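import Pool.Agent.TTT.Sym

set_option autoImplicit false
set_option maxRecDepth 100000

namespace Pool.Agent.TTT.A01

def t1_2 : T TT 256 :=
  (.f k170 k255 14 (.q k12 [(.s k4 k8 1 (.s k166 k247 12 (.s k162 k174 1 (.d k243 k81 k89 12 14))))]
  (.c k4 (.q k32 [(.s k48 k16 3 (.s k101 k239 10 (.s k69 k117 3 (.d k207 k138 k154 10 14)))), (.s
  k48 k16 3 (.s k36 k24 5 (.s k40 k44 1 (.s k105 k235 8 (.s k65 k125 5 (.s k195 k130 8 (.d k60 k20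
  k150 5 14)))))))] (.c k16 (.l (.s k101 k239 10 (.s k69 k117 3 (.s k207 k138 10 (.s k77 k142 8 (.s
  k89 k113 5 (.s k81 k93 1 (.d k243 k162 k166 12 14)))))))) (.c k48 (.f k101 k239 10 (.q k207 [(.d
  k69 k117 k138 3 10), (.s k77 k142 8 (.s k89 k113 5 (.s k81 k93 1 (.d k243 k162 k166 12 14))))] (.c
  k117 (.q k186 [(.d k138 k154 k69 3 10), (.s k77 k142 8 (.s k89 k113 5 (.s k81 k93 1 (.d k243 k162
  k166 12 14))))] .n) (.c k186 (.l (.s k117 k69 3 (.s k77 k142 8 (.s k89 k113 5 (.s k81 k93 1 (.d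
  k243 k162 k166 12 14)))))) .n)))) .n))) (.c k8 (.q k65 [(.s k105 k125 5 (.s k40 k235 8 (.s k60 k20
  5 (.d k195 k130 k150 8 14)))), (.s k195 k130 8 (.s k73 k134 10 (.s k69 k77 1 (.s k101 k117 3 (.s
  k32 k239 10 (.s k48 k16 3 (.d k207 k138 k154 10 14)))))))] (.c k130 (.l (.s k105 k125 5 (.s k40
  k235 8 (.s k60 k20 5 (.s k44 k28 3 (.s k166 k227 10 (.s k162 k174 1 (.d k243 k81 k89 12 14))))))))
  (.c k195 (.f k105 k125 5 (.q k60 [(.d k40 k235 k20 8 5), (.s k44 k28 3 (.s k166 k227 10 (.s k162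
  k174 1 (.d k243 k81 k89 12 14))))] (.c k215 (.l (.s k235 k40 8 (.s k44 k28 3 (.s k166 k227 10 (.s
  k162 k174 1 (.d k243 k81 k89 12 14)))))) (.c k235 (.q k215 [(.d k20 k40 k150 5 8), (.s k44 k28 3
  (.s k166 k227 10 (.s k162 k174 1 (.d k243 k81 k89 12 14))))] .n) .n)))) .n))) (.c k81 (.f k4 k8 1
  (.f k247 k166 12 (.q k32 [(.s k48 k16 3 (.s k101 k239 10 (.s k69 k117 3 (.d k207 k138 k154 10
  14)))), (.s k48 k16 3 (.s k36 k24 5 (.s k20 k52 3 (.d k40 k44 k60 1 5)))), (.s k101 k239 10 (.s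
  k117 k69 3 (.s k52 k182 8 (.s k20 k36 3 (.d k150 k215 k199 8 12)))))] (.c k161 (.q k241 [(.s k48
  k16 3 (.s k101 k239 10 (.s k69 k117 3 (.d k207 k138 k154 10 14)))), (.s k48 k16 3 (.s k36 k24 5
  (.s k20 k52 3 (.d k40 k44 k60 1 5)))), (.s k101 k239 10 (.s k117 k69 3 (.s k52 k182 8 (.s k20 k36
  3 (.d k150 k215 k199 8 12)))))] .n) (.c k241 (.q k161 [(.s k48 k16 3 (.s k101 k239 10 (.s k69 k117
  3 (.d k207 k138 k154 10 14)))), (.s k48 k16 3 (.s k36 k24 5 (.s k20 k52 3 (.d k40 k44 k60 1 5)))),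
  (.s k101 k239 10 (.s k117 k69 3 (.s k52 k182 8 (.s k20 k36 3 (.d k150 k215 k199 8 12)))))] .n)
  .n))))) (.c k89 (.q k16 [(.s k48 k32 3 (.s k154 k223 10 (.s k138 k186 3 (.d k207 k69 k101 10
  14)))), (.s k8 k4 1 (.s k48 k32 3 (.s k24 k36 5 (.s k20 k28 1 (.d k40 k56 k60 3 5))))), (.s k4 k8
  1 (.s k154 k223 10 (.s k166 k247 12 (.s k142 k178 5 (.s k207 k77 8 (.d k138 k186 k69 3 10))))))]
  .n) (.c k162 (.f k4 k8 1 (.q k136 [(.s k153 k187 4 (.s k17 k221 9 (.s k204 k68 9 (.d k51 k34 k102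
  4 14)))), (.s k68 k204 9 (.s k132 k196 7 (.s k128 k140 1 (.d k192 k64 k72 7 9)))), (.s k153 k187 4
  (.s k166 k247 12 (.s k179 k140 6 (.s k243 k89 14 (.s k51 k115 7 (.d k17 k34 k221 4 9))))))] (.c
  k82 (.q k242 [(.s k153 k187 4 (.s k17 k221 9 (.s k204 k68 9 (.d k51 k34 k102 4 14)))), (.s k166
  k247 12 (.s k90 k14 13 (.s k80 k95 2 (.s k240 k160 11 (.d k243 k241 k89 0 14)))))] .n) (.c k221
  (.l (.s k153 k187 4 (.s k166 k247 12 (.s k140 k179 6 (.d k204 k76 k68 7 9))))) (.c k242 (.q k82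
  [(.s k153 k187 4 (.s k17 k221 9 (.s k204 k68 9 (.d k51 k34 k102 4 14)))), (.s k68 k204 9 (.s k132
  k196 7 (.s k128 k140 1 (.d k192 k64 k72 7 9)))), (.s k153 k187 4 (.s k166 k247 12 (.s k179 k140 6
  (.s k243 k89 14 (.s k51 k115 7 (.d k17 k34 k221 4 9))))))] (.c k221 (.l (.s k153 k187 4 (.s k166
  k247 12 (.s k140 k179 6 (.d k204 k76 k68 7 9))))) .n)) .n))))) (.c k166 (.q k16 [(.s k48 k32 3 (.s
  k154 k223 10 (.s k138 k186 3 (.d k207 k69 k101 10 14)))), (.s k8 k4 1 (.s k48 k32 3 (.s k24 k36 5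
  (.s k20 k28 1 (.d k40 k56 k60 3 5))))), (.s k8 k4 1 (.s k89 k251 12 (.s k154 k223 10 (.s k24 k219
  8 (.s k20 k28 1 (.d k40 k56 k60 3 5))))))] .n) (.c k174 (.l (.s k8 k4 1 (.s k89 k251 12 (.s k81
  k93 1 (.d k243 k162 k166 12 14))))) (.c k243 (.f k4 k8 1 (.q k68 [(.s k102 k119 4 (.s k34 k238 9
  (.s k51 k17 4 (.d k204 k136 k153 9 14)))), (.s k132 k196 7 (.s k72 k192 9 (.s k76 k64 1 (.d k204
  k140 k136 7 9)))), (.s k102 k119 4 (.s k196 k132 7 (.s k55 k149 12 (.s k38 k21 4 (.d k166 k247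
  k230 12 7)))))] (.c k247 (.q k251 [(.s k102 k119 4 (.s k34 k238 9 (.s k51 k17 4 (.d k204 k136 k153
  9 14)))), (.s k132 k196 7 (.s k72 k192 9 (.s k76 k64 1 (.d k204 k140 k136 7 9)))), (.s k102 k119 4
  (.s k196 k132 7 (.s k55 k149 12 (.s k38 k21 4 (.s k51 k25 6 (.d k34 k17 k238 4 9))))))] .n) (.c
  k251 (.l (.s k247 k166 12 (.s k102 k119 4 (.s k34 k238 9 (.s k51 k17 4 (.d k204 k136 k153 9
  14)))))) .n)))) (.c k247 (.l (.s k8 k4 1 (.s k89 k251 12 (.s k243 k166 14 (.d k81 k93 k162 1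
  12))))) (.c k251 (.l (.s k4 k8 1 (.s k166 k247 12 (.s k243 k89 14 (.d k162 k174 k81 1 12)))))
  .n))))))))))))

def t1_3 : T TT 256 :=
  (.f k255 k170 14 (.q k102 [(.s k68 k119 4 (.s k204 k136 9 (.s k221 k238 4 (.d k153 k17 k51 9
  14))))] (.c k17 (.f k68 k119 4 (.q k117 [(.s k48 k186 10 (.s k16 k32 3 (.s k154 k223 10 (.d k101
  k69 k207 3 14)))), (.s k101 k69 3 (.s k100 k103 0 (.s k204 k136 9 (.d k48 k186 k152 10 13)))), (.s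
  k48 k186 10 (.s k32 k16 3 (.s k204 k136 9 (.s k100 k152 13 (.s k84 k116 3 (.d k168 k236 k252 9
  13))))))] (.c k33 (.q k49 [(.s k101 k69 3 (.s k204 k136 9 (.d k153 k205 k51 13 14))), (.s k48 k186
  10 (.s k16 k32 3 (.s k50 k51 0 (.d k154 k223 k206 10 13))))] (.c k18 (.l (.s k48 k186 10 (.s k51
  k50 0 (.d k204 k136 k153 9 14)))) (.c k48 (.q k18 [(.s k101 k69 3 (.s k204 k136 9 (.d k153 k205
  k51 13 14))), (.s k253 k185 9 (.s k252 k254 0 (.s k84 k168 13 (.s k100 k116 3 (.d k101 k103 k69 0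
  3))))), (.s k204 k136 9 (.s k153 k51 14 (.s k253 k185 9 (.s k252 k254 0 (.s k84 k168 13 (.s k86
  k87 0 (.d k220 k19 k236 10 3)))))))] .n) (.c k51 (.l (.s k48 k186 10 (.s k16 k32 3 (.s k101 k69 3
  (.d k154 k223 k207 10 14))))) (.c k101 (.l (.s k48 k186 10 (.s k51 k50 0 (.d k204 k136 k153 9
  14)))) .n))))) (.c k48 (.l (.s k69 k101 3 (.s k204 k136 9 (.s k207 k138 10 (.s k206 k205 0 (.s
  k154 k50 13 (.d k223 k239 k16 3 10))))))) (.c k49 (.q k33 [(.s k48 k186 10 (.s k16 k32 3 (.s k154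
  k223 10 (.d k101 k69 k207 3 14)))), (.s k101 k69 3 (.s k100 k103 0 (.s k84 k116 3 (.s k169 k237 9
  (.s k236 k35 10 (.d k168 k32 k252 9 13)))))), (.s k48 k186 10 (.s k32 k16 3 (.s k35 k34 0 (.s k204
  k136 9 (.s k100 k152 13 (.d k236 k168 k169 9 10))))))] (.c k32 (.l (.s k48 k186 10 (.s k101 k69 3
  (.s k100 k103 0 (.d k204 k136 k152 9 13))))) .n)) (.c k186 (.l (.s k101 k69 3 (.s k100 k103 0 (.s
  k204 k136 9 (.s k48 k152 13 (.s k16 k32 3 (.d k154 k223 k207 10 14))))))) .n)))))) (.c k51 (.f k68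
  k119 4 (.q k69 [(.s k207 k138 10 (.s k223 k239 3 (.s k154 k16 10 (.d k101 k117 k48 3 14)))), (.s
  k71 k70 0 (.s k101 k117 3 (.s k116 k86 4 (.d k100 k103 k84 0 3)))), (.s k204 k136 9 (.s k207 k138
  10 (.s k206 k205 0 (.s k154 k50 13 (.d k223 k239 k16 3 10)))))] (.c k19 (.q k35 [(.s k101 k117 3
  (.s k103 k100 0 (.s k207 k138 10 (.d k239 k223 k171 3 9)))), (.s k204 k136 9 (.s k207 k138 10 (.s
  k206 k205 0 (.s k154 k50 13 (.d k223 k239 k16 3 10))))), (.s k71 k70 0 (.s k101 k117 3 (.s k116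
  k86 4 (.d k100 k103 k84 0 3))))] .n) (.c k35 (.q k19 [(.s k207 k138 10 (.s k223 k239 3 (.s k154
  k16 10 (.d k101 k117 k48 3 14)))), (.s k70 k71 0 (.s k204 k136 9 (.s k221 k238 4 (.s k153 k17 9
  (.d k86 k118 k220 3 10)))))] (.c k103 (.l (.s k101 k117 3 (.s k207 k138 10 (.s k154 k48 14 (.d
  k223 k239 k16 3 10))))) (.c k207 (.l (.s k71 k70 0 (.s k101 k117 3 (.s k116 k86 4 (.d k100 k103
  k84 0 3))))) .n))) .n)))) (.c k68 (.q k4 [(.s k12 k8 1 (.s k93 k174 12 (.s k166 k247 12 (.d k89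
  k81 k243 1 14)))), (.s k166 k247 12 (.s k38 k230 7 (.s k21 k55 4 (.s k63 k42 6 (.s k127 k191 7 (.s
  k106 k64 6 (.d k149 k213 k192 7 14)))))))] (.c k166 (.f k12 k8 1 (.q k89 [(.d k93 k174 k81 12 1),
  (.s k76 k115 6 (.s k204 k140 7 (.s k153 k51 14 (.d k221 k238 k17 4 9))))] (.c k162 (.l (.s k174
  k93 12 (.s k76 k115 6 (.s k204 k140 7 (.s k153 k51 14 (.d k221 k238 k17 4 9)))))) (.c k174 (.q
  k162 [(.d k81 k93 k243 1 12), (.s k76 k115 6 (.s k204 k140 7 (.s k221 k238 4 (.d k153 k17 k51 9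
  14))))] .n) .n)))) (.c k247 (.l (.s k12 k8 1 (.s k93 k174 12 (.s k89 k81 1 (.s k76 k115 6 (.s k204
  k140 7 (.s k153 k51 14 (.d k221 k238 k17 4 9)))))))) .n))) (.c k119 (.q k247 [(.s k166 k4 12 (.s
  k243 k251 1 (.s k81 k162 12 (.d k89 k93 k12 1 14)))), (.s k166 k4 12 (.s k230 k38 7 (.s k213 k196
  4 (.s k192 k234 6 (.s k64 k128 7 (.s k106 k127 6 (.d k149 k21 k63 7 14)))))))] (.c k4 (.l (.s k243
  k251 1 (.s k81 k162 12 (.s k89 k93 1 (.s k115 k76 6 (.s k51 k179 7 (.s k17 k34 4 (.d k153 k221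
  k204 9 14)))))))) (.c k166 (.f k243 k251 1 (.q k89 [(.d k81 k162 k93 12 1), (.s k115 k76 6 (.s k51
  k179 7 (.s k17 k34 4 (.d k153 k221 k204 9 14))))] (.c k162 (.q k174 [(.d k93 k81 k12 1 12), (.s
  k115 k76 6 (.s k51 k179 7 (.s k17 k34 4 (.d k153 k221 k204 9 14))))] .n) (.c k174 (.l (.s k162 k81
  12 (.s k115 k76 6 (.s k51 k179 7 (.s k17 k34 4 (.d k153 k221 k204 9 14)))))) .n)))) .n))) (.c k136
  (.l (.s k119 k68 4 (.s k51 k187 9 (.s k153 k204 14 (.d k17 k34 k221 4 9))))) (.c k153 (.f k119 k68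
  4 (.q k247 [(.s k55 k183 7 (.s k149 k196 12 (.s k21 k213 7 (.d k4 k38 k166 4 12)))), (.s k243 k251
  1 (.s k81 k162 12 (.s k89 k93 1 (.d k166 k4 k12 12 14))))] (.c k4 (.l (.s k183 k55 7 (.s k187 k51
  9 (.s k191 k179 1 (.s k63 k127 7 (.d k243 k251 k123 1 9)))))) (.c k136 (.l (.s k187 k51 9 (.s k4
  k166 12 (.s k55 k183 7 (.s k21 k38 4 (.d k149 k213 k196 7 12)))))) (.c k166 (.l (.s k55 k183 7 (.s
  k149 k196 12 (.s k21 k213 7 (.s k63 k42 6 (.d k51 k59 k187 1 9)))))) (.c k187 (.q k136 [(.s k166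
  k4 12 (.s k230 k38 7 (.s k196 k213 4 (.d k55 k183 k149 7 12)))), (.s k243 k251 1 (.s k81 k162 12
  (.s k89 k93 1 (.d k166 k4 k12 12 14))))] (.c k4 (.l (.s k183 k55 7 (.s k243 k251 1 (.s k81 k162 12
  (.s k89 k93 1 (.s k115 k76 6 (.d k123 k127 k63 1 9))))))) (.c k166 (.l (.s k55 k183 7 (.s k149
  k196 12 (.s k21 k213 7 (.s k63 k42 6 (.s k106 k192 14 (.d k127 k191 k64 7 6))))))) .n))) .n))))))
  (.c k187 (.l (.s k68 k119 4 (.s k204 k136 9 (.s k153 k51 14 (.d k221 k238 k17 4 9))))) (.c k204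
  (.f k68 k119 4 (.q k149 [(.s k21 k213 7 (.s k63 k42 6 (.s k127 k191 7 (.d k106 k64 k192 6 14)))),
  (.s k196 k55 12 (.s k4 k132 7 (.s k12 k8 1 (.s k93 k174 12 (.s k89 k81 1 (.d k166 k247 k243 12
  14))))))] (.c k70 (.q k137 [(.s k21 k213 7 (.s k63 k42 6 (.s k127 k191 7 (.d k106 k64 k192 6
  14)))), (.s k196 k55 12 (.s k4 k132 7 (.s k12 k8 1 (.s k93 k174 12 (.s k89 k81 1 (.d k166 k247
  k243 12 14))))))] .n) (.c k137 (.q k70 [(.s k21 k213 7 (.s k63 k42 6 (.s k127 k191 7 (.d k106 k64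
  k192 6 14)))), (.s k86 k118 3 (.s k84 k87 0 (.s k116 k100 3 (.d k71 k69 k101 0 4))))] (.c k69 (.q
  k205 [(.s k21 k213 7 (.s k63 k42 6 (.s k127 k191 7 (.d k106 k64 k192 6 14)))), (.s k86 k118 3 (.s
  k196 k55 12 (.s k7 k133 8 (.s k212 k23 8 (.d k244 k228 k165 3 12)))))] (.c k63 (.l (.s k196 k55 12
  (.s k4 k132 7 (.s k213 k21 7 (.d k247 k230 k166 4 12))))) .n)) (.c k205 (.l (.s k69 k71 0 (.s k21
  k213 7 (.s k63 k42 6 (.s k106 k192 14 (.d k127 k64 k191 6 7)))))) .n))) .n)))) (.c k221 (.q k4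
  [(.s k12 k8 1 (.s k93 k174 12 (.s k166 k247 12 (.d k89 k81 k243 1 14)))), (.s k68 k119 4 (.s k166
  k247 12 (.s k38 k230 7 (.s k55 k21 4 (.d k196 k132 k149 7 12))))), (.s k12 k8 1 (.s k68 k119 4 (.s
  k132 k196 7 (.s k72 k192 9 (.s k76 k64 1 (.d k204 k140 k136 7 9))))))] .n) (.c k238 (.l (.s k119
  k68 4 (.s k51 k187 9 (.s k17 k34 4 (.d k153 k221 k204 9 14))))) .n))))))))))))

def t1_4 : T TT 256 :=
  (.f k255 k170 14 (.q k90 [(.s k80 k95 2 (.s k240 k160 11 (.s k165 k15 14 (.d k245 k250 k5 2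
  11))))] (.c k5 (.f k95 k80 2 (.q k3 [(.s k15 k175 11 (.s k7 k11 1 (.s k165 k240 14 (.s k86 k244 12
  (.d k87 k84 k171 0 13))))), (.s k87 k171 13 (.s k83 k91 1 (.s k86 k84 0 (.s k92 k89 2 (.d k94 k93
  k82 0 1))))), (.s k15 k175 11 (.s k7 k11 1 (.s k87 k171 13 (.s k91 k83 1 (.d k167 k247 k243 11
  13))))), (.s k15 k175 11 (.s k7 k11 1 (.s k165 k240 14 (.s k86 k244 12 (.s k94 k82 1 (.d k252 k173
  k169 12 14))))))] (.c k6 (.q k7 [(.d k15 k11 k175 1 11)] (.c k9 (.q k13 [(.d k15 k11 k175 1 11)]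
  (.c k11 (.l (.s k15 k175 11 (.s k87 k171 13 (.s k86 k84 0 (.d k165 k244 k240 12 14))))) (.c k15
  (.l (.s k87 k171 13 (.s k83 k91 1 (.s k243 k163 11 (.d k247 k251 k167 1 11))))) (.c k175 (.l (.s
  k11 k15 1 (.s k87 k171 13 (.s k86 k84 0 (.d k169 k248 k252 12 14))))) .n)))) (.c k11 (.l (.s k15
  k175 11 (.s k87 k171 13 (.s k86 k84 0 (.d k165 k244 k240 12 14))))) (.c k13 (.q k9 [(.d k15 k11
  k175 1 11)] (.c k11 (.l (.s k15 k175 11 (.s k87 k171 13 (.s k86 k84 0 (.d k165 k244 k240 12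
  14))))) (.c k15 (.l (.s k87 k171 13 (.s k83 k91 1 (.s k243 k163 11 (.d k247 k251 k167 1 11)))))
  (.c k175 (.l (.s k11 k15 1 (.s k87 k171 13 (.s k86 k84 0 (.d k169 k248 k252 12 14))))) .n)))) (.c
  k15 (.l (.s k87 k171 13 (.s k83 k91 1 (.s k243 k163 11 (.d k247 k251 k167 1 11))))) (.c k175 (.l
  (.s k11 k15 1 (.s k87 k171 13 (.s k86 k84 0 (.d k169 k248 k252 12 14))))) .n)))))) (.c k7 (.q k6
  [(.s k9 k12 2 (.s k87 k171 13 (.s k91 k83 1 (.s k89 k88 0 (.s k169 k249 11 (.d k86 k84 k252 0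
  14)))))), (.s k15 k175 11 (.s k12 k9 2 (.s k13 k14 0 (.s k93 k174 12 (.s k89 k81 1 (.d k165 k241
  k240 13 14)))))), (.s k15 k175 11 (.s k87 k171 13 (.s k86 k84 0 (.s k82 k94 1 (.d k240 k165 k161
  14 12))))), (.s k9 k12 2 (.s k87 k171 13 (.s k83 k91 1 (.s k86 k84 0 (.s k169 k252 14 (.d k89 k92
  k249 2 11))))))] (.c k9 (.q k13 [(.s k15 k175 11 (.s k12 k14 0 (.s k165 k240 14 (.s k89 k241 13
  (.d k93 k81 k174 1 12))))), (.s k87 k171 13 (.s k83 k91 1 (.s k86 k84 0 (.s k92 k89 2 (.d k94 k93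
  k82 0 1))))), (.s k15 k175 11 (.s k87 k171 13 (.s k86 k84 0 (.s k82 k94 1 (.d k240 k165 k161 14
  12)))))] .n) (.c k13 (.l (.s k9 k12 2 (.s k15 k175 11 (.s k87 k171 13 (.s k86 k84 0 (.s k82 k94 1
  (.d k240 k165 k161 14 12))))))) .n))) (.c k9 (.q k13 [(.s k15 k175 11 (.s k7 k11 1 (.s k165 k240
  14 (.s k86 k244 12 (.d k87 k84 k171 0 13))))), (.s k15 k175 11 (.s k12 k14 0 (.s k93 k174 12 (.s
  k89 k81 1 (.d k165 k241 k240 13 14))))), (.s k87 k171 13 (.s k83 k91 1 (.s k86 k84 0 (.s k92 k89 2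
  (.d k94 k93 k82 0 1)))))] (.c k6 (.q k7 [(.d k15 k11 k175 1 11)] (.c k11 (.l (.s k15 k175 11 (.s
  k87 k171 13 (.s k86 k84 0 (.d k165 k244 k240 12 14))))) (.c k15 (.l (.s k87 k171 13 (.s k83 k91 1
  (.s k243 k163 11 (.d k247 k251 k167 1 11))))) (.c k175 (.l (.s k11 k15 1 (.s k87 k171 13 (.s k86
  k84 0 (.d k169 k248 k252 12 14))))) .n)))) (.c k7 (.q k6 [(.s k15 k175 11 (.s k12 k14 0 (.s k165
  k240 14 (.s k89 k241 13 (.d k93 k81 k174 1 12))))), (.s k87 k171 13 (.s k83 k91 1 (.s k86 k84 0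
  (.s k92 k89 2 (.d k94 k93 k82 0 1))))), (.s k15 k175 11 (.s k87 k171 13 (.s k86 k84 0 (.s k82 k94
  1 (.d k240 k165 k161 14 12)))))] .n) .n))) (.c k11 (.l (.s k15 k175 11 (.s k87 k171 13 (.s k86 k84
  0 (.s k82 k94 1 (.d k240 k165 k161 14 12)))))) (.c k13 (.q k9 [(.s k15 k175 11 (.s k7 k11 1 (.s
  k165 k240 14 (.s k86 k244 12 (.d k87 k84 k171 0 13))))), (.s k15 k175 11 (.s k7 k11 1 (.s k87 k171
  13 (.s k91 k83 1 (.d k167 k247 k243 11 13))))), (.s k87 k171 13 (.s k83 k91 1 (.s k86 k84 0 (.s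
  k94 k82 1 (.d k92 k93 k89 0 2))))), (.s k15 k175 11 (.s k7 k11 1 (.s k165 k240 14 (.s k86 k244 12
  (.s k94 k82 1 (.d k252 k173 k169 12 14))))))] (.c k6 (.q k7 [(.d k15 k11 k175 1 11)] (.c k11 (.l
  (.s k15 k175 11 (.s k87 k171 13 (.s k86 k84 0 (.d k165 k244 k240 12 14))))) (.c k15 (.l (.s k87
  k171 13 (.s k83 k91 1 (.s k243 k163 11 (.d k247 k251 k167 1 11))))) (.c k175 (.l (.s k11 k15 1 (.s
  k87 k171 13 (.s k86 k84 0 (.d k169 k248 k252 12 14))))) .n)))) (.c k7 (.l (.s k6 k12 2 (.s k15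
  k175 11 (.s k87 k171 13 (.s k86 k84 0 (.s k82 k94 1 (.d k240 k165 k161 14 12))))))) (.c k11 (.l
  (.s k15 k175 11 (.s k87 k171 13 (.s k86 k84 0 (.s k82 k94 1 (.d k240 k165 k161 14 12)))))) .n))))
  .n))))))) (.c k15 (.q k16 [(.s k48 k32 3 (.s k117 k186 10 (.s k154 k223 10 (.d k101 k69 k207 3
  14)))), (.s k80 k95 2 (.s k154 k223 10 (.s k26 k218 7 (.s k31 k21 2 (.d k208 k144 k149 7 10))))),
  (.s k48 k32 3 (.s k80 k95 2 (.s k144 k208 7 (.s k96 k192 11 (.s k112 k64 3 (.d k240 k176 k160 7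
  11))))))] .n) (.c k80 (.q k16 [(.s k154 k223 10 (.s k48 k32 3 (.s k101 k207 14 (.d k117 k69 k186 3
  10)))), (.s k154 k223 10 (.s k26 k218 7 (.s k21 k31 2 (.s k63 k42 6 (.s k127 k191 7 (.s k106 k64 6
  (.d k149 k213 k192 7 14)))))))] (.c k154 (.f k48 k32 3 (.q k101 [(.d k117 k186 k69 10 3), (.s k112
  k79 6 (.s k240 k176 7 (.s k165 k15 14 (.d k245 k250 k5 2 11))))] (.c k138 (.l (.s k186 k117 10 (.s
  k112 k79 6 (.s k240 k176 7 (.s k165 k15 14 (.d k245 k250 k5 2 11)))))) (.c k186 (.q k138 [(.d k69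
  k117 k207 3 10), (.s k112 k79 6 (.s k240 k176 7 (.s k245 k250 2 (.d k165 k5 k15 11 14))))] .n)
  .n)))) (.c k223 (.l (.s k48 k32 3 (.s k117 k186 10 (.s k101 k69 3 (.s k112 k79 6 (.s k240 k176 7
  (.s k165 k15 14 (.d k245 k250 k5 2 11)))))))) .n))) (.c k95 (.q k213 [(.s k192 k234 6 (.s k64 k128
  7 (.s k106 k127 6 (.d k149 k21 k63 7 14)))), (.s k149 k21 7 (.s k208 k31 10 (.s k223 k218 2 (.s
  k207 k239 3 (.s k69 k138 10 (.s k101 k117 3 (.d k154 k16 k48 10 14)))))))] (.c k21 (.l (.s k192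
  k234 6 (.s k64 k128 7 (.s k106 k127 6 (.s k74 k122 3 (.s k15 k133 10 (.s k5 k10 2 (.d k165 k245
  k240 11 14)))))))) (.c k149 (.f k192 k234 6 (.q k106 [(.d k64 k128 k127 7 6), (.s k74 k122 3 (.s
  k15 k133 10 (.s k5 k10 2 (.d k165 k245 k240 11 14))))] (.c k128 (.q k191 [(.d k127 k64 k63 6 7),
  (.s k74 k122 3 (.s k15 k133 10 (.s k5 k10 2 (.d k165 k245 k240 11 14))))] .n) (.c k191 (.l (.s
  k128 k64 7 (.s k74 k122 3 (.s k15 k133 10 (.s k5 k10 2 (.d k165 k245 k240 11 14)))))) .n)))) .n)))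
  (.c k160 (.l (.s k95 k80 2 (.s k15 k175 11 (.s k165 k240 14 (.d k5 k10 k245 2 11))))) (.c k165 (.f
  k95 k80 2 (.q k101 [(.s k69 k117 3 (.s k207 k138 10 (.s k154 k48 14 (.d k223 k239 k16 3 10)))),
  (.s k79 k112 6 (.s k127 k111 3 (.s k63 k191 7 (.s k21 k42 6 (.s k149 k213 7 (.d k106 k64 k192 6
  14))))))] (.c k160 (.l (.s k175 k15 11 (.s k69 k117 3 (.s k79 k112 6 (.s k64 k74 2 (.d k127 k111
  k106 3 6)))))) (.c k175 (.q k160 [(.s k69 k117 3 (.s k207 k138 10 (.s k154 k48 14 (.d k223 k239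
  k16 3 10)))), (.s k79 k112 6 (.s k127 k111 3 (.s k63 k191 7 (.s k21 k42 6 (.s k149 k213 7 (.d k106
  k64 k192 6 14))))))] (.c k239 (.l (.s k69 k117 3 (.s k79 k112 6 (.s k64 k74 2 (.d k127 k111 k106 3
  6))))) .n)) .n)))) (.c k175 (.l (.s k80 k95 2 (.s k240 k160 11 (.s k165 k15 14 (.d k245 k250 k5 2
  11))))) (.c k240 (.q k16 [(.s k48 k32 3 (.s k117 k186 10 (.s k154 k223 10 (.d k101 k69 k207 3
  14)))), (.s k80 k95 2 (.s k154 k223 10 (.s k26 k218 7 (.s k31 k21 2 (.d k208 k144 k149 7 10))))),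
  (.s k48 k32 3 (.s k95 k80 2 (.s k15 k175 11 (.s k10 k5 2 (.s k26 k37 6 (.s k21 k31 2 (.d k42 k58
  k63 3 6)))))))] .n) (.c k245 (.q k3 [(.s k80 k95 2 (.s k87 k171 13 (.s k86 k84 0 (.s k82 k94 1 (.d
  k240 k160 k161 11 12))))), (.s k87 k171 13 (.s k95 k80 2 (.s k15 k175 11 (.s k7 k11 1 (.s k91 k83
  1 (.d k167 k247 k243 11 13)))))), (.s k87 k171 13 (.s k86 k84 0 (.s k82 k94 1 (.s k169 k252 14 (.s
  k11 k248 12 (.s k15 k7 1 (.d k240 k161 k165 12 14))))))), (.s k80 k95 2 (.s k240 k160 11 (.s k82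
  k161 12 (.s k86 k94 1 (.s k165 k15 14 (.s k244 k7 12 (.d k252 k248 k169 1 14)))))))] (.c k82 (.l
  (.s k87 k171 13 (.s k86 k84 0 (.s k95 k80 2 (.s k15 k175 11 (.s k7 k11 1 (.d k165 k244 k240 12
  14))))))) (.c k169 (.l (.s k80 k95 2 (.s k240 k160 11 (.s k82 k161 12 (.s k86 k94 1 (.d k87 k84
  k171 0 13)))))) .n))) (.c k250 (.l (.s k95 k80 2 (.s k15 k175 11 (.s k5 k10 2 (.d k165 k245 k240
  11 14))))) .n))))))))))))

def t1_5 : T TT 256 :=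
  (.q k89 [(.s k81 k93 1 (.s k243 k162 12 (.s k12 k166 14 (.s k170 k255 14 (.d k8 k4 k251 1 12)))))]
  (.c k4 (.f k255 k170 14 (.f k93 k81 1 (.q k13 [(.s k12 k174 12 (.s k15 k14 0 (.s k173 k253 11 (.s
  k94 k252 12 (.d k95 k92 k175 0 11))))), (.s k241 k165 13 (.s k253 k173 11 (.s k249 k245 1 (.s k169
  k9 11 (.s k252 k254 0 (.s k84 k168 13 (.d k86 k87 k3 0 14))))))), (.s k12 k174 12 (.s k14 k15 0
  (.s k166 k243 14 (.s k90 k242 13 (.s k80 k95 2 (.s k240 k160 11 (.d k88 k91 k164 0 13)))))))] (.c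
  k6 (.q k7 [(.s k253 k173 11 (.s k252 k254 0 (.s k84 k168 13 (.s k86 k87 0 (.d k165 k241 k244 13
  12))))), (.s k12 k174 12 (.s k15 k14 0 (.s k95 k175 11 (.s k90 k80 2 (.d k165 k241 k240 13
  14))))), (.s k12 k174 12 (.s k241 k165 13 (.s k253 k173 11 (.s k245 k249 1 (.s k240 k250 2 (.d
  k243 k166 k242 14 0))))))] (.c k161 (.l (.s k241 k165 13 (.s k12 k174 12 (.s k15 k14 0 (.s k173
  k253 11 (.s k94 k252 12 (.d k95 k175 k92 11 0))))))) (.c k165 (.l (.s k12 k174 12 (.s k15 k14 0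
  (.s k173 k253 11 (.s k94 k252 12 (.d k95 k92 k175 0 11)))))) (.c k173 (.l (.s k12 k174 12 (.s k15
  k14 0 (.s k3 k11 1 (.s k87 k171 13 (.s k86 k84 0 (.d k165 k244 k241 12 13))))))) (.c k241 (.q k161
  [(.s k12 k174 12 (.s k15 k14 0 (.s k173 k253 11 (.s k94 k252 12 (.d k95 k92 k175 0 11))))), (.s
  k173 k253 11 (.s k165 k169 1 (.s k86 k244 12 (.s k84 k87 0 (.s k92 k83 2 (.s k80 k88 1 (.d k95 k94
  k90 0 2))))))), (.s k12 k174 12 (.s k15 k14 0 (.s k3 k11 1 (.s k87 k171 13 (.s k167 k247 11 (.d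
  k243 k91 k166 13 14))))))] (.c k94 (.l (.s k253 k173 11 (.s k252 k254 0 (.s k84 k168 13 (.s k86
  k87 0 (.s k92 k83 2 (.d k12 k174 k172 12 11))))))) .n)) .n))))) (.c k7 (.q k6 [(.s k12 k174 12 (.s
  k9 k3 2 (.s k169 k249 11 (.s k173 k253 11 (.d k165 k161 k241 1 13))))), (.s k253 k173 11 (.s k252
  k254 0 (.s k84 k168 13 (.s k86 k87 0 (.s k92 k83 2 (.d k12 k172 k174 11 12)))))), (.s k12 k174 12
  (.s k166 k243 14 (.s k3 k9 2 (.s k86 k246 11 (.d k87 k84 k171 0 13))))), (.s k241 k165 13 (.s k253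
  k173 11 (.s k249 k245 1 (.s k169 k9 11 (.s k252 k254 0 (.s k84 k168 13 (.d k86 k87 k3 0 14)))))))]
  (.c k161 (.l (.s k241 k165 13 (.s k12 k174 12 (.s k3 k9 2 (.s k87 k171 13 (.s k86 k84 0 (.d k166
  k246 k243 11 14))))))) (.c k241 (.q k161 [(.s k12 k174 12 (.s k9 k3 2 (.s k169 k249 11 (.d k173
  k253 k165 11 1)))), (.s k253 k173 11 (.s k252 k254 0 (.s k84 k168 13 (.s k86 k87 0 (.s k92 k83 2
  (.s k80 k88 1 (.d k95 k94 k90 0 2))))))), (.s k12 k174 12 (.s k166 k243 14 (.s k3 k9 2 (.s k86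
  k246 11 (.d k87 k84 k171 0 13)))))] .n) .n))) (.c k161 (.l (.s k241 k165 13 (.s k12 k174 12 (.s
  k15 k14 0 (.s k173 k253 11 (.s k94 k252 12 (.d k95 k175 k92 11 0))))))) (.c k175 (.l (.s k253 k173
  11 (.s k252 k254 0 (.s k84 k168 13 (.s k86 k87 0 (.s k92 k83 2 (.d k12 k172 k174 11 12))))))) (.c
  k241 (.q k161 [(.s k12 k174 12 (.s k15 k14 0 (.s k173 k253 11 (.s k94 k252 12 (.d k95 k92 k175 0
  11))))), (.s k253 k173 11 (.s k252 k254 0 (.s k84 k168 13 (.s k86 k87 0 (.s k92 k83 2 (.s k80 k88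
  1 (.d k95 k94 k90 0 2))))))), (.s k12 k174 12 (.s k15 k14 0 (.s k95 k175 11 (.s k90 k80 2 (.s k88
  k91 0 (.d k240 k165 k164 14 13))))))] (.c k6 (.q k7 [(.s k12 k174 12 (.s k15 k14 0 (.s k173 k253
  11 (.s k94 k252 12 (.d k95 k92 k175 0 11))))), (.s k173 k253 11 (.s k165 k169 1 (.s k86 k244 12
  (.s k84 k87 0 (.s k92 k83 2 (.s k80 k88 1 (.d k95 k94 k90 0 2))))))), (.s k12 k174 12 (.s k15 k14
  0 (.s k3 k11 1 (.s k87 k171 13 (.s k167 k247 11 (.d k243 k91 k166 13 14))))))] (.c k94 (.l (.s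
  k253 k173 11 (.s k252 k254 0 (.s k84 k168 13 (.s k86 k87 0 (.s k92 k83 2 (.d k12 k174 k172 12
  11))))))) .n)) (.c k7 (.q k6 [(.s k12 k174 12 (.s k9 k3 2 (.s k169 k249 11 (.d k173 k253 k165 11
  1)))), (.s k253 k173 11 (.s k252 k254 0 (.s k84 k168 13 (.s k86 k87 0 (.s k92 k83 2 (.s k80 k88 1
  (.d k95 k94 k90 0 2))))))), (.s k12 k174 12 (.s k166 k243 14 (.s k3 k9 2 (.s k86 k246 11 (.d k87
  k84 k171 0 13)))))] .n) (.c k94 (.l (.s k253 k173 11 (.s k252 k254 0 (.s k84 k168 13 (.s k86 k87 0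
  (.s k92 k83 2 (.d k12 k174 k172 12 11))))))) (.c k95 (.l (.s k12 k174 12 (.s k253 k173 11 (.s k252
  k254 0 (.s k84 k168 13 (.s k86 k87 0 (.d k92 k83 k172 2 11))))))) (.c k173 (.q k92 [(.s k12 k174
  12 (.s k15 k14 0 (.d k95 k94 k175 0 11))), (.s k83 k86 2 (.s k95 k94 0 (.s k90 k80 2 (.d k91 k88
  k87 0 1)))), (.s k12 k174 12 (.s k86 k83 2 (.s k87 k84 0 (.s k3 k171 13 (.d k252 k172 k169 11
  14)))))] (.c k6 (.q k7 [(.s k95 k94 0 (.s k15 k175 11 (.d k12 k174 k14 12 0))), (.s k83 k86 2 (.s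
  k95 k94 0 (.s k90 k80 2 (.d k91 k88 k87 0 1)))), (.s k12 k174 12 (.s k86 k83 2 (.s k84 k87 0 (.d
  k252 k172 k168 11 13)))), (.s k12 k174 12 (.s k15 k14 0 (.s k3 k11 1 (.s k83 k86 2 (.d k243 k166
  k163 14 11)))))] .n) (.c k7 (.q k6 [(.s k86 k83 2 (.s k166 k246 11 (.d k12 k174 k243 12 14))), (.s
  k95 k94 0 (.s k15 k175 11 (.d k12 k174 k14 12 0))), (.s k83 k86 2 (.s k95 k94 0 (.s k90 k80 2 (.d
  k91 k88 k87 0 1))))] .n) .n))) (.c k254 (.l (.s k12 k174 12 (.s k173 k253 11 (.s k15 k14 0 (.s k94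
  k252 12 (.d k95 k92 k175 0 11)))))) .n))))))) .n)))))))) (.c k8 (.l (.s k81 k93 1 (.s k243 k162 12
  (.s k166 k12 14 (.s k247 k4 12 (.d k255 k251 k170 1 14)))))) (.c k9 (.q k13 [(.s k81 k93 1 (.s
  k243 k162 12 (.s k12 k166 14 (.s k170 k255 14 (.d k8 k4 k251 1 12))))), (.s k81 k93 1 (.s k165
  k241 13 (.s k243 k162 12 (.s k12 k166 14 (.s k15 k14 0 (.s k90 k240 14 (.d k91 k88 k167 0
  13))))))), (.s k165 k241 13 (.s k170 k255 14 (.s k8 k251 12 (.s k12 k4 1 (.s k15 k14 0 (.s k160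
  k175 2 (.d k240 k80 k90 11 14)))))))] (.c k12 (.f k255 k170 14 (.q k3 [(.s k81 k93 1 (.s k87 k171
  13 (.s k86 k84 0 (.s k243 k162 12 (.d k83 k92 k163 2 11))))), (.s k87 k171 13 (.s k84 k86 0 (.s
  k93 k81 1 (.s k253 k173 11 (.d k252 k254 k168 0 13))))), (.s k81 k93 1 (.s k241 k165 13 (.s k243
  k162 12 (.s k83 k163 11 (.s k80 k82 0 (.d k240 k242 k160 0 11))))))] (.c k81 (.l (.s k87 k171 13
  (.s k86 k84 0 (.s k83 k92 2 (.s k91 k95 1 (.s k243 k163 11 (.s k167 k15 13 (.d k247 k251 k7 1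
  11)))))))) (.c k93 (.l (.s k87 k171 13 (.s k86 k84 0 (.s k83 k92 2 (.s k95 k91 1 (.s k15 k175 11
  (.s k165 k241 13 (.d k7 k11 k244 1 12)))))))) .n)))) (.c k81 (.f k170 k255 14 (.l (.s k8 k251 12
  (.s k12 k4 1 (.s k15 k14 0 (.s k243 k166 14 (.s k91 k167 13 (.s k90 k88 0 (.d k165 k241 k240 13
  14))))))))) (.c k170 (.q k12 [(.s k81 k93 1 (.d k243 k162 k166 12 14)), (.s k4 k8 1 (.d k166 k247
  k243 12 14))] (.c k166 (.l (.s k15 k14 0 (.s k81 k93 1 (.s k165 k241 13 (.s k90 k240 14 (.s k91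
  k88 0 (.d k243 k162 k167 12 13))))))) (.c k243 (.l (.s k4 k8 1 (.s k15 k14 0 (.s k165 k241 13 (.s
  k166 k247 12 (.s k164 k167 0 (.d k240 k88 k90 13 14))))))) .n))) (.c k243 (.l (.s k93 k81 1 (.s
  k173 k253 11 (.s k255 k170 14 (.s k12 k174 12 (.s k15 k14 0 (.s k94 k252 12 (.d k95 k92 k175 0
  11)))))))) .n))))) (.c k12 (.f k255 k170 14 (.q k87 [(.s k81 k93 1 (.s k86 k84 0 (.s k83 k92 2 (.s
  k80 k82 0 (.d k95 k91 k90 1 2))))), (.s k81 k93 1 (.s k171 k3 13 (.s k243 k162 12 (.s k247 k251 1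
  (.s k167 k7 11 (.s k15 k91 13 (.d k175 k163 k95 1 11))))))), (.s k3 k171 13 (.s k81 k93 1 (.s k86
  k84 0 (.s k243 k162 12 (.d k83 k92 k163 2 11)))))] (.c k9 (.q k13 [(.s k84 k86 0 (.s k93 k81 1 (.s
  k253 k173 11 (.d k252 k254 k168 0 13)))), (.s k3 k171 13 (.s k86 k84 0 (.s k83 k92 2 (.s k91 k95 1
  (.s k243 k163 11 (.s k167 k15 13 (.d k247 k251 k7 1 11))))))), (.s k3 k171 13 (.s k81 k93 1 (.s
  k243 k162 12 (.s k83 k163 11 (.s k80 k82 0 (.d k95 k91 k90 1 2)))))), (.s k86 k84 0 (.s k83 k92 2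
  (.s k95 k91 1 (.s k15 k175 11 (.s k165 k241 13 (.d k90 k80 k240 2 14))))))] (.c k3 (.q k6 [(.s k81
  k93 1 (.s k86 k84 0 (.s k166 k246 11 (.s k243 k162 12 (.d k247 k251 k4 1 12))))), (.s k84 k86 0
  (.s k93 k81 1 (.s k252 k168 13 (.d k253 k254 k173 0 11)))), (.s k86 k84 0 (.s k166 k246 11 (.s
  k247 k4 12 (.s k7 k167 11 (.d k165 k244 k241 12 13))))), (.s k81 k93 1 (.s k165 k241 13 (.s k243
  k162 12 (.s k247 k251 1 (.s k166 k4 12 (.d k167 k164 k7 0 11))))))] .n) (.c k6 (.l (.s k3 k171 13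
  (.s k81 k93 1 (.s k86 k84 0 (.s k83 k92 2 (.d k243 k163 k162 11 12)))))) .n))) (.c k13 (.q k9 [(.s
  k3 k171 13 (.s k86 k84 0 (.d k169 k249 k252 11 14))), (.s k81 k93 1 (.s k86 k84 0 (.s k83 k92 2
  (.s k80 k82 0 (.d k95 k91 k90 1 2))))), (.s k3 k171 13 (.s k81 k93 1 (.s k243 k162 12 (.s k83 k163
  11 (.s k80 k82 0 (.d k95 k91 k90 1 2))))))] (.c k14 (.q k15 [(.s k3 k171 13 (.s k86 k84 0 (.d k169
  k249 k252 11 14))), (.s k95 k175 11 (.s k90 k80 2 (.d k91 k88 k83 0 1)))] .n) (.c k15 (.q k14 [(.s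
  k3 k171 13 (.s k86 k84 0 (.d k169 k249 k252 11 14))), (.s k81 k93 1 (.s k86 k84 0 (.s k83 k92 2
  (.s k80 k82 0 (.d k95 k91 k90 1 2))))), (.s k3 k171 13 (.s k81 k93 1 (.s k243 k162 12 (.s k83 k163
  11 (.s k80 k82 0 (.d k95 k91 k90 1 2))))))] .n) .n))) (.c k81 (.l (.s k3 k171 13 (.s k86 k84 0 (.s
  k83 k92 2 (.s k91 k95 1 (.s k243 k163 11 (.s k167 k15 13 (.d k247 k251 k7 1 11)))))))) (.c k93 (.l
  (.s k3 k171 13 (.s k86 k84 0 (.s k83 k92 2 (.s k95 k91 1 (.s k80 k90 2 (.s k81 k82 0 (.d k243 k163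
  k162 11 12)))))))) .n)))))) (.c k13 (.q k9 [(.s k93 k81 1 (.s k255 k170 14 (.s k12 k174 12 (.s
  k166 k243 14 (.d k4 k8 k247 1 12))))), (.s k169 k249 11 (.s k170 k255 14 (.s k8 k251 12 (.s k11
  k10 0 (.s k168 k171 0 (.d k248 k88 k90 11 12)))))), (.s k93 k81 1 (.s k169 k249 11 (.s k255 k170
  14 (.s k12 k174 12 (.s k3 k6 2 (.s k87 k171 13 (.d k86 k84 k252 0 14)))))))] (.c k170 (.q k3 [(.s
  k12 k6 2 (.s k4 k8 1 (.d k166 k247 k243 12 14))), (.s k81 k93 1 (.s k169 k249 11 (.s k86 k252 14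
  (.s k83 k92 2 (.d k243 k163 k162 11 12)))))] (.c k12 (.l (.s k81 k93 1 (.s k169 k249 11 (.s k86
  k252 14 (.s k243 k162 12 (.d k83 k92 k163 2 11)))))) (.c k243 (.l (.s k12 k6 2 (.s k4 k8 1 (.s
  k166 k247 12 (.s k169 k249 11 (.s k172 k163 2 (.d k252 k92 k86 11 14))))))) .n))) (.c k255 (.l (.s
  k81 k93 1 (.s k169 k249 11 (.s k243 k162 12 (.s k12 k166 14 (.s k3 k6 2 (.s k83 k163 11 (.d k86
  k92 k252 2 14)))))))) .n))) (.c k81 (.f k170 k255 14 (.q k9 [(.s k8 k251 12 (.s k11 k10 0 (.s k169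
  k249 11 (.s k248 k90 12 (.d k168 k171 k88 0 11))))), (.s k169 k249 11 (.s k168 k171 0 (.s k252 k84
  13 (.s k3 k86 14 (.s k12 k6 2 (.d k8 k4 k251 1 12)))))), (.s k8 k251 12 (.s k10 k11 0 (.s k12 k4 1
  (.s k6 k3 2 (.s k2 k14 1 (.s k86 k254 13 (.d k166 k243 k246 14 11)))))))] (.c k8 (.l (.s k169 k249
  11 (.s k168 k171 0 (.s k252 k84 13 (.s k3 k86 14 (.s k12 k6 2 (.s k166 k243 14 (.d k172 k163 k92 2
  11)))))))) (.c k161 (.q k241 [(.s k8 k251 12 (.s k11 k10 0 (.s k169 k249 11 (.s k248 k90 12 (.d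
  k168 k171 k88 0 11))))), (.s k165 k13 13 (.s k160 k175 2 (.s k240 k80 11 (.s k15 k90 14 (.s k243
  k242 0 (.s k166 k12 14 (.d k167 k164 k91 0 13))))))), (.s k169 k249 11 (.s k168 k171 0 (.s k252
  k84 13 (.s k3 k86 14 (.s k12 k6 2 (.d k8 k4 k251 1 12))))))] .n) (.c k171 (.f k8 k251 12 (.l (.s
  k11 k10 0 (.s k12 k4 1 (.s k169 k249 11 (.s k248 k90 12 (.s k168 k88 11 (.s k252 k84 13 (.d k3 k6
  k86 2 14))))))))) (.c k241 (.q k161 [(.s k8 k251 12 (.s k11 k10 0 (.s k169 k249 11 (.s k248 k90 12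
  (.d k168 k171 k88 0 11))))), (.s k169 k249 11 (.s k165 k173 1 (.s k160 k175 2 (.s k163 k162 0 (.s
  k168 k171 0 (.d k172 k164 k166 1 2)))))), (.s k8 k251 12 (.s k10 k11 0 (.s k12 k4 1 (.s k6 k3 2
  (.s k2 k14 1 (.s k86 k254 13 (.d k166 k243 k246 14 11)))))))] (.c k171 (.l (.s k8 k251 12 (.s k4
  k12 1 (.s k169 k249 11 (.s k165 k173 1 (.s k160 k175 2 (.s k163 k162 0 (.d k166 k172 k247 2
  12)))))))) (.c k253 (.l (.s k8 k251 12 (.s k10 k11 0 (.s k12 k4 1 (.s k6 k3 2 (.s k14 k2 1 (.s k90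
  k250 11 (.d k166 k243 k242 14 13)))))))) .n))) (.c k251 (.l (.s k169 k249 11 (.s k168 k171 0 (.s
  k252 k84 13 (.s k3 k86 14 (.s k12 k6 2 (.s k4 k8 1 (.d k166 k247 k243 12 14)))))))) .n))))))) (.c
  k93 (.q k154 [(.s k223 k16 10 (.s k255 k170 14 (.s k207 k239 3 (.s k101 k48 14 (.d k69 k117 k138 3
  10))))), (.s k16 k223 10 (.s k24 k219 8 (.s k48 k32 3 (.s k12 k36 5 (.s k4 k8 1 (.d k166 k247 k243
  12 14)))))), (.s k24 k219 8 (.s k170 k255 14 (.s k8 k251 12 (.s k56 k40 3 (.s k138 k186 3 (.d k203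
  k73 k105 8 12))))))] (.c k9 (.q k13 [(.s k223 k16 10 (.s k255 k170 14 (.s k207 k239 3 (.s k101 k48
  14 (.d k69 k117 k138 3 10))))), (.s k16 k223 10 (.s k24 k219 8 (.s k48 k32 3 (.s k12 k36 5 (.s k4
  k8 1 (.d k166 k247 k243 12 14)))))), (.s k24 k219 8 (.s k170 k255 14 (.s k8 k251 12 (.s k56 k40 3
  (.s k138 k186 3 (.d k203 k73 k105 8 12))))))] (.c k48 (.l (.s k16 k223 10 (.s k24 k219 8 (.s k170
  k255 14 (.s k8 k251 12 (.s k40 k56 3 (.d k20 k28 k60 1 5))))))) .n)) (.c k13 (.q k9 [(.s k223 k16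
  10 (.s k255 k170 14 (.s k207 k239 3 (.s k101 k48 14 (.d k69 k117 k138 3 10))))), (.s k16 k223 10
  (.s k24 k219 8 (.s k48 k32 3 (.s k12 k36 5 (.s k4 k8 1 (.d k166 k247 k243 12 14)))))), (.s k24
  k219 8 (.s k170 k255 14 (.s k8 k251 12 (.s k56 k40 3 (.s k138 k186 3 (.d k203 k73 k105 8 12))))))]
  (.c k48 (.l (.s k16 k223 10 (.s k24 k219 8 (.s k170 k255 14 (.s k8 k251 12 (.s k40 k56 3 (.d k20
  k28 k60 1 5))))))) (.c k173 (.q k253 [(.s k169 k249 11 (.s k255 k170 14 (.s k252 k254 0 (.s k84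
  k168 13 (.d k86 k87 k3 0 14))))), (.s k16 k223 10 (.s k24 k219 8 (.s k48 k32 3 (.s k12 k36 5 (.s
  k4 k8 1 (.d k166 k247 k243 12 14))))))] .n) (.c k253 (.q k173 [(.s k223 k16 10 (.s k255 k170 14
  (.s k207 k239 3 (.s k101 k48 14 (.d k69 k117 k138 3 10))))), (.s k16 k223 10 (.s k24 k219 8 (.s
  k48 k32 3 (.s k12 k36 5 (.s k4 k8 1 (.d k166 k247 k243 12 14)))))), (.s k24 k219 8 (.s k170 k255
  14 (.s k8 k251 12 (.s k56 k40 3 (.s k138 k186 3 (.d k203 k73 k105 8 12))))))] (.c k48 (.l (.s k16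
  k223 10 (.s k24 k219 8 (.s k170 k255 14 (.s k8 k251 12 (.s k40 k56 3 (.d k20 k28 k60 1 5)))))))
  .n)) .n)))) (.c k48 (.l (.s k16 k223 10 (.s k24 k219 8 (.s k170 k255 14 (.s k8 k251 12 (.s k40 k56
  3 (.d k20 k28 k60 1 5))))))) .n)))) (.c k162 (.l (.s k93 k81 1 (.s k255 k170 14 (.s k12 k174 12
  (.s k166 k243 14 (.d k4 k8 k247 1 12)))))) (.c k166 (.f k255 k170 14 (.f k81 k93 1 (.f k162 k243
  12 (.q k115 [(.s k64 k98 4 (.s k102 k76 6 (.s k119 k68 4 (.d k127 k123 k106 1 6)))), (.s k64 k98 4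
  (.s k192 k128 7 (.s k213 k234 6 (.s k149 k21 7 (.d k106 k127 k63 6 14))))), (.s k102 k76 6 (.s k68
  k119 4 (.s k204 k136 9 (.s k153 k51 14 (.d k221 k238 k17 4 9)))))] (.c k9 (.q k13 [(.s k64 k98 4
  (.s k102 k76 6 (.s k119 k68 4 (.d k127 k123 k106 1 6)))), (.s k64 k98 4 (.s k192 k128 7 (.s k213
  k234 6 (.s k149 k21 7 (.d k106 k127 k63 6 14))))), (.s k102 k76 6 (.s k68 k119 4 (.s k204 k136 9
  (.s k153 k51 14 (.d k221 k238 k17 4 9)))))] (.c k127 (.l (.s k98 k64 4 (.s k34 k226 7 (.s k51 k17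
  4 (.s k119 k187 9 (.d k102 k68 k76 4 6)))))) .n)) (.c k13 (.q k9 [(.s k64 k98 4 (.s k102 k76 6 (.s
  k119 k68 4 (.d k127 k123 k106 1 6)))), (.s k64 k98 4 (.s k192 k128 7 (.s k213 k234 6 (.s k149 k21
  7 (.d k106 k127 k63 6 14))))), (.s k102 k76 6 (.s k68 k119 4 (.s k204 k136 9 (.s k153 k51 14 (.d
  k221 k238 k17 4 9)))))] (.c k127 (.l (.s k98 k64 4 (.s k34 k226 7 (.s k51 k17 4 (.s k119 k187 9
  (.d k102 k68 k76 4 6)))))) (.c k173 (.q k253 [(.s k64 k98 4 (.s k102 k76 6 (.s k119 k68 4 (.d k127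
  k123 k106 1 6)))), (.s k169 k249 11 (.s k252 k254 0 (.s k84 k168 13 (.d k86 k87 k3 0 14))))] .n)
  (.c k253 (.q k173 [(.s k64 k98 4 (.s k102 k76 6 (.s k119 k68 4 (.d k127 k123 k106 1 6)))), (.s k64
  k98 4 (.s k192 k128 7 (.s k213 k234 6 (.s k149 k21 7 (.d k106 k127 k63 6 14))))), (.s k102 k76 6
  (.s k68 k119 4 (.s k204 k136 9 (.s k153 k51 14 (.d k221 k238 k17 4 9)))))] (.c k127 (.l (.s k98
  k64 4 (.s k34 k226 7 (.s k51 k17 4 (.s k119 k187 9 (.d k102 k68 k76 4 6)))))) .n)) .n)))) (.c k127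
  (.l (.s k98 k64 4 (.s k34 k226 7 (.s k51 k17 4 (.s k119 k187 9 (.d k102 k68 k76 4 6))))))
  .n))))))) (.c k170 (.f k81 k93 1 (.f k162 k243 12 (.q k64 [(.s k98 k115 4 (.s k34 k226 7 (.s k51
  k17 4 (.d k192 k128 k145 7 12)))), (.s k106 k127 6 (.s k72 k123 4 (.s k76 k68 1 (.d k115 k98 k102
  4 6)))), (.s k106 k127 6 (.s k192 k128 7 (.s k149 k63 14 (.s k209 k29 9 (.s k17 k145 7 (.s k213
  k21 7 (.d k221 k217 k153 1 9)))))))] (.c k9 (.q k13 [(.s k98 k115 4 (.s k34 k226 7 (.s k51 k17 4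
  (.d k192 k128 k145 7 12)))), (.s k106 k127 6 (.s k72 k123 4 (.s k76 k68 1 (.d k115 k98 k102 4
  6)))), (.s k106 k127 6 (.s k165 k241 13 (.s k192 k128 7 (.s k224 k47 10 (.s k240 k208 3 (.s k80
  k160 11 (.d k90 k95 k15 2 14)))))))] .n) (.c k13 (.q k9 [(.s k98 k115 4 (.s k34 k226 7 (.s k51 k17
  4 (.d k192 k128 k145 7 12)))), (.s k106 k127 6 (.s k72 k123 4 (.s k76 k68 1 (.d k115 k98 k102 4
  6)))), (.s k106 k127 6 (.s k169 k249 11 (.s k192 k128 7 (.s k232 k43 8 (.s k252 k212 5 (.s k84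
  k168 13 (.d k86 k87 k3 0 14)))))))] (.c k173 (.q k253 [(.s k98 k115 4 (.s k34 k226 7 (.s k51 k17 4
  (.d k192 k128 k145 7 12)))), (.s k106 k127 6 (.s k72 k123 4 (.s k76 k68 1 (.d k115 k98 k102 4
  6)))), (.s k106 k127 6 (.s k169 k249 11 (.s k192 k128 7 (.s k232 k43 8 (.s k252 k212 5 (.s k84
  k168 13 (.d k86 k87 k3 0 14)))))))] .n) (.c k253 (.q k173 [(.s k98 k115 4 (.s k34 k226 7 (.s k51
  k17 4 (.d k192 k128 k145 7 12)))), (.s k106 k127 6 (.s k169 k249 11 (.s k43 k232 8 (.s k165 k161 1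
  (.s k47 k224 10 (.s k35 k39 1 (.d k236 k110 k102 8 10)))))))] (.c k98 (.l (.s k106 k127 6 (.s k72
  k123 4 (.s k192 k128 7 (.s k12 k132 9 (.s k8 k4 1 (.s k136 k200 7 (.d k68 k76 k204 1 9))))))))
  .n)) .n))) .n))))) (.c k174 (.l (.s k81 k93 1 (.s k243 k162 12 (.s k12 k166 14 (.s k170 k255 14
  (.d k8 k4 k251 1 12)))))) (.c k243 (.f k255 k170 14 (.f k81 k93 1 (.q k17 [(.s k51 k34 4 (.s k119
  k187 9 (.s k102 k68 4 (.d k153 k221 k204 9 14)))), (.s k209 k145 7 (.s k149 k29 9 (.s k21 k213 7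
  (.s k63 k42 6 (.s k106 k192 14 (.d k127 k64 k191 6 7))))))] (.c k9 (.q k13 [(.s k51 k34 4 (.s k119
  k187 9 (.s k102 k68 4 (.d k153 k221 k204 9 14)))), (.s k209 k145 7 (.s k149 k29 9 (.s k21 k213 7
  (.s k63 k42 6 (.s k106 k192 14 (.d k127 k64 k191 6 7))))))] (.c k51 (.l (.s k153 k221 9 (.s k25
  k217 7 (.s k29 k21 1 (.d k209 k145 k149 7 9))))) (.c k221 (.l (.s k51 k34 4 (.s k119 k187 9 (.s
  k102 k68 4 (.s k115 k76 6 (.s k64 k98 4 (.d k127 k123 k106 1 6))))))) .n))) (.c k13 (.q k9 [(.s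
  k51 k34 4 (.s k119 k187 9 (.s k102 k68 4 (.d k153 k221 k204 9 14)))), (.s k209 k145 7 (.s k149 k29
  9 (.s k21 k213 7 (.s k63 k42 6 (.s k106 k192 14 (.d k127 k64 k191 6 7))))))] (.c k51 (.l (.s k153
  k221 9 (.s k25 k217 7 (.s k29 k21 1 (.d k209 k145 k149 7 9))))) (.c k173 (.q k253 [(.s k51 k34 4
  (.s k119 k187 9 (.s k102 k68 4 (.d k153 k221 k204 9 14)))), (.s k169 k249 11 (.s k252 k254 0 (.s
  k84 k168 13 (.d k86 k87 k3 0 14))))] .n) (.c k221 (.l (.s k51 k34 4 (.s k119 k187 9 (.s k102 k68 4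
  (.s k115 k76 6 (.s k64 k98 4 (.d k127 k123 k106 1 6))))))) (.c k253 (.q k173 [(.s k51 k34 4 (.s
  k119 k187 9 (.s k102 k68 4 (.d k153 k221 k204 9 14)))), (.s k209 k145 7 (.s k149 k29 9 (.s k21
  k213 7 (.s k63 k42 6 (.s k106 k192 14 (.d k127 k64 k191 6 7))))))] (.c k51 (.l (.s k153 k221 9 (.s
  k25 k217 7 (.s k29 k21 1 (.d k209 k145 k149 7 9))))) (.c k221 (.l (.s k51 k34 4 (.s k119 k187 9
  (.s k102 k68 4 (.s k115 k76 6 (.s k64 k98 4 (.d k127 k123 k106 1 6))))))) .n))) .n))))) (.c k51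
  (.l (.s k153 k221 9 (.s k25 k217 7 (.s k29 k21 1 (.d k209 k145 k149 7 9))))) (.c k221 (.l (.s k51
  k34 4 (.s k119 k187 9 (.s k102 k68 4 (.s k115 k76 6 (.s k64 k98 4 (.d k127 k123 k106 1 6)))))))
  .n))))))) (.c k251 (.l (.s k93 k81 1 (.s k255 k170 14 (.s k12 k174 12 (.s k4 k8 1 (.d k166 k247
  k243 12 14)))))) (.c k255 (.q k123 [(.s k106 k72 4 (.s k127 k64 6 (.s k115 k119 1 (.s k76 k102 6
  (.d k93 k81 k110 1 4))))), (.s k81 k93 1 (.s k243 k162 12 (.s k12 k166 14 (.s k63 k183 9 (.s k21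
  k42 6 (.s k149 k213 7 (.d k29 k46 k209 4 9))))))), (.s k106 k72 4 (.s k64 k127 6 (.s k192 k128 7
  (.s k63 k149 14 (.s k243 k183 9 (.s k226 k209 4 (.d k166 k46 k12 9 14)))))))] (.c k9 (.q k13 [(.s
  k106 k72 4 (.s k127 k64 6 (.s k115 k119 1 (.s k76 k102 6 (.d k93 k81 k110 1 4))))), (.s k81 k93 1
  (.s k165 k241 13 (.s k243 k162 12 (.s k12 k166 14 (.s k15 k14 0 (.s k90 k240 14 (.d k91 k88 k167 0
  13))))))), (.s k106 k72 4 (.s k64 k127 6 (.s k192 k128 7 (.s k63 k149 14 (.s k243 k183 9 (.s k226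
  k209 4 (.d k166 k46 k12 9 14)))))))] .n) (.c k13 (.q k9 [(.s k106 k72 4 (.s k127 k64 6 (.s k115
  k119 1 (.s k76 k102 6 (.d k93 k81 k110 1 4))))), (.s k81 k93 1 (.s k169 k249 11 (.s k243 k162 12
  (.s k12 k166 14 (.s k3 k6 2 (.s k83 k163 11 (.d k86 k92 k252 2 14))))))), (.s k106 k72 4 (.s k64
  k127 6 (.s k192 k128 7 (.s k63 k149 14 (.s k243 k183 9 (.s k226 k209 4 (.d k166 k46 k12 9
  14)))))))] .n) .n))) .n)))))))))))))))

def t1_6 : T TT 256 :=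
  (.f k255 k170 14 (.q k102 [(.s k68 k119 4 (.s k204 k136 9 (.s k153 k51 14 (.d k221 k238 k17 4
  9))))] (.c k17 (.f k119 k68 4 (.f k51 k187 9 (.f k153 k204 14 (.q k49 [(.s k48 k50 0 (.s k101 k205
  13 (.d k117 k69 k186 3 10))), (.s k48 k50 0 (.s k117 k186 10 (.s k118 k116 0 (.d k185 k253 k252 9
  10)))), (.s k101 k205 13 (.s k69 k117 3 (.s k207 k138 10 (.d k103 k100 k155 0 13)))), (.s k48 k50
  0 (.s k16 k32 3 (.s k154 k223 10 (.d k101 k205 k207 13 14))))] .n)))) (.c k51 (.q k4 [(.s k12 k8 1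
  (.s k93 k174 12 (.s k166 k247 12 (.d k89 k81 k243 1 14)))), (.s k68 k119 4 (.s k166 k247 12 (.s
  k38 k230 7 (.s k55 k21 4 (.d k196 k132 k149 7 12))))), (.s k12 k8 1 (.s k68 k119 4 (.s k132 k196 7
  (.s k72 k192 9 (.s k76 k64 1 (.d k204 k140 k136 7 9))))))] .n) (.c k68 (.q k81 [(.s k89 k93 1 (.s
  k243 k162 12 (.s k247 k251 1 (.d k166 k4 k12 12 14)))), (.s k89 k93 1 (.s k115 k76 6 (.s k64 k98 4
  (.s k192 k128 7 (.s k213 k234 6 (.s k149 k21 7 (.d k106 k127 k63 6 14)))))))] (.c k89 (.f k243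
  k162 12 (.q k166 [(.d k247 k251 k4 1 12), (.s k230 k38 7 (.s k204 k217 6 (.s k153 k51 14 (.d k221
  k238 k17 4 9))))] (.c k8 (.l (.s k251 k247 1 (.s k230 k38 7 (.s k204 k217 6 (.s k153 k51 14 (.d
  k221 k238 k17 4 9)))))) (.c k251 (.q k8 [(.d k4 k12 k247 1 12), (.s k230 k38 7 (.s k204 k217 6 (.s
  k221 k238 4 (.d k153 k17 k51 9 14))))] .n) .n)))) (.c k93 (.l (.s k243 k162 12 (.s k247 k251 1 (.s
  k166 k4 12 (.s k230 k38 7 (.s k204 k217 6 (.s k153 k51 14 (.d k221 k238 k17 4 9)))))))) .n))) (.c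
  k119 (.q k93 [(.s k89 k81 1 (.s k12 k174 12 (.s k166 k243 14 (.d k4 k8 k247 1 12)))), (.s k89 k81
  1 (.s k76 k115 6 (.s k127 k110 4 (.s k63 k191 7 (.s k21 k42 6 (.s k149 k213 7 (.d k106 k64 k192 6
  14))))))), (.s k12 k174 12 (.s k4 k8 1 (.s k166 k247 12 (.s k38 k230 7 (.s k51 k25 6 (.s k17 k34 4
  (.d k153 k221 k204 9 14)))))))] (.c k89 (.f k12 k174 12 (.q k166 [(.d k4 k8 k247 1 12), (.s k38
  k230 7 (.s k51 k25 6 (.s k17 k34 4 (.d k153 k221 k204 9 14))))] (.c k8 (.q k251 [(.d k247 k243 k4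
  1 12), (.s k38 k230 7 (.s k51 k25 6 (.s k17 k34 4 (.d k153 k221 k204 9 14))))] .n) (.c k251 (.l
  (.s k8 k4 1 (.s k38 k230 7 (.s k51 k25 6 (.s k17 k34 4 (.d k153 k221 k204 9 14)))))) .n)))) .n))
  (.c k136 (.l (.s k119 k68 4 (.s k51 k187 9 (.s k153 k204 14 (.d k17 k34 k221 4 9))))) (.c k153 (.f
  k68 k119 4 (.q k4 [(.s k166 k247 12 (.s k12 k8 1 (.s k89 k243 14 (.d k93 k81 k174 1 12)))), (.s
  k166 k247 12 (.s k38 k230 7 (.s k55 k21 4 (.d k196 k132 k149 7 12)))), (.s k12 k8 1 (.s k132 k196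
  7 (.s k72 k192 9 (.s k76 k64 1 (.d k204 k136 k140 9 7)))))] (.c k136 (.q k187 [(.s k166 k247 12
  (.s k38 k230 7 (.s k55 k21 4 (.d k196 k132 k149 7 12)))), (.s k12 k8 1 (.s k93 k174 12 (.s k89 k81
  1 (.s k76 k115 6 (.s k127 k110 4 (.d k64 k72 k106 1 6))))))] (.c k166 (.l (.s k12 k8 1 (.s k132
  k196 7 (.s k72 k192 9 (.s k76 k64 1 (.s k89 k115 6 (.d k93 k81 k174 1 12))))))) .n)) (.c k187 (.l
  (.s k136 k204 9 (.s k12 k8 1 (.s k93 k174 12 (.s k89 k81 1 (.d k166 k247 k243 12 14)))))) .n))))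
  (.c k187 (.l (.s k68 k119 4 (.s k204 k136 9 (.s k153 k51 14 (.d k221 k238 k17 4 9))))) (.c k204
  (.q k4 [(.s k12 k8 1 (.s k93 k174 12 (.s k166 k247 12 (.d k89 k81 k243 1 14)))), (.s k68 k119 4
  (.s k166 k247 12 (.s k38 k230 7 (.s k55 k21 4 (.d k196 k132 k149 7 12))))), (.s k12 k8 1 (.s k119
  k68 4 (.s k51 k187 9 (.s k34 k17 4 (.s k38 k25 6 (.s k21 k55 4 (.d k42 k46 k63 1 6)))))))] .n) (.c
  k221 (.q k3 [(.s k68 k119 4 (.s k87 k171 13 (.s k86 k84 0 (.s k70 k118 3 (.d k204 k136 k137 9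
  10))))), (.s k87 k171 13 (.s k119 k68 4 (.s k51 k187 9 (.s k19 k35 3 (.s k103 k71 3 (.d k155 k223
  k207 9 13)))))), (.s k87 k171 13 (.s k86 k84 0 (.s k70 k118 3 (.s k169 k252 14 (.s k35 k236 10 (.s
  k51 k19 3 (.d k204 k137 k153 10 14))))))), (.s k68 k119 4 (.s k204 k136 9 (.s k70 k137 10 (.s k86
  k118 3 (.s k153 k51 14 (.s k220 k19 10 (.d k252 k236 k169 3 14)))))))] (.c k70 (.l (.s k87 k171 13
  (.s k86 k84 0 (.s k119 k68 4 (.s k51 k187 9 (.s k19 k35 3 (.d k153 k220 k204 10 14))))))) (.c k169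
  (.l (.s k68 k119 4 (.s k204 k136 9 (.s k70 k137 10 (.s k86 k118 3 (.d k87 k84 k171 0 13))))))
  .n))) (.c k238 (.l (.s k119 k68 4 (.s k51 k187 9 (.s k17 k34 4 (.d k153 k221 k204 9 14)))))
  .n))))))))))))

def t1_7 : T TT 256 :=
  (.f k255 k170 14 (.q k102 [(.s k68 k119 4 (.s k204 k136 9 (.s k153 k51 14 (.d k221 k238 k17 4
  9))))] (.c k17 (.f k119 k68 4 (.f k51 k187 9 (.f k153 k204 14 (.q k49 [(.s k48 k50 0 (.s k101 k205
  13 (.d k117 k69 k186 3 10))), (.s k48 k50 0 (.s k117 k186 10 (.s k118 k116 0 (.d k185 k253 k252 9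
  10)))), (.s k101 k205 13 (.s k69 k117 3 (.s k207 k138 10 (.d k103 k100 k155 0 13)))), (.s k48 k50
  0 (.s k16 k32 3 (.s k154 k223 10 (.d k101 k205 k207 13 14))))] .n)))) (.c k51 (.q k4 [(.s k12 k8 1
  (.s k93 k174 12 (.s k89 k81 1 (.d k166 k247 k243 12 14)))), (.s k68 k119 4 (.s k166 k247 12 (.s
  k38 k230 7 (.s k55 k21 4 (.d k196 k132 k149 7 12))))), (.s k12 k8 1 (.s k68 k119 4 (.s k132 k196 7
  (.s k72 k192 9 (.s k76 k64 1 (.d k204 k140 k136 7 9))))))] .n) (.c k68 (.q k4 [(.s k166 k247 12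
  (.s k12 k8 1 (.s k89 k243 14 (.d k93 k81 k174 1 12)))), (.s k166 k247 12 (.s k38 k230 7 (.s k21
  k55 4 (.s k63 k42 6 (.s k127 k191 7 (.s k106 k64 6 (.d k149 k213 k192 7 14))))))), (.s k12 k8 1
  (.s k93 k174 12 (.s k89 k81 1 (.s k76 k115 6 (.s k204 k140 7 (.s k153 k51 14 (.d k221 k238 k17 4
  9)))))))] (.c k166 (.f k12 k8 1 (.q k89 [(.d k93 k174 k81 12 1), (.s k76 k115 6 (.s k204 k140 7
  (.s k153 k51 14 (.d k221 k238 k17 4 9))))] (.c k162 (.l (.s k174 k93 12 (.s k76 k115 6 (.s k204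
  k140 7 (.s k153 k51 14 (.d k221 k238 k17 4 9)))))) (.c k174 (.q k162 [(.d k81 k93 k243 1 12), (.s
  k76 k115 6 (.s k204 k140 7 (.s k221 k238 4 (.d k153 k17 k51 9 14))))] .n) .n)))) .n)) (.c k119 (.q
  k93 [(.s k89 k81 1 (.s k12 k174 12 (.s k166 k243 14 (.d k4 k8 k247 1 12)))), (.s k89 k81 1 (.s k76
  k115 6 (.s k127 k110 4 (.s k63 k191 7 (.s k21 k42 6 (.s k149 k213 7 (.d k106 k64 k192 6 14))))))),
  (.s k12 k174 12 (.s k4 k8 1 (.s k166 k247 12 (.s k38 k230 7 (.s k51 k25 6 (.s k17 k34 4 (.d k153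
  k221 k204 9 14)))))))] (.c k89 (.f k12 k174 12 (.q k166 [(.d k4 k8 k247 1 12), (.s k38 k230 7 (.s
  k51 k25 6 (.s k17 k34 4 (.d k153 k221 k204 9 14))))] (.c k8 (.q k251 [(.d k247 k243 k4 1 12), (.s
  k38 k230 7 (.s k51 k25 6 (.s k17 k34 4 (.d k153 k221 k204 9 14))))] .n) (.c k251 (.l (.s k8 k4 1
  (.s k38 k230 7 (.s k51 k25 6 (.s k17 k34 4 (.d k153 k221 k204 9 14)))))) .n)))) .n)) (.c k136 (.l
  (.s k119 k68 4 (.s k51 k187 9 (.s k153 k204 14 (.d k17 k34 k221 4 9))))) (.c k153 (.f k68 k119 4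
  (.q k4 [(.s k12 k8 1 (.s k93 k174 12 (.s k89 k81 1 (.d k166 k247 k243 12 14)))), (.s k166 k247 12
  (.s k38 k230 7 (.s k55 k21 4 (.d k196 k132 k149 7 12)))), (.s k12 k8 1 (.s k132 k196 7 (.s k72
  k192 9 (.s k76 k64 1 (.d k204 k136 k140 9 7)))))] (.c k136 (.q k187 [(.s k12 k8 1 (.s k93 k174 12
  (.s k89 k81 1 (.d k166 k247 k243 12 14)))), (.s k166 k247 12 (.s k38 k230 7 (.s k55 k21 4 (.d k196
  k132 k149 7 12)))), (.s k12 k8 1 (.s k132 k196 7 (.s k72 k192 9 (.s k76 k64 1 (.s k89 k115 6 (.d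
  k93 k81 k174 1 12))))))] .n) (.c k187 (.l (.s k136 k204 9 (.s k12 k8 1 (.s k93 k174 12 (.s k89 k81
  1 (.d k166 k247 k243 12 14)))))) .n)))) (.c k187 (.l (.s k68 k119 4 (.s k204 k136 9 (.s k153 k51
  14 (.d k221 k238 k17 4 9))))) (.c k204 (.q k4 [(.s k12 k8 1 (.s k93 k174 12 (.s k89 k81 1 (.d k166
  k247 k243 12 14)))), (.s k68 k119 4 (.s k166 k247 12 (.s k38 k230 7 (.s k55 k21 4 (.d k196 k132
  k149 7 12))))), (.s k12 k8 1 (.s k119 k68 4 (.s k51 k187 9 (.s k34 k17 4 (.s k38 k25 6 (.s k21 k55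
  4 (.d k42 k46 k63 1 6)))))))] .n) (.c k221 (.q k3 [(.s k68 k119 4 (.s k87 k171 13 (.s k86 k84 0
  (.s k70 k118 3 (.d k204 k136 k137 9 10))))), (.s k87 k171 13 (.s k119 k68 4 (.s k51 k187 9 (.s k19
  k35 3 (.s k103 k71 3 (.d k155 k223 k207 9 13)))))), (.s k87 k171 13 (.s k86 k84 0 (.s k70 k118 3
  (.s k169 k252 14 (.s k35 k236 10 (.s k51 k19 3 (.d k204 k137 k153 10 14))))))), (.s k68 k119 4 (.s
  k204 k136 9 (.s k70 k137 10 (.s k86 k118 3 (.s k153 k51 14 (.s k220 k19 10 (.d k252 k236 k169 3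
  14)))))))] (.c k70 (.l (.s k87 k171 13 (.s k86 k84 0 (.s k119 k68 4 (.s k51 k187 9 (.s k19 k35 3
  (.d k153 k220 k204 10 14))))))) (.c k169 (.l (.s k68 k119 4 (.s k204 k136 9 (.s k70 k137 10 (.s
  k86 k118 3 (.d k87 k84 k171 0 13)))))) .n))) (.c k238 (.l (.s k119 k68 4 (.s k51 k187 9 (.s k17
  k34 4 (.d k153 k221 k204 9 14))))) .n))))))))))))

def t1_8 : T TT 256 :=
  (.f k170 k255 14 (.q k48 [(.s k16 k32 3 (.s k154 k223 10 (.s k138 k186 3 (.d k207 k69 k101 10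
  14))))] (.c k16 (.q k10 [(.s k90 k250 11 (.s k80 k95 2 (.s k240 k160 11 (.d k15 k5 k165 2 14)))),
  (.s k15 k5 2 (.s k26 k37 6 (.s k42 k58 3 (.s k106 k234 7 (.s k64 k127 6 (.s k192 k128 7 (.d k63
  k21 k149 6 14)))))))] (.c k5 (.l (.s k90 k250 11 (.s k80 k95 2 (.s k240 k160 11 (.s k112 k176 7
  (.s k101 k79 6 (.s k69 k117 3 (.d k207 k138 k154 10 14)))))))) (.c k15 (.f k90 k250 11 (.q k240
  [(.d k80 k95 k160 2 11), (.s k112 k176 7 (.s k101 k79 6 (.s k69 k117 3 (.d k207 k138 k154 10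
  14))))] (.c k95 (.q k175 [(.d k160 k165 k80 2 11), (.s k112 k176 7 (.s k101 k79 6 (.s k69 k117 3
  (.d k207 k138 k154 10 14))))] .n) (.c k175 (.l (.s k95 k80 2 (.s k112 k176 7 (.s k101 k79 6 (.s
  k69 k117 3 (.d k207 k138 k154 10 14)))))) .n)))) .n))) (.c k32 (.q k160 [(.s k240 k80 11 (.s k165
  k175 2 (.s k15 k90 14 (.d k5 k10 k245 2 11)))), (.s k240 k80 11 (.s k176 k112 7 (.s k128 k144 3
  (.s k149 k191 6 (.s k21 k213 7 (.s k63 k42 6 (.d k192 k64 k106 7 14)))))))] (.c k80 (.l (.s k165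
  k175 2 (.s k5 k245 11 (.s k15 k10 2 (.s k37 k26 6 (.s k101 k229 7 (.s k69 k117 3 (.d k207 k138
  k154 10 14)))))))) (.c k240 (.f k165 k175 2 (.q k15 [(.d k5 k245 k10 11 2), (.s k37 k26 6 (.s k101
  k229 7 (.s k69 k117 3 (.d k207 k138 k154 10 14))))] (.c k245 (.q k250 [(.d k10 k5 k90 2 11), (.s
  k37 k26 6 (.s k101 k229 7 (.s k69 k117 3 (.d k207 k138 k154 10 14))))] .n) (.c k250 (.l (.s k245
  k5 11 (.s k37 k26 6 (.s k101 k229 7 (.s k69 k117 3 (.d k207 k138 k154 10 14)))))) .n)))) .n))) (.c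
  k69 (.f k32 k16 3 (.q k149 [(.s k21 k213 7 (.s k63 k42 6 (.s k128 k191 6 (.d k192 k64 k106 7
  14)))), (.s k101 k239 10 (.s k53 k197 11 (.s k63 k58 2 (.d k21 k42 k213 6 7)))), (.s k101 k239 10
  (.s k197 k53 11 (.s k207 k154 14 (.s k192 k202 2 (.d k128 k191 k64 6 7)))))] (.c k137 (.q k205
  [(.s k21 k213 7 (.s k63 k42 6 (.s k128 k191 6 (.d k192 k64 k106 7 14)))), (.s k101 k239 10 (.s
  k153 k49 13 (.s k136 k187 4 (.s k204 k68 9 (.d k207 k206 k154 0 14)))))] .n) (.c k205 (.q k137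
  [(.s k21 k213 7 (.s k63 k42 6 (.s k128 k191 6 (.d k192 k64 k106 7 14)))), (.s k101 k239 10 (.s k53
  k197 11 (.s k63 k58 2 (.d k21 k42 k213 6 7)))), (.s k101 k239 10 (.s k197 k53 11 (.s k207 k154 14
  (.s k192 k202 2 (.d k128 k191 k64 6 7)))))] .n) .n)))) (.c k101 (.q k5 [(.s k165 k245 11 (.s k160
  k175 2 (.s k240 k80 11 (.d k15 k10 k90 2 14)))), (.s k15 k10 2 (.s k32 k16 3 (.s k37 k26 6 (.s k21
  k53 3 (.d k42 k47 k63 2 6))))), (.s k16 k32 3 (.s k154 k223 10 (.s k165 k245 11 (.s k176 k143 6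
  (.s k240 k112 7 (.d k160 k175 k80 2 11))))))] .n) (.c k138 (.f k16 k32 3 (.q k146 [(.s k81 k211 8
  (.s k162 k243 12 (.s k130 k178 3 (.d k195 k65 k97 8 12)))), (.s k154 k223 10 (.s k150 k158 1 (.s
  k130 k190 5 (.d k195 k65 k97 8 12)))), (.s k81 k211 8 (.s k154 k223 10 (.s k150 k158 1 (.s k130
  k190 5 (.d k162 k178 k243 3 12)))))] (.c k73 (.q k203 [(.s k154 k223 10 (.s k207 k101 14 (.d k195
  k199 k97 1 12))), (.s k81 k211 8 (.s k97 k195 12 (.s k113 k65 3 (.d k243 k178 k162 8 12)))), (.s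
  k81 k211 8 (.s k154 k223 10 (.s k150 k158 1 (.s k130 k190 5 (.d k162 k178 k243 3 12)))))] .n) (.c
  k130 (.l (.s k81 k211 8 (.s k97 k195 12 (.s k113 k65 3 (.d k243 k178 k162 8 12))))) (.c k203 (.q
  k73 [(.s k81 k211 8 (.s k162 k243 12 (.s k130 k178 3 (.d k195 k65 k97 8 12)))), (.s k154 k223 10
  (.s k150 k158 1 (.s k130 k190 5 (.d k195 k65 k97 8 12)))), (.s k81 k211 8 (.s k154 k223 10 (.s
  k150 k158 1 (.s k130 k190 5 (.d k162 k178 k243 3 12)))))] (.c k130 (.l (.s k81 k211 8 (.s k97 k195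
  12 (.s k113 k65 3 (.d k243 k178 k162 8 12))))) .n)) .n))))) (.c k154 (.q k5 [(.s k165 k245 11 (.s
  k160 k175 2 (.s k240 k80 11 (.d k15 k10 k90 2 14)))), (.s k15 k10 2 (.s k32 k16 3 (.s k37 k26 6
  (.s k21 k53 3 (.d k42 k47 k63 2 6))))), (.s k32 k16 3 (.s k101 k239 10 (.s k165 k245 11 (.s k37
  k229 7 (.s k21 k53 3 (.d k42 k47 k63 2 6))))))] .n) (.c k186 (.l (.s k32 k16 3 (.s k101 k239 10
  (.s k69 k117 3 (.d k207 k138 k154 10 14))))) (.c k207 (.f k16 k32 3 (.q k192 [(.s k64 k128 7 (.s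
  k106 k127 6 (.s k42 k234 7 (.d k63 k21 k149 6 14)))), (.s k144 k96 11 (.s k80 k208 7 (.s k90 k95 2
  (.s k10 k250 11 (.s k15 k5 2 (.d k240 k160 k165 11 14))))))] (.c k223 (.q k239 [(.s k64 k128 7 (.s
  k106 k127 6 (.s k42 k234 7 (.d k63 k21 k149 6 14)))), (.s k144 k96 11 (.s k80 k208 7 (.s k90 k95 2
  (.s k10 k250 11 (.s k15 k5 2 (.d k240 k160 k165 11 14))))))] .n) (.c k239 (.l (.s k223 k154 10 (.s
  k64 k128 7 (.s k106 k127 6 (.s k42 k234 7 (.d k63 k21 k149 6 14)))))) .n)))) (.c k223 (.l (.s k32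
  k16 3 (.s k101 k239 10 (.s k207 k154 14 (.d k69 k117 k138 3 10))))) (.c k239 (.l (.s k16 k32 3 (.s
  k154 k223 10 (.s k207 k101 14 (.d k138 k186 k69 3 10))))) .n))))))))))))

def t1_9 : T TT 256 :=
  (.f k170 k255 14 (.q k5 [(.s k165 k245 11 (.s k160 k175 2 (.s k240 k80 11 (.d k15 k10 k90 2
  14))))] (.c k10 (.q k8 [(.s k12 k4 1 (.s k89 k251 12 (.s k81 k93 1 (.d k243 k162 k166 12 14)))),
  (.s k89 k251 12 (.s k165 k245 11 (.s k160 k175 2 (.s k240 k80 11 (.s k241 k13 13 (.s k243 k242 0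
  (.d k81 k93 k162 1 12))))))), (.s k4 k12 1 (.s k165 k245 11 (.s k166 k247 12 (.s k164 k167 0 (.s
  k244 k84 11 (.d k7 k6 k86 0 12))))))] (.c k93 (.l (.s k12 k4 1 (.s k89 k251 12 (.s k165 k245 11
  (.s k13 k241 13 (.s k15 k14 0 (.s k160 k175 2 (.d k240 k80 k90 11 14)))))))) (.c k243 (.l (.s k4
  k12 1 (.s k165 k245 11 (.s k166 k247 12 (.s k251 k89 12 (.s k164 k167 0 (.s k244 k84 11 (.d k7 k6
  k86 0 12)))))))) (.c k247 (.l (.s k12 k4 1 (.s k89 k251 12 (.s k243 k166 14 (.d k81 k93 k162 1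
  12))))) (.c k251 (.f k12 k4 1 (.l (.s k165 k245 11 (.s k160 k175 2 (.s k240 k80 11 (.s k164 k88 13
  (.s k166 k167 0 (.s k162 k174 1 (.d k243 k81 k89 12 14))))))))) .n))))) (.c k15 (.q k138 [(.s k154
  k186 3 (.s k16 k223 10 (.s k48 k32 3 (.d k207 k69 k101 10 14)))), (.s k154 k186 3 (.s k165 k245 11
  (.s k143 k176 6 (.s k128 k133 2 (.s k175 k160 2 (.d k191 k159 k149 3 6)))))), (.s k69 k207 10 (.s
  k133 k197 7 (.s k165 k245 11 (.s k149 k181 3 (.d k128 k143 k191 2 6)))))] (.c k95 (.q k175 [(.d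
  k165 k160 k245 2 11), (.s k154 k186 3 (.s k16 k223 10 (.s k48 k32 3 (.d k207 k69 k101 10 14))))]
  .n) (.c k117 (.l (.s k207 k69 10 (.s k154 k186 3 (.s k48 k101 14 (.d k16 k32 k223 3 10))))) (.c
  k175 (.q k95 [(.s k154 k186 3 (.s k16 k223 10 (.s k48 k32 3 (.d k207 k69 k101 10 14)))), (.s k90
  k80 2 (.s k10 k250 11 (.s k154 k186 3 (.s k26 k218 7 (.s k58 k42 3 (.d k202 k74 k106 7 11)))))),
  (.s k69 k207 10 (.s k133 k197 7 (.s k165 k245 11 (.s k149 k181 3 (.d k128 k143 k191 2 6)))))] (.c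
  k117 (.l (.s k207 k69 10 (.s k154 k186 3 (.s k48 k101 14 (.d k16 k32 k223 3 10))))) .n)) .n))))
  (.c k80 (.q k2 [(.s k10 k15 2 (.s k6 k14 1 (.s k7 k4 0 (.s k86 k254 13 (.d k165 k245 k244 11
  12))))), (.s k15 k10 2 (.s k86 k254 13 (.s k84 k87 0 (.s k165 k245 11 (.s k7 k244 12 (.s k252 k168
  13 (.d k3 k11 k169 1 14))))))), (.s k10 k15 2 (.s k6 k14 1 (.s k4 k7 0 (.s k12 k8 1 (.s k166 k247
  12 (.s k243 k89 14 (.d k162 k174 k81 1 12))))))), (.s k86 k254 13 (.s k87 k84 0 (.s k165 k245 11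
  (.s k7 k244 12 (.s k4 k6 0 (.d k247 k167 k166 11 12))))))] (.c k7 (.l (.s k10 k15 2 (.s k14 k6 1
  (.s k86 k254 13 (.s k90 k250 11 (.s k82 k94 1 (.d k242 k162 k166 11 13))))))) .n)) (.c k90 (.q k4
  [(.s k12 k8 1 (.s k166 k247 12 (.s k162 k174 1 (.d k243 k81 k89 12 14)))), (.s k7 k6 0 (.s k12 k8
  1 (.s k165 k245 11 (.s k160 k175 2 (.s k240 k80 11 (.s k164 k88 13 (.d k244 k84 k86 11 12))))))),
  (.s k6 k7 0 (.s k10 k15 2 (.s k166 k247 12 (.s k86 k246 11 (.d k2 k14 k254 1 13))))), (.s k166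
  k247 12 (.s k162 k174 1 (.s k243 k81 12 (.d k12 k8 k89 1 14))))] .n) (.c k95 (.l (.s k15 k10 2 (.s
  k165 k245 11 (.s k160 k175 2 (.d k240 k80 k90 11 14))))) (.c k160 (.q k2 [(.s k10 k15 2 (.s k6 k14
  1 (.s k7 k4 0 (.s k86 k254 13 (.d k165 k245 k244 11 12))))), (.s k15 k10 2 (.s k86 k254 13 (.s k84
  k87 0 (.s k165 k245 11 (.s k7 k244 12 (.s k252 k168 13 (.d k3 k11 k169 1 14))))))), (.s k10 k15 2
  (.s k6 k14 1 (.s k4 k7 0 (.s k12 k8 1 (.s k166 k247 12 (.s k243 k89 14 (.d k162 k174 k81 1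
  12))))))), (.s k86 k254 13 (.s k87 k84 0 (.s k165 k245 11 (.s k7 k244 12 (.s k4 k6 0 (.d k247 k167
  k166 11 12))))))] (.c k7 (.l (.s k10 k15 2 (.s k14 k6 1 (.s k86 k254 13 (.s k90 k250 11 (.s k82
  k94 1 (.d k242 k162 k166 11 13))))))) .n)) (.c k165 (.q k21 [(.s k63 k42 6 (.s k149 k213 7 (.s
  k128 k191 6 (.d k192 k64 k106 7 14)))), (.s k15 k10 2 (.s k37 k53 3 (.s k26 k48 6 (.s k31 k16 2
  (.d k63 k47 k42 3 6))))), (.s k10 k15 2 (.s k90 k250 11 (.s k95 k80 2 (.s k149 k213 7 (.s k31 k208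
  10 (.s k16 k26 2 (.d k223 k159 k154 7 10)))))))] .n) (.c k175 (.q k138 [(.s k154 k186 3 (.s k16
  k223 10 (.s k48 k32 3 (.d k207 k69 k101 10 14)))), (.s k15 k10 2 (.s k69 k207 10 (.s k133 k197 7
  (.s k128 k143 2 (.d k192 k64 k74 7 10))))), (.s k15 k10 2 (.s k154 k186 3 (.s k165 k245 11 (.s
  k176 k143 6 (.s k240 k90 14 (.s k48 k112 7 (.d k16 k32 k223 3 10)))))))] (.c k15 (.q k95 [(.s k154
  k186 3 (.s k16 k223 10 (.s k48 k32 3 (.d k207 k69 k101 10 14)))), (.s k90 k80 2 (.s k10 k250 11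
  (.s k154 k186 3 (.s k26 k218 7 (.s k58 k42 3 (.d k202 k74 k106 7 11)))))), (.s k69 k207 10 (.s
  k133 k197 7 (.s k165 k245 11 (.s k149 k181 3 (.d k128 k143 k191 2 6)))))] (.c k117 (.l (.s k207
  k69 10 (.s k154 k186 3 (.s k48 k101 14 (.d k16 k32 k223 3 10))))) .n)) (.c k95 (.l (.s k15 k10 2
  (.s k69 k207 10 (.s k133 k197 7 (.s k128 k143 2 (.d k192 k64 k74 7 10)))))) (.c k223 (.l (.s k15
  k10 2 (.s k154 k186 3 (.s k165 k245 11 (.s k143 k176 6 (.d k207 k79 k69 7 10)))))) .n)))) (.c k240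
  (.q k128 [(.s k192 k64 7 (.s k149 k191 6 (.s k63 k106 14 (.d k21 k42 k213 6 7)))), (.s k15 k10 2
  (.s k192 k64 7 (.s k133 k74 10 (.s k69 k197 7 (.d k138 k143 k207 2 10))))), (.s k149 k191 6 (.s
  k213 k21 7 (.s k245 k165 11 (.s k197 k229 3 (.s k69 k133 7 (.d k101 k117 k53 3 11))))))] (.c k245
  (.q k250 [(.d k10 k15 k90 2 11), (.s k149 k191 6 (.s k21 k213 7 (.s k63 k42 6 (.d k192 k64 k106 7
  14))))] .n) (.c k250 (.l (.s k245 k165 11 (.s k149 k191 6 (.s k21 k213 7 (.s k63 k42 6 (.d k192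
  k64 k106 7 14)))))) .n))) (.c k245 (.q k106 [(.s k42 k234 7 (.s k64 k127 6 (.s k192 k128 7 (.d k63
  k21 k149 6 14)))), (.s k10 k15 2 (.s k234 k42 7 (.s k250 k90 11 (.s k202 k218 3 (.s k154 k58 11
  (.d k138 k186 k74 3 7)))))), (.s k15 k10 2 (.s k64 k127 6 (.s k192 k128 7 (.s k74 k133 10 (.s k90
  k122 3 (.s k80 k95 2 (.d k240 k160 k165 11 14)))))))] (.c k240 (.q k250 [(.d k10 k15 k90 2 11),
  (.s k42 k234 7 (.s k63 k21 6 (.s k64 k127 6 (.d k192 k128 k149 7 14))))] .n) (.c k250 (.q k240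
  [(.s k80 k160 11 (.s k90 k95 2 (.d k15 k10 k165 2 14))), (.s k42 k234 7 (.s k63 k21 6 (.s k64 k127
  6 (.d k192 k128 k149 7 14))))] .n) .n))) (.c k250 (.l (.s k15 k10 2 (.s k165 k245 11 (.s k240 k90
  14 (.d k160 k175 k80 2 11))))) .n)))))))))))))

def t1_10 : T TT 256 :=
  (.f k170 k255 14 (.q k48 [(.s k16 k32 3 (.s k154 k223 10 (.s k138 k186 3 (.d k207 k69 k101 10
  14))))] (.c k16 (.q k8 [(.s k12 k4 1 (.s k89 k251 12 (.s k81 k93 1 (.d k243 k162 k166 12 14)))),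
  (.s k12 k4 1 (.s k24 k36 5 (.s k40 k56 3 (.s k105 k235 8 (.s k65 k125 5 (.s k195 k130 8 (.d k60
  k20 k150 5 14)))))))] (.c k4 (.l (.s k89 k251 12 (.s k81 k93 1 (.s k243 k162 12 (.s k113 k178 8
  (.s k101 k77 5 (.s k69 k117 3 (.d k207 k138 k154 10 14)))))))) (.c k12 (.f k89 k251 12 (.q k243
  [(.d k81 k93 k162 1 12), (.s k113 k178 8 (.s k101 k77 5 (.s k69 k117 3 (.d k207 k138 k154 10
  14))))] (.c k93 (.q k174 [(.d k162 k166 k81 1 12), (.s k113 k178 8 (.s k101 k77 5 (.s k69 k117 3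
  (.d k207 k138 k154 10 14))))] .n) (.c k174 (.l (.s k93 k81 1 (.s k113 k178 8 (.s k101 k77 5 (.s
  k69 k117 3 (.d k207 k138 k154 10 14)))))) .n)))) .n))) (.c k32 (.q k162 [(.s k243 k81 12 (.s k166
  k174 1 (.s k12 k89 14 (.d k4 k8 k247 1 12)))), (.s k243 k81 12 (.s k178 k113 8 (.s k130 k146 3 (.s
  k150 k190 5 (.s k20 k215 8 (.s k60 k40 5 (.d k195 k65 k105 8 14))))))), (.s k166 k174 1 (.s k4
  k247 12 (.s k12 k8 1 (.s k36 k24 5 (.s k101 k231 8 (.s k69 k117 3 (.d k207 k138 k154 10 14)))))))]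
  (.c k243 (.f k166 k174 1 (.q k12 [(.d k4 k247 k8 12 1), (.s k36 k24 5 (.s k101 k231 8 (.s k69 k117
  3 (.d k207 k138 k154 10 14))))] (.c k247 (.q k251 [(.d k8 k4 k89 1 12), (.s k36 k24 5 (.s k101
  k231 8 (.s k69 k117 3 (.d k207 k138 k154 10 14))))] .n) (.c k251 (.l (.s k247 k4 12 (.s k36 k24 5
  (.s k101 k231 8 (.s k69 k117 3 (.d k207 k138 k154 10 14)))))) .n)))) .n)) (.c k69 (.f k32 k16 3
  (.q k149 [(.s k21 k213 7 (.s k63 k42 6 (.s k128 k191 6 (.d k192 k64 k106 7 14)))), (.s k101 k239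
  10 (.s k197 k53 11 (.s k207 k154 14 (.s k192 k202 2 (.d k128 k191 k64 6 7))))), (.s k101 k239 10
  (.s k53 k197 11 (.s k63 k58 2 (.d k21 k42 k213 6 7))))] (.c k58 (.l (.s k21 k213 7 (.s k128 k191 6
  (.s k192 k64 7 (.d k63 k42 k106 6 14))))) (.c k137 (.q k205 [(.s k21 k213 7 (.s k63 k42 6 (.s k128
  k191 6 (.d k192 k64 k106 7 14)))), (.s k101 k239 10 (.s k153 k49 13 (.s k136 k187 4 (.s k204 k68 9
  (.d k207 k206 k154 0 14)))))] .n) (.c k205 (.q k137 [(.s k21 k213 7 (.s k63 k42 6 (.s k128 k191 6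
  (.d k192 k64 k106 7 14)))), (.s k101 k239 10 (.s k197 k53 11 (.s k207 k154 14 (.s k192 k202 2 (.d
  k128 k191 k64 6 7))))), (.s k101 k239 10 (.s k53 k197 11 (.s k63 k58 2 (.d k21 k42 k213 6 7))))]
  (.c k58 (.l (.s k21 k213 7 (.s k128 k191 6 (.s k192 k64 7 (.d k63 k42 k106 6 14))))) .n)) .n)))))
  (.c k101 (.q k4 [(.s k12 k8 1 (.s k166 k247 12 (.s k162 k174 1 (.d k243 k81 k89 12 14)))), (.s k12
  k8 1 (.s k32 k16 3 (.s k36 k24 5 (.s k20 k52 3 (.d k40 k44 k60 1 5))))), (.s k16 k32 3 (.s k154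
  k223 10 (.s k166 k247 12 (.s k178 k142 5 (.s k243 k113 8 (.d k162 k174 k81 1 12))))))] .n) (.c
  k138 (.f k32 k16 3 (.f k239 k101 10 (.q k195 [(.s k65 k130 8 (.s k105 k125 5 (.s k40 k235 8 (.d
  k60 k20 k150 5 14)))), (.s k97 k146 12 (.s k162 k227 8 (.s k166 k174 1 (.s k4 k247 12 (.s k12 k8 1
  (.d k243 k81 k89 12 14))))))] (.c k74 (.q k202 [(.s k65 k130 8 (.s k105 k125 5 (.s k40 k235 8 (.d
  k60 k20 k150 5 14)))), (.s k97 k146 12 (.s k162 k227 8 (.s k166 k174 1 (.s k4 k247 12 (.s k12 k8 1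
  (.d k243 k81 k89 12 14))))))] .n) (.c k202 (.q k74 [(.s k65 k130 8 (.s k105 k125 5 (.s k40 k235 8
  (.d k60 k20 k150 5 14)))), (.s k97 k146 12 (.s k162 k227 8 (.s k166 k174 1 (.s k4 k247 12 (.s k12
  k8 1 (.d k243 k81 k89 12 14))))))] .n) .n))))) (.c k154 (.q k4 [(.s k12 k8 1 (.s k166 k247 12 (.s
  k162 k174 1 (.d k243 k81 k89 12 14)))), (.s k32 k16 3 (.s k101 k239 10 (.s k166 k247 12 (.s k36
  k231 8 (.s k20 k52 3 (.d k40 k44 k60 1 5)))))), (.s k12 k8 1 (.s k32 k16 3 (.s k36 k24 5 (.s k20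
  k52 3 (.d k40 k44 k60 1 5)))))] .n) (.c k186 (.l (.s k32 k16 3 (.s k101 k239 10 (.s k69 k117 3 (.d
  k207 k138 k154 10 14))))) (.c k207 (.f k16 k32 3 (.q k84 [(.s k223 k154 10 (.s k86 k87 0 (.s k220
  k152 9 (.s k153 k19 10 (.d k221 k222 k17 0 9))))), (.s k152 k220 9 (.s k100 k204 13 (.s k116 k68 3
  (.d k252 k184 k168 9 13)))), (.s k86 k87 0 (.s k252 k168 13 (.s k3 k169 14 (.s k18 k33 4 (.d k154
  k223 k222 10 9)))))] (.c k223 (.q k239 [(.s k252 k168 13 (.s k116 k184 9 (.s k100 k68 3 (.d k152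
  k220 k204 9 13)))), (.s k86 k87 0 (.s k2 k254 13 (.s k252 k168 13 (.s k3 k169 14 (.s k18 k33 4 (.s
  k34 k50 3 (.d k17 k19 k51 0 4)))))))] (.c k100 (.l (.s k86 k87 0 (.s k220 k152 9 (.s k19 k153 10
  (.s k18 k17 0 (.s k252 k168 13 (.s k236 k204 3 (.d k3 k33 k169 4 14)))))))) (.c k168 (.q k100 [(.d
  k152 k220 k204 9 13), (.s k68 k116 3 (.s k102 k119 4 (.s k103 k101 0 (.s k35 k171 9 (.s k236 k169
  10 (.d k238 k237 k34 0 9))))))] .n) (.c k236 (.l (.s k152 k220 9 (.s k100 k204 13 (.s k252 k168 13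
  (.d k116 k68 k184 3 9))))) (.c k252 (.l (.s k152 k220 9 (.s k204 k100 13 (.s k68 k136 9 (.s k102
  k119 4 (.s k34 k238 9 (.d k51 k17 k153 4 14))))))) .n))))) (.c k239 (.l (.s k223 k154 10 (.s k86
  k87 0 (.s k220 k152 9 (.s k153 k19 10 (.d k221 k222 k17 0 9)))))) .n)))) (.c k223 (.l (.s k32 k16
  3 (.s k101 k239 10 (.s k207 k154 14 (.d k69 k117 k138 3 10))))) (.c k239 (.l (.s k16 k32 3 (.s
  k154 k223 10 (.s k207 k101 14 (.d k138 k186 k69 3 10))))) .n))))))))))))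

def t1_11 : T TT 256 :=
  (.f k255 k170 14 (.q k102 [(.s k68 k119 4 (.s k204 k136 9 (.s k153 k51 14 (.d k221 k238 k17 4
  9))))] (.c k17 (.f k119 k68 4 (.f k51 k187 9 (.f k153 k204 14 (.q k49 [(.s k48 k50 0 (.s k101 k205
  13 (.d k117 k69 k186 3 10))), (.s k48 k50 0 (.s k117 k186 10 (.s k118 k116 0 (.d k185 k253 k252 9
  10)))), (.s k101 k205 13 (.s k69 k117 3 (.s k207 k138 10 (.d k103 k100 k155 0 13)))), (.s k48 k50
  0 (.s k16 k32 3 (.s k154 k223 10 (.d k101 k205 k207 13 14))))] .n)))) (.c k51 (.q k4 [(.s k12 k8 1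
  (.s k93 k174 12 (.s k166 k247 12 (.d k89 k81 k243 1 14)))), (.s k68 k119 4 (.s k166 k247 12 (.s
  k38 k230 7 (.s k55 k21 4 (.d k196 k132 k149 7 12))))), (.s k12 k8 1 (.s k68 k119 4 (.s k132 k196 7
  (.s k72 k192 9 (.s k76 k64 1 (.d k204 k140 k136 7 9))))))] .n) (.c k68 (.q k64 [(.s k106 k127 6
  (.s k192 k128 7 (.s k149 k63 14 (.d k213 k234 k21 6 7)))), (.s k106 k127 6 (.s k98 k110 1 (.s k81
  k115 4 (.s k243 k162 12 (.s k247 k251 1 (.s k166 k4 12 (.d k89 k93 k12 1 14)))))))] (.c k106 (.f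
  k192 k128 7 (.q k149 [(.d k213 k234 k21 6 7), (.s k196 k55 12 (.s k204 k200 1 (.s k153 k51 14 (.d
  k221 k238 k17 4 9))))] (.c k42 (.l (.s k234 k213 6 (.s k196 k55 12 (.s k204 k200 1 (.s k153 k51 14
  (.d k221 k238 k17 4 9)))))) (.c k234 (.q k42 [(.d k21 k63 k213 6 7), (.s k196 k55 12 (.s k204 k200
  1 (.s k221 k238 4 (.d k153 k17 k51 9 14))))] .n) .n)))) (.c k127 (.l (.s k192 k128 7 (.s k213 k234
  6 (.s k149 k21 7 (.s k196 k55 12 (.s k204 k200 1 (.s k153 k51 14 (.d k221 k238 k17 4 9))))))))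
  .n))) (.c k119 (.q k127 [(.s k106 k64 6 (.s k63 k191 7 (.s k149 k192 14 (.d k21 k42 k213 6 7)))),
  (.s k106 k64 6 (.s k110 k98 1 (.s k93 k76 4 (.s k12 k174 12 (.s k4 k8 1 (.s k166 k247 12 (.d k89
  k81 k243 1 14)))))))] (.c k64 (.l (.s k63 k191 7 (.s k21 k42 6 (.s k149 k213 7 (.s k55 k196 12 (.s
  k51 k59 1 (.s k17 k34 4 (.d k153 k221 k204 9 14)))))))) (.c k106 (.f k63 k191 7 (.q k149 [(.d k21
  k42 k213 6 7), (.s k55 k196 12 (.s k51 k59 1 (.s k17 k34 4 (.d k153 k221 k204 9 14))))] (.c k42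
  (.q k234 [(.d k213 k192 k21 6 7), (.s k55 k196 12 (.s k51 k59 1 (.s k17 k34 4 (.d k153 k221 k204 9
  14))))] .n) (.c k234 (.l (.s k42 k21 6 (.s k55 k196 12 (.s k51 k59 1 (.s k17 k34 4 (.d k153 k221
  k204 9 14)))))) .n)))) .n))) (.c k136 (.l (.s k119 k68 4 (.s k51 k187 9 (.s k153 k204 14 (.d k17
  k34 k221 4 9))))) (.c k153 (.f k68 k119 4 (.q k4 [(.s k166 k247 12 (.s k38 k230 7 (.s k55 k21 4
  (.d k196 k132 k149 7 12)))), (.s k12 k8 1 (.s k93 k174 12 (.s k89 k81 1 (.s k76 k115 6 (.d k204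
  k136 k140 9 7)))))] (.c k136 (.q k187 [(.s k166 k247 12 (.s k38 k230 7 (.s k55 k21 4 (.d k196 k132
  k149 7 12)))), (.s k12 k8 1 (.s k93 k174 12 (.s k89 k81 1 (.s k76 k115 6 (.s k127 k110 4 (.d k64
  k72 k106 1 6))))))] (.c k166 (.l (.s k12 k8 1 (.s k132 k196 7 (.s k72 k192 9 (.s k76 k64 1 (.s k89
  k115 6 (.d k93 k81 k174 1 12))))))) .n)) (.c k166 (.l (.s k12 k8 1 (.s k132 k196 7 (.s k72 k192 9
  (.s k76 k64 1 (.d k204 k140 k136 7 9)))))) (.c k187 (.l (.s k136 k204 9 (.s k12 k8 1 (.s k93 k174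
  12 (.s k89 k81 1 (.d k166 k247 k243 12 14)))))) .n))))) (.c k187 (.l (.s k68 k119 4 (.s k204 k136
  9 (.s k153 k51 14 (.d k221 k238 k17 4 9))))) (.c k204 (.q k4 [(.s k12 k8 1 (.s k93 k174 12 (.s
  k166 k247 12 (.d k89 k81 k243 1 14)))), (.s k68 k119 4 (.s k166 k247 12 (.s k38 k230 7 (.s k55 k21
  4 (.d k196 k132 k149 7 12))))), (.s k12 k8 1 (.s k119 k68 4 (.s k51 k187 9 (.s k34 k17 4 (.s k38
  k25 6 (.s k21 k55 4 (.d k42 k46 k63 1 6)))))))] .n) (.c k221 (.q k3 [(.s k68 k119 4 (.s k87 k171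
  13 (.s k86 k84 0 (.s k70 k118 3 (.d k204 k136 k137 9 10))))), (.s k87 k171 13 (.s k119 k68 4 (.s
  k51 k187 9 (.s k19 k35 3 (.s k103 k71 3 (.d k155 k223 k207 9 13)))))), (.s k68 k119 4 (.s k204
  k136 9 (.s k70 k137 10 (.s k86 k118 3 (.s k153 k51 14 (.s k220 k19 10 (.d k252 k236 k169 3
  14))))))), (.s k87 k171 13 (.s k86 k84 0 (.s k70 k118 3 (.s k169 k252 14 (.s k35 k236 10 (.s k51
  k19 3 (.d k204 k137 k153 10 14)))))))] (.c k70 (.l (.s k87 k171 13 (.s k86 k84 0 (.s k119 k68 4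
  (.s k51 k187 9 (.s k19 k35 3 (.d k153 k220 k204 10 14))))))) (.c k169 (.l (.s k68 k119 4 (.s k204
  k136 9 (.s k70 k137 10 (.s k86 k118 3 (.d k87 k84 k171 0 13)))))) .n))) (.c k238 (.l (.s k119 k68
  4 (.s k51 k187 9 (.s k17 k34 4 (.d k153 k221 k204 9 14))))) .n))))))))))))

def t1_12 : T TT 256 :=
  (.f k255 k170 14 (.q k101 [(.s k69 k117 3 (.s k207 k138 10 (.s k223 k239 3 (.d k154 k16 k48 10
  14))))] (.c k16 (.q k3 [(.s k69 k117 3 (.s k87 k171 13 (.s k86 k84 0 (.s k207 k138 10 (.d k71 k116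
  k139 4 9))))), (.s k69 k117 3 (.s k207 k138 10 (.s k71 k139 9 (.s k68 k70 0 (.s k102 k119 4 (.s
  k100 k103 0 (.d k116 k84 k86 3 4))))))), (.s k69 k117 3 (.s k87 k171 13 (.s k86 k84 0 (.s k71 k116
  4 (.s k68 k70 0 (.d k119 k103 k102 3 4)))))), (.s k69 k117 3 (.s k87 k171 13 (.s k207 k138 10 (.s
  k71 k139 9 (.s k68 k70 0 (.d k119 k103 k102 3 4))))))] (.c k69 (.l (.s k87 k171 13 (.s k86 k84 0
  (.s k71 k116 4 (.s k103 k119 3 (.s k207 k139 9 (.s k155 k51 13 (.d k223 k239 k19 3 9)))))))) (.c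
  k71 (.l (.s k87 k171 13 (.s k86 k84 0 (.s k117 k69 3 (.s k48 k186 10 (.s k18 k33 4 (.d k154 k222
  k207 9 14))))))) (.c k117 (.l (.s k87 k171 13 (.s k86 k84 0 (.s k71 k116 4 (.s k119 k103 3 (.s k68
  k102 4 (.s k69 k70 0 (.d k207 k139 k138 9 10)))))))) .n)))) (.c k48 (.f k69 k117 3 (.q k103 [(.s
  k102 k100 0 (.s k207 k138 10 (.s k51 k155 13 (.d k119 k68 k187 4 9)))), (.s k207 k138 10 (.s k51
  k155 13 (.s k119 k187 9 (.s k87 k71 3 (.s k171 k3 13 (.d k239 k223 k35 3 9)))))), (.s k102 k100 0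
  (.s k68 k119 4 (.s k204 k136 9 (.s k153 k51 14 (.d k221 k238 k17 4 9))))), (.s k102 k100 0 (.s
  k119 k68 4 (.s k87 k71 3 (.s k171 k3 13 (.s k207 k138 10 (.d k239 k223 k35 3 9))))))] (.c k24 (.q
  k36 [(.s k166 k231 8 (.s k4 k247 12 (.s k52 k20 3 (.d k199 k134 k150 8 12)))), (.s k102 k100 0 (.s
  k119 k68 4 (.s k51 k187 9 (.d k207 k138 k155 10 13))))] .n) (.c k36 (.q k24 [(.s k102 k100 0 (.s
  k207 k138 10 (.s k51 k155 13 (.d k119 k68 k187 4 9)))), (.s k207 k138 10 (.s k51 k155 13 (.s k119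
  k187 9 (.s k87 k71 3 (.s k171 k3 13 (.d k239 k223 k35 3 9)))))), (.s k102 k100 0 (.s k68 k119 4
  (.s k204 k136 9 (.s k153 k51 14 (.d k221 k238 k17 4 9))))), (.s k102 k100 0 (.s k119 k68 4 (.s k87
  k71 3 (.s k171 k3 13 (.s k207 k138 10 (.d k239 k223 k35 3 9))))))] (.c k119 (.l (.s k102 k100 0
  (.s k207 k138 10 (.s k51 k155 13 (.s k17 k34 4 (.d k153 k204 k221 14 9)))))) .n)) (.c k119 (.l (.s
  k102 k100 0 (.s k207 k138 10 (.s k51 k155 13 (.s k17 k34 4 (.d k153 k204 k221 14 9)))))) .n)))))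
  (.c k69 (.q k195 [(.s k65 k130 8 (.s k105 k125 5 (.s k215 k235 5 (.d k150 k20 k60 8 14)))), (.s
  k65 k130 8 (.s k105 k125 5 (.s k97 k109 1 (.s k48 k146 12 (.s k16 k32 3 (.d k154 k223 k207 10
  14)))))), (.s k215 k235 5 (.s k150 k20 8 (.s k199 k52 12 (.s k207 k203 1 (.s k154 k48 14 (.d k223
  k239 k16 3 10))))))] (.c k105 (.f k235 k215 5 (.q k63 [(.s k107 k151 13 (.s k171 k43 7 (.s k87 k3
  13 (.d k127 k67 k191 5 7)))), (.s k21 k42 6 (.s k149 k213 7 (.s k53 k197 11 (.s k48 k58 2 (.s k16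
  k32 3 (.d k154 k223 k207 10 14))))))] (.c k137 (.q k205 [(.s k21 k42 6 (.s k127 k191 7 (.s k106
  k64 6 (.d k149 k213 k192 7 14)))), (.s k107 k151 13 (.s k171 k43 7 (.s k87 k3 13 (.d k127 k67 k191
  5 7)))), (.s k21 k42 6 (.s k149 k213 7 (.s k197 k53 11 (.s k193 k201 1 (.d k192 k106 k194 14
  0)))))] .n) (.c k205 (.q k137 [(.s k107 k151 13 (.s k171 k43 7 (.s k87 k3 13 (.d k127 k67 k191 5
  7)))), (.s k21 k42 6 (.s k149 k213 7 (.s k53 k197 11 (.s k48 k58 2 (.s k16 k32 3 (.d k154 k223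
  k207 10 14))))))] .n) .n)))) (.c k137 (.q k205 [(.s k65 k130 8 (.s k105 k125 5 (.s k215 k235 5 (.d
  k150 k20 k60 8 14)))), (.s k153 k49 13 (.s k17 k221 9 (.s k51 k34 4 (.s k102 k204 14 (.d k119 k68
  k187 4 9)))))] .n) (.c k150 (.q k64 [(.s k106 k127 6 (.s k192 k128 7 (.s k213 k234 6 (.d k149 k21
  k63 7 14)))), (.s k106 k127 6 (.s k96 k111 2 (.s k80 k112 3 (.s k240 k160 11 (.s k245 k250 2 (.s
  k165 k5 11 (.d k90 k95 k15 2 14))))))), (.s k192 k128 7 (.s k194 k193 0 (.s k234 k213 6 (.s k214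
  k254 5 (.s k233 k252 6 (.d k235 k232 k215 0 5))))))] (.c k130 (.q k190 [(.s k106 k127 6 (.s k192
  k128 7 (.s k213 k234 6 (.d k149 k21 k63 7 14)))), (.s k125 k60 8 (.s k65 k105 5 (.s k67 k66 0 (.s
  k127 k106 6 (.s k107 k87 5 (.d k63 k191 k151 7 13)))))), (.s k60 k125 8 (.s k40 k20 5 (.s k192
  k128 7 (.s k104 k148 13 (.s k168 k232 7 (.d k84 k124 k252 5 13))))))] (.c k137 (.q k205 [(.s k106
  k127 6 (.s k192 k128 7 (.s k213 k234 6 (.d k149 k21 k63 7 14)))), (.s k153 k49 13 (.s k17 k221 9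
  (.s k51 k34 4 (.s k102 k204 14 (.d k119 k68 k187 4 9)))))] .n) (.c k191 (.l (.s k106 k127 6 (.s
  k192 k128 7 (.s k149 k63 14 (.d k213 k234 k21 6 7))))) (.c k205 (.q k137 [(.s k106 k127 6 (.s k192
  k128 7 (.s k213 k234 6 (.d k149 k21 k63 7 14)))), (.s k125 k60 8 (.s k65 k105 5 (.s k67 k66 0 (.s
  k127 k106 6 (.s k107 k87 5 (.d k63 k191 k151 7 13)))))), (.s k60 k125 8 (.s k40 k20 5 (.s k192
  k128 7 (.s k104 k148 13 (.s k168 k232 7 (.d k84 k124 k252 5 13))))))] (.c k191 (.l (.s k106 k127 6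
  (.s k192 k128 7 (.s k149 k63 14 (.d k213 k234 k21 6 7))))) .n)) .n)))) (.c k137 (.q k205 [(.s k106
  k127 6 (.s k192 k128 7 (.s k213 k234 6 (.d k149 k21 k63 7 14)))), (.s k153 k49 13 (.s k17 k221 9
  (.s k51 k34 4 (.s k102 k204 14 (.d k119 k68 k187 4 9)))))] (.c k130 (.q k190 [(.s k106 k127 6 (.s
  k192 k128 7 (.s k213 k234 6 (.d k149 k21 k63 7 14)))), (.s k153 k49 13 (.s k17 k221 9 (.s k51 k34
  4 (.s k102 k204 14 (.d k119 k68 k187 4 9)))))] .n) (.c k190 (.l (.s k130 k65 8 (.s k106 k127 6 (.s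
  k192 k128 7 (.s k149 k63 14 (.d k213 k234 k21 6 7)))))) .n))) (.c k190 (.l (.s k130 k65 8 (.s k106
  k127 6 (.s k192 k128 7 (.s k149 k63 14 (.d k213 k234 k21 6 7)))))) (.c k205 (.q k137 [(.s k106
  k127 6 (.s k192 k128 7 (.s k213 k234 6 (.d k149 k21 k63 7 14)))), (.s k106 k127 6 (.s k96 k111 2
  (.s k80 k112 3 (.s k240 k160 11 (.s k245 k250 2 (.s k165 k5 11 (.d k90 k95 k15 2 14))))))), (.s
  k192 k128 7 (.s k194 k193 0 (.s k234 k213 6 (.s k214 k254 5 (.s k233 k252 6 (.d k235 k232 k215 0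
  5))))))] (.c k130 (.q k190 [(.s k106 k127 6 (.s k192 k128 7 (.s k213 k234 6 (.d k149 k21 k63 7
  14)))), (.s k125 k60 8 (.s k65 k105 5 (.s k67 k66 0 (.s k127 k106 6 (.s k107 k87 5 (.d k63 k191
  k151 7 13)))))), (.s k60 k125 8 (.s k40 k20 5 (.s k192 k128 7 (.s k104 k148 13 (.s k168 k232 7 (.d
  k84 k124 k252 5 13))))))] (.c k191 (.l (.s k106 k127 6 (.s k192 k128 7 (.s k149 k63 14 (.d k213
  k234 k21 6 7))))) .n)) (.c k190 (.l (.s k130 k65 8 (.s k106 k127 6 (.s k192 k128 7 (.s k149 k63 14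
  (.d k213 k234 k21 6 7)))))) .n))) .n))))) (.c k205 (.q k137 [(.s k65 k130 8 (.s k105 k125 5 (.s
  k215 k235 5 (.d k150 k20 k60 8 14)))), (.s k65 k130 8 (.s k105 k125 5 (.s k97 k109 1 (.s k48 k146
  12 (.s k16 k32 3 (.d k154 k223 k207 10 14)))))), (.s k215 k235 5 (.s k150 k20 8 (.s k199 k52 12
  (.s k207 k203 1 (.s k154 k48 14 (.d k223 k239 k16 3 10))))))] (.c k105 (.q k150 [(.d k215 k235 k20
  5 8), (.s k199 k52 12 (.s k207 k203 1 (.s k154 k48 14 (.d k223 k239 k16 3 10))))] (.c k40 (.l (.s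
  k235 k215 5 (.s k199 k52 12 (.s k207 k203 1 (.s k154 k48 14 (.d k223 k239 k16 3 10)))))) (.c k235
  (.q k40 [(.d k20 k60 k215 5 8), (.s k199 k52 12 (.s k207 k203 1 (.s k223 k239 3 (.d k154 k16 k48
  10 14))))] .n) .n))) (.c k150 (.q k97 [(.s k105 k109 1 (.d k65 k130 k125 8 5)), (.s k48 k146 12
  (.s k16 k32 3 (.d k154 k223 k207 10 14)))] (.c k130 (.q k190 [(.s k105 k109 1 (.d k125 k65 k60 5
  8)), (.s k48 k146 12 (.s k16 k32 3 (.d k154 k223 k207 10 14)))] .n) (.c k190 (.l (.s k130 k65 8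
  (.s k48 k146 12 (.s k16 k32 3 (.d k154 k223 k207 10 14))))) .n))) .n))) .n))))) (.c k117 (.q k127
  [(.s k63 k191 7 (.s k21 k42 6 (.s k106 k64 6 (.d k149 k213 k192 7 14)))), (.s k106 k64 6 (.s k111
  k96 2 (.s k95 k79 3 (.s k15 k175 11 (.s k5 k10 2 (.s k165 k245 11 (.d k90 k80 k240 2 14)))))))]
  (.c k64 (.l (.s k63 k191 7 (.s k21 k42 6 (.s k149 k213 7 (.s k53 k197 11 (.s k48 k58 2 (.s k16 k32
  3 (.d k154 k223 k207 10 14)))))))) (.c k106 (.f k63 k191 7 (.q k149 [(.d k21 k42 k213 6 7), (.s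
  k53 k197 11 (.s k48 k58 2 (.s k16 k32 3 (.d k154 k223 k207 10 14))))] (.c k42 (.q k234 [(.d k213
  k192 k21 6 7), (.s k53 k197 11 (.s k48 k58 2 (.s k16 k32 3 (.d k154 k223 k207 10 14))))] .n) (.c
  k234 (.l (.s k42 k21 6 (.s k53 k197 11 (.s k48 k58 2 (.s k16 k32 3 (.d k154 k223 k207 10 14))))))
  .n)))) .n))) (.c k138 (.l (.s k117 k69 3 (.s k48 k186 10 (.s k154 k207 14 (.d k16 k32 k223 3
  10))))) (.c k154 (.f k69 k117 3 (.q k89 [(.s k93 k81 1 (.s k77 k113 5 (.s k125 k109 3 (.d k65 k73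
  k105 1 5)))), (.s k81 k93 1 (.s k243 k162 12 (.s k247 k251 1 (.s k166 k4 12 (.s k231 k36 8 (.d
  k207 k138 k219 10 5)))))), (.s k77 k113 5 (.s k65 k73 1 (.s k195 k130 8 (.s k215 k235 5 (.s k150
  k20 8 (.d k105 k125 k60 5 14))))))] (.c k138 (.q k186 [(.s k77 k113 5 (.s k93 k81 1 (.s k125 k109
  3 (.d k65 k73 k105 1 5)))), (.s k81 k93 1 (.s k113 k77 5 (.s k243 k162 12 (.s k178 k48 8 (.s k182
  k190 1 (.s k121 k60 10 (.d k251 k56 k247 8 1))))))), (.s k81 k93 1 (.s k243 k162 12 (.s k251 k247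
  1 (.s k121 k56 8 (.s k105 k73 3 (.s k125 k65 5 (.d k60 k182 k190 10 8))))))), (.s k77 k113 5 (.s
  k65 k73 1 (.s k195 k130 8 (.s k215 k235 5 (.s k150 k20 8 (.d k105 k125 k60 5 14))))))] (.c k121
  (.l (.s k93 k81 1 (.s k77 k113 5 (.s k125 k109 3 (.d k65 k73 k105 1 5))))) (.c k125 (.l (.s k81
  k93 1 (.s k243 k162 12 (.s k251 k247 1 (.s k77 k113 5 (.s k121 k56 8 (.d k73 k105 k65 3 1)))))))
  .n))) (.c k186 (.l (.s k138 k207 10 (.s k77 k113 5 (.s k65 k73 1 (.s k93 k81 1 (.d k125 k109 k105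
  3 5)))))) .n)))) (.c k186 (.l (.s k69 k117 3 (.s k207 k138 10 (.s k154 k48 14 (.d k223 k239 k16 3
  10))))) (.c k207 (.q k77 [(.s k69 k117 3 (.s k65 k73 1 (.s k89 k113 5 (.s k93 k81 1 (.d k125 k109
  k105 3 5))))), (.s k113 k89 5 (.s k117 k69 3 (.s k48 k186 10 (.s k121 k125 1 (.s k243 k178 8 (.s
  k182 k60 10 (.d k247 k251 k52 1 8))))))), (.s k69 k117 3 (.s k65 k73 1 (.s k195 k130 8 (.s k215
  k235 5 (.s k150 k20 8 (.d k105 k125 k60 5 14)))))), (.s k89 k113 5 (.s k93 k81 1 (.s k125 k109 3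
  (.s k60 k190 8 (.s k20 k40 5 (.s k150 k215 8 (.d k105 k65 k195 5 14)))))))] (.c k125 (.q k5 [(.s
  k15 k10 2 (.s k95 k175 11 (.s k90 k80 2 (.d k165 k245 k240 11 14)))), (.s k69 k117 3 (.s k165 k245
  11 (.s k37 k229 7 (.s k53 k21 3 (.d k197 k133 k149 7 11))))), (.s k15 k10 2 (.s k89 k113 5 (.s k81
  k93 1 (.s k243 k162 12 (.s k91 k167 13 (.s k90 k88 0 (.d k95 k80 k175 2 11)))))))] (.c k240 (.l
  (.s k15 k10 2 (.s k117 k69 3 (.s k48 k186 10 (.s k37 k26 6 (.d k165 k229 k245 7 11)))))) .n)) .n))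
  (.c k223 (.q k3 [(.s k69 k117 3 (.s k87 k171 13 (.s k86 k84 0 (.s k207 k138 10 (.d k71 k116 k139 4
  9))))), (.s k69 k117 3 (.s k87 k171 13 (.s k86 k84 0 (.s k71 k116 4 (.s k68 k70 0 (.d k119 k103
  k102 3 4)))))), (.s k69 k117 3 (.s k207 k138 10 (.s k71 k139 9 (.s k68 k70 0 (.s k102 k119 4 (.s
  k100 k103 0 (.d k116 k84 k86 3 4))))))), (.s k69 k117 3 (.s k87 k171 13 (.s k207 k138 10 (.s k71
  k139 9 (.s k68 k70 0 (.d k119 k103 k102 3 4)))))), (.s k87 k171 13 (.s k86 k84 0 (.s k71 k116 4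
  (.s k169 k252 14 (.s k33 k237 9 (.s k48 k18 4 (.d k207 k139 k154 9 14)))))))] (.c k71 (.l (.s k87
  k171 13 (.s k86 k84 0 (.s k117 k69 3 (.s k48 k186 10 (.s k18 k33 4 (.d k154 k222 k207 9 14)))))))
  .n)) (.c k239 (.l (.s k117 k69 3 (.s k48 k186 10 (.s k16 k32 3 (.d k154 k223 k207 10 14)))))
  .n))))))))))))

def t1_13 : T TT 256 :=
  (.f k255 k170 14 (.q k5 [(.s k165 k245 11 (.s k15 k10 2 (.s k90 k240 14 (.d k95 k80 k175 2 11))))]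
  (.c k10 (.q k133 [(.s k69 k197 7 (.s k101 k117 3 (.s k207 k138 10 (.s k154 k48 14 (.d k223 k239
  k16 3 10))))), (.s k165 k245 11 (.s k149 k181 3 (.s k213 k21 7 (.s k192 k234 6 (.s k64 k128 7 (.d
  k106 k127 k63 6 14))))))] (.c k90 (.q k250 [(.d k245 k240 k165 2 11), (.s k69 k197 7 (.s k101 k117
  3 (.s k207 k138 10 (.s k154 k48 14 (.d k223 k239 k16 3 10)))))] .n) (.c k117 (.l (.s k165 k245 11
  (.s k197 k69 7 (.s k149 k181 3 (.s k53 k101 11 (.d k21 k37 k213 3 7)))))) (.c k250 (.q k90 [(.s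
  k80 k95 2 (.s k165 k245 11 (.d k240 k160 k15 11 14))), (.s k69 k197 7 (.s k101 k117 3 (.s k207
  k138 10 (.s k154 k48 14 (.d k223 k239 k16 3 10)))))] .n) .n)))) (.c k15 (.q k12 [(.s k4 k8 1 (.s
  k93 k174 12 (.s k166 k247 12 (.d k89 k81 k243 1 14)))), (.s k4 k8 1 (.s k245 k165 11 (.s k240 k250
  2 (.s k160 k80 11 (.s k164 k88 13 (.s k84 k244 11 (.d k168 k172 k252 1 13))))))), (.s k93 k174 12
  (.s k89 k81 1 (.s k245 k165 11 (.s k240 k250 2 (.s k88 k164 13 (.s k90 k91 0 (.d k80 k160 k95 11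
  2)))))))] (.c k89 (.f k8 k4 1 (.f k165 k245 11 (.q k16 [(.s k154 k223 10 (.s k48 k32 3 (.s k101
  k207 14 (.d k117 k69 k186 3 10)))), (.s k48 k32 3 (.s k24 k36 5 (.s k20 k28 1 (.d k40 k56 k60 3
  5)))), (.s k93 k174 12 (.s k223 k154 10 (.s k28 k158 8 (.s k60 k44 3 (.d k20 k24 k40 1 5)))))] (.c
  k239 (.l (.s k154 k223 10 (.s k48 k32 3 (.s k101 k207 14 (.d k117 k69 k186 3 10))))) .n)))) .n))
  (.c k80 (.q k3 [(.s k15 k10 2 (.s k87 k171 13 (.s k86 k84 0 (.s k165 k245 11 (.d k7 k11 k244 1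
  12))))), (.s k15 k10 2 (.s k7 k11 1 (.s k4 k6 0 (.s k247 k166 12 (.s k167 k87 11 (.d k243 k251 k91
  1 13)))))), (.s k87 k171 13 (.s k86 k84 0 (.s k165 k245 11 (.s k7 k244 12 (.s k4 k6 0 (.d k247
  k167 k166 11 12))))))] (.c k7 (.l (.s k15 k10 2 (.s k87 k171 13 (.s k86 k84 0 (.s k165 k245 11 (.s
  k90 k240 14 (.s k94 k82 1 (.d k252 k169 k173 14 12)))))))) (.c k86 (.l (.s k15 k10 2 (.s k7 k11 1
  (.s k4 k6 0 (.s k87 k171 13 (.d k247 k166 k167 12 11)))))) (.c k87 (.l (.s k15 k10 2 (.s k7 k11 1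
  (.s k4 k6 0 (.s k165 k245 11 (.s k166 k247 12 (.s k164 k167 0 (.d k244 k84 k86 11 12))))))))
  .n)))) (.c k90 (.q k133 [(.s k69 k197 7 (.s k101 k117 3 (.s k207 k138 10 (.s k154 k48 14 (.d k223
  k239 k16 3 10))))), (.s k165 k245 11 (.s k149 k181 3 (.s k213 k21 7 (.s k192 k234 6 (.d k15 k10
  k74 2 10)))))] (.c k10 (.q k250 [(.d k245 k240 k165 2 11), (.s k69 k197 7 (.s k101 k117 3 (.s k207
  k138 10 (.s k154 k48 14 (.d k223 k239 k16 3 10)))))] .n) (.c k117 (.l (.s k69 k197 7 (.s k138 k207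
  10 (.s k128 k143 2 (.s k192 k64 7 (.d k15 k10 k74 2 10)))))) (.c k250 (.l (.s k10 k15 2 (.s k69
  k197 7 (.s k101 k117 3 (.s k207 k138 10 (.s k154 k48 14 (.d k223 k239 k16 3 10))))))) .n)))) (.c
  k95 (.q k3 [(.s k15 k10 2 (.s k87 k171 13 (.s k86 k84 0 (.s k165 k245 11 (.d k7 k11 k244 1
  12))))), (.s k15 k10 2 (.s k7 k11 1 (.s k4 k6 0 (.s k247 k166 12 (.s k167 k87 11 (.d k243 k91 k251
  13 1)))))), (.s k87 k171 13 (.s k86 k84 0 (.s k165 k245 11 (.s k7 k244 12 (.s k4 k6 0 (.d k247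
  k167 k166 11 12))))))] (.c k7 (.l (.s k15 k10 2 (.s k87 k171 13 (.s k86 k84 0 (.s k165 k245 11 (.s
  k90 k240 14 (.s k94 k82 1 (.d k252 k169 k173 14 12)))))))) (.c k86 (.l (.s k15 k10 2 (.s k7 k11 1
  (.s k4 k6 0 (.s k87 k171 13 (.d k247 k166 k167 12 11)))))) (.c k87 (.l (.s k15 k10 2 (.s k7 k11 1
  (.s k4 k6 0 (.s k165 k245 11 (.s k166 k247 12 (.s k164 k167 0 (.d k244 k84 k86 11 12))))))))
  .n)))) (.c k165 (.q k213 [(.s k192 k234 6 (.s k64 k128 7 (.s k106 k127 6 (.d k149 k21 k63 7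
  14)))), (.s k15 k10 2 (.s k192 k234 6 (.s k128 k64 7 (.s k133 k74 10 (.s k69 k197 7 (.d k138 k143
  k207 2 10)))))), (.s k15 k10 2 (.s k21 k149 7 (.s k37 k53 3 (.s k26 k48 6 (.s k31 k16 2 (.d k63
  k47 k42 3 6))))))] (.c k42 (.l (.s k149 k21 7 (.s k192 k234 6 (.s k106 k63 14 (.d k64 k127 k128 6
  7))))) (.c k89 (.q k241 [(.s k192 k234 6 (.s k64 k128 7 (.s k106 k127 6 (.d k149 k21 k63 7 14)))),
  (.s k15 k10 2 (.s k192 k234 6 (.s k128 k64 7 (.s k133 k74 10 (.s k69 k197 7 (.d k138 k143 k207 2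
  10)))))), (.s k15 k10 2 (.s k21 k149 7 (.s k37 k53 3 (.s k26 k48 6 (.s k31 k16 2 (.d k63 k47 k42 3
  6))))))] (.c k8 (.q k251 [(.s k192 k234 6 (.s k64 k128 7 (.s k106 k127 6 (.d k149 k21 k63 7
  14)))), (.s k234 k192 6 (.s k217 k200 4 (.s k243 k247 1 (.s k204 k230 6 (.d k221 k209 k238 1
  4))))), (.s k15 k10 2 (.s k21 k149 7 (.s k37 k53 3 (.s k26 k48 6 (.s k31 k16 2 (.d k63 k47 k42 3
  6))))))] (.c k160 (.q k175 [(.d k15 k10 k95 2 11), (.s k149 k21 7 (.s k192 k234 6 (.s k64 k128 7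
  (.d k106 k127 k63 6 14))))] .n) (.c k175 (.q k160 [(.s k240 k80 11 (.d k243 k242 k247 0 1)), (.s
  k149 k21 7 (.s k192 k234 6 (.s k64 k128 7 (.d k106 k127 k63 6 14))))] .n) .n))) (.c k42 (.l (.s
  k149 k21 7 (.s k192 k234 6 (.s k106 k63 14 (.d k64 k127 k128 6 7))))) (.c k128 (.l (.s k15 k10 2
  (.s k149 k21 7 (.s k192 k234 6 (.s k74 k133 10 (.s k106 k63 14 (.s k90 k122 3 (.d k95 k80 k175 2
  11)))))))) (.c k160 (.q k175 [(.d k15 k10 k95 2 11), (.s k149 k21 7 (.s k192 k234 6 (.s k64 k128 7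
  (.d k106 k127 k63 6 14))))] (.c k8 (.q k251 [(.d k15 k10 k95 2 11), (.s k149 k21 7 (.s k192 k234 6
  (.s k64 k128 7 (.d k106 k127 k63 6 14))))] .n) (.c k251 (.q k8 [(.d k15 k10 k95 2 11), (.s k149
  k21 7 (.s k192 k234 6 (.s k64 k128 7 (.d k106 k127 k63 6 14))))] .n) .n))) (.c k175 (.q k160 [(.s
  k192 k234 6 (.s k64 k128 7 (.s k106 k127 6 (.d k149 k21 k63 7 14)))), (.s k15 k10 2 (.s k192 k234
  6 (.s k133 k74 10 (.s k197 k69 7 (.s k240 k80 11 (.d k245 k250 k229 2 3)))))), (.s k15 k10 2 (.s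
  k21 k149 7 (.s k37 k53 3 (.s k26 k48 6 (.s k31 k16 2 (.d k63 k47 k42 3 6))))))] (.c k8 (.q k251
  [(.s k240 k80 11 (.d k243 k242 k247 0 1)), (.s k149 k21 7 (.s k192 k234 6 (.s k64 k128 7 (.d k106
  k127 k63 6 14))))] .n) (.c k42 (.l (.s k149 k21 7 (.s k192 k234 6 (.s k106 k63 14 (.d k64 k127
  k128 6 7))))) (.c k251 (.q k8 [(.s k192 k234 6 (.s k64 k128 7 (.s k106 k127 6 (.d k149 k21 k63 7
  14)))), (.s k15 k10 2 (.s k21 k149 7 (.s k37 k53 3 (.s k26 k48 6 (.s k31 k16 2 (.d k63 k47 k42 3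
  6)))))), (.s k15 k10 2 (.s k192 k234 6 (.s k133 k74 10 (.s k197 k69 7 (.s k240 k80 11 (.d k245
  k250 k229 2 3))))))] (.c k42 (.l (.s k149 k21 7 (.s k192 k234 6 (.s k106 k63 14 (.d k64 k127 k128
  6 7))))) .n)) .n)))) (.c k251 (.q k8 [(.s k192 k234 6 (.s k64 k128 7 (.s k106 k127 6 (.d k149 k21
  k63 7 14)))), (.s k15 k10 2 (.s k21 k149 7 (.s k37 k53 3 (.s k26 k48 6 (.s k31 k16 2 (.d k63 k47
  k42 3 6)))))), (.s k4 k12 1 (.s k7 k6 0 (.s k15 k10 2 (.s k192 k234 6 (.s k133 k74 10 (.s k196 k70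
  8 (.d k247 k166 k230 12 4)))))))] (.c k42 (.l (.s k149 k21 7 (.s k192 k234 6 (.s k106 k63 14 (.d
  k64 k127 k128 6 7))))) (.c k160 (.q k175 [(.d k15 k10 k95 2 11), (.s k149 k21 7 (.s k192 k234 6
  (.s k64 k128 7 (.d k106 k127 k63 6 14))))] .n) (.c k175 (.q k160 [(.s k192 k234 6 (.s k64 k128 7
  (.s k106 k127 6 (.d k149 k21 k63 7 14)))), (.s k15 k10 2 (.s k21 k149 7 (.s k37 k53 3 (.s k26 k48
  6 (.s k31 k16 2 (.d k63 k47 k42 3 6)))))), (.s k15 k10 2 (.s k192 k234 6 (.s k133 k74 10 (.s k197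
  k69 7 (.s k240 k80 11 (.d k245 k250 k229 2 3))))))] (.c k42 (.l (.s k149 k21 7 (.s k192 k234 6 (.s
  k106 k63 14 (.d k64 k127 k128 6 7))))) .n)) .n)))) .n))))))) (.c k128 (.l (.s k15 k10 2 (.s k149
  k21 7 (.s k192 k234 6 (.s k74 k133 10 (.s k106 k63 14 (.s k90 k122 3 (.d k95 k80 k175 2 11))))))))
  (.c k160 (.q k175 [(.d k15 k10 k95 2 11), (.s k149 k21 7 (.s k192 k234 6 (.s k64 k128 7 (.d k106
  k127 k63 6 14))))] (.c k89 (.q k241 [(.d k15 k10 k95 2 11), (.s k149 k21 7 (.s k192 k234 6 (.s k64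
  k128 7 (.d k106 k127 k63 6 14))))] (.c k8 (.q k251 [(.d k15 k10 k95 2 11), (.s k149 k21 7 (.s k192
  k234 6 (.s k64 k128 7 (.d k106 k127 k63 6 14))))] .n) (.c k251 (.q k8 [(.d k15 k10 k95 2 11), (.s
  k149 k21 7 (.s k192 k234 6 (.s k64 k128 7 (.d k106 k127 k63 6 14))))] .n) .n))) (.c k241 (.q k89
  [(.d k15 k10 k95 2 11), (.s k81 k93 1 (.s k243 k162 12 (.s k247 k251 1 (.d k166 k4 k12 12 14))))]
  (.c k81 (.q k161 [(.d k15 k10 k95 2 11), (.s k149 k21 7 (.s k192 k234 6 (.s k64 k128 7 (.d k106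
  k127 k63 6 14))))] .n) (.c k161 (.l (.s k81 k93 1 (.d k15 k10 k95 2 11))) .n))) .n))) (.c k175 (.q
  k160 [(.s k192 k234 6 (.s k64 k128 7 (.s k106 k127 6 (.d k149 k21 k63 7 14)))), (.s k15 k10 2 (.s
  k192 k234 6 (.s k133 k74 10 (.s k197 k69 7 (.s k240 k80 11 (.d k245 k250 k229 2 3)))))), (.s k15
  k10 2 (.s k21 k149 7 (.s k37 k53 3 (.s k26 k48 6 (.s k31 k16 2 (.d k63 k47 k42 3 6))))))] (.c k42
  (.l (.s k149 k21 7 (.s k192 k234 6 (.s k106 k63 14 (.d k64 k127 k128 6 7))))) (.c k89 (.q k241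
  [(.s k192 k234 6 (.s k64 k128 7 (.s k106 k127 6 (.d k149 k21 k63 7 14)))), (.s k15 k10 2 (.s k192
  k234 6 (.s k133 k74 10 (.s k197 k69 7 (.s k240 k80 11 (.d k245 k250 k229 2 3)))))), (.s k15 k10 2
  (.s k21 k149 7 (.s k37 k53 3 (.s k26 k48 6 (.s k31 k16 2 (.d k63 k47 k42 3 6))))))] (.c k8 (.q
  k251 [(.s k240 k80 11 (.d k243 k242 k247 0 1)), (.s k149 k21 7 (.s k192 k234 6 (.s k64 k128 7 (.d
  k106 k127 k63 6 14))))] .n) (.c k42 (.l (.s k149 k21 7 (.s k192 k234 6 (.s k106 k63 14 (.d k64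
  k127 k128 6 7))))) (.c k251 (.q k8 [(.s k192 k234 6 (.s k64 k128 7 (.s k106 k127 6 (.d k149 k21
  k63 7 14)))), (.s k15 k10 2 (.s k21 k149 7 (.s k37 k53 3 (.s k26 k48 6 (.s k31 k16 2 (.d k63 k47
  k42 3 6)))))), (.s k15 k10 2 (.s k192 k234 6 (.s k133 k74 10 (.s k197 k69 7 (.s k240 k80 11 (.d
  k245 k250 k229 2 3))))))] (.c k42 (.l (.s k149 k21 7 (.s k192 k234 6 (.s k106 k63 14 (.d k64 k127
  k128 6 7))))) .n)) .n)))) (.c k241 (.q k89 [(.s k81 k93 1 (.s k243 k162 12 (.s k247 k251 1 (.d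
  k166 k4 k12 12 14)))), (.s k149 k21 7 (.s k192 k234 6 (.s k64 k128 7 (.d k106 k127 k63 6 14))))]
  (.c k81 (.q k161 [(.s k192 k234 6 (.s k64 k128 7 (.s k106 k127 6 (.d k149 k21 k63 7 14)))), (.s
  k15 k10 2 (.s k192 k234 6 (.s k133 k74 10 (.s k197 k69 7 (.s k240 k80 11 (.d k245 k250 k229 2
  3)))))), (.s k15 k10 2 (.s k21 k149 7 (.s k37 k53 3 (.s k26 k48 6 (.s k31 k16 2 (.d k63 k47 k42 3
  6))))))] (.c k42 (.l (.s k149 k21 7 (.s k192 k234 6 (.s k106 k63 14 (.d k64 k127 k128 6 7)))))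
  .n)) (.c k161 (.l (.s k81 k93 1 (.s k243 k162 12 (.s k166 k12 14 (.d k247 k251 k4 1 12))))) .n)))
  .n)))) (.c k241 (.q k89 [(.s k81 k93 1 (.s k243 k162 12 (.s k247 k251 1 (.d k166 k4 k12 12 14)))),
  (.s k149 k21 7 (.s k192 k234 6 (.s k64 k128 7 (.d k106 k127 k63 6 14))))] (.c k81 (.q k161 [(.s
  k192 k234 6 (.s k64 k128 7 (.s k106 k127 6 (.d k149 k21 k63 7 14)))), (.s k15 k10 2 (.s k192 k234
  6 (.s k128 k64 7 (.s k133 k74 10 (.s k69 k197 7 (.d k138 k143 k207 2 10)))))), (.s k15 k10 2 (.s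
  k21 k149 7 (.s k37 k53 3 (.s k26 k48 6 (.s k31 k16 2 (.d k63 k47 k42 3 6))))))] (.c k42 (.l (.s
  k149 k21 7 (.s k192 k234 6 (.s k106 k63 14 (.d k64 k127 k128 6 7))))) (.c k128 (.l (.s k149 k21 7
  (.s k192 k234 6 (.s k209 k29 9 (.s k243 k226 4 (.s k166 k12 14 (.d k247 k251 k4 1 12))))))) (.c
  k160 (.q k175 [(.d k15 k10 k95 2 11), (.s k149 k21 7 (.s k192 k234 6 (.s k64 k128 7 (.d k106 k127
  k63 6 14))))] .n) (.c k175 (.q k160 [(.s k192 k234 6 (.s k64 k128 7 (.s k106 k127 6 (.d k149 k21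
  k63 7 14)))), (.s k15 k10 2 (.s k192 k234 6 (.s k133 k74 10 (.s k197 k69 7 (.s k240 k80 11 (.d
  k245 k250 k229 2 3)))))), (.s k15 k10 2 (.s k21 k149 7 (.s k37 k53 3 (.s k26 k48 6 (.s k31 k16 2
  (.d k63 k47 k42 3 6))))))] (.c k42 (.l (.s k149 k21 7 (.s k192 k234 6 (.s k106 k63 14 (.d k64 k127
  k128 6 7))))) .n)) .n))))) (.c k160 (.q k175 [(.d k15 k10 k95 2 11), (.s k81 k93 1 (.s k243 k162
  12 (.s k247 k251 1 (.d k166 k4 k12 12 14))))] (.c k81 (.q k161 [(.d k15 k10 k95 2 11), (.s k149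
  k21 7 (.s k192 k234 6 (.s k64 k128 7 (.d k106 k127 k63 6 14))))] .n) (.c k161 (.l (.s k81 k93 1
  (.d k15 k10 k95 2 11))) .n))) (.c k161 (.l (.s k81 k93 1 (.s k243 k162 12 (.s k166 k12 14 (.d k247
  k251 k4 1 12))))) (.c k175 (.q k160 [(.s k81 k93 1 (.s k243 k162 12 (.s k247 k251 1 (.d k166 k4
  k12 12 14)))), (.s k149 k21 7 (.s k192 k234 6 (.s k64 k128 7 (.d k106 k127 k63 6 14))))] (.c k81
  (.q k161 [(.s k192 k234 6 (.s k64 k128 7 (.s k106 k127 6 (.d k149 k21 k63 7 14)))), (.s k15 k10 2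
  (.s k192 k234 6 (.s k133 k74 10 (.s k197 k69 7 (.s k240 k80 11 (.d k245 k250 k229 2 3)))))), (.s
  k15 k10 2 (.s k21 k149 7 (.s k37 k53 3 (.s k26 k48 6 (.s k31 k16 2 (.d k63 k47 k42 3 6))))))] (.c
  k42 (.l (.s k149 k21 7 (.s k192 k234 6 (.s k106 k63 14 (.d k64 k127 k128 6 7))))) .n)) (.c k161
  (.l (.s k81 k93 1 (.s k243 k162 12 (.s k166 k12 14 (.d k247 k251 k4 1 12))))) .n))) .n)))))
  .n))))))) (.c k175 (.f k165 k245 11 (.q k3 [(.s k15 k10 2 (.s k7 k11 1 (.s k86 k244 12 (.d k87 k84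
  k171 0 13)))), (.s k15 k10 2 (.s k87 k171 13 (.s k86 k84 0 (.s k90 k240 14 (.s k94 k82 1 (.d k252
  k169 k173 14 12)))))), (.s k87 k171 13 (.s k86 k84 0 (.s k7 k244 12 (.s k4 k6 0 (.d k247 k167 k166
  11 12))))), (.s k15 k10 2 (.s k7 k11 1 (.s k4 k6 0 (.s k87 k171 13 (.d k247 k167 k166 11 12)))))]
  (.c k87 (.l (.s k15 k10 2 (.s k7 k11 1 (.s k4 k6 0 (.s k166 k247 12 (.s k164 k167 0 (.d k244 k84
  k86 11 12))))))) (.c k171 (.l (.s k15 k10 2 (.s k7 k11 1 (.s k86 k244 12 (.s k84 k87 0 (.d k252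
  k168 k169 13 14)))))) .n)))) (.c k240 (.q k3 [(.s k15 k10 2 (.s k87 k171 13 (.s k86 k84 0 (.s k165
  k245 11 (.d k7 k11 k244 1 12))))), (.s k15 k10 2 (.s k7 k11 1 (.s k4 k6 0 (.s k247 k166 12 (.s
  k167 k87 11 (.d k243 k251 k91 1 13)))))), (.s k87 k171 13 (.s k86 k84 0 (.s k165 k245 11 (.s k7
  k244 12 (.s k4 k6 0 (.d k247 k167 k166 11 12))))))] (.c k7 (.l (.s k15 k10 2 (.s k87 k171 13 (.s
  k86 k84 0 (.s k95 k175 11 (.s k90 k80 2 (.s k94 k82 1 (.d k252 k169 k173 14 12)))))))) (.c k86 (.l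
  (.s k15 k10 2 (.s k7 k11 1 (.s k4 k6 0 (.s k87 k171 13 (.d k247 k166 k167 12 11)))))) (.c k87 (.l
  (.s k15 k10 2 (.s k7 k11 1 (.s k4 k6 0 (.s k165 k245 11 (.s k166 k247 12 (.s k164 k167 0 (.d k244
  k84 k86 11 12)))))))) .n)))) (.c k245 (.q k7 [(.s k4 k6 0 (.s k12 k8 1 (.s k93 k174 12 (.s k89 k81
  1 (.d k166 k247 k243 12 14))))), (.s k15 k10 2 (.s k3 k11 1 (.s k87 k171 13 (.s k86 k84 0 (.s k95
  k175 11 (.s k90 k80 2 (.d k165 k244 k240 12 14))))))), (.s k4 k6 0 (.s k15 k10 2 (.s k247 k166 12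
  (.s k87 k167 11 (.d k3 k11 k171 1 13)))))] .n) (.c k250 (.l (.s k165 k245 11 (.s k15 k10 2 (.s k90
  k240 14 (.d k95 k80 k175 2 11))))) .n))))))))))))

def t1_14 : T TT 256 :=
  (.f k255 k170 14 (.q k102 [(.s k68 k119 4 (.s k204 k136 9 (.s k153 k51 14 (.d k221 k238 k17 4
  9))))] (.c k17 (.f k119 k68 4 (.f k51 k187 9 (.f k153 k204 14 (.q k49 [(.s k48 k50 0 (.s k101 k205
  13 (.d k117 k69 k186 3 10))), (.s k48 k50 0 (.s k117 k186 10 (.s k118 k116 0 (.d k185 k253 k252 9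
  10)))), (.s k101 k205 13 (.s k69 k117 3 (.s k103 k100 0 (.d k207 k138 k155 10 13))))] (.c k48 (.l
  (.s k101 k205 13 (.s k69 k117 3 (.s k207 k138 10 (.d k103 k100 k155 0 13))))) (.c k117 (.l (.s k48
  k50 0 (.s k16 k32 3 (.s k101 k205 13 (.d k154 k207 k223 14 10))))) .n)))))) (.c k51 (.q k4 [(.s
  k12 k8 1 (.s k166 k247 12 (.s k89 k243 14 (.d k93 k81 k174 1 12)))), (.s k68 k119 4 (.s k166 k247
  12 (.s k38 k230 7 (.s k55 k21 4 (.d k196 k132 k149 7 12))))), (.s k12 k8 1 (.s k68 k119 4 (.s k132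
  k196 7 (.s k72 k192 9 (.s k76 k64 1 (.d k204 k140 k136 7 9))))))] .n) (.c k68 (.q k213 [(.s k192
  k234 6 (.s k64 k128 7 (.s k106 k127 6 (.d k149 k21 k63 7 14)))), (.s k149 k21 7 (.s k196 k55 12
  (.s k247 k230 4 (.s k243 k251 1 (.s k81 k162 12 (.s k89 k93 1 (.d k166 k4 k12 12 14)))))))] (.c
  k21 (.l (.s k192 k234 6 (.s k64 k128 7 (.s k106 k127 6 (.s k98 k110 1 (.s k51 k145 12 (.s k17 k34
  4 (.d k153 k221 k204 9 14)))))))) (.c k149 (.f k192 k234 6 (.q k106 [(.d k64 k128 k127 7 6), (.s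
  k98 k110 1 (.s k51 k145 12 (.s k17 k34 4 (.d k153 k221 k204 9 14))))] (.c k128 (.q k191 [(.d k127
  k64 k63 6 7), (.s k98 k110 1 (.s k51 k145 12 (.s k17 k34 4 (.d k153 k221 k204 9 14))))] .n) (.c
  k191 (.l (.s k128 k64 7 (.s k98 k110 1 (.s k51 k145 12 (.s k17 k34 4 (.d k153 k221 k204 9 14))))))
  .n)))) .n))) (.c k119 (.q k81 [(.s k89 k93 1 (.s k243 k162 12 (.s k247 k251 1 (.d k166 k4 k12 12
  14)))), (.s k89 k93 1 (.s k115 k76 6 (.s k64 k98 4 (.s k192 k128 7 (.s k213 k234 6 (.s k149 k21 7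
  (.d k106 k127 k63 6 14)))))))] (.c k89 (.f k243 k162 12 (.q k166 [(.d k247 k251 k4 1 12), (.s k230
  k38 7 (.s k204 k217 6 (.s k153 k51 14 (.d k221 k238 k17 4 9))))] (.c k8 (.l (.s k251 k247 1 (.s
  k230 k38 7 (.s k204 k217 6 (.s k153 k51 14 (.d k221 k238 k17 4 9)))))) (.c k251 (.q k8 [(.d k4 k12
  k247 1 12), (.s k230 k38 7 (.s k204 k217 6 (.s k221 k238 4 (.d k153 k17 k51 9 14))))] .n) .n))))
  (.c k93 (.l (.s k243 k162 12 (.s k247 k251 1 (.s k166 k4 12 (.s k230 k38 7 (.s k204 k217 6 (.s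
  k153 k51 14 (.d k221 k238 k17 4 9)))))))) .n))) (.c k136 (.l (.s k119 k68 4 (.s k51 k187 9 (.s
  k153 k204 14 (.d k17 k34 k221 4 9))))) (.c k153 (.f k68 k119 4 (.q k4 [(.s k12 k8 1 (.s k166 k247
  12 (.s k89 k243 14 (.d k93 k81 k174 1 12)))), (.s k166 k247 12 (.s k38 k230 7 (.s k55 k21 4 (.d
  k196 k132 k149 7 12)))), (.s k12 k8 1 (.s k132 k196 7 (.s k72 k192 9 (.s k76 k64 1 (.d k204 k136
  k140 9 7)))))] (.c k136 (.q k187 [(.s k166 k247 12 (.s k38 k230 7 (.s k55 k21 4 (.d k196 k132 k149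
  7 12)))), (.s k12 k8 1 (.s k93 k174 12 (.s k89 k81 1 (.s k76 k115 6 (.s k127 k110 4 (.d k64 k72
  k106 1 6))))))] (.c k166 (.l (.s k12 k8 1 (.s k132 k196 7 (.s k72 k192 9 (.s k76 k64 1 (.s k89
  k115 6 (.d k93 k81 k174 1 12))))))) .n)) (.c k187 (.l (.s k136 k204 9 (.s k12 k8 1 (.s k93 k174 12
  (.s k89 k81 1 (.d k166 k247 k243 12 14)))))) .n)))) (.c k187 (.l (.s k68 k119 4 (.s k204 k136 9
  (.s k153 k51 14 (.d k221 k238 k17 4 9))))) (.c k204 (.q k4 [(.s k12 k8 1 (.s k166 k247 12 (.s k89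
  k243 14 (.d k93 k81 k174 1 12)))), (.s k12 k8 1 (.s k119 k68 4 (.s k51 k187 9 (.s k34 k17 4 (.s
  k38 k25 6 (.s k21 k55 4 (.d k42 k46 k63 1 6))))))), (.s k68 k119 4 (.s k166 k247 12 (.s k38 k230 7
  (.s k55 k21 4 (.d k196 k132 k149 7 12)))))] .n) (.c k221 (.q k3 [(.s k68 k119 4 (.s k87 k171 13
  (.s k86 k84 0 (.s k70 k118 3 (.d k204 k136 k137 9 10))))), (.s k87 k171 13 (.s k119 k68 4 (.s k51
  k187 9 (.s k19 k35 3 (.s k103 k71 3 (.d k155 k223 k207 9 13)))))), (.s k87 k171 13 (.s k86 k84 0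
  (.s k70 k118 3 (.s k169 k252 14 (.s k35 k236 10 (.s k51 k19 3 (.d k204 k137 k153 10 14))))))), (.s
  k68 k119 4 (.s k204 k136 9 (.s k70 k137 10 (.s k86 k118 3 (.s k153 k51 14 (.s k220 k19 10 (.d k252
  k236 k169 3 14)))))))] (.c k70 (.l (.s k87 k171 13 (.s k86 k84 0 (.s k119 k68 4 (.s k51 k187 9 (.s
  k19 k35 3 (.d k153 k220 k204 10 14))))))) (.c k169 (.l (.s k68 k119 4 (.s k204 k136 9 (.s k70 k137
  10 (.s k86 k118 3 (.d k87 k84 k171 0 13)))))) .n))) (.c k238 (.l (.s k119 k68 4 (.s k51 k187 9 (.s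
  k17 k34 4 (.d k153 k221 k204 9 14))))) .n))))))))))))

def t1_15 : T TT 256 :=
  (.f k255 k170 14 (.q k102 [(.s k68 k119 4 (.s k204 k136 9 (.s k221 k238 4 (.d k153 k17 k51 9
  14))))] (.c k17 (.f k68 k119 4 (.q k110 [(.s k106 k98 1 (.s k204 k136 9 (.s k63 k157 12 (.d k127
  k64 k191 6 7)))), (.s k106 k98 1 (.s k64 k127 6 (.s k192 k128 7 (.s k149 k63 14 (.d k213 k234 k21
  6 7))))), (.s k106 k98 1 (.s k204 k136 9 (.s k63 k157 12 (.s k21 k42 6 (.d k149 k213 k192 7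
  14))))), (.s k204 k136 9 (.s k63 k157 12 (.s k127 k191 7 (.s k93 k76 4 (.s k174 k12 12 (.d k238
  k221 k46 4 7))))))] (.c k33 (.q k49 [(.s k106 k98 1 (.s k204 k136 9 (.s k63 k157 12 (.d k127 k64
  k191 6 7)))), (.s k106 k98 1 (.s k64 k127 6 (.s k192 k128 7 (.s k149 k63 14 (.d k213 k234 k21 6
  7))))), (.s k106 k98 1 (.s k204 k136 9 (.s k63 k157 12 (.s k21 k42 6 (.d k149 k213 k192 7 14))))),
  (.s k204 k136 9 (.s k63 k157 12 (.s k127 k191 7 (.s k93 k76 4 (.s k174 k12 12 (.d k238 k221 k46 4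
  7))))))] (.c k63 (.l (.s k106 k98 1 (.s k64 k127 6 (.s k192 k128 7 (.s k204 k136 9 (.s k153 k51 14
  (.d k200 k59 k196 12 1))))))) .n)) (.c k49 (.q k33 [(.s k106 k98 1 (.s k204 k136 9 (.s k63 k157 12
  (.d k127 k64 k191 6 7)))), (.s k106 k98 1 (.s k64 k127 6 (.s k192 k128 7 (.s k149 k63 14 (.d k213
  k234 k21 6 7))))), (.s k106 k98 1 (.s k204 k136 9 (.s k63 k157 12 (.s k21 k42 6 (.d k149 k213 k192
  7 14))))), (.s k204 k136 9 (.s k63 k157 12 (.s k127 k191 7 (.s k93 k76 4 (.s k174 k12 12 (.d k238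
  k221 k46 4 7))))))] (.c k63 (.l (.s k106 k98 1 (.s k64 k127 6 (.s k192 k128 7 (.s k204 k136 9 (.s
  k153 k51 14 (.d k200 k59 k196 12 1))))))) .n)) (.c k63 (.l (.s k106 k98 1 (.s k64 k127 6 (.s k192
  k128 7 (.s k204 k136 9 (.s k153 k51 14 (.d k200 k59 k196 12 1))))))) .n))))) (.c k51 (.f k119 k68
  4 (.q k247 [(.s k55 k183 7 (.s k149 k196 12 (.s k21 k213 7 (.d k4 k38 k166 4 12)))), (.s k243 k251
  1 (.s k81 k162 12 (.s k89 k93 1 (.d k166 k4 k12 12 14))))] (.c k4 (.l (.s k183 k55 7 (.s k243 k251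
  1 (.s k81 k162 12 (.s k89 k93 1 (.s k115 k76 6 (.d k123 k127 k63 1 9))))))) (.c k27 (.q k39 [(.s
  k55 k183 7 (.s k149 k196 12 (.s k21 k213 7 (.d k4 k38 k166 4 12)))), (.s k55 k183 7 (.s k7 k23 3
  (.s k87 k167 11 (.s k86 k84 0 (.d k165 k228 k244 8 12))))), (.s k166 k4 12 (.s k243 k251 1 (.s k81
  k162 12 (.d k89 k93 k12 1 14))))] .n) (.c k39 (.q k27 [(.s k55 k183 7 (.s k149 k196 12 (.s k21
  k213 7 (.d k4 k38 k166 4 12)))), (.s k243 k251 1 (.s k81 k162 12 (.s k89 k93 1 (.d k166 k4 k12 12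
  14))))] (.c k4 (.l (.s k183 k55 7 (.s k243 k251 1 (.s k81 k162 12 (.s k89 k93 1 (.s k115 k76 6 (.d
  k123 k127 k63 1 9))))))) (.c k166 (.l (.s k55 k183 7 (.s k149 k196 12 (.s k21 k213 7 (.s k63 k42 6
  (.s k106 k192 14 (.d k127 k64 k191 6 7))))))) .n))) (.c k166 (.l (.s k55 k183 7 (.s k149 k196 12
  (.s k21 k213 7 (.s k63 k42 6 (.s k106 k192 14 (.d k127 k64 k191 6 7))))))) .n)))))) (.c k68 (.q k4
  [(.s k12 k8 1 (.s k93 k174 12 (.s k166 k247 12 (.d k89 k81 k243 1 14)))), (.s k166 k247 12 (.s k38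
  k230 7 (.s k21 k55 4 (.s k63 k42 6 (.s k127 k191 7 (.s k106 k64 6 (.d k149 k213 k192 7 14)))))))]
  (.c k166 (.f k12 k8 1 (.q k89 [(.d k93 k174 k81 12 1), (.s k76 k115 6 (.s k204 k140 7 (.s k153 k51
  14 (.d k221 k238 k17 4 9))))] (.c k162 (.l (.s k174 k93 12 (.s k76 k115 6 (.s k204 k140 7 (.s k153
  k51 14 (.d k221 k238 k17 4 9)))))) (.c k174 (.q k162 [(.d k81 k93 k243 1 12), (.s k76 k115 6 (.s
  k204 k140 7 (.s k221 k238 4 (.d k153 k17 k51 9 14))))] .n) .n)))) (.c k247 (.l (.s k12 k8 1 (.s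
  k93 k174 12 (.s k89 k81 1 (.s k76 k115 6 (.s k204 k140 7 (.s k153 k51 14 (.d k221 k238 k17 4
  9)))))))) .n))) (.c k119 (.q k213 [(.s k149 k21 7 (.s k192 k234 6 (.s k64 k128 7 (.d k106 k127 k63
  6 14)))), (.s k149 k21 7 (.s k196 k55 12 (.s k247 k230 4 (.s k243 k251 1 (.s k81 k162 12 (.s k89
  k93 1 (.d k166 k4 k12 12 14))))))), (.s k192 k234 6 (.s k64 k128 7 (.s k106 k127 6 (.s k98 k110 1
  (.s k51 k145 12 (.s k17 k34 4 (.d k153 k221 k204 9 14)))))))] (.c k149 (.f k192 k234 6 (.q k106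
  [(.d k64 k128 k127 7 6), (.s k98 k110 1 (.s k51 k145 12 (.s k17 k34 4 (.d k153 k221 k204 9 14))))]
  (.c k128 (.q k191 [(.d k127 k64 k63 6 7), (.s k98 k110 1 (.s k51 k145 12 (.s k17 k34 4 (.d k153
  k221 k204 9 14))))] .n) (.c k191 (.l (.s k128 k64 7 (.s k98 k110 1 (.s k51 k145 12 (.s k17 k34 4
  (.d k153 k221 k204 9 14)))))) .n)))) .n)) (.c k136 (.l (.s k119 k68 4 (.s k51 k187 9 (.s k153 k204
  14 (.d k17 k34 k221 4 9))))) (.c k153 (.f k119 k68 4 (.q k101 [(.s k69 k117 3 (.s k103 k100 0 (.s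
  k207 k138 10 (.d k51 k187 k155 9 13)))), (.s k69 k117 3 (.s k207 k138 10 (.s k154 k48 14 (.d k223
  k239 k16 3 10)))), (.s k103 k100 0 (.s k87 k71 3 (.s k171 k3 13 (.s k239 k35 9 (.s k207 k223 3 (.d
  k51 k187 k155 9 13))))))] (.c k69 (.l (.s k103 k100 0 (.s k71 k87 3 (.s k116 k86 4 (.s k117 k118 0
  (.s k48 k186 10 (.s k16 k32 3 (.d k154 k223 k207 10 14)))))))) (.c k136 (.l (.s k187 k51 9 (.s k69
  k117 3 (.s k207 k138 10 (.s k154 k48 14 (.d k223 k239 k16 3 10)))))) (.c k187 (.q k136 [(.s k69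
  k117 3 (.s k207 k138 10 (.s k223 k239 3 (.d k154 k16 k48 10 14)))), (.s k103 k100 0 (.s k71 k87 3
  (.s k116 k86 4 (.d k117 k118 k69 0 3))))] (.c k69 (.l (.s k103 k100 0 (.s k71 k87 3 (.s k116 k86 4
  (.s k117 k118 0 (.s k48 k186 10 (.s k16 k32 3 (.d k154 k223 k207 10 14)))))))) (.c k117 (.q k16
  [(.s k48 k32 3 (.d k154 k223 k207 10 14)), (.s k103 k100 0 (.s k87 k71 3 (.s k84 k86 0 (.s k168
  k252 13 (.d k152 k220 k184 9 3)))))] .n) .n))) (.c k207 (.l (.s k103 k100 0 (.s k71 k87 3 (.s k116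
  k86 4 (.d k117 k118 k69 0 3))))) .n)))))) (.c k187 (.l (.s k68 k119 4 (.s k204 k136 9 (.s k153 k51
  14 (.d k221 k238 k17 4 9))))) (.c k204 (.f k68 k119 4 (.q k196 [(.s k4 k132 7 (.s k149 k55 12 (.s
  k213 k21 7 (.d k247 k230 k166 4 12)))), (.s k4 k132 7 (.s k12 k8 1 (.s k93 k174 12 (.s k89 k81 1
  (.d k166 k247 k243 12 14))))), (.s k149 k55 12 (.s k21 k213 7 (.s k63 k42 6 (.s k106 k192 14 (.d
  k127 k64 k191 6 7)))))] (.c k78 (.q k141 [(.s k4 k132 7 (.s k149 k55 12 (.s k213 k21 7 (.d k247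
  k230 k166 4 12)))), (.s k4 k132 7 (.s k12 k8 1 (.s k93 k174 12 (.s k89 k81 1 (.d k166 k247 k243 12
  14))))), (.s k149 k55 12 (.s k21 k213 7 (.s k63 k42 6 (.s k106 k192 14 (.d k127 k64 k191 6 7)))))]
  (.c k247 (.l (.s k4 k132 7 (.s k12 k8 1 (.s k55 k149 12 (.s k38 k21 4 (.s k93 k174 12 (.s k89 k81
  1 (.d k166 k230 k243 7 14)))))))) .n)) (.c k141 (.q k78 [(.s k4 k132 7 (.s k149 k55 12 (.s k213
  k21 7 (.d k247 k230 k166 4 12)))), (.s k4 k132 7 (.s k12 k8 1 (.s k93 k174 12 (.s k89 k81 1 (.d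
  k166 k247 k243 12 14))))), (.s k149 k55 12 (.s k21 k213 7 (.s k63 k42 6 (.s k106 k192 14 (.d k127
  k64 k191 6 7)))))] (.c k247 (.l (.s k4 k132 7 (.s k12 k8 1 (.s k55 k149 12 (.s k38 k21 4 (.s k93
  k174 12 (.s k89 k81 1 (.d k166 k230 k243 7 14)))))))) .n)) (.c k247 (.l (.s k4 k132 7 (.s k12 k8 1
  (.s k55 k149 12 (.s k38 k21 4 (.s k93 k174 12 (.s k89 k81 1 (.d k166 k230 k243 7 14))))))))
  .n))))) (.c k221 (.q k3 [(.s k68 k119 4 (.s k87 k171 13 (.s k86 k84 0 (.s k70 k118 3 (.d k204 k136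
  k137 9 10))))), (.s k87 k171 13 (.s k119 k68 4 (.s k51 k187 9 (.s k19 k35 3 (.s k103 k71 3 (.d
  k155 k223 k207 9 13)))))), (.s k87 k171 13 (.s k86 k84 0 (.s k70 k118 3 (.s k169 k252 14 (.s k35
  k236 10 (.s k51 k19 3 (.d k204 k137 k153 10 14))))))), (.s k68 k119 4 (.s k204 k136 9 (.s k70 k137
  10 (.s k86 k118 3 (.s k153 k51 14 (.s k220 k19 10 (.d k252 k236 k169 3 14)))))))] (.c k70 (.l (.s
  k87 k171 13 (.s k86 k84 0 (.s k119 k68 4 (.s k51 k187 9 (.s k19 k35 3 (.d k153 k220 k204 10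
  14))))))) (.c k169 (.l (.s k68 k119 4 (.s k204 k136 9 (.s k70 k137 10 (.s k86 k118 3 (.d k87 k84
  k171 0 13)))))) .n))) (.c k238 (.l (.s k119 k68 4 (.s k51 k187 9 (.s k17 k34 4 (.d k153 k221 k204
  9 14))))) .n))))))))))))

def t1_20 : T TT 256 :=
  (.f k255 k170 14 (.q k102 [(.s k68 k119 4 (.s k204 k136 9 (.s k153 k51 14 (.d k221 k238 k17 4
  9))))] (.c k17 (.f k119 k68 4 (.f k51 k187 9 (.f k153 k204 14 (.q k49 [(.s k48 k50 0 (.s k101 k205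
  13 (.d k117 k69 k186 3 10))), (.s k48 k50 0 (.s k117 k186 10 (.s k118 k116 0 (.d k185 k253 k252 9
  10)))), (.s k101 k205 13 (.s k69 k117 3 (.s k207 k138 10 (.d k103 k100 k155 0 13)))), (.s k48 k50
  0 (.s k16 k32 3 (.s k154 k223 10 (.d k101 k205 k207 13 14))))] .n)))) (.c k51 (.q k4 [(.s k12 k8 1
  (.s k93 k174 12 (.s k166 k247 12 (.d k89 k81 k243 1 14)))), (.s k68 k119 4 (.s k166 k247 12 (.s
  k38 k230 7 (.s k55 k21 4 (.d k196 k132 k149 7 12))))), (.s k12 k8 1 (.s k68 k119 4 (.s k132 k196 7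
  (.s k72 k192 9 (.s k76 k64 1 (.d k204 k140 k136 7 9))))))] .n) (.c k68 (.q k4 [(.s k166 k247 12
  (.s k12 k8 1 (.s k89 k243 14 (.d k93 k81 k174 1 12)))), (.s k166 k247 12 (.s k38 k230 7 (.s k21
  k55 4 (.s k63 k42 6 (.s k127 k191 7 (.s k106 k64 6 (.d k149 k213 k192 7 14)))))))] (.c k166 (.f
  k12 k8 1 (.q k89 [(.d k93 k174 k81 12 1), (.s k76 k115 6 (.s k204 k140 7 (.s k153 k51 14 (.d k221
  k238 k17 4 9))))] (.c k162 (.l (.s k174 k93 12 (.s k76 k115 6 (.s k204 k140 7 (.s k153 k51 14 (.d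
  k221 k238 k17 4 9)))))) (.c k174 (.q k162 [(.d k81 k93 k243 1 12), (.s k76 k115 6 (.s k204 k140 7
  (.s k221 k238 4 (.d k153 k17 k51 9 14))))] .n) .n)))) (.c k247 (.l (.s k12 k8 1 (.s k93 k174 12
  (.s k89 k81 1 (.s k76 k115 6 (.s k204 k140 7 (.s k153 k51 14 (.d k221 k238 k17 4 9)))))))) .n)))
  (.c k119 (.q k247 [(.s k243 k251 1 (.s k81 k162 12 (.s k89 k93 1 (.d k166 k4 k12 12 14)))), (.s
  k166 k4 12 (.s k230 k38 7 (.s k213 k196 4 (.s k192 k234 6 (.s k64 k128 7 (.s k106 k127 6 (.d k149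
  k21 k63 7 14)))))))] (.c k4 (.l (.s k243 k251 1 (.s k81 k162 12 (.s k89 k93 1 (.s k115 k76 6 (.s
  k51 k179 7 (.s k17 k34 4 (.d k153 k221 k204 9 14)))))))) (.c k166 (.f k243 k251 1 (.q k89 [(.d k81
  k162 k93 12 1), (.s k115 k76 6 (.s k51 k179 7 (.s k17 k34 4 (.d k153 k221 k204 9 14))))] (.c k162
  (.q k174 [(.d k93 k81 k12 1 12), (.s k115 k76 6 (.s k51 k179 7 (.s k17 k34 4 (.d k153 k221 k204 9
  14))))] .n) (.c k174 (.l (.s k162 k81 12 (.s k115 k76 6 (.s k51 k179 7 (.s k17 k34 4 (.d k153 k221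
  k204 9 14)))))) .n)))) .n))) (.c k136 (.l (.s k119 k68 4 (.s k51 k187 9 (.s k153 k204 14 (.d k17
  k34 k221 4 9))))) (.c k153 (.f k119 k68 4 (.q k101 [(.s k69 k117 3 (.s k207 k138 10 (.s k154 k48
  14 (.d k223 k239 k16 3 10)))), (.s k103 k100 0 (.s k71 k87 3 (.s k116 k86 4 (.d k117 k118 k69 0
  3))))] (.c k69 (.l (.s k103 k100 0 (.s k71 k87 3 (.s k116 k86 4 (.s k117 k118 0 (.s k48 k186 10
  (.s k16 k32 3 (.d k154 k223 k207 10 14)))))))) (.c k117 (.l (.s k103 k100 0 (.s k87 k71 3 (.s k171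
  k3 13 (.s k239 k35 9 (.s k207 k223 3 (.d k51 k187 k155 9 13))))))) (.c k136 (.l (.s k187 k51 9 (.s
  k69 k117 3 (.s k207 k138 10 (.s k154 k48 14 (.d k223 k239 k16 3 10)))))) (.c k187 (.q k136 [(.s
  k69 k117 3 (.s k207 k138 10 (.s k154 k48 14 (.d k223 k239 k16 3 10)))), (.s k103 k100 0 (.s k71
  k87 3 (.s k116 k86 4 (.d k117 k118 k69 0 3))))] (.c k69 (.l (.s k103 k100 0 (.s k71 k87 3 (.s k116
  k86 4 (.s k117 k118 0 (.s k48 k186 10 (.s k16 k32 3 (.d k154 k223 k207 10 14)))))))) (.c k117 (.q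
  k5 [(.s k15 k10 2 (.s k95 k175 11 (.s k90 k80 2 (.d k165 k245 k240 11 14)))), (.s k100 k103 0 (.s
  k165 k245 11 (.s k228 k39 8 (.s k36 k164 7 (.s k229 k37 7 (.d k231 k230 k166 0 8)))))), (.s k15
  k10 2 (.s k103 k100 0 (.s k87 k71 3 (.s k3 k171 13 (.s k7 k11 1 (.s k4 k6 0 (.d k247 k167 k166 11
  12)))))))] .n) .n))) .n)))))) (.c k187 (.l (.s k68 k119 4 (.s k204 k136 9 (.s k153 k51 14 (.d k221
  k238 k17 4 9))))) (.c k204 (.q k4 [(.s k12 k8 1 (.s k93 k174 12 (.s k166 k247 12 (.d k89 k81 k243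
  1 14)))), (.s k68 k119 4 (.s k166 k247 12 (.s k38 k230 7 (.s k55 k21 4 (.d k196 k132 k149 7
  12))))), (.s k12 k8 1 (.s k119 k68 4 (.s k51 k187 9 (.s k34 k17 4 (.s k38 k25 6 (.s k21 k55 4 (.d
  k42 k46 k63 1 6)))))))] .n) (.c k221 (.q k3 [(.s k68 k119 4 (.s k87 k171 13 (.s k86 k84 0 (.s k70
  k118 3 (.d k204 k136 k137 9 10))))), (.s k87 k171 13 (.s k119 k68 4 (.s k51 k187 9 (.s k19 k35 3
  (.s k103 k71 3 (.d k155 k223 k207 9 13)))))), (.s k87 k171 13 (.s k86 k84 0 (.s k70 k118 3 (.s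
  k169 k252 14 (.s k35 k236 10 (.s k51 k19 3 (.d k204 k137 k153 10 14))))))), (.s k68 k119 4 (.s
  k204 k136 9 (.s k70 k137 10 (.s k86 k118 3 (.s k153 k51 14 (.s k220 k19 10 (.d k252 k236 k169 3
  14)))))))] (.c k70 (.l (.s k87 k171 13 (.s k86 k84 0 (.s k119 k68 4 (.s k51 k187 9 (.s k19 k35 3
  (.d k153 k220 k204 10 14))))))) (.c k169 (.l (.s k68 k119 4 (.s k204 k136 9 (.s k70 k137 10 (.s
  k86 k118 3 (.d k87 k84 k171 0 13)))))) .n))) (.c k238 (.l (.s k119 k68 4 (.s k51 k187 9 (.s k17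
  k34 4 (.d k153 k221 k204 9 14))))) .n))))))))))))

def t1_21 : T TT 256 :=
  (.q k60 [(.s k20 k40 5 (.s k150 k215 8 (.s k170 k255 14 (.s k130 k190 5 (.d k195 k65 k105 8
  14)))))] (.c k20 (.f k255 k170 14 (.q k61 [(.s k63 k62 0 (.s k125 k190 8 (.s k189 k253 7 (.s k126
  k252 8 (.d k127 k124 k191 0 7))))), (.s k63 k62 0 (.s k127 k191 7 (.s k106 k64 6 (.s k149 k192 14
  (.s k105 k193 13 (.s k107 k104 0 (.d k195 k151 k150 13 14))))))), (.s k125 k190 8 (.s k105 k65 5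
  (.s k193 k149 13 (.s k253 k189 7 (.s k213 k233 5 (.s k192 k234 6 (.d k195 k150 k194 14 0)))))))]
  (.c k22 (.q k23 [(.s k63 k62 0 (.s k125 k190 8 (.s k189 k253 7 (.s k126 k252 8 (.d k127 k124 k191
  0 7))))), (.s k63 k62 0 (.s k3 k43 5 (.s k87 k171 13 (.s k127 k191 7 (.s k107 k67 5 (.d k151 k215
  k195 7 13)))))), (.s k125 k190 8 (.s k105 k65 5 (.s k193 k149 13 (.s k253 k189 7 (.s k213 k233 5
  (.s k192 k234 6 (.d k195 k150 k194 14 0)))))))] (.c k42 (.l (.s k125 k190 8 (.s k105 k65 5 (.s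
  k193 k149 13 (.s k253 k189 7 (.s k233 k213 5 (.s k252 k254 0 (.d k195 k150 k214 14 6)))))))) (.c
  k191 (.l (.s k63 k62 0 (.s k3 k43 5 (.s k87 k171 13 (.s k84 k86 0 (.s k125 k190 8 (.s k189 k253 7
  (.d k252 k126 k168 8 13)))))))) .n))) (.c k23 (.q k22 [(.s k63 k62 0 (.s k125 k190 8 (.s k189 k253
  7 (.s k126 k252 8 (.d k127 k124 k191 0 7))))), (.s k3 k41 6 (.s k87 k171 13 (.s k86 k84 0 (.s k150
  k214 7 (.s k105 k195 14 (.s k124 k67 6 (.d k252 k169 k188 14 7))))))), (.s k63 k62 0 (.s k127 k191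
  7 (.s k106 k64 6 (.s k149 k192 14 (.s k105 k193 13 (.d k125 k65 k190 5 8))))))] .n) (.c k150 (.l
  (.s k63 k62 0 (.s k127 k191 7 (.s k106 k64 6 (.s k149 k192 14 (.s k105 k193 13 (.d k125 k65 k190 5
  8))))))) (.c k191 (.f k63 k62 0 (.l (.s k125 k190 8 (.s k105 k65 5 (.s k189 k253 7 (.s k126 k252 8
  (.s k127 k124 0 (.s k106 k64 6 (.d k149 k193 k192 13 14))))))))) .n)))))) (.c k40 (.f k255 k170 14
  (.q k61 [(.s k63 k62 0 (.s k125 k190 8 (.s k189 k253 7 (.s k126 k252 8 (.d k127 k124 k191 0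
  7))))), (.s k63 k62 0 (.s k127 k191 7 (.s k106 k64 6 (.s k149 k192 14 (.s k105 k193 13 (.s k107
  k104 0 (.d k195 k151 k150 13 14))))))), (.s k125 k190 8 (.s k105 k65 5 (.s k193 k149 13 (.s k253
  k189 7 (.s k213 k233 5 (.s k192 k234 6 (.d k195 k150 k194 14 0)))))))] (.c k105 (.q k235 [(.s k63
  k62 0 (.s k125 k190 8 (.s k189 k253 7 (.s k126 k252 8 (.d k127 k124 k191 0 7))))), (.s k63 k62 0
  (.s k127 k191 7 (.s k195 k215 5 (.s k107 k151 13 (.s k171 k43 7 (.d k87 k67 k3 5 13)))))), (.s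
  k125 k190 8 (.s k195 k215 5 (.s k253 k189 7 (.s k252 k254 0 (.s k233 k214 6 (.s k213 k193 5 (.d
  k234 k232 k192 0 6)))))))] (.c k62 (.q k3 [(.s k171 k87 13 (.s k107 k43 7 (.s k195 k215 5 (.s k151
  k63 13 (.d k131 k191 k67 5 7))))), (.s k87 k171 13 (.s k84 k86 0 (.s k125 k190 8 (.s k253 k189 7
  (.d k252 k254 k168 0 13))))), (.s k22 k41 6 (.s k125 k190 8 (.s k215 k195 5 (.s k150 k20 8 (.s k86
  k214 7 (.s k253 k189 7 (.d k252 k254 k169 0 14)))))))] (.c k191 (.l (.s k22 k41 6 (.s k87 k171 13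
  (.s k86 k84 0 (.s k150 k214 7 (.d k215 k195 k20 5 8)))))) .n)) (.c k191 (.q k128 [(.s k62 k63 0
  (.s k64 k192 7 (.s k106 k127 6 (.s k150 k194 13 (.d k215 k195 k20 5 8))))), (.s k62 k63 0 (.s k190
  k125 8 (.s k254 k126 7 (.s k252 k253 0 (.s k168 k84 13 (.d k188 k124 k148 7 5)))))), (.s k125 k190
  8 (.s k192 k64 7 (.s k195 k215 5 (.s k193 k194 0 (.s k213 k234 6 (.d k253 k189 k233 7 5))))))] .n)
  .n))) (.c k150 (.l (.s k63 k62 0 (.s k127 k191 7 (.s k106 k64 6 (.s k149 k192 14 (.s k105 k193 13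
  (.d k125 k65 k190 5 8))))))) (.c k191 (.f k63 k62 0 (.l (.s k125 k190 8 (.s k105 k65 5 (.s k189
  k253 7 (.s k126 k252 8 (.s k127 k124 0 (.s k106 k64 6 (.d k149 k193 k192 13 14))))))))) (.c k235
  (.q k105 [(.d k125 k65 k190 5 8), (.s k63 k62 0 (.s k127 k191 7 (.s k106 k64 6 (.d k149 k193 k192
  13 14))))] .n) .n)))))) (.c k41 (.q k61 [(.s k40 k20 5 (.s k170 k255 14 (.s k105 k235 8 (.s k65
  k125 5 (.d k195 k130 k150 8 14))))), (.s k63 k62 0 (.s k255 k170 14 (.s k125 k190 8 (.s k127 k191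
  7 (.s k126 k124 0 (.d k189 k253 k252 7 8)))))), (.s k40 k20 5 (.s k63 k62 0 (.s k170 k255 14 (.s
  k105 k235 8 (.s k149 k193 13 (.s k128 k191 6 (.d k192 k64 k106 7 14)))))))] (.c k170 (.l (.s k20
  k40 5 (.s k63 k62 0 (.s k150 k215 8 (.s k105 k195 14 (.s k149 k193 13 (.s k148 k151 0 (.d k192
  k104 k106 13 14)))))))) (.c k255 (.q k4 [(.s k12 k8 1 (.s k20 k40 5 (.s k36 k52 3 (.s k24 k48 5
  (.d k28 k16 k44 1 3))))), (.s k12 k8 1 (.s k28 k44 3 (.s k63 k62 0 (.s k29 k46 4 (.s k30 k31 0 (.d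
  k45 k13 k15 3 4)))))), (.s k20 k40 5 (.s k52 k36 3 (.s k150 k215 8 (.s k101 k199 12 (.s k117 k69 3
  (.d k247 k182 k166 8 12))))))] (.c k44 (.l (.s k12 k8 1 (.s k20 k40 5 (.s k150 k215 8 (.s k166
  k247 12 (.s k134 k182 3 (.d k195 k73 k105 10 14))))))) .n)) .n))) (.c k61 (.q k41 [(.s k20 k40 5
  (.s k150 k215 8 (.s k170 k255 14 (.s k130 k190 5 (.d k195 k65 k105 8 14))))), (.s k3 k22 6 (.s
  k255 k170 14 (.s k87 k171 13 (.s k86 k84 0 (.s k169 k252 14 (.s k105 k233 7 (.d k125 k65 k190 5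
  8))))))), (.s k3 k22 6 (.s k20 k40 5 (.s k150 k215 8 (.s k105 k195 14 (.s k169 k233 7 (.s k188
  k131 6 (.d k252 k124 k86 7 14)))))))] (.c k20 (.f k255 k170 14 (.l (.s k125 k190 8 (.s k105 k65 5
  (.s k150 k195 14 (.s k169 k233 7 (.s k188 k131 6 (.s k252 k124 7 (.d k3 k22 k86 6 14))))))))) (.c
  k105 (.f k255 k170 14 (.f k40 k20 5 (.f k43 k42 0 (.f k3 k22 6 (.l (.s k23 k63 5 (.s k87 k171 13
  (.s k84 k86 0 (.s k168 k252 13 (.s k104 k232 7 (.s k192 k148 13 (.d k64 k124 k128 5 7))))))))))))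
  (.c k195 (.l (.s k3 k22 6 (.s k255 k170 14 (.s k87 k171 13 (.s k86 k84 0 (.s k125 k190 8 (.s k105
  k65 5 (.d k169 k233 k252 7 14)))))))) (.c k255 (.q k4 [(.s k12 k8 1 (.s k20 k40 5 (.s k28 k44 3
  (.s k36 k52 3 (.d k24 k16 k48 1 5))))), (.s k12 k8 1 (.s k22 k3 6 (.s k28 k44 3 (.s k25 k19 2 (.s
  k51 k38 6 (.d k57 k54 k9 2 3)))))), (.s k20 k40 5 (.s k52 k36 3 (.s k150 k215 8 (.s k101 k199 12
  (.s k117 k69 3 (.d k247 k182 k166 8 12))))))] (.c k44 (.l (.s k12 k8 1 (.s k20 k40 5 (.s k150 k215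
  8 (.s k166 k247 12 (.s k134 k182 3 (.d k195 k73 k105 10 14))))))) .n)) .n))))) (.c k65 (.f k170
  k255 14 (.q k149 [(.s k20 k40 5 (.s k128 k191 6 (.s k150 k215 8 (.s k192 k64 7 (.d k148 k151 k104
  0 13))))), (.s k20 k40 5 (.s k128 k191 6 (.s k150 k215 8 (.s k148 k151 0 (.s k84 k212 7 (.d k168
  k188 k252 5 13)))))), (.s k20 k40 5 (.s k128 k191 6 (.s k192 k64 7 (.s k148 k104 13 (.s k84 k212 7
  (.d k168 k188 k252 5 13)))))), (.s k20 k40 5 (.s k150 k215 8 (.s k148 k151 0 (.s k84 k212 7 (.s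
  k104 k192 13 (.s k124 k64 5 (.d k252 k188 k168 7 13))))))), (.s k128 k191 6 (.s k192 k64 7 (.s k63
  k106 14 (.s k61 k62 0 (.s k148 k104 13 (.s k150 k151 0 (.d k105 k193 k195 13 14)))))))] (.c k41
  (.q k61 [(.s k40 k20 5 (.d k105 k193 k235 13 8)), (.s k63 k62 0 (.s k128 k191 6 (.d k192 k64 k106
  7 14)))] (.c k129 (.l (.s k193 k105 13 (.s k63 k62 0 (.s k128 k191 6 (.d k192 k64 k106 7 14)))))
  (.c k193 (.q k129 [(.s k63 k62 0 (.s k128 k191 6 (.d k192 k64 k106 7 14))), (.s k20 k40 5 (.s k150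
  k215 8 (.s k130 k190 5 (.d k128 k131 k191 0 6)))), (.s k20 k40 5 (.s k63 k62 0 (.s k150 k215 8 (.s
  k148 k151 0 (.d k192 k104 k106 13 14)))))] .n) .n))) (.c k61 (.q k41 [(.s k40 k20 5 (.s k42 k43 0
  (.s k106 k234 7 (.s k64 k127 6 (.d k128 k191 k192 6 7))))), (.s k20 k40 5 (.s k22 k3 6 (.s k150
  k215 8 (.s k86 k214 7 (.s k148 k151 0 (.d k84 k87 k212 0 7)))))), (.s k128 k191 6 (.s k192 k64 7
  (.s k148 k104 13 (.s k150 k151 0 (.s k105 k195 14 (.s k168 k188 5 (.d k169 k171 k233 0 7)))))))]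
  (.c k129 (.q k193 [(.s k20 k40 5 (.s k128 k191 6 (.s k150 k215 8 (.s k195 k105 14 (.d k192 k194
  k64 0 7))))), (.s k40 k20 5 (.s k42 k43 0 (.s k106 k234 7 (.s k64 k127 6 (.d k128 k191 k192 6
  7))))), (.s k20 k40 5 (.s k150 k215 8 (.s k148 k151 0 (.s k192 k104 13 (.d k195 k194 k105 0
  14))))), (.s k128 k191 6 (.s k192 k64 7 (.s k148 k104 13 (.s k150 k151 0 (.d k195 k194 k105 0
  14)))))] (.c k192 (.l (.s k20 k40 5 (.s k128 k191 6 (.s k150 k215 8 (.s k148 k151 0 (.s k84 k212 7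
  (.d k168 k252 k188 13 5))))))) .n)) (.c k193 (.q k129 [(.s k128 k191 6 (.s k192 k64 7 (.d k3 k66
  k22 8 6))), (.s k169 k189 5 (.s k105 k233 7 (.d k40 k20 k235 5 8)))] .n) .n))) (.c k129 (.q k193
  [(.s k40 k20 5 (.d k105 k61 k235 13 8)), (.s k61 k105 13 (.s k63 k62 0 (.s k128 k191 6 (.d k192
  k64 k106 7 14))))] (.c k41 (.l (.s k61 k105 13 (.s k63 k62 0 (.s k128 k191 6 (.d k192 k64 k106 7
  14))))) (.c k61 (.q k41 [(.s k20 k40 5 (.s k128 k191 6 (.s k150 k215 8 (.s k195 k105 14 (.d k192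
  k194 k64 0 7))))), (.s k40 k20 5 (.s k42 k43 0 (.s k106 k234 7 (.s k64 k127 6 (.d k128 k191 k192 6
  7))))), (.s k20 k40 5 (.s k150 k215 8 (.s k148 k151 0 (.s k192 k104 13 (.d k195 k194 k105 0
  14))))), (.s k128 k191 6 (.s k192 k64 7 (.s k148 k104 13 (.s k150 k151 0 (.d k195 k194 k105 0
  14)))))] (.c k192 (.l (.s k20 k40 5 (.s k128 k191 6 (.s k150 k215 8 (.s k148 k151 0 (.s k84 k212 7
  (.d k168 k252 k188 13 5))))))) .n)) (.c k105 (.l (.s k20 k40 5 (.s k128 k191 6 (.s k150 k215 8 (.s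
  k148 k151 0 (.d k192 k64 k104 7 13)))))) .n)))) (.c k148 (.l (.s k40 k20 5 (.s k105 k235 8 (.s
  k128 k191 6 (.s k192 k64 7 (.s k63 k106 14 (.d k61 k62 k193 0 13))))))) (.c k193 (.q k129 [(.s k20
  k40 5 (.s k150 k215 8 (.s k130 k190 5 (.d k128 k131 k191 0 6)))), (.s k128 k191 6 (.s k169 k189 5
  (.s k168 k171 0 (.s k188 k148 5 (.d k252 k124 k84 7 13))))), (.s k20 k40 5 (.s k150 k215 8 (.s
  k148 k151 0 (.s k84 k212 7 (.s k168 k252 13 (.d k169 k171 k189 0 5))))))] (.c k41 (.q k61 [(.s k63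
  k62 0 (.s k128 k191 6 (.d k192 k64 k106 7 14))), (.s k20 k40 5 (.s k150 k215 8 (.s k130 k190 5 (.d
  k128 k131 k191 0 6)))), (.s k20 k40 5 (.s k63 k62 0 (.s k150 k215 8 (.s k148 k151 0 (.d k192 k104
  k106 13 14)))))] .n) (.c k61 (.q k41 [(.s k128 k191 6 (.s k192 k64 7 (.d k3 k66 k22 8 6))), (.s
  k169 k189 5 (.s k105 k233 7 (.d k40 k20 k235 5 8)))] .n) .n))) .n))))))) (.c k105 (.f k170 k255 14
  (.q k168 [(.s k20 k40 5 (.s k84 k252 13 (.s k148 k212 7 (.s k128 k188 5 (.d k192 k64 k104 7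
  13))))), (.s k20 k40 5 (.s k150 k215 8 (.s k169 k171 0 (.s k188 k131 6 (.d k252 k124 k84 7
  13))))), (.s k169 k171 0 (.s k252 k84 13 (.s k188 k124 7 (.s k150 k131 6 (.s k190 k130 5 (.s k191
  k189 0 (.d k128 k148 k149 5 6))))))), (.s k20 k40 5 (.s k150 k215 8 (.s k169 k171 0 (.s k188 k131
  6 (.s k128 k148 5 (.s k190 k130 5 (.d k191 k189 k149 0 6)))))))] (.c k41 (.q k61 [(.s k20 k40 5
  (.s k84 k252 13 (.s k148 k212 7 (.s k128 k188 5 (.d k192 k64 k104 7 13))))), (.s k63 k62 0 (.s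
  k169 k171 0 (.s k252 k84 13 (.s k188 k124 7 (.s k150 k131 6 (.s k189 k126 8 (.d k190 k191 k130 0
  5))))))), (.s k20 k40 5 (.s k150 k215 8 (.s k169 k171 0 (.s k188 k131 6 (.s k128 k148 5 (.s k190
  k130 5 (.d k191 k189 k149 0 6)))))))] (.c k169 (.q k233 [(.s k20 k40 5 (.s k150 k215 8 (.s k130
  k190 5 (.s k195 k65 8 (.d k252 k214 k84 6 13))))), (.s k63 k62 0 (.s k252 k84 13 (.s k188 k124 7
  (.s k128 k148 5 (.s k149 k191 6 (.d k192 k64 k106 7 14)))))), (.s k40 k20 5 (.s k63 k62 0 (.s k232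
  k104 7 (.s k234 k235 0 (.s k106 k42 7 (.s k64 k127 6 (.d k192 k128 k149 7 14)))))))] (.c k20 (.l
  (.s k63 k62 0 (.s k252 k84 13 (.s k188 k124 7 (.s k189 k126 8 (.s k190 k191 0 (.s k130 k150 5 (.d
  k195 k214 k65 6 8)))))))) .n)) (.c k188 (.l (.s k40 k20 5 (.s k84 k252 13 (.s k104 k232 7 (.s k64
  k124 5 (.d k192 k128 k148 7 13)))))) (.c k233 (.l (.s k169 k171 0 (.s k20 k40 5 (.s k150 k215 8
  (.s k188 k131 6 (.d k252 k124 k84 7 13)))))) .n)))) (.c k61 (.q k41 [(.s k169 k171 0 (.s k252 k84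
  13 (.d k3 k22 k86 6 14))), (.s k20 k40 5 (.s k84 k252 13 (.s k148 k212 7 (.s k128 k188 5 (.d k192
  k64 k104 7 13))))), (.s k40 k20 5 (.s k43 k42 0 (.s k232 k104 7 (.d k169 k106 k171 8 0))))] (.c
  k149 (.q k193 [(.s k169 k171 0 (.s k252 k84 13 (.d k3 k22 k86 6 14))), (.s k40 k20 5 (.s k43 k42 0
  (.s k232 k104 7 (.d k169 k106 k171 8 0)))), (.s k20 k40 5 (.s k84 k252 13 (.s k148 k212 7 (.s k128
  k188 5 (.d k192 k64 k104 7 13)))))] .n) (.c k193 (.q k149 [(.s k3 k22 6 (.s k169 k171 0 (.d k252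
  k84 k86 13 14))), (.s k128 k191 6 (.s k148 k188 5 (.d k192 k64 k104 7 13)))] (.c k65 (.q k129 [(.d
  k169 k171 k189 0 5), (.s k3 k22 6 (.s k128 k191 6 (.d k192 k64 k66 7 8)))] .n) (.c k129 (.q k65
  [(.s k3 k22 6 (.s k169 k171 0 (.d k252 k84 k86 13 14))), (.s k128 k191 6 (.s k148 k188 5 (.d k192
  k64 k104 7 13)))] .n) .n))) .n))) (.c k188 (.l (.s k40 k20 5 (.s k84 k252 13 (.s k104 k232 7 (.s
  k64 k124 5 (.d k192 k128 k148 7 13)))))) .n))))) (.c k130 (.l (.s k20 k40 5 (.s k150 k215 8 (.s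
  k105 k195 14 (.s k125 k65 5 (.d k255 k190 k170 8 14)))))) (.c k150 (.f k255 k170 14 (.f k190 k125
  8 (.q k4 [(.s k166 k247 12 (.s k12 k8 1 (.s k89 k243 14 (.d k93 k81 k174 1 12)))), (.s k20 k40 5
  (.s k52 k36 3 (.s k48 k56 1 (.s k117 k186 10 (.d k247 k182 k166 8 12))))), (.s k12 k8 1 (.s k20
  k40 5 (.s k28 k44 3 (.s k24 k16 1 (.d k36 k52 k48 3 5)))))] (.c k8 (.l (.s k20 k40 5 (.s k52 k36 3
  (.s k247 k166 12 (.s k182 k117 8 (.d k243 k121 k251 10 1)))))) (.c k41 (.q k61 [(.s k166 k247 12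
  (.s k12 k8 1 (.s k89 k243 14 (.d k93 k81 k174 1 12)))), (.s k20 k40 5 (.s k52 k36 3 (.s k48 k56 1
  (.s k117 k186 10 (.d k247 k182 k166 8 12))))), (.s k12 k8 1 (.s k20 k40 5 (.s k28 k44 3 (.s k24
  k16 1 (.d k36 k52 k48 3 5)))))] (.c k8 (.l (.s k20 k40 5 (.s k52 k36 3 (.s k247 k166 12 (.s k182
  k117 8 (.d k243 k121 k251 10 1)))))) (.c k251 (.l (.s k166 k247 12 (.s k12 k8 1 (.s k89 k243 14
  (.d k93 k81 k174 1 12))))) .n))) (.c k61 (.q k41 [(.s k166 k247 12 (.s k12 k8 1 (.s k89 k243 14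
  (.d k93 k81 k174 1 12)))), (.s k20 k40 5 (.s k52 k36 3 (.s k48 k56 1 (.s k117 k186 10 (.d k247
  k182 k166 8 12))))), (.s k12 k8 1 (.s k20 k40 5 (.s k28 k44 3 (.s k24 k16 1 (.d k36 k52 k48 3
  5)))))] (.c k8 (.l (.s k20 k40 5 (.s k52 k36 3 (.s k247 k166 12 (.s k182 k117 8 (.d k243 k121 k251
  10 1)))))) (.c k189 (.q k253 [(.s k3 k22 6 (.s k87 k171 13 (.s k86 k84 0 (.d k252 k169 k254 14
  0)))), (.s k12 k8 1 (.s k93 k174 12 (.s k89 k81 1 (.d k166 k247 k243 12 14))))] .n) (.c k251 (.l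
  (.s k166 k247 12 (.s k12 k8 1 (.s k89 k243 14 (.d k93 k81 k174 1 12))))) (.c k253 (.q k189 [(.s
  k166 k247 12 (.s k12 k8 1 (.s k89 k243 14 (.d k93 k81 k174 1 12)))), (.s k3 k22 6 (.s k87 k171 13
  (.s k86 k84 0 (.s k188 k191 0 (.d k252 k169 k124 14 7)))))] .n) .n))))) (.c k251 (.l (.s k166 k247
  12 (.s k12 k8 1 (.s k89 k243 14 (.d k93 k81 k174 1 12))))) .n))))))) (.c k170 (.q k166 [(.s k20
  k40 5 (.s k150 k215 8 (.s k182 k134 3 (.s k243 k121 10 (.s k81 k162 12 (.d k89 k93 k12 1 14)))))),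
  (.s k4 k247 12 (.s k12 k8 1 (.s k44 k28 3 (.s k105 k227 10 (.s k65 k125 5 (.d k195 k130 k150 8
  14)))))), (.s k4 k247 12 (.s k20 k40 5 (.s k52 k36 3 (.s k150 k215 8 (.s k134 k182 3 (.d k199 k69
  k101 8 12))))))] (.c k41 (.q k61 [(.s k4 k247 12 (.s k12 k8 1 (.s k44 k28 3 (.s k105 k227 10 (.s
  k65 k125 5 (.d k195 k130 k150 8 14)))))), (.s k20 k40 5 (.s k150 k215 8 (.s k182 k134 3 (.s k243
  k121 10 (.s k81 k162 12 (.d k89 k93 k12 1 14)))))), (.s k4 k247 12 (.s k20 k40 5 (.s k52 k36 3 (.s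
  k150 k215 8 (.s k134 k182 3 (.d k199 k69 k101 8 12))))))] (.c k105 (.l (.s k4 k247 12 (.s k12 k8 1
  (.s k28 k44 3 (.s k89 k243 14 (.s k150 k211 10 (.d k20 k40 k215 5 8))))))) (.c k150 (.l (.s k4
  k247 12 (.s k12 k8 1 (.s k20 k40 5 (.s k28 k44 3 (.s k24 k16 1 (.d k36 k52 k48 3 5))))))) .n)))
  (.c k61 (.q k41 [(.s k20 k40 5 (.s k150 k215 8 (.s k182 k134 3 (.s k243 k121 10 (.s k81 k162 12
  (.d k89 k93 k12 1 14)))))), (.s k4 k247 12 (.s k12 k8 1 (.s k44 k28 3 (.s k105 k227 10 (.s k65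
  k125 5 (.d k195 k130 k150 8 14)))))), (.s k4 k247 12 (.s k20 k40 5 (.s k52 k36 3 (.s k150 k215 8
  (.s k134 k182 3 (.d k199 k69 k101 8 12))))))] (.c k105 (.l (.s k4 k247 12 (.s k12 k8 1 (.s k28 k44
  3 (.s k89 k243 14 (.s k150 k211 10 (.d k20 k40 k215 5 8))))))) (.c k150 (.l (.s k4 k247 12 (.s k12
  k8 1 (.s k20 k40 5 (.s k28 k44 3 (.s k24 k16 1 (.d k36 k52 k48 3 5))))))) .n))) (.c k105 (.l (.s
  k4 k247 12 (.s k12 k8 1 (.s k28 k44 3 (.s k89 k243 14 (.s k150 k211 10 (.d k20 k40 k215 5 8)))))))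
  (.c k150 (.l (.s k4 k247 12 (.s k12 k8 1 (.s k20 k40 5 (.s k28 k44 3 (.s k24 k16 1 (.d k36 k52 k48
  3 5))))))) .n))))) (.c k190 (.l (.s k40 k20 5 (.s k170 k255 14 (.s k105 k235 8 (.s k65 k125 5 (.d
  k195 k130 k150 8 14)))))) (.c k195 (.f k255 k170 14 (.f k190 k125 8 (.q k165 [(.s k5 k245 11 (.s
  k15 k10 2 (.s k95 k175 11 (.d k90 k80 k240 2 14)))), (.s k20 k40 5 (.s k150 k215 8 (.s k180 k135 4
  (.s k240 k120 9 (.s k80 k160 11 (.d k90 k15 k95 14 2)))))), (.s k20 k40 5 (.s k150 k215 8 (.s k245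
  k5 11 (.s k240 k250 2 (.d k180 k135 k120 4 9)))))] (.c k41 (.q k61 [(.s k5 k245 11 (.s k15 k10 2
  (.s k95 k175 11 (.d k90 k80 k240 2 14)))), (.s k20 k40 5 (.s k150 k215 8 (.s k180 k135 4 (.s k240
  k120 9 (.s k80 k160 11 (.d k90 k15 k95 14 2)))))), (.s k20 k40 5 (.s k150 k215 8 (.s k245 k5 11
  (.s k240 k250 2 (.d k180 k135 k120 4 9)))))] (.c k90 (.l (.s k20 k40 5 (.s k150 k215 8 (.s k180
  k135 4 (.s k240 k120 9 (.d k245 k250 k5 2 11)))))) (.c k240 (.l (.s k5 k245 11 (.s k15 k10 2 (.s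
  k63 k62 0 (.s k47 k31 3 (.s k106 k224 10 (.d k127 k64 k191 6 7))))))) .n))) (.c k61 (.q k41 [(.s
  k5 k245 11 (.s k15 k10 2 (.s k95 k175 11 (.d k90 k80 k240 2 14)))), (.s k20 k40 5 (.s k150 k215 8
  (.s k180 k135 4 (.s k240 k120 9 (.s k80 k160 11 (.d k90 k15 k95 14 2)))))), (.s k20 k40 5 (.s k150
  k215 8 (.s k245 k5 11 (.s k240 k250 2 (.d k180 k135 k120 4 9)))))] (.c k90 (.l (.s k20 k40 5 (.s
  k150 k215 8 (.s k180 k135 4 (.s k240 k120 9 (.d k245 k250 k5 2 11)))))) (.c k189 (.q k253 [(.s k3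
  k22 6 (.s k87 k171 13 (.s k86 k84 0 (.d k252 k169 k254 14 0)))), (.s k5 k245 11 (.s k15 k10 2 (.s
  k90 k240 14 (.d k95 k80 k175 2 11))))] .n) (.c k240 (.l (.s k3 k22 6 (.s k5 k245 11 (.s k15 k10 2
  (.s k7 k11 1 (.s k86 k244 12 (.d k87 k84 k171 0 13))))))) (.c k253 (.q k189 [(.s k5 k245 11 (.s
  k15 k10 2 (.s k95 k175 11 (.d k90 k80 k240 2 14)))), (.s k3 k22 6 (.s k87 k171 13 (.s k84 k86 0
  (.s k188 k191 0 (.d k252 k168 k124 13 7)))))] .n) .n))))) (.c k90 (.l (.s k20 k40 5 (.s k150 k215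
  8 (.s k180 k135 4 (.s k240 k120 9 (.d k245 k250 k5 2 11)))))) (.c k240 (.l (.s k5 k245 11 (.s k15
  k10 2 (.s k20 k40 5 (.s k30 k45 4 (.s k95 k175 11 (.s k90 k80 2 (.d k150 k215 k210 8 9))))))))
  .n))))))) (.c k215 (.l (.s k40 k20 5 (.s k170 k255 14 (.s k105 k235 8 (.s k195 k150 14 (.d k65
  k125 k130 5 8)))))) (.c k235 (.l (.s k20 k40 5 (.s k150 k215 8 (.s k105 k195 14 (.s k255 k170 14
  (.d k125 k65 k190 5 8)))))) (.c k255 (.q k4 [(.s k12 k8 1 (.s k20 k40 5 (.s k28 k44 3 (.s k36 k52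
  3 (.d k24 k16 k48 1 5))))), (.s k12 k8 1 (.s k44 k28 3 (.s k166 k247 12 (.s k105 k227 10 (.s k65
  k125 5 (.d k195 k130 k150 8 14)))))), (.s k20 k40 5 (.s k52 k36 3 (.s k150 k215 8 (.s k101 k199 12
  (.s k117 k69 3 (.d k247 k182 k166 8 12))))))] (.c k41 (.q k61 [(.s k12 k8 1 (.s k20 k40 5 (.s k36
  k52 3 (.s k24 k48 5 (.d k28 k16 k44 1 3))))), (.s k12 k8 1 (.s k28 k44 3 (.s k63 k62 0 (.s k29 k46
  4 (.s k30 k31 0 (.d k45 k13 k15 3 4)))))), (.s k20 k40 5 (.s k52 k36 3 (.s k150 k215 8 (.s k101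
  k199 12 (.s k117 k69 3 (.d k247 k182 k166 8 12))))))] (.c k44 (.l (.s k12 k8 1 (.s k20 k40 5 (.s
  k150 k215 8 (.s k166 k247 12 (.s k134 k182 3 (.d k195 k73 k105 10 14))))))) .n)) (.c k44 (.l (.s
  k12 k8 1 (.s k20 k40 5 (.s k150 k215 8 (.s k166 k247 12 (.s k134 k182 3 (.d k195 k73 k105 10
  14))))))) (.c k61 (.q k41 [(.s k12 k8 1 (.s k20 k40 5 (.s k28 k44 3 (.s k36 k52 3 (.d k24 k16 k48
  1 5))))), (.s k12 k8 1 (.s k22 k3 6 (.s k28 k44 3 (.s k25 k19 2 (.s k51 k38 6 (.d k57 k54 k9 2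
  3)))))), (.s k20 k40 5 (.s k52 k36 3 (.s k150 k215 8 (.s k101 k199 12 (.s k117 k69 3 (.d k247 k182
  k166 8 12))))))] (.c k44 (.l (.s k12 k8 1 (.s k20 k40 5 (.s k150 k215 8 (.s k166 k247 12 (.s k134
  k182 3 (.d k195 k73 k105 10 14))))))) .n)) .n)))) .n)))))))))))))))

def t1_22 : T TT 256 :=
  (.f k255 k170 14 (.q k102 [(.s k68 k119 4 (.s k204 k136 9 (.s k153 k51 14 (.d k221 k238 k17 4
  9))))] (.c k17 (.f k119 k68 4 (.f k51 k187 9 (.f k153 k204 14 (.q k49 [(.s k48 k50 0 (.s k101 k205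
  13 (.d k117 k69 k186 3 10))), (.s k48 k50 0 (.s k117 k186 10 (.s k118 k116 0 (.d k185 k253 k252 9
  10)))), (.s k101 k205 13 (.s k69 k117 3 (.s k207 k138 10 (.d k103 k100 k155 0 13)))), (.s k48 k50
  0 (.s k16 k32 3 (.s k154 k223 10 (.d k101 k205 k207 13 14))))] .n)))) (.c k51 (.q k4 [(.s k12 k8 1
  (.s k93 k174 12 (.s k166 k247 12 (.d k89 k81 k243 1 14)))), (.s k68 k119 4 (.s k166 k247 12 (.s
  k38 k230 7 (.s k55 k21 4 (.d k196 k132 k149 7 12))))), (.s k12 k8 1 (.s k68 k119 4 (.s k132 k196 7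
  (.s k72 k192 9 (.s k76 k64 1 (.d k204 k140 k136 7 9))))))] .n) (.c k68 (.q k4 [(.s k166 k247 12
  (.s k12 k8 1 (.s k89 k243 14 (.d k93 k81 k174 1 12)))), (.s k166 k247 12 (.s k38 k230 7 (.s k21
  k55 4 (.s k63 k42 6 (.s k127 k191 7 (.s k106 k64 6 (.d k149 k213 k192 7 14)))))))] (.c k166 (.f
  k12 k8 1 (.q k89 [(.d k93 k174 k81 12 1), (.s k76 k115 6 (.s k204 k140 7 (.s k153 k51 14 (.d k221
  k238 k17 4 9))))] (.c k162 (.l (.s k174 k93 12 (.s k76 k115 6 (.s k204 k140 7 (.s k153 k51 14 (.d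
  k221 k238 k17 4 9)))))) (.c k174 (.q k162 [(.d k81 k93 k243 1 12), (.s k76 k115 6 (.s k204 k140 7
  (.s k221 k238 4 (.d k153 k17 k51 9 14))))] .n) .n)))) (.c k247 (.l (.s k12 k8 1 (.s k93 k174 12
  (.s k89 k81 1 (.s k76 k115 6 (.s k204 k140 7 (.s k153 k51 14 (.d k221 k238 k17 4 9)))))))) .n)))
  (.c k119 (.q k247 [(.s k166 k4 12 (.s k243 k251 1 (.s k81 k162 12 (.d k89 k93 k12 1 14)))), (.s
  k166 k4 12 (.s k230 k38 7 (.s k213 k196 4 (.s k192 k234 6 (.s k64 k128 7 (.s k106 k127 6 (.d k149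
  k21 k63 7 14)))))))] (.c k4 (.l (.s k243 k251 1 (.s k81 k162 12 (.s k89 k93 1 (.s k115 k76 6 (.s
  k51 k179 7 (.s k17 k34 4 (.d k153 k221 k204 9 14)))))))) (.c k166 (.f k243 k251 1 (.q k89 [(.d k81
  k162 k93 12 1), (.s k115 k76 6 (.s k51 k179 7 (.s k17 k34 4 (.d k153 k221 k204 9 14))))] (.c k162
  (.q k174 [(.d k93 k81 k12 1 12), (.s k115 k76 6 (.s k51 k179 7 (.s k17 k34 4 (.d k153 k221 k204 9
  14))))] .n) (.c k174 (.l (.s k162 k81 12 (.s k115 k76 6 (.s k51 k179 7 (.s k17 k34 4 (.d k153 k221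
  k204 9 14)))))) .n)))) .n))) (.c k136 (.l (.s k119 k68 4 (.s k51 k187 9 (.s k153 k204 14 (.d k17
  k34 k221 4 9))))) (.c k153 (.f k68 k119 4 (.q k4 [(.s k166 k247 12 (.s k12 k8 1 (.s k89 k243 14
  (.d k93 k81 k174 1 12)))), (.s k166 k247 12 (.s k38 k230 7 (.s k55 k21 4 (.d k196 k132 k149 7
  12)))), (.s k12 k8 1 (.s k132 k196 7 (.s k72 k192 9 (.s k76 k64 1 (.d k204 k136 k140 9 7)))))] (.c
  k136 (.q k187 [(.s k166 k247 12 (.s k12 k8 1 (.s k89 k243 14 (.d k93 k81 k174 1 12)))), (.s k166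
  k247 12 (.s k38 k230 7 (.s k55 k21 4 (.d k196 k132 k149 7 12)))), (.s k12 k8 1 (.s k132 k196 7 (.s
  k72 k192 9 (.s k76 k64 1 (.s k89 k115 6 (.d k93 k81 k174 1 12))))))] .n) (.c k187 (.l (.s k136
  k204 9 (.s k12 k8 1 (.s k93 k174 12 (.s k89 k81 1 (.d k166 k247 k243 12 14)))))) .n)))) (.c k187
  (.l (.s k68 k119 4 (.s k204 k136 9 (.s k153 k51 14 (.d k221 k238 k17 4 9))))) (.c k204 (.q k4 [(.s
  k12 k8 1 (.s k93 k174 12 (.s k166 k247 12 (.d k89 k81 k243 1 14)))), (.s k68 k119 4 (.s k166 k247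
  12 (.s k38 k230 7 (.s k55 k21 4 (.d k196 k132 k149 7 12))))), (.s k12 k8 1 (.s k119 k68 4 (.s k51
  k187 9 (.s k34 k17 4 (.s k38 k25 6 (.s k21 k55 4 (.d k42 k46 k63 1 6)))))))] .n) (.c k221 (.q k3
  [(.s k68 k119 4 (.s k87 k171 13 (.s k86 k84 0 (.s k70 k118 3 (.d k204 k136 k137 9 10))))), (.s k87
  k171 13 (.s k119 k68 4 (.s k51 k187 9 (.s k19 k35 3 (.s k103 k71 3 (.d k155 k223 k207 9 13)))))),
  (.s k87 k171 13 (.s k86 k84 0 (.s k70 k118 3 (.s k169 k252 14 (.s k35 k236 10 (.s k51 k19 3 (.d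
  k204 k137 k153 10 14))))))), (.s k68 k119 4 (.s k204 k136 9 (.s k70 k137 10 (.s k86 k118 3 (.s
  k153 k51 14 (.s k220 k19 10 (.d k252 k236 k169 3 14)))))))] (.c k70 (.l (.s k87 k171 13 (.s k86
  k84 0 (.s k119 k68 4 (.s k51 k187 9 (.s k19 k35 3 (.d k153 k220 k204 10 14))))))) (.c k169 (.l (.s
  k68 k119 4 (.s k204 k136 9 (.s k70 k137 10 (.s k86 k118 3 (.d k87 k84 k171 0 13)))))) .n))) (.c
  k238 (.l (.s k119 k68 4 (.s k51 k187 9 (.s k17 k34 4 (.d k153 k221 k204 9 14))))) .n))))))))))))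

def t1_23 : T TT 256 :=
  (.f k255 k170 14 (.q k102 [(.s k68 k119 4 (.s k204 k136 9 (.s k153 k51 14 (.d k221 k238 k17 4
  9))))] (.c k17 (.f k119 k68 4 (.f k51 k187 9 (.f k153 k204 14 (.q k49 [(.s k48 k50 0 (.s k101 k205
  13 (.d k117 k69 k186 3 10))), (.s k48 k50 0 (.s k117 k186 10 (.s k118 k116 0 (.d k185 k253 k252 9
  10)))), (.s k101 k205 13 (.s k69 k117 3 (.s k207 k138 10 (.d k103 k100 k155 0 13)))), (.s k48 k50
  0 (.s k16 k32 3 (.s k154 k223 10 (.d k101 k205 k207 13 14))))] .n)))) (.c k51 (.q k4 [(.s k12 k8 1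
  (.s k93 k174 12 (.s k166 k247 12 (.d k89 k81 k243 1 14)))), (.s k68 k119 4 (.s k166 k247 12 (.s
  k38 k230 7 (.s k55 k21 4 (.d k196 k132 k149 7 12))))), (.s k12 k8 1 (.s k68 k119 4 (.s k132 k196 7
  (.s k72 k192 9 (.s k76 k64 1 (.d k204 k140 k136 7 9))))))] .n) (.c k68 (.q k4 [(.s k166 k247 12
  (.s k12 k8 1 (.s k89 k243 14 (.d k93 k81 k174 1 12)))), (.s k166 k247 12 (.s k38 k230 7 (.s k21
  k55 4 (.s k63 k42 6 (.s k127 k191 7 (.s k106 k64 6 (.d k149 k213 k192 7 14)))))))] (.c k166 (.f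
  k12 k8 1 (.q k89 [(.d k93 k174 k81 12 1), (.s k76 k115 6 (.s k204 k140 7 (.s k153 k51 14 (.d k221
  k238 k17 4 9))))] (.c k162 (.l (.s k174 k93 12 (.s k76 k115 6 (.s k204 k140 7 (.s k153 k51 14 (.d
  k221 k238 k17 4 9)))))) (.c k174 (.q k162 [(.d k81 k93 k243 1 12), (.s k76 k115 6 (.s k204 k140 7
  (.s k221 k238 4 (.d k153 k17 k51 9 14))))] .n) .n)))) (.c k247 (.l (.s k12 k8 1 (.s k93 k174 12
  (.s k89 k81 1 (.s k76 k115 6 (.s k204 k140 7 (.s k153 k51 14 (.d k221 k238 k17 4 9)))))))) .n)))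
  (.c k119 (.q k93 [(.s k89 k81 1 (.s k12 k174 12 (.s k166 k243 14 (.d k4 k8 k247 1 12)))), (.s k89
  k81 1 (.s k76 k115 6 (.s k127 k110 4 (.s k63 k191 7 (.s k21 k42 6 (.s k149 k213 7 (.d k106 k64
  k192 6 14))))))), (.s k12 k174 12 (.s k4 k8 1 (.s k166 k247 12 (.s k38 k230 7 (.s k51 k25 6 (.s
  k17 k34 4 (.d k153 k221 k204 9 14)))))))] (.c k89 (.f k12 k174 12 (.q k166 [(.d k4 k8 k247 1 12),
  (.s k38 k230 7 (.s k51 k25 6 (.s k17 k34 4 (.d k153 k221 k204 9 14))))] (.c k8 (.q k251 [(.d k247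
  k243 k4 1 12), (.s k38 k230 7 (.s k51 k25 6 (.s k17 k34 4 (.d k153 k221 k204 9 14))))] .n) (.c
  k251 (.l (.s k8 k4 1 (.s k38 k230 7 (.s k51 k25 6 (.s k17 k34 4 (.d k153 k221 k204 9 14))))))
  .n)))) .n)) (.c k136 (.l (.s k119 k68 4 (.s k51 k187 9 (.s k153 k204 14 (.d k17 k34 k221 4 9)))))
  (.c k153 (.f k68 k119 4 (.q k4 [(.s k166 k247 12 (.s k12 k8 1 (.s k89 k243 14 (.d k93 k81 k174 1
  12)))), (.s k166 k247 12 (.s k38 k230 7 (.s k55 k21 4 (.d k196 k132 k149 7 12)))), (.s k12 k8 1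
  (.s k132 k196 7 (.s k72 k192 9 (.s k76 k64 1 (.d k204 k136 k140 9 7)))))] (.c k136 (.q k187 [(.s
  k166 k247 12 (.s k12 k8 1 (.s k89 k243 14 (.d k93 k81 k174 1 12)))), (.s k166 k247 12 (.s k38 k230
  7 (.s k55 k21 4 (.d k196 k132 k149 7 12)))), (.s k12 k8 1 (.s k132 k196 7 (.s k72 k192 9 (.s k76
  k64 1 (.s k89 k115 6 (.d k93 k81 k174 1 12))))))] .n) (.c k187 (.l (.s k136 k204 9 (.s k12 k8 1
  (.s k93 k174 12 (.s k89 k81 1 (.d k166 k247 k243 12 14)))))) .n)))) (.c k187 (.l (.s k68 k119 4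
  (.s k204 k136 9 (.s k153 k51 14 (.d k221 k238 k17 4 9))))) (.c k204 (.q k4 [(.s k12 k8 1 (.s k93
  k174 12 (.s k166 k247 12 (.d k89 k81 k243 1 14)))), (.s k68 k119 4 (.s k166 k247 12 (.s k38 k230 7
  (.s k55 k21 4 (.d k196 k132 k149 7 12))))), (.s k12 k8 1 (.s k119 k68 4 (.s k51 k187 9 (.s k34 k17
  4 (.s k38 k25 6 (.s k21 k55 4 (.d k42 k46 k63 1 6)))))))] .n) (.c k221 (.q k3 [(.s k68 k119 4 (.s
  k87 k171 13 (.s k86 k84 0 (.s k70 k118 3 (.d k204 k136 k137 9 10))))), (.s k87 k171 13 (.s k119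
  k68 4 (.s k51 k187 9 (.s k19 k35 3 (.s k103 k71 3 (.d k155 k223 k207 9 13)))))), (.s k87 k171 13
  (.s k86 k84 0 (.s k70 k118 3 (.s k169 k252 14 (.s k35 k236 10 (.s k51 k19 3 (.d k204 k137 k153 10
  14))))))), (.s k68 k119 4 (.s k204 k136 9 (.s k70 k137 10 (.s k86 k118 3 (.s k153 k51 14 (.s k220
  k19 10 (.d k252 k236 k169 3 14)))))))] (.c k70 (.l (.s k87 k171 13 (.s k86 k84 0 (.s k119 k68 4
  (.s k51 k187 9 (.s k19 k35 3 (.d k153 k220 k204 10 14))))))) (.c k169 (.l (.s k68 k119 4 (.s k204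
  k136 9 (.s k70 k137 10 (.s k86 k118 3 (.d k87 k84 k171 0 13)))))) .n))) (.c k238 (.l (.s k119 k68
  4 (.s k51 k187 9 (.s k17 k34 4 (.d k153 k221 k204 9 14))))) .n))))))))))))

def t1_24 : T TT 256 :=
  (.f k255 k170 14 (.q k102 [(.s k68 k119 4 (.s k204 k136 9 (.s k153 k51 14 (.d k221 k238 k17 4
  9))))] (.c k17 (.f k119 k68 4 (.f k51 k187 9 (.f k153 k204 14 (.q k49 [(.s k48 k50 0 (.s k101 k205
  13 (.d k117 k69 k186 3 10))), (.s k48 k50 0 (.s k117 k186 10 (.s k118 k116 0 (.d k185 k253 k252 9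
  10)))), (.s k101 k205 13 (.s k69 k117 3 (.s k207 k138 10 (.d k103 k100 k155 0 13)))), (.s k48 k50
  0 (.s k16 k32 3 (.s k154 k223 10 (.d k101 k205 k207 13 14))))] .n)))) (.c k51 (.q k4 [(.s k12 k8 1
  (.s k93 k174 12 (.s k166 k247 12 (.d k89 k81 k243 1 14)))), (.s k68 k119 4 (.s k166 k247 12 (.s
  k38 k230 7 (.s k55 k21 4 (.d k196 k132 k149 7 12))))), (.s k12 k8 1 (.s k68 k119 4 (.s k132 k196 7
  (.s k72 k192 9 (.s k76 k64 1 (.d k204 k140 k136 7 9))))))] .n) (.c k68 (.q k64 [(.s k106 k127 6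
  (.s k192 k128 7 (.s k149 k63 14 (.d k213 k234 k21 6 7)))), (.s k106 k127 6 (.s k98 k110 1 (.s k81
  k115 4 (.s k243 k162 12 (.s k247 k251 1 (.s k166 k4 12 (.d k89 k93 k12 1 14)))))))] (.c k106 (.f
  k192 k128 7 (.q k149 [(.d k213 k234 k21 6 7), (.s k196 k55 12 (.s k204 k200 1 (.s k153 k51 14 (.d
  k221 k238 k17 4 9))))] (.c k42 (.l (.s k234 k213 6 (.s k196 k55 12 (.s k204 k200 1 (.s k153 k51 14
  (.d k221 k238 k17 4 9)))))) (.c k234 (.q k42 [(.d k21 k63 k213 6 7), (.s k196 k55 12 (.s k204 k200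
  1 (.s k221 k238 4 (.d k153 k17 k51 9 14))))] .n) .n)))) (.c k127 (.l (.s k192 k128 7 (.s k213 k234
  6 (.s k149 k21 7 (.s k196 k55 12 (.s k204 k200 1 (.s k153 k51 14 (.d k221 k238 k17 4 9))))))))
  .n))) (.c k119 (.q k247 [(.s k166 k4 12 (.s k243 k251 1 (.s k81 k162 12 (.d k89 k93 k12 1 14)))),
  (.s k166 k4 12 (.s k230 k38 7 (.s k213 k196 4 (.s k192 k234 6 (.s k64 k128 7 (.s k106 k127 6 (.d
  k149 k21 k63 7 14)))))))] (.c k4 (.l (.s k243 k251 1 (.s k81 k162 12 (.s k89 k93 1 (.s k115 k76 6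
  (.s k51 k179 7 (.s k17 k34 4 (.d k153 k221 k204 9 14)))))))) (.c k166 (.f k243 k251 1 (.q k89 [(.d
  k81 k162 k93 12 1), (.s k115 k76 6 (.s k51 k179 7 (.s k17 k34 4 (.d k153 k221 k204 9 14))))] (.c
  k162 (.q k174 [(.d k93 k81 k12 1 12), (.s k115 k76 6 (.s k51 k179 7 (.s k17 k34 4 (.d k153 k221
  k204 9 14))))] .n) (.c k174 (.l (.s k162 k81 12 (.s k115 k76 6 (.s k51 k179 7 (.s k17 k34 4 (.d
  k153 k221 k204 9 14)))))) .n)))) .n))) (.c k136 (.l (.s k119 k68 4 (.s k51 k187 9 (.s k153 k204 14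
  (.d k17 k34 k221 4 9))))) (.c k153 (.f k68 k119 4 (.q k4 [(.s k166 k247 12 (.s k38 k230 7 (.s k55
  k21 4 (.d k196 k132 k149 7 12)))), (.s k12 k8 1 (.s k93 k174 12 (.s k89 k81 1 (.s k76 k115 6 (.d
  k204 k136 k140 9 7)))))] (.c k136 (.q k187 [(.s k166 k247 12 (.s k38 k230 7 (.s k55 k21 4 (.d k196
  k132 k149 7 12)))), (.s k12 k8 1 (.s k93 k174 12 (.s k89 k81 1 (.s k76 k115 6 (.s k127 k110 4 (.d
  k64 k72 k106 1 6))))))] (.c k166 (.l (.s k12 k8 1 (.s k132 k196 7 (.s k72 k192 9 (.s k76 k64 1 (.s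
  k89 k115 6 (.d k93 k81 k174 1 12))))))) .n)) (.c k166 (.l (.s k12 k8 1 (.s k132 k196 7 (.s k72
  k192 9 (.s k76 k64 1 (.d k204 k140 k136 7 9)))))) (.c k187 (.l (.s k136 k204 9 (.s k12 k8 1 (.s
  k93 k174 12 (.s k89 k81 1 (.d k166 k247 k243 12 14)))))) .n))))) (.c k187 (.l (.s k68 k119 4 (.s
  k204 k136 9 (.s k153 k51 14 (.d k221 k238 k17 4 9))))) (.c k204 (.q k4 [(.s k12 k8 1 (.s k93 k174
  12 (.s k166 k247 12 (.d k89 k81 k243 1 14)))), (.s k68 k119 4 (.s k166 k247 12 (.s k38 k230 7 (.s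
  k55 k21 4 (.d k196 k132 k149 7 12))))), (.s k12 k8 1 (.s k119 k68 4 (.s k51 k187 9 (.s k34 k17 4
  (.s k38 k25 6 (.s k21 k55 4 (.d k42 k46 k63 1 6)))))))] .n) (.c k221 (.q k3 [(.s k68 k119 4 (.s
  k87 k171 13 (.s k86 k84 0 (.s k70 k118 3 (.d k204 k136 k137 9 10))))), (.s k87 k171 13 (.s k119
  k68 4 (.s k51 k187 9 (.s k19 k35 3 (.s k103 k71 3 (.d k155 k223 k207 9 13)))))), (.s k87 k171 13
  (.s k86 k84 0 (.s k70 k118 3 (.s k169 k252 14 (.s k35 k236 10 (.s k51 k19 3 (.d k204 k137 k153 10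
  14))))))), (.s k68 k119 4 (.s k204 k136 9 (.s k70 k137 10 (.s k86 k118 3 (.s k153 k51 14 (.s k220
  k19 10 (.d k252 k236 k169 3 14)))))))] (.c k70 (.l (.s k87 k171 13 (.s k86 k84 0 (.s k119 k68 4
  (.s k51 k187 9 (.s k19 k35 3 (.d k153 k220 k204 10 14))))))) (.c k169 (.l (.s k68 k119 4 (.s k204
  k136 9 (.s k70 k137 10 (.s k86 k118 3 (.d k87 k84 k171 0 13)))))) .n))) (.c k238 (.l (.s k119 k68
  4 (.s k51 k187 9 (.s k17 k34 4 (.d k153 k221 k204 9 14))))) .n))))))))))))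

def t1_25 : T TT 256 :=
  (.f k255 k170 14 (.q k102 [(.s k68 k119 4 (.s k204 k136 9 (.s k221 k238 4 (.d k153 k17 k51 9
  14))))] (.c k17 (.q k21 [(.s k149 k213 7 (.s k63 k42 6 (.s k106 k192 14 (.d k127 k64 k191 6 7)))),
  (.s k119 k68 4 (.s k149 k213 7 (.s k55 k196 12 (.s k4 k38 4 (.d k247 k183 k166 7 12))))), (.s k63
  k42 6 (.s k68 k119 4 (.s k204 k136 9 (.s k110 k157 12 (.s k106 k98 1 (.d k127 k64 k191 6 7))))))]
  (.c k33 (.q k49 [(.s k149 k213 7 (.s k63 k42 6 (.s k106 k192 14 (.d k127 k64 k191 6 7)))), (.s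
  k119 k68 4 (.s k149 k213 7 (.s k55 k196 12 (.s k4 k38 4 (.d k247 k183 k166 7 12))))), (.s k63 k42
  6 (.s k68 k119 4 (.s k204 k136 9 (.s k110 k157 12 (.s k106 k98 1 (.d k127 k64 k191 6 7))))))] .n)
  (.c k49 (.q k33 [(.s k149 k213 7 (.s k63 k42 6 (.s k106 k192 14 (.d k127 k64 k191 6 7)))), (.s
  k119 k68 4 (.s k149 k213 7 (.s k55 k196 12 (.s k4 k38 4 (.d k247 k183 k166 7 12))))), (.s k63 k42
  6 (.s k68 k119 4 (.s k204 k136 9 (.s k110 k157 12 (.s k106 k98 1 (.d k127 k64 k191 6 7))))))] (.c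
  k13 (.q k37 [(.s k149 k213 7 (.s k63 k42 6 (.s k106 k192 14 (.d k127 k64 k191 6 7)))), (.s k5 k53
  3 (.s k15 k10 2 (.s k95 k175 11 (.s k90 k80 2 (.d k165 k245 k240 11 14)))))] (.c k5 (.q k9 [(.s
  k149 k213 7 (.s k63 k42 6 (.s k106 k192 14 (.d k127 k64 k191 6 7)))), (.s k119 k68 4 (.s k149 k213
  7 (.s k55 k196 12 (.s k4 k38 4 (.d k247 k183 k166 7 12))))), (.s k41 k45 1 (.s k42 k63 6 (.s k32
  k47 2 (.s k35 k34 0 (.s k40 k43 0 (.d k44 k36 k38 1 2))))))] .n) (.c k9 (.l (.s k5 k53 3 (.s k15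
  k10 2 (.s k26 k48 6 (.s k31 k16 2 (.d k63 k47 k42 3 6)))))) .n))) (.c k37 (.q k13 [(.s k149 k213 7
  (.s k63 k42 6 (.s k106 k192 14 (.d k127 k64 k191 6 7)))), (.s k119 k68 4 (.s k149 k213 7 (.s k55
  k196 12 (.s k4 k38 4 (.d k247 k183 k166 7 12))))), (.s k63 k42 6 (.s k68 k119 4 (.s k204 k136 9
  (.s k110 k157 12 (.s k106 k98 1 (.d k127 k64 k191 6 7))))))] .n) .n))) .n))) (.c k51 (.q k12 [(.s
  k4 k8 1 (.s k93 k174 12 (.s k166 k247 12 (.d k89 k81 k243 1 14)))), (.s k8 k4 1 (.s k68 k119 4 (.s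
  k136 k204 9 (.s k72 k200 7 (.s k64 k76 1 (.d k192 k128 k132 7 9)))))), (.s k68 k119 4 (.s k93 k174
  12 (.s k89 k81 1 (.s k76 k115 6 (.d k204 k140 k136 7 9)))))] .n) (.c k68 (.q k213 [(.s k192 k234 6
  (.s k64 k128 7 (.s k106 k127 6 (.d k149 k21 k63 7 14)))), (.s k149 k21 7 (.s k196 k55 12 (.s k247
  k230 4 (.s k243 k251 1 (.s k81 k162 12 (.s k89 k93 1 (.d k166 k4 k12 12 14)))))))] (.c k21 (.l (.s
  k192 k234 6 (.s k64 k128 7 (.s k106 k127 6 (.s k98 k110 1 (.s k51 k145 12 (.s k17 k34 4 (.d k153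
  k221 k204 9 14)))))))) (.c k149 (.f k192 k234 6 (.q k106 [(.d k64 k128 k127 7 6), (.s k98 k110 1
  (.s k51 k145 12 (.s k17 k34 4 (.d k153 k221 k204 9 14))))] (.c k128 (.q k191 [(.d k127 k64 k63 6
  7), (.s k98 k110 1 (.s k51 k145 12 (.s k17 k34 4 (.d k153 k221 k204 9 14))))] .n) (.c k191 (.l (.s
  k128 k64 7 (.s k98 k110 1 (.s k51 k145 12 (.s k17 k34 4 (.d k153 k221 k204 9 14)))))) .n)))) .n)))
  (.c k119 (.q k247 [(.s k166 k4 12 (.s k243 k251 1 (.s k81 k162 12 (.d k89 k93 k12 1 14)))), (.s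
  k166 k4 12 (.s k230 k38 7 (.s k213 k196 4 (.s k192 k234 6 (.s k64 k128 7 (.s k106 k127 6 (.d k149
  k21 k63 7 14))))))), (.s k243 k251 1 (.s k81 k162 12 (.s k89 k93 1 (.s k115 k76 6 (.s k51 k179 7
  (.s k17 k34 4 (.d k153 k221 k204 9 14)))))))] (.c k166 (.f k243 k251 1 (.q k89 [(.d k81 k162 k93
  12 1), (.s k115 k76 6 (.s k51 k179 7 (.s k17 k34 4 (.d k153 k221 k204 9 14))))] (.c k162 (.q k174
  [(.d k93 k81 k12 1 12), (.s k115 k76 6 (.s k51 k179 7 (.s k17 k34 4 (.d k153 k221 k204 9 14))))]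
  .n) (.c k174 (.l (.s k162 k81 12 (.s k115 k76 6 (.s k51 k179 7 (.s k17 k34 4 (.d k153 k221 k204 9
  14)))))) .n)))) .n)) (.c k136 (.l (.s k119 k68 4 (.s k51 k187 9 (.s k153 k204 14 (.d k17 k34 k221
  4 9))))) (.c k153 (.f k68 k119 4 (.q k89 [(.s k76 k115 6 (.s k64 k72 1 (.s k93 k81 1 (.d k127 k110
  k106 4 6)))), (.s k81 k93 1 (.s k243 k162 12 (.s k166 k12 14 (.d k247 k251 k4 1 12)))), (.s k76
  k115 6 (.s k64 k72 1 (.s k192 k128 7 (.s k213 k234 6 (.s k149 k21 7 (.d k106 k127 k63 6 14))))))]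
  (.c k136 (.q k187 [(.s k81 k93 1 (.s k243 k162 12 (.s k166 k12 14 (.d k247 k251 k4 1 12)))), (.s
  k76 k115 6 (.s k64 k72 1 (.s k192 k128 7 (.s k213 k234 6 (.s k149 k21 7 (.d k106 k127 k63 6
  14))))))] .n) (.c k187 (.l (.s k136 k204 9 (.s k76 k115 6 (.s k64 k72 1 (.s k93 k81 1 (.d k127
  k110 k106 4 6)))))) .n)))) (.c k187 (.l (.s k68 k119 4 (.s k204 k136 9 (.s k153 k51 14 (.d k221
  k238 k17 4 9))))) (.c k204 (.q k4 [(.s k12 k8 1 (.s k93 k174 12 (.s k166 k247 12 (.d k89 k81 k243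
  1 14)))), (.s k68 k119 4 (.s k166 k247 12 (.s k196 k132 7 (.s k55 k149 12 (.d k38 k21 k230 4
  7)))))] (.c k166 (.l (.s k68 k119 4 (.s k196 k132 7 (.s k149 k55 12 (.s k21 k213 7 (.s k63 k42 6
  (.s k106 k192 14 (.d k127 k64 k191 6 7)))))))) (.c k247 (.l (.s k12 k8 1 (.s k68 k119 4 (.s k93
  k174 12 (.s k89 k81 1 (.s k76 k115 6 (.s k64 k72 1 (.d k127 k110 k106 4 6)))))))) .n))) (.c k221
  (.q k3 [(.s k68 k119 4 (.s k87 k171 13 (.s k86 k84 0 (.s k70 k118 3 (.d k204 k136 k137 9 10))))),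
  (.s k87 k171 13 (.s k119 k68 4 (.s k51 k187 9 (.s k19 k35 3 (.s k103 k71 3 (.d k155 k223 k207 9
  13)))))), (.s k87 k171 13 (.s k86 k84 0 (.s k70 k118 3 (.s k169 k252 14 (.s k35 k236 10 (.s k51
  k19 3 (.d k204 k137 k153 10 14))))))), (.s k68 k119 4 (.s k204 k136 9 (.s k70 k137 10 (.s k86 k118
  3 (.s k153 k51 14 (.s k220 k19 10 (.d k252 k236 k169 3 14)))))))] (.c k70 (.l (.s k87 k171 13 (.s
  k86 k84 0 (.s k119 k68 4 (.s k51 k187 9 (.s k19 k35 3 (.d k153 k220 k204 10 14))))))) (.c k169 (.l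
  (.s k68 k119 4 (.s k204 k136 9 (.s k70 k137 10 (.s k86 k118 3 (.d k87 k84 k171 0 13)))))) .n)))
  (.c k238 (.l (.s k119 k68 4 (.s k51 k187 9 (.s k17 k34 4 (.d k153 k221 k204 9 14)))))
  .n))))))))))))

def t1_26 : T TT 256 :=
  (.f k255 k170 14 (.q k102 [(.s k68 k119 4 (.s k204 k136 9 (.s k153 k51 14 (.d k221 k238 k17 4
  9))))] (.c k17 (.f k119 k68 4 (.f k51 k187 9 (.f k153 k204 14 (.q k49 [(.s k48 k50 0 (.s k101 k205
  13 (.d k117 k69 k186 3 10))), (.s k48 k50 0 (.s k117 k186 10 (.s k118 k116 0 (.d k185 k253 k252 9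
  10)))), (.s k101 k205 13 (.s k69 k117 3 (.s k103 k100 0 (.d k207 k138 k155 10 13))))] (.c k48 (.l
  (.s k101 k205 13 (.s k69 k117 3 (.s k207 k138 10 (.d k103 k100 k155 0 13))))) (.c k117 (.l (.s k48
  k50 0 (.s k16 k32 3 (.s k101 k205 13 (.d k154 k207 k223 14 10))))) .n)))))) (.c k51 (.q k4 [(.s
  k12 k8 1 (.s k93 k174 12 (.s k166 k247 12 (.d k89 k81 k243 1 14)))), (.s k68 k119 4 (.s k166 k247
  12 (.s k38 k230 7 (.s k55 k21 4 (.d k196 k132 k149 7 12))))), (.s k12 k8 1 (.s k68 k119 4 (.s k132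
  k196 7 (.s k72 k192 9 (.s k76 k64 1 (.d k204 k140 k136 7 9))))))] .n) (.c k68 (.q k4 [(.s k166
  k247 12 (.s k12 k8 1 (.s k89 k243 14 (.d k93 k81 k174 1 12)))), (.s k166 k247 12 (.s k38 k230 7
  (.s k21 k55 4 (.s k63 k42 6 (.s k127 k191 7 (.s k106 k64 6 (.d k149 k213 k192 7 14)))))))] (.c
  k166 (.f k12 k8 1 (.q k89 [(.d k93 k174 k81 12 1), (.s k76 k115 6 (.s k204 k140 7 (.s k153 k51 14
  (.d k221 k238 k17 4 9))))] (.c k162 (.l (.s k174 k93 12 (.s k76 k115 6 (.s k204 k140 7 (.s k153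
  k51 14 (.d k221 k238 k17 4 9)))))) (.c k174 (.q k162 [(.d k81 k93 k243 1 12), (.s k76 k115 6 (.s
  k204 k140 7 (.s k221 k238 4 (.d k153 k17 k51 9 14))))] .n) .n)))) (.c k247 (.l (.s k12 k8 1 (.s
  k93 k174 12 (.s k89 k81 1 (.s k76 k115 6 (.s k204 k140 7 (.s k153 k51 14 (.d k221 k238 k17 4
  9)))))))) .n))) (.c k119 (.q k247 [(.s k166 k4 12 (.s k243 k251 1 (.s k81 k162 12 (.d k89 k93 k12
  1 14)))), (.s k166 k4 12 (.s k230 k38 7 (.s k213 k196 4 (.s k192 k234 6 (.s k64 k128 7 (.s k106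
  k127 6 (.d k149 k21 k63 7 14)))))))] (.c k4 (.l (.s k243 k251 1 (.s k81 k162 12 (.s k89 k93 1 (.s
  k115 k76 6 (.s k51 k179 7 (.s k17 k34 4 (.d k153 k221 k204 9 14)))))))) (.c k166 (.f k243 k251 1
  (.q k89 [(.d k81 k162 k93 12 1), (.s k115 k76 6 (.s k51 k179 7 (.s k17 k34 4 (.d k153 k221 k204 9
  14))))] (.c k162 (.q k174 [(.d k93 k81 k12 1 12), (.s k115 k76 6 (.s k51 k179 7 (.s k17 k34 4 (.d
  k153 k221 k204 9 14))))] .n) (.c k174 (.l (.s k162 k81 12 (.s k115 k76 6 (.s k51 k179 7 (.s k17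
  k34 4 (.d k153 k221 k204 9 14)))))) .n)))) .n))) (.c k136 (.l (.s k119 k68 4 (.s k51 k187 9 (.s
  k153 k204 14 (.d k17 k34 k221 4 9))))) (.c k153 (.f k68 k119 4 (.q k4 [(.s k166 k247 12 (.s k12 k8
  1 (.s k89 k243 14 (.d k93 k81 k174 1 12)))), (.s k166 k247 12 (.s k38 k230 7 (.s k55 k21 4 (.d
  k196 k132 k149 7 12)))), (.s k12 k8 1 (.s k132 k196 7 (.s k72 k192 9 (.s k76 k64 1 (.d k204 k136
  k140 9 7)))))] (.c k136 (.q k187 [(.s k166 k247 12 (.s k12 k8 1 (.s k89 k243 14 (.d k93 k81 k174 1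
  12)))), (.s k166 k247 12 (.s k38 k230 7 (.s k55 k21 4 (.d k196 k132 k149 7 12)))), (.s k12 k8 1
  (.s k132 k196 7 (.s k72 k192 9 (.s k76 k64 1 (.s k89 k115 6 (.d k93 k81 k174 1 12))))))] .n) (.c
  k187 (.l (.s k136 k204 9 (.s k12 k8 1 (.s k93 k174 12 (.s k89 k81 1 (.d k166 k247 k243 12 14))))))
  .n)))) (.c k187 (.l (.s k68 k119 4 (.s k204 k136 9 (.s k153 k51 14 (.d k221 k238 k17 4 9))))) (.c
  k204 (.q k4 [(.s k12 k8 1 (.s k93 k174 12 (.s k166 k247 12 (.d k89 k81 k243 1 14)))), (.s k68 k119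
  4 (.s k166 k247 12 (.s k38 k230 7 (.s k55 k21 4 (.d k196 k132 k149 7 12))))), (.s k12 k8 1 (.s
  k119 k68 4 (.s k51 k187 9 (.s k34 k17 4 (.s k38 k25 6 (.s k21 k55 4 (.d k42 k46 k63 1 6)))))))]
  .n) (.c k221 (.q k3 [(.s k68 k119 4 (.s k87 k171 13 (.s k86 k84 0 (.s k70 k118 3 (.d k204 k136
  k137 9 10))))), (.s k87 k171 13 (.s k119 k68 4 (.s k51 k187 9 (.s k19 k35 3 (.s k103 k71 3 (.d
  k155 k223 k207 9 13)))))), (.s k87 k171 13 (.s k86 k84 0 (.s k70 k118 3 (.s k169 k252 14 (.s k35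
  k236 10 (.s k51 k19 3 (.d k204 k137 k153 10 14))))))), (.s k68 k119 4 (.s k204 k136 9 (.s k70 k137
  10 (.s k86 k118 3 (.s k153 k51 14 (.s k220 k19 10 (.d k252 k236 k169 3 14)))))))] (.c k70 (.l (.s
  k87 k171 13 (.s k86 k84 0 (.s k119 k68 4 (.s k51 k187 9 (.s k19 k35 3 (.d k153 k220 k204 10
  14))))))) (.c k169 (.l (.s k68 k119 4 (.s k204 k136 9 (.s k70 k137 10 (.s k86 k118 3 (.d k87 k84
  k171 0 13)))))) .n))) (.c k238 (.l (.s k119 k68 4 (.s k51 k187 9 (.s k17 k34 4 (.d k153 k221 k204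
  9 14))))) .n))))))))))))

def t1_27 : T TT 256 :=
  (.f k255 k170 14 (.q k101 [(.s k69 k117 3 (.s k207 k138 10 (.s k154 k48 14 (.d k223 k239 k16 3
  10))))] (.c k16 (.q k3 [(.s k69 k117 3 (.s k87 k171 13 (.s k86 k84 0 (.s k207 k138 10 (.d k71 k116
  k139 4 9))))), (.s k69 k117 3 (.s k207 k138 10 (.s k71 k139 9 (.s k68 k70 0 (.s k102 k119 4 (.s
  k100 k103 0 (.d k116 k84 k86 3 4))))))), (.s k69 k117 3 (.s k87 k171 13 (.s k86 k84 0 (.s k71 k116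
  4 (.s k68 k70 0 (.d k119 k103 k102 3 4)))))), (.s k69 k117 3 (.s k87 k171 13 (.s k207 k138 10 (.s
  k71 k139 9 (.s k68 k70 0 (.d k119 k103 k102 3 4))))))] (.c k69 (.l (.s k87 k171 13 (.s k86 k84 0
  (.s k71 k116 4 (.s k103 k119 3 (.s k207 k139 9 (.s k155 k51 13 (.d k223 k239 k19 3 9)))))))) (.c
  k71 (.l (.s k87 k171 13 (.s k86 k84 0 (.s k117 k69 3 (.s k48 k186 10 (.s k18 k33 4 (.d k154 k222
  k207 9 14))))))) (.c k117 (.l (.s k87 k171 13 (.s k86 k84 0 (.s k71 k116 4 (.s k119 k103 3 (.s k68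
  k102 4 (.s k69 k70 0 (.d k207 k139 k138 9 10)))))))) .n)))) (.c k48 (.q k4 [(.s k12 k8 1 (.s k93
  k174 12 (.s k166 k247 12 (.d k89 k81 k243 1 14)))), (.s k69 k117 3 (.s k166 k247 12 (.s k36 k231 8
  (.s k52 k20 3 (.d k199 k134 k150 8 12))))), (.s k12 k8 1 (.s k69 k117 3 (.s k134 k199 8 (.s k73
  k195 10 (.s k77 k65 1 (.d k207 k142 k138 8 10))))))] .n) (.c k69 (.q k90 [(.s k80 k95 2 (.s k240
  k160 11 (.s k245 k250 2 (.d k165 k5 k15 11 14)))), (.s k79 k112 6 (.s k95 k80 2 (.s k127 k111 3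
  (.s k63 k191 7 (.s k21 k42 6 (.s k149 k213 7 (.d k106 k64 k192 6 14)))))))] (.c k80 (.q k154 [(.s
  k16 k223 10 (.d k48 k32 k207 3 14)), (.s k26 k218 7 (.s k48 k207 14 (.s k15 k37 6 (.s k5 k10 2 (.d
  k165 k240 k245 14 11)))))] (.c k48 (.l (.s k79 k112 6 (.s k218 k26 7 (.s k223 k16 10 (.s k207 k239
  3 (.s k15 k143 7 (.d k240 k229 k165 6 14))))))) (.c k137 (.q k205 [(.s k16 k223 10 (.d k48 k32
  k207 3 14)), (.s k153 k49 13 (.s k17 k221 9 (.s k51 k34 4 (.s k102 k204 14 (.d k119 k68 k187 4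
  9)))))] .n) (.c k205 (.q k137 [(.s k16 k223 10 (.d k48 k32 k207 3 14)), (.s k26 k218 7 (.s k48
  k207 14 (.s k15 k37 6 (.s k5 k10 2 (.d k165 k240 k245 14 11)))))] (.c k48 (.l (.s k79 k112 6 (.s
  k218 k26 7 (.s k223 k16 10 (.s k207 k239 3 (.s k15 k143 7 (.d k240 k229 k165 6 14))))))) (.c k207
  (.l (.s k16 k223 10 (.s k26 k218 7 (.s k48 k32 3 (.s k15 k37 6 (.s k5 k10 2 (.d k165 k240 k245 14
  11))))))) .n))) (.c k207 (.l (.s k16 k223 10 (.s k26 k218 7 (.s k48 k32 3 (.s k15 k37 6 (.s k5 k10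
  2 (.d k165 k240 k245 14 11))))))) .n))))) (.c k95 (.f k79 k112 6 (.q k5 [(.s k15 k10 2 (.d k165
  k245 k240 11 14)), (.s k165 k245 11 (.s k37 k229 7 (.s k21 k53 3 (.s k63 k42 6 (.s k127 k191 7 (.s
  k106 k64 6 (.d k149 k213 k192 7 14))))))), (.s k15 k10 2 (.s k207 k143 7 (.s k154 k48 14 (.d k223
  k239 k16 3 10))))] (.c k137 (.q k205 [(.s k15 k10 2 (.d k165 k245 k240 11 14)), (.s k153 k49 13
  (.s k17 k221 9 (.s k51 k34 4 (.s k102 k204 14 (.d k119 k68 k187 4 9)))))] .n) (.c k205 (.q k137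
  [(.s k15 k10 2 (.d k165 k245 k240 11 14)), (.s k165 k245 11 (.s k37 k229 7 (.s k21 k53 3 (.s k63
  k42 6 (.s k127 k191 7 (.s k106 k64 6 (.d k149 k213 k192 7 14))))))), (.s k15 k10 2 (.s k207 k143 7
  (.s k154 k48 14 (.d k223 k239 k16 3 10))))] .n) .n)))) (.c k137 (.q k205 [(.s k80 k95 2 (.s k240
  k160 11 (.s k245 k250 2 (.d k165 k5 k15 11 14)))), (.s k153 k49 13 (.s k17 k221 9 (.s k51 k34 4
  (.s k102 k204 14 (.d k119 k68 k187 4 9)))))] .n) (.c k205 (.q k137 [(.s k80 k95 2 (.s k240 k160 11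
  (.s k245 k250 2 (.d k165 k5 k15 11 14)))), (.s k79 k112 6 (.s k95 k80 2 (.s k127 k111 3 (.s k63
  k191 7 (.s k21 k42 6 (.s k149 k213 7 (.d k106 k64 k192 6 14)))))))] (.c k80 (.q k3 [(.s k204 k70
  10 (.s k68 k136 9 (.s k102 k119 4 (.s k221 k238 4 (.d k153 k17 k51 9 14))))), (.s k87 k171 13 (.s
  k86 k84 0 (.s k82 k94 1 (.s k240 k161 12 (.s k165 k15 14 (.d k245 k250 k5 2 11))))))] (.c k51 (.l
  (.s k70 k204 10 (.s k87 k171 13 (.s k86 k84 0 (.s k71 k116 4 (.s k102 k118 3 (.d k103 k100 k119 0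
  3))))))) .n)) (.c k95 (.q k3 [(.s k204 k70 10 (.s k68 k136 9 (.s k102 k119 4 (.s k221 k238 4 (.d
  k153 k17 k51 9 14))))), (.s k87 k171 13 (.s k86 k84 0 (.s k82 k94 1 (.s k240 k161 12 (.s k165 k15
  14 (.d k245 k250 k5 2 11))))))] (.c k51 (.l (.s k70 k204 10 (.s k87 k171 13 (.s k86 k84 0 (.s k71
  k116 4 (.s k102 k118 3 (.d k103 k100 k119 0 3))))))) .n)) .n))) .n))))) (.c k117 (.q k247 [(.s
  k166 k4 12 (.s k243 k251 1 (.s k81 k162 12 (.d k89 k93 k12 1 14)))), (.s k166 k4 12 (.s k231 k36 8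
  (.s k215 k199 3 (.s k195 k235 5 (.s k65 k130 8 (.s k105 k125 5 (.d k150 k20 k60 8 14)))))))] (.c
  k4 (.l (.s k243 k251 1 (.s k81 k162 12 (.s k89 k93 1 (.s k113 k77 5 (.s k48 k178 8 (.s k16 k32 3
  (.d k154 k223 k207 10 14)))))))) (.c k166 (.f k243 k251 1 (.q k89 [(.d k81 k162 k93 12 1), (.s
  k113 k77 5 (.s k48 k178 8 (.s k16 k32 3 (.d k154 k223 k207 10 14))))] (.c k162 (.q k174 [(.d k93
  k81 k12 1 12), (.s k113 k77 5 (.s k48 k178 8 (.s k16 k32 3 (.d k154 k223 k207 10 14))))] .n) (.c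
  k174 (.l (.s k162 k81 12 (.s k113 k77 5 (.s k48 k178 8 (.s k16 k32 3 (.d k154 k223 k207 10
  14)))))) .n)))) .n))) (.c k138 (.l (.s k117 k69 3 (.s k48 k186 10 (.s k154 k207 14 (.d k16 k32
  k223 3 10))))) (.c k154 (.f k69 k117 3 (.q k86 [(.s k71 k116 4 (.s k68 k70 0 (.s k87 k84 0 (.d
  k119 k103 k102 3 4)))), (.s k84 k87 0 (.s k252 k168 13 (.s k169 k3 14 (.s k237 k33 9 (.d k207 k138
  k222 10 4))))), (.s k71 k116 4 (.s k68 k70 0 (.s k204 k136 9 (.s k221 k238 4 (.s k153 k17 9 (.d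
  k102 k119 k51 4 14))))))] (.c k138 (.q k186 [(.s k71 k116 4 (.s k87 k84 0 (.s k119 k103 3 (.d k68
  k70 k102 0 4)))), (.s k84 k87 0 (.s k116 k71 4 (.s k252 k168 13 (.s k184 k48 9 (.s k185 k187 0 (.s
  k118 k51 10 (.d k254 k50 k253 9 0))))))), (.s k84 k87 0 (.s k252 k168 13 (.s k254 k253 0 (.s k118
  k50 9 (.s k102 k70 3 (.s k119 k68 4 (.d k51 k185 k187 10 9))))))), (.s k71 k116 4 (.s k68 k70 0
  (.s k204 k136 9 (.s k221 k238 4 (.s k153 k17 9 (.d k102 k119 k51 4 14))))))] (.c k118 (.l (.s k87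
  k84 0 (.s k71 k116 4 (.s k119 k103 3 (.d k68 k70 k102 0 4))))) (.c k119 (.l (.s k84 k87 0 (.s k252
  k168 13 (.s k254 k253 0 (.s k71 k116 4 (.s k118 k50 9 (.d k70 k102 k68 3 0))))))) .n))) (.c k186
  (.l (.s k138 k207 10 (.s k71 k116 4 (.s k68 k70 0 (.s k87 k84 0 (.d k119 k103 k102 3 4))))))
  .n)))) (.c k186 (.l (.s k69 k117 3 (.s k207 k138 10 (.s k154 k48 14 (.d k223 k239 k16 3 10)))))
  (.c k207 (.q k4 [(.s k12 k8 1 (.s k93 k174 12 (.s k166 k247 12 (.d k89 k81 k243 1 14)))), (.s k69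
  k117 3 (.s k166 k247 12 (.s k36 k231 8 (.s k52 k20 3 (.d k199 k134 k150 8 12))))), (.s k12 k8 1
  (.s k117 k69 3 (.s k48 k186 10 (.s k32 k16 3 (.s k36 k24 5 (.s k20 k52 3 (.d k40 k44 k60 1
  5)))))))] .n) (.c k223 (.q k3 [(.s k69 k117 3 (.s k87 k171 13 (.s k86 k84 0 (.s k207 k138 10 (.d
  k71 k116 k139 4 9))))), (.s k69 k117 3 (.s k87 k171 13 (.s k86 k84 0 (.s k71 k116 4 (.s k68 k70 0
  (.d k119 k103 k102 3 4)))))), (.s k69 k117 3 (.s k207 k138 10 (.s k71 k139 9 (.s k68 k70 0 (.s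
  k102 k119 4 (.s k100 k103 0 (.d k116 k84 k86 3 4))))))), (.s k69 k117 3 (.s k87 k171 13 (.s k207
  k138 10 (.s k71 k139 9 (.s k68 k70 0 (.d k119 k103 k102 3 4)))))), (.s k87 k171 13 (.s k86 k84 0
  (.s k71 k116 4 (.s k169 k252 14 (.s k33 k237 9 (.s k48 k18 4 (.d k207 k139 k154 9 14)))))))] (.c
  k71 (.l (.s k87 k171 13 (.s k86 k84 0 (.s k117 k69 3 (.s k48 k186 10 (.s k18 k33 4 (.d k154 k222
  k207 9 14))))))) .n)) (.c k239 (.l (.s k117 k69 3 (.s k48 k186 10 (.s k16 k32 3 (.d k154 k223 k207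
  10 14))))) .n))))))))))))

def t1_28 : T TT 256 :=
  (.f k255 k170 14 (.q k102 [(.s k68 k119 4 (.s k204 k136 9 (.s k153 k51 14 (.d k221 k238 k17 4
  9))))] (.c k17 (.f k119 k68 4 (.f k51 k187 9 (.f k153 k204 14 (.q k49 [(.s k48 k50 0 (.s k101 k205
  13 (.d k117 k69 k186 3 10))), (.s k48 k50 0 (.s k117 k186 10 (.s k118 k116 0 (.d k185 k253 k252 9
  10)))), (.s k101 k205 13 (.s k69 k117 3 (.s k207 k138 10 (.d k103 k100 k155 0 13)))), (.s k48 k50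
  0 (.s k16 k32 3 (.s k154 k223 10 (.d k101 k205 k207 13 14))))] .n)))) (.c k51 (.q k4 [(.s k12 k8 1
  (.s k93 k174 12 (.s k166 k247 12 (.d k89 k81 k243 1 14)))), (.s k68 k119 4 (.s k166 k247 12 (.s
  k38 k230 7 (.s k55 k21 4 (.d k196 k132 k149 7 12))))), (.s k12 k8 1 (.s k68 k119 4 (.s k132 k196 7
  (.s k72 k192 9 (.s k76 k64 1 (.d k204 k140 k136 7 9))))))] .n) (.c k68 (.q k4 [(.s k166 k247 12
  (.s k12 k8 1 (.s k89 k243 14 (.d k93 k81 k174 1 12)))), (.s k166 k247 12 (.s k38 k230 7 (.s k21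
  k55 4 (.s k63 k42 6 (.s k127 k191 7 (.s k106 k64 6 (.d k149 k213 k192 7 14)))))))] (.c k166 (.f
  k12 k8 1 (.q k89 [(.d k93 k174 k81 12 1), (.s k76 k115 6 (.s k204 k140 7 (.s k153 k51 14 (.d k221
  k238 k17 4 9))))] (.c k162 (.l (.s k174 k93 12 (.s k76 k115 6 (.s k204 k140 7 (.s k153 k51 14 (.d
  k221 k238 k17 4 9)))))) (.c k174 (.q k162 [(.d k81 k93 k243 1 12), (.s k76 k115 6 (.s k204 k140 7
  (.s k221 k238 4 (.d k153 k17 k51 9 14))))] .n) .n)))) (.c k247 (.l (.s k12 k8 1 (.s k93 k174 12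
  (.s k89 k81 1 (.s k76 k115 6 (.s k204 k140 7 (.s k153 k51 14 (.d k221 k238 k17 4 9)))))))) .n)))
  (.c k119 (.q k247 [(.s k166 k4 12 (.s k243 k251 1 (.s k81 k162 12 (.d k89 k93 k12 1 14)))), (.s
  k166 k4 12 (.s k230 k38 7 (.s k213 k196 4 (.s k192 k234 6 (.s k64 k128 7 (.s k106 k127 6 (.d k149
  k21 k63 7 14)))))))] (.c k4 (.l (.s k243 k251 1 (.s k81 k162 12 (.s k89 k93 1 (.s k115 k76 6 (.s
  k51 k179 7 (.s k17 k34 4 (.d k153 k221 k204 9 14)))))))) (.c k166 (.f k243 k251 1 (.q k89 [(.d k81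
  k162 k93 12 1), (.s k115 k76 6 (.s k51 k179 7 (.s k17 k34 4 (.d k153 k221 k204 9 14))))] (.c k162
  (.q k174 [(.d k93 k81 k12 1 12), (.s k115 k76 6 (.s k51 k179 7 (.s k17 k34 4 (.d k153 k221 k204 9
  14))))] .n) (.c k174 (.l (.s k162 k81 12 (.s k115 k76 6 (.s k51 k179 7 (.s k17 k34 4 (.d k153 k221
  k204 9 14)))))) .n)))) .n))) (.c k136 (.l (.s k119 k68 4 (.s k51 k187 9 (.s k153 k204 14 (.d k17
  k34 k221 4 9))))) (.c k153 (.f k68 k119 4 (.q k4 [(.s k166 k247 12 (.s k12 k8 1 (.s k89 k243 14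
  (.d k93 k81 k174 1 12)))), (.s k166 k247 12 (.s k38 k230 7 (.s k55 k21 4 (.d k196 k132 k149 7
  12)))), (.s k12 k8 1 (.s k132 k196 7 (.s k72 k192 9 (.s k76 k64 1 (.d k204 k136 k140 9 7)))))] (.c
  k136 (.q k187 [(.s k166 k247 12 (.s k38 k230 7 (.s k55 k21 4 (.d k196 k132 k149 7 12)))), (.s k12
  k8 1 (.s k93 k174 12 (.s k89 k81 1 (.s k76 k115 6 (.s k127 k110 4 (.d k64 k72 k106 1 6))))))] (.c
  k166 (.l (.s k12 k8 1 (.s k132 k196 7 (.s k72 k192 9 (.s k76 k64 1 (.s k89 k115 6 (.d k93 k81 k174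
  1 12))))))) .n)) (.c k187 (.l (.s k136 k204 9 (.s k12 k8 1 (.s k93 k174 12 (.s k89 k81 1 (.d k166
  k247 k243 12 14)))))) .n)))) (.c k187 (.l (.s k68 k119 4 (.s k204 k136 9 (.s k153 k51 14 (.d k221
  k238 k17 4 9))))) (.c k204 (.q k4 [(.s k12 k8 1 (.s k93 k174 12 (.s k166 k247 12 (.d k89 k81 k243
  1 14)))), (.s k68 k119 4 (.s k166 k247 12 (.s k38 k230 7 (.s k55 k21 4 (.d k196 k132 k149 7
  12))))), (.s k12 k8 1 (.s k119 k68 4 (.s k51 k187 9 (.s k34 k17 4 (.s k38 k25 6 (.s k21 k55 4 (.d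
  k42 k46 k63 1 6)))))))] .n) (.c k221 (.q k3 [(.s k68 k119 4 (.s k87 k171 13 (.s k86 k84 0 (.s k70
  k118 3 (.d k204 k136 k137 9 10))))), (.s k87 k171 13 (.s k119 k68 4 (.s k51 k187 9 (.s k19 k35 3
  (.s k103 k71 3 (.d k155 k223 k207 9 13)))))), (.s k87 k171 13 (.s k86 k84 0 (.s k70 k118 3 (.s
  k169 k252 14 (.s k35 k236 10 (.s k51 k19 3 (.d k204 k137 k153 10 14))))))), (.s k68 k119 4 (.s
  k204 k136 9 (.s k70 k137 10 (.s k86 k118 3 (.s k153 k51 14 (.s k220 k19 10 (.d k252 k236 k169 3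
  14)))))))] (.c k70 (.l (.s k87 k171 13 (.s k86 k84 0 (.s k119 k68 4 (.s k51 k187 9 (.s k19 k35 3
  (.d k153 k220 k204 10 14))))))) (.c k169 (.l (.s k68 k119 4 (.s k204 k136 9 (.s k70 k137 10 (.s
  k86 k118 3 (.d k87 k84 k171 0 13)))))) .n))) (.c k238 (.l (.s k119 k68 4 (.s k51 k187 9 (.s k17
  k34 4 (.d k153 k221 k204 9 14))))) .n))))))))))))

def t1_29 : T TT 256 :=
  (.f k255 k170 14 (.q k102 [(.s k68 k119 4 (.s k204 k136 9 (.s k153 k51 14 (.d k221 k238 k17 4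
  9))))] (.c k17 (.f k68 k119 4 (.q k21 [(.s k149 k213 7 (.s k63 k42 6 (.s k106 k192 14 (.d k127 k64
  k191 6 7)))), (.s k149 k213 7 (.s k204 k136 9 (.s k153 k51 14 (.s k157 k145 1 (.d k63 k42 k110 6
  12))))), (.s k63 k42 6 (.s k204 k136 9 (.s k110 k157 12 (.s k106 k98 1 (.d k127 k64 k191 6 7)))))]
  (.c k33 (.q k49 [(.s k149 k213 7 (.s k63 k42 6 (.s k106 k192 14 (.d k127 k64 k191 6 7)))), (.s
  k204 k136 9 (.s k153 k51 14 (.s k101 k205 13 (.s k100 k103 0 (.s k48 k152 13 (.d k117 k69 k186 3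
  10))))))] .n) (.c k42 (.l (.s k149 k213 7 (.s k196 k55 12 (.s k204 k136 9 (.s k192 k200 1 (.s k64
  k128 7 (.d k106 k127 k63 6 14))))))) (.c k49 (.q k33 [(.s k149 k213 7 (.s k63 k42 6 (.s k106 k192
  14 (.d k127 k64 k191 6 7)))), (.s k149 k213 7 (.s k204 k136 9 (.s k153 k51 14 (.s k157 k145 1 (.d
  k63 k42 k110 6 12))))), (.s k63 k42 6 (.s k204 k136 9 (.s k110 k157 12 (.s k106 k98 1 (.d k127 k64
  k191 6 7)))))] (.c k42 (.l (.s k149 k213 7 (.s k196 k55 12 (.s k204 k136 9 (.s k192 k200 1 (.s k64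
  k128 7 (.d k106 k127 k63 6 14))))))) (.c k63 (.l (.s k204 k136 9 (.s k213 k149 7 (.s k192 k234 6
  (.s k196 k200 1 (.s k4 k132 7 (.d k247 k166 k230 12 4))))))) .n))) (.c k63 (.l (.s k204 k136 9 (.s
  k213 k149 7 (.s k192 k234 6 (.s k196 k200 1 (.s k4 k132 7 (.d k247 k166 k230 12 4))))))) .n))))))
  (.c k51 (.q k4 [(.s k12 k8 1 (.s k93 k174 12 (.s k166 k247 12 (.d k89 k81 k243 1 14)))), (.s k68
  k119 4 (.s k166 k247 12 (.s k38 k230 7 (.s k55 k21 4 (.d k196 k132 k149 7 12))))), (.s k12 k8 1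
  (.s k68 k119 4 (.s k132 k196 7 (.s k72 k192 9 (.s k76 k64 1 (.d k204 k140 k136 7 9))))))] .n) (.c
  k68 (.q k4 [(.s k166 k247 12 (.s k12 k8 1 (.s k89 k243 14 (.d k93 k81 k174 1 12)))), (.s k166 k247
  12 (.s k38 k230 7 (.s k21 k55 4 (.s k63 k42 6 (.s k127 k191 7 (.s k106 k64 6 (.d k149 k213 k192 7
  14)))))))] (.c k166 (.f k12 k8 1 (.q k89 [(.d k93 k174 k81 12 1), (.s k76 k115 6 (.s k204 k140 7
  (.s k153 k51 14 (.d k221 k238 k17 4 9))))] (.c k162 (.l (.s k174 k93 12 (.s k76 k115 6 (.s k204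
  k140 7 (.s k153 k51 14 (.d k221 k238 k17 4 9)))))) (.c k174 (.q k162 [(.d k81 k93 k243 1 12), (.s
  k76 k115 6 (.s k204 k140 7 (.s k221 k238 4 (.d k153 k17 k51 9 14))))] .n) .n)))) (.c k247 (.l (.s
  k12 k8 1 (.s k93 k174 12 (.s k89 k81 1 (.s k76 k115 6 (.s k204 k140 7 (.s k153 k51 14 (.d k221
  k238 k17 4 9)))))))) .n))) (.c k119 (.q k247 [(.s k166 k4 12 (.s k243 k251 1 (.s k81 k162 12 (.d
  k89 k93 k12 1 14)))), (.s k166 k4 12 (.s k230 k38 7 (.s k213 k196 4 (.s k192 k234 6 (.s k64 k128 7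
  (.s k106 k127 6 (.d k149 k21 k63 7 14)))))))] (.c k4 (.l (.s k243 k251 1 (.s k81 k162 12 (.s k89
  k93 1 (.s k115 k76 6 (.s k51 k179 7 (.s k17 k34 4 (.d k153 k221 k204 9 14)))))))) (.c k166 (.f
  k243 k251 1 (.q k89 [(.d k81 k162 k93 12 1), (.s k115 k76 6 (.s k51 k179 7 (.s k17 k34 4 (.d k153
  k221 k204 9 14))))] (.c k162 (.q k174 [(.d k93 k81 k12 1 12), (.s k115 k76 6 (.s k51 k179 7 (.s
  k17 k34 4 (.d k153 k221 k204 9 14))))] .n) (.c k174 (.l (.s k162 k81 12 (.s k115 k76 6 (.s k51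
  k179 7 (.s k17 k34 4 (.d k153 k221 k204 9 14)))))) .n)))) .n))) (.c k136 (.l (.s k119 k68 4 (.s
  k51 k187 9 (.s k153 k204 14 (.d k17 k34 k221 4 9))))) (.c k153 (.f k68 k119 4 (.q k4 [(.s k166
  k247 12 (.s k12 k8 1 (.s k89 k243 14 (.d k93 k81 k174 1 12)))), (.s k166 k247 12 (.s k38 k230 7
  (.s k55 k21 4 (.d k196 k132 k149 7 12)))), (.s k12 k8 1 (.s k132 k196 7 (.s k72 k192 9 (.s k76 k64
  1 (.d k204 k136 k140 9 7)))))] (.c k136 (.q k187 [(.s k166 k247 12 (.s k12 k8 1 (.s k89 k243 14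
  (.d k93 k81 k174 1 12)))), (.s k166 k247 12 (.s k38 k230 7 (.s k55 k21 4 (.d k196 k132 k149 7
  12)))), (.s k12 k8 1 (.s k132 k196 7 (.s k72 k192 9 (.s k76 k64 1 (.s k89 k115 6 (.d k93 k81 k174
  1 12))))))] .n) (.c k187 (.l (.s k136 k204 9 (.s k12 k8 1 (.s k93 k174 12 (.s k89 k81 1 (.d k166
  k247 k243 12 14)))))) .n)))) (.c k187 (.l (.s k68 k119 4 (.s k204 k136 9 (.s k153 k51 14 (.d k221
  k238 k17 4 9))))) (.c k204 (.q k4 [(.s k12 k8 1 (.s k93 k174 12 (.s k166 k247 12 (.d k89 k81 k243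
  1 14)))), (.s k68 k119 4 (.s k166 k247 12 (.s k38 k230 7 (.s k55 k21 4 (.d k196 k132 k149 7
  12))))), (.s k12 k8 1 (.s k119 k68 4 (.s k51 k187 9 (.s k34 k17 4 (.s k38 k25 6 (.s k21 k55 4 (.d
  k42 k46 k63 1 6)))))))] .n) (.c k221 (.q k93 [(.s k12 k174 12 (.s k4 k8 1 (.s k166 k247 12 (.d k89
  k81 k243 1 14)))), (.s k68 k119 4 (.s k89 k81 1 (.s k76 k115 6 (.s k64 k72 1 (.d k127 k110 k106 4
  6))))), (.s k12 k174 12 (.s k68 k119 4 (.s k204 k136 9 (.s k76 k140 7 (.s k64 k72 1 (.d k127 k110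
  k106 4 6))))))] .n) (.c k238 (.l (.s k119 k68 4 (.s k51 k187 9 (.s k17 k34 4 (.d k153 k221 k204 9
  14))))) .n))))))))))))

def t1_30 : T TT 256 :=
  (.f k255 k170 14 (.q k102 [(.s k68 k119 4 (.s k204 k136 9 (.s k153 k51 14 (.d k221 k238 k17 4
  9))))] (.c k17 (.f k119 k68 4 (.f k51 k187 9 (.f k153 k204 14 (.q k49 [(.s k48 k50 0 (.s k101 k205
  13 (.d k117 k69 k186 3 10))), (.s k48 k50 0 (.s k117 k186 10 (.s k118 k116 0 (.d k185 k253 k252 9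
  10)))), (.s k101 k205 13 (.s k69 k117 3 (.s k207 k138 10 (.d k103 k100 k155 0 13)))), (.s k48 k50
  0 (.s k16 k32 3 (.s k154 k223 10 (.d k101 k205 k207 13 14))))] .n)))) (.c k51 (.q k4 [(.s k12 k8 1
  (.s k93 k174 12 (.s k166 k247 12 (.d k89 k81 k243 1 14)))), (.s k68 k119 4 (.s k166 k247 12 (.s
  k38 k230 7 (.s k55 k21 4 (.d k196 k132 k149 7 12))))), (.s k12 k8 1 (.s k68 k119 4 (.s k132 k196 7
  (.s k72 k192 9 (.s k76 k64 1 (.d k204 k140 k136 7 9))))))] .n) (.c k68 (.q k4 [(.s k166 k247 12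
  (.s k12 k8 1 (.s k89 k243 14 (.d k93 k81 k174 1 12)))), (.s k166 k247 12 (.s k38 k230 7 (.s k21
  k55 4 (.s k63 k42 6 (.s k127 k191 7 (.s k106 k64 6 (.d k149 k213 k192 7 14)))))))] (.c k166 (.f
  k12 k8 1 (.q k89 [(.d k93 k174 k81 12 1), (.s k76 k115 6 (.s k204 k140 7 (.s k153 k51 14 (.d k221
  k238 k17 4 9))))] (.c k162 (.l (.s k174 k93 12 (.s k76 k115 6 (.s k204 k140 7 (.s k153 k51 14 (.d
  k221 k238 k17 4 9)))))) (.c k174 (.q k162 [(.d k81 k93 k243 1 12), (.s k76 k115 6 (.s k204 k140 7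
  (.s k221 k238 4 (.d k153 k17 k51 9 14))))] .n) .n)))) (.c k247 (.l (.s k12 k8 1 (.s k93 k174 12
  (.s k89 k81 1 (.s k76 k115 6 (.s k204 k140 7 (.s k153 k51 14 (.d k221 k238 k17 4 9)))))))) .n)))
  (.c k119 (.q k247 [(.s k166 k4 12 (.s k243 k251 1 (.s k81 k162 12 (.d k89 k93 k12 1 14)))), (.s
  k166 k4 12 (.s k230 k38 7 (.s k213 k196 4 (.s k192 k234 6 (.s k64 k128 7 (.s k106 k127 6 (.d k149
  k21 k63 7 14)))))))] (.c k4 (.l (.s k243 k251 1 (.s k81 k162 12 (.s k89 k93 1 (.s k115 k76 6 (.s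
  k51 k179 7 (.s k17 k34 4 (.d k153 k221 k204 9 14)))))))) (.c k166 (.f k243 k251 1 (.q k89 [(.d k81
  k162 k93 12 1), (.s k115 k76 6 (.s k51 k179 7 (.s k17 k34 4 (.d k153 k221 k204 9 14))))] (.c k162
  (.q k174 [(.d k93 k81 k12 1 12), (.s k115 k76 6 (.s k51 k179 7 (.s k17 k34 4 (.d k153 k221 k204 9
  14))))] .n) (.c k174 (.l (.s k162 k81 12 (.s k115 k76 6 (.s k51 k179 7 (.s k17 k34 4 (.d k153 k221
  k204 9 14)))))) .n)))) .n))) (.c k136 (.l (.s k119 k68 4 (.s k51 k187 9 (.s k153 k204 14 (.d k17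
  k34 k221 4 9))))) (.c k153 (.f k68 k119 4 (.q k4 [(.s k166 k247 12 (.s k12 k8 1 (.s k89 k243 14
  (.d k93 k81 k174 1 12)))), (.s k166 k247 12 (.s k38 k230 7 (.s k55 k21 4 (.d k196 k132 k149 7
  12)))), (.s k12 k8 1 (.s k132 k196 7 (.s k72 k192 9 (.s k76 k64 1 (.d k204 k136 k140 9 7)))))] (.c
  k136 (.q k187 [(.s k166 k247 12 (.s k38 k230 7 (.s k55 k21 4 (.d k196 k132 k149 7 12)))), (.s k12
  k8 1 (.s k93 k174 12 (.s k89 k81 1 (.s k76 k115 6 (.s k127 k110 4 (.d k64 k72 k106 1 6))))))] (.c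
  k166 (.l (.s k12 k8 1 (.s k132 k196 7 (.s k72 k192 9 (.s k76 k64 1 (.s k89 k115 6 (.d k93 k81 k174
  1 12))))))) .n)) (.c k187 (.l (.s k136 k204 9 (.s k12 k8 1 (.s k93 k174 12 (.s k89 k81 1 (.d k166
  k247 k243 12 14)))))) .n)))) (.c k187 (.l (.s k68 k119 4 (.s k204 k136 9 (.s k153 k51 14 (.d k221
  k238 k17 4 9))))) (.c k204 (.q k4 [(.s k12 k8 1 (.s k93 k174 12 (.s k166 k247 12 (.d k89 k81 k243
  1 14)))), (.s k68 k119 4 (.s k166 k247 12 (.s k38 k230 7 (.s k55 k21 4 (.d k196 k132 k149 7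
  12))))), (.s k12 k8 1 (.s k119 k68 4 (.s k51 k187 9 (.s k34 k17 4 (.s k38 k25 6 (.s k21 k55 4 (.d
  k42 k46 k63 1 6)))))))] .n) (.c k221 (.q k3 [(.s k68 k119 4 (.s k87 k171 13 (.s k86 k84 0 (.s k70
  k118 3 (.d k204 k136 k137 9 10))))), (.s k87 k171 13 (.s k119 k68 4 (.s k51 k187 9 (.s k19 k35 3
  (.s k103 k71 3 (.d k155 k223 k207 9 13)))))), (.s k87 k171 13 (.s k86 k84 0 (.s k70 k118 3 (.s
  k169 k252 14 (.s k35 k236 10 (.s k51 k19 3 (.d k204 k137 k153 10 14))))))), (.s k68 k119 4 (.s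
  k204 k136 9 (.s k70 k137 10 (.s k86 k118 3 (.s k153 k51 14 (.s k220 k19 10 (.d k252 k236 k169 3
  14)))))))] (.c k70 (.l (.s k87 k171 13 (.s k86 k84 0 (.s k119 k68 4 (.s k51 k187 9 (.s k19 k35 3
  (.d k153 k220 k204 10 14))))))) (.c k169 (.l (.s k68 k119 4 (.s k204 k136 9 (.s k70 k137 10 (.s
  k86 k118 3 (.d k87 k84 k171 0 13)))))) .n))) (.c k238 (.l (.s k119 k68 4 (.s k51 k187 9 (.s k17
  k34 4 (.d k153 k221 k204 9 14))))) .n))))))))))))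

def t1_31 : T TT 256 :=
  (.f k255 k170 14 (.q k102 [(.s k68 k119 4 (.s k204 k136 9 (.s k153 k51 14 (.d k221 k238 k17 4
  9))))] (.c k17 (.f k119 k68 4 (.f k51 k187 9 (.f k153 k204 14 (.q k49 [(.s k48 k50 0 (.s k101 k205
  13 (.d k117 k69 k186 3 10))), (.s k48 k50 0 (.s k117 k186 10 (.s k118 k116 0 (.d k185 k253 k252 9
  10)))), (.s k101 k205 13 (.s k69 k117 3 (.s k207 k138 10 (.d k103 k100 k155 0 13)))), (.s k48 k50
  0 (.s k16 k32 3 (.s k154 k223 10 (.d k101 k205 k207 13 14))))] .n)))) (.c k51 (.q k4 [(.s k12 k8 1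
  (.s k93 k174 12 (.s k166 k247 12 (.d k89 k81 k243 1 14)))), (.s k68 k119 4 (.s k166 k247 12 (.s
  k38 k230 7 (.s k55 k21 4 (.d k196 k132 k149 7 12))))), (.s k12 k8 1 (.s k68 k119 4 (.s k132 k196 7
  (.s k72 k192 9 (.s k76 k64 1 (.d k204 k140 k136 7 9))))))] .n) (.c k68 (.q k4 [(.s k166 k247 12
  (.s k12 k8 1 (.s k89 k243 14 (.d k93 k81 k174 1 12)))), (.s k166 k247 12 (.s k38 k230 7 (.s k21
  k55 4 (.s k63 k42 6 (.s k127 k191 7 (.s k106 k64 6 (.d k149 k213 k192 7 14)))))))] (.c k166 (.f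
  k12 k8 1 (.q k89 [(.d k93 k174 k81 12 1), (.s k76 k115 6 (.s k204 k140 7 (.s k153 k51 14 (.d k221
  k238 k17 4 9))))] (.c k162 (.l (.s k174 k93 12 (.s k76 k115 6 (.s k204 k140 7 (.s k153 k51 14 (.d
  k221 k238 k17 4 9)))))) (.c k174 (.q k162 [(.d k81 k93 k243 1 12), (.s k76 k115 6 (.s k204 k140 7
  (.s k221 k238 4 (.d k153 k17 k51 9 14))))] .n) .n)))) (.c k247 (.l (.s k12 k8 1 (.s k93 k174 12
  (.s k89 k81 1 (.s k76 k115 6 (.s k204 k140 7 (.s k153 k51 14 (.d k221 k238 k17 4 9)))))))) .n)))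
  (.c k119 (.q k247 [(.s k166 k4 12 (.s k243 k251 1 (.s k81 k162 12 (.d k89 k93 k12 1 14)))), (.s
  k166 k4 12 (.s k230 k38 7 (.s k213 k196 4 (.s k192 k234 6 (.s k64 k128 7 (.s k106 k127 6 (.d k149
  k21 k63 7 14)))))))] (.c k4 (.l (.s k243 k251 1 (.s k81 k162 12 (.s k89 k93 1 (.s k115 k76 6 (.s
  k51 k179 7 (.s k17 k34 4 (.d k153 k221 k204 9 14)))))))) (.c k166 (.f k243 k251 1 (.q k89 [(.d k81
  k162 k93 12 1), (.s k115 k76 6 (.s k51 k179 7 (.s k17 k34 4 (.d k153 k221 k204 9 14))))] (.c k162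
  (.q k174 [(.d k93 k81 k12 1 12), (.s k115 k76 6 (.s k51 k179 7 (.s k17 k34 4 (.d k153 k221 k204 9
  14))))] .n) (.c k174 (.l (.s k162 k81 12 (.s k115 k76 6 (.s k51 k179 7 (.s k17 k34 4 (.d k153 k221
  k204 9 14)))))) .n)))) .n))) (.c k136 (.l (.s k119 k68 4 (.s k51 k187 9 (.s k153 k204 14 (.d k17
  k34 k221 4 9))))) (.c k153 (.f k68 k119 4 (.q k4 [(.s k166 k247 12 (.s k12 k8 1 (.s k89 k243 14
  (.d k93 k81 k174 1 12)))), (.s k166 k247 12 (.s k38 k230 7 (.s k55 k21 4 (.d k196 k132 k149 7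
  12)))), (.s k12 k8 1 (.s k132 k196 7 (.s k72 k192 9 (.s k76 k64 1 (.d k204 k136 k140 9 7)))))] (.c
  k136 (.q k187 [(.s k166 k247 12 (.s k12 k8 1 (.s k89 k243 14 (.d k93 k81 k174 1 12)))), (.s k166
  k247 12 (.s k38 k230 7 (.s k55 k21 4 (.d k196 k132 k149 7 12)))), (.s k12 k8 1 (.s k132 k196 7 (.s
  k72 k192 9 (.s k76 k64 1 (.s k89 k115 6 (.d k93 k81 k174 1 12))))))] .n) (.c k187 (.l (.s k136
  k204 9 (.s k12 k8 1 (.s k93 k174 12 (.s k89 k81 1 (.d k166 k247 k243 12 14)))))) .n)))) (.c k187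
  (.l (.s k68 k119 4 (.s k204 k136 9 (.s k153 k51 14 (.d k221 k238 k17 4 9))))) (.c k204 (.q k4 [(.s
  k12 k8 1 (.s k93 k174 12 (.s k166 k247 12 (.d k89 k81 k243 1 14)))), (.s k68 k119 4 (.s k166 k247
  12 (.s k38 k230 7 (.s k55 k21 4 (.d k196 k132 k149 7 12))))), (.s k12 k8 1 (.s k119 k68 4 (.s k51
  k187 9 (.s k34 k17 4 (.s k38 k25 6 (.s k21 k55 4 (.d k42 k46 k63 1 6)))))))] .n) (.c k221 (.q k3
  [(.s k68 k119 4 (.s k87 k171 13 (.s k86 k84 0 (.s k70 k118 3 (.d k204 k136 k137 9 10))))), (.s k87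
  k171 13 (.s k119 k68 4 (.s k51 k187 9 (.s k19 k35 3 (.s k103 k71 3 (.d k155 k223 k207 9 13)))))),
  (.s k87 k171 13 (.s k86 k84 0 (.s k70 k118 3 (.s k169 k252 14 (.s k35 k236 10 (.s k51 k19 3 (.d
  k204 k137 k153 10 14))))))), (.s k68 k119 4 (.s k204 k136 9 (.s k70 k137 10 (.s k86 k118 3 (.s
  k153 k51 14 (.s k220 k19 10 (.d k252 k236 k169 3 14)))))))] (.c k70 (.l (.s k87 k171 13 (.s k86
  k84 0 (.s k119 k68 4 (.s k51 k187 9 (.s k19 k35 3 (.d k153 k220 k204 10 14))))))) (.c k169 (.l (.s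
  k68 k119 4 (.s k204 k136 9 (.s k70 k137 10 (.s k86 k118 3 (.d k87 k84 k171 0 13)))))) .n))) (.c
  k238 (.l (.s k119 k68 4 (.s k51 k187 9 (.s k17 k34 4 (.d k153 k221 k204 9 14))))) .n))))))))))))

def t1_40 : T TT 256 :=
  (.f k170 k255 14 (.q k240 [(.s k80 k160 11 (.s k90 k95 2 (.s k10 k250 11 (.d k15 k5 k165 2 14))))]
  (.c k5 (.f k160 k80 11 (.q k176 [(.s k48 k112 7 (.s k32 k16 3 (.s k96 k224 7 (.d k144 k128 k192 3
  11)))), (.s k48 k112 7 (.s k165 k175 2 (.s k154 k143 6 (.s k138 k186 3 (.d k207 k69 k101 10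
  14))))), (.s k128 k144 3 (.s k149 k191 6 (.s k21 k213 7 (.s k63 k42 6 (.d k192 k64 k106 7 14)))))]
  (.c k9 (.q k13 [(.s k48 k112 7 (.s k32 k16 3 (.s k96 k224 7 (.d k144 k128 k192 3 11)))), (.s k48
  k112 7 (.s k165 k175 2 (.s k154 k143 6 (.s k138 k186 3 (.d k207 k69 k101 10 14))))), (.s k128 k144
  3 (.s k149 k191 6 (.s k21 k213 7 (.s k63 k42 6 (.d k192 k64 k106 7 14)))))] (.c k64 (.l (.s k144
  k128 3 (.s k48 k112 7 (.s k96 k192 11 (.d k32 k16 k224 3 7))))) .n)) (.c k13 (.q k9 [(.s k48 k112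
  7 (.s k32 k16 3 (.s k96 k224 7 (.d k144 k128 k192 3 11)))), (.s k48 k112 7 (.s k165 k175 2 (.s
  k154 k143 6 (.s k138 k186 3 (.d k207 k69 k101 10 14))))), (.s k128 k144 3 (.s k149 k191 6 (.s k21
  k213 7 (.s k63 k42 6 (.d k192 k64 k106 7 14)))))] (.c k64 (.l (.s k144 k128 3 (.s k48 k112 7 (.s
  k96 k192 11 (.d k32 k16 k224 3 7))))) .n)) (.c k64 (.l (.s k144 k128 3 (.s k48 k112 7 (.s k96 k192
  11 (.d k32 k16 k224 3 7))))) .n))))) (.c k10 (.q k4 [(.s k166 k247 12 (.s k162 k174 1 (.s k243 k81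
  12 (.d k12 k8 k89 1 14)))), (.s k12 k8 1 (.s k160 k80 11 (.s k164 k88 13 (.s k84 k244 11 (.d k168
  k172 k252 1 13))))), (.s k80 k160 11 (.s k90 k95 2 (.s k166 k247 12 (.s k242 k14 13 (.s k243 k241
  0 (.d k162 k81 k174 12 1))))))] .n) (.c k15 (.f k160 k80 11 (.f k175 k165 2 (.q k4 [(.s k12 k8 1
  (.s k166 k247 12 (.s k162 k174 1 (.d k243 k81 k89 12 14)))), (.s k12 k8 1 (.s k164 k88 13 (.s k84
  k244 11 (.d k168 k172 k252 1 13)))), (.s k166 k247 12 (.s k174 k162 1 (.s k172 k173 0 (.s k168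
  k164 1 (.d k169 k171 k163 0 2)))))] .n))) (.c k80 (.q k153 [(.s k17 k221 9 (.s k51 k34 4 (.s k136
  k187 4 (.d k204 k68 k102 9 14)))), (.s k136 k187 4 (.s k204 k68 9 (.s k216 k228 5 (.s k90 k27 8
  (.s k10 k250 11 (.d k15 k5 k165 2 14)))))), (.s k17 k221 9 (.s k51 k34 4 (.s k177 k114 8 (.s k165
  k141 5 (.s k5 k245 11 (.d k15 k10 k90 2 14))))))] (.c k51 (.q k145 [(.s k149 k157 1 (.s k21 k213 7
  (.s k63 k42 6 (.s k128 k191 6 (.d k192 k64 k106 7 14))))), (.s k17 k221 9 (.s k81 k209 7 (.s k162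
  k243 12 (.s k166 k174 1 (.d k179 k128 k140 4 6))))), (.s k17 k221 9 (.s k149 k157 1 (.s k21 k213 7
  (.s k29 k25 1 (.d k209 k81 k89 7 9))))), (.s k17 k221 9 (.s k149 k157 1 (.s k128 k191 6 (.s k162
  k179 4 (.d k81 k243 k209 12 7)))))] (.c k119 (.l (.s k187 k136 4 (.s k17 k221 9 (.s k81 k209 7 (.s
  k149 k157 1 (.s k128 k191 6 (.d k162 k179 k243 4 12))))))) (.c k187 (.q k119 [(.s k149 k157 1 (.s
  k21 k213 7 (.s k63 k42 6 (.s k128 k191 6 (.d k192 k64 k106 7 14))))), (.s k17 k221 9 (.s k81 k209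
  7 (.s k162 k243 12 (.s k166 k174 1 (.d k179 k128 k140 4 6))))), (.s k17 k221 9 (.s k149 k157 1 (.s
  k21 k213 7 (.s k29 k25 1 (.d k209 k81 k89 7 9))))), (.s k68 k102 4 (.s k136 k204 9 (.s k149 k157 1
  (.s k128 k191 6 (.s k140 k132 1 (.d k179 k162 k166 4 6))))))] .n) .n))) (.c k204 (.q k4 [(.s k12
  k8 1 (.s k166 k247 12 (.s k162 k174 1 (.d k243 k81 k89 12 14)))), (.s k8 k12 1 (.s k136 k187 4 (.s
  k200 k72 7 (.s k59 k106 12 (.s k25 k42 4 (.d k89 k217 k251 7 12)))))), (.s k136 k187 4 (.s k166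
  k247 12 (.s k140 k179 6 (.s k128 k132 1 (.s k174 k162 1 (.d k191 k157 k149 4 6))))))] (.c k174 (.l
  (.s k12 k8 1 (.s k164 k88 13 (.s k166 k247 12 (.s k165 k167 0 (.s k5 k245 11 (.d k15 k10 k90 2
  14))))))) (.c k221 (.q k238 [(.s k12 k8 1 (.s k166 k247 12 (.s k162 k174 1 (.d k243 k81 k89 12
  14)))), (.s k34 k102 9 (.s k51 k17 4 (.s k177 k114 8 (.s k165 k141 5 (.s k5 k245 11 (.d k15 k90
  k10 14 2))))))] .n) (.c k238 (.l (.s k221 k17 9 (.s k12 k8 1 (.s k166 k247 12 (.s k162 k174 1 (.d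
  k243 k81 k89 12 14)))))) (.c k251 (.l (.s k12 k8 1 (.s k166 k247 12 (.s k243 k89 14 (.d k162 k174
  k81 1 12))))) .n))))) .n))) (.c k90 (.q k4 [(.s k12 k8 1 (.s k166 k247 12 (.s k162 k174 1 (.d k243
  k81 k89 12 14)))), (.s k160 k80 11 (.s k165 k175 2 (.s k166 k247 12 (.s k164 k167 0 (.s k84 k244
  11 (.d k168 k172 k252 1 13)))))), (.s k12 k8 1 (.s k160 k80 11 (.s k164 k88 13 (.s k84 k244 11 (.d
  k168 k172 k252 1 13)))))] .n) (.c k95 (.l (.s k160 k80 11 (.s k165 k175 2 (.s k15 k90 14 (.d k5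
  k10 k245 2 11))))) (.c k160 (.q k154 [(.s k16 k223 10 (.s k138 k186 3 (.s k207 k69 10 (.d k48 k32
  k101 3 14)))), (.s k16 k223 10 (.s k48 k32 3 (.s k176 k112 7 (.s k165 k143 6 (.s k5 k245 11 (.d
  k15 k10 k90 2 14)))))), (.s k138 k186 3 (.s k207 k69 10 (.s k218 k229 6 (.s k90 k26 7 (.s k10 k250
  11 (.d k15 k5 k165 2 14))))))] (.c k48 (.q k162 [(.s k243 k81 12 (.s k166 k174 1 (.s k12 k89 14
  (.d k4 k8 k247 1 12)))), (.s k16 k223 10 (.s k81 k243 12 (.s k146 k211 8 (.s k150 k158 1 (.d k130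
  k178 k190 3 5))))), (.s k166 k174 1 (.s k178 k142 5 (.s k130 k146 3 (.s k186 k138 3 (.d k190 k182
  k150 1 5)))))] (.c k93 (.l (.s k243 k81 12 (.s k166 k174 1 (.s k12 k89 14 (.d k4 k8 k247 1 12)))))
  (.c k117 (.l (.s k186 k138 3 (.s k166 k174 1 (.s k4 k247 12 (.s k12 k8 1 (.d k243 k81 k89 12
  14)))))) (.c k186 (.q k117 [(.s k243 k81 12 (.s k166 k174 1 (.s k12 k89 14 (.d k4 k8 k247 1
  12)))), (.s k69 k101 3 (.s k207 k138 10 (.s k218 k229 6 (.s k90 k26 7 (.s k10 k250 11 (.d k15 k165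
  k5 14 2))))))] .n) .n)))) (.c k207 (.q k202 [(.s k58 k106 11 (.s k186 k138 3 (.s k250 k122 7 (.s
  k90 k10 11 (.d k218 k234 k26 3 7))))), (.s k106 k58 11 (.s k42 k234 7 (.s k63 k21 6 (.s k64 k127 6
  (.d k192 k128 k149 7 14))))), (.s k138 k186 3 (.s k10 k74 7 (.s k15 k5 2 (.d k90 k250 k165 11
  14))))] (.c k223 (.q k239 [(.s k58 k106 11 (.s k186 k138 3 (.s k250 k122 7 (.s k90 k10 11 (.d k218
  k234 k26 3 7))))), (.s k106 k58 11 (.s k42 k234 7 (.s k63 k21 6 (.s k64 k127 6 (.d k192 k128 k149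
  7 14))))), (.s k138 k186 3 (.s k10 k74 7 (.s k15 k5 2 (.d k90 k250 k165 11 14))))] .n) (.c k239
  (.l (.s k223 k16 10 (.s k138 k186 3 (.s k10 k74 7 (.s k15 k5 2 (.d k90 k250 k165 11 14)))))) .n)))
  .n))) (.c k165 (.q k4 [(.s k12 k8 1 (.s k166 k247 12 (.s k162 k174 1 (.d k243 k81 k89 12 14)))),
  (.s k12 k8 1 (.s k160 k80 11 (.s k164 k88 13 (.s k84 k244 11 (.d k168 k172 k252 1 13))))), (.s k80
  k160 11 (.s k90 k95 2 (.s k166 k247 12 (.s k242 k14 13 (.s k243 k241 0 (.d k162 k81 k174 12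
  1))))))] .n) (.c k175 (.l (.s k80 k160 11 (.s k90 k95 2 (.s k15 k165 14 (.d k10 k5 k250 2 11)))))
  (.c k250 (.l (.s k160 k80 11 (.s k165 k175 2 (.s k5 k245 11 (.d k15 k10 k90 2 14)))))
  .n))))))))))))

def t1_41 : T TT 256 :=
  (.f k170 k255 14 (.q k149 [(.s k21 k213 7 (.s k128 k191 6 (.s k192 k64 7 (.d k63 k42 k106 6
  14))))] (.c k21 (.q k61 [(.s k105 k193 13 (.s k40 k235 8 (.s k65 k125 5 (.s k195 k130 8 (.d k60
  k20 k150 5 14))))), (.s k128 k191 6 (.s k192 k64 7 (.s k63 k106 14 (.s k60 k62 0 (.s k20 k40 5 (.s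
  k148 k104 13 (.d k150 k151 k215 0 8))))))), (.s k105 k193 13 (.s k65 k125 5 (.s k128 k191 6 (.s
  k192 k64 7 (.s k63 k106 14 (.s k60 k62 0 (.d k195 k150 k130 14 8)))))))] (.c k60 (.q k125 [(.d
  k105 k65 k193 5 13), (.s k128 k191 6 (.s k189 k253 7 (.s k192 k64 7 (.s k63 k106 14 (.s k252 k126
  8 (.s k168 k84 13 (.d k169 k171 k129 0 5)))))))] (.c k3 (.q k22 [(.d k105 k65 k193 5 13), (.s k128
  k191 6 (.s k189 k253 7 (.s k192 k64 7 (.s k63 k106 14 (.s k252 k126 8 (.s k168 k84 13 (.d k169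
  k171 k129 0 5)))))))] (.c k87 (.q k171 [(.d k105 k65 k193 5 13), (.s k169 k168 0 (.d k189 k129
  k253 5 7))] .n) (.c k171 (.q k87 [(.d k105 k65 k193 5 13), (.s k86 k84 0 (.s k23 k212 8 (.s k150
  k214 7 (.d k151 k148 k215 0 7))))] .n) .n))) (.c k22 (.q k3 [(.d k105 k65 k193 5 13), (.s k128
  k191 6 (.s k189 k253 7 (.s k192 k64 7 (.d k129 k169 k66 5 8))))] (.c k20 (.q k23 [(.d k105 k65
  k193 5 13), (.s k63 k43 5 (.s k128 k191 6 (.d k192 k64 k106 7 14)))] .n) (.c k23 (.q k20 [(.d k105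
  k65 k193 5 13), (.s k128 k191 6 (.s k189 k253 7 (.s k192 k64 7 (.d k129 k169 k66 5 8))))] .n)
  .n))) .n))) (.c k105 (.l (.s k128 k191 6 (.s k192 k64 7 (.s k63 k106 14 (.s k60 k62 0 (.s k20 k40
  5 (.s k150 k215 8 (.d k148 k104 k151 13 0)))))))) (.c k150 (.l (.s k105 k193 13 (.s k40 k235 8 (.s
  k60 k20 5 (.s k63 k62 0 (.s k128 k191 6 (.d k192 k106 k64 14 7))))))) .n)))) (.c k42 (.q k40 [(.s
  k60 k20 5 (.s k105 k235 8 (.s k65 k125 5 (.d k195 k130 k150 8 14)))), (.s k60 k20 5 (.s k128 k191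
  6 (.s k192 k64 7 (.s k63 k106 14 (.s k61 k62 0 (.d k105 k235 k193 8 13)))))), (.s k21 k213 7 (.s
  k105 k235 8 (.s k128 k191 6 (.s k192 k64 7 (.s k193 k61 13 (.s k195 k194 0 (.d k65 k125 k130 5
  8)))))))] (.c k21 (.q k61 [(.d k105 k235 k193 8 13), (.s k60 k20 5 (.s k63 k62 0 (.s k128 k191 6
  (.d k192 k64 k106 7 14))))] .n) (.c k61 (.l (.s k21 k213 7 (.s k60 k20 5 (.s k105 k235 8 (.s k65
  k125 5 (.d k195 k130 k150 8 14)))))) (.c k105 (.l (.s k20 k60 5 (.s k21 k213 7 (.s k150 k215 8 (.s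
  k148 k151 0 (.s k212 k84 7 (.d k23 k22 k86 0 8))))))) (.c k235 (.l (.s k60 k20 5 (.s k128 k191 6
  (.s k192 k64 7 (.s k148 k104 13 (.s k150 k151 0 (.s k130 k190 5 (.d k195 k65 k105 8 14))))))))
  .n))))) (.c k61 (.l (.s k21 k213 7 (.s k63 k42 6 (.s k128 k191 6 (.d k192 k64 k106 7 14))))) (.c
  k63 (.f k191 k128 6 (.q k150 [(.s k20 k215 8 (.s k60 k40 5 (.s k130 k190 5 (.d k195 k65 k105 8
  14)))), (.s k151 k148 0 (.s k131 k171 5 (.s k190 k130 5 (.d k188 k189 k169 0 6)))), (.s k21 k213 7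
  (.s k20 k215 8 (.s k23 k22 0 (.s k148 k151 0 (.d k212 k84 k86 7 8)))))] (.c k21 (.q k61 [(.s k105
  k193 13 (.s k65 k125 5 (.d k130 k190 k195 5 8))), (.s k151 k148 0 (.s k131 k171 5 (.s k190 k130 5
  (.d k188 k189 k169 0 6)))), (.s k20 k215 8 (.s k60 k40 5 (.d k105 k195 k193 14 13)))] .n) (.c k61
  (.l (.s k21 k213 7 (.s k20 k215 8 (.s k23 k22 0 (.s k148 k151 0 (.d k212 k84 k86 7 8)))))) .n))))
  (.c k64 (.q k105 [(.s k40 k235 8 (.s k60 k20 5 (.s k65 k125 5 (.d k195 k130 k150 8 14)))), (.s k21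
  k213 7 (.s k61 k193 13 (.s k63 k42 6 (.s k60 k62 0 (.d k40 k20 k235 5 8))))), (.s k21 k213 7 (.s
  k61 k193 13 (.s k65 k125 5 (.s k195 k130 8 (.s k60 k150 14 (.d k63 k62 k42 0 6))))))] (.c k21 (.l
  (.s k61 k193 13 (.s k40 k235 8 (.s k60 k20 5 (.s k65 k125 5 (.d k195 k130 k150 8 14)))))) (.c k60
  (.l (.s k21 k213 7 (.s k63 k42 6 (.s k192 k106 14 (.s k193 k61 13 (.s k195 k194 0 (.d k65 k125
  k130 5 8))))))) (.c k61 (.l (.s k21 k213 7 (.s k40 k235 8 (.s k60 k20 5 (.s k65 k125 5 (.d k195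
  k130 k150 8 14)))))) (.c k65 (.l (.s k21 k213 7 (.s k40 k235 8 (.s k60 k20 5 (.s k63 k42 6 (.d k61
  k62 k193 0 13)))))) .n))))) (.c k106 (.q k105 [(.s k40 k235 8 (.s k60 k20 5 (.s k65 k125 5 (.d
  k195 k130 k150 8 14)))), (.s k65 k125 5 (.s k128 k191 6 (.s k192 k64 7 (.s k195 k130 8 (.d k193
  k61 k194 13 0))))), (.s k21 k213 7 (.s k40 k235 8 (.s k60 k20 5 (.s k63 k42 6 (.d k61 k62 k193 0
  13)))))] (.c k21 (.l (.s k61 k193 13 (.s k40 k235 8 (.s k60 k20 5 (.s k65 k125 5 (.d k195 k130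
  k150 8 14)))))) (.c k60 (.l (.s k21 k213 7 (.s k128 k191 6 (.s k192 k64 7 (.s k193 k61 13 (.s k195
  k194 0 (.d k65 k125 k130 5 8))))))) (.c k61 (.l (.s k21 k213 7 (.s k40 k235 8 (.s k60 k20 5 (.s
  k65 k125 5 (.d k195 k130 k150 8 14)))))) (.c k195 (.l (.s k21 k213 7 (.s k61 k193 13 (.s k63 k42 6
  (.s k60 k62 0 (.d k40 k20 k235 5 8)))))) .n))))) (.c k127 (.l (.s k21 k213 7 (.s k63 k42 6 (.s
  k128 k191 6 (.d k192 k64 k106 7 14))))) (.c k128 (.q k105 [(.s k40 k235 8 (.s k60 k20 5 (.s k65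
  k125 5 (.d k195 k130 k150 8 14)))), (.s k21 k213 7 (.s k61 k193 13 (.s k63 k42 6 (.s k60 k62 0 (.d
  k40 k20 k235 5 8))))), (.s k21 k213 7 (.s k61 k193 13 (.s k65 k125 5 (.s k195 k130 8 (.s k60 k150
  14 (.d k63 k62 k42 0 6))))))] (.c k21 (.l (.s k61 k193 13 (.s k40 k235 8 (.s k60 k20 5 (.s k65
  k125 5 (.d k195 k130 k150 8 14)))))) (.c k60 (.l (.s k21 k213 7 (.s k63 k42 6 (.s k192 k106 14 (.s
  k193 k61 13 (.s k195 k194 0 (.d k65 k125 k130 5 8))))))) (.c k61 (.l (.s k21 k213 7 (.s k40 k235 8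
  (.s k60 k20 5 (.s k65 k125 5 (.d k195 k130 k150 8 14)))))) (.c k65 (.l (.s k21 k213 7 (.s k40 k235
  8 (.s k60 k20 5 (.s k63 k42 6 (.d k61 k62 k193 0 13)))))) .n))))) (.c k191 (.f k21 k213 7 (.f k63
  k42 6 (.f k192 k106 14 (.q k40 [(.s k60 k20 5 (.s k105 k235 8 (.d k61 k62 k193 0 13))), (.s k20
  k60 5 (.s k150 k215 8 (.s k148 k151 0 (.s k212 k84 7 (.d k23 k22 k86 0 8))))), (.s k60 k20 5 (.s
  k61 k62 0 (.d k105 k235 k193 8 13))), (.s k105 k235 8 (.s k193 k61 13 (.s k195 k194 0 (.d k65 k125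
  k130 5 8))))] (.c k235 (.l (.s k60 k20 5 (.s k61 k62 0 (.s k105 k193 13 (.s k65 k125 5 (.d k195
  k150 k130 14 8)))))) .n))))) (.c k192 (.f k21 k213 7 (.q k234 [(.d k42 k63 k106 6 7)] (.c k42 (.q
  k69 [(.s k207 k138 10 (.s k101 k117 3 (.s k48 k154 14 (.d k32 k16 k239 3 10)))), (.s k128 k191 6
  (.s k138 k207 10 (.s k133 k143 2 (.s k165 k181 3 (.d k5 k197 k245 7 11))))), (.s k101 k117 3 (.s
  k239 k32 10 (.s k229 k224 2 (.s k37 k165 7 (.d k53 k5 k197 3 11)))))] (.c k40 (.q k43 [(.s k207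
  k138 10 (.s k101 k117 3 (.s k48 k154 14 (.d k32 k16 k239 3 10)))), (.s k128 k191 6 (.s k138 k207
  10 (.s k133 k143 2 (.s k165 k181 3 (.d k5 k197 k245 7 11))))), (.s k101 k117 3 (.s k239 k32 10 (.s
  k229 k224 2 (.s k37 k165 7 (.d k53 k5 k197 3 11)))))] (.c k186 (.l (.s k207 k138 10 (.s k101 k117
  3 (.s k48 k154 14 (.d k32 k16 k239 3 10))))) (.c k239 (.l (.s k101 k117 3 (.s k128 k191 6 (.s k197
  k53 11 (.s k133 k5 7 (.d k138 k143 k207 2 10)))))) .n))) (.c k43 (.q k40 [(.s k101 k117 3 (.s k32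
  k239 10 (.s k48 k16 3 (.d k207 k138 k154 10 14)))), (.s k60 k20 5 (.s k105 k235 8 (.s k65 k125 5
  (.d k195 k130 k150 8 14))))] .n) (.c k186 (.l (.s k207 k138 10 (.s k101 k117 3 (.s k48 k154 14 (.d
  k32 k16 k239 3 10))))) (.c k239 (.l (.s k101 k117 3 (.s k128 k191 6 (.s k197 k53 11 (.s k133 k5 7
  (.d k138 k143 k207 2 10)))))) .n))))) (.c k63 (.q k153 [(.s k136 k187 4 (.s k204 k68 9 (.s k51
  k102 14 (.d k17 k34 k221 4 9)))), (.s k17 k221 9 (.s k29 k25 1 (.s k145 k157 1 (.d k209 k81 k89 7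
  9)))), (.s k106 k42 7 (.s k136 k187 4 (.s k200 k59 12 (.s k8 k72 7 (.d k251 k217 k89 4 12)))))]
  (.c k127 (.l (.s k191 k128 6 (.s k17 k221 9 (.s k29 k25 1 (.s k145 k157 1 (.d k209 k81 k89 7
  9)))))) (.c k191 (.q k127 [(.d k106 k64 k42 6 7), (.s k17 k221 9 (.s k29 k25 1 (.s k145 k157 1 (.d
  k209 k81 k89 7 9))))] .n) .n))) (.c k106 (.q k2 [(.s k42 k63 6 (.s k22 k62 5 (.s k23 k20 0 (.d k86
  k212 k254 8 13)))), (.s k63 k42 6 (.s k86 k254 13 (.s k84 k87 0 (.s k252 k168 13 (.s k189 k126 8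
  (.d k169 k3 k129 14 5)))))), (.s k86 k254 13 (.s k23 k212 8 (.s k20 k22 0 (.s k87 k84 0 (.d k215
  k151 k150 7 8))))), (.s k42 k63 6 (.s k22 k62 5 (.s k20 k23 0 (.s k60 k40 5 (.s k150 k215 8 (.s
  k195 k105 14 (.d k130 k190 k65 5 8)))))))] .n) .n))))) (.c k213 (.f k128 k191 6 (.f k192 k64 7 (.f
  k63 k106 14 (.q k60 [(.s k61 k62 0 (.s k40 k20 5 (.d k105 k235 k193 8 13))), (.s k20 k40 5 (.s
  k148 k104 13 (.d k150 k151 k215 0 8))), (.s k61 k62 0 (.s k105 k193 13 (.s k65 k125 5 (.d k195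
  k150 k130 14 8))))] (.c k21 (.l (.s k61 k62 0 (.s k40 k20 5 (.d k105 k235 k193 8 13)))) (.c k61
  (.l (.s k21 k42 6 (.s k148 k104 13 (.s k150 k151 0 (.d k20 k40 k215 5 8))))) (.c k105 (.l (.s k20
  k40 5 (.s k150 k215 8 (.d k148 k151 k104 0 13)))) (.c k150 (.l (.s k40 k20 5 (.s k105 k235 8 (.d
  k61 k62 k193 0 13)))) .n)))))))) (.c k234 (.l (.s k128 k191 6 (.s k21 k213 7 (.s k192 k64 7 (.d
  k63 k42 k106 6 14))))) .n))))))))))))))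

def t1_42 : T TT 256 :=
  (.f k170 k255 14 (.q k240 [(.s k80 k160 11 (.s k90 k95 2 (.s k10 k250 11 (.d k15 k5 k165 2 14))))]
  (.c k5 (.f k160 k80 11 (.q k65 [(.s k105 k125 5 (.s k40 k235 8 (.s k60 k20 5 (.d k195 k130 k150 8
  14)))), (.s k165 k175 2 (.s k195 k130 8 (.s k225 k210 4 (.d k105 k125 k45 5 9)))), (.s k105 k125 5
  (.s k165 k175 2 (.s k15 k90 14 (.s k45 k225 9 (.s k60 k30 4 (.d k40 k20 k235 5 8))))))] (.c k9 (.q
  k13 [(.s k105 k125 5 (.s k40 k235 8 (.s k60 k20 5 (.d k195 k130 k150 8 14)))), (.s k165 k175 2 (.s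
  k15 k90 14 (.s k12 k14 0 (.s k8 k4 1 (.d k89 k251 k241 12 13)))))] .n) (.c k13 (.q k9 [(.s k105
  k125 5 (.s k40 k235 8 (.s k60 k20 5 (.d k195 k130 k150 8 14)))), (.s k165 k175 2 (.s k195 k130 8
  (.s k225 k210 4 (.d k105 k125 k45 5 9)))), (.s k105 k125 5 (.s k165 k175 2 (.s k15 k90 14 (.s k45
  k225 9 (.s k60 k30 4 (.d k40 k20 k235 5 8))))))] (.c k105 (.l (.s k130 k195 8 (.s k150 k190 5 (.s
  k165 k175 2 (.s k180 k135 4 (.s k60 k120 9 (.d k20 k215 k40 8 5))))))) (.c k125 (.l (.s k165 k175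
  2 (.s k195 k130 8 (.s k225 k210 4 (.s k105 k45 9 (.s k40 k235 8 (.d k60 k20 k150 5 14))))))) .n)))
  (.c k105 (.l (.s k130 k195 8 (.s k150 k190 5 (.s k165 k175 2 (.s k180 k135 4 (.s k60 k120 9 (.d
  k20 k215 k40 8 5))))))) (.c k125 (.l (.s k165 k175 2 (.s k195 k130 8 (.s k225 k210 4 (.s k105 k45
  9 (.s k40 k235 8 (.d k60 k20 k150 5 14))))))) .n)))))) (.c k10 (.f k80 k160 11 (.f k90 k95 2 (.f
  k15 k165 14 (.q k26 [(.s k48 k37 6 (.s k154 k218 7 (.d k16 k32 k223 3 10))), (.s k154 k218 7 (.s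
  k16 k223 10 (.s k31 k21 2 (.d k208 k144 k149 7 10)))), (.s k48 k37 6 (.s k112 k176 7 (.s k101 k79
  6 (.d k154 k218 k207 7 14)))), (.s k48 k37 6 (.s k32 k16 3 (.s k101 k239 10 (.d k112 k79 k176 6
  7))))] .n)))) (.c k15 (.f k160 k80 11 (.q k162 [(.s k161 k163 0 (.s k243 k81 12 (.s k242 k241 0
  (.d k82 k2 k3 11 12)))), (.s k166 k174 1 (.s k4 k247 12 (.s k12 k8 1 (.s k164 k88 13 (.d k165 k175
  k167 2 0)))))] (.c k95 (.l (.s k175 k165 2 (.s k161 k163 0 (.s k82 k3 12 (.s k242 k2 11 (.d k243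
  k241 k81 0 12)))))) (.c k175 (.q k95 [(.s k161 k163 0 (.s k243 k81 12 (.s k242 k241 0 (.d k82 k2
  k3 11 12)))), (.s k166 k174 1 (.s k4 k247 12 (.s k12 k8 1 (.s k164 k88 13 (.s k84 k244 11 (.d k168
  k172 k252 1 13))))))] (.c k243 (.l (.s k163 k161 0 (.s k166 k174 1 (.s k172 k169 2 (.s k164 k168 1
  (.s k12 k88 13 (.d k4 k8 k247 1 12))))))) .n)) (.c k243 (.l (.s k163 k161 0 (.s k166 k174 1 (.s
  k169 k172 2 (.s k171 k168 0 (.d k175 k167 k165 1 2)))))) .n))))) (.c k80 (.q k150 [(.s k20 k215 8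
  (.s k60 k40 5 (.s k130 k190 5 (.d k195 k65 k105 8 14)))), (.s k130 k190 5 (.s k195 k65 8 (.s k210
  k225 4 (.s k90 k30 9 (.s k10 k250 11 (.d k15 k5 k165 2 14)))))), (.s k20 k215 8 (.s k60 k40 5 (.s
  k180 k120 9 (.s k165 k135 4 (.s k5 k245 11 (.d k15 k10 k90 2 14))))))] (.c k60 (.q k4 [(.s k12 k8
  1 (.s k166 k247 12 (.s k162 k174 1 (.d k243 k81 k89 12 14)))), (.s k20 k215 8 (.s k52 k36 3 (.s
  k101 k199 12 (.s k117 k69 3 (.d k247 k182 k166 8 12)))))] (.c k125 (.l (.s k190 k130 5 (.s k12 k8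
  1 (.s k166 k247 12 (.s k162 k174 1 (.d k243 k81 k89 12 14)))))) (.c k166 (.l (.s k8 k12 1 (.s k20
  k215 8 (.s k89 k251 12 (.s k28 k211 10 (.s k16 k24 1 (.s k93 k81 1 (.d k223 k158 k154 8 10))))))))
  (.c k190 (.q k125 [(.s k12 k8 1 (.s k166 k247 12 (.s k243 k89 14 (.d k162 k174 k81 1 12)))), (.s
  k65 k105 5 (.s k195 k130 8 (.s k210 k225 4 (.s k90 k30 9 (.s k10 k250 11 (.d k15 k165 k5 14
  2))))))] .n) (.c k247 (.l (.s k12 k8 1 (.s k20 k215 8 (.s k52 k36 3 (.s k199 k101 12 (.s k134 k69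
  8 (.s k195 k73 10 (.d k130 k65 k190 8 5)))))))) .n))))) (.c k195 (.q k166 [(.s k4 k247 12 (.s k12
  k8 1 (.s k162 k174 1 (.d k243 k81 k89 12 14)))), (.s k130 k190 5 (.s k134 k182 3 (.s k142 k138 1
  (.s k162 k174 1 (.d k178 k146 k154 3 5))))), (.s k4 k247 12 (.s k130 k190 5 (.s k134 k182 3 (.s
  k69 k199 8 (.d k138 k207 k142 10 1)))))] (.c k215 (.q k235 [(.s k4 k247 12 (.s k12 k8 1 (.s k162
  k174 1 (.d k243 k81 k89 12 14)))), (.s k105 k40 8 (.s k162 k174 1 (.s k227 k44 10 (.s k32 k97 8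
  (.d k239 k231 k101 1 10))))), (.s k4 k247 12 (.s k130 k190 5 (.s k134 k182 3 (.s k138 k142 1 (.d
  k69 k199 k207 8 10)))))] (.c k174 (.l (.s k4 k247 12 (.s k12 k8 1 (.s k40 k105 8 (.s k60 k20 5 (.s
  k28 k44 3 (.d k89 k243 k211 14 10))))))) (.c k231 (.l (.s k162 k174 1 (.s k243 k81 12 (.s k12 k89
  14 (.d k4 k8 k247 1 12))))) .n))) (.c k235 (.l (.s k215 k20 8 (.s k4 k247 12 (.s k12 k8 1 (.s k162
  k174 1 (.d k243 k81 k89 12 14)))))) .n))) .n))) (.c k90 (.q k4 [(.s k12 k8 1 (.s k166 k247 12 (.s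
  k162 k174 1 (.d k243 k81 k89 12 14)))), (.s k160 k80 11 (.s k165 k175 2 (.s k166 k247 12 (.s k164
  k167 0 (.s k84 k244 11 (.d k168 k172 k252 1 13)))))), (.s k12 k8 1 (.s k160 k80 11 (.s k164 k88 13
  (.s k84 k244 11 (.d k168 k172 k252 1 13)))))] .n) (.c k95 (.l (.s k160 k80 11 (.s k165 k175 2 (.s
  k15 k90 14 (.d k5 k10 k245 2 11))))) (.c k160 (.q k252 [(.s k168 k84 13 (.s k169 k171 0 (.s k3 k86
  14 (.s k161 k82 12 (.s k165 k173 1 (.s k5 k245 11 (.d k15 k90 k10 14 2))))))), (.s k168 k84 13 (.s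
  k248 k244 1 (.s k8 k88 11 (.s k89 k251 12 (.s k81 k93 1 (.s k243 k162 12 (.d k12 k4 k166 1
  14)))))))] (.c k84 (.q k5 [(.s k165 k245 11 (.d k15 k10 k90 2 14)), (.s k165 k245 11 (.s k244 k248
  1 (.s k7 k86 12 (.s k4 k6 0 (.s k12 k8 1 (.s k166 k247 12 (.d k164 k88 k167 13 0))))))), (.s k10
  k15 2 (.s k90 k250 11 (.s k248 k244 1 (.s k11 k169 12 (.s k8 k9 0 (.s k88 k168 11 (.d k12 k4 k164
  1 13)))))))] .n) (.c k161 (.l (.s k84 k168 13 (.s k86 k87 0 (.s k244 k248 1 (.s k165 k7 12 (.s k5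
  k245 11 (.d k15 k10 k90 2 14))))))) (.c k168 (.q k192 [(.s k224 k208 3 (.s k248 k244 1 (.s k232
  k212 5 (.s k216 k200 3 (.d k228 k236 k204 1 5))))), (.s k64 k128 7 (.s k106 k127 6 (.s k63 k149 14
  (.s k122 k181 10 (.s k90 k74 3 (.s k10 k250 11 (.d k15 k165 k5 14 2)))))))] (.c k164 (.q k172 [(.s
  k12 k92 11 (.s k4 k8 1 (.s k166 k247 12 (.s k162 k174 1 (.d k243 k81 k89 12 14))))), (.s k208 k224
  3 (.s k212 k232 5 (.s k216 k220 1 (.s k228 k204 5 (.d k244 k248 k196 1 3)))))] (.c k248 (.l (.s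
  k12 k92 11 (.s k8 k4 1 (.s k89 k251 12 (.s k81 k93 1 (.d k243 k162 k166 12 14)))))) .n)) (.c k172
  (.q k164 [(.s k244 k248 1 (.s k4 k84 11 (.d k12 k8 k88 1 13))), (.s k12 k88 13 (.s k132 k72 9 (.s
  k148 k180 3 (.s k104 k60 13 (.d k224 k208 k44 3 9))))), (.s k64 k128 7 (.s k224 k208 3 (.s k104
  k44 9 (.s k84 k124 5 (.d k244 k248 k4 1 11)))))] (.c k248 (.l (.s k12 k88 13 (.s k8 k4 1 (.s k89
  k251 12 (.s k81 k93 1 (.d k243 k162 k166 12 14)))))) .n)) .n))) .n)))) (.c k165 (.q k4 [(.s k12 k8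
  1 (.s k166 k247 12 (.s k162 k174 1 (.d k243 k81 k89 12 14)))), (.s k12 k8 1 (.s k160 k80 11 (.s
  k164 k88 13 (.s k84 k244 11 (.d k168 k172 k252 1 13))))), (.s k80 k160 11 (.s k90 k95 2 (.s k166
  k247 12 (.s k242 k14 13 (.s k243 k241 0 (.d k162 k81 k174 12 1))))))] .n) (.c k175 (.l (.s k80
  k160 11 (.s k90 k95 2 (.s k15 k165 14 (.d k10 k5 k250 2 11))))) (.c k250 (.l (.s k160 k80 11 (.s
  k165 k175 2 (.s k5 k245 11 (.d k15 k10 k90 2 14))))) .n))))))))))))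

def t1_43 : T TT 256 :=
  (.f k255 k170 14 (.q k102 [(.s k68 k119 4 (.s k204 k136 9 (.s k153 k51 14 (.d k221 k238 k17 4
  9))))] (.c k17 (.f k119 k68 4 (.f k51 k187 9 (.f k153 k204 14 (.q k49 [(.s k48 k50 0 (.s k101 k205
  13 (.d k117 k69 k186 3 10))), (.s k48 k50 0 (.s k117 k186 10 (.s k118 k116 0 (.d k185 k253 k252 9
  10)))), (.s k101 k205 13 (.s k69 k117 3 (.s k207 k138 10 (.d k103 k100 k155 0 13)))), (.s k48 k50
  0 (.s k16 k32 3 (.s k154 k223 10 (.d k101 k205 k207 13 14))))] .n)))) (.c k51 (.q k4 [(.s k12 k8 1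
  (.s k93 k174 12 (.s k166 k247 12 (.d k89 k81 k243 1 14)))), (.s k68 k119 4 (.s k166 k247 12 (.s
  k38 k230 7 (.s k55 k21 4 (.d k196 k132 k149 7 12))))), (.s k12 k8 1 (.s k68 k119 4 (.s k132 k196 7
  (.s k72 k192 9 (.s k76 k64 1 (.d k204 k140 k136 7 9))))))] .n) (.c k68 (.q k4 [(.s k166 k247 12
  (.s k12 k8 1 (.s k89 k243 14 (.d k93 k81 k174 1 12)))), (.s k166 k247 12 (.s k38 k230 7 (.s k21
  k55 4 (.s k63 k42 6 (.s k127 k191 7 (.s k106 k64 6 (.d k149 k213 k192 7 14)))))))] (.c k166 (.f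
  k12 k8 1 (.q k89 [(.d k93 k174 k81 12 1), (.s k76 k115 6 (.s k204 k140 7 (.s k153 k51 14 (.d k221
  k238 k17 4 9))))] (.c k162 (.l (.s k174 k93 12 (.s k76 k115 6 (.s k204 k140 7 (.s k153 k51 14 (.d
  k221 k238 k17 4 9)))))) (.c k174 (.q k162 [(.d k81 k93 k243 1 12), (.s k76 k115 6 (.s k204 k140 7
  (.s k221 k238 4 (.d k153 k17 k51 9 14))))] .n) .n)))) (.c k247 (.l (.s k12 k8 1 (.s k93 k174 12
  (.s k89 k81 1 (.s k76 k115 6 (.s k204 k140 7 (.s k153 k51 14 (.d k221 k238 k17 4 9)))))))) .n)))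
  (.c k119 (.q k247 [(.s k166 k4 12 (.s k243 k251 1 (.s k81 k162 12 (.d k89 k93 k12 1 14)))), (.s
  k166 k4 12 (.s k230 k38 7 (.s k213 k196 4 (.s k192 k234 6 (.s k64 k128 7 (.s k106 k127 6 (.d k149
  k21 k63 7 14)))))))] (.c k4 (.l (.s k243 k251 1 (.s k81 k162 12 (.s k89 k93 1 (.s k115 k76 6 (.s
  k51 k179 7 (.s k17 k34 4 (.d k153 k221 k204 9 14)))))))) (.c k166 (.f k243 k251 1 (.q k89 [(.d k81
  k162 k93 12 1), (.s k115 k76 6 (.s k51 k179 7 (.s k17 k34 4 (.d k153 k221 k204 9 14))))] (.c k162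
  (.q k174 [(.d k93 k81 k12 1 12), (.s k115 k76 6 (.s k51 k179 7 (.s k17 k34 4 (.d k153 k221 k204 9
  14))))] .n) (.c k174 (.l (.s k162 k81 12 (.s k115 k76 6 (.s k51 k179 7 (.s k17 k34 4 (.d k153 k221
  k204 9 14)))))) .n)))) .n))) (.c k136 (.l (.s k119 k68 4 (.s k51 k187 9 (.s k153 k204 14 (.d k17
  k34 k221 4 9))))) (.c k153 (.f k68 k119 4 (.q k4 [(.s k166 k247 12 (.s k12 k8 1 (.s k89 k243 14
  (.d k93 k81 k174 1 12)))), (.s k166 k247 12 (.s k38 k230 7 (.s k55 k21 4 (.d k196 k132 k149 7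
  12)))), (.s k12 k8 1 (.s k132 k196 7 (.s k72 k192 9 (.s k76 k64 1 (.d k204 k136 k140 9 7)))))] (.c
  k136 (.q k187 [(.s k166 k247 12 (.s k38 k230 7 (.s k55 k21 4 (.d k196 k132 k149 7 12)))), (.s k12
  k8 1 (.s k93 k174 12 (.s k89 k81 1 (.s k76 k115 6 (.s k127 k110 4 (.d k64 k72 k106 1 6))))))] (.c
  k166 (.l (.s k12 k8 1 (.s k132 k196 7 (.s k72 k192 9 (.s k76 k64 1 (.s k89 k115 6 (.d k93 k81 k174
  1 12))))))) .n)) (.c k187 (.l (.s k136 k204 9 (.s k12 k8 1 (.s k93 k174 12 (.s k89 k81 1 (.d k166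
  k247 k243 12 14)))))) .n)))) (.c k187 (.l (.s k68 k119 4 (.s k204 k136 9 (.s k153 k51 14 (.d k221
  k238 k17 4 9))))) (.c k204 (.q k4 [(.s k12 k8 1 (.s k93 k174 12 (.s k166 k247 12 (.d k89 k81 k243
  1 14)))), (.s k68 k119 4 (.s k166 k247 12 (.s k38 k230 7 (.s k55 k21 4 (.d k196 k132 k149 7
  12))))), (.s k12 k8 1 (.s k119 k68 4 (.s k51 k187 9 (.s k34 k17 4 (.s k38 k25 6 (.s k21 k55 4 (.d
  k42 k46 k63 1 6)))))))] .n) (.c k221 (.q k3 [(.s k68 k119 4 (.s k87 k171 13 (.s k86 k84 0 (.s k70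
  k118 3 (.d k204 k136 k137 9 10))))), (.s k87 k171 13 (.s k119 k68 4 (.s k51 k187 9 (.s k19 k35 3
  (.s k103 k71 3 (.d k155 k223 k207 9 13)))))), (.s k68 k119 4 (.s k204 k136 9 (.s k70 k137 10 (.s
  k86 k118 3 (.s k153 k51 14 (.s k220 k19 10 (.d k252 k236 k169 3 14))))))), (.s k87 k171 13 (.s k86
  k84 0 (.s k70 k118 3 (.s k169 k252 14 (.s k35 k236 10 (.s k51 k19 3 (.d k204 k137 k153 10
  14)))))))] (.c k70 (.l (.s k87 k171 13 (.s k86 k84 0 (.s k119 k68 4 (.s k51 k187 9 (.s k19 k35 3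
  (.d k153 k220 k204 10 14))))))) (.c k169 (.l (.s k68 k119 4 (.s k204 k136 9 (.s k70 k137 10 (.s
  k86 k118 3 (.d k87 k84 k171 0 13)))))) .n))) (.c k238 (.l (.s k119 k68 4 (.s k51 k187 9 (.s k17
  k34 4 (.d k153 k221 k204 9 14))))) .n))))))))))))

def t1_44 : T TT 256 :=
  (.f k255 k170 14 (.q k102 [(.s k68 k119 4 (.s k204 k136 9 (.s k153 k51 14 (.d k221 k238 k17 4
  9))))] (.c k17 (.f k119 k68 4 (.f k51 k187 9 (.f k153 k204 14 (.q k49 [(.s k48 k50 0 (.s k101 k205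
  13 (.d k117 k69 k186 3 10))), (.s k48 k50 0 (.s k117 k186 10 (.s k118 k116 0 (.d k185 k253 k252 9
  10)))), (.s k101 k205 13 (.s k69 k117 3 (.s k207 k138 10 (.d k103 k100 k155 0 13)))), (.s k48 k50
  0 (.s k16 k32 3 (.s k154 k223 10 (.d k101 k205 k207 13 14))))] .n)))) (.c k51 (.q k4 [(.s k12 k8 1
  (.s k166 k247 12 (.s k89 k243 14 (.d k93 k81 k174 1 12)))), (.s k68 k119 4 (.s k166 k247 12 (.s
  k38 k230 7 (.s k55 k21 4 (.d k196 k132 k149 7 12))))), (.s k12 k8 1 (.s k68 k119 4 (.s k132 k196 7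
  (.s k72 k192 9 (.s k76 k64 1 (.d k204 k140 k136 7 9))))))] .n) (.c k68 (.q k81 [(.s k89 k93 1 (.s
  k243 k162 12 (.s k247 k251 1 (.d k166 k4 k12 12 14)))), (.s k89 k93 1 (.s k115 k76 6 (.s k64 k98 4
  (.s k192 k128 7 (.s k213 k234 6 (.s k149 k21 7 (.d k106 k127 k63 6 14)))))))] (.c k89 (.f k243
  k162 12 (.q k166 [(.d k247 k251 k4 1 12), (.s k230 k38 7 (.s k204 k217 6 (.s k153 k51 14 (.d k221
  k238 k17 4 9))))] (.c k8 (.l (.s k251 k247 1 (.s k230 k38 7 (.s k204 k217 6 (.s k153 k51 14 (.d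
  k221 k238 k17 4 9)))))) (.c k251 (.q k8 [(.d k4 k12 k247 1 12), (.s k230 k38 7 (.s k204 k217 6 (.s
  k221 k238 4 (.d k153 k17 k51 9 14))))] .n) .n)))) (.c k93 (.l (.s k243 k162 12 (.s k247 k251 1 (.s
  k166 k4 12 (.s k230 k38 7 (.s k204 k217 6 (.s k153 k51 14 (.d k221 k238 k17 4 9)))))))) .n))) (.c
  k119 (.q k81 [(.s k89 k93 1 (.s k243 k162 12 (.s k247 k251 1 (.d k166 k4 k12 12 14)))), (.s k89
  k93 1 (.s k115 k76 6 (.s k64 k98 4 (.s k192 k128 7 (.s k213 k234 6 (.s k149 k21 7 (.d k106 k127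
  k63 6 14)))))))] (.c k89 (.f k243 k162 12 (.q k166 [(.d k247 k251 k4 1 12), (.s k230 k38 7 (.s
  k204 k217 6 (.s k153 k51 14 (.d k221 k238 k17 4 9))))] (.c k8 (.l (.s k251 k247 1 (.s k230 k38 7
  (.s k204 k217 6 (.s k153 k51 14 (.d k221 k238 k17 4 9)))))) (.c k251 (.q k8 [(.d k4 k12 k247 1
  12), (.s k230 k38 7 (.s k204 k217 6 (.s k221 k238 4 (.d k153 k17 k51 9 14))))] .n) .n)))) (.c k93
  (.l (.s k243 k162 12 (.s k247 k251 1 (.s k166 k4 12 (.s k230 k38 7 (.s k204 k217 6 (.s k153 k51 14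
  (.d k221 k238 k17 4 9)))))))) .n))) (.c k136 (.l (.s k119 k68 4 (.s k51 k187 9 (.s k153 k204 14
  (.d k17 k34 k221 4 9))))) (.c k153 (.f k68 k119 4 (.q k4 [(.s k12 k8 1 (.s k166 k247 12 (.s k89
  k243 14 (.d k93 k81 k174 1 12)))), (.s k166 k247 12 (.s k38 k230 7 (.s k55 k21 4 (.d k196 k132
  k149 7 12)))), (.s k12 k8 1 (.s k132 k196 7 (.s k72 k192 9 (.s k76 k64 1 (.d k204 k136 k140 9
  7)))))] (.c k136 (.q k187 [(.s k166 k247 12 (.s k38 k230 7 (.s k55 k21 4 (.d k196 k132 k149 7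
  12)))), (.s k12 k8 1 (.s k93 k174 12 (.s k89 k81 1 (.s k76 k115 6 (.s k127 k110 4 (.d k64 k72 k106
  1 6))))))] (.c k166 (.l (.s k12 k8 1 (.s k132 k196 7 (.s k72 k192 9 (.s k76 k64 1 (.s k89 k115 6
  (.d k93 k81 k174 1 12))))))) .n)) (.c k187 (.l (.s k136 k204 9 (.s k12 k8 1 (.s k93 k174 12 (.s
  k89 k81 1 (.d k166 k247 k243 12 14)))))) .n)))) (.c k187 (.l (.s k68 k119 4 (.s k204 k136 9 (.s
  k153 k51 14 (.d k221 k238 k17 4 9))))) (.c k204 (.q k4 [(.s k12 k8 1 (.s k166 k247 12 (.s k89 k243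
  14 (.d k93 k81 k174 1 12)))), (.s k12 k8 1 (.s k119 k68 4 (.s k51 k187 9 (.s k34 k17 4 (.s k38 k25
  6 (.s k21 k55 4 (.d k42 k46 k63 1 6))))))), (.s k68 k119 4 (.s k166 k247 12 (.s k38 k230 7 (.s k55
  k21 4 (.d k196 k132 k149 7 12)))))] .n) (.c k221 (.q k3 [(.s k68 k119 4 (.s k87 k171 13 (.s k86
  k84 0 (.s k70 k118 3 (.d k204 k136 k137 9 10))))), (.s k87 k171 13 (.s k119 k68 4 (.s k51 k187 9
  (.s k19 k35 3 (.s k103 k71 3 (.d k155 k223 k207 9 13)))))), (.s k87 k171 13 (.s k86 k84 0 (.s k70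
  k118 3 (.s k169 k252 14 (.s k35 k236 10 (.s k51 k19 3 (.d k204 k137 k153 10 14))))))), (.s k68
  k119 4 (.s k204 k136 9 (.s k70 k137 10 (.s k86 k118 3 (.s k153 k51 14 (.s k220 k19 10 (.d k252
  k236 k169 3 14)))))))] (.c k70 (.l (.s k87 k171 13 (.s k86 k84 0 (.s k119 k68 4 (.s k51 k187 9 (.s
  k19 k35 3 (.d k153 k220 k204 10 14))))))) (.c k169 (.l (.s k68 k119 4 (.s k204 k136 9 (.s k70 k137
  10 (.s k86 k118 3 (.d k87 k84 k171 0 13)))))) .n))) (.c k238 (.l (.s k119 k68 4 (.s k51 k187 9 (.s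
  k17 k34 4 (.d k153 k221 k204 9 14))))) .n))))))))))))

def t1_45 : T TT 256 :=
  (.f k255 k170 14 (.q k102 [(.s k68 k119 4 (.s k204 k136 9 (.s k153 k51 14 (.d k221 k238 k17 4
  9))))] (.c k17 (.f k119 k68 4 (.f k51 k187 9 (.f k153 k204 14 (.q k49 [(.s k48 k50 0 (.s k101 k205
  13 (.d k117 k69 k186 3 10))), (.s k48 k50 0 (.s k117 k186 10 (.s k118 k116 0 (.d k185 k253 k252 9
  10)))), (.s k101 k205 13 (.s k69 k117 3 (.s k207 k138 10 (.d k103 k100 k155 0 13)))), (.s k48 k50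
  0 (.s k16 k32 3 (.s k154 k223 10 (.d k101 k205 k207 13 14))))] .n)))) (.c k51 (.q k4 [(.s k12 k8 1
  (.s k93 k174 12 (.s k166 k247 12 (.d k89 k81 k243 1 14)))), (.s k68 k119 4 (.s k166 k247 12 (.s
  k38 k230 7 (.s k55 k21 4 (.d k196 k132 k149 7 12))))), (.s k12 k8 1 (.s k68 k119 4 (.s k132 k196 7
  (.s k72 k192 9 (.s k76 k64 1 (.d k204 k140 k136 7 9))))))] .n) (.c k68 (.q k4 [(.s k166 k247 12
  (.s k12 k8 1 (.s k89 k243 14 (.d k93 k81 k174 1 12)))), (.s k166 k247 12 (.s k38 k230 7 (.s k21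
  k55 4 (.s k63 k42 6 (.s k127 k191 7 (.s k106 k64 6 (.d k149 k213 k192 7 14)))))))] (.c k166 (.f
  k12 k8 1 (.q k89 [(.d k93 k174 k81 12 1), (.s k76 k115 6 (.s k204 k140 7 (.s k153 k51 14 (.d k221
  k238 k17 4 9))))] (.c k162 (.l (.s k174 k93 12 (.s k76 k115 6 (.s k204 k140 7 (.s k153 k51 14 (.d
  k221 k238 k17 4 9)))))) (.c k174 (.q k162 [(.d k81 k93 k243 1 12), (.s k76 k115 6 (.s k204 k140 7
  (.s k221 k238 4 (.d k153 k17 k51 9 14))))] .n) .n)))) (.c k247 (.l (.s k12 k8 1 (.s k93 k174 12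
  (.s k89 k81 1 (.s k76 k115 6 (.s k204 k140 7 (.s k153 k51 14 (.d k221 k238 k17 4 9)))))))) .n)))
  (.c k119 (.q k247 [(.s k166 k4 12 (.s k243 k251 1 (.s k81 k162 12 (.d k89 k93 k12 1 14)))), (.s
  k166 k4 12 (.s k230 k38 7 (.s k213 k196 4 (.s k192 k234 6 (.s k64 k128 7 (.s k106 k127 6 (.d k149
  k21 k63 7 14)))))))] (.c k4 (.l (.s k243 k251 1 (.s k81 k162 12 (.s k89 k93 1 (.s k115 k76 6 (.s
  k51 k179 7 (.s k17 k34 4 (.d k153 k221 k204 9 14)))))))) (.c k166 (.f k243 k251 1 (.q k89 [(.d k81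
  k162 k93 12 1), (.s k115 k76 6 (.s k51 k179 7 (.s k17 k34 4 (.d k153 k221 k204 9 14))))] (.c k162
  (.q k174 [(.d k93 k81 k12 1 12), (.s k115 k76 6 (.s k51 k179 7 (.s k17 k34 4 (.d k153 k221 k204 9
  14))))] .n) (.c k174 (.l (.s k162 k81 12 (.s k115 k76 6 (.s k51 k179 7 (.s k17 k34 4 (.d k153 k221
  k204 9 14)))))) .n)))) .n))) (.c k136 (.l (.s k119 k68 4 (.s k51 k187 9 (.s k153 k204 14 (.d k17
  k34 k221 4 9))))) (.c k153 (.f k68 k119 4 (.q k4 [(.s k166 k247 12 (.s k12 k8 1 (.s k89 k243 14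
  (.d k93 k81 k174 1 12)))), (.s k166 k247 12 (.s k38 k230 7 (.s k55 k21 4 (.d k196 k132 k149 7
  12)))), (.s k12 k8 1 (.s k132 k196 7 (.s k72 k192 9 (.s k76 k64 1 (.d k204 k136 k140 9 7)))))] (.c
  k136 (.q k187 [(.s k166 k247 12 (.s k38 k230 7 (.s k55 k21 4 (.d k196 k132 k149 7 12)))), (.s k12
  k8 1 (.s k93 k174 12 (.s k89 k81 1 (.s k76 k115 6 (.s k127 k110 4 (.d k64 k72 k106 1 6))))))] (.c
  k166 (.l (.s k12 k8 1 (.s k132 k196 7 (.s k72 k192 9 (.s k76 k64 1 (.s k89 k115 6 (.d k93 k81 k174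
  1 12))))))) .n)) (.c k187 (.l (.s k136 k204 9 (.s k12 k8 1 (.s k93 k174 12 (.s k89 k81 1 (.d k166
  k247 k243 12 14)))))) .n)))) (.c k187 (.l (.s k68 k119 4 (.s k204 k136 9 (.s k153 k51 14 (.d k221
  k238 k17 4 9))))) (.c k204 (.q k4 [(.s k12 k8 1 (.s k93 k174 12 (.s k166 k247 12 (.d k89 k81 k243
  1 14)))), (.s k68 k119 4 (.s k166 k247 12 (.s k38 k230 7 (.s k55 k21 4 (.d k196 k132 k149 7
  12))))), (.s k12 k8 1 (.s k119 k68 4 (.s k51 k187 9 (.s k34 k17 4 (.s k38 k25 6 (.s k21 k55 4 (.d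
  k42 k46 k63 1 6)))))))] .n) (.c k221 (.q k3 [(.s k68 k119 4 (.s k87 k171 13 (.s k86 k84 0 (.s k70
  k118 3 (.d k204 k136 k137 9 10))))), (.s k87 k171 13 (.s k119 k68 4 (.s k51 k187 9 (.s k19 k35 3
  (.s k103 k71 3 (.d k155 k223 k207 9 13)))))), (.s k87 k171 13 (.s k86 k84 0 (.s k70 k118 3 (.s
  k169 k252 14 (.s k35 k236 10 (.s k51 k19 3 (.d k204 k137 k153 10 14))))))), (.s k68 k119 4 (.s
  k204 k136 9 (.s k70 k137 10 (.s k86 k118 3 (.s k153 k51 14 (.s k220 k19 10 (.d k252 k236 k169 3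
  14)))))))] (.c k70 (.l (.s k87 k171 13 (.s k86 k84 0 (.s k119 k68 4 (.s k51 k187 9 (.s k19 k35 3
  (.d k153 k220 k204 10 14))))))) (.c k169 (.l (.s k68 k119 4 (.s k204 k136 9 (.s k70 k137 10 (.s
  k86 k118 3 (.d k87 k84 k171 0 13)))))) .n))) (.c k238 (.l (.s k119 k68 4 (.s k51 k187 9 (.s k17
  k34 4 (.d k153 k221 k204 9 14))))) .n))))))))))))

def t1_46 : T TT 256 :=
  (.f k255 k170 14 (.q k102 [(.s k68 k119 4 (.s k204 k136 9 (.s k153 k51 14 (.d k221 k238 k17 4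
  9))))] (.c k17 (.f k119 k68 4 (.f k51 k187 9 (.f k153 k204 14 (.q k49 [(.s k48 k50 0 (.s k101 k205
  13 (.d k117 k69 k186 3 10))), (.s k48 k50 0 (.s k117 k186 10 (.s k118 k116 0 (.d k185 k253 k252 9
  10)))), (.s k101 k205 13 (.s k69 k117 3 (.s k207 k138 10 (.d k103 k100 k155 0 13)))), (.s k48 k50
  0 (.s k16 k32 3 (.s k154 k223 10 (.d k101 k205 k207 13 14))))] .n)))) (.c k51 (.q k4 [(.s k12 k8 1
  (.s k166 k247 12 (.s k89 k243 14 (.d k93 k81 k174 1 12)))), (.s k68 k119 4 (.s k166 k247 12 (.s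
  k38 k230 7 (.s k55 k21 4 (.d k196 k132 k149 7 12))))), (.s k12 k8 1 (.s k68 k119 4 (.s k132 k196 7
  (.s k72 k192 9 (.s k76 k64 1 (.d k204 k140 k136 7 9))))))] .n) (.c k68 (.q k81 [(.s k89 k93 1 (.s
  k243 k162 12 (.s k247 k251 1 (.d k166 k4 k12 12 14)))), (.s k89 k93 1 (.s k115 k76 6 (.s k64 k98 4
  (.s k192 k128 7 (.s k213 k234 6 (.s k149 k21 7 (.d k106 k127 k63 6 14)))))))] (.c k89 (.f k243
  k162 12 (.q k166 [(.d k247 k251 k4 1 12), (.s k230 k38 7 (.s k204 k217 6 (.s k153 k51 14 (.d k221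
  k238 k17 4 9))))] (.c k8 (.l (.s k251 k247 1 (.s k230 k38 7 (.s k204 k217 6 (.s k153 k51 14 (.d
  k221 k238 k17 4 9)))))) (.c k251 (.q k8 [(.d k4 k12 k247 1 12), (.s k230 k38 7 (.s k204 k217 6 (.s
  k221 k238 4 (.d k153 k17 k51 9 14))))] .n) .n)))) (.c k93 (.l (.s k243 k162 12 (.s k247 k251 1 (.s
  k166 k4 12 (.s k230 k38 7 (.s k204 k217 6 (.s k153 k51 14 (.d k221 k238 k17 4 9)))))))) .n))) (.c
  k119 (.q k81 [(.s k89 k93 1 (.s k243 k162 12 (.s k247 k251 1 (.d k166 k4 k12 12 14)))), (.s k89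
  k93 1 (.s k115 k76 6 (.s k64 k98 4 (.s k192 k128 7 (.s k213 k234 6 (.s k149 k21 7 (.d k106 k127
  k63 6 14)))))))] (.c k89 (.f k243 k162 12 (.q k166 [(.d k247 k251 k4 1 12), (.s k230 k38 7 (.s
  k204 k217 6 (.s k153 k51 14 (.d k221 k238 k17 4 9))))] (.c k8 (.l (.s k251 k247 1 (.s k230 k38 7
  (.s k204 k217 6 (.s k153 k51 14 (.d k221 k238 k17 4 9)))))) (.c k251 (.q k8 [(.d k4 k12 k247 1
  12), (.s k230 k38 7 (.s k204 k217 6 (.s k221 k238 4 (.d k153 k17 k51 9 14))))] .n) .n)))) (.c k93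
  (.l (.s k243 k162 12 (.s k247 k251 1 (.s k166 k4 12 (.s k230 k38 7 (.s k204 k217 6 (.s k153 k51 14
  (.d k221 k238 k17 4 9)))))))) .n))) (.c k136 (.l (.s k119 k68 4 (.s k51 k187 9 (.s k153 k204 14
  (.d k17 k34 k221 4 9))))) (.c k153 (.f k68 k119 4 (.q k4 [(.s k12 k8 1 (.s k166 k247 12 (.s k89
  k243 14 (.d k93 k81 k174 1 12)))), (.s k166 k247 12 (.s k38 k230 7 (.s k55 k21 4 (.d k196 k132
  k149 7 12)))), (.s k12 k8 1 (.s k132 k196 7 (.s k72 k192 9 (.s k76 k64 1 (.d k204 k136 k140 9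
  7)))))] (.c k136 (.q k187 [(.s k166 k247 12 (.s k38 k230 7 (.s k55 k21 4 (.d k196 k132 k149 7
  12)))), (.s k12 k8 1 (.s k93 k174 12 (.s k89 k81 1 (.d k166 k247 k243 12 14)))), (.s k12 k8 1 (.s
  k132 k196 7 (.s k72 k192 9 (.s k76 k64 1 (.s k89 k115 6 (.d k93 k81 k174 1 12))))))] .n) (.c k187
  (.l (.s k136 k204 9 (.s k12 k8 1 (.s k93 k174 12 (.s k89 k81 1 (.d k166 k247 k243 12 14))))))
  .n)))) (.c k187 (.l (.s k68 k119 4 (.s k204 k136 9 (.s k153 k51 14 (.d k221 k238 k17 4 9))))) (.c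
  k204 (.q k4 [(.s k12 k8 1 (.s k166 k247 12 (.s k89 k243 14 (.d k93 k81 k174 1 12)))), (.s k68 k119
  4 (.s k196 k132 7 (.s k149 k55 12 (.s k21 k213 7 (.s k63 k42 6 (.s k106 k192 14 (.d k127 k64 k191
  6 7)))))))] (.c k12 (.l (.s k68 k119 4 (.s k166 k247 12 (.s k38 k230 7 (.s k55 k21 4 (.d k196 k132
  k149 7 12)))))) (.c k247 (.l (.s k12 k8 1 (.s k68 k119 4 (.s k93 k174 12 (.s k89 k81 1 (.s k76
  k115 6 (.s k64 k72 1 (.d k127 k110 k106 4 6)))))))) .n))) (.c k221 (.q k3 [(.s k68 k119 4 (.s k87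
  k171 13 (.s k86 k84 0 (.s k70 k118 3 (.d k204 k136 k137 9 10))))), (.s k87 k171 13 (.s k119 k68 4
  (.s k51 k187 9 (.s k19 k35 3 (.s k103 k71 3 (.d k155 k223 k207 9 13)))))), (.s k87 k171 13 (.s k86
  k84 0 (.s k70 k118 3 (.s k169 k252 14 (.s k35 k236 10 (.s k51 k19 3 (.d k204 k137 k153 10
  14))))))), (.s k68 k119 4 (.s k204 k136 9 (.s k70 k137 10 (.s k86 k118 3 (.s k153 k51 14 (.s k220
  k19 10 (.d k252 k236 k169 3 14)))))))] (.c k70 (.l (.s k87 k171 13 (.s k86 k84 0 (.s k119 k68 4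
  (.s k51 k187 9 (.s k19 k35 3 (.d k153 k220 k204 10 14))))))) (.c k169 (.l (.s k68 k119 4 (.s k204
  k136 9 (.s k70 k137 10 (.s k86 k118 3 (.d k87 k84 k171 0 13)))))) .n))) (.c k238 (.l (.s k119 k68
  4 (.s k51 k187 9 (.s k17 k34 4 (.d k153 k221 k204 9 14))))) .n))))))))))))

def t1_47 : T TT 256 :=
  (.f k255 k170 14 (.q k102 [(.s k68 k119 4 (.s k204 k136 9 (.s k153 k51 14 (.d k221 k238 k17 4
  9))))] (.c k17 (.f k119 k68 4 (.f k51 k187 9 (.f k153 k204 14 (.q k49 [(.s k48 k50 0 (.s k101 k205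
  13 (.d k117 k69 k186 3 10))), (.s k48 k50 0 (.s k117 k186 10 (.s k118 k116 0 (.d k185 k253 k252 9
  10)))), (.s k101 k205 13 (.s k69 k117 3 (.s k207 k138 10 (.d k103 k100 k155 0 13)))), (.s k48 k50
  0 (.s k16 k32 3 (.s k154 k223 10 (.d k101 k205 k207 13 14))))] .n)))) (.c k51 (.q k4 [(.s k12 k8 1
  (.s k93 k174 12 (.s k166 k247 12 (.d k89 k81 k243 1 14)))), (.s k68 k119 4 (.s k166 k247 12 (.s
  k38 k230 7 (.s k55 k21 4 (.d k196 k132 k149 7 12))))), (.s k12 k8 1 (.s k68 k119 4 (.s k132 k196 7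
  (.s k72 k192 9 (.s k76 k64 1 (.d k204 k140 k136 7 9))))))] .n) (.c k68 (.q k4 [(.s k166 k247 12
  (.s k12 k8 1 (.s k89 k243 14 (.d k93 k81 k174 1 12)))), (.s k166 k247 12 (.s k38 k230 7 (.s k21
  k55 4 (.s k63 k42 6 (.s k127 k191 7 (.s k106 k64 6 (.d k149 k213 k192 7 14)))))))] (.c k166 (.f
  k12 k8 1 (.q k89 [(.d k93 k174 k81 12 1), (.s k76 k115 6 (.s k204 k140 7 (.s k153 k51 14 (.d k221
  k238 k17 4 9))))] (.c k162 (.l (.s k174 k93 12 (.s k76 k115 6 (.s k204 k140 7 (.s k153 k51 14 (.d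
  k221 k238 k17 4 9)))))) (.c k174 (.q k162 [(.d k81 k93 k243 1 12), (.s k76 k115 6 (.s k204 k140 7
  (.s k221 k238 4 (.d k153 k17 k51 9 14))))] .n) .n)))) (.c k247 (.l (.s k12 k8 1 (.s k93 k174 12
  (.s k89 k81 1 (.s k76 k115 6 (.s k204 k140 7 (.s k153 k51 14 (.d k221 k238 k17 4 9)))))))) .n)))
  (.c k119 (.q k247 [(.s k166 k4 12 (.s k243 k251 1 (.s k81 k162 12 (.d k89 k93 k12 1 14)))), (.s
  k166 k4 12 (.s k230 k38 7 (.s k213 k196 4 (.s k192 k234 6 (.s k64 k128 7 (.s k106 k127 6 (.d k149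
  k21 k63 7 14)))))))] (.c k4 (.l (.s k243 k251 1 (.s k81 k162 12 (.s k89 k93 1 (.s k115 k76 6 (.s
  k51 k179 7 (.s k17 k34 4 (.d k153 k221 k204 9 14)))))))) (.c k166 (.f k243 k251 1 (.q k89 [(.d k81
  k162 k93 12 1), (.s k115 k76 6 (.s k51 k179 7 (.s k17 k34 4 (.d k153 k221 k204 9 14))))] (.c k162
  (.q k174 [(.d k93 k81 k12 1 12), (.s k115 k76 6 (.s k51 k179 7 (.s k17 k34 4 (.d k153 k221 k204 9
  14))))] .n) (.c k174 (.l (.s k162 k81 12 (.s k115 k76 6 (.s k51 k179 7 (.s k17 k34 4 (.d k153 k221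
  k204 9 14)))))) .n)))) .n))) (.c k136 (.l (.s k119 k68 4 (.s k51 k187 9 (.s k153 k204 14 (.d k17
  k34 k221 4 9))))) (.c k153 (.f k68 k119 4 (.q k4 [(.s k166 k247 12 (.s k12 k8 1 (.s k89 k243 14
  (.d k93 k81 k174 1 12)))), (.s k166 k247 12 (.s k38 k230 7 (.s k55 k21 4 (.d k196 k132 k149 7
  12)))), (.s k12 k8 1 (.s k132 k196 7 (.s k72 k192 9 (.s k76 k64 1 (.d k204 k136 k140 9 7)))))] (.c
  k136 (.q k187 [(.s k166 k247 12 (.s k38 k230 7 (.s k55 k21 4 (.d k196 k132 k149 7 12)))), (.s k12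
  k8 1 (.s k93 k174 12 (.s k89 k81 1 (.s k76 k115 6 (.s k127 k110 4 (.d k64 k72 k106 1 6))))))] (.c
  k166 (.l (.s k12 k8 1 (.s k132 k196 7 (.s k72 k192 9 (.s k76 k64 1 (.s k89 k115 6 (.d k93 k81 k174
  1 12))))))) .n)) (.c k187 (.l (.s k136 k204 9 (.s k12 k8 1 (.s k93 k174 12 (.s k89 k81 1 (.d k166
  k247 k243 12 14)))))) .n)))) (.c k187 (.l (.s k68 k119 4 (.s k204 k136 9 (.s k153 k51 14 (.d k221
  k238 k17 4 9))))) (.c k204 (.q k4 [(.s k12 k8 1 (.s k93 k174 12 (.s k166 k247 12 (.d k89 k81 k243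
  1 14)))), (.s k68 k119 4 (.s k166 k247 12 (.s k38 k230 7 (.s k55 k21 4 (.d k196 k132 k149 7
  12))))), (.s k12 k8 1 (.s k119 k68 4 (.s k51 k187 9 (.s k34 k17 4 (.s k38 k25 6 (.s k21 k55 4 (.d
  k42 k46 k63 1 6)))))))] .n) (.c k221 (.q k3 [(.s k68 k119 4 (.s k87 k171 13 (.s k86 k84 0 (.s k70
  k118 3 (.d k204 k136 k137 9 10))))), (.s k87 k171 13 (.s k119 k68 4 (.s k51 k187 9 (.s k19 k35 3
  (.s k103 k71 3 (.d k155 k223 k207 9 13)))))), (.s k87 k171 13 (.s k86 k84 0 (.s k70 k118 3 (.s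
  k169 k252 14 (.s k35 k236 10 (.s k51 k19 3 (.d k204 k137 k153 10 14))))))), (.s k68 k119 4 (.s
  k204 k136 9 (.s k70 k137 10 (.s k86 k118 3 (.s k153 k51 14 (.s k220 k19 10 (.d k252 k236 k169 3
  14)))))))] (.c k70 (.l (.s k87 k171 13 (.s k86 k84 0 (.s k119 k68 4 (.s k51 k187 9 (.s k19 k35 3
  (.d k153 k220 k204 10 14))))))) (.c k169 (.l (.s k68 k119 4 (.s k204 k136 9 (.s k70 k137 10 (.s
  k86 k118 3 (.d k87 k84 k171 0 13)))))) .n))) (.c k238 (.l (.s k119 k68 4 (.s k51 k187 9 (.s k17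
  k34 4 (.d k153 k221 k204 9 14))))) .n))))))))))))

def t1_60 : T TT 256 :=
  (.f k255 k170 14 (.q k102 [(.s k68 k119 4 (.s k204 k136 9 (.s k221 k238 4 (.d k153 k17 k51 9
  14))))] (.c k17 (.f k68 k119 4 (.q k106 [(.s k64 k127 6 (.s k76 k72 1 (.s k98 k110 1 (.d k115 k81
  k89 4 6)))), (.s k110 k98 1 (.s k204 k136 9 (.s k63 k157 12 (.s k21 k42 6 (.d k149 k213 k192 7
  14))))), (.s k64 k127 6 (.s k192 k128 7 (.s k149 k63 14 (.d k213 k234 k21 6 7))))] (.c k33 (.q k49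
  [(.s k64 k127 6 (.s k76 k72 1 (.s k98 k110 1 (.d k115 k81 k89 4 6)))), (.s k110 k98 1 (.s k204
  k136 9 (.s k63 k157 12 (.s k21 k42 6 (.d k149 k213 k192 7 14))))), (.s k64 k127 6 (.s k192 k128 7
  (.s k149 k63 14 (.d k213 k234 k21 6 7))))] .n) (.c k49 (.q k33 [(.s k64 k127 6 (.s k76 k72 1 (.s
  k98 k110 1 (.d k115 k81 k89 4 6)))), (.s k110 k98 1 (.s k204 k136 9 (.s k63 k157 12 (.s k21 k42 6
  (.d k149 k213 k192 7 14))))), (.s k64 k127 6 (.s k192 k128 7 (.s k149 k63 14 (.d k213 k234 k21 6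
  7))))] .n) .n)))) (.c k51 (.f k119 k68 4 (.q k247 [(.s k55 k183 7 (.s k149 k196 12 (.s k21 k213 7
  (.d k4 k38 k166 4 12)))), (.s k243 k251 1 (.s k81 k162 12 (.s k89 k93 1 (.d k166 k4 k12 12 14))))]
  (.c k4 (.l (.s k183 k55 7 (.s k243 k251 1 (.s k81 k162 12 (.s k89 k93 1 (.s k115 k76 6 (.d k123
  k127 k63 1 9))))))) (.c k54 (.q k57 [(.s k55 k183 7 (.s k149 k196 12 (.s k21 k213 7 (.d k4 k38
  k166 4 12)))), (.s k243 k251 1 (.s k81 k162 12 (.s k89 k93 1 (.d k166 k4 k12 12 14))))] (.c k4 (.l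
  (.s k183 k55 7 (.s k243 k251 1 (.s k81 k162 12 (.s k89 k93 1 (.s k115 k76 6 (.d k123 k127 k63 1
  9))))))) (.c k166 (.l (.s k55 k183 7 (.s k149 k196 12 (.s k21 k213 7 (.s k63 k42 6 (.s k106 k192
  14 (.d k127 k64 k191 6 7))))))) .n))) (.c k57 (.q k54 [(.s k55 k183 7 (.s k149 k196 12 (.s k21
  k213 7 (.d k4 k38 k166 4 12)))), (.s k55 k183 7 (.s k52 k53 0 (.s k117 k182 8 (.s k101 k69 3 (.d
  k150 k198 k199 11 12))))), (.s k166 k4 12 (.s k243 k251 1 (.s k81 k162 12 (.d k89 k93 k12 1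
  14))))] .n) (.c k166 (.l (.s k55 k183 7 (.s k149 k196 12 (.s k21 k213 7 (.s k63 k42 6 (.s k106
  k192 14 (.d k127 k64 k191 6 7))))))) .n)))))) (.c k68 (.q k4 [(.s k12 k8 1 (.s k93 k174 12 (.s
  k166 k247 12 (.d k89 k81 k243 1 14)))), (.s k166 k247 12 (.s k38 k230 7 (.s k21 k55 4 (.s k63 k42
  6 (.s k127 k191 7 (.s k106 k64 6 (.d k149 k213 k192 7 14)))))))] (.c k166 (.f k12 k8 1 (.q k89
  [(.d k93 k174 k81 12 1), (.s k76 k115 6 (.s k204 k140 7 (.s k153 k51 14 (.d k221 k238 k17 4 9))))]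
  (.c k162 (.l (.s k174 k93 12 (.s k76 k115 6 (.s k204 k140 7 (.s k153 k51 14 (.d k221 k238 k17 4
  9)))))) (.c k174 (.q k162 [(.d k81 k93 k243 1 12), (.s k76 k115 6 (.s k204 k140 7 (.s k221 k238 4
  (.d k153 k17 k51 9 14))))] .n) .n)))) (.c k247 (.l (.s k12 k8 1 (.s k93 k174 12 (.s k89 k81 1 (.s
  k76 k115 6 (.s k204 k140 7 (.s k153 k51 14 (.d k221 k238 k17 4 9)))))))) .n))) (.c k119 (.q k213
  [(.s k149 k21 7 (.s k192 k234 6 (.s k64 k128 7 (.d k106 k127 k63 6 14)))), (.s k149 k21 7 (.s k196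
  k55 12 (.s k247 k230 4 (.s k243 k251 1 (.s k81 k162 12 (.s k89 k93 1 (.d k166 k4 k12 12 14))))))),
  (.s k192 k234 6 (.s k64 k128 7 (.s k106 k127 6 (.s k98 k110 1 (.s k51 k145 12 (.s k17 k34 4 (.d
  k153 k221 k204 9 14)))))))] (.c k149 (.f k192 k234 6 (.q k106 [(.d k64 k128 k127 7 6), (.s k98
  k110 1 (.s k51 k145 12 (.s k17 k34 4 (.d k153 k221 k204 9 14))))] (.c k128 (.q k191 [(.d k127 k64
  k63 6 7), (.s k98 k110 1 (.s k51 k145 12 (.s k17 k34 4 (.d k153 k221 k204 9 14))))] .n) (.c k191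
  (.l (.s k128 k64 7 (.s k98 k110 1 (.s k51 k145 12 (.s k17 k34 4 (.d k153 k221 k204 9 14))))))
  .n)))) .n)) (.c k136 (.l (.s k119 k68 4 (.s k51 k187 9 (.s k153 k204 14 (.d k17 k34 k221 4 9)))))
  (.c k153 (.f k68 k119 4 (.q k4 [(.s k12 k8 1 (.s k93 k174 12 (.s k89 k81 1 (.d k166 k247 k243 12
  14)))), (.s k166 k247 12 (.s k38 k230 7 (.s k55 k21 4 (.d k196 k132 k149 7 12)))), (.s k12 k8 1
  (.s k132 k196 7 (.s k72 k192 9 (.s k76 k64 1 (.d k204 k136 k140 9 7)))))] (.c k136 (.q k187 [(.s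
  k166 k247 12 (.s k38 k230 7 (.s k55 k21 4 (.d k196 k132 k149 7 12)))), (.s k12 k8 1 (.s k93 k174
  12 (.s k89 k81 1 (.s k76 k115 6 (.s k127 k110 4 (.d k64 k72 k106 1 6))))))] (.c k166 (.l (.s k12
  k8 1 (.s k132 k196 7 (.s k72 k192 9 (.s k76 k64 1 (.s k89 k115 6 (.d k93 k81 k174 1 12))))))) .n))
  (.c k187 (.l (.s k136 k204 9 (.s k12 k8 1 (.s k93 k174 12 (.s k89 k81 1 (.d k166 k247 k243 12
  14)))))) .n)))) (.c k187 (.l (.s k68 k119 4 (.s k204 k136 9 (.s k153 k51 14 (.d k221 k238 k17 4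
  9))))) (.c k204 (.f k68 k119 4 (.q k4 [(.s k166 k247 12 (.s k196 k132 7 (.s k55 k149 12 (.d k38
  k21 k230 4 7)))), (.s k12 k8 1 (.s k93 k174 12 (.s k89 k81 1 (.s k76 k115 6 (.s k64 k72 1 (.d k127
  k110 k106 4 6))))))] (.c k108 (.q k156 [(.s k166 k247 12 (.s k196 k132 7 (.s k55 k149 12 (.d k38
  k21 k230 4 7)))), (.s k12 k8 1 (.s k93 k174 12 (.s k89 k81 1 (.s k76 k115 6 (.s k64 k72 1 (.d k127
  k110 k106 4 6))))))] (.c k166 (.l (.s k196 k132 7 (.s k149 k55 12 (.s k21 k213 7 (.s k63 k42 6 (.s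
  k106 k192 14 (.d k127 k64 k191 6 7))))))) .n)) (.c k156 (.q k108 [(.s k166 k247 12 (.s k196 k132 7
  (.s k55 k149 12 (.d k38 k21 k230 4 7)))), (.s k12 k8 1 (.s k93 k174 12 (.s k89 k81 1 (.s k76 k115
  6 (.s k64 k72 1 (.d k127 k110 k106 4 6))))))] (.c k166 (.l (.s k196 k132 7 (.s k149 k55 12 (.s k21
  k213 7 (.s k63 k42 6 (.s k106 k192 14 (.d k127 k64 k191 6 7))))))) .n)) (.c k166 (.l (.s k196 k132
  7 (.s k149 k55 12 (.s k21 k213 7 (.s k63 k42 6 (.s k106 k192 14 (.d k127 k64 k191 6 7)))))))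
  .n))))) (.c k221 (.q k3 [(.s k68 k119 4 (.s k87 k171 13 (.s k86 k84 0 (.s k70 k118 3 (.d k204 k136
  k137 9 10))))), (.s k87 k171 13 (.s k119 k68 4 (.s k51 k187 9 (.s k19 k35 3 (.s k103 k71 3 (.d
  k155 k223 k207 9 13)))))), (.s k87 k171 13 (.s k86 k84 0 (.s k70 k118 3 (.s k169 k252 14 (.s k35
  k236 10 (.s k51 k19 3 (.d k204 k137 k153 10 14))))))), (.s k68 k119 4 (.s k204 k136 9 (.s k70 k137
  10 (.s k86 k118 3 (.s k153 k51 14 (.s k220 k19 10 (.d k252 k236 k169 3 14)))))))] (.c k70 (.l (.s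
  k87 k171 13 (.s k86 k84 0 (.s k119 k68 4 (.s k51 k187 9 (.s k19 k35 3 (.d k153 k220 k204 10
  14))))))) (.c k169 (.l (.s k68 k119 4 (.s k204 k136 9 (.s k70 k137 10 (.s k86 k118 3 (.d k87 k84
  k171 0 13)))))) .n))) (.c k238 (.l (.s k119 k68 4 (.s k51 k187 9 (.s k17 k34 4 (.d k153 k221 k204
  9 14))))) .n))))))))))))

def t1_61 : T TT 256 :=
  (.f k255 k170 14 (.q k21 [(.s k149 k213 7 (.s k63 k42 6 (.s k106 k192 14 (.d k127 k64 k191 6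
  7))))] (.c k42 (.q k102 [(.s k68 k119 4 (.s k204 k136 9 (.s k153 k51 14 (.d k221 k238 k17 4 9)))),
  (.s k149 k213 7 (.s k55 k196 12 (.s k4 k38 4 (.s k12 k8 1 (.s k93 k174 12 (.s k89 k81 1 (.d k166
  k247 k243 12 14)))))))] (.c k106 (.q k234 [(.d k213 k192 k149 6 7), (.s k68 k119 4 (.s k204 k136 9
  (.s k153 k51 14 (.d k221 k238 k17 4 9))))] .n) (.c k234 (.q k106 [(.s k64 k127 6 (.s k149 k213 7
  (.d k192 k128 k63 7 14))), (.s k68 k119 4 (.s k204 k136 9 (.s k153 k51 14 (.d k221 k238 k17 4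
  9))))] .n) .n))) (.c k63 (.q k60 [(.s k20 k40 5 (.s k125 k190 8 (.s k150 k215 8 (.d k105 k65 k195
  5 14)))), (.s k20 k40 5 (.s k213 k149 7 (.s k192 k234 6 (.s k128 k64 7 (.s k148 k104 13 (.s k84
  k212 7 (.d k168 k188 k252 5 13))))))), (.s k125 k190 8 (.s k105 k65 5 (.s k213 k149 7 (.s k192
  k234 6 (.s k104 k148 13 (.s k106 k107 0 (.d k64 k128 k127 7 6)))))))] (.c k105 (.f k40 k20 5 (.f
  k149 k213 7 (.q k4 [(.s k55 k38 4 (.s k102 k196 12 (.s k119 k68 4 (.d k247 k183 k166 7 12)))), (.s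
  k12 k8 1 (.s k44 k28 3 (.s k174 k93 12 (.s k109 k239 8 (.s k158 k207 12 (.d k190 k142 k125 3
  8))))))] .n))) .n)) (.c k64 (.q k3 [(.s k63 k42 6 (.s k87 k171 13 (.s k86 k84 0 (.s k149 k213 7
  (.d k23 k43 k212 5 8))))), (.s k63 k42 6 (.s k23 k43 5 (.s k20 k22 0 (.s k215 k150 8 (.s k151 k87
  7 (.d k195 k235 k107 5 13)))))), (.s k87 k171 13 (.s k86 k84 0 (.s k149 k213 7 (.s k23 k212 8 (.s
  k20 k22 0 (.d k215 k151 k150 7 8))))))] (.c k23 (.l (.s k63 k42 6 (.s k87 k171 13 (.s k86 k84 0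
  (.s k149 k213 7 (.s k106 k192 14 (.s k126 k66 5 (.d k252 k169 k189 14 8)))))))) (.c k86 (.l (.s
  k63 k42 6 (.s k23 k43 5 (.s k20 k22 0 (.s k87 k171 13 (.d k215 k150 k151 8 7)))))) (.c k87 (.l (.s
  k63 k42 6 (.s k23 k43 5 (.s k20 k22 0 (.s k149 k213 7 (.s k150 k215 8 (.s k148 k151 0 (.d k212 k84
  k86 7 8)))))))) .n)))) (.c k106 (.q k102 [(.s k68 k119 4 (.s k204 k136 9 (.s k153 k51 14 (.d k221
  k238 k17 4 9)))), (.s k149 k213 7 (.s k55 k196 12 (.s k4 k38 4 (.s k12 k8 1 (.s k93 k174 12 (.s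
  k89 k81 1 (.d k166 k247 k243 12 14)))))))] (.c k42 (.q k234 [(.d k213 k192 k149 6 7), (.s k68 k119
  4 (.s k204 k136 9 (.s k153 k51 14 (.d k221 k238 k17 4 9))))] .n) (.c k234 (.l (.s k42 k63 6 (.s
  k68 k119 4 (.s k204 k136 9 (.s k153 k51 14 (.d k221 k238 k17 4 9)))))) .n))) (.c k127 (.q k3 [(.s
  k63 k42 6 (.s k87 k171 13 (.s k86 k84 0 (.s k149 k213 7 (.d k23 k43 k212 5 8))))), (.s k63 k42 6
  (.s k23 k43 5 (.s k20 k22 0 (.s k215 k150 8 (.s k151 k87 7 (.d k195 k107 k235 13 5)))))), (.s k87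
  k171 13 (.s k86 k84 0 (.s k149 k213 7 (.s k23 k212 8 (.s k20 k22 0 (.d k215 k151 k150 7 8))))))]
  (.c k23 (.l (.s k63 k42 6 (.s k87 k171 13 (.s k86 k84 0 (.s k149 k213 7 (.s k106 k192 14 (.s k126
  k66 5 (.d k252 k169 k189 14 8)))))))) (.c k86 (.l (.s k63 k42 6 (.s k23 k43 5 (.s k20 k22 0 (.s
  k87 k171 13 (.d k215 k150 k151 8 7)))))) (.c k87 (.l (.s k63 k42 6 (.s k23 k43 5 (.s k20 k22 0 (.s
  k149 k213 7 (.s k150 k215 8 (.s k148 k151 0 (.d k212 k84 k86 7 8)))))))) .n)))) (.c k149 (.q k55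
  [(.s k4 k38 4 (.s k12 k8 1 (.s k93 k174 12 (.s k166 k247 12 (.d k89 k81 k243 1 14))))), (.s k63
  k42 6 (.s k51 k59 1 (.s k119 k187 9 (.s k102 k68 4 (.s k153 k204 14 (.d k17 k34 k221 4 9))))))]
  (.c k8 (.l (.s k4 k38 4 (.s k63 k42 6 (.s k247 k166 12 (.s k183 k119 7 (.d k243 k251 k123 1
  9)))))) (.c k105 (.q k193 [(.s k4 k38 4 (.s k12 k8 1 (.s k93 k174 12 (.s k166 k247 12 (.d k89 k81
  k243 1 14))))), (.s k63 k42 6 (.s k51 k59 1 (.s k119 k187 9 (.s k102 k68 4 (.s k153 k204 14 (.d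
  k17 k34 k221 4 9))))))] (.c k8 (.l (.s k4 k38 4 (.s k63 k42 6 (.s k247 k166 12 (.s k183 k119 7 (.d
  k243 k251 k123 1 9)))))) (.c k40 (.q k235 [(.s k4 k38 4 (.s k12 k8 1 (.s k93 k174 12 (.s k166 k247
  12 (.d k89 k81 k243 1 14))))), (.s k63 k42 6 (.s k51 k59 1 (.s k119 k187 9 (.s k102 k68 4 (.s k153
  k204 14 (.d k17 k34 k221 4 9))))))] (.c k8 (.l (.s k4 k38 4 (.s k63 k42 6 (.s k247 k166 12 (.s
  k183 k119 7 (.d k243 k251 k123 1 9)))))) (.c k128 (.q k191 [(.d k63 k42 k127 6 7), (.s k4 k38 4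
  (.s k12 k8 1 (.s k93 k174 12 (.s k89 k81 1 (.d k166 k247 k243 12 14)))))] .n) (.c k191 (.q k128
  [(.s k192 k64 7 (.d k195 k194 k215 0 5)), (.s k4 k38 4 (.s k12 k8 1 (.s k93 k174 12 (.s k89 k81 1
  (.d k166 k247 k243 12 14)))))] .n) (.c k251 (.l (.s k4 k38 4 (.s k63 k42 6 (.s k51 k59 1 (.s k247
  k166 12 (.d k119 k183 k187 7 9)))))) .n))))) (.c k128 (.q k191 [(.d k63 k42 k127 6 7), (.s k4 k38
  4 (.s k12 k8 1 (.s k93 k174 12 (.s k89 k81 1 (.d k166 k247 k243 12 14)))))] (.c k40 (.q k235 [(.d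
  k63 k42 k127 6 7), (.s k4 k38 4 (.s k12 k8 1 (.s k93 k174 12 (.s k89 k81 1 (.d k166 k247 k243 12
  14)))))] .n) (.c k235 (.q k40 [(.d k63 k42 k127 6 7), (.s k4 k38 4 (.s k12 k8 1 (.s k93 k174 12
  (.s k89 k81 1 (.d k166 k247 k243 12 14)))))] .n) .n))) (.c k191 (.q k128 [(.s k4 k38 4 (.s k12 k8
  1 (.s k166 k247 12 (.s k89 k243 14 (.d k93 k81 k174 1 12))))), (.s k63 k42 6 (.s k51 k59 1 (.s
  k119 k187 9 (.s k102 k68 4 (.s k153 k204 14 (.d k17 k34 k221 4 9))))))] (.c k8 (.l (.s k4 k38 4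
  (.s k63 k42 6 (.s k247 k166 12 (.s k183 k119 7 (.d k243 k251 k123 1 9)))))) (.c k40 (.q k235 [(.s
  k192 k64 7 (.d k195 k194 k215 0 5)), (.s k4 k38 4 (.s k12 k8 1 (.s k93 k174 12 (.s k89 k81 1 (.d
  k166 k247 k243 12 14)))))] .n) (.c k235 (.q k40 [(.s k4 k38 4 (.s k12 k8 1 (.s k166 k247 12 (.s
  k89 k243 14 (.d k93 k81 k174 1 12))))), (.s k63 k42 6 (.s k51 k59 1 (.s k119 k187 9 (.s k102 k68 4
  (.s k153 k204 14 (.d k17 k34 k221 4 9))))))] (.c k8 (.l (.s k4 k38 4 (.s k63 k42 6 (.s k247 k166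
  12 (.s k183 k119 7 (.d k243 k251 k123 1 9)))))) (.c k251 (.l (.s k4 k38 4 (.s k63 k42 6 (.s k51
  k59 1 (.s k247 k166 12 (.d k119 k183 k187 7 9)))))) .n))) (.c k251 (.l (.s k4 k38 4 (.s k63 k42 6
  (.s k51 k59 1 (.s k247 k166 12 (.d k119 k183 k187 7 9)))))) .n))))) (.c k235 (.q k40 [(.s k4 k38 4
  (.s k12 k8 1 (.s k93 k174 12 (.s k166 k247 12 (.d k89 k81 k243 1 14))))), (.s k63 k42 6 (.s k51
  k59 1 (.s k119 k187 9 (.s k102 k68 4 (.s k153 k204 14 (.d k17 k34 k221 4 9))))))] (.c k8 (.l (.s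
  k4 k38 4 (.s k63 k42 6 (.s k247 k166 12 (.s k183 k119 7 (.d k243 k251 k123 1 9)))))) (.c k128 (.q
  k191 [(.d k63 k42 k127 6 7), (.s k4 k38 4 (.s k12 k8 1 (.s k93 k174 12 (.s k89 k81 1 (.d k166 k247
  k243 12 14)))))] .n) (.c k191 (.q k128 [(.s k4 k38 4 (.s k12 k8 1 (.s k166 k247 12 (.s k89 k243 14
  (.d k93 k81 k174 1 12))))), (.s k63 k42 6 (.s k51 k59 1 (.s k119 k187 9 (.s k102 k68 4 (.s k153
  k204 14 (.d k17 k34 k221 4 9))))))] (.c k8 (.l (.s k4 k38 4 (.s k63 k42 6 (.s k247 k166 12 (.s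
  k183 k119 7 (.d k243 k251 k123 1 9)))))) (.c k251 (.l (.s k4 k38 4 (.s k63 k42 6 (.s k51 k59 1 (.s
  k247 k166 12 (.d k119 k183 k187 7 9)))))) .n))) (.c k251 (.l (.s k4 k38 4 (.s k63 k42 6 (.s k51
  k59 1 (.s k247 k166 12 (.d k119 k183 k187 7 9)))))) .n))))) (.c k251 (.l (.s k4 k38 4 (.s k63 k42
  6 (.s k51 k59 1 (.s k247 k166 12 (.d k119 k183 k187 7 9)))))) .n))))))) (.c k128 (.q k191 [(.d k63
  k42 k127 6 7), (.s k4 k38 4 (.s k12 k8 1 (.s k93 k174 12 (.s k89 k81 1 (.d k166 k247 k243 12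
  14)))))] (.c k105 (.q k193 [(.d k63 k42 k127 6 7), (.s k4 k38 4 (.s k12 k8 1 (.s k93 k174 12 (.s
  k89 k81 1 (.d k166 k247 k243 12 14)))))] (.c k40 (.q k235 [(.d k63 k42 k127 6 7), (.s k4 k38 4 (.s
  k12 k8 1 (.s k93 k174 12 (.s k89 k81 1 (.d k166 k247 k243 12 14)))))] .n) (.c k235 (.q k40 [(.d
  k63 k42 k127 6 7), (.s k4 k38 4 (.s k12 k8 1 (.s k93 k174 12 (.s k89 k81 1 (.d k166 k247 k243 12
  14)))))] .n) .n))) (.c k193 (.q k105 [(.d k63 k42 k127 6 7), (.s k65 k125 5 (.s k195 k130 8 (.s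
  k215 k235 5 (.d k150 k20 k60 8 14))))] (.c k65 (.q k129 [(.d k63 k42 k127 6 7), (.s k4 k38 4 (.s
  k12 k8 1 (.s k93 k174 12 (.s k89 k81 1 (.d k166 k247 k243 12 14)))))] .n) (.c k129 (.l (.s k65
  k125 5 (.d k63 k42 k127 6 7))) .n))) .n))) (.c k191 (.q k128 [(.s k4 k38 4 (.s k12 k8 1 (.s k166
  k247 12 (.s k89 k243 14 (.d k93 k81 k174 1 12))))), (.s k63 k42 6 (.s k51 k59 1 (.s k119 k187 9
  (.s k102 k68 4 (.s k153 k204 14 (.d k17 k34 k221 4 9))))))] (.c k8 (.l (.s k4 k38 4 (.s k63 k42 6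
  (.s k247 k166 12 (.s k183 k119 7 (.d k243 k251 k123 1 9)))))) (.c k105 (.q k193 [(.s k4 k38 4 (.s
  k12 k8 1 (.s k166 k247 12 (.s k89 k243 14 (.d k93 k81 k174 1 12))))), (.s k63 k42 6 (.s k51 k59 1
  (.s k119 k187 9 (.s k102 k68 4 (.s k153 k204 14 (.d k17 k34 k221 4 9))))))] (.c k8 (.l (.s k4 k38
  4 (.s k63 k42 6 (.s k247 k166 12 (.s k183 k119 7 (.d k243 k251 k123 1 9)))))) (.c k40 (.q k235
  [(.s k192 k64 7 (.d k195 k194 k215 0 5)), (.s k4 k38 4 (.s k12 k8 1 (.s k93 k174 12 (.s k89 k81 1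
  (.d k166 k247 k243 12 14)))))] .n) (.c k235 (.q k40 [(.s k4 k38 4 (.s k12 k8 1 (.s k166 k247 12
  (.s k89 k243 14 (.d k93 k81 k174 1 12))))), (.s k63 k42 6 (.s k51 k59 1 (.s k119 k187 9 (.s k102
  k68 4 (.s k153 k204 14 (.d k17 k34 k221 4 9))))))] (.c k8 (.l (.s k4 k38 4 (.s k63 k42 6 (.s k247
  k166 12 (.s k183 k119 7 (.d k243 k251 k123 1 9)))))) (.c k251 (.l (.s k4 k38 4 (.s k63 k42 6 (.s
  k51 k59 1 (.s k247 k166 12 (.d k119 k183 k187 7 9)))))) .n))) (.c k251 (.l (.s k4 k38 4 (.s k63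
  k42 6 (.s k51 k59 1 (.s k247 k166 12 (.d k119 k183 k187 7 9)))))) .n))))) (.c k193 (.q k105 [(.s
  k65 k125 5 (.s k195 k130 8 (.s k215 k235 5 (.d k150 k20 k60 8 14)))), (.s k4 k38 4 (.s k12 k8 1
  (.s k93 k174 12 (.s k89 k81 1 (.d k166 k247 k243 12 14)))))] (.c k65 (.q k129 [(.s k4 k38 4 (.s
  k12 k8 1 (.s k166 k247 12 (.s k89 k243 14 (.d k93 k81 k174 1 12))))), (.s k63 k42 6 (.s k51 k59 1
  (.s k119 k187 9 (.s k102 k68 4 (.s k153 k204 14 (.d k17 k34 k221 4 9))))))] (.c k8 (.l (.s k4 k38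
  4 (.s k63 k42 6 (.s k247 k166 12 (.s k183 k119 7 (.d k243 k251 k123 1 9)))))) (.c k251 (.l (.s k4
  k38 4 (.s k63 k42 6 (.s k51 k59 1 (.s k247 k166 12 (.d k119 k183 k187 7 9)))))) .n))) (.c k129 (.l
  (.s k65 k125 5 (.s k195 k130 8 (.s k150 k60 14 (.d k215 k235 k20 5 8))))) .n))) (.c k251 (.l (.s
  k4 k38 4 (.s k63 k42 6 (.s k51 k59 1 (.s k247 k166 12 (.d k119 k183 k187 7 9)))))) .n))))) (.c
  k193 (.q k105 [(.s k65 k125 5 (.s k195 k130 8 (.s k215 k235 5 (.d k150 k20 k60 8 14)))), (.s k4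
  k38 4 (.s k12 k8 1 (.s k93 k174 12 (.s k89 k81 1 (.d k166 k247 k243 12 14)))))] (.c k65 (.q k129
  [(.s k4 k38 4 (.s k12 k8 1 (.s k93 k174 12 (.s k166 k247 12 (.d k89 k81 k243 1 14))))), (.s k63
  k42 6 (.s k51 k59 1 (.s k119 k187 9 (.s k102 k68 4 (.s k153 k204 14 (.d k17 k34 k221 4 9))))))]
  (.c k8 (.l (.s k4 k38 4 (.s k63 k42 6 (.s k247 k166 12 (.s k183 k119 7 (.d k243 k251 k123 1
  9)))))) (.c k128 (.q k191 [(.d k63 k42 k127 6 7), (.s k4 k38 4 (.s k12 k8 1 (.s k93 k174 12 (.s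
  k89 k81 1 (.d k166 k247 k243 12 14)))))] .n) (.c k191 (.q k128 [(.s k4 k38 4 (.s k12 k8 1 (.s k166
  k247 12 (.s k89 k243 14 (.d k93 k81 k174 1 12))))), (.s k63 k42 6 (.s k51 k59 1 (.s k119 k187 9
  (.s k102 k68 4 (.s k153 k204 14 (.d k17 k34 k221 4 9))))))] (.c k8 (.l (.s k4 k38 4 (.s k63 k42 6
  (.s k247 k166 12 (.s k183 k119 7 (.d k243 k251 k123 1 9)))))) (.c k251 (.l (.s k4 k38 4 (.s k63
  k42 6 (.s k51 k59 1 (.s k247 k166 12 (.d k119 k183 k187 7 9)))))) .n))) (.c k251 (.l (.s k4 k38 4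
  (.s k63 k42 6 (.s k51 k59 1 (.s k247 k166 12 (.d k119 k183 k187 7 9)))))) .n))))) (.c k128 (.q
  k191 [(.d k63 k42 k127 6 7), (.s k65 k125 5 (.s k195 k130 8 (.s k215 k235 5 (.d k150 k20 k60 8
  14))))] (.c k65 (.q k129 [(.d k63 k42 k127 6 7), (.s k4 k38 4 (.s k12 k8 1 (.s k93 k174 12 (.s k89
  k81 1 (.d k166 k247 k243 12 14)))))] .n) (.c k129 (.l (.s k65 k125 5 (.d k63 k42 k127 6 7))) .n)))
  (.c k129 (.l (.s k65 k125 5 (.s k195 k130 8 (.s k150 k60 14 (.d k215 k235 k20 5 8))))) (.c k191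
  (.q k128 [(.s k65 k125 5 (.s k195 k130 8 (.s k215 k235 5 (.d k150 k20 k60 8 14)))), (.s k4 k38 4
  (.s k12 k8 1 (.s k93 k174 12 (.s k89 k81 1 (.d k166 k247 k243 12 14)))))] (.c k65 (.q k129 [(.s k4
  k38 4 (.s k12 k8 1 (.s k166 k247 12 (.s k89 k243 14 (.d k93 k81 k174 1 12))))), (.s k63 k42 6 (.s
  k51 k59 1 (.s k119 k187 9 (.s k102 k68 4 (.s k153 k204 14 (.d k17 k34 k221 4 9))))))] (.c k8 (.l
  (.s k4 k38 4 (.s k63 k42 6 (.s k247 k166 12 (.s k183 k119 7 (.d k243 k251 k123 1 9)))))) (.c k251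
  (.l (.s k4 k38 4 (.s k63 k42 6 (.s k51 k59 1 (.s k247 k166 12 (.d k119 k183 k187 7 9)))))) .n)))
  (.c k129 (.l (.s k65 k125 5 (.s k195 k130 8 (.s k150 k60 14 (.d k215 k235 k20 5 8))))) .n)))
  .n))))) (.c k251 (.l (.s k4 k38 4 (.s k63 k42 6 (.s k51 k59 1 (.s k247 k166 12 (.d k119 k183 k187
  7 9)))))) .n))))))) (.c k191 (.f k149 k213 7 (.q k3 [(.s k63 k42 6 (.s k23 k43 5 (.s k86 k212 8
  (.d k87 k84 k171 0 13)))), (.s k63 k42 6 (.s k87 k171 13 (.s k86 k84 0 (.s k106 k192 14 (.s k126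
  k66 5 (.d k252 k169 k189 14 8)))))), (.s k87 k171 13 (.s k86 k84 0 (.s k23 k212 8 (.s k20 k22 0
  (.d k215 k151 k150 7 8))))), (.s k63 k42 6 (.s k23 k43 5 (.s k20 k22 0 (.s k87 k171 13 (.d k215
  k151 k150 7 8)))))] (.c k87 (.l (.s k63 k42 6 (.s k23 k43 5 (.s k20 k22 0 (.s k150 k215 8 (.s k148
  k151 0 (.d k212 k84 k86 7 8))))))) (.c k171 (.l (.s k63 k42 6 (.s k23 k43 5 (.s k86 k212 8 (.s k84
  k87 0 (.d k252 k168 k169 13 14)))))) .n)))) (.c k192 (.q k3 [(.s k63 k42 6 (.s k87 k171 13 (.s k86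
  k84 0 (.s k149 k213 7 (.d k23 k43 k212 5 8))))), (.s k63 k42 6 (.s k23 k43 5 (.s k20 k22 0 (.s
  k215 k150 8 (.s k151 k87 7 (.d k195 k235 k107 5 13)))))), (.s k87 k171 13 (.s k86 k84 0 (.s k149
  k213 7 (.s k23 k212 8 (.s k20 k22 0 (.d k215 k151 k150 7 8))))))] (.c k23 (.l (.s k63 k42 6 (.s
  k87 k171 13 (.s k86 k84 0 (.s k127 k191 7 (.s k106 k64 6 (.s k126 k66 5 (.d k252 k169 k189 14
  8)))))))) (.c k86 (.l (.s k63 k42 6 (.s k23 k43 5 (.s k20 k22 0 (.s k87 k171 13 (.d k215 k150 k151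
  8 7)))))) (.c k87 (.l (.s k63 k42 6 (.s k23 k43 5 (.s k20 k22 0 (.s k149 k213 7 (.s k150 k215 8
  (.s k148 k151 0 (.d k212 k84 k86 7 8)))))))) .n)))) (.c k213 (.q k4 [(.s k166 k247 12 (.s k12 k8 1
  (.s k89 k243 14 (.d k93 k81 k174 1 12)))), (.s k38 k55 4 (.s k42 k63 6 (.s k34 k46 1 (.s k51 k17 4
  (.d k12 k8 k25 1 6))))), (.s k55 k38 4 (.s k63 k42 6 (.s k247 k166 12 (.s k119 k183 7 (.d k51 k59
  k187 1 9)))))] .n) (.c k234 (.l (.s k149 k213 7 (.s k63 k42 6 (.s k106 k192 14 (.d k127 k64 k191 6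
  7))))) .n))))))))))))

def t1_62 : T TT 256 :=
  (.f k255 k170 14 (.q k102 [(.s k68 k119 4 (.s k204 k136 9 (.s k153 k51 14 (.d k221 k238 k17 4
  9))))] (.c k17 (.f k119 k68 4 (.f k51 k187 9 (.f k153 k204 14 (.q k49 [(.s k48 k50 0 (.s k101 k205
  13 (.d k117 k69 k186 3 10))), (.s k48 k50 0 (.s k117 k186 10 (.s k118 k116 0 (.d k185 k253 k252 9
  10)))), (.s k101 k205 13 (.s k69 k117 3 (.s k207 k138 10 (.d k103 k100 k155 0 13)))), (.s k48 k50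
  0 (.s k16 k32 3 (.s k154 k223 10 (.d k101 k205 k207 13 14))))] .n)))) (.c k51 (.q k4 [(.s k12 k8 1
  (.s k93 k174 12 (.s k166 k247 12 (.d k89 k81 k243 1 14)))), (.s k68 k119 4 (.s k166 k247 12 (.s
  k38 k230 7 (.s k55 k21 4 (.d k196 k132 k149 7 12))))), (.s k12 k8 1 (.s k68 k119 4 (.s k132 k196 7
  (.s k72 k192 9 (.s k76 k64 1 (.d k204 k140 k136 7 9))))))] .n) (.c k68 (.q k4 [(.s k166 k247 12
  (.s k12 k8 1 (.s k89 k243 14 (.d k93 k81 k174 1 12)))), (.s k166 k247 12 (.s k38 k230 7 (.s k21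
  k55 4 (.s k63 k42 6 (.s k127 k191 7 (.s k106 k64 6 (.d k149 k213 k192 7 14)))))))] (.c k166 (.f
  k12 k8 1 (.q k89 [(.d k93 k174 k81 12 1), (.s k76 k115 6 (.s k204 k140 7 (.s k153 k51 14 (.d k221
  k238 k17 4 9))))] (.c k162 (.l (.s k174 k93 12 (.s k76 k115 6 (.s k204 k140 7 (.s k153 k51 14 (.d
  k221 k238 k17 4 9)))))) (.c k174 (.q k162 [(.d k81 k93 k243 1 12), (.s k76 k115 6 (.s k204 k140 7
  (.s k221 k238 4 (.d k153 k17 k51 9 14))))] .n) .n)))) (.c k247 (.l (.s k12 k8 1 (.s k93 k174 12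
  (.s k89 k81 1 (.s k76 k115 6 (.s k204 k140 7 (.s k153 k51 14 (.d k221 k238 k17 4 9)))))))) .n)))
  (.c k119 (.q k247 [(.s k166 k4 12 (.s k243 k251 1 (.s k81 k162 12 (.d k89 k93 k12 1 14)))), (.s
  k166 k4 12 (.s k230 k38 7 (.s k213 k196 4 (.s k192 k234 6 (.s k64 k128 7 (.s k106 k127 6 (.d k149
  k21 k63 7 14)))))))] (.c k4 (.l (.s k243 k251 1 (.s k81 k162 12 (.s k89 k93 1 (.s k115 k76 6 (.s
  k51 k179 7 (.s k17 k34 4 (.d k153 k221 k204 9 14)))))))) (.c k166 (.f k243 k251 1 (.q k89 [(.d k81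
  k162 k93 12 1), (.s k115 k76 6 (.s k51 k179 7 (.s k17 k34 4 (.d k153 k221 k204 9 14))))] (.c k162
  (.q k174 [(.d k93 k81 k12 1 12), (.s k115 k76 6 (.s k51 k179 7 (.s k17 k34 4 (.d k153 k221 k204 9
  14))))] .n) (.c k174 (.l (.s k162 k81 12 (.s k115 k76 6 (.s k51 k179 7 (.s k17 k34 4 (.d k153 k221
  k204 9 14)))))) .n)))) .n))) (.c k136 (.l (.s k119 k68 4 (.s k51 k187 9 (.s k153 k204 14 (.d k17
  k34 k221 4 9))))) (.c k153 (.f k68 k119 4 (.q k4 [(.s k166 k247 12 (.s k12 k8 1 (.s k89 k243 14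
  (.d k93 k81 k174 1 12)))), (.s k166 k247 12 (.s k38 k230 7 (.s k55 k21 4 (.d k196 k132 k149 7
  12)))), (.s k12 k8 1 (.s k132 k196 7 (.s k72 k192 9 (.s k76 k64 1 (.d k204 k136 k140 9 7)))))] (.c
  k136 (.q k187 [(.s k166 k247 12 (.s k38 k230 7 (.s k55 k21 4 (.d k196 k132 k149 7 12)))), (.s k12
  k8 1 (.s k93 k174 12 (.s k89 k81 1 (.s k76 k115 6 (.s k127 k110 4 (.d k64 k72 k106 1 6))))))] (.c
  k166 (.l (.s k12 k8 1 (.s k132 k196 7 (.s k72 k192 9 (.s k76 k64 1 (.s k89 k115 6 (.d k93 k81 k174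
  1 12))))))) .n)) (.c k187 (.l (.s k136 k204 9 (.s k12 k8 1 (.s k93 k174 12 (.s k89 k81 1 (.d k166
  k247 k243 12 14)))))) .n)))) (.c k187 (.l (.s k68 k119 4 (.s k204 k136 9 (.s k153 k51 14 (.d k221
  k238 k17 4 9))))) (.c k204 (.q k4 [(.s k12 k8 1 (.s k93 k174 12 (.s k166 k247 12 (.d k89 k81 k243
  1 14)))), (.s k68 k119 4 (.s k166 k247 12 (.s k38 k230 7 (.s k55 k21 4 (.d k196 k132 k149 7
  12))))), (.s k12 k8 1 (.s k119 k68 4 (.s k51 k187 9 (.s k34 k17 4 (.s k38 k25 6 (.s k21 k55 4 (.d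
  k42 k46 k63 1 6)))))))] .n) (.c k221 (.q k3 [(.s k68 k119 4 (.s k87 k171 13 (.s k86 k84 0 (.s k70
  k118 3 (.d k204 k136 k137 9 10))))), (.s k87 k171 13 (.s k119 k68 4 (.s k51 k187 9 (.s k19 k35 3
  (.s k103 k71 3 (.d k155 k223 k207 9 13)))))), (.s k87 k171 13 (.s k86 k84 0 (.s k70 k118 3 (.s
  k169 k252 14 (.s k35 k236 10 (.s k51 k19 3 (.d k204 k137 k153 10 14))))))), (.s k68 k119 4 (.s
  k204 k136 9 (.s k70 k137 10 (.s k86 k118 3 (.s k153 k51 14 (.s k220 k19 10 (.d k252 k236 k169 3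
  14)))))))] (.c k70 (.l (.s k87 k171 13 (.s k86 k84 0 (.s k119 k68 4 (.s k51 k187 9 (.s k19 k35 3
  (.d k153 k220 k204 10 14))))))) (.c k169 (.l (.s k68 k119 4 (.s k204 k136 9 (.s k70 k137 10 (.s
  k86 k118 3 (.d k87 k84 k171 0 13)))))) .n))) (.c k238 (.l (.s k119 k68 4 (.s k51 k187 9 (.s k17
  k34 4 (.d k153 k221 k204 9 14))))) .n))))))))))))

def t1_63 : T TT 256 :=
  (.f k255 k170 14 (.q k150 [(.s k20 k215 8 (.s k60 k40 5 (.s k125 k190 8 (.d k105 k65 k195 5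
  14))))] (.c k20 (.q k4 [(.s k12 k8 1 (.s k93 k174 12 (.s k166 k247 12 (.d k89 k81 k243 1 14)))),
  (.s k166 k247 12 (.s k134 k182 3 (.s k69 k199 8 (.s k207 k138 10 (.s k223 k239 3 (.s k154 k16 10
  (.d k101 k117 k48 3 14)))))))] (.c k166 (.f k12 k8 1 (.q k89 [(.d k93 k174 k81 12 1), (.s k28 k211
  10 (.s k60 k44 3 (.s k105 k195 14 (.d k125 k65 k190 5 8))))] (.c k162 (.l (.s k174 k93 12 (.s k28
  k211 10 (.s k60 k44 3 (.s k105 k195 14 (.d k125 k65 k190 5 8)))))) (.c k174 (.q k162 [(.d k81 k93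
  k243 1 12), (.s k28 k211 10 (.s k60 k44 3 (.s k125 k190 8 (.d k105 k65 k195 5 14))))] .n) .n))))
  (.c k247 (.l (.s k12 k8 1 (.s k93 k174 12 (.s k89 k81 1 (.s k28 k211 10 (.s k60 k44 3 (.s k105
  k195 14 (.d k125 k65 k190 5 8)))))))) .n))) (.c k40 (.l (.s k215 k20 8 (.s k195 k235 5 (.s k105
  k60 14 (.d k65 k125 k130 5 8))))) (.c k60 (.q k214 [(.s k86 k22 7 (.s k84 k87 0 (.s k252 k168 13
  (.s k195 k233 6 (.d k215 k235 k20 5 8))))), (.s k215 k20 8 (.s k195 k235 5 (.s k252 k233 6 (.s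
  k254 k253 0 (.s k234 k194 5 (.d k213 k212 k192 0 6)))))), (.s k86 k22 7 (.s k87 k84 0 (.s k215 k20
  8 (.s k212 k213 0 (.d k23 k151 k149 7 8)))))] (.c k20 (.f k86 k22 7 (.l (.s k84 k87 0 (.s k252
  k168 13 (.s k195 k233 6 (.s k65 k130 8 (.s k105 k125 5 (.s k67 k124 6 (.d k3 k169 k131 14
  7))))))))) (.c k61 (.q k62 [(.s k194 k106 13 (.s k215 k20 8 (.s k213 k212 0 (.d k234 k192 k254 6
  5)))), (.s k86 k22 7 (.s k84 k87 0 (.s k215 k20 8 (.s k195 k235 5 (.d k252 k233 k168 6 13))))),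
  (.s k86 k22 7 (.s k84 k87 0 (.s k194 k106 13 (.s k252 k168 13 (.d k254 k234 k253 5 0)))))] (.c k21
  (.q k41 [(.s k106 k194 13 (.s k64 k127 6 (.s k192 k128 7 (.s k213 k234 6 (.d k215 k212 k20 0
  8))))), (.s k86 k22 7 (.s k84 k87 0 (.s k252 k168 13 (.s k169 k3 14 (.d k233 k195 k105 6 7)))))]
  (.c k20 (.l (.s k194 k106 13 (.s k234 k254 5 (.s k192 k213 6 (.s k195 k193 0 (.s k233 k252 6 (.d
  k235 k232 k215 0 5))))))) .n)) (.c k41 (.q k21 [(.s k20 k215 8 (.d k22 k23 k86 0 7)), (.s k194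
  k106 13 (.s k234 k254 5 (.d k213 k192 k149 6 7)))] (.c k3 (.l (.s k22 k86 7 (.d k20 k23 k215 0
  8))) (.c k22 (.q k3 [(.s k215 k20 8 (.d k213 k212 k149 0 7)), (.s k194 k106 13 (.s k234 k254 5 (.d
  k213 k192 k149 6 7))), (.s k87 k171 13 (.s k84 k86 0 (.s k215 k20 8 (.s k195 k235 5 (.d k252 k168
  k233 13 6)))))] .n) (.c k86 (.l (.s k213 k149 7 (.d k215 k212 k20 0 8))) .n)))) (.c k84 (.l (.s
  k194 k106 13 (.s k215 k20 8 (.s k234 k254 5 (.d k213 k212 k192 0 6))))) .n)))) (.c k62 (.q k61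
  [(.s k215 k20 8 (.s k195 k235 5 (.s k65 k130 8 (.s k105 k125 5 (.s k149 k193 13 (.d k213 k212 k21
  0 7)))))), (.s k86 k22 7 (.s k84 k87 0 (.s k252 k168 13 (.s k195 k233 6 (.d k215 k235 k20 5
  8))))), (.s k86 k22 7 (.s k84 k87 0 (.s k252 k168 13 (.s k195 k233 6 (.s k65 k130 8 (.s k125 k105
  5 (.d k253 k254 k189 0 7))))))), (.s k86 k22 7 (.s k87 k84 0 (.s k215 k20 8 (.s k212 k213 0 (.d
  k23 k151 k149 7 8)))))] .n) (.c k215 (.f k86 k22 7 (.l (.s k84 k87 0 (.s k252 k168 13 (.s k195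
  k233 6 (.s k65 k130 8 (.s k105 k125 5 (.s k67 k124 6 (.d k3 k169 k131 14 7))))))))) .n))))) (.c
  k65 (.f k215 k20 8 (.q k207 [(.s k69 k138 10 (.s k101 k117 3 (.s k154 k48 14 (.d k223 k239 k16 3
  10)))), (.s k69 k138 10 (.s k195 k235 5 (.s k199 k203 1 (.s k4 k134 8 (.d k247 k231 k166 3
  12))))), (.s k195 k235 5 (.s k105 k60 14 (.s k203 k199 1 (.s k154 k56 12 (.d k223 k239 k16 3
  10)))))] (.c k129 (.q k193 [(.s k69 k138 10 (.s k101 k117 3 (.s k154 k48 14 (.d k223 k239 k16 3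
  10)))), (.s k195 k235 5 (.s k105 k60 14 (.s k192 k194 0 (.s k213 k234 6 (.d k149 k61 k21 13
  7)))))] .n) (.c k154 (.l (.s k195 k235 5 (.s k199 k203 1 (.s k101 k52 12 (.d k69 k117 k138 3
  10))))) (.c k193 (.q k129 [(.s k69 k138 10 (.s k101 k117 3 (.s k154 k48 14 (.d k223 k239 k16 3
  10)))), (.s k69 k138 10 (.s k195 k235 5 (.s k199 k203 1 (.s k4 k134 8 (.d k247 k231 k166 3
  12))))), (.s k195 k235 5 (.s k105 k60 14 (.s k203 k199 1 (.s k154 k56 12 (.d k223 k239 k16 3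
  10)))))] (.c k154 (.l (.s k195 k235 5 (.s k199 k203 1 (.s k101 k52 12 (.d k69 k117 k138 3 10)))))
  .n)) .n))))) (.c k105 (.f k20 k215 8 (.q k4 [(.s k52 k36 3 (.s k101 k199 12 (.s k117 k69 3 (.d
  k247 k182 k166 8 12)))), (.s k12 k8 1 (.s k93 k174 12 (.s k89 k81 1 (.d k166 k247 k243 12 14)))),
  (.s k12 k8 1 (.s k36 k52 3 (.s k24 k48 5 (.s k28 k16 1 (.d k60 k40 k44 5 3)))))] (.c k40 (.q k235
  [(.s k52 k36 3 (.s k101 k199 12 (.s k117 k69 3 (.d k247 k182 k166 8 12)))), (.s k12 k8 1 (.s k93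
  k174 12 (.s k89 k81 1 (.d k166 k247 k243 12 14)))), (.s k12 k8 1 (.s k36 k52 3 (.s k24 k48 5 (.s
  k28 k16 1 (.s k89 k211 10 (.d k93 k81 k174 1 12))))))] .n) (.c k235 (.l (.s k40 k60 5 (.s k12 k8 1
  (.s k36 k52 3 (.s k32 k44 1 (.d k48 k16 k24 3 5)))))) .n)))) (.c k125 (.q k3 [(.s k20 k215 8 (.s
  k60 k40 5 (.s k87 k171 13 (.s k86 k84 0 (.d k22 k41 k214 6 7))))), (.s k87 k171 13 (.s k215 k20 8
  (.s k195 k235 5 (.s k65 k130 8 (.s k67 k131 7 (.s k64 k66 0 (.d k127 k107 k106 5 6))))))), (.s k87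
  k171 13 (.s k86 k84 0 (.s k22 k214 7 (.s k60 k41 6 (.s k105 k195 14 (.s k124 k67 6 (.d k252 k169
  k188 14 7))))))), (.s k20 k215 8 (.s k60 k40 5 (.s k22 k41 6 (.s k86 k214 7 (.s k105 k195 14 (.s
  k124 k67 6 (.d k252 k188 k169 7 14)))))))] (.c k105 (.l (.s k20 k215 8 (.s k87 k171 13 (.s k86 k84
  0 (.s k22 k214 7 (.d k60 k40 k41 5 6)))))) (.c k169 (.l (.s k20 k215 8 (.s k60 k40 5 (.s k22 k41 6
  (.s k86 k214 7 (.d k87 k84 k171 0 13)))))) .n))) (.c k190 (.l (.s k215 k20 8 (.s k195 k235 5 (.s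
  k65 k130 8 (.d k105 k125 k60 5 14))))) (.c k195 (.f k20 k215 8 (.q k84 [(.s k86 k87 0 (.s k22 k214
  7 (.s k212 k148 7 (.d k23 k21 k149 0 8)))), (.s k60 k40 5 (.s k86 k87 0 (.s k252 k168 13 (.s k169
  k3 14 (.d k188 k131 k124 6 7))))), (.s k60 k40 5 (.s k148 k212 7 (.s k104 k192 13 (.s k124 k64 5
  (.d k252 k188 k168 7 13)))))] (.c k107 (.q k151 [(.d k148 k149 k212 0 7), (.s k60 k40 5 (.s k86
  k87 0 (.s k252 k168 13 (.s k169 k3 14 (.d k188 k131 k124 6 7)))))] .n) (.c k151 (.q k107 [(.s k212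
  k148 7 (.s k86 k87 0 (.s k23 k149 8 (.d k22 k21 k214 0 7)))), (.s k60 k40 5 (.s k252 k168 13 (.s
  k188 k124 7 (.s k169 k131 6 (.d k86 k87 k3 0 14))))), (.s k40 k60 5 (.s k168 k252 13 (.s k104 k232
  7 (.s k106 k105 0 (.d k64 k124 k127 5 6)))))] (.c k23 (.l (.s k87 k86 0 (.s k40 k60 5 (.s k127 k67
  5 (.s k64 k106 6 (.s k168 k252 13 (.d k104 k124 k232 5 7))))))) (.c k87 (.q k23 [(.s k21 k22 0 (.s
  k149 k213 7 (.d k212 k148 k86 7 8))), (.s k40 k60 5 (.s k168 k252 13 (.s k104 k232 7 (.s k106 k105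
  0 (.d k64 k124 k127 5 6))))), (.s k21 k22 0 (.s k60 k40 5 (.s k213 k149 7 (.s k192 k234 6 (.s k104
  k148 13 (.d k64 k128 k124 7 5))))))] .n) .n))) (.c k252 (.l (.s k86 k87 0 (.s k212 k148 7 (.s k23
  k149 8 (.d k22 k21 k214 0 7))))) .n))))) (.c k215 (.q k247 [(.s k166 k4 12 (.s k243 k251 1 (.s k81
  k162 12 (.d k89 k93 k12 1 14)))), (.s k166 k4 12 (.s k182 k134 3 (.s k117 k52 8 (.s k48 k186 10
  (.s k16 k32 3 (.s k154 k223 10 (.d k101 k69 k207 3 14)))))))] (.c k4 (.l (.s k243 k251 1 (.s k81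
  k162 12 (.s k89 k93 1 (.s k211 k28 10 (.s k195 k227 3 (.s k65 k130 8 (.d k105 k125 k60 5
  14)))))))) (.c k166 (.f k243 k251 1 (.q k89 [(.d k81 k162 k93 12 1), (.s k211 k28 10 (.s k195 k227
  3 (.s k65 k130 8 (.d k105 k125 k60 5 14))))] (.c k162 (.q k174 [(.d k93 k81 k12 1 12), (.s k211
  k28 10 (.s k195 k227 3 (.s k65 k130 8 (.d k105 k125 k60 5 14))))] .n) (.c k174 (.l (.s k162 k81 12
  (.s k211 k28 10 (.s k195 k227 3 (.s k65 k130 8 (.d k105 k125 k60 5 14)))))) .n)))) .n))) (.c k235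
  (.l (.s k20 k215 8 (.s k60 k40 5 (.s k105 k195 14 (.d k125 k65 k190 5 8))))) .n))))))))))))

def t1_84 : T TT 256 :=
  (.f k255 k170 14 (.q k102 [(.s k68 k119 4 (.s k204 k136 9 (.s k153 k51 14 (.d k221 k238 k17 4
  9))))] (.c k17 (.f k68 k119 4 (.f k136 k204 9 (.q k4 [(.s k12 k8 1 (.s k132 k196 7 (.s k128 k140 1
  (.d k192 k64 k72 7 9)))), (.s k166 k247 12 (.s k38 k230 7 (.s k55 k21 4 (.d k196 k132 k149 7
  12)))), (.s k12 k8 1 (.s k93 k174 12 (.s k89 k81 1 (.d k166 k247 k243 12 14))))] (.c k33 (.q k49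
  [(.s k12 k8 1 (.s k132 k196 7 (.s k128 k140 1 (.d k192 k64 k72 7 9)))), (.s k166 k247 12 (.s k38
  k230 7 (.s k55 k21 4 (.d k196 k132 k149 7 12)))), (.s k12 k8 1 (.s k93 k174 12 (.s k89 k81 1 (.d
  k166 k247 k243 12 14))))] .n) (.c k49 (.q k33 [(.s k12 k8 1 (.s k132 k196 7 (.s k128 k140 1 (.d
  k192 k64 k72 7 9)))), (.s k166 k247 12 (.s k38 k230 7 (.s k55 k21 4 (.d k196 k132 k149 7 12)))),
  (.s k12 k8 1 (.s k93 k174 12 (.s k89 k81 1 (.d k166 k247 k243 12 14))))] .n) .n))))) (.c k51 (.q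
  k4 [(.s k12 k8 1 (.s k93 k174 12 (.s k166 k247 12 (.d k89 k81 k243 1 14)))), (.s k68 k119 4 (.s
  k166 k247 12 (.s k38 k230 7 (.s k55 k21 4 (.d k196 k132 k149 7 12))))), (.s k12 k8 1 (.s k68 k119
  4 (.s k132 k196 7 (.s k72 k192 9 (.s k76 k64 1 (.d k204 k140 k136 7 9))))))] .n) (.c k68 (.q k48
  [(.s k16 k32 3 (.s k117 k186 10 (.s k154 k223 10 (.d k101 k69 k207 3 14)))), (.s k16 k32 3 (.s
  k154 k223 10 (.s k50 k206 13 (.s k51 k49 0 (.s k17 k34 4 (.d k153 k221 k204 9 14)))))), (.s k117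
  k186 10 (.s k101 k69 3 (.s k100 k103 0 (.s k154 k207 14 (.s k50 k206 13 (.s k51 k49 0 (.d k204
  k152 k153 13 14)))))))] (.c k100 (.q k116 [(.s k117 k186 10 (.s k101 k69 3 (.s k118 k119 0 (.d k86
  k70 k71 3 4)))), (.s k16 k32 3 (.s k154 k223 10 (.s k50 k206 13 (.s k51 k49 0 (.s k17 k34 4 (.d
  k153 k221 k204 9 14)))))), (.s k184 k252 9 (.s k186 k117 10 (.s k187 k185 0 (.s k51 k119 9 (.s k17
  k34 4 (.d k153 k221 k204 9 14))))))] .n) (.c k101 (.q k116 [(.s k117 k186 10 (.s k118 k119 0 (.s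
  k252 k184 9 (.s k185 k51 10 (.d k253 k254 k49 0 9))))), (.s k186 k117 10 (.s k252 k184 9 (.s k254
  k253 0 (.s k50 k118 9 (.s k154 k206 13 (.d k16 k32 k223 3 10)))))), (.s k117 k186 10 (.s k119 k118
  0 (.s k51 k187 9 (.s k17 k34 4 (.d k153 k221 k204 9 14))))), (.s k184 k252 9 (.s k186 k117 10 (.s
  k187 k185 0 (.s k51 k119 9 (.s k17 k34 4 (.d k153 k221 k204 9 14))))))] (.c k32 (.q k239 [(.s k117
  k186 10 (.s k118 k119 0 (.s k252 k184 9 (.s k185 k51 10 (.d k253 k254 k49 0 9))))), (.s k207 k223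
  3 (.s k252 k184 9 (.s k237 k222 4 (.s k238 k236 0 (.s k221 k204 4 (.d k253 k254 k205 0 3)))))),
  (.s k117 k186 10 (.s k223 k207 3 (.s k154 k16 10 (.s k50 k206 13 (.s k51 k49 0 (.d k119 k118 k187
  0 9))))))] .n) (.c k117 (.q k95 [(.s k90 k80 2 (.s k15 k175 11 (.s k165 k240 14 (.d k5 k10 k245 2
  11)))), (.s k15 k175 11 (.s k10 k5 2 (.s k26 k37 6 (.s k42 k58 3 (.s k21 k63 6 (.d k16 k32 k31 3
  2)))))), (.s k15 k175 11 (.s k26 k37 6 (.s k90 k80 2 (.s k154 k218 7 (.d k16 k32 k223 3 10)))))]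
  (.c k15 (.l (.s k80 k90 2 (.s k240 k160 11 (.s k112 k176 7 (.s k96 k64 3 (.s k144 k192 11 (.d k16
  k32 k208 3 7))))))) (.c k32 (.q k239 [(.s k90 k80 2 (.s k15 k175 11 (.s k165 k240 14 (.d k5 k10
  k245 2 11)))), (.s k90 k80 2 (.s k223 k207 3 (.s k16 k154 10 (.s k31 k159 7 (.s k21 k26 2 (.d k149
  k213 k208 7 10)))))), (.s k15 k175 11 (.s k26 k37 6 (.s k223 k207 3 (.s k16 k154 10 (.d k31 k21
  k159 2 7)))))] .n) (.c k160 (.l (.s k90 k80 2 (.s k15 k175 11 (.s k165 k240 14 (.d k5 k10 k245 2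
  11))))) (.c k165 (.l (.s k32 k16 3 (.s k80 k90 2 (.s k15 k175 11 (.s k160 k240 11 (.s k96 k224 7
  (.s k192 k144 11 (.d k64 k112 k128 3 7)))))))) (.c k175 (.l (.s k32 k16 3 (.s k80 k90 2 (.s k160
  k240 11 (.s k96 k224 7 (.s k192 k144 11 (.d k64 k112 k128 3 7))))))) (.c k239 (.l (.s k32 k16 3
  (.s k15 k175 11 (.s k5 k10 2 (.s k90 k80 2 (.d k165 k245 k240 11 14)))))) .n))))))) (.c k118 (.l
  (.s k184 k252 9 (.s k186 k117 10 (.s k187 k185 0 (.s k51 k119 9 (.s k17 k34 4 (.d k153 k221 k204 9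
  14))))))) (.c k184 (.q k112 [(.s k240 k176 7 (.s k80 k160 11 (.s k90 k95 2 (.s k165 k15 14 (.d
  k245 k250 k5 2 11))))), (.s k117 k186 10 (.s k127 k122 2 (.s k64 k106 6 (.s k96 k80 3 (.d k192
  k128 k144 7 11))))), (.s k117 k186 10 (.s k122 k127 2 (.s k240 k176 7 (.s k181 k63 10 (.d k245
  k250 k53 2 7)))))] (.c k32 (.q k239 [(.s k117 k186 10 (.s k122 k127 2 (.s k240 k176 7 (.s k181 k63
  10 (.d k245 k250 k53 2 7))))), (.s k240 k176 7 (.s k80 k160 11 (.s k90 k95 2 (.s k165 k15 14 (.d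
  k245 k250 k5 2 11))))), (.s k117 k186 10 (.s k118 k119 0 (.s k122 k127 2 (.s k114 k126 1 (.s k115
  k113 0 (.d k124 k120 k121 1 2))))))] .n) (.c k239 (.l (.s k32 k16 3 (.s k117 k186 10 (.s k122 k127
  2 (.s k240 k176 7 (.s k181 k63 10 (.d k245 k250 k53 2 7))))))) (.c k250 (.l (.s k117 k186 10 (.s
  k240 k176 7 (.s k80 k160 11 (.s k64 k96 3 (.d k127 k122 k106 2 6)))))) .n)))) (.c k185 (.l (.s
  k117 k186 10 (.s k119 k118 0 (.s k51 k187 9 (.s k184 k252 9 (.s k17 k34 4 (.d k153 k221 k204 9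
  14))))))) (.c k186 (.q k154 [(.d k16 k32 k223 3 10), (.s k50 k206 13 (.s k51 k49 0 (.s k17 k34 4
  (.d k153 k221 k204 9 14))))] (.c k32 (.q k239 [(.d k223 k207 k16 3 10), (.s k50 k206 13 (.s k51
  k49 0 (.s k17 k34 4 (.d k153 k221 k204 9 14))))] .n) (.c k239 (.l (.s k32 k16 3 (.s k50 k206 13
  (.s k51 k49 0 (.s k17 k34 4 (.d k153 k221 k204 9 14)))))) .n))) (.c k239 (.l (.s k32 k16 3 (.s
  k117 k186 10 (.s k118 k119 0 (.s k252 k184 9 (.s k185 k51 10 (.d k253 k254 k49 0 9)))))))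
  .n)))))))) (.c k116 (.q k100 [(.s k101 k103 0 (.d k117 k69 k186 3 10)), (.s k204 k152 13 (.s k153
  k51 14 (.d k221 k238 k17 4 9)))] .n) (.c k154 (.q k100 [(.s k101 k103 0 (.d k117 k186 k69 10 3)),
  (.s k204 k152 13 (.s k153 k51 14 (.d k221 k238 k17 4 9)))] (.c k138 (.l (.s k186 k117 10 (.s k204
  k152 13 (.s k153 k51 14 (.d k221 k238 k17 4 9))))) (.c k186 (.q k138 [(.s k69 k207 10 (.d k101
  k103 k117 0 3)), (.s k204 k152 13 (.s k153 k51 14 (.d k221 k238 k17 4 9)))] .n) .n))) .n))))) (.c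
  k119 (.q k247 [(.s k243 k251 1 (.s k81 k162 12 (.s k89 k93 1 (.d k166 k4 k12 12 14)))), (.s k166
  k4 12 (.s k230 k38 7 (.s k213 k196 4 (.s k192 k234 6 (.s k64 k128 7 (.s k106 k127 6 (.d k149 k21
  k63 7 14)))))))] (.c k4 (.l (.s k243 k251 1 (.s k81 k162 12 (.s k89 k93 1 (.s k115 k76 6 (.s k51
  k179 7 (.s k17 k34 4 (.d k153 k221 k204 9 14)))))))) (.c k166 (.f k243 k251 1 (.q k89 [(.d k81
  k162 k93 12 1), (.s k115 k76 6 (.s k51 k179 7 (.s k17 k34 4 (.d k153 k221 k204 9 14))))] (.c k162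
  (.q k174 [(.d k93 k81 k12 1 12), (.s k115 k76 6 (.s k51 k179 7 (.s k17 k34 4 (.d k153 k221 k204 9
  14))))] .n) (.c k174 (.l (.s k162 k81 12 (.s k115 k76 6 (.s k51 k179 7 (.s k17 k34 4 (.d k153 k221
  k204 9 14)))))) .n)))) .n))) (.c k136 (.l (.s k119 k68 4 (.s k51 k187 9 (.s k153 k204 14 (.d k17
  k34 k221 4 9))))) (.c k153 (.f k68 k119 4 (.q k89 [(.s k81 k93 1 (.s k243 k162 12 (.s k166 k12 14
  (.d k247 k251 k4 1 12)))), (.s k76 k115 6 (.s k64 k72 1 (.s k192 k128 7 (.s k213 k234 6 (.s k149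
  k21 7 (.d k106 k127 k63 6 14))))))] (.c k136 (.q k187 [(.s k81 k93 1 (.s k243 k162 12 (.s k166 k12
  14 (.d k247 k251 k4 1 12)))), (.s k76 k115 6 (.s k64 k72 1 (.s k192 k128 7 (.s k213 k234 6 (.s
  k149 k21 7 (.d k106 k127 k63 6 14))))))] .n) (.c k187 (.l (.s k136 k204 9 (.s k76 k115 6 (.s k64
  k72 1 (.s k93 k81 1 (.d k127 k110 k106 4 6)))))) .n)))) (.c k187 (.l (.s k68 k119 4 (.s k204 k136
  9 (.s k153 k51 14 (.d k221 k238 k17 4 9))))) (.c k204 (.q k4 [(.s k12 k8 1 (.s k93 k174 12 (.s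
  k166 k247 12 (.d k89 k81 k243 1 14)))), (.s k68 k119 4 (.s k166 k247 12 (.s k38 k230 7 (.s k55 k21
  4 (.d k196 k132 k149 7 12))))), (.s k12 k8 1 (.s k119 k68 4 (.s k51 k187 9 (.s k34 k17 4 (.s k38
  k25 6 (.s k21 k55 4 (.d k42 k46 k63 1 6)))))))] .n) (.c k221 (.q k4 [(.s k166 k247 12 (.s k12 k8 1
  (.s k89 k243 14 (.d k93 k81 k174 1 12)))), (.s k68 k119 4 (.s k166 k247 12 (.s k38 k230 7 (.s k55
  k21 4 (.d k196 k132 k149 7 12))))), (.s k12 k8 1 (.s k68 k119 4 (.s k132 k196 7 (.s k72 k192 9 (.s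
  k76 k64 1 (.d k204 k140 k136 7 9))))))] .n) (.c k238 (.l (.s k119 k68 4 (.s k51 k187 9 (.s k17 k34
  4 (.d k153 k221 k204 9 14))))) .n))))))))))))

def t1_86 : T TT 256 :=
  (.f k170 k255 14 (.q k12 [(.s k4 k8 1 (.s k166 k247 12 (.s k162 k174 1 (.d k243 k81 k89 12 14))))]
  (.c k4 (.q k128 [(.s k149 k191 6 (.s k21 k213 7 (.s k63 k42 6 (.d k192 k64 k106 7 14)))), (.s k192
  k64 7 (.s k132 k72 9 (.s k136 k140 1 (.s k153 k187 4 (.s k17 k221 9 (.s k51 k34 4 (.d k204 k68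
  k102 9 14)))))))] (.c k64 (.l (.s k149 k191 6 (.s k21 k213 7 (.s k63 k42 6 (.s k29 k46 4 (.s k89
  k209 9 (.s k81 k93 1 (.d k243 k162 k166 12 14)))))))) (.c k192 (.f k149 k191 6 (.q k63 [(.d k21
  k213 k42 7 6), (.s k29 k46 4 (.s k89 k209 9 (.s k81 k93 1 (.d k243 k162 k166 12 14))))] (.c k213
  (.q k234 [(.d k42 k21 k106 6 7), (.s k29 k46 4 (.s k89 k209 9 (.s k81 k93 1 (.d k243 k162 k166 12
  14))))] .n) (.c k234 (.l (.s k213 k21 7 (.s k29 k46 4 (.s k89 k209 9 (.s k81 k93 1 (.d k243 k162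
  k166 12 14)))))) .n)))) .n))) (.c k8 (.q k138 [(.s k154 k186 3 (.s k16 k223 10 (.s k48 k32 3 (.d
  k207 k69 k101 10 14)))), (.s k207 k69 10 (.s k142 k77 8 (.s k130 k134 1 (.s k150 k190 5 (.s k20
  k215 8 (.s k60 k40 5 (.d k195 k65 k105 8 14)))))))] (.c k69 (.l (.s k154 k186 3 (.s k16 k223 10
  (.s k48 k32 3 (.s k24 k36 5 (.s k89 k219 8 (.s k81 k93 1 (.d k243 k162 k166 12 14)))))))) (.c k207
  (.f k154 k186 3 (.q k48 [(.d k16 k223 k32 10 3), (.s k24 k36 5 (.s k89 k219 8 (.s k81 k93 1 (.d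
  k243 k162 k166 12 14))))] (.c k223 (.q k239 [(.d k32 k16 k101 3 10), (.s k24 k36 5 (.s k89 k219 8
  (.s k81 k93 1 (.d k243 k162 k166 12 14))))] .n) (.c k239 (.l (.s k223 k16 10 (.s k24 k36 5 (.s k89
  k219 8 (.s k81 k93 1 (.d k243 k162 k166 12 14)))))) .n)))) .n))) (.c k81 (.f k4 k8 1 (.q k132 [(.s
  k68 k196 7 (.s k136 k204 9 (.s k128 k140 1 (.d k192 k64 k72 7 9)))), (.s k166 k247 12 (.s k149
  k183 4 (.s k128 k191 6 (.d k192 k64 k72 7 9)))), (.s k68 k196 7 (.s k102 k119 4 (.s k34 k238 9 (.s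
  k51 k17 4 (.d k204 k136 k153 9 14)))))] (.c k161 (.q k241 [(.s k68 k196 7 (.s k136 k204 9 (.s k128
  k140 1 (.d k192 k64 k72 7 9)))), (.s k166 k247 12 (.s k149 k183 4 (.s k128 k191 6 (.d k192 k64 k72
  7 9)))), (.s k68 k196 7 (.s k102 k119 4 (.s k34 k238 9 (.s k51 k17 4 (.d k204 k136 k153 9 14)))))]
  .n) (.c k241 (.q k161 [(.s k68 k196 7 (.s k136 k204 9 (.s k128 k140 1 (.d k192 k64 k72 7 9)))),
  (.s k166 k247 12 (.s k149 k183 4 (.s k128 k191 6 (.d k192 k64 k72 7 9)))), (.s k68 k196 7 (.s k102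
  k119 4 (.s k34 k238 9 (.s k51 k17 4 (.d k204 k136 k153 9 14)))))] .n) .n)))) (.c k89 (.f k4 k8 1
  (.q k102 [(.s k34 k238 9 (.s k51 k17 4 (.s k68 k119 4 (.d k204 k136 k153 9 14)))), (.s k34 k238 9
  (.s k166 k247 12 (.s k38 k230 7 (.s k21 k55 4 (.d k42 k46 k63 1 6))))), (.s k68 k119 4 (.s k132
  k196 7 (.s k72 k192 9 (.s k76 k64 1 (.d k204 k140 k136 7 9))))), (.s k166 k247 12 (.s k38 k230 7
  (.s k51 k25 6 (.d k34 k17 k238 4 9))))] (.c k83 (.q k92 [(.s k34 k238 9 (.s k51 k17 4 (.s k68 k119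
  4 (.d k204 k136 k153 9 14)))), (.s k252 k172 11 (.s k84 k168 13 (.s k88 k80 1 (.d k164 k244 k240
  11 13))))] .n) (.c k92 (.q k83 [(.s k34 k238 9 (.s k51 k17 4 (.s k68 k119 4 (.d k204 k136 k153 9
  14)))), (.s k34 k238 9 (.s k166 k247 12 (.s k38 k230 7 (.s k21 k55 4 (.d k42 k46 k63 1 6))))), (.s
  k68 k119 4 (.s k132 k196 7 (.s k72 k192 9 (.s k76 k64 1 (.d k204 k140 k136 7 9))))), (.s k166 k247
  12 (.s k38 k230 7 (.s k51 k25 6 (.d k34 k17 k238 4 9))))] .n) .n)))) (.c k162 (.q k5 [(.s k15 k10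
  2 (.s k165 k245 11 (.s k160 k175 2 (.d k240 k80 k90 11 14)))), (.s k8 k4 1 (.s k15 k10 2 (.s k13
  k14 0 (.s k89 k251 12 (.d k165 k245 k241 11 13))))), (.s k4 k8 1 (.s k165 k245 11 (.s k166 k247 12
  (.s k164 k167 0 (.s k240 k88 13 (.d k160 k175 k80 2 11))))))] (.c k165 (.l (.s k4 k8 1 (.s k10 k15
  2 (.s k90 k250 11 (.s k166 k247 12 (.s k14 k242 13 (.d k6 k2 k7 1 0))))))) (.c k245 (.l (.s k4 k8
  1 (.s k6 k7 0 (.s k10 k15 2 (.s k14 k2 1 (.s k166 k247 12 (.d k90 k242 k250 13 11))))))) .n))) (.c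
  k166 (.f k8 k4 1 (.q k5 [(.s k15 k10 2 (.s k165 k245 11 (.s k160 k175 2 (.d k240 k80 k90 11
  14)))), (.s k15 k10 2 (.s k13 k14 0 (.s k89 k251 12 (.d k165 k245 k241 11 13)))), (.s k89 k251 12
  (.s k81 k93 1 (.s k165 k245 11 (.s k241 k13 13 (.s k243 k162 12 (.s k240 k242 0 (.d k160 k175 k80
  2 11))))))), (.s k10 k15 2 (.s k11 k9 0 (.s k251 k89 12 (.s k171 k91 11 (.s k169 k168 0 (.d k90
  k250 k248 11 12))))))] (.c k6 (.q k246 [(.s k165 k245 11 (.s k160 k175 2 (.s k240 k80 11 (.d k15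
  k10 k90 2 14)))), (.s k10 k15 2 (.s k9 k11 0 (.s k89 k251 12 (.s k81 k93 1 (.s k243 k162 12 (.d
  k249 k252 k169 2 11)))))), (.s k89 k251 12 (.s k81 k93 1 (.s k165 k245 11 (.s k241 k13 13 (.s k243
  k162 12 (.s k240 k242 0 (.d k160 k175 k80 2 11)))))))] (.c k175 (.l (.s k15 k10 2 (.s k89 k251 12
  (.s k165 k245 11 (.d k13 k14 k241 0 13))))) .n)) (.c k90 (.l (.s k15 k10 2 (.s k89 k251 12 (.s
  k165 k245 11 (.d k13 k14 k241 0 13))))) (.c k246 (.q k6 [(.s k10 k15 2 (.d k9 k11 k3 0 2)), (.s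
  k15 k10 2 (.s k13 k14 0 (.s k89 k251 12 (.d k165 k245 k241 11 13))))] (.c k10 (.l (.s k89 k251 12
  (.s k165 k245 11 (.s k13 k241 13 (.s k15 k14 0 (.s k160 k175 2 (.d k240 k90 k80 14 11))))))) (.c
  k15 (.l (.s k9 k3 2 (.s k11 k10 0 (.s k89 k251 12 (.s k169 k249 11 (.s k248 k90 12 (.d k168 k171
  k88 0 11))))))) .n))) .n))))) (.c k174 (.l (.s k8 k4 1 (.s k89 k251 12 (.s k81 k93 1 (.d k243 k162
  k166 12 14))))) (.c k243 (.f k4 k8 1 (.q k134 [(.s k69 k199 8 (.s k101 k117 3 (.s k32 k239 10 (.s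
  k48 k16 3 (.d k207 k138 k154 10 14))))), (.s k195 k73 10 (.s k65 k130 8 (.s k105 k125 5 (.s k40
  k235 8 (.d k60 k20 k150 5 14)))))] (.c k138 (.l (.s k69 k199 8 (.s k101 k117 3 (.s k32 k239 10 (.s
  k48 k16 3 (.s k36 k24 5 (.d k166 k231 k247 8 12))))))) (.c k247 (.q k251 [(.s k195 k73 10 (.s k130
  k65 8 (.s k138 k142 1 (.d k69 k199 k207 8 10)))), (.s k69 k199 8 (.s k101 k117 3 (.s k32 k239 10
  (.s k48 k16 3 (.d k207 k138 k154 10 14))))), (.s k195 k73 10 (.s k65 k130 8 (.s k105 k125 5 (.s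
  k40 k235 8 (.d k60 k20 k150 5 14)))))] (.c k138 (.l (.s k199 k69 8 (.s k195 k73 10 (.s k203 k207 1
  (.s k65 k130 8 (.s k105 k125 5 (.d k235 k219 k40 3 8))))))) .n)) (.c k251 (.l (.s k247 k166 12 (.s
  k69 k199 8 (.s k73 k195 10 (.s k77 k65 1 (.d k207 k142 k138 8 10)))))) .n))))) (.c k247 (.l (.s k8
  k4 1 (.s k89 k251 12 (.s k243 k166 14 (.d k81 k93 k162 1 12))))) (.c k251 (.l (.s k4 k8 1 (.s k166
  k247 12 (.s k243 k89 14 (.d k162 k174 k81 1 12))))) .n))))))))))))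

def t1_87 : T TT 256 :=
  (.f k255 k170 14 (.q k101 [(.s k69 k117 3 (.s k207 k138 10 (.s k154 k48 14 (.d k223 k239 k16 3
  10))))] (.c k16 (.q k4 [(.s k166 k247 12 (.s k12 k8 1 (.s k89 k243 14 (.d k93 k81 k174 1 12)))),
  (.s k69 k117 3 (.s k166 k247 12 (.s k36 k231 8 (.s k52 k20 3 (.d k199 k134 k150 8 12))))), (.s k12
  k8 1 (.s k69 k117 3 (.s k134 k199 8 (.s k73 k195 10 (.s k77 k65 1 (.d k207 k142 k138 8 10))))))]
  .n) (.c k48 (.q k4 [(.s k12 k8 1 (.s k93 k174 12 (.s k89 k81 1 (.d k166 k247 k243 12 14)))), (.s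
  k69 k117 3 (.s k166 k247 12 (.s k36 k231 8 (.s k52 k20 3 (.d k199 k134 k150 8 12))))), (.s k12 k8
  1 (.s k69 k117 3 (.s k134 k199 8 (.s k73 k195 10 (.s k77 k65 1 (.d k207 k142 k138 8 10))))))] .n)
  (.c k69 (.q k192 [(.s k64 k128 7 (.s k106 k127 6 (.s k149 k63 14 (.d k213 k234 k21 6 7)))), (.s
  k213 k234 6 (.s k149 k21 7 (.s k197 k53 11 (.s k207 k202 2 (.s k154 k48 14 (.d k223 k239 k16 3
  10)))))), (.s k64 k128 7 (.s k106 k127 6 (.s k96 k111 2 (.s k48 k144 11 (.s k16 k32 3 (.d k154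
  k223 k207 10 14))))))] (.c k106 (.f k234 k213 6 (.q k80 [(.s k64 k128 7 (.s k112 k96 3 (.d k90 k95
  k79 2 6))), (.s k90 k95 2 (.s k240 k160 11 (.s k165 k15 14 (.d k245 k250 k5 2 11)))), (.s k64 k128
  7 (.s k96 k112 3 (.s k48 k144 11 (.s k16 k32 3 (.d k154 k223 k207 10 14)))))] (.c k137 (.q k205
  [(.s k64 k128 7 (.s k112 k96 3 (.d k90 k95 k79 2 6))), (.s k90 k95 2 (.s k240 k160 11 (.s k165 k15
  14 (.d k245 k250 k5 2 11)))), (.s k64 k128 7 (.s k96 k112 3 (.s k48 k144 11 (.s k16 k32 3 (.d k154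
  k223 k207 10 14)))))] .n) (.c k205 (.q k137 [(.s k64 k128 7 (.s k112 k96 3 (.d k90 k95 k79 2 6))),
  (.s k90 k95 2 (.s k240 k160 11 (.s k165 k15 14 (.d k245 k250 k5 2 11)))), (.s k64 k128 7 (.s k96
  k112 3 (.s k48 k144 11 (.s k16 k32 3 (.d k154 k223 k207 10 14)))))] .n) .n)))) (.c k137 (.q k205
  [(.s k64 k128 7 (.s k106 k127 6 (.s k149 k63 14 (.d k213 k234 k21 6 7)))), (.s k153 k49 13 (.s k17
  k221 9 (.s k51 k34 4 (.s k102 k204 14 (.d k119 k68 k187 4 9)))))] .n) (.c k149 (.q k224 [(.s k234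
  k213 6 (.s k229 k239 2 (.s k165 k37 7 (.s k106 k47 10 (.d k64 k128 k127 7 6))))), (.s k128 k64 7
  (.s k240 k208 3 (.s k160 k80 11 (.s k96 k32 7 (.d k144 k176 k48 3 11))))), (.s k208 k240 3 (.s
  k213 k234 6 (.s k223 k218 2 (.s k154 k16 10 (.d k207 k239 k48 3 14)))))] (.c k128 (.q k191 [(.s
  k127 k63 7 (.s k234 k213 6 (.s k229 k239 2 (.s k165 k37 7 (.d k106 k64 k47 6 10))))), (.s k127 k63
  7 (.s k106 k64 6 (.s k96 k111 2 (.s k160 k32 7 (.d k240 k208 k80 3 11))))), (.s k234 k213 6 (.s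
  k229 k239 2 (.s k165 k37 7 (.s k240 k208 3 (.d k245 k250 k5 2 11)))))] (.c k137 (.q k205 [(.s k127
  k63 7 (.s k234 k213 6 (.s k229 k239 2 (.s k165 k37 7 (.d k106 k64 k47 6 10))))), (.s k153 k49 13
  (.s k17 k221 9 (.s k51 k34 4 (.s k102 k204 14 (.d k119 k68 k187 4 9)))))] .n) (.c k205 (.q k137
  [(.s k127 k63 7 (.s k234 k213 6 (.s k229 k239 2 (.s k165 k37 7 (.d k106 k64 k47 6 10))))), (.s
  k127 k63 7 (.s k106 k64 6 (.s k96 k111 2 (.s k160 k32 7 (.d k240 k208 k80 3 11))))), (.s k234 k213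
  6 (.s k229 k239 2 (.s k165 k37 7 (.s k240 k208 3 (.d k245 k250 k5 2 11)))))] .n) .n))) (.c k137
  (.q k205 [(.s k153 k49 13 (.s k17 k221 9 (.s k51 k34 4 (.s k102 k204 14 (.d k119 k68 k187 4
  9))))), (.s k128 k64 7 (.s k240 k208 3 (.s k160 k80 11 (.s k96 k32 7 (.d k144 k176 k48 3 11)))))]
  (.c k128 (.q k191 [(.s k127 k63 7 (.s k234 k213 6 (.s k229 k239 2 (.s k165 k37 7 (.d k106 k64 k47
  6 10))))), (.s k153 k49 13 (.s k17 k221 9 (.s k51 k34 4 (.s k102 k204 14 (.d k119 k68 k187 4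
  9)))))] .n) (.c k191 (.l (.s k128 k64 7 (.s k240 k208 3 (.s k160 k80 11 (.s k96 k32 7 (.d k144
  k176 k48 3 11)))))) .n))) (.c k191 (.l (.s k128 k64 7 (.s k240 k208 3 (.s k160 k80 11 (.s k96 k32
  7 (.d k144 k176 k48 3 11)))))) (.c k205 (.q k137 [(.s k234 k213 6 (.s k229 k239 2 (.s k165 k37 7
  (.s k106 k47 10 (.d k64 k128 k127 7 6))))), (.s k128 k64 7 (.s k240 k208 3 (.s k160 k80 11 (.s k96
  k32 7 (.d k144 k176 k48 3 11))))), (.s k208 k240 3 (.s k213 k234 6 (.s k223 k218 2 (.s k154 k16 10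
  (.d k207 k239 k48 3 14)))))] (.c k128 (.q k191 [(.s k127 k63 7 (.s k234 k213 6 (.s k229 k239 2 (.s
  k165 k37 7 (.d k106 k64 k47 6 10))))), (.s k127 k63 7 (.s k106 k64 6 (.s k96 k111 2 (.s k160 k32 7
  (.d k240 k208 k80 3 11))))), (.s k234 k213 6 (.s k229 k239 2 (.s k165 k37 7 (.s k240 k208 3 (.d
  k245 k250 k5 2 11)))))] .n) (.c k191 (.l (.s k128 k64 7 (.s k240 k208 3 (.s k160 k80 11 (.s k96
  k32 7 (.d k144 k176 k48 3 11)))))) .n))) .n))))) (.c k205 (.q k137 [(.s k64 k128 7 (.s k106 k127 6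
  (.s k149 k63 14 (.d k213 k234 k21 6 7)))), (.s k213 k234 6 (.s k149 k21 7 (.s k197 k53 11 (.s k207
  k202 2 (.s k154 k48 14 (.d k223 k239 k16 3 10)))))), (.s k64 k128 7 (.s k106 k127 6 (.s k96 k111 2
  (.s k48 k144 11 (.s k16 k32 3 (.d k154 k223 k207 10 14))))))] (.c k106 (.q k197 [(.s k149 k53 11
  (.d k213 k234 k21 6 7)), (.s k207 k202 2 (.s k154 k48 14 (.d k223 k239 k16 3 10)))] (.c k42 (.l
  (.s k234 k213 6 (.s k207 k202 2 (.s k154 k48 14 (.d k223 k239 k16 3 10))))) (.c k234 (.q k42 [(.s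
  k21 k63 6 (.d k149 k213 k53 7 11)), (.s k207 k202 2 (.s k154 k48 14 (.d k223 k239 k16 3 10)))] .n)
  .n))) (.c k149 (.q k207 [(.s k154 k48 14 (.d k223 k239 k16 3 10)), (.s k154 k48 14 (.s k202 k197 2
  (.s k106 k58 11 (.d k64 k128 k127 7 6)))), (.s k197 k202 2 (.s k213 k234 6 (.s k223 k239 3 (.s
  k218 k208 2 (.d k229 k245 k240 3 6)))))] (.c k128 (.q k191 [(.s k154 k48 14 (.d k223 k239 k16 3
  10)), (.s k48 k154 14 (.s k127 k63 7 (.s k106 k64 6 (.d k96 k144 k111 11 2)))), (.s k63 k127 7 (.s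
  k159 k111 11 (.s k175 k143 3 (.s k95 k15 11 (.d k223 k239 k31 3 7)))))] .n) (.c k191 (.l (.s k128
  k64 7 (.s k154 k48 14 (.d k223 k239 k16 3 10)))) .n))) .n))) .n))))) (.c k117 (.q k247 [(.s k166
  k4 12 (.s k243 k251 1 (.s k81 k162 12 (.d k89 k93 k12 1 14)))), (.s k166 k4 12 (.s k231 k36 8 (.s
  k215 k199 3 (.s k195 k235 5 (.s k65 k130 8 (.s k105 k125 5 (.d k150 k20 k60 8 14)))))))] (.c k4
  (.l (.s k243 k251 1 (.s k81 k162 12 (.s k89 k93 1 (.s k113 k77 5 (.s k48 k178 8 (.s k16 k32 3 (.d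
  k154 k223 k207 10 14)))))))) (.c k166 (.f k243 k251 1 (.q k89 [(.d k81 k162 k93 12 1), (.s k113
  k77 5 (.s k48 k178 8 (.s k16 k32 3 (.d k154 k223 k207 10 14))))] (.c k162 (.q k174 [(.d k93 k81
  k12 1 12), (.s k113 k77 5 (.s k48 k178 8 (.s k16 k32 3 (.d k154 k223 k207 10 14))))] .n) (.c k174
  (.l (.s k162 k81 12 (.s k113 k77 5 (.s k48 k178 8 (.s k16 k32 3 (.d k154 k223 k207 10 14))))))
  .n)))) .n))) (.c k138 (.l (.s k117 k69 3 (.s k48 k186 10 (.s k154 k207 14 (.d k16 k32 k223 3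
  10))))) (.c k154 (.f k69 k117 3 (.q k65 [(.s k77 k73 1 (.s k105 k125 5 (.s k97 k109 1 (.d k113 k81
  k89 3 5)))), (.s k73 k77 1 (.s k138 k207 10 (.s k195 k130 8 (.s k12 k134 10 (.d k8 k4 k203 1
  8))))), (.s k105 k125 5 (.s k195 k130 8 (.s k150 k60 14 (.d k215 k235 k20 5 8))))] (.c k138 (.q
  k186 [(.s k77 k73 1 (.s k105 k125 5 (.s k97 k109 1 (.d k113 k81 k89 3 5)))), (.s k73 k77 1 (.s
  k195 k130 8 (.s k134 k12 10 (.s k199 k4 8 (.s k150 k52 12 (.d k215 k20 k235 8 5)))))), (.s k105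
  k125 5 (.s k195 k130 8 (.s k150 k60 14 (.d k215 k235 k20 5 8))))] .n) (.c k186 (.l (.s k138 k207
  10 (.s k73 k77 1 (.s k8 k203 8 (.s k12 k4 1 (.d k195 k130 k134 8 10)))))) .n)))) (.c k186 (.l (.s
  k69 k117 3 (.s k207 k138 10 (.s k154 k48 14 (.d k223 k239 k16 3 10))))) (.c k207 (.q k4 [(.s k12
  k8 1 (.s k93 k174 12 (.s k89 k81 1 (.d k166 k247 k243 12 14)))), (.s k69 k117 3 (.s k166 k247 12
  (.s k36 k231 8 (.s k52 k20 3 (.d k199 k134 k150 8 12))))), (.s k12 k8 1 (.s k117 k69 3 (.s k48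
  k186 10 (.s k32 k16 3 (.s k36 k24 5 (.s k20 k52 3 (.d k40 k44 k60 1 5)))))))] .n) (.c k223 (.f k69
  k117 3 (.q k93 [(.s k89 k81 1 (.s k12 k174 12 (.s k166 k243 14 (.d k4 k8 k247 1 12)))), (.s k89
  k81 1 (.s k77 k113 5 (.s k65 k73 1 (.d k125 k109 k105 3 5)))), (.s k12 k174 12 (.s k207 k138 10
  (.s k77 k142 8 (.s k65 k73 1 (.d k125 k109 k105 3 5)))))] (.c k19 (.q k155 [(.s k89 k81 1 (.s k12
  k174 12 (.s k166 k243 14 (.d k4 k8 k247 1 12)))), (.s k89 k81 1 (.s k77 k113 5 (.s k65 k73 1 (.d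
  k125 k109 k105 3 5)))), (.s k12 k174 12 (.s k207 k138 10 (.s k77 k142 8 (.s k65 k73 1 (.d k125
  k109 k105 3 5)))))] .n) (.c k155 (.q k19 [(.s k89 k81 1 (.s k12 k174 12 (.s k166 k243 14 (.d k4 k8
  k247 1 12)))), (.s k89 k81 1 (.s k77 k113 5 (.s k65 k73 1 (.d k125 k109 k105 3 5)))), (.s k12 k174
  12 (.s k207 k138 10 (.s k77 k142 8 (.s k65 k73 1 (.d k125 k109 k105 3 5)))))] .n) .n)))) (.c k239
  (.l (.s k117 k69 3 (.s k48 k186 10 (.s k16 k32 3 (.d k154 k223 k207 10 14))))) .n))))))))))))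

def t1_88 : T TT 256 :=
  (.f k255 k170 14 (.q k102 [(.s k68 k119 4 (.s k204 k136 9 (.s k153 k51 14 (.d k221 k238 k17 4
  9))))] (.c k17 (.f k119 k68 4 (.f k51 k187 9 (.f k153 k204 14 (.q k49 [(.s k48 k50 0 (.s k101 k205
  13 (.d k117 k69 k186 3 10))), (.s k48 k50 0 (.s k117 k186 10 (.s k118 k116 0 (.d k185 k253 k252 9
  10)))), (.s k101 k205 13 (.s k69 k117 3 (.s k207 k138 10 (.d k103 k100 k155 0 13)))), (.s k48 k50
  0 (.s k16 k32 3 (.s k154 k223 10 (.d k101 k205 k207 13 14))))] .n)))) (.c k51 (.q k4 [(.s k12 k8 1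
  (.s k93 k174 12 (.s k166 k247 12 (.d k89 k81 k243 1 14)))), (.s k68 k119 4 (.s k166 k247 12 (.s
  k38 k230 7 (.s k55 k21 4 (.d k196 k132 k149 7 12))))), (.s k12 k8 1 (.s k68 k119 4 (.s k132 k196 7
  (.s k72 k192 9 (.s k76 k64 1 (.d k204 k140 k136 7 9))))))] .n) (.c k68 (.q k213 [(.s k192 k234 6
  (.s k64 k128 7 (.s k106 k127 6 (.d k149 k21 k63 7 14)))), (.s k149 k21 7 (.s k196 k55 12 (.s k247
  k230 4 (.s k243 k251 1 (.s k81 k162 12 (.s k89 k93 1 (.d k166 k4 k12 12 14)))))))] (.c k21 (.l (.s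
  k192 k234 6 (.s k64 k128 7 (.s k106 k127 6 (.s k98 k110 1 (.s k51 k145 12 (.s k17 k34 4 (.d k153
  k221 k204 9 14)))))))) (.c k149 (.f k192 k234 6 (.q k106 [(.d k64 k128 k127 7 6), (.s k98 k110 1
  (.s k51 k145 12 (.s k17 k34 4 (.d k153 k221 k204 9 14))))] (.c k128 (.q k191 [(.d k127 k64 k63 6
  7), (.s k98 k110 1 (.s k51 k145 12 (.s k17 k34 4 (.d k153 k221 k204 9 14))))] .n) (.c k191 (.l (.s
  k128 k64 7 (.s k98 k110 1 (.s k51 k145 12 (.s k17 k34 4 (.d k153 k221 k204 9 14)))))) .n)))) .n)))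
  (.c k119 (.q k247 [(.s k166 k4 12 (.s k243 k251 1 (.s k81 k162 12 (.d k89 k93 k12 1 14)))), (.s
  k166 k4 12 (.s k230 k38 7 (.s k213 k196 4 (.s k192 k234 6 (.s k64 k128 7 (.s k106 k127 6 (.d k149
  k21 k63 7 14)))))))] (.c k4 (.l (.s k243 k251 1 (.s k81 k162 12 (.s k89 k93 1 (.s k115 k76 6 (.s
  k51 k179 7 (.s k17 k34 4 (.d k153 k221 k204 9 14)))))))) (.c k166 (.f k243 k251 1 (.q k89 [(.d k81
  k162 k93 12 1), (.s k115 k76 6 (.s k51 k179 7 (.s k17 k34 4 (.d k153 k221 k204 9 14))))] (.c k162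
  (.q k174 [(.d k93 k81 k12 1 12), (.s k115 k76 6 (.s k51 k179 7 (.s k17 k34 4 (.d k153 k221 k204 9
  14))))] .n) (.c k174 (.l (.s k162 k81 12 (.s k115 k76 6 (.s k51 k179 7 (.s k17 k34 4 (.d k153 k221
  k204 9 14)))))) .n)))) .n))) (.c k136 (.l (.s k119 k68 4 (.s k51 k187 9 (.s k153 k204 14 (.d k17
  k34 k221 4 9))))) (.c k153 (.f k68 k119 4 (.q k4 [(.s k166 k247 12 (.s k38 k230 7 (.s k55 k21 4
  (.d k196 k132 k149 7 12)))), (.s k12 k8 1 (.s k93 k174 12 (.s k89 k81 1 (.s k76 k115 6 (.d k204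
  k136 k140 9 7)))))] (.c k136 (.q k187 [(.s k166 k247 12 (.s k38 k230 7 (.s k55 k21 4 (.d k196 k132
  k149 7 12)))), (.s k12 k8 1 (.s k93 k174 12 (.s k89 k81 1 (.s k76 k115 6 (.s k127 k110 4 (.d k64
  k72 k106 1 6))))))] (.c k166 (.l (.s k12 k8 1 (.s k132 k196 7 (.s k72 k192 9 (.s k76 k64 1 (.s k89
  k115 6 (.d k93 k81 k174 1 12))))))) .n)) (.c k166 (.l (.s k12 k8 1 (.s k132 k196 7 (.s k72 k192 9
  (.s k76 k64 1 (.d k204 k140 k136 7 9)))))) (.c k187 (.l (.s k136 k204 9 (.s k12 k8 1 (.s k93 k174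
  12 (.s k89 k81 1 (.d k166 k247 k243 12 14)))))) .n))))) (.c k187 (.l (.s k68 k119 4 (.s k204 k136
  9 (.s k153 k51 14 (.d k221 k238 k17 4 9))))) (.c k204 (.q k4 [(.s k12 k8 1 (.s k93 k174 12 (.s
  k166 k247 12 (.d k89 k81 k243 1 14)))), (.s k68 k119 4 (.s k166 k247 12 (.s k38 k230 7 (.s k55 k21
  4 (.d k196 k132 k149 7 12))))), (.s k12 k8 1 (.s k119 k68 4 (.s k51 k187 9 (.s k34 k17 4 (.s k38
  k25 6 (.s k21 k55 4 (.d k42 k46 k63 1 6)))))))] .n) (.c k221 (.q k3 [(.s k68 k119 4 (.s k87 k171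
  13 (.s k86 k84 0 (.s k70 k118 3 (.d k204 k136 k137 9 10))))), (.s k87 k171 13 (.s k119 k68 4 (.s
  k51 k187 9 (.s k19 k35 3 (.s k103 k71 3 (.d k155 k223 k207 9 13)))))), (.s k87 k171 13 (.s k86 k84
  0 (.s k70 k118 3 (.s k169 k252 14 (.s k35 k236 10 (.s k51 k19 3 (.d k204 k137 k153 10 14))))))),
  (.s k68 k119 4 (.s k204 k136 9 (.s k70 k137 10 (.s k86 k118 3 (.s k153 k51 14 (.s k220 k19 10 (.d
  k252 k236 k169 3 14)))))))] (.c k70 (.l (.s k87 k171 13 (.s k86 k84 0 (.s k119 k68 4 (.s k51 k187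
  9 (.s k19 k35 3 (.d k153 k220 k204 10 14))))))) (.c k169 (.l (.s k68 k119 4 (.s k204 k136 9 (.s
  k70 k137 10 (.s k86 k118 3 (.d k87 k84 k171 0 13)))))) .n))) (.c k238 (.l (.s k119 k68 4 (.s k51
  k187 9 (.s k17 k34 4 (.d k153 k221 k204 9 14))))) .n))))))))))))

def t1_89 : T TT 256 :=
  (.f k170 k255 14 (.q k48 [(.s k16 k32 3 (.s k154 k223 10 (.s k138 k186 3 (.d k207 k69 k101 10
  14))))] (.c k16 (.q k5 [(.s k15 k10 2 (.s k165 k245 11 (.s k160 k175 2 (.d k240 k80 k90 11 14)))),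
  (.s k15 k10 2 (.s k37 k26 6 (.s k21 k53 3 (.s k149 k213 7 (.s k128 k191 6 (.s k192 k64 7 (.d k63
  k42 k106 6 14)))))))] (.c k10 (.l (.s k165 k245 11 (.s k160 k175 2 (.s k240 k80 11 (.s k176 k112 7
  (.s k154 k143 6 (.s k138 k186 3 (.d k207 k69 k101 10 14)))))))) (.c k15 (.f k165 k245 11 (.q k240
  [(.d k160 k175 k80 2 11), (.s k176 k112 7 (.s k154 k143 6 (.s k138 k186 3 (.d k207 k69 k101 10
  14))))] (.c k95 (.l (.s k175 k160 2 (.s k176 k112 7 (.s k154 k143 6 (.s k138 k186 3 (.d k207 k69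
  k101 10 14)))))) (.c k175 (.q k95 [(.d k80 k90 k160 2 11), (.s k176 k112 7 (.s k154 k143 6 (.s
  k138 k186 3 (.d k207 k69 k101 10 14))))] .n) .n)))) .n))) (.c k32 (.q k5 [(.s k15 k10 2 (.s k165
  k245 11 (.s k160 k175 2 (.d k240 k80 k90 11 14)))), (.s k15 k10 2 (.s k37 k26 6 (.s k21 k53 3 (.s
  k149 k213 7 (.s k128 k191 6 (.s k192 k64 7 (.d k63 k42 k106 6 14)))))))] (.c k10 (.l (.s k165 k245
  11 (.s k160 k175 2 (.s k240 k80 11 (.s k176 k112 7 (.s k154 k143 6 (.s k138 k186 3 (.d k207 k69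
  k101 10 14)))))))) (.c k15 (.f k165 k245 11 (.q k240 [(.d k160 k175 k80 2 11), (.s k176 k112 7 (.s
  k154 k143 6 (.s k138 k186 3 (.d k207 k69 k101 10 14))))] (.c k95 (.l (.s k175 k160 2 (.s k176 k112
  7 (.s k154 k143 6 (.s k138 k186 3 (.d k207 k69 k101 10 14)))))) (.c k175 (.q k95 [(.d k80 k90 k160
  2 11), (.s k176 k112 7 (.s k154 k143 6 (.s k138 k186 3 (.d k207 k69 k101 10 14))))] .n) .n))))
  .n))) (.c k69 (.f k32 k16 3 (.q k130 [(.s k150 k190 5 (.s k20 k215 8 (.s k60 k40 5 (.d k195 k65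
  k105 8 14)))), (.s k101 k239 10 (.s k195 k65 8 (.s k207 k154 14 (.s k199 k203 1 (.d k150 k190 k52
  5 12))))), (.s k101 k239 10 (.s k150 k190 5 (.s k52 k199 12 (.s k60 k56 1 (.d k20 k40 k215 5
  8)))))] (.c k137 (.q k205 [(.s k150 k190 5 (.s k20 k215 8 (.s k60 k40 5 (.d k195 k65 k105 8
  14)))), (.s k101 k239 10 (.s k153 k49 13 (.s k136 k187 4 (.s k204 k68 9 (.d k207 k206 k154 0
  14)))))] .n) (.c k150 (.l (.s k65 k195 8 (.s k101 k239 10 (.s k105 k125 5 (.s k97 k109 1 (.s k81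
  k113 3 (.d k162 k227 k243 8 12))))))) (.c k190 (.l (.s k101 k239 10 (.s k195 k65 8 (.s k97 k146 12
  (.s k105 k109 1 (.s k40 k235 8 (.d k60 k20 k150 5 14))))))) (.c k205 (.q k137 [(.s k150 k190 5 (.s
  k20 k215 8 (.s k60 k40 5 (.d k195 k65 k105 8 14)))), (.s k101 k239 10 (.s k195 k65 8 (.s k207 k154
  14 (.s k199 k203 1 (.d k150 k190 k52 5 12))))), (.s k101 k239 10 (.s k150 k190 5 (.s k52 k199 12
  (.s k60 k56 1 (.d k20 k40 k215 5 8)))))] (.c k150 (.l (.s k65 k195 8 (.s k101 k239 10 (.s k105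
  k125 5 (.s k97 k109 1 (.s k81 k113 3 (.d k162 k227 k243 8 12))))))) (.c k190 (.l (.s k101 k239 10
  (.s k195 k65 8 (.s k97 k146 12 (.s k105 k109 1 (.s k40 k235 8 (.d k60 k20 k150 5 14))))))) .n)))
  .n)))))) (.c k101 (.f k16 k32 3 (.q k184 [(.s k154 k223 10 (.s k169 k139 4 (.s k252 k116 9 (.d
  k168 k171 k84 0 13)))), (.s k154 k223 10 (.s k186 k138 3 (.s k187 k185 0 (.s k136 k153 4 (.s k152
  k168 3 (.d k204 k100 k68 13 9)))))), (.s k252 k116 9 (.s k84 k168 13 (.s k86 k87 0 (.s k220 k152 9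
  (.s k153 k19 10 (.s k136 k187 4 (.d k204 k236 k68 3 9)))))))] (.c k77 (.q k113 [(.s k154 k223 10
  (.s k169 k139 4 (.s k252 k116 9 (.d k168 k171 k84 0 13)))), (.s k243 k178 8 (.s k81 k162 12 (.s
  k97 k65 3 (.d k146 k211 k195 8 12))))] .n) (.c k113 (.q k77 [(.s k154 k223 10 (.s k169 k139 4 (.s
  k252 k116 9 (.d k168 k171 k84 0 13)))), (.s k154 k223 10 (.s k186 k138 3 (.s k187 k185 0 (.s k136
  k153 4 (.s k152 k168 3 (.d k204 k100 k68 13 9)))))), (.s k252 k116 9 (.s k84 k168 13 (.s k86 k87 0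
  (.s k220 k152 9 (.s k153 k19 10 (.s k136 k187 4 (.d k204 k236 k68 3 9)))))))] (.c k168 (.l (.s
  k154 k223 10 (.s k139 k169 4 (.s k186 k138 3 (.s k187 k185 0 (.s k153 k136 4 (.d k155 k152 k171 0
  3))))))) (.c k223 (.l (.s k252 k116 9 (.s k84 k168 13 (.s k86 k87 0 (.s k3 k169 14 (.s k220 k152 9
  (.s k19 k153 10 (.d k18 k33 k17 4 0)))))))) .n))) (.c k168 (.l (.s k154 k223 10 (.s k139 k169 4
  (.s k186 k138 3 (.s k187 k185 0 (.s k153 k136 4 (.d k155 k152 k171 0 3))))))) (.c k223 (.l (.s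
  k252 k116 9 (.s k84 k168 13 (.s k86 k87 0 (.s k3 k169 14 (.s k220 k152 9 (.s k19 k153 10 (.d k18
  k33 k17 4 0)))))))) .n)))))) (.c k138 (.q k4 [(.s k12 k8 1 (.s k32 k16 3 (.s k36 k24 5 (.s k20 k52
  3 (.d k40 k44 k60 1 5))))), (.s k16 k32 3 (.s k154 k223 10 (.s k166 k247 12 (.s k178 k142 5 (.s
  k243 k113 8 (.d k162 k174 k81 1 12)))))), (.s k12 k8 1 (.s k36 k24 5 (.s k20 k52 3 (.s k150 k215 8
  (.s k130 k190 5 (.s k195 k65 8 (.d k60 k40 k105 5 14)))))))] (.c k154 (.l (.s k12 k8 1 (.s k32 k16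
  3 (.s k101 k239 10 (.s k166 k247 12 (.d k36 k24 k231 5 8)))))) .n)) (.c k154 (.q k24 [(.s k12 k36
  5 (.s k8 k4 1 (.s k16 k32 3 (.s k20 k28 1 (.d k40 k56 k60 3 5))))), (.s k32 k16 3 (.s k36 k12 5
  (.s k44 k40 1 (.s k101 k239 10 (.s k166 k231 8 (.s k227 k105 10 (.d k162 k174 k97 1 8))))))), (.s
  k16 k32 3 (.s k20 k28 1 (.s k150 k215 8 (.s k130 k190 5 (.s k195 k65 8 (.d k60 k40 k105 5
  14)))))), (.s k12 k36 5 (.s k8 k4 1 (.s k40 k56 3 (.s k105 k235 8 (.s k65 k125 5 (.s k195 k130 8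
  (.d k60 k20 k150 5 14)))))))] (.c k40 (.q k4 [(.d k12 k8 k36 1 5), (.s k32 k16 3 (.s k101 k239 10
  (.s k69 k117 3 (.s k199 k134 8 (.s k150 k52 12 (.s k215 k20 8 (.d k247 k231 k166 3 12)))))))] .n)
  .n)) (.c k186 (.l (.s k32 k16 3 (.s k101 k239 10 (.s k69 k117 3 (.d k207 k138 k154 10 14))))) (.c
  k207 (.f k32 k16 3 (.q k96 [(.s k160 k224 7 (.s k165 k175 2 (.s k5 k245 11 (.s k15 k10 2 (.d k240
  k80 k90 11 14))))), (.s k192 k144 11 (.s k128 k64 7 (.s k149 k191 6 (.s k21 k213 7 (.d k63 k42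
  k106 6 14)))))] (.c k80 (.l (.s k160 k224 7 (.s k165 k175 2 (.s k5 k245 11 (.s k15 k10 2 (.s k37
  k26 6 (.d k101 k229 k239 7 10))))))) (.c k223 (.l (.s k239 k101 10 (.s k144 k192 11 (.s k160 k224
  7 (.s k176 k128 3 (.d k240 k112 k80 7 11)))))) (.c k239 (.q k223 [(.s k192 k144 11 (.s k64 k128 7
  (.s k80 k112 3 (.d k160 k224 k240 7 11)))), (.s k160 k224 7 (.s k165 k175 2 (.s k5 k245 11 (.s k15
  k10 2 (.d k240 k80 k90 11 14))))), (.s k192 k144 11 (.s k128 k64 7 (.s k149 k191 6 (.s k21 k213 7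
  (.d k63 k42 k106 6 14)))))] (.c k80 (.l (.s k224 k160 7 (.s k192 k144 11 (.s k208 k240 3 (.s k128
  k64 7 (.s k149 k191 6 (.d k213 k218 k21 2 7))))))) .n)) .n))))) (.c k223 (.l (.s k32 k16 3 (.s
  k101 k239 10 (.s k207 k154 14 (.d k69 k117 k138 3 10))))) (.c k239 (.l (.s k16 k32 3 (.s k154 k223
  10 (.s k207 k101 14 (.d k138 k186 k69 3 10))))) .n))))))))))))

def t1_90 : T TT 256 :=
  (.f k170 k255 14 (.q k48 [(.s k16 k32 3 (.s k154 k223 10 (.s k138 k186 3 (.d k207 k69 k101 10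
  14))))] (.c k16 (.q k4 [(.s k12 k8 1 (.s k166 k247 12 (.s k162 k174 1 (.d k243 k81 k89 12 14)))),
  (.s k12 k8 1 (.s k36 k24 5 (.s k20 k52 3 (.s k150 k215 8 (.s k130 k190 5 (.s k195 k65 8 (.d k60
  k40 k105 5 14)))))))] (.c k8 (.l (.s k166 k247 12 (.s k162 k174 1 (.s k243 k81 12 (.s k178 k113 8
  (.s k154 k142 5 (.s k138 k186 3 (.d k207 k69 k101 10 14)))))))) (.c k12 (.f k166 k247 12 (.q k243
  [(.d k162 k174 k81 1 12), (.s k178 k113 8 (.s k154 k142 5 (.s k138 k186 3 (.d k207 k69 k101 10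
  14))))] (.c k93 (.l (.s k174 k162 1 (.s k178 k113 8 (.s k154 k142 5 (.s k138 k186 3 (.d k207 k69
  k101 10 14)))))) (.c k174 (.q k93 [(.d k81 k89 k162 1 12), (.s k178 k113 8 (.s k154 k142 5 (.s
  k138 k186 3 (.d k207 k69 k101 10 14))))] .n) .n)))) .n))) (.c k32 (.q k4 [(.s k12 k8 1 (.s k166
  k247 12 (.s k162 k174 1 (.d k243 k81 k89 12 14)))), (.s k12 k8 1 (.s k36 k24 5 (.s k20 k52 3 (.s
  k150 k215 8 (.s k130 k190 5 (.s k195 k65 8 (.d k60 k40 k105 5 14)))))))] (.c k8 (.l (.s k166 k247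
  12 (.s k162 k174 1 (.s k243 k81 12 (.s k178 k113 8 (.s k154 k142 5 (.s k138 k186 3 (.d k207 k69
  k101 10 14)))))))) (.c k12 (.f k166 k247 12 (.q k243 [(.d k162 k174 k81 1 12), (.s k178 k113 8 (.s
  k154 k142 5 (.s k138 k186 3 (.d k207 k69 k101 10 14))))] (.c k93 (.l (.s k174 k162 1 (.s k178 k113
  8 (.s k154 k142 5 (.s k138 k186 3 (.d k207 k69 k101 10 14)))))) (.c k174 (.q k93 [(.d k81 k89 k162
  1 12), (.s k178 k113 8 (.s k154 k142 5 (.s k138 k186 3 (.d k207 k69 k101 10 14))))] .n) .n))))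
  .n))) (.c k69 (.f k32 k16 3 (.q k130 [(.s k150 k190 5 (.s k20 k215 8 (.s k60 k40 5 (.d k195 k65
  k105 8 14)))), (.s k101 k239 10 (.s k195 k65 8 (.s k207 k154 14 (.s k199 k203 1 (.d k150 k190 k52
  5 12))))), (.s k101 k239 10 (.s k150 k190 5 (.s k52 k199 12 (.s k60 k56 1 (.d k20 k40 k215 5
  8)))))] (.c k137 (.q k205 [(.s k150 k190 5 (.s k20 k215 8 (.s k60 k40 5 (.d k195 k65 k105 8
  14)))), (.s k101 k239 10 (.s k153 k49 13 (.s k136 k187 4 (.s k204 k68 9 (.d k207 k206 k154 0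
  14)))))] .n) (.c k150 (.l (.s k65 k195 8 (.s k101 k239 10 (.s k105 k125 5 (.s k97 k109 1 (.s k81
  k113 3 (.d k162 k227 k243 8 12))))))) (.c k190 (.l (.s k101 k239 10 (.s k195 k65 8 (.s k97 k146 12
  (.s k105 k109 1 (.s k40 k235 8 (.d k60 k20 k150 5 14))))))) (.c k205 (.q k137 [(.s k150 k190 5 (.s
  k20 k215 8 (.s k60 k40 5 (.d k195 k65 k105 8 14)))), (.s k101 k239 10 (.s k195 k65 8 (.s k207 k154
  14 (.s k199 k203 1 (.d k150 k190 k52 5 12))))), (.s k101 k239 10 (.s k150 k190 5 (.s k52 k199 12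
  (.s k60 k56 1 (.d k20 k40 k215 5 8)))))] (.c k150 (.l (.s k65 k195 8 (.s k101 k239 10 (.s k105
  k125 5 (.s k97 k109 1 (.s k81 k113 3 (.d k162 k227 k243 8 12))))))) (.c k190 (.l (.s k101 k239 10
  (.s k195 k65 8 (.s k97 k146 12 (.s k105 k109 1 (.s k40 k235 8 (.d k60 k20 k150 5 14))))))) .n)))
  .n)))))) (.c k101 (.f k32 k16 3 (.q k97 [(.s k146 k195 12 (.s k162 k227 8 (.s k178 k130 3 (.d k243
  k113 k81 8 12)))), (.s k162 k227 8 (.s k166 k174 1 (.s k4 k247 12 (.s k12 k8 1 (.d k243 k81 k89 12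
  14))))), (.s k195 k146 12 (.s k130 k65 8 (.s k150 k190 5 (.s k20 k215 8 (.d k60 k40 k105 5
  14)))))] (.c k79 (.q k112 [(.s k146 k195 12 (.s k162 k227 8 (.s k178 k130 3 (.d k243 k113 k81 8
  12)))), (.s k82 k67 4 (.s k146 k195 12 (.s k18 k210 7 (.s k3 k33 4 (.d k240 k176 k161 7 12))))),
  (.s k82 k67 4 (.s k162 k227 8 (.s k240 k176 7 (.s k80 k160 11 (.d k81 k83 k243 0 12)))))] .n) (.c
  k81 (.l (.s k146 k195 12 (.s k162 k227 8 (.s k166 k174 1 (.s k4 k247 12 (.s k12 k8 1 (.s k178 k130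
  3 (.d k243 k113 k89 8 14)))))))) (.c k112 (.q k79 [(.s k146 k195 12 (.s k162 k227 8 (.s k178 k130
  3 (.d k243 k113 k81 8 12)))), (.s k162 k227 8 (.s k166 k174 1 (.s k4 k247 12 (.s k12 k8 1 (.d k243
  k81 k89 12 14))))), (.s k195 k146 12 (.s k130 k65 8 (.s k150 k190 5 (.s k20 k215 8 (.d k60 k40
  k105 5 14)))))] (.c k81 (.l (.s k146 k195 12 (.s k162 k227 8 (.s k166 k174 1 (.s k4 k247 12 (.s
  k12 k8 1 (.s k178 k130 3 (.d k243 k113 k89 8 14)))))))) .n)) .n))))) (.c k138 (.q k4 [(.s k12 k8 1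
  (.s k166 k247 12 (.s k162 k174 1 (.d k243 k81 k89 12 14)))), (.s k12 k8 1 (.s k32 k16 3 (.s k36
  k24 5 (.s k20 k52 3 (.d k40 k44 k60 1 5))))), (.s k16 k32 3 (.s k154 k223 10 (.s k166 k247 12 (.s
  k178 k142 5 (.s k243 k113 8 (.d k162 k174 k81 1 12))))))] .n) (.c k154 (.q k26 [(.s k32 k16 3 (.s
  k37 k15 6 (.s k42 k47 2 (.s k58 k10 3 (.d k63 k53 k21 2 6))))), (.s k16 k32 3 (.s k21 k31 2 (.s
  k149 k213 7 (.s k128 k191 6 (.s k192 k64 7 (.d k63 k42 k106 6 14)))))), (.s k15 k37 6 (.s k10 k5 2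
  (.s k42 k58 3 (.s k106 k234 7 (.s k64 k127 6 (.s k192 k128 7 (.d k63 k21 k149 6 14))))))), (.s k32
  k16 3 (.s k37 k15 6 (.s k47 k42 2 (.s k101 k239 10 (.s k165 k229 7 (.s k224 k106 10 (.d k160 k175
  k96 2 7)))))))] (.c k42 (.q k3 [(.s k15 k37 6 (.s k11 k7 1 (.s k41 k56 4 (.s k22 k60 6 (.d k18 k30
  k33 1 4))))), (.s k32 k16 3 (.s k33 k18 4 (.s k101 k239 10 (.s k169 k237 9 (.s k168 k171 0 (.d
  k252 k86 k84 14 13)))))), (.s k15 k37 6 (.s k5 k10 2 (.s k7 k11 1 (.s k165 k245 11 (.s k86 k244 12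
  (.s k84 k87 0 (.d k252 k169 k168 14 13)))))))] (.c k32 (.l (.s k18 k33 4 (.s k22 k30 1 (.s k37 k15
  6 (.s k52 k7 4 (.d k60 k56 k41 1 6)))))) .n)) .n)) (.c k186 (.l (.s k32 k16 3 (.s k101 k239 10 (.s
  k69 k117 3 (.d k207 k138 k154 10 14))))) (.c k207 (.f k32 k16 3 (.q k96 [(.s k144 k192 11 (.s k160
  k224 7 (.s k176 k128 3 (.d k240 k112 k80 7 11)))), (.s k160 k224 7 (.s k165 k175 2 (.s k5 k245 11
  (.s k15 k10 2 (.s k37 k26 6 (.d k101 k239 k229 10 7)))))), (.s k192 k144 11 (.s k128 k64 7 (.s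
  k149 k191 6 (.s k21 k213 7 (.d k63 k42 k106 6 14)))))] (.c k223 (.l (.s k239 k101 10 (.s k144 k192
  11 (.s k160 k224 7 (.s k176 k128 3 (.d k240 k112 k80 7 11)))))) (.c k239 (.q k223 [(.s k192 k144
  11 (.s k64 k128 7 (.s k80 k112 3 (.d k160 k224 k240 7 11)))), (.s k160 k224 7 (.s k165 k175 2 (.s
  k5 k245 11 (.s k15 k10 2 (.s k37 k26 6 (.s k21 k53 3 (.d k42 k47 k63 2 6))))))), (.s k192 k144 11
  (.s k128 k64 7 (.s k149 k191 6 (.s k21 k213 7 (.d k63 k42 k106 6 14)))))] .n) .n)))) (.c k223 (.l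
  (.s k32 k16 3 (.s k101 k239 10 (.s k207 k154 14 (.d k69 k117 k138 3 10))))) (.c k239 (.l (.s k16
  k32 3 (.s k154 k223 10 (.s k207 k101 14 (.d k138 k186 k69 3 10))))) .n))))))))))))

def t1_91 : T TT 256 :=
  (.f k255 k170 14 (.q k102 [(.s k68 k119 4 (.s k204 k136 9 (.s k153 k51 14 (.d k221 k238 k17 4
  9))))] (.c k17 (.f k119 k68 4 (.f k51 k187 9 (.f k153 k204 14 (.q k49 [(.s k48 k50 0 (.s k101 k205
  13 (.d k117 k69 k186 3 10))), (.s k48 k50 0 (.s k117 k186 10 (.s k118 k116 0 (.d k185 k253 k252 9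
  10)))), (.s k101 k205 13 (.s k69 k117 3 (.s k207 k138 10 (.d k103 k100 k155 0 13)))), (.s k48 k50
  0 (.s k16 k32 3 (.s k154 k223 10 (.d k101 k205 k207 13 14))))] .n)))) (.c k51 (.q k4 [(.s k12 k8 1
  (.s k93 k174 12 (.s k166 k247 12 (.d k89 k81 k243 1 14)))), (.s k68 k119 4 (.s k166 k247 12 (.s
  k38 k230 7 (.s k55 k21 4 (.d k196 k132 k149 7 12))))), (.s k12 k8 1 (.s k68 k119 4 (.s k132 k196 7
  (.s k72 k192 9 (.s k76 k64 1 (.d k204 k140 k136 7 9))))))] .n) (.c k68 (.q k4 [(.s k12 k8 1 (.s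
  k93 k174 12 (.s k166 k247 12 (.d k89 k81 k243 1 14)))), (.s k166 k247 12 (.s k38 k230 7 (.s k21
  k55 4 (.s k63 k42 6 (.s k127 k191 7 (.s k106 k64 6 (.d k149 k213 k192 7 14)))))))] (.c k166 (.f
  k12 k8 1 (.q k89 [(.d k93 k174 k81 12 1), (.s k76 k115 6 (.s k204 k140 7 (.s k153 k51 14 (.d k221
  k238 k17 4 9))))] (.c k162 (.l (.s k174 k93 12 (.s k76 k115 6 (.s k204 k140 7 (.s k153 k51 14 (.d
  k221 k238 k17 4 9)))))) (.c k174 (.q k162 [(.d k81 k93 k243 1 12), (.s k76 k115 6 (.s k204 k140 7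
  (.s k221 k238 4 (.d k153 k17 k51 9 14))))] .n) .n)))) (.c k247 (.l (.s k12 k8 1 (.s k93 k174 12
  (.s k89 k81 1 (.s k76 k115 6 (.s k204 k140 7 (.s k153 k51 14 (.d k221 k238 k17 4 9)))))))) .n)))
  (.c k119 (.q k127 [(.s k106 k64 6 (.s k63 k191 7 (.s k149 k192 14 (.d k21 k42 k213 6 7)))), (.s
  k106 k64 6 (.s k110 k98 1 (.s k93 k76 4 (.s k12 k174 12 (.s k4 k8 1 (.s k166 k247 12 (.d k89 k81
  k243 1 14)))))))] (.c k64 (.l (.s k63 k191 7 (.s k21 k42 6 (.s k149 k213 7 (.s k55 k196 12 (.s k51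
  k59 1 (.s k17 k34 4 (.d k153 k221 k204 9 14)))))))) (.c k106 (.f k63 k191 7 (.q k149 [(.d k21 k42
  k213 6 7), (.s k55 k196 12 (.s k51 k59 1 (.s k17 k34 4 (.d k153 k221 k204 9 14))))] (.c k42 (.q
  k234 [(.d k213 k192 k21 6 7), (.s k55 k196 12 (.s k51 k59 1 (.s k17 k34 4 (.d k153 k221 k204 9
  14))))] .n) (.c k234 (.l (.s k42 k21 6 (.s k55 k196 12 (.s k51 k59 1 (.s k17 k34 4 (.d k153 k221
  k204 9 14)))))) .n)))) .n))) (.c k136 (.l (.s k119 k68 4 (.s k51 k187 9 (.s k153 k204 14 (.d k17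
  k34 k221 4 9))))) (.c k153 (.f k68 k119 4 (.q k4 [(.s k12 k8 1 (.s k93 k174 12 (.s k89 k81 1 (.d
  k166 k247 k243 12 14)))), (.s k166 k247 12 (.s k38 k230 7 (.s k55 k21 4 (.d k196 k132 k149 7
  12)))), (.s k12 k8 1 (.s k132 k196 7 (.s k72 k192 9 (.s k76 k64 1 (.d k204 k136 k140 9 7)))))] (.c
  k136 (.q k187 [(.s k166 k247 12 (.s k38 k230 7 (.s k55 k21 4 (.d k196 k132 k149 7 12)))), (.s k12
  k8 1 (.s k93 k174 12 (.s k89 k81 1 (.s k76 k115 6 (.s k127 k110 4 (.d k64 k72 k106 1 6))))))] (.c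
  k166 (.l (.s k12 k8 1 (.s k132 k196 7 (.s k72 k192 9 (.s k76 k64 1 (.s k89 k115 6 (.d k93 k81 k174
  1 12))))))) .n)) (.c k187 (.l (.s k136 k204 9 (.s k12 k8 1 (.s k93 k174 12 (.s k89 k81 1 (.d k166
  k247 k243 12 14)))))) .n)))) (.c k187 (.l (.s k68 k119 4 (.s k204 k136 9 (.s k153 k51 14 (.d k221
  k238 k17 4 9))))) (.c k204 (.q k4 [(.s k12 k8 1 (.s k93 k174 12 (.s k166 k247 12 (.d k89 k81 k243
  1 14)))), (.s k68 k119 4 (.s k166 k247 12 (.s k38 k230 7 (.s k55 k21 4 (.d k196 k132 k149 7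
  12))))), (.s k12 k8 1 (.s k119 k68 4 (.s k51 k187 9 (.s k34 k17 4 (.s k38 k25 6 (.s k21 k55 4 (.d
  k42 k46 k63 1 6)))))))] .n) (.c k221 (.q k3 [(.s k68 k119 4 (.s k87 k171 13 (.s k86 k84 0 (.s k70
  k118 3 (.d k204 k136 k137 9 10))))), (.s k87 k171 13 (.s k119 k68 4 (.s k51 k187 9 (.s k19 k35 3
  (.s k103 k71 3 (.d k155 k223 k207 9 13)))))), (.s k68 k119 4 (.s k204 k136 9 (.s k70 k137 10 (.s
  k86 k118 3 (.s k153 k51 14 (.s k220 k19 10 (.d k252 k236 k169 3 14))))))), (.s k87 k171 13 (.s k86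
  k84 0 (.s k70 k118 3 (.s k169 k252 14 (.s k35 k236 10 (.s k51 k19 3 (.d k204 k137 k153 10
  14)))))))] (.c k70 (.l (.s k87 k171 13 (.s k86 k84 0 (.s k119 k68 4 (.s k51 k187 9 (.s k19 k35 3
  (.d k153 k220 k204 10 14))))))) (.c k169 (.l (.s k68 k119 4 (.s k204 k136 9 (.s k70 k137 10 (.s
  k86 k118 3 (.d k87 k84 k171 0 13)))))) .n))) (.c k238 (.l (.s k119 k68 4 (.s k51 k187 9 (.s k17
  k34 4 (.d k153 k221 k204 9 14))))) .n))))))))))))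

def t1_92 : T TT 256 :=
  (.f k255 k170 14 (.q k102 [(.s k68 k119 4 (.s k204 k136 9 (.s k153 k51 14 (.d k221 k238 k17 4
  9))))] (.c k17 (.f k119 k68 4 (.f k51 k187 9 (.f k153 k204 14 (.q k49 [(.s k48 k50 0 (.s k101 k205
  13 (.d k117 k69 k186 3 10))), (.s k48 k50 0 (.s k117 k186 10 (.s k118 k116 0 (.d k185 k253 k252 9
  10)))), (.s k101 k205 13 (.s k69 k117 3 (.s k207 k138 10 (.d k103 k100 k155 0 13)))), (.s k48 k50
  0 (.s k16 k32 3 (.s k154 k223 10 (.d k101 k205 k207 13 14))))] .n)))) (.c k51 (.q k4 [(.s k12 k8 1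
  (.s k93 k174 12 (.s k166 k247 12 (.d k89 k81 k243 1 14)))), (.s k68 k119 4 (.s k166 k247 12 (.s
  k38 k230 7 (.s k55 k21 4 (.d k196 k132 k149 7 12))))), (.s k12 k8 1 (.s k68 k119 4 (.s k132 k196 7
  (.s k72 k192 9 (.s k76 k64 1 (.d k204 k140 k136 7 9))))))] .n) (.c k68 (.q k4 [(.s k166 k247 12
  (.s k12 k8 1 (.s k89 k243 14 (.d k93 k81 k174 1 12)))), (.s k166 k247 12 (.s k38 k230 7 (.s k21
  k55 4 (.s k63 k42 6 (.s k127 k191 7 (.s k106 k64 6 (.d k149 k213 k192 7 14)))))))] (.c k166 (.f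
  k12 k8 1 (.q k89 [(.d k93 k174 k81 12 1), (.s k76 k115 6 (.s k204 k140 7 (.s k153 k51 14 (.d k221
  k238 k17 4 9))))] (.c k162 (.l (.s k174 k93 12 (.s k76 k115 6 (.s k204 k140 7 (.s k153 k51 14 (.d
  k221 k238 k17 4 9)))))) (.c k174 (.q k162 [(.d k81 k93 k243 1 12), (.s k76 k115 6 (.s k204 k140 7
  (.s k221 k238 4 (.d k153 k17 k51 9 14))))] .n) .n)))) (.c k247 (.l (.s k12 k8 1 (.s k93 k174 12
  (.s k89 k81 1 (.s k76 k115 6 (.s k204 k140 7 (.s k153 k51 14 (.d k221 k238 k17 4 9)))))))) .n)))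
  (.c k119 (.q k247 [(.s k166 k4 12 (.s k243 k251 1 (.s k81 k162 12 (.d k89 k93 k12 1 14)))), (.s
  k166 k4 12 (.s k230 k38 7 (.s k213 k196 4 (.s k192 k234 6 (.s k64 k128 7 (.s k106 k127 6 (.d k149
  k21 k63 7 14)))))))] (.c k4 (.l (.s k243 k251 1 (.s k81 k162 12 (.s k89 k93 1 (.s k115 k76 6 (.s
  k51 k179 7 (.s k17 k34 4 (.d k153 k221 k204 9 14)))))))) (.c k166 (.f k243 k251 1 (.q k89 [(.d k81
  k162 k93 12 1), (.s k115 k76 6 (.s k51 k179 7 (.s k17 k34 4 (.d k153 k221 k204 9 14))))] (.c k162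
  (.q k174 [(.d k93 k81 k12 1 12), (.s k115 k76 6 (.s k51 k179 7 (.s k17 k34 4 (.d k153 k221 k204 9
  14))))] .n) (.c k174 (.l (.s k162 k81 12 (.s k115 k76 6 (.s k51 k179 7 (.s k17 k34 4 (.d k153 k221
  k204 9 14)))))) .n)))) .n))) (.c k136 (.l (.s k119 k68 4 (.s k51 k187 9 (.s k153 k204 14 (.d k17
  k34 k221 4 9))))) (.c k153 (.f k68 k119 4 (.q k4 [(.s k166 k247 12 (.s k12 k8 1 (.s k89 k243 14
  (.d k93 k81 k174 1 12)))), (.s k166 k247 12 (.s k38 k230 7 (.s k55 k21 4 (.d k196 k132 k149 7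
  12)))), (.s k12 k8 1 (.s k132 k196 7 (.s k72 k192 9 (.s k76 k64 1 (.d k204 k136 k140 9 7)))))] (.c
  k136 (.q k187 [(.s k166 k247 12 (.s k38 k230 7 (.s k55 k21 4 (.d k196 k132 k149 7 12)))), (.s k12
  k8 1 (.s k93 k174 12 (.s k89 k81 1 (.s k76 k115 6 (.s k127 k110 4 (.d k64 k72 k106 1 6))))))] (.c
  k166 (.l (.s k12 k8 1 (.s k132 k196 7 (.s k72 k192 9 (.s k76 k64 1 (.s k89 k115 6 (.d k93 k81 k174
  1 12))))))) .n)) (.c k187 (.l (.s k136 k204 9 (.s k12 k8 1 (.s k93 k174 12 (.s k89 k81 1 (.d k166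
  k247 k243 12 14)))))) .n)))) (.c k187 (.l (.s k68 k119 4 (.s k204 k136 9 (.s k153 k51 14 (.d k221
  k238 k17 4 9))))) (.c k204 (.q k4 [(.s k12 k8 1 (.s k93 k174 12 (.s k166 k247 12 (.d k89 k81 k243
  1 14)))), (.s k68 k119 4 (.s k166 k247 12 (.s k38 k230 7 (.s k55 k21 4 (.d k196 k132 k149 7
  12))))), (.s k12 k8 1 (.s k119 k68 4 (.s k51 k187 9 (.s k34 k17 4 (.s k38 k25 6 (.s k21 k55 4 (.d
  k42 k46 k63 1 6)))))))] .n) (.c k221 (.q k3 [(.s k68 k119 4 (.s k87 k171 13 (.s k86 k84 0 (.s k70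
  k118 3 (.d k204 k136 k137 9 10))))), (.s k87 k171 13 (.s k119 k68 4 (.s k51 k187 9 (.s k19 k35 3
  (.s k103 k71 3 (.d k155 k223 k207 9 13)))))), (.s k87 k171 13 (.s k86 k84 0 (.s k70 k118 3 (.s
  k169 k252 14 (.s k35 k236 10 (.s k51 k19 3 (.d k204 k137 k153 10 14))))))), (.s k68 k119 4 (.s
  k204 k136 9 (.s k70 k137 10 (.s k86 k118 3 (.s k153 k51 14 (.s k220 k19 10 (.d k252 k236 k169 3
  14)))))))] (.c k70 (.l (.s k87 k171 13 (.s k86 k84 0 (.s k119 k68 4 (.s k51 k187 9 (.s k19 k35 3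
  (.d k153 k220 k204 10 14))))))) (.c k169 (.l (.s k68 k119 4 (.s k204 k136 9 (.s k70 k137 10 (.s
  k86 k118 3 (.d k87 k84 k171 0 13)))))) .n))) (.c k238 (.l (.s k119 k68 4 (.s k51 k187 9 (.s k17
  k34 4 (.d k153 k221 k204 9 14))))) .n))))))))))))

def t1_93 : T TT 256 :=
  (.f k255 k170 14 (.q k101 [(.s k69 k117 3 (.s k207 k138 10 (.s k154 k48 14 (.d k223 k239 k16 3
  10))))] (.c k16 (.q k3 [(.s k69 k117 3 (.s k87 k171 13 (.s k86 k84 0 (.s k207 k138 10 (.d k71 k116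
  k139 4 9))))), (.s k69 k117 3 (.s k207 k138 10 (.s k71 k139 9 (.s k68 k70 0 (.s k102 k119 4 (.s
  k100 k103 0 (.d k116 k84 k86 3 4))))))), (.s k69 k117 3 (.s k87 k171 13 (.s k86 k84 0 (.s k71 k116
  4 (.s k68 k70 0 (.d k119 k103 k102 3 4)))))), (.s k69 k117 3 (.s k87 k171 13 (.s k207 k138 10 (.s
  k71 k139 9 (.s k68 k70 0 (.d k119 k103 k102 3 4))))))] (.c k69 (.l (.s k87 k171 13 (.s k86 k84 0
  (.s k71 k116 4 (.s k103 k119 3 (.s k207 k139 9 (.s k155 k51 13 (.d k223 k239 k19 3 9)))))))) (.c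
  k71 (.l (.s k87 k171 13 (.s k86 k84 0 (.s k117 k69 3 (.s k48 k186 10 (.s k18 k33 4 (.d k154 k222
  k207 9 14))))))) (.c k117 (.l (.s k87 k171 13 (.s k86 k84 0 (.s k71 k116 4 (.s k119 k103 3 (.s k68
  k102 4 (.s k69 k70 0 (.d k207 k139 k138 9 10)))))))) .n)))) (.c k48 (.q k5 [(.s k15 k10 2 (.s k95
  k175 11 (.s k90 k80 2 (.d k165 k245 k240 11 14)))), (.s k69 k117 3 (.s k165 k245 11 (.s k37 k229 7
  (.s k53 k21 3 (.d k197 k133 k149 7 11))))), (.s k15 k10 2 (.s k69 k117 3 (.s k133 k197 7 (.s k74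
  k192 10 (.s k79 k64 2 (.d k207 k143 k138 7 10))))))] .n) (.c k69 (.q k150 [(.s k20 k215 8 (.s k60
  k40 5 (.s k105 k195 14 (.d k125 k65 k190 5 8)))), (.s k20 k215 8 (.s k52 k199 12 (.s k4 k36 3 (.s
  k247 k166 12 (.s k117 k182 8 (.s k48 k186 10 (.d k60 k56 k40 1 5))))))), (.s k199 k52 12 (.s k215
  k20 8 (.s k195 k235 5 (.s k207 k203 1 (.s k223 k239 3 (.d k154 k16 k48 10 14))))))] (.c k20 (.q
  k149 [(.s k21 k213 7 (.s k63 k42 6 (.s k106 k192 14 (.d k127 k64 k191 6 7)))), (.s k52 k199 12 (.s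
  k53 k197 11 (.s k55 k54 0 (.s k148 k151 0 (.d k196 k100 k102 11 12)))))] (.c k137 (.q k205 [(.s
  k21 k213 7 (.s k63 k42 6 (.s k106 k192 14 (.d k127 k64 k191 6 7)))), (.s k49 k153 13 (.s k53 k197
  11 (.s k61 k57 1 (.s k105 k193 13 (.d k109 k97 k157 1 11)))))] .n) (.c k205 (.q k137 [(.s k21 k213
  7 (.s k63 k42 6 (.s k106 k192 14 (.d k127 k64 k191 6 7)))), (.s k52 k199 12 (.s k53 k197 11 (.s
  k55 k54 0 (.s k148 k151 0 (.d k196 k100 k102 11 12)))))] .n) .n))) (.c k40 (.l (.s k215 k20 8 (.s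
  k195 k235 5 (.s k105 k60 14 (.d k65 k125 k130 5 8))))) (.c k137 (.q k205 [(.s k20 k215 8 (.s k60
  k40 5 (.s k105 k195 14 (.d k125 k65 k190 5 8)))), (.s k153 k49 13 (.s k17 k221 9 (.s k51 k34 4 (.s
  k102 k204 14 (.d k119 k68 k187 4 9)))))] .n) (.c k205 (.q k137 [(.s k20 k215 8 (.s k60 k40 5 (.s
  k105 k195 14 (.d k125 k65 k190 5 8)))), (.s k20 k215 8 (.s k52 k199 12 (.s k4 k36 3 (.s k247 k166
  12 (.s k117 k182 8 (.s k48 k186 10 (.d k60 k56 k40 1 5))))))), (.s k199 k52 12 (.s k215 k20 8 (.s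
  k195 k235 5 (.s k207 k203 1 (.s k223 k239 3 (.d k154 k16 k48 10 14))))))] (.c k20 (.q k3 [(.s k204
  k70 10 (.s k68 k136 9 (.s k102 k119 4 (.s k153 k51 14 (.d k221 k238 k17 4 9))))), (.s k87 k171 13
  (.s k86 k84 0 (.s k22 k214 7 (.s k60 k41 6 (.s k105 k195 14 (.d k125 k65 k190 5 8))))))] .n) (.c
  k40 (.l (.s k215 k20 8 (.s k195 k235 5 (.s k105 k60 14 (.d k65 k125 k130 5 8))))) (.c k215 (.q k3
  [(.s k204 k70 10 (.s k68 k136 9 (.s k102 k119 4 (.s k153 k51 14 (.d k221 k238 k17 4 9))))), (.s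
  k87 k171 13 (.s k86 k84 0 (.s k22 k214 7 (.s k60 k41 6 (.s k105 k195 14 (.d k125 k65 k190 5
  8))))))] .n) .n)))) (.c k215 (.f k199 k52 12 (.q k102 [(.s k68 k119 4 (.s k204 k136 9 (.s k153 k51
  14 (.d k221 k238 k17 4 9)))), (.s k103 k100 0 (.s k55 k151 11 (.s k196 k149 12 (.d k198 k197 k54 0
  11))))] (.c k137 (.q k205 [(.s k68 k119 4 (.s k153 k49 13 (.d k204 k136 k51 9 14))), (.s k103 k100
  0 (.s k55 k151 11 (.s k196 k149 12 (.d k198 k197 k54 0 11))))] .n) (.c k205 (.q k137 [(.s k68 k119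
  4 (.s k204 k136 9 (.s k153 k51 14 (.d k221 k238 k17 4 9)))), (.s k103 k100 0 (.s k55 k151 11 (.s
  k196 k149 12 (.d k198 k197 k54 0 11))))] .n) .n)))) .n)))))) (.c k117 (.q k95 [(.s k90 k80 2 (.s
  k15 k175 11 (.s k165 k240 14 (.d k5 k10 k245 2 11)))), (.s k90 k80 2 (.s k79 k112 6 (.s k127 k111
  3 (.s k63 k191 7 (.s k21 k42 6 (.s k149 k213 7 (.d k106 k64 k192 6 14)))))))] (.c k80 (.l (.s k15
  k175 11 (.s k5 k10 2 (.s k165 k245 11 (.s k37 k229 7 (.s k48 k26 6 (.s k16 k32 3 (.d k154 k223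
  k207 10 14)))))))) (.c k90 (.f k15 k175 11 (.q k165 [(.d k5 k10 k245 2 11), (.s k37 k229 7 (.s k48
  k26 6 (.s k16 k32 3 (.d k154 k223 k207 10 14))))] (.c k10 (.q k250 [(.d k245 k240 k5 2 11), (.s
  k37 k229 7 (.s k48 k26 6 (.s k16 k32 3 (.d k154 k223 k207 10 14))))] .n) (.c k250 (.l (.s k10 k5 2
  (.s k37 k229 7 (.s k48 k26 6 (.s k16 k32 3 (.d k154 k223 k207 10 14)))))) .n)))) .n))) (.c k138
  (.l (.s k117 k69 3 (.s k48 k186 10 (.s k154 k207 14 (.d k16 k32 k223 3 10))))) (.c k154 (.f k69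
  k117 3 (.f k138 k207 10 (.q k5 [(.s k15 k10 2 (.s k95 k175 11 (.s k90 k80 2 (.d k165 k245 k240 11
  14)))), (.s k165 k245 11 (.s k37 k229 7 (.s k53 k21 3 (.d k197 k133 k149 7 11)))), (.s k15 k10 2
  (.s k133 k197 7 (.s k192 k74 10 (.d k128 k143 k64 2 7))))] .n))) (.c k186 (.l (.s k69 k117 3 (.s
  k207 k138 10 (.s k154 k48 14 (.d k223 k239 k16 3 10))))) (.c k207 (.q k4 [(.s k69 k117 3 (.s k199
  k134 8 (.s k150 k52 12 (.s k215 k20 8 (.d k247 k231 k166 3 12))))), (.s k12 k8 1 (.s k117 k69 3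
  (.s k48 k186 10 (.s k32 k16 3 (.s k36 k24 5 (.s k20 k52 3 (.d k40 k44 k60 1 5))))))), (.s k12 k8 1
  (.s k117 k69 3 (.s k48 k186 10 (.s k36 k24 5 (.d k166 k231 k247 8 12))))), (.s k12 k8 1 (.s k166
  k247 12 (.s k36 k231 8 (.s k48 k24 5 (.s k32 k16 3 (.s k40 k44 1 (.d k20 k52 k60 3 5)))))))] .n)
  (.c k223 (.f k69 k117 3 (.q k3 [(.s k87 k171 13 (.s k86 k84 0 (.s k207 k138 10 (.d k71 k116 k139 4
  9)))), (.s k87 k171 13 (.s k86 k84 0 (.s k71 k116 4 (.s k68 k70 0 (.d k119 k103 k102 3 4))))), (.s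
  k207 k138 10 (.s k71 k139 9 (.s k68 k70 0 (.s k102 k119 4 (.s k100 k103 0 (.d k116 k84 k86 3
  4)))))), (.s k87 k171 13 (.s k207 k138 10 (.s k71 k139 9 (.s k68 k70 0 (.d k119 k103 k102 3
  4)))))] (.c k28 (.q k158 [(.s k87 k171 13 (.s k86 k84 0 (.s k207 k138 10 (.d k71 k116 k139 4
  9)))), (.s k207 k138 10 (.s k60 k109 12 (.s k20 k40 5 (.s k150 k215 8 (.d k154 k146 k48 1 14))))),
  (.s k87 k171 13 (.s k86 k84 0 (.s k71 k116 4 (.s k68 k70 0 (.d k119 k103 k102 3 4)))))] .n) (.c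
  k71 (.l (.s k87 k171 13 (.s k86 k84 0 (.s k169 k252 14 (.s k33 k237 9 (.s k48 k18 4 (.d k207 k138
  k154 10 14))))))) (.c k158 (.q k28 [(.s k87 k171 13 (.s k86 k84 0 (.s k207 k138 10 (.d k71 k116
  k139 4 9)))), (.s k87 k171 13 (.s k86 k84 0 (.s k71 k116 4 (.s k68 k70 0 (.d k119 k103 k102 3
  4))))), (.s k207 k138 10 (.s k71 k139 9 (.s k68 k70 0 (.s k102 k119 4 (.s k100 k103 0 (.d k116 k84
  k86 3 4)))))), (.s k87 k171 13 (.s k207 k138 10 (.s k71 k139 9 (.s k68 k70 0 (.d k119 k103 k102 3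
  4)))))] (.c k71 (.l (.s k87 k171 13 (.s k86 k84 0 (.s k169 k252 14 (.s k33 k237 9 (.s k48 k18 4
  (.d k207 k138 k154 10 14))))))) .n)) .n))))) (.c k239 (.l (.s k117 k69 3 (.s k48 k186 10 (.s k16
  k32 3 (.d k154 k223 k207 10 14))))) .n))))))))))))

def t1_94 : T TT 256 :=
  (.f k255 k170 14 (.q k102 [(.s k68 k119 4 (.s k204 k136 9 (.s k153 k51 14 (.d k221 k238 k17 4
  9))))] (.c k17 (.f k119 k68 4 (.f k51 k187 9 (.f k153 k204 14 (.q k49 [(.s k48 k50 0 (.s k101 k205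
  13 (.d k117 k69 k186 3 10))), (.s k48 k50 0 (.s k117 k186 10 (.s k118 k116 0 (.d k185 k253 k252 9
  10)))), (.s k101 k205 13 (.s k69 k117 3 (.s k207 k138 10 (.d k103 k100 k155 0 13)))), (.s k48 k50
  0 (.s k16 k32 3 (.s k154 k223 10 (.d k101 k205 k207 13 14))))] .n)))) (.c k51 (.q k4 [(.s k12 k8 1
  (.s k166 k247 12 (.s k89 k243 14 (.d k93 k81 k174 1 12)))), (.s k68 k119 4 (.s k166 k247 12 (.s
  k38 k230 7 (.s k55 k21 4 (.d k196 k132 k149 7 12))))), (.s k12 k8 1 (.s k68 k119 4 (.s k132 k196 7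
  (.s k72 k192 9 (.s k76 k64 1 (.d k204 k140 k136 7 9))))))] .n) (.c k68 (.q k213 [(.s k192 k234 6
  (.s k64 k128 7 (.s k106 k127 6 (.d k149 k21 k63 7 14)))), (.s k149 k21 7 (.s k196 k55 12 (.s k247
  k230 4 (.s k243 k251 1 (.s k81 k162 12 (.s k89 k93 1 (.d k166 k4 k12 12 14)))))))] (.c k21 (.l (.s
  k192 k234 6 (.s k64 k128 7 (.s k106 k127 6 (.s k98 k110 1 (.s k51 k145 12 (.s k17 k34 4 (.d k153
  k221 k204 9 14)))))))) (.c k149 (.f k192 k234 6 (.q k106 [(.d k64 k128 k127 7 6), (.s k98 k110 1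
  (.s k51 k145 12 (.s k17 k34 4 (.d k153 k221 k204 9 14))))] (.c k128 (.q k191 [(.d k127 k64 k63 6
  7), (.s k98 k110 1 (.s k51 k145 12 (.s k17 k34 4 (.d k153 k221 k204 9 14))))] .n) (.c k191 (.l (.s
  k128 k64 7 (.s k98 k110 1 (.s k51 k145 12 (.s k17 k34 4 (.d k153 k221 k204 9 14)))))) .n)))) .n)))
  (.c k119 (.q k247 [(.s k166 k4 12 (.s k243 k251 1 (.s k81 k162 12 (.d k89 k93 k12 1 14)))), (.s
  k166 k4 12 (.s k230 k38 7 (.s k213 k196 4 (.s k192 k234 6 (.s k64 k128 7 (.s k106 k127 6 (.d k149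
  k21 k63 7 14)))))))] (.c k4 (.l (.s k243 k251 1 (.s k81 k162 12 (.s k89 k93 1 (.s k115 k76 6 (.s
  k51 k179 7 (.s k17 k34 4 (.d k153 k221 k204 9 14)))))))) (.c k166 (.f k243 k251 1 (.q k89 [(.d k81
  k162 k93 12 1), (.s k115 k76 6 (.s k51 k179 7 (.s k17 k34 4 (.d k153 k221 k204 9 14))))] (.c k162
  (.q k174 [(.d k93 k81 k12 1 12), (.s k115 k76 6 (.s k51 k179 7 (.s k17 k34 4 (.d k153 k221 k204 9
  14))))] .n) (.c k174 (.l (.s k162 k81 12 (.s k115 k76 6 (.s k51 k179 7 (.s k17 k34 4 (.d k153 k221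
  k204 9 14)))))) .n)))) .n))) (.c k136 (.l (.s k119 k68 4 (.s k51 k187 9 (.s k153 k204 14 (.d k17
  k34 k221 4 9))))) (.c k153 (.f k68 k119 4 (.q k4 [(.s k12 k8 1 (.s k166 k247 12 (.s k89 k243 14
  (.d k93 k81 k174 1 12)))), (.s k166 k247 12 (.s k38 k230 7 (.s k55 k21 4 (.d k196 k132 k149 7
  12)))), (.s k12 k8 1 (.s k132 k196 7 (.s k72 k192 9 (.s k76 k64 1 (.d k204 k136 k140 9 7)))))] (.c
  k136 (.q k187 [(.s k166 k247 12 (.s k38 k230 7 (.s k55 k21 4 (.d k196 k132 k149 7 12)))), (.s k12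
  k8 1 (.s k93 k174 12 (.s k89 k81 1 (.s k76 k115 6 (.s k127 k110 4 (.d k64 k72 k106 1 6))))))] (.c
  k166 (.l (.s k12 k8 1 (.s k132 k196 7 (.s k72 k192 9 (.s k76 k64 1 (.s k89 k115 6 (.d k93 k81 k174
  1 12))))))) .n)) (.c k187 (.l (.s k136 k204 9 (.s k12 k8 1 (.s k93 k174 12 (.s k89 k81 1 (.d k166
  k247 k243 12 14)))))) .n)))) (.c k187 (.l (.s k68 k119 4 (.s k204 k136 9 (.s k153 k51 14 (.d k221
  k238 k17 4 9))))) (.c k204 (.q k4 [(.s k12 k8 1 (.s k166 k247 12 (.s k89 k243 14 (.d k93 k81 k174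
  1 12)))), (.s k12 k8 1 (.s k119 k68 4 (.s k51 k187 9 (.s k34 k17 4 (.s k38 k25 6 (.s k21 k55 4 (.d
  k42 k46 k63 1 6))))))), (.s k68 k119 4 (.s k166 k247 12 (.s k38 k230 7 (.s k55 k21 4 (.d k196 k132
  k149 7 12)))))] .n) (.c k221 (.q k3 [(.s k68 k119 4 (.s k87 k171 13 (.s k86 k84 0 (.s k70 k118 3
  (.d k204 k136 k137 9 10))))), (.s k87 k171 13 (.s k119 k68 4 (.s k51 k187 9 (.s k19 k35 3 (.s k103
  k71 3 (.d k155 k223 k207 9 13)))))), (.s k87 k171 13 (.s k86 k84 0 (.s k70 k118 3 (.s k169 k252 14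
  (.s k35 k236 10 (.s k51 k19 3 (.d k204 k137 k153 10 14))))))), (.s k68 k119 4 (.s k204 k136 9 (.s
  k70 k137 10 (.s k86 k118 3 (.s k153 k51 14 (.s k220 k19 10 (.d k252 k236 k169 3 14)))))))] (.c k70
  (.l (.s k87 k171 13 (.s k86 k84 0 (.s k119 k68 4 (.s k51 k187 9 (.s k19 k35 3 (.d k153 k220 k204
  10 14))))))) (.c k169 (.l (.s k68 k119 4 (.s k204 k136 9 (.s k70 k137 10 (.s k86 k118 3 (.d k87
  k84 k171 0 13)))))) .n))) (.c k238 (.l (.s k119 k68 4 (.s k51 k187 9 (.s k17 k34 4 (.d k153 k221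
  k204 9 14))))) .n))))))))))))

def t1_95 : T TT 256 :=
  (.f k255 k170 14 (.q k102 [(.s k68 k119 4 (.s k204 k136 9 (.s k153 k51 14 (.d k221 k238 k17 4
  9))))] (.c k17 (.f k119 k68 4 (.f k51 k187 9 (.f k153 k204 14 (.q k49 [(.s k48 k50 0 (.s k101 k205
  13 (.d k117 k69 k186 3 10))), (.s k48 k50 0 (.s k117 k186 10 (.s k118 k116 0 (.d k185 k253 k252 9
  10)))), (.s k101 k205 13 (.s k69 k117 3 (.s k207 k138 10 (.d k103 k100 k155 0 13)))), (.s k48 k50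
  0 (.s k16 k32 3 (.s k154 k223 10 (.d k101 k205 k207 13 14))))] .n)))) (.c k51 (.q k4 [(.s k12 k8 1
  (.s k93 k174 12 (.s k166 k247 12 (.d k89 k81 k243 1 14)))), (.s k68 k119 4 (.s k166 k247 12 (.s
  k38 k230 7 (.s k55 k21 4 (.d k196 k132 k149 7 12))))), (.s k12 k8 1 (.s k68 k119 4 (.s k132 k196 7
  (.s k72 k192 9 (.s k76 k64 1 (.d k204 k140 k136 7 9))))))] .n) (.c k68 (.q k4 [(.s k166 k247 12
  (.s k12 k8 1 (.s k89 k243 14 (.d k93 k81 k174 1 12)))), (.s k166 k247 12 (.s k38 k230 7 (.s k21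
  k55 4 (.s k63 k42 6 (.s k127 k191 7 (.s k106 k64 6 (.d k149 k213 k192 7 14)))))))] (.c k166 (.f
  k12 k8 1 (.q k89 [(.d k93 k174 k81 12 1), (.s k76 k115 6 (.s k204 k140 7 (.s k153 k51 14 (.d k221
  k238 k17 4 9))))] (.c k162 (.l (.s k174 k93 12 (.s k76 k115 6 (.s k204 k140 7 (.s k153 k51 14 (.d
  k221 k238 k17 4 9)))))) (.c k174 (.q k162 [(.d k81 k93 k243 1 12), (.s k76 k115 6 (.s k204 k140 7
  (.s k221 k238 4 (.d k153 k17 k51 9 14))))] .n) .n)))) (.c k247 (.l (.s k12 k8 1 (.s k93 k174 12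
  (.s k89 k81 1 (.s k76 k115 6 (.s k204 k140 7 (.s k153 k51 14 (.d k221 k238 k17 4 9)))))))) .n)))
  (.c k119 (.q k247 [(.s k166 k4 12 (.s k243 k251 1 (.s k81 k162 12 (.d k89 k93 k12 1 14)))), (.s
  k166 k4 12 (.s k230 k38 7 (.s k213 k196 4 (.s k192 k234 6 (.s k64 k128 7 (.s k106 k127 6 (.d k149
  k21 k63 7 14)))))))] (.c k4 (.l (.s k243 k251 1 (.s k81 k162 12 (.s k89 k93 1 (.s k115 k76 6 (.s
  k51 k179 7 (.s k17 k34 4 (.d k153 k221 k204 9 14)))))))) (.c k166 (.f k243 k251 1 (.q k89 [(.d k81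
  k162 k93 12 1), (.s k115 k76 6 (.s k51 k179 7 (.s k17 k34 4 (.d k153 k221 k204 9 14))))] (.c k162
  (.q k174 [(.d k93 k81 k12 1 12), (.s k115 k76 6 (.s k51 k179 7 (.s k17 k34 4 (.d k153 k221 k204 9
  14))))] .n) (.c k174 (.l (.s k162 k81 12 (.s k115 k76 6 (.s k51 k179 7 (.s k17 k34 4 (.d k153 k221
  k204 9 14)))))) .n)))) .n))) (.c k136 (.l (.s k119 k68 4 (.s k51 k187 9 (.s k153 k204 14 (.d k17
  k34 k221 4 9))))) (.c k153 (.f k68 k119 4 (.q k4 [(.s k166 k247 12 (.s k12 k8 1 (.s k89 k243 14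
  (.d k93 k81 k174 1 12)))), (.s k166 k247 12 (.s k38 k230 7 (.s k55 k21 4 (.d k196 k132 k149 7
  12)))), (.s k12 k8 1 (.s k132 k196 7 (.s k72 k192 9 (.s k76 k64 1 (.d k204 k136 k140 9 7)))))] (.c
  k136 (.q k187 [(.s k166 k247 12 (.s k38 k230 7 (.s k55 k21 4 (.d k196 k132 k149 7 12)))), (.s k12
  k8 1 (.s k93 k174 12 (.s k89 k81 1 (.s k76 k115 6 (.s k127 k110 4 (.d k64 k72 k106 1 6))))))] (.c
  k166 (.l (.s k12 k8 1 (.s k132 k196 7 (.s k72 k192 9 (.s k76 k64 1 (.s k89 k115 6 (.d k93 k81 k174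
  1 12))))))) .n)) (.c k187 (.l (.s k136 k204 9 (.s k12 k8 1 (.s k93 k174 12 (.s k89 k81 1 (.d k166
  k247 k243 12 14)))))) .n)))) (.c k187 (.l (.s k68 k119 4 (.s k204 k136 9 (.s k153 k51 14 (.d k221
  k238 k17 4 9))))) (.c k204 (.q k4 [(.s k12 k8 1 (.s k93 k174 12 (.s k166 k247 12 (.d k89 k81 k243
  1 14)))), (.s k68 k119 4 (.s k166 k247 12 (.s k38 k230 7 (.s k55 k21 4 (.d k196 k132 k149 7
  12))))), (.s k12 k8 1 (.s k119 k68 4 (.s k51 k187 9 (.s k34 k17 4 (.s k38 k25 6 (.s k21 k55 4 (.d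
  k42 k46 k63 1 6)))))))] .n) (.c k221 (.q k3 [(.s k68 k119 4 (.s k87 k171 13 (.s k86 k84 0 (.s k70
  k118 3 (.d k204 k136 k137 9 10))))), (.s k87 k171 13 (.s k119 k68 4 (.s k51 k187 9 (.s k19 k35 3
  (.s k103 k71 3 (.d k155 k223 k207 9 13)))))), (.s k87 k171 13 (.s k86 k84 0 (.s k70 k118 3 (.s
  k169 k252 14 (.s k35 k236 10 (.s k51 k19 3 (.d k204 k137 k153 10 14))))))), (.s k68 k119 4 (.s
  k204 k136 9 (.s k70 k137 10 (.s k86 k118 3 (.s k153 k51 14 (.s k220 k19 10 (.d k252 k236 k169 3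
  14)))))))] (.c k70 (.l (.s k87 k171 13 (.s k86 k84 0 (.s k119 k68 4 (.s k51 k187 9 (.s k19 k35 3
  (.d k153 k220 k204 10 14))))))) (.c k169 (.l (.s k68 k119 4 (.s k204 k136 9 (.s k70 k137 10 (.s
  k86 k118 3 (.d k87 k84 k171 0 13)))))) .n))) (.c k238 (.l (.s k119 k68 4 (.s k51 k187 9 (.s k17
  k34 4 (.d k153 k221 k204 9 14))))) .n))))))))))))

def t1_104 : T TT 256 :=
  (.f k255 k170 14 (.q k102 [(.s k68 k119 4 (.s k204 k136 9 (.s k153 k51 14 (.d k221 k238 k17 4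
  9))))] (.c k17 (.f k119 k68 4 (.f k51 k187 9 (.f k153 k204 14 (.q k49 [(.s k48 k50 0 (.s k101 k205
  13 (.d k117 k69 k186 3 10))), (.s k48 k50 0 (.s k117 k186 10 (.s k118 k116 0 (.d k185 k253 k252 9
  10)))), (.s k101 k205 13 (.s k69 k117 3 (.s k207 k138 10 (.d k103 k100 k155 0 13)))), (.s k48 k50
  0 (.s k16 k32 3 (.s k154 k223 10 (.d k101 k205 k207 13 14))))] .n)))) (.c k51 (.q k4 [(.s k12 k8 1
  (.s k93 k174 12 (.s k166 k247 12 (.d k89 k81 k243 1 14)))), (.s k68 k119 4 (.s k166 k247 12 (.s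
  k38 k230 7 (.s k55 k21 4 (.d k196 k132 k149 7 12))))), (.s k12 k8 1 (.s k68 k119 4 (.s k132 k196 7
  (.s k72 k192 9 (.s k76 k64 1 (.d k204 k140 k136 7 9))))))] .n) (.c k68 (.q k4 [(.s k166 k247 12
  (.s k12 k8 1 (.s k89 k243 14 (.d k93 k81 k174 1 12)))), (.s k166 k247 12 (.s k38 k230 7 (.s k21
  k55 4 (.s k63 k42 6 (.s k127 k191 7 (.s k106 k64 6 (.d k149 k213 k192 7 14)))))))] (.c k166 (.f
  k12 k8 1 (.q k89 [(.d k93 k174 k81 12 1), (.s k76 k115 6 (.s k204 k140 7 (.s k153 k51 14 (.d k221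
  k238 k17 4 9))))] (.c k162 (.l (.s k174 k93 12 (.s k76 k115 6 (.s k204 k140 7 (.s k153 k51 14 (.d
  k221 k238 k17 4 9)))))) (.c k174 (.q k162 [(.d k81 k93 k243 1 12), (.s k76 k115 6 (.s k204 k140 7
  (.s k221 k238 4 (.d k153 k17 k51 9 14))))] .n) .n)))) (.c k247 (.l (.s k12 k8 1 (.s k93 k174 12
  (.s k89 k81 1 (.s k76 k115 6 (.s k204 k140 7 (.s k153 k51 14 (.d k221 k238 k17 4 9)))))))) .n)))
  (.c k119 (.q k247 [(.s k166 k4 12 (.s k243 k251 1 (.s k81 k162 12 (.d k89 k93 k12 1 14)))), (.s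
  k166 k4 12 (.s k230 k38 7 (.s k213 k196 4 (.s k192 k234 6 (.s k64 k128 7 (.s k106 k127 6 (.d k149
  k21 k63 7 14)))))))] (.c k4 (.l (.s k243 k251 1 (.s k81 k162 12 (.s k89 k93 1 (.s k115 k76 6 (.s
  k51 k179 7 (.s k17 k34 4 (.d k153 k221 k204 9 14)))))))) (.c k166 (.f k243 k251 1 (.q k89 [(.d k81
  k162 k93 12 1), (.s k115 k76 6 (.s k51 k179 7 (.s k17 k34 4 (.d k153 k221 k204 9 14))))] (.c k162
  (.q k174 [(.d k93 k81 k12 1 12), (.s k115 k76 6 (.s k51 k179 7 (.s k17 k34 4 (.d k153 k221 k204 9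
  14))))] .n) (.c k174 (.l (.s k162 k81 12 (.s k115 k76 6 (.s k51 k179 7 (.s k17 k34 4 (.d k153 k221
  k204 9 14)))))) .n)))) .n))) (.c k136 (.l (.s k119 k68 4 (.s k51 k187 9 (.s k153 k204 14 (.d k17
  k34 k221 4 9))))) (.c k153 (.f k68 k119 4 (.q k4 [(.s k166 k247 12 (.s k12 k8 1 (.s k89 k243 14
  (.d k93 k81 k174 1 12)))), (.s k166 k247 12 (.s k38 k230 7 (.s k55 k21 4 (.d k196 k132 k149 7
  12)))), (.s k12 k8 1 (.s k132 k196 7 (.s k72 k192 9 (.s k76 k64 1 (.d k204 k136 k140 9 7)))))] (.c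
  k136 (.q k187 [(.s k166 k247 12 (.s k38 k230 7 (.s k55 k21 4 (.d k196 k132 k149 7 12)))), (.s k12
  k8 1 (.s k93 k174 12 (.s k89 k81 1 (.s k76 k115 6 (.s k127 k110 4 (.d k64 k72 k106 1 6))))))] (.c
  k166 (.l (.s k12 k8 1 (.s k132 k196 7 (.s k72 k192 9 (.s k76 k64 1 (.s k89 k115 6 (.d k93 k81 k174
  1 12))))))) .n)) (.c k187 (.l (.s k136 k204 9 (.s k12 k8 1 (.s k93 k174 12 (.s k89 k81 1 (.d k166
  k247 k243 12 14)))))) .n)))) (.c k187 (.l (.s k68 k119 4 (.s k204 k136 9 (.s k153 k51 14 (.d k221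
  k238 k17 4 9))))) (.c k204 (.q k4 [(.s k12 k8 1 (.s k93 k174 12 (.s k166 k247 12 (.d k89 k81 k243
  1 14)))), (.s k68 k119 4 (.s k166 k247 12 (.s k38 k230 7 (.s k55 k21 4 (.d k196 k132 k149 7
  12))))), (.s k12 k8 1 (.s k119 k68 4 (.s k51 k187 9 (.s k34 k17 4 (.s k38 k25 6 (.s k21 k55 4 (.d
  k42 k46 k63 1 6)))))))] .n) (.c k221 (.q k3 [(.s k68 k119 4 (.s k87 k171 13 (.s k86 k84 0 (.s k70
  k118 3 (.d k204 k136 k137 9 10))))), (.s k87 k171 13 (.s k119 k68 4 (.s k51 k187 9 (.s k19 k35 3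
  (.s k103 k71 3 (.d k155 k223 k207 9 13)))))), (.s k87 k171 13 (.s k86 k84 0 (.s k70 k118 3 (.s
  k169 k252 14 (.s k35 k236 10 (.s k51 k19 3 (.d k204 k137 k153 10 14))))))), (.s k68 k119 4 (.s
  k204 k136 9 (.s k70 k137 10 (.s k86 k118 3 (.s k153 k51 14 (.s k220 k19 10 (.d k252 k236 k169 3
  14)))))))] (.c k70 (.l (.s k87 k171 13 (.s k86 k84 0 (.s k119 k68 4 (.s k51 k187 9 (.s k19 k35 3
  (.d k153 k220 k204 10 14))))))) (.c k169 (.l (.s k68 k119 4 (.s k204 k136 9 (.s k70 k137 10 (.s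
  k86 k118 3 (.d k87 k84 k171 0 13)))))) .n))) (.c k238 (.l (.s k119 k68 4 (.s k51 k187 9 (.s k17
  k34 4 (.d k153 k221 k204 9 14))))) .n))))))))))))

def t1_105 : T TT 256 :=
  (.f k170 k255 14 (.q k12 [(.s k4 k8 1 (.s k166 k247 12 (.s k162 k174 1 (.d k243 k81 k89 12 14))))]
  (.c k4 (.q k64 [(.s k106 k127 6 (.s k42 k234 7 (.s k192 k128 7 (.d k63 k21 k149 6 14)))), (.s k192
  k128 7 (.s k72 k132 9 (.s k68 k76 1 (.s k102 k119 4 (.s k34 k238 9 (.s k51 k17 4 (.d k204 k136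
  k153 9 14)))))))] (.c k128 (.l (.s k106 k127 6 (.s k42 k234 7 (.s k63 k21 6 (.s k46 k29 4 (.s k166
  k226 9 (.s k162 k174 1 (.d k243 k81 k89 12 14)))))))) (.c k192 (.f k106 k127 6 (.q k63 [(.d k42
  k234 k21 7 6), (.s k46 k29 4 (.s k166 k226 9 (.s k162 k174 1 (.d k243 k81 k89 12 14))))] (.c k213
  (.l (.s k234 k42 7 (.s k46 k29 4 (.s k166 k226 9 (.s k162 k174 1 (.d k243 k81 k89 12 14)))))) (.c
  k234 (.q k213 [(.d k21 k42 k149 6 7), (.s k46 k29 4 (.s k166 k226 9 (.s k162 k174 1 (.d k243 k81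
  k89 12 14))))] .n) .n)))) .n))) (.c k8 (.q k128 [(.s k149 k191 6 (.s k21 k213 7 (.s k192 k64 7 (.d
  k63 k42 k106 6 14)))), (.s k192 k64 7 (.s k132 k72 9 (.s k136 k140 1 (.s k153 k187 4 (.s k17 k221
  9 (.s k51 k34 4 (.d k204 k68 k102 9 14)))))))] (.c k64 (.l (.s k149 k191 6 (.s k21 k213 7 (.s k63
  k42 6 (.s k29 k46 4 (.s k89 k209 9 (.s k81 k93 1 (.d k243 k162 k166 12 14)))))))) (.c k192 (.f
  k149 k191 6 (.q k63 [(.d k21 k213 k42 7 6), (.s k29 k46 4 (.s k89 k209 9 (.s k81 k93 1 (.d k243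
  k162 k166 12 14))))] (.c k213 (.q k234 [(.d k42 k21 k106 6 7), (.s k29 k46 4 (.s k89 k209 9 (.s
  k81 k93 1 (.d k243 k162 k166 12 14))))] .n) (.c k234 (.l (.s k213 k21 7 (.s k29 k46 4 (.s k89 k209
  9 (.s k81 k93 1 (.d k243 k162 k166 12 14)))))) .n)))) .n))) (.c k81 (.f k4 k8 1 (.q k130 [(.s k150
  k190 5 (.s k166 k247 12 (.s k134 k182 3 (.d k195 k65 k73 8 10)))), (.s k195 k65 8 (.s k134 k73 10
  (.s k69 k199 8 (.d k138 k142 k207 1 10)))), (.s k150 k190 5 (.s k166 k247 12 (.s k134 k182 3 (.s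
  k69 k199 8 (.d k138 k142 k207 1 10)))))] (.c k134 (.l (.s k150 k190 5 (.s k20 k215 8 (.s k36 k52 3
  (.s k24 k48 5 (.s k28 k16 1 (.d k60 k44 k40 3 5))))))) (.c k161 (.q k241 [(.s k150 k190 5 (.s k166
  k247 12 (.s k134 k182 3 (.d k195 k65 k73 8 10)))), (.s k195 k65 8 (.s k134 k73 10 (.s k69 k199 8
  (.d k138 k142 k207 1 10)))), (.s k150 k190 5 (.s k166 k247 12 (.s k134 k182 3 (.s k69 k199 8 (.d
  k138 k142 k207 1 10)))))] (.c k134 (.l (.s k150 k190 5 (.s k20 k215 8 (.s k36 k52 3 (.s k24 k48 5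
  (.s k28 k16 1 (.d k60 k44 k40 3 5))))))) .n)) (.c k241 (.q k161 [(.s k150 k190 5 (.s k166 k247 12
  (.s k134 k182 3 (.d k195 k65 k73 8 10)))), (.s k195 k65 8 (.s k134 k73 10 (.s k69 k199 8 (.d k138
  k142 k207 1 10)))), (.s k150 k190 5 (.s k166 k247 12 (.s k134 k182 3 (.s k69 k199 8 (.d k138 k142
  k207 1 10)))))] (.c k134 (.l (.s k150 k190 5 (.s k20 k215 8 (.s k36 k52 3 (.s k24 k48 5 (.s k28
  k16 1 (.d k60 k44 k40 3 5))))))) .n)) .n))))) (.c k89 (.q k73 [(.s k8 k4 1 (.s k138 k203 8 (.s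
  k154 k186 3 (.s k16 k223 10 (.s k48 k32 3 (.d k207 k69 k101 10 14)))))), (.s k4 k8 1 (.s k134 k195
  10 (.s k166 k247 12 (.s k150 k182 3 (.s k199 k69 8 (.s k52 k101 12 (.d k20 k215 k36 8 3))))))),
  (.s k4 k8 1 (.s k134 k195 10 (.s k69 k199 8 (.s k77 k65 1 (.d k207 k142 k138 8 10))))), (.s k195
  k134 10 (.s k65 k130 8 (.s k69 k77 1 (.s k101 k117 3 (.s k32 k239 10 (.s k48 k16 3 (.d k207 k138
  k154 10 14)))))))] (.c k69 (.f k4 k8 1 (.l (.s k134 k195 10 (.s k166 k247 12 (.s k150 k182 3 (.s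
  k130 k190 5 (.s k142 k138 1 (.s k162 k174 1 (.d k178 k146 k154 3 5))))))))) .n)) (.c k162 (.q k5
  [(.s k15 k10 2 (.s k165 k245 11 (.s k160 k175 2 (.d k240 k80 k90 11 14)))), (.s k4 k8 1 (.s k6 k7
  0 (.s k10 k15 2 (.s k2 k14 1 (.s k86 k254 13 (.d k166 k246 k247 11 12)))))), (.s k4 k8 1 (.s k7 k6
  0 (.s k165 k245 11 (.s k86 k244 12 (.s k87 k84 0 (.d k247 k167 k166 11 12))))))] .n) (.c k166 (.f
  k4 k8 1 (.q k68 [(.s k132 k196 7 (.s k72 k192 9 (.s k76 k64 1 (.d k204 k140 k136 7 9)))), (.s k102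
  k119 4 (.s k34 k238 9 (.s k51 k17 4 (.s k38 k25 6 (.s k21 k55 4 (.d k42 k46 k63 1 6))))))] (.c k44
  (.q k227 [(.s k132 k196 7 (.s k72 k192 9 (.s k76 k64 1 (.d k204 k140 k136 7 9)))), (.s k102 k119 4
  (.s k34 k238 9 (.s k51 k17 4 (.s k38 k25 6 (.s k21 k55 4 (.d k42 k46 k63 1 6))))))] (.c k204 (.l
  (.s k132 k196 7 (.s k192 k72 9 (.s k64 k128 7 (.s k106 k127 6 (.s k42 k234 7 (.d k63 k21 k149 6
  14))))))) .n)) (.c k204 (.l (.s k132 k196 7 (.s k192 k72 9 (.s k64 k128 7 (.s k106 k127 6 (.s k42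
  k234 7 (.d k63 k21 k149 6 14))))))) (.c k227 (.q k44 [(.s k132 k196 7 (.s k72 k192 9 (.s k76 k64 1
  (.d k204 k140 k136 7 9)))), (.s k102 k119 4 (.s k34 k238 9 (.s k51 k17 4 (.s k38 k25 6 (.s k21 k55
  4 (.d k42 k46 k63 1 6))))))] (.c k204 (.l (.s k132 k196 7 (.s k192 k72 9 (.s k64 k128 7 (.s k106
  k127 6 (.s k42 k234 7 (.d k63 k21 k149 6 14))))))) .n)) .n))))) (.c k174 (.l (.s k8 k4 1 (.s k89
  k251 12 (.s k81 k93 1 (.d k243 k162 k166 12 14))))) (.c k243 (.f k4 k8 1 (.q k192 [(.s k64 k128 7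
  (.s k106 k127 6 (.s k42 k234 7 (.d k63 k21 k149 6 14)))), (.s k132 k72 9 (.s k68 k196 7 (.s k102
  k119 4 (.s k34 k238 9 (.s k51 k17 4 (.d k204 k136 k153 9 14))))))] (.c k247 (.q k251 [(.s k64 k128
  7 (.s k106 k127 6 (.s k42 k234 7 (.d k63 k21 k149 6 14)))), (.s k132 k72 9 (.s k68 k196 7 (.s k102
  k119 4 (.s k34 k238 9 (.s k51 k17 4 (.d k204 k136 k153 9 14))))))] .n) (.c k251 (.l (.s k247 k166
  12 (.s k64 k128 7 (.s k106 k127 6 (.s k42 k234 7 (.d k63 k21 k149 6 14)))))) .n)))) (.c k247 (.l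
  (.s k8 k4 1 (.s k89 k251 12 (.s k243 k166 14 (.d k81 k93 k162 1 12))))) (.c k251 (.l (.s k4 k8 1
  (.s k166 k247 12 (.s k243 k89 14 (.d k162 k174 k81 1 12))))) .n))))))))))))

def t1_106 : T TT 256 :=
  (.f k170 k255 14 (.q k12 [(.s k4 k8 1 (.s k166 k247 12 (.s k162 k174 1 (.d k243 k81 k89 12 14))))]
  (.c k4 (.q k65 [(.s k105 k125 5 (.s k40 k235 8 (.s k195 k130 8 (.d k60 k20 k150 5 14)))), (.s k195
  k130 8 (.s k73 k134 10 (.s k69 k77 1 (.s k101 k117 3 (.s k32 k239 10 (.s k48 k16 3 (.d k207 k138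
  k154 10 14)))))))] (.c k130 (.l (.s k105 k125 5 (.s k40 k235 8 (.s k60 k20 5 (.s k44 k28 3 (.s
  k166 k227 10 (.s k162 k174 1 (.d k243 k81 k89 12 14)))))))) (.c k195 (.f k105 k125 5 (.q k60 [(.d
  k40 k235 k20 8 5), (.s k44 k28 3 (.s k166 k227 10 (.s k162 k174 1 (.d k243 k81 k89 12 14))))] (.c
  k215 (.l (.s k235 k40 8 (.s k44 k28 3 (.s k166 k227 10 (.s k162 k174 1 (.d k243 k81 k89 12
  14)))))) (.c k235 (.q k215 [(.d k20 k40 k150 5 8), (.s k44 k28 3 (.s k166 k227 10 (.s k162 k174 1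
  (.d k243 k81 k89 12 14))))] .n) .n)))) .n))) (.c k8 (.q k16 [(.s k48 k32 3 (.s k154 k223 10 (.s
  k138 k186 3 (.d k207 k69 k101 10 14)))), (.s k48 k32 3 (.s k24 k36 5 (.s k20 k28 1 (.s k150 k215 8
  (.s k130 k190 5 (.s k195 k65 8 (.d k60 k40 k105 5 14)))))))] (.c k32 (.l (.s k154 k223 10 (.s k138
  k186 3 (.s k207 k69 10 (.s k142 k77 8 (.s k166 k178 5 (.s k162 k174 1 (.d k243 k81 k89 12
  14)))))))) (.c k48 (.f k154 k223 10 (.q k207 [(.d k138 k186 k69 3 10), (.s k142 k77 8 (.s k166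
  k178 5 (.s k162 k174 1 (.d k243 k81 k89 12 14))))] (.c k117 (.l (.s k186 k138 3 (.s k142 k77 8 (.s
  k166 k178 5 (.s k162 k174 1 (.d k243 k81 k89 12 14)))))) (.c k186 (.q k117 [(.d k69 k101 k138 3
  10), (.s k142 k77 8 (.s k166 k178 5 (.s k162 k174 1 (.d k243 k81 k89 12 14))))] .n) .n)))) .n)))
  (.c k81 (.f k4 k8 1 (.q k130 [(.s k150 k190 5 (.s k20 k215 8 (.s k60 k40 5 (.d k195 k65 k105 8
  14)))), (.s k195 k65 8 (.s k134 k73 10 (.s k69 k199 8 (.d k138 k142 k207 1 10)))), (.s k150 k190 5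
  (.s k166 k247 12 (.s k134 k182 3 (.s k69 k199 8 (.d k138 k142 k207 1 10)))))] (.c k161 (.q k241
  [(.s k150 k190 5 (.s k20 k215 8 (.s k60 k40 5 (.d k195 k65 k105 8 14)))), (.s k195 k65 8 (.s k134
  k73 10 (.s k69 k199 8 (.d k138 k142 k207 1 10)))), (.s k150 k190 5 (.s k166 k247 12 (.s k134 k182
  3 (.s k69 k199 8 (.d k138 k142 k207 1 10)))))] .n) (.c k241 (.q k161 [(.s k150 k190 5 (.s k20 k215
  8 (.s k60 k40 5 (.d k195 k65 k105 8 14)))), (.s k195 k65 8 (.s k134 k73 10 (.s k69 k199 8 (.d k138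
  k142 k207 1 10)))), (.s k150 k190 5 (.s k166 k247 12 (.s k134 k182 3 (.s k69 k199 8 (.d k138 k142
  k207 1 10)))))] .n) .n)))) (.c k89 (.q k72 [(.s k4 k8 1 (.s k132 k192 9 (.s k68 k196 7 (.s k76 k64
  1 (.d k204 k140 k136 7 9))))), (.s k8 k4 1 (.s k136 k200 7 (.s k153 k187 4 (.s k17 k221 9 (.s k51
  k34 4 (.d k204 k68 k102 9 14)))))), (.s k192 k132 9 (.s k64 k128 7 (.s k68 k76 1 (.s k102 k119 4
  (.s k34 k238 9 (.s k51 k17 4 (.d k204 k136 k153 9 14))))))), (.s k4 k8 1 (.s k132 k192 9 (.s k166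
  k247 12 (.s k149 k183 4 (.s k196 k68 7 (.s k55 k102 12 (.d k21 k213 k38 7 4)))))))] (.c k68 (.f k4
  k8 1 (.l (.s k132 k192 9 (.s k166 k247 12 (.s k149 k183 4 (.s k128 k191 6 (.s k140 k136 1 (.s k162
  k174 1 (.d k179 k145 k153 4 6))))))))) .n)) (.c k162 (.q k5 [(.s k15 k10 2 (.s k165 k245 11 (.s
  k160 k175 2 (.d k240 k80 k90 11 14)))), (.s k4 k8 1 (.s k6 k7 0 (.s k10 k15 2 (.s k2 k14 1 (.s k86
  k254 13 (.d k166 k246 k247 11 12)))))), (.s k4 k8 1 (.s k7 k6 0 (.s k165 k245 11 (.s k86 k244 12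
  (.s k87 k84 0 (.d k247 k167 k166 11 12))))))] .n) (.c k166 (.f k4 k8 1 (.q k134 [(.s k69 k199 8
  (.s k73 k195 10 (.s k207 k138 10 (.d k77 k65 k142 1 8)))), (.s k69 k199 8 (.s k101 k117 3 (.s k32
  k239 10 (.s k48 k16 3 (.d k207 k138 k154 10 14))))), (.s k195 k73 10 (.s k65 k130 8 (.s k105 k125
  5 (.s k40 k235 8 (.d k60 k20 k150 5 14)))))] (.c k46 (.q k226 [(.s k69 k199 8 (.s k73 k195 10 (.s
  k207 k138 10 (.d k77 k65 k142 1 8)))), (.s k69 k199 8 (.s k101 k117 3 (.s k32 k239 10 (.s k48 k16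
  3 (.d k207 k138 k154 10 14))))), (.s k195 k73 10 (.s k65 k130 8 (.s k105 k125 5 (.s k40 k235 8 (.d
  k60 k20 k150 5 14)))))] (.c k138 (.l (.s k69 k199 8 (.s k73 k195 10 (.s k77 k65 1 (.s k101 k117 3
  (.s k32 k239 10 (.s k48 k16 3 (.d k207 k142 k154 8 14)))))))) .n)) (.c k138 (.l (.s k69 k199 8 (.s
  k73 k195 10 (.s k77 k65 1 (.s k101 k117 3 (.s k32 k239 10 (.s k48 k16 3 (.d k207 k142 k154 8
  14)))))))) (.c k226 (.q k46 [(.s k69 k199 8 (.s k73 k195 10 (.s k207 k138 10 (.d k77 k65 k142 1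
  8)))), (.s k69 k199 8 (.s k101 k117 3 (.s k32 k239 10 (.s k48 k16 3 (.d k207 k138 k154 10 14))))),
  (.s k195 k73 10 (.s k65 k130 8 (.s k105 k125 5 (.s k40 k235 8 (.d k60 k20 k150 5 14)))))] (.c k138
  (.l (.s k63 k29 4 (.s k21 k42 6 (.s k55 k38 4 (.s k199 k69 8 (.s k151 k103 11 (.d k195 k73 k107 10
  13))))))) .n)) .n))))) (.c k174 (.l (.s k8 k4 1 (.s k89 k251 12 (.s k81 k93 1 (.d k243 k162 k166
  12 14))))) (.c k243 (.f k4 k8 1 (.q k192 [(.s k128 k64 7 (.s k132 k72 9 (.s k68 k196 7 (.d k136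
  k140 k204 1 9)))), (.s k128 k64 7 (.s k149 k191 6 (.s k21 k213 7 (.s k38 k55 4 (.s k25 k51 6 (.s
  k29 k17 1 (.d k63 k46 k42 4 6))))))), (.s k132 k72 9 (.s k68 k196 7 (.s k102 k119 4 (.s k34 k238 9
  (.s k51 k17 4 (.d k204 k136 k153 9 14))))))] (.c k247 (.q k251 [(.s k128 k64 7 (.s k132 k72 9 (.s
  k136 k140 1 (.d k68 k196 k204 7 9)))), (.s k128 k64 7 (.s k149 k191 6 (.s k21 k213 7 (.s k38 k55 4
  (.s k25 k51 6 (.s k29 k17 1 (.d k63 k46 k42 4 6))))))), (.s k132 k72 9 (.s k68 k196 7 (.s k102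
  k119 4 (.s k34 k238 9 (.s k51 k17 4 (.d k204 k136 k153 9 14))))))] (.c k196 (.l (.s k64 k128 7 (.s
  k72 k132 9 (.s k68 k76 1 (.s k102 k119 4 (.s k34 k238 9 (.s k51 k17 4 (.d k204 k136 k153 9
  14)))))))) .n)) (.c k251 (.l (.s k247 k166 12 (.s k128 k64 7 (.s k132 k72 9 (.s k68 k196 7 (.d
  k136 k140 k204 1 9)))))) .n)))) (.c k247 (.l (.s k8 k4 1 (.s k89 k251 12 (.s k243 k166 14 (.d k81
  k93 k162 1 12))))) (.c k251 (.l (.s k4 k8 1 (.s k166 k247 12 (.s k243 k89 14 (.d k162 k174 k81 1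
  12))))) .n))))))))))))

def t1_107 : T TT 256 :=
  (.f k255 k170 14 (.q k102 [(.s k68 k119 4 (.s k204 k136 9 (.s k153 k51 14 (.d k221 k238 k17 4
  9))))] (.c k17 (.f k119 k68 4 (.f k51 k187 9 (.f k153 k204 14 (.q k49 [(.s k48 k50 0 (.s k101 k205
  13 (.d k117 k69 k186 3 10))), (.s k48 k50 0 (.s k117 k186 10 (.s k118 k116 0 (.d k185 k253 k252 9
  10)))), (.s k101 k205 13 (.s k69 k117 3 (.s k207 k138 10 (.d k103 k100 k155 0 13)))), (.s k48 k50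
  0 (.s k16 k32 3 (.s k154 k223 10 (.d k101 k205 k207 13 14))))] .n)))) (.c k51 (.q k4 [(.s k12 k8 1
  (.s k93 k174 12 (.s k166 k247 12 (.d k89 k81 k243 1 14)))), (.s k68 k119 4 (.s k166 k247 12 (.s
  k38 k230 7 (.s k55 k21 4 (.d k196 k132 k149 7 12))))), (.s k12 k8 1 (.s k68 k119 4 (.s k132 k196 7
  (.s k72 k192 9 (.s k76 k64 1 (.d k204 k140 k136 7 9))))))] .n) (.c k68 (.q k4 [(.s k166 k247 12
  (.s k12 k8 1 (.s k89 k243 14 (.d k93 k81 k174 1 12)))), (.s k166 k247 12 (.s k38 k230 7 (.s k21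
  k55 4 (.s k63 k42 6 (.s k127 k191 7 (.s k106 k64 6 (.d k149 k213 k192 7 14)))))))] (.c k166 (.f
  k12 k8 1 (.q k89 [(.d k93 k174 k81 12 1), (.s k76 k115 6 (.s k204 k140 7 (.s k153 k51 14 (.d k221
  k238 k17 4 9))))] (.c k162 (.l (.s k174 k93 12 (.s k76 k115 6 (.s k204 k140 7 (.s k153 k51 14 (.d
  k221 k238 k17 4 9)))))) (.c k174 (.q k162 [(.d k81 k93 k243 1 12), (.s k76 k115 6 (.s k204 k140 7
  (.s k221 k238 4 (.d k153 k17 k51 9 14))))] .n) .n)))) (.c k247 (.l (.s k12 k8 1 (.s k93 k174 12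
  (.s k89 k81 1 (.s k76 k115 6 (.s k204 k140 7 (.s k153 k51 14 (.d k221 k238 k17 4 9)))))))) .n)))
  (.c k119 (.q k247 [(.s k166 k4 12 (.s k243 k251 1 (.s k81 k162 12 (.d k89 k93 k12 1 14)))), (.s
  k166 k4 12 (.s k230 k38 7 (.s k213 k196 4 (.s k192 k234 6 (.s k64 k128 7 (.s k106 k127 6 (.d k149
  k21 k63 7 14)))))))] (.c k4 (.l (.s k243 k251 1 (.s k81 k162 12 (.s k89 k93 1 (.s k115 k76 6 (.s
  k51 k179 7 (.s k17 k34 4 (.d k153 k221 k204 9 14)))))))) (.c k166 (.f k243 k251 1 (.q k89 [(.d k81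
  k162 k93 12 1), (.s k115 k76 6 (.s k51 k179 7 (.s k17 k34 4 (.d k153 k221 k204 9 14))))] (.c k162
  (.q k174 [(.d k93 k81 k12 1 12), (.s k115 k76 6 (.s k51 k179 7 (.s k17 k34 4 (.d k153 k221 k204 9
  14))))] .n) (.c k174 (.l (.s k162 k81 12 (.s k115 k76 6 (.s k51 k179 7 (.s k17 k34 4 (.d k153 k221
  k204 9 14)))))) .n)))) .n))) (.c k136 (.l (.s k119 k68 4 (.s k51 k187 9 (.s k153 k204 14 (.d k17
  k34 k221 4 9))))) (.c k153 (.f k68 k119 4 (.q k4 [(.s k166 k247 12 (.s k12 k8 1 (.s k89 k243 14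
  (.d k93 k81 k174 1 12)))), (.s k166 k247 12 (.s k38 k230 7 (.s k55 k21 4 (.d k196 k132 k149 7
  12)))), (.s k12 k8 1 (.s k132 k196 7 (.s k72 k192 9 (.s k76 k64 1 (.d k204 k136 k140 9 7)))))] (.c
  k136 (.q k187 [(.s k166 k247 12 (.s k38 k230 7 (.s k55 k21 4 (.d k196 k132 k149 7 12)))), (.s k12
  k8 1 (.s k93 k174 12 (.s k89 k81 1 (.s k76 k115 6 (.s k127 k110 4 (.d k64 k72 k106 1 6))))))] (.c
  k166 (.l (.s k12 k8 1 (.s k132 k196 7 (.s k72 k192 9 (.s k76 k64 1 (.s k89 k115 6 (.d k93 k81 k174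
  1 12))))))) .n)) (.c k187 (.l (.s k136 k204 9 (.s k12 k8 1 (.s k93 k174 12 (.s k89 k81 1 (.d k166
  k247 k243 12 14)))))) .n)))) (.c k187 (.l (.s k68 k119 4 (.s k204 k136 9 (.s k153 k51 14 (.d k221
  k238 k17 4 9))))) (.c k204 (.q k4 [(.s k12 k8 1 (.s k93 k174 12 (.s k166 k247 12 (.d k89 k81 k243
  1 14)))), (.s k68 k119 4 (.s k166 k247 12 (.s k38 k230 7 (.s k55 k21 4 (.d k196 k132 k149 7
  12))))), (.s k12 k8 1 (.s k119 k68 4 (.s k51 k187 9 (.s k34 k17 4 (.s k38 k25 6 (.s k21 k55 4 (.d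
  k42 k46 k63 1 6)))))))] .n) (.c k221 (.q k3 [(.s k68 k119 4 (.s k87 k171 13 (.s k86 k84 0 (.s k70
  k118 3 (.d k204 k136 k137 9 10))))), (.s k87 k171 13 (.s k119 k68 4 (.s k51 k187 9 (.s k19 k35 3
  (.s k103 k71 3 (.d k155 k223 k207 9 13)))))), (.s k68 k119 4 (.s k204 k136 9 (.s k70 k137 10 (.s
  k86 k118 3 (.s k153 k51 14 (.s k220 k19 10 (.d k252 k236 k169 3 14))))))), (.s k87 k171 13 (.s k86
  k84 0 (.s k70 k118 3 (.s k169 k252 14 (.s k35 k236 10 (.s k51 k19 3 (.d k204 k137 k153 10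
  14)))))))] (.c k70 (.l (.s k87 k171 13 (.s k86 k84 0 (.s k119 k68 4 (.s k51 k187 9 (.s k19 k35 3
  (.d k153 k220 k204 10 14))))))) (.c k169 (.l (.s k68 k119 4 (.s k204 k136 9 (.s k70 k137 10 (.s
  k86 k118 3 (.d k87 k84 k171 0 13)))))) .n))) (.c k238 (.l (.s k119 k68 4 (.s k51 k187 9 (.s k17
  k34 4 (.d k153 k221 k204 9 14))))) .n))))))))))))

def t1_108 : T TT 256 :=
  (.f k255 k170 14 (.q k102 [(.s k68 k119 4 (.s k204 k136 9 (.s k153 k51 14 (.d k221 k238 k17 4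
  9))))] (.c k17 (.f k68 k119 4 (.q k105 [(.s k65 k125 5 (.s k195 k130 8 (.s k215 k235 5 (.d k150
  k20 k60 8 14)))), (.s k65 k125 5 (.s k204 k136 9 (.s k153 k51 14 (.s k201 k57 11 (.d k195 k198
  k130 2 8))))), (.s k204 k136 9 (.s k153 k51 14 (.s k201 k57 11 (.s k195 k198 2 (.s k215 k235 5 (.d
  k150 k60 k20 14 8))))))] (.c k33 (.q k49 [(.s k65 k125 5 (.s k195 k130 8 (.s k215 k235 5 (.d k150
  k20 k60 8 14)))), (.s k204 k136 9 (.s k153 k51 14 (.s k101 k205 13 (.s k100 k103 0 (.s k48 k152 13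
  (.d k117 k69 k186 3 10))))))] .n) (.c k49 (.q k33 [(.s k65 k125 5 (.s k195 k130 8 (.s k215 k235 5
  (.d k150 k20 k60 8 14)))), (.s k65 k125 5 (.s k204 k136 9 (.s k153 k51 14 (.s k201 k57 11 (.d k195
  k198 k130 2 8))))), (.s k204 k136 9 (.s k153 k51 14 (.s k201 k57 11 (.s k195 k198 2 (.s k215 k235
  5 (.d k150 k60 k20 14 8))))))] (.c k60 (.l (.s k65 k125 5 (.s k195 k130 8 (.s k204 k136 9 (.s k153
  k51 14 (.d k201 k57 k198 11 2)))))) (.c k195 (.l (.s k125 k65 5 (.s k60 k190 8 (.s k20 k40 5 (.s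
  k150 k215 8 (.s k54 k198 11 (.s k51 k57 2 (.d k204 k136 k153 9 14)))))))) .n))) (.c k60 (.l (.s
  k65 k125 5 (.s k195 k130 8 (.s k204 k136 9 (.s k153 k51 14 (.d k201 k57 k198 11 2)))))) (.c k195
  (.l (.s k125 k65 5 (.s k60 k190 8 (.s k20 k40 5 (.s k150 k215 8 (.s k54 k198 11 (.s k51 k57 2 (.d
  k204 k136 k153 9 14)))))))) .n)))))) (.c k51 (.q k4 [(.s k12 k8 1 (.s k93 k174 12 (.s k166 k247 12
  (.d k89 k81 k243 1 14)))), (.s k68 k119 4 (.s k166 k247 12 (.s k38 k230 7 (.s k55 k21 4 (.d k196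
  k132 k149 7 12))))), (.s k12 k8 1 (.s k68 k119 4 (.s k132 k196 7 (.s k72 k192 9 (.s k76 k64 1 (.d
  k204 k140 k136 7 9))))))] .n) (.c k68 (.q k4 [(.s k166 k247 12 (.s k12 k8 1 (.s k89 k243 14 (.d
  k93 k81 k174 1 12)))), (.s k166 k247 12 (.s k38 k230 7 (.s k21 k55 4 (.s k63 k42 6 (.s k127 k191 7
  (.s k106 k64 6 (.d k149 k213 k192 7 14)))))))] (.c k166 (.f k12 k8 1 (.q k89 [(.d k93 k174 k81 12
  1), (.s k76 k115 6 (.s k204 k140 7 (.s k153 k51 14 (.d k221 k238 k17 4 9))))] (.c k162 (.l (.s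
  k174 k93 12 (.s k76 k115 6 (.s k204 k140 7 (.s k153 k51 14 (.d k221 k238 k17 4 9)))))) (.c k174
  (.q k162 [(.d k81 k93 k243 1 12), (.s k76 k115 6 (.s k204 k140 7 (.s k221 k238 4 (.d k153 k17 k51
  9 14))))] .n) .n)))) (.c k247 (.l (.s k12 k8 1 (.s k93 k174 12 (.s k89 k81 1 (.s k76 k115 6 (.s
  k204 k140 7 (.s k153 k51 14 (.d k221 k238 k17 4 9)))))))) .n))) (.c k119 (.q k247 [(.s k166 k4 12
  (.s k243 k251 1 (.s k81 k162 12 (.d k89 k93 k12 1 14)))), (.s k166 k4 12 (.s k230 k38 7 (.s k213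
  k196 4 (.s k192 k234 6 (.s k64 k128 7 (.s k106 k127 6 (.d k149 k21 k63 7 14)))))))] (.c k4 (.l (.s
  k243 k251 1 (.s k81 k162 12 (.s k89 k93 1 (.s k115 k76 6 (.s k51 k179 7 (.s k17 k34 4 (.d k153
  k221 k204 9 14)))))))) (.c k166 (.f k243 k251 1 (.q k89 [(.d k81 k162 k93 12 1), (.s k115 k76 6
  (.s k51 k179 7 (.s k17 k34 4 (.d k153 k221 k204 9 14))))] (.c k162 (.q k174 [(.d k93 k81 k12 1
  12), (.s k115 k76 6 (.s k51 k179 7 (.s k17 k34 4 (.d k153 k221 k204 9 14))))] .n) (.c k174 (.l (.s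
  k162 k81 12 (.s k115 k76 6 (.s k51 k179 7 (.s k17 k34 4 (.d k153 k221 k204 9 14)))))) .n)))) .n)))
  (.c k136 (.l (.s k119 k68 4 (.s k51 k187 9 (.s k153 k204 14 (.d k17 k34 k221 4 9))))) (.c k153 (.f
  k68 k119 4 (.q k4 [(.s k166 k247 12 (.s k12 k8 1 (.s k89 k243 14 (.d k93 k81 k174 1 12)))), (.s
  k166 k247 12 (.s k38 k230 7 (.s k55 k21 4 (.d k196 k132 k149 7 12)))), (.s k12 k8 1 (.s k132 k196
  7 (.s k72 k192 9 (.s k76 k64 1 (.d k204 k136 k140 9 7)))))] (.c k136 (.q k187 [(.s k166 k247 12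
  (.s k38 k230 7 (.s k55 k21 4 (.d k196 k132 k149 7 12)))), (.s k12 k8 1 (.s k93 k174 12 (.s k89 k81
  1 (.s k76 k115 6 (.s k127 k110 4 (.d k64 k72 k106 1 6))))))] (.c k166 (.l (.s k12 k8 1 (.s k132
  k196 7 (.s k72 k192 9 (.s k76 k64 1 (.s k89 k115 6 (.d k93 k81 k174 1 12))))))) .n)) (.c k187 (.l
  (.s k136 k204 9 (.s k12 k8 1 (.s k93 k174 12 (.s k89 k81 1 (.d k166 k247 k243 12 14)))))) .n))))
  (.c k187 (.l (.s k68 k119 4 (.s k204 k136 9 (.s k153 k51 14 (.d k221 k238 k17 4 9))))) (.c k204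
  (.q k60 [(.s k20 k40 5 (.s k125 k190 8 (.s k150 k215 8 (.d k105 k65 k195 5 14)))), (.s k119 k68 4
  (.s k51 k187 9 (.s k54 k57 2 (.s k150 k198 11 (.d k20 k40 k215 5 8))))), (.s k119 k68 4 (.s k51
  k187 9 (.s k17 k34 4 (.s k57 k54 2 (.s k153 k221 9 (.s k105 k201 11 (.d k125 k65 k190 5 8)))))))]
  (.c k195 (.l (.s k20 k40 5 (.s k119 k68 4 (.s k51 k187 9 (.s k54 k57 2 (.d k150 k215 k198 8
  11)))))) .n)) (.c k221 (.q k3 [(.s k68 k119 4 (.s k87 k171 13 (.s k86 k84 0 (.s k70 k118 3 (.d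
  k204 k136 k137 9 10))))), (.s k87 k171 13 (.s k119 k68 4 (.s k51 k187 9 (.s k19 k35 3 (.s k103 k71
  3 (.d k155 k223 k207 9 13)))))), (.s k87 k171 13 (.s k86 k84 0 (.s k70 k118 3 (.s k169 k252 14 (.s
  k35 k236 10 (.s k51 k19 3 (.d k204 k137 k153 10 14))))))), (.s k68 k119 4 (.s k204 k136 9 (.s k70
  k137 10 (.s k86 k118 3 (.s k153 k51 14 (.s k220 k19 10 (.d k252 k236 k169 3 14)))))))] (.c k70 (.l
  (.s k87 k171 13 (.s k86 k84 0 (.s k119 k68 4 (.s k51 k187 9 (.s k19 k35 3 (.d k153 k220 k204 10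
  14))))))) (.c k169 (.l (.s k68 k119 4 (.s k204 k136 9 (.s k70 k137 10 (.s k86 k118 3 (.d k87 k84
  k171 0 13)))))) .n))) (.c k238 (.l (.s k119 k68 4 (.s k51 k187 9 (.s k17 k34 4 (.d k153 k221 k204
  9 14))))) .n))))))))))))

def t1_109 : T TT 256 :=
  (.f k255 k170 14 (.q k102 [(.s k68 k119 4 (.s k204 k136 9 (.s k153 k51 14 (.d k221 k238 k17 4
  9))))] (.c k17 (.f k119 k68 4 (.f k51 k187 9 (.f k153 k204 14 (.q k49 [(.s k48 k50 0 (.s k16 k32 3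
  (.s k154 k223 10 (.d k101 k205 k207 13 14)))), (.s k48 k50 0 (.s k117 k186 10 (.s k118 k116 0 (.d
  k185 k253 k252 9 10)))), (.s k101 k205 13 (.s k69 k117 3 (.s k207 k138 10 (.d k103 k100 k155 0
  13))))] (.c k154 (.l (.s k48 k50 0 (.s k101 k205 13 (.d k117 k69 k186 3 10)))) .n))))) (.c k51 (.q
  k4 [(.s k12 k8 1 (.s k166 k247 12 (.s k89 k243 14 (.d k93 k81 k174 1 12)))), (.s k68 k119 4 (.s
  k166 k247 12 (.s k38 k230 7 (.s k55 k21 4 (.d k196 k132 k149 7 12))))), (.s k12 k8 1 (.s k68 k119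
  4 (.s k132 k196 7 (.s k72 k192 9 (.s k76 k64 1 (.d k204 k140 k136 7 9))))))] .n) (.c k68 (.q k81
  [(.s k89 k93 1 (.s k243 k162 12 (.s k166 k12 14 (.d k247 k251 k4 1 12)))), (.s k89 k93 1 (.s k115
  k76 6 (.s k64 k98 4 (.s k192 k128 7 (.s k213 k234 6 (.s k149 k21 7 (.d k106 k127 k63 6 14))))))),
  (.s k243 k162 12 (.s k247 k251 1 (.s k166 k4 12 (.s k230 k38 7 (.s k204 k217 6 (.s k153 k51 14 (.d
  k221 k238 k17 4 9)))))))] (.c k89 (.f k243 k162 12 (.q k166 [(.d k247 k251 k4 1 12), (.s k230 k38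
  7 (.s k204 k217 6 (.s k153 k51 14 (.d k221 k238 k17 4 9))))] (.c k8 (.l (.s k251 k247 1 (.s k230
  k38 7 (.s k204 k217 6 (.s k153 k51 14 (.d k221 k238 k17 4 9)))))) (.c k251 (.q k8 [(.d k4 k12 k247
  1 12), (.s k230 k38 7 (.s k204 k217 6 (.s k221 k238 4 (.d k153 k17 k51 9 14))))] .n) .n)))) .n))
  (.c k119 (.q k247 [(.s k166 k4 12 (.s k243 k251 1 (.s k81 k162 12 (.d k89 k93 k12 1 14)))), (.s
  k166 k4 12 (.s k230 k38 7 (.s k213 k196 4 (.s k192 k234 6 (.s k64 k128 7 (.s k106 k127 6 (.d k149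
  k21 k63 7 14)))))))] (.c k4 (.l (.s k243 k251 1 (.s k81 k162 12 (.s k89 k93 1 (.s k115 k76 6 (.s
  k51 k179 7 (.s k17 k34 4 (.d k153 k221 k204 9 14)))))))) (.c k166 (.f k243 k251 1 (.q k89 [(.d k81
  k162 k93 12 1), (.s k115 k76 6 (.s k51 k179 7 (.s k17 k34 4 (.d k153 k221 k204 9 14))))] (.c k162
  (.q k174 [(.d k93 k81 k12 1 12), (.s k115 k76 6 (.s k51 k179 7 (.s k17 k34 4 (.d k153 k221 k204 9
  14))))] .n) (.c k174 (.l (.s k162 k81 12 (.s k115 k76 6 (.s k51 k179 7 (.s k17 k34 4 (.d k153 k221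
  k204 9 14)))))) .n)))) .n))) (.c k136 (.l (.s k119 k68 4 (.s k51 k187 9 (.s k153 k204 14 (.d k17
  k34 k221 4 9))))) (.c k153 (.f k68 k119 4 (.q k4 [(.s k12 k8 1 (.s k166 k247 12 (.s k89 k243 14
  (.d k93 k81 k174 1 12)))), (.s k166 k247 12 (.s k38 k230 7 (.s k55 k21 4 (.d k196 k132 k149 7
  12)))), (.s k12 k8 1 (.s k132 k196 7 (.s k72 k192 9 (.s k76 k64 1 (.d k204 k136 k140 9 7)))))] (.c
  k136 (.q k187 [(.s k166 k247 12 (.s k38 k230 7 (.s k55 k21 4 (.d k196 k132 k149 7 12)))), (.s k12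
  k8 1 (.s k93 k174 12 (.s k89 k81 1 (.s k76 k115 6 (.s k127 k110 4 (.d k64 k72 k106 1 6))))))] (.c
  k166 (.l (.s k12 k8 1 (.s k132 k196 7 (.s k72 k192 9 (.s k76 k64 1 (.s k89 k115 6 (.d k93 k81 k174
  1 12))))))) .n)) (.c k187 (.l (.s k136 k204 9 (.s k12 k8 1 (.s k93 k174 12 (.s k89 k81 1 (.d k166
  k247 k243 12 14)))))) .n)))) (.c k187 (.l (.s k68 k119 4 (.s k204 k136 9 (.s k153 k51 14 (.d k221
  k238 k17 4 9))))) (.c k204 (.q k4 [(.s k12 k8 1 (.s k166 k247 12 (.s k89 k243 14 (.d k93 k81 k174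
  1 12)))), (.s k12 k8 1 (.s k119 k68 4 (.s k51 k187 9 (.s k34 k17 4 (.s k38 k25 6 (.s k21 k55 4 (.d
  k42 k46 k63 1 6))))))), (.s k68 k119 4 (.s k166 k247 12 (.s k38 k230 7 (.s k55 k21 4 (.d k196 k132
  k149 7 12)))))] .n) (.c k221 (.q k3 [(.s k68 k119 4 (.s k87 k171 13 (.s k86 k84 0 (.s k70 k118 3
  (.d k204 k136 k137 9 10))))), (.s k87 k171 13 (.s k119 k68 4 (.s k51 k187 9 (.s k19 k35 3 (.s k103
  k71 3 (.d k155 k223 k207 9 13)))))), (.s k87 k171 13 (.s k86 k84 0 (.s k70 k118 3 (.s k169 k252 14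
  (.s k35 k236 10 (.s k51 k19 3 (.d k204 k137 k153 10 14))))))), (.s k68 k119 4 (.s k204 k136 9 (.s
  k70 k137 10 (.s k86 k118 3 (.s k153 k51 14 (.s k220 k19 10 (.d k252 k236 k169 3 14)))))))] (.c k70
  (.l (.s k87 k171 13 (.s k86 k84 0 (.s k119 k68 4 (.s k51 k187 9 (.s k19 k35 3 (.d k153 k220 k204
  10 14))))))) (.c k169 (.l (.s k68 k119 4 (.s k204 k136 9 (.s k70 k137 10 (.s k86 k118 3 (.d k87
  k84 k171 0 13)))))) .n))) (.c k238 (.l (.s k119 k68 4 (.s k51 k187 9 (.s k17 k34 4 (.d k153 k221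
  k204 9 14))))) .n))))))))))))

def t1_110 : T TT 256 :=
  (.f k255 k170 14 (.q k102 [(.s k68 k119 4 (.s k204 k136 9 (.s k153 k51 14 (.d k221 k238 k17 4
  9))))] (.c k17 (.f k68 k119 4 (.q k101 [(.s k69 k117 3 (.s k71 k70 0 (.s k100 k103 0 (.d k116 k84
  k86 3 4)))), (.s k100 k103 0 (.s k204 k136 9 (.s k48 k152 13 (.s k16 k32 3 (.d k154 k223 k207 10
  14))))), (.s k69 k117 3 (.s k207 k138 10 (.s k154 k48 14 (.d k223 k239 k16 3 10))))] (.c k33 (.q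
  k49 [(.s k204 k136 9 (.d k153 k205 k51 13 14)), (.s k69 k117 3 (.s k71 k70 0 (.s k100 k103 0 (.d
  k116 k84 k86 3 4))))] .n) (.c k49 (.q k33 [(.s k69 k117 3 (.s k71 k70 0 (.s k100 k103 0 (.d k116
  k84 k86 3 4)))), (.s k100 k103 0 (.s k117 k69 3 (.s k48 k186 10 (.d k204 k136 k152 9 13)))), (.s
  k69 k117 3 (.s k207 k138 10 (.s k154 k48 14 (.d k223 k239 k16 3 10)))), (.s k100 k103 0 (.s k169
  k237 9 (.s k236 k35 10 (.s k168 k32 9 (.d k84 k116 k252 3 13)))))] .n) .n)))) (.c k51 (.q k4 [(.s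
  k12 k8 1 (.s k166 k247 12 (.s k89 k243 14 (.d k93 k81 k174 1 12)))), (.s k68 k119 4 (.s k166 k247
  12 (.s k38 k230 7 (.s k55 k21 4 (.d k196 k132 k149 7 12))))), (.s k12 k8 1 (.s k68 k119 4 (.s k132
  k196 7 (.s k72 k192 9 (.s k76 k64 1 (.d k204 k140 k136 7 9))))))] .n) (.c k68 (.q k192 [(.s k64
  k128 7 (.s k106 k127 6 (.s k213 k234 6 (.d k149 k21 k63 7 14)))), (.s k213 k234 6 (.s k149 k21 7
  (.s k196 k55 12 (.s k204 k200 1 (.s k221 k238 4 (.d k153 k17 k51 9 14)))))), (.s k64 k128 7 (.s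
  k106 k127 6 (.s k149 k63 14 (.s k196 k55 12 (.s k204 k200 1 (.s k221 k238 4 (.d k153 k51 k17 14
  9)))))))] (.c k106 (.q k69 [(.s k101 k117 3 (.s k207 k138 10 (.s k154 k48 14 (.d k223 k239 k16 3
  10)))), (.s k64 k128 7 (.s k74 k79 2 (.s k15 k133 10 (.s k5 k10 2 (.s k95 k175 11 (.s k90 k80 2
  (.d k165 k245 k240 11 14)))))))] (.c k42 (.l (.s k234 k213 6 (.s k101 k117 3 (.s k207 k138 10 (.s
  k154 k48 14 (.d k223 k239 k16 3 10)))))) (.c k138 (.l (.s k64 k128 7 (.s k74 k79 2 (.s k101 k117 3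
  (.s k133 k15 10 (.s k197 k5 7 (.s k149 k53 11 (.d k213 k21 k234 7 6)))))))) (.c k234 (.q k42 [(.s
  k101 k117 3 (.s k207 k138 10 (.s k154 k48 14 (.d k223 k239 k16 3 10)))), (.s k21 k63 6 (.s k149
  k213 7 (.s k196 k55 12 (.s k204 k200 1 (.s k221 k238 4 (.d k153 k51 k17 14 9))))))] .n) .n)))) (.c
  k149 (.q k207 [(.s k69 k138 10 (.s k101 k117 3 (.s k154 k48 14 (.d k223 k239 k16 3 10)))), (.s
  k128 k64 7 (.s k138 k69 10 (.s k133 k143 2 (.s k74 k15 10 (.d k202 k197 k10 2 7))))), (.s k197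
  k202 2 (.s k213 k234 6 (.s k223 k239 3 (.s k218 k208 2 (.d k229 k245 k240 3 6)))))] (.c k128 (.q
  k191 [(.s k223 k239 3 (.s k154 k16 10 (.s k101 k48 14 (.d k69 k117 k138 3 10)))), (.s k63 k127 7
  (.s k159 k111 11 (.s k175 k143 3 (.s k95 k15 11 (.d k223 k239 k31 3 7))))), (.s k63 k127 7 (.s k69
  k138 10 (.s k101 k117 3 (.s k111 k159 11 (.s k96 k106 2 (.d k48 k144 k154 11 14))))))] (.c k138
  (.l (.s k63 k127 7 (.s k159 k111 11 (.s k223 k239 3 (.s k95 k31 7 (.d k175 k143 k15 3 11))))))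
  .n)) (.c k191 (.l (.s k128 k64 7 (.s k69 k138 10 (.s k101 k117 3 (.s k154 k48 14 (.d k223 k239 k16
  3 10)))))) .n))) .n))) (.c k119 (.q k240 [(.s k80 k160 11 (.s k90 k95 2 (.s k165 k15 14 (.d k245
  k250 k5 2 11)))), (.s k80 k160 11 (.s k90 k95 2 (.s k114 k78 5 (.s k51 k177 8 (.s k17 k34 4 (.d
  k153 k221 k204 9 14)))))), (.s k245 k250 2 (.s k165 k5 11 (.s k228 k39 8 (.s k204 k216 5 (.s k153
  k51 14 (.d k221 k238 k17 4 9))))))] (.c k90 (.q k213 [(.s k234 k192 6 (.s k250 k245 2 (.s k218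
  k202 3 (.s k207 k229 6 (.d k223 k208 k239 2 3))))), (.s k149 k21 7 (.s k196 k55 12 (.s k247 k230 4
  (.s k243 k251 1 (.s k81 k162 12 (.s k89 k93 1 (.d k166 k4 k12 12 14)))))))] (.c k10 (.l (.s k250
  k245 2 (.s k149 k21 7 (.s k192 k234 6 (.s k64 k128 7 (.d k106 k127 k63 6 14)))))) (.c k250 (.q k10
  [(.s k149 k21 7 (.s k192 k234 6 (.s k64 k128 7 (.d k106 k127 k63 6 14)))), (.s k5 k15 2 (.s k21
  k149 7 (.s k53 k37 3 (.s k245 k165 11 (.s k181 k117 7 (.d k63 k42 k122 6 10)))))), (.s k80 k160 11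
  (.s k192 k234 6 (.s k208 k224 3 (.s k16 k144 7 (.d k223 k218 k154 2 10))))), (.s k5 k15 2 (.s k149
  k21 7 (.s k165 k245 11 (.s k181 k133 3 (.s k63 k122 10 (.d k192 k106 k234 14 6))))))] .n) .n)))
  (.c k165 (.q k207 [(.s k69 k138 10 (.s k223 k239 3 (.s k154 k16 10 (.d k101 k117 k48 3 14)))), (.s
  k229 k218 6 (.s k239 k223 3 (.s k234 k224 2 (.s k213 k192 6 (.d k245 k250 k197 2 3))))), (.s k69
  k138 10 (.s k101 k117 3 (.s k103 k100 0 (.s k51 k155 13 (.s k17 k34 4 (.d k153 k221 k204 9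
  14))))))] (.c k160 (.q k175 [(.s k69 k138 10 (.s k223 k239 3 (.s k154 k16 10 (.d k101 k117 k48 3
  14)))), (.s k15 k95 11 (.s k143 k79 7 (.s k159 k191 3 (.s k111 k63 11 (.d k239 k223 k47 3 7))))),
  (.s k15 k95 11 (.s k5 k10 2 (.s k69 k138 10 (.s k79 k143 7 (.s k74 k64 2 (.d k133 k197 k192 7
  10))))))] .n) (.c k175 (.l (.s k160 k80 11 (.s k69 k138 10 (.s k101 k117 3 (.s k154 k48 14 (.d
  k223 k239 k16 3 10)))))) .n))) .n))) (.c k136 (.l (.s k119 k68 4 (.s k51 k187 9 (.s k153 k204 14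
  (.d k17 k34 k221 4 9))))) (.c k153 (.f k68 k119 4 (.q k4 [(.s k12 k8 1 (.s k166 k247 12 (.s k89
  k243 14 (.d k93 k81 k174 1 12)))), (.s k166 k247 12 (.s k38 k230 7 (.s k55 k21 4 (.d k196 k132
  k149 7 12)))), (.s k12 k8 1 (.s k132 k196 7 (.s k72 k192 9 (.s k76 k64 1 (.d k204 k136 k140 9
  7)))))] (.c k136 (.q k187 [(.s k166 k247 12 (.s k38 k230 7 (.s k55 k21 4 (.d k196 k132 k149 7
  12)))), (.s k12 k8 1 (.s k93 k174 12 (.s k89 k81 1 (.d k166 k247 k243 12 14)))), (.s k12 k8 1 (.s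
  k132 k196 7 (.s k72 k192 9 (.s k76 k64 1 (.s k89 k115 6 (.d k93 k81 k174 1 12))))))] .n) (.c k187
  (.l (.s k136 k204 9 (.s k12 k8 1 (.s k93 k174 12 (.s k89 k81 1 (.d k166 k247 k243 12 14))))))
  .n)))) (.c k187 (.l (.s k68 k119 4 (.s k204 k136 9 (.s k153 k51 14 (.d k221 k238 k17 4 9))))) (.c
  k204 (.q k63 [(.s k21 k42 6 (.s k127 k191 7 (.s k106 k64 6 (.d k149 k213 k192 7 14)))), (.s k21
  k42 6 (.s k119 k68 4 (.s k51 k187 9 (.s k55 k59 1 (.s k4 k38 4 (.d k247 k183 k166 7 12)))))), (.s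
  k119 k68 4 (.s k51 k187 9 (.s k55 k59 1 (.s k127 k191 7 (.s k106 k64 6 (.d k149 k196 k192 12
  14))))))] (.c k106 (.l (.s k119 k68 4 (.s k51 k187 9 (.s k55 k59 1 (.s k149 k196 12 (.d k21 k42
  k213 6 7)))))) .n)) (.c k221 (.q k3 [(.s k68 k119 4 (.s k87 k171 13 (.s k86 k84 0 (.s k70 k118 3
  (.d k204 k136 k137 9 10))))), (.s k87 k171 13 (.s k119 k68 4 (.s k51 k187 9 (.s k19 k35 3 (.s k103
  k71 3 (.d k155 k223 k207 9 13)))))), (.s k87 k171 13 (.s k86 k84 0 (.s k70 k118 3 (.s k169 k252 14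
  (.s k35 k236 10 (.s k51 k19 3 (.d k204 k137 k153 10 14))))))), (.s k68 k119 4 (.s k204 k136 9 (.s
  k70 k137 10 (.s k86 k118 3 (.s k153 k51 14 (.s k220 k19 10 (.d k252 k236 k169 3 14)))))))] (.c k70
  (.l (.s k87 k171 13 (.s k86 k84 0 (.s k119 k68 4 (.s k51 k187 9 (.s k19 k35 3 (.d k153 k220 k204
  10 14))))))) (.c k169 (.l (.s k68 k119 4 (.s k204 k136 9 (.s k70 k137 10 (.s k86 k118 3 (.d k87
  k84 k171 0 13)))))) .n))) (.c k238 (.l (.s k119 k68 4 (.s k51 k187 9 (.s k17 k34 4 (.d k153 k221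
  k204 9 14))))) .n))))))))))))

/-- roots with certificates -/
def certs : List (Cell TT 256 × Cell TT 256 × T TT 256) :=
  [(k1, k2, t1_2), (k1, k3, t1_3), (k1, k4, t1_4), (k1, k5, t1_5), (k1, k6, t1_6), (k1, k7, t1_7),
  (k1, k8, t1_8), (k1, k9, t1_9), (k1, k10, t1_10), (k1, k11, t1_11), (k1, k12, t1_12), (k1, k13,
  t1_13), (k1, k14, t1_14), (k1, k15, t1_15), (k1, k20, t1_20), (k1, k21, t1_21), (k1, k22, t1_22),
  (k1, k23, t1_23), (k1, k24, t1_24), (k1, k25, t1_25), (k1, k26, t1_26), (k1, k27, t1_27), (k1,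
  k28, t1_28), (k1, k29, t1_29), (k1, k30, t1_30), (k1, k31, t1_31), (k1, k40, t1_40), (k1, k41,
  t1_41), (k1, k42, t1_42), (k1, k43, t1_43), (k1, k44, t1_44), (k1, k45, t1_45), (k1, k46, t1_46),
  (k1, k47, t1_47), (k1, k60, t1_60), (k1, k61, t1_61), (k1, k62, t1_62), (k1, k63, t1_63), (k1,
  k84, t1_84), (k1, k86, t1_86), (k1, k87, t1_87), (k1, k88, t1_88), (k1, k89, t1_89), (k1, k90,
  t1_90), (k1, k91, t1_91), (k1, k92, t1_92), (k1, k93, t1_93), (k1, k94, t1_94), (k1, k95, t1_95),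
  (k1, k104, t1_104), (k1, k105, t1_105), (k1, k106, t1_106), (k1, k107, t1_107), (k1, k108,
  t1_108), (k1, k109, t1_109), (k1, k110, t1_110)]

theorem c1_2 : rootOK k1 k2 t1_2 = true := by decide +kernel

theorem c1_3 : rootOK k1 k3 t1_3 = true := by decide +kernel

theorem c1_4 : rootOK k1 k4 t1_4 = true := by decide +kernel

theorem c1_5 : rootOK k1 k5 t1_5 = true := by decide +kernel

theorem c1_6 : rootOK k1 k6 t1_6 = true := by decide +kernel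

theorem c1_7 : rootOK k1 k7 t1_7 = true := by decide +kernel

theorem c1_8 : rootOK k1 k8 t1_8 = true := by decide +kernel

theorem c1_9 : rootOK k1 k9 t1_9 = true := by decide +kernel

theorem c1_10 : rootOK k1 k10 t1_10 = true := by decide +kernel

theorem c1_11 : rootOK k1 k11 t1_11 = true := by decide +kernel

theorem c1_12 : rootOK k1 k12 t1_12 = true := by decide +kernel

theorem c1_13 : rootOK k1 k13 t1_13 = true := by decide +kernel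

theorem c1_14 : rootOK k1 k14 t1_14 = true := by decide +kernel

theorem c1_15 : rootOK k1 k15 t1_15 = true := by decide +kernel

theorem c1_20 : rootOK k1 k20 t1_20 = true := by decide +kernel

theorem c1_21 : rootOK k1 k21 t1_21 = true := by decide +kernel

theorem c1_22 : rootOK k1 k22 t1_22 = true := by decide +kernel

theorem c1_23 : rootOK k1 k23 t1_23 = true := by decide +kernel

theorem c1_24 : rootOK k1 k24 t1_24 = true := by decide +kernel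

theorem c1_25 : rootOK k1 k25 t1_25 = true := by decide +kernel

theorem c1_26 : rootOK k1 k26 t1_26 = true := by decide +kernel

theorem c1_27 : rootOK k1 k27 t1_27 = true := by decide +kernel

theorem c1_28 : rootOK k1 k28 t1_28 = true := by decide +kernel

theorem c1_29 : rootOK k1 k29 t1_29 = true := by decide +kernel

theorem c1_30 : rootOK k1 k30 t1_30 = true := by decide +kernel

theorem c1_31 : rootOK k1 k31 t1_31 = true := by decide +kernel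

theorem c1_40 : rootOK k1 k40 t1_40 = true := by decide +kernel

theorem c1_41 : rootOK k1 k41 t1_41 = true := by decide +kernel

theorem c1_42 : rootOK k1 k42 t1_42 = true := by decide +kernel

theorem c1_43 : rootOK k1 k43 t1_43 = true := by decide +kernel

theorem c1_44 : rootOK k1 k44 t1_44 = true := by decide +kernel

theorem c1_45 : rootOK k1 k45 t1_45 = true := by decide +kernel

theorem c1_46 : rootOK k1 k46 t1_46 = true := by decide +kernel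

theorem c1_47 : rootOK k1 k47 t1_47 = true := by decide +kernel

theorem c1_60 : rootOK k1 k60 t1_60 = true := by decide +kernel

theorem c1_61 : rootOK k1 k61 t1_61 = true := by decide +kernel

theorem c1_62 : rootOK k1 k62 t1_62 = true := by decide +kernel

theorem c1_63 : rootOK k1 k63 t1_63 = true := by decide +kernel

theorem c1_84 : rootOK k1 k84 t1_84 = true := by decide +kernel

theorem c1_86 : rootOK k1 k86 t1_86 = true := by decide +kernel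

theorem c1_87 : rootOK k1 k87 t1_87 = true := by decide +kernel

theorem c1_88 : rootOK k1 k88 t1_88 = true := by decide +kernel

theorem c1_89 : rootOK k1 k89 t1_89 = true := by decide +kernel

theorem c1_90 : rootOK k1 k90 t1_90 = true := by decide +kernel

theorem c1_91 : rootOK k1 k91 t1_91 = true := by decide +kernel

theorem c1_92 : rootOK k1 k92 t1_92 = true := by decide +kernel

theorem c1_93 : rootOK k1 k93 t1_93 = true := by decide +kernel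

theorem c1_94 : rootOK k1 k94 t1_94 = true := by decide +kernel

theorem c1_95 : rootOK k1 k95 t1_95 = true := by decide +kernel

theorem c1_104 : rootOK k1 k104 t1_104 = true := by decide +kernel

theorem c1_105 : rootOK k1 k105 t1_105 = true := by decide +kernel

theorem c1_106 : rootOK k1 k106 t1_106 = true := by decide +kernel

theorem c1_107 : rootOK k1 k107 t1_107 = true := by decide +kernel

theorem c1_108 : rootOK k1 k108 t1_108 = true := by decide +kernel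

theorem c1_109 : rootOK k1 k109 t1_109 = true := by decide +kernel

theorem c1_110 : rootOK k1 k110 t1_110 = true := by decide +kernel

theorem ok : certsOK certs = true :=
  certsOK_cons c1_2 (certsOK_cons c1_3 (certsOK_cons c1_4 (certsOK_cons c1_5 (
  certsOK_cons c1_6 (certsOK_cons c1_7 (certsOK_cons c1_8 (certsOK_cons c1_9 (
  certsOK_cons c1_10 (certsOK_cons c1_11 (certsOK_cons c1_12 (certsOK_cons c1_13 (
  certsOK_cons c1_14 (certsOK_cons c1_15 (certsOK_cons c1_20 (certsOK_cons c1_21 (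
  certsOK_cons c1_22 (certsOK_cons c1_23 (certsOK_cons c1_24 (certsOK_cons c1_25 (
  certsOK_cons c1_26 (certsOK_cons c1_27 (certsOK_cons c1_28 (certsOK_cons c1_29 (
  certsOK_cons c1_30 (certsOK_cons c1_31 (certsOK_cons c1_40 (certsOK_cons c1_41 (
  certsOK_cons c1_42 (certsOK_cons c1_43 (certsOK_cons c1_44 (certsOK_cons c1_45 (
  certsOK_cons c1_46 (certsOK_cons c1_47 (certsOK_cons c1_60 (certsOK_cons c1_61 (
  certsOK_cons c1_62 (certsOK_cons c1_63 (certsOK_cons c1_84 (certsOK_cons c1_86 (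
  certsOK_cons c1_87 (certsOK_cons c1_88 (certsOK_cons c1_89 (certsOK_cons c1_90 (
  certsOK_cons c1_91 (certsOK_cons c1_92 (certsOK_cons c1_93 (certsOK_cons c1_94 (
  certsOK_cons c1_95 (certsOK_cons c1_104 (certsOK_cons c1_105 (certsOK_cons c1_106 (
  certsOK_cons c1_107 (certsOK_cons c1_108 (certsOK_cons c1_109 (certsOK_cons c1_110 (certsOK_nil
  ))))))))))))))))))))))))))))))))))))))))))))))))))))))))

theorem sound (k : Nat) (hk : (bits certs).testBit k = true) : PI k :=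
  certs_sound certs ok k hk

end Pool.Agent.TTT.A01
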