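import Pool.Agent.TTT.Sym

set_option autoImplicit false
set_option maxRecDepth 100000

namespace Pool.Agent.TTT.A02

def t1_111 : T TT 256 :=
  (.f k255 k170 14 (.q k102 [(.s k68 k119 4 (.s k204 k136 9 (.s k153 k51 14 (.d k221 k238 k17 4
  9))))] (.c k17 (.f k119 k68 4 (.f k51 k187 9 (.f k153 k204 14 (.q k49 [(.s k48 k50 0 (.s k101 k205
  13 (.d k117 k69 k186 3 10))), (.s k48 k50 0 (.s k117 k186 10 (.s k118 k116 0 (.d k185 k253 k252 9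
  10)))), (.s k101 k205 13 (.s k69 k117 3 (.s k207 k138 10 (.d k103 k100 k155 0 13)))), (.s k48 k50
  0 (.s k16 k32 3 (.s k154 k223 10 (.d k101 k205 k207 13 14))))] .n)))) (.c k51 (.q k4 [(.s k12 k8 1
  (.s k93 k174 12 (.s k166 k247 12 (.d k89 k81 k243 1 14)))), (.s k68 k119 4 (.s k166 k247 12 (.s
  k38 k230 7 (.s k55 k21 4 (.d k196 k132 k149 7 12))))), (.s k12 k8 1 (.s k68 k119 4 (.s k132 k196 7
  (.s k72 k192 9 (.s k76 k64 1 (.d k204 k140 k136 7 9))))))] .n) (.c k68 (.q k4 [(.s k166 k247 12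
  (.s k12 k8 1 (.s k89 k243 14 (.d k93 k81 k174 1 12)))), (.s k166 k247 12 (.s k38 k230 7 (.s k21
  k55 4 (.s k63 k42 6 (.s k127 k191 7 (.s k106 k64 6 (.d k149 k213 k192 7 14)))))))] (.c k166 (.f
  k12 k8 1 (.q k89 [(.d k93 k174 k81 12 1), (.s k76 k115 6 (.s k204 k140 7 (.s k153 k51 14 (.d k221
  k238 k17 4 9))))] (.c k162 (.l (.s k174 k93 12 (.s k76 k115 6 (.s k204 k140 7 (.s k153 k51 14 (.d
  k221 k238 k17 4 9)))))) (.c k174 (.q k162 [(.d k81 k93 k243 1 12), (.s k76 k115 6 (.s k204 k140 7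
  (.s k221 k238 4 (.d k153 k17 k51 9 14))))] .n) .n)))) (.c k247 (.l (.s k12 k8 1 (.s k93 k174 12
  (.s k89 k81 1 (.s k76 k115 6 (.s k204 k140 7 (.s k153 k51 14 (.d k221 k238 k17 4 9)))))))) .n)))
  (.c k119 (.q k247 [(.s k166 k4 12 (.s k243 k251 1 (.s k81 k162 12 (.d k89 k93 k12 1 14)))), (.s
  k166 k4 12 (.s k230 k38 7 (.s k213 k196 4 (.s k192 k234 6 (.s k64 k128 7 (.s k106 k127 6 (.d k149
  k21 k63 7 14)))))))] (.c k4 (.l (.s k243 k251 1 (.s k81 k162 12 (.s k89 k93 1 (.s k115 k76 6 (.s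
  k51 k179 7 (.s k17 k34 4 (.d k153 k221 k204 9 14)))))))) (.c k166 (.f k243 k251 1 (.q k89 [(.d k81
  k162 k93 12 1), (.s k115 k76 6 (.s k51 k179 7 (.s k17 k34 4 (.d k153 k221 k204 9 14))))] (.c k162
  (.q k174 [(.d k93 k81 k12 1 12), (.s k115 k76 6 (.s k51 k179 7 (.s k17 k34 4 (.d k153 k221 k204 9
  14))))] .n) (.c k174 (.l (.s k162 k81 12 (.s k115 k76 6 (.s k51 k179 7 (.s k17 k34 4 (.d k153 k221
  k204 9 14)))))) .n)))) .n))) (.c k136 (.l (.s k119 k68 4 (.s k51 k187 9 (.s k153 k204 14 (.d k17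
  k34 k221 4 9))))) (.c k153 (.f k68 k119 4 (.q k4 [(.s k166 k247 12 (.s k12 k8 1 (.s k89 k243 14
  (.d k93 k81 k174 1 12)))), (.s k166 k247 12 (.s k38 k230 7 (.s k55 k21 4 (.d k196 k132 k149 7
  12)))), (.s k12 k8 1 (.s k132 k196 7 (.s k72 k192 9 (.s k76 k64 1 (.d k204 k136 k140 9 7)))))] (.c
  k136 (.q k187 [(.s k166 k247 12 (.s k38 k230 7 (.s k55 k21 4 (.d k196 k132 k149 7 12)))), (.s k12
  k8 1 (.s k93 k174 12 (.s k89 k81 1 (.s k76 k115 6 (.s k127 k110 4 (.d k64 k72 k106 1 6))))))] (.c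
  k166 (.l (.s k12 k8 1 (.s k132 k196 7 (.s k72 k192 9 (.s k76 k64 1 (.s k89 k115 6 (.d k93 k81 k174
  1 12))))))) .n)) (.c k187 (.l (.s k136 k204 9 (.s k12 k8 1 (.s k93 k174 12 (.s k89 k81 1 (.d k166
  k247 k243 12 14)))))) .n)))) (.c k187 (.l (.s k68 k119 4 (.s k204 k136 9 (.s k153 k51 14 (.d k221
  k238 k17 4 9))))) (.c k204 (.q k4 [(.s k12 k8 1 (.s k93 k174 12 (.s k166 k247 12 (.d k89 k81 k243
  1 14)))), (.s k68 k119 4 (.s k166 k247 12 (.s k38 k230 7 (.s k55 k21 4 (.d k196 k132 k149 7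
  12))))), (.s k12 k8 1 (.s k119 k68 4 (.s k51 k187 9 (.s k34 k17 4 (.s k38 k25 6 (.s k21 k55 4 (.d
  k42 k46 k63 1 6)))))))] .n) (.c k221 (.q k3 [(.s k68 k119 4 (.s k87 k171 13 (.s k86 k84 0 (.s k70
  k118 3 (.d k204 k136 k137 9 10))))), (.s k87 k171 13 (.s k119 k68 4 (.s k51 k187 9 (.s k19 k35 3
  (.s k103 k71 3 (.d k155 k223 k207 9 13)))))), (.s k87 k171 13 (.s k86 k84 0 (.s k70 k118 3 (.s
  k169 k252 14 (.s k35 k236 10 (.s k51 k19 3 (.d k204 k137 k153 10 14))))))), (.s k68 k119 4 (.s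
  k204 k136 9 (.s k70 k137 10 (.s k86 k118 3 (.s k153 k51 14 (.s k220 k19 10 (.d k252 k236 k169 3
  14)))))))] (.c k70 (.l (.s k87 k171 13 (.s k86 k84 0 (.s k119 k68 4 (.s k51 k187 9 (.s k19 k35 3
  (.d k153 k220 k204 10 14))))))) (.c k169 (.l (.s k68 k119 4 (.s k204 k136 9 (.s k70 k137 10 (.s
  k86 k118 3 (.d k87 k84 k171 0 13)))))) .n))) (.c k238 (.l (.s k119 k68 4 (.s k51 k187 9 (.s k17
  k34 4 (.d k153 k221 k204 9 14))))) .n))))))))))))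

def t1_124 : T TT 256 :=
  (.f k255 k170 14 (.q k102 [(.s k68 k119 4 (.s k204 k136 9 (.s k153 k51 14 (.d k221 k238 k17 4
  9))))] (.c k17 (.f k119 k68 4 (.f k51 k187 9 (.f k153 k204 14 (.q k49 [(.s k48 k50 0 (.s k101 k205
  13 (.d k117 k69 k186 3 10))), (.s k48 k50 0 (.s k117 k186 10 (.s k118 k116 0 (.d k185 k253 k252 9
  10)))), (.s k101 k205 13 (.s k69 k117 3 (.s k207 k138 10 (.d k103 k100 k155 0 13)))), (.s k48 k50
  0 (.s k16 k32 3 (.s k154 k223 10 (.d k101 k205 k207 13 14))))] .n)))) (.c k51 (.q k4 [(.s k12 k8 1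
  (.s k93 k174 12 (.s k166 k247 12 (.d k89 k81 k243 1 14)))), (.s k68 k119 4 (.s k166 k247 12 (.s
  k38 k230 7 (.s k55 k21 4 (.d k196 k132 k149 7 12))))), (.s k12 k8 1 (.s k68 k119 4 (.s k132 k196 7
  (.s k72 k192 9 (.s k76 k64 1 (.d k204 k140 k136 7 9))))))] .n) (.c k68 (.q k4 [(.s k166 k247 12
  (.s k12 k8 1 (.s k89 k243 14 (.d k93 k81 k174 1 12)))), (.s k166 k247 12 (.s k38 k230 7 (.s k21
  k55 4 (.s k63 k42 6 (.s k127 k191 7 (.s k106 k64 6 (.d k149 k213 k192 7 14)))))))] (.c k166 (.f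
  k12 k8 1 (.q k89 [(.d k93 k174 k81 12 1), (.s k76 k115 6 (.s k204 k140 7 (.s k153 k51 14 (.d k221
  k238 k17 4 9))))] (.c k162 (.l (.s k174 k93 12 (.s k76 k115 6 (.s k204 k140 7 (.s k153 k51 14 (.d
  k221 k238 k17 4 9)))))) (.c k174 (.q k162 [(.d k81 k93 k243 1 12), (.s k76 k115 6 (.s k204 k140 7
  (.s k221 k238 4 (.d k153 k17 k51 9 14))))] .n) .n)))) (.c k247 (.l (.s k12 k8 1 (.s k93 k174 12
  (.s k89 k81 1 (.s k76 k115 6 (.s k204 k140 7 (.s k153 k51 14 (.d k221 k238 k17 4 9)))))))) .n)))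
  (.c k119 (.q k247 [(.s k166 k4 12 (.s k243 k251 1 (.s k81 k162 12 (.d k89 k93 k12 1 14)))), (.s
  k166 k4 12 (.s k230 k38 7 (.s k213 k196 4 (.s k192 k234 6 (.s k64 k128 7 (.s k106 k127 6 (.d k149
  k21 k63 7 14)))))))] (.c k4 (.l (.s k243 k251 1 (.s k81 k162 12 (.s k89 k93 1 (.s k115 k76 6 (.s
  k51 k179 7 (.s k17 k34 4 (.d k153 k221 k204 9 14)))))))) (.c k166 (.f k243 k251 1 (.q k89 [(.d k81
  k162 k93 12 1), (.s k115 k76 6 (.s k51 k179 7 (.s k17 k34 4 (.d k153 k221 k204 9 14))))] (.c k162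
  (.q k174 [(.d k93 k81 k12 1 12), (.s k115 k76 6 (.s k51 k179 7 (.s k17 k34 4 (.d k153 k221 k204 9
  14))))] .n) (.c k174 (.l (.s k162 k81 12 (.s k115 k76 6 (.s k51 k179 7 (.s k17 k34 4 (.d k153 k221
  k204 9 14)))))) .n)))) .n))) (.c k136 (.l (.s k119 k68 4 (.s k51 k187 9 (.s k153 k204 14 (.d k17
  k34 k221 4 9))))) (.c k153 (.f k68 k119 4 (.q k4 [(.s k166 k247 12 (.s k12 k8 1 (.s k89 k243 14
  (.d k93 k81 k174 1 12)))), (.s k166 k247 12 (.s k38 k230 7 (.s k55 k21 4 (.d k196 k132 k149 7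
  12)))), (.s k12 k8 1 (.s k132 k196 7 (.s k72 k192 9 (.s k76 k64 1 (.d k204 k136 k140 9 7)))))] (.c
  k136 (.q k187 [(.s k166 k247 12 (.s k38 k230 7 (.s k55 k21 4 (.d k196 k132 k149 7 12)))), (.s k12
  k8 1 (.s k93 k174 12 (.s k89 k81 1 (.s k76 k115 6 (.s k127 k110 4 (.d k64 k72 k106 1 6))))))] (.c
  k166 (.l (.s k12 k8 1 (.s k132 k196 7 (.s k72 k192 9 (.s k76 k64 1 (.s k89 k115 6 (.d k93 k81 k174
  1 12))))))) .n)) (.c k187 (.l (.s k136 k204 9 (.s k12 k8 1 (.s k93 k174 12 (.s k89 k81 1 (.d k166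
  k247 k243 12 14)))))) .n)))) (.c k187 (.l (.s k68 k119 4 (.s k204 k136 9 (.s k153 k51 14 (.d k221
  k238 k17 4 9))))) (.c k204 (.q k4 [(.s k12 k8 1 (.s k93 k174 12 (.s k166 k247 12 (.d k89 k81 k243
  1 14)))), (.s k68 k119 4 (.s k166 k247 12 (.s k38 k230 7 (.s k55 k21 4 (.d k196 k132 k149 7
  12))))), (.s k12 k8 1 (.s k119 k68 4 (.s k51 k187 9 (.s k34 k17 4 (.s k38 k25 6 (.s k21 k55 4 (.d
  k42 k46 k63 1 6)))))))] .n) (.c k221 (.q k3 [(.s k68 k119 4 (.s k87 k171 13 (.s k86 k84 0 (.s k204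
  k136 9 (.d k70 k118 k137 3 10))))), (.s k87 k171 13 (.s k119 k68 4 (.s k51 k187 9 (.s k19 k35 3
  (.s k103 k71 3 (.d k155 k223 k207 9 13)))))), (.s k87 k171 13 (.s k86 k84 0 (.s k70 k118 3 (.s
  k169 k252 14 (.s k35 k236 10 (.s k51 k19 3 (.d k204 k137 k153 10 14))))))), (.s k68 k119 4 (.s
  k204 k136 9 (.s k70 k137 10 (.s k86 k118 3 (.s k153 k51 14 (.s k220 k19 10 (.d k252 k236 k169 3
  14)))))))] (.c k70 (.l (.s k87 k171 13 (.s k86 k84 0 (.s k119 k68 4 (.s k51 k187 9 (.s k19 k35 3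
  (.d k153 k220 k204 10 14))))))) (.c k153 (.l (.s k68 k119 4 (.s k87 k171 13 (.s k86 k84 0 (.s k70
  k118 3 (.d k204 k136 k137 9 10)))))) (.c k169 (.l (.s k68 k119 4 (.s k204 k136 9 (.s k70 k137 10
  (.s k86 k118 3 (.d k87 k84 k171 0 13)))))) .n)))) (.c k238 (.l (.s k119 k68 4 (.s k51 k187 9 (.s
  k17 k34 4 (.d k153 k221 k204 9 14))))) .n))))))))))))

def t1_125 : T TT 256 :=
  (.f k255 k170 14 (.q k102 [(.s k68 k119 4 (.s k204 k136 9 (.s k153 k51 14 (.d k221 k238 k17 4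
  9))))] (.c k17 (.f k119 k68 4 (.f k51 k187 9 (.f k153 k204 14 (.q k49 [(.s k48 k50 0 (.s k101 k205
  13 (.d k117 k69 k186 3 10))), (.s k48 k50 0 (.s k117 k186 10 (.s k118 k116 0 (.d k185 k253 k252 9
  10)))), (.s k101 k205 13 (.s k69 k117 3 (.s k207 k138 10 (.d k103 k100 k155 0 13)))), (.s k48 k50
  0 (.s k16 k32 3 (.s k154 k223 10 (.d k101 k205 k207 13 14))))] .n)))) (.c k51 (.q k4 [(.s k12 k8 1
  (.s k93 k174 12 (.s k166 k247 12 (.d k89 k81 k243 1 14)))), (.s k68 k119 4 (.s k166 k247 12 (.s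
  k38 k230 7 (.s k55 k21 4 (.d k196 k132 k149 7 12))))), (.s k12 k8 1 (.s k68 k119 4 (.s k132 k196 7
  (.s k72 k192 9 (.s k76 k64 1 (.d k204 k140 k136 7 9))))))] .n) (.c k68 (.q k4 [(.s k166 k247 12
  (.s k12 k8 1 (.s k89 k243 14 (.d k93 k81 k174 1 12)))), (.s k166 k247 12 (.s k38 k230 7 (.s k21
  k55 4 (.s k63 k42 6 (.s k127 k191 7 (.s k106 k64 6 (.d k149 k213 k192 7 14)))))))] (.c k166 (.f
  k12 k8 1 (.q k89 [(.d k93 k174 k81 12 1), (.s k76 k115 6 (.s k204 k140 7 (.s k153 k51 14 (.d k221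
  k238 k17 4 9))))] (.c k162 (.l (.s k174 k93 12 (.s k76 k115 6 (.s k204 k140 7 (.s k153 k51 14 (.d
  k221 k238 k17 4 9)))))) (.c k174 (.q k162 [(.d k81 k93 k243 1 12), (.s k76 k115 6 (.s k204 k140 7
  (.s k221 k238 4 (.d k153 k17 k51 9 14))))] .n) .n)))) (.c k247 (.l (.s k12 k8 1 (.s k93 k174 12
  (.s k89 k81 1 (.s k76 k115 6 (.s k204 k140 7 (.s k153 k51 14 (.d k221 k238 k17 4 9)))))))) .n)))
  (.c k119 (.q k213 [(.s k149 k21 7 (.s k192 k234 6 (.s k64 k128 7 (.d k106 k127 k63 6 14)))), (.s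
  k149 k21 7 (.s k196 k55 12 (.s k247 k230 4 (.s k243 k251 1 (.s k81 k162 12 (.s k89 k93 1 (.d k166
  k4 k12 12 14))))))), (.s k192 k234 6 (.s k64 k128 7 (.s k106 k127 6 (.s k98 k110 1 (.s k51 k145 12
  (.s k17 k34 4 (.d k153 k221 k204 9 14)))))))] (.c k149 (.f k192 k234 6 (.q k106 [(.d k64 k128 k127
  7 6), (.s k98 k110 1 (.s k51 k145 12 (.s k17 k34 4 (.d k153 k221 k204 9 14))))] (.c k128 (.q k191
  [(.d k127 k64 k63 6 7), (.s k98 k110 1 (.s k51 k145 12 (.s k17 k34 4 (.d k153 k221 k204 9 14))))]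
  .n) (.c k191 (.l (.s k128 k64 7 (.s k98 k110 1 (.s k51 k145 12 (.s k17 k34 4 (.d k153 k221 k204 9
  14)))))) .n)))) .n)) (.c k136 (.l (.s k119 k68 4 (.s k51 k187 9 (.s k153 k204 14 (.d k17 k34 k221
  4 9))))) (.c k153 (.f k68 k119 4 (.q k149 [(.s k21 k213 7 (.s k63 k42 6 (.s k106 k192 14 (.d k127
  k64 k191 6 7)))), (.s k196 k55 12 (.s k4 k132 7 (.s k12 k8 1 (.s k93 k174 12 (.s k89 k81 1 (.d
  k166 k247 k243 12 14))))))] (.c k136 (.q k187 [(.s k21 k213 7 (.s k63 k42 6 (.s k106 k192 14 (.d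
  k127 k64 k191 6 7)))), (.s k196 k55 12 (.s k4 k132 7 (.s k12 k8 1 (.s k93 k174 12 (.s k89 k81 1
  (.d k166 k247 k243 12 14))))))] .n) (.c k187 (.l (.s k136 k204 9 (.s k21 k213 7 (.s k63 k42 6 (.s
  k106 k192 14 (.d k127 k64 k191 6 7)))))) .n)))) (.c k187 (.l (.s k68 k119 4 (.s k204 k136 9 (.s
  k153 k51 14 (.d k221 k238 k17 4 9))))) (.c k204 (.q k4 [(.s k12 k8 1 (.s k93 k174 12 (.s k166 k247
  12 (.d k89 k81 k243 1 14)))), (.s k68 k119 4 (.s k166 k247 12 (.s k38 k230 7 (.s k55 k21 4 (.d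
  k196 k132 k149 7 12))))), (.s k12 k8 1 (.s k119 k68 4 (.s k51 k187 9 (.s k34 k17 4 (.s k38 k25 6
  (.s k21 k55 4 (.d k42 k46 k63 1 6)))))))] .n) (.c k221 (.q k3 [(.s k68 k119 4 (.s k87 k171 13 (.s
  k86 k84 0 (.s k70 k118 3 (.d k204 k136 k137 9 10))))), (.s k87 k171 13 (.s k119 k68 4 (.s k51 k187
  9 (.s k19 k35 3 (.s k103 k71 3 (.d k155 k223 k207 9 13)))))), (.s k87 k171 13 (.s k86 k84 0 (.s
  k70 k118 3 (.s k169 k252 14 (.s k35 k236 10 (.s k51 k19 3 (.d k204 k137 k153 10 14))))))), (.s k68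
  k119 4 (.s k204 k136 9 (.s k70 k137 10 (.s k86 k118 3 (.s k153 k51 14 (.s k220 k19 10 (.d k252
  k236 k169 3 14)))))))] (.c k70 (.l (.s k87 k171 13 (.s k86 k84 0 (.s k119 k68 4 (.s k51 k187 9 (.s
  k19 k35 3 (.d k153 k220 k204 10 14))))))) (.c k169 (.l (.s k68 k119 4 (.s k204 k136 9 (.s k70 k137
  10 (.s k86 k118 3 (.d k87 k84 k171 0 13)))))) .n))) (.c k238 (.l (.s k119 k68 4 (.s k51 k187 9 (.s
  k17 k34 4 (.d k153 k221 k204 9 14))))) .n))))))))))))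

def t1_126 : T TT 256 :=
  (.f k255 k170 14 (.q k102 [(.s k68 k119 4 (.s k204 k136 9 (.s k153 k51 14 (.d k221 k238 k17 4
  9))))] (.c k17 (.f k119 k68 4 (.f k51 k187 9 (.f k153 k204 14 (.q k49 [(.s k48 k50 0 (.s k101 k205
  13 (.d k117 k69 k186 3 10))), (.s k48 k50 0 (.s k117 k186 10 (.s k118 k116 0 (.d k185 k253 k252 9
  10)))), (.s k101 k205 13 (.s k69 k117 3 (.s k207 k138 10 (.d k103 k100 k155 0 13)))), (.s k48 k50
  0 (.s k16 k32 3 (.s k154 k223 10 (.d k101 k205 k207 13 14))))] .n)))) (.c k51 (.q k4 [(.s k12 k8 1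
  (.s k93 k174 12 (.s k166 k247 12 (.d k89 k81 k243 1 14)))), (.s k68 k119 4 (.s k166 k247 12 (.s
  k38 k230 7 (.s k55 k21 4 (.d k196 k132 k149 7 12))))), (.s k12 k8 1 (.s k68 k119 4 (.s k132 k196 7
  (.s k72 k192 9 (.s k76 k64 1 (.d k204 k140 k136 7 9))))))] .n) (.c k68 (.q k4 [(.s k166 k247 12
  (.s k12 k8 1 (.s k89 k243 14 (.d k93 k81 k174 1 12)))), (.s k166 k247 12 (.s k38 k230 7 (.s k21
  k55 4 (.s k63 k42 6 (.s k127 k191 7 (.s k106 k64 6 (.d k149 k213 k192 7 14)))))))] (.c k166 (.f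
  k12 k8 1 (.q k89 [(.d k93 k174 k81 12 1), (.s k76 k115 6 (.s k204 k140 7 (.s k153 k51 14 (.d k221
  k238 k17 4 9))))] (.c k162 (.l (.s k174 k93 12 (.s k76 k115 6 (.s k204 k140 7 (.s k153 k51 14 (.d
  k221 k238 k17 4 9)))))) (.c k174 (.q k162 [(.d k81 k93 k243 1 12), (.s k76 k115 6 (.s k204 k140 7
  (.s k221 k238 4 (.d k153 k17 k51 9 14))))] .n) .n)))) (.c k247 (.l (.s k12 k8 1 (.s k93 k174 12
  (.s k89 k81 1 (.s k76 k115 6 (.s k204 k140 7 (.s k153 k51 14 (.d k221 k238 k17 4 9)))))))) .n)))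
  (.c k119 (.q k247 [(.s k166 k4 12 (.s k243 k251 1 (.s k81 k162 12 (.d k89 k93 k12 1 14)))), (.s
  k166 k4 12 (.s k230 k38 7 (.s k213 k196 4 (.s k192 k234 6 (.s k64 k128 7 (.s k106 k127 6 (.d k149
  k21 k63 7 14)))))))] (.c k4 (.l (.s k243 k251 1 (.s k81 k162 12 (.s k89 k93 1 (.s k115 k76 6 (.s
  k51 k179 7 (.s k17 k34 4 (.d k153 k221 k204 9 14)))))))) (.c k166 (.f k243 k251 1 (.q k89 [(.d k81
  k162 k93 12 1), (.s k115 k76 6 (.s k51 k179 7 (.s k17 k34 4 (.d k153 k221 k204 9 14))))] (.c k162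
  (.q k174 [(.d k93 k81 k12 1 12), (.s k115 k76 6 (.s k51 k179 7 (.s k17 k34 4 (.d k153 k221 k204 9
  14))))] .n) (.c k174 (.l (.s k162 k81 12 (.s k115 k76 6 (.s k51 k179 7 (.s k17 k34 4 (.d k153 k221
  k204 9 14)))))) .n)))) .n))) (.c k136 (.l (.s k119 k68 4 (.s k51 k187 9 (.s k153 k204 14 (.d k17
  k34 k221 4 9))))) (.c k153 (.f k68 k119 4 (.q k4 [(.s k166 k247 12 (.s k12 k8 1 (.s k89 k243 14
  (.d k93 k81 k174 1 12)))), (.s k166 k247 12 (.s k38 k230 7 (.s k55 k21 4 (.d k196 k132 k149 7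
  12)))), (.s k12 k8 1 (.s k132 k196 7 (.s k72 k192 9 (.s k76 k64 1 (.d k204 k136 k140 9 7)))))] (.c
  k136 (.q k187 [(.s k166 k247 12 (.s k38 k230 7 (.s k55 k21 4 (.d k196 k132 k149 7 12)))), (.s k12
  k8 1 (.s k93 k174 12 (.s k89 k81 1 (.s k76 k115 6 (.s k127 k110 4 (.d k64 k72 k106 1 6))))))] (.c
  k166 (.l (.s k12 k8 1 (.s k132 k196 7 (.s k72 k192 9 (.s k76 k64 1 (.s k89 k115 6 (.d k93 k81 k174
  1 12))))))) .n)) (.c k187 (.l (.s k136 k204 9 (.s k12 k8 1 (.s k93 k174 12 (.s k89 k81 1 (.d k166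
  k247 k243 12 14)))))) .n)))) (.c k187 (.l (.s k68 k119 4 (.s k204 k136 9 (.s k153 k51 14 (.d k221
  k238 k17 4 9))))) (.c k204 (.q k4 [(.s k12 k8 1 (.s k93 k174 12 (.s k166 k247 12 (.d k89 k81 k243
  1 14)))), (.s k68 k119 4 (.s k166 k247 12 (.s k38 k230 7 (.s k55 k21 4 (.d k196 k132 k149 7
  12))))), (.s k12 k8 1 (.s k119 k68 4 (.s k51 k187 9 (.s k34 k17 4 (.s k38 k25 6 (.s k21 k55 4 (.d
  k42 k46 k63 1 6)))))))] .n) (.c k221 (.q k3 [(.s k68 k119 4 (.s k87 k171 13 (.s k86 k84 0 (.s k204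
  k136 9 (.d k70 k118 k137 3 10))))), (.s k87 k171 13 (.s k119 k68 4 (.s k51 k187 9 (.s k19 k35 3
  (.s k103 k71 3 (.d k155 k223 k207 9 13)))))), (.s k87 k171 13 (.s k86 k84 0 (.s k70 k118 3 (.s
  k169 k252 14 (.s k35 k236 10 (.s k51 k19 3 (.d k204 k137 k153 10 14))))))), (.s k68 k119 4 (.s
  k204 k136 9 (.s k70 k137 10 (.s k86 k118 3 (.s k153 k51 14 (.s k220 k19 10 (.d k252 k236 k169 3
  14)))))))] (.c k70 (.l (.s k87 k171 13 (.s k86 k84 0 (.s k119 k68 4 (.s k51 k187 9 (.s k19 k35 3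
  (.d k153 k220 k204 10 14))))))) (.c k153 (.l (.s k68 k119 4 (.s k87 k171 13 (.s k86 k84 0 (.s k70
  k118 3 (.d k204 k136 k137 9 10)))))) (.c k169 (.l (.s k68 k119 4 (.s k204 k136 9 (.s k70 k137 10
  (.s k86 k118 3 (.d k87 k84 k171 0 13)))))) .n)))) (.c k238 (.l (.s k119 k68 4 (.s k51 k187 9 (.s
  k17 k34 4 (.d k153 k221 k204 9 14))))) .n))))))))))))

def t1_127 : T TT 256 :=
  (.f k255 k170 14 (.q k150 [(.s k20 k215 8 (.s k60 k40 5 (.s k105 k195 14 (.d k125 k65 k190 5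
  8))))] (.c k20 (.q k4 [(.s k166 k247 12 (.s k12 k8 1 (.s k89 k243 14 (.d k93 k81 k174 1 12)))),
  (.s k166 k247 12 (.s k134 k182 3 (.s k69 k199 8 (.s k207 k138 10 (.s k223 k239 3 (.s k154 k16 10
  (.d k101 k117 k48 3 14)))))))] (.c k166 (.f k12 k8 1 (.q k89 [(.d k93 k174 k81 12 1), (.s k28 k211
  10 (.s k60 k44 3 (.s k105 k195 14 (.d k125 k65 k190 5 8))))] (.c k162 (.l (.s k174 k93 12 (.s k28
  k211 10 (.s k60 k44 3 (.s k105 k195 14 (.d k125 k65 k190 5 8)))))) (.c k174 (.q k162 [(.d k81 k93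
  k243 1 12), (.s k28 k211 10 (.s k60 k44 3 (.s k125 k190 8 (.d k105 k65 k195 5 14))))] .n) .n))))
  (.c k247 (.l (.s k12 k8 1 (.s k93 k174 12 (.s k89 k81 1 (.s k28 k211 10 (.s k60 k44 3 (.s k105
  k195 14 (.d k125 k65 k190 5 8)))))))) .n))) (.c k40 (.l (.s k215 k20 8 (.s k195 k235 5 (.s k105
  k60 14 (.d k65 k125 k130 5 8))))) (.c k60 (.q k4 [(.s k12 k8 1 (.s k93 k174 12 (.s k166 k247 12
  (.d k89 k81 k243 1 14)))), (.s k20 k215 8 (.s k52 k36 3 (.s k101 k199 12 (.s k117 k69 3 (.d k247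
  k182 k166 8 12))))), (.s k12 k8 1 (.s k215 k20 8 (.s k195 k235 5 (.s k130 k65 8 (.s k134 k73 10
  (.s k69 k199 8 (.d k138 k142 k207 1 10)))))))] .n) (.c k65 (.f k215 k20 8 (.f k195 k235 5 (.f k105
  k60 14 (.q k193 [(.s k149 k61 13 (.s k192 k194 0 (.d k213 k21 k234 7 6))), (.s k192 k194 0 (.s
  k213 k234 6 (.s k214 k212 0 (.d k233 k253 k252 5 6)))), (.s k149 k61 13 (.s k21 k213 7 (.s k63 k42
  6 (.d k151 k148 k107 0 13)))), (.s k149 k61 13 (.s k151 k148 0 (.s k63 k107 13 (.d k192 k194 k106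
  0 14))))] .n)))) (.c k105 (.f k20 k215 8 (.q k4 [(.s k52 k36 3 (.s k101 k199 12 (.s k117 k69 3 (.d
  k247 k182 k166 8 12)))), (.s k12 k8 1 (.s k93 k174 12 (.s k89 k81 1 (.d k166 k247 k243 12 14)))),
  (.s k12 k8 1 (.s k36 k52 3 (.s k24 k48 5 (.s k28 k16 1 (.d k60 k40 k44 5 3)))))] (.c k40 (.q k235
  [(.s k52 k36 3 (.s k101 k199 12 (.s k117 k69 3 (.d k247 k182 k166 8 12)))), (.s k12 k8 1 (.s k93
  k174 12 (.s k89 k81 1 (.d k166 k247 k243 12 14)))), (.s k12 k8 1 (.s k36 k52 3 (.s k24 k48 5 (.s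
  k28 k16 1 (.s k89 k211 10 (.d k93 k81 k174 1 12))))))] .n) (.c k235 (.l (.s k40 k60 5 (.s k12 k8 1
  (.s k36 k52 3 (.s k32 k44 1 (.d k48 k16 k24 3 5)))))) .n)))) (.c k125 (.f k20 k215 8 (.f k60 k40 5
  (.f k105 k195 14 (.q k124 [(.s k86 k67 6 (.s k252 k188 7 (.d k84 k87 k168 0 13))), (.s k252 k188 7
  (.s k84 k168 13 (.s k104 k64 5 (.d k148 k212 k192 7 13)))), (.s k86 k67 6 (.s k22 k214 7 (.s k3
  k41 6 (.d k252 k188 k169 7 14)))), (.s k86 k67 6 (.s k87 k84 0 (.s k3 k171 13 (.d k22 k41 k214 6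
  7))))] .n)))) (.c k190 (.l (.s k215 k20 8 (.s k195 k235 5 (.s k65 k130 8 (.d k105 k125 k60 5
  14))))) (.c k195 (.q k4 [(.s k12 k8 1 (.s k93 k174 12 (.s k166 k247 12 (.d k89 k81 k243 1 14)))),
  (.s k20 k215 8 (.s k52 k36 3 (.s k101 k199 12 (.s k117 k69 3 (.d k247 k182 k166 8 12))))), (.s k12
  k8 1 (.s k20 k215 8 (.s k36 k52 3 (.s k24 k48 5 (.s k28 k16 1 (.d k60 k44 k40 3 5))))))] .n) (.c
  k215 (.q k247 [(.s k166 k4 12 (.s k243 k251 1 (.s k81 k162 12 (.d k89 k93 k12 1 14)))), (.s k166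
  k4 12 (.s k182 k134 3 (.s k117 k52 8 (.s k48 k186 10 (.s k16 k32 3 (.s k154 k223 10 (.d k101 k69
  k207 3 14)))))))] (.c k4 (.l (.s k243 k251 1 (.s k81 k162 12 (.s k89 k93 1 (.s k211 k28 10 (.s
  k195 k227 3 (.s k65 k130 8 (.d k105 k125 k60 5 14)))))))) (.c k166 (.f k243 k251 1 (.q k89 [(.d
  k81 k162 k93 12 1), (.s k211 k28 10 (.s k195 k227 3 (.s k65 k130 8 (.d k105 k125 k60 5 14))))] (.c
  k162 (.q k174 [(.d k93 k81 k12 1 12), (.s k211 k28 10 (.s k195 k227 3 (.s k65 k130 8 (.d k105 k125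
  k60 5 14))))] .n) (.c k174 (.l (.s k162 k81 12 (.s k211 k28 10 (.s k195 k227 3 (.s k65 k130 8 (.d
  k105 k125 k60 5 14)))))) .n)))) .n))) (.c k235 (.l (.s k20 k215 8 (.s k60 k40 5 (.s k105 k195 14
  (.d k125 k65 k190 5 8))))) .n))))))))))))

def t1_168 : T TT 256 :=
  (.f k170 k255 14 (.q k192 [(.s k128 k64 7 (.s k149 k191 6 (.s k63 k106 14 (.d k21 k42 k213 6
  7))))] (.c k21 (.f k128 k64 7 (.q k145 [(.s k51 k98 12 (.s k17 k34 4 (.s k81 k209 7 (.d k162 k179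
  k243 4 12)))), (.s k149 k191 6 (.s k153 k157 1 (.s k17 k221 9 (.d k51 k34 k98 4 12)))), (.s k149
  k191 6 (.s k153 k157 1 (.s k17 k221 9 (.s k81 k209 7 (.d k162 k179 k243 4 12)))))] (.c k17 (.l (.s
  k98 k51 12 (.s k162 k179 4 (.s k226 k34 7 (.d k243 k209 k81 4 12))))) (.c k41 (.q k61 [(.s k51 k98
  12 (.s k17 k34 4 (.s k81 k209 7 (.d k162 k179 k243 4 12)))), (.s k149 k191 6 (.s k63 k106 14 (.s
  k60 k62 0 (.s k40 k20 5 (.d k105 k235 k193 8 13)))))] .n) (.c k61 (.q k41 [(.s k51 k98 12 (.s k17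
  k34 4 (.s k81 k209 7 (.d k162 k179 k243 4 12)))), (.s k149 k191 6 (.s k153 k157 1 (.s k17 k221 9
  (.d k51 k34 k98 4 12)))), (.s k149 k191 6 (.s k153 k157 1 (.s k17 k221 9 (.s k81 k209 7 (.d k162
  k179 k243 4 12)))))] (.c k17 (.l (.s k98 k51 12 (.s k162 k179 4 (.s k226 k34 7 (.d k243 k209 k81 4
  12))))) .n)) .n))))) (.c k42 (.q k4 [(.s k166 k247 12 (.s k162 k174 1 (.s k243 k81 12 (.d k12 k8
  k89 1 14)))), (.s k12 k8 1 (.s k128 k64 7 (.s k132 k72 9 (.s k68 k196 7 (.d k136 k140 k204 1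
  9))))), (.s k64 k128 7 (.s k106 k127 6 (.s k166 k247 12 (.s k226 k46 9 (.s k243 k209 4 (.d k162
  k174 k81 1 12))))))] .n) (.c k63 (.f k128 k64 7 (.f k191 k149 6 (.q k4 [(.s k12 k8 1 (.s k166 k247
  12 (.s k162 k174 1 (.d k243 k81 k89 12 14)))), (.s k12 k8 1 (.s k132 k72 9 (.s k68 k196 7 (.d k136
  k140 k204 1 9)))), (.s k166 k247 12 (.s k174 k162 1 (.s k140 k157 4 (.s k136 k132 1 (.d k153 k187
  k179 4 6)))))] .n))) (.c k64 (.q k5 [(.s k15 k10 2 (.s k165 k245 11 (.s k160 k175 2 (.d k240 k80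
  k90 11 14)))), (.s k15 k10 2 (.s k133 k74 10 (.s k69 k197 7 (.s k101 k117 3 (.s k32 k239 10 (.s
  k48 k16 3 (.d k207 k138 k154 10 14)))))))] (.c k10 (.l (.s k165 k245 11 (.s k160 k175 2 (.s k240
  k80 11 (.s k224 k208 3 (.s k106 k47 10 (.s k42 k234 7 (.d k63 k21 k149 6 14)))))))) (.c k15 (.f
  k165 k245 11 (.q k240 [(.d k160 k175 k80 2 11), (.s k224 k208 3 (.s k106 k47 10 (.s k42 k234 7 (.d
  k63 k21 k149 6 14))))] (.c k95 (.l (.s k175 k160 2 (.s k224 k208 3 (.s k106 k47 10 (.s k42 k234 7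
  (.d k63 k21 k149 6 14)))))) (.c k175 (.q k95 [(.d k80 k90 k160 2 11), (.s k224 k208 3 (.s k106 k47
  10 (.s k42 k234 7 (.d k63 k21 k149 6 14))))] .n) .n)))) .n))) (.c k106 (.q k4 [(.s k12 k8 1 (.s
  k166 k247 12 (.s k162 k174 1 (.d k243 k81 k89 12 14)))), (.s k128 k64 7 (.s k149 k191 6 (.s k166
  k247 12 (.s k132 k183 4 (.s k68 k196 7 (.d k136 k140 k204 1 9)))))), (.s k12 k8 1 (.s k128 k64 7
  (.s k132 k72 9 (.s k68 k196 7 (.d k136 k140 k204 1 9)))))] .n) (.c k127 (.l (.s k128 k64 7 (.s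
  k149 k191 6 (.s k63 k106 14 (.d k21 k42 k213 6 7))))) (.c k128 (.q k5 [(.s k15 k10 2 (.s k165 k245
  11 (.s k160 k175 2 (.d k240 k80 k90 11 14)))), (.s k15 k10 2 (.s k133 k74 10 (.s k69 k197 7 (.s
  k101 k117 3 (.s k32 k239 10 (.s k48 k16 3 (.d k207 k138 k154 10 14)))))))] (.c k10 (.l (.s k165
  k245 11 (.s k160 k175 2 (.s k240 k80 11 (.s k224 k208 3 (.s k106 k47 10 (.s k42 k234 7 (.d k63 k21
  k149 6 14)))))))) (.c k15 (.q k4 [(.s k12 k8 1 (.s k166 k247 12 (.s k162 k174 1 (.d k243 k81 k89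
  12 14)))), (.s k7 k6 0 (.s k165 k245 11 (.s k86 k244 12 (.s k87 k84 0 (.d k247 k167 k166 11
  12))))), (.s k7 k6 0 (.s k12 k8 1 (.s k132 k72 9 (.s k196 k68 7 (.s k133 k70 8 (.s k69 k197 7 (.d
  k134 k135 k199 0 8)))))))] (.c k95 (.q k175 [(.d k165 k160 k245 2 11), (.s k12 k8 1 (.s k166 k247
  12 (.s k162 k174 1 (.d k243 k81 k89 12 14))))] (.c k148 (.q k188 [(.d k165 k160 k245 2 11), (.s
  k12 k8 1 (.s k166 k247 12 (.s k162 k174 1 (.d k243 k81 k89 12 14))))] .n) (.c k188 (.q k148 [(.d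
  k165 k160 k245 2 11), (.s k12 k8 1 (.s k166 k247 12 (.s k162 k174 1 (.d k243 k81 k89 12 14))))]
  .n) .n))) (.c k148 (.q k188 [(.s k12 k8 1 (.s k166 k247 12 (.s k162 k174 1 (.d k243 k81 k89 12
  14)))), (.s k7 k6 0 (.s k165 k245 11 (.s k86 k244 12 (.s k87 k84 0 (.d k247 k167 k166 11 12))))),
  (.s k7 k6 0 (.s k12 k8 1 (.s k132 k72 9 (.s k196 k68 7 (.s k133 k70 8 (.s k69 k197 7 (.d k134 k135
  k199 0 8)))))))] (.c k95 (.q k175 [(.d k165 k160 k245 2 11), (.s k12 k8 1 (.s k166 k247 12 (.s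
  k162 k174 1 (.d k243 k81 k89 12 14))))] .n) (.c k175 (.q k95 [(.s k12 k8 1 (.s k166 k247 12 (.s
  k243 k89 14 (.d k162 k174 k81 1 12)))), (.s k6 k7 0 (.s k90 k80 2 (.s k10 k250 11 (.s k14 k2 1 (.d
  k166 k247 k242 12 13)))))] (.c k166 (.l (.s k7 k6 0 (.s k8 k12 1 (.s k89 k251 12 (.s k93 k81 1 (.s
  k92 k94 0 (.s k86 k83 2 (.d k165 k245 k244 11 12)))))))) (.c k247 (.l (.s k7 k6 0 (.s k12 k8 1 (.s
  k80 k90 2 (.s k165 k245 11 (.s k240 k160 11 (.s k244 k86 12 (.d k164 k88 k84 13 11)))))))) .n)))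
  .n))) (.c k175 (.q k95 [(.s k12 k8 1 (.s k166 k247 12 (.s k243 k89 14 (.d k162 k174 k81 1 12)))),
  (.s k6 k7 0 (.s k90 k80 2 (.s k10 k250 11 (.s k14 k2 1 (.d k166 k247 k242 12 13)))))] (.c k148 (.q
  k188 [(.s k12 k8 1 (.s k166 k247 12 (.s k243 k89 14 (.d k162 k174 k81 1 12)))), (.s k6 k7 0 (.s
  k90 k80 2 (.s k10 k250 11 (.s k14 k2 1 (.d k166 k247 k242 12 13)))))] (.c k166 (.l (.s k7 k6 0 (.s
  k8 k12 1 (.s k89 k251 12 (.s k93 k81 1 (.s k92 k94 0 (.s k86 k83 2 (.d k165 k245 k244 11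
  12)))))))) (.c k247 (.l (.s k7 k6 0 (.s k12 k8 1 (.s k80 k90 2 (.s k165 k245 11 (.s k240 k160 11
  (.s k244 k86 12 (.d k164 k88 k84 13 11)))))))) .n))) (.c k166 (.l (.s k7 k6 0 (.s k8 k12 1 (.s k89
  k251 12 (.s k93 k81 1 (.s k92 k94 0 (.s k86 k83 2 (.d k165 k245 k244 11 12)))))))) (.c k188 (.q
  k148 [(.s k12 k8 1 (.s k166 k247 12 (.s k243 k89 14 (.d k162 k174 k81 1 12)))), (.s k6 k7 0 (.s
  k90 k80 2 (.s k10 k250 11 (.s k14 k2 1 (.d k166 k247 k242 12 13))))), (.s k12 k8 1 (.s k80 k90 2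
  (.s k132 k72 9 (.s k164 k180 3 (.d k240 k88 k160 13 11)))))] .n) (.c k247 (.l (.s k7 k6 0 (.s k12
  k8 1 (.s k80 k90 2 (.s k165 k245 11 (.s k240 k160 11 (.s k244 k86 12 (.d k164 k88 k84 13
  11)))))))) .n))))) (.c k188 (.q k148 [(.s k12 k8 1 (.s k166 k247 12 (.s k162 k174 1 (.d k243 k81
  k89 12 14)))), (.s k60 k104 13 (.s k40 k20 5 (.s k105 k235 8 (.s k65 k125 5 (.d k195 k130 k150 8
  14)))))] (.c k95 (.q k175 [(.d k165 k160 k245 2 11), (.s k12 k8 1 (.s k166 k247 12 (.s k162 k174 1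
  (.d k243 k81 k89 12 14))))] .n) (.c k175 (.q k95 [(.s k12 k8 1 (.s k166 k247 12 (.s k243 k89 14
  (.d k162 k174 k81 1 12)))), (.s k6 k7 0 (.s k90 k80 2 (.s k10 k250 11 (.s k14 k2 1 (.d k166 k247
  k242 12 13))))), (.s k12 k8 1 (.s k80 k90 2 (.s k132 k72 9 (.s k164 k180 3 (.d k240 k88 k160 13
  11)))))] .n) .n))) .n))))) (.c k148 (.q k188 [(.s k15 k10 2 (.s k165 k245 11 (.s k160 k175 2 (.d
  k240 k80 k90 11 14)))), (.s k15 k10 2 (.s k133 k74 10 (.s k69 k197 7 (.s k101 k117 3 (.s k32 k239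
  10 (.s k48 k16 3 (.d k207 k138 k154 10 14)))))))] (.c k10 (.l (.s k165 k245 11 (.s k160 k175 2 (.s
  k240 k80 11 (.s k224 k208 3 (.s k106 k47 10 (.s k42 k234 7 (.d k63 k21 k149 6 14)))))))) (.c k15
  (.q k4 [(.s k12 k8 1 (.s k166 k247 12 (.s k162 k174 1 (.d k243 k81 k89 12 14)))), (.s k7 k6 0 (.s
  k165 k245 11 (.s k86 k244 12 (.s k87 k84 0 (.d k247 k167 k166 11 12))))), (.s k7 k6 0 (.s k12 k8 1
  (.s k132 k72 9 (.s k196 k68 7 (.s k133 k70 8 (.s k69 k197 7 (.d k134 k135 k199 0 8)))))))] (.c k95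
  (.q k175 [(.d k165 k160 k245 2 11), (.s k12 k8 1 (.s k166 k247 12 (.s k162 k174 1 (.d k243 k81 k89
  12 14))))] .n) (.c k175 (.q k95 [(.s k12 k8 1 (.s k166 k247 12 (.s k243 k89 14 (.d k162 k174 k81 1
  12)))), (.s k6 k7 0 (.s k90 k80 2 (.s k10 k250 11 (.s k14 k2 1 (.d k166 k247 k242 12 13)))))] (.c
  k166 (.l (.s k7 k6 0 (.s k8 k12 1 (.s k89 k251 12 (.s k93 k81 1 (.s k92 k94 0 (.s k86 k83 2 (.d
  k165 k245 k244 11 12)))))))) (.c k247 (.l (.s k7 k6 0 (.s k12 k8 1 (.s k80 k90 2 (.s k165 k245 11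
  (.s k240 k160 11 (.s k244 k86 12 (.d k164 k88 k84 13 11)))))))) .n))) .n))) .n))) (.c k188 (.q
  k148 [(.s k15 k10 2 (.s k165 k245 11 (.s k160 k175 2 (.d k240 k80 k90 11 14)))), (.s k60 k104 13
  (.s k40 k20 5 (.s k105 k235 8 (.s k65 k125 5 (.d k195 k130 k150 8 14)))))] .n) .n))))) (.c k149
  (.q k4 [(.s k12 k8 1 (.s k166 k247 12 (.s k162 k174 1 (.d k243 k81 k89 12 14)))), (.s k12 k8 1 (.s
  k128 k64 7 (.s k132 k72 9 (.s k68 k196 7 (.d k136 k140 k204 1 9))))), (.s k64 k128 7 (.s k106 k127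
  6 (.s k166 k247 12 (.s k226 k46 9 (.s k243 k209 4 (.d k162 k174 k81 1 12))))))] .n) (.c k191 (.l
  (.s k64 k128 7 (.s k106 k127 6 (.s k63 k149 14 (.d k42 k21 k234 6 7))))) (.c k213 (.l (.s k64 k128
  7 (.s k106 k127 6 (.s k42 k234 7 (.d k63 k21 k149 6 14))))) .n))))))))))))

def t1_169 : T TT 256 :=
  (.f k170 k255 14 (.q k12 [(.s k4 k8 1 (.s k166 k247 12 (.s k162 k174 1 (.d k243 k81 k89 12 14))))]
  (.c k4 (.q k128 [(.s k149 k191 6 (.s k21 k213 7 (.s k63 k42 6 (.d k192 k64 k106 7 14)))), (.s k192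
  k64 7 (.s k132 k72 9 (.s k136 k140 1 (.s k153 k187 4 (.s k17 k221 9 (.s k51 k34 4 (.d k204 k68
  k102 9 14)))))))] (.c k64 (.l (.s k149 k191 6 (.s k21 k213 7 (.s k63 k42 6 (.s k29 k46 4 (.s k89
  k209 9 (.s k81 k93 1 (.d k243 k162 k166 12 14)))))))) (.c k192 (.f k149 k191 6 (.q k63 [(.d k21
  k213 k42 7 6), (.s k29 k46 4 (.s k89 k209 9 (.s k81 k93 1 (.d k243 k162 k166 12 14))))] (.c k213
  (.q k234 [(.d k42 k21 k106 6 7), (.s k29 k46 4 (.s k89 k209 9 (.s k81 k93 1 (.d k243 k162 k166 12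
  14))))] .n) (.c k234 (.l (.s k213 k21 7 (.s k29 k46 4 (.s k89 k209 9 (.s k81 k93 1 (.d k243 k162
  k166 12 14)))))) .n)))) .n))) (.c k8 (.q k138 [(.s k154 k186 3 (.s k16 k223 10 (.s k48 k32 3 (.d
  k207 k69 k101 10 14)))), (.s k207 k69 10 (.s k142 k77 8 (.s k130 k134 1 (.s k150 k190 5 (.s k20
  k215 8 (.s k60 k40 5 (.d k195 k65 k105 8 14)))))))] (.c k69 (.l (.s k154 k186 3 (.s k16 k223 10
  (.s k48 k32 3 (.s k24 k36 5 (.s k89 k219 8 (.s k81 k93 1 (.d k243 k162 k166 12 14)))))))) (.c k207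
  (.f k154 k186 3 (.q k48 [(.d k16 k223 k32 10 3), (.s k24 k36 5 (.s k89 k219 8 (.s k81 k93 1 (.d
  k243 k162 k166 12 14))))] (.c k223 (.q k239 [(.d k32 k16 k101 3 10), (.s k24 k36 5 (.s k89 k219 8
  (.s k81 k93 1 (.d k243 k162 k166 12 14))))] .n) (.c k239 (.l (.s k223 k16 10 (.s k24 k36 5 (.s k89
  k219 8 (.s k81 k93 1 (.d k243 k162 k166 12 14)))))) .n)))) .n))) (.c k81 (.f k4 k8 1 (.q k165 [(.s
  k5 k245 11 (.s k15 k10 2 (.s k160 k175 2 (.d k240 k80 k90 11 14)))), (.s k166 k247 12 (.s k164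
  k167 0 (.s k240 k88 13 (.d k160 k175 k80 2 11)))), (.s k5 k245 11 (.s k7 k6 0 (.s k86 k244 12 (.s
  k87 k84 0 (.d k247 k167 k166 11 12)))))] (.c k161 (.q k241 [(.s k166 k247 12 (.d k89 k243 k13 14
  13)), (.s k5 k245 11 (.s k15 k10 2 (.s k160 k175 2 (.d k240 k80 k90 11 14))))] .n) (.c k240 (.l
  (.s k160 k175 2 (.s k166 k247 12 (.s k164 k167 0 (.s k84 k244 11 (.d k168 k252 k172 13 1)))))) (.c
  k241 (.q k161 [(.s k166 k247 12 (.s k162 k174 1 (.d k160 k163 k175 0 2))), (.s k5 k245 11 (.s k6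
  k7 0 (.s k3 k9 2 (.s k240 k82 12 (.d k15 k10 k90 2 14)))))] .n) .n))))) (.c k89 (.f k4 k8 1 (.q k5
  [(.s k15 k10 2 (.s k165 k245 11 (.s k160 k175 2 (.d k240 k80 k90 11 14)))), (.s k7 k6 0 (.s k165
  k245 11 (.s k86 k244 12 (.s k87 k84 0 (.d k247 k167 k166 11 12))))), (.s k6 k7 0 (.s k10 k15 2 (.s
  k2 k14 1 (.s k86 k254 13 (.d k166 k246 k247 11 12)))))] (.c k9 (.q k249 [(.s k165 k245 11 (.s k160
  k175 2 (.s k240 k80 11 (.d k15 k10 k90 2 14)))), (.s k6 k7 0 (.s k166 k247 12 (.s k162 k174 1 (.s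
  k243 k81 12 (.d k246 k252 k86 2 11)))))] (.c k10 (.q k11 [(.s k7 k6 0 (.s k165 k245 11 (.s k160
  k175 2 (.s k240 k80 11 (.d k15 k3 k90 1 14))))), (.s k6 k7 0 (.s k166 k247 12 (.s k162 k174 1 (.s
  k243 k81 12 (.d k246 k252 k86 2 11))))), (.s k165 k245 11 (.s k160 k175 2 (.s k166 k247 12 (.s
  k240 k80 11 (.d k164 k167 k88 0 13)))))] .n) (.c k11 (.l (.s k10 k15 2 (.s k90 k250 11 (.s k166
  k247 12 (.s k14 k242 13 (.d k6 k7 k2 0 1)))))) .n))) (.c k249 (.q k9 [(.d k6 k7 k3 0 2), (.s k15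
  k10 2 (.s k165 k245 11 (.s k160 k175 2 (.d k240 k80 k90 11 14))))] .n) .n)))) (.c k162 (.q k5 [(.s
  k15 k10 2 (.s k165 k245 11 (.s k160 k175 2 (.d k240 k80 k90 11 14)))), (.s k4 k8 1 (.s k6 k7 0 (.s
  k10 k15 2 (.s k2 k14 1 (.s k86 k254 13 (.d k166 k246 k247 11 12)))))), (.s k4 k8 1 (.s k7 k6 0 (.s
  k165 k245 11 (.s k86 k244 12 (.s k87 k84 0 (.d k247 k167 k166 11 12))))))] .n) (.c k166 (.f k4 k8
  1 (.q k68 [(.s k132 k196 7 (.s k72 k192 9 (.s k76 k64 1 (.d k204 k140 k136 7 9)))), (.s k102 k119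
  4 (.s k34 k238 9 (.s k51 k17 4 (.s k38 k25 6 (.s k21 k55 4 (.d k42 k46 k63 1 6))))))] (.c k163 (.q
  k172 [(.s k132 k196 7 (.s k72 k192 9 (.s k76 k64 1 (.d k204 k140 k136 7 9)))), (.s k102 k119 4 (.s
  k34 k238 9 (.s k51 k17 4 (.s k38 k25 6 (.s k21 k55 4 (.d k42 k46 k63 1 6))))))] (.c k204 (.l (.s
  k132 k196 7 (.s k192 k72 9 (.s k64 k128 7 (.s k106 k127 6 (.s k42 k234 7 (.d k63 k21 k149 6
  14))))))) .n)) (.c k172 (.q k163 [(.s k132 k196 7 (.s k72 k192 9 (.s k76 k64 1 (.d k204 k140 k136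
  7 9)))), (.s k102 k119 4 (.s k34 k238 9 (.s k51 k17 4 (.s k38 k25 6 (.s k21 k55 4 (.d k42 k46 k63
  1 6))))))] (.c k204 (.l (.s k132 k196 7 (.s k192 k72 9 (.s k64 k128 7 (.s k106 k127 6 (.s k42 k234
  7 (.d k63 k21 k149 6 14))))))) .n)) (.c k204 (.l (.s k132 k196 7 (.s k192 k72 9 (.s k64 k128 7 (.s
  k106 k127 6 (.s k42 k234 7 (.d k63 k21 k149 6 14))))))) .n))))) (.c k174 (.l (.s k8 k4 1 (.s k89
  k251 12 (.s k81 k93 1 (.d k243 k162 k166 12 14))))) (.c k243 (.f k4 k8 1 (.q k68 [(.s k102 k119 4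
  (.s k34 k238 9 (.s k51 k17 4 (.d k204 k136 k153 9 14)))), (.s k132 k196 7 (.s k72 k192 9 (.s k76
  k64 1 (.d k204 k140 k136 7 9)))), (.s k102 k119 4 (.s k196 k132 7 (.s k55 k149 12 (.s k38 k21 4
  (.d k166 k247 k230 12 7)))))] (.c k247 (.q k251 [(.s k102 k119 4 (.s k34 k238 9 (.s k51 k17 4 (.d
  k204 k136 k153 9 14)))), (.s k132 k196 7 (.s k72 k192 9 (.s k76 k64 1 (.d k204 k140 k136 7 9)))),
  (.s k102 k119 4 (.s k196 k132 7 (.s k55 k149 12 (.s k38 k21 4 (.s k51 k25 6 (.d k34 k17 k238 4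
  9))))))] .n) (.c k251 (.l (.s k247 k166 12 (.s k102 k119 4 (.s k34 k238 9 (.s k51 k17 4 (.d k204
  k136 k153 9 14)))))) .n)))) (.c k247 (.l (.s k8 k4 1 (.s k89 k251 12 (.s k243 k166 14 (.d k81 k93
  k162 1 12))))) (.c k251 (.l (.s k4 k8 1 (.s k166 k247 12 (.s k243 k89 14 (.d k162 k174 k81 1
  12))))) .n))))))))))))

def t1_171 : T TT 256 :=
  (.q k89 [(.s k81 k93 1 (.s k243 k162 12 (.s k12 k166 14 (.s k8 k4 1 (.d k170 k251 k255 12 14)))))]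
  (.c k4 (.q k5 [(.s k15 k10 2 (.s k165 k245 11 (.s k90 k240 14 (.s k95 k80 2 (.d k255 k175 k170 11
  14))))), (.s k15 k10 2 (.s k81 k93 1 (.s k165 k245 11 (.s k13 k241 13 (.s k12 k14 0 (.d k243 k162
  k166 12 14)))))), (.s k81 k93 1 (.s k165 k245 11 (.s k170 k255 14 (.s k241 k13 13 (.s k243 k162 12
  (.s k240 k242 0 (.d k160 k175 k80 2 11)))))))] (.c k165 (.l (.s k10 k15 2 (.s k170 k255 14 (.s k8
  k251 12 (.s k11 k9 0 (.s k90 k250 11 (.s k88 k91 0 (.d k248 k168 k169 11 12)))))))) (.c k245 (.l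
  (.s k15 k10 2 (.s k81 k93 1 (.s k243 k162 12 (.s k91 k167 13 (.s k90 k88 0 (.s k80 k95 2 (.d k240
  k160 k165 11 14)))))))) .n))) (.c k8 (.l (.s k81 k93 1 (.s k243 k162 12 (.s k166 k12 14 (.s k247
  k4 12 (.d k255 k251 k170 1 14)))))) (.c k12 (.q k16 [(.s k81 k93 1 (.s k154 k223 10 (.s k24 k219 8
  (.s k28 k20 1 (.d k211 k146 k150 8 10))))), (.s k48 k32 3 (.s k154 k223 10 (.s k101 k207 14 (.s
  k117 k69 3 (.d k255 k186 k170 10 14))))), (.s k48 k32 3 (.s k81 k93 1 (.s k146 k211 8 (.s k97 k195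
  12 (.s k113 k65 3 (.d k243 k178 k162 8 12))))))] (.c k255 (.l (.s k93 k81 1 (.s k223 k154 10 (.s
  k28 k158 8 (.s k20 k24 1 (.d k150 k215 k211 8 10)))))) .n)) (.c k81 (.q k154 [(.s k16 k223 10 (.s
  k48 k32 3 (.s k101 k207 14 (.s k117 k69 3 (.d k255 k186 k170 10 14))))), (.s k16 k223 10 (.s k24
  k219 8 (.s k48 k32 3 (.s k12 k36 5 (.s k4 k8 1 (.d k166 k247 k243 12 14)))))), (.s k24 k219 8 (.s
  k170 k255 14 (.s k8 k251 12 (.s k56 k40 3 (.s k138 k186 3 (.d k203 k73 k105 8 12))))))] (.c k48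
  (.l (.s k16 k223 10 (.s k24 k219 8 (.s k20 k28 1 (.s k40 k60 5 (.s k170 k255 14 (.d k8 k56 k251 3
  12))))))) (.c k161 (.q k241 [(.s k16 k223 10 (.s k48 k32 3 (.s k101 k207 14 (.s k117 k69 3 (.d
  k255 k186 k170 10 14))))), (.s k16 k223 10 (.s k24 k219 8 (.s k48 k32 3 (.s k12 k36 5 (.s k4 k8 1
  (.d k166 k247 k243 12 14)))))), (.s k24 k219 8 (.s k170 k255 14 (.s k8 k251 12 (.s k56 k40 3 (.s
  k138 k186 3 (.d k203 k73 k105 8 12))))))] (.c k48 (.l (.s k16 k223 10 (.s k24 k219 8 (.s k20 k28 1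
  (.s k40 k60 5 (.s k170 k255 14 (.d k8 k56 k251 3 12))))))) .n)) (.c k241 (.q k161 [(.s k16 k223 10
  (.s k48 k32 3 (.s k101 k207 14 (.s k117 k69 3 (.d k255 k186 k170 10 14))))), (.s k16 k223 10 (.s
  k24 k219 8 (.s k48 k32 3 (.s k12 k36 5 (.s k4 k8 1 (.d k166 k247 k243 12 14)))))), (.s k24 k219 8
  (.s k170 k255 14 (.s k8 k251 12 (.s k56 k40 3 (.s k138 k186 3 (.d k203 k73 k105 8 12))))))] (.c
  k48 (.l (.s k16 k223 10 (.s k24 k219 8 (.s k20 k28 1 (.s k40 k60 5 (.s k170 k255 14 (.d k8 k56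
  k251 3 12))))))) .n)) .n)))) (.c k93 (.q k15 [(.s k5 k10 2 (.s k165 k245 11 (.s k90 k240 14 (.s
  k95 k80 2 (.d k255 k175 k170 11 14))))), (.s k5 k10 2 (.s k165 k245 11 (.s k13 k241 13 (.s k12 k14
  0 (.s k4 k8 1 (.d k166 k247 k243 12 14)))))), (.s k170 k255 14 (.s k8 k251 12 (.s k12 k4 1 (.s k13
  k14 0 (.s k165 k241 13 (.s k160 k175 2 (.d k240 k80 k90 11 14)))))))] (.c k165 (.l (.s k10 k5 2
  (.s k170 k255 14 (.s k8 k251 12 (.s k12 k4 1 (.s k90 k250 11 (.s k91 k88 0 (.d k243 k167 k166 13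
  14)))))))) .n)) (.c k162 (.l (.s k93 k81 1 (.s k255 k170 14 (.s k12 k174 12 (.s k166 k243 14 (.d
  k4 k8 k247 1 12)))))) (.c k166 (.q k5 [(.s k15 k10 2 (.s k165 k245 11 (.s k90 k240 14 (.s k95 k80
  2 (.d k255 k175 k170 11 14))))), (.s k15 k10 2 (.s k165 k245 11 (.s k13 k241 13 (.s k12 k14 0 (.s
  k8 k4 1 (.d k170 k251 k255 12 14)))))), (.s k81 k93 1 (.s k165 k245 11 (.s k170 k255 14 (.s k160
  k175 2 (.s k240 k80 11 (.s k241 k13 13 (.d k243 k242 k162 0 12))))))), (.s k15 k10 2 (.s k81 k93 1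
  (.s k243 k162 12 (.s k91 k167 13 (.s k90 k88 0 (.s k80 k95 2 (.d k240 k165 k160 14 11)))))))] (.c
  k15 (.l (.s k81 k93 1 (.s k165 k245 11 (.s k170 k255 14 (.s k241 k13 13 (.s k243 k162 12 (.s k240
  k242 0 (.d k160 k175 k80 2 11)))))))) (.c k165 (.l (.s k10 k15 2 (.s k170 k255 14 (.s k8 k251 12
  (.s k11 k9 0 (.s k90 k250 11 (.s k88 k91 0 (.d k248 k168 k169 11 12)))))))) (.c k170 (.l (.s k15
  k10 2 (.s k81 k93 1 (.s k165 k245 11 (.s k90 k240 14 (.s k91 k88 0 (.d k243 k162 k167 12 13)))))))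
  .n)))) (.c k170 (.f k81 k93 1 (.f k162 k243 12 (.q k17 [(.s k145 k209 7 (.s k128 k179 4 (.s k192
  k64 7 (.d k51 k34 k98 4 12)))), (.s k153 k221 9 (.s k25 k217 7 (.s k29 k21 1 (.d k209 k145 k149 7
  9)))), (.s k51 k34 4 (.s k153 k221 9 (.s k102 k204 14 (.s k115 k76 6 (.s k64 k98 4 (.s k119 k68 4
  (.d k127 k123 k106 1 6)))))))] (.c k168 (.q k169 [(.s k145 k209 7 (.s k128 k179 4 (.s k192 k64 7
  (.d k51 k34 k98 4 12)))), (.s k9 k249 11 (.s k153 k221 9 (.s k137 k185 3 (.s k201 k73 7 (.s k57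
  k105 11 (.d k25 k41 k217 3 7))))))] .n) (.c k169 (.q k168 [(.s k145 k209 7 (.s k128 k179 4 (.s
  k192 k64 7 (.d k51 k34 k98 4 12)))), (.s k153 k221 9 (.s k25 k217 7 (.s k29 k21 1 (.d k209 k145
  k149 7 9)))), (.s k51 k34 4 (.s k153 k221 9 (.s k102 k204 14 (.s k115 k76 6 (.s k64 k98 4 (.s k119
  k68 4 (.d k127 k123 k106 1 6)))))))] .n) .n))))) (.c k174 (.l (.s k81 k93 1 (.s k243 k162 12 (.s
  k12 k166 14 (.s k170 k255 14 (.d k8 k4 k251 1 12)))))) (.c k243 (.q k20 [(.s k60 k40 5 (.s k150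
  k215 8 (.s k105 k195 14 (.s k125 k65 5 (.d k255 k190 k170 8 14))))), (.s k93 k81 1 (.s k150 k215 8
  (.s k28 k211 10 (.s k16 k24 1 (.d k223 k158 k154 8 10))))), (.s k60 k40 5 (.s k93 k81 1 (.s k255
  k170 14 (.s k12 k174 12 (.s k28 k44 3 (.s k16 k24 1 (.d k223 k158 k154 8 10)))))))] .n) (.c k251
  (.l (.s k93 k81 1 (.s k255 k170 14 (.s k12 k174 12 (.s k4 k8 1 (.d k166 k247 k243 12 14)))))) (.c
  k255 (.q k153 [(.s k81 k93 1 (.s k217 k25 7 (.s k243 k162 12 (.s k204 k230 6 (.s k68 k136 9 (.d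
  k102 k119 k51 4 14)))))), (.s k93 k81 1 (.s k217 k25 7 (.s k221 k17 9 (.s k29 k157 7 (.d k209 k213
  k149 1 9))))), (.s k17 k221 9 (.s k51 k34 4 (.s k81 k93 1 (.s k243 k162 12 (.s k115 k179 7 (.d
  k102 k204 k76 14 6)))))), (.s k17 k221 9 (.s k25 k217 7 (.s k51 k34 4 (.s k12 k38 6 (.s k4 k8 1
  (.d k166 k247 k243 12 14))))))] (.c k3 (.q k87 [(.s k17 k221 9 (.s k25 k217 7 (.s k29 k21 1 (.s
  k209 k149 9 (.d k81 k93 k145 1 7))))), (.s k81 k93 1 (.s k86 k84 0 (.s k83 k92 2 (.s k80 k82 0 (.d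
  k95 k91 k90 1 2))))), (.s k17 k221 9 (.s k86 k84 0 (.s k19 k220 10 (.s k16 k18 0 (.d k223 k155
  k154 9 10)))))] .n) (.c k87 (.q k3 [(.s k81 k93 1 (.s k217 k25 7 (.s k243 k162 12 (.s k204 k230 6
  (.s k68 k136 9 (.d k102 k119 k51 4 14)))))), (.s k93 k81 1 (.s k217 k25 7 (.s k221 k17 9 (.s k29
  k157 7 (.d k209 k213 k149 1 9))))), (.s k17 k221 9 (.s k51 k34 4 (.s k81 k93 1 (.s k243 k162 12
  (.s k115 k179 7 (.d k102 k204 k76 14 6)))))), (.s k17 k221 9 (.s k25 k217 7 (.s k51 k34 4 (.s k12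
  k38 6 (.s k4 k8 1 (.d k166 k247 k243 12 14))))))] .n) .n))) .n)))))))))))))

def t1_172 : T TT 256 :=
  (.f k255 k170 14 (.q k102 [(.s k68 k119 4 (.s k204 k136 9 (.s k153 k51 14 (.d k221 k238 k17 4
  9))))] (.c k17 (.f k119 k68 4 (.f k51 k187 9 (.f k153 k204 14 (.q k49 [(.s k48 k50 0 (.s k101 k205
  13 (.d k117 k69 k186 3 10))), (.s k48 k50 0 (.s k117 k186 10 (.s k118 k116 0 (.d k185 k253 k252 9
  10)))), (.s k101 k205 13 (.s k69 k117 3 (.s k207 k138 10 (.d k103 k100 k155 0 13)))), (.s k48 k50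
  0 (.s k16 k32 3 (.s k154 k223 10 (.d k101 k205 k207 13 14))))] .n)))) (.c k51 (.q k4 [(.s k12 k8 1
  (.s k166 k247 12 (.s k89 k243 14 (.d k93 k81 k174 1 12)))), (.s k68 k119 4 (.s k166 k247 12 (.s
  k38 k230 7 (.s k55 k21 4 (.d k196 k132 k149 7 12))))), (.s k12 k8 1 (.s k68 k119 4 (.s k132 k196 7
  (.s k72 k192 9 (.s k76 k64 1 (.d k204 k140 k136 7 9))))))] .n) (.c k68 (.q k81 [(.s k89 k93 1 (.s
  k243 k162 12 (.s k247 k251 1 (.d k166 k4 k12 12 14)))), (.s k89 k93 1 (.s k115 k76 6 (.s k64 k98 4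
  (.s k192 k128 7 (.s k213 k234 6 (.s k149 k21 7 (.d k106 k127 k63 6 14)))))))] (.c k89 (.f k243
  k162 12 (.q k166 [(.d k247 k251 k4 1 12), (.s k230 k38 7 (.s k204 k217 6 (.s k153 k51 14 (.d k221
  k238 k17 4 9))))] (.c k8 (.l (.s k251 k247 1 (.s k230 k38 7 (.s k204 k217 6 (.s k153 k51 14 (.d
  k221 k238 k17 4 9)))))) (.c k251 (.q k8 [(.d k4 k12 k247 1 12), (.s k230 k38 7 (.s k204 k217 6 (.s
  k221 k238 4 (.d k153 k17 k51 9 14))))] .n) .n)))) (.c k93 (.l (.s k243 k162 12 (.s k247 k251 1 (.s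
  k166 k4 12 (.s k230 k38 7 (.s k204 k217 6 (.s k153 k51 14 (.d k221 k238 k17 4 9)))))))) .n))) (.c
  k119 (.q k81 [(.s k89 k93 1 (.s k243 k162 12 (.s k247 k251 1 (.d k166 k4 k12 12 14)))), (.s k89
  k93 1 (.s k115 k76 6 (.s k64 k98 4 (.s k192 k128 7 (.s k213 k234 6 (.s k149 k21 7 (.d k106 k127
  k63 6 14)))))))] (.c k89 (.f k243 k162 12 (.q k166 [(.d k247 k251 k4 1 12), (.s k230 k38 7 (.s
  k204 k217 6 (.s k153 k51 14 (.d k221 k238 k17 4 9))))] (.c k8 (.l (.s k251 k247 1 (.s k230 k38 7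
  (.s k204 k217 6 (.s k153 k51 14 (.d k221 k238 k17 4 9)))))) (.c k251 (.q k8 [(.d k4 k12 k247 1
  12), (.s k230 k38 7 (.s k204 k217 6 (.s k221 k238 4 (.d k153 k17 k51 9 14))))] .n) .n)))) (.c k93
  (.l (.s k243 k162 12 (.s k247 k251 1 (.s k166 k4 12 (.s k230 k38 7 (.s k204 k217 6 (.s k153 k51 14
  (.d k221 k238 k17 4 9)))))))) .n))) (.c k136 (.l (.s k119 k68 4 (.s k51 k187 9 (.s k153 k204 14
  (.d k17 k34 k221 4 9))))) (.c k153 (.f k68 k119 4 (.q k4 [(.s k12 k8 1 (.s k166 k247 12 (.s k89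
  k243 14 (.d k93 k81 k174 1 12)))), (.s k166 k247 12 (.s k38 k230 7 (.s k55 k21 4 (.d k196 k132
  k149 7 12)))), (.s k12 k8 1 (.s k132 k196 7 (.s k72 k192 9 (.s k76 k64 1 (.d k204 k136 k140 9
  7)))))] (.c k136 (.q k187 [(.s k166 k247 12 (.s k38 k230 7 (.s k55 k21 4 (.d k196 k132 k149 7
  12)))), (.s k12 k8 1 (.s k93 k174 12 (.s k89 k81 1 (.s k76 k115 6 (.s k127 k110 4 (.d k64 k72 k106
  1 6))))))] (.c k166 (.l (.s k12 k8 1 (.s k132 k196 7 (.s k72 k192 9 (.s k76 k64 1 (.s k89 k115 6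
  (.d k93 k81 k174 1 12))))))) .n)) (.c k187 (.l (.s k136 k204 9 (.s k12 k8 1 (.s k93 k174 12 (.s
  k89 k81 1 (.d k166 k247 k243 12 14)))))) .n)))) (.c k187 (.l (.s k68 k119 4 (.s k204 k136 9 (.s
  k153 k51 14 (.d k221 k238 k17 4 9))))) (.c k204 (.q k4 [(.s k12 k8 1 (.s k166 k247 12 (.s k89 k243
  14 (.d k93 k81 k174 1 12)))), (.s k12 k8 1 (.s k119 k68 4 (.s k51 k187 9 (.s k34 k17 4 (.s k38 k25
  6 (.s k21 k55 4 (.d k42 k46 k63 1 6))))))), (.s k68 k119 4 (.s k166 k247 12 (.s k38 k230 7 (.s k55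
  k21 4 (.d k196 k132 k149 7 12)))))] .n) (.c k221 (.q k3 [(.s k68 k119 4 (.s k87 k171 13 (.s k86
  k84 0 (.s k70 k118 3 (.d k204 k136 k137 9 10))))), (.s k87 k171 13 (.s k119 k68 4 (.s k51 k187 9
  (.s k19 k35 3 (.s k103 k71 3 (.d k155 k223 k207 9 13)))))), (.s k87 k171 13 (.s k86 k84 0 (.s k70
  k118 3 (.s k169 k252 14 (.s k35 k236 10 (.s k51 k19 3 (.d k204 k137 k153 10 14))))))), (.s k68
  k119 4 (.s k204 k136 9 (.s k70 k137 10 (.s k86 k118 3 (.s k153 k51 14 (.s k220 k19 10 (.d k252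
  k236 k169 3 14)))))))] (.c k70 (.l (.s k87 k171 13 (.s k86 k84 0 (.s k119 k68 4 (.s k51 k187 9 (.s
  k19 k35 3 (.d k153 k220 k204 10 14))))))) (.c k169 (.l (.s k68 k119 4 (.s k204 k136 9 (.s k70 k137
  10 (.s k86 k118 3 (.d k87 k84 k171 0 13)))))) .n))) (.c k238 (.l (.s k119 k68 4 (.s k51 k187 9 (.s
  k17 k34 4 (.d k153 k221 k204 9 14))))) .n))))))))))))

def t1_173 : T TT 256 :=
  (.f k255 k170 14 (.q k102 [(.s k68 k119 4 (.s k204 k136 9 (.s k153 k51 14 (.d k221 k238 k17 4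
  9))))] (.c k17 (.f k119 k68 4 (.f k51 k187 9 (.f k153 k204 14 (.q k49 [(.s k48 k50 0 (.s k101 k205
  13 (.d k117 k69 k186 3 10))), (.s k48 k50 0 (.s k117 k186 10 (.s k118 k116 0 (.d k185 k253 k252 9
  10)))), (.s k101 k205 13 (.s k69 k117 3 (.s k207 k138 10 (.d k103 k100 k155 0 13)))), (.s k48 k50
  0 (.s k16 k32 3 (.s k154 k223 10 (.d k101 k205 k207 13 14))))] .n)))) (.c k51 (.q k4 [(.s k12 k8 1
  (.s k166 k247 12 (.s k89 k243 14 (.d k93 k81 k174 1 12)))), (.s k68 k119 4 (.s k166 k247 12 (.s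
  k38 k230 7 (.s k55 k21 4 (.d k196 k132 k149 7 12))))), (.s k12 k8 1 (.s k68 k119 4 (.s k132 k196 7
  (.s k72 k192 9 (.s k76 k64 1 (.d k204 k140 k136 7 9))))))] .n) (.c k68 (.q k81 [(.s k89 k93 1 (.s
  k243 k162 12 (.s k166 k12 14 (.d k247 k251 k4 1 12)))), (.s k89 k93 1 (.s k115 k76 6 (.s k64 k98 4
  (.s k192 k128 7 (.s k213 k234 6 (.s k149 k21 7 (.d k106 k127 k63 6 14))))))), (.s k243 k162 12 (.s
  k247 k251 1 (.s k166 k4 12 (.s k230 k38 7 (.s k204 k217 6 (.s k153 k51 14 (.d k221 k238 k17 4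
  9)))))))] (.c k89 (.f k243 k162 12 (.q k166 [(.d k247 k251 k4 1 12), (.s k230 k38 7 (.s k204 k217
  6 (.s k153 k51 14 (.d k221 k238 k17 4 9))))] (.c k8 (.l (.s k251 k247 1 (.s k230 k38 7 (.s k204
  k217 6 (.s k153 k51 14 (.d k221 k238 k17 4 9)))))) (.c k251 (.q k8 [(.d k4 k12 k247 1 12), (.s
  k230 k38 7 (.s k204 k217 6 (.s k221 k238 4 (.d k153 k17 k51 9 14))))] .n) .n)))) .n)) (.c k119 (.q
  k247 [(.s k166 k4 12 (.s k243 k251 1 (.s k81 k162 12 (.d k89 k93 k12 1 14)))), (.s k166 k4 12 (.s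
  k230 k38 7 (.s k213 k196 4 (.s k192 k234 6 (.s k64 k128 7 (.s k106 k127 6 (.d k149 k21 k63 7
  14)))))))] (.c k4 (.l (.s k243 k251 1 (.s k81 k162 12 (.s k89 k93 1 (.s k115 k76 6 (.s k51 k179 7
  (.s k17 k34 4 (.d k153 k221 k204 9 14)))))))) (.c k166 (.f k243 k251 1 (.q k89 [(.d k81 k162 k93
  12 1), (.s k115 k76 6 (.s k51 k179 7 (.s k17 k34 4 (.d k153 k221 k204 9 14))))] (.c k162 (.q k174
  [(.d k93 k81 k12 1 12), (.s k115 k76 6 (.s k51 k179 7 (.s k17 k34 4 (.d k153 k221 k204 9 14))))]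
  .n) (.c k174 (.l (.s k162 k81 12 (.s k115 k76 6 (.s k51 k179 7 (.s k17 k34 4 (.d k153 k221 k204 9
  14)))))) .n)))) .n))) (.c k136 (.l (.s k119 k68 4 (.s k51 k187 9 (.s k153 k204 14 (.d k17 k34 k221
  4 9))))) (.c k153 (.f k68 k119 4 (.q k4 [(.s k12 k8 1 (.s k166 k247 12 (.s k89 k243 14 (.d k93 k81
  k174 1 12)))), (.s k166 k247 12 (.s k38 k230 7 (.s k55 k21 4 (.d k196 k132 k149 7 12)))), (.s k12
  k8 1 (.s k132 k196 7 (.s k72 k192 9 (.s k76 k64 1 (.d k204 k136 k140 9 7)))))] (.c k136 (.q k187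
  [(.s k166 k247 12 (.s k38 k230 7 (.s k55 k21 4 (.d k196 k132 k149 7 12)))), (.s k12 k8 1 (.s k93
  k174 12 (.s k89 k81 1 (.s k76 k115 6 (.s k127 k110 4 (.d k64 k72 k106 1 6))))))] (.c k166 (.l (.s
  k12 k8 1 (.s k132 k196 7 (.s k72 k192 9 (.s k76 k64 1 (.s k89 k115 6 (.d k93 k81 k174 1 12)))))))
  .n)) (.c k187 (.l (.s k136 k204 9 (.s k12 k8 1 (.s k93 k174 12 (.s k89 k81 1 (.d k166 k247 k243 12
  14)))))) .n)))) (.c k187 (.l (.s k68 k119 4 (.s k204 k136 9 (.s k153 k51 14 (.d k221 k238 k17 4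
  9))))) (.c k204 (.q k4 [(.s k12 k8 1 (.s k166 k247 12 (.s k89 k243 14 (.d k93 k81 k174 1 12)))),
  (.s k12 k8 1 (.s k119 k68 4 (.s k51 k187 9 (.s k34 k17 4 (.s k38 k25 6 (.s k21 k55 4 (.d k42 k46
  k63 1 6))))))), (.s k68 k119 4 (.s k166 k247 12 (.s k38 k230 7 (.s k55 k21 4 (.d k196 k132 k149 7
  12)))))] .n) (.c k221 (.q k3 [(.s k68 k119 4 (.s k87 k171 13 (.s k86 k84 0 (.s k70 k118 3 (.d k204
  k136 k137 9 10))))), (.s k87 k171 13 (.s k119 k68 4 (.s k51 k187 9 (.s k19 k35 3 (.s k103 k71 3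
  (.d k155 k223 k207 9 13)))))), (.s k87 k171 13 (.s k86 k84 0 (.s k70 k118 3 (.s k169 k252 14 (.s
  k35 k236 10 (.s k51 k19 3 (.d k204 k137 k153 10 14))))))), (.s k68 k119 4 (.s k204 k136 9 (.s k70
  k137 10 (.s k86 k118 3 (.s k153 k51 14 (.s k220 k19 10 (.d k252 k236 k169 3 14)))))))] (.c k70 (.l
  (.s k87 k171 13 (.s k86 k84 0 (.s k119 k68 4 (.s k51 k187 9 (.s k19 k35 3 (.d k153 k220 k204 10
  14))))))) (.c k169 (.l (.s k68 k119 4 (.s k204 k136 9 (.s k70 k137 10 (.s k86 k118 3 (.d k87 k84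
  k171 0 13)))))) .n))) (.c k238 (.l (.s k119 k68 4 (.s k51 k187 9 (.s k17 k34 4 (.d k153 k221 k204
  9 14))))) .n))))))))))))

def t1_174 : T TT 256 :=
  (.q k90 [(.s k80 k95 2 (.s k240 k160 11 (.s k165 k15 14 (.s k245 k5 11 (.d k255 k250 k170 2
  14))))), (.s k95 k80 2 (.s k255 k170 14 (.s k15 k175 11 (.s k165 k240 14 (.d k5 k10 k245 2
  11)))))] (.c k5 (.f k95 k80 2 (.f k255 k170 14 (.q k166 [(.s k4 k247 12 (.s k12 k8 1 (.s k14 k242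
  13 (.d k15 k13 k175 0 11)))), (.s k14 k242 13 (.s k15 k175 11 (.s k165 k240 14 (.s k167 k164 0 (.s
  k243 k91 13 (.d k12 k13 k89 0 14)))))), (.s k247 k4 12 (.s k243 k251 1 (.s k89 k12 14 (.d k81 k93
  k162 1 12))))] (.c k9 (.q k13 [(.s k14 k242 13 (.d k15 k12 k175 0 11)), (.s k247 k4 12 (.s k243
  k251 1 (.s k81 k162 12 (.d k89 k93 k12 1 14))))] (.c k12 (.l (.s k15 k175 11 (.s k165 k240 14 (.s
  k247 k4 12 (.s k243 k251 1 (.d k167 k164 k91 0 13)))))) .n)) (.c k12 (.l (.s k15 k175 11 (.s k165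
  k240 14 (.s k247 k4 12 (.s k243 k251 1 (.d k167 k164 k91 0 13)))))) (.c k13 (.q k9 [(.s k247 k4 12
  (.s k243 k251 1 (.s k81 k162 12 (.d k89 k93 k12 1 14)))), (.s k15 k175 11 (.s k165 k240 14 (.s
  k167 k164 0 (.s k243 k91 13 (.d k247 k251 k4 1 12))))), (.s k15 k175 11 (.s k165 k240 14 (.s k167
  k164 0 (.s k243 k91 13 (.s k81 k162 12 (.d k89 k12 k93 14 1))))))] (.c k12 (.l (.s k15 k175 11 (.s
  k165 k240 14 (.s k247 k4 12 (.s k243 k251 1 (.d k167 k164 k91 0 13)))))) (.c k243 (.q k3 [(.s k4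
  k247 12 (.d k12 k8 k6 1 2)), (.s k6 k12 2 (.s k86 k246 11 (.d k87 k84 k171 0 13))), (.s k15 k175
  11 (.s k7 k11 1 (.s k87 k171 13 (.d k247 k167 k4 11 12))))] .n) .n))) (.c k89 (.l (.s k4 k247 12
  (.s k14 k242 13 (.s k15 k175 11 (.d k12 k13 k8 0 1))))) .n))))))) (.c k15 (.q k16 [(.s k95 k80 2
  (.s k223 k154 10 (.s k31 k159 7 (.s k21 k26 2 (.d k149 k213 k208 7 10))))), (.s k48 k32 3 (.s k154
  k223 10 (.s k101 k207 14 (.s k117 k69 3 (.d k255 k186 k170 10 14))))), (.s k48 k32 3 (.s k80 k95 2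
  (.s k144 k208 7 (.s k96 k192 11 (.s k112 k64 3 (.d k240 k176 k160 7 11))))))] (.c k48 (.l (.s k80
  k95 2 (.s k154 k223 10 (.s k26 k218 7 (.s k31 k21 2 (.d k208 k144 k149 7 10)))))) .n)) (.c k80 (.q
  k16 [(.s k48 k32 3 (.s k154 k223 10 (.s k101 k207 14 (.s k117 k69 3 (.d k255 k186 k170 10 14))))),
  (.s k48 k32 3 (.s k154 k223 10 (.s k26 k218 7 (.s k15 k37 6 (.s k5 k10 2 (.d k165 k245 k240 11
  14)))))), (.s k154 k223 10 (.s k26 k218 7 (.s k21 k31 2 (.s k42 k63 6 (.s k170 k255 14 (.d k10 k58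
  k250 3 11)))))), (.s k48 k32 3 (.s k170 k255 14 (.s k10 k250 11 (.s k15 k5 2 (.s k26 k37 6 (.s k21
  k31 2 (.d k42 k58 k63 3 6)))))))] .n) (.c k95 (.q k16 [(.s k48 k32 3 (.s k154 k223 10 (.s k101
  k207 14 (.s k117 k69 3 (.d k255 k186 k170 10 14))))), (.s k48 k32 3 (.s k154 k223 10 (.s k26 k218
  7 (.s k15 k37 6 (.s k5 k10 2 (.d k165 k245 k240 11 14)))))), (.s k48 k32 3 (.s k170 k255 14 (.s
  k10 k250 11 (.s k15 k5 2 (.s k26 k37 6 (.s k42 k58 3 (.d k21 k31 k63 2 6))))))), (.s k154 k223 10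
  (.s k26 k218 7 (.s k170 k255 14 (.s k10 k250 11 (.s k42 k58 3 (.d k21 k31 k63 2 6))))))] (.c k31
  (.l (.s k48 k32 3 (.s k255 k170 14 (.s k117 k186 10 (.s k101 k69 3 (.d k154 k223 k207 10 14))))))
  .n)) (.c k160 (.l (.s k95 k80 2 (.s k255 k170 14 (.s k15 k175 11 (.s k165 k240 14 (.d k5 k10 k245
  2 11)))))) (.c k165 (.q k12 [(.s k8 k4 1 (.s k170 k255 14 (.s k89 k251 12 (.s k81 k93 1 (.d k243
  k162 k166 12 14))))), (.s k80 k95 2 (.s k240 k160 11 (.s k88 k164 13 (.s k89 k91 0 (.s k81 k93 1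
  (.d k243 k166 k162 14 12)))))), (.s k4 k8 1 (.s k80 k95 2 (.s k166 k247 12 (.s k89 k243 14 (.s k88
  k91 0 (.d k240 k160 k164 11 13))))))] (.c k89 (.l (.s k4 k8 1 (.s k166 k247 12 (.s k14 k242 13 (.s
  k170 k255 14 (.s k10 k250 11 (.d k15 k13 k5 0 2))))))) (.c k166 (.l (.s k8 k4 1 (.s k80 k95 2 (.s
  k170 k255 14 (.s k89 k251 12 (.s k88 k91 0 (.d k240 k160 k164 11 13))))))) (.c k243 (.l (.s k4 k8
  1 (.s k95 k80 2 (.s k166 k247 12 (.s k14 k242 13 (.s k15 k13 0 (.d k255 k175 k170 11 14)))))))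
  .n)))) (.c k170 (.f k80 k95 2 (.q k166 [(.s k4 k247 12 (.s k12 k8 1 (.s k14 k242 13 (.s k240 k160
  11 (.d k15 k165 k13 14 0))))), (.s k4 k247 12 (.s k240 k160 11 (.s k165 k15 14 (.s k5 k245 11 (.s
  k7 k6 0 (.s k164 k167 0 (.d k244 k84 k86 11 12))))))), (.s k4 k247 12 (.s k12 k8 1 (.s k89 k243 14
  (.s k81 k93 1 (.s k83 k82 0 (.s k88 k91 0 (.d k92 k84 k86 1 2))))))), (.s k240 k160 11 (.s k242
  k14 13 (.s k243 k241 0 (.s k81 k162 12 (.d k89 k93 k12 1 14)))))] .n)) (.c k175 (.l (.s k80 k95 2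
  (.s k240 k160 11 (.s k15 k165 14 (.s k170 k255 14 (.d k10 k5 k250 2 11)))))) (.c k240 (.q k21 [(.s
  k63 k42 6 (.s k149 k213 7 (.s k106 k192 14 (.s k127 k64 6 (.d k255 k191 k170 7 14))))), (.s k95
  k80 2 (.s k149 k213 7 (.s k31 k208 10 (.s k16 k26 2 (.d k223 k159 k154 7 10))))), (.s k63 k42 6
  (.s k95 k80 2 (.s k255 k170 14 (.s k15 k175 11 (.s k31 k47 3 (.s k16 k26 2 (.d k223 k159 k154 7
  10)))))))] .n) (.c k245 (.l (.s k80 k95 2 (.s k170 k255 14 (.s k10 k250 11 (.s k240 k160 11 (.d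
  k15 k5 k165 2 14)))))) (.c k255 (.q k12 [(.s k4 k8 1 (.s k80 k95 2 (.s k166 k247 12 (.s k14 k242
  13 (.s k240 k160 11 (.d k15 k13 k165 0 14)))))), (.s k80 k95 2 (.s k240 k160 11 (.s k88 k164 13
  (.s k89 k91 0 (.s k81 k93 1 (.d k243 k162 k166 12 14)))))), (.s k4 k8 1 (.s k166 k247 12 (.s k14
  k242 13 (.s k15 k13 0 (.s k5 k10 2 (.d k165 k245 k240 11 14)))))), (.s k8 k4 1 (.s k80 k95 2 (.s
  k240 k160 11 (.s k88 k164 13 (.s k84 k92 1 (.d k168 k248 k252 11 13))))))] (.c k15 (.l (.s k4 k8 1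
  (.s k166 k247 12 (.s k242 k14 13 (.s k243 k89 14 (.s k240 k241 0 (.d k80 k95 k160 2 11))))))) (.c
  k240 (.f k4 k8 1 (.l (.s k166 k247 12 (.s k14 k242 13 (.s k15 k13 0 (.s k5 k10 2 (.s k243 k89 14
  (.s k167 k91 13 (.d k165 k164 k245 0 11))))))))) .n))) .n))))))))))))

def t1_175 : T TT 256 :=
  (.q k89 [(.s k81 k93 1 (.s k243 k162 12 (.s k166 k12 14 (.s k247 k4 12 (.d k255 k251 k170 1
  14)))))] (.c k4 (.q k15 [(.s k5 k10 2 (.s k81 k93 1 (.s k165 k245 11 (.s k13 k241 13 (.s k243 k162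
  12 (.d k12 k14 k166 0 14)))))), (.s k10 k5 2 (.s k170 k255 14 (.s k90 k250 11 (.s k80 k95 2 (.d
  k240 k160 k165 11 14))))), (.s k81 k93 1 (.s k243 k162 12 (.s k91 k167 13 (.s k90 k88 0 (.s k80
  k95 2 (.d k240 k160 k165 11 14))))))] (.c k165 (.l (.s k10 k5 2 (.s k81 k93 1 (.s k170 k255 14 (.s
  k90 k250 11 (.s k91 k88 0 (.d k243 k162 k167 12 13))))))) .n)) (.c k12 (.q k16 [(.s k81 k93 1 (.s
  k154 k223 10 (.s k24 k219 8 (.s k28 k20 1 (.d k211 k146 k150 8 10))))), (.s k48 k32 3 (.s k154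
  k223 10 (.s k101 k207 14 (.s k117 k69 3 (.d k255 k186 k170 10 14))))), (.s k48 k32 3 (.s k81 k93 1
  (.s k146 k211 8 (.s k97 k195 12 (.s k113 k65 3 (.d k243 k178 k162 8 12))))))] (.c k255 (.l (.s k93
  k81 1 (.s k223 k154 10 (.s k28 k158 8 (.s k20 k24 1 (.d k150 k215 k211 8 10)))))) .n)) (.c k81 (.f
  k170 k255 14 (.q k15 [(.s k10 k5 2 (.s k90 k250 11 (.s k80 k95 2 (.d k240 k160 k165 11 14)))), (.s
  k8 k251 12 (.s k12 k4 1 (.s k13 k14 0 (.s k243 k166 14 (.s k91 k167 13 (.s k90 k88 0 (.d k165 k241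
  k240 13 14))))))), (.s k8 k251 12 (.s k10 k5 2 (.s k9 k11 0 (.s k12 k4 1 (.s k6 k3 2 (.d k14 k13
  k2 0 1))))))] (.c k13 (.l (.s k8 k251 12 (.s k10 k5 2 (.s k9 k11 0 (.s k90 k250 11 (.s k80 k95 2
  (.d k240 k160 k165 11 14))))))) (.c k161 (.q k241 [(.s k5 k10 2 (.d k165 k245 k13 11 13)), (.s k8
  k251 12 (.s k12 k4 1 (.d k13 k14 k165 0 13)))] (.c k13 (.l (.s k5 k10 2 (.s k8 k251 12 (.s k12 k4
  1 (.s k165 k245 11 (.s k240 k90 14 (.d k243 k242 k166 0 14))))))) (.c k165 (.l (.s k8 k251 12 (.s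
  k10 k5 2 (.s k9 k11 0 (.s k12 k4 1 (.s k6 k3 2 (.d k14 k13 k2 0 1))))))) .n))) (.c k241 (.q k161
  [(.s k10 k5 2 (.s k90 k250 11 (.s k80 k95 2 (.d k240 k160 k165 11 14)))), (.s k8 k251 12 (.s k10
  k5 2 (.s k9 k11 0 (.s k12 k4 1 (.s k6 k3 2 (.d k14 k13 k2 0 1)))))), (.s k8 k251 12 (.s k12 k4 1
  (.s k243 k166 14 (.s k91 k167 13 (.s k90 k88 0 (.s k80 k95 2 (.d k240 k165 k160 14 11)))))))] .n)
  .n))))) (.c k93 (.q k16 [(.s k48 k32 3 (.s k154 k223 10 (.s k101 k207 14 (.s k117 k69 3 (.d k255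
  k186 k170 10 14))))), (.s k48 k32 3 (.s k154 k223 10 (.s k24 k219 8 (.s k12 k36 5 (.s k4 k8 1 (.d
  k166 k247 k243 12 14)))))), (.s k48 k32 3 (.s k170 k255 14 (.s k8 k251 12 (.s k12 k4 1 (.s k24 k36
  5 (.s k40 k56 3 (.d k20 k28 k60 1 5))))))), (.s k154 k223 10 (.s k24 k219 8 (.s k170 k255 14 (.s
  k8 k251 12 (.s k40 k56 3 (.d k20 k28 k60 1 5))))))] (.c k28 (.l (.s k48 k32 3 (.s k255 k170 14 (.s
  k117 k186 10 (.s k101 k69 3 (.d k154 k223 k207 10 14)))))) .n)) (.c k162 (.l (.s k93 k81 1 (.s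
  k255 k170 14 (.s k12 k174 12 (.s k166 k243 14 (.d k4 k8 k247 1 12)))))) (.c k166 (.q k15 [(.s k10
  k5 2 (.s k170 k255 14 (.s k90 k250 11 (.s k80 k95 2 (.d k240 k160 k165 11 14))))), (.s k81 k93 1
  (.s k243 k162 12 (.s k91 k167 13 (.s k90 k88 0 (.s k80 k95 2 (.d k240 k165 k160 14 11)))))), (.s
  k5 k10 2 (.s k81 k93 1 (.s k165 k245 11 (.s k90 k240 14 (.s k91 k88 0 (.d k243 k162 k167 12
  13))))))] (.c k90 (.l (.s k5 k10 2 (.s k165 k245 11 (.s k13 k241 13 (.s k170 k255 14 (.s k8 k251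
  12 (.d k12 k14 k4 0 1))))))) (.c k165 (.l (.s k10 k5 2 (.s k81 k93 1 (.s k170 k255 14 (.s k90 k250
  11 (.s k91 k88 0 (.d k243 k162 k167 12 13))))))) (.c k240 (.l (.s k5 k10 2 (.s k165 k245 11 (.s
  k13 k241 13 (.s k12 k14 0 (.s k8 k4 1 (.d k170 k255 k251 14 12))))))) .n)))) (.c k170 (.f k81 k93
  1 (.q k165 [(.s k5 k245 11 (.s k15 k10 2 (.s k90 k240 14 (.s k243 k162 12 (.d k91 k88 k167 0
  13))))), (.s k241 k13 13 (.s k243 k162 12 (.s k240 k242 0 (.s k80 k160 11 (.d k90 k95 k15 2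
  14))))), (.s k5 k245 11 (.s k15 k10 2 (.s k90 k240 14 (.s k80 k95 2 (.s k83 k82 0 (.s k88 k91 0
  (.d k92 k84 k86 1 2))))))), (.s k5 k245 11 (.s k243 k162 12 (.s k166 k12 14 (.s k4 k247 12 (.s k7
  k6 0 (.s k164 k167 0 (.d k244 k84 k86 11 12)))))))] (.c k5 (.l (.s k243 k162 12 (.s k166 k12 14
  (.s k167 k164 0 (.s k15 k91 13 (.s k240 k90 14 (.d k241 k242 k13 0 13))))))) .n))) (.c k174 (.l
  (.s k81 k93 1 (.s k243 k162 12 (.s k12 k166 14 (.s k170 k255 14 (.d k8 k4 k251 1 12)))))) (.c k243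
  (.q k20 [(.s k60 k40 5 (.s k150 k215 8 (.s k105 k195 14 (.s k125 k65 5 (.d k255 k190 k170 8
  14))))), (.s k93 k81 1 (.s k150 k215 8 (.s k28 k211 10 (.s k16 k24 1 (.d k223 k158 k154 8 10))))),
  (.s k60 k40 5 (.s k93 k81 1 (.s k255 k170 14 (.s k12 k174 12 (.s k28 k44 3 (.s k16 k24 1 (.d k223
  k158 k154 8 10)))))))] .n) (.c k247 (.l (.s k81 k93 1 (.s k170 k255 14 (.s k8 k251 12 (.s k243
  k162 12 (.d k12 k4 k166 1 14)))))) (.c k251 (.l (.s k93 k81 1 (.s k255 k170 14 (.s k12 k174 12 (.s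
  k4 k8 1 (.d k166 k247 k243 12 14)))))) (.c k255 (.q k73 [(.s k105 k121 3 (.s k65 k125 5 (.s k77
  k69 1 (.s k113 k101 5 (.d k81 k93 k97 1 3))))), (.s k81 k93 1 (.s k105 k121 3 (.s k243 k162 12 (.s
  k12 k166 14 (.s k195 k134 10 (.d k65 k125 k130 5 8)))))), (.s k81 k93 1 (.s k243 k162 12 (.s k12
  k166 14 (.s k195 k134 10 (.s k65 k130 8 (.s k77 k69 1 (.d k113 k97 k101 3 5))))))), (.s k105 k121
  3 (.s k65 k125 5 (.s k195 k130 8 (.s k12 k134 10 (.s k4 k8 1 (.d k166 k247 k243 12 14))))))] (.c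
  k15 (.q k95 [(.s k80 k90 2 (.s k81 k93 1 (.s k83 k82 0 (.s k86 k92 2 (.d k87 k84 k91 0 1))))), (.s
  k81 k93 1 (.s k105 k121 3 (.s k65 k125 5 (.s k77 k69 1 (.d k113 k97 k101 3 5))))), (.s k90 k80 2
  (.s k91 k88 0 (.s k105 k121 3 (.s k75 k120 4 (.s k72 k74 0 (.d k123 k107 k106 3 4))))))] .n) (.c
  k65 (.l (.s k81 k93 1 (.s k105 k121 3 (.s k243 k162 12 (.s k12 k166 14 (.s k195 k134 10 (.s k150
  k60 14 (.d k211 k227 k28 3 10)))))))) (.c k95 (.q k15 [(.s k105 k121 3 (.s k65 k125 5 (.s k77 k69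
  1 (.s k113 k101 5 (.d k81 k93 k97 1 3))))), (.s k5 k10 2 (.s k165 k245 11 (.s k13 k241 13 (.s k12
  k14 0 (.s k4 k8 1 (.d k166 k247 k243 12 14))))))] (.c k81 (.l (.s k105 k121 3 (.s k65 k125 5 (.s
  k195 k130 8 (.s k12 k134 10 (.s k4 k8 1 (.d k166 k247 k243 12 14))))))) .n)) .n))))
  .n)))))))))))))

def t1_188 : T TT 256 :=
  (.f k255 k170 14 (.q k102 [(.s k68 k119 4 (.s k204 k136 9 (.s k153 k51 14 (.d k221 k238 k17 4
  9))))] (.c k17 (.f k119 k68 4 (.f k51 k187 9 (.f k153 k204 14 (.q k49 [(.s k48 k50 0 (.s k101 k205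
  13 (.d k117 k69 k186 3 10))), (.s k48 k50 0 (.s k117 k186 10 (.s k118 k116 0 (.d k185 k253 k252 9
  10)))), (.s k101 k205 13 (.s k69 k117 3 (.s k207 k138 10 (.d k103 k100 k155 0 13)))), (.s k48 k50
  0 (.s k16 k32 3 (.s k154 k223 10 (.d k101 k205 k207 13 14))))] .n)))) (.c k51 (.q k4 [(.s k12 k8 1
  (.s k93 k174 12 (.s k166 k247 12 (.d k89 k81 k243 1 14)))), (.s k68 k119 4 (.s k166 k247 12 (.s
  k38 k230 7 (.s k55 k21 4 (.d k196 k132 k149 7 12))))), (.s k12 k8 1 (.s k68 k119 4 (.s k132 k196 7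
  (.s k72 k192 9 (.s k76 k64 1 (.d k204 k140 k136 7 9))))))] .n) (.c k68 (.q k4 [(.s k166 k247 12
  (.s k12 k8 1 (.s k89 k243 14 (.d k93 k81 k174 1 12)))), (.s k166 k247 12 (.s k38 k230 7 (.s k21
  k55 4 (.s k63 k42 6 (.s k127 k191 7 (.s k106 k64 6 (.d k149 k213 k192 7 14)))))))] (.c k166 (.f
  k12 k8 1 (.q k89 [(.d k93 k174 k81 12 1), (.s k76 k115 6 (.s k204 k140 7 (.s k153 k51 14 (.d k221
  k238 k17 4 9))))] (.c k162 (.l (.s k174 k93 12 (.s k76 k115 6 (.s k204 k140 7 (.s k153 k51 14 (.d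
  k221 k238 k17 4 9)))))) (.c k174 (.q k162 [(.d k81 k93 k243 1 12), (.s k76 k115 6 (.s k204 k140 7
  (.s k221 k238 4 (.d k153 k17 k51 9 14))))] .n) .n)))) (.c k247 (.l (.s k12 k8 1 (.s k93 k174 12
  (.s k89 k81 1 (.s k76 k115 6 (.s k204 k140 7 (.s k153 k51 14 (.d k221 k238 k17 4 9)))))))) .n)))
  (.c k119 (.q k81 [(.s k89 k93 1 (.s k243 k162 12 (.s k166 k12 14 (.d k247 k251 k4 1 12)))), (.s
  k89 k93 1 (.s k115 k76 6 (.s k64 k98 4 (.s k192 k128 7 (.s k213 k234 6 (.s k149 k21 7 (.d k106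
  k127 k63 6 14)))))))] (.c k89 (.f k243 k162 12 (.q k166 [(.d k247 k251 k4 1 12), (.s k230 k38 7
  (.s k204 k217 6 (.s k153 k51 14 (.d k221 k238 k17 4 9))))] (.c k8 (.l (.s k251 k247 1 (.s k230 k38
  7 (.s k204 k217 6 (.s k153 k51 14 (.d k221 k238 k17 4 9)))))) (.c k251 (.q k8 [(.d k4 k12 k247 1
  12), (.s k230 k38 7 (.s k204 k217 6 (.s k221 k238 4 (.d k153 k17 k51 9 14))))] .n) .n)))) (.c k93
  (.l (.s k243 k162 12 (.s k247 k251 1 (.s k166 k4 12 (.s k230 k38 7 (.s k204 k217 6 (.s k153 k51 14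
  (.d k221 k238 k17 4 9)))))))) .n))) (.c k136 (.l (.s k119 k68 4 (.s k51 k187 9 (.s k153 k204 14
  (.d k17 k34 k221 4 9))))) (.c k153 (.f k68 k119 4 (.q k4 [(.s k166 k247 12 (.s k12 k8 1 (.s k89
  k243 14 (.d k93 k81 k174 1 12)))), (.s k166 k247 12 (.s k38 k230 7 (.s k55 k21 4 (.d k196 k132
  k149 7 12)))), (.s k12 k8 1 (.s k132 k196 7 (.s k72 k192 9 (.s k76 k64 1 (.d k204 k136 k140 9
  7)))))] (.c k136 (.q k187 [(.s k166 k247 12 (.s k38 k230 7 (.s k55 k21 4 (.d k196 k132 k149 7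
  12)))), (.s k12 k8 1 (.s k93 k174 12 (.s k89 k81 1 (.s k76 k115 6 (.s k127 k110 4 (.d k64 k72 k106
  1 6))))))] (.c k166 (.l (.s k12 k8 1 (.s k132 k196 7 (.s k72 k192 9 (.s k76 k64 1 (.s k89 k115 6
  (.d k93 k81 k174 1 12))))))) .n)) (.c k187 (.l (.s k136 k204 9 (.s k12 k8 1 (.s k93 k174 12 (.s
  k89 k81 1 (.d k166 k247 k243 12 14)))))) .n)))) (.c k187 (.l (.s k68 k119 4 (.s k204 k136 9 (.s
  k153 k51 14 (.d k221 k238 k17 4 9))))) (.c k204 (.q k4 [(.s k12 k8 1 (.s k93 k174 12 (.s k166 k247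
  12 (.d k89 k81 k243 1 14)))), (.s k68 k119 4 (.s k166 k247 12 (.s k38 k230 7 (.s k55 k21 4 (.d
  k196 k132 k149 7 12))))), (.s k12 k8 1 (.s k119 k68 4 (.s k51 k187 9 (.s k34 k17 4 (.s k38 k25 6
  (.s k21 k55 4 (.d k42 k46 k63 1 6)))))))] .n) (.c k221 (.q k3 [(.s k68 k119 4 (.s k87 k171 13 (.s
  k86 k84 0 (.s k70 k118 3 (.d k204 k136 k137 9 10))))), (.s k87 k171 13 (.s k119 k68 4 (.s k51 k187
  9 (.s k19 k35 3 (.s k103 k71 3 (.d k155 k223 k207 9 13)))))), (.s k87 k171 13 (.s k86 k84 0 (.s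
  k70 k118 3 (.s k169 k252 14 (.s k35 k236 10 (.s k51 k19 3 (.d k204 k137 k153 10 14))))))), (.s k68
  k119 4 (.s k204 k136 9 (.s k70 k137 10 (.s k86 k118 3 (.s k153 k51 14 (.s k220 k19 10 (.d k252
  k236 k169 3 14)))))))] (.c k70 (.l (.s k87 k171 13 (.s k86 k84 0 (.s k119 k68 4 (.s k51 k187 9 (.s
  k19 k35 3 (.d k153 k220 k204 10 14))))))) (.c k169 (.l (.s k68 k119 4 (.s k204 k136 9 (.s k70 k137
  10 (.s k86 k118 3 (.d k87 k84 k171 0 13)))))) .n))) (.c k238 (.l (.s k119 k68 4 (.s k51 k187 9 (.s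
  k17 k34 4 (.d k153 k221 k204 9 14))))) .n))))))))))))

def t1_189 : T TT 256 :=
  (.f k255 k170 14 (.q k102 [(.s k68 k119 4 (.s k204 k136 9 (.s k153 k51 14 (.d k221 k238 k17 4
  9))))] (.c k17 (.f k119 k68 4 (.f k51 k187 9 (.f k153 k204 14 (.q k49 [(.s k48 k50 0 (.s k101 k205
  13 (.d k117 k69 k186 3 10))), (.s k48 k50 0 (.s k117 k186 10 (.s k118 k116 0 (.d k185 k253 k252 9
  10)))), (.s k101 k205 13 (.s k69 k117 3 (.s k207 k138 10 (.d k103 k100 k155 0 13)))), (.s k48 k50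
  0 (.s k16 k32 3 (.s k154 k223 10 (.d k101 k205 k207 13 14))))] .n)))) (.c k51 (.q k4 [(.s k12 k8 1
  (.s k93 k174 12 (.s k166 k247 12 (.d k89 k81 k243 1 14)))), (.s k68 k119 4 (.s k166 k247 12 (.s
  k38 k230 7 (.s k55 k21 4 (.d k196 k132 k149 7 12))))), (.s k12 k8 1 (.s k68 k119 4 (.s k132 k196 7
  (.s k72 k192 9 (.s k76 k64 1 (.d k204 k140 k136 7 9))))))] .n) (.c k68 (.q k4 [(.s k166 k247 12
  (.s k12 k8 1 (.s k89 k243 14 (.d k93 k81 k174 1 12)))), (.s k166 k247 12 (.s k38 k230 7 (.s k21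
  k55 4 (.s k63 k42 6 (.s k127 k191 7 (.s k106 k64 6 (.d k149 k213 k192 7 14)))))))] (.c k166 (.f
  k12 k8 1 (.q k89 [(.d k93 k174 k81 12 1), (.s k76 k115 6 (.s k204 k140 7 (.s k153 k51 14 (.d k221
  k238 k17 4 9))))] (.c k162 (.l (.s k174 k93 12 (.s k76 k115 6 (.s k204 k140 7 (.s k153 k51 14 (.d
  k221 k238 k17 4 9)))))) (.c k174 (.q k162 [(.d k81 k93 k243 1 12), (.s k76 k115 6 (.s k204 k140 7
  (.s k221 k238 4 (.d k153 k17 k51 9 14))))] .n) .n)))) (.c k247 (.l (.s k12 k8 1 (.s k93 k174 12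
  (.s k89 k81 1 (.s k76 k115 6 (.s k204 k140 7 (.s k153 k51 14 (.d k221 k238 k17 4 9)))))))) .n)))
  (.c k119 (.q k247 [(.s k166 k4 12 (.s k243 k251 1 (.s k81 k162 12 (.d k89 k93 k12 1 14)))), (.s
  k166 k4 12 (.s k230 k38 7 (.s k213 k196 4 (.s k192 k234 6 (.s k64 k128 7 (.s k106 k127 6 (.d k149
  k21 k63 7 14)))))))] (.c k4 (.l (.s k243 k251 1 (.s k81 k162 12 (.s k89 k93 1 (.s k115 k76 6 (.s
  k51 k179 7 (.s k17 k34 4 (.d k153 k221 k204 9 14)))))))) (.c k166 (.f k243 k251 1 (.q k89 [(.d k81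
  k162 k93 12 1), (.s k115 k76 6 (.s k51 k179 7 (.s k17 k34 4 (.d k153 k221 k204 9 14))))] (.c k162
  (.q k174 [(.d k93 k81 k12 1 12), (.s k115 k76 6 (.s k51 k179 7 (.s k17 k34 4 (.d k153 k221 k204 9
  14))))] .n) (.c k174 (.l (.s k162 k81 12 (.s k115 k76 6 (.s k51 k179 7 (.s k17 k34 4 (.d k153 k221
  k204 9 14)))))) .n)))) .n))) (.c k136 (.l (.s k119 k68 4 (.s k51 k187 9 (.s k153 k204 14 (.d k17
  k34 k221 4 9))))) (.c k153 (.f k68 k119 4 (.q k4 [(.s k166 k247 12 (.s k12 k8 1 (.s k89 k243 14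
  (.d k93 k81 k174 1 12)))), (.s k166 k247 12 (.s k38 k230 7 (.s k55 k21 4 (.d k196 k132 k149 7
  12)))), (.s k12 k8 1 (.s k132 k196 7 (.s k72 k192 9 (.s k76 k64 1 (.d k204 k136 k140 9 7)))))] (.c
  k136 (.q k187 [(.s k166 k247 12 (.s k38 k230 7 (.s k55 k21 4 (.d k196 k132 k149 7 12)))), (.s k12
  k8 1 (.s k93 k174 12 (.s k89 k81 1 (.s k76 k115 6 (.s k127 k110 4 (.d k64 k72 k106 1 6))))))] (.c
  k166 (.l (.s k12 k8 1 (.s k132 k196 7 (.s k72 k192 9 (.s k76 k64 1 (.s k89 k115 6 (.d k93 k81 k174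
  1 12))))))) .n)) (.c k187 (.l (.s k136 k204 9 (.s k12 k8 1 (.s k93 k174 12 (.s k89 k81 1 (.d k166
  k247 k243 12 14)))))) .n)))) (.c k187 (.l (.s k68 k119 4 (.s k204 k136 9 (.s k153 k51 14 (.d k221
  k238 k17 4 9))))) (.c k204 (.q k4 [(.s k12 k8 1 (.s k93 k174 12 (.s k166 k247 12 (.d k89 k81 k243
  1 14)))), (.s k68 k119 4 (.s k166 k247 12 (.s k38 k230 7 (.s k55 k21 4 (.d k196 k132 k149 7
  12))))), (.s k12 k8 1 (.s k119 k68 4 (.s k51 k187 9 (.s k34 k17 4 (.s k38 k25 6 (.s k21 k55 4 (.d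
  k42 k46 k63 1 6)))))))] .n) (.c k221 (.q k3 [(.s k68 k119 4 (.s k87 k171 13 (.s k86 k84 0 (.s k70
  k118 3 (.d k204 k136 k137 9 10))))), (.s k87 k171 13 (.s k119 k68 4 (.s k51 k187 9 (.s k19 k35 3
  (.s k103 k71 3 (.d k155 k223 k207 9 13)))))), (.s k87 k171 13 (.s k86 k84 0 (.s k70 k118 3 (.s
  k169 k252 14 (.s k35 k236 10 (.s k51 k19 3 (.d k204 k137 k153 10 14))))))), (.s k68 k119 4 (.s
  k204 k136 9 (.s k70 k137 10 (.s k86 k118 3 (.s k153 k51 14 (.s k220 k19 10 (.d k252 k236 k169 3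
  14)))))))] (.c k70 (.l (.s k87 k171 13 (.s k86 k84 0 (.s k119 k68 4 (.s k51 k187 9 (.s k19 k35 3
  (.d k153 k220 k204 10 14))))))) (.c k169 (.l (.s k68 k119 4 (.s k204 k136 9 (.s k70 k137 10 (.s
  k86 k118 3 (.d k87 k84 k171 0 13)))))) .n))) (.c k238 (.l (.s k119 k68 4 (.s k51 k187 9 (.s k17
  k34 4 (.d k153 k221 k204 9 14))))) .n))))))))))))

def t1_190 : T TT 256 :=
  (.q k89 [(.s k81 k93 1 (.s k243 k162 12 (.s k166 k12 14 (.s k247 k4 12 (.d k255 k251 k170 1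
  14)))))] (.c k4 (.q k5 [(.s k15 k10 2 (.s k165 k245 11 (.s k90 k240 14 (.s k95 k80 2 (.d k255 k175
  k170 11 14))))), (.s k15 k10 2 (.s k81 k93 1 (.s k165 k245 11 (.s k13 k241 13 (.s k12 k14 0 (.d
  k243 k162 k166 12 14)))))), (.s k81 k93 1 (.s k165 k245 11 (.s k170 k255 14 (.s k241 k13 13 (.s
  k243 k162 12 (.s k240 k242 0 (.d k160 k175 k80 2 11)))))))] (.c k165 (.l (.s k10 k15 2 (.s k170
  k255 14 (.s k8 k251 12 (.s k11 k9 0 (.s k90 k250 11 (.s k88 k91 0 (.d k248 k168 k169 11 12))))))))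
  (.c k245 (.l (.s k15 k10 2 (.s k81 k93 1 (.s k243 k162 12 (.s k91 k167 13 (.s k90 k88 0 (.s k80
  k95 2 (.d k240 k160 k165 11 14)))))))) .n))) (.c k12 (.q k16 [(.s k81 k93 1 (.s k154 k223 10 (.s
  k24 k219 8 (.s k28 k20 1 (.d k211 k146 k150 8 10))))), (.s k48 k32 3 (.s k154 k223 10 (.s k101
  k207 14 (.s k117 k69 3 (.d k255 k186 k170 10 14))))), (.s k48 k32 3 (.s k81 k93 1 (.s k146 k211 8
  (.s k97 k195 12 (.s k113 k65 3 (.d k243 k178 k162 8 12))))))] (.c k255 (.l (.s k93 k81 1 (.s k223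
  k154 10 (.s k28 k158 8 (.s k20 k24 1 (.d k150 k215 k211 8 10)))))) .n)) (.c k81 (.f k170 k255 14
  (.q k60 [(.s k40 k20 5 (.s k105 k235 8 (.s k65 k125 5 (.d k195 k130 k150 8 14)))), (.s k8 k251 12
  (.s k12 k4 1 (.s k40 k20 5 (.s k24 k56 3 (.s k36 k48 5 (.d k44 k32 k28 1 3)))))), (.s k8 k251 12
  (.s k12 k4 1 (.s k28 k44 3 (.s k150 k211 10 (.s k105 k195 14 (.s k121 k73 3 (.d k243 k182 k166 10
  14)))))))] (.c k161 (.q k241 [(.s k40 k20 5 (.s k105 k235 8 (.s k65 k125 5 (.d k195 k130 k150 8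
  14)))), (.s k165 k13 13 (.s k5 k245 11 (.s k15 k10 2 (.s k160 k175 2 (.d k240 k80 k90 11 14)))))]
  .n) (.c k241 (.q k161 [(.s k40 k20 5 (.s k105 k235 8 (.s k65 k125 5 (.d k195 k130 k150 8 14)))),
  (.s k8 k251 12 (.s k12 k4 1 (.s k40 k20 5 (.s k24 k56 3 (.s k36 k48 5 (.d k44 k32 k28 1 3)))))),
  (.s k8 k251 12 (.s k12 k4 1 (.s k28 k44 3 (.s k150 k211 10 (.s k105 k195 14 (.s k121 k73 3 (.d
  k243 k182 k166 10 14)))))))] .n) .n)))) (.c k93 (.q k15 [(.s k5 k10 2 (.s k165 k245 11 (.s k90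
  k240 14 (.s k95 k80 2 (.d k255 k175 k170 11 14))))), (.s k5 k10 2 (.s k165 k245 11 (.s k13 k241 13
  (.s k12 k14 0 (.s k4 k8 1 (.d k166 k247 k243 12 14)))))), (.s k170 k255 14 (.s k8 k251 12 (.s k12
  k4 1 (.s k13 k14 0 (.s k165 k241 13 (.s k160 k175 2 (.d k240 k80 k90 11 14)))))))] (.c k165 (.l
  (.s k10 k5 2 (.s k170 k255 14 (.s k8 k251 12 (.s k9 k11 0 (.s k12 k4 1 (.s k6 k3 2 (.d k14 k13 k2
  0 1)))))))) .n)) (.c k162 (.l (.s k93 k81 1 (.s k255 k170 14 (.s k12 k174 12 (.s k166 k243 14 (.d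
  k4 k8 k247 1 12)))))) (.c k166 (.q k5 [(.s k15 k10 2 (.s k165 k245 11 (.s k90 k240 14 (.s k95 k80
  2 (.d k255 k175 k170 11 14))))), (.s k15 k10 2 (.s k165 k245 11 (.s k13 k241 13 (.s k12 k14 0 (.s
  k8 k4 1 (.d k170 k251 k255 12 14)))))), (.s k81 k93 1 (.s k165 k245 11 (.s k170 k255 14 (.s k160
  k175 2 (.s k240 k80 11 (.s k241 k13 13 (.d k243 k242 k162 0 12))))))), (.s k15 k10 2 (.s k81 k93 1
  (.s k243 k162 12 (.s k91 k167 13 (.s k90 k88 0 (.s k80 k95 2 (.d k240 k165 k160 14 11)))))))] (.c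
  k15 (.l (.s k81 k93 1 (.s k165 k245 11 (.s k170 k255 14 (.s k241 k13 13 (.s k243 k162 12 (.s k240
  k242 0 (.d k160 k175 k80 2 11)))))))) (.c k165 (.l (.s k10 k15 2 (.s k170 k255 14 (.s k8 k251 12
  (.s k11 k9 0 (.s k90 k250 11 (.s k88 k91 0 (.d k248 k168 k169 11 12)))))))) (.c k170 (.l (.s k15
  k10 2 (.s k81 k93 1 (.s k165 k245 11 (.s k90 k240 14 (.s k91 k88 0 (.d k243 k162 k167 12 13)))))))
  .n)))) (.c k170 (.q k150 [(.s k81 k93 1 (.s k211 k28 10 (.s k16 k146 8 (.s k215 k20 8 (.d k223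
  k219 k154 1 10))))), (.s k20 k215 8 (.s k60 k40 5 (.s k81 k93 1 (.s k105 k195 14 (.s k121 k73 3
  (.d k243 k182 k162 10 12)))))), (.s k20 k215 8 (.s k28 k211 10 (.s k60 k40 5 (.s k12 k44 3 (.s k4
  k8 1 (.d k166 k247 k243 12 14)))))), (.s k81 k93 1 (.s k211 k28 10 (.s k243 k162 12 (.s k195 k227
  3 (.s k65 k130 8 (.d k105 k125 k60 5 14))))))] .n) (.c k174 (.l (.s k81 k93 1 (.s k243 k162 12 (.s
  k12 k166 14 (.s k170 k255 14 (.d k8 k4 k251 1 12)))))) (.c k243 (.q k21 [(.s k63 k42 6 (.s k149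
  k213 7 (.s k106 k192 14 (.s k127 k64 6 (.d k255 k191 k170 7 14))))), (.s k93 k81 1 (.s k149 k213 7
  (.s k29 k209 9 (.s k17 k25 1 (.d k221 k157 k153 7 9))))), (.s k63 k42 6 (.s k93 k81 1 (.s k255
  k170 14 (.s k12 k174 12 (.s k29 k46 4 (.s k17 k25 1 (.d k221 k157 k153 7 9)))))))] .n) (.c k247
  (.l (.s k81 k93 1 (.s k170 k255 14 (.s k8 k251 12 (.s k243 k162 12 (.d k12 k4 k166 1 14)))))) (.c
  k251 (.l (.s k93 k81 1 (.s k255 k170 14 (.s k12 k174 12 (.s k4 k8 1 (.d k166 k247 k243 12 14))))))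
  (.c k255 (.q k60 [(.s k20 k40 5 (.s k81 k93 1 (.s k150 k215 8 (.s k195 k105 14 (.s k243 k162 12
  (.d k211 k227 k28 3 10)))))), (.s k81 k93 1 (.s k243 k162 12 (.s k121 k182 10 (.s k105 k73 3 (.s
  k65 k125 5 (.d k195 k130 k150 8 14)))))), (.s k20 k40 5 (.s k93 k81 1 (.s k150 k215 8 (.s k28 k211
  10 (.s k16 k24 1 (.d k223 k158 k154 8 10)))))), (.s k20 k40 5 (.s k150 k215 8 (.s k28 k211 10 (.s
  k12 k44 3 (.s k4 k8 1 (.d k166 k247 k243 12 14))))))] (.c k150 (.f k20 k40 5 (.l (.s k81 k93 1 (.s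
  k243 k162 12 (.s k12 k166 14 (.s k4 k8 1 (.s k28 k44 3 (.s k24 k16 1 (.d k36 k52 k48 3 5)))))))))
  (.c k195 (.l (.s k20 k40 5 (.s k81 k93 1 (.s k243 k162 12 (.s k12 k166 14 (.s k28 k44 3 (.d k150
  k215 k211 8 10))))))) .n))) .n)))))))))))))

def t1_191 : T TT 256 :=
  (.q k89 [(.s k81 k93 1 (.s k243 k162 12 (.s k166 k12 14 (.s k247 k4 12 (.d k255 k251 k170 1
  14)))))] (.c k4 (.q k5 [(.s k15 k10 2 (.s k165 k245 11 (.s k90 k240 14 (.s k95 k80 2 (.d k255 k175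
  k170 11 14))))), (.s k15 k10 2 (.s k81 k93 1 (.s k165 k245 11 (.s k13 k241 13 (.s k12 k14 0 (.d
  k243 k162 k166 12 14)))))), (.s k81 k93 1 (.s k165 k245 11 (.s k170 k255 14 (.s k241 k13 13 (.s
  k243 k162 12 (.s k240 k242 0 (.d k160 k175 k80 2 11)))))))] (.c k165 (.l (.s k10 k15 2 (.s k170
  k255 14 (.s k8 k251 12 (.s k11 k9 0 (.s k90 k250 11 (.s k88 k91 0 (.d k248 k168 k169 11 12))))))))
  (.c k245 (.l (.s k15 k10 2 (.s k81 k93 1 (.s k243 k162 12 (.s k91 k167 13 (.s k90 k88 0 (.s k80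
  k95 2 (.d k240 k160 k165 11 14)))))))) .n))) (.c k12 (.q k16 [(.s k81 k93 1 (.s k154 k223 10 (.s
  k24 k219 8 (.s k28 k20 1 (.d k211 k146 k150 8 10))))), (.s k48 k32 3 (.s k154 k223 10 (.s k101
  k207 14 (.s k117 k69 3 (.d k255 k186 k170 10 14))))), (.s k48 k32 3 (.s k81 k93 1 (.s k146 k211 8
  (.s k97 k195 12 (.s k113 k65 3 (.d k243 k178 k162 8 12))))))] (.c k255 (.l (.s k93 k81 1 (.s k223
  k154 10 (.s k28 k158 8 (.s k20 k24 1 (.d k150 k215 k211 8 10)))))) .n)) (.c k81 (.f k170 k255 14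
  (.q k63 [(.s k42 k21 6 (.s k106 k234 7 (.s k64 k127 6 (.d k192 k128 k149 7 14)))), (.s k8 k251 12
  (.s k12 k4 1 (.s k21 k42 6 (.s k29 k46 4 (.d k149 k213 k209 7 9))))), (.s k8 k251 12 (.s k12 k4 1
  (.s k29 k46 4 (.s k149 k209 9 (.s k106 k192 14 (.s k123 k72 4 (.d k243 k183 k166 9 14))))))), (.s
  k8 k251 12 (.s k12 k4 1 (.s k42 k21 6 (.s k25 k59 4 (.s k38 k51 6 (.d k46 k34 k29 1 4))))))] (.c
  k161 (.q k241 [(.s k42 k21 6 (.s k106 k234 7 (.s k64 k127 6 (.d k192 k128 k149 7 14)))), (.s k165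
  k13 13 (.s k5 k245 11 (.s k15 k10 2 (.s k160 k175 2 (.d k240 k80 k90 11 14)))))] .n) (.c k241 (.q
  k161 [(.s k42 k21 6 (.s k106 k234 7 (.s k64 k127 6 (.d k192 k128 k149 7 14)))), (.s k8 k251 12 (.s
  k12 k4 1 (.s k21 k42 6 (.s k29 k46 4 (.d k149 k213 k209 7 9))))), (.s k8 k251 12 (.s k12 k4 1 (.s
  k29 k46 4 (.s k149 k209 9 (.s k106 k192 14 (.s k123 k72 4 (.d k243 k183 k166 9 14))))))), (.s k8
  k251 12 (.s k12 k4 1 (.s k42 k21 6 (.s k25 k59 4 (.s k38 k51 6 (.d k46 k34 k29 1 4))))))] .n)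
  .n)))) (.c k93 (.q k15 [(.s k5 k10 2 (.s k165 k245 11 (.s k90 k240 14 (.s k95 k80 2 (.d k255 k175
  k170 11 14))))), (.s k5 k10 2 (.s k165 k245 11 (.s k13 k241 13 (.s k12 k14 0 (.s k4 k8 1 (.d k166
  k247 k243 12 14)))))), (.s k170 k255 14 (.s k8 k251 12 (.s k12 k4 1 (.s k13 k14 0 (.s k165 k241 13
  (.s k160 k175 2 (.d k240 k80 k90 11 14)))))))] (.c k165 (.l (.s k10 k5 2 (.s k170 k255 14 (.s k8
  k251 12 (.s k9 k11 0 (.s k12 k4 1 (.s k6 k3 2 (.d k14 k13 k2 0 1)))))))) .n)) (.c k162 (.l (.s k93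
  k81 1 (.s k255 k170 14 (.s k12 k174 12 (.s k166 k243 14 (.d k4 k8 k247 1 12)))))) (.c k166 (.q k5
  [(.s k15 k10 2 (.s k165 k245 11 (.s k90 k240 14 (.s k95 k80 2 (.d k255 k175 k170 11 14))))), (.s
  k15 k10 2 (.s k165 k245 11 (.s k13 k241 13 (.s k12 k14 0 (.s k8 k4 1 (.d k170 k251 k255 12
  14)))))), (.s k81 k93 1 (.s k165 k245 11 (.s k170 k255 14 (.s k160 k175 2 (.s k240 k80 11 (.s k241
  k13 13 (.d k243 k242 k162 0 12))))))), (.s k15 k10 2 (.s k81 k93 1 (.s k243 k162 12 (.s k91 k167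
  13 (.s k90 k88 0 (.s k80 k95 2 (.d k240 k165 k160 14 11)))))))] (.c k15 (.l (.s k81 k93 1 (.s k165
  k245 11 (.s k170 k255 14 (.s k241 k13 13 (.s k243 k162 12 (.s k240 k242 0 (.d k160 k175 k80 2
  11)))))))) (.c k165 (.l (.s k10 k15 2 (.s k170 k255 14 (.s k8 k251 12 (.s k11 k9 0 (.s k90 k250 11
  (.s k88 k91 0 (.d k248 k168 k169 11 12)))))))) (.c k170 (.l (.s k15 k10 2 (.s k81 k93 1 (.s k165
  k245 11 (.s k90 k240 14 (.s k91 k88 0 (.d k243 k162 k167 12 13))))))) .n)))) (.c k170 (.q k149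
  [(.s k21 k213 7 (.s k29 k209 9 (.s k17 k25 1 (.s k93 k81 1 (.d k221 k157 k153 7 9))))), (.s k21
  k213 7 (.s k63 k42 6 (.s k81 k93 1 (.s k106 k192 14 (.s k123 k72 4 (.d k243 k183 k162 9 12)))))),
  (.s k21 k213 7 (.s k29 k209 9 (.s k63 k42 6 (.s k12 k46 4 (.s k4 k8 1 (.d k166 k247 k243 12
  14)))))), (.s k81 k93 1 (.s k209 k29 9 (.s k243 k162 12 (.s k192 k226 4 (.s k64 k128 7 (.d k106
  k127 k63 6 14))))))] .n) (.c k174 (.l (.s k81 k93 1 (.s k243 k162 12 (.s k12 k166 14 (.s k170 k255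
  14 (.d k8 k4 k251 1 12)))))) (.c k243 (.q k20 [(.s k60 k40 5 (.s k150 k215 8 (.s k105 k195 14 (.s
  k125 k65 5 (.d k255 k190 k170 8 14))))), (.s k93 k81 1 (.s k150 k215 8 (.s k28 k211 10 (.s k16 k24
  1 (.d k223 k158 k154 8 10))))), (.s k60 k40 5 (.s k93 k81 1 (.s k255 k170 14 (.s k12 k174 12 (.s
  k28 k44 3 (.s k16 k24 1 (.d k223 k158 k154 8 10)))))))] .n) (.c k247 (.l (.s k81 k93 1 (.s k170
  k255 14 (.s k8 k251 12 (.s k243 k162 12 (.d k12 k4 k166 1 14)))))) (.c k251 (.l (.s k93 k81 1 (.s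
  k255 k170 14 (.s k12 k174 12 (.s k4 k8 1 (.d k166 k247 k243 12 14)))))) (.c k255 (.q k63 [(.s k21
  k42 6 (.s k81 k93 1 (.s k149 k213 7 (.s k192 k106 14 (.s k243 k162 12 (.d k209 k226 k29 4 9)))))),
  (.s k81 k93 1 (.s k243 k162 12 (.s k123 k183 9 (.s k106 k72 4 (.s k64 k127 6 (.d k192 k128 k149 7
  14)))))), (.s k21 k42 6 (.s k93 k81 1 (.s k149 k213 7 (.s k29 k209 9 (.s k17 k25 1 (.d k221 k157
  k153 7 9)))))), (.s k21 k42 6 (.s k149 k213 7 (.s k29 k209 9 (.s k12 k46 4 (.s k4 k8 1 (.d k166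
  k247 k243 12 14))))))] (.c k149 (.f k21 k42 6 (.l (.s k81 k93 1 (.s k243 k162 12 (.s k12 k166 14
  (.s k4 k8 1 (.s k29 k46 4 (.s k25 k17 1 (.d k38 k55 k51 4 6))))))))) (.c k192 (.l (.s k21 k42 6
  (.s k81 k93 1 (.s k243 k162 12 (.s k12 k166 14 (.s k29 k46 4 (.d k149 k213 k209 7 9))))))) .n)))
  .n)))))))))))))

def t1_252 : T TT 256 :=
  (.f k255 k170 14 (.q k102 [(.s k68 k119 4 (.s k204 k136 9 (.s k221 k238 4 (.d k153 k17 k51 9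
  14))))] (.c k17 (.f k119 k68 4 (.q k80 [(.s k51 k187 9 (.s k90 k95 2 (.s k114 k78 5 (.d k240 k177
  k160 8 11)))), (.s k90 k95 2 (.s k240 k160 11 (.s k165 k15 14 (.d k245 k250 k5 2 11)))), (.s k51
  k187 9 (.s k153 k204 14 (.s k240 k160 11 (.s k177 k114 8 (.s k165 k141 5 (.d k245 k250 k5 2
  11))))))] (.c k33 (.q k49 [(.s k51 k187 9 (.s k90 k95 2 (.s k114 k78 5 (.d k240 k177 k160 8
  11)))), (.s k90 k95 2 (.s k240 k160 11 (.s k165 k15 14 (.d k245 k250 k5 2 11)))), (.s k51 k187 9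
  (.s k48 k50 0 (.s k117 k186 10 (.s k101 k69 3 (.d k153 k205 k204 13 14)))))] .n) (.c k49 (.q k33
  [(.s k51 k187 9 (.s k90 k95 2 (.s k114 k78 5 (.d k240 k177 k160 8 11)))), (.s k90 k95 2 (.s k240
  k160 11 (.s k165 k15 14 (.d k245 k250 k5 2 11)))), (.s k51 k187 9 (.s k153 k204 14 (.s k240 k160
  11 (.s k177 k114 8 (.s k165 k141 5 (.d k245 k250 k5 2 11))))))] (.c k160 (.l (.s k51 k187 9 (.s
  k90 k95 2 (.s k114 k78 5 (.s k240 k177 8 (.s k165 k15 14 (.d k245 k250 k5 2 11))))))) (.c k240 (.l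
  (.s k51 k187 9 (.s k95 k90 2 (.s k15 k175 11 (.s k39 k27 5 (.s k165 k228 8 (.d k5 k10 k245 2
  11))))))) .n))) (.c k160 (.l (.s k51 k187 9 (.s k90 k95 2 (.s k114 k78 5 (.s k240 k177 8 (.s k165
  k15 14 (.d k245 k250 k5 2 11))))))) (.c k240 (.l (.s k51 k187 9 (.s k95 k90 2 (.s k15 k175 11 (.s
  k39 k27 5 (.s k165 k228 8 (.d k5 k10 k245 2 11))))))) .n)))))) (.c k51 (.f k68 k119 4 (.q k101
  [(.s k69 k117 3 (.s k71 k70 0 (.s k100 k103 0 (.d k116 k84 k86 3 4)))), (.s k69 k117 3 (.s k207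
  k138 10 (.s k154 k48 14 (.d k223 k239 k16 3 10)))), (.s k100 k103 0 (.s k204 k136 9 (.s k48 k152
  13 (.s k16 k32 3 (.d k154 k207 k223 14 10)))))] (.c k118 (.q k185 [(.s k100 k103 0 (.s k69 k117 3
  (.s k116 k84 3 (.d k71 k70 k86 0 4)))), (.s k117 k69 3 (.s k48 k186 10 (.s k16 k32 3 (.d k154 k223
  k207 10 14))))] (.c k69 (.l (.s k100 k103 0 (.s k204 k136 9 (.s k48 k152 13 (.s k16 k32 3 (.d k154
  k207 k223 14 10)))))) (.c k116 (.l (.s k117 k69 3 (.s k48 k186 10 (.s k16 k32 3 (.d k154 k223 k207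
  10 14))))) (.c k117 (.q k116 [(.d k100 k103 k84 0 3), (.s k71 k86 4 (.s k69 k70 0 (.s k207 k138 10
  (.s k154 k48 14 (.d k223 k239 k16 3 10)))))] .n) (.c k207 (.l (.s k117 k69 3 (.s k48 k186 10 (.s
  k204 k136 9 (.d k100 k103 k152 0 13))))) .n))))) (.c k185 (.q k118 [(.s k69 k117 3 (.d k70 k71 k86
  0 3)), (.s k86 k70 3 (.s k84 k87 0 (.d k100 k103 k116 0 3))), (.s k69 k117 3 (.s k207 k138 10 (.s
  k154 k48 14 (.d k223 k239 k16 3 10))))] .n) (.c k207 (.l (.s k69 k117 3 (.s k71 k70 0 (.s k116 k86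
  4 (.d k100 k103 k84 0 3))))) .n))))) (.c k68 (.q k4 [(.s k12 k8 1 (.s k93 k174 12 (.s k166 k247 12
  (.d k89 k81 k243 1 14)))), (.s k166 k247 12 (.s k38 k230 7 (.s k21 k55 4 (.s k63 k42 6 (.s k127
  k191 7 (.s k106 k64 6 (.d k149 k213 k192 7 14)))))))] (.c k166 (.f k12 k8 1 (.q k89 [(.d k93 k174
  k81 12 1), (.s k76 k115 6 (.s k204 k140 7 (.s k153 k51 14 (.d k221 k238 k17 4 9))))] (.c k162 (.l
  (.s k174 k93 12 (.s k76 k115 6 (.s k204 k140 7 (.s k153 k51 14 (.d k221 k238 k17 4 9)))))) (.c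
  k174 (.q k162 [(.d k81 k93 k243 1 12), (.s k76 k115 6 (.s k204 k140 7 (.s k221 k238 4 (.d k153 k17
  k51 9 14))))] .n) .n)))) (.c k247 (.l (.s k12 k8 1 (.s k93 k174 12 (.s k89 k81 1 (.s k76 k115 6
  (.s k204 k140 7 (.s k153 k51 14 (.d k221 k238 k17 4 9)))))))) .n))) (.c k119 (.q k247 [(.s k166 k4
  12 (.s k243 k251 1 (.s k81 k162 12 (.d k89 k93 k12 1 14)))), (.s k166 k4 12 (.s k230 k38 7 (.s
  k213 k196 4 (.s k192 k234 6 (.s k64 k128 7 (.s k106 k127 6 (.d k149 k21 k63 7 14)))))))] (.c k4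
  (.l (.s k243 k251 1 (.s k81 k162 12 (.s k89 k93 1 (.s k115 k76 6 (.s k51 k179 7 (.s k17 k34 4 (.d
  k153 k221 k204 9 14)))))))) (.c k166 (.f k243 k251 1 (.q k89 [(.d k81 k162 k93 12 1), (.s k115 k76
  6 (.s k51 k179 7 (.s k17 k34 4 (.d k153 k221 k204 9 14))))] (.c k162 (.q k174 [(.d k93 k81 k12 1
  12), (.s k115 k76 6 (.s k51 k179 7 (.s k17 k34 4 (.d k153 k221 k204 9 14))))] .n) (.c k174 (.l (.s
  k162 k81 12 (.s k115 k76 6 (.s k51 k179 7 (.s k17 k34 4 (.d k153 k221 k204 9 14)))))) .n)))) .n)))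
  (.c k136 (.l (.s k119 k68 4 (.s k51 k187 9 (.s k153 k204 14 (.d k17 k34 k221 4 9))))) (.c k153 (.f
  k68 k119 4 (.q k196 [(.s k4 k132 7 (.s k149 k55 12 (.s k213 k21 7 (.d k247 k230 k166 4 12)))), (.s
  k4 k132 7 (.s k12 k8 1 (.s k93 k174 12 (.s k89 k81 1 (.s k76 k115 6 (.d k204 k136 k140 9 7)))))),
  (.s k149 k55 12 (.s k21 k213 7 (.s k63 k42 6 (.s k106 k192 14 (.d k127 k64 k191 6 7)))))] (.c k136
  (.q k187 [(.s k149 k55 12 (.s k213 k21 7 (.s k247 k230 4 (.d k4 k132 k166 7 12)))), (.s k4 k132 7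
  (.s k12 k8 1 (.s k93 k174 12 (.s k89 k81 1 (.d k166 k247 k243 12 14))))), (.s k149 k55 12 (.s k21
  k213 7 (.s k63 k42 6 (.s k106 k192 14 (.d k127 k64 k191 6 7)))))] (.c k247 (.l (.s k132 k4 7 (.s
  k149 k55 12 (.s k183 k166 4 (.s k21 k213 7 (.s k63 k42 6 (.d k191 k179 k127 1 7))))))) .n)) (.c
  k187 (.l (.s k136 k204 9 (.s k4 k132 7 (.s k55 k149 12 (.s k38 k21 4 (.d k166 k230 k247 7 12))))))
  .n)))) (.c k187 (.l (.s k68 k119 4 (.s k204 k136 9 (.s k153 k51 14 (.d k221 k238 k17 4 9))))) (.c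
  k204 (.f k68 k119 4 (.q k64 [(.s k76 k72 1 (.s k89 k115 6 (.s k93 k81 1 (.d k127 k110 k106 4
  6)))), (.s k192 k128 7 (.s k213 k234 6 (.s k149 k21 7 (.d k106 k127 k63 6 14))))] (.c k106 (.l (.s
  k76 k72 1 (.s k89 k115 6 (.s k81 k93 1 (.s k243 k162 12 (.s k166 k12 14 (.d k247 k251 k4 1
  12))))))) (.c k127 (.l (.s k72 k76 1 (.s k192 k128 7 (.s k213 k234 6 (.s k149 k21 7 (.s k196 k55
  12 (.d k132 k4 k12 7 9))))))) (.c k220 (.q k236 [(.s k76 k72 1 (.s k89 k115 6 (.s k93 k81 1 (.d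
  k127 k110 k106 4 6)))), (.s k192 k128 7 (.s k213 k234 6 (.s k149 k21 7 (.d k106 k127 k63 6 14))))]
  (.c k106 (.l (.s k76 k72 1 (.s k89 k115 6 (.s k81 k93 1 (.s k243 k162 12 (.s k166 k12 14 (.d k247
  k251 k4 1 12))))))) (.c k127 (.l (.s k72 k76 1 (.s k192 k128 7 (.s k213 k234 6 (.s k149 k21 7 (.s
  k196 k55 12 (.d k132 k4 k12 7 9))))))) .n))) (.c k236 (.q k220 [(.s k76 k72 1 (.s k89 k115 6 (.s
  k93 k81 1 (.d k127 k110 k106 4 6)))), (.s k192 k128 7 (.s k213 k234 6 (.s k149 k21 7 (.d k106 k127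
  k63 6 14))))] (.c k106 (.l (.s k76 k72 1 (.s k89 k115 6 (.s k81 k93 1 (.s k243 k162 12 (.s k166
  k12 14 (.d k247 k251 k4 1 12))))))) (.c k127 (.l (.s k72 k76 1 (.s k192 k128 7 (.s k213 k234 6 (.s
  k149 k21 7 (.s k196 k55 12 (.d k132 k4 k12 7 9))))))) .n))) .n)))))) (.c k221 (.q k4 [(.s k12 k8 1
  (.s k93 k174 12 (.s k166 k247 12 (.d k89 k81 k243 1 14)))), (.s k68 k119 4 (.s k166 k247 12 (.s
  k38 k230 7 (.s k55 k21 4 (.d k196 k132 k149 7 12))))), (.s k12 k8 1 (.s k68 k119 4 (.s k132 k196 7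
  (.s k72 k192 9 (.s k76 k64 1 (.d k204 k140 k136 7 9))))))] .n) (.c k238 (.l (.s k119 k68 4 (.s k51
  k187 9 (.s k17 k34 4 (.d k153 k221 k204 9 14))))) .n))))))))))))

def t1_253 : T TT 256 :=
  (.f k255 k170 14 (.q k102 [(.s k68 k119 4 (.s k204 k136 9 (.s k153 k51 14 (.d k221 k238 k17 4
  9))))] (.c k17 (.f k119 k68 4 (.f k51 k187 9 (.f k153 k204 14 (.q k49 [(.s k48 k50 0 (.s k16 k32 3
  (.s k154 k223 10 (.d k101 k205 k207 13 14)))), (.s k48 k50 0 (.s k117 k186 10 (.s k118 k116 0 (.s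
  k86 k70 3 (.s k84 k87 0 (.d k252 k185 k168 10 13)))))), (.s k101 k205 13 (.s k69 k117 3 (.s k207
  k138 10 (.d k103 k100 k155 0 13))))] (.c k154 (.l (.s k48 k50 0 (.s k101 k205 13 (.d k117 k69 k186
  3 10)))) .n))))) (.c k51 (.q k4 [(.s k12 k8 1 (.s k93 k174 12 (.s k166 k247 12 (.d k89 k81 k243 1
  14)))), (.s k68 k119 4 (.s k166 k247 12 (.s k38 k230 7 (.s k55 k21 4 (.d k196 k132 k149 7 12))))),
  (.s k12 k8 1 (.s k68 k119 4 (.s k132 k196 7 (.s k72 k192 9 (.s k76 k64 1 (.d k204 k140 k136 7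
  9))))))] .n) (.c k68 (.q k4 [(.s k166 k247 12 (.s k12 k8 1 (.s k89 k243 14 (.d k93 k81 k174 1
  12)))), (.s k166 k247 12 (.s k38 k230 7 (.s k21 k55 4 (.s k63 k42 6 (.s k127 k191 7 (.s k106 k64 6
  (.d k149 k213 k192 7 14)))))))] (.c k166 (.f k12 k8 1 (.q k89 [(.d k93 k174 k81 12 1), (.s k76
  k115 6 (.s k204 k140 7 (.s k153 k51 14 (.d k221 k238 k17 4 9))))] (.c k162 (.l (.s k174 k93 12 (.s
  k76 k115 6 (.s k204 k140 7 (.s k153 k51 14 (.d k221 k238 k17 4 9)))))) (.c k174 (.q k162 [(.d k81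
  k93 k243 1 12), (.s k76 k115 6 (.s k204 k140 7 (.s k221 k238 4 (.d k153 k17 k51 9 14))))] .n)
  .n)))) (.c k247 (.l (.s k12 k8 1 (.s k93 k174 12 (.s k89 k81 1 (.s k76 k115 6 (.s k204 k140 7 (.s
  k153 k51 14 (.d k221 k238 k17 4 9)))))))) .n))) (.c k119 (.q k247 [(.s k166 k4 12 (.s k243 k251 1
  (.s k81 k162 12 (.d k89 k93 k12 1 14)))), (.s k166 k4 12 (.s k230 k38 7 (.s k213 k196 4 (.s k192
  k234 6 (.s k64 k128 7 (.s k106 k127 6 (.d k149 k21 k63 7 14)))))))] (.c k4 (.l (.s k243 k251 1 (.s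
  k81 k162 12 (.s k89 k93 1 (.s k115 k76 6 (.s k51 k179 7 (.s k17 k34 4 (.d k153 k221 k204 9
  14)))))))) (.c k166 (.f k243 k251 1 (.q k89 [(.d k81 k162 k93 12 1), (.s k115 k76 6 (.s k51 k179 7
  (.s k17 k34 4 (.d k153 k221 k204 9 14))))] (.c k162 (.q k174 [(.d k93 k81 k12 1 12), (.s k115 k76
  6 (.s k51 k179 7 (.s k17 k34 4 (.d k153 k221 k204 9 14))))] .n) (.c k174 (.l (.s k162 k81 12 (.s
  k115 k76 6 (.s k51 k179 7 (.s k17 k34 4 (.d k153 k221 k204 9 14)))))) .n)))) .n))) (.c k136 (.l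
  (.s k119 k68 4 (.s k51 k187 9 (.s k153 k204 14 (.d k17 k34 k221 4 9))))) (.c k153 (.f k119 k68 4
  (.q k149 [(.s k21 k213 7 (.s k63 k42 6 (.s k106 k192 14 (.d k127 k64 k191 6 7)))), (.s k55 k196 12
  (.s k247 k183 7 (.s k243 k251 1 (.s k81 k162 12 (.s k89 k93 1 (.d k166 k4 k12 12 14))))))] (.c
  k136 (.l (.s k187 k51 9 (.s k21 k213 7 (.s k55 k196 12 (.s k4 k38 4 (.d k247 k183 k166 7 12))))))
  (.c k187 (.q k136 [(.s k21 k213 7 (.s k63 k42 6 (.s k106 k192 14 (.d k127 k64 k191 6 7)))), (.s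
  k55 k196 12 (.s k247 k183 7 (.s k243 k251 1 (.s k81 k162 12 (.s k89 k93 1 (.d k166 k4 k12 12
  14))))))] (.c k191 (.l (.s k21 k213 7 (.s k55 k196 12 (.s k4 k38 4 (.d k247 k183 k166 7 12)))))
  .n)) .n)))) (.c k187 (.l (.s k68 k119 4 (.s k204 k136 9 (.s k153 k51 14 (.d k221 k238 k17 4 9)))))
  (.c k204 (.q k4 [(.s k12 k8 1 (.s k93 k174 12 (.s k166 k247 12 (.d k89 k81 k243 1 14)))), (.s k68
  k119 4 (.s k166 k247 12 (.s k38 k230 7 (.s k55 k21 4 (.d k196 k132 k149 7 12))))), (.s k12 k8 1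
  (.s k119 k68 4 (.s k51 k187 9 (.s k34 k17 4 (.s k38 k25 6 (.s k21 k55 4 (.d k42 k46 k63 1
  6)))))))] .n) (.c k221 (.f k68 k119 4 (.f k204 k136 9 (.f k153 k51 14 (.q k205 [(.s k207 k206 0
  (.s k223 k239 3 (.s k154 k16 10 (.d k101 k49 k48 13 14)))), (.s k207 k206 0 (.s k69 k138 10 (.s
  k70 k71 0 (.s k86 k118 3 (.s k87 k84 0 (.d k3 k137 k171 10 13)))))), (.s k101 k49 13 (.s k100 k103
  0 (.s k48 k152 13 (.d k117 k69 k186 3 10))))] (.c k207 (.l (.s k101 k49 13 (.s k117 k69 3 (.s k48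
  k186 10 (.d k100 k103 k152 0 13))))) .n))))) (.c k238 (.l (.s k119 k68 4 (.s k51 k187 9 (.s k17
  k34 4 (.d k153 k221 k204 9 14))))) .n))))))))))))

def t1_254 : T TT 256 :=
  (.q k89 [(.s k81 k93 1 (.s k243 k162 12 (.s k166 k12 14 (.s k247 k4 12 (.d k255 k251 k170 1
  14)))))] (.c k4 (.q k5 [(.s k15 k10 2 (.s k165 k245 11 (.s k90 k240 14 (.s k95 k80 2 (.d k255 k175
  k170 11 14))))), (.s k15 k10 2 (.s k81 k93 1 (.s k165 k245 11 (.s k13 k241 13 (.s k12 k14 0 (.d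
  k243 k162 k166 12 14)))))), (.s k81 k93 1 (.s k165 k245 11 (.s k170 k255 14 (.s k241 k13 13 (.s
  k243 k162 12 (.s k240 k242 0 (.d k160 k175 k80 2 11)))))))] (.c k165 (.l (.s k10 k15 2 (.s k170
  k255 14 (.s k8 k251 12 (.s k11 k9 0 (.s k90 k250 11 (.s k88 k91 0 (.d k248 k168 k169 11 12))))))))
  (.c k245 (.l (.s k15 k10 2 (.s k81 k93 1 (.s k243 k162 12 (.s k91 k167 13 (.s k90 k88 0 (.s k80
  k95 2 (.d k240 k160 k165 11 14)))))))) .n))) (.c k12 (.q k16 [(.s k81 k93 1 (.s k154 k223 10 (.s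
  k24 k219 8 (.s k28 k20 1 (.d k211 k146 k150 8 10))))), (.s k48 k32 3 (.s k154 k223 10 (.s k101
  k207 14 (.s k117 k69 3 (.d k255 k186 k170 10 14))))), (.s k48 k32 3 (.s k81 k93 1 (.s k146 k211 8
  (.s k97 k195 12 (.s k113 k65 3 (.d k243 k178 k162 8 12))))))] (.c k255 (.l (.s k93 k81 1 (.s k223
  k154 10 (.s k28 k158 8 (.s k20 k24 1 (.d k150 k215 k211 8 10)))))) .n)) (.c k81 (.f k170 k255 14
  (.q k252 [(.s k8 k251 12 (.s k12 k4 1 (.s k84 k168 13 (.s k86 k87 0 (.d k92 k83 k172 2 11))))),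
  (.s k8 k251 12 (.s k168 k84 13 (.s k169 k171 0 (.s k9 k249 11 (.s k11 k10 0 (.d k248 k88 k90 11
  12)))))), (.s k8 k251 12 (.s k12 k4 1 (.s k92 k172 11 (.s k86 k83 2 (.s k3 k169 14 (.s k6 k9 2 (.d
  k166 k243 k246 14 11))))))), (.s k84 k168 13 (.s k86 k87 0 (.s k3 k169 14 (.s k83 k92 2 (.s k243
  k163 11 (.s k166 k12 14 (.d k246 k249 k6 2 11)))))))] (.c k3 (.l (.s k8 k251 12 (.s k12 k4 1 (.s
  k84 k168 13 (.s k92 k172 11 (.d k86 k87 k83 0 2)))))) (.c k161 (.q k241 [(.s k165 k13 13 (.s k5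
  k245 11 (.s k15 k10 2 (.s k160 k175 2 (.d k240 k80 k90 11 14))))), (.s k8 k251 12 (.s k12 k4 1 (.s
  k84 k168 13 (.s k86 k87 0 (.d k92 k83 k172 2 11)))))] .n) (.c k241 (.q k161 [(.s k8 k251 12 (.s
  k12 k4 1 (.s k84 k168 13 (.s k86 k87 0 (.d k92 k83 k172 2 11))))), (.s k84 k168 13 (.s k86 k87 0
  (.s k3 k169 14 (.s k92 k83 2 (.s k240 k82 12 (.d k80 k88 k160 1 11)))))), (.s k8 k251 12 (.s k12
  k4 1 (.s k168 k84 13 (.s k88 k248 11 (.s k164 k240 13 (.d k172 k160 k92 1 11)))))), (.s k8 k251 12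
  (.s k12 k4 1 (.s k92 k172 11 (.s k86 k83 2 (.s k3 k169 14 (.s k6 k9 2 (.d k166 k243 k246 14
  11)))))))] (.c k92 (.l (.s k8 k251 12 (.s k12 k4 1 (.s k168 k84 13 (.s k169 k171 0 (.s k3 k86 14
  (.d k9 k6 k249 2 11))))))) .n)) (.c k243 (.l (.s k84 k168 13 (.s k86 k87 0 (.s k92 k83 2 (.s k12
  k172 11 (.d k8 k4 k251 1 12)))))) .n)))))) (.c k93 (.q k15 [(.s k5 k10 2 (.s k165 k245 11 (.s k90
  k240 14 (.s k95 k80 2 (.d k255 k175 k170 11 14))))), (.s k5 k10 2 (.s k165 k245 11 (.s k13 k241 13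
  (.s k12 k14 0 (.s k4 k8 1 (.d k166 k247 k243 12 14)))))), (.s k170 k255 14 (.s k8 k251 12 (.s k12
  k4 1 (.s k13 k14 0 (.s k165 k241 13 (.s k160 k175 2 (.d k240 k80 k90 11 14)))))))] (.c k165 (.l
  (.s k10 k5 2 (.s k170 k255 14 (.s k8 k251 12 (.s k9 k11 0 (.s k12 k4 1 (.s k6 k3 2 (.d k14 k13 k2
  0 1)))))))) .n)) (.c k162 (.l (.s k93 k81 1 (.s k255 k170 14 (.s k12 k174 12 (.s k166 k243 14 (.d
  k4 k8 k247 1 12)))))) (.c k166 (.q k5 [(.s k15 k10 2 (.s k165 k245 11 (.s k90 k240 14 (.s k95 k80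
  2 (.d k255 k175 k170 11 14))))), (.s k15 k10 2 (.s k165 k245 11 (.s k13 k241 13 (.s k12 k14 0 (.s
  k8 k4 1 (.d k170 k251 k255 12 14)))))), (.s k81 k93 1 (.s k165 k245 11 (.s k170 k255 14 (.s k160
  k175 2 (.s k240 k80 11 (.s k241 k13 13 (.d k243 k242 k162 0 12))))))), (.s k15 k10 2 (.s k81 k93 1
  (.s k243 k162 12 (.s k91 k167 13 (.s k90 k88 0 (.s k80 k95 2 (.d k240 k165 k160 14 11)))))))] (.c
  k15 (.l (.s k81 k93 1 (.s k165 k245 11 (.s k170 k255 14 (.s k241 k13 13 (.s k243 k162 12 (.s k240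
  k242 0 (.d k160 k175 k80 2 11)))))))) (.c k165 (.l (.s k10 k15 2 (.s k170 k255 14 (.s k8 k251 12
  (.s k11 k9 0 (.s k90 k250 11 (.s k88 k91 0 (.d k248 k168 k169 11 12)))))))) (.c k170 (.l (.s k15
  k10 2 (.s k81 k93 1 (.s k165 k245 11 (.s k90 k240 14 (.s k91 k88 0 (.d k243 k162 k167 12 13)))))))
  .n)))) (.c k170 (.q k86 [(.s k81 k93 1 (.s k83 k92 2 (.s k80 k82 0 (.s k87 k84 0 (.d k95 k91 k90 1
  2))))), (.s k81 k93 1 (.s k84 k87 0 (.s k243 k162 12 (.s k166 k12 14 (.s k246 k6 11 (.d k252 k249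
  k168 2 13)))))), (.s k84 k87 0 (.s k92 k83 2 (.s k252 k168 13 (.s k12 k172 11 (.s k4 k8 1 (.d k166
  k247 k243 12 14)))))), (.s k81 k93 1 (.s k83 k92 2 (.s k243 k162 12 (.s k3 k163 11 (.s k166 k12 14
  (.s k246 k6 11 (.d k252 k249 k169 2 14)))))))] .n) (.c k174 (.l (.s k81 k93 1 (.s k243 k162 12 (.s
  k12 k166 14 (.s k170 k255 14 (.d k8 k4 k251 1 12)))))) (.c k243 (.q k20 [(.s k60 k40 5 (.s k150
  k215 8 (.s k105 k195 14 (.s k125 k65 5 (.d k255 k190 k170 8 14))))), (.s k93 k81 1 (.s k150 k215 8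
  (.s k28 k211 10 (.s k16 k24 1 (.d k223 k158 k154 8 10))))), (.s k60 k40 5 (.s k93 k81 1 (.s k255
  k170 14 (.s k12 k174 12 (.s k28 k44 3 (.s k16 k24 1 (.d k223 k158 k154 8 10)))))))] .n) (.c k247
  (.l (.s k81 k93 1 (.s k170 k255 14 (.s k8 k251 12 (.s k243 k162 12 (.d k12 k4 k166 1 14)))))) (.c
  k251 (.l (.s k93 k81 1 (.s k255 k170 14 (.s k12 k174 12 (.s k4 k8 1 (.d k166 k247 k243 12 14))))))
  (.c k255 (.q k252 [(.s k81 k93 1 (.s k84 k168 13 (.s k86 k87 0 (.s k243 k162 12 (.s k246 k249 2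
  (.d k166 k12 k6 14 11)))))), (.s k84 k168 13 (.s k86 k87 0 (.s k92 k83 2 (.s k80 k88 1 (.s k93 k81
  1 (.d k95 k94 k90 0 2)))))), (.s k81 k93 1 (.s k84 k168 13 (.s k243 k162 12 (.s k12 k166 14 (.s
  k92 k172 11 (.s k80 k88 1 (.d k83 k82 k86 0 2))))))), (.s k84 k168 13 (.s k86 k87 0 (.s k92 k83 2
  (.s k12 k172 11 (.s k4 k8 1 (.d k166 k247 k243 12 14)))))), (.s k81 k93 1 (.s k243 k162 12 (.s k12
  k166 14 (.s k92 k172 11 (.s k86 k83 2 (.s k169 k3 14 (.d k249 k246 k9 2 11)))))))] (.c k86 (.f k81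
  k93 1 (.l (.s k84 k168 13 (.s k243 k162 12 (.s k12 k166 14 (.s k4 k8 1 (.s k92 k172 11 (.s k88 k80
  1 (.d k164 k244 k240 11 13))))))))) .n)) .n)))))))))))))

def t2_3 : T TT 256 :=
  (.q k89 [(.s k81 k93 1 (.s k243 k162 12 (.s k12 k166 14 (.s k8 k4 1 (.d k170 k251 k255 12 14))))),
  (.s k93 k81 1 (.s k255 k170 14 (.s k12 k174 12 (.s k166 k243 14 (.d k4 k8 k247 1 12)))))] (.c k4
  (.q k1 [(.s k93 k81 1 (.s k253 k169 13 (.s k13 k173 11 (.s k165 k241 13 (.d k5 k9 k245 1 11))))),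
  (.s k169 k253 13 (.s k9 k249 11 (.s k170 k255 14 (.s k8 k251 12 (.s k10 k11 0 (.d k5 k15 k13 2
  1)))))), (.s k81 k93 1 (.s k170 k255 14 (.s k241 k161 11 (.s k165 k13 13 (.s k160 k175 2 (.s k240
  k80 11 (.d k243 k242 k162 0 12)))))))] (.c k13 (.l (.s k81 k93 1 (.s k241 k161 11 (.s k243 k162 12
  (.s k253 k169 13 (.s k245 k249 1 (.s k255 k170 14 (.d k240 k242 k250 0 2)))))))) (.c k241 (.l (.s
  k81 k93 1 (.s k169 k253 13 (.s k170 k255 14 (.s k243 k162 12 (.s k249 k9 11 (.s k252 k246 2 (.d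
  k168 k171 k84 0 13)))))))) (.c k253 (.l (.s k81 k93 1 (.s k241 k161 11 (.s k13 k165 13 (.s k5 k9 1
  (.s k15 k10 2 (.s k243 k162 12 (.d k12 k14 k166 0 14)))))))) .n)))) (.c k8 (.l (.s k81 k93 1 (.s
  k243 k162 12 (.s k166 k12 14 (.s k247 k4 12 (.d k255 k251 k170 1 14)))))) (.c k12 (.f k93 k81 1
  (.q k5 [(.s k165 k245 11 (.s k13 k241 13 (.s k253 k173 11 (.d k1 k9 k169 1 13)))), (.s k15 k10 2
  (.s k255 k170 14 (.s k95 k175 11 (.s k90 k80 2 (.s k91 k88 0 (.s k83 k87 1 (.d k92 k86 k94 2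
  0)))))))] (.c k6 (.q k9 [(.s k1 k13 1 (.d k169 k249 k253 11 13)), (.s k170 k255 14 (.s k8 k251 12
  (.d k10 k11 k15 0 2)))] (.c k10 (.q k14 [(.s k1 k13 1 (.d k169 k249 k253 11 13)), (.s k165 k245 11
  (.s k170 k255 14 (.s k160 k175 2 (.s k240 k80 11 (.s k241 k13 13 (.s k242 k243 0 (.d k90 k15 k166
  14 13)))))))] (.c k13 (.q k15 [(.s k165 k245 11 (.s k170 k255 14 (.s k160 k175 2 (.d k240 k80 k90
  11 14)))), (.s k169 k249 11 (.s k253 k1 13 (.s k255 k170 14 (.s k254 k252 0 (.s k94 k174 11 (.d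
  k95 k92 k175 0 11)))))), (.s k165 k245 11 (.s k169 k249 11 (.s k173 k161 1 (.s k94 k252 12 (.s k92
  k95 0 (.s k86 k83 2 (.d k90 k82 k240 1 14)))))))] (.c k90 (.l (.s k165 k245 11 (.s k169 k249 11
  (.s k170 k255 14 (.s k173 k161 1 (.s k252 k94 12 (.d k168 k171 k84 0 13))))))) .n)) .n)) (.c k14
  (.l (.s k10 k15 2 (.s k13 k1 1 (.d k165 k241 k245 13 11)))) (.c k15 (.l (.s k13 k1 1 (.d k165 k241
  k245 13 11))) .n)))) (.c k9 (.q k6 [(.s k15 k10 2 (.s k165 k245 11 (.s k170 k255 14 (.s k160 k175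
  2 (.d k240 k80 k90 11 14))))), (.s k4 k7 0 (.s k166 k247 12 (.s k86 k246 11 (.s k92 k83 2 (.s k95
  k94 0 (.s k80 k90 2 (.d k84 k87 k88 0 1))))))), (.s k7 k4 0 (.s k165 k245 11 (.s k86 k244 12 (.s
  k84 k87 0 (.s k92 k83 2 (.s k80 k88 1 (.d k95 k94 k90 0 2))))))), (.s k4 k7 0 (.s k15 k10 2 (.s
  k166 k247 12 (.s k255 k170 14 (.s k95 k175 11 (.s k92 k94 0 (.d k86 k83 k246 2 11)))))))] (.c k87
  (.l (.s k15 k10 2 (.s k165 k245 11 (.s k90 k240 14 (.s k95 k80 2 (.d k255 k175 k170 11 14))))))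
  (.c k90 (.l (.s k4 k7 0 (.s k15 k10 2 (.s k166 k247 12 (.s k86 k246 11 (.s k92 k83 2 (.s k95 k94 0
  (.d k255 k170 k175 14 11)))))))) .n))) (.c k165 (.l (.s k10 k15 2 (.s k170 k255 14 (.s k8 k251 12
  (.s k90 k250 11 (.s k88 k91 0 (.s k248 k168 11 (.d k11 k9 k169 0 12)))))))) .n))))) (.c k81 (.q
  k15 [(.s k10 k5 2 (.s k170 k255 14 (.s k90 k250 11 (.s k80 k95 2 (.d k240 k160 k165 11 14))))),
  (.s k5 k10 2 (.s k165 k245 11 (.s k13 k241 13 (.s k90 k240 14 (.s k91 k88 0 (.s k243 k167 13 (.d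
  k12 k14 k166 0 14))))))), (.s k255 k170 14 (.s k95 k175 11 (.s k90 k80 2 (.s k91 k88 0 (.s k243
  k167 13 (.s k166 k12 14 (.d k247 k251 k4 1 12))))))), (.s k170 k255 14 (.s k8 k251 12 (.s k12 k4 1
  (.s k13 k14 0 (.s k165 k241 13 (.d k5 k10 k245 2 11))))))] (.c k165 (.l (.s k10 k5 2 (.s k170 k255
  14 (.s k8 k251 12 (.s k11 k9 0 (.s k90 k250 11 (.s k88 k91 0 (.d k248 k168 k169 11 12)))))))) (.c
  k255 (.l (.s k5 k10 2 (.s k165 k245 11 (.s k240 k90 14 (.s k241 k13 13 (.s k243 k242 0 (.s k166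
  k12 14 (.d k167 k164 k91 0 13)))))))) .n))) (.c k93 (.q k15 [(.s k5 k10 2 (.s k165 k245 11 (.s k90
  k240 14 (.s k95 k80 2 (.d k255 k175 k170 11 14))))), (.s k170 k255 14 (.s k8 k251 12 (.s k12 k4 1
  (.s k13 k14 0 (.s k165 k241 13 (.d k5 k10 k245 2 11)))))), (.s k255 k170 14 (.s k95 k175 11 (.s
  k90 k80 2 (.s k91 k88 0 (.s k243 k167 13 (.s k166 k12 14 (.d k247 k251 k4 1 12)))))))] (.c k6 (.l
  (.s k10 k5 2 (.s k170 k255 14 (.s k90 k250 11 (.s k80 k95 2 (.d k240 k160 k165 11 14)))))) (.c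
  k165 (.l (.s k10 k5 2 (.s k170 k255 14 (.s k8 k251 12 (.s k11 k9 0 (.s k90 k250 11 (.s k88 k91 0
  (.d k248 k168 k169 11 12)))))))) (.c k170 (.l (.s k5 k10 2 (.s k165 k245 11 (.s k13 k241 13 (.s
  k90 k240 14 (.s k91 k88 0 (.s k243 k167 13 (.d k12 k14 k166 0 14)))))))) (.c k255 (.l (.s k5 k10 2
  (.s k165 k245 11 (.s k240 k90 14 (.s k241 k13 13 (.s k243 k242 0 (.s k167 k91 13 (.d k166 k164 k12
  0 14)))))))) .n))))) (.c k162 (.l (.s k93 k81 1 (.s k255 k170 14 (.s k12 k174 12 (.s k166 k243 14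
  (.d k4 k8 k247 1 12)))))) (.c k166 (.q k5 [(.s k93 k81 1 (.s k165 k245 11 (.s k13 k241 13 (.s k253
  k173 11 (.d k1 k9 k169 1 13))))), (.s k15 k10 2 (.s k165 k245 11 (.s k170 k255 14 (.s k160 k175 2
  (.d k240 k80 k90 11 14)))))] (.c k165 (.l (.s k10 k15 2 (.s k170 k255 14 (.s k8 k251 12 (.s k11 k9
  0 (.s k90 k250 11 (.s k88 k91 0 (.d k248 k168 k169 11 12)))))))) (.c k245 (.l (.s k15 k10 2 (.s
  k81 k93 1 (.s k243 k162 12 (.s k91 k167 13 (.s k90 k88 0 (.s k80 k95 2 (.d k240 k165 k160 14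
  11)))))))) .n))) (.c k170 (.f k81 k93 1 (.q k86 [(.s k87 k84 0 (.s k83 k92 2 (.s k95 k91 1 (.d k80
  k82 k90 0 2)))), (.s k84 k87 0 (.s k243 k162 12 (.s k166 k12 14 (.s k252 k168 13 (.d k246 k6 k249
  11 2))))), (.s k83 k92 2 (.s k80 k82 0 (.s k240 k160 11 (.s k243 k162 12 (.s k242 k241 0 (.s k166
  k12 14 (.d k90 k95 k14 2 13)))))))] (.c k82 (.l (.s k84 k87 0 (.s k92 k83 2 (.s k252 k168 13 (.s
  k12 k172 11 (.d k243 k162 k166 12 14)))))) .n))) (.c k174 (.l (.s k81 k93 1 (.s k243 k162 12 (.s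
  k12 k166 14 (.s k170 k255 14 (.d k8 k4 k251 1 12)))))) (.c k243 (.f k81 k93 1 (.q k153 [(.s k17
  k221 9 (.s k209 k145 7 (.s k29 k149 9 (.d k25 k21 k217 1 7)))), (.s k170 k255 14 (.s k187 k136 4
  (.s k217 k25 7 (.s k251 k8 12 (.s k59 k123 7 (.d k200 k234 k106 4 12)))))), (.s k170 k255 14 (.s
  k136 k187 4 (.s k204 k68 9 (.s k51 k102 14 (.d k17 k34 k221 4 9)))))] (.c k83 (.q k163 [(.s k17
  k221 9 (.s k209 k145 7 (.s k29 k149 9 (.d k25 k21 k217 1 7)))), (.s k170 k255 14 (.s k187 k136 4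
  (.s k217 k25 7 (.s k251 k8 12 (.s k59 k123 7 (.d k200 k234 k106 4 12)))))), (.s k170 k255 14 (.s
  k136 k187 4 (.s k204 k68 9 (.s k51 k102 14 (.d k17 k34 k221 4 9)))))] .n) (.c k163 (.q k83 [(.s
  k17 k221 9 (.s k209 k145 7 (.s k29 k149 9 (.d k25 k21 k217 1 7)))), (.s k80 k82 0 (.s k86 k92 2
  (.s k87 k84 0 (.d k95 k91 k90 1 2))))] .n) .n)))) (.c k255 (.q k154 [(.s k93 k81 1 (.s k219 k24 8
  (.s k223 k16 10 (.s k28 k158 8 (.d k211 k215 k150 1 10))))), (.s k81 k93 1 (.s k219 k24 8 (.s k243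
  k162 12 (.s k207 k231 5 (.s k69 k138 10 (.d k101 k117 k48 3 14)))))), (.s k16 k223 10 (.s k48 k32
  3 (.s k81 k93 1 (.s k243 k162 12 (.s k113 k178 8 (.d k101 k207 k77 14 5)))))), (.s k16 k223 10 (.s
  k24 k219 8 (.s k48 k32 3 (.s k12 k36 5 (.s k4 k8 1 (.d k166 k247 k243 12 14))))))] (.c k87 (.q
  k171 [(.s k93 k81 1 (.s k219 k24 8 (.s k223 k16 10 (.s k28 k158 8 (.d k211 k215 k150 1 10))))),
  (.s k81 k93 1 (.s k219 k24 8 (.s k243 k162 12 (.s k207 k231 5 (.s k69 k138 10 (.d k101 k117 k48 3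
  14)))))), (.s k16 k223 10 (.s k48 k32 3 (.s k81 k93 1 (.s k243 k162 12 (.s k113 k178 8 (.d k101
  k207 k77 14 5)))))), (.s k16 k223 10 (.s k24 k219 8 (.s k48 k32 3 (.s k12 k36 5 (.s k4 k8 1 (.d
  k166 k247 k243 12 14))))))] .n) (.c k171 (.q k87 [(.s k16 k223 10 (.s k24 k219 8 (.s k28 k20 1 (.s
  k211 k150 10 (.d k81 k93 k146 1 8))))), (.s k81 k93 1 (.s k86 k84 0 (.s k83 k92 2 (.s k80 k82 0
  (.d k95 k91 k90 1 2))))), (.s k86 k84 0 (.s k222 k18 9 (.s k223 k16 10 (.s k19 k155 9 (.d k220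
  k221 k153 0 10)))))] .n) .n))) .n))))))))))))

def t2_5 : T TT 256 :=
  (.f k170 k255 14 (.q k48 [(.s k16 k32 3 (.s k154 k223 10 (.s k138 k186 3 (.d k207 k69 k101 10
  14))))] (.c k16 (.q k8 [(.s k12 k4 1 (.s k89 k251 12 (.s k81 k93 1 (.d k243 k162 k166 12 14)))),
  (.s k12 k4 1 (.s k24 k36 5 (.s k40 k56 3 (.s k105 k235 8 (.s k65 k125 5 (.s k195 k130 8 (.d k60
  k20 k150 5 14))))))), (.s k89 k251 12 (.s k81 k93 1 (.s k243 k162 12 (.s k113 k178 8 (.s k101 k77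
  5 (.s k69 k117 3 (.d k207 k138 k154 10 14)))))))] (.c k12 (.f k89 k251 12 (.q k243 [(.d k81 k93
  k162 1 12), (.s k113 k178 8 (.s k101 k77 5 (.s k69 k117 3 (.d k207 k138 k154 10 14))))] (.c k93
  (.q k174 [(.d k162 k166 k81 1 12), (.s k113 k178 8 (.s k101 k77 5 (.s k69 k117 3 (.d k207 k138
  k154 10 14))))] .n) (.c k174 (.l (.s k93 k81 1 (.s k113 k178 8 (.s k101 k77 5 (.s k69 k117 3 (.d
  k207 k138 k154 10 14)))))) .n)))) .n)) (.c k32 (.q k162 [(.s k243 k81 12 (.s k166 k174 1 (.s k12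
  k89 14 (.d k4 k8 k247 1 12)))), (.s k243 k81 12 (.s k178 k113 8 (.s k130 k146 3 (.s k150 k190 5
  (.s k20 k215 8 (.s k60 k40 5 (.d k195 k65 k105 8 14)))))))] (.c k81 (.l (.s k166 k174 1 (.s k4
  k247 12 (.s k12 k8 1 (.s k36 k24 5 (.s k101 k231 8 (.s k69 k117 3 (.d k207 k138 k154 10 14))))))))
  (.c k243 (.f k166 k174 1 (.q k12 [(.d k4 k247 k8 12 1), (.s k36 k24 5 (.s k101 k231 8 (.s k69 k117
  3 (.d k207 k138 k154 10 14))))] (.c k247 (.q k251 [(.d k8 k4 k89 1 12), (.s k36 k24 5 (.s k101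
  k231 8 (.s k69 k117 3 (.d k207 k138 k154 10 14))))] .n) (.c k251 (.l (.s k247 k4 12 (.s k36 k24 5
  (.s k101 k231 8 (.s k69 k117 3 (.d k207 k138 k154 10 14)))))) .n)))) .n))) (.c k69 (.f k32 k16 3
  (.q k105 [(.s k40 k235 8 (.s k60 k20 5 (.s k65 k125 5 (.d k195 k130 k150 8 14)))), (.s k65 k125 5
  (.s k101 k239 10 (.s k97 k109 1 (.s k81 k113 3 (.d k162 k227 k243 8 12))))), (.s k40 k235 8 (.s
  k36 k44 1 (.s k12 k24 5 (.s k4 k8 1 (.d k20 k52 k60 3 5)))))] (.c k60 (.l (.s k101 k239 10 (.s k97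
  k109 1 (.s k195 k146 12 (.d k65 k125 k130 5 8))))) (.c k133 (.q k197 [(.s k40 k235 8 (.s k60 k20 5
  (.s k65 k125 5 (.d k195 k130 k150 8 14)))), (.s k65 k125 5 (.s k101 k239 10 (.s k97 k109 1 (.s k81
  k113 3 (.d k162 k227 k243 8 12))))), (.s k40 k235 8 (.s k36 k44 1 (.s k12 k24 5 (.s k4 k8 1 (.d
  k20 k52 k60 3 5)))))] (.c k60 (.l (.s k101 k239 10 (.s k97 k109 1 (.s k195 k146 12 (.d k65 k125
  k130 5 8))))) .n)) (.c k197 (.q k133 [(.s k40 k235 8 (.s k60 k20 5 (.s k65 k125 5 (.d k195 k130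
  k150 8 14)))), (.s k65 k125 5 (.s k101 k239 10 (.s k97 k109 1 (.s k81 k113 3 (.d k162 k227 k243 8
  12))))), (.s k40 k235 8 (.s k36 k44 1 (.s k12 k24 5 (.s k4 k8 1 (.d k20 k52 k60 3 5)))))] (.c k60
  (.l (.s k101 k239 10 (.s k97 k109 1 (.s k195 k146 12 (.d k65 k125 k130 5 8))))) .n)) .n))))) (.c
  k101 (.q k4 [(.s k12 k8 1 (.s k166 k247 12 (.s k162 k174 1 (.d k243 k81 k89 12 14)))), (.s k12 k8
  1 (.s k32 k16 3 (.s k36 k24 5 (.s k20 k52 3 (.d k40 k44 k60 1 5))))), (.s k16 k32 3 (.s k154 k223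
  10 (.s k166 k247 12 (.s k178 k142 5 (.s k243 k113 8 (.d k162 k174 k81 1 12))))))] .n) (.c k138 (.f
  k16 k32 3 (.q k146 [(.s k81 k211 8 (.s k97 k195 12 (.s k113 k65 3 (.d k243 k178 k162 8 12)))), (.s
  k154 k223 10 (.s k150 k158 1 (.s k130 k190 5 (.d k195 k65 k97 8 12)))), (.s k81 k211 8 (.s k89 k93
  1 (.s k8 k251 12 (.s k12 k4 1 (.d k243 k162 k166 12 14)))))] (.c k70 (.q k206 [(.s k81 k211 8 (.s
  k97 k195 12 (.s k113 k65 3 (.d k243 k178 k162 8 12)))), (.s k154 k223 10 (.s k150 k158 1 (.s k130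
  k190 5 (.d k195 k65 k97 8 12)))), (.s k81 k211 8 (.s k89 k93 1 (.s k8 k251 12 (.s k12 k4 1 (.d
  k243 k162 k166 12 14)))))] .n) (.c k206 (.q k70 [(.s k81 k211 8 (.s k97 k195 12 (.s k113 k65 3 (.d
  k243 k178 k162 8 12)))), (.s k154 k223 10 (.s k150 k158 1 (.s k130 k190 5 (.d k195 k65 k97 8
  12)))), (.s k81 k211 8 (.s k89 k93 1 (.s k8 k251 12 (.s k12 k4 1 (.d k243 k162 k166 12 14)))))]
  .n) .n)))) (.c k154 (.q k4 [(.s k12 k8 1 (.s k166 k247 12 (.s k162 k174 1 (.d k243 k81 k89 12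
  14)))), (.s k12 k8 1 (.s k32 k16 3 (.s k36 k24 5 (.s k20 k52 3 (.d k40 k44 k60 1 5))))), (.s k32
  k16 3 (.s k101 k239 10 (.s k166 k247 12 (.s k36 k231 8 (.s k20 k52 3 (.d k40 k44 k60 1 5))))))]
  .n) (.c k186 (.l (.s k32 k16 3 (.s k101 k239 10 (.s k69 k117 3 (.d k207 k138 k154 10 14))))) (.c
  k207 (.f k16 k32 3 (.q k146 [(.s k81 k211 8 (.s k97 k195 12 (.s k113 k65 3 (.d k243 k178 k162 8
  12)))), (.s k81 k211 8 (.s k89 k93 1 (.s k8 k251 12 (.s k12 k4 1 (.s k24 k36 5 (.d k154 k223 k219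
  10 8)))))), (.s k195 k97 12 (.s k65 k130 8 (.s k105 k125 5 (.s k40 k235 8 (.d k60 k20 k150 5
  14)))))] (.c k223 (.q k239 [(.s k195 k97 12 (.s k130 k65 8 (.s k162 k178 3 (.d k81 k211 k243 8
  12)))), (.s k81 k211 8 (.s k89 k93 1 (.s k8 k251 12 (.s k12 k4 1 (.d k243 k162 k166 12 14))))),
  (.s k195 k97 12 (.s k65 k130 8 (.s k105 k125 5 (.s k40 k235 8 (.d k60 k20 k150 5 14)))))] (.c k162
  (.l (.s k211 k81 8 (.s k195 k97 12 (.s k227 k243 3 (.s k65 k130 8 (.s k105 k125 5 (.d k235 k231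
  k40 1 8))))))) .n)) (.c k239 (.l (.s k223 k154 10 (.s k81 k211 8 (.s k97 k195 12 (.s k113 k65 3
  (.d k243 k178 k162 8 12)))))) .n)))) (.c k223 (.l (.s k32 k16 3 (.s k101 k239 10 (.s k207 k154 14
  (.d k69 k117 k138 3 10))))) (.c k239 (.l (.s k16 k32 3 (.s k154 k223 10 (.s k207 k101 14 (.d k138
  k186 k69 3 10))))) .n))))))))))))

def t2_6 : T TT 256 :=
  (.f k170 k255 14 (.q k90 [(.s k10 k250 11 (.s k80 k95 2 (.s k240 k160 11 (.d k15 k5 k165 2 14))))]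
  (.c k5 (.q k4 [(.s k12 k8 1 (.s k166 k247 12 (.s k162 k174 1 (.d k243 k81 k89 12 14)))), (.s k12
  k8 1 (.s k80 k95 2 (.s k240 k160 11 (.s k15 k165 14 (.s k14 k13 0 (.d k166 k247 k242 12 13)))))),
  (.s k10 k250 11 (.s k80 k95 2 (.s k166 k247 12 (.s k240 k160 11 (.s k242 k14 13 (.s k243 k241 0
  (.d k162 k174 k81 1 12)))))))] (.c k10 (.q k14 [(.d k166 k247 k242 12 13), (.s k12 k8 1 (.s k15
  k13 0 (.s k80 k95 2 (.d k240 k160 k165 11 14))))] .n) (.c k14 (.l (.s k10 k250 11 (.s k12 k8 1 (.s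
  k166 k247 12 (.s k162 k174 1 (.d k243 k81 k89 12 14)))))) (.c k166 (.l (.s k8 k12 1 (.s k10 k250
  11 (.s k89 k251 12 (.s k88 k91 0 (.s k248 k168 11 (.d k11 k9 k169 0 12))))))) (.c k247 (.l (.s k12
  k8 1 (.s k80 k95 2 (.s k240 k160 11 (.s k88 k164 13 (.s k89 k91 0 (.s k81 k93 1 (.d k243 k162 k166
  12 14)))))))) .n))))) (.c k10 (.q k14 [(.s k166 k242 13 (.s k4 k247 12 (.s k162 k174 1 (.s k243
  k81 12 (.d k12 k8 k89 1 14))))), (.s k80 k95 2 (.s k240 k160 11 (.s k15 k165 14 (.s k12 k13 0 (.s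
  k8 k4 1 (.s k88 k164 13 (.d k89 k91 k251 0 12))))))), (.s k80 k95 2 (.s k166 k242 13 (.s k162 k174
  1 (.s k240 k160 11 (.s k15 k165 14 (.s k12 k13 0 (.d k243 k89 k81 14 12)))))))] (.c k12 (.q k174
  [(.d k166 k162 k242 1 13), (.s k80 k95 2 (.s k94 k254 11 (.s k240 k160 11 (.s k15 k165 14 (.s k252
  k173 12 (.s k84 k168 13 (.d k86 k87 k82 0 1)))))))] (.c k3 (.q k9 [(.d k166 k162 k242 1 13), (.s
  k80 k95 2 (.s k94 k254 11 (.s k240 k160 11 (.s k15 k165 14 (.s k252 k173 12 (.s k84 k168 13 (.d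
  k86 k87 k82 0 1)))))))] (.c k87 (.q k171 [(.d k166 k162 k242 1 13), (.s k169 k168 0 (.s k11 k248
  12 (.s k89 k249 11 (.d k91 k88 k251 0 11))))] .n) (.c k171 (.q k87 [(.d k166 k162 k242 1 13), (.s
  k86 k84 0 (.d k94 k82 k254 1 11))] .n) .n))) (.c k9 (.q k3 [(.d k166 k162 k242 1 13), (.s k80 k95
  2 (.s k94 k254 11 (.s k240 k160 11 (.d k82 k86 k161 1 12))))] (.c k8 (.q k11 [(.d k166 k162 k242 1
  13), (.s k15 k7 1 (.s k80 k95 2 (.d k240 k160 k165 11 14)))] .n) (.c k11 (.q k8 [(.d k166 k162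
  k242 1 13), (.s k80 k95 2 (.s k94 k254 11 (.s k240 k160 11 (.d k82 k86 k161 1 12))))] .n) .n)))
  .n))) (.c k89 (.l (.s k80 k95 2 (.s k166 k242 13 (.s k4 k247 12 (.s k12 k8 1 (.s k15 k13 0 (.d
  k240 k165 k160 14 11))))))) (.c k166 (.l (.s k80 k95 2 (.s k240 k160 11 (.s k15 k165 14 (.s k12
  k13 0 (.s k8 k4 1 (.s k89 k251 12 (.d k88 k164 k91 13 0)))))))) .n)))) (.c k14 (.l (.s k10 k250 11
  (.s k15 k5 2 (.s k80 k95 2 (.d k240 k160 k165 11 14))))) (.c k15 (.f k95 k80 2 (.q k154 [(.s k16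
  k223 10 (.s k48 k32 3 (.s k138 k186 3 (.d k207 k69 k101 10 14)))), (.s k223 k16 10 (.s k31 k159 7
  (.s k208 k149 10 (.d k218 k213 k26 2 7)))), (.s k10 k250 11 (.s k26 k218 7 (.s k58 k42 3 (.s k138
  k186 3 (.d k202 k74 k106 7 11)))))] (.c k10 (.q k14 [(.s k16 k223 10 (.s k48 k32 3 (.s k138 k186 3
  (.d k207 k69 k101 10 14)))), (.s k26 k218 7 (.s k50 k38 5 (.s k102 k206 13 (.s k114 k78 5 (.d k242
  k178 k166 7 13)))))] (.c k138 (.l (.s k218 k26 7 (.s k223 k16 10 (.s k31 k159 7 (.d k208 k213 k149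
  2 10))))) .n)) (.c k14 (.l (.s k10 k250 11 (.s k16 k223 10 (.s k26 k218 7 (.s k21 k31 2 (.d k42
  k63 k58 6 3)))))) .n)))) (.c k80 (.q k166 [(.s k4 k247 12 (.s k12 k8 1 (.s k162 k174 1 (.d k243
  k81 k89 12 14)))), (.s k10 k250 11 (.s k14 k242 13 (.s k15 k5 2 (.s k12 k13 0 (.d k4 k8 k247 1
  12))))), (.s k10 k250 11 (.s k14 k242 13 (.s k162 k174 1 (.s k243 k81 12 (.s k12 k89 14 (.d k15
  k13 k5 0 2))))))] (.c k10 (.l (.s k14 k242 13 (.s k4 k247 12 (.s k12 k8 1 (.s k162 k174 1 (.d k243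
  k81 k89 12 14)))))) (.c k12 (.l (.s k10 k250 11 (.s k15 k5 2 (.s k240 k165 14 (.s k242 k14 13 (.s
  k243 k241 0 (.d k162 k174 k81 1 12))))))) (.c k14 (.l (.s k10 k250 11 (.s k4 k247 12 (.s k12 k8 1
  (.s k162 k174 1 (.d k243 k81 k89 12 14)))))) (.c k162 (.l (.s k4 k247 12 (.s k10 k250 11 (.s k12
  k8 1 (.s k15 k5 2 (.d k14 k13 k242 0 13)))))) .n))))) (.c k95 (.f k10 k250 11 (.f k15 k5 2 (.f
  k240 k165 14 (.q k4 [(.s k12 k8 1 (.s k166 k247 12 (.d k14 k13 k242 0 13))), (.s k12 k8 1 (.s k88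
  k164 13 (.s k89 k91 0 (.d k166 k247 k243 12 14)))), (.s k166 k247 12 (.s k242 k14 13 (.s k243 k241
  0 (.d k162 k174 k81 1 12))))] (.c k166 (.l (.s k8 k12 1 (.s k89 k251 12 (.s k88 k91 0 (.s k248
  k168 11 (.d k11 k9 k169 0 12)))))) (.c k243 (.l (.s k12 k8 1 (.s k14 k13 0 (.d k166 k247 k242 12
  13)))) (.c k247 (.l (.s k12 k8 1 (.s k14 k13 0 (.s k88 k164 13 (.s k89 k91 0 (.d k166 k242 k243 13
  14)))))) .n))))))) (.c k160 (.q k166 [(.s k4 k247 12 (.s k12 k8 1 (.s k162 k174 1 (.d k243 k81 k89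
  12 14)))), (.s k10 k250 11 (.s k14 k242 13 (.s k15 k5 2 (.s k12 k13 0 (.d k4 k8 k247 1 12))))),
  (.s k10 k250 11 (.s k14 k242 13 (.s k162 k174 1 (.s k243 k81 12 (.s k12 k89 14 (.d k15 k13 k5 0
  2))))))] (.c k10 (.l (.s k14 k242 13 (.s k4 k247 12 (.s k12 k8 1 (.s k162 k174 1 (.d k243 k81 k89
  12 14)))))) (.c k12 (.l (.s k10 k250 11 (.s k15 k5 2 (.s k240 k165 14 (.s k242 k14 13 (.s k243
  k241 0 (.d k162 k174 k81 1 12))))))) (.c k14 (.l (.s k10 k250 11 (.s k4 k247 12 (.s k12 k8 1 (.s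
  k162 k174 1 (.d k243 k81 k89 12 14)))))) (.c k162 (.l (.s k4 k247 12 (.s k10 k250 11 (.s k12 k8 1
  (.s k15 k5 2 (.d k14 k13 k242 0 13)))))) .n))))) (.c k165 (.q k166 [(.s k4 k247 12 (.s k12 k8 1
  (.s k162 k174 1 (.d k243 k81 k89 12 14)))), (.s k80 k95 2 (.s k162 k174 1 (.s k240 k160 11 (.s
  k243 k81 12 (.d k242 k14 k241 13 0))))), (.s k4 k247 12 (.s k10 k250 11 (.s k12 k8 1 (.s k15 k5 2
  (.d k14 k13 k242 0 13)))))] (.c k10 (.l (.s k14 k242 13 (.s k4 k247 12 (.s k12 k8 1 (.s k162 k174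
  1 (.d k243 k81 k89 12 14)))))) (.c k12 (.l (.s k10 k250 11 (.s k80 k95 2 (.s k240 k160 11 (.s k242
  k14 13 (.s k243 k241 0 (.d k162 k174 k81 1 12))))))) (.c k14 (.l (.s k10 k250 11 (.s k4 k247 12
  (.s k12 k8 1 (.s k162 k174 1 (.d k243 k81 k89 12 14)))))) (.c k243 (.l (.s k10 k250 11 (.s k14
  k242 13 (.s k15 k5 2 (.s k12 k13 0 (.d k4 k8 k247 1 12)))))) .n))))) (.c k175 (.l (.s k10 k250 11
  (.s k15 k5 2 (.s k80 k95 2 (.d k240 k160 k165 11 14))))) (.c k240 (.f k10 k250 11 (.q k245 [(.d k5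
  k15 k165 2 11)] (.c k5 (.q k88 [(.s k89 k91 0 (.s k8 k251 12 (.s k248 k168 11 (.d k11 k9 k169 0
  12)))), (.s k80 k95 2 (.s k89 k91 0 (.s k81 k93 1 (.s k83 k82 0 (.d k92 k84 k86 1 2))))), (.s k80
  k95 2 (.s k84 k92 1 (.s k168 k252 13 (.s k169 k171 0 (.d k248 k8 k11 11 12)))))] (.c k4 (.q k7
  [(.s k89 k91 0 (.s k8 k251 12 (.s k248 k168 11 (.d k11 k9 k169 0 12)))), (.s k80 k95 2 (.s k89 k91
  0 (.s k81 k93 1 (.s k83 k82 0 (.d k92 k84 k86 1 2))))), (.s k80 k95 2 (.s k84 k92 1 (.s k168 k252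
  13 (.s k169 k171 0 (.d k248 k8 k11 11 12)))))] .n) (.c k7 (.q k4 [(.s k89 k91 0 (.d k8 k12 k251 1
  12)), (.s k80 k95 2 (.s k84 k92 1 (.s k244 k164 11 (.d k247 k246 k166 0 12))))] .n) .n))) (.c k15
  (.q k101 [(.s k32 k239 10 (.s k48 k16 3 (.s k69 k117 3 (.d k207 k138 k154 10 14)))), (.s k5 k165
  11 (.s k117 k69 3 (.s k53 k181 7 (.s k149 k197 11 (.d k21 k37 k213 3 7))))), (.s k32 k239 10 (.s
  k165 k5 11 (.s k37 k229 7 (.s k47 k42 2 (.s k224 k106 10 (.d k160 k175 k96 2 7))))))] (.c k95 (.q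
  k175 [(.d k165 k160 k5 2 11), (.s k32 k239 10 (.s k48 k16 3 (.s k69 k117 3 (.d k207 k138 k154 10
  14))))] .n) (.c k175 (.l (.s k95 k80 2 (.s k32 k239 10 (.s k48 k16 3 (.s k69 k117 3 (.d k207 k138
  k154 10 14)))))) .n))) (.c k165 (.q k1 [(.s k5 k15 2 (.s k9 k13 1 (.s k11 k8 0 (.d k169 k248 k253
  12 13)))), (.s k15 k5 2 (.s k169 k253 13 (.s k168 k171 0 (.s k252 k84 13 (.s k94 k173 12 (.d k86
  k3 k82 14 1)))))), (.s k169 k253 13 (.s k11 k248 12 (.s k8 k9 0 (.s k171 k168 0 (.d k251 k91 k89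
  11 12))))), (.s k5 k15 2 (.s k9 k13 1 (.s k8 k11 0 (.s k12 k4 1 (.s k89 k251 12 (.s k243 k166 14
  (.d k81 k93 k162 1 12)))))))] .n) .n))))) (.c k245 (.l (.s k80 k95 2 (.s k10 k250 11 (.s k240 k160
  11 (.d k15 k5 k165 2 14))))) (.c k250 (.f k80 k95 2 (.f k240 k160 11 (.f k15 k165 14 (.q k12 [(.s
  k4 k8 1 (.s k14 k13 0 (.d k166 k247 k242 12 13))), (.s k8 k4 1 (.s k88 k164 13 (.d k89 k91 k251 0
  12))), (.s k14 k13 0 (.s k88 k164 13 (.s k89 k91 0 (.d k166 k242 k243 13 14))))] (.c k10 (.l (.s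
  k14 k13 0 (.s k4 k8 1 (.d k166 k247 k242 12 13)))) (.c k14 (.l (.s k10 k5 2 (.s k88 k164 13 (.s
  k89 k91 0 (.d k8 k4 k251 1 12))))) (.c k89 (.l (.s k4 k8 1 (.s k166 k247 12 (.d k14 k13 k242 0
  13)))) (.c k166 (.l (.s k8 k4 1 (.s k89 k251 12 (.d k88 k91 k164 0 13)))) .n))))))))
  .n))))))))))))))

def t2_7 : T TT 256 :=
  (.f k170 k255 14 (.q k204 [(.s k68 k136 9 (.s k102 k119 4 (.s k34 k238 9 (.d k51 k17 k153 4
  14))))] (.c k17 (.q k4 [(.s k12 k8 1 (.s k166 k247 12 (.s k162 k174 1 (.d k243 k81 k89 12 14)))),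
  (.s k12 k8 1 (.s k68 k136 9 (.s k76 k140 7 (.s k72 k64 1 (.d k132 k196 k192 7 9))))), (.s k68 k136
  9 (.s k102 k119 4 (.s k166 k247 12 (.s k38 k230 7 (.s k55 k21 4 (.d k196 k132 k149 7 12))))))] .n)
  (.c k34 (.f k68 k136 9 (.q k192 [(.s k64 k128 7 (.s k72 k76 1 (.s k196 k200 1 (.d k132 k4 k12 7
  9)))), (.s k102 k119 4 (.s k196 k200 1 (.s k149 k55 12 (.s k21 k213 7 (.d k63 k42 k106 6 14))))),
  (.s k64 k128 7 (.s k106 k127 6 (.s k42 k234 7 (.d k63 k21 k149 6 14))))] (.c k18 (.q k50 [(.s k64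
  k128 7 (.s k72 k76 1 (.s k196 k200 1 (.d k132 k4 k12 7 9)))), (.s k102 k119 4 (.s k51 k153 14 (.s
  k48 k49 0 (.s k16 k32 3 (.d k154 k223 k206 10 13)))))] .n) (.c k50 (.q k18 [(.s k64 k128 7 (.s k72
  k76 1 (.s k196 k200 1 (.d k132 k4 k12 7 9)))), (.s k102 k119 4 (.s k196 k200 1 (.s k149 k55 12 (.s
  k21 k213 7 (.d k63 k42 k106 6 14))))), (.s k64 k128 7 (.s k106 k127 6 (.s k42 k234 7 (.d k63 k21
  k149 6 14))))] .n) .n)))) (.c k51 (.f k68 k136 9 (.q k4 [(.s k12 k8 1 (.s k76 k140 7 (.s k72 k64 1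
  (.d k132 k196 k192 7 9)))), (.s k166 k247 12 (.s k162 k174 1 (.s k243 k81 12 (.s k230 k217 6 (.d
  k102 k119 k38 4 7)))))] (.c k12 (.l (.s k196 k132 7 (.s k192 k200 1 (.s k128 k64 7 (.s k149 k191 6
  (.d k102 k119 k55 4 12)))))) (.c k119 (.q k187 [(.s k12 k8 1 (.s k76 k140 7 (.s k72 k64 1 (.d k132
  k196 k192 7 9)))), (.s k166 k247 12 (.s k162 k174 1 (.s k243 k81 12 (.d k12 k8 k89 1 14)))), (.s
  k196 k132 7 (.s k247 k166 12 (.s k213 k230 4 (.s k149 k21 7 (.s k128 k191 6 (.d k192 k200 k64 1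
  7))))))] .n) (.c k187 (.l (.s k119 k102 4 (.s k12 k8 1 (.s k76 k140 7 (.s k72 k64 1 (.d k132 k196
  k192 7 9)))))) .n))))) (.c k68 (.q k154 [(.s k16 k223 10 (.s k48 k32 3 (.s k138 k186 3 (.d k207
  k69 k101 10 14)))), (.s k138 k186 3 (.s k207 k69 10 (.s k206 k205 0 (.s k102 k50 13 (.s k34 k238 9
  (.d k51 k17 k153 4 14)))))), (.s k16 k223 10 (.s k48 k32 3 (.s k152 k100 13 (.s k153 k155 0 (.s
  k17 k221 9 (.d k51 k34 k102 4 14))))))] (.c k48 (.q k153 [(.s k17 k221 9 (.d k51 k34 k102 4 14)),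
  (.s k51 k102 14 (.s k155 k152 0 (.s k207 k103 13 (.d k138 k186 k69 3 10)))), (.s k16 k223 10 (.s
  k17 k221 9 (.s k19 k18 0 (.s k152 k155 0 (.d k220 k84 k86 9 10)))))] (.c k117 (.l (.s k186 k138 3
  (.s k17 k221 9 (.d k51 k34 k102 4 14)))) (.c k186 (.q k117 [(.s k17 k221 9 (.d k51 k34 k102 4
  14)), (.s k51 k102 14 (.s k69 k101 3 (.s k155 k152 0 (.d k207 k103 k138 13 10)))), (.s k16 k223 10
  (.s k17 k221 9 (.s k19 k18 0 (.s k152 k155 0 (.d k220 k84 k86 9 10)))))] .n) .n))) (.c k207 (.q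
  k165 [(.s k5 k245 11 (.s k160 k175 2 (.s k240 k80 11 (.d k15 k10 k90 2 14)))), (.s k138 k186 3 (.s
  k143 k176 6 (.s k128 k133 2 (.s k175 k160 2 (.d k191 k159 k149 3 6))))), (.s k5 k245 11 (.s k15
  k10 2 (.s k141 k78 8 (.s k153 k177 5 (.s k17 k221 9 (.d k51 k34 k102 4 14))))))] (.c k223 (.q k239
  [(.s k5 k245 11 (.s k160 k175 2 (.s k240 k80 11 (.d k15 k10 k90 2 14)))), (.s k32 k101 10 (.s k175
  k160 2 (.s k47 k111 7 (.s k42 k37 2 (.d k106 k234 k224 7 10))))), (.s k5 k245 11 (.s k15 k10 2 (.s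
  k32 k101 10 (.s k48 k16 3 (.s k26 k37 6 (.d k90 k240 k218 14 7))))))] .n) (.c k239 (.l (.s k223
  k16 10 (.s k5 k245 11 (.s k15 k10 2 (.s k160 k175 2 (.d k240 k80 k90 11 14)))))) .n))) .n))) (.c
  k102 (.q k4 [(.s k12 k8 1 (.s k166 k247 12 (.s k162 k174 1 (.d k243 k81 k89 12 14)))), (.s k68
  k136 9 (.s k196 k132 7 (.s k192 k200 1 (.s k128 k64 7 (.s k149 k191 6 (.s k21 k213 7 (.d k63 k42
  k106 6 14)))))))] (.c k8 (.l (.s k136 k68 9 (.s k153 k187 4 (.s k166 k247 12 (.s k140 k179 6 (.s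
  k12 k76 7 (.s k162 k174 1 (.d k243 k89 k81 14 12)))))))) .n)) (.c k119 (.l (.s k136 k68 9 (.s k153
  k187 4 (.s k51 k102 14 (.d k17 k34 k221 4 9))))) (.c k136 (.q k154 [(.s k16 k223 10 (.s k48 k32 3
  (.s k138 k186 3 (.d k207 k69 k101 10 14)))), (.s k138 k186 3 (.s k207 k69 10 (.s k206 k205 0 (.s
  k102 k50 13 (.s k34 k238 9 (.d k51 k17 k153 4 14)))))), (.s k16 k223 10 (.s k48 k32 3 (.s k152
  k100 13 (.s k153 k155 0 (.s k17 k221 9 (.d k51 k34 k102 4 14))))))] (.c k48 (.q k150 [(.s k20 k215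
  8 (.s k60 k40 5 (.s k130 k190 5 (.d k195 k65 k105 8 14)))), (.s k16 k223 10 (.s k130 k190 5 (.s
  k146 k158 1 (.s k162 k178 3 (.d k81 k243 k211 12 8))))), (.s k16 k223 10 (.s k20 k215 8 (.s k28
  k24 1 (.s k146 k158 1 (.d k211 k81 k89 8 10)))))] (.c k117 (.l (.s k186 k138 3 (.s k20 k215 8 (.s
  k60 k40 5 (.s k130 k190 5 (.d k195 k65 k105 8 14)))))) (.c k186 (.q k117 [(.s k20 k215 8 (.s k60
  k40 5 (.s k195 k105 14 (.d k130 k190 k65 5 8)))), (.s k16 k223 10 (.s k130 k190 5 (.s k146 k158 1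
  (.s k81 k211 8 (.d k162 k178 k243 3 12))))), (.s k16 k223 10 (.s k20 k215 8 (.s k28 k24 1 (.s k146
  k158 1 (.d k211 k81 k89 8 10)))))] (.c k215 (.l (.s k69 k101 3 (.s k130 k190 5 (.s k138 k207 10
  (.s k134 k142 1 (.s k4 k199 8 (.d k166 k182 k247 3 12))))))) .n)) .n))) (.c k207 (.q k65 [(.s k105
  k125 5 (.s k40 k235 8 (.s k60 k20 5 (.d k195 k130 k150 8 14)))), (.s k130 k195 8 (.s k138 k186 3
  (.s k142 k134 1 (.s k166 k178 5 (.s k174 k162 1 (.d k190 k158 k150 3 5)))))), (.s k105 k125 5 (.s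
  k138 k186 3 (.s k203 k56 12 (.s k8 k73 8 (.s k235 k40 8 (.d k251 k219 k89 3 12))))))] (.c k190 (.l
  (.s k195 k130 8 (.s k105 k125 5 (.s k60 k150 14 (.d k40 k20 k235 5 8))))) (.c k223 (.q k239 [(.s
  k105 k125 5 (.s k40 k235 8 (.s k60 k20 5 (.d k195 k130 k150 8 14)))), (.s k32 k101 10 (.s k48 k16
  3 (.s k152 k100 13 (.s k153 k155 0 (.s k17 k221 9 (.d k51 k102 k34 14 4))))))] .n) (.c k235 (.l
  (.s k105 k125 5 (.s k56 k203 12 (.s k195 k130 8 (.s k60 k150 14 (.s k48 k52 1 (.d k16 k32 k223 3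
  10))))))) (.c k239 (.l (.s k223 k16 10 (.s k105 k125 5 (.s k40 k235 8 (.s k60 k20 5 (.d k195 k130
  k150 8 14)))))) .n))))) .n))) (.c k153 (.q k4 [(.s k12 k8 1 (.s k166 k247 12 (.s k162 k174 1 (.d
  k243 k81 k89 12 14)))), (.s k12 k8 1 (.s k68 k136 9 (.s k132 k196 7 (.s k72 k192 9 (.d k76 k64
  k140 1 7))))), (.s k68 k136 9 (.s k102 k119 4 (.s k166 k247 12 (.s k38 k230 7 (.s k55 k21 4 (.d
  k196 k132 k149 7 12))))))] .n) (.c k187 (.l (.s k68 k136 9 (.s k102 k119 4 (.s k51 k153 14 (.d k34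
  k17 k238 4 9))))) (.c k238 (.l (.s k136 k68 9 (.s k153 k187 4 (.s k17 k221 9 (.d k51 k34 k102 4
  14))))) .n))))))))))))

def t2_8 : T TT 256 :=
  (.f k170 k255 14 (.q k240 [(.s k80 k160 11 (.s k90 k95 2 (.s k10 k250 11 (.d k15 k5 k165 2 14))))]
  (.c k5 (.q k16 [(.s k48 k32 3 (.s k154 k223 10 (.s k138 k186 3 (.d k207 k69 k101 10 14)))), (.s
  k48 k32 3 (.s k80 k160 11 (.s k112 k176 7 (.s k96 k64 3 (.d k144 k208 k192 7 11))))), (.s k80 k160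
  11 (.s k90 k95 2 (.s k154 k223 10 (.s k26 k218 7 (.s k31 k21 2 (.d k208 k144 k149 7 10))))))] .n)
  (.c k10 (.q k169 [(.s k80 k160 11 (.s k90 k95 2 (.s k168 k171 0 (.s k252 k84 13 (.d k248 k11 k244
  12 1))))), (.s k1 k253 13 (.s k160 k80 11 (.s k165 k175 2 (.s k161 k173 1 (.s k81 k241 11 (.d k162
  k163 k243 0 12)))))), (.s k80 k160 11 (.s k168 k171 0 (.s k252 k84 13 (.s k248 k244 1 (.d k90 k11
  k95 12 2))))), (.s k168 k171 0 (.s k252 k84 13 (.s k3 k86 14 (.s k161 k82 12 (.s k165 k173 1 (.s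
  k90 k15 14 (.d k248 k11 k244 12 1)))))))] (.c k6 (.q k14 [(.s k80 k160 11 (.s k90 k95 2 (.s k168
  k171 0 (.s k252 k84 13 (.d k248 k11 k244 12 1))))), (.s k1 k253 13 (.s k160 k80 11 (.s k165 k175 2
  (.s k161 k173 1 (.s k81 k241 11 (.d k162 k163 k243 0 12)))))), (.s k80 k160 11 (.s k168 k171 0 (.s
  k252 k84 13 (.s k248 k244 1 (.d k90 k11 k95 12 2))))), (.s k168 k171 0 (.s k252 k84 13 (.s k3 k86
  14 (.s k161 k82 12 (.s k165 k173 1 (.s k90 k15 14 (.d k248 k11 k244 12 1)))))))] (.c k9 (.q k11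
  [(.s k80 k160 11 (.d k90 k95 k248 2 12)), (.s k168 k171 0 (.s k248 k90 12 (.d k252 k244 k84 1
  13))), (.s k1 k253 13 (.s k160 k80 11 (.s k165 k175 2 (.s k161 k173 1 (.s k81 k241 11 (.d k162
  k163 k243 0 12))))))] (.c k3 (.q k12 [(.s k80 k160 11 (.d k90 k95 k248 2 12)), (.s k15 k13 0 (.d
  k90 k248 k165 12 14))] (.c k87 (.l (.s k171 k168 0 (.s k15 k13 0 (.d k90 k248 k165 12 14)))) (.c
  k90 (.l (.s k160 k80 11 (.s k164 k88 13 (.d k168 k171 k172 0 1)))) (.c k171 (.q k87 [(.s k80 k160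
  11 (.d k90 k95 k248 2 12)), (.s k15 k13 0 (.d k90 k248 k165 12 14)), (.s k80 k160 11 (.s k84 k86 0
  (.d k88 k92 k164 1 13)))] .n) (.c k248 (.l (.s k15 k13 0 (.s k80 k160 11 (.d k90 k95 k165 2 14))))
  .n))))) (.c k12 (.q k3 [(.s k80 k160 11 (.d k90 k95 k248 2 12)), (.s k168 k171 0 (.d k252 k84 k86
  13 14))] (.c k93 (.q k174 [(.s k80 k160 11 (.d k90 k95 k248 2 12)), (.s k168 k171 0 (.d k252 k84
  k86 13 14))] .n) (.c k174 (.q k93 [(.s k80 k160 11 (.d k90 k95 k248 2 12)), (.s k168 k171 0 (.d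
  k252 k84 k86 13 14))] .n) .n))) .n))) (.c k11 (.q k9 [(.s k160 k80 11 (.s k165 k175 2 (.s k5 k245
  11 (.d k1 k13 k253 1 13)))), (.s k89 k249 11 (.s k81 k93 1 (.s k243 k162 12 (.s k242 k241 0 (.d
  k166 k12 k90 14 13))))), (.s k89 k249 11 (.s k160 k80 11 (.s k165 k175 2 (.s k15 k90 14 (.d k13
  k12 k241 0 13)))))] .n) (.c k95 (.l (.s k1 k253 13 (.s k160 k80 11 (.s k165 k175 2 (.s k15 k90 14
  (.s k5 k245 11 (.d k13 k12 k9 0 1))))))) (.c k252 (.l (.s k160 k80 11 (.s k165 k175 2 (.s k5 k245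
  11 (.s k15 k90 14 (.s k13 k12 0 (.d k1 k9 k253 1 13))))))) .n))))) (.c k9 (.q k11 [(.s k80 k160 11
  (.d k90 k95 k248 2 12)), (.s k168 k171 0 (.s k248 k90 12 (.d k252 k244 k84 1 13))), (.s k1 k253 13
  (.s k160 k80 11 (.s k165 k175 2 (.s k161 k173 1 (.s k81 k241 11 (.d k162 k163 k243 0 12))))))] (.c
  k6 (.q k14 [(.s k80 k160 11 (.d k90 k95 k248 2 12)), (.s k168 k171 0 (.s k248 k90 12 (.d k252 k244
  k84 1 13))), (.s k1 k253 13 (.s k160 k80 11 (.s k165 k175 2 (.s k161 k173 1 (.s k81 k241 11 (.d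
  k162 k163 k243 0 12))))))] (.c k3 (.q k12 [(.s k80 k160 11 (.d k90 k95 k248 2 12)), (.s k15 k13 0
  (.d k90 k248 k165 12 14))] (.c k87 (.l (.s k171 k168 0 (.s k15 k13 0 (.d k90 k248 k165 12 14))))
  (.c k90 (.l (.s k160 k80 11 (.s k164 k88 13 (.d k168 k171 k172 0 1)))) (.c k171 (.q k87 [(.s k80
  k160 11 (.d k90 k95 k248 2 12)), (.s k15 k13 0 (.d k90 k248 k165 12 14)), (.s k80 k160 11 (.s k84
  k86 0 (.d k88 k92 k164 1 13)))] .n) (.c k248 (.l (.s k15 k13 0 (.s k80 k160 11 (.d k90 k95 k165 2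
  14)))) .n))))) (.c k12 (.q k3 [(.s k80 k160 11 (.d k90 k95 k248 2 12)), (.s k168 k171 0 (.d k252
  k84 k86 13 14))] (.c k93 (.q k174 [(.s k80 k160 11 (.d k90 k95 k248 2 12)), (.s k168 k171 0 (.d
  k252 k84 k86 13 14))] .n) (.c k174 (.q k93 [(.s k80 k160 11 (.d k90 k95 k248 2 12)), (.s k168 k171
  0 (.d k252 k84 k86 13 14))] .n) .n))) .n))) (.c k14 (.q k6 [(.s k80 k160 11 (.d k90 k95 k248 2
  12)), (.s k168 k171 0 (.s k248 k90 12 (.d k252 k244 k84 1 13))), (.s k1 k253 13 (.s k160 k80 11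
  (.s k165 k175 2 (.s k161 k173 1 (.s k81 k241 11 (.d k162 k163 k243 0 12))))))] .n) .n))) (.c k11
  (.q k9 [(.s k160 k80 11 (.s k165 k175 2 (.s k5 k245 11 (.d k1 k13 k253 1 13)))), (.s k1 k253 13
  (.s k89 k249 11 (.s k81 k93 1 (.s k241 k161 11 (.d k243 k242 k162 0 12))))), (.s k80 k160 11 (.s
  k89 k249 11 (.s k90 k95 2 (.s k88 k91 0 (.s k84 k92 1 (.d k168 k171 k252 0 13))))))] (.c k6 (.q
  k14 [(.s k160 k80 11 (.s k165 k175 2 (.s k5 k245 11 (.d k1 k13 k253 1 13)))), (.s k89 k249 11 (.s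
  k81 k93 1 (.s k243 k162 12 (.s k242 k241 0 (.d k166 k12 k90 14 13))))), (.s k89 k249 11 (.s k160
  k80 11 (.s k165 k175 2 (.s k15 k90 14 (.d k13 k12 k241 0 13)))))] .n) (.c k14 (.q k6 [(.s k168
  k171 0 (.s k252 k84 13 (.d k3 k12 k86 2 14))), (.s k1 k253 13 (.s k160 k80 11 (.s k165 k175 2 (.d
  k5 k13 k245 1 11))))] (.c k252 (.l (.s k3 k12 2 (.s k160 k80 11 (.s k161 k82 12 (.d k165 k173 k175
  1 2))))) .n)) .n))) (.c k14 (.q k6 [(.s k80 k160 11 (.s k90 k95 2 (.s k168 k171 0 (.s k252 k84 13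
  (.d k248 k11 k244 12 1))))), (.s k1 k253 13 (.s k160 k80 11 (.s k165 k175 2 (.s k161 k173 1 (.s
  k81 k241 11 (.d k162 k163 k243 0 12)))))), (.s k80 k160 11 (.s k168 k171 0 (.s k252 k84 13 (.s
  k248 k244 1 (.d k90 k11 k95 12 2))))), (.s k168 k171 0 (.s k252 k84 13 (.s k3 k86 14 (.s k161 k82
  12 (.s k165 k173 1 (.s k90 k15 14 (.d k248 k11 k244 12 1)))))))] (.c k9 (.q k11 [(.s k80 k160 11
  (.d k90 k95 k248 2 12)), (.s k168 k171 0 (.s k248 k90 12 (.d k252 k244 k84 1 13))), (.s k1 k253 13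
  (.s k160 k80 11 (.s k165 k175 2 (.s k161 k173 1 (.s k81 k241 11 (.d k162 k163 k243 0 12))))))] .n)
  (.c k11 (.q k9 [(.s k168 k171 0 (.s k252 k84 13 (.d k3 k12 k86 2 14))), (.s k1 k253 13 (.s k160
  k80 11 (.s k165 k175 2 (.d k5 k13 k245 1 11))))] (.c k252 (.l (.s k3 k12 2 (.s k160 k80 11 (.s
  k161 k82 12 (.d k165 k173 k175 1 2))))) .n)) (.c k95 (.l (.s k160 k80 11 (.s k165 k175 2 (.s k15
  k90 14 (.s k168 k171 0 (.s k173 k161 1 (.d k252 k94 k84 12 13))))))) (.c k252 (.l (.s k160 k80 11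
  (.s k165 k175 2 (.s k161 k173 1 (.s k162 k163 0 (.s k81 k243 12 (.d k1 k241 k253 11 13)))))))
  .n))))) (.c k95 (.l (.s k160 k80 11 (.s k165 k175 2 (.s k15 k90 14 (.s k168 k171 0 (.s k173 k161 1
  (.d k252 k94 k84 12 13))))))) (.c k252 (.l (.s k160 k80 11 (.s k165 k175 2 (.s k161 k173 1 (.s
  k162 k163 0 (.s k81 k243 12 (.d k1 k241 k253 11 13))))))) .n))))))) (.c k15 (.f k160 k80 11 (.q
  k48 [(.s k16 k32 3 (.s k154 k223 10 (.s k138 k186 3 (.d k207 k69 k101 10 14)))), (.s k176 k112 7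
  (.s k128 k144 3 (.s k149 k191 6 (.s k21 k213 7 (.s k63 k42 6 (.d k192 k64 k106 7 14))))))] (.c k16
  (.l (.s k176 k112 7 (.s k144 k128 3 (.s k96 k192 11 (.s k32 k224 7 (.s k101 k239 10 (.s k69 k117 3
  (.d k207 k138 k154 10 14)))))))) (.c k95 (.l (.s k175 k165 2 (.s k16 k32 3 (.s k154 k223 10 (.s
  k138 k186 3 (.d k207 k69 k101 10 14)))))) (.c k175 (.q k95 [(.s k16 k32 3 (.s k154 k223 10 (.s
  k138 k186 3 (.d k207 k69 k101 10 14)))), (.s k176 k112 7 (.s k128 k144 3 (.s k149 k191 6 (.s k21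
  k213 7 (.s k63 k42 6 (.d k192 k64 k106 7 14))))))] (.c k16 (.l (.s k176 k112 7 (.s k144 k128 3 (.s
  k96 k192 11 (.s k32 k224 7 (.s k101 k239 10 (.s k69 k117 3 (.d k207 k138 k154 10 14)))))))) .n))
  .n))))) (.c k80 (.q k153 [(.s k17 k221 9 (.s k136 k187 4 (.s k204 k68 9 (.d k51 k34 k102 4 14)))),
  (.s k136 k187 4 (.s k204 k68 9 (.s k216 k228 5 (.s k90 k27 8 (.s k10 k250 11 (.d k15 k5 k165 2
  14)))))), (.s k17 k221 9 (.s k51 k34 4 (.s k177 k114 8 (.s k165 k141 5 (.s k5 k245 11 (.d k15 k10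
  k90 2 14))))))] (.c k51 (.q k32 [(.s k48 k16 3 (.s k101 k239 10 (.s k69 k117 3 (.d k207 k138 k154
  10 14)))), (.s k16 k48 3 (.s k17 k221 9 (.s k19 k18 0 (.s k86 k220 10 (.s k87 k84 0 (.d k223 k155
  k154 9 10)))))), (.s k17 k221 9 (.s k101 k239 10 (.s k49 k205 13 (.s k1 k33 3 (.s k117 k69 3 (.d
  k253 k185 k169 9 13))))))] (.c k117 (.l (.s k48 k16 3 (.s k101 k239 10 (.s k112 k176 7 (.s k90 k79
  6 (.s k10 k250 11 (.d k15 k5 k165 2 14))))))) (.c k119 (.l (.s k187 k136 4 (.s k48 k16 3 (.s k101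
  k239 10 (.s k69 k117 3 (.d k207 k138 k154 10 14)))))) (.c k187 (.q k119 [(.s k48 k16 3 (.s k101
  k239 10 (.s k69 k117 3 (.d k207 k138 k154 10 14)))), (.s k16 k48 3 (.s k17 k221 9 (.s k19 k18 0
  (.s k86 k220 10 (.s k87 k84 0 (.d k223 k155 k154 9 10)))))), (.s k17 k221 9 (.s k101 k239 10 (.s
  k49 k205 13 (.s k33 k1 3 (.s k34 k35 0 (.d k102 k238 k68 9 4))))))] (.c k223 (.l (.s k48 k16 3 (.s
  k101 k239 10 (.s k207 k154 14 (.d k69 k117 k138 3 10))))) .n)) (.c k223 (.l (.s k48 k16 3 (.s k101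
  k239 10 (.s k207 k154 14 (.d k69 k117 k138 3 10))))) .n))))) (.c k204 (.q k169 [(.s k1 k253 13 (.s
  k137 k185 3 (.s k205 k69 9 (.s k49 k101 13 (.d k17 k221 k33 9 3))))), (.s k168 k171 0 (.s k252 k84
  13 (.s k248 k244 1 (.s k90 k11 12 (.s k10 k250 11 (.d k15 k5 k165 2 14))))))] (.c k221 (.q k238
  [(.s k34 k102 9 (.s k51 k17 4 (.s k168 k171 0 (.s k185 k137 3 (.d k252 k118 k84 10 13))))), (.s k1
  k253 13 (.s k136 k187 4 (.s k137 k185 3 (.s k138 k139 0 (.d k69 k205 k207 9 10))))), (.s k102 k34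
  9 (.s k168 k171 0 (.s k236 k35 10 (.s k32 k100 9 (.d k239 k237 k101 0 10)))))] (.c k171 (.l (.s k1
  k253 13 (.s k34 k102 9 (.s k17 k51 4 (.s k33 k49 3 (.s k32 k35 0 (.d k101 k237 k239 9 10)))))))
  .n)) (.c k238 (.l (.s k221 k17 9 (.s k185 k137 3 (.s k253 k1 13 (.s k49 k117 9 (.d k205 k237 k101
  3 13)))))) (.c k252 (.l (.s k136 k187 4 (.s k137 k185 3 (.s k138 k139 0 (.s k69 k207 10 (.d k1
  k205 k253 9 13)))))) .n)))) .n))) (.c k90 (.q k16 [(.s k48 k32 3 (.s k154 k223 10 (.s k138 k186 3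
  (.d k207 k69 k101 10 14)))), (.s k80 k160 11 (.s k208 k144 7 (.s k192 k224 3 (.s k128 k64 7 (.s
  k149 k191 6 (.s k21 k213 7 (.d k63 k42 k106 6 14)))))))] (.c k32 (.l (.s k154 k223 10 (.s k138
  k186 3 (.s k160 k80 11 (.s k165 k175 2 (.s k176 k143 6 (.s k48 k112 7 (.d k207 k101 k69 14
  10)))))))) .n)) (.c k95 (.l (.s k160 k80 11 (.s k165 k175 2 (.s k15 k90 14 (.d k5 k10 k245 2
  11))))) (.c k160 (.q k149 [(.s k21 k213 7 (.s k128 k191 6 (.s k192 k64 7 (.d k63 k42 k106 6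
  14)))), (.s k128 k191 6 (.s k192 k64 7 (.s k208 k224 3 (.s k90 k31 10 (.s k10 k250 11 (.d k15 k5
  k165 2 14)))))), (.s k21 k213 7 (.s k63 k42 6 (.s k181 k122 10 (.s k165 k133 3 (.s k5 k245 11 (.d
  k15 k10 k90 2 14))))))] (.c k63 (.q k105 [(.s k40 k235 8 (.s k60 k20 5 (.s k65 k125 5 (.d k195
  k130 k150 8 14)))), (.s k21 k213 7 (.s k61 k193 13 (.s k1 k41 5 (.s k125 k65 5 (.d k253 k189 k169
  7 13))))), (.s k40 k235 8 (.s k60 k20 5 (.s k120 k180 9 (.s k90 k75 4 (.s k10 k250 11 (.d k15 k5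
  k165 2 14))))))] (.c k127 (.l (.s k191 k128 6 (.s k40 k235 8 (.s k60 k20 5 (.s k65 k125 5 (.d k195
  k130 k150 8 14)))))) (.c k191 (.q k127 [(.s k40 k235 8 (.s k60 k20 5 (.s k65 k125 5 (.d k195 k130
  k150 8 14)))), (.s k21 k213 7 (.s k61 k193 13 (.s k1 k41 5 (.s k125 k65 5 (.d k253 k189 k169 7
  13))))), (.s k40 k235 8 (.s k60 k20 5 (.s k64 k106 6 (.s k192 k128 7 (.s k148 k104 13 (.d k150
  k195 k151 14 0))))))] .n) .n))) (.c k192 (.q k154 [(.s k16 k223 10 (.s k138 k186 3 (.s k207 k69 10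
  (.d k48 k32 k101 3 14)))), (.s k159 k144 2 (.s k186 k138 3 (.s k191 k128 6 (.s k176 k181 2 (.d
  k143 k175 k165 3 6))))), (.s k16 k223 10 (.s k144 k159 2 (.s k208 k80 7 (.s k31 k90 10 (.d k21
  k213 k26 7 2)))))] (.c k213 (.q k234 [(.s k138 k186 3 (.s k207 k69 10 (.s k48 k101 14 (.d k16 k32
  k223 3 10)))), (.s k42 k106 7 (.s k63 k21 6 (.s k181 k122 10 (.s k186 k138 3 (.d k191 k176 k128 2
  6))))), (.s k16 k223 10 (.s k42 k106 7 (.s k21 k63 6 (.s k26 k31 2 (.s k10 k58 3 (.d k90 k218 k250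
  7 11))))))] .n) (.c k234 (.l (.s k213 k21 7 (.s k16 k223 10 (.s k48 k32 3 (.s k138 k186 3 (.d k207
  k69 k101 10 14)))))) .n))) .n))) (.c k165 (.q k16 [(.s k48 k32 3 (.s k154 k223 10 (.s k138 k186 3
  (.d k207 k69 k101 10 14)))), (.s k48 k32 3 (.s k80 k160 11 (.s k144 k208 7 (.s k96 k192 11 (.d
  k112 k64 k176 3 7))))), (.s k80 k160 11 (.s k90 k95 2 (.s k154 k223 10 (.s k26 k218 7 (.s k31 k21
  2 (.d k208 k144 k149 7 10))))))] .n) (.c k175 (.l (.s k80 k160 11 (.s k90 k95 2 (.s k15 k165 14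
  (.d k10 k5 k250 2 11))))) (.c k250 (.l (.s k160 k80 11 (.s k165 k175 2 (.s k5 k245 11 (.d k15 k10
  k90 2 14))))) .n))))))))))))

def t2_9 : T TT 256 :=
  (.f k170 k255 14 (.q k204 [(.s k68 k136 9 (.s k102 k119 4 (.s k34 k238 9 (.d k51 k17 k153 4
  14))))] (.c k17 (.q k4 [(.s k12 k8 1 (.s k166 k247 12 (.s k162 k174 1 (.d k243 k81 k89 12 14)))),
  (.s k68 k136 9 (.s k102 k119 4 (.s k166 k247 12 (.s k38 k230 7 (.s k55 k21 4 (.d k196 k132 k149 7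
  12)))))), (.s k12 k8 1 (.s k68 k136 9 (.s k76 k140 7 (.s k72 k64 1 (.d k132 k196 k192 7 9)))))]
  .n) (.c k34 (.f k68 k136 9 (.q k192 [(.s k64 k128 7 (.s k72 k76 1 (.s k196 k200 1 (.d k132 k4 k12
  7 9)))), (.s k102 k119 4 (.s k196 k200 1 (.s k149 k55 12 (.s k21 k213 7 (.d k63 k42 k106 6
  14))))), (.s k64 k128 7 (.s k106 k127 6 (.s k42 k234 7 (.d k63 k21 k149 6 14))))] (.c k18 (.q k50
  [(.s k64 k128 7 (.s k72 k76 1 (.s k196 k200 1 (.d k132 k4 k12 7 9)))), (.s k102 k119 4 (.s k51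
  k153 14 (.s k48 k49 0 (.s k16 k32 3 (.d k154 k223 k206 10 13)))))] .n) (.c k50 (.q k18 [(.s k64
  k128 7 (.s k72 k76 1 (.s k196 k200 1 (.d k132 k4 k12 7 9)))), (.s k102 k119 4 (.s k196 k200 1 (.s
  k149 k55 12 (.s k21 k213 7 (.d k63 k42 k106 6 14))))), (.s k64 k128 7 (.s k106 k127 6 (.s k42 k234
  7 (.d k63 k21 k149 6 14))))] .n) .n)))) (.c k51 (.f k68 k136 9 (.q k69 [(.s k70 k71 0 (.s k207
  k138 10 (.s k205 k206 0 (.d k137 k1 k3 9 10)))), (.s k101 k117 3 (.s k32 k239 10 (.s k48 k16 3 (.s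
  k100 k152 13 (.d k102 k119 k103 4 0)))))] (.c k119 (.q k187 [(.s k70 k71 0 (.s k207 k138 10 (.s
  k205 k206 0 (.d k137 k1 k3 9 10)))), (.s k101 k117 3 (.s k32 k239 10 (.s k48 k16 3 (.s k100 k152
  13 (.s k168 k236 9 (.d k84 k116 k252 3 13))))))] (.c k207 (.l (.s k71 k70 0 (.s k101 k117 3 (.s
  k116 k86 4 (.s k100 k84 3 (.s k48 k152 13 (.d k32 k16 k239 3 10))))))) .n)) (.c k187 (.l (.s k119
  k102 4 (.s k70 k71 0 (.s k137 k3 10 (.s k205 k1 9 (.d k207 k206 k138 0 10)))))) (.c k207 (.l (.s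
  k71 k70 0 (.s k101 k117 3 (.s k86 k116 4 (.s k87 k84 0 (.d k119 k103 k102 3 4)))))) .n))))) (.c
  k68 (.q k48 [(.s k16 k32 3 (.s k154 k223 10 (.s k138 k186 3 (.d k207 k69 k101 10 14)))), (.s k16
  k32 3 (.s k152 k100 13 (.s k84 k220 9 (.s k168 k252 13 (.s k136 k184 3 (.s k153 k187 4 (.d k154
  k155 k223 0 10))))))), (.s k32 k16 3 (.s k100 k152 13 (.s k101 k239 10 (.s k102 k103 0 (.s k34
  k238 9 (.d k51 k17 k153 4 14))))))] (.c k16 (.q k12 [(.s k4 k8 1 (.s k166 k247 12 (.s k162 k174 1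
  (.d k243 k81 k89 12 14)))), (.s k24 k36 5 (.s k140 k76 7 (.s k152 k100 13 (.s k88 k216 7 (.d k164
  k176 k240 5 13)))))] .n) (.c k32 (.q k12 [(.s k4 k8 1 (.s k166 k247 12 (.s k162 k174 1 (.d k243
  k81 k89 12 14)))), (.s k24 k36 5 (.s k140 k76 7 (.s k152 k100 13 (.s k88 k216 7 (.d k164 k176 k240
  5 13)))))] .n) (.c k223 (.l (.s k32 k16 3 (.s k101 k239 10 (.s k207 k154 14 (.d k69 k117 k138 3
  10))))) .n)))) (.c k102 (.q k4 [(.s k166 k247 12 (.s k162 k174 1 (.s k243 k81 12 (.d k12 k8 k89 1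
  14)))), (.s k68 k136 9 (.s k196 k132 7 (.s k192 k200 1 (.s k128 k64 7 (.s k149 k191 6 (.s k21 k213
  7 (.d k63 k42 k106 6 14)))))))] (.c k8 (.l (.s k136 k68 9 (.s k153 k187 4 (.s k166 k247 12 (.s
  k140 k179 6 (.s k12 k76 7 (.s k162 k174 1 (.d k243 k89 k81 14 12)))))))) .n)) (.c k119 (.l (.s
  k136 k68 9 (.s k153 k187 4 (.s k51 k102 14 (.d k17 k34 k221 4 9))))) (.c k136 (.q k48 [(.s k16 k32
  3 (.s k154 k223 10 (.s k138 k186 3 (.d k207 k69 k101 10 14)))), (.s k32 k16 3 (.s k100 k152 13 (.s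
  k168 k236 9 (.s k84 k252 13 (.s k68 k116 3 (.s k102 k119 4 (.d k101 k103 k239 0 10)))))))] (.c k16
  (.q k12 [(.s k8 k4 1 (.s k89 k251 12 (.s k81 k93 1 (.d k243 k162 k166 12 14)))), (.s k24 k36 5 (.s
  k140 k76 7 (.s k152 k100 13 (.s k88 k216 7 (.d k164 k176 k240 5 13)))))] .n) (.c k32 (.q k12 [(.s
  k8 k4 1 (.s k89 k251 12 (.s k81 k93 1 (.d k243 k162 k166 12 14)))), (.s k24 k36 5 (.s k140 k76 7
  (.s k152 k100 13 (.s k88 k216 7 (.d k164 k176 k240 5 13)))))] .n) (.c k101 (.l (.s k16 k32 3 (.s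
  k152 k100 13 (.s k154 k223 10 (.s k153 k155 0 (.s k17 k221 9 (.d k51 k102 k34 14 4))))))) (.c k239
  (.l (.s k16 k32 3 (.s k154 k223 10 (.s k207 k101 14 (.d k138 k186 k69 3 10))))) .n))))) (.c k153
  (.q k4 [(.s k166 k247 12 (.s k162 k174 1 (.s k243 k81 12 (.d k12 k8 k89 1 14)))), (.s k12 k8 1 (.s
  k68 k136 9 (.s k132 k196 7 (.s k72 k192 9 (.d k76 k64 k140 1 7))))), (.s k68 k136 9 (.s k102 k119
  4 (.s k166 k247 12 (.s k38 k230 7 (.s k55 k21 4 (.d k196 k132 k149 7 12))))))] .n) (.c k187 (.l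
  (.s k68 k136 9 (.s k102 k119 4 (.s k51 k153 14 (.d k34 k17 k238 4 9))))) (.c k238 (.l (.s k136 k68
  9 (.s k153 k187 4 (.s k17 k221 9 (.d k51 k34 k102 4 14))))) .n))))))))))))

def t2_10 : T TT 256 :=
  (.q k166 [(.s k4 k247 12 (.s k170 k255 14 (.s k162 k174 1 (.s k243 k81 12 (.d k12 k8 k89 1
  14)))))] (.c k4 (.f k170 k255 14 (.q k165 [(.s k160 k175 2 (.s k164 k167 0 (.s k172 k168 1 (.s
  k163 k169 2 (.d k162 k161 k174 0 1))))), (.s k162 k174 1 (.s k164 k167 0 (.s k243 k81 12 (.s k12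
  k89 14 (.s k240 k88 13 (.s k90 k15 14 (.d k242 k14 k241 13 0))))))), (.s k167 k164 0 (.s k174 k162
  1 (.s k175 k160 2 (.s k163 k171 1 (.d k172 k173 k169 0 2))))), (.s k160 k175 2 (.s k162 k174 1 (.s
  k240 k80 11 (.s k243 k81 12 (.s k241 k242 0 (.d k89 k12 k13 14 13)))))), (.s k160 k175 2 (.s k164
  k167 0 (.s k240 k80 11 (.s k12 k88 13 (.s k15 k90 14 (.s k89 k243 14 (.d k13 k14 k241 0 13)))))))]
  (.c k6 (.q k14 [(.s k90 k242 13 (.s k80 k95 2 (.d k160 k175 k240 2 11))), (.s k160 k175 2 (.s k162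
  k174 1 (.s k163 k161 0 (.s k164 k167 0 (.d k172 k168 k169 1 2))))), (.s k90 k242 13 (.s k15 k240
  14 (.s k12 k13 0 (.s k162 k174 1 (.d k243 k81 k89 12 14)))))] (.c k5 (.q k7 [(.s k167 k164 0 (.s
  k87 k247 11 (.d k86 k84 k244 0 12))), (.s k90 k242 13 (.s k80 k95 2 (.d k160 k175 k240 2 11)))]
  .n) (.c k7 (.l (.s k5 k245 11 (.s k90 k242 13 (.s k80 k95 2 (.d k160 k175 k240 2 11))))) (.c k15
  (.l (.s k162 k174 1 (.s k242 k90 13 (.s k243 k81 12 (.s k240 k241 0 (.d k160 k175 k80 2 11))))))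
  (.c k162 (.l (.s k160 k175 2 (.s k80 k240 11 (.d k90 k95 k242 2 13)))) .n))))) (.c k14 (.q k6 [(.s
  k86 k246 11 (.s k160 k175 2 (.s k164 k167 0 (.s k168 k172 1 (.d k84 k87 k252 0 13))))), (.s k86
  k246 11 (.s k84 k87 0 (.s k162 k174 1 (.s k243 k81 12 (.s k12 k89 14 (.s k3 k9 2 (.d k252 k169
  k168 14 13))))))), (.s k160 k175 2 (.s k162 k174 1 (.s k163 k161 0 (.s k164 k167 0 (.d k172 k168
  k169 1 2)))))] (.c k168 (.l (.s k167 k164 0 (.s k174 k162 1 (.s k175 k160 2 (.s k172 k173 0 (.d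
  k163 k171 k169 1 2)))))) (.c k174 (.l (.s k86 k246 11 (.s k84 k87 0 (.s k160 k175 2 (.s k164 k167
  0 (.d k168 k172 k252 1 13)))))) .n))) (.c k175 (.l (.s k162 k174 1 (.s k164 k167 0 (.s k243 k81 12
  (.s k12 k89 14 (.s k240 k88 13 (.s k80 k160 11 (.d k90 k95 k15 2 14)))))))) .n))))) (.c k6 (.q k14
  [(.s k4 k247 12 (.s k170 k255 14 (.s k162 k174 1 (.s k243 k81 12 (.d k12 k8 k89 1 14))))), (.s k90
  k242 13 (.s k80 k95 2 (.s k240 k160 11 (.s k165 k15 14 (.s k255 k170 14 (.d k245 k250 k5 2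
  11)))))), (.s k4 k247 12 (.s k12 k8 1 (.s k15 k13 0 (.s k90 k242 13 (.s k80 k95 2 (.d k240 k160
  k165 11 14))))))] (.c k162 (.l (.s k4 k247 12 (.s k12 k8 1 (.s k89 k243 14 (.s k93 k81 1 (.d k255
  k174 k170 12 14)))))) .n)) (.c k8 (.l (.s k247 k4 12 (.s k255 k170 14 (.s k243 k251 1 (.s k89 k12
  14 (.d k81 k93 k162 1 12)))))) (.c k12 (.f k4 k247 12 (.q k149 [(.s k21 k213 7 (.s k132 k183 4 (.s
  k196 k68 7 (.d k55 k38 k102 4 12)))), (.s k170 k255 14 (.s k128 k191 6 (.s k192 k64 7 (.s k63 k106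
  14 (.d k21 k42 k213 6 7))))), (.s k132 k183 4 (.s k170 k255 14 (.s k128 k191 6 (.s k136 k140 1 (.d
  k68 k204 k196 9 7)))))] (.c k6 (.q k14 [(.s k21 k213 7 (.s k132 k183 4 (.s k196 k68 7 (.d k55 k38
  k102 4 12)))), (.s k170 k255 14 (.s k128 k191 6 (.s k192 k64 7 (.s k63 k106 14 (.d k21 k42 k213 6
  7))))), (.s k132 k183 4 (.s k170 k255 14 (.s k128 k191 6 (.s k136 k140 1 (.d k68 k204 k196 9
  7)))))] (.c k3 (.q k9 [(.s k21 k213 7 (.s k132 k183 4 (.s k196 k68 7 (.d k55 k38 k102 4 12)))),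
  (.s k170 k255 14 (.s k128 k191 6 (.s k192 k64 7 (.s k63 k106 14 (.d k21 k42 k213 6 7))))), (.s
  k132 k183 4 (.s k170 k255 14 (.s k128 k191 6 (.s k136 k140 1 (.d k68 k204 k196 9 7)))))] .n) (.c
  k9 (.q k3 [(.s k21 k213 7 (.s k132 k183 4 (.s k196 k68 7 (.d k55 k38 k102 4 12)))), (.s k170 k255
  14 (.s k128 k191 6 (.s k192 k64 7 (.s k63 k106 14 (.d k21 k42 k213 6 7))))), (.s k132 k183 4 (.s
  k170 k255 14 (.s k128 k191 6 (.s k136 k140 1 (.d k68 k204 k196 9 7)))))] (.c k8 (.q k11 [(.s k15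
  k7 1 (.s k90 k242 13 (.s k80 k95 2 (.d k240 k160 k165 11 14)))), (.s k21 k213 7 (.s k55 k38 4 (.s
  k132 k183 4 (.d k196 k68 k102 7 12))))] .n) (.c k11 (.q k8 [(.s k21 k213 7 (.s k132 k183 4 (.s
  k196 k68 7 (.d k55 k38 k102 4 12)))), (.s k170 k255 14 (.s k128 k191 6 (.s k192 k64 7 (.s k63 k106
  14 (.d k21 k42 k213 6 7))))), (.s k132 k183 4 (.s k170 k255 14 (.s k128 k191 6 (.s k136 k140 1 (.d
  k68 k204 k196 9 7)))))] .n) .n))) .n))) (.c k14 (.q k6 [(.s k7 k5 0 (.s k86 k246 11 (.s k84 k87 0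
  (.d k244 k164 k165 11 12)))), (.s k21 k213 7 (.s k55 k38 4 (.s k132 k183 4 (.d k196 k68 k102 7
  12))))] (.c k13 (.q k15 [(.s k7 k5 0 (.s k86 k246 11 (.s k84 k87 0 (.d k244 k164 k165 11 12)))),
  (.s k21 k213 7 (.s k55 k38 4 (.s k132 k183 4 (.d k196 k68 k102 7 12))))] .n) (.c k15 (.q k13 [(.s
  k7 k5 0 (.s k86 k246 11 (.s k84 k87 0 (.d k244 k164 k165 11 12)))), (.s k21 k213 7 (.s k55 k38 4
  (.s k132 k183 4 (.d k196 k68 k102 7 12))))] .n) .n))) .n)))) (.c k14 (.q k6 [(.s k4 k247 12 (.s k7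
  k5 0 (.s k86 k246 11 (.s k84 k87 0 (.d k244 k164 k165 11 12))))), (.s k4 k247 12 (.s k12 k8 1 (.s
  k89 k243 14 (.s k93 k81 1 (.d k255 k174 k170 12 14))))), (.s k86 k246 11 (.s k84 k87 0 (.s k252
  k168 13 (.s k169 k3 14 (.s k253 k1 13 (.d k255 k254 k170 0 14))))))] .n) (.c k81 (.q k6 [(.s k4
  k247 12 (.s k7 k5 0 (.s k86 k246 11 (.s k84 k87 0 (.d k244 k164 k165 11 12))))), (.s k86 k246 11
  (.s k84 k87 0 (.s k252 k168 13 (.s k169 k3 14 (.s k253 k1 13 (.d k255 k254 k170 0 14)))))), (.s k4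
  k247 12 (.s k5 k7 0 (.s k12 k8 1 (.s k9 k3 2 (.s k1 k13 1 (.s k89 k243 14 (.d k169 k249 k253 11
  13)))))))] (.c k87 (.l (.s k4 k247 12 (.s k12 k8 1 (.s k9 k3 2 (.s k89 k243 14 (.s k169 k249 11
  (.s k1 k253 13 (.d k5 k7 k13 0 1)))))))) .n)) (.c k89 (.f k4 k247 12 (.q k6 [(.s k7 k5 0 (.s k86
  k246 11 (.s k84 k87 0 (.d k244 k164 k165 11 12)))), (.s k86 k246 11 (.s k87 k84 0 (.s k255 k170 14
  (.s k3 k171 13 (.d k12 k8 k9 1 2))))), (.s k5 k7 0 (.s k12 k8 1 (.s k165 k245 11 (.s k170 k255 14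
  (.s k160 k175 2 (.s k240 k80 11 (.d k164 k167 k88 0 13)))))))] (.c k87 (.l (.s k7 k5 0 (.s k12 k8
  1 (.s k86 k246 11 (.s k244 k165 12 (.s k84 k164 11 (.s k252 k168 13 (.d k3 k9 k169 2 14))))))))
  (.c k244 (.l (.s k5 k7 0 (.s k86 k246 11 (.s k245 k165 11 (.s k87 k84 0 (.s k255 k170 14 (.s k3
  k171 13 (.d k12 k8 k9 1 2)))))))) (.c k245 (.l (.s k7 k5 0 (.s k86 k246 11 (.s k244 k165 12 (.d
  k84 k87 k164 0 11))))) (.c k246 (.q k244 [(.s k7 k5 0 (.s k164 k84 11 (.d k165 k167 k86 0 12))),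
  (.s k12 k8 1 (.s k84 k164 11 (.s k252 k168 13 (.s k172 k92 11 (.s k169 k163 2 (.d k3 k9 k86 2
  14))))))] (.c k84 (.l (.s k5 k7 0 (.s k12 k8 1 (.s k165 k245 11 (.s k170 k255 14 (.s k160 k175 2
  (.s k240 k80 11 (.d k164 k167 k88 0 13)))))))) (.c k86 (.l (.s k5 k7 0 (.s k164 k84 11 (.d k165
  k167 k245 0 11)))) (.c k164 (.l (.s k7 k5 0 (.s k12 k8 1 (.s k86 k165 12 (.s k84 k87 0 (.s k252
  k168 13 (.d k3 k9 k169 2 14))))))) .n)))) .n)))))) (.c k93 (.l (.s k4 k247 12 (.s k12 k8 1 (.s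
  k170 k255 14 (.s k162 k174 1 (.d k243 k81 k89 12 14)))))) (.c k162 (.l (.s k4 k247 12 (.s k12 k8 1
  (.s k89 k243 14 (.s k93 k81 1 (.d k255 k174 k170 12 14)))))) (.c k170 (.f k4 k247 12 (.q k90 [(.s
  k12 k8 1 (.s k14 k242 13 (.s k15 k13 0 (.s k80 k95 2 (.d k240 k160 k165 11 14))))), (.s k80 k95 2
  (.s k240 k160 11 (.s k165 k15 14 (.s k5 k245 11 (.s k164 k167 0 (.s k244 k84 11 (.d k7 k6 k86 0
  12))))))), (.s k12 k8 1 (.s k14 k242 13 (.s k15 k13 0 (.s k89 k243 14 (.s k88 k91 0 (.d k240 k164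
  k165 13 14))))))] (.c k6 (.l (.s k14 k242 13 (.s k12 k8 1 (.s k15 k13 0 (.s k80 k95 2 (.d k240
  k160 k165 11 14)))))) (.c k14 (.q k6 [(.s k7 k5 0 (.s k86 k246 11 (.s k84 k87 0 (.d k244 k164 k165
  11 12)))), (.s k12 k8 1 (.s k80 k95 2 (.s k89 k243 14 (.s k88 k91 0 (.d k240 k160 k164 11 13))))),
  (.s k80 k95 2 (.s k240 k160 11 (.s k165 k15 14 (.d k5 k7 k245 0 11))))] (.c k86 (.q k254 [(.s k5
  k7 0 (.s k80 k95 2 (.s k165 k245 11 (.d k240 k160 k15 11 14)))), (.s k12 k8 1 (.s k80 k95 2 (.s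
  k89 k243 14 (.s k240 k160 11 (.d k88 k91 k164 0 13))))), (.s k5 k7 0 (.s k12 k8 1 (.s k9 k3 2 (.s
  k1 k13 1 (.s k89 k243 14 (.d k169 k249 k253 11 13))))))] (.c k165 (.l (.s k12 k8 1 (.s k80 k95 2
  (.s k89 k243 14 (.s k88 k91 0 (.d k240 k160 k164 11 13)))))) .n)) (.c k254 (.l (.s k86 k246 11 (.s
  k7 k5 0 (.s k84 k87 0 (.d k244 k164 k165 11 12))))) .n))) (.c k15 (.l (.s k12 k8 1 (.s k80 k95 2
  (.s k89 k243 14 (.s k240 k160 11 (.d k88 k91 k164 0 13)))))) (.c k86 (.q k254 [(.s k12 k8 1 (.s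
  k14 k242 13 (.s k174 k94 11 (.s k93 k255 12 (.d k89 k243 k81 14 1))))), (.s k80 k95 2 (.s k240
  k160 11 (.s k165 k15 14 (.s k164 k167 0 (.s k84 k244 11 (.d k88 k92 k12 1 13)))))), (.s k12 k8 1
  (.s k14 k242 13 (.s k15 k13 0 (.s k80 k95 2 (.d k240 k160 k165 11 14)))))] (.c k6 (.l (.s k14 k242
  13 (.s k12 k8 1 (.s k15 k13 0 (.s k80 k95 2 (.d k240 k160 k165 11 14)))))) (.c k12 (.f k80 k95 2
  (.l (.s k240 k160 11 (.s k165 k15 14 (.s k164 k167 0 (.s k84 k244 11 (.s k245 k5 11 (.s k252 k168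
  13 (.d k255 k253 k250 0 2))))))))) (.c k14 (.q k6 [(.s k5 k7 0 (.s k80 k95 2 (.s k165 k245 11 (.d
  k240 k160 k15 11 14)))), (.s k12 k8 1 (.s k80 k95 2 (.s k89 k243 14 (.s k240 k160 11 (.d k88 k91
  k164 0 13))))), (.s k5 k7 0 (.s k12 k8 1 (.s k9 k3 2 (.s k1 k13 1 (.s k89 k243 14 (.d k169 k249
  k253 11 13))))))] (.c k165 (.l (.s k12 k8 1 (.s k80 k95 2 (.s k89 k243 14 (.s k88 k91 0 (.d k240
  k160 k164 11 13)))))) .n)) .n)))) (.c k165 (.l (.s k12 k8 1 (.s k80 k95 2 (.s k89 k243 14 (.s k88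
  k91 0 (.d k240 k160 k164 11 13)))))) (.c k240 (.l (.s k12 k8 1 (.s k14 k242 13 (.s k15 k13 0 (.s
  k95 k80 2 (.s k255 k175 11 (.s k93 k174 12 (.d k89 k243 k81 14 1)))))))) (.c k254 (.q k86 [(.s k6
  k246 11 (.s k7 k5 0 (.s k84 k87 0 (.d k244 k164 k165 11 12)))), (.s k8 k12 1 (.s k80 k95 2 (.s k84
  k87 0 (.s k88 k92 1 (.d k168 k252 k248 13 11))))), (.s k14 k242 13 (.s k12 k8 1 (.s k15 k13 0 (.s
  k80 k95 2 (.d k240 k160 k165 11 14)))))] (.c k6 (.l (.s k14 k242 13 (.s k12 k8 1 (.s k15 k13 0 (.s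
  k80 k95 2 (.d k240 k160 k165 11 14)))))) (.c k14 (.l (.s k6 k246 11 (.s k7 k5 0 (.s k84 k87 0 (.d
  k244 k164 k165 11 12))))) .n))) .n))))))))) (.c k174 (.l (.s k247 k4 12 (.s k255 k170 14 (.s k243
  k251 1 (.s k81 k162 12 (.d k89 k93 k12 1 14)))))) (.c k243 (.f k247 k4 12 (.f k170 k255 14 (.q
  k165 [(.s k167 k164 0 (.s k7 k87 11 (.s k244 k86 12 (.d k245 k246 k5 0 11)))), (.s k160 k175 2 (.s
  k162 k174 1 (.s k163 k161 0 (.s k164 k167 0 (.d k172 k168 k169 1 2))))), (.s k160 k175 2 (.s k240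
  k80 11 (.s k245 k5 11 (.s k244 k246 0 (.s k252 k248 1 (.s k84 k168 13 (.d k86 k7 k87 12 0)))))))]
  (.c k6 (.q k14 [(.s k167 k164 0 (.s k7 k87 11 (.s k244 k86 12 (.d k245 k5 k246 11 0)))), (.s k90
  k242 13 (.s k80 k95 2 (.d k160 k175 k240 2 11)))] (.c k5 (.q k7 [(.d k167 k164 k87 0 11), (.s k90
  k242 13 (.s k80 k95 2 (.d k160 k175 k240 2 11)))] .n) (.c k7 (.l (.s k5 k245 11 (.s k90 k242 13
  (.s k80 k95 2 (.d k160 k175 k240 2 11))))) .n))) (.c k14 (.q k6 [(.s k245 k5 11 (.d k246 k244 k86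
  0 11)), (.s k160 k175 2 (.s k162 k174 1 (.s k163 k161 0 (.s k164 k167 0 (.d k172 k168 k169 1
  2)))))] .n) .n))))) (.c k247 (.f k170 k255 14 (.f k162 k174 1 (.f k243 k81 12 (.f k12 k89 14 (.q
  k6 [(.s k86 k246 11 (.s k84 k87 0 (.s k252 k168 13 (.d k3 k9 k169 2 14)))), (.s k3 k9 2 (.s k163
  k83 11 (.s k169 k172 2 (.d k86 k246 k252 11 14)))), (.s k4 k8 1 (.s k7 k5 0 (.s k86 k246 11 (.s
  k244 k165 12 (.d k84 k87 k164 0 11)))))] (.c k9 (.l (.s k86 k246 11 (.s k84 k87 0 (.s k252 k168 13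
  (.s k172 k92 11 (.d k169 k3 k163 14 2)))))) (.c k86 (.l (.s k4 k8 1 (.s k5 k7 0 (.s k165 k245 11
  (.s k160 k175 2 (.s k163 k161 0 (.d k3 k9 k83 2 11))))))) (.c k246 (.l (.s k3 k9 2 (.s k163 k83 11
  (.s k169 k172 2 (.s k168 k171 0 (.d k252 k86 k84 14 13)))))) .n)))))))) (.c k251 (.l (.s k4 k247
  12 (.s k12 k8 1 (.s k89 k243 14 (.s k255 k170 14 (.d k93 k81 k174 1 12)))))) (.c k255 (.q k6 [(.s
  k4 k247 12 (.s k7 k5 0 (.s k86 k246 11 (.s k244 k165 12 (.d k84 k87 k164 0 11))))), (.s k86 k246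
  11 (.s k84 k87 0 (.s k252 k168 13 (.s k3 k169 14 (.s k12 k9 2 (.d k4 k8 k247 1 12)))))), (.s k4
  k247 12 (.s k5 k7 0 (.s k12 k8 1 (.s k9 k3 2 (.s k1 k13 1 (.s k169 k253 13 (.d k89 k243 k249 14
  11))))))), (.s k86 k246 11 (.s k84 k87 0 (.s k252 k168 13 (.s k3 k169 14 (.s k12 k9 2 (.s k92 k172
  11 (.d k89 k83 k243 2 14)))))))] (.c k87 (.q k3 [(.s k12 k9 2 (.d k4 k8 k247 1 12)), (.s k86 k246
  11 (.s k169 k252 14 (.s k163 k172 2 (.s k243 k83 11 (.d k12 k9 k89 2 14))))), (.s k4 k247 12 (.s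
  k7 k5 0 (.s k86 k246 11 (.s k244 k165 12 (.s k84 k164 11 (.d k252 k168 k169 13 14))))))] .n) .n))
  .n))))))))))))))))

def t2_11 : T TT 256 :=
  (.f k170 k255 14 (.q k204 [(.s k68 k136 9 (.s k102 k119 4 (.s k34 k238 9 (.d k51 k17 k153 4
  14))))] (.c k17 (.q k4 [(.s k12 k8 1 (.s k166 k247 12 (.s k162 k174 1 (.d k243 k81 k89 12 14)))),
  (.s k68 k136 9 (.s k102 k119 4 (.s k166 k247 12 (.s k38 k230 7 (.s k55 k21 4 (.d k196 k132 k149 7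
  12)))))), (.s k12 k8 1 (.s k68 k136 9 (.s k76 k140 7 (.s k72 k64 1 (.d k132 k196 k192 7 9)))))]
  .n) (.c k34 (.f k68 k136 9 (.q k192 [(.s k64 k128 7 (.s k72 k76 1 (.s k132 k12 9 (.d k196 k200 k4
  1 7)))), (.s k102 k119 4 (.s k196 k200 1 (.s k149 k55 12 (.s k21 k213 7 (.d k63 k42 k106 6
  14))))), (.s k64 k128 7 (.s k106 k127 6 (.s k42 k234 7 (.d k63 k21 k149 6 14))))] (.c k18 (.q k50
  [(.s k64 k128 7 (.s k72 k76 1 (.s k132 k12 9 (.d k196 k200 k4 1 7)))), (.s k102 k119 4 (.s k51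
  k153 14 (.s k48 k49 0 (.s k16 k32 3 (.d k154 k223 k206 10 13)))))] .n) (.c k50 (.q k18 [(.s k64
  k128 7 (.s k72 k76 1 (.s k132 k12 9 (.d k196 k200 k4 1 7)))), (.s k102 k119 4 (.s k196 k200 1 (.s
  k149 k55 12 (.s k21 k213 7 (.d k63 k42 k106 6 14))))), (.s k64 k128 7 (.s k106 k127 6 (.s k42 k234
  7 (.d k63 k21 k149 6 14))))] .n) .n)))) (.c k51 (.f k136 k68 9 (.q k128 [(.s k132 k140 1 (.s k192
  k64 7 (.s k200 k196 1 (.d k72 k8 k12 7 9)))), (.s k149 k191 6 (.s k21 k213 7 (.s k63 k42 6 (.d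
  k192 k64 k106 7 14)))), (.s k140 k132 1 (.s k191 k149 6 (.s k174 k157 4 (.s k166 k162 1 (.d k153
  k187 k179 4 6)))))] (.c k119 (.l (.s k187 k153 4 (.s k132 k140 1 (.s k192 k64 7 (.s k72 k12 9 (.d
  k200 k196 k8 1 7)))))) (.c k187 (.q k119 [(.s k132 k140 1 (.s k192 k64 7 (.s k200 k196 1 (.d k72
  k8 k12 7 9)))), (.s k149 k191 6 (.s k21 k213 7 (.s k63 k42 6 (.d k192 k64 k106 7 14)))), (.s k140
  k132 1 (.s k191 k149 6 (.s k174 k157 4 (.s k166 k162 1 (.s k4 k247 12 (.d k12 k8 k76 1 7))))))]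
  .n) .n)))) (.c k68 (.q k48 [(.s k16 k32 3 (.s k154 k223 10 (.s k138 k186 3 (.d k207 k69 k101 10
  14)))), (.s k16 k32 3 (.s k152 k100 13 (.s k84 k220 9 (.s k168 k252 13 (.s k136 k184 3 (.s k153
  k187 4 (.d k154 k155 k223 0 10))))))), (.s k32 k16 3 (.s k100 k152 13 (.s k101 k239 10 (.s k102
  k103 0 (.s k34 k238 9 (.d k51 k17 k153 4 14))))))] (.c k16 (.q k12 [(.s k4 k8 1 (.s k166 k247 12
  (.s k162 k174 1 (.d k243 k81 k89 12 14)))), (.s k24 k36 5 (.s k140 k76 7 (.s k152 k100 13 (.s k88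
  k216 7 (.d k164 k176 k240 5 13)))))] .n) (.c k32 (.q k12 [(.s k4 k8 1 (.s k166 k247 12 (.s k162
  k174 1 (.d k243 k81 k89 12 14)))), (.s k24 k36 5 (.s k140 k76 7 (.s k152 k100 13 (.s k88 k216 7
  (.d k164 k176 k240 5 13)))))] .n) (.c k223 (.l (.s k32 k16 3 (.s k101 k239 10 (.s k207 k154 14 (.d
  k69 k117 k138 3 10))))) .n)))) (.c k102 (.q k4 [(.s k166 k247 12 (.s k162 k174 1 (.s k243 k81 12
  (.d k12 k8 k89 1 14)))), (.s k68 k136 9 (.s k196 k132 7 (.s k192 k200 1 (.s k128 k64 7 (.s k149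
  k191 6 (.s k21 k213 7 (.d k63 k42 k106 6 14)))))))] (.c k8 (.l (.s k136 k68 9 (.s k153 k187 4 (.s
  k166 k247 12 (.s k140 k179 6 (.s k12 k76 7 (.s k162 k174 1 (.d k243 k89 k81 14 12)))))))) .n)) (.c
  k119 (.l (.s k136 k68 9 (.s k153 k187 4 (.s k51 k102 14 (.d k17 k34 k221 4 9))))) (.c k136 (.q k48
  [(.s k16 k32 3 (.s k154 k223 10 (.s k138 k186 3 (.d k207 k69 k101 10 14)))), (.s k32 k16 3 (.s
  k100 k152 13 (.s k168 k236 9 (.s k84 k252 13 (.s k68 k116 3 (.s k102 k119 4 (.d k101 k103 k239 0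
  10)))))))] (.c k16 (.q k12 [(.s k8 k4 1 (.s k89 k251 12 (.s k81 k93 1 (.d k243 k162 k166 12
  14)))), (.s k24 k36 5 (.s k140 k76 7 (.s k152 k100 13 (.s k88 k216 7 (.d k164 k176 k240 5 13)))))]
  .n) (.c k32 (.q k12 [(.s k8 k4 1 (.s k89 k251 12 (.s k81 k93 1 (.d k243 k162 k166 12 14)))), (.s
  k24 k36 5 (.s k140 k76 7 (.s k152 k100 13 (.s k88 k216 7 (.d k164 k176 k240 5 13)))))] .n) (.c
  k101 (.l (.s k16 k32 3 (.s k152 k100 13 (.s k154 k223 10 (.s k153 k155 0 (.s k17 k221 9 (.d k51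
  k102 k34 14 4))))))) (.c k239 (.l (.s k16 k32 3 (.s k154 k223 10 (.s k207 k101 14 (.d k138 k186
  k69 3 10))))) .n))))) (.c k153 (.q k4 [(.s k166 k247 12 (.s k162 k174 1 (.s k243 k81 12 (.d k12 k8
  k89 1 14)))), (.s k12 k8 1 (.s k68 k136 9 (.s k132 k196 7 (.s k72 k192 9 (.d k76 k64 k140 1
  7))))), (.s k68 k136 9 (.s k102 k119 4 (.s k166 k247 12 (.s k38 k230 7 (.s k55 k21 4 (.d k196 k132
  k149 7 12))))))] .n) (.c k187 (.l (.s k68 k136 9 (.s k102 k119 4 (.s k51 k153 14 (.d k34 k17 k238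
  4 9))))) (.c k238 (.l (.s k136 k68 9 (.s k153 k187 4 (.s k17 k221 9 (.d k51 k34 k102 4 14)))))
  .n))))))))))))

def t2_12 : T TT 256 :=
  (.q k165 [(.s k245 k5 11 (.s k255 k170 14 (.s k240 k250 2 (.s k80 k160 11 (.d k90 k95 k15 2
  14))))), (.s k5 k245 11 (.s k15 k10 2 (.s k90 k240 14 (.s k95 k80 2 (.d k255 k175 k170 11 14)))))]
  (.c k5 (.q k16 [(.s k48 k32 3 (.s k154 k223 10 (.s k170 k255 14 (.s k138 k186 3 (.d k207 k69 k101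
  10 14))))), (.s k48 k32 3 (.s k154 k223 10 (.s k176 k143 6 (.s k240 k112 7 (.s k80 k160 11 (.d k90
  k95 k15 2 14)))))), (.s k154 k223 10 (.s k170 k255 14 (.s k160 k175 2 (.s k80 k240 11 (.s k144
  k208 7 (.d k176 k128 k143 3 6)))))), (.s k32 k48 3 (.s k170 k255 14 (.s k160 k175 2 (.s k224 k96 7
  (.s k47 k106 10 (.s k37 k42 2 (.d k101 k229 k239 7 10)))))))] .n) (.c k10 (.l (.s k245 k5 11 (.s
  k255 k170 14 (.s k240 k250 2 (.s k90 k15 14 (.d k80 k95 k160 2 11)))))) (.c k15 (.f k5 k245 11 (.q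
  k149 [(.s k21 k213 7 (.s k133 k181 3 (.s k197 k69 7 (.d k53 k37 k101 3 11)))), (.s k170 k255 14
  (.s k128 k191 6 (.s k192 k64 7 (.s k63 k106 14 (.d k21 k42 k213 6 7))))), (.s k133 k181 3 (.s k170
  k255 14 (.s k128 k191 6 (.s k138 k143 2 (.d k69 k207 k197 10 7)))))] (.c k13 (.q k14 [(.s k21 k213
  7 (.s k133 k181 3 (.s k197 k69 7 (.d k53 k37 k101 3 11)))), (.s k170 k255 14 (.s k128 k191 6 (.s
  k192 k64 7 (.s k63 k106 14 (.d k21 k42 k213 6 7))))), (.s k133 k181 3 (.s k170 k255 14 (.s k128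
  k191 6 (.s k138 k143 2 (.d k69 k207 k197 10 7)))))] .n) (.c k14 (.q k13 [(.s k1 k9 1 (.s k89 k241
  13 (.s k93 k81 1 (.d k253 k173 k169 11 13)))), (.s k21 k213 7 (.s k53 k37 3 (.s k133 k181 3 (.d
  k197 k69 k101 7 11))))] (.c k6 (.q k10 [(.s k21 k213 7 (.s k53 k37 3 (.s k133 k181 3 (.d k197 k69
  k101 7 11)))), (.s k9 k1 1 (.s k8 k11 0 (.s k89 k241 13 (.d k170 k251 k255 12 14))))] (.c k3 (.l
  (.s k9 k1 1 (.s k89 k241 13 (.s k170 k255 14 (.d k8 k11 k251 0 12))))) (.c k9 (.q k3 [(.s k21 k213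
  7 (.s k133 k181 3 (.s k197 k69 7 (.d k53 k37 k101 3 11)))), (.s k89 k241 13 (.s k29 k209 9 (.s k61
  k45 3 (.s k133 k181 3 (.d k193 k73 k105 9 13))))), (.s k21 k213 7 (.s k63 k42 6 (.s k106 k192 14
  (.s k127 k64 6 (.d k255 k191 k170 7 14)))))] (.c k133 (.l (.s k21 k213 7 (.s k37 k53 3 (.s k25 k49
  5 (.s k29 k17 1 (.d k89 k209 k241 9 13)))))) .n)) .n))) (.c k10 (.q k6 [(.s k1 k9 1 (.s k89 k241
  13 (.s k93 k81 1 (.d k253 k173 k169 11 13)))), (.s k21 k213 7 (.s k53 k37 3 (.s k133 k181 3 (.d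
  k197 k69 k101 7 11))))] .n) .n))) .n)))) (.c k80 (.q k4 [(.s k245 k5 11 (.s k247 k166 12 (.s k244
  k246 0 (.s k86 k7 12 (.d k84 k87 k164 0 11))))), (.s k166 k247 12 (.s k164 k167 0 (.s k170 k255 14
  (.s k160 k175 2 (.s k168 k172 1 (.d k84 k252 k244 13 11)))))), (.s k5 k245 11 (.s k15 k10 2 (.s
  k166 k247 12 (.s k167 k164 0 (.s k170 k255 14 (.s k243 k91 13 (.d k162 k174 k81 1 12))))))), (.s
  k5 k245 11 (.s k7 k6 0 (.s k86 k244 12 (.s k84 k87 0 (.s k252 k168 13 (.s k3 k169 14 (.d k15 k10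
  k11 2 1)))))))] (.c k244 (.l (.s k5 k245 11 (.s k7 k6 0 (.s k247 k166 12 (.s k87 k167 11 (.s k255
  k170 14 (.s k3 k171 13 (.d k15 k10 k11 2 1)))))))) (.c k247 (.l (.s k5 k245 11 (.s k7 k6 0 (.s
  k244 k86 12 (.s k84 k164 11 (.s k252 k168 13 (.s k240 k248 1 (.d k15 k10 k90 2 14)))))))) .n)))
  (.c k90 (.q k16 [(.s k48 k32 3 (.s k154 k223 10 (.s k101 k207 14 (.s k117 k69 3 (.d k255 k186 k170
  10 14))))), (.s k154 k223 10 (.s k170 k255 14 (.s k160 k175 2 (.s k80 k240 11 (.s k144 k208 7 (.d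
  k176 k128 k143 3 6)))))), (.s k5 k245 11 (.s k15 k10 2 (.s k48 k32 3 (.s k37 k26 6 (.s k101 k229 7
  (.s k69 k117 3 (.d k207 k154 k138 14 10)))))))] (.c k154 (.l (.s k5 k245 11 (.s k32 k48 3 (.s k170
  k255 14 (.s k101 k239 10 (.s k37 k229 7 (.s k21 k53 3 (.d k42 k63 k47 6 2)))))))) (.c k170 (.l (.s
  k5 k245 11 (.s k48 k32 3 (.s k154 k223 10 (.s k101 k207 14 (.s k37 k229 7 (.d k15 k10 k26 2
  6))))))) (.c k207 (.l (.s k48 k32 3 (.s k154 k223 10 (.s k176 k143 6 (.s k240 k112 7 (.s k160 k80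
  11 (.d k170 k255 k175 14 2))))))) .n)))) (.c k95 (.l (.s k5 k245 11 (.s k15 k10 2 (.s k170 k255 14
  (.s k160 k175 2 (.d k240 k80 k90 11 14)))))) (.c k170 (.q k86 [(.s k5 k245 11 (.s k7 k244 12 (.s
  k87 k84 0 (.s k247 k167 11 (.d k4 k6 k166 0 12))))), (.s k5 k245 11 (.s k15 k10 2 (.s k84 k87 0
  (.s k90 k240 14 (.s k94 k82 1 (.d k252 k173 k168 12 13)))))), (.s k84 k87 0 (.s k244 k7 12 (.s
  k252 k168 13 (.s k240 k248 1 (.s k80 k160 11 (.d k90 k95 k15 2 14)))))), (.s k5 k245 11 (.s k7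
  k244 12 (.s k15 k10 2 (.s k3 k11 1 (.s k90 k240 14 (.s k94 k82 1 (.d k252 k173 k169 12 14)))))))]
  (.c k164 (.l (.s k5 k245 11 (.s k7 k244 12 (.s k4 k6 0 (.s k87 k84 0 (.d k247 k167 k166 11
  12)))))) .n)) (.c k240 (.f k255 k170 14 (.f k5 k245 11 (.q k86 [(.s k7 k244 12 (.s k87 k84 0 (.s
  k247 k167 11 (.d k4 k6 k166 0 12)))), (.s k84 k87 0 (.s k252 k168 13 (.s k169 k3 14 (.d k253 k254
  k1 0 13)))), (.s k7 k244 12 (.s k15 k10 2 (.s k3 k11 1 (.s k95 k175 11 (.s k90 k80 2 (.s k94 k82 1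
  (.d k252 k173 k169 12 14)))))))] (.c k6 (.l (.s k7 k244 12 (.s k87 k84 0 (.s k3 k171 13 (.d k15
  k11 k10 1 2))))) (.c k88 (.q k164 [(.s k84 k87 0 (.d k244 k4 k7 11 12)), (.s k84 k87 0 (.s k252
  k168 13 (.s k169 k3 14 (.d k253 k254 k1 0 13)))), (.s k7 k244 12 (.s k4 k6 0 (.d k166 k247 k167 12
  0)))] .n) (.c k164 (.q k88 [(.s k84 k87 0 (.s k80 k92 1 (.s k95 k90 2 (.d k15 k10 k175 2 11)))),
  (.s k7 k244 12 (.s k4 k6 0 (.s k87 k84 0 (.d k247 k167 k166 11 12)))), (.s k15 k10 2 (.s k95 k175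
  11 (.s k90 k80 2 (.s k89 k91 0 (.s k92 k83 2 (.d k93 k81 k94 1 0))))))] (.c k10 (.l (.s k84 k87 0
  (.s k252 k168 13 (.s k169 k3 14 (.d k253 k254 k1 0 13))))) .n)) (.c k252 (.l (.s k15 k10 2 (.s k87
  k84 0 (.s k3 k171 13 (.d k7 k11 k244 1 12))))) .n))))))) (.c k245 (.q k16 [(.s k48 k32 3 (.s k154
  k223 10 (.s k101 k207 14 (.s k117 k69 3 (.d k255 k186 k170 10 14))))), (.s k48 k32 3 (.s k154 k223
  10 (.s k176 k143 6 (.s k240 k112 7 (.s k80 k160 11 (.d k90 k95 k15 2 14)))))), (.s k154 k223 10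
  (.s k170 k255 14 (.s k160 k175 2 (.s k176 k143 6 (.s k144 k128 3 (.d k80 k240 k208 11 7)))))), (.s
  k32 k48 3 (.s k170 k255 14 (.s k160 k175 2 (.s k224 k96 7 (.s k47 k106 10 (.s k37 k42 2 (.d k101
  k229 k239 7 10)))))))] .n) (.c k250 (.l (.s k5 k245 11 (.s k15 k10 2 (.s k90 k240 14 (.s k255 k170
  14 (.d k95 k80 k175 2 11)))))) (.c k255 (.q k69 [(.s k5 k245 11 (.s k197 k133 7 (.s k101 k117 3
  (.s k53 k149 11 (.d k37 k21 k229 3 7))))), (.s k101 k117 3 (.s k207 k138 10 (.s k229 k37 7 (.s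
  k240 k218 6 (.s k80 k160 11 (.d k90 k95 k15 2 14)))))), (.s k5 k245 11 (.s k15 k10 2 (.s k133 k197
  7 (.s k74 k192 10 (.s k79 k64 2 (.d k207 k143 k138 7 10))))))] (.c k93 (.q k174 [(.s k5 k245 11
  (.s k197 k133 7 (.s k101 k117 3 (.s k53 k149 11 (.d k37 k21 k229 3 7))))), (.s k101 k117 3 (.s
  k207 k138 10 (.s k229 k37 7 (.s k240 k218 6 (.s k80 k160 11 (.d k90 k95 k15 2 14)))))), (.s k5
  k245 11 (.s k15 k10 2 (.s k133 k197 7 (.s k74 k192 10 (.s k79 k64 2 (.d k207 k143 k138 7 10))))))]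
  (.c k229 (.l (.s k5 k245 11 (.s k15 k10 2 (.s k101 k117 3 (.s k207 k138 10 (.s k79 k143 7 (.d k90
  k240 k112 14 6))))))) (.c k240 (.l (.s k101 k117 3 (.s k37 k229 7 (.s k207 k138 10 (.s k48 k154 14
  (.s k15 k26 6 (.d k5 k10 k245 2 11))))))) .n))) (.c k174 (.q k93 [(.s k89 k81 1 (.s k13 k241 13
  (.s k253 k173 11 (.s k1 k169 13 (.d k5 k9 k245 1 11))))), (.s k5 k245 11 (.s k101 k117 3 (.s k37
  k229 7 (.s k53 k21 3 (.d k197 k133 k149 7 11))))), (.s k89 k81 1 (.s k101 k117 3 (.s k77 k113 5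
  (.s k65 k73 1 (.d k125 k109 k105 3 5)))))] .n) (.c k229 (.l (.s k5 k245 11 (.s k15 k10 2 (.s k101
  k117 3 (.s k207 k138 10 (.s k79 k143 7 (.d k90 k240 k112 14 6))))))) (.c k240 (.l (.s k101 k117 3
  (.s k37 k229 7 (.s k207 k138 10 (.s k48 k154 14 (.s k15 k26 6 (.d k5 k10 k245 2 11))))))) .n)))))
  .n))))))))))))

def t2_13 : T TT 256 :=
  (.f k170 k255 14 (.q k12 [(.s k4 k8 1 (.s k166 k247 12 (.s k162 k174 1 (.d k243 k81 k89 12 14))))]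
  (.c k4 (.q k64 [(.s k192 k128 7 (.s k106 k127 6 (.s k63 k149 14 (.d k42 k21 k234 6 7)))), (.s k192
  k128 7 (.s k72 k132 9 (.s k68 k76 1 (.s k102 k119 4 (.s k34 k238 9 (.s k51 k17 4 (.d k204 k136
  k153 9 14)))))))] (.c k128 (.l (.s k106 k127 6 (.s k42 k234 7 (.s k63 k21 6 (.s k46 k29 4 (.s k166
  k226 9 (.s k162 k174 1 (.d k243 k81 k89 12 14)))))))) (.c k192 (.f k106 k127 6 (.q k63 [(.d k42
  k234 k21 7 6), (.s k46 k29 4 (.s k166 k226 9 (.s k162 k174 1 (.d k243 k81 k89 12 14))))] (.c k213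
  (.l (.s k234 k42 7 (.s k46 k29 4 (.s k166 k226 9 (.s k162 k174 1 (.d k243 k81 k89 12 14)))))) (.c
  k234 (.q k213 [(.d k21 k42 k149 6 7), (.s k46 k29 4 (.s k166 k226 9 (.s k162 k174 1 (.d k243 k81
  k89 12 14))))] .n) .n)))) .n))) (.c k8 (.q k64 [(.s k192 k128 7 (.s k106 k127 6 (.s k63 k149 14
  (.d k42 k21 k234 6 7)))), (.s k192 k128 7 (.s k72 k132 9 (.s k68 k76 1 (.s k102 k119 4 (.s k34
  k238 9 (.s k51 k17 4 (.d k204 k136 k153 9 14)))))))] (.c k128 (.l (.s k106 k127 6 (.s k42 k234 7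
  (.s k63 k21 6 (.s k46 k29 4 (.s k166 k226 9 (.s k162 k174 1 (.d k243 k81 k89 12 14)))))))) (.c
  k192 (.f k106 k127 6 (.q k63 [(.d k42 k234 k21 7 6), (.s k46 k29 4 (.s k166 k226 9 (.s k162 k174 1
  (.d k243 k81 k89 12 14))))] (.c k213 (.l (.s k234 k42 7 (.s k46 k29 4 (.s k166 k226 9 (.s k162
  k174 1 (.d k243 k81 k89 12 14)))))) (.c k234 (.q k213 [(.d k21 k42 k149 6 7), (.s k46 k29 4 (.s
  k166 k226 9 (.s k162 k174 1 (.d k243 k81 k89 12 14))))] .n) .n)))) .n))) (.c k81 (.q k5 [(.s k15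
  k10 2 (.s k165 k245 11 (.s k160 k175 2 (.d k240 k80 k90 11 14)))), (.s k4 k8 1 (.s k6 k7 0 (.s k3
  k9 2 (.s k166 k247 12 (.s k86 k246 11 (.s k252 k169 14 (.d k84 k87 k168 0 13))))))), (.s k4 k8 1
  (.s k165 k245 11 (.s k160 k175 2 (.s k166 k247 12 (.s k164 k167 0 (.d k240 k80 k88 11 13))))))]
  (.c k245 (.l (.s k8 k4 1 (.s k10 k15 2 (.s k11 k9 0 (.s k251 k89 12 (.s k171 k91 11 (.s k169 k168
  0 (.d k90 k250 k248 11 12)))))))) .n)) (.c k89 (.q k165 [(.s k5 k245 11 (.s k160 k175 2 (.s k240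
  k80 11 (.d k15 k10 k90 2 14)))), (.s k4 k8 1 (.s k166 k247 12 (.s k164 k167 0 (.s k240 k88 13 (.d
  k160 k175 k80 2 11))))), (.s k4 k8 1 (.s k5 k245 11 (.s k7 k6 0 (.s k86 k244 12 (.s k87 k84 0 (.d
  k247 k167 k166 11 12))))))] (.c k240 (.l (.s k4 k8 1 (.s k160 k175 2 (.s k166 k247 12 (.s k164
  k167 0 (.s k84 k244 11 (.d k168 k252 k172 13 1))))))) .n)) (.c k162 (.f k4 k8 1 (.q k136 [(.s k153
  k187 4 (.s k17 k221 9 (.s k204 k68 9 (.d k51 k34 k102 4 14)))), (.s k68 k204 9 (.s k132 k196 7 (.s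
  k128 k140 1 (.d k192 k64 k72 7 9)))), (.s k153 k187 4 (.s k166 k247 12 (.s k179 k140 6 (.s k243
  k89 14 (.s k51 k115 7 (.d k17 k34 k221 4 9))))))] (.c k82 (.q k242 [(.s k153 k187 4 (.s k17 k221 9
  (.s k204 k68 9 (.d k51 k34 k102 4 14)))), (.s k166 k247 12 (.s k90 k14 13 (.s k80 k95 2 (.s k240
  k160 11 (.d k243 k241 k89 0 14)))))] .n) (.c k221 (.l (.s k153 k187 4 (.s k166 k247 12 (.s k140
  k179 6 (.d k204 k76 k68 7 9))))) (.c k242 (.q k82 [(.s k153 k187 4 (.s k17 k221 9 (.s k204 k68 9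
  (.d k51 k34 k102 4 14)))), (.s k68 k204 9 (.s k132 k196 7 (.s k128 k140 1 (.d k192 k64 k72 7
  9)))), (.s k153 k187 4 (.s k166 k247 12 (.s k179 k140 6 (.s k243 k89 14 (.s k51 k115 7 (.d k17 k34
  k221 4 9))))))] (.c k221 (.l (.s k153 k187 4 (.s k166 k247 12 (.s k140 k179 6 (.d k204 k76 k68 7
  9))))) .n)) .n))))) (.c k166 (.q k16 [(.s k48 k32 3 (.s k154 k223 10 (.s k138 k186 3 (.d k207 k69
  k101 10 14)))), (.s k8 k4 1 (.s k48 k32 3 (.s k24 k36 5 (.s k20 k28 1 (.d k40 k56 k60 3 5))))),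
  (.s k8 k4 1 (.s k89 k251 12 (.s k154 k223 10 (.s k24 k219 8 (.s k20 k28 1 (.d k40 k56 k60 3
  5))))))] .n) (.c k174 (.l (.s k8 k4 1 (.s k89 k251 12 (.s k81 k93 1 (.d k243 k162 k166 12 14)))))
  (.c k243 (.f k4 k8 1 (.q k36 [(.s k20 k52 3 (.s k24 k48 5 (.s k28 k16 1 (.d k60 k44 k40 3 5)))),
  (.s k20 k52 3 (.s k150 k215 8 (.s k130 k190 5 (.s k195 k65 8 (.s k134 k73 10 (.d k166 k247 k182 12
  3)))))), (.s k48 k24 5 (.s k16 k32 3 (.s k154 k223 10 (.s k138 k186 3 (.d k207 k69 k101 10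
  14)))))] (.c k247 (.q k251 [(.s k48 k24 5 (.s k32 k16 3 (.s k40 k44 1 (.d k20 k52 k60 3 5)))), (.s
  k20 k52 3 (.s k150 k215 8 (.s k130 k190 5 (.s k195 k65 8 (.d k60 k40 k105 5 14))))), (.s k48 k24 5
  (.s k16 k32 3 (.s k154 k223 10 (.s k138 k186 3 (.d k207 k69 k101 10 14)))))] (.c k40 (.l (.s k52
  k20 3 (.s k48 k24 5 (.s k56 k60 1 (.s k16 k32 3 (.s k154 k223 10 (.d k186 k121 k138 8 3)))))))
  .n)) (.c k251 (.l (.s k247 k166 12 (.s k20 k52 3 (.s k24 k48 5 (.s k28 k16 1 (.d k60 k44 k40 3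
  5)))))) .n)))) (.c k247 (.l (.s k8 k4 1 (.s k89 k251 12 (.s k243 k166 14 (.d k81 k93 k162 1
  12))))) (.c k251 (.l (.s k4 k8 1 (.s k166 k247 12 (.s k243 k89 14 (.d k162 k174 k81 1 12)))))
  .n))))))))))))

def t2_14 : T TT 256 :=
  (.f k170 k255 14 (.q k10 [(.s k15 k5 2 (.s k90 k250 11 (.s k80 k95 2 (.d k240 k160 k165 11 14))))]
  (.c k5 (.q k8 [(.s k12 k4 1 (.s k89 k251 12 (.s k81 k93 1 (.d k243 k162 k166 12 14)))), (.s k11 k9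
  0 (.s k90 k250 11 (.s k169 k248 12 (.s k171 k168 0 (.d k251 k91 k89 11 12))))), (.s k11 k9 0 (.s
  k12 k4 1 (.s k90 k250 11 (.s k80 k95 2 (.s k240 k160 11 (.s k88 k164 13 (.d k248 k168 k169 11
  12)))))))] .n) (.c k15 (.q k12 [(.s k4 k8 1 (.s k166 k247 12 (.s k243 k89 14 (.d k162 k174 k81 1
  12)))), (.s k8 k4 1 (.s k11 k9 0 (.s k90 k250 11 (.s k169 k248 12 (.s k171 k168 0 (.d k251 k91 k89
  11 12))))))] (.c k4 (.f k90 k250 11 (.q k240 [(.d k80 k95 k160 2 11), (.s k88 k164 13 (.s k89 k91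
  0 (.s k81 k93 1 (.d k243 k162 k166 12 14))))] (.c k95 (.q k175 [(.d k160 k165 k80 2 11), (.s k88
  k164 13 (.s k89 k91 0 (.s k81 k93 1 (.d k243 k162 k166 12 14))))] .n) (.c k175 (.l (.s k95 k80 2
  (.s k88 k164 13 (.s k89 k91 0 (.s k81 k93 1 (.d k243 k162 k166 12 14)))))) .n)))) (.c k8 (.f k90
  k250 11 (.q k240 [(.d k80 k95 k160 2 11), (.s k88 k164 13 (.s k89 k91 0 (.s k81 k93 1 (.d k243
  k162 k166 12 14))))] (.c k95 (.q k175 [(.d k160 k165 k80 2 11), (.s k88 k164 13 (.s k89 k91 0 (.s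
  k81 k93 1 (.d k243 k162 k166 12 14))))] .n) (.c k175 (.l (.s k95 k80 2 (.s k88 k164 13 (.s k89 k91
  0 (.s k81 k93 1 (.d k243 k162 k166 12 14)))))) .n)))) (.c k89 (.q k175 [(.s k90 k250 11 (.s k80
  k95 2 (.d k160 k240 k165 11 2))), (.s k4 k8 1 (.s k166 k247 12 (.s k174 k162 1 (.s k172 k173 0 (.s
  k252 k92 11 (.s k168 k84 13 (.d k169 k171 k163 0 2)))))))] (.c k80 (.l (.s k4 k8 1 (.s k160 k165 2
  (.s k166 k247 12 (.s k162 k174 1 (.s k163 k161 0 (.s k169 k172 2 (.d k171 k168 k167 0 1))))))))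
  .n)) (.c k95 (.q k175 [(.s k4 k8 1 (.s k166 k247 12 (.s k243 k89 14 (.d k162 k174 k81 1 12)))),
  (.s k4 k8 1 (.s k160 k165 2 (.s k240 k80 11 (.s k164 k88 13 (.s k84 k244 11 (.d k168 k172 k252 1
  13)))))), (.s k90 k250 11 (.s k160 k165 2 (.s k240 k80 11 (.s k88 k164 13 (.s k89 k91 0 (.s k81
  k93 1 (.d k243 k166 k162 14 12)))))))] .n) (.c k175 (.q k95 [(.d k90 k80 k250 2 11), (.s k4 k8 1
  (.s k166 k247 12 (.s k162 k174 1 (.d k243 k81 k89 12 14))))] .n) (.c k251 (.l (.s k4 k8 1 (.s k166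
  k247 12 (.s k243 k89 14 (.d k162 k174 k81 1 12))))) .n))))))) (.c k80 (.q k8 [(.s k12 k4 1 (.s k89
  k251 12 (.s k81 k93 1 (.d k243 k162 k166 12 14)))), (.s k11 k9 0 (.s k12 k4 1 (.s k15 k5 2 (.s k90
  k250 11 (.s k240 k165 14 (.s k88 k164 13 (.d k248 k168 k169 11 12))))))), (.s k5 k15 2 (.s k9 k11
  0 (.s k13 k1 1 (.s k89 k251 12 (.d k165 k245 k241 11 13)))))] (.c k12 (.l (.s k9 k11 0 (.s k5 k15
  2 (.s k13 k1 1 (.s k89 k251 12 (.d k165 k245 k241 11 13)))))) .n)) (.c k90 (.f k15 k5 2 (.q k138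
  [(.s k154 k186 3 (.s k16 k223 10 (.s k48 k32 3 (.d k207 k69 k101 10 14)))), (.s k74 k202 7 (.s
  k192 k133 10 (.s k64 k128 7 (.s k106 k127 6 (.s k42 k234 7 (.d k63 k21 k149 6 14))))))] (.c k69
  (.l (.s k154 k186 3 (.s k16 k223 10 (.s k48 k32 3 (.s k26 k37 6 (.s k21 k31 2 (.d k42 k58 k63 3
  6))))))) (.c k166 (.q k242 [(.s k154 k186 3 (.s k16 k223 10 (.s k48 k32 3 (.d k207 k69 k101 10
  14)))), (.s k74 k202 7 (.s k192 k133 10 (.s k64 k128 7 (.s k106 k127 6 (.s k42 k234 7 (.d k63 k21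
  k149 6 14))))))] (.c k69 (.l (.s k154 k186 3 (.s k16 k223 10 (.s k48 k32 3 (.s k26 k37 6 (.s k21
  k31 2 (.d k42 k58 k63 3 6))))))) .n)) (.c k242 (.q k166 [(.s k4 k247 12 (.s k12 k8 1 (.s k162 k174
  1 (.d k243 k81 k89 12 14)))), (.s k69 k207 10 (.s k74 k202 7 (.s k64 k79 2 (.d k192 k128 k133 7
  10))))] (.c k82 (.l (.s k162 k174 1 (.s k4 k247 12 (.s k12 k8 1 (.d k243 k81 k89 12 14))))) (.c
  k162 (.q k82 [(.s k69 k207 10 (.s k74 k202 7 (.s k192 k133 10 (.d k64 k79 k128 2 7)))), (.s k154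
  k186 3 (.s k16 k223 10 (.s k48 k32 3 (.s k26 k37 6 (.s k21 k31 2 (.d k42 k58 k63 3 6)))))), (.s
  k74 k202 7 (.s k192 k133 10 (.s k64 k128 7 (.s k106 k127 6 (.s k42 k234 7 (.d k63 k21 k149 6
  14))))))] .n) .n))) .n))))) (.c k95 (.q k12 [(.s k4 k8 1 (.s k166 k247 12 (.s k243 k89 14 (.d k162
  k174 k81 1 12)))), (.s k8 k4 1 (.s k11 k9 0 (.s k15 k5 2 (.s k90 k250 11 (.s k240 k165 14 (.s k88
  k164 13 (.d k248 k168 k169 11 12))))))), (.s k15 k5 2 (.s k90 k250 11 (.s k240 k165 14 (.s k88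
  k164 13 (.s k89 k91 0 (.s k81 k93 1 (.d k243 k166 k162 14 12)))))))] (.c k15 (.q k175 [(.s k4 k8 1
  (.s k166 k247 12 (.s k243 k89 14 (.d k162 k174 k81 1 12)))), (.s k4 k8 1 (.s k160 k165 2 (.s k240
  k80 11 (.s k164 k88 13 (.s k84 k244 11 (.d k168 k172 k252 1 13)))))), (.s k90 k250 11 (.s k160
  k165 2 (.s k240 k80 11 (.s k88 k164 13 (.s k89 k91 0 (.s k81 k93 1 (.d k243 k166 k162 14
  12)))))))] .n) (.c k166 (.l (.s k8 k4 1 (.s k9 k11 0 (.s k89 k251 12 (.s k169 k249 11 (.s k1 k253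
  13 (.d k5 k13 k15 1 2))))))) (.c k175 (.l (.s k15 k5 2 (.s k4 k8 1 (.s k166 k247 12 (.s k162 k174
  1 (.d k243 k81 k89 12 14)))))) .n)))) (.c k160 (.q k8 [(.s k12 k4 1 (.s k89 k251 12 (.s k81 k93 1
  (.d k243 k162 k166 12 14)))), (.s k11 k9 0 (.s k12 k4 1 (.s k15 k5 2 (.s k90 k250 11 (.s k240 k165
  14 (.s k88 k164 13 (.d k248 k168 k169 11 12))))))), (.s k5 k15 2 (.s k9 k11 0 (.s k13 k1 1 (.s k89
  k251 12 (.d k165 k245 k241 11 13)))))] (.c k12 (.l (.s k9 k11 0 (.s k5 k15 2 (.s k13 k1 1 (.s k89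
  k251 12 (.d k165 k245 k241 11 13)))))) .n)) (.c k165 (.q k8 [(.s k12 k4 1 (.s k89 k251 12 (.s k81
  k93 1 (.d k243 k162 k166 12 14)))), (.s k11 k9 0 (.s k90 k250 11 (.s k169 k248 12 (.s k171 k168 0
  (.d k251 k91 k89 11 12))))), (.s k11 k9 0 (.s k12 k4 1 (.s k90 k250 11 (.s k80 k95 2 (.s k240 k160
  11 (.s k88 k164 13 (.d k248 k168 k169 11 12)))))))] .n) (.c k240 (.q k26 [(.s k42 k58 3 (.s k63
  k21 6 (.s k106 k234 7 (.s k64 k127 6 (.d k192 k128 k149 7 14))))), (.s k15 k5 2 (.s k48 k37 6 (.s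
  k32 k16 3 (.s k101 k239 10 (.s k69 k117 3 (.d k207 k138 k154 10 14))))))] (.c k21 (.l (.s k5 k15 2
  (.s k58 k42 3 (.s k90 k250 11 (.s k245 k165 11 (.s k154 k218 7 (.s k138 k186 3 (.d k202 k74 k106 7
  11)))))))) (.c k245 (.l (.s k250 k90 11 (.s k15 k5 2 (.s k37 k48 6 (.s k42 k58 3 (.s k47 k32 2 (.d
  k63 k31 k21 3 6))))))) (.c k250 (.q k245 [(.d k5 k15 k165 2 11), (.s k42 k58 3 (.s k63 k21 6 (.s
  k106 k234 7 (.s k64 k127 6 (.d k192 k128 k149 7 14)))))] .n) .n)))) (.c k245 (.l (.s k15 k5 2 (.s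
  k90 k250 11 (.s k240 k165 14 (.d k80 k95 k160 2 11))))) (.c k250 (.f k15 k5 2 (.q k48 [(.s k16 k32
  3 (.s k154 k223 10 (.s k207 k101 14 (.d k138 k186 k69 3 10)))), (.s k26 k37 6 (.s k42 k58 3 (.s
  k106 k234 7 (.s k64 k127 6 (.s k192 k128 7 (.d k63 k21 k149 6 14))))))] (.c k186 (.l (.s k16 k32 3
  (.s k26 k37 6 (.s k21 k31 2 (.d k42 k58 k63 3 6))))) (.c k240 (.q k245 [(.s k16 k32 3 (.s k154
  k223 10 (.s k207 k101 14 (.d k138 k186 k69 3 10)))), (.s k26 k37 6 (.s k42 k58 3 (.s k106 k234 7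
  (.s k64 k127 6 (.s k192 k128 7 (.d k63 k21 k149 6 14))))))] (.c k186 (.l (.s k16 k32 3 (.s k26 k37
  6 (.s k21 k31 2 (.d k42 k58 k63 3 6))))) .n)) (.c k245 (.q k240 [(.s k80 k160 11 (.d k90 k95 k165
  2 14)), (.s k16 k32 3 (.s k26 k37 6 (.s k21 k31 2 (.d k42 k58 k63 3 6))))] .n) .n)))))
  .n))))))))))))

def t2_15 : T TT 256 :=
  (.q k166 [(.s k4 k247 12 (.s k12 k8 1 (.s k89 k243 14 (.s k93 k81 1 (.d k255 k174 k170 12 14))))),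
  (.s k247 k4 12 (.s k255 k170 14 (.s k243 k251 1 (.s k89 k12 14 (.d k81 k93 k162 1 12)))))] (.c k4
  (.q k16 [(.s k48 k32 3 (.s k154 k223 10 (.s k170 k255 14 (.s k138 k186 3 (.d k207 k69 k101 10
  14))))), (.s k48 k32 3 (.s k154 k223 10 (.s k178 k142 5 (.s k243 k113 8 (.s k81 k162 12 (.d k89
  k93 k12 1 14)))))), (.s k154 k223 10 (.s k170 k255 14 (.s k162 k174 1 (.s k81 k243 12 (.s k146
  k211 8 (.d k178 k130 k142 3 5)))))), (.s k32 k48 3 (.s k170 k255 14 (.s k162 k174 1 (.s k227 k97 8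
  (.s k44 k105 10 (.s k36 k40 1 (.d k101 k231 k239 8 10)))))))] .n) (.c k8 (.l (.s k247 k4 12 (.s
  k255 k170 14 (.s k243 k251 1 (.s k89 k12 14 (.d k81 k93 k162 1 12)))))) (.c k12 (.q k117 [(.s k101
  k69 3 (.s k247 k4 12 (.s k52 k182 8 (.s k199 k150 12 (.d k231 k215 k36 3 8))))), (.s k101 k69 3
  (.s k255 k170 14 (.s k48 k186 10 (.s k16 k32 3 (.d k154 k223 k207 10 14))))), (.s k247 k4 12 (.s
  k182 k52 8 (.s k255 k170 14 (.s k48 k186 10 (.s k243 k251 1 (.s k113 k178 8 (.d k121 k125 k60 1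
  10)))))))] (.c k13 (.q k14 [(.s k101 k69 3 (.s k247 k4 12 (.s k52 k182 8 (.s k199 k150 12 (.d k231
  k215 k36 3 8))))), (.s k101 k69 3 (.s k255 k170 14 (.s k48 k186 10 (.s k16 k32 3 (.d k154 k223
  k207 10 14))))), (.s k242 k90 13 (.s k247 k4 12 (.s k182 k52 8 (.s k62 k122 9 (.s k46 k30 3 (.s
  k106 k226 9 (.d k150 k134 k194 3 13)))))))] .n) (.c k14 (.q k13 [(.s k101 k69 3 (.s k247 k4 12 (.s
  k52 k182 8 (.s k199 k150 12 (.d k231 k215 k36 3 8))))), (.s k101 k69 3 (.s k255 k170 14 (.s k48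
  k186 10 (.s k16 k32 3 (.d k154 k223 k207 10 14))))), (.s k247 k4 12 (.s k182 k52 8 (.s k255 k170
  14 (.s k48 k186 10 (.s k243 k251 1 (.s k113 k178 8 (.d k121 k125 k60 1 10)))))))] (.c k6 (.q k10
  [(.s k101 k69 3 (.s k255 k170 14 (.s k48 k186 10 (.s k16 k32 3 (.d k154 k223 k207 10 14))))), (.s
  k101 k69 3 (.s k247 k4 12 (.s k52 k182 8 (.s k199 k150 12 (.d k231 k215 k36 3 8))))), (.s k247 k4
  12 (.s k182 k52 8 (.s k255 k170 14 (.s k48 k186 10 (.s k243 k251 1 (.s k113 k178 8 (.d k121 k125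
  k60 1 10)))))))] (.c k3 (.q k9 [(.s k1 k5 1 (.s k11 k8 0 (.s k169 k253 13 (.s k90 k248 12 (.d k170
  k250 k255 11 14))))), (.s k101 k69 3 (.s k231 k36 8 (.s k247 k4 12 (.s k52 k182 8 (.d k199 k215
  k150 3 12))))), (.s k101 k69 3 (.s k255 k170 14 (.s k48 k186 10 (.s k16 k32 3 (.d k154 k223 k207
  10 14)))))] (.c k7 (.l (.s k11 k8 0 (.s k170 k255 14 (.s k90 k250 11 (.s k169 k248 12 (.d k1 k5
  k253 1 13)))))) (.c k11 (.q k7 [(.s k5 k1 1 (.s k165 k245 11 (.s k247 k4 12 (.d k167 k164 k87 0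
  11)))), (.s k101 k69 3 (.s k231 k36 8 (.s k247 k4 12 (.s k52 k182 8 (.d k199 k215 k150 3 12))))),
  (.s k1 k5 1 (.s k169 k253 13 (.s k89 k249 11 (.s k81 k93 1 (.d k241 k161 k165 11 13)))))] .n)
  .n))) (.c k9 (.q k3 [(.s k101 k69 3 (.s k255 k170 14 (.s k48 k186 10 (.s k16 k32 3 (.d k154 k223
  k207 10 14))))), (.s k101 k69 3 (.s k247 k4 12 (.s k52 k182 8 (.s k199 k150 12 (.d k231 k215 k36 3
  8))))), (.s k247 k4 12 (.s k182 k52 8 (.s k255 k170 14 (.s k48 k186 10 (.s k243 k251 1 (.s k113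
  k178 8 (.d k121 k125 k60 1 10)))))))] .n) .n))) (.c k10 (.q k6 [(.s k4 k247 12 (.s k7 k5 0 (.s k86
  k246 11 (.s k84 k87 0 (.d k244 k164 k165 11 12))))), (.s k101 k69 3 (.s k255 k170 14 (.s k48 k186
  10 (.s k16 k32 3 (.d k154 k223 k207 10 14)))))] (.c k86 (.l (.s k101 k69 3 (.s k231 k36 8 (.s k247
  k4 12 (.s k52 k182 8 (.d k199 k215 k150 3 12)))))) .n)) .n))) .n))) (.c k81 (.q k16 [(.s k48 k32 3
  (.s k154 k223 10 (.s k101 k207 14 (.s k117 k69 3 (.d k255 k186 k170 10 14))))), (.s k4 k247 12 (.s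
  k12 k8 1 (.s k48 k32 3 (.s k24 k36 5 (.s k154 k223 10 (.d k89 k219 k243 8 14)))))), (.s k4 k247 12
  (.s k12 k8 1 (.s k154 k223 10 (.s k142 k178 5 (.s k170 k255 14 (.s k207 k77 8 (.d k138 k186 k69 3
  10))))))), (.s k4 k247 12 (.s k12 k8 1 (.s k48 k32 3 (.s k36 k24 5 (.s k101 k231 8 (.s k117 k69 3
  (.d k255 k186 k170 10 14)))))))] .n) (.c k89 (.q k16 [(.s k48 k32 3 (.s k154 k223 10 (.s k101 k207
  14 (.s k117 k69 3 (.d k255 k186 k170 10 14))))), (.s k154 k223 10 (.s k170 k255 14 (.s k162 k174 1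
  (.s k81 k243 12 (.s k146 k211 8 (.d k178 k130 k142 3 5)))))), (.s k4 k247 12 (.s k12 k8 1 (.s k48
  k32 3 (.s k36 k24 5 (.s k101 k231 8 (.s k69 k117 3 (.d k207 k154 k138 14 10)))))))] (.c k154 (.l
  (.s k4 k247 12 (.s k32 k48 3 (.s k170 k255 14 (.s k101 k239 10 (.s k36 k231 8 (.s k20 k52 3 (.d
  k40 k60 k44 5 1)))))))) (.c k170 (.l (.s k4 k247 12 (.s k48 k32 3 (.s k154 k223 10 (.s k101 k207
  14 (.s k36 k231 8 (.d k12 k8 k24 1 5))))))) (.c k207 (.l (.s k48 k32 3 (.s k154 k223 10 (.s k178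
  k142 5 (.s k243 k113 8 (.s k162 k81 12 (.d k170 k255 k174 14 1))))))) .n)))) (.c k93 (.l (.s k4
  k247 12 (.s k12 k8 1 (.s k170 k255 14 (.s k162 k174 1 (.d k243 k81 k89 12 14)))))) (.c k170 (.q
  k86 [(.s k4 k247 12 (.s k6 k246 11 (.s k7 k5 0 (.s k84 k87 0 (.d k244 k164 k165 11 12))))), (.s
  k84 k87 0 (.s k246 k6 11 (.s k252 k168 13 (.s k243 k249 2 (.s k81 k162 12 (.d k89 k93 k12 1
  14)))))), (.s k4 k247 12 (.s k12 k8 1 (.s k84 k87 0 (.s k89 k243 14 (.s k92 k83 2 (.d k252 k172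
  k168 11 13)))))), (.s k4 k247 12 (.s k6 k246 11 (.s k12 k8 1 (.s k3 k9 2 (.s k89 k243 14 (.s k92
  k83 2 (.d k252 k172 k169 11 14)))))))] .n) (.c k243 (.f k255 k170 14 (.f k4 k247 12 (.q k86 [(.s
  k6 k246 11 (.s k7 k5 0 (.s k84 k87 0 (.d k244 k164 k165 11 12)))), (.s k84 k87 0 (.s k252 k168 13
  (.s k169 k3 14 (.d k253 k254 k1 0 13)))), (.s k6 k246 11 (.s k12 k8 1 (.s k3 k9 2 (.s k93 k174 12
  (.s k89 k81 1 (.s k92 k83 2 (.d k252 k172 k169 11 14)))))))] (.c k91 (.q k167 [(.s k84 k87 0 (.d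
  k164 k165 k244 0 11)), (.s k12 k8 1 (.s k87 k84 0 (.s k3 k171 13 (.d k6 k9 k246 2 11)))), (.s k6
  k246 11 (.s k5 k7 0 (.d k165 k245 k164 11 0)))] .n) (.c k167 (.q k91 [(.s k6 k246 11 (.s k7 k5 0
  (.s k84 k87 0 (.d k244 k164 k165 11 12)))), (.s k12 k8 1 (.s k93 k174 12 (.s k89 k81 1 (.s k90 k88
  0 (.s k92 k83 2 (.d k94 k82 k95 1 0))))))] (.c k7 (.l (.s k87 k84 0 (.s k3 k171 13 (.s k6 k246 11
  (.d k12 k8 k9 1 2))))) (.c k87 (.q k7 [(.d k6 k5 k246 0 11), (.s k244 k165 12 (.s k84 k164 11 (.s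
  k252 k168 13 (.s k169 k3 14 (.d k253 k254 k1 0 13)))))] .n) .n))) (.c k252 (.l (.s k12 k8 1 (.s
  k87 k84 0 (.s k3 k171 13 (.d k6 k9 k246 2 11))))) .n)))))) (.c k247 (.q k16 [(.s k48 k32 3 (.s
  k154 k223 10 (.s k101 k207 14 (.s k117 k69 3 (.d k255 k186 k170 10 14))))), (.s k48 k32 3 (.s k154
  k223 10 (.s k178 k142 5 (.s k243 k113 8 (.s k81 k162 12 (.d k89 k93 k12 1 14)))))), (.s k154 k223
  10 (.s k170 k255 14 (.s k162 k174 1 (.s k178 k142 5 (.s k146 k130 3 (.d k81 k243 k211 12 8)))))),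
  (.s k32 k48 3 (.s k170 k255 14 (.s k162 k174 1 (.s k227 k97 8 (.s k44 k105 10 (.s k36 k40 1 (.d
  k101 k231 k239 8 10)))))))] .n) (.c k251 (.l (.s k4 k247 12 (.s k12 k8 1 (.s k89 k243 14 (.s k255
  k170 14 (.d k93 k81 k174 1 12)))))) (.c k255 (.q k38 [(.s k4 k247 12 (.s k55 k21 4 (.s k102 k230 7
  (.s k196 k149 12 (.d k68 k119 k132 4 7))))), (.s k102 k230 7 (.s k68 k119 4 (.s k204 k136 9 (.s
  k51 k153 14 (.s k12 k25 6 (.s k76 k140 7 (.d k89 k115 k243 6 14))))))), (.s k4 k247 12 (.s k12 k8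
  1 (.s k21 k55 4 (.s k25 k51 6 (.s k29 k17 1 (.d k63 k46 k42 4 6))))))] (.c k95 (.q k175 [(.s k4
  k247 12 (.s k55 k21 4 (.s k102 k230 7 (.s k196 k149 12 (.d k68 k119 k132 4 7))))), (.s k102 k230 7
  (.s k68 k119 4 (.s k204 k136 9 (.s k51 k153 14 (.s k12 k25 6 (.s k76 k140 7 (.d k89 k115 k243 6
  14))))))), (.s k4 k247 12 (.s k12 k8 1 (.s k21 k55 4 (.s k25 k51 6 (.s k29 k17 1 (.d k63 k46 k42 4
  6))))))] (.c k119 (.l (.s k4 k247 12 (.s k12 k8 1 (.s k51 k25 6 (.s k17 k34 4 (.s k102 k230 7 (.d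
  k153 k221 k204 9 14))))))) (.c k243 (.l (.s k102 k230 7 (.s k68 k119 4 (.s k204 k136 9 (.s k51
  k153 14 (.s k12 k25 6 (.d k4 k8 k247 1 12))))))) .n))) (.c k119 (.l (.s k4 k247 12 (.s k12 k8 1
  (.s k51 k25 6 (.s k17 k34 4 (.s k102 k230 7 (.d k153 k221 k204 9 14))))))) (.c k175 (.q k95 [(.s
  k4 k247 12 (.s k55 k21 4 (.s k102 k230 7 (.s k196 k149 12 (.d k68 k119 k132 4 7))))), (.s k90 k80
  2 (.s k14 k242 13 (.s k50 k26 5 (.s k102 k230 7 (.s k78 k114 5 (.d k206 k142 k154 7 13)))))), (.s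
  k4 k247 12 (.s k12 k8 1 (.s k21 k55 4 (.s k25 k51 6 (.s k29 k17 1 (.d k63 k46 k42 4 6))))))] .n)
  (.c k243 (.l (.s k102 k230 7 (.s k68 k119 4 (.s k204 k136 9 (.s k51 k153 14 (.s k12 k25 6 (.d k4
  k8 k247 1 12))))))) .n))))) .n))))))))))))

def t2_20 : T TT 256 :=
  (.f k170 k255 14 (.q k240 [(.s k80 k160 11 (.s k90 k95 2 (.s k10 k250 11 (.d k15 k5 k165 2 14))))]
  (.c k5 (.q k4 [(.s k12 k8 1 (.s k166 k247 12 (.s k162 k174 1 (.d k243 k81 k89 12 14)))), (.s k12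
  k8 1 (.s k160 k80 11 (.s k164 k88 13 (.s k84 k244 11 (.d k168 k172 k252 1 13))))), (.s k80 k160 11
  (.s k90 k95 2 (.s k166 k247 12 (.s k242 k14 13 (.s k243 k241 0 (.d k162 k174 k81 1 12))))))] .n)
  (.c k10 (.f k160 k80 11 (.f k175 k165 2 (.q k4 [(.s k12 k8 1 (.s k166 k247 12 (.s k162 k174 1 (.d
  k243 k81 k89 12 14)))), (.s k12 k8 1 (.s k164 k88 13 (.s k84 k244 11 (.d k168 k172 k252 1 13)))),
  (.s k166 k247 12 (.s k174 k162 1 (.s k172 k173 0 (.s k168 k164 1 (.d k169 k171 k163 0 2)))))] (.c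
  k6 (.q k14 [(.s k166 k247 12 (.s k162 k174 1 (.s k242 k90 13 (.d k243 k241 k81 0 12)))), (.s k12
  k8 1 (.s k164 k88 13 (.s k84 k244 11 (.d k168 k172 k252 1 13))))] (.c k12 (.l (.s k166 k247 12 (.s
  k242 k90 13 (.s k243 k241 0 (.d k162 k174 k81 1 12))))) .n)) (.c k14 (.q k6 [(.s k12 k8 1 (.s k164
  k88 13 (.s k168 k172 1 (.d k84 k244 k252 11 13)))), (.s k166 k247 12 (.s k162 k174 1 (.s k243 k81
  12 (.d k12 k8 k89 1 14)))), (.s k166 k247 12 (.s k86 k246 11 (.s k84 k87 0 (.s k168 k252 13 (.d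
  k164 k244 k172 11 1)))))] .n) .n))))) (.c k15 (.f k80 k160 11 (.q k208 [(.s k192 k224 3 (.s k64
  k128 7 (.s k96 k112 3 (.d k144 k16 k48 7 11)))), (.s k192 k224 3 (.s k128 k64 7 (.s k149 k191 6
  (.d k90 k95 k31 2 10)))), (.s k16 k144 7 (.s k154 k223 10 (.s k138 k186 3 (.s k207 k69 10 (.d k48
  k32 k101 3 14)))))] (.c k32 (.l (.s k144 k16 7 (.s k192 k224 3 (.s k96 k48 11 (.d k64 k112 k128 3
  7))))) (.c k95 (.q k175 [(.s k192 k224 3 (.s k64 k128 7 (.s k96 k112 3 (.d k144 k16 k48 7 11)))),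
  (.s k16 k144 7 (.s k154 k223 10 (.s k138 k186 3 (.s k207 k69 10 (.d k48 k32 k101 3 14))))), (.s
  k192 k224 3 (.s k128 k64 7 (.s k149 k191 6 (.s k21 k213 7 (.d k63 k42 k106 6 14)))))] (.c k32 (.l
  (.s k144 k16 7 (.s k192 k224 3 (.s k96 k48 11 (.d k64 k112 k128 3 7))))) (.c k128 (.l (.s k144 k16
  7 (.s k192 k224 3 (.s k96 k48 11 (.s k64 k112 3 (.s k106 k127 6 (.s k42 k234 7 (.d k63 k21 k149 6
  14)))))))) .n))) (.c k128 (.l (.s k144 k16 7 (.s k192 k224 3 (.s k96 k48 11 (.s k64 k112 3 (.s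
  k106 k127 6 (.s k42 k234 7 (.d k63 k21 k149 6 14)))))))) (.c k175 (.l (.s k95 k90 2 (.s k144 k16 7
  (.s k192 k224 3 (.s k64 k128 7 (.d k96 k112 k48 3 11)))))) .n)))))) (.c k80 (.q k149 [(.s k21 k213
  7 (.s k63 k42 6 (.s k128 k191 6 (.d k192 k64 k106 7 14)))), (.s k128 k191 6 (.s k192 k64 7 (.s
  k208 k224 3 (.s k90 k31 10 (.s k10 k250 11 (.d k15 k5 k165 2 14)))))), (.s k21 k213 7 (.s k63 k42
  6 (.s k181 k122 10 (.s k165 k133 3 (.s k5 k245 11 (.d k15 k10 k90 2 14))))))] (.c k63 (.q k176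
  [(.s k48 k112 7 (.s k16 k32 3 (.s k191 k128 6 (.s k186 k181 2 (.d k154 k138 k223 3 10))))), (.s
  k191 k128 6 (.s k181 k186 2 (.s k165 k133 3 (.s k5 k245 11 (.d k15 k10 k90 2 14))))), (.s k48 k112
  7 (.s k16 k32 3 (.s k154 k223 10 (.s k144 k159 2 (.d k128 k191 k160 6 3)))))] (.c k48 (.l (.s k191
  k128 6 (.s k186 k181 2 (.s k154 k138 3 (.s k143 k165 6 (.d k159 k144 k175 2 3)))))) (.c k127 (.l
  (.s k191 k128 6 (.s k48 k112 7 (.s k16 k32 3 (.s k154 k223 10 (.d k186 k181 k138 2 3)))))) (.c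
  k128 (.l (.s k48 k112 7 (.s k16 k32 3 (.s k154 k223 10 (.s k138 k186 3 (.d k207 k69 k101 10
  14)))))) (.c k191 (.q k127 [(.s k48 k112 7 (.s k16 k32 3 (.s k154 k223 10 (.s k138 k186 3 (.d k207
  k69 k101 10 14))))), (.s k64 k106 6 (.s k128 k192 7 (.s k160 k144 3 (.s k165 k175 2 (.s k5 k245 11
  (.d k15 k10 k90 2 14)))))), (.s k64 k106 6 (.s k128 k192 7 (.s k144 k160 3 (.s k154 k159 2 (.s
  k143 k165 6 (.d k138 k133 k186 2 3))))))] (.c k64 (.l (.s k21 k213 7 (.s k112 k48 7 (.s k117 k122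
  2 (.s k101 k69 3 (.s k53 k197 11 (.s k5 k37 3 (.d k245 k181 k165 7 11)))))))) .n)) .n))))) (.c
  k192 (.q k160 [(.s k165 k175 2 (.s k5 k245 11 (.d k15 k10 k90 2 14))), (.s k128 k191 6 (.s k176
  k144 3 (.s k48 k112 7 (.s k16 k32 3 (.s k154 k223 10 (.s k138 k186 3 (.d k143 k133 k165 2
  6)))))))] (.c k165 (.l (.s k128 k191 6 (.s k144 k176 3 (.s k154 k159 2 (.s k16 k223 10 (.s k48 k32
  3 (.s k207 k101 14 (.d k138 k186 k69 3 10)))))))) (.c k213 (.q k234 [(.s k165 k175 2 (.s k15 k90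
  14 (.d k5 k10 k245 2 11))), (.s k128 k191 6 (.s k144 k176 3 (.s k154 k159 2 (.s k16 k223 10 (.s
  k32 k48 3 (.s k224 k96 7 (.d k239 k229 k101 2 10))))))), (.s k42 k106 7 (.s k63 k21 6 (.s k181
  k122 10 (.s k165 k133 3 (.s k5 k245 11 (.d k15 k90 k10 14 2))))))] .n) (.c k234 (.l (.s k213 k21 7
  (.s k165 k175 2 (.s k5 k245 11 (.d k15 k10 k90 2 14))))) .n)))) .n))) (.c k90 (.q k4 [(.s k12 k8 1
  (.s k166 k247 12 (.s k162 k174 1 (.d k243 k81 k89 12 14)))), (.s k12 k8 1 (.s k160 k80 11 (.s k164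
  k88 13 (.s k84 k244 11 (.d k168 k172 k252 1 13))))), (.s k160 k80 11 (.s k165 k175 2 (.s k166 k247
  12 (.s k164 k167 0 (.s k84 k244 11 (.d k168 k172 k252 1 13))))))] .n) (.c k95 (.l (.s k160 k80 11
  (.s k165 k175 2 (.s k15 k90 14 (.d k5 k10 k245 2 11))))) (.c k160 (.q k153 [(.s k17 k221 9 (.s
  k136 k187 4 (.s k204 k68 9 (.d k51 k34 k102 4 14)))), (.s k136 k187 4 (.s k204 k68 9 (.s k216 k228
  5 (.s k90 k27 8 (.s k10 k250 11 (.d k15 k5 k165 2 14)))))), (.s k17 k221 9 (.s k51 k34 4 (.s k177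
  k114 8 (.s k165 k141 5 (.s k5 k245 11 (.d k15 k10 k90 2 14))))))] (.c k51 (.q k154 [(.s k16 k223
  10 (.s k138 k186 3 (.s k207 k69 10 (.d k48 k32 k101 3 14)))), (.s k155 k152 0 (.s k186 k138 3 (.s
  k187 k136 4 (.s k139 k171 3 (.d k184 k185 k169 0 4))))), (.s k16 k223 10 (.s k17 k221 9 (.s k19
  k18 0 (.s k152 k155 0 (.d k220 k84 k86 9 10)))))] (.c k119 (.l (.s k187 k136 4 (.s k16 k223 10 (.s
  k48 k32 3 (.s k138 k186 3 (.d k207 k69 k101 10 14)))))) (.c k187 (.q k119 [(.s k16 k223 10 (.s k48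
  k32 3 (.s k207 k101 14 (.d k138 k186 k69 3 10)))), (.s k155 k152 0 (.s k221 k17 9 (.s k223 k16 10
  (.s k19 k87 9 (.d k220 k222 k86 0 10))))), (.s k68 k102 4 (.s k136 k204 9 (.s k138 k186 3 (.s k139
  k137 0 (.s k152 k155 0 (.d k184 k168 k169 3 4))))))] .n) .n))) (.c k204 (.q k138 [(.s k207 k69 10
  (.s k154 k186 3 (.s k48 k101 14 (.d k16 k32 k223 3 10)))), (.s k69 k207 10 (.s k136 k187 4 (.s
  k137 k139 0 (.s k169 k185 3 (.d k1 k205 k253 9 13))))), (.s k136 k187 4 (.s k139 k137 0 (.s k154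
  k186 3 (.s k152 k155 0 (.d k184 k168 k169 3 4)))))] (.c k186 (.l (.s k69 k207 10 (.s k136 k187 4
  (.s k137 k139 0 (.s k205 k1 9 (.d k101 k117 k49 3 13)))))) (.c k221 (.q k238 [(.s k207 k69 10 (.s
  k154 k186 3 (.s k48 k101 14 (.d k16 k32 k223 3 10)))), (.s k136 k187 4 (.s k139 k137 0 (.s k154
  k186 3 (.s k152 k155 0 (.d k184 k168 k169 3 4))))), (.s k69 k207 10 (.s k136 k187 4 (.s k137 k139
  0 (.s k205 k1 9 (.d k101 k117 k49 3 13)))))] (.c k117 (.l (.s k207 k69 10 (.s k154 k186 3 (.s k48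
  k101 14 (.d k16 k32 k223 3 10))))) .n)) (.c k238 (.l (.s k221 k17 9 (.s k154 k186 3 (.s k16 k223
  10 (.s k48 k32 3 (.d k207 k69 k101 10 14)))))) .n)))) .n))) (.c k165 (.q k4 [(.s k12 k8 1 (.s k166
  k247 12 (.s k162 k174 1 (.d k243 k81 k89 12 14)))), (.s k12 k8 1 (.s k160 k80 11 (.s k164 k88 13
  (.s k84 k244 11 (.d k168 k172 k252 1 13))))), (.s k80 k160 11 (.s k90 k95 2 (.s k166 k247 12 (.s
  k242 k14 13 (.s k243 k241 0 (.d k162 k174 k81 1 12))))))] .n) (.c k175 (.l (.s k80 k160 11 (.s k90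
  k95 2 (.s k15 k165 14 (.d k10 k5 k250 2 11))))) (.c k250 (.l (.s k160 k80 11 (.s k165 k175 2 (.s
  k5 k245 11 (.d k15 k10 k90 2 14))))) .n))))))))))))

def t2_22 : T TT 256 :=
  (.f k170 k255 14 (.q k106 [(.s k42 k234 7 (.s k64 k127 6 (.s k192 k128 7 (.d k63 k21 k149 6
  14))))] (.c k21 (.q k20 [(.s k60 k40 5 (.s k150 k215 8 (.s k130 k190 5 (.d k195 k65 k105 8 14)))),
  (.s k60 k40 5 (.s k64 k127 6 (.s k192 k128 7 (.s k63 k149 14 (.s k62 k61 0 (.d k150 k215 k194 8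
  13)))))), (.s k42 k234 7 (.s k64 k127 6 (.s k150 k215 8 (.s k192 k128 7 (.s k194 k62 13 (.s k195
  k193 0 (.d k130 k190 k65 5 8)))))))] (.c k42 (.q k62 [(.d k150 k215 k194 8 13), (.s k60 k40 5 (.s
  k63 k61 0 (.s k64 k127 6 (.d k192 k128 k149 7 14))))] .n) (.c k62 (.l (.s k42 k234 7 (.s k60 k40 5
  (.s k150 k215 8 (.s k130 k190 5 (.d k195 k65 k105 8 14)))))) (.c k150 (.l (.s k40 k60 5 (.s k42
  k234 7 (.s k105 k235 8 (.s k104 k107 0 (.s k232 k168 7 (.d k43 k41 k169 0 8))))))) (.c k215 (.l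
  (.s k60 k40 5 (.s k64 k127 6 (.s k192 k128 7 (.s k104 k148 13 (.s k105 k107 0 (.s k65 k125 5 (.d
  k195 k130 k150 8 14)))))))) .n))))) (.c k42 (.q k62 [(.s k150 k194 13 (.s k20 k215 8 (.s k130 k190
  5 (.s k195 k65 8 (.d k60 k40 k105 5 14))))), (.s k64 k127 6 (.s k192 k128 7 (.s k63 k149 14 (.s
  k60 k61 0 (.s k40 k20 5 (.s k104 k148 13 (.d k105 k107 k235 0 8))))))), (.s k64 k127 6 (.s k150
  k194 13 (.s k130 k190 5 (.s k192 k128 7 (.s k63 k149 14 (.s k60 k61 0 (.d k195 k105 k65 14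
  8)))))))] (.c k60 (.q k125 [(.s k65 k105 5 (.s k150 k194 13 (.d k130 k195 k190 8 5))), (.s k105
  k65 5 (.s k107 k104 0 (.s k127 k64 6 (.s k67 k87 5 (.d k124 k126 k86 0 6))))), (.s k127 k64 6 (.s
  k126 k124 0 (.s k150 k194 13 (.d k190 k130 k254 5 7))))] (.c k3 (.q k41 [(.s k65 k105 5 (.s k150
  k194 13 (.d k130 k195 k190 8 5))), (.s k105 k65 5 (.s k40 k235 8 (.s k104 k107 0 (.s k168 k232 7
  (.d k169 k171 k233 0 7))))), (.s k127 k64 6 (.s k126 k124 0 (.s k150 k194 13 (.d k190 k130 k254 5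
  7))))] (.c k87 (.q k171 [(.s k105 k65 5 (.d k169 k168 k233 0 7)), (.s k127 k64 6 (.s k126 k124 0
  (.s k150 k194 13 (.d k190 k130 k254 5 7))))] .n) (.c k171 (.q k87 [(.s k65 k105 5 (.s k150 k194 13
  (.d k130 k195 k190 8 5))), (.s k86 k84 0 (.s k127 k64 6 (.d k126 k124 k66 0 5)))] (.c k66 (.l (.s
  k65 k105 5 (.s k130 k195 8 (.d k150 k190 k194 5 13)))) .n)) .n))) (.c k41 (.q k3 [(.s k150 k194 13
  (.s k130 k190 5 (.d k65 k105 k195 5 8))), (.s k64 k127 6 (.s k192 k128 7 (.s k66 k129 8 (.d k65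
  k67 k105 0 5)))), (.s k127 k64 6 (.s k126 k124 0 (.s k150 k194 13 (.d k190 k130 k254 5 7))))] (.c
  k40 (.q k43 [(.s k64 k127 6 (.s k192 k128 7 (.d k63 k23 k149 5 14))), (.s k65 k105 5 (.s k130 k195
  8 (.d k150 k190 k194 5 13)))] .n) (.c k43 (.q k40 [(.d k105 k65 k235 5 8), (.s k127 k64 6 (.s k126
  k124 0 (.s k150 k194 13 (.d k190 k130 k254 5 7))))] .n) (.c k66 (.l (.s k65 k105 5 (.s k130 k195 8
  (.d k150 k190 k194 5 13)))) (.c k130 (.l (.s k64 k127 6 (.s k65 k105 5 (.s k66 k67 0 (.d k192 k128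
  k129 7 8))))) .n))))) (.c k66 (.l (.s k65 k105 5 (.s k130 k195 8 (.d k150 k190 k194 5 13))))
  .n)))) (.c k105 (.l (.s k64 k127 6 (.s k150 k194 13 (.s k20 k215 8 (.s k60 k40 5 (.s k63 k61 0 (.d
  k192 k149 k128 14 7))))))) (.c k150 (.l (.s k64 k127 6 (.s k192 k128 7 (.s k63 k149 14 (.s k60 k61
  0 (.s k40 k20 5 (.s k105 k235 8 (.d k104 k148 k107 13 0)))))))) .n)))) (.c k62 (.l (.s k42 k234 7
  (.s k63 k21 6 (.s k64 k127 6 (.d k192 k128 k149 7 14))))) (.c k63 (.f k127 k64 6 (.q k89 [(.s k8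
  k251 12 (.s k12 k4 1 (.s k81 k93 1 (.d k243 k162 k166 12 14)))), (.s k93 k81 1 (.s k76 k110 4 (.s
  k115 k102 6 (.d k123 k119 k72 1 4)))), (.s k8 k251 12 (.s k42 k234 7 (.s k59 k25 4 (.s k72 k123 4
  (.d k200 k136 k153 7 12)))))] (.c k42 (.q k62 [(.s k8 k251 12 (.s k12 k4 1 (.s k81 k93 1 (.d k243
  k162 k166 12 14)))), (.s k150 k194 13 (.s k20 k215 8 (.s k60 k40 5 (.s k130 k190 5 (.d k195 k65
  k105 8 14)))))] .n) (.c k62 (.l (.s k42 k234 7 (.s k8 k251 12 (.s k12 k4 1 (.s k81 k93 1 (.d k243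
  k162 k166 12 14)))))) .n)))) (.c k64 (.q k150 [(.s k20 k215 8 (.s k60 k40 5 (.s k130 k190 5 (.d
  k195 k65 k105 8 14)))), (.s k42 k234 7 (.s k62 k194 13 (.s k63 k21 6 (.s k60 k61 0 (.d k20 k40
  k215 5 8))))), (.s k42 k234 7 (.s k62 k194 13 (.s k130 k190 5 (.s k195 k65 8 (.s k60 k105 14 (.d
  k63 k61 k21 0 6))))))] (.c k42 (.l (.s k62 k194 13 (.s k20 k215 8 (.s k60 k40 5 (.s k130 k190 5
  (.d k195 k65 k105 8 14)))))) (.c k60 (.l (.s k42 k234 7 (.s k63 k21 6 (.s k192 k149 14 (.s k194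
  k62 13 (.s k195 k193 0 (.d k130 k190 k65 5 8))))))) (.c k62 (.l (.s k42 k234 7 (.s k20 k215 8 (.s
  k60 k40 5 (.s k130 k190 5 (.d k195 k65 k105 8 14)))))) (.c k130 (.l (.s k20 k215 8 (.s k42 k234 7
  (.s k60 k40 5 (.s k63 k21 6 (.d k62 k61 k194 0 13)))))) .n))))) (.c k127 (.f k42 k234 7 (.f k63
  k21 6 (.f k192 k149 14 (.q k20 [(.s k60 k40 5 (.s k150 k215 8 (.d k62 k61 k194 0 13))), (.s k60
  k40 5 (.s k104 k148 13 (.s k105 k107 0 (.d k150 k215 k195 8 14)))), (.s k150 k215 8 (.s k194 k62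
  13 (.s k195 k193 0 (.d k130 k190 k65 5 8))))] (.c k150 (.l (.s k40 k60 5 (.s k105 k235 8 (.s k104
  k107 0 (.s k232 k168 7 (.d k43 k41 k169 0 8)))))) (.c k195 (.l (.s k60 k40 5 (.s k62 k61 0 (.d
  k150 k215 k194 8 13)))) (.c k215 (.l (.s k60 k40 5 (.s k62 k61 0 (.s k104 k148 13 (.s k105 k107 0
  (.d k150 k194 k195 13 14)))))) .n))))))) (.c k128 (.q k150 [(.s k20 k215 8 (.s k60 k40 5 (.s k130
  k190 5 (.d k195 k65 k105 8 14)))), (.s k42 k234 7 (.s k62 k194 13 (.s k63 k21 6 (.s k60 k61 0 (.d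
  k20 k40 k215 5 8))))), (.s k42 k234 7 (.s k62 k194 13 (.s k130 k190 5 (.s k195 k65 8 (.s k60 k105
  14 (.d k63 k61 k21 0 6))))))] (.c k42 (.l (.s k62 k194 13 (.s k20 k215 8 (.s k60 k40 5 (.s k130
  k190 5 (.d k195 k65 k105 8 14)))))) (.c k60 (.l (.s k42 k234 7 (.s k63 k21 6 (.s k192 k149 14 (.s
  k194 k62 13 (.s k195 k193 0 (.d k130 k190 k65 5 8))))))) (.c k62 (.l (.s k42 k234 7 (.s k20 k215 8
  (.s k60 k40 5 (.s k130 k190 5 (.d k195 k65 k105 8 14)))))) (.c k130 (.l (.s k20 k215 8 (.s k42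
  k234 7 (.s k60 k40 5 (.s k63 k21 6 (.d k62 k61 k194 0 13)))))) .n))))) (.c k149 (.q k150 [(.s k20
  k215 8 (.s k60 k40 5 (.s k130 k190 5 (.d k195 k65 k105 8 14)))), (.s k64 k127 6 (.s k130 k190 5
  (.s k192 k128 7 (.s k195 k65 8 (.d k194 k62 k193 13 0))))), (.s k20 k215 8 (.s k42 k234 7 (.s k60
  k40 5 (.s k63 k21 6 (.d k62 k61 k194 0 13)))))] (.c k42 (.l (.s k62 k194 13 (.s k20 k215 8 (.s k60
  k40 5 (.s k130 k190 5 (.d k195 k65 k105 8 14)))))) (.c k60 (.l (.s k42 k234 7 (.s k64 k127 6 (.s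
  k192 k128 7 (.s k194 k62 13 (.s k195 k193 0 (.d k130 k190 k65 5 8))))))) (.c k62 (.l (.s k42 k234
  7 (.s k20 k215 8 (.s k60 k40 5 (.s k130 k190 5 (.d k195 k65 k105 8 14)))))) (.c k195 (.l (.s k42
  k234 7 (.s k62 k194 13 (.s k63 k21 6 (.s k60 k61 0 (.d k20 k40 k215 5 8)))))) .n))))) (.c k191 (.l
  (.s k42 k234 7 (.s k63 k21 6 (.s k64 k127 6 (.d k192 k128 k149 7 14))))) (.c k192 (.f k42 k234 7
  (.q k213 [(.d k21 k63 k149 6 7)] (.c k21 (.q k80 [(.s k240 k160 11 (.s k90 k95 2 (.s k15 k165 14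
  (.d k10 k5 k250 2 11)))), (.s k64 k127 6 (.s k90 k95 2 (.s k74 k122 3 (.s k79 k69 2 (.d k112 k96
  k101 3 6))))), (.s k64 k127 6 (.s k96 k112 3 (.s k160 k240 11 (.s k224 k32 7 (.d k165 k175 k47 2
  10)))))] (.c k20 (.q k23 [(.s k240 k160 11 (.s k90 k95 2 (.s k15 k165 14 (.d k10 k5 k250 2 11)))),
  (.s k64 k127 6 (.s k90 k95 2 (.s k74 k122 3 (.s k79 k69 2 (.d k112 k96 k101 3 6))))), (.s k64 k127
  6 (.s k96 k112 3 (.s k160 k240 11 (.s k224 k32 7 (.d k165 k175 k47 2 10)))))] (.c k175 (.l (.s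
  k240 k160 11 (.s k90 k95 2 (.s k15 k165 14 (.d k10 k5 k250 2 11))))) .n)) (.c k23 (.q k20 [(.s k60
  k40 5 (.s k150 k215 8 (.s k130 k190 5 (.d k195 k65 k105 8 14)))), (.s k90 k95 2 (.s k10 k250 11
  (.s k15 k5 2 (.d k240 k160 k165 11 14))))] .n) (.c k175 (.l (.s k240 k160 11 (.s k90 k95 2 (.s k15
  k165 14 (.d k10 k5 k250 2 11))))) .n)))) (.c k63 (.q k160 [(.s k240 k80 11 (.s k165 k175 2 (.s k15
  k90 14 (.d k5 k10 k245 2 11)))), (.s k80 k240 11 (.s k127 k64 6 (.s k149 k21 7 (.s k128 k191 6 (.s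
  k144 k176 3 (.s k208 k16 7 (.d k90 k31 k95 10 2))))))), (.s k165 k175 2 (.s k245 k5 11 (.s k229
  k197 3 (.s k37 k101 7 (.d k47 k32 k224 2 10)))))] (.c k95 (.l (.s k240 k80 11 (.s k165 k175 2 (.s
  k15 k90 14 (.d k5 k10 k245 2 11))))) (.c k127 (.q k191 [(.d k149 k128 k21 6 7), (.s k165 k175 2
  (.s k5 k245 11 (.s k15 k10 2 (.d k240 k80 k90 11 14))))] .n) (.c k191 (.l (.s k127 k64 6 (.s k165
  k175 2 (.s k5 k245 11 (.s k15 k10 2 (.d k240 k80 k90 11 14)))))) (.c k245 (.l (.s k21 k149 7 (.s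
  k165 k175 2 (.s k47 k224 10 (.s k37 k32 2 (.s k5 k53 3 (.s k15 k10 2 (.d k240 k80 k90 11
  14)))))))) .n))))) (.c k149 (.q k1 [(.s k21 k63 6 (.s k41 k61 5 (.s k43 k40 0 (.d k169 k232 k253 8
  13)))), (.s k63 k21 6 (.s k169 k253 13 (.s k168 k171 0 (.s k252 k84 13 (.s k126 k189 8 (.d k86 k3
  k66 14 5)))))), (.s k169 k253 13 (.s k43 k232 8 (.s k40 k41 0 (.s k171 k168 0 (.d k235 k107 k105 7
  8))))), (.s k21 k63 6 (.s k41 k61 5 (.s k40 k43 0 (.s k60 k20 5 (.s k105 k235 8 (.s k195 k150 14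
  (.d k65 k125 k130 5 8)))))))] .n) .n))))) (.c k213 (.l (.s k64 k127 6 (.s k42 k234 7 (.s k192 k128
  7 (.d k63 k21 k149 6 14))))) (.c k234 (.f k64 k127 6 (.f k192 k128 7 (.f k63 k149 14 (.q k60 [(.s
  k20 k40 5 (.s k62 k61 0 (.d k150 k215 k194 8 13))), (.s k40 k20 5 (.s k104 k148 13 (.d k105 k107
  k235 0 8))), (.s k62 k61 0 (.s k104 k148 13 (.s k105 k107 0 (.d k150 k194 k195 13 14))))] (.c k42
  (.l (.s k62 k61 0 (.s k20 k40 5 (.d k150 k215 k194 8 13)))) (.c k62 (.l (.s k42 k21 6 (.s k104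
  k148 13 (.s k105 k107 0 (.d k40 k20 k235 5 8))))) (.c k105 (.l (.s k20 k40 5 (.s k150 k215 8 (.d
  k62 k61 k194 0 13)))) (.c k150 (.l (.s k40 k20 5 (.s k105 k235 8 (.d k104 k107 k148 0 13))))
  .n)))))))) .n))))))))))))))

def t2_23 : T TT 256 :=
  (.f k170 k255 14 (.q k240 [(.s k80 k160 11 (.s k90 k95 2 (.s k10 k250 11 (.d k15 k5 k165 2 14))))]
  (.c k5 (.q k4 [(.s k12 k8 1 (.s k166 k247 12 (.s k162 k174 1 (.d k243 k81 k89 12 14)))), (.s k12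
  k8 1 (.s k160 k80 11 (.s k164 k88 13 (.s k84 k244 11 (.d k168 k172 k252 1 13))))), (.s k80 k160 11
  (.s k90 k95 2 (.s k166 k247 12 (.s k242 k14 13 (.s k243 k241 0 (.d k162 k174 k81 1 12))))))] .n)
  (.c k10 (.f k160 k80 11 (.f k175 k165 2 (.q k128 [(.s k144 k176 3 (.s k192 k64 7 (.s k224 k208 3
  (.d k96 k32 k48 7 11)))), (.s k149 k191 6 (.s k21 k213 7 (.s k63 k42 6 (.d k192 k64 k106 7 14))))]
  (.c k6 (.q k14 [(.s k144 k176 3 (.s k192 k64 7 (.s k224 k208 3 (.d k96 k32 k48 7 11)))), (.s k149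
  k191 6 (.s k21 k213 7 (.s k63 k42 6 (.d k192 k64 k106 7 14))))] (.c k64 (.l (.s k144 k176 3 (.s
  k149 k191 6 (.s k21 k213 7 (.s k63 k42 6 (.s k192 k106 14 (.s k96 k48 11 (.d k224 k208 k32 3
  7)))))))) (.c k192 (.l (.s k176 k144 3 (.s k48 k112 7 (.s k16 k32 3 (.s k154 k223 10 (.s k138 k186
  3 (.d k207 k69 k101 10 14))))))) .n))) (.c k14 (.q k6 [(.s k144 k176 3 (.s k192 k64 7 (.s k224
  k208 3 (.d k96 k32 k48 7 11)))), (.s k149 k191 6 (.s k21 k213 7 (.s k63 k42 6 (.d k192 k64 k106 7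
  14))))] (.c k64 (.l (.s k144 k176 3 (.s k149 k191 6 (.s k21 k213 7 (.s k63 k42 6 (.s k192 k106 14
  (.s k96 k48 11 (.d k224 k208 k32 3 7)))))))) (.c k192 (.l (.s k176 k144 3 (.s k48 k112 7 (.s k16
  k32 3 (.s k154 k223 10 (.s k138 k186 3 (.d k207 k69 k101 10 14))))))) .n))) (.c k64 (.l (.s k144
  k176 3 (.s k149 k191 6 (.s k21 k213 7 (.s k63 k42 6 (.s k192 k106 14 (.s k96 k48 11 (.d k224 k208
  k32 3 7)))))))) (.c k192 (.l (.s k176 k144 3 (.s k48 k112 7 (.s k16 k32 3 (.s k154 k223 10 (.s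
  k138 k186 3 (.d k207 k69 k101 10 14))))))) .n))))))) (.c k15 (.f k80 k160 11 (.q k192 [(.s k64
  k128 7 (.s k96 k112 3 (.s k208 k224 3 (.d k144 k16 k48 7 11)))), (.s k128 k64 7 (.s k149 k191 6
  (.s k21 k213 7 (.d k63 k42 k106 6 14))))] (.c k64 (.l (.s k208 k224 3 (.s k16 k144 7 (.s k154 k223
  10 (.s k138 k186 3 (.s k207 k69 10 (.d k48 k32 k101 3 14))))))) (.c k95 (.q k175 [(.s k64 k128 7
  (.s k96 k112 3 (.s k208 k224 3 (.d k144 k16 k48 7 11)))), (.s k128 k64 7 (.s k149 k191 6 (.s k21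
  k213 7 (.d k63 k42 k106 6 14))))] (.c k64 (.l (.s k208 k224 3 (.s k16 k144 7 (.s k154 k223 10 (.s
  k138 k186 3 (.s k207 k69 10 (.d k48 k32 k101 3 14))))))) (.c k128 (.l (.s k208 k224 3 (.s k144 k16
  7 (.s k96 k48 11 (.s k64 k112 3 (.s k106 k127 6 (.s k42 k234 7 (.d k63 k21 k149 6 14)))))))) .n)))
  (.c k128 (.l (.s k208 k224 3 (.s k144 k16 7 (.s k96 k48 11 (.s k64 k112 3 (.s k106 k127 6 (.s k42
  k234 7 (.d k63 k21 k149 6 14)))))))) (.c k175 (.l (.s k95 k90 2 (.s k64 k128 7 (.s k96 k112 3 (.s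
  k144 k48 11 (.d k208 k224 k16 3 7)))))) .n)))))) (.c k80 (.q k89 [(.s k8 k251 12 (.s k12 k4 1 (.s
  k81 k93 1 (.d k243 k162 k166 12 14)))), (.s k81 k93 1 (.s k243 k162 12 (.s k12 k166 14 (.s k88
  k164 13 (.s k90 k91 0 (.s k10 k250 11 (.d k15 k165 k5 14 2))))))), (.s k8 k251 12 (.s k12 k4 1 (.s
  k88 k164 13 (.s k90 k91 0 (.s k10 k250 11 (.d k15 k5 k165 2 14))))))] (.c k12 (.q k136 [(.s k204
  k68 9 (.s k153 k187 4 (.s k51 k102 14 (.d k17 k34 k221 4 9)))), (.s k8 k251 12 (.s k153 k187 4 (.s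
  k25 k217 7 (.s k59 k42 4 (.d k200 k72 k106 7 12))))), (.s k8 k251 12 (.s k68 k204 9 (.s k72 k200 7
  (.s k76 k64 1 (.d k102 k119 k115 4 6)))))] (.c k93 (.q k174 [(.s k153 k187 4 (.s k204 k68 9 (.s
  k51 k102 14 (.d k17 k34 k221 4 9)))), (.s k8 k251 12 (.s k153 k187 4 (.s k25 k217 7 (.s k59 k42 4
  (.d k200 k72 k106 7 12))))), (.s k8 k251 12 (.s k68 k204 9 (.s k72 k200 7 (.s k76 k64 1 (.d k102
  k119 k115 4 6)))))] (.c k119 (.l (.s k204 k68 9 (.s k153 k187 4 (.s k51 k102 14 (.d k17 k34 k221 4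
  9))))) .n)) (.c k119 (.l (.s k204 k68 9 (.s k153 k187 4 (.s k51 k102 14 (.d k17 k34 k221 4 9)))))
  (.c k174 (.l (.s k93 k81 1 (.s k153 k187 4 (.s k17 k221 9 (.s k51 k34 4 (.d k204 k68 k102 9
  14)))))) .n)))) (.c k243 (.q k101 [(.s k32 k239 10 (.s k48 k16 3 (.s k69 k117 3 (.d k207 k138 k154
  10 14)))), (.s k81 k93 1 (.s k113 k77 5 (.s k65 k97 3 (.s k117 k69 3 (.d k125 k121 k105 1 5))))),
  (.s k32 k239 10 (.s k48 k16 3 (.s k77 k113 5 (.s k207 k154 14 (.s k12 k142 8 (.d k8 k251 k4 12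
  1))))))] (.c k247 (.l (.s k251 k8 12 (.s k32 k239 10 (.s k48 k16 3 (.s k69 k117 3 (.d k207 k138
  k154 10 14)))))) (.c k251 (.q k247 [(.s k32 k239 10 (.s k48 k16 3 (.s k69 k117 3 (.d k207 k138
  k154 10 14)))), (.s k4 k166 12 (.s k117 k69 3 (.s k52 k182 8 (.s k20 k36 3 (.d k150 k215 k199 8
  12))))), (.s k4 k166 12 (.s k12 k8 1 (.s k32 k239 10 (.s k48 k16 3 (.s k24 k36 5 (.d k154 k207
  k219 14 8))))))] .n) .n))) .n))) (.c k90 (.q k4 [(.s k12 k8 1 (.s k166 k247 12 (.s k162 k174 1 (.d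
  k243 k81 k89 12 14)))), (.s k12 k8 1 (.s k160 k80 11 (.s k164 k88 13 (.s k84 k244 11 (.d k168 k172
  k252 1 13))))), (.s k160 k80 11 (.s k165 k175 2 (.s k166 k247 12 (.s k164 k167 0 (.s k84 k244 11
  (.d k168 k172 k252 1 13))))))] .n) (.c k95 (.l (.s k160 k80 11 (.s k165 k175 2 (.s k15 k90 14 (.d
  k5 k10 k245 2 11))))) (.c k160 (.q k150 [(.s k130 k190 5 (.s k195 k65 8 (.s k60 k105 14 (.d k20
  k40 k215 5 8)))), (.s k20 k215 8 (.s k60 k40 5 (.s k180 k120 9 (.s k165 k135 4 (.s k5 k245 11 (.d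
  k15 k10 k90 2 14)))))), (.s k130 k190 5 (.s k195 k65 8 (.s k210 k225 4 (.s k90 k30 9 (.s k10 k250
  11 (.d k15 k5 k165 2 14))))))] (.c k60 (.q k4 [(.s k12 k8 1 (.s k166 k247 12 (.s k162 k174 1 (.d
  k243 k81 k89 12 14)))), (.s k20 k215 8 (.s k52 k36 3 (.s k101 k199 12 (.s k117 k69 3 (.d k247 k182
  k166 8 12)))))] (.c k125 (.l (.s k190 k130 5 (.s k12 k8 1 (.s k166 k247 12 (.s k162 k174 1 (.d
  k243 k81 k89 12 14)))))) (.c k166 (.l (.s k8 k12 1 (.s k20 k215 8 (.s k89 k251 12 (.s k28 k211 10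
  (.s k16 k24 1 (.s k93 k81 1 (.d k223 k158 k154 8 10)))))))) (.c k190 (.q k125 [(.s k12 k8 1 (.s
  k166 k247 12 (.s k243 k89 14 (.d k162 k174 k81 1 12)))), (.s k65 k105 5 (.s k195 k130 8 (.s k210
  k225 4 (.s k90 k30 9 (.s k10 k250 11 (.d k15 k165 k5 14 2))))))] .n) (.c k247 (.l (.s k12 k8 1 (.s
  k20 k215 8 (.s k52 k36 3 (.s k199 k101 12 (.s k134 k69 8 (.s k195 k73 10 (.d k130 k65 k190 8
  5)))))))) .n))))) (.c k195 (.f k215 k20 8 (.q k149 [(.s k21 k213 7 (.s k63 k42 6 (.s k128 k191 6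
  (.d k192 k64 k106 7 14)))), (.s k151 k148 0 (.s k190 k130 5 (.s k191 k128 6 (.s k131 k171 5 (.d
  k188 k189 k169 0 6))))), (.s k21 k213 7 (.s k63 k42 6 (.s k181 k122 10 (.s k165 k133 3 (.s k5 k245
  11 (.d k15 k10 k90 2 14))))))] (.c k21 (.q k22 [(.s k128 k191 6 (.s k130 k190 5 (.s k131 k129 0
  (.s k188 k169 6 (.d k148 k151 k168 0 5))))), (.s k86 k214 7 (.s k84 k87 0 (.s k252 k168 13 (.s
  k244 k248 1 (.s k165 k7 12 (.s k5 k245 11 (.d k15 k10 k90 2 14)))))))] (.c k168 (.l (.s k151 k148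
  0 (.s k190 k130 5 (.s k191 k128 6 (.s k188 k189 0 (.d k131 k171 k169 5 6)))))) .n)) (.c k22 (.l
  (.s k21 k213 7 (.s k128 k191 6 (.s k192 k64 7 (.d k63 k42 k106 6 14))))) .n)))) .n))) (.c k165 (.q
  k4 [(.s k12 k8 1 (.s k166 k247 12 (.s k162 k174 1 (.d k243 k81 k89 12 14)))), (.s k12 k8 1 (.s
  k160 k80 11 (.s k164 k88 13 (.s k84 k244 11 (.d k168 k172 k252 1 13))))), (.s k80 k160 11 (.s k90
  k95 2 (.s k166 k247 12 (.s k242 k14 13 (.s k243 k241 0 (.d k162 k174 k81 1 12))))))] .n) (.c k175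
  (.l (.s k80 k160 11 (.s k90 k95 2 (.s k15 k165 14 (.d k10 k5 k250 2 11))))) (.c k250 (.l (.s k160
  k80 11 (.s k165 k175 2 (.s k5 k245 11 (.d k15 k10 k90 2 14))))) .n))))))))))))

def t2_24 : T TT 256 :=
  (.f k170 k255 14 (.q k240 [(.s k80 k160 11 (.s k90 k95 2 (.s k10 k250 11 (.d k15 k5 k165 2 14))))]
  (.c k5 (.q k4 [(.s k166 k247 12 (.s k162 k174 1 (.s k243 k81 12 (.d k12 k8 k89 1 14)))), (.s k12
  k8 1 (.s k160 k80 11 (.s k164 k88 13 (.s k84 k244 11 (.d k168 k172 k252 1 13))))), (.s k80 k160 11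
  (.s k90 k95 2 (.s k166 k247 12 (.s k242 k14 13 (.s k243 k241 0 (.d k162 k174 k81 1 12))))))] .n)
  (.c k10 (.f k160 k80 11 (.f k175 k165 2 (.q k162 [(.s k163 k161 0 (.s k171 k167 1 (.s k169 k168 0
  (.d k166 k174 k172 1 2)))), (.s k166 k174 1 (.s k4 k247 12 (.s k12 k8 1 (.d k243 k81 k89 12
  14)))), (.s k81 k243 12 (.s k161 k163 0 (.s k1 k241 11 (.s k3 k82 12 (.s k169 k253 13 (.s k168
  k171 0 (.d k252 k84 k86 13 14)))))))] (.c k6 (.q k14 [(.s k166 k174 1 (.s k242 k90 13 (.d k243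
  k241 k81 0 12))), (.s k81 k243 12 (.s k161 k163 0 (.s k1 k241 11 (.s k3 k82 12 (.s k169 k253 13
  (.s k168 k171 0 (.d k252 k84 k86 13 14))))))), (.s k163 k161 0 (.s k166 k174 1 (.s k169 k172 2 (.d
  k171 k168 k167 0 1))))] .n) (.c k14 (.q k6 [(.s k163 k161 0 (.s k171 k167 1 (.s k169 k168 0 (.d
  k166 k174 k172 1 2)))), (.s k166 k174 1 (.s k4 k247 12 (.s k12 k8 1 (.d k243 k81 k89 12 14)))),
  (.s k81 k243 12 (.s k161 k163 0 (.s k3 k82 12 (.s k12 k9 2 (.s k8 k4 1 (.d k89 k251 k93 12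
  1))))))] .n) .n))))) (.c k15 (.f k80 k160 11 (.q k192 [(.s k64 k128 7 (.s k96 k112 3 (.s k208 k224
  3 (.d k144 k16 k48 7 11)))), (.s k128 k64 7 (.s k149 k191 6 (.s k21 k213 7 (.d k63 k42 k106 6
  14))))] (.c k64 (.l (.s k208 k224 3 (.s k16 k144 7 (.s k154 k223 10 (.s k138 k186 3 (.s k207 k69
  10 (.d k48 k32 k101 3 14))))))) (.c k95 (.q k175 [(.s k64 k128 7 (.s k96 k112 3 (.s k208 k224 3
  (.d k144 k16 k48 7 11)))), (.s k128 k64 7 (.s k149 k191 6 (.s k21 k213 7 (.d k63 k42 k106 6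
  14))))] (.c k64 (.l (.s k208 k224 3 (.s k16 k144 7 (.s k154 k223 10 (.s k138 k186 3 (.s k207 k69
  10 (.d k48 k32 k101 3 14))))))) (.c k128 (.l (.s k208 k224 3 (.s k144 k16 7 (.s k96 k48 11 (.s k64
  k112 3 (.s k106 k127 6 (.s k42 k234 7 (.d k63 k21 k149 6 14)))))))) .n))) (.c k128 (.l (.s k208
  k224 3 (.s k144 k16 7 (.s k96 k48 11 (.s k64 k112 3 (.s k106 k127 6 (.s k42 k234 7 (.d k63 k21
  k149 6 14)))))))) (.c k175 (.l (.s k95 k90 2 (.s k64 k128 7 (.s k96 k112 3 (.s k144 k48 11 (.d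
  k208 k224 k16 3 7)))))) .n)))))) (.c k80 (.q k252 [(.s k84 k168 13 (.s k86 k87 0 (.s k3 k169 14
  (.s k82 k161 12 (.s k90 k94 1 (.s k10 k250 11 (.d k15 k165 k5 14 2))))))), (.s k84 k168 13 (.s
  k244 k248 1 (.s k4 k164 11 (.s k166 k247 12 (.s k162 k174 1 (.s k243 k81 12 (.d k12 k8 k89 1
  14)))))))] (.c k82 (.l (.s k84 k168 13 (.s k86 k87 0 (.s k244 k248 1 (.s k165 k7 12 (.s k5 k245 11
  (.d k15 k10 k90 2 14))))))) (.c k84 (.q k88 [(.s k248 k244 1 (.s k8 k168 11 (.d k12 k4 k164 1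
  13))), (.s k12 k164 13 (.s k4 k8 1 (.s k166 k247 12 (.s k162 k174 1 (.d k243 k81 k89 12 14)))))]
  (.c k4 (.l (.s k164 k12 13 (.s k248 k244 1 (.s k8 k168 11 (.s k89 k251 12 (.s k90 k91 0 (.s k10
  k250 11 (.d k11 k9 k169 0 12)))))))) (.c k8 (.q k60 [(.s k40 k20 5 (.s k105 k235 8 (.s k65 k125 5
  (.d k195 k130 k150 8 14)))), (.s k120 k180 9 (.s k124 k188 7 (.s k116 k112 1 (.s k184 k48 9 (.d
  k248 k56 k244 7 1)))))] (.c k40 (.q k56 [(.s k120 k180 9 (.d k248 k244 k184 1 7)), (.s k48 k52 1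
  (.s k16 k32 3 (.s k154 k223 10 (.s k138 k186 3 (.d k207 k69 k101 10 14)))))] .n) (.c k56 (.l (.s
  k40 k20 5 (.s k105 k235 8 (.s k65 k125 5 (.d k195 k130 k150 8 14))))) .n))) (.c k12 (.l (.s k248
  k244 1 (.s k8 k168 11 (.s k89 k251 12 (.s k90 k91 0 (.s k10 k250 11 (.d k11 k9 k169 0 12)))))))
  (.c k164 (.q k4 [(.s k248 k244 1 (.d k8 k12 k168 1 11)), (.s k166 k247 12 (.s k162 k174 1 (.s k243
  k81 12 (.s k242 k241 0 (.s k90 k14 13 (.d k89 k12 k91 14 0))))))] (.c k12 (.l (.s k248 k244 1 (.s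
  k8 k168 11 (.s k89 k251 12 (.s k90 k91 0 (.s k10 k250 11 (.d k11 k9 k169 0 12))))))) .n)) (.c k244
  (.l (.s k12 k164 13 (.s k4 k8 1 (.s k166 k247 12 (.s k162 k174 1 (.d k243 k81 k89 12 14))))))
  .n)))))) (.c k168 (.q k4 [(.s k244 k248 1 (.s k164 k84 11 (.d k12 k8 k88 1 13))), (.s k166 k247 12
  (.s k162 k174 1 (.s k243 k81 12 (.s k242 k241 0 (.s k90 k14 13 (.s k10 k250 11 (.d k15 k5 k165 2
  14)))))))] (.c k12 (.l (.s k166 k247 12 (.s k244 k248 1 (.s k84 k164 11 (.s k86 k87 0 (.s k6 k246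
  11 (.d k7 k5 k165 0 12))))))) .n)) .n)))) (.c k90 (.q k4 [(.s k166 k247 12 (.s k162 k174 1 (.s
  k243 k81 12 (.d k12 k8 k89 1 14)))), (.s k12 k8 1 (.s k160 k80 11 (.s k164 k88 13 (.s k84 k244 11
  (.d k168 k172 k252 1 13))))), (.s k160 k80 11 (.s k165 k175 2 (.s k166 k247 12 (.s k164 k167 0 (.s
  k84 k244 11 (.d k168 k172 k252 1 13))))))] .n) (.c k95 (.l (.s k160 k80 11 (.s k165 k175 2 (.s k15
  k90 14 (.d k5 k10 k245 2 11))))) (.c k160 (.q k153 [(.s k17 k221 9 (.s k136 k187 4 (.s k204 k68 9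
  (.d k51 k34 k102 4 14)))), (.s k136 k187 4 (.s k204 k68 9 (.s k216 k228 5 (.s k90 k27 8 (.s k10
  k250 11 (.d k15 k5 k165 2 14)))))), (.s k17 k221 9 (.s k51 k34 4 (.s k177 k114 8 (.s k165 k141 5
  (.s k5 k245 11 (.d k15 k10 k90 2 14))))))] (.c k51 (.f k187 k136 4 (.q k4 [(.s k166 k247 12 (.s
  k162 k174 1 (.s k243 k81 12 (.d k12 k8 k89 1 14)))), (.s k166 k247 12 (.s k179 k140 6 (.s k191
  k183 1 (.s k128 k149 6 (.d k162 k174 k145 1 4))))), (.s k8 k12 1 (.s k251 k89 12 (.s k59 k123 7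
  (.s k106 k200 12 (.d k42 k25 k234 4 7)))))] (.c k166 (.l (.s k8 k12 1 (.s k17 k221 9 (.s k89 k251
  12 (.s k25 k217 7 (.s k21 k29 1 (.d k42 k63 k59 6 4))))))) (.c k174 (.l (.s k12 k8 1 (.s k164 k88
  13 (.s k166 k247 12 (.s k165 k167 0 (.s k5 k245 11 (.d k15 k10 k90 2 14))))))) (.c k243 (.l (.s k8
  k12 1 (.s k166 k247 12 (.s k251 k89 12 (.s k59 k123 7 (.s k106 k200 12 (.d k42 k25 k234 4 7)))))))
  (.c k251 (.l (.s k12 k8 1 (.s k166 k247 12 (.s k243 k89 14 (.d k162 k174 k81 1 12))))) .n))))))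
  (.c k204 (.q k69 [(.s k101 k117 3 (.s k32 k239 10 (.s k48 k16 3 (.d k207 k138 k154 10 14)))), (.s
  k101 k117 3 (.s k205 k49 13 (.s k1 k137 9 (.s k221 k17 9 (.d k253 k237 k169 3 13))))), (.s k136
  k187 4 (.s k138 k207 10 (.s k137 k139 0 (.s k169 k185 3 (.d k1 k205 k253 9 13)))))] (.c k186 (.l
  (.s k207 k138 10 (.s k101 k117 3 (.s k48 k154 14 (.d k32 k16 k239 3 10))))) (.c k221 (.q k238 [(.s
  k101 k117 3 (.s k32 k239 10 (.s k48 k16 3 (.d k207 k138 k154 10 14)))), (.s k34 k102 9 (.s k51 k17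
  4 (.s k177 k114 8 (.s k165 k141 5 (.s k5 k245 11 (.d k15 k90 k10 14 2))))))] .n) (.c k238 (.l (.s
  k221 k17 9 (.s k101 k117 3 (.s k32 k239 10 (.s k48 k16 3 (.d k207 k138 k154 10 14)))))) .n))))
  .n))) (.c k165 (.q k4 [(.s k166 k247 12 (.s k162 k174 1 (.s k243 k81 12 (.d k12 k8 k89 1 14)))),
  (.s k12 k8 1 (.s k160 k80 11 (.s k164 k88 13 (.s k84 k244 11 (.d k168 k172 k252 1 13))))), (.s k80
  k160 11 (.s k90 k95 2 (.s k166 k247 12 (.s k242 k14 13 (.s k243 k241 0 (.d k162 k174 k81 1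
  12))))))] .n) (.c k175 (.l (.s k80 k160 11 (.s k90 k95 2 (.s k15 k165 14 (.d k10 k5 k250 2 11)))))
  (.c k250 (.l (.s k160 k80 11 (.s k165 k175 2 (.s k5 k245 11 (.d k15 k10 k90 2 14)))))
  .n))))))))))))

def t2_25 : T TT 256 :=
  (.f k170 k255 14 (.q k240 [(.s k80 k160 11 (.s k90 k95 2 (.s k10 k250 11 (.d k15 k5 k165 2 14))))]
  (.c k5 (.q k4 [(.s k166 k247 12 (.s k162 k174 1 (.s k243 k81 12 (.d k12 k8 k89 1 14)))), (.s k12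
  k8 1 (.s k160 k80 11 (.s k164 k88 13 (.s k84 k244 11 (.d k168 k172 k252 1 13))))), (.s k80 k160 11
  (.s k90 k95 2 (.s k166 k247 12 (.s k242 k14 13 (.s k243 k241 0 (.d k162 k174 k81 1 12))))))] .n)
  (.c k10 (.f k160 k80 11 (.f k175 k165 2 (.q k128 [(.s k144 k176 3 (.s k192 k64 7 (.s k224 k208 3
  (.d k96 k32 k48 7 11)))), (.s k149 k191 6 (.s k21 k213 7 (.s k63 k42 6 (.d k192 k64 k106 7 14))))]
  (.c k6 (.q k14 [(.s k144 k176 3 (.s k192 k64 7 (.s k224 k208 3 (.d k96 k32 k48 7 11)))), (.s k149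
  k191 6 (.s k21 k213 7 (.s k63 k42 6 (.d k192 k64 k106 7 14))))] (.c k64 (.l (.s k144 k176 3 (.s
  k149 k191 6 (.s k21 k213 7 (.s k63 k42 6 (.s k192 k106 14 (.s k96 k48 11 (.d k224 k208 k32 3
  7)))))))) (.c k192 (.l (.s k176 k144 3 (.s k48 k112 7 (.s k16 k32 3 (.s k154 k223 10 (.s k138 k186
  3 (.d k207 k69 k101 10 14))))))) .n))) (.c k14 (.q k6 [(.s k144 k176 3 (.s k192 k64 7 (.s k224
  k208 3 (.d k96 k32 k48 7 11)))), (.s k149 k191 6 (.s k21 k213 7 (.s k63 k42 6 (.d k192 k64 k106 7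
  14))))] (.c k64 (.l (.s k144 k176 3 (.s k149 k191 6 (.s k21 k213 7 (.s k63 k42 6 (.s k192 k106 14
  (.s k96 k48 11 (.d k224 k208 k32 3 7)))))))) (.c k192 (.l (.s k176 k144 3 (.s k48 k112 7 (.s k16
  k32 3 (.s k154 k223 10 (.s k138 k186 3 (.d k207 k69 k101 10 14))))))) .n))) (.c k64 (.l (.s k144
  k176 3 (.s k149 k191 6 (.s k21 k213 7 (.s k63 k42 6 (.s k192 k106 14 (.s k96 k48 11 (.d k224 k208
  k32 3 7)))))))) (.c k192 (.l (.s k176 k144 3 (.s k48 k112 7 (.s k16 k32 3 (.s k154 k223 10 (.s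
  k138 k186 3 (.d k207 k69 k101 10 14))))))) .n))))))) (.c k15 (.f k80 k160 11 (.q k192 [(.s k64
  k128 7 (.s k96 k112 3 (.s k208 k224 3 (.d k144 k16 k48 7 11)))), (.s k128 k64 7 (.s k149 k191 6
  (.s k21 k213 7 (.d k63 k42 k106 6 14))))] (.c k64 (.l (.s k208 k224 3 (.s k16 k144 7 (.s k154 k223
  10 (.s k138 k186 3 (.s k207 k69 10 (.d k48 k32 k101 3 14))))))) (.c k95 (.q k175 [(.s k64 k128 7
  (.s k96 k112 3 (.s k208 k224 3 (.d k144 k16 k48 7 11)))), (.s k128 k64 7 (.s k149 k191 6 (.s k21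
  k213 7 (.d k63 k42 k106 6 14))))] (.c k64 (.l (.s k208 k224 3 (.s k16 k144 7 (.s k154 k223 10 (.s
  k138 k186 3 (.s k207 k69 10 (.d k48 k32 k101 3 14))))))) (.c k128 (.l (.s k208 k224 3 (.s k144 k16
  7 (.s k96 k48 11 (.s k64 k112 3 (.s k106 k127 6 (.s k42 k234 7 (.d k63 k21 k149 6 14)))))))) .n)))
  (.c k128 (.l (.s k208 k224 3 (.s k144 k16 7 (.s k96 k48 11 (.s k64 k112 3 (.s k106 k127 6 (.s k42
  k234 7 (.d k63 k21 k149 6 14)))))))) (.c k175 (.l (.s k95 k90 2 (.s k64 k128 7 (.s k96 k112 3 (.s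
  k144 k48 11 (.d k208 k224 k16 3 7)))))) .n)))))) (.c k80 (.q k252 [(.s k84 k168 13 (.s k86 k87 0
  (.s k3 k169 14 (.s k82 k161 12 (.s k90 k94 1 (.s k10 k250 11 (.d k15 k165 k5 14 2))))))), (.s k84
  k168 13 (.s k244 k248 1 (.s k4 k164 11 (.s k166 k247 12 (.s k162 k174 1 (.s k243 k81 12 (.d k12 k8
  k89 1 14)))))))] (.c k82 (.l (.s k84 k168 13 (.s k86 k87 0 (.s k244 k248 1 (.s k165 k7 12 (.s k5
  k245 11 (.d k15 k10 k90 2 14))))))) (.c k84 (.q k162 [(.s k166 k174 1 (.s k4 k247 12 (.s k12 k8 1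
  (.d k243 k81 k89 12 14)))), (.s k166 k174 1 (.s k243 k81 12 (.s k242 k241 0 (.s k90 k14 13 (.s k10
  k250 11 (.d k15 k5 k165 2 14)))))), (.s k243 k81 12 (.s k248 k244 1 (.s k249 k246 2 (.s k251 k250
  0 (.s k8 k89 12 (.s k88 k168 11 (.d k12 k4 k164 1 13))))))), (.s k166 k174 1 (.s k244 k248 1 (.s
  k247 k4 12 (.s k245 k246 0 (.s k165 k5 11 (.s k7 k86 12 (.d k167 k164 k87 0 11)))))))] (.c k12 (.l
  (.s k243 k81 12 (.s k244 k248 1 (.s k246 k249 2 (.s k247 k245 0 (.d k166 k174 k4 1 12)))))) (.c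
  k88 (.q k92 [(.s k12 k172 11 (.s k166 k174 1 (.d k243 k81 k89 12 14))), (.s k12 k172 11 (.s k4 k8
  1 (.d k166 k174 k247 1 12))), (.s k243 k81 12 (.s k244 k248 1 (.s k246 k249 2 (.s k247 k245 0 (.d
  k166 k174 k4 1 12))))), (.s k12 k172 11 (.s k8 k4 1 (.s k81 k243 12 (.d k89 k251 k93 12 1))))] .n)
  (.c k92 (.q k88 [(.s k248 k244 1 (.s k8 k168 11 (.d k12 k4 k164 1 13))), (.s k166 k174 1 (.s k243
  k81 12 (.d k12 k164 k89 13 14)))] (.c k12 (.l (.s k81 k243 12 (.s k248 k244 1 (.s k8 k168 11 (.d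
  k89 k251 k93 12 1))))) (.c k164 (.l (.s k166 k174 1 (.s k4 k247 12 (.s k12 k8 1 (.d k243 k81 k89
  12 14))))) .n))) .n)))) (.c k168 (.q k4 [(.s k244 k248 1 (.s k164 k84 11 (.d k12 k8 k88 1 13))),
  (.s k166 k247 12 (.s k162 k174 1 (.s k243 k81 12 (.s k242 k241 0 (.s k90 k14 13 (.s k10 k250 11
  (.d k15 k5 k165 2 14)))))))] (.c k12 (.l (.s k166 k247 12 (.s k244 k248 1 (.s k84 k164 11 (.s k86
  k87 0 (.s k6 k246 11 (.d k7 k5 k165 0 12))))))) .n)) .n)))) (.c k90 (.q k4 [(.s k166 k247 12 (.s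
  k162 k174 1 (.s k243 k81 12 (.d k12 k8 k89 1 14)))), (.s k12 k8 1 (.s k160 k80 11 (.s k164 k88 13
  (.s k84 k244 11 (.d k168 k172 k252 1 13))))), (.s k160 k80 11 (.s k165 k175 2 (.s k166 k247 12 (.s
  k164 k167 0 (.s k84 k244 11 (.d k168 k172 k252 1 13))))))] .n) (.c k95 (.l (.s k160 k80 11 (.s
  k165 k175 2 (.s k15 k90 14 (.d k5 k10 k245 2 11))))) (.c k160 (.q k168 [(.s k169 k171 0 (.s k252
  k84 13 (.s k248 k244 1 (.s k90 k11 12 (.s k10 k250 11 (.d k15 k5 k165 2 14)))))), (.s k252 k84 13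
  (.s k248 k244 1 (.s k8 k88 11 (.s k89 k251 12 (.s k81 k93 1 (.s k243 k162 12 (.d k12 k4 k166 1
  14))))))), (.s k169 k171 0 (.s k252 k84 13 (.s k3 k86 14 (.s k161 k82 12 (.s k165 k173 1 (.s k5
  k245 11 (.d k15 k90 k10 14 2)))))))] (.c k84 (.q k5 [(.s k165 k245 11 (.d k15 k10 k90 2 14)), (.s
  k165 k245 11 (.s k169 k171 0 (.s k1 k253 13 (.s k13 k9 1 (.s k161 k173 1 (.d k241 k81 k89 11
  13)))))), (.s k10 k15 2 (.s k169 k171 0 (.s k1 k253 13 (.s k9 k13 1 (.s k8 k11 0 (.d k89 k251 k249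
  12 11))))))] .n) (.c k252 (.q k102 [(.s k34 k238 9 (.s k68 k119 4 (.s k204 k136 9 (.d k51 k17 k153
  4 14)))), (.s k169 k171 0 (.s k236 k35 10 (.s k32 k100 9 (.s k238 k34 9 (.d k239 k237 k101 0
  10))))), (.s k68 k119 4 (.s k204 k136 9 (.s k228 k216 5 (.s k165 k39 8 (.s k5 k245 11 (.d k15 k10
  k90 2 14))))))] (.c k253 (.q k254 [(.s k34 k238 9 (.s k68 k119 4 (.s k204 k136 9 (.d k51 k17 k153
  4 14)))), (.s k169 k171 0 (.s k236 k35 10 (.s k32 k100 9 (.s k238 k34 9 (.d k239 k237 k101 0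
  10))))), (.s k68 k119 4 (.s k204 k136 9 (.s k228 k216 5 (.s k165 k39 8 (.s k5 k245 11 (.d k15 k10
  k90 2 14))))))] .n) (.c k254 (.q k253 [(.d k169 k171 k1 0 13), (.s k34 k238 9 (.s k51 k17 4 (.s
  k68 k119 4 (.d k204 k136 k153 9 14))))] .n) .n))) .n))) (.c k165 (.q k4 [(.s k166 k247 12 (.s k162
  k174 1 (.s k243 k81 12 (.d k12 k8 k89 1 14)))), (.s k12 k8 1 (.s k160 k80 11 (.s k164 k88 13 (.s
  k84 k244 11 (.d k168 k172 k252 1 13))))), (.s k80 k160 11 (.s k90 k95 2 (.s k166 k247 12 (.s k242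
  k14 13 (.s k243 k241 0 (.d k162 k174 k81 1 12))))))] .n) (.c k175 (.l (.s k80 k160 11 (.s k90 k95
  2 (.s k15 k165 14 (.d k10 k5 k250 2 11))))) (.c k250 (.l (.s k160 k80 11 (.s k165 k175 2 (.s k5
  k245 11 (.d k15 k10 k90 2 14))))) .n))))))))))))

def t2_26 : T TT 256 :=
  (.f k170 k255 14 (.q k240 [(.s k80 k160 11 (.s k90 k95 2 (.s k10 k250 11 (.d k15 k5 k165 2 14))))]
  (.c k5 (.q k4 [(.s k12 k8 1 (.s k166 k247 12 (.s k162 k174 1 (.d k243 k81 k89 12 14)))), (.s k12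
  k8 1 (.s k160 k80 11 (.s k164 k88 13 (.s k84 k244 11 (.d k168 k172 k252 1 13))))), (.s k80 k160 11
  (.s k90 k95 2 (.s k166 k247 12 (.s k242 k14 13 (.s k243 k241 0 (.d k162 k174 k81 1 12))))))] .n)
  (.c k10 (.q k42 [(.s k106 k234 7 (.s k64 k127 6 (.s k192 k128 7 (.d k63 k21 k149 6 14)))), (.s k63
  k21 6 (.s k80 k160 11 (.s k90 k95 2 (.s k122 k181 10 (.d k106 k74 k234 3 7))))), (.s k106 k234 7
  (.s k160 k80 11 (.s k165 k175 2 (.s k224 k47 10 (.s k192 k208 3 (.d k64 k127 k128 6 7)))))), (.s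
  k21 k63 6 (.s k160 k80 11 (.s k165 k175 2 (.s k5 k245 11 (.s k37 k53 3 (.s k32 k47 2 (.d k101 k239
  k229 10 7)))))))] (.c k6 (.q k14 [(.s k106 k234 7 (.s k64 k127 6 (.s k192 k128 7 (.d k63 k21 k149
  6 14)))), (.s k80 k160 11 (.s k90 k95 2 (.s k15 k165 14 (.s k12 k13 0 (.s k4 k8 1 (.d k166 k247
  k242 12 13))))))] .n) (.c k14 (.q k6 [(.s k106 k234 7 (.s k64 k127 6 (.s k192 k128 7 (.d k63 k21
  k149 6 14)))), (.s k63 k21 6 (.s k80 k160 11 (.s k90 k95 2 (.s k122 k181 10 (.d k106 k74 k234 3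
  7))))), (.s k106 k234 7 (.s k160 k80 11 (.s k165 k175 2 (.s k224 k47 10 (.s k192 k208 3 (.d k64
  k127 k128 6 7)))))), (.s k21 k63 6 (.s k160 k80 11 (.s k165 k175 2 (.s k5 k245 11 (.s k37 k53 3
  (.s k32 k47 2 (.d k101 k239 k229 10 7)))))))] (.c k38 (.q k50 [(.s k106 k234 7 (.s k64 k127 6 (.s
  k192 k128 7 (.d k63 k21 k149 6 14)))), (.s k63 k21 6 (.s k80 k160 11 (.s k90 k95 2 (.s k122 k181
  10 (.d k106 k74 k234 3 7))))), (.s k106 k234 7 (.s k160 k80 11 (.s k165 k175 2 (.s k224 k47 10 (.s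
  k192 k208 3 (.d k64 k127 k128 6 7)))))), (.s k21 k63 6 (.s k160 k80 11 (.s k165 k175 2 (.s k5 k245
  11 (.s k37 k53 3 (.s k32 k47 2 (.d k101 k239 k229 10 7)))))))] .n) (.c k50 (.q k38 [(.s k106 k234
  7 (.s k64 k127 6 (.s k192 k128 7 (.d k63 k21 k149 6 14)))), (.s k34 k46 1 (.s k51 k17 4 (.s k102
  k238 9 (.s k68 k119 4 (.d k204 k136 k153 9 14)))))] (.c k18 (.l (.s k34 k46 1 (.s k21 k63 6 (.s k4
  k55 4 (.s k12 k8 1 (.d k51 k17 k25 4 6)))))) (.c k34 (.q k18 [(.s k106 k234 7 (.s k64 k127 6 (.s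
  k192 k128 7 (.d k63 k21 k149 6 14)))), (.s k21 k63 6 (.s k4 k55 4 (.s k5 k7 0 (.s k160 k80 11 (.d
  k165 k175 k245 2 11))))), (.s k106 k234 7 (.s k160 k80 11 (.s k165 k175 2 (.s k224 k47 10 (.s k192
  k208 3 (.d k64 k127 k128 6 7))))))] (.c k127 (.l (.s k63 k21 6 (.s k80 k160 11 (.s k90 k95 2 (.s
  k106 k234 7 (.d k122 k74 k181 3 10)))))) .n)) .n))) .n))) .n))) (.c k15 (.f k160 k80 11 (.f k175
  k165 2 (.q k48 [(.s k16 k32 3 (.s k154 k223 10 (.s k138 k186 3 (.d k207 k69 k101 10 14)))), (.s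
  k176 k112 7 (.s k128 k144 3 (.s k149 k191 6 (.s k21 k213 7 (.s k63 k42 6 (.d k192 k64 k106 7
  14))))))] (.c k16 (.l (.s k176 k112 7 (.s k144 k128 3 (.s k96 k192 11 (.s k32 k224 7 (.s k101 k239
  10 (.s k69 k117 3 (.d k207 k138 k154 10 14)))))))) .n)))) (.c k80 (.q k252 [(.s k84 k168 13 (.s
  k86 k87 0 (.s k3 k169 14 (.s k82 k161 12 (.s k90 k94 1 (.s k10 k250 11 (.d k15 k165 k5 14
  2))))))), (.s k84 k168 13 (.s k244 k248 1 (.s k4 k164 11 (.s k166 k247 12 (.s k162 k174 1 (.s k243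
  k81 12 (.d k12 k8 k89 1 14)))))))] (.c k82 (.l (.s k84 k168 13 (.s k86 k87 0 (.s k244 k248 1 (.s
  k165 k7 12 (.s k5 k245 11 (.d k15 k10 k90 2 14))))))) (.c k84 (.q k245 [(.s k165 k5 11 (.s k244
  k248 1 (.s k7 k86 12 (.s k247 k246 0 (.s k166 k4 12 (.d k167 k164 k87 0 11)))))), (.s k165 k5 11
  (.s k15 k90 14 (.s k173 k94 12 (.s k169 k161 1 (.s k253 k1 13 (.s k13 k93 11 (.d k241 k249 k89 1
  13))))))), (.s k244 k248 1 (.s k246 k247 0 (.s k243 k249 2 (.s k81 k162 12 (.s k89 k93 1 (.s k12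
  k166 14 (.d k8 k251 k4 12 1)))))))] (.c k88 (.q k92 [(.s k12 k172 11 (.s k244 k248 1 (.s k247 k246
  0 (.d k4 k8 k166 1 12)))), (.s k165 k5 11 (.s k15 k90 14 (.s k172 k12 11 (.s k173 k94 12 (.d k175
  k174 k160 0 2))))), (.s k165 k5 11 (.s k15 k90 14 (.s k173 k94 12 (.s k169 k161 1 (.s k86 k3 14
  (.d k244 k248 k7 1 12))))))] .n) (.c k92 (.q k88 [(.s k248 k244 1 (.s k8 k168 11 (.d k12 k4 k164 1
  13))), (.s k165 k5 11 (.s k90 k15 14 (.s k89 k91 0 (.s k8 k251 12 (.d k248 k244 k168 1 11))))),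
  (.s k164 k12 13 (.s k165 k5 11 (.s k166 k167 0 (.s k244 k248 1 (.d k247 k246 k4 0 12)))))] (.c
  k244 (.l (.s k12 k164 13 (.s k4 k8 1 (.s k166 k247 12 (.s k162 k174 1 (.d k243 k81 k89 12 14))))))
  (.c k248 (.l (.s k12 k164 13 (.s k4 k8 1 (.s k166 k247 12 (.s k162 k174 1 (.d k243 k81 k89 12
  14)))))) .n))) .n))) (.c k168 (.q k4 [(.s k244 k248 1 (.s k164 k84 11 (.d k12 k8 k88 1 13))), (.s
  k166 k247 12 (.s k162 k174 1 (.s k243 k81 12 (.s k242 k241 0 (.s k90 k14 13 (.s k10 k250 11 (.d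
  k15 k5 k165 2 14)))))))] (.c k12 (.l (.s k166 k247 12 (.s k244 k248 1 (.s k84 k164 11 (.s k86 k87
  0 (.s k6 k246 11 (.d k7 k5 k165 0 12))))))) .n)) .n)))) (.c k90 (.q k154 [(.s k16 k223 10 (.s k48
  k32 3 (.s k138 k186 3 (.d k207 k69 k101 10 14)))), (.s k160 k80 11 (.s k165 k175 2 (.s k176 k143 6
  (.s k128 k144 3 (.s k186 k138 3 (.d k191 k181 k149 2 6)))))), (.s k16 k223 10 (.s k48 k32 3 (.s
  k160 k80 11 (.s k165 k175 2 (.d k176 k143 k112 6 7)))))] (.c k16 (.l (.s k138 k186 3 (.s k160 k80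
  11 (.s k165 k175 2 (.s k176 k143 6 (.s k48 k112 7 (.d k207 k101 k69 14 10))))))) .n)) (.c k95 (.l
  (.s k160 k80 11 (.s k165 k175 2 (.s k15 k90 14 (.d k5 k10 k245 2 11))))) (.c k160 (.q k150 [(.s
  k20 k215 8 (.s k60 k40 5 (.s k130 k190 5 (.d k195 k65 k105 8 14)))), (.s k130 k190 5 (.s k195 k65
  8 (.s k210 k225 4 (.s k90 k30 9 (.s k10 k250 11 (.d k15 k5 k165 2 14)))))), (.s k20 k215 8 (.s k60
  k40 5 (.s k180 k120 9 (.s k165 k135 4 (.s k5 k245 11 (.d k15 k10 k90 2 14))))))] (.c k60 (.q k4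
  [(.s k12 k8 1 (.s k166 k247 12 (.s k162 k174 1 (.d k243 k81 k89 12 14)))), (.s k20 k215 8 (.s k52
  k36 3 (.s k101 k199 12 (.s k117 k69 3 (.d k247 k182 k166 8 12)))))] (.c k125 (.l (.s k190 k130 5
  (.s k12 k8 1 (.s k166 k247 12 (.s k162 k174 1 (.d k243 k81 k89 12 14)))))) (.c k166 (.l (.s k8 k12
  1 (.s k20 k215 8 (.s k89 k251 12 (.s k28 k211 10 (.s k16 k24 1 (.s k93 k81 1 (.d k223 k158 k154 8
  10)))))))) (.c k190 (.q k125 [(.s k12 k8 1 (.s k166 k247 12 (.s k243 k89 14 (.d k162 k174 k81 1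
  12)))), (.s k65 k105 5 (.s k195 k130 8 (.s k210 k225 4 (.s k90 k30 9 (.s k10 k250 11 (.d k15 k165
  k5 14 2))))))] .n) (.c k247 (.l (.s k12 k8 1 (.s k20 k215 8 (.s k52 k36 3 (.s k199 k101 12 (.s
  k134 k69 8 (.s k195 k73 10 (.d k130 k65 k190 8 5)))))))) .n))))) (.c k195 (.q k81 [(.s k89 k93 1
  (.s k8 k251 12 (.s k12 k4 1 (.d k243 k162 k166 12 14)))), (.s k89 k93 1 (.s k211 k28 10 (.s k16
  k146 8 (.s k215 k20 8 (.d k223 k219 k154 1 10))))), (.s k130 k190 5 (.s k162 k243 12 (.s k146 k178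
  3 (.s k154 k158 1 (.d k16 k211 k223 8 10)))))] (.c k174 (.l (.s k243 k162 12 (.s k89 k93 1 (.s k12
  k166 14 (.d k8 k4 k251 1 12))))) (.c k215 (.q k235 [(.s k89 k93 1 (.s k8 k251 12 (.s k12 k4 1 (.d
  k243 k162 k166 12 14)))), (.s k40 k105 8 (.s k60 k20 5 (.s k180 k120 9 (.s k165 k135 4 (.s k5 k245
  11 (.d k15 k90 k10 14 2))))))] .n) (.c k235 (.l (.s k215 k20 8 (.s k89 k93 1 (.s k8 k251 12 (.s
  k12 k4 1 (.d k243 k162 k166 12 14)))))) .n)))) .n))) (.c k165 (.q k4 [(.s k12 k8 1 (.s k166 k247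
  12 (.s k162 k174 1 (.d k243 k81 k89 12 14)))), (.s k12 k8 1 (.s k160 k80 11 (.s k164 k88 13 (.s
  k84 k244 11 (.d k168 k172 k252 1 13))))), (.s k80 k160 11 (.s k90 k95 2 (.s k166 k247 12 (.s k242
  k14 13 (.s k243 k241 0 (.d k162 k174 k81 1 12))))))] .n) (.c k175 (.l (.s k80 k160 11 (.s k90 k95
  2 (.s k15 k165 14 (.d k10 k5 k250 2 11))))) (.c k250 (.l (.s k160 k80 11 (.s k165 k175 2 (.s k5
  k245 11 (.d k15 k10 k90 2 14))))) .n))))))))))))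

def t2_27 : T TT 256 :=
  (.f k170 k255 14 (.q k240 [(.s k80 k160 11 (.s k90 k95 2 (.s k10 k250 11 (.d k15 k5 k165 2 14))))]
  (.c k5 (.q k4 [(.s k12 k8 1 (.s k166 k247 12 (.s k162 k174 1 (.d k243 k81 k89 12 14)))), (.s k12
  k8 1 (.s k160 k80 11 (.s k164 k88 13 (.s k84 k244 11 (.d k168 k172 k252 1 13))))), (.s k80 k160 11
  (.s k90 k95 2 (.s k166 k247 12 (.s k242 k14 13 (.s k243 k241 0 (.d k162 k174 k81 1 12))))))] .n)
  (.c k10 (.f k80 k160 11 (.f k90 k95 2 (.f k15 k165 14 (.q k12 [(.s k8 k4 1 (.s k89 k251 12 (.d k88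
  k91 k164 0 13))), (.s k4 k8 1 (.s k14 k13 0 (.d k166 k247 k242 12 13))), (.s k14 k13 0 (.s k88
  k164 13 (.s k89 k91 0 (.d k166 k242 k243 13 14))))] (.c k6 (.l (.s k14 k13 0 (.s k4 k8 1 (.d k166
  k247 k242 12 13)))) (.c k14 (.q k6 [(.s k4 k8 1 (.s k7 k5 0 (.d k3 k11 k9 1 2))), (.s k88 k164 13
  (.s k89 k91 0 (.s k81 k93 1 (.d k243 k166 k162 14 12))))] .n) (.c k89 (.l (.s k4 k8 1 (.s k166
  k247 12 (.d k14 k13 k242 0 13)))) .n))))))) (.c k15 (.f k160 k80 11 (.f k175 k165 2 (.q k162 [(.s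
  k166 k174 1 (.s k4 k247 12 (.s k12 k8 1 (.d k243 k81 k89 12 14)))), (.s k163 k161 0 (.s k171 k167
  1 (.s k169 k168 0 (.d k166 k174 k172 1 2)))), (.s k81 k243 12 (.s k161 k163 0 (.s k1 k241 11 (.s
  k3 k82 12 (.s k169 k253 13 (.s k168 k171 0 (.d k252 k84 k86 13 14)))))))] (.c k39 (.q k51 [(.s k34
  k17 4 (.s k102 k238 9 (.s k68 k119 4 (.d k204 k136 k153 9 14)))), (.s k163 k161 0 (.s k166 k174 1
  (.s k169 k172 2 (.d k171 k168 k167 0 1))))] (.c k102 (.q k228 [(.s k17 k34 4 (.s k153 k221 9 (.s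
  k136 k187 4 (.d k204 k216 k68 5 9)))), (.s k163 k161 0 (.s k166 k174 1 (.s k169 k172 2 (.d k171
  k168 k167 0 1))))] .n) (.c k228 (.q k102 [(.d k34 k17 k238 4 9), (.s k68 k119 4 (.d k204 k136 k153
  9 14))] .n) .n))) (.c k51 (.q k39 [(.s k166 k174 1 (.s k4 k247 12 (.s k12 k8 1 (.d k243 k81 k89 12
  14)))), (.s k163 k161 0 (.s k171 k167 1 (.s k169 k168 0 (.d k166 k174 k172 1 2)))), (.s k81 k243
  12 (.s k161 k163 0 (.s k1 k241 11 (.s k3 k82 12 (.s k169 k253 13 (.s k168 k171 0 (.d k252 k84 k86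
  13 14)))))))] (.c k119 (.q k187 [(.s k163 k161 0 (.s k166 k174 1 (.s k169 k172 2 (.d k171 k168
  k167 0 1)))), (.s k81 k243 12 (.s k153 k136 4 (.s k17 k221 9 (.s k145 k209 7 (.s k149 k157 1 (.d
  k128 k179 k191 4 6))))))] (.c k93 (.l (.s k163 k161 0 (.s k171 k167 1 (.s k169 k168 0 (.d k166
  k174 k172 1 2))))) (.c k167 (.l (.s k166 k174 1 (.s k4 k247 12 (.s k12 k8 1 (.d k243 k81 k89 12
  14))))) .n))) (.c k187 (.q k119 [(.s k166 k174 1 (.s k4 k247 12 (.s k12 k8 1 (.d k243 k81 k89 12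
  14)))), (.s k163 k161 0 (.s k171 k167 1 (.s k169 k168 0 (.d k166 k174 k172 1 2)))), (.s k81 k243
  12 (.s k102 k68 4 (.s k34 k238 9 (.s k98 k226 7 (.s k115 k64 4 (.d k89 k76 k93 6 1))))))] (.c k243
  (.l (.s k163 k161 0 (.s k166 k174 1 (.s k169 k172 2 (.d k171 k168 k167 0 1))))) .n)) (.c k243 (.l
  (.s k163 k161 0 (.s k166 k174 1 (.s k169 k172 2 (.d k171 k168 k167 0 1))))) .n)))) (.c k243 (.l
  (.s k163 k161 0 (.s k166 k174 1 (.s k169 k172 2 (.d k171 k168 k167 0 1))))) .n)))))) (.c k80 (.q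
  k252 [(.s k84 k168 13 (.s k86 k87 0 (.s k3 k169 14 (.s k82 k161 12 (.s k90 k94 1 (.s k10 k250 11
  (.d k15 k165 k5 14 2))))))), (.s k84 k168 13 (.s k244 k248 1 (.s k4 k164 11 (.s k166 k247 12 (.s
  k162 k174 1 (.s k243 k81 12 (.d k12 k8 k89 1 14)))))))] (.c k82 (.l (.s k84 k168 13 (.s k86 k87 0
  (.s k244 k248 1 (.s k165 k7 12 (.s k5 k245 11 (.d k15 k10 k90 2 14))))))) (.c k84 (.f k248 k244 1
  (.q k8 [(.s k88 k168 11 (.d k12 k4 k164 1 13))] (.c k4 (.q k164 [(.d k88 k168 k12 11 13)] (.c k12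
  (.l (.s k88 k168 11 (.s k89 k251 12 (.s k90 k91 0 (.s k10 k250 11 (.d k11 k9 k169 0 12)))))) (.c
  k88 (.q k92 [(.s k12 k172 11 (.s k89 k251 12 (.s k81 k93 1 (.d k243 k162 k166 12 14)))), (.s k172
  k12 11 (.s k160 k168 1 (.s k165 k175 2 (.s k5 k245 11 (.d k15 k10 k90 2 14))))), (.s k89 k251 12
  (.s k86 k83 2 (.s k169 k3 14 (.s k9 k249 11 (.d k11 k10 k90 0 12)))))] (.c k247 (.l (.s k12 k172
  11 (.s k89 k251 12 (.s k243 k166 14 (.d k81 k93 k162 1 12))))) .n)) (.c k92 (.l (.d k88 k168 k12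
  11 13)) (.c k168 (.l (.s k89 k251 12 (.s k81 k93 1 (.s k243 k162 12 (.d k12 k88 k166 13 14)))))
  .n))))) (.c k12 (.l (.s k88 k168 11 (.s k89 k251 12 (.s k90 k91 0 (.s k10 k250 11 (.d k11 k9 k169
  0 12)))))) (.c k88 (.q k92 [(.d k12 k4 k172 1 11), (.s k89 k251 12 (.s k86 k83 2 (.s k169 k3 14
  (.s k9 k249 11 (.d k11 k10 k90 0 12)))))] (.c k4 (.q k164 [(.s k12 k172 11 (.s k89 k251 12 (.s k81
  k93 1 (.d k243 k162 k166 12 14)))), (.s k172 k12 11 (.s k160 k168 1 (.s k165 k175 2 (.s k5 k245 11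
  (.d k15 k10 k90 2 14))))), (.s k89 k251 12 (.s k86 k83 2 (.s k169 k3 14 (.s k9 k249 11 (.d k11 k10
  k90 0 12)))))] (.c k247 (.l (.s k12 k172 11 (.s k89 k251 12 (.s k243 k166 14 (.d k81 k93 k162 1
  12))))) .n)) (.c k164 (.l (.s k4 k12 1 (.s k89 k251 12 (.s k86 k83 2 (.s k169 k3 14 (.s k9 k249 11
  (.d k11 k10 k90 0 12))))))) .n))) (.c k92 (.l (.s k88 k168 11 (.d k12 k4 k164 1 13))) (.c k164 (.l
  (.s k4 k12 1 (.s k88 k168 11 (.s k89 k251 12 (.s k90 k91 0 (.s k10 k250 11 (.d k11 k9 k169 0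
  12))))))) (.c k168 (.l (.s k89 k251 12 (.s k81 k93 1 (.s k243 k162 12 (.d k12 k4 k166 1 14)))))
  .n)))))))) (.c k168 (.q k4 [(.s k244 k248 1 (.s k164 k84 11 (.d k12 k8 k88 1 13))), (.s k166 k247
  12 (.s k162 k174 1 (.s k243 k81 12 (.s k242 k241 0 (.s k90 k14 13 (.s k10 k250 11 (.d k15 k5 k165
  2 14)))))))] (.c k12 (.l (.s k166 k247 12 (.s k244 k248 1 (.s k84 k164 11 (.s k86 k87 0 (.s k6
  k246 11 (.d k7 k5 k165 0 12))))))) .n)) .n)))) (.c k90 (.q k153 [(.s k17 k221 9 (.s k136 k187 4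
  (.s k204 k68 9 (.d k51 k34 k102 4 14)))), (.s k160 k80 11 (.s k165 k175 2 (.s k5 k245 11 (.s k15
  k10 2 (.s k141 k177 5 (.s k204 k78 8 (.d k136 k187 k68 4 9))))))), (.s k17 k221 9 (.s k51 k34 4
  (.s k160 k80 11 (.s k165 k175 2 (.d k177 k141 k114 5 8)))))] (.c k204 (.l (.s k160 k80 11 (.s k165
  k175 2 (.s k177 k141 5 (.s k51 k114 8 (.d k17 k34 k221 4 9)))))) .n)) (.c k95 (.l (.s k160 k80 11
  (.s k165 k175 2 (.s k15 k90 14 (.d k5 k10 k245 2 11))))) (.c k160 (.q k150 [(.s k20 k215 8 (.s k60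
  k40 5 (.s k130 k190 5 (.d k195 k65 k105 8 14)))), (.s k130 k190 5 (.s k195 k65 8 (.s k210 k225 4
  (.s k90 k30 9 (.s k10 k250 11 (.d k15 k5 k165 2 14)))))), (.s k20 k215 8 (.s k60 k40 5 (.s k180
  k120 9 (.s k165 k135 4 (.s k5 k245 11 (.d k15 k10 k90 2 14))))))] (.c k60 (.q k4 [(.s k12 k8 1 (.s
  k166 k247 12 (.s k162 k174 1 (.d k243 k81 k89 12 14)))), (.s k20 k215 8 (.s k52 k36 3 (.s k101
  k199 12 (.s k117 k69 3 (.d k247 k182 k166 8 12)))))] (.c k125 (.l (.s k190 k130 5 (.s k12 k8 1 (.s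
  k166 k247 12 (.s k162 k174 1 (.d k243 k81 k89 12 14)))))) (.c k166 (.l (.s k8 k12 1 (.s k20 k215 8
  (.s k89 k251 12 (.s k28 k211 10 (.s k16 k24 1 (.s k93 k81 1 (.d k223 k158 k154 8 10)))))))) (.c
  k190 (.q k125 [(.s k12 k8 1 (.s k166 k247 12 (.s k243 k89 14 (.d k162 k174 k81 1 12)))), (.s k65
  k105 5 (.s k195 k130 8 (.s k210 k225 4 (.s k90 k30 9 (.s k10 k250 11 (.d k15 k165 k5 14 2))))))]
  .n) (.c k247 (.l (.s k12 k8 1 (.s k20 k215 8 (.s k52 k36 3 (.s k199 k101 12 (.s k134 k69 8 (.s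
  k195 k73 10 (.d k130 k65 k190 8 5)))))))) .n))))) (.c k195 (.q k81 [(.s k89 k93 1 (.s k8 k251 12
  (.s k12 k4 1 (.d k243 k162 k166 12 14)))), (.s k89 k93 1 (.s k211 k28 10 (.s k16 k146 8 (.s k215
  k20 8 (.d k223 k219 k154 1 10))))), (.s k130 k190 5 (.s k162 k243 12 (.s k146 k178 3 (.s k154 k158
  1 (.d k16 k211 k223 8 10)))))] (.c k174 (.l (.s k243 k162 12 (.s k89 k93 1 (.s k12 k166 14 (.d k8
  k4 k251 1 12))))) (.c k215 (.q k235 [(.s k89 k93 1 (.s k8 k251 12 (.s k12 k4 1 (.d k243 k162 k166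
  12 14)))), (.s k40 k105 8 (.s k60 k20 5 (.s k180 k120 9 (.s k165 k135 4 (.s k5 k245 11 (.d k15 k90
  k10 14 2))))))] .n) (.c k235 (.l (.s k215 k20 8 (.s k89 k93 1 (.s k8 k251 12 (.s k12 k4 1 (.d k243
  k162 k166 12 14)))))) .n)))) .n))) (.c k165 (.q k4 [(.s k12 k8 1 (.s k166 k247 12 (.s k162 k174 1
  (.d k243 k81 k89 12 14)))), (.s k12 k8 1 (.s k160 k80 11 (.s k164 k88 13 (.s k84 k244 11 (.d k168
  k172 k252 1 13))))), (.s k80 k160 11 (.s k90 k95 2 (.s k166 k247 12 (.s k242 k14 13 (.s k243 k241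
  0 (.d k162 k174 k81 1 12))))))] .n) (.c k175 (.l (.s k80 k160 11 (.s k90 k95 2 (.s k15 k165 14 (.d
  k10 k5 k250 2 11))))) (.c k250 (.l (.s k160 k80 11 (.s k165 k175 2 (.s k5 k245 11 (.d k15 k10 k90
  2 14))))) .n))))))))))))

def t2_28 : T TT 256 :=
  (.f k170 k255 14 (.q k240 [(.s k80 k160 11 (.s k90 k95 2 (.s k10 k250 11 (.d k15 k5 k165 2 14))))]
  (.c k5 (.q k4 [(.s k12 k8 1 (.s k166 k247 12 (.s k162 k174 1 (.d k243 k81 k89 12 14)))), (.s k12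
  k8 1 (.s k160 k80 11 (.s k164 k88 13 (.s k84 k244 11 (.d k168 k172 k252 1 13))))), (.s k80 k160 11
  (.s k90 k95 2 (.s k166 k247 12 (.s k242 k14 13 (.s k243 k241 0 (.d k162 k174 k81 1 12))))))] .n)
  (.c k10 (.f k160 k80 11 (.f k175 k165 2 (.q k162 [(.s k163 k161 0 (.s k171 k167 1 (.s k169 k168 0
  (.d k166 k174 k172 1 2)))), (.s k166 k174 1 (.s k4 k247 12 (.s k12 k8 1 (.d k243 k81 k89 12
  14)))), (.s k81 k243 12 (.s k161 k163 0 (.s k1 k241 11 (.s k3 k82 12 (.s k169 k253 13 (.s k168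
  k171 0 (.d k252 k84 k86 13 14)))))))] (.c k6 (.q k14 [(.s k166 k174 1 (.s k242 k90 13 (.d k243
  k241 k81 0 12))), (.s k81 k243 12 (.s k161 k163 0 (.s k1 k241 11 (.s k3 k82 12 (.s k169 k253 13
  (.s k168 k171 0 (.d k252 k84 k86 13 14))))))), (.s k163 k161 0 (.s k166 k174 1 (.s k169 k172 2 (.d
  k171 k168 k167 0 1))))] .n) (.c k14 (.q k6 [(.s k163 k161 0 (.s k171 k167 1 (.s k169 k168 0 (.d
  k166 k174 k172 1 2)))), (.s k166 k174 1 (.s k4 k247 12 (.s k12 k8 1 (.d k243 k81 k89 12 14)))),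
  (.s k81 k243 12 (.s k161 k163 0 (.s k3 k82 12 (.s k12 k9 2 (.s k8 k4 1 (.d k89 k251 k93 12
  1))))))] .n) .n))))) (.c k15 (.f k80 k160 11 (.q k192 [(.s k64 k128 7 (.s k96 k112 3 (.s k208 k224
  3 (.d k144 k16 k48 7 11)))), (.s k128 k64 7 (.s k149 k191 6 (.s k21 k213 7 (.d k63 k42 k106 6
  14))))] (.c k64 (.l (.s k208 k224 3 (.s k16 k144 7 (.s k154 k223 10 (.s k138 k186 3 (.s k207 k69
  10 (.d k48 k32 k101 3 14))))))) (.c k95 (.q k175 [(.s k64 k128 7 (.s k96 k112 3 (.s k208 k224 3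
  (.d k144 k16 k48 7 11)))), (.s k128 k64 7 (.s k149 k191 6 (.s k21 k213 7 (.d k63 k42 k106 6
  14))))] (.c k64 (.l (.s k208 k224 3 (.s k16 k144 7 (.s k154 k223 10 (.s k138 k186 3 (.s k207 k69
  10 (.d k48 k32 k101 3 14))))))) (.c k128 (.l (.s k208 k224 3 (.s k144 k16 7 (.s k96 k48 11 (.s k64
  k112 3 (.s k106 k127 6 (.s k42 k234 7 (.d k63 k21 k149 6 14)))))))) .n))) (.c k128 (.l (.s k208
  k224 3 (.s k144 k16 7 (.s k96 k48 11 (.s k64 k112 3 (.s k106 k127 6 (.s k42 k234 7 (.d k63 k21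
  k149 6 14)))))))) (.c k175 (.l (.s k95 k90 2 (.s k64 k128 7 (.s k96 k112 3 (.s k144 k48 11 (.d
  k208 k224 k16 3 7)))))) .n)))))) (.c k80 (.q k252 [(.s k84 k168 13 (.s k86 k87 0 (.s k3 k169 14
  (.s k82 k161 12 (.s k90 k94 1 (.s k10 k250 11 (.d k15 k165 k5 14 2))))))), (.s k84 k168 13 (.s
  k244 k248 1 (.s k4 k164 11 (.s k166 k247 12 (.s k162 k174 1 (.s k243 k81 12 (.d k12 k8 k89 1
  14)))))))] (.c k82 (.l (.s k84 k168 13 (.s k86 k87 0 (.s k244 k248 1 (.s k165 k7 12 (.s k5 k245 11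
  (.d k15 k10 k90 2 14))))))) (.c k84 (.q k88 [(.s k248 k244 1 (.s k8 k168 11 (.d k12 k4 k164 1
  13))), (.s k12 k164 13 (.s k4 k8 1 (.s k166 k247 12 (.s k162 k174 1 (.d k243 k81 k89 12 14)))))]
  (.c k4 (.l (.s k164 k12 13 (.s k248 k244 1 (.s k8 k168 11 (.s k89 k251 12 (.s k90 k91 0 (.s k10
  k250 11 (.d k11 k9 k169 0 12)))))))) (.c k8 (.q k5 [(.s k165 k245 11 (.d k15 k10 k90 2 14)), (.s
  k164 k12 13 (.s k165 k245 11 (.s k166 k167 0 (.s k4 k247 12 (.s k7 k6 0 (.d k244 k248 k86 1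
  12)))))), (.s k10 k15 2 (.s k12 k164 13 (.s k90 k250 11 (.s k89 k91 0 (.s k81 k93 1 (.d k243 k162
  k166 12 14))))))] (.c k10 (.l (.s k12 k164 13 (.s k165 k245 11 (.s k15 k90 14 (.s k172 k92 11 (.s
  k173 k94 12 (.d k175 k174 k160 0 2))))))) .n)) (.c k12 (.l (.s k248 k244 1 (.s k8 k168 11 (.s k89
  k251 12 (.s k90 k91 0 (.s k10 k250 11 (.d k11 k9 k169 0 12))))))) (.c k164 (.q k4 [(.s k248 k244 1
  (.d k8 k12 k168 1 11)), (.s k166 k247 12 (.s k162 k174 1 (.s k243 k81 12 (.s k242 k241 0 (.s k90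
  k14 13 (.d k89 k12 k91 14 0))))))] (.c k12 (.l (.s k248 k244 1 (.s k8 k168 11 (.s k89 k251 12 (.s
  k90 k91 0 (.s k10 k250 11 (.d k11 k9 k169 0 12))))))) .n)) (.c k244 (.l (.s k12 k164 13 (.s k4 k8
  1 (.s k166 k247 12 (.s k162 k174 1 (.d k243 k81 k89 12 14)))))) .n)))))) (.c k168 (.q k4 [(.s k244
  k248 1 (.s k164 k84 11 (.d k12 k8 k88 1 13))), (.s k166 k247 12 (.s k162 k174 1 (.s k243 k81 12
  (.s k242 k241 0 (.s k90 k14 13 (.s k10 k250 11 (.d k15 k5 k165 2 14)))))))] (.c k12 (.l (.s k166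
  k247 12 (.s k244 k248 1 (.s k84 k164 11 (.s k86 k87 0 (.s k6 k246 11 (.d k7 k5 k165 0 12)))))))
  .n)) .n)))) (.c k90 (.q k4 [(.s k12 k8 1 (.s k166 k247 12 (.s k162 k174 1 (.d k243 k81 k89 12
  14)))), (.s k12 k8 1 (.s k160 k80 11 (.s k164 k88 13 (.s k84 k244 11 (.d k168 k172 k252 1 13))))),
  (.s k160 k80 11 (.s k165 k175 2 (.s k166 k247 12 (.s k164 k167 0 (.s k84 k244 11 (.d k168 k172
  k252 1 13))))))] .n) (.c k95 (.l (.s k160 k80 11 (.s k165 k175 2 (.s k15 k90 14 (.d k5 k10 k245 2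
  11))))) (.c k160 (.q k105 [(.s k40 k235 8 (.s k60 k20 5 (.s k65 k125 5 (.d k195 k130 k150 8
  14)))), (.s k65 k125 5 (.s k195 k130 8 (.s k225 k210 4 (.s k165 k45 9 (.s k5 k245 11 (.d k15 k10
  k90 2 14)))))), (.s k40 k235 8 (.s k60 k20 5 (.s k120 k180 9 (.s k90 k75 4 (.s k10 k250 11 (.d k15
  k5 k165 2 14))))))] (.c k60 (.f k125 k65 5 (.q k166 [(.s k4 k247 12 (.s k12 k8 1 (.s k162 k174 1
  (.d k243 k81 k89 12 14)))), (.s k40 k235 8 (.s k44 k227 10 (.s k32 k36 1 (.s k174 k162 1 (.d k239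
  k109 k101 8 10))))), (.s k4 k247 12 (.s k12 k8 1 (.s k164 k88 13 (.s k165 k167 0 (.s k5 k245 11
  (.d k15 k10 k90 2 14))))))] (.c k12 (.l (.s k44 k227 10 (.s k40 k235 8 (.s k32 k36 1 (.s k174 k162
  1 (.d k239 k109 k101 8 10)))))) (.c k44 (.q k12 [(.d k4 k8 k247 1 12), (.s k162 k174 1 (.d k243
  k81 k89 12 14))] .n) .n)))) (.c k195 (.q k138 [(.s k154 k186 3 (.s k207 k69 10 (.s k48 k101 14 (.d
  k16 k32 k223 3 10)))), (.s k65 k125 5 (.s k69 k207 10 (.s k73 k77 1 (.s k89 k121 3 (.d k8 k203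
  k251 8 12))))), (.s k154 k186 3 (.s k203 k56 12 (.s k8 k73 8 (.s k235 k40 8 (.d k251 k219 k89 3
  12)))))] (.c k117 (.l (.s k207 k69 10 (.s k154 k186 3 (.s k48 k101 14 (.d k16 k32 k223 3 10)))))
  (.c k215 (.l (.s k235 k40 8 (.s k154 k186 3 (.s k16 k223 10 (.s k48 k32 3 (.d k207 k69 k101 10
  14)))))) (.c k235 (.q k215 [(.s k154 k186 3 (.s k207 k69 10 (.s k48 k101 14 (.d k16 k32 k223 3
  10)))), (.s k20 k150 8 (.s k60 k40 5 (.s k120 k180 9 (.s k90 k75 4 (.s k10 k250 11 (.d k15 k165 k5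
  14 2))))))] .n) .n)))) .n))) (.c k165 (.q k4 [(.s k12 k8 1 (.s k166 k247 12 (.s k162 k174 1 (.d
  k243 k81 k89 12 14)))), (.s k12 k8 1 (.s k160 k80 11 (.s k164 k88 13 (.s k84 k244 11 (.d k168 k172
  k252 1 13))))), (.s k80 k160 11 (.s k90 k95 2 (.s k166 k247 12 (.s k242 k14 13 (.s k243 k241 0 (.d
  k162 k174 k81 1 12))))))] .n) (.c k175 (.l (.s k80 k160 11 (.s k90 k95 2 (.s k15 k165 14 (.d k10
  k5 k250 2 11))))) (.c k250 (.l (.s k160 k80 11 (.s k165 k175 2 (.s k5 k245 11 (.d k15 k10 k90 2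
  14))))) .n))))))))))))

def t2_29 : T TT 256 :=
  (.f k170 k255 14 (.q k240 [(.s k80 k160 11 (.s k90 k95 2 (.s k10 k250 11 (.d k15 k5 k165 2 14))))]
  (.c k5 (.q k4 [(.s k12 k8 1 (.s k166 k247 12 (.s k162 k174 1 (.d k243 k81 k89 12 14)))), (.s k12
  k8 1 (.s k160 k80 11 (.s k164 k88 13 (.s k84 k244 11 (.d k168 k172 k252 1 13))))), (.s k80 k160 11
  (.s k90 k95 2 (.s k166 k247 12 (.s k242 k14 13 (.s k243 k241 0 (.d k162 k174 k81 1 12))))))] .n)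
  (.c k10 (.f k160 k80 11 (.f k175 k165 2 (.q k128 [(.s k144 k176 3 (.s k192 k64 7 (.s k224 k208 3
  (.d k96 k32 k48 7 11)))), (.s k149 k191 6 (.s k21 k213 7 (.s k63 k42 6 (.d k192 k64 k106 7 14))))]
  (.c k6 (.q k14 [(.s k144 k176 3 (.s k192 k64 7 (.s k224 k208 3 (.d k96 k32 k48 7 11)))), (.s k149
  k191 6 (.s k21 k213 7 (.s k63 k42 6 (.d k192 k64 k106 7 14))))] (.c k64 (.l (.s k144 k176 3 (.s
  k149 k191 6 (.s k21 k213 7 (.s k63 k42 6 (.s k192 k106 14 (.s k96 k48 11 (.d k224 k208 k32 3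
  7)))))))) (.c k192 (.l (.s k176 k144 3 (.s k48 k112 7 (.s k16 k32 3 (.s k154 k223 10 (.s k138 k186
  3 (.d k207 k69 k101 10 14))))))) .n))) (.c k14 (.q k6 [(.s k144 k176 3 (.s k192 k64 7 (.s k224
  k208 3 (.d k96 k32 k48 7 11)))), (.s k149 k191 6 (.s k21 k213 7 (.s k63 k42 6 (.d k192 k64 k106 7
  14))))] (.c k64 (.l (.s k144 k176 3 (.s k149 k191 6 (.s k21 k213 7 (.s k63 k42 6 (.s k192 k106 14
  (.s k96 k48 11 (.d k224 k208 k32 3 7)))))))) (.c k192 (.l (.s k176 k144 3 (.s k48 k112 7 (.s k16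
  k32 3 (.s k154 k223 10 (.s k138 k186 3 (.d k207 k69 k101 10 14))))))) .n))) (.c k64 (.l (.s k144
  k176 3 (.s k149 k191 6 (.s k21 k213 7 (.s k63 k42 6 (.s k192 k106 14 (.s k96 k48 11 (.d k224 k208
  k32 3 7)))))))) (.c k192 (.l (.s k176 k144 3 (.s k48 k112 7 (.s k16 k32 3 (.s k154 k223 10 (.s
  k138 k186 3 (.d k207 k69 k101 10 14))))))) .n))))))) (.c k15 (.f k80 k160 11 (.q k192 [(.s k64
  k128 7 (.s k96 k112 3 (.s k208 k224 3 (.d k144 k16 k48 7 11)))), (.s k128 k64 7 (.s k149 k191 6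
  (.s k21 k213 7 (.d k63 k42 k106 6 14))))] (.c k64 (.l (.s k208 k224 3 (.s k16 k144 7 (.s k154 k223
  10 (.s k138 k186 3 (.s k207 k69 10 (.d k48 k32 k101 3 14))))))) (.c k95 (.q k175 [(.s k64 k128 7
  (.s k96 k112 3 (.s k208 k224 3 (.d k144 k16 k48 7 11)))), (.s k128 k64 7 (.s k149 k191 6 (.s k21
  k213 7 (.d k63 k42 k106 6 14))))] (.c k64 (.l (.s k208 k224 3 (.s k16 k144 7 (.s k154 k223 10 (.s
  k138 k186 3 (.s k207 k69 10 (.d k48 k32 k101 3 14))))))) (.c k128 (.l (.s k208 k224 3 (.s k144 k16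
  7 (.s k96 k48 11 (.s k64 k112 3 (.s k106 k127 6 (.s k42 k234 7 (.d k63 k21 k149 6 14)))))))) .n)))
  (.c k128 (.l (.s k208 k224 3 (.s k144 k16 7 (.s k96 k48 11 (.s k64 k112 3 (.s k106 k127 6 (.s k42
  k234 7 (.d k63 k21 k149 6 14)))))))) (.c k175 (.l (.s k95 k90 2 (.s k64 k128 7 (.s k96 k112 3 (.s
  k144 k48 11 (.d k208 k224 k16 3 7)))))) .n)))))) (.c k80 (.q k252 [(.s k84 k168 13 (.s k86 k87 0
  (.s k3 k169 14 (.s k82 k161 12 (.s k90 k94 1 (.s k10 k250 11 (.d k15 k165 k5 14 2))))))), (.s k84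
  k168 13 (.s k244 k248 1 (.s k4 k164 11 (.s k166 k247 12 (.s k162 k174 1 (.s k243 k81 12 (.d k12 k8
  k89 1 14)))))))] (.c k82 (.l (.s k84 k168 13 (.s k86 k87 0 (.s k244 k248 1 (.s k165 k7 12 (.s k5
  k245 11 (.d k15 k10 k90 2 14))))))) (.c k84 (.q k162 [(.s k166 k174 1 (.s k4 k247 12 (.s k12 k8 1
  (.d k243 k81 k89 12 14)))), (.s k166 k174 1 (.s k243 k81 12 (.s k242 k241 0 (.s k90 k14 13 (.s k10
  k250 11 (.d k15 k5 k165 2 14)))))), (.s k243 k81 12 (.s k248 k244 1 (.s k249 k246 2 (.s k251 k250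
  0 (.s k8 k89 12 (.s k88 k168 11 (.d k12 k4 k164 1 13))))))), (.s k166 k174 1 (.s k244 k248 1 (.s
  k247 k4 12 (.s k245 k246 0 (.s k165 k5 11 (.s k7 k86 12 (.d k167 k164 k87 0 11)))))))] (.c k12 (.l
  (.s k243 k81 12 (.s k244 k248 1 (.s k246 k249 2 (.s k247 k245 0 (.d k166 k174 k4 1 12)))))) (.c
  k88 (.q k92 [(.s k12 k172 11 (.s k4 k8 1 (.d k166 k174 k247 1 12))), (.s k12 k172 11 (.s k166 k174
  1 (.d k243 k81 k89 12 14))), (.s k243 k81 12 (.s k244 k248 1 (.s k246 k249 2 (.s k247 k245 0 (.d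
  k166 k174 k4 1 12))))), (.s k12 k172 11 (.s k8 k4 1 (.s k81 k243 12 (.d k89 k251 k93 12 1))))] .n)
  (.c k92 (.q k88 [(.s k248 k244 1 (.s k8 k168 11 (.d k12 k4 k164 1 13))), (.s k166 k174 1 (.s k243
  k81 12 (.d k12 k164 k89 13 14)))] (.c k12 (.l (.s k81 k243 12 (.s k248 k244 1 (.s k8 k168 11 (.d
  k89 k251 k93 12 1))))) (.c k164 (.l (.s k166 k174 1 (.s k4 k247 12 (.s k12 k8 1 (.d k243 k81 k89
  12 14))))) .n))) .n)))) (.c k168 (.q k4 [(.s k244 k248 1 (.s k164 k84 11 (.d k12 k8 k88 1 13))),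
  (.s k166 k247 12 (.s k162 k174 1 (.s k243 k81 12 (.s k242 k241 0 (.s k90 k14 13 (.s k10 k250 11
  (.d k15 k5 k165 2 14)))))))] (.c k12 (.l (.s k166 k247 12 (.s k244 k248 1 (.s k84 k164 11 (.s k86
  k87 0 (.s k6 k246 11 (.d k7 k5 k165 0 12))))))) .n)) .n)))) (.c k90 (.q k4 [(.s k12 k8 1 (.s k166
  k247 12 (.s k162 k174 1 (.d k243 k81 k89 12 14)))), (.s k12 k8 1 (.s k160 k80 11 (.s k164 k88 13
  (.s k84 k244 11 (.d k168 k172 k252 1 13))))), (.s k160 k80 11 (.s k165 k175 2 (.s k166 k247 12 (.s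
  k164 k167 0 (.s k84 k244 11 (.d k168 k172 k252 1 13))))))] .n) (.c k95 (.l (.s k160 k80 11 (.s
  k165 k175 2 (.s k15 k90 14 (.d k5 k10 k245 2 11))))) (.c k160 (.q k105 [(.s k40 k235 8 (.s k60 k20
  5 (.s k65 k125 5 (.d k195 k130 k150 8 14)))), (.s k65 k125 5 (.s k195 k130 8 (.s k225 k210 4 (.s
  k165 k45 9 (.s k5 k245 11 (.d k15 k10 k90 2 14)))))), (.s k40 k235 8 (.s k60 k20 5 (.s k120 k180 9
  (.s k90 k75 4 (.s k10 k250 11 (.d k15 k5 k165 2 14))))))] (.c k60 (.q k4 [(.s k12 k8 1 (.s k166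
  k247 12 (.s k162 k174 1 (.d k243 k81 k89 12 14)))), (.s k8 k12 1 (.s k40 k235 8 (.s k56 k24 3 (.s
  k154 k203 12 (.s k186 k138 3 (.d k251 k121 k89 8 12)))))), (.s k40 k235 8 (.s k166 k247 12 (.s k44
  k227 10 (.s k32 k36 1 (.s k174 k162 1 (.d k239 k109 k101 8 10))))))] (.c k125 (.q k190 [(.s k12 k8
  1 (.s k166 k247 12 (.s k162 k174 1 (.d k243 k81 k89 12 14)))), (.s k12 k8 1 (.s k130 k150 5 (.s
  k195 k65 8 (.s k134 k73 10 (.s k69 k199 8 (.d k138 k142 k207 1 10)))))), (.s k40 k235 8 (.s k150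
  k130 5 (.s k166 k247 12 (.s k44 k227 10 (.s k36 k32 1 (.d k20 k215 k52 8 3))))))] .n) (.c k174 (.l
  (.s k12 k8 1 (.s k164 k88 13 (.s k166 k247 12 (.s k165 k167 0 (.s k5 k245 11 (.d k15 k10 k90 2
  14))))))) (.c k190 (.l (.s k125 k65 5 (.s k12 k8 1 (.s k166 k247 12 (.s k162 k174 1 (.d k243 k81
  k89 12 14)))))) (.c k251 (.l (.s k12 k8 1 (.s k166 k247 12 (.s k243 k89 14 (.d k162 k174 k81 1
  12))))) .n))))) (.c k195 (.q k138 [(.s k207 k69 10 (.s k154 k186 3 (.s k48 k101 14 (.d k16 k32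
  k223 3 10)))), (.s k65 k125 5 (.s k69 k207 10 (.s k73 k77 1 (.s k89 k121 3 (.d k8 k203 k251 8
  12))))), (.s k154 k186 3 (.s k203 k56 12 (.s k8 k73 8 (.s k235 k40 8 (.d k251 k219 k89 3 12)))))]
  (.c k117 (.l (.s k207 k69 10 (.s k154 k186 3 (.s k48 k101 14 (.d k16 k32 k223 3 10))))) (.c k215
  (.l (.s k235 k40 8 (.s k154 k186 3 (.s k16 k223 10 (.s k48 k32 3 (.d k207 k69 k101 10 14)))))) (.c
  k235 (.q k215 [(.s k207 k69 10 (.s k154 k186 3 (.s k48 k101 14 (.d k16 k32 k223 3 10)))), (.s k20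
  k150 8 (.s k60 k40 5 (.s k120 k180 9 (.s k90 k75 4 (.s k10 k250 11 (.d k15 k165 k5 14 2))))))] .n)
  .n)))) .n))) (.c k165 (.q k4 [(.s k12 k8 1 (.s k166 k247 12 (.s k162 k174 1 (.d k243 k81 k89 12
  14)))), (.s k12 k8 1 (.s k160 k80 11 (.s k164 k88 13 (.s k84 k244 11 (.d k168 k172 k252 1 13))))),
  (.s k80 k160 11 (.s k90 k95 2 (.s k166 k247 12 (.s k242 k14 13 (.s k243 k241 0 (.d k162 k174 k81 1
  12))))))] .n) (.c k175 (.l (.s k80 k160 11 (.s k90 k95 2 (.s k15 k165 14 (.d k10 k5 k250 2 11)))))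
  (.c k250 (.l (.s k160 k80 11 (.s k165 k175 2 (.s k5 k245 11 (.d k15 k10 k90 2 14)))))
  .n))))))))))))

def t2_30 : T TT 256 :=
  (.f k170 k255 14 (.q k12 [(.s k4 k8 1 (.s k166 k247 12 (.s k162 k174 1 (.d k243 k81 k89 12 14))))]
  (.c k4 (.q k34 [(.s k51 k17 4 (.s k102 k238 9 (.s k68 k119 4 (.d k204 k136 k153 9 14)))), (.s k51
  k17 4 (.s k38 k25 6 (.s k42 k46 1 (.s k106 k234 7 (.s k64 k127 6 (.s k192 k128 7 (.d k63 k21 k149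
  6 14)))))))] (.c k17 (.l (.s k102 k238 9 (.s k68 k119 4 (.s k204 k136 9 (.s k76 k140 7 (.s k89
  k115 6 (.s k81 k93 1 (.d k243 k162 k166 12 14)))))))) (.c k51 (.f k102 k238 9 (.q k204 [(.d k68
  k119 k136 4 9), (.s k76 k140 7 (.s k89 k115 6 (.s k81 k93 1 (.d k243 k162 k166 12 14))))] (.c k119
  (.q k187 [(.d k136 k153 k68 4 9), (.s k76 k140 7 (.s k89 k115 6 (.s k81 k93 1 (.d k243 k162 k166
  12 14))))] .n) (.c k187 (.l (.s k119 k68 4 (.s k76 k140 7 (.s k89 k115 6 (.s k81 k93 1 (.d k243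
  k162 k166 12 14)))))) .n)))) .n))) (.c k8 (.q k65 [(.s k105 k125 5 (.s k40 k235 8 (.s k60 k20 5
  (.d k195 k130 k150 8 14)))), (.s k195 k130 8 (.s k73 k134 10 (.s k69 k77 1 (.s k101 k117 3 (.s k32
  k239 10 (.s k48 k16 3 (.d k207 k138 k154 10 14)))))))] (.c k130 (.l (.s k105 k125 5 (.s k40 k235 8
  (.s k60 k20 5 (.s k44 k28 3 (.s k166 k227 10 (.s k162 k174 1 (.d k243 k81 k89 12 14)))))))) (.c
  k195 (.f k105 k125 5 (.q k60 [(.d k40 k235 k20 8 5), (.s k44 k28 3 (.s k166 k227 10 (.s k162 k174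
  1 (.d k243 k81 k89 12 14))))] (.c k215 (.l (.s k235 k40 8 (.s k44 k28 3 (.s k166 k227 10 (.s k162
  k174 1 (.d k243 k81 k89 12 14)))))) (.c k235 (.q k215 [(.d k20 k40 k150 5 8), (.s k44 k28 3 (.s
  k166 k227 10 (.s k162 k174 1 (.d k243 k81 k89 12 14))))] .n) .n)))) .n))) (.c k81 (.q k5 [(.s k15
  k10 2 (.s k165 k245 11 (.s k160 k175 2 (.d k240 k80 k90 11 14)))), (.s k4 k8 1 (.s k6 k7 0 (.s k9
  k3 2 (.s k13 k1 1 (.d k15 k14 k10 0 2))))), (.s k4 k8 1 (.s k165 k245 11 (.s k160 k175 2 (.s k166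
  k247 12 (.s k164 k167 0 (.d k240 k80 k88 11 13))))))] (.c k15 (.l (.s k4 k8 1 (.s k7 k6 0 (.s k165
  k245 11 (.s k86 k244 12 (.s k87 k84 0 (.d k247 k167 k166 11 12))))))) .n)) (.c k89 (.q k5 [(.s
  k165 k245 11 (.s k160 k175 2 (.s k240 k80 11 (.d k15 k10 k90 2 14)))), (.s k4 k8 1 (.s k6 k7 0 (.s
  k9 k3 2 (.s k13 k1 1 (.d k15 k14 k10 0 2)))))] (.c k10 (.l (.s k4 k8 1 (.s k165 k245 11 (.s k160
  k175 2 (.s k166 k247 12 (.s k164 k167 0 (.d k240 k80 k88 11 13))))))) (.c k15 (.l (.s k4 k8 1 (.s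
  k7 k6 0 (.s k165 k245 11 (.s k86 k244 12 (.s k87 k84 0 (.d k247 k167 k166 11 12))))))) .n))) (.c
  k162 (.f k4 k8 1 (.q k134 [(.s k69 k199 8 (.s k73 k195 10 (.s k77 k65 1 (.d k207 k142 k138 8
  10)))), (.s k166 k247 12 (.s k150 k182 3 (.s k130 k190 5 (.d k195 k65 k73 8 10)))), (.s k69 k199 8
  (.s k101 k117 3 (.s k32 k239 10 (.s k48 k16 3 (.d k207 k138 k154 10 14)))))] (.c k82 (.q k242 [(.s
  k69 k199 8 (.s k73 k195 10 (.s k77 k65 1 (.d k207 k142 k138 8 10)))), (.s k166 k247 12 (.s k150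
  k182 3 (.s k130 k190 5 (.d k195 k65 k73 8 10)))), (.s k69 k199 8 (.s k101 k117 3 (.s k32 k239 10
  (.s k48 k16 3 (.d k207 k138 k154 10 14)))))] .n) (.c k242 (.q k82 [(.s k69 k199 8 (.s k73 k195 10
  (.s k77 k65 1 (.d k207 k142 k138 8 10)))), (.s k166 k247 12 (.s k150 k182 3 (.s k130 k190 5 (.d
  k195 k65 k73 8 10)))), (.s k69 k199 8 (.s k101 k117 3 (.s k32 k239 10 (.s k48 k16 3 (.d k207 k138
  k154 10 14)))))] .n) .n)))) (.c k166 (.q k5 [(.s k165 k245 11 (.s k160 k175 2 (.s k240 k80 11 (.d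
  k15 k10 k90 2 14)))), (.s k4 k8 1 (.s k6 k7 0 (.s k9 k3 2 (.s k13 k1 1 (.d k15 k14 k10 0 2))))),
  (.s k8 k4 1 (.s k89 k251 12 (.s k93 k81 1 (.s k165 k245 11 (.s k13 k241 13 (.s k1 k9 1 (.d k253
  k173 k169 11 13)))))))] .n) (.c k174 (.l (.s k8 k4 1 (.s k89 k251 12 (.s k81 k93 1 (.d k243 k162
  k166 12 14))))) (.c k243 (.f k4 k8 1 (.q k5 [(.s k165 k245 11 (.s k160 k175 2 (.s k240 k80 11 (.d
  k15 k10 k90 2 14)))), (.s k6 k7 0 (.s k9 k3 2 (.s k13 k1 1 (.d k15 k14 k10 0 2))))] (.c k10 (.l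
  (.s k165 k245 11 (.s k160 k175 2 (.s k240 k80 11 (.s k164 k88 13 (.d k166 k167 k247 0 12)))))) (.c
  k15 (.l (.s k7 k6 0 (.s k165 k245 11 (.s k86 k244 12 (.s k87 k84 0 (.d k247 k167 k166 11 12))))))
  (.c k247 (.q k251 [(.s k165 k245 11 (.s k160 k175 2 (.s k240 k80 11 (.d k15 k10 k90 2 14)))), (.s
  k6 k7 0 (.s k9 k3 2 (.s k13 k1 1 (.d k15 k14 k10 0 2))))] (.c k10 (.l (.s k165 k245 11 (.s k160
  k175 2 (.s k240 k80 11 (.s k164 k88 13 (.s k168 k172 1 (.d k84 k244 k252 11 13))))))) (.c k15 (.l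
  (.s k7 k6 0 (.s k165 k245 11 (.s k244 k86 12 (.s k164 k84 11 (.s k240 k88 13 (.d k160 k80 k175 11
  2))))))) .n))) (.c k251 (.l (.s k247 k166 12 (.s k6 k7 0 (.s k9 k3 2 (.s k13 k1 1 (.d k15 k14 k10
  0 2)))))) .n)))))) (.c k247 (.l (.s k8 k4 1 (.s k89 k251 12 (.s k243 k166 14 (.d k81 k93 k162 1
  12))))) (.c k251 (.l (.s k4 k8 1 (.s k166 k247 12 (.s k243 k89 14 (.d k162 k174 k81 1 12)))))
  .n))))))))))))

def t2_31 : T TT 256 :=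
  (.f k170 k255 14 (.q k240 [(.s k160 k80 11 (.s k165 k175 2 (.s k5 k245 11 (.d k15 k10 k90 2
  14))))] (.c k5 (.q k4 [(.s k12 k8 1 (.s k166 k247 12 (.s k162 k174 1 (.d k243 k81 k89 12 14)))),
  (.s k12 k8 1 (.s k160 k80 11 (.s k164 k88 13 (.s k84 k244 11 (.d k168 k172 k252 1 13))))), (.s k80
  k160 11 (.s k90 k95 2 (.s k166 k247 12 (.s k242 k14 13 (.s k243 k241 0 (.d k162 k174 k81 1
  12))))))] .n) (.c k10 (.f k80 k160 11 (.q k208 [(.s k192 k224 3 (.s k64 k128 7 (.s k96 k112 3 (.d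
  k144 k16 k48 7 11)))), (.s k90 k95 2 (.s k15 k165 14 (.s k192 k224 3 (.s k74 k133 10 (.s k106 k122
  3 (.s k42 k234 7 (.d k63 k149 k21 14 6))))))), (.s k16 k144 7 (.s k154 k223 10 (.s k138 k186 3 (.s
  k207 k69 10 (.d k48 k32 k101 3 14)))))] (.c k6 (.q k14 [(.s k192 k224 3 (.s k64 k128 7 (.s k96
  k112 3 (.d k144 k16 k48 7 11)))), (.s k90 k95 2 (.s k15 k165 14 (.s k12 k13 0 (.s k4 k8 1 (.d k166
  k247 k242 12 13)))))] .n) (.c k14 (.q k6 [(.s k192 k224 3 (.s k64 k128 7 (.s k96 k112 3 (.d k144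
  k16 k48 7 11)))), (.s k90 k95 2 (.s k15 k165 14 (.s k192 k224 3 (.s k74 k133 10 (.s k106 k122 3
  (.s k42 k234 7 (.d k63 k149 k21 14 6))))))), (.s k16 k144 7 (.s k154 k223 10 (.s k138 k186 3 (.s
  k207 k69 10 (.d k48 k32 k101 3 14)))))] (.c k32 (.l (.s k144 k16 7 (.s k192 k224 3 (.s k96 k48 11
  (.d k64 k112 k128 3 7))))) .n)) (.c k32 (.l (.s k144 k16 7 (.s k192 k224 3 (.s k96 k48 11 (.d k64
  k112 k128 3 7))))) .n))))) (.c k15 (.f k160 k80 11 (.f k175 k165 2 (.q k224 [(.s k96 k32 7 (.s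
  k192 k208 3 (.s k128 k64 7 (.d k144 k176 k48 3 11)))), (.s k32 k96 7 (.s k101 k239 10 (.s k69 k117
  3 (.s k207 k138 10 (.d k48 k16 k154 3 14))))), (.s k192 k208 3 (.s k64 k128 7 (.s k106 k127 6 (.s
  k42 k234 7 (.d k63 k149 k21 14 6)))))] (.c k16 (.l (.s k96 k32 7 (.s k192 k208 3 (.s k144 k48 11
  (.d k128 k176 k64 3 7))))) (.c k47 (.q k63 [(.s k192 k208 3 (.s k64 k128 7 (.d k106 k149 k127 14
  6))), (.s k32 k96 7 (.s k42 k21 6 (.s k234 k106 7 (.d k239 k101 k229 10 2)))), (.s k21 k42 6 (.s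
  k149 k213 7 (.d k192 k208 k106 3 14)))] (.c k106 (.l (.s k21 k42 6 (.s k149 k213 7 (.s k128 k191 6
  (.d k192 k208 k64 3 7))))) .n)) (.c k63 (.q k47 [(.s k32 k96 7 (.d k239 k111 k101 7 10)), (.s k96
  k32 7 (.s k192 k208 3 (.s k128 k64 7 (.d k144 k176 k48 3 11)))), (.s k192 k208 3 (.s k64 k128 7
  (.s k239 k111 7 (.s k234 k229 2 (.d k106 k127 k42 6 7)))))] (.c k64 (.l (.s k239 k111 7 (.d k32
  k96 k101 7 10))) (.c k127 (.q k191 [(.s k32 k96 7 (.d k239 k111 k101 7 10)), (.s k128 k149 6 (.d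
  k192 k208 k64 3 7))] (.c k64 (.l (.s k239 k111 7 (.d k32 k96 k101 7 10))) .n)) (.c k191 (.q k127
  [(.s k64 k106 6 (.d k192 k208 k128 3 7)), (.s k239 k111 7 (.d k32 k96 k101 7 10))] .n) .n)))) (.c
  k64 (.l (.s k96 k32 7 (.s k192 k208 3 (.s k144 k48 11 (.s k128 k176 3 (.s k149 k191 6 (.s k21 k213
  7 (.d k63 k42 k106 6 14)))))))) .n))))))) (.c k80 (.q k252 [(.s k84 k168 13 (.s k86 k87 0 (.s k244
  k248 1 (.s k165 k7 12 (.s k5 k245 11 (.d k15 k10 k90 2 14)))))), (.s k84 k168 13 (.s k244 k248 1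
  (.s k4 k164 11 (.s k166 k247 12 (.s k162 k174 1 (.s k243 k81 12 (.d k12 k8 k89 1 14))))))), (.s
  k84 k168 13 (.s k86 k87 0 (.s k3 k169 14 (.s k82 k161 12 (.s k90 k94 1 (.s k10 k250 11 (.d k15
  k165 k5 14 2)))))))] (.c k84 (.f k248 k244 1 (.q k88 [(.s k8 k168 11 (.d k12 k4 k164 1 13))] (.c
  k4 (.l (.s k164 k12 13 (.s k8 k168 11 (.s k89 k251 12 (.s k90 k91 0 (.s k10 k250 11 (.d k11 k9
  k169 0 12))))))) (.c k8 (.q k104 [(.s k120 k72 3 (.s k60 k180 9 (.s k40 k20 5 (.s k232 k168 7 (.d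
  k192 k212 k148 5 13))))), (.s k120 k72 3 (.s k60 k180 9 (.s k124 k188 7 (.s k116 k112 1 (.d k184
  k56 k48 7 9))))), (.s k164 k12 13 (.s k224 k44 9 (.s k192 k208 3 (.s k232 k212 5 (.s k40 k168 7
  (.d k60 k20 k148 5 13))))))] (.c k4 (.l (.s k164 k12 13 (.s k120 k72 3 (.s k60 k180 9 (.s k192
  k148 13 (.d k224 k208 k44 3 9)))))) (.c k60 (.l (.s k120 k72 3 (.s k56 k184 7 (.s k164 k12 13 (.s
  k200 k152 11 (.s k232 k216 3 (.s k192 k212 5 (.d k224 k208 k44 3 9)))))))) (.c k164 (.q k4 [(.s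
  k120 k72 3 (.s k56 k184 7 (.s k60 k180 9 (.s k20 k40 5 (.d k52 k48 k36 1 3))))), (.s k166 k247 12
  (.s k162 k174 1 (.s k243 k81 12 (.s k242 k241 0 (.s k90 k14 13 (.d k89 k12 k91 14 0))))))] .n)
  .n)))) (.c k12 (.l (.s k8 k168 11 (.s k89 k251 12 (.s k90 k91 0 (.s k10 k250 11 (.d k11 k9 k169 0
  12)))))) (.c k164 (.q k4 [(.d k8 k12 k168 1 11), (.s k166 k247 12 (.s k162 k174 1 (.s k243 k81 12
  (.s k242 k241 0 (.s k90 k14 13 (.d k89 k12 k91 14 0))))))] (.c k12 (.l (.s k8 k168 11 (.s k89 k251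
  12 (.s k90 k91 0 (.s k10 k250 11 (.d k11 k9 k169 0 12)))))) .n)) (.c k168 (.l (.s k12 k164 13 (.s
  k4 k8 1 (.s k166 k247 12 (.s k162 k174 1 (.d k243 k81 k89 12 14)))))) .n))))))) (.c k168 (.q k4
  [(.s k244 k248 1 (.s k164 k84 11 (.d k12 k8 k88 1 13))), (.s k166 k247 12 (.s k162 k174 1 (.s k243
  k81 12 (.s k242 k241 0 (.s k90 k14 13 (.s k10 k250 11 (.d k15 k5 k165 2 14)))))))] (.c k12 (.l (.s
  k166 k247 12 (.s k244 k248 1 (.s k84 k164 11 (.s k86 k87 0 (.s k6 k246 11 (.d k7 k5 k165 0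
  12))))))) .n)) .n))) (.c k90 (.q k149 [(.s k21 k213 7 (.s k128 k191 6 (.s k192 k64 7 (.d k63 k42
  k106 6 14)))), (.s k21 k213 7 (.s k160 k80 11 (.s k165 k175 2 (.s k5 k245 11 (.s k53 k37 3 (.s
  k133 k181 3 (.d k197 k69 k101 7 11))))))), (.s k128 k191 6 (.s k160 k80 11 (.s k144 k176 3 (.s
  k192 k64 7 (.s k96 k48 11 (.d k224 k208 k32 3 7))))))] (.c k192 (.l (.s k160 k80 11 (.s k165 k175
  2 (.s k181 k133 3 (.s k63 k122 10 (.d k21 k42 k213 6 7)))))) .n)) (.c k95 (.l (.s k160 k80 11 (.s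
  k165 k175 2 (.s k15 k90 14 (.d k5 k10 k245 2 11))))) (.c k160 (.q k106 [(.s k42 k234 7 (.s k63 k21
  6 (.s k64 k127 6 (.d k192 k128 k149 7 14)))), (.s k64 k127 6 (.s k192 k128 7 (.s k224 k208 3 (.s
  k165 k47 10 (.s k5 k245 11 (.d k15 k90 k10 14 2)))))), (.s k42 k234 7 (.s k63 k21 6 (.s k122 k181
  10 (.s k90 k74 3 (.s k10 k250 11 (.d k15 k5 k165 2 14))))))] (.c k63 (.f k127 k64 6 (.q k165 [(.s
  k5 k245 11 (.d k15 k10 k90 2 14)), (.s k47 k224 10 (.s k42 k234 7 (.s k32 k37 2 (.s k48 k16 3 (.s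
  k112 k176 7 (.s k117 k122 2 (.d k101 k239 k69 10 3)))))))] (.c k15 (.l (.s k47 k224 10 (.s k42
  k234 7 (.s k32 k37 2 (.s k48 k16 3 (.s k112 k176 7 (.s k117 k122 2 (.d k101 k239 k69 10 3))))))))
  (.c k47 (.l (.s k15 k90 14 (.d k5 k10 k245 2 11))) .n)))) (.c k192 (.q k112 [(.s k127 k64 6 (.s
  k122 k117 2 (.s k63 k181 10 (.d k42 k234 k21 7 6)))), (.s k48 k176 7 (.s k16 k32 3 (.s k154 k223
  10 (.s k207 k101 14 (.d k138 k186 k69 3 10))))), (.s k64 k127 6 (.s k96 k80 3 (.s k101 k111 2 (.s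
  k79 k90 6 (.d k69 k74 k117 2 3)))))] (.c k213 (.l (.s k234 k42 7 (.s k48 k176 7 (.s k16 k32 3 (.s
  k154 k223 10 (.s k138 k186 3 (.d k207 k69 k101 10 14))))))) (.c k234 (.q k213 [(.s k21 k149 7 (.s
  k127 k64 6 (.s k122 k117 2 (.d k63 k42 k181 6 10)))), (.s k48 k176 7 (.s k16 k32 3 (.s k154 k223
  10 (.s k207 k101 14 (.d k138 k186 k69 3 10))))), (.s k21 k149 7 (.s k63 k42 6 (.s k122 k181 10 (.d
  k127 k117 k64 2 6))))] .n) .n))) .n))) (.c k165 (.q k4 [(.s k12 k8 1 (.s k166 k247 12 (.s k162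
  k174 1 (.d k243 k81 k89 12 14)))), (.s k12 k8 1 (.s k160 k80 11 (.s k164 k88 13 (.s k84 k244 11
  (.d k168 k172 k252 1 13))))), (.s k80 k160 11 (.s k90 k95 2 (.s k166 k247 12 (.s k242 k14 13 (.s
  k243 k241 0 (.d k162 k174 k81 1 12))))))] .n) (.c k175 (.l (.s k80 k160 11 (.s k90 k95 2 (.s k15
  k165 14 (.d k10 k5 k250 2 11))))) (.c k245 (.l (.s k80 k160 11 (.s k90 k95 2 (.s k10 k250 11 (.d
  k15 k5 k165 2 14))))) .n))))))))))))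

def t2_40 : T TT 256 :=
  (.f k170 k255 14 (.q k240 [(.s k80 k160 11 (.s k90 k95 2 (.s k10 k250 11 (.d k15 k5 k165 2 14))))]
  (.c k5 (.q k4 [(.s k166 k247 12 (.s k162 k174 1 (.s k243 k81 12 (.d k12 k8 k89 1 14)))), (.s k12
  k8 1 (.s k160 k80 11 (.s k164 k88 13 (.s k84 k244 11 (.d k168 k172 k252 1 13))))), (.s k80 k160 11
  (.s k90 k95 2 (.s k166 k247 12 (.s k242 k14 13 (.s k243 k241 0 (.d k162 k174 k81 1 12))))))] .n)
  (.c k10 (.f k160 k80 11 (.f k175 k165 2 (.q k192 [(.s k64 k128 7 (.s k106 k127 6 (.s k42 k234 7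
  (.d k63 k21 k149 6 14)))), (.s k224 k208 3 (.s k32 k96 7 (.s k101 k239 10 (.s k69 k117 3 (.s k207
  k138 10 (.d k48 k16 k154 3 14))))))] (.c k6 (.q k14 [(.s k64 k128 7 (.s k106 k127 6 (.s k42 k234 7
  (.d k63 k21 k149 6 14)))), (.s k224 k208 3 (.s k32 k96 7 (.s k101 k239 10 (.s k69 k117 3 (.s k207
  k138 10 (.d k48 k16 k154 3 14))))))] (.c k64 (.l (.s k224 k208 3 (.s k96 k32 7 (.s k144 k48 11 (.s
  k128 k176 3 (.s k149 k191 6 (.s k21 k213 7 (.d k63 k42 k106 6 14)))))))) .n)) (.c k14 (.q k6 [(.s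
  k64 k128 7 (.s k106 k127 6 (.s k42 k234 7 (.d k63 k21 k149 6 14)))), (.s k224 k208 3 (.s k32 k96 7
  (.s k101 k239 10 (.s k69 k117 3 (.s k207 k138 10 (.d k48 k16 k154 3 14))))))] (.c k64 (.l (.s k224
  k208 3 (.s k96 k32 7 (.s k144 k48 11 (.s k128 k176 3 (.s k149 k191 6 (.s k21 k213 7 (.d k63 k42
  k106 6 14)))))))) .n)) (.c k64 (.l (.s k224 k208 3 (.s k96 k32 7 (.s k144 k48 11 (.s k128 k176 3
  (.s k149 k191 6 (.s k21 k213 7 (.d k63 k42 k106 6 14)))))))) .n)))))) (.c k15 (.f k80 k160 11 (.q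
  k208 [(.s k144 k16 7 (.s k192 k224 3 (.s k64 k128 7 (.d k96 k112 k48 3 11)))), (.s k16 k144 7 (.s
  k154 k223 10 (.s k138 k186 3 (.s k207 k69 10 (.d k48 k32 k101 3 14))))), (.s k192 k224 3 (.s k128
  k64 7 (.s k149 k191 6 (.d k90 k95 k31 2 10))))] (.c k32 (.l (.s k144 k16 7 (.s k192 k224 3 (.s k96
  k48 11 (.d k64 k112 k128 3 7))))) (.c k95 (.q k175 [(.s k144 k16 7 (.s k192 k224 3 (.s k64 k128 7
  (.d k96 k112 k48 3 11)))), (.s k16 k144 7 (.s k154 k223 10 (.s k138 k186 3 (.s k207 k69 10 (.d k48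
  k32 k101 3 14))))), (.s k192 k224 3 (.s k128 k64 7 (.s k149 k191 6 (.s k21 k213 7 (.d k63 k42 k106
  6 14)))))] (.c k32 (.l (.s k144 k16 7 (.s k192 k224 3 (.s k96 k48 11 (.d k64 k112 k128 3 7)))))
  (.c k128 (.l (.s k144 k16 7 (.s k192 k224 3 (.s k96 k48 11 (.s k64 k112 3 (.s k106 k127 6 (.s k42
  k234 7 (.d k63 k21 k149 6 14)))))))) .n))) (.c k128 (.l (.s k144 k16 7 (.s k192 k224 3 (.s k96 k48
  11 (.s k64 k112 3 (.s k106 k127 6 (.s k42 k234 7 (.d k63 k21 k149 6 14)))))))) (.c k175 (.l (.s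
  k95 k90 2 (.s k144 k16 7 (.s k192 k224 3 (.s k64 k128 7 (.d k96 k112 k48 3 11)))))) .n)))))) (.c
  k80 (.q k149 [(.s k21 k213 7 (.s k128 k191 6 (.s k192 k64 7 (.d k63 k42 k106 6 14)))), (.s k21
  k213 7 (.s k63 k42 6 (.s k181 k122 10 (.s k165 k133 3 (.s k5 k245 11 (.d k15 k10 k90 2 14)))))),
  (.s k128 k191 6 (.s k192 k64 7 (.s k208 k224 3 (.s k90 k31 10 (.s k10 k250 11 (.d k15 k5 k165 2
  14))))))] (.c k63 (.q k186 [(.s k154 k138 3 (.s k191 k128 6 (.s k176 k181 2 (.s k143 k165 6 (.d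
  k159 k144 k175 2 3))))), (.s k191 k128 6 (.s k176 k181 2 (.s k48 k112 7 (.s k16 k32 3 (.d k154
  k138 k223 3 10))))), (.s k154 k138 3 (.s k159 k144 2 (.s k213 k21 7 (.s k223 k16 10 (.s k208 k218
  2 (.d k31 k95 k90 7 10))))))] (.c k127 (.l (.s k191 k128 6 (.s k154 k138 3 (.s k16 k223 10 (.s k48
  k32 3 (.d k176 k181 k112 2 7)))))) (.c k138 (.l (.s k191 k128 6 (.s k176 k181 2 (.s k48 k112 7 (.s
  k16 k32 3 (.s k154 k223 10 (.s k143 k165 6 (.d k159 k144 k175 2 3)))))))) (.c k154 (.l (.s k191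
  k128 6 (.s k181 k176 2 (.s k165 k133 3 (.s k5 k245 11 (.d k15 k10 k90 2 14)))))) (.c k191 (.q k127
  [(.s k64 k106 6 (.s k192 k128 7 (.s k208 k224 3 (.s k90 k31 10 (.s k10 k250 11 (.d k15 k165 k5 14
  2)))))), (.s k154 k138 3 (.s k16 k223 10 (.s k48 k32 3 (.s k112 k176 7 (.s k117 k122 2 (.d k101
  k207 k69 14 3))))))] .n) .n))))) (.c k192 (.q k130 [(.s k150 k190 5 (.s k151 k148 0 (.s k195 k65 8
  (.s k63 k107 13 (.d k21 k213 k42 7 6))))), (.s k65 k195 8 (.s k128 k191 6 (.s k129 k131 0 (.s k169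
  k189 5 (.d k1 k193 k253 7 13))))), (.s k128 k191 6 (.s k131 k129 0 (.s k150 k190 5 (.s k148 k151 0
  (.d k188 k168 k169 5 6))))), (.s k65 k195 8 (.s k105 k125 5 (.s k193 k61 13 (.s k129 k1 7 (.d k128
  k131 k191 0 6)))))] (.c k190 (.l (.s k65 k195 8 (.s k128 k191 6 (.s k129 k131 0 (.s k193 k1 7 (.d
  k105 k125 k61 5 13)))))) (.c k213 (.q k234 [(.s k42 k106 7 (.s k63 k21 6 (.s k195 k65 8 (.s k151
  k107 13 (.d k150 k148 k190 0 5))))), (.s k65 k195 8 (.s k105 k125 5 (.s k193 k61 13 (.s k129 k1 7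
  (.d k128 k131 k191 0 6))))), (.s k128 k191 6 (.s k131 k129 0 (.s k150 k190 5 (.s k148 k151 0 (.d
  k188 k168 k169 5 6)))))] (.c k190 (.l (.s k65 k195 8 (.s k128 k191 6 (.s k129 k131 0 (.s k193 k1 7
  (.d k105 k125 k61 5 13)))))) .n)) (.c k234 (.l (.s k213 k21 7 (.s k65 k195 8 (.s k105 k125 5 (.s
  k128 k191 6 (.s k129 k131 0 (.d k193 k1 k61 7 13))))))) .n)))) .n))) (.c k90 (.q k4 [(.s k166 k247
  12 (.s k162 k174 1 (.s k243 k81 12 (.d k12 k8 k89 1 14)))), (.s k12 k8 1 (.s k160 k80 11 (.s k164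
  k88 13 (.s k84 k244 11 (.d k168 k172 k252 1 13))))), (.s k160 k80 11 (.s k165 k175 2 (.s k166 k247
  12 (.s k164 k167 0 (.s k84 k244 11 (.d k168 k172 k252 1 13))))))] .n) (.c k95 (.l (.s k160 k80 11
  (.s k165 k175 2 (.s k15 k90 14 (.d k5 k10 k245 2 11))))) (.c k160 (.q k153 [(.s k17 k221 9 (.s
  k136 k187 4 (.s k204 k68 9 (.d k51 k34 k102 4 14)))), (.s k136 k187 4 (.s k204 k68 9 (.s k216 k228
  5 (.s k90 k27 8 (.s k10 k250 11 (.d k15 k5 k165 2 14)))))), (.s k17 k221 9 (.s k51 k34 4 (.s k177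
  k114 8 (.s k165 k141 5 (.s k5 k245 11 (.d k15 k10 k90 2 14))))))] (.c k51 (.q k154 [(.s k16 k223
  10 (.s k138 k186 3 (.s k207 k69 10 (.d k48 k32 k101 3 14)))), (.s k155 k152 0 (.s k186 k138 3 (.s
  k187 k136 4 (.s k139 k171 3 (.d k184 k185 k169 0 4))))), (.s k16 k223 10 (.s k17 k221 9 (.s k19
  k18 0 (.s k152 k155 0 (.d k220 k84 k86 9 10)))))] (.c k119 (.l (.s k187 k136 4 (.s k16 k223 10 (.s
  k48 k32 3 (.s k138 k186 3 (.d k207 k69 k101 10 14)))))) (.c k187 (.q k119 [(.s k16 k223 10 (.s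
  k138 k186 3 (.s k207 k69 10 (.d k48 k32 k101 3 14)))), (.s k155 k152 0 (.s k221 k17 9 (.s k223 k16
  10 (.s k19 k87 9 (.d k220 k222 k86 0 10))))), (.s k68 k102 4 (.s k136 k204 9 (.s k138 k186 3 (.s
  k139 k137 0 (.s k152 k155 0 (.d k184 k168 k169 3 4))))))] .n) .n))) (.c k204 (.q k138 [(.s k207
  k69 10 (.s k154 k186 3 (.s k48 k101 14 (.d k16 k32 k223 3 10)))), (.s k69 k207 10 (.s k136 k187 4
  (.s k137 k139 0 (.s k169 k185 3 (.d k1 k205 k253 9 13))))), (.s k136 k187 4 (.s k139 k137 0 (.s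
  k154 k186 3 (.s k152 k155 0 (.d k184 k168 k169 3 4)))))] (.c k186 (.l (.s k69 k207 10 (.s k136
  k187 4 (.s k137 k139 0 (.s k205 k1 9 (.d k101 k117 k49 3 13)))))) (.c k221 (.q k238 [(.s k207 k69
  10 (.s k154 k186 3 (.s k48 k101 14 (.d k16 k32 k223 3 10)))), (.s k136 k187 4 (.s k139 k137 0 (.s
  k154 k186 3 (.s k152 k155 0 (.d k184 k168 k169 3 4))))), (.s k69 k207 10 (.s k136 k187 4 (.s k137
  k139 0 (.s k205 k1 9 (.d k101 k117 k49 3 13)))))] (.c k117 (.l (.s k207 k69 10 (.s k154 k186 3 (.s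
  k48 k101 14 (.d k16 k32 k223 3 10))))) .n)) (.c k238 (.l (.s k221 k17 9 (.s k154 k186 3 (.s k16
  k223 10 (.s k48 k32 3 (.d k207 k69 k101 10 14)))))) .n)))) .n))) (.c k165 (.q k4 [(.s k166 k247 12
  (.s k162 k174 1 (.s k243 k81 12 (.d k12 k8 k89 1 14)))), (.s k12 k8 1 (.s k160 k80 11 (.s k164 k88
  13 (.s k84 k244 11 (.d k168 k172 k252 1 13))))), (.s k80 k160 11 (.s k90 k95 2 (.s k166 k247 12
  (.s k242 k14 13 (.s k243 k241 0 (.d k162 k174 k81 1 12))))))] .n) (.c k175 (.l (.s k80 k160 11 (.s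
  k90 k95 2 (.s k15 k165 14 (.d k10 k5 k250 2 11))))) (.c k250 (.l (.s k160 k80 11 (.s k165 k175 2
  (.s k5 k245 11 (.d k15 k10 k90 2 14))))) .n))))))))))))

def t2_41 : T TT 256 :=
  (.f k170 k255 14 (.q k240 [(.s k80 k160 11 (.s k90 k95 2 (.s k10 k250 11 (.d k15 k5 k165 2 14))))]
  (.c k5 (.q k4 [(.s k12 k8 1 (.s k166 k247 12 (.s k162 k174 1 (.d k243 k81 k89 12 14)))), (.s k12
  k8 1 (.s k160 k80 11 (.s k164 k88 13 (.s k84 k244 11 (.d k168 k172 k252 1 13))))), (.s k80 k160 11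
  (.s k90 k95 2 (.s k166 k247 12 (.s k242 k14 13 (.s k243 k241 0 (.d k162 k174 k81 1 12))))))] .n)
  (.c k10 (.f k160 k80 11 (.f k175 k165 2 (.q k166 [(.s k4 k247 12 (.s k12 k8 1 (.s k162 k174 1 (.d
  k243 k81 k89 12 14)))), (.s k174 k162 1 (.s k172 k173 0 (.s k168 k164 1 (.d k169 k171 k163 0
  2)))), (.s k4 k247 12 (.s k12 k8 1 (.s k164 k88 13 (.s k84 k244 11 (.d k168 k172 k252 1 13)))))]
  (.c k6 (.q k14 [(.s k162 k174 1 (.s k242 k90 13 (.d k243 k241 k81 0 12))), (.s k162 k174 1 (.s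
  k163 k161 0 (.s k169 k172 2 (.d k171 k168 k167 0 1)))), (.s k4 k247 12 (.s k12 k8 1 (.s k242 k90
  13 (.d k243 k241 k89 0 14))))] (.c k12 (.l (.s k242 k90 13 (.s k243 k241 0 (.d k162 k174 k81 1
  12)))) .n)) (.c k14 (.q k6 [(.s k174 k162 1 (.s k172 k173 0 (.s k168 k164 1 (.d k169 k171 k163 0
  2)))), (.s k4 k247 12 (.s k12 k8 1 (.s k162 k174 1 (.d k243 k81 k89 12 14)))), (.s k4 k247 12 (.s
  k12 k8 1 (.s k86 k246 11 (.s k84 k87 0 (.d k164 k244 k88 11 13)))))] .n) .n))))) (.c k15 (.f k160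
  k80 11 (.q k224 [(.s k96 k32 7 (.s k192 k208 3 (.s k128 k64 7 (.d k144 k176 k48 3 11)))), (.s k32
  k96 7 (.s k101 k239 10 (.s k69 k117 3 (.s k207 k138 10 (.d k48 k16 k154 3 14))))), (.s k192 k208 3
  (.s k64 k128 7 (.s k106 k127 6 (.d k165 k175 k47 2 10))))] (.c k16 (.l (.s k96 k32 7 (.s k192 k208
  3 (.s k144 k48 11 (.d k128 k176 k64 3 7))))) (.c k64 (.l (.s k96 k32 7 (.s k192 k208 3 (.s k144
  k48 11 (.s k128 k176 3 (.s k149 k191 6 (.s k21 k213 7 (.d k63 k42 k106 6 14)))))))) (.c k95 (.l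
  (.s k175 k165 2 (.s k96 k32 7 (.s k192 k208 3 (.s k128 k64 7 (.d k144 k176 k48 3 11)))))) (.c k175
  (.q k95 [(.s k96 k32 7 (.s k192 k208 3 (.s k128 k64 7 (.d k144 k176 k48 3 11)))), (.s k32 k96 7
  (.s k101 k239 10 (.s k69 k117 3 (.s k207 k138 10 (.d k48 k16 k154 3 14))))), (.s k192 k208 3 (.s
  k64 k128 7 (.s k106 k127 6 (.s k42 k234 7 (.d k63 k21 k149 6 14)))))] (.c k16 (.l (.s k96 k32 7
  (.s k192 k208 3 (.s k144 k48 11 (.d k128 k176 k64 3 7))))) (.c k64 (.l (.s k96 k32 7 (.s k192 k208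
  3 (.s k144 k48 11 (.s k128 k176 3 (.s k149 k191 6 (.s k21 k213 7 (.d k63 k42 k106 6 14))))))))
  .n))) .n)))))) (.c k80 (.q k252 [(.s k84 k168 13 (.s k86 k87 0 (.s k244 k248 1 (.s k165 k7 12 (.s
  k5 k245 11 (.d k15 k10 k90 2 14)))))), (.s k84 k168 13 (.s k244 k248 1 (.s k4 k164 11 (.s k166
  k247 12 (.s k162 k174 1 (.s k243 k81 12 (.d k12 k8 k89 1 14))))))), (.s k84 k168 13 (.s k86 k87 0
  (.s k3 k169 14 (.s k82 k161 12 (.s k90 k94 1 (.s k10 k250 11 (.d k15 k165 k5 14 2)))))))] (.c k84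
  (.q k63 [(.s k42 k21 6 (.s k106 k234 7 (.s k64 k127 6 (.d k192 k128 k149 7 14)))), (.s k122 k181
  10 (.s k126 k189 8 (.s k118 k114 1 (.s k185 k51 10 (.d k248 k244 k59 1 8)))))] (.c k88 (.q k92
  [(.s k42 k21 6 (.s k106 k234 7 (.s k64 k127 6 (.d k192 k128 k149 7 14)))), (.s k12 k172 11 (.s k4
  k8 1 (.s k166 k247 12 (.s k162 k174 1 (.d k243 k81 k89 12 14)))))] .n) (.c k92 (.q k88 [(.s k248
  k244 1 (.s k8 k168 11 (.d k12 k4 k164 1 13))), (.s k21 k42 6 (.s k149 k213 7 (.s k128 k191 6 (.d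
  k192 k64 k106 7 14))))] .n) .n))) (.c k168 (.q k4 [(.s k244 k248 1 (.s k164 k84 11 (.d k12 k8 k88
  1 13))), (.s k166 k247 12 (.s k162 k174 1 (.s k243 k81 12 (.s k242 k241 0 (.s k90 k14 13 (.s k10
  k250 11 (.d k15 k5 k165 2 14)))))))] (.c k12 (.l (.s k166 k247 12 (.s k244 k248 1 (.s k84 k164 11
  (.s k86 k87 0 (.s k6 k246 11 (.d k7 k5 k165 0 12))))))) .n)) .n))) (.c k90 (.q k4 [(.s k12 k8 1
  (.s k166 k247 12 (.s k162 k174 1 (.d k243 k81 k89 12 14)))), (.s k12 k8 1 (.s k160 k80 11 (.s k164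
  k88 13 (.s k84 k244 11 (.d k168 k172 k252 1 13))))), (.s k160 k80 11 (.s k165 k175 2 (.s k166 k247
  12 (.s k164 k167 0 (.s k84 k244 11 (.d k168 k172 k252 1 13))))))] .n) (.c k95 (.l (.s k160 k80 11
  (.s k165 k175 2 (.s k15 k90 14 (.d k5 k10 k245 2 11))))) (.c k160 (.q k153 [(.s k17 k221 9 (.s
  k136 k187 4 (.s k204 k68 9 (.d k51 k34 k102 4 14)))), (.s k136 k187 4 (.s k204 k68 9 (.s k216 k228
  5 (.s k90 k27 8 (.s k10 k250 11 (.d k15 k5 k165 2 14)))))), (.s k17 k221 9 (.s k51 k34 4 (.s k177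
  k114 8 (.s k165 k141 5 (.s k5 k245 11 (.d k15 k10 k90 2 14))))))] (.c k51 (.f k187 k136 4 (.q k4
  [(.s k166 k247 12 (.s k162 k174 1 (.s k243 k81 12 (.d k12 k8 k89 1 14)))), (.s k166 k247 12 (.s
  k179 k140 6 (.s k191 k183 1 (.s k128 k149 6 (.d k162 k174 k145 1 4))))), (.s k8 k12 1 (.s k251 k89
  12 (.s k59 k123 7 (.s k106 k200 12 (.d k42 k25 k234 4 7)))))] (.c k166 (.l (.s k8 k12 1 (.s k17
  k221 9 (.s k89 k251 12 (.s k25 k217 7 (.s k21 k29 1 (.d k42 k63 k59 6 4))))))) (.c k174 (.l (.s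
  k12 k8 1 (.s k164 k88 13 (.s k166 k247 12 (.s k165 k167 0 (.s k5 k245 11 (.d k15 k10 k90 2
  14))))))) (.c k243 (.l (.s k8 k12 1 (.s k166 k247 12 (.s k251 k89 12 (.s k59 k123 7 (.s k106 k200
  12 (.d k42 k25 k234 4 7))))))) (.c k251 (.l (.s k12 k8 1 (.s k166 k247 12 (.s k243 k89 14 (.d k162
  k174 k81 1 12))))) .n)))))) (.c k204 (.q k69 [(.s k101 k117 3 (.s k32 k239 10 (.s k48 k16 3 (.d
  k207 k138 k154 10 14)))), (.s k101 k117 3 (.s k205 k49 13 (.s k1 k137 9 (.s k221 k17 9 (.d k253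
  k237 k169 3 13))))), (.s k136 k187 4 (.s k138 k207 10 (.s k137 k139 0 (.s k169 k185 3 (.d k1 k205
  k253 9 13)))))] (.c k186 (.l (.s k207 k138 10 (.s k101 k117 3 (.s k48 k154 14 (.d k32 k16 k239 3
  10))))) (.c k221 (.q k238 [(.s k101 k117 3 (.s k32 k239 10 (.s k48 k16 3 (.d k207 k138 k154 10
  14)))), (.s k34 k102 9 (.s k51 k17 4 (.s k177 k114 8 (.s k165 k141 5 (.s k5 k245 11 (.d k15 k90
  k10 14 2))))))] .n) (.c k238 (.l (.s k221 k17 9 (.s k101 k117 3 (.s k32 k239 10 (.s k48 k16 3 (.d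
  k207 k138 k154 10 14)))))) .n)))) .n))) (.c k165 (.q k4 [(.s k12 k8 1 (.s k166 k247 12 (.s k162
  k174 1 (.d k243 k81 k89 12 14)))), (.s k12 k8 1 (.s k160 k80 11 (.s k164 k88 13 (.s k84 k244 11
  (.d k168 k172 k252 1 13))))), (.s k80 k160 11 (.s k90 k95 2 (.s k166 k247 12 (.s k242 k14 13 (.s
  k243 k241 0 (.d k162 k174 k81 1 12))))))] .n) (.c k175 (.l (.s k80 k160 11 (.s k90 k95 2 (.s k15
  k165 14 (.d k10 k5 k250 2 11))))) (.c k250 (.l (.s k160 k80 11 (.s k165 k175 2 (.s k5 k245 11 (.d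
  k15 k10 k90 2 14))))) .n))))))))))))

def t2_42 : T TT 256 :=
  (.q k150 [(.s k20 k215 8 (.s k170 k255 14 (.s k130 k190 5 (.s k195 k65 8 (.d k60 k40 k105 5
  14)))))] (.c k20 (.f k170 k255 14 (.q k149 [(.s k128 k191 6 (.s k148 k151 0 (.s k188 k168 5 (.s
  k131 k169 6 (.d k130 k129 k190 0 5))))), (.s k130 k190 5 (.s k148 k151 0 (.s k195 k65 8 (.s k60
  k105 14 (.s k192 k104 13 (.s k106 k63 14 (.d k194 k62 k193 13 0))))))), (.s k151 k148 0 (.s k190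
  k130 5 (.s k191 k128 6 (.s k131 k171 5 (.d k188 k189 k169 0 6))))), (.s k128 k191 6 (.s k130 k190
  5 (.s k192 k64 7 (.s k195 k65 8 (.s k193 k194 0 (.d k105 k60 k61 14 13)))))), (.s k128 k191 6 (.s
  k148 k151 0 (.s k192 k64 7 (.s k60 k104 13 (.s k63 k106 14 (.s k105 k195 14 (.d k61 k62 k193 0
  13)))))))] (.c k22 (.q k62 [(.s k106 k194 13 (.s k64 k127 6 (.d k128 k191 k192 6 7))), (.s k128
  k191 6 (.s k130 k190 5 (.s k131 k129 0 (.s k148 k151 0 (.d k188 k168 k169 5 6))))), (.s k106 k194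
  13 (.s k63 k192 14 (.s k60 k61 0 (.s k130 k190 5 (.d k195 k65 k105 8 14)))))] (.c k21 (.q k23 [(.s
  k151 k148 0 (.s k87 k215 7 (.d k86 k84 k212 0 8))), (.s k106 k194 13 (.s k64 k127 6 (.d k128 k191
  k192 6 7)))] .n) (.c k23 (.l (.s k21 k213 7 (.s k106 k194 13 (.s k64 k127 6 (.d k128 k191 k192 6
  7))))) (.c k63 (.l (.s k130 k190 5 (.s k194 k106 13 (.s k195 k65 8 (.s k192 k193 0 (.d k128 k191
  k64 6 7)))))) (.c k130 (.l (.s k128 k191 6 (.s k64 k192 7 (.d k106 k127 k194 6 13)))) .n))))) (.c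
  k62 (.q k22 [(.s k86 k214 7 (.s k128 k191 6 (.s k148 k151 0 (.s k168 k188 5 (.d k84 k87 k252 0
  13))))), (.s k86 k214 7 (.s k84 k87 0 (.s k130 k190 5 (.s k195 k65 8 (.s k60 k105 14 (.s k3 k41 6
  (.d k252 k169 k168 14 13))))))), (.s k128 k191 6 (.s k130 k190 5 (.s k131 k129 0 (.s k148 k151 0
  (.d k188 k168 k169 5 6)))))] (.c k168 (.l (.s k151 k148 0 (.s k190 k130 5 (.s k191 k128 6 (.s k188
  k189 0 (.d k131 k171 k169 5 6)))))) (.c k190 (.l (.s k86 k214 7 (.s k84 k87 0 (.s k128 k191 6 (.s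
  k148 k151 0 (.d k168 k188 k252 5 13)))))) .n))) (.c k191 (.l (.s k130 k190 5 (.s k148 k151 0 (.s
  k195 k65 8 (.s k60 k105 14 (.s k192 k104 13 (.s k64 k128 7 (.d k106 k127 k63 6 14)))))))) .n)))))
  (.c k22 (.q k62 [(.s k20 k215 8 (.s k170 k255 14 (.s k130 k190 5 (.s k195 k65 8 (.d k60 k40 k105 5
  14))))), (.s k106 k194 13 (.s k64 k127 6 (.s k192 k128 7 (.s k149 k63 14 (.s k255 k170 14 (.d k213
  k234 k21 6 7)))))), (.s k20 k215 8 (.s k60 k40 5 (.s k63 k61 0 (.s k106 k194 13 (.s k64 k127 6 (.d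
  k192 k128 k149 7 14))))))] (.c k130 (.l (.s k20 k215 8 (.s k60 k40 5 (.s k105 k195 14 (.s k125 k65
  5 (.d k255 k190 k170 8 14)))))) .n)) (.c k40 (.l (.s k215 k20 8 (.s k255 k170 14 (.s k195 k235 5
  (.s k105 k60 14 (.d k65 k125 k130 5 8)))))) (.c k60 (.f k20 k215 8 (.q k166 [(.s k4 k247 12 (.s
  k52 k36 3 (.s k199 k101 12 (.d k134 k182 k69 3 8)))), (.s k170 k255 14 (.s k174 k162 1 (.s k182
  k134 3 (.s k190 k130 5 (.s k142 k158 3 (.d k178 k186 k154 1 5)))))), (.s k4 k247 12 (.s k12 k8 1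
  (.s k170 k255 14 (.s k162 k174 1 (.d k243 k81 k89 12 14)))))] (.c k22 (.q k62 [(.s k4 k247 12 (.s
  k52 k36 3 (.s k199 k101 12 (.d k134 k182 k69 3 8)))), (.s k106 k194 13 (.s k46 k226 9 (.s k14 k30
  3 (.s k182 k134 3 (.d k242 k122 k90 9 13))))), (.s k4 k247 12 (.s k12 k8 1 (.s k170 k255 14 (.s
  k162 k174 1 (.d k243 k81 k89 12 14)))))] (.c k3 (.q k41 [(.s k4 k247 12 (.s k52 k36 3 (.s k199
  k101 12 (.d k134 k182 k69 3 8)))), (.s k106 k194 13 (.s k46 k226 9 (.s k14 k30 3 (.s k182 k134 3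
  (.d k242 k122 k90 9 13))))), (.s k4 k247 12 (.s k12 k8 1 (.s k170 k255 14 (.s k162 k174 1 (.d k243
  k81 k89 12 14)))))] .n) (.c k41 (.q k3 [(.s k4 k247 12 (.s k52 k36 3 (.s k199 k101 12 (.d k134
  k182 k69 3 8)))), (.s k106 k194 13 (.s k46 k226 9 (.s k14 k30 3 (.s k182 k134 3 (.d k242 k122 k90
  9 13))))), (.s k4 k247 12 (.s k12 k8 1 (.s k170 k255 14 (.s k162 k174 1 (.d k243 k81 k89 12
  14)))))] (.c k40 (.q k43 [(.s k4 k247 12 (.s k52 k36 3 (.s k199 k101 12 (.d k134 k182 k69 3 8)))),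
  (.s k63 k23 5 (.s k106 k194 13 (.s k64 k127 6 (.d k192 k128 k149 7 14))))] .n) (.c k43 (.q k40
  [(.s k4 k247 12 (.s k52 k36 3 (.s k199 k101 12 (.d k134 k182 k69 3 8)))), (.s k106 k194 13 (.s k46
  k226 9 (.s k14 k30 3 (.s k182 k134 3 (.d k242 k122 k90 9 13))))), (.s k4 k247 12 (.s k12 k8 1 (.s
  k170 k255 14 (.s k162 k174 1 (.d k243 k81 k89 12 14)))))] .n) .n))) .n))) (.c k62 (.q k22 [(.s k23
  k21 0 (.s k86 k214 7 (.s k84 k87 0 (.d k212 k148 k149 7 8)))), (.s k4 k247 12 (.s k52 k36 3 (.s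
  k134 k182 3 (.d k199 k69 k101 8 12))))] (.c k61 (.q k63 [(.s k4 k247 12 (.s k52 k36 3 (.s k199
  k101 12 (.d k134 k182 k69 3 8)))), (.s k23 k21 0 (.s k86 k214 7 (.s k84 k87 0 (.d k212 k148 k149 7
  8))))] .n) (.c k63 (.q k61 [(.s k23 k21 0 (.s k86 k214 7 (.s k84 k87 0 (.d k212 k148 k149 7 8)))),
  (.s k4 k247 12 (.s k52 k36 3 (.s k134 k182 3 (.d k199 k69 k101 8 12))))] .n) .n))) .n)))) (.c k62
  (.q k22 [(.s k20 k215 8 (.s k23 k21 0 (.s k86 k214 7 (.s k84 k87 0 (.d k212 k148 k149 7 8))))),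
  (.s k20 k215 8 (.s k60 k40 5 (.s k105 k195 14 (.s k125 k65 5 (.d k255 k190 k170 8 14))))), (.s k86
  k214 7 (.s k84 k87 0 (.s k252 k168 13 (.s k169 k3 14 (.s k253 k1 13 (.d k255 k254 k170 0 14))))))]
  .n) (.c k65 (.q k22 [(.s k20 k215 8 (.s k23 k21 0 (.s k86 k214 7 (.s k84 k87 0 (.d k212 k148 k149
  7 8))))), (.s k86 k214 7 (.s k84 k87 0 (.s k252 k168 13 (.s k169 k3 14 (.s k253 k1 13 (.d k255
  k254 k170 0 14)))))), (.s k20 k215 8 (.s k21 k23 0 (.s k60 k40 5 (.s k41 k3 6 (.s k1 k61 5 (.s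
  k105 k195 14 (.d k169 k233 k253 7 13)))))))] (.c k87 (.l (.s k20 k215 8 (.s k60 k40 5 (.s k41 k3 6
  (.s k105 k195 14 (.s k169 k233 7 (.s k1 k253 13 (.d k21 k23 k61 0 5)))))))) .n)) (.c k105 (.f k20
  k215 8 (.q k22 [(.s k23 k21 0 (.s k86 k214 7 (.s k84 k87 0 (.d k212 k148 k149 7 8)))), (.s k86
  k214 7 (.s k87 k84 0 (.s k255 k170 14 (.s k3 k171 13 (.d k60 k40 k41 5 6))))), (.s k21 k23 0 (.s
  k60 k40 5 (.s k149 k213 7 (.s k170 k255 14 (.s k128 k191 6 (.s k192 k64 7 (.d k148 k151 k104 0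
  13)))))))] (.c k87 (.l (.s k23 k21 0 (.s k60 k40 5 (.s k86 k214 7 (.s k212 k149 8 (.s k84 k148 7
  (.s k252 k168 13 (.d k3 k41 k169 6 14)))))))) (.c k212 (.l (.s k21 k23 0 (.s k86 k214 7 (.s k213
  k149 7 (.s k87 k84 0 (.s k255 k170 14 (.s k3 k171 13 (.d k60 k40 k41 5 6)))))))) (.c k213 (.l (.s
  k23 k21 0 (.s k86 k214 7 (.s k212 k149 8 (.d k84 k87 k148 0 7))))) (.c k214 (.q k212 [(.s k23 k21
  0 (.s k148 k84 7 (.d k149 k151 k86 0 8))), (.s k60 k40 5 (.s k84 k148 7 (.s k252 k168 13 (.s k188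
  k124 7 (.s k169 k131 6 (.d k3 k41 k86 6 14))))))] (.c k84 (.l (.s k21 k23 0 (.s k60 k40 5 (.s k149
  k213 7 (.s k170 k255 14 (.s k128 k191 6 (.s k192 k64 7 (.d k148 k151 k104 0 13)))))))) (.c k86 (.l
  (.s k21 k23 0 (.s k148 k84 7 (.d k149 k151 k213 0 7)))) (.c k148 (.l (.s k23 k21 0 (.s k60 k40 5
  (.s k86 k149 8 (.s k84 k87 0 (.s k252 k168 13 (.d k3 k41 k169 6 14))))))) .n)))) .n)))))) (.c k125
  (.l (.s k20 k215 8 (.s k60 k40 5 (.s k170 k255 14 (.s k130 k190 5 (.d k195 k65 k105 8 14)))))) (.c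
  k130 (.l (.s k20 k215 8 (.s k60 k40 5 (.s k105 k195 14 (.s k125 k65 5 (.d k255 k190 k170 8
  14)))))) (.c k170 (.f k20 k215 8 (.q k106 [(.s k60 k40 5 (.s k62 k194 13 (.s k63 k61 0 (.s k64
  k127 6 (.d k192 k128 k149 7 14))))), (.s k64 k127 6 (.s k192 k128 7 (.s k149 k63 14 (.s k21 k213 7
  (.s k148 k151 0 (.s k212 k84 7 (.d k23 k22 k86 0 8))))))), (.s k60 k40 5 (.s k62 k194 13 (.s k63
  k61 0 (.s k105 k195 14 (.s k104 k107 0 (.d k192 k148 k149 13 14))))))] (.c k22 (.l (.s k62 k194 13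
  (.s k60 k40 5 (.s k63 k61 0 (.s k64 k127 6 (.d k192 k128 k149 7 14)))))) (.c k62 (.q k22 [(.s k23
  k21 0 (.s k86 k214 7 (.s k84 k87 0 (.d k212 k148 k149 7 8)))), (.s k60 k40 5 (.s k64 k127 6 (.s
  k105 k195 14 (.s k104 k107 0 (.d k192 k128 k148 7 13))))), (.s k64 k127 6 (.s k192 k128 7 (.s k149
  k63 14 (.d k21 k23 k213 0 7))))] (.c k86 (.q k254 [(.s k21 k23 0 (.s k64 k127 6 (.s k149 k213 7
  (.d k192 k128 k63 7 14)))), (.s k60 k40 5 (.s k64 k127 6 (.s k105 k195 14 (.s k192 k128 7 (.d k104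
  k107 k148 0 13))))), (.s k21 k23 0 (.s k60 k40 5 (.s k41 k3 6 (.s k1 k61 5 (.s k105 k195 14 (.d
  k169 k233 k253 7 13))))))] (.c k149 (.l (.s k60 k40 5 (.s k64 k127 6 (.s k105 k195 14 (.s k104
  k107 0 (.d k192 k128 k148 7 13)))))) .n)) (.c k254 (.l (.s k86 k214 7 (.s k23 k21 0 (.s k84 k87 0
  (.d k212 k148 k149 7 8))))) .n))) (.c k63 (.l (.s k60 k40 5 (.s k64 k127 6 (.s k105 k195 14 (.s
  k192 k128 7 (.d k104 k107 k148 0 13)))))) (.c k86 (.q k254 [(.s k60 k40 5 (.s k62 k194 13 (.s k190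
  k126 7 (.s k125 k255 8 (.d k105 k195 k65 14 5))))), (.s k64 k127 6 (.s k192 k128 7 (.s k149 k63 14
  (.s k148 k151 0 (.s k84 k212 7 (.d k104 k124 k60 5 13)))))), (.s k60 k40 5 (.s k62 k194 13 (.s k63
  k61 0 (.s k64 k127 6 (.d k192 k128 k149 7 14)))))] (.c k22 (.l (.s k62 k194 13 (.s k60 k40 5 (.s
  k63 k61 0 (.s k64 k127 6 (.d k192 k128 k149 7 14)))))) (.c k60 (.f k64 k127 6 (.l (.s k192 k128 7
  (.s k149 k63 14 (.s k148 k151 0 (.s k84 k212 7 (.s k213 k21 7 (.s k252 k168 13 (.d k255 k253 k234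
  0 6))))))))) (.c k62 (.q k22 [(.s k21 k23 0 (.s k64 k127 6 (.s k149 k213 7 (.d k192 k128 k63 7
  14)))), (.s k60 k40 5 (.s k64 k127 6 (.s k105 k195 14 (.s k192 k128 7 (.d k104 k107 k148 0
  13))))), (.s k21 k23 0 (.s k60 k40 5 (.s k41 k3 6 (.s k1 k61 5 (.s k105 k195 14 (.d k169 k233 k253
  7 13))))))] (.c k149 (.l (.s k60 k40 5 (.s k64 k127 6 (.s k105 k195 14 (.s k104 k107 0 (.d k192
  k128 k148 7 13)))))) .n)) .n)))) (.c k149 (.l (.s k60 k40 5 (.s k64 k127 6 (.s k105 k195 14 (.s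
  k104 k107 0 (.d k192 k128 k148 7 13)))))) (.c k192 (.l (.s k60 k40 5 (.s k62 k194 13 (.s k63 k61 0
  (.s k127 k64 6 (.s k255 k191 7 (.s k125 k190 8 (.d k105 k195 k65 14 5)))))))) (.c k254 (.q k86
  [(.s k22 k214 7 (.s k23 k21 0 (.s k84 k87 0 (.d k212 k148 k149 7 8)))), (.s k40 k60 5 (.s k64 k127
  6 (.s k84 k87 0 (.s k104 k124 5 (.d k168 k252 k232 13 7))))), (.s k62 k194 13 (.s k60 k40 5 (.s
  k63 k61 0 (.s k64 k127 6 (.d k192 k128 k149 7 14)))))] (.c k22 (.l (.s k62 k194 13 (.s k60 k40 5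
  (.s k63 k61 0 (.s k64 k127 6 (.d k192 k128 k149 7 14)))))) (.c k62 (.l (.s k22 k214 7 (.s k23 k21
  0 (.s k84 k87 0 (.d k212 k148 k149 7 8))))) .n))) .n))))))))) (.c k190 (.l (.s k215 k20 8 (.s k255
  k170 14 (.s k195 k235 5 (.s k65 k130 8 (.d k105 k125 k60 5 14)))))) (.c k195 (.f k215 k20 8 (.f
  k170 k255 14 (.q k149 [(.s k151 k148 0 (.s k23 k87 7 (.s k212 k86 8 (.d k213 k214 k21 0 7)))), (.s
  k128 k191 6 (.s k130 k190 5 (.s k131 k129 0 (.s k148 k151 0 (.d k188 k168 k169 5 6))))), (.s k128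
  k191 6 (.s k192 k64 7 (.s k213 k21 7 (.s k212 k214 0 (.s k252 k232 5 (.s k84 k168 13 (.d k86 k23
  k87 8 0)))))))] (.c k22 (.q k62 [(.s k151 k148 0 (.s k23 k87 7 (.s k212 k86 8 (.d k213 k21 k214 7
  0)))), (.s k106 k194 13 (.s k64 k127 6 (.d k128 k191 k192 6 7)))] (.c k21 (.q k23 [(.d k151 k148
  k87 0 7), (.s k106 k194 13 (.s k64 k127 6 (.d k128 k191 k192 6 7)))] .n) (.c k23 (.l (.s k21 k213
  7 (.s k106 k194 13 (.s k64 k127 6 (.d k128 k191 k192 6 7))))) .n))) (.c k62 (.q k22 [(.s k213 k21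
  7 (.d k214 k212 k86 0 7)), (.s k128 k191 6 (.s k130 k190 5 (.s k131 k129 0 (.s k148 k151 0 (.d
  k188 k168 k169 5 6)))))] .n) .n))))) (.c k215 (.f k170 k255 14 (.f k130 k190 5 (.f k195 k65 8 (.f
  k60 k105 14 (.q k22 [(.s k86 k214 7 (.s k84 k87 0 (.s k252 k168 13 (.d k3 k41 k169 6 14)))), (.s
  k3 k41 6 (.s k131 k67 7 (.s k169 k188 6 (.d k86 k214 k252 7 14)))), (.s k20 k40 5 (.s k23 k21 0
  (.s k86 k214 7 (.s k212 k149 8 (.d k84 k87 k148 0 7)))))] (.c k41 (.l (.s k86 k214 7 (.s k84 k87 0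
  (.s k252 k168 13 (.s k188 k124 7 (.d k169 k3 k131 14 6)))))) (.c k86 (.l (.s k20 k40 5 (.s k21 k23
  0 (.s k149 k213 7 (.s k128 k191 6 (.s k131 k129 0 (.d k3 k41 k67 6 7))))))) (.c k214 (.l (.s k3
  k41 6 (.s k131 k67 7 (.s k169 k188 6 (.s k168 k171 0 (.d k252 k86 k84 14 13)))))) .n)))))))) (.c
  k235 (.l (.s k20 k215 8 (.s k60 k40 5 (.s k105 k195 14 (.s k255 k170 14 (.d k125 k65 k190 5
  8)))))) (.c k255 (.q k22 [(.s k20 k215 8 (.s k23 k21 0 (.s k86 k214 7 (.s k212 k149 8 (.d k84 k87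
  k148 0 7))))), (.s k86 k214 7 (.s k84 k87 0 (.s k252 k168 13 (.s k3 k169 14 (.s k60 k41 6 (.d k20
  k40 k215 5 8)))))), (.s k20 k215 8 (.s k21 k23 0 (.s k60 k40 5 (.s k41 k3 6 (.s k1 k61 5 (.s k169
  k253 13 (.d k105 k195 k233 14 7))))))), (.s k86 k214 7 (.s k84 k87 0 (.s k252 k168 13 (.s k3 k169
  14 (.s k60 k41 6 (.s k124 k188 7 (.d k105 k67 k195 6 14)))))))] (.c k87 (.q k3 [(.s k60 k41 6 (.d
  k20 k40 k215 5 8)), (.s k86 k214 7 (.s k169 k252 14 (.s k131 k188 6 (.s k195 k67 7 (.d k60 k41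
  k105 6 14))))), (.s k20 k215 8 (.s k23 k21 0 (.s k86 k214 7 (.s k212 k149 8 (.s k84 k148 7 (.d
  k252 k168 k169 13 14))))))] .n) .n)) .n))))))))))))))))

def t2_43 : T TT 256 :=
  (.f k170 k255 14 (.q k240 [(.s k80 k160 11 (.s k90 k95 2 (.s k10 k250 11 (.d k15 k5 k165 2 14))))]
  (.c k5 (.q k4 [(.s k12 k8 1 (.s k166 k247 12 (.s k162 k174 1 (.d k243 k81 k89 12 14)))), (.s k12
  k8 1 (.s k160 k80 11 (.s k164 k88 13 (.s k84 k244 11 (.d k168 k172 k252 1 13))))), (.s k80 k160 11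
  (.s k90 k95 2 (.s k166 k247 12 (.s k242 k14 13 (.s k243 k241 0 (.d k162 k174 k81 1 12))))))] .n)
  (.c k10 (.f k160 k80 11 (.f k175 k165 2 (.q k162 [(.s k163 k161 0 (.s k171 k167 1 (.s k169 k168 0
  (.d k166 k174 k172 1 2)))), (.s k166 k174 1 (.s k4 k247 12 (.s k12 k8 1 (.d k243 k81 k89 12
  14)))), (.s k81 k243 12 (.s k161 k163 0 (.s k1 k241 11 (.s k3 k82 12 (.s k169 k253 13 (.s k168
  k171 0 (.d k252 k84 k86 13 14)))))))] (.c k6 (.q k14 [(.s k166 k174 1 (.s k242 k90 13 (.d k243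
  k241 k81 0 12))), (.s k81 k243 12 (.s k161 k163 0 (.s k1 k241 11 (.s k3 k82 12 (.s k169 k253 13
  (.s k168 k171 0 (.d k252 k84 k86 13 14))))))), (.s k163 k161 0 (.s k166 k174 1 (.s k169 k172 2 (.d
  k171 k168 k167 0 1))))] .n) (.c k14 (.q k6 [(.s k163 k161 0 (.s k171 k167 1 (.s k169 k168 0 (.d
  k166 k174 k172 1 2)))), (.s k166 k174 1 (.s k4 k247 12 (.s k12 k8 1 (.d k243 k81 k89 12 14)))),
  (.s k81 k243 12 (.s k161 k163 0 (.s k3 k82 12 (.s k12 k9 2 (.s k8 k4 1 (.d k89 k251 k93 12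
  1))))))] .n) .n))))) (.c k15 (.f k80 k160 11 (.q k192 [(.s k64 k128 7 (.s k96 k112 3 (.s k208 k224
  3 (.d k144 k16 k48 7 11)))), (.s k128 k64 7 (.s k149 k191 6 (.s k21 k213 7 (.d k63 k42 k106 6
  14))))] (.c k64 (.l (.s k208 k224 3 (.s k16 k144 7 (.s k154 k223 10 (.s k138 k186 3 (.s k207 k69
  10 (.d k48 k32 k101 3 14))))))) (.c k95 (.q k175 [(.s k64 k128 7 (.s k96 k112 3 (.s k208 k224 3
  (.d k144 k16 k48 7 11)))), (.s k128 k64 7 (.s k149 k191 6 (.s k21 k213 7 (.d k63 k42 k106 6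
  14))))] (.c k64 (.l (.s k208 k224 3 (.s k16 k144 7 (.s k154 k223 10 (.s k138 k186 3 (.s k207 k69
  10 (.d k48 k32 k101 3 14))))))) (.c k128 (.l (.s k208 k224 3 (.s k144 k16 7 (.s k96 k48 11 (.s k64
  k112 3 (.s k106 k127 6 (.s k42 k234 7 (.d k63 k21 k149 6 14)))))))) .n))) (.c k128 (.l (.s k208
  k224 3 (.s k144 k16 7 (.s k96 k48 11 (.s k64 k112 3 (.s k106 k127 6 (.s k42 k234 7 (.d k63 k21
  k149 6 14)))))))) (.c k175 (.l (.s k95 k90 2 (.s k64 k128 7 (.s k96 k112 3 (.s k144 k48 11 (.d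
  k208 k224 k16 3 7)))))) .n)))))) (.c k80 (.q k252 [(.s k84 k168 13 (.s k86 k87 0 (.s k244 k248 1
  (.s k165 k7 12 (.s k5 k245 11 (.d k15 k10 k90 2 14)))))), (.s k84 k168 13 (.s k244 k248 1 (.s k4
  k164 11 (.s k166 k247 12 (.s k162 k174 1 (.s k243 k81 12 (.d k12 k8 k89 1 14))))))), (.s k84 k168
  13 (.s k86 k87 0 (.s k3 k169 14 (.s k82 k161 12 (.s k90 k94 1 (.s k10 k250 11 (.d k15 k165 k5 14
  2)))))))] (.c k84 (.q k162 [(.s k166 k174 1 (.s k4 k247 12 (.s k12 k8 1 (.d k243 k81 k89 12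
  14)))), (.s k166 k174 1 (.s k243 k81 12 (.s k242 k241 0 (.s k90 k14 13 (.s k10 k250 11 (.d k15 k5
  k165 2 14)))))), (.s k243 k81 12 (.s k248 k244 1 (.s k249 k246 2 (.s k251 k250 0 (.s k8 k89 12 (.s
  k88 k168 11 (.d k12 k4 k164 1 13))))))), (.s k166 k174 1 (.s k244 k248 1 (.s k247 k4 12 (.s k245
  k246 0 (.s k165 k5 11 (.s k7 k86 12 (.d k167 k164 k87 0 11)))))))] (.c k12 (.l (.s k243 k81 12 (.s
  k244 k248 1 (.s k246 k249 2 (.s k247 k245 0 (.d k166 k174 k4 1 12)))))) (.c k88 (.q k92 [(.s k12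
  k172 11 (.s k4 k8 1 (.d k166 k174 k247 1 12))), (.s k12 k172 11 (.s k166 k174 1 (.d k243 k81 k89
  12 14))), (.s k243 k81 12 (.s k244 k248 1 (.s k246 k249 2 (.s k247 k245 0 (.d k166 k174 k4 1
  12))))), (.s k12 k172 11 (.s k8 k4 1 (.s k81 k243 12 (.d k89 k251 k93 12 1))))] .n) (.c k92 (.q
  k88 [(.s k248 k244 1 (.s k8 k168 11 (.d k12 k4 k164 1 13))), (.s k166 k174 1 (.s k243 k81 12 (.d
  k12 k164 k89 13 14)))] (.c k12 (.l (.s k81 k243 12 (.s k248 k244 1 (.s k8 k168 11 (.d k89 k251 k93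
  12 1))))) (.c k164 (.l (.s k166 k174 1 (.s k4 k247 12 (.s k12 k8 1 (.d k243 k81 k89 12 14)))))
  .n))) .n)))) (.c k168 (.q k4 [(.s k244 k248 1 (.s k164 k84 11 (.d k12 k8 k88 1 13))), (.s k166
  k247 12 (.s k162 k174 1 (.s k243 k81 12 (.s k242 k241 0 (.s k90 k14 13 (.s k10 k250 11 (.d k15 k5
  k165 2 14)))))))] (.c k12 (.l (.s k166 k247 12 (.s k244 k248 1 (.s k84 k164 11 (.s k86 k87 0 (.s
  k6 k246 11 (.d k7 k5 k165 0 12))))))) .n)) .n))) (.c k90 (.q k4 [(.s k12 k8 1 (.s k166 k247 12 (.s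
  k162 k174 1 (.d k243 k81 k89 12 14)))), (.s k12 k8 1 (.s k160 k80 11 (.s k164 k88 13 (.s k84 k244
  11 (.d k168 k172 k252 1 13))))), (.s k160 k80 11 (.s k165 k175 2 (.s k166 k247 12 (.s k164 k167 0
  (.s k84 k244 11 (.d k168 k172 k252 1 13))))))] .n) (.c k95 (.l (.s k160 k80 11 (.s k165 k175 2 (.s
  k15 k90 14 (.d k5 k10 k245 2 11))))) (.c k160 (.q k150 [(.s k20 k215 8 (.s k130 k190 5 (.s k195
  k65 8 (.d k60 k40 k105 5 14)))), (.s k130 k190 5 (.s k195 k65 8 (.s k210 k225 4 (.s k90 k30 9 (.s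
  k10 k250 11 (.d k15 k5 k165 2 14)))))), (.s k20 k215 8 (.s k60 k40 5 (.s k180 k120 9 (.s k165 k135
  4 (.s k5 k245 11 (.d k15 k10 k90 2 14))))))] (.c k60 (.q k4 [(.s k12 k8 1 (.s k166 k247 12 (.s
  k162 k174 1 (.d k243 k81 k89 12 14)))), (.s k20 k215 8 (.s k52 k36 3 (.s k101 k199 12 (.s k117 k69
  3 (.d k247 k182 k166 8 12)))))] (.c k125 (.l (.s k190 k130 5 (.s k12 k8 1 (.s k166 k247 12 (.s
  k162 k174 1 (.d k243 k81 k89 12 14)))))) (.c k166 (.l (.s k8 k12 1 (.s k20 k215 8 (.s k89 k251 12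
  (.s k28 k211 10 (.s k16 k24 1 (.s k93 k81 1 (.d k223 k158 k154 8 10)))))))) (.c k190 (.q k125 [(.s
  k12 k8 1 (.s k166 k247 12 (.s k243 k89 14 (.d k162 k174 k81 1 12)))), (.s k65 k105 5 (.s k195 k130
  8 (.s k210 k225 4 (.s k90 k30 9 (.s k10 k250 11 (.d k15 k165 k5 14 2))))))] .n) (.c k247 (.l (.s
  k12 k8 1 (.s k20 k215 8 (.s k52 k36 3 (.s k199 k101 12 (.s k134 k69 8 (.s k195 k73 10 (.d k130 k65
  k190 8 5)))))))) .n))))) (.c k195 (.q k81 [(.s k89 k93 1 (.s k8 k251 12 (.s k12 k4 1 (.d k243 k162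
  k166 12 14)))), (.s k89 k93 1 (.s k211 k28 10 (.s k16 k146 8 (.s k215 k20 8 (.d k223 k219 k154 1
  10))))), (.s k130 k190 5 (.s k162 k243 12 (.s k146 k178 3 (.s k154 k158 1 (.d k16 k211 k223 8
  10)))))] (.c k174 (.l (.s k243 k162 12 (.s k89 k93 1 (.s k12 k166 14 (.d k8 k4 k251 1 12))))) (.c
  k215 (.q k235 [(.s k89 k93 1 (.s k8 k251 12 (.s k12 k4 1 (.d k243 k162 k166 12 14)))), (.s k40
  k105 8 (.s k60 k20 5 (.s k180 k120 9 (.s k165 k135 4 (.s k5 k245 11 (.d k15 k90 k10 14 2))))))]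
  .n) (.c k235 (.l (.s k215 k20 8 (.s k89 k93 1 (.s k8 k251 12 (.s k12 k4 1 (.d k243 k162 k166 12
  14)))))) .n)))) .n))) (.c k165 (.q k4 [(.s k12 k8 1 (.s k166 k247 12 (.s k162 k174 1 (.d k243 k81
  k89 12 14)))), (.s k12 k8 1 (.s k160 k80 11 (.s k164 k88 13 (.s k84 k244 11 (.d k168 k172 k252 1
  13))))), (.s k80 k160 11 (.s k90 k95 2 (.s k166 k247 12 (.s k242 k14 13 (.s k243 k241 0 (.d k162
  k174 k81 1 12))))))] .n) (.c k175 (.l (.s k80 k160 11 (.s k90 k95 2 (.s k15 k165 14 (.d k10 k5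
  k250 2 11))))) (.c k250 (.l (.s k160 k80 11 (.s k165 k175 2 (.s k5 k245 11 (.d k15 k10 k90 2
  14))))) .n))))))))))))

def t2_44 : T TT 256 :=
  (.f k170 k255 14 (.q k240 [(.s k80 k160 11 (.s k90 k95 2 (.s k10 k250 11 (.d k15 k5 k165 2 14))))]
  (.c k5 (.q k4 [(.s k12 k8 1 (.s k166 k247 12 (.s k243 k89 14 (.d k162 k174 k81 1 12)))), (.s k12
  k8 1 (.s k160 k80 11 (.s k164 k88 13 (.s k84 k244 11 (.d k168 k172 k252 1 13))))), (.s k80 k160 11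
  (.s k90 k95 2 (.s k166 k247 12 (.s k242 k14 13 (.s k243 k241 0 (.d k162 k174 k81 1 12))))))] .n)
  (.c k10 (.f k160 k80 11 (.f k175 k165 2 (.q k162 [(.s k163 k161 0 (.s k171 k167 1 (.s k169 k168 0
  (.d k166 k174 k172 1 2)))), (.s k166 k174 1 (.s k4 k247 12 (.s k12 k8 1 (.d k243 k81 k89 12
  14)))), (.s k81 k243 12 (.s k161 k163 0 (.s k1 k241 11 (.s k3 k82 12 (.s k169 k253 13 (.s k168
  k171 0 (.d k252 k84 k86 13 14)))))))] (.c k6 (.q k14 [(.s k166 k174 1 (.s k242 k90 13 (.d k243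
  k241 k81 0 12))), (.s k81 k243 12 (.s k161 k163 0 (.s k1 k241 11 (.s k3 k82 12 (.s k169 k253 13
  (.s k168 k171 0 (.d k252 k84 k86 13 14))))))), (.s k163 k161 0 (.s k166 k174 1 (.s k169 k172 2 (.d
  k171 k168 k167 0 1))))] .n) (.c k14 (.q k6 [(.s k163 k161 0 (.s k171 k167 1 (.s k169 k168 0 (.d
  k166 k174 k172 1 2)))), (.s k166 k174 1 (.s k4 k247 12 (.s k12 k8 1 (.d k243 k81 k89 12 14)))),
  (.s k81 k243 12 (.s k161 k163 0 (.s k3 k82 12 (.s k12 k9 2 (.s k8 k4 1 (.d k89 k251 k93 12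
  1))))))] .n) .n))))) (.c k15 (.f k80 k160 11 (.q k192 [(.s k128 k64 7 (.s k149 k191 6 (.s k21 k213
  7 (.d k63 k42 k106 6 14)))), (.s k208 k224 3 (.s k16 k144 7 (.s k154 k223 10 (.s k138 k186 3 (.s
  k207 k69 10 (.d k48 k32 k101 3 14))))))] (.c k95 (.q k175 [(.s k128 k64 7 (.s k149 k191 6 (.s k21
  k213 7 (.d k63 k42 k106 6 14)))), (.s k208 k224 3 (.s k16 k144 7 (.s k154 k223 10 (.s k138 k186 3
  (.s k207 k69 10 (.d k48 k32 k101 3 14))))))] (.c k128 (.l (.s k208 k224 3 (.s k144 k16 7 (.s k96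
  k48 11 (.s k64 k112 3 (.s k106 k127 6 (.s k42 k234 7 (.d k63 k21 k149 6 14)))))))) .n)) (.c k128
  (.l (.s k208 k224 3 (.s k144 k16 7 (.s k96 k48 11 (.s k64 k112 3 (.s k106 k127 6 (.s k42 k234 7
  (.d k63 k21 k149 6 14)))))))) (.c k175 (.l (.s k95 k90 2 (.s k64 k128 7 (.s k96 k112 3 (.s k144
  k48 11 (.d k208 k224 k16 3 7)))))) .n))))) (.c k80 (.q k252 [(.s k84 k168 13 (.s k86 k87 0 (.s k3
  k169 14 (.s k82 k161 12 (.s k90 k94 1 (.s k10 k250 11 (.d k15 k165 k5 14 2))))))), (.s k84 k168 13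
  (.s k244 k248 1 (.s k4 k164 11 (.s k166 k247 12 (.s k162 k174 1 (.s k243 k81 12 (.d k12 k8 k89 1
  14)))))))] (.c k82 (.l (.s k84 k168 13 (.s k86 k87 0 (.s k244 k248 1 (.s k165 k7 12 (.s k5 k245 11
  (.d k15 k10 k90 2 14))))))) (.c k84 (.q k169 [(.s k248 k244 1 (.s k90 k11 12 (.s k10 k250 11 (.d
  k15 k5 k165 2 14)))), (.s k3 k86 14 (.s k161 k82 12 (.s k165 k173 1 (.s k5 k245 11 (.d k15 k90 k10
  14 2))))), (.s k168 k171 0 (.s k248 k244 1 (.s k90 k11 12 (.s k250 k10 11 (.s k251 k249 0 (.d k8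
  k88 k89 11 12))))))] (.c k10 (.l (.s k3 k86 14 (.s k161 k82 12 (.s k165 k173 1 (.s k90 k15 14 (.d
  k248 k244 k11 1 12)))))) (.c k88 (.q k92 [(.s k248 k244 1 (.s k90 k11 12 (.s k10 k250 11 (.d k15
  k5 k165 2 14)))), (.s k86 k3 14 (.s k89 k83 2 (.s k8 k251 12 (.d k12 k4 k172 1 11))))] (.c k4 (.l
  (.s k3 k86 14 (.s k161 k82 12 (.s k165 k173 1 (.s k5 k245 11 (.d k15 k90 k10 14 2)))))) .n)) (.c
  k90 (.l (.s k86 k3 14 (.s k244 k248 1 (.s k165 k7 12 (.s k5 k245 11 (.s k15 k10 2 (.d k173 k161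
  k94 1 12))))))) (.c k92 (.q k88 [(.s k168 k171 0 (.d k248 k244 k8 1 11)), (.s k248 k244 1 (.s k90
  k11 12 (.s k10 k250 11 (.d k15 k5 k165 2 14))))] (.c k244 (.l (.s k168 k171 0 (.s k8 k248 11 (.d
  k12 k4 k164 1 13)))) (.c k248 (.l (.s k3 k86 14 (.s k12 k164 13 (.s k9 k6 2 (.s k89 k249 11 (.d k8
  k4 k251 1 12)))))) .n))) .n))))) (.c k168 (.q k4 [(.s k244 k248 1 (.s k164 k84 11 (.d k12 k8 k88 1
  13))), (.s k166 k247 12 (.s k162 k174 1 (.s k243 k81 12 (.s k242 k241 0 (.s k90 k14 13 (.s k10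
  k250 11 (.d k15 k5 k165 2 14)))))))] (.c k12 (.l (.s k166 k247 12 (.s k244 k248 1 (.s k84 k164 11
  (.s k86 k87 0 (.s k6 k246 11 (.d k7 k5 k165 0 12))))))) .n)) .n)))) (.c k90 (.q k4 [(.s k12 k8 1
  (.s k166 k247 12 (.s k162 k174 1 (.d k243 k81 k89 12 14)))), (.s k12 k8 1 (.s k160 k80 11 (.s k164
  k88 13 (.s k84 k244 11 (.d k168 k172 k252 1 13))))), (.s k160 k80 11 (.s k165 k175 2 (.s k166 k247
  12 (.s k164 k167 0 (.s k84 k244 11 (.d k168 k172 k252 1 13))))))] .n) (.c k95 (.l (.s k160 k80 11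
  (.s k165 k175 2 (.s k15 k90 14 (.d k5 k10 k245 2 11))))) (.c k160 (.q k149 [(.s k21 k213 7 (.s
  k128 k191 6 (.s k192 k64 7 (.d k63 k42 k106 6 14)))), (.s k128 k191 6 (.s k192 k64 7 (.s k208 k224
  3 (.s k90 k31 10 (.s k10 k250 11 (.d k15 k5 k165 2 14)))))), (.s k21 k213 7 (.s k63 k42 6 (.s k181
  k122 10 (.s k165 k133 3 (.s k5 k245 11 (.d k15 k10 k90 2 14))))))] (.c k63 (.q k102 [(.s k34 k238
  9 (.s k51 k17 4 (.s k68 k119 4 (.d k204 k136 k153 9 14)))), (.s k21 k213 7 (.s k55 k196 12 (.s k4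
  k38 4 (.s k119 k68 4 (.d k247 k183 k166 7 12))))), (.s k34 k238 9 (.s k51 k17 4 (.s k114 k177 8
  (.s k90 k78 5 (.s k10 k250 11 (.d k15 k5 k165 2 14))))))] (.c k127 (.l (.s k191 k128 6 (.s k34
  k238 9 (.s k51 k17 4 (.s k68 k119 4 (.d k204 k136 k153 9 14)))))) (.c k191 (.q k127 [(.s k34 k238
  9 (.s k51 k17 4 (.s k68 k119 4 (.d k204 k136 k153 9 14)))), (.s k21 k213 7 (.s k55 k196 12 (.s k4
  k38 4 (.s k119 k68 4 (.d k247 k183 k166 7 12))))), (.s k34 k238 9 (.s k51 k17 4 (.s k64 k106 6 (.s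
  k192 k128 7 (.s k145 k98 12 (.d k153 k204 k157 14 1))))))] .n) .n))) (.c k192 (.q k162 [(.s k243
  k81 12 (.s k166 k174 1 (.s k12 k89 14 (.d k4 k8 k247 1 12)))), (.s k81 k243 12 (.s k128 k191 6 (.s
  k145 k179 4 (.s k153 k157 1 (.d k17 k209 k221 7 9))))), (.s k128 k191 6 (.s k166 k174 1 (.s k132
  k183 4 (.s k140 k136 1 (.d k179 k145 k153 4 6)))))] (.c k174 (.l (.s k81 k243 12 (.s k128 k191 6
  (.s k145 k179 4 (.s k209 k17 7 (.d k89 k93 k29 1 9)))))) (.c k213 (.q k234 [(.s k243 k81 12 (.s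
  k166 k174 1 (.s k12 k89 14 (.d k4 k8 k247 1 12)))), (.s k42 k106 7 (.s k63 k21 6 (.s k243 k81 12
  (.s k183 k123 9 (.d k166 k174 k132 1 4))))), (.s k106 k42 7 (.s k166 k174 1 (.s k226 k46 9 (.s k34
  k98 7 (.d k238 k230 k102 1 9))))), (.s k81 k243 12 (.s k128 k191 6 (.s k145 k179 4 (.s k209 k17 7
  (.d k89 k93 k29 1 9)))))] .n) (.c k234 (.l (.s k213 k21 7 (.s k166 k174 1 (.s k4 k247 12 (.s k12
  k8 1 (.d k243 k81 k89 12 14)))))) .n)))) .n))) (.c k165 (.q k4 [(.s k12 k8 1 (.s k166 k247 12 (.s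
  k162 k174 1 (.d k243 k81 k89 12 14)))), (.s k12 k8 1 (.s k160 k80 11 (.s k164 k88 13 (.s k84 k244
  11 (.d k168 k172 k252 1 13))))), (.s k80 k160 11 (.s k90 k95 2 (.s k166 k247 12 (.s k242 k14 13
  (.s k243 k241 0 (.d k162 k174 k81 1 12))))))] .n) (.c k175 (.l (.s k80 k160 11 (.s k90 k95 2 (.s
  k15 k165 14 (.d k10 k5 k250 2 11))))) (.c k250 (.l (.s k160 k80 11 (.s k165 k175 2 (.s k5 k245 11
  (.d k15 k10 k90 2 14))))) .n))))))))))))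

def t2_45 : T TT 256 :=
  (.f k170 k255 14 (.q k12 [(.s k4 k8 1 (.s k166 k247 12 (.s k162 k174 1 (.d k243 k81 k89 12 14))))]
  (.c k4 (.q k64 [(.s k192 k128 7 (.s k106 k127 6 (.s k63 k149 14 (.d k42 k21 k234 6 7)))), (.s k192
  k128 7 (.s k72 k132 9 (.s k68 k76 1 (.s k102 k119 4 (.s k34 k238 9 (.s k51 k17 4 (.d k204 k136
  k153 9 14)))))))] (.c k128 (.l (.s k106 k127 6 (.s k42 k234 7 (.s k63 k21 6 (.s k46 k29 4 (.s k166
  k226 9 (.s k162 k174 1 (.d k243 k81 k89 12 14)))))))) (.c k192 (.f k106 k127 6 (.q k63 [(.d k42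
  k234 k21 7 6), (.s k46 k29 4 (.s k166 k226 9 (.s k162 k174 1 (.d k243 k81 k89 12 14))))] (.c k213
  (.l (.s k234 k42 7 (.s k46 k29 4 (.s k166 k226 9 (.s k162 k174 1 (.d k243 k81 k89 12 14)))))) (.c
  k234 (.q k213 [(.d k21 k42 k149 6 7), (.s k46 k29 4 (.s k166 k226 9 (.s k162 k174 1 (.d k243 k81
  k89 12 14))))] .n) .n)))) .n))) (.c k8 (.q k65 [(.s k105 k125 5 (.s k40 k235 8 (.s k60 k20 5 (.d
  k195 k130 k150 8 14)))), (.s k195 k130 8 (.s k73 k134 10 (.s k69 k77 1 (.s k101 k117 3 (.s k32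
  k239 10 (.s k48 k16 3 (.d k207 k138 k154 10 14)))))))] (.c k130 (.l (.s k105 k125 5 (.s k40 k235 8
  (.s k60 k20 5 (.s k44 k28 3 (.s k166 k227 10 (.s k162 k174 1 (.d k243 k81 k89 12 14)))))))) (.c
  k195 (.f k105 k125 5 (.q k60 [(.d k40 k235 k20 8 5), (.s k44 k28 3 (.s k166 k227 10 (.s k162 k174
  1 (.d k243 k81 k89 12 14))))] (.c k215 (.l (.s k235 k40 8 (.s k44 k28 3 (.s k166 k227 10 (.s k162
  k174 1 (.d k243 k81 k89 12 14)))))) (.c k235 (.q k215 [(.d k20 k40 k150 5 8), (.s k44 k28 3 (.s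
  k166 k227 10 (.s k162 k174 1 (.d k243 k81 k89 12 14))))] .n) .n)))) .n))) (.c k81 (.q k5 [(.s k15
  k10 2 (.s k165 k245 11 (.s k160 k175 2 (.d k240 k80 k90 11 14)))), (.s k4 k8 1 (.s k6 k7 0 (.s k9
  k3 2 (.s k13 k1 1 (.d k15 k14 k10 0 2))))), (.s k4 k8 1 (.s k165 k245 11 (.s k160 k175 2 (.s k166
  k247 12 (.s k164 k167 0 (.d k240 k80 k88 11 13))))))] (.c k15 (.l (.s k4 k8 1 (.s k7 k6 0 (.s k165
  k245 11 (.s k86 k244 12 (.s k87 k84 0 (.d k247 k167 k166 11 12))))))) .n)) (.c k89 (.q k5 [(.s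
  k165 k245 11 (.s k160 k175 2 (.s k240 k80 11 (.d k15 k10 k90 2 14)))), (.s k4 k8 1 (.s k6 k7 0 (.s
  k9 k3 2 (.s k13 k1 1 (.d k15 k14 k10 0 2)))))] (.c k10 (.l (.s k4 k8 1 (.s k165 k245 11 (.s k160
  k175 2 (.s k166 k247 12 (.s k164 k167 0 (.d k240 k80 k88 11 13))))))) (.c k15 (.l (.s k4 k8 1 (.s
  k7 k6 0 (.s k165 k245 11 (.s k86 k244 12 (.s k87 k84 0 (.d k247 k167 k166 11 12))))))) .n))) (.c
  k162 (.f k4 k8 1 (.q k134 [(.s k69 k199 8 (.s k73 k195 10 (.s k77 k65 1 (.d k207 k142 k138 8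
  10)))), (.s k166 k247 12 (.s k150 k182 3 (.s k130 k190 5 (.d k195 k65 k73 8 10)))), (.s k69 k199 8
  (.s k101 k117 3 (.s k32 k239 10 (.s k48 k16 3 (.d k207 k138 k154 10 14)))))] (.c k82 (.q k242 [(.s
  k69 k199 8 (.s k73 k195 10 (.s k77 k65 1 (.d k207 k142 k138 8 10)))), (.s k166 k247 12 (.s k150
  k182 3 (.s k130 k190 5 (.d k195 k65 k73 8 10)))), (.s k69 k199 8 (.s k101 k117 3 (.s k32 k239 10
  (.s k48 k16 3 (.d k207 k138 k154 10 14)))))] .n) (.c k242 (.q k82 [(.s k69 k199 8 (.s k73 k195 10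
  (.s k77 k65 1 (.d k207 k142 k138 8 10)))), (.s k166 k247 12 (.s k150 k182 3 (.s k130 k190 5 (.d
  k195 k65 k73 8 10)))), (.s k69 k199 8 (.s k101 k117 3 (.s k32 k239 10 (.s k48 k16 3 (.d k207 k138
  k154 10 14)))))] .n) .n)))) (.c k166 (.q k5 [(.s k165 k245 11 (.s k160 k175 2 (.s k240 k80 11 (.d
  k15 k10 k90 2 14)))), (.s k4 k8 1 (.s k6 k7 0 (.s k9 k3 2 (.s k13 k1 1 (.d k15 k14 k10 0 2))))),
  (.s k8 k4 1 (.s k89 k251 12 (.s k93 k81 1 (.s k165 k245 11 (.s k13 k241 13 (.s k1 k9 1 (.d k253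
  k173 k169 11 13)))))))] .n) (.c k174 (.l (.s k8 k4 1 (.s k89 k251 12 (.s k81 k93 1 (.d k243 k162
  k166 12 14))))) (.c k243 (.f k4 k8 1 (.q k5 [(.s k6 k7 0 (.s k15 k10 2 (.s k13 k14 0 (.d k9 k1 k3
  1 2)))), (.s k165 k245 11 (.s k160 k175 2 (.s k240 k80 11 (.s k164 k88 13 (.d k166 k247 k167 12
  0)))))] (.c k15 (.l (.s k7 k6 0 (.s k165 k245 11 (.s k86 k244 12 (.s k87 k84 0 (.d k247 k167 k166
  11 12)))))) (.c k247 (.q k251 [(.s k6 k7 0 (.s k15 k10 2 (.s k13 k14 0 (.d k9 k1 k3 1 2)))), (.s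
  k165 k245 11 (.s k160 k175 2 (.s k240 k80 11 (.s k164 k88 13 (.s k168 k172 1 (.d k84 k244 k252 11
  13))))))] (.c k15 (.l (.s k7 k6 0 (.s k165 k245 11 (.s k244 k86 12 (.s k164 k84 11 (.s k240 k88 13
  (.d k160 k80 k175 11 2))))))) .n)) (.c k251 (.l (.s k247 k166 12 (.s k6 k7 0 (.s k9 k3 2 (.s k13
  k1 1 (.d k15 k14 k10 0 2)))))) .n))))) (.c k247 (.l (.s k8 k4 1 (.s k89 k251 12 (.s k243 k166 14
  (.d k81 k93 k162 1 12))))) (.c k251 (.l (.s k4 k8 1 (.s k166 k247 12 (.s k243 k89 14 (.d k162 k174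
  k81 1 12))))) .n))))))))))))

def t2_46 : T TT 256 :=
  (.f k170 k255 14 (.q k240 [(.s k80 k160 11 (.s k90 k95 2 (.s k10 k250 11 (.d k15 k5 k165 2 14))))]
  (.c k5 (.q k4 [(.s k12 k8 1 (.s k166 k247 12 (.s k243 k89 14 (.d k162 k174 k81 1 12)))), (.s k12
  k8 1 (.s k160 k80 11 (.s k164 k88 13 (.s k84 k244 11 (.d k168 k172 k252 1 13))))), (.s k80 k160 11
  (.s k90 k95 2 (.s k166 k247 12 (.s k242 k14 13 (.s k243 k241 0 (.d k162 k174 k81 1 12))))))] .n)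
  (.c k10 (.f k160 k80 11 (.q k42 [(.s k63 k21 6 (.s k106 k234 7 (.s k64 k127 6 (.d k192 k128 k149 7
  14)))), (.s k21 k63 6 (.s k165 k175 2 (.s k5 k245 11 (.s k37 k53 3 (.s k32 k47 2 (.d k101 k239
  k229 10 7)))))), (.s k106 k234 7 (.s k165 k175 2 (.s k224 k47 10 (.s k192 k208 3 (.d k64 k127 k128
  6 7)))))] (.c k6 (.q k14 [(.s k63 k21 6 (.s k106 k234 7 (.s k64 k127 6 (.d k192 k128 k149 7
  14)))), (.s k21 k63 6 (.s k165 k175 2 (.s k5 k245 11 (.s k37 k53 3 (.s k32 k47 2 (.d k101 k239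
  k229 10 7)))))), (.s k106 k234 7 (.s k165 k175 2 (.s k224 k47 10 (.s k192 k208 3 (.d k64 k127 k128
  6 7)))))] (.c k127 (.l (.s k63 k21 6 (.s k106 k234 7 (.s k122 k181 10 (.s k90 k74 3 (.d k165 k175
  k15 2 14)))))) .n)) (.c k14 (.q k6 [(.s k63 k21 6 (.s k106 k234 7 (.s k64 k127 6 (.d k192 k128
  k149 7 14)))), (.s k21 k63 6 (.s k165 k175 2 (.s k5 k245 11 (.s k37 k53 3 (.s k32 k47 2 (.d k101
  k239 k229 10 7)))))), (.s k106 k234 7 (.s k165 k175 2 (.s k224 k47 10 (.s k192 k208 3 (.d k64 k127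
  k128 6 7)))))] (.c k30 (.q k62 [(.s k63 k21 6 (.s k106 k234 7 (.s k64 k127 6 (.d k192 k128 k149 7
  14)))), (.s k21 k63 6 (.s k165 k175 2 (.s k5 k245 11 (.s k37 k53 3 (.s k32 k47 2 (.d k101 k239
  k229 10 7)))))), (.s k106 k234 7 (.s k165 k175 2 (.s k224 k47 10 (.s k192 k208 3 (.d k64 k127 k128
  6 7)))))] (.c k127 (.l (.s k63 k21 6 (.s k60 k61 0 (.s k20 k40 5 (.s k106 k234 7 (.d k150 k215
  k194 8 13)))))) .n)) (.c k62 (.q k30 [(.s k63 k21 6 (.s k106 k234 7 (.s k64 k127 6 (.d k192 k128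
  k149 7 14)))), (.s k21 k63 6 (.s k165 k175 2 (.s k5 k245 11 (.s k37 k53 3 (.s k32 k47 2 (.d k101
  k239 k229 10 7)))))), (.s k106 k234 7 (.s k165 k175 2 (.s k224 k47 10 (.s k192 k208 3 (.d k64 k127
  k128 6 7)))))] (.c k127 (.l (.s k63 k21 6 (.s k106 k234 7 (.s k122 k181 10 (.s k90 k74 3 (.d k165
  k175 k15 2 14)))))) .n)) (.c k127 (.l (.s k63 k21 6 (.s k106 k234 7 (.s k122 k181 10 (.s k90 k74 3
  (.d k165 k175 k15 2 14)))))) .n)))) (.c k127 (.l (.s k63 k21 6 (.s k106 k234 7 (.s k122 k181 10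
  (.s k90 k74 3 (.d k165 k175 k15 2 14)))))) .n))))) (.c k15 (.f k80 k160 11 (.q k192 [(.s k64 k128
  7 (.s k96 k112 3 (.s k208 k224 3 (.d k144 k16 k48 7 11)))), (.s k128 k64 7 (.s k149 k191 6 (.s k21
  k213 7 (.d k63 k42 k106 6 14))))] (.c k64 (.l (.s k208 k224 3 (.s k16 k144 7 (.s k154 k223 10 (.s
  k138 k186 3 (.s k207 k69 10 (.d k48 k32 k101 3 14))))))) (.c k95 (.q k175 [(.s k64 k128 7 (.s k96
  k112 3 (.s k208 k224 3 (.d k144 k16 k48 7 11)))), (.s k128 k64 7 (.s k149 k191 6 (.s k21 k213 7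
  (.d k63 k42 k106 6 14))))] (.c k64 (.l (.s k208 k224 3 (.s k16 k144 7 (.s k154 k223 10 (.s k138
  k186 3 (.s k207 k69 10 (.d k48 k32 k101 3 14))))))) (.c k128 (.l (.s k208 k224 3 (.s k144 k16 7
  (.s k96 k48 11 (.s k64 k112 3 (.s k106 k127 6 (.s k42 k234 7 (.d k63 k21 k149 6 14)))))))) .n)))
  (.c k128 (.l (.s k208 k224 3 (.s k144 k16 7 (.s k96 k48 11 (.s k64 k112 3 (.s k106 k127 6 (.s k42
  k234 7 (.d k63 k21 k149 6 14)))))))) (.c k175 (.l (.s k95 k90 2 (.s k64 k128 7 (.s k96 k112 3 (.s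
  k144 k48 11 (.d k208 k224 k16 3 7)))))) .n)))))) (.c k80 (.q k252 [(.s k84 k168 13 (.s k86 k87 0
  (.s k3 k169 14 (.s k82 k161 12 (.s k90 k94 1 (.s k10 k250 11 (.d k15 k165 k5 14 2))))))), (.s k84
  k168 13 (.s k244 k248 1 (.s k4 k164 11 (.s k166 k247 12 (.s k162 k174 1 (.s k243 k81 12 (.d k12 k8
  k89 1 14)))))))] (.c k82 (.l (.s k84 k168 13 (.s k86 k87 0 (.s k244 k248 1 (.s k165 k7 12 (.s k5
  k245 11 (.d k15 k10 k90 2 14))))))) (.c k84 (.q k162 [(.s k166 k174 1 (.s k4 k247 12 (.s k12 k8 1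
  (.d k243 k81 k89 12 14)))), (.s k243 k81 12 (.s k244 k248 1 (.s k246 k249 2 (.s k247 k245 0 (.d
  k166 k174 k4 1 12))))), (.s k166 k174 1 (.s k243 k81 12 (.s k242 k241 0 (.s k90 k14 13 (.s k10
  k250 11 (.d k15 k5 k165 2 14)))))), (.s k166 k174 1 (.s k244 k248 1 (.s k247 k4 12 (.s k245 k246 0
  (.s k165 k5 11 (.s k7 k86 12 (.d k167 k164 k87 0 11))))))), (.s k243 k81 12 (.s k248 k244 1 (.s
  k249 k246 2 (.s k251 k250 0 (.s k8 k89 12 (.s k88 k168 11 (.d k12 k4 k164 1 13)))))))] (.c k88 (.q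
  k92 [(.s k12 k172 11 (.s k4 k8 1 (.d k166 k174 k247 1 12))), (.s k12 k172 11 (.s k166 k174 1 (.d
  k243 k81 k89 12 14))), (.s k243 k81 12 (.s k244 k248 1 (.s k246 k249 2 (.s k247 k245 0 (.d k166
  k174 k4 1 12))))), (.s k12 k172 11 (.s k8 k4 1 (.s k81 k243 12 (.d k89 k251 k93 12 1))))] .n) (.c
  k92 (.q k88 [(.s k248 k244 1 (.s k8 k168 11 (.d k12 k4 k164 1 13))), (.s k166 k174 1 (.s k243 k81
  12 (.d k12 k164 k89 13 14)))] (.c k12 (.l (.s k81 k243 12 (.s k248 k244 1 (.s k8 k168 11 (.d k89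
  k251 k93 12 1))))) (.c k164 (.l (.s k166 k174 1 (.s k4 k247 12 (.s k12 k8 1 (.d k243 k81 k89 12
  14))))) .n))) .n))) (.c k168 (.q k4 [(.s k244 k248 1 (.s k164 k84 11 (.d k12 k8 k88 1 13))), (.s
  k166 k247 12 (.s k162 k174 1 (.s k243 k81 12 (.s k242 k241 0 (.s k90 k14 13 (.s k10 k250 11 (.d
  k15 k5 k165 2 14)))))))] (.c k12 (.l (.s k166 k247 12 (.s k244 k248 1 (.s k84 k164 11 (.s k86 k87
  0 (.s k6 k246 11 (.d k7 k5 k165 0 12))))))) .n)) .n)))) (.c k90 (.q k4 [(.s k12 k8 1 (.s k166 k247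
  12 (.s k162 k174 1 (.d k243 k81 k89 12 14)))), (.s k12 k8 1 (.s k160 k80 11 (.s k164 k88 13 (.s
  k84 k244 11 (.d k168 k172 k252 1 13))))), (.s k160 k80 11 (.s k165 k175 2 (.s k166 k247 12 (.s
  k164 k167 0 (.s k84 k244 11 (.d k168 k172 k252 1 13))))))] .n) (.c k95 (.l (.s k160 k80 11 (.s
  k165 k175 2 (.s k15 k90 14 (.d k5 k10 k245 2 11))))) (.c k160 (.q k149 [(.s k21 k213 7 (.s k128
  k191 6 (.s k192 k64 7 (.d k63 k42 k106 6 14)))), (.s k128 k191 6 (.s k192 k64 7 (.s k208 k224 3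
  (.s k90 k31 10 (.s k10 k250 11 (.d k15 k5 k165 2 14)))))), (.s k21 k213 7 (.s k63 k42 6 (.s k181
  k122 10 (.s k165 k133 3 (.s k5 k245 11 (.d k15 k10 k90 2 14))))))] (.c k63 (.q k89 [(.s k8 k251 12
  (.s k12 k4 1 (.s k81 k93 1 (.d k243 k162 k166 12 14)))), (.s k21 k213 7 (.s k29 k209 9 (.s k17 k25
  1 (.s k93 k81 1 (.d k221 k157 k153 7 9))))), (.s k8 k251 12 (.s k12 k4 1 (.s k88 k164 13 (.s k90
  k91 0 (.s k10 k250 11 (.d k15 k5 k165 2 14))))))] (.c k12 (.l (.s k29 k209 9 (.s k21 k213 7 (.s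
  k17 k25 1 (.s k93 k81 1 (.d k221 k157 k153 7 9)))))) (.c k29 (.q k12 [(.d k8 k4 k251 1 12), (.s
  k81 k93 1 (.d k243 k162 k166 12 14))] (.c k127 (.l (.s k191 k128 6 (.d k8 k4 k251 1 12))) (.c k191
  (.q k127 [(.d k8 k4 k251 1 12), (.s k81 k93 1 (.d k243 k162 k166 12 14))] .n) .n))) (.c k127 (.l
  (.s k191 k128 6 (.s k8 k251 12 (.s k12 k4 1 (.s k81 k93 1 (.d k243 k162 k166 12 14)))))) (.c k191
  (.q k127 [(.s k8 k251 12 (.s k12 k4 1 (.s k81 k93 1 (.d k243 k162 k166 12 14)))), (.s k21 k213 7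
  (.s k29 k209 9 (.s k17 k25 1 (.s k93 k81 1 (.d k221 k157 k153 7 9))))), (.s k8 k251 12 (.s k12 k4
  1 (.s k64 k106 6 (.s k192 k128 7 (.s k132 k72 9 (.d k166 k243 k183 14 4))))))] (.c k12 (.l (.s k29
  k209 9 (.s k21 k213 7 (.s k17 k25 1 (.s k93 k81 1 (.d k221 k157 k153 7 9)))))) (.c k29 (.q k12
  [(.d k8 k4 k251 1 12), (.s k81 k93 1 (.d k243 k162 k166 12 14))] .n) .n))) .n))))) (.c k192 (.q
  k162 [(.s k243 k81 12 (.s k166 k174 1 (.s k12 k89 14 (.d k4 k8 k247 1 12)))), (.s k81 k243 12 (.s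
  k128 k191 6 (.s k145 k179 4 (.s k153 k157 1 (.d k17 k209 k221 7 9))))), (.s k128 k191 6 (.s k166
  k174 1 (.s k132 k183 4 (.s k140 k136 1 (.d k179 k145 k153 4 6)))))] (.c k174 (.l (.s k81 k243 12
  (.s k128 k191 6 (.s k145 k179 4 (.s k209 k17 7 (.d k89 k93 k29 1 9)))))) (.c k213 (.q k234 [(.s
  k243 k81 12 (.s k166 k174 1 (.s k12 k89 14 (.d k4 k8 k247 1 12)))), (.s k42 k106 7 (.s k63 k21 6
  (.s k243 k81 12 (.s k183 k123 9 (.d k166 k174 k132 1 4))))), (.s k128 k191 6 (.s k166 k174 1 (.s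
  k132 k183 4 (.s k140 k136 1 (.d k179 k145 k153 4 6))))), (.s k81 k243 12 (.s k128 k191 6 (.s k145
  k179 4 (.s k209 k17 7 (.d k89 k93 k29 1 9)))))] .n) (.c k234 (.l (.s k213 k21 7 (.s k166 k174 1
  (.s k4 k247 12 (.s k12 k8 1 (.d k243 k81 k89 12 14)))))) .n)))) .n))) (.c k165 (.q k4 [(.s k12 k8
  1 (.s k166 k247 12 (.s k162 k174 1 (.d k243 k81 k89 12 14)))), (.s k12 k8 1 (.s k160 k80 11 (.s
  k164 k88 13 (.s k84 k244 11 (.d k168 k172 k252 1 13))))), (.s k80 k160 11 (.s k90 k95 2 (.s k166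
  k247 12 (.s k242 k14 13 (.s k243 k241 0 (.d k162 k174 k81 1 12))))))] .n) (.c k175 (.l (.s k80
  k160 11 (.s k90 k95 2 (.s k15 k165 14 (.d k10 k5 k250 2 11))))) (.c k250 (.l (.s k160 k80 11 (.s
  k165 k175 2 (.s k5 k245 11 (.d k15 k10 k90 2 14))))) .n))))))))))))

def t2_47 : T TT 256 :=
  (.f k170 k255 14 (.q k12 [(.s k4 k8 1 (.s k166 k247 12 (.s k162 k174 1 (.d k243 k81 k89 12 14))))]
  (.c k4 (.q k65 [(.s k195 k130 8 (.s k105 k125 5 (.s k60 k150 14 (.d k40 k20 k235 5 8)))), (.s k195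
  k130 8 (.s k73 k134 10 (.s k69 k77 1 (.s k101 k117 3 (.s k32 k239 10 (.s k48 k16 3 (.d k207 k138
  k154 10 14))))))), (.s k105 k125 5 (.s k40 k235 8 (.s k60 k20 5 (.s k44 k28 3 (.s k166 k227 10 (.s
  k162 k174 1 (.d k243 k81 k89 12 14)))))))] (.c k195 (.f k105 k125 5 (.q k60 [(.d k40 k235 k20 8
  5), (.s k44 k28 3 (.s k166 k227 10 (.s k162 k174 1 (.d k243 k81 k89 12 14))))] (.c k215 (.l (.s
  k235 k40 8 (.s k44 k28 3 (.s k166 k227 10 (.s k162 k174 1 (.d k243 k81 k89 12 14)))))) (.c k235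
  (.q k215 [(.d k20 k40 k150 5 8), (.s k44 k28 3 (.s k166 k227 10 (.s k162 k174 1 (.d k243 k81 k89
  12 14))))] .n) .n)))) .n)) (.c k8 (.q k65 [(.s k105 k125 5 (.s k40 k235 8 (.s k60 k20 5 (.d k195
  k130 k150 8 14)))), (.s k195 k130 8 (.s k73 k134 10 (.s k69 k77 1 (.s k101 k117 3 (.s k32 k239 10
  (.s k48 k16 3 (.d k207 k138 k154 10 14)))))))] (.c k130 (.l (.s k105 k125 5 (.s k40 k235 8 (.s k60
  k20 5 (.s k44 k28 3 (.s k166 k227 10 (.s k162 k174 1 (.d k243 k81 k89 12 14)))))))) (.c k195 (.f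
  k105 k125 5 (.q k60 [(.d k40 k235 k20 8 5), (.s k44 k28 3 (.s k166 k227 10 (.s k162 k174 1 (.d
  k243 k81 k89 12 14))))] (.c k215 (.l (.s k235 k40 8 (.s k44 k28 3 (.s k166 k227 10 (.s k162 k174 1
  (.d k243 k81 k89 12 14)))))) (.c k235 (.q k215 [(.d k20 k40 k150 5 8), (.s k44 k28 3 (.s k166 k227
  10 (.s k162 k174 1 (.d k243 k81 k89 12 14))))] .n) .n)))) .n))) (.c k81 (.q k5 [(.s k15 k10 2 (.s
  k165 k245 11 (.s k240 k90 14 (.d k160 k175 k80 2 11)))), (.s k4 k8 1 (.s k6 k7 0 (.s k9 k3 2 (.s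
  k13 k1 1 (.d k15 k14 k10 0 2))))), (.s k4 k8 1 (.s k165 k245 11 (.s k160 k175 2 (.s k166 k247 12
  (.s k164 k167 0 (.d k240 k80 k88 11 13))))))] (.c k15 (.l (.s k4 k8 1 (.s k7 k6 0 (.s k165 k245 11
  (.s k86 k244 12 (.s k87 k84 0 (.d k247 k167 k166 11 12))))))) .n)) (.c k89 (.q k5 [(.s k165 k245
  11 (.s k160 k175 2 (.s k240 k80 11 (.d k15 k10 k90 2 14)))), (.s k4 k8 1 (.s k6 k7 0 (.s k9 k3 2
  (.s k13 k1 1 (.d k15 k14 k10 0 2)))))] (.c k10 (.l (.s k4 k8 1 (.s k165 k245 11 (.s k160 k175 2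
  (.s k166 k247 12 (.s k164 k167 0 (.d k240 k80 k88 11 13))))))) (.c k15 (.l (.s k4 k8 1 (.s k7 k6 0
  (.s k165 k245 11 (.s k86 k244 12 (.s k87 k84 0 (.d k247 k167 k166 11 12))))))) .n))) (.c k162 (.f
  k4 k8 1 (.q k134 [(.s k69 k199 8 (.s k73 k195 10 (.s k77 k65 1 (.d k207 k142 k138 8 10)))), (.s
  k166 k247 12 (.s k150 k182 3 (.s k130 k190 5 (.d k195 k65 k73 8 10)))), (.s k69 k199 8 (.s k101
  k117 3 (.s k32 k239 10 (.s k48 k16 3 (.d k207 k138 k154 10 14)))))] (.c k82 (.q k242 [(.s k69 k199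
  8 (.s k73 k195 10 (.s k77 k65 1 (.d k207 k142 k138 8 10)))), (.s k166 k247 12 (.s k150 k182 3 (.s
  k130 k190 5 (.d k195 k65 k73 8 10)))), (.s k69 k199 8 (.s k101 k117 3 (.s k32 k239 10 (.s k48 k16
  3 (.d k207 k138 k154 10 14)))))] .n) (.c k242 (.q k82 [(.s k69 k199 8 (.s k73 k195 10 (.s k77 k65
  1 (.d k207 k142 k138 8 10)))), (.s k166 k247 12 (.s k150 k182 3 (.s k130 k190 5 (.d k195 k65 k73 8
  10)))), (.s k69 k199 8 (.s k101 k117 3 (.s k32 k239 10 (.s k48 k16 3 (.d k207 k138 k154 10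
  14)))))] .n) .n)))) (.c k166 (.q k5 [(.s k165 k245 11 (.s k160 k175 2 (.s k240 k80 11 (.d k15 k10
  k90 2 14)))), (.s k4 k8 1 (.s k6 k7 0 (.s k9 k3 2 (.s k13 k1 1 (.d k15 k14 k10 0 2))))), (.s k8 k4
  1 (.s k89 k251 12 (.s k93 k81 1 (.s k165 k245 11 (.s k13 k241 13 (.s k1 k9 1 (.d k253 k173 k169 11
  13)))))))] .n) (.c k174 (.l (.s k8 k4 1 (.s k89 k251 12 (.s k81 k93 1 (.d k243 k162 k166 12
  14))))) (.c k243 (.f k4 k8 1 (.q k5 [(.s k6 k7 0 (.s k15 k10 2 (.s k13 k14 0 (.d k9 k1 k3 1 2)))),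
  (.s k165 k245 11 (.s k160 k175 2 (.s k240 k80 11 (.s k164 k88 13 (.d k166 k247 k167 12 0)))))] (.c
  k15 (.l (.s k7 k6 0 (.s k165 k245 11 (.s k86 k244 12 (.s k87 k84 0 (.d k247 k167 k166 11 12))))))
  (.c k247 (.q k251 [(.s k6 k7 0 (.s k15 k10 2 (.s k13 k14 0 (.d k9 k1 k3 1 2)))), (.s k165 k245 11
  (.s k160 k175 2 (.s k240 k80 11 (.s k164 k88 13 (.s k168 k172 1 (.d k84 k244 k252 11 13))))))] (.c
  k15 (.l (.s k7 k6 0 (.s k165 k245 11 (.s k244 k86 12 (.s k164 k84 11 (.s k240 k88 13 (.d k160 k80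
  k175 11 2))))))) .n)) (.c k251 (.l (.s k247 k166 12 (.s k6 k7 0 (.s k9 k3 2 (.s k13 k1 1 (.d k15
  k14 k10 0 2)))))) .n))))) (.c k247 (.l (.s k8 k4 1 (.s k89 k251 12 (.s k243 k166 14 (.d k81 k93
  k162 1 12))))) (.c k251 (.l (.s k4 k8 1 (.s k166 k247 12 (.s k243 k89 14 (.d k162 k174 k81 1
  12))))) .n))))))))))))

def t2_60 : T TT 256 :=
  (.q k89 [(.s k81 k93 1 (.s k243 k162 12 (.s k12 k166 14 (.s k8 k4 1 (.d k170 k251 k255 12 14))))),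
  (.s k93 k81 1 (.s k255 k170 14 (.s k12 k174 12 (.s k166 k243 14 (.d k4 k8 k247 1 12)))))] (.c k4
  (.q k1 [(.s k93 k81 1 (.s k253 k169 13 (.s k13 k173 11 (.s k165 k241 13 (.d k5 k9 k245 1 11))))),
  (.s k169 k253 13 (.s k9 k249 11 (.s k170 k255 14 (.s k8 k251 12 (.s k10 k11 0 (.d k5 k13 k15 1
  2)))))), (.s k81 k93 1 (.s k161 k241 11 (.s k162 k243 12 (.s k160 k163 0 (.s k170 k255 14 (.s k165
  k175 2 (.d k169 k173 k253 1 13)))))))] (.c k169 (.l (.s k81 k93 1 (.s k170 k255 14 (.s k241 k161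
  11 (.s k165 k13 13 (.s k160 k175 2 (.s k240 k80 11 (.d k243 k242 k162 0 12)))))))) (.c k241 (.l
  (.s k81 k93 1 (.s k169 k253 13 (.s k170 k255 14 (.s k168 k171 0 (.s k243 k162 12 (.s k249 k9 11
  (.d k252 k246 k84 2 13)))))))) (.c k253 (.l (.s k81 k93 1 (.s k241 k161 11 (.s k13 k165 13 (.s k5
  k9 1 (.s k15 k10 2 (.s k243 k162 12 (.d k12 k14 k166 0 14)))))))) .n)))) (.c k8 (.l (.s k81 k93 1
  (.s k243 k162 12 (.s k166 k12 14 (.s k247 k4 12 (.d k255 k251 k170 1 14)))))) (.c k12 (.f k255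
  k170 14 (.f k93 k81 1 (.q k86 [(.s k84 k87 0 (.s k92 k83 2 (.s k95 k94 0 (.d k80 k88 k90 1 2)))),
  (.s k84 k87 0 (.s k252 k168 13 (.s k169 k3 14 (.d k253 k254 k1 0 13)))), (.s k92 k83 2 (.s k95 k94
  0 (.s k15 k175 11 (.s k5 k10 2 (.s k165 k245 11 (.d k90 k80 k240 2 14))))))] (.c k28 (.q k44 [(.s
  k84 k87 0 (.s k92 k83 2 (.s k95 k94 0 (.d k80 k88 k90 1 2)))), (.s k84 k87 0 (.s k252 k168 13 (.s
  k169 k3 14 (.d k253 k254 k1 0 13)))), (.s k92 k83 2 (.s k95 k94 0 (.s k15 k175 11 (.s k5 k10 2 (.s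
  k165 k245 11 (.d k90 k80 k240 2 14))))))] .n) (.c k44 (.q k28 [(.s k84 k87 0 (.s k92 k83 2 (.s k95
  k94 0 (.d k80 k88 k90 1 2)))), (.s k150 k211 10 (.s k20 k215 8 (.s k16 k24 1 (.d k223 k158 k154 8
  10))))] .n) .n))))) (.c k81 (.q k15 [(.s k10 k5 2 (.s k170 k255 14 (.s k90 k250 11 (.s k80 k95 2
  (.d k240 k160 k165 11 14))))), (.s k255 k170 14 (.s k95 k175 11 (.s k90 k80 2 (.s k91 k88 0 (.s
  k243 k167 13 (.s k166 k12 14 (.d k247 k251 k4 1 12))))))), (.s k170 k255 14 (.s k8 k251 12 (.s k12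
  k4 1 (.s k13 k14 0 (.s k165 k241 13 (.d k5 k10 k245 2 11))))))] (.c k165 (.l (.s k10 k5 2 (.s k170
  k255 14 (.s k8 k251 12 (.s k11 k9 0 (.s k90 k250 11 (.s k88 k91 0 (.d k248 k168 k169 11 12))))))))
  (.c k170 (.l (.s k5 k10 2 (.s k165 k245 11 (.s k13 k241 13 (.s k90 k240 14 (.s k91 k88 0 (.s k243
  k167 13 (.d k12 k14 k166 0 14)))))))) (.c k255 (.l (.s k5 k10 2 (.s k165 k245 11 (.s k240 k90 14
  (.s k241 k13 13 (.s k243 k242 0 (.s k166 k12 14 (.d k167 k164 k91 0 13)))))))) .n)))) (.c k93 (.q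
  k15 [(.s k5 k10 2 (.s k165 k245 11 (.s k90 k240 14 (.s k95 k80 2 (.d k255 k175 k170 11 14))))),
  (.s k5 k10 2 (.s k165 k245 11 (.s k13 k241 13 (.s k9 k1 1 (.s k12 k14 0 (.s k6 k3 2 (.d k4 k7 k8 0
  1))))))), (.s k255 k170 14 (.s k95 k175 11 (.s k90 k80 2 (.s k91 k88 0 (.s k243 k167 13 (.s k166
  k12 14 (.d k247 k251 k4 1 12)))))))] (.c k165 (.l (.s k10 k5 2 (.s k170 k255 14 (.s k8 k251 12 (.s
  k11 k9 0 (.s k90 k250 11 (.s k88 k91 0 (.d k248 k168 k169 11 12)))))))) .n)) (.c k162 (.l (.s k93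
  k81 1 (.s k255 k170 14 (.s k12 k174 12 (.s k166 k243 14 (.d k4 k8 k247 1 12)))))) (.c k166 (.q k5
  [(.s k93 k81 1 (.s k165 k245 11 (.s k13 k241 13 (.s k1 k9 1 (.d k253 k173 k169 11 13))))), (.s k15
  k10 2 (.s k165 k245 11 (.s k90 k240 14 (.s k95 k80 2 (.d k255 k175 k170 11 14))))), (.s k10 k15 2
  (.s k170 k255 14 (.s k8 k251 12 (.s k9 k11 0 (.s k1 k13 1 (.d k169 k249 k253 11 13))))))] .n) (.c
  k170 (.q k86 [(.s k84 k87 0 (.s k92 k83 2 (.s k80 k88 1 (.s k93 k81 1 (.d k95 k94 k90 0 2))))),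
  (.s k81 k93 1 (.s k84 k87 0 (.s k243 k162 12 (.s k166 k12 14 (.s k246 k6 11 (.d k252 k249 k168 2
  13)))))), (.s k84 k87 0 (.s k92 k83 2 (.s k252 k168 13 (.s k12 k172 11 (.s k4 k8 1 (.d k166 k247
  k243 12 14)))))), (.s k81 k93 1 (.s k83 k92 2 (.s k243 k162 12 (.s k3 k163 11 (.s k166 k12 14 (.s
  k246 k6 11 (.d k252 k249 k169 2 14)))))))] .n) (.c k174 (.l (.s k81 k93 1 (.s k243 k162 12 (.s k12
  k166 14 (.s k170 k255 14 (.d k8 k4 k251 1 12)))))) (.c k243 (.f k93 k81 1 (.f k255 k170 14 (.q k86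
  [(.s k84 k87 0 (.s k252 k168 13 (.s k253 k254 0 (.d k169 k1 k3 13 14)))), (.s k84 k87 0 (.s k92
  k83 2 (.s k80 k88 1 (.d k95 k94 k90 0 2)))), (.s k12 k174 12 (.s k92 k83 2 (.s k252 k172 11 (.s
  k253 k254 0 (.d k169 k3 k1 14 13)))))] (.c k3 (.l (.s k12 k174 12 (.s k84 k87 0 (.s k252 k168 13
  (.d k92 k83 k172 2 11))))) (.c k121 (.q k182 [(.s k84 k87 0 (.s k252 k168 13 (.s k253 k254 0 (.d
  k169 k1 k3 13 14)))), (.s k84 k87 0 (.s k92 k83 2 (.s k80 k88 1 (.d k95 k94 k90 0 2)))), (.s k12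
  k174 12 (.s k92 k83 2 (.s k252 k172 11 (.s k253 k254 0 (.d k169 k3 k1 14 13)))))] (.c k3 (.l (.s
  k12 k174 12 (.s k84 k87 0 (.s k252 k168 13 (.d k92 k83 k172 2 11))))) .n)) (.c k182 (.q k121 [(.s
  k84 k87 0 (.s k252 k168 13 (.s k253 k254 0 (.d k169 k1 k3 13 14)))), (.s k105 k73 3 (.s k125 k65 5
  (.s k77 k109 3 (.d k113 k117 k101 1 5))))] .n) .n)))))) (.c k255 (.q k51 [(.s k17 k34 4 (.s k93
  k81 1 (.s k221 k153 9 (.s k29 k157 7 (.s k21 k25 1 (.d k149 k213 k209 7 9)))))), (.s k81 k93 1 (.s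
  k243 k162 12 (.s k115 k179 7 (.s k102 k76 6 (.s k68 k119 4 (.d k204 k136 k153 9 14)))))), (.s k17
  k34 4 (.s k153 k221 9 (.s k25 k217 7 (.s k12 k38 6 (.s k4 k8 1 (.d k166 k247 k243 12 14))))))] (.c
  k125 (.q k190 [(.s k17 k34 4 (.s k93 k81 1 (.s k221 k153 9 (.s k29 k157 7 (.s k21 k25 1 (.d k149
  k213 k209 7 9)))))), (.s k81 k93 1 (.s k243 k162 12 (.s k115 k179 7 (.s k102 k76 6 (.s k68 k119 4
  (.d k204 k136 k153 9 14)))))), (.s k17 k34 4 (.s k153 k221 9 (.s k25 k217 7 (.s k12 k38 6 (.s k4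
  k8 1 (.d k166 k247 k243 12 14))))))] (.c k153 (.l (.s k17 k34 4 (.s k81 k93 1 (.s k145 k209 7 (.s
  k98 k192 12 (.s k115 k64 4 (.d k243 k179 k162 7 12))))))) .n)) (.c k153 (.l (.s k17 k34 4 (.s k81
  k93 1 (.s k145 k209 7 (.s k98 k192 12 (.s k115 k64 4 (.d k243 k179 k162 7 12))))))) (.c k190 (.q
  k125 [(.s k93 k81 1 (.s k77 k109 3 (.s k105 k65 5 (.s k113 k101 5 (.d k121 k117 k73 1 3))))), (.s
  k17 k34 4 (.s k153 k221 9 (.s k25 k217 7 (.s k12 k38 6 (.s k4 k8 1 (.d k166 k247 k243 12 14))))))]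
  .n) .n)))) .n))))))))))))

def t2_61 : T TT 256 :=
  (.f k170 k255 14 (.q k240 [(.s k80 k160 11 (.s k90 k95 2 (.s k10 k250 11 (.d k15 k5 k165 2 14))))]
  (.c k5 (.q k4 [(.s k12 k8 1 (.s k166 k247 12 (.s k162 k174 1 (.d k243 k81 k89 12 14)))), (.s k12
  k8 1 (.s k160 k80 11 (.s k164 k88 13 (.s k84 k244 11 (.d k168 k172 k252 1 13))))), (.s k80 k160 11
  (.s k90 k95 2 (.s k166 k247 12 (.s k242 k14 13 (.s k243 k241 0 (.d k162 k174 k81 1 12))))))] .n)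
  (.c k10 (.f k160 k80 11 (.f k175 k165 2 (.q k224 [(.s k96 k32 7 (.s k192 k208 3 (.s k128 k64 7 (.d
  k144 k176 k48 3 11)))), (.s k32 k96 7 (.s k101 k239 10 (.s k69 k117 3 (.s k207 k138 10 (.d k48 k16
  k154 3 14))))), (.s k192 k208 3 (.s k64 k128 7 (.s k106 k127 6 (.s k42 k234 7 (.d k63 k21 k149 6
  14)))))] (.c k6 (.q k14 [(.s k96 k32 7 (.s k192 k208 3 (.s k128 k64 7 (.d k144 k176 k48 3 11)))),
  (.s k32 k96 7 (.s k101 k239 10 (.s k69 k117 3 (.s k207 k138 10 (.d k48 k16 k154 3 14))))), (.s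
  k192 k208 3 (.s k64 k128 7 (.s k106 k127 6 (.s k42 k234 7 (.d k63 k21 k149 6 14)))))] (.c k16 (.l
  (.s k96 k32 7 (.s k192 k208 3 (.s k144 k48 11 (.d k128 k176 k64 3 7))))) (.c k64 (.l (.s k96 k32 7
  (.s k192 k208 3 (.s k144 k48 11 (.s k128 k176 3 (.s k149 k191 6 (.s k21 k213 7 (.d k63 k42 k106 6
  14)))))))) .n))) (.c k14 (.q k6 [(.s k96 k32 7 (.s k192 k208 3 (.s k128 k64 7 (.d k144 k176 k48 3
  11)))), (.s k32 k96 7 (.s k101 k239 10 (.s k69 k117 3 (.s k207 k138 10 (.d k48 k16 k154 3 14))))),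
  (.s k192 k208 3 (.s k64 k128 7 (.s k106 k127 6 (.s k42 k234 7 (.d k63 k21 k149 6 14)))))] (.c k16
  (.l (.s k96 k32 7 (.s k192 k208 3 (.s k144 k48 11 (.d k128 k176 k64 3 7))))) (.c k64 (.l (.s k96
  k32 7 (.s k192 k208 3 (.s k144 k48 11 (.s k128 k176 3 (.s k149 k191 6 (.s k21 k213 7 (.d k63 k42
  k106 6 14)))))))) .n))) (.c k16 (.l (.s k96 k32 7 (.s k192 k208 3 (.s k144 k48 11 (.d k128 k176
  k64 3 7))))) (.c k64 (.l (.s k96 k32 7 (.s k192 k208 3 (.s k144 k48 11 (.s k128 k176 3 (.s k149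
  k191 6 (.s k21 k213 7 (.d k63 k42 k106 6 14)))))))) .n))))))) (.c k15 (.f k80 k160 11 (.q k192
  [(.s k64 k128 7 (.s k96 k112 3 (.s k208 k224 3 (.d k144 k16 k48 7 11)))), (.s k128 k64 7 (.s k149
  k191 6 (.s k21 k213 7 (.d k63 k42 k106 6 14))))] (.c k64 (.l (.s k208 k224 3 (.s k16 k144 7 (.s
  k154 k223 10 (.s k138 k186 3 (.s k207 k69 10 (.d k48 k32 k101 3 14))))))) (.c k95 (.q k175 [(.s
  k64 k128 7 (.s k96 k112 3 (.s k208 k224 3 (.d k144 k16 k48 7 11)))), (.s k128 k64 7 (.s k149 k191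
  6 (.s k21 k213 7 (.d k63 k42 k106 6 14))))] (.c k64 (.l (.s k208 k224 3 (.s k16 k144 7 (.s k154
  k223 10 (.s k138 k186 3 (.s k207 k69 10 (.d k48 k32 k101 3 14))))))) (.c k128 (.l (.s k208 k224 3
  (.s k144 k16 7 (.s k96 k48 11 (.s k64 k112 3 (.s k106 k127 6 (.s k42 k234 7 (.d k63 k21 k149 6
  14)))))))) .n))) (.c k128 (.l (.s k208 k224 3 (.s k144 k16 7 (.s k96 k48 11 (.s k64 k112 3 (.s
  k106 k127 6 (.s k42 k234 7 (.d k63 k21 k149 6 14)))))))) (.c k175 (.l (.s k95 k90 2 (.s k64 k128 7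
  (.s k96 k112 3 (.s k144 k48 11 (.d k208 k224 k16 3 7)))))) .n)))))) (.c k80 (.q k252 [(.s k84 k168
  13 (.s k86 k87 0 (.s k3 k169 14 (.s k82 k161 12 (.s k90 k94 1 (.s k10 k250 11 (.d k15 k165 k5 14
  2))))))), (.s k84 k168 13 (.s k244 k248 1 (.s k4 k164 11 (.s k166 k247 12 (.s k162 k174 1 (.s k243
  k81 12 (.d k12 k8 k89 1 14)))))))] (.c k82 (.l (.s k84 k168 13 (.s k86 k87 0 (.s k244 k248 1 (.s
  k165 k7 12 (.s k5 k245 11 (.d k15 k10 k90 2 14))))))) (.c k84 (.q k88 [(.s k248 k244 1 (.s k8 k168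
  11 (.d k12 k4 k164 1 13))), (.s k12 k164 13 (.s k4 k8 1 (.s k166 k247 12 (.s k162 k174 1 (.d k243
  k81 k89 12 14)))))] (.c k4 (.l (.s k164 k12 13 (.s k248 k244 1 (.s k8 k168 11 (.s k89 k251 12 (.s
  k90 k91 0 (.s k10 k250 11 (.d k11 k9 k169 0 12)))))))) (.c k8 (.q k5 [(.s k165 k245 11 (.d k15 k10
  k90 2 14)), (.s k164 k12 13 (.s k165 k245 11 (.s k166 k167 0 (.s k4 k247 12 (.s k7 k6 0 (.d k244
  k248 k86 1 12)))))), (.s k10 k15 2 (.s k12 k164 13 (.s k90 k250 11 (.s k89 k91 0 (.s k81 k93 1 (.d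
  k243 k162 k166 12 14))))))] (.c k10 (.l (.s k12 k164 13 (.s k165 k245 11 (.s k15 k90 14 (.s k172
  k92 11 (.s k173 k94 12 (.d k175 k174 k160 0 2))))))) .n)) (.c k12 (.l (.s k248 k244 1 (.s k8 k168
  11 (.s k89 k251 12 (.s k90 k91 0 (.s k10 k250 11 (.d k11 k9 k169 0 12))))))) (.c k164 (.q k4 [(.s
  k248 k244 1 (.d k8 k12 k168 1 11)), (.s k166 k247 12 (.s k162 k174 1 (.s k243 k81 12 (.s k242 k241
  0 (.s k90 k14 13 (.d k89 k12 k91 14 0))))))] (.c k12 (.l (.s k248 k244 1 (.s k8 k168 11 (.s k89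
  k251 12 (.s k90 k91 0 (.s k10 k250 11 (.d k11 k9 k169 0 12))))))) .n)) (.c k244 (.l (.s k12 k164
  13 (.s k4 k8 1 (.s k166 k247 12 (.s k162 k174 1 (.d k243 k81 k89 12 14)))))) .n)))))) (.c k168 (.q
  k4 [(.s k244 k248 1 (.s k164 k84 11 (.d k12 k8 k88 1 13))), (.s k166 k247 12 (.s k162 k174 1 (.s
  k243 k81 12 (.s k242 k241 0 (.s k90 k14 13 (.s k10 k250 11 (.d k15 k5 k165 2 14)))))))] (.c k12
  (.l (.s k166 k247 12 (.s k244 k248 1 (.s k84 k164 11 (.s k86 k87 0 (.s k6 k246 11 (.d k7 k5 k165 0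
  12))))))) .n)) .n)))) (.c k90 (.q k4 [(.s k12 k8 1 (.s k166 k247 12 (.s k162 k174 1 (.d k243 k81
  k89 12 14)))), (.s k12 k8 1 (.s k160 k80 11 (.s k164 k88 13 (.s k84 k244 11 (.d k168 k172 k252 1
  13))))), (.s k160 k80 11 (.s k165 k175 2 (.s k166 k247 12 (.s k164 k167 0 (.s k84 k244 11 (.d k168
  k172 k252 1 13))))))] .n) (.c k95 (.l (.s k160 k80 11 (.s k165 k175 2 (.s k15 k90 14 (.d k5 k10
  k245 2 11))))) (.c k160 (.q k89 [(.s k8 k251 12 (.s k12 k4 1 (.s k81 k93 1 (.d k243 k162 k166 12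
  14)))), (.s k81 k93 1 (.s k243 k162 12 (.s k12 k166 14 (.s k88 k164 13 (.s k90 k91 0 (.s k10 k250
  11 (.d k15 k165 k5 14 2))))))), (.s k8 k251 12 (.s k12 k4 1 (.s k88 k164 13 (.s k90 k91 0 (.s k10
  k250 11 (.d k15 k5 k165 2 14))))))] (.c k12 (.q k90 [(.s k10 k250 11 (.d k15 k5 k165 2 14)), (.s
  k15 k165 14 (.s k91 k88 0 (.s k243 k167 13 (.d k81 k93 k162 1 12)))), (.s k8 k251 12 (.s k10 k250
  11 (.s k11 k9 0 (.s k88 k91 0 (.d k248 k168 k169 11 12)))))] (.c k93 (.q k174 [(.s k10 k250 11 (.d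
  k15 k5 k165 2 14)), (.s k15 k165 14 (.s k91 k88 0 (.s k162 k166 1 (.d k243 k167 k81 13 12)))), (.s
  k8 k251 12 (.s k10 k250 11 (.s k11 k9 0 (.s k88 k91 0 (.d k248 k168 k169 11 12)))))] .n) (.c k174
  (.l (.s k93 k81 1 (.s k10 k250 11 (.d k15 k5 k165 2 14)))) .n))) (.c k243 (.f k251 k8 12 (.q k5
  [(.s k165 k245 11 (.d k15 k10 k90 2 14)), (.s k93 k81 1 (.s k165 k245 11 (.s k13 k241 13 (.s k253
  k173 11 (.d k1 k9 k169 1 13))))), (.s k10 k15 2 (.s k90 k250 11 (.s k91 k88 0 (.s k93 k81 1 (.s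
  k95 k80 2 (.s k83 k87 1 (.d k92 k94 k86 0 2)))))))] .n)) .n))) (.c k165 (.q k4 [(.s k12 k8 1 (.s
  k166 k247 12 (.s k162 k174 1 (.d k243 k81 k89 12 14)))), (.s k12 k8 1 (.s k160 k80 11 (.s k164 k88
  13 (.s k84 k244 11 (.d k168 k172 k252 1 13))))), (.s k80 k160 11 (.s k90 k95 2 (.s k166 k247 12
  (.s k242 k14 13 (.s k243 k241 0 (.d k162 k174 k81 1 12))))))] .n) (.c k175 (.l (.s k80 k160 11 (.s
  k90 k95 2 (.s k15 k165 14 (.d k10 k5 k250 2 11))))) (.c k250 (.l (.s k160 k80 11 (.s k165 k175 2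
  (.s k5 k245 11 (.d k15 k10 k90 2 14))))) .n))))))))))))

def t2_62 : T TT 256 :=
  (.f k170 k255 14 (.q k42 [(.s k63 k21 6 (.s k106 k234 7 (.s k64 k127 6 (.d k192 k128 k149 7
  14))))] (.c k21 (.q k4 [(.s k12 k8 1 (.s k166 k247 12 (.s k162 k174 1 (.d k243 k81 k89 12 14)))),
  (.s k8 k12 1 (.s k59 k25 4 (.s k106 k234 7 (.s k153 k200 12 (.s k187 k136 4 (.d k251 k123 k89 7
  12)))))), (.s k106 k234 7 (.s k166 k247 12 (.s k46 k226 9 (.s k34 k38 1 (.s k174 k162 1 (.d k238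
  k110 k102 7 9))))))] (.c k174 (.l (.s k12 k8 1 (.s k106 k234 7 (.s k64 k127 6 (.s k166 k247 12 (.s
  k46 k226 9 (.s k63 k29 4 (.d k192 k128 k149 7 14)))))))) (.c k251 (.l (.s k12 k8 1 (.s k166 k247
  12 (.s k243 k89 14 (.d k162 k174 k81 1 12))))) .n))) (.c k63 (.q k60 [(.s k20 k40 5 (.s k150 k215
  8 (.s k195 k105 14 (.d k130 k190 k65 5 8)))), (.s k40 k20 5 (.s k43 k41 0 (.s k106 k234 7 (.s k169
  k232 8 (.s k171 k168 0 (.d k235 k107 k105 7 8))))))] (.c k20 (.f k106 k234 7 (.q k192 [(.d k64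
  k127 k128 6 7), (.s k104 k148 13 (.s k105 k107 0 (.s k65 k125 5 (.d k195 k130 k150 8 14))))] (.c
  k127 (.q k191 [(.d k128 k149 k64 6 7), (.s k104 k148 13 (.s k105 k107 0 (.s k65 k125 5 (.d k195
  k130 k150 8 14))))] .n) (.c k191 (.l (.s k127 k64 6 (.s k104 k148 13 (.s k105 k107 0 (.s k65 k125
  5 (.d k195 k130 k150 8 14)))))) .n)))) (.c k40 (.f k106 k234 7 (.q k192 [(.d k64 k127 k128 6 7),
  (.s k104 k148 13 (.s k105 k107 0 (.s k65 k125 5 (.d k195 k130 k150 8 14))))] (.c k127 (.q k191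
  [(.d k128 k149 k64 6 7), (.s k104 k148 13 (.s k105 k107 0 (.s k65 k125 5 (.d k195 k130 k150 8
  14))))] .n) (.c k191 (.l (.s k127 k64 6 (.s k104 k148 13 (.s k105 k107 0 (.s k65 k125 5 (.d k195
  k130 k150 8 14)))))) .n)))) (.c k105 (.q k191 [(.s k106 k234 7 (.s k64 k127 6 (.d k128 k192 k149 7
  6))), (.s k20 k40 5 (.s k150 k215 8 (.s k190 k130 5 (.s k188 k189 0 (.s k252 k124 7 (.s k168 k84
  13 (.d k169 k171 k131 0 6)))))))] (.c k64 (.l (.s k20 k40 5 (.s k128 k149 6 (.s k150 k215 8 (.s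
  k130 k190 5 (.s k131 k129 0 (.s k169 k188 6 (.d k171 k168 k151 0 5)))))))) .n)) (.c k127 (.q k191
  [(.s k20 k40 5 (.s k150 k215 8 (.s k195 k105 14 (.d k130 k190 k65 5 8)))), (.s k20 k40 5 (.s k128
  k149 6 (.s k192 k64 7 (.s k148 k104 13 (.s k84 k212 7 (.d k168 k188 k252 5 13)))))), (.s k106 k234
  7 (.s k128 k149 6 (.s k192 k64 7 (.s k104 k148 13 (.s k105 k107 0 (.s k65 k125 5 (.d k195 k150
  k130 14 8)))))))] .n) (.c k191 (.q k127 [(.d k106 k64 k234 6 7), (.s k20 k40 5 (.s k150 k215 8 (.s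
  k130 k190 5 (.d k195 k65 k105 8 14))))] .n) (.c k235 (.l (.s k20 k40 5 (.s k150 k215 8 (.s k195
  k105 14 (.d k130 k190 k65 5 8))))) .n))))))) (.c k64 (.q k4 [(.s k12 k8 1 (.s k166 k247 12 (.s
  k162 k174 1 (.d k243 k81 k89 12 14)))), (.s k21 k63 6 (.s k38 k55 4 (.s k46 k34 1 (.s k106 k234 7
  (.d k166 k226 k247 9 12))))), (.s k12 k8 1 (.s k21 k63 6 (.s k38 k55 4 (.s k34 k46 1 (.d k51 k17
  k25 4 6)))))] .n) (.c k106 (.f k63 k21 6 (.q k46 [(.s k12 k29 4 (.s k8 k4 1 (.s k25 k59 4 (.d k38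
  k34 k51 1 6)))), (.s k12 k29 4 (.s k4 k8 1 (.s k166 k247 12 (.s k162 k174 1 (.d k243 k81 k89 12
  14))))), (.s k34 k38 1 (.s k102 k238 9 (.s k68 k119 4 (.s k204 k136 9 (.d k51 k17 k153 4 14)))))]
  (.c k4 (.l (.s k12 k29 4 (.s k38 k34 1 (.s k25 k51 6 (.s k8 k59 4 (.s k89 k251 12 (.s k81 k93 1
  (.d k243 k162 k166 12 14)))))))) (.c k17 (.l (.s k38 k34 1 (.s k12 k29 4 (.s k25 k51 6 (.d k8 k4
  k59 1 4))))) (.c k150 (.q k194 [(.s k12 k29 4 (.s k8 k4 1 (.s k25 k59 4 (.d k38 k34 k51 1 6)))),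
  (.s k12 k29 4 (.s k4 k8 1 (.s k166 k247 12 (.s k162 k174 1 (.d k243 k81 k89 12 14))))), (.s k34
  k38 1 (.s k102 k238 9 (.s k68 k119 4 (.s k204 k136 9 (.d k51 k17 k153 4 14)))))] (.c k4 (.l (.s
  k12 k29 4 (.s k38 k34 1 (.s k25 k51 6 (.s k8 k59 4 (.s k89 k251 12 (.s k81 k93 1 (.d k243 k162
  k166 12 14)))))))) (.c k17 (.l (.s k38 k34 1 (.s k12 k29 4 (.s k25 k51 6 (.d k8 k4 k59 1 4)))))
  .n))) (.c k194 (.q k150 [(.s k20 k215 8 (.s k60 k40 5 (.s k130 k190 5 (.d k195 k65 k105 8 14)))),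
  (.s k12 k29 4 (.s k8 k4 1 (.s k25 k59 4 (.d k38 k34 k51 1 6))))] (.c k66 (.l (.s k130 k190 5 (.s
  k20 k215 8 (.s k60 k40 5 (.d k195 k65 k105 8 14))))) (.c k130 (.q k66 [(.s k12 k29 4 (.s k8 k4 1
  (.s k25 k59 4 (.d k38 k34 k51 1 6)))), (.s k12 k29 4 (.s k20 k215 8 (.s k60 k40 5 (.s k28 k44 3
  (.s k89 k211 10 (.s k81 k93 1 (.d k243 k162 k166 12 14))))))), (.s k34 k38 1 (.s k102 k238 9 (.s
  k68 k119 4 (.s k204 k136 9 (.d k51 k17 k153 4 14)))))] (.c k17 (.l (.s k38 k34 1 (.s k12 k29 4 (.s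
  k25 k51 6 (.d k8 k4 k59 1 4))))) .n)) .n))) .n)))))) (.c k127 (.q k60 [(.s k20 k40 5 (.s k150 k215
  8 (.s k195 k105 14 (.d k130 k190 k65 5 8)))), (.s k40 k20 5 (.s k43 k41 0 (.s k63 k21 6 (.s k106
  k234 7 (.s k192 k149 14 (.s k104 k148 13 (.d k232 k168 k169 7 8))))))), (.s k63 k21 6 (.s k106
  k234 7 (.s k192 k149 14 (.s k104 k148 13 (.s k105 k107 0 (.s k65 k125 5 (.d k195 k150 k130 14
  8)))))))] (.c k63 (.q k191 [(.s k20 k40 5 (.s k150 k215 8 (.s k195 k105 14 (.d k130 k190 k65 5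
  8)))), (.s k20 k40 5 (.s k128 k149 6 (.s k192 k64 7 (.s k148 k104 13 (.s k84 k212 7 (.d k168 k188
  k252 5 13)))))), (.s k106 k234 7 (.s k128 k149 6 (.s k192 k64 7 (.s k104 k148 13 (.s k105 k107 0
  (.s k65 k125 5 (.d k195 k150 k130 14 8)))))))] .n) (.c k150 (.l (.s k40 k20 5 (.s k41 k43 0 (.s
  k105 k235 8 (.s k169 k233 7 (.s k1 k253 13 (.d k21 k61 k63 5 6))))))) (.c k191 (.l (.s k63 k21 6
  (.s k20 k40 5 (.s k150 k215 8 (.s k130 k190 5 (.d k195 k65 k105 8 14)))))) .n)))) (.c k128 (.q k4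
  [(.s k12 k8 1 (.s k166 k247 12 (.s k162 k174 1 (.d k243 k81 k89 12 14)))), (.s k21 k63 6 (.s k38
  k55 4 (.s k46 k34 1 (.s k106 k234 7 (.d k166 k226 k247 9 12))))), (.s k12 k8 1 (.s k21 k63 6 (.s
  k38 k55 4 (.s k34 k46 1 (.d k51 k17 k25 4 6)))))] .n) (.c k149 (.q k4 [(.s k12 k8 1 (.s k166 k247
  12 (.s k162 k174 1 (.d k243 k81 k89 12 14)))), (.s k21 k63 6 (.s k38 k55 4 (.s k46 k34 1 (.s k106
  k234 7 (.d k166 k226 k247 9 12))))), (.s k12 k8 1 (.s k21 k63 6 (.s k38 k55 4 (.s k34 k46 1 (.d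
  k51 k17 k25 4 6)))))] .n) (.c k192 (.q k25 [(.s k8 k59 4 (.s k12 k4 1 (.s k89 k251 12 (.s k81 k93
  1 (.d k243 k162 k166 12 14))))), (.s k21 k63 6 (.s k17 k29 1 (.s k51 k34 4 (.s k153 k221 9 (.s
  k136 k187 4 (.d k204 k68 k102 9 14)))))), (.s k8 k59 4 (.s k12 k4 1 (.s k21 k63 6 (.s k17 k29 1
  (.d k51 k34 k38 4 6)))))] (.c k12 (.l (.s k8 k59 4 (.s k21 k63 6 (.s k29 k17 1 (.s k89 k251 12 (.d
  k149 k213 k209 7 9)))))) (.c k213 (.l (.s k234 k106 7 (.s k8 k59 4 (.s k12 k4 1 (.s k38 k51 6 (.s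
  k46 k34 1 (.d k63 k29 k21 4 6))))))) (.c k234 (.q k213 [(.d k21 k63 k149 6 7), (.s k8 k59 4 (.s
  k12 k4 1 (.s k89 k251 12 (.s k81 k93 1 (.d k243 k162 k166 12 14)))))] .n) .n)))) (.c k213 (.l (.s
  k63 k21 6 (.s k106 k234 7 (.s k192 k149 14 (.d k64 k127 k128 6 7))))) (.c k234 (.q k25 [(.s k8 k59
  4 (.s k12 k4 1 (.s k21 k63 6 (.s k17 k29 1 (.d k51 k34 k38 4 6))))), (.s k8 k59 4 (.s k12 k4 1 (.s
  k89 k251 12 (.s k81 k93 1 (.d k243 k162 k166 12 14))))), (.s k21 k63 6 (.s k17 k29 1 (.s k51 k34 4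
  (.s k153 k221 9 (.s k136 k187 4 (.d k204 k68 k102 9 14))))))] (.c k12 (.l (.s k8 k59 4 (.s k21 k63
  6 (.s k29 k17 1 (.s k89 k251 12 (.d k149 k213 k209 7 9)))))) (.c k192 (.q k213 [(.d k21 k63 k149 6
  7), (.s k8 k59 4 (.s k12 k4 1 (.s k89 k251 12 (.s k81 k93 1 (.d k243 k162 k166 12 14)))))] .n) (.c
  k213 (.q k192 [(.s k63 k21 6 (.s k64 k128 7 (.d k106 k127 k149 6 14))), (.s k8 k59 4 (.s k12 k4 1
  (.s k89 k251 12 (.s k81 k93 1 (.d k243 k162 k166 12 14)))))] .n) .n)))) .n))))))))))))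

def t2_63 : T TT 256 :=
  (.q k89 [(.s k81 k93 1 (.s k243 k162 12 (.s k12 k166 14 (.s k8 k4 1 (.d k170 k251 k255 12 14))))),
  (.s k93 k81 1 (.s k255 k170 14 (.s k12 k174 12 (.s k166 k243 14 (.d k4 k8 k247 1 12)))))] (.c k4
  (.q k1 [(.s k93 k81 1 (.s k253 k169 13 (.s k13 k173 11 (.s k165 k241 13 (.d k5 k9 k245 1 11))))),
  (.s k169 k253 13 (.s k9 k249 11 (.s k170 k255 14 (.s k8 k251 12 (.s k10 k11 0 (.d k5 k13 k15 1
  2)))))), (.s k81 k93 1 (.s k161 k241 11 (.s k162 k243 12 (.s k160 k163 0 (.s k170 k255 14 (.s k165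
  k175 2 (.d k169 k173 k253 1 13)))))))] (.c k169 (.l (.s k81 k93 1 (.s k170 k255 14 (.s k241 k161
  11 (.s k165 k13 13 (.s k160 k175 2 (.s k240 k80 11 (.d k243 k242 k162 0 12)))))))) (.c k241 (.l
  (.s k81 k93 1 (.s k169 k253 13 (.s k170 k255 14 (.s k168 k171 0 (.s k243 k162 12 (.s k249 k9 11
  (.d k252 k246 k84 2 13)))))))) (.c k253 (.l (.s k81 k93 1 (.s k241 k161 11 (.s k13 k165 13 (.s k5
  k9 1 (.s k15 k10 2 (.s k243 k162 12 (.d k12 k14 k166 0 14)))))))) .n)))) (.c k8 (.l (.s k81 k93 1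
  (.s k243 k162 12 (.s k166 k12 14 (.s k247 k4 12 (.d k255 k251 k170 1 14)))))) (.c k12 (.f k93 k81
  1 (.f k255 k170 14 (.q k86 [(.s k84 k87 0 (.s k92 k83 2 (.s k95 k94 0 (.d k80 k88 k90 1 2)))), (.s
  k84 k87 0 (.s k252 k168 13 (.s k169 k3 14 (.d k253 k254 k1 0 13)))), (.s k92 k83 2 (.s k95 k94 0
  (.s k15 k175 11 (.s k5 k10 2 (.s k165 k245 11 (.d k90 k80 k240 2 14))))))] (.c k29 (.q k46 [(.s
  k84 k87 0 (.s k92 k83 2 (.s k95 k94 0 (.d k80 k88 k90 1 2)))), (.s k84 k87 0 (.s k252 k168 13 (.s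
  k169 k3 14 (.d k253 k254 k1 0 13)))), (.s k92 k83 2 (.s k95 k94 0 (.s k15 k175 11 (.s k5 k10 2 (.s
  k165 k245 11 (.d k90 k80 k240 2 14))))))] .n) (.c k46 (.q k29 [(.s k84 k87 0 (.s k92 k83 2 (.s k95
  k94 0 (.d k80 k88 k90 1 2)))), (.s k149 k209 9 (.s k21 k213 7 (.s k17 k25 1 (.d k221 k157 k153 7
  9))))] .n) .n))))) (.c k81 (.q k15 [(.s k10 k5 2 (.s k170 k255 14 (.s k90 k250 11 (.s k80 k95 2
  (.d k240 k160 k165 11 14))))), (.s k255 k170 14 (.s k95 k175 11 (.s k90 k80 2 (.s k91 k88 0 (.s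
  k243 k167 13 (.s k166 k12 14 (.d k247 k251 k4 1 12))))))), (.s k170 k255 14 (.s k8 k251 12 (.s k12
  k4 1 (.s k13 k14 0 (.s k165 k241 13 (.d k5 k10 k245 2 11))))))] (.c k165 (.l (.s k10 k5 2 (.s k170
  k255 14 (.s k8 k251 12 (.s k11 k9 0 (.s k90 k250 11 (.s k88 k91 0 (.d k248 k168 k169 11 12))))))))
  (.c k170 (.l (.s k5 k10 2 (.s k165 k245 11 (.s k13 k241 13 (.s k90 k240 14 (.s k91 k88 0 (.s k243
  k167 13 (.d k12 k14 k166 0 14)))))))) (.c k255 (.l (.s k5 k10 2 (.s k165 k245 11 (.s k240 k90 14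
  (.s k241 k13 13 (.s k243 k242 0 (.s k166 k12 14 (.d k167 k164 k91 0 13)))))))) .n)))) (.c k93 (.q
  k15 [(.s k5 k10 2 (.s k165 k245 11 (.s k90 k240 14 (.s k95 k80 2 (.d k255 k175 k170 11 14))))),
  (.s k5 k10 2 (.s k165 k245 11 (.s k13 k241 13 (.s k9 k1 1 (.s k12 k14 0 (.s k6 k3 2 (.d k4 k7 k8 0
  1))))))), (.s k255 k170 14 (.s k95 k175 11 (.s k90 k80 2 (.s k91 k88 0 (.s k243 k167 13 (.s k166
  k12 14 (.d k247 k251 k4 1 12)))))))] (.c k165 (.l (.s k10 k5 2 (.s k170 k255 14 (.s k8 k251 12 (.s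
  k11 k9 0 (.s k90 k250 11 (.s k88 k91 0 (.d k248 k168 k169 11 12)))))))) .n)) (.c k162 (.l (.s k93
  k81 1 (.s k255 k170 14 (.s k12 k174 12 (.s k166 k243 14 (.d k4 k8 k247 1 12)))))) (.c k166 (.q k5
  [(.s k93 k81 1 (.s k165 k245 11 (.s k13 k241 13 (.s k1 k9 1 (.d k253 k173 k169 11 13))))), (.s k15
  k10 2 (.s k165 k245 11 (.s k90 k240 14 (.s k95 k80 2 (.d k255 k175 k170 11 14))))), (.s k10 k15 2
  (.s k170 k255 14 (.s k8 k251 12 (.s k9 k11 0 (.s k1 k13 1 (.d k169 k249 k253 11 13))))))] .n) (.c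
  k170 (.q k86 [(.s k84 k87 0 (.s k92 k83 2 (.s k80 k88 1 (.s k93 k81 1 (.d k95 k94 k90 0 2))))),
  (.s k81 k93 1 (.s k84 k87 0 (.s k243 k162 12 (.s k166 k12 14 (.s k246 k6 11 (.d k252 k249 k168 2
  13)))))), (.s k84 k87 0 (.s k92 k83 2 (.s k252 k168 13 (.s k12 k172 11 (.s k4 k8 1 (.d k166 k247
  k243 12 14)))))), (.s k81 k93 1 (.s k83 k92 2 (.s k243 k162 12 (.s k3 k163 11 (.s k166 k12 14 (.s
  k246 k6 11 (.d k252 k249 k169 2 14)))))))] .n) (.c k174 (.l (.s k81 k93 1 (.s k243 k162 12 (.s k12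
  k166 14 (.s k170 k255 14 (.d k8 k4 k251 1 12)))))) (.c k243 (.f k255 k170 14 (.f k93 k81 1 (.q k86
  [(.s k84 k87 0 (.s k252 k168 13 (.s k253 k254 0 (.d k169 k1 k3 13 14)))), (.s k84 k87 0 (.s k92
  k83 2 (.s k80 k88 1 (.d k95 k94 k90 0 2)))), (.s k12 k174 12 (.s k92 k83 2 (.s k252 k172 11 (.s
  k253 k254 0 (.d k169 k3 k1 14 13)))))] (.c k3 (.l (.s k12 k174 12 (.s k84 k87 0 (.s k252 k168 13
  (.d k92 k83 k172 2 11))))) (.c k123 (.q k183 [(.s k84 k87 0 (.s k252 k168 13 (.s k253 k254 0 (.d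
  k169 k1 k3 13 14)))), (.s k84 k87 0 (.s k92 k83 2 (.s k80 k88 1 (.d k95 k94 k90 0 2)))), (.s k12
  k174 12 (.s k92 k83 2 (.s k252 k172 11 (.s k253 k254 0 (.d k169 k3 k1 14 13)))))] (.c k3 (.l (.s
  k12 k174 12 (.s k84 k87 0 (.s k252 k168 13 (.d k92 k83 k172 2 11))))) .n)) (.c k183 (.q k123 [(.s
  k84 k87 0 (.s k252 k168 13 (.s k253 k254 0 (.d k169 k1 k3 13 14)))), (.s k106 k72 4 (.s k127 k64 6
  (.s k76 k110 4 (.d k115 k119 k102 1 6))))] .n) .n)))))) (.c k255 (.q k51 [(.s k17 k34 4 (.s k93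
  k81 1 (.s k221 k153 9 (.s k29 k157 7 (.s k21 k25 1 (.d k149 k213 k209 7 9)))))), (.s k81 k93 1 (.s
  k243 k162 12 (.s k115 k179 7 (.s k102 k76 6 (.s k68 k119 4 (.d k204 k136 k153 9 14)))))), (.s k17
  k34 4 (.s k153 k221 9 (.s k25 k217 7 (.s k12 k38 6 (.s k4 k8 1 (.d k166 k247 k243 12 14)))))), (.s
  k17 k34 4 (.s k81 k93 1 (.s k145 k209 7 (.s k98 k192 12 (.s k115 k64 4 (.d k243 k179 k162 7
  12))))))] (.c k127 (.q k191 [(.s k17 k34 4 (.s k93 k81 1 (.s k221 k153 9 (.s k29 k157 7 (.s k21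
  k25 1 (.d k149 k213 k209 7 9)))))), (.s k81 k93 1 (.s k243 k162 12 (.s k12 k166 14 (.s k25 k38 6
  (.s k115 k179 7 (.s k153 k217 7 (.d k102 k76 k204 6 14))))))), (.s k17 k34 4 (.s k153 k221 9 (.s
  k25 k217 7 (.s k12 k38 6 (.s k4 k8 1 (.d k166 k247 k243 12 14)))))), (.s k17 k34 4 (.s k81 k93 1
  (.s k145 k209 7 (.s k98 k192 12 (.s k115 k64 4 (.d k243 k179 k162 7 12))))))] .n) (.c k191 (.q
  k127 [(.s k64 k106 6 (.s k81 k93 1 (.s k98 k115 4 (.d k192 k128 k145 7 12)))), (.s k17 k34 4 (.s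
  k93 k81 1 (.s k76 k110 4 (.s k153 k221 9 (.d k102 k204 k115 14 6))))), (.s k17 k34 4 (.s k106 k64
  6 (.s k123 k72 4 (.s k115 k119 1 (.s k153 k221 9 (.d k102 k76 k204 6 14))))))] (.c k115 (.l (.s
  k17 k34 4 (.s k64 k106 6 (.s k81 k93 1 (.s k145 k209 7 (.d k192 k128 k98 7 12)))))) .n)) .n)))
  .n))))))))))))

def t2_86 : T TT 256 :=
  (.f k170 k255 14 (.q k12 [(.s k4 k8 1 (.s k166 k247 12 (.s k162 k174 1 (.d k243 k81 k89 12 14))))]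
  (.c k4 (.q k69 [(.s k101 k117 3 (.s k32 k239 10 (.s k48 k16 3 (.d k207 k138 k154 10 14)))), (.s
  k207 k138 10 (.s k77 k142 8 (.s k65 k73 1 (.s k105 k125 5 (.s k40 k235 8 (.s k60 k20 5 (.d k195
  k130 k150 8 14)))))))] (.c k138 (.l (.s k101 k117 3 (.s k32 k239 10 (.s k48 k16 3 (.s k36 k24 5
  (.s k166 k231 8 (.s k162 k174 1 (.d k243 k81 k89 12 14)))))))) (.c k207 (.f k101 k117 3 (.q k48
  [(.d k32 k239 k16 10 3), (.s k36 k24 5 (.s k166 k231 8 (.s k162 k174 1 (.d k243 k81 k89 12 14))))]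
  (.c k223 (.l (.s k239 k32 10 (.s k36 k24 5 (.s k166 k231 8 (.s k162 k174 1 (.d k243 k81 k89 12
  14)))))) (.c k239 (.q k223 [(.d k16 k32 k154 3 10), (.s k36 k24 5 (.s k166 k231 8 (.s k162 k174 1
  (.d k243 k81 k89 12 14))))] .n) .n)))) .n))) (.c k8 (.q k138 [(.s k154 k186 3 (.s k16 k223 10 (.s
  k48 k32 3 (.d k207 k69 k101 10 14)))), (.s k207 k69 10 (.s k142 k77 8 (.s k130 k134 1 (.s k150
  k190 5 (.s k20 k215 8 (.s k60 k40 5 (.d k195 k65 k105 8 14)))))))] (.c k69 (.l (.s k154 k186 3 (.s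
  k16 k223 10 (.s k48 k32 3 (.s k24 k36 5 (.s k89 k219 8 (.s k81 k93 1 (.d k243 k162 k166 12
  14)))))))) (.c k207 (.f k154 k186 3 (.q k48 [(.d k16 k223 k32 10 3), (.s k24 k36 5 (.s k89 k219 8
  (.s k81 k93 1 (.d k243 k162 k166 12 14))))] (.c k223 (.q k239 [(.d k32 k16 k101 3 10), (.s k24 k36
  5 (.s k89 k219 8 (.s k81 k93 1 (.d k243 k162 k166 12 14))))] .n) (.c k239 (.l (.s k223 k16 10 (.s
  k24 k36 5 (.s k89 k219 8 (.s k81 k93 1 (.d k243 k162 k166 12 14)))))) .n)))) .n))) (.c k81 (.q k5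
  [(.s k15 k10 2 (.s k165 k245 11 (.s k160 k175 2 (.d k240 k80 k90 11 14)))), (.s k8 k4 1 (.s k10
  k15 2 (.s k9 k11 0 (.s k1 k13 1 (.s k89 k251 12 (.d k169 k249 k253 11 13)))))), (.s k4 k8 1 (.s
  k165 k245 11 (.s k166 k247 12 (.s k164 k167 0 (.s k240 k88 13 (.d k160 k175 k80 2 11))))))] (.c
  k175 (.l (.s k4 k8 1 (.s k6 k7 0 (.s k9 k3 2 (.s k13 k1 1 (.d k15 k14 k10 0 2)))))) .n)) (.c k89
  (.f k4 k8 1 (.q k150 [(.s k20 k215 8 (.s k130 k190 5 (.s k195 k65 8 (.d k60 k40 k105 5 14)))), (.s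
  k166 k247 12 (.s k134 k182 3 (.s k195 k73 10 (.d k130 k190 k65 5 8)))), (.s k20 k215 8 (.s k36 k52
  3 (.s k24 k48 5 (.s k28 k16 1 (.d k60 k44 k40 3 5)))))] (.c k83 (.q k92 [(.s k20 k215 8 (.s k130
  k190 5 (.s k195 k65 8 (.d k60 k40 k105 5 14)))), (.s k252 k172 11 (.s k84 k168 13 (.s k88 k80 1
  (.d k164 k244 k240 11 13))))] .n) (.c k92 (.q k83 [(.s k20 k215 8 (.s k130 k190 5 (.s k195 k65 8
  (.d k60 k40 k105 5 14)))), (.s k166 k247 12 (.s k134 k182 3 (.s k195 k73 10 (.d k130 k190 k65 5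
  8)))), (.s k20 k215 8 (.s k36 k52 3 (.s k24 k48 5 (.s k28 k16 1 (.d k60 k44 k40 3 5)))))] (.c k195
  (.l (.s k130 k190 5 (.s k166 k247 12 (.s k134 k182 3 (.s k69 k199 8 (.d k138 k207 k142 10 1))))))
  .n)) (.c k195 (.l (.s k130 k190 5 (.s k166 k247 12 (.s k134 k182 3 (.s k69 k199 8 (.d k138 k207
  k142 10 1)))))) .n))))) (.c k162 (.f k8 k4 1 (.q k90 [(.s k10 k250 11 (.s k15 k5 2 (.s k80 k95 2
  (.d k240 k160 k165 11 14)))), (.s k80 k95 2 (.s k89 k251 12 (.s k88 k91 0 (.s k84 k92 1 (.d k168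
  k248 k252 11 13))))), (.s k10 k250 11 (.s k11 k9 0 (.s k89 k251 12 (.s k88 k91 0 (.d k248 k168
  k169 11 12)))))] (.c k82 (.q k242 [(.s k89 k251 12 (.d k166 k243 k14 14 13)), (.s k10 k250 11 (.s
  k15 k5 2 (.s k80 k95 2 (.d k240 k160 k165 11 14))))] .n) (.c k242 (.q k82 [(.s k89 k251 12 (.s k81
  k93 1 (.d k80 k83 k95 0 2))), (.s k10 k250 11 (.s k9 k11 0 (.s k3 k6 2 (.s k240 k161 12 (.d k15 k5
  k165 2 14)))))] .n) .n)))) (.c k166 (.f k8 k4 1 (.q k5 [(.s k15 k10 2 (.s k165 k245 11 (.s k160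
  k175 2 (.d k240 k80 k90 11 14)))), (.s k10 k15 2 (.s k9 k11 0 (.s k1 k13 1 (.s k89 k251 12 (.d
  k169 k249 k253 11 13))))), (.s k89 k251 12 (.s k93 k81 1 (.s k165 k245 11 (.s k13 k241 13 (.s k1
  k9 1 (.d k253 k173 k169 11 13))))))] (.c k6 (.q k246 [(.s k165 k245 11 (.s k160 k175 2 (.s k240
  k80 11 (.d k15 k10 k90 2 14)))), (.s k10 k15 2 (.s k9 k11 0 (.s k1 k13 1 (.s k89 k251 12 (.d k169
  k249 k253 11 13))))), (.s k89 k251 12 (.s k93 k81 1 (.s k165 k245 11 (.s k13 k241 13 (.s k1 k9 1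
  (.d k253 k173 k169 11 13))))))] (.c k10 (.q k14 [(.s k15 k13 0 (.s k165 k245 11 (.s k160 k175 2
  (.d k240 k80 k90 11 14)))), (.s k13 k15 0 (.s k1 k9 1 (.s k89 k251 12 (.s k93 k81 1 (.d k253 k173
  k169 11 13))))), (.s k89 k251 12 (.s k93 k81 1 (.s k165 k245 11 (.s k13 k241 13 (.s k1 k9 1 (.d
  k253 k173 k169 11 13))))))] (.c k13 (.l (.s k89 k251 12 (.s k165 k245 11 (.s k160 k175 2 (.s k240
  k80 11 (.s k88 k164 13 (.d k90 k15 k91 14 0))))))) .n)) (.c k14 (.l (.s k10 k15 2 (.s k9 k11 0 (.s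
  k1 k13 1 (.s k89 k251 12 (.d k169 k249 k253 11 13)))))) .n))) (.c k246 (.q k6 [(.s k10 k15 2 (.d
  k9 k11 k3 0 2)), (.s k15 k10 2 (.s k13 k14 0 (.s k89 k251 12 (.d k165 k245 k241 11 13)))), (.s k9
  k3 2 (.s k1 k13 1 (.s k89 k251 12 (.d k169 k249 k253 11 13))))] .n) .n)))) (.c k174 (.l (.s k8 k4
  1 (.s k89 k251 12 (.s k81 k93 1 (.d k243 k162 k166 12 14))))) (.c k243 (.f k4 k8 1 (.q k192 [(.s
  k64 k128 7 (.s k106 k127 6 (.s k42 k234 7 (.d k63 k21 k149 6 14)))), (.s k132 k72 9 (.s k68 k196 7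
  (.s k102 k119 4 (.s k34 k238 9 (.s k51 k17 4 (.d k204 k136 k153 9 14))))))] (.c k247 (.q k251 [(.s
  k64 k128 7 (.s k106 k127 6 (.s k42 k234 7 (.d k63 k21 k149 6 14)))), (.s k132 k72 9 (.s k68 k196 7
  (.s k102 k119 4 (.s k34 k238 9 (.s k51 k17 4 (.d k204 k136 k153 9 14))))))] .n) (.c k251 (.l (.s
  k247 k166 12 (.s k64 k128 7 (.s k106 k127 6 (.s k42 k234 7 (.d k63 k21 k149 6 14)))))) .n)))) (.c
  k247 (.l (.s k8 k4 1 (.s k89 k251 12 (.s k243 k166 14 (.d k81 k93 k162 1 12))))) (.c k251 (.l (.s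
  k4 k8 1 (.s k166 k247 12 (.s k243 k89 14 (.d k162 k174 k81 1 12))))) .n))))))))))))

/-- roots with certificates -/
def certs : List (Cell TT 256 × Cell TT 256 × T TT 256) :=
  [(k1, k111, t1_111), (k1, k124, t1_124), (k1, k125, t1_125), (k1, k126, t1_126), (k1, k127,
  t1_127), (k1, k168, t1_168), (k1, k169, t1_169), (k1, k171, t1_171), (k1, k172, t1_172), (k1,
  k173, t1_173), (k1, k174, t1_174), (k1, k175, t1_175), (k1, k188, t1_188), (k1, k189, t1_189),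
  (k1, k190, t1_190), (k1, k191, t1_191), (k1, k252, t1_252), (k1, k253, t1_253), (k1, k254,
  t1_254), (k2, k3, t2_3), (k2, k5, t2_5), (k2, k6, t2_6), (k2, k7, t2_7), (k2, k8, t2_8), (k2, k9,
  t2_9), (k2, k10, t2_10), (k2, k11, t2_11), (k2, k12, t2_12), (k2, k13, t2_13), (k2, k14, t2_14),
  (k2, k15, t2_15), (k2, k20, t2_20), (k2, k22, t2_22), (k2, k23, t2_23), (k2, k24, t2_24), (k2,
  k25, t2_25), (k2, k26, t2_26), (k2, k27, t2_27), (k2, k28, t2_28), (k2, k29, t2_29), (k2, k30,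
  t2_30), (k2, k31, t2_31), (k2, k40, t2_40), (k2, k41, t2_41), (k2, k42, t2_42), (k2, k43, t2_43),
  (k2, k44, t2_44), (k2, k45, t2_45), (k2, k46, t2_46), (k2, k47, t2_47), (k2, k60, t2_60), (k2,
  k61, t2_61), (k2, k62, t2_62), (k2, k63, t2_63), (k2, k86, t2_86)]

theorem c1_111 : rootOK k1 k111 t1_111 = true := by decide +kernel

theorem c1_124 : rootOK k1 k124 t1_124 = true := by decide +kernel

theorem c1_125 : rootOK k1 k125 t1_125 = true := by decide +kernel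

theorem c1_126 : rootOK k1 k126 t1_126 = true := by decide +kernel

theorem c1_127 : rootOK k1 k127 t1_127 = true := by decide +kernel

theorem c1_168 : rootOK k1 k168 t1_168 = true := by decide +kernel

theorem c1_169 : rootOK k1 k169 t1_169 = true := by decide +kernel

theorem c1_171 : rootOK k1 k171 t1_171 = true := by decide +kernel

theorem c1_172 : rootOK k1 k172 t1_172 = true := by decide +kernel

theorem c1_173 : rootOK k1 k173 t1_173 = true := by decide +kernel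

theorem c1_174 : rootOK k1 k174 t1_174 = true := by decide +kernel

theorem c1_175 : rootOK k1 k175 t1_175 = true := by decide +kernel

theorem c1_188 : rootOK k1 k188 t1_188 = true := by decide +kernel

theorem c1_189 : rootOK k1 k189 t1_189 = true := by decide +kernel

theorem c1_190 : rootOK k1 k190 t1_190 = true := by decide +kernel

theorem c1_191 : rootOK k1 k191 t1_191 = true := by decide +kernel

theorem c1_252 : rootOK k1 k252 t1_252 = true := by decide +kernel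

theorem c1_253 : rootOK k1 k253 t1_253 = true := by decide +kernel

theorem c1_254 : rootOK k1 k254 t1_254 = true := by decide +kernel

theorem c2_3 : rootOK k2 k3 t2_3 = true := by decide +kernel

theorem c2_5 : rootOK k2 k5 t2_5 = true := by decide +kernel

theorem c2_6 : rootOK k2 k6 t2_6 = true := by decide +kernel

theorem c2_7 : rootOK k2 k7 t2_7 = true := by decide +kernel

theorem c2_8 : rootOK k2 k8 t2_8 = true := by decide +kernel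

theorem c2_9 : rootOK k2 k9 t2_9 = true := by decide +kernel

theorem c2_10 : rootOK k2 k10 t2_10 = true := by decide +kernel

theorem c2_11 : rootOK k2 k11 t2_11 = true := by decide +kernel

theorem c2_12 : rootOK k2 k12 t2_12 = true := by decide +kernel

theorem c2_13 : rootOK k2 k13 t2_13 = true := by decide +kernel

theorem c2_14 : rootOK k2 k14 t2_14 = true := by decide +kernel

theorem c2_15 : rootOK k2 k15 t2_15 = true := by decide +kernel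

theorem c2_20 : rootOK k2 k20 t2_20 = true := by decide +kernel

theorem c2_22 : rootOK k2 k22 t2_22 = true := by decide +kernel

theorem c2_23 : rootOK k2 k23 t2_23 = true := by decide +kernel

theorem c2_24 : rootOK k2 k24 t2_24 = true := by decide +kernel

theorem c2_25 : rootOK k2 k25 t2_25 = true := by decide +kernel

theorem c2_26 : rootOK k2 k26 t2_26 = true := by decide +kernel

theorem c2_27 : rootOK k2 k27 t2_27 = true := by decide +kernel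

theorem c2_28 : rootOK k2 k28 t2_28 = true := by decide +kernel

theorem c2_29 : rootOK k2 k29 t2_29 = true := by decide +kernel

theorem c2_30 : rootOK k2 k30 t2_30 = true := by decide +kernel

theorem c2_31 : rootOK k2 k31 t2_31 = true := by decide +kernel

theorem c2_40 : rootOK k2 k40 t2_40 = true := by decide +kernel

theorem c2_41 : rootOK k2 k41 t2_41 = true := by decide +kernel

theorem c2_42 : rootOK k2 k42 t2_42 = true := by decide +kernel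

theorem c2_43 : rootOK k2 k43 t2_43 = true := by decide +kernel

theorem c2_44 : rootOK k2 k44 t2_44 = true := by decide +kernel

theorem c2_45 : rootOK k2 k45 t2_45 = true := by decide +kernel

theorem c2_46 : rootOK k2 k46 t2_46 = true := by decide +kernel

theorem c2_47 : rootOK k2 k47 t2_47 = true := by decide +kernel

theorem c2_60 : rootOK k2 k60 t2_60 = true := by decide +kernel

theorem c2_61 : rootOK k2 k61 t2_61 = true := by decide +kernel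

theorem c2_62 : rootOK k2 k62 t2_62 = true := by decide +kernel

theorem c2_63 : rootOK k2 k63 t2_63 = true := by decide +kernel

theorem c2_86 : rootOK k2 k86 t2_86 = true := by decide +kernel

theorem ok : certsOK certs = true :=
  certsOK_cons c1_111 (certsOK_cons c1_124 (certsOK_cons c1_125 (certsOK_cons c1_126 (
  certsOK_cons c1_127 (certsOK_cons c1_168 (certsOK_cons c1_169 (certsOK_cons c1_171 (
  certsOK_cons c1_172 (certsOK_cons c1_173 (certsOK_cons c1_174 (certsOK_cons c1_175 (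
  certsOK_cons c1_188 (certsOK_cons c1_189 (certsOK_cons c1_190 (certsOK_cons c1_191 (
  certsOK_cons c1_252 (certsOK_cons c1_253 (certsOK_cons c1_254 (certsOK_cons c2_3 (
  certsOK_cons c2_5 (certsOK_cons c2_6 (certsOK_cons c2_7 (certsOK_cons c2_8 (
  certsOK_cons c2_9 (certsOK_cons c2_10 (certsOK_cons c2_11 (certsOK_cons c2_12 (
  certsOK_cons c2_13 (certsOK_cons c2_14 (certsOK_cons c2_15 (certsOK_cons c2_20 (
  certsOK_cons c2_22 (certsOK_cons c2_23 (certsOK_cons c2_24 (certsOK_cons c2_25 (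
  certsOK_cons c2_26 (certsOK_cons c2_27 (certsOK_cons c2_28 (certsOK_cons c2_29 (
  certsOK_cons c2_30 (certsOK_cons c2_31 (certsOK_cons c2_40 (certsOK_cons c2_41 (
  certsOK_cons c2_42 (certsOK_cons c2_43 (certsOK_cons c2_44 (certsOK_cons c2_45 (
  certsOK_cons c2_46 (certsOK_cons c2_47 (certsOK_cons c2_60 (certsOK_cons c2_61 (
  certsOK_cons c2_62 (certsOK_cons c2_63 (certsOK_cons c2_86 (certsOK_nil))))))))))))))))))))))))
  )))))))))))))))))))))))))))))))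

theorem sound (k : Nat) (hk : (bits certs).testBit k = true) : PI k :=
  certs_sound certs ok k hk

end Pool.Agent.TTT.A02
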