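import Pool.Agent.TTT.Sym

set_option autoImplicit false
set_option maxRecDepth 100000

namespace Pool.Agent.TTT.A03

def t2_87 : T TT 256 :=
  (.q k89 [(.s k81 k93 1 (.s k243 k162 12 (.s k12 k166 14 (.s k8 k4 1 (.d k170 k251 k255 12 14))))),
  (.s k93 k81 1 (.s k255 k170 14 (.s k12 k174 12 (.s k166 k243 14 (.d k4 k8 k247 1 12)))))] (.c k4
  (.q k1 [(.s k93 k81 1 (.s k253 k169 13 (.s k13 k173 11 (.s k165 k241 13 (.d k5 k9 k245 1 11))))),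
  (.s k169 k253 13 (.s k9 k249 11 (.s k170 k255 14 (.s k8 k251 12 (.s k10 k11 0 (.d k5 k13 k15 1
  2)))))), (.s k81 k93 1 (.s k161 k241 11 (.s k162 k243 12 (.s k160 k163 0 (.s k170 k255 14 (.s k165
  k175 2 (.d k169 k173 k253 1 13)))))))] (.c k169 (.l (.s k81 k93 1 (.s k170 k255 14 (.s k241 k161
  11 (.s k165 k13 13 (.s k160 k175 2 (.s k240 k80 11 (.d k243 k242 k162 0 12)))))))) (.c k241 (.l
  (.s k81 k93 1 (.s k169 k253 13 (.s k170 k255 14 (.s k243 k162 12 (.s k249 k9 11 (.s k252 k246 2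
  (.d k168 k171 k84 0 13)))))))) (.c k253 (.l (.s k81 k93 1 (.s k241 k161 11 (.s k13 k165 13 (.s k5
  k9 1 (.s k15 k10 2 (.s k243 k162 12 (.d k12 k14 k166 0 14)))))))) .n)))) (.c k8 (.l (.s k81 k93 1
  (.s k243 k162 12 (.s k166 k12 14 (.s k247 k4 12 (.d k255 k251 k170 1 14)))))) (.c k12 (.q k5 [(.s
  k93 k81 1 (.s k165 k245 11 (.s k13 k241 13 (.s k253 k173 11 (.d k1 k9 k169 1 13))))), (.s k15 k10
  2 (.s k165 k245 11 (.s k90 k240 14 (.s k95 k80 2 (.d k255 k175 k170 11 14))))), (.s k10 k15 2 (.s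
  k170 k255 14 (.s k8 k251 12 (.s k9 k11 0 (.s k169 k249 11 (.d k1 k13 k253 1 13))))))] .n) (.c k81
  (.q k15 [(.s k10 k5 2 (.s k170 k255 14 (.s k90 k250 11 (.s k240 k165 14 (.d k80 k95 k160 2
  11))))), (.s k5 k10 2 (.s k165 k245 11 (.s k13 k241 13 (.s k90 k240 14 (.s k91 k88 0 (.s k243 k167
  13 (.d k12 k14 k166 0 14))))))), (.s k255 k170 14 (.s k95 k175 11 (.s k90 k80 2 (.s k91 k88 0 (.s
  k243 k167 13 (.s k166 k12 14 (.d k247 k251 k4 1 12))))))), (.s k170 k255 14 (.s k8 k251 12 (.s k12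
  k4 1 (.s k13 k14 0 (.s k165 k241 13 (.d k5 k10 k245 2 11))))))] (.c k165 (.l (.s k10 k5 2 (.s k170
  k255 14 (.s k8 k251 12 (.s k11 k9 0 (.s k90 k250 11 (.s k88 k91 0 (.d k248 k168 k169 11 12))))))))
  (.c k255 (.l (.s k5 k10 2 (.s k165 k245 11 (.s k240 k90 14 (.s k241 k13 13 (.s k243 k242 0 (.s
  k166 k12 14 (.d k167 k164 k91 0 13)))))))) .n))) (.c k93 (.q k15 [(.s k5 k10 2 (.s k165 k245 11
  (.s k90 k240 14 (.s k95 k80 2 (.d k255 k175 k170 11 14))))), (.s k5 k10 2 (.s k165 k245 11 (.s k13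
  k241 13 (.s k9 k1 1 (.s k12 k14 0 (.s k6 k3 2 (.d k4 k7 k8 0 1))))))), (.s k255 k170 14 (.s k95
  k175 11 (.s k90 k80 2 (.s k91 k88 0 (.s k243 k167 13 (.s k166 k12 14 (.d k247 k251 k4 1 12)))))))]
  (.c k165 (.l (.s k10 k5 2 (.s k170 k255 14 (.s k8 k251 12 (.s k11 k9 0 (.s k90 k250 11 (.s k88 k91
  0 (.d k248 k168 k169 11 12)))))))) (.c k255 (.l (.s k5 k10 2 (.s k165 k245 11 (.s k240 k90 14 (.s
  k241 k13 13 (.s k243 k242 0 (.s k167 k91 13 (.d k166 k164 k12 0 14)))))))) .n))) (.c k162 (.l (.s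
  k93 k81 1 (.s k255 k170 14 (.s k12 k174 12 (.s k166 k243 14 (.d k4 k8 k247 1 12)))))) (.c k166 (.q
  k5 [(.s k93 k81 1 (.s k165 k245 11 (.s k13 k241 13 (.s k1 k9 1 (.d k253 k173 k169 11 13))))), (.s
  k15 k10 2 (.s k165 k245 11 (.s k90 k240 14 (.s k95 k80 2 (.d k255 k175 k170 11 14))))), (.s k10
  k15 2 (.s k170 k255 14 (.s k8 k251 12 (.s k9 k11 0 (.s k1 k13 1 (.d k169 k249 k253 11 13))))))]
  .n) (.c k170 (.f k81 k93 1 (.f k162 k243 12 (.q k16 [(.s k146 k211 8 (.s k130 k178 3 (.s k195 k65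
  8 (.d k48 k32 k97 3 12)))), (.s k154 k223 10 (.s k24 k219 8 (.s k28 k20 1 (.d k211 k146 k150 8
  10)))), (.s k48 k32 3 (.s k154 k223 10 (.s k101 k207 14 (.s k113 k77 5 (.s k65 k97 3 (.s k117 k69
  3 (.d k125 k121 k105 1 5)))))))] (.c k86 (.q k254 [(.s k146 k211 8 (.s k130 k178 3 (.s k195 k65 8
  (.d k48 k32 k97 3 12)))), (.s k154 k223 10 (.s k24 k219 8 (.s k28 k20 1 (.d k211 k146 k150 8
  10)))), (.s k48 k32 3 (.s k154 k223 10 (.s k101 k207 14 (.s k113 k77 5 (.s k65 k97 3 (.s k117 k69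
  3 (.d k125 k121 k105 1 5)))))))] .n) (.c k254 (.q k86 [(.s k146 k211 8 (.s k130 k178 3 (.s k195
  k65 8 (.d k48 k32 k97 3 12)))), (.s k154 k223 10 (.s k24 k219 8 (.s k28 k20 1 (.d k211 k146 k150 8
  10)))), (.s k48 k32 3 (.s k83 k92 2 (.s k80 k82 0 (.s k144 k208 7 (.s k96 k192 11 (.s k112 k64 3
  (.d k240 k176 k160 7 11)))))))] .n) .n))))) (.c k174 (.l (.s k81 k93 1 (.s k243 k162 12 (.s k12
  k166 14 (.s k170 k255 14 (.d k8 k4 k251 1 12)))))) (.c k243 (.q k13 [(.s k81 k93 1 (.s k241 k165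
  13 (.s k1 k161 11 (.s k9 k5 1 (.d k169 k249 k253 11 13))))), (.s k165 k241 13 (.s k5 k245 11 (.s
  k15 k10 2 (.s k170 k255 14 (.s k160 k175 2 (.d k240 k80 k90 11 14)))))), (.s k93 k81 1 (.s k173
  k253 11 (.s k255 k170 14 (.s k12 k174 12 (.s k15 k14 0 (.s k94 k252 12 (.d k95 k92 k175 0
  11))))))), (.s k93 k81 1 (.s k165 k241 13 (.s k255 k170 14 (.s k12 k174 12 (.s k15 k14 0 (.d k5
  k10 k245 2 11))))))] .n) (.c k255 (.q k209 [(.s k29 k149 9 (.s k93 k81 1 (.s k221 k157 7 (.s k153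
  k17 9 (.d k217 k213 k25 1 7))))), (.s k149 k29 9 (.s k21 k213 7 (.s k63 k42 6 (.s k192 k106 14 (.s
  k243 k226 4 (.s k183 k123 9 (.d k166 k132 k12 4 14))))))), (.s k81 k93 1 (.s k145 k17 7 (.s k243
  k162 12 (.s k192 k226 4 (.s k64 k128 7 (.d k98 k115 k51 4 12))))))] (.c k3 (.q k171 [(.s k29 k149
  9 (.s k93 k81 1 (.s k221 k157 7 (.s k153 k17 9 (.d k217 k213 k25 1 7))))), (.s k149 k29 9 (.s k21
  k213 7 (.s k63 k42 6 (.s k192 k106 14 (.s k243 k226 4 (.s k183 k123 9 (.d k166 k132 k12 4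
  14))))))), (.s k81 k93 1 (.s k145 k17 7 (.s k243 k162 12 (.s k192 k226 4 (.s k64 k128 7 (.d k98
  k115 k51 4 12))))))] .n) (.c k171 (.q k3 [(.s k29 k149 9 (.s k93 k81 1 (.s k221 k157 7 (.s k153
  k17 9 (.d k217 k213 k25 1 7))))), (.s k149 k29 9 (.s k21 k213 7 (.s k63 k42 6 (.s k192 k106 14 (.s
  k243 k226 4 (.s k183 k123 9 (.d k166 k132 k12 4 14))))))), (.s k81 k93 1 (.s k145 k17 7 (.s k243
  k162 12 (.s k192 k226 4 (.s k64 k128 7 (.d k98 k115 k51 4 12))))))] .n) .n))) .n))))))))))))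

def t2_88 : T TT 256 :=
  (.f k170 k255 14 (.q k204 [(.s k68 k136 9 (.s k102 k119 4 (.s k34 k238 9 (.d k51 k17 k153 4
  14))))] (.c k17 (.q k4 [(.s k12 k8 1 (.s k166 k247 12 (.s k162 k174 1 (.d k243 k81 k89 12 14)))),
  (.s k68 k136 9 (.s k102 k119 4 (.s k166 k247 12 (.s k38 k230 7 (.s k55 k21 4 (.d k196 k132 k149 7
  12)))))), (.s k12 k8 1 (.s k68 k136 9 (.s k76 k140 7 (.s k72 k64 1 (.d k132 k196 k192 7 9)))))]
  .n) (.c k34 (.f k68 k136 9 (.q k192 [(.s k64 k128 7 (.s k106 k127 6 (.s k42 k234 7 (.d k63 k21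
  k149 6 14)))), (.s k64 k128 7 (.s k72 k76 1 (.s k132 k12 9 (.d k196 k200 k4 1 7)))), (.s k102 k119
  4 (.s k196 k200 1 (.s k149 k55 12 (.s k21 k213 7 (.d k63 k42 k106 6 14)))))] (.c k18 (.q k50 [(.s
  k64 k128 7 (.s k106 k127 6 (.s k42 k234 7 (.d k63 k21 k149 6 14)))), (.s k102 k119 4 (.s k51 k153
  14 (.s k48 k49 0 (.s k16 k32 3 (.d k154 k223 k206 10 13)))))] .n) (.c k50 (.q k18 [(.s k64 k128 7
  (.s k106 k127 6 (.s k42 k234 7 (.d k63 k21 k149 6 14)))), (.s k64 k128 7 (.s k72 k76 1 (.s k132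
  k12 9 (.d k196 k200 k4 1 7)))), (.s k102 k119 4 (.s k196 k200 1 (.s k149 k55 12 (.s k21 k213 7 (.d
  k63 k42 k106 6 14)))))] .n) .n)))) (.c k51 (.f k136 k68 9 (.q k8 [(.s k12 k4 1 (.s k89 k251 12 (.s
  k81 k93 1 (.d k243 k162 k166 12 14)))), (.s k200 k72 7 (.s k192 k196 1 (.s k64 k128 7 (.s k106
  k127 6 (.d k153 k187 k59 4 12))))), (.s k89 k251 12 (.s k81 k93 1 (.s k243 k162 12 (.s k217 k230 6
  (.d k153 k187 k25 4 7)))))] (.c k119 (.l (.s k187 k153 4 (.s k12 k4 1 (.s k72 k200 7 (.s k132 k192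
  9 (.d k140 k128 k76 1 7)))))) (.c k187 (.q k119 [(.s k12 k4 1 (.s k72 k200 7 (.s k140 k76 7 (.d
  k132 k128 k192 1 9)))), (.s k89 k251 12 (.s k81 k93 1 (.s k243 k162 12 (.d k12 k4 k166 1 14)))),
  (.s k200 k72 7 (.s k251 k89 12 (.s k234 k217 4 (.s k106 k42 7 (.s k64 k127 6 (.d k192 k196 k128 1
  7))))))] .n) .n)))) (.c k68 (.q k48 [(.s k16 k32 3 (.s k154 k223 10 (.s k138 k186 3 (.d k207 k69
  k101 10 14)))), (.s k16 k32 3 (.s k152 k100 13 (.s k84 k220 9 (.s k168 k252 13 (.s k136 k184 3 (.s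
  k153 k187 4 (.d k154 k155 k223 0 10))))))), (.s k32 k16 3 (.s k100 k152 13 (.s k101 k239 10 (.s
  k102 k103 0 (.s k34 k238 9 (.d k51 k17 k153 4 14))))))] (.c k16 (.q k17 [(.s k153 k221 9 (.d k51
  k34 k102 4 14)), (.s k152 k100 13 (.s k153 k221 9 (.s k154 k155 0 (.s k138 k186 3 (.d k207 k69
  k101 10 14))))), (.s k34 k51 4 (.s k100 k152 13 (.s k102 k238 9 (.s k101 k103 0 (.s k69 k117 3 (.d
  k207 k138 k154 10 14))))))] .n) (.c k32 (.q k16 [(.s k154 k223 10 (.s k138 k186 3 (.d k207 k69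
  k101 10 14))), (.s k152 k100 13 (.s k84 k220 9 (.s k168 k252 13 (.s k136 k184 3 (.s k153 k187 4
  (.s k17 k221 9 (.d k51 k34 k102 4 14)))))))] (.c k186 (.l (.s k152 k100 13 (.s k154 k223 10 (.s
  k153 k155 0 (.s k17 k221 9 (.d k51 k34 k102 4 14)))))) (.c k223 (.l (.s k152 k100 13 (.s k84 k220
  9 (.s k168 k252 13 (.s k136 k184 3 (.s k153 k187 4 (.s k51 k102 14 (.d k17 k221 k34 9 4))))))))
  .n))) (.c k223 (.l (.s k32 k16 3 (.s k101 k239 10 (.s k207 k154 14 (.d k69 k117 k138 3 10)))))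
  .n)))) (.c k102 (.q k4 [(.s k166 k247 12 (.s k162 k174 1 (.s k243 k81 12 (.d k12 k8 k89 1 14)))),
  (.s k68 k136 9 (.s k196 k132 7 (.s k192 k200 1 (.s k128 k64 7 (.s k149 k191 6 (.s k21 k213 7 (.d
  k63 k42 k106 6 14)))))))] (.c k8 (.l (.s k136 k68 9 (.s k153 k187 4 (.s k166 k247 12 (.s k140 k179
  6 (.s k12 k76 7 (.s k162 k174 1 (.d k243 k89 k81 14 12)))))))) .n)) (.c k119 (.l (.s k136 k68 9
  (.s k153 k187 4 (.s k51 k102 14 (.d k17 k34 k221 4 9))))) (.c k136 (.q k48 [(.s k16 k32 3 (.s k154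
  k223 10 (.s k138 k186 3 (.d k207 k69 k101 10 14)))), (.s k32 k16 3 (.s k100 k152 13 (.s k168 k236
  9 (.s k84 k252 13 (.s k68 k116 3 (.s k102 k119 4 (.d k101 k103 k239 0 10)))))))] (.c k16 (.q k17
  [(.s k153 k221 9 (.d k51 k34 k102 4 14)), (.s k152 k100 13 (.s k153 k221 9 (.s k154 k155 0 (.s
  k138 k186 3 (.d k207 k69 k101 10 14))))), (.s k34 k51 4 (.s k100 k152 13 (.s k102 k238 9 (.s k101
  k103 0 (.s k69 k117 3 (.d k207 k138 k154 10 14))))))] .n) (.c k32 (.q k17 [(.s k153 k221 9 (.d k51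
  k34 k102 4 14)), (.s k152 k100 13 (.s k153 k221 9 (.s k154 k155 0 (.s k138 k186 3 (.d k207 k69
  k101 10 14))))), (.s k34 k51 4 (.s k100 k152 13 (.s k102 k238 9 (.s k101 k103 0 (.s k69 k117 3 (.d
  k207 k138 k154 10 14))))))] .n) (.c k101 (.l (.s k16 k32 3 (.s k152 k100 13 (.s k154 k223 10 (.s
  k153 k155 0 (.s k17 k221 9 (.d k51 k102 k34 14 4))))))) (.c k239 (.l (.s k16 k32 3 (.s k154 k223
  10 (.s k207 k101 14 (.d k138 k186 k69 3 10))))) .n))))) (.c k153 (.q k4 [(.s k166 k247 12 (.s k162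
  k174 1 (.s k243 k81 12 (.d k12 k8 k89 1 14)))), (.s k12 k8 1 (.s k68 k136 9 (.s k132 k196 7 (.s
  k72 k192 9 (.d k76 k64 k140 1 7))))), (.s k68 k136 9 (.s k102 k119 4 (.s k166 k247 12 (.s k38 k230
  7 (.s k55 k21 4 (.d k196 k132 k149 7 12))))))] .n) (.c k187 (.l (.s k68 k136 9 (.s k102 k119 4 (.s
  k51 k153 14 (.d k34 k17 k238 4 9))))) (.c k238 (.l (.s k136 k68 9 (.s k153 k187 4 (.s k17 k221 9
  (.d k51 k34 k102 4 14))))) .n))))))))))))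

def t2_89 : T TT 256 :=
  (.f k170 k255 14 (.q k48 [(.s k16 k32 3 (.s k154 k223 10 (.s k138 k186 3 (.d k207 k69 k101 10
  14))))] (.c k16 (.q k5 [(.s k15 k10 2 (.s k165 k245 11 (.s k160 k175 2 (.d k240 k80 k90 11 14)))),
  (.s k15 k10 2 (.s k37 k26 6 (.s k21 k53 3 (.s k149 k213 7 (.s k128 k191 6 (.s k192 k64 7 (.d k63
  k42 k106 6 14))))))), (.s k165 k245 11 (.s k160 k175 2 (.s k240 k80 11 (.s k176 k112 7 (.s k154
  k143 6 (.s k138 k186 3 (.d k207 k69 k101 10 14)))))))] (.c k15 (.f k165 k245 11 (.q k240 [(.d k160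
  k175 k80 2 11), (.s k176 k112 7 (.s k154 k143 6 (.s k138 k186 3 (.d k207 k69 k101 10 14))))] (.c
  k95 (.l (.s k175 k160 2 (.s k176 k112 7 (.s k154 k143 6 (.s k138 k186 3 (.d k207 k69 k101 10
  14)))))) (.c k175 (.q k95 [(.d k80 k90 k160 2 11), (.s k176 k112 7 (.s k154 k143 6 (.s k138 k186 3
  (.d k207 k69 k101 10 14))))] .n) .n)))) .n)) (.c k32 (.q k5 [(.s k165 k245 11 (.s k160 k175 2 (.s
  k240 k80 11 (.d k15 k10 k90 2 14)))), (.s k15 k10 2 (.s k37 k26 6 (.s k21 k53 3 (.s k149 k213 7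
  (.s k128 k191 6 (.s k192 k64 7 (.d k63 k42 k106 6 14)))))))] (.c k10 (.l (.s k165 k245 11 (.s k160
  k175 2 (.s k240 k80 11 (.s k176 k112 7 (.s k154 k143 6 (.s k138 k186 3 (.d k207 k69 k101 10
  14)))))))) (.c k15 (.f k165 k245 11 (.q k240 [(.d k160 k175 k80 2 11), (.s k176 k112 7 (.s k154
  k143 6 (.s k138 k186 3 (.d k207 k69 k101 10 14))))] (.c k95 (.l (.s k175 k160 2 (.s k176 k112 7
  (.s k154 k143 6 (.s k138 k186 3 (.d k207 k69 k101 10 14)))))) (.c k175 (.q k95 [(.d k80 k90 k160 2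
  11), (.s k176 k112 7 (.s k154 k143 6 (.s k138 k186 3 (.d k207 k69 k101 10 14))))] .n) .n)))) .n)))
  (.c k69 (.q k4 [(.s k12 k8 1 (.s k32 k16 3 (.s k36 k24 5 (.s k20 k52 3 (.d k40 k44 k60 1 5))))),
  (.s k16 k32 3 (.s k154 k223 10 (.s k166 k247 12 (.s k178 k142 5 (.s k243 k113 8 (.d k162 k174 k81
  1 12)))))), (.s k12 k8 1 (.s k36 k24 5 (.s k20 k52 3 (.s k150 k215 8 (.s k130 k190 5 (.s k195 k65
  8 (.d k60 k40 k105 5 14)))))))] (.c k154 (.l (.s k12 k8 1 (.s k32 k16 3 (.s k101 k239 10 (.s k166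
  k247 12 (.d k36 k24 k231 5 8)))))) .n)) (.c k101 (.f k16 k32 3 (.q k105 [(.s k40 k235 8 (.s k60
  k20 5 (.s k65 k125 5 (.d k195 k130 k150 8 14)))), (.s k154 k223 10 (.s k138 k186 3 (.s k203 k56 12
  (.s k207 k69 10 (.s k195 k199 1 (.d k65 k125 k130 5 8)))))), (.s k40 k235 8 (.s k60 k20 5 (.s k154
  k223 10 (.d k56 k52 k203 1 12))))] (.c k77 (.q k113 [(.s k65 k125 5 (.s k97 k81 3 (.d k195 k130
  k146 8 12))), (.s k40 k235 8 (.s k60 k20 5 (.s k56 k52 1 (.d k154 k223 k203 10 12)))), (.s k243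
  k178 8 (.s k81 k162 12 (.d k65 k97 k125 3 5)))] .n) (.c k113 (.q k77 [(.s k40 k235 8 (.s k60 k20 5
  (.s k65 k125 5 (.d k195 k130 k150 8 14)))), (.s k154 k223 10 (.s k138 k186 3 (.s k203 k56 12 (.s
  k73 k8 8 (.d k65 k69 k125 1 5))))), (.s k40 k235 8 (.s k60 k20 5 (.s k56 k52 1 (.d k154 k223 k203
  10 12))))] (.c k40 (.l (.s k65 k125 5 (.s k69 k73 1 (.s k138 k207 10 (.d k154 k223 k186 10 3)))))
  .n)) (.c k195 (.l (.s k154 k223 10 (.s k56 k203 12 (.s k60 k52 1 (.d k40 k20 k235 5 8))))) .n)))))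
  (.c k138 (.f k32 k16 3 (.q k130 [(.s k150 k190 5 (.s k20 k215 8 (.s k60 k40 5 (.d k195 k65 k105 8
  14)))), (.s k101 k239 10 (.s k195 k65 8 (.s k207 k154 14 (.s k199 k203 1 (.d k150 k190 k52 5
  12))))), (.s k101 k239 10 (.s k150 k190 5 (.s k52 k199 12 (.s k60 k56 1 (.d k20 k40 k215 5 8)))))]
  (.c k70 (.q k206 [(.s k150 k190 5 (.s k20 k215 8 (.s k60 k40 5 (.d k195 k65 k105 8 14)))), (.s
  k101 k239 10 (.s k195 k65 8 (.s k207 k154 14 (.s k199 k203 1 (.d k150 k190 k52 5 12))))), (.s k101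
  k239 10 (.s k150 k190 5 (.s k52 k199 12 (.s k60 k56 1 (.d k20 k40 k215 5 8)))))] (.c k150 (.l (.s
  k65 k195 8 (.s k101 k239 10 (.s k105 k125 5 (.s k97 k109 1 (.s k81 k113 3 (.d k162 k227 k243 8
  12))))))) (.c k190 (.l (.s k101 k239 10 (.s k195 k65 8 (.s k97 k146 12 (.s k105 k109 1 (.s k40
  k235 8 (.d k60 k20 k150 5 14))))))) .n))) (.c k150 (.l (.s k65 k195 8 (.s k101 k239 10 (.s k105
  k125 5 (.s k97 k109 1 (.s k81 k113 3 (.d k162 k227 k243 8 12))))))) (.c k190 (.l (.s k101 k239 10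
  (.s k195 k65 8 (.s k97 k146 12 (.s k105 k109 1 (.s k40 k235 8 (.d k60 k20 k150 5 14))))))) (.c
  k206 (.q k70 [(.s k150 k190 5 (.s k20 k215 8 (.s k60 k40 5 (.d k195 k65 k105 8 14)))), (.s k101
  k239 10 (.s k69 k117 3 (.s k68 k71 0 (.s k102 k119 4 (.s k204 k136 9 (.d k100 k103 k152 0
  13))))))] .n) .n)))))) (.c k154 (.q k24 [(.s k12 k36 5 (.s k8 k4 1 (.s k16 k32 3 (.s k20 k28 1 (.d
  k40 k56 k60 3 5))))), (.s k32 k16 3 (.s k36 k12 5 (.s k44 k40 1 (.s k101 k239 10 (.s k166 k231 8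
  (.s k227 k105 10 (.d k162 k174 k97 1 8))))))), (.s k16 k32 3 (.s k20 k28 1 (.s k150 k215 8 (.s
  k130 k190 5 (.s k195 k65 8 (.d k60 k40 k105 5 14)))))), (.s k12 k36 5 (.s k8 k4 1 (.s k40 k56 3
  (.s k105 k235 8 (.s k65 k125 5 (.s k195 k130 8 (.d k60 k20 k150 5 14)))))))] (.c k40 (.q k4 [(.d
  k12 k8 k36 1 5), (.s k32 k16 3 (.s k101 k239 10 (.s k69 k117 3 (.s k199 k134 8 (.s k150 k52 12 (.s
  k215 k20 8 (.d k247 k231 k166 3 12)))))))] .n) .n)) (.c k186 (.l (.s k32 k16 3 (.s k101 k239 10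
  (.s k69 k117 3 (.d k207 k138 k154 10 14))))) (.c k207 (.f k16 k32 3 (.q k26 [(.s k15 k37 6 (.s k10
  k5 2 (.s k21 k31 2 (.d k42 k58 k63 3 6)))), (.s k21 k31 2 (.s k149 k213 7 (.s k128 k191 6 (.s k192
  k64 7 (.s k144 k96 11 (.d k154 k223 k159 10 2)))))), (.s k15 k37 6 (.s k5 k10 2 (.s k165 k245 11
  (.s k160 k175 2 (.d k240 k80 k90 11 14)))))] (.c k223 (.q k239 [(.s k15 k37 6 (.s k10 k5 2 (.s k42
  k58 3 (.d k21 k31 k63 2 6)))), (.s k21 k31 2 (.s k149 k213 7 (.s k128 k191 6 (.s k192 k64 7 (.d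
  k63 k42 k106 6 14))))), (.s k15 k37 6 (.s k5 k10 2 (.s k165 k245 11 (.s k160 k175 2 (.d k240 k80
  k90 11 14)))))] (.c k42 (.l (.s k31 k21 2 (.s k15 k37 6 (.s k47 k63 3 (.s k5 k10 2 (.s k165 k245
  11 (.d k175 k111 k160 7 2))))))) .n)) (.c k239 (.l (.s k223 k154 10 (.s k15 k37 6 (.s k10 k5 2 (.s
  k21 k31 2 (.d k42 k58 k63 3 6)))))) .n)))) (.c k223 (.l (.s k32 k16 3 (.s k101 k239 10 (.s k207
  k154 14 (.d k69 k117 k138 3 10))))) (.c k239 (.l (.s k16 k32 3 (.s k154 k223 10 (.s k207 k101 14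
  (.d k138 k186 k69 3 10))))) .n))))))))))))

def t2_90 : T TT 256 :=
  (.f k170 k255 14 (.q k48 [(.s k16 k32 3 (.s k154 k223 10 (.s k138 k186 3 (.d k207 k69 k101 10
  14))))] (.c k16 (.q k4 [(.s k12 k8 1 (.s k166 k247 12 (.s k162 k174 1 (.d k243 k81 k89 12 14)))),
  (.s k12 k8 1 (.s k36 k24 5 (.s k20 k52 3 (.s k150 k215 8 (.s k130 k190 5 (.s k195 k65 8 (.d k60
  k40 k105 5 14)))))))] (.c k8 (.l (.s k166 k247 12 (.s k162 k174 1 (.s k243 k81 12 (.s k178 k113 8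
  (.s k154 k142 5 (.s k138 k186 3 (.d k207 k69 k101 10 14)))))))) (.c k12 (.f k166 k247 12 (.q k243
  [(.d k162 k174 k81 1 12), (.s k178 k113 8 (.s k154 k142 5 (.s k138 k186 3 (.d k207 k69 k101 10
  14))))] (.c k93 (.l (.s k174 k162 1 (.s k178 k113 8 (.s k154 k142 5 (.s k138 k186 3 (.d k207 k69
  k101 10 14)))))) (.c k174 (.q k93 [(.d k81 k89 k162 1 12), (.s k178 k113 8 (.s k154 k142 5 (.s
  k138 k186 3 (.d k207 k69 k101 10 14))))] .n) .n)))) .n))) (.c k32 (.q k4 [(.s k12 k8 1 (.s k166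
  k247 12 (.s k162 k174 1 (.d k243 k81 k89 12 14)))), (.s k12 k8 1 (.s k36 k24 5 (.s k20 k52 3 (.s
  k150 k215 8 (.s k130 k190 5 (.s k195 k65 8 (.d k60 k40 k105 5 14)))))))] (.c k8 (.l (.s k166 k247
  12 (.s k162 k174 1 (.s k243 k81 12 (.s k178 k113 8 (.s k154 k142 5 (.s k138 k186 3 (.d k207 k69
  k101 10 14)))))))) (.c k12 (.f k166 k247 12 (.q k243 [(.d k162 k174 k81 1 12), (.s k178 k113 8 (.s
  k154 k142 5 (.s k138 k186 3 (.d k207 k69 k101 10 14))))] (.c k93 (.l (.s k174 k162 1 (.s k178 k113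
  8 (.s k154 k142 5 (.s k138 k186 3 (.d k207 k69 k101 10 14)))))) (.c k174 (.q k93 [(.d k81 k89 k162
  1 12), (.s k178 k113 8 (.s k154 k142 5 (.s k138 k186 3 (.d k207 k69 k101 10 14))))] .n) .n))))
  .n))) (.c k69 (.q k4 [(.s k12 k8 1 (.s k166 k247 12 (.s k162 k174 1 (.d k243 k81 k89 12 14)))),
  (.s k12 k8 1 (.s k32 k16 3 (.s k36 k24 5 (.s k20 k52 3 (.d k40 k44 k60 1 5))))), (.s k16 k32 3 (.s
  k154 k223 10 (.s k166 k247 12 (.s k178 k142 5 (.s k243 k113 8 (.d k162 k174 k81 1 12))))))] .n)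
  (.c k101 (.f k16 k32 3 (.q k106 [(.s k42 k234 7 (.s k63 k21 6 (.s k64 k127 6 (.d k192 k128 k149 7
  14)))), (.s k154 k223 10 (.s k138 k186 3 (.s k202 k58 11 (.s k207 k69 10 (.s k192 k197 2 (.d k64
  k127 k128 6 7)))))), (.s k42 k234 7 (.s k63 k21 6 (.s k154 k223 10 (.d k58 k53 k202 2 11))))] (.c
  k79 (.q k112 [(.s k240 k176 7 (.s k80 k160 11 (.d k64 k96 k127 3 6))), (.s k42 k234 7 (.s k63 k21
  6 (.s k58 k53 2 (.d k154 k223 k202 10 11))))] .n) (.c k112 (.q k79 [(.s k42 k234 7 (.s k63 k21 6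
  (.s k64 k127 6 (.d k192 k128 k149 7 14)))), (.s k154 k223 10 (.s k138 k186 3 (.s k202 k58 11 (.s
  k74 k10 7 (.d k64 k69 k127 2 6))))), (.s k42 k234 7 (.s k63 k21 6 (.s k58 k53 2 (.d k154 k223 k202
  10 11))))] (.c k42 (.l (.s k64 k127 6 (.s k69 k74 2 (.s k138 k207 10 (.d k154 k223 k186 10 3)))))
  .n)) (.c k192 (.l (.s k154 k223 10 (.s k58 k202 11 (.s k63 k53 2 (.d k42 k21 k234 6 7))))) .n)))))
  (.c k138 (.f k16 k32 3 (.q k192 [(.s k128 k64 7 (.s k144 k96 11 (.s k160 k176 3 (.d k80 k208 k240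
  7 11)))), (.s k64 k128 7 (.s k106 k127 6 (.s k42 k234 7 (.d k63 k21 k149 6 14)))), (.s k144 k96 11
  (.s k154 k223 10 (.s k149 k159 2 (.s k21 k213 7 (.d k63 k42 k106 6 14)))))] (.c k70 (.q k206 [(.s
  k128 k64 7 (.s k144 k96 11 (.s k160 k176 3 (.d k80 k208 k240 7 11)))), (.s k64 k128 7 (.s k106
  k127 6 (.s k42 k234 7 (.d k63 k21 k149 6 14)))), (.s k144 k96 11 (.s k154 k223 10 (.s k149 k159 2
  (.s k21 k213 7 (.d k63 k42 k106 6 14)))))] .n) (.c k206 (.q k70 [(.s k128 k64 7 (.s k144 k96 11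
  (.s k160 k176 3 (.d k80 k208 k240 7 11)))), (.s k64 k128 7 (.s k106 k127 6 (.s k42 k234 7 (.d k63
  k21 k149 6 14)))), (.s k144 k96 11 (.s k154 k223 10 (.s k149 k159 2 (.s k21 k213 7 (.d k63 k42
  k106 6 14)))))] .n) .n)))) (.c k154 (.q k26 [(.s k15 k37 6 (.s k10 k5 2 (.s k16 k32 3 (.s k21 k31
  2 (.d k42 k58 k63 3 6))))), (.s k32 k16 3 (.s k37 k15 6 (.s k47 k42 2 (.s k101 k239 10 (.s k165
  k229 7 (.s k224 k106 10 (.d k160 k175 k96 2 7))))))), (.s k16 k32 3 (.s k21 k31 2 (.s k149 k213 7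
  (.s k128 k191 6 (.s k192 k64 7 (.d k63 k42 k106 6 14)))))), (.s k15 k37 6 (.s k10 k5 2 (.s k42 k58
  3 (.s k106 k234 7 (.s k64 k127 6 (.s k192 k128 7 (.d k63 k21 k149 6 14)))))))] (.c k42 (.f k16 k32
  3 (.l (.s k21 k31 2 (.s k37 k15 6 (.s k53 k5 3 (.s k63 k58 2 (.s k149 k213 7 (.s k128 k191 6 (.d
  k192 k106 k64 14 7))))))))) .n)) (.c k186 (.l (.s k32 k16 3 (.s k101 k239 10 (.s k69 k117 3 (.d
  k207 k138 k154 10 14))))) (.c k207 (.f k32 k16 3 (.q k40 [(.s k36 k44 1 (.s k12 k24 5 (.s k4 k8 1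
  (.d k20 k52 k60 3 5)))), (.s k44 k36 1 (.s k105 k235 8 (.s k166 k227 10 (.s k174 k162 1 (.d k239
  k109 k101 8 10))))), (.s k60 k20 5 (.s k105 k235 8 (.s k65 k125 5 (.d k195 k130 k150 8 14))))] (.c
  k223 (.l (.s k239 k101 10 (.s k20 k60 5 (.s k36 k44 1 (.s k4 k52 3 (.d k12 k8 k24 1 5)))))) (.c
  k239 (.q k223 [(.s k60 k20 5 (.s k56 k52 1 (.s k24 k8 3 (.d k36 k44 k12 1 5)))), (.s k105 k235 8
  (.s k65 k125 5 (.s k195 k130 8 (.d k60 k20 k150 5 14))))] (.c k20 (.l (.s k44 k36 1 (.s k105 k235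
  8 (.s k65 k125 5 (.s k195 k130 8 (.s k97 k146 12 (.d k227 k162 k166 8 10))))))) (.c k60 (.l (.s
  k36 k44 1 (.s k12 k24 5 (.s k4 k8 1 (.s k166 k247 12 (.s k243 k89 14 (.d k162 k174 k81 1 12)))))))
  .n))) .n)))) (.c k223 (.l (.s k32 k16 3 (.s k101 k239 10 (.s k207 k154 14 (.d k69 k117 k138 3
  10))))) (.c k239 (.l (.s k16 k32 3 (.s k154 k223 10 (.s k207 k101 14 (.d k138 k186 k69 3 10)))))
  .n))))))))))))

def t2_91 : T TT 256 :=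
  (.f k170 k255 14 (.q k204 [(.s k68 k136 9 (.s k102 k119 4 (.s k34 k238 9 (.d k51 k17 k153 4
  14))))] (.c k17 (.q k4 [(.s k12 k8 1 (.s k166 k247 12 (.s k162 k174 1 (.d k243 k81 k89 12 14)))),
  (.s k12 k8 1 (.s k68 k136 9 (.s k76 k140 7 (.s k72 k64 1 (.d k132 k196 k192 7 9))))), (.s k68 k136
  9 (.s k102 k119 4 (.s k166 k247 12 (.s k38 k230 7 (.s k55 k21 4 (.d k196 k132 k149 7 12))))))] .n)
  (.c k34 (.f k68 k136 9 (.q k101 [(.s k32 k239 10 (.s k48 k16 3 (.s k69 k117 3 (.d k207 k138 k154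
  10 14)))), (.s k102 k119 4 (.s k100 k103 0 (.s k48 k152 13 (.d k32 k16 k239 3 10)))), (.s k69 k117
  3 (.s k70 k71 0 (.s k137 k3 10 (.s k205 k1 9 (.d k207 k206 k138 0 10)))))] (.c k18 (.q k50 [(.s
  k102 k119 4 (.s k51 k153 14 (.s k48 k49 0 (.d k32 k16 k239 3 10)))), (.s k32 k239 10 (.s k48 k16 3
  (.s k69 k117 3 (.d k207 k138 k154 10 14)))), (.s k102 k119 4 (.s k206 k154 13 (.s k205 k207 0 (.d
  k153 k51 k49 14 13))))] (.c k239 (.l (.s k69 k117 3 (.s k102 k119 4 (.s k154 k206 13 (.d k138 k186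
  k207 3 10))))) .n)) (.c k48 (.l (.s k32 k239 10 (.s k102 k119 4 (.s k100 k103 0 (.s k84 k116 3 (.d
  k168 k252 k236 13 9)))))) (.c k50 (.q k18 [(.s k32 k239 10 (.s k48 k16 3 (.s k69 k117 3 (.d k207
  k138 k154 10 14)))), (.s k102 k119 4 (.s k100 k103 0 (.s k48 k152 13 (.d k32 k16 k239 3 10)))),
  (.s k69 k117 3 (.s k70 k71 0 (.s k137 k3 10 (.s k205 k1 9 (.d k207 k206 k138 0 10)))))] (.c k48
  (.l (.s k32 k239 10 (.s k102 k119 4 (.s k100 k103 0 (.s k84 k116 3 (.d k168 k252 k236 13 9))))))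
  .n)) .n))))) (.c k51 (.f k68 k136 9 (.q k69 [(.s k70 k71 0 (.s k207 k138 10 (.s k205 k206 0 (.d
  k137 k1 k3 9 10)))), (.s k101 k117 3 (.s k32 k239 10 (.s k48 k16 3 (.s k100 k152 13 (.d k102 k119
  k103 4 0)))))] (.c k119 (.q k187 [(.s k70 k71 0 (.s k207 k138 10 (.s k205 k206 0 (.d k137 k1 k3 9
  10)))), (.s k101 k117 3 (.s k32 k239 10 (.s k48 k16 3 (.s k100 k152 13 (.s k168 k236 9 (.d k84
  k116 k252 3 13))))))] (.c k207 (.l (.s k71 k70 0 (.s k101 k117 3 (.s k116 k86 4 (.s k100 k84 3 (.s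
  k48 k152 13 (.d k32 k16 k239 3 10))))))) .n)) (.c k187 (.l (.s k119 k102 4 (.s k70 k71 0 (.s k137
  k3 10 (.s k205 k1 9 (.d k207 k206 k138 0 10)))))) (.c k207 (.l (.s k71 k70 0 (.s k101 k117 3 (.s
  k86 k116 4 (.s k87 k84 0 (.d k119 k103 k102 3 4)))))) .n))))) (.c k68 (.q k48 [(.s k16 k32 3 (.s
  k154 k223 10 (.s k138 k186 3 (.d k207 k69 k101 10 14)))), (.s k16 k32 3 (.s k152 k100 13 (.s k84
  k220 9 (.s k168 k252 13 (.s k136 k184 3 (.s k153 k187 4 (.d k154 k155 k223 0 10))))))), (.s k32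
  k16 3 (.s k100 k152 13 (.s k101 k239 10 (.s k102 k103 0 (.s k34 k238 9 (.d k51 k17 k153 4
  14))))))] (.c k16 (.q k12 [(.s k4 k8 1 (.s k166 k247 12 (.s k162 k174 1 (.d k243 k81 k89 12
  14)))), (.s k24 k36 5 (.s k140 k76 7 (.s k152 k100 13 (.s k88 k216 7 (.d k164 k176 k240 5 13)))))]
  .n) (.c k32 (.q k12 [(.s k4 k8 1 (.s k166 k247 12 (.s k162 k174 1 (.d k243 k81 k89 12 14)))), (.s
  k24 k36 5 (.s k140 k76 7 (.s k152 k100 13 (.s k88 k216 7 (.d k164 k176 k240 5 13)))))] .n) (.c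
  k223 (.l (.s k32 k16 3 (.s k101 k239 10 (.s k207 k154 14 (.d k69 k117 k138 3 10))))) .n)))) (.c
  k102 (.q k4 [(.s k12 k8 1 (.s k166 k247 12 (.s k162 k174 1 (.d k243 k81 k89 12 14)))), (.s k68
  k136 9 (.s k196 k132 7 (.s k192 k200 1 (.s k128 k64 7 (.s k149 k191 6 (.s k21 k213 7 (.d k63 k42
  k106 6 14)))))))] (.c k8 (.l (.s k136 k68 9 (.s k153 k187 4 (.s k166 k247 12 (.s k140 k179 6 (.s
  k12 k76 7 (.s k162 k174 1 (.d k243 k89 k81 14 12)))))))) .n)) (.c k119 (.l (.s k136 k68 9 (.s k153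
  k187 4 (.s k51 k102 14 (.d k17 k34 k221 4 9))))) (.c k136 (.q k48 [(.s k16 k32 3 (.s k154 k223 10
  (.s k138 k186 3 (.d k207 k69 k101 10 14)))), (.s k32 k16 3 (.s k100 k152 13 (.s k168 k236 9 (.s
  k84 k252 13 (.s k68 k116 3 (.s k102 k119 4 (.d k101 k103 k239 0 10)))))))] (.c k16 (.q k12 [(.s k4
  k8 1 (.s k166 k247 12 (.s k162 k174 1 (.d k243 k81 k89 12 14)))), (.s k24 k36 5 (.s k140 k76 7 (.s
  k152 k100 13 (.s k88 k216 7 (.d k164 k176 k240 5 13)))))] .n) (.c k32 (.q k12 [(.s k4 k8 1 (.s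
  k166 k247 12 (.s k162 k174 1 (.d k243 k81 k89 12 14)))), (.s k24 k36 5 (.s k140 k76 7 (.s k152
  k100 13 (.s k88 k216 7 (.d k164 k176 k240 5 13)))))] .n) (.c k101 (.l (.s k16 k32 3 (.s k152 k100
  13 (.s k154 k223 10 (.s k153 k155 0 (.s k17 k221 9 (.d k51 k102 k34 14 4))))))) (.c k239 (.l (.s
  k16 k32 3 (.s k154 k223 10 (.s k207 k101 14 (.d k138 k186 k69 3 10))))) .n))))) (.c k153 (.q k4
  [(.s k12 k8 1 (.s k166 k247 12 (.s k162 k174 1 (.d k243 k81 k89 12 14)))), (.s k12 k8 1 (.s k68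
  k136 9 (.s k132 k196 7 (.s k72 k192 9 (.d k76 k64 k140 1 7))))), (.s k68 k136 9 (.s k102 k119 4
  (.s k166 k247 12 (.s k38 k230 7 (.s k55 k21 4 (.d k196 k132 k149 7 12))))))] .n) (.c k187 (.l (.s
  k68 k136 9 (.s k102 k119 4 (.s k51 k153 14 (.d k34 k17 k238 4 9))))) (.c k238 (.l (.s k136 k68 9
  (.s k153 k187 4 (.s k17 k221 9 (.d k51 k34 k102 4 14))))) .n))))))))))))

def t2_92 : T TT 256 :=
  (.f k170 k255 14 (.q k240 [(.s k80 k160 11 (.s k90 k95 2 (.s k10 k250 11 (.d k15 k5 k165 2 14)))),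
  (.s k160 k80 11 (.s k165 k175 2 (.s k5 k245 11 (.d k15 k10 k90 2 14))))] (.c k5 (.q k4 [(.s k12 k8
  1 (.s k166 k247 12 (.s k162 k174 1 (.d k243 k81 k89 12 14)))), (.s k12 k8 1 (.s k160 k80 11 (.s
  k164 k88 13 (.s k84 k244 11 (.d k168 k172 k252 1 13))))), (.s k80 k160 11 (.s k90 k95 2 (.s k166
  k247 12 (.s k242 k14 13 (.s k243 k241 0 (.d k162 k174 k81 1 12))))))] .n) (.c k10 (.f k80 k160 11
  (.q k102 [(.s k34 k238 9 (.s k51 k17 4 (.s k68 k119 4 (.d k204 k136 k153 9 14)))), (.s k90 k95 2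
  (.s k114 k78 5 (.s k51 k177 8 (.d k34 k17 k238 4 9)))), (.s k90 k95 2 (.s k15 k165 14 (.s k78 k114
  5 (.s k204 k141 8 (.d k68 k119 k136 4 9)))))] (.c k6 (.q k14 [(.s k34 k238 9 (.s k51 k17 4 (.s k68
  k119 4 (.d k204 k136 k153 9 14)))), (.s k90 k95 2 (.s k15 k165 14 (.s k12 k13 0 (.s k4 k8 1 (.d
  k166 k247 k242 12 13)))))] .n) (.c k14 (.q k6 [(.s k34 k238 9 (.s k51 k17 4 (.s k68 k119 4 (.d
  k204 k136 k153 9 14)))), (.s k90 k95 2 (.s k114 k78 5 (.s k51 k177 8 (.d k34 k17 k238 4 9)))), (.s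
  k90 k95 2 (.s k15 k165 14 (.s k78 k114 5 (.s k204 k141 8 (.d k68 k119 k136 4 9)))))] .n) .n))))
  (.c k15 (.f k80 k160 11 (.f k95 k90 2 (.q k16 [(.s k48 k32 3 (.s k112 k176 7 (.s k96 k64 3 (.d
  k144 k208 k192 7 11)))), (.s k154 k223 10 (.s k138 k186 3 (.s k207 k69 10 (.d k48 k32 k101 3
  14))))] (.c k32 (.l (.s k144 k208 7 (.s k154 k223 10 (.s k138 k186 3 (.s k207 k69 10 (.s k48 k101
  14 (.s k96 k192 11 (.d k112 k64 k176 3 7)))))))) (.c k48 (.l (.s k208 k144 7 (.s k192 k224 3 (.s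
  k128 k64 7 (.s k149 k191 6 (.s k21 k213 7 (.d k63 k42 k106 6 14))))))) .n))))) (.c k80 (.q k252
  [(.s k84 k168 13 (.s k86 k87 0 (.s k244 k248 1 (.s k165 k7 12 (.s k5 k245 11 (.d k15 k10 k90 2
  14)))))), (.s k84 k168 13 (.s k244 k248 1 (.s k4 k164 11 (.s k166 k247 12 (.s k162 k174 1 (.s k243
  k81 12 (.d k12 k8 k89 1 14))))))), (.s k84 k168 13 (.s k86 k87 0 (.s k3 k169 14 (.s k82 k161 12
  (.s k90 k94 1 (.s k10 k250 11 (.d k15 k165 k5 14 2)))))))] (.c k84 (.q k88 [(.s k248 k244 1 (.s k8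
  k168 11 (.d k12 k4 k164 1 13))), (.s k12 k164 13 (.s k4 k8 1 (.s k166 k247 12 (.s k162 k174 1 (.d
  k243 k81 k89 12 14)))))] (.c k4 (.l (.s k164 k12 13 (.s k248 k244 1 (.s k8 k168 11 (.s k89 k251 12
  (.s k90 k91 0 (.s k10 k250 11 (.d k11 k9 k169 0 12)))))))) (.c k8 (.q k5 [(.s k165 k245 11 (.d k15
  k10 k90 2 14)), (.s k164 k12 13 (.s k165 k245 11 (.s k166 k167 0 (.s k4 k247 12 (.s k7 k6 0 (.d
  k244 k248 k86 1 12)))))), (.s k10 k15 2 (.s k12 k164 13 (.s k90 k250 11 (.s k89 k91 0 (.s k81 k93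
  1 (.d k243 k162 k166 12 14))))))] (.c k10 (.l (.s k12 k164 13 (.s k165 k245 11 (.s k90 k15 14 (.s
  k89 k91 0 (.s k81 k93 1 (.d k243 k162 k166 12 14))))))) .n)) (.c k12 (.l (.s k248 k244 1 (.s k8
  k168 11 (.s k89 k251 12 (.s k90 k91 0 (.s k10 k250 11 (.d k11 k9 k169 0 12))))))) (.c k164 (.q k4
  [(.s k248 k244 1 (.d k8 k12 k168 1 11)), (.s k166 k247 12 (.s k162 k174 1 (.s k243 k81 12 (.s k242
  k241 0 (.s k90 k14 13 (.d k89 k12 k91 14 0))))))] (.c k12 (.l (.s k248 k244 1 (.s k8 k168 11 (.s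
  k89 k251 12 (.s k90 k91 0 (.s k10 k250 11 (.d k11 k9 k169 0 12))))))) .n)) (.c k244 (.l (.s k12
  k164 13 (.s k4 k8 1 (.s k166 k247 12 (.s k162 k174 1 (.d k243 k81 k89 12 14)))))) .n)))))) (.c k88
  (.l (.s k84 k168 13 (.s k86 k87 0 (.s k3 k169 14 (.s k82 k161 12 (.s k90 k94 1 (.s k10 k250 11 (.d
  k15 k165 k5 14 2)))))))) (.c k168 (.q k84 [(.s k86 k87 0 (.s k244 k248 1 (.s k165 k7 12 (.s k5
  k245 11 (.d k15 k10 k90 2 14))))), (.s k244 k248 1 (.s k4 k164 11 (.s k166 k247 12 (.s k162 k174 1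
  (.s k243 k81 12 (.d k12 k8 k89 1 14)))))), (.s k86 k87 0 (.s k3 k169 14 (.s k82 k161 12 (.s k90
  k94 1 (.s k10 k250 11 (.d k15 k165 k5 14 2))))))] .n) .n)))) (.c k90 (.q k4 [(.s k12 k8 1 (.s k166
  k247 12 (.s k162 k174 1 (.d k243 k81 k89 12 14)))), (.s k12 k8 1 (.s k160 k80 11 (.s k164 k88 13
  (.s k84 k244 11 (.d k168 k172 k252 1 13))))), (.s k160 k80 11 (.s k165 k175 2 (.s k166 k247 12 (.s
  k164 k167 0 (.s k84 k244 11 (.d k168 k172 k252 1 13))))))] .n) (.c k95 (.l (.s k160 k80 11 (.s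
  k165 k175 2 (.s k15 k90 14 (.d k5 k10 k245 2 11))))) (.c k160 (.q k166 [(.s k4 k247 12 (.s k12 k8
  1 (.s k162 k174 1 (.d k243 k81 k89 12 14)))), (.s k162 k174 1 (.s k243 k81 12 (.s k242 k241 0 (.s
  k90 k14 13 (.s k10 k250 11 (.d k15 k5 k165 2 14)))))), (.s k4 k247 12 (.s k12 k8 1 (.s k164 k88 13
  (.s k165 k167 0 (.s k5 k245 11 (.d k15 k10 k90 2 14))))))] (.c k12 (.q k252 [(.s k4 k247 12 (.s
  k244 k248 1 (.d k84 k164 k168 11 13))), (.s k84 k168 13 (.s k86 k87 0 (.s k246 k6 11 (.s k243 k249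
  2 (.d k162 k174 k81 1 12))))), (.s k244 k248 1 (.s k247 k4 12 (.s k246 k245 0 (.s k243 k249 2 (.d
  k162 k174 k81 1 12)))))] (.c k93 (.l (.s k174 k162 1 (.s k4 k247 12 (.s k84 k168 13 (.d k244 k164
  k248 11 1))))) (.c k174 (.q k93 [(.s k4 k247 12 (.s k244 k248 1 (.d k84 k164 k168 11 13))), (.s
  k81 k89 1 (.s k84 k168 13 (.s k86 k87 0 (.s k243 k162 12 (.d k246 k249 k6 2 11))))), (.s k81 k89 1
  (.s k243 k162 12 (.s k244 k248 1 (.s k246 k249 2 (.d k247 k245 k4 0 12)))))] (.c k243 (.l (.s k84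
  k168 13 (.s k244 k248 1 (.d k4 k164 k247 11 12)))) .n)) (.c k243 (.l (.s k84 k168 13 (.s k244 k248
  1 (.d k4 k164 k247 11 12)))) .n)))) (.c k243 (.q k65 [(.s k105 k125 5 (.s k40 k235 8 (.s k60 k20 5
  (.d k195 k130 k150 8 14)))), (.s k130 k195 8 (.s k162 k174 1 (.s k178 k146 3 (.s k142 k154 5 (.s
  k134 k138 1 (.d k150 k182 k190 3 5)))))), (.s k105 k125 5 (.s k162 k174 1 (.s k227 k44 10 (.s k32
  k97 8 (.s k235 k40 8 (.d k239 k231 k101 1 10))))))] (.c k190 (.l (.s k195 k130 8 (.s k105 k125 5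
  (.s k60 k150 14 (.d k40 k20 k235 5 8))))) (.c k235 (.l (.s k105 k125 5 (.s k44 k227 10 (.s k195
  k130 8 (.s k60 k150 14 (.s k12 k28 3 (.d k4 k8 k247 1 12))))))) (.c k247 (.q k251 [(.s k105 k125 5
  (.s k40 k235 8 (.s k60 k20 5 (.d k195 k130 k150 8 14)))), (.s k8 k89 12 (.s k12 k4 1 (.s k164 k88
  13 (.s k165 k167 0 (.s k5 k245 11 (.d k15 k90 k10 14 2))))))] .n) (.c k251 (.l (.s k247 k4 12 (.s
  k105 k125 5 (.s k40 k235 8 (.s k60 k20 5 (.d k195 k130 k150 8 14)))))) .n))))) .n))) (.c k165 (.q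
  k4 [(.s k12 k8 1 (.s k166 k247 12 (.s k162 k174 1 (.d k243 k81 k89 12 14)))), (.s k12 k8 1 (.s
  k160 k80 11 (.s k164 k88 13 (.s k84 k244 11 (.d k168 k172 k252 1 13))))), (.s k80 k160 11 (.s k90
  k95 2 (.s k166 k247 12 (.s k242 k14 13 (.s k243 k241 0 (.d k162 k174 k81 1 12))))))] .n) (.c k175
  (.l (.s k80 k160 11 (.s k90 k95 2 (.s k15 k165 14 (.d k10 k5 k250 2 11))))) .n)))))))))))

def t2_93 : T TT 256 :=
  (.q k90 [(.s k80 k95 2 (.s k240 k160 11 (.s k165 k15 14 (.s k245 k5 11 (.d k255 k250 k170 2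
  14))))), (.s k95 k80 2 (.s k255 k170 14 (.s k15 k175 11 (.s k5 k10 2 (.d k165 k245 k240 11
  14)))))] (.c k5 (.q k12 [(.s k4 k8 1 (.s k166 k247 12 (.s k170 k255 14 (.s k162 k174 1 (.d k243
  k81 k89 12 14))))), (.s k80 k95 2 (.s k240 k160 11 (.s k15 k165 14 (.s k14 k13 0 (.s k88 k164 13
  (.s k89 k91 0 (.d k166 k242 k243 13 14))))))), (.s k4 k8 1 (.s k80 k95 2 (.s k166 k247 12 (.s k14
  k242 13 (.s k15 k13 0 (.d k240 k160 k165 11 14))))))] (.c k166 (.l (.s k8 k4 1 (.s k80 k95 2 (.s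
  k170 k255 14 (.s k89 k251 12 (.s k88 k91 0 (.d k240 k160 k164 11 13))))))) .n)) (.c k15 (.q k16
  [(.s k95 k80 2 (.s k223 k154 10 (.s k31 k159 7 (.s k21 k26 2 (.d k149 k213 k208 7 10))))), (.s k48
  k32 3 (.s k154 k223 10 (.s k101 k207 14 (.s k117 k69 3 (.d k255 k186 k170 10 14))))), (.s k48 k32
  3 (.s k80 k95 2 (.s k144 k208 7 (.s k96 k192 11 (.s k112 k64 3 (.d k240 k176 k160 7 11))))))] (.c
  k48 (.l (.s k80 k95 2 (.s k154 k223 10 (.s k26 k218 7 (.s k31 k21 2 (.d k208 k144 k149 7 10))))))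
  .n)) (.c k80 (.q k12 [(.s k4 k8 1 (.s k166 k247 12 (.s k170 k255 14 (.s k162 k174 1 (.d k243 k81
  k89 12 14))))), (.s k4 k8 1 (.s k166 k247 12 (.s k14 k242 13 (.s k15 k13 0 (.s k5 k10 2 (.d k165
  k245 k240 11 14)))))), (.s k170 k255 14 (.s k10 k250 11 (.s k15 k5 2 (.s k14 k13 0 (.s k166 k242
  13 (.s k162 k174 1 (.d k243 k81 k89 12 14))))))), (.s k8 k4 1 (.s k170 k255 14 (.s k10 k250 11 (.s
  k11 k9 0 (.s k89 k251 12 (.s k88 k91 0 (.d k248 k168 k169 11 12)))))))] .n) (.c k95 (.q k64 [(.s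
  k192 k128 7 (.s k255 k170 14 (.s k213 k234 6 (.s k149 k21 7 (.d k106 k127 k63 6 14))))), (.s k106
  k127 6 (.s k74 k122 3 (.s k192 k128 7 (.s k15 k133 10 (.s k5 k10 2 (.d k165 k245 k240 11 14)))))),
  (.s k170 k255 14 (.s k10 k250 11 (.s k15 k5 2 (.s k192 k128 7 (.s k74 k133 10 (.s k138 k202 7 (.d
  k69 k79 k207 2 10))))))), (.s k106 k127 6 (.s k74 k122 3 (.s k170 k255 14 (.s k10 k250 11 (.s k138
  k202 7 (.d k69 k79 k207 2 10))))))] (.c k92 (.q k94 [(.s k192 k128 7 (.s k255 k170 14 (.s k213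
  k234 6 (.s k149 k21 7 (.d k106 k127 k63 6 14))))), (.s k86 k82 1 (.s k84 k87 0 (.s k124 k104 5 (.s
  k79 k109 4 (.s k69 k74 2 (.d k101 k117 k112 3 6))))))] (.c k86 (.l (.s k106 k127 6 (.s k170 k255
  14 (.s k42 k234 7 (.s k63 k21 6 (.d k192 k128 k149 7 14)))))) .n)) (.c k94 (.q k92 [(.s k192 k128
  7 (.s k255 k170 14 (.s k213 k234 6 (.s k149 k21 7 (.d k106 k127 k63 6 14))))), (.s k106 k127 6 (.s
  k74 k122 3 (.s k192 k128 7 (.s k15 k133 10 (.s k5 k10 2 (.d k165 k245 k240 11 14)))))), (.s k170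
  k255 14 (.s k10 k250 11 (.s k15 k5 2 (.s k192 k128 7 (.s k74 k133 10 (.s k138 k202 7 (.d k69 k79
  k207 2 10))))))), (.s k106 k127 6 (.s k74 k122 3 (.s k170 k255 14 (.s k10 k250 11 (.s k138 k202 7
  (.d k69 k79 k207 2 10))))))] .n) .n))) (.c k160 (.l (.s k95 k80 2 (.s k255 k170 14 (.s k15 k175 11
  (.s k165 k240 14 (.d k5 k10 k245 2 11)))))) (.c k165 (.q k12 [(.s k4 k8 1 (.s k166 k247 12 (.s
  k170 k255 14 (.s k162 k174 1 (.d k243 k81 k89 12 14))))), (.s k8 k4 1 (.s k80 k95 2 (.s k170 k255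
  14 (.s k240 k160 11 (.s k88 k164 13 (.d k89 k91 k251 0 12)))))), (.s k170 k255 14 (.s k10 k250 11
  (.s k15 k5 2 (.s k14 k13 0 (.s k166 k242 13 (.s k162 k174 1 (.d k243 k89 k81 14 12)))))))] (.c k89
  (.l (.s k4 k8 1 (.s k166 k247 12 (.s k14 k242 13 (.s k170 k255 14 (.s k10 k250 11 (.d k15 k13 k5 0
  2))))))) (.c k166 (.l (.s k8 k4 1 (.s k80 k95 2 (.s k170 k255 14 (.s k89 k251 12 (.s k88 k91 0 (.d
  k240 k160 k164 11 13))))))) (.c k170 (.l (.s k4 k8 1 (.s k80 k95 2 (.s k166 k247 12 (.s k89 k243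
  14 (.s k88 k91 0 (.d k240 k160 k164 11 13))))))) (.c k255 (.l (.s k4 k8 1 (.s k80 k95 2 (.s k166
  k247 12 (.s k240 k160 11 (.s k88 k164 13 (.d k89 k243 k91 14 0))))))) .n))))) (.c k170 (.q k86
  [(.s k80 k95 2 (.s k84 k87 0 (.s k82 k94 1 (.s k92 k88 1 (.d k83 k81 k89 0 2))))), (.s k84 k87 0
  (.s k94 k82 1 (.s k252 k168 13 (.s k15 k173 12 (.s k5 k10 2 (.d k165 k245 k240 11 14)))))), (.s
  k80 k95 2 (.s k240 k160 11 (.s k165 k15 14 (.s k244 k7 12 (.s k252 k248 1 (.s k3 k169 14 (.d k82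
  k94 k161 1 12))))))), (.s k84 k87 0 (.s k252 k168 13 (.s k169 k3 14 (.s k248 k11 12 (.s k240 k244
  1 (.d k80 k95 k160 2 11))))))] .n) (.c k175 (.l (.s k80 k95 2 (.s k240 k160 11 (.s k15 k165 14 (.s
  k170 k255 14 (.d k10 k5 k250 2 11)))))) (.c k240 (.q k21 [(.s k95 k80 2 (.s k149 k213 7 (.s k31
  k208 10 (.s k16 k26 2 (.d k223 k159 k154 7 10))))), (.s k63 k42 6 (.s k149 k213 7 (.s k170 k255 14
  (.s k128 k191 6 (.d k192 k64 k106 7 14))))), (.s k63 k42 6 (.s k95 k80 2 (.s k255 k170 14 (.s k15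
  k175 11 (.s k31 k47 3 (.s k16 k26 2 (.d k223 k159 k154 7 10)))))))] .n) (.c k245 (.l (.s k80 k95 2
  (.s k170 k255 14 (.s k10 k250 11 (.s k240 k160 11 (.d k15 k5 k165 2 14)))))) (.c k255 (.q k12 [(.s
  k8 k4 1 (.s k80 k95 2 (.s k240 k160 11 (.s k88 k164 13 (.s k168 k248 11 (.d k84 k92 k252 1
  13)))))), (.s k4 k8 1 (.s k166 k247 12 (.s k14 k242 13 (.s k15 k13 0 (.s k5 k10 2 (.d k165 k245
  k240 11 14)))))), (.s k80 k95 2 (.s k240 k160 11 (.s k15 k165 14 (.s k14 k13 0 (.s k88 k164 13 (.s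
  k89 k91 0 (.d k166 k242 k243 13 14)))))))] (.c k15 (.l (.s k4 k8 1 (.s k166 k247 12 (.s k242 k14
  13 (.s k243 k89 14 (.s k240 k241 0 (.d k80 k95 k160 2 11))))))) (.c k240 (.f k4 k8 1 (.l (.s k166
  k247 12 (.s k14 k242 13 (.s k15 k13 0 (.s k5 k10 2 (.s k243 k89 14 (.s k167 k91 13 (.d k165 k164
  k245 0 11))))))))) .n))) .n))))))))))))

def t2_94 : T TT 256 :=
  (.f k170 k255 14 (.q k12 [(.s k4 k8 1 (.s k166 k247 12 (.s k243 k89 14 (.d k162 k174 k81 1 12))))]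
  (.c k4 (.q k64 [(.s k192 k128 7 (.s k106 k127 6 (.s k63 k149 14 (.d k42 k21 k234 6 7)))), (.s k192
  k128 7 (.s k72 k132 9 (.s k68 k76 1 (.s k102 k119 4 (.s k34 k238 9 (.s k51 k17 4 (.d k204 k136
  k153 9 14)))))))] (.c k128 (.l (.s k106 k127 6 (.s k42 k234 7 (.s k63 k21 6 (.s k46 k29 4 (.s k166
  k226 9 (.s k162 k174 1 (.d k243 k81 k89 12 14)))))))) (.c k192 (.f k106 k127 6 (.q k63 [(.d k42
  k234 k21 7 6), (.s k46 k29 4 (.s k166 k226 9 (.s k162 k174 1 (.d k243 k81 k89 12 14))))] (.c k213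
  (.l (.s k234 k42 7 (.s k46 k29 4 (.s k166 k226 9 (.s k162 k174 1 (.d k243 k81 k89 12 14)))))) (.c
  k234 (.q k213 [(.d k21 k42 k149 6 7), (.s k46 k29 4 (.s k166 k226 9 (.s k162 k174 1 (.d k243 k81
  k89 12 14))))] .n) .n)))) .n))) (.c k8 (.q k64 [(.s k192 k128 7 (.s k106 k127 6 (.s k63 k149 14
  (.d k42 k21 k234 6 7)))), (.s k192 k128 7 (.s k72 k132 9 (.s k68 k76 1 (.s k102 k119 4 (.s k34
  k238 9 (.s k51 k17 4 (.d k204 k136 k153 9 14)))))))] (.c k128 (.l (.s k106 k127 6 (.s k42 k234 7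
  (.s k63 k21 6 (.s k46 k29 4 (.s k166 k226 9 (.s k162 k174 1 (.d k243 k81 k89 12 14)))))))) (.c
  k192 (.f k106 k127 6 (.q k63 [(.d k42 k234 k21 7 6), (.s k46 k29 4 (.s k166 k226 9 (.s k162 k174 1
  (.d k243 k81 k89 12 14))))] (.c k213 (.l (.s k234 k42 7 (.s k46 k29 4 (.s k166 k226 9 (.s k162
  k174 1 (.d k243 k81 k89 12 14)))))) (.c k234 (.q k213 [(.d k21 k42 k149 6 7), (.s k46 k29 4 (.s
  k166 k226 9 (.s k162 k174 1 (.d k243 k81 k89 12 14))))] .n) .n)))) .n))) (.c k81 (.q k5 [(.s k15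
  k10 2 (.s k165 k245 11 (.s k160 k175 2 (.d k240 k80 k90 11 14)))), (.s k4 k8 1 (.s k6 k7 0 (.s k9
  k3 2 (.s k13 k1 1 (.d k15 k14 k10 0 2))))), (.s k4 k8 1 (.s k165 k245 11 (.s k160 k175 2 (.s k166
  k247 12 (.s k164 k167 0 (.d k240 k80 k88 11 13))))))] (.c k15 (.l (.s k4 k8 1 (.s k7 k6 0 (.s k165
  k245 11 (.s k86 k244 12 (.s k87 k84 0 (.d k247 k167 k166 11 12))))))) .n)) (.c k89 (.q k5 [(.s
  k165 k245 11 (.s k160 k175 2 (.s k240 k80 11 (.d k15 k10 k90 2 14)))), (.s k4 k8 1 (.s k6 k7 0 (.s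
  k9 k3 2 (.s k13 k1 1 (.d k15 k14 k10 0 2)))))] (.c k10 (.l (.s k4 k8 1 (.s k165 k245 11 (.s k160
  k175 2 (.s k166 k247 12 (.s k164 k167 0 (.d k240 k80 k88 11 13))))))) (.c k15 (.l (.s k4 k8 1 (.s
  k7 k6 0 (.s k165 k245 11 (.s k86 k244 12 (.s k87 k84 0 (.d k247 k167 k166 11 12))))))) .n))) (.c
  k162 (.f k4 k8 1 (.q k86 [(.s k87 k84 0 (.s k247 k166 12 (.s k7 k167 11 (.s k5 k6 0 (.d k165 k245
  k244 11 12))))), (.s k84 k87 0 (.s k164 k244 11 (.s k168 k252 13 (.s k160 k172 1 (.d k240 k80 k88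
  11 13))))), (.s k166 k247 12 (.s k6 k246 11 (.s k3 k9 2 (.s k169 k252 14 (.s k163 k172 2 (.d k243
  k83 k89 11 14))))))] (.c k82 (.q k242 [(.s k166 k247 12 (.s k246 k6 11 (.s k250 k254 1 (.d k90 k10
  k14 11 13)))), (.s k84 k87 0 (.s k164 k244 11 (.s k88 k240 13 (.s k92 k80 1 (.d k252 k172 k168 11
  13))))), (.s k84 k87 0 (.s k164 k244 11 (.s k166 k247 12 (.s k240 k88 13 (.d k243 k241 k89 0
  14)))))] .n) (.c k242 (.q k82 [(.s k87 k84 0 (.s k247 k166 12 (.s k7 k167 11 (.s k5 k6 0 (.d k165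
  k245 k244 11 12))))), (.s k84 k87 0 (.s k164 k244 11 (.s k240 k88 13 (.s k3 k161 12 (.d k252 k168
  k169 13 14))))), (.s k166 k247 12 (.s k6 k246 11 (.s k3 k9 2 (.s k169 k252 14 (.s k163 k172 2 (.d
  k243 k83 k89 11 14))))))] (.c k244 (.l (.s k84 k87 0 (.s k166 k247 12 (.s k243 k89 14 (.s k246 k6
  11 (.d k252 k249 k168 2 13)))))) .n)) (.c k244 (.l (.s k84 k87 0 (.s k166 k247 12 (.s k243 k89 14
  (.s k246 k6 11 (.d k252 k249 k168 2 13)))))) .n))))) (.c k166 (.q k5 [(.s k165 k245 11 (.s k160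
  k175 2 (.s k240 k80 11 (.d k15 k10 k90 2 14)))), (.s k4 k8 1 (.s k6 k7 0 (.s k9 k3 2 (.s k13 k1 1
  (.d k15 k14 k10 0 2))))), (.s k8 k4 1 (.s k89 k251 12 (.s k93 k81 1 (.s k165 k245 11 (.s k13 k241
  13 (.s k1 k9 1 (.d k253 k173 k169 11 13)))))))] .n) (.c k174 (.l (.s k8 k4 1 (.s k89 k251 12 (.s
  k81 k93 1 (.d k243 k162 k166 12 14))))) (.c k243 (.f k4 k8 1 (.q k5 [(.s k165 k245 11 (.s k160
  k175 2 (.s k240 k80 11 (.d k15 k10 k90 2 14)))), (.s k6 k7 0 (.s k9 k3 2 (.s k13 k1 1 (.d k15 k14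
  k10 0 2))))] (.c k10 (.l (.s k165 k245 11 (.s k160 k175 2 (.s k240 k80 11 (.s k164 k88 13 (.d k166
  k167 k247 0 12)))))) (.c k15 (.l (.s k7 k6 0 (.s k165 k245 11 (.s k86 k244 12 (.s k87 k84 0 (.d
  k247 k167 k166 11 12)))))) (.c k247 (.q k251 [(.s k165 k245 11 (.s k160 k175 2 (.s k240 k80 11 (.d
  k15 k10 k90 2 14)))), (.s k6 k7 0 (.s k9 k3 2 (.s k13 k1 1 (.d k15 k14 k10 0 2))))] (.c k10 (.l
  (.s k165 k245 11 (.s k160 k175 2 (.s k240 k80 11 (.s k164 k88 13 (.s k168 k172 1 (.d k84 k244 k252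
  11 13))))))) (.c k15 (.l (.s k7 k6 0 (.s k165 k245 11 (.s k244 k86 12 (.s k164 k84 11 (.s k240 k88
  13 (.d k160 k80 k175 11 2))))))) .n))) (.c k251 (.l (.s k247 k166 12 (.s k6 k7 0 (.s k9 k3 2 (.s
  k13 k1 1 (.d k15 k14 k10 0 2)))))) .n)))))) (.c k247 (.l (.s k8 k4 1 (.s k89 k251 12 (.s k243 k166
  14 (.d k81 k93 k162 1 12))))) (.c k251 (.l (.s k4 k8 1 (.s k166 k247 12 (.s k243 k89 14 (.d k162
  k174 k81 1 12))))) .n))))))))))))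

def t2_95 : T TT 256 :=
  (.q k166 [(.s k4 k247 12 (.s k12 k8 1 (.s k89 k243 14 (.s k93 k81 1 (.d k255 k174 k170 12 14)))))]
  (.c k4 (.q k15 [(.s k5 k10 2 (.s k165 k245 11 (.s k170 k255 14 (.s k160 k175 2 (.d k240 k80 k90 11
  14))))), (.s k170 k255 14 (.s k162 k174 1 (.s k243 k81 12 (.s k167 k91 13 (.s k165 k164 0 (.d k5
  k10 k245 2 11)))))), (.s k170 k255 14 (.s k162 k174 1 (.s k243 k81 12 (.s k167 k91 13 (.s k165
  k164 0 (.s k160 k175 2 (.d k240 k80 k90 11 14))))))), (.s k5 k10 2 (.s k165 k245 11 (.s k167 k164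
  0 (.s k243 k91 13 (.s k81 k162 12 (.d k89 k93 k12 1 14))))))] (.c k165 (.l (.s k10 k5 2 (.s k170
  k255 14 (.s k90 k250 11 (.s k14 k242 13 (.s k12 k13 0 (.s k162 k174 1 (.d k243 k89 k81 14
  12)))))))) .n)) (.c k8 (.l (.s k247 k4 12 (.s k255 k170 14 (.s k243 k251 1 (.s k89 k12 14 (.d k81
  k93 k162 1 12)))))) (.c k12 (.q k20 [(.s k4 k247 12 (.s k150 k215 8 (.s k134 k182 3 (.s k199 k69 8
  (.d k52 k36 k101 3 12))))), (.s k60 k40 5 (.s k150 k215 8 (.s k170 k255 14 (.s k130 k190 5 (.d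
  k195 k65 k105 8 14))))), (.s k4 k247 12 (.s k36 k52 3 (.s k40 k60 5 (.s k44 k32 1 (.s k105 k227 10
  (.d k170 k235 k255 8 14))))))] .n) (.c k81 (.q k5 [(.s k4 k247 12 (.s k165 k245 11 (.s k164 k167 0
  (.s k244 k84 11 (.d k7 k6 k86 0 12))))), (.s k15 k10 2 (.s k165 k245 11 (.s k170 k255 14 (.s k160
  k175 2 (.d k240 k80 k90 11 14))))), (.s k4 k247 12 (.s k6 k7 0 (.s k12 k8 1 (.s k9 k3 2 (.s k13 k1
  1 (.d k15 k14 k10 0 2))))))] (.c k6 (.l (.s k4 k247 12 (.s k12 k8 1 (.s k15 k10 2 (.s k14 k13 0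
  (.s k90 k242 13 (.d k165 k245 k240 11 14))))))) .n)) (.c k89 (.q k5 [(.s k4 k247 12 (.s k165 k245
  11 (.s k164 k167 0 (.s k244 k84 11 (.d k7 k6 k86 0 12))))), (.s k15 k10 2 (.s k165 k245 11 (.s
  k170 k255 14 (.s k160 k175 2 (.d k240 k80 k90 11 14))))), (.s k4 k247 12 (.s k6 k7 0 (.s k12 k8 1
  (.s k9 k3 2 (.s k13 k1 1 (.d k15 k14 k10 0 2))))))] (.c k6 (.l (.s k4 k247 12 (.s k12 k8 1 (.s k15
  k10 2 (.s k14 k13 0 (.s k90 k242 13 (.d k165 k245 k240 11 14))))))) .n)) (.c k93 (.l (.s k4 k247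
  12 (.s k12 k8 1 (.s k170 k255 14 (.s k162 k174 1 (.d k243 k81 k89 12 14)))))) (.c k170 (.q k86
  [(.s k4 k247 12 (.s k6 k246 11 (.s k7 k5 0 (.s k84 k87 0 (.d k244 k164 k165 11 12))))), (.s k84
  k87 0 (.s k246 k6 11 (.s k252 k168 13 (.s k243 k249 2 (.s k81 k162 12 (.d k89 k93 k12 1 14)))))),
  (.s k4 k247 12 (.s k6 k246 11 (.s k5 k7 0 (.s k12 k8 1 (.s k9 k3 2 (.s k13 k1 1 (.d k15 k14 k10 0
  2))))))), (.s k4 k247 12 (.s k12 k8 1 (.s k84 k87 0 (.s k89 k243 14 (.s k252 k168 13 (.d k92 k83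
  k172 2 11))))))] (.c k87 (.l (.s k4 k247 12 (.s k6 k246 11 (.s k12 k8 1 (.s k3 k9 2 (.s k89 k243
  14 (.s k252 k169 14 (.d k92 k83 k172 2 11)))))))) .n)) (.c k174 (.l (.s k247 k4 12 (.s k255 k170
  14 (.s k243 k251 1 (.s k81 k162 12 (.d k89 k93 k12 1 14)))))) (.c k243 (.q k5 [(.s k15 k10 2 (.s
  k165 k245 11 (.s k240 k90 14 (.s k160 k80 11 (.d k170 k175 k255 2 14))))), (.s k4 k247 12 (.s k165
  k245 11 (.s k164 k167 0 (.s k244 k84 11 (.d k7 k6 k86 0 12))))), (.s k4 k247 12 (.s k6 k7 0 (.s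
  k12 k8 1 (.s k9 k3 2 (.s k13 k1 1 (.d k15 k14 k10 0 2))))))] (.c k6 (.l (.s k4 k247 12 (.s k12 k8
  1 (.s k15 k10 2 (.s k14 k13 0 (.s k90 k242 13 (.d k165 k240 k245 14 11))))))) (.c k15 (.l (.s k4
  k247 12 (.s k7 k6 0 (.s k165 k245 11 (.s k244 k86 12 (.d k164 k167 k84 0 11)))))) (.c k255 (.l (.s
  k15 k10 2 (.s k165 k245 11 (.s k164 k167 0 (.s k240 k90 14 (.s k12 k88 13 (.d k4 k8 k247 1
  12))))))) .n)))) (.c k247 (.q k15 [(.s k5 k10 2 (.s k165 k245 11 (.s k240 k90 14 (.s k160 k80 11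
  (.d k170 k175 k255 2 14))))), (.s k170 k255 14 (.s k162 k174 1 (.s k243 k81 12 (.s k167 k91 13 (.s
  k165 k164 0 (.d k5 k10 k245 2 11)))))), (.s k170 k255 14 (.s k162 k174 1 (.s k243 k81 12 (.s k167
  k91 13 (.s k165 k164 0 (.s k160 k175 2 (.d k240 k80 k90 11 14))))))), (.s k5 k10 2 (.s k165 k245
  11 (.s k167 k164 0 (.s k243 k91 13 (.s k81 k162 12 (.d k89 k93 k12 1 14))))))] (.c k165 (.l (.s
  k10 k5 2 (.s k170 k255 14 (.s k90 k250 11 (.s k14 k242 13 (.s k12 k13 0 (.s k8 k4 1 (.d k89 k251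
  k243 12 14)))))))) .n)) (.c k251 (.l (.s k4 k247 12 (.s k12 k8 1 (.s k89 k243 14 (.s k255 k170 14
  (.d k93 k81 k174 1 12)))))) (.c k255 (.q k15 [(.s k4 k247 12 (.s k5 k10 2 (.s k6 k7 0 (.s k12 k8 1
  (.s k13 k14 0 (.d k9 k1 k3 1 2)))))), (.s k5 k10 2 (.s k165 k245 11 (.s k167 k164 0 (.s k243 k91
  13 (.s k81 k162 12 (.d k89 k93 k12 1 14)))))), (.s k4 k247 12 (.s k12 k8 1 (.s k14 k13 0 (.s k90
  k242 13 (.s k165 k240 14 (.s k167 k164 0 (.d k243 k91 k89 13 14)))))))] (.c k12 (.l (.s k4 k247 12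
  (.s k5 k10 2 (.s k165 k245 11 (.s k164 k167 0 (.s k244 k84 11 (.d k7 k6 k86 0 12))))))) (.c k14
  (.l (.s k4 k247 12 (.s k12 k8 1 (.s k243 k89 14 (.s k167 k91 13 (.s k165 k164 0 (.d k5 k10 k245 2
  11))))))) (.c k167 (.l (.s k4 k247 12 (.s k5 k10 2 (.s k12 k8 1 (.s k14 k13 0 (.s k90 k242 13 (.d
  k165 k245 k240 11 14))))))) (.c k243 (.l (.s k5 k10 2 (.s k165 k245 11 (.s k164 k167 0 (.s k240
  k90 14 (.s k12 k88 13 (.d k4 k8 k247 1 12))))))) .n))))) .n)))))))))))))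

def t2_104 : T TT 256 :=
  (.f k170 k255 14 (.q k240 [(.s k80 k160 11 (.s k90 k95 2 (.s k10 k250 11 (.d k15 k5 k165 2 14))))]
  (.c k5 (.q k4 [(.s k12 k8 1 (.s k166 k247 12 (.s k162 k174 1 (.d k243 k81 k89 12 14)))), (.s k12
  k8 1 (.s k160 k80 11 (.s k164 k88 13 (.s k84 k244 11 (.d k168 k172 k252 1 13))))), (.s k80 k160 11
  (.s k90 k95 2 (.s k166 k247 12 (.s k242 k14 13 (.s k243 k241 0 (.d k162 k174 k81 1 12))))))] .n)
  (.c k10 (.f k160 k80 11 (.f k175 k165 2 (.q k162 [(.s k163 k161 0 (.s k166 k174 1 (.s k169 k172 2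
  (.d k171 k168 k167 0 1)))), (.s k166 k174 1 (.s k4 k247 12 (.s k12 k8 1 (.d k243 k81 k89 12
  14)))), (.s k81 k243 12 (.s k161 k163 0 (.s k1 k241 11 (.s k3 k82 12 (.s k169 k253 13 (.s k168
  k171 0 (.d k252 k84 k86 13 14)))))))] (.c k6 (.q k14 [(.s k166 k174 1 (.s k242 k90 13 (.d k243
  k241 k81 0 12))), (.s k81 k243 12 (.s k161 k163 0 (.s k1 k241 11 (.s k3 k82 12 (.s k169 k253 13
  (.s k168 k171 0 (.d k252 k84 k86 13 14))))))), (.s k163 k161 0 (.s k166 k174 1 (.s k169 k172 2 (.d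
  k171 k168 k167 0 1))))] .n) (.c k14 (.q k6 [(.s k163 k161 0 (.s k171 k167 1 (.s k169 k168 0 (.d
  k166 k174 k172 1 2)))), (.s k166 k174 1 (.s k4 k247 12 (.s k12 k8 1 (.d k243 k81 k89 12 14)))),
  (.s k81 k243 12 (.s k161 k163 0 (.s k3 k82 12 (.s k12 k9 2 (.s k8 k4 1 (.d k89 k251 k93 12
  1))))))] .n) .n))))) (.c k15 (.f k80 k160 11 (.q k192 [(.s k64 k128 7 (.s k106 k127 6 (.s k42 k234
  7 (.d k63 k21 k149 6 14)))), (.s k208 k224 3 (.s k16 k144 7 (.s k154 k223 10 (.s k138 k186 3 (.s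
  k207 k69 10 (.d k48 k32 k101 3 14)))))), (.s k208 k224 3 (.s k144 k16 7 (.s k96 k48 11 (.s k64
  k112 3 (.s k106 k127 6 (.s k42 k234 7 (.d k63 k21 k149 6 14)))))))] (.c k95 (.q k175 [(.s k64 k128
  7 (.s k96 k112 3 (.s k208 k224 3 (.d k144 k16 k48 7 11)))), (.s k128 k64 7 (.s k149 k191 6 (.s k21
  k213 7 (.d k63 k42 k106 6 14))))] (.c k64 (.l (.s k208 k224 3 (.s k16 k144 7 (.s k154 k223 10 (.s
  k138 k186 3 (.s k207 k69 10 (.d k48 k32 k101 3 14))))))) (.c k128 (.l (.s k208 k224 3 (.s k144 k16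
  7 (.s k96 k48 11 (.s k64 k112 3 (.s k106 k127 6 (.s k42 k234 7 (.d k63 k21 k149 6 14)))))))) .n)))
  (.c k144 (.l (.s k128 k64 7 (.s k149 k191 6 (.s k21 k213 7 (.d k63 k42 k106 6 14))))) (.c k175 (.l
  (.s k95 k90 2 (.s k64 k128 7 (.s k96 k112 3 (.s k144 k48 11 (.d k208 k224 k16 3 7)))))) .n)))))
  (.c k80 (.q k149 [(.s k21 k213 7 (.s k63 k42 6 (.s k128 k191 6 (.d k192 k64 k106 7 14)))), (.s
  k128 k191 6 (.s k192 k64 7 (.s k208 k224 3 (.s k90 k31 10 (.s k10 k250 11 (.d k15 k5 k165 2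
  14)))))), (.s k21 k213 7 (.s k63 k42 6 (.s k181 k122 10 (.s k165 k133 3 (.s k5 k245 11 (.d k15 k10
  k90 2 14))))))] (.c k63 (.q k101 [(.s k32 k239 10 (.s k48 k16 3 (.s k69 k117 3 (.d k207 k138 k154
  10 14)))), (.s k21 k213 7 (.s k53 k197 11 (.s k5 k37 3 (.s k15 k10 2 (.d k165 k245 k90 11 14)))))]
  (.c k127 (.l (.s k191 k128 6 (.s k32 k239 10 (.s k48 k16 3 (.s k69 k117 3 (.d k207 k138 k154 10
  14)))))) (.c k191 (.q k127 [(.s k117 k69 3 (.s k112 k122 2 (.s k48 k176 7 (.d k32 k16 k239 3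
  10)))), (.s k21 k213 7 (.s k53 k197 11 (.s k5 k37 3 (.s k15 k10 2 (.d k165 k245 k90 11 14)))))]
  .n) .n))) (.c k192 (.q k148 [(.s k150 k151 0 (.s k20 k215 8 (.s k130 k190 5 (.s k195 k65 8 (.d k60
  k40 k105 5 14))))), (.s k128 k191 6 (.s k168 k188 5 (.s k84 k252 13 (.s k86 k87 0 (.d k212 k20 k23
  7 8))))), (.s k128 k191 6 (.s k150 k151 0 (.s k130 k190 5 (.s k131 k129 0 (.d k188 k168 k169 5
  6))))), (.s k128 k191 6 (.s k150 k151 0 (.s k20 k215 8 (.s k84 k212 7 (.d k168 k252 k188 13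
  5)))))] (.c k213 (.q k234 [(.s k150 k151 0 (.s k20 k215 8 (.s k130 k190 5 (.s k195 k65 8 (.d k60
  k40 k105 5 14))))), (.s k128 k191 6 (.s k150 k151 0 (.s k130 k190 5 (.s k131 k129 0 (.d k188 k168
  k169 5 6))))), (.s k128 k191 6 (.s k168 k188 5 (.s k84 k252 13 (.s k86 k87 0 (.d k212 k20 k23 7
  8))))), (.s k42 k106 7 (.s k21 k63 6 (.s k150 k151 0 (.s k20 k215 8 (.s k23 k22 0 (.d k212 k84 k86
  7 8))))))] .n) (.c k234 (.l (.s k213 k21 7 (.s k128 k191 6 (.s k150 k151 0 (.s k20 k215 8 (.s k84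
  k212 7 (.d k168 k252 k188 13 5))))))) .n))) .n))) (.c k90 (.q k4 [(.s k12 k8 1 (.s k166 k247 12
  (.s k162 k174 1 (.d k243 k81 k89 12 14)))), (.s k12 k8 1 (.s k160 k80 11 (.s k164 k88 13 (.s k84
  k244 11 (.d k168 k172 k252 1 13))))), (.s k160 k80 11 (.s k165 k175 2 (.s k166 k247 12 (.s k164
  k167 0 (.s k84 k244 11 (.d k168 k172 k252 1 13))))))] .n) (.c k95 (.l (.s k160 k80 11 (.s k165
  k175 2 (.s k15 k90 14 (.d k5 k10 k245 2 11))))) (.c k160 (.q k153 [(.s k17 k221 9 (.s k136 k187 4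
  (.s k204 k68 9 (.d k51 k34 k102 4 14)))), (.s k136 k187 4 (.s k204 k68 9 (.s k216 k228 5 (.s k90
  k27 8 (.s k10 k250 11 (.d k15 k5 k165 2 14)))))), (.s k17 k221 9 (.s k51 k34 4 (.s k177 k114 8 (.s
  k165 k141 5 (.s k5 k245 11 (.d k15 k10 k90 2 14))))))] (.c k51 (.f k187 k136 4 (.q k4 [(.s k166
  k247 12 (.s k162 k174 1 (.s k243 k81 12 (.d k12 k8 k89 1 14)))), (.s k166 k247 12 (.s k179 k140 6
  (.s k191 k183 1 (.s k128 k149 6 (.d k162 k174 k145 1 4))))), (.s k8 k12 1 (.s k251 k89 12 (.s k59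
  k123 7 (.s k106 k200 12 (.d k42 k25 k234 4 7)))))] (.c k166 (.l (.s k8 k12 1 (.s k17 k221 9 (.s
  k89 k251 12 (.s k25 k217 7 (.s k21 k29 1 (.d k42 k63 k59 6 4))))))) (.c k174 (.l (.s k12 k8 1 (.s
  k164 k88 13 (.s k166 k247 12 (.s k165 k167 0 (.s k5 k245 11 (.d k15 k10 k90 2 14))))))) (.c k243
  (.l (.s k8 k12 1 (.s k166 k247 12 (.s k251 k89 12 (.s k59 k123 7 (.s k106 k200 12 (.d k42 k25 k234
  4 7))))))) (.c k251 (.l (.s k12 k8 1 (.s k166 k247 12 (.s k243 k89 14 (.d k162 k174 k81 1 12)))))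
  .n)))))) (.c k204 (.q k69 [(.s k101 k117 3 (.s k32 k239 10 (.s k48 k16 3 (.d k207 k138 k154 10
  14)))), (.s k101 k117 3 (.s k205 k49 13 (.s k1 k137 9 (.s k221 k17 9 (.d k253 k237 k169 3 13))))),
  (.s k136 k187 4 (.s k138 k207 10 (.s k137 k139 0 (.s k169 k185 3 (.d k1 k205 k253 9 13)))))] (.c
  k186 (.l (.s k207 k138 10 (.s k101 k117 3 (.s k48 k154 14 (.d k32 k16 k239 3 10))))) (.c k221 (.q
  k238 [(.s k101 k117 3 (.s k32 k239 10 (.s k48 k16 3 (.d k207 k138 k154 10 14)))), (.s k34 k102 9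
  (.s k51 k17 4 (.s k177 k114 8 (.s k165 k141 5 (.s k5 k245 11 (.d k15 k90 k10 14 2))))))] .n) (.c
  k238 (.l (.s k221 k17 9 (.s k101 k117 3 (.s k32 k239 10 (.s k48 k16 3 (.d k207 k138 k154 10
  14)))))) .n)))) .n))) (.c k165 (.q k4 [(.s k12 k8 1 (.s k166 k247 12 (.s k162 k174 1 (.d k243 k81
  k89 12 14)))), (.s k12 k8 1 (.s k160 k80 11 (.s k164 k88 13 (.s k84 k244 11 (.d k168 k172 k252 1
  13))))), (.s k80 k160 11 (.s k90 k95 2 (.s k166 k247 12 (.s k242 k14 13 (.s k243 k241 0 (.d k162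
  k174 k81 1 12))))))] .n) (.c k175 (.l (.s k80 k160 11 (.s k90 k95 2 (.s k15 k165 14 (.d k10 k5
  k250 2 11))))) (.c k250 (.l (.s k160 k80 11 (.s k165 k175 2 (.s k5 k245 11 (.d k15 k10 k90 2
  14))))) .n))))))))))))

def t2_105 : T TT 256 :=
  (.f k170 k255 14 (.q k12 [(.s k4 k8 1 (.s k166 k247 12 (.s k162 k174 1 (.d k243 k81 k89 12 14))))]
  (.c k4 (.q k64 [(.s k106 k127 6 (.s k42 k234 7 (.s k192 k128 7 (.d k63 k21 k149 6 14)))), (.s k192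
  k128 7 (.s k72 k132 9 (.s k68 k76 1 (.s k102 k119 4 (.s k34 k238 9 (.s k51 k17 4 (.d k204 k136
  k153 9 14)))))))] (.c k128 (.l (.s k106 k127 6 (.s k42 k234 7 (.s k63 k21 6 (.s k46 k29 4 (.s k166
  k226 9 (.s k162 k174 1 (.d k243 k81 k89 12 14)))))))) (.c k192 (.f k106 k127 6 (.q k63 [(.d k42
  k234 k21 7 6), (.s k46 k29 4 (.s k166 k226 9 (.s k162 k174 1 (.d k243 k81 k89 12 14))))] (.c k213
  (.l (.s k234 k42 7 (.s k46 k29 4 (.s k166 k226 9 (.s k162 k174 1 (.d k243 k81 k89 12 14)))))) (.c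
  k234 (.q k213 [(.d k21 k42 k149 6 7), (.s k46 k29 4 (.s k166 k226 9 (.s k162 k174 1 (.d k243 k81
  k89 12 14))))] .n) .n)))) .n))) (.c k8 (.q k128 [(.s k149 k191 6 (.s k21 k213 7 (.s k192 k64 7 (.d
  k63 k42 k106 6 14)))), (.s k192 k64 7 (.s k132 k72 9 (.s k136 k140 1 (.s k153 k187 4 (.s k17 k221
  9 (.s k51 k34 4 (.d k204 k68 k102 9 14)))))))] (.c k64 (.l (.s k149 k191 6 (.s k21 k213 7 (.s k63
  k42 6 (.s k29 k46 4 (.s k89 k209 9 (.s k81 k93 1 (.d k243 k162 k166 12 14)))))))) (.c k192 (.f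
  k149 k191 6 (.q k63 [(.d k21 k213 k42 7 6), (.s k29 k46 4 (.s k89 k209 9 (.s k81 k93 1 (.d k243
  k162 k166 12 14))))] (.c k213 (.q k234 [(.d k42 k21 k106 6 7), (.s k29 k46 4 (.s k89 k209 9 (.s
  k81 k93 1 (.d k243 k162 k166 12 14))))] .n) (.c k234 (.l (.s k213 k21 7 (.s k29 k46 4 (.s k89 k209
  9 (.s k81 k93 1 (.d k243 k162 k166 12 14)))))) .n)))) .n))) (.c k81 (.q k5 [(.s k15 k10 2 (.s k165
  k245 11 (.s k160 k175 2 (.d k240 k80 k90 11 14)))), (.s k4 k8 1 (.s k6 k7 0 (.s k9 k3 2 (.s k13 k1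
  1 (.d k15 k14 k10 0 2))))), (.s k4 k8 1 (.s k165 k245 11 (.s k160 k175 2 (.s k166 k247 12 (.s k164
  k167 0 (.d k240 k80 k88 11 13))))))] (.c k15 (.l (.s k4 k8 1 (.s k7 k6 0 (.s k165 k245 11 (.s k86
  k244 12 (.s k87 k84 0 (.d k247 k167 k166 11 12))))))) .n)) (.c k89 (.q k73 [(.s k4 k8 1 (.s k134
  k195 10 (.s k69 k199 8 (.s k77 k65 1 (.d k207 k142 k138 8 10))))), (.s k8 k4 1 (.s k138 k203 8 (.s
  k154 k186 3 (.s k16 k223 10 (.s k48 k32 3 (.d k207 k69 k101 10 14)))))), (.s k195 k134 10 (.s k65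
  k130 8 (.s k69 k77 1 (.s k101 k117 3 (.s k32 k239 10 (.s k48 k16 3 (.d k207 k138 k154 10
  14))))))), (.s k4 k8 1 (.s k134 k195 10 (.s k166 k247 12 (.s k150 k182 3 (.s k199 k69 8 (.s k52
  k101 12 (.d k20 k215 k36 8 3)))))))] (.c k69 (.q k3 [(.s k6 k9 2 (.s k134 k195 10 (.s k70 k198 7
  (.s k76 k67 2 (.d k204 k140 k137 7 10))))), (.s k4 k8 1 (.s k6 k9 2 (.s k166 k247 12 (.s k86 k246
  11 (.s k84 k87 0 (.d k252 k169 k168 14 13)))))), (.s k195 k134 10 (.s k130 k65 8 (.s k131 k67 7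
  (.s k150 k190 5 (.s k169 k188 6 (.s k168 k171 0 (.d k252 k86 k84 14 13))))))), (.s k9 k6 2 (.s
  k137 k201 7 (.s k70 k204 10 (.s k67 k76 2 (.d k195 k131 k134 7 10)))))] .n) .n)) (.c k162 (.f k4
  k8 1 (.q k136 [(.s k153 k187 4 (.s k17 k221 9 (.s k204 k68 9 (.d k51 k34 k102 4 14)))), (.s k68
  k204 9 (.s k132 k196 7 (.s k128 k140 1 (.d k192 k64 k72 7 9)))), (.s k153 k187 4 (.s k166 k247 12
  (.s k179 k140 6 (.s k243 k89 14 (.s k51 k115 7 (.d k17 k34 k221 4 9))))))] (.c k82 (.q k242 [(.s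
  k153 k187 4 (.s k17 k221 9 (.s k204 k68 9 (.d k51 k34 k102 4 14)))), (.s k166 k247 12 (.s k90 k14
  13 (.s k80 k95 2 (.s k240 k160 11 (.d k243 k241 k89 0 14)))))] .n) (.c k221 (.l (.s k153 k187 4
  (.s k166 k247 12 (.s k140 k179 6 (.d k204 k76 k68 7 9))))) (.c k242 (.q k82 [(.s k153 k187 4 (.s
  k17 k221 9 (.s k204 k68 9 (.d k51 k34 k102 4 14)))), (.s k68 k204 9 (.s k132 k196 7 (.s k128 k140
  1 (.d k192 k64 k72 7 9)))), (.s k153 k187 4 (.s k166 k247 12 (.s k179 k140 6 (.s k243 k89 14 (.s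
  k51 k115 7 (.d k17 k34 k221 4 9))))))] (.c k221 (.l (.s k153 k187 4 (.s k166 k247 12 (.s k140 k179
  6 (.d k204 k76 k68 7 9))))) .n)) .n))))) (.c k166 (.f k4 k8 1 (.q k68 [(.s k102 k119 4 (.s k34
  k238 9 (.s k51 k17 4 (.d k204 k136 k153 9 14)))), (.s k132 k196 7 (.s k192 k72 9 (.s k64 k128 7
  (.s k106 k127 6 (.s k42 k234 7 (.d k63 k21 k149 6 14))))))] (.c k44 (.q k227 [(.s k102 k119 4 (.s
  k34 k238 9 (.s k51 k17 4 (.d k204 k136 k153 9 14)))), (.s k132 k196 7 (.s k192 k72 9 (.s k64 k128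
  7 (.s k106 k127 6 (.s k42 k234 7 (.d k63 k21 k149 6 14))))))] (.c k136 (.l (.s k102 k119 4 (.s k34
  k238 9 (.s k51 k17 4 (.s k38 k25 6 (.s k21 k55 4 (.d k42 k46 k63 1 6))))))) .n)) (.c k136 (.l (.s
  k102 k119 4 (.s k34 k238 9 (.s k51 k17 4 (.s k38 k25 6 (.s k21 k55 4 (.d k42 k46 k63 1 6)))))))
  (.c k227 (.q k44 [(.s k102 k119 4 (.s k34 k238 9 (.s k51 k17 4 (.d k204 k136 k153 9 14)))), (.s
  k132 k196 7 (.s k192 k72 9 (.s k64 k128 7 (.s k106 k127 6 (.s k42 k234 7 (.d k63 k21 k149 6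
  14))))))] (.c k136 (.l (.s k102 k119 4 (.s k34 k238 9 (.s k51 k17 4 (.s k38 k25 6 (.s k21 k55 4
  (.d k42 k46 k63 1 6))))))) .n)) .n))))) (.c k174 (.l (.s k8 k4 1 (.s k89 k251 12 (.s k81 k93 1 (.d
  k243 k162 k166 12 14))))) (.c k243 (.f k4 k8 1 (.q k48 [(.s k16 k32 3 (.s k154 k223 10 (.s k138
  k186 3 (.d k207 k69 k101 10 14)))), (.s k36 k24 5 (.s k20 k52 3 (.s k150 k215 8 (.s k130 k190 5
  (.s k195 k65 8 (.s k134 k73 10 (.d k166 k247 k182 12 3))))))), (.s k36 k24 5 (.s k20 k52 3 (.s k40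
  k60 5 (.s k32 k44 1 (.s k101 k239 10 (.d k166 k247 k231 12 8))))))] (.c k247 (.q k251 [(.s k16 k32
  3 (.s k154 k223 10 (.s k138 k186 3 (.d k207 k69 k101 10 14)))), (.s k32 k16 3 (.s k36 k24 5 (.s
  k20 k52 3 (.d k40 k44 k60 1 5))))] (.c k16 (.l (.s k36 k24 5 (.s k20 k52 3 (.s k40 k60 5 (.s k32
  k44 1 (.s k101 k239 10 (.s k207 k154 14 (.d k69 k117 k138 3 10)))))))) (.c k32 (.q k5 [(.s k6 k7 0
  (.s k15 k10 2 (.s k13 k14 0 (.d k9 k1 k3 1 2)))), (.s k165 k245 11 (.s k160 k175 2 (.s k240 k80 11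
  (.s k164 k88 13 (.s k168 k172 1 (.d k84 k244 k252 11 13))))))] (.c k15 (.l (.s k7 k6 0 (.s k36 k24
  5 (.s k52 k20 3 (.s k37 k22 4 (.s k21 k53 3 (.d k38 k39 k55 0 4))))))) .n)) .n))) (.c k251 (.l (.s
  k247 k166 12 (.s k16 k32 3 (.s k154 k223 10 (.s k138 k186 3 (.d k207 k69 k101 10 14)))))) .n))))
  (.c k247 (.l (.s k8 k4 1 (.s k89 k251 12 (.s k243 k166 14 (.d k81 k93 k162 1 12))))) (.c k251 (.l
  (.s k4 k8 1 (.s k166 k247 12 (.s k243 k89 14 (.d k162 k174 k81 1 12))))) .n))))))))))))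

def t2_106 : T TT 256 :=
  (.f k170 k255 14 (.q k12 [(.s k4 k8 1 (.s k166 k247 12 (.s k162 k174 1 (.d k243 k81 k89 12 14))))]
  (.c k4 (.q k32 [(.s k48 k16 3 (.s k101 k239 10 (.s k69 k117 3 (.d k207 k138 k154 10 14)))), (.s
  k48 k16 3 (.s k36 k24 5 (.s k40 k44 1 (.s k105 k235 8 (.s k65 k125 5 (.s k195 k130 8 (.d k60 k20
  k150 5 14)))))))] (.c k16 (.l (.s k101 k239 10 (.s k69 k117 3 (.s k207 k138 10 (.s k77 k142 8 (.s
  k89 k113 5 (.s k81 k93 1 (.d k243 k162 k166 12 14)))))))) (.c k48 (.f k101 k239 10 (.q k207 [(.d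
  k69 k117 k138 3 10), (.s k77 k142 8 (.s k89 k113 5 (.s k81 k93 1 (.d k243 k162 k166 12 14))))] (.c
  k117 (.q k186 [(.d k138 k154 k69 3 10), (.s k77 k142 8 (.s k89 k113 5 (.s k81 k93 1 (.d k243 k162
  k166 12 14))))] .n) (.c k186 (.l (.s k117 k69 3 (.s k77 k142 8 (.s k89 k113 5 (.s k81 k93 1 (.d
  k243 k162 k166 12 14)))))) .n)))) .n))) (.c k8 (.q k16 [(.s k48 k32 3 (.s k154 k223 10 (.s k138
  k186 3 (.d k207 k69 k101 10 14)))), (.s k48 k32 3 (.s k24 k36 5 (.s k20 k28 1 (.s k150 k215 8 (.s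
  k130 k190 5 (.s k195 k65 8 (.d k60 k40 k105 5 14)))))))] (.c k32 (.l (.s k154 k223 10 (.s k138
  k186 3 (.s k207 k69 10 (.s k142 k77 8 (.s k166 k178 5 (.s k162 k174 1 (.d k243 k81 k89 12
  14)))))))) (.c k48 (.f k154 k223 10 (.q k207 [(.d k138 k186 k69 3 10), (.s k142 k77 8 (.s k166
  k178 5 (.s k162 k174 1 (.d k243 k81 k89 12 14))))] (.c k117 (.l (.s k186 k138 3 (.s k142 k77 8 (.s
  k166 k178 5 (.s k162 k174 1 (.d k243 k81 k89 12 14)))))) (.c k186 (.q k117 [(.d k69 k101 k138 3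
  10), (.s k142 k77 8 (.s k166 k178 5 (.s k162 k174 1 (.d k243 k81 k89 12 14))))] .n) .n)))) .n)))
  (.c k81 (.q k5 [(.s k15 k10 2 (.s k165 k245 11 (.s k160 k175 2 (.d k240 k80 k90 11 14)))), (.s k4
  k8 1 (.s k6 k7 0 (.s k9 k3 2 (.s k13 k1 1 (.d k15 k14 k10 0 2))))), (.s k4 k8 1 (.s k165 k245 11
  (.s k160 k175 2 (.s k166 k247 12 (.s k164 k167 0 (.d k240 k80 k88 11 13))))))] (.c k15 (.l (.s k4
  k8 1 (.s k7 k6 0 (.s k165 k245 11 (.s k86 k244 12 (.s k87 k84 0 (.d k247 k167 k166 11 12)))))))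
  .n)) (.c k89 (.q k72 [(.s k4 k8 1 (.s k132 k192 9 (.s k68 k196 7 (.s k76 k64 1 (.d k204 k140 k136
  7 9))))), (.s k8 k4 1 (.s k136 k200 7 (.s k153 k187 4 (.s k17 k221 9 (.s k51 k34 4 (.d k204 k68
  k102 9 14)))))), (.s k192 k132 9 (.s k64 k128 7 (.s k68 k76 1 (.s k102 k119 4 (.s k34 k238 9 (.s
  k51 k17 4 (.d k204 k136 k153 9 14))))))), (.s k4 k8 1 (.s k132 k192 9 (.s k166 k247 12 (.s k149
  k183 4 (.s k196 k68 7 (.s k55 k102 12 (.d k21 k213 k38 7 4)))))))] (.c k68 (.f k4 k8 1 (.l (.s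
  k132 k192 9 (.s k166 k247 12 (.s k149 k183 4 (.s k128 k191 6 (.s k140 k136 1 (.s k162 k174 1 (.d
  k179 k145 k153 4 6))))))))) .n)) (.c k162 (.f k4 k8 1 (.q k149 [(.s k128 k191 6 (.s k166 k247 12
  (.s k192 k64 7 (.d k132 k183 k72 4 9)))), (.s k21 k213 7 (.s k38 k55 4 (.s k25 k51 6 (.s k29 k17 1
  (.d k63 k46 k42 4 6)))))] (.c k63 (.l (.s k166 k247 12 (.s k132 k183 4 (.s k192 k72 9 (.d k128
  k191 k64 6 7))))) (.c k82 (.q k242 [(.s k128 k191 6 (.s k166 k247 12 (.s k192 k64 7 (.d k132 k183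
  k72 4 9)))), (.s k21 k213 7 (.s k38 k55 4 (.s k25 k51 6 (.s k29 k17 1 (.d k63 k46 k42 4 6)))))]
  (.c k63 (.l (.s k166 k247 12 (.s k132 k183 4 (.s k192 k72 9 (.d k128 k191 k64 6 7))))) (.c k192
  (.l (.s k128 k191 6 (.s k166 k247 12 (.s k132 k183 4 (.s k68 k196 7 (.d k136 k204 k140 9 1))))))
  .n))) (.c k192 (.l (.s k128 k191 6 (.s k166 k247 12 (.s k132 k183 4 (.s k68 k196 7 (.d k136 k204
  k140 9 1)))))) (.c k242 (.q k82 [(.s k128 k191 6 (.s k166 k247 12 (.s k192 k64 7 (.d k132 k183 k72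
  4 9)))), (.s k21 k213 7 (.s k38 k55 4 (.s k25 k51 6 (.s k29 k17 1 (.d k63 k46 k42 4 6)))))] (.c
  k63 (.l (.s k166 k247 12 (.s k132 k183 4 (.s k192 k72 9 (.d k128 k191 k64 6 7))))) (.c k192 (.l
  (.s k128 k191 6 (.s k166 k247 12 (.s k132 k183 4 (.s k68 k196 7 (.d k136 k204 k140 9 1)))))) .n)))
  .n)))))) (.c k166 (.f k4 k8 1 (.q k69 [(.s k101 k117 3 (.s k32 k239 10 (.s k48 k16 3 (.d k207 k138
  k154 10 14)))), (.s k134 k199 8 (.s k195 k73 10 (.s k65 k130 8 (.s k105 k125 5 (.s k40 k235 8 (.d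
  k60 k20 k150 5 14))))))] (.c k46 (.q k226 [(.s k101 k117 3 (.s k32 k239 10 (.s k48 k16 3 (.d k207
  k138 k154 10 14)))), (.s k134 k199 8 (.s k195 k73 10 (.s k65 k130 8 (.s k105 k125 5 (.s k40 k235 8
  (.d k60 k20 k150 5 14))))))] (.c k138 (.l (.s k101 k117 3 (.s k32 k239 10 (.s k48 k16 3 (.s k36
  k24 5 (.s k20 k52 3 (.d k40 k44 k60 1 5))))))) .n)) (.c k138 (.l (.s k101 k117 3 (.s k32 k239 10
  (.s k48 k16 3 (.s k36 k24 5 (.s k20 k52 3 (.d k40 k44 k60 1 5))))))) (.c k226 (.q k46 [(.s k101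
  k117 3 (.s k32 k239 10 (.s k48 k16 3 (.d k207 k138 k154 10 14)))), (.s k134 k199 8 (.s k195 k73 10
  (.s k65 k130 8 (.s k105 k125 5 (.s k40 k235 8 (.d k60 k20 k150 5 14))))))] (.c k138 (.l (.s k101
  k117 3 (.s k32 k239 10 (.s k48 k16 3 (.s k36 k24 5 (.s k20 k52 3 (.d k40 k44 k60 1 5))))))) .n))
  .n))))) (.c k174 (.l (.s k8 k4 1 (.s k89 k251 12 (.s k81 k93 1 (.d k243 k162 k166 12 14))))) (.c
  k243 (.f k4 k8 1 (.q k48 [(.s k16 k32 3 (.s k154 k223 10 (.s k138 k186 3 (.d k207 k69 k101 10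
  14)))), (.s k36 k24 5 (.s k20 k52 3 (.s k150 k215 8 (.s k130 k190 5 (.s k195 k65 8 (.d k60 k40
  k105 5 14))))))] (.c k247 (.q k251 [(.s k16 k32 3 (.s k154 k223 10 (.s k138 k186 3 (.d k207 k69
  k101 10 14)))), (.s k36 k24 5 (.s k20 k52 3 (.s k150 k215 8 (.s k130 k190 5 (.s k195 k65 8 (.d k60
  k40 k105 5 14))))))] .n) (.c k251 (.l (.s k247 k166 12 (.s k16 k32 3 (.s k154 k223 10 (.s k138
  k186 3 (.d k207 k69 k101 10 14)))))) .n)))) (.c k247 (.l (.s k8 k4 1 (.s k89 k251 12 (.s k243 k166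
  14 (.d k81 k93 k162 1 12))))) (.c k251 (.l (.s k4 k8 1 (.s k166 k247 12 (.s k243 k89 14 (.d k162
  k174 k81 1 12))))) .n))))))))))))

def t2_107 : T TT 256 :=
  (.f k170 k255 14 (.q k240 [(.s k80 k160 11 (.s k90 k95 2 (.s k10 k250 11 (.d k15 k5 k165 2 14))))]
  (.c k5 (.q k4 [(.s k12 k8 1 (.s k166 k247 12 (.s k162 k174 1 (.d k243 k81 k89 12 14)))), (.s k12
  k8 1 (.s k160 k80 11 (.s k164 k88 13 (.s k84 k244 11 (.d k168 k172 k252 1 13))))), (.s k80 k160 11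
  (.s k90 k95 2 (.s k166 k247 12 (.s k242 k14 13 (.s k243 k241 0 (.d k162 k174 k81 1 12))))))] .n)
  (.c k10 (.f k160 k80 11 (.f k175 k165 2 (.q k162 [(.s k163 k161 0 (.s k166 k174 1 (.s k169 k172 2
  (.d k171 k168 k167 0 1)))), (.s k166 k174 1 (.s k4 k247 12 (.s k12 k8 1 (.d k243 k81 k89 12
  14)))), (.s k81 k243 12 (.s k161 k163 0 (.s k1 k241 11 (.s k3 k82 12 (.s k169 k253 13 (.s k168
  k171 0 (.d k252 k84 k86 13 14)))))))] (.c k6 (.q k14 [(.s k166 k174 1 (.s k242 k90 13 (.d k243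
  k241 k81 0 12))), (.s k81 k243 12 (.s k161 k163 0 (.s k1 k241 11 (.s k3 k82 12 (.s k169 k253 13
  (.s k168 k171 0 (.d k252 k84 k86 13 14))))))), (.s k163 k161 0 (.s k166 k174 1 (.s k169 k172 2 (.d
  k171 k168 k167 0 1))))] .n) (.c k14 (.q k6 [(.s k163 k161 0 (.s k171 k167 1 (.s k169 k168 0 (.d
  k166 k174 k172 1 2)))), (.s k166 k174 1 (.s k4 k247 12 (.s k12 k8 1 (.d k243 k81 k89 12 14)))),
  (.s k81 k243 12 (.s k161 k163 0 (.s k3 k82 12 (.s k12 k9 2 (.s k8 k4 1 (.d k89 k251 k93 12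
  1))))))] .n) .n))))) (.c k15 (.f k80 k160 11 (.q k192 [(.s k64 k128 7 (.s k96 k112 3 (.s k208 k224
  3 (.d k144 k16 k48 7 11)))), (.s k128 k64 7 (.s k149 k191 6 (.s k21 k213 7 (.d k63 k42 k106 6
  14))))] (.c k64 (.l (.s k208 k224 3 (.s k16 k144 7 (.s k154 k223 10 (.s k138 k186 3 (.s k207 k69
  10 (.d k48 k32 k101 3 14))))))) (.c k95 (.q k175 [(.s k64 k128 7 (.s k96 k112 3 (.s k208 k224 3
  (.d k144 k16 k48 7 11)))), (.s k128 k64 7 (.s k149 k191 6 (.s k21 k213 7 (.d k63 k42 k106 6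
  14))))] (.c k64 (.l (.s k208 k224 3 (.s k16 k144 7 (.s k154 k223 10 (.s k138 k186 3 (.s k207 k69
  10 (.d k48 k32 k101 3 14))))))) (.c k128 (.l (.s k208 k224 3 (.s k144 k16 7 (.s k96 k48 11 (.s k64
  k112 3 (.s k106 k127 6 (.s k42 k234 7 (.d k63 k21 k149 6 14)))))))) .n))) (.c k128 (.l (.s k208
  k224 3 (.s k144 k16 7 (.s k96 k48 11 (.s k64 k112 3 (.s k106 k127 6 (.s k42 k234 7 (.d k63 k21
  k149 6 14)))))))) (.c k175 (.l (.s k95 k90 2 (.s k64 k128 7 (.s k96 k112 3 (.s k144 k48 11 (.d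
  k208 k224 k16 3 7)))))) .n)))))) (.c k80 (.q k252 [(.s k84 k168 13 (.s k86 k87 0 (.s k3 k169 14
  (.s k82 k161 12 (.s k90 k94 1 (.s k10 k250 11 (.d k15 k165 k5 14 2))))))), (.s k84 k168 13 (.s
  k244 k248 1 (.s k4 k164 11 (.s k166 k247 12 (.s k162 k174 1 (.s k243 k81 12 (.d k12 k8 k89 1
  14)))))))] (.c k82 (.l (.s k84 k168 13 (.s k86 k87 0 (.s k244 k248 1 (.s k165 k7 12 (.s k5 k245 11
  (.d k15 k10 k90 2 14))))))) (.c k84 (.q k162 [(.s k166 k174 1 (.s k4 k247 12 (.s k12 k8 1 (.d k243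
  k81 k89 12 14)))), (.s k166 k174 1 (.s k243 k81 12 (.s k242 k241 0 (.s k90 k14 13 (.s k10 k250 11
  (.d k15 k5 k165 2 14)))))), (.s k243 k81 12 (.s k248 k244 1 (.s k249 k246 2 (.s k251 k250 0 (.s k8
  k89 12 (.s k88 k168 11 (.d k12 k4 k164 1 13))))))), (.s k166 k174 1 (.s k244 k248 1 (.s k247 k4 12
  (.s k245 k246 0 (.s k165 k5 11 (.s k7 k86 12 (.d k167 k164 k87 0 11)))))))] (.c k12 (.l (.s k243
  k81 12 (.s k244 k248 1 (.s k246 k249 2 (.s k247 k245 0 (.d k166 k174 k4 1 12)))))) (.c k88 (.q k92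
  [(.s k12 k172 11 (.s k4 k8 1 (.d k166 k174 k247 1 12))), (.s k12 k172 11 (.s k166 k174 1 (.d k243
  k81 k89 12 14))), (.s k243 k81 12 (.s k244 k248 1 (.s k246 k249 2 (.s k247 k245 0 (.d k166 k174 k4
  1 12))))), (.s k12 k172 11 (.s k8 k4 1 (.s k81 k243 12 (.d k89 k251 k93 12 1))))] .n) (.c k92 (.q
  k88 [(.s k248 k244 1 (.s k8 k168 11 (.d k12 k4 k164 1 13))), (.s k166 k174 1 (.s k243 k81 12 (.d
  k12 k164 k89 13 14)))] (.c k12 (.l (.s k81 k243 12 (.s k248 k244 1 (.s k8 k168 11 (.d k89 k251 k93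
  12 1))))) (.c k164 (.l (.s k166 k174 1 (.s k4 k247 12 (.s k12 k8 1 (.d k243 k81 k89 12 14)))))
  .n))) .n)))) (.c k168 (.q k4 [(.s k244 k248 1 (.s k164 k84 11 (.d k12 k8 k88 1 13))), (.s k166
  k247 12 (.s k162 k174 1 (.s k243 k81 12 (.s k242 k241 0 (.s k90 k14 13 (.s k10 k250 11 (.d k15 k5
  k165 2 14)))))))] (.c k12 (.l (.s k166 k247 12 (.s k244 k248 1 (.s k84 k164 11 (.s k86 k87 0 (.s
  k6 k246 11 (.d k7 k5 k165 0 12))))))) .n)) .n)))) (.c k90 (.q k4 [(.s k12 k8 1 (.s k166 k247 12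
  (.s k162 k174 1 (.d k243 k81 k89 12 14)))), (.s k12 k8 1 (.s k160 k80 11 (.s k164 k88 13 (.s k84
  k244 11 (.d k168 k172 k252 1 13))))), (.s k160 k80 11 (.s k165 k175 2 (.s k166 k247 12 (.s k164
  k167 0 (.s k84 k244 11 (.d k168 k172 k252 1 13))))))] .n) (.c k95 (.l (.s k160 k80 11 (.s k165
  k175 2 (.s k15 k90 14 (.d k5 k10 k245 2 11))))) (.c k160 (.q k168 [(.s k169 k171 0 (.s k252 k84 13
  (.s k248 k244 1 (.s k90 k11 12 (.s k10 k250 11 (.d k15 k5 k165 2 14)))))), (.s k252 k84 13 (.s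
  k248 k244 1 (.s k8 k88 11 (.s k89 k251 12 (.s k81 k93 1 (.s k243 k162 12 (.d k12 k4 k166 1
  14))))))), (.s k169 k171 0 (.s k252 k84 13 (.s k3 k86 14 (.s k161 k82 12 (.s k165 k173 1 (.s k5
  k245 11 (.d k15 k90 k10 14 2)))))))] (.c k84 (.q k5 [(.s k165 k245 11 (.d k15 k10 k90 2 14)), (.s
  k165 k245 11 (.s k169 k171 0 (.s k1 k253 13 (.s k13 k9 1 (.s k161 k173 1 (.d k241 k81 k89 11
  13)))))), (.s k10 k15 2 (.s k169 k171 0 (.s k1 k253 13 (.s k9 k13 1 (.s k8 k11 0 (.d k89 k251 k249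
  12 11))))))] .n) (.c k252 (.q k101 [(.s k32 k239 10 (.s k48 k16 3 (.s k69 k117 3 (.d k207 k138
  k154 10 14)))), (.s k117 k69 3 (.s k169 k171 0 (.s k237 k33 9 (.s k253 k1 13 (.s k49 k185 9 (.d
  k205 k221 k153 3 13)))))), (.s k32 k239 10 (.s k169 k171 0 (.s k33 k237 9 (.s k35 k34 0 (.d k236
  k100 k102 9 10)))))] (.c k253 (.q k254 [(.s k32 k239 10 (.s k48 k16 3 (.s k207 k154 14 (.d k69
  k117 k138 3 10)))), (.s k32 k239 10 (.s k169 k171 0 (.s k33 k237 9 (.s k35 k34 0 (.d k236 k100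
  k102 9 10))))), (.s k69 k117 3 (.s k207 k138 10 (.s k229 k218 6 (.s k165 k37 7 (.s k5 k245 11 (.d
  k15 k10 k90 2 14))))))] (.c k207 (.f k117 k69 3 (.l (.s k171 k169 0 (.s k239 k32 10 (.s k103 k35 9
  (.s k102 k100 0 (.s k119 k68 4 (.s k71 k87 3 (.d k116 k86 k118 4 0))))))))) .n)) (.c k254 (.q k253
  [(.d k169 k171 k1 0 13), (.s k32 k239 10 (.s k48 k16 3 (.s k69 k117 3 (.d k207 k138 k154 10
  14))))] .n) .n))) .n))) (.c k165 (.q k4 [(.s k12 k8 1 (.s k166 k247 12 (.s k162 k174 1 (.d k243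
  k81 k89 12 14)))), (.s k12 k8 1 (.s k160 k80 11 (.s k164 k88 13 (.s k84 k244 11 (.d k168 k172 k252
  1 13))))), (.s k80 k160 11 (.s k90 k95 2 (.s k166 k247 12 (.s k242 k14 13 (.s k243 k241 0 (.d k162
  k174 k81 1 12))))))] .n) (.c k175 (.l (.s k80 k160 11 (.s k90 k95 2 (.s k15 k165 14 (.d k10 k5
  k250 2 11))))) (.c k250 (.l (.s k160 k80 11 (.s k165 k175 2 (.s k5 k245 11 (.d k15 k10 k90 2
  14))))) .n))))))))))))

def t2_108 : T TT 256 :=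
  (.f k170 k255 14 (.q k240 [(.s k80 k160 11 (.s k90 k95 2 (.s k10 k250 11 (.d k15 k5 k165 2 14))))]
  (.c k5 (.q k4 [(.s k12 k8 1 (.s k166 k247 12 (.s k162 k174 1 (.d k243 k81 k89 12 14)))), (.s k12
  k8 1 (.s k160 k80 11 (.s k164 k88 13 (.s k84 k244 11 (.d k168 k172 k252 1 13))))), (.s k80 k160 11
  (.s k90 k95 2 (.s k166 k247 12 (.s k242 k14 13 (.s k243 k241 0 (.d k162 k174 k81 1 12))))))] .n)
  (.c k10 (.f k160 k80 11 (.f k175 k165 2 (.q k162 [(.s k163 k161 0 (.s k171 k167 1 (.s k169 k168 0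
  (.d k166 k174 k172 1 2)))), (.s k166 k174 1 (.s k4 k247 12 (.s k12 k8 1 (.d k243 k81 k89 12
  14)))), (.s k81 k243 12 (.s k161 k163 0 (.s k1 k241 11 (.s k3 k82 12 (.s k169 k253 13 (.s k168
  k171 0 (.d k252 k84 k86 13 14)))))))] (.c k6 (.q k14 [(.s k166 k174 1 (.s k242 k90 13 (.d k243
  k241 k81 0 12))), (.s k81 k243 12 (.s k161 k163 0 (.s k1 k241 11 (.s k3 k82 12 (.s k169 k253 13
  (.s k168 k171 0 (.d k252 k84 k86 13 14))))))), (.s k163 k161 0 (.s k166 k174 1 (.s k169 k172 2 (.d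
  k171 k168 k167 0 1))))] .n) (.c k14 (.q k6 [(.s k163 k161 0 (.s k171 k167 1 (.s k169 k168 0 (.d
  k166 k174 k172 1 2)))), (.s k166 k174 1 (.s k4 k247 12 (.s k12 k8 1 (.d k243 k81 k89 12 14)))),
  (.s k81 k243 12 (.s k161 k163 0 (.s k3 k82 12 (.s k12 k9 2 (.s k8 k4 1 (.d k89 k251 k93 12
  1))))))] .n) .n))))) (.c k15 (.f k80 k160 11 (.q k192 [(.s k64 k128 7 (.s k96 k112 3 (.s k208 k224
  3 (.d k144 k16 k48 7 11)))), (.s k128 k64 7 (.s k149 k191 6 (.s k21 k213 7 (.d k63 k42 k106 6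
  14))))] (.c k64 (.l (.s k208 k224 3 (.s k16 k144 7 (.s k154 k223 10 (.s k138 k186 3 (.s k207 k69
  10 (.d k48 k32 k101 3 14))))))) (.c k95 (.q k175 [(.s k64 k128 7 (.s k96 k112 3 (.s k208 k224 3
  (.d k144 k16 k48 7 11)))), (.s k128 k64 7 (.s k149 k191 6 (.s k21 k213 7 (.d k63 k42 k106 6
  14))))] (.c k64 (.l (.s k208 k224 3 (.s k16 k144 7 (.s k154 k223 10 (.s k138 k186 3 (.s k207 k69
  10 (.d k48 k32 k101 3 14))))))) (.c k128 (.l (.s k208 k224 3 (.s k144 k16 7 (.s k96 k48 11 (.s k64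
  k112 3 (.s k106 k127 6 (.s k42 k234 7 (.d k63 k21 k149 6 14)))))))) .n))) (.c k128 (.l (.s k208
  k224 3 (.s k144 k16 7 (.s k96 k48 11 (.s k64 k112 3 (.s k106 k127 6 (.s k42 k234 7 (.d k63 k21
  k149 6 14)))))))) (.c k175 (.l (.s k95 k90 2 (.s k64 k128 7 (.s k96 k112 3 (.s k144 k48 11 (.d
  k208 k224 k16 3 7)))))) .n)))))) (.c k80 (.q k252 [(.s k84 k168 13 (.s k86 k87 0 (.s k3 k169 14
  (.s k82 k161 12 (.s k90 k94 1 (.s k10 k250 11 (.d k15 k165 k5 14 2))))))), (.s k84 k168 13 (.s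
  k244 k248 1 (.s k4 k164 11 (.s k166 k247 12 (.s k162 k174 1 (.s k243 k81 12 (.d k12 k8 k89 1
  14)))))))] (.c k82 (.l (.s k84 k168 13 (.s k86 k87 0 (.s k244 k248 1 (.s k165 k7 12 (.s k5 k245 11
  (.d k15 k10 k90 2 14))))))) (.c k84 (.q k88 [(.s k248 k244 1 (.s k8 k168 11 (.d k12 k4 k164 1
  13))), (.s k12 k164 13 (.s k4 k8 1 (.s k166 k247 12 (.s k162 k174 1 (.d k243 k81 k89 12 14)))))]
  (.c k4 (.l (.s k164 k12 13 (.s k248 k244 1 (.s k8 k168 11 (.s k89 k251 12 (.s k90 k91 0 (.s k10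
  k250 11 (.d k11 k9 k169 0 12)))))))) (.c k8 (.q k5 [(.s k165 k245 11 (.d k15 k10 k90 2 14)), (.s
  k164 k12 13 (.s k165 k245 11 (.s k166 k167 0 (.s k4 k247 12 (.s k7 k6 0 (.d k244 k248 k86 1
  12)))))), (.s k10 k15 2 (.s k12 k164 13 (.s k90 k250 11 (.s k89 k91 0 (.s k81 k93 1 (.d k243 k162
  k166 12 14))))))] (.c k10 (.l (.s k12 k164 13 (.s k165 k245 11 (.s k15 k90 14 (.s k172 k92 11 (.s
  k173 k94 12 (.d k175 k174 k160 0 2))))))) .n)) (.c k12 (.l (.s k248 k244 1 (.s k8 k168 11 (.s k89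
  k251 12 (.s k90 k91 0 (.s k10 k250 11 (.d k11 k9 k169 0 12))))))) (.c k164 (.q k4 [(.s k248 k244 1
  (.d k8 k12 k168 1 11)), (.s k166 k247 12 (.s k162 k174 1 (.s k243 k81 12 (.s k242 k241 0 (.s k90
  k14 13 (.d k89 k12 k91 14 0))))))] (.c k12 (.l (.s k248 k244 1 (.s k8 k168 11 (.s k89 k251 12 (.s
  k90 k91 0 (.s k10 k250 11 (.d k11 k9 k169 0 12))))))) .n)) (.c k244 (.l (.s k12 k164 13 (.s k4 k8
  1 (.s k166 k247 12 (.s k162 k174 1 (.d k243 k81 k89 12 14)))))) .n)))))) (.c k168 (.q k4 [(.s k244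
  k248 1 (.s k164 k84 11 (.d k12 k8 k88 1 13))), (.s k166 k247 12 (.s k162 k174 1 (.s k243 k81 12
  (.s k242 k241 0 (.s k90 k14 13 (.s k10 k250 11 (.d k15 k5 k165 2 14)))))))] (.c k12 (.l (.s k166
  k247 12 (.s k244 k248 1 (.s k84 k164 11 (.s k86 k87 0 (.s k6 k246 11 (.d k7 k5 k165 0 12)))))))
  .n)) .n)))) (.c k90 (.q k4 [(.s k12 k8 1 (.s k166 k247 12 (.s k162 k174 1 (.d k243 k81 k89 12
  14)))), (.s k12 k8 1 (.s k160 k80 11 (.s k164 k88 13 (.s k84 k244 11 (.d k168 k172 k252 1 13))))),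
  (.s k160 k80 11 (.s k165 k175 2 (.s k166 k247 12 (.s k164 k167 0 (.s k84 k244 11 (.d k168 k172
  k252 1 13))))))] .n) (.c k95 (.l (.s k160 k80 11 (.s k165 k175 2 (.s k15 k90 14 (.d k5 k10 k245 2
  11))))) (.c k160 (.q k89 [(.s k8 k251 12 (.s k12 k4 1 (.s k81 k93 1 (.d k243 k162 k166 12 14)))),
  (.s k81 k93 1 (.s k243 k162 12 (.s k12 k166 14 (.s k88 k164 13 (.s k90 k91 0 (.s k10 k250 11 (.d
  k15 k165 k5 14 2))))))), (.s k8 k251 12 (.s k12 k4 1 (.s k88 k164 13 (.s k90 k91 0 (.s k10 k250 11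
  (.d k15 k5 k165 2 14))))))] (.c k12 (.q k90 [(.s k10 k250 11 (.d k15 k5 k165 2 14)), (.s k15 k165
  14 (.s k91 k88 0 (.s k243 k167 13 (.d k81 k93 k162 1 12)))), (.s k8 k251 12 (.s k10 k250 11 (.s
  k11 k9 0 (.s k88 k91 0 (.d k248 k168 k169 11 12)))))] (.c k93 (.q k174 [(.s k10 k250 11 (.d k15 k5
  k165 2 14)), (.s k15 k165 14 (.s k91 k88 0 (.s k162 k166 1 (.d k243 k167 k81 13 12)))), (.s k8
  k251 12 (.s k10 k250 11 (.s k11 k9 0 (.s k88 k91 0 (.d k248 k168 k169 11 12)))))] .n) (.c k174 (.l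
  (.s k93 k81 1 (.s k10 k250 11 (.d k15 k5 k165 2 14)))) .n))) (.c k243 (.q k84 [(.s k86 k87 0 (.s
  k92 k83 2 (.s k80 k88 1 (.s k93 k81 1 (.d k95 k94 k90 0 2))))), (.s k86 k87 0 (.s k251 k8 12 (.s
  k252 k168 13 (.s k248 k244 1 (.s k249 k250 0 (.d k169 k3 k9 14 11)))))), (.s k252 k168 13 (.s k244
  k248 1 (.s k164 k4 11 (.s k88 k12 13 (.s k80 k92 1 (.d k90 k91 k95 0 2))))))] (.c k88 (.l (.s k81
  k93 1 (.s k86 k87 0 (.s k83 k92 2 (.s k82 k80 0 (.s k3 k161 12 (.d k252 k168 k169 13 14))))))) (.c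
  k247 (.l (.s k251 k8 12 (.s k86 k87 0 (.s k92 k83 2 (.s k80 k88 1 (.s k93 k81 1 (.d k95 k94 k90 0
  2))))))) (.c k251 (.q k247 [(.s k4 k166 12 (.s k12 k8 1 (.d k164 k244 k88 11 13))), (.s k86 k87 0
  (.s k92 k83 2 (.s k80 k88 1 (.s k93 k81 1 (.d k95 k94 k90 0 2)))))] (.c k88 (.l (.s k4 k166 12 (.s
  k244 k164 11 (.d k252 k168 k248 13 1)))) .n)) .n)))) .n))) (.c k165 (.q k4 [(.s k12 k8 1 (.s k166
  k247 12 (.s k162 k174 1 (.d k243 k81 k89 12 14)))), (.s k12 k8 1 (.s k160 k80 11 (.s k164 k88 13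
  (.s k84 k244 11 (.d k168 k172 k252 1 13))))), (.s k80 k160 11 (.s k90 k95 2 (.s k166 k247 12 (.s
  k242 k14 13 (.s k243 k241 0 (.d k162 k174 k81 1 12))))))] .n) (.c k175 (.l (.s k80 k160 11 (.s k90
  k95 2 (.s k15 k165 14 (.d k10 k5 k250 2 11))))) (.c k250 (.l (.s k160 k80 11 (.s k165 k175 2 (.s
  k5 k245 11 (.d k15 k10 k90 2 14))))) .n))))))))))))

def t2_109 : T TT 256 :=
  (.f k170 k255 14 (.q k240 [(.s k80 k160 11 (.s k90 k95 2 (.s k10 k250 11 (.d k15 k5 k165 2 14))))]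
  (.c k5 (.q k4 [(.s k12 k8 1 (.s k166 k247 12 (.s k243 k89 14 (.d k162 k174 k81 1 12)))), (.s k12
  k8 1 (.s k160 k80 11 (.s k164 k88 13 (.s k84 k244 11 (.d k168 k172 k252 1 13))))), (.s k80 k160 11
  (.s k90 k95 2 (.s k166 k247 12 (.s k242 k14 13 (.s k243 k241 0 (.d k162 k174 k81 1 12))))))] .n)
  (.c k10 (.f k160 k80 11 (.f k175 k165 2 (.q k162 [(.s k163 k161 0 (.s k171 k167 1 (.s k169 k168 0
  (.d k166 k174 k172 1 2)))), (.s k166 k174 1 (.s k4 k247 12 (.s k12 k8 1 (.d k243 k81 k89 12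
  14)))), (.s k81 k243 12 (.s k161 k163 0 (.s k1 k241 11 (.s k3 k82 12 (.s k169 k253 13 (.s k168
  k171 0 (.d k252 k84 k86 13 14)))))))] (.c k6 (.q k14 [(.s k166 k174 1 (.s k242 k90 13 (.d k243
  k241 k81 0 12))), (.s k81 k243 12 (.s k161 k163 0 (.s k1 k241 11 (.s k3 k82 12 (.s k169 k253 13
  (.s k168 k171 0 (.d k252 k84 k86 13 14))))))), (.s k163 k161 0 (.s k166 k174 1 (.s k169 k172 2 (.d
  k171 k168 k167 0 1))))] .n) (.c k14 (.q k6 [(.s k163 k161 0 (.s k171 k167 1 (.s k169 k168 0 (.d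
  k166 k174 k172 1 2)))), (.s k166 k174 1 (.s k4 k247 12 (.s k12 k8 1 (.d k243 k81 k89 12 14)))),
  (.s k81 k243 12 (.s k161 k163 0 (.s k3 k82 12 (.s k12 k9 2 (.s k8 k4 1 (.d k89 k251 k93 12
  1))))))] .n) .n))))) (.c k15 (.f k80 k160 11 (.q k192 [(.s k64 k128 7 (.s k96 k112 3 (.s k208 k224
  3 (.d k144 k16 k48 7 11)))), (.s k128 k64 7 (.s k149 k191 6 (.s k21 k213 7 (.d k63 k42 k106 6
  14))))] (.c k64 (.l (.s k208 k224 3 (.s k16 k144 7 (.s k154 k223 10 (.s k138 k186 3 (.s k207 k69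
  10 (.d k48 k32 k101 3 14))))))) (.c k95 (.q k175 [(.s k64 k128 7 (.s k96 k112 3 (.s k208 k224 3
  (.d k144 k16 k48 7 11)))), (.s k128 k64 7 (.s k149 k191 6 (.s k21 k213 7 (.d k63 k42 k106 6
  14))))] (.c k64 (.l (.s k208 k224 3 (.s k16 k144 7 (.s k154 k223 10 (.s k138 k186 3 (.s k207 k69
  10 (.d k48 k32 k101 3 14))))))) (.c k128 (.l (.s k208 k224 3 (.s k144 k16 7 (.s k96 k48 11 (.s k64
  k112 3 (.s k106 k127 6 (.s k42 k234 7 (.d k63 k21 k149 6 14)))))))) .n))) (.c k128 (.l (.s k208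
  k224 3 (.s k144 k16 7 (.s k96 k48 11 (.s k64 k112 3 (.s k106 k127 6 (.s k42 k234 7 (.d k63 k21
  k149 6 14)))))))) (.c k175 (.l (.s k95 k90 2 (.s k64 k128 7 (.s k96 k112 3 (.s k144 k48 11 (.d
  k208 k224 k16 3 7)))))) .n)))))) (.c k80 (.q k252 [(.s k84 k168 13 (.s k86 k87 0 (.s k244 k248 1
  (.s k165 k7 12 (.s k5 k245 11 (.d k15 k10 k90 2 14)))))), (.s k84 k168 13 (.s k244 k248 1 (.s k4
  k164 11 (.s k166 k247 12 (.s k162 k174 1 (.s k243 k81 12 (.d k12 k8 k89 1 14))))))), (.s k84 k168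
  13 (.s k86 k87 0 (.s k3 k169 14 (.s k82 k161 12 (.s k90 k94 1 (.s k10 k250 11 (.d k15 k165 k5 14
  2)))))))] (.c k84 (.q k243 [(.s k81 k162 12 (.s k89 k93 1 (.s k8 k251 12 (.d k12 k4 k166 1 14)))),
  (.s k248 k244 1 (.s k249 k246 2 (.s k251 k250 0 (.s k8 k89 12 (.s k88 k168 11 (.d k12 k4 k164 1
  13)))))), (.s k162 k81 12 (.s k166 k174 1 (.s k244 k248 1 (.s k246 k249 2 (.d k247 k245 k4 0
  12)))))] (.c k4 (.l (.s k81 k162 12 (.s k89 k93 1 (.s k249 k246 2 (.s k251 k8 12 (.d k248 k250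
  k244 0 1)))))) (.c k12 (.l (.s k81 k162 12 (.s k248 k244 1 (.s k249 k246 2 (.s k251 k250 0 (.d k89
  k93 k8 1 12)))))) (.c k88 (.q k92 [(.s k12 k172 11 (.s k4 k8 1 (.d k166 k247 k89 12 14))), (.s k12
  k172 11 (.s k81 k162 12 (.d k89 k93 k166 1 14))), (.s k81 k162 12 (.s k248 k244 1 (.s k249 k246 2
  (.s k251 k250 0 (.d k89 k93 k8 1 12)))))] (.c k89 (.l (.s k12 k172 11 (.s k4 k8 1 (.s k162 k81 12
  (.d k166 k174 k247 1 12))))) .n)) (.c k92 (.q k88 [(.s k248 k244 1 (.s k8 k168 11 (.d k12 k4 k164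
  1 13))), (.s k81 k162 12 (.s k89 k93 1 (.d k12 k164 k166 13 14)))] (.c k12 (.l (.s k81 k162 12 (.s
  k248 k244 1 (.s k8 k168 11 (.d k89 k93 k251 1 12))))) (.c k164 (.l (.s k81 k162 12 (.s k89 k93 1
  (.s k8 k251 12 (.d k12 k4 k166 1 14))))) .n))) (.c k251 (.l (.s k162 k81 12 (.s k166 k174 1 (.s k4
  k247 12 (.d k12 k8 k89 1 14))))) .n)))))) (.c k168 (.q k4 [(.s k244 k248 1 (.s k164 k84 11 (.d k12
  k8 k88 1 13))), (.s k166 k247 12 (.s k162 k174 1 (.s k243 k81 12 (.s k242 k241 0 (.s k90 k14 13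
  (.s k10 k250 11 (.d k15 k5 k165 2 14)))))))] (.c k12 (.l (.s k166 k247 12 (.s k244 k248 1 (.s k84
  k164 11 (.s k86 k87 0 (.s k6 k246 11 (.d k7 k5 k165 0 12))))))) .n)) .n))) (.c k90 (.q k4 [(.s k12
  k8 1 (.s k166 k247 12 (.s k162 k174 1 (.d k243 k81 k89 12 14)))), (.s k12 k8 1 (.s k160 k80 11 (.s
  k164 k88 13 (.s k84 k244 11 (.d k168 k172 k252 1 13))))), (.s k160 k80 11 (.s k165 k175 2 (.s k166
  k247 12 (.s k164 k167 0 (.s k84 k244 11 (.d k168 k172 k252 1 13))))))] .n) (.c k95 (.l (.s k160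
  k80 11 (.s k165 k175 2 (.s k15 k90 14 (.d k5 k10 k245 2 11))))) (.c k160 (.q k168 [(.s k169 k171 0
  (.s k252 k84 13 (.s k248 k244 1 (.s k90 k11 12 (.s k10 k250 11 (.d k15 k5 k165 2 14)))))), (.s
  k252 k84 13 (.s k248 k244 1 (.s k8 k88 11 (.s k89 k251 12 (.s k81 k93 1 (.s k243 k162 12 (.d k12
  k4 k166 1 14))))))), (.s k169 k171 0 (.s k252 k84 13 (.s k3 k86 14 (.s k161 k82 12 (.s k165 k173 1
  (.s k5 k245 11 (.d k15 k90 k10 14 2)))))))] (.c k84 (.q k5 [(.s k165 k245 11 (.d k15 k10 k90 2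
  14)), (.s k165 k245 11 (.s k169 k171 0 (.s k1 k253 13 (.s k13 k9 1 (.s k161 k173 1 (.d k241 k81
  k89 11 13)))))), (.s k10 k15 2 (.s k169 k171 0 (.s k1 k253 13 (.s k9 k13 1 (.s k8 k11 0 (.d k89
  k251 k249 12 11))))))] .n) (.c k252 (.q k102 [(.s k34 k238 9 (.s k51 k17 4 (.s k68 k119 4 (.d k204
  k136 k153 9 14)))), (.s k169 k171 0 (.s k236 k35 10 (.s k32 k100 9 (.s k238 k34 9 (.d k239 k237
  k101 0 10))))), (.s k68 k119 4 (.s k204 k136 9 (.s k228 k216 5 (.s k165 k39 8 (.s k5 k245 11 (.d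
  k15 k10 k90 2 14))))))] (.c k253 (.q k254 [(.s k34 k238 9 (.s k51 k17 4 (.s k68 k119 4 (.d k204
  k136 k153 9 14)))), (.s k169 k171 0 (.s k236 k35 10 (.s k32 k100 9 (.s k238 k34 9 (.d k239 k237
  k101 0 10))))), (.s k68 k119 4 (.s k204 k136 9 (.s k228 k216 5 (.s k165 k39 8 (.s k5 k245 11 (.d
  k15 k10 k90 2 14))))))] .n) (.c k254 (.q k253 [(.d k169 k171 k1 0 13), (.s k34 k238 9 (.s k51 k17
  4 (.s k68 k119 4 (.d k204 k136 k153 9 14))))] .n) .n))) .n))) (.c k165 (.q k4 [(.s k12 k8 1 (.s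
  k166 k247 12 (.s k162 k174 1 (.d k243 k81 k89 12 14)))), (.s k12 k8 1 (.s k160 k80 11 (.s k164 k88
  13 (.s k84 k244 11 (.d k168 k172 k252 1 13))))), (.s k80 k160 11 (.s k90 k95 2 (.s k166 k247 12
  (.s k242 k14 13 (.s k243 k241 0 (.d k162 k174 k81 1 12))))))] .n) (.c k175 (.l (.s k80 k160 11 (.s
  k90 k95 2 (.s k15 k165 14 (.d k10 k5 k250 2 11))))) (.c k250 (.l (.s k160 k80 11 (.s k165 k175 2
  (.s k5 k245 11 (.d k15 k10 k90 2 14))))) .n))))))))))))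

def t2_110 : T TT 256 :=
  (.f k170 k255 14 (.q k240 [(.s k80 k160 11 (.s k90 k95 2 (.s k10 k250 11 (.d k15 k5 k165 2 14))))]
  (.c k5 (.q k4 [(.s k12 k8 1 (.s k166 k247 12 (.s k243 k89 14 (.d k162 k174 k81 1 12)))), (.s k12
  k8 1 (.s k160 k80 11 (.s k164 k88 13 (.s k84 k244 11 (.d k168 k172 k252 1 13))))), (.s k80 k160 11
  (.s k90 k95 2 (.s k166 k247 12 (.s k242 k14 13 (.s k243 k241 0 (.d k162 k174 k81 1 12))))))] .n)
  (.c k10 (.f k160 k80 11 (.f k175 k165 2 (.q k162 [(.s k163 k161 0 (.s k171 k167 1 (.s k169 k168 0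
  (.d k166 k174 k172 1 2)))), (.s k166 k174 1 (.s k4 k247 12 (.s k12 k8 1 (.d k243 k81 k89 12
  14)))), (.s k81 k243 12 (.s k161 k163 0 (.s k1 k241 11 (.s k3 k82 12 (.s k169 k253 13 (.s k168
  k171 0 (.d k252 k84 k86 13 14)))))))] (.c k6 (.q k14 [(.s k166 k174 1 (.s k242 k90 13 (.d k243
  k241 k81 0 12))), (.s k81 k243 12 (.s k161 k163 0 (.s k1 k241 11 (.s k3 k82 12 (.s k169 k253 13
  (.s k168 k171 0 (.d k252 k84 k86 13 14))))))), (.s k163 k161 0 (.s k166 k174 1 (.s k169 k172 2 (.d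
  k171 k168 k167 0 1))))] .n) (.c k14 (.q k6 [(.s k163 k161 0 (.s k171 k167 1 (.s k169 k168 0 (.d
  k166 k174 k172 1 2)))), (.s k166 k174 1 (.s k4 k247 12 (.s k12 k8 1 (.d k243 k81 k89 12 14)))),
  (.s k81 k243 12 (.s k161 k163 0 (.s k3 k82 12 (.s k12 k9 2 (.s k8 k4 1 (.d k89 k251 k93 12
  1))))))] .n) .n))))) (.c k15 (.f k80 k160 11 (.q k192 [(.s k64 k128 7 (.s k96 k112 3 (.s k208 k224
  3 (.d k144 k16 k48 7 11)))), (.s k128 k64 7 (.s k149 k191 6 (.s k21 k213 7 (.d k63 k42 k106 6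
  14))))] (.c k64 (.l (.s k208 k224 3 (.s k16 k144 7 (.s k154 k223 10 (.s k138 k186 3 (.s k207 k69
  10 (.d k48 k32 k101 3 14))))))) (.c k95 (.q k175 [(.s k64 k128 7 (.s k96 k112 3 (.s k208 k224 3
  (.d k144 k16 k48 7 11)))), (.s k128 k64 7 (.s k149 k191 6 (.s k21 k213 7 (.d k63 k42 k106 6
  14))))] (.c k64 (.l (.s k208 k224 3 (.s k16 k144 7 (.s k154 k223 10 (.s k138 k186 3 (.s k207 k69
  10 (.d k48 k32 k101 3 14))))))) (.c k128 (.l (.s k208 k224 3 (.s k144 k16 7 (.s k96 k48 11 (.s k64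
  k112 3 (.s k106 k127 6 (.s k42 k234 7 (.d k63 k21 k149 6 14)))))))) .n))) (.c k128 (.l (.s k208
  k224 3 (.s k144 k16 7 (.s k96 k48 11 (.s k64 k112 3 (.s k106 k127 6 (.s k42 k234 7 (.d k63 k21
  k149 6 14)))))))) (.c k175 (.l (.s k95 k90 2 (.s k64 k128 7 (.s k96 k112 3 (.s k144 k48 11 (.d
  k208 k224 k16 3 7)))))) .n)))))) (.c k80 (.q k252 [(.s k84 k168 13 (.s k86 k87 0 (.s k244 k248 1
  (.s k165 k7 12 (.s k5 k245 11 (.d k15 k10 k90 2 14)))))), (.s k84 k168 13 (.s k244 k248 1 (.s k4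
  k164 11 (.s k166 k247 12 (.s k162 k174 1 (.s k243 k81 12 (.d k12 k8 k89 1 14))))))), (.s k84 k168
  13 (.s k86 k87 0 (.s k3 k169 14 (.s k82 k161 12 (.s k90 k94 1 (.s k10 k250 11 (.d k15 k165 k5 14
  2)))))))] (.c k84 (.q k169 [(.s k248 k244 1 (.s k90 k11 12 (.s k10 k250 11 (.d k15 k5 k165 2
  14)))), (.s k3 k86 14 (.s k161 k82 12 (.s k165 k173 1 (.s k5 k245 11 (.d k15 k90 k10 14 2))))),
  (.s k168 k171 0 (.s k248 k244 1 (.s k90 k11 12 (.s k250 k10 11 (.s k251 k249 0 (.d k8 k88 k89 11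
  12))))))] (.c k10 (.l (.s k3 k86 14 (.s k161 k82 12 (.s k165 k173 1 (.s k90 k15 14 (.d k248 k244
  k11 1 12)))))) (.c k88 (.q k92 [(.s k248 k244 1 (.s k90 k11 12 (.s k10 k250 11 (.d k15 k5 k165 2
  14)))), (.s k12 k172 11 (.s k86 k3 14 (.s k89 k83 2 (.d k8 k4 k251 1 12))))] (.c k4 (.l (.s k3 k86
  14 (.s k161 k82 12 (.s k165 k173 1 (.s k5 k245 11 (.d k15 k90 k10 14 2)))))) .n)) (.c k90 (.l (.s
  k86 k3 14 (.s k244 k248 1 (.s k165 k7 12 (.s k5 k245 11 (.s k15 k10 2 (.d k173 k161 k94 1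
  12))))))) (.c k92 (.q k88 [(.s k168 k171 0 (.d k248 k244 k8 1 11)), (.s k248 k244 1 (.s k90 k11 12
  (.s k10 k250 11 (.d k15 k5 k165 2 14))))] (.c k244 (.l (.s k168 k171 0 (.s k8 k248 11 (.d k12 k4
  k164 1 13)))) (.c k248 (.l (.s k3 k86 14 (.s k12 k164 13 (.s k9 k6 2 (.s k89 k249 11 (.d k8 k4
  k251 1 12)))))) .n))) .n))))) (.c k168 (.q k4 [(.s k244 k248 1 (.s k164 k84 11 (.d k12 k8 k88 1
  13))), (.s k166 k247 12 (.s k162 k174 1 (.s k243 k81 12 (.s k242 k241 0 (.s k90 k14 13 (.s k10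
  k250 11 (.d k15 k5 k165 2 14)))))))] (.c k12 (.l (.s k166 k247 12 (.s k244 k248 1 (.s k84 k164 11
  (.s k86 k87 0 (.s k6 k246 11 (.d k7 k5 k165 0 12))))))) .n)) .n))) (.c k90 (.q k4 [(.s k12 k8 1
  (.s k166 k247 12 (.s k162 k174 1 (.d k243 k81 k89 12 14)))), (.s k12 k8 1 (.s k160 k80 11 (.s k164
  k88 13 (.s k84 k244 11 (.d k168 k172 k252 1 13))))), (.s k160 k80 11 (.s k165 k175 2 (.s k166 k247
  12 (.s k164 k167 0 (.s k84 k244 11 (.d k168 k172 k252 1 13))))))] .n) (.c k95 (.l (.s k160 k80 11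
  (.s k165 k175 2 (.s k15 k90 14 (.d k5 k10 k245 2 11))))) (.c k160 (.q k101 [(.s k32 k239 10 (.s
  k48 k16 3 (.s k69 k117 3 (.d k207 k138 k154 10 14)))), (.s k69 k117 3 (.s k207 k138 10 (.s k229
  k218 6 (.s k165 k37 7 (.s k5 k245 11 (.d k15 k10 k90 2 14)))))), (.s k32 k239 10 (.s k48 k16 3 (.s
  k112 k176 7 (.s k90 k79 6 (.s k10 k250 11 (.d k15 k5 k165 2 14))))))] (.c k48 (.q k165 [(.s k5
  k245 11 (.d k15 k10 k90 2 14)), (.s k229 k37 7 (.s k207 k218 6 (.d k69 k117 k138 3 10)))] (.c k15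
  (.l (.s k5 k245 11 (.s k32 k239 10 (.s k37 k229 7 (.s k21 k53 3 (.d k42 k63 k47 6 2)))))) (.c k117
  (.q k186 [(.s k15 k90 14 (.d k5 k10 k245 2 11)), (.s k138 k154 3 (.s k207 k69 10 (.d k229 k218 k37
  6 7)))] .n) (.c k186 (.l (.s k117 k69 3 (.s k5 k245 11 (.d k15 k10 k90 2 14)))) .n)))) (.c k207
  (.q k149 [(.s k21 k213 7 (.s k128 k191 6 (.s k192 k64 7 (.d k63 k42 k106 6 14)))), (.s k69 k117 3
  (.s k197 k53 11 (.s k5 k133 7 (.s k15 k10 2 (.d k165 k245 k90 11 14)))))] (.c k223 (.l (.s k239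
  k32 10 (.s k21 k213 7 (.s k63 k42 6 (.s k128 k191 6 (.d k192 k64 k106 7 14)))))) (.c k239 (.q k223
  [(.s k21 k213 7 (.s k128 k191 6 (.s k192 k64 7 (.d k63 k42 k106 6 14)))), (.s k69 k117 3 (.s k197
  k53 11 (.s k5 k133 7 (.s k15 k10 2 (.d k165 k245 k90 11 14)))))] .n) .n))) .n))) (.c k165 (.q k4
  [(.s k12 k8 1 (.s k166 k247 12 (.s k162 k174 1 (.d k243 k81 k89 12 14)))), (.s k12 k8 1 (.s k160
  k80 11 (.s k164 k88 13 (.s k84 k244 11 (.d k168 k172 k252 1 13))))), (.s k80 k160 11 (.s k90 k95 2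
  (.s k166 k247 12 (.s k242 k14 13 (.s k243 k241 0 (.d k162 k174 k81 1 12))))))] .n) (.c k175 (.l
  (.s k80 k160 11 (.s k90 k95 2 (.s k15 k165 14 (.d k10 k5 k250 2 11))))) (.c k250 (.l (.s k160 k80
  11 (.s k165 k175 2 (.s k5 k245 11 (.d k15 k10 k90 2 14))))) .n))))))))))))

def t2_111 : T TT 256 :=
  (.f k170 k255 14 (.q k240 [(.s k80 k160 11 (.s k90 k95 2 (.s k10 k250 11 (.d k15 k5 k165 2 14)))),
  (.s k160 k80 11 (.s k165 k175 2 (.s k5 k245 11 (.d k15 k10 k90 2 14))))] (.c k5 (.q k4 [(.s k12 k8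
  1 (.s k166 k247 12 (.s k162 k174 1 (.d k243 k81 k89 12 14)))), (.s k12 k8 1 (.s k160 k80 11 (.s
  k164 k88 13 (.s k84 k244 11 (.d k168 k172 k252 1 13))))), (.s k80 k160 11 (.s k90 k95 2 (.s k166
  k247 12 (.s k242 k14 13 (.s k243 k241 0 (.d k162 k174 k81 1 12))))))] .n) (.c k10 (.f k80 k160 11
  (.q k130 [(.s k150 k190 5 (.s k20 k215 8 (.s k60 k40 5 (.d k195 k65 k105 8 14)))), (.s k90 k95 2
  (.s k195 k65 8 (.s k210 k225 4 (.d k150 k190 k30 5 9)))), (.s k90 k95 2 (.s k15 k165 14 (.s k150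
  k190 5 (.s k30 k210 9 (.s k60 k45 4 (.d k20 k40 k215 5 8))))))] (.c k6 (.q k14 [(.s k150 k190 5
  (.s k20 k215 8 (.s k60 k40 5 (.d k195 k65 k105 8 14)))), (.s k90 k95 2 (.s k15 k165 14 (.s k12 k13
  0 (.s k4 k8 1 (.d k166 k247 k242 12 13)))))] .n) (.c k14 (.q k6 [(.s k150 k190 5 (.s k20 k215 8
  (.s k60 k40 5 (.d k195 k65 k105 8 14)))), (.s k90 k95 2 (.s k195 k65 8 (.s k210 k225 4 (.d k150
  k190 k30 5 9)))), (.s k90 k95 2 (.s k15 k165 14 (.s k150 k190 5 (.s k30 k210 9 (.s k60 k45 4 (.d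
  k20 k40 k215 5 8))))))] (.c k150 (.l (.s k65 k195 8 (.s k90 k95 2 (.s k105 k125 5 (.s k120 k75 4
  (.s k60 k180 9 (.d k40 k235 k20 8 5))))))) (.c k190 (.l (.s k90 k95 2 (.s k195 k65 8 (.s k210 k225
  4 (.s k150 k30 9 (.s k20 k215 8 (.d k60 k40 k105 5 14))))))) .n))) (.c k150 (.l (.s k65 k195 8 (.s
  k90 k95 2 (.s k105 k125 5 (.s k120 k75 4 (.s k60 k180 9 (.d k40 k235 k20 8 5))))))) (.c k190 (.l
  (.s k90 k95 2 (.s k195 k65 8 (.s k210 k225 4 (.s k150 k30 9 (.s k20 k215 8 (.d k60 k40 k105 5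
  14))))))) .n)))))) (.c k15 (.f k80 k160 11 (.f k95 k90 2 (.q k8 [(.s k12 k4 1 (.s k89 k251 12 (.s
  k81 k93 1 (.d k243 k162 k166 12 14)))), (.s k12 k4 1 (.s k88 k164 13 (.s k84 k92 1 (.d k168 k248
  k252 11 13)))), (.s k89 k251 12 (.s k93 k81 1 (.s k92 k94 0 (.s k84 k88 1 (.d k86 k87 k83 0
  2)))))] .n))) (.c k80 (.q k252 [(.s k84 k168 13 (.s k86 k87 0 (.s k3 k169 14 (.s k82 k161 12 (.s
  k90 k94 1 (.s k10 k250 11 (.d k15 k165 k5 14 2))))))), (.s k84 k168 13 (.s k244 k248 1 (.s k4 k164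
  11 (.s k166 k247 12 (.s k162 k174 1 (.s k243 k81 12 (.d k12 k8 k89 1 14)))))))] (.c k82 (.l (.s
  k84 k168 13 (.s k86 k87 0 (.s k244 k248 1 (.s k165 k7 12 (.s k5 k245 11 (.d k15 k10 k90 2
  14))))))) (.c k84 (.q k162 [(.s k166 k174 1 (.s k4 k247 12 (.s k12 k8 1 (.d k243 k81 k89 12
  14)))), (.s k166 k174 1 (.s k243 k81 12 (.s k242 k241 0 (.s k90 k14 13 (.s k10 k250 11 (.d k15 k5
  k165 2 14)))))), (.s k243 k81 12 (.s k248 k244 1 (.s k249 k246 2 (.s k251 k250 0 (.s k8 k89 12 (.s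
  k88 k168 11 (.d k12 k4 k164 1 13))))))), (.s k166 k174 1 (.s k244 k248 1 (.s k247 k4 12 (.s k245
  k246 0 (.s k165 k5 11 (.s k7 k86 12 (.d k167 k164 k87 0 11)))))))] (.c k12 (.l (.s k243 k81 12 (.s
  k244 k248 1 (.s k246 k249 2 (.s k247 k245 0 (.d k166 k174 k4 1 12)))))) (.c k88 (.q k92 [(.s k12
  k172 11 (.s k4 k8 1 (.d k166 k174 k247 1 12))), (.s k12 k172 11 (.s k166 k174 1 (.d k243 k81 k89
  12 14))), (.s k243 k81 12 (.s k244 k248 1 (.s k246 k249 2 (.s k247 k245 0 (.d k166 k174 k4 1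
  12))))), (.s k12 k172 11 (.s k8 k4 1 (.s k81 k243 12 (.d k89 k251 k93 12 1))))] .n) (.c k92 (.q
  k88 [(.s k248 k244 1 (.s k8 k168 11 (.d k12 k4 k164 1 13))), (.s k166 k174 1 (.s k243 k81 12 (.d
  k12 k164 k89 13 14)))] (.c k12 (.l (.s k81 k243 12 (.s k248 k244 1 (.s k8 k168 11 (.d k89 k251 k93
  12 1))))) (.c k164 (.l (.s k166 k174 1 (.s k4 k247 12 (.s k12 k8 1 (.d k243 k81 k89 12 14)))))
  .n))) .n)))) (.c k168 (.q k4 [(.s k244 k248 1 (.s k164 k84 11 (.d k12 k8 k88 1 13))), (.s k166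
  k247 12 (.s k162 k174 1 (.s k243 k81 12 (.s k242 k241 0 (.s k90 k14 13 (.s k10 k250 11 (.d k15 k5
  k165 2 14)))))))] (.c k12 (.l (.s k166 k247 12 (.s k244 k248 1 (.s k84 k164 11 (.s k86 k87 0 (.s
  k6 k246 11 (.d k7 k5 k165 0 12))))))) .n)) .n)))) (.c k90 (.q k4 [(.s k12 k8 1 (.s k166 k247 12
  (.s k162 k174 1 (.d k243 k81 k89 12 14)))), (.s k12 k8 1 (.s k160 k80 11 (.s k164 k88 13 (.s k84
  k244 11 (.d k168 k172 k252 1 13))))), (.s k160 k80 11 (.s k165 k175 2 (.s k166 k247 12 (.s k164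
  k167 0 (.s k84 k244 11 (.d k168 k172 k252 1 13))))))] .n) (.c k95 (.l (.s k160 k80 11 (.s k165
  k175 2 (.s k15 k90 14 (.d k5 k10 k245 2 11))))) (.c k160 (.q k105 [(.s k40 k235 8 (.s k60 k20 5
  (.s k65 k125 5 (.d k195 k130 k150 8 14)))), (.s k65 k125 5 (.s k195 k130 8 (.s k225 k210 4 (.s
  k165 k45 9 (.s k5 k245 11 (.d k15 k10 k90 2 14)))))), (.s k40 k235 8 (.s k60 k20 5 (.s k120 k180 9
  (.s k90 k75 4 (.s k10 k250 11 (.d k15 k5 k165 2 14))))))] (.c k60 (.q k4 [(.s k12 k8 1 (.s k166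
  k247 12 (.s k162 k174 1 (.d k243 k81 k89 12 14)))), (.s k8 k12 1 (.s k40 k235 8 (.s k56 k24 3 (.s
  k154 k203 12 (.s k186 k138 3 (.d k251 k121 k89 8 12)))))), (.s k40 k235 8 (.s k166 k247 12 (.s k44
  k227 10 (.s k32 k36 1 (.s k174 k162 1 (.d k239 k109 k101 8 10))))))] (.c k125 (.q k190 [(.s k12 k8
  1 (.s k166 k247 12 (.s k162 k174 1 (.d k243 k81 k89 12 14)))), (.s k12 k8 1 (.s k130 k150 5 (.s
  k195 k65 8 (.s k134 k73 10 (.s k69 k199 8 (.d k138 k142 k207 1 10)))))), (.s k40 k235 8 (.s k150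
  k130 5 (.s k166 k247 12 (.s k44 k227 10 (.s k36 k32 1 (.d k20 k215 k52 8 3))))))] .n) (.c k174 (.l
  (.s k12 k8 1 (.s k164 k88 13 (.s k166 k247 12 (.s k165 k167 0 (.s k5 k245 11 (.d k15 k10 k90 2
  14))))))) (.c k190 (.l (.s k125 k65 5 (.s k12 k8 1 (.s k166 k247 12 (.s k162 k174 1 (.d k243 k81
  k89 12 14)))))) (.c k251 (.l (.s k12 k8 1 (.s k166 k247 12 (.s k243 k89 14 (.d k162 k174 k81 1
  12))))) .n))))) (.c k195 (.q k138 [(.s k154 k186 3 (.s k16 k223 10 (.s k207 k69 10 (.d k48 k32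
  k101 3 14)))), (.s k154 k186 3 (.s k203 k56 12 (.s k8 k73 8 (.s k235 k40 8 (.d k251 k219 k89 3
  12))))), (.s k65 k125 5 (.s k69 k207 10 (.s k73 k77 1 (.s k89 k121 3 (.d k8 k203 k251 8 12)))))]
  (.c k117 (.l (.s k207 k69 10 (.s k154 k186 3 (.s k48 k101 14 (.d k16 k32 k223 3 10))))) (.c k215
  (.l (.s k235 k40 8 (.s k154 k186 3 (.s k16 k223 10 (.s k48 k32 3 (.d k207 k69 k101 10 14)))))) (.c
  k235 (.q k215 [(.s k154 k186 3 (.s k16 k223 10 (.s k207 k69 10 (.d k48 k32 k101 3 14)))), (.s k20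
  k150 8 (.s k60 k40 5 (.s k120 k180 9 (.s k90 k75 4 (.s k10 k250 11 (.d k15 k165 k5 14 2))))))] .n)
  .n)))) .n))) (.c k165 (.q k4 [(.s k12 k8 1 (.s k166 k247 12 (.s k162 k174 1 (.d k243 k81 k89 12
  14)))), (.s k12 k8 1 (.s k160 k80 11 (.s k164 k88 13 (.s k84 k244 11 (.d k168 k172 k252 1 13))))),
  (.s k80 k160 11 (.s k90 k95 2 (.s k166 k247 12 (.s k242 k14 13 (.s k243 k241 0 (.d k162 k174 k81 1
  12))))))] .n) (.c k175 (.l (.s k80 k160 11 (.s k90 k95 2 (.s k15 k165 14 (.d k10 k5 k250 2 11)))))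
  .n)))))))))))

def t2_124 : T TT 256 :=
  (.f k170 k255 14 (.q k240 [(.s k80 k160 11 (.s k90 k95 2 (.s k10 k250 11 (.d k15 k5 k165 2 14))))]
  (.c k5 (.q k4 [(.s k12 k8 1 (.s k166 k247 12 (.s k162 k174 1 (.d k243 k81 k89 12 14)))), (.s k12
  k8 1 (.s k160 k80 11 (.s k164 k88 13 (.s k84 k244 11 (.d k168 k172 k252 1 13))))), (.s k80 k160 11
  (.s k90 k95 2 (.s k166 k247 12 (.s k242 k14 13 (.s k243 k241 0 (.d k162 k174 k81 1 12))))))] .n)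
  (.c k10 (.f k160 k80 11 (.f k175 k165 2 (.q k166 [(.s k4 k247 12 (.s k12 k8 1 (.s k162 k174 1 (.d
  k243 k81 k89 12 14)))), (.s k174 k162 1 (.s k172 k173 0 (.s k168 k164 1 (.d k169 k171 k163 0
  2)))), (.s k4 k247 12 (.s k12 k8 1 (.s k164 k88 13 (.s k84 k244 11 (.d k168 k172 k252 1 13)))))]
  (.c k6 (.q k14 [(.s k162 k174 1 (.s k242 k90 13 (.d k243 k241 k81 0 12))), (.s k162 k174 1 (.s
  k163 k161 0 (.s k169 k172 2 (.d k171 k168 k167 0 1)))), (.s k4 k247 12 (.s k12 k8 1 (.s k242 k90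
  13 (.d k243 k241 k89 0 14))))] (.c k12 (.l (.s k242 k90 13 (.s k243 k241 0 (.d k162 k174 k81 1
  12)))) .n)) (.c k14 (.q k6 [(.s k174 k162 1 (.s k172 k173 0 (.s k168 k164 1 (.d k169 k171 k163 0
  2)))), (.s k4 k247 12 (.s k12 k8 1 (.s k162 k174 1 (.d k243 k81 k89 12 14)))), (.s k4 k247 12 (.s
  k12 k8 1 (.s k86 k246 11 (.s k84 k87 0 (.d k164 k244 k88 11 13)))))] .n) .n))))) (.c k15 (.f k80
  k160 11 (.q k192 [(.s k64 k128 7 (.s k96 k112 3 (.s k208 k224 3 (.d k144 k16 k48 7 11)))), (.s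
  k128 k64 7 (.s k149 k191 6 (.s k21 k213 7 (.d k63 k42 k106 6 14))))] (.c k64 (.l (.s k208 k224 3
  (.s k16 k144 7 (.s k154 k223 10 (.s k138 k186 3 (.s k207 k69 10 (.d k48 k32 k101 3 14))))))) (.c
  k95 (.q k175 [(.s k64 k128 7 (.s k96 k112 3 (.s k208 k224 3 (.d k144 k16 k48 7 11)))), (.s k128
  k64 7 (.s k149 k191 6 (.s k21 k213 7 (.d k63 k42 k106 6 14))))] (.c k64 (.l (.s k208 k224 3 (.s
  k16 k144 7 (.s k154 k223 10 (.s k138 k186 3 (.s k207 k69 10 (.d k48 k32 k101 3 14))))))) (.c k128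
  (.l (.s k208 k224 3 (.s k144 k16 7 (.s k96 k48 11 (.s k64 k112 3 (.s k106 k127 6 (.s k42 k234 7
  (.d k63 k21 k149 6 14)))))))) .n))) (.c k128 (.l (.s k208 k224 3 (.s k144 k16 7 (.s k96 k48 11 (.s
  k64 k112 3 (.s k106 k127 6 (.s k42 k234 7 (.d k63 k21 k149 6 14)))))))) (.c k175 (.l (.s k95 k90 2
  (.s k64 k128 7 (.s k96 k112 3 (.s k144 k48 11 (.d k208 k224 k16 3 7)))))) .n)))))) (.c k80 (.q
  k101 [(.s k32 k239 10 (.s k48 k16 3 (.s k69 k117 3 (.d k207 k138 k154 10 14)))), (.s k69 k117 3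
  (.s k207 k138 10 (.s k229 k218 6 (.s k165 k37 7 (.s k5 k245 11 (.d k15 k10 k90 2 14)))))), (.s k32
  k239 10 (.s k48 k16 3 (.s k112 k176 7 (.s k90 k79 6 (.s k10 k250 11 (.d k15 k5 k165 2 14))))))]
  (.c k48 (.q k89 [(.s k8 k251 12 (.s k12 k4 1 (.s k81 k93 1 (.d k243 k162 k166 12 14)))), (.s k77
  k113 5 (.s k93 k81 1 (.s k125 k109 3 (.s k65 k105 5 (.d k69 k117 k73 3 1))))), (.s k8 k251 12 (.s
  k12 k4 1 (.s k77 k113 5 (.s k207 k142 8 (.d k69 k117 k138 3 10)))))] (.c k117 (.q k186 [(.s k8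
  k251 12 (.s k12 k4 1 (.s k81 k93 1 (.d k243 k162 k166 12 14)))), (.s k154 k138 3 (.s k219 k24 8
  (.s k251 k8 12 (.s k56 k121 8 (.d k203 k235 k105 3 12))))), (.s k32 k239 10 (.s k81 k93 1 (.s k113
  k77 5 (.s k97 k65 3 (.d k162 k227 k243 8 12)))))] (.c k12 (.l (.s k8 k251 12 (.s k77 k113 5 (.s
  k138 k154 3 (.s k69 k207 10 (.d k73 k65 k203 1 8)))))) .n)) (.c k186 (.l (.s k117 k69 3 (.s k8
  k251 12 (.s k12 k4 1 (.s k81 k93 1 (.d k243 k162 k166 12 14)))))) (.c k243 (.l (.s k81 k93 1 (.s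
  k113 k77 5 (.s k65 k97 3 (.s k117 k69 3 (.d k125 k121 k105 1 5)))))) .n)))) (.c k207 (.q k136 [(.s
  k204 k68 9 (.s k153 k187 4 (.s k51 k102 14 (.d k17 k34 k221 4 9)))), (.s k68 k204 9 (.s k69 k117 3
  (.s k71 k70 0 (.s k86 k116 4 (.s k87 k84 0 (.d k119 k103 k102 3 4)))))), (.s k69 k117 3 (.s k153
  k187 4 (.s k205 k49 13 (.s k1 k137 9 (.s k221 k17 9 (.d k253 k237 k169 3 13))))))] (.c k119 (.l
  (.s k204 k68 9 (.s k153 k187 4 (.s k51 k102 14 (.d k17 k34 k221 4 9))))) (.c k221 (.l (.s k153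
  k187 4 (.s k49 k205 13 (.s k204 k68 9 (.s k51 k102 14 (.s k48 k50 0 (.d k32 k16 k239 3 10)))))))
  (.c k223 (.l (.s k239 k32 10 (.s k153 k187 4 (.s k17 k221 9 (.s k51 k34 4 (.d k204 k68 k102 9
  14)))))) (.c k239 (.q k223 [(.s k204 k68 9 (.s k153 k187 4 (.s k51 k102 14 (.d k17 k34 k221 4
  9)))), (.s k16 k154 10 (.s k48 k32 3 (.s k112 k176 7 (.s k90 k79 6 (.s k10 k250 11 (.d k15 k165 k5
  14 2))))))] .n) .n))))) .n))) (.c k90 (.q k4 [(.s k12 k8 1 (.s k166 k247 12 (.s k162 k174 1 (.d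
  k243 k81 k89 12 14)))), (.s k12 k8 1 (.s k160 k80 11 (.s k164 k88 13 (.s k84 k244 11 (.d k168 k172
  k252 1 13))))), (.s k160 k80 11 (.s k165 k175 2 (.s k166 k247 12 (.s k164 k167 0 (.s k84 k244 11
  (.d k168 k172 k252 1 13))))))] .n) (.c k95 (.l (.s k160 k80 11 (.s k165 k175 2 (.s k15 k90 14 (.d
  k5 k10 k245 2 11))))) (.c k160 (.q k149 [(.s k21 k213 7 (.s k63 k42 6 (.s k128 k191 6 (.d k192 k64
  k106 7 14)))), (.s k128 k191 6 (.s k192 k64 7 (.s k208 k224 3 (.s k90 k31 10 (.s k10 k250 11 (.d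
  k15 k5 k165 2 14)))))), (.s k21 k213 7 (.s k63 k42 6 (.s k181 k122 10 (.s k165 k133 3 (.s k5 k245
  11 (.d k15 k10 k90 2 14))))))] (.c k63 (.q k102 [(.s k34 k238 9 (.s k51 k17 4 (.s k68 k119 4 (.d
  k204 k136 k153 9 14)))), (.s k21 k213 7 (.s k55 k196 12 (.s k4 k38 4 (.s k119 k68 4 (.d k247 k183
  k166 7 12))))), (.s k34 k238 9 (.s k51 k17 4 (.s k114 k177 8 (.s k90 k78 5 (.s k10 k250 11 (.d k15
  k5 k165 2 14))))))] (.c k127 (.l (.s k191 k128 6 (.s k34 k238 9 (.s k51 k17 4 (.s k68 k119 4 (.d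
  k204 k136 k153 9 14)))))) (.c k191 (.q k127 [(.s k34 k238 9 (.s k51 k17 4 (.s k68 k119 4 (.d k204
  k136 k153 9 14)))), (.s k21 k213 7 (.s k55 k196 12 (.s k4 k38 4 (.s k119 k68 4 (.d k247 k183 k166
  7 12))))), (.s k34 k238 9 (.s k51 k17 4 (.s k64 k106 6 (.s k192 k128 7 (.s k145 k98 12 (.d k153
  k204 k157 14 1))))))] .n) .n))) (.c k192 (.q k176 [(.s k191 k128 6 (.s k181 k186 2 (.s k63 k122 10
  (.d k21 k213 k42 7 6)))), (.s k48 k112 7 (.s k16 k32 3 (.s k154 k223 10 (.s k138 k186 3 (.d k207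
  k69 k101 10 14)))))] (.c k48 (.l (.s k191 k128 6 (.s k186 k181 2 (.s k154 k138 3 (.s k143 k165 6
  (.d k159 k144 k175 2 3)))))) (.c k186 (.l (.s k48 k112 7 (.s k32 k16 3 (.s k101 k239 10 (.s k69
  k117 3 (.d k207 k138 k154 10 14)))))) (.c k213 (.q k234 [(.s k42 k106 7 (.s k63 k21 6 (.s k191
  k128 6 (.d k181 k186 k122 2 10)))), (.s k48 k112 7 (.s k16 k32 3 (.s k154 k223 10 (.s k138 k186 3
  (.d k207 k69 k101 10 14)))))] (.c k186 (.l (.s k48 k112 7 (.s k32 k16 3 (.s k101 k239 10 (.s k69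
  k117 3 (.d k207 k138 k154 10 14)))))) .n)) (.c k234 (.l (.s k213 k21 7 (.s k48 k112 7 (.s k16 k32
  3 (.s k154 k223 10 (.s k138 k186 3 (.d k207 k69 k101 10 14))))))) .n))))) .n))) (.c k165 (.q k4
  [(.s k12 k8 1 (.s k166 k247 12 (.s k162 k174 1 (.d k243 k81 k89 12 14)))), (.s k12 k8 1 (.s k160
  k80 11 (.s k164 k88 13 (.s k84 k244 11 (.d k168 k172 k252 1 13))))), (.s k80 k160 11 (.s k90 k95 2
  (.s k166 k247 12 (.s k242 k14 13 (.s k243 k241 0 (.d k162 k174 k81 1 12))))))] .n) (.c k175 (.l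
  (.s k80 k160 11 (.s k90 k95 2 (.s k15 k165 14 (.d k10 k5 k250 2 11))))) (.c k250 (.l (.s k160 k80
  11 (.s k165 k175 2 (.s k5 k245 11 (.d k15 k10 k90 2 14))))) .n))))))))))))

def t2_125 : T TT 256 :=
  (.q k89 [(.s k93 k81 1 (.s k255 k170 14 (.s k12 k174 12 (.s k4 k8 1 (.d k166 k247 k243 12 14))))),
  (.s k81 k93 1 (.s k243 k162 12 (.s k166 k12 14 (.s k247 k4 12 (.d k255 k251 k170 1 14)))))] (.c k4
  (.q k1 [(.s k93 k81 1 (.s k253 k169 13 (.s k13 k173 11 (.s k5 k9 1 (.d k165 k245 k241 11 13))))),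
  (.s k169 k253 13 (.s k9 k249 11 (.s k170 k255 14 (.s k8 k251 12 (.s k10 k11 0 (.d k5 k13 k15 1
  2)))))), (.s k81 k93 1 (.s k161 k241 11 (.s k162 k243 12 (.s k160 k163 0 (.s k170 k255 14 (.s k165
  k175 2 (.d k169 k173 k253 1 13)))))))] (.c k169 (.l (.s k81 k93 1 (.s k170 k255 14 (.s k241 k161
  11 (.s k165 k13 13 (.s k160 k175 2 (.s k240 k80 11 (.d k243 k242 k162 0 12)))))))) (.c k241 (.l
  (.s k81 k93 1 (.s k169 k253 13 (.s k170 k255 14 (.s k168 k171 0 (.s k243 k162 12 (.s k249 k9 11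
  (.d k252 k246 k84 2 13)))))))) (.c k253 (.l (.s k81 k93 1 (.s k241 k161 11 (.s k13 k165 13 (.s k5
  k9 1 (.s k15 k10 2 (.s k243 k162 12 (.d k12 k14 k166 0 14)))))))) .n)))) (.c k12 (.q k5 [(.s k93
  k81 1 (.s k165 k245 11 (.s k13 k241 13 (.s k253 k173 11 (.d k1 k9 k169 1 13))))), (.s k15 k10 2
  (.s k165 k245 11 (.s k90 k240 14 (.s k95 k80 2 (.d k255 k175 k170 11 14))))), (.s k10 k15 2 (.s
  k170 k255 14 (.s k8 k251 12 (.s k9 k11 0 (.s k169 k249 11 (.d k1 k13 k253 1 13))))))] .n) (.c k81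
  (.q k15 [(.s k10 k5 2 (.s k170 k255 14 (.s k90 k250 11 (.s k80 k95 2 (.d k240 k160 k165 11
  14))))), (.s k255 k170 14 (.s k95 k175 11 (.s k90 k80 2 (.s k91 k88 0 (.s k243 k167 13 (.s k166
  k12 14 (.d k247 k251 k4 1 12))))))), (.s k170 k255 14 (.s k8 k251 12 (.s k12 k4 1 (.s k13 k14 0
  (.s k165 k241 13 (.d k5 k10 k245 2 11))))))] (.c k165 (.l (.s k10 k5 2 (.s k170 k255 14 (.s k8
  k251 12 (.s k11 k9 0 (.s k90 k250 11 (.s k88 k91 0 (.d k248 k168 k169 11 12)))))))) (.c k170 (.l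
  (.s k5 k10 2 (.s k165 k245 11 (.s k13 k241 13 (.s k90 k240 14 (.s k91 k88 0 (.s k243 k167 13 (.d
  k12 k14 k166 0 14)))))))) (.c k255 (.l (.s k5 k10 2 (.s k165 k245 11 (.s k240 k90 14 (.s k241 k13
  13 (.s k243 k242 0 (.s k166 k12 14 (.d k167 k164 k91 0 13)))))))) .n)))) (.c k93 (.q k72 [(.s k106
  k123 4 (.s k127 k64 6 (.s k255 k170 14 (.s k63 k191 7 (.s k21 k42 6 (.d k149 k213 k192 7 14)))))),
  (.s k170 k255 14 (.s k8 k251 12 (.s k136 k200 7 (.s k68 k204 9 (.s k76 k64 1 (.d k102 k119 k115 4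
  6)))))), (.s k106 k123 4 (.s k64 k127 6 (.s k192 k128 7 (.s k12 k132 9 (.s k4 k8 1 (.d k166 k247
  k243 12 14))))))] (.c k64 (.l (.s k106 k123 4 (.s k170 k255 14 (.s k8 k251 12 (.s k42 k234 7 (.s
  k59 k25 4 (.d k200 k136 k153 7 12))))))) (.c k77 (.q k109 [(.s k106 k123 4 (.s k127 k64 6 (.s k255
  k170 14 (.s k63 k191 7 (.s k21 k42 6 (.d k149 k213 k192 7 14)))))), (.s k170 k255 14 (.s k8 k251
  12 (.s k136 k200 7 (.s k68 k204 9 (.s k76 k64 1 (.d k102 k119 k115 4 6)))))), (.s k106 k123 4 (.s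
  k64 k127 6 (.s k192 k128 7 (.s k12 k132 9 (.s k4 k8 1 (.d k166 k247 k243 12 14))))))] (.c k64 (.l
  (.s k106 k123 4 (.s k170 k255 14 (.s k8 k251 12 (.s k42 k234 7 (.s k59 k25 4 (.d k200 k136 k153 7
  12))))))) (.c k192 (.l (.s k106 k123 4 (.s k64 k127 6 (.s k170 k255 14 (.s k8 k251 12 (.s k136
  k200 7 (.d k68 k76 k204 1 9))))))) .n))) (.c k109 (.q k77 [(.s k101 k113 5 (.s k117 k69 3 (.s k255
  k170 14 (.s k48 k186 10 (.s k16 k32 3 (.d k154 k223 k207 10 14)))))), (.s k106 k123 4 (.s k64 k127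
  6 (.s k170 k255 14 (.s k8 k251 12 (.s k12 k4 1 (.d k192 k128 k132 7 9)))))), (.s k101 k113 5 (.s
  k106 k123 4 (.s k64 k127 6 (.s k76 k68 1 (.s k79 k78 0 (.d k69 k117 k74 3 2))))))] .n) (.c k192
  (.l (.s k106 k123 4 (.s k64 k127 6 (.s k170 k255 14 (.s k8 k251 12 (.s k136 k200 7 (.d k68 k76
  k204 1 9))))))) .n))))) (.c k162 (.l (.s k93 k81 1 (.s k255 k170 14 (.s k12 k174 12 (.s k166 k243
  14 (.d k4 k8 k247 1 12)))))) (.c k166 (.q k5 [(.s k93 k81 1 (.s k165 k245 11 (.s k13 k241 13 (.s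
  k1 k9 1 (.d k253 k173 k169 11 13))))), (.s k15 k10 2 (.s k165 k245 11 (.s k90 k240 14 (.s k95 k80
  2 (.d k255 k175 k170 11 14))))), (.s k10 k15 2 (.s k170 k255 14 (.s k8 k251 12 (.s k9 k11 0 (.s k1
  k13 1 (.d k169 k249 k253 11 13))))))] .n) (.c k170 (.q k86 [(.s k84 k87 0 (.s k92 k83 2 (.s k80
  k88 1 (.s k93 k81 1 (.d k95 k94 k90 0 2))))), (.s k81 k93 1 (.s k84 k87 0 (.s k243 k162 12 (.s
  k166 k12 14 (.s k246 k6 11 (.d k252 k249 k168 2 13)))))), (.s k84 k87 0 (.s k92 k83 2 (.s k252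
  k168 13 (.s k12 k172 11 (.s k4 k8 1 (.d k166 k247 k243 12 14)))))), (.s k81 k93 1 (.s k83 k92 2
  (.s k243 k162 12 (.s k3 k163 11 (.s k166 k12 14 (.s k246 k6 11 (.d k252 k249 k169 2 14)))))))] .n)
  (.c k174 (.l (.s k81 k93 1 (.s k243 k162 12 (.s k12 k166 14 (.s k170 k255 14 (.d k8 k4 k251 1
  12)))))) (.c k243 (.q k13 [(.s k93 k81 1 (.s k241 k165 13 (.s k253 k173 11 (.s k169 k1 13 (.d k249
  k245 k9 1 11))))), (.s k165 k241 13 (.s k5 k245 11 (.s k15 k10 2 (.s k170 k255 14 (.s k160 k175 2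
  (.d k240 k80 k90 11 14)))))), (.s k93 k81 1 (.s k173 k253 11 (.s k255 k170 14 (.s k12 k174 12 (.s
  k15 k14 0 (.s k94 k252 12 (.d k95 k92 k175 0 11))))))), (.s k93 k81 1 (.s k165 k241 13 (.s k255
  k170 14 (.s k12 k174 12 (.s k15 k14 0 (.d k5 k10 k245 2 11))))))] .n) (.c k247 (.l (.s k81 k93 1
  (.s k170 k255 14 (.s k8 k251 12 (.s k243 k162 12 (.d k12 k4 k166 1 14)))))) (.c k255 (.q k60 [(.s
  k20 k40 5 (.s k93 k81 1 (.s k150 k215 8 (.s k28 k211 10 (.s k16 k24 1 (.d k223 k158 k154 8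
  10)))))), (.s k81 k93 1 (.s k243 k162 12 (.s k12 k166 14 (.s k28 k44 3 (.s k121 k182 10 (.s k105
  k73 3 (.d k150 k211 k195 10 14))))))), (.s k20 k40 5 (.s k81 k93 1 (.s k150 k215 8 (.s k243 k162
  12 (.s k121 k182 10 (.d k105 k195 k73 14 3)))))), (.s k20 k40 5 (.s k150 k215 8 (.s k28 k211 10
  (.s k12 k44 3 (.s k4 k8 1 (.d k166 k247 k243 12 14))))))] (.c k150 (.q k8 [(.s k12 k4 1 (.s k81
  k93 1 (.d k243 k162 k166 12 14))), (.s k40 k20 5 (.s k56 k24 3 (.s k170 k251 12 (.s k105 k235 8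
  (.s k73 k121 3 (.d k203 k138 k154 8 12))))))] (.c k243 (.l (.s k12 k4 1 (.s k40 k20 5 (.s k24 k56
  3 (.s k36 k48 5 (.d k44 k32 k28 1 3)))))) .n)) (.c k195 (.l (.s k20 k40 5 (.s k81 k93 1 (.s k243
  k162 12 (.s k12 k166 14 (.s k28 k44 3 (.d k150 k215 k211 8 10))))))) .n))) .n))))))))))))

def t2_126 : T TT 256 :=
  (.f k170 k255 14 (.q k240 [(.s k80 k160 11 (.s k90 k95 2 (.s k10 k250 11 (.d k15 k5 k165 2 14))))]
  (.c k5 (.q k4 [(.s k12 k8 1 (.s k166 k247 12 (.s k162 k174 1 (.d k243 k81 k89 12 14)))), (.s k12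
  k8 1 (.s k160 k80 11 (.s k164 k88 13 (.s k84 k244 11 (.d k168 k172 k252 1 13))))), (.s k80 k160 11
  (.s k90 k95 2 (.s k166 k247 12 (.s k242 k14 13 (.s k243 k241 0 (.d k162 k174 k81 1 12))))))] .n)
  (.c k10 (.f k160 k80 11 (.f k175 k165 2 (.q k166 [(.s k4 k247 12 (.s k12 k8 1 (.s k162 k174 1 (.d
  k243 k81 k89 12 14)))), (.s k174 k162 1 (.s k172 k173 0 (.s k168 k164 1 (.d k169 k171 k163 0
  2)))), (.s k4 k247 12 (.s k12 k8 1 (.s k164 k88 13 (.s k84 k244 11 (.d k168 k172 k252 1 13)))))]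
  (.c k6 (.q k14 [(.s k162 k174 1 (.s k242 k90 13 (.d k243 k241 k81 0 12))), (.s k162 k174 1 (.s
  k163 k161 0 (.s k169 k172 2 (.d k171 k168 k167 0 1)))), (.s k4 k247 12 (.s k12 k8 1 (.s k242 k90
  13 (.d k243 k241 k89 0 14))))] (.c k12 (.l (.s k242 k90 13 (.s k243 k241 0 (.d k162 k174 k81 1
  12)))) .n)) (.c k14 (.q k6 [(.s k174 k162 1 (.s k172 k173 0 (.s k168 k164 1 (.d k169 k171 k163 0
  2)))), (.s k4 k247 12 (.s k12 k8 1 (.s k162 k174 1 (.d k243 k81 k89 12 14)))), (.s k4 k247 12 (.s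
  k12 k8 1 (.s k86 k246 11 (.s k84 k87 0 (.d k164 k244 k88 11 13)))))] .n) .n))))) (.c k15 (.f k80
  k160 11 (.q k208 [(.s k144 k16 7 (.s k192 k224 3 (.s k64 k128 7 (.d k96 k112 k48 3 11)))), (.s k16
  k144 7 (.s k154 k223 10 (.s k138 k186 3 (.s k207 k69 10 (.d k48 k32 k101 3 14))))), (.s k192 k224
  3 (.s k128 k64 7 (.s k149 k191 6 (.d k90 k95 k31 2 10))))] (.c k32 (.l (.s k144 k16 7 (.s k192
  k224 3 (.s k96 k48 11 (.d k64 k112 k128 3 7))))) (.c k95 (.q k175 [(.s k144 k16 7 (.s k192 k224 3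
  (.s k64 k128 7 (.d k96 k112 k48 3 11)))), (.s k16 k144 7 (.s k154 k223 10 (.s k138 k186 3 (.s k207
  k69 10 (.d k48 k32 k101 3 14))))), (.s k192 k224 3 (.s k128 k64 7 (.s k149 k191 6 (.s k21 k213 7
  (.d k63 k42 k106 6 14)))))] (.c k32 (.l (.s k144 k16 7 (.s k192 k224 3 (.s k96 k48 11 (.d k64 k112
  k128 3 7))))) (.c k128 (.l (.s k144 k16 7 (.s k192 k224 3 (.s k96 k48 11 (.s k64 k112 3 (.s k106
  k127 6 (.s k42 k234 7 (.d k63 k21 k149 6 14)))))))) .n))) (.c k128 (.l (.s k144 k16 7 (.s k192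
  k224 3 (.s k96 k48 11 (.s k64 k112 3 (.s k106 k127 6 (.s k42 k234 7 (.d k63 k21 k149 6 14))))))))
  (.c k175 (.l (.s k95 k90 2 (.s k144 k16 7 (.s k192 k224 3 (.s k64 k128 7 (.d k96 k112 k48 3
  11)))))) .n)))))) (.c k80 (.q k149 [(.s k21 k213 7 (.s k63 k42 6 (.s k128 k191 6 (.d k192 k64 k106
  7 14)))), (.s k128 k191 6 (.s k192 k64 7 (.s k208 k224 3 (.s k90 k31 10 (.s k10 k250 11 (.d k15 k5
  k165 2 14)))))), (.s k21 k213 7 (.s k63 k42 6 (.s k181 k122 10 (.s k165 k133 3 (.s k5 k245 11 (.d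
  k15 k10 k90 2 14))))))] (.c k63 (.f k191 k128 6 (.q k169 [(.s k171 k168 0 (.s k131 k151 5 (.s k188
  k150 6 (.d k189 k190 k129 0 5)))), (.s k1 k253 13 (.s k21 k213 7 (.s k61 k41 5 (.s k193 k105 13
  (.d k129 k189 k65 5 7)))))] (.c k129 (.l (.s k168 k171 0 (.s k252 k84 13 (.s k248 k244 1 (.s k90
  k11 12 (.s k10 k250 11 (.d k15 k5 k165 2 14))))))) (.c k189 (.q k252 [(.d k168 k171 k84 0 13), (.s
  k248 k244 1 (.s k90 k11 12 (.s k10 k250 11 (.d k15 k5 k165 2 14))))] .n) (.c k252 (.l (.s k189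
  k129 5 (.s k171 k168 0 (.s k131 k151 5 (.d k188 k190 k150 0 6))))) .n))))) (.c k192 (.q k101 [(.s
  k32 k239 10 (.s k48 k16 3 (.s k69 k117 3 (.d k207 k138 k154 10 14)))), (.s k53 k197 11 (.s k117
  k69 3 (.s k181 k245 7 (.s k63 k122 10 (.d k21 k213 k42 7 6))))), (.s k32 k239 10 (.s k48 k16 3 (.s
  k53 k197 11 (.s k63 k58 2 (.d k21 k213 k42 7 6)))))] (.c k207 (.l (.s k69 k117 3 (.s k197 k53 11
  (.s k5 k133 7 (.s k15 k10 2 (.d k165 k245 k90 11 14)))))) (.c k213 (.q k234 [(.s k32 k239 10 (.s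
  k48 k16 3 (.s k69 k117 3 (.d k207 k138 k154 10 14)))), (.s k42 k106 7 (.s k63 k21 6 (.s k117 k69 3
  (.s k181 k122 10 (.d k53 k245 k197 7 11))))), (.s k32 k239 10 (.s k42 k106 7 (.s k21 k63 6 (.s k37
  k47 2 (.d k53 k5 k197 3 11)))))] .n) (.c k234 (.l (.s k213 k21 7 (.s k32 k239 10 (.s k48 k16 3 (.s
  k69 k117 3 (.d k207 k138 k154 10 14)))))) .n)))) .n))) (.c k90 (.q k4 [(.s k12 k8 1 (.s k166 k247
  12 (.s k162 k174 1 (.d k243 k81 k89 12 14)))), (.s k12 k8 1 (.s k160 k80 11 (.s k164 k88 13 (.s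
  k84 k244 11 (.d k168 k172 k252 1 13))))), (.s k160 k80 11 (.s k165 k175 2 (.s k166 k247 12 (.s
  k164 k167 0 (.s k84 k244 11 (.d k168 k172 k252 1 13))))))] .n) (.c k95 (.l (.s k160 k80 11 (.s
  k165 k175 2 (.s k15 k90 14 (.d k5 k10 k245 2 11))))) (.c k160 (.q k153 [(.s k17 k221 9 (.s k136
  k187 4 (.s k204 k68 9 (.d k51 k34 k102 4 14)))), (.s k136 k187 4 (.s k204 k68 9 (.s k216 k228 5
  (.s k90 k27 8 (.s k10 k250 11 (.d k15 k5 k165 2 14)))))), (.s k17 k221 9 (.s k51 k34 4 (.s k177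
  k114 8 (.s k165 k141 5 (.s k5 k245 11 (.d k15 k10 k90 2 14))))))] (.c k51 (.f k187 k136 4 (.q k4
  [(.s k166 k247 12 (.s k162 k174 1 (.s k243 k81 12 (.d k12 k8 k89 1 14)))), (.s k166 k247 12 (.s
  k179 k140 6 (.s k191 k183 1 (.s k128 k149 6 (.d k162 k174 k145 1 4))))), (.s k8 k12 1 (.s k251 k89
  12 (.s k59 k123 7 (.s k106 k200 12 (.d k42 k25 k234 4 7)))))] (.c k166 (.l (.s k8 k12 1 (.s k17
  k221 9 (.s k89 k251 12 (.s k25 k217 7 (.s k21 k29 1 (.d k42 k63 k59 6 4))))))) (.c k174 (.l (.s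
  k12 k8 1 (.s k164 k88 13 (.s k166 k247 12 (.s k165 k167 0 (.s k5 k245 11 (.d k15 k10 k90 2
  14))))))) (.c k243 (.l (.s k8 k12 1 (.s k166 k247 12 (.s k251 k89 12 (.s k59 k123 7 (.s k106 k200
  12 (.d k42 k25 k234 4 7))))))) (.c k251 (.l (.s k12 k8 1 (.s k166 k247 12 (.s k243 k89 14 (.d k162
  k174 k81 1 12))))) .n)))))) (.c k204 (.q k69 [(.s k101 k117 3 (.s k32 k239 10 (.s k48 k16 3 (.d
  k207 k138 k154 10 14)))), (.s k101 k117 3 (.s k205 k49 13 (.s k1 k137 9 (.s k221 k17 9 (.d k253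
  k237 k169 3 13))))), (.s k136 k187 4 (.s k138 k207 10 (.s k137 k139 0 (.s k169 k185 3 (.d k1 k205
  k253 9 13)))))] (.c k186 (.l (.s k207 k138 10 (.s k101 k117 3 (.s k48 k154 14 (.d k32 k16 k239 3
  10))))) (.c k221 (.q k238 [(.s k101 k117 3 (.s k32 k239 10 (.s k48 k16 3 (.d k207 k138 k154 10
  14)))), (.s k34 k102 9 (.s k51 k17 4 (.s k177 k114 8 (.s k165 k141 5 (.s k5 k245 11 (.d k15 k90
  k10 14 2))))))] .n) (.c k238 (.l (.s k221 k17 9 (.s k101 k117 3 (.s k32 k239 10 (.s k48 k16 3 (.d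
  k207 k138 k154 10 14)))))) .n)))) .n))) (.c k165 (.q k4 [(.s k12 k8 1 (.s k166 k247 12 (.s k162
  k174 1 (.d k243 k81 k89 12 14)))), (.s k12 k8 1 (.s k160 k80 11 (.s k164 k88 13 (.s k84 k244 11
  (.d k168 k172 k252 1 13))))), (.s k80 k160 11 (.s k90 k95 2 (.s k166 k247 12 (.s k242 k14 13 (.s
  k243 k241 0 (.d k162 k174 k81 1 12))))))] .n) (.c k175 (.l (.s k80 k160 11 (.s k90 k95 2 (.s k15
  k165 14 (.d k10 k5 k250 2 11))))) (.c k250 (.l (.s k160 k80 11 (.s k165 k175 2 (.s k5 k245 11 (.d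
  k15 k10 k90 2 14))))) .n))))))))))))

def t2_127 : T TT 256 :=
  (.q k89 [(.s k93 k81 1 (.s k255 k170 14 (.s k12 k174 12 (.s k4 k8 1 (.d k166 k247 k243 12 14))))),
  (.s k81 k93 1 (.s k243 k162 12 (.s k166 k12 14 (.s k247 k4 12 (.d k255 k251 k170 1 14)))))] (.c k4
  (.q k1 [(.s k93 k81 1 (.s k253 k169 13 (.s k13 k173 11 (.s k5 k9 1 (.d k165 k245 k241 11 13))))),
  (.s k169 k253 13 (.s k9 k249 11 (.s k170 k255 14 (.s k8 k251 12 (.s k10 k11 0 (.d k5 k13 k15 1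
  2)))))), (.s k81 k93 1 (.s k161 k241 11 (.s k162 k243 12 (.s k160 k163 0 (.s k170 k255 14 (.s k165
  k175 2 (.d k169 k173 k253 1 13)))))))] (.c k169 (.l (.s k81 k93 1 (.s k170 k255 14 (.s k241 k161
  11 (.s k165 k13 13 (.s k160 k175 2 (.s k240 k80 11 (.d k243 k242 k162 0 12)))))))) (.c k241 (.l
  (.s k81 k93 1 (.s k169 k253 13 (.s k170 k255 14 (.s k168 k171 0 (.s k243 k162 12 (.s k249 k9 11
  (.d k252 k246 k84 2 13)))))))) (.c k253 (.l (.s k81 k93 1 (.s k241 k161 11 (.s k13 k165 13 (.s k5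
  k9 1 (.s k15 k10 2 (.s k243 k162 12 (.d k12 k14 k166 0 14)))))))) .n)))) (.c k12 (.q k5 [(.s k93
  k81 1 (.s k165 k245 11 (.s k13 k241 13 (.s k253 k173 11 (.d k1 k9 k169 1 13))))), (.s k15 k10 2
  (.s k165 k245 11 (.s k90 k240 14 (.s k95 k80 2 (.d k255 k175 k170 11 14))))), (.s k10 k15 2 (.s
  k170 k255 14 (.s k8 k251 12 (.s k9 k11 0 (.s k169 k249 11 (.d k1 k13 k253 1 13))))))] .n) (.c k81
  (.q k15 [(.s k10 k5 2 (.s k170 k255 14 (.s k90 k250 11 (.s k240 k165 14 (.d k80 k95 k160 2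
  11))))), (.s k255 k170 14 (.s k95 k175 11 (.s k90 k80 2 (.s k91 k88 0 (.s k243 k167 13 (.s k166
  k12 14 (.d k247 k251 k4 1 12))))))), (.s k170 k255 14 (.s k8 k251 12 (.s k12 k4 1 (.s k13 k14 0
  (.s k165 k241 13 (.d k5 k10 k245 2 11))))))] (.c k165 (.l (.s k10 k5 2 (.s k170 k255 14 (.s k8
  k251 12 (.s k11 k9 0 (.s k90 k250 11 (.s k88 k91 0 (.d k248 k168 k169 11 12)))))))) (.c k170 (.l
  (.s k5 k10 2 (.s k165 k245 11 (.s k13 k241 13 (.s k90 k240 14 (.s k91 k88 0 (.s k243 k167 13 (.d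
  k12 k14 k166 0 14)))))))) (.c k255 (.l (.s k5 k10 2 (.s k165 k245 11 (.s k240 k90 14 (.s k241 k13
  13 (.s k243 k242 0 (.s k166 k12 14 (.d k167 k164 k91 0 13)))))))) .n)))) (.c k93 (.q k73 [(.s k105
  k121 3 (.s k125 k65 5 (.s k255 k170 14 (.s k60 k190 8 (.s k20 k40 5 (.d k150 k215 k195 8 14)))))),
  (.s k170 k255 14 (.s k8 k251 12 (.s k138 k203 8 (.s k69 k207 10 (.s k77 k65 1 (.d k101 k117 k113 3
  5)))))), (.s k105 k121 3 (.s k65 k125 5 (.s k195 k130 8 (.s k12 k134 10 (.s k4 k8 1 (.d k166 k247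
  k243 12 14))))))] (.c k65 (.l (.s k105 k121 3 (.s k170 k255 14 (.s k8 k251 12 (.s k40 k235 8 (.s
  k56 k24 3 (.d k203 k138 k154 8 12))))))) (.c k76 (.q k110 [(.s k105 k121 3 (.s k125 k65 5 (.s k255
  k170 14 (.s k60 k190 8 (.s k20 k40 5 (.d k150 k215 k195 8 14)))))), (.s k170 k255 14 (.s k8 k251
  12 (.s k138 k203 8 (.s k69 k207 10 (.s k77 k65 1 (.d k101 k117 k113 3 5)))))), (.s k105 k121 3 (.s
  k65 k125 5 (.s k195 k130 8 (.s k12 k134 10 (.s k4 k8 1 (.d k166 k247 k243 12 14))))))] (.c k65 (.l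
  (.s k105 k121 3 (.s k170 k255 14 (.s k8 k251 12 (.s k40 k235 8 (.s k56 k24 3 (.d k203 k138 k154 8
  12))))))) (.c k195 (.l (.s k105 k121 3 (.s k65 k125 5 (.s k170 k255 14 (.s k8 k251 12 (.s k138
  k203 8 (.d k69 k77 k207 1 10))))))) .n))) (.c k110 (.q k76 [(.s k67 k70 2 (.s k102 k115 6 (.s k105
  k121 3 (.s k108 k99 2 (.d k124 k92 k86 3 6))))), (.s k105 k121 3 (.s k65 k125 5 (.s k170 k255 14
  (.s k8 k251 12 (.s k12 k4 1 (.d k195 k130 k134 8 10)))))), (.s k102 k115 6 (.s k119 k68 4 (.s k255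
  k170 14 (.s k51 k187 9 (.s k17 k34 4 (.d k153 k221 k204 9 14))))))] .n) (.c k195 (.l (.s k105 k121
  3 (.s k65 k125 5 (.s k170 k255 14 (.s k8 k251 12 (.s k138 k203 8 (.d k69 k77 k207 1 10)))))))
  .n))))) (.c k162 (.l (.s k93 k81 1 (.s k255 k170 14 (.s k12 k174 12 (.s k166 k243 14 (.d k4 k8
  k247 1 12)))))) (.c k166 (.q k5 [(.s k93 k81 1 (.s k165 k245 11 (.s k13 k241 13 (.s k1 k9 1 (.d
  k253 k173 k169 11 13))))), (.s k15 k10 2 (.s k165 k245 11 (.s k90 k240 14 (.s k95 k80 2 (.d k255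
  k175 k170 11 14))))), (.s k10 k15 2 (.s k170 k255 14 (.s k8 k251 12 (.s k9 k11 0 (.s k1 k13 1 (.d
  k169 k249 k253 11 13))))))] .n) (.c k170 (.q k86 [(.s k83 k92 2 (.s k87 k84 0 (.s k95 k91 1 (.s
  k80 k90 2 (.d k81 k82 k93 0 1))))), (.s k81 k93 1 (.s k84 k87 0 (.s k243 k162 12 (.s k166 k12 14
  (.s k246 k6 11 (.d k252 k249 k168 2 13)))))), (.s k84 k87 0 (.s k92 k83 2 (.s k252 k168 13 (.s k12
  k172 11 (.s k4 k8 1 (.d k166 k247 k243 12 14)))))), (.s k81 k93 1 (.s k83 k92 2 (.s k243 k162 12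
  (.s k3 k163 11 (.s k166 k12 14 (.s k246 k6 11 (.d k252 k249 k169 2 14)))))))] .n) (.c k174 (.l (.s
  k81 k93 1 (.s k243 k162 12 (.s k12 k166 14 (.s k170 k255 14 (.d k8 k4 k251 1 12)))))) (.c k243 (.q
  k13 [(.s k93 k81 1 (.s k241 k165 13 (.s k253 k173 11 (.s k169 k1 13 (.d k249 k245 k9 1 11))))),
  (.s k165 k241 13 (.s k5 k245 11 (.s k15 k10 2 (.s k170 k255 14 (.s k160 k175 2 (.d k240 k80 k90 11
  14)))))), (.s k93 k81 1 (.s k173 k253 11 (.s k255 k170 14 (.s k12 k174 12 (.s k15 k14 0 (.s k94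
  k252 12 (.d k95 k92 k175 0 11))))))), (.s k93 k81 1 (.s k165 k241 13 (.s k255 k170 14 (.s k12 k174
  12 (.s k15 k14 0 (.d k5 k10 k245 2 11))))))] .n) (.c k247 (.l (.s k81 k93 1 (.s k170 k255 14 (.s
  k8 k251 12 (.s k243 k162 12 (.d k12 k4 k166 1 14)))))) (.c k255 (.q k63 [(.s k21 k42 6 (.s k93 k81
  1 (.s k149 k213 7 (.s k29 k209 9 (.s k17 k25 1 (.d k221 k157 k153 7 9)))))), (.s k81 k93 1 (.s
  k243 k162 12 (.s k12 k166 14 (.s k29 k46 4 (.s k123 k183 9 (.s k106 k72 4 (.d k149 k209 k192 9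
  14))))))), (.s k21 k42 6 (.s k81 k93 1 (.s k149 k213 7 (.s k243 k162 12 (.s k123 k183 9 (.d k106
  k192 k72 14 4)))))), (.s k21 k42 6 (.s k149 k213 7 (.s k29 k209 9 (.s k12 k46 4 (.s k4 k8 1 (.d
  k166 k247 k243 12 14))))))] (.c k149 (.q k1 [(.s k93 k81 1 (.s k253 k169 13 (.s k13 k173 11 (.s k5
  k9 1 (.d k165 k245 k241 11 13))))), (.s k21 k42 6 (.s k61 k41 5 (.s k81 k93 1 (.s k241 k161 11 (.s
  k121 k181 9 (.s k243 k162 12 (.d k60 k62 k182 0 10))))))), (.s k21 k42 6 (.s k41 k61 5 (.s k169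
  k253 13 (.s k9 k249 11 (.s k25 k57 3 (.s k17 k29 1 (.d k153 k217 k221 7 9)))))))] (.c k241 (.l (.s
  k81 k93 1 (.s k169 k253 13 (.s k243 k162 12 (.s k249 k9 11 (.s k252 k246 2 (.s k84 k168 13 (.d k86
  k87 k3 0 14)))))))) .n)) (.c k192 (.l (.s k21 k42 6 (.s k81 k93 1 (.s k243 k162 12 (.s k12 k166 14
  (.s k29 k46 4 (.d k149 k213 k209 7 9))))))) .n))) .n))))))))))))

def t2_168 : T TT 256 :=
  (.f k170 k255 14 (.q k195 [(.s k130 k65 8 (.s k150 k190 5 (.s k20 k215 8 (.d k60 k40 k105 5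
  14))))] (.c k20 (.q k4 [(.s k166 k247 12 (.s k162 k174 1 (.s k243 k81 12 (.d k12 k8 k89 1 14)))),
  (.s k12 k8 1 (.s k130 k65 8 (.s k134 k73 10 (.s k69 k199 8 (.d k138 k142 k207 1 10))))), (.s k65
  k130 8 (.s k105 k125 5 (.s k166 k247 12 (.s k227 k44 10 (.s k243 k211 3 (.d k162 k174 k81 1
  12))))))] .n) (.c k40 (.f k130 k65 8 (.f k190 k150 5 (.q k4 [(.s k166 k247 12 (.s k162 k174 1 (.s
  k243 k81 12 (.d k12 k8 k89 1 14)))), (.s k12 k8 1 (.s k134 k73 10 (.s k69 k199 8 (.d k138 k142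
  k207 1 10)))), (.s k166 k247 12 (.s k174 k162 1 (.s k142 k158 3 (.s k138 k134 1 (.d k154 k186 k178
  3 5)))))] (.c k104 (.q k232 [(.s k166 k247 12 (.s k162 k174 1 (.s k243 k81 12 (.d k12 k8 k89 1
  14)))), (.s k12 k8 1 (.s k134 k73 10 (.s k69 k199 8 (.d k138 k142 k207 1 10)))), (.s k166 k247 12
  (.s k174 k162 1 (.s k142 k158 3 (.s k138 k134 1 (.d k154 k186 k178 3 5)))))] .n) (.c k232 (.q k104
  [(.s k166 k247 12 (.s k162 k174 1 (.s k243 k81 12 (.d k12 k8 k89 1 14)))), (.s k12 k8 1 (.s k134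
  k73 10 (.s k69 k199 8 (.d k138 k142 k207 1 10)))), (.s k166 k247 12 (.s k174 k162 1 (.s k142 k158
  3 (.s k138 k134 1 (.d k154 k186 k178 3 5)))))] .n) .n))))) (.c k60 (.f k130 k65 8 (.q k48 [(.s k32
  k16 3 (.s k101 k239 10 (.s k69 k117 3 (.d k207 k138 k154 10 14)))), (.s k146 k97 12 (.s k162 k178
  3 (.s k166 k174 1 (.s k4 k247 12 (.s k12 k8 1 (.d k243 k81 k89 12 14))))))] (.c k125 (.l (.s k190
  k150 5 (.s k16 k32 3 (.s k146 k97 12 (.s k81 k211 8 (.d k162 k178 k243 3 12)))))) (.c k190 (.q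
  k125 [(.s k32 k16 3 (.s k101 k239 10 (.s k69 k117 3 (.d k207 k138 k154 10 14)))), (.s k146 k97 12
  (.s k162 k178 3 (.s k166 k174 1 (.s k4 k247 12 (.s k12 k8 1 (.d k243 k81 k89 12 14))))))] .n)
  .n)))) (.c k65 (.q k4 [(.s k12 k8 1 (.s k166 k247 12 (.s k162 k174 1 (.d k243 k81 k89 12 14)))),
  (.s k12 k8 1 (.s k134 k73 10 (.s k69 k199 8 (.s k101 k117 3 (.s k32 k239 10 (.s k48 k16 3 (.d k207
  k138 k154 10 14))))))), (.s k166 k247 12 (.s k162 k174 1 (.s k243 k81 12 (.s k227 k211 3 (.s k105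
  k44 10 (.s k40 k235 8 (.d k60 k20 k150 5 14)))))))] (.c k12 (.f k166 k247 12 (.q k243 [(.d k162
  k174 k81 1 12), (.s k227 k211 3 (.s k105 k44 10 (.s k40 k235 8 (.d k60 k20 k150 5 14))))] (.c k93
  (.l (.s k174 k162 1 (.s k227 k211 3 (.s k105 k44 10 (.s k40 k235 8 (.d k60 k20 k150 5 14)))))) (.c
  k174 (.q k93 [(.d k81 k89 k162 1 12), (.s k227 k211 3 (.s k105 k44 10 (.s k40 k235 8 (.d k60 k20
  k150 5 14))))] .n) .n)))) .n)) (.c k105 (.q k4 [(.s k166 k247 12 (.s k162 k174 1 (.s k243 k81 12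
  (.d k12 k8 k89 1 14)))), (.s k12 k8 1 (.s k130 k65 8 (.s k134 k73 10 (.s k69 k199 8 (.d k138 k142
  k207 1 10))))), (.s k130 k65 8 (.s k150 k190 5 (.s k166 k247 12 (.s k134 k182 3 (.s k69 k199 8 (.d
  k138 k142 k207 1 10))))))] .n) (.c k125 (.l (.s k130 k65 8 (.s k150 k190 5 (.s k60 k105 14 (.d k20
  k40 k215 5 8))))) (.c k130 (.q k89 [(.s k8 k251 12 (.s k12 k4 1 (.s k81 k93 1 (.d k243 k162 k166
  12 14)))), (.s k81 k93 1 (.s k243 k162 12 (.s k211 k227 3 (.s k150 k28 10 (.s k20 k215 8 (.d k60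
  k40 k105 5 14)))))), (.s k8 k251 12 (.s k12 k4 1 (.s k73 k134 10 (.s k105 k121 3 (.s k40 k235 8
  (.d k60 k20 k150 5 14))))))] (.c k12 (.f k93 k81 1 (.q k149 [(.s k29 k209 9 (.s k221 k157 7 (.s
  k17 k153 9 (.d k21 k25 k213 1 7)))), (.s k128 k191 6 (.s k64 k192 7 (.s k127 k106 6 (.s k76 k110 4
  (.s k102 k115 6 (.d k68 k72 k119 1 4))))))] (.c k66 (.q k194 [(.s k192 k193 0 (.d k128 k191 k64 6
  7)), (.s k29 k209 9 (.s k221 k157 7 (.s k17 k153 9 (.d k21 k25 k213 1 7))))] .n) (.c k194 (.q k66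
  [(.s k29 k209 9 (.s k221 k157 7 (.s k17 k153 9 (.d k21 k25 k213 1 7)))), (.s k128 k191 6 (.s k64
  k192 7 (.s k65 k67 0 (.s k105 k125 5 (.s k40 k235 8 (.d k60 k20 k150 5 14))))))] (.c k213 (.l (.s
  k29 k209 9 (.s k128 k191 6 (.s k192 k64 7 (.s k63 k106 14 (.s k21 k42 6 (.s k17 k25 1 (.d k221
  k157 k153 7 9)))))))) .n)) (.c k213 (.l (.s k29 k209 9 (.s k128 k191 6 (.s k192 k64 7 (.s k63 k106
  14 (.s k21 k42 6 (.s k17 k25 1 (.d k221 k157 k153 7 9)))))))) .n))))) (.c k66 (.q k194 [(.s k8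
  k251 12 (.s k12 k4 1 (.s k81 k93 1 (.d k243 k162 k166 12 14)))), (.s k192 k193 0 (.s k64 k128 7
  (.s k106 k127 6 (.s k42 k234 7 (.d k63 k21 k149 6 14)))))] .n) (.c k194 (.q k66 [(.s k8 k251 12
  (.s k12 k4 1 (.s k81 k93 1 (.d k243 k162 k166 12 14)))), (.s k81 k93 1 (.s k243 k162 12 (.s k211
  k227 3 (.s k150 k28 10 (.s k20 k215 8 (.d k60 k40 k105 5 14)))))), (.s k8 k251 12 (.s k12 k4 1 (.s
  k73 k134 10 (.s k105 k121 3 (.s k40 k235 8 (.d k60 k20 k150 5 14))))))] (.c k12 (.q k102 [(.s k34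
  k238 9 (.s k51 k17 4 (.s k68 k119 4 (.d k204 k136 k153 9 14)))), (.s k76 k115 6 (.s k93 k81 1 (.s
  k127 k110 4 (.s k64 k106 6 (.d k68 k72 k119 1 4))))), (.s k34 k238 9 (.s k51 k17 4 (.s k115 k76 6
  (.s k243 k179 7 (.d k81 k93 k162 1 12)))))] (.c k93 (.q k174 [(.s k34 k238 9 (.s k51 k17 4 (.s k68
  k119 4 (.d k204 k136 k153 9 14)))), (.s k166 k162 1 (.s k230 k38 7 (.s k238 k34 9 (.s k46 k110 7
  (.d k226 k234 k106 1 9))))), (.s k8 k251 12 (.s k68 k119 4 (.s k76 k115 6 (.s k72 k64 1 (.d k136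
  k200 k204 7 9)))))] (.c k51 (.l (.s k34 k238 9 (.s k115 k76 6 (.s k162 k166 1 (.s k81 k243 12 (.d
  k98 k64 k226 4 7)))))) .n)) (.c k174 (.l (.s k93 k81 1 (.s k34 k238 9 (.s k51 k17 4 (.s k68 k119 4
  (.d k204 k136 k153 9 14)))))) .n))) (.c k243 (.q k154 [(.s k138 k186 3 (.s k16 k223 10 (.s k207
  k69 10 (.d k48 k32 k101 3 14)))), (.s k93 k81 1 (.s k219 k24 8 (.s k223 k16 10 (.s k28 k158 8 (.d
  k211 k215 k150 1 10))))), (.s k138 k186 3 (.s k207 k69 10 (.s k203 k199 1 (.d k8 k251 k73 12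
  8))))] (.c k247 (.l (.s k251 k8 12 (.s k16 k223 10 (.s k48 k32 3 (.s k81 k93 1 (.d k146 k211 k97 8
  12)))))) (.c k251 (.q k247 [(.s k93 k81 1 (.s k219 k24 8 (.s k223 k16 10 (.s k28 k158 8 (.d k211
  k215 k150 1 10))))), (.s k4 k166 12 (.s k12 k8 1 (.s k134 k73 10 (.s k69 k199 8 (.d k138 k186 k207
  3 10)))))] .n) .n))) .n))) (.c k243 (.q k64 [(.s k106 k127 6 (.s k42 k234 7 (.s k63 k21 6 (.d k192
  k128 k149 7 14)))), (.s k81 k93 1 (.s k115 k98 4 (.s k76 k102 6 (.s k72 k68 1 (.d k106 k123 k127 4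
  6))))), (.s k81 k93 1 (.s k98 k115 4 (.s k192 k128 7 (.s k194 k193 0 (.s k146 k50 11 (.s k16 k211
  8 (.d k48 k32 k97 3 12)))))))] (.c k66 (.q k194 [(.d k192 k193 k128 0 7), (.s k106 k127 6 (.s k150
  k62 13 (.s k20 k215 8 (.d k60 k40 k105 5 14))))] (.c k247 (.l (.s k251 k8 12 (.d k192 k193 k128 0
  7))) (.c k251 (.q k247 [(.d k192 k193 k128 0 7), (.s k106 k127 6 (.s k150 k62 13 (.s k20 k215 8
  (.d k60 k40 k105 5 14))))] .n) .n))) (.c k194 (.q k66 [(.s k67 k65 0 (.s k3 k131 7 (.d k192 k128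
  k129 7 8))), (.s k65 k67 0 (.s k105 k125 5 (.s k40 k235 8 (.d k60 k20 k150 5 14)))), (.s k106 k127
  6 (.s k42 k234 7 (.s k63 k21 6 (.d k192 k128 k149 7 14))))] (.c k247 (.l (.s k251 k8 12 (.s k67
  k65 0 (.s k3 k131 7 (.d k192 k128 k129 7 8))))) (.c k251 (.q k247 [(.s k67 k65 0 (.s k3 k131 7 (.d
  k192 k128 k129 7 8))), (.s k65 k67 0 (.s k105 k125 5 (.s k40 k235 8 (.d k60 k20 k150 5 14)))), (.s
  k106 k127 6 (.s k42 k234 7 (.s k63 k21 6 (.d k192 k128 k149 7 14))))] .n) .n))) (.c k247 (.l (.s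
  k251 k8 12 (.s k106 k127 6 (.s k42 k234 7 (.s k63 k21 6 (.d k192 k128 k149 7 14)))))) (.c k251 (.q
  k247 [(.s k106 k127 6 (.s k42 k234 7 (.s k63 k21 6 (.d k192 k128 k149 7 14)))), (.s k4 k166 12 (.s
  k12 k8 1 (.s k73 k134 10 (.s k105 k121 3 (.s k40 k235 8 (.d k60 k150 k20 14 5))))))] (.c k66 (.q
  k194 [(.d k192 k193 k128 0 7), (.s k106 k127 6 (.s k150 k62 13 (.s k20 k215 8 (.d k60 k40 k105 5
  14))))] .n) (.c k194 (.q k66 [(.s k67 k65 0 (.s k3 k131 7 (.d k192 k128 k129 7 8))), (.s k65 k67 0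
  (.s k105 k125 5 (.s k40 k235 8 (.d k60 k20 k150 5 14)))), (.s k106 k127 6 (.s k42 k234 7 (.s k63
  k21 6 (.d k192 k128 k149 7 14))))] .n) .n))) .n))))) .n))))) (.c k150 (.q k4 [(.s k166 k247 12 (.s
  k162 k174 1 (.s k243 k81 12 (.d k12 k8 k89 1 14)))), (.s k12 k8 1 (.s k130 k65 8 (.s k134 k73 10
  (.s k69 k199 8 (.d k138 k142 k207 1 10))))), (.s k65 k130 8 (.s k105 k125 5 (.s k166 k247 12 (.s
  k227 k44 10 (.s k243 k211 3 (.d k162 k174 k81 1 12))))))] .n) (.c k190 (.l (.s k65 k130 8 (.s k105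
  k125 5 (.s k60 k150 14 (.d k40 k20 k235 5 8))))) (.c k215 (.l (.s k65 k130 8 (.s k105 k125 5 (.s
  k40 k235 8 (.d k60 k20 k150 5 14))))) .n))))))))))))

def t2_169 : T TT 256 :=
  (.f k170 k255 14 (.q k12 [(.s k4 k8 1 (.s k166 k247 12 (.s k162 k174 1 (.d k243 k81 k89 12 14))))]
  (.c k4 (.q k128 [(.s k149 k191 6 (.s k21 k213 7 (.s k192 k64 7 (.d k63 k42 k106 6 14)))), (.s k192
  k64 7 (.s k132 k72 9 (.s k136 k140 1 (.s k153 k187 4 (.s k17 k221 9 (.s k51 k34 4 (.d k204 k68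
  k102 9 14)))))))] (.c k64 (.l (.s k149 k191 6 (.s k21 k213 7 (.s k63 k42 6 (.s k29 k46 4 (.s k89
  k209 9 (.s k81 k93 1 (.d k243 k162 k166 12 14)))))))) (.c k192 (.f k149 k191 6 (.q k63 [(.d k21
  k213 k42 7 6), (.s k29 k46 4 (.s k89 k209 9 (.s k81 k93 1 (.d k243 k162 k166 12 14))))] (.c k213
  (.q k234 [(.d k42 k21 k106 6 7), (.s k29 k46 4 (.s k89 k209 9 (.s k81 k93 1 (.d k243 k162 k166 12
  14))))] .n) (.c k234 (.l (.s k213 k21 7 (.s k29 k46 4 (.s k89 k209 9 (.s k81 k93 1 (.d k243 k162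
  k166 12 14)))))) .n)))) .n))) (.c k8 (.q k136 [(.s k153 k187 4 (.s k17 k221 9 (.s k204 k68 9 (.d
  k51 k34 k102 4 14)))), (.s k204 k68 9 (.s k140 k76 7 (.s k128 k132 1 (.s k149 k191 6 (.s k21 k213
  7 (.s k63 k42 6 (.d k192 k64 k106 7 14)))))))] (.c k68 (.l (.s k153 k187 4 (.s k17 k221 9 (.s k51
  k34 4 (.s k25 k38 6 (.s k89 k217 7 (.s k81 k93 1 (.d k243 k162 k166 12 14)))))))) (.c k204 (.f
  k153 k187 4 (.q k51 [(.d k17 k221 k34 9 4), (.s k25 k38 6 (.s k89 k217 7 (.s k81 k93 1 (.d k243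
  k162 k166 12 14))))] (.c k221 (.q k238 [(.d k34 k17 k102 4 9), (.s k25 k38 6 (.s k89 k217 7 (.s
  k81 k93 1 (.d k243 k162 k166 12 14))))] .n) (.c k238 (.l (.s k221 k17 9 (.s k25 k38 6 (.s k89 k217
  7 (.s k81 k93 1 (.d k243 k162 k166 12 14)))))) .n)))) .n))) (.c k81 (.q k5 [(.s k15 k10 2 (.s k165
  k245 11 (.s k160 k175 2 (.d k240 k80 k90 11 14)))), (.s k4 k8 1 (.s k6 k7 0 (.s k9 k3 2 (.s k13 k1
  1 (.d k15 k14 k10 0 2))))), (.s k4 k8 1 (.s k165 k245 11 (.s k160 k175 2 (.s k166 k247 12 (.s k164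
  k167 0 (.d k240 k80 k88 11 13))))))] (.c k15 (.l (.s k4 k8 1 (.s k7 k6 0 (.s k165 k245 11 (.s k86
  k244 12 (.s k87 k84 0 (.d k247 k167 k166 11 12))))))) .n)) (.c k89 (.f k4 k8 1 (.q k10 [(.s k15 k5
  2 (.s k90 k250 11 (.s k80 k95 2 (.d k240 k160 k165 11 14)))), (.s k15 k5 2 (.s k14 k13 0 (.s k166
  k247 12 (.d k90 k250 k242 11 13)))), (.s k90 k250 11 (.s k166 k247 12 (.s k162 k174 1 (.s k242 k14
  13 (.s k243 k81 12 (.s k240 k241 0 (.d k80 k95 k160 2 11))))))), (.s k5 k15 2 (.s k7 k6 0 (.s k247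
  k166 12 (.s k87 k167 11 (.s k86 k84 0 (.d k165 k245 k244 11 12))))))] (.c k9 (.q k249 [(.s k90
  k250 11 (.s k80 k95 2 (.s k240 k160 11 (.d k15 k5 k165 2 14)))), (.s k5 k15 2 (.s k6 k7 0 (.s k166
  k247 12 (.s k162 k174 1 (.s k243 k81 12 (.d k246 k252 k86 2 11)))))), (.s k90 k250 11 (.s k166
  k247 12 (.s k162 k174 1 (.s k242 k14 13 (.s k243 k81 12 (.s k240 k241 0 (.d k80 k95 k160 2
  11)))))))] (.c k95 (.l (.s k15 k5 2 (.s k90 k250 11 (.s k166 k247 12 (.d k14 k13 k242 0 13)))))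
  .n)) (.c k165 (.l (.s k15 k5 2 (.s k90 k250 11 (.s k166 k247 12 (.d k14 k13 k242 0 13))))) (.c
  k249 (.q k9 [(.s k5 k15 2 (.d k6 k7 k3 0 2)), (.s k15 k5 2 (.s k14 k13 0 (.s k90 k250 11 (.d k166
  k247 k242 12 13))))] (.c k5 (.l (.s k90 k250 11 (.s k80 k95 2 (.s k166 k247 12 (.s k14 k242 13 (.s
  k15 k13 0 (.d k240 k165 k160 14 11))))))) (.c k15 (.l (.s k6 k3 2 (.s k7 k5 0 (.s k166 k247 12 (.s
  k86 k246 11 (.s k244 k165 12 (.d k84 k87 k164 0 11))))))) .n))) .n))))) (.c k162 (.f k4 k8 1 (.q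
  k63 [(.s k42 k21 6 (.s k106 k234 7 (.s k64 k127 6 (.d k192 k128 k149 7 14)))), (.s k21 k42 6 (.s
  k29 k46 4 (.s k25 k17 1 (.d k38 k55 k51 4 6)))), (.s k46 k29 4 (.s k166 k247 12 (.s k106 k226 9
  (.s k64 k127 6 (.d k192 k128 k149 7 14)))))] (.c k82 (.q k242 [(.s k42 k21 6 (.s k106 k234 7 (.s
  k64 k127 6 (.d k192 k128 k149 7 14)))), (.s k21 k42 6 (.s k29 k46 4 (.s k25 k17 1 (.d k38 k55 k51
  4 6)))), (.s k46 k29 4 (.s k166 k247 12 (.s k106 k226 9 (.s k64 k127 6 (.d k192 k128 k149 7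
  14)))))] .n) (.c k242 (.q k82 [(.s k42 k21 6 (.s k106 k234 7 (.s k64 k127 6 (.d k192 k128 k149 7
  14)))), (.s k21 k42 6 (.s k29 k46 4 (.s k25 k17 1 (.d k38 k55 k51 4 6)))), (.s k46 k29 4 (.s k166
  k247 12 (.s k106 k226 9 (.s k64 k127 6 (.d k192 k128 k149 7 14)))))] .n) .n)))) (.c k166 (.f k4 k8
  1 (.q k20 [(.s k150 k215 8 (.s k130 k190 5 (.s k195 k65 8 (.d k60 k40 k105 5 14)))), (.s k36 k52 3
  (.s k48 k24 5 (.s k16 k32 3 (.s k154 k223 10 (.s k138 k186 3 (.d k207 k69 k101 10 14))))))] (.c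
  k40 (.l (.s k52 k36 3 (.s k150 k215 8 (.s k130 k190 5 (.s k195 k65 8 (.s k134 k73 10 (.d k199 k69
  k101 8 12))))))) (.c k163 (.q k172 [(.s k150 k215 8 (.s k130 k190 5 (.s k195 k65 8 (.d k60 k40
  k105 5 14)))), (.s k36 k52 3 (.s k48 k24 5 (.s k16 k32 3 (.s k154 k223 10 (.s k138 k186 3 (.d k207
  k69 k101 10 14))))))] (.c k40 (.l (.s k52 k36 3 (.s k150 k215 8 (.s k130 k190 5 (.s k195 k65 8 (.s
  k134 k73 10 (.d k199 k69 k101 8 12))))))) .n)) (.c k172 (.q k163 [(.s k150 k215 8 (.s k130 k190 5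
  (.s k195 k65 8 (.d k60 k40 k105 5 14)))), (.s k36 k52 3 (.s k48 k24 5 (.s k16 k32 3 (.s k154 k223
  10 (.s k138 k186 3 (.d k207 k69 k101 10 14))))))] (.c k40 (.l (.s k52 k36 3 (.s k150 k215 8 (.s
  k130 k190 5 (.s k195 k65 8 (.s k134 k73 10 (.d k199 k69 k101 8 12))))))) .n)) .n))))) (.c k174 (.l
  (.s k8 k4 1 (.s k89 k251 12 (.s k81 k93 1 (.d k243 k162 k166 12 14))))) (.c k243 (.f k4 k8 1 (.q
  k69 [(.s k101 k117 3 (.s k32 k239 10 (.s k48 k16 3 (.d k207 k138 k154 10 14)))), (.s k134 k199 8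
  (.s k73 k195 10 (.s k77 k65 1 (.d k207 k142 k138 8 10)))), (.s k101 k117 3 (.s k199 k134 8 (.s k52
  k150 12 (.s k36 k20 3 (.d k166 k247 k231 12 8)))))] (.c k247 (.q k251 [(.s k101 k117 3 (.s k32
  k239 10 (.s k48 k16 3 (.d k207 k138 k154 10 14)))), (.s k134 k199 8 (.s k73 k195 10 (.s k77 k65 1
  (.d k207 k142 k138 8 10)))), (.s k101 k117 3 (.s k199 k134 8 (.s k52 k150 12 (.s k36 k20 3 (.s k48
  k24 5 (.d k32 k16 k239 3 10))))))] .n) (.c k251 (.l (.s k247 k166 12 (.s k101 k117 3 (.s k32 k239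
  10 (.s k48 k16 3 (.d k207 k138 k154 10 14)))))) .n)))) (.c k247 (.l (.s k8 k4 1 (.s k89 k251 12
  (.s k243 k166 14 (.d k81 k93 k162 1 12))))) (.c k251 (.l (.s k4 k8 1 (.s k166 k247 12 (.s k243 k89
  14 (.d k162 k174 k81 1 12))))) .n))))))))))))

def t2_171 : T TT 256 :=
  (.q k89 [(.s k81 k93 1 (.s k243 k162 12 (.s k12 k166 14 (.s k8 k4 1 (.d k170 k251 k255 12 14))))),
  (.s k93 k81 1 (.s k255 k170 14 (.s k12 k174 12 (.s k166 k243 14 (.d k4 k8 k247 1 12)))))] (.c k4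
  (.q k5 [(.s k93 k81 1 (.s k165 k245 11 (.s k13 k241 13 (.s k1 k9 1 (.d k253 k173 k169 11 13))))),
  (.s k15 k10 2 (.s k165 k245 11 (.s k90 k240 14 (.s k95 k80 2 (.d k255 k175 k170 11 14)))))] (.c
  k165 (.l (.s k10 k15 2 (.s k170 k255 14 (.s k8 k251 12 (.s k11 k9 0 (.s k90 k250 11 (.s k88 k91 0
  (.d k248 k168 k169 11 12)))))))) (.c k245 (.l (.s k15 k10 2 (.s k81 k93 1 (.s k243 k162 12 (.s k91
  k167 13 (.s k90 k88 0 (.s k80 k95 2 (.d k240 k160 k165 11 14)))))))) .n))) (.c k8 (.l (.s k81 k93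
  1 (.s k243 k162 12 (.s k166 k12 14 (.s k247 k4 12 (.d k255 k251 k170 1 14)))))) (.c k12 (.q k5
  [(.s k93 k81 1 (.s k165 k245 11 (.s k13 k241 13 (.s k253 k173 11 (.d k1 k9 k169 1 13))))), (.s k15
  k10 2 (.s k165 k245 11 (.s k90 k240 14 (.s k95 k80 2 (.d k255 k175 k170 11 14)))))] (.c k165 (.l
  (.s k10 k15 2 (.s k170 k255 14 (.s k8 k251 12 (.s k11 k9 0 (.s k90 k250 11 (.s k88 k91 0 (.d k248
  k168 k169 11 12)))))))) (.c k245 (.l (.s k15 k10 2 (.s k81 k93 1 (.s k243 k162 12 (.s k91 k167 13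
  (.s k90 k88 0 (.s k80 k95 2 (.d k240 k160 k165 11 14)))))))) .n))) (.c k81 (.q k16 [(.s k48 k32 3
  (.s k154 k223 10 (.s k101 k207 14 (.s k117 k69 3 (.d k255 k186 k170 10 14))))), (.s k48 k32 3 (.s
  k154 k223 10 (.s k24 k219 8 (.s k12 k36 5 (.s k4 k8 1 (.d k166 k247 k243 12 14)))))), (.s k154
  k223 10 (.s k24 k219 8 (.s k20 k28 1 (.s k40 k60 5 (.s k170 k255 14 (.d k8 k56 k251 3 12)))))),
  (.s k48 k32 3 (.s k170 k255 14 (.s k8 k251 12 (.s k12 k4 1 (.s k24 k36 5 (.s k20 k28 1 (.d k40 k56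
  k60 3 5)))))))] .n) (.c k93 (.q k16 [(.s k48 k32 3 (.s k154 k223 10 (.s k101 k207 14 (.s k117 k69
  3 (.d k255 k186 k170 10 14))))), (.s k48 k32 3 (.s k154 k223 10 (.s k24 k219 8 (.s k12 k36 5 (.s
  k4 k8 1 (.d k166 k247 k243 12 14)))))), (.s k48 k32 3 (.s k170 k255 14 (.s k8 k251 12 (.s k12 k4 1
  (.s k24 k36 5 (.s k40 k56 3 (.d k20 k28 k60 1 5))))))), (.s k154 k223 10 (.s k24 k219 8 (.s k170
  k255 14 (.s k8 k251 12 (.s k40 k56 3 (.d k20 k28 k60 1 5))))))] (.c k28 (.l (.s k48 k32 3 (.s k255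
  k170 14 (.s k117 k186 10 (.s k101 k69 3 (.d k154 k223 k207 10 14)))))) .n)) (.c k162 (.l (.s k93
  k81 1 (.s k255 k170 14 (.s k12 k174 12 (.s k166 k243 14 (.d k4 k8 k247 1 12)))))) (.c k166 (.q k5
  [(.s k93 k81 1 (.s k165 k245 11 (.s k13 k241 13 (.s k1 k9 1 (.d k253 k173 k169 11 13))))), (.s k15
  k10 2 (.s k165 k245 11 (.s k90 k240 14 (.s k95 k80 2 (.d k255 k175 k170 11 14)))))] (.c k165 (.l
  (.s k10 k15 2 (.s k170 k255 14 (.s k8 k251 12 (.s k11 k9 0 (.s k90 k250 11 (.s k88 k91 0 (.d k248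
  k168 k169 11 12)))))))) (.c k245 (.l (.s k15 k10 2 (.s k81 k93 1 (.s k243 k162 12 (.s k91 k167 13
  (.s k90 k88 0 (.s k80 k95 2 (.d k240 k165 k160 14 11)))))))) .n))) (.c k170 (.f k81 k93 1 (.q k86
  [(.s k83 k92 2 (.s k80 k82 0 (.s k87 k84 0 (.d k95 k91 k90 1 2)))), (.s k84 k87 0 (.s k243 k162 12
  (.s k166 k12 14 (.s k246 k6 11 (.d k252 k168 k249 13 2))))), (.s k84 k87 0 (.s k92 k83 2 (.s k88
  k80 1 (.s k168 k252 13 (.s k8 k248 11 (.s k12 k4 1 (.d k243 k162 k166 12 14))))))), (.s k83 k92 2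
  (.s k243 k162 12 (.s k3 k163 11 (.s k166 k12 14 (.s k246 k6 11 (.d k252 k169 k249 14 2))))))] (.c
  k162 (.l (.s k83 k92 2 (.s k87 k84 0 (.s k95 k91 1 (.d k80 k82 k90 0 2))))) (.c k168 (.q k169 [(.s
  k3 k252 14 (.s k83 k92 2 (.d k243 k163 k162 11 12))), (.s k1 k253 13 (.s k9 k249 11 (.s k13 k5 1
  (.d k241 k161 k165 11 13))))] .n) (.c k169 (.q k168 [(.d k84 k87 k252 0 13), (.s k83 k92 2 (.s k80
  k82 0 (.s k240 k160 11 (.s k243 k162 12 (.s k242 k241 0 (.s k166 k12 14 (.d k90 k95 k14 2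
  13)))))))] (.c k252 (.l (.s k83 k92 2 (.s k80 k82 0 (.s k87 k84 0 (.d k95 k91 k90 1 2))))) .n))
  .n))))) (.c k174 (.l (.s k81 k93 1 (.s k243 k162 12 (.s k12 k166 14 (.s k170 k255 14 (.d k8 k4
  k251 1 12)))))) (.c k243 (.q k13 [(.s k81 k93 1 (.s k241 k165 13 (.s k1 k161 11 (.s k9 k5 1 (.d
  k169 k249 k253 11 13))))), (.s k165 k241 13 (.s k5 k245 11 (.s k15 k10 2 (.s k170 k255 14 (.s k160
  k175 2 (.d k240 k80 k90 11 14)))))), (.s k93 k81 1 (.s k173 k253 11 (.s k255 k170 14 (.s k12 k174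
  12 (.s k15 k14 0 (.s k94 k252 12 (.d k95 k92 k175 0 11))))))), (.s k93 k81 1 (.s k165 k241 13 (.s
  k255 k170 14 (.s k12 k174 12 (.s k15 k14 0 (.d k5 k10 k245 2 11))))))] .n) (.c k255 (.q k121 [(.s
  k93 k81 1 (.s k105 k73 3 (.s k125 k65 5 (.s k77 k109 3 (.d k113 k117 k101 1 5))))), (.s k81 k93 1
  (.s k243 k162 12 (.s k12 k166 14 (.s k60 k182 10 (.s k20 k40 5 (.s k150 k215 8 (.d k28 k44 k211 3
  10))))))), (.s k105 k73 3 (.s k65 k125 5 (.s k195 k130 8 (.s k60 k150 14 (.s k243 k182 10 (.s k227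
  k211 3 (.d k166 k44 k12 10 14)))))))] (.c k3 (.q k87 [(.s k93 k81 1 (.s k105 k73 3 (.s k125 k65 5
  (.s k77 k109 3 (.d k113 k117 k101 1 5))))), (.s k81 k93 1 (.s k86 k84 0 (.s k83 k92 2 (.s k80 k82
  0 (.d k95 k91 k90 1 2))))), (.s k86 k84 0 (.s k92 k83 2 (.s k105 k73 3 (.s k124 k67 6 (.s k76 k108
  3 (.d k115 k118 k102 2 6))))))] .n) (.c k87 (.q k3 [(.s k93 k81 1 (.s k105 k73 3 (.s k125 k65 5
  (.s k77 k109 3 (.d k113 k117 k101 1 5))))), (.s k81 k93 1 (.s k243 k162 12 (.s k12 k166 14 (.s k9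
  k6 2 (.s k83 k163 11 (.s k86 k92 2 (.d k169 k249 k252 11 14))))))), (.s k105 k73 3 (.s k65 k125 5
  (.s k195 k130 8 (.s k60 k150 14 (.s k243 k182 10 (.s k227 k211 3 (.d k166 k44 k12 10 14)))))))]
  .n) .n))) .n))))))))))))

def t2_172 : T TT 256 :=
  (.f k170 k255 14 (.q k240 [(.s k80 k160 11 (.s k90 k95 2 (.s k10 k250 11 (.d k15 k5 k165 2 14)))),
  (.s k160 k80 11 (.s k165 k175 2 (.s k15 k90 14 (.d k5 k10 k245 2 11))))] (.c k5 (.q k4 [(.s k12 k8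
  1 (.s k166 k247 12 (.s k243 k89 14 (.d k162 k174 k81 1 12)))), (.s k12 k8 1 (.s k160 k80 11 (.s
  k164 k88 13 (.s k165 k175 2 (.d k166 k167 k247 0 12))))), (.s k80 k160 11 (.s k90 k95 2 (.s k166
  k247 12 (.s k242 k14 13 (.s k243 k241 0 (.d k162 k174 k81 1 12))))))] (.c k166 (.l (.s k8 k12 1
  (.s k80 k160 11 (.s k89 k251 12 (.s k90 k95 2 (.s k88 k91 0 (.s k168 k248 11 (.d k84 k92 k252 1
  13)))))))) (.c k174 (.l (.s k12 k8 1 (.s k160 k80 11 (.s k164 k88 13 (.s k166 k247 12 (.d k165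
  k167 k175 0 2)))))) (.c k247 (.l (.s k12 k8 1 (.s k160 k80 11 (.s k164 k88 13 (.s k165 k175 2 (.s
  k166 k167 0 (.s k243 k89 14 (.d k162 k174 k81 1 12)))))))) .n)))) (.c k10 (.f k160 k80 11 (.f k175
  k165 2 (.q k224 [(.s k96 k32 7 (.s k192 k208 3 (.s k128 k64 7 (.d k144 k176 k48 3 11)))), (.s k32
  k96 7 (.s k101 k239 10 (.s k69 k117 3 (.s k207 k138 10 (.d k48 k16 k154 3 14))))), (.s k192 k208 3
  (.s k64 k128 7 (.s k106 k127 6 (.s k42 k234 7 (.d k63 k21 k149 6 14)))))] (.c k6 (.q k14 [(.s k96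
  k32 7 (.s k192 k208 3 (.s k128 k64 7 (.d k144 k176 k48 3 11)))), (.s k32 k96 7 (.s k101 k239 10
  (.s k69 k117 3 (.s k207 k138 10 (.d k48 k16 k154 3 14))))), (.s k192 k208 3 (.s k64 k128 7 (.s
  k106 k127 6 (.s k42 k234 7 (.d k63 k21 k149 6 14)))))] (.c k16 (.l (.s k96 k32 7 (.s k192 k208 3
  (.s k144 k48 11 (.d k128 k176 k64 3 7))))) (.c k64 (.l (.s k96 k32 7 (.s k192 k208 3 (.s k144 k48
  11 (.s k128 k176 3 (.s k149 k191 6 (.s k21 k213 7 (.d k63 k42 k106 6 14)))))))) .n))) (.c k14 (.q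
  k6 [(.s k96 k32 7 (.s k192 k208 3 (.s k128 k64 7 (.d k144 k176 k48 3 11)))), (.s k32 k96 7 (.s
  k101 k239 10 (.s k69 k117 3 (.s k207 k138 10 (.d k48 k16 k154 3 14))))), (.s k192 k208 3 (.s k64
  k128 7 (.s k106 k127 6 (.s k42 k234 7 (.d k63 k21 k149 6 14)))))] (.c k16 (.l (.s k96 k32 7 (.s
  k192 k208 3 (.s k144 k48 11 (.d k128 k176 k64 3 7))))) (.c k64 (.l (.s k96 k32 7 (.s k192 k208 3
  (.s k144 k48 11 (.s k128 k176 3 (.s k149 k191 6 (.s k21 k213 7 (.d k63 k42 k106 6 14)))))))) .n)))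
  (.c k16 (.l (.s k96 k32 7 (.s k192 k208 3 (.s k144 k48 11 (.d k128 k176 k64 3 7))))) (.c k64 (.l
  (.s k96 k32 7 (.s k192 k208 3 (.s k144 k48 11 (.s k128 k176 3 (.s k149 k191 6 (.s k21 k213 7 (.d
  k63 k42 k106 6 14)))))))) .n))))))) (.c k15 (.f k160 k80 11 (.f k175 k165 2 (.q k32 [(.s k48 k16 3
  (.s k101 k239 10 (.s k69 k117 3 (.d k207 k138 k154 10 14)))), (.s k224 k96 7 (.s k192 k208 3 (.s
  k64 k128 7 (.s k106 k127 6 (.s k42 k234 7 (.d k63 k21 k149 6 14)))))), (.s k96 k224 7 (.s k101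
  k239 10 (.s k69 k117 3 (.s k207 k138 10 (.s k48 k154 14 (.s k144 k192 11 (.d k176 k128 k112 3
  7)))))))] (.c k144 (.l (.s k101 k239 10 (.s k69 k117 3 (.s k207 k138 10 (.d k48 k16 k154 3 14)))))
  .n)))) (.c k80 (.q k89 [(.s k8 k251 12 (.s k12 k4 1 (.s k81 k93 1 (.d k243 k162 k166 12 14)))),
  (.s k81 k93 1 (.s k243 k162 12 (.s k12 k166 14 (.s k88 k164 13 (.s k90 k91 0 (.s k10 k250 11 (.d
  k15 k165 k5 14 2))))))), (.s k8 k251 12 (.s k12 k4 1 (.s k88 k164 13 (.s k90 k91 0 (.s k10 k250 11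
  (.d k15 k5 k165 2 14))))))] (.c k12 (.q k252 [(.s k8 k251 12 (.s k248 k244 1 (.d k168 k88 k84 11
  13))), (.s k168 k84 13 (.s k169 k171 0 (.s k249 k9 11 (.s k243 k246 2 (.d k81 k93 k162 1 12))))),
  (.s k248 k244 1 (.s k251 k8 12 (.s k249 k250 0 (.s k243 k246 2 (.d k81 k93 k162 1 12)))))] (.c k93
  (.q k174 [(.s k8 k251 12 (.s k248 k244 1 (.d k168 k88 k84 11 13))), (.s k162 k166 1 (.s k168 k84
  13 (.s k169 k171 0 (.s k243 k81 12 (.d k249 k246 k9 2 11))))), (.s k162 k166 1 (.s k243 k81 12 (.s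
  k248 k244 1 (.s k249 k246 2 (.d k251 k250 k8 0 12)))))] (.c k243 (.l (.s k168 k84 13 (.s k248 k244
  1 (.d k8 k88 k251 11 12)))) .n)) (.c k174 (.l (.s k93 k81 1 (.s k8 k251 12 (.s k168 k84 13 (.d
  k248 k88 k244 11 1))))) (.c k243 (.l (.s k168 k84 13 (.s k248 k244 1 (.d k8 k88 k251 11 12))))
  .n)))) (.c k243 (.q k101 [(.s k32 k239 10 (.s k48 k16 3 (.s k69 k117 3 (.d k207 k138 k154 10
  14)))), (.s k81 k93 1 (.s k113 k77 5 (.s k65 k97 3 (.s k117 k69 3 (.d k125 k121 k105 1 5))))), (.s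
  k32 k239 10 (.s k48 k16 3 (.s k77 k113 5 (.s k207 k154 14 (.s k12 k142 8 (.d k8 k251 k4 12
  1))))))] (.c k247 (.l (.s k251 k8 12 (.s k32 k239 10 (.s k48 k16 3 (.s k69 k117 3 (.d k207 k138
  k154 10 14)))))) (.c k251 (.q k247 [(.s k32 k239 10 (.s k48 k16 3 (.s k69 k117 3 (.d k207 k138
  k154 10 14)))), (.s k4 k166 12 (.s k117 k69 3 (.s k52 k182 8 (.s k20 k36 3 (.d k150 k215 k199 8
  12))))), (.s k4 k166 12 (.s k12 k8 1 (.s k32 k239 10 (.s k48 k16 3 (.s k24 k36 5 (.d k154 k207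
  k219 14 8))))))] .n) .n))) .n))) (.c k90 (.q k4 [(.s k12 k8 1 (.s k166 k247 12 (.s k162 k174 1 (.d
  k243 k81 k89 12 14)))), (.s k160 k80 11 (.s k165 k175 2 (.s k5 k245 11 (.s k7 k6 0 (.s k86 k244 12
  (.s k87 k84 0 (.d k247 k167 k166 11 12))))))), (.s k12 k8 1 (.s k160 k80 11 (.s k164 k88 13 (.s
  k165 k175 2 (.s k5 k245 11 (.s k7 k6 0 (.d k244 k84 k86 11 12))))))), (.s k12 k8 1 (.s k166 k247
  12 (.s k243 k89 14 (.d k162 k174 k81 1 12))))] (.c k174 (.l (.s k12 k8 1 (.s k160 k80 11 (.s k164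
  k88 13 (.s k166 k247 12 (.d k165 k167 k175 0 2)))))) .n)) (.c k95 (.l (.s k160 k80 11 (.s k165
  k175 2 (.s k15 k90 14 (.d k5 k10 k245 2 11))))) (.c k160 (.q k252 [(.s k168 k84 13 (.s k169 k171 0
  (.s k248 k244 1 (.s k90 k11 12 (.s k10 k250 11 (.d k15 k5 k165 2 14)))))), (.s k168 k84 13 (.s
  k248 k244 1 (.s k8 k88 11 (.s k89 k251 12 (.s k81 k93 1 (.s k243 k162 12 (.d k12 k4 k166 1
  14))))))), (.s k168 k84 13 (.s k169 k171 0 (.s k3 k86 14 (.s k161 k82 12 (.s k165 k173 1 (.s k5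
  k245 11 (.d k15 k90 k10 14 2)))))))] (.c k84 (.q k168 [(.s k169 k171 0 (.s k248 k244 1 (.s k90 k11
  12 (.s k10 k250 11 (.d k15 k5 k165 2 14))))), (.s k248 k244 1 (.s k8 k88 11 (.s k89 k251 12 (.s
  k81 k93 1 (.s k243 k162 12 (.d k12 k4 k166 1 14)))))), (.s k169 k171 0 (.s k3 k86 14 (.s k161 k82
  12 (.s k165 k173 1 (.s k5 k245 11 (.d k15 k90 k10 14 2))))))] .n) (.c k164 (.l (.s k168 k84 13 (.s
  k169 k171 0 (.s k3 k86 14 (.s k161 k82 12 (.s k165 k173 1 (.s k5 k245 11 (.d k15 k90 k10 14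
  2)))))))) (.c k168 (.q k164 [(.s k244 k248 1 (.s k4 k84 11 (.d k12 k8 k88 1 13))), (.s k12 k88 13
  (.s k8 k4 1 (.s k89 k251 12 (.s k81 k93 1 (.d k243 k162 k166 12 14)))))] (.c k4 (.q k5 [(.s k165
  k245 11 (.d k15 k10 k90 2 14)), (.s k12 k88 13 (.s k165 k245 11 (.s k166 k167 0 (.s k162 k174 1
  (.d k243 k81 k89 12 14))))), (.s k10 k15 2 (.s k88 k12 13 (.s k90 k250 11 (.s k89 k91 0 (.s k8
  k251 12 (.s k11 k9 0 (.d k248 k244 k169 1 12)))))))] .n) (.c k8 (.l (.s k88 k12 13 (.s k244 k248 1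
  (.s k4 k84 11 (.s k166 k247 12 (.s k165 k167 0 (.s k5 k245 11 (.d k7 k6 k86 0 12)))))))) (.c k12
  (.l (.s k244 k248 1 (.s k4 k84 11 (.s k166 k247 12 (.s k165 k167 0 (.s k5 k245 11 (.d k7 k6 k86 0
  12))))))) (.c k88 (.q k4 [(.d k244 k248 k84 1 11), (.s k166 k247 12 (.s k162 k174 1 (.s k243 k81
  12 (.d k12 k8 k89 1 14))))] (.c k8 (.l (.s k248 k244 1 (.s k166 k247 12 (.s k165 k167 0 (.s k15
  k90 14 (.d k5 k245 k10 11 2)))))) (.c k248 (.l (.s k8 k12 1 (.s k166 k247 12 (.s k165 k167 0 (.s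
  k5 k245 11 (.d k15 k10 k90 2 14)))))) .n))) (.c k248 (.l (.s k12 k88 13 (.s k8 k4 1 (.s k89 k251
  12 (.s k81 k93 1 (.d k243 k162 k166 12 14)))))) .n)))))) .n)))) (.c k165 (.q k8 [(.s k12 k4 1 (.s
  k89 k251 12 (.s k81 k93 1 (.d k243 k162 k166 12 14)))), (.s k12 k4 1 (.s k80 k160 11 (.s k88 k164
  13 (.s k168 k248 11 (.d k84 k92 k252 1 13))))), (.s k80 k160 11 (.s k89 k251 12 (.s k90 k95 2 (.s
  k88 k91 0 (.s k168 k248 11 (.d k84 k92 k252 1 13))))))] .n) (.c k175 (.l (.s k80 k160 11 (.s k90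
  k95 2 (.s k15 k165 14 (.d k10 k5 k250 2 11))))) .n)))))))))))

def t2_173 : T TT 256 :=
  (.f k170 k255 14 (.q k12 [(.s k4 k8 1 (.s k166 k247 12 (.s k243 k89 14 (.d k162 k174 k81 1 12))))]
  (.c k4 (.q k130 [(.s k195 k65 8 (.s k150 k190 5 (.s k60 k105 14 (.d k20 k40 k215 5 8)))), (.s k195
  k65 8 (.s k134 k73 10 (.s k138 k142 1 (.s k154 k186 3 (.s k16 k223 10 (.s k48 k32 3 (.d k207 k69
  k101 10 14)))))))] (.c k65 (.l (.s k150 k190 5 (.s k20 k215 8 (.s k60 k40 5 (.s k28 k44 3 (.s k89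
  k211 10 (.s k81 k93 1 (.d k243 k162 k166 12 14)))))))) (.c k195 (.f k150 k190 5 (.q k60 [(.d k20
  k215 k40 8 5), (.s k28 k44 3 (.s k89 k211 10 (.s k81 k93 1 (.d k243 k162 k166 12 14))))] (.c k215
  (.q k235 [(.d k40 k20 k105 5 8), (.s k28 k44 3 (.s k89 k211 10 (.s k81 k93 1 (.d k243 k162 k166 12
  14))))] .n) (.c k235 (.l (.s k215 k20 8 (.s k28 k44 3 (.s k89 k211 10 (.s k81 k93 1 (.d k243 k162
  k166 12 14)))))) .n)))) .n))) (.c k8 (.q k136 [(.s k204 k68 9 (.s k153 k187 4 (.s k51 k102 14 (.d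
  k17 k34 k221 4 9)))), (.s k204 k68 9 (.s k140 k76 7 (.s k128 k132 1 (.s k149 k191 6 (.s k21 k213 7
  (.s k63 k42 6 (.d k192 k64 k106 7 14)))))))] (.c k68 (.l (.s k153 k187 4 (.s k17 k221 9 (.s k51
  k34 4 (.s k25 k38 6 (.s k89 k217 7 (.s k81 k93 1 (.d k243 k162 k166 12 14)))))))) (.c k204 (.f
  k153 k187 4 (.q k51 [(.d k17 k221 k34 9 4), (.s k25 k38 6 (.s k89 k217 7 (.s k81 k93 1 (.d k243
  k162 k166 12 14))))] (.c k221 (.q k238 [(.d k34 k17 k102 4 9), (.s k25 k38 6 (.s k89 k217 7 (.s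
  k81 k93 1 (.d k243 k162 k166 12 14))))] .n) (.c k238 (.l (.s k221 k17 9 (.s k25 k38 6 (.s k89 k217
  7 (.s k81 k93 1 (.d k243 k162 k166 12 14)))))) .n)))) .n))) (.c k81 (.q k5 [(.s k15 k10 2 (.s k165
  k245 11 (.s k240 k90 14 (.d k160 k175 k80 2 11)))), (.s k4 k8 1 (.s k6 k7 0 (.s k9 k3 2 (.s k13 k1
  1 (.d k15 k14 k10 0 2))))), (.s k4 k8 1 (.s k165 k245 11 (.s k160 k175 2 (.s k166 k247 12 (.s k164
  k167 0 (.d k240 k80 k88 11 13))))))] (.c k15 (.l (.s k4 k8 1 (.s k7 k6 0 (.s k165 k245 11 (.s k86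
  k244 12 (.s k87 k84 0 (.d k247 k167 k166 11 12))))))) .n)) (.c k89 (.q k5 [(.s k165 k245 11 (.s
  k160 k175 2 (.s k240 k80 11 (.d k15 k10 k90 2 14)))), (.s k4 k8 1 (.s k6 k7 0 (.s k9 k3 2 (.s k13
  k1 1 (.d k15 k14 k10 0 2)))))] (.c k10 (.l (.s k4 k8 1 (.s k165 k245 11 (.s k160 k175 2 (.s k166
  k247 12 (.s k164 k167 0 (.d k240 k80 k88 11 13))))))) (.c k15 (.l (.s k4 k8 1 (.s k7 k6 0 (.s k165
  k245 11 (.s k86 k244 12 (.s k87 k84 0 (.d k247 k167 k166 11 12))))))) .n))) (.c k162 (.f k4 k8 1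
  (.q k134 [(.s k69 k199 8 (.s k73 k195 10 (.s k77 k65 1 (.d k207 k142 k138 8 10)))), (.s k166 k247
  12 (.s k150 k182 3 (.s k130 k190 5 (.d k195 k65 k73 8 10)))), (.s k69 k199 8 (.s k101 k117 3 (.s
  k32 k239 10 (.s k48 k16 3 (.d k207 k138 k154 10 14)))))] (.c k82 (.q k242 [(.s k69 k199 8 (.s k73
  k195 10 (.s k77 k65 1 (.d k207 k142 k138 8 10)))), (.s k166 k247 12 (.s k150 k182 3 (.s k130 k190
  5 (.d k195 k65 k73 8 10)))), (.s k69 k199 8 (.s k101 k117 3 (.s k32 k239 10 (.s k48 k16 3 (.d k207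
  k138 k154 10 14)))))] .n) (.c k242 (.q k82 [(.s k69 k199 8 (.s k73 k195 10 (.s k77 k65 1 (.d k207
  k142 k138 8 10)))), (.s k166 k247 12 (.s k150 k182 3 (.s k130 k190 5 (.d k195 k65 k73 8 10)))),
  (.s k69 k199 8 (.s k101 k117 3 (.s k32 k239 10 (.s k48 k16 3 (.d k207 k138 k154 10 14)))))] .n)
  .n)))) (.c k166 (.q k10 [(.s k15 k5 2 (.s k90 k250 11 (.s k80 k95 2 (.d k240 k160 k165 11 14)))),
  (.s k5 k15 2 (.s k8 k4 1 (.s k9 k11 0 (.s k1 k13 1 (.s k89 k251 12 (.d k169 k253 k249 13 11)))))),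
  (.s k8 k4 1 (.s k11 k9 0 (.s k89 k251 12 (.s k90 k250 11 (.s k88 k91 0 (.d k248 k168 k169 11
  12))))))] .n) (.c k174 (.l (.s k8 k4 1 (.s k89 k251 12 (.s k81 k93 1 (.d k243 k162 k166 12 14)))))
  (.c k243 (.f k4 k8 1 (.q k69 [(.s k101 k117 3 (.s k32 k239 10 (.s k48 k16 3 (.d k207 k138 k154 10
  14)))), (.s k134 k199 8 (.s k73 k195 10 (.s k77 k65 1 (.d k207 k142 k138 8 10)))), (.s k101 k117 3
  (.s k199 k134 8 (.s k52 k150 12 (.s k36 k20 3 (.d k166 k247 k231 12 8)))))] (.c k247 (.q k251 [(.s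
  k101 k117 3 (.s k32 k239 10 (.s k48 k16 3 (.d k207 k138 k154 10 14)))), (.s k134 k199 8 (.s k73
  k195 10 (.s k77 k65 1 (.d k207 k142 k138 8 10)))), (.s k101 k117 3 (.s k199 k134 8 (.s k52 k150 12
  (.s k36 k20 3 (.s k48 k24 5 (.d k32 k16 k239 3 10))))))] .n) (.c k251 (.l (.s k247 k166 12 (.s
  k101 k117 3 (.s k32 k239 10 (.s k48 k16 3 (.d k207 k138 k154 10 14)))))) .n)))) (.c k247 (.l (.s
  k8 k4 1 (.s k89 k251 12 (.s k243 k166 14 (.d k81 k93 k162 1 12))))) (.c k251 (.l (.s k4 k8 1 (.s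
  k166 k247 12 (.s k243 k89 14 (.d k162 k174 k81 1 12))))) .n))))))))))))

def t2_174 : T TT 256 :=
  (.q k90 [(.s k80 k95 2 (.s k240 k160 11 (.s k165 k15 14 (.s k245 k5 11 (.d k255 k250 k170 2
  14)))))] (.c k5 (.q k12 [(.s k8 k4 1 (.s k170 k255 14 (.s k89 k251 12 (.s k81 k93 1 (.d k243 k162
  k166 12 14))))), (.s k4 k8 1 (.s k80 k95 2 (.s k166 k247 12 (.s k14 k242 13 (.s k15 k13 0 (.d k240
  k160 k165 11 14)))))), (.s k80 k95 2 (.s k240 k160 11 (.s k88 k164 13 (.s k89 k91 0 (.s k81 k93 1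
  (.d k243 k162 k166 12 14)))))), (.s k8 k4 1 (.s k80 k95 2 (.s k170 k255 14 (.s k89 k251 12 (.s k88
  k91 0 (.d k240 k160 k164 11 13))))))] .n) (.c k15 (.q k16 [(.s k48 k32 3 (.s k154 k223 10 (.s k101
  k207 14 (.s k117 k69 3 (.d k255 k186 k170 10 14))))), (.s k80 k95 2 (.s k154 k223 10 (.s k26 k218
  7 (.s k31 k21 2 (.d k208 k144 k149 7 10))))), (.s k48 k32 3 (.s k80 k95 2 (.s k144 k208 7 (.s k96
  k192 11 (.s k112 k64 3 (.d k240 k176 k160 7 11))))))] (.c k255 (.l (.s k95 k80 2 (.s k223 k154 10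
  (.s k31 k159 7 (.s k21 k26 2 (.d k149 k213 k208 7 10)))))) .n)) (.c k80 (.q k16 [(.s k48 k32 3 (.s
  k154 k223 10 (.s k101 k207 14 (.s k117 k69 3 (.d k255 k186 k170 10 14))))), (.s k48 k32 3 (.s k154
  k223 10 (.s k26 k218 7 (.s k15 k37 6 (.s k5 k10 2 (.d k165 k245 k240 11 14)))))), (.s k154 k223 10
  (.s k26 k218 7 (.s k21 k31 2 (.s k42 k63 6 (.s k170 k255 14 (.d k10 k58 k250 3 11)))))), (.s k48
  k32 3 (.s k170 k255 14 (.s k10 k250 11 (.s k15 k5 2 (.s k26 k37 6 (.s k21 k31 2 (.d k42 k58 k63 3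
  6)))))))] .n) (.c k95 (.q k16 [(.s k48 k32 3 (.s k154 k223 10 (.s k101 k207 14 (.s k117 k69 3 (.d
  k255 k186 k170 10 14))))), (.s k48 k32 3 (.s k154 k223 10 (.s k26 k218 7 (.s k15 k37 6 (.s k5 k10
  2 (.d k165 k245 k240 11 14)))))), (.s k48 k32 3 (.s k170 k255 14 (.s k10 k250 11 (.s k15 k5 2 (.s
  k26 k37 6 (.s k42 k58 3 (.d k21 k31 k63 2 6))))))), (.s k154 k223 10 (.s k26 k218 7 (.s k170 k255
  14 (.s k10 k250 11 (.s k42 k58 3 (.d k21 k31 k63 2 6))))))] (.c k31 (.l (.s k48 k32 3 (.s k255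
  k170 14 (.s k117 k186 10 (.s k101 k69 3 (.d k154 k223 k207 10 14)))))) .n)) (.c k160 (.l (.s k95
  k80 2 (.s k255 k170 14 (.s k15 k175 11 (.s k165 k240 14 (.d k5 k10 k245 2 11)))))) (.c k165 (.q
  k12 [(.s k8 k4 1 (.s k170 k255 14 (.s k89 k251 12 (.s k81 k93 1 (.d k243 k162 k166 12 14))))), (.s
  k80 k95 2 (.s k240 k160 11 (.s k88 k164 13 (.s k89 k91 0 (.s k81 k93 1 (.d k243 k166 k162 14
  12)))))), (.s k4 k8 1 (.s k80 k95 2 (.s k166 k247 12 (.s k89 k243 14 (.s k88 k91 0 (.d k240 k160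
  k164 11 13))))))] (.c k89 (.l (.s k4 k8 1 (.s k166 k247 12 (.s k14 k242 13 (.s k170 k255 14 (.s
  k10 k250 11 (.d k15 k13 k5 0 2))))))) (.c k166 (.l (.s k8 k4 1 (.s k80 k95 2 (.s k170 k255 14 (.s
  k89 k251 12 (.s k88 k91 0 (.d k240 k160 k164 11 13))))))) (.c k243 (.l (.s k4 k8 1 (.s k95 k80 2
  (.s k166 k247 12 (.s k14 k242 13 (.s k15 k13 0 (.d k255 k175 k170 11 14))))))) .n)))) (.c k170 (.f
  k80 k95 2 (.q k166 [(.s k4 k247 12 (.s k12 k8 1 (.s k14 k242 13 (.s k15 k13 0 (.d k240 k160 k165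
  11 14))))), (.s k4 k247 12 (.s k240 k160 11 (.s k165 k15 14 (.s k5 k245 11 (.s k7 k6 0 (.s k164
  k167 0 (.d k244 k86 k84 12 11))))))), (.s k4 k247 12 (.s k12 k8 1 (.s k89 k243 14 (.s k81 k93 1
  (.s k83 k82 0 (.s k88 k91 0 (.d k92 k86 k84 2 1))))))), (.s k240 k160 11 (.s k242 k14 13 (.s k243
  k241 0 (.s k81 k162 12 (.d k89 k93 k12 1 14)))))] (.c k86 (.q k254 [(.s k4 k247 12 (.s k12 k8 1
  (.s k14 k242 13 (.s k15 k13 0 (.d k240 k160 k165 11 14))))), (.s k240 k160 11 (.s k165 k15 14 (.s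
  k242 k14 13 (.s k245 k5 11 (.d k250 k255 k246 2 1))))), (.s k4 k247 12 (.s k12 k8 1 (.s k89 k243
  14 (.s k88 k91 0 (.d k240 k160 k164 11 13)))))] (.c k12 (.l (.s k240 k160 11 (.s k165 k15 14 (.s
  k245 k5 11 (.s k247 k4 12 (.s k246 k244 0 (.d k242 k14 k250 13 1))))))) (.c k15 (.l (.s k4 k247 12
  (.s k12 k8 1 (.s k89 k243 14 (.s k240 k160 11 (.d k88 k91 k164 0 13)))))) (.c k160 (.l (.s k4 k247
  12 (.s k12 k8 1 (.s k14 k242 13 (.s k15 k13 0 (.s k5 k10 2 (.d k165 k245 k240 11 14))))))) (.c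
  k240 (.f k4 k247 12 (.l (.s k12 k8 1 (.s k14 k242 13 (.s k15 k13 0 (.s k5 k10 2 (.s k165 k245 11
  (.s k167 k164 0 (.d k243 k89 k91 14 13))))))))) .n))))) (.c k254 (.q k86 [(.s k84 k87 0 (.s k92
  k88 1 (.s k83 k89 2 (.d k82 k94 k81 1 0)))), (.s k4 k247 12 (.s k6 k246 11 (.s k7 k5 0 (.s k240
  k160 11 (.d k165 k244 k15 12 14)))))] (.c k14 (.l (.s k94 k82 1 (.s k84 k87 0 (.s k240 k160 11 (.s
  k252 k168 13 (.d k15 k165 k173 14 12)))))) (.c k94 (.l (.s k14 k242 13 (.s k4 k247 12 (.s k12 k8 1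
  (.s k15 k13 0 (.d k240 k160 k165 11 14)))))) .n))) .n)))) (.c k175 (.l (.s k80 k95 2 (.s k240 k160
  11 (.s k15 k165 14 (.s k170 k255 14 (.d k10 k5 k250 2 11)))))) (.c k240 (.q k21 [(.s k95 k80 2 (.s
  k149 k213 7 (.s k31 k208 10 (.s k16 k26 2 (.d k223 k159 k154 7 10))))), (.s k63 k42 6 (.s k149
  k213 7 (.s k170 k255 14 (.s k128 k191 6 (.d k192 k64 k106 7 14))))), (.s k63 k42 6 (.s k95 k80 2
  (.s k255 k170 14 (.s k15 k175 11 (.s k31 k47 3 (.s k16 k26 2 (.d k223 k159 k154 7 10)))))))] .n)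
  (.c k245 (.l (.s k80 k95 2 (.s k170 k255 14 (.s k10 k250 11 (.s k240 k160 11 (.d k15 k5 k165 2
  14)))))) (.c k250 (.l (.s k95 k80 2 (.s k255 k170 14 (.s k15 k175 11 (.s k5 k10 2 (.d k165 k245
  k240 11 14)))))) (.c k255 (.q k12 [(.s k4 k8 1 (.s k80 k95 2 (.s k166 k247 12 (.s k240 k160 11 (.s
  k15 k165 14 (.d k14 k13 k242 0 13)))))), (.s k80 k95 2 (.s k240 k160 11 (.s k88 k164 13 (.s k89
  k91 0 (.s k81 k93 1 (.d k243 k162 k166 12 14)))))), (.s k4 k8 1 (.s k166 k247 12 (.s k14 k242 13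
  (.s k15 k13 0 (.s k5 k10 2 (.d k165 k245 k240 11 14)))))), (.s k8 k4 1 (.s k80 k95 2 (.s k240 k160
  11 (.s k88 k164 13 (.s k84 k92 1 (.d k168 k248 k252 11 13))))))] (.c k15 (.l (.s k4 k8 1 (.s k166
  k247 12 (.s k242 k14 13 (.s k243 k89 14 (.s k240 k241 0 (.d k80 k95 k160 2 11))))))) (.c k240 (.f
  k4 k8 1 (.l (.s k166 k247 12 (.s k14 k242 13 (.s k15 k13 0 (.s k5 k10 2 (.s k243 k89 14 (.s k167
  k91 13 (.d k165 k164 k245 0 11))))))))) .n))) .n)))))))))))))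

def t2_175 : T TT 256 :=
  (.q k89 [(.s k81 k93 1 (.s k243 k162 12 (.s k166 k12 14 (.s k247 k4 12 (.d k255 k251 k170 1
  14))))), (.s k93 k81 1 (.s k255 k170 14 (.s k12 k174 12 (.s k166 k243 14 (.d k4 k8 k247 1 12)))))]
  (.c k4 (.q k1 [(.s k81 k93 1 (.s k169 k253 13 (.s k9 k249 11 (.s k241 k161 11 (.d k13 k5 k165 1
  13))))), (.s k169 k253 13 (.s k9 k249 11 (.s k170 k255 14 (.s k8 k251 12 (.s k10 k11 0 (.d k5 k15
  k13 2 1)))))), (.s k81 k93 1 (.s k241 k161 11 (.s k243 k162 12 (.s k253 k169 13 (.s k245 k249 1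
  (.s k255 k170 14 (.d k240 k242 k250 0 2))))))), (.s k81 k93 1 (.s k241 k161 11 (.s k13 k165 13 (.s
  k5 k9 1 (.s k15 k10 2 (.s k243 k162 12 (.d k12 k14 k166 0 14)))))))] (.c k169 (.l (.s k81 k93 1
  (.s k241 k161 11 (.s k165 k13 13 (.s k5 k245 11 (.s k15 k10 2 (.s k240 k90 14 (.d k243 k242 k162 0
  12)))))))) (.c k241 (.l (.s k81 k93 1 (.s k169 k253 13 (.s k170 k255 14 (.s k168 k171 0 (.s k243
  k162 12 (.s k249 k9 11 (.d k252 k246 k84 2 13)))))))) .n))) (.c k12 (.q k16 [(.s k48 k32 3 (.s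
  k154 k223 10 (.s k101 k207 14 (.s k117 k69 3 (.d k255 k186 k170 10 14))))), (.s k81 k93 1 (.s k154
  k223 10 (.s k24 k219 8 (.s k28 k20 1 (.d k211 k146 k150 8 10))))), (.s k48 k32 3 (.s k81 k93 1 (.s
  k146 k211 8 (.s k97 k195 12 (.s k113 k65 3 (.d k243 k178 k162 8 12))))))] (.c k255 (.l (.s k93 k81
  1 (.s k223 k154 10 (.s k28 k158 8 (.s k20 k24 1 (.d k150 k215 k211 8 10)))))) .n)) (.c k81 (.q k16
  [(.s k48 k32 3 (.s k154 k223 10 (.s k101 k207 14 (.s k117 k69 3 (.d k255 k186 k170 10 14))))), (.s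
  k48 k32 3 (.s k154 k223 10 (.s k24 k219 8 (.s k12 k36 5 (.s k4 k8 1 (.d k166 k247 k243 12
  14)))))), (.s k154 k223 10 (.s k24 k219 8 (.s k20 k28 1 (.s k40 k60 5 (.s k170 k255 14 (.d k8 k56
  k251 3 12)))))), (.s k48 k32 3 (.s k170 k255 14 (.s k8 k251 12 (.s k12 k4 1 (.s k24 k36 5 (.s k20
  k28 1 (.d k40 k56 k60 3 5)))))))] .n) (.c k93 (.q k16 [(.s k48 k32 3 (.s k154 k223 10 (.s k101
  k207 14 (.s k117 k69 3 (.d k255 k186 k170 10 14))))), (.s k48 k32 3 (.s k154 k223 10 (.s k24 k219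
  8 (.s k12 k36 5 (.s k4 k8 1 (.d k166 k247 k243 12 14)))))), (.s k48 k32 3 (.s k170 k255 14 (.s k8
  k251 12 (.s k12 k4 1 (.s k24 k36 5 (.s k40 k56 3 (.d k20 k28 k60 1 5))))))), (.s k154 k223 10 (.s
  k24 k219 8 (.s k170 k255 14 (.s k8 k251 12 (.s k40 k56 3 (.d k20 k28 k60 1 5))))))] (.c k28 (.l
  (.s k48 k32 3 (.s k255 k170 14 (.s k117 k186 10 (.s k101 k69 3 (.d k154 k223 k207 10 14)))))) .n))
  (.c k162 (.l (.s k93 k81 1 (.s k255 k170 14 (.s k12 k174 12 (.s k166 k243 14 (.d k4 k8 k247 1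
  12)))))) (.c k166 (.q k15 [(.s k10 k5 2 (.s k170 k255 14 (.s k90 k250 11 (.s k80 k95 2 (.d k240
  k160 k165 11 14))))), (.s k5 k10 2 (.s k93 k81 1 (.s k165 k245 11 (.s k13 k241 13 (.s k1 k9 1 (.d
  k253 k173 k169 11 13)))))), (.s k81 k93 1 (.s k243 k162 12 (.s k91 k167 13 (.s k90 k88 0 (.s k80
  k95 2 (.d k240 k165 k160 14 11))))))] (.c k165 (.l (.s k10 k5 2 (.s k81 k93 1 (.s k170 k255 14 (.s
  k90 k250 11 (.s k91 k88 0 (.d k243 k162 k167 12 13))))))) .n)) (.c k170 (.f k81 k93 1 (.q k165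
  [(.s k241 k13 13 (.s k1 k161 11 (.s k245 k5 11 (.d k253 k249 k169 1 13)))), (.s k5 k245 11 (.s k15
  k10 2 (.s k90 k240 14 (.s k91 k88 0 (.d k243 k162 k167 12 13))))), (.s k241 k13 13 (.s k243 k162
  12 (.s k166 k12 14 (.s k167 k164 0 (.s k15 k91 13 (.d k240 k242 k90 0 14))))))] (.c k86 (.q k254
  [(.s k241 k13 13 (.s k1 k161 11 (.s k245 k5 11 (.d k253 k249 k169 1 13)))), (.s k5 k245 11 (.s k15
  k10 2 (.s k90 k240 14 (.s k91 k88 0 (.d k243 k162 k167 12 13)))))] (.c k5 (.l (.s k241 k13 13 (.s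
  k1 k161 11 (.s k243 k162 12 (.s k253 k169 13 (.s k249 k245 1 (.d k252 k255 k246 0 2))))))) (.c
  k245 (.l (.s k241 k13 13 (.s k161 k1 11 (.s k243 k162 12 (.s k240 k242 0 (.s k82 k3 12 (.d k80 k83
  k160 0 11))))))) .n))) (.c k254 (.q k86 [(.s k241 k13 13 (.s k1 k161 11 (.s k245 k5 11 (.d k253
  k249 k169 1 13)))), (.s k83 k92 2 (.s k80 k82 0 (.s k87 k84 0 (.d k95 k91 k90 1 2))))] .n) .n))))
  (.c k174 (.l (.s k81 k93 1 (.s k243 k162 12 (.s k12 k166 14 (.s k170 k255 14 (.d k8 k4 k251 1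
  12)))))) (.c k243 (.q k20 [(.s k60 k40 5 (.s k150 k215 8 (.s k105 k195 14 (.s k125 k65 5 (.d k255
  k190 k170 8 14))))), (.s k93 k81 1 (.s k150 k215 8 (.s k28 k211 10 (.s k16 k24 1 (.d k223 k158
  k154 8 10))))), (.s k60 k40 5 (.s k93 k81 1 (.s k255 k170 14 (.s k12 k174 12 (.s k28 k44 3 (.s k16
  k24 1 (.d k223 k158 k154 8 10)))))))] .n) (.c k247 (.l (.s k81 k93 1 (.s k170 k255 14 (.s k8 k251
  12 (.s k243 k162 12 (.d k12 k4 k166 1 14)))))) (.c k255 (.q k15 [(.s k81 k93 1 (.s k243 k162 12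
  (.s k12 k166 14 (.s k13 k14 0 (.s k165 k241 13 (.d k5 k10 k245 2 11)))))), (.s k81 k93 1 (.s k243
  k162 12 (.s k91 k167 13 (.s k90 k88 0 (.s k80 k95 2 (.d k240 k160 k165 11 14)))))), (.s k5 k10 2
  (.s k93 k81 1 (.s k165 k245 11 (.s k13 k241 13 (.s k1 k9 1 (.d k253 k173 k169 11 13))))))] (.c k81
  (.l (.s k5 k10 2 (.s k165 k245 11 (.s k240 k90 14 (.s k241 k13 13 (.s k243 k242 0 (.s k166 k12 14
  (.d k167 k164 k91 0 13)))))))) (.c k93 (.l (.s k5 k10 2 (.s k165 k245 11 (.s k13 k241 13 (.s k9 k1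
  1 (.s k12 k14 0 (.s k6 k3 2 (.d k4 k7 k8 0 1)))))))) (.c k165 (.f k5 k10 2 (.l (.s k81 k93 1 (.s
  k243 k162 12 (.s k12 k166 14 (.s k4 k8 1 (.s k6 k7 0 (.s k9 k3 2 (.d k13 k14 k1 0 1)))))))))
  .n)))) .n))))))))))))

def t2_188 : T TT 256 :=
  (.f k170 k255 14 (.q k240 [(.s k80 k160 11 (.s k90 k95 2 (.s k10 k250 11 (.d k15 k5 k165 2 14))))]
  (.c k5 (.q k4 [(.s k12 k8 1 (.s k166 k247 12 (.s k162 k174 1 (.d k243 k81 k89 12 14)))), (.s k12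
  k8 1 (.s k160 k80 11 (.s k164 k88 13 (.s k84 k244 11 (.d k168 k172 k252 1 13))))), (.s k80 k160 11
  (.s k90 k95 2 (.s k166 k247 12 (.s k242 k14 13 (.s k243 k241 0 (.d k162 k174 k81 1 12))))))] .n)
  (.c k10 (.f k160 k80 11 (.f k175 k165 2 (.q k176 [(.s k48 k112 7 (.s k32 k16 3 (.s k96 k224 7 (.d
  k144 k128 k192 3 11)))), (.s k48 k112 7 (.s k16 k32 3 (.s k154 k223 10 (.s k138 k186 3 (.d k207
  k69 k101 10 14))))), (.s k128 k144 3 (.s k149 k191 6 (.s k21 k213 7 (.s k63 k42 6 (.d k192 k64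
  k106 7 14)))))] (.c k6 (.q k14 [(.s k48 k112 7 (.s k32 k16 3 (.s k96 k224 7 (.d k144 k128 k192 3
  11)))), (.s k48 k112 7 (.s k16 k32 3 (.s k154 k223 10 (.s k138 k186 3 (.d k207 k69 k101 10
  14))))), (.s k128 k144 3 (.s k149 k191 6 (.s k21 k213 7 (.s k63 k42 6 (.d k192 k64 k106 7 14)))))]
  (.c k16 (.l (.s k48 k112 7 (.s k144 k128 3 (.s k96 k192 11 (.s k32 k224 7 (.s k101 k239 10 (.s k69
  k117 3 (.d k207 k138 k154 10 14)))))))) (.c k64 (.l (.s k144 k128 3 (.s k48 k112 7 (.s k96 k192 11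
  (.d k32 k16 k224 3 7))))) .n))) (.c k14 (.q k6 [(.s k48 k112 7 (.s k32 k16 3 (.s k96 k224 7 (.d
  k144 k128 k192 3 11)))), (.s k48 k112 7 (.s k16 k32 3 (.s k154 k223 10 (.s k138 k186 3 (.d k207
  k69 k101 10 14))))), (.s k128 k144 3 (.s k149 k191 6 (.s k21 k213 7 (.s k63 k42 6 (.d k192 k64
  k106 7 14)))))] (.c k16 (.l (.s k48 k112 7 (.s k144 k128 3 (.s k96 k192 11 (.s k32 k224 7 (.s k101
  k239 10 (.s k69 k117 3 (.d k207 k138 k154 10 14)))))))) (.c k64 (.l (.s k144 k128 3 (.s k48 k112 7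
  (.s k96 k192 11 (.d k32 k16 k224 3 7))))) .n))) (.c k16 (.l (.s k48 k112 7 (.s k144 k128 3 (.s k96
  k192 11 (.s k32 k224 7 (.s k101 k239 10 (.s k69 k117 3 (.d k207 k138 k154 10 14)))))))) (.c k64
  (.l (.s k144 k128 3 (.s k48 k112 7 (.s k96 k192 11 (.d k32 k16 k224 3 7))))) .n))))))) (.c k15 (.f
  k80 k160 11 (.q k81 [(.s k82 k83 0 (.s k243 k162 12 (.s k241 k242 0 (.d k161 k1 k3 11 12)))), (.s
  k89 k93 1 (.s k8 k251 12 (.s k12 k4 1 (.s k88 k164 13 (.d k90 k95 k91 2 0)))))] (.c k95 (.q k175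
  [(.s k82 k83 0 (.s k243 k162 12 (.s k241 k242 0 (.d k161 k1 k3 11 12)))), (.s k89 k93 1 (.s k8
  k251 12 (.s k12 k4 1 (.s k88 k164 13 (.s k168 k248 11 (.d k84 k92 k252 1 13))))))] (.c k243 (.l
  (.s k83 k82 0 (.s k89 k93 1 (.s k92 k86 2 (.s k88 k84 1 (.s k12 k164 13 (.d k8 k4 k251 1 12)))))))
  .n)) (.c k175 (.l (.s k95 k90 2 (.s k82 k83 0 (.s k161 k3 12 (.s k241 k1 11 (.d k243 k242 k162 0
  12)))))) (.c k243 (.l (.s k83 k82 0 (.s k89 k93 1 (.s k86 k92 2 (.s k87 k84 0 (.d k95 k91 k90 1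
  2)))))) .n))))) (.c k80 (.q k252 [(.s k84 k168 13 (.s k86 k87 0 (.s k244 k248 1 (.s k165 k7 12 (.s
  k5 k245 11 (.d k15 k10 k90 2 14)))))), (.s k84 k168 13 (.s k244 k248 1 (.s k4 k164 11 (.s k166
  k247 12 (.s k162 k174 1 (.s k243 k81 12 (.d k12 k8 k89 1 14))))))), (.s k84 k168 13 (.s k86 k87 0
  (.s k3 k169 14 (.s k82 k161 12 (.s k90 k94 1 (.s k10 k250 11 (.d k15 k165 k5 14 2))))))), (.s k168
  k84 13 (.s k169 k171 0 (.s k248 k244 1 (.s k90 k11 12 (.s k10 k250 11 (.d k15 k5 k165 2 14))))))]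
  (.c k84 (.q k86 [(.s k244 k248 1 (.s k165 k7 12 (.s k5 k245 11 (.d k15 k10 k90 2 14)))), (.s k169
  k3 14 (.s k171 k168 0 (.s k248 k244 1 (.s k11 k90 12 (.s k251 k91 11 (.s k89 k8 12 (.d k249 k250
  k9 0 11))))))), (.s k3 k169 14 (.s k82 k161 12 (.s k90 k94 1 (.s k10 k250 11 (.d k15 k165 k5 14
  2)))))] (.c k88 (.q k92 [(.s k12 k172 11 (.s k8 k4 1 (.d k89 k83 k251 2 12))), (.s k244 k248 1 (.s
  k165 k7 12 (.s k5 k245 11 (.d k15 k10 k90 2 14)))), (.s k12 k172 11 (.s k89 k83 2 (.s k81 k93 1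
  (.d k243 k162 k166 12 14))))] .n) (.c k90 (.l (.s k169 k3 14 (.s k244 k248 1 (.s k165 k7 12 (.s k5
  k245 11 (.s k15 k10 2 (.d k173 k161 k94 1 12))))))) (.c k92 (.q k88 [(.s k248 k244 1 (.s k8 k168
  11 (.d k12 k4 k164 1 13))), (.s k244 k248 1 (.s k165 k7 12 (.s k5 k245 11 (.d k15 k10 k90 2
  14))))] (.c k244 (.l (.s k3 k169 14 (.s k12 k164 13 (.s k4 k8 1 (.s k6 k9 2 (.d k166 k246 k247 11
  12)))))) (.c k248 (.l (.s k3 k169 14 (.s k12 k164 13 (.s k4 k8 1 (.s k6 k9 2 (.d k166 k246 k247 11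
  12)))))) .n))) .n)))) (.c k168 (.q k192 [(.s k128 k64 7 (.s k149 k191 6 (.s k21 k213 7 (.d k63 k42
  k106 6 14)))), (.s k208 k224 3 (.s k212 k232 5 (.s k216 k220 1 (.s k228 k204 5 (.d k244 k248 k196
  1 3)))))] (.c k128 (.q k148 [(.s k212 k232 5 (.s k20 k84 7 (.d k60 k40 k104 5 13))), (.s k224 k208
  3 (.s k232 k212 5 (.s k228 k236 1 (.s k216 k204 5 (.d k248 k244 k200 1 3))))), (.s k104 k60 13 (.s
  k208 k224 3 (.s k88 k28 9 (.s k12 k164 13 (.d k72 k120 k132 3 9)))))] .n) (.c k148 (.l (.s k128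
  k64 7 (.s k149 k191 6 (.s k21 k213 7 (.d k63 k42 k106 6 14))))) .n))) .n))) (.c k90 (.q k4 [(.s
  k12 k8 1 (.s k166 k247 12 (.s k162 k174 1 (.d k243 k81 k89 12 14)))), (.s k12 k8 1 (.s k160 k80 11
  (.s k164 k88 13 (.s k84 k244 11 (.d k168 k172 k252 1 13))))), (.s k160 k80 11 (.s k165 k175 2 (.s
  k166 k247 12 (.s k164 k167 0 (.s k84 k244 11 (.d k168 k172 k252 1 13))))))] .n) (.c k95 (.l (.s
  k160 k80 11 (.s k165 k175 2 (.s k15 k90 14 (.d k5 k10 k245 2 11))))) (.c k160 (.q k89 [(.s k8 k251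
  12 (.s k12 k4 1 (.s k81 k93 1 (.d k243 k162 k166 12 14)))), (.s k81 k93 1 (.s k243 k162 12 (.s k12
  k166 14 (.s k88 k164 13 (.s k90 k91 0 (.s k10 k250 11 (.d k15 k165 k5 14 2))))))), (.s k8 k251 12
  (.s k12 k4 1 (.s k88 k164 13 (.s k90 k91 0 (.s k10 k250 11 (.d k15 k5 k165 2 14))))))] (.c k12 (.q
  k90 [(.s k10 k250 11 (.d k15 k5 k165 2 14)), (.s k15 k165 14 (.s k91 k88 0 (.s k243 k167 13 (.d
  k81 k93 k162 1 12)))), (.s k8 k251 12 (.s k10 k250 11 (.s k11 k9 0 (.s k88 k91 0 (.d k248 k168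
  k169 11 12)))))] (.c k93 (.q k174 [(.s k10 k250 11 (.d k15 k5 k165 2 14)), (.s k15 k165 14 (.s k91
  k88 0 (.s k162 k166 1 (.d k243 k167 k81 13 12)))), (.s k8 k251 12 (.s k10 k250 11 (.s k11 k9 0 (.s
  k88 k91 0 (.d k248 k168 k169 11 12)))))] .n) (.c k174 (.l (.s k93 k81 1 (.s k10 k250 11 (.d k15 k5
  k165 2 14)))) .n))) (.c k243 (.q k84 [(.s k86 k87 0 (.s k92 k83 2 (.s k80 k88 1 (.s k93 k81 1 (.d
  k95 k94 k90 0 2))))), (.s k86 k87 0 (.s k251 k8 12 (.s k252 k168 13 (.s k248 k244 1 (.s k249 k250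
  0 (.d k169 k3 k9 14 11)))))), (.s k252 k168 13 (.s k244 k248 1 (.s k164 k4 11 (.s k88 k12 13 (.s
  k80 k92 1 (.d k90 k91 k95 0 2))))))] (.c k88 (.l (.s k81 k93 1 (.s k86 k87 0 (.s k83 k92 2 (.s k82
  k80 0 (.s k3 k161 12 (.d k252 k168 k169 13 14))))))) (.c k247 (.l (.s k251 k8 12 (.s k86 k87 0 (.s
  k92 k83 2 (.s k80 k88 1 (.s k93 k81 1 (.d k95 k94 k90 0 2))))))) (.c k251 (.q k247 [(.s k4 k166 12
  (.s k12 k8 1 (.d k164 k244 k88 11 13))), (.s k86 k87 0 (.s k92 k83 2 (.s k80 k88 1 (.s k93 k81 1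
  (.d k95 k94 k90 0 2)))))] (.c k88 (.l (.s k4 k166 12 (.s k244 k164 11 (.d k252 k168 k248 13 1))))
  .n)) .n)))) .n))) (.c k165 (.q k4 [(.s k12 k8 1 (.s k166 k247 12 (.s k162 k174 1 (.d k243 k81 k89
  12 14)))), (.s k12 k8 1 (.s k160 k80 11 (.s k164 k88 13 (.s k84 k244 11 (.d k168 k172 k252 1
  13))))), (.s k80 k160 11 (.s k90 k95 2 (.s k166 k247 12 (.s k242 k14 13 (.s k243 k241 0 (.d k162
  k174 k81 1 12))))))] .n) (.c k175 (.l (.s k80 k160 11 (.s k90 k95 2 (.s k15 k165 14 (.d k10 k5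
  k250 2 11))))) (.c k250 (.l (.s k160 k80 11 (.s k165 k175 2 (.s k5 k245 11 (.d k15 k10 k90 2
  14))))) .n))))))))))))

def t2_189 : T TT 256 :=
  (.f k170 k255 14 (.q k240 [(.s k80 k160 11 (.s k90 k95 2 (.s k10 k250 11 (.d k15 k5 k165 2 14))))]
  (.c k5 (.q k4 [(.s k12 k8 1 (.s k166 k247 12 (.s k162 k174 1 (.d k243 k81 k89 12 14)))), (.s k12
  k8 1 (.s k160 k80 11 (.s k164 k88 13 (.s k84 k244 11 (.d k168 k172 k252 1 13))))), (.s k80 k160 11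
  (.s k90 k95 2 (.s k166 k247 12 (.s k242 k14 13 (.s k243 k241 0 (.d k162 k174 k81 1 12))))))] .n)
  (.c k10 (.f k160 k80 11 (.f k175 k165 2 (.q k4 [(.s k12 k8 1 (.s k166 k247 12 (.s k162 k174 1 (.d
  k243 k81 k89 12 14)))), (.s k12 k8 1 (.s k164 k88 13 (.s k84 k244 11 (.d k168 k172 k252 1 13)))),
  (.s k166 k247 12 (.s k174 k162 1 (.s k172 k173 0 (.s k168 k164 1 (.d k169 k171 k163 0 2)))))] (.c
  k6 (.q k14 [(.s k166 k247 12 (.s k162 k174 1 (.s k242 k90 13 (.d k243 k241 k81 0 12)))), (.s k12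
  k8 1 (.s k164 k88 13 (.s k84 k244 11 (.d k168 k172 k252 1 13))))] (.c k12 (.l (.s k166 k247 12 (.s
  k242 k90 13 (.s k243 k241 0 (.d k162 k174 k81 1 12))))) .n)) (.c k14 (.q k6 [(.s k12 k8 1 (.s k164
  k88 13 (.s k168 k172 1 (.d k84 k244 k252 11 13)))), (.s k166 k247 12 (.s k162 k174 1 (.s k243 k81
  12 (.d k12 k8 k89 1 14)))), (.s k166 k247 12 (.s k86 k246 11 (.s k84 k87 0 (.s k168 k252 13 (.d
  k164 k244 k172 11 1)))))] .n) .n))))) (.c k15 (.f k80 k160 11 (.q k81 [(.s k82 k83 0 (.s k243 k162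
  12 (.s k241 k242 0 (.d k161 k1 k3 11 12)))), (.s k89 k93 1 (.s k8 k251 12 (.s k12 k4 1 (.s k88
  k164 13 (.d k90 k95 k91 2 0)))))] (.c k95 (.q k175 [(.s k82 k83 0 (.s k243 k162 12 (.s k241 k242 0
  (.d k161 k1 k3 11 12)))), (.s k89 k93 1 (.s k8 k251 12 (.s k12 k4 1 (.s k88 k164 13 (.s k168 k248
  11 (.d k84 k92 k252 1 13))))))] (.c k243 (.l (.s k83 k82 0 (.s k89 k93 1 (.s k92 k86 2 (.s k88 k84
  1 (.s k12 k164 13 (.d k8 k4 k251 1 12))))))) .n)) (.c k175 (.l (.s k95 k90 2 (.s k82 k83 0 (.s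
  k161 k3 12 (.s k241 k1 11 (.d k243 k242 k162 0 12)))))) (.c k243 (.l (.s k83 k82 0 (.s k89 k93 1
  (.s k86 k92 2 (.s k87 k84 0 (.d k95 k91 k90 1 2)))))) .n))))) (.c k80 (.q k89 [(.s k8 k251 12 (.s
  k12 k4 1 (.s k81 k93 1 (.d k243 k162 k166 12 14)))), (.s k81 k93 1 (.s k243 k162 12 (.s k12 k166
  14 (.s k88 k164 13 (.s k90 k91 0 (.s k10 k250 11 (.d k15 k165 k5 14 2))))))), (.s k8 k251 12 (.s
  k12 k4 1 (.s k88 k164 13 (.s k90 k91 0 (.s k10 k250 11 (.d k15 k5 k165 2 14))))))] (.c k12 (.q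
  k136 [(.s k204 k68 9 (.s k153 k187 4 (.s k51 k102 14 (.d k17 k34 k221 4 9)))), (.s k8 k251 12 (.s
  k153 k187 4 (.s k25 k217 7 (.s k59 k42 4 (.d k200 k72 k106 7 12))))), (.s k8 k251 12 (.s k68 k204
  9 (.s k72 k200 7 (.s k76 k64 1 (.d k102 k119 k115 4 6)))))] (.c k93 (.q k174 [(.s k153 k187 4 (.s
  k204 k68 9 (.s k51 k102 14 (.d k17 k34 k221 4 9)))), (.s k8 k251 12 (.s k153 k187 4 (.s k25 k217 7
  (.s k59 k42 4 (.d k200 k72 k106 7 12))))), (.s k8 k251 12 (.s k68 k204 9 (.s k72 k200 7 (.s k76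
  k64 1 (.d k102 k119 k115 4 6)))))] (.c k119 (.l (.s k204 k68 9 (.s k153 k187 4 (.s k51 k102 14 (.d
  k17 k34 k221 4 9))))) .n)) (.c k119 (.l (.s k204 k68 9 (.s k153 k187 4 (.s k51 k102 14 (.d k17 k34
  k221 4 9))))) (.c k174 (.l (.s k93 k81 1 (.s k153 k187 4 (.s k17 k221 9 (.s k51 k34 4 (.d k204 k68
  k102 9 14)))))) .n)))) (.c k243 (.q k101 [(.s k32 k239 10 (.s k48 k16 3 (.s k69 k117 3 (.d k207
  k138 k154 10 14)))), (.s k81 k93 1 (.s k113 k77 5 (.s k65 k97 3 (.s k117 k69 3 (.d k125 k121 k105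
  1 5))))), (.s k32 k239 10 (.s k48 k16 3 (.s k77 k113 5 (.s k207 k154 14 (.s k12 k142 8 (.d k8 k251
  k4 12 1))))))] (.c k247 (.l (.s k251 k8 12 (.s k32 k239 10 (.s k48 k16 3 (.s k69 k117 3 (.d k207
  k138 k154 10 14)))))) (.c k251 (.q k247 [(.s k32 k239 10 (.s k48 k16 3 (.s k69 k117 3 (.d k207
  k138 k154 10 14)))), (.s k4 k166 12 (.s k117 k69 3 (.s k52 k182 8 (.s k20 k36 3 (.d k150 k215 k199
  8 12))))), (.s k4 k166 12 (.s k12 k8 1 (.s k32 k239 10 (.s k48 k16 3 (.s k24 k36 5 (.d k154 k207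
  k219 14 8))))))] .n) .n))) .n))) (.c k90 (.q k4 [(.s k12 k8 1 (.s k166 k247 12 (.s k162 k174 1 (.d
  k243 k81 k89 12 14)))), (.s k12 k8 1 (.s k160 k80 11 (.s k164 k88 13 (.s k84 k244 11 (.d k168 k172
  k252 1 13))))), (.s k160 k80 11 (.s k165 k175 2 (.s k166 k247 12 (.s k164 k167 0 (.s k84 k244 11
  (.d k168 k172 k252 1 13))))))] .n) (.c k95 (.l (.s k160 k80 11 (.s k165 k175 2 (.s k15 k90 14 (.d
  k5 k10 k245 2 11))))) (.c k160 (.q k154 [(.s k16 k223 10 (.s k138 k186 3 (.s k207 k69 10 (.d k48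
  k32 k101 3 14)))), (.s k138 k186 3 (.s k207 k69 10 (.s k218 k229 6 (.s k90 k26 7 (.s k10 k250 11
  (.d k15 k5 k165 2 14)))))), (.s k16 k223 10 (.s k48 k32 3 (.s k176 k112 7 (.s k165 k143 6 (.s k5
  k245 11 (.d k15 k10 k90 2 14))))))] (.c k48 (.q k153 [(.s k17 k221 9 (.s k136 k187 4 (.s k204 k68
  9 (.d k51 k34 k102 4 14)))), (.s k16 k223 10 (.s k17 k221 9 (.s k152 k155 0 (.s k220 k84 9 (.d k19
  k18 k86 0 10))))), (.s k16 k223 10 (.s k136 k187 4 (.s k152 k155 0 (.s k168 k184 3 (.d k84 k252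
  k220 13 9)))))] (.c k117 (.l (.s k186 k138 3 (.s k17 k221 9 (.s k51 k34 4 (.s k136 k187 4 (.d k204
  k68 k102 9 14)))))) (.c k186 (.q k117 [(.s k17 k221 9 (.s k51 k34 4 (.s k204 k102 14 (.d k136 k187
  k68 4 9)))), (.s k16 k223 10 (.s k136 k187 4 (.s k152 k155 0 (.s k84 k220 9 (.d k168 k184 k252 3
  13))))), (.s k16 k223 10 (.s k17 k221 9 (.s k152 k155 0 (.s k220 k84 9 (.d k19 k18 k86 0 10)))))]
  (.c k221 (.l (.s k69 k101 3 (.s k136 k187 4 (.s k138 k207 10 (.s k137 k139 0 (.s k1 k205 9 (.d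
  k169 k185 k253 3 13))))))) .n)) .n))) (.c k207 (.q k176 [(.s k48 k112 7 (.d k16 k223 k32 10 3)),
  (.s k165 k143 6 (.s k5 k245 11 (.d k15 k10 k90 2 14)))] (.c k223 (.q k239 [(.s k32 k101 10 (.d k48
  k16 k112 3 7)), (.s k165 k143 6 (.s k5 k245 11 (.d k15 k10 k90 2 14)))] .n) (.c k239 (.l (.s k223
  k16 10 (.s k165 k143 6 (.s k5 k245 11 (.d k15 k10 k90 2 14))))) .n))) .n))) (.c k165 (.q k4 [(.s
  k12 k8 1 (.s k166 k247 12 (.s k162 k174 1 (.d k243 k81 k89 12 14)))), (.s k12 k8 1 (.s k160 k80 11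
  (.s k164 k88 13 (.s k84 k244 11 (.d k168 k172 k252 1 13))))), (.s k80 k160 11 (.s k90 k95 2 (.s
  k166 k247 12 (.s k242 k14 13 (.s k243 k241 0 (.d k162 k174 k81 1 12))))))] .n) (.c k175 (.l (.s
  k80 k160 11 (.s k90 k95 2 (.s k15 k165 14 (.d k10 k5 k250 2 11))))) (.c k250 (.l (.s k160 k80 11
  (.s k165 k175 2 (.s k5 k245 11 (.d k15 k10 k90 2 14))))) .n))))))))))))

def t2_190 : T TT 256 :=
  (.q k89 [(.s k81 k93 1 (.s k243 k162 12 (.s k166 k12 14 (.s k247 k4 12 (.d k255 k251 k170 1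
  14))))), (.s k93 k81 1 (.s k255 k170 14 (.s k12 k174 12 (.s k166 k243 14 (.d k4 k8 k247 1 12)))))]
  (.c k4 (.q k1 [(.s k93 k81 1 (.s k253 k169 13 (.s k13 k173 11 (.s k165 k241 13 (.d k5 k9 k245 1
  11))))), (.s k169 k253 13 (.s k9 k249 11 (.s k170 k255 14 (.s k8 k251 12 (.s k10 k11 0 (.d k5 k13
  k15 1 2)))))), (.s k81 k93 1 (.s k161 k241 11 (.s k162 k243 12 (.s k160 k163 0 (.s k170 k255 14
  (.s k165 k175 2 (.d k169 k173 k253 1 13)))))))] (.c k169 (.l (.s k81 k93 1 (.s k170 k255 14 (.s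
  k241 k161 11 (.s k165 k13 13 (.s k160 k175 2 (.s k240 k80 11 (.d k243 k242 k162 0 12)))))))) (.c
  k241 (.l (.s k81 k93 1 (.s k169 k253 13 (.s k170 k255 14 (.s k168 k171 0 (.s k243 k162 12 (.s k249
  k9 11 (.d k252 k246 k84 2 13)))))))) (.c k253 (.l (.s k81 k93 1 (.s k241 k161 11 (.s k13 k165 13
  (.s k5 k9 1 (.s k15 k10 2 (.s k243 k162 12 (.d k12 k14 k166 0 14)))))))) .n)))) (.c k12 (.q k5
  [(.s k93 k81 1 (.s k165 k245 11 (.s k13 k241 13 (.s k253 k173 11 (.d k1 k9 k169 1 13))))), (.s k15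
  k10 2 (.s k165 k245 11 (.s k90 k240 14 (.s k95 k80 2 (.d k255 k175 k170 11 14))))), (.s k10 k15 2
  (.s k170 k255 14 (.s k8 k251 12 (.s k9 k11 0 (.s k169 k249 11 (.d k1 k13 k253 1 13))))))] .n) (.c
  k81 (.q k15 [(.s k10 k5 2 (.s k170 k255 14 (.s k90 k250 11 (.s k80 k95 2 (.d k240 k160 k165 11
  14))))), (.s k255 k170 14 (.s k95 k175 11 (.s k90 k80 2 (.s k91 k88 0 (.s k243 k167 13 (.s k166
  k12 14 (.d k247 k251 k4 1 12))))))), (.s k170 k255 14 (.s k8 k251 12 (.s k12 k4 1 (.s k13 k14 0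
  (.s k165 k241 13 (.d k5 k10 k245 2 11))))))] (.c k165 (.l (.s k10 k5 2 (.s k170 k255 14 (.s k8
  k251 12 (.s k11 k9 0 (.s k90 k250 11 (.s k88 k91 0 (.d k248 k168 k169 11 12)))))))) (.c k170 (.l
  (.s k5 k10 2 (.s k165 k245 11 (.s k13 k241 13 (.s k90 k240 14 (.s k91 k88 0 (.s k243 k167 13 (.d
  k12 k14 k166 0 14)))))))) (.c k255 (.l (.s k5 k10 2 (.s k165 k245 11 (.s k240 k90 14 (.s k241 k13
  13 (.s k243 k242 0 (.s k166 k12 14 (.d k167 k164 k91 0 13)))))))) .n)))) (.c k93 (.q k15 [(.s k5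
  k10 2 (.s k165 k245 11 (.s k90 k240 14 (.s k95 k80 2 (.d k255 k175 k170 11 14))))), (.s k5 k10 2
  (.s k165 k245 11 (.s k13 k241 13 (.s k9 k1 1 (.s k12 k14 0 (.s k6 k3 2 (.d k4 k7 k8 0 1))))))),
  (.s k255 k170 14 (.s k95 k175 11 (.s k90 k80 2 (.s k91 k88 0 (.s k243 k167 13 (.s k166 k12 14 (.d
  k247 k251 k4 1 12)))))))] (.c k165 (.l (.s k10 k5 2 (.s k170 k255 14 (.s k8 k251 12 (.s k11 k9 0
  (.s k90 k250 11 (.s k88 k91 0 (.d k248 k168 k169 11 12)))))))) .n)) (.c k162 (.l (.s k93 k81 1 (.s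
  k255 k170 14 (.s k12 k174 12 (.s k166 k243 14 (.d k4 k8 k247 1 12)))))) (.c k166 (.q k5 [(.s k93
  k81 1 (.s k165 k245 11 (.s k13 k241 13 (.s k1 k9 1 (.d k253 k173 k169 11 13))))), (.s k15 k10 2
  (.s k165 k245 11 (.s k90 k240 14 (.s k95 k80 2 (.d k255 k175 k170 11 14))))), (.s k10 k15 2 (.s
  k170 k255 14 (.s k8 k251 12 (.s k9 k11 0 (.s k1 k13 1 (.d k169 k249 k253 11 13))))))] .n) (.c k170
  (.f k81 k93 1 (.q k150 [(.s k211 k28 10 (.s k16 k146 8 (.s k215 k20 8 (.d k223 k219 k154 1 10)))),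
  (.s k20 k215 8 (.s k60 k40 5 (.s k105 k195 14 (.s k121 k73 3 (.d k243 k182 k162 10 12))))), (.s
  k211 k28 10 (.s k243 k162 12 (.s k195 k227 3 (.s k65 k130 8 (.d k105 k125 k60 5 14)))))] (.c k86
  (.q k254 [(.s k211 k28 10 (.s k16 k146 8 (.s k215 k20 8 (.d k223 k219 k154 1 10)))), (.s k20 k215
  8 (.s k60 k40 5 (.s k105 k195 14 (.s k121 k73 3 (.d k243 k182 k162 10 12))))), (.s k211 k28 10 (.s
  k243 k162 12 (.s k195 k227 3 (.s k65 k130 8 (.d k105 k125 k60 5 14)))))] .n) (.c k254 (.q k86 [(.s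
  k211 k28 10 (.s k16 k146 8 (.s k215 k20 8 (.d k223 k219 k154 1 10)))), (.s k83 k92 2 (.s k80 k82 0
  (.s k87 k84 0 (.d k95 k91 k90 1 2))))] (.c k62 (.q k126 [(.s k211 k28 10 (.s k16 k146 8 (.s k215
  k20 8 (.d k223 k219 k154 1 10)))), (.s k83 k92 2 (.s k80 k82 0 (.s k87 k84 0 (.d k95 k91 k90 1
  2))))] (.c k22 (.q k42 [(.s k63 k21 6 (.s k84 k87 0 (.d k252 k189 k168 8 13))), (.s k83 k92 2 (.s
  k80 k82 0 (.s k87 k84 0 (.d k95 k91 k90 1 2)))), (.s k63 k21 6 (.s k106 k66 5 (.s k64 k127 6 (.d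
  k192 k128 k149 7 14))))] .n) (.c k42 (.l (.s k22 k214 7 (.s k20 k215 8 (.s k23 k21 0 (.s k84 k87 0
  (.d k212 k148 k149 7 8)))))) .n))) (.c k126 (.q k62 [(.s k211 k28 10 (.s k16 k146 8 (.s k215 k20 8
  (.d k223 k219 k154 1 10)))), (.s k83 k92 2 (.s k80 k82 0 (.s k87 k84 0 (.d k95 k91 k90 1 2))))]
  .n) .n))) .n)))) (.c k174 (.l (.s k81 k93 1 (.s k243 k162 12 (.s k12 k166 14 (.s k170 k255 14 (.d
  k8 k4 k251 1 12)))))) (.c k243 (.q k13 [(.s k81 k93 1 (.s k241 k165 13 (.s k1 k161 11 (.s k9 k5 1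
  (.d k169 k249 k253 11 13))))), (.s k165 k241 13 (.s k5 k245 11 (.s k15 k10 2 (.s k170 k255 14 (.s
  k160 k175 2 (.d k240 k80 k90 11 14)))))), (.s k93 k81 1 (.s k173 k253 11 (.s k255 k170 14 (.s k12
  k174 12 (.s k15 k14 0 (.s k94 k252 12 (.d k95 k92 k175 0 11))))))), (.s k93 k81 1 (.s k165 k241 13
  (.s k255 k170 14 (.s k12 k174 12 (.s k15 k14 0 (.d k5 k10 k245 2 11))))))] .n) (.c k247 (.l (.s
  k81 k93 1 (.s k170 k255 14 (.s k8 k251 12 (.s k243 k162 12 (.d k12 k4 k166 1 14)))))) (.c k255 (.q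
  k60 [(.s k20 k40 5 (.s k93 k81 1 (.s k150 k215 8 (.s k28 k211 10 (.s k16 k24 1 (.d k223 k158 k154
  8 10)))))), (.s k81 k93 1 (.s k243 k162 12 (.s k121 k182 10 (.s k105 k73 3 (.s k65 k125 5 (.d k195
  k130 k150 8 14)))))), (.s k20 k40 5 (.s k150 k215 8 (.s k28 k211 10 (.s k12 k44 3 (.s k4 k8 1 (.d
  k166 k247 k243 12 14))))))] (.c k150 (.f k20 k40 5 (.l (.s k81 k93 1 (.s k243 k162 12 (.s k12 k166
  14 (.s k4 k8 1 (.s k28 k44 3 (.s k24 k16 1 (.d k36 k52 k48 3 5))))))))) (.c k195 (.l (.s k20 k40 5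
  (.s k81 k93 1 (.s k243 k162 12 (.s k12 k166 14 (.s k28 k44 3 (.d k150 k215 k211 8 10))))))) .n)))
  .n))))))))))))

def t2_191 : T TT 256 :=
  (.q k89 [(.s k81 k93 1 (.s k243 k162 12 (.s k166 k12 14 (.s k247 k4 12 (.d k255 k251 k170 1
  14))))), (.s k93 k81 1 (.s k255 k170 14 (.s k12 k174 12 (.s k166 k243 14 (.d k4 k8 k247 1 12)))))]
  (.c k4 (.q k1 [(.s k93 k81 1 (.s k253 k169 13 (.s k13 k173 11 (.s k165 k241 13 (.d k5 k9 k245 1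
  11))))), (.s k169 k253 13 (.s k9 k249 11 (.s k170 k255 14 (.s k8 k251 12 (.s k10 k11 0 (.d k5 k13
  k15 1 2)))))), (.s k81 k93 1 (.s k161 k241 11 (.s k162 k243 12 (.s k160 k163 0 (.s k170 k255 14
  (.s k165 k175 2 (.d k169 k173 k253 1 13)))))))] (.c k169 (.l (.s k81 k93 1 (.s k170 k255 14 (.s
  k241 k161 11 (.s k165 k13 13 (.s k160 k175 2 (.s k240 k80 11 (.d k243 k242 k162 0 12)))))))) (.c
  k241 (.l (.s k81 k93 1 (.s k169 k253 13 (.s k170 k255 14 (.s k168 k171 0 (.s k243 k162 12 (.s k249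
  k9 11 (.d k252 k246 k84 2 13)))))))) (.c k253 (.l (.s k81 k93 1 (.s k241 k161 11 (.s k13 k165 13
  (.s k5 k9 1 (.s k15 k10 2 (.s k243 k162 12 (.d k12 k14 k166 0 14)))))))) .n)))) (.c k12 (.q k5
  [(.s k93 k81 1 (.s k165 k245 11 (.s k13 k241 13 (.s k253 k173 11 (.d k1 k9 k169 1 13))))), (.s k15
  k10 2 (.s k165 k245 11 (.s k90 k240 14 (.s k95 k80 2 (.d k255 k175 k170 11 14))))), (.s k10 k15 2
  (.s k170 k255 14 (.s k8 k251 12 (.s k9 k11 0 (.s k169 k249 11 (.d k1 k13 k253 1 13))))))] .n) (.c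
  k81 (.q k15 [(.s k10 k5 2 (.s k170 k255 14 (.s k90 k250 11 (.s k80 k95 2 (.d k240 k160 k165 11
  14))))), (.s k255 k170 14 (.s k95 k175 11 (.s k90 k80 2 (.s k91 k88 0 (.s k243 k167 13 (.s k166
  k12 14 (.d k247 k251 k4 1 12))))))), (.s k170 k255 14 (.s k8 k251 12 (.s k12 k4 1 (.s k13 k14 0
  (.s k165 k241 13 (.d k5 k10 k245 2 11))))))] (.c k165 (.l (.s k10 k5 2 (.s k170 k255 14 (.s k8
  k251 12 (.s k11 k9 0 (.s k90 k250 11 (.s k88 k91 0 (.d k248 k168 k169 11 12)))))))) (.c k170 (.l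
  (.s k5 k10 2 (.s k165 k245 11 (.s k13 k241 13 (.s k90 k240 14 (.s k91 k88 0 (.s k243 k167 13 (.d
  k12 k14 k166 0 14)))))))) (.c k255 (.l (.s k5 k10 2 (.s k165 k245 11 (.s k240 k90 14 (.s k241 k13
  13 (.s k243 k242 0 (.s k166 k12 14 (.d k167 k164 k91 0 13)))))))) .n)))) (.c k93 (.q k15 [(.s k5
  k10 2 (.s k165 k245 11 (.s k90 k240 14 (.s k95 k80 2 (.d k255 k175 k170 11 14))))), (.s k5 k10 2
  (.s k165 k245 11 (.s k13 k241 13 (.s k9 k1 1 (.s k12 k14 0 (.s k6 k3 2 (.d k4 k7 k8 0 1))))))),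
  (.s k255 k170 14 (.s k95 k175 11 (.s k90 k80 2 (.s k91 k88 0 (.s k243 k167 13 (.s k166 k12 14 (.d
  k247 k251 k4 1 12)))))))] (.c k165 (.l (.s k10 k5 2 (.s k170 k255 14 (.s k8 k251 12 (.s k11 k9 0
  (.s k90 k250 11 (.s k88 k91 0 (.d k248 k168 k169 11 12)))))))) .n)) (.c k162 (.l (.s k93 k81 1 (.s
  k255 k170 14 (.s k12 k174 12 (.s k166 k243 14 (.d k4 k8 k247 1 12)))))) (.c k166 (.q k5 [(.s k93
  k81 1 (.s k165 k245 11 (.s k13 k241 13 (.s k1 k9 1 (.d k253 k173 k169 11 13))))), (.s k15 k10 2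
  (.s k165 k245 11 (.s k90 k240 14 (.s k95 k80 2 (.d k255 k175 k170 11 14))))), (.s k10 k15 2 (.s
  k170 k255 14 (.s k8 k251 12 (.s k9 k11 0 (.s k1 k13 1 (.d k169 k249 k253 11 13))))))] .n) (.c k170
  (.f k81 k93 1 (.q k149 [(.s k209 k29 9 (.s k17 k145 7 (.s k213 k21 7 (.d k221 k217 k153 1 9)))),
  (.s k21 k213 7 (.s k63 k42 6 (.s k106 k192 14 (.s k123 k72 4 (.d k243 k183 k162 9 12))))), (.s
  k209 k29 9 (.s k243 k162 12 (.s k192 k226 4 (.s k64 k128 7 (.d k106 k127 k63 6 14)))))] (.c k86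
  (.q k254 [(.s k209 k29 9 (.s k17 k145 7 (.s k213 k21 7 (.d k221 k217 k153 1 9)))), (.s k21 k213 7
  (.s k63 k42 6 (.s k106 k192 14 (.s k123 k72 4 (.d k243 k183 k162 9 12))))), (.s k209 k29 9 (.s
  k243 k162 12 (.s k192 k226 4 (.s k64 k128 7 (.d k106 k127 k63 6 14)))))] .n) (.c k254 (.q k86 [(.s
  k209 k29 9 (.s k17 k145 7 (.s k213 k21 7 (.d k221 k217 k153 1 9)))), (.s k83 k92 2 (.s k80 k82 0
  (.s k87 k84 0 (.d k95 k91 k90 1 2))))] .n) .n)))) (.c k174 (.l (.s k81 k93 1 (.s k243 k162 12 (.s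
  k12 k166 14 (.s k170 k255 14 (.d k8 k4 k251 1 12)))))) (.c k243 (.q k13 [(.s k81 k93 1 (.s k241
  k165 13 (.s k1 k161 11 (.s k9 k5 1 (.d k169 k249 k253 11 13))))), (.s k165 k241 13 (.s k5 k245 11
  (.s k15 k10 2 (.s k170 k255 14 (.s k160 k175 2 (.d k240 k80 k90 11 14)))))), (.s k93 k81 1 (.s
  k173 k253 11 (.s k255 k170 14 (.s k12 k174 12 (.s k15 k14 0 (.s k94 k252 12 (.d k95 k92 k175 0
  11))))))), (.s k93 k81 1 (.s k165 k241 13 (.s k255 k170 14 (.s k12 k174 12 (.s k15 k14 0 (.d k5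
  k10 k245 2 11))))))] .n) (.c k247 (.l (.s k81 k93 1 (.s k170 k255 14 (.s k8 k251 12 (.s k243 k162
  12 (.d k12 k4 k166 1 14)))))) (.c k255 (.q k63 [(.s k81 k93 1 (.s k243 k162 12 (.s k12 k166 14 (.s
  k29 k46 4 (.s k149 k209 9 (.d k21 k42 k213 6 7)))))), (.s k21 k42 6 (.s k93 k81 1 (.s k149 k213 7
  (.s k29 k209 9 (.s k17 k25 1 (.d k221 k157 k153 7 9)))))), (.s k81 k93 1 (.s k243 k162 12 (.s k123
  k183 9 (.s k106 k72 4 (.s k64 k127 6 (.d k192 k128 k149 7 14)))))), (.s k21 k42 6 (.s k149 k213 7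
  (.s k29 k209 9 (.s k12 k46 4 (.s k4 k8 1 (.d k166 k247 k243 12 14))))))] (.c k149 (.f k21 k42 6
  (.l (.s k81 k93 1 (.s k243 k162 12 (.s k12 k166 14 (.s k4 k8 1 (.s k29 k46 4 (.s k25 k17 1 (.d k38
  k55 k51 4 6))))))))) .n)) .n))))))))))))

def t2_252 : T TT 256 :=
  (.q k89 [(.s k93 k81 1 (.s k255 k170 14 (.s k12 k174 12 (.s k4 k8 1 (.d k166 k247 k243 12 14))))),
  (.s k81 k93 1 (.s k243 k162 12 (.s k166 k12 14 (.s k247 k4 12 (.d k255 k251 k170 1 14)))))] (.c k4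
  (.q k5 [(.s k93 k81 1 (.s k165 k245 11 (.s k13 k241 13 (.s k1 k9 1 (.d k253 k173 k169 11 13))))),
  (.s k15 k10 2 (.s k165 k245 11 (.s k90 k240 14 (.s k95 k80 2 (.d k255 k175 k170 11 14))))), (.s
  k10 k15 2 (.s k170 k255 14 (.s k8 k251 12 (.s k9 k11 0 (.s k1 k13 1 (.d k169 k253 k249 13
  11))))))] .n) (.c k12 (.f k170 k255 14 (.f k93 k81 1 (.f k251 k8 12 (.q k253 [(.s k13 k173 11 (.s
  k169 k1 13 (.s k241 k165 13 (.d k249 k245 k9 1 11)))), (.s k169 k1 13 (.s k171 k168 0 (.s k11 k91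
  11 (.s k248 k90 12 (.d k249 k250 k9 0 11))))), (.s k13 k173 11 (.s k165 k241 13 (.s k5 k245 11 (.s
  k160 k175 2 (.s k240 k80 11 (.d k15 k10 k90 2 14))))))] (.c k1 (.l (.s k13 k173 11 (.s k241 k165
  13 (.s k249 k245 1 (.s k169 k9 11 (.s k171 k168 0 (.s k11 k91 11 (.d k248 k250 k90 0 12))))))))
  (.c k92 (.q k172 [(.s k13 k173 11 (.s k169 k1 13 (.s k241 k165 13 (.d k249 k245 k9 1 11)))), (.s
  k173 k13 11 (.s k174 k175 0 (.s k166 k162 1 (.d k169 k163 k1 2 13)))), (.s k169 k1 13 (.s k171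
  k168 0 (.s k11 k91 11 (.s k248 k90 12 (.d k249 k250 k9 0 11)))))] (.c k1 (.l (.s k13 k173 11 (.s
  k241 k165 13 (.s k249 k245 1 (.s k169 k9 11 (.s k171 k168 0 (.s k11 k91 11 (.d k248 k250 k90 0
  12)))))))) (.c k169 (.l (.s k13 k173 11 (.s k165 k241 13 (.s k5 k245 11 (.s k15 k10 2 (.s k160
  k175 2 (.d k240 k80 k90 11 14))))))) .n))) (.c k161 (.l (.s k1 k169 13 (.s k13 k173 11 (.s k165
  k241 13 (.d k5 k9 k245 1 11))))) (.c k172 (.q k92 [(.s k83 k86 2 (.s k95 k94 0 (.s k90 k80 2 (.d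
  k91 k88 k87 0 1)))), (.s k169 k1 13 (.s k249 k9 11 (.s k241 k245 1 (.d k13 k173 k165 11 13)))),
  (.s k86 k83 2 (.s k84 k87 0 (.s k80 k88 1 (.d k95 k94 k90 0 2))))] (.c k3 (.l (.s k13 k173 11 (.s
  k165 k241 13 (.s k5 k245 11 (.d k1 k9 k169 1 13))))) .n)) (.c k241 (.l (.s k1 k169 13 (.s k13 k173
  11 (.s k5 k9 1 (.s k165 k245 11 (.s k160 k175 2 (.s k240 k80 11 (.d k15 k10 k90 2 14))))))))
  .n))))))))) (.c k81 (.q k15 [(.s k10 k5 2 (.s k170 k255 14 (.s k90 k250 11 (.s k80 k95 2 (.d k240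
  k160 k165 11 14))))), (.s k170 k255 14 (.s k8 k251 12 (.s k12 k4 1 (.s k13 k14 0 (.s k165 k241 13
  (.d k5 k10 k245 2 11)))))), (.s k255 k170 14 (.s k95 k175 11 (.s k90 k80 2 (.s k91 k88 0 (.s k243
  k167 13 (.s k166 k12 14 (.d k247 k251 k4 1 12))))))), (.s k5 k10 2 (.s k165 k245 11 (.s k13 k241
  13 (.s k90 k240 14 (.s k91 k88 0 (.s k243 k167 13 (.d k12 k14 k166 0 14)))))))] (.c k165 (.l (.s
  k10 k5 2 (.s k170 k255 14 (.s k8 k251 12 (.s k11 k9 0 (.s k90 k250 11 (.s k88 k91 0 (.d k248 k168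
  k169 11 12)))))))) (.c k255 (.l (.s k5 k10 2 (.s k165 k245 11 (.s k240 k90 14 (.s k241 k13 13 (.s
  k243 k242 0 (.s k166 k12 14 (.d k167 k164 k91 0 13)))))))) .n))) (.c k93 (.q k15 [(.s k5 k10 2 (.s
  k165 k245 11 (.s k90 k240 14 (.s k95 k80 2 (.d k255 k175 k170 11 14))))), (.s k5 k10 2 (.s k165
  k245 11 (.s k13 k241 13 (.s k9 k1 1 (.s k12 k14 0 (.s k6 k3 2 (.d k4 k7 k8 0 1))))))), (.s k255
  k170 14 (.s k95 k175 11 (.s k90 k80 2 (.s k91 k88 0 (.s k243 k167 13 (.s k166 k12 14 (.d k247 k251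
  k4 1 12)))))))] (.c k165 (.l (.s k10 k5 2 (.s k170 k255 14 (.s k8 k251 12 (.s k11 k9 0 (.s k90
  k250 11 (.s k88 k91 0 (.d k248 k168 k169 11 12)))))))) .n)) (.c k162 (.l (.s k93 k81 1 (.s k255
  k170 14 (.s k12 k174 12 (.s k166 k243 14 (.d k4 k8 k247 1 12)))))) (.c k166 (.q k5 [(.s k93 k81 1
  (.s k165 k245 11 (.s k13 k241 13 (.s k1 k9 1 (.d k253 k173 k169 11 13))))), (.s k15 k10 2 (.s k165
  k245 11 (.s k90 k240 14 (.s k95 k80 2 (.d k255 k175 k170 11 14))))), (.s k10 k15 2 (.s k170 k255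
  14 (.s k8 k251 12 (.s k9 k11 0 (.s k1 k13 1 (.d k169 k253 k249 13 11))))))] .n) (.c k170 (.q k102
  [(.s k68 k119 4 (.s k76 k115 6 (.s k64 k72 1 (.s k93 k81 1 (.d k127 k110 k106 4 6))))), (.s k68
  k119 4 (.s k81 k93 1 (.s k204 k136 9 (.s k153 k51 14 (.s k217 k25 7 (.d k243 k230 k162 6 12)))))),
  (.s k81 k93 1 (.s k115 k76 6 (.s k243 k162 12 (.s k51 k179 7 (.s k17 k34 4 (.d k153 k221 k204 9
  14)))))), (.s k68 k119 4 (.s k76 k115 6 (.s k204 k136 9 (.s k12 k140 7 (.s k4 k8 1 (.d k166 k247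
  k243 12 14))))))] (.c k86 (.q k254 [(.s k68 k119 4 (.s k76 k115 6 (.s k64 k72 1 (.s k93 k81 1 (.d
  k127 k110 k106 4 6))))), (.s k68 k119 4 (.s k81 k93 1 (.s k204 k136 9 (.s k153 k51 14 (.s k217 k25
  7 (.d k243 k230 k162 6 12)))))), (.s k81 k93 1 (.s k115 k76 6 (.s k243 k162 12 (.s k51 k179 7 (.s
  k17 k34 4 (.d k153 k221 k204 9 14)))))), (.s k68 k119 4 (.s k76 k115 6 (.s k204 k136 9 (.s k12
  k140 7 (.s k4 k8 1 (.d k166 k247 k243 12 14))))))] (.c k3 (.q k169 [(.s k68 k119 4 (.s k76 k115 6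
  (.s k64 k72 1 (.s k93 k81 1 (.d k127 k110 k106 4 6))))), (.s k1 k253 13 (.s k9 k249 11 (.s k13 k5
  1 (.s k81 k93 1 (.d k241 k161 k165 11 13))))), (.s k68 k119 4 (.s k76 k115 6 (.s k204 k136 9 (.s
  k12 k140 7 (.s k4 k8 1 (.d k166 k247 k243 12 14))))))] .n) (.c k169 (.q k3 [(.s k68 k119 4 (.s k76
  k115 6 (.s k64 k72 1 (.s k93 k81 1 (.d k127 k110 k106 4 6))))), (.s k68 k119 4 (.s k81 k93 1 (.s
  k204 k136 9 (.s k153 k51 14 (.s k217 k25 7 (.d k243 k230 k162 6 12)))))), (.s k81 k93 1 (.s k115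
  k76 6 (.s k243 k162 12 (.s k51 k179 7 (.s k17 k34 4 (.d k153 k221 k204 9 14)))))), (.s k68 k119 4
  (.s k76 k115 6 (.s k204 k136 9 (.s k12 k140 7 (.s k4 k8 1 (.d k166 k247 k243 12 14))))))] (.c k168
  (.q k171 [(.s k68 k119 4 (.s k76 k115 6 (.s k64 k72 1 (.s k93 k81 1 (.d k127 k110 k106 4 6))))),
  (.s k68 k119 4 (.s k204 k136 9 (.s k153 k51 14 (.s k221 k17 9 (.d k255 k238 k87 4 13))))), (.s k81
  k93 1 (.s k243 k162 12 (.s k166 k12 14 (.s k247 k4 12 (.d k255 k251 k87 1 13)))))] .n) (.c k171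
  (.q k168 [(.s k68 k119 4 (.s k76 k115 6 (.s k64 k72 1 (.s k93 k81 1 (.d k127 k110 k106 4 6))))),
  (.s k68 k119 4 (.s k81 k93 1 (.s k204 k136 9 (.s k153 k51 14 (.s k217 k25 7 (.d k243 k230 k162 6
  12)))))), (.s k81 k93 1 (.s k115 k76 6 (.s k243 k162 12 (.s k51 k179 7 (.s k17 k34 4 (.d k153 k221
  k204 9 14)))))), (.s k68 k119 4 (.s k76 k115 6 (.s k204 k136 9 (.s k12 k140 7 (.s k4 k8 1 (.d k166
  k247 k243 12 14))))))] .n) .n))) .n))) (.c k254 (.q k86 [(.s k68 k119 4 (.s k76 k115 6 (.s k64 k72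
  1 (.s k93 k81 1 (.d k127 k110 k106 4 6))))), (.s k68 k119 4 (.s k70 k118 3 (.s k71 k69 0 (.s k84
  k87 0 (.d k116 k100 k101 3 4))))), (.s k70 k118 3 (.s k76 k115 6 (.s k67 k73 2 (.s k92 k83 2 (.d
  k124 k108 k105 3 6)))))] (.c k253 (.q k255 [(.s k68 k119 4 (.s k204 k136 9 (.s k153 k51 14 (.d
  k221 k238 k17 4 9)))), (.s k81 k93 1 (.s k243 k162 12 (.s k166 k12 14 (.d k247 k251 k4 1 12))))]
  .n) (.c k255 (.q k253 [(.s k1 k169 13 (.s k81 k93 1 (.s k241 k161 11 (.s k165 k13 13 (.d k245 k249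
  k5 1 11))))), (.s k68 k119 4 (.s k70 k118 3 (.s k71 k69 0 (.s k116 k101 4 (.d k84 k87 k100 0
  3)))))] .n) .n))) .n))) (.c k174 (.l (.s k81 k93 1 (.s k243 k162 12 (.s k12 k166 14 (.s k170 k255
  14 (.d k8 k4 k251 1 12)))))) (.c k243 (.f k255 k170 14 (.f k93 k81 1 (.q k86 [(.s k84 k87 0 (.s
  k92 k83 2 (.s k80 k88 1 (.d k95 k94 k90 0 2)))), (.s k12 k174 12 (.s k4 k8 1 (.s k84 k87 0 (.s
  k166 k247 12 (.s k244 k164 11 (.s k7 k165 12 (.d k6 k246 k5 11 0))))))), (.s k92 k83 2 (.s k95 k94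
  0 (.s k15 k175 11 (.s k5 k10 2 (.s k165 k245 11 (.d k90 k80 k240 2 14))))))] (.c k246 (.q k249
  [(.s k9 k169 11 (.s k12 k174 12 (.s k87 k84 0 (.d k3 k171 k6 13 2)))), (.s k169 k9 11 (.s k253 k1
  13 (.s k13 k173 11 (.d k241 k245 k165 1 13)))), (.s k84 k87 0 (.s k92 k83 2 (.s k80 k88 1 (.d k95
  k94 k90 0 2))))] .n) (.c k249 (.q k246 [(.s k12 k174 12 (.s k4 k8 1 (.d k166 k6 k247 11 12))), (.s
  k84 k87 0 (.s k92 k83 2 (.s k80 k88 1 (.d k95 k94 k90 0 2))))] .n) .n))))) (.c k247 (.l (.s k81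
  k93 1 (.s k170 k255 14 (.s k8 k251 12 (.s k243 k162 12 (.d k12 k4 k166 1 14)))))) (.c k255 (.q
  k154 [(.s k93 k81 1 (.s k219 k24 8 (.s k223 k16 10 (.s k28 k158 8 (.d k211 k215 k150 1 10))))),
  (.s k81 k93 1 (.s k219 k24 8 (.s k243 k162 12 (.s k207 k231 5 (.s k69 k138 10 (.d k101 k117 k48 3
  14)))))), (.s k16 k223 10 (.s k48 k32 3 (.s k81 k93 1 (.s k243 k162 12 (.s k113 k178 8 (.d k101
  k207 k77 14 5)))))), (.s k16 k223 10 (.s k24 k219 8 (.s k48 k32 3 (.s k12 k36 5 (.s k4 k8 1 (.d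
  k166 k247 k243 12 14))))))] (.c k253 (.q k254 [(.s k93 k81 1 (.s k219 k24 8 (.s k223 k16 10 (.s
  k28 k158 8 (.d k211 k215 k150 1 10))))), (.s k81 k93 1 (.s k219 k24 8 (.s k243 k162 12 (.s k207
  k231 5 (.s k69 k138 10 (.d k101 k117 k48 3 14)))))), (.s k16 k223 10 (.s k48 k32 3 (.s k81 k93 1
  (.s k243 k162 12 (.s k113 k178 8 (.d k101 k207 k77 14 5)))))), (.s k16 k223 10 (.s k24 k219 8 (.s
  k48 k32 3 (.s k12 k36 5 (.s k4 k8 1 (.d k166 k247 k243 12 14))))))] .n) (.c k254 (.q k253 [(.s k1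
  k169 13 (.s k81 k93 1 (.s k241 k161 11 (.s k165 k13 13 (.d k245 k249 k5 1 11))))), (.s k16 k223 10
  (.s k24 k219 8 (.s k48 k32 3 (.s k12 k36 5 (.s k4 k8 1 (.d k166 k247 k243 12 14))))))] (.c k12 (.l
  (.s k1 k169 13 (.s k93 k81 1 (.s k13 k173 11 (.s k5 k9 1 (.d k165 k245 k241 11 13)))))) (.c k86
  (.q k170 [(.s k8 k251 12 (.s k12 k4 1 (.s k81 k93 1 (.d k243 k162 k166 12 14)))), (.s k16 k223 10
  (.s k48 k32 3 (.s k138 k186 3 (.d k207 k69 k101 10 14))))] (.c k3 (.l (.s k169 k1 13 (.s k8 k251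
  12 (.s k12 k4 1 (.s k81 k93 1 (.d k243 k162 k166 12 14)))))) (.c k169 (.q k3 [(.s k8 k251 12 (.s
  k12 k4 1 (.s k81 k93 1 (.d k243 k162 k166 12 14)))), (.s k16 k223 10 (.s k48 k32 3 (.s k138 k186 3
  (.d k207 k69 k101 10 14))))] .n) .n))) (.c k170 (.q k86 [(.s k1 k169 13 (.s k81 k93 1 (.s k241
  k161 11 (.s k165 k13 13 (.d k245 k249 k5 1 11))))), (.s k16 k223 10 (.s k18 k222 9 (.s k19 k17 0
  (.s k220 k153 10 (.d k84 k87 k152 0 9)))))] .n) .n)))) .n))) .n))))))))))))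

def t2_253 : T TT 256 :=
  (.q k89 [(.s k93 k81 1 (.s k255 k170 14 (.s k12 k174 12 (.s k4 k8 1 (.d k166 k247 k243 12 14))))),
  (.s k81 k93 1 (.s k243 k162 12 (.s k166 k12 14 (.s k247 k4 12 (.d k255 k251 k170 1 14)))))] (.c k4
  (.q k10 [(.s k170 k255 14 (.s k90 k250 11 (.s k80 k95 2 (.s k240 k160 11 (.d k15 k5 k165 2
  14))))), (.s k15 k5 2 (.s k81 k93 1 (.s k243 k162 12 (.s k91 k167 13 (.s k90 k88 0 (.d k170 k250
  k255 11 14)))))), (.s k15 k5 2 (.s k81 k93 1 (.s k243 k162 12 (.s k91 k167 13 (.s k90 k88 0 (.s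
  k80 k95 2 (.d k240 k160 k165 11 14))))))), (.s k170 k255 14 (.s k8 k251 12 (.s k11 k9 0 (.s k90
  k250 11 (.s k88 k91 0 (.d k248 k168 k169 11 12))))))] (.c k90 (.l (.s k5 k15 2 (.s k165 k245 11
  (.s k170 k255 14 (.s k8 k251 12 (.s k9 k11 0 (.d k13 k241 k1 13 1))))))) .n)) (.c k12 (.q k16 [(.s
  k48 k32 3 (.s k154 k223 10 (.s k101 k207 14 (.s k117 k69 3 (.d k255 k186 k170 10 14))))), (.s k81
  k93 1 (.s k154 k223 10 (.s k24 k219 8 (.s k28 k20 1 (.d k211 k146 k150 8 10))))), (.s k48 k32 3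
  (.s k81 k93 1 (.s k146 k211 8 (.s k97 k195 12 (.s k113 k65 3 (.d k243 k178 k162 8 12))))))] (.c
  k255 (.l (.s k93 k81 1 (.s k223 k154 10 (.s k28 k158 8 (.s k20 k24 1 (.d k150 k215 k211 8 10))))))
  .n)) (.c k81 (.q k15 [(.s k10 k5 2 (.s k170 k255 14 (.s k90 k250 11 (.s k80 k95 2 (.d k240 k160
  k165 11 14))))), (.s k5 k10 2 (.s k165 k245 11 (.s k90 k240 14 (.s k91 k88 0 (.s k243 k167 13 (.s
  k12 k166 14 (.d k13 k14 k241 0 13))))))), (.s k255 k170 14 (.s k95 k175 11 (.s k90 k80 2 (.s k91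
  k88 0 (.s k243 k167 13 (.s k166 k12 14 (.d k247 k251 k4 1 12))))))), (.s k170 k255 14 (.s k8 k251
  12 (.s k12 k4 1 (.s k13 k14 0 (.s k165 k241 13 (.d k5 k10 k245 2 11))))))] (.c k165 (.l (.s k10 k5
  2 (.s k170 k255 14 (.s k8 k251 12 (.s k11 k9 0 (.s k90 k250 11 (.s k88 k91 0 (.d k248 k168 k169 11
  12)))))))) (.c k255 (.l (.s k5 k10 2 (.s k165 k245 11 (.s k240 k90 14 (.s k241 k13 13 (.s k243
  k242 0 (.s k166 k12 14 (.d k167 k164 k91 0 13)))))))) .n))) (.c k93 (.q k101 [(.s k117 k69 3 (.s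
  k255 k170 14 (.s k48 k186 10 (.s k16 k32 3 (.d k154 k223 k207 10 14))))), (.s k69 k117 3 (.s k77
  k113 5 (.s k207 k138 10 (.s k12 k142 8 (.s k4 k8 1 (.d k166 k247 k243 12 14)))))), (.s k77 k113 5
  (.s k170 k255 14 (.s k8 k251 12 (.s k12 k4 1 (.s k32 k239 10 (.s k48 k16 3 (.d k207 k142 k154 8
  14)))))))] (.c k13 (.q k173 [(.s k117 k69 3 (.s k255 k170 14 (.s k48 k186 10 (.s k16 k32 3 (.d
  k154 k223 k207 10 14))))), (.s k69 k117 3 (.s k77 k113 5 (.s k207 k138 10 (.s k12 k142 8 (.s k4 k8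
  1 (.d k166 k247 k243 12 14)))))), (.s k77 k113 5 (.s k170 k255 14 (.s k8 k251 12 (.s k12 k4 1 (.s
  k32 k239 10 (.s k48 k16 3 (.d k207 k142 k154 8 14)))))))] (.c k207 (.l (.s k113 k77 5 (.s k117 k69
  3 (.s k255 k170 14 (.s k48 k186 10 (.s k243 k178 8 (.s k247 k251 1 (.d k166 k12 k4 14 12))))))))
  .n)) (.c k173 (.q k13 [(.s k117 k69 3 (.s k255 k170 14 (.s k48 k186 10 (.s k16 k32 3 (.d k154 k223
  k207 10 14))))), (.s k77 k113 5 (.s k165 k241 13 (.s k37 k229 7 (.s k49 k25 5 (.d k205 k141 k153 7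
  13)))))] .n) (.c k207 (.l (.s k113 k77 5 (.s k117 k69 3 (.s k255 k170 14 (.s k48 k186 10 (.s k243
  k178 8 (.s k247 k251 1 (.d k166 k12 k4 14 12)))))))) .n)))) (.c k162 (.l (.s k93 k81 1 (.s k255
  k170 14 (.s k12 k174 12 (.s k166 k243 14 (.d k4 k8 k247 1 12)))))) (.c k166 (.q k15 [(.s k10 k5 2
  (.s k170 k255 14 (.s k90 k250 11 (.s k80 k95 2 (.d k240 k160 k165 11 14))))), (.s k81 k93 1 (.s
  k243 k162 12 (.s k91 k167 13 (.s k90 k88 0 (.s k80 k95 2 (.d k240 k165 k160 14 11)))))), (.s k5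
  k10 2 (.s k81 k93 1 (.s k165 k245 11 (.s k90 k240 14 (.s k91 k88 0 (.d k243 k162 k167 12 13))))))]
  (.c k90 (.l (.s k5 k10 2 (.s k165 k245 11 (.s k170 k255 14 (.s k8 k251 12 (.s k12 k4 1 (.d k13 k14
  k241 0 13))))))) (.c k165 (.l (.s k10 k5 2 (.s k81 k93 1 (.s k170 k255 14 (.s k90 k250 11 (.s k91
  k88 0 (.d k243 k162 k167 12 13))))))) (.c k240 (.l (.s k10 k5 2 (.s k81 k93 1 (.s k170 k255 14 (.s
  k243 k162 12 (.s k91 k167 13 (.d k90 k250 k88 11 0))))))) .n)))) (.c k170 (.q k86 [(.s k84 k87 0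
  (.s k92 k83 2 (.s k80 k88 1 (.s k93 k81 1 (.d k95 k94 k90 0 2))))), (.s k81 k93 1 (.s k84 k87 0
  (.s k243 k162 12 (.s k166 k12 14 (.s k246 k6 11 (.d k252 k249 k168 2 13)))))), (.s k84 k87 0 (.s
  k92 k83 2 (.s k252 k168 13 (.s k12 k172 11 (.s k4 k8 1 (.d k166 k247 k243 12 14)))))), (.s k81 k93
  1 (.s k83 k92 2 (.s k243 k162 12 (.s k3 k163 11 (.s k166 k12 14 (.s k246 k6 11 (.d k252 k249 k169
  2 14)))))))] .n) (.c k174 (.l (.s k81 k93 1 (.s k243 k162 12 (.s k12 k166 14 (.s k170 k255 14 (.d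
  k8 k4 k251 1 12)))))) (.c k243 (.q k20 [(.s k60 k40 5 (.s k150 k215 8 (.s k105 k195 14 (.s k125
  k65 5 (.d k255 k190 k170 8 14))))), (.s k93 k81 1 (.s k150 k215 8 (.s k28 k211 10 (.s k16 k24 1
  (.d k223 k158 k154 8 10))))), (.s k60 k40 5 (.s k93 k81 1 (.s k255 k170 14 (.s k12 k174 12 (.s k28
  k44 3 (.s k16 k24 1 (.d k223 k158 k154 8 10)))))))] .n) (.c k247 (.l (.s k81 k93 1 (.s k170 k255
  14 (.s k8 k251 12 (.s k243 k162 12 (.d k12 k4 k166 1 14)))))) (.c k255 (.q k252 [(.s k84 k168 13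
  (.s k86 k87 0 (.s k3 k169 14 (.s k83 k92 2 (.s k243 k163 11 (.d k81 k93 k162 1 12)))))), (.s k84
  k168 13 (.s k86 k87 0 (.s k92 k83 2 (.s k80 k88 1 (.s k93 k81 1 (.d k95 k94 k90 0 2)))))), (.s k81
  k93 1 (.s k84 k168 13 (.s k243 k162 12 (.s k12 k166 14 (.s k92 k172 11 (.s k80 k88 1 (.d k83 k82
  k86 0 2))))))), (.s k84 k168 13 (.s k86 k87 0 (.s k92 k83 2 (.s k12 k172 11 (.s k4 k8 1 (.d k166
  k247 k243 12 14)))))), (.s k81 k93 1 (.s k84 k168 13 (.s k86 k87 0 (.s k243 k162 12 (.s k246 k249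
  2 (.d k166 k12 k6 14 11)))))), (.s k81 k93 1 (.s k243 k162 12 (.s k12 k166 14 (.s k92 k172 11 (.s
  k86 k83 2 (.s k169 k3 14 (.d k249 k246 k9 2 11)))))))] (.c k86 (.f k81 k93 1 (.l (.s k84 k168 13
  (.s k243 k162 12 (.s k12 k166 14 (.s k4 k8 1 (.s k92 k172 11 (.s k88 k80 1 (.d k164 k244 k240 11
  13))))))))) .n)) .n))))))))))))

def t2_254 : T TT 256 :=
  (.q k51 [(.s k17 k34 4 (.s k153 k221 9 (.s k102 k204 14 (.s k119 k68 4 (.d k255 k170 k187 14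
  9))))), (.s k34 k17 4 (.s k170 k255 14 (.s k102 k238 9 (.s k68 k119 4 (.d k204 k136 k153 9
  14)))))] (.c k17 (.f k255 k170 14 (.q k86 [(.s k84 k87 0 (.s k119 k187 9 (.s k102 k68 4 (.s k252
  k168 13 (.d k118 k70 k185 3 10))))), (.s k87 k84 0 (.s k3 k171 13 (.s k19 k35 3 (.s k119 k187 9
  (.s k103 k71 3 (.d k155 k223 k207 9 13)))))), (.s k119 k187 9 (.s k102 k68 4 (.s k118 k70 3 (.s
  k153 k204 14 (.s k19 k220 10 (.s k3 k35 3 (.d k252 k185 k169 10 14))))))), (.s k84 k87 0 (.s k252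
  k168 13 (.s k118 k185 10 (.s k102 k70 3 (.s k153 k204 14 (.s k19 k220 10 (.d k3 k169 k35 14
  3)))))))] (.c k153 (.l (.s k84 k87 0 (.s k252 k168 13 (.s k118 k185 10 (.s k102 k70 3 (.d k119 k68
  k187 4 9)))))) (.c k169 (.l (.s k84 k87 0 (.s k119 k187 9 (.s k102 k68 4 (.s k118 k70 3 (.d k252
  k185 k168 10 13)))))) .n)))) (.c k34 (.q k86 [(.s k84 k87 0 (.s k252 k168 13 (.s k118 k185 10 (.s
  k102 k70 3 (.s k68 k119 4 (.d k204 k136 k153 9 14)))))), (.s k87 k84 0 (.s k255 k170 14 (.s k3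
  k171 13 (.s k169 k252 14 (.s k35 k19 3 (.s k102 k236 10 (.d k119 k68 k187 4 9))))))), (.s k84 k87
  0 (.s k252 k168 13 (.s k3 k169 14 (.s k19 k35 3 (.s k118 k185 10 (.s k102 k70 3 (.d k153 k220 k204
  10 14)))))))] (.c k18 (.q k50 [(.s k48 k49 0 (.s k16 k32 3 (.s k154 k223 10 (.s k101 k207 14 (.s
  k117 k69 3 (.d k255 k186 k170 10 14)))))), (.s k84 k87 0 (.s k252 k168 13 (.s k118 k185 10 (.s
  k102 k70 3 (.s k68 k119 4 (.d k204 k136 k153 9 14))))))] .n) (.c k50 (.q k18 [(.s k84 k87 0 (.s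
  k154 k222 9 (.s k16 k223 10 (.s k19 k17 0 (.d k220 k152 k153 9 10))))), (.s k84 k87 0 (.s k252
  k168 13 (.s k118 k185 10 (.s k102 k70 3 (.s k68 k119 4 (.d k204 k136 k153 9 14)))))), (.s k154
  k222 9 (.s k16 k223 10 (.s k19 k17 0 (.s k3 k35 3 (.d k48 k32 k33 3 4)))))] (.c k118 (.q k186 [(.s
  k154 k222 9 (.d k170 k138 k255 3 14)), (.s k87 k84 0 (.s k255 k170 14 (.s k3 k171 13 (.d k48 k33
  k117 4 10)))), (.s k84 k87 0 (.s k154 k222 9 (.s k16 k223 10 (.s k19 k17 0 (.d k220 k152 k153 9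
  10)))))] (.c k238 (.l (.s k170 k255 14 (.d k154 k138 k222 3 9))) .n)) (.c k186 (.q k118 [(.s k84
  k87 0 (.d k252 k185 k168 10 13)), (.s k102 k70 3 (.s k68 k119 4 (.d k204 k136 k153 9 14)))] .n)
  (.c k206 (.l (.s k84 k87 0 (.s k252 k168 13 (.s k3 k169 14 (.s k19 k35 3 (.s k16 k17 0 (.d k48 k32
  k33 3 4))))))) .n)))) (.c k84 (.f k255 k170 14 (.l (.s k119 k187 9 (.s k102 k68 4 (.s k118 k70 3
  (.s k153 k204 14 (.s k19 k220 10 (.s k3 k35 3 (.d k252 k185 k169 10 14))))))))) (.c k87 (.f k255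
  k170 14 (.l (.s k119 k187 9 (.s k102 k68 4 (.s k118 k70 3 (.s k117 k116 0 (.s k48 k186 10 (.s k185
  k252 10 (.d k49 k50 k253 0 9))))))))) (.c k102 (.f k84 k87 0 (.f k252 k168 13 (.l (.s k169 k3 14
  (.s k185 k118 10 (.s k153 k137 3 (.s k220 k19 10 (.s k16 k152 9 (.s k221 k17 9 (.d k223 k222 k154
  0 10)))))))))) (.c k168 (.l (.s k87 k84 0 (.s k255 k170 14 (.s k3 k171 13 (.s k169 k252 14 (.s k35
  k19 3 (.s k102 k236 10 (.d k119 k68 k187 4 9)))))))) (.c k204 (.l (.s k84 k87 0 (.s k252 k168 13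
  (.s k118 k185 10 (.s k102 k70 3 (.s k119 k68 4 (.d k255 k187 k170 9 14))))))) (.c k252 (.l (.s k87
  k84 0 (.s k255 k170 14 (.s k3 k171 13 (.s k19 k35 3 (.s k119 k187 9 (.s k102 k68 4 (.d k153 k220
  k204 10 14)))))))) .n))))))))) (.c k68 (.q k86 [(.s k34 k17 4 (.s k84 k87 0 (.s k170 k255 14 (.s
  k252 k168 13 (.s k118 k185 10 (.d k102 k70 k238 3 9)))))), (.s k17 k34 4 (.s k84 k87 0 (.s k153
  k221 9 (.s k19 k220 10 (.s k3 k35 3 (.d k252 k168 k169 13 14)))))), (.s k17 k34 4 (.s k153 k221 9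
  (.s k19 k220 10 (.s k3 k35 3 (.s k102 k204 14 (.s k118 k70 3 (.d k252 k185 k169 10 14))))))), (.s
  k84 k87 0 (.s k252 k168 13 (.s k3 k169 14 (.s k19 k35 3 (.s k118 k185 10 (.s k102 k70 3 (.d k153
  k220 k204 10 14)))))))] (.c k3 (.l (.s k17 k34 4 (.s k84 k87 0 (.s k153 k221 9 (.s k102 k204 14
  (.s k252 k168 13 (.d k118 k70 k185 3 10))))))) (.c k252 (.l (.s k17 k34 4 (.s k87 k84 0 (.s k153
  k221 9 (.s k19 k220 10 (.s k3 k35 3 (.d k255 k171 k170 13 14))))))) .n))) (.c k86 (.l (.s k170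
  k255 14 (.s k17 k34 4 (.s k153 k221 9 (.s k136 k187 4 (.d k204 k68 k102 9 14)))))) (.c k102 (.q
  k154 [(.s k16 k223 10 (.s k48 k32 3 (.s k101 k207 14 (.s k117 k69 3 (.d k255 k170 k186 14 10))))),
  (.s k16 k223 10 (.s k17 k34 4 (.s k153 k221 9 (.s k152 k155 0 (.s k220 k84 9 (.d k19 k18 k86 0
  10)))))), (.s k17 k34 4 (.s k153 k221 9 (.s k155 k152 0 (.s k170 k255 14 (.s k138 k186 3 (.d k207
  k69 k103 10 13))))))] (.c k86 (.l (.s k170 k255 14 (.s k16 k223 10 (.s k48 k32 3 (.s k138 k186 3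
  (.d k207 k69 k101 10 14)))))) (.c k170 (.q k86 [(.s k16 k223 10 (.s k18 k222 9 (.d k17 k34 k19 4
  0))), (.s k84 k87 0 (.s k222 k18 9 (.s k252 k168 13 (.s k207 k237 4 (.s k69 k138 10 (.d k101 k117
  k48 3 14)))))), (.s k16 k223 10 (.s k48 k32 3 (.s k84 k87 0 (.s k101 k207 14 (.s k116 k71 4 (.d
  k252 k184 k168 9 13))))))] (.c k34 (.q k238 [(.s k16 k223 10 (.s k18 k222 9 (.s k19 k17 0 (.s k84
  k87 0 (.d k220 k152 k153 9 10))))), (.s k84 k87 0 (.s k252 k168 13 (.s k169 k3 14 (.s k184 k139 4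
  (.s k48 k116 9 (.s k207 k101 14 (.d k222 k18 k237 9 4))))))), (.s k16 k223 10 (.s k18 k222 9 (.s
  k19 k17 0 (.s k3 k35 3 (.d k48 k32 k33 3 4)))))] (.c k18 (.q k50 [(.s k16 k223 10 (.d k48 k49 k32
  0 3)), (.s k48 k49 0 (.s k84 k87 0 (.s k101 k207 14 (.s k116 k71 4 (.d k252 k184 k168 9 13))))),
  (.s k16 k223 10 (.s k84 k87 0 (.s k220 k152 9 (.s k19 k153 10 (.s k3 k35 3 (.d k252 k169 k168 14
  13))))))] .n) (.c k50 (.l (.s k18 k222 9 (.s k16 k223 10 (.s k19 k17 0 (.s k3 k35 3 (.d k48 k32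
  k33 3 4)))))) (.c k222 (.l (.s k16 k223 10 (.s k48 k32 3 (.s k84 k87 0 (.s k101 k207 14 (.s k116
  k71 4 (.d k252 k184 k168 9 13))))))) .n)))) (.c k238 (.l (.s k34 k17 4 (.s k87 k84 0 (.s k222 k18
  9 (.s k223 k16 10 (.s k19 k155 9 (.d k220 k221 k153 0 10))))))) .n))) .n))) (.c k119 (.l (.s k17
  k34 4 (.s k153 k221 9 (.s k170 k255 14 (.s k136 k187 4 (.d k204 k68 k102 9 14)))))) (.c k153 (.q
  k4 [(.s k12 k8 1 (.s k166 k247 12 (.s k89 k243 14 (.s k93 k81 1 (.d k255 k170 k174 14 12))))), (.s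
  k12 k8 1 (.s k34 k17 4 (.s k38 k25 6 (.s k21 k55 4 (.d k42 k46 k63 1 6))))), (.s k34 k17 4 (.s
  k166 k247 12 (.s k170 k255 14 (.s k102 k238 9 (.s k38 k230 7 (.s k21 k55 4 (.d k42 k46 k63 1
  6)))))))] (.c k86 (.l (.s k170 k255 14 (.s k12 k8 1 (.s k166 k247 12 (.s k162 k174 1 (.d k243 k81
  k89 12 14)))))) (.c k170 (.q k86 [(.s k84 k87 0 (.s k166 k247 12 (.s k6 k246 11 (.s k7 k5 0 (.d
  k244 k164 k165 11 12))))), (.s k12 k8 1 (.s k34 k17 4 (.s k38 k25 6 (.s k21 k55 4 (.d k42 k46 k63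
  1 6)))))] (.c k136 (.q k187 [(.s k12 k8 1 (.s k166 k247 12 (.s k89 k243 14 (.s k93 k81 1 (.d k255
  k119 k174 9 12))))), (.s k84 k87 0 (.s k119 k255 9 (.s k102 k68 4 (.s k118 k70 3 (.d k252 k185
  k168 10 13))))), (.s k12 k8 1 (.s k34 k17 4 (.s k38 k25 6 (.s k21 k55 4 (.d k42 k46 k63 1 6)))))]
  .n) (.c k187 (.q k136 [(.s k12 k8 1 (.s k68 k204 9 (.s k102 k119 4 (.s k166 k247 12 (.d k38 k25
  k230 6 7))))), (.s k68 k204 9 (.s k84 k87 0 (.s k102 k119 4 (.s k118 k70 3 (.d k252 k185 k168 10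
  13))))), (.s k12 k8 1 (.s k34 k17 4 (.s k38 k25 6 (.s k21 k55 4 (.d k42 k46 k63 1 6)))))] .n)
  .n))) .n))) (.c k170 (.q k86 [(.s k17 k34 4 (.s k87 k84 0 (.s k153 k221 9 (.s k19 k220 10 (.s k223
  k155 9 (.d k16 k18 k154 0 10)))))), (.s k84 k87 0 (.s k252 k168 13 (.s k118 k185 10 (.s k102 k70 3
  (.s k68 k119 4 (.d k204 k136 k153 9 14)))))), (.s k17 k34 4 (.s k153 k221 9 (.s k19 k220 10 (.s k3
  k35 3 (.s k102 k204 14 (.s k118 k70 3 (.d k252 k185 k169 10 14)))))))] (.c k102 (.l (.s k84 k87 0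
  (.s k252 k168 13 (.s k169 k3 14 (.s k185 k118 10 (.s k153 k137 3 (.d k17 k34 k221 4 9))))))) (.c
  k153 (.f k84 k87 0 (.l (.s k252 k168 13 (.s k118 k185 10 (.s k102 k70 3 (.s k68 k119 4 (.s k169 k3
  14 (.s k236 k35 10 (.d k204 k220 k136 3 9))))))))) .n))) (.c k204 (.f k34 k17 4 (.q k4 [(.s k12 k8
  1 (.s k38 k25 6 (.s k21 k55 4 (.d k42 k46 k63 1 6)))), (.s k166 k247 12 (.s k170 k255 14 (.s k162
  k174 1 (.s k98 k226 7 (.s k145 k192 12 (.s k179 k128 4 (.d k243 k115 k81 7 12)))))))] (.c k12 (.l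
  (.s k166 k247 12 (.s k170 k255 14 (.s k174 k162 1 (.s k238 k102 9 (.s k46 k110 7 (.s k42 k38 1 (.d
  k106 k234 k226 7 9)))))))) (.c k86 (.l (.s k170 k255 14 (.s k12 k8 1 (.s k38 k25 6 (.s k21 k55 4
  (.d k42 k46 k63 1 6)))))) (.c k170 (.q k86 [(.s k12 k8 1 (.s k38 k25 6 (.s k21 k55 4 (.d k42 k46
  k63 1 6)))), (.s k84 k87 0 (.s k166 k247 12 (.s k6 k246 11 (.s k7 k5 0 (.d k244 k164 k165 11
  12)))))] .n) .n))))) (.c k221 (.l (.s k34 k17 4 (.s k170 k255 14 (.s k102 k238 9 (.s k204 k153 14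
  (.d k68 k119 k136 4 9)))))) (.c k238 (.l (.s k17 k34 4 (.s k153 k221 9 (.s k170 k255 14 (.s k204
  k102 14 (.d k136 k187 k68 4 9)))))) (.c k255 (.q k252 [(.s k84 k168 13 (.s k86 k87 0 (.s k3 k169
  14 (.s k19 k35 3 (.s k153 k220 10 (.d k17 k34 k221 4 9)))))), (.s k84 k168 13 (.s k86 k87 0 (.s
  k118 k185 10 (.s k102 k70 3 (.s k68 k119 4 (.d k204 k136 k153 9 14)))))), (.s k17 k34 4 (.s k84
  k168 13 (.s k153 k221 9 (.s k204 k102 14 (.s k220 k236 3 (.s k16 k152 9 (.d k19 k18 k86 0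
  10))))))), (.s k17 k34 4 (.s k153 k221 9 (.s k185 k118 10 (.s k169 k137 3 (.s k86 k3 14 (.s k204
  k102 14 (.d k220 k236 k19 3 10)))))))] (.c k86 (.q k170 [(.s k17 k34 4 (.s k153 k221 9 (.s k136
  k187 4 (.d k204 k68 k102 9 14)))), (.s k168 k84 13 (.s k169 k171 0 (.s k185 k118 10 (.s k153 k137
  3 (.s k136 k187 4 (.d k204 k102 k68 14 9)))))), (.s k17 k34 4 (.s k153 k221 9 (.s k168 k84 13 (.s
  k169 k171 0 (.d k185 k137 k118 3 10))))), (.s k34 k17 4 (.s k102 k238 9 (.s k68 k119 4 (.s k168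
  k84 13 (.s k169 k171 0 (.s k204 k136 9 (.d k236 k220 k35 3 10)))))))] (.c k204 (.l (.s k17 k34 4
  (.s k168 k84 13 (.s k169 k171 0 (.s k185 k118 10 (.d k153 k137 k221 3 9)))))) .n)) (.c k102 (.l
  (.s k17 k34 4 (.s k84 k168 13 (.s k86 k87 0 (.s k3 k169 14 (.s k153 k221 9 (.d k19 k35 k220 3
  10))))))) (.c k153 (.f k84 k168 13 (.l (.s k86 k87 0 (.s k118 k185 10 (.s k102 k70 3 (.s k68 k119
  4 (.s k204 k136 9 (.s k236 k220 3 (.d k169 k3 k35 14 10))))))))) (.c k170 (.q k86 [(.d k84 k87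
  k168 0 13), (.s k17 k34 4 (.s k118 k185 10 (.s k102 k70 3 (.d k153 k221 k204 9 14))))] .n) .n)))))
  .n)))))))))))))

def t3_5 : T TT 256 :=
  (.f k255 k170 14 (.q k102 [(.s k68 k119 4 (.s k204 k136 9 (.s k221 k238 4 (.d k153 k17 k51 9
  14))))] (.c k17 (.q k4 [(.s k12 k8 1 (.s k93 k174 12 (.s k166 k247 12 (.d k89 k81 k243 1 14)))),
  (.s k68 k119 4 (.s k166 k247 12 (.s k38 k230 7 (.s k55 k21 4 (.d k196 k132 k149 7 12))))), (.s k12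
  k8 1 (.s k68 k119 4 (.s k132 k196 7 (.s k72 k192 9 (.s k76 k64 1 (.d k204 k140 k136 7 9))))))] .n)
  (.c k51 (.f k68 k119 4 (.q k192 [(.s k64 k128 7 (.s k106 k127 6 (.s k213 k234 6 (.d k149 k21 k63 7
  14)))), (.s k128 k64 7 (.s k136 k204 9 (.s k132 k140 1 (.s k4 k196 7 (.d k12 k8 k72 1 9))))), (.s
  k204 k136 9 (.s k196 k200 1 (.s k213 k234 6 (.d k149 k21 k55 7 12))))] (.c k19 (.q k35 [(.s k64
  k128 7 (.s k106 k127 6 (.s k213 k234 6 (.d k149 k21 k63 7 14)))), (.s k128 k64 7 (.s k136 k204 9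
  (.s k132 k140 1 (.s k4 k196 7 (.d k12 k8 k72 1 9))))), (.s k204 k136 9 (.s k196 k200 1 (.s k213
  k234 6 (.d k149 k21 k55 7 12))))] .n) (.c k35 (.q k19 [(.s k64 k128 7 (.s k106 k127 6 (.s k213
  k234 6 (.d k149 k21 k63 7 14)))), (.s k128 k64 7 (.s k136 k204 9 (.s k132 k140 1 (.s k4 k196 7 (.d
  k12 k8 k72 1 9))))), (.s k204 k136 9 (.s k196 k200 1 (.s k213 k234 6 (.d k149 k21 k55 7 12))))]
  .n) .n)))) (.c k68 (.q k81 [(.s k89 k93 1 (.s k243 k162 12 (.s k247 k251 1 (.d k166 k4 k12 12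
  14)))), (.s k89 k93 1 (.s k115 k76 6 (.s k64 k98 4 (.s k192 k128 7 (.s k213 k234 6 (.s k149 k21 7
  (.d k106 k127 k63 6 14)))))))] (.c k89 (.f k243 k162 12 (.q k166 [(.d k247 k251 k4 1 12), (.s k230
  k38 7 (.s k204 k217 6 (.s k153 k51 14 (.d k221 k238 k17 4 9))))] (.c k8 (.l (.s k251 k247 1 (.s
  k230 k38 7 (.s k204 k217 6 (.s k153 k51 14 (.d k221 k238 k17 4 9)))))) (.c k251 (.q k8 [(.d k4 k12
  k247 1 12), (.s k230 k38 7 (.s k204 k217 6 (.s k221 k238 4 (.d k153 k17 k51 9 14))))] .n) .n))))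
  (.c k93 (.l (.s k243 k162 12 (.s k247 k251 1 (.s k166 k4 12 (.s k230 k38 7 (.s k204 k217 6 (.s
  k153 k51 14 (.d k221 k238 k17 4 9)))))))) .n))) (.c k119 (.q k247 [(.s k243 k251 1 (.s k81 k162 12
  (.s k89 k93 1 (.d k166 k4 k12 12 14)))), (.s k166 k4 12 (.s k230 k38 7 (.s k213 k196 4 (.s k192
  k234 6 (.s k64 k128 7 (.s k106 k127 6 (.d k149 k21 k63 7 14)))))))] (.c k4 (.l (.s k243 k251 1 (.s
  k81 k162 12 (.s k89 k93 1 (.s k115 k76 6 (.s k51 k179 7 (.s k17 k34 4 (.d k153 k221 k204 9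
  14)))))))) (.c k166 (.f k243 k251 1 (.q k89 [(.d k81 k162 k93 12 1), (.s k115 k76 6 (.s k51 k179 7
  (.s k17 k34 4 (.d k153 k221 k204 9 14))))] (.c k162 (.q k174 [(.d k93 k81 k12 1 12), (.s k115 k76
  6 (.s k51 k179 7 (.s k17 k34 4 (.d k153 k221 k204 9 14))))] .n) (.c k174 (.l (.s k162 k81 12 (.s
  k115 k76 6 (.s k51 k179 7 (.s k17 k34 4 (.d k153 k221 k204 9 14)))))) .n)))) .n))) (.c k136 (.l
  (.s k119 k68 4 (.s k51 k187 9 (.s k153 k204 14 (.d k17 k34 k221 4 9))))) (.c k153 (.f k68 k119 4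
  (.q k149 [(.s k21 k213 7 (.s k63 k42 6 (.s k127 k191 7 (.d k106 k64 k192 6 14)))), (.s k196 k55 12
  (.s k4 k132 7 (.s k12 k8 1 (.s k93 k174 12 (.s k89 k81 1 (.d k166 k247 k243 12 14))))))] (.c k136
  (.q k187 [(.s k21 k213 7 (.s k63 k42 6 (.s k127 k191 7 (.d k106 k64 k192 6 14)))), (.s k196 k55 12
  (.s k4 k132 7 (.s k12 k8 1 (.s k93 k174 12 (.s k89 k81 1 (.d k166 k247 k243 12 14))))))] .n) (.c
  k187 (.l (.s k136 k204 9 (.s k21 k213 7 (.s k63 k42 6 (.s k106 k192 14 (.d k127 k64 k191 6 7))))))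
  .n)))) (.c k187 (.l (.s k68 k119 4 (.s k204 k136 9 (.s k153 k51 14 (.d k221 k238 k17 4 9))))) (.c
  k204 (.f k68 k119 4 (.q k149 [(.s k21 k213 7 (.s k63 k42 6 (.s k127 k191 7 (.d k106 k64 k192 6
  14)))), (.s k196 k55 12 (.s k4 k132 7 (.s k12 k8 1 (.s k93 k174 12 (.s k89 k81 1 (.d k166 k247
  k243 12 14))))))] (.c k70 (.q k137 [(.s k21 k213 7 (.s k63 k42 6 (.s k127 k191 7 (.d k106 k64 k192
  6 14)))), (.s k196 k55 12 (.s k4 k132 7 (.s k12 k8 1 (.s k93 k174 12 (.s k89 k81 1 (.d k166 k247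
  k243 12 14))))))] .n) (.c k137 (.q k70 [(.s k21 k213 7 (.s k63 k42 6 (.s k127 k191 7 (.d k106 k64
  k192 6 14)))), (.s k71 k69 0 (.s k86 k118 3 (.s k84 k87 0 (.d k116 k100 k101 3 4))))] .n) .n))))
  (.c k221 (.q k4 [(.s k12 k8 1 (.s k93 k174 12 (.s k89 k81 1 (.d k166 k247 k243 12 14)))), (.s k68
  k119 4 (.s k166 k247 12 (.s k38 k230 7 (.s k55 k21 4 (.d k196 k132 k149 7 12))))), (.s k12 k8 1
  (.s k68 k119 4 (.s k132 k196 7 (.s k72 k192 9 (.s k76 k64 1 (.d k204 k140 k136 7 9))))))] .n) (.c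
  k238 (.l (.s k119 k68 4 (.s k51 k187 9 (.s k17 k34 4 (.d k153 k221 k204 9 14))))) .n))))))))))))

def t3_6 : T TT 256 :=
  (.q k12 [(.s k4 k8 1 (.s k166 k247 12 (.s k89 k243 14 (.s k93 k81 1 (.d k255 k174 k170 12 14))))),
  (.s k4 k8 1 (.s k166 k247 12 (.s k170 k255 14 (.s k162 k174 1 (.d k243 k81 k89 12 14)))))] (.c k4
  (.q k5 [(.s k165 k245 11 (.s k170 k255 14 (.s k160 k175 2 (.s k240 k80 11 (.d k15 k10 k90 2
  14))))), (.s k165 k245 11 (.s k255 k170 14 (.s k93 k174 12 (.s k89 k81 1 (.s k13 k241 13 (.s k1 k9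
  1 (.d k253 k173 k169 11 13))))))), (.s k15 k10 2 (.s k14 k13 0 (.s k255 k170 14 (.s k174 k93 12
  (.s k94 k254 11 (.s k173 k252 12 (.d k175 k172 k95 0 11)))))))] (.c k170 (.l (.s k15 k10 2 (.s k14
  k13 0 (.s k165 k245 11 (.s k90 k240 14 (.s k166 k242 13 (.s k167 k164 0 (.d k243 k91 k89 13
  14)))))))) (.c k255 (.l (.s k15 k10 2 (.s k165 k245 11 (.s k240 k90 14 (.s k164 k88 13 (.s k166
  k167 0 (.s k89 k243 14 (.d k13 k14 k241 0 13)))))))) .n))) (.c k8 (.q k5 [(.s k165 k245 11 (.s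
  k170 k255 14 (.s k160 k175 2 (.s k240 k80 11 (.d k15 k10 k90 2 14))))), (.s k165 k245 11 (.s k255
  k170 14 (.s k93 k174 12 (.s k89 k81 1 (.s k13 k241 13 (.s k253 k173 11 (.d k1 k9 k169 1 13))))))),
  (.s k15 k10 2 (.s k14 k13 0 (.s k255 k170 14 (.s k174 k93 12 (.s k94 k254 11 (.s k173 k252 12 (.d
  k175 k172 k95 0 11))))))), (.s k15 k10 2 (.s k14 k13 0 (.s k165 k245 11 (.s k90 k240 14 (.s k166
  k242 13 (.s k167 k164 0 (.d k243 k91 k89 13 14)))))))] (.c k255 (.l (.s k15 k10 2 (.s k165 k245 11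
  (.s k240 k90 14 (.s k164 k88 13 (.s k166 k167 0 (.s k89 k243 14 (.d k13 k14 k241 0 13)))))))) .n))
  (.c k81 (.q k5 [(.s k15 k10 2 (.s k165 k245 11 (.s k170 k255 14 (.s k160 k175 2 (.d k240 k80 k90
  11 14))))), (.s k4 k8 1 (.s k15 k10 2 (.s k165 k245 11 (.s k166 k247 12 (.s k89 k243 14 (.d k13
  k14 k241 0 13)))))), (.s k4 k8 1 (.s k165 k245 11 (.s k166 k247 12 (.s k164 k167 0 (.s k170 k255
  14 (.s k240 k88 13 (.d k160 k175 k80 2 11))))))), (.s k4 k8 1 (.s k15 k10 2 (.s k14 k13 0 (.s k166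
  k247 12 (.s k90 k242 13 (.s k95 k80 2 (.d k255 k175 k170 11 14)))))))] (.c k255 (.l (.s k4 k8 1
  (.s k15 k10 2 (.s k14 k13 0 (.s k165 k245 11 (.s k166 k247 12 (.d k90 k240 k242 14 13))))))) .n))
  (.c k89 (.q k5 [(.s k165 k245 11 (.s k170 k255 14 (.s k160 k175 2 (.s k240 k80 11 (.d k15 k10 k90
  2 14))))), (.s k4 k8 1 (.s k15 k10 2 (.s k14 k13 0 (.s k165 k245 11 (.s k166 k247 12 (.d k90 k242
  k240 13 14)))))), (.s k15 k10 2 (.s k255 k170 14 (.s k174 k93 12 (.s k175 k95 11 (.s k173 k172 0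
  (.s k94 k252 12 (.d k14 k13 k254 0 11))))))), (.s k4 k8 1 (.s k165 k245 11 (.s k166 k247 12 (.s
  k164 k167 0 (.s k170 k255 14 (.s k160 k175 2 (.d k240 k80 k88 11 13)))))))] (.c k15 (.l (.s k4 k8
  1 (.s k165 k245 11 (.s k166 k247 12 (.s k164 k167 0 (.s k170 k255 14 (.s k240 k88 13 (.d k160 k175
  k80 2 11)))))))) (.c k170 (.l (.s k15 k10 2 (.s k14 k13 0 (.s k165 k245 11 (.s k90 k240 14 (.s
  k166 k242 13 (.d k4 k8 k247 1 12))))))) .n))) (.c k166 (.f k255 k170 14 (.f k174 k93 12 (.q k252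
  [(.s k172 k92 11 (.s k173 k175 0 (.s k254 k253 0 (.d k94 k14 k15 11 12)))), (.s k4 k8 1 (.s k84
  k168 13 (.s k92 k172 11 (.s k88 k80 1 (.d k164 k244 k240 11 13))))), (.s k84 k168 13 (.s k86 k87 0
  (.s k254 k253 0 (.s k94 k14 11 (.s k90 k82 1 (.s k95 k80 2 (.d k15 k173 k175 12 11)))))))] (.c k86
  (.q k246 [(.s k172 k92 11 (.s k173 k175 0 (.s k254 k253 0 (.d k94 k14 k15 11 12)))), (.s k84 k168
  13 (.s k243 k249 2 (.s k247 k251 1 (.s k244 k245 0 (.d k4 k8 k164 1 11)))))] (.c k2 (.l (.s k254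
  k253 0 (.s k172 k92 11 (.s k173 k175 0 (.d k94 k14 k15 11 12))))) (.c k89 (.l (.s k254 k253 0 (.s
  k94 k14 11 (.s k173 k15 12 (.d k172 k175 k92 0 11))))) (.c k253 (.l (.s k4 k8 1 (.s k84 k168 13
  (.s k92 k172 11 (.s k88 k80 1 (.d k164 k244 k240 11 13)))))) (.c k254 (.q k2 [(.s k8 k4 1 (.s k168
  k84 13 (.s k88 k248 11 (.s k164 k240 13 (.d k172 k160 k92 1 11))))), (.s k243 k249 2 (.s k162 k81
  12 (.s k242 k82 11 (.s k240 k241 0 (.s k244 k248 1 (.d k245 k250 k247 2 0)))))), (.s k168 k84 13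
  (.s k172 k92 11 (.s k175 k173 0 (.s k95 k15 11 (.s k80 k90 2 (.d k160 k240 k164 11 1)))))), (.s k4
  k8 1 (.s k84 k168 13 (.s k243 k249 2 (.s k244 k164 11 (.d k247 k251 k245 1 0)))))] .n) .n))))) (.c
  k246 (.q k86 [(.d k84 k87 k168 0 13), (.s k172 k92 11 (.s k173 k175 0 (.s k94 k15 12 (.d k254 k253
  k14 0 11))))] .n) .n))))) (.c k170 (.q k20 [(.s k4 k8 1 (.s k36 k52 3 (.s k24 k48 5 (.s k28 k16 1
  (.d k60 k44 k40 3 5))))), (.s k60 k40 5 (.s k28 k44 3 (.s k150 k215 8 (.s k89 k211 10 (.s k81 k93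
  1 (.d k243 k162 k166 12 14)))))), (.s k4 k8 1 (.s k52 k36 3 (.s k150 k215 8 (.s k101 k199 12 (.s
  k117 k69 3 (.d k247 k182 k166 8 12))))))] (.c k36 (.l (.s k4 k8 1 (.s k60 k40 5 (.s k44 k28 3 (.s
  k150 k215 8 (.s k105 k195 14 (.d k166 k227 k247 10 12))))))) (.c k89 (.l (.s k8 k4 1 (.s k40 k60 5
  (.s k24 k56 3 (.s k16 k28 1 (.d k48 k32 k36 3 5)))))) .n))) (.c k174 (.l (.s k8 k4 1 (.s k170 k255
  14 (.s k89 k251 12 (.s k81 k93 1 (.d k243 k162 k166 12 14)))))) (.c k243 (.f k255 k170 14 (.f k174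
  k93 12 (.q k125 [(.s k60 k190 8 (.s k20 k40 5 (.s k105 k65 5 (.d k150 k215 k195 8 14)))), (.s k4
  k8 1 (.s k105 k65 5 (.s k166 k247 12 (.s k44 k227 10 (.d k60 k28 k190 3 8))))), (.s k8 k4 1 (.s
  k60 k190 8 (.s k40 k20 5 (.s k24 k56 3 (.s k36 k48 5 (.d k44 k32 k28 1 3))))))] (.c k60 (.l (.s k8
  k4 1 (.s k65 k105 5 (.s k195 k130 8 (.s k73 k134 10 (.s k69 k77 1 (.d k138 k203 k207 8 10)))))))
  (.c k83 (.q k163 [(.s k60 k190 8 (.s k20 k40 5 (.s k105 k65 5 (.d k150 k215 k195 8 14)))), (.s k4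
  k8 1 (.s k105 k65 5 (.s k166 k247 12 (.s k44 k227 10 (.d k60 k28 k190 3 8))))), (.s k8 k4 1 (.s
  k60 k190 8 (.s k40 k20 5 (.s k24 k56 3 (.s k36 k48 5 (.d k44 k32 k28 1 3))))))] (.c k60 (.l (.s k8
  k4 1 (.s k65 k105 5 (.s k195 k130 8 (.s k73 k134 10 (.s k69 k77 1 (.d k138 k203 k207 8 10)))))))
  (.c k190 (.l (.s k4 k8 1 (.s k105 k65 5 (.s k166 k247 12 (.s k44 k227 10 (.s k60 k28 3 (.s k20 k40
  5 (.d k150 k195 k215 14 8)))))))) .n))) (.c k163 (.q k83 [(.s k60 k190 8 (.s k20 k40 5 (.s k105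
  k65 5 (.d k150 k215 k195 8 14)))), (.s k4 k8 1 (.s k105 k65 5 (.s k166 k247 12 (.s k44 k227 10 (.d
  k60 k28 k190 3 8))))), (.s k8 k4 1 (.s k60 k190 8 (.s k40 k20 5 (.s k24 k56 3 (.s k36 k48 5 (.d
  k44 k32 k28 1 3))))))] (.c k60 (.l (.s k8 k4 1 (.s k65 k105 5 (.s k195 k130 8 (.s k73 k134 10 (.s
  k69 k77 1 (.d k138 k203 k207 8 10))))))) (.c k190 (.l (.s k4 k8 1 (.s k105 k65 5 (.s k166 k247 12
  (.s k44 k227 10 (.s k60 k28 3 (.s k20 k40 5 (.d k150 k195 k215 14 8)))))))) .n))) (.c k190 (.l (.s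
  k4 k8 1 (.s k105 k65 5 (.s k166 k247 12 (.s k44 k227 10 (.s k60 k28 3 (.s k20 k40 5 (.d k150 k195
  k215 14 8)))))))) .n))))))) (.c k247 (.l (.s k8 k4 1 (.s k170 k255 14 (.s k89 k251 12 (.s k243
  k166 14 (.d k81 k93 k162 1 12)))))) (.c k251 (.l (.s k4 k8 1 (.s k166 k247 12 (.s k89 k243 14 (.s
  k255 k170 14 (.d k93 k81 k174 1 12)))))) (.c k255 (.f k4 k8 1 (.q k140 [(.s k166 k247 12 (.s k153
  k179 6 (.s k17 k221 9 (.s k51 k34 4 (.d k204 k76 k102 7 14))))), (.s k204 k76 7 (.s k68 k136 9 (.s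
  k102 k119 4 (.s k51 k153 14 (.s k38 k25 6 (.s k55 k21 4 (.d k196 k132 k149 7 12))))))), (.s k166
  k247 12 (.s k179 k153 6 (.s k243 k89 14 (.s k162 k81 12 (.s k128 k145 4 (.s k132 k136 1 (.d k192
  k72 k64 9 7))))))), (.s k166 k247 12 (.s k204 k76 7 (.s k68 k136 9 (.s k102 k119 4 (.s k230 k38 7
  (.d k243 k217 k89 6 14))))))] (.c k87 (.q k171 [(.s k166 k247 12 (.s k153 k179 6 (.s k17 k221 9
  (.s k51 k34 4 (.d k204 k76 k102 7 14))))), (.s k204 k76 7 (.s k68 k136 9 (.s k102 k119 4 (.s k51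
  k153 14 (.s k38 k25 6 (.s k55 k21 4 (.d k196 k132 k149 7 12))))))), (.s k166 k247 12 (.s k179 k153
  6 (.s k243 k89 14 (.s k162 k81 12 (.s k128 k145 4 (.s k132 k136 1 (.d k192 k72 k64 9 7))))))), (.s
  k166 k247 12 (.s k204 k76 7 (.s k68 k136 9 (.s k102 k119 4 (.s k230 k38 7 (.d k243 k217 k89 6
  14))))))] .n) (.c k171 (.q k87 [(.s k166 k247 12 (.s k153 k179 6 (.s k17 k221 9 (.s k51 k34 4 (.d
  k204 k76 k102 7 14))))), (.s k84 k86 0 (.s k164 k244 11 (.s k88 k240 13 (.s k92 k80 1 (.d k252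
  k172 k168 11 13)))))] (.c k166 (.l (.s k86 k84 0 (.s k204 k76 7 (.s k68 k136 9 (.s k119 k102 4 (.s
  k71 k103 3 (.s k69 k70 0 (.d k101 k117 k116 3 4)))))))) .n)) .n)))) .n))))))))))))

def t3_7 : T TT 256 :=
  (.q k15 [(.s k5 k10 2 (.s k165 k245 11 (.s k90 k240 14 (.s k95 k80 2 (.d k255 k175 k170 11
  14))))), (.s k5 k10 2 (.s k165 k245 11 (.s k170 k255 14 (.s k160 k175 2 (.d k240 k80 k90 11
  14)))))] (.c k5 (.f k255 k170 14 (.q k4 [(.s k12 k8 1 (.s k93 k174 12 (.s k89 k81 1 (.d k166 k247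
  k243 12 14)))), (.s k95 k175 11 (.s k90 k80 2 (.s k166 k247 12 (.s k14 k242 13 (.d k12 k13 k8 0
  1))))), (.s k12 k8 1 (.s k14 k13 0 (.s k174 k93 12 (.s k94 k254 11 (.s k173 k252 12 (.d k175 k172
  k95 0 11))))))] (.c k8 (.l (.s k95 k175 11 (.s k90 k80 2 (.s k166 k247 12 (.s k14 k242 13 (.s k12
  k13 0 (.s k89 k243 14 (.d k93 k81 k174 1 12)))))))) (.c k12 (.l (.s k95 k175 11 (.s k80 k90 2 (.s
  k247 k166 12 (.s k243 k251 1 (.s k91 k167 13 (.s k83 k87 1 (.d k81 k162 k82 12 0)))))))) .n))))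
  (.c k10 (.q k12 [(.s k8 k4 1 (.s k170 k255 14 (.s k89 k251 12 (.s k81 k93 1 (.d k243 k162 k166 12
  14))))), (.s k14 k13 0 (.s k255 k170 14 (.s k174 k93 12 (.s k94 k254 11 (.s k173 k252 12 (.d k175
  k172 k95 0 11)))))), (.s k4 k8 1 (.s k14 k13 0 (.s k166 k247 12 (.s k90 k242 13 (.s k80 k95 2 (.d
  k240 k160 k165 11 14))))))] .n) (.c k80 (.q k1 [(.s k5 k10 2 (.s k165 k245 11 (.s k169 k253 13 (.s
  k161 k173 1 (.s k241 k81 11 (.d k13 k9 k89 1 13)))))), (.s k253 k169 13 (.s k255 k170 14 (.s k175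
  k95 11 (.s k252 k254 0 (.s k173 k94 12 (.s k93 k13 11 (.d k174 k172 k12 0 12))))))), (.s k5 k10 2
  (.s k13 k9 1 (.s k12 k14 0 (.s k8 k4 1 (.s k165 k245 11 (.s k170 k255 14 (.d k89 k251 k241 12
  13)))))))] (.c k13 (.l (.s k5 k10 2 (.s k165 k245 11 (.s k169 k253 13 (.s k170 k255 14 (.s k173
  k161 1 (.s k252 k94 12 (.d k168 k171 k84 0 13)))))))) .n)) (.c k90 (.q k4 [(.s k12 k8 1 (.s k166
  k247 12 (.s k170 k255 14 (.s k162 k174 1 (.d k243 k81 k89 12 14))))), (.s k5 k10 2 (.s k12 k8 1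
  (.s k13 k14 0 (.s k165 k245 11 (.s k89 k241 13 (.d k166 k247 k243 12 14)))))), (.s k12 k8 1 (.s
  k14 k13 0 (.s k255 k170 14 (.s k174 k93 12 (.s k94 k254 11 (.s k173 k252 12 (.d k175 k172 k95 0
  11))))))), (.s k5 k10 2 (.s k165 k245 11 (.s k166 k247 12 (.s k167 k164 0 (.s k170 k255 14 (.s
  k162 k174 1 (.d k243 k81 k91 12 13)))))))] (.c k12 (.l (.s k5 k10 2 (.s k165 k245 11 (.s k166 k247
  12 (.s k167 k164 0 (.s k170 k255 14 (.s k243 k91 13 (.d k162 k174 k81 1 12)))))))) (.c k170 (.l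
  (.s k12 k8 1 (.s k13 k14 0 (.s k166 k247 12 (.s k89 k243 14 (.s k165 k241 13 (.d k5 k10 k245 2
  11))))))) .n))) (.c k165 (.f k5 k10 2 (.q k48 [(.s k32 k16 3 (.s k37 k26 6 (.s k21 k53 3 (.d k42
  k47 k63 2 6)))), (.s k26 k37 6 (.s k255 k170 14 (.s k117 k186 10 (.s k101 k69 3 (.s k154 k207 14
  (.s k90 k218 7 (.d k95 k175 k80 11 2))))))), (.s k16 k32 3 (.s k154 k223 10 (.s k101 k207 14 (.s
  k117 k69 3 (.d k255 k186 k170 10 14)))))] (.c k86 (.q k244 [(.s k32 k16 3 (.s k37 k26 6 (.s k21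
  k53 3 (.d k42 k47 k63 2 6)))), (.s k26 k37 6 (.s k255 k170 14 (.s k117 k186 10 (.s k101 k69 3 (.s
  k154 k207 14 (.s k90 k218 7 (.d k95 k175 k80 11 2))))))), (.s k16 k32 3 (.s k154 k223 10 (.s k101
  k207 14 (.s k117 k69 3 (.d k255 k186 k170 10 14)))))] (.c k169 (.q k252 [(.s k32 k16 3 (.s k37 k26
  6 (.s k21 k53 3 (.d k42 k47 k63 2 6)))), (.s k84 k168 13 (.s k164 k4 11 (.s k240 k248 1 (.s k80
  k160 11 (.d k88 k92 k12 1 13)))))] (.c k161 (.l (.s k173 k94 12 (.s k32 k16 3 (.s k37 k26 6 (.s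
  k21 k53 3 (.d k42 k47 k63 2 6)))))) (.c k173 (.q k161 [(.s k32 k16 3 (.s k37 k26 6 (.s k21 k53 3
  (.d k42 k47 k63 2 6)))), (.s k84 k168 13 (.s k164 k4 11 (.s k240 k248 1 (.s k80 k160 11 (.d k88
  k92 k12 1 13)))))] .n) .n))) (.c k252 (.q k169 [(.s k32 k16 3 (.s k37 k26 6 (.s k21 k53 3 (.d k42
  k47 k63 2 6)))), (.s k16 k32 3 (.s k154 k223 10 (.s k101 k207 14 (.s k117 k69 3 (.d k255 k186 k170
  10 14))))), (.s k1 k253 13 (.s k13 k9 1 (.s k37 k26 6 (.s k49 k25 5 (.s k17 k33 3 (.d k51 k50 k34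
  0 4))))))] .n) .n))) (.c k244 (.q k86 [(.s k32 k16 3 (.s k37 k26 6 (.s k21 k53 3 (.d k42 k47 k63 2
  6)))), (.s k84 k87 0 (.s k252 k168 13 (.s k94 k173 12 (.s k90 k82 1 (.s k95 k80 2 (.d k255 k175
  k170 11 14))))))] .n) .n)))) (.c k170 (.q k21 [(.s k5 k10 2 (.s k37 k53 3 (.s k26 k48 6 (.s k31
  k16 2 (.d k63 k47 k42 3 6))))), (.s k63 k42 6 (.s k31 k47 3 (.s k149 k213 7 (.s k90 k208 10 (.s
  k80 k95 2 (.d k240 k160 k165 11 14)))))), (.s k5 k10 2 (.s k53 k37 3 (.s k149 k213 7 (.s k101 k197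
  11 (.s k117 k69 3 (.d k245 k181 k165 7 11))))))] (.c k37 (.l (.s k5 k10 2 (.s k63 k42 6 (.s k47
  k31 3 (.s k149 k213 7 (.s k106 k192 14 (.d k165 k224 k245 10 11))))))) (.c k90 (.l (.s k10 k5 2
  (.s k42 k63 6 (.s k26 k58 3 (.s k16 k31 2 (.d k48 k32 k37 3 6)))))) .n))) (.c k175 (.l (.s k10 k5
  2 (.s k170 k255 14 (.s k90 k250 11 (.s k80 k95 2 (.d k240 k160 k165 11 14)))))) (.c k240 (.f k255
  k170 14 (.f k10 k5 2 (.q k4 [(.s k12 k8 1 (.s k93 k174 12 (.s k89 k81 1 (.d k166 k247 k243 12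
  14)))), (.s k95 k175 11 (.s k90 k80 2 (.s k166 k247 12 (.s k14 k242 13 (.d k12 k13 k8 0 1))))),
  (.s k12 k8 1 (.s k14 k13 0 (.s k174 k93 12 (.s k94 k254 11 (.s k173 k252 12 (.d k175 k172 k95 0
  11))))))] (.c k8 (.l (.s k95 k175 11 (.s k90 k80 2 (.s k166 k247 12 (.s k14 k242 13 (.s k12 k13 0
  (.s k93 k174 12 (.d k89 k243 k81 14 1)))))))) (.c k12 (.l (.s k95 k175 11 (.s k80 k90 2 (.s k247
  k166 12 (.s k243 k251 1 (.s k91 k167 13 (.s k83 k87 1 (.d k81 k162 k82 12 0)))))))) (.c k82 (.q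
  k161 [(.s k12 k8 1 (.s k93 k174 12 (.s k89 k81 1 (.d k166 k247 k243 12 14)))), (.s k12 k8 1 (.s
  k14 k13 0 (.s k174 k93 12 (.s k94 k254 11 (.s k173 k252 12 (.d k175 k172 k95 0 11)))))), (.s k95
  k175 11 (.s k90 k80 2 (.s k166 k247 12 (.s k14 k242 13 (.d k12 k13 k8 0 1)))))] (.c k8 (.l (.s k95
  k175 11 (.s k90 k80 2 (.s k166 k247 12 (.s k14 k242 13 (.s k12 k13 0 (.s k93 k174 12 (.d k89 k81
  k243 1 14)))))))) (.c k12 (.l (.s k175 k95 11 (.s k247 k166 12 (.s k243 k251 1 (.s k162 k81 12 (.s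
  k163 k160 0 (.d k167 k171 k91 1 13))))))) .n))) (.c k161 (.q k82 [(.s k12 k8 1 (.s k93 k174 12 (.s
  k89 k81 1 (.d k166 k247 k243 12 14)))), (.s k95 k175 11 (.s k80 k90 2 (.s k81 k83 0 (.s k243 k162
  12 (.d k247 k166 k251 12 1))))), (.s k12 k8 1 (.s k14 k13 0 (.s k2 k6 1 (.s k166 k247 12 (.d k242
  k162 k90 11 13))))), (.s k12 k8 1 (.s k95 k175 11 (.s k80 k90 2 (.s k81 k83 0 (.d k93 k89 k174 1
  12)))))] (.c k251 (.l (.s k166 k247 12 (.s k12 k8 1 (.s k89 k243 14 (.d k93 k81 k174 1 12)))))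
  .n)) .n))))))) (.c k245 (.l (.s k10 k5 2 (.s k170 k255 14 (.s k90 k250 11 (.s k240 k165 14 (.d k80
  k95 k160 2 11)))))) (.c k250 (.l (.s k5 k10 2 (.s k165 k245 11 (.s k90 k240 14 (.s k255 k170 14
  (.d k95 k80 k175 2 11)))))) (.c k255 (.q k69 [(.s k5 k10 2 (.s k133 k197 7 (.s k74 k192 10 (.s k79
  k64 2 (.d k207 k143 k138 7 10))))), (.s k101 k117 3 (.s k207 k138 10 (.s k79 k143 7 (.s k90 k112 6
  (.s k80 k95 2 (.d k240 k160 k165 11 14)))))), (.s k5 k10 2 (.s k101 k117 3 (.s k165 k245 11 (.s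
  k37 k229 7 (.s k53 k21 3 (.d k197 k133 k149 7 11))))))] (.c k87 (.q k171 [(.s k5 k10 2 (.s k133
  k197 7 (.s k74 k192 10 (.s k79 k64 2 (.d k207 k143 k138 7 10))))), (.s k101 k117 3 (.s k207 k138
  10 (.s k79 k143 7 (.s k90 k112 6 (.s k80 k95 2 (.d k240 k160 k165 11 14)))))), (.s k5 k10 2 (.s
  k101 k117 3 (.s k165 k245 11 (.s k37 k229 7 (.s k53 k21 3 (.d k197 k133 k149 7 11))))))] (.c k133
  (.l (.s k5 k10 2 (.s k101 k117 3 (.s k165 k245 11 (.s k37 k229 7 (.s k48 k26 6 (.d k207 k138 k154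
  10 14))))))) (.c k167 (.q k247 [(.s k5 k10 2 (.s k133 k197 7 (.s k74 k192 10 (.s k79 k64 2 (.d
  k207 k143 k138 7 10))))), (.s k4 k166 12 (.s k101 k117 3 (.s k199 k134 8 (.s k150 k52 12 (.d k215
  k231 k20 3 8)))))] .n) (.c k247 (.q k167 [(.s k5 k10 2 (.s k165 k245 11 (.s k175 k163 1 (.s k160
  k170 2 (.d k240 k90 k80 14 11))))), (.s k5 k10 2 (.s k133 k197 7 (.s k74 k192 10 (.s k79 k64 2 (.d
  k207 k143 k138 7 10))))), (.s k101 k117 3 (.s k207 k138 10 (.s k79 k143 7 (.s k90 k112 6 (.s k80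
  k95 2 (.d k240 k160 k165 11 14))))))] (.c k243 (.q k251 [(.s k5 k10 2 (.s k165 k245 11 (.s k240
  k90 14 (.s k160 k80 11 (.d k175 k163 k170 1 2))))), (.s k91 k11 11 (.s k207 k138 10 (.s k79 k143 7
  (.s k103 k115 5 (.s k39 k231 7 (.d k51 k27 k155 5 13))))))] (.c k83 (.l (.s k163 k175 1 (.s k5 k10
  2 (.s k133 k197 7 (.s k74 k192 10 (.s k79 k64 2 (.d k207 k143 k138 7 10))))))) (.c k163 (.q k83
  [(.s k5 k10 2 (.s k133 k197 7 (.s k74 k192 10 (.s k79 k64 2 (.d k207 k143 k138 7 10))))), (.s k91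
  k11 11 (.s k207 k138 10 (.s k79 k143 7 (.s k103 k115 5 (.s k39 k231 7 (.d k51 k27 k155 5 13)))))),
  (.s k5 k10 2 (.s k101 k117 3 (.s k165 k245 11 (.s k37 k229 7 (.s k53 k21 3 (.d k197 k133 k149 7
  11))))))] (.c k133 (.l (.s k5 k10 2 (.s k101 k117 3 (.s k165 k245 11 (.s k37 k229 7 (.s k48 k26 6
  (.d k207 k138 k154 10 14))))))) .n)) .n))) (.c k251 (.l (.s k243 k91 13 (.s k5 k10 2 (.s k81 k162
  12 (.s k89 k93 1 (.s k165 k245 11 (.d k166 k12 k164 14 0))))))) .n))) .n)))) (.c k133 (.l (.s k5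
  k10 2 (.s k101 k117 3 (.s k165 k245 11 (.s k37 k229 7 (.s k48 k26 6 (.d k207 k138 k154 10
  14))))))) (.c k171 (.q k87 [(.s k5 k10 2 (.s k133 k197 7 (.s k74 k192 10 (.s k79 k64 2 (.d k207
  k143 k138 7 10))))), (.s k86 k84 0 (.s k101 k117 3 (.s k71 k116 4 (.s k119 k103 3 (.d k68 k70 k102
  0 4)))))] .n) .n)))) .n))))))))))))

def t3_9 : T TT 256 :=
  (.q k12 [(.s k8 k4 1 (.s k170 k255 14 (.s k89 k251 12 (.s k81 k93 1 (.d k243 k162 k166 12 14))))),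
  (.s k4 k8 1 (.s k166 k247 12 (.s k89 k243 14 (.s k93 k81 1 (.d k255 k174 k170 12 14)))))] (.c k4
  (.q k15 [(.s k5 k10 2 (.s k165 k245 11 (.s k90 k240 14 (.s k95 k80 2 (.d k255 k175 k170 11
  14))))), (.s k13 k14 0 (.s k255 k170 14 (.s k93 k174 12 (.s k173 k253 11 (.s k94 k252 12 (.d k95
  k92 k175 0 11)))))), (.s k5 k10 2 (.s k13 k14 0 (.s k165 k245 11 (.s k89 k241 13 (.s k81 k93 1 (.d
  k243 k162 k166 12 14))))))] .n) (.c k8 (.q k69 [(.s k101 k117 3 (.s k207 k138 10 (.s k48 k154 14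
  (.s k32 k16 3 (.d k170 k239 k255 10 14))))), (.s k101 k117 3 (.s k207 k138 10 (.s k77 k142 8 (.s
  k89 k113 5 (.s k81 k93 1 (.d k243 k162 k166 12 14)))))), (.s k101 k117 3 (.s k255 k170 14 (.s k93
  k174 12 (.s k89 k81 1 (.s k77 k113 5 (.s k125 k109 3 (.d k65 k73 k105 1 5))))))), (.s k207 k138 10
  (.s k77 k142 8 (.s k255 k170 14 (.s k93 k174 12 (.s k125 k109 3 (.d k65 k73 k105 1 5))))))] (.c
  k10 (.q k11 [(.s k101 k117 3 (.s k170 k255 14 (.s k32 k239 10 (.s k48 k16 3 (.d k207 k138 k154 10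
  14))))), (.s k101 k117 3 (.s k207 k138 10 (.s k77 k142 8 (.s k89 k113 5 (.s k81 k93 1 (.d k243
  k162 k166 12 14)))))), (.s k207 k138 10 (.s k77 k142 8 (.s k255 k170 14 (.s k93 k174 12 (.s k125
  k109 3 (.d k65 k73 k105 1 5)))))), (.s k101 k117 3 (.s k255 k170 14 (.s k93 k174 12 (.s k89 k81 1
  (.s k77 k113 5 (.s k125 k109 3 (.d k65 k73 k105 1 5)))))))] .n) (.c k11 (.q k10 [(.s k15 k5 2 (.s
  k138 k207 10 (.s k74 k202 7 (.s k64 k79 2 (.d k192 k128 k133 7 10))))), (.s k101 k117 3 (.s k170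
  k255 14 (.s k32 k239 10 (.s k48 k16 3 (.d k207 k138 k154 10 14))))), (.s k15 k5 2 (.s k170 k255 14
  (.s k90 k250 11 (.s k80 k95 2 (.d k240 k160 k165 11 14)))))] (.c k7 (.l (.s k15 k5 2 (.s k138 k207
  10 (.s k74 k202 7 (.s k64 k79 2 (.d k192 k128 k133 7 10)))))) (.c k15 (.q k7 [(.s k101 k117 3 (.s
  k207 k138 10 (.s k48 k154 14 (.s k32 k16 3 (.d k170 k239 k255 10 14))))), (.s k101 k117 3 (.s k138
  k207 10 (.s k74 k202 7 (.s k79 k64 2 (.s k90 k112 6 (.d k170 k250 k255 11 14)))))), (.s k138 k207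
  10 (.s k74 k202 7 (.s k170 k255 14 (.s k90 k250 11 (.s k106 k122 3 (.d k64 k79 k127 2 6)))))), (.s
  k101 k117 3 (.s k170 k255 14 (.s k90 k250 11 (.s k79 k112 6 (.s k64 k74 2 (.s k95 k80 2 (.d k127
  k111 k106 3 6))))))), (.s k101 k117 3 (.s k207 k138 10 (.s k77 k142 8 (.s k89 k113 5 (.s k81 k93 1
  (.d k243 k162 k166 12 14))))))] .n) .n))) (.c k73 (.l (.s k101 k117 3 (.s k170 k255 14 (.s k32
  k239 10 (.s k48 k16 3 (.d k207 k138 k154 10 14)))))) .n)))) (.c k81 (.q k5 [(.s k4 k8 1 (.s k7 k6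
  0 (.s k165 k245 11 (.s k86 k244 12 (.s k87 k84 0 (.d k247 k167 k166 11 12)))))), (.s k165 k245 11
  (.s k170 k255 14 (.s k160 k175 2 (.s k240 k80 11 (.d k15 k10 k90 2 14))))), (.s k15 k10 2 (.s k13
  k14 0 (.s k255 k170 14 (.s k93 k174 12 (.s k95 k175 11 (.s k94 k92 0 (.d k173 k253 k252 11
  12)))))))] (.c k10 (.l (.s k165 k245 11 (.s k170 k255 14 (.s k160 k175 2 (.s k240 k80 11 (.s k164
  k88 13 (.s k166 k167 0 (.d k4 k8 k247 1 12)))))))) (.c k165 (.l (.s k4 k8 1 (.s k6 k7 0 (.s k166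
  k247 12 (.s k86 k246 11 (.s k170 k255 14 (.s k2 k254 13 (.d k10 k15 k14 2 1)))))))) .n))) (.c k89
  (.f k255 k170 14 (.f k8 k4 1 (.q k252 [(.s k168 k84 13 (.s k88 k248 11 (.s k164 k240 13 (.d k172
  k160 k92 1 11)))), (.s k92 k172 11 (.s k93 k174 12 (.s k94 k95 0 (.s k173 k15 12 (.d k253 k254 k13
  0 11)))))] (.c k92 (.f k84 k168 13 (.l (.s k86 k87 0 (.s k174 k93 12 (.s k254 k253 0 (.s k94 k14
  11 (.s k90 k82 1 (.s k95 k80 2 (.d k15 k173 k175 12 11))))))))) (.c k169 (.q k249 [(.s k168 k84 13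
  (.s k243 k246 2 (.s k251 k247 1 (.d k248 k250 k88 0 11)))), (.s k92 k172 11 (.s k93 k174 12 (.s
  k94 k95 0 (.s k173 k15 12 (.d k253 k254 k13 0 11)))))] (.c k168 (.q k171 [(.s k172 k92 11 (.s k254
  k253 0 (.s k174 k93 12 (.s k94 k14 11 (.d k173 k175 k15 0 12))))), (.s k243 k246 2 (.s k251 k247 1
  (.s k250 k248 0 (.s k245 k240 2 (.d k253 k254 k241 0 1)))))] (.c k253 (.l (.s k92 k172 11 (.s k93
  k174 12 (.s k95 k94 0 (.s k80 k90 2 (.s k88 k84 1 (.d k240 k160 k164 11 13))))))) (.c k254 (.l (.s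
  k172 k92 11 (.s k174 k93 12 (.s k175 k173 0 (.s k167 k163 1 (.s k243 k246 2 (.d k15 k95 k91 11
  13))))))) .n))) (.c k171 (.l (.s k168 k84 13 (.s k88 k248 11 (.s k164 k240 13 (.d k172 k160 k92 1
  11))))) .n))) (.c k172 (.l (.s k168 k84 13 (.s k248 k88 11 (.s k253 k254 0 (.s k169 k1 13 (.s k90
  k11 12 (.s k80 k95 2 (.d k240 k244 k160 1 11)))))))) (.c k249 (.q k169 [(.d k253 k254 k1 0 13),
  (.s k168 k84 13 (.s k88 k248 11 (.s k164 k240 13 (.d k172 k160 k92 1 11))))] .n) .n))))))) (.c k93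
  (.l (.s k4 k8 1 (.s k166 k247 12 (.s k170 k255 14 (.s k162 k174 1 (.d k243 k81 k89 12 14)))))) (.c
  k166 (.q k16 [(.s k48 k32 3 (.s k154 k223 10 (.s k101 k207 14 (.s k117 k69 3 (.d k255 k186 k170 10
  14))))), (.s k8 k4 1 (.s k48 k32 3 (.s k24 k36 5 (.s k20 k28 1 (.d k40 k56 k60 3 5))))), (.s k8 k4
  1 (.s k154 k223 10 (.s k170 k255 14 (.s k89 k251 12 (.s k24 k219 8 (.s k20 k28 1 (.d k40 k56 k60 3
  5)))))))] .n) (.c k170 (.q k20 [(.s k8 k4 1 (.s k40 k60 5 (.s k24 k56 3 (.s k16 k28 1 (.d k48 k32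
  k36 3 5))))), (.s k4 k8 1 (.s k52 k36 3 (.s k150 k215 8 (.s k101 k199 12 (.s k117 k69 3 (.d k247
  k182 k166 8 12)))))), (.s k60 k40 5 (.s k28 k44 3 (.s k150 k215 8 (.s k89 k211 10 (.s k81 k93 1
  (.d k243 k162 k166 12 14))))))] (.c k36 (.l (.s k4 k8 1 (.s k60 k40 5 (.s k44 k28 3 (.s k150 k215
  8 (.s k105 k195 14 (.d k166 k227 k247 10 12))))))) .n)) (.c k243 (.f k255 k170 14 (.f k174 k93 12
  (.f k8 k4 1 (.q k42 [(.s k21 k63 6 (.s k25 k59 4 (.s k51 k38 6 (.d k17 k29 k34 1 4)))), (.s k63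
  k21 6 (.s k191 k127 7 (.s k157 k140 4 (.s k110 k204 12 (.d k46 k29 k238 4 7))))), (.s k25 k59 4
  (.s k51 k38 6 (.s k17 k34 4 (.s k119 k187 9 (.s k102 k68 4 (.d k153 k221 k204 9 14))))))] (.c k21
  (.l (.s k25 k59 4 (.s k38 k51 6 (.s k46 k34 1 (.s k63 k29 4 (.s k191 k127 7 (.s k157 k140 4 (.d
  k110 k238 k204 7 12)))))))) (.c k38 (.l (.s k21 k63 6 (.s k25 k59 4 (.s k17 k29 1 (.s k51 k34 4
  (.s k119 k187 9 (.s k102 k68 4 (.d k153 k221 k204 9 14)))))))) (.c k55 (.l (.s k21 k63 6 (.s k25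
  k59 4 (.s k51 k38 6 (.d k17 k29 k34 1 4))))) (.c k83 (.q k163 [(.s k21 k63 6 (.s k25 k59 4 (.s k51
  k38 6 (.d k17 k29 k34 1 4)))), (.s k63 k21 6 (.s k191 k127 7 (.s k157 k140 4 (.s k110 k204 12 (.d
  k46 k29 k238 4 7))))), (.s k25 k59 4 (.s k51 k38 6 (.s k17 k34 4 (.s k119 k187 9 (.s k102 k68 4
  (.d k153 k221 k204 9 14))))))] (.c k21 (.l (.s k25 k59 4 (.s k38 k51 6 (.s k46 k34 1 (.s k63 k29 4
  (.s k191 k127 7 (.s k157 k140 4 (.d k110 k238 k204 7 12)))))))) (.c k38 (.l (.s k21 k63 6 (.s k25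
  k59 4 (.s k17 k29 1 (.s k51 k34 4 (.s k119 k187 9 (.s k102 k68 4 (.d k153 k221 k204 9 14))))))))
  (.c k55 (.l (.s k21 k63 6 (.s k25 k59 4 (.s k51 k38 6 (.d k17 k29 k34 1 4))))) .n)))) (.c k163 (.q
  k83 [(.s k21 k63 6 (.s k25 k59 4 (.s k51 k38 6 (.d k17 k29 k34 1 4)))), (.s k63 k21 6 (.s k191
  k127 7 (.s k157 k140 4 (.s k110 k204 12 (.d k46 k29 k238 4 7))))), (.s k25 k59 4 (.s k51 k38 6 (.s
  k17 k34 4 (.s k119 k187 9 (.s k102 k68 4 (.d k153 k221 k204 9 14))))))] (.c k21 (.l (.s k25 k59 4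
  (.s k38 k51 6 (.s k46 k34 1 (.s k63 k29 4 (.s k191 k127 7 (.s k157 k140 4 (.d k110 k238 k204 7
  12)))))))) (.c k38 (.l (.s k21 k63 6 (.s k25 k59 4 (.s k17 k29 1 (.s k51 k34 4 (.s k119 k187 9 (.s
  k102 k68 4 (.d k153 k221 k204 9 14)))))))) (.c k55 (.l (.s k21 k63 6 (.s k25 k59 4 (.s k51 k38 6
  (.d k17 k29 k34 1 4))))) .n)))) .n))))))))) (.c k247 (.l (.s k8 k4 1 (.s k170 k255 14 (.s k89 k251
  12 (.s k243 k166 14 (.d k81 k93 k162 1 12)))))) (.c k251 (.l (.s k4 k8 1 (.s k166 k247 12 (.s k89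
  k243 14 (.s k255 k170 14 (.d k93 k81 k174 1 12)))))) (.c k255 (.q k60 [(.s k8 k4 1 (.s k44 k28 3
  (.s k40 k20 5 (.s k36 k32 1 (.d k24 k56 k48 3 5))))), (.s k4 k8 1 (.s k44 k28 3 (.s k166 k247 12
  (.s k105 k227 10 (.s k65 k125 5 (.d k195 k130 k150 8 14)))))), (.s k20 k40 5 (.s k28 k44 3 (.s
  k150 k215 8 (.s k89 k211 10 (.s k81 k93 1 (.d k243 k162 k166 12 14)))))), (.s k4 k8 1 (.s k20 k40
  5 (.s k150 k215 8 (.s k166 k247 12 (.s k134 k182 3 (.d k195 k73 k105 10 14))))))] (.c k87 (.q k171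
  [(.s k8 k4 1 (.s k44 k28 3 (.s k40 k20 5 (.s k36 k32 1 (.d k24 k56 k48 3 5))))), (.s k4 k8 1 (.s
  k44 k28 3 (.s k166 k247 12 (.s k105 k227 10 (.s k65 k125 5 (.d k195 k130 k150 8 14)))))), (.s k20
  k40 5 (.s k28 k44 3 (.s k150 k215 8 (.s k89 k211 10 (.s k81 k93 1 (.d k243 k162 k166 12 14)))))),
  (.s k4 k8 1 (.s k20 k40 5 (.s k150 k215 8 (.s k166 k247 12 (.s k134 k182 3 (.d k195 k73 k105 10
  14))))))] .n) (.c k171 (.q k87 [(.s k8 k4 1 (.s k44 k28 3 (.s k40 k20 5 (.s k36 k32 1 (.d k24 k56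
  k48 3 5))))), (.s k4 k8 1 (.s k44 k28 3 (.s k166 k247 12 (.s k105 k227 10 (.s k65 k125 5 (.d k195
  k130 k150 8 14)))))), (.s k20 k40 5 (.s k28 k44 3 (.s k150 k215 8 (.s k89 k211 10 (.s k81 k93 1
  (.d k243 k162 k166 12 14)))))), (.s k4 k8 1 (.s k20 k40 5 (.s k150 k215 8 (.s k166 k247 12 (.s
  k134 k182 3 (.d k195 k73 k105 10 14))))))] .n) .n))) .n))))))))))))

def t3_10 : T TT 256 :=
  (.q k166 [(.s k247 k4 12 (.s k255 k170 14 (.s k243 k251 1 (.s k81 k162 12 (.d k89 k93 k12 1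
  14))))), (.s k4 k247 12 (.s k12 k8 1 (.s k89 k243 14 (.s k93 k81 1 (.d k255 k174 k170 12 14)))))]
  (.c k4 (.q k16 [(.s k48 k32 3 (.s k154 k223 10 (.s k170 k255 14 (.s k138 k186 3 (.d k207 k69 k101
  10 14))))), (.s k48 k32 3 (.s k154 k223 10 (.s k178 k142 5 (.s k243 k113 8 (.s k81 k162 12 (.d k89
  k93 k12 1 14)))))), (.s k154 k223 10 (.s k170 k255 14 (.s k162 k174 1 (.s k81 k243 12 (.s k146
  k211 8 (.d k178 k130 k142 3 5)))))), (.s k32 k48 3 (.s k170 k255 14 (.s k162 k174 1 (.s k227 k97 8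
  (.s k44 k105 10 (.s k36 k40 1 (.d k101 k231 k239 8 10)))))))] .n) (.c k8 (.l (.s k247 k4 12 (.s
  k255 k170 14 (.s k243 k251 1 (.s k89 k12 14 (.d k81 k93 k162 1 12)))))) (.c k12 (.q k69 [(.s k4
  k247 12 (.s k101 k117 3 (.s k36 k231 8 (.s k52 k20 3 (.d k199 k134 k150 8 12))))), (.s k101 k117 3
  (.s k170 k255 14 (.s k32 k239 10 (.s k48 k16 3 (.d k207 k138 k154 10 14))))), (.s k4 k247 12 (.s
  k134 k199 8 (.s k138 k207 10 (.s k142 k130 1 (.s k154 k178 5 (.d k170 k186 k255 3 14))))))] (.c k6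
  (.q k9 [(.s k4 k247 12 (.s k101 k117 3 (.s k36 k231 8 (.s k52 k20 3 (.d k199 k134 k150 8 12))))),
  (.s k101 k117 3 (.s k170 k255 14 (.s k32 k239 10 (.s k48 k16 3 (.d k207 k138 k154 10 14))))), (.s
  k4 k247 12 (.s k134 k199 8 (.s k138 k207 10 (.s k142 k130 1 (.s k154 k178 5 (.d k170 k186 k255 3
  14))))))] (.c k2 (.q k14 [(.s k4 k247 12 (.s k101 k117 3 (.s k36 k231 8 (.s k52 k20 3 (.d k199
  k134 k150 8 12))))), (.s k101 k117 3 (.s k170 k255 14 (.s k32 k239 10 (.s k48 k16 3 (.d k207 k138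
  k154 10 14))))), (.s k4 k247 12 (.s k90 k242 13 (.s k134 k199 8 (.s k74 k194 9 (.s k64 k79 2 (.d
  k106 k122 k127 3 6))))))] .n) (.c k14 (.q k2 [(.s k4 k247 12 (.s k101 k117 3 (.s k36 k231 8 (.s
  k52 k20 3 (.d k199 k134 k150 8 12))))), (.s k101 k117 3 (.s k170 k255 14 (.s k32 k239 10 (.s k48
  k16 3 (.d k207 k138 k154 10 14))))), (.s k4 k247 12 (.s k134 k199 8 (.s k138 k207 10 (.s k142 k130
  1 (.s k154 k178 5 (.d k170 k186 k255 3 14))))))] (.c k13 (.q k15 [(.s k4 k247 12 (.s k101 k117 3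
  (.s k36 k231 8 (.s k52 k20 3 (.d k199 k134 k150 8 12))))), (.s k101 k117 3 (.s k170 k255 14 (.s
  k32 k239 10 (.s k48 k16 3 (.d k207 k138 k154 10 14))))), (.s k4 k247 12 (.s k134 k199 8 (.s k138
  k207 10 (.s k142 k130 1 (.s k154 k178 5 (.d k170 k186 k255 3 14))))))] .n) (.c k15 (.q k13 [(.s k4
  k247 12 (.s k101 k117 3 (.s k36 k231 8 (.s k52 k20 3 (.d k199 k134 k150 8 12))))), (.s k1 k5 1 (.s
  k137 k205 9 (.s k73 k201 7 (.s k65 k77 1 (.d k193 k129 k133 7 9)))))] (.c k4 (.l (.s k101 k117 3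
  (.s k170 k255 14 (.s k32 k239 10 (.s k48 k16 3 (.d k207 k138 k154 10 14)))))) (.c k7 (.q k11 [(.s
  k4 k247 12 (.s k101 k117 3 (.s k36 k231 8 (.s k52 k20 3 (.d k199 k134 k150 8 12))))), (.s k5 k1 1
  (.s k101 k117 3 (.s k165 k245 11 (.s k37 k229 7 (.s k53 k21 3 (.d k197 k133 k149 7 11)))))), (.s
  k1 k5 1 (.s k4 k247 12 (.s k137 k205 9 (.s k73 k201 7 (.s k65 k77 1 (.d k193 k129 k133 7 9))))))]
  (.c k4 (.l (.s k5 k1 1 (.s k101 k117 3 (.s k165 k245 11 (.s k37 k229 7 (.s k53 k21 3 (.d k197 k133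
  k149 7 11))))))) (.c k5 (.l (.s k4 k247 12 (.s k101 k117 3 (.s k36 k231 8 (.s k52 k20 3 (.d k199
  k134 k150 8 12)))))) .n))) (.c k11 (.q k7 [(.s k5 k1 1 (.s k133 k197 7 (.s k70 k196 8 (.d k138
  k206 k207 9 10)))), (.s k170 k255 14 (.s k86 k254 13 (.s k87 k84 0 (.d k247 k167 k4 11 12))))] .n)
  .n)))) .n))) .n))) (.c k9 (.q k6 [(.s k4 k247 12 (.s k101 k117 3 (.s k36 k231 8 (.s k52 k20 3 (.d
  k199 k134 k150 8 12))))), (.s k4 k247 12 (.s k7 k5 0 (.s k86 k246 11 (.s k84 k87 0 (.d k244 k164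
  k165 11 12))))), (.s k101 k117 3 (.s k170 k255 14 (.s k32 k239 10 (.s k48 k16 3 (.d k207 k138 k154
  10 14)))))] (.c k8 (.q k11 [(.s k4 k247 12 (.s k101 k117 3 (.s k36 k231 8 (.s k52 k20 3 (.d k199
  k134 k150 8 12))))), (.s k4 k247 12 (.s k7 k5 0 (.s k86 k246 11 (.s k84 k87 0 (.d k244 k164 k165
  11 12))))), (.s k101 k117 3 (.s k170 k255 14 (.s k32 k239 10 (.s k48 k16 3 (.d k207 k138 k154 10
  14)))))] .n) (.c k11 (.q k8 [(.s k4 k247 12 (.s k101 k117 3 (.s k36 k231 8 (.s k52 k20 3 (.d k199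
  k134 k150 8 12))))), (.s k4 k247 12 (.s k7 k5 0 (.s k86 k246 11 (.s k84 k87 0 (.d k244 k164 k165
  11 12))))), (.s k101 k117 3 (.s k170 k255 14 (.s k32 k239 10 (.s k48 k16 3 (.d k207 k138 k154 10
  14)))))] (.c k7 (.q k15 [(.s k101 k117 3 (.s k207 k138 10 (.s k48 k154 14 (.s k32 k16 3 (.d k170
  k239 k255 10 14))))), (.s k4 k247 12 (.s k86 k246 11 (.s k134 k199 8 (.s k70 k198 7 (.s k102 k118
  3 (.d k68 k71 k119 0 4))))))] .n) (.c k15 (.q k7 [(.d k4 k5 k247 0 12), (.s k86 k246 11 (.s k87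
  k84 0 (.s k167 k247 11 (.d k165 k244 k164 12 0))))] (.c k13 (.q k14 [(.d k4 k5 k247 0 12)] (.c k1
  (.l (.s k5 k4 0 (.s k86 k246 11 (.d k165 k245 k244 11 12)))) (.c k4 (.l (.s k86 k246 11 (.s k87
  k84 0 (.s k167 k247 11 (.d k165 k164 k244 0 12))))) (.c k5 (.q k1 [(.s k86 k246 11 (.s k87 k84 0
  (.d k247 k167 k4 11 12))), (.s k4 k247 12 (.s k101 k117 3 (.s k36 k231 8 (.s k52 k20 3 (.d k199
  k134 k150 8 12))))), (.s k86 k246 11 (.s k170 k255 14 (.s k174 k162 1 (.d k254 k94 k2 11 13))))]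
  .n) (.c k247 (.l (.s k5 k4 0 (.s k86 k246 11 (.d k165 k245 k244 11 12)))) .n))))) (.c k14 (.q k13
  [(.d k4 k5 k247 0 12), (.s k86 k246 11 (.s k87 k84 0 (.s k167 k247 11 (.d k165 k244 k164 12 0))))]
  (.c k247 (.l (.s k5 k4 0 (.s k86 k246 11 (.d k165 k245 k244 11 12)))) .n)) (.c k247 (.l (.s k5 k4
  0 (.s k86 k246 11 (.d k165 k245 k244 11 12)))) .n)))) .n))) .n))) .n))) (.c k81 (.q k16 [(.s k48
  k32 3 (.s k154 k223 10 (.s k101 k207 14 (.s k117 k69 3 (.d k255 k186 k170 10 14))))), (.s k4 k247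
  12 (.s k12 k8 1 (.s k48 k32 3 (.s k24 k36 5 (.s k154 k223 10 (.d k89 k219 k243 8 14)))))), (.s k4
  k247 12 (.s k12 k8 1 (.s k154 k223 10 (.s k142 k178 5 (.s k170 k255 14 (.s k207 k77 8 (.d k138
  k186 k69 3 10))))))), (.s k4 k247 12 (.s k12 k8 1 (.s k48 k32 3 (.s k36 k24 5 (.s k101 k231 8 (.s
  k117 k69 3 (.d k255 k186 k170 10 14)))))))] .n) (.c k89 (.q k16 [(.s k48 k32 3 (.s k154 k223 10
  (.s k101 k207 14 (.s k117 k69 3 (.d k255 k186 k170 10 14))))), (.s k154 k223 10 (.s k170 k255 14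
  (.s k162 k174 1 (.s k81 k243 12 (.s k146 k211 8 (.d k178 k130 k142 3 5)))))), (.s k4 k247 12 (.s
  k12 k8 1 (.s k48 k32 3 (.s k36 k24 5 (.s k101 k231 8 (.s k69 k117 3 (.d k207 k154 k138 14
  10)))))))] (.c k154 (.l (.s k4 k247 12 (.s k32 k48 3 (.s k170 k255 14 (.s k101 k239 10 (.s k36
  k231 8 (.s k20 k52 3 (.d k40 k60 k44 5 1)))))))) (.c k170 (.l (.s k4 k247 12 (.s k48 k32 3 (.s
  k154 k223 10 (.s k101 k207 14 (.s k36 k231 8 (.d k12 k8 k24 1 5))))))) (.c k207 (.l (.s k48 k32 3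
  (.s k154 k223 10 (.s k178 k142 5 (.s k243 k113 8 (.s k162 k81 12 (.d k170 k255 k174 14 1)))))))
  .n)))) (.c k93 (.l (.s k4 k247 12 (.s k12 k8 1 (.s k170 k255 14 (.s k162 k174 1 (.d k243 k81 k89
  12 14)))))) (.c k170 (.f k4 k247 12 (.q k90 [(.s k12 k8 1 (.s k14 k242 13 (.s k15 k13 0 (.s k80
  k95 2 (.d k240 k160 k165 11 14))))), (.s k80 k95 2 (.s k240 k160 11 (.s k165 k15 14 (.s k5 k245 11
  (.s k164 k167 0 (.s k244 k84 11 (.d k7 k6 k86 0 12))))))), (.s k12 k8 1 (.s k14 k242 13 (.s k15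
  k13 0 (.s k89 k243 14 (.s k88 k91 0 (.d k240 k164 k165 13 14)))))), (.s k80 k95 2 (.s k240 k160 11
  (.s k242 k14 13 (.s k243 k241 0 (.d k12 k8 k89 1 14)))))] (.c k165 (.l (.s k12 k8 1 (.s k80 k95 2
  (.s k89 k243 14 (.s k88 k91 0 (.d k240 k160 k164 11 13)))))) (.c k240 (.l (.s k12 k8 1 (.s k14
  k242 13 (.s k15 k13 0 (.s k95 k80 2 (.s k255 k175 11 (.s k93 k174 12 (.d k89 k243 k81 14 1))))))))
  .n)))) (.c k243 (.f k247 k4 12 (.q k231 [(.s k199 k215 3 (.s k101 k36 8 (.s k52 k150 12 (.d k117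
  k69 k182 3 8)))), (.s k101 k36 8 (.s k170 k255 14 (.s k174 k162 1 (.s k239 k32 10 (.s k44 k109 8
  (.d k227 k235 k105 1 10)))))), (.s k215 k199 3 (.s k255 k170 14 (.s k195 k235 5 (.s k65 k130 8 (.s
  k105 k125 5 (.d k150 k20 k60 8 14))))))] (.c k20 (.l (.s k199 k215 3 (.s k101 k36 8 (.s k52 k150
  12 (.d k117 k69 k182 3 8))))) (.c k83 (.q k163 [(.s k199 k215 3 (.s k101 k36 8 (.s k52 k150 12 (.d
  k117 k69 k182 3 8)))), (.s k169 k172 2 (.s k170 k255 14 (.s k162 k174 1 (.s k160 k161 0 (.s k171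
  k168 0 (.d k175 k167 k165 1 2))))))] .n) (.c k163 (.q k83 [(.s k199 k215 3 (.s k101 k36 8 (.s k52
  k150 12 (.d k117 k69 k182 3 8)))), (.s k101 k36 8 (.s k170 k255 14 (.s k174 k162 1 (.s k239 k32 10
  (.s k44 k109 8 (.d k227 k235 k105 1 10)))))), (.s k215 k199 3 (.s k255 k170 14 (.s k195 k235 5 (.s
  k65 k130 8 (.s k105 k125 5 (.d k150 k20 k60 8 14))))))] (.c k20 (.l (.s k199 k215 3 (.s k101 k36 8
  (.s k52 k150 12 (.d k117 k69 k182 3 8))))) .n)) .n))))) (.c k247 (.q k16 [(.s k48 k32 3 (.s k154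
  k223 10 (.s k101 k207 14 (.s k117 k69 3 (.d k255 k186 k170 10 14))))), (.s k48 k32 3 (.s k154 k223
  10 (.s k178 k142 5 (.s k243 k113 8 (.s k81 k162 12 (.d k89 k93 k12 1 14)))))), (.s k154 k223 10
  (.s k170 k255 14 (.s k162 k174 1 (.s k178 k142 5 (.s k146 k130 3 (.d k81 k243 k211 12 8)))))), (.s
  k32 k48 3 (.s k170 k255 14 (.s k162 k174 1 (.s k227 k97 8 (.s k44 k105 10 (.s k36 k40 1 (.d k101
  k231 k239 8 10)))))))] .n) (.c k251 (.l (.s k4 k247 12 (.s k12 k8 1 (.s k89 k243 14 (.s k255 k170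
  14 (.d k93 k81 k174 1 12)))))) (.c k255 (.q k101 [(.s k117 k69 3 (.s k231 k36 8 (.s k247 k4 12 (.s
  k52 k182 8 (.d k199 k215 k150 3 12))))), (.s k69 k117 3 (.s k207 k138 10 (.s k231 k36 8 (.s k243
  k219 5 (.s k81 k162 12 (.d k89 k93 k12 1 14)))))), (.s k4 k247 12 (.s k12 k8 1 (.s k69 k117 3 (.s
  k207 k138 10 (.s k77 k142 8 (.d k89 k243 k113 14 5)))))), (.s k4 k247 12 (.s k12 k8 1 (.s k36 k231
  8 (.s k48 k24 5 (.s k16 k32 3 (.d k154 k223 k207 10 14))))))] (.c k87 (.q k171 [(.s k117 k69 3 (.s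
  k231 k36 8 (.s k247 k4 12 (.s k52 k182 8 (.d k199 k215 k150 3 12))))), (.s k69 k117 3 (.s k207
  k138 10 (.s k231 k36 8 (.s k243 k219 5 (.s k81 k162 12 (.d k89 k93 k12 1 14)))))), (.s k4 k247 12
  (.s k12 k8 1 (.s k69 k117 3 (.s k207 k138 10 (.s k77 k142 8 (.d k89 k243 k113 14 5)))))), (.s k4
  k247 12 (.s k12 k8 1 (.s k36 k231 8 (.s k48 k24 5 (.s k16 k32 3 (.d k154 k223 k207 10 14))))))]
  .n) (.c k171 (.q k87 [(.s k4 k247 12 (.s k36 k231 8 (.s k52 k20 3 (.s k199 k150 12 (.d k69 k117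
  k134 3 8))))), (.s k69 k117 3 (.s k86 k84 0 (.s k71 k116 4 (.s k68 k70 0 (.d k119 k103 k102 3
  4))))), (.s k86 k84 0 (.s k246 k6 11 (.s k247 k4 12 (.s k7 k167 11 (.d k244 k245 k165 0 12)))))]
  .n) .n))) .n))))))))))))

def t3_11 : T TT 256 :=
  (.q k15 [(.s k10 k5 2 (.s k170 k255 14 (.s k90 k250 11 (.s k80 k95 2 (.d k240 k160 k165 11
  14))))), (.s k5 k10 2 (.s k165 k245 11 (.s k90 k240 14 (.s k95 k80 2 (.d k255 k175 k170 11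
  14)))))] (.c k5 (.q k12 [(.s k4 k8 1 (.s k166 k247 12 (.s k89 k243 14 (.s k93 k81 1 (.d k255 k174
  k170 12 14))))), (.s k13 k14 0 (.s k255 k170 14 (.s k93 k174 12 (.s k95 k175 11 (.s k94 k92 0 (.d
  k173 k253 k252 11 12)))))), (.s k4 k8 1 (.s k14 k13 0 (.s k166 k247 12 (.s k90 k242 13 (.s k80 k95
  2 (.d k240 k160 k165 11 14))))))] (.c k166 (.l (.s k14 k13 0 (.s k255 k170 14 (.s k174 k93 12 (.s
  k94 k254 11 (.s k173 k252 12 (.d k175 k172 k95 0 11))))))) .n)) (.c k10 (.q k51 [(.s k17 k34 4 (.s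
  k27 k39 5 (.s k153 k221 9 (.s k90 k216 8 (.s k80 k95 2 (.d k240 k160 k165 11 14)))))), (.s k17 k34
  4 (.s k153 k221 9 (.s k102 k204 14 (.s k119 k68 4 (.d k255 k187 k170 9 14))))), (.s k27 k39 5 (.s
  k255 k170 14 (.s k95 k175 11 (.s k90 k80 2 (.s k119 k187 9 (.s k102 k68 4 (.d k153 k216 k204 8
  14)))))))] (.c k8 (.q k9 [(.s k17 k34 4 (.s k27 k39 5 (.s k153 k221 9 (.s k90 k216 8 (.s k80 k95 2
  (.d k240 k160 k165 11 14)))))), (.s k17 k34 4 (.s k153 k221 9 (.s k102 k204 14 (.s k119 k68 4 (.d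
  k255 k187 k170 9 14))))), (.s k27 k39 5 (.s k255 k170 14 (.s k95 k175 11 (.s k90 k80 2 (.s k119
  k187 9 (.s k102 k68 4 (.d k153 k216 k204 8 14)))))))] (.c k153 (.l (.s k34 k17 4 (.s k39 k27 5 (.s
  k170 k255 14 (.s k102 k238 9 (.s k165 k228 8 (.s k160 k175 2 (.d k240 k90 k80 14 11)))))))) .n))
  (.c k9 (.q k8 [(.s k12 k4 1 (.s k17 k34 4 (.s k25 k38 6 (.s k21 k29 1 (.d k42 k59 k63 4 6))))),
  (.s k12 k4 1 (.s k170 k255 14 (.s k89 k251 12 (.s k81 k93 1 (.d k243 k162 k166 12 14)))))] (.c k4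
  (.l (.s k17 k34 4 (.s k153 k221 9 (.s k102 k204 14 (.s k119 k68 4 (.d k255 k187 k170 9 14))))))
  (.c k6 (.l (.s k12 k4 1 (.s k17 k34 4 (.s k25 k38 6 (.s k21 k29 1 (.d k42 k59 k63 4 6)))))) (.c
  k12 (.q k6 [(.s k17 k34 4 (.s k27 k39 5 (.s k153 k221 9 (.s k90 k216 8 (.s k80 k95 2 (.d k240 k160
  k165 11 14)))))), (.s k17 k34 4 (.s k153 k221 9 (.s k102 k204 14 (.s k119 k68 4 (.d k255 k187 k170
  9 14))))), (.s k27 k39 5 (.s k255 k170 14 (.s k95 k175 11 (.s k90 k80 2 (.s k119 k187 9 (.s k102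
  k68 4 (.d k153 k216 k204 8 14)))))))] (.c k153 (.l (.s k34 k17 4 (.s k39 k27 5 (.s k170 k255 14
  (.s k102 k238 9 (.s k165 k228 8 (.s k160 k175 2 (.d k240 k90 k80 14 11)))))))) .n)) .n)))) (.c
  k153 (.l (.s k34 k17 4 (.s k39 k27 5 (.s k170 k255 14 (.s k102 k238 9 (.s k165 k228 8 (.s k160
  k175 2 (.d k240 k90 k80 14 11)))))))) .n)))) (.c k80 (.q k4 [(.s k12 k8 1 (.s k166 k247 12 (.s k89
  k243 14 (.s k255 k170 14 (.d k93 k81 k174 1 12))))), (.s k5 k10 2 (.s k165 k245 11 (.s k166 k247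
  12 (.s k164 k167 0 (.s k244 k84 11 (.d k7 k6 k86 0 12)))))), (.s k166 k247 12 (.s k170 k255 14 (.s
  k162 k174 1 (.s k243 k81 12 (.s k167 k91 13 (.s k165 k164 0 (.d k5 k10 k245 2 11))))))), (.s k12
  k8 1 (.s k14 k13 0 (.s k255 k170 14 (.s k174 k93 12 (.s k94 k254 11 (.s k173 k252 12 (.d k175 k172
  k95 0 11)))))))] (.c k10 (.l (.s k166 k247 12 (.s k170 k255 14 (.s k162 k174 1 (.s k243 k81 12 (.d
  k12 k8 k89 1 14)))))) .n)) (.c k90 (.f k10 k5 2 (.q k117 [(.s k255 k170 14 (.s k48 k186 10 (.s k16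
  k32 3 (.s k154 k223 10 (.d k101 k69 k207 3 14))))), (.s k69 k101 3 (.s k138 k207 10 (.s k74 k202 7
  (.s k192 k133 10 (.d k64 k79 k128 2 7))))), (.s k255 k170 14 (.s k48 k186 10 (.s k26 k37 6 (.s k42
  k58 3 (.s k21 k63 6 (.d k16 k31 k32 2 3))))))] (.c k48 (.l (.s k69 k101 3 (.s k170 k255 14 (.s
  k138 k207 10 (.s k154 k186 3 (.s k74 k202 7 (.s k192 k133 10 (.d k64 k79 k128 2 7)))))))) (.c k138
  (.l (.s k101 k69 3 (.s k255 k170 14 (.s k48 k186 10 (.s k154 k207 14 (.d k16 k32 k223 3 10))))))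
  (.c k154 (.l (.s k69 k101 3 (.s k255 k170 14 (.s k48 k186 10 (.s k138 k207 10 (.s k74 k202 7 (.s
  k192 k133 10 (.d k64 k79 k128 2 7)))))))) (.c k169 (.q k248 [(.s k255 k170 14 (.s k48 k186 10 (.s
  k16 k32 3 (.s k154 k223 10 (.d k101 k69 k207 3 14))))), (.s k69 k101 3 (.s k138 k207 10 (.s k74
  k202 7 (.s k192 k133 10 (.d k64 k79 k128 2 7))))), (.s k255 k170 14 (.s k48 k186 10 (.s k26 k37 6
  (.s k42 k58 3 (.s k21 k63 6 (.d k16 k31 k32 2 3))))))] (.c k48 (.l (.s k69 k101 3 (.s k170 k255 14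
  (.s k138 k207 10 (.s k154 k186 3 (.s k74 k202 7 (.s k192 k133 10 (.d k64 k79 k128 2 7)))))))) (.c
  k86 (.q k252 [(.s k168 k84 13 (.s k88 k8 11 (.s k240 k244 1 (.s k160 k80 11 (.d k164 k172 k12 1
  13))))), (.s k69 k101 3 (.s k138 k207 10 (.s k74 k202 7 (.s k192 k133 10 (.d k64 k79 k128 2
  7)))))] (.c k82 (.l (.s k94 k173 12 (.s k69 k101 3 (.s k138 k207 10 (.s k74 k202 7 (.s k192 k133
  10 (.d k64 k79 k128 2 7))))))) (.c k94 (.q k82 [(.s k168 k84 13 (.s k88 k8 11 (.s k240 k244 1 (.s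
  k160 k80 11 (.d k164 k172 k12 1 13))))), (.s k69 k101 3 (.s k138 k207 10 (.s k74 k202 7 (.s k192
  k133 10 (.d k64 k79 k128 2 7)))))] .n) .n))) (.c k138 (.l (.s k101 k69 3 (.s k255 k170 14 (.s k48
  k186 10 (.s k154 k207 14 (.d k16 k32 k223 3 10)))))) (.c k154 (.l (.s k69 k101 3 (.s k255 k170 14
  (.s k48 k186 10 (.s k138 k207 10 (.s k74 k202 7 (.s k192 k133 10 (.d k64 k79 k128 2 7)))))))) (.c
  k252 (.q k86 [(.s k255 k170 14 (.s k48 k186 10 (.s k16 k32 3 (.s k154 k223 10 (.d k101 k69 k207 3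
  14))))), (.s k84 k87 0 (.s k101 k69 3 (.s k116 k71 4 (.s k68 k100 3 (.d k119 k118 k102 0 4))))),
  (.s k255 k170 14 (.s k48 k186 10 (.s k26 k37 6 (.s k42 k58 3 (.s k21 k63 6 (.d k16 k31 k32 2
  3)))))), (.s k69 k101 3 (.s k138 k207 10 (.s k74 k202 7 (.s k192 k133 10 (.d k64 k79 k128 2
  7)))))] .n) .n)))))) (.c k248 (.q k169 [(.s k255 k170 14 (.s k48 k186 10 (.s k16 k32 3 (.s k154
  k223 10 (.d k101 k69 k207 3 14))))), (.s k101 k69 3 (.s k253 k1 13 (.s k49 k185 9 (.s k205 k153 13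
  (.d k237 k221 k33 3 9))))), (.s k255 k170 14 (.s k48 k186 10 (.s k26 k37 6 (.s k42 k58 3 (.s k21
  k63 6 (.d k16 k31 k32 2 3))))))] .n) .n))))))) (.c k95 (.l (.s k5 k10 2 (.s k165 k245 11 (.s k170
  k255 14 (.s k160 k175 2 (.d k240 k80 k90 11 14)))))) (.c k165 (.q k16 [(.s k48 k32 3 (.s k154 k223
  10 (.s k101 k207 14 (.s k117 k69 3 (.d k255 k186 k170 10 14))))), (.s k10 k5 2 (.s k48 k32 3 (.s
  k26 k37 6 (.s k21 k31 2 (.d k42 k58 k63 3 6))))), (.s k10 k5 2 (.s k154 k223 10 (.s k170 k255 14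
  (.s k90 k250 11 (.s k26 k218 7 (.s k21 k31 2 (.d k42 k58 k63 3 6)))))))] .n) (.c k170 (.q k21 [(.s
  k10 k5 2 (.s k42 k63 6 (.s k26 k58 3 (.s k16 k31 2 (.d k48 k32 k37 3 6))))), (.s k5 k10 2 (.s k53
  k37 3 (.s k149 k213 7 (.s k101 k197 11 (.s k117 k69 3 (.d k245 k181 k165 7 11)))))), (.s k63 k42 6
  (.s k31 k47 3 (.s k149 k213 7 (.s k90 k208 10 (.s k80 k95 2 (.d k240 k160 k165 11 14))))))] (.c
  k37 (.l (.s k5 k10 2 (.s k63 k42 6 (.s k47 k31 3 (.s k149 k213 7 (.s k106 k192 14 (.d k165 k224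
  k245 10 11))))))) .n)) (.c k240 (.f k255 k170 14 (.f k175 k95 11 (.f k10 k5 2 (.q k74 [(.s k133
  k192 10 (.s k138 k202 7 (.s k207 k69 10 (.d k143 k128 k79 2 7)))), (.s k192 k133 10 (.s k213 k234
  6 (.s k149 k21 7 (.s k106 k63 14 (.d k64 k127 k128 6 7))))), (.s k138 k202 7 (.s k207 k69 10 (.s
  k143 k79 7 (.s k239 k223 3 (.s k111 k47 7 (.d k159 k191 k63 3 11))))))] (.c k69 (.l (.s k133 k192
  10 (.s k138 k202 7 (.s k143 k128 2 (.s k207 k79 7 (.s k239 k223 3 (.s k111 k47 7 (.d k159 k191 k63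
  3 11)))))))) (.c k82 (.q k161 [(.s k133 k192 10 (.s k138 k202 7 (.s k207 k69 10 (.d k143 k128 k79
  2 7)))), (.s k192 k133 10 (.s k213 k234 6 (.s k149 k21 7 (.s k106 k63 14 (.d k64 k127 k128 6
  7))))), (.s k138 k202 7 (.s k207 k69 10 (.s k143 k79 7 (.s k239 k223 3 (.s k111 k47 7 (.d k159
  k191 k63 3 11))))))] (.c k69 (.l (.s k133 k192 10 (.s k138 k202 7 (.s k143 k128 2 (.s k207 k79 7
  (.s k239 k223 3 (.s k111 k47 7 (.d k159 k191 k63 3 11)))))))) (.c k133 (.l (.s k138 k202 7 (.s k69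
  k207 10 (.s k64 k79 2 (.s k192 k128 7 (.s k213 k234 6 (.s k149 k21 7 (.d k106 k127 k63 6
  14)))))))) (.c k197 (.l (.s k133 k192 10 (.s k138 k202 7 (.s k207 k69 10 (.d k143 k128 k79 2
  7))))) .n)))) (.c k133 (.l (.s k138 k202 7 (.s k69 k207 10 (.s k64 k79 2 (.s k192 k128 7 (.s k213
  k234 6 (.s k149 k21 7 (.d k106 k127 k63 6 14)))))))) (.c k161 (.q k82 [(.s k133 k192 10 (.s k138
  k202 7 (.s k207 k69 10 (.d k143 k128 k79 2 7)))), (.s k192 k133 10 (.s k213 k234 6 (.s k149 k21 7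
  (.s k106 k63 14 (.d k64 k127 k128 6 7))))), (.s k138 k202 7 (.s k207 k69 10 (.s k143 k79 7 (.s
  k239 k223 3 (.s k111 k47 7 (.d k159 k191 k63 3 11))))))] (.c k69 (.l (.s k133 k192 10 (.s k138
  k202 7 (.s k143 k128 2 (.s k207 k79 7 (.s k239 k223 3 (.s k111 k47 7 (.d k159 k191 k63 3
  11)))))))) (.c k133 (.l (.s k138 k202 7 (.s k69 k207 10 (.s k64 k79 2 (.s k192 k128 7 (.s k213
  k234 6 (.s k149 k21 7 (.d k106 k127 k63 6 14)))))))) (.c k197 (.l (.s k133 k192 10 (.s k138 k202 7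
  (.s k207 k69 10 (.d k143 k128 k79 2 7))))) .n)))) (.c k197 (.l (.s k133 k192 10 (.s k138 k202 7
  (.s k207 k69 10 (.d k143 k128 k79 2 7))))) .n))))))))) (.c k245 (.l (.s k10 k5 2 (.s k170 k255 14
  (.s k90 k250 11 (.s k240 k165 14 (.d k80 k95 k160 2 11)))))) (.c k250 (.l (.s k5 k10 2 (.s k165
  k245 11 (.s k90 k240 14 (.s k255 k170 14 (.d k95 k80 k175 2 11)))))) (.c k255 (.q k63 [(.s k10 k5
  2 (.s k47 k31 3 (.s k42 k21 6 (.s k37 k32 2 (.d k26 k58 k48 3 6))))), (.s k5 k10 2 (.s k47 k31 3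
  (.s k165 k245 11 (.s k106 k224 10 (.s k64 k127 6 (.d k192 k128 k149 7 14)))))), (.s k21 k42 6 (.s
  k31 k47 3 (.s k149 k213 7 (.s k90 k208 10 (.s k80 k95 2 (.d k240 k160 k165 11 14)))))), (.s k5 k10
  2 (.s k21 k42 6 (.s k149 k213 7 (.s k165 k245 11 (.s k133 k181 3 (.d k192 k74 k106 10 14))))))]
  (.c k87 (.q k171 [(.s k10 k5 2 (.s k47 k31 3 (.s k42 k21 6 (.s k37 k32 2 (.d k26 k58 k48 3 6))))),
  (.s k5 k10 2 (.s k47 k31 3 (.s k165 k245 11 (.s k106 k224 10 (.s k64 k127 6 (.d k192 k128 k149 7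
  14)))))), (.s k21 k42 6 (.s k31 k47 3 (.s k149 k213 7 (.s k90 k208 10 (.s k80 k95 2 (.d k240 k160
  k165 11 14)))))), (.s k5 k10 2 (.s k21 k42 6 (.s k149 k213 7 (.s k165 k245 11 (.s k133 k181 3 (.d
  k192 k74 k106 10 14))))))] .n) (.c k171 (.q k87 [(.s k10 k5 2 (.s k47 k31 3 (.s k42 k21 6 (.s k37
  k32 2 (.d k26 k58 k48 3 6))))), (.s k5 k10 2 (.s k47 k31 3 (.s k165 k245 11 (.s k106 k224 10 (.s
  k64 k127 6 (.d k192 k128 k149 7 14)))))), (.s k21 k42 6 (.s k31 k47 3 (.s k149 k213 7 (.s k90 k208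
  10 (.s k80 k95 2 (.d k240 k160 k165 11 14)))))), (.s k5 k10 2 (.s k21 k42 6 (.s k149 k213 7 (.s
  k165 k245 11 (.s k133 k181 3 (.d k192 k74 k106 10 14))))))] (.c k91 (.q k251 [(.s k5 k10 2 (.s k21
  k42 6 (.s k31 k47 3 (.s k26 k16 2 (.d k37 k53 k48 3 6))))), (.s k21 k42 6 (.s k31 k47 3 (.s k149
  k213 7 (.s k90 k208 10 (.s k80 k95 2 (.d k240 k160 k165 11 14)))))), (.s k5 k10 2 (.s k47 k31 3
  (.s k165 k245 11 (.s k106 k224 10 (.s k64 k127 6 (.d k192 k128 k149 7 14)))))), (.s k5 k10 2 (.s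
  k21 k42 6 (.s k149 k213 7 (.s k165 k245 11 (.s k133 k181 3 (.d k192 k74 k106 10 14))))))] .n) (.c
  k251 (.q k91 [(.s k5 k10 2 (.s k95 k83 1 (.s k165 k245 11 (.d k90 k240 k80 14 2)))), (.s k21 k42 6
  (.s k31 k47 3 (.s k16 k26 2 (.s k95 k83 1 (.d k223 k159 k154 7 10))))), (.s k5 k10 2 (.s k21 k42 6
  (.s k31 k47 3 (.s k26 k16 2 (.d k37 k53 k48 3 6)))))] (.c k10 (.l (.s k21 k42 6 (.s k31 k47 3 (.s
  k95 k83 1 (.s k90 k80 2 (.d k149 k213 k208 7 10)))))) (.c k243 (.q k247 [(.s k5 k10 2 (.s k7 k167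
  11 (.d k4 k6 k166 0 12))), (.s k7 k167 11 (.s k86 k84 0 (.s k165 k244 12 (.s k90 k240 14 (.d k95
  k83 k80 1 2))))), (.s k4 k166 12 (.s k5 k10 2 (.s k84 k86 0 (.s k244 k164 11 (.d k245 k246 k165 0
  11)))))] (.c k4 (.l (.s k5 k10 2 (.s k7 k167 11 (.s k86 k84 0 (.d k165 k244 k245 12 11))))) (.c
  k83 (.q k163 [(.s k5 k10 2 (.s k7 k167 11 (.d k4 k6 k166 0 12))), (.s k7 k167 11 (.s k86 k84 0 (.s
  k166 k4 12 (.s k244 k165 12 (.d k246 k245 k6 0 11))))), (.s k5 k10 2 (.s k7 k167 11 (.s k86 k84 0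
  (.d k165 k245 k244 11 12))))] (.c k7 (.l (.s k4 k166 12 (.s k5 k10 2 (.s k84 k86 0 (.s k244 k164
  11 (.d k245 k246 k165 0 11)))))) (.c k167 (.l (.s k4 k166 12 (.s k5 k10 2 (.s k7 k6 0 (.s k86 k84
  0 (.d k165 k245 k244 11 12)))))) .n))) (.c k163 (.l (.s k83 k95 1 (.s k4 k166 12 (.s k5 k10 2 (.d
  k7 k6 k167 0 11))))) (.c k167 (.l (.s k4 k166 12 (.s k5 k10 2 (.s k7 k6 0 (.s k86 k84 0 (.d k165
  k245 k244 11 12)))))) .n))))) (.c k247 (.l (.s k243 k167 13 (.s k5 k10 2 (.s k95 k83 1 (.s k90 k80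
  2 (.d k165 k245 k240 11 14)))))) .n)))) .n))) .n))) .n))))))))))))

def t3_12 : T TT 256 :=
  (.q k90 [(.s k80 k95 2 (.s k240 k160 11 (.s k15 k165 14 (.s k10 k5 2 (.d k170 k250 k255 11
  14)))))] (.c k5 (.f k255 k170 14 (.q k149 [(.s k21 k213 7 (.s k63 k42 6 (.s k127 k191 7 (.d k106
  k64 k192 6 14)))), (.s k21 k213 7 (.s k31 k208 10 (.s k16 k26 2 (.s k95 k80 2 (.d k223 k159 k154 7
  10))))), (.s k31 k208 10 (.s k95 k80 2 (.s k15 k175 11 (.s k63 k47 3 (.s k106 k192 14 (.d k127 k64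
  k191 6 7))))))] (.c k6 (.q k9 [(.s k21 k213 7 (.s k63 k42 6 (.s k127 k191 7 (.d k106 k64 k192 6
  14)))), (.s k21 k213 7 (.s k31 k208 10 (.s k16 k26 2 (.s k95 k80 2 (.d k223 k159 k154 7 10))))),
  (.s k31 k208 10 (.s k95 k80 2 (.s k15 k175 11 (.s k63 k47 3 (.s k106 k192 14 (.d k127 k64 k191 6
  7))))))] (.c k4 (.q k7 [(.s k21 k213 7 (.s k63 k42 6 (.s k127 k191 7 (.d k106 k64 k192 6 14)))),
  (.s k21 k213 7 (.s k31 k208 10 (.s k16 k26 2 (.s k95 k80 2 (.d k223 k159 k154 7 10))))), (.s k31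
  k208 10 (.s k95 k80 2 (.s k15 k175 11 (.s k63 k47 3 (.s k106 k192 14 (.d k127 k64 k191 6 7))))))]
  .n) (.c k7 (.q k4 [(.s k21 k213 7 (.s k63 k42 6 (.s k127 k191 7 (.d k106 k64 k192 6 14)))), (.s
  k21 k213 7 (.s k31 k208 10 (.s k16 k26 2 (.s k95 k80 2 (.d k223 k159 k154 7 10))))), (.s k31 k208
  10 (.s k95 k80 2 (.s k15 k175 11 (.s k63 k47 3 (.s k106 k192 14 (.d k127 k64 k191 6 7))))))] (.c
  k11 (.q k15 [(.d k95 k80 k175 2 11), (.s k21 k213 7 (.s k31 k208 10 (.d k63 k47 k42 3 6)))] .n)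
  (.c k15 (.q k11 [(.s k21 k213 7 (.s k63 k42 6 (.s k127 k191 7 (.d k106 k64 k192 6 14)))), (.s k169
  k248 12 (.s k89 k249 11 (.s k81 k93 1 (.s k243 k162 12 (.d k247 k251 k166 1 12)))))] (.c k13 (.q
  k14 [(.d k166 k247 k242 12 13), (.s k21 k213 7 (.s k31 k208 10 (.s k26 k16 2 (.d k38 k55 k50 4
  5))))] .n) (.c k14 (.q k13 [(.s k21 k213 7 (.s k63 k42 6 (.s k127 k191 7 (.d k106 k64 k192 6
  14)))), (.s k169 k248 12 (.s k89 k249 11 (.s k93 k81 1 (.d k253 k173 k1 11 13))))] (.c k2 (.l (.s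
  k10 k8 0 (.s k21 k213 7 (.s k31 k208 10 (.s k26 k16 2 (.d k42 k58 k63 3 6)))))) (.c k10 (.q k2
  [(.s k169 k248 12 (.s k89 k249 11 (.s k93 k81 1 (.d k253 k173 k1 11 13)))), (.s k21 k213 7 (.s k63
  k42 6 (.s k106 k192 14 (.d k127 k64 k191 6 7))))] .n) .n))) .n))) .n))) .n))) (.c k9 (.q k6 [(.s
  k21 k213 7 (.s k63 k42 6 (.s k127 k191 7 (.d k106 k64 k192 6 14)))), (.s k21 k213 7 (.s k31 k208
  10 (.s k16 k26 2 (.s k95 k80 2 (.d k223 k159 k154 7 10))))), (.s k31 k208 10 (.s k95 k80 2 (.s k15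
  k175 11 (.s k63 k47 3 (.s k106 k192 14 (.d k127 k64 k191 6 7))))))] (.c k1 (.q k13 [(.s k21 k213 7
  (.s k63 k42 6 (.s k127 k191 7 (.d k106 k64 k192 6 14)))), (.s k21 k213 7 (.s k31 k208 10 (.s k16
  k26 2 (.s k95 k80 2 (.d k223 k159 k154 7 10))))), (.s k31 k208 10 (.s k95 k80 2 (.s k15 k175 11
  (.s k63 k47 3 (.s k106 k192 14 (.d k127 k64 k191 6 7))))))] .n) (.c k13 (.q k1 [(.s k21 k213 7 (.s
  k63 k42 6 (.s k127 k191 7 (.d k106 k64 k192 6 14)))), (.s k21 k213 7 (.s k31 k208 10 (.s k16 k26 2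
  (.s k95 k80 2 (.d k223 k159 k154 7 10))))), (.s k31 k208 10 (.s k95 k80 2 (.s k15 k175 11 (.s k63
  k47 3 (.s k106 k192 14 (.d k127 k64 k191 6 7))))))] (.c k14 (.q k15 [(.d k95 k80 k175 2 11), (.s
  k21 k213 7 (.s k31 k208 10 (.d k63 k47 k42 3 6)))] .n) (.c k15 (.q k14 [(.s k21 k213 7 (.s k63 k42
  6 (.s k127 k191 7 (.d k106 k64 k192 6 14)))), (.s k166 k242 13 (.s k86 k246 11 (.s k84 k87 0 (.s
  k252 k168 13 (.d k253 k254 k169 0 13)))))] (.c k7 (.q k11 [(.d k169 k248 k253 12 13), (.s k21 k213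
  7 (.s k31 k208 10 (.s k26 k16 2 (.d k41 k56 k61 4 5))))] .n) (.c k11 (.q k7 [(.s k21 k213 7 (.s
  k63 k42 6 (.s k127 k191 7 (.d k106 k64 k192 6 14)))), (.s k166 k242 13 (.s k86 k246 11 (.s k87 k84
  0 (.d k247 k167 k4 11 12))))] (.c k8 (.l (.s k10 k2 1 (.s k21 k213 7 (.s k31 k208 10 (.s k26 k16 2
  (.d k42 k58 k63 3 6)))))) (.c k10 (.q k8 [(.s k166 k242 13 (.s k86 k246 11 (.s k87 k84 0 (.d k247
  k167 k4 11 12)))), (.s k21 k213 7 (.s k63 k42 6 (.s k106 k192 14 (.d k127 k64 k191 6 7))))] .n)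
  .n))) .n))) .n))) .n))) .n)))) (.c k6 (.q k9 [(.s k80 k95 2 (.s k240 k160 11 (.s k15 k165 14 (.s
  k10 k5 2 (.d k170 k250 k255 11 14))))), (.s k170 k255 14 (.s k10 k250 11 (.s k11 k8 0 (.s k169
  k248 12 (.s k1 k253 13 (.d k5 k13 k15 1 2))))))] (.c k5 (.f k255 k170 14 (.f k80 k95 2 (.q k247
  [(.s k240 k160 11 (.s k243 k251 1 (.s k242 k241 0 (.d k166 k4 k14 12 13)))), (.s k243 k251 1 (.s
  k81 k162 12 (.s k89 k93 1 (.s k88 k91 0 (.s k92 k84 1 (.d k83 k82 k86 0 2)))))), (.s k240 k160 11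
  (.s k165 k15 14 (.s k245 k250 2 (.s k244 k246 0 (.s k7 k86 12 (.s k166 k4 12 (.d k167 k164 k87 0
  11)))))))] (.c k4 (.q k7 [(.s k87 k167 11 (.s k86 k84 0 (.s k240 k160 11 (.d k165 k244 k15 12
  14)))), (.s k87 k167 11 (.s k86 k84 0 (.s k82 k94 1 (.s k81 k83 0 (.d k243 k251 k162 1 12))))),
  (.s k167 k87 11 (.s k240 k160 11 (.s k243 k251 1 (.d k15 k91 k165 13 14)))), (.s k240 k160 11 (.s
  k165 k15 14 (.s k244 k86 12 (.d k245 k246 k250 0 2))))] .n) (.c k7 (.l (.s k4 k166 12 (.s k240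
  k160 11 (.s k243 k251 1 (.s k241 k242 0 (.s k245 k250 2 (.s k246 k244 0 (.d k249 k253 k252 1
  2)))))))) (.c k166 (.l (.s k240 k160 11 (.s k243 k251 1 (.s k241 k242 0 (.s k245 k250 2 (.s k246
  k244 0 (.d k249 k253 k252 1 2))))))) .n)))))) (.c k10 (.l (.s k80 k95 2 (.s k240 k160 11 (.s k165
  k15 14 (.s k245 k5 11 (.d k255 k250 k170 2 14)))))) (.c k15 (.f k95 k80 2 (.q k106 [(.s k127 k64 6
  (.s k79 k111 3 (.s k112 k101 6 (.d k122 k117 k74 2 3)))), (.s k74 k122 3 (.s k170 k255 14 (.s k10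
  k250 11 (.s k42 k234 7 (.s k58 k26 3 (.d k202 k138 k154 7 11)))))), (.s k64 k127 6 (.s k170 k255
  14 (.s k42 k234 7 (.s k63 k21 6 (.d k192 k128 k149 7 14)))))] (.c k7 (.q k11 [(.s k10 k8 0 (.d
  k170 k250 k255 11 14)), (.s k122 k74 3 (.s k127 k64 6 (.s k79 k111 3 (.d k112 k117 k101 2 6))))]
  (.c k4 (.q k5 [(.s k169 k248 12 (.d k1 k13 k253 1 13)), (.s k10 k8 0 (.d k170 k250 k255 11 14))]
  (.c k13 (.q k14 [(.s k10 k8 0 (.d k170 k250 k255 11 14)), (.s k122 k74 3 (.s k127 k64 6 (.s k79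
  k111 3 (.d k112 k117 k101 2 6))))] .n) (.c k14 (.l (.s k13 k1 1 (.s k10 k8 0 (.d k170 k250 k255 11
  14)))) .n))) (.c k5 (.q k4 [(.s k10 k8 0 (.d k170 k250 k255 11 14)), (.s k122 k74 3 (.s k127 k64 6
  (.s k79 k111 3 (.d k112 k117 k101 2 6))))] (.c k13 (.q k14 [(.d k166 k247 k242 12 13), (.s k10 k8
  0 (.d k170 k250 k255 11 14))] .n) (.c k14 (.q k13 [(.s k10 k8 0 (.d k170 k250 k255 11 14)), (.s
  k122 k74 3 (.s k127 k64 6 (.s k79 k111 3 (.d k112 k117 k101 2 6))))] (.c k2 (.l (.s k10 k8 0 (.d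
  k170 k250 k255 11 14))) (.c k10 (.q k2 [(.s k127 k64 6 (.s k79 k111 3 (.s k112 k101 6 (.d k122
  k117 k74 2 3)))), (.s k169 k248 12 (.s k89 k249 11 (.s k93 k81 1 (.d k253 k173 k1 11 13))))] .n)
  .n))) .n))) (.c k13 (.q k14 [(.s k10 k8 0 (.d k170 k250 k255 11 14)), (.s k122 k74 3 (.s k127 k64
  6 (.s k79 k111 3 (.d k112 k117 k101 2 6))))] (.c k4 (.q k5 [(.s k10 k8 0 (.d k170 k250 k255 11
  14)), (.s k122 k74 3 (.s k127 k64 6 (.s k79 k111 3 (.d k112 k117 k101 2 6))))] .n) (.c k5 (.q k4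
  [(.d k166 k247 k242 12 13), (.s k10 k8 0 (.d k170 k250 k255 11 14))] .n) .n))) (.c k14 (.q k13
  [(.s k10 k8 0 (.d k170 k250 k255 11 14)), (.s k169 k248 12 (.d k1 k5 k253 1 13))] (.c k2 (.l (.s
  k10 k8 0 (.d k170 k250 k255 11 14))) (.c k4 (.l (.s k5 k1 1 (.s k10 k8 0 (.d k170 k250 k255 11
  14)))) (.c k5 (.q k4 [(.s k10 k8 0 (.d k170 k250 k255 11 14)), (.s k122 k74 3 (.s k127 k64 6 (.s
  k79 k111 3 (.d k112 k117 k101 2 6))))] (.c k2 (.l (.s k10 k8 0 (.d k170 k250 k255 11 14))) (.c k10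
  (.q k2 [(.s k127 k64 6 (.s k79 k111 3 (.s k112 k101 6 (.d k122 k117 k74 2 3)))), (.s k169 k248 12
  (.s k89 k249 11 (.s k93 k81 1 (.d k253 k173 k1 11 13))))] .n) .n))) (.c k10 (.q k2 [(.s k169 k248
  12 (.d k1 k5 k253 1 13)), (.s k122 k74 3 (.s k127 k64 6 (.s k79 k111 3 (.d k112 k117 k101 2 6))))]
  (.c k4 (.l (.s k5 k1 1 (.s k165 k245 11 (.s k89 k241 13 (.d k169 k249 k248 11 12))))) (.c k5 (.q
  k4 [(.s k127 k64 6 (.s k79 k111 3 (.s k112 k101 6 (.d k122 k117 k74 2 3)))), (.s k169 k248 12 (.s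
  k89 k249 11 (.s k93 k81 1 (.d k253 k173 k1 11 13))))] .n) .n))) .n))))) .n))))) (.c k11 (.q k7
  [(.s k127 k64 6 (.s k79 k111 3 (.s k112 k101 6 (.d k122 k117 k74 2 3)))), (.s k74 k122 3 (.s k170
  k255 14 (.s k10 k250 11 (.s k42 k234 7 (.s k58 k26 3 (.d k202 k138 k154 7 11)))))), (.s k64 k127 6
  (.s k170 k255 14 (.s k42 k234 7 (.s k63 k21 6 (.d k192 k128 k149 7 14)))))] (.c k13 (.q k14 [(.s
  k127 k64 6 (.s k79 k111 3 (.s k112 k101 6 (.d k122 k117 k74 2 3)))), (.s k74 k122 3 (.s k166 k242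
  13 (.s k46 k226 9 (.s k62 k30 3 (.d k194 k134 k150 9 13))))), (.s k64 k127 6 (.s k170 k255 14 (.s
  k42 k234 7 (.s k63 k21 6 (.d k192 k128 k149 7 14)))))] .n) (.c k14 (.q k13 [(.s k127 k64 6 (.s k79
  k111 3 (.s k112 k101 6 (.d k122 k117 k74 2 3)))), (.s k1 k5 1 (.s k169 k253 13 (.s k89 k249 11 (.s
  k81 k93 1 (.d k241 k161 k165 11 13)))))] (.c k2 (.q k10 [(.d k170 k250 k255 11 14), (.s k64 k127 6
  (.s k74 k122 3 (.s k69 k79 2 (.d k138 k207 k202 10 7))))] .n) (.c k10 (.q k2 [(.s k5 k1 1 (.s k165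
  k245 11 (.s k86 k244 12 (.d k170 k254 k255 13 14)))), (.s k122 k74 3 (.s k127 k64 6 (.s k79 k111 3
  (.d k112 k117 k101 2 6))))] .n) .n))) .n))) (.c k13 (.q k14 [(.s k127 k64 6 (.s k79 k111 3 (.s
  k112 k101 6 (.d k122 k117 k74 2 3)))), (.s k74 k122 3 (.s k166 k242 13 (.s k46 k226 9 (.s k62 k30
  3 (.d k194 k134 k150 9 13))))), (.s k64 k127 6 (.s k170 k255 14 (.s k42 k234 7 (.s k63 k21 6 (.d
  k192 k128 k149 7 14)))))] (.c k7 (.q k11 [(.s k10 k8 0 (.d k170 k250 k255 11 14)), (.s k122 k74 3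
  (.s k127 k64 6 (.s k79 k111 3 (.d k112 k117 k101 2 6))))] (.c k4 (.q k5 [(.s k10 k8 0 (.d k170
  k250 k255 11 14)), (.s k122 k74 3 (.s k127 k64 6 (.s k79 k111 3 (.d k112 k117 k101 2 6))))] .n)
  (.c k5 (.q k4 [(.d k166 k247 k242 12 13), (.s k10 k8 0 (.d k170 k250 k255 11 14))] .n) .n))) (.c
  k11 (.q k7 [(.s k127 k64 6 (.s k79 k111 3 (.s k112 k101 6 (.d k122 k117 k74 2 3)))), (.s k74 k122
  3 (.s k166 k242 13 (.s k46 k226 9 (.s k62 k30 3 (.d k194 k134 k150 9 13))))), (.s k64 k127 6 (.s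
  k170 k255 14 (.s k42 k234 7 (.s k63 k21 6 (.d k192 k128 k149 7 14)))))] .n) .n))) (.c k14 (.q k13
  [(.s k127 k64 6 (.s k79 k111 3 (.s k112 k101 6 (.d k122 k117 k74 2 3)))), (.s k1 k5 1 (.s k169
  k253 13 (.s k11 k248 12 (.s k10 k8 0 (.d k170 k250 k255 11 14)))))] (.c k2 (.q k10 [(.d k170 k250
  k255 11 14), (.s k1 k5 1 (.s k11 k8 0 (.d k169 k248 k253 12 13)))] (.c k7 (.l (.s k11 k8 0 (.d
  k170 k250 k255 11 14))) (.c k11 (.q k7 [(.d k170 k250 k255 11 14), (.s k64 k127 6 (.s k74 k122 3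
  (.s k69 k79 2 (.d k138 k207 k202 10 7))))] .n) .n))) (.c k7 (.q k11 [(.s k10 k8 0 (.d k170 k250
  k255 11 14)), (.s k169 k248 12 (.d k1 k5 k253 1 13))] (.c k2 (.l (.s k10 k8 0 (.d k170 k250 k255
  11 14))) (.c k4 (.l (.s k5 k1 1 (.s k10 k8 0 (.d k170 k250 k255 11 14)))) (.c k5 (.q k4 [(.s k10
  k8 0 (.d k170 k250 k255 11 14)), (.s k122 k74 3 (.s k127 k64 6 (.s k79 k111 3 (.d k112 k117 k101 2
  6))))] (.c k2 (.l (.s k10 k8 0 (.d k170 k250 k255 11 14))) (.c k10 (.q k2 [(.s k127 k64 6 (.s k79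
  k111 3 (.s k112 k101 6 (.d k122 k117 k74 2 3)))), (.s k169 k248 12 (.s k89 k249 11 (.s k93 k81 1
  (.d k253 k173 k1 11 13))))] .n) .n))) (.c k10 (.q k2 [(.s k169 k248 12 (.d k1 k5 k253 1 13)), (.s
  k122 k74 3 (.s k127 k64 6 (.s k79 k111 3 (.d k112 k117 k101 2 6))))] (.c k4 (.l (.s k5 k1 1 (.s
  k165 k245 11 (.s k89 k241 13 (.d k169 k249 k248 11 12))))) (.c k5 (.q k4 [(.s k127 k64 6 (.s k79
  k111 3 (.s k112 k101 6 (.d k122 k117 k74 2 3)))), (.s k169 k248 12 (.s k89 k249 11 (.s k93 k81 1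
  (.d k253 k173 k1 11 13))))] .n) .n))) .n))))) (.c k10 (.q k2 [(.s k127 k64 6 (.s k79 k111 3 (.s
  k112 k101 6 (.d k122 k117 k74 2 3)))), (.s k1 k5 1 (.s k169 k253 13 (.s k89 k249 11 (.s k81 k93 1
  (.d k241 k161 k165 11 13)))))] (.c k7 (.q k11 [(.s k169 k248 12 (.d k1 k5 k253 1 13)), (.s k122
  k74 3 (.s k127 k64 6 (.s k79 k111 3 (.d k112 k117 k101 2 6))))] (.c k4 (.l (.s k5 k1 1 (.s k165
  k245 11 (.s k89 k241 13 (.d k169 k249 k248 11 12))))) (.c k5 (.q k4 [(.s k127 k64 6 (.s k79 k111 3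
  (.s k112 k101 6 (.d k122 k117 k74 2 3)))), (.s k169 k248 12 (.s k89 k249 11 (.s k93 k81 1 (.d k253
  k173 k1 11 13))))] .n) .n))) (.c k11 (.q k7 [(.s k5 k1 1 (.s k165 k245 11 (.s k86 k244 12 (.d k170
  k254 k255 13 14)))), (.s k122 k74 3 (.s k127 k64 6 (.s k79 k111 3 (.d k112 k117 k101 2 6))))] .n)
  .n))) (.c k11 (.q k7 [(.s k127 k64 6 (.s k79 k111 3 (.s k112 k101 6 (.d k122 k117 k74 2 3)))), (.s
  k1 k5 1 (.s k169 k253 13 (.s k89 k249 11 (.s k81 k93 1 (.d k241 k161 k165 11 13)))))] (.c k2 (.q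
  k10 [(.d k170 k250 k255 11 14), (.s k64 k127 6 (.s k74 k122 3 (.s k69 k79 2 (.d k138 k207 k202 10
  7))))] .n) (.c k10 (.q k2 [(.s k5 k1 1 (.s k165 k245 11 (.s k86 k244 12 (.d k170 k254 k255 13
  14)))), (.s k122 k74 3 (.s k127 k64 6 (.s k79 k111 3 (.d k112 k117 k101 2 6))))] .n) .n))) .n)))))
  .n)))))) (.c k170 (.q k1 [(.s k5 k13 1 (.s k165 k245 11 (.d k15 k10 k240 2 14))), (.s k80 k95 2
  (.s k160 k240 11 (.s k169 k253 13 (.s k89 k249 11 (.s k81 k93 1 (.s k162 k243 12 (.d k161 k163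
  k241 0 11))))))), (.s k80 k95 2 (.s k169 k253 13 (.s k11 k248 12 (.s k10 k8 0 (.s k15 k5 2 (.d
  k240 k160 k165 11 14))))))] (.c k240 (.l (.s k5 k13 1 (.s k169 k253 13 (.s k11 k248 12 (.d k10 k15
  k8 2 0))))) .n)) (.c k240 (.f k255 k170 14 (.f k95 k80 2 (.f k15 k175 11 (.l (.s k5 k10 2 (.s k13
  k1 1 (.s k165 k245 11 (.s k89 k241 13 (.s k81 k93 1 (.s k243 k162 12 (.d k91 k88 k167 0
  13))))))))))) (.c k250 (.l (.s k95 k80 2 (.s k255 k170 14 (.s k15 k175 11 (.s k5 k10 2 (.d k165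
  k245 k240 11 14)))))) (.c k255 (.f k80 k95 2 (.f k240 k160 11 (.f k15 k165 14 (.l (.s k5 k10 2 (.s
  k1 k13 1 (.s k169 k253 13 (.s k89 k249 11 (.s k91 k88 0 (.s k243 k167 13 (.d k81 k93 k162 1
  12))))))))))) .n)))))))) (.c k9 (.q k6 [(.s k80 k95 2 (.s k240 k160 11 (.s k15 k165 14 (.s k10 k5
  2 (.d k170 k250 k255 11 14))))), (.s k170 k255 14 (.s k10 k250 11 (.s k14 k2 1 (.s k166 k242 13
  (.s k4 k247 12 (.d k5 k7 k15 0 2))))))] (.c k5 (.f k255 k170 14 (.f k80 k95 2 (.q k253 [(.s k240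
  k160 11 (.s k252 k254 0 (.s k248 k244 1 (.d k169 k1 k11 13 12)))), (.s k252 k254 0 (.s k84 k168 13
  (.s k86 k87 0 (.s k82 k94 1 (.s k83 k81 0 (.d k92 k88 k89 1 2)))))), (.s k240 k160 11 (.s k165 k15
  14 (.s k245 k250 2 (.s k241 k249 1 (.s k13 k89 13 (.s k169 k1 13 (.d k173 k161 k93 1 11)))))))]
  (.c k1 (.q k13 [(.s k93 k173 11 (.s k89 k81 1 (.s k240 k160 11 (.d k165 k241 k15 13 14)))), (.s
  k93 k173 11 (.s k89 k81 1 (.s k88 k91 0 (.s k84 k92 1 (.d k252 k254 k168 0 13))))), (.s k173 k93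
  11 (.s k240 k160 11 (.s k252 k254 0 (.d k15 k94 k165 12 14)))), (.s k240 k160 11 (.s k165 k15 14
  (.s k241 k89 13 (.d k245 k249 k250 1 2))))] .n) (.c k13 (.l (.s k1 k169 13 (.s k240 k160 11 (.s
  k245 k250 2 (.s k249 k241 1 (.s k252 k254 0 (.s k244 k248 1 (.d k246 k247 k243 0 2)))))))) (.c
  k169 (.l (.s k240 k160 11 (.s k245 k250 2 (.s k249 k241 1 (.s k252 k254 0 (.s k244 k248 1 (.d k246
  k247 k243 0 2))))))) .n)))))) (.c k10 (.l (.s k80 k95 2 (.s k240 k160 11 (.s k165 k15 14 (.s k245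
  k5 11 (.d k255 k250 k170 2 14)))))) (.c k15 (.f k95 k80 2 (.q k106 [(.s k127 k64 6 (.s k79 k111 3
  (.s k112 k101 6 (.d k122 k117 k74 2 3)))), (.s k74 k122 3 (.s k170 k255 14 (.s k10 k250 11 (.s k42
  k234 7 (.s k58 k26 3 (.d k202 k138 k154 7 11)))))), (.s k64 k127 6 (.s k170 k255 14 (.s k42 k234 7
  (.s k63 k21 6 (.d k192 k128 k149 7 14)))))] (.c k7 (.q k11 [(.s k127 k64 6 (.s k79 k111 3 (.s k112
  k101 6 (.d k122 k117 k74 2 3)))), (.s k74 k122 3 (.s k169 k248 12 (.s k43 k232 8 (.s k59 k27 3 (.d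
  k200 k137 k153 8 12))))), (.s k64 k127 6 (.s k170 k255 14 (.s k42 k234 7 (.s k63 k21 6 (.d k192
  k128 k149 7 14)))))] (.c k13 (.q k14 [(.s k10 k2 1 (.d k170 k250 k255 11 14)), (.s k122 k74 3 (.s
  k127 k64 6 (.s k79 k111 3 (.d k112 k117 k101 2 6))))] (.c k1 (.q k5 [(.s k10 k2 1 (.d k170 k250
  k255 11 14)), (.s k122 k74 3 (.s k127 k64 6 (.s k79 k111 3 (.d k112 k117 k101 2 6))))] .n) (.c k5
  (.q k1 [(.d k169 k248 k253 12 13), (.s k10 k2 1 (.d k170 k250 k255 11 14))] .n) .n))) (.c k14 (.q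
  k13 [(.s k127 k64 6 (.s k79 k111 3 (.s k112 k101 6 (.d k122 k117 k74 2 3)))), (.s k74 k122 3 (.s
  k169 k248 12 (.s k43 k232 8 (.s k59 k27 3 (.d k200 k137 k153 8 12))))), (.s k64 k127 6 (.s k170
  k255 14 (.s k42 k234 7 (.s k63 k21 6 (.d k192 k128 k149 7 14)))))] .n) .n))) (.c k11 (.q k7 [(.s
  k127 k64 6 (.s k79 k111 3 (.s k112 k101 6 (.d k122 k117 k74 2 3)))), (.s k4 k5 0 (.s k166 k247 12
  (.s k14 k242 13 (.s k10 k2 1 (.d k170 k250 k255 11 14)))))] (.c k8 (.q k10 [(.d k170 k250 k255 11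
  14), (.s k4 k5 0 (.s k14 k2 1 (.d k166 k247 k242 12 13)))] (.c k13 (.l (.s k14 k2 1 (.d k170 k250
  k255 11 14))) (.c k14 (.q k13 [(.d k170 k250 k255 11 14), (.s k64 k127 6 (.s k74 k122 3 (.s k69
  k79 2 (.d k138 k207 k202 10 7))))] .n) .n))) (.c k10 (.q k8 [(.s k127 k64 6 (.s k79 k111 3 (.s
  k112 k101 6 (.d k122 k117 k74 2 3)))), (.s k4 k5 0 (.s k166 k247 12 (.s k86 k246 11 (.s k84 k87 0
  (.d k244 k164 k165 11 12)))))] (.c k13 (.q k14 [(.s k166 k242 13 (.d k4 k5 k247 0 12)), (.s k122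
  k74 3 (.s k127 k64 6 (.s k79 k111 3 (.d k112 k117 k101 2 6))))] (.c k1 (.l (.s k5 k4 0 (.s k165
  k245 11 (.s k86 k244 12 (.d k166 k246 k242 11 13))))) (.c k5 (.q k1 [(.s k127 k64 6 (.s k79 k111 3
  (.s k112 k101 6 (.d k122 k117 k74 2 3)))), (.s k166 k242 13 (.s k86 k246 11 (.s k87 k84 0 (.d k247
  k167 k4 11 12))))] .n) .n))) (.c k14 (.q k13 [(.s k5 k4 0 (.s k165 k245 11 (.s k89 k241 13 (.d
  k170 k251 k255 12 14)))), (.s k122 k74 3 (.s k127 k64 6 (.s k79 k111 3 (.d k112 k117 k101 2 6))))]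
  .n) .n))) (.c k13 (.q k14 [(.s k10 k2 1 (.d k170 k250 k255 11 14)), (.s k166 k242 13 (.d k4 k5
  k247 0 12))] (.c k1 (.l (.s k5 k4 0 (.s k10 k2 1 (.d k170 k250 k255 11 14)))) (.c k5 (.q k1 [(.s
  k10 k2 1 (.d k170 k250 k255 11 14)), (.s k122 k74 3 (.s k127 k64 6 (.s k79 k111 3 (.d k112 k117
  k101 2 6))))] (.c k8 (.l (.s k10 k2 1 (.d k170 k250 k255 11 14))) (.c k10 (.q k8 [(.s k127 k64 6
  (.s k79 k111 3 (.s k112 k101 6 (.d k122 k117 k74 2 3)))), (.s k166 k242 13 (.s k86 k246 11 (.s k87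
  k84 0 (.d k247 k167 k4 11 12))))] .n) .n))) (.c k8 (.l (.s k10 k2 1 (.d k170 k250 k255 11 14)))
  (.c k10 (.q k8 [(.s k166 k242 13 (.d k4 k5 k247 0 12)), (.s k122 k74 3 (.s k127 k64 6 (.s k79 k111
  3 (.d k112 k117 k101 2 6))))] (.c k1 (.l (.s k5 k4 0 (.s k165 k245 11 (.s k86 k244 12 (.d k166
  k246 k242 11 13))))) (.c k5 (.q k1 [(.s k127 k64 6 (.s k79 k111 3 (.s k112 k101 6 (.d k122 k117
  k74 2 3)))), (.s k166 k242 13 (.s k86 k246 11 (.s k87 k84 0 (.d k247 k167 k4 11 12))))] .n) .n)))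
  .n))))) (.c k14 (.q k13 [(.s k127 k64 6 (.s k79 k111 3 (.s k112 k101 6 (.d k122 k117 k74 2 3)))),
  (.s k4 k5 0 (.s k166 k247 12 (.s k86 k246 11 (.s k84 k87 0 (.d k244 k164 k165 11 12)))))] (.c k8
  (.q k10 [(.d k170 k250 k255 11 14), (.s k64 k127 6 (.s k74 k122 3 (.s k69 k79 2 (.d k138 k207 k202
  10 7))))] .n) (.c k10 (.q k8 [(.s k5 k4 0 (.s k165 k245 11 (.s k89 k241 13 (.d k170 k251 k255 12
  14)))), (.s k122 k74 3 (.s k127 k64 6 (.s k79 k111 3 (.d k112 k117 k101 2 6))))] .n) .n))) .n)))))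
  (.c k13 (.q k14 [(.s k10 k2 1 (.d k170 k250 k255 11 14)), (.s k122 k74 3 (.s k127 k64 6 (.s k79
  k111 3 (.d k112 k117 k101 2 6))))] (.c k1 (.q k5 [(.s k166 k242 13 (.d k4 k7 k247 0 12)), (.s k10
  k2 1 (.d k170 k250 k255 11 14))] (.c k7 (.q k11 [(.s k10 k2 1 (.d k170 k250 k255 11 14)), (.s k122
  k74 3 (.s k127 k64 6 (.s k79 k111 3 (.d k112 k117 k101 2 6))))] .n) (.c k11 (.l (.s k7 k4 0 (.s
  k10 k2 1 (.d k170 k250 k255 11 14)))) .n))) (.c k5 (.q k1 [(.s k10 k2 1 (.d k170 k250 k255 11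
  14)), (.s k122 k74 3 (.s k127 k64 6 (.s k79 k111 3 (.d k112 k117 k101 2 6))))] (.c k7 (.q k11 [(.d
  k169 k248 k253 12 13), (.s k10 k2 1 (.d k170 k250 k255 11 14))] .n) (.c k11 (.q k7 [(.s k10 k2 1
  (.d k170 k250 k255 11 14)), (.s k122 k74 3 (.s k127 k64 6 (.s k79 k111 3 (.d k112 k117 k101 2
  6))))] (.c k8 (.l (.s k10 k2 1 (.d k170 k250 k255 11 14))) (.c k10 (.q k8 [(.s k127 k64 6 (.s k79
  k111 3 (.s k112 k101 6 (.d k122 k117 k74 2 3)))), (.s k166 k242 13 (.s k86 k246 11 (.s k87 k84 0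
  (.d k247 k167 k4 11 12))))] .n) .n))) .n))) (.c k7 (.q k11 [(.s k10 k2 1 (.d k170 k250 k255 11
  14)), (.s k122 k74 3 (.s k127 k64 6 (.s k79 k111 3 (.d k112 k117 k101 2 6))))] (.c k1 (.q k5 [(.s
  k10 k2 1 (.d k170 k250 k255 11 14)), (.s k122 k74 3 (.s k127 k64 6 (.s k79 k111 3 (.d k112 k117
  k101 2 6))))] .n) (.c k5 (.q k1 [(.d k169 k248 k253 12 13), (.s k10 k2 1 (.d k170 k250 k255 11
  14))] .n) .n))) (.c k11 (.q k7 [(.s k10 k2 1 (.d k170 k250 k255 11 14)), (.s k166 k242 13 (.d k4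
  k5 k247 0 12))] (.c k1 (.l (.s k5 k4 0 (.s k10 k2 1 (.d k170 k250 k255 11 14)))) (.c k5 (.q k1
  [(.s k10 k2 1 (.d k170 k250 k255 11 14)), (.s k122 k74 3 (.s k127 k64 6 (.s k79 k111 3 (.d k112
  k117 k101 2 6))))] (.c k8 (.l (.s k10 k2 1 (.d k170 k250 k255 11 14))) (.c k10 (.q k8 [(.s k127
  k64 6 (.s k79 k111 3 (.s k112 k101 6 (.d k122 k117 k74 2 3)))), (.s k166 k242 13 (.s k86 k246 11
  (.s k87 k84 0 (.d k247 k167 k4 11 12))))] .n) .n))) (.c k8 (.l (.s k10 k2 1 (.d k170 k250 k255 11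
  14))) (.c k10 (.q k8 [(.s k166 k242 13 (.d k4 k5 k247 0 12)), (.s k122 k74 3 (.s k127 k64 6 (.s
  k79 k111 3 (.d k112 k117 k101 2 6))))] (.c k1 (.l (.s k5 k4 0 (.s k165 k245 11 (.s k86 k244 12 (.d
  k166 k246 k242 11 13))))) (.c k5 (.q k1 [(.s k127 k64 6 (.s k79 k111 3 (.s k112 k101 6 (.d k122
  k117 k74 2 3)))), (.s k166 k242 13 (.s k86 k246 11 (.s k87 k84 0 (.d k247 k167 k4 11 12))))] .n)
  .n))) .n))))) .n))))) (.c k14 (.q k13 [(.s k127 k64 6 (.s k79 k111 3 (.s k112 k101 6 (.d k122 k117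
  k74 2 3)))), (.s k74 k122 3 (.s k170 k255 14 (.s k10 k250 11 (.s k42 k234 7 (.s k58 k26 3 (.d k202
  k138 k154 7 11)))))), (.s k64 k127 6 (.s k170 k255 14 (.s k42 k234 7 (.s k63 k21 6 (.d k192 k128
  k149 7 14)))))] (.c k7 (.q k11 [(.s k127 k64 6 (.s k79 k111 3 (.s k112 k101 6 (.d k122 k117 k74 2
  3)))), (.s k74 k122 3 (.s k169 k248 12 (.s k43 k232 8 (.s k59 k27 3 (.d k200 k137 k153 8 12))))),
  (.s k64 k127 6 (.s k170 k255 14 (.s k42 k234 7 (.s k63 k21 6 (.d k192 k128 k149 7 14)))))] .n) (.c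
  k11 (.q k7 [(.s k127 k64 6 (.s k79 k111 3 (.s k112 k101 6 (.d k122 k117 k74 2 3)))), (.s k4 k5 0
  (.s k166 k247 12 (.s k86 k246 11 (.s k84 k87 0 (.d k244 k164 k165 11 12)))))] (.c k8 (.q k10 [(.d
  k170 k250 k255 11 14), (.s k64 k127 6 (.s k74 k122 3 (.s k69 k79 2 (.d k138 k207 k202 10 7))))]
  .n) (.c k10 (.q k8 [(.s k5 k4 0 (.s k165 k245 11 (.s k89 k241 13 (.d k170 k251 k255 12 14)))), (.s
  k122 k74 3 (.s k127 k64 6 (.s k79 k111 3 (.d k112 k117 k101 2 6))))] .n) .n))) .n))) .n)))))) (.c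
  k170 (.q k4 [(.s k5 k7 0 (.s k165 k245 11 (.d k15 k10 k240 2 14))), (.s k80 k95 2 (.s k160 k240 11
  (.s k166 k247 12 (.s k86 k246 11 (.s k84 k87 0 (.s k168 k252 13 (.d k164 k172 k244 1 11))))))),
  (.s k80 k95 2 (.s k166 k247 12 (.s k14 k242 13 (.s k10 k2 1 (.s k15 k5 2 (.d k240 k160 k165 11
  14))))))] (.c k240 (.l (.s k5 k7 0 (.s k166 k247 12 (.s k14 k242 13 (.d k10 k15 k2 2 1))))) .n))
  (.c k240 (.f k255 k170 14 (.f k95 k80 2 (.f k15 k175 11 (.l (.s k5 k10 2 (.s k7 k4 0 (.s k165 k245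
  11 (.s k86 k244 12 (.s k84 k87 0 (.s k252 k168 13 (.d k94 k82 k173 1 12))))))))))) (.c k250 (.l
  (.s k95 k80 2 (.s k255 k170 14 (.s k15 k175 11 (.s k5 k10 2 (.d k165 k245 k240 11 14)))))) (.c
  k255 (.f k80 k95 2 (.f k240 k160 11 (.f k15 k165 14 (.l (.s k5 k10 2 (.s k4 k7 0 (.s k166 k247 12
  (.s k86 k246 11 (.s k94 k82 1 (.s k252 k173 12 (.d k84 k87 k168 0 13))))))))))) .n)))))))) (.c k10
  (.l (.s k80 k95 2 (.s k240 k160 11 (.s k165 k15 14 (.s k245 k5 11 (.d k255 k250 k170 2 14))))))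
  (.c k15 (.f k95 k80 2 (.q k106 [(.s k127 k64 6 (.s k79 k111 3 (.s k112 k101 6 (.d k122 k117 k74 2
  3)))), (.s k74 k122 3 (.s k170 k255 14 (.s k10 k250 11 (.s k42 k234 7 (.s k58 k26 3 (.d k202 k138
  k154 7 11)))))), (.s k64 k127 6 (.s k170 k255 14 (.s k42 k234 7 (.s k63 k21 6 (.d k192 k128 k149 7
  14)))))] (.c k6 (.q k9 [(.s k127 k64 6 (.s k79 k111 3 (.s k112 k101 6 (.d k122 k117 k74 2 3)))),
  (.s k74 k122 3 (.s k170 k255 14 (.s k10 k250 11 (.s k42 k234 7 (.s k58 k26 3 (.d k202 k138 k154 7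
  11)))))), (.s k64 k127 6 (.s k170 k255 14 (.s k42 k234 7 (.s k63 k21 6 (.d k192 k128 k149 7
  14)))))] (.c k7 (.q k11 [(.s k10 k8 0 (.d k170 k250 k255 11 14)), (.s k122 k74 3 (.s k127 k64 6
  (.s k79 k111 3 (.d k112 k117 k101 2 6))))] (.c k4 (.q k5 [(.s k169 k248 12 (.d k1 k13 k253 1 13)),
  (.s k10 k8 0 (.d k170 k250 k255 11 14))] (.c k13 (.q k14 [(.s k10 k8 0 (.d k170 k250 k255 11 14)),
  (.s k122 k74 3 (.s k127 k64 6 (.s k79 k111 3 (.d k112 k117 k101 2 6))))] .n) (.c k14 (.l (.s k13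
  k1 1 (.s k10 k8 0 (.d k170 k250 k255 11 14)))) .n))) (.c k5 (.q k4 [(.s k10 k8 0 (.d k170 k250
  k255 11 14)), (.s k122 k74 3 (.s k127 k64 6 (.s k79 k111 3 (.d k112 k117 k101 2 6))))] (.c k13 (.q
  k14 [(.d k166 k247 k242 12 13), (.s k10 k8 0 (.d k170 k250 k255 11 14))] .n) (.c k14 (.q k13 [(.s
  k10 k8 0 (.d k170 k250 k255 11 14)), (.s k122 k74 3 (.s k127 k64 6 (.s k79 k111 3 (.d k112 k117
  k101 2 6))))] (.c k2 (.l (.s k10 k8 0 (.d k170 k250 k255 11 14))) (.c k10 (.q k2 [(.s k127 k64 6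
  (.s k79 k111 3 (.s k112 k101 6 (.d k122 k117 k74 2 3)))), (.s k169 k248 12 (.s k89 k249 11 (.s k93
  k81 1 (.d k253 k173 k1 11 13))))] .n) .n))) .n))) (.c k13 (.q k14 [(.s k10 k8 0 (.d k170 k250 k255
  11 14)), (.s k122 k74 3 (.s k127 k64 6 (.s k79 k111 3 (.d k112 k117 k101 2 6))))] (.c k4 (.q k5
  [(.s k10 k8 0 (.d k170 k250 k255 11 14)), (.s k122 k74 3 (.s k127 k64 6 (.s k79 k111 3 (.d k112
  k117 k101 2 6))))] .n) (.c k5 (.q k4 [(.d k166 k247 k242 12 13), (.s k10 k8 0 (.d k170 k250 k255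
  11 14))] .n) .n))) (.c k14 (.q k13 [(.s k10 k8 0 (.d k170 k250 k255 11 14)), (.s k169 k248 12 (.d
  k1 k5 k253 1 13))] (.c k2 (.l (.s k10 k8 0 (.d k170 k250 k255 11 14))) (.c k4 (.l (.s k5 k1 1 (.s
  k10 k8 0 (.d k170 k250 k255 11 14)))) (.c k5 (.q k4 [(.s k10 k8 0 (.d k170 k250 k255 11 14)), (.s
  k122 k74 3 (.s k127 k64 6 (.s k79 k111 3 (.d k112 k117 k101 2 6))))] (.c k2 (.l (.s k10 k8 0 (.d
  k170 k250 k255 11 14))) (.c k10 (.q k2 [(.s k127 k64 6 (.s k79 k111 3 (.s k112 k101 6 (.d k122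
  k117 k74 2 3)))), (.s k169 k248 12 (.s k89 k249 11 (.s k93 k81 1 (.d k253 k173 k1 11 13))))] .n)
  .n))) (.c k10 (.q k2 [(.s k169 k248 12 (.d k1 k5 k253 1 13)), (.s k122 k74 3 (.s k127 k64 6 (.s
  k79 k111 3 (.d k112 k117 k101 2 6))))] (.c k4 (.l (.s k5 k1 1 (.s k165 k245 11 (.s k89 k241 13 (.d
  k169 k249 k248 11 12))))) (.c k5 (.q k4 [(.s k127 k64 6 (.s k79 k111 3 (.s k112 k101 6 (.d k122
  k117 k74 2 3)))), (.s k169 k248 12 (.s k89 k249 11 (.s k93 k81 1 (.d k253 k173 k1 11 13))))] .n)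
  .n))) .n))))) .n))))) (.c k11 (.q k7 [(.s k127 k64 6 (.s k79 k111 3 (.s k112 k101 6 (.d k122 k117
  k74 2 3)))), (.s k74 k122 3 (.s k170 k255 14 (.s k10 k250 11 (.s k42 k234 7 (.s k58 k26 3 (.d k202
  k138 k154 7 11)))))), (.s k64 k127 6 (.s k170 k255 14 (.s k42 k234 7 (.s k63 k21 6 (.d k192 k128
  k149 7 14)))))] (.c k13 (.q k14 [(.s k127 k64 6 (.s k79 k111 3 (.s k112 k101 6 (.d k122 k117 k74 2
  3)))), (.s k74 k122 3 (.s k166 k242 13 (.s k46 k226 9 (.s k62 k30 3 (.d k194 k134 k150 9 13))))),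
  (.s k64 k127 6 (.s k170 k255 14 (.s k42 k234 7 (.s k63 k21 6 (.d k192 k128 k149 7 14)))))] .n) (.c
  k14 (.q k13 [(.s k127 k64 6 (.s k79 k111 3 (.s k112 k101 6 (.d k122 k117 k74 2 3)))), (.s k1 k5 1
  (.s k169 k253 13 (.s k89 k249 11 (.s k81 k93 1 (.d k241 k161 k165 11 13)))))] (.c k2 (.q k10 [(.d
  k170 k250 k255 11 14), (.s k64 k127 6 (.s k74 k122 3 (.s k69 k79 2 (.d k138 k207 k202 10 7))))]
  .n) (.c k10 (.q k2 [(.s k5 k1 1 (.s k165 k245 11 (.s k86 k244 12 (.d k170 k254 k255 13 14)))), (.s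
  k122 k74 3 (.s k127 k64 6 (.s k79 k111 3 (.d k112 k117 k101 2 6))))] .n) .n))) .n))) (.c k13 (.q
  k14 [(.s k127 k64 6 (.s k79 k111 3 (.s k112 k101 6 (.d k122 k117 k74 2 3)))), (.s k74 k122 3 (.s
  k166 k242 13 (.s k46 k226 9 (.s k62 k30 3 (.d k194 k134 k150 9 13))))), (.s k64 k127 6 (.s k170
  k255 14 (.s k42 k234 7 (.s k63 k21 6 (.d k192 k128 k149 7 14)))))] (.c k7 (.q k11 [(.s k10 k8 0
  (.d k170 k250 k255 11 14)), (.s k122 k74 3 (.s k127 k64 6 (.s k79 k111 3 (.d k112 k117 k101 2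
  6))))] (.c k4 (.q k5 [(.s k10 k8 0 (.d k170 k250 k255 11 14)), (.s k122 k74 3 (.s k127 k64 6 (.s
  k79 k111 3 (.d k112 k117 k101 2 6))))] .n) (.c k5 (.q k4 [(.d k166 k247 k242 12 13), (.s k10 k8 0
  (.d k170 k250 k255 11 14))] .n) .n))) (.c k11 (.q k7 [(.s k127 k64 6 (.s k79 k111 3 (.s k112 k101
  6 (.d k122 k117 k74 2 3)))), (.s k74 k122 3 (.s k166 k242 13 (.s k46 k226 9 (.s k62 k30 3 (.d k194
  k134 k150 9 13))))), (.s k64 k127 6 (.s k170 k255 14 (.s k42 k234 7 (.s k63 k21 6 (.d k192 k128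
  k149 7 14)))))] .n) .n))) (.c k14 (.q k13 [(.s k127 k64 6 (.s k79 k111 3 (.s k112 k101 6 (.d k122
  k117 k74 2 3)))), (.s k1 k5 1 (.s k169 k253 13 (.s k11 k248 12 (.s k10 k8 0 (.d k170 k250 k255 11
  14)))))] (.c k2 (.q k10 [(.d k170 k250 k255 11 14), (.s k1 k5 1 (.s k11 k8 0 (.d k169 k248 k253 12
  13)))] (.c k7 (.l (.s k11 k8 0 (.d k170 k250 k255 11 14))) (.c k11 (.q k7 [(.d k170 k250 k255 11
  14), (.s k64 k127 6 (.s k74 k122 3 (.s k69 k79 2 (.d k138 k207 k202 10 7))))] .n) .n))) (.c k7 (.q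
  k11 [(.s k10 k8 0 (.d k170 k250 k255 11 14)), (.s k169 k248 12 (.d k1 k5 k253 1 13))] (.c k2 (.l
  (.s k10 k8 0 (.d k170 k250 k255 11 14))) (.c k4 (.l (.s k5 k1 1 (.s k10 k8 0 (.d k170 k250 k255 11
  14)))) (.c k5 (.q k4 [(.s k10 k8 0 (.d k170 k250 k255 11 14)), (.s k122 k74 3 (.s k127 k64 6 (.s
  k79 k111 3 (.d k112 k117 k101 2 6))))] (.c k2 (.l (.s k10 k8 0 (.d k170 k250 k255 11 14))) (.c k10
  (.q k2 [(.s k127 k64 6 (.s k79 k111 3 (.s k112 k101 6 (.d k122 k117 k74 2 3)))), (.s k169 k248 12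
  (.s k89 k249 11 (.s k93 k81 1 (.d k253 k173 k1 11 13))))] .n) .n))) (.c k10 (.q k2 [(.s k169 k248
  12 (.d k1 k5 k253 1 13)), (.s k122 k74 3 (.s k127 k64 6 (.s k79 k111 3 (.d k112 k117 k101 2 6))))]
  (.c k4 (.l (.s k5 k1 1 (.s k165 k245 11 (.s k89 k241 13 (.d k169 k249 k248 11 12))))) (.c k5 (.q
  k4 [(.s k127 k64 6 (.s k79 k111 3 (.s k112 k101 6 (.d k122 k117 k74 2 3)))), (.s k169 k248 12 (.s
  k89 k249 11 (.s k93 k81 1 (.d k253 k173 k1 11 13))))] .n) .n))) .n))))) (.c k10 (.q k2 [(.s k127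
  k64 6 (.s k79 k111 3 (.s k112 k101 6 (.d k122 k117 k74 2 3)))), (.s k1 k5 1 (.s k169 k253 13 (.s
  k89 k249 11 (.s k81 k93 1 (.d k241 k161 k165 11 13)))))] (.c k7 (.q k11 [(.s k169 k248 12 (.d k1
  k5 k253 1 13)), (.s k122 k74 3 (.s k127 k64 6 (.s k79 k111 3 (.d k112 k117 k101 2 6))))] (.c k4
  (.l (.s k5 k1 1 (.s k165 k245 11 (.s k89 k241 13 (.d k169 k249 k248 11 12))))) (.c k5 (.q k4 [(.s
  k127 k64 6 (.s k79 k111 3 (.s k112 k101 6 (.d k122 k117 k74 2 3)))), (.s k169 k248 12 (.s k89 k249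
  11 (.s k93 k81 1 (.d k253 k173 k1 11 13))))] .n) .n))) (.c k11 (.q k7 [(.s k5 k1 1 (.s k165 k245
  11 (.s k86 k244 12 (.d k170 k254 k255 13 14)))), (.s k122 k74 3 (.s k127 k64 6 (.s k79 k111 3 (.d
  k112 k117 k101 2 6))))] .n) .n))) (.c k11 (.q k7 [(.s k127 k64 6 (.s k79 k111 3 (.s k112 k101 6
  (.d k122 k117 k74 2 3)))), (.s k1 k5 1 (.s k169 k253 13 (.s k89 k249 11 (.s k81 k93 1 (.d k241
  k161 k165 11 13)))))] (.c k2 (.q k10 [(.d k170 k250 k255 11 14), (.s k64 k127 6 (.s k74 k122 3 (.s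
  k69 k79 2 (.d k138 k207 k202 10 7))))] .n) (.c k10 (.q k2 [(.s k5 k1 1 (.s k165 k245 11 (.s k86
  k244 12 (.d k170 k254 k255 13 14)))), (.s k122 k74 3 (.s k127 k64 6 (.s k79 k111 3 (.d k112 k117
  k101 2 6))))] .n) .n))) .n))))) .n))))) (.c k7 (.q k11 [(.s k127 k64 6 (.s k79 k111 3 (.s k112
  k101 6 (.d k122 k117 k74 2 3)))), (.s k74 k122 3 (.s k169 k248 12 (.s k43 k232 8 (.s k59 k27 3 (.d
  k200 k137 k153 8 12))))), (.s k64 k127 6 (.s k170 k255 14 (.s k42 k234 7 (.s k63 k21 6 (.d k192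
  k128 k149 7 14)))))] (.c k6 (.q k9 [(.s k10 k8 0 (.d k170 k250 k255 11 14)), (.s k122 k74 3 (.s
  k127 k64 6 (.s k79 k111 3 (.d k112 k117 k101 2 6))))] (.c k4 (.q k5 [(.s k169 k248 12 (.d k1 k13
  k253 1 13)), (.s k10 k8 0 (.d k170 k250 k255 11 14))] (.c k13 (.q k14 [(.s k10 k8 0 (.d k170 k250
  k255 11 14)), (.s k122 k74 3 (.s k127 k64 6 (.s k79 k111 3 (.d k112 k117 k101 2 6))))] .n) (.c k14
  (.l (.s k13 k1 1 (.s k10 k8 0 (.d k170 k250 k255 11 14)))) .n))) (.c k5 (.q k4 [(.s k10 k8 0 (.d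
  k170 k250 k255 11 14)), (.s k122 k74 3 (.s k127 k64 6 (.s k79 k111 3 (.d k112 k117 k101 2 6))))]
  (.c k13 (.q k14 [(.d k166 k247 k242 12 13), (.s k10 k8 0 (.d k170 k250 k255 11 14))] .n) (.c k14
  (.q k13 [(.s k10 k8 0 (.d k170 k250 k255 11 14)), (.s k122 k74 3 (.s k127 k64 6 (.s k79 k111 3 (.d
  k112 k117 k101 2 6))))] (.c k2 (.l (.s k10 k8 0 (.d k170 k250 k255 11 14))) (.c k10 (.q k2 [(.s
  k127 k64 6 (.s k79 k111 3 (.s k112 k101 6 (.d k122 k117 k74 2 3)))), (.s k169 k248 12 (.s k89 k249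
  11 (.s k93 k81 1 (.d k253 k173 k1 11 13))))] .n) .n))) .n))) (.c k13 (.q k14 [(.s k10 k8 0 (.d
  k170 k250 k255 11 14)), (.s k122 k74 3 (.s k127 k64 6 (.s k79 k111 3 (.d k112 k117 k101 2 6))))]
  (.c k4 (.q k5 [(.s k10 k8 0 (.d k170 k250 k255 11 14)), (.s k122 k74 3 (.s k127 k64 6 (.s k79 k111
  3 (.d k112 k117 k101 2 6))))] .n) (.c k5 (.q k4 [(.d k166 k247 k242 12 13), (.s k10 k8 0 (.d k170
  k250 k255 11 14))] .n) .n))) (.c k14 (.q k13 [(.s k10 k8 0 (.d k170 k250 k255 11 14)), (.s k169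
  k248 12 (.d k1 k5 k253 1 13))] (.c k2 (.l (.s k10 k8 0 (.d k170 k250 k255 11 14))) (.c k4 (.l (.s
  k5 k1 1 (.s k10 k8 0 (.d k170 k250 k255 11 14)))) (.c k5 (.q k4 [(.s k10 k8 0 (.d k170 k250 k255
  11 14)), (.s k122 k74 3 (.s k127 k64 6 (.s k79 k111 3 (.d k112 k117 k101 2 6))))] (.c k2 (.l (.s
  k10 k8 0 (.d k170 k250 k255 11 14))) (.c k10 (.q k2 [(.s k127 k64 6 (.s k79 k111 3 (.s k112 k101 6
  (.d k122 k117 k74 2 3)))), (.s k169 k248 12 (.s k89 k249 11 (.s k93 k81 1 (.d k253 k173 k1 11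
  13))))] .n) .n))) (.c k10 (.q k2 [(.s k169 k248 12 (.d k1 k5 k253 1 13)), (.s k122 k74 3 (.s k127
  k64 6 (.s k79 k111 3 (.d k112 k117 k101 2 6))))] (.c k4 (.l (.s k5 k1 1 (.s k165 k245 11 (.s k89
  k241 13 (.d k169 k249 k248 11 12))))) (.c k5 (.q k4 [(.s k127 k64 6 (.s k79 k111 3 (.s k112 k101 6
  (.d k122 k117 k74 2 3)))), (.s k169 k248 12 (.s k89 k249 11 (.s k93 k81 1 (.d k253 k173 k1 11
  13))))] .n) .n))) .n))))) .n))))) (.c k9 (.q k6 [(.s k127 k64 6 (.s k79 k111 3 (.s k112 k101 6 (.d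
  k122 k117 k74 2 3)))), (.s k74 k122 3 (.s k169 k248 12 (.s k43 k232 8 (.s k59 k27 3 (.d k200 k137
  k153 8 12))))), (.s k64 k127 6 (.s k170 k255 14 (.s k42 k234 7 (.s k63 k21 6 (.d k192 k128 k149 7
  14)))))] (.c k13 (.q k14 [(.s k10 k2 1 (.d k170 k250 k255 11 14)), (.s k122 k74 3 (.s k127 k64 6
  (.s k79 k111 3 (.d k112 k117 k101 2 6))))] (.c k1 (.q k5 [(.s k10 k2 1 (.d k170 k250 k255 11 14)),
  (.s k122 k74 3 (.s k127 k64 6 (.s k79 k111 3 (.d k112 k117 k101 2 6))))] .n) (.c k5 (.q k1 [(.d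
  k169 k248 k253 12 13), (.s k10 k2 1 (.d k170 k250 k255 11 14))] .n) .n))) (.c k14 (.q k13 [(.s
  k127 k64 6 (.s k79 k111 3 (.s k112 k101 6 (.d k122 k117 k74 2 3)))), (.s k74 k122 3 (.s k169 k248
  12 (.s k43 k232 8 (.s k59 k27 3 (.d k200 k137 k153 8 12))))), (.s k64 k127 6 (.s k170 k255 14 (.s
  k42 k234 7 (.s k63 k21 6 (.d k192 k128 k149 7 14)))))] .n) .n))) (.c k13 (.q k14 [(.s k127 k64 6
  (.s k79 k111 3 (.s k112 k101 6 (.d k122 k117 k74 2 3)))), (.s k74 k122 3 (.s k166 k242 13 (.s k46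
  k226 9 (.s k62 k30 3 (.d k194 k134 k150 9 13))))), (.s k64 k127 6 (.s k170 k255 14 (.s k42 k234 7
  (.s k63 k21 6 (.d k192 k128 k149 7 14)))))] (.c k6 (.q k9 [(.s k10 k8 0 (.d k170 k250 k255 11
  14)), (.s k122 k74 3 (.s k127 k64 6 (.s k79 k111 3 (.d k112 k117 k101 2 6))))] (.c k4 (.q k5 [(.s
  k10 k8 0 (.d k170 k250 k255 11 14)), (.s k122 k74 3 (.s k127 k64 6 (.s k79 k111 3 (.d k112 k117
  k101 2 6))))] .n) (.c k5 (.q k4 [(.d k166 k247 k242 12 13), (.s k10 k8 0 (.d k170 k250 k255 11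
  14))] .n) .n))) (.c k9 (.q k6 [(.s k10 k2 1 (.d k170 k250 k255 11 14)), (.s k122 k74 3 (.s k127
  k64 6 (.s k79 k111 3 (.d k112 k117 k101 2 6))))] (.c k1 (.q k5 [(.s k10 k2 1 (.d k170 k250 k255 11
  14)), (.s k122 k74 3 (.s k127 k64 6 (.s k79 k111 3 (.d k112 k117 k101 2 6))))] .n) (.c k5 (.q k1
  [(.d k169 k248 k253 12 13), (.s k10 k2 1 (.d k170 k250 k255 11 14))] .n) .n))) .n))) (.c k14 (.q
  k13 [(.s k127 k64 6 (.s k79 k111 3 (.s k112 k101 6 (.d k122 k117 k74 2 3)))), (.s k74 k122 3 (.s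
  k169 k248 12 (.s k43 k232 8 (.s k59 k27 3 (.d k200 k137 k153 8 12))))), (.s k64 k127 6 (.s k170
  k255 14 (.s k42 k234 7 (.s k63 k21 6 (.d k192 k128 k149 7 14)))))] (.c k6 (.q k9 [(.s k10 k8 0 (.d
  k170 k250 k255 11 14)), (.s k169 k248 12 (.d k1 k5 k253 1 13))] (.c k2 (.l (.s k10 k8 0 (.d k170
  k250 k255 11 14))) (.c k4 (.l (.s k5 k1 1 (.s k10 k8 0 (.d k170 k250 k255 11 14)))) (.c k5 (.q k4
  [(.s k10 k8 0 (.d k170 k250 k255 11 14)), (.s k122 k74 3 (.s k127 k64 6 (.s k79 k111 3 (.d k112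
  k117 k101 2 6))))] (.c k2 (.l (.s k10 k8 0 (.d k170 k250 k255 11 14))) (.c k10 (.q k2 [(.s k127
  k64 6 (.s k79 k111 3 (.s k112 k101 6 (.d k122 k117 k74 2 3)))), (.s k169 k248 12 (.s k89 k249 11
  (.s k93 k81 1 (.d k253 k173 k1 11 13))))] .n) .n))) (.c k10 (.q k2 [(.s k169 k248 12 (.d k1 k5
  k253 1 13)), (.s k122 k74 3 (.s k127 k64 6 (.s k79 k111 3 (.d k112 k117 k101 2 6))))] (.c k4 (.l
  (.s k5 k1 1 (.s k165 k245 11 (.s k89 k241 13 (.d k169 k249 k248 11 12))))) (.c k5 (.q k4 [(.s k127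
  k64 6 (.s k79 k111 3 (.s k112 k101 6 (.d k122 k117 k74 2 3)))), (.s k169 k248 12 (.s k89 k249 11
  (.s k93 k81 1 (.d k253 k173 k1 11 13))))] .n) .n))) .n))))) (.c k9 (.q k6 [(.s k127 k64 6 (.s k79
  k111 3 (.s k112 k101 6 (.d k122 k117 k74 2 3)))), (.s k74 k122 3 (.s k169 k248 12 (.s k43 k232 8
  (.s k59 k27 3 (.d k200 k137 k153 8 12))))), (.s k64 k127 6 (.s k170 k255 14 (.s k42 k234 7 (.s k63
  k21 6 (.d k192 k128 k149 7 14)))))] .n) .n))) .n))))) (.c k9 (.q k6 [(.s k127 k64 6 (.s k79 k111 3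
  (.s k112 k101 6 (.d k122 k117 k74 2 3)))), (.s k74 k122 3 (.s k170 k255 14 (.s k10 k250 11 (.s k42
  k234 7 (.s k58 k26 3 (.d k202 k138 k154 7 11)))))), (.s k64 k127 6 (.s k170 k255 14 (.s k42 k234 7
  (.s k63 k21 6 (.d k192 k128 k149 7 14)))))] (.c k7 (.q k11 [(.s k127 k64 6 (.s k79 k111 3 (.s k112
  k101 6 (.d k122 k117 k74 2 3)))), (.s k74 k122 3 (.s k169 k248 12 (.s k43 k232 8 (.s k59 k27 3 (.d
  k200 k137 k153 8 12))))), (.s k64 k127 6 (.s k170 k255 14 (.s k42 k234 7 (.s k63 k21 6 (.d k192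
  k128 k149 7 14)))))] (.c k13 (.q k14 [(.s k10 k2 1 (.d k170 k250 k255 11 14)), (.s k122 k74 3 (.s
  k127 k64 6 (.s k79 k111 3 (.d k112 k117 k101 2 6))))] (.c k1 (.q k5 [(.s k10 k2 1 (.d k170 k250
  k255 11 14)), (.s k122 k74 3 (.s k127 k64 6 (.s k79 k111 3 (.d k112 k117 k101 2 6))))] .n) (.c k5
  (.q k1 [(.d k169 k248 k253 12 13), (.s k10 k2 1 (.d k170 k250 k255 11 14))] .n) .n))) (.c k14 (.q
  k13 [(.s k127 k64 6 (.s k79 k111 3 (.s k112 k101 6 (.d k122 k117 k74 2 3)))), (.s k74 k122 3 (.s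
  k169 k248 12 (.s k43 k232 8 (.s k59 k27 3 (.d k200 k137 k153 8 12))))), (.s k64 k127 6 (.s k170
  k255 14 (.s k42 k234 7 (.s k63 k21 6 (.d k192 k128 k149 7 14)))))] .n) .n))) (.c k11 (.q k7 [(.s
  k127 k64 6 (.s k79 k111 3 (.s k112 k101 6 (.d k122 k117 k74 2 3)))), (.s k4 k5 0 (.s k166 k247 12
  (.s k14 k242 13 (.s k10 k2 1 (.d k170 k250 k255 11 14)))))] (.c k8 (.q k10 [(.d k170 k250 k255 11
  14), (.s k4 k5 0 (.s k14 k2 1 (.d k166 k247 k242 12 13)))] (.c k13 (.l (.s k14 k2 1 (.d k170 k250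
  k255 11 14))) (.c k14 (.q k13 [(.d k170 k250 k255 11 14), (.s k64 k127 6 (.s k74 k122 3 (.s k69
  k79 2 (.d k138 k207 k202 10 7))))] .n) .n))) (.c k10 (.q k8 [(.s k127 k64 6 (.s k79 k111 3 (.s
  k112 k101 6 (.d k122 k117 k74 2 3)))), (.s k4 k5 0 (.s k166 k247 12 (.s k86 k246 11 (.s k84 k87 0
  (.d k244 k164 k165 11 12)))))] (.c k13 (.q k14 [(.s k166 k242 13 (.d k4 k5 k247 0 12)), (.s k122
  k74 3 (.s k127 k64 6 (.s k79 k111 3 (.d k112 k117 k101 2 6))))] (.c k1 (.l (.s k5 k4 0 (.s k165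
  k245 11 (.s k86 k244 12 (.d k166 k246 k242 11 13))))) (.c k5 (.q k1 [(.s k127 k64 6 (.s k79 k111 3
  (.s k112 k101 6 (.d k122 k117 k74 2 3)))), (.s k166 k242 13 (.s k86 k246 11 (.s k87 k84 0 (.d k247
  k167 k4 11 12))))] .n) .n))) (.c k14 (.q k13 [(.s k5 k4 0 (.s k165 k245 11 (.s k89 k241 13 (.d
  k170 k251 k255 12 14)))), (.s k122 k74 3 (.s k127 k64 6 (.s k79 k111 3 (.d k112 k117 k101 2 6))))]
  .n) .n))) (.c k13 (.q k14 [(.s k10 k2 1 (.d k170 k250 k255 11 14)), (.s k166 k242 13 (.d k4 k5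
  k247 0 12))] (.c k1 (.l (.s k5 k4 0 (.s k10 k2 1 (.d k170 k250 k255 11 14)))) (.c k5 (.q k1 [(.s
  k10 k2 1 (.d k170 k250 k255 11 14)), (.s k122 k74 3 (.s k127 k64 6 (.s k79 k111 3 (.d k112 k117
  k101 2 6))))] (.c k8 (.l (.s k10 k2 1 (.d k170 k250 k255 11 14))) (.c k10 (.q k8 [(.s k127 k64 6
  (.s k79 k111 3 (.s k112 k101 6 (.d k122 k117 k74 2 3)))), (.s k166 k242 13 (.s k86 k246 11 (.s k87
  k84 0 (.d k247 k167 k4 11 12))))] .n) .n))) (.c k8 (.l (.s k10 k2 1 (.d k170 k250 k255 11 14)))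
  (.c k10 (.q k8 [(.s k166 k242 13 (.d k4 k5 k247 0 12)), (.s k122 k74 3 (.s k127 k64 6 (.s k79 k111
  3 (.d k112 k117 k101 2 6))))] (.c k1 (.l (.s k5 k4 0 (.s k165 k245 11 (.s k86 k244 12 (.d k166
  k246 k242 11 13))))) (.c k5 (.q k1 [(.s k127 k64 6 (.s k79 k111 3 (.s k112 k101 6 (.d k122 k117
  k74 2 3)))), (.s k166 k242 13 (.s k86 k246 11 (.s k87 k84 0 (.d k247 k167 k4 11 12))))] .n) .n)))
  .n))))) (.c k14 (.q k13 [(.s k127 k64 6 (.s k79 k111 3 (.s k112 k101 6 (.d k122 k117 k74 2 3)))),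
  (.s k4 k5 0 (.s k166 k247 12 (.s k86 k246 11 (.s k84 k87 0 (.d k244 k164 k165 11 12)))))] (.c k8
  (.q k10 [(.d k170 k250 k255 11 14), (.s k64 k127 6 (.s k74 k122 3 (.s k69 k79 2 (.d k138 k207 k202
  10 7))))] .n) (.c k10 (.q k8 [(.s k5 k4 0 (.s k165 k245 11 (.s k89 k241 13 (.d k170 k251 k255 12
  14)))), (.s k122 k74 3 (.s k127 k64 6 (.s k79 k111 3 (.d k112 k117 k101 2 6))))] .n) .n))) .n)))))
  (.c k13 (.q k14 [(.s k10 k2 1 (.d k170 k250 k255 11 14)), (.s k122 k74 3 (.s k127 k64 6 (.s k79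
  k111 3 (.d k112 k117 k101 2 6))))] (.c k1 (.q k5 [(.s k166 k242 13 (.d k4 k7 k247 0 12)), (.s k10
  k2 1 (.d k170 k250 k255 11 14))] (.c k7 (.q k11 [(.s k10 k2 1 (.d k170 k250 k255 11 14)), (.s k122
  k74 3 (.s k127 k64 6 (.s k79 k111 3 (.d k112 k117 k101 2 6))))] .n) (.c k11 (.l (.s k7 k4 0 (.s
  k10 k2 1 (.d k170 k250 k255 11 14)))) .n))) (.c k5 (.q k1 [(.s k10 k2 1 (.d k170 k250 k255 11
  14)), (.s k122 k74 3 (.s k127 k64 6 (.s k79 k111 3 (.d k112 k117 k101 2 6))))] (.c k7 (.q k11 [(.d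
  k169 k248 k253 12 13), (.s k10 k2 1 (.d k170 k250 k255 11 14))] .n) (.c k11 (.q k7 [(.s k10 k2 1
  (.d k170 k250 k255 11 14)), (.s k122 k74 3 (.s k127 k64 6 (.s k79 k111 3 (.d k112 k117 k101 2
  6))))] (.c k8 (.l (.s k10 k2 1 (.d k170 k250 k255 11 14))) (.c k10 (.q k8 [(.s k127 k64 6 (.s k79
  k111 3 (.s k112 k101 6 (.d k122 k117 k74 2 3)))), (.s k166 k242 13 (.s k86 k246 11 (.s k87 k84 0
  (.d k247 k167 k4 11 12))))] .n) .n))) .n))) (.c k7 (.q k11 [(.s k10 k2 1 (.d k170 k250 k255 11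
  14)), (.s k122 k74 3 (.s k127 k64 6 (.s k79 k111 3 (.d k112 k117 k101 2 6))))] (.c k1 (.q k5 [(.s
  k10 k2 1 (.d k170 k250 k255 11 14)), (.s k122 k74 3 (.s k127 k64 6 (.s k79 k111 3 (.d k112 k117
  k101 2 6))))] .n) (.c k5 (.q k1 [(.d k169 k248 k253 12 13), (.s k10 k2 1 (.d k170 k250 k255 11
  14))] .n) .n))) (.c k11 (.q k7 [(.s k10 k2 1 (.d k170 k250 k255 11 14)), (.s k166 k242 13 (.d k4
  k5 k247 0 12))] (.c k1 (.l (.s k5 k4 0 (.s k10 k2 1 (.d k170 k250 k255 11 14)))) (.c k5 (.q k1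
  [(.s k10 k2 1 (.d k170 k250 k255 11 14)), (.s k122 k74 3 (.s k127 k64 6 (.s k79 k111 3 (.d k112
  k117 k101 2 6))))] (.c k8 (.l (.s k10 k2 1 (.d k170 k250 k255 11 14))) (.c k10 (.q k8 [(.s k127
  k64 6 (.s k79 k111 3 (.s k112 k101 6 (.d k122 k117 k74 2 3)))), (.s k166 k242 13 (.s k86 k246 11
  (.s k87 k84 0 (.d k247 k167 k4 11 12))))] .n) .n))) (.c k8 (.l (.s k10 k2 1 (.d k170 k250 k255 11
  14))) (.c k10 (.q k8 [(.s k166 k242 13 (.d k4 k5 k247 0 12)), (.s k122 k74 3 (.s k127 k64 6 (.s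
  k79 k111 3 (.d k112 k117 k101 2 6))))] (.c k1 (.l (.s k5 k4 0 (.s k165 k245 11 (.s k86 k244 12 (.d
  k166 k246 k242 11 13))))) (.c k5 (.q k1 [(.s k127 k64 6 (.s k79 k111 3 (.s k112 k101 6 (.d k122
  k117 k74 2 3)))), (.s k166 k242 13 (.s k86 k246 11 (.s k87 k84 0 (.d k247 k167 k4 11 12))))] .n)
  .n))) .n))))) .n))))) (.c k14 (.q k13 [(.s k127 k64 6 (.s k79 k111 3 (.s k112 k101 6 (.d k122 k117
  k74 2 3)))), (.s k74 k122 3 (.s k170 k255 14 (.s k10 k250 11 (.s k42 k234 7 (.s k58 k26 3 (.d k202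
  k138 k154 7 11)))))), (.s k64 k127 6 (.s k170 k255 14 (.s k42 k234 7 (.s k63 k21 6 (.d k192 k128
  k149 7 14)))))] (.c k7 (.q k11 [(.s k127 k64 6 (.s k79 k111 3 (.s k112 k101 6 (.d k122 k117 k74 2
  3)))), (.s k74 k122 3 (.s k169 k248 12 (.s k43 k232 8 (.s k59 k27 3 (.d k200 k137 k153 8 12))))),
  (.s k64 k127 6 (.s k170 k255 14 (.s k42 k234 7 (.s k63 k21 6 (.d k192 k128 k149 7 14)))))] .n) (.c
  k11 (.q k7 [(.s k127 k64 6 (.s k79 k111 3 (.s k112 k101 6 (.d k122 k117 k74 2 3)))), (.s k4 k5 0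
  (.s k166 k247 12 (.s k86 k246 11 (.s k84 k87 0 (.d k244 k164 k165 11 12)))))] (.c k8 (.q k10 [(.d
  k170 k250 k255 11 14), (.s k64 k127 6 (.s k74 k122 3 (.s k69 k79 2 (.d k138 k207 k202 10 7))))]
  .n) (.c k10 (.q k8 [(.s k5 k4 0 (.s k165 k245 11 (.s k89 k241 13 (.d k170 k251 k255 12 14)))), (.s
  k122 k74 3 (.s k127 k64 6 (.s k79 k111 3 (.d k112 k117 k101 2 6))))] .n) .n))) .n))) .n))))) (.c
  k11 (.q k7 [(.s k127 k64 6 (.s k79 k111 3 (.s k112 k101 6 (.d k122 k117 k74 2 3)))), (.s k74 k122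
  3 (.s k170 k255 14 (.s k10 k250 11 (.s k42 k234 7 (.s k58 k26 3 (.d k202 k138 k154 7 11)))))), (.s
  k64 k127 6 (.s k170 k255 14 (.s k42 k234 7 (.s k63 k21 6 (.d k192 k128 k149 7 14)))))] (.c k6 (.q
  k9 [(.s k127 k64 6 (.s k79 k111 3 (.s k112 k101 6 (.d k122 k117 k74 2 3)))), (.s k74 k122 3 (.s
  k170 k255 14 (.s k10 k250 11 (.s k42 k234 7 (.s k58 k26 3 (.d k202 k138 k154 7 11)))))), (.s k64
  k127 6 (.s k170 k255 14 (.s k42 k234 7 (.s k63 k21 6 (.d k192 k128 k149 7 14)))))] (.c k13 (.q k14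
  [(.s k127 k64 6 (.s k79 k111 3 (.s k112 k101 6 (.d k122 k117 k74 2 3)))), (.s k74 k122 3 (.s k166
  k242 13 (.s k46 k226 9 (.s k62 k30 3 (.d k194 k134 k150 9 13))))), (.s k64 k127 6 (.s k170 k255 14
  (.s k42 k234 7 (.s k63 k21 6 (.d k192 k128 k149 7 14)))))] .n) (.c k14 (.q k13 [(.s k127 k64 6 (.s
  k79 k111 3 (.s k112 k101 6 (.d k122 k117 k74 2 3)))), (.s k1 k5 1 (.s k169 k253 13 (.s k89 k249 11
  (.s k81 k93 1 (.d k241 k161 k165 11 13)))))] (.c k2 (.q k10 [(.d k170 k250 k255 11 14), (.s k64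
  k127 6 (.s k74 k122 3 (.s k69 k79 2 (.d k138 k207 k202 10 7))))] .n) (.c k10 (.q k2 [(.s k5 k1 1
  (.s k165 k245 11 (.s k86 k244 12 (.d k170 k254 k255 13 14)))), (.s k122 k74 3 (.s k127 k64 6 (.s
  k79 k111 3 (.d k112 k117 k101 2 6))))] .n) .n))) .n))) (.c k9 (.q k6 [(.s k127 k64 6 (.s k79 k111
  3 (.s k112 k101 6 (.d k122 k117 k74 2 3)))), (.s k4 k5 0 (.s k166 k247 12 (.s k14 k242 13 (.s k10
  k2 1 (.d k170 k250 k255 11 14)))))] (.c k8 (.q k10 [(.d k170 k250 k255 11 14), (.s k4 k5 0 (.s k14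
  k2 1 (.d k166 k247 k242 12 13)))] (.c k13 (.l (.s k14 k2 1 (.d k170 k250 k255 11 14))) (.c k14 (.q
  k13 [(.d k170 k250 k255 11 14), (.s k64 k127 6 (.s k74 k122 3 (.s k69 k79 2 (.d k138 k207 k202 10
  7))))] .n) .n))) (.c k10 (.q k8 [(.s k127 k64 6 (.s k79 k111 3 (.s k112 k101 6 (.d k122 k117 k74 2
  3)))), (.s k4 k5 0 (.s k166 k247 12 (.s k86 k246 11 (.s k84 k87 0 (.d k244 k164 k165 11 12)))))]
  (.c k13 (.q k14 [(.s k166 k242 13 (.d k4 k5 k247 0 12)), (.s k122 k74 3 (.s k127 k64 6 (.s k79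
  k111 3 (.d k112 k117 k101 2 6))))] (.c k1 (.l (.s k5 k4 0 (.s k165 k245 11 (.s k86 k244 12 (.d
  k166 k246 k242 11 13))))) (.c k5 (.q k1 [(.s k127 k64 6 (.s k79 k111 3 (.s k112 k101 6 (.d k122
  k117 k74 2 3)))), (.s k166 k242 13 (.s k86 k246 11 (.s k87 k84 0 (.d k247 k167 k4 11 12))))] .n)
  .n))) (.c k14 (.q k13 [(.s k5 k4 0 (.s k165 k245 11 (.s k89 k241 13 (.d k170 k251 k255 12 14)))),
  (.s k122 k74 3 (.s k127 k64 6 (.s k79 k111 3 (.d k112 k117 k101 2 6))))] .n) .n))) (.c k13 (.q k14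
  [(.s k10 k2 1 (.d k170 k250 k255 11 14)), (.s k166 k242 13 (.d k4 k5 k247 0 12))] (.c k1 (.l (.s
  k5 k4 0 (.s k10 k2 1 (.d k170 k250 k255 11 14)))) (.c k5 (.q k1 [(.s k10 k2 1 (.d k170 k250 k255
  11 14)), (.s k122 k74 3 (.s k127 k64 6 (.s k79 k111 3 (.d k112 k117 k101 2 6))))] (.c k8 (.l (.s
  k10 k2 1 (.d k170 k250 k255 11 14))) (.c k10 (.q k8 [(.s k127 k64 6 (.s k79 k111 3 (.s k112 k101 6
  (.d k122 k117 k74 2 3)))), (.s k166 k242 13 (.s k86 k246 11 (.s k87 k84 0 (.d k247 k167 k4 11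
  12))))] .n) .n))) (.c k8 (.l (.s k10 k2 1 (.d k170 k250 k255 11 14))) (.c k10 (.q k8 [(.s k166
  k242 13 (.d k4 k5 k247 0 12)), (.s k122 k74 3 (.s k127 k64 6 (.s k79 k111 3 (.d k112 k117 k101 2
  6))))] (.c k1 (.l (.s k5 k4 0 (.s k165 k245 11 (.s k86 k244 12 (.d k166 k246 k242 11 13))))) (.c
  k5 (.q k1 [(.s k127 k64 6 (.s k79 k111 3 (.s k112 k101 6 (.d k122 k117 k74 2 3)))), (.s k166 k242
  13 (.s k86 k246 11 (.s k87 k84 0 (.d k247 k167 k4 11 12))))] .n) .n))) .n))))) (.c k14 (.q k13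
  [(.s k127 k64 6 (.s k79 k111 3 (.s k112 k101 6 (.d k122 k117 k74 2 3)))), (.s k4 k5 0 (.s k166
  k247 12 (.s k86 k246 11 (.s k84 k87 0 (.d k244 k164 k165 11 12)))))] (.c k8 (.q k10 [(.d k170 k250
  k255 11 14), (.s k64 k127 6 (.s k74 k122 3 (.s k69 k79 2 (.d k138 k207 k202 10 7))))] .n) (.c k10
  (.q k8 [(.s k5 k4 0 (.s k165 k245 11 (.s k89 k241 13 (.d k170 k251 k255 12 14)))), (.s k122 k74 3
  (.s k127 k64 6 (.s k79 k111 3 (.d k112 k117 k101 2 6))))] .n) .n))) .n))))) (.c k13 (.q k14 [(.s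
  k127 k64 6 (.s k79 k111 3 (.s k112 k101 6 (.d k122 k117 k74 2 3)))), (.s k74 k122 3 (.s k166 k242
  13 (.s k46 k226 9 (.s k62 k30 3 (.d k194 k134 k150 9 13))))), (.s k64 k127 6 (.s k170 k255 14 (.s
  k42 k234 7 (.s k63 k21 6 (.d k192 k128 k149 7 14)))))] (.c k6 (.q k9 [(.s k127 k64 6 (.s k79 k111
  3 (.s k112 k101 6 (.d k122 k117 k74 2 3)))), (.s k74 k122 3 (.s k166 k242 13 (.s k46 k226 9 (.s
  k62 k30 3 (.d k194 k134 k150 9 13))))), (.s k64 k127 6 (.s k170 k255 14 (.s k42 k234 7 (.s k63 k21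
  6 (.d k192 k128 k149 7 14)))))] .n) (.c k9 (.q k6 [(.s k10 k2 1 (.d k170 k250 k255 11 14)), (.s
  k166 k242 13 (.d k4 k5 k247 0 12))] (.c k1 (.l (.s k5 k4 0 (.s k10 k2 1 (.d k170 k250 k255 11
  14)))) (.c k5 (.q k1 [(.s k10 k2 1 (.d k170 k250 k255 11 14)), (.s k122 k74 3 (.s k127 k64 6 (.s
  k79 k111 3 (.d k112 k117 k101 2 6))))] (.c k8 (.l (.s k10 k2 1 (.d k170 k250 k255 11 14))) (.c k10
  (.q k8 [(.s k127 k64 6 (.s k79 k111 3 (.s k112 k101 6 (.d k122 k117 k74 2 3)))), (.s k166 k242 13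
  (.s k86 k246 11 (.s k87 k84 0 (.d k247 k167 k4 11 12))))] .n) .n))) (.c k8 (.l (.s k10 k2 1 (.d
  k170 k250 k255 11 14))) (.c k10 (.q k8 [(.s k166 k242 13 (.d k4 k5 k247 0 12)), (.s k122 k74 3 (.s
  k127 k64 6 (.s k79 k111 3 (.d k112 k117 k101 2 6))))] (.c k1 (.l (.s k5 k4 0 (.s k165 k245 11 (.s
  k86 k244 12 (.d k166 k246 k242 11 13))))) (.c k5 (.q k1 [(.s k127 k64 6 (.s k79 k111 3 (.s k112
  k101 6 (.d k122 k117 k74 2 3)))), (.s k166 k242 13 (.s k86 k246 11 (.s k87 k84 0 (.d k247 k167 k4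
  11 12))))] .n) .n))) .n))))) .n))) (.c k14 (.q k13 [(.s k127 k64 6 (.s k79 k111 3 (.s k112 k101 6
  (.d k122 k117 k74 2 3)))), (.s k74 k122 3 (.s k170 k255 14 (.s k10 k250 11 (.s k42 k234 7 (.s k58
  k26 3 (.d k202 k138 k154 7 11)))))), (.s k64 k127 6 (.s k170 k255 14 (.s k42 k234 7 (.s k63 k21 6
  (.d k192 k128 k149 7 14)))))] (.c k6 (.q k9 [(.s k127 k64 6 (.s k79 k111 3 (.s k112 k101 6 (.d
  k122 k117 k74 2 3)))), (.s k1 k5 1 (.s k169 k253 13 (.s k89 k249 11 (.s k81 k93 1 (.d k241 k161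
  k165 11 13)))))] (.c k2 (.q k10 [(.d k170 k250 k255 11 14), (.s k64 k127 6 (.s k74 k122 3 (.s k69
  k79 2 (.d k138 k207 k202 10 7))))] .n) (.c k10 (.q k2 [(.s k5 k1 1 (.s k165 k245 11 (.s k86 k244
  12 (.d k170 k254 k255 13 14)))), (.s k122 k74 3 (.s k127 k64 6 (.s k79 k111 3 (.d k112 k117 k101 2
  6))))] .n) .n))) (.c k9 (.q k6 [(.s k127 k64 6 (.s k79 k111 3 (.s k112 k101 6 (.d k122 k117 k74 2
  3)))), (.s k4 k5 0 (.s k166 k247 12 (.s k86 k246 11 (.s k84 k87 0 (.d k244 k164 k165 11 12)))))]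
  (.c k8 (.q k10 [(.d k170 k250 k255 11 14), (.s k64 k127 6 (.s k74 k122 3 (.s k69 k79 2 (.d k138
  k207 k202 10 7))))] .n) (.c k10 (.q k8 [(.s k5 k4 0 (.s k165 k245 11 (.s k89 k241 13 (.d k170 k251
  k255 12 14)))), (.s k122 k74 3 (.s k127 k64 6 (.s k79 k111 3 (.d k112 k117 k101 2 6))))] .n) .n)))
  .n))) .n))))) (.c k13 (.q k14 [(.s k127 k64 6 (.s k79 k111 3 (.s k112 k101 6 (.d k122 k117 k74 2
  3)))), (.s k74 k122 3 (.s k166 k242 13 (.s k46 k226 9 (.s k62 k30 3 (.d k194 k134 k150 9 13))))),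
  (.s k64 k127 6 (.s k170 k255 14 (.s k42 k234 7 (.s k63 k21 6 (.d k192 k128 k149 7 14)))))] (.c k6
  (.q k9 [(.s k127 k64 6 (.s k79 k111 3 (.s k112 k101 6 (.d k122 k117 k74 2 3)))), (.s k74 k122 3
  (.s k166 k242 13 (.s k46 k226 9 (.s k62 k30 3 (.d k194 k134 k150 9 13))))), (.s k64 k127 6 (.s
  k170 k255 14 (.s k42 k234 7 (.s k63 k21 6 (.d k192 k128 k149 7 14)))))] (.c k7 (.q k11 [(.s k10 k8
  0 (.d k170 k250 k255 11 14)), (.s k122 k74 3 (.s k127 k64 6 (.s k79 k111 3 (.d k112 k117 k101 2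
  6))))] (.c k4 (.q k5 [(.s k10 k8 0 (.d k170 k250 k255 11 14)), (.s k122 k74 3 (.s k127 k64 6 (.s
  k79 k111 3 (.d k112 k117 k101 2 6))))] .n) (.c k5 (.q k4 [(.d k166 k247 k242 12 13), (.s k10 k8 0
  (.d k170 k250 k255 11 14))] .n) .n))) (.c k11 (.q k7 [(.s k127 k64 6 (.s k79 k111 3 (.s k112 k101
  6 (.d k122 k117 k74 2 3)))), (.s k74 k122 3 (.s k166 k242 13 (.s k46 k226 9 (.s k62 k30 3 (.d k194
  k134 k150 9 13))))), (.s k64 k127 6 (.s k170 k255 14 (.s k42 k234 7 (.s k63 k21 6 (.d k192 k128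
  k149 7 14)))))] .n) .n))) (.c k7 (.q k11 [(.s k127 k64 6 (.s k79 k111 3 (.s k112 k101 6 (.d k122
  k117 k74 2 3)))), (.s k74 k122 3 (.s k166 k242 13 (.s k46 k226 9 (.s k62 k30 3 (.d k194 k134 k150
  9 13))))), (.s k64 k127 6 (.s k170 k255 14 (.s k42 k234 7 (.s k63 k21 6 (.d k192 k128 k149 7
  14)))))] (.c k6 (.q k9 [(.s k10 k8 0 (.d k170 k250 k255 11 14)), (.s k122 k74 3 (.s k127 k64 6 (.s
  k79 k111 3 (.d k112 k117 k101 2 6))))] (.c k4 (.q k5 [(.s k10 k8 0 (.d k170 k250 k255 11 14)), (.s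
  k122 k74 3 (.s k127 k64 6 (.s k79 k111 3 (.d k112 k117 k101 2 6))))] .n) (.c k5 (.q k4 [(.d k166
  k247 k242 12 13), (.s k10 k8 0 (.d k170 k250 k255 11 14))] .n) .n))) (.c k9 (.q k6 [(.s k10 k2 1
  (.d k170 k250 k255 11 14)), (.s k122 k74 3 (.s k127 k64 6 (.s k79 k111 3 (.d k112 k117 k101 2
  6))))] (.c k1 (.q k5 [(.s k10 k2 1 (.d k170 k250 k255 11 14)), (.s k122 k74 3 (.s k127 k64 6 (.s
  k79 k111 3 (.d k112 k117 k101 2 6))))] .n) (.c k5 (.q k1 [(.d k169 k248 k253 12 13), (.s k10 k2 1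
  (.d k170 k250 k255 11 14))] .n) .n))) .n))) (.c k9 (.q k6 [(.s k10 k2 1 (.d k170 k250 k255 11
  14)), (.s k122 k74 3 (.s k127 k64 6 (.s k79 k111 3 (.d k112 k117 k101 2 6))))] (.c k1 (.q k5 [(.s
  k166 k242 13 (.d k4 k7 k247 0 12)), (.s k10 k2 1 (.d k170 k250 k255 11 14))] (.c k7 (.q k11 [(.s
  k10 k2 1 (.d k170 k250 k255 11 14)), (.s k122 k74 3 (.s k127 k64 6 (.s k79 k111 3 (.d k112 k117
  k101 2 6))))] .n) (.c k11 (.l (.s k7 k4 0 (.s k10 k2 1 (.d k170 k250 k255 11 14)))) .n))) (.c k5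
  (.q k1 [(.s k10 k2 1 (.d k170 k250 k255 11 14)), (.s k122 k74 3 (.s k127 k64 6 (.s k79 k111 3 (.d
  k112 k117 k101 2 6))))] (.c k7 (.q k11 [(.d k169 k248 k253 12 13), (.s k10 k2 1 (.d k170 k250 k255
  11 14))] .n) (.c k11 (.q k7 [(.s k10 k2 1 (.d k170 k250 k255 11 14)), (.s k122 k74 3 (.s k127 k64
  6 (.s k79 k111 3 (.d k112 k117 k101 2 6))))] (.c k8 (.l (.s k10 k2 1 (.d k170 k250 k255 11 14)))
  (.c k10 (.q k8 [(.s k127 k64 6 (.s k79 k111 3 (.s k112 k101 6 (.d k122 k117 k74 2 3)))), (.s k166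
  k242 13 (.s k86 k246 11 (.s k87 k84 0 (.d k247 k167 k4 11 12))))] .n) .n))) .n))) (.c k7 (.q k11
  [(.s k10 k2 1 (.d k170 k250 k255 11 14)), (.s k122 k74 3 (.s k127 k64 6 (.s k79 k111 3 (.d k112
  k117 k101 2 6))))] (.c k1 (.q k5 [(.s k10 k2 1 (.d k170 k250 k255 11 14)), (.s k122 k74 3 (.s k127
  k64 6 (.s k79 k111 3 (.d k112 k117 k101 2 6))))] .n) (.c k5 (.q k1 [(.d k169 k248 k253 12 13), (.s
  k10 k2 1 (.d k170 k250 k255 11 14))] .n) .n))) (.c k11 (.q k7 [(.s k10 k2 1 (.d k170 k250 k255 11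
  14)), (.s k166 k242 13 (.d k4 k5 k247 0 12))] (.c k1 (.l (.s k5 k4 0 (.s k10 k2 1 (.d k170 k250
  k255 11 14)))) (.c k5 (.q k1 [(.s k10 k2 1 (.d k170 k250 k255 11 14)), (.s k122 k74 3 (.s k127 k64
  6 (.s k79 k111 3 (.d k112 k117 k101 2 6))))] (.c k8 (.l (.s k10 k2 1 (.d k170 k250 k255 11 14)))
  (.c k10 (.q k8 [(.s k127 k64 6 (.s k79 k111 3 (.s k112 k101 6 (.d k122 k117 k74 2 3)))), (.s k166
  k242 13 (.s k86 k246 11 (.s k87 k84 0 (.d k247 k167 k4 11 12))))] .n) .n))) (.c k8 (.l (.s k10 k2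
  1 (.d k170 k250 k255 11 14))) (.c k10 (.q k8 [(.s k166 k242 13 (.d k4 k5 k247 0 12)), (.s k122 k74
  3 (.s k127 k64 6 (.s k79 k111 3 (.d k112 k117 k101 2 6))))] (.c k1 (.l (.s k5 k4 0 (.s k165 k245
  11 (.s k86 k244 12 (.d k166 k246 k242 11 13))))) (.c k5 (.q k1 [(.s k127 k64 6 (.s k79 k111 3 (.s
  k112 k101 6 (.d k122 k117 k74 2 3)))), (.s k166 k242 13 (.s k86 k246 11 (.s k87 k84 0 (.d k247
  k167 k4 11 12))))] .n) .n))) .n))))) .n))))) (.c k11 (.q k7 [(.s k127 k64 6 (.s k79 k111 3 (.s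
  k112 k101 6 (.d k122 k117 k74 2 3)))), (.s k74 k122 3 (.s k166 k242 13 (.s k46 k226 9 (.s k62 k30
  3 (.d k194 k134 k150 9 13))))), (.s k64 k127 6 (.s k170 k255 14 (.s k42 k234 7 (.s k63 k21 6 (.d
  k192 k128 k149 7 14)))))] (.c k6 (.q k9 [(.s k127 k64 6 (.s k79 k111 3 (.s k112 k101 6 (.d k122
  k117 k74 2 3)))), (.s k74 k122 3 (.s k166 k242 13 (.s k46 k226 9 (.s k62 k30 3 (.d k194 k134 k150
  9 13))))), (.s k64 k127 6 (.s k170 k255 14 (.s k42 k234 7 (.s k63 k21 6 (.d k192 k128 k149 7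
  14)))))] .n) (.c k9 (.q k6 [(.s k10 k2 1 (.d k170 k250 k255 11 14)), (.s k166 k242 13 (.d k4 k5
  k247 0 12))] (.c k1 (.l (.s k5 k4 0 (.s k10 k2 1 (.d k170 k250 k255 11 14)))) (.c k5 (.q k1 [(.s
  k10 k2 1 (.d k170 k250 k255 11 14)), (.s k122 k74 3 (.s k127 k64 6 (.s k79 k111 3 (.d k112 k117
  k101 2 6))))] (.c k8 (.l (.s k10 k2 1 (.d k170 k250 k255 11 14))) (.c k10 (.q k8 [(.s k127 k64 6
  (.s k79 k111 3 (.s k112 k101 6 (.d k122 k117 k74 2 3)))), (.s k166 k242 13 (.s k86 k246 11 (.s k87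
  k84 0 (.d k247 k167 k4 11 12))))] .n) .n))) (.c k8 (.l (.s k10 k2 1 (.d k170 k250 k255 11 14)))
  (.c k10 (.q k8 [(.s k166 k242 13 (.d k4 k5 k247 0 12)), (.s k122 k74 3 (.s k127 k64 6 (.s k79 k111
  3 (.d k112 k117 k101 2 6))))] (.c k1 (.l (.s k5 k4 0 (.s k165 k245 11 (.s k86 k244 12 (.d k166
  k246 k242 11 13))))) (.c k5 (.q k1 [(.s k127 k64 6 (.s k79 k111 3 (.s k112 k101 6 (.d k122 k117
  k74 2 3)))), (.s k166 k242 13 (.s k86 k246 11 (.s k87 k84 0 (.d k247 k167 k4 11 12))))] .n) .n)))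
  .n))))) .n))) .n))))) (.c k14 (.q k13 [(.s k127 k64 6 (.s k79 k111 3 (.s k112 k101 6 (.d k122 k117
  k74 2 3)))), (.s k74 k122 3 (.s k170 k255 14 (.s k10 k250 11 (.s k42 k234 7 (.s k58 k26 3 (.d k202
  k138 k154 7 11)))))), (.s k64 k127 6 (.s k170 k255 14 (.s k42 k234 7 (.s k63 k21 6 (.d k192 k128
  k149 7 14)))))] (.c k6 (.q k9 [(.s k127 k64 6 (.s k79 k111 3 (.s k112 k101 6 (.d k122 k117 k74 2
  3)))), (.s k1 k5 1 (.s k169 k253 13 (.s k11 k248 12 (.s k10 k8 0 (.d k170 k250 k255 11 14)))))]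
  (.c k2 (.q k10 [(.d k170 k250 k255 11 14), (.s k1 k5 1 (.s k11 k8 0 (.d k169 k248 k253 12 13)))]
  (.c k7 (.l (.s k11 k8 0 (.d k170 k250 k255 11 14))) (.c k11 (.q k7 [(.d k170 k250 k255 11 14), (.s
  k64 k127 6 (.s k74 k122 3 (.s k69 k79 2 (.d k138 k207 k202 10 7))))] .n) .n))) (.c k7 (.q k11 [(.s
  k10 k8 0 (.d k170 k250 k255 11 14)), (.s k169 k248 12 (.d k1 k5 k253 1 13))] (.c k2 (.l (.s k10 k8
  0 (.d k170 k250 k255 11 14))) (.c k4 (.l (.s k5 k1 1 (.s k10 k8 0 (.d k170 k250 k255 11 14)))) (.c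
  k5 (.q k4 [(.s k10 k8 0 (.d k170 k250 k255 11 14)), (.s k122 k74 3 (.s k127 k64 6 (.s k79 k111 3
  (.d k112 k117 k101 2 6))))] (.c k2 (.l (.s k10 k8 0 (.d k170 k250 k255 11 14))) (.c k10 (.q k2
  [(.s k127 k64 6 (.s k79 k111 3 (.s k112 k101 6 (.d k122 k117 k74 2 3)))), (.s k169 k248 12 (.s k89
  k249 11 (.s k93 k81 1 (.d k253 k173 k1 11 13))))] .n) .n))) (.c k10 (.q k2 [(.s k169 k248 12 (.d
  k1 k5 k253 1 13)), (.s k122 k74 3 (.s k127 k64 6 (.s k79 k111 3 (.d k112 k117 k101 2 6))))] (.c k4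
  (.l (.s k5 k1 1 (.s k165 k245 11 (.s k89 k241 13 (.d k169 k249 k248 11 12))))) (.c k5 (.q k4 [(.s
  k127 k64 6 (.s k79 k111 3 (.s k112 k101 6 (.d k122 k117 k74 2 3)))), (.s k169 k248 12 (.s k89 k249
  11 (.s k93 k81 1 (.d k253 k173 k1 11 13))))] .n) .n))) .n))))) (.c k10 (.q k2 [(.s k127 k64 6 (.s
  k79 k111 3 (.s k112 k101 6 (.d k122 k117 k74 2 3)))), (.s k1 k5 1 (.s k169 k253 13 (.s k89 k249 11
  (.s k81 k93 1 (.d k241 k161 k165 11 13)))))] (.c k7 (.q k11 [(.s k169 k248 12 (.d k1 k5 k253 1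
  13)), (.s k122 k74 3 (.s k127 k64 6 (.s k79 k111 3 (.d k112 k117 k101 2 6))))] (.c k4 (.l (.s k5
  k1 1 (.s k165 k245 11 (.s k89 k241 13 (.d k169 k249 k248 11 12))))) (.c k5 (.q k4 [(.s k127 k64 6
  (.s k79 k111 3 (.s k112 k101 6 (.d k122 k117 k74 2 3)))), (.s k169 k248 12 (.s k89 k249 11 (.s k93
  k81 1 (.d k253 k173 k1 11 13))))] .n) .n))) (.c k11 (.q k7 [(.s k5 k1 1 (.s k165 k245 11 (.s k86
  k244 12 (.d k170 k254 k255 13 14)))), (.s k122 k74 3 (.s k127 k64 6 (.s k79 k111 3 (.d k112 k117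
  k101 2 6))))] .n) .n))) (.c k11 (.q k7 [(.s k127 k64 6 (.s k79 k111 3 (.s k112 k101 6 (.d k122
  k117 k74 2 3)))), (.s k1 k5 1 (.s k169 k253 13 (.s k89 k249 11 (.s k81 k93 1 (.d k241 k161 k165 11
  13)))))] (.c k2 (.q k10 [(.d k170 k250 k255 11 14), (.s k64 k127 6 (.s k74 k122 3 (.s k69 k79 2
  (.d k138 k207 k202 10 7))))] .n) (.c k10 (.q k2 [(.s k5 k1 1 (.s k165 k245 11 (.s k86 k244 12 (.d
  k170 k254 k255 13 14)))), (.s k122 k74 3 (.s k127 k64 6 (.s k79 k111 3 (.d k112 k117 k101 2 6))))]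
  .n) .n))) .n))))) (.c k7 (.q k11 [(.s k127 k64 6 (.s k79 k111 3 (.s k112 k101 6 (.d k122 k117 k74
  2 3)))), (.s k74 k122 3 (.s k169 k248 12 (.s k43 k232 8 (.s k59 k27 3 (.d k200 k137 k153 8
  12))))), (.s k64 k127 6 (.s k170 k255 14 (.s k42 k234 7 (.s k63 k21 6 (.d k192 k128 k149 7
  14)))))] (.c k6 (.q k9 [(.s k10 k8 0 (.d k170 k250 k255 11 14)), (.s k169 k248 12 (.d k1 k5 k253 1
  13))] (.c k2 (.l (.s k10 k8 0 (.d k170 k250 k255 11 14))) (.c k4 (.l (.s k5 k1 1 (.s k10 k8 0 (.d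
  k170 k250 k255 11 14)))) (.c k5 (.q k4 [(.s k10 k8 0 (.d k170 k250 k255 11 14)), (.s k122 k74 3
  (.s k127 k64 6 (.s k79 k111 3 (.d k112 k117 k101 2 6))))] (.c k2 (.l (.s k10 k8 0 (.d k170 k250
  k255 11 14))) (.c k10 (.q k2 [(.s k127 k64 6 (.s k79 k111 3 (.s k112 k101 6 (.d k122 k117 k74 2
  3)))), (.s k169 k248 12 (.s k89 k249 11 (.s k93 k81 1 (.d k253 k173 k1 11 13))))] .n) .n))) (.c
  k10 (.q k2 [(.s k169 k248 12 (.d k1 k5 k253 1 13)), (.s k122 k74 3 (.s k127 k64 6 (.s k79 k111 3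
  (.d k112 k117 k101 2 6))))] (.c k4 (.l (.s k5 k1 1 (.s k165 k245 11 (.s k89 k241 13 (.d k169 k249
  k248 11 12))))) (.c k5 (.q k4 [(.s k127 k64 6 (.s k79 k111 3 (.s k112 k101 6 (.d k122 k117 k74 2
  3)))), (.s k169 k248 12 (.s k89 k249 11 (.s k93 k81 1 (.d k253 k173 k1 11 13))))] .n) .n)))
  .n))))) (.c k9 (.q k6 [(.s k127 k64 6 (.s k79 k111 3 (.s k112 k101 6 (.d k122 k117 k74 2 3)))),
  (.s k74 k122 3 (.s k169 k248 12 (.s k43 k232 8 (.s k59 k27 3 (.d k200 k137 k153 8 12))))), (.s k64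
  k127 6 (.s k170 k255 14 (.s k42 k234 7 (.s k63 k21 6 (.d k192 k128 k149 7 14)))))] .n) .n))) (.c
  k9 (.q k6 [(.s k127 k64 6 (.s k79 k111 3 (.s k112 k101 6 (.d k122 k117 k74 2 3)))), (.s k74 k122 3
  (.s k170 k255 14 (.s k10 k250 11 (.s k42 k234 7 (.s k58 k26 3 (.d k202 k138 k154 7 11)))))), (.s
  k64 k127 6 (.s k170 k255 14 (.s k42 k234 7 (.s k63 k21 6 (.d k192 k128 k149 7 14)))))] (.c k7 (.q
  k11 [(.s k127 k64 6 (.s k79 k111 3 (.s k112 k101 6 (.d k122 k117 k74 2 3)))), (.s k74 k122 3 (.s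
  k169 k248 12 (.s k43 k232 8 (.s k59 k27 3 (.d k200 k137 k153 8 12))))), (.s k64 k127 6 (.s k170
  k255 14 (.s k42 k234 7 (.s k63 k21 6 (.d k192 k128 k149 7 14)))))] .n) (.c k11 (.q k7 [(.s k127
  k64 6 (.s k79 k111 3 (.s k112 k101 6 (.d k122 k117 k74 2 3)))), (.s k4 k5 0 (.s k166 k247 12 (.s
  k86 k246 11 (.s k84 k87 0 (.d k244 k164 k165 11 12)))))] (.c k8 (.q k10 [(.d k170 k250 k255 11
  14), (.s k64 k127 6 (.s k74 k122 3 (.s k69 k79 2 (.d k138 k207 k202 10 7))))] .n) (.c k10 (.q k8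
  [(.s k5 k4 0 (.s k165 k245 11 (.s k89 k241 13 (.d k170 k251 k255 12 14)))), (.s k122 k74 3 (.s
  k127 k64 6 (.s k79 k111 3 (.d k112 k117 k101 2 6))))] .n) .n))) .n))) (.c k11 (.q k7 [(.s k127 k64
  6 (.s k79 k111 3 (.s k112 k101 6 (.d k122 k117 k74 2 3)))), (.s k74 k122 3 (.s k170 k255 14 (.s
  k10 k250 11 (.s k42 k234 7 (.s k58 k26 3 (.d k202 k138 k154 7 11)))))), (.s k64 k127 6 (.s k170
  k255 14 (.s k42 k234 7 (.s k63 k21 6 (.d k192 k128 k149 7 14)))))] (.c k6 (.q k9 [(.s k127 k64 6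
  (.s k79 k111 3 (.s k112 k101 6 (.d k122 k117 k74 2 3)))), (.s k1 k5 1 (.s k169 k253 13 (.s k89
  k249 11 (.s k81 k93 1 (.d k241 k161 k165 11 13)))))] (.c k2 (.q k10 [(.d k170 k250 k255 11 14),
  (.s k64 k127 6 (.s k74 k122 3 (.s k69 k79 2 (.d k138 k207 k202 10 7))))] .n) (.c k10 (.q k2 [(.s
  k5 k1 1 (.s k165 k245 11 (.s k86 k244 12 (.d k170 k254 k255 13 14)))), (.s k122 k74 3 (.s k127 k64
  6 (.s k79 k111 3 (.d k112 k117 k101 2 6))))] .n) .n))) (.c k9 (.q k6 [(.s k127 k64 6 (.s k79 k111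
  3 (.s k112 k101 6 (.d k122 k117 k74 2 3)))), (.s k4 k5 0 (.s k166 k247 12 (.s k86 k246 11 (.s k84
  k87 0 (.d k244 k164 k165 11 12)))))] (.c k8 (.q k10 [(.d k170 k250 k255 11 14), (.s k64 k127 6 (.s
  k74 k122 3 (.s k69 k79 2 (.d k138 k207 k202 10 7))))] .n) (.c k10 (.q k8 [(.s k5 k4 0 (.s k165
  k245 11 (.s k89 k241 13 (.d k170 k251 k255 12 14)))), (.s k122 k74 3 (.s k127 k64 6 (.s k79 k111 3
  (.d k112 k117 k101 2 6))))] .n) .n))) .n))) .n))))) .n)))))))) (.c k80 (.q k26 [(.s k154 k218 7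
  (.s k16 k223 10 (.s k48 k32 3 (.s k15 k37 6 (.s k5 k10 2 (.d k165 k245 k240 11 14)))))), (.s k154
  k218 7 (.s k170 k255 14 (.s k10 k250 11 (.s k58 k42 3 (.s k138 k186 3 (.d k202 k74 k106 7
  11)))))), (.s k154 k218 7 (.s k16 k223 10 (.s k48 k32 3 (.s k101 k207 14 (.s k117 k69 3 (.d k255
  k186 k170 10 14)))))), (.s k154 k218 7 (.s k16 k223 10 (.s k21 k31 2 (.s k42 k63 6 (.s k170 k255
  14 (.d k10 k58 k250 3 11)))))), (.s k170 k255 14 (.s k10 k250 11 (.s k42 k58 3 (.s k21 k63 6 (.s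
  k31 k16 2 (.d k149 k208 k213 10 7))))))] (.c k6 (.q k9 [(.s k154 k218 7 (.s k16 k223 10 (.s k48
  k32 3 (.s k15 k37 6 (.s k5 k10 2 (.d k165 k245 k240 11 14)))))), (.s k170 k255 14 (.s k10 k250 11
  (.s k5 k15 2 (.s k11 k8 0 (.s k169 k248 12 (.d k1 k13 k253 1 13)))))), (.s k154 k218 7 (.s k16
  k223 10 (.s k48 k32 3 (.s k101 k207 14 (.s k117 k69 3 (.d k255 k186 k170 10 14))))))] (.c k240 (.l
  (.s k154 k218 7 (.s k16 k223 10 (.s k21 k31 2 (.s k42 k63 6 (.s k10 k58 3 (.d k170 k250 k255 11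
  14))))))) .n)) (.c k9 (.q k6 [(.s k154 k218 7 (.s k16 k223 10 (.s k48 k32 3 (.s k15 k37 6 (.s k5
  k10 2 (.d k165 k245 k240 11 14)))))), (.s k170 k255 14 (.s k10 k250 11 (.s k5 k15 2 (.s k14 k2 1
  (.s k166 k242 13 (.d k4 k7 k247 0 12)))))), (.s k154 k218 7 (.s k16 k223 10 (.s k48 k32 3 (.s k101
  k207 14 (.s k117 k69 3 (.d k255 k186 k170 10 14))))))] (.c k240 (.l (.s k154 k218 7 (.s k16 k223
  10 (.s k21 k31 2 (.s k42 k63 6 (.s k10 k58 3 (.d k170 k250 k255 11 14))))))) .n)) .n))) (.c k95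
  (.q k60 [(.s k20 k40 5 (.s k150 k215 8 (.s k30 k210 9 (.s k15 k45 4 (.s k5 k10 2 (.d k165 k245
  k240 11 14)))))), (.s k20 k40 5 (.s k150 k215 8 (.s k105 k195 14 (.s k125 k65 5 (.d k255 k190 k170
  8 14))))), (.s k170 k255 14 (.s k10 k250 11 (.s k15 k5 2 (.s k30 k45 4 (.s k150 k210 9 (.s k130
  k190 5 (.d k195 k65 k105 8 14)))))))] (.c k6 (.q k9 [(.s k20 k40 5 (.s k150 k215 8 (.s k30 k210 9
  (.s k15 k45 4 (.s k5 k10 2 (.d k165 k245 k240 11 14)))))), (.s k20 k40 5 (.s k150 k215 8 (.s k105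
  k195 14 (.s k125 k65 5 (.d k255 k190 k170 8 14))))), (.s k170 k255 14 (.s k10 k250 11 (.s k11 k8 0
  (.s k169 k248 12 (.s k1 k253 13 (.d k5 k15 k13 2 1))))))] .n) (.c k9 (.q k6 [(.s k20 k40 5 (.s
  k150 k215 8 (.s k30 k210 9 (.s k15 k45 4 (.s k5 k10 2 (.d k165 k245 k240 11 14)))))), (.s k20 k40
  5 (.s k150 k215 8 (.s k105 k195 14 (.s k125 k65 5 (.d k255 k190 k170 8 14))))), (.s k170 k255 14
  (.s k10 k250 11 (.s k14 k2 1 (.s k166 k242 13 (.s k4 k247 12 (.d k5 k15 k7 2 0))))))] .n) (.c k150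
  (.l (.s k40 k20 5 (.s k170 k255 14 (.s k10 k250 11 (.s k15 k5 2 (.s k45 k30 4 (.s k105 k235 8 (.d
  k165 k240 k225 14 9)))))))) .n)))) (.c k160 (.l (.s k95 k80 2 (.s k255 k170 14 (.s k15 k175 11 (.s
  k165 k240 14 (.d k5 k10 k245 2 11)))))) (.c k165 (.f k80 k95 2 (.q k48 [(.s k16 k32 3 (.s k154
  k223 10 (.s k26 k218 7 (.s k31 k21 2 (.d k208 k144 k149 7 10))))), (.s k240 k160 11 (.s k112 k176
  7 (.s k101 k79 6 (.s k69 k117 3 (.d k207 k154 k138 14 10)))))] (.c k6 (.q k9 [(.s k16 k32 3 (.s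
  k154 k223 10 (.s k26 k218 7 (.s k31 k21 2 (.d k208 k144 k149 7 10))))), (.s k240 k160 11 (.s k112
  k176 7 (.s k101 k79 6 (.s k69 k117 3 (.d k207 k154 k138 14 10)))))] (.c k144 (.l (.s k16 k32 3 (.s
  k154 k223 10 (.s k101 k207 14 (.s k112 k79 6 (.d k240 k176 k160 7 11)))))) (.c k154 (.l (.s k16
  k32 3 (.s k144 k208 7 (.s k96 k192 11 (.s k112 k64 3 (.d k240 k176 k160 7 11)))))) .n))) (.c k9
  (.q k6 [(.s k16 k32 3 (.s k154 k223 10 (.s k26 k218 7 (.s k31 k21 2 (.d k208 k144 k149 7 10))))),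
  (.s k240 k160 11 (.s k112 k176 7 (.s k101 k79 6 (.s k69 k117 3 (.d k207 k154 k138 14 10)))))] (.c
  k144 (.l (.s k16 k32 3 (.s k154 k223 10 (.s k101 k207 14 (.s k112 k79 6 (.d k240 k176 k160 7
  11)))))) (.c k154 (.l (.s k16 k32 3 (.s k144 k208 7 (.s k96 k192 11 (.s k112 k64 3 (.d k240 k176
  k160 7 11)))))) .n))) (.c k144 (.l (.s k16 k32 3 (.s k154 k223 10 (.s k101 k207 14 (.s k112 k79 6
  (.d k240 k176 k160 7 11)))))) (.c k154 (.l (.s k16 k32 3 (.s k144 k208 7 (.s k96 k192 11 (.s k112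
  k64 3 (.d k240 k176 k160 7 11)))))) .n)))))) (.c k170 (.f k80 k95 2 (.q k149 [(.s k208 k31 10 (.s
  k16 k144 7 (.s k213 k21 7 (.d k223 k218 k154 2 10)))), (.s k21 k213 7 (.s k63 k42 6 (.s k106 k192
  14 (.s k122 k74 3 (.d k240 k181 k160 10 11))))), (.s k208 k31 10 (.s k240 k160 11 (.s k192 k224 3
  (.s k64 k128 7 (.d k106 k127 k63 6 14)))))] (.c k6 (.q k9 [(.s k208 k31 10 (.s k16 k144 7 (.s k213
  k21 7 (.d k223 k218 k154 2 10)))), (.s k21 k213 7 (.s k63 k42 6 (.s k106 k192 14 (.s k122 k74 3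
  (.d k240 k181 k160 10 11))))), (.s k208 k31 10 (.s k240 k160 11 (.s k192 k224 3 (.s k64 k128 7 (.d
  k106 k127 k63 6 14)))))] .n) (.c k9 (.q k6 [(.s k208 k31 10 (.s k16 k144 7 (.s k213 k21 7 (.d k223
  k218 k154 2 10)))), (.s k21 k213 7 (.s k63 k42 6 (.s k106 k192 14 (.s k122 k74 3 (.d k240 k181
  k160 10 11))))), (.s k208 k31 10 (.s k240 k160 11 (.s k192 k224 3 (.s k64 k128 7 (.d k106 k127 k63
  6 14)))))] .n) .n)))) (.c k175 (.l (.s k80 k95 2 (.s k240 k160 11 (.s k15 k165 14 (.s k170 k255 14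
  (.d k10 k5 k250 2 11)))))) (.c k240 (.f k255 k170 14 (.f k80 k95 2 (.q k16 [(.s k48 k32 3 (.s k117
  k186 10 (.s k101 k69 3 (.d k154 k223 k207 10 14)))), (.s k208 k144 7 (.s k149 k31 10 (.s k21 k213
  7 (.s k63 k42 6 (.s k106 k192 14 (.d k127 k64 k191 6 7))))))] (.c k6 (.q k9 [(.s k48 k32 3 (.s
  k117 k186 10 (.s k101 k69 3 (.d k154 k223 k207 10 14)))), (.s k208 k144 7 (.s k149 k31 10 (.s k21
  k213 7 (.s k63 k42 6 (.s k106 k192 14 (.d k127 k64 k191 6 7))))))] (.c k48 (.l (.s k154 k223 10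
  (.s k26 k218 7 (.s k31 k21 2 (.d k208 k144 k149 7 10))))) (.c k82 (.q k161 [(.s k48 k32 3 (.s k117
  k186 10 (.s k101 k69 3 (.d k154 k223 k207 10 14)))), (.s k208 k144 7 (.s k149 k31 10 (.s k21 k213
  7 (.s k63 k42 6 (.s k106 k192 14 (.d k127 k64 k191 6 7))))))] (.c k48 (.l (.s k154 k223 10 (.s k26
  k218 7 (.s k31 k21 2 (.d k208 k144 k149 7 10))))) (.c k88 (.q k164 [(.s k48 k32 3 (.s k117 k186 10
  (.s k101 k69 3 (.d k154 k223 k207 10 14)))), (.s k208 k144 7 (.s k149 k31 10 (.s k21 k213 7 (.s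
  k63 k42 6 (.s k106 k192 14 (.d k127 k64 k191 6 7))))))] (.c k48 (.l (.s k154 k223 10 (.s k26 k218
  7 (.s k31 k21 2 (.d k208 k144 k149 7 10))))) (.c k223 (.l (.s k48 k32 3 (.s k117 k186 10 (.s k101
  k69 3 (.s k112 k79 6 (.s k64 k96 3 (.d k127 k122 k106 2 6))))))) .n))) (.c k164 (.q k88 [(.s k48
  k32 3 (.s k117 k186 10 (.s k101 k69 3 (.d k154 k223 k207 10 14)))), (.s k89 k91 0 (.s k81 k93 1
  (.s k1 k241 11 (.d k169 k249 k253 11 13))))] .n) (.c k223 (.l (.s k48 k32 3 (.s k117 k186 10 (.s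
  k101 k69 3 (.s k112 k79 6 (.s k64 k96 3 (.d k127 k122 k106 2 6))))))) .n))))) (.c k88 (.q k164
  [(.s k48 k32 3 (.s k117 k186 10 (.s k101 k69 3 (.d k154 k223 k207 10 14)))), (.s k208 k144 7 (.s
  k149 k31 10 (.s k21 k213 7 (.s k63 k42 6 (.s k106 k192 14 (.d k127 k64 k191 6 7))))))] (.c k48 (.l
  (.s k154 k223 10 (.s k26 k218 7 (.s k31 k21 2 (.d k208 k144 k149 7 10))))) (.c k82 (.q k161 [(.s
  k48 k32 3 (.s k117 k186 10 (.s k101 k69 3 (.d k154 k223 k207 10 14)))), (.s k208 k144 7 (.s k149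
  k31 10 (.s k21 k213 7 (.s k63 k42 6 (.s k106 k192 14 (.d k127 k64 k191 6 7))))))] (.c k48 (.l (.s
  k154 k223 10 (.s k26 k218 7 (.s k31 k21 2 (.d k208 k144 k149 7 10))))) (.c k223 (.l (.s k48 k32 3
  (.s k117 k186 10 (.s k101 k69 3 (.s k112 k79 6 (.s k64 k96 3 (.d k127 k122 k106 2 6))))))) .n)))
  (.c k161 (.q k82 [(.s k48 k32 3 (.s k117 k186 10 (.s k101 k69 3 (.d k154 k223 k207 10 14)))), (.s
  k81 k83 0 (.s k146 k211 8 (.s k18 k210 7 (.s k19 k17 0 (.d k208 k144 k145 7 8)))))] .n) (.c k223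
  (.l (.s k48 k32 3 (.s k117 k186 10 (.s k101 k69 3 (.s k112 k79 6 (.s k64 k96 3 (.d k127 k122 k106
  2 6))))))) .n))))) (.c k161 (.q k82 [(.s k48 k32 3 (.s k117 k186 10 (.s k101 k69 3 (.d k154 k223
  k207 10 14)))), (.s k83 k81 0 (.s k86 k94 1 (.s k84 k87 0 (.d k92 k88 k89 1 2))))] (.c k88 (.q
  k164 [(.s k48 k32 3 (.s k117 k186 10 (.s k101 k69 3 (.d k154 k223 k207 10 14)))), (.s k81 k83 0
  (.s k146 k211 8 (.s k18 k210 7 (.s k19 k17 0 (.d k208 k144 k145 7 8)))))] .n) (.c k164 (.q k88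
  [(.s k81 k83 0 (.d k89 k91 k93 0 1)), (.s k84 k92 1 (.d k86 k94 k87 1 0))] (.c k87 (.l (.s k83 k81
  0 (.s k86 k94 1 (.d k89 k92 k91 2 0)))) (.c k93 (.l (.s k83 k81 0 (.s k86 k94 1 (.d k92 k84 k89 1
  2)))) .n))) .n))) (.c k164 (.q k88 [(.s k48 k32 3 (.s k117 k186 10 (.s k101 k69 3 (.d k154 k223
  k207 10 14)))), (.s k89 k91 0 (.s k81 k93 1 (.s k92 k84 1 (.d k83 k82 k86 0 2))))] (.c k82 (.q
  k161 [(.s k48 k32 3 (.s k117 k186 10 (.s k101 k69 3 (.d k154 k223 k207 10 14)))), (.s k89 k91 0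
  (.s k81 k93 1 (.s k1 k241 11 (.d k169 k249 k253 11 13))))] .n) (.c k161 (.q k82 [(.s k81 k83 0 (.d
  k89 k91 k93 0 1)), (.s k84 k92 1 (.d k86 k94 k87 1 0))] (.c k87 (.l (.s k83 k81 0 (.s k86 k94 1
  (.d k89 k92 k91 2 0)))) (.c k93 (.l (.s k83 k81 0 (.s k86 k94 1 (.d k92 k84 k89 1 2)))) .n)))
  .n))) (.c k223 (.l (.s k48 k32 3 (.s k117 k186 10 (.s k101 k69 3 (.s k112 k79 6 (.s k64 k96 3 (.d
  k127 k122 k106 2 6))))))) .n))))))) (.c k9 (.q k6 [(.s k48 k32 3 (.s k117 k186 10 (.s k101 k69 3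
  (.d k154 k223 k207 10 14)))), (.s k208 k144 7 (.s k149 k31 10 (.s k21 k213 7 (.s k63 k42 6 (.s
  k106 k192 14 (.d k127 k64 k191 6 7))))))] (.c k48 (.l (.s k154 k223 10 (.s k26 k218 7 (.s k31 k21
  2 (.d k208 k144 k149 7 10))))) (.c k82 (.q k161 [(.s k48 k32 3 (.s k117 k186 10 (.s k101 k69 3 (.d
  k154 k223 k207 10 14)))), (.s k208 k144 7 (.s k149 k31 10 (.s k21 k213 7 (.s k63 k42 6 (.s k106
  k192 14 (.d k127 k64 k191 6 7))))))] (.c k48 (.l (.s k154 k223 10 (.s k26 k218 7 (.s k31 k21 2 (.d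
  k208 k144 k149 7 10))))) (.c k88 (.q k164 [(.s k48 k32 3 (.s k117 k186 10 (.s k101 k69 3 (.d k154
  k223 k207 10 14)))), (.s k208 k144 7 (.s k149 k31 10 (.s k21 k213 7 (.s k63 k42 6 (.s k106 k192 14
  (.d k127 k64 k191 6 7))))))] (.c k48 (.l (.s k154 k223 10 (.s k26 k218 7 (.s k31 k21 2 (.d k208
  k144 k149 7 10))))) (.c k223 (.l (.s k48 k32 3 (.s k117 k186 10 (.s k101 k69 3 (.s k112 k79 6 (.s
  k64 k96 3 (.d k127 k122 k106 2 6))))))) .n))) (.c k164 (.q k88 [(.s k48 k32 3 (.s k117 k186 10 (.s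
  k101 k69 3 (.d k154 k223 k207 10 14)))), (.s k84 k92 1 (.s k152 k220 9 (.s k24 k216 7 (.s k28 k20
  1 (.d k208 k144 k148 7 9)))))] .n) (.c k223 (.l (.s k48 k32 3 (.s k117 k186 10 (.s k101 k69 3 (.s
  k112 k79 6 (.s k64 k96 3 (.d k127 k122 k106 2 6))))))) .n))))) (.c k88 (.q k164 [(.s k48 k32 3 (.s
  k117 k186 10 (.s k101 k69 3 (.d k154 k223 k207 10 14)))), (.s k208 k144 7 (.s k149 k31 10 (.s k21
  k213 7 (.s k63 k42 6 (.s k106 k192 14 (.d k127 k64 k191 6 7))))))] (.c k48 (.l (.s k154 k223 10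
  (.s k26 k218 7 (.s k31 k21 2 (.d k208 k144 k149 7 10))))) (.c k82 (.q k161 [(.s k48 k32 3 (.s k117
  k186 10 (.s k101 k69 3 (.d k154 k223 k207 10 14)))), (.s k208 k144 7 (.s k149 k31 10 (.s k21 k213
  7 (.s k63 k42 6 (.s k106 k192 14 (.d k127 k64 k191 6 7))))))] (.c k48 (.l (.s k154 k223 10 (.s k26
  k218 7 (.s k31 k21 2 (.d k208 k144 k149 7 10))))) (.c k223 (.l (.s k48 k32 3 (.s k117 k186 10 (.s
  k101 k69 3 (.s k112 k79 6 (.s k64 k96 3 (.d k127 k122 k106 2 6))))))) .n))) (.c k161 (.q k82 [(.s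
  k48 k32 3 (.s k117 k186 10 (.s k101 k69 3 (.d k154 k223 k207 10 14)))), (.s k86 k94 1 (.s k84 k87
  0 (.s k4 k244 11 (.d k166 k246 k247 11 12))))] .n) (.c k223 (.l (.s k48 k32 3 (.s k117 k186 10 (.s
  k101 k69 3 (.s k112 k79 6 (.s k64 k96 3 (.d k127 k122 k106 2 6))))))) .n))))) (.c k161 (.q k82
  [(.s k48 k32 3 (.s k117 k186 10 (.s k101 k69 3 (.d k154 k223 k207 10 14)))), (.s k83 k81 0 (.s k86
  k94 1 (.s k84 k87 0 (.d k92 k88 k89 1 2))))] (.c k88 (.q k164 [(.s k48 k32 3 (.s k117 k186 10 (.s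
  k101 k69 3 (.d k154 k223 k207 10 14)))), (.s k86 k94 1 (.s k84 k87 0 (.s k4 k244 11 (.d k166 k246
  k247 11 12))))] .n) (.c k164 (.q k88 [(.s k81 k83 0 (.d k89 k91 k93 0 1)), (.s k84 k92 1 (.d k86
  k94 k87 1 0))] (.c k87 (.l (.s k83 k81 0 (.s k86 k94 1 (.d k89 k92 k91 2 0)))) (.c k93 (.l (.s k83
  k81 0 (.s k86 k94 1 (.d k92 k84 k89 1 2)))) .n))) .n))) (.c k164 (.q k88 [(.s k48 k32 3 (.s k117
  k186 10 (.s k101 k69 3 (.d k154 k223 k207 10 14)))), (.s k89 k91 0 (.s k81 k93 1 (.s k92 k84 1 (.d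
  k83 k82 k86 0 2))))] (.c k82 (.q k161 [(.s k48 k32 3 (.s k117 k186 10 (.s k101 k69 3 (.d k154 k223
  k207 10 14)))), (.s k84 k92 1 (.s k152 k220 9 (.s k24 k216 7 (.s k28 k20 1 (.d k208 k144 k148 7
  9)))))] .n) (.c k161 (.q k82 [(.s k81 k83 0 (.d k89 k91 k93 0 1)), (.s k84 k92 1 (.d k86 k94 k87 1
  0))] (.c k87 (.l (.s k83 k81 0 (.s k86 k94 1 (.d k89 k92 k91 2 0)))) (.c k93 (.l (.s k83 k81 0 (.s
  k86 k94 1 (.d k92 k84 k89 1 2)))) .n))) .n))) (.c k223 (.l (.s k48 k32 3 (.s k117 k186 10 (.s k101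
  k69 3 (.s k112 k79 6 (.s k64 k96 3 (.d k127 k122 k106 2 6))))))) .n))))))) (.c k48 (.l (.s k154
  k223 10 (.s k26 k218 7 (.s k31 k21 2 (.d k208 k144 k149 7 10))))) (.c k82 (.q k161 [(.s k48 k32 3
  (.s k117 k186 10 (.s k101 k69 3 (.d k154 k223 k207 10 14)))), (.s k208 k144 7 (.s k149 k31 10 (.s
  k21 k213 7 (.s k63 k42 6 (.s k106 k192 14 (.d k127 k64 k191 6 7))))))] (.c k6 (.q k9 [(.s k48 k32
  3 (.s k117 k186 10 (.s k101 k69 3 (.d k154 k223 k207 10 14)))), (.s k208 k144 7 (.s k149 k31 10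
  (.s k21 k213 7 (.s k63 k42 6 (.s k106 k192 14 (.d k127 k64 k191 6 7))))))] (.c k48 (.l (.s k154
  k223 10 (.s k26 k218 7 (.s k31 k21 2 (.d k208 k144 k149 7 10))))) (.c k88 (.q k164 [(.s k48 k32 3
  (.s k117 k186 10 (.s k101 k69 3 (.d k154 k223 k207 10 14)))), (.s k208 k144 7 (.s k149 k31 10 (.s
  k21 k213 7 (.s k63 k42 6 (.s k106 k192 14 (.d k127 k64 k191 6 7))))))] (.c k48 (.l (.s k154 k223
  10 (.s k26 k218 7 (.s k31 k21 2 (.d k208 k144 k149 7 10))))) (.c k223 (.l (.s k48 k32 3 (.s k117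
  k186 10 (.s k101 k69 3 (.s k112 k79 6 (.s k64 k96 3 (.d k127 k122 k106 2 6))))))) .n))) (.c k164
  (.q k88 [(.s k48 k32 3 (.s k117 k186 10 (.s k101 k69 3 (.d k154 k223 k207 10 14)))), (.s k89 k91 0
  (.s k81 k93 1 (.s k1 k241 11 (.d k169 k249 k253 11 13))))] .n) (.c k223 (.l (.s k48 k32 3 (.s k117
  k186 10 (.s k101 k69 3 (.s k112 k79 6 (.s k64 k96 3 (.d k127 k122 k106 2 6))))))) .n))))) (.c k9
  (.q k6 [(.s k48 k32 3 (.s k117 k186 10 (.s k101 k69 3 (.d k154 k223 k207 10 14)))), (.s k208 k144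
  7 (.s k149 k31 10 (.s k21 k213 7 (.s k63 k42 6 (.s k106 k192 14 (.d k127 k64 k191 6 7))))))] (.c
  k48 (.l (.s k154 k223 10 (.s k26 k218 7 (.s k31 k21 2 (.d k208 k144 k149 7 10))))) (.c k88 (.q
  k164 [(.s k48 k32 3 (.s k117 k186 10 (.s k101 k69 3 (.d k154 k223 k207 10 14)))), (.s k208 k144 7
  (.s k149 k31 10 (.s k21 k213 7 (.s k63 k42 6 (.s k106 k192 14 (.d k127 k64 k191 6 7))))))] (.c k48
  (.l (.s k154 k223 10 (.s k26 k218 7 (.s k31 k21 2 (.d k208 k144 k149 7 10))))) (.c k223 (.l (.s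
  k48 k32 3 (.s k117 k186 10 (.s k101 k69 3 (.s k112 k79 6 (.s k64 k96 3 (.d k127 k122 k106 2
  6))))))) .n))) (.c k164 (.q k88 [(.s k48 k32 3 (.s k117 k186 10 (.s k101 k69 3 (.d k154 k223 k207
  10 14)))), (.s k84 k92 1 (.s k152 k220 9 (.s k24 k216 7 (.s k28 k20 1 (.d k208 k144 k148 7 9)))))]
  .n) (.c k223 (.l (.s k48 k32 3 (.s k117 k186 10 (.s k101 k69 3 (.s k112 k79 6 (.s k64 k96 3 (.d
  k127 k122 k106 2 6))))))) .n))))) (.c k48 (.l (.s k154 k223 10 (.s k26 k218 7 (.s k31 k21 2 (.d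
  k208 k144 k149 7 10))))) (.c k88 (.q k164 [(.s k48 k32 3 (.s k117 k186 10 (.s k101 k69 3 (.d k154
  k223 k207 10 14)))), (.s k208 k144 7 (.s k149 k31 10 (.s k21 k213 7 (.s k63 k42 6 (.s k106 k192 14
  (.d k127 k64 k191 6 7))))))] (.c k6 (.q k9 [(.s k48 k32 3 (.s k117 k186 10 (.s k101 k69 3 (.d k154
  k223 k207 10 14)))), (.s k208 k144 7 (.s k149 k31 10 (.s k21 k213 7 (.s k63 k42 6 (.s k106 k192 14
  (.d k127 k64 k191 6 7))))))] (.c k48 (.l (.s k154 k223 10 (.s k26 k218 7 (.s k31 k21 2 (.d k208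
  k144 k149 7 10))))) (.c k223 (.l (.s k48 k32 3 (.s k117 k186 10 (.s k101 k69 3 (.s k112 k79 6 (.s
  k64 k96 3 (.d k127 k122 k106 2 6))))))) .n))) (.c k9 (.q k6 [(.s k48 k32 3 (.s k117 k186 10 (.s
  k101 k69 3 (.d k154 k223 k207 10 14)))), (.s k208 k144 7 (.s k149 k31 10 (.s k21 k213 7 (.s k63
  k42 6 (.s k106 k192 14 (.d k127 k64 k191 6 7))))))] (.c k48 (.l (.s k154 k223 10 (.s k26 k218 7
  (.s k31 k21 2 (.d k208 k144 k149 7 10))))) (.c k223 (.l (.s k48 k32 3 (.s k117 k186 10 (.s k101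
  k69 3 (.s k112 k79 6 (.s k64 k96 3 (.d k127 k122 k106 2 6))))))) .n))) (.c k48 (.l (.s k154 k223
  10 (.s k26 k218 7 (.s k31 k21 2 (.d k208 k144 k149 7 10))))) (.c k223 (.l (.s k48 k32 3 (.s k117
  k186 10 (.s k101 k69 3 (.s k112 k79 6 (.s k64 k96 3 (.d k127 k122 k106 2 6))))))) .n))))) (.c k164
  (.q k88 [(.s k48 k32 3 (.s k117 k186 10 (.s k101 k69 3 (.d k154 k223 k207 10 14)))), (.s k84 k92 1
  (.s k152 k220 9 (.s k24 k216 7 (.s k28 k20 1 (.d k208 k144 k148 7 9)))))] (.c k6 (.q k9 [(.s k48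
  k32 3 (.s k117 k186 10 (.s k101 k69 3 (.d k154 k223 k207 10 14)))), (.s k89 k91 0 (.s k81 k93 1
  (.s k1 k241 11 (.d k169 k249 k253 11 13))))] .n) (.c k9 (.q k6 [(.s k48 k32 3 (.s k117 k186 10 (.s
  k101 k69 3 (.d k154 k223 k207 10 14)))), (.s k84 k92 1 (.s k152 k220 9 (.s k24 k216 7 (.s k28 k20
  1 (.d k208 k144 k148 7 9)))))] .n) .n))) (.c k223 (.l (.s k48 k32 3 (.s k117 k186 10 (.s k101 k69
  3 (.s k112 k79 6 (.s k64 k96 3 (.d k127 k122 k106 2 6))))))) .n))))))) (.c k88 (.q k164 [(.s k48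
  k32 3 (.s k117 k186 10 (.s k101 k69 3 (.d k154 k223 k207 10 14)))), (.s k208 k144 7 (.s k149 k31
  10 (.s k21 k213 7 (.s k63 k42 6 (.s k106 k192 14 (.d k127 k64 k191 6 7))))))] (.c k6 (.q k9 [(.s
  k48 k32 3 (.s k117 k186 10 (.s k101 k69 3 (.d k154 k223 k207 10 14)))), (.s k208 k144 7 (.s k149
  k31 10 (.s k21 k213 7 (.s k63 k42 6 (.s k106 k192 14 (.d k127 k64 k191 6 7))))))] (.c k48 (.l (.s
  k154 k223 10 (.s k26 k218 7 (.s k31 k21 2 (.d k208 k144 k149 7 10))))) (.c k82 (.q k161 [(.s k48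
  k32 3 (.s k117 k186 10 (.s k101 k69 3 (.d k154 k223 k207 10 14)))), (.s k208 k144 7 (.s k149 k31
  10 (.s k21 k213 7 (.s k63 k42 6 (.s k106 k192 14 (.d k127 k64 k191 6 7))))))] (.c k48 (.l (.s k154
  k223 10 (.s k26 k218 7 (.s k31 k21 2 (.d k208 k144 k149 7 10))))) (.c k223 (.l (.s k48 k32 3 (.s
  k117 k186 10 (.s k101 k69 3 (.s k112 k79 6 (.s k64 k96 3 (.d k127 k122 k106 2 6))))))) .n))) (.c
  k161 (.q k82 [(.s k48 k32 3 (.s k117 k186 10 (.s k101 k69 3 (.d k154 k223 k207 10 14)))), (.s k81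
  k83 0 (.s k146 k211 8 (.s k18 k210 7 (.s k19 k17 0 (.d k208 k144 k145 7 8)))))] .n) (.c k223 (.l
  (.s k48 k32 3 (.s k117 k186 10 (.s k101 k69 3 (.s k112 k79 6 (.s k64 k96 3 (.d k127 k122 k106 2
  6))))))) .n))))) (.c k9 (.q k6 [(.s k48 k32 3 (.s k117 k186 10 (.s k101 k69 3 (.d k154 k223 k207
  10 14)))), (.s k208 k144 7 (.s k149 k31 10 (.s k21 k213 7 (.s k63 k42 6 (.s k106 k192 14 (.d k127
  k64 k191 6 7))))))] (.c k48 (.l (.s k154 k223 10 (.s k26 k218 7 (.s k31 k21 2 (.d k208 k144 k149 7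
  10))))) (.c k82 (.q k161 [(.s k48 k32 3 (.s k117 k186 10 (.s k101 k69 3 (.d k154 k223 k207 10
  14)))), (.s k208 k144 7 (.s k149 k31 10 (.s k21 k213 7 (.s k63 k42 6 (.s k106 k192 14 (.d k127 k64
  k191 6 7))))))] (.c k48 (.l (.s k154 k223 10 (.s k26 k218 7 (.s k31 k21 2 (.d k208 k144 k149 7
  10))))) (.c k223 (.l (.s k48 k32 3 (.s k117 k186 10 (.s k101 k69 3 (.s k112 k79 6 (.s k64 k96 3
  (.d k127 k122 k106 2 6))))))) .n))) (.c k161 (.q k82 [(.s k48 k32 3 (.s k117 k186 10 (.s k101 k69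
  3 (.d k154 k223 k207 10 14)))), (.s k86 k94 1 (.s k84 k87 0 (.s k4 k244 11 (.d k166 k246 k247 11
  12))))] .n) (.c k223 (.l (.s k48 k32 3 (.s k117 k186 10 (.s k101 k69 3 (.s k112 k79 6 (.s k64 k96
  3 (.d k127 k122 k106 2 6))))))) .n))))) (.c k48 (.l (.s k154 k223 10 (.s k26 k218 7 (.s k31 k21 2
  (.d k208 k144 k149 7 10))))) (.c k82 (.q k161 [(.s k48 k32 3 (.s k117 k186 10 (.s k101 k69 3 (.d
  k154 k223 k207 10 14)))), (.s k208 k144 7 (.s k149 k31 10 (.s k21 k213 7 (.s k63 k42 6 (.s k106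
  k192 14 (.d k127 k64 k191 6 7))))))] (.c k6 (.q k9 [(.s k48 k32 3 (.s k117 k186 10 (.s k101 k69 3
  (.d k154 k223 k207 10 14)))), (.s k208 k144 7 (.s k149 k31 10 (.s k21 k213 7 (.s k63 k42 6 (.s
  k106 k192 14 (.d k127 k64 k191 6 7))))))] (.c k48 (.l (.s k154 k223 10 (.s k26 k218 7 (.s k31 k21
  2 (.d k208 k144 k149 7 10))))) (.c k223 (.l (.s k48 k32 3 (.s k117 k186 10 (.s k101 k69 3 (.s k112
  k79 6 (.s k64 k96 3 (.d k127 k122 k106 2 6))))))) .n))) (.c k9 (.q k6 [(.s k48 k32 3 (.s k117 k186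
  10 (.s k101 k69 3 (.d k154 k223 k207 10 14)))), (.s k208 k144 7 (.s k149 k31 10 (.s k21 k213 7 (.s
  k63 k42 6 (.s k106 k192 14 (.d k127 k64 k191 6 7))))))] (.c k48 (.l (.s k154 k223 10 (.s k26 k218
  7 (.s k31 k21 2 (.d k208 k144 k149 7 10))))) (.c k223 (.l (.s k48 k32 3 (.s k117 k186 10 (.s k101
  k69 3 (.s k112 k79 6 (.s k64 k96 3 (.d k127 k122 k106 2 6))))))) .n))) (.c k48 (.l (.s k154 k223
  10 (.s k26 k218 7 (.s k31 k21 2 (.d k208 k144 k149 7 10))))) (.c k223 (.l (.s k48 k32 3 (.s k117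
  k186 10 (.s k101 k69 3 (.s k112 k79 6 (.s k64 k96 3 (.d k127 k122 k106 2 6))))))) .n))))) (.c k161
  (.q k82 [(.s k48 k32 3 (.s k117 k186 10 (.s k101 k69 3 (.d k154 k223 k207 10 14)))), (.s k81 k83 0
  (.s k146 k211 8 (.s k18 k210 7 (.s k19 k17 0 (.d k208 k144 k145 7 8)))))] (.c k6 (.q k9 [(.s k48
  k32 3 (.s k117 k186 10 (.s k101 k69 3 (.d k154 k223 k207 10 14)))), (.s k81 k83 0 (.s k146 k211 8
  (.s k18 k210 7 (.s k19 k17 0 (.d k208 k144 k145 7 8)))))] .n) (.c k9 (.q k6 [(.s k48 k32 3 (.s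
  k117 k186 10 (.s k101 k69 3 (.d k154 k223 k207 10 14)))), (.s k86 k94 1 (.s k84 k87 0 (.s k4 k244
  11 (.d k166 k246 k247 11 12))))] .n) .n))) (.c k223 (.l (.s k48 k32 3 (.s k117 k186 10 (.s k101
  k69 3 (.s k112 k79 6 (.s k64 k96 3 (.d k127 k122 k106 2 6))))))) .n))))))) (.c k161 (.q k82 [(.s
  k48 k32 3 (.s k117 k186 10 (.s k101 k69 3 (.d k154 k223 k207 10 14)))), (.s k83 k81 0 (.s k86 k94
  1 (.s k84 k87 0 (.d k92 k88 k89 1 2))))] (.c k6 (.q k9 [(.s k48 k32 3 (.s k117 k186 10 (.s k101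
  k69 3 (.d k154 k223 k207 10 14)))), (.s k83 k81 0 (.s k86 k94 1 (.s k84 k87 0 (.d k92 k88 k89 1
  2))))] (.c k88 (.q k164 [(.s k48 k32 3 (.s k117 k186 10 (.s k101 k69 3 (.d k154 k223 k207 10
  14)))), (.s k81 k83 0 (.s k146 k211 8 (.s k18 k210 7 (.s k19 k17 0 (.d k208 k144 k145 7 8)))))]
  .n) (.c k164 (.q k88 [(.s k81 k83 0 (.d k89 k91 k93 0 1)), (.s k84 k92 1 (.d k86 k94 k87 1 0))]
  (.c k87 (.l (.s k83 k81 0 (.s k86 k94 1 (.d k89 k92 k91 2 0)))) (.c k93 (.l (.s k83 k81 0 (.s k86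
  k94 1 (.d k92 k84 k89 1 2)))) .n))) .n))) (.c k9 (.q k6 [(.s k48 k32 3 (.s k117 k186 10 (.s k101
  k69 3 (.d k154 k223 k207 10 14)))), (.s k83 k81 0 (.s k86 k94 1 (.s k84 k87 0 (.d k92 k88 k89 1
  2))))] (.c k88 (.q k164 [(.s k48 k32 3 (.s k117 k186 10 (.s k101 k69 3 (.d k154 k223 k207 10
  14)))), (.s k86 k94 1 (.s k84 k87 0 (.s k4 k244 11 (.d k166 k246 k247 11 12))))] .n) (.c k164 (.q
  k88 [(.s k81 k83 0 (.d k89 k91 k93 0 1)), (.s k84 k92 1 (.d k86 k94 k87 1 0))] (.c k87 (.l (.s k83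
  k81 0 (.s k86 k94 1 (.d k89 k92 k91 2 0)))) (.c k93 (.l (.s k83 k81 0 (.s k86 k94 1 (.d k92 k84
  k89 1 2)))) .n))) .n))) (.c k88 (.q k164 [(.s k48 k32 3 (.s k117 k186 10 (.s k101 k69 3 (.d k154
  k223 k207 10 14)))), (.s k81 k83 0 (.s k146 k211 8 (.s k18 k210 7 (.s k19 k17 0 (.d k208 k144 k145
  7 8)))))] (.c k6 (.q k9 [(.s k48 k32 3 (.s k117 k186 10 (.s k101 k69 3 (.d k154 k223 k207 10
  14)))), (.s k81 k83 0 (.s k146 k211 8 (.s k18 k210 7 (.s k19 k17 0 (.d k208 k144 k145 7 8)))))]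
  .n) (.c k9 (.q k6 [(.s k48 k32 3 (.s k117 k186 10 (.s k101 k69 3 (.d k154 k223 k207 10 14)))), (.s
  k86 k94 1 (.s k84 k87 0 (.s k4 k244 11 (.d k166 k246 k247 11 12))))] .n) .n))) (.c k164 (.q k88
  [(.s k81 k83 0 (.d k89 k91 k93 0 1)), (.s k84 k92 1 (.d k86 k94 k87 1 0))] (.c k6 (.q k9 [(.s k81
  k83 0 (.d k89 k91 k93 0 1)), (.s k84 k92 1 (.d k86 k94 k87 1 0))] (.c k87 (.l (.s k83 k81 0 (.s
  k86 k94 1 (.d k89 k92 k91 2 0)))) (.c k93 (.l (.s k83 k81 0 (.s k86 k94 1 (.d k92 k84 k89 1 2))))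
  .n))) (.c k9 (.q k6 [(.s k81 k83 0 (.d k89 k91 k93 0 1)), (.s k84 k92 1 (.d k86 k94 k87 1 0))] (.c
  k87 (.l (.s k83 k81 0 (.s k86 k94 1 (.d k89 k92 k91 2 0)))) (.c k93 (.l (.s k83 k81 0 (.s k86 k94
  1 (.d k92 k84 k89 1 2)))) .n))) (.c k87 (.l (.s k83 k81 0 (.s k86 k94 1 (.d k89 k92 k91 2 0))))
  (.c k93 (.l (.s k83 k81 0 (.s k86 k94 1 (.d k92 k84 k89 1 2)))) .n))))) .n))))) (.c k164 (.q k88
  [(.s k48 k32 3 (.s k117 k186 10 (.s k101 k69 3 (.d k154 k223 k207 10 14)))), (.s k89 k91 0 (.s k81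
  k93 1 (.s k92 k84 1 (.d k83 k82 k86 0 2))))] (.c k6 (.q k9 [(.s k48 k32 3 (.s k117 k186 10 (.s
  k101 k69 3 (.d k154 k223 k207 10 14)))), (.s k89 k91 0 (.s k81 k93 1 (.s k92 k84 1 (.d k83 k82 k86
  0 2))))] (.c k82 (.q k161 [(.s k48 k32 3 (.s k117 k186 10 (.s k101 k69 3 (.d k154 k223 k207 10
  14)))), (.s k89 k91 0 (.s k81 k93 1 (.s k1 k241 11 (.d k169 k249 k253 11 13))))] .n) (.c k161 (.q
  k82 [(.s k81 k83 0 (.d k89 k91 k93 0 1)), (.s k84 k92 1 (.d k86 k94 k87 1 0))] (.c k87 (.l (.s k83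
  k81 0 (.s k86 k94 1 (.d k89 k92 k91 2 0)))) (.c k93 (.l (.s k83 k81 0 (.s k86 k94 1 (.d k92 k84
  k89 1 2)))) .n))) .n))) (.c k9 (.q k6 [(.s k48 k32 3 (.s k117 k186 10 (.s k101 k69 3 (.d k154 k223
  k207 10 14)))), (.s k89 k91 0 (.s k81 k93 1 (.s k92 k84 1 (.d k83 k82 k86 0 2))))] (.c k82 (.q
  k161 [(.s k48 k32 3 (.s k117 k186 10 (.s k101 k69 3 (.d k154 k223 k207 10 14)))), (.s k84 k92 1
  (.s k152 k220 9 (.s k24 k216 7 (.s k28 k20 1 (.d k208 k144 k148 7 9)))))] .n) (.c k161 (.q k82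
  [(.s k81 k83 0 (.d k89 k91 k93 0 1)), (.s k84 k92 1 (.d k86 k94 k87 1 0))] (.c k87 (.l (.s k83 k81
  0 (.s k86 k94 1 (.d k89 k92 k91 2 0)))) (.c k93 (.l (.s k83 k81 0 (.s k86 k94 1 (.d k92 k84 k89 1
  2)))) .n))) .n))) (.c k82 (.q k161 [(.s k48 k32 3 (.s k117 k186 10 (.s k101 k69 3 (.d k154 k223
  k207 10 14)))), (.s k84 k92 1 (.s k152 k220 9 (.s k24 k216 7 (.s k28 k20 1 (.d k208 k144 k148 7
  9)))))] (.c k6 (.q k9 [(.s k48 k32 3 (.s k117 k186 10 (.s k101 k69 3 (.d k154 k223 k207 10 14)))),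
  (.s k89 k91 0 (.s k81 k93 1 (.s k1 k241 11 (.d k169 k249 k253 11 13))))] .n) (.c k9 (.q k6 [(.s
  k48 k32 3 (.s k117 k186 10 (.s k101 k69 3 (.d k154 k223 k207 10 14)))), (.s k84 k92 1 (.s k152
  k220 9 (.s k24 k216 7 (.s k28 k20 1 (.d k208 k144 k148 7 9)))))] .n) .n))) (.c k161 (.q k82 [(.s
  k81 k83 0 (.d k89 k91 k93 0 1)), (.s k84 k92 1 (.d k86 k94 k87 1 0))] (.c k6 (.q k9 [(.s k81 k83 0
  (.d k89 k91 k93 0 1)), (.s k84 k92 1 (.d k86 k94 k87 1 0))] (.c k87 (.l (.s k83 k81 0 (.s k86 k94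
  1 (.d k89 k92 k91 2 0)))) (.c k93 (.l (.s k83 k81 0 (.s k86 k94 1 (.d k92 k84 k89 1 2)))) .n)))
  (.c k9 (.q k6 [(.s k81 k83 0 (.d k89 k91 k93 0 1)), (.s k84 k92 1 (.d k86 k94 k87 1 0))] (.c k87
  (.l (.s k83 k81 0 (.s k86 k94 1 (.d k89 k92 k91 2 0)))) (.c k93 (.l (.s k83 k81 0 (.s k86 k94 1
  (.d k92 k84 k89 1 2)))) .n))) (.c k87 (.l (.s k83 k81 0 (.s k86 k94 1 (.d k89 k92 k91 2 0)))) (.c
  k93 (.l (.s k83 k81 0 (.s k86 k94 1 (.d k92 k84 k89 1 2)))) .n))))) .n))))) (.c k223 (.l (.s k48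
  k32 3 (.s k117 k186 10 (.s k101 k69 3 (.s k112 k79 6 (.s k64 k96 3 (.d k127 k122 k106 2 6)))))))
  .n))))))))))) (.c k250 (.l (.s k95 k80 2 (.s k255 k170 14 (.s k15 k175 11 (.s k5 k10 2 (.d k165
  k245 k240 11 14)))))) (.c k255 (.q k48 [(.s k16 k32 3 (.s k95 k80 2 (.s k223 k154 10 (.s k31 k159
  7 (.s k21 k26 2 (.d k149 k213 k208 7 10)))))), (.s k80 k95 2 (.s k240 k160 11 (.s k112 k176 7 (.s
  k101 k79 6 (.s k69 k117 3 (.d k207 k138 k154 10 14)))))), (.s k16 k32 3 (.s k154 k223 10 (.s k26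
  k218 7 (.s k15 k37 6 (.s k5 k10 2 (.d k165 k245 k240 11 14))))))] (.c k6 (.q k9 [(.s k16 k32 3 (.s
  k95 k80 2 (.s k223 k154 10 (.s k31 k159 7 (.s k21 k26 2 (.d k149 k213 k208 7 10)))))), (.s k80 k95
  2 (.s k240 k160 11 (.s k112 k176 7 (.s k101 k79 6 (.s k69 k117 3 (.d k207 k138 k154 10 14)))))),
  (.s k16 k32 3 (.s k154 k223 10 (.s k26 k218 7 (.s k15 k37 6 (.s k5 k10 2 (.d k165 k245 k240 11
  14))))))] (.c k87 (.q k171 [(.s k16 k32 3 (.s k95 k80 2 (.s k223 k154 10 (.s k31 k159 7 (.s k21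
  k26 2 (.d k149 k213 k208 7 10)))))), (.s k80 k95 2 (.s k240 k160 11 (.s k112 k176 7 (.s k101 k79 6
  (.s k69 k117 3 (.d k207 k138 k154 10 14)))))), (.s k16 k32 3 (.s k154 k223 10 (.s k26 k218 7 (.s
  k15 k37 6 (.s k5 k10 2 (.d k165 k245 k240 11 14))))))] (.c k93 (.q k174 [(.s k16 k32 3 (.s k95 k80
  2 (.s k223 k154 10 (.s k31 k159 7 (.s k21 k26 2 (.d k149 k213 k208 7 10)))))), (.s k80 k95 2 (.s
  k240 k160 11 (.s k112 k176 7 (.s k101 k79 6 (.s k69 k117 3 (.d k207 k138 k154 10 14)))))), (.s k16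
  k32 3 (.s k154 k223 10 (.s k26 k218 7 (.s k15 k37 6 (.s k5 k10 2 (.d k165 k245 k240 11 14))))))]
  (.c k154 (.l (.s k16 k32 3 (.s k80 k95 2 (.s k144 k208 7 (.s k96 k192 11 (.s k112 k64 3 (.d k240
  k176 k160 7 11))))))) .n)) (.c k154 (.l (.s k16 k32 3 (.s k80 k95 2 (.s k144 k208 7 (.s k96 k192
  11 (.s k112 k64 3 (.d k240 k176 k160 7 11))))))) (.c k174 (.q k93 [(.s k89 k81 1 (.s k169 k249 11
  (.s k11 k248 12 (.d k91 k251 k88 11 0)))), (.s k16 k32 3 (.s k80 k95 2 (.s k144 k208 7 (.s k96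
  k192 11 (.s k112 k64 3 (.d k240 k176 k160 7 11))))))] (.c k91 (.l (.s k89 k81 1 (.s k169 k249 11
  (.s k11 k248 12 (.s k8 k10 0 (.d k170 k251 k168 12 0)))))) .n)) .n)))) (.c k93 (.q k174 [(.s k16
  k32 3 (.s k95 k80 2 (.s k223 k154 10 (.s k31 k159 7 (.s k21 k26 2 (.d k149 k213 k208 7 10)))))),
  (.s k80 k95 2 (.s k240 k160 11 (.s k112 k176 7 (.s k101 k79 6 (.s k69 k117 3 (.d k207 k138 k154 10
  14)))))), (.s k16 k32 3 (.s k154 k223 10 (.s k26 k218 7 (.s k15 k37 6 (.s k5 k10 2 (.d k165 k245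
  k240 11 14))))))] (.c k87 (.q k171 [(.s k16 k32 3 (.s k95 k80 2 (.s k223 k154 10 (.s k31 k159 7
  (.s k21 k26 2 (.d k149 k213 k208 7 10)))))), (.s k80 k95 2 (.s k240 k160 11 (.s k112 k176 7 (.s
  k101 k79 6 (.s k69 k117 3 (.d k207 k138 k154 10 14)))))), (.s k16 k32 3 (.s k154 k223 10 (.s k26
  k218 7 (.s k15 k37 6 (.s k5 k10 2 (.d k165 k245 k240 11 14))))))] (.c k154 (.l (.s k16 k32 3 (.s
  k80 k95 2 (.s k144 k208 7 (.s k96 k192 11 (.s k112 k64 3 (.d k240 k176 k160 7 11))))))) .n)) (.c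
  k154 (.l (.s k16 k32 3 (.s k80 k95 2 (.s k144 k208 7 (.s k96 k192 11 (.s k112 k64 3 (.d k240 k176
  k160 7 11))))))) (.c k171 (.q k87 [(.s k80 k95 2 (.s k240 k160 11 (.s k112 k176 7 (.s k101 k79 6
  (.s k69 k117 3 (.d k207 k138 k154 10 14)))))), (.s k16 k32 3 (.s k84 k86 0 (.s k152 k220 9 (.s
  k100 k204 13 (.s k116 k68 3 (.d k252 k184 k168 9 13))))))] .n) .n)))) (.c k154 (.l (.s k16 k32 3
  (.s k80 k95 2 (.s k144 k208 7 (.s k96 k192 11 (.s k112 k64 3 (.d k240 k176 k160 7 11))))))) (.c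
  k171 (.q k87 [(.s k95 k80 2 (.s k83 k91 1 (.s k86 k84 0 (.s k92 k89 2 (.d k94 k93 k82 0 1))))),
  (.s k16 k32 3 (.s k80 k95 2 (.s k144 k208 7 (.s k96 k192 11 (.s k112 k64 3 (.d k240 k176 k160 7
  11)))))), (.s k16 k32 3 (.s k84 k86 0 (.s k152 k220 9 (.s k100 k204 13 (.s k116 k68 3 (.d k252
  k184 k168 9 13))))))] (.c k93 (.q k174 [(.s k80 k95 2 (.s k240 k160 11 (.s k112 k176 7 (.s k101
  k79 6 (.s k69 k117 3 (.d k207 k138 k154 10 14)))))), (.s k16 k32 3 (.s k84 k86 0 (.s k152 k220 9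
  (.s k100 k204 13 (.s k116 k68 3 (.d k252 k184 k168 9 13))))))] .n) (.c k174 (.q k93 [(.s k86 k84 0
  (.s k95 k80 2 (.d k94 k92 k82 0 1))), (.s k16 k32 3 (.s k81 k89 1 (.s k146 k211 8 (.s k97 k195 12
  (.s k113 k65 3 (.d k243 k178 k162 8 12))))))] .n) .n))) (.c k174 (.q k93 [(.s k89 k81 1 (.s k91
  k88 0 (.s k95 k80 2 (.s k92 k94 0 (.d k83 k87 k86 1 2))))), (.s k16 k32 3 (.s k81 k89 1 (.s k146
  k211 8 (.s k97 k195 12 (.s k113 k65 3 (.d k243 k178 k162 8 12)))))), (.s k16 k32 3 (.s k80 k95 2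
  (.s k144 k208 7 (.s k96 k192 11 (.s k112 k64 3 (.d k240 k176 k160 7 11))))))] (.c k87 (.q k171
  [(.s k89 k81 1 (.s k169 k249 11 (.s k11 k248 12 (.d k91 k251 k88 11 0)))), (.s k16 k32 3 (.s k80
  k95 2 (.s k144 k208 7 (.s k96 k192 11 (.s k112 k64 3 (.d k240 k176 k160 7 11))))))] (.c k91 (.l
  (.s k89 k81 1 (.s k169 k249 11 (.s k11 k248 12 (.s k8 k10 0 (.d k170 k251 k168 12 0)))))) .n)) (.c
  k171 (.q k87 [(.s k86 k84 0 (.s k95 k80 2 (.d k94 k92 k82 0 1))), (.s k16 k32 3 (.s k81 k89 1 (.s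
  k146 k211 8 (.s k97 k195 12 (.s k113 k65 3 (.d k243 k178 k162 8 12))))))] .n) .n))) .n)))))) (.c
  k9 (.q k6 [(.s k16 k32 3 (.s k95 k80 2 (.s k223 k154 10 (.s k31 k159 7 (.s k21 k26 2 (.d k149 k213
  k208 7 10)))))), (.s k80 k95 2 (.s k240 k160 11 (.s k112 k176 7 (.s k101 k79 6 (.s k69 k117 3 (.d
  k207 k138 k154 10 14)))))), (.s k16 k32 3 (.s k154 k223 10 (.s k26 k218 7 (.s k15 k37 6 (.s k5 k10
  2 (.d k165 k245 k240 11 14))))))] (.c k87 (.q k171 [(.s k16 k32 3 (.s k95 k80 2 (.s k223 k154 10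
  (.s k31 k159 7 (.s k21 k26 2 (.d k149 k213 k208 7 10)))))), (.s k80 k95 2 (.s k240 k160 11 (.s
  k112 k176 7 (.s k101 k79 6 (.s k69 k117 3 (.d k207 k138 k154 10 14)))))), (.s k16 k32 3 (.s k154
  k223 10 (.s k26 k218 7 (.s k15 k37 6 (.s k5 k10 2 (.d k165 k245 k240 11 14))))))] (.c k93 (.q k174
  [(.s k16 k32 3 (.s k95 k80 2 (.s k223 k154 10 (.s k31 k159 7 (.s k21 k26 2 (.d k149 k213 k208 7
  10)))))), (.s k80 k95 2 (.s k240 k160 11 (.s k112 k176 7 (.s k101 k79 6 (.s k69 k117 3 (.d k207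
  k138 k154 10 14)))))), (.s k16 k32 3 (.s k154 k223 10 (.s k26 k218 7 (.s k15 k37 6 (.s k5 k10 2
  (.d k165 k245 k240 11 14))))))] (.c k154 (.l (.s k16 k32 3 (.s k80 k95 2 (.s k144 k208 7 (.s k96
  k192 11 (.s k112 k64 3 (.d k240 k176 k160 7 11))))))) .n)) (.c k154 (.l (.s k16 k32 3 (.s k80 k95
  2 (.s k144 k208 7 (.s k96 k192 11 (.s k112 k64 3 (.d k240 k176 k160 7 11))))))) (.c k174 (.q k93
  [(.s k80 k95 2 (.s k240 k160 11 (.s k112 k176 7 (.s k101 k79 6 (.s k69 k117 3 (.d k207 k138 k154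
  10 14)))))), (.s k16 k32 3 (.s k81 k89 1 (.s k146 k211 8 (.s k97 k195 12 (.s k113 k65 3 (.d k243
  k178 k162 8 12))))))] .n) .n)))) (.c k93 (.q k174 [(.s k16 k32 3 (.s k95 k80 2 (.s k223 k154 10
  (.s k31 k159 7 (.s k21 k26 2 (.d k149 k213 k208 7 10)))))), (.s k80 k95 2 (.s k240 k160 11 (.s
  k112 k176 7 (.s k101 k79 6 (.s k69 k117 3 (.d k207 k138 k154 10 14)))))), (.s k16 k32 3 (.s k154
  k223 10 (.s k26 k218 7 (.s k15 k37 6 (.s k5 k10 2 (.d k165 k245 k240 11 14))))))] (.c k87 (.q k171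
  [(.s k16 k32 3 (.s k95 k80 2 (.s k223 k154 10 (.s k31 k159 7 (.s k21 k26 2 (.d k149 k213 k208 7
  10)))))), (.s k80 k95 2 (.s k240 k160 11 (.s k112 k176 7 (.s k101 k79 6 (.s k69 k117 3 (.d k207
  k138 k154 10 14)))))), (.s k16 k32 3 (.s k154 k223 10 (.s k26 k218 7 (.s k15 k37 6 (.s k5 k10 2
  (.d k165 k245 k240 11 14))))))] (.c k154 (.l (.s k16 k32 3 (.s k80 k95 2 (.s k144 k208 7 (.s k96
  k192 11 (.s k112 k64 3 (.d k240 k176 k160 7 11))))))) .n)) (.c k154 (.l (.s k16 k32 3 (.s k80 k95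
  2 (.s k144 k208 7 (.s k96 k192 11 (.s k112 k64 3 (.d k240 k176 k160 7 11))))))) (.c k171 (.q k87
  [(.s k86 k84 0 (.s k166 k246 11 (.s k14 k242 13 (.d k94 k254 k82 11 1)))), (.s k16 k32 3 (.s k80
  k95 2 (.s k144 k208 7 (.s k96 k192 11 (.s k112 k64 3 (.d k240 k176 k160 7 11))))))] (.c k94 (.l
  (.s k86 k84 0 (.s k166 k246 11 (.s k14 k242 13 (.s k2 k10 1 (.d k170 k254 k162 13 1)))))) .n))
  .n)))) (.c k154 (.l (.s k16 k32 3 (.s k80 k95 2 (.s k144 k208 7 (.s k96 k192 11 (.s k112 k64 3 (.d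
  k240 k176 k160 7 11))))))) (.c k171 (.q k87 [(.s k86 k84 0 (.s k94 k82 1 (.s k95 k80 2 (.s k83 k91
  1 (.d k92 k93 k89 0 2))))), (.s k16 k32 3 (.s k84 k86 0 (.s k152 k220 9 (.s k100 k204 13 (.s k116
  k68 3 (.d k252 k184 k168 9 13)))))), (.s k16 k32 3 (.s k80 k95 2 (.s k144 k208 7 (.s k96 k192 11
  (.s k112 k64 3 (.d k240 k176 k160 7 11))))))] (.c k93 (.q k174 [(.s k86 k84 0 (.s k166 k246 11 (.s
  k14 k242 13 (.d k94 k254 k82 11 1)))), (.s k16 k32 3 (.s k80 k95 2 (.s k144 k208 7 (.s k96 k192 11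
  (.s k112 k64 3 (.d k240 k176 k160 7 11))))))] (.c k94 (.l (.s k86 k84 0 (.s k166 k246 11 (.s k14
  k242 13 (.s k2 k10 1 (.d k170 k254 k162 13 1)))))) .n)) (.c k174 (.q k93 [(.s k86 k84 0 (.s k95
  k80 2 (.d k94 k92 k82 0 1))), (.s k16 k32 3 (.s k81 k89 1 (.s k146 k211 8 (.s k97 k195 12 (.s k113
  k65 3 (.d k243 k178 k162 8 12))))))] .n) .n))) (.c k174 (.q k93 [(.s k95 k80 2 (.s k92 k94 0 (.s
  k89 k81 1 (.s k83 k86 2 (.d k91 k87 k88 1 0))))), (.s k16 k32 3 (.s k80 k95 2 (.s k144 k208 7 (.s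
  k96 k192 11 (.s k112 k64 3 (.d k240 k176 k160 7 11)))))), (.s k16 k32 3 (.s k81 k89 1 (.s k146
  k211 8 (.s k97 k195 12 (.s k113 k65 3 (.d k243 k178 k162 8 12))))))] (.c k87 (.q k171 [(.s k80 k95
  2 (.s k240 k160 11 (.s k112 k176 7 (.s k101 k79 6 (.s k69 k117 3 (.d k207 k138 k154 10 14)))))),
  (.s k16 k32 3 (.s k81 k89 1 (.s k146 k211 8 (.s k97 k195 12 (.s k113 k65 3 (.d k243 k178 k162 8
  12))))))] .n) (.c k171 (.q k87 [(.s k86 k84 0 (.s k95 k80 2 (.d k94 k92 k82 0 1))), (.s k16 k32 3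
  (.s k81 k89 1 (.s k146 k211 8 (.s k97 k195 12 (.s k113 k65 3 (.d k243 k178 k162 8 12))))))] .n)
  .n))) .n)))))) (.c k87 (.q k171 [(.s k16 k32 3 (.s k95 k80 2 (.s k223 k154 10 (.s k31 k159 7 (.s
  k21 k26 2 (.d k149 k213 k208 7 10)))))), (.s k80 k95 2 (.s k240 k160 11 (.s k112 k176 7 (.s k101
  k79 6 (.s k69 k117 3 (.d k207 k138 k154 10 14)))))), (.s k16 k32 3 (.s k154 k223 10 (.s k26 k218 7
  (.s k15 k37 6 (.s k5 k10 2 (.d k165 k245 k240 11 14))))))] (.c k6 (.q k9 [(.s k16 k32 3 (.s k95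
  k80 2 (.s k223 k154 10 (.s k31 k159 7 (.s k21 k26 2 (.d k149 k213 k208 7 10)))))), (.s k80 k95 2
  (.s k240 k160 11 (.s k112 k176 7 (.s k101 k79 6 (.s k69 k117 3 (.d k207 k138 k154 10 14)))))), (.s
  k16 k32 3 (.s k154 k223 10 (.s k26 k218 7 (.s k15 k37 6 (.s k5 k10 2 (.d k165 k245 k240 11
  14))))))] (.c k93 (.q k174 [(.s k16 k32 3 (.s k95 k80 2 (.s k223 k154 10 (.s k31 k159 7 (.s k21
  k26 2 (.d k149 k213 k208 7 10)))))), (.s k80 k95 2 (.s k240 k160 11 (.s k112 k176 7 (.s k101 k79 6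
  (.s k69 k117 3 (.d k207 k138 k154 10 14)))))), (.s k16 k32 3 (.s k154 k223 10 (.s k26 k218 7 (.s
  k15 k37 6 (.s k5 k10 2 (.d k165 k245 k240 11 14))))))] (.c k154 (.l (.s k16 k32 3 (.s k80 k95 2
  (.s k144 k208 7 (.s k96 k192 11 (.s k112 k64 3 (.d k240 k176 k160 7 11))))))) .n)) (.c k154 (.l
  (.s k16 k32 3 (.s k80 k95 2 (.s k144 k208 7 (.s k96 k192 11 (.s k112 k64 3 (.d k240 k176 k160 7
  11))))))) (.c k174 (.q k93 [(.s k89 k81 1 (.s k169 k249 11 (.s k11 k248 12 (.d k91 k251 k88 11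
  0)))), (.s k16 k32 3 (.s k80 k95 2 (.s k144 k208 7 (.s k96 k192 11 (.s k112 k64 3 (.d k240 k176
  k160 7 11))))))] (.c k91 (.l (.s k89 k81 1 (.s k169 k249 11 (.s k11 k248 12 (.s k8 k10 0 (.d k170
  k251 k168 12 0)))))) .n)) .n)))) (.c k9 (.q k6 [(.s k16 k32 3 (.s k95 k80 2 (.s k223 k154 10 (.s
  k31 k159 7 (.s k21 k26 2 (.d k149 k213 k208 7 10)))))), (.s k80 k95 2 (.s k240 k160 11 (.s k112
  k176 7 (.s k101 k79 6 (.s k69 k117 3 (.d k207 k138 k154 10 14)))))), (.s k16 k32 3 (.s k154 k223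
  10 (.s k26 k218 7 (.s k15 k37 6 (.s k5 k10 2 (.d k165 k245 k240 11 14))))))] (.c k93 (.q k174 [(.s
  k16 k32 3 (.s k95 k80 2 (.s k223 k154 10 (.s k31 k159 7 (.s k21 k26 2 (.d k149 k213 k208 7
  10)))))), (.s k80 k95 2 (.s k240 k160 11 (.s k112 k176 7 (.s k101 k79 6 (.s k69 k117 3 (.d k207
  k138 k154 10 14)))))), (.s k16 k32 3 (.s k154 k223 10 (.s k26 k218 7 (.s k15 k37 6 (.s k5 k10 2
  (.d k165 k245 k240 11 14))))))] (.c k154 (.l (.s k16 k32 3 (.s k80 k95 2 (.s k144 k208 7 (.s k96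
  k192 11 (.s k112 k64 3 (.d k240 k176 k160 7 11))))))) .n)) (.c k154 (.l (.s k16 k32 3 (.s k80 k95
  2 (.s k144 k208 7 (.s k96 k192 11 (.s k112 k64 3 (.d k240 k176 k160 7 11))))))) (.c k174 (.q k93
  [(.s k80 k95 2 (.s k240 k160 11 (.s k112 k176 7 (.s k101 k79 6 (.s k69 k117 3 (.d k207 k138 k154
  10 14)))))), (.s k16 k32 3 (.s k81 k89 1 (.s k146 k211 8 (.s k97 k195 12 (.s k113 k65 3 (.d k243
  k178 k162 8 12))))))] .n) .n)))) (.c k93 (.q k174 [(.s k16 k32 3 (.s k95 k80 2 (.s k223 k154 10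
  (.s k31 k159 7 (.s k21 k26 2 (.d k149 k213 k208 7 10)))))), (.s k80 k95 2 (.s k240 k160 11 (.s
  k112 k176 7 (.s k101 k79 6 (.s k69 k117 3 (.d k207 k138 k154 10 14)))))), (.s k16 k32 3 (.s k154
  k223 10 (.s k26 k218 7 (.s k15 k37 6 (.s k5 k10 2 (.d k165 k245 k240 11 14))))))] (.c k6 (.q k9
  [(.s k16 k32 3 (.s k95 k80 2 (.s k223 k154 10 (.s k31 k159 7 (.s k21 k26 2 (.d k149 k213 k208 7
  10)))))), (.s k80 k95 2 (.s k240 k160 11 (.s k112 k176 7 (.s k101 k79 6 (.s k69 k117 3 (.d k207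
  k138 k154 10 14)))))), (.s k16 k32 3 (.s k154 k223 10 (.s k26 k218 7 (.s k15 k37 6 (.s k5 k10 2
  (.d k165 k245 k240 11 14))))))] (.c k154 (.l (.s k16 k32 3 (.s k80 k95 2 (.s k144 k208 7 (.s k96
  k192 11 (.s k112 k64 3 (.d k240 k176 k160 7 11))))))) .n)) (.c k9 (.q k6 [(.s k16 k32 3 (.s k95
  k80 2 (.s k223 k154 10 (.s k31 k159 7 (.s k21 k26 2 (.d k149 k213 k208 7 10)))))), (.s k80 k95 2
  (.s k240 k160 11 (.s k112 k176 7 (.s k101 k79 6 (.s k69 k117 3 (.d k207 k138 k154 10 14)))))), (.s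
  k16 k32 3 (.s k154 k223 10 (.s k26 k218 7 (.s k15 k37 6 (.s k5 k10 2 (.d k165 k245 k240 11
  14))))))] (.c k154 (.l (.s k16 k32 3 (.s k80 k95 2 (.s k144 k208 7 (.s k96 k192 11 (.s k112 k64 3
  (.d k240 k176 k160 7 11))))))) .n)) (.c k154 (.l (.s k16 k32 3 (.s k80 k95 2 (.s k144 k208 7 (.s
  k96 k192 11 (.s k112 k64 3 (.d k240 k176 k160 7 11))))))) .n)))) (.c k154 (.l (.s k16 k32 3 (.s
  k80 k95 2 (.s k144 k208 7 (.s k96 k192 11 (.s k112 k64 3 (.d k240 k176 k160 7 11))))))) (.c k174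
  (.q k93 [(.s k80 k95 2 (.s k240 k160 11 (.s k112 k176 7 (.s k101 k79 6 (.s k69 k117 3 (.d k207
  k138 k154 10 14)))))), (.s k16 k32 3 (.s k81 k89 1 (.s k146 k211 8 (.s k97 k195 12 (.s k113 k65 3
  (.d k243 k178 k162 8 12))))))] (.c k6 (.q k9 [(.s k89 k81 1 (.s k169 k249 11 (.s k11 k248 12 (.d
  k91 k251 k88 11 0)))), (.s k16 k32 3 (.s k80 k95 2 (.s k144 k208 7 (.s k96 k192 11 (.s k112 k64 3
  (.d k240 k176 k160 7 11))))))] (.c k91 (.l (.s k89 k81 1 (.s k169 k249 11 (.s k11 k248 12 (.s k8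
  k10 0 (.d k170 k251 k168 12 0)))))) .n)) (.c k9 (.q k6 [(.s k80 k95 2 (.s k240 k160 11 (.s k112
  k176 7 (.s k101 k79 6 (.s k69 k117 3 (.d k207 k138 k154 10 14)))))), (.s k16 k32 3 (.s k81 k89 1
  (.s k146 k211 8 (.s k97 k195 12 (.s k113 k65 3 (.d k243 k178 k162 8 12))))))] .n) .n))) .n))))))
  (.c k93 (.q k174 [(.s k16 k32 3 (.s k95 k80 2 (.s k223 k154 10 (.s k31 k159 7 (.s k21 k26 2 (.d
  k149 k213 k208 7 10)))))), (.s k80 k95 2 (.s k240 k160 11 (.s k112 k176 7 (.s k101 k79 6 (.s k69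
  k117 3 (.d k207 k138 k154 10 14)))))), (.s k16 k32 3 (.s k154 k223 10 (.s k26 k218 7 (.s k15 k37 6
  (.s k5 k10 2 (.d k165 k245 k240 11 14))))))] (.c k6 (.q k9 [(.s k16 k32 3 (.s k95 k80 2 (.s k223
  k154 10 (.s k31 k159 7 (.s k21 k26 2 (.d k149 k213 k208 7 10)))))), (.s k80 k95 2 (.s k240 k160 11
  (.s k112 k176 7 (.s k101 k79 6 (.s k69 k117 3 (.d k207 k138 k154 10 14)))))), (.s k16 k32 3 (.s
  k154 k223 10 (.s k26 k218 7 (.s k15 k37 6 (.s k5 k10 2 (.d k165 k245 k240 11 14))))))] (.c k87 (.q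
  k171 [(.s k16 k32 3 (.s k95 k80 2 (.s k223 k154 10 (.s k31 k159 7 (.s k21 k26 2 (.d k149 k213 k208
  7 10)))))), (.s k80 k95 2 (.s k240 k160 11 (.s k112 k176 7 (.s k101 k79 6 (.s k69 k117 3 (.d k207
  k138 k154 10 14)))))), (.s k16 k32 3 (.s k154 k223 10 (.s k26 k218 7 (.s k15 k37 6 (.s k5 k10 2
  (.d k165 k245 k240 11 14))))))] (.c k154 (.l (.s k16 k32 3 (.s k80 k95 2 (.s k144 k208 7 (.s k96
  k192 11 (.s k112 k64 3 (.d k240 k176 k160 7 11))))))) .n)) (.c k154 (.l (.s k16 k32 3 (.s k80 k95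
  2 (.s k144 k208 7 (.s k96 k192 11 (.s k112 k64 3 (.d k240 k176 k160 7 11))))))) (.c k171 (.q k87
  [(.s k80 k95 2 (.s k240 k160 11 (.s k112 k176 7 (.s k101 k79 6 (.s k69 k117 3 (.d k207 k138 k154
  10 14)))))), (.s k16 k32 3 (.s k84 k86 0 (.s k152 k220 9 (.s k100 k204 13 (.s k116 k68 3 (.d k252
  k184 k168 9 13))))))] .n) .n)))) (.c k9 (.q k6 [(.s k16 k32 3 (.s k95 k80 2 (.s k223 k154 10 (.s
  k31 k159 7 (.s k21 k26 2 (.d k149 k213 k208 7 10)))))), (.s k80 k95 2 (.s k240 k160 11 (.s k112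
  k176 7 (.s k101 k79 6 (.s k69 k117 3 (.d k207 k138 k154 10 14)))))), (.s k16 k32 3 (.s k154 k223
  10 (.s k26 k218 7 (.s k15 k37 6 (.s k5 k10 2 (.d k165 k245 k240 11 14))))))] (.c k87 (.q k171 [(.s
  k16 k32 3 (.s k95 k80 2 (.s k223 k154 10 (.s k31 k159 7 (.s k21 k26 2 (.d k149 k213 k208 7
  10)))))), (.s k80 k95 2 (.s k240 k160 11 (.s k112 k176 7 (.s k101 k79 6 (.s k69 k117 3 (.d k207
  k138 k154 10 14)))))), (.s k16 k32 3 (.s k154 k223 10 (.s k26 k218 7 (.s k15 k37 6 (.s k5 k10 2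
  (.d k165 k245 k240 11 14))))))] (.c k154 (.l (.s k16 k32 3 (.s k80 k95 2 (.s k144 k208 7 (.s k96
  k192 11 (.s k112 k64 3 (.d k240 k176 k160 7 11))))))) .n)) (.c k154 (.l (.s k16 k32 3 (.s k80 k95
  2 (.s k144 k208 7 (.s k96 k192 11 (.s k112 k64 3 (.d k240 k176 k160 7 11))))))) (.c k171 (.q k87
  [(.s k86 k84 0 (.s k166 k246 11 (.s k14 k242 13 (.d k94 k254 k82 11 1)))), (.s k16 k32 3 (.s k80
  k95 2 (.s k144 k208 7 (.s k96 k192 11 (.s k112 k64 3 (.d k240 k176 k160 7 11))))))] (.c k94 (.l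
  (.s k86 k84 0 (.s k166 k246 11 (.s k14 k242 13 (.s k2 k10 1 (.d k170 k254 k162 13 1)))))) .n))
  .n)))) (.c k87 (.q k171 [(.s k16 k32 3 (.s k95 k80 2 (.s k223 k154 10 (.s k31 k159 7 (.s k21 k26 2
  (.d k149 k213 k208 7 10)))))), (.s k80 k95 2 (.s k240 k160 11 (.s k112 k176 7 (.s k101 k79 6 (.s
  k69 k117 3 (.d k207 k138 k154 10 14)))))), (.s k16 k32 3 (.s k154 k223 10 (.s k26 k218 7 (.s k15
  k37 6 (.s k5 k10 2 (.d k165 k245 k240 11 14))))))] (.c k6 (.q k9 [(.s k16 k32 3 (.s k95 k80 2 (.s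
  k223 k154 10 (.s k31 k159 7 (.s k21 k26 2 (.d k149 k213 k208 7 10)))))), (.s k80 k95 2 (.s k240
  k160 11 (.s k112 k176 7 (.s k101 k79 6 (.s k69 k117 3 (.d k207 k138 k154 10 14)))))), (.s k16 k32
  3 (.s k154 k223 10 (.s k26 k218 7 (.s k15 k37 6 (.s k5 k10 2 (.d k165 k245 k240 11 14))))))] (.c
  k154 (.l (.s k16 k32 3 (.s k80 k95 2 (.s k144 k208 7 (.s k96 k192 11 (.s k112 k64 3 (.d k240 k176
  k160 7 11))))))) .n)) (.c k9 (.q k6 [(.s k16 k32 3 (.s k95 k80 2 (.s k223 k154 10 (.s k31 k159 7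
  (.s k21 k26 2 (.d k149 k213 k208 7 10)))))), (.s k80 k95 2 (.s k240 k160 11 (.s k112 k176 7 (.s
  k101 k79 6 (.s k69 k117 3 (.d k207 k138 k154 10 14)))))), (.s k16 k32 3 (.s k154 k223 10 (.s k26
  k218 7 (.s k15 k37 6 (.s k5 k10 2 (.d k165 k245 k240 11 14))))))] (.c k154 (.l (.s k16 k32 3 (.s
  k80 k95 2 (.s k144 k208 7 (.s k96 k192 11 (.s k112 k64 3 (.d k240 k176 k160 7 11))))))) .n)) (.c
  k154 (.l (.s k16 k32 3 (.s k80 k95 2 (.s k144 k208 7 (.s k96 k192 11 (.s k112 k64 3 (.d k240 k176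
  k160 7 11))))))) .n)))) (.c k154 (.l (.s k16 k32 3 (.s k80 k95 2 (.s k144 k208 7 (.s k96 k192 11
  (.s k112 k64 3 (.d k240 k176 k160 7 11))))))) (.c k171 (.q k87 [(.s k80 k95 2 (.s k240 k160 11 (.s
  k112 k176 7 (.s k101 k79 6 (.s k69 k117 3 (.d k207 k138 k154 10 14)))))), (.s k16 k32 3 (.s k84
  k86 0 (.s k152 k220 9 (.s k100 k204 13 (.s k116 k68 3 (.d k252 k184 k168 9 13))))))] (.c k6 (.q k9
  [(.s k80 k95 2 (.s k240 k160 11 (.s k112 k176 7 (.s k101 k79 6 (.s k69 k117 3 (.d k207 k138 k154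
  10 14)))))), (.s k16 k32 3 (.s k84 k86 0 (.s k152 k220 9 (.s k100 k204 13 (.s k116 k68 3 (.d k252
  k184 k168 9 13))))))] .n) (.c k9 (.q k6 [(.s k86 k84 0 (.s k166 k246 11 (.s k14 k242 13 (.d k94
  k254 k82 11 1)))), (.s k16 k32 3 (.s k80 k95 2 (.s k144 k208 7 (.s k96 k192 11 (.s k112 k64 3 (.d
  k240 k176 k160 7 11))))))] (.c k94 (.l (.s k86 k84 0 (.s k166 k246 11 (.s k14 k242 13 (.s k2 k10 1
  (.d k170 k254 k162 13 1)))))) .n)) .n))) .n)))))) (.c k154 (.l (.s k16 k32 3 (.s k80 k95 2 (.s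
  k144 k208 7 (.s k96 k192 11 (.s k112 k64 3 (.d k240 k176 k160 7 11))))))) (.c k171 (.q k87 [(.s
  k95 k80 2 (.s k83 k91 1 (.s k86 k84 0 (.s k92 k89 2 (.d k94 k93 k82 0 1))))), (.s k16 k32 3 (.s
  k80 k95 2 (.s k144 k208 7 (.s k96 k192 11 (.s k112 k64 3 (.d k240 k176 k160 7 11)))))), (.s k16
  k32 3 (.s k84 k86 0 (.s k152 k220 9 (.s k100 k204 13 (.s k116 k68 3 (.d k252 k184 k168 9 13))))))]
  (.c k6 (.q k9 [(.s k95 k80 2 (.s k83 k91 1 (.s k86 k84 0 (.s k92 k89 2 (.d k94 k93 k82 0 1))))),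
  (.s k16 k32 3 (.s k80 k95 2 (.s k144 k208 7 (.s k96 k192 11 (.s k112 k64 3 (.d k240 k176 k160 7
  11)))))), (.s k16 k32 3 (.s k84 k86 0 (.s k152 k220 9 (.s k100 k204 13 (.s k116 k68 3 (.d k252
  k184 k168 9 13))))))] (.c k93 (.q k174 [(.s k80 k95 2 (.s k240 k160 11 (.s k112 k176 7 (.s k101
  k79 6 (.s k69 k117 3 (.d k207 k138 k154 10 14)))))), (.s k16 k32 3 (.s k84 k86 0 (.s k152 k220 9
  (.s k100 k204 13 (.s k116 k68 3 (.d k252 k184 k168 9 13))))))] .n) (.c k174 (.q k93 [(.s k86 k84 0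
  (.s k95 k80 2 (.d k94 k92 k82 0 1))), (.s k16 k32 3 (.s k81 k89 1 (.s k146 k211 8 (.s k97 k195 12
  (.s k113 k65 3 (.d k243 k178 k162 8 12))))))] .n) .n))) (.c k9 (.q k6 [(.s k86 k84 0 (.s k94 k82 1
  (.s k95 k80 2 (.s k83 k91 1 (.d k92 k93 k89 0 2))))), (.s k16 k32 3 (.s k84 k86 0 (.s k152 k220 9
  (.s k100 k204 13 (.s k116 k68 3 (.d k252 k184 k168 9 13)))))), (.s k16 k32 3 (.s k80 k95 2 (.s
  k144 k208 7 (.s k96 k192 11 (.s k112 k64 3 (.d k240 k176 k160 7 11))))))] (.c k93 (.q k174 [(.s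
  k86 k84 0 (.s k166 k246 11 (.s k14 k242 13 (.d k94 k254 k82 11 1)))), (.s k16 k32 3 (.s k80 k95 2
  (.s k144 k208 7 (.s k96 k192 11 (.s k112 k64 3 (.d k240 k176 k160 7 11))))))] (.c k94 (.l (.s k86
  k84 0 (.s k166 k246 11 (.s k14 k242 13 (.s k2 k10 1 (.d k170 k254 k162 13 1)))))) .n)) (.c k174
  (.q k93 [(.s k86 k84 0 (.s k95 k80 2 (.d k94 k92 k82 0 1))), (.s k16 k32 3 (.s k81 k89 1 (.s k146
  k211 8 (.s k97 k195 12 (.s k113 k65 3 (.d k243 k178 k162 8 12))))))] .n) .n))) (.c k93 (.q k174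
  [(.s k80 k95 2 (.s k240 k160 11 (.s k112 k176 7 (.s k101 k79 6 (.s k69 k117 3 (.d k207 k138 k154
  10 14)))))), (.s k16 k32 3 (.s k84 k86 0 (.s k152 k220 9 (.s k100 k204 13 (.s k116 k68 3 (.d k252
  k184 k168 9 13))))))] (.c k6 (.q k9 [(.s k80 k95 2 (.s k240 k160 11 (.s k112 k176 7 (.s k101 k79 6
  (.s k69 k117 3 (.d k207 k138 k154 10 14)))))), (.s k16 k32 3 (.s k84 k86 0 (.s k152 k220 9 (.s
  k100 k204 13 (.s k116 k68 3 (.d k252 k184 k168 9 13))))))] .n) (.c k9 (.q k6 [(.s k86 k84 0 (.s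
  k166 k246 11 (.s k14 k242 13 (.d k94 k254 k82 11 1)))), (.s k16 k32 3 (.s k80 k95 2 (.s k144 k208
  7 (.s k96 k192 11 (.s k112 k64 3 (.d k240 k176 k160 7 11))))))] (.c k94 (.l (.s k86 k84 0 (.s k166
  k246 11 (.s k14 k242 13 (.s k2 k10 1 (.d k170 k254 k162 13 1)))))) .n)) .n))) (.c k174 (.q k93
  [(.s k86 k84 0 (.s k95 k80 2 (.d k94 k92 k82 0 1))), (.s k16 k32 3 (.s k81 k89 1 (.s k146 k211 8
  (.s k97 k195 12 (.s k113 k65 3 (.d k243 k178 k162 8 12))))))] (.c k6 (.q k9 [(.s k86 k84 0 (.s k95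
  k80 2 (.d k94 k92 k82 0 1))), (.s k16 k32 3 (.s k81 k89 1 (.s k146 k211 8 (.s k97 k195 12 (.s k113
  k65 3 (.d k243 k178 k162 8 12))))))] .n) (.c k9 (.q k6 [(.s k86 k84 0 (.s k95 k80 2 (.d k94 k92
  k82 0 1))), (.s k16 k32 3 (.s k81 k89 1 (.s k146 k211 8 (.s k97 k195 12 (.s k113 k65 3 (.d k243
  k178 k162 8 12))))))] .n) .n))) .n))))) (.c k174 (.q k93 [(.s k95 k80 2 (.s k92 k94 0 (.s k89 k81
  1 (.s k83 k86 2 (.d k91 k87 k88 1 0))))), (.s k16 k32 3 (.s k80 k95 2 (.s k144 k208 7 (.s k96 k192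
  11 (.s k112 k64 3 (.d k240 k176 k160 7 11)))))), (.s k16 k32 3 (.s k81 k89 1 (.s k146 k211 8 (.s
  k97 k195 12 (.s k113 k65 3 (.d k243 k178 k162 8 12))))))] (.c k6 (.q k9 [(.s k89 k81 1 (.s k91 k88
  0 (.s k95 k80 2 (.s k92 k94 0 (.d k83 k87 k86 1 2))))), (.s k16 k32 3 (.s k81 k89 1 (.s k146 k211
  8 (.s k97 k195 12 (.s k113 k65 3 (.d k243 k178 k162 8 12)))))), (.s k16 k32 3 (.s k80 k95 2 (.s
  k144 k208 7 (.s k96 k192 11 (.s k112 k64 3 (.d k240 k176 k160 7 11))))))] (.c k87 (.q k171 [(.s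
  k89 k81 1 (.s k169 k249 11 (.s k11 k248 12 (.d k91 k251 k88 11 0)))), (.s k16 k32 3 (.s k80 k95 2
  (.s k144 k208 7 (.s k96 k192 11 (.s k112 k64 3 (.d k240 k176 k160 7 11))))))] (.c k91 (.l (.s k89
  k81 1 (.s k169 k249 11 (.s k11 k248 12 (.s k8 k10 0 (.d k170 k251 k168 12 0)))))) .n)) (.c k171
  (.q k87 [(.s k86 k84 0 (.s k95 k80 2 (.d k94 k92 k82 0 1))), (.s k16 k32 3 (.s k81 k89 1 (.s k146
  k211 8 (.s k97 k195 12 (.s k113 k65 3 (.d k243 k178 k162 8 12))))))] .n) .n))) (.c k9 (.q k6 [(.s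
  k95 k80 2 (.s k92 k94 0 (.s k89 k81 1 (.s k83 k86 2 (.d k91 k87 k88 1 0))))), (.s k16 k32 3 (.s
  k80 k95 2 (.s k144 k208 7 (.s k96 k192 11 (.s k112 k64 3 (.d k240 k176 k160 7 11)))))), (.s k16
  k32 3 (.s k81 k89 1 (.s k146 k211 8 (.s k97 k195 12 (.s k113 k65 3 (.d k243 k178 k162 8 12))))))]
  (.c k87 (.q k171 [(.s k80 k95 2 (.s k240 k160 11 (.s k112 k176 7 (.s k101 k79 6 (.s k69 k117 3 (.d
  k207 k138 k154 10 14)))))), (.s k16 k32 3 (.s k81 k89 1 (.s k146 k211 8 (.s k97 k195 12 (.s k113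
  k65 3 (.d k243 k178 k162 8 12))))))] .n) (.c k171 (.q k87 [(.s k86 k84 0 (.s k95 k80 2 (.d k94 k92
  k82 0 1))), (.s k16 k32 3 (.s k81 k89 1 (.s k146 k211 8 (.s k97 k195 12 (.s k113 k65 3 (.d k243
  k178 k162 8 12))))))] .n) .n))) (.c k87 (.q k171 [(.s k80 k95 2 (.s k240 k160 11 (.s k112 k176 7
  (.s k101 k79 6 (.s k69 k117 3 (.d k207 k138 k154 10 14)))))), (.s k16 k32 3 (.s k81 k89 1 (.s k146
  k211 8 (.s k97 k195 12 (.s k113 k65 3 (.d k243 k178 k162 8 12))))))] (.c k6 (.q k9 [(.s k89 k81 1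
  (.s k169 k249 11 (.s k11 k248 12 (.d k91 k251 k88 11 0)))), (.s k16 k32 3 (.s k80 k95 2 (.s k144
  k208 7 (.s k96 k192 11 (.s k112 k64 3 (.d k240 k176 k160 7 11))))))] (.c k91 (.l (.s k89 k81 1 (.s
  k169 k249 11 (.s k11 k248 12 (.s k8 k10 0 (.d k170 k251 k168 12 0)))))) .n)) (.c k9 (.q k6 [(.s
  k80 k95 2 (.s k240 k160 11 (.s k112 k176 7 (.s k101 k79 6 (.s k69 k117 3 (.d k207 k138 k154 10
  14)))))), (.s k16 k32 3 (.s k81 k89 1 (.s k146 k211 8 (.s k97 k195 12 (.s k113 k65 3 (.d k243 k178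
  k162 8 12))))))] .n) .n))) (.c k171 (.q k87 [(.s k86 k84 0 (.s k95 k80 2 (.d k94 k92 k82 0 1))),
  (.s k16 k32 3 (.s k81 k89 1 (.s k146 k211 8 (.s k97 k195 12 (.s k113 k65 3 (.d k243 k178 k162 8
  12))))))] (.c k6 (.q k9 [(.s k86 k84 0 (.s k95 k80 2 (.d k94 k92 k82 0 1))), (.s k16 k32 3 (.s k81
  k89 1 (.s k146 k211 8 (.s k97 k195 12 (.s k113 k65 3 (.d k243 k178 k162 8 12))))))] .n) (.c k9 (.q
  k6 [(.s k86 k84 0 (.s k95 k80 2 (.d k94 k92 k82 0 1))), (.s k16 k32 3 (.s k81 k89 1 (.s k146 k211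
  8 (.s k97 k195 12 (.s k113 k65 3 (.d k243 k178 k162 8 12))))))] .n) .n))) .n))))) .n))))))))
  .n)))))))))))))))

/-- roots with certificates -/
def certs : List (Cell TT 256 × Cell TT 256 × T TT 256) :=
  [(k2, k87, t2_87), (k2, k88, t2_88), (k2, k89, t2_89), (k2, k90, t2_90), (k2, k91, t2_91), (k2,
  k92, t2_92), (k2, k93, t2_93), (k2, k94, t2_94), (k2, k95, t2_95), (k2, k104, t2_104), (k2, k105,
  t2_105), (k2, k106, t2_106), (k2, k107, t2_107), (k2, k108, t2_108), (k2, k109, t2_109), (k2,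
  k110, t2_110), (k2, k111, t2_111), (k2, k124, t2_124), (k2, k125, t2_125), (k2, k126, t2_126),
  (k2, k127, t2_127), (k2, k168, t2_168), (k2, k169, t2_169), (k2, k171, t2_171), (k2, k172,
  t2_172), (k2, k173, t2_173), (k2, k174, t2_174), (k2, k175, t2_175), (k2, k188, t2_188), (k2,
  k189, t2_189), (k2, k190, t2_190), (k2, k191, t2_191), (k2, k252, t2_252), (k2, k253, t2_253),
  (k2, k254, t2_254), (k3, k5, t3_5), (k3, k6, t3_6), (k3, k7, t3_7), (k3, k9, t3_9), (k3, k10,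
  t3_10), (k3, k11, t3_11), (k3, k12, t3_12)]

theorem c2_87 : rootOK k2 k87 t2_87 = true := by decide +kernel

theorem c2_88 : rootOK k2 k88 t2_88 = true := by decide +kernel

theorem c2_89 : rootOK k2 k89 t2_89 = true := by decide +kernel

theorem c2_90 : rootOK k2 k90 t2_90 = true := by decide +kernel

theorem c2_91 : rootOK k2 k91 t2_91 = true := by decide +kernel

theorem c2_92 : rootOK k2 k92 t2_92 = true := by decide +kernel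

theorem c2_93 : rootOK k2 k93 t2_93 = true := by decide +kernel

theorem c2_94 : rootOK k2 k94 t2_94 = true := by decide +kernel

theorem c2_95 : rootOK k2 k95 t2_95 = true := by decide +kernel

theorem c2_104 : rootOK k2 k104 t2_104 = true := by decide +kernel

theorem c2_105 : rootOK k2 k105 t2_105 = true := by decide +kernel

theorem c2_106 : rootOK k2 k106 t2_106 = true := by decide +kernel

theorem c2_107 : rootOK k2 k107 t2_107 = true := by decide +kernel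

theorem c2_108 : rootOK k2 k108 t2_108 = true := by decide +kernel

theorem c2_109 : rootOK k2 k109 t2_109 = true := by decide +kernel

theorem c2_110 : rootOK k2 k110 t2_110 = true := by decide +kernel

theorem c2_111 : rootOK k2 k111 t2_111 = true := by decide +kernel

theorem c2_124 : rootOK k2 k124 t2_124 = true := by decide +kernel

theorem c2_125 : rootOK k2 k125 t2_125 = true := by decide +kernel

theorem c2_126 : rootOK k2 k126 t2_126 = true := by decide +kernel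

theorem c2_127 : rootOK k2 k127 t2_127 = true := by decide +kernel

theorem c2_168 : rootOK k2 k168 t2_168 = true := by decide +kernel

theorem c2_169 : rootOK k2 k169 t2_169 = true := by decide +kernel

theorem c2_171 : rootOK k2 k171 t2_171 = true := by decide +kernel

theorem c2_172 : rootOK k2 k172 t2_172 = true := by decide +kernel

theorem c2_173 : rootOK k2 k173 t2_173 = true := by decide +kernel

theorem c2_174 : rootOK k2 k174 t2_174 = true := by decide +kernel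

theorem c2_175 : rootOK k2 k175 t2_175 = true := by decide +kernel

theorem c2_188 : rootOK k2 k188 t2_188 = true := by decide +kernel

theorem c2_189 : rootOK k2 k189 t2_189 = true := by decide +kernel

theorem c2_190 : rootOK k2 k190 t2_190 = true := by decide +kernel

theorem c2_191 : rootOK k2 k191 t2_191 = true := by decide +kernel

theorem c2_252 : rootOK k2 k252 t2_252 = true := by decide +kernel

theorem c2_253 : rootOK k2 k253 t2_253 = true := by decide +kernel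

theorem c2_254 : rootOK k2 k254 t2_254 = true := by decide +kernel

theorem c3_5 : rootOK k3 k5 t3_5 = true := by decide +kernel

theorem c3_6 : rootOK k3 k6 t3_6 = true := by decide +kernel

theorem c3_7 : rootOK k3 k7 t3_7 = true := by decide +kernel

theorem c3_9 : rootOK k3 k9 t3_9 = true := by decide +kernel

theorem c3_10 : rootOK k3 k10 t3_10 = true := by decide +kernel

theorem c3_11 : rootOK k3 k11 t3_11 = true := by decide +kernel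

theorem c3_12 : rootOK k3 k12 t3_12 = true := by decide +kernel

theorem ok : certsOK certs = true :=
  certsOK_cons c2_87 (certsOK_cons c2_88 (certsOK_cons c2_89 (certsOK_cons c2_90 (
  certsOK_cons c2_91 (certsOK_cons c2_92 (certsOK_cons c2_93 (certsOK_cons c2_94 (
  certsOK_cons c2_95 (certsOK_cons c2_104 (certsOK_cons c2_105 (certsOK_cons c2_106 (
  certsOK_cons c2_107 (certsOK_cons c2_108 (certsOK_cons c2_109 (certsOK_cons c2_110 (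
  certsOK_cons c2_111 (certsOK_cons c2_124 (certsOK_cons c2_125 (certsOK_cons c2_126 (
  certsOK_cons c2_127 (certsOK_cons c2_168 (certsOK_cons c2_169 (certsOK_cons c2_171 (
  certsOK_cons c2_172 (certsOK_cons c2_173 (certsOK_cons c2_174 (certsOK_cons c2_175 (
  certsOK_cons c2_188 (certsOK_cons c2_189 (certsOK_cons c2_190 (certsOK_cons c2_191 (
  certsOK_cons c2_252 (certsOK_cons c2_253 (certsOK_cons c2_254 (certsOK_cons c3_5 (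
  certsOK_cons c3_6 (certsOK_cons c3_7 (certsOK_cons c3_9 (certsOK_cons c3_10 (
  certsOK_cons c3_11 (certsOK_cons c3_12 (certsOK_nil))))))))))))))))))))))))))))))))))))))))))

theorem sound (k : Nat) (hk : (bits certs).testBit k = true) : PI k :=
  certs_sound certs ok k hk

end Pool.Agent.TTT.A03
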