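import Pool.Agent.TTT.Sym

set_option autoImplicit false
set_option maxRecDepth 100000

namespace Pool.Agent.TTT.A04

def t3_13 : T TT 256 :=
  (.f k255 k170 14 (.q k102 [(.s k68 k119 4 (.s k204 k136 9 (.s k221 k238 4 (.d k153 k17 k51 9
  14))))] (.c k17 (.q k4 [(.s k12 k8 1 (.s k93 k174 12 (.s k166 k247 12 (.d k89 k81 k243 1 14)))),
  (.s k68 k119 4 (.s k166 k247 12 (.s k38 k230 7 (.s k55 k21 4 (.d k196 k132 k149 7 12))))), (.s k12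
  k8 1 (.s k68 k119 4 (.s k132 k196 7 (.s k72 k192 9 (.s k76 k64 1 (.d k204 k140 k136 7 9))))))] .n)
  (.c k51 (.f k119 k68 4 (.q k117 [(.s k101 k69 3 (.s k103 k100 0 (.s k71 k87 3 (.d k116 k118 k86 0
  4)))), (.s k48 k186 10 (.s k16 k32 3 (.s k154 k223 10 (.d k101 k69 k207 3 14))))] (.c k19 (.q k35
  [(.s k48 k186 10 (.s k16 k32 3 (.s k101 k69 3 (.d k154 k223 k207 10 14)))), (.s k48 k186 10 (.s
  k116 k118 0 (.s k169 k236 10 (.s k252 k184 9 (.d k253 k254 k1 0 13))))), (.s k101 k69 3 (.s k103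
  k100 0 (.s k71 k87 3 (.d k116 k118 k86 0 4))))] .n) (.c k35 (.q k19 [(.s k101 k69 3 (.s k103 k100
  0 (.s k71 k87 3 (.d k116 k118 k86 0 4)))), (.s k48 k186 10 (.s k16 k32 3 (.s k154 k223 10 (.d k101
  k69 k207 3 14))))] (.c k69 (.l (.s k48 k186 10 (.s k16 k32 3 (.s k17 k18 0 (.s k118 k116 0 (.s
  k153 k221 9 (.d k86 k70 k220 3 10))))))) (.c k101 (.l (.s k48 k186 10 (.s k118 k116 0 (.s k86 k70
  3 (.s k84 k87 0 (.s k220 k153 10 (.d k16 k32 k152 3 9))))))) .n))) (.c k69 (.l (.s k48 k186 10 (.s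
  k16 k32 3 (.s k116 k118 0 (.s k154 k223 10 (.s k101 k207 14 (.s k71 k86 4 (.d k103 k100 k87 0
  3)))))))) (.c k101 (.l (.s k118 k116 0 (.s k86 k70 3 (.s k84 k87 0 (.s k186 k48 10 (.s k252 k168
  13 (.d k254 k50 k253 9 0))))))) .n)))))) (.c k68 (.q k4 [(.s k12 k8 1 (.s k93 k174 12 (.s k89 k81
  1 (.d k166 k247 k243 12 14)))), (.s k166 k247 12 (.s k38 k230 7 (.s k21 k55 4 (.s k63 k42 6 (.s
  k127 k191 7 (.s k106 k64 6 (.d k149 k213 k192 7 14)))))))] (.c k166 (.f k12 k8 1 (.q k89 [(.d k93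
  k174 k81 12 1), (.s k76 k115 6 (.s k204 k140 7 (.s k153 k51 14 (.d k221 k238 k17 4 9))))] (.c k162
  (.l (.s k174 k93 12 (.s k76 k115 6 (.s k204 k140 7 (.s k153 k51 14 (.d k221 k238 k17 4 9)))))) (.c
  k174 (.q k162 [(.d k81 k93 k243 1 12), (.s k76 k115 6 (.s k204 k140 7 (.s k221 k238 4 (.d k153 k17
  k51 9 14))))] .n) .n)))) (.c k247 (.l (.s k12 k8 1 (.s k93 k174 12 (.s k89 k81 1 (.s k76 k115 6
  (.s k204 k140 7 (.s k153 k51 14 (.d k221 k238 k17 4 9)))))))) .n))) (.c k119 (.q k247 [(.s k166 k4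
  12 (.s k243 k251 1 (.s k81 k162 12 (.d k89 k93 k12 1 14)))), (.s k166 k4 12 (.s k230 k38 7 (.s
  k213 k196 4 (.s k192 k234 6 (.s k64 k128 7 (.s k106 k127 6 (.d k149 k21 k63 7 14)))))))] (.c k4
  (.l (.s k243 k251 1 (.s k81 k162 12 (.s k89 k93 1 (.s k115 k76 6 (.s k51 k179 7 (.s k17 k34 4 (.d
  k153 k221 k204 9 14)))))))) (.c k166 (.f k243 k251 1 (.q k89 [(.d k81 k162 k93 12 1), (.s k115 k76
  6 (.s k51 k179 7 (.s k17 k34 4 (.d k153 k221 k204 9 14))))] (.c k162 (.q k174 [(.d k93 k81 k12 1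
  12), (.s k115 k76 6 (.s k51 k179 7 (.s k17 k34 4 (.d k153 k221 k204 9 14))))] .n) (.c k174 (.l (.s
  k162 k81 12 (.s k115 k76 6 (.s k51 k179 7 (.s k17 k34 4 (.d k153 k221 k204 9 14)))))) .n)))) .n)))
  (.c k136 (.l (.s k119 k68 4 (.s k51 k187 9 (.s k153 k204 14 (.d k17 k34 k221 4 9))))) (.c k153 (.f
  k119 k68 4 (.q k247 [(.s k55 k183 7 (.s k149 k196 12 (.s k21 k213 7 (.d k4 k38 k166 4 12)))), (.s
  k243 k251 1 (.s k81 k162 12 (.s k89 k93 1 (.d k166 k4 k12 12 14))))] (.c k4 (.l (.s k183 k55 7 (.s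
  k187 k51 9 (.s k191 k179 1 (.s k63 k127 7 (.d k243 k251 k123 1 9)))))) (.c k136 (.l (.s k187 k51 9
  (.s k4 k166 12 (.s k55 k183 7 (.s k21 k38 4 (.d k149 k213 k196 7 12)))))) (.c k166 (.l (.s k55
  k183 7 (.s k149 k196 12 (.s k21 k213 7 (.s k63 k42 6 (.d k51 k59 k187 1 9)))))) (.c k187 (.q k136
  [(.s k166 k4 12 (.s k230 k38 7 (.s k196 k213 4 (.d k55 k183 k149 7 12)))), (.s k243 k251 1 (.s k81
  k162 12 (.s k89 k93 1 (.d k166 k4 k12 12 14))))] (.c k4 (.l (.s k183 k55 7 (.s k243 k251 1 (.s k81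
  k162 12 (.s k89 k93 1 (.s k115 k76 6 (.d k123 k127 k63 1 9))))))) (.c k166 (.l (.s k55 k183 7 (.s
  k149 k196 12 (.s k21 k213 7 (.s k63 k42 6 (.s k106 k192 14 (.d k127 k191 k64 7 6))))))) .n)))
  .n)))))) (.c k187 (.l (.s k68 k119 4 (.s k204 k136 9 (.s k153 k51 14 (.d k221 k238 k17 4 9)))))
  (.c k204 (.f k68 k119 4 (.q k89 [(.s k76 k115 6 (.s k64 k72 1 (.s k93 k81 1 (.d k127 k110 k106 4
  6)))), (.s k81 k93 1 (.s k243 k162 12 (.s k247 k251 1 (.d k166 k4 k12 12 14)))), (.s k76 k115 6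
  (.s k64 k72 1 (.s k192 k128 7 (.s k213 k234 6 (.s k149 k21 7 (.d k106 k127 k63 6 14))))))] (.c k70
  (.q k137 [(.s k76 k115 6 (.s k64 k72 1 (.s k93 k81 1 (.d k127 k110 k106 4 6)))), (.s k81 k93 1 (.s
  k243 k162 12 (.s k247 k251 1 (.d k166 k4 k12 12 14)))), (.s k76 k115 6 (.s k64 k72 1 (.s k192 k128
  7 (.s k213 k234 6 (.s k149 k21 7 (.d k106 k127 k63 6 14))))))] .n) (.c k137 (.q k70 [(.s k76 k115
  6 (.s k64 k72 1 (.s k93 k81 1 (.d k127 k110 k106 4 6)))), (.s k71 k69 0 (.s k86 k118 3 (.s k84 k87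
  0 (.d k116 k100 k101 3 4))))] .n) .n)))) (.c k221 (.q k4 [(.s k12 k8 1 (.s k93 k174 12 (.s k89 k81
  1 (.d k166 k247 k243 12 14)))), (.s k68 k119 4 (.s k166 k247 12 (.s k38 k230 7 (.s k55 k21 4 (.d
  k196 k132 k149 7 12))))), (.s k12 k8 1 (.s k68 k119 4 (.s k132 k196 7 (.s k72 k192 9 (.s k76 k64 1
  (.d k204 k140 k136 7 9))))))] .n) (.c k238 (.l (.s k119 k68 4 (.s k51 k187 9 (.s k17 k34 4 (.d
  k153 k221 k204 9 14))))) .n))))))))))))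

def t3_14 : T TT 256 :=
  (.f k255 k170 14 (.q k102 [(.s k68 k119 4 (.s k204 k136 9 (.s k221 k238 4 (.d k153 k17 k51 9
  14))))] (.c k17 (.q k4 [(.s k12 k8 1 (.s k166 k247 12 (.s k89 k243 14 (.d k93 k81 k174 1 12)))),
  (.s k68 k119 4 (.s k166 k247 12 (.s k38 k230 7 (.s k55 k21 4 (.d k196 k132 k149 7 12))))), (.s k12
  k8 1 (.s k68 k119 4 (.s k132 k196 7 (.s k72 k192 9 (.s k76 k64 1 (.d k204 k140 k136 7 9))))))] .n)
  (.c k51 (.f k68 k119 4 (.q k117 [(.s k48 k186 10 (.s k16 k32 3 (.s k101 k69 3 (.d k154 k223 k207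
  10 14)))), (.s k101 k69 3 (.s k100 k103 0 (.s k204 k136 9 (.d k48 k186 k152 10 13)))), (.s k48
  k186 10 (.s k32 k16 3 (.s k204 k136 9 (.s k100 k152 13 (.s k84 k116 3 (.d k168 k236 k252 9
  13))))))] (.c k19 (.q k35 [(.s k48 k186 10 (.s k16 k32 3 (.s k101 k69 3 (.d k154 k223 k207 10
  14)))), (.s k101 k69 3 (.s k100 k103 0 (.s k84 k116 3 (.s k236 k169 10 (.d k168 k252 k32 13
  9))))), (.s k48 k186 10 (.s k32 k16 3 (.s k204 k136 9 (.s k100 k152 13 (.d k236 k168 k169 9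
  10)))))] (.c k32 (.l (.s k48 k186 10 (.s k101 k69 3 (.s k100 k103 0 (.d k204 k136 k152 9 13)))))
  .n)) (.c k35 (.q k19 [(.s k48 k186 10 (.s k16 k32 3 (.s k101 k69 3 (.d k154 k223 k207 10 14)))),
  (.s k48 k186 10 (.s k32 k16 3 (.s k204 k136 9 (.s k100 k152 13 (.s k84 k116 3 (.d k168 k236 k252 9
  13)))))), (.s k101 k69 3 (.s k100 k103 0 (.s k204 k136 9 (.d k48 k186 k152 10 13)))), (.s k69 k101
  3 (.s k70 k71 0 (.s k86 k118 3 (.s k87 k84 0 (.s k223 k155 9 (.d k207 k239 k138 3 10))))))] .n)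
  (.c k48 (.l (.s k69 k101 3 (.s k204 k136 9 (.s k207 k138 10 (.s k205 k206 0 (.s k221 k238 4 (.s
  k253 k237 3 (.d k1 k137 k169 9 13)))))))) (.c k186 (.l (.s k101 k69 3 (.s k100 k103 0 (.s k204
  k136 9 (.s k48 k152 13 (.s k16 k32 3 (.d k154 k207 k223 14 10))))))) .n)))))) (.c k68 (.q k21 [(.s
  k63 k42 6 (.s k127 k191 7 (.s k149 k213 7 (.d k106 k64 k192 6 14)))), (.s k149 k213 7 (.s k55 k196
  12 (.s k4 k38 4 (.s k12 k8 1 (.s k93 k174 12 (.s k89 k81 1 (.d k166 k247 k243 12 14)))))))] (.c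
  k149 (.f k63 k42 6 (.q k106 [(.d k127 k191 k64 7 6), (.s k110 k98 1 (.s k204 k157 12 (.s k153 k51
  14 (.d k221 k238 k17 4 9))))] (.c k128 (.l (.s k191 k127 7 (.s k110 k98 1 (.s k204 k157 12 (.s
  k153 k51 14 (.d k221 k238 k17 4 9)))))) (.c k191 (.q k128 [(.d k64 k127 k192 6 7), (.s k110 k98 1
  (.s k204 k157 12 (.s k221 k238 4 (.d k153 k17 k51 9 14))))] .n) .n)))) (.c k213 (.l (.s k63 k42 6
  (.s k127 k191 7 (.s k106 k64 6 (.s k110 k98 1 (.s k204 k157 12 (.s k153 k51 14 (.d k221 k238 k17 4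
  9)))))))) .n))) (.c k119 (.q k213 [(.s k149 k21 7 (.s k192 k234 6 (.s k64 k128 7 (.d k106 k127 k63
  6 14)))), (.s k149 k21 7 (.s k196 k55 12 (.s k247 k230 4 (.s k243 k251 1 (.s k81 k162 12 (.s k89
  k93 1 (.d k166 k4 k12 12 14)))))))] (.c k21 (.l (.s k192 k234 6 (.s k64 k128 7 (.s k106 k127 6 (.s
  k98 k110 1 (.s k51 k145 12 (.s k17 k34 4 (.d k153 k221 k204 9 14)))))))) (.c k149 (.f k192 k234 6
  (.q k106 [(.d k64 k128 k127 7 6), (.s k98 k110 1 (.s k51 k145 12 (.s k17 k34 4 (.d k153 k221 k204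
  9 14))))] (.c k128 (.q k191 [(.d k127 k64 k63 6 7), (.s k98 k110 1 (.s k51 k145 12 (.s k17 k34 4
  (.d k153 k221 k204 9 14))))] .n) (.c k191 (.l (.s k128 k64 7 (.s k98 k110 1 (.s k51 k145 12 (.s
  k17 k34 4 (.d k153 k221 k204 9 14)))))) .n)))) .n))) (.c k136 (.l (.s k119 k68 4 (.s k51 k187 9
  (.s k153 k204 14 (.d k17 k34 k221 4 9))))) (.c k153 (.f k68 k119 4 (.q k4 [(.s k166 k247 12 (.s
  k38 k230 7 (.s k55 k21 4 (.d k196 k132 k149 7 12)))), (.s k12 k8 1 (.s k93 k174 12 (.s k89 k81 1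
  (.s k76 k115 6 (.d k204 k136 k140 9 7)))))] (.c k136 (.q k187 [(.s k166 k247 12 (.s k38 k230 7 (.s
  k55 k21 4 (.d k196 k132 k149 7 12)))), (.s k12 k8 1 (.s k93 k174 12 (.s k89 k81 1 (.s k76 k115 6
  (.s k127 k110 4 (.d k64 k72 k106 1 6))))))] (.c k166 (.l (.s k12 k8 1 (.s k132 k196 7 (.s k72 k192
  9 (.s k76 k64 1 (.s k89 k115 6 (.d k93 k81 k174 1 12))))))) .n)) (.c k166 (.l (.s k12 k8 1 (.s
  k132 k196 7 (.s k72 k192 9 (.s k76 k64 1 (.d k204 k140 k136 7 9)))))) (.c k187 (.l (.s k136 k204 9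
  (.s k12 k8 1 (.s k93 k174 12 (.s k89 k81 1 (.d k166 k247 k243 12 14)))))) .n))))) (.c k187 (.l (.s
  k68 k119 4 (.s k204 k136 9 (.s k153 k51 14 (.d k221 k238 k17 4 9))))) (.c k204 (.f k68 k119 4 (.q
  k149 [(.s k196 k55 12 (.s k4 k132 7 (.s k213 k21 7 (.d k247 k230 k166 4 12)))), (.s k21 k213 7 (.s
  k63 k42 6 (.s k127 k191 7 (.d k106 k64 k192 6 14)))), (.s k196 k55 12 (.s k4 k132 7 (.s k12 k8 1
  (.s k93 k174 12 (.s k89 k81 1 (.d k166 k247 k243 12 14))))))] (.c k70 (.q k137 [(.s k196 k55 12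
  (.s k4 k132 7 (.s k213 k21 7 (.d k247 k230 k166 4 12)))), (.s k21 k213 7 (.s k63 k42 6 (.s k127
  k191 7 (.d k106 k64 k192 6 14)))), (.s k196 k55 12 (.s k4 k132 7 (.s k12 k8 1 (.s k93 k174 12 (.s
  k89 k81 1 (.d k166 k247 k243 12 14))))))] .n) (.c k137 (.q k70 [(.s k21 k213 7 (.s k63 k42 6 (.s
  k127 k191 7 (.d k106 k64 k192 6 14)))), (.s k71 k69 0 (.s k86 k118 3 (.s k84 k87 0 (.d k116 k100
  k101 3 4))))] .n) .n)))) (.c k221 (.q k4 [(.s k12 k8 1 (.s k166 k247 12 (.s k89 k243 14 (.d k93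
  k81 k174 1 12)))), (.s k68 k119 4 (.s k166 k247 12 (.s k38 k230 7 (.s k55 k21 4 (.d k196 k132 k149
  7 12))))), (.s k12 k8 1 (.s k68 k119 4 (.s k132 k196 7 (.s k72 k192 9 (.s k76 k64 1 (.d k204 k140
  k136 7 9))))))] .n) (.c k238 (.l (.s k119 k68 4 (.s k51 k187 9 (.s k17 k34 4 (.d k153 k221 k204 9
  14))))) .n))))))))))))

def t3_20 : T TT 256 :=
  (.f k255 k170 14 (.q k102 [(.s k68 k119 4 (.s k204 k136 9 (.s k221 k238 4 (.d k153 k17 k51 9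
  14))))] (.c k17 (.q k4 [(.s k12 k8 1 (.s k93 k174 12 (.s k166 k247 12 (.d k89 k81 k243 1 14)))),
  (.s k68 k119 4 (.s k166 k247 12 (.s k38 k230 7 (.s k55 k21 4 (.d k196 k132 k149 7 12))))), (.s k12
  k8 1 (.s k68 k119 4 (.s k132 k196 7 (.s k72 k192 9 (.s k76 k64 1 (.d k204 k140 k136 7 9))))))] .n)
  (.c k51 (.f k68 k119 4 (.q k93 [(.s k12 k174 12 (.s k4 k8 1 (.s k89 k81 1 (.d k166 k247 k243 12
  14)))), (.s k89 k81 1 (.s k76 k115 6 (.s k64 k72 1 (.d k127 k110 k106 4 6)))), (.s k12 k174 12 (.s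
  k204 k136 9 (.s k76 k140 7 (.s k64 k72 1 (.d k127 k110 k106 4 6)))))] (.c k19 (.q k35 [(.s k12
  k174 12 (.s k4 k8 1 (.s k89 k81 1 (.d k166 k247 k243 12 14)))), (.s k89 k81 1 (.s k76 k115 6 (.s
  k64 k72 1 (.d k127 k110 k106 4 6)))), (.s k12 k174 12 (.s k204 k136 9 (.s k76 k140 7 (.s k64 k72 1
  (.d k127 k110 k106 4 6)))))] .n) (.c k35 (.q k19 [(.s k12 k174 12 (.s k4 k8 1 (.s k89 k81 1 (.d
  k166 k247 k243 12 14)))), (.s k89 k81 1 (.s k76 k115 6 (.s k64 k72 1 (.d k127 k110 k106 4 6)))),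
  (.s k12 k174 12 (.s k204 k136 9 (.s k76 k140 7 (.s k64 k72 1 (.d k127 k110 k106 4 6)))))] .n)
  .n)))) (.c k68 (.q k213 [(.s k192 k234 6 (.s k64 k128 7 (.s k106 k127 6 (.d k149 k21 k63 7 14)))),
  (.s k149 k21 7 (.s k196 k55 12 (.s k247 k230 4 (.s k243 k251 1 (.s k81 k162 12 (.s k89 k93 1 (.d
  k166 k4 k12 12 14)))))))] (.c k21 (.l (.s k192 k234 6 (.s k64 k128 7 (.s k106 k127 6 (.s k98 k110
  1 (.s k51 k145 12 (.s k17 k34 4 (.d k153 k221 k204 9 14)))))))) (.c k149 (.f k192 k234 6 (.q k106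
  [(.d k64 k128 k127 7 6), (.s k98 k110 1 (.s k51 k145 12 (.s k17 k34 4 (.d k153 k221 k204 9 14))))]
  (.c k128 (.q k191 [(.d k127 k64 k63 6 7), (.s k98 k110 1 (.s k51 k145 12 (.s k17 k34 4 (.d k153
  k221 k204 9 14))))] .n) (.c k191 (.l (.s k128 k64 7 (.s k98 k110 1 (.s k51 k145 12 (.s k17 k34 4
  (.d k153 k221 k204 9 14)))))) .n)))) .n))) (.c k119 (.q k93 [(.s k12 k174 12 (.s k4 k8 1 (.s k89
  k81 1 (.d k166 k247 k243 12 14)))), (.s k89 k81 1 (.s k76 k115 6 (.s k127 k110 4 (.s k63 k191 7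
  (.s k21 k42 6 (.s k149 k213 7 (.d k106 k64 k192 6 14)))))))] (.c k81 (.l (.s k12 k174 12 (.s k4 k8
  1 (.s k166 k247 12 (.s k38 k230 7 (.s k51 k25 6 (.s k17 k34 4 (.d k153 k221 k204 9 14)))))))) (.c
  k89 (.f k12 k174 12 (.q k166 [(.d k4 k8 k247 1 12), (.s k38 k230 7 (.s k51 k25 6 (.s k17 k34 4 (.d
  k153 k221 k204 9 14))))] (.c k8 (.q k251 [(.d k247 k243 k4 1 12), (.s k38 k230 7 (.s k51 k25 6 (.s
  k17 k34 4 (.d k153 k221 k204 9 14))))] .n) (.c k251 (.l (.s k8 k4 1 (.s k38 k230 7 (.s k51 k25 6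
  (.s k17 k34 4 (.d k153 k221 k204 9 14)))))) .n)))) .n))) (.c k136 (.l (.s k119 k68 4 (.s k51 k187
  9 (.s k153 k204 14 (.d k17 k34 k221 4 9))))) (.c k153 (.f k119 k68 4 (.q k117 [(.s k101 k69 3 (.s
  k103 k100 0 (.s k71 k87 3 (.d k116 k118 k86 0 4)))), (.s k48 k186 10 (.s k16 k32 3 (.s k154 k223
  10 (.s k50 k206 13 (.d k51 k187 k49 9 0)))))] (.c k101 (.l (.s k118 k116 0 (.s k86 k70 3 (.s k84
  k87 0 (.s k252 k168 13 (.d k51 k187 k185 9 10)))))) (.c k136 (.l (.s k187 k51 9 (.s k48 k186 10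
  (.s k16 k32 3 (.s k101 k69 3 (.d k154 k223 k207 10 14)))))) (.c k187 (.q k136 [(.s k101 k69 3 (.s
  k103 k100 0 (.s k71 k87 3 (.d k116 k118 k86 0 4)))), (.s k48 k186 10 (.s k16 k32 3 (.s k154 k223
  10 (.d k101 k69 k207 3 14)))), (.s k118 k116 0 (.s k186 k48 10 (.s k254 k50 9 (.s k252 k253 0 (.s
  k84 k168 13 (.d k86 k87 k70 0 3))))))] .n) .n))))) (.c k187 (.l (.s k68 k119 4 (.s k204 k136 9 (.s
  k153 k51 14 (.d k221 k238 k17 4 9))))) (.c k204 (.f k68 k119 4 (.q k4 [(.s k12 k8 1 (.s k93 k174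
  12 (.s k89 k81 1 (.d k166 k247 k243 12 14)))), (.s k196 k132 7 (.s k149 k55 12 (.s k21 k213 7 (.s
  k63 k42 6 (.s k106 k192 14 (.d k127 k64 k191 6 7))))))] (.c k12 (.l (.s k166 k247 12 (.s k38 k230
  7 (.s k55 k21 4 (.d k196 k132 k149 7 12))))) (.c k70 (.q k137 [(.s k12 k8 1 (.s k93 k174 12 (.s
  k89 k81 1 (.d k166 k247 k243 12 14)))), (.s k196 k132 7 (.s k149 k55 12 (.s k21 k213 7 (.s k63 k42
  6 (.s k106 k192 14 (.d k127 k64 k191 6 7))))))] (.c k12 (.l (.s k166 k247 12 (.s k38 k230 7 (.s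
  k55 k21 4 (.d k196 k132 k149 7 12))))) (.c k247 (.l (.s k12 k8 1 (.s k93 k174 12 (.s k89 k81 1 (.s
  k76 k115 6 (.s k64 k72 1 (.d k127 k110 k106 4 6))))))) .n))) (.c k137 (.q k70 [(.s k12 k8 1 (.s
  k93 k174 12 (.s k89 k81 1 (.d k166 k247 k243 12 14)))), (.s k71 k69 0 (.s k86 k118 3 (.s k84 k87 0
  (.d k116 k100 k101 3 4))))] .n) (.c k247 (.l (.s k12 k8 1 (.s k93 k174 12 (.s k89 k81 1 (.s k76
  k115 6 (.s k64 k72 1 (.d k127 k110 k106 4 6))))))) .n)))))) (.c k221 (.q k4 [(.s k12 k8 1 (.s k93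
  k174 12 (.s k89 k81 1 (.d k166 k247 k243 12 14)))), (.s k68 k119 4 (.s k166 k247 12 (.s k38 k230 7
  (.s k55 k21 4 (.d k196 k132 k149 7 12))))), (.s k12 k8 1 (.s k68 k119 4 (.s k132 k196 7 (.s k72
  k192 9 (.s k76 k64 1 (.d k204 k140 k136 7 9))))))] .n) (.c k238 (.l (.s k119 k68 4 (.s k51 k187 9
  (.s k17 k34 4 (.d k153 k221 k204 9 14))))) .n))))))))))))

def t3_22 : T TT 256 :=
  (.q k60 [(.s k20 k40 5 (.s k150 k215 8 (.s k105 k195 14 (.s k125 k65 5 (.d k255 k190 k170 8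
  14))))), (.s k20 k40 5 (.s k150 k215 8 (.s k170 k255 14 (.s k130 k190 5 (.d k195 k65 k105 8
  14)))))] (.c k20 (.q k21 [(.s k149 k213 7 (.s k170 k255 14 (.s k128 k191 6 (.s k192 k64 7 (.d k63
  k42 k106 6 14))))), (.s k149 k213 7 (.s k255 k170 14 (.s k125 k190 8 (.s k105 k65 5 (.s k61 k193
  13 (.s k1 k41 5 (.d k253 k189 k169 7 13))))))), (.s k63 k42 6 (.s k62 k61 0 (.s k255 k170 14 (.s
  k190 k125 8 (.s k126 k254 7 (.s k189 k252 8 (.d k191 k188 k127 0 7)))))))] (.c k170 (.l (.s k63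
  k42 6 (.s k62 k61 0 (.s k149 k213 7 (.s k106 k192 14 (.s k150 k194 13 (.s k151 k148 0 (.d k195
  k107 k105 13 14)))))))) (.c k255 (.l (.s k63 k42 6 (.s k149 k213 7 (.s k192 k106 14 (.s k148 k104
  13 (.s k150 k151 0 (.s k105 k195 14 (.d k61 k62 k193 0 13)))))))) .n))) (.c k40 (.q k12 [(.s k8 k4
  1 (.s k170 k255 14 (.s k89 k251 12 (.s k81 k93 1 (.d k243 k162 k166 12 14))))), (.s k44 k28 3 (.s
  k255 k170 14 (.s k174 k93 12 (.s k109 k239 8 (.s k158 k207 12 (.d k190 k142 k125 3 8)))))), (.s k4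
  k8 1 (.s k44 k28 3 (.s k166 k247 12 (.s k105 k227 10 (.s k65 k125 5 (.d k195 k130 k150 8 14))))))]
  .n) (.c k65 (.q k4 [(.s k12 k8 1 (.s k20 k40 5 (.s k28 k44 3 (.s k24 k16 1 (.d k36 k52 k48 3
  5))))), (.s k12 k8 1 (.s k166 k247 12 (.s k89 k243 14 (.s k93 k81 1 (.d k255 k174 k170 12 14))))),
  (.s k20 k40 5 (.s k52 k36 3 (.s k150 k215 8 (.s k101 k199 12 (.s k117 k69 3 (.d k247 k182 k166 8
  12))))))] .n) (.c k105 (.q k4 [(.s k12 k8 1 (.s k166 k247 12 (.s k89 k243 14 (.s k93 k81 1 (.d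
  k255 k174 k170 12 14))))), (.s k20 k40 5 (.s k52 k36 3 (.s k150 k215 8 (.s k101 k199 12 (.s k117
  k69 3 (.d k247 k182 k166 8 12)))))), (.s k12 k8 1 (.s k20 k40 5 (.s k36 k52 3 (.s k24 k48 5 (.d
  k28 k16 k44 1 3)))))] (.c k170 (.l (.s k12 k8 1 (.s k28 k44 3 (.s k166 k247 12 (.s k89 k243 14 (.s
  k150 k211 10 (.d k20 k40 k215 5 8))))))) .n)) (.c k150 (.f k255 k170 14 (.f k190 k125 8 (.q k252
  [(.s k188 k124 7 (.s k189 k191 0 (.s k254 k253 0 (.d k126 k62 k63 7 8)))), (.s k20 k40 5 (.s k84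
  k168 13 (.s k124 k188 7 (.s k104 k64 5 (.d k148 k212 k192 7 13))))), (.s k84 k168 13 (.s k86 k87 0
  (.s k254 k253 0 (.s k126 k62 7 (.s k106 k66 5 (.s k127 k64 6 (.d k63 k189 k191 8 7)))))))] (.c k86
  (.q k214 [(.s k188 k124 7 (.s k189 k191 0 (.s k254 k253 0 (.d k126 k62 k63 7 8)))), (.s k84 k168
  13 (.s k195 k233 6 (.s k215 k235 5 (.s k212 k213 0 (.d k20 k40 k148 5 7)))))] (.c k2 (.l (.s k254
  k253 0 (.s k188 k124 7 (.s k189 k191 0 (.d k126 k62 k63 7 8))))) (.c k105 (.l (.s k254 k253 0 (.s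
  k126 k62 7 (.s k189 k63 8 (.d k188 k191 k124 0 7))))) (.c k253 (.l (.s k20 k40 5 (.s k84 k168 13
  (.s k124 k188 7 (.s k104 k64 5 (.d k148 k212 k192 7 13)))))) (.c k254 (.q k2 [(.s k40 k20 5 (.s
  k168 k84 13 (.s k104 k232 7 (.s k148 k192 13 (.d k188 k128 k124 5 7))))), (.s k195 k233 6 (.s k130
  k65 8 (.s k194 k66 7 (.s k192 k193 0 (.s k212 k232 5 (.d k213 k234 k215 6 0)))))), (.s k168 k84 13
  (.s k188 k124 7 (.s k191 k189 0 (.s k127 k63 7 (.s k64 k106 6 (.d k128 k192 k148 7 5)))))), (.s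
  k20 k40 5 (.s k84 k168 13 (.s k195 k233 6 (.s k212 k148 7 (.d k215 k235 k213 5 0)))))] .n) .n)))))
  (.c k214 (.q k86 [(.d k84 k87 k168 0 13), (.s k188 k124 7 (.s k189 k191 0 (.s k126 k63 8 (.d k254
  k253 k62 0 7))))] .n) .n))))) (.c k170 (.q k4 [(.s k12 k8 1 (.s k20 k40 5 (.s k28 k44 3 (.s k24
  k16 1 (.d k36 k52 k48 3 5))))), (.s k12 k8 1 (.s k44 k28 3 (.s k166 k247 12 (.s k105 k227 10 (.s
  k65 k125 5 (.d k195 k130 k150 8 14)))))), (.s k20 k40 5 (.s k52 k36 3 (.s k150 k215 8 (.s k101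
  k199 12 (.s k117 k69 3 (.d k247 k182 k166 8 12))))))] (.c k44 (.l (.s k12 k8 1 (.s k20 k40 5 (.s
  k150 k215 8 (.s k166 k247 12 (.s k134 k182 3 (.d k195 k105 k73 14 10))))))) (.c k105 (.l (.s k12
  k8 1 (.s k28 k44 3 (.s k166 k247 12 (.s k89 k243 14 (.s k150 k211 10 (.d k20 k40 k215 5 8)))))))
  .n))) (.c k190 (.l (.s k40 k20 5 (.s k170 k255 14 (.s k105 k235 8 (.s k65 k125 5 (.d k195 k130
  k150 8 14)))))) (.c k195 (.f k40 k20 5 (.f k255 k170 14 (.q k21 [(.s k63 k42 6 (.s k127 k191 7 (.s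
  k106 k64 6 (.d k149 k213 k192 7 14)))), (.s k125 k190 8 (.s k105 k65 5 (.s k149 k213 7 (.s k61
  k193 13 (.s k1 k41 5 (.d k253 k189 k169 7 13)))))), (.s k63 k42 6 (.s k62 k61 0 (.s k190 k125 8
  (.s k126 k254 7 (.s k189 k252 8 (.d k191 k188 k127 0 7))))))] (.c k67 (.q k131 [(.s k63 k42 6 (.s
  k127 k191 7 (.s k149 k213 7 (.d k106 k64 k192 6 14)))), (.s k125 k190 8 (.s k105 k65 5 (.s k149
  k213 7 (.s k61 k193 13 (.s k1 k41 5 (.d k253 k189 k169 7 13)))))), (.s k63 k42 6 (.s k62 k61 0 (.s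
  k190 k125 8 (.s k126 k254 7 (.s k189 k252 8 (.d k191 k188 k127 0 7))))))] .n) (.c k131 (.q k67
  [(.s k63 k42 6 (.s k127 k191 7 (.s k106 k64 6 (.d k149 k213 k192 7 14)))), (.s k125 k190 8 (.s k65
  k105 5 (.s k64 k66 0 (.s k192 k128 7 (.d k213 k149 k234 7 6))))), (.s k63 k42 6 (.s k125 k190 8
  (.s k105 k65 5 (.s k124 k86 6 (.d k127 k126 k191 0 7)))))] (.c k191 (.l (.s k63 k42 6 (.s k125
  k190 8 (.s k105 k65 5 (.s k149 k213 7 (.d k61 k62 k193 0 13)))))) (.c k234 (.l (.s k149 k213 7 (.s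
  k63 k42 6 (.s k106 k192 14 (.d k127 k64 k191 6 7))))) .n))) .n))))) (.c k215 (.l (.s k40 k20 5 (.s
  k170 k255 14 (.s k105 k235 8 (.s k195 k150 14 (.d k65 k125 k130 5 8)))))) (.c k235 (.l (.s k20 k40
  5 (.s k150 k215 8 (.s k105 k195 14 (.s k255 k170 14 (.d k125 k65 k190 5 8)))))) (.c k255 (.f k20
  k40 5 (.q k4 [(.s k12 k8 1 (.s k28 k44 3 (.s k24 k16 1 (.d k36 k52 k48 3 5)))), (.s k52 k36 3 (.s
  k150 k215 8 (.s k101 k199 12 (.s k117 k69 3 (.d k247 k182 k166 8 12))))), (.s k12 k8 1 (.s k150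
  k215 8 (.s k166 k247 12 (.s k134 k182 3 (.d k195 k73 k105 10 14)))))] (.c k52 (.l (.s k12 k8 1 (.s
  k28 k44 3 (.s k150 k215 8 (.s k89 k211 10 (.d k166 k247 k243 12 14)))))) (.c k87 (.q k171 [(.s k12
  k8 1 (.s k28 k44 3 (.s k24 k16 1 (.d k36 k52 k48 3 5)))), (.s k52 k36 3 (.s k150 k215 8 (.s k101
  k199 12 (.s k117 k69 3 (.d k247 k182 k166 8 12))))), (.s k12 k8 1 (.s k150 k215 8 (.s k166 k247 12
  (.s k134 k182 3 (.d k195 k73 k105 10 14)))))] (.c k52 (.l (.s k12 k8 1 (.s k28 k44 3 (.s k150 k215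
  8 (.s k89 k211 10 (.d k166 k247 k243 12 14)))))) .n)) (.c k171 (.q k87 [(.s k12 k8 1 (.s k28 k44 3
  (.s k24 k16 1 (.d k36 k52 k48 3 5)))), (.s k52 k36 3 (.s k150 k215 8 (.s k101 k199 12 (.s k117 k69
  3 (.d k247 k182 k166 8 12))))), (.s k12 k8 1 (.s k150 k215 8 (.s k166 k247 12 (.s k134 k182 3 (.d
  k195 k73 k105 10 14)))))] (.c k52 (.l (.s k12 k8 1 (.s k28 k44 3 (.s k150 k215 8 (.s k89 k211 10
  (.d k166 k247 k243 12 14)))))) .n)) .n))))) .n))))))))))))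

def t3_23 : T TT 256 :=
  (.q k63 [(.s k21 k42 6 (.s k149 k213 7 (.s k106 k192 14 (.s k127 k64 6 (.d k255 k191 k170 7
  14))))), (.s k21 k42 6 (.s k149 k213 7 (.s k170 k255 14 (.s k128 k191 6 (.d k192 k64 k106 7
  14)))))] (.c k21 (.f k255 k170 14 (.q k20 [(.s k60 k40 5 (.s k125 k190 8 (.s k105 k65 5 (.d k150
  k215 k195 8 14)))), (.s k127 k191 7 (.s k106 k64 6 (.s k150 k215 8 (.s k62 k194 13 (.d k60 k61 k40
  0 5))))), (.s k60 k40 5 (.s k62 k61 0 (.s k190 k125 8 (.s k126 k254 7 (.s k189 k252 8 (.d k191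
  k188 k127 0 7))))))] (.c k40 (.l (.s k127 k191 7 (.s k106 k64 6 (.s k150 k215 8 (.s k62 k194 13
  (.s k60 k61 0 (.s k105 k195 14 (.d k125 k65 k190 5 8)))))))) (.c k60 (.l (.s k127 k191 7 (.s k64
  k106 6 (.s k215 k150 8 (.s k195 k235 5 (.s k107 k151 13 (.s k67 k87 5 (.d k65 k130 k66 8 0))))))))
  .n)))) (.c k42 (.q k12 [(.s k8 k4 1 (.s k170 k255 14 (.s k89 k251 12 (.s k81 k93 1 (.d k243 k162
  k166 12 14))))), (.s k46 k29 4 (.s k255 k170 14 (.s k174 k93 12 (.s k110 k238 7 (.s k157 k204 12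
  (.d k191 k140 k127 4 7)))))), (.s k4 k8 1 (.s k46 k29 4 (.s k166 k247 12 (.s k106 k226 9 (.s k64
  k127 6 (.d k192 k128 k149 7 14))))))] .n) (.c k64 (.q k1 [(.s k21 k42 6 (.s k149 k213 7 (.s k169
  k253 13 (.s k129 k189 5 (.s k193 k65 7 (.d k61 k41 k105 5 13)))))), (.s k253 k169 13 (.s k255 k170
  14 (.s k191 k127 7 (.s k252 k254 0 (.s k189 k126 8 (.s k125 k61 7 (.d k190 k188 k60 0 8))))))),
  (.s k21 k42 6 (.s k61 k41 5 (.s k60 k62 0 (.s k40 k20 5 (.s k149 k213 7 (.s k170 k255 14 (.d k105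
  k235 k193 8 13)))))))] (.c k61 (.l (.s k21 k42 6 (.s k149 k213 7 (.s k169 k253 13 (.s k170 k255 14
  (.s k189 k129 5 (.s k252 k126 8 (.d k168 k171 k84 0 13)))))))) .n)) (.c k106 (.q k4 [(.s k12 k8 1
  (.s k166 k247 12 (.s k89 k243 14 (.s k93 k81 1 (.d k255 k174 k170 12 14))))), (.s k21 k42 6 (.s
  k55 k38 4 (.s k149 k213 7 (.s k102 k196 12 (.s k119 k68 4 (.d k247 k183 k166 7 12)))))), (.s k12
  k8 1 (.s k21 k42 6 (.s k38 k55 4 (.s k25 k51 6 (.d k29 k17 k46 1 4)))))] (.c k170 (.l (.s k12 k8 1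
  (.s k29 k46 4 (.s k166 k247 12 (.s k89 k243 14 (.s k149 k209 9 (.d k21 k42 k213 6 7))))))) .n))
  (.c k149 (.f k21 k42 6 (.q k4 [(.s k12 k8 1 (.s k29 k46 4 (.s k25 k17 1 (.d k38 k55 k51 4 6)))),
  (.s k55 k38 4 (.s k247 k166 12 (.s k183 k119 7 (.s k243 k123 9 (.d k255 k251 k170 1 14))))), (.s
  k12 k8 1 (.s k166 k247 12 (.s k89 k243 14 (.s k93 k81 1 (.d k255 k174 k170 12 14)))))] (.c k86 (.q
  k212 [(.s k12 k8 1 (.s k29 k46 4 (.s k25 k17 1 (.d k38 k55 k51 4 6)))), (.s k55 k38 4 (.s k247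
  k166 12 (.s k183 k119 7 (.s k243 k123 9 (.d k255 k251 k170 1 14))))), (.s k12 k8 1 (.s k166 k247
  12 (.s k89 k243 14 (.s k93 k81 1 (.d k255 k174 k170 12 14)))))] (.c k169 (.q k252 [(.s k12 k8 1
  (.s k29 k46 4 (.s k25 k17 1 (.d k38 k55 k51 4 6)))), (.s k12 k8 1 (.s k84 k168 13 (.s k92 k172 11
  (.s k88 k80 1 (.d k164 k244 k240 11 13))))), (.s k55 k38 4 (.s k84 k168 13 (.s k244 k164 11 (.s
  k118 k181 8 (.d k51 k59 k185 1 10)))))] (.c k59 (.l (.s k38 k55 4 (.s k12 k8 1 (.s k25 k51 6 (.d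
  k29 k17 k46 1 4))))) (.c k129 (.l (.s k189 k126 8 (.s k12 k8 1 (.s k29 k46 4 (.s k25 k17 1 (.d k38
  k55 k51 4 6)))))) (.c k189 (.q k129 [(.s k12 k8 1 (.s k29 k46 4 (.s k25 k17 1 (.d k38 k55 k51 4
  6)))), (.s k12 k8 1 (.s k84 k168 13 (.s k92 k172 11 (.s k88 k80 1 (.d k164 k244 k240 11 13))))),
  (.s k55 k38 4 (.s k84 k168 13 (.s k244 k164 11 (.s k118 k181 8 (.d k51 k185 k59 10 1)))))] (.c k59
  (.l (.s k38 k55 4 (.s k12 k8 1 (.s k25 k51 6 (.d k29 k17 k46 1 4))))) .n)) .n)))) (.c k252 (.q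
  k169 [(.s k12 k8 1 (.s k29 k46 4 (.s k25 k17 1 (.d k38 k55 k51 4 6)))), (.s k55 k38 4 (.s k247
  k166 12 (.s k183 k119 7 (.s k243 k123 9 (.d k255 k251 k170 1 14))))), (.s k12 k8 1 (.s k166 k247
  12 (.s k89 k243 14 (.s k93 k81 1 (.d k255 k174 k170 12 14)))))] .n) .n))) (.c k212 (.q k86 [(.s
  k12 k8 1 (.s k29 k46 4 (.s k25 k17 1 (.d k38 k55 k51 4 6)))), (.s k55 k38 4 (.s k247 k166 12 (.s
  k183 k119 7 (.s k243 k123 9 (.d k255 k251 k170 1 14))))), (.s k12 k8 1 (.s k166 k247 12 (.s k89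
  k243 14 (.s k93 k81 1 (.d k255 k174 k170 12 14)))))] .n) .n)))) (.c k170 (.q k4 [(.s k12 k8 1 (.s
  k46 k29 4 (.s k166 k247 12 (.s k106 k226 9 (.s k64 k127 6 (.d k192 k128 k149 7 14)))))), (.s k21
  k42 6 (.s k55 k38 4 (.s k149 k213 7 (.s k102 k196 12 (.s k119 k68 4 (.d k247 k183 k166 7 12)))))),
  (.s k12 k8 1 (.s k21 k42 6 (.s k29 k46 4 (.s k25 k17 1 (.d k38 k55 k51 4 6)))))] (.c k46 (.l (.s
  k12 k8 1 (.s k21 k42 6 (.s k149 k213 7 (.s k166 k247 12 (.s k132 k183 4 (.d k192 k106 k72 14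
  9))))))) (.c k106 (.l (.s k12 k8 1 (.s k29 k46 4 (.s k166 k247 12 (.s k89 k243 14 (.s k149 k209 9
  (.d k21 k42 k213 6 7))))))) .n))) (.c k191 (.l (.s k42 k21 6 (.s k170 k255 14 (.s k106 k234 7 (.s
  k64 k127 6 (.d k192 k128 k149 7 14)))))) (.c k192 (.f k255 k170 14 (.f k42 k21 6 (.q k20 [(.s k60
  k40 5 (.s k125 k190 8 (.s k105 k65 5 (.d k150 k215 k195 8 14)))), (.s k127 k191 7 (.s k106 k64 6
  (.s k150 k215 8 (.s k62 k194 13 (.d k60 k61 k40 0 5))))), (.s k60 k40 5 (.s k62 k61 0 (.s k190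
  k125 8 (.s k126 k254 7 (.s k189 k252 8 (.d k191 k188 k127 0 7))))))] (.c k40 (.l (.s k127 k191 7
  (.s k106 k64 6 (.s k150 k215 8 (.s k62 k194 13 (.s k60 k61 0 (.s k125 k190 8 (.d k105 k195 k65 14
  5)))))))) (.c k60 (.l (.s k127 k191 7 (.s k64 k106 6 (.s k215 k150 8 (.s k195 k235 5 (.s k107 k151
  13 (.s k67 k87 5 (.d k65 k130 k66 8 0)))))))) (.c k66 (.q k129 [(.s k60 k40 5 (.s k125 k190 8 (.s
  k105 k65 5 (.d k150 k215 k195 8 14)))), (.s k60 k40 5 (.s k62 k61 0 (.s k190 k125 8 (.s k126 k254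
  7 (.s k189 k252 8 (.d k191 k188 k127 0 7)))))), (.s k127 k191 7 (.s k106 k64 6 (.s k150 k215 8 (.s
  k62 k194 13 (.d k60 k61 k40 0 5)))))] (.c k40 (.l (.s k127 k191 7 (.s k106 k64 6 (.s k150 k215 8
  (.s k62 k194 13 (.s k60 k61 0 (.s k125 k190 8 (.d k105 k65 k195 5 14)))))))) (.c k60 (.l (.s k191
  k127 7 (.s k215 k150 8 (.s k195 k235 5 (.s k130 k65 8 (.s k131 k128 0 (.d k151 k171 k107 5
  13))))))) .n))) (.c k129 (.q k66 [(.s k60 k40 5 (.s k125 k190 8 (.s k105 k65 5 (.d k150 k215 k195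
  8 14)))), (.s k127 k191 7 (.s k64 k106 6 (.s k65 k67 0 (.s k195 k130 8 (.d k215 k150 k235 8
  5))))), (.s k60 k40 5 (.s k62 k61 0 (.s k2 k22 5 (.s k150 k215 8 (.d k194 k130 k106 7 13))))), (.s
  k60 k40 5 (.s k127 k191 7 (.s k64 k106 6 (.s k65 k67 0 (.d k125 k105 k190 5 8)))))] (.c k235 (.l
  (.s k150 k215 8 (.s k60 k40 5 (.s k105 k195 14 (.d k125 k65 k190 5 8))))) .n)) .n))))))) (.c k213
  (.l (.s k42 k21 6 (.s k170 k255 14 (.s k106 k234 7 (.s k192 k149 14 (.d k64 k127 k128 6 7))))))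
  (.c k234 (.l (.s k21 k42 6 (.s k149 k213 7 (.s k106 k192 14 (.s k255 k170 14 (.d k127 k64 k191 6
  7)))))) (.c k255 (.q k51 [(.s k17 k34 4 (.s k21 k42 6 (.s k25 k29 1 (.s k55 k59 1 (.d k38 k4 k12 4
  6))))), (.s k17 k34 4 (.s k59 k55 1 (.s k153 k221 9 (.s k106 k200 12 (.s k64 k127 6 (.d k192 k128
  k149 7 14)))))), (.s k21 k42 6 (.s k55 k59 1 (.s k149 k213 7 (.s k102 k196 12 (.s k68 k119 4 (.d
  k204 k136 k153 9 14)))))), (.s k17 k34 4 (.s k21 k42 6 (.s k149 k213 7 (.s k153 k221 9 (.s k145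
  k157 1 (.d k192 k98 k106 12 14))))))] (.c k87 (.q k171 [(.s k17 k34 4 (.s k21 k42 6 (.s k25 k29 1
  (.s k55 k59 1 (.d k38 k4 k12 4 6))))), (.s k17 k34 4 (.s k59 k55 1 (.s k153 k221 9 (.s k106 k200
  12 (.s k64 k127 6 (.d k192 k128 k149 7 14)))))), (.s k21 k42 6 (.s k55 k59 1 (.s k149 k213 7 (.s
  k102 k196 12 (.s k68 k119 4 (.d k204 k136 k153 9 14)))))), (.s k17 k34 4 (.s k21 k42 6 (.s k149
  k213 7 (.s k153 k221 9 (.s k145 k157 1 (.d k192 k98 k106 12 14))))))] (.c k151 (.q k215 [(.s k17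
  k34 4 (.s k21 k42 6 (.s k25 k29 1 (.s k55 k59 1 (.d k38 k4 k12 4 6))))), (.s k17 k34 4 (.s k59 k55
  1 (.s k153 k221 9 (.s k106 k200 12 (.s k64 k127 6 (.d k192 k128 k149 7 14)))))), (.s k21 k42 6 (.s
  k55 k59 1 (.s k149 k213 7 (.s k102 k196 12 (.s k68 k119 4 (.d k204 k136 k153 9 14)))))), (.s k17
  k34 4 (.s k21 k42 6 (.s k149 k213 7 (.s k153 k221 9 (.s k145 k157 1 (.d k192 k98 k106 12 14))))))]
  .n) (.c k215 (.q k151 [(.s k17 k34 4 (.s k21 k42 6 (.s k25 k29 1 (.s k55 k59 1 (.d k38 k4 k12 4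
  6))))), (.s k21 k42 6 (.s k149 k213 7 (.s k191 k131 5 (.s k128 k170 6 (.d k192 k106 k64 14 7))))),
  (.s k55 k59 1 (.s k103 k199 11 (.s k155 k207 13 (.s k147 k159 1 (.d k195 k99 k107 11 13)))))] (.c
  k195 (.q k235 [(.s k17 k34 4 (.s k21 k42 6 (.s k25 k29 1 (.s k55 k59 1 (.d k38 k4 k12 4 6))))),
  (.s k21 k42 6 (.s k149 k213 7 (.s k192 k106 14 (.s k128 k64 7 (.d k191 k131 k170 5 6))))), (.s k55
  k59 1 (.s k103 k199 11 (.s k107 k43 7 (.s k111 k99 1 (.d k207 k159 k155 11 13)))))] (.c k67 (.l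
  (.s k131 k191 5 (.s k17 k34 4 (.s k21 k42 6 (.s k25 k29 1 (.s k38 k12 6 (.d k55 k59 k4 1 4)))))))
  (.c k131 (.q k67 [(.s k17 k34 4 (.s k21 k42 6 (.s k25 k29 1 (.s k55 k59 1 (.d k38 k4 k12 4 6))))),
  (.s k55 k59 1 (.s k103 k199 11 (.s k107 k43 7 (.s k111 k99 1 (.d k207 k159 k155 11 13))))), (.s
  k17 k34 4 (.s k21 k42 6 (.s k149 k213 7 (.s k153 k221 9 (.s k145 k157 1 (.d k192 k98 k106 12
  14))))))] .n) .n))) (.c k235 (.l (.s k195 k107 13 (.s k55 k59 1 (.s k103 k199 11 (.s k147 k99 11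
  (.d k155 k159 k207 1 13)))))) .n))) .n))) (.c k171 (.q k87 [(.s k17 k34 4 (.s k21 k42 6 (.s k25
  k29 1 (.s k55 k59 1 (.d k38 k4 k12 4 6))))), (.s k17 k34 4 (.s k59 k55 1 (.s k153 k221 9 (.s k106
  k200 12 (.s k64 k127 6 (.d k192 k128 k149 7 14)))))), (.s k21 k42 6 (.s k55 k59 1 (.s k149 k213 7
  (.s k102 k196 12 (.s k68 k119 4 (.d k204 k136 k153 9 14)))))), (.s k17 k34 4 (.s k21 k42 6 (.s
  k149 k213 7 (.s k153 k221 9 (.s k145 k157 1 (.d k192 k98 k106 12 14))))))] .n) .n)))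
  .n))))))))))))

def t3_24 : T TT 256 :=
  (.f k255 k170 14 (.q k102 [(.s k68 k119 4 (.s k204 k136 9 (.s k221 k238 4 (.d k153 k17 k51 9
  14))))] (.c k17 (.q k4 [(.s k12 k8 1 (.s k93 k174 12 (.s k166 k247 12 (.d k89 k81 k243 1 14)))),
  (.s k68 k119 4 (.s k166 k247 12 (.s k38 k230 7 (.s k55 k21 4 (.d k196 k132 k149 7 12))))), (.s k12
  k8 1 (.s k68 k119 4 (.s k132 k196 7 (.s k72 k192 9 (.s k76 k64 1 (.d k204 k140 k136 7 9))))))] .n)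
  (.c k51 (.f k119 k68 4 (.q k89 [(.s k81 k93 1 (.s k115 k76 6 (.s k127 k123 1 (.d k64 k98 k106 4
  6)))), (.s k81 k93 1 (.s k243 k162 12 (.s k166 k12 14 (.d k247 k251 k4 1 12)))), (.s k115 k76 6
  (.s k127 k123 1 (.s k63 k191 7 (.s k21 k42 6 (.s k149 k213 7 (.d k106 k64 k192 6 14))))))] (.c k19
  (.q k35 [(.s k81 k93 1 (.s k115 k76 6 (.s k127 k123 1 (.d k64 k98 k106 4 6)))), (.s k81 k93 1 (.s
  k243 k162 12 (.s k166 k12 14 (.d k247 k251 k4 1 12)))), (.s k115 k76 6 (.s k127 k123 1 (.s k63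
  k191 7 (.s k21 k42 6 (.s k149 k213 7 (.d k106 k64 k192 6 14))))))] .n) (.c k35 (.q k19 [(.s k81
  k93 1 (.s k115 k76 6 (.s k127 k123 1 (.d k64 k98 k106 4 6)))), (.s k81 k93 1 (.s k243 k162 12 (.s
  k166 k12 14 (.d k247 k251 k4 1 12)))), (.s k115 k76 6 (.s k127 k123 1 (.s k63 k191 7 (.s k21 k42 6
  (.s k149 k213 7 (.d k106 k64 k192 6 14))))))] .n) .n)))) (.c k68 (.q k21 [(.s k63 k42 6 (.s k127
  k191 7 (.s k149 k213 7 (.d k106 k64 k192 6 14)))), (.s k149 k213 7 (.s k55 k196 12 (.s k4 k38 4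
  (.s k12 k8 1 (.s k93 k174 12 (.s k89 k81 1 (.d k166 k247 k243 12 14)))))))] (.c k149 (.f k63 k42 6
  (.q k106 [(.d k127 k191 k64 7 6), (.s k110 k98 1 (.s k204 k157 12 (.s k153 k51 14 (.d k221 k238
  k17 4 9))))] (.c k128 (.l (.s k191 k127 7 (.s k110 k98 1 (.s k204 k157 12 (.s k153 k51 14 (.d k221
  k238 k17 4 9)))))) (.c k191 (.q k128 [(.d k64 k127 k192 6 7), (.s k110 k98 1 (.s k204 k157 12 (.s
  k221 k238 4 (.d k153 k17 k51 9 14))))] .n) .n)))) (.c k213 (.l (.s k63 k42 6 (.s k127 k191 7 (.s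
  k106 k64 6 (.s k110 k98 1 (.s k204 k157 12 (.s k153 k51 14 (.d k221 k238 k17 4 9)))))))) .n))) (.c
  k119 (.q k247 [(.s k166 k4 12 (.s k243 k251 1 (.s k81 k162 12 (.d k89 k93 k12 1 14)))), (.s k166
  k4 12 (.s k230 k38 7 (.s k213 k196 4 (.s k192 k234 6 (.s k64 k128 7 (.s k106 k127 6 (.d k149 k21
  k63 7 14)))))))] (.c k4 (.l (.s k243 k251 1 (.s k81 k162 12 (.s k89 k93 1 (.s k115 k76 6 (.s k51
  k179 7 (.s k17 k34 4 (.d k153 k221 k204 9 14)))))))) (.c k166 (.f k243 k251 1 (.q k89 [(.d k81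
  k162 k93 12 1), (.s k115 k76 6 (.s k51 k179 7 (.s k17 k34 4 (.d k153 k221 k204 9 14))))] (.c k162
  (.q k174 [(.d k93 k81 k12 1 12), (.s k115 k76 6 (.s k51 k179 7 (.s k17 k34 4 (.d k153 k221 k204 9
  14))))] .n) (.c k174 (.l (.s k162 k81 12 (.s k115 k76 6 (.s k51 k179 7 (.s k17 k34 4 (.d k153 k221
  k204 9 14)))))) .n)))) .n))) (.c k136 (.l (.s k119 k68 4 (.s k51 k187 9 (.s k153 k204 14 (.d k17
  k34 k221 4 9))))) (.c k153 (.f k119 k68 4 (.q k89 [(.s k81 k93 1 (.s k115 k76 6 (.s k64 k98 4 (.d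
  k127 k123 k106 1 6)))), (.s k81 k93 1 (.s k243 k162 12 (.s k166 k12 14 (.d k247 k251 k4 1 12)))),
  (.s k115 k76 6 (.s k127 k123 1 (.s k63 k191 7 (.s k21 k42 6 (.s k149 k213 7 (.d k106 k64 k192 6
  14))))))] (.c k136 (.l (.s k187 k51 9 (.s k81 k93 1 (.s k115 k76 6 (.s k64 k98 4 (.d k127 k123
  k106 1 6)))))) (.c k187 (.q k136 [(.s k81 k93 1 (.s k115 k76 6 (.s k64 k98 4 (.d k127 k123 k106 1
  6)))), (.s k81 k93 1 (.s k243 k162 12 (.s k166 k12 14 (.d k247 k251 k4 1 12)))), (.s k115 k76 6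
  (.s k127 k123 1 (.s k63 k191 7 (.s k21 k42 6 (.s k149 k213 7 (.d k106 k64 k192 6 14))))))] .n)
  .n)))) (.c k187 (.l (.s k68 k119 4 (.s k204 k136 9 (.s k153 k51 14 (.d k221 k238 k17 4 9))))) (.c
  k204 (.f k68 k119 4 (.q k149 [(.s k196 k55 12 (.s k4 k132 7 (.s k213 k21 7 (.d k247 k230 k166 4
  12)))), (.s k21 k213 7 (.s k63 k42 6 (.s k127 k191 7 (.d k106 k64 k192 6 14)))), (.s k196 k55 12
  (.s k4 k132 7 (.s k12 k8 1 (.s k93 k174 12 (.s k89 k81 1 (.d k166 k247 k243 12 14))))))] (.c k70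
  (.q k137 [(.s k196 k55 12 (.s k4 k132 7 (.s k213 k21 7 (.d k247 k230 k166 4 12)))), (.s k21 k213 7
  (.s k63 k42 6 (.s k127 k191 7 (.d k106 k64 k192 6 14)))), (.s k196 k55 12 (.s k4 k132 7 (.s k12 k8
  1 (.s k93 k174 12 (.s k89 k81 1 (.d k166 k247 k243 12 14))))))] .n) (.c k137 (.q k70 [(.s k21 k213
  7 (.s k63 k42 6 (.s k127 k191 7 (.d k106 k64 k192 6 14)))), (.s k71 k69 0 (.s k86 k118 3 (.s k84
  k87 0 (.d k116 k100 k101 3 4))))] .n) .n)))) (.c k221 (.q k4 [(.s k12 k8 1 (.s k93 k174 12 (.s k89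
  k81 1 (.d k166 k247 k243 12 14)))), (.s k68 k119 4 (.s k166 k247 12 (.s k38 k230 7 (.s k55 k21 4
  (.d k196 k132 k149 7 12))))), (.s k12 k8 1 (.s k68 k119 4 (.s k132 k196 7 (.s k72 k192 9 (.s k76
  k64 1 (.d k204 k140 k136 7 9))))))] .n) (.c k238 (.l (.s k119 k68 4 (.s k51 k187 9 (.s k17 k34 4
  (.d k153 k221 k204 9 14))))) .n))))))))))))

def t3_25 : T TT 256 :=
  (.f k255 k170 14 (.q k101 [(.s k69 k117 3 (.s k207 k138 10 (.s k223 k239 3 (.d k154 k16 k48 10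
  14))))] (.c k16 (.q k4 [(.s k12 k8 1 (.s k93 k174 12 (.s k166 k247 12 (.d k89 k81 k243 1 14)))),
  (.s k69 k117 3 (.s k166 k247 12 (.s k36 k231 8 (.s k52 k20 3 (.d k199 k134 k150 8 12))))), (.s k12
  k8 1 (.s k69 k117 3 (.s k134 k199 8 (.s k73 k195 10 (.s k77 k65 1 (.d k207 k142 k138 8 10))))))]
  .n) (.c k48 (.f k117 k69 3 (.q k253 [(.s k49 k185 9 (.s k153 k205 13 (.s k17 k221 9 (.d k1 k33
  k169 3 13)))), (.s k252 k254 0 (.s k84 k168 13 (.s k86 k87 0 (.s k116 k71 4 (.s k68 k100 3 (.d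
  k119 k118 k102 0 4))))))] (.c k18 (.q k33 [(.d k169 k237 k1 9 13), (.s k49 k185 9 (.s k17 k1 3 (.d
  k153 k205 k221 13 9)))] (.c k1 (.l (.s k49 k185 9 (.s k205 k153 13 (.d k237 k169 k221 9 3)))) .n))
  (.c k33 (.q k18 [(.s k49 k185 9 (.s k153 k205 13 (.s k221 k17 9 (.s k204 k238 4 (.s k68 k136 9 (.d
  k102 k119 k51 4 14)))))), (.s k252 k254 0 (.s k84 k168 13 (.s k86 k87 0 (.s k116 k71 4 (.s k68
  k100 3 (.d k119 k118 k102 0 4)))))), (.s k185 k49 9 (.s k252 k254 0 (.s k51 k118 10 (.s k17 k34 4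
  (.s k153 k221 9 (.d k169 k1 k137 13 3))))))] (.c k102 (.l (.s k185 k49 9 (.s k252 k254 0 (.s k84
  k168 13 (.s k86 k87 0 (.s k116 k71 4 (.d k118 k119 k51 0 10))))))) .n)) (.c k169 (.l (.s k49 k185
  9 (.s k153 k205 13 (.s k17 k221 9 (.s k51 k34 4 (.s k102 k204 14 (.d k119 k68 k187 4 9)))))))
  .n))))) (.c k69 (.q k5 [(.s k15 k10 2 (.s k95 k175 11 (.s k90 k80 2 (.d k165 k245 k240 11 14)))),
  (.s k165 k245 11 (.s k37 k229 7 (.s k21 k53 3 (.s k63 k42 6 (.s k127 k191 7 (.s k106 k64 6 (.d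
  k149 k213 k192 7 14)))))))] (.c k165 (.f k15 k10 2 (.q k90 [(.d k95 k175 k80 11 2), (.s k79 k112 6
  (.s k207 k143 7 (.s k154 k48 14 (.d k223 k239 k16 3 10))))] (.c k160 (.l (.s k175 k95 11 (.s k79
  k112 6 (.s k207 k143 7 (.s k154 k48 14 (.d k223 k239 k16 3 10)))))) (.c k175 (.q k160 [(.d k80 k95
  k240 2 11), (.s k79 k112 6 (.s k207 k143 7 (.s k223 k239 3 (.d k154 k16 k48 10 14))))] .n) .n))))
  (.c k245 (.l (.s k15 k10 2 (.s k95 k175 11 (.s k90 k80 2 (.s k79 k112 6 (.s k207 k143 7 (.s k154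
  k48 14 (.d k223 k239 k16 3 10)))))))) .n))) (.c k117 (.q k247 [(.s k166 k4 12 (.s k243 k251 1 (.s
  k81 k162 12 (.d k89 k93 k12 1 14)))), (.s k166 k4 12 (.s k231 k36 8 (.s k215 k199 3 (.s k195 k235
  5 (.s k65 k130 8 (.s k105 k125 5 (.d k150 k20 k60 8 14)))))))] (.c k4 (.l (.s k243 k251 1 (.s k81
  k162 12 (.s k89 k93 1 (.s k113 k77 5 (.s k48 k178 8 (.s k16 k32 3 (.d k154 k223 k207 10 14))))))))
  (.c k166 (.f k243 k251 1 (.q k89 [(.d k81 k162 k93 12 1), (.s k113 k77 5 (.s k48 k178 8 (.s k16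
  k32 3 (.d k154 k223 k207 10 14))))] (.c k162 (.q k174 [(.d k93 k81 k12 1 12), (.s k113 k77 5 (.s
  k48 k178 8 (.s k16 k32 3 (.d k154 k223 k207 10 14))))] .n) (.c k174 (.l (.s k162 k81 12 (.s k113
  k77 5 (.s k48 k178 8 (.s k16 k32 3 (.d k154 k223 k207 10 14)))))) .n)))) .n))) (.c k138 (.l (.s
  k117 k69 3 (.s k48 k186 10 (.s k154 k207 14 (.d k16 k32 k223 3 10))))) (.c k154 (.f k69 k117 3 (.q
  k149 [(.s k197 k53 11 (.s k5 k133 7 (.s k213 k21 7 (.d k245 k229 k165 3 11)))), (.s k21 k213 7 (.s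
  k63 k42 6 (.s k106 k192 14 (.d k127 k64 k191 6 7)))), (.s k197 k53 11 (.s k5 k133 7 (.s k15 k10 2
  (.s k95 k175 11 (.s k90 k80 2 (.d k165 k245 k240 11 14))))))] (.c k138 (.q k186 [(.s k21 k213 7
  (.s k63 k42 6 (.s k127 k191 7 (.d k106 k64 k192 6 14)))), (.s k197 k53 11 (.s k5 k133 7 (.s k15
  k10 2 (.s k95 k175 11 (.s k90 k80 2 (.d k165 k245 k240 11 14))))))] .n) (.c k186 (.l (.s k138 k207
  10 (.s k21 k213 7 (.s k63 k42 6 (.s k106 k192 14 (.d k127 k64 k191 6 7)))))) .n)))) (.c k186 (.l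
  (.s k69 k117 3 (.s k207 k138 10 (.s k154 k48 14 (.d k223 k239 k16 3 10))))) (.c k207 (.q k71 [(.s
  k69 k117 3 (.s k68 k70 0 (.s k86 k116 4 (.s k87 k84 0 (.d k119 k103 k102 3 4))))), (.s k116 k86 4
  (.s k117 k69 3 (.s k48 k186 10 (.s k118 k119 0 (.s k252 k184 9 (.s k185 k51 10 (.d k253 k254 k49 0
  9))))))), (.s k69 k117 3 (.s k68 k70 0 (.s k204 k136 9 (.s k221 k238 4 (.s k153 k17 9 (.d k102
  k119 k51 4 14)))))), (.s k86 k116 4 (.s k87 k84 0 (.s k119 k103 3 (.s k51 k187 9 (.s k17 k34 4 (.s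
  k153 k221 9 (.d k102 k68 k204 4 14)))))))] (.c k119 (.q k4 [(.s k12 k8 1 (.s k93 k174 12 (.s k89
  k81 1 (.d k166 k247 k243 12 14)))), (.s k69 k117 3 (.s k70 k68 0 (.s k199 k134 8 (.s k7 k135 7 (.s
  k5 k6 0 (.d k133 k197 k196 7 8))))))] (.c k12 (.l (.s k69 k117 3 (.s k166 k247 12 (.s k36 k231 8
  (.s k52 k20 3 (.d k199 k134 k150 8 12)))))) .n)) .n)) (.c k223 (.q k4 [(.s k12 k8 1 (.s k93 k174
  12 (.s k89 k81 1 (.d k166 k247 k243 12 14)))), (.s k69 k117 3 (.s k166 k247 12 (.s k36 k231 8 (.s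
  k52 k20 3 (.d k199 k134 k150 8 12))))), (.s k12 k8 1 (.s k69 k117 3 (.s k134 k199 8 (.s k73 k195
  10 (.s k77 k65 1 (.d k207 k142 k138 8 10))))))] .n) (.c k239 (.l (.s k117 k69 3 (.s k48 k186 10
  (.s k16 k32 3 (.d k154 k223 k207 10 14))))) .n))))))))))))

def t3_26 : T TT 256 :=
  (.f k255 k170 14 (.q k102 [(.s k68 k119 4 (.s k204 k136 9 (.s k221 k238 4 (.d k153 k17 k51 9
  14))))] (.c k17 (.q k4 [(.s k12 k8 1 (.s k93 k174 12 (.s k166 k247 12 (.d k89 k81 k243 1 14)))),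
  (.s k68 k119 4 (.s k166 k247 12 (.s k38 k230 7 (.s k55 k21 4 (.d k196 k132 k149 7 12))))), (.s k12
  k8 1 (.s k68 k119 4 (.s k132 k196 7 (.s k72 k192 9 (.s k76 k64 1 (.d k204 k140 k136 7 9))))))] .n)
  (.c k51 (.f k68 k119 4 (.q k117 [(.s k48 k186 10 (.s k16 k32 3 (.s k101 k69 3 (.d k154 k223 k207
  10 14)))), (.s k101 k69 3 (.s k100 k103 0 (.s k204 k136 9 (.d k48 k186 k152 10 13)))), (.s k48
  k186 10 (.s k32 k16 3 (.s k204 k136 9 (.s k100 k152 13 (.s k84 k116 3 (.d k168 k236 k252 9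
  13))))))] (.c k19 (.q k35 [(.s k48 k186 10 (.s k16 k32 3 (.s k101 k69 3 (.d k154 k223 k207 10
  14)))), (.s k101 k69 3 (.s k100 k103 0 (.s k84 k116 3 (.s k236 k169 10 (.d k168 k252 k32 13
  9))))), (.s k48 k186 10 (.s k32 k16 3 (.s k204 k136 9 (.s k100 k152 13 (.d k236 k168 k169 9
  10)))))] (.c k32 (.l (.s k48 k186 10 (.s k101 k69 3 (.s k100 k103 0 (.d k204 k136 k152 9 13)))))
  .n)) (.c k35 (.q k19 [(.s k48 k186 10 (.s k16 k32 3 (.s k101 k69 3 (.d k154 k223 k207 10 14)))),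
  (.s k48 k186 10 (.s k32 k16 3 (.s k204 k136 9 (.s k100 k152 13 (.s k84 k116 3 (.d k168 k236 k252 9
  13)))))), (.s k101 k69 3 (.s k100 k103 0 (.s k204 k136 9 (.d k48 k186 k152 10 13)))), (.s k69 k101
  3 (.s k70 k71 0 (.s k86 k118 3 (.s k87 k84 0 (.s k223 k155 9 (.d k207 k239 k138 3 10))))))] .n)
  (.c k48 (.l (.s k69 k101 3 (.s k204 k136 9 (.s k207 k138 10 (.s k205 k206 0 (.s k221 k238 4 (.s
  k253 k237 3 (.d k1 k137 k169 9 13)))))))) (.c k186 (.l (.s k101 k69 3 (.s k100 k103 0 (.s k204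
  k136 9 (.s k48 k152 13 (.s k16 k32 3 (.d k154 k207 k223 14 10))))))) .n)))))) (.c k68 (.q k4 [(.s
  k12 k8 1 (.s k93 k174 12 (.s k89 k81 1 (.d k166 k247 k243 12 14)))), (.s k166 k247 12 (.s k38 k230
  7 (.s k21 k55 4 (.s k63 k42 6 (.s k127 k191 7 (.s k106 k64 6 (.d k149 k213 k192 7 14)))))))] (.c
  k166 (.f k12 k8 1 (.q k89 [(.d k93 k174 k81 12 1), (.s k76 k115 6 (.s k204 k140 7 (.s k153 k51 14
  (.d k221 k238 k17 4 9))))] (.c k162 (.l (.s k174 k93 12 (.s k76 k115 6 (.s k204 k140 7 (.s k153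
  k51 14 (.d k221 k238 k17 4 9)))))) (.c k174 (.q k162 [(.d k81 k93 k243 1 12), (.s k76 k115 6 (.s
  k204 k140 7 (.s k221 k238 4 (.d k153 k17 k51 9 14))))] .n) .n)))) (.c k247 (.l (.s k12 k8 1 (.s
  k93 k174 12 (.s k89 k81 1 (.s k76 k115 6 (.s k204 k140 7 (.s k153 k51 14 (.d k221 k238 k17 4
  9)))))))) .n))) (.c k119 (.q k213 [(.s k149 k21 7 (.s k192 k234 6 (.s k64 k128 7 (.d k106 k127 k63
  6 14)))), (.s k149 k21 7 (.s k196 k55 12 (.s k247 k230 4 (.s k243 k251 1 (.s k81 k162 12 (.s k89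
  k93 1 (.d k166 k4 k12 12 14))))))), (.s k192 k234 6 (.s k64 k128 7 (.s k106 k127 6 (.s k98 k110 1
  (.s k51 k145 12 (.s k17 k34 4 (.d k153 k221 k204 9 14)))))))] (.c k149 (.f k192 k234 6 (.q k106
  [(.d k64 k128 k127 7 6), (.s k98 k110 1 (.s k51 k145 12 (.s k17 k34 4 (.d k153 k221 k204 9 14))))]
  (.c k128 (.q k191 [(.d k127 k64 k63 6 7), (.s k98 k110 1 (.s k51 k145 12 (.s k17 k34 4 (.d k153
  k221 k204 9 14))))] .n) (.c k191 (.l (.s k128 k64 7 (.s k98 k110 1 (.s k51 k145 12 (.s k17 k34 4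
  (.d k153 k221 k204 9 14)))))) .n)))) .n)) (.c k136 (.l (.s k119 k68 4 (.s k51 k187 9 (.s k153 k204
  14 (.d k17 k34 k221 4 9))))) (.c k153 (.f k68 k119 4 (.q k4 [(.s k12 k8 1 (.s k93 k174 12 (.s k89
  k81 1 (.d k166 k247 k243 12 14)))), (.s k166 k247 12 (.s k38 k230 7 (.s k55 k21 4 (.d k196 k132
  k149 7 12)))), (.s k12 k8 1 (.s k132 k196 7 (.s k72 k192 9 (.s k76 k64 1 (.d k204 k136 k140 9
  7)))))] (.c k136 (.q k187 [(.s k12 k8 1 (.s k93 k174 12 (.s k89 k81 1 (.d k166 k247 k243 12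
  14)))), (.s k166 k247 12 (.s k38 k230 7 (.s k55 k21 4 (.d k196 k132 k149 7 12)))), (.s k12 k8 1
  (.s k132 k196 7 (.s k72 k192 9 (.s k76 k64 1 (.s k89 k115 6 (.d k93 k81 k174 1 12))))))] .n) (.c
  k187 (.l (.s k136 k204 9 (.s k12 k8 1 (.s k93 k174 12 (.s k89 k81 1 (.d k166 k247 k243 12 14))))))
  .n)))) (.c k187 (.l (.s k68 k119 4 (.s k204 k136 9 (.s k153 k51 14 (.d k221 k238 k17 4 9))))) (.c
  k204 (.f k68 k119 4 (.q k76 [(.s k64 k72 1 (.s k89 k115 6 (.s k93 k81 1 (.d k127 k110 k106 4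
  6)))), (.s k64 k72 1 (.s k192 k128 7 (.s k213 k234 6 (.s k149 k21 7 (.d k106 k127 k63 6 14))))),
  (.s k89 k115 6 (.s k81 k93 1 (.s k243 k162 12 (.s k166 k12 14 (.d k247 k251 k4 1 12)))))] (.c k70
  (.q k137 [(.s k64 k72 1 (.s k89 k115 6 (.s k93 k81 1 (.d k127 k110 k106 4 6)))), (.s k64 k72 1 (.s
  k192 k128 7 (.s k213 k234 6 (.s k149 k21 7 (.d k106 k127 k63 6 14))))), (.s k89 k115 6 (.s k81 k93
  1 (.s k243 k162 12 (.s k166 k12 14 (.d k247 k251 k4 1 12)))))] (.c k127 (.l (.s k64 k72 1 (.s k115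
  k89 6 (.s k98 k81 4 (.s k106 k110 1 (.s k192 k128 7 (.s k213 k234 6 (.d k149 k63 k21 14 7))))))))
  .n)) (.c k127 (.l (.s k64 k72 1 (.s k115 k89 6 (.s k98 k81 4 (.s k106 k110 1 (.s k192 k128 7 (.s
  k213 k234 6 (.d k149 k63 k21 14 7)))))))) (.c k137 (.q k70 [(.s k64 k72 1 (.s k89 k115 6 (.s k93
  k81 1 (.d k127 k110 k106 4 6)))), (.s k71 k69 0 (.s k86 k118 3 (.s k84 k87 0 (.d k116 k100 k101 3
  4))))] .n) .n))))) (.c k221 (.q k4 [(.s k12 k8 1 (.s k93 k174 12 (.s k89 k81 1 (.d k166 k247 k243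
  12 14)))), (.s k68 k119 4 (.s k166 k247 12 (.s k38 k230 7 (.s k55 k21 4 (.d k196 k132 k149 7
  12))))), (.s k12 k8 1 (.s k68 k119 4 (.s k132 k196 7 (.s k72 k192 9 (.s k76 k64 1 (.d k204 k140
  k136 7 9))))))] .n) (.c k238 (.l (.s k119 k68 4 (.s k51 k187 9 (.s k17 k34 4 (.d k153 k221 k204 9
  14))))) .n))))))))))))

def t3_27 : T TT 256 :=
  (.f k255 k170 14 (.q k101 [(.s k69 k117 3 (.s k207 k138 10 (.s k223 k239 3 (.d k154 k16 k48 10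
  14))))] (.c k16 (.q k4 [(.s k12 k8 1 (.s k93 k174 12 (.s k166 k247 12 (.d k89 k81 k243 1 14)))),
  (.s k69 k117 3 (.s k166 k247 12 (.s k36 k231 8 (.s k52 k20 3 (.d k199 k134 k150 8 12))))), (.s k12
  k8 1 (.s k69 k117 3 (.s k134 k199 8 (.s k73 k195 10 (.s k77 k65 1 (.d k207 k142 k138 8 10))))))]
  .n) (.c k48 (.f k117 k69 3 (.q k253 [(.s k49 k185 9 (.s k153 k205 13 (.s k17 k221 9 (.d k1 k33
  k169 3 13)))), (.s k252 k254 0 (.s k84 k168 13 (.s k86 k87 0 (.s k116 k71 4 (.s k68 k100 3 (.d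
  k119 k118 k102 0 4))))))] (.c k18 (.q k33 [(.d k169 k237 k1 9 13), (.s k49 k185 9 (.s k17 k1 3 (.d
  k153 k205 k221 13 9)))] (.c k1 (.l (.s k49 k185 9 (.s k205 k153 13 (.d k237 k169 k221 9 3)))) .n))
  (.c k33 (.q k18 [(.s k49 k185 9 (.s k153 k205 13 (.s k221 k17 9 (.s k204 k238 4 (.s k68 k136 9 (.d
  k102 k119 k51 4 14)))))), (.s k252 k254 0 (.s k84 k168 13 (.s k86 k87 0 (.s k116 k71 4 (.s k68
  k100 3 (.d k119 k118 k102 0 4)))))), (.s k185 k49 9 (.s k252 k254 0 (.s k51 k118 10 (.s k17 k34 4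
  (.s k153 k221 9 (.d k169 k1 k137 13 3))))))] (.c k102 (.l (.s k185 k49 9 (.s k252 k254 0 (.s k84
  k168 13 (.s k86 k87 0 (.s k116 k71 4 (.d k118 k119 k51 0 10))))))) .n)) (.c k169 (.l (.s k49 k185
  9 (.s k153 k205 13 (.s k17 k221 9 (.s k51 k34 4 (.s k102 k204 14 (.d k119 k68 k187 4 9)))))))
  .n))))) (.c k69 (.q k5 [(.s k15 k10 2 (.s k95 k175 11 (.s k90 k80 2 (.d k165 k245 k240 11 14)))),
  (.s k165 k245 11 (.s k37 k229 7 (.s k21 k53 3 (.s k63 k42 6 (.s k127 k191 7 (.s k106 k64 6 (.d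
  k149 k213 k192 7 14)))))))] (.c k165 (.f k15 k10 2 (.q k90 [(.d k95 k175 k80 11 2), (.s k79 k112 6
  (.s k207 k143 7 (.s k154 k48 14 (.d k223 k239 k16 3 10))))] (.c k160 (.l (.s k175 k95 11 (.s k79
  k112 6 (.s k207 k143 7 (.s k154 k48 14 (.d k223 k239 k16 3 10)))))) (.c k175 (.q k160 [(.d k80 k95
  k240 2 11), (.s k79 k112 6 (.s k207 k143 7 (.s k223 k239 3 (.d k154 k16 k48 10 14))))] .n) .n))))
  (.c k245 (.l (.s k15 k10 2 (.s k95 k175 11 (.s k90 k80 2 (.s k79 k112 6 (.s k207 k143 7 (.s k154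
  k48 14 (.d k223 k239 k16 3 10)))))))) .n))) (.c k117 (.q k247 [(.s k166 k4 12 (.s k243 k251 1 (.s
  k81 k162 12 (.d k89 k93 k12 1 14)))), (.s k166 k4 12 (.s k231 k36 8 (.s k215 k199 3 (.s k195 k235
  5 (.s k65 k130 8 (.s k105 k125 5 (.d k150 k20 k60 8 14)))))))] (.c k4 (.l (.s k243 k251 1 (.s k81
  k162 12 (.s k89 k93 1 (.s k113 k77 5 (.s k48 k178 8 (.s k16 k32 3 (.d k154 k223 k207 10 14))))))))
  (.c k166 (.f k243 k251 1 (.q k89 [(.d k81 k162 k93 12 1), (.s k113 k77 5 (.s k48 k178 8 (.s k16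
  k32 3 (.d k154 k223 k207 10 14))))] (.c k162 (.q k174 [(.d k93 k81 k12 1 12), (.s k113 k77 5 (.s
  k48 k178 8 (.s k16 k32 3 (.d k154 k223 k207 10 14))))] .n) (.c k174 (.l (.s k162 k81 12 (.s k113
  k77 5 (.s k48 k178 8 (.s k16 k32 3 (.d k154 k223 k207 10 14)))))) .n)))) .n))) (.c k138 (.l (.s
  k117 k69 3 (.s k48 k186 10 (.s k154 k207 14 (.d k16 k32 k223 3 10))))) (.c k154 (.f k69 k117 3 (.q
  k149 [(.s k197 k53 11 (.s k5 k133 7 (.s k213 k21 7 (.d k245 k229 k165 3 11)))), (.s k21 k213 7 (.s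
  k63 k42 6 (.s k106 k192 14 (.d k127 k64 k191 6 7)))), (.s k197 k53 11 (.s k5 k133 7 (.s k15 k10 2
  (.s k95 k175 11 (.s k90 k80 2 (.d k165 k245 k240 11 14))))))] (.c k138 (.q k186 [(.s k21 k213 7
  (.s k63 k42 6 (.s k127 k191 7 (.d k106 k64 k192 6 14)))), (.s k197 k53 11 (.s k5 k133 7 (.s k15
  k10 2 (.s k95 k175 11 (.s k90 k80 2 (.d k165 k245 k240 11 14))))))] .n) (.c k186 (.l (.s k138 k207
  10 (.s k21 k213 7 (.s k63 k42 6 (.s k106 k192 14 (.d k127 k64 k191 6 7)))))) .n)))) (.c k186 (.l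
  (.s k69 k117 3 (.s k207 k138 10 (.s k154 k48 14 (.d k223 k239 k16 3 10))))) (.c k207 (.q k71 [(.s
  k69 k117 3 (.s k68 k70 0 (.s k86 k116 4 (.s k87 k84 0 (.d k119 k103 k102 3 4))))), (.s k116 k86 4
  (.s k117 k69 3 (.s k48 k186 10 (.s k118 k119 0 (.s k252 k184 9 (.s k185 k51 10 (.d k253 k254 k49 0
  9))))))), (.s k69 k117 3 (.s k68 k70 0 (.s k204 k136 9 (.s k221 k238 4 (.s k153 k17 9 (.d k102
  k119 k51 4 14)))))), (.s k86 k116 4 (.s k87 k84 0 (.s k119 k103 3 (.s k51 k187 9 (.s k17 k34 4 (.s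
  k153 k221 9 (.d k102 k68 k204 4 14)))))))] (.c k119 (.q k4 [(.s k12 k8 1 (.s k93 k174 12 (.s k89
  k81 1 (.d k166 k247 k243 12 14)))), (.s k69 k117 3 (.s k70 k68 0 (.s k199 k134 8 (.s k7 k135 7 (.s
  k5 k6 0 (.d k133 k197 k196 7 8))))))] (.c k12 (.l (.s k69 k117 3 (.s k166 k247 12 (.s k36 k231 8
  (.s k52 k20 3 (.d k199 k134 k150 8 12)))))) .n)) .n)) (.c k223 (.q k4 [(.s k12 k8 1 (.s k93 k174
  12 (.s k89 k81 1 (.d k166 k247 k243 12 14)))), (.s k69 k117 3 (.s k166 k247 12 (.s k36 k231 8 (.s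
  k52 k20 3 (.d k199 k134 k150 8 12))))), (.s k12 k8 1 (.s k69 k117 3 (.s k134 k199 8 (.s k73 k195
  10 (.s k77 k65 1 (.d k207 k142 k138 8 10))))))] .n) (.c k239 (.l (.s k117 k69 3 (.s k48 k186 10
  (.s k16 k32 3 (.d k154 k223 k207 10 14))))) .n))))))))))))

def t3_28 : T TT 256 :=
  (.f k255 k170 14 (.q k101 [(.s k69 k117 3 (.s k207 k138 10 (.s k223 k239 3 (.d k154 k16 k48 10
  14))))] (.c k16 (.q k20 [(.s k60 k40 5 (.s k125 k190 8 (.s k105 k65 5 (.d k150 k215 k195 8 14)))),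
  (.s k117 k69 3 (.s k150 k215 8 (.s k52 k199 12 (.s k4 k36 3 (.d k247 k182 k166 8 12))))), (.s k60
  k40 5 (.s k69 k117 3 (.s k207 k138 10 (.s k109 k158 12 (.s k105 k97 1 (.d k125 k65 k190 5 8))))))]
  .n) (.c k48 (.f k117 k69 3 (.q k253 [(.s k49 k185 9 (.s k153 k205 13 (.s k17 k221 9 (.d k1 k33
  k169 3 13)))), (.s k252 k254 0 (.s k84 k168 13 (.s k86 k87 0 (.s k116 k71 4 (.s k68 k100 3 (.d
  k119 k118 k102 0 4))))))] (.c k18 (.q k33 [(.d k169 k237 k1 9 13), (.s k49 k185 9 (.s k17 k1 3 (.d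
  k153 k205 k221 13 9)))] (.c k1 (.l (.s k49 k185 9 (.s k205 k153 13 (.d k237 k169 k221 9 3)))) .n))
  (.c k33 (.q k18 [(.s k49 k185 9 (.s k153 k205 13 (.s k221 k17 9 (.s k204 k238 4 (.s k68 k136 9 (.d
  k102 k119 k51 4 14)))))), (.s k252 k254 0 (.s k84 k168 13 (.s k86 k87 0 (.s k116 k71 4 (.s k68
  k100 3 (.d k119 k118 k102 0 4)))))), (.s k185 k49 9 (.s k252 k254 0 (.s k51 k118 10 (.s k17 k34 4
  (.s k153 k221 9 (.d k169 k1 k137 13 3))))))] (.c k102 (.l (.s k185 k49 9 (.s k252 k254 0 (.s k84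
  k168 13 (.s k86 k87 0 (.s k116 k71 4 (.d k118 k119 k51 0 10))))))) .n)) (.c k169 (.l (.s k49 k185
  9 (.s k153 k205 13 (.s k17 k221 9 (.s k51 k34 4 (.s k102 k204 14 (.d k119 k68 k187 4 9)))))))
  .n))))) (.c k69 (.q k5 [(.s k15 k10 2 (.s k95 k175 11 (.s k90 k80 2 (.d k165 k245 k240 11 14)))),
  (.s k165 k245 11 (.s k37 k229 7 (.s k21 k53 3 (.s k63 k42 6 (.s k127 k191 7 (.s k106 k64 6 (.d
  k149 k213 k192 7 14)))))))] (.c k165 (.f k15 k10 2 (.q k90 [(.d k95 k175 k80 11 2), (.s k79 k112 6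
  (.s k207 k143 7 (.s k154 k48 14 (.d k223 k239 k16 3 10))))] (.c k160 (.l (.s k175 k95 11 (.s k79
  k112 6 (.s k207 k143 7 (.s k154 k48 14 (.d k223 k239 k16 3 10)))))) (.c k175 (.q k160 [(.d k80 k95
  k240 2 11), (.s k79 k112 6 (.s k207 k143 7 (.s k223 k239 3 (.d k154 k16 k48 10 14))))] .n) .n))))
  (.c k245 (.l (.s k15 k10 2 (.s k95 k175 11 (.s k90 k80 2 (.s k79 k112 6 (.s k207 k143 7 (.s k154
  k48 14 (.d k223 k239 k16 3 10)))))))) .n))) (.c k117 (.q k247 [(.s k166 k4 12 (.s k243 k251 1 (.s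
  k81 k162 12 (.d k89 k93 k12 1 14)))), (.s k166 k4 12 (.s k231 k36 8 (.s k215 k199 3 (.s k195 k235
  5 (.s k65 k130 8 (.s k105 k125 5 (.d k150 k20 k60 8 14)))))))] (.c k4 (.l (.s k243 k251 1 (.s k81
  k162 12 (.s k89 k93 1 (.s k113 k77 5 (.s k48 k178 8 (.s k16 k32 3 (.d k154 k223 k207 10 14))))))))
  (.c k166 (.f k243 k251 1 (.q k89 [(.d k81 k162 k93 12 1), (.s k113 k77 5 (.s k48 k178 8 (.s k16
  k32 3 (.d k154 k223 k207 10 14))))] (.c k162 (.q k174 [(.d k93 k81 k12 1 12), (.s k113 k77 5 (.s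
  k48 k178 8 (.s k16 k32 3 (.d k154 k223 k207 10 14))))] .n) (.c k174 (.l (.s k162 k81 12 (.s k113
  k77 5 (.s k48 k178 8 (.s k16 k32 3 (.d k154 k223 k207 10 14)))))) .n)))) .n))) (.c k138 (.l (.s
  k117 k69 3 (.s k48 k186 10 (.s k154 k207 14 (.d k16 k32 k223 3 10))))) (.c k154 (.f k69 k117 3 (.q
  k149 [(.s k197 k53 11 (.s k5 k133 7 (.s k213 k21 7 (.d k245 k229 k165 3 11)))), (.s k21 k213 7 (.s
  k63 k42 6 (.s k106 k192 14 (.d k127 k64 k191 6 7)))), (.s k197 k53 11 (.s k5 k133 7 (.s k15 k10 2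
  (.s k95 k175 11 (.s k90 k80 2 (.d k165 k245 k240 11 14))))))] (.c k138 (.q k186 [(.s k21 k213 7
  (.s k63 k42 6 (.s k127 k191 7 (.d k106 k64 k192 6 14)))), (.s k197 k53 11 (.s k5 k133 7 (.s k15
  k10 2 (.s k95 k175 11 (.s k90 k80 2 (.d k165 k245 k240 11 14))))))] .n) (.c k186 (.l (.s k138 k207
  10 (.s k21 k213 7 (.s k63 k42 6 (.s k106 k192 14 (.d k127 k64 k191 6 7)))))) .n)))) (.c k186 (.l
  (.s k69 k117 3 (.s k207 k138 10 (.s k154 k48 14 (.d k223 k239 k16 3 10))))) (.c k207 (.q k71 [(.s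
  k69 k117 3 (.s k68 k70 0 (.s k86 k116 4 (.s k87 k84 0 (.d k119 k103 k102 3 4))))), (.s k116 k86 4
  (.s k117 k69 3 (.s k48 k186 10 (.s k118 k119 0 (.s k252 k184 9 (.s k185 k51 10 (.d k253 k254 k49 0
  9))))))), (.s k69 k117 3 (.s k68 k70 0 (.s k204 k136 9 (.s k221 k238 4 (.s k153 k17 9 (.d k102
  k119 k51 4 14)))))), (.s k86 k116 4 (.s k87 k84 0 (.s k119 k103 3 (.s k51 k187 9 (.s k17 k34 4 (.s
  k153 k221 9 (.d k102 k68 k204 4 14)))))))] (.c k119 (.q k4 [(.s k12 k8 1 (.s k93 k174 12 (.s k89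
  k81 1 (.d k166 k247 k243 12 14)))), (.s k69 k117 3 (.s k70 k68 0 (.s k199 k134 8 (.s k7 k135 7 (.s
  k5 k6 0 (.d k133 k197 k196 7 8))))))] (.c k12 (.l (.s k69 k117 3 (.s k166 k247 12 (.s k36 k231 8
  (.s k52 k20 3 (.d k199 k134 k150 8 12)))))) .n)) .n)) (.c k223 (.q k93 [(.s k12 k174 12 (.s k4 k8
  1 (.s k89 k81 1 (.d k166 k247 k243 12 14)))), (.s k69 k117 3 (.s k89 k81 1 (.s k77 k113 5 (.s k65
  k73 1 (.d k125 k109 k105 3 5))))), (.s k12 k174 12 (.s k69 k117 3 (.s k207 k138 10 (.s k77 k142 8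
  (.s k65 k73 1 (.d k125 k109 k105 3 5))))))] .n) (.c k239 (.l (.s k117 k69 3 (.s k48 k186 10 (.s
  k16 k32 3 (.d k154 k223 k207 10 14))))) .n))))))))))))

def t3_29 : T TT 256 :=
  (.f k255 k170 14 (.q k102 [(.s k68 k119 4 (.s k204 k136 9 (.s k221 k238 4 (.d k153 k17 k51 9
  14))))] (.c k17 (.q k21 [(.s k63 k42 6 (.s k127 k191 7 (.s k106 k64 6 (.d k149 k213 k192 7 14)))),
  (.s k119 k68 4 (.s k149 k213 7 (.s k55 k196 12 (.s k4 k38 4 (.d k247 k183 k166 7 12))))), (.s k63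
  k42 6 (.s k68 k119 4 (.s k204 k136 9 (.s k110 k157 12 (.s k106 k98 1 (.d k127 k64 k191 6 7))))))]
  .n) (.c k51 (.f k68 k119 4 (.q k110 [(.s k106 k98 1 (.s k127 k64 6 (.s k63 k191 7 (.d k204 k136
  k157 9 12)))), (.s k204 k136 9 (.s k63 k157 12 (.s k127 k191 7 (.s k93 k76 4 (.s k174 k12 12 (.d
  k238 k221 k46 4 7)))))), (.s k106 k98 1 (.s k127 k64 6 (.s k93 k76 4 (.s k204 k136 9 (.s k238 k221
  4 (.d k174 k46 k12 7 12)))))), (.s k106 k98 1 (.s k64 k127 6 (.s k192 k128 7 (.s k149 k63 14 (.d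
  k213 k234 k21 6 7)))))] (.c k19 (.q k35 [(.s k106 k98 1 (.s k127 k64 6 (.s k63 k191 7 (.d k204
  k136 k157 9 12)))), (.s k106 k98 1 (.s k236 k169 10 (.s k47 k173 8 (.s k165 k224 10 (.d k39 k43
  k228 1 8))))), (.s k204 k136 9 (.s k63 k157 12 (.s k127 k191 7 (.s k93 k76 4 (.s k174 k12 12 (.d
  k238 k221 k46 4 7))))))] .n) (.c k35 (.q k19 [(.s k106 k98 1 (.s k127 k64 6 (.s k63 k191 7 (.d
  k204 k136 k157 9 12)))), (.s k204 k136 9 (.s k63 k157 12 (.s k127 k191 7 (.s k93 k76 4 (.s k174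
  k12 12 (.d k238 k221 k46 4 7)))))), (.s k106 k98 1 (.s k127 k64 6 (.s k93 k76 4 (.s k204 k136 9
  (.s k238 k221 4 (.d k174 k46 k12 7 12)))))), (.s k106 k98 1 (.s k64 k127 6 (.s k192 k128 7 (.s
  k149 k63 14 (.d k213 k234 k21 6 7)))))] (.c k127 (.l (.s k106 k98 1 (.s k204 k136 9 (.s k63 k157
  12 (.s k21 k42 6 (.d k149 k192 k213 14 7)))))) .n)) (.c k127 (.l (.s k106 k98 1 (.s k204 k136 9
  (.s k63 k157 12 (.s k21 k42 6 (.d k149 k192 k213 14 7)))))) .n))))) (.c k68 (.q k4 [(.s k12 k8 1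
  (.s k93 k174 12 (.s k89 k81 1 (.d k166 k247 k243 12 14)))), (.s k166 k247 12 (.s k38 k230 7 (.s
  k21 k55 4 (.s k63 k42 6 (.s k127 k191 7 (.s k106 k64 6 (.d k149 k213 k192 7 14)))))))] (.c k166
  (.f k12 k8 1 (.q k89 [(.d k93 k174 k81 12 1), (.s k76 k115 6 (.s k204 k140 7 (.s k153 k51 14 (.d
  k221 k238 k17 4 9))))] (.c k162 (.l (.s k174 k93 12 (.s k76 k115 6 (.s k204 k140 7 (.s k153 k51 14
  (.d k221 k238 k17 4 9)))))) (.c k174 (.q k162 [(.d k81 k93 k243 1 12), (.s k76 k115 6 (.s k204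
  k140 7 (.s k221 k238 4 (.d k153 k17 k51 9 14))))] .n) .n)))) (.c k247 (.l (.s k12 k8 1 (.s k93
  k174 12 (.s k89 k81 1 (.s k76 k115 6 (.s k204 k140 7 (.s k153 k51 14 (.d k221 k238 k17 4 9))))))))
  .n))) (.c k119 (.q k247 [(.s k166 k4 12 (.s k243 k251 1 (.s k81 k162 12 (.d k89 k93 k12 1 14)))),
  (.s k166 k4 12 (.s k230 k38 7 (.s k213 k196 4 (.s k192 k234 6 (.s k64 k128 7 (.s k106 k127 6 (.d
  k149 k21 k63 7 14)))))))] (.c k4 (.l (.s k243 k251 1 (.s k81 k162 12 (.s k89 k93 1 (.s k115 k76 6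
  (.s k51 k179 7 (.s k17 k34 4 (.d k153 k221 k204 9 14)))))))) (.c k166 (.f k243 k251 1 (.q k89 [(.d
  k81 k162 k93 12 1), (.s k115 k76 6 (.s k51 k179 7 (.s k17 k34 4 (.d k153 k221 k204 9 14))))] (.c
  k162 (.q k174 [(.d k93 k81 k12 1 12), (.s k115 k76 6 (.s k51 k179 7 (.s k17 k34 4 (.d k153 k221
  k204 9 14))))] .n) (.c k174 (.l (.s k162 k81 12 (.s k115 k76 6 (.s k51 k179 7 (.s k17 k34 4 (.d
  k153 k221 k204 9 14)))))) .n)))) .n))) (.c k136 (.l (.s k119 k68 4 (.s k51 k187 9 (.s k153 k204 14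
  (.d k17 k34 k221 4 9))))) (.c k153 (.f k119 k68 4 (.q k247 [(.s k55 k183 7 (.s k149 k196 12 (.s
  k21 k213 7 (.d k4 k38 k166 4 12)))), (.s k243 k251 1 (.s k81 k162 12 (.s k89 k93 1 (.d k166 k4 k12
  12 14))))] (.c k4 (.l (.s k183 k55 7 (.s k187 k51 9 (.s k191 k179 1 (.s k63 k127 7 (.d k243 k251
  k123 1 9)))))) (.c k136 (.l (.s k187 k51 9 (.s k4 k166 12 (.s k55 k183 7 (.s k21 k38 4 (.d k149
  k213 k196 7 12)))))) (.c k166 (.l (.s k55 k183 7 (.s k149 k196 12 (.s k21 k213 7 (.s k63 k42 6 (.d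
  k51 k59 k187 1 9)))))) (.c k187 (.q k136 [(.s k166 k4 12 (.s k230 k38 7 (.s k196 k213 4 (.d k55
  k183 k149 7 12)))), (.s k243 k251 1 (.s k81 k162 12 (.s k89 k93 1 (.d k166 k4 k12 12 14))))] (.c
  k4 (.l (.s k183 k55 7 (.s k243 k251 1 (.s k81 k162 12 (.s k89 k93 1 (.s k115 k76 6 (.d k123 k127
  k63 1 9))))))) (.c k166 (.l (.s k55 k183 7 (.s k149 k196 12 (.s k21 k213 7 (.s k63 k42 6 (.s k106
  k192 14 (.d k127 k191 k64 7 6))))))) .n))) .n)))))) (.c k187 (.l (.s k68 k119 4 (.s k204 k136 9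
  (.s k153 k51 14 (.d k221 k238 k17 4 9))))) (.c k204 (.f k68 k119 4 (.q k64 [(.s k76 k72 1 (.s k89
  k115 6 (.s k93 k81 1 (.d k127 k110 k106 4 6)))), (.s k192 k128 7 (.s k213 k234 6 (.s k149 k21 7
  (.d k106 k127 k63 6 14))))] (.c k70 (.q k137 [(.s k76 k72 1 (.s k89 k115 6 (.s k93 k81 1 (.d k127
  k110 k106 4 6)))), (.s k192 k128 7 (.s k213 k234 6 (.s k149 k21 7 (.d k106 k127 k63 6 14))))] (.c
  k106 (.l (.s k76 k72 1 (.s k89 k115 6 (.s k81 k93 1 (.s k243 k162 12 (.s k166 k12 14 (.d k247 k251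
  k4 1 12))))))) (.c k127 (.l (.s k72 k76 1 (.s k192 k128 7 (.s k213 k234 6 (.s k149 k21 7 (.s k196
  k55 12 (.d k132 k4 k12 7 9))))))) .n))) (.c k106 (.l (.s k76 k72 1 (.s k89 k115 6 (.s k81 k93 1
  (.s k243 k162 12 (.s k166 k12 14 (.d k247 k251 k4 1 12))))))) (.c k127 (.l (.s k72 k76 1 (.s k192
  k128 7 (.s k213 k234 6 (.s k149 k21 7 (.s k196 k55 12 (.d k132 k4 k12 7 9))))))) (.c k137 (.q k70
  [(.s k76 k72 1 (.s k89 k115 6 (.s k93 k81 1 (.d k127 k110 k106 4 6)))), (.s k71 k69 0 (.s k86 k118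
  3 (.s k84 k87 0 (.d k116 k100 k101 3 4))))] .n) .n)))))) (.c k221 (.q k93 [(.s k12 k174 12 (.s k4
  k8 1 (.s k89 k81 1 (.d k166 k247 k243 12 14)))), (.s k68 k119 4 (.s k89 k81 1 (.s k76 k115 6 (.s
  k64 k72 1 (.d k127 k110 k106 4 6))))), (.s k12 k174 12 (.s k68 k119 4 (.s k204 k136 9 (.s k76 k140
  7 (.s k64 k72 1 (.d k127 k110 k106 4 6))))))] .n) (.c k238 (.l (.s k119 k68 4 (.s k51 k187 9 (.s
  k17 k34 4 (.d k153 k221 k204 9 14))))) .n))))))))))))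

def t3_30 : T TT 256 :=
  (.f k255 k170 14 (.q k102 [(.s k68 k119 4 (.s k204 k136 9 (.s k221 k238 4 (.d k153 k17 k51 9
  14))))] (.c k17 (.q k4 [(.s k12 k8 1 (.s k93 k174 12 (.s k166 k247 12 (.d k89 k81 k243 1 14)))),
  (.s k68 k119 4 (.s k166 k247 12 (.s k38 k230 7 (.s k55 k21 4 (.d k196 k132 k149 7 12))))), (.s k12
  k8 1 (.s k68 k119 4 (.s k132 k196 7 (.s k72 k192 9 (.s k76 k64 1 (.d k204 k140 k136 7 9))))))] .n)
  (.c k51 (.f k68 k119 4 (.q k117 [(.s k48 k186 10 (.s k16 k32 3 (.s k101 k69 3 (.d k154 k223 k207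
  10 14)))), (.s k101 k69 3 (.s k100 k103 0 (.s k204 k136 9 (.d k48 k186 k152 10 13)))), (.s k48
  k186 10 (.s k32 k16 3 (.s k204 k136 9 (.s k100 k152 13 (.s k84 k116 3 (.d k168 k236 k252 9
  13))))))] (.c k19 (.q k35 [(.s k48 k186 10 (.s k16 k32 3 (.s k101 k69 3 (.d k154 k223 k207 10
  14)))), (.s k101 k69 3 (.s k100 k103 0 (.s k84 k116 3 (.s k236 k169 10 (.d k168 k252 k32 13
  9))))), (.s k48 k186 10 (.s k32 k16 3 (.s k204 k136 9 (.s k100 k152 13 (.d k236 k168 k169 9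
  10)))))] (.c k32 (.l (.s k48 k186 10 (.s k101 k69 3 (.s k100 k103 0 (.d k204 k136 k152 9 13)))))
  .n)) (.c k35 (.q k19 [(.s k48 k186 10 (.s k16 k32 3 (.s k101 k69 3 (.d k154 k223 k207 10 14)))),
  (.s k48 k186 10 (.s k32 k16 3 (.s k204 k136 9 (.s k100 k152 13 (.s k84 k116 3 (.d k168 k236 k252 9
  13)))))), (.s k101 k69 3 (.s k100 k103 0 (.s k204 k136 9 (.d k48 k186 k152 10 13)))), (.s k69 k101
  3 (.s k70 k71 0 (.s k86 k118 3 (.s k87 k84 0 (.s k223 k155 9 (.d k207 k239 k138 3 10))))))] .n)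
  (.c k48 (.l (.s k69 k101 3 (.s k204 k136 9 (.s k207 k138 10 (.s k205 k206 0 (.s k221 k238 4 (.s
  k253 k237 3 (.d k1 k137 k169 9 13)))))))) (.c k186 (.l (.s k101 k69 3 (.s k100 k103 0 (.s k204
  k136 9 (.s k48 k152 13 (.s k16 k32 3 (.d k154 k207 k223 14 10))))))) .n)))))) (.c k68 (.q k4 [(.s
  k12 k8 1 (.s k93 k174 12 (.s k89 k81 1 (.d k166 k247 k243 12 14)))), (.s k166 k247 12 (.s k38 k230
  7 (.s k21 k55 4 (.s k63 k42 6 (.s k127 k191 7 (.s k106 k64 6 (.d k149 k213 k192 7 14)))))))] (.c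
  k166 (.f k12 k8 1 (.q k89 [(.d k93 k174 k81 12 1), (.s k76 k115 6 (.s k204 k140 7 (.s k153 k51 14
  (.d k221 k238 k17 4 9))))] (.c k162 (.l (.s k174 k93 12 (.s k76 k115 6 (.s k204 k140 7 (.s k153
  k51 14 (.d k221 k238 k17 4 9)))))) (.c k174 (.q k162 [(.d k81 k93 k243 1 12), (.s k76 k115 6 (.s
  k204 k140 7 (.s k221 k238 4 (.d k153 k17 k51 9 14))))] .n) .n)))) (.c k247 (.l (.s k12 k8 1 (.s
  k93 k174 12 (.s k89 k81 1 (.s k76 k115 6 (.s k204 k140 7 (.s k153 k51 14 (.d k221 k238 k17 4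
  9)))))))) .n))) (.c k119 (.q k247 [(.s k166 k4 12 (.s k243 k251 1 (.s k81 k162 12 (.d k89 k93 k12
  1 14)))), (.s k166 k4 12 (.s k230 k38 7 (.s k213 k196 4 (.s k192 k234 6 (.s k64 k128 7 (.s k106
  k127 6 (.d k149 k21 k63 7 14)))))))] (.c k4 (.l (.s k243 k251 1 (.s k81 k162 12 (.s k89 k93 1 (.s
  k115 k76 6 (.s k51 k179 7 (.s k17 k34 4 (.d k153 k221 k204 9 14)))))))) (.c k166 (.f k243 k251 1
  (.q k89 [(.d k81 k162 k93 12 1), (.s k115 k76 6 (.s k51 k179 7 (.s k17 k34 4 (.d k153 k221 k204 9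
  14))))] (.c k162 (.q k174 [(.d k93 k81 k12 1 12), (.s k115 k76 6 (.s k51 k179 7 (.s k17 k34 4 (.d
  k153 k221 k204 9 14))))] .n) (.c k174 (.l (.s k162 k81 12 (.s k115 k76 6 (.s k51 k179 7 (.s k17
  k34 4 (.d k153 k221 k204 9 14)))))) .n)))) .n))) (.c k136 (.l (.s k119 k68 4 (.s k51 k187 9 (.s
  k153 k204 14 (.d k17 k34 k221 4 9))))) (.c k153 (.f k119 k68 4 (.q k247 [(.s k55 k183 7 (.s k149
  k196 12 (.s k21 k213 7 (.d k4 k38 k166 4 12)))), (.s k243 k251 1 (.s k81 k162 12 (.s k89 k93 1 (.d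
  k166 k4 k12 12 14))))] (.c k4 (.l (.s k183 k55 7 (.s k187 k51 9 (.s k191 k179 1 (.s k63 k127 7 (.d
  k243 k251 k123 1 9)))))) (.c k136 (.l (.s k187 k51 9 (.s k4 k166 12 (.s k55 k183 7 (.s k21 k38 4
  (.d k149 k213 k196 7 12)))))) (.c k166 (.l (.s k55 k183 7 (.s k149 k196 12 (.s k21 k213 7 (.s k63
  k42 6 (.d k51 k59 k187 1 9)))))) (.c k187 (.q k136 [(.s k166 k4 12 (.s k230 k38 7 (.s k196 k213 4
  (.d k55 k183 k149 7 12)))), (.s k243 k251 1 (.s k81 k162 12 (.s k89 k93 1 (.d k166 k4 k12 12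
  14))))] (.c k4 (.l (.s k183 k55 7 (.s k243 k251 1 (.s k81 k162 12 (.s k89 k93 1 (.s k115 k76 6 (.d
  k123 k127 k63 1 9))))))) (.c k166 (.l (.s k55 k183 7 (.s k149 k196 12 (.s k21 k213 7 (.s k63 k42 6
  (.s k106 k192 14 (.d k127 k191 k64 7 6))))))) .n))) .n)))))) (.c k187 (.l (.s k68 k119 4 (.s k204
  k136 9 (.s k153 k51 14 (.d k221 k238 k17 4 9))))) (.c k204 (.f k68 k119 4 (.q k64 [(.s k76 k72 1
  (.s k89 k115 6 (.s k93 k81 1 (.d k127 k110 k106 4 6)))), (.s k192 k128 7 (.s k213 k234 6 (.s k149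
  k21 7 (.d k106 k127 k63 6 14))))] (.c k70 (.q k137 [(.s k76 k72 1 (.s k89 k115 6 (.s k93 k81 1 (.d
  k127 k110 k106 4 6)))), (.s k192 k128 7 (.s k213 k234 6 (.s k149 k21 7 (.d k106 k127 k63 6 14))))]
  (.c k106 (.l (.s k76 k72 1 (.s k89 k115 6 (.s k81 k93 1 (.s k243 k162 12 (.s k166 k12 14 (.d k247
  k251 k4 1 12))))))) (.c k127 (.l (.s k72 k76 1 (.s k192 k128 7 (.s k213 k234 6 (.s k149 k21 7 (.s
  k196 k55 12 (.d k132 k4 k12 7 9))))))) .n))) (.c k106 (.l (.s k76 k72 1 (.s k89 k115 6 (.s k81 k93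
  1 (.s k243 k162 12 (.s k166 k12 14 (.d k247 k251 k4 1 12))))))) (.c k127 (.l (.s k72 k76 1 (.s
  k192 k128 7 (.s k213 k234 6 (.s k149 k21 7 (.s k196 k55 12 (.d k132 k4 k12 7 9))))))) (.c k137 (.q
  k70 [(.s k76 k72 1 (.s k89 k115 6 (.s k93 k81 1 (.d k127 k110 k106 4 6)))), (.s k71 k69 0 (.s k86
  k118 3 (.s k84 k87 0 (.d k116 k100 k101 3 4))))] .n) .n)))))) (.c k221 (.q k4 [(.s k12 k8 1 (.s
  k93 k174 12 (.s k89 k81 1 (.d k166 k247 k243 12 14)))), (.s k68 k119 4 (.s k166 k247 12 (.s k38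
  k230 7 (.s k55 k21 4 (.d k196 k132 k149 7 12))))), (.s k12 k8 1 (.s k68 k119 4 (.s k132 k196 7 (.s
  k72 k192 9 (.s k76 k64 1 (.d k204 k140 k136 7 9))))))] .n) (.c k238 (.l (.s k119 k68 4 (.s k51
  k187 9 (.s k17 k34 4 (.d k153 k221 k204 9 14))))) .n))))))))))))

def t3_31 : T TT 256 :=
  (.f k255 k170 14 (.q k101 [(.s k69 k117 3 (.s k207 k138 10 (.s k223 k239 3 (.d k154 k16 k48 10
  14))))] (.c k16 (.q k21 [(.s k63 k42 6 (.s k127 k191 7 (.s k106 k64 6 (.d k149 k213 k192 7 14)))),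
  (.s k117 k69 3 (.s k149 k213 7 (.s k53 k197 11 (.s k5 k37 3 (.d k245 k181 k165 7 11))))), (.s k63
  k42 6 (.s k69 k117 3 (.s k207 k138 10 (.s k111 k159 11 (.s k106 k96 2 (.d k127 k64 k191 6 7))))))]
  .n) (.c k48 (.f k117 k69 3 (.q k253 [(.s k49 k185 9 (.s k153 k205 13 (.s k17 k221 9 (.d k1 k33
  k169 3 13)))), (.s k252 k254 0 (.s k84 k168 13 (.s k86 k87 0 (.s k116 k71 4 (.s k68 k100 3 (.d
  k119 k118 k102 0 4))))))] (.c k18 (.q k33 [(.d k169 k237 k1 9 13), (.s k49 k185 9 (.s k17 k1 3 (.d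
  k153 k205 k221 13 9)))] (.c k1 (.l (.s k49 k185 9 (.s k205 k153 13 (.d k237 k169 k221 9 3)))) .n))
  (.c k33 (.q k18 [(.s k49 k185 9 (.s k153 k205 13 (.s k221 k17 9 (.s k204 k238 4 (.s k68 k136 9 (.d
  k102 k119 k51 4 14)))))), (.s k252 k254 0 (.s k84 k168 13 (.s k86 k87 0 (.s k116 k71 4 (.s k68
  k100 3 (.d k119 k118 k102 0 4)))))), (.s k185 k49 9 (.s k252 k254 0 (.s k51 k118 10 (.s k17 k34 4
  (.s k153 k221 9 (.d k169 k1 k137 13 3))))))] (.c k102 (.l (.s k185 k49 9 (.s k252 k254 0 (.s k84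
  k168 13 (.s k86 k87 0 (.s k116 k71 4 (.d k118 k119 k51 0 10))))))) .n)) (.c k169 (.l (.s k49 k185
  9 (.s k153 k205 13 (.s k17 k221 9 (.s k51 k34 4 (.s k102 k204 14 (.d k119 k68 k187 4 9)))))))
  .n))))) (.c k69 (.q k5 [(.s k15 k10 2 (.s k95 k175 11 (.s k90 k80 2 (.d k165 k245 k240 11 14)))),
  (.s k165 k245 11 (.s k37 k229 7 (.s k21 k53 3 (.s k63 k42 6 (.s k127 k191 7 (.s k106 k64 6 (.d
  k149 k213 k192 7 14)))))))] (.c k165 (.f k15 k10 2 (.q k90 [(.d k95 k175 k80 11 2), (.s k79 k112 6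
  (.s k207 k143 7 (.s k154 k48 14 (.d k223 k239 k16 3 10))))] (.c k160 (.l (.s k175 k95 11 (.s k79
  k112 6 (.s k207 k143 7 (.s k154 k48 14 (.d k223 k239 k16 3 10)))))) (.c k175 (.q k160 [(.d k80 k95
  k240 2 11), (.s k79 k112 6 (.s k207 k143 7 (.s k223 k239 3 (.d k154 k16 k48 10 14))))] .n) .n))))
  (.c k245 (.l (.s k15 k10 2 (.s k95 k175 11 (.s k90 k80 2 (.s k79 k112 6 (.s k207 k143 7 (.s k154
  k48 14 (.d k223 k239 k16 3 10)))))))) .n))) (.c k117 (.q k247 [(.s k166 k4 12 (.s k243 k251 1 (.s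
  k81 k162 12 (.d k89 k93 k12 1 14)))), (.s k166 k4 12 (.s k231 k36 8 (.s k215 k199 3 (.s k195 k235
  5 (.s k65 k130 8 (.s k105 k125 5 (.d k150 k20 k60 8 14)))))))] (.c k4 (.l (.s k243 k251 1 (.s k81
  k162 12 (.s k89 k93 1 (.s k113 k77 5 (.s k48 k178 8 (.s k16 k32 3 (.d k154 k223 k207 10 14))))))))
  (.c k166 (.f k243 k251 1 (.q k89 [(.d k81 k162 k93 12 1), (.s k113 k77 5 (.s k48 k178 8 (.s k16
  k32 3 (.d k154 k223 k207 10 14))))] (.c k162 (.q k174 [(.d k93 k81 k12 1 12), (.s k113 k77 5 (.s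
  k48 k178 8 (.s k16 k32 3 (.d k154 k223 k207 10 14))))] .n) (.c k174 (.l (.s k162 k81 12 (.s k113
  k77 5 (.s k48 k178 8 (.s k16 k32 3 (.d k154 k223 k207 10 14)))))) .n)))) .n))) (.c k138 (.l (.s
  k117 k69 3 (.s k48 k186 10 (.s k154 k207 14 (.d k16 k32 k223 3 10))))) (.c k154 (.f k69 k117 3 (.q
  k149 [(.s k21 k213 7 (.s k63 k42 6 (.s k127 k191 7 (.d k106 k64 k192 6 14)))), (.s k197 k53 11 (.s
  k5 k133 7 (.s k15 k10 2 (.s k95 k175 11 (.s k90 k80 2 (.d k165 k245 k240 11 14))))))] (.c k138 (.q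
  k186 [(.s k21 k213 7 (.s k63 k42 6 (.s k127 k191 7 (.d k106 k64 k192 6 14)))), (.s k197 k53 11 (.s
  k5 k133 7 (.s k15 k10 2 (.s k95 k175 11 (.s k90 k80 2 (.d k165 k245 k240 11 14))))))] .n) (.c k186
  (.l (.s k138 k207 10 (.s k21 k213 7 (.s k63 k42 6 (.s k106 k192 14 (.d k127 k64 k191 6 7))))))
  .n)))) (.c k186 (.l (.s k69 k117 3 (.s k207 k138 10 (.s k154 k48 14 (.d k223 k239 k16 3 10)))))
  (.c k207 (.q k71 [(.s k69 k117 3 (.s k68 k70 0 (.s k86 k116 4 (.s k87 k84 0 (.d k119 k103 k102 3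
  4))))), (.s k116 k86 4 (.s k117 k69 3 (.s k48 k186 10 (.s k118 k119 0 (.s k252 k184 9 (.s k185 k51
  10 (.d k253 k254 k49 0 9))))))), (.s k69 k117 3 (.s k68 k70 0 (.s k204 k136 9 (.s k221 k238 4 (.s
  k153 k17 9 (.d k102 k119 k51 4 14)))))), (.s k86 k116 4 (.s k87 k84 0 (.s k119 k103 3 (.s k51 k187
  9 (.s k17 k34 4 (.s k153 k221 9 (.d k102 k68 k204 4 14)))))))] (.c k119 (.q k4 [(.s k12 k8 1 (.s
  k93 k174 12 (.s k89 k81 1 (.d k166 k247 k243 12 14)))), (.s k69 k117 3 (.s k70 k68 0 (.s k199 k134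
  8 (.s k7 k135 7 (.s k5 k6 0 (.d k133 k197 k196 7 8))))))] (.c k12 (.l (.s k69 k117 3 (.s k166 k247
  12 (.s k36 k231 8 (.s k52 k20 3 (.d k199 k134 k150 8 12)))))) .n)) .n)) (.c k223 (.q k95 [(.s k15
  k175 11 (.s k5 k10 2 (.s k90 k80 2 (.d k165 k245 k240 11 14)))), (.s k69 k117 3 (.s k90 k80 2 (.s
  k79 k112 6 (.s k64 k74 2 (.d k127 k111 k106 3 6))))), (.s k15 k175 11 (.s k69 k117 3 (.s k207 k138
  10 (.s k79 k143 7 (.s k64 k74 2 (.d k127 k111 k106 3 6))))))] .n) (.c k239 (.l (.s k117 k69 3 (.s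
  k48 k186 10 (.s k16 k32 3 (.d k154 k223 k207 10 14))))) .n))))))))))))

def t3_40 : T TT 256 :=
  (.q k89 [(.s k81 k93 1 (.s k243 k162 12 (.s k12 k166 14 (.s k8 k4 1 (.d k170 k251 k255 12 14)))))]
  (.c k4 (.q k1 [(.s k93 k81 1 (.s k253 k169 13 (.s k13 k173 11 (.s k165 k241 13 (.d k5 k9 k245 1
  11))))), (.s k81 k93 1 (.s k170 k255 14 (.s k241 k161 11 (.s k243 k162 12 (.s k240 k242 0 (.s k160
  k80 11 (.d k165 k175 k13 2 13))))))), (.s k169 k253 13 (.s k9 k249 11 (.s k170 k255 14 (.s k8 k251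
  12 (.s k10 k11 0 (.d k5 k15 k13 2 1))))))] (.c k13 (.l (.s k81 k93 1 (.s k241 k161 11 (.s k243
  k162 12 (.s k240 k242 0 (.s k253 k169 13 (.s k245 k249 1 (.d k255 k250 k170 2 14)))))))) (.c k241
  (.l (.s k81 k93 1 (.s k169 k253 13 (.s k170 k255 14 (.s k243 k162 12 (.s k249 k9 11 (.s k252 k246
  2 (.d k168 k171 k84 0 13)))))))) .n))) (.c k8 (.l (.s k81 k93 1 (.s k243 k162 12 (.s k166 k12 14
  (.s k247 k4 12 (.d k255 k251 k170 1 14)))))) (.c k12 (.f k255 k170 14 (.f k81 k93 1 (.q k235 [(.s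
  k195 k215 5 (.s k65 k130 8 (.s k105 k125 5 (.s k73 k121 3 (.s k77 k69 1 (.d k113 k97 k101 3
  5)))))), (.s k243 k162 12 (.s k251 k247 1 (.s k219 k203 3 (.s k154 k24 8 (.s k223 k16 10 (.d k207
  k239 k231 3 5))))))] (.c k6 (.q k9 [(.s k169 k249 11 (.s k1 k253 13 (.s k13 k5 1 (.d k241 k161
  k165 11 13)))), (.s k215 k195 5 (.s k150 k20 8 (.s k211 k28 10 (.s k16 k146 8 (.d k223 k219 k154 1
  10)))))] .n) (.c k9 (.q k6 [(.s k195 k215 5 (.s k65 k130 8 (.s k105 k125 5 (.s k73 k121 3 (.s k77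
  k69 1 (.d k113 k97 k101 3 5)))))), (.s k243 k162 12 (.s k251 k247 1 (.s k219 k203 3 (.s k154 k24 8
  (.s k223 k16 10 (.d k207 k239 k231 3 5))))))] .n) .n))))) (.c k81 (.q k15 [(.s k5 k10 2 (.s k165
  k245 11 (.s k170 k255 14 (.s k160 k175 2 (.d k240 k80 k90 11 14))))), (.s k5 k10 2 (.s k165 k245
  11 (.s k13 k241 13 (.s k12 k14 0 (.s k4 k8 1 (.d k166 k247 k243 12 14)))))), (.s k170 k255 14 (.s
  k8 k251 12 (.s k12 k4 1 (.s k13 k14 0 (.s k165 k241 13 (.s k160 k175 2 (.d k240 k80 k90 11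
  14)))))))] (.c k165 (.l (.s k10 k5 2 (.s k170 k255 14 (.s k8 k251 12 (.s k11 k9 0 (.s k90 k250 11
  (.s k88 k91 0 (.d k248 k168 k169 11 12)))))))) .n)) (.c k93 (.q k15 [(.s k5 k10 2 (.s k165 k245 11
  (.s k90 k240 14 (.s k95 k80 2 (.d k255 k175 k170 11 14))))), (.s k5 k10 2 (.s k165 k245 11 (.s k13
  k241 13 (.s k12 k14 0 (.s k4 k8 1 (.d k166 k247 k243 12 14)))))), (.s k170 k255 14 (.s k8 k251 12
  (.s k12 k4 1 (.s k13 k14 0 (.s k165 k241 13 (.s k160 k175 2 (.d k240 k80 k90 11 14)))))))] (.c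
  k165 (.l (.s k10 k5 2 (.s k170 k255 14 (.s k8 k251 12 (.s k11 k9 0 (.s k90 k250 11 (.s k88 k91 0
  (.d k248 k168 k169 11 12)))))))) .n)) (.c k162 (.l (.s k93 k81 1 (.s k255 k170 14 (.s k12 k174 12
  (.s k166 k243 14 (.d k4 k8 k247 1 12)))))) (.c k166 (.q k1 [(.s k81 k93 1 (.s k169 k253 13 (.s k9
  k249 11 (.s k13 k5 1 (.d k241 k161 k165 11 13))))), (.s k81 k93 1 (.s k170 k255 14 (.s k241 k161
  11 (.s k243 k162 12 (.s k240 k242 0 (.s k160 k80 11 (.d k165 k175 k13 2 13))))))), (.s k169 k253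
  13 (.s k9 k249 11 (.s k170 k255 14 (.s k8 k251 12 (.s k10 k11 0 (.d k5 k15 k13 2 1))))))] (.c k13
  (.l (.s k81 k93 1 (.s k241 k161 11 (.s k243 k162 12 (.s k240 k242 0 (.s k253 k169 13 (.s k245 k249
  1 (.d k255 k170 k250 14 2)))))))) (.c k241 (.l (.s k81 k93 1 (.s k169 k253 13 (.s k170 k255 14 (.s
  k243 k162 12 (.s k249 k9 11 (.s k252 k246 2 (.d k168 k171 k84 0 13)))))))) .n))) (.c k170 (.q k105
  [(.s k65 k125 5 (.s k73 k121 3 (.s k77 k69 1 (.s k81 k93 1 (.d k113 k97 k101 3 5))))), (.s k81 k93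
  1 (.s k121 k73 3 (.s k243 k162 12 (.s k60 k182 10 (.s k150 k195 14 (.s k28 k211 10 (.d k12 k166
  k44 14 3))))))), (.s k65 k125 5 (.s k81 k93 1 (.s k195 k130 8 (.s k150 k60 14 (.s k211 k28 10 (.d
  k243 k227 k162 3 12)))))), (.s k65 k125 5 (.s k73 k121 3 (.s k195 k130 8 (.s k12 k134 10 (.s k4 k8
  1 (.d k166 k247 k243 12 14))))))] .n) (.c k174 (.l (.s k81 k93 1 (.s k243 k162 12 (.s k12 k166 14
  (.s k170 k255 14 (.d k8 k4 k251 1 12)))))) (.c k243 (.f k255 k170 14 (.q k105 [(.s k65 k125 5 (.s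
  k195 k130 8 (.s k215 k235 5 (.d k150 k20 k60 8 14)))), (.s k65 k125 5 (.s k81 k93 1 (.s k113 k97 3
  (.s k77 k101 5 (.d k73 k69 k121 1 3))))), (.s k73 k121 3 (.s k93 k81 1 (.s k12 k174 12 (.s k195
  k134 10 (.s k215 k235 5 (.d k150 k60 k20 14 8))))))] (.c k83 (.q k163 [(.s k65 k125 5 (.s k195
  k130 8 (.s k215 k235 5 (.d k150 k20 k60 8 14)))), (.s k65 k125 5 (.s k81 k93 1 (.s k113 k97 3 (.s
  k77 k101 5 (.d k73 k69 k121 1 3))))), (.s k73 k121 3 (.s k93 k81 1 (.s k12 k174 12 (.s k195 k134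
  10 (.s k215 k235 5 (.d k150 k60 k20 14 8))))))] .n) (.c k163 (.q k83 [(.s k65 k125 5 (.s k195 k130
  8 (.s k215 k235 5 (.d k150 k20 k60 8 14)))), (.s k73 k121 3 (.s k86 k92 2 (.s k67 k124 6 (.s k76
  k70 2 (.d k115 k99 k102 3 6)))))] (.c k60 (.l (.s k65 k125 5 (.s k81 k93 1 (.s k113 k97 3 (.s k77
  k101 5 (.d k73 k69 k121 1 3)))))) .n)) .n)))) (.c k251 (.l (.s k93 k81 1 (.s k255 k170 14 (.s k12
  k174 12 (.s k4 k8 1 (.d k166 k247 k243 12 14)))))) (.c k255 (.q k91 [(.s k90 k88 0 (.s k93 k81 1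
  (.s k95 k80 2 (.s k92 k94 0 (.d k83 k87 k86 1 2))))), (.s k81 k93 1 (.s k243 k162 12 (.s k12 k166
  14 (.s k15 k167 13 (.s k5 k10 2 (.s k165 k245 11 (.d k13 k14 k241 0 13))))))), (.s k90 k88 0 (.s
  k80 k95 2 (.s k240 k160 11 (.s k15 k165 14 (.s k243 k167 13 (.s k242 k241 0 (.d k166 k14 k12 13
  14)))))))] (.c k87 (.q k171 [(.s k81 k93 1 (.s k243 k162 12 (.s k12 k166 14 (.s k8 k4 1 (.d k251
  k170 k11 12 11))))), (.s k90 k88 0 (.s k80 k95 2 (.s k240 k160 11 (.s k15 k165 14 (.s k10 k5 2 (.s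
  k170 k250 11 (.d k251 k11 k8 11 12))))))), (.s k81 k93 1 (.s k90 k88 0 (.s k80 k95 2 (.s k240 k160
  11 (.s k243 k162 12 (.d k15 k167 k165 13 14))))))] .n) (.c k171 (.q k87 [(.s k86 k84 0 (.d k83 k95
  k92 1 2)), (.s k81 k93 1 (.s k90 k88 0 (.s k243 k162 12 (.s k15 k167 13 (.s k5 k10 2 (.d k165 k245
  k240 11 14))))))] .n) .n))) .n)))))))))))))

def t3_41 : T TT 256 :=
  (.q k60 [(.s k40 k20 5 (.s k170 k255 14 (.s k105 k235 8 (.s k65 k125 5 (.d k195 k130 k150 8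
  14))))), (.s k20 k40 5 (.s k150 k215 8 (.s k105 k195 14 (.s k125 k65 5 (.d k255 k190 k170 8
  14)))))] (.c k20 (.q k12 [(.s k4 k8 1 (.s k166 k247 12 (.s k89 k243 14 (.s k93 k81 1 (.d k255 k174
  k170 12 14))))), (.s k4 k8 1 (.s k44 k28 3 (.s k166 k247 12 (.s k105 k227 10 (.s k65 k125 5 (.d
  k195 k130 k150 8 14)))))), (.s k44 k28 3 (.s k255 k170 14 (.s k174 k93 12 (.s k109 k239 8 (.s k158
  k207 12 (.d k190 k142 k125 3 8))))))] .n) (.c k40 (.q k69 [(.s k101 k117 3 (.s k207 k138 10 (.s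
  k48 k154 14 (.s k32 k16 3 (.d k170 k239 k255 10 14))))), (.s k101 k117 3 (.s k207 k138 10 (.s k109
  k158 12 (.s k105 k97 1 (.s k65 k125 5 (.d k195 k130 k150 8 14)))))), (.s k207 k138 10 (.s k109
  k158 12 (.s k255 k170 14 (.s k125 k190 8 (.s k77 k93 3 (.d k65 k105 k73 5 1)))))), (.s k117 k101 3
  (.s k255 k170 14 (.s k125 k190 8 (.s k121 k113 1 (.s k182 k243 10 (.s k52 k247 8 (.d k48 k56 k186
  1 10)))))))] (.c k42 (.q k43 [(.s k101 k117 3 (.s k207 k138 10 (.s k48 k154 14 (.s k32 k16 3 (.d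
  k170 k239 k255 10 14))))), (.s k101 k117 3 (.s k207 k138 10 (.s k109 k158 12 (.s k105 k97 1 (.s
  k65 k125 5 (.d k195 k130 k150 8 14)))))), (.s k207 k138 10 (.s k109 k158 12 (.s k255 k170 14 (.s
  k125 k190 8 (.s k77 k93 3 (.d k65 k105 k73 5 1)))))), (.s k117 k101 3 (.s k255 k170 14 (.s k125
  k190 8 (.s k121 k113 1 (.s k182 k243 10 (.s k52 k247 8 (.d k48 k56 k186 1 10)))))))] .n) (.c k43
  (.q k42 [(.s k101 k117 3 (.s k207 k138 10 (.s k48 k154 14 (.s k32 k16 3 (.d k170 k239 k255 10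
  14))))), (.s k63 k21 6 (.s k170 k255 14 (.s k106 k234 7 (.s k64 k127 6 (.d k192 k128 k149 7
  14))))), (.s k101 k117 3 (.s k207 k138 10 (.s k109 k158 12 (.s k105 k97 1 (.s k65 k125 5 (.d k195
  k130 k150 8 14))))))] (.c k23 (.l (.s k63 k21 6 (.s k170 k255 14 (.s k106 k234 7 (.s k64 k127 6
  (.d k192 k128 k149 7 14)))))) (.c k63 (.q k23 [(.s k101 k117 3 (.s k207 k138 10 (.s k48 k154 14
  (.s k32 k16 3 (.d k170 k239 k255 10 14))))), (.s k101 k117 3 (.s k207 k138 10 (.s k109 k158 12 (.s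
  k105 k97 1 (.s k65 k125 5 (.d k195 k130 k150 8 14)))))), (.s k207 k138 10 (.s k109 k158 12 (.s
  k255 k170 14 (.s k125 k190 8 (.s k77 k93 3 (.d k65 k105 k73 5 1))))))] (.c k138 (.l (.s k101 k117
  3 (.s k170 k255 14 (.s k32 k239 10 (.s k47 k37 2 (.s k106 k234 7 (.s k96 k111 2 (.d k224 k160 k165
  7 10)))))))) (.c k207 (.l (.s k117 k101 3 (.s k255 k170 14 (.s k48 k186 10 (.s k52 k56 1 (.s k125
  k190 8 (.s k121 k113 1 (.d k182 k247 k243 8 10)))))))) .n))) .n))) .n))) (.c k65 (.q k4 [(.s k12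
  k8 1 (.s k166 k247 12 (.s k89 k243 14 (.s k93 k81 1 (.d k255 k174 k170 12 14))))), (.s k12 k8 1
  (.s k20 k40 5 (.s k28 k44 3 (.s k24 k16 1 (.d k36 k52 k48 3 5))))), (.s k20 k40 5 (.s k52 k36 3
  (.s k150 k215 8 (.s k101 k199 12 (.s k117 k69 3 (.d k247 k182 k166 8 12))))))] .n) (.c k105 (.f
  k255 k170 14 (.f k40 k20 5 (.q k252 [(.s k168 k84 13 (.s k104 k232 7 (.s k148 k192 13 (.d k188
  k128 k124 5 7)))), (.s k124 k188 7 (.s k125 k190 8 (.s k126 k127 0 (.s k189 k63 8 (.d k253 k254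
  k61 0 7)))))] (.c k124 (.f k84 k168 13 (.l (.s k86 k87 0 (.s k190 k125 8 (.s k254 k253 0 (.s k126
  k62 7 (.s k106 k66 5 (.s k127 k64 6 (.d k63 k189 k191 8 7))))))))) (.c k169 (.q k233 [(.s k168 k84
  13 (.s k195 k214 6 (.s k235 k215 5 (.d k232 k234 k104 0 7)))), (.s k124 k188 7 (.s k125 k190 8 (.s
  k126 k127 0 (.s k189 k63 8 (.d k253 k254 k61 0 7)))))] (.c k168 (.q k171 [(.s k188 k124 7 (.s k254
  k253 0 (.s k190 k125 8 (.s k126 k62 7 (.d k189 k191 k63 0 8))))), (.s k195 k214 6 (.s k235 k215 5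
  (.s k234 k232 0 (.s k213 k192 6 (.d k253 k254 k193 0 5)))))] (.c k253 (.l (.s k124 k188 7 (.s k125
  k190 8 (.s k127 k126 0 (.s k64 k106 6 (.s k104 k84 5 (.d k192 k128 k148 7 13))))))) (.c k254 (.l
  (.s k188 k124 7 (.s k190 k125 8 (.s k191 k189 0 (.s k151 k131 5 (.s k195 k214 6 (.d k63 k127 k107
  7 13))))))) .n))) (.c k171 (.l (.s k168 k84 13 (.s k104 k232 7 (.s k148 k192 13 (.d k188 k128 k124
  5 7))))) .n))) (.c k188 (.l (.s k168 k84 13 (.s k232 k104 7 (.s k253 k254 0 (.s k169 k1 13 (.s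
  k106 k43 8 (.s k64 k127 6 (.d k192 k212 k128 5 7)))))))) (.c k233 (.q k169 [(.d k253 k254 k1 0
  13), (.s k168 k84 13 (.s k104 k232 7 (.s k148 k192 13 (.d k188 k128 k124 5 7))))] .n) .n)))))))
  (.c k125 (.l (.s k20 k40 5 (.s k150 k215 8 (.s k170 k255 14 (.s k130 k190 5 (.d k195 k65 k105 8
  14)))))) (.c k150 (.q k4 [(.s k12 k8 1 (.s k166 k247 12 (.s k89 k243 14 (.s k93 k81 1 (.d k255
  k174 k170 12 14))))), (.s k12 k8 1 (.s k20 k40 5 (.s k28 k44 3 (.s k24 k16 1 (.d k36 k52 k48 3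
  5))))), (.s k20 k40 5 (.s k52 k36 3 (.s k247 k166 12 (.s k182 k117 8 (.s k243 k121 10 (.d k255
  k251 k170 1 14))))))] .n) (.c k170 (.q k4 [(.s k12 k8 1 (.s k44 k28 3 (.s k166 k247 12 (.s k105
  k227 10 (.s k65 k125 5 (.d k195 k130 k150 8 14)))))), (.s k20 k40 5 (.s k52 k36 3 (.s k150 k215 8
  (.s k101 k199 12 (.s k117 k69 3 (.d k247 k182 k166 8 12)))))), (.s k12 k8 1 (.s k20 k40 5 (.s k28
  k44 3 (.s k24 k16 1 (.d k36 k52 k48 3 5)))))] (.c k44 (.l (.s k12 k8 1 (.s k20 k40 5 (.s k150 k215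
  8 (.s k166 k247 12 (.s k134 k182 3 (.d k195 k105 k73 14 10))))))) (.c k105 (.l (.s k12 k8 1 (.s
  k28 k44 3 (.s k166 k247 12 (.s k89 k243 14 (.s k150 k211 10 (.d k20 k40 k215 5 8))))))) .n))) (.c
  k195 (.f k255 k170 14 (.f k190 k125 8 (.f k40 k20 5 (.q k158 [(.s k174 k142 3 (.s k12 k93 12 (.s
  k44 k28 3 (.d k109 k239 k207 8 12)))), (.s k207 k109 12 (.s k69 k138 10 (.s k101 k117 3 (.s k154
  k48 14 (.d k223 k239 k16 3 10))))), (.s k174 k142 3 (.s k12 k93 12 (.s k8 k4 1 (.s k24 k56 3 (.s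
  k36 k48 5 (.d k44 k32 k28 1 3))))))] (.c k67 (.q k131 [(.s k174 k142 3 (.s k12 k93 12 (.s k44 k28
  3 (.d k109 k239 k207 8 12)))), (.s k207 k109 12 (.s k69 k138 10 (.s k101 k117 3 (.s k154 k48 14
  (.d k223 k239 k16 3 10))))), (.s k174 k142 3 (.s k12 k93 12 (.s k8 k4 1 (.s k24 k56 3 (.s k36 k48
  5 (.d k44 k32 k28 1 3))))))] (.c k77 (.l (.s k109 k207 12 (.s k174 k142 3 (.s k12 k93 12 (.d k44
  k28 k239 3 8))))) (.c k93 (.l (.s k109 k207 12 (.s k174 k142 3 (.s k44 k239 8 (.s k12 k28 3 (.s k8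
  k4 1 (.s k24 k56 3 (.d k36 k32 k48 1 5)))))))) (.c k109 (.l (.s k174 k142 3 (.s k93 k12 12 (.s
  k223 k28 8 (.s k207 k239 3 (.s k69 k138 10 (.s k101 k117 3 (.d k154 k16 k48 10 14)))))))) .n))))
  (.c k77 (.l (.s k109 k207 12 (.s k174 k142 3 (.s k12 k93 12 (.d k44 k28 k239 3 8))))) (.c k93 (.l
  (.s k109 k207 12 (.s k174 k142 3 (.s k44 k239 8 (.s k12 k28 3 (.s k8 k4 1 (.s k24 k56 3 (.d k36
  k32 k48 1 5)))))))) (.c k109 (.l (.s k174 k142 3 (.s k93 k12 12 (.s k223 k28 8 (.s k207 k239 3 (.s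
  k69 k138 10 (.s k101 k117 3 (.d k154 k16 k48 10 14)))))))) (.c k131 (.q k67 [(.s k174 k142 3 (.s
  k12 k93 12 (.s k44 k28 3 (.d k109 k239 k207 8 12)))), (.s k207 k109 12 (.s k69 k138 10 (.s k101
  k117 3 (.s k154 k48 14 (.d k223 k239 k16 3 10))))), (.s k174 k142 3 (.s k12 k93 12 (.s k8 k4 1 (.s
  k24 k56 3 (.s k36 k48 5 (.d k44 k32 k28 1 3))))))] (.c k77 (.l (.s k109 k207 12 (.s k174 k142 3
  (.s k12 k93 12 (.d k44 k28 k239 3 8))))) (.c k93 (.l (.s k109 k207 12 (.s k174 k142 3 (.s k44 k239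
  8 (.s k12 k28 3 (.s k8 k4 1 (.s k24 k56 3 (.d k36 k32 k48 1 5)))))))) (.c k109 (.l (.s k174 k142 3
  (.s k93 k12 12 (.s k223 k28 8 (.s k207 k239 3 (.s k69 k138 10 (.s k101 k117 3 (.d k154 k16 k48 10
  14)))))))) .n)))) .n))))))))) (.c k215 (.l (.s k40 k20 5 (.s k170 k255 14 (.s k105 k235 8 (.s k195
  k150 14 (.d k65 k125 k130 5 8)))))) (.c k235 (.l (.s k20 k40 5 (.s k150 k215 8 (.s k105 k195 14
  (.s k255 k170 14 (.d k125 k65 k190 5 8)))))) (.c k255 (.q k12 [(.s k8 k4 1 (.s k44 k28 3 (.s k40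
  k20 5 (.s k36 k32 1 (.d k24 k56 k48 3 5))))), (.s k4 k8 1 (.s k44 k28 3 (.s k166 k247 12 (.s k105
  k227 10 (.s k65 k125 5 (.d k195 k130 k150 8 14)))))), (.s k20 k40 5 (.s k28 k44 3 (.s k150 k215 8
  (.s k89 k211 10 (.s k81 k93 1 (.d k243 k162 k166 12 14)))))), (.s k4 k8 1 (.s k20 k40 5 (.s k150
  k215 8 (.s k166 k247 12 (.s k134 k182 3 (.d k195 k73 k105 10 14))))))] (.c k87 (.q k171 [(.s k8 k4
  1 (.s k44 k28 3 (.s k40 k20 5 (.s k36 k32 1 (.d k24 k56 k48 3 5))))), (.s k4 k8 1 (.s k44 k28 3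
  (.s k166 k247 12 (.s k105 k227 10 (.s k65 k125 5 (.d k195 k130 k150 8 14)))))), (.s k20 k40 5 (.s
  k28 k44 3 (.s k150 k215 8 (.s k89 k211 10 (.s k81 k93 1 (.d k243 k162 k166 12 14)))))), (.s k4 k8
  1 (.s k20 k40 5 (.s k150 k215 8 (.s k166 k247 12 (.s k134 k182 3 (.d k195 k73 k105 10 14))))))]
  .n) (.c k171 (.q k87 [(.s k8 k4 1 (.s k44 k28 3 (.s k40 k20 5 (.s k36 k32 1 (.d k24 k56 k48 3
  5))))), (.s k4 k8 1 (.s k44 k28 3 (.s k166 k247 12 (.s k105 k227 10 (.s k65 k125 5 (.d k195 k130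
  k150 8 14)))))), (.s k20 k40 5 (.s k28 k44 3 (.s k150 k215 8 (.s k89 k211 10 (.s k81 k93 1 (.d
  k243 k162 k166 12 14)))))), (.s k4 k8 1 (.s k20 k40 5 (.s k150 k215 8 (.s k166 k247 12 (.s k134
  k182 3 (.d k195 k73 k105 10 14))))))] .n) .n))) .n))))))))))))

def t3_42 : T TT 256 :=
  (.q k90 [(.s k80 k95 2 (.s k240 k160 11 (.s k15 k165 14 (.s k10 k5 2 (.d k170 k250 k255 11
  14)))))] (.c k5 (.q k4 [(.s k166 k247 12 (.s k170 k255 14 (.s k162 k174 1 (.s k243 k81 12 (.d k12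
  k8 k89 1 14))))), (.s k12 k8 1 (.s k80 k95 2 (.s k166 k247 12 (.s k14 k242 13 (.s k15 k13 0 (.d
  k240 k160 k165 11 14)))))), (.s k80 k95 2 (.s k166 k247 12 (.s k170 k255 14 (.s k240 k160 11 (.s
  k242 k14 13 (.s k243 k241 0 (.d k162 k174 k81 1 12)))))))] (.c k166 (.l (.s k8 k12 1 (.s k80 k95 2
  (.s k170 k255 14 (.s k89 k251 12 (.s k88 k91 0 (.s k84 k92 1 (.d k168 k252 k248 13 11)))))))) (.c
  k247 (.l (.s k8 k12 1 (.s k170 k255 14 (.s k250 k10 11 (.s k251 k89 12 (.s k248 k249 0 (.s k168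
  k88 11 (.d k169 k171 k11 0 12)))))))) .n))) (.c k10 (.l (.s k80 k95 2 (.s k240 k160 11 (.s k165
  k15 14 (.s k245 k5 11 (.d k255 k250 k170 2 14)))))) (.c k15 (.f k95 k80 2 (.q k138 [(.s k170 k255
  14 (.s k207 k69 10 (.s k154 k186 3 (.s k48 k101 14 (.d k16 k32 k223 3 10))))), (.s k69 k207 10 (.s
  k101 k117 3 (.s k79 k112 6 (.s k64 k74 2 (.d k127 k111 k106 3 6))))), (.s k170 k255 14 (.s k154
  k186 3 (.s k218 k26 7 (.s k223 k16 10 (.s k31 k159 7 (.d k208 k213 k149 2 10))))))] (.c k7 (.q k11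
  [(.s k170 k255 14 (.s k207 k69 10 (.s k154 k186 3 (.s k48 k101 14 (.d k16 k32 k223 3 10))))), (.s
  k69 k207 10 (.s k101 k117 3 (.s k79 k112 6 (.s k64 k74 2 (.d k127 k111 k106 3 6))))), (.s k169
  k248 12 (.s k170 k255 14 (.s k10 k250 11 (.s k8 k9 0 (.s k171 k168 0 (.d k251 k91 k89 11 12))))))]
  .n) (.c k11 (.q k7 [(.s k170 k255 14 (.s k207 k69 10 (.s k154 k186 3 (.s k48 k101 14 (.d k16 k32
  k223 3 10))))), (.s k69 k207 10 (.s k101 k117 3 (.s k79 k112 6 (.s k64 k74 2 (.d k127 k111 k106 3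
  6))))), (.s k170 k255 14 (.s k154 k186 3 (.s k218 k26 7 (.s k223 k16 10 (.s k31 k159 7 (.d k208
  k213 k149 2 10))))))] (.c k117 (.l (.s k170 k255 14 (.s k207 k69 10 (.s k154 k186 3 (.s k48 k101
  14 (.d k16 k32 k223 3 10)))))) .n)) (.c k117 (.l (.s k170 k255 14 (.s k207 k69 10 (.s k154 k186 3
  (.s k48 k101 14 (.d k16 k32 k223 3 10)))))) .n))))) (.c k80 (.q k4 [(.s k12 k8 1 (.s k166 k247 12
  (.s k170 k255 14 (.s k162 k174 1 (.d k243 k81 k89 12 14))))), (.s k12 k8 1 (.s k166 k247 12 (.s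
  k14 k242 13 (.s k15 k13 0 (.s k5 k10 2 (.d k165 k245 k240 11 14)))))), (.s k166 k247 12 (.s k14
  k242 13 (.s k170 k255 14 (.s k10 k250 11 (.s k5 k15 2 (.d k6 k7 k2 0 1))))))] (.c k166 (.l (.s k8
  k12 1 (.s k170 k255 14 (.s k10 k250 11 (.s k89 k251 12 (.s k88 k91 0 (.s k248 k168 11 (.d k11 k9
  k169 0 12)))))))) (.c k247 (.l (.s k8 k12 1 (.s k170 k255 14 (.s k250 k10 11 (.s k251 k89 12 (.s
  k248 k249 0 (.s k168 k88 11 (.d k169 k171 k11 0 12)))))))) .n))) (.c k95 (.q k4 [(.s k12 k8 1 (.s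
  k166 k247 12 (.s k89 k243 14 (.s k93 k81 1 (.d k255 k174 k170 12 14))))), (.s k166 k247 12 (.s k14
  k242 13 (.s k170 k255 14 (.s k10 k250 11 (.s k6 k2 1 (.d k5 k15 k7 2 0)))))), (.s k12 k8 1 (.s
  k166 k247 12 (.s k14 k242 13 (.s k15 k13 0 (.s k5 k10 2 (.d k165 k245 k240 11 14))))))] (.c k166
  (.l (.s k8 k12 1 (.s k170 k255 14 (.s k10 k250 11 (.s k89 k251 12 (.s k88 k91 0 (.s k248 k168 11
  (.d k11 k9 k169 0 12)))))))) (.c k247 (.l (.s k8 k12 1 (.s k170 k255 14 (.s k250 k10 11 (.s k251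
  k89 12 (.s k248 k249 0 (.s k168 k88 11 (.d k169 k171 k11 0 12)))))))) .n))) (.c k160 (.l (.s k95
  k80 2 (.s k255 k170 14 (.s k15 k175 11 (.s k165 k240 14 (.d k5 k10 k245 2 11)))))) (.c k165 (.q k4
  [(.s k166 k247 12 (.s k170 k255 14 (.s k162 k174 1 (.s k243 k81 12 (.d k12 k8 k89 1 14))))), (.s
  k12 k8 1 (.s k95 k80 2 (.s k166 k247 12 (.s k14 k242 13 (.s k15 k13 0 (.d k255 k175 k170 11
  14)))))), (.s k166 k247 12 (.s k14 k242 13 (.s k170 k255 14 (.s k10 k250 11 (.s k5 k15 2 (.d k6 k7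
  k2 0 1))))))] (.c k166 (.l (.s k8 k12 1 (.s k80 k95 2 (.s k170 k255 14 (.s k89 k251 12 (.s k88 k91
  0 (.s k84 k92 1 (.d k168 k252 k248 13 11)))))))) (.c k170 (.l (.s k12 k8 1 (.s k80 k95 2 (.s k166
  k247 12 (.s k89 k243 14 (.s k88 k91 0 (.d k240 k160 k164 11 13))))))) (.c k247 (.l (.s k8 k12 1
  (.s k170 k255 14 (.s k250 k10 11 (.s k251 k89 12 (.s k248 k249 0 (.s k168 k88 11 (.d k169 k171 k11
  0 12)))))))) (.c k255 (.l (.s k12 k8 1 (.s k80 k95 2 (.s k166 k247 12 (.s k240 k160 11 (.s k88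
  k164 13 (.d k89 k243 k91 14 0))))))) .n))))) (.c k170 (.q k106 [(.s k64 k127 6 (.s k74 k122 3 (.s
  k79 k69 2 (.s k80 k95 2 (.d k112 k96 k101 3 6))))), (.s k80 k95 2 (.s k122 k74 3 (.s k240 k160 11
  (.s k63 k181 10 (.s k149 k192 14 (.s k31 k208 10 (.d k15 k165 k47 14 3))))))), (.s k64 k127 6 (.s
  k80 k95 2 (.s k192 k128 7 (.s k149 k63 14 (.s k208 k31 10 (.d k240 k224 k160 3 11)))))), (.s k64
  k127 6 (.s k74 k122 3 (.s k192 k128 7 (.s k15 k133 10 (.s k5 k10 2 (.d k165 k245 k240 11 14))))))]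
  .n) (.c k175 (.l (.s k80 k95 2 (.s k240 k160 11 (.s k15 k165 14 (.s k170 k255 14 (.d k10 k5 k250 2
  11)))))) (.c k240 (.f k80 k95 2 (.q k82 [(.s k83 k81 0 (.s k86 k94 1 (.s k92 k89 2 (.d k84 k87 k88
  0 1)))), (.s k86 k94 1 (.s k170 k255 14 (.s k2 k254 13 (.s k242 k162 11 (.s k14 k166 13 (.d k10
  k250 k6 11 1)))))), (.s k81 k83 0 (.s k243 k162 12 (.s k255 k170 14 (.s k247 k251 1 (.s k166 k4 12
  (.d k89 k93 k12 1 14))))))] (.c k87 (.f k255 k170 14 (.f k83 k81 0 (.q k106 [(.s k64 k127 6 (.s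
  k112 k96 3 (.s k79 k101 6 (.d k74 k69 k122 2 3)))), (.s k74 k122 3 (.s k86 k94 1 (.s k66 k126 5
  (.s k78 k70 1 (.d k114 k98 k102 3 5))))), (.s k64 k127 6 (.s k192 k128 7 (.s k213 k234 6 (.d k149
  k21 k63 7 14))))] .n))) (.c k93 (.l (.s k83 k81 0 (.s k86 k94 1 (.s k92 k89 2 (.d k84 k87 k88 0
  1))))) .n)))) (.c k250 (.l (.s k95 k80 2 (.s k255 k170 14 (.s k15 k175 11 (.s k5 k10 2 (.d k165
  k245 k240 11 14)))))) (.c k255 (.q k112 [(.s k79 k101 6 (.s k95 k80 2 (.s k127 k111 3 (.s k106 k64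
  6 (.d k122 k117 k74 2 3))))), (.s k101 k79 6 (.s k69 k117 3 (.s k207 k138 10 (.s k48 k154 14 (.s
  k240 k176 7 (.s k229 k218 6 (.d k165 k37 k15 7 14))))))), (.s k80 k95 2 (.s k96 k64 3 (.s k240
  k160 11 (.s k48 k176 7 (.s k16 k32 3 (.d k144 k208 k192 7 11))))))] (.c k87 (.q k171 [(.s k79 k101
  6 (.s k95 k80 2 (.s k127 k111 3 (.s k106 k64 6 (.d k122 k117 k74 2 3))))), (.s k101 k79 6 (.s k69
  k117 3 (.s k207 k138 10 (.s k48 k154 14 (.s k240 k176 7 (.s k229 k218 6 (.d k165 k37 k15 7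
  14))))))), (.s k80 k95 2 (.s k96 k64 3 (.s k240 k160 11 (.s k48 k176 7 (.s k16 k32 3 (.d k144 k208
  k192 7 11))))))] .n) (.c k171 (.q k87 [(.s k79 k101 6 (.s k95 k80 2 (.s k127 k111 3 (.s k106 k64 6
  (.d k122 k117 k74 2 3))))), (.s k86 k84 0 (.s k94 k82 1 (.s k95 k80 2 (.s k83 k91 1 (.d k92 k93
  k89 0 2))))), (.s k79 k101 6 (.s k86 k84 0 (.s k82 k94 1 (.s k67 k97 4 (.s k75 k71 1 (.d k105 k120
  k124 4 6))))))] .n) .n))) .n)))))))))))))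

def t3_43 : T TT 256 :=
  (.q k63 [(.s k42 k21 6 (.s k170 k255 14 (.s k106 k234 7 (.s k64 k127 6 (.d k192 k128 k149 7
  14))))), (.s k21 k42 6 (.s k149 k213 7 (.s k106 k192 14 (.s k127 k64 6 (.d k255 k191 k170 7
  14)))))] (.c k21 (.q k12 [(.s k4 k8 1 (.s k166 k247 12 (.s k89 k243 14 (.s k93 k81 1 (.d k255 k174
  k170 12 14))))), (.s k4 k8 1 (.s k46 k29 4 (.s k166 k247 12 (.s k106 k226 9 (.s k64 k127 6 (.d
  k192 k128 k149 7 14)))))), (.s k46 k29 4 (.s k255 k170 14 (.s k174 k93 12 (.s k110 k238 7 (.s k157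
  k204 12 (.d k191 k140 k127 4 7))))))] .n) (.c k42 (.q k122 [(.s k240 k181 10 (.s k80 k160 11 (.s
  k90 k95 2 (.s k106 k74 3 (.s k64 k127 6 (.d k192 k128 k149 7 14)))))), (.s k170 k255 14 (.s k240
  k181 10 (.s k80 k160 11 (.s k90 k95 2 (.s k10 k250 11 (.d k15 k5 k165 2 14)))))), (.s k181 k240 10
  (.s k255 k170 14 (.s k127 k191 7 (.s k117 k112 2 (.s k48 k186 10 (.d k53 k58 k245 2 7)))))), (.s
  k255 k170 14 (.s k127 k191 7 (.s k106 k64 6 (.s k90 k74 3 (.s k95 k80 2 (.s k79 k111 3 (.d k112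
  k117 k101 2 6)))))))] (.c k40 (.q k41 [(.s k240 k181 10 (.s k80 k160 11 (.s k90 k95 2 (.s k106 k74
  3 (.s k64 k127 6 (.d k192 k128 k149 7 14)))))), (.s k170 k255 14 (.s k240 k181 10 (.s k80 k160 11
  (.s k90 k95 2 (.s k10 k250 11 (.d k15 k5 k165 2 14)))))), (.s k181 k240 10 (.s k255 k170 14 (.s
  k127 k191 7 (.s k117 k112 2 (.s k48 k186 10 (.d k53 k58 k245 2 7)))))), (.s k255 k170 14 (.s k127
  k191 7 (.s k106 k64 6 (.s k90 k74 3 (.s k95 k80 2 (.s k79 k111 3 (.d k112 k117 k101 2 6)))))))]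
  .n) (.c k41 (.q k40 [(.s k60 k20 5 (.s k170 k255 14 (.s k105 k235 8 (.s k65 k125 5 (.d k195 k130
  k150 8 14))))), (.s k60 k20 5 (.s k61 k62 0 (.s k181 k240 10 (.s k121 k241 9 (.s k123 k120 0 (.d
  k243 k183 k182 9 10))))))] (.c k20 (.l (.s k170 k255 14 (.s k240 k181 10 (.s k80 k160 11 (.s k90
  k95 2 (.s k10 k250 11 (.d k15 k5 k165 2 14))))))) (.c k22 (.l (.s k60 k20 5 (.s k170 k255 14 (.s
  k105 k235 8 (.s k65 k125 5 (.d k195 k130 k150 8 14)))))) (.c k60 (.q k22 [(.s k240 k181 10 (.s k80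
  k160 11 (.s k90 k95 2 (.s k106 k74 3 (.s k64 k127 6 (.d k192 k128 k149 7 14)))))), (.s k170 k255
  14 (.s k240 k181 10 (.s k80 k160 11 (.s k90 k95 2 (.s k10 k250 11 (.d k15 k5 k165 2 14)))))), (.s
  k181 k240 10 (.s k255 k170 14 (.s k127 k191 7 (.s k117 k112 2 (.s k48 k186 10 (.d k53 k58 k245 2
  7)))))), (.s k255 k170 14 (.s k127 k191 7 (.s k106 k64 6 (.s k90 k74 3 (.s k95 k80 2 (.s k79 k111
  3 (.d k112 k117 k101 2 6)))))))] .n) .n)))) .n))) (.c k64 (.q k4 [(.s k12 k8 1 (.s k21 k42 6 (.s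
  k29 k46 4 (.s k25 k17 1 (.d k38 k55 k51 4 6))))), (.s k12 k8 1 (.s k166 k247 12 (.s k89 k243 14
  (.s k93 k81 1 (.d k255 k174 k170 12 14))))), (.s k21 k42 6 (.s k55 k38 4 (.s k149 k213 7 (.s k102
  k196 12 (.s k119 k68 4 (.d k247 k183 k166 7 12))))))] .n) (.c k106 (.f k42 k21 6 (.q k59 [(.s k25
  k8 4 (.s k51 k55 1 (.s k34 k17 4 (.d k38 k46 k12 1 6)))), (.s k51 k55 1 (.s k255 k170 14 (.s k187
  k119 9 (.s k123 k251 7 (.s k183 k243 9 (.d k191 k179 k127 1 7)))))), (.s k8 k25 4 (.s k170 k255 14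
  (.s k89 k251 12 (.s k81 k93 1 (.s k243 k162 12 (.d k12 k4 k166 1 14))))))] (.c k4 (.l (.s k25 k8 4
  (.s k51 k55 1 (.s k38 k12 6 (.d k34 k46 k17 1 4))))) (.c k8 (.l (.s k51 k55 1 (.s k17 k34 4 (.s
  k153 k221 9 (.s k102 k204 14 (.s k119 k68 4 (.d k255 k187 k170 9 14))))))) (.c k169 (.q k232 [(.s
  k25 k8 4 (.s k51 k55 1 (.s k34 k17 4 (.d k38 k46 k12 1 6)))), (.s k51 k55 1 (.s k255 k170 14 (.s
  k187 k119 9 (.s k123 k251 7 (.s k183 k243 9 (.d k191 k179 k127 1 7)))))), (.s k8 k25 4 (.s k170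
  k255 14 (.s k89 k251 12 (.s k81 k93 1 (.s k243 k162 12 (.d k12 k4 k166 1 14))))))] (.c k4 (.l (.s
  k25 k8 4 (.s k51 k55 1 (.s k38 k12 6 (.d k34 k46 k17 1 4))))) (.c k8 (.l (.s k51 k55 1 (.s k17 k34
  4 (.s k153 k221 9 (.s k102 k204 14 (.s k119 k68 4 (.d k255 k187 k170 9 14))))))) (.c k86 (.q k252
  [(.s k25 k8 4 (.s k51 k55 1 (.s k34 k17 4 (.d k38 k46 k12 1 6)))), (.s k8 k25 4 (.s k168 k84 13
  (.s k248 k88 11 (.s k122 k185 8 (.d k240 k244 k181 1 10))))), (.s k51 k55 1 (.s k185 k118 10 (.s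
  k122 k248 8 (.s k181 k240 10 (.d k189 k126 k177 8 1)))))] (.c k66 (.l (.s k126 k189 8 (.s k25 k8 4
  (.s k51 k55 1 (.s k34 k17 4 (.d k38 k46 k12 1 6)))))) (.c k126 (.q k66 [(.s k25 k8 4 (.s k51 k55 1
  (.s k34 k17 4 (.d k38 k46 k12 1 6)))), (.s k168 k84 13 (.s k104 k40 7 (.s k192 k212 5 (.s k128 k64
  7 (.d k148 k188 k60 5 13)))))] .n) .n))) (.c k252 (.q k86 [(.s k25 k8 4 (.s k51 k55 1 (.s k34 k17
  4 (.d k38 k46 k12 1 6)))), (.s k51 k55 1 (.s k255 k170 14 (.s k187 k119 9 (.s k123 k251 7 (.s k183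
  k243 9 (.d k191 k179 k127 1 7)))))), (.s k8 k25 4 (.s k170 k255 14 (.s k89 k251 12 (.s k81 k93 1
  (.s k243 k162 12 (.d k12 k4 k166 1 14))))))] (.c k4 (.l (.s k25 k8 4 (.s k51 k55 1 (.s k38 k12 6
  (.d k34 k46 k17 1 4))))) (.c k8 (.l (.s k51 k55 1 (.s k17 k34 4 (.s k153 k221 9 (.s k102 k204 14
  (.s k119 k68 4 (.d k255 k187 k170 9 14))))))) .n))) .n))))) (.c k232 (.q k169 [(.s k25 k8 4 (.s
  k51 k55 1 (.s k34 k17 4 (.d k38 k46 k12 1 6)))), (.s k51 k55 1 (.s k255 k170 14 (.s k187 k119 9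
  (.s k123 k251 7 (.s k183 k243 9 (.d k191 k179 k127 1 7)))))), (.s k8 k25 4 (.s k170 k255 14 (.s
  k89 k251 12 (.s k81 k93 1 (.s k243 k162 12 (.d k12 k4 k166 1 14))))))] (.c k4 (.l (.s k25 k8 4 (.s
  k51 k55 1 (.s k38 k12 6 (.d k34 k46 k17 1 4))))) (.c k8 (.l (.s k51 k55 1 (.s k17 k34 4 (.s k153
  k221 9 (.s k102 k204 14 (.s k119 k68 4 (.d k255 k187 k170 9 14))))))) .n))) .n)))))) (.c k127 (.l
  (.s k21 k42 6 (.s k149 k213 7 (.s k170 k255 14 (.s k128 k191 6 (.d k192 k64 k106 7 14)))))) (.c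
  k149 (.q k4 [(.s k12 k8 1 (.s k166 k247 12 (.s k89 k243 14 (.s k93 k81 1 (.d k255 k174 k170 12
  14))))), (.s k12 k8 1 (.s k21 k42 6 (.s k29 k46 4 (.s k25 k17 1 (.d k38 k55 k51 4 6))))), (.s k21
  k42 6 (.s k55 k38 4 (.s k247 k166 12 (.s k183 k119 7 (.s k243 k123 9 (.d k255 k251 k170 1
  14))))))] .n) (.c k170 (.q k4 [(.s k12 k8 1 (.s k46 k29 4 (.s k166 k247 12 (.s k106 k226 9 (.s k64
  k127 6 (.d k192 k128 k149 7 14)))))), (.s k21 k42 6 (.s k55 k38 4 (.s k149 k213 7 (.s k102 k196 12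
  (.s k119 k68 4 (.d k247 k183 k166 7 12)))))), (.s k12 k8 1 (.s k21 k42 6 (.s k29 k46 4 (.s k25 k17
  1 (.d k38 k55 k51 4 6)))))] (.c k46 (.l (.s k12 k8 1 (.s k21 k42 6 (.s k149 k213 7 (.s k166 k247
  12 (.s k132 k183 4 (.d k192 k106 k72 14 9))))))) (.c k106 (.l (.s k12 k8 1 (.s k29 k46 4 (.s k166
  k247 12 (.s k89 k243 14 (.s k149 k209 9 (.d k21 k42 k213 6 7))))))) .n))) (.c k192 (.f k255 k170
  14 (.f k191 k127 7 (.f k42 k21 6 (.q k181 [(.s k186 k176 2 (.s k48 k117 10 (.s k58 k53 2 (.d k122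
  k250 k240 7 10)))), (.s k240 k122 10 (.s k80 k160 11 (.s k90 k95 2 (.s k165 k15 14 (.d k245 k250
  k5 2 11))))), (.s k186 k176 2 (.s k48 k117 10 (.s k32 k16 3 (.s k37 k47 2 (.s k26 k15 6 (.d k58
  k53 k10 2 3))))))] (.c k66 (.q k129 [(.s k186 k176 2 (.s k48 k117 10 (.s k58 k53 2 (.d k122 k250
  k240 7 10)))), (.s k240 k122 10 (.s k80 k160 11 (.s k90 k95 2 (.s k165 k15 14 (.d k245 k250 k5 2
  11))))), (.s k186 k176 2 (.s k48 k117 10 (.s k32 k16 3 (.s k37 k47 2 (.s k26 k15 6 (.d k58 k53 k10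
  2 3))))))] (.c k112 (.l (.s k122 k240 10 (.s k186 k176 2 (.s k48 k117 10 (.d k58 k53 k250 2 7)))))
  (.c k117 (.l (.s k122 k240 10 (.s k186 k176 2 (.s k58 k250 7 (.s k48 k53 2 (.s k32 k16 3 (.s k37
  k47 2 (.d k26 k10 k15 3 6)))))))) (.c k122 (.l (.s k186 k176 2 (.s k117 k48 10 (.s k245 k53 7 (.s
  k240 k250 2 (.s k80 k160 11 (.s k90 k95 2 (.d k165 k5 k15 11 14)))))))) .n)))) (.c k112 (.l (.s
  k122 k240 10 (.s k186 k176 2 (.s k48 k117 10 (.d k58 k53 k250 2 7))))) (.c k117 (.l (.s k122 k240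
  10 (.s k186 k176 2 (.s k58 k250 7 (.s k48 k53 2 (.s k32 k16 3 (.s k37 k47 2 (.d k26 k10 k15 3
  6)))))))) (.c k122 (.l (.s k186 k176 2 (.s k117 k48 10 (.s k245 k53 7 (.s k240 k250 2 (.s k80 k160
  11 (.s k90 k95 2 (.d k165 k5 k15 11 14)))))))) (.c k129 (.q k66 [(.s k186 k176 2 (.s k48 k117 10
  (.s k58 k53 2 (.d k122 k250 k240 7 10)))), (.s k240 k122 10 (.s k80 k160 11 (.s k90 k95 2 (.s k165
  k15 14 (.d k245 k250 k5 2 11))))), (.s k186 k176 2 (.s k48 k117 10 (.s k32 k16 3 (.s k37 k47 2 (.s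
  k26 k15 6 (.d k58 k53 k10 2 3))))))] (.c k112 (.l (.s k122 k240 10 (.s k186 k176 2 (.s k48 k117 10
  (.d k58 k53 k250 2 7))))) (.c k117 (.l (.s k122 k240 10 (.s k186 k176 2 (.s k58 k250 7 (.s k48 k53
  2 (.s k32 k16 3 (.s k37 k47 2 (.d k26 k10 k15 3 6)))))))) (.c k122 (.l (.s k186 k176 2 (.s k117
  k48 10 (.s k245 k53 7 (.s k240 k250 2 (.s k80 k160 11 (.s k90 k95 2 (.d k165 k5 k15 11 14))))))))
  .n)))) .n))))))))) (.c k213 (.l (.s k42 k21 6 (.s k170 k255 14 (.s k106 k234 7 (.s k192 k149 14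
  (.d k64 k127 k128 6 7)))))) (.c k234 (.l (.s k21 k42 6 (.s k149 k213 7 (.s k106 k192 14 (.s k255
  k170 14 (.d k127 k64 k191 6 7)))))) (.c k255 (.q k5 [(.s k15 k10 2 (.s k47 k31 3 (.s k165 k245 11
  (.s k106 k224 10 (.s k64 k127 6 (.d k192 k128 k149 7 14)))))), (.s k15 k10 2 (.s k21 k42 6 (.s k31
  k47 3 (.s k26 k16 2 (.d k37 k53 k48 3 6))))), (.s k21 k42 6 (.s k53 k37 3 (.s k149 k213 7 (.s k101
  k197 11 (.s k117 k69 3 (.d k245 k181 k165 7 11))))))] (.c k47 (.l (.s k15 k10 2 (.s k21 k42 6 (.s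
  k149 k213 7 (.s k165 k245 11 (.s k133 k181 3 (.d k192 k74 k106 10 14))))))) (.c k87 (.q k171 [(.s
  k15 k10 2 (.s k21 k42 6 (.s k31 k47 3 (.s k26 k16 2 (.d k37 k53 k48 3 6))))), (.s k15 k10 2 (.s
  k47 k31 3 (.s k165 k245 11 (.s k106 k224 10 (.s k64 k127 6 (.d k192 k128 k149 7 14)))))), (.s k21
  k42 6 (.s k53 k37 3 (.s k149 k213 7 (.s k101 k197 11 (.s k117 k69 3 (.d k245 k181 k165 7 11))))))]
  (.c k47 (.l (.s k15 k10 2 (.s k21 k42 6 (.s k149 k213 7 (.s k165 k245 11 (.s k133 k181 3 (.d k192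
  k74 k106 10 14))))))) .n)) (.c k171 (.q k87 [(.s k15 k10 2 (.s k21 k42 6 (.s k31 k47 3 (.s k26 k16
  2 (.d k37 k53 k48 3 6))))), (.s k86 k84 0 (.s k165 k245 11 (.s k7 k244 12 (.s k4 k6 0 (.d k247
  k167 k166 11 12)))))] (.c k107 (.q k235 [(.s k86 k84 0 (.s k165 k245 11 (.s k7 k244 12 (.s k4 k6 0
  (.d k247 k167 k166 11 12))))), (.s k15 k10 2 (.s k21 k42 6 (.s k37 k53 3 (.s k26 k48 6 (.d k31 k16
  k47 2 3)))))] .n) (.c k235 (.q k107 [(.s k21 k42 6 (.s k127 k67 5 (.s k149 k213 7 (.d k106 k192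
  k64 14 6)))), (.s k15 k10 2 (.s k21 k42 6 (.s k31 k47 3 (.s k26 k16 2 (.d k37 k53 k48 3 6))))),
  (.s k15 k10 2 (.s k47 k31 3 (.s k127 k67 5 (.s k106 k64 6 (.d k165 k224 k245 10 11)))))] (.c k195
  (.q k215 [(.s k21 k42 6 (.s k23 k151 7 (.d k20 k22 k150 0 8))), (.s k15 k10 2 (.s k47 k31 3 (.s
  k165 k245 11 (.s k106 k224 10 (.d k127 k67 k64 5 6)))))] (.c k67 (.q k131 [(.s k21 k42 6 (.s k23
  k151 7 (.d k20 k22 k150 0 8))), (.s k15 k10 2 (.s k21 k42 6 (.s k31 k47 3 (.s k26 k16 2 (.d k37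
  k53 k48 3 6))))), (.s k23 k151 7 (.s k86 k84 0 (.s k150 k20 8 (.s k212 k149 8 (.d k214 k213 k22 0
  7)))))] .n) (.c k131 (.l (.s k67 k127 5 (.s k20 k150 8 (.s k21 k42 6 (.d k23 k22 k151 0 7)))))
  .n))) (.c k215 (.l (.s k195 k151 13 (.s k21 k42 6 (.s k127 k67 5 (.s k106 k64 6 (.d k149 k213 k192
  7 14)))))) .n))) .n))) .n)))) .n))))))))))))

def t3_44 : T TT 256 :=
  (.f k255 k170 14 (.q k101 [(.s k69 k117 3 (.s k207 k138 10 (.s k154 k48 14 (.d k223 k239 k16 3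
  10)))), (.s k117 k69 3 (.s k48 k186 10 (.s k154 k207 14 (.d k16 k32 k223 3 10))))] (.c k16 (.q k4
  [(.s k12 k8 1 (.s k166 k247 12 (.s k89 k243 14 (.d k93 k81 k174 1 12)))), (.s k69 k117 3 (.s k166
  k247 12 (.s k36 k231 8 (.s k52 k20 3 (.d k199 k134 k150 8 12))))), (.s k12 k8 1 (.s k69 k117 3 (.s
  k134 k199 8 (.s k73 k195 10 (.s k77 k65 1 (.d k207 k142 k138 8 10))))))] .n) (.c k48 (.f k117 k69
  3 (.q k253 [(.s k49 k185 9 (.s k153 k205 13 (.s k17 k221 9 (.d k1 k33 k169 3 13)))), (.s k252 k254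
  0 (.s k84 k168 13 (.s k86 k87 0 (.s k116 k71 4 (.s k68 k100 3 (.d k119 k118 k102 0 4))))))] (.c
  k18 (.q k33 [(.d k169 k237 k1 9 13), (.s k49 k185 9 (.s k17 k1 3 (.d k153 k205 k221 13 9)))] (.c
  k1 (.l (.s k49 k185 9 (.s k205 k153 13 (.d k237 k169 k221 9 3)))) .n)) (.c k33 (.q k18 [(.s k49
  k185 9 (.s k153 k205 13 (.s k221 k17 9 (.s k204 k238 4 (.s k68 k136 9 (.d k102 k119 k51 4
  14)))))), (.s k252 k254 0 (.s k84 k168 13 (.s k86 k87 0 (.s k116 k71 4 (.s k68 k100 3 (.d k119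
  k118 k102 0 4)))))), (.s k185 k49 9 (.s k252 k254 0 (.s k51 k118 10 (.s k17 k34 4 (.s k153 k221 9
  (.d k169 k1 k137 13 3))))))] (.c k102 (.l (.s k185 k49 9 (.s k252 k254 0 (.s k84 k168 13 (.s k86
  k87 0 (.s k116 k71 4 (.d k118 k119 k51 0 10))))))) .n)) (.c k169 (.l (.s k49 k185 9 (.s k153 k205
  13 (.s k17 k221 9 (.s k51 k34 4 (.s k102 k204 14 (.d k119 k68 k187 4 9))))))) .n))))) (.c k69 (.q
  k5 [(.s k15 k10 2 (.s k95 k175 11 (.s k90 k80 2 (.d k165 k245 k240 11 14)))), (.s k165 k245 11 (.s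
  k37 k229 7 (.s k21 k53 3 (.s k63 k42 6 (.s k127 k191 7 (.s k106 k64 6 (.d k149 k213 k192 7
  14)))))))] (.c k165 (.f k15 k10 2 (.q k90 [(.d k95 k175 k80 11 2), (.s k79 k112 6 (.s k207 k143 7
  (.s k154 k48 14 (.d k223 k239 k16 3 10))))] (.c k160 (.l (.s k175 k95 11 (.s k79 k112 6 (.s k207
  k143 7 (.s k154 k48 14 (.d k223 k239 k16 3 10)))))) (.c k175 (.q k160 [(.d k80 k95 k240 2 11), (.s
  k79 k112 6 (.s k207 k143 7 (.s k223 k239 3 (.d k154 k16 k48 10 14))))] .n) .n)))) (.c k245 (.l (.s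
  k15 k10 2 (.s k95 k175 11 (.s k90 k80 2 (.s k79 k112 6 (.s k207 k143 7 (.s k154 k48 14 (.d k223
  k239 k16 3 10)))))))) .n))) (.c k117 (.q k81 [(.s k89 k93 1 (.s k243 k162 12 (.s k247 k251 1 (.d
  k166 k4 k12 12 14)))), (.s k89 k93 1 (.s k113 k77 5 (.s k65 k97 3 (.s k195 k130 8 (.s k215 k235 5
  (.s k150 k20 8 (.d k105 k125 k60 5 14)))))))] (.c k89 (.f k243 k162 12 (.q k166 [(.d k247 k251 k4
  1 12), (.s k231 k36 8 (.s k207 k219 5 (.s k154 k48 14 (.d k223 k239 k16 3 10))))] (.c k8 (.l (.s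
  k251 k247 1 (.s k231 k36 8 (.s k207 k219 5 (.s k154 k48 14 (.d k223 k239 k16 3 10)))))) (.c k251
  (.q k8 [(.d k4 k12 k247 1 12), (.s k231 k36 8 (.s k207 k219 5 (.s k223 k239 3 (.d k154 k16 k48 10
  14))))] .n) .n)))) (.c k93 (.l (.s k243 k162 12 (.s k247 k251 1 (.s k166 k4 12 (.s k231 k36 8 (.s
  k207 k219 5 (.s k154 k48 14 (.d k223 k239 k16 3 10)))))))) .n))) (.c k138 (.l (.s k117 k69 3 (.s
  k48 k186 10 (.s k154 k207 14 (.d k16 k32 k223 3 10))))) (.c k154 (.f k69 k117 3 (.q k149 [(.s k197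
  k53 11 (.s k5 k133 7 (.s k213 k21 7 (.d k245 k229 k165 3 11)))), (.s k21 k213 7 (.s k63 k42 6 (.s
  k106 k192 14 (.d k127 k64 k191 6 7)))), (.s k197 k53 11 (.s k5 k133 7 (.s k15 k10 2 (.s k95 k175
  11 (.s k90 k80 2 (.d k165 k245 k240 11 14))))))] (.c k138 (.q k186 [(.s k21 k213 7 (.s k63 k42 6
  (.s k127 k191 7 (.d k106 k64 k192 6 14)))), (.s k197 k53 11 (.s k5 k133 7 (.s k15 k10 2 (.s k95
  k175 11 (.s k90 k80 2 (.d k165 k245 k240 11 14))))))] .n) (.c k186 (.l (.s k138 k207 10 (.s k21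
  k213 7 (.s k63 k42 6 (.s k106 k192 14 (.d k127 k64 k191 6 7)))))) .n)))) (.c k186 (.l (.s k69 k117
  3 (.s k207 k138 10 (.s k154 k48 14 (.d k223 k239 k16 3 10))))) (.c k207 (.q k71 [(.s k69 k117 3
  (.s k68 k70 0 (.s k86 k116 4 (.s k87 k84 0 (.d k119 k103 k102 3 4))))), (.s k116 k86 4 (.s k117
  k69 3 (.s k48 k186 10 (.s k118 k119 0 (.s k252 k184 9 (.s k185 k51 10 (.d k253 k254 k49 0
  9))))))), (.s k69 k117 3 (.s k68 k70 0 (.s k204 k136 9 (.s k221 k238 4 (.s k153 k17 9 (.d k102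
  k119 k51 4 14)))))), (.s k86 k116 4 (.s k87 k84 0 (.s k119 k103 3 (.s k51 k187 9 (.s k17 k34 4 (.s
  k153 k221 9 (.d k102 k68 k204 4 14)))))))] (.c k119 (.q k4 [(.s k12 k8 1 (.s k93 k174 12 (.s k89
  k81 1 (.d k166 k247 k243 12 14)))), (.s k69 k117 3 (.s k70 k68 0 (.s k199 k134 8 (.s k7 k135 7 (.s
  k5 k6 0 (.d k133 k197 k196 7 8))))))] (.c k12 (.l (.s k69 k117 3 (.s k166 k247 12 (.s k36 k231 8
  (.s k52 k20 3 (.d k199 k134 k150 8 12)))))) .n)) .n)) (.c k223 (.q k4 [(.s k12 k8 1 (.s k166 k247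
  12 (.s k89 k243 14 (.d k93 k81 k174 1 12)))), (.s k69 k117 3 (.s k166 k247 12 (.s k36 k231 8 (.s
  k52 k20 3 (.d k199 k134 k150 8 12))))), (.s k12 k8 1 (.s k69 k117 3 (.s k134 k199 8 (.s k73 k195
  10 (.s k77 k65 1 (.d k207 k142 k138 8 10))))))] .n) .n)))))))))))

def t3_45 : T TT 256 :=
  (.f k255 k170 14 (.q k102 [(.s k68 k119 4 (.s k204 k136 9 (.s k221 k238 4 (.d k153 k17 k51 9
  14))))] (.c k17 (.q k4 [(.s k12 k8 1 (.s k93 k174 12 (.s k166 k247 12 (.d k89 k81 k243 1 14)))),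
  (.s k68 k119 4 (.s k166 k247 12 (.s k38 k230 7 (.s k55 k21 4 (.d k196 k132 k149 7 12))))), (.s k12
  k8 1 (.s k68 k119 4 (.s k132 k196 7 (.s k72 k192 9 (.s k76 k64 1 (.d k204 k140 k136 7 9))))))] .n)
  (.c k51 (.f k68 k119 4 (.q k117 [(.s k48 k186 10 (.s k16 k32 3 (.s k101 k69 3 (.d k154 k223 k207
  10 14)))), (.s k101 k69 3 (.s k100 k103 0 (.s k204 k136 9 (.d k48 k186 k152 10 13)))), (.s k48
  k186 10 (.s k32 k16 3 (.s k204 k136 9 (.s k100 k152 13 (.s k84 k116 3 (.d k168 k236 k252 9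
  13))))))] (.c k19 (.q k35 [(.s k48 k186 10 (.s k16 k32 3 (.s k101 k69 3 (.d k154 k223 k207 10
  14)))), (.s k101 k69 3 (.s k100 k103 0 (.s k84 k116 3 (.s k236 k169 10 (.d k168 k252 k32 13
  9))))), (.s k48 k186 10 (.s k32 k16 3 (.s k204 k136 9 (.s k100 k152 13 (.d k236 k168 k169 9
  10)))))] (.c k32 (.l (.s k48 k186 10 (.s k101 k69 3 (.s k100 k103 0 (.d k204 k136 k152 9 13)))))
  .n)) (.c k35 (.q k19 [(.s k48 k186 10 (.s k16 k32 3 (.s k101 k69 3 (.d k154 k223 k207 10 14)))),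
  (.s k48 k186 10 (.s k32 k16 3 (.s k204 k136 9 (.s k100 k152 13 (.s k84 k116 3 (.d k168 k236 k252 9
  13)))))), (.s k101 k69 3 (.s k100 k103 0 (.s k204 k136 9 (.d k48 k186 k152 10 13)))), (.s k69 k101
  3 (.s k70 k71 0 (.s k86 k118 3 (.s k87 k84 0 (.s k223 k155 9 (.d k207 k239 k138 3 10))))))] .n)
  (.c k48 (.l (.s k69 k101 3 (.s k204 k136 9 (.s k207 k138 10 (.s k205 k206 0 (.s k221 k238 4 (.s
  k253 k237 3 (.d k1 k137 k169 9 13)))))))) (.c k186 (.l (.s k101 k69 3 (.s k100 k103 0 (.s k204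
  k136 9 (.s k48 k152 13 (.s k16 k32 3 (.d k154 k207 k223 14 10))))))) .n)))))) (.c k68 (.q k4 [(.s
  k12 k8 1 (.s k93 k174 12 (.s k89 k81 1 (.d k166 k247 k243 12 14)))), (.s k166 k247 12 (.s k38 k230
  7 (.s k21 k55 4 (.s k63 k42 6 (.s k127 k191 7 (.s k106 k64 6 (.d k149 k213 k192 7 14)))))))] (.c
  k166 (.f k12 k8 1 (.q k89 [(.d k93 k174 k81 12 1), (.s k76 k115 6 (.s k204 k140 7 (.s k153 k51 14
  (.d k221 k238 k17 4 9))))] (.c k162 (.l (.s k174 k93 12 (.s k76 k115 6 (.s k204 k140 7 (.s k153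
  k51 14 (.d k221 k238 k17 4 9)))))) (.c k174 (.q k162 [(.d k81 k93 k243 1 12), (.s k76 k115 6 (.s
  k204 k140 7 (.s k221 k238 4 (.d k153 k17 k51 9 14))))] .n) .n)))) (.c k247 (.l (.s k12 k8 1 (.s
  k93 k174 12 (.s k89 k81 1 (.s k76 k115 6 (.s k204 k140 7 (.s k153 k51 14 (.d k221 k238 k17 4
  9)))))))) .n))) (.c k119 (.q k247 [(.s k166 k4 12 (.s k243 k251 1 (.s k81 k162 12 (.d k89 k93 k12
  1 14)))), (.s k166 k4 12 (.s k230 k38 7 (.s k213 k196 4 (.s k192 k234 6 (.s k64 k128 7 (.s k106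
  k127 6 (.d k149 k21 k63 7 14)))))))] (.c k4 (.l (.s k243 k251 1 (.s k81 k162 12 (.s k89 k93 1 (.s
  k115 k76 6 (.s k51 k179 7 (.s k17 k34 4 (.d k153 k221 k204 9 14)))))))) (.c k166 (.f k243 k251 1
  (.q k89 [(.d k81 k162 k93 12 1), (.s k115 k76 6 (.s k51 k179 7 (.s k17 k34 4 (.d k153 k221 k204 9
  14))))] (.c k162 (.q k174 [(.d k93 k81 k12 1 12), (.s k115 k76 6 (.s k51 k179 7 (.s k17 k34 4 (.d
  k153 k221 k204 9 14))))] .n) (.c k174 (.l (.s k162 k81 12 (.s k115 k76 6 (.s k51 k179 7 (.s k17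
  k34 4 (.d k153 k221 k204 9 14)))))) .n)))) .n))) (.c k136 (.l (.s k119 k68 4 (.s k51 k187 9 (.s
  k153 k204 14 (.d k17 k34 k221 4 9))))) (.c k153 (.f k119 k68 4 (.q k247 [(.s k55 k183 7 (.s k149
  k196 12 (.s k21 k213 7 (.d k4 k38 k166 4 12)))), (.s k243 k251 1 (.s k81 k162 12 (.s k89 k93 1 (.d
  k166 k4 k12 12 14))))] (.c k4 (.l (.s k183 k55 7 (.s k187 k51 9 (.s k191 k179 1 (.s k63 k127 7 (.d
  k243 k251 k123 1 9)))))) (.c k136 (.l (.s k187 k51 9 (.s k4 k166 12 (.s k55 k183 7 (.s k21 k38 4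
  (.d k149 k213 k196 7 12)))))) (.c k166 (.l (.s k55 k183 7 (.s k149 k196 12 (.s k21 k213 7 (.s k63
  k42 6 (.d k51 k59 k187 1 9)))))) (.c k187 (.q k136 [(.s k166 k4 12 (.s k230 k38 7 (.s k196 k213 4
  (.d k55 k183 k149 7 12)))), (.s k243 k251 1 (.s k81 k162 12 (.s k89 k93 1 (.d k166 k4 k12 12
  14))))] (.c k4 (.l (.s k183 k55 7 (.s k243 k251 1 (.s k81 k162 12 (.s k89 k93 1 (.s k115 k76 6 (.d
  k123 k127 k63 1 9))))))) (.c k166 (.l (.s k55 k183 7 (.s k149 k196 12 (.s k21 k213 7 (.s k63 k42 6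
  (.s k106 k192 14 (.d k127 k191 k64 7 6))))))) .n))) .n)))))) (.c k187 (.l (.s k68 k119 4 (.s k204
  k136 9 (.s k153 k51 14 (.d k221 k238 k17 4 9))))) (.c k204 (.f k68 k119 4 (.q k64 [(.s k76 k72 1
  (.s k89 k115 6 (.s k93 k81 1 (.d k127 k110 k106 4 6)))), (.s k192 k128 7 (.s k213 k234 6 (.s k149
  k21 7 (.d k106 k127 k63 6 14))))] (.c k70 (.q k137 [(.s k76 k72 1 (.s k89 k115 6 (.s k93 k81 1 (.d
  k127 k110 k106 4 6)))), (.s k192 k128 7 (.s k213 k234 6 (.s k149 k21 7 (.d k106 k127 k63 6 14))))]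
  (.c k106 (.l (.s k76 k72 1 (.s k89 k115 6 (.s k81 k93 1 (.s k243 k162 12 (.s k166 k12 14 (.d k247
  k251 k4 1 12))))))) (.c k127 (.l (.s k72 k76 1 (.s k192 k128 7 (.s k213 k234 6 (.s k149 k21 7 (.s
  k196 k55 12 (.d k132 k4 k12 7 9))))))) .n))) (.c k106 (.l (.s k76 k72 1 (.s k89 k115 6 (.s k81 k93
  1 (.s k243 k162 12 (.s k166 k12 14 (.d k247 k251 k4 1 12))))))) (.c k127 (.l (.s k72 k76 1 (.s
  k192 k128 7 (.s k213 k234 6 (.s k149 k21 7 (.s k196 k55 12 (.d k132 k4 k12 7 9))))))) (.c k137 (.q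
  k70 [(.s k76 k72 1 (.s k89 k115 6 (.s k93 k81 1 (.d k127 k110 k106 4 6)))), (.s k71 k69 0 (.s k86
  k118 3 (.s k84 k87 0 (.d k116 k100 k101 3 4))))] .n) .n)))))) (.c k221 (.q k4 [(.s k12 k8 1 (.s
  k93 k174 12 (.s k89 k81 1 (.d k166 k247 k243 12 14)))), (.s k68 k119 4 (.s k166 k247 12 (.s k38
  k230 7 (.s k55 k21 4 (.d k196 k132 k149 7 12))))), (.s k12 k8 1 (.s k68 k119 4 (.s k132 k196 7 (.s
  k72 k192 9 (.s k76 k64 1 (.d k204 k140 k136 7 9))))))] .n) (.c k238 (.l (.s k119 k68 4 (.s k51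
  k187 9 (.s k17 k34 4 (.d k153 k221 k204 9 14))))) .n))))))))))))

def t3_46 : T TT 256 :=
  (.f k255 k170 14 (.q k102 [(.s k68 k119 4 (.s k204 k136 9 (.s k153 k51 14 (.d k221 k238 k17 4
  9)))), (.s k119 k68 4 (.s k51 k187 9 (.s k153 k204 14 (.d k17 k34 k221 4 9))))] (.c k17 (.q k4
  [(.s k12 k8 1 (.s k166 k247 12 (.s k89 k243 14 (.d k93 k81 k174 1 12)))), (.s k68 k119 4 (.s k166
  k247 12 (.s k38 k230 7 (.s k55 k21 4 (.d k196 k132 k149 7 12))))), (.s k12 k8 1 (.s k68 k119 4 (.s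
  k132 k196 7 (.s k72 k192 9 (.s k76 k64 1 (.d k204 k140 k136 7 9))))))] .n) (.c k51 (.f k68 k119 4
  (.q k106 [(.s k64 k127 6 (.s k76 k72 1 (.s k98 k110 1 (.d k115 k81 k89 4 6)))), (.s k110 k98 1 (.s
  k204 k136 9 (.s k63 k157 12 (.s k21 k42 6 (.d k149 k192 k213 14 7))))), (.s k64 k127 6 (.s k192
  k128 7 (.s k149 k63 14 (.d k213 k234 k21 6 7))))] (.c k19 (.q k35 [(.s k64 k127 6 (.s k76 k72 1
  (.s k98 k110 1 (.d k115 k81 k89 4 6)))), (.s k98 k110 1 (.s k169 k236 10 (.s k43 k232 8 (.s k47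
  k39 1 (.d k224 k161 k165 8 10))))), (.s k64 k127 6 (.s k192 k128 7 (.s k149 k63 14 (.d k213 k234
  k21 6 7))))] .n) (.c k35 (.q k19 [(.s k64 k127 6 (.s k76 k72 1 (.s k98 k110 1 (.d k115 k81 k89 4
  6)))), (.s k110 k98 1 (.s k204 k136 9 (.s k63 k157 12 (.s k21 k42 6 (.d k149 k192 k213 14 7))))),
  (.s k64 k127 6 (.s k192 k128 7 (.s k149 k63 14 (.d k213 k234 k21 6 7))))] .n) .n)))) (.c k68 (.q
  k81 [(.s k89 k93 1 (.s k243 k162 12 (.s k247 k251 1 (.d k166 k4 k12 12 14)))), (.s k89 k93 1 (.s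
  k115 k76 6 (.s k64 k98 4 (.s k192 k128 7 (.s k213 k234 6 (.s k149 k21 7 (.d k106 k127 k63 6
  14)))))))] (.c k89 (.f k243 k162 12 (.q k166 [(.d k247 k251 k4 1 12), (.s k230 k38 7 (.s k204 k217
  6 (.s k153 k51 14 (.d k221 k238 k17 4 9))))] (.c k8 (.l (.s k251 k247 1 (.s k230 k38 7 (.s k204
  k217 6 (.s k153 k51 14 (.d k221 k238 k17 4 9)))))) (.c k251 (.q k8 [(.d k4 k12 k247 1 12), (.s
  k230 k38 7 (.s k204 k217 6 (.s k221 k238 4 (.d k153 k17 k51 9 14))))] .n) .n)))) (.c k93 (.l (.s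
  k243 k162 12 (.s k247 k251 1 (.s k166 k4 12 (.s k230 k38 7 (.s k204 k217 6 (.s k153 k51 14 (.d
  k221 k238 k17 4 9)))))))) .n))) (.c k119 (.q k81 [(.s k89 k93 1 (.s k243 k162 12 (.s k247 k251 1
  (.d k166 k4 k12 12 14)))), (.s k89 k93 1 (.s k115 k76 6 (.s k64 k98 4 (.s k192 k128 7 (.s k213
  k234 6 (.s k149 k21 7 (.d k106 k127 k63 6 14)))))))] (.c k89 (.f k243 k162 12 (.q k166 [(.d k247
  k251 k4 1 12), (.s k230 k38 7 (.s k204 k217 6 (.s k153 k51 14 (.d k221 k238 k17 4 9))))] (.c k8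
  (.l (.s k251 k247 1 (.s k230 k38 7 (.s k204 k217 6 (.s k153 k51 14 (.d k221 k238 k17 4 9)))))) (.c
  k251 (.q k8 [(.d k4 k12 k247 1 12), (.s k230 k38 7 (.s k204 k217 6 (.s k221 k238 4 (.d k153 k17
  k51 9 14))))] .n) .n)))) (.c k93 (.l (.s k243 k162 12 (.s k247 k251 1 (.s k166 k4 12 (.s k230 k38
  7 (.s k204 k217 6 (.s k153 k51 14 (.d k221 k238 k17 4 9)))))))) .n))) (.c k136 (.l (.s k119 k68 4
  (.s k51 k187 9 (.s k153 k204 14 (.d k17 k34 k221 4 9))))) (.c k153 (.f k68 k119 4 (.q k64 [(.s k76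
  k72 1 (.s k89 k115 6 (.s k93 k81 1 (.d k127 k110 k106 4 6)))), (.s k72 k76 1 (.s k136 k204 9 (.s
  k192 k128 7 (.s k12 k132 9 (.d k8 k4 k200 1 7))))), (.s k106 k127 6 (.s k192 k128 7 (.s k149 k63
  14 (.d k213 k234 k21 6 7))))] (.c k136 (.q k187 [(.s k76 k72 1 (.s k89 k115 6 (.s k93 k81 1 (.d
  k127 k110 k106 4 6)))), (.s k72 k76 1 (.s k192 k128 7 (.s k132 k12 9 (.s k196 k4 7 (.s k149 k55 12
  (.d k213 k21 k234 7 6)))))), (.s k106 k127 6 (.s k192 k128 7 (.s k149 k63 14 (.d k213 k234 k21 6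
  7))))] .n) (.c k187 (.l (.s k136 k204 9 (.s k72 k76 1 (.s k8 k200 7 (.s k12 k4 1 (.d k192 k128
  k132 7 9)))))) .n)))) (.c k187 (.l (.s k68 k119 4 (.s k204 k136 9 (.s k153 k51 14 (.d k221 k238
  k17 4 9))))) (.c k204 (.f k68 k119 4 (.q k4 [(.s k166 k247 12 (.s k196 k132 7 (.s k55 k149 12 (.d
  k38 k21 k230 4 7)))), (.s k12 k8 1 (.s k93 k174 12 (.s k89 k81 1 (.s k76 k115 6 (.s k64 k72 1 (.d
  k127 k110 k106 4 6))))))] (.c k70 (.q k137 [(.s k166 k247 12 (.s k196 k132 7 (.s k55 k149 12 (.d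
  k38 k21 k230 4 7)))), (.s k12 k8 1 (.s k93 k174 12 (.s k89 k81 1 (.s k76 k115 6 (.s k64 k72 1 (.d
  k127 k110 k106 4 6))))))] (.c k166 (.l (.s k196 k132 7 (.s k149 k55 12 (.s k21 k213 7 (.s k63 k42
  6 (.s k106 k192 14 (.d k127 k64 k191 6 7))))))) .n)) (.c k137 (.q k70 [(.s k71 k69 0 (.s k86 k118
  3 (.s k84 k87 0 (.d k116 k100 k101 3 4)))), (.s k12 k8 1 (.s k93 k174 12 (.s k89 k81 1 (.d k166
  k247 k243 12 14))))] .n) (.c k166 (.l (.s k196 k132 7 (.s k149 k55 12 (.s k21 k213 7 (.s k63 k42 6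
  (.s k106 k192 14 (.d k127 k64 k191 6 7))))))) .n))))) (.c k221 (.q k4 [(.s k12 k8 1 (.s k166 k247
  12 (.s k89 k243 14 (.d k93 k81 k174 1 12)))), (.s k68 k119 4 (.s k166 k247 12 (.s k38 k230 7 (.s
  k55 k21 4 (.d k196 k132 k149 7 12))))), (.s k12 k8 1 (.s k68 k119 4 (.s k132 k196 7 (.s k72 k192 9
  (.s k76 k64 1 (.d k204 k140 k136 7 9))))))] .n) .n)))))))))))

def t3_47 : T TT 256 :=
  (.f k255 k170 14 (.q k101 [(.s k69 k117 3 (.s k207 k138 10 (.s k154 k48 14 (.d k223 k239 k16 3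
  10)))), (.s k117 k69 3 (.s k48 k186 10 (.s k154 k207 14 (.d k16 k32 k223 3 10))))] (.c k16 (.q k4
  [(.s k12 k8 1 (.s k93 k174 12 (.s k166 k247 12 (.d k89 k81 k243 1 14)))), (.s k69 k117 3 (.s k166
  k247 12 (.s k36 k231 8 (.s k52 k20 3 (.d k199 k134 k150 8 12))))), (.s k12 k8 1 (.s k69 k117 3 (.s
  k134 k199 8 (.s k73 k195 10 (.s k77 k65 1 (.d k207 k142 k138 8 10))))))] .n) (.c k48 (.f k117 k69
  3 (.q k253 [(.s k49 k185 9 (.s k153 k205 13 (.s k17 k221 9 (.d k1 k33 k169 3 13)))), (.s k252 k254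
  0 (.s k84 k168 13 (.s k86 k87 0 (.s k116 k71 4 (.s k68 k100 3 (.d k119 k118 k102 0 4))))))] (.c
  k18 (.q k33 [(.d k169 k237 k1 9 13), (.s k49 k185 9 (.s k17 k1 3 (.d k153 k205 k221 13 9)))] (.c
  k1 (.l (.s k49 k185 9 (.s k205 k153 13 (.d k237 k169 k221 9 3)))) .n)) (.c k33 (.q k18 [(.s k49
  k185 9 (.s k153 k205 13 (.s k221 k17 9 (.s k204 k238 4 (.s k68 k136 9 (.d k102 k119 k51 4
  14)))))), (.s k252 k254 0 (.s k84 k168 13 (.s k86 k87 0 (.s k116 k71 4 (.s k68 k100 3 (.d k119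
  k118 k102 0 4)))))), (.s k185 k49 9 (.s k252 k254 0 (.s k51 k118 10 (.s k17 k34 4 (.s k153 k221 9
  (.d k169 k1 k137 13 3))))))] (.c k102 (.l (.s k185 k49 9 (.s k252 k254 0 (.s k84 k168 13 (.s k86
  k87 0 (.s k116 k71 4 (.d k118 k119 k51 0 10))))))) .n)) (.c k169 (.l (.s k49 k185 9 (.s k153 k205
  13 (.s k17 k221 9 (.s k51 k34 4 (.s k102 k204 14 (.d k119 k68 k187 4 9))))))) .n))))) (.c k69 (.q
  k81 [(.s k89 k93 1 (.s k243 k162 12 (.s k247 k251 1 (.d k166 k4 k12 12 14)))), (.s k89 k93 1 (.s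
  k113 k77 5 (.s k65 k97 3 (.s k195 k130 8 (.s k215 k235 5 (.s k150 k20 8 (.d k105 k125 k60 5
  14)))))))] (.c k89 (.f k243 k162 12 (.q k166 [(.d k247 k251 k4 1 12), (.s k231 k36 8 (.s k207 k219
  5 (.s k154 k48 14 (.d k223 k239 k16 3 10))))] (.c k8 (.l (.s k251 k247 1 (.s k231 k36 8 (.s k207
  k219 5 (.s k154 k48 14 (.d k223 k239 k16 3 10)))))) (.c k251 (.q k8 [(.d k4 k12 k247 1 12), (.s
  k231 k36 8 (.s k207 k219 5 (.s k223 k239 3 (.d k154 k16 k48 10 14))))] .n) .n)))) (.c k93 (.l (.s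
  k243 k162 12 (.s k247 k251 1 (.s k166 k4 12 (.s k231 k36 8 (.s k207 k219 5 (.s k154 k48 14 (.d
  k223 k239 k16 3 10)))))))) .n))) (.c k117 (.q k81 [(.s k89 k93 1 (.s k243 k162 12 (.s k247 k251 1
  (.d k166 k4 k12 12 14)))), (.s k89 k93 1 (.s k113 k77 5 (.s k65 k97 3 (.s k195 k130 8 (.s k215
  k235 5 (.s k150 k20 8 (.d k105 k125 k60 5 14)))))))] (.c k89 (.f k243 k162 12 (.q k166 [(.d k247
  k251 k4 1 12), (.s k231 k36 8 (.s k207 k219 5 (.s k154 k48 14 (.d k223 k239 k16 3 10))))] (.c k8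
  (.l (.s k251 k247 1 (.s k231 k36 8 (.s k207 k219 5 (.s k154 k48 14 (.d k223 k239 k16 3 10))))))
  (.c k251 (.q k8 [(.d k4 k12 k247 1 12), (.s k231 k36 8 (.s k207 k219 5 (.s k223 k239 3 (.d k154
  k16 k48 10 14))))] .n) .n)))) (.c k93 (.l (.s k243 k162 12 (.s k247 k251 1 (.s k166 k4 12 (.s k231
  k36 8 (.s k207 k219 5 (.s k154 k48 14 (.d k223 k239 k16 3 10)))))))) .n))) (.c k138 (.l (.s k117
  k69 3 (.s k48 k186 10 (.s k154 k207 14 (.d k16 k32 k223 3 10))))) (.c k154 (.f k69 k117 3 (.q k149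
  [(.s k197 k53 11 (.s k5 k133 7 (.s k213 k21 7 (.d k245 k229 k165 3 11)))), (.s k21 k213 7 (.s k63
  k42 6 (.s k106 k192 14 (.d k127 k64 k191 6 7)))), (.s k197 k53 11 (.s k5 k133 7 (.s k15 k10 2 (.s
  k95 k175 11 (.s k90 k80 2 (.d k165 k245 k240 11 14))))))] (.c k138 (.q k186 [(.s k197 k53 11 (.s
  k5 k133 7 (.s k213 k21 7 (.d k245 k229 k165 3 11)))), (.s k21 k213 7 (.s k63 k42 6 (.s k106 k192
  14 (.d k127 k64 k191 6 7)))), (.s k197 k53 11 (.s k5 k133 7 (.s k15 k10 2 (.s k95 k175 11 (.s k90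
  k80 2 (.d k165 k245 k240 11 14))))))] .n) (.c k186 (.l (.s k138 k207 10 (.s k21 k213 7 (.s k63 k42
  6 (.s k106 k192 14 (.d k127 k64 k191 6 7)))))) .n)))) (.c k186 (.l (.s k69 k117 3 (.s k207 k138 10
  (.s k154 k48 14 (.d k223 k239 k16 3 10))))) (.c k207 (.q k71 [(.s k69 k117 3 (.s k68 k70 0 (.s k86
  k116 4 (.s k87 k84 0 (.d k119 k103 k102 3 4))))), (.s k116 k86 4 (.s k117 k69 3 (.s k48 k186 10
  (.s k118 k119 0 (.s k252 k184 9 (.s k185 k51 10 (.d k253 k254 k49 0 9))))))), (.s k69 k117 3 (.s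
  k68 k70 0 (.s k204 k136 9 (.s k221 k238 4 (.s k153 k17 9 (.d k102 k119 k51 4 14)))))), (.s k86
  k116 4 (.s k87 k84 0 (.s k119 k103 3 (.s k51 k187 9 (.s k17 k34 4 (.s k153 k221 9 (.d k102 k68
  k204 4 14)))))))] (.c k119 (.q k4 [(.s k12 k8 1 (.s k93 k174 12 (.s k89 k81 1 (.d k166 k247 k243
  12 14)))), (.s k69 k117 3 (.s k70 k68 0 (.s k199 k134 8 (.s k7 k135 7 (.s k5 k6 0 (.d k133 k197
  k196 7 8))))))] (.c k12 (.l (.s k69 k117 3 (.s k166 k247 12 (.s k36 k231 8 (.s k52 k20 3 (.d k199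
  k134 k150 8 12)))))) .n)) .n)) (.c k223 (.q k4 [(.s k12 k8 1 (.s k93 k174 12 (.s k89 k81 1 (.d
  k166 k247 k243 12 14)))), (.s k69 k117 3 (.s k166 k247 12 (.s k36 k231 8 (.s k52 k20 3 (.d k199
  k134 k150 8 12))))), (.s k12 k8 1 (.s k69 k117 3 (.s k134 k199 8 (.s k73 k195 10 (.s k77 k65 1 (.d
  k207 k142 k138 8 10))))))] .n) .n)))))))))))

def t3_60 : T TT 256 :=
  (.q k106 [(.s k64 k127 6 (.s k192 k128 7 (.s k63 k149 14 (.s k42 k21 6 (.d k170 k234 k255 7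
  14)))))] (.c k21 (.f k127 k64 6 (.q k68 [(.s k102 k119 4 (.s k110 k98 1 (.s k204 k136 9 (.s k63
  k157 12 (.d k255 k191 k170 7 14))))), (.s k136 k204 9 (.s k170 k255 14 (.s k153 k187 4 (.s k200
  k59 12 (.s k8 k72 7 (.s k234 k42 7 (.d k251 k217 k89 4 12))))))), (.s k102 k119 4 (.s k110 k98 1
  (.s k170 k255 14 (.s k234 k42 7 (.s k238 k34 9 (.s k46 k174 7 (.d k226 k230 k166 1 9)))))))] (.c
  k22 (.q k41 [(.s k102 k119 4 (.s k110 k98 1 (.s k204 k136 9 (.s k63 k157 12 (.d k255 k191 k170 7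
  14))))), (.s k136 k204 9 (.s k170 k255 14 (.s k153 k187 4 (.s k200 k59 12 (.s k8 k72 7 (.s k234
  k42 7 (.d k251 k217 k89 4 12))))))), (.s k102 k119 4 (.s k110 k98 1 (.s k170 k255 14 (.s k234 k42
  7 (.s k238 k34 9 (.s k46 k174 7 (.d k226 k230 k166 1 9)))))))] (.c k20 (.q k23 [(.s k102 k119 4
  (.s k110 k98 1 (.s k204 k136 9 (.s k63 k157 12 (.d k255 k191 k170 7 14))))), (.s k136 k204 9 (.s
  k170 k255 14 (.s k153 k187 4 (.s k200 k59 12 (.s k8 k72 7 (.s k234 k42 7 (.d k251 k217 k89 4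
  12))))))), (.s k102 k119 4 (.s k110 k98 1 (.s k170 k255 14 (.s k234 k42 7 (.s k238 k34 9 (.s k46
  k174 7 (.d k226 k230 k166 1 9)))))))] (.c k119 (.l (.s k204 k136 9 (.s k255 k170 14 (.s k63 k191 7
  (.s k110 k157 12 (.s k93 k76 4 (.s k174 k12 12 (.d k238 k221 k46 4 7)))))))) (.c k170 (.l (.s k102
  k119 4 (.s k110 k98 1 (.s k93 k76 4 (.s k204 k136 9 (.s k153 k51 14 (.s k157 k63 12 (.d k221 k29
  k17 7 9)))))))) (.c k255 (.l (.s k102 k119 4 (.s k98 k110 1 (.s k204 k136 9 (.s k51 k153 14 (.s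
  k192 k145 12 (.s k149 k63 14 (.d k196 k200 k55 1 12)))))))) .n)))) (.c k23 (.q k20 [(.s k102 k119
  4 (.s k110 k98 1 (.s k204 k136 9 (.s k63 k157 12 (.d k255 k191 k170 7 14))))), (.s k102 k119 4 (.s
  k98 k110 1 (.s k150 k215 8 (.s k194 k62 13 (.s k50 k146 11 (.s k198 k54 11 (.d k206 k202 k154 1
  13))))))), (.s k136 k204 9 (.s k170 k255 14 (.s k153 k187 4 (.s k200 k59 12 (.s k8 k72 7 (.s k234
  k42 7 (.d k251 k217 k89 4 12)))))))] (.c k43 (.q k63 [(.d k255 k191 k170 7 14), (.s k102 k119 4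
  (.s k110 k98 1 (.d k204 k136 k157 9 12)))] .n) (.c k63 (.q k43 [(.s k42 k40 0 (.d k170 k234 k255 7
  14)), (.s k102 k119 4 (.s k98 k110 1 (.s k169 k232 8 (.s k35 k236 10 (.s k47 k39 1 (.d k224 k161
  k165 8 10))))))] (.c k61 (.q k62 [(.d k150 k215 k194 8 13), (.s k42 k40 0 (.d k170 k234 k255 7
  14))] .n) (.c k62 (.q k61 [(.s k42 k40 0 (.d k170 k234 k255 7 14)), (.s k169 k232 8 (.s k253 k1 13
  (.s k125 k189 7 (.d k105 k65 k233 5 7))))] (.c k2 (.l (.s k42 k40 0 (.d k170 k234 k255 7 14))) (.c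
  k42 (.q k2 [(.s k169 k232 8 (.s k105 k233 7 (.s k253 k1 13 (.d k125 k65 k189 5 7)))), (.s k102
  k119 4 (.s k204 k136 9 (.s k51 k153 14 (.s k34 k17 4 (.d k170 k238 k255 9 14)))))] .n) .n))) .n)))
  (.c k119 (.l (.s k204 k136 9 (.s k255 k170 14 (.s k63 k191 7 (.s k110 k157 12 (.s k93 k76 4 (.s
  k174 k12 12 (.d k238 k221 k46 4 7)))))))) .n)))) (.c k119 (.l (.s k204 k136 9 (.s k255 k170 14 (.s
  k63 k191 7 (.s k110 k157 12 (.s k93 k76 4 (.s k174 k12 12 (.d k238 k221 k46 4 7)))))))) (.c k170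
  (.l (.s k102 k119 4 (.s k110 k98 1 (.s k93 k76 4 (.s k204 k136 9 (.s k153 k51 14 (.s k157 k63 12
  (.d k221 k29 k17 7 9)))))))) (.c k255 (.l (.s k102 k119 4 (.s k98 k110 1 (.s k204 k136 9 (.s k51
  k153 14 (.s k192 k145 12 (.s k149 k63 14 (.d k196 k200 k55 1 12)))))))) .n)))))) (.c k41 (.q k22
  [(.s k102 k119 4 (.s k110 k98 1 (.s k204 k136 9 (.s k63 k157 12 (.d k255 k191 k170 7 14))))), (.s
  k136 k204 9 (.s k170 k255 14 (.s k153 k187 4 (.s k200 k59 12 (.s k8 k72 7 (.s k234 k42 7 (.d k251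
  k217 k89 4 12))))))), (.s k102 k119 4 (.s k110 k98 1 (.s k170 k255 14 (.s k234 k42 7 (.s k238 k34
  9 (.s k46 k174 7 (.d k226 k230 k166 1 9)))))))] (.c k1 (.q k61 [(.s k102 k119 4 (.s k110 k98 1 (.s
  k204 k136 9 (.s k63 k157 12 (.d k255 k191 k170 7 14))))), (.s k136 k204 9 (.s k170 k255 14 (.s
  k153 k187 4 (.s k200 k59 12 (.s k8 k72 7 (.s k234 k42 7 (.d k251 k217 k89 4 12))))))), (.s k102
  k119 4 (.s k110 k98 1 (.s k170 k255 14 (.s k234 k42 7 (.s k238 k34 9 (.s k46 k174 7 (.d k226 k230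
  k166 1 9)))))))] (.c k119 (.l (.s k204 k136 9 (.s k255 k170 14 (.s k63 k191 7 (.s k110 k157 12 (.s
  k93 k76 4 (.s k174 k12 12 (.d k238 k221 k46 4 7)))))))) (.c k170 (.l (.s k102 k119 4 (.s k110 k98
  1 (.s k93 k76 4 (.s k204 k136 9 (.s k153 k51 14 (.s k157 k63 12 (.d k221 k29 k17 7 9)))))))) (.c
  k255 (.l (.s k102 k119 4 (.s k98 k110 1 (.s k204 k136 9 (.s k51 k153 14 (.s k192 k145 12 (.s k149
  k63 14 (.d k196 k200 k55 1 12)))))))) .n)))) (.c k61 (.q k1 [(.s k102 k119 4 (.s k110 k98 1 (.s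
  k204 k136 9 (.s k63 k157 12 (.d k255 k191 k170 7 14))))), (.s k102 k119 4 (.s k98 k110 1 (.s k169
  k253 13 (.s k35 k236 10 (.s k43 k232 8 (.s k47 k39 1 (.d k224 k161 k165 8 10))))))), (.s k136 k204
  9 (.s k169 k253 13 (.s k170 k255 14 (.s k153 k187 4 (.s k137 k185 3 (.s k69 k205 9 (.d k138 k207
  k139 10 0)))))))] (.c k62 (.q k63 [(.d k255 k191 k170 7 14), (.s k102 k119 4 (.s k110 k98 1 (.d
  k204 k136 k157 9 12)))] .n) (.c k63 (.q k62 [(.s k42 k2 5 (.d k170 k234 k255 7 14)), (.s k102 k119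
  4 (.s k98 k110 1 (.s k194 k150 13 (.s k50 k146 11 (.s k58 k54 1 (.d k154 k202 k206 11 13))))))]
  (.c k23 (.q k43 [(.d k169 k232 k253 8 13), (.s k42 k2 5 (.d k170 k234 k255 7 14))] .n) (.c k43 (.q
  k23 [(.s k42 k2 5 (.d k170 k234 k255 7 14)), (.s k150 k194 13 (.s k215 k20 8 (.s k87 k151 7 (.d
  k86 k84 k214 0 7))))] (.c k40 (.l (.s k42 k2 5 (.d k170 k234 k255 7 14))) (.c k42 (.q k40 [(.s
  k150 k194 13 (.s k86 k214 7 (.s k215 k20 8 (.d k87 k84 k151 0 7)))), (.s k102 k119 4 (.s k204 k136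
  9 (.s k51 k153 14 (.s k34 k17 4 (.d k170 k238 k255 9 14)))))] .n) .n))) .n))) (.c k119 (.l (.s
  k204 k136 9 (.s k253 k169 13 (.s k255 k170 14 (.s k221 k238 4 (.s k205 k237 3 (.s k69 k137 9 (.d
  k207 k138 k206 10 0)))))))) .n)))) (.c k119 (.l (.s k204 k136 9 (.s k255 k170 14 (.s k63 k191 7
  (.s k110 k157 12 (.s k93 k76 4 (.s k174 k12 12 (.d k238 k221 k46 4 7)))))))) (.c k170 (.l (.s k102
  k119 4 (.s k110 k98 1 (.s k93 k76 4 (.s k204 k136 9 (.s k153 k51 14 (.s k157 k63 12 (.d k221 k29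
  k17 7 9)))))))) (.c k255 (.l (.s k102 k119 4 (.s k98 k110 1 (.s k204 k136 9 (.s k51 k153 14 (.s
  k192 k145 12 (.s k149 k63 14 (.d k196 k200 k55 1 12)))))))) .n)))))) (.c k119 (.l (.s k204 k136 9
  (.s k255 k170 14 (.s k63 k191 7 (.s k110 k157 12 (.s k93 k76 4 (.s k174 k12 12 (.d k238 k221 k46 4
  7)))))))) (.c k170 (.l (.s k102 k119 4 (.s k110 k98 1 (.s k93 k76 4 (.s k204 k136 9 (.s k153 k51
  14 (.s k157 k63 12 (.d k221 k29 k17 7 9)))))))) (.c k255 (.l (.s k102 k119 4 (.s k98 k110 1 (.s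
  k204 k136 9 (.s k51 k153 14 (.s k192 k145 12 (.s k149 k63 14 (.d k196 k200 k55 1 12))))))))
  .n))))))) (.c k22 (.q k41 [(.s k64 k127 6 (.s k192 k128 7 (.s k63 k149 14 (.s k42 k21 6 (.d k170
  k234 k255 7 14))))), (.s k170 k255 14 (.s k42 k234 7 (.s k43 k40 0 (.s k169 k232 8 (.s k1 k253 13
  (.d k21 k61 k63 5 6))))))] (.c k21 (.f k255 k170 14 (.f k64 k127 6 (.q k215 [(.s k192 k128 7 (.s
  k195 k235 5 (.s k194 k193 0 (.d k150 k20 k62 8 13)))), (.s k195 k235 5 (.s k65 k130 8 (.s k105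
  k125 5 (.s k104 k107 0 (.s k124 k84 5 (.d k67 k66 k86 0 6)))))), (.s k192 k128 7 (.s k149 k63 14
  (.s k213 k234 6 (.s k212 k214 0 (.s k23 k86 8 (.s k150 k20 8 (.d k151 k148 k87 0 7)))))))] (.c k20
  (.q k23 [(.s k87 k151 7 (.s k86 k84 0 (.s k192 k128 7 (.d k149 k212 k63 8 14)))), (.s k87 k151 7
  (.s k86 k84 0 (.s k66 k126 5 (.s k65 k67 0 (.d k195 k235 k130 5 8))))), (.s k151 k87 7 (.s k192
  k128 7 (.s k195 k235 5 (.d k63 k107 k149 13 14)))), (.s k192 k128 7 (.s k149 k63 14 (.s k212 k86 8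
  (.d k213 k214 k234 0 6))))] .n) (.c k23 (.l (.s k20 k150 8 (.s k192 k128 7 (.s k195 k235 5 (.s
  k193 k194 0 (.s k213 k234 6 (.s k214 k212 0 (.d k233 k253 k252 5 6)))))))) (.c k150 (.l (.s k192
  k128 7 (.s k195 k235 5 (.s k193 k194 0 (.s k213 k234 6 (.s k214 k212 0 (.d k233 k253 k252 5
  6))))))) .n)))))) (.c k42 (.l (.s k64 k127 6 (.s k192 k128 7 (.s k149 k63 14 (.s k213 k21 7 (.d
  k255 k234 k170 6 14)))))) (.c k63 (.f k127 k64 6 (.q k89 [(.s k123 k72 4 (.s k93 k81 1 (.s k115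
  k119 1 (.d k76 k110 k102 4 6)))), (.s k81 k93 1 (.s k170 k255 14 (.s k8 k251 12 (.s k12 k4 1 (.d
  k243 k162 k166 12 14))))), (.s k72 k123 4 (.s k170 k255 14 (.s k8 k251 12 (.s k42 k234 7 (.s k59
  k25 4 (.d k200 k136 k153 7 12))))))] (.c k23 (.q k43 [(.s k42 k40 0 (.d k170 k234 k255 7 14)), (.s
  k93 k81 1 (.s k76 k110 4 (.s k115 k102 6 (.d k123 k119 k72 1 4))))] (.c k20 (.q k21 [(.s k169 k232
  8 (.d k1 k61 k253 5 13)), (.s k42 k40 0 (.d k170 k234 k255 7 14))] (.c k61 (.q k62 [(.s k42 k40 0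
  (.d k170 k234 k255 7 14)), (.s k93 k81 1 (.s k76 k110 4 (.s k115 k102 6 (.d k123 k119 k72 1 4))))]
  .n) (.c k62 (.l (.s k61 k1 5 (.s k42 k40 0 (.d k170 k234 k255 7 14)))) .n))) (.c k21 (.q k20 [(.s
  k42 k40 0 (.d k170 k234 k255 7 14)), (.s k93 k81 1 (.s k76 k110 4 (.s k115 k102 6 (.d k123 k119
  k72 1 4))))] (.c k61 (.q k62 [(.d k150 k215 k194 8 13), (.s k42 k40 0 (.d k170 k234 k255 7 14))]
  .n) (.c k62 (.q k61 [(.s k42 k40 0 (.d k170 k234 k255 7 14)), (.s k93 k81 1 (.s k76 k110 4 (.s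
  k115 k102 6 (.d k123 k119 k72 1 4))))] (.c k2 (.l (.s k42 k40 0 (.d k170 k234 k255 7 14))) (.c k42
  (.q k2 [(.s k123 k72 4 (.s k93 k81 1 (.s k115 k119 1 (.d k76 k110 k102 4 6)))), (.s k169 k232 8
  (.s k105 k233 7 (.s k125 k65 5 (.d k253 k189 k1 7 13))))] .n) .n))) .n))) (.c k61 (.q k62 [(.s k42
  k40 0 (.d k170 k234 k255 7 14)), (.s k93 k81 1 (.s k76 k110 4 (.s k115 k102 6 (.d k123 k119 k72 1
  4))))] (.c k20 (.q k21 [(.s k42 k40 0 (.d k170 k234 k255 7 14)), (.s k93 k81 1 (.s k76 k110 4 (.s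
  k115 k102 6 (.d k123 k119 k72 1 4))))] .n) (.c k21 (.q k20 [(.d k150 k215 k194 8 13), (.s k42 k40
  0 (.d k170 k234 k255 7 14))] .n) .n))) (.c k62 (.q k61 [(.s k42 k40 0 (.d k170 k234 k255 7 14)),
  (.s k169 k232 8 (.d k1 k21 k253 5 13))] (.c k2 (.l (.s k42 k40 0 (.d k170 k234 k255 7 14))) (.c
  k20 (.l (.s k21 k1 5 (.s k42 k40 0 (.d k170 k234 k255 7 14)))) (.c k21 (.q k20 [(.s k42 k40 0 (.d
  k170 k234 k255 7 14)), (.s k93 k81 1 (.s k76 k110 4 (.s k115 k102 6 (.d k123 k119 k72 1 4))))] (.c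
  k2 (.l (.s k42 k40 0 (.d k170 k234 k255 7 14))) (.c k42 (.q k2 [(.s k123 k72 4 (.s k93 k81 1 (.s
  k115 k119 1 (.d k76 k110 k102 4 6)))), (.s k169 k232 8 (.s k105 k233 7 (.s k125 k65 5 (.d k253
  k189 k1 7 13))))] .n) .n))) (.c k42 (.q k2 [(.s k169 k232 8 (.d k1 k21 k253 5 13)), (.s k93 k81 1
  (.s k76 k110 4 (.s k115 k102 6 (.d k123 k119 k72 1 4))))] (.c k20 (.l (.s k21 k1 5 (.s k149 k213 7
  (.s k105 k193 13 (.d k169 k233 k232 7 8))))) (.c k21 (.q k20 [(.s k123 k72 4 (.s k93 k81 1 (.s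
  k115 k119 1 (.d k76 k110 k102 4 6)))), (.s k169 k232 8 (.s k105 k233 7 (.s k125 k65 5 (.d k253
  k189 k1 7 13))))] .n) .n))) .n))))) .n))))) (.c k43 (.q k23 [(.s k123 k72 4 (.s k93 k81 1 (.s k115
  k119 1 (.d k76 k110 k102 4 6)))), (.s k81 k93 1 (.s k170 k255 14 (.s k8 k251 12 (.s k12 k4 1 (.d
  k243 k162 k166 12 14))))), (.s k72 k123 4 (.s k170 k255 14 (.s k8 k251 12 (.s k42 k234 7 (.s k59
  k25 4 (.d k200 k136 k153 7 12))))))] (.c k61 (.q k62 [(.s k123 k72 4 (.s k93 k81 1 (.s k115 k119 1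
  (.d k76 k110 k102 4 6)))), (.s k81 k93 1 (.s k170 k255 14 (.s k8 k251 12 (.s k12 k4 1 (.d k243
  k162 k166 12 14))))), (.s k72 k123 4 (.s k170 k255 14 (.s k8 k251 12 (.s k42 k234 7 (.s k59 k25 4
  (.d k200 k136 k153 7 12))))))] .n) (.c k62 (.q k61 [(.s k123 k72 4 (.s k93 k81 1 (.s k115 k119 1
  (.d k76 k110 k102 4 6)))), (.s k1 k21 5 (.s k169 k253 13 (.s k105 k233 7 (.s k65 k125 5 (.d k193
  k129 k149 7 13)))))] (.c k2 (.q k42 [(.d k170 k234 k255 7 14), (.s k93 k81 1 (.s k76 k110 4 (.s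
  k115 k102 6 (.d k123 k119 k72 1 4))))] .n) (.c k42 (.q k2 [(.s k21 k1 5 (.s k149 k213 7 (.s k86
  k212 8 (.d k170 k254 k255 13 14)))), (.s k93 k81 1 (.s k76 k110 4 (.s k115 k102 6 (.d k123 k119
  k72 1 4))))] .n) .n))) .n))) (.c k61 (.q k62 [(.s k123 k72 4 (.s k93 k81 1 (.s k115 k119 1 (.d k76
  k110 k102 4 6)))), (.s k81 k93 1 (.s k170 k255 14 (.s k8 k251 12 (.s k12 k4 1 (.d k243 k162 k166
  12 14))))), (.s k72 k123 4 (.s k170 k255 14 (.s k8 k251 12 (.s k42 k234 7 (.s k59 k25 4 (.d k200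
  k136 k153 7 12))))))] (.c k23 (.q k43 [(.s k42 k40 0 (.d k170 k234 k255 7 14)), (.s k93 k81 1 (.s
  k76 k110 4 (.s k115 k102 6 (.d k123 k119 k72 1 4))))] (.c k20 (.q k21 [(.s k42 k40 0 (.d k170 k234
  k255 7 14)), (.s k93 k81 1 (.s k76 k110 4 (.s k115 k102 6 (.d k123 k119 k72 1 4))))] .n) (.c k21
  (.q k20 [(.d k150 k215 k194 8 13), (.s k42 k40 0 (.d k170 k234 k255 7 14))] .n) .n))) (.c k43 (.q
  k23 [(.s k123 k72 4 (.s k93 k81 1 (.s k115 k119 1 (.d k76 k110 k102 4 6)))), (.s k81 k93 1 (.s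
  k170 k255 14 (.s k8 k251 12 (.s k12 k4 1 (.d k243 k162 k166 12 14))))), (.s k72 k123 4 (.s k170
  k255 14 (.s k8 k251 12 (.s k42 k234 7 (.s k59 k25 4 (.d k200 k136 k153 7 12))))))] .n) .n))) (.c
  k62 (.q k61 [(.s k123 k72 4 (.s k93 k81 1 (.s k115 k119 1 (.d k76 k110 k102 4 6)))), (.s k1 k21 5
  (.s k169 k253 13 (.s k43 k232 8 (.s k42 k40 0 (.d k170 k234 k255 7 14)))))] (.c k2 (.q k42 [(.d
  k170 k234 k255 7 14), (.s k1 k21 5 (.s k43 k40 0 (.d k169 k232 k253 8 13)))] (.c k23 (.l (.s k43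
  k40 0 (.d k170 k234 k255 7 14))) (.c k43 (.q k23 [(.d k170 k234 k255 7 14), (.s k93 k81 1 (.s k76
  k110 4 (.s k115 k102 6 (.d k123 k119 k72 1 4))))] .n) .n))) (.c k23 (.q k43 [(.s k42 k40 0 (.d
  k170 k234 k255 7 14)), (.s k169 k232 8 (.d k1 k21 k253 5 13))] (.c k2 (.l (.s k42 k40 0 (.d k170
  k234 k255 7 14))) (.c k20 (.l (.s k21 k1 5 (.s k42 k40 0 (.d k170 k234 k255 7 14)))) (.c k21 (.q
  k20 [(.s k42 k40 0 (.d k170 k234 k255 7 14)), (.s k93 k81 1 (.s k76 k110 4 (.s k115 k102 6 (.d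
  k123 k119 k72 1 4))))] (.c k2 (.l (.s k42 k40 0 (.d k170 k234 k255 7 14))) (.c k42 (.q k2 [(.s
  k123 k72 4 (.s k93 k81 1 (.s k115 k119 1 (.d k76 k110 k102 4 6)))), (.s k169 k232 8 (.s k105 k233
  7 (.s k125 k65 5 (.d k253 k189 k1 7 13))))] .n) .n))) (.c k42 (.q k2 [(.s k169 k232 8 (.d k1 k21
  k253 5 13)), (.s k93 k81 1 (.s k76 k110 4 (.s k115 k102 6 (.d k123 k119 k72 1 4))))] (.c k20 (.l
  (.s k21 k1 5 (.s k149 k213 7 (.s k105 k193 13 (.d k169 k233 k232 7 8))))) (.c k21 (.q k20 [(.s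
  k123 k72 4 (.s k93 k81 1 (.s k115 k119 1 (.d k76 k110 k102 4 6)))), (.s k169 k232 8 (.s k105 k233
  7 (.s k125 k65 5 (.d k253 k189 k1 7 13))))] .n) .n))) .n))))) (.c k42 (.q k2 [(.s k123 k72 4 (.s
  k93 k81 1 (.s k115 k119 1 (.d k76 k110 k102 4 6)))), (.s k1 k21 5 (.s k169 k253 13 (.s k105 k233 7
  (.s k65 k125 5 (.d k193 k129 k149 7 13)))))] (.c k23 (.q k43 [(.s k169 k232 8 (.d k1 k21 k253 5
  13)), (.s k93 k81 1 (.s k76 k110 4 (.s k115 k102 6 (.d k123 k119 k72 1 4))))] (.c k20 (.l (.s k21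
  k1 5 (.s k149 k213 7 (.s k105 k193 13 (.d k169 k233 k232 7 8))))) (.c k21 (.q k20 [(.s k123 k72 4
  (.s k93 k81 1 (.s k115 k119 1 (.d k76 k110 k102 4 6)))), (.s k169 k232 8 (.s k105 k233 7 (.s k125
  k65 5 (.d k253 k189 k1 7 13))))] .n) .n))) (.c k43 (.q k23 [(.s k21 k1 5 (.s k149 k213 7 (.s k86
  k212 8 (.d k170 k254 k255 13 14)))), (.s k93 k81 1 (.s k76 k110 4 (.s k115 k102 6 (.d k123 k119
  k72 1 4))))] .n) .n))) (.c k43 (.q k23 [(.s k123 k72 4 (.s k93 k81 1 (.s k115 k119 1 (.d k76 k110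
  k102 4 6)))), (.s k1 k21 5 (.s k169 k253 13 (.s k105 k233 7 (.s k65 k125 5 (.d k193 k129 k149 7
  13)))))] (.c k2 (.q k42 [(.d k170 k234 k255 7 14), (.s k93 k81 1 (.s k76 k110 4 (.s k115 k102 6
  (.d k123 k119 k72 1 4))))] .n) (.c k42 (.q k2 [(.s k21 k1 5 (.s k149 k213 7 (.s k86 k212 8 (.d
  k170 k254 k255 13 14)))), (.s k93 k81 1 (.s k76 k110 4 (.s k115 k102 6 (.d k123 k119 k72 1 4))))]
  .n) .n))) .n))))) .n)))))) (.c k170 (.q k1 [(.s k21 k61 5 (.s k149 k213 7 (.d k63 k42 k192 6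
  14))), (.s k64 k127 6 (.s k128 k192 7 (.s k169 k253 13 (.s k105 k233 7 (.s k65 k125 5 (.s k130
  k195 8 (.d k129 k131 k193 0 7))))))), (.s k64 k127 6 (.s k169 k253 13 (.s k43 k232 8 (.s k42 k40 0
  (.s k63 k21 6 (.d k192 k128 k149 7 14))))))] (.c k192 (.l (.s k21 k61 5 (.s k169 k253 13 (.s k43
  k232 8 (.d k42 k63 k40 6 0))))) .n)) (.c k192 (.f k255 k170 14 (.f k127 k64 6 (.f k63 k191 7 (.l
  (.s k21 k42 6 (.s k61 k1 5 (.s k149 k213 7 (.s k105 k193 13 (.s k65 k125 5 (.s k195 k130 8 (.d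
  k107 k104 k151 0 13))))))))))) (.c k234 (.l (.s k127 k64 6 (.s k255 k170 14 (.s k63 k191 7 (.s k21
  k42 6 (.d k149 k213 k192 7 14)))))) (.c k255 (.f k64 k127 6 (.f k192 k128 7 (.f k63 k149 14 (.l
  (.s k21 k42 6 (.s k1 k61 5 (.s k169 k253 13 (.s k105 k233 7 (.s k107 k104 0 (.s k195 k151 13 (.d
  k65 k125 k130 5 8))))))))))) .n)))))))) (.c k41 (.q k22 [(.s k64 k127 6 (.s k192 k128 7 (.s k63
  k149 14 (.s k42 k21 6 (.d k170 k234 k255 7 14))))), (.s k170 k255 14 (.s k42 k234 7 (.s k62 k2 5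
  (.s k150 k194 13 (.s k20 k215 8 (.d k21 k23 k63 0 6))))))] (.c k21 (.f k255 k170 14 (.f k64 k127 6
  (.q k253 [(.s k192 k128 7 (.s k252 k254 0 (.s k232 k212 5 (.d k169 k1 k43 13 8)))), (.s k252 k254
  0 (.s k84 k168 13 (.s k86 k87 0 (.s k66 k126 5 (.s k67 k65 0 (.d k124 k104 k105 5 6)))))), (.s
  k192 k128 7 (.s k149 k63 14 (.s k213 k234 6 (.s k193 k233 5 (.s k61 k105 13 (.s k169 k1 13 (.d
  k189 k129 k125 5 7)))))))] (.c k1 (.q k61 [(.s k125 k189 7 (.s k105 k65 5 (.s k192 k128 7 (.d k149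
  k193 k63 13 14)))), (.s k125 k189 7 (.s k105 k65 5 (.s k104 k107 0 (.s k84 k124 5 (.d k252 k254
  k168 0 13))))), (.s k189 k125 7 (.s k192 k128 7 (.s k252 k254 0 (.d k63 k126 k149 8 14)))), (.s
  k192 k128 7 (.s k149 k63 14 (.s k193 k105 13 (.d k213 k233 k234 5 6))))] .n) (.c k61 (.l (.s k1
  k169 13 (.s k192 k128 7 (.s k213 k234 6 (.s k233 k193 5 (.s k252 k254 0 (.s k212 k232 5 (.d k214
  k215 k195 0 6)))))))) (.c k169 (.l (.s k192 k128 7 (.s k213 k234 6 (.s k233 k193 5 (.s k252 k254 0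
  (.s k212 k232 5 (.d k214 k215 k195 0 6))))))) .n)))))) (.c k42 (.l (.s k64 k127 6 (.s k192 k128 7
  (.s k149 k63 14 (.s k213 k21 7 (.d k255 k234 k170 6 14)))))) (.c k63 (.f k127 k64 6 (.q k89 [(.s
  k123 k72 4 (.s k93 k81 1 (.s k115 k119 1 (.d k76 k110 k102 4 6)))), (.s k81 k93 1 (.s k170 k255 14
  (.s k8 k251 12 (.s k12 k4 1 (.d k243 k162 k166 12 14))))), (.s k72 k123 4 (.s k170 k255 14 (.s k8
  k251 12 (.s k42 k234 7 (.s k59 k25 4 (.d k200 k136 k153 7 12))))))] (.c k23 (.q k43 [(.s k123 k72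
  4 (.s k93 k81 1 (.s k115 k119 1 (.d k76 k110 k102 4 6)))), (.s k81 k93 1 (.s k170 k255 14 (.s k8
  k251 12 (.s k12 k4 1 (.d k243 k162 k166 12 14))))), (.s k72 k123 4 (.s k170 k255 14 (.s k8 k251 12
  (.s k42 k234 7 (.s k59 k25 4 (.d k200 k136 k153 7 12))))))] (.c k61 (.q k62 [(.s k42 k2 5 (.d k170
  k234 k255 7 14)), (.s k93 k81 1 (.s k76 k110 4 (.s k115 k102 6 (.d k123 k119 k72 1 4))))] (.c k1
  (.q k21 [(.s k42 k2 5 (.d k170 k234 k255 7 14)), (.s k93 k81 1 (.s k76 k110 4 (.s k115 k102 6 (.d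
  k123 k119 k72 1 4))))] .n) (.c k21 (.q k1 [(.d k169 k232 k253 8 13), (.s k42 k2 5 (.d k170 k234
  k255 7 14))] .n) .n))) (.c k62 (.q k61 [(.s k123 k72 4 (.s k93 k81 1 (.s k115 k119 1 (.d k76 k110
  k102 4 6)))), (.s k81 k93 1 (.s k170 k255 14 (.s k8 k251 12 (.s k12 k4 1 (.d k243 k162 k166 12
  14))))), (.s k72 k123 4 (.s k170 k255 14 (.s k8 k251 12 (.s k42 k234 7 (.s k59 k25 4 (.d k200 k136
  k153 7 12))))))] .n) .n))) (.c k43 (.q k23 [(.s k123 k72 4 (.s k93 k81 1 (.s k115 k119 1 (.d k76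
  k110 k102 4 6)))), (.s k20 k21 0 (.s k150 k215 8 (.s k62 k194 13 (.s k42 k2 5 (.d k170 k234 k255 7
  14)))))] (.c k40 (.q k42 [(.d k170 k234 k255 7 14), (.s k20 k21 0 (.s k62 k2 5 (.d k150 k215 k194
  8 13)))] (.c k61 (.l (.s k62 k2 5 (.d k170 k234 k255 7 14))) (.c k62 (.q k61 [(.d k170 k234 k255 7
  14), (.s k93 k81 1 (.s k76 k110 4 (.s k115 k102 6 (.d k123 k119 k72 1 4))))] .n) .n))) (.c k42 (.q
  k40 [(.s k123 k72 4 (.s k93 k81 1 (.s k115 k119 1 (.d k76 k110 k102 4 6)))), (.s k20 k21 0 (.s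
  k150 k215 8 (.s k86 k214 7 (.s k84 k87 0 (.d k212 k148 k149 7 8)))))] (.c k61 (.q k62 [(.s k150
  k194 13 (.d k20 k21 k215 0 8)), (.s k93 k81 1 (.s k76 k110 4 (.s k115 k102 6 (.d k123 k119 k72 1
  4))))] (.c k1 (.l (.s k21 k20 0 (.s k149 k213 7 (.s k86 k212 8 (.d k150 k214 k194 7 13))))) (.c
  k21 (.q k1 [(.s k123 k72 4 (.s k93 k81 1 (.s k115 k119 1 (.d k76 k110 k102 4 6)))), (.s k150 k194
  13 (.s k86 k214 7 (.s k87 k84 0 (.d k215 k151 k20 7 8))))] .n) .n))) (.c k62 (.q k61 [(.s k21 k20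
  0 (.s k149 k213 7 (.s k105 k193 13 (.d k170 k235 k255 8 14)))), (.s k93 k81 1 (.s k76 k110 4 (.s
  k115 k102 6 (.d k123 k119 k72 1 4))))] .n) .n))) (.c k61 (.q k62 [(.s k42 k2 5 (.d k170 k234 k255
  7 14)), (.s k150 k194 13 (.d k20 k21 k215 0 8))] (.c k1 (.l (.s k21 k20 0 (.s k42 k2 5 (.d k170
  k234 k255 7 14)))) (.c k21 (.q k1 [(.s k42 k2 5 (.d k170 k234 k255 7 14)), (.s k93 k81 1 (.s k76
  k110 4 (.s k115 k102 6 (.d k123 k119 k72 1 4))))] (.c k40 (.l (.s k42 k2 5 (.d k170 k234 k255 7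
  14))) (.c k42 (.q k40 [(.s k123 k72 4 (.s k93 k81 1 (.s k115 k119 1 (.d k76 k110 k102 4 6)))), (.s
  k150 k194 13 (.s k86 k214 7 (.s k87 k84 0 (.d k215 k151 k20 7 8))))] .n) .n))) (.c k40 (.l (.s k42
  k2 5 (.d k170 k234 k255 7 14))) (.c k42 (.q k40 [(.s k150 k194 13 (.d k20 k21 k215 0 8)), (.s k93
  k81 1 (.s k76 k110 4 (.s k115 k102 6 (.d k123 k119 k72 1 4))))] (.c k1 (.l (.s k21 k20 0 (.s k149
  k213 7 (.s k86 k212 8 (.d k150 k214 k194 7 13))))) (.c k21 (.q k1 [(.s k123 k72 4 (.s k93 k81 1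
  (.s k115 k119 1 (.d k76 k110 k102 4 6)))), (.s k150 k194 13 (.s k86 k214 7 (.s k87 k84 0 (.d k215
  k151 k20 7 8))))] .n) .n))) .n))))) (.c k62 (.q k61 [(.s k123 k72 4 (.s k93 k81 1 (.s k115 k119 1
  (.d k76 k110 k102 4 6)))), (.s k20 k21 0 (.s k150 k215 8 (.s k86 k214 7 (.s k84 k87 0 (.d k212
  k148 k149 7 8)))))] (.c k40 (.q k42 [(.d k170 k234 k255 7 14), (.s k93 k81 1 (.s k76 k110 4 (.s
  k115 k102 6 (.d k123 k119 k72 1 4))))] .n) (.c k42 (.q k40 [(.s k21 k20 0 (.s k149 k213 7 (.s k105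
  k193 13 (.d k170 k235 k255 8 14)))), (.s k93 k81 1 (.s k76 k110 4 (.s k115 k102 6 (.d k123 k119
  k72 1 4))))] .n) .n))) .n))))) (.c k61 (.q k62 [(.s k42 k2 5 (.d k170 k234 k255 7 14)), (.s k93
  k81 1 (.s k76 k110 4 (.s k115 k102 6 (.d k123 k119 k72 1 4))))] (.c k1 (.q k21 [(.s k150 k194 13
  (.d k20 k23 k215 0 8)), (.s k42 k2 5 (.d k170 k234 k255 7 14))] (.c k23 (.q k43 [(.s k42 k2 5 (.d
  k170 k234 k255 7 14)), (.s k93 k81 1 (.s k76 k110 4 (.s k115 k102 6 (.d k123 k119 k72 1 4))))] .n)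
  (.c k43 (.l (.s k23 k20 0 (.s k42 k2 5 (.d k170 k234 k255 7 14)))) .n))) (.c k21 (.q k1 [(.s k42
  k2 5 (.d k170 k234 k255 7 14)), (.s k93 k81 1 (.s k76 k110 4 (.s k115 k102 6 (.d k123 k119 k72 1
  4))))] (.c k23 (.q k43 [(.d k169 k232 k253 8 13), (.s k42 k2 5 (.d k170 k234 k255 7 14))] .n) (.c
  k43 (.q k23 [(.s k42 k2 5 (.d k170 k234 k255 7 14)), (.s k93 k81 1 (.s k76 k110 4 (.s k115 k102 6
  (.d k123 k119 k72 1 4))))] (.c k40 (.l (.s k42 k2 5 (.d k170 k234 k255 7 14))) (.c k42 (.q k40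
  [(.s k123 k72 4 (.s k93 k81 1 (.s k115 k119 1 (.d k76 k110 k102 4 6)))), (.s k150 k194 13 (.s k86
  k214 7 (.s k87 k84 0 (.d k215 k151 k20 7 8))))] .n) .n))) .n))) (.c k23 (.q k43 [(.s k42 k2 5 (.d
  k170 k234 k255 7 14)), (.s k93 k81 1 (.s k76 k110 4 (.s k115 k102 6 (.d k123 k119 k72 1 4))))] (.c
  k1 (.q k21 [(.s k42 k2 5 (.d k170 k234 k255 7 14)), (.s k93 k81 1 (.s k76 k110 4 (.s k115 k102 6
  (.d k123 k119 k72 1 4))))] .n) (.c k21 (.q k1 [(.d k169 k232 k253 8 13), (.s k42 k2 5 (.d k170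
  k234 k255 7 14))] .n) .n))) (.c k43 (.q k23 [(.s k42 k2 5 (.d k170 k234 k255 7 14)), (.s k150 k194
  13 (.d k20 k21 k215 0 8))] (.c k1 (.l (.s k21 k20 0 (.s k42 k2 5 (.d k170 k234 k255 7 14)))) (.c
  k21 (.q k1 [(.s k42 k2 5 (.d k170 k234 k255 7 14)), (.s k93 k81 1 (.s k76 k110 4 (.s k115 k102 6
  (.d k123 k119 k72 1 4))))] (.c k40 (.l (.s k42 k2 5 (.d k170 k234 k255 7 14))) (.c k42 (.q k40
  [(.s k123 k72 4 (.s k93 k81 1 (.s k115 k119 1 (.d k76 k110 k102 4 6)))), (.s k150 k194 13 (.s k86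
  k214 7 (.s k87 k84 0 (.d k215 k151 k20 7 8))))] .n) .n))) (.c k40 (.l (.s k42 k2 5 (.d k170 k234
  k255 7 14))) (.c k42 (.q k40 [(.s k150 k194 13 (.d k20 k21 k215 0 8)), (.s k93 k81 1 (.s k76 k110
  4 (.s k115 k102 6 (.d k123 k119 k72 1 4))))] (.c k1 (.l (.s k21 k20 0 (.s k149 k213 7 (.s k86 k212
  8 (.d k150 k214 k194 7 13))))) (.c k21 (.q k1 [(.s k123 k72 4 (.s k93 k81 1 (.s k115 k119 1 (.d
  k76 k110 k102 4 6)))), (.s k150 k194 13 (.s k86 k214 7 (.s k87 k84 0 (.d k215 k151 k20 7 8))))]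
  .n) .n))) .n))))) .n))))) (.c k62 (.q k61 [(.s k123 k72 4 (.s k93 k81 1 (.s k115 k119 1 (.d k76
  k110 k102 4 6)))), (.s k81 k93 1 (.s k170 k255 14 (.s k8 k251 12 (.s k12 k4 1 (.d k243 k162 k166
  12 14))))), (.s k72 k123 4 (.s k170 k255 14 (.s k8 k251 12 (.s k42 k234 7 (.s k59 k25 4 (.d k200
  k136 k153 7 12))))))] (.c k23 (.q k43 [(.s k123 k72 4 (.s k93 k81 1 (.s k115 k119 1 (.d k76 k110
  k102 4 6)))), (.s k81 k93 1 (.s k170 k255 14 (.s k8 k251 12 (.s k12 k4 1 (.d k243 k162 k166 12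
  14))))), (.s k72 k123 4 (.s k170 k255 14 (.s k8 k251 12 (.s k42 k234 7 (.s k59 k25 4 (.d k200 k136
  k153 7 12))))))] .n) (.c k43 (.q k23 [(.s k123 k72 4 (.s k93 k81 1 (.s k115 k119 1 (.d k76 k110
  k102 4 6)))), (.s k20 k21 0 (.s k150 k215 8 (.s k86 k214 7 (.s k84 k87 0 (.d k212 k148 k149 7
  8)))))] (.c k40 (.q k42 [(.d k170 k234 k255 7 14), (.s k93 k81 1 (.s k76 k110 4 (.s k115 k102 6
  (.d k123 k119 k72 1 4))))] .n) (.c k42 (.q k40 [(.s k21 k20 0 (.s k149 k213 7 (.s k105 k193 13 (.d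
  k170 k235 k255 8 14)))), (.s k93 k81 1 (.s k76 k110 4 (.s k115 k102 6 (.d k123 k119 k72 1 4))))]
  .n) .n))) .n))) .n)))))) (.c k170 (.q k20 [(.s k21 k23 0 (.s k149 k213 7 (.d k63 k42 k192 6 14))),
  (.s k64 k127 6 (.s k128 k192 7 (.s k150 k215 8 (.s k86 k214 7 (.s k84 k87 0 (.s k168 k252 13 (.d
  k148 k188 k212 5 7))))))), (.s k64 k127 6 (.s k150 k215 8 (.s k62 k194 13 (.s k42 k2 5 (.s k63 k21
  6 (.d k192 k128 k149 7 14))))))] (.c k192 (.l (.s k21 k23 0 (.s k150 k215 8 (.s k62 k194 13 (.d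
  k42 k63 k2 6 5))))) .n)) (.c k192 (.f k255 k170 14 (.f k127 k64 6 (.f k63 k191 7 (.l (.s k21 k42 6
  (.s k23 k20 0 (.s k149 k213 7 (.s k86 k212 8 (.s k84 k87 0 (.s k252 k168 13 (.d k126 k66 k189 5
  8))))))))))) (.c k234 (.l (.s k127 k64 6 (.s k255 k170 14 (.s k63 k191 7 (.s k21 k42 6 (.d k149
  k213 k192 7 14)))))) (.c k255 (.f k64 k127 6 (.f k192 k128 7 (.f k63 k149 14 (.l (.s k21 k42 6 (.s
  k20 k23 0 (.s k150 k215 8 (.s k86 k214 7 (.s k126 k66 5 (.s k252 k189 8 (.d k84 k87 k168 0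
  13))))))))))) .n)))))))) (.c k42 (.l (.s k64 k127 6 (.s k192 k128 7 (.s k149 k63 14 (.s k213 k21 7
  (.d k255 k234 k170 6 14)))))) (.c k63 (.f k127 k64 6 (.q k89 [(.s k123 k72 4 (.s k93 k81 1 (.s
  k115 k119 1 (.d k76 k110 k102 4 6)))), (.s k81 k93 1 (.s k170 k255 14 (.s k8 k251 12 (.s k12 k4 1
  (.d k243 k162 k166 12 14))))), (.s k72 k123 4 (.s k170 k255 14 (.s k8 k251 12 (.s k42 k234 7 (.s
  k59 k25 4 (.d k200 k136 k153 7 12))))))] (.c k22 (.q k41 [(.s k123 k72 4 (.s k93 k81 1 (.s k115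
  k119 1 (.d k76 k110 k102 4 6)))), (.s k81 k93 1 (.s k170 k255 14 (.s k8 k251 12 (.s k12 k4 1 (.d
  k243 k162 k166 12 14))))), (.s k72 k123 4 (.s k170 k255 14 (.s k8 k251 12 (.s k42 k234 7 (.s k59
  k25 4 (.d k200 k136 k153 7 12))))))] (.c k23 (.q k43 [(.s k42 k40 0 (.d k170 k234 k255 7 14)), (.s
  k93 k81 1 (.s k76 k110 4 (.s k115 k102 6 (.d k123 k119 k72 1 4))))] (.c k20 (.q k21 [(.s k169 k232
  8 (.d k1 k61 k253 5 13)), (.s k42 k40 0 (.d k170 k234 k255 7 14))] (.c k61 (.q k62 [(.s k42 k40 0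
  (.d k170 k234 k255 7 14)), (.s k93 k81 1 (.s k76 k110 4 (.s k115 k102 6 (.d k123 k119 k72 1 4))))]
  .n) (.c k62 (.l (.s k61 k1 5 (.s k42 k40 0 (.d k170 k234 k255 7 14)))) .n))) (.c k21 (.q k20 [(.s
  k42 k40 0 (.d k170 k234 k255 7 14)), (.s k93 k81 1 (.s k76 k110 4 (.s k115 k102 6 (.d k123 k119
  k72 1 4))))] (.c k61 (.q k62 [(.d k150 k215 k194 8 13), (.s k42 k40 0 (.d k170 k234 k255 7 14))]
  .n) (.c k62 (.q k61 [(.s k42 k40 0 (.d k170 k234 k255 7 14)), (.s k93 k81 1 (.s k76 k110 4 (.s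
  k115 k102 6 (.d k123 k119 k72 1 4))))] (.c k2 (.l (.s k42 k40 0 (.d k170 k234 k255 7 14))) (.c k42
  (.q k2 [(.s k123 k72 4 (.s k93 k81 1 (.s k115 k119 1 (.d k76 k110 k102 4 6)))), (.s k169 k232 8
  (.s k105 k233 7 (.s k125 k65 5 (.d k253 k189 k1 7 13))))] .n) .n))) .n))) (.c k61 (.q k62 [(.s k42
  k40 0 (.d k170 k234 k255 7 14)), (.s k93 k81 1 (.s k76 k110 4 (.s k115 k102 6 (.d k123 k119 k72 1
  4))))] (.c k20 (.q k21 [(.s k42 k40 0 (.d k170 k234 k255 7 14)), (.s k93 k81 1 (.s k76 k110 4 (.s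
  k115 k102 6 (.d k123 k119 k72 1 4))))] .n) (.c k21 (.q k20 [(.d k150 k215 k194 8 13), (.s k42 k40
  0 (.d k170 k234 k255 7 14))] .n) .n))) (.c k62 (.q k61 [(.s k42 k40 0 (.d k170 k234 k255 7 14)),
  (.s k169 k232 8 (.d k1 k21 k253 5 13))] (.c k2 (.l (.s k42 k40 0 (.d k170 k234 k255 7 14))) (.c
  k20 (.l (.s k21 k1 5 (.s k42 k40 0 (.d k170 k234 k255 7 14)))) (.c k21 (.q k20 [(.s k42 k40 0 (.d
  k170 k234 k255 7 14)), (.s k93 k81 1 (.s k76 k110 4 (.s k115 k102 6 (.d k123 k119 k72 1 4))))] (.c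
  k2 (.l (.s k42 k40 0 (.d k170 k234 k255 7 14))) (.c k42 (.q k2 [(.s k123 k72 4 (.s k93 k81 1 (.s
  k115 k119 1 (.d k76 k110 k102 4 6)))), (.s k169 k232 8 (.s k105 k233 7 (.s k125 k65 5 (.d k253
  k189 k1 7 13))))] .n) .n))) (.c k42 (.q k2 [(.s k169 k232 8 (.d k1 k21 k253 5 13)), (.s k93 k81 1
  (.s k76 k110 4 (.s k115 k102 6 (.d k123 k119 k72 1 4))))] (.c k20 (.l (.s k21 k1 5 (.s k149 k213 7
  (.s k105 k193 13 (.d k169 k233 k232 7 8))))) (.c k21 (.q k20 [(.s k123 k72 4 (.s k93 k81 1 (.s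
  k115 k119 1 (.d k76 k110 k102 4 6)))), (.s k169 k232 8 (.s k105 k233 7 (.s k125 k65 5 (.d k253
  k189 k1 7 13))))] .n) .n))) .n))))) .n))))) (.c k43 (.q k23 [(.s k123 k72 4 (.s k93 k81 1 (.s k115
  k119 1 (.d k76 k110 k102 4 6)))), (.s k81 k93 1 (.s k170 k255 14 (.s k8 k251 12 (.s k12 k4 1 (.d
  k243 k162 k166 12 14))))), (.s k72 k123 4 (.s k170 k255 14 (.s k8 k251 12 (.s k42 k234 7 (.s k59
  k25 4 (.d k200 k136 k153 7 12))))))] (.c k61 (.q k62 [(.s k123 k72 4 (.s k93 k81 1 (.s k115 k119 1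
  (.d k76 k110 k102 4 6)))), (.s k81 k93 1 (.s k170 k255 14 (.s k8 k251 12 (.s k12 k4 1 (.d k243
  k162 k166 12 14))))), (.s k72 k123 4 (.s k170 k255 14 (.s k8 k251 12 (.s k42 k234 7 (.s k59 k25 4
  (.d k200 k136 k153 7 12))))))] .n) (.c k62 (.q k61 [(.s k123 k72 4 (.s k93 k81 1 (.s k115 k119 1
  (.d k76 k110 k102 4 6)))), (.s k1 k21 5 (.s k169 k253 13 (.s k105 k233 7 (.s k65 k125 5 (.d k193
  k129 k149 7 13)))))] (.c k2 (.q k42 [(.d k170 k234 k255 7 14), (.s k93 k81 1 (.s k76 k110 4 (.s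
  k115 k102 6 (.d k123 k119 k72 1 4))))] .n) (.c k42 (.q k2 [(.s k21 k1 5 (.s k149 k213 7 (.s k86
  k212 8 (.d k170 k254 k255 13 14)))), (.s k93 k81 1 (.s k76 k110 4 (.s k115 k102 6 (.d k123 k119
  k72 1 4))))] .n) .n))) .n))) (.c k61 (.q k62 [(.s k123 k72 4 (.s k93 k81 1 (.s k115 k119 1 (.d k76
  k110 k102 4 6)))), (.s k81 k93 1 (.s k170 k255 14 (.s k8 k251 12 (.s k12 k4 1 (.d k243 k162 k166
  12 14))))), (.s k72 k123 4 (.s k170 k255 14 (.s k8 k251 12 (.s k42 k234 7 (.s k59 k25 4 (.d k200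
  k136 k153 7 12))))))] (.c k23 (.q k43 [(.s k42 k40 0 (.d k170 k234 k255 7 14)), (.s k93 k81 1 (.s
  k76 k110 4 (.s k115 k102 6 (.d k123 k119 k72 1 4))))] (.c k20 (.q k21 [(.s k42 k40 0 (.d k170 k234
  k255 7 14)), (.s k93 k81 1 (.s k76 k110 4 (.s k115 k102 6 (.d k123 k119 k72 1 4))))] .n) (.c k21
  (.q k20 [(.d k150 k215 k194 8 13), (.s k42 k40 0 (.d k170 k234 k255 7 14))] .n) .n))) (.c k43 (.q
  k23 [(.s k123 k72 4 (.s k93 k81 1 (.s k115 k119 1 (.d k76 k110 k102 4 6)))), (.s k81 k93 1 (.s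
  k170 k255 14 (.s k8 k251 12 (.s k12 k4 1 (.d k243 k162 k166 12 14))))), (.s k72 k123 4 (.s k170
  k255 14 (.s k8 k251 12 (.s k42 k234 7 (.s k59 k25 4 (.d k200 k136 k153 7 12))))))] .n) .n))) (.c
  k62 (.q k61 [(.s k123 k72 4 (.s k93 k81 1 (.s k115 k119 1 (.d k76 k110 k102 4 6)))), (.s k1 k21 5
  (.s k169 k253 13 (.s k43 k232 8 (.s k42 k40 0 (.d k170 k234 k255 7 14)))))] (.c k2 (.q k42 [(.d
  k170 k234 k255 7 14), (.s k1 k21 5 (.s k43 k40 0 (.d k169 k232 k253 8 13)))] (.c k23 (.l (.s k43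
  k40 0 (.d k170 k234 k255 7 14))) (.c k43 (.q k23 [(.d k170 k234 k255 7 14), (.s k93 k81 1 (.s k76
  k110 4 (.s k115 k102 6 (.d k123 k119 k72 1 4))))] .n) .n))) (.c k23 (.q k43 [(.s k42 k40 0 (.d
  k170 k234 k255 7 14)), (.s k169 k232 8 (.d k1 k21 k253 5 13))] (.c k2 (.l (.s k42 k40 0 (.d k170
  k234 k255 7 14))) (.c k20 (.l (.s k21 k1 5 (.s k42 k40 0 (.d k170 k234 k255 7 14)))) (.c k21 (.q
  k20 [(.s k42 k40 0 (.d k170 k234 k255 7 14)), (.s k93 k81 1 (.s k76 k110 4 (.s k115 k102 6 (.d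
  k123 k119 k72 1 4))))] (.c k2 (.l (.s k42 k40 0 (.d k170 k234 k255 7 14))) (.c k42 (.q k2 [(.s
  k123 k72 4 (.s k93 k81 1 (.s k115 k119 1 (.d k76 k110 k102 4 6)))), (.s k169 k232 8 (.s k105 k233
  7 (.s k125 k65 5 (.d k253 k189 k1 7 13))))] .n) .n))) (.c k42 (.q k2 [(.s k169 k232 8 (.d k1 k21
  k253 5 13)), (.s k93 k81 1 (.s k76 k110 4 (.s k115 k102 6 (.d k123 k119 k72 1 4))))] (.c k20 (.l
  (.s k21 k1 5 (.s k149 k213 7 (.s k105 k193 13 (.d k169 k233 k232 7 8))))) (.c k21 (.q k20 [(.s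
  k123 k72 4 (.s k93 k81 1 (.s k115 k119 1 (.d k76 k110 k102 4 6)))), (.s k169 k232 8 (.s k105 k233
  7 (.s k125 k65 5 (.d k253 k189 k1 7 13))))] .n) .n))) .n))))) (.c k42 (.q k2 [(.s k123 k72 4 (.s
  k93 k81 1 (.s k115 k119 1 (.d k76 k110 k102 4 6)))), (.s k1 k21 5 (.s k169 k253 13 (.s k105 k233 7
  (.s k65 k125 5 (.d k193 k129 k149 7 13)))))] (.c k23 (.q k43 [(.s k169 k232 8 (.d k1 k21 k253 5
  13)), (.s k93 k81 1 (.s k76 k110 4 (.s k115 k102 6 (.d k123 k119 k72 1 4))))] (.c k20 (.l (.s k21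
  k1 5 (.s k149 k213 7 (.s k105 k193 13 (.d k169 k233 k232 7 8))))) (.c k21 (.q k20 [(.s k123 k72 4
  (.s k93 k81 1 (.s k115 k119 1 (.d k76 k110 k102 4 6)))), (.s k169 k232 8 (.s k105 k233 7 (.s k125
  k65 5 (.d k253 k189 k1 7 13))))] .n) .n))) (.c k43 (.q k23 [(.s k21 k1 5 (.s k149 k213 7 (.s k86
  k212 8 (.d k170 k254 k255 13 14)))), (.s k93 k81 1 (.s k76 k110 4 (.s k115 k102 6 (.d k123 k119
  k72 1 4))))] .n) .n))) (.c k43 (.q k23 [(.s k123 k72 4 (.s k93 k81 1 (.s k115 k119 1 (.d k76 k110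
  k102 4 6)))), (.s k1 k21 5 (.s k169 k253 13 (.s k105 k233 7 (.s k65 k125 5 (.d k193 k129 k149 7
  13)))))] (.c k2 (.q k42 [(.d k170 k234 k255 7 14), (.s k93 k81 1 (.s k76 k110 4 (.s k115 k102 6
  (.d k123 k119 k72 1 4))))] .n) (.c k42 (.q k2 [(.s k21 k1 5 (.s k149 k213 7 (.s k86 k212 8 (.d
  k170 k254 k255 13 14)))), (.s k93 k81 1 (.s k76 k110 4 (.s k115 k102 6 (.d k123 k119 k72 1 4))))]
  .n) .n))) .n))))) .n))))) (.c k23 (.q k43 [(.s k123 k72 4 (.s k93 k81 1 (.s k115 k119 1 (.d k76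
  k110 k102 4 6)))), (.s k81 k93 1 (.s k170 k255 14 (.s k8 k251 12 (.s k12 k4 1 (.d k243 k162 k166
  12 14))))), (.s k72 k123 4 (.s k170 k255 14 (.s k8 k251 12 (.s k42 k234 7 (.s k59 k25 4 (.d k200
  k136 k153 7 12))))))] (.c k22 (.q k41 [(.s k42 k40 0 (.d k170 k234 k255 7 14)), (.s k93 k81 1 (.s
  k76 k110 4 (.s k115 k102 6 (.d k123 k119 k72 1 4))))] (.c k20 (.q k21 [(.s k169 k232 8 (.d k1 k61
  k253 5 13)), (.s k42 k40 0 (.d k170 k234 k255 7 14))] (.c k61 (.q k62 [(.s k42 k40 0 (.d k170 k234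
  k255 7 14)), (.s k93 k81 1 (.s k76 k110 4 (.s k115 k102 6 (.d k123 k119 k72 1 4))))] .n) (.c k62
  (.l (.s k61 k1 5 (.s k42 k40 0 (.d k170 k234 k255 7 14)))) .n))) (.c k21 (.q k20 [(.s k42 k40 0
  (.d k170 k234 k255 7 14)), (.s k93 k81 1 (.s k76 k110 4 (.s k115 k102 6 (.d k123 k119 k72 1 4))))]
  (.c k61 (.q k62 [(.d k150 k215 k194 8 13), (.s k42 k40 0 (.d k170 k234 k255 7 14))] .n) (.c k62
  (.q k61 [(.s k42 k40 0 (.d k170 k234 k255 7 14)), (.s k93 k81 1 (.s k76 k110 4 (.s k115 k102 6 (.d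
  k123 k119 k72 1 4))))] (.c k2 (.l (.s k42 k40 0 (.d k170 k234 k255 7 14))) (.c k42 (.q k2 [(.s
  k123 k72 4 (.s k93 k81 1 (.s k115 k119 1 (.d k76 k110 k102 4 6)))), (.s k169 k232 8 (.s k105 k233
  7 (.s k125 k65 5 (.d k253 k189 k1 7 13))))] .n) .n))) .n))) (.c k61 (.q k62 [(.s k42 k40 0 (.d
  k170 k234 k255 7 14)), (.s k93 k81 1 (.s k76 k110 4 (.s k115 k102 6 (.d k123 k119 k72 1 4))))] (.c
  k20 (.q k21 [(.s k42 k40 0 (.d k170 k234 k255 7 14)), (.s k93 k81 1 (.s k76 k110 4 (.s k115 k102 6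
  (.d k123 k119 k72 1 4))))] .n) (.c k21 (.q k20 [(.d k150 k215 k194 8 13), (.s k42 k40 0 (.d k170
  k234 k255 7 14))] .n) .n))) (.c k62 (.q k61 [(.s k42 k40 0 (.d k170 k234 k255 7 14)), (.s k169
  k232 8 (.d k1 k21 k253 5 13))] (.c k2 (.l (.s k42 k40 0 (.d k170 k234 k255 7 14))) (.c k20 (.l (.s
  k21 k1 5 (.s k42 k40 0 (.d k170 k234 k255 7 14)))) (.c k21 (.q k20 [(.s k42 k40 0 (.d k170 k234
  k255 7 14)), (.s k93 k81 1 (.s k76 k110 4 (.s k115 k102 6 (.d k123 k119 k72 1 4))))] (.c k2 (.l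
  (.s k42 k40 0 (.d k170 k234 k255 7 14))) (.c k42 (.q k2 [(.s k123 k72 4 (.s k93 k81 1 (.s k115
  k119 1 (.d k76 k110 k102 4 6)))), (.s k169 k232 8 (.s k105 k233 7 (.s k125 k65 5 (.d k253 k189 k1
  7 13))))] .n) .n))) (.c k42 (.q k2 [(.s k169 k232 8 (.d k1 k21 k253 5 13)), (.s k93 k81 1 (.s k76
  k110 4 (.s k115 k102 6 (.d k123 k119 k72 1 4))))] (.c k20 (.l (.s k21 k1 5 (.s k149 k213 7 (.s
  k105 k193 13 (.d k169 k233 k232 7 8))))) (.c k21 (.q k20 [(.s k123 k72 4 (.s k93 k81 1 (.s k115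
  k119 1 (.d k76 k110 k102 4 6)))), (.s k169 k232 8 (.s k105 k233 7 (.s k125 k65 5 (.d k253 k189 k1
  7 13))))] .n) .n))) .n))))) .n))))) (.c k41 (.q k22 [(.s k123 k72 4 (.s k93 k81 1 (.s k115 k119 1
  (.d k76 k110 k102 4 6)))), (.s k81 k93 1 (.s k170 k255 14 (.s k8 k251 12 (.s k12 k4 1 (.d k243
  k162 k166 12 14))))), (.s k72 k123 4 (.s k170 k255 14 (.s k8 k251 12 (.s k42 k234 7 (.s k59 k25 4
  (.d k200 k136 k153 7 12))))))] (.c k61 (.q k62 [(.s k42 k2 5 (.d k170 k234 k255 7 14)), (.s k93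
  k81 1 (.s k76 k110 4 (.s k115 k102 6 (.d k123 k119 k72 1 4))))] (.c k1 (.q k21 [(.s k42 k2 5 (.d
  k170 k234 k255 7 14)), (.s k93 k81 1 (.s k76 k110 4 (.s k115 k102 6 (.d k123 k119 k72 1 4))))] .n)
  (.c k21 (.q k1 [(.d k169 k232 k253 8 13), (.s k42 k2 5 (.d k170 k234 k255 7 14))] .n) .n))) (.c
  k62 (.q k61 [(.s k123 k72 4 (.s k93 k81 1 (.s k115 k119 1 (.d k76 k110 k102 4 6)))), (.s k81 k93 1
  (.s k170 k255 14 (.s k8 k251 12 (.s k12 k4 1 (.d k243 k162 k166 12 14))))), (.s k72 k123 4 (.s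
  k170 k255 14 (.s k8 k251 12 (.s k42 k234 7 (.s k59 k25 4 (.d k200 k136 k153 7 12))))))] .n) .n)))
  (.c k61 (.q k62 [(.s k123 k72 4 (.s k93 k81 1 (.s k115 k119 1 (.d k76 k110 k102 4 6)))), (.s k81
  k93 1 (.s k170 k255 14 (.s k8 k251 12 (.s k12 k4 1 (.d k243 k162 k166 12 14))))), (.s k72 k123 4
  (.s k170 k255 14 (.s k8 k251 12 (.s k42 k234 7 (.s k59 k25 4 (.d k200 k136 k153 7 12))))))] (.c
  k22 (.q k41 [(.s k42 k40 0 (.d k170 k234 k255 7 14)), (.s k93 k81 1 (.s k76 k110 4 (.s k115 k102 6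
  (.d k123 k119 k72 1 4))))] (.c k20 (.q k21 [(.s k42 k40 0 (.d k170 k234 k255 7 14)), (.s k93 k81 1
  (.s k76 k110 4 (.s k115 k102 6 (.d k123 k119 k72 1 4))))] .n) (.c k21 (.q k20 [(.d k150 k215 k194
  8 13), (.s k42 k40 0 (.d k170 k234 k255 7 14))] .n) .n))) (.c k41 (.q k22 [(.s k42 k2 5 (.d k170
  k234 k255 7 14)), (.s k93 k81 1 (.s k76 k110 4 (.s k115 k102 6 (.d k123 k119 k72 1 4))))] (.c k1
  (.q k21 [(.s k42 k2 5 (.d k170 k234 k255 7 14)), (.s k93 k81 1 (.s k76 k110 4 (.s k115 k102 6 (.d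
  k123 k119 k72 1 4))))] .n) (.c k21 (.q k1 [(.d k169 k232 k253 8 13), (.s k42 k2 5 (.d k170 k234
  k255 7 14))] .n) .n))) .n))) (.c k62 (.q k61 [(.s k123 k72 4 (.s k93 k81 1 (.s k115 k119 1 (.d k76
  k110 k102 4 6)))), (.s k169 k232 8 (.s k1 k253 13 (.s k41 k21 5 (.s k42 k40 0 (.d k170 k234 k255 7
  14)))))] (.c k22 (.q k41 [(.s k42 k40 0 (.d k170 k234 k255 7 14)), (.s k169 k232 8 (.d k1 k21 k253
  5 13))] (.c k2 (.l (.s k42 k40 0 (.d k170 k234 k255 7 14))) (.c k20 (.l (.s k21 k1 5 (.s k42 k40 0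
  (.d k170 k234 k255 7 14)))) (.c k21 (.q k20 [(.s k42 k40 0 (.d k170 k234 k255 7 14)), (.s k93 k81
  1 (.s k76 k110 4 (.s k115 k102 6 (.d k123 k119 k72 1 4))))] (.c k2 (.l (.s k42 k40 0 (.d k170 k234
  k255 7 14))) (.c k42 (.q k2 [(.s k123 k72 4 (.s k93 k81 1 (.s k115 k119 1 (.d k76 k110 k102 4
  6)))), (.s k169 k232 8 (.s k105 k233 7 (.s k125 k65 5 (.d k253 k189 k1 7 13))))] .n) .n))) (.c k42
  (.q k2 [(.s k169 k232 8 (.d k1 k21 k253 5 13)), (.s k93 k81 1 (.s k76 k110 4 (.s k115 k102 6 (.d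
  k123 k119 k72 1 4))))] (.c k20 (.l (.s k21 k1 5 (.s k149 k213 7 (.s k105 k193 13 (.d k169 k233
  k232 7 8))))) (.c k21 (.q k20 [(.s k123 k72 4 (.s k93 k81 1 (.s k115 k119 1 (.d k76 k110 k102 4
  6)))), (.s k169 k232 8 (.s k105 k233 7 (.s k125 k65 5 (.d k253 k189 k1 7 13))))] .n) .n))) .n)))))
  (.c k41 (.q k22 [(.s k123 k72 4 (.s k93 k81 1 (.s k115 k119 1 (.d k76 k110 k102 4 6)))), (.s k81
  k93 1 (.s k170 k255 14 (.s k8 k251 12 (.s k12 k4 1 (.d k243 k162 k166 12 14))))), (.s k72 k123 4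
  (.s k170 k255 14 (.s k8 k251 12 (.s k42 k234 7 (.s k59 k25 4 (.d k200 k136 k153 7 12))))))] .n)
  .n))) .n))))) (.c k41 (.q k22 [(.s k123 k72 4 (.s k93 k81 1 (.s k115 k119 1 (.d k76 k110 k102 4
  6)))), (.s k81 k93 1 (.s k170 k255 14 (.s k8 k251 12 (.s k12 k4 1 (.d k243 k162 k166 12 14))))),
  (.s k72 k123 4 (.s k170 k255 14 (.s k8 k251 12 (.s k42 k234 7 (.s k59 k25 4 (.d k200 k136 k153 7
  12))))))] (.c k23 (.q k43 [(.s k123 k72 4 (.s k93 k81 1 (.s k115 k119 1 (.d k76 k110 k102 4 6)))),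
  (.s k81 k93 1 (.s k170 k255 14 (.s k8 k251 12 (.s k12 k4 1 (.d k243 k162 k166 12 14))))), (.s k72
  k123 4 (.s k170 k255 14 (.s k8 k251 12 (.s k42 k234 7 (.s k59 k25 4 (.d k200 k136 k153 7 12))))))]
  (.c k61 (.q k62 [(.s k42 k2 5 (.d k170 k234 k255 7 14)), (.s k93 k81 1 (.s k76 k110 4 (.s k115
  k102 6 (.d k123 k119 k72 1 4))))] (.c k1 (.q k21 [(.s k42 k2 5 (.d k170 k234 k255 7 14)), (.s k93
  k81 1 (.s k76 k110 4 (.s k115 k102 6 (.d k123 k119 k72 1 4))))] .n) (.c k21 (.q k1 [(.d k169 k232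
  k253 8 13), (.s k42 k2 5 (.d k170 k234 k255 7 14))] .n) .n))) (.c k62 (.q k61 [(.s k123 k72 4 (.s
  k93 k81 1 (.s k115 k119 1 (.d k76 k110 k102 4 6)))), (.s k81 k93 1 (.s k170 k255 14 (.s k8 k251 12
  (.s k12 k4 1 (.d k243 k162 k166 12 14))))), (.s k72 k123 4 (.s k170 k255 14 (.s k8 k251 12 (.s k42
  k234 7 (.s k59 k25 4 (.d k200 k136 k153 7 12))))))] .n) .n))) (.c k43 (.q k23 [(.s k123 k72 4 (.s
  k93 k81 1 (.s k115 k119 1 (.d k76 k110 k102 4 6)))), (.s k20 k21 0 (.s k150 k215 8 (.s k62 k194 13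
  (.s k42 k2 5 (.d k170 k234 k255 7 14)))))] (.c k40 (.q k42 [(.d k170 k234 k255 7 14), (.s k20 k21
  0 (.s k62 k2 5 (.d k150 k215 k194 8 13)))] (.c k61 (.l (.s k62 k2 5 (.d k170 k234 k255 7 14))) (.c
  k62 (.q k61 [(.d k170 k234 k255 7 14), (.s k93 k81 1 (.s k76 k110 4 (.s k115 k102 6 (.d k123 k119
  k72 1 4))))] .n) .n))) (.c k42 (.q k40 [(.s k123 k72 4 (.s k93 k81 1 (.s k115 k119 1 (.d k76 k110
  k102 4 6)))), (.s k20 k21 0 (.s k150 k215 8 (.s k86 k214 7 (.s k84 k87 0 (.d k212 k148 k149 7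
  8)))))] (.c k61 (.q k62 [(.s k150 k194 13 (.d k20 k21 k215 0 8)), (.s k93 k81 1 (.s k76 k110 4 (.s
  k115 k102 6 (.d k123 k119 k72 1 4))))] (.c k1 (.l (.s k21 k20 0 (.s k149 k213 7 (.s k86 k212 8 (.d
  k150 k214 k194 7 13))))) (.c k21 (.q k1 [(.s k123 k72 4 (.s k93 k81 1 (.s k115 k119 1 (.d k76 k110
  k102 4 6)))), (.s k150 k194 13 (.s k86 k214 7 (.s k87 k84 0 (.d k215 k151 k20 7 8))))] .n) .n)))
  (.c k62 (.q k61 [(.s k21 k20 0 (.s k149 k213 7 (.s k105 k193 13 (.d k170 k235 k255 8 14)))), (.s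
  k93 k81 1 (.s k76 k110 4 (.s k115 k102 6 (.d k123 k119 k72 1 4))))] .n) .n))) (.c k61 (.q k62 [(.s
  k42 k2 5 (.d k170 k234 k255 7 14)), (.s k150 k194 13 (.d k20 k21 k215 0 8))] (.c k1 (.l (.s k21
  k20 0 (.s k42 k2 5 (.d k170 k234 k255 7 14)))) (.c k21 (.q k1 [(.s k42 k2 5 (.d k170 k234 k255 7
  14)), (.s k93 k81 1 (.s k76 k110 4 (.s k115 k102 6 (.d k123 k119 k72 1 4))))] (.c k40 (.l (.s k42
  k2 5 (.d k170 k234 k255 7 14))) (.c k42 (.q k40 [(.s k123 k72 4 (.s k93 k81 1 (.s k115 k119 1 (.d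
  k76 k110 k102 4 6)))), (.s k150 k194 13 (.s k86 k214 7 (.s k87 k84 0 (.d k215 k151 k20 7 8))))]
  .n) .n))) (.c k40 (.l (.s k42 k2 5 (.d k170 k234 k255 7 14))) (.c k42 (.q k40 [(.s k150 k194 13
  (.d k20 k21 k215 0 8)), (.s k93 k81 1 (.s k76 k110 4 (.s k115 k102 6 (.d k123 k119 k72 1 4))))]
  (.c k1 (.l (.s k21 k20 0 (.s k149 k213 7 (.s k86 k212 8 (.d k150 k214 k194 7 13))))) (.c k21 (.q
  k1 [(.s k123 k72 4 (.s k93 k81 1 (.s k115 k119 1 (.d k76 k110 k102 4 6)))), (.s k150 k194 13 (.s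
  k86 k214 7 (.s k87 k84 0 (.d k215 k151 k20 7 8))))] .n) .n))) .n))))) (.c k62 (.q k61 [(.s k123
  k72 4 (.s k93 k81 1 (.s k115 k119 1 (.d k76 k110 k102 4 6)))), (.s k20 k21 0 (.s k150 k215 8 (.s
  k86 k214 7 (.s k84 k87 0 (.d k212 k148 k149 7 8)))))] (.c k40 (.q k42 [(.d k170 k234 k255 7 14),
  (.s k93 k81 1 (.s k76 k110 4 (.s k115 k102 6 (.d k123 k119 k72 1 4))))] .n) (.c k42 (.q k40 [(.s
  k21 k20 0 (.s k149 k213 7 (.s k105 k193 13 (.d k170 k235 k255 8 14)))), (.s k93 k81 1 (.s k76 k110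
  4 (.s k115 k102 6 (.d k123 k119 k72 1 4))))] .n) .n))) .n))))) (.c k61 (.q k62 [(.s k42 k2 5 (.d
  k170 k234 k255 7 14)), (.s k93 k81 1 (.s k76 k110 4 (.s k115 k102 6 (.d k123 k119 k72 1 4))))] (.c
  k1 (.q k21 [(.s k150 k194 13 (.d k20 k23 k215 0 8)), (.s k42 k2 5 (.d k170 k234 k255 7 14))] (.c
  k23 (.q k43 [(.s k42 k2 5 (.d k170 k234 k255 7 14)), (.s k93 k81 1 (.s k76 k110 4 (.s k115 k102 6
  (.d k123 k119 k72 1 4))))] .n) (.c k43 (.l (.s k23 k20 0 (.s k42 k2 5 (.d k170 k234 k255 7 14))))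
  .n))) (.c k21 (.q k1 [(.s k42 k2 5 (.d k170 k234 k255 7 14)), (.s k93 k81 1 (.s k76 k110 4 (.s
  k115 k102 6 (.d k123 k119 k72 1 4))))] (.c k23 (.q k43 [(.d k169 k232 k253 8 13), (.s k42 k2 5 (.d
  k170 k234 k255 7 14))] .n) (.c k43 (.q k23 [(.s k42 k2 5 (.d k170 k234 k255 7 14)), (.s k93 k81 1
  (.s k76 k110 4 (.s k115 k102 6 (.d k123 k119 k72 1 4))))] (.c k40 (.l (.s k42 k2 5 (.d k170 k234
  k255 7 14))) (.c k42 (.q k40 [(.s k123 k72 4 (.s k93 k81 1 (.s k115 k119 1 (.d k76 k110 k102 4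
  6)))), (.s k150 k194 13 (.s k86 k214 7 (.s k87 k84 0 (.d k215 k151 k20 7 8))))] .n) .n))) .n)))
  (.c k23 (.q k43 [(.s k42 k2 5 (.d k170 k234 k255 7 14)), (.s k93 k81 1 (.s k76 k110 4 (.s k115
  k102 6 (.d k123 k119 k72 1 4))))] (.c k1 (.q k21 [(.s k42 k2 5 (.d k170 k234 k255 7 14)), (.s k93
  k81 1 (.s k76 k110 4 (.s k115 k102 6 (.d k123 k119 k72 1 4))))] .n) (.c k21 (.q k1 [(.d k169 k232
  k253 8 13), (.s k42 k2 5 (.d k170 k234 k255 7 14))] .n) .n))) (.c k43 (.q k23 [(.s k42 k2 5 (.d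
  k170 k234 k255 7 14)), (.s k150 k194 13 (.d k20 k21 k215 0 8))] (.c k1 (.l (.s k21 k20 0 (.s k42
  k2 5 (.d k170 k234 k255 7 14)))) (.c k21 (.q k1 [(.s k42 k2 5 (.d k170 k234 k255 7 14)), (.s k93
  k81 1 (.s k76 k110 4 (.s k115 k102 6 (.d k123 k119 k72 1 4))))] (.c k40 (.l (.s k42 k2 5 (.d k170
  k234 k255 7 14))) (.c k42 (.q k40 [(.s k123 k72 4 (.s k93 k81 1 (.s k115 k119 1 (.d k76 k110 k102
  4 6)))), (.s k150 k194 13 (.s k86 k214 7 (.s k87 k84 0 (.d k215 k151 k20 7 8))))] .n) .n))) (.c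
  k40 (.l (.s k42 k2 5 (.d k170 k234 k255 7 14))) (.c k42 (.q k40 [(.s k150 k194 13 (.d k20 k21 k215
  0 8)), (.s k93 k81 1 (.s k76 k110 4 (.s k115 k102 6 (.d k123 k119 k72 1 4))))] (.c k1 (.l (.s k21
  k20 0 (.s k149 k213 7 (.s k86 k212 8 (.d k150 k214 k194 7 13))))) (.c k21 (.q k1 [(.s k123 k72 4
  (.s k93 k81 1 (.s k115 k119 1 (.d k76 k110 k102 4 6)))), (.s k150 k194 13 (.s k86 k214 7 (.s k87
  k84 0 (.d k215 k151 k20 7 8))))] .n) .n))) .n))))) .n))))) (.c k62 (.q k61 [(.s k123 k72 4 (.s k93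
  k81 1 (.s k115 k119 1 (.d k76 k110 k102 4 6)))), (.s k81 k93 1 (.s k170 k255 14 (.s k8 k251 12 (.s
  k12 k4 1 (.d k243 k162 k166 12 14))))), (.s k72 k123 4 (.s k170 k255 14 (.s k8 k251 12 (.s k42
  k234 7 (.s k59 k25 4 (.d k200 k136 k153 7 12))))))] (.c k23 (.q k43 [(.s k123 k72 4 (.s k93 k81 1
  (.s k115 k119 1 (.d k76 k110 k102 4 6)))), (.s k81 k93 1 (.s k170 k255 14 (.s k8 k251 12 (.s k12
  k4 1 (.d k243 k162 k166 12 14))))), (.s k72 k123 4 (.s k170 k255 14 (.s k8 k251 12 (.s k42 k234 7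
  (.s k59 k25 4 (.d k200 k136 k153 7 12))))))] .n) (.c k43 (.q k23 [(.s k123 k72 4 (.s k93 k81 1 (.s
  k115 k119 1 (.d k76 k110 k102 4 6)))), (.s k20 k21 0 (.s k150 k215 8 (.s k86 k214 7 (.s k84 k87 0
  (.d k212 k148 k149 7 8)))))] (.c k40 (.q k42 [(.d k170 k234 k255 7 14), (.s k93 k81 1 (.s k76 k110
  4 (.s k115 k102 6 (.d k123 k119 k72 1 4))))] .n) (.c k42 (.q k40 [(.s k21 k20 0 (.s k149 k213 7
  (.s k105 k193 13 (.d k170 k235 k255 8 14)))), (.s k93 k81 1 (.s k76 k110 4 (.s k115 k102 6 (.d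
  k123 k119 k72 1 4))))] .n) .n))) .n))) .n))))) (.c k43 (.q k23 [(.s k123 k72 4 (.s k93 k81 1 (.s
  k115 k119 1 (.d k76 k110 k102 4 6)))), (.s k81 k93 1 (.s k170 k255 14 (.s k8 k251 12 (.s k12 k4 1
  (.d k243 k162 k166 12 14))))), (.s k72 k123 4 (.s k170 k255 14 (.s k8 k251 12 (.s k42 k234 7 (.s
  k59 k25 4 (.d k200 k136 k153 7 12))))))] (.c k22 (.q k41 [(.s k123 k72 4 (.s k93 k81 1 (.s k115
  k119 1 (.d k76 k110 k102 4 6)))), (.s k81 k93 1 (.s k170 k255 14 (.s k8 k251 12 (.s k12 k4 1 (.d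
  k243 k162 k166 12 14))))), (.s k72 k123 4 (.s k170 k255 14 (.s k8 k251 12 (.s k42 k234 7 (.s k59
  k25 4 (.d k200 k136 k153 7 12))))))] (.c k61 (.q k62 [(.s k123 k72 4 (.s k93 k81 1 (.s k115 k119 1
  (.d k76 k110 k102 4 6)))), (.s k81 k93 1 (.s k170 k255 14 (.s k8 k251 12 (.s k12 k4 1 (.d k243
  k162 k166 12 14))))), (.s k72 k123 4 (.s k170 k255 14 (.s k8 k251 12 (.s k42 k234 7 (.s k59 k25 4
  (.d k200 k136 k153 7 12))))))] .n) (.c k62 (.q k61 [(.s k123 k72 4 (.s k93 k81 1 (.s k115 k119 1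
  (.d k76 k110 k102 4 6)))), (.s k1 k21 5 (.s k169 k253 13 (.s k105 k233 7 (.s k65 k125 5 (.d k193
  k129 k149 7 13)))))] (.c k2 (.q k42 [(.d k170 k234 k255 7 14), (.s k93 k81 1 (.s k76 k110 4 (.s
  k115 k102 6 (.d k123 k119 k72 1 4))))] .n) (.c k42 (.q k2 [(.s k21 k1 5 (.s k149 k213 7 (.s k86
  k212 8 (.d k170 k254 k255 13 14)))), (.s k93 k81 1 (.s k76 k110 4 (.s k115 k102 6 (.d k123 k119
  k72 1 4))))] .n) .n))) .n))) (.c k41 (.q k22 [(.s k123 k72 4 (.s k93 k81 1 (.s k115 k119 1 (.d k76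
  k110 k102 4 6)))), (.s k20 k21 0 (.s k150 k215 8 (.s k62 k194 13 (.s k42 k2 5 (.d k170 k234 k255 7
  14)))))] (.c k40 (.q k42 [(.d k170 k234 k255 7 14), (.s k20 k21 0 (.s k62 k2 5 (.d k150 k215 k194
  8 13)))] (.c k61 (.l (.s k62 k2 5 (.d k170 k234 k255 7 14))) (.c k62 (.q k61 [(.d k170 k234 k255 7
  14), (.s k93 k81 1 (.s k76 k110 4 (.s k115 k102 6 (.d k123 k119 k72 1 4))))] .n) .n))) (.c k42 (.q
  k40 [(.s k123 k72 4 (.s k93 k81 1 (.s k115 k119 1 (.d k76 k110 k102 4 6)))), (.s k20 k21 0 (.s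
  k150 k215 8 (.s k86 k214 7 (.s k84 k87 0 (.d k212 k148 k149 7 8)))))] (.c k61 (.q k62 [(.s k150
  k194 13 (.d k20 k21 k215 0 8)), (.s k93 k81 1 (.s k76 k110 4 (.s k115 k102 6 (.d k123 k119 k72 1
  4))))] (.c k1 (.l (.s k21 k20 0 (.s k149 k213 7 (.s k86 k212 8 (.d k150 k214 k194 7 13))))) (.c
  k21 (.q k1 [(.s k123 k72 4 (.s k93 k81 1 (.s k115 k119 1 (.d k76 k110 k102 4 6)))), (.s k150 k194
  13 (.s k86 k214 7 (.s k87 k84 0 (.d k215 k151 k20 7 8))))] .n) .n))) (.c k62 (.q k61 [(.s k21 k20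
  0 (.s k149 k213 7 (.s k105 k193 13 (.d k170 k235 k255 8 14)))), (.s k93 k81 1 (.s k76 k110 4 (.s
  k115 k102 6 (.d k123 k119 k72 1 4))))] .n) .n))) (.c k61 (.q k62 [(.s k42 k2 5 (.d k170 k234 k255
  7 14)), (.s k150 k194 13 (.d k20 k21 k215 0 8))] (.c k1 (.l (.s k21 k20 0 (.s k42 k2 5 (.d k170
  k234 k255 7 14)))) (.c k21 (.q k1 [(.s k42 k2 5 (.d k170 k234 k255 7 14)), (.s k93 k81 1 (.s k76
  k110 4 (.s k115 k102 6 (.d k123 k119 k72 1 4))))] (.c k40 (.l (.s k42 k2 5 (.d k170 k234 k255 7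
  14))) (.c k42 (.q k40 [(.s k123 k72 4 (.s k93 k81 1 (.s k115 k119 1 (.d k76 k110 k102 4 6)))), (.s
  k150 k194 13 (.s k86 k214 7 (.s k87 k84 0 (.d k215 k151 k20 7 8))))] .n) .n))) (.c k40 (.l (.s k42
  k2 5 (.d k170 k234 k255 7 14))) (.c k42 (.q k40 [(.s k150 k194 13 (.d k20 k21 k215 0 8)), (.s k93
  k81 1 (.s k76 k110 4 (.s k115 k102 6 (.d k123 k119 k72 1 4))))] (.c k1 (.l (.s k21 k20 0 (.s k149
  k213 7 (.s k86 k212 8 (.d k150 k214 k194 7 13))))) (.c k21 (.q k1 [(.s k123 k72 4 (.s k93 k81 1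
  (.s k115 k119 1 (.d k76 k110 k102 4 6)))), (.s k150 k194 13 (.s k86 k214 7 (.s k87 k84 0 (.d k215
  k151 k20 7 8))))] .n) .n))) .n))))) (.c k62 (.q k61 [(.s k123 k72 4 (.s k93 k81 1 (.s k115 k119 1
  (.d k76 k110 k102 4 6)))), (.s k20 k21 0 (.s k150 k215 8 (.s k86 k214 7 (.s k84 k87 0 (.d k212
  k148 k149 7 8)))))] (.c k40 (.q k42 [(.d k170 k234 k255 7 14), (.s k93 k81 1 (.s k76 k110 4 (.s
  k115 k102 6 (.d k123 k119 k72 1 4))))] .n) (.c k42 (.q k40 [(.s k21 k20 0 (.s k149 k213 7 (.s k105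
  k193 13 (.d k170 k235 k255 8 14)))), (.s k93 k81 1 (.s k76 k110 4 (.s k115 k102 6 (.d k123 k119
  k72 1 4))))] .n) .n))) .n))))) (.c k61 (.q k62 [(.s k123 k72 4 (.s k93 k81 1 (.s k115 k119 1 (.d
  k76 k110 k102 4 6)))), (.s k150 k194 13 (.s k20 k215 8 (.s k22 k21 0 (.s k42 k2 5 (.d k170 k234
  k255 7 14)))))] (.c k22 (.q k41 [(.s k123 k72 4 (.s k93 k81 1 (.s k115 k119 1 (.d k76 k110 k102 4
  6)))), (.s k81 k93 1 (.s k170 k255 14 (.s k8 k251 12 (.s k12 k4 1 (.d k243 k162 k166 12 14))))),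
  (.s k72 k123 4 (.s k170 k255 14 (.s k8 k251 12 (.s k42 k234 7 (.s k59 k25 4 (.d k200 k136 k153 7
  12))))))] .n) (.c k41 (.q k22 [(.s k42 k2 5 (.d k170 k234 k255 7 14)), (.s k150 k194 13 (.d k20
  k21 k215 0 8))] (.c k1 (.l (.s k21 k20 0 (.s k42 k2 5 (.d k170 k234 k255 7 14)))) (.c k21 (.q k1
  [(.s k42 k2 5 (.d k170 k234 k255 7 14)), (.s k93 k81 1 (.s k76 k110 4 (.s k115 k102 6 (.d k123
  k119 k72 1 4))))] (.c k40 (.l (.s k42 k2 5 (.d k170 k234 k255 7 14))) (.c k42 (.q k40 [(.s k123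
  k72 4 (.s k93 k81 1 (.s k115 k119 1 (.d k76 k110 k102 4 6)))), (.s k150 k194 13 (.s k86 k214 7 (.s
  k87 k84 0 (.d k215 k151 k20 7 8))))] .n) .n))) (.c k40 (.l (.s k42 k2 5 (.d k170 k234 k255 7 14)))
  (.c k42 (.q k40 [(.s k150 k194 13 (.d k20 k21 k215 0 8)), (.s k93 k81 1 (.s k76 k110 4 (.s k115
  k102 6 (.d k123 k119 k72 1 4))))] (.c k1 (.l (.s k21 k20 0 (.s k149 k213 7 (.s k86 k212 8 (.d k150
  k214 k194 7 13))))) (.c k21 (.q k1 [(.s k123 k72 4 (.s k93 k81 1 (.s k115 k119 1 (.d k76 k110 k102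
  4 6)))), (.s k150 k194 13 (.s k86 k214 7 (.s k87 k84 0 (.d k215 k151 k20 7 8))))] .n) .n)))
  .n))))) .n))) (.c k62 (.q k61 [(.s k123 k72 4 (.s k93 k81 1 (.s k115 k119 1 (.d k76 k110 k102 4
  6)))), (.s k81 k93 1 (.s k170 k255 14 (.s k8 k251 12 (.s k12 k4 1 (.d k243 k162 k166 12 14))))),
  (.s k72 k123 4 (.s k170 k255 14 (.s k8 k251 12 (.s k42 k234 7 (.s k59 k25 4 (.d k200 k136 k153 7
  12))))))] (.c k22 (.q k41 [(.s k123 k72 4 (.s k93 k81 1 (.s k115 k119 1 (.d k76 k110 k102 4 6)))),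
  (.s k1 k21 5 (.s k169 k253 13 (.s k105 k233 7 (.s k65 k125 5 (.d k193 k129 k149 7 13)))))] (.c k2
  (.q k42 [(.d k170 k234 k255 7 14), (.s k93 k81 1 (.s k76 k110 4 (.s k115 k102 6 (.d k123 k119 k72
  1 4))))] .n) (.c k42 (.q k2 [(.s k21 k1 5 (.s k149 k213 7 (.s k86 k212 8 (.d k170 k254 k255 13
  14)))), (.s k93 k81 1 (.s k76 k110 4 (.s k115 k102 6 (.d k123 k119 k72 1 4))))] .n) .n))) (.c k41
  (.q k22 [(.s k123 k72 4 (.s k93 k81 1 (.s k115 k119 1 (.d k76 k110 k102 4 6)))), (.s k20 k21 0 (.s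
  k150 k215 8 (.s k86 k214 7 (.s k84 k87 0 (.d k212 k148 k149 7 8)))))] (.c k40 (.q k42 [(.d k170
  k234 k255 7 14), (.s k93 k81 1 (.s k76 k110 4 (.s k115 k102 6 (.d k123 k119 k72 1 4))))] .n) (.c
  k42 (.q k40 [(.s k21 k20 0 (.s k149 k213 7 (.s k105 k193 13 (.d k170 k235 k255 8 14)))), (.s k93
  k81 1 (.s k76 k110 4 (.s k115 k102 6 (.d k123 k119 k72 1 4))))] .n) .n))) .n))) .n))))) (.c k61
  (.q k62 [(.s k123 k72 4 (.s k93 k81 1 (.s k115 k119 1 (.d k76 k110 k102 4 6)))), (.s k81 k93 1 (.s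
  k170 k255 14 (.s k8 k251 12 (.s k12 k4 1 (.d k243 k162 k166 12 14))))), (.s k72 k123 4 (.s k170
  k255 14 (.s k8 k251 12 (.s k42 k234 7 (.s k59 k25 4 (.d k200 k136 k153 7 12))))))] (.c k22 (.q k41
  [(.s k123 k72 4 (.s k93 k81 1 (.s k115 k119 1 (.d k76 k110 k102 4 6)))), (.s k81 k93 1 (.s k170
  k255 14 (.s k8 k251 12 (.s k12 k4 1 (.d k243 k162 k166 12 14))))), (.s k72 k123 4 (.s k170 k255 14
  (.s k8 k251 12 (.s k42 k234 7 (.s k59 k25 4 (.d k200 k136 k153 7 12))))))] (.c k23 (.q k43 [(.s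
  k42 k40 0 (.d k170 k234 k255 7 14)), (.s k93 k81 1 (.s k76 k110 4 (.s k115 k102 6 (.d k123 k119
  k72 1 4))))] (.c k20 (.q k21 [(.s k42 k40 0 (.d k170 k234 k255 7 14)), (.s k93 k81 1 (.s k76 k110
  4 (.s k115 k102 6 (.d k123 k119 k72 1 4))))] .n) (.c k21 (.q k20 [(.d k150 k215 k194 8 13), (.s
  k42 k40 0 (.d k170 k234 k255 7 14))] .n) .n))) (.c k43 (.q k23 [(.s k123 k72 4 (.s k93 k81 1 (.s
  k115 k119 1 (.d k76 k110 k102 4 6)))), (.s k81 k93 1 (.s k170 k255 14 (.s k8 k251 12 (.s k12 k4 1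
  (.d k243 k162 k166 12 14))))), (.s k72 k123 4 (.s k170 k255 14 (.s k8 k251 12 (.s k42 k234 7 (.s
  k59 k25 4 (.d k200 k136 k153 7 12))))))] .n) .n))) (.c k23 (.q k43 [(.s k123 k72 4 (.s k93 k81 1
  (.s k115 k119 1 (.d k76 k110 k102 4 6)))), (.s k81 k93 1 (.s k170 k255 14 (.s k8 k251 12 (.s k12
  k4 1 (.d k243 k162 k166 12 14))))), (.s k72 k123 4 (.s k170 k255 14 (.s k8 k251 12 (.s k42 k234 7
  (.s k59 k25 4 (.d k200 k136 k153 7 12))))))] (.c k22 (.q k41 [(.s k42 k40 0 (.d k170 k234 k255 7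
  14)), (.s k93 k81 1 (.s k76 k110 4 (.s k115 k102 6 (.d k123 k119 k72 1 4))))] (.c k20 (.q k21 [(.s
  k42 k40 0 (.d k170 k234 k255 7 14)), (.s k93 k81 1 (.s k76 k110 4 (.s k115 k102 6 (.d k123 k119
  k72 1 4))))] .n) (.c k21 (.q k20 [(.d k150 k215 k194 8 13), (.s k42 k40 0 (.d k170 k234 k255 7
  14))] .n) .n))) (.c k41 (.q k22 [(.s k42 k2 5 (.d k170 k234 k255 7 14)), (.s k93 k81 1 (.s k76
  k110 4 (.s k115 k102 6 (.d k123 k119 k72 1 4))))] (.c k1 (.q k21 [(.s k42 k2 5 (.d k170 k234 k255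
  7 14)), (.s k93 k81 1 (.s k76 k110 4 (.s k115 k102 6 (.d k123 k119 k72 1 4))))] .n) (.c k21 (.q k1
  [(.d k169 k232 k253 8 13), (.s k42 k2 5 (.d k170 k234 k255 7 14))] .n) .n))) .n))) (.c k41 (.q k22
  [(.s k42 k2 5 (.d k170 k234 k255 7 14)), (.s k93 k81 1 (.s k76 k110 4 (.s k115 k102 6 (.d k123
  k119 k72 1 4))))] (.c k1 (.q k21 [(.s k150 k194 13 (.d k20 k23 k215 0 8)), (.s k42 k2 5 (.d k170
  k234 k255 7 14))] (.c k23 (.q k43 [(.s k42 k2 5 (.d k170 k234 k255 7 14)), (.s k93 k81 1 (.s k76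
  k110 4 (.s k115 k102 6 (.d k123 k119 k72 1 4))))] .n) (.c k43 (.l (.s k23 k20 0 (.s k42 k2 5 (.d
  k170 k234 k255 7 14)))) .n))) (.c k21 (.q k1 [(.s k42 k2 5 (.d k170 k234 k255 7 14)), (.s k93 k81
  1 (.s k76 k110 4 (.s k115 k102 6 (.d k123 k119 k72 1 4))))] (.c k23 (.q k43 [(.d k169 k232 k253 8
  13), (.s k42 k2 5 (.d k170 k234 k255 7 14))] .n) (.c k43 (.q k23 [(.s k42 k2 5 (.d k170 k234 k255
  7 14)), (.s k93 k81 1 (.s k76 k110 4 (.s k115 k102 6 (.d k123 k119 k72 1 4))))] (.c k40 (.l (.s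
  k42 k2 5 (.d k170 k234 k255 7 14))) (.c k42 (.q k40 [(.s k123 k72 4 (.s k93 k81 1 (.s k115 k119 1
  (.d k76 k110 k102 4 6)))), (.s k150 k194 13 (.s k86 k214 7 (.s k87 k84 0 (.d k215 k151 k20 7
  8))))] .n) .n))) .n))) (.c k23 (.q k43 [(.s k42 k2 5 (.d k170 k234 k255 7 14)), (.s k93 k81 1 (.s
  k76 k110 4 (.s k115 k102 6 (.d k123 k119 k72 1 4))))] (.c k1 (.q k21 [(.s k42 k2 5 (.d k170 k234
  k255 7 14)), (.s k93 k81 1 (.s k76 k110 4 (.s k115 k102 6 (.d k123 k119 k72 1 4))))] .n) (.c k21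
  (.q k1 [(.d k169 k232 k253 8 13), (.s k42 k2 5 (.d k170 k234 k255 7 14))] .n) .n))) (.c k43 (.q
  k23 [(.s k42 k2 5 (.d k170 k234 k255 7 14)), (.s k150 k194 13 (.d k20 k21 k215 0 8))] (.c k1 (.l
  (.s k21 k20 0 (.s k42 k2 5 (.d k170 k234 k255 7 14)))) (.c k21 (.q k1 [(.s k42 k2 5 (.d k170 k234
  k255 7 14)), (.s k93 k81 1 (.s k76 k110 4 (.s k115 k102 6 (.d k123 k119 k72 1 4))))] (.c k40 (.l
  (.s k42 k2 5 (.d k170 k234 k255 7 14))) (.c k42 (.q k40 [(.s k123 k72 4 (.s k93 k81 1 (.s k115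
  k119 1 (.d k76 k110 k102 4 6)))), (.s k150 k194 13 (.s k86 k214 7 (.s k87 k84 0 (.d k215 k151 k20
  7 8))))] .n) .n))) (.c k40 (.l (.s k42 k2 5 (.d k170 k234 k255 7 14))) (.c k42 (.q k40 [(.s k150
  k194 13 (.d k20 k21 k215 0 8)), (.s k93 k81 1 (.s k76 k110 4 (.s k115 k102 6 (.d k123 k119 k72 1
  4))))] (.c k1 (.l (.s k21 k20 0 (.s k149 k213 7 (.s k86 k212 8 (.d k150 k214 k194 7 13))))) (.c
  k21 (.q k1 [(.s k123 k72 4 (.s k93 k81 1 (.s k115 k119 1 (.d k76 k110 k102 4 6)))), (.s k150 k194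
  13 (.s k86 k214 7 (.s k87 k84 0 (.d k215 k151 k20 7 8))))] .n) .n))) .n))))) .n))))) (.c k43 (.q
  k23 [(.s k123 k72 4 (.s k93 k81 1 (.s k115 k119 1 (.d k76 k110 k102 4 6)))), (.s k150 k194 13 (.s
  k20 k215 8 (.s k22 k21 0 (.s k42 k2 5 (.d k170 k234 k255 7 14)))))] (.c k22 (.q k41 [(.s k123 k72
  4 (.s k93 k81 1 (.s k115 k119 1 (.d k76 k110 k102 4 6)))), (.s k81 k93 1 (.s k170 k255 14 (.s k8
  k251 12 (.s k12 k4 1 (.d k243 k162 k166 12 14))))), (.s k72 k123 4 (.s k170 k255 14 (.s k8 k251 12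
  (.s k42 k234 7 (.s k59 k25 4 (.d k200 k136 k153 7 12))))))] .n) (.c k41 (.q k22 [(.s k42 k2 5 (.d
  k170 k234 k255 7 14)), (.s k150 k194 13 (.d k20 k21 k215 0 8))] (.c k1 (.l (.s k21 k20 0 (.s k42
  k2 5 (.d k170 k234 k255 7 14)))) (.c k21 (.q k1 [(.s k42 k2 5 (.d k170 k234 k255 7 14)), (.s k93
  k81 1 (.s k76 k110 4 (.s k115 k102 6 (.d k123 k119 k72 1 4))))] (.c k40 (.l (.s k42 k2 5 (.d k170
  k234 k255 7 14))) (.c k42 (.q k40 [(.s k123 k72 4 (.s k93 k81 1 (.s k115 k119 1 (.d k76 k110 k102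
  4 6)))), (.s k150 k194 13 (.s k86 k214 7 (.s k87 k84 0 (.d k215 k151 k20 7 8))))] .n) .n))) (.c
  k40 (.l (.s k42 k2 5 (.d k170 k234 k255 7 14))) (.c k42 (.q k40 [(.s k150 k194 13 (.d k20 k21 k215
  0 8)), (.s k93 k81 1 (.s k76 k110 4 (.s k115 k102 6 (.d k123 k119 k72 1 4))))] (.c k1 (.l (.s k21
  k20 0 (.s k149 k213 7 (.s k86 k212 8 (.d k150 k214 k194 7 13))))) (.c k21 (.q k1 [(.s k123 k72 4
  (.s k93 k81 1 (.s k115 k119 1 (.d k76 k110 k102 4 6)))), (.s k150 k194 13 (.s k86 k214 7 (.s k87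
  k84 0 (.d k215 k151 k20 7 8))))] .n) .n))) .n))))) .n))) .n))))) (.c k62 (.q k61 [(.s k123 k72 4
  (.s k93 k81 1 (.s k115 k119 1 (.d k76 k110 k102 4 6)))), (.s k81 k93 1 (.s k170 k255 14 (.s k8
  k251 12 (.s k12 k4 1 (.d k243 k162 k166 12 14))))), (.s k72 k123 4 (.s k170 k255 14 (.s k8 k251 12
  (.s k42 k234 7 (.s k59 k25 4 (.d k200 k136 k153 7 12))))))] (.c k22 (.q k41 [(.s k123 k72 4 (.s
  k93 k81 1 (.s k115 k119 1 (.d k76 k110 k102 4 6)))), (.s k1 k21 5 (.s k169 k253 13 (.s k43 k232 8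
  (.s k42 k40 0 (.d k170 k234 k255 7 14)))))] (.c k2 (.q k42 [(.d k170 k234 k255 7 14), (.s k1 k21 5
  (.s k43 k40 0 (.d k169 k232 k253 8 13)))] (.c k23 (.l (.s k43 k40 0 (.d k170 k234 k255 7 14))) (.c
  k43 (.q k23 [(.d k170 k234 k255 7 14), (.s k93 k81 1 (.s k76 k110 4 (.s k115 k102 6 (.d k123 k119
  k72 1 4))))] .n) .n))) (.c k23 (.q k43 [(.s k42 k40 0 (.d k170 k234 k255 7 14)), (.s k169 k232 8
  (.d k1 k21 k253 5 13))] (.c k2 (.l (.s k42 k40 0 (.d k170 k234 k255 7 14))) (.c k20 (.l (.s k21 k1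
  5 (.s k42 k40 0 (.d k170 k234 k255 7 14)))) (.c k21 (.q k20 [(.s k42 k40 0 (.d k170 k234 k255 7
  14)), (.s k93 k81 1 (.s k76 k110 4 (.s k115 k102 6 (.d k123 k119 k72 1 4))))] (.c k2 (.l (.s k42
  k40 0 (.d k170 k234 k255 7 14))) (.c k42 (.q k2 [(.s k123 k72 4 (.s k93 k81 1 (.s k115 k119 1 (.d
  k76 k110 k102 4 6)))), (.s k169 k232 8 (.s k105 k233 7 (.s k125 k65 5 (.d k253 k189 k1 7 13))))]
  .n) .n))) (.c k42 (.q k2 [(.s k169 k232 8 (.d k1 k21 k253 5 13)), (.s k93 k81 1 (.s k76 k110 4 (.s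
  k115 k102 6 (.d k123 k119 k72 1 4))))] (.c k20 (.l (.s k21 k1 5 (.s k149 k213 7 (.s k105 k193 13
  (.d k169 k233 k232 7 8))))) (.c k21 (.q k20 [(.s k123 k72 4 (.s k93 k81 1 (.s k115 k119 1 (.d k76
  k110 k102 4 6)))), (.s k169 k232 8 (.s k105 k233 7 (.s k125 k65 5 (.d k253 k189 k1 7 13))))] .n)
  .n))) .n))))) (.c k42 (.q k2 [(.s k123 k72 4 (.s k93 k81 1 (.s k115 k119 1 (.d k76 k110 k102 4
  6)))), (.s k1 k21 5 (.s k169 k253 13 (.s k105 k233 7 (.s k65 k125 5 (.d k193 k129 k149 7 13)))))]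
  (.c k23 (.q k43 [(.s k169 k232 8 (.d k1 k21 k253 5 13)), (.s k93 k81 1 (.s k76 k110 4 (.s k115
  k102 6 (.d k123 k119 k72 1 4))))] (.c k20 (.l (.s k21 k1 5 (.s k149 k213 7 (.s k105 k193 13 (.d
  k169 k233 k232 7 8))))) (.c k21 (.q k20 [(.s k123 k72 4 (.s k93 k81 1 (.s k115 k119 1 (.d k76 k110
  k102 4 6)))), (.s k169 k232 8 (.s k105 k233 7 (.s k125 k65 5 (.d k253 k189 k1 7 13))))] .n) .n)))
  (.c k43 (.q k23 [(.s k21 k1 5 (.s k149 k213 7 (.s k86 k212 8 (.d k170 k254 k255 13 14)))), (.s k93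
  k81 1 (.s k76 k110 4 (.s k115 k102 6 (.d k123 k119 k72 1 4))))] .n) .n))) (.c k43 (.q k23 [(.s
  k123 k72 4 (.s k93 k81 1 (.s k115 k119 1 (.d k76 k110 k102 4 6)))), (.s k1 k21 5 (.s k169 k253 13
  (.s k105 k233 7 (.s k65 k125 5 (.d k193 k129 k149 7 13)))))] (.c k2 (.q k42 [(.d k170 k234 k255 7
  14), (.s k93 k81 1 (.s k76 k110 4 (.s k115 k102 6 (.d k123 k119 k72 1 4))))] .n) (.c k42 (.q k2
  [(.s k21 k1 5 (.s k149 k213 7 (.s k86 k212 8 (.d k170 k254 k255 13 14)))), (.s k93 k81 1 (.s k76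
  k110 4 (.s k115 k102 6 (.d k123 k119 k72 1 4))))] .n) .n))) .n))))) (.c k23 (.q k43 [(.s k123 k72
  4 (.s k93 k81 1 (.s k115 k119 1 (.d k76 k110 k102 4 6)))), (.s k169 k232 8 (.s k1 k253 13 (.s k41
  k21 5 (.s k42 k40 0 (.d k170 k234 k255 7 14)))))] (.c k22 (.q k41 [(.s k42 k40 0 (.d k170 k234
  k255 7 14)), (.s k169 k232 8 (.d k1 k21 k253 5 13))] (.c k2 (.l (.s k42 k40 0 (.d k170 k234 k255 7
  14))) (.c k20 (.l (.s k21 k1 5 (.s k42 k40 0 (.d k170 k234 k255 7 14)))) (.c k21 (.q k20 [(.s k42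
  k40 0 (.d k170 k234 k255 7 14)), (.s k93 k81 1 (.s k76 k110 4 (.s k115 k102 6 (.d k123 k119 k72 1
  4))))] (.c k2 (.l (.s k42 k40 0 (.d k170 k234 k255 7 14))) (.c k42 (.q k2 [(.s k123 k72 4 (.s k93
  k81 1 (.s k115 k119 1 (.d k76 k110 k102 4 6)))), (.s k169 k232 8 (.s k105 k233 7 (.s k125 k65 5
  (.d k253 k189 k1 7 13))))] .n) .n))) (.c k42 (.q k2 [(.s k169 k232 8 (.d k1 k21 k253 5 13)), (.s
  k93 k81 1 (.s k76 k110 4 (.s k115 k102 6 (.d k123 k119 k72 1 4))))] (.c k20 (.l (.s k21 k1 5 (.s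
  k149 k213 7 (.s k105 k193 13 (.d k169 k233 k232 7 8))))) (.c k21 (.q k20 [(.s k123 k72 4 (.s k93
  k81 1 (.s k115 k119 1 (.d k76 k110 k102 4 6)))), (.s k169 k232 8 (.s k105 k233 7 (.s k125 k65 5
  (.d k253 k189 k1 7 13))))] .n) .n))) .n))))) (.c k41 (.q k22 [(.s k123 k72 4 (.s k93 k81 1 (.s
  k115 k119 1 (.d k76 k110 k102 4 6)))), (.s k81 k93 1 (.s k170 k255 14 (.s k8 k251 12 (.s k12 k4 1
  (.d k243 k162 k166 12 14))))), (.s k72 k123 4 (.s k170 k255 14 (.s k8 k251 12 (.s k42 k234 7 (.s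
  k59 k25 4 (.d k200 k136 k153 7 12))))))] .n) .n))) (.c k41 (.q k22 [(.s k123 k72 4 (.s k93 k81 1
  (.s k115 k119 1 (.d k76 k110 k102 4 6)))), (.s k81 k93 1 (.s k170 k255 14 (.s k8 k251 12 (.s k12
  k4 1 (.d k243 k162 k166 12 14))))), (.s k72 k123 4 (.s k170 k255 14 (.s k8 k251 12 (.s k42 k234 7
  (.s k59 k25 4 (.d k200 k136 k153 7 12))))))] (.c k23 (.q k43 [(.s k123 k72 4 (.s k93 k81 1 (.s
  k115 k119 1 (.d k76 k110 k102 4 6)))), (.s k81 k93 1 (.s k170 k255 14 (.s k8 k251 12 (.s k12 k4 1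
  (.d k243 k162 k166 12 14))))), (.s k72 k123 4 (.s k170 k255 14 (.s k8 k251 12 (.s k42 k234 7 (.s
  k59 k25 4 (.d k200 k136 k153 7 12))))))] .n) (.c k43 (.q k23 [(.s k123 k72 4 (.s k93 k81 1 (.s
  k115 k119 1 (.d k76 k110 k102 4 6)))), (.s k20 k21 0 (.s k150 k215 8 (.s k86 k214 7 (.s k84 k87 0
  (.d k212 k148 k149 7 8)))))] (.c k40 (.q k42 [(.d k170 k234 k255 7 14), (.s k93 k81 1 (.s k76 k110
  4 (.s k115 k102 6 (.d k123 k119 k72 1 4))))] .n) (.c k42 (.q k40 [(.s k21 k20 0 (.s k149 k213 7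
  (.s k105 k193 13 (.d k170 k235 k255 8 14)))), (.s k93 k81 1 (.s k76 k110 4 (.s k115 k102 6 (.d
  k123 k119 k72 1 4))))] .n) .n))) .n))) (.c k43 (.q k23 [(.s k123 k72 4 (.s k93 k81 1 (.s k115 k119
  1 (.d k76 k110 k102 4 6)))), (.s k81 k93 1 (.s k170 k255 14 (.s k8 k251 12 (.s k12 k4 1 (.d k243
  k162 k166 12 14))))), (.s k72 k123 4 (.s k170 k255 14 (.s k8 k251 12 (.s k42 k234 7 (.s k59 k25 4
  (.d k200 k136 k153 7 12))))))] (.c k22 (.q k41 [(.s k123 k72 4 (.s k93 k81 1 (.s k115 k119 1 (.d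
  k76 k110 k102 4 6)))), (.s k1 k21 5 (.s k169 k253 13 (.s k105 k233 7 (.s k65 k125 5 (.d k193 k129
  k149 7 13)))))] (.c k2 (.q k42 [(.d k170 k234 k255 7 14), (.s k93 k81 1 (.s k76 k110 4 (.s k115
  k102 6 (.d k123 k119 k72 1 4))))] .n) (.c k42 (.q k2 [(.s k21 k1 5 (.s k149 k213 7 (.s k86 k212 8
  (.d k170 k254 k255 13 14)))), (.s k93 k81 1 (.s k76 k110 4 (.s k115 k102 6 (.d k123 k119 k72 1
  4))))] .n) .n))) (.c k41 (.q k22 [(.s k123 k72 4 (.s k93 k81 1 (.s k115 k119 1 (.d k76 k110 k102 4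
  6)))), (.s k20 k21 0 (.s k150 k215 8 (.s k86 k214 7 (.s k84 k87 0 (.d k212 k148 k149 7 8)))))] (.c
  k40 (.q k42 [(.d k170 k234 k255 7 14), (.s k93 k81 1 (.s k76 k110 4 (.s k115 k102 6 (.d k123 k119
  k72 1 4))))] .n) (.c k42 (.q k40 [(.s k21 k20 0 (.s k149 k213 7 (.s k105 k193 13 (.d k170 k235
  k255 8 14)))), (.s k93 k81 1 (.s k76 k110 4 (.s k115 k102 6 (.d k123 k119 k72 1 4))))] .n) .n)))
  .n))) .n))))) .n)))))))) (.c k64 (.q k207 [(.s k69 k138 10 (.s k101 k117 3 (.s k48 k154 14 (.s k32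
  k16 3 (.d k170 k239 k255 10 14))))), (.s k69 k138 10 (.s k101 k117 3 (.s k111 k96 2 (.s k63 k159
  11 (.s k21 k42 6 (.d k149 k213 k192 7 14)))))), (.s k170 k255 14 (.s k42 k234 7 (.s k63 k21 6 (.s
  k111 k159 11 (.s k101 k96 2 (.s k32 k239 10 (.d k48 k16 k154 3 14)))))))] (.c k22 (.q k41 [(.s k69
  k138 10 (.s k101 k117 3 (.s k48 k154 14 (.s k32 k16 3 (.d k170 k239 k255 10 14))))), (.s k170 k255
  14 (.s k42 k234 7 (.s k21 k63 6 (.s k43 k40 0 (.s k169 k232 8 (.d k1 k61 k253 5 13)))))), (.s k69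
  k138 10 (.s k101 k117 3 (.s k111 k96 2 (.s k63 k159 11 (.s k21 k42 6 (.d k149 k213 k192 7
  14))))))] .n) (.c k41 (.q k22 [(.s k69 k138 10 (.s k101 k117 3 (.s k48 k154 14 (.s k32 k16 3 (.d
  k170 k239 k255 10 14))))), (.s k170 k255 14 (.s k42 k234 7 (.s k21 k63 6 (.s k62 k2 5 (.s k150
  k194 13 (.d k20 k23 k215 0 8)))))), (.s k69 k138 10 (.s k101 k117 3 (.s k111 k96 2 (.s k63 k159 11
  (.s k21 k42 6 (.d k149 k213 k192 7 14))))))] .n) (.c k101 (.l (.s k138 k69 10 (.s k170 k255 14 (.s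
  k42 k234 7 (.s k63 k21 6 (.s k154 k186 3 (.s k159 k111 11 (.d k149 k192 k144 14 2)))))))) .n))))
  (.c k127 (.q k47 [(.s k165 k224 10 (.s k5 k245 11 (.s k15 k10 2 (.s k63 k31 3 (.s k21 k42 6 (.d
  k149 k213 k192 7 14)))))), (.s k170 k255 14 (.s k42 k234 7 (.s k32 k37 2 (.s k48 k16 3 (.s k101
  k239 10 (.s k69 k117 3 (.d k207 k138 k154 10 14))))))), (.s k165 k224 10 (.s k5 k245 11 (.s k15
  k10 2 (.s k90 k240 14 (.s k95 k80 2 (.d k255 k175 k170 11 14))))))] (.c k22 (.q k41 [(.s k165 k224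
  10 (.s k5 k245 11 (.s k15 k10 2 (.s k63 k31 3 (.s k21 k42 6 (.d k149 k213 k192 7 14)))))), (.s
  k170 k255 14 (.s k42 k234 7 (.s k43 k40 0 (.s k169 k232 8 (.s k1 k253 13 (.d k21 k63 k61 6
  5)))))), (.s k165 k224 10 (.s k5 k245 11 (.s k15 k10 2 (.s k90 k240 14 (.s k95 k80 2 (.d k255 k175
  k170 11 14))))))] (.c k192 (.l (.s k165 k224 10 (.s k5 k245 11 (.s k15 k10 2 (.s k63 k31 3 (.s k42
  k21 6 (.d k170 k234 k255 7 14))))))) .n)) (.c k41 (.q k22 [(.s k165 k224 10 (.s k5 k245 11 (.s k15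
  k10 2 (.s k63 k31 3 (.s k21 k42 6 (.d k149 k213 k192 7 14)))))), (.s k170 k255 14 (.s k42 k234 7
  (.s k62 k2 5 (.s k150 k194 13 (.s k20 k215 8 (.d k21 k63 k23 6 0)))))), (.s k165 k224 10 (.s k5
  k245 11 (.s k15 k10 2 (.s k90 k240 14 (.s k95 k80 2 (.d k255 k175 k170 11 14))))))] (.c k192 (.l
  (.s k165 k224 10 (.s k5 k245 11 (.s k15 k10 2 (.s k63 k31 3 (.s k42 k21 6 (.d k170 k234 k255 7
  14))))))) .n)) (.c k192 (.l (.s k165 k224 10 (.s k5 k245 11 (.s k15 k10 2 (.s k63 k31 3 (.s k42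
  k21 6 (.d k170 k234 k255 7 14))))))) (.c k224 (.l (.s k170 k255 14 (.s k42 k234 7 (.s k37 k32 2
  (.s k63 k21 6 (.s k15 k31 3 (.s k10 k5 2 (.d k26 k58 k48 3 6)))))))) .n))))) (.c k128 (.l (.s k127
  k64 6 (.s k255 k170 14 (.s k63 k191 7 (.s k149 k192 14 (.d k21 k42 k213 6 7)))))) (.c k149 (.f
  k127 k64 6 (.q k68 [(.s k102 k119 4 (.s k110 k98 1 (.s k204 k136 9 (.s k63 k157 12 (.d k255 k191
  k170 7 14))))), (.s k136 k204 9 (.s k170 k255 14 (.s k153 k187 4 (.s k200 k59 12 (.s k8 k72 7 (.s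
  k234 k42 7 (.d k251 k217 k89 4 12))))))), (.s k102 k119 4 (.s k110 k98 1 (.s k170 k255 14 (.s k234
  k42 7 (.s k238 k34 9 (.s k46 k174 7 (.d k226 k230 k166 1 9))))))), (.s k102 k119 4 (.s k110 k98 1
  (.s k93 k76 4 (.s k204 k136 9 (.s k157 k63 12 (.s k221 k29 7 (.d k153 k17 k51 9 14)))))))] (.c k22
  (.q k41 [(.s k102 k119 4 (.s k110 k98 1 (.s k204 k136 9 (.s k63 k157 12 (.d k255 k191 k170 7
  14))))), (.s k170 k255 14 (.s k42 k234 7 (.s k21 k63 6 (.s k43 k40 0 (.s k169 k232 8 (.d k1 k61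
  k253 5 13)))))), (.s k102 k119 4 (.s k110 k98 1 (.s k93 k76 4 (.s k204 k136 9 (.s k157 k63 12 (.s
  k221 k29 7 (.d k153 k17 k51 9 14)))))))] (.c k63 (.l (.s k102 k119 4 (.s k170 k255 14 (.s k34 k238
  9 (.s k51 k17 4 (.d k204 k136 k153 9 14)))))) .n)) (.c k41 (.q k22 [(.s k102 k119 4 (.s k110 k98 1
  (.s k204 k136 9 (.s k63 k157 12 (.d k255 k191 k170 7 14))))), (.s k170 k255 14 (.s k42 k234 7 (.s
  k21 k63 6 (.s k62 k2 5 (.s k150 k194 13 (.d k20 k23 k215 0 8)))))), (.s k102 k119 4 (.s k110 k98 1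
  (.s k93 k76 4 (.s k204 k136 9 (.s k157 k63 12 (.s k221 k29 7 (.d k153 k17 k51 9 14)))))))] (.c k63
  (.l (.s k102 k119 4 (.s k170 k255 14 (.s k34 k238 9 (.s k51 k17 4 (.d k204 k136 k153 9 14))))))
  .n)) (.c k119 (.l (.s k204 k136 9 (.s k255 k170 14 (.s k221 k238 4 (.s k153 k17 9 (.s k102 k51 14
  (.s k110 k98 1 (.d k63 k191 k157 7 12)))))))) .n))))) (.c k170 (.f k64 k127 6 (.q k81 [(.s k89 k93
  1 (.s k72 k123 4 (.s k76 k68 1 (.d k115 k98 k102 4 6)))), (.s k89 k93 1 (.s k192 k128 7 (.s k149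
  k63 14 (.s k209 k29 9 (.d k243 k226 k162 4 12))))), (.s k98 k115 4 (.s k162 k243 12 (.s k34 k226 7
  (.s k51 k17 4 (.d k192 k128 k145 7 12)))))] (.c k22 (.q k41 [(.s k89 k93 1 (.s k72 k123 4 (.s k76
  k68 1 (.d k115 k98 k102 4 6)))), (.s k89 k93 1 (.s k192 k128 7 (.s k149 k63 14 (.s k209 k29 9 (.d
  k243 k226 k162 4 12))))), (.s k98 k115 4 (.s k162 k243 12 (.s k34 k226 7 (.s k51 k17 4 (.d k192
  k128 k145 7 12)))))] .n) (.c k41 (.q k22 [(.s k89 k93 1 (.s k72 k123 4 (.s k76 k68 1 (.d k115 k98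
  k102 4 6)))), (.s k89 k93 1 (.s k192 k128 7 (.s k149 k63 14 (.s k209 k29 9 (.d k243 k226 k162 4
  12))))), (.s k98 k115 4 (.s k162 k243 12 (.s k34 k226 7 (.s k51 k17 4 (.d k192 k128 k145 7
  12)))))] .n) .n)))) (.c k191 (.l (.s k64 k127 6 (.s k192 k128 7 (.s k63 k149 14 (.s k170 k255 14
  (.d k42 k21 k234 6 7)))))) (.c k192 (.f k255 k170 14 (.f k64 k127 6 (.q k69 [(.s k101 k117 3 (.s
  k96 k111 2 (.s k112 k80 3 (.d k79 k74 k90 2 6)))), (.s k207 k138 10 (.s k223 k239 3 (.s k154 k16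
  10 (.d k101 k117 k48 3 14)))), (.s k79 k74 2 (.s k207 k138 10 (.s k15 k143 7 (.s k95 k175 11 (.s
  k90 k80 2 (.s k165 k240 14 (.d k5 k10 k245 2 11)))))))] (.c k22 (.q k41 [(.s k101 k117 3 (.s k96
  k111 2 (.s k112 k80 3 (.d k79 k74 k90 2 6)))), (.s k207 k138 10 (.s k223 k239 3 (.s k154 k16 10
  (.d k101 k117 k48 3 14)))), (.s k79 k74 2 (.s k207 k138 10 (.s k15 k143 7 (.s k95 k175 11 (.s k90
  k80 2 (.s k165 k240 14 (.d k5 k10 k245 2 11)))))))] (.c k66 (.q k129 [(.s k101 k117 3 (.s k96 k111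
  2 (.s k112 k80 3 (.d k79 k74 k90 2 6)))), (.s k207 k138 10 (.s k223 k239 3 (.s k154 k16 10 (.d
  k101 k117 k48 3 14)))), (.s k79 k74 2 (.s k207 k138 10 (.s k15 k143 7 (.s k95 k175 11 (.s k90 k80
  2 (.s k165 k240 14 (.d k5 k10 k245 2 11)))))))] (.c k104 (.q k148 [(.s k101 k117 3 (.s k96 k111 2
  (.s k112 k80 3 (.d k79 k74 k90 2 6)))), (.s k207 k138 10 (.s k223 k239 3 (.s k154 k16 10 (.d k101
  k117 k48 3 14)))), (.s k79 k74 2 (.s k207 k138 10 (.s k15 k143 7 (.s k95 k175 11 (.s k90 k80 2 (.s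
  k165 k240 14 (.d k5 k10 k245 2 11)))))))] .n) (.c k148 (.q k104 [(.s k101 k117 3 (.s k96 k111 2
  (.s k112 k80 3 (.d k79 k74 k90 2 6)))), (.s k105 k107 0 (.s k65 k125 5 (.s k1 k193 7 (.d k169 k233
  k253 7 13))))] .n) .n))) (.c k104 (.q k148 [(.s k101 k117 3 (.s k96 k111 2 (.s k112 k80 3 (.d k79
  k74 k90 2 6)))), (.s k207 k138 10 (.s k223 k239 3 (.s k154 k16 10 (.d k101 k117 k48 3 14)))), (.s
  k79 k74 2 (.s k207 k138 10 (.s k15 k143 7 (.s k95 k175 11 (.s k90 k80 2 (.s k165 k240 14 (.d k5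
  k10 k245 2 11)))))))] (.c k66 (.q k129 [(.s k101 k117 3 (.s k96 k111 2 (.s k112 k80 3 (.d k79 k74
  k90 2 6)))), (.s k207 k138 10 (.s k223 k239 3 (.s k154 k16 10 (.d k101 k117 k48 3 14)))), (.s k79
  k74 2 (.s k207 k138 10 (.s k15 k143 7 (.s k95 k175 11 (.s k90 k80 2 (.s k165 k240 14 (.d k5 k10
  k245 2 11)))))))] .n) (.c k129 (.q k66 [(.s k101 k117 3 (.s k96 k111 2 (.s k112 k80 3 (.d k79 k74
  k90 2 6)))), (.s k207 k138 10 (.s k223 k239 3 (.s k154 k16 10 (.d k101 k117 k48 3 14)))), (.s k67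
  k65 0 (.s k74 k79 2 (.s k70 k78 1 (.s k68 k71 0 (.d k76 k72 k73 1 2)))))] .n) .n))) (.c k129 (.q
  k66 [(.s k67 k65 0 (.s k86 k126 5 (.s k84 k87 0 (.d k124 k104 k105 5 6)))), (.s k79 k74 2 (.s k101
  k117 3 (.s k96 k111 2 (.d k112 k80 k90 3 6))))] (.c k104 (.q k148 [(.s k101 k117 3 (.s k96 k111 2
  (.s k112 k80 3 (.d k79 k74 k90 2 6)))), (.s k207 k138 10 (.s k223 k239 3 (.s k154 k16 10 (.d k101
  k117 k48 3 14)))), (.s k67 k65 0 (.s k74 k79 2 (.s k70 k78 1 (.s k68 k71 0 (.d k76 k72 k73 1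
  2)))))] .n) (.c k148 (.q k104 [(.s k65 k67 0 (.d k105 k107 k125 0 5)), (.s k84 k124 5 (.d k86 k126
  k87 5 0))] (.c k87 (.l (.s k67 k65 0 (.s k86 k126 5 (.d k105 k124 k107 6 0)))) (.c k125 (.l (.s
  k67 k65 0 (.s k86 k126 5 (.d k124 k84 k105 5 6)))) .n))) .n))) (.c k148 (.q k104 [(.s k101 k117 3
  (.s k96 k111 2 (.s k112 k80 3 (.d k79 k74 k90 2 6)))), (.s k105 k107 0 (.s k65 k125 5 (.s k124 k84
  5 (.d k67 k66 k86 0 6))))] (.c k66 (.q k129 [(.s k101 k117 3 (.s k96 k111 2 (.s k112 k80 3 (.d k79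
  k74 k90 2 6)))), (.s k105 k107 0 (.s k65 k125 5 (.s k1 k193 7 (.d k169 k233 k253 7 13))))] .n) (.c
  k129 (.q k66 [(.s k65 k67 0 (.d k105 k107 k125 0 5)), (.s k84 k124 5 (.d k86 k126 k87 5 0))] (.c
  k87 (.l (.s k67 k65 0 (.s k86 k126 5 (.d k105 k124 k107 6 0)))) (.c k125 (.l (.s k67 k65 0 (.s k86
  k126 5 (.d k124 k84 k105 5 6)))) .n))) .n))) .n))))) (.c k41 (.q k22 [(.s k101 k117 3 (.s k96 k111
  2 (.s k112 k80 3 (.d k79 k74 k90 2 6)))), (.s k207 k138 10 (.s k223 k239 3 (.s k154 k16 10 (.d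
  k101 k117 k48 3 14)))), (.s k79 k74 2 (.s k207 k138 10 (.s k15 k143 7 (.s k95 k175 11 (.s k90 k80
  2 (.s k165 k240 14 (.d k5 k10 k245 2 11)))))))] (.c k66 (.q k129 [(.s k101 k117 3 (.s k96 k111 2
  (.s k112 k80 3 (.d k79 k74 k90 2 6)))), (.s k207 k138 10 (.s k223 k239 3 (.s k154 k16 10 (.d k101
  k117 k48 3 14)))), (.s k79 k74 2 (.s k207 k138 10 (.s k15 k143 7 (.s k95 k175 11 (.s k90 k80 2 (.s
  k165 k240 14 (.d k5 k10 k245 2 11)))))))] (.c k104 (.q k148 [(.s k101 k117 3 (.s k96 k111 2 (.s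
  k112 k80 3 (.d k79 k74 k90 2 6)))), (.s k207 k138 10 (.s k223 k239 3 (.s k154 k16 10 (.d k101 k117
  k48 3 14)))), (.s k79 k74 2 (.s k207 k138 10 (.s k15 k143 7 (.s k95 k175 11 (.s k90 k80 2 (.s k165
  k240 14 (.d k5 k10 k245 2 11)))))))] .n) (.c k148 (.q k104 [(.s k101 k117 3 (.s k96 k111 2 (.s
  k112 k80 3 (.d k79 k74 k90 2 6)))), (.s k207 k138 10 (.s k223 k239 3 (.s k154 k16 10 (.d k101 k117
  k48 3 14)))), (.s k74 k79 2 (.s k105 k107 0 (.s k65 k125 5 (.s k73 k77 1 (.s k72 k75 0 (.d k89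
  k123 k121 4 3))))))] .n) .n))) (.c k104 (.q k148 [(.s k101 k117 3 (.s k96 k111 2 (.s k112 k80 3
  (.d k79 k74 k90 2 6)))), (.s k207 k138 10 (.s k223 k239 3 (.s k154 k16 10 (.d k101 k117 k48 3
  14)))), (.s k79 k74 2 (.s k207 k138 10 (.s k15 k143 7 (.s k95 k175 11 (.s k90 k80 2 (.s k165 k240
  14 (.d k5 k10 k245 2 11)))))))] (.c k66 (.q k129 [(.s k101 k117 3 (.s k96 k111 2 (.s k112 k80 3
  (.d k79 k74 k90 2 6)))), (.s k207 k138 10 (.s k223 k239 3 (.s k154 k16 10 (.d k101 k117 k48 3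
  14)))), (.s k79 k74 2 (.s k207 k138 10 (.s k15 k143 7 (.s k95 k175 11 (.s k90 k80 2 (.s k165 k240
  14 (.d k5 k10 k245 2 11)))))))] .n) (.c k129 (.q k66 [(.s k79 k74 2 (.s k101 k117 3 (.s k96 k111 2
  (.d k112 k80 k90 3 6)))), (.s k86 k126 5 (.s k84 k87 0 (.s k20 k212 7 (.d k150 k214 k215 7 8))))]
  .n) .n))) (.c k129 (.q k66 [(.s k67 k65 0 (.s k86 k126 5 (.s k84 k87 0 (.d k124 k104 k105 5 6)))),
  (.s k79 k74 2 (.s k101 k117 3 (.s k96 k111 2 (.d k112 k80 k90 3 6))))] (.c k104 (.q k148 [(.s k79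
  k74 2 (.s k101 k117 3 (.s k96 k111 2 (.d k112 k80 k90 3 6)))), (.s k86 k126 5 (.s k84 k87 0 (.s
  k20 k212 7 (.d k150 k214 k215 7 8))))] .n) (.c k148 (.q k104 [(.s k65 k67 0 (.d k105 k107 k125 0
  5)), (.s k84 k124 5 (.d k86 k126 k87 5 0))] (.c k87 (.l (.s k67 k65 0 (.s k86 k126 5 (.d k105 k124
  k107 6 0)))) (.c k125 (.l (.s k67 k65 0 (.s k86 k126 5 (.d k124 k84 k105 5 6)))) .n))) .n))) (.c
  k148 (.q k104 [(.s k101 k117 3 (.s k96 k111 2 (.s k112 k80 3 (.d k79 k74 k90 2 6)))), (.s k105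
  k107 0 (.s k65 k125 5 (.s k124 k84 5 (.d k67 k66 k86 0 6))))] (.c k66 (.q k129 [(.s k101 k117 3
  (.s k96 k111 2 (.s k112 k80 3 (.d k79 k74 k90 2 6)))), (.s k207 k138 10 (.s k223 k239 3 (.s k154
  k16 10 (.d k101 k117 k48 3 14)))), (.s k74 k79 2 (.s k105 k107 0 (.s k65 k125 5 (.s k73 k77 1 (.s
  k72 k75 0 (.d k89 k123 k121 4 3))))))] .n) (.c k129 (.q k66 [(.s k65 k67 0 (.d k105 k107 k125 0
  5)), (.s k84 k124 5 (.d k86 k126 k87 5 0))] (.c k87 (.l (.s k67 k65 0 (.s k86 k126 5 (.d k105 k124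
  k107 6 0)))) (.c k125 (.l (.s k67 k65 0 (.s k86 k126 5 (.d k124 k84 k105 5 6)))) .n))) .n)))
  .n))))) (.c k66 (.q k129 [(.s k101 k117 3 (.s k96 k111 2 (.s k112 k80 3 (.d k79 k74 k90 2 6)))),
  (.s k207 k138 10 (.s k223 k239 3 (.s k154 k16 10 (.d k101 k117 k48 3 14)))), (.s k79 k74 2 (.s
  k207 k138 10 (.s k15 k143 7 (.s k95 k175 11 (.s k90 k80 2 (.s k165 k240 14 (.d k5 k10 k245 2
  11)))))))] (.c k22 (.q k41 [(.s k101 k117 3 (.s k96 k111 2 (.s k112 k80 3 (.d k79 k74 k90 2 6)))),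
  (.s k207 k138 10 (.s k223 k239 3 (.s k154 k16 10 (.d k101 k117 k48 3 14)))), (.s k79 k74 2 (.s
  k207 k138 10 (.s k15 k143 7 (.s k95 k175 11 (.s k90 k80 2 (.s k165 k240 14 (.d k5 k10 k245 2
  11)))))))] (.c k104 (.q k148 [(.s k101 k117 3 (.s k96 k111 2 (.s k112 k80 3 (.d k79 k74 k90 2
  6)))), (.s k207 k138 10 (.s k223 k239 3 (.s k154 k16 10 (.d k101 k117 k48 3 14)))), (.s k79 k74 2
  (.s k207 k138 10 (.s k15 k143 7 (.s k95 k175 11 (.s k90 k80 2 (.s k165 k240 14 (.d k5 k10 k245 2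
  11)))))))] .n) (.c k148 (.q k104 [(.s k101 k117 3 (.s k96 k111 2 (.s k112 k80 3 (.d k79 k74 k90 2
  6)))), (.s k105 k107 0 (.s k65 k125 5 (.s k1 k193 7 (.d k169 k233 k253 7 13))))] .n) .n))) (.c k41
  (.q k22 [(.s k101 k117 3 (.s k96 k111 2 (.s k112 k80 3 (.d k79 k74 k90 2 6)))), (.s k207 k138 10
  (.s k223 k239 3 (.s k154 k16 10 (.d k101 k117 k48 3 14)))), (.s k79 k74 2 (.s k207 k138 10 (.s k15
  k143 7 (.s k95 k175 11 (.s k90 k80 2 (.s k165 k240 14 (.d k5 k10 k245 2 11)))))))] (.c k104 (.q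
  k148 [(.s k101 k117 3 (.s k96 k111 2 (.s k112 k80 3 (.d k79 k74 k90 2 6)))), (.s k207 k138 10 (.s
  k223 k239 3 (.s k154 k16 10 (.d k101 k117 k48 3 14)))), (.s k79 k74 2 (.s k207 k138 10 (.s k15
  k143 7 (.s k95 k175 11 (.s k90 k80 2 (.s k165 k240 14 (.d k5 k10 k245 2 11)))))))] .n) (.c k148
  (.q k104 [(.s k101 k117 3 (.s k96 k111 2 (.s k112 k80 3 (.d k79 k74 k90 2 6)))), (.s k207 k138 10
  (.s k223 k239 3 (.s k154 k16 10 (.d k101 k117 k48 3 14)))), (.s k74 k79 2 (.s k105 k107 0 (.s k65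
  k125 5 (.s k73 k77 1 (.s k72 k75 0 (.d k89 k123 k121 4 3))))))] .n) .n))) (.c k104 (.q k148 [(.s
  k101 k117 3 (.s k96 k111 2 (.s k112 k80 3 (.d k79 k74 k90 2 6)))), (.s k207 k138 10 (.s k223 k239
  3 (.s k154 k16 10 (.d k101 k117 k48 3 14)))), (.s k79 k74 2 (.s k207 k138 10 (.s k15 k143 7 (.s
  k95 k175 11 (.s k90 k80 2 (.s k165 k240 14 (.d k5 k10 k245 2 11)))))))] (.c k22 (.q k41 [(.s k101
  k117 3 (.s k96 k111 2 (.s k112 k80 3 (.d k79 k74 k90 2 6)))), (.s k207 k138 10 (.s k223 k239 3 (.s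
  k154 k16 10 (.d k101 k117 k48 3 14)))), (.s k79 k74 2 (.s k207 k138 10 (.s k15 k143 7 (.s k95 k175
  11 (.s k90 k80 2 (.s k165 k240 14 (.d k5 k10 k245 2 11)))))))] .n) (.c k41 (.q k22 [(.s k101 k117
  3 (.s k96 k111 2 (.s k112 k80 3 (.d k79 k74 k90 2 6)))), (.s k207 k138 10 (.s k223 k239 3 (.s k154
  k16 10 (.d k101 k117 k48 3 14)))), (.s k79 k74 2 (.s k207 k138 10 (.s k15 k143 7 (.s k95 k175 11
  (.s k90 k80 2 (.s k165 k240 14 (.d k5 k10 k245 2 11)))))))] .n) .n))) (.c k148 (.q k104 [(.s k101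
  k117 3 (.s k96 k111 2 (.s k112 k80 3 (.d k79 k74 k90 2 6)))), (.s k207 k138 10 (.s k223 k239 3 (.s
  k154 k16 10 (.d k101 k117 k48 3 14)))), (.s k74 k79 2 (.s k105 k107 0 (.s k65 k125 5 (.s k73 k77 1
  (.s k72 k75 0 (.d k89 k123 k121 4 3))))))] (.c k22 (.q k41 [(.s k101 k117 3 (.s k96 k111 2 (.s
  k112 k80 3 (.d k79 k74 k90 2 6)))), (.s k105 k107 0 (.s k65 k125 5 (.s k1 k193 7 (.d k169 k233
  k253 7 13))))] .n) (.c k41 (.q k22 [(.s k101 k117 3 (.s k96 k111 2 (.s k112 k80 3 (.d k79 k74 k90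
  2 6)))), (.s k207 k138 10 (.s k223 k239 3 (.s k154 k16 10 (.d k101 k117 k48 3 14)))), (.s k74 k79
  2 (.s k105 k107 0 (.s k65 k125 5 (.s k73 k77 1 (.s k72 k75 0 (.d k89 k123 k121 4 3))))))] .n)
  .n))) .n))))) (.c k104 (.q k148 [(.s k101 k117 3 (.s k96 k111 2 (.s k112 k80 3 (.d k79 k74 k90 2
  6)))), (.s k207 k138 10 (.s k223 k239 3 (.s k154 k16 10 (.d k101 k117 k48 3 14)))), (.s k79 k74 2
  (.s k207 k138 10 (.s k15 k143 7 (.s k95 k175 11 (.s k90 k80 2 (.s k165 k240 14 (.d k5 k10 k245 2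
  11)))))))] (.c k22 (.q k41 [(.s k101 k117 3 (.s k96 k111 2 (.s k112 k80 3 (.d k79 k74 k90 2 6)))),
  (.s k207 k138 10 (.s k223 k239 3 (.s k154 k16 10 (.d k101 k117 k48 3 14)))), (.s k79 k74 2 (.s
  k207 k138 10 (.s k15 k143 7 (.s k95 k175 11 (.s k90 k80 2 (.s k165 k240 14 (.d k5 k10 k245 2
  11)))))))] (.c k66 (.q k129 [(.s k101 k117 3 (.s k96 k111 2 (.s k112 k80 3 (.d k79 k74 k90 2
  6)))), (.s k207 k138 10 (.s k223 k239 3 (.s k154 k16 10 (.d k101 k117 k48 3 14)))), (.s k79 k74 2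
  (.s k207 k138 10 (.s k15 k143 7 (.s k95 k175 11 (.s k90 k80 2 (.s k165 k240 14 (.d k5 k10 k245 2
  11)))))))] .n) (.c k129 (.q k66 [(.s k101 k117 3 (.s k96 k111 2 (.s k112 k80 3 (.d k79 k74 k90 2
  6)))), (.s k207 k138 10 (.s k223 k239 3 (.s k154 k16 10 (.d k101 k117 k48 3 14)))), (.s k67 k65 0
  (.s k74 k79 2 (.s k70 k78 1 (.s k68 k71 0 (.d k76 k72 k73 1 2)))))] .n) .n))) (.c k41 (.q k22 [(.s
  k101 k117 3 (.s k96 k111 2 (.s k112 k80 3 (.d k79 k74 k90 2 6)))), (.s k207 k138 10 (.s k223 k239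
  3 (.s k154 k16 10 (.d k101 k117 k48 3 14)))), (.s k79 k74 2 (.s k207 k138 10 (.s k15 k143 7 (.s
  k95 k175 11 (.s k90 k80 2 (.s k165 k240 14 (.d k5 k10 k245 2 11)))))))] (.c k66 (.q k129 [(.s k101
  k117 3 (.s k96 k111 2 (.s k112 k80 3 (.d k79 k74 k90 2 6)))), (.s k207 k138 10 (.s k223 k239 3 (.s
  k154 k16 10 (.d k101 k117 k48 3 14)))), (.s k79 k74 2 (.s k207 k138 10 (.s k15 k143 7 (.s k95 k175
  11 (.s k90 k80 2 (.s k165 k240 14 (.d k5 k10 k245 2 11)))))))] .n) (.c k129 (.q k66 [(.s k79 k74 2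
  (.s k101 k117 3 (.s k96 k111 2 (.d k112 k80 k90 3 6)))), (.s k86 k126 5 (.s k84 k87 0 (.s k20 k212
  7 (.d k150 k214 k215 7 8))))] .n) .n))) (.c k66 (.q k129 [(.s k101 k117 3 (.s k96 k111 2 (.s k112
  k80 3 (.d k79 k74 k90 2 6)))), (.s k207 k138 10 (.s k223 k239 3 (.s k154 k16 10 (.d k101 k117 k48
  3 14)))), (.s k79 k74 2 (.s k207 k138 10 (.s k15 k143 7 (.s k95 k175 11 (.s k90 k80 2 (.s k165
  k240 14 (.d k5 k10 k245 2 11)))))))] (.c k22 (.q k41 [(.s k101 k117 3 (.s k96 k111 2 (.s k112 k80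
  3 (.d k79 k74 k90 2 6)))), (.s k207 k138 10 (.s k223 k239 3 (.s k154 k16 10 (.d k101 k117 k48 3
  14)))), (.s k79 k74 2 (.s k207 k138 10 (.s k15 k143 7 (.s k95 k175 11 (.s k90 k80 2 (.s k165 k240
  14 (.d k5 k10 k245 2 11)))))))] .n) (.c k41 (.q k22 [(.s k101 k117 3 (.s k96 k111 2 (.s k112 k80 3
  (.d k79 k74 k90 2 6)))), (.s k207 k138 10 (.s k223 k239 3 (.s k154 k16 10 (.d k101 k117 k48 3
  14)))), (.s k79 k74 2 (.s k207 k138 10 (.s k15 k143 7 (.s k95 k175 11 (.s k90 k80 2 (.s k165 k240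
  14 (.d k5 k10 k245 2 11)))))))] .n) .n))) (.c k129 (.q k66 [(.s k101 k117 3 (.s k96 k111 2 (.s
  k112 k80 3 (.d k79 k74 k90 2 6)))), (.s k207 k138 10 (.s k223 k239 3 (.s k154 k16 10 (.d k101 k117
  k48 3 14)))), (.s k67 k65 0 (.s k74 k79 2 (.s k70 k78 1 (.s k68 k71 0 (.d k76 k72 k73 1 2)))))]
  (.c k22 (.q k41 [(.s k101 k117 3 (.s k96 k111 2 (.s k112 k80 3 (.d k79 k74 k90 2 6)))), (.s k207
  k138 10 (.s k223 k239 3 (.s k154 k16 10 (.d k101 k117 k48 3 14)))), (.s k67 k65 0 (.s k74 k79 2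
  (.s k70 k78 1 (.s k68 k71 0 (.d k76 k72 k73 1 2)))))] .n) (.c k41 (.q k22 [(.s k79 k74 2 (.s k101
  k117 3 (.s k96 k111 2 (.d k112 k80 k90 3 6)))), (.s k86 k126 5 (.s k84 k87 0 (.s k20 k212 7 (.d
  k150 k214 k215 7 8))))] .n) .n))) .n))))) (.c k129 (.q k66 [(.s k67 k65 0 (.s k86 k126 5 (.s k84
  k87 0 (.d k124 k104 k105 5 6)))), (.s k79 k74 2 (.s k101 k117 3 (.s k96 k111 2 (.d k112 k80 k90 3
  6))))] (.c k22 (.q k41 [(.s k67 k65 0 (.s k86 k126 5 (.s k84 k87 0 (.d k124 k104 k105 5 6)))), (.s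
  k79 k74 2 (.s k101 k117 3 (.s k96 k111 2 (.d k112 k80 k90 3 6))))] (.c k104 (.q k148 [(.s k101
  k117 3 (.s k96 k111 2 (.s k112 k80 3 (.d k79 k74 k90 2 6)))), (.s k207 k138 10 (.s k223 k239 3 (.s
  k154 k16 10 (.d k101 k117 k48 3 14)))), (.s k67 k65 0 (.s k74 k79 2 (.s k70 k78 1 (.s k68 k71 0
  (.d k76 k72 k73 1 2)))))] .n) (.c k148 (.q k104 [(.s k65 k67 0 (.d k105 k107 k125 0 5)), (.s k84
  k124 5 (.d k86 k126 k87 5 0))] (.c k87 (.l (.s k67 k65 0 (.s k86 k126 5 (.d k105 k124 k107 6 0))))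
  (.c k125 (.l (.s k67 k65 0 (.s k86 k126 5 (.d k124 k84 k105 5 6)))) .n))) .n))) (.c k41 (.q k22
  [(.s k67 k65 0 (.s k86 k126 5 (.s k84 k87 0 (.d k124 k104 k105 5 6)))), (.s k79 k74 2 (.s k101
  k117 3 (.s k96 k111 2 (.d k112 k80 k90 3 6))))] (.c k104 (.q k148 [(.s k79 k74 2 (.s k101 k117 3
  (.s k96 k111 2 (.d k112 k80 k90 3 6)))), (.s k86 k126 5 (.s k84 k87 0 (.s k20 k212 7 (.d k150 k214
  k215 7 8))))] .n) (.c k148 (.q k104 [(.s k65 k67 0 (.d k105 k107 k125 0 5)), (.s k84 k124 5 (.d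
  k86 k126 k87 5 0))] (.c k87 (.l (.s k67 k65 0 (.s k86 k126 5 (.d k105 k124 k107 6 0)))) (.c k125
  (.l (.s k67 k65 0 (.s k86 k126 5 (.d k124 k84 k105 5 6)))) .n))) .n))) (.c k104 (.q k148 [(.s k101
  k117 3 (.s k96 k111 2 (.s k112 k80 3 (.d k79 k74 k90 2 6)))), (.s k207 k138 10 (.s k223 k239 3 (.s
  k154 k16 10 (.d k101 k117 k48 3 14)))), (.s k67 k65 0 (.s k74 k79 2 (.s k70 k78 1 (.s k68 k71 0
  (.d k76 k72 k73 1 2)))))] (.c k22 (.q k41 [(.s k101 k117 3 (.s k96 k111 2 (.s k112 k80 3 (.d k79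
  k74 k90 2 6)))), (.s k207 k138 10 (.s k223 k239 3 (.s k154 k16 10 (.d k101 k117 k48 3 14)))), (.s
  k67 k65 0 (.s k74 k79 2 (.s k70 k78 1 (.s k68 k71 0 (.d k76 k72 k73 1 2)))))] .n) (.c k41 (.q k22
  [(.s k79 k74 2 (.s k101 k117 3 (.s k96 k111 2 (.d k112 k80 k90 3 6)))), (.s k86 k126 5 (.s k84 k87
  0 (.s k20 k212 7 (.d k150 k214 k215 7 8))))] .n) .n))) (.c k148 (.q k104 [(.s k65 k67 0 (.d k105
  k107 k125 0 5)), (.s k84 k124 5 (.d k86 k126 k87 5 0))] (.c k22 (.q k41 [(.s k65 k67 0 (.d k105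
  k107 k125 0 5)), (.s k84 k124 5 (.d k86 k126 k87 5 0))] (.c k87 (.l (.s k67 k65 0 (.s k86 k126 5
  (.d k105 k124 k107 6 0)))) (.c k125 (.l (.s k67 k65 0 (.s k86 k126 5 (.d k124 k84 k105 5 6))))
  .n))) (.c k41 (.q k22 [(.s k65 k67 0 (.d k105 k107 k125 0 5)), (.s k84 k124 5 (.d k86 k126 k87 5
  0))] (.c k87 (.l (.s k67 k65 0 (.s k86 k126 5 (.d k105 k124 k107 6 0)))) (.c k125 (.l (.s k67 k65
  0 (.s k86 k126 5 (.d k124 k84 k105 5 6)))) .n))) (.c k87 (.l (.s k67 k65 0 (.s k86 k126 5 (.d k105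
  k124 k107 6 0)))) (.c k125 (.l (.s k67 k65 0 (.s k86 k126 5 (.d k124 k84 k105 5 6)))) .n)))))
  .n))))) (.c k148 (.q k104 [(.s k101 k117 3 (.s k96 k111 2 (.s k112 k80 3 (.d k79 k74 k90 2 6)))),
  (.s k105 k107 0 (.s k65 k125 5 (.s k124 k84 5 (.d k67 k66 k86 0 6))))] (.c k22 (.q k41 [(.s k101
  k117 3 (.s k96 k111 2 (.s k112 k80 3 (.d k79 k74 k90 2 6)))), (.s k105 k107 0 (.s k65 k125 5 (.s
  k124 k84 5 (.d k67 k66 k86 0 6))))] (.c k66 (.q k129 [(.s k101 k117 3 (.s k96 k111 2 (.s k112 k80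
  3 (.d k79 k74 k90 2 6)))), (.s k105 k107 0 (.s k65 k125 5 (.s k1 k193 7 (.d k169 k233 k253 7
  13))))] .n) (.c k129 (.q k66 [(.s k65 k67 0 (.d k105 k107 k125 0 5)), (.s k84 k124 5 (.d k86 k126
  k87 5 0))] (.c k87 (.l (.s k67 k65 0 (.s k86 k126 5 (.d k105 k124 k107 6 0)))) (.c k125 (.l (.s
  k67 k65 0 (.s k86 k126 5 (.d k124 k84 k105 5 6)))) .n))) .n))) (.c k41 (.q k22 [(.s k101 k117 3
  (.s k96 k111 2 (.s k112 k80 3 (.d k79 k74 k90 2 6)))), (.s k105 k107 0 (.s k65 k125 5 (.s k124 k84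
  5 (.d k67 k66 k86 0 6))))] (.c k66 (.q k129 [(.s k101 k117 3 (.s k96 k111 2 (.s k112 k80 3 (.d k79
  k74 k90 2 6)))), (.s k207 k138 10 (.s k223 k239 3 (.s k154 k16 10 (.d k101 k117 k48 3 14)))), (.s
  k74 k79 2 (.s k105 k107 0 (.s k65 k125 5 (.s k73 k77 1 (.s k72 k75 0 (.d k89 k123 k121 4 3))))))]
  .n) (.c k129 (.q k66 [(.s k65 k67 0 (.d k105 k107 k125 0 5)), (.s k84 k124 5 (.d k86 k126 k87 5
  0))] (.c k87 (.l (.s k67 k65 0 (.s k86 k126 5 (.d k105 k124 k107 6 0)))) (.c k125 (.l (.s k67 k65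
  0 (.s k86 k126 5 (.d k124 k84 k105 5 6)))) .n))) .n))) (.c k66 (.q k129 [(.s k101 k117 3 (.s k96
  k111 2 (.s k112 k80 3 (.d k79 k74 k90 2 6)))), (.s k207 k138 10 (.s k223 k239 3 (.s k154 k16 10
  (.d k101 k117 k48 3 14)))), (.s k74 k79 2 (.s k105 k107 0 (.s k65 k125 5 (.s k73 k77 1 (.s k72 k75
  0 (.d k89 k123 k121 4 3))))))] (.c k22 (.q k41 [(.s k101 k117 3 (.s k96 k111 2 (.s k112 k80 3 (.d
  k79 k74 k90 2 6)))), (.s k105 k107 0 (.s k65 k125 5 (.s k1 k193 7 (.d k169 k233 k253 7 13))))] .n)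
  (.c k41 (.q k22 [(.s k101 k117 3 (.s k96 k111 2 (.s k112 k80 3 (.d k79 k74 k90 2 6)))), (.s k207
  k138 10 (.s k223 k239 3 (.s k154 k16 10 (.d k101 k117 k48 3 14)))), (.s k74 k79 2 (.s k105 k107 0
  (.s k65 k125 5 (.s k73 k77 1 (.s k72 k75 0 (.d k89 k123 k121 4 3))))))] .n) .n))) (.c k129 (.q k66
  [(.s k65 k67 0 (.d k105 k107 k125 0 5)), (.s k84 k124 5 (.d k86 k126 k87 5 0))] (.c k22 (.q k41
  [(.s k65 k67 0 (.d k105 k107 k125 0 5)), (.s k84 k124 5 (.d k86 k126 k87 5 0))] (.c k87 (.l (.s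
  k67 k65 0 (.s k86 k126 5 (.d k105 k124 k107 6 0)))) (.c k125 (.l (.s k67 k65 0 (.s k86 k126 5 (.d
  k124 k84 k105 5 6)))) .n))) (.c k41 (.q k22 [(.s k65 k67 0 (.d k105 k107 k125 0 5)), (.s k84 k124
  5 (.d k86 k126 k87 5 0))] (.c k87 (.l (.s k67 k65 0 (.s k86 k126 5 (.d k105 k124 k107 6 0)))) (.c
  k125 (.l (.s k67 k65 0 (.s k86 k126 5 (.d k124 k84 k105 5 6)))) .n))) (.c k87 (.l (.s k67 k65 0
  (.s k86 k126 5 (.d k105 k124 k107 6 0)))) (.c k125 (.l (.s k67 k65 0 (.s k86 k126 5 (.d k124 k84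
  k105 5 6)))) .n))))) .n))))) .n))))))))) (.c k234 (.l (.s k127 k64 6 (.s k255 k170 14 (.s k63 k191
  7 (.s k21 k42 6 (.d k149 k213 k192 7 14)))))) (.c k255 (.q k243 [(.s k81 k162 12 (.s k89 k93 1 (.s
  k123 k72 4 (.s k63 k183 9 (.s k21 k42 6 (.d k149 k213 k192 7 14)))))), (.s k64 k127 6 (.s k192
  k128 7 (.s k226 k209 4 (.s k166 k46 9 (.s k4 k247 12 (.d k12 k8 k89 1 14)))))), (.s k64 k127 6 (.s
  k81 k162 12 (.s k98 k115 4 (.s k192 k128 7 (.s k145 k51 12 (.d k209 k226 k17 4 7))))))] (.c k22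
  (.q k41 [(.s k64 k127 6 (.s k192 k128 7 (.s k226 k209 4 (.s k166 k46 9 (.s k4 k247 12 (.d k12 k8
  k89 1 14)))))), (.s k81 k162 12 (.s k89 k93 1 (.s k123 k72 4 (.s k63 k183 9 (.s k21 k42 6 (.d k149
  k213 k192 7 14)))))), (.s k64 k127 6 (.s k81 k162 12 (.s k98 k115 4 (.s k192 k128 7 (.s k145 k51
  12 (.d k209 k226 k17 4 7))))))] (.c k63 (.l (.s k81 k162 12 (.s k89 k93 1 (.s k12 k166 14 (.s k72
  k123 4 (.s k192 k132 9 (.d k64 k127 k128 6 7))))))) (.c k87 (.q k171 [(.s k81 k162 12 (.s k89 k93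
  1 (.s k12 k166 14 (.s k72 k123 4 (.s k192 k132 9 (.d k64 k127 k128 6 7)))))), (.s k64 k127 6 (.s
  k81 k162 12 (.s k98 k115 4 (.s k192 k128 7 (.s k145 k51 12 (.d k209 k226 k17 4 7)))))), (.s k81
  k162 12 (.s k89 k93 1 (.s k123 k72 4 (.s k63 k183 9 (.s k21 k42 6 (.d k149 k213 k192 7 14)))))),
  (.s k64 k127 6 (.s k192 k128 7 (.s k226 k209 4 (.s k166 k46 9 (.s k4 k247 12 (.d k12 k8 k89 1
  14))))))] (.c k125 (.q k190 [(.s k81 k162 12 (.s k89 k93 1 (.s k12 k166 14 (.s k72 k123 4 (.s k192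
  k132 9 (.d k64 k127 k128 6 7)))))), (.s k64 k127 6 (.s k81 k162 12 (.s k98 k115 4 (.s k192 k128 7
  (.s k145 k51 12 (.d k209 k226 k17 4 7)))))), (.s k81 k162 12 (.s k89 k93 1 (.s k123 k72 4 (.s k63
  k183 9 (.s k21 k42 6 (.d k149 k213 k192 7 14)))))), (.s k64 k127 6 (.s k192 k128 7 (.s k226 k209 4
  (.s k166 k46 9 (.s k4 k247 12 (.d k12 k8 k89 1 14))))))] (.c k192 (.l (.s k64 k127 6 (.s k81 k162
  12 (.s k89 k93 1 (.s k72 k123 4 (.s k76 k68 1 (.d k115 k98 k102 4 6))))))) .n)) (.c k190 (.q k125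
  [(.s k105 k65 5 (.s k169 k233 7 (.s k43 k232 8 (.d k107 k235 k104 7 0)))), (.s k64 k127 6 (.s k81
  k162 12 (.s k89 k93 1 (.s k12 k166 14 (.s k72 k123 4 (.d k192 k128 k132 7 9))))))] (.c k107 (.l
  (.s k105 k65 5 (.s k169 k233 7 (.s k43 k232 8 (.s k40 k42 0 (.d k170 k235 k168 8 0)))))) .n)) (.c
  k192 (.l (.s k64 k127 6 (.s k81 k162 12 (.s k89 k93 1 (.s k72 k123 4 (.s k76 k68 1 (.d k115 k98
  k102 4 6))))))) .n)))) (.c k125 (.q k190 [(.s k64 k127 6 (.s k192 k128 7 (.s k226 k209 4 (.s k166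
  k46 9 (.s k4 k247 12 (.d k12 k8 k89 1 14)))))), (.s k81 k162 12 (.s k89 k93 1 (.s k123 k72 4 (.s
  k63 k183 9 (.s k21 k42 6 (.d k149 k213 k192 7 14)))))), (.s k64 k127 6 (.s k81 k162 12 (.s k98
  k115 4 (.s k192 k128 7 (.s k145 k51 12 (.d k209 k226 k17 4 7))))))] (.c k63 (.l (.s k81 k162 12
  (.s k89 k93 1 (.s k12 k166 14 (.s k72 k123 4 (.s k192 k132 9 (.d k64 k127 k128 6 7))))))) (.c k87
  (.q k171 [(.s k81 k162 12 (.s k89 k93 1 (.s k12 k166 14 (.s k72 k123 4 (.s k192 k132 9 (.d k64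
  k127 k128 6 7)))))), (.s k64 k127 6 (.s k81 k162 12 (.s k98 k115 4 (.s k192 k128 7 (.s k145 k51 12
  (.d k209 k226 k17 4 7)))))), (.s k81 k162 12 (.s k89 k93 1 (.s k123 k72 4 (.s k63 k183 9 (.s k21
  k42 6 (.d k149 k213 k192 7 14)))))), (.s k64 k127 6 (.s k192 k128 7 (.s k226 k209 4 (.s k166 k46 9
  (.s k4 k247 12 (.d k12 k8 k89 1 14))))))] (.c k192 (.l (.s k64 k127 6 (.s k81 k162 12 (.s k89 k93
  1 (.s k72 k123 4 (.s k76 k68 1 (.d k115 k98 k102 4 6))))))) .n)) (.c k171 (.q k87 [(.s k64 k127 6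
  (.s k192 k128 7 (.s k226 k209 4 (.s k166 k46 9 (.s k4 k247 12 (.d k12 k8 k89 1 14)))))), (.s k81
  k162 12 (.s k86 k84 0 (.s k89 k93 1 (.s k83 k92 2 (.s k80 k82 0 (.d k95 k91 k90 1 2)))))), (.s k64
  k127 6 (.s k81 k162 12 (.s k98 k115 4 (.s k192 k128 7 (.s k145 k51 12 (.d k209 k226 k17 4 7))))))]
  .n) (.c k192 (.l (.s k64 k127 6 (.s k81 k162 12 (.s k89 k93 1 (.s k72 k123 4 (.s k76 k68 1 (.d
  k115 k98 k102 4 6))))))) .n))))) (.c k171 (.q k87 [(.s k127 k64 6 (.s k67 k107 5 (.s k86 k84 0 (.s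
  k124 k105 6 (.d k126 k125 k66 0 5))))), (.s k64 k127 6 (.s k81 k162 12 (.s k89 k93 1 (.s k12 k166
  14 (.s k72 k123 4 (.d k192 k128 k132 7 9)))))), (.s k81 k162 12 (.s k86 k84 0 (.s k89 k93 1 (.s
  k83 k92 2 (.s k80 k82 0 (.d k95 k91 k90 1 2))))))] (.c k125 (.q k190 [(.s k64 k127 6 (.s k192 k128
  7 (.s k226 k209 4 (.s k166 k46 9 (.s k4 k247 12 (.d k12 k8 k89 1 14)))))), (.s k81 k162 12 (.s k86
  k84 0 (.s k89 k93 1 (.s k83 k92 2 (.s k80 k82 0 (.d k95 k91 k90 1 2)))))), (.s k64 k127 6 (.s k81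
  k162 12 (.s k98 k115 4 (.s k192 k128 7 (.s k145 k51 12 (.d k209 k226 k17 4 7))))))] .n) (.c k190
  (.q k125 [(.s k86 k84 0 (.s k127 k64 6 (.d k126 k124 k66 0 5))), (.s k65 k105 5 (.s k81 k162 12
  (.s k89 k93 1 (.s k113 k97 3 (.s k101 k77 5 (.d k117 k121 k69 1 3))))))] .n) .n))) (.c k190 (.q
  k125 [(.s k105 k65 5 (.s k107 k104 0 (.s k127 k64 6 (.s k124 k126 0 (.d k67 k87 k86 5 6))))), (.s
  k65 k105 5 (.s k81 k162 12 (.s k89 k93 1 (.s k113 k97 3 (.s k101 k77 5 (.d k117 k121 k69 1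
  3)))))), (.s k64 k127 6 (.s k81 k162 12 (.s k89 k93 1 (.s k12 k166 14 (.s k72 k123 4 (.d k192 k128
  k132 7 9))))))] (.c k87 (.q k171 [(.s k105 k65 5 (.s k169 k233 7 (.s k43 k232 8 (.d k107 k235 k104
  7 0)))), (.s k64 k127 6 (.s k81 k162 12 (.s k89 k93 1 (.s k12 k166 14 (.s k72 k123 4 (.d k192 k128
  k132 7 9))))))] (.c k107 (.l (.s k105 k65 5 (.s k169 k233 7 (.s k43 k232 8 (.s k40 k42 0 (.d k170
  k235 k168 8 0)))))) .n)) (.c k171 (.q k87 [(.s k86 k84 0 (.s k127 k64 6 (.d k126 k124 k66 0 5))),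
  (.s k65 k105 5 (.s k81 k162 12 (.s k89 k93 1 (.s k113 k97 3 (.s k101 k77 5 (.d k117 k121 k69 1
  3))))))] .n) .n))) (.c k192 (.l (.s k64 k127 6 (.s k81 k162 12 (.s k89 k93 1 (.s k72 k123 4 (.s
  k76 k68 1 (.d k115 k98 k102 4 6))))))) .n))))))) (.c k41 (.q k22 [(.s k64 k127 6 (.s k192 k128 7
  (.s k226 k209 4 (.s k166 k46 9 (.s k4 k247 12 (.d k12 k8 k89 1 14)))))), (.s k81 k162 12 (.s k89
  k93 1 (.s k123 k72 4 (.s k63 k183 9 (.s k21 k42 6 (.d k149 k213 k192 7 14)))))), (.s k64 k127 6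
  (.s k81 k162 12 (.s k98 k115 4 (.s k192 k128 7 (.s k145 k51 12 (.d k209 k226 k17 4 7))))))] (.c
  k63 (.l (.s k81 k162 12 (.s k89 k93 1 (.s k12 k166 14 (.s k72 k123 4 (.s k192 k132 9 (.d k64 k127
  k128 6 7))))))) (.c k87 (.q k171 [(.s k81 k162 12 (.s k89 k93 1 (.s k12 k166 14 (.s k72 k123 4 (.s
  k192 k132 9 (.d k64 k127 k128 6 7)))))), (.s k64 k127 6 (.s k81 k162 12 (.s k98 k115 4 (.s k192
  k128 7 (.s k145 k51 12 (.d k209 k226 k17 4 7)))))), (.s k81 k162 12 (.s k89 k93 1 (.s k123 k72 4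
  (.s k63 k183 9 (.s k21 k42 6 (.d k149 k213 k192 7 14)))))), (.s k64 k127 6 (.s k192 k128 7 (.s
  k226 k209 4 (.s k166 k46 9 (.s k4 k247 12 (.d k12 k8 k89 1 14))))))] (.c k125 (.q k190 [(.s k81
  k162 12 (.s k89 k93 1 (.s k12 k166 14 (.s k72 k123 4 (.s k192 k132 9 (.d k64 k127 k128 6 7)))))),
  (.s k64 k127 6 (.s k81 k162 12 (.s k98 k115 4 (.s k192 k128 7 (.s k145 k51 12 (.d k209 k226 k17 4
  7)))))), (.s k81 k162 12 (.s k89 k93 1 (.s k123 k72 4 (.s k63 k183 9 (.s k21 k42 6 (.d k149 k213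
  k192 7 14)))))), (.s k64 k127 6 (.s k192 k128 7 (.s k226 k209 4 (.s k166 k46 9 (.s k4 k247 12 (.d
  k12 k8 k89 1 14))))))] (.c k192 (.l (.s k64 k127 6 (.s k81 k162 12 (.s k89 k93 1 (.s k72 k123 4
  (.s k76 k68 1 (.d k115 k98 k102 4 6))))))) .n)) (.c k190 (.q k125 [(.s k64 k127 6 (.s k192 k128 7
  (.s k226 k209 4 (.s k166 k46 9 (.s k4 k247 12 (.d k12 k8 k89 1 14)))))), (.s k65 k105 5 (.s k81
  k162 12 (.s k89 k93 1 (.s k113 k97 3 (.s k101 k77 5 (.d k117 k121 k69 1 3)))))), (.s k64 k127 6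
  (.s k81 k162 12 (.s k98 k115 4 (.s k192 k128 7 (.s k145 k51 12 (.d k209 k226 k17 4 7))))))] .n)
  (.c k192 (.l (.s k64 k127 6 (.s k81 k162 12 (.s k89 k93 1 (.s k72 k123 4 (.s k76 k68 1 (.d k115
  k98 k102 4 6))))))) .n)))) (.c k125 (.q k190 [(.s k64 k127 6 (.s k192 k128 7 (.s k226 k209 4 (.s
  k166 k46 9 (.s k4 k247 12 (.d k12 k8 k89 1 14)))))), (.s k81 k162 12 (.s k89 k93 1 (.s k123 k72 4
  (.s k63 k183 9 (.s k21 k42 6 (.d k149 k213 k192 7 14)))))), (.s k64 k127 6 (.s k81 k162 12 (.s k98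
  k115 4 (.s k192 k128 7 (.s k145 k51 12 (.d k209 k226 k17 4 7))))))] (.c k63 (.l (.s k81 k162 12
  (.s k89 k93 1 (.s k12 k166 14 (.s k72 k123 4 (.s k192 k132 9 (.d k64 k127 k128 6 7))))))) (.c k87
  (.q k171 [(.s k81 k162 12 (.s k89 k93 1 (.s k12 k166 14 (.s k72 k123 4 (.s k192 k132 9 (.d k64
  k127 k128 6 7)))))), (.s k64 k127 6 (.s k81 k162 12 (.s k98 k115 4 (.s k192 k128 7 (.s k145 k51 12
  (.d k209 k226 k17 4 7)))))), (.s k81 k162 12 (.s k89 k93 1 (.s k123 k72 4 (.s k63 k183 9 (.s k21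
  k42 6 (.d k149 k213 k192 7 14)))))), (.s k64 k127 6 (.s k192 k128 7 (.s k226 k209 4 (.s k166 k46 9
  (.s k4 k247 12 (.d k12 k8 k89 1 14))))))] (.c k192 (.l (.s k64 k127 6 (.s k81 k162 12 (.s k89 k93
  1 (.s k72 k123 4 (.s k76 k68 1 (.d k115 k98 k102 4 6))))))) .n)) (.c k171 (.q k87 [(.s k86 k84 0
  (.s k150 k214 7 (.s k62 k194 13 (.d k126 k254 k66 7 5)))), (.s k64 k127 6 (.s k81 k162 12 (.s k89
  k93 1 (.s k12 k166 14 (.s k72 k123 4 (.d k192 k128 k132 7 9))))))] (.c k126 (.l (.s k86 k84 0 (.s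
  k150 k214 7 (.s k62 k194 13 (.s k2 k42 5 (.d k170 k254 k130 13 5)))))) .n)) (.c k192 (.l (.s k64
  k127 6 (.s k81 k162 12 (.s k89 k93 1 (.s k72 k123 4 (.s k76 k68 1 (.d k115 k98 k102 4 6)))))))
  .n))))) (.c k171 (.q k87 [(.s k86 k84 0 (.s k126 k66 5 (.s k127 k64 6 (.s k67 k107 5 (.d k124 k125
  k105 0 6))))), (.s k81 k162 12 (.s k86 k84 0 (.s k89 k93 1 (.s k83 k92 2 (.s k80 k82 0 (.d k95 k91
  k90 1 2)))))), (.s k64 k127 6 (.s k81 k162 12 (.s k89 k93 1 (.s k12 k166 14 (.s k72 k123 4 (.d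
  k192 k128 k132 7 9))))))] (.c k125 (.q k190 [(.s k86 k84 0 (.s k150 k214 7 (.s k62 k194 13 (.d
  k126 k254 k66 7 5)))), (.s k64 k127 6 (.s k81 k162 12 (.s k89 k93 1 (.s k12 k166 14 (.s k72 k123 4
  (.d k192 k128 k132 7 9))))))] (.c k126 (.l (.s k86 k84 0 (.s k150 k214 7 (.s k62 k194 13 (.s k2
  k42 5 (.d k170 k254 k130 13 5)))))) .n)) (.c k190 (.q k125 [(.s k86 k84 0 (.s k127 k64 6 (.d k126
  k124 k66 0 5))), (.s k65 k105 5 (.s k81 k162 12 (.s k89 k93 1 (.s k113 k97 3 (.s k101 k77 5 (.d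
  k117 k121 k69 1 3))))))] .n) .n))) (.c k190 (.q k125 [(.s k127 k64 6 (.s k124 k126 0 (.s k105 k65
  5 (.s k67 k86 6 (.d k107 k87 k104 5 0))))), (.s k64 k127 6 (.s k81 k162 12 (.s k89 k93 1 (.s k12
  k166 14 (.s k72 k123 4 (.d k192 k128 k132 7 9)))))), (.s k65 k105 5 (.s k81 k162 12 (.s k89 k93 1
  (.s k113 k97 3 (.s k101 k77 5 (.d k117 k121 k69 1 3))))))] (.c k87 (.q k171 [(.s k64 k127 6 (.s
  k192 k128 7 (.s k226 k209 4 (.s k166 k46 9 (.s k4 k247 12 (.d k12 k8 k89 1 14)))))), (.s k65 k105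
  5 (.s k81 k162 12 (.s k89 k93 1 (.s k113 k97 3 (.s k101 k77 5 (.d k117 k121 k69 1 3)))))), (.s k64
  k127 6 (.s k81 k162 12 (.s k98 k115 4 (.s k192 k128 7 (.s k145 k51 12 (.d k209 k226 k17 4 7))))))]
  .n) (.c k171 (.q k87 [(.s k86 k84 0 (.s k127 k64 6 (.d k126 k124 k66 0 5))), (.s k65 k105 5 (.s
  k81 k162 12 (.s k89 k93 1 (.s k113 k97 3 (.s k101 k77 5 (.d k117 k121 k69 1 3))))))] .n) .n))) (.c
  k192 (.l (.s k64 k127 6 (.s k81 k162 12 (.s k89 k93 1 (.s k72 k123 4 (.s k76 k68 1 (.d k115 k98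
  k102 4 6))))))) .n))))))) (.c k63 (.l (.s k81 k162 12 (.s k89 k93 1 (.s k12 k166 14 (.s k72 k123 4
  (.s k192 k132 9 (.d k64 k127 k128 6 7))))))) (.c k87 (.q k171 [(.s k81 k162 12 (.s k89 k93 1 (.s
  k123 k72 4 (.s k63 k183 9 (.s k21 k42 6 (.d k149 k213 k192 7 14)))))), (.s k64 k127 6 (.s k192
  k128 7 (.s k226 k209 4 (.s k166 k46 9 (.s k4 k247 12 (.d k12 k8 k89 1 14)))))), (.s k64 k127 6 (.s
  k81 k162 12 (.s k98 k115 4 (.s k192 k128 7 (.s k145 k51 12 (.d k209 k226 k17 4 7))))))] (.c k22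
  (.q k41 [(.s k81 k162 12 (.s k89 k93 1 (.s k12 k166 14 (.s k72 k123 4 (.s k192 k132 9 (.d k64 k127
  k128 6 7)))))), (.s k64 k127 6 (.s k81 k162 12 (.s k98 k115 4 (.s k192 k128 7 (.s k145 k51 12 (.d
  k209 k226 k17 4 7)))))), (.s k81 k162 12 (.s k89 k93 1 (.s k123 k72 4 (.s k63 k183 9 (.s k21 k42 6
  (.d k149 k213 k192 7 14)))))), (.s k64 k127 6 (.s k192 k128 7 (.s k226 k209 4 (.s k166 k46 9 (.s
  k4 k247 12 (.d k12 k8 k89 1 14))))))] (.c k125 (.q k190 [(.s k81 k162 12 (.s k89 k93 1 (.s k12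
  k166 14 (.s k72 k123 4 (.s k192 k132 9 (.d k64 k127 k128 6 7)))))), (.s k64 k127 6 (.s k81 k162 12
  (.s k98 k115 4 (.s k192 k128 7 (.s k145 k51 12 (.d k209 k226 k17 4 7)))))), (.s k81 k162 12 (.s
  k89 k93 1 (.s k123 k72 4 (.s k63 k183 9 (.s k21 k42 6 (.d k149 k213 k192 7 14)))))), (.s k64 k127
  6 (.s k192 k128 7 (.s k226 k209 4 (.s k166 k46 9 (.s k4 k247 12 (.d k12 k8 k89 1 14))))))] (.c
  k192 (.l (.s k64 k127 6 (.s k81 k162 12 (.s k89 k93 1 (.s k72 k123 4 (.s k76 k68 1 (.d k115 k98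
  k102 4 6))))))) .n)) (.c k190 (.q k125 [(.s k105 k65 5 (.s k169 k233 7 (.s k43 k232 8 (.d k107
  k235 k104 7 0)))), (.s k64 k127 6 (.s k81 k162 12 (.s k89 k93 1 (.s k12 k166 14 (.s k72 k123 4 (.d
  k192 k128 k132 7 9))))))] (.c k107 (.l (.s k105 k65 5 (.s k169 k233 7 (.s k43 k232 8 (.s k40 k42 0
  (.d k170 k235 k168 8 0)))))) .n)) (.c k192 (.l (.s k64 k127 6 (.s k81 k162 12 (.s k89 k93 1 (.s
  k72 k123 4 (.s k76 k68 1 (.d k115 k98 k102 4 6))))))) .n)))) (.c k41 (.q k22 [(.s k81 k162 12 (.s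
  k89 k93 1 (.s k12 k166 14 (.s k72 k123 4 (.s k192 k132 9 (.d k64 k127 k128 6 7)))))), (.s k64 k127
  6 (.s k81 k162 12 (.s k98 k115 4 (.s k192 k128 7 (.s k145 k51 12 (.d k209 k226 k17 4 7)))))), (.s
  k81 k162 12 (.s k89 k93 1 (.s k123 k72 4 (.s k63 k183 9 (.s k21 k42 6 (.d k149 k213 k192 7
  14)))))), (.s k64 k127 6 (.s k192 k128 7 (.s k226 k209 4 (.s k166 k46 9 (.s k4 k247 12 (.d k12 k8
  k89 1 14))))))] (.c k125 (.q k190 [(.s k81 k162 12 (.s k89 k93 1 (.s k12 k166 14 (.s k72 k123 4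
  (.s k192 k132 9 (.d k64 k127 k128 6 7)))))), (.s k64 k127 6 (.s k81 k162 12 (.s k98 k115 4 (.s
  k192 k128 7 (.s k145 k51 12 (.d k209 k226 k17 4 7)))))), (.s k81 k162 12 (.s k89 k93 1 (.s k123
  k72 4 (.s k63 k183 9 (.s k21 k42 6 (.d k149 k213 k192 7 14)))))), (.s k64 k127 6 (.s k192 k128 7
  (.s k226 k209 4 (.s k166 k46 9 (.s k4 k247 12 (.d k12 k8 k89 1 14))))))] (.c k192 (.l (.s k64 k127
  6 (.s k81 k162 12 (.s k89 k93 1 (.s k72 k123 4 (.s k76 k68 1 (.d k115 k98 k102 4 6))))))) .n)) (.c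
  k190 (.q k125 [(.s k64 k127 6 (.s k192 k128 7 (.s k226 k209 4 (.s k166 k46 9 (.s k4 k247 12 (.d
  k12 k8 k89 1 14)))))), (.s k65 k105 5 (.s k81 k162 12 (.s k89 k93 1 (.s k113 k97 3 (.s k101 k77 5
  (.d k117 k121 k69 1 3)))))), (.s k64 k127 6 (.s k81 k162 12 (.s k98 k115 4 (.s k192 k128 7 (.s
  k145 k51 12 (.d k209 k226 k17 4 7))))))] .n) (.c k192 (.l (.s k64 k127 6 (.s k81 k162 12 (.s k89
  k93 1 (.s k72 k123 4 (.s k76 k68 1 (.d k115 k98 k102 4 6))))))) .n)))) (.c k63 (.l (.s k81 k162 12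
  (.s k89 k93 1 (.s k12 k166 14 (.s k72 k123 4 (.s k192 k132 9 (.d k64 k127 k128 6 7))))))) (.c k125
  (.q k190 [(.s k81 k162 12 (.s k89 k93 1 (.s k123 k72 4 (.s k63 k183 9 (.s k21 k42 6 (.d k149 k213
  k192 7 14)))))), (.s k64 k127 6 (.s k192 k128 7 (.s k226 k209 4 (.s k166 k46 9 (.s k4 k247 12 (.d
  k12 k8 k89 1 14)))))), (.s k64 k127 6 (.s k81 k162 12 (.s k98 k115 4 (.s k192 k128 7 (.s k145 k51
  12 (.d k209 k226 k17 4 7))))))] (.c k22 (.q k41 [(.s k81 k162 12 (.s k89 k93 1 (.s k12 k166 14 (.s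
  k72 k123 4 (.s k192 k132 9 (.d k64 k127 k128 6 7)))))), (.s k64 k127 6 (.s k81 k162 12 (.s k98
  k115 4 (.s k192 k128 7 (.s k145 k51 12 (.d k209 k226 k17 4 7)))))), (.s k81 k162 12 (.s k89 k93 1
  (.s k123 k72 4 (.s k63 k183 9 (.s k21 k42 6 (.d k149 k213 k192 7 14)))))), (.s k64 k127 6 (.s k192
  k128 7 (.s k226 k209 4 (.s k166 k46 9 (.s k4 k247 12 (.d k12 k8 k89 1 14))))))] (.c k192 (.l (.s
  k64 k127 6 (.s k81 k162 12 (.s k89 k93 1 (.s k72 k123 4 (.s k76 k68 1 (.d k115 k98 k102 4 6)))))))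
  .n)) (.c k41 (.q k22 [(.s k81 k162 12 (.s k89 k93 1 (.s k12 k166 14 (.s k72 k123 4 (.s k192 k132 9
  (.d k64 k127 k128 6 7)))))), (.s k64 k127 6 (.s k81 k162 12 (.s k98 k115 4 (.s k192 k128 7 (.s
  k145 k51 12 (.d k209 k226 k17 4 7)))))), (.s k81 k162 12 (.s k89 k93 1 (.s k123 k72 4 (.s k63 k183
  9 (.s k21 k42 6 (.d k149 k213 k192 7 14)))))), (.s k64 k127 6 (.s k192 k128 7 (.s k226 k209 4 (.s
  k166 k46 9 (.s k4 k247 12 (.d k12 k8 k89 1 14))))))] (.c k192 (.l (.s k64 k127 6 (.s k81 k162 12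
  (.s k89 k93 1 (.s k72 k123 4 (.s k76 k68 1 (.d k115 k98 k102 4 6))))))) .n)) (.c k63 (.l (.s k81
  k162 12 (.s k89 k93 1 (.s k12 k166 14 (.s k72 k123 4 (.s k192 k132 9 (.d k64 k127 k128 6 7)))))))
  (.c k192 (.l (.s k64 k127 6 (.s k81 k162 12 (.s k89 k93 1 (.s k72 k123 4 (.s k76 k68 1 (.d k115
  k98 k102 4 6))))))) .n))))) (.c k190 (.q k125 [(.s k64 k127 6 (.s k192 k128 7 (.s k226 k209 4 (.s
  k166 k46 9 (.s k4 k247 12 (.d k12 k8 k89 1 14)))))), (.s k65 k105 5 (.s k81 k162 12 (.s k89 k93 1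
  (.s k113 k97 3 (.s k101 k77 5 (.d k117 k121 k69 1 3)))))), (.s k64 k127 6 (.s k81 k162 12 (.s k98
  k115 4 (.s k192 k128 7 (.s k145 k51 12 (.d k209 k226 k17 4 7))))))] (.c k22 (.q k41 [(.s k105 k65
  5 (.s k169 k233 7 (.s k43 k232 8 (.d k107 k235 k104 7 0)))), (.s k64 k127 6 (.s k81 k162 12 (.s
  k89 k93 1 (.s k12 k166 14 (.s k72 k123 4 (.d k192 k128 k132 7 9))))))] (.c k107 (.l (.s k105 k65 5
  (.s k169 k233 7 (.s k43 k232 8 (.s k40 k42 0 (.d k170 k235 k168 8 0)))))) .n)) (.c k41 (.q k22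
  [(.s k64 k127 6 (.s k192 k128 7 (.s k226 k209 4 (.s k166 k46 9 (.s k4 k247 12 (.d k12 k8 k89 1
  14)))))), (.s k65 k105 5 (.s k81 k162 12 (.s k89 k93 1 (.s k113 k97 3 (.s k101 k77 5 (.d k117 k121
  k69 1 3)))))), (.s k64 k127 6 (.s k81 k162 12 (.s k98 k115 4 (.s k192 k128 7 (.s k145 k51 12 (.d
  k209 k226 k17 4 7))))))] .n) .n))) (.c k192 (.l (.s k64 k127 6 (.s k81 k162 12 (.s k89 k93 1 (.s
  k72 k123 4 (.s k76 k68 1 (.d k115 k98 k102 4 6))))))) .n))))))) (.c k125 (.q k190 [(.s k81 k162 12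
  (.s k89 k93 1 (.s k123 k72 4 (.s k63 k183 9 (.s k21 k42 6 (.d k149 k213 k192 7 14)))))), (.s k64
  k127 6 (.s k192 k128 7 (.s k226 k209 4 (.s k166 k46 9 (.s k4 k247 12 (.d k12 k8 k89 1 14)))))),
  (.s k64 k127 6 (.s k81 k162 12 (.s k98 k115 4 (.s k192 k128 7 (.s k145 k51 12 (.d k209 k226 k17 4
  7))))))] (.c k22 (.q k41 [(.s k64 k127 6 (.s k192 k128 7 (.s k226 k209 4 (.s k166 k46 9 (.s k4
  k247 12 (.d k12 k8 k89 1 14)))))), (.s k81 k162 12 (.s k89 k93 1 (.s k123 k72 4 (.s k63 k183 9 (.s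
  k21 k42 6 (.d k149 k213 k192 7 14)))))), (.s k64 k127 6 (.s k81 k162 12 (.s k98 k115 4 (.s k192
  k128 7 (.s k145 k51 12 (.d k209 k226 k17 4 7))))))] (.c k63 (.l (.s k81 k162 12 (.s k89 k93 1 (.s
  k12 k166 14 (.s k72 k123 4 (.s k192 k132 9 (.d k64 k127 k128 6 7))))))) (.c k87 (.q k171 [(.s k81
  k162 12 (.s k89 k93 1 (.s k12 k166 14 (.s k72 k123 4 (.s k192 k132 9 (.d k64 k127 k128 6 7)))))),
  (.s k64 k127 6 (.s k81 k162 12 (.s k98 k115 4 (.s k192 k128 7 (.s k145 k51 12 (.d k209 k226 k17 4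
  7)))))), (.s k81 k162 12 (.s k89 k93 1 (.s k123 k72 4 (.s k63 k183 9 (.s k21 k42 6 (.d k149 k213
  k192 7 14)))))), (.s k64 k127 6 (.s k192 k128 7 (.s k226 k209 4 (.s k166 k46 9 (.s k4 k247 12 (.d
  k12 k8 k89 1 14))))))] (.c k192 (.l (.s k64 k127 6 (.s k81 k162 12 (.s k89 k93 1 (.s k72 k123 4
  (.s k76 k68 1 (.d k115 k98 k102 4 6))))))) .n)) (.c k171 (.q k87 [(.s k64 k127 6 (.s k192 k128 7
  (.s k226 k209 4 (.s k166 k46 9 (.s k4 k247 12 (.d k12 k8 k89 1 14)))))), (.s k81 k162 12 (.s k86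
  k84 0 (.s k89 k93 1 (.s k83 k92 2 (.s k80 k82 0 (.d k95 k91 k90 1 2)))))), (.s k64 k127 6 (.s k81
  k162 12 (.s k98 k115 4 (.s k192 k128 7 (.s k145 k51 12 (.d k209 k226 k17 4 7))))))] .n) (.c k192
  (.l (.s k64 k127 6 (.s k81 k162 12 (.s k89 k93 1 (.s k72 k123 4 (.s k76 k68 1 (.d k115 k98 k102 4
  6))))))) .n))))) (.c k41 (.q k22 [(.s k64 k127 6 (.s k192 k128 7 (.s k226 k209 4 (.s k166 k46 9
  (.s k4 k247 12 (.d k12 k8 k89 1 14)))))), (.s k81 k162 12 (.s k89 k93 1 (.s k123 k72 4 (.s k63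
  k183 9 (.s k21 k42 6 (.d k149 k213 k192 7 14)))))), (.s k64 k127 6 (.s k81 k162 12 (.s k98 k115 4
  (.s k192 k128 7 (.s k145 k51 12 (.d k209 k226 k17 4 7))))))] (.c k63 (.l (.s k81 k162 12 (.s k89
  k93 1 (.s k12 k166 14 (.s k72 k123 4 (.s k192 k132 9 (.d k64 k127 k128 6 7))))))) (.c k87 (.q k171
  [(.s k81 k162 12 (.s k89 k93 1 (.s k12 k166 14 (.s k72 k123 4 (.s k192 k132 9 (.d k64 k127 k128 6
  7)))))), (.s k64 k127 6 (.s k81 k162 12 (.s k98 k115 4 (.s k192 k128 7 (.s k145 k51 12 (.d k209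
  k226 k17 4 7)))))), (.s k81 k162 12 (.s k89 k93 1 (.s k123 k72 4 (.s k63 k183 9 (.s k21 k42 6 (.d
  k149 k213 k192 7 14)))))), (.s k64 k127 6 (.s k192 k128 7 (.s k226 k209 4 (.s k166 k46 9 (.s k4
  k247 12 (.d k12 k8 k89 1 14))))))] (.c k192 (.l (.s k64 k127 6 (.s k81 k162 12 (.s k89 k93 1 (.s
  k72 k123 4 (.s k76 k68 1 (.d k115 k98 k102 4 6))))))) .n)) (.c k171 (.q k87 [(.s k86 k84 0 (.s
  k150 k214 7 (.s k62 k194 13 (.d k126 k254 k66 7 5)))), (.s k64 k127 6 (.s k81 k162 12 (.s k89 k93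
  1 (.s k12 k166 14 (.s k72 k123 4 (.d k192 k128 k132 7 9))))))] (.c k126 (.l (.s k86 k84 0 (.s k150
  k214 7 (.s k62 k194 13 (.s k2 k42 5 (.d k170 k254 k130 13 5)))))) .n)) (.c k192 (.l (.s k64 k127 6
  (.s k81 k162 12 (.s k89 k93 1 (.s k72 k123 4 (.s k76 k68 1 (.d k115 k98 k102 4 6))))))) .n)))))
  (.c k63 (.l (.s k81 k162 12 (.s k89 k93 1 (.s k12 k166 14 (.s k72 k123 4 (.s k192 k132 9 (.d k64
  k127 k128 6 7))))))) (.c k87 (.q k171 [(.s k81 k162 12 (.s k89 k93 1 (.s k123 k72 4 (.s k63 k183 9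
  (.s k21 k42 6 (.d k149 k213 k192 7 14)))))), (.s k64 k127 6 (.s k192 k128 7 (.s k226 k209 4 (.s
  k166 k46 9 (.s k4 k247 12 (.d k12 k8 k89 1 14)))))), (.s k64 k127 6 (.s k81 k162 12 (.s k98 k115 4
  (.s k192 k128 7 (.s k145 k51 12 (.d k209 k226 k17 4 7))))))] (.c k22 (.q k41 [(.s k81 k162 12 (.s
  k89 k93 1 (.s k12 k166 14 (.s k72 k123 4 (.s k192 k132 9 (.d k64 k127 k128 6 7)))))), (.s k64 k127
  6 (.s k81 k162 12 (.s k98 k115 4 (.s k192 k128 7 (.s k145 k51 12 (.d k209 k226 k17 4 7)))))), (.s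
  k81 k162 12 (.s k89 k93 1 (.s k123 k72 4 (.s k63 k183 9 (.s k21 k42 6 (.d k149 k213 k192 7
  14)))))), (.s k64 k127 6 (.s k192 k128 7 (.s k226 k209 4 (.s k166 k46 9 (.s k4 k247 12 (.d k12 k8
  k89 1 14))))))] (.c k192 (.l (.s k64 k127 6 (.s k81 k162 12 (.s k89 k93 1 (.s k72 k123 4 (.s k76
  k68 1 (.d k115 k98 k102 4 6))))))) .n)) (.c k41 (.q k22 [(.s k81 k162 12 (.s k89 k93 1 (.s k12
  k166 14 (.s k72 k123 4 (.s k192 k132 9 (.d k64 k127 k128 6 7)))))), (.s k64 k127 6 (.s k81 k162 12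
  (.s k98 k115 4 (.s k192 k128 7 (.s k145 k51 12 (.d k209 k226 k17 4 7)))))), (.s k81 k162 12 (.s
  k89 k93 1 (.s k123 k72 4 (.s k63 k183 9 (.s k21 k42 6 (.d k149 k213 k192 7 14)))))), (.s k64 k127
  6 (.s k192 k128 7 (.s k226 k209 4 (.s k166 k46 9 (.s k4 k247 12 (.d k12 k8 k89 1 14))))))] (.c
  k192 (.l (.s k64 k127 6 (.s k81 k162 12 (.s k89 k93 1 (.s k72 k123 4 (.s k76 k68 1 (.d k115 k98
  k102 4 6))))))) .n)) (.c k63 (.l (.s k81 k162 12 (.s k89 k93 1 (.s k12 k166 14 (.s k72 k123 4 (.s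
  k192 k132 9 (.d k64 k127 k128 6 7))))))) (.c k192 (.l (.s k64 k127 6 (.s k81 k162 12 (.s k89 k93 1
  (.s k72 k123 4 (.s k76 k68 1 (.d k115 k98 k102 4 6))))))) .n))))) (.c k171 (.q k87 [(.s k64 k127 6
  (.s k192 k128 7 (.s k226 k209 4 (.s k166 k46 9 (.s k4 k247 12 (.d k12 k8 k89 1 14)))))), (.s k81
  k162 12 (.s k86 k84 0 (.s k89 k93 1 (.s k83 k92 2 (.s k80 k82 0 (.d k95 k91 k90 1 2)))))), (.s k64
  k127 6 (.s k81 k162 12 (.s k98 k115 4 (.s k192 k128 7 (.s k145 k51 12 (.d k209 k226 k17 4 7))))))]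
  (.c k22 (.q k41 [(.s k64 k127 6 (.s k192 k128 7 (.s k226 k209 4 (.s k166 k46 9 (.s k4 k247 12 (.d
  k12 k8 k89 1 14)))))), (.s k81 k162 12 (.s k86 k84 0 (.s k89 k93 1 (.s k83 k92 2 (.s k80 k82 0 (.d
  k95 k91 k90 1 2)))))), (.s k64 k127 6 (.s k81 k162 12 (.s k98 k115 4 (.s k192 k128 7 (.s k145 k51
  12 (.d k209 k226 k17 4 7))))))] .n) (.c k41 (.q k22 [(.s k86 k84 0 (.s k150 k214 7 (.s k62 k194 13
  (.d k126 k254 k66 7 5)))), (.s k64 k127 6 (.s k81 k162 12 (.s k89 k93 1 (.s k12 k166 14 (.s k72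
  k123 4 (.d k192 k128 k132 7 9))))))] (.c k126 (.l (.s k86 k84 0 (.s k150 k214 7 (.s k62 k194 13
  (.s k2 k42 5 (.d k170 k254 k130 13 5)))))) .n)) .n))) (.c k192 (.l (.s k64 k127 6 (.s k81 k162 12
  (.s k89 k93 1 (.s k72 k123 4 (.s k76 k68 1 (.d k115 k98 k102 4 6))))))) .n))))))) (.c k171 (.q k87
  [(.s k127 k64 6 (.s k67 k107 5 (.s k86 k84 0 (.s k124 k105 6 (.d k126 k125 k66 0 5))))), (.s k64
  k127 6 (.s k81 k162 12 (.s k89 k93 1 (.s k12 k166 14 (.s k72 k123 4 (.d k192 k128 k132 7 9)))))),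
  (.s k81 k162 12 (.s k86 k84 0 (.s k89 k93 1 (.s k83 k92 2 (.s k80 k82 0 (.d k95 k91 k90 1 2))))))]
  (.c k22 (.q k41 [(.s k127 k64 6 (.s k67 k107 5 (.s k86 k84 0 (.s k124 k105 6 (.d k126 k125 k66 0
  5))))), (.s k64 k127 6 (.s k81 k162 12 (.s k89 k93 1 (.s k12 k166 14 (.s k72 k123 4 (.d k192 k128
  k132 7 9)))))), (.s k81 k162 12 (.s k86 k84 0 (.s k89 k93 1 (.s k83 k92 2 (.s k80 k82 0 (.d k95
  k91 k90 1 2))))))] (.c k125 (.q k190 [(.s k64 k127 6 (.s k192 k128 7 (.s k226 k209 4 (.s k166 k46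
  9 (.s k4 k247 12 (.d k12 k8 k89 1 14)))))), (.s k81 k162 12 (.s k86 k84 0 (.s k89 k93 1 (.s k83
  k92 2 (.s k80 k82 0 (.d k95 k91 k90 1 2)))))), (.s k64 k127 6 (.s k81 k162 12 (.s k98 k115 4 (.s
  k192 k128 7 (.s k145 k51 12 (.d k209 k226 k17 4 7))))))] .n) (.c k190 (.q k125 [(.s k86 k84 0 (.s
  k127 k64 6 (.d k126 k124 k66 0 5))), (.s k65 k105 5 (.s k81 k162 12 (.s k89 k93 1 (.s k113 k97 3
  (.s k101 k77 5 (.d k117 k121 k69 1 3))))))] .n) .n))) (.c k41 (.q k22 [(.s k86 k84 0 (.s k126 k66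
  5 (.s k127 k64 6 (.s k67 k107 5 (.d k124 k125 k105 0 6))))), (.s k81 k162 12 (.s k86 k84 0 (.s k89
  k93 1 (.s k83 k92 2 (.s k80 k82 0 (.d k95 k91 k90 1 2)))))), (.s k64 k127 6 (.s k81 k162 12 (.s
  k89 k93 1 (.s k12 k166 14 (.s k72 k123 4 (.d k192 k128 k132 7 9))))))] (.c k125 (.q k190 [(.s k86
  k84 0 (.s k150 k214 7 (.s k62 k194 13 (.d k126 k254 k66 7 5)))), (.s k64 k127 6 (.s k81 k162 12
  (.s k89 k93 1 (.s k12 k166 14 (.s k72 k123 4 (.d k192 k128 k132 7 9))))))] (.c k126 (.l (.s k86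
  k84 0 (.s k150 k214 7 (.s k62 k194 13 (.s k2 k42 5 (.d k170 k254 k130 13 5)))))) .n)) (.c k190 (.q
  k125 [(.s k86 k84 0 (.s k127 k64 6 (.d k126 k124 k66 0 5))), (.s k65 k105 5 (.s k81 k162 12 (.s
  k89 k93 1 (.s k113 k97 3 (.s k101 k77 5 (.d k117 k121 k69 1 3))))))] .n) .n))) (.c k125 (.q k190
  [(.s k64 k127 6 (.s k192 k128 7 (.s k226 k209 4 (.s k166 k46 9 (.s k4 k247 12 (.d k12 k8 k89 1
  14)))))), (.s k81 k162 12 (.s k86 k84 0 (.s k89 k93 1 (.s k83 k92 2 (.s k80 k82 0 (.d k95 k91 k90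
  1 2)))))), (.s k64 k127 6 (.s k81 k162 12 (.s k98 k115 4 (.s k192 k128 7 (.s k145 k51 12 (.d k209
  k226 k17 4 7))))))] (.c k22 (.q k41 [(.s k64 k127 6 (.s k192 k128 7 (.s k226 k209 4 (.s k166 k46 9
  (.s k4 k247 12 (.d k12 k8 k89 1 14)))))), (.s k81 k162 12 (.s k86 k84 0 (.s k89 k93 1 (.s k83 k92
  2 (.s k80 k82 0 (.d k95 k91 k90 1 2)))))), (.s k64 k127 6 (.s k81 k162 12 (.s k98 k115 4 (.s k192
  k128 7 (.s k145 k51 12 (.d k209 k226 k17 4 7))))))] .n) (.c k41 (.q k22 [(.s k86 k84 0 (.s k150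
  k214 7 (.s k62 k194 13 (.d k126 k254 k66 7 5)))), (.s k64 k127 6 (.s k81 k162 12 (.s k89 k93 1 (.s
  k12 k166 14 (.s k72 k123 4 (.d k192 k128 k132 7 9))))))] (.c k126 (.l (.s k86 k84 0 (.s k150 k214
  7 (.s k62 k194 13 (.s k2 k42 5 (.d k170 k254 k130 13 5)))))) .n)) .n))) (.c k190 (.q k125 [(.s k86
  k84 0 (.s k127 k64 6 (.d k126 k124 k66 0 5))), (.s k65 k105 5 (.s k81 k162 12 (.s k89 k93 1 (.s
  k113 k97 3 (.s k101 k77 5 (.d k117 k121 k69 1 3))))))] (.c k22 (.q k41 [(.s k86 k84 0 (.s k127 k64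
  6 (.d k126 k124 k66 0 5))), (.s k65 k105 5 (.s k81 k162 12 (.s k89 k93 1 (.s k113 k97 3 (.s k101
  k77 5 (.d k117 k121 k69 1 3))))))] .n) (.c k41 (.q k22 [(.s k86 k84 0 (.s k127 k64 6 (.d k126 k124
  k66 0 5))), (.s k65 k105 5 (.s k81 k162 12 (.s k89 k93 1 (.s k113 k97 3 (.s k101 k77 5 (.d k117
  k121 k69 1 3))))))] .n) .n))) .n))))) (.c k190 (.q k125 [(.s k127 k64 6 (.s k124 k126 0 (.s k105
  k65 5 (.s k67 k86 6 (.d k107 k87 k104 5 0))))), (.s k64 k127 6 (.s k81 k162 12 (.s k89 k93 1 (.s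
  k12 k166 14 (.s k72 k123 4 (.d k192 k128 k132 7 9)))))), (.s k65 k105 5 (.s k81 k162 12 (.s k89
  k93 1 (.s k113 k97 3 (.s k101 k77 5 (.d k117 k121 k69 1 3))))))] (.c k22 (.q k41 [(.s k105 k65 5
  (.s k107 k104 0 (.s k127 k64 6 (.s k124 k126 0 (.d k67 k87 k86 5 6))))), (.s k65 k105 5 (.s k81
  k162 12 (.s k89 k93 1 (.s k113 k97 3 (.s k101 k77 5 (.d k117 k121 k69 1 3)))))), (.s k64 k127 6
  (.s k81 k162 12 (.s k89 k93 1 (.s k12 k166 14 (.s k72 k123 4 (.d k192 k128 k132 7 9))))))] (.c k87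
  (.q k171 [(.s k105 k65 5 (.s k169 k233 7 (.s k43 k232 8 (.d k107 k235 k104 7 0)))), (.s k64 k127 6
  (.s k81 k162 12 (.s k89 k93 1 (.s k12 k166 14 (.s k72 k123 4 (.d k192 k128 k132 7 9))))))] (.c
  k107 (.l (.s k105 k65 5 (.s k169 k233 7 (.s k43 k232 8 (.s k40 k42 0 (.d k170 k235 k168 8 0))))))
  .n)) (.c k171 (.q k87 [(.s k86 k84 0 (.s k127 k64 6 (.d k126 k124 k66 0 5))), (.s k65 k105 5 (.s
  k81 k162 12 (.s k89 k93 1 (.s k113 k97 3 (.s k101 k77 5 (.d k117 k121 k69 1 3))))))] .n) .n))) (.c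
  k41 (.q k22 [(.s k127 k64 6 (.s k124 k126 0 (.s k105 k65 5 (.s k67 k86 6 (.d k107 k87 k104 5
  0))))), (.s k64 k127 6 (.s k81 k162 12 (.s k89 k93 1 (.s k12 k166 14 (.s k72 k123 4 (.d k192 k128
  k132 7 9)))))), (.s k65 k105 5 (.s k81 k162 12 (.s k89 k93 1 (.s k113 k97 3 (.s k101 k77 5 (.d
  k117 k121 k69 1 3))))))] (.c k87 (.q k171 [(.s k64 k127 6 (.s k192 k128 7 (.s k226 k209 4 (.s k166
  k46 9 (.s k4 k247 12 (.d k12 k8 k89 1 14)))))), (.s k65 k105 5 (.s k81 k162 12 (.s k89 k93 1 (.s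
  k113 k97 3 (.s k101 k77 5 (.d k117 k121 k69 1 3)))))), (.s k64 k127 6 (.s k81 k162 12 (.s k98 k115
  4 (.s k192 k128 7 (.s k145 k51 12 (.d k209 k226 k17 4 7))))))] .n) (.c k171 (.q k87 [(.s k86 k84 0
  (.s k127 k64 6 (.d k126 k124 k66 0 5))), (.s k65 k105 5 (.s k81 k162 12 (.s k89 k93 1 (.s k113 k97
  3 (.s k101 k77 5 (.d k117 k121 k69 1 3))))))] .n) .n))) (.c k87 (.q k171 [(.s k64 k127 6 (.s k192
  k128 7 (.s k226 k209 4 (.s k166 k46 9 (.s k4 k247 12 (.d k12 k8 k89 1 14)))))), (.s k65 k105 5 (.s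
  k81 k162 12 (.s k89 k93 1 (.s k113 k97 3 (.s k101 k77 5 (.d k117 k121 k69 1 3)))))), (.s k64 k127
  6 (.s k81 k162 12 (.s k98 k115 4 (.s k192 k128 7 (.s k145 k51 12 (.d k209 k226 k17 4 7))))))] (.c
  k22 (.q k41 [(.s k105 k65 5 (.s k169 k233 7 (.s k43 k232 8 (.d k107 k235 k104 7 0)))), (.s k64
  k127 6 (.s k81 k162 12 (.s k89 k93 1 (.s k12 k166 14 (.s k72 k123 4 (.d k192 k128 k132 7 9))))))]
  (.c k107 (.l (.s k105 k65 5 (.s k169 k233 7 (.s k43 k232 8 (.s k40 k42 0 (.d k170 k235 k168 8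
  0)))))) .n)) (.c k41 (.q k22 [(.s k64 k127 6 (.s k192 k128 7 (.s k226 k209 4 (.s k166 k46 9 (.s k4
  k247 12 (.d k12 k8 k89 1 14)))))), (.s k65 k105 5 (.s k81 k162 12 (.s k89 k93 1 (.s k113 k97 3 (.s
  k101 k77 5 (.d k117 k121 k69 1 3)))))), (.s k64 k127 6 (.s k81 k162 12 (.s k98 k115 4 (.s k192
  k128 7 (.s k145 k51 12 (.d k209 k226 k17 4 7))))))] .n) .n))) (.c k171 (.q k87 [(.s k86 k84 0 (.s
  k127 k64 6 (.d k126 k124 k66 0 5))), (.s k65 k105 5 (.s k81 k162 12 (.s k89 k93 1 (.s k113 k97 3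
  (.s k101 k77 5 (.d k117 k121 k69 1 3))))))] (.c k22 (.q k41 [(.s k86 k84 0 (.s k127 k64 6 (.d k126
  k124 k66 0 5))), (.s k65 k105 5 (.s k81 k162 12 (.s k89 k93 1 (.s k113 k97 3 (.s k101 k77 5 (.d
  k117 k121 k69 1 3))))))] .n) (.c k41 (.q k22 [(.s k86 k84 0 (.s k127 k64 6 (.d k126 k124 k66 0
  5))), (.s k65 k105 5 (.s k81 k162 12 (.s k89 k93 1 (.s k113 k97 3 (.s k101 k77 5 (.d k117 k121 k69
  1 3))))))] .n) .n))) .n))))) (.c k192 (.l (.s k64 k127 6 (.s k81 k162 12 (.s k89 k93 1 (.s k72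
  k123 4 (.s k76 k68 1 (.d k115 k98 k102 4 6))))))) .n))))))))) .n)))))))))))))))

def t3_61 : T TT 256 :=
  (.f k255 k170 14 (.q k102 [(.s k68 k119 4 (.s k204 k136 9 (.s k221 k238 4 (.d k153 k17 k51 9
  14))))] (.c k17 (.q k4 [(.s k12 k8 1 (.s k93 k174 12 (.s k166 k247 12 (.d k89 k81 k243 1 14)))),
  (.s k68 k119 4 (.s k166 k247 12 (.s k38 k230 7 (.s k55 k21 4 (.d k196 k132 k149 7 12))))), (.s k12
  k8 1 (.s k68 k119 4 (.s k132 k196 7 (.s k72 k192 9 (.s k76 k64 1 (.d k204 k140 k136 7 9))))))] .n)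
  (.c k51 (.f k68 k119 4 (.q k117 [(.s k48 k186 10 (.s k16 k32 3 (.s k101 k69 3 (.d k154 k223 k207
  10 14)))), (.s k101 k69 3 (.s k100 k103 0 (.s k204 k136 9 (.d k48 k186 k152 10 13)))), (.s k48
  k186 10 (.s k32 k16 3 (.s k204 k136 9 (.s k100 k152 13 (.s k84 k116 3 (.d k168 k236 k252 9
  13))))))] (.c k19 (.q k35 [(.s k48 k186 10 (.s k16 k32 3 (.s k101 k69 3 (.d k154 k223 k207 10
  14)))), (.s k101 k69 3 (.s k100 k103 0 (.s k84 k116 3 (.s k236 k169 10 (.d k168 k252 k32 13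
  9))))), (.s k48 k186 10 (.s k32 k16 3 (.s k204 k136 9 (.s k100 k152 13 (.d k236 k168 k169 9
  10)))))] (.c k32 (.l (.s k48 k186 10 (.s k101 k69 3 (.s k100 k103 0 (.d k204 k136 k152 9 13)))))
  .n)) (.c k35 (.q k19 [(.s k48 k186 10 (.s k16 k32 3 (.s k101 k69 3 (.d k154 k223 k207 10 14)))),
  (.s k48 k186 10 (.s k32 k16 3 (.s k204 k136 9 (.s k100 k152 13 (.s k84 k116 3 (.d k168 k236 k252 9
  13)))))), (.s k101 k69 3 (.s k100 k103 0 (.s k204 k136 9 (.d k48 k186 k152 10 13)))), (.s k69 k101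
  3 (.s k70 k71 0 (.s k86 k118 3 (.s k87 k84 0 (.s k223 k155 9 (.d k207 k239 k138 3 10))))))] .n)
  (.c k48 (.l (.s k69 k101 3 (.s k204 k136 9 (.s k207 k138 10 (.s k205 k206 0 (.s k221 k238 4 (.s
  k253 k237 3 (.d k1 k137 k169 9 13)))))))) (.c k186 (.l (.s k101 k69 3 (.s k100 k103 0 (.s k204
  k136 9 (.s k48 k152 13 (.s k16 k32 3 (.d k154 k207 k223 14 10))))))) .n)))))) (.c k68 (.q k4 [(.s
  k12 k8 1 (.s k93 k174 12 (.s k89 k81 1 (.d k166 k247 k243 12 14)))), (.s k166 k247 12 (.s k38 k230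
  7 (.s k21 k55 4 (.s k63 k42 6 (.s k127 k191 7 (.s k106 k64 6 (.d k149 k213 k192 7 14)))))))] (.c
  k166 (.f k12 k8 1 (.q k89 [(.d k93 k174 k81 12 1), (.s k76 k115 6 (.s k204 k140 7 (.s k153 k51 14
  (.d k221 k238 k17 4 9))))] (.c k162 (.l (.s k174 k93 12 (.s k76 k115 6 (.s k204 k140 7 (.s k153
  k51 14 (.d k221 k238 k17 4 9)))))) (.c k174 (.q k162 [(.d k81 k93 k243 1 12), (.s k76 k115 6 (.s
  k204 k140 7 (.s k221 k238 4 (.d k153 k17 k51 9 14))))] .n) .n)))) (.c k247 (.l (.s k12 k8 1 (.s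
  k93 k174 12 (.s k89 k81 1 (.s k76 k115 6 (.s k204 k140 7 (.s k153 k51 14 (.d k221 k238 k17 4
  9)))))))) .n))) (.c k119 (.q k247 [(.s k166 k4 12 (.s k243 k251 1 (.s k81 k162 12 (.d k89 k93 k12
  1 14)))), (.s k166 k4 12 (.s k230 k38 7 (.s k213 k196 4 (.s k192 k234 6 (.s k64 k128 7 (.s k106
  k127 6 (.d k149 k21 k63 7 14)))))))] (.c k4 (.l (.s k243 k251 1 (.s k81 k162 12 (.s k89 k93 1 (.s
  k115 k76 6 (.s k51 k179 7 (.s k17 k34 4 (.d k153 k221 k204 9 14)))))))) (.c k166 (.f k243 k251 1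
  (.q k89 [(.d k81 k162 k93 12 1), (.s k115 k76 6 (.s k51 k179 7 (.s k17 k34 4 (.d k153 k221 k204 9
  14))))] (.c k162 (.q k174 [(.d k93 k81 k12 1 12), (.s k115 k76 6 (.s k51 k179 7 (.s k17 k34 4 (.d
  k153 k221 k204 9 14))))] .n) (.c k174 (.l (.s k162 k81 12 (.s k115 k76 6 (.s k51 k179 7 (.s k17
  k34 4 (.d k153 k221 k204 9 14)))))) .n)))) .n))) (.c k136 (.l (.s k119 k68 4 (.s k51 k187 9 (.s
  k153 k204 14 (.d k17 k34 k221 4 9))))) (.c k153 (.f k119 k68 4 (.q k127 [(.s k106 k64 6 (.s k110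
  k98 1 (.s k76 k93 4 (.d k115 k123 k89 1 6)))), (.s k63 k191 7 (.s k21 k42 6 (.s k149 k213 7 (.s
  k55 k196 12 (.d k51 k187 k59 9 1)))))] (.c k106 (.l (.s k63 k191 7 (.s k123 k115 1 (.s k183 k243 9
  (.s k55 k247 7 (.d k51 k59 k187 1 9)))))) (.c k136 (.l (.s k187 k51 9 (.s k63 k191 7 (.s k21 k42 6
  (.s k106 k64 6 (.d k149 k213 k192 7 14)))))) (.c k187 (.q k136 [(.s k106 k64 6 (.s k110 k98 1 (.s
  k76 k93 4 (.d k115 k123 k89 1 6)))), (.s k63 k191 7 (.s k21 k42 6 (.s k149 k213 7 (.d k106 k64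
  k192 6 14)))), (.s k63 k191 7 (.s k123 k115 1 (.s k183 k243 9 (.s k55 k247 7 (.s k149 k196 12 (.d
  k21 k213 k42 7 6))))))] .n) .n))))) (.c k187 (.l (.s k68 k119 4 (.s k204 k136 9 (.s k153 k51 14
  (.d k221 k238 k17 4 9))))) (.c k204 (.f k68 k119 4 (.q k89 [(.s k76 k115 6 (.s k64 k72 1 (.s k93
  k81 1 (.d k127 k110 k106 4 6)))), (.s k81 k93 1 (.s k243 k162 12 (.s k247 k251 1 (.d k166 k4 k12
  12 14)))), (.s k76 k115 6 (.s k64 k72 1 (.s k192 k128 7 (.s k213 k234 6 (.s k149 k21 7 (.d k106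
  k127 k63 6 14))))))] (.c k70 (.q k137 [(.s k76 k115 6 (.s k64 k72 1 (.s k93 k81 1 (.d k127 k110
  k106 4 6)))), (.s k81 k93 1 (.s k243 k162 12 (.s k247 k251 1 (.d k166 k4 k12 12 14)))), (.s k76
  k115 6 (.s k64 k72 1 (.s k192 k128 7 (.s k213 k234 6 (.s k149 k21 7 (.d k106 k127 k63 6 14))))))]
  .n) (.c k137 (.q k70 [(.s k76 k115 6 (.s k64 k72 1 (.s k93 k81 1 (.d k127 k110 k106 4 6)))), (.s
  k71 k69 0 (.s k86 k118 3 (.s k84 k87 0 (.d k116 k100 k101 3 4))))] .n) .n)))) (.c k221 (.q k4 [(.s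
  k12 k8 1 (.s k93 k174 12 (.s k89 k81 1 (.d k166 k247 k243 12 14)))), (.s k68 k119 4 (.s k166 k247
  12 (.s k38 k230 7 (.s k55 k21 4 (.d k196 k132 k149 7 12))))), (.s k12 k8 1 (.s k68 k119 4 (.s k132
  k196 7 (.s k72 k192 9 (.s k76 k64 1 (.d k204 k140 k136 7 9))))))] .n) (.c k238 (.l (.s k119 k68 4
  (.s k51 k187 9 (.s k17 k34 4 (.d k153 k221 k204 9 14))))) .n))))))))))))

def t3_62 : T TT 256 :=
  (.f k255 k170 14 (.q k102 [(.s k68 k119 4 (.s k204 k136 9 (.s k221 k238 4 (.d k153 k17 k51 9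
  14))))] (.c k17 (.q k4 [(.s k12 k8 1 (.s k93 k174 12 (.s k166 k247 12 (.d k89 k81 k243 1 14)))),
  (.s k68 k119 4 (.s k166 k247 12 (.s k38 k230 7 (.s k55 k21 4 (.d k196 k132 k149 7 12))))), (.s k12
  k8 1 (.s k68 k119 4 (.s k132 k196 7 (.s k72 k192 9 (.s k76 k64 1 (.d k204 k140 k136 7 9))))))] .n)
  (.c k51 (.f k68 k119 4 (.q k117 [(.s k48 k186 10 (.s k16 k32 3 (.s k101 k69 3 (.d k154 k223 k207
  10 14)))), (.s k101 k69 3 (.s k100 k103 0 (.s k204 k136 9 (.d k48 k186 k152 10 13)))), (.s k48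
  k186 10 (.s k32 k16 3 (.s k204 k136 9 (.s k100 k152 13 (.s k84 k116 3 (.d k168 k236 k252 9
  13))))))] (.c k19 (.q k35 [(.s k48 k186 10 (.s k16 k32 3 (.s k101 k69 3 (.d k154 k223 k207 10
  14)))), (.s k101 k69 3 (.s k100 k103 0 (.s k84 k116 3 (.s k236 k169 10 (.d k168 k252 k32 13
  9))))), (.s k48 k186 10 (.s k32 k16 3 (.s k204 k136 9 (.s k100 k152 13 (.d k236 k168 k169 9
  10)))))] (.c k32 (.l (.s k48 k186 10 (.s k101 k69 3 (.s k100 k103 0 (.d k204 k136 k152 9 13)))))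
  .n)) (.c k35 (.q k19 [(.s k48 k186 10 (.s k16 k32 3 (.s k101 k69 3 (.d k154 k223 k207 10 14)))),
  (.s k48 k186 10 (.s k32 k16 3 (.s k204 k136 9 (.s k100 k152 13 (.s k84 k116 3 (.d k168 k236 k252 9
  13)))))), (.s k101 k69 3 (.s k100 k103 0 (.s k204 k136 9 (.d k48 k186 k152 10 13)))), (.s k69 k101
  3 (.s k70 k71 0 (.s k86 k118 3 (.s k87 k84 0 (.s k223 k155 9 (.d k207 k239 k138 3 10))))))] .n)
  (.c k48 (.l (.s k69 k101 3 (.s k204 k136 9 (.s k207 k138 10 (.s k205 k206 0 (.s k221 k238 4 (.s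
  k253 k237 3 (.d k1 k137 k169 9 13)))))))) (.c k186 (.l (.s k101 k69 3 (.s k100 k103 0 (.s k204
  k136 9 (.s k48 k152 13 (.s k16 k32 3 (.d k154 k207 k223 14 10))))))) .n)))))) (.c k68 (.q k4 [(.s
  k12 k8 1 (.s k93 k174 12 (.s k89 k81 1 (.d k166 k247 k243 12 14)))), (.s k166 k247 12 (.s k38 k230
  7 (.s k21 k55 4 (.s k63 k42 6 (.s k127 k191 7 (.s k106 k64 6 (.d k149 k213 k192 7 14)))))))] (.c
  k166 (.f k12 k8 1 (.q k89 [(.d k93 k174 k81 12 1), (.s k76 k115 6 (.s k204 k140 7 (.s k153 k51 14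
  (.d k221 k238 k17 4 9))))] (.c k162 (.l (.s k174 k93 12 (.s k76 k115 6 (.s k204 k140 7 (.s k153
  k51 14 (.d k221 k238 k17 4 9)))))) (.c k174 (.q k162 [(.d k81 k93 k243 1 12), (.s k76 k115 6 (.s
  k204 k140 7 (.s k221 k238 4 (.d k153 k17 k51 9 14))))] .n) .n)))) (.c k247 (.l (.s k12 k8 1 (.s
  k93 k174 12 (.s k89 k81 1 (.s k76 k115 6 (.s k204 k140 7 (.s k153 k51 14 (.d k221 k238 k17 4
  9)))))))) .n))) (.c k119 (.q k247 [(.s k166 k4 12 (.s k243 k251 1 (.s k81 k162 12 (.d k89 k93 k12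
  1 14)))), (.s k166 k4 12 (.s k230 k38 7 (.s k213 k196 4 (.s k192 k234 6 (.s k64 k128 7 (.s k106
  k127 6 (.d k149 k21 k63 7 14)))))))] (.c k4 (.l (.s k243 k251 1 (.s k81 k162 12 (.s k89 k93 1 (.s
  k115 k76 6 (.s k51 k179 7 (.s k17 k34 4 (.d k153 k221 k204 9 14)))))))) (.c k166 (.f k243 k251 1
  (.q k89 [(.d k81 k162 k93 12 1), (.s k115 k76 6 (.s k51 k179 7 (.s k17 k34 4 (.d k153 k221 k204 9
  14))))] (.c k162 (.q k174 [(.d k93 k81 k12 1 12), (.s k115 k76 6 (.s k51 k179 7 (.s k17 k34 4 (.d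
  k153 k221 k204 9 14))))] .n) (.c k174 (.l (.s k162 k81 12 (.s k115 k76 6 (.s k51 k179 7 (.s k17
  k34 4 (.d k153 k221 k204 9 14)))))) .n)))) .n))) (.c k136 (.l (.s k119 k68 4 (.s k51 k187 9 (.s
  k153 k204 14 (.d k17 k34 k221 4 9))))) (.c k153 (.f k119 k68 4 (.q k127 [(.s k106 k64 6 (.s k110
  k98 1 (.s k76 k93 4 (.d k115 k123 k89 1 6)))), (.s k63 k191 7 (.s k21 k42 6 (.s k149 k213 7 (.s
  k55 k196 12 (.d k51 k187 k59 9 1)))))] (.c k106 (.l (.s k63 k191 7 (.s k123 k115 1 (.s k183 k243 9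
  (.s k55 k247 7 (.d k51 k59 k187 1 9)))))) (.c k136 (.l (.s k187 k51 9 (.s k63 k191 7 (.s k21 k42 6
  (.s k106 k64 6 (.d k149 k213 k192 7 14)))))) (.c k187 (.q k136 [(.s k106 k64 6 (.s k110 k98 1 (.s
  k76 k93 4 (.d k115 k123 k89 1 6)))), (.s k63 k191 7 (.s k21 k42 6 (.s k149 k213 7 (.d k106 k64
  k192 6 14)))), (.s k63 k191 7 (.s k123 k115 1 (.s k183 k243 9 (.s k55 k247 7 (.s k149 k196 12 (.d
  k21 k213 k42 7 6))))))] .n) .n))))) (.c k187 (.l (.s k68 k119 4 (.s k204 k136 9 (.s k153 k51 14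
  (.d k221 k238 k17 4 9))))) (.c k204 (.f k68 k119 4 (.q k4 [(.s k12 k8 1 (.s k93 k174 12 (.s k89
  k81 1 (.d k166 k247 k243 12 14)))), (.s k196 k132 7 (.s k149 k55 12 (.s k21 k213 7 (.s k63 k42 6
  (.s k106 k192 14 (.d k127 k64 k191 6 7))))))] (.c k12 (.l (.s k166 k247 12 (.s k38 k230 7 (.s k55
  k21 4 (.d k196 k132 k149 7 12))))) (.c k70 (.q k137 [(.s k12 k8 1 (.s k93 k174 12 (.s k89 k81 1
  (.d k166 k247 k243 12 14)))), (.s k196 k132 7 (.s k149 k55 12 (.s k21 k213 7 (.s k63 k42 6 (.s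
  k106 k192 14 (.d k127 k64 k191 6 7))))))] (.c k12 (.l (.s k166 k247 12 (.s k38 k230 7 (.s k55 k21
  4 (.d k196 k132 k149 7 12))))) (.c k247 (.l (.s k12 k8 1 (.s k93 k174 12 (.s k89 k81 1 (.s k76
  k115 6 (.s k64 k72 1 (.d k127 k110 k106 4 6))))))) .n))) (.c k137 (.q k70 [(.s k12 k8 1 (.s k93
  k174 12 (.s k89 k81 1 (.d k166 k247 k243 12 14)))), (.s k71 k69 0 (.s k86 k118 3 (.s k84 k87 0 (.d
  k116 k100 k101 3 4))))] .n) (.c k247 (.l (.s k12 k8 1 (.s k93 k174 12 (.s k89 k81 1 (.s k76 k115 6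
  (.s k64 k72 1 (.d k127 k110 k106 4 6))))))) .n)))))) (.c k221 (.q k4 [(.s k12 k8 1 (.s k93 k174 12
  (.s k89 k81 1 (.d k166 k247 k243 12 14)))), (.s k68 k119 4 (.s k166 k247 12 (.s k38 k230 7 (.s k55
  k21 4 (.d k196 k132 k149 7 12))))), (.s k12 k8 1 (.s k68 k119 4 (.s k132 k196 7 (.s k72 k192 9 (.s
  k76 k64 1 (.d k204 k140 k136 7 9))))))] .n) (.c k238 (.l (.s k119 k68 4 (.s k51 k187 9 (.s k17 k34
  4 (.d k153 k221 k204 9 14))))) .n))))))))))))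

def t3_63 : T TT 256 :=
  (.f k255 k170 14 (.q k89 [(.s k81 k93 1 (.s k243 k162 12 (.s k247 k251 1 (.d k166 k4 k12 12
  14))))] (.c k4 (.f k81 k93 1 (.q k102 [(.s k68 k119 4 (.s k204 k136 9 (.s k221 k238 4 (.d k153 k17
  k51 9 14)))), (.s k115 k76 6 (.s k64 k98 4 (.s k119 k68 4 (.d k127 k123 k106 1 6)))), (.s k115 k76
  6 (.s k243 k162 12 (.s k51 k179 7 (.s k17 k34 4 (.d k153 k221 k204 9 14)))))] (.c k23 (.q k43 [(.s
  k68 k119 4 (.s k204 k136 9 (.s k221 k238 4 (.d k153 k17 k51 9 14)))), (.s k115 k76 6 (.s k64 k98 4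
  (.s k119 k68 4 (.d k127 k123 k106 1 6)))), (.s k115 k76 6 (.s k243 k162 12 (.s k51 k179 7 (.s k17
  k34 4 (.d k153 k221 k204 9 14)))))] .n) (.c k43 (.q k23 [(.s k68 k119 4 (.s k204 k136 9 (.s k221
  k238 4 (.d k153 k17 k51 9 14)))), (.s k115 k76 6 (.s k64 k98 4 (.s k119 k68 4 (.d k127 k123 k106 1
  6)))), (.s k115 k76 6 (.s k243 k162 12 (.s k51 k179 7 (.s k17 k34 4 (.d k153 k221 k204 9 14)))))]
  .n) .n)))) (.c k12 (.q k29 [(.s k93 k81 1 (.s k149 k209 9 (.s k21 k213 7 (.s k17 k25 1 (.d k221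
  k157 k153 7 9))))), (.s k93 k81 1 (.s k221 k157 7 (.s k204 k238 4 (.s k68 k136 9 (.s k102 k119 4
  (.d k153 k17 k51 9 14)))))), (.s k149 k209 9 (.s k21 k213 7 (.s k17 k25 1 (.s k51 k34 4 (.s k119
  k187 9 (.s k102 k68 4 (.d k153 k221 k204 9 14))))))), (.s k81 k93 1 (.s k209 k149 9 (.s k145 k17 7
  (.s k243 k162 12 (.s k192 k226 4 (.s k98 k51 12 (.d k64 k128 k115 7 4)))))))] (.c k6 (.q k9 [(.s
  k81 k93 1 (.s k169 k249 11 (.s k1 k253 13 (.s k13 k5 1 (.d k241 k161 k165 11 13))))), (.s k81 k93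
  1 (.s k209 k149 9 (.s k17 k145 7 (.s k25 k21 1 (.d k153 k217 k221 7 9))))), (.s k149 k209 9 (.s
  k21 k213 7 (.s k169 k249 11 (.s k1 k253 13 (.s k13 k5 1 (.d k61 k45 k41 3 5))))))] (.c k23 (.q k43
  [(.s k81 k93 1 (.s k169 k249 11 (.s k1 k253 13 (.s k13 k5 1 (.d k241 k161 k165 11 13))))), (.s k81
  k93 1 (.s k209 k149 9 (.s k17 k145 7 (.s k25 k21 1 (.d k153 k217 k221 7 9))))), (.s k149 k209 9
  (.s k21 k213 7 (.s k169 k249 11 (.s k1 k253 13 (.s k13 k5 1 (.d k61 k45 k41 3 5))))))] .n) (.c k43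
  (.q k23 [(.s k81 k93 1 (.s k169 k249 11 (.s k1 k253 13 (.s k13 k5 1 (.d k241 k161 k165 11 13))))),
  (.s k149 k209 9 (.s k21 k213 7 (.s k20 k22 0 (.s k86 k212 8 (.s k87 k84 0 (.d k215 k151 k150 7
  8))))))] .n) .n))) (.c k9 (.q k6 [(.s k93 k81 1 (.s k149 k209 9 (.s k21 k213 7 (.s k221 k157 7 (.d
  k17 k25 k153 1 9))))), (.s k81 k93 1 (.s k209 k149 9 (.s k145 k17 7 (.s k243 k162 12 (.s k192 k226
  4 (.s k98 k51 12 (.d k64 k128 k115 7 4))))))), (.s k93 k81 1 (.s k221 k157 7 (.s k204 k238 4 (.s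
  k68 k136 9 (.s k102 k119 4 (.d k153 k17 k51 9 14)))))), (.s k149 k209 9 (.s k21 k213 7 (.s k17 k25
  1 (.s k51 k34 4 (.s k119 k187 9 (.s k102 k68 4 (.d k153 k221 k204 9 14)))))))] (.c k17 (.f k81 k93
  1 (.l (.s k209 k149 9 (.s k243 k162 12 (.s k192 k226 4 (.s k213 k234 6 (.s k217 k221 1 (.s k230
  k204 6 (.d k247 k251 k196 1 4))))))))) (.c k23 (.q k43 [(.s k93 k81 1 (.s k149 k209 9 (.s k21 k213
  7 (.s k221 k157 7 (.d k17 k25 k153 1 9))))), (.s k81 k93 1 (.s k209 k149 9 (.s k145 k17 7 (.s k243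
  k162 12 (.s k192 k226 4 (.s k98 k51 12 (.d k64 k128 k115 7 4))))))), (.s k93 k81 1 (.s k221 k157 7
  (.s k204 k238 4 (.s k68 k136 9 (.s k102 k119 4 (.d k153 k17 k51 9 14)))))), (.s k149 k209 9 (.s
  k21 k213 7 (.s k17 k25 1 (.s k51 k34 4 (.s k119 k187 9 (.s k102 k68 4 (.d k153 k221 k204 9
  14)))))))] (.c k17 (.q k1 [(.s k81 k93 1 (.s k241 k161 11 (.s k165 k13 13 (.s k245 k5 11 (.d k253
  k249 k169 1 13))))), (.s k169 k253 13 (.s k106 k232 8 (.s k64 k127 6 (.s k192 k128 7 (.s k213 k234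
  6 (.d k149 k21 k209 7 9)))))), (.s k81 k93 1 (.s k149 k209 9 (.s k21 k213 7 (.s k61 k41 5 (.s k13
  k45 3 (.d k241 k161 k165 11 13))))))] .n) .n)) (.c k43 (.q k23 [(.s k81 k93 1 (.s k149 k209 9 (.s
  k86 k212 8 (.s k166 k246 11 (.s k243 k162 12 (.d k247 k251 k4 1 12)))))), (.s k93 k81 1 (.s k221
  k157 7 (.s k204 k238 4 (.s k68 k136 9 (.s k102 k119 4 (.d k153 k17 k51 9 14)))))), (.s k149 k209 9
  (.s k21 k213 7 (.s k20 k22 0 (.s k86 k212 8 (.s k87 k84 0 (.d k215 k151 k150 7 8))))))] .n) .n))))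
  (.c k17 (.f k81 k93 1 (.l (.s k209 k149 9 (.s k243 k162 12 (.s k192 k226 4 (.s k213 k234 6 (.s
  k217 k221 1 (.s k230 k204 6 (.d k247 k251 k196 1 4))))))))) (.c k23 (.q k43 [(.s k93 k81 1 (.s
  k149 k209 9 (.s k21 k213 7 (.s k17 k25 1 (.d k221 k157 k153 7 9))))), (.s k93 k81 1 (.s k221 k157
  7 (.s k204 k238 4 (.s k68 k136 9 (.s k102 k119 4 (.d k153 k17 k51 9 14)))))), (.s k149 k209 9 (.s
  k21 k213 7 (.s k17 k25 1 (.s k51 k34 4 (.s k119 k187 9 (.s k102 k68 4 (.d k153 k221 k204 9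
  14))))))), (.s k81 k93 1 (.s k209 k149 9 (.s k145 k17 7 (.s k243 k162 12 (.s k192 k226 4 (.s k98
  k51 12 (.d k64 k128 k115 7 4)))))))] (.c k6 (.q k9 [(.s k81 k93 1 (.s k169 k249 11 (.s k1 k253 13
  (.s k13 k5 1 (.d k241 k161 k165 11 13))))), (.s k81 k93 1 (.s k209 k149 9 (.s k17 k145 7 (.s k25
  k21 1 (.d k153 k217 k221 7 9))))), (.s k149 k209 9 (.s k21 k213 7 (.s k169 k249 11 (.s k1 k253 13
  (.s k13 k5 1 (.d k61 k45 k41 3 5))))))] .n) (.c k9 (.q k6 [(.s k93 k81 1 (.s k149 k209 9 (.s k21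
  k213 7 (.s k221 k157 7 (.d k17 k25 k153 1 9))))), (.s k81 k93 1 (.s k209 k149 9 (.s k145 k17 7 (.s
  k243 k162 12 (.s k192 k226 4 (.s k98 k51 12 (.d k64 k128 k115 7 4))))))), (.s k93 k81 1 (.s k221
  k157 7 (.s k204 k238 4 (.s k68 k136 9 (.s k102 k119 4 (.d k153 k17 k51 9 14)))))), (.s k149 k209 9
  (.s k21 k213 7 (.s k17 k25 1 (.s k51 k34 4 (.s k119 k187 9 (.s k102 k68 4 (.d k153 k221 k204 9
  14)))))))] (.c k17 (.q k1 [(.s k81 k93 1 (.s k241 k161 11 (.s k165 k13 13 (.s k245 k5 11 (.d k253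
  k249 k169 1 13))))), (.s k169 k253 13 (.s k106 k232 8 (.s k64 k127 6 (.s k192 k128 7 (.s k213 k234
  6 (.d k149 k21 k209 7 9)))))), (.s k81 k93 1 (.s k149 k209 9 (.s k21 k213 7 (.s k61 k41 5 (.s k13
  k45 3 (.d k241 k161 k165 11 13))))))] .n) .n)) (.c k17 (.f k81 k93 1 (.l (.s k209 k149 9 (.s k243
  k162 12 (.s k192 k226 4 (.s k213 k234 6 (.s k217 k221 1 (.s k230 k204 6 (.d k247 k251 k196 1
  4))))))))) (.c k51 (.l (.s k81 k93 1 (.s k209 k149 9 (.s k17 k145 7 (.s k25 k21 1 (.d k153 k217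
  k221 7 9)))))) .n))))) (.c k43 (.q k23 [(.s k93 k81 1 (.s k149 k209 9 (.s k21 k213 7 (.s k17 k25 1
  (.d k221 k157 k153 7 9))))), (.s k149 k209 9 (.s k86 k212 8 (.s k87 k84 0 (.s k215 k151 7 (.s k20
  k150 8 (.d k21 k22 k213 0 7)))))), (.s k93 k81 1 (.s k221 k157 7 (.s k204 k238 4 (.s k68 k136 9
  (.s k102 k119 4 (.d k153 k17 k51 9 14))))))] (.c k6 (.q k9 [(.s k81 k93 1 (.s k169 k249 11 (.s k1
  k253 13 (.s k13 k5 1 (.d k241 k161 k165 11 13))))), (.s k149 k209 9 (.s k21 k213 7 (.s k20 k22 0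
  (.s k86 k212 8 (.s k87 k84 0 (.d k215 k151 k150 7 8))))))] .n) (.c k9 (.q k6 [(.s k81 k93 1 (.s
  k149 k209 9 (.s k86 k212 8 (.s k166 k246 11 (.s k243 k162 12 (.d k247 k251 k4 1 12)))))), (.s k93
  k81 1 (.s k221 k157 7 (.s k204 k238 4 (.s k68 k136 9 (.s k102 k119 4 (.d k153 k17 k51 9 14)))))),
  (.s k149 k209 9 (.s k21 k213 7 (.s k20 k22 0 (.s k86 k212 8 (.s k87 k84 0 (.d k215 k151 k150 7
  8))))))] .n) .n))) (.c k51 (.l (.s k81 k93 1 (.s k209 k149 9 (.s k17 k145 7 (.s k25 k21 1 (.d k153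
  k217 k221 7 9)))))) .n))))))) (.c k23 (.q k43 [(.s k81 k93 1 (.s k243 k162 12 (.s k247 k251 1 (.d
  k166 k4 k12 12 14))))] (.c k4 (.q k5 [(.s k15 k10 2 (.s k95 k175 11 (.s k90 k80 2 (.d k165 k245
  k240 11 14)))), (.s k93 k81 1 (.s k165 k245 11 (.s k13 k241 13 (.s k1 k9 1 (.d k253 k173 k169 11
  13))))), (.s k15 k10 2 (.s k81 k93 1 (.s k243 k162 12 (.s k91 k167 13 (.s k90 k88 0 (.d k95 k80
  k175 2 11))))))] .n) (.c k12 (.q k29 [(.s k93 k81 1 (.s k149 k209 9 (.s k21 k213 7 (.s k17 k25 1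
  (.d k221 k157 k153 7 9))))), (.s k93 k81 1 (.s k221 k157 7 (.s k204 k238 4 (.s k68 k136 9 (.s k102
  k119 4 (.d k153 k17 k51 9 14)))))), (.s k149 k209 9 (.s k21 k213 7 (.s k17 k25 1 (.s k51 k34 4 (.s
  k119 k187 9 (.s k102 k68 4 (.d k153 k221 k204 9 14))))))), (.s k81 k93 1 (.s k209 k149 9 (.s k145
  k17 7 (.s k243 k162 12 (.s k192 k226 4 (.s k98 k51 12 (.d k64 k128 k115 7 4)))))))] (.c k6 (.q k9
  [(.s k81 k93 1 (.s k169 k249 11 (.s k1 k253 13 (.s k13 k5 1 (.d k241 k161 k165 11 13))))), (.s k81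
  k93 1 (.s k209 k149 9 (.s k17 k145 7 (.s k25 k21 1 (.d k153 k217 k221 7 9))))), (.s k149 k209 9
  (.s k21 k213 7 (.s k169 k249 11 (.s k1 k253 13 (.s k13 k5 1 (.d k61 k45 k41 3 5))))))] .n) (.c k9
  (.q k6 [(.s k93 k81 1 (.s k149 k209 9 (.s k21 k213 7 (.s k221 k157 7 (.d k17 k25 k153 1 9))))),
  (.s k81 k93 1 (.s k209 k149 9 (.s k145 k17 7 (.s k243 k162 12 (.s k192 k226 4 (.s k98 k51 12 (.d
  k64 k128 k115 7 4))))))), (.s k93 k81 1 (.s k221 k157 7 (.s k204 k238 4 (.s k68 k136 9 (.s k102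
  k119 4 (.d k153 k17 k51 9 14)))))), (.s k149 k209 9 (.s k21 k213 7 (.s k17 k25 1 (.s k51 k34 4 (.s
  k119 k187 9 (.s k102 k68 4 (.d k153 k221 k204 9 14)))))))] (.c k17 (.q k1 [(.s k81 k93 1 (.s k241
  k161 11 (.s k165 k13 13 (.s k245 k5 11 (.d k253 k249 k169 1 13))))), (.s k169 k253 13 (.s k106
  k232 8 (.s k64 k127 6 (.s k192 k128 7 (.s k213 k234 6 (.d k149 k21 k209 7 9)))))), (.s k81 k93 1
  (.s k149 k209 9 (.s k21 k213 7 (.s k61 k41 5 (.s k13 k45 3 (.d k241 k161 k165 11 13))))))] .n)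
  .n)) (.c k17 (.f k81 k93 1 (.l (.s k209 k149 9 (.s k243 k162 12 (.s k192 k226 4 (.s k213 k234 6
  (.s k217 k221 1 (.s k230 k204 6 (.d k247 k251 k196 1 4))))))))) (.c k51 (.l (.s k81 k93 1 (.s k209
  k149 9 (.s k17 k145 7 (.s k25 k21 1 (.d k153 k217 k221 7 9)))))) .n))))) (.c k81 (.q k169 [(.s
  k249 k9 11 (.s k253 k1 13 (.s k252 k254 0 (.s k243 k246 2 (.s k247 k251 1 (.d k166 k12 k4 14
  12)))))), (.s k106 k232 8 (.s k64 k127 6 (.s k72 k123 4 (.s k192 k128 7 (.s k12 k132 9 (.s k4 k8 1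
  (.d k166 k243 k247 14 12))))))), (.s k1 k253 13 (.s k9 k249 11 (.s k5 k13 1 (.s k15 k10 2 (.s k95
  k175 11 (.s k90 k80 2 (.d k165 k245 k240 11 14)))))))] .n) (.c k93 (.q k106 [(.s k64 k127 6 (.s
  k72 k123 4 (.s k192 k128 7 (.s k12 k132 9 (.s k4 k8 1 (.d k166 k243 k247 14 12)))))), (.s k169
  k232 8 (.s k249 k9 11 (.s k253 k1 13 (.s k252 k254 0 (.s k243 k246 2 (.s k247 k251 1 (.d k166 k12
  k4 14 12))))))), (.s k123 k72 4 (.s k127 k64 6 (.s k119 k115 1 (.s k51 k187 9 (.s k17 k34 4 (.s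
  k153 k221 9 (.d k102 k68 k204 4 14)))))))] .n) (.c k162 (.l (.s k93 k81 1 (.s k12 k174 12 (.s k166
  k243 14 (.d k4 k8 k247 1 12))))) (.c k166 (.f k81 k93 1 (.q k86 [(.s k87 k84 0 (.s k83 k92 2 (.s
  k95 k91 1 (.d k80 k82 k90 0 2)))), (.s k84 k87 0 (.s k252 k168 13 (.s k253 k254 0 (.s k169 k1 13
  (.s k249 k9 11 (.d k243 k162 k246 12 2)))))), (.s k83 k92 2 (.s k80 k82 0 (.s k240 k160 11 (.s
  k245 k250 2 (.s k165 k5 11 (.d k90 k95 k15 2 14))))))] (.c k162 (.q k174 [(.s k83 k92 2 (.s k87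
  k84 0 (.s k95 k91 1 (.d k80 k82 k90 0 2)))), (.s k84 k87 0 (.s k92 k83 2 (.s k252 k168 13 (.s k172
  k12 11 (.s k173 k175 0 (.s k94 k15 12 (.d k254 k14 k253 11 0))))))), (.s k84 k87 0 (.s k252 k168
  13 (.s k254 k253 0 (.s k94 k14 11 (.s k90 k82 1 (.s k95 k80 2 (.d k15 k173 k175 12 11))))))), (.s
  k83 k92 2 (.s k80 k82 0 (.s k240 k160 11 (.s k245 k250 2 (.s k165 k5 11 (.d k90 k95 k15 2
  14))))))] (.c k94 (.l (.s k87 k84 0 (.s k83 k92 2 (.s k95 k91 1 (.d k80 k82 k90 0 2))))) (.c k95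
  (.l (.s k84 k87 0 (.s k252 k168 13 (.s k254 k253 0 (.s k83 k92 2 (.s k94 k14 11 (.d k82 k90 k80 1
  0))))))) .n))) (.c k174 (.l (.s k162 k243 12 (.s k83 k92 2 (.s k80 k82 0 (.s k87 k84 0 (.d k95 k91
  k90 1 2)))))) .n)))) (.c k174 (.l (.s k81 k93 1 (.s k243 k162 12 (.s k166 k12 14 (.d k247 k251 k4
  1 12))))) (.c k243 (.q k83 [(.s k81 k93 1 (.s k80 k82 0 (.s k86 k92 2 (.s k87 k84 0 (.d k95 k91
  k90 1 2))))), (.s k92 k86 2 (.s k93 k81 1 (.s k12 k174 12 (.s k94 k95 0 (.s k252 k172 11 (.s k173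
  k15 12 (.d k253 k254 k13 0 11))))))), (.s k81 k93 1 (.s k80 k82 0 (.s k240 k160 11 (.s k245 k250 2
  (.s k165 k5 11 (.d k90 k95 k15 2 14)))))), (.s k86 k92 2 (.s k87 k84 0 (.s k95 k91 1 (.s k15 k175
  11 (.s k5 k10 2 (.s k165 k245 11 (.d k90 k80 k240 2 14)))))))] (.c k95 (.f k81 k93 1 (.l (.s k80
  k82 0 (.s k92 k86 2 (.s k88 k84 1 (.s k90 k91 0 (.s k240 k160 11 (.s k245 k250 2 (.d k165 k15 k5
  14 11))))))))) (.c k123 (.q k183 [(.s k81 k93 1 (.s k80 k82 0 (.s k86 k92 2 (.s k87 k84 0 (.d k95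
  k91 k90 1 2))))), (.s k92 k86 2 (.s k93 k81 1 (.s k12 k174 12 (.s k94 k95 0 (.s k252 k172 11 (.s
  k173 k15 12 (.d k253 k254 k13 0 11))))))), (.s k81 k93 1 (.s k80 k82 0 (.s k240 k160 11 (.s k245
  k250 2 (.s k165 k5 11 (.d k90 k95 k15 2 14)))))), (.s k86 k92 2 (.s k87 k84 0 (.s k95 k91 1 (.s
  k15 k175 11 (.s k5 k10 2 (.s k165 k245 11 (.d k90 k80 k240 2 14)))))))] (.c k95 (.q k4 [(.s k12 k8
  1 (.d k93 k81 k174 1 12)), (.s k86 k92 2 (.s k84 k87 0 (.s k166 k247 12 (.s k6 k246 11 (.s k7 k5 0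
  (.d k244 k164 k165 11 12))))))] (.c k93 (.l (.s k12 k8 1 (.s k92 k86 2 (.s k252 k172 11 (.s k84
  k168 13 (.s k88 k80 1 (.d k164 k244 k240 11 13))))))) .n)) .n)) (.c k183 (.q k123 [(.s k81 k93 1
  (.s k80 k82 0 (.s k86 k92 2 (.s k87 k84 0 (.d k95 k91 k90 1 2))))), (.s k93 k81 1 (.s k106 k72 4
  (.s k127 k64 6 (.s k76 k110 4 (.d k115 k119 k102 1 6))))), (.s k86 k92 2 (.s k84 k87 0 (.s k106
  k72 4 (.s k169 k232 8 (.s k252 k168 13 (.d k253 k254 k1 0 13))))))] .n) .n)))) (.c k247 (.q k5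
  [(.s k15 k10 2 (.s k95 k175 11 (.s k90 k80 2 (.d k165 k245 k240 11 14)))), (.s k93 k81 1 (.s k165
  k245 11 (.s k13 k241 13 (.s k1 k9 1 (.d k253 k173 k169 11 13))))), (.s k15 k10 2 (.s k81 k93 1 (.s
  k243 k162 12 (.s k91 k167 13 (.s k90 k88 0 (.d k95 k80 k175 2 11))))))] .n) (.c k251 (.l (.s k93
  k81 1 (.s k12 k174 12 (.s k4 k8 1 (.d k166 k247 k243 12 14))))) .n))))))))))) (.c k43 (.q k23 [(.s
  k81 k93 1 (.s k243 k162 12 (.s k247 k251 1 (.d k166 k4 k12 12 14))))] (.c k4 (.q k5 [(.s k15 k10 2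
  (.s k95 k175 11 (.s k90 k80 2 (.d k165 k245 k240 11 14)))), (.s k93 k81 1 (.s k165 k245 11 (.s k13
  k241 13 (.s k1 k9 1 (.d k253 k173 k169 11 13))))), (.s k15 k10 2 (.s k81 k93 1 (.s k243 k162 12
  (.s k91 k167 13 (.s k90 k88 0 (.d k95 k80 k175 2 11))))))] .n) (.c k12 (.q k29 [(.s k93 k81 1 (.s
  k149 k209 9 (.s k21 k213 7 (.s k17 k25 1 (.d k221 k157 k153 7 9))))), (.s k149 k209 9 (.s k86 k212
  8 (.s k87 k84 0 (.s k215 k151 7 (.s k20 k150 8 (.d k21 k22 k213 0 7)))))), (.s k93 k81 1 (.s k221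
  k157 7 (.s k204 k238 4 (.s k68 k136 9 (.s k102 k119 4 (.d k153 k17 k51 9 14))))))] (.c k6 (.q k9
  [(.s k81 k93 1 (.s k169 k249 11 (.s k1 k253 13 (.s k13 k5 1 (.d k241 k161 k165 11 13))))), (.s
  k149 k209 9 (.s k21 k213 7 (.s k20 k22 0 (.s k86 k212 8 (.s k87 k84 0 (.d k215 k151 k150 7
  8))))))] .n) (.c k9 (.q k6 [(.s k81 k93 1 (.s k149 k209 9 (.s k86 k212 8 (.s k166 k246 11 (.s k243
  k162 12 (.d k247 k251 k4 1 12)))))), (.s k93 k81 1 (.s k221 k157 7 (.s k204 k238 4 (.s k68 k136 9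
  (.s k102 k119 4 (.d k153 k17 k51 9 14)))))), (.s k149 k209 9 (.s k21 k213 7 (.s k20 k22 0 (.s k86
  k212 8 (.s k87 k84 0 (.d k215 k151 k150 7 8))))))] .n) .n))) (.c k81 (.q k21 [(.s k20 k22 0 (.s
  k149 k213 7 (.s k86 k212 8 (.s k87 k84 0 (.d k215 k151 k150 7 8))))), (.s k149 k213 7 (.s k29 k209
  9 (.s k17 k25 1 (.s k51 k34 4 (.s k119 k187 9 (.s k102 k68 4 (.d k153 k221 k204 9 14))))))), (.s
  k20 k22 0 (.s k60 k40 5 (.s k125 k190 8 (.s k105 k65 5 (.d k150 k215 k195 8 14)))))] .n) (.c k93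
  (.q k21 [(.s k20 k22 0 (.s k149 k213 7 (.s k86 k212 8 (.s k87 k84 0 (.d k215 k151 k150 7 8))))),
  (.s k149 k213 7 (.s k29 k209 9 (.s k17 k25 1 (.s k51 k34 4 (.s k119 k187 9 (.s k102 k68 4 (.d k153
  k221 k204 9 14))))))), (.s k20 k22 0 (.s k60 k40 5 (.s k125 k190 8 (.s k105 k65 5 (.d k150 k215
  k195 8 14)))))] .n) (.c k162 (.l (.s k93 k81 1 (.s k12 k174 12 (.s k166 k243 14 (.d k4 k8 k247 1
  12))))) (.c k166 (.f k81 k93 1 (.q k209 [(.s k17 k145 7 (.s k149 k29 9 (.s k213 k21 7 (.d k221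
  k217 k153 1 9)))), (.s k17 k145 7 (.s k51 k34 4 (.s k119 k187 9 (.s k102 k68 4 (.s k115 k76 6 (.d
  k243 k162 k179 12 7)))))), (.s k149 k29 9 (.s k21 k213 7 (.s k20 k22 0 (.s k86 k212 8 (.s k87 k84
  0 (.d k215 k151 k150 7 8))))))] (.c k162 (.q k174 [(.s k149 k29 9 (.s k213 k21 7 (.s k221 k217 1
  (.d k17 k145 k153 7 9)))), (.s k17 k145 7 (.s k51 k34 4 (.s k119 k187 9 (.s k102 k68 4 (.d k153
  k221 k204 9 14))))), (.s k149 k29 9 (.s k21 k213 7 (.s k20 k22 0 (.s k86 k212 8 (.s k87 k84 0 (.d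
  k215 k151 k150 7 8))))))] (.c k221 (.l (.s k17 k145 7 (.s k29 k149 9 (.s k25 k21 1 (.s k51 k34 4
  (.s k119 k187 9 (.s k102 k68 4 (.d k153 k217 k204 7 14)))))))) .n)) (.c k174 (.l (.s k162 k243 12
  (.s k17 k145 7 (.s k29 k149 9 (.s k25 k21 1 (.d k153 k217 k221 7 9)))))) .n)))) (.c k174 (.l (.s
  k81 k93 1 (.s k243 k162 12 (.s k166 k12 14 (.d k247 k251 k4 1 12))))) (.c k243 (.q k83 [(.s k81
  k93 1 (.s k80 k82 0 (.s k86 k92 2 (.s k87 k84 0 (.d k95 k91 k90 1 2))))), (.s k86 k92 2 (.s k84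
  k87 0 (.s k212 k149 8 (.s k20 k148 7 (.s k22 k21 0 (.d k150 k214 k215 7 8)))))), (.s k81 k93 1 (.s
  k80 k82 0 (.s k240 k160 11 (.s k245 k250 2 (.s k165 k5 11 (.d k90 k95 k15 2 14))))))] (.c k123 (.q
  k183 [(.s k81 k93 1 (.s k80 k82 0 (.s k86 k92 2 (.s k87 k84 0 (.d k95 k91 k90 1 2))))), (.s k86
  k92 2 (.s k84 k87 0 (.s k212 k149 8 (.s k20 k148 7 (.s k22 k21 0 (.d k150 k214 k215 7 8)))))), (.s
  k81 k93 1 (.s k80 k82 0 (.s k240 k160 11 (.s k245 k250 2 (.s k165 k5 11 (.d k90 k95 k15 2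
  14))))))] .n) (.c k183 (.q k123 [(.s k81 k93 1 (.s k80 k82 0 (.s k86 k92 2 (.s k87 k84 0 (.d k95
  k91 k90 1 2))))), (.s k93 k81 1 (.s k106 k72 4 (.s k127 k64 6 (.s k76 k110 4 (.d k115 k119 k102 1
  6))))), (.s k86 k92 2 (.s k84 k87 0 (.s k212 k149 8 (.s k20 k148 7 (.s k22 k21 0 (.d k150 k214
  k215 7 8))))))] .n) .n))) (.c k247 (.q k5 [(.s k15 k10 2 (.s k95 k175 11 (.s k90 k80 2 (.d k165
  k245 k240 11 14)))), (.s k93 k81 1 (.s k165 k245 11 (.s k13 k241 13 (.s k1 k9 1 (.d k253 k173 k169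
  11 13))))), (.s k15 k10 2 (.s k81 k93 1 (.s k243 k162 12 (.s k91 k167 13 (.s k90 k88 0 (.d k95 k80
  k175 2 11))))))] .n) (.c k251 (.l (.s k93 k81 1 (.s k12 k174 12 (.s k4 k8 1 (.d k166 k247 k243 12
  14))))) .n))))))))))) (.c k81 (.q k16 [(.s k48 k32 3 (.s k117 k186 10 (.s k101 k69 3 (.d k154 k223
  k207 10 14)))), (.s k154 k223 10 (.s k24 k219 8 (.s k20 k28 1 (.s k60 k40 5 (.s k125 k190 8 (.s
  k105 k65 5 (.d k150 k215 k195 8 14)))))))] (.c k23 (.q k43 [(.s k48 k32 3 (.s k117 k186 10 (.s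
  k101 k69 3 (.d k154 k223 k207 10 14)))), (.s k154 k223 10 (.s k24 k219 8 (.s k20 k28 1 (.s k60 k40
  5 (.s k125 k190 8 (.s k105 k65 5 (.d k150 k215 k195 8 14)))))))] (.c k154 (.f k48 k32 3 (.q k101
  [(.d k117 k186 k69 10 3), (.s k113 k77 5 (.s k243 k178 8 (.s k166 k12 14 (.d k247 k251 k4 1
  12))))] (.c k138 (.l (.s k186 k117 10 (.s k113 k77 5 (.s k243 k178 8 (.s k166 k12 14 (.d k247 k251
  k4 1 12)))))) (.c k186 (.q k138 [(.d k69 k117 k207 3 10), (.s k113 k77 5 (.s k243 k178 8 (.s k247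
  k251 1 (.d k166 k4 k12 12 14))))] .n) .n)))) (.c k223 (.l (.s k48 k32 3 (.s k117 k186 10 (.s k101
  k69 3 (.s k113 k77 5 (.s k243 k178 8 (.s k166 k12 14 (.d k247 k251 k4 1 12)))))))) .n))) (.c k43
  (.q k23 [(.s k48 k32 3 (.s k117 k186 10 (.s k101 k69 3 (.d k154 k223 k207 10 14)))), (.s k154 k223
  10 (.s k24 k219 8 (.s k20 k28 1 (.s k60 k40 5 (.s k125 k190 8 (.s k105 k65 5 (.d k150 k215 k195 8
  14)))))))] (.c k154 (.f k48 k32 3 (.q k101 [(.d k117 k186 k69 10 3), (.s k113 k77 5 (.s k243 k178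
  8 (.s k166 k12 14 (.d k247 k251 k4 1 12))))] (.c k138 (.l (.s k186 k117 10 (.s k113 k77 5 (.s k243
  k178 8 (.s k166 k12 14 (.d k247 k251 k4 1 12)))))) (.c k186 (.q k138 [(.d k69 k117 k207 3 10), (.s
  k113 k77 5 (.s k243 k178 8 (.s k247 k251 1 (.d k166 k4 k12 12 14))))] .n) .n)))) (.c k223 (.l (.s
  k48 k32 3 (.s k117 k186 10 (.s k101 k69 3 (.s k113 k77 5 (.s k243 k178 8 (.s k166 k12 14 (.d k247
  k251 k4 1 12)))))))) .n))) (.c k154 (.f k48 k32 3 (.q k101 [(.d k117 k186 k69 10 3), (.s k113 k77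
  5 (.s k243 k178 8 (.s k166 k12 14 (.d k247 k251 k4 1 12))))] (.c k23 (.q k43 [(.d k117 k186 k69 10
  3), (.s k113 k77 5 (.s k243 k178 8 (.s k166 k12 14 (.d k247 k251 k4 1 12))))] (.c k138 (.l (.s
  k186 k117 10 (.s k113 k77 5 (.s k243 k178 8 (.s k166 k12 14 (.d k247 k251 k4 1 12)))))) (.c k186
  (.q k138 [(.d k69 k117 k207 3 10), (.s k113 k77 5 (.s k243 k178 8 (.s k247 k251 1 (.d k166 k4 k12
  12 14))))] .n) .n))) (.c k43 (.q k23 [(.d k117 k186 k69 10 3), (.s k113 k77 5 (.s k243 k178 8 (.s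
  k166 k12 14 (.d k247 k251 k4 1 12))))] (.c k138 (.l (.s k186 k117 10 (.s k113 k77 5 (.s k243 k178
  8 (.s k166 k12 14 (.d k247 k251 k4 1 12)))))) (.c k186 (.q k138 [(.d k69 k117 k207 3 10), (.s k113
  k77 5 (.s k243 k178 8 (.s k247 k251 1 (.d k166 k4 k12 12 14))))] .n) .n))) (.c k138 (.l (.s k186
  k117 10 (.s k113 k77 5 (.s k243 k178 8 (.s k166 k12 14 (.d k247 k251 k4 1 12)))))) (.c k186 (.q
  k138 [(.d k69 k117 k207 3 10), (.s k113 k77 5 (.s k243 k178 8 (.s k247 k251 1 (.d k166 k4 k12 12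
  14))))] (.c k23 (.q k43 [(.d k69 k117 k207 3 10), (.s k113 k77 5 (.s k243 k178 8 (.s k247 k251 1
  (.d k166 k4 k12 12 14))))] .n) (.c k43 (.q k23 [(.d k69 k117 k207 3 10), (.s k113 k77 5 (.s k243
  k178 8 (.s k247 k251 1 (.d k166 k4 k12 12 14))))] .n) .n))) .n)))))) (.c k223 (.l (.s k48 k32 3
  (.s k117 k186 10 (.s k101 k69 3 (.s k113 k77 5 (.s k243 k178 8 (.s k166 k12 14 (.d k247 k251 k4 1
  12)))))))) .n))))) (.c k93 (.q k117 [(.s k48 k186 10 (.s k16 k32 3 (.s k101 k69 3 (.d k154 k223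
  k207 10 14)))), (.s k101 k69 3 (.s k113 k77 5 (.s k125 k121 1 (.s k60 k190 8 (.s k20 k40 5 (.s
  k150 k215 8 (.d k105 k65 k195 5 14)))))))] (.c k23 (.q k43 [(.s k48 k186 10 (.s k16 k32 3 (.s k101
  k69 3 (.d k154 k223 k207 10 14)))), (.s k101 k69 3 (.s k113 k77 5 (.s k125 k121 1 (.s k60 k190 8
  (.s k20 k40 5 (.s k150 k215 8 (.d k105 k65 k195 5 14)))))))] (.c k69 (.l (.s k48 k186 10 (.s k16
  k32 3 (.s k154 k223 10 (.s k24 k219 8 (.s k12 k36 5 (.s k4 k8 1 (.d k166 k247 k243 12 14))))))))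
  (.c k101 (.f k48 k186 10 (.q k154 [(.d k16 k32 k223 3 10), (.s k24 k219 8 (.s k12 k36 5 (.s k4 k8
  1 (.d k166 k247 k243 12 14))))] (.c k32 (.q k239 [(.d k223 k207 k16 3 10), (.s k24 k219 8 (.s k12
  k36 5 (.s k4 k8 1 (.d k166 k247 k243 12 14))))] .n) (.c k239 (.l (.s k32 k16 3 (.s k24 k219 8 (.s
  k12 k36 5 (.s k4 k8 1 (.d k166 k247 k243 12 14)))))) .n)))) .n))) (.c k43 (.q k23 [(.s k48 k186 10
  (.s k16 k32 3 (.s k101 k69 3 (.d k154 k223 k207 10 14)))), (.s k101 k69 3 (.s k113 k77 5 (.s k125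
  k121 1 (.s k60 k190 8 (.s k20 k40 5 (.s k150 k215 8 (.d k105 k65 k195 5 14)))))))] (.c k69 (.l (.s
  k48 k186 10 (.s k16 k32 3 (.s k154 k223 10 (.s k24 k219 8 (.s k12 k36 5 (.s k4 k8 1 (.d k166 k247
  k243 12 14)))))))) (.c k101 (.f k48 k186 10 (.q k154 [(.d k16 k32 k223 3 10), (.s k24 k219 8 (.s
  k12 k36 5 (.s k4 k8 1 (.d k166 k247 k243 12 14))))] (.c k32 (.q k239 [(.d k223 k207 k16 3 10), (.s
  k24 k219 8 (.s k12 k36 5 (.s k4 k8 1 (.d k166 k247 k243 12 14))))] .n) (.c k239 (.l (.s k32 k16 3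
  (.s k24 k219 8 (.s k12 k36 5 (.s k4 k8 1 (.d k166 k247 k243 12 14)))))) .n)))) .n))) (.c k69 (.l
  (.s k48 k186 10 (.s k16 k32 3 (.s k154 k223 10 (.s k24 k219 8 (.s k12 k36 5 (.s k4 k8 1 (.d k166
  k247 k243 12 14)))))))) (.c k101 (.f k48 k186 10 (.q k154 [(.d k16 k32 k223 3 10), (.s k24 k219 8
  (.s k12 k36 5 (.s k4 k8 1 (.d k166 k247 k243 12 14))))] (.c k23 (.q k43 [(.d k16 k32 k223 3 10),
  (.s k24 k219 8 (.s k12 k36 5 (.s k4 k8 1 (.d k166 k247 k243 12 14))))] (.c k32 (.q k239 [(.d k223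
  k207 k16 3 10), (.s k24 k219 8 (.s k12 k36 5 (.s k4 k8 1 (.d k166 k247 k243 12 14))))] .n) (.c
  k239 (.l (.s k32 k16 3 (.s k24 k219 8 (.s k12 k36 5 (.s k4 k8 1 (.d k166 k247 k243 12 14))))))
  .n))) (.c k32 (.q k239 [(.d k223 k207 k16 3 10), (.s k24 k219 8 (.s k12 k36 5 (.s k4 k8 1 (.d k166
  k247 k243 12 14))))] (.c k23 (.q k43 [(.d k223 k207 k16 3 10), (.s k24 k219 8 (.s k12 k36 5 (.s k4
  k8 1 (.d k166 k247 k243 12 14))))] .n) (.c k43 (.q k23 [(.d k223 k207 k16 3 10), (.s k24 k219 8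
  (.s k12 k36 5 (.s k4 k8 1 (.d k166 k247 k243 12 14))))] .n) .n))) (.c k43 (.q k23 [(.d k16 k32
  k223 3 10), (.s k24 k219 8 (.s k12 k36 5 (.s k4 k8 1 (.d k166 k247 k243 12 14))))] (.c k32 (.q
  k239 [(.d k223 k207 k16 3 10), (.s k24 k219 8 (.s k12 k36 5 (.s k4 k8 1 (.d k166 k247 k243 12
  14))))] .n) (.c k239 (.l (.s k32 k16 3 (.s k24 k219 8 (.s k12 k36 5 (.s k4 k8 1 (.d k166 k247 k243
  12 14)))))) .n))) (.c k239 (.l (.s k32 k16 3 (.s k24 k219 8 (.s k12 k36 5 (.s k4 k8 1 (.d k166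
  k247 k243 12 14)))))) .n)))))) .n))))) (.c k162 (.l (.s k93 k81 1 (.s k12 k174 12 (.s k166 k243 14
  (.d k4 k8 k247 1 12))))) (.c k166 (.f k93 k81 1 (.q k165 [(.s k5 k245 11 (.s k13 k241 13 (.s k253
  k173 11 (.d k1 k9 k169 1 13)))), (.s k5 k245 11 (.s k15 k10 2 (.s k90 k240 14 (.d k95 k80 k175 2
  11)))), (.s k13 k241 13 (.s k253 k173 11 (.s k252 k254 0 (.s k84 k168 13 (.s k86 k87 0 (.s k92 k83
  2 (.d k12 k174 k172 12 11)))))))] (.c k23 (.q k43 [(.s k5 k245 11 (.s k13 k241 13 (.s k253 k173 11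
  (.d k1 k9 k169 1 13)))), (.s k5 k245 11 (.s k15 k10 2 (.s k90 k240 14 (.d k95 k80 k175 2 11)))),
  (.s k13 k241 13 (.s k253 k173 11 (.s k252 k254 0 (.s k84 k168 13 (.s k86 k87 0 (.s k92 k83 2 (.d
  k12 k174 k172 12 11)))))))] (.c k161 (.l (.s k5 k245 11 (.s k13 k241 13 (.s k1 k9 1 (.d k253 k173
  k169 11 13))))) (.c k162 (.l (.s k174 k12 12 (.s k5 k245 11 (.s k13 k241 13 (.s k253 k173 11 (.d
  k1 k9 k169 1 13)))))) (.c k174 (.q k162 [(.s k5 k245 11 (.s k13 k241 13 (.s k1 k9 1 (.d k253 k173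
  k169 11 13)))), (.s k5 k245 11 (.s k15 k10 2 (.s k90 k240 14 (.d k95 k80 k175 2 11))))] (.c k5 (.f
  k13 k241 13 (.l (.s k253 k173 11 (.s k252 k254 0 (.s k84 k168 13 (.s k86 k87 0 (.s k92 k83 2 (.s
  k80 k88 1 (.d k95 k94 k90 0 2))))))))) (.c k161 (.l (.s k5 k245 11 (.s k13 k241 13 (.s k1 k9 1 (.d
  k253 k173 k169 11 13))))) (.c k245 (.l (.s k13 k241 13 (.s k253 k173 11 (.s k1 k169 13 (.s k5 k9 1
  (.s k15 k10 2 (.s k90 k240 14 (.d k95 k175 k80 11 2)))))))) .n)))) .n)))) (.c k43 (.q k23 [(.s k5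
  k245 11 (.s k13 k241 13 (.s k253 k173 11 (.d k1 k9 k169 1 13)))), (.s k5 k245 11 (.s k15 k10 2 (.s
  k90 k240 14 (.d k95 k80 k175 2 11)))), (.s k13 k241 13 (.s k253 k173 11 (.s k252 k254 0 (.s k84
  k168 13 (.s k86 k87 0 (.s k92 k83 2 (.d k12 k174 k172 12 11)))))))] (.c k161 (.l (.s k5 k245 11
  (.s k13 k241 13 (.s k1 k9 1 (.d k253 k173 k169 11 13))))) (.c k162 (.l (.s k174 k12 12 (.s k5 k245
  11 (.s k13 k241 13 (.s k253 k173 11 (.d k1 k9 k169 1 13)))))) (.c k174 (.q k162 [(.s k5 k245 11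
  (.s k13 k241 13 (.s k1 k9 1 (.d k253 k173 k169 11 13)))), (.s k5 k245 11 (.s k15 k10 2 (.s k90
  k240 14 (.d k95 k80 k175 2 11))))] (.c k5 (.q k7 [(.s k13 k241 13 (.s k86 k244 12 (.s k84 k87 0
  (.s k252 k168 13 (.d k253 k254 k173 0 11))))), (.s k39 k55 3 (.s k102 k228 8 (.s k68 k119 4 (.s
  k76 k115 6 (.s k64 k72 1 (.d k127 k110 k106 4 6))))))] .n) (.c k161 (.l (.s k5 k245 11 (.s k13
  k241 13 (.s k1 k9 1 (.d k253 k173 k169 11 13))))) (.c k245 (.l (.s k13 k241 13 (.s k253 k173 11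
  (.s k1 k169 13 (.s k5 k9 1 (.s k15 k10 2 (.s k90 k240 14 (.d k95 k175 k80 11 2)))))))) .n))))
  .n)))) (.c k161 (.l (.s k5 k245 11 (.s k13 k241 13 (.s k1 k9 1 (.d k253 k173 k169 11 13))))) (.c
  k162 (.l (.s k174 k12 12 (.s k5 k245 11 (.s k13 k241 13 (.s k253 k173 11 (.d k1 k9 k169 1 13))))))
  (.c k174 (.q k162 [(.s k5 k245 11 (.s k13 k241 13 (.s k1 k9 1 (.d k253 k173 k169 11 13)))), (.s k5
  k245 11 (.s k15 k10 2 (.s k90 k240 14 (.d k95 k80 k175 2 11))))] (.c k5 (.f k13 k241 13 (.l (.s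
  k253 k173 11 (.s k252 k254 0 (.s k84 k168 13 (.s k86 k87 0 (.s k92 k83 2 (.s k80 k88 1 (.d k95 k94
  k90 0 2))))))))) (.c k23 (.q k43 [(.s k5 k245 11 (.s k13 k241 13 (.s k1 k9 1 (.d k253 k173 k169 11
  13)))), (.s k5 k245 11 (.s k15 k10 2 (.s k90 k240 14 (.d k95 k80 k175 2 11))))] (.c k5 (.f k13
  k241 13 (.l (.s k253 k173 11 (.s k252 k254 0 (.s k84 k168 13 (.s k86 k87 0 (.s k92 k83 2 (.s k80
  k88 1 (.d k95 k94 k90 0 2))))))))) (.c k161 (.l (.s k5 k245 11 (.s k13 k241 13 (.s k1 k9 1 (.d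
  k253 k173 k169 11 13))))) (.c k245 (.l (.s k13 k241 13 (.s k253 k173 11 (.s k1 k169 13 (.s k5 k9 1
  (.s k15 k10 2 (.s k90 k240 14 (.d k95 k175 k80 11 2)))))))) .n)))) (.c k43 (.q k23 [(.s k5 k245 11
  (.s k13 k241 13 (.s k1 k9 1 (.d k253 k173 k169 11 13)))), (.s k5 k245 11 (.s k15 k10 2 (.s k90
  k240 14 (.d k95 k80 k175 2 11))))] (.c k5 (.q k7 [(.s k13 k241 13 (.s k86 k244 12 (.s k84 k87 0
  (.s k252 k168 13 (.d k253 k254 k173 0 11))))), (.s k39 k55 3 (.s k102 k228 8 (.s k68 k119 4 (.s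
  k76 k115 6 (.s k64 k72 1 (.d k127 k110 k106 4 6))))))] .n) (.c k161 (.l (.s k5 k245 11 (.s k13
  k241 13 (.s k1 k9 1 (.d k253 k173 k169 11 13))))) (.c k245 (.l (.s k13 k241 13 (.s k253 k173 11
  (.s k1 k169 13 (.s k5 k9 1 (.s k15 k10 2 (.s k90 k240 14 (.d k95 k175 k80 11 2)))))))) .n)))) (.c
  k161 (.l (.s k5 k245 11 (.s k13 k241 13 (.s k1 k9 1 (.d k253 k173 k169 11 13))))) (.c k245 (.l (.s
  k13 k241 13 (.s k253 k173 11 (.s k1 k169 13 (.s k5 k9 1 (.s k15 k10 2 (.s k90 k240 14 (.d k95 k175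
  k80 11 2)))))))) .n)))))) .n))))))) (.c k174 (.l (.s k81 k93 1 (.s k243 k162 12 (.s k166 k12 14
  (.d k247 k251 k4 1 12))))) (.c k243 (.q k83 [(.s k81 k93 1 (.s k80 k82 0 (.s k86 k92 2 (.s k87 k84
  0 (.d k95 k91 k90 1 2))))), (.s k92 k86 2 (.s k93 k81 1 (.s k12 k174 12 (.s k94 k95 0 (.s k252
  k172 11 (.s k173 k15 12 (.d k253 k254 k13 0 11))))))), (.s k81 k93 1 (.s k80 k82 0 (.s k240 k160
  11 (.s k245 k250 2 (.s k165 k5 11 (.d k90 k95 k15 2 14)))))), (.s k86 k92 2 (.s k87 k84 0 (.s k95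
  k91 1 (.s k15 k175 11 (.s k5 k10 2 (.s k165 k245 11 (.d k90 k80 k240 2 14)))))))] (.c k23 (.q k43
  [(.s k81 k93 1 (.s k80 k82 0 (.s k86 k92 2 (.s k87 k84 0 (.d k95 k91 k90 1 2))))), (.s k92 k86 2
  (.s k93 k81 1 (.s k12 k174 12 (.s k94 k95 0 (.s k252 k172 11 (.s k173 k15 12 (.d k253 k254 k13 0
  11))))))), (.s k81 k93 1 (.s k80 k82 0 (.s k240 k160 11 (.s k245 k250 2 (.s k165 k5 11 (.d k90 k95
  k15 2 14)))))), (.s k86 k92 2 (.s k87 k84 0 (.s k95 k91 1 (.s k15 k175 11 (.s k5 k10 2 (.s k165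
  k245 11 (.d k90 k80 k240 2 14)))))))] (.c k95 (.f k81 k93 1 (.l (.s k80 k82 0 (.s k92 k86 2 (.s
  k88 k84 1 (.s k90 k91 0 (.s k240 k160 11 (.s k245 k250 2 (.d k165 k15 k5 14 11))))))))) (.c k123
  (.q k183 [(.s k81 k93 1 (.s k80 k82 0 (.s k86 k92 2 (.s k87 k84 0 (.d k95 k91 k90 1 2))))), (.s
  k92 k86 2 (.s k93 k81 1 (.s k12 k174 12 (.s k94 k95 0 (.s k252 k172 11 (.s k173 k15 12 (.d k253
  k254 k13 0 11))))))), (.s k81 k93 1 (.s k80 k82 0 (.s k240 k160 11 (.s k245 k250 2 (.s k165 k5 11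
  (.d k90 k95 k15 2 14)))))), (.s k86 k92 2 (.s k87 k84 0 (.s k95 k91 1 (.s k15 k175 11 (.s k5 k10 2
  (.s k165 k245 11 (.d k90 k80 k240 2 14)))))))] (.c k95 (.q k4 [(.s k12 k8 1 (.d k93 k81 k174 1
  12)), (.s k86 k92 2 (.s k84 k87 0 (.s k166 k247 12 (.s k6 k246 11 (.s k7 k5 0 (.d k244 k164 k165
  11 12))))))] (.c k93 (.l (.s k12 k8 1 (.s k92 k86 2 (.s k252 k172 11 (.s k84 k168 13 (.s k88 k80 1
  (.d k164 k244 k240 11 13))))))) .n)) .n)) (.c k183 (.q k123 [(.s k81 k93 1 (.s k80 k82 0 (.s k86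
  k92 2 (.s k87 k84 0 (.d k95 k91 k90 1 2))))), (.s k93 k81 1 (.s k106 k72 4 (.s k127 k64 6 (.s k76
  k110 4 (.d k115 k119 k102 1 6))))), (.s k86 k92 2 (.s k84 k87 0 (.s k106 k72 4 (.s k169 k232 8 (.s
  k252 k168 13 (.d k253 k254 k1 0 13))))))] .n) .n)))) (.c k43 (.q k23 [(.s k81 k93 1 (.s k80 k82 0
  (.s k86 k92 2 (.s k87 k84 0 (.d k95 k91 k90 1 2))))), (.s k86 k92 2 (.s k84 k87 0 (.s k212 k149 8
  (.s k20 k148 7 (.s k22 k21 0 (.d k150 k214 k215 7 8)))))), (.s k81 k93 1 (.s k80 k82 0 (.s k240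
  k160 11 (.s k245 k250 2 (.s k165 k5 11 (.d k90 k95 k15 2 14))))))] (.c k123 (.q k183 [(.s k81 k93
  1 (.s k80 k82 0 (.s k86 k92 2 (.s k87 k84 0 (.d k95 k91 k90 1 2))))), (.s k86 k92 2 (.s k84 k87 0
  (.s k212 k149 8 (.s k20 k148 7 (.s k22 k21 0 (.d k150 k214 k215 7 8)))))), (.s k81 k93 1 (.s k80
  k82 0 (.s k240 k160 11 (.s k245 k250 2 (.s k165 k5 11 (.d k90 k95 k15 2 14))))))] .n) (.c k183 (.q
  k123 [(.s k81 k93 1 (.s k80 k82 0 (.s k86 k92 2 (.s k87 k84 0 (.d k95 k91 k90 1 2))))), (.s k93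
  k81 1 (.s k106 k72 4 (.s k127 k64 6 (.s k76 k110 4 (.d k115 k119 k102 1 6))))), (.s k86 k92 2 (.s
  k84 k87 0 (.s k212 k149 8 (.s k20 k148 7 (.s k22 k21 0 (.d k150 k214 k215 7 8))))))] .n) .n))) (.c
  k95 (.f k81 k93 1 (.l (.s k80 k82 0 (.s k92 k86 2 (.s k88 k84 1 (.s k90 k91 0 (.s k240 k160 11 (.s
  k245 k250 2 (.d k165 k15 k5 14 11))))))))) (.c k123 (.q k183 [(.s k81 k93 1 (.s k80 k82 0 (.s k86
  k92 2 (.s k87 k84 0 (.d k95 k91 k90 1 2))))), (.s k92 k86 2 (.s k93 k81 1 (.s k12 k174 12 (.s k94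
  k95 0 (.s k252 k172 11 (.s k173 k15 12 (.d k253 k254 k13 0 11))))))), (.s k81 k93 1 (.s k80 k82 0
  (.s k240 k160 11 (.s k245 k250 2 (.s k165 k5 11 (.d k90 k95 k15 2 14)))))), (.s k86 k92 2 (.s k87
  k84 0 (.s k95 k91 1 (.s k15 k175 11 (.s k5 k10 2 (.s k165 k245 11 (.d k90 k80 k240 2 14)))))))]
  (.c k23 (.q k43 [(.s k81 k93 1 (.s k80 k82 0 (.s k86 k92 2 (.s k87 k84 0 (.d k95 k91 k90 1 2))))),
  (.s k92 k86 2 (.s k93 k81 1 (.s k12 k174 12 (.s k94 k95 0 (.s k252 k172 11 (.s k173 k15 12 (.d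
  k253 k254 k13 0 11))))))), (.s k81 k93 1 (.s k80 k82 0 (.s k240 k160 11 (.s k245 k250 2 (.s k165
  k5 11 (.d k90 k95 k15 2 14)))))), (.s k86 k92 2 (.s k87 k84 0 (.s k95 k91 1 (.s k15 k175 11 (.s k5
  k10 2 (.s k165 k245 11 (.d k90 k80 k240 2 14)))))))] (.c k95 (.q k4 [(.s k12 k8 1 (.d k93 k81 k174
  1 12)), (.s k86 k92 2 (.s k84 k87 0 (.s k166 k247 12 (.s k6 k246 11 (.s k7 k5 0 (.d k244 k164 k165
  11 12))))))] (.c k93 (.l (.s k12 k8 1 (.s k92 k86 2 (.s k252 k172 11 (.s k84 k168 13 (.s k88 k80 1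
  (.d k164 k244 k240 11 13))))))) .n)) .n)) (.c k43 (.q k23 [(.s k81 k93 1 (.s k80 k82 0 (.s k86 k92
  2 (.s k87 k84 0 (.d k95 k91 k90 1 2))))), (.s k86 k92 2 (.s k84 k87 0 (.s k212 k149 8 (.s k20 k148
  7 (.s k22 k21 0 (.d k150 k214 k215 7 8)))))), (.s k81 k93 1 (.s k80 k82 0 (.s k240 k160 11 (.s
  k245 k250 2 (.s k165 k5 11 (.d k90 k95 k15 2 14))))))] .n) (.c k95 (.f k81 k93 1 (.l (.s k80 k82 0
  (.s k92 k86 2 (.s k88 k84 1 (.s k90 k91 0 (.s k240 k160 11 (.s k245 k250 2 (.d k165 k15 k5 14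
  11))))))))) .n)))) (.c k183 (.q k123 [(.s k81 k93 1 (.s k80 k82 0 (.s k86 k92 2 (.s k87 k84 0 (.d
  k95 k91 k90 1 2))))), (.s k93 k81 1 (.s k106 k72 4 (.s k127 k64 6 (.s k76 k110 4 (.d k115 k119
  k102 1 6))))), (.s k86 k92 2 (.s k87 k84 0 (.s k106 k72 4 (.s k127 k64 6 (.s k67 k107 5 (.d k115
  k119 k99 1 3))))))] (.c k23 (.q k43 [(.s k81 k93 1 (.s k80 k82 0 (.s k86 k92 2 (.s k87 k84 0 (.d
  k95 k91 k90 1 2))))), (.s k93 k81 1 (.s k106 k72 4 (.s k127 k64 6 (.s k76 k110 4 (.d k115 k119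
  k102 1 6))))), (.s k86 k92 2 (.s k84 k87 0 (.s k106 k72 4 (.s k169 k232 8 (.s k252 k168 13 (.d
  k253 k254 k1 0 13))))))] .n) (.c k43 (.q k23 [(.s k81 k93 1 (.s k80 k82 0 (.s k86 k92 2 (.s k87
  k84 0 (.d k95 k91 k90 1 2))))), (.s k93 k81 1 (.s k106 k72 4 (.s k127 k64 6 (.s k76 k110 4 (.d
  k115 k119 k102 1 6))))), (.s k86 k92 2 (.s k84 k87 0 (.s k212 k149 8 (.s k20 k148 7 (.s k22 k21 0
  (.d k150 k214 k215 7 8))))))] .n) .n))) .n)))))) (.c k247 (.f k81 k93 1 (.q k102 [(.s k115 k76 6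
  (.s k64 k98 4 (.s k119 k68 4 (.d k127 k123 k106 1 6)))), (.s k68 k119 4 (.s k204 k136 9 (.s k153
  k51 14 (.d k221 k238 k17 4 9)))), (.s k115 k76 6 (.s k243 k162 12 (.s k51 k179 7 (.s k17 k34 4 (.d
  k153 k221 k204 9 14)))))] (.c k23 (.q k43 [(.s k115 k76 6 (.s k64 k98 4 (.s k119 k68 4 (.d k127
  k123 k106 1 6)))), (.s k68 k119 4 (.s k204 k136 9 (.s k153 k51 14 (.d k221 k238 k17 4 9)))), (.s
  k115 k76 6 (.s k243 k162 12 (.s k51 k179 7 (.s k17 k34 4 (.d k153 k221 k204 9 14)))))] .n) (.c k43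
  (.q k23 [(.s k115 k76 6 (.s k64 k98 4 (.s k119 k68 4 (.d k127 k123 k106 1 6)))), (.s k68 k119 4
  (.s k204 k136 9 (.s k153 k51 14 (.d k221 k238 k17 4 9)))), (.s k115 k76 6 (.s k243 k162 12 (.s k51
  k179 7 (.s k17 k34 4 (.d k153 k221 k204 9 14)))))] .n) .n)))) (.c k251 (.l (.s k93 k81 1 (.s k12
  k174 12 (.s k4 k8 1 (.d k166 k247 k243 12 14))))) .n))))))))))))))

def t3_86 : T TT 256 :=
  (.q k102 [(.s k68 k119 4 (.s k204 k136 9 (.s k153 k51 14 (.s k221 k17 9 (.d k255 k238 k170 4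
  14))))), (.s k119 k68 4 (.s k255 k170 14 (.s k51 k187 9 (.s k153 k204 14 (.d k17 k34 k221 4
  9)))))] (.c k17 (.f k68 k119 4 (.q k84 [(.s k204 k136 9 (.s k252 k168 13 (.s k220 k236 3 (.s k152
  k16 9 (.d k100 k116 k48 3 13))))), (.s k100 k116 3 (.s k101 k103 0 (.s k170 k255 14 (.s k32 k239
  10 (.d k168 k252 k236 13 9))))), (.s k204 k136 9 (.s k252 k168 13 (.s k236 k220 3 (.s k169 k35 10
  (.s k253 k1 13 (.d k255 k254 k170 0 14)))))), (.s k100 k116 3 (.s k101 k103 0 (.s k117 k69 3 (.s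
  k204 k136 9 (.s k255 k170 14 (.d k48 k186 k152 10 13))))))] (.c k169 (.l (.s k252 k168 13 (.s k100
  k116 3 (.s k204 k136 9 (.s k152 k48 13 (.d k220 k236 k16 3 9)))))) (.c k252 (.q k169 [(.s k100
  k116 3 (.s k101 k103 0 (.s k117 k69 3 (.s k204 k136 9 (.s k48 k152 13 (.d k255 k186 k170 10
  14)))))), (.s k35 k236 10 (.s k170 k255 14 (.s k34 k238 9 (.s k32 k33 0 (.s k171 k168 0 (.d k239
  k103 k101 9 10)))))), (.s k100 k116 3 (.s k204 k136 9 (.s k48 k152 13 (.s k32 k16 3 (.d k236 k168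
  k35 9 10))))), (.s k35 k236 10 (.s k170 k255 14 (.s k34 k238 9 (.s k32 k33 0 (.s k48 k16 3 (.s
  k204 k136 9 (.d k100 k116 k152 3 13)))))))] (.c k48 (.l (.s k35 k236 10 (.s k170 k255 14 (.s k171
  k168 0 (.s k103 k239 9 (.d k100 k101 k116 0 3)))))) (.c k204 (.l (.s k100 k116 3 (.s k170 k255 14
  (.s k236 k35 10 (.d k168 k171 k32 0 9))))) .n))) .n)))) (.c k51 (.f k119 k68 4 (.q k128 [(.s k170
  k255 14 (.s k149 k191 6 (.s k21 k213 7 (.s k63 k42 6 (.d k192 k64 k106 7 14))))), (.s k64 k192 7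
  (.s k127 k106 6 (.s k115 k123 1 (.s k89 k76 6 (.d k81 k98 k93 4 1))))), (.s k170 k255 14 (.s k149
  k191 6 (.s k55 k196 12 (.s k247 k183 7 (.s k4 k166 12 (.d k21 k38 k213 4 7))))))] (.c k19 (.q k35
  [(.s k170 k255 14 (.s k149 k191 6 (.s k21 k213 7 (.s k63 k42 6 (.d k192 k64 k106 7 14))))), (.s
  k169 k236 10 (.s k170 k255 14 (.s k34 k238 9 (.s k32 k33 0 (.s k171 k168 0 (.d k239 k103 k101 9
  10)))))), (.s k64 k192 7 (.s k127 k106 6 (.s k115 k123 1 (.s k89 k76 6 (.d k81 k98 k93 4 1)))))]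
  (.c k153 (.q k220 [(.s k170 k255 14 (.s k149 k191 6 (.s k21 k213 7 (.s k63 k42 6 (.d k192 k64 k106
  7 14))))), (.s k169 k236 10 (.s k170 k255 14 (.s k34 k238 9 (.s k32 k33 0 (.s k171 k168 0 (.d k239
  k103 k101 9 10)))))), (.s k64 k192 7 (.s k127 k106 6 (.s k115 k123 1 (.s k89 k76 6 (.d k81 k98 k93
  4 1)))))] (.c k169 (.q k252 [(.s k64 k192 7 (.s k127 k106 6 (.s k115 k123 1 (.s k89 k76 6 (.d k81
  k98 k93 4 1))))), (.s k84 k168 13 (.s k16 k152 9 (.s k32 k48 3 (.s k170 k255 14 (.d k34 k33 k238 0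
  9)))))] (.c k137 (.q k185 [(.s k204 k236 3 (.s k170 k255 14 (.s k149 k191 6 (.s k192 k64 7 (.d
  k196 k200 k55 1 12))))), (.s k84 k168 13 (.s k16 k152 9 (.s k32 k48 3 (.s k170 k255 14 (.d k34 k33
  k238 0 9))))), (.s k64 k192 7 (.s k127 k106 6 (.s k115 k123 1 (.s k89 k76 6 (.d k81 k98 k93 4
  1)))))] (.c k70 (.l (.s k204 k236 3 (.s k170 k255 14 (.s k149 k191 6 (.s k192 k64 7 (.d k196 k200
  k55 1 12)))))) (.c k204 (.q k70 [(.s k170 k255 14 (.s k149 k191 6 (.s k21 k213 7 (.s k63 k42 6 (.d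
  k192 k64 k106 7 14))))), (.s k168 k84 13 (.s k148 k188 5 (.s k192 k64 7 (.s k104 k60 13 (.d k232
  k212 k40 5 7))))), (.s k84 k168 13 (.s k16 k152 9 (.s k48 k32 3 (.s k184 k116 9 (.s k186 k187 0
  (.d k255 k170 k117 14 10))))))] .n) .n))) (.c k185 (.q k137 [(.s k64 k192 7 (.s k127 k106 6 (.s
  k115 k123 1 (.s k89 k76 6 (.d k81 k98 k93 4 1))))), (.s k84 k168 13 (.s k16 k152 9 (.s k32 k48 3
  (.s k170 k255 14 (.d k34 k33 k238 0 9)))))] .n) .n))) (.c k252 (.l (.s k169 k236 10 (.s k64 k192 7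
  (.s k127 k106 6 (.s k115 k123 1 (.s k89 k76 6 (.d k81 k98 k93 4 1))))))) .n))) (.c k169 (.q k252
  [(.s k170 k255 14 (.s k149 k191 6 (.s k21 k213 7 (.s k63 k42 6 (.d k192 k64 k106 7 14))))), (.s
  k168 k84 13 (.s k148 k188 5 (.s k192 k64 7 (.s k104 k60 13 (.d k232 k212 k40 5 7))))), (.s k168
  k84 13 (.s k170 k255 14 (.s k34 k238 9 (.s k32 k33 0 (.s k100 k236 9 (.d k101 k239 k103 10
  0))))))] (.c k153 (.q k220 [(.s k64 k192 7 (.s k127 k106 6 (.s k115 k123 1 (.s k89 k76 6 (.d k81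
  k98 k93 4 1))))), (.s k84 k168 13 (.s k16 k152 9 (.s k32 k48 3 (.s k170 k255 14 (.d k34 k33 k238 0
  9)))))] (.c k137 (.q k185 [(.s k204 k236 3 (.s k170 k255 14 (.s k149 k191 6 (.s k192 k64 7 (.d
  k196 k200 k55 1 12))))), (.s k84 k168 13 (.s k16 k152 9 (.s k32 k48 3 (.s k170 k255 14 (.d k34 k33
  k238 0 9))))), (.s k64 k192 7 (.s k127 k106 6 (.s k115 k123 1 (.s k89 k76 6 (.d k81 k98 k93 4
  1)))))] (.c k70 (.l (.s k204 k236 3 (.s k170 k255 14 (.s k149 k191 6 (.s k192 k64 7 (.d k196 k200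
  k55 1 12)))))) (.c k204 (.q k70 [(.s k170 k255 14 (.s k149 k191 6 (.s k21 k213 7 (.s k63 k42 6 (.d
  k192 k64 k106 7 14))))), (.s k168 k84 13 (.s k148 k188 5 (.s k192 k64 7 (.s k104 k60 13 (.d k232
  k212 k40 5 7))))), (.s k84 k168 13 (.s k16 k152 9 (.s k48 k32 3 (.s k184 k116 9 (.s k186 k187 0
  (.d k255 k170 k117 14 10))))))] .n) .n))) (.c k185 (.q k137 [(.s k64 k192 7 (.s k127 k106 6 (.s
  k115 k123 1 (.s k89 k76 6 (.d k81 k98 k93 4 1))))), (.s k84 k168 13 (.s k16 k152 9 (.s k32 k48 3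
  (.s k170 k255 14 (.d k34 k33 k238 0 9)))))] .n) .n))) (.c k220 (.q k153 [(.s k170 k255 14 (.s k149
  k191 6 (.s k21 k213 7 (.s k63 k42 6 (.d k192 k64 k106 7 14))))), (.s k168 k84 13 (.s k148 k188 5
  (.s k192 k64 7 (.s k104 k60 13 (.d k232 k212 k40 5 7))))), (.s k17 k221 9 (.s k170 k255 14 (.s
  k149 k191 6 (.s k145 k157 1 (.s k81 k209 7 (.d k162 k179 k243 4 12))))))] .n) .n))) (.c k220 (.q
  k153 [(.s k170 k255 14 (.s k149 k191 6 (.s k21 k213 7 (.s k63 k42 6 (.d k192 k64 k106 7 14))))),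
  (.s k17 k221 9 (.s k169 k236 10 (.s k1 k253 13 (.s k33 k49 3 (.s k34 k32 0 (.d k170 k238 k255 9
  14)))))), (.s k64 k192 7 (.s k127 k106 6 (.s k115 k123 1 (.s k89 k76 6 (.d k81 k98 k93 4 1)))))]
  (.c k169 (.q k252 [(.s k170 k255 14 (.s k149 k191 6 (.s k21 k213 7 (.s k63 k42 6 (.d k192 k64 k106
  7 14))))), (.s k168 k84 13 (.s k148 k188 5 (.s k192 k64 7 (.s k104 k60 13 (.d k232 k212 k40 5
  7))))), (.s k17 k221 9 (.s k170 k255 14 (.s k149 k191 6 (.s k145 k157 1 (.s k81 k209 7 (.d k162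
  k179 k243 4 12))))))] .n) (.c k252 (.f k169 k236 10 (.q k204 [(.s k221 k17 9 (.d k255 k238 k170 4
  14)), (.s k64 k192 7 (.s k127 k106 6 (.s k115 k123 1 (.s k89 k76 6 (.d k81 k98 k93 4 1)))))] (.c
  k118 (.l (.s k185 k137 3 (.s k221 k17 9 (.d k255 k238 k170 4 14)))) (.c k185 (.q k118 [(.s k221
  k17 9 (.d k255 k238 k170 4 14)), (.s k170 k255 14 (.s k149 k191 6 (.s k192 k64 7 (.d k196 k200 k55
  1 12)))), (.s k17 k221 9 (.s k117 k116 0 (.s k101 k69 3 (.s k33 k237 9 (.d k1 k253 k49 13 3)))))]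
  .n) .n)))) .n))) (.c k252 (.l (.s k169 k236 10 (.s k64 k192 7 (.s k127 k106 6 (.s k115 k123 1 (.s
  k89 k76 6 (.d k81 k98 k93 4 1))))))) .n))))) (.c k35 (.q k19 [(.s k170 k255 14 (.s k149 k191 6 (.s
  k21 k213 7 (.s k63 k42 6 (.d k192 k64 k106 7 14))))), (.s k64 k192 7 (.s k127 k106 6 (.s k115 k123
  1 (.s k89 k76 6 (.d k81 k98 k93 4 1))))), (.s k170 k255 14 (.s k149 k191 6 (.s k55 k196 12 (.s
  k247 k183 7 (.s k4 k166 12 (.d k21 k38 k213 4 7))))))] (.c k63 (.l (.s k64 k192 7 (.s k170 k255 14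
  (.s k127 k106 6 (.s k149 k191 6 (.s k115 k123 1 (.s k89 k76 6 (.d k81 k98 k93 4 1)))))))) (.c k127
  (.l (.s k170 k255 14 (.s k192 k64 7 (.s k149 k191 6 (.s k63 k106 14 (.d k21 k42 k213 6 7)))))) (.c
  k149 (.l (.s k64 k192 7 (.s k106 k127 6 (.s k98 k110 1 (.s k81 k115 4 (.s k170 k255 14 (.s k34
  k238 9 (.d k162 k243 k226 12 7)))))))) (.c k169 (.q k252 [(.s k170 k255 14 (.s k149 k191 6 (.s k21
  k213 7 (.s k63 k42 6 (.d k192 k64 k106 7 14))))), (.s k168 k84 13 (.s k148 k188 5 (.s k192 k64 7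
  (.s k104 k60 13 (.d k232 k212 k40 5 7))))), (.s k170 k255 14 (.s k149 k191 6 (.s k55 k196 12 (.s
  k247 k183 7 (.s k4 k166 12 (.d k21 k38 k213 4 7))))))] .n) (.c k252 (.q k169 [(.s k170 k255 14 (.s
  k149 k191 6 (.s k21 k213 7 (.s k63 k42 6 (.d k192 k64 k106 7 14))))), (.s k64 k192 7 (.s k127 k106
  6 (.s k115 k123 1 (.s k89 k76 6 (.d k81 k98 k93 4 1))))), (.s k170 k255 14 (.s k171 k168 0 (.s
  k191 k149 6 (.s k131 k151 5 (.s k130 k129 0 (.d k150 k190 k188 5 6))))))] (.c k118 (.q k185 [(.s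
  k153 k137 3 (.s k221 k17 9 (.s k253 k1 13 (.s k49 k117 9 (.d k205 k237 k101 3 13))))), (.s k64
  k192 7 (.s k127 k106 6 (.s k115 k123 1 (.s k89 k76 6 (.d k81 k98 k93 4 1)))))] .n) (.c k149 (.l
  (.s k64 k192 7 (.s k106 k127 6 (.s k98 k110 1 (.s k81 k115 4 (.s k170 k255 14 (.s k34 k238 9 (.d
  k162 k243 k226 12 7)))))))) (.c k185 (.q k118 [(.s k170 k255 14 (.s k149 k191 6 (.s k21 k213 7 (.s
  k63 k42 6 (.d k192 k64 k106 7 14))))), (.s k117 k116 0 (.s k101 k69 3 (.s k255 k170 14 (.s k48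
  k186 10 (.s k16 k32 3 (.d k154 k223 k207 10 14)))))), (.s k64 k192 7 (.s k127 k106 6 (.s k115 k123
  1 (.s k89 k76 6 (.d k81 k98 k93 4 1)))))] .n) (.c k192 (.l (.s k170 k255 14 (.s k149 k191 6 (.s
  k55 k196 12 (.s k247 k183 7 (.s k4 k166 12 (.d k21 k213 k38 7 4))))))) .n))))) .n)))))) (.c k63
  (.l (.s k64 k192 7 (.s k170 k255 14 (.s k127 k106 6 (.s k149 k191 6 (.s k115 k123 1 (.s k89 k76 6
  (.d k81 k98 k93 4 1)))))))) (.c k127 (.l (.s k170 k255 14 (.s k192 k64 7 (.s k149 k191 6 (.s k63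
  k106 14 (.d k21 k42 k213 6 7)))))) (.c k149 (.l (.s k64 k192 7 (.s k106 k127 6 (.s k98 k110 1 (.s
  k81 k115 4 (.s k170 k255 14 (.s k34 k238 9 (.d k162 k243 k226 12 7)))))))) (.c k169 (.q k252 [(.s
  k170 k255 14 (.s k149 k191 6 (.s k21 k213 7 (.s k63 k42 6 (.d k192 k64 k106 7 14))))), (.s k168
  k84 13 (.s k148 k188 5 (.s k192 k64 7 (.s k104 k60 13 (.d k232 k212 k40 5 7))))), (.s k170 k255 14
  (.s k149 k191 6 (.s k55 k196 12 (.s k247 k183 7 (.s k4 k166 12 (.d k21 k38 k213 4 7))))))] (.c k19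
  (.q k35 [(.s k170 k255 14 (.s k149 k191 6 (.s k21 k213 7 (.s k63 k42 6 (.d k192 k64 k106 7
  14))))), (.s k168 k84 13 (.s k148 k188 5 (.s k192 k64 7 (.s k104 k60 13 (.d k232 k212 k40 5
  7))))), (.s k168 k84 13 (.s k170 k255 14 (.s k34 k238 9 (.s k32 k33 0 (.s k100 k236 9 (.d k101
  k239 k103 10 0))))))] (.c k153 (.q k220 [(.s k64 k192 7 (.s k127 k106 6 (.s k115 k123 1 (.s k89
  k76 6 (.d k81 k98 k93 4 1))))), (.s k84 k168 13 (.s k16 k152 9 (.s k32 k48 3 (.s k170 k255 14 (.d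
  k34 k33 k238 0 9)))))] (.c k137 (.q k185 [(.s k204 k236 3 (.s k170 k255 14 (.s k149 k191 6 (.s
  k192 k64 7 (.d k196 k200 k55 1 12))))), (.s k84 k168 13 (.s k16 k152 9 (.s k32 k48 3 (.s k170 k255
  14 (.d k34 k33 k238 0 9))))), (.s k64 k192 7 (.s k127 k106 6 (.s k115 k123 1 (.s k89 k76 6 (.d k81
  k98 k93 4 1)))))] (.c k70 (.l (.s k204 k236 3 (.s k170 k255 14 (.s k149 k191 6 (.s k192 k64 7 (.d
  k196 k200 k55 1 12)))))) (.c k204 (.q k70 [(.s k170 k255 14 (.s k149 k191 6 (.s k21 k213 7 (.s k63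
  k42 6 (.d k192 k64 k106 7 14))))), (.s k168 k84 13 (.s k148 k188 5 (.s k192 k64 7 (.s k104 k60 13
  (.d k232 k212 k40 5 7))))), (.s k84 k168 13 (.s k16 k152 9 (.s k48 k32 3 (.s k184 k116 9 (.s k186
  k187 0 (.d k255 k170 k117 14 10))))))] .n) .n))) (.c k185 (.q k137 [(.s k64 k192 7 (.s k127 k106 6
  (.s k115 k123 1 (.s k89 k76 6 (.d k81 k98 k93 4 1))))), (.s k84 k168 13 (.s k16 k152 9 (.s k32 k48
  3 (.s k170 k255 14 (.d k34 k33 k238 0 9)))))] .n) .n))) (.c k220 (.q k153 [(.s k170 k255 14 (.s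
  k149 k191 6 (.s k21 k213 7 (.s k63 k42 6 (.d k192 k64 k106 7 14))))), (.s k168 k84 13 (.s k148
  k188 5 (.s k192 k64 7 (.s k104 k60 13 (.d k232 k212 k40 5 7))))), (.s k17 k221 9 (.s k170 k255 14
  (.s k149 k191 6 (.s k145 k157 1 (.s k81 k209 7 (.d k162 k179 k243 4 12))))))] .n) .n))) (.c k35
  (.q k19 [(.s k170 k255 14 (.s k149 k191 6 (.s k21 k213 7 (.s k63 k42 6 (.d k192 k64 k106 7
  14))))), (.s k168 k84 13 (.s k148 k188 5 (.s k192 k64 7 (.s k104 k60 13 (.d k232 k212 k40 5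
  7))))), (.s k170 k255 14 (.s k149 k191 6 (.s k55 k196 12 (.s k247 k183 7 (.s k4 k166 12 (.d k21
  k38 k213 4 7))))))] .n) .n))) (.c k252 (.q k169 [(.s k170 k255 14 (.s k149 k191 6 (.s k21 k213 7
  (.s k63 k42 6 (.d k192 k64 k106 7 14))))), (.s k64 k192 7 (.s k127 k106 6 (.s k115 k123 1 (.s k89
  k76 6 (.d k81 k98 k93 4 1))))), (.s k35 k236 10 (.s k170 k255 14 (.s k34 k238 9 (.s k32 k33 0 (.s
  k171 k168 0 (.d k239 k103 k101 9 10))))))] (.c k19 (.l (.s k35 k236 10 (.s k64 k192 7 (.s k127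
  k106 6 (.s k115 k123 1 (.s k89 k76 6 (.d k81 k98 k93 4 1))))))) (.c k35 (.q k19 [(.s k170 k255 14
  (.s k149 k191 6 (.s k21 k213 7 (.s k63 k42 6 (.d k192 k64 k106 7 14))))), (.s k64 k192 7 (.s k127
  k106 6 (.s k115 k123 1 (.s k89 k76 6 (.d k81 k98 k93 4 1))))), (.s k170 k255 14 (.s k171 k168 0
  (.s k191 k149 6 (.s k131 k151 5 (.s k130 k129 0 (.d k150 k190 k188 5 6))))))] (.c k118 (.q k185
  [(.s k153 k137 3 (.s k221 k17 9 (.s k253 k1 13 (.s k49 k117 9 (.d k205 k237 k101 3 13))))), (.s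
  k64 k192 7 (.s k127 k106 6 (.s k115 k123 1 (.s k89 k76 6 (.d k81 k98 k93 4 1)))))] .n) (.c k149
  (.l (.s k64 k192 7 (.s k106 k127 6 (.s k98 k110 1 (.s k81 k115 4 (.s k170 k255 14 (.s k34 k238 9
  (.d k162 k243 k226 12 7)))))))) (.c k185 (.q k118 [(.s k170 k255 14 (.s k149 k191 6 (.s k21 k213 7
  (.s k63 k42 6 (.d k192 k64 k106 7 14))))), (.s k117 k116 0 (.s k101 k69 3 (.s k255 k170 14 (.s k48
  k186 10 (.s k16 k32 3 (.d k154 k223 k207 10 14)))))), (.s k64 k192 7 (.s k127 k106 6 (.s k115 k123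
  1 (.s k89 k76 6 (.d k81 k98 k93 4 1)))))] .n) (.c k192 (.l (.s k170 k255 14 (.s k149 k191 6 (.s
  k55 k196 12 (.s k247 k183 7 (.s k4 k166 12 (.d k21 k213 k38 7 4))))))) .n))))) (.c k118 (.q k185
  [(.s k153 k137 3 (.s k221 k17 9 (.s k253 k1 13 (.s k49 k117 9 (.d k205 k237 k101 3 13))))), (.s
  k64 k192 7 (.s k127 k106 6 (.s k115 k123 1 (.s k89 k76 6 (.d k81 k98 k93 4 1)))))] (.c k19 (.l (.s
  k35 k236 10 (.s k64 k192 7 (.s k127 k106 6 (.s k115 k123 1 (.s k89 k76 6 (.d k81 k98 k93 4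
  1))))))) (.c k35 (.q k19 [(.s k153 k137 3 (.s k221 k17 9 (.s k253 k1 13 (.s k49 k117 9 (.d k205
  k237 k101 3 13))))), (.s k64 k192 7 (.s k127 k106 6 (.s k115 k123 1 (.s k89 k76 6 (.d k81 k98 k93
  4 1)))))] .n) .n))) (.c k185 (.q k118 [(.s k170 k255 14 (.s k149 k191 6 (.s k21 k213 7 (.s k63 k42
  6 (.d k192 k64 k106 7 14))))), (.s k35 k236 10 (.s k117 k116 0 (.s k101 k69 3 (.s k33 k237 9 (.s
  k32 k34 0 (.d k170 k239 k255 10 14)))))), (.s k64 k192 7 (.s k127 k106 6 (.s k115 k123 1 (.s k89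
  k76 6 (.d k81 k98 k93 4 1)))))] (.c k19 (.l (.s k35 k236 10 (.s k64 k192 7 (.s k127 k106 6 (.s
  k115 k123 1 (.s k89 k76 6 (.d k81 k98 k93 4 1))))))) (.c k35 (.q k19 [(.s k170 k255 14 (.s k149
  k191 6 (.s k21 k213 7 (.s k63 k42 6 (.d k192 k64 k106 7 14))))), (.s k117 k116 0 (.s k101 k69 3
  (.s k255 k170 14 (.s k48 k186 10 (.s k16 k32 3 (.d k154 k223 k207 10 14)))))), (.s k64 k192 7 (.s
  k127 k106 6 (.s k115 k123 1 (.s k89 k76 6 (.d k81 k98 k93 4 1)))))] .n) .n))) .n))))) .n)))))))))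
  (.c k68 (.q k60 [(.s k20 k40 5 (.s k150 k215 8 (.s k54 k198 11 (.s k51 k57 2 (.s k17 k34 4 (.d
  k153 k221 k204 9 14)))))), (.s k20 k40 5 (.s k150 k215 8 (.s k105 k195 14 (.s k125 k65 5 (.d k255
  k190 k170 8 14))))), (.s k170 k255 14 (.s k34 k238 9 (.s k51 k17 4 (.s k54 k57 2 (.s k150 k198 11
  (.s k130 k190 5 (.d k195 k65 k105 8 14)))))))] (.c k150 (.l (.s k40 k20 5 (.s k170 k255 14 (.s k34
  k238 9 (.s k51 k17 4 (.s k57 k54 2 (.s k105 k235 8 (.d k153 k204 k201 14 11)))))))) (.c k169 (.q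
  k252 [(.s k20 k40 5 (.s k150 k215 8 (.s k105 k195 14 (.s k125 k65 5 (.d k255 k190 k170 8 14))))),
  (.s k40 k20 5 (.s k168 k84 13 (.s k104 k232 7 (.s k148 k192 13 (.d k188 k128 k124 5 7))))), (.s
  k124 k188 7 (.s k255 k170 14 (.s k125 k190 8 (.s k126 k127 0 (.s k189 k63 8 (.d k253 k254 k61 0
  7))))))] .n) (.c k252 (.q k169 [(.s k20 k40 5 (.s k150 k215 8 (.s k54 k198 11 (.s k51 k57 2 (.s
  k17 k34 4 (.d k153 k221 k204 9 14)))))), (.s k20 k40 5 (.s k150 k215 8 (.s k105 k195 14 (.s k125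
  k65 5 (.d k255 k190 k170 8 14))))), (.s k35 k236 10 (.s k170 k255 14 (.s k34 k238 9 (.s k17 k51 4
  (.s k33 k32 0 (.d k1 k253 k49 13 3))))))] .n) .n)))) (.c k119 (.q k60 [(.s k20 k40 5 (.s k150 k215
  8 (.s k54 k198 11 (.s k51 k57 2 (.s k17 k34 4 (.d k153 k221 k204 9 14)))))), (.s k20 k40 5 (.s
  k150 k215 8 (.s k105 k195 14 (.s k125 k65 5 (.d k255 k190 k170 8 14))))), (.s k170 k255 14 (.s k34
  k238 9 (.s k51 k17 4 (.s k54 k57 2 (.s k150 k198 11 (.s k130 k190 5 (.d k195 k65 k105 8 14)))))))]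
  (.c k150 (.l (.s k40 k20 5 (.s k170 k255 14 (.s k34 k238 9 (.s k51 k17 4 (.s k57 k54 2 (.s k105
  k235 8 (.d k153 k204 k201 14 11)))))))) (.c k169 (.q k252 [(.s k20 k40 5 (.s k150 k215 8 (.s k105
  k195 14 (.s k125 k65 5 (.d k255 k190 k170 8 14))))), (.s k40 k20 5 (.s k168 k84 13 (.s k104 k232 7
  (.s k148 k192 13 (.d k188 k128 k124 5 7))))), (.s k124 k188 7 (.s k255 k170 14 (.s k125 k190 8 (.s
  k126 k127 0 (.s k189 k63 8 (.d k253 k254 k61 0 7))))))] .n) (.c k252 (.q k169 [(.s k20 k40 5 (.s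
  k150 k215 8 (.s k54 k198 11 (.s k51 k57 2 (.s k17 k34 4 (.d k153 k221 k204 9 14)))))), (.s k20 k40
  5 (.s k150 k215 8 (.s k105 k195 14 (.s k125 k65 5 (.d k255 k190 k170 8 14))))), (.s k35 k236 10
  (.s k170 k255 14 (.s k34 k238 9 (.s k32 k33 0 (.s k171 k168 0 (.d k239 k103 k101 9 10))))))] .n)
  .n)))) (.c k136 (.l (.s k119 k68 4 (.s k255 k170 14 (.s k51 k187 9 (.s k153 k204 14 (.d k17 k34
  k221 4 9)))))) (.c k153 (.q k150 [(.s k20 k215 8 (.s k60 k40 5 (.s k105 k195 14 (.s k125 k65 5 (.d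
  k255 k190 k170 8 14))))), (.s k68 k119 4 (.s k170 k255 14 (.s k198 k54 11 (.s k204 k136 9 (.s k195
  k201 2 (.d k130 k190 k65 5 8)))))), (.s k20 k215 8 (.s k54 k198 11 (.s k60 k40 5 (.s k51 k57 2 (.s
  k34 k17 4 (.d k170 k238 k255 9 14))))))] (.c k19 (.q k220 [(.s k20 k215 8 (.s k60 k40 5 (.s k105
  k195 14 (.s k125 k65 5 (.d k255 k190 k170 8 14))))), (.s k68 k119 4 (.s k170 k255 14 (.s k198 k54
  11 (.s k204 k136 9 (.s k195 k201 2 (.d k130 k190 k65 5 8)))))), (.s k20 k215 8 (.s k54 k198 11 (.s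
  k60 k40 5 (.s k51 k57 2 (.s k34 k17 4 (.d k170 k238 k255 9 14))))))] (.c k35 (.q k51 [(.s k119 k68
  4 (.d k255 k187 k170 9 14)), (.s k20 k215 8 (.s k54 k198 11 (.d k60 k57 k40 2 5)))] (.c k169 (.q
  k252 [(.s k68 k119 4 (.d k204 k236 k136 3 9)), (.s k34 k17 4 (.d k170 k238 k255 9 14))] (.c k137
  (.l (.s k185 k118 10 (.s k34 k17 4 (.d k170 k238 k255 9 14)))) (.c k185 (.q k137 [(.s k68 k119 4
  (.d k204 k236 k136 3 9)), (.s k34 k17 4 (.d k170 k238 k255 9 14))] .n) .n))) (.c k252 (.q k169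
  [(.s k119 k68 4 (.d k255 k187 k170 9 14)), (.s k20 k215 8 (.s k54 k198 11 (.d k60 k57 k40 2 5)))]
  .n) .n))) (.c k51 (.q k35 [(.s k68 k119 4 (.s k204 k136 9 (.d k236 k252 k169 3 10))), (.s k20 k215
  8 (.s k60 k40 5 (.s k105 k195 14 (.s k125 k65 5 (.d k255 k190 k170 8 14)))))] (.c k169 (.q k252
  [(.s k204 k236 3 (.d k68 k119 k136 4 9)), (.s k20 k215 8 (.s k60 k40 5 (.s k105 k195 14 (.s k125
  k65 5 (.d k255 k190 k170 8 14)))))] (.c k137 (.q k185 [(.s k204 k236 3 (.d k68 k119 k136 4 9)),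
  (.s k20 k215 8 (.s k60 k40 5 (.s k105 k195 14 (.s k125 k65 5 (.d k255 k190 k170 8 14)))))] (.c k70
  (.l (.s k204 k236 3 (.d k68 k119 k136 4 9))) (.c k204 (.q k70 [(.s k20 k215 8 (.s k60 k40 5 (.s
  k84 k168 13 (.s k124 k188 7 (.s k104 k64 5 (.d k148 k212 k192 7 13)))))), (.s k68 k119 4 (.s k69
  k71 0 (.s k84 k168 13 (.s k100 k116 3 (.d k101 k103 k117 0 3))))), (.s k20 k215 8 (.s k60 k40 5
  (.s k188 k124 7 (.s k182 k179 2 (.s k198 k54 11 (.d k134 k166 k6 3 7))))))] .n) .n))) (.c k185 (.q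
  k137 [(.s k204 k236 3 (.d k68 k119 k136 4 9)), (.s k20 k215 8 (.s k60 k40 5 (.s k105 k195 14 (.s
  k125 k65 5 (.d k255 k190 k170 8 14)))))] .n) .n))) (.c k170 (.f k20 k215 8 (.l (.s k60 k40 5 (.s
  k105 k195 14 (.s k99 k108 2 (.s k169 k236 10 (.s k41 k233 7 (.s k44 k38 2 (.d k227 k163 k166 7
  10))))))))) (.c k252 (.l (.s k169 k236 10 (.s k20 k215 8 (.s k60 k40 5 (.s k105 k195 14 (.s k125
  k65 5 (.d k255 k190 k170 8 14))))))) (.c k255 (.f k20 k215 8 (.l (.s k60 k40 5 (.s k236 k169 10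
  (.s k252 k204 3 (.s k84 k168 13 (.s k124 k188 7 (.s k104 k64 5 (.d k148 k212 k192 7 13)))))))))
  .n))))) (.c k105 (.l (.s k20 k215 8 (.s k54 k198 11 (.s k60 k40 5 (.s k170 k255 14 (.s k34 k238 9
  (.d k51 k57 k17 2 4))))))) (.c k169 (.q k252 [(.s k68 k119 4 (.d k204 k236 k136 3 9)), (.s k20
  k215 8 (.s k60 k40 5 (.s k105 k195 14 (.s k125 k65 5 (.d k255 k190 k170 8 14)))))] (.c k35 (.q k51
  [(.s k68 k119 4 (.d k204 k236 k136 3 9)), (.s k34 k17 4 (.d k170 k238 k255 9 14))] (.c k137 (.l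
  (.s k185 k118 10 (.s k34 k17 4 (.d k170 k238 k255 9 14)))) (.c k185 (.q k137 [(.s k68 k119 4 (.d
  k204 k236 k136 3 9)), (.s k34 k17 4 (.d k170 k238 k255 9 14))] .n) .n))) (.c k51 (.q k35 [(.s k204
  k236 3 (.d k68 k119 k136 4 9)), (.s k20 k215 8 (.s k60 k40 5 (.s k105 k195 14 (.s k125 k65 5 (.d
  k255 k190 k170 8 14)))))] (.c k137 (.q k185 [(.s k204 k236 3 (.d k68 k119 k136 4 9)), (.s k20 k215
  8 (.s k60 k40 5 (.s k105 k195 14 (.s k125 k65 5 (.d k255 k190 k170 8 14)))))] (.c k70 (.l (.s k204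
  k236 3 (.d k68 k119 k136 4 9))) (.c k204 (.q k70 [(.s k20 k215 8 (.s k60 k40 5 (.s k84 k168 13 (.s
  k124 k188 7 (.s k104 k64 5 (.d k148 k212 k192 7 13)))))), (.s k68 k119 4 (.s k69 k71 0 (.s k84
  k168 13 (.s k100 k116 3 (.d k101 k103 k117 0 3))))), (.s k20 k215 8 (.s k60 k40 5 (.s k188 k124 7
  (.s k182 k179 2 (.s k198 k54 11 (.d k134 k166 k6 3 7))))))] .n) .n))) (.c k185 (.q k137 [(.s k204
  k236 3 (.d k68 k119 k136 4 9)), (.s k20 k215 8 (.s k60 k40 5 (.s k105 k195 14 (.s k125 k65 5 (.d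
  k255 k190 k170 8 14)))))] .n) .n))) (.c k137 (.q k185 [(.s k68 k119 4 (.d k204 k236 k136 3 9)),
  (.s k51 k118 10 (.s k34 k17 4 (.d k170 k238 k255 9 14)))] (.c k35 (.l (.s k51 k118 10 (.s k34 k17
  4 (.d k170 k238 k255 9 14)))) (.c k51 (.q k35 [(.s k204 k236 3 (.d k68 k119 k136 4 9)), (.s k20
  k215 8 (.s k60 k40 5 (.s k105 k195 14 (.s k125 k65 5 (.d k255 k190 k170 8 14)))))] (.c k70 (.l (.s
  k204 k236 3 (.d k68 k119 k136 4 9))) (.c k204 (.q k70 [(.s k20 k215 8 (.s k60 k40 5 (.s k84 k168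
  13 (.s k124 k188 7 (.s k104 k64 5 (.d k148 k212 k192 7 13)))))), (.s k68 k119 4 (.s k69 k71 0 (.s
  k84 k168 13 (.s k100 k116 3 (.d k101 k103 k117 0 3))))), (.s k20 k215 8 (.s k60 k40 5 (.s k188
  k124 7 (.s k182 k179 2 (.s k198 k54 11 (.d k134 k166 k6 3 7))))))] .n) .n))) (.c k70 (.l (.s k204
  k236 3 (.d k68 k119 k136 4 9))) (.c k204 (.q k70 [(.s k51 k118 10 (.s k119 k68 4 (.d k255 k187
  k170 9 14))), (.s k20 k215 8 (.s k51 k118 10 (.s k54 k198 11 (.d k60 k57 k40 2 5))))] (.c k35 (.l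
  (.s k51 k118 10 (.s k34 k17 4 (.d k170 k238 k255 9 14)))) (.c k51 (.q k35 [(.s k20 k215 8 (.s k60
  k40 5 (.s k84 k168 13 (.s k124 k188 7 (.s k104 k64 5 (.d k148 k212 k192 7 13)))))), (.s k68 k119 4
  (.s k69 k71 0 (.s k84 k168 13 (.s k100 k116 3 (.d k101 k103 k117 0 3))))), (.s k20 k215 8 (.s k60
  k40 5 (.s k188 k124 7 (.s k182 k179 2 (.s k198 k54 11 (.d k134 k166 k6 3 7))))))] .n) (.c k118 (.l
  (.s k20 k215 8 (.s k60 k40 5 (.s k105 k195 14 (.s k125 k65 5 (.d k255 k190 k170 8 14)))))) .n))))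
  .n))))) (.c k185 (.q k137 [(.s k68 k119 4 (.d k204 k236 k136 3 9)), (.s k20 k215 8 (.s k60 k40 5
  (.s k105 k195 14 (.s k125 k65 5 (.d k255 k190 k170 8 14)))))] (.c k35 (.q k51 [(.s k68 k119 4 (.d
  k204 k236 k136 3 9)), (.s k34 k17 4 (.d k170 k238 k255 9 14))] .n) (.c k51 (.q k35 [(.s k204 k236
  3 (.d k68 k119 k136 4 9)), (.s k20 k215 8 (.s k60 k40 5 (.s k105 k195 14 (.s k125 k65 5 (.d k255
  k190 k170 8 14)))))] .n) .n))) .n))))) (.c k170 (.l (.s k20 k215 8 (.s k60 k40 5 (.s k68 k119 4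
  (.s k105 k195 14 (.s k108 k99 2 (.d k204 k136 k156 9 11))))))) (.c k252 (.q k169 [(.s k20 k215 8
  (.s k60 k40 5 (.s k105 k195 14 (.s k125 k65 5 (.d k255 k190 k170 8 14))))), (.s k35 k236 10 (.s
  k170 k255 14 (.s k34 k238 9 (.s k17 k51 4 (.s k33 k32 0 (.d k1 k253 k49 13 3))))))] (.c k35 (.q
  k51 [(.s k119 k68 4 (.d k255 k187 k170 9 14)), (.s k20 k215 8 (.s k54 k198 11 (.d k60 k57 k40 2
  5)))] .n) (.c k51 (.l (.s k35 k236 10 (.s k20 k215 8 (.s k60 k40 5 (.s k105 k195 14 (.s k125 k65 5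
  (.d k255 k190 k170 8 14))))))) (.c k170 (.l (.s k20 k215 8 (.s k60 k40 5 (.s k68 k119 4 (.s k105
  k195 14 (.s k108 k99 2 (.d k204 k136 k156 9 11))))))) (.c k255 (.l (.s k20 k215 8 (.s k60 k40 5
  (.s k68 k119 4 (.s k195 k105 14 (.s k198 k54 11 (.d k204 k201 k136 2 9))))))) .n))))) (.c k255 (.l
  (.s k20 k215 8 (.s k60 k40 5 (.s k68 k119 4 (.s k195 k105 14 (.s k198 k54 11 (.d k204 k201 k136 2
  9))))))) .n)))))))) (.c k105 (.l (.s k20 k215 8 (.s k54 k198 11 (.s k60 k40 5 (.s k170 k255 14 (.s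
  k34 k238 9 (.d k51 k57 k17 2 4))))))) (.c k169 (.q k252 [(.s k20 k215 8 (.s k60 k40 5 (.s k105
  k195 14 (.s k125 k65 5 (.d k255 k190 k170 8 14))))), (.s k68 k119 4 (.s k84 k168 13 (.s k100 k116
  3 (.s k204 k136 9 (.s k152 k48 13 (.d k220 k236 k16 3 9))))))] (.c k19 (.q k220 [(.s k68 k119 4
  (.d k204 k236 k136 3 9)), (.s k20 k215 8 (.s k60 k40 5 (.s k105 k195 14 (.s k125 k65 5 (.d k255
  k190 k170 8 14)))))] (.c k35 (.q k51 [(.s k68 k119 4 (.d k204 k236 k136 3 9)), (.s k34 k17 4 (.d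
  k170 k238 k255 9 14))] (.c k137 (.l (.s k185 k118 10 (.s k34 k17 4 (.d k170 k238 k255 9 14)))) (.c
  k185 (.q k137 [(.s k68 k119 4 (.d k204 k236 k136 3 9)), (.s k34 k17 4 (.d k170 k238 k255 9 14))]
  .n) .n))) (.c k51 (.q k35 [(.s k204 k236 3 (.d k68 k119 k136 4 9)), (.s k20 k215 8 (.s k60 k40 5
  (.s k105 k195 14 (.s k125 k65 5 (.d k255 k190 k170 8 14)))))] (.c k137 (.q k185 [(.s k204 k236 3
  (.d k68 k119 k136 4 9)), (.s k20 k215 8 (.s k60 k40 5 (.s k105 k195 14 (.s k125 k65 5 (.d k255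
  k190 k170 8 14)))))] (.c k70 (.l (.s k204 k236 3 (.d k68 k119 k136 4 9))) (.c k204 (.q k70 [(.s
  k20 k215 8 (.s k60 k40 5 (.s k84 k168 13 (.s k124 k188 7 (.s k104 k64 5 (.d k148 k212 k192 7
  13)))))), (.s k68 k119 4 (.s k69 k71 0 (.s k84 k168 13 (.s k100 k116 3 (.d k101 k103 k117 0
  3))))), (.s k20 k215 8 (.s k60 k40 5 (.s k188 k124 7 (.s k182 k179 2 (.s k198 k54 11 (.d k134 k166
  k6 3 7))))))] .n) .n))) (.c k185 (.q k137 [(.s k204 k236 3 (.d k68 k119 k136 4 9)), (.s k20 k215 8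
  (.s k60 k40 5 (.s k105 k195 14 (.s k125 k65 5 (.d k255 k190 k170 8 14)))))] .n) .n))) (.c k137 (.q
  k185 [(.s k68 k119 4 (.d k204 k236 k136 3 9)), (.s k51 k118 10 (.s k34 k17 4 (.d k170 k238 k255 9
  14)))] (.c k35 (.l (.s k51 k118 10 (.s k34 k17 4 (.d k170 k238 k255 9 14)))) (.c k51 (.q k35 [(.s
  k204 k236 3 (.d k68 k119 k136 4 9)), (.s k20 k215 8 (.s k60 k40 5 (.s k105 k195 14 (.s k125 k65 5
  (.d k255 k190 k170 8 14)))))] (.c k70 (.l (.s k204 k236 3 (.d k68 k119 k136 4 9))) (.c k204 (.q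
  k70 [(.s k20 k215 8 (.s k60 k40 5 (.s k84 k168 13 (.s k124 k188 7 (.s k104 k64 5 (.d k148 k212
  k192 7 13)))))), (.s k68 k119 4 (.s k69 k71 0 (.s k84 k168 13 (.s k100 k116 3 (.d k101 k103 k117 0
  3))))), (.s k20 k215 8 (.s k60 k40 5 (.s k188 k124 7 (.s k182 k179 2 (.s k198 k54 11 (.d k134 k166
  k6 3 7))))))] .n) .n))) (.c k70 (.l (.s k204 k236 3 (.d k68 k119 k136 4 9))) (.c k204 (.q k70 [(.s
  k51 k118 10 (.s k119 k68 4 (.d k255 k187 k170 9 14))), (.s k20 k215 8 (.s k51 k118 10 (.s k54 k198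
  11 (.d k60 k57 k40 2 5))))] (.c k35 (.l (.s k51 k118 10 (.s k34 k17 4 (.d k170 k238 k255 9 14))))
  (.c k51 (.q k35 [(.s k20 k215 8 (.s k60 k40 5 (.s k84 k168 13 (.s k124 k188 7 (.s k104 k64 5 (.d
  k148 k212 k192 7 13)))))), (.s k68 k119 4 (.s k69 k71 0 (.s k84 k168 13 (.s k100 k116 3 (.d k101
  k103 k117 0 3))))), (.s k20 k215 8 (.s k60 k40 5 (.s k188 k124 7 (.s k182 k179 2 (.s k198 k54 11
  (.d k134 k166 k6 3 7))))))] .n) (.c k118 (.l (.s k20 k215 8 (.s k60 k40 5 (.s k105 k195 14 (.s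
  k125 k65 5 (.d k255 k190 k170 8 14)))))) .n)))) .n))))) (.c k185 (.q k137 [(.s k68 k119 4 (.d k204
  k236 k136 3 9)), (.s k20 k215 8 (.s k60 k40 5 (.s k105 k195 14 (.s k125 k65 5 (.d k255 k190 k170 8
  14)))))] (.c k35 (.q k51 [(.s k68 k119 4 (.d k204 k236 k136 3 9)), (.s k34 k17 4 (.d k170 k238
  k255 9 14))] .n) (.c k51 (.q k35 [(.s k204 k236 3 (.d k68 k119 k136 4 9)), (.s k20 k215 8 (.s k60
  k40 5 (.s k105 k195 14 (.s k125 k65 5 (.d k255 k190 k170 8 14)))))] .n) .n))) .n))))) (.c k137 (.q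
  k185 [(.s k51 k118 10 (.s k34 k17 4 (.d k170 k238 k255 9 14))), (.s k20 k215 8 (.s k60 k40 5 (.s
  k105 k195 14 (.s k125 k65 5 (.d k255 k190 k170 8 14))))), (.s k20 k215 8 (.s k51 k118 10 (.s k54
  k198 11 (.d k60 k57 k40 2 5))))] (.c k19 (.q k220 [(.s k68 k119 4 (.d k204 k236 k136 3 9)), (.s
  k51 k118 10 (.s k34 k17 4 (.d k170 k238 k255 9 14)))] (.c k35 (.l (.s k51 k118 10 (.s k34 k17 4
  (.d k170 k238 k255 9 14)))) (.c k51 (.q k35 [(.s k204 k236 3 (.d k68 k119 k136 4 9)), (.s k20 k215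
  8 (.s k60 k40 5 (.s k105 k195 14 (.s k125 k65 5 (.d k255 k190 k170 8 14)))))] (.c k70 (.l (.s k204
  k236 3 (.d k68 k119 k136 4 9))) (.c k204 (.q k70 [(.s k20 k215 8 (.s k60 k40 5 (.s k84 k168 13 (.s
  k124 k188 7 (.s k104 k64 5 (.d k148 k212 k192 7 13)))))), (.s k68 k119 4 (.s k69 k71 0 (.s k84
  k168 13 (.s k100 k116 3 (.d k101 k103 k117 0 3))))), (.s k20 k215 8 (.s k60 k40 5 (.s k188 k124 7
  (.s k182 k179 2 (.s k198 k54 11 (.d k134 k166 k6 3 7))))))] .n) .n))) (.c k70 (.l (.s k204 k236 3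
  (.d k68 k119 k136 4 9))) (.c k204 (.q k70 [(.s k51 k118 10 (.s k119 k68 4 (.d k255 k187 k170 9
  14))), (.s k20 k215 8 (.s k51 k118 10 (.s k54 k198 11 (.d k60 k57 k40 2 5))))] (.c k35 (.l (.s k51
  k118 10 (.s k34 k17 4 (.d k170 k238 k255 9 14)))) (.c k51 (.q k35 [(.s k20 k215 8 (.s k60 k40 5
  (.s k84 k168 13 (.s k124 k188 7 (.s k104 k64 5 (.d k148 k212 k192 7 13)))))), (.s k68 k119 4 (.s
  k69 k71 0 (.s k84 k168 13 (.s k100 k116 3 (.d k101 k103 k117 0 3))))), (.s k20 k215 8 (.s k60 k40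
  5 (.s k188 k124 7 (.s k182 k179 2 (.s k198 k54 11 (.d k134 k166 k6 3 7))))))] .n) (.c k118 (.l (.s
  k20 k215 8 (.s k60 k40 5 (.s k105 k195 14 (.s k125 k65 5 (.d k255 k190 k170 8 14)))))) .n))))
  .n))))) (.c k70 (.q k204 [(.d k68 k119 k136 4 9), (.s k51 k118 10 (.s k34 k17 4 (.d k170 k238 k255
  9 14)))] (.c k19 (.l (.s k220 k236 3 (.d k68 k119 k136 4 9))) (.c k220 (.q k19 [(.d k68 k119 k136
  4 9), (.s k51 k118 10 (.s k34 k17 4 (.d k170 k238 k255 9 14)))] .n) .n))) (.c k204 (.q k70 [(.s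
  k51 k118 10 (.s k34 k17 4 (.d k170 k238 k255 9 14))), (.s k20 k215 8 (.s k60 k40 5 (.s k105 k195
  14 (.s k125 k65 5 (.d k255 k190 k170 8 14))))), (.s k20 k215 8 (.s k51 k118 10 (.s k54 k198 11 (.d
  k60 k57 k40 2 5))))] (.c k19 (.q k220 [(.s k51 k118 10 (.s k119 k68 4 (.d k255 k187 k170 9 14))),
  (.s k20 k215 8 (.s k51 k118 10 (.s k54 k198 11 (.d k60 k57 k40 2 5))))] (.c k35 (.l (.s k51 k118
  10 (.s k34 k17 4 (.d k170 k238 k255 9 14)))) (.c k51 (.q k35 [(.s k20 k215 8 (.s k60 k40 5 (.s k84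
  k168 13 (.s k124 k188 7 (.s k104 k64 5 (.d k148 k212 k192 7 13)))))), (.s k68 k119 4 (.s k69 k71 0
  (.s k84 k168 13 (.s k100 k116 3 (.d k101 k103 k117 0 3))))), (.s k20 k215 8 (.s k60 k40 5 (.s k188
  k124 7 (.s k182 k179 2 (.s k198 k54 11 (.d k134 k166 k6 3 7))))))] .n) (.c k118 (.l (.s k20 k215 8
  (.s k60 k40 5 (.s k105 k195 14 (.s k125 k65 5 (.d k255 k190 k170 8 14)))))) .n)))) (.c k220 (.q
  k19 [(.s k51 k118 10 (.s k34 k17 4 (.d k170 k238 k255 9 14))), (.s k20 k215 8 (.s k60 k40 5 (.s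
  k105 k195 14 (.s k125 k65 5 (.d k255 k190 k170 8 14))))), (.s k20 k215 8 (.s k51 k118 10 (.s k54
  k198 11 (.d k60 k57 k40 2 5))))] .n) .n))) (.c k220 (.q k19 [(.s k51 k118 10 (.s k34 k17 4 (.d
  k170 k238 k255 9 14))), (.s k20 k215 8 (.s k60 k40 5 (.s k105 k195 14 (.s k125 k65 5 (.d k255 k190
  k170 8 14))))), (.s k20 k215 8 (.s k51 k118 10 (.s k54 k198 11 (.d k60 k57 k40 2 5))))] (.c k70
  (.q k204 [(.d k68 k119 k136 4 9), (.s k51 k118 10 (.s k34 k17 4 (.d k170 k238 k255 9 14)))] .n)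
  (.c k204 (.q k70 [(.s k51 k118 10 (.s k34 k17 4 (.d k170 k238 k255 9 14))), (.s k20 k215 8 (.s k60
  k40 5 (.s k105 k195 14 (.s k125 k65 5 (.d k255 k190 k170 8 14))))), (.s k20 k215 8 (.s k51 k118 10
  (.s k54 k198 11 (.d k60 k57 k40 2 5))))] .n) .n))) .n))))) (.c k170 (.l (.s k20 k215 8 (.s k60 k40
  5 (.s k68 k119 4 (.s k105 k195 14 (.s k108 k99 2 (.d k204 k136 k156 9 11))))))) (.c k185 (.q k137
  [(.s k20 k215 8 (.s k60 k40 5 (.s k105 k195 14 (.s k125 k65 5 (.d k255 k190 k170 8 14))))), (.s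
  k68 k119 4 (.s k84 k168 13 (.s k100 k116 3 (.s k204 k136 9 (.s k152 k48 13 (.d k220 k236 k16 3
  9))))))] (.c k19 (.q k220 [(.s k68 k119 4 (.d k204 k236 k136 3 9)), (.s k20 k215 8 (.s k60 k40 5
  (.s k105 k195 14 (.s k125 k65 5 (.d k255 k190 k170 8 14)))))] (.c k35 (.q k51 [(.s k68 k119 4 (.d
  k204 k236 k136 3 9)), (.s k34 k17 4 (.d k170 k238 k255 9 14))] .n) (.c k51 (.q k35 [(.s k204 k236
  3 (.d k68 k119 k136 4 9)), (.s k20 k215 8 (.s k60 k40 5 (.s k105 k195 14 (.s k125 k65 5 (.d k255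
  k190 k170 8 14)))))] .n) .n))) (.c k170 (.l (.s k20 k215 8 (.s k60 k40 5 (.s k68 k119 4 (.s k105
  k195 14 (.s k108 k99 2 (.d k204 k136 k156 9 11))))))) (.c k220 (.q k19 [(.s k20 k215 8 (.s k60 k40
  5 (.s k105 k195 14 (.s k125 k65 5 (.d k255 k190 k170 8 14))))), (.s k68 k119 4 (.s k170 k255 14
  (.s k198 k54 11 (.s k204 k136 9 (.s k195 k201 2 (.d k130 k190 k65 5 8)))))), (.s k20 k215 8 (.s
  k54 k198 11 (.s k60 k40 5 (.s k51 k57 2 (.s k34 k17 4 (.d k170 k238 k255 9 14))))))] (.c k105 (.l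
  (.s k20 k215 8 (.s k54 k198 11 (.s k60 k40 5 (.s k170 k255 14 (.s k34 k238 9 (.d k51 k57 k17 2
  4))))))) (.c k170 (.l (.s k20 k215 8 (.s k60 k40 5 (.s k68 k119 4 (.s k105 k195 14 (.s k108 k99 2
  (.d k204 k136 k156 9 11))))))) (.c k255 (.l (.s k20 k215 8 (.s k60 k40 5 (.s k68 k119 4 (.s k195
  k105 14 (.s k198 k54 11 (.d k204 k201 k136 2 9))))))) .n)))) .n)))) (.c k220 (.q k19 [(.s k20 k215
  8 (.s k60 k40 5 (.s k105 k195 14 (.s k125 k65 5 (.d k255 k190 k170 8 14))))), (.s k68 k119 4 (.s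
  k170 k255 14 (.s k198 k54 11 (.s k204 k136 9 (.s k195 k201 2 (.d k130 k190 k65 5 8)))))), (.s k20
  k215 8 (.s k54 k198 11 (.s k60 k40 5 (.s k51 k57 2 (.s k34 k17 4 (.d k170 k238 k255 9 14))))))]
  (.c k105 (.l (.s k20 k215 8 (.s k54 k198 11 (.s k60 k40 5 (.s k170 k255 14 (.s k34 k238 9 (.d k51
  k57 k17 2 4))))))) (.c k137 (.q k185 [(.s k51 k118 10 (.s k34 k17 4 (.d k170 k238 k255 9 14))),
  (.s k20 k215 8 (.s k60 k40 5 (.s k105 k195 14 (.s k125 k65 5 (.d k255 k190 k170 8 14))))), (.s k20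
  k215 8 (.s k51 k118 10 (.s k54 k198 11 (.d k60 k57 k40 2 5))))] (.c k70 (.q k204 [(.d k68 k119
  k136 4 9), (.s k51 k118 10 (.s k34 k17 4 (.d k170 k238 k255 9 14)))] .n) (.c k204 (.q k70 [(.s k51
  k118 10 (.s k34 k17 4 (.d k170 k238 k255 9 14))), (.s k20 k215 8 (.s k60 k40 5 (.s k105 k195 14
  (.s k125 k65 5 (.d k255 k190 k170 8 14))))), (.s k20 k215 8 (.s k51 k118 10 (.s k54 k198 11 (.d
  k60 k57 k40 2 5))))] .n) .n))) (.c k170 (.l (.s k20 k215 8 (.s k60 k40 5 (.s k68 k119 4 (.s k105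
  k195 14 (.s k108 k99 2 (.d k204 k136 k156 9 11))))))) (.c k185 (.q k137 [(.s k20 k215 8 (.s k60
  k40 5 (.s k105 k195 14 (.s k125 k65 5 (.d k255 k190 k170 8 14))))), (.s k68 k119 4 (.s k170 k255
  14 (.s k198 k54 11 (.s k204 k136 9 (.s k195 k201 2 (.d k130 k190 k65 5 8)))))), (.s k20 k215 8 (.s
  k54 k198 11 (.s k60 k40 5 (.s k51 k57 2 (.s k34 k17 4 (.d k170 k238 k255 9 14))))))] (.c k105 (.l
  (.s k20 k215 8 (.s k54 k198 11 (.s k60 k40 5 (.s k170 k255 14 (.s k34 k238 9 (.d k51 k57 k17 2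
  4))))))) (.c k170 (.l (.s k20 k215 8 (.s k60 k40 5 (.s k68 k119 4 (.s k105 k195 14 (.s k108 k99 2
  (.d k204 k136 k156 9 11))))))) (.c k255 (.l (.s k20 k215 8 (.s k60 k40 5 (.s k68 k119 4 (.s k195
  k105 14 (.s k198 k54 11 (.d k204 k201 k136 2 9))))))) .n)))) (.c k255 (.l (.s k20 k215 8 (.s k60
  k40 5 (.s k68 k119 4 (.s k195 k105 14 (.s k198 k54 11 (.d k204 k201 k136 2 9))))))) .n))))))
  .n)))))) (.c k170 (.l (.s k20 k215 8 (.s k60 k40 5 (.s k68 k119 4 (.s k105 k195 14 (.s k108 k99 2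
  (.d k204 k136 k156 9 11))))))) (.c k220 (.q k19 [(.s k20 k215 8 (.s k60 k40 5 (.s k105 k195 14 (.s
  k125 k65 5 (.d k255 k190 k170 8 14))))), (.s k68 k119 4 (.s k170 k255 14 (.s k198 k54 11 (.s k204
  k136 9 (.s k195 k201 2 (.d k130 k190 k65 5 8)))))), (.s k20 k215 8 (.s k54 k198 11 (.s k60 k40 5
  (.s k51 k57 2 (.s k34 k17 4 (.d k170 k238 k255 9 14))))))] (.c k105 (.l (.s k20 k215 8 (.s k54
  k198 11 (.s k60 k40 5 (.s k170 k255 14 (.s k34 k238 9 (.d k51 k57 k17 2 4))))))) (.c k169 (.q k252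
  [(.s k20 k215 8 (.s k60 k40 5 (.s k105 k195 14 (.s k125 k65 5 (.d k255 k190 k170 8 14))))), (.s
  k68 k119 4 (.s k170 k255 14 (.s k198 k54 11 (.s k204 k136 9 (.s k195 k201 2 (.d k130 k190 k65 5
  8)))))), (.s k20 k215 8 (.s k54 k198 11 (.s k60 k40 5 (.s k51 k57 2 (.s k34 k17 4 (.d k170 k238
  k255 9 14))))))] (.c k105 (.l (.s k20 k215 8 (.s k54 k198 11 (.s k60 k40 5 (.s k170 k255 14 (.s
  k34 k238 9 (.d k51 k57 k17 2 4))))))) (.c k137 (.q k185 [(.s k51 k118 10 (.s k34 k17 4 (.d k170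
  k238 k255 9 14))), (.s k20 k215 8 (.s k60 k40 5 (.s k105 k195 14 (.s k125 k65 5 (.d k255 k190 k170
  8 14))))), (.s k20 k215 8 (.s k51 k118 10 (.s k54 k198 11 (.d k60 k57 k40 2 5))))] (.c k70 (.q
  k204 [(.d k68 k119 k136 4 9), (.s k51 k118 10 (.s k34 k17 4 (.d k170 k238 k255 9 14)))] .n) (.c
  k204 (.q k70 [(.s k51 k118 10 (.s k34 k17 4 (.d k170 k238 k255 9 14))), (.s k20 k215 8 (.s k60 k40
  5 (.s k105 k195 14 (.s k125 k65 5 (.d k255 k190 k170 8 14))))), (.s k20 k215 8 (.s k51 k118 10 (.s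
  k54 k198 11 (.d k60 k57 k40 2 5))))] .n) .n))) (.c k170 (.l (.s k20 k215 8 (.s k60 k40 5 (.s k68
  k119 4 (.s k105 k195 14 (.s k108 k99 2 (.d k204 k136 k156 9 11))))))) (.c k185 (.q k137 [(.s k20
  k215 8 (.s k60 k40 5 (.s k105 k195 14 (.s k125 k65 5 (.d k255 k190 k170 8 14))))), (.s k68 k119 4
  (.s k170 k255 14 (.s k198 k54 11 (.s k204 k136 9 (.s k195 k201 2 (.d k130 k190 k65 5 8)))))), (.s
  k20 k215 8 (.s k54 k198 11 (.s k60 k40 5 (.s k51 k57 2 (.s k34 k17 4 (.d k170 k238 k255 9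
  14))))))] (.c k105 (.l (.s k20 k215 8 (.s k54 k198 11 (.s k60 k40 5 (.s k170 k255 14 (.s k34 k238
  9 (.d k51 k57 k17 2 4))))))) (.c k170 (.l (.s k20 k215 8 (.s k60 k40 5 (.s k68 k119 4 (.s k105
  k195 14 (.s k108 k99 2 (.d k204 k136 k156 9 11))))))) (.c k255 (.l (.s k20 k215 8 (.s k60 k40 5
  (.s k68 k119 4 (.s k195 k105 14 (.s k198 k54 11 (.d k204 k201 k136 2 9))))))) .n)))) (.c k255 (.l
  (.s k20 k215 8 (.s k60 k40 5 (.s k68 k119 4 (.s k195 k105 14 (.s k198 k54 11 (.d k204 k201 k136 2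
  9))))))) .n)))))) (.c k170 (.l (.s k20 k215 8 (.s k60 k40 5 (.s k68 k119 4 (.s k105 k195 14 (.s
  k108 k99 2 (.d k204 k136 k156 9 11))))))) (.c k252 (.q k169 [(.s k20 k215 8 (.s k54 k198 11 (.s
  k60 k40 5 (.s k51 k57 2 (.s k34 k17 4 (.d k170 k238 k255 9 14)))))), (.s k20 k215 8 (.s k60 k40 5
  (.s k105 k195 14 (.s k125 k65 5 (.d k255 k190 k170 8 14))))), (.s k68 k119 4 (.s k170 k255 14 (.s
  k130 k190 5 (.s k195 k65 8 (.s k198 k54 11 (.d k204 k201 k136 2 9))))))] (.c k60 (.l (.s k68 k119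
  4 (.s k170 k255 14 (.s k198 k54 11 (.s k204 k136 9 (.s k195 k201 2 (.d k130 k190 k65 5 8)))))))
  (.c k170 (.l (.s k20 k215 8 (.s k60 k40 5 (.s k68 k119 4 (.s k105 k195 14 (.s k108 k99 2 (.d k204
  k136 k156 9 11))))))) (.c k204 (.l (.s k236 k35 10 (.s k20 k215 8 (.s k60 k40 5 (.s k105 k195 14
  (.s k125 k65 5 (.d k255 k190 k170 8 14))))))) (.c k236 (.q k204 [(.d k68 k119 k136 4 9), (.s k20
  k215 8 (.s k60 k40 5 (.s k105 k195 14 (.d k108 k99 k156 2 11))))] .n) (.c k255 (.l (.s k20 k215 8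
  (.s k60 k40 5 (.s k68 k119 4 (.s k195 k105 14 (.s k198 k54 11 (.d k204 k201 k136 2 9)))))))
  .n)))))) (.c k255 (.l (.s k20 k215 8 (.s k60 k40 5 (.s k68 k119 4 (.s k195 k105 14 (.s k198 k54 11
  (.d k204 k201 k136 2 9))))))) .n)))))) (.c k252 (.q k169 [(.s k20 k215 8 (.s k54 k198 11 (.s k60
  k40 5 (.s k51 k57 2 (.s k34 k17 4 (.d k170 k238 k255 9 14)))))), (.s k35 k236 10 (.s k170 k255 14
  (.s k34 k238 9 (.s k17 k51 4 (.s k33 k32 0 (.d k1 k253 k49 13 3)))))), (.s k20 k215 8 (.s k60 k40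
  5 (.s k68 k119 4 (.s k195 k105 14 (.s k198 k54 11 (.d k204 k201 k136 2 9))))))] (.c k19 (.q k220
  [(.s k20 k215 8 (.s k60 k40 5 (.s k105 k195 14 (.s k125 k65 5 (.d k255 k190 k170 8 14))))), (.s
  k35 k236 10 (.s k170 k255 14 (.s k34 k238 9 (.s k17 k51 4 (.s k33 k32 0 (.d k1 k253 k49 13
  3))))))] (.c k35 (.q k51 [(.s k119 k68 4 (.d k255 k187 k170 9 14)), (.s k20 k215 8 (.s k54 k198 11
  (.d k60 k57 k40 2 5)))] .n) (.c k51 (.l (.s k35 k236 10 (.s k20 k215 8 (.s k60 k40 5 (.s k105 k195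
  14 (.s k125 k65 5 (.d k255 k190 k170 8 14))))))) (.c k170 (.l (.s k20 k215 8 (.s k60 k40 5 (.s k68
  k119 4 (.s k105 k195 14 (.s k108 k99 2 (.d k204 k136 k156 9 11))))))) (.c k255 (.l (.s k20 k215 8
  (.s k60 k40 5 (.s k68 k119 4 (.s k195 k105 14 (.s k198 k54 11 (.d k204 k201 k136 2 9)))))))
  .n))))) (.c k170 (.l (.s k20 k215 8 (.s k60 k40 5 (.s k68 k119 4 (.s k105 k195 14 (.s k108 k99 2
  (.d k204 k136 k156 9 11))))))) (.c k220 (.q k19 [(.s k20 k215 8 (.s k54 k198 11 (.s k60 k40 5 (.s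
  k51 k57 2 (.s k34 k17 4 (.d k170 k238 k255 9 14)))))), (.s k20 k215 8 (.s k60 k40 5 (.s k105 k195
  14 (.s k125 k65 5 (.d k255 k190 k170 8 14))))), (.s k68 k119 4 (.s k170 k255 14 (.s k130 k190 5
  (.s k195 k65 8 (.s k198 k54 11 (.d k204 k201 k136 2 9))))))] (.c k60 (.l (.s k68 k119 4 (.s k170
  k255 14 (.s k198 k54 11 (.s k204 k136 9 (.s k195 k201 2 (.d k130 k190 k65 5 8))))))) (.c k170 (.l
  (.s k20 k215 8 (.s k60 k40 5 (.s k68 k119 4 (.s k105 k195 14 (.s k108 k99 2 (.d k204 k136 k156 9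
  11))))))) (.c k204 (.l (.s k236 k35 10 (.s k20 k215 8 (.s k60 k40 5 (.s k105 k195 14 (.s k125 k65
  5 (.d k255 k190 k170 8 14))))))) (.c k236 (.q k204 [(.d k68 k119 k136 4 9), (.s k20 k215 8 (.s k60
  k40 5 (.s k105 k195 14 (.d k108 k99 k156 2 11))))] .n) (.c k255 (.l (.s k20 k215 8 (.s k60 k40 5
  (.s k68 k119 4 (.s k195 k105 14 (.s k198 k54 11 (.d k204 k201 k136 2 9))))))) .n)))))) .n)))) (.c
  k255 (.l (.s k20 k215 8 (.s k60 k40 5 (.s k68 k119 4 (.s k195 k105 14 (.s k198 k54 11 (.d k204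
  k201 k136 2 9))))))) .n)))))))) (.c k169 (.q k252 [(.s k68 k119 4 (.s k204 k136 9 (.s k153 k51 14
  (.s k221 k17 9 (.d k255 k238 k170 4 14))))), (.s k68 k119 4 (.s k84 k168 13 (.s k100 k116 3 (.s
  k204 k136 9 (.s k152 k48 13 (.d k220 k236 k16 3 9))))))] (.c k68 (.q k4 [(.s k12 k8 1 (.s k166
  k247 12 (.s k89 k243 14 (.s k93 k81 1 (.d k255 k174 k170 12 14))))), (.s k12 k8 1 (.s k84 k168 13
  (.s k164 k244 11 (.s k88 k240 13 (.d k92 k80 k172 1 11))))), (.s k84 k168 13 (.s k244 k164 11 (.s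
  k247 k166 12 (.s k246 k245 0 (.s k243 k249 2 (.d k255 k170 k251 14 1))))))] (.c k170 (.l (.s k12
  k8 1 (.s k166 k247 12 (.s k38 k230 7 (.s k51 k25 6 (.s k17 k34 4 (.d k153 k221 k204 9 14)))))))
  .n)) (.c k119 (.q k4 [(.s k12 k8 1 (.s k166 k247 12 (.s k89 k243 14 (.s k93 k81 1 (.d k255 k174
  k170 12 14))))), (.s k12 k8 1 (.s k84 k168 13 (.s k164 k244 11 (.s k88 k240 13 (.d k92 k80 k172 1
  11))))), (.s k84 k168 13 (.s k244 k164 11 (.s k247 k166 12 (.s k246 k245 0 (.s k243 k249 2 (.d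
  k255 k170 k251 14 1))))))] (.c k170 (.l (.s k12 k8 1 (.s k166 k247 12 (.s k38 k230 7 (.s k51 k25 6
  (.s k17 k34 4 (.d k153 k221 k204 9 14))))))) .n)) (.c k136 (.l (.s k119 k68 4 (.s k255 k170 14 (.s
  k51 k187 9 (.s k153 k204 14 (.d k17 k34 k221 4 9)))))) (.c k170 (.f k68 k119 4 (.f k168 k84 13 (.l
  (.s k204 k136 9 (.s k236 k220 3 (.s k100 k32 9 (.s k101 k103 0 (.s k69 k117 3 (.s k207 k138 10 (.d
  k48 k152 k154 13 14)))))))))) (.c k204 (.l (.s k119 k68 4 (.s k255 k170 14 (.s k51 k187 9 (.s k118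
  k185 10 (.s k117 k116 0 (.s k186 k48 10 (.d k254 k253 k50 0 9)))))))) .n)))))) (.c k170 (.f k68
  k119 4 (.q k4 [(.s k196 k132 7 (.s k149 k55 12 (.s k213 k21 7 (.d k247 k230 k166 4 12)))), (.s k12
  k8 1 (.s k132 k196 7 (.s k72 k192 9 (.s k76 k64 1 (.d k204 k140 k136 7 9))))), (.s k12 k8 1 (.s
  k166 k247 12 (.s k89 k243 14 (.s k76 k115 6 (.d k204 k140 k136 7 9)))))] (.c k2 (.q k254 [(.s k196
  k132 7 (.s k149 k55 12 (.s k213 k21 7 (.d k247 k230 k166 4 12)))), (.s k12 k8 1 (.s k132 k196 7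
  (.s k72 k192 9 (.s k76 k64 1 (.d k204 k140 k136 7 9))))), (.s k12 k8 1 (.s k166 k247 12 (.s k89
  k243 14 (.s k76 k115 6 (.d k204 k140 k136 7 9)))))] (.c k169 (.q k252 [(.s k196 k132 7 (.s k149
  k55 12 (.s k213 k21 7 (.d k247 k230 k166 4 12)))), (.s k204 k136 9 (.s k153 k51 14 (.s k221 k17 9
  (.d k255 k253 k238 0 4))))] (.c k168 (.q k171 [(.s k196 k132 7 (.s k149 k55 12 (.s k213 k21 7 (.d
  k247 k230 k166 4 12)))), (.s k204 k136 9 (.s k153 k51 14 (.s k221 k17 9 (.d k255 k253 k238 0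
  4))))] .n) (.c k171 (.l (.s k168 k84 13 (.s k166 k247 12 (.s k38 k230 7 (.s k55 k21 4 (.d k196
  k132 k149 7 12)))))) .n))) (.c k252 (.q k169 [(.s k196 k132 7 (.s k149 k55 12 (.s k213 k21 7 (.d
  k247 k230 k166 4 12)))), (.s k12 k8 1 (.s k132 k196 7 (.s k72 k192 9 (.s k76 k64 1 (.d k204 k140
  k136 7 9))))), (.s k12 k8 1 (.s k166 k247 12 (.s k89 k243 14 (.s k76 k115 6 (.d k204 k140 k136 7
  9)))))] .n) .n))) (.c k169 (.q k252 [(.s k196 k132 7 (.s k149 k55 12 (.s k213 k21 7 (.d k247 k230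
  k166 4 12)))), (.s k12 k8 1 (.s k132 k196 7 (.s k72 k192 9 (.s k76 k64 1 (.d k204 k140 k136 7
  9))))), (.s k12 k8 1 (.s k166 k247 12 (.s k89 k243 14 (.s k76 k115 6 (.d k204 k140 k136 7 9)))))]
  (.c k2 (.q k254 [(.s k196 k132 7 (.s k149 k55 12 (.s k213 k21 7 (.d k247 k230 k166 4 12)))), (.s
  k204 k136 9 (.s k153 k51 14 (.s k221 k17 9 (.d k255 k253 k238 0 4))))] (.c k168 (.q k171 [(.s k196
  k132 7 (.s k149 k55 12 (.s k213 k21 7 (.d k247 k230 k166 4 12)))), (.s k204 k136 9 (.s k153 k51 14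
  (.s k221 k17 9 (.d k255 k253 k238 0 4))))] .n) (.c k171 (.l (.s k168 k84 13 (.s k166 k247 12 (.s
  k38 k230 7 (.s k55 k21 4 (.d k196 k132 k149 7 12)))))) .n))) (.c k168 (.q k171 [(.s k196 k132 7
  (.s k149 k55 12 (.s k213 k21 7 (.d k247 k230 k166 4 12)))), (.s k12 k8 1 (.s k132 k196 7 (.s k72
  k192 9 (.s k76 k64 1 (.d k204 k140 k136 7 9))))), (.s k12 k8 1 (.s k166 k247 12 (.s k89 k243 14
  (.s k76 k115 6 (.d k204 k140 k136 7 9)))))] (.c k2 (.q k254 [(.s k196 k132 7 (.s k149 k55 12 (.s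
  k213 k21 7 (.d k247 k230 k166 4 12)))), (.s k204 k136 9 (.s k153 k51 14 (.s k221 k17 9 (.d k255
  k253 k238 0 4))))] .n) (.c k254 (.q k2 [(.s k196 k132 7 (.s k149 k55 12 (.s k213 k21 7 (.d k247
  k230 k166 4 12)))), (.s k12 k8 1 (.s k132 k196 7 (.s k72 k192 9 (.s k76 k64 1 (.d k204 k140 k136 7
  9))))), (.s k12 k8 1 (.s k166 k247 12 (.s k89 k243 14 (.s k76 k115 6 (.d k204 k140 k136 7 9)))))]
  .n) .n))) (.c k171 (.l (.s k168 k84 13 (.s k166 k247 12 (.s k38 k230 7 (.s k55 k21 4 (.d k196 k132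
  k149 7 12)))))) (.c k254 (.q k2 [(.s k196 k132 7 (.s k149 k55 12 (.s k213 k21 7 (.d k247 k230 k166
  4 12)))), (.s k12 k8 1 (.s k132 k196 7 (.s k72 k192 9 (.s k76 k64 1 (.d k204 k140 k136 7 9))))),
  (.s k12 k8 1 (.s k166 k247 12 (.s k89 k243 14 (.s k76 k115 6 (.d k204 k140 k136 7 9)))))] (.c k168
  (.q k171 [(.s k196 k132 7 (.s k149 k55 12 (.s k213 k21 7 (.d k247 k230 k166 4 12)))), (.s k12 k8 1
  (.s k132 k196 7 (.s k72 k192 9 (.s k76 k64 1 (.d k204 k140 k136 7 9))))), (.s k12 k8 1 (.s k166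
  k247 12 (.s k89 k243 14 (.s k76 k115 6 (.d k204 k140 k136 7 9)))))] .n) (.c k171 (.l (.s k168 k84
  13 (.s k166 k247 12 (.s k38 k230 7 (.s k55 k21 4 (.d k196 k132 k149 7 12)))))) .n))) .n))))) (.c
  k252 (.q k169 [(.s k196 k132 7 (.s k149 k55 12 (.s k213 k21 7 (.d k247 k230 k166 4 12)))), (.s k12
  k8 1 (.s k132 k196 7 (.s k72 k192 9 (.s k76 k64 1 (.d k204 k140 k136 7 9))))), (.s k12 k8 1 (.s
  k166 k247 12 (.s k89 k243 14 (.s k76 k115 6 (.d k204 k140 k136 7 9)))))] (.c k2 (.q k254 [(.s k196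
  k132 7 (.s k149 k55 12 (.s k213 k21 7 (.d k247 k230 k166 4 12)))), (.s k12 k8 1 (.s k132 k196 7
  (.s k72 k192 9 (.s k76 k64 1 (.d k204 k140 k136 7 9))))), (.s k12 k8 1 (.s k166 k247 12 (.s k89
  k243 14 (.s k76 k115 6 (.d k204 k140 k136 7 9)))))] .n) (.c k254 (.q k2 [(.s k196 k132 7 (.s k149
  k55 12 (.s k213 k21 7 (.d k247 k230 k166 4 12)))), (.s k12 k8 1 (.s k132 k196 7 (.s k72 k192 9 (.s
  k76 k64 1 (.d k204 k140 k136 7 9))))), (.s k12 k8 1 (.s k166 k247 12 (.s k89 k243 14 (.s k76 k115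
  6 (.d k204 k140 k136 7 9)))))] (.c k253 (.q k255 [(.s k204 k136 9 (.s k221 k238 4 (.d k153 k17 k51
  9 14))), (.s k12 k8 1 (.s k93 k174 12 (.s k89 k81 1 (.d k166 k247 k243 12 14))))] .n) (.c k255 (.l
  (.s k253 k1 13 (.s k166 k247 12 (.s k38 k230 7 (.s k55 k21 4 (.d k196 k132 k149 7 12)))))) .n)))
  .n))) (.c k254 (.q k2 [(.s k196 k132 7 (.s k149 k55 12 (.s k213 k21 7 (.d k247 k230 k166 4 12)))),
  (.s k12 k8 1 (.s k132 k196 7 (.s k72 k192 9 (.s k76 k64 1 (.d k204 k140 k136 7 9))))), (.s k12 k8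
  1 (.s k166 k247 12 (.s k89 k243 14 (.s k76 k115 6 (.d k204 k140 k136 7 9)))))] (.c k169 (.q k252
  [(.s k196 k132 7 (.s k149 k55 12 (.s k213 k21 7 (.d k247 k230 k166 4 12)))), (.s k12 k8 1 (.s k132
  k196 7 (.s k72 k192 9 (.s k76 k64 1 (.d k204 k140 k136 7 9))))), (.s k12 k8 1 (.s k166 k247 12 (.s
  k89 k243 14 (.s k76 k115 6 (.d k204 k140 k136 7 9)))))] (.c k168 (.q k171 [(.s k196 k132 7 (.s
  k149 k55 12 (.s k213 k21 7 (.d k247 k230 k166 4 12)))), (.s k12 k8 1 (.s k132 k196 7 (.s k72 k192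
  9 (.s k76 k64 1 (.d k204 k140 k136 7 9))))), (.s k12 k8 1 (.s k166 k247 12 (.s k89 k243 14 (.s k76
  k115 6 (.d k204 k140 k136 7 9)))))] .n) (.c k171 (.l (.s k168 k84 13 (.s k166 k247 12 (.s k38 k230
  7 (.s k55 k21 4 (.d k196 k132 k149 7 12)))))) .n))) (.c k252 (.q k169 [(.s k196 k132 7 (.s k149
  k55 12 (.s k213 k21 7 (.d k247 k230 k166 4 12)))), (.s k12 k8 1 (.s k132 k196 7 (.s k72 k192 9 (.s
  k76 k64 1 (.d k204 k140 k136 7 9))))), (.s k12 k8 1 (.s k166 k247 12 (.s k89 k243 14 (.s k76 k115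
  6 (.d k204 k140 k136 7 9)))))] (.c k253 (.q k255 [(.s k204 k136 9 (.s k221 k238 4 (.d k153 k17 k51
  9 14))), (.s k12 k8 1 (.s k93 k174 12 (.s k89 k81 1 (.d k166 k247 k243 12 14))))] .n) (.c k255 (.l
  (.s k253 k1 13 (.s k166 k247 12 (.s k38 k230 7 (.s k55 k21 4 (.d k196 k132 k149 7 12)))))) .n)))
  .n))) .n)))))) (.c k187 (.l (.s k68 k119 4 (.s k204 k136 9 (.s k51 k153 14 (.s k170 k255 14 (.d
  k34 k17 k238 4 9)))))) (.c k204 (.q k149 [(.s k68 k119 4 (.s k196 k55 12 (.s k4 k132 7 (.s k213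
  k21 7 (.d k247 k230 k166 4 12))))), (.s k21 k213 7 (.s k63 k42 6 (.s k170 k255 14 (.s k128 k191 6
  (.d k192 k64 k106 7 14))))), (.s k55 k196 12 (.s k119 k68 4 (.s k255 k170 14 (.s k51 k187 9 (.s
  k63 k59 1 (.s k127 k191 7 (.d k106 k192 k64 14 6)))))))] (.c k70 (.q k137 [(.s k68 k119 4 (.s k196
  k55 12 (.s k4 k132 7 (.s k213 k21 7 (.d k247 k230 k166 4 12))))), (.s k21 k213 7 (.s k63 k42 6 (.s
  k170 k255 14 (.s k128 k191 6 (.d k192 k64 k106 7 14))))), (.s k55 k196 12 (.s k119 k68 4 (.s k255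
  k170 14 (.s k51 k187 9 (.s k63 k59 1 (.s k127 k191 7 (.d k106 k192 k64 14 6)))))))] (.c k169 (.q
  k252 [(.s k68 k119 4 (.s k196 k55 12 (.s k4 k132 7 (.s k213 k21 7 (.d k247 k230 k166 4 12))))),
  (.s k21 k213 7 (.s k63 k42 6 (.s k170 k255 14 (.s k128 k191 6 (.d k192 k64 k106 7 14))))), (.s k55
  k196 12 (.s k119 k68 4 (.s k255 k170 14 (.s k51 k187 9 (.s k63 k59 1 (.s k127 k191 7 (.d k106 k192
  k64 14 6)))))))] .n) (.c k252 (.q k169 [(.s k1 k253 13 (.s k21 k213 7 (.s k129 k189 5 (.s k193 k65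
  7 (.d k61 k41 k105 5 13))))), (.s k21 k213 7 (.s k55 k196 12 (.s k4 k38 4 (.s k119 k68 4 (.d k247
  k183 k166 7 12))))), (.s k1 k253 13 (.s k153 k185 3 (.s k17 k221 9 (.s k49 k33 3 (.d k205 k69 k101
  9 13)))))] (.c k220 (.l (.s k236 k35 10 (.s k1 k253 13 (.s k21 k213 7 (.s k61 k41 5 (.s k129 k189
  5 (.d k193 k65 k105 7 13))))))) (.c k236 (.q k220 [(.s k1 k253 13 (.s k21 k213 7 (.s k129 k189 5
  (.s k193 k65 7 (.d k61 k41 k105 5 13))))), (.s k21 k213 7 (.s k55 k196 12 (.s k4 k38 4 (.s k119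
  k68 4 (.d k247 k183 k166 7 12))))), (.s k1 k253 13 (.s k153 k185 3 (.s k17 k221 9 (.s k49 k33 3
  (.d k205 k69 k101 9 13)))))] .n) .n))) .n))) (.c k137 (.q k70 [(.s k68 k119 4 (.s k196 k55 12 (.s
  k4 k132 7 (.s k213 k21 7 (.d k247 k230 k166 4 12))))), (.s k21 k213 7 (.s k63 k42 6 (.s k170 k255
  14 (.s k128 k191 6 (.d k192 k64 k106 7 14))))), (.s k68 k119 4 (.s k69 k71 0 (.s k101 k117 3 (.s
  k196 k55 12 (.s k133 k7 8 (.d k197 k5 k53 7 11))))))] (.c k169 (.q k252 [(.s k21 k213 7 (.s k55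
  k196 12 (.s k4 k38 4 (.s k119 k68 4 (.d k247 k183 k166 7 12))))), (.s k68 k119 4 (.s k69 k71 0 (.s
  k84 k168 13 (.s k100 k116 3 (.d k101 k103 k117 0 3))))), (.s k21 k213 7 (.s k63 k42 6 (.s k106
  k192 14 (.s k127 k64 6 (.d k255 k191 k170 7 14)))))] (.c k153 (.q k185 [(.s k51 k118 10 (.s k34
  k17 4 (.d k170 k238 k255 9 14))), (.s k21 k213 7 (.s k55 k196 12 (.s k4 k38 4 (.s k119 k68 4 (.d
  k247 k183 k166 7 12)))))] (.c k19 (.q k220 [(.s k51 k118 10 (.s k119 k68 4 (.d k255 k187 k170 9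
  14))), (.s k21 k213 7 (.s k51 k118 10 (.s k55 k196 12 (.d k63 k59 k42 1 6))))] (.c k35 (.l (.s k51
  k118 10 (.s k34 k17 4 (.d k170 k238 k255 9 14)))) (.c k51 (.q k35 [(.s k21 k213 7 (.s k55 k196 12
  (.s k119 k68 4 (.s k247 k183 7 (.d k4 k38 k166 4 12))))), (.s k68 k119 4 (.s k69 k71 0 (.s k84
  k168 13 (.s k100 k116 3 (.d k101 k103 k117 0 3))))), (.s k21 k213 7 (.s k63 k42 6 (.s k106 k192 14
  (.s k127 k64 6 (.d k255 k191 k170 7 14)))))] .n) (.c k118 (.l (.s k21 k213 7 (.s k55 k196 12 (.s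
  k4 k38 4 (.s k119 k68 4 (.d k247 k183 k166 7 12)))))) .n)))) (.c k220 (.q k19 [(.s k51 k118 10 (.s
  k34 k17 4 (.d k170 k238 k255 9 14))), (.s k21 k213 7 (.s k55 k196 12 (.s k4 k38 4 (.s k119 k68 4
  (.d k247 k183 k166 7 12)))))] .n) .n))) (.c k185 (.q k153 [(.s k17 k221 9 (.s k34 k51 4 (.d k170
  k238 k255 9 14))), (.s k21 k213 7 (.s k55 k196 12 (.s k4 k38 4 (.s k119 k68 4 (.d k247 k183 k166 7
  12)))))] .n) .n))) (.c k252 (.q k169 [(.s k21 k213 7 (.s k55 k196 12 (.s k4 k38 4 (.s k119 k68 4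
  (.d k247 k183 k166 7 12))))), (.s k1 k253 13 (.s k21 k213 7 (.s k61 k41 5 (.s k129 k189 5 (.d k193
  k65 k105 7 13))))), (.s k68 k119 4 (.s k69 k71 0 (.s k101 k117 3 (.s k196 k55 12 (.s k133 k7 8 (.d
  k197 k5 k53 7 11))))))] (.c k220 (.l (.s k236 k35 10 (.s k1 k253 13 (.s k21 k213 7 (.s k61 k41 5
  (.s k129 k189 5 (.d k193 k65 k105 7 13))))))) (.c k236 (.q k220 [(.s k21 k213 7 (.s k55 k196 12
  (.s k4 k38 4 (.s k119 k68 4 (.d k247 k183 k166 7 12))))), (.s k1 k253 13 (.s k21 k213 7 (.s k61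
  k41 5 (.s k129 k189 5 (.d k193 k65 k105 7 13))))), (.s k68 k119 4 (.s k69 k71 0 (.s k101 k117 3
  (.s k196 k55 12 (.s k133 k7 8 (.d k197 k5 k53 7 11))))))] .n) .n))) .n))) (.c k169 (.q k252 [(.s
  k68 k119 4 (.s k196 k55 12 (.s k4 k132 7 (.s k213 k21 7 (.d k247 k230 k166 4 12))))), (.s k21 k213
  7 (.s k63 k42 6 (.s k170 k255 14 (.s k128 k191 6 (.d k192 k64 k106 7 14))))), (.s k55 k196 12 (.s
  k119 k68 4 (.s k255 k170 14 (.s k51 k187 9 (.s k63 k59 1 (.s k127 k191 7 (.d k106 k192 k64 14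
  6)))))))] (.c k70 (.q k137 [(.s k68 k119 4 (.s k196 k55 12 (.s k4 k132 7 (.s k213 k21 7 (.d k247
  k230 k166 4 12))))), (.s k21 k213 7 (.s k63 k42 6 (.s k170 k255 14 (.s k128 k191 6 (.d k192 k64
  k106 7 14))))), (.s k55 k196 12 (.s k119 k68 4 (.s k255 k170 14 (.s k51 k187 9 (.s k63 k59 1 (.s
  k127 k191 7 (.d k106 k192 k64 14 6)))))))] .n) (.c k137 (.q k70 [(.s k21 k213 7 (.s k55 k196 12
  (.s k4 k38 4 (.s k119 k68 4 (.d k247 k183 k166 7 12))))), (.s k68 k119 4 (.s k69 k71 0 (.s k84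
  k168 13 (.s k100 k116 3 (.d k101 k103 k117 0 3))))), (.s k21 k213 7 (.s k63 k42 6 (.s k106 k192 14
  (.s k127 k64 6 (.d k255 k191 k170 7 14)))))] (.c k153 (.q k185 [(.s k51 k118 10 (.s k34 k17 4 (.d
  k170 k238 k255 9 14))), (.s k21 k213 7 (.s k55 k196 12 (.s k4 k38 4 (.s k119 k68 4 (.d k247 k183
  k166 7 12)))))] (.c k19 (.q k220 [(.s k51 k118 10 (.s k119 k68 4 (.d k255 k187 k170 9 14))), (.s
  k21 k213 7 (.s k51 k118 10 (.s k55 k196 12 (.d k63 k59 k42 1 6))))] (.c k35 (.l (.s k51 k118 10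
  (.s k34 k17 4 (.d k170 k238 k255 9 14)))) (.c k51 (.q k35 [(.s k21 k213 7 (.s k55 k196 12 (.s k119
  k68 4 (.s k247 k183 7 (.d k4 k38 k166 4 12))))), (.s k68 k119 4 (.s k69 k71 0 (.s k84 k168 13 (.s
  k100 k116 3 (.d k101 k103 k117 0 3))))), (.s k21 k213 7 (.s k63 k42 6 (.s k106 k192 14 (.s k127
  k64 6 (.d k255 k191 k170 7 14)))))] .n) (.c k118 (.l (.s k21 k213 7 (.s k55 k196 12 (.s k4 k38 4
  (.s k119 k68 4 (.d k247 k183 k166 7 12)))))) .n)))) (.c k220 (.q k19 [(.s k51 k118 10 (.s k34 k17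
  4 (.d k170 k238 k255 9 14))), (.s k21 k213 7 (.s k55 k196 12 (.s k4 k38 4 (.s k119 k68 4 (.d k247
  k183 k166 7 12)))))] .n) .n))) (.c k185 (.q k153 [(.s k17 k221 9 (.s k34 k51 4 (.d k170 k238 k255
  9 14))), (.s k21 k213 7 (.s k55 k196 12 (.s k4 k38 4 (.s k119 k68 4 (.d k247 k183 k166 7 12)))))]
  .n) .n))) .n))) (.c k252 (.q k169 [(.s k21 k213 7 (.s k55 k196 12 (.s k4 k38 4 (.s k119 k68 4 (.d
  k247 k183 k166 7 12))))), (.s k129 k189 5 (.s k170 k255 14 (.s k128 k191 6 (.s k131 k130 0 (.s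
  k188 k150 6 (.d k168 k171 k148 0 5))))))] (.c k70 (.q k137 [(.s k1 k253 13 (.s k21 k213 7 (.s k129
  k189 5 (.s k193 k65 7 (.d k61 k41 k105 5 13))))), (.s k21 k213 7 (.s k55 k196 12 (.s k4 k38 4 (.s
  k119 k68 4 (.d k247 k183 k166 7 12))))), (.s k1 k253 13 (.s k153 k185 3 (.s k17 k221 9 (.s k49 k33
  3 (.d k205 k69 k101 9 13)))))] (.c k220 (.l (.s k236 k35 10 (.s k1 k253 13 (.s k21 k213 7 (.s k61
  k41 5 (.s k129 k189 5 (.d k193 k65 k105 7 13))))))) (.c k236 (.q k220 [(.s k1 k253 13 (.s k21 k213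
  7 (.s k129 k189 5 (.s k193 k65 7 (.d k61 k41 k105 5 13))))), (.s k21 k213 7 (.s k55 k196 12 (.s k4
  k38 4 (.s k119 k68 4 (.d k247 k183 k166 7 12))))), (.s k1 k253 13 (.s k153 k185 3 (.s k17 k221 9
  (.s k49 k33 3 (.d k205 k69 k101 9 13)))))] .n) .n))) (.c k137 (.q k70 [(.s k21 k213 7 (.s k55 k196
  12 (.s k4 k38 4 (.s k119 k68 4 (.d k247 k183 k166 7 12))))), (.s k1 k253 13 (.s k21 k213 7 (.s k61
  k41 5 (.s k129 k189 5 (.d k193 k65 k105 7 13))))), (.s k68 k119 4 (.s k69 k71 0 (.s k101 k117 3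
  (.s k196 k55 12 (.s k133 k7 8 (.d k197 k5 k53 7 11))))))] (.c k220 (.l (.s k236 k35 10 (.s k1 k253
  13 (.s k21 k213 7 (.s k61 k41 5 (.s k129 k189 5 (.d k193 k65 k105 7 13))))))) (.c k236 (.q k220
  [(.s k21 k213 7 (.s k55 k196 12 (.s k4 k38 4 (.s k119 k68 4 (.d k247 k183 k166 7 12))))), (.s k1
  k253 13 (.s k21 k213 7 (.s k61 k41 5 (.s k129 k189 5 (.d k193 k65 k105 7 13))))), (.s k68 k119 4
  (.s k69 k71 0 (.s k101 k117 3 (.s k196 k55 12 (.s k133 k7 8 (.d k197 k5 k53 7 11))))))] .n) .n)))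
  (.c k220 (.l (.s k236 k35 10 (.s k1 k253 13 (.s k21 k213 7 (.s k61 k41 5 (.s k129 k189 5 (.d k193
  k65 k105 7 13))))))) (.c k236 (.q k220 [(.s k21 k213 7 (.s k55 k196 12 (.s k4 k38 4 (.s k119 k68 4
  (.d k247 k183 k166 7 12))))), (.s k129 k189 5 (.s k170 k255 14 (.s k128 k191 6 (.s k131 k130 0 (.s
  k188 k150 6 (.d k168 k171 k148 0 5))))))] (.c k70 (.q k137 [(.s k1 k253 13 (.s k21 k213 7 (.s k129
  k189 5 (.s k193 k65 7 (.d k61 k41 k105 5 13))))), (.s k21 k213 7 (.s k55 k196 12 (.s k4 k38 4 (.s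
  k119 k68 4 (.d k247 k183 k166 7 12))))), (.s k1 k253 13 (.s k153 k185 3 (.s k17 k221 9 (.s k49 k33
  3 (.d k205 k69 k101 9 13)))))] .n) (.c k137 (.q k70 [(.s k21 k213 7 (.s k55 k196 12 (.s k4 k38 4
  (.s k119 k68 4 (.d k247 k183 k166 7 12))))), (.s k1 k253 13 (.s k21 k213 7 (.s k61 k41 5 (.s k129
  k189 5 (.d k193 k65 k105 7 13))))), (.s k68 k119 4 (.s k69 k71 0 (.s k101 k117 3 (.s k196 k55 12
  (.s k133 k7 8 (.d k197 k5 k53 7 11))))))] .n) .n))) .n))))) .n))))) (.c k221 (.l (.s k68 k119 4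
  (.s k170 k255 14 (.s k34 k238 9 (.s k204 k136 9 (.d k51 k17 k153 4 14)))))) (.c k252 (.q k169 [(.s
  k68 k119 4 (.s k204 k136 9 (.s k51 k153 14 (.s k34 k17 4 (.d k170 k238 k255 9 14))))), (.s k35
  k236 10 (.s k170 k255 14 (.s k34 k238 9 (.s k32 k33 0 (.s k171 k168 0 (.d k239 k103 k101 9
  10)))))), (.s k68 k119 4 (.s k204 k136 9 (.s k153 k51 14 (.s k221 k17 9 (.d k255 k238 k170 4
  14)))))] (.c k170 (.f k1 k253 13 (.l (.s k68 k119 4 (.s k204 k136 9 (.s k153 k51 14 (.s k17 k221 9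
  (.s k49 k33 3 (.s k205 k101 13 (.d k137 k185 k69 3 9))))))))) (.c k204 (.l (.s k170 k255 14 (.s
  k236 k35 10 (.s k238 k34 9 (.s k239 k237 0 (.s k32 k101 10 (.d k168 k171 k100 0 9))))))) (.c k238
  (.l (.s k119 k68 4 (.s k255 k170 14 (.s k51 k187 9 (.s k17 k34 4 (.d k153 k221 k204 9 14)))))) (.c
  k255 (.f k68 k119 4 (.f k35 k236 10 (.l (.s k204 k136 9 (.s k51 k153 14 (.s k34 k17 4 (.s k32 k33
  0 (.s k170 k238 9 (.s k171 k168 0 (.d k239 k103 k101 9 10)))))))))) .n))))) (.c k255 (.q k192 [(.s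
  k64 k128 7 (.s k68 k119 4 (.s k72 k76 1 (.s k12 k132 9 (.s k8 k4 1 (.d k136 k200 k204 7 9)))))),
  (.s k64 k128 7 (.s k106 k127 6 (.s k98 k110 1 (.s k51 k145 12 (.s k17 k34 4 (.d k153 k221 k204 9
  14)))))), (.s k68 k119 4 (.s k204 k136 9 (.s k196 k200 1 (.s k149 k55 12 (.s k21 k213 7 (.d k63
  k42 k106 6 14))))))] (.c k51 (.l (.s k64 k128 7 (.s k106 k127 6 (.s k63 k149 14 (.s k110 k98 1 (.s
  k204 k157 12 (.d k68 k119 k136 4 9))))))) (.c k87 (.q k171 [(.s k64 k128 7 (.s k68 k119 4 (.s k72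
  k76 1 (.s k12 k132 9 (.s k8 k4 1 (.d k136 k200 k204 7 9)))))), (.s k64 k128 7 (.s k106 k127 6 (.s
  k98 k110 1 (.s k51 k145 12 (.s k17 k34 4 (.d k153 k221 k204 9 14)))))), (.s k68 k119 4 (.s k204
  k136 9 (.s k196 k200 1 (.s k149 k55 12 (.s k21 k213 7 (.d k63 k42 k106 6 14))))))] (.c k51 (.l (.s
  k64 k128 7 (.s k106 k127 6 (.s k63 k149 14 (.s k110 k98 1 (.s k204 k157 12 (.d k68 k119 k136 4
  9))))))) (.c k169 (.q k252 [(.s k64 k128 7 (.s k84 k168 13 (.s k212 k232 5 (.s k148 k20 7 (.d k104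
  k124 k60 5 13))))), (.s k64 k128 7 (.s k68 k119 4 (.s k72 k76 1 (.s k12 k132 9 (.s k8 k4 1 (.d
  k136 k200 k204 7 9)))))), (.s k68 k119 4 (.s k84 k168 13 (.s k100 k116 3 (.s k204 k136 9 (.s k152
  k48 13 (.d k220 k236 k16 3 9))))))] .n) (.c k204 (.l (.s k64 k128 7 (.s k68 k119 4 (.s k76 k72 1
  (.s k89 k115 6 (.s k93 k81 1 (.d k127 k110 k106 4 6))))))) (.c k252 (.q k169 [(.s k64 k128 7 (.s
  k106 k127 6 (.s k63 k149 14 (.s k42 k21 6 (.d k170 k168 k234 0 7))))), (.s k35 k236 10 (.s k170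
  k168 0 (.s k34 k238 9 (.s k32 k33 0 (.d k239 k103 k101 9 10))))), (.s k64 k128 7 (.s k68 k119 4
  (.s k72 k76 1 (.s k12 k132 9 (.s k8 k4 1 (.d k136 k200 k204 7 9))))))] (.c k253 (.q k254 [(.s k64
  k128 7 (.s k106 k127 6 (.s k63 k149 14 (.s k42 k21 6 (.d k170 k168 k234 0 7))))), (.s k35 k236 10
  (.s k170 k168 0 (.s k34 k238 9 (.s k32 k33 0 (.d k239 k103 k101 9 10))))), (.s k64 k128 7 (.s k68
  k119 4 (.s k72 k76 1 (.s k12 k132 9 (.s k8 k4 1 (.d k136 k200 k204 7 9))))))] .n) (.c k254 (.l (.s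
  k253 k1 13 (.s k35 k236 10 (.s k170 k168 0 (.s k34 k238 9 (.s k32 k33 0 (.d k239 k103 k101 9
  10))))))) .n))) .n))))) (.c k169 (.q k252 [(.s k128 k64 7 (.s k232 k212 5 (.s k168 k84 13 (.s k104
  k40 7 (.d k148 k188 k60 5 13))))), (.s k64 k128 7 (.s k68 k119 4 (.s k72 k76 1 (.s k12 k132 9 (.s
  k8 k4 1 (.d k136 k200 k204 7 9)))))), (.s k68 k119 4 (.s k84 k168 13 (.s k100 k116 3 (.s k204 k136
  9 (.s k152 k48 13 (.d k220 k236 k16 3 9))))))] (.c k87 (.q k171 [(.s k64 k128 7 (.s k84 k168 13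
  (.s k212 k232 5 (.s k148 k20 7 (.d k104 k124 k60 5 13))))), (.s k64 k128 7 (.s k68 k119 4 (.s k72
  k76 1 (.s k12 k132 9 (.s k8 k4 1 (.d k136 k200 k204 7 9)))))), (.s k68 k119 4 (.s k84 k168 13 (.s
  k100 k116 3 (.s k204 k136 9 (.s k152 k48 13 (.d k220 k236 k16 3 9))))))] .n) (.c k171 (.q k87 [(.s
  k128 k64 7 (.s k232 k212 5 (.s k168 k84 13 (.s k104 k40 7 (.d k148 k188 k60 5 13))))), (.s k68
  k119 4 (.s k204 k136 9 (.s k196 k200 1 (.s k149 k55 12 (.s k21 k213 7 (.d k63 k42 k106 6 14))))))]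
  (.c k149 (.l (.s k128 k64 7 (.s k168 k84 13 (.s k148 k188 5 (.s k104 k60 13 (.d k232 k212 k40 5
  7)))))) (.c k168 (.q k170 [(.s k34 k238 9 (.s k51 k17 4 (.s k68 k119 4 (.d k204 k136 k153 9
  14)))), (.s k64 k128 7 (.s k106 k127 6 (.s k42 k234 7 (.d k63 k21 k149 6 14))))] .n) (.c k170 (.l
  (.s k168 k84 13 (.s k128 k64 7 (.s k148 k188 5 (.s k104 k60 13 (.d k232 k212 k40 5 7)))))) .n))))
  .n))) (.c k171 (.q k87 [(.s k64 k128 7 (.s k68 k119 4 (.s k72 k76 1 (.s k12 k132 9 (.s k8 k4 1 (.d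
  k136 k200 k204 7 9)))))), (.s k64 k128 7 (.s k106 k127 6 (.s k98 k110 1 (.s k51 k145 12 (.s k17
  k34 4 (.d k153 k221 k204 9 14)))))), (.s k68 k119 4 (.s k204 k136 9 (.s k196 k200 1 (.s k149 k55
  12 (.s k21 k213 7 (.d k63 k42 k106 6 14))))))] (.c k51 (.l (.s k64 k128 7 (.s k106 k127 6 (.s k63
  k149 14 (.s k110 k98 1 (.s k204 k157 12 (.d k68 k119 k136 4 9))))))) (.c k169 (.q k252 [(.s k128
  k64 7 (.s k232 k212 5 (.s k168 k84 13 (.s k104 k40 7 (.d k148 k188 k60 5 13))))), (.s k68 k119 4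
  (.s k204 k136 9 (.s k196 k200 1 (.s k149 k55 12 (.s k21 k213 7 (.d k63 k42 k106 6 14))))))] (.c
  k149 (.l (.s k128 k64 7 (.s k168 k84 13 (.s k148 k188 5 (.s k104 k60 13 (.d k232 k212 k40 5
  7)))))) (.c k168 (.q k170 [(.s k34 k238 9 (.s k51 k17 4 (.s k68 k119 4 (.d k204 k136 k153 9
  14)))), (.s k64 k128 7 (.s k106 k127 6 (.s k42 k234 7 (.d k63 k21 k149 6 14))))] .n) (.c k170 (.l
  (.s k168 k84 13 (.s k128 k64 7 (.s k148 k188 5 (.s k104 k60 13 (.d k232 k212 k40 5 7)))))) .n))))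
  (.c k204 (.l (.s k64 k128 7 (.s k68 k119 4 (.s k76 k72 1 (.s k89 k115 6 (.s k93 k81 1 (.d k127
  k110 k106 4 6))))))) (.c k252 (.q k169 [(.s k64 k128 7 (.s k68 k119 4 (.s k72 k76 1 (.s k12 k132 9
  (.s k8 k4 1 (.d k136 k200 k204 7 9)))))), (.s k64 k128 7 (.s k106 k127 6 (.s k98 k110 1 (.s k51
  k145 12 (.s k17 k34 4 (.d k153 k221 k204 9 14)))))), (.s k68 k119 4 (.s k204 k136 9 (.s k196 k200
  1 (.s k149 k55 12 (.s k21 k213 7 (.d k63 k42 k106 6 14))))))] (.c k51 (.l (.s k64 k128 7 (.s k106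
  k127 6 (.s k63 k149 14 (.s k110 k98 1 (.s k204 k157 12 (.d k68 k119 k136 4 9))))))) (.c k204 (.l
  (.s k64 k128 7 (.s k68 k119 4 (.s k76 k72 1 (.s k89 k115 6 (.s k93 k81 1 (.d k127 k110 k106 4
  6))))))) (.c k253 (.q k254 [(.s k64 k128 7 (.s k68 k119 4 (.s k72 k76 1 (.s k12 k132 9 (.s k8 k4 1
  (.d k136 k200 k204 7 9)))))), (.s k64 k128 7 (.s k106 k127 6 (.s k98 k110 1 (.s k51 k145 12 (.s
  k17 k34 4 (.d k153 k221 k204 9 14)))))), (.s k68 k119 4 (.s k204 k136 9 (.s k196 k200 1 (.s k149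
  k55 12 (.s k21 k213 7 (.d k63 k42 k106 6 14))))))] (.c k51 (.l (.s k64 k128 7 (.s k106 k127 6 (.s
  k63 k149 14 (.s k110 k98 1 (.s k204 k157 12 (.d k68 k119 k136 4 9))))))) (.c k204 (.l (.s k64 k128
  7 (.s k68 k119 4 (.s k76 k72 1 (.s k89 k115 6 (.s k93 k81 1 (.d k127 k110 k106 4 6))))))) .n)))
  (.c k254 (.l (.s k253 k1 13 (.s k64 k128 7 (.s k68 k119 4 (.s k72 k76 1 (.s k12 k132 9 (.s k8 k4 1
  (.d k136 k200 k204 7 9)))))))) .n))))) .n))))) (.c k204 (.l (.s k64 k128 7 (.s k68 k119 4 (.s k76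
  k72 1 (.s k89 k115 6 (.s k93 k81 1 (.d k127 k110 k106 4 6))))))) (.c k252 (.q k169 [(.s k64 k128 7
  (.s k68 k119 4 (.s k72 k76 1 (.s k12 k132 9 (.s k8 k4 1 (.d k136 k200 k204 7 9)))))), (.s k64 k128
  7 (.s k106 k127 6 (.s k98 k110 1 (.s k51 k145 12 (.s k17 k34 4 (.d k153 k221 k204 9 14)))))), (.s
  k68 k119 4 (.s k204 k136 9 (.s k196 k200 1 (.s k149 k55 12 (.s k21 k213 7 (.d k63 k42 k106 6
  14))))))] (.c k51 (.l (.s k64 k128 7 (.s k106 k127 6 (.s k63 k149 14 (.s k110 k98 1 (.s k204 k157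
  12 (.d k68 k119 k136 4 9))))))) (.c k87 (.q k171 [(.s k64 k128 7 (.s k106 k127 6 (.s k63 k149 14
  (.s k42 k21 6 (.d k170 k168 k234 0 7))))), (.s k35 k236 10 (.s k170 k168 0 (.s k34 k238 9 (.s k32
  k33 0 (.d k239 k103 k101 9 10))))), (.s k64 k128 7 (.s k68 k119 4 (.s k72 k76 1 (.s k12 k132 9 (.s
  k8 k4 1 (.d k136 k200 k204 7 9))))))] (.c k253 (.q k254 [(.s k64 k128 7 (.s k106 k127 6 (.s k63
  k149 14 (.s k42 k21 6 (.d k170 k168 k234 0 7))))), (.s k35 k236 10 (.s k170 k168 0 (.s k34 k238 9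
  (.s k32 k33 0 (.d k239 k103 k101 9 10))))), (.s k64 k128 7 (.s k68 k119 4 (.s k72 k76 1 (.s k12
  k132 9 (.s k8 k4 1 (.d k136 k200 k204 7 9))))))] .n) (.c k254 (.l (.s k253 k1 13 (.s k35 k236 10
  (.s k170 k168 0 (.s k34 k238 9 (.s k32 k33 0 (.d k239 k103 k101 9 10))))))) .n))) (.c k171 (.q k87
  [(.s k64 k128 7 (.s k68 k119 4 (.s k72 k76 1 (.s k12 k132 9 (.s k8 k4 1 (.d k136 k200 k204 7
  9)))))), (.s k64 k128 7 (.s k106 k127 6 (.s k98 k110 1 (.s k51 k145 12 (.s k17 k34 4 (.d k153 k221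
  k204 9 14)))))), (.s k68 k119 4 (.s k204 k136 9 (.s k196 k200 1 (.s k149 k55 12 (.s k21 k213 7 (.d
  k63 k42 k106 6 14))))))] (.c k51 (.l (.s k64 k128 7 (.s k106 k127 6 (.s k63 k149 14 (.s k110 k98 1
  (.s k204 k157 12 (.d k68 k119 k136 4 9))))))) (.c k204 (.l (.s k64 k128 7 (.s k68 k119 4 (.s k76
  k72 1 (.s k89 k115 6 (.s k93 k81 1 (.d k127 k110 k106 4 6))))))) (.c k253 (.q k254 [(.s k64 k128 7
  (.s k68 k119 4 (.s k72 k76 1 (.s k12 k132 9 (.s k8 k4 1 (.d k136 k200 k204 7 9)))))), (.s k64 k128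
  7 (.s k106 k127 6 (.s k98 k110 1 (.s k51 k145 12 (.s k17 k34 4 (.d k153 k221 k204 9 14)))))), (.s
  k68 k119 4 (.s k204 k136 9 (.s k196 k200 1 (.s k149 k55 12 (.s k21 k213 7 (.d k63 k42 k106 6
  14))))))] (.c k51 (.l (.s k64 k128 7 (.s k106 k127 6 (.s k63 k149 14 (.s k110 k98 1 (.s k204 k157
  12 (.d k68 k119 k136 4 9))))))) (.c k204 (.l (.s k64 k128 7 (.s k68 k119 4 (.s k76 k72 1 (.s k89
  k115 6 (.s k93 k81 1 (.d k127 k110 k106 4 6))))))) .n))) (.c k254 (.l (.s k253 k1 13 (.s k64 k128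
  7 (.s k68 k119 4 (.s k72 k76 1 (.s k12 k132 9 (.s k8 k4 1 (.d k136 k200 k204 7 9)))))))) .n)))))
  (.c k204 (.l (.s k64 k128 7 (.s k68 k119 4 (.s k76 k72 1 (.s k89 k115 6 (.s k93 k81 1 (.d k127
  k110 k106 4 6))))))) (.c k253 (.q k254 [(.s k64 k128 7 (.s k68 k119 4 (.s k72 k76 1 (.s k12 k132 9
  (.s k8 k4 1 (.d k136 k200 k204 7 9)))))), (.s k64 k128 7 (.s k106 k127 6 (.s k98 k110 1 (.s k51
  k145 12 (.s k17 k34 4 (.d k153 k221 k204 9 14)))))), (.s k68 k119 4 (.s k204 k136 9 (.s k196 k200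
  1 (.s k149 k55 12 (.s k21 k213 7 (.d k63 k42 k106 6 14))))))] (.c k51 (.l (.s k64 k128 7 (.s k106
  k127 6 (.s k63 k149 14 (.s k110 k98 1 (.s k204 k157 12 (.d k68 k119 k136 4 9))))))) (.c k87 (.q
  k171 [(.s k64 k128 7 (.s k106 k127 6 (.s k63 k149 14 (.s k42 k21 6 (.d k170 k168 k234 0 7))))),
  (.s k35 k236 10 (.s k170 k168 0 (.s k34 k238 9 (.s k32 k33 0 (.d k239 k103 k101 9 10))))), (.s k64
  k128 7 (.s k68 k119 4 (.s k72 k76 1 (.s k12 k132 9 (.s k8 k4 1 (.d k136 k200 k204 7 9))))))] .n)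
  (.c k171 (.q k87 [(.s k64 k128 7 (.s k68 k119 4 (.s k72 k76 1 (.s k12 k132 9 (.s k8 k4 1 (.d k136
  k200 k204 7 9)))))), (.s k64 k128 7 (.s k106 k127 6 (.s k98 k110 1 (.s k51 k145 12 (.s k17 k34 4
  (.d k153 k221 k204 9 14)))))), (.s k68 k119 4 (.s k204 k136 9 (.s k196 k200 1 (.s k149 k55 12 (.s
  k21 k213 7 (.d k63 k42 k106 6 14))))))] (.c k51 (.l (.s k64 k128 7 (.s k106 k127 6 (.s k63 k149 14
  (.s k110 k98 1 (.s k204 k157 12 (.d k68 k119 k136 4 9))))))) (.c k204 (.l (.s k64 k128 7 (.s k68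
  k119 4 (.s k76 k72 1 (.s k89 k115 6 (.s k93 k81 1 (.d k127 k110 k106 4 6))))))) .n))) (.c k204 (.l
  (.s k64 k128 7 (.s k68 k119 4 (.s k76 k72 1 (.s k89 k115 6 (.s k93 k81 1 (.d k127 k110 k106 4
  6))))))) .n))))) (.c k254 (.l (.s k253 k1 13 (.s k64 k128 7 (.s k68 k119 4 (.s k72 k76 1 (.s k12
  k132 9 (.s k8 k4 1 (.d k136 k200 k204 7 9)))))))) .n))))))) .n))))))) .n))))))))))))))

/-- roots with certificates -/
def certs : List (Cell TT 256 × Cell TT 256 × T TT 256) :=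
  [(k3, k13, t3_13), (k3, k14, t3_14), (k3, k20, t3_20), (k3, k22, t3_22), (k3, k23, t3_23), (k3,
  k24, t3_24), (k3, k25, t3_25), (k3, k26, t3_26), (k3, k27, t3_27), (k3, k28, t3_28), (k3, k29,
  t3_29), (k3, k30, t3_30), (k3, k31, t3_31), (k3, k40, t3_40), (k3, k41, t3_41), (k3, k42, t3_42),
  (k3, k43, t3_43), (k3, k44, t3_44), (k3, k45, t3_45), (k3, k46, t3_46), (k3, k47, t3_47), (k3,
  k60, t3_60), (k3, k61, t3_61), (k3, k62, t3_62), (k3, k63, t3_63), (k3, k86, t3_86)]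

theorem c3_13 : rootOK k3 k13 t3_13 = true := by decide +kernel

theorem c3_14 : rootOK k3 k14 t3_14 = true := by decide +kernel

theorem c3_20 : rootOK k3 k20 t3_20 = true := by decide +kernel

theorem c3_22 : rootOK k3 k22 t3_22 = true := by decide +kernel

theorem c3_23 : rootOK k3 k23 t3_23 = true := by decide +kernel

theorem c3_24 : rootOK k3 k24 t3_24 = true := by decide +kernel

theorem c3_25 : rootOK k3 k25 t3_25 = true := by decide +kernel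

theorem c3_26 : rootOK k3 k26 t3_26 = true := by decide +kernel

theorem c3_27 : rootOK k3 k27 t3_27 = true := by decide +kernel

theorem c3_28 : rootOK k3 k28 t3_28 = true := by decide +kernel

theorem c3_29 : rootOK k3 k29 t3_29 = true := by decide +kernel

theorem c3_30 : rootOK k3 k30 t3_30 = true := by decide +kernel

theorem c3_31 : rootOK k3 k31 t3_31 = true := by decide +kernel

theorem c3_40 : rootOK k3 k40 t3_40 = true := by decide +kernel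

theorem c3_41 : rootOK k3 k41 t3_41 = true := by decide +kernel

theorem c3_42 : rootOK k3 k42 t3_42 = true := by decide +kernel

theorem c3_43 : rootOK k3 k43 t3_43 = true := by decide +kernel

theorem c3_44 : rootOK k3 k44 t3_44 = true := by decide +kernel

theorem c3_45 : rootOK k3 k45 t3_45 = true := by decide +kernel

theorem c3_46 : rootOK k3 k46 t3_46 = true := by decide +kernel

theorem c3_47 : rootOK k3 k47 t3_47 = true := by decide +kernel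

theorem c3_60 : rootOK k3 k60 t3_60 = true := by decide +kernel

theorem c3_61 : rootOK k3 k61 t3_61 = true := by decide +kernel

theorem c3_62 : rootOK k3 k62 t3_62 = true := by decide +kernel

theorem c3_63 : rootOK k3 k63 t3_63 = true := by decide +kernel

theorem c3_86 : rootOK k3 k86 t3_86 = true := by decide +kernel

theorem ok : certsOK certs = true :=
  certsOK_cons c3_13 (certsOK_cons c3_14 (certsOK_cons c3_20 (certsOK_cons c3_22 (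
  certsOK_cons c3_23 (certsOK_cons c3_24 (certsOK_cons c3_25 (certsOK_cons c3_26 (
  certsOK_cons c3_27 (certsOK_cons c3_28 (certsOK_cons c3_29 (certsOK_cons c3_30 (
  certsOK_cons c3_31 (certsOK_cons c3_40 (certsOK_cons c3_41 (certsOK_cons c3_42 (
  certsOK_cons c3_43 (certsOK_cons c3_44 (certsOK_cons c3_45 (certsOK_cons c3_46 (
  certsOK_cons c3_47 (certsOK_cons c3_60 (certsOK_cons c3_61 (certsOK_cons c3_62 (
  certsOK_cons c3_63 (certsOK_cons c3_86 (certsOK_nil))))))))))))))))))))))))))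

theorem sound (k : Nat) (hk : (bits certs).testBit k = true) : PI k :=
  certs_sound certs ok k hk

end Pool.Agent.TTT.A04
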