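import Pool.Agent.TTT.Sym

set_option autoImplicit false
set_option maxRecDepth 100000

namespace Pool.Agent.TTT.A05

def t3_88 : T TT 256 :=
  (.f k255 k170 14 (.q k102 [(.s k68 k119 4 (.s k204 k136 9 (.s k221 k238 4 (.d k153 k17 k51 9
  14))))] (.c k17 (.q k4 [(.s k12 k8 1 (.s k93 k174 12 (.s k166 k247 12 (.d k89 k81 k243 1 14)))),
  (.s k68 k119 4 (.s k166 k247 12 (.s k38 k230 7 (.s k55 k21 4 (.d k196 k132 k149 7 12))))), (.s k12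
  k8 1 (.s k68 k119 4 (.s k132 k196 7 (.s k72 k192 9 (.s k76 k64 1 (.d k204 k140 k136 7 9))))))] .n)
  (.c k51 (.f k68 k119 4 (.q k117 [(.s k48 k186 10 (.s k16 k32 3 (.s k101 k69 3 (.d k154 k223 k207
  10 14)))), (.s k101 k69 3 (.s k100 k103 0 (.s k204 k136 9 (.d k48 k186 k152 10 13)))), (.s k48
  k186 10 (.s k32 k16 3 (.s k204 k136 9 (.s k100 k152 13 (.s k84 k116 3 (.d k168 k236 k252 9
  13))))))] (.c k19 (.q k35 [(.s k48 k186 10 (.s k16 k32 3 (.s k101 k69 3 (.d k154 k223 k207 10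
  14)))), (.s k101 k69 3 (.s k100 k103 0 (.s k84 k116 3 (.s k236 k169 10 (.d k168 k252 k32 13
  9))))), (.s k48 k186 10 (.s k32 k16 3 (.s k204 k136 9 (.s k100 k152 13 (.d k236 k168 k169 9
  10)))))] (.c k32 (.l (.s k48 k186 10 (.s k101 k69 3 (.s k100 k103 0 (.d k204 k136 k152 9 13)))))
  .n)) (.c k35 (.q k19 [(.s k48 k186 10 (.s k16 k32 3 (.s k101 k69 3 (.d k154 k223 k207 10 14)))),
  (.s k48 k186 10 (.s k32 k16 3 (.s k204 k136 9 (.s k100 k152 13 (.s k84 k116 3 (.d k168 k236 k252 9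
  13)))))), (.s k101 k69 3 (.s k100 k103 0 (.s k204 k136 9 (.d k48 k186 k152 10 13)))), (.s k69 k101
  3 (.s k70 k71 0 (.s k86 k118 3 (.s k87 k84 0 (.s k223 k155 9 (.d k207 k239 k138 3 10))))))] .n)
  (.c k48 (.l (.s k69 k101 3 (.s k204 k136 9 (.s k207 k138 10 (.s k205 k206 0 (.s k221 k238 4 (.s
  k253 k237 3 (.d k1 k137 k169 9 13)))))))) (.c k186 (.l (.s k101 k69 3 (.s k100 k103 0 (.s k204
  k136 9 (.s k48 k152 13 (.s k16 k32 3 (.d k154 k207 k223 14 10))))))) .n)))))) (.c k68 (.q k21 [(.s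
  k63 k42 6 (.s k127 k191 7 (.s k149 k213 7 (.d k106 k64 k192 6 14)))), (.s k149 k213 7 (.s k55 k196
  12 (.s k4 k38 4 (.s k12 k8 1 (.s k93 k174 12 (.s k89 k81 1 (.d k166 k247 k243 12 14)))))))] (.c
  k149 (.f k63 k42 6 (.q k106 [(.d k127 k191 k64 7 6), (.s k110 k98 1 (.s k204 k157 12 (.s k153 k51
  14 (.d k221 k238 k17 4 9))))] (.c k128 (.l (.s k191 k127 7 (.s k110 k98 1 (.s k204 k157 12 (.s
  k153 k51 14 (.d k221 k238 k17 4 9)))))) (.c k191 (.q k128 [(.d k64 k127 k192 6 7), (.s k110 k98 1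
  (.s k204 k157 12 (.s k221 k238 4 (.d k153 k17 k51 9 14))))] .n) .n)))) (.c k213 (.l (.s k63 k42 6
  (.s k127 k191 7 (.s k106 k64 6 (.s k110 k98 1 (.s k204 k157 12 (.s k153 k51 14 (.d k221 k238 k17 4
  9)))))))) .n))) (.c k119 (.q k247 [(.s k166 k4 12 (.s k243 k251 1 (.s k81 k162 12 (.d k89 k93 k12
  1 14)))), (.s k166 k4 12 (.s k230 k38 7 (.s k213 k196 4 (.s k192 k234 6 (.s k64 k128 7 (.s k106
  k127 6 (.d k149 k21 k63 7 14)))))))] (.c k4 (.l (.s k243 k251 1 (.s k81 k162 12 (.s k89 k93 1 (.s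
  k115 k76 6 (.s k51 k179 7 (.s k17 k34 4 (.d k153 k221 k204 9 14)))))))) (.c k166 (.f k243 k251 1
  (.q k89 [(.d k81 k162 k93 12 1), (.s k115 k76 6 (.s k51 k179 7 (.s k17 k34 4 (.d k153 k221 k204 9
  14))))] (.c k162 (.q k174 [(.d k93 k81 k12 1 12), (.s k115 k76 6 (.s k51 k179 7 (.s k17 k34 4 (.d
  k153 k221 k204 9 14))))] .n) (.c k174 (.l (.s k162 k81 12 (.s k115 k76 6 (.s k51 k179 7 (.s k17
  k34 4 (.d k153 k221 k204 9 14)))))) .n)))) .n))) (.c k136 (.l (.s k119 k68 4 (.s k51 k187 9 (.s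
  k153 k204 14 (.d k17 k34 k221 4 9))))) (.c k153 (.f k119 k68 4 (.q k247 [(.s k55 k183 7 (.s k149
  k196 12 (.s k21 k213 7 (.d k4 k38 k166 4 12)))), (.s k243 k251 1 (.s k81 k162 12 (.s k89 k93 1 (.d
  k166 k4 k12 12 14))))] (.c k4 (.l (.s k183 k55 7 (.s k187 k51 9 (.s k191 k179 1 (.s k63 k127 7 (.d
  k243 k251 k123 1 9)))))) (.c k136 (.l (.s k187 k51 9 (.s k4 k166 12 (.s k55 k183 7 (.s k21 k38 4
  (.d k149 k213 k196 7 12)))))) (.c k166 (.l (.s k55 k183 7 (.s k149 k196 12 (.s k21 k213 7 (.s k63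
  k42 6 (.d k51 k59 k187 1 9)))))) (.c k187 (.q k136 [(.s k166 k4 12 (.s k230 k38 7 (.s k196 k213 4
  (.d k55 k183 k149 7 12)))), (.s k243 k251 1 (.s k81 k162 12 (.s k89 k93 1 (.d k166 k4 k12 12
  14))))] (.c k4 (.l (.s k183 k55 7 (.s k243 k251 1 (.s k81 k162 12 (.s k89 k93 1 (.s k115 k76 6 (.d
  k123 k127 k63 1 9))))))) (.c k166 (.l (.s k55 k183 7 (.s k149 k196 12 (.s k21 k213 7 (.s k63 k42 6
  (.s k106 k192 14 (.d k127 k191 k64 7 6))))))) .n))) .n)))))) (.c k187 (.l (.s k68 k119 4 (.s k204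
  k136 9 (.s k153 k51 14 (.d k221 k238 k17 4 9))))) (.c k204 (.f k68 k119 4 (.q k4 [(.s k166 k247 12
  (.s k196 k132 7 (.s k55 k149 12 (.d k38 k21 k230 4 7)))), (.s k12 k8 1 (.s k93 k174 12 (.s k89 k81
  1 (.s k76 k115 6 (.s k64 k72 1 (.d k127 k110 k106 4 6))))))] (.c k70 (.q k137 [(.s k166 k247 12
  (.s k196 k132 7 (.s k55 k149 12 (.d k38 k21 k230 4 7)))), (.s k12 k8 1 (.s k93 k174 12 (.s k89 k81
  1 (.s k76 k115 6 (.s k64 k72 1 (.d k127 k110 k106 4 6))))))] (.c k166 (.l (.s k196 k132 7 (.s k149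
  k55 12 (.s k21 k213 7 (.s k63 k42 6 (.s k106 k192 14 (.d k127 k64 k191 6 7))))))) .n)) (.c k137
  (.q k70 [(.s k71 k69 0 (.s k86 k118 3 (.s k84 k87 0 (.d k116 k100 k101 3 4)))), (.s k12 k8 1 (.s
  k93 k174 12 (.s k89 k81 1 (.d k166 k247 k243 12 14))))] .n) (.c k166 (.l (.s k196 k132 7 (.s k149
  k55 12 (.s k21 k213 7 (.s k63 k42 6 (.s k106 k192 14 (.d k127 k64 k191 6 7))))))) .n))))) (.c k221
  (.q k4 [(.s k12 k8 1 (.s k93 k174 12 (.s k89 k81 1 (.d k166 k247 k243 12 14)))), (.s k68 k119 4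
  (.s k166 k247 12 (.s k38 k230 7 (.s k55 k21 4 (.d k196 k132 k149 7 12))))), (.s k12 k8 1 (.s k68
  k119 4 (.s k132 k196 7 (.s k72 k192 9 (.s k76 k64 1 (.d k204 k140 k136 7 9))))))] .n) (.c k238 (.l
  (.s k119 k68 4 (.s k51 k187 9 (.s k17 k34 4 (.d k153 k221 k204 9 14))))) .n))))))))))))

def t3_89 : T TT 256 :=
  (.q k154 [(.s k16 k223 10 (.s k48 k32 3 (.s k101 k207 14 (.s k117 k69 3 (.d k255 k186 k170 10
  14))))), (.s k223 k16 10 (.s k255 k170 14 (.s k207 k239 3 (.s k101 k48 14 (.d k69 k117 k138 3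
  10)))))] (.c k16 (.q k5 [(.s k15 k10 2 (.s k165 k245 11 (.s k170 k255 14 (.s k160 k175 2 (.d k240
  k80 k90 11 14))))), (.s k15 k10 2 (.s k165 k245 11 (.s k143 k176 6 (.s k207 k79 7 (.s k69 k138 10
  (.d k101 k117 k48 3 14)))))), (.s k165 k245 11 (.s k143 k176 6 (.s k170 k255 14 (.s k138 k186 3
  (.s k69 k207 10 (.d k133 k128 k197 2 7)))))), (.s k10 k15 2 (.s k170 k255 14 (.s k138 k186 3 (.s
  k202 k74 7 (.s k58 k106 11 (.s k26 k42 3 (.d k90 k218 k250 7 11)))))))] .n) (.c k32 (.l (.s k223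
  k16 10 (.s k255 k170 14 (.s k207 k239 3 (.s k101 k48 14 (.d k69 k117 k138 3 10)))))) (.c k48 (.q
  k18 [(.s k16 k223 10 (.s k19 k17 0 (.s k86 k222 9 (.s k84 k87 0 (.d k220 k152 k153 9 10))))), (.s
  k86 k222 9 (.s k170 k255 14 (.s k2 k254 13 (.s k50 k34 3 (.s k206 k102 13 (.d k138 k186 k70 3
  9)))))), (.s k16 k223 10 (.s k17 k19 0 (.s k51 k34 4 (.s k255 k170 14 (.s k119 k187 9 (.s k102 k68
  4 (.d k153 k221 k204 9 14)))))))] (.c k87 (.f k222 k86 9 (.l (.s k223 k16 10 (.s k221 k220 0 (.s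
  k153 k17 9 (.s k255 k170 14 (.s k204 k238 4 (.s k68 k136 9 (.d k102 k119 k51 4 14))))))))) (.c
  k255 (.l (.s k16 k223 10 (.s k19 k17 0 (.s k86 k222 9 (.s k220 k153 10 (.d k84 k87 k152 0 9))))))
  .n))) (.c k69 (.q k5 [(.s k15 k10 2 (.s k165 k245 11 (.s k90 k240 14 (.s k95 k80 2 (.d k255 k175
  k170 11 14))))), (.s k16 k223 10 (.s k48 k32 3 (.s k101 k207 14 (.s k165 k245 11 (.s k37 k229 7
  (.s k21 k53 3 (.d k26 k31 k15 2 6))))))), (.s k10 k15 2 (.s k170 k255 14 (.s k138 k186 3 (.s k202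
  k74 7 (.s k58 k106 11 (.s k26 k42 3 (.d k90 k218 k250 7 11)))))))] (.c k15 (.l (.s k16 k223 10 (.s
  k48 k32 3 (.s k165 k245 11 (.s k170 k255 14 (.s k176 k143 6 (.s k240 k112 7 (.d k160 k175 k80 2
  11)))))))) (.c k255 (.l (.s k15 k10 2 (.s k16 k223 10 (.s k48 k32 3 (.s k26 k37 6 (.s k90 k218 7
  (.d k165 k245 k240 11 14))))))) .n))) (.c k101 (.f k223 k16 10 (.f k170 k255 14 (.q k87 [(.s k19
  k155 9 (.s k86 k84 0 (.s k222 k18 9 (.d k220 k221 k153 0 10)))), (.s k84 k86 0 (.s k168 k252 13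
  (.s k169 k171 0 (.s k184 k139 4 (.s k152 k136 3 (.d k155 k153 k19 0 9)))))), (.s k86 k84 0 (.s k2
  k254 13 (.s k18 k222 9 (.s k50 k34 3 (.s k138 k186 3 (.d k206 k70 k102 9 13)))))), (.s k138 k186 3
  (.s k155 k19 9 (.s k207 k69 10 (.s k51 k103 13 (.s k17 k34 4 (.d k153 k152 k221 0 9))))))] (.c k77
  (.q k113 [(.s k19 k155 9 (.s k86 k84 0 (.s k222 k18 9 (.d k220 k221 k153 0 10)))), (.s k84 k86 0
  (.s k168 k252 13 (.s k169 k171 0 (.s k184 k139 4 (.s k152 k136 3 (.d k155 k153 k19 0 9)))))), (.s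
  k86 k84 0 (.s k2 k254 13 (.s k18 k222 9 (.s k50 k34 3 (.s k138 k186 3 (.d k206 k70 k102 9
  13)))))), (.s k138 k186 3 (.s k155 k19 9 (.s k207 k69 10 (.s k51 k103 13 (.s k17 k34 4 (.d k153
  k152 k221 0 9))))))] (.c k152 (.l (.s k19 k155 9 (.s k86 k84 0 (.s k220 k153 10 (.d k222 k221 k18
  0 9))))) .n)) (.c k113 (.q k77 [(.s k19 k155 9 (.s k86 k84 0 (.s k222 k18 9 (.d k220 k221 k153 0
  10)))), (.s k84 k86 0 (.s k168 k252 13 (.s k169 k171 0 (.s k184 k139 4 (.s k152 k136 3 (.d k155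
  k153 k19 0 9)))))), (.s k86 k84 0 (.s k2 k254 13 (.s k18 k222 9 (.s k50 k34 3 (.s k138 k186 3 (.d
  k206 k70 k102 9 13)))))), (.s k138 k186 3 (.s k155 k19 9 (.s k207 k69 10 (.s k51 k103 13 (.s k17
  k34 4 (.d k153 k152 k221 0 9))))))] (.c k152 (.l (.s k19 k155 9 (.s k86 k84 0 (.s k220 k153 10 (.d
  k222 k221 k18 0 9))))) .n)) (.c k152 (.l (.s k19 k155 9 (.s k86 k84 0 (.s k220 k153 10 (.d k222
  k221 k18 0 9))))) .n)))))) (.c k117 (.l (.s k16 k223 10 (.s k48 k32 3 (.s k170 k255 14 (.s k138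
  k186 3 (.d k207 k69 k101 10 14)))))) (.c k170 (.f k16 k223 10 (.q k5 [(.s k15 k10 2 (.s k48 k32 3
  (.s k165 k245 11 (.s k143 k176 6 (.d k207 k101 k79 14 7))))), (.s k48 k32 3 (.s k101 k207 14 (.s
  k69 k117 3 (.s k165 k245 11 (.s k37 k229 7 (.s k53 k21 3 (.d k197 k133 k149 7 11))))))), (.s k15
  k10 2 (.s k165 k245 11 (.s k90 k240 14 (.s k26 k218 7 (.s k31 k21 2 (.s k80 k95 2 (.d k208 k144
  k149 7 10))))))), (.s k15 k10 2 (.s k48 k32 3 (.s k26 k37 6 (.s k31 k21 2 (.s k90 k218 7 (.s k80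
  k95 2 (.d k208 k144 k149 7 10)))))))] (.c k8 (.q k251 [(.s k15 k10 2 (.s k48 k32 3 (.s k165 k245
  11 (.s k143 k176 6 (.d k207 k101 k79 14 7))))), (.s k48 k32 3 (.s k101 k207 14 (.s k69 k117 3 (.s
  k165 k245 11 (.s k37 k229 7 (.s k53 k21 3 (.d k197 k133 k149 7 11))))))), (.s k15 k10 2 (.s k165
  k245 11 (.s k90 k240 14 (.s k26 k218 7 (.s k31 k21 2 (.s k80 k95 2 (.d k208 k144 k149 7 10))))))),
  (.s k15 k10 2 (.s k48 k32 3 (.s k26 k37 6 (.s k31 k21 2 (.s k90 k218 7 (.s k80 k95 2 (.d k208 k144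
  k149 7 10)))))))] .n) (.c k251 (.q k8 [(.s k12 k4 1 (.s k48 k32 3 (.s k24 k36 5 (.s k40 k56 3 (.d
  k20 k28 k60 1 5))))), (.s k4 k12 1 (.s k165 k245 11 (.s k166 k247 12 (.s k164 k167 0 (.s k244 k84
  11 (.d k7 k6 k86 0 12)))))), (.s k15 k10 2 (.s k48 k32 3 (.s k26 k37 6 (.s k90 k218 7 (.d k165
  k245 k240 11 14)))))] .n) .n)))) (.c k207 (.f k223 k16 10 (.q k159 [(.s k31 k95 7 (.s k149 k144 2
  (.s k213 k21 7 (.d k208 k218 k90 2 10)))), (.s k149 k144 2 (.s k170 k255 14 (.s k186 k138 3 (.s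
  k191 k128 6 (.s k143 k175 3 (.d k176 k181 k165 2 6)))))), (.s k95 k31 7 (.s k255 k170 14 (.s k15
  k175 11 (.s k5 k10 2 (.s k165 k245 11 (.d k90 k80 k240 2 14))))))] (.c k71 (.q k139 [(.s k31 k95 7
  (.s k149 k144 2 (.s k213 k21 7 (.d k208 k218 k90 2 10)))), (.s k149 k144 2 (.s k170 k255 14 (.s
  k186 k138 3 (.s k191 k128 6 (.s k143 k175 3 (.d k176 k181 k165 2 6)))))), (.s k95 k31 7 (.s k255
  k170 14 (.s k15 k175 11 (.s k5 k10 2 (.s k165 k245 11 (.d k90 k80 k240 2 14))))))] (.c k80 (.l (.s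
  k31 k95 7 (.s k149 k144 2 (.s k208 k90 10 (.d k213 k218 k21 2 7))))) (.c k95 (.l (.s k149 k144 2
  (.s k21 k213 7 (.s k63 k42 6 (.s k106 k192 14 (.s k127 k64 6 (.d k255 k191 k170 7 14))))))) .n)))
  (.c k80 (.l (.s k31 k95 7 (.s k149 k144 2 (.s k208 k90 10 (.d k213 k218 k21 2 7))))) (.c k95 (.l
  (.s k149 k144 2 (.s k21 k213 7 (.s k63 k42 6 (.s k106 k192 14 (.s k127 k64 6 (.d k255 k191 k170 7
  14))))))) (.c k139 (.q k71 [(.s k31 k95 7 (.s k149 k144 2 (.s k213 k21 7 (.d k208 k218 k90 2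
  10)))), (.s k149 k144 2 (.s k170 k255 14 (.s k186 k138 3 (.s k191 k128 6 (.s k143 k175 3 (.d k176
  k181 k165 2 6)))))), (.s k95 k31 7 (.s k255 k170 14 (.s k15 k175 11 (.s k5 k10 2 (.s k165 k245 11
  (.d k90 k80 k240 2 14))))))] (.c k80 (.l (.s k31 k95 7 (.s k149 k144 2 (.s k208 k90 10 (.d k213
  k218 k21 2 7))))) (.c k95 (.l (.s k149 k144 2 (.s k21 k213 7 (.s k63 k42 6 (.s k106 k192 14 (.s
  k127 k64 6 (.d k255 k191 k170 7 14))))))) .n))) .n)))))) (.c k223 (.q k5 [(.s k15 k10 2 (.s k165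
  k245 11 (.s k90 k240 14 (.s k95 k80 2 (.d k255 k175 k170 11 14))))), (.s k15 k10 2 (.s k165 k245
  11 (.s k143 k176 6 (.s k207 k79 7 (.s k69 k138 10 (.d k101 k117 k48 3 14)))))), (.s k165 k245 11
  (.s k143 k176 6 (.s k170 k255 14 (.s k138 k186 3 (.s k133 k128 2 (.d k69 k207 k197 10 7)))))), (.s
  k10 k15 2 (.s k170 k255 14 (.s k138 k186 3 (.s k202 k74 7 (.s k58 k106 11 (.s k26 k42 3 (.d k90
  k218 k250 7 11)))))))] .n) (.c k239 (.l (.s k16 k223 10 (.s k48 k32 3 (.s k101 k207 14 (.s k255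
  k170 14 (.d k117 k69 k186 3 10)))))) (.c k255 (.q k240 [(.s k80 k160 11 (.s k90 k95 2 (.s k218 k26
  7 (.s k207 k229 6 (.s k69 k138 10 (.d k101 k117 k48 3 14)))))), (.s k16 k223 10 (.s k48 k32 3 (.s
  k80 k160 11 (.s k112 k176 7 (.s k96 k64 3 (.d k144 k208 k192 7 11)))))), (.s k16 k223 10 (.s k48
  k32 3 (.s k176 k112 7 (.s k165 k143 6 (.s k5 k245 11 (.d k15 k10 k90 2 14))))))] (.c k48 (.l (.s
  k16 k223 10 (.s k80 k160 11 (.s k90 k95 2 (.s k26 k218 7 (.s k31 k21 2 (.d k208 k144 k149 7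
  10))))))) (.c k87 (.q k171 [(.s k80 k160 11 (.s k90 k95 2 (.s k218 k26 7 (.s k207 k229 6 (.s k69
  k138 10 (.d k101 k117 k48 3 14)))))), (.s k16 k223 10 (.s k48 k32 3 (.s k80 k160 11 (.s k112 k176
  7 (.s k96 k64 3 (.d k144 k208 k192 7 11)))))), (.s k16 k223 10 (.s k48 k32 3 (.s k176 k112 7 (.s
  k165 k143 6 (.s k5 k245 11 (.d k15 k10 k90 2 14))))))] (.c k48 (.l (.s k16 k223 10 (.s k80 k160 11
  (.s k90 k95 2 (.s k26 k218 7 (.s k31 k21 2 (.d k208 k144 k149 7 10))))))) (.c k207 (.l (.s k80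
  k160 11 (.s k90 k95 2 (.s k15 k165 14 (.s k26 k218 7 (.s k48 k37 6 (.d k16 k32 k223 3 10)))))))
  .n))) (.c k171 (.q k87 [(.s k86 k84 0 (.s k223 k16 10 (.s k19 k155 9 (.s k220 k153 10 (.d k222
  k221 k18 0 9))))), (.s k80 k160 11 (.s k84 k86 0 (.s k252 k168 13 (.s k244 k248 1 (.s k164 k4 11
  (.d k88 k92 k12 1 13)))))), (.s k16 k223 10 (.s k48 k32 3 (.s k80 k160 11 (.s k90 k95 2 (.s k15
  k165 14 (.d k26 k37 k218 6 7))))))] .n) (.c k207 (.l (.s k80 k160 11 (.s k90 k95 2 (.s k15 k165 14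
  (.s k26 k218 7 (.s k48 k37 6 (.d k16 k32 k223 3 10))))))) .n))))) .n))))))))))))

def t3_90 : T TT 256 :=
  (.q k154 [(.s k16 k223 10 (.s k48 k32 3 (.s k101 k207 14 (.s k117 k69 3 (.d k255 k186 k170 10
  14))))), (.s k223 k16 10 (.s k255 k170 14 (.s k207 k239 3 (.s k101 k48 14 (.d k69 k117 k138 3
  10)))))] (.c k16 (.q k4 [(.s k12 k8 1 (.s k166 k247 12 (.s k170 k255 14 (.s k162 k174 1 (.d k243
  k81 k89 12 14))))), (.s k12 k8 1 (.s k166 k247 12 (.s k142 k178 5 (.s k207 k77 8 (.s k69 k138 10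
  (.d k101 k117 k48 3 14)))))), (.s k166 k247 12 (.s k142 k178 5 (.s k170 k255 14 (.s k138 k186 3
  (.s k69 k207 10 (.d k134 k130 k199 1 8)))))), (.s k8 k12 1 (.s k170 k255 14 (.s k138 k186 3 (.s
  k203 k73 8 (.s k56 k105 12 (.s k24 k40 3 (.d k89 k219 k251 8 12)))))))] .n) (.c k32 (.l (.s k223
  k16 10 (.s k255 k170 14 (.s k207 k239 3 (.s k101 k48 14 (.d k69 k117 k138 3 10)))))) (.c k48 (.q
  k18 [(.s k16 k223 10 (.s k19 k17 0 (.s k86 k222 9 (.s k84 k87 0 (.d k220 k152 k153 9 10))))), (.s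
  k86 k222 9 (.s k170 k255 14 (.s k2 k254 13 (.s k50 k34 3 (.s k206 k102 13 (.d k138 k186 k70 3
  9)))))), (.s k16 k223 10 (.s k17 k19 0 (.s k51 k34 4 (.s k255 k170 14 (.s k119 k187 9 (.s k102 k68
  4 (.d k153 k221 k204 9 14)))))))] (.c k87 (.f k222 k86 9 (.l (.s k223 k16 10 (.s k221 k220 0 (.s
  k153 k17 9 (.s k255 k170 14 (.s k204 k238 4 (.s k68 k136 9 (.d k102 k119 k51 4 14))))))))) (.c
  k255 (.l (.s k16 k223 10 (.s k19 k17 0 (.s k86 k222 9 (.s k220 k153 10 (.d k84 k87 k152 0 9))))))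
  .n))) (.c k69 (.q k4 [(.s k12 k8 1 (.s k166 k247 12 (.s k89 k243 14 (.s k93 k81 1 (.d k255 k174
  k170 12 14))))), (.s k16 k223 10 (.s k48 k32 3 (.s k101 k207 14 (.s k166 k247 12 (.s k36 k231 8
  (.s k20 k52 3 (.d k24 k28 k12 1 5))))))), (.s k8 k12 1 (.s k170 k255 14 (.s k138 k186 3 (.s k203
  k73 8 (.s k56 k105 12 (.s k24 k40 3 (.d k89 k219 k251 8 12)))))))] (.c k12 (.l (.s k16 k223 10 (.s
  k48 k32 3 (.s k166 k247 12 (.s k170 k255 14 (.s k178 k142 5 (.s k243 k113 8 (.d k162 k174 k81 1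
  12)))))))) (.c k255 (.l (.s k12 k8 1 (.s k16 k223 10 (.s k48 k32 3 (.s k24 k36 5 (.s k89 k219 8
  (.d k166 k247 k243 12 14))))))) .n))) (.c k101 (.f k223 k16 10 (.f k170 k255 14 (.q k87 [(.s k19
  k155 9 (.s k86 k84 0 (.s k222 k18 9 (.d k220 k221 k153 0 10)))), (.s k84 k86 0 (.s k168 k252 13
  (.s k169 k171 0 (.s k184 k139 4 (.s k152 k136 3 (.d k155 k153 k19 0 9)))))), (.s k86 k84 0 (.s k2
  k254 13 (.s k18 k222 9 (.s k50 k34 3 (.s k138 k186 3 (.d k206 k70 k102 9 13)))))), (.s k138 k186 3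
  (.s k155 k19 9 (.s k207 k69 10 (.s k51 k103 13 (.s k17 k34 4 (.d k153 k152 k221 0 9))))))] (.c k79
  (.q k112 [(.s k19 k155 9 (.s k86 k84 0 (.s k222 k18 9 (.d k220 k221 k153 0 10)))), (.s k84 k86 0
  (.s k168 k252 13 (.s k169 k171 0 (.s k184 k139 4 (.s k152 k136 3 (.d k155 k153 k19 0 9)))))), (.s
  k86 k84 0 (.s k2 k254 13 (.s k18 k222 9 (.s k50 k34 3 (.s k138 k186 3 (.d k206 k70 k102 9
  13)))))), (.s k138 k186 3 (.s k155 k19 9 (.s k207 k69 10 (.s k51 k103 13 (.s k17 k34 4 (.d k153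
  k152 k221 0 9))))))] (.c k152 (.l (.s k19 k155 9 (.s k86 k84 0 (.s k220 k153 10 (.d k222 k221 k18
  0 9))))) .n)) (.c k112 (.q k79 [(.s k19 k155 9 (.s k86 k84 0 (.s k222 k18 9 (.d k220 k221 k153 0
  10)))), (.s k84 k86 0 (.s k168 k252 13 (.s k169 k171 0 (.s k184 k139 4 (.s k152 k136 3 (.d k155
  k153 k19 0 9)))))), (.s k86 k84 0 (.s k2 k254 13 (.s k18 k222 9 (.s k50 k34 3 (.s k138 k186 3 (.d
  k206 k70 k102 9 13)))))), (.s k138 k186 3 (.s k155 k19 9 (.s k207 k69 10 (.s k51 k103 13 (.s k17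
  k34 4 (.d k153 k152 k221 0 9))))))] (.c k152 (.l (.s k19 k155 9 (.s k86 k84 0 (.s k220 k153 10 (.d
  k222 k221 k18 0 9))))) .n)) (.c k152 (.l (.s k19 k155 9 (.s k86 k84 0 (.s k220 k153 10 (.d k222
  k221 k18 0 9))))) .n)))))) (.c k117 (.l (.s k16 k223 10 (.s k48 k32 3 (.s k170 k255 14 (.s k138
  k186 3 (.d k207 k69 k101 10 14)))))) (.c k170 (.f k16 k223 10 (.q k84 [(.s k86 k87 0 (.s k18 k222
  9 (.s k19 k17 0 (.d k220 k152 k153 9 10)))), (.s k48 k32 3 (.s k152 k220 9 (.s k100 k204 13 (.s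
  k116 k68 3 (.d k252 k184 k168 9 13))))), (.s k48 k32 3 (.s k86 k87 0 (.s k101 k207 14 (.s k252
  k168 13 (.d k116 k71 k184 4 9)))))] (.c k10 (.q k250 [(.s k86 k87 0 (.s k18 k222 9 (.s k19 k17 0
  (.d k220 k152 k153 9 10)))), (.s k48 k32 3 (.s k152 k220 9 (.s k100 k204 13 (.s k116 k68 3 (.d
  k252 k184 k168 9 13))))), (.s k48 k32 3 (.s k86 k87 0 (.s k101 k207 14 (.s k252 k168 13 (.d k116
  k71 k184 4 9)))))] .n) (.c k250 (.q k10 [(.s k86 k87 0 (.s k18 k222 9 (.s k19 k17 0 (.d k220 k152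
  k153 9 10)))), (.s k15 k5 2 (.s k48 k32 3 (.s k26 k37 6 (.s k21 k31 2 (.d k42 k58 k63 3 6)))))]
  .n) .n)))) (.c k207 (.f k223 k16 10 (.q k158 [(.s k28 k93 8 (.s k150 k146 1 (.s k215 k20 8 (.d
  k211 k219 k89 1 10)))), (.s k150 k146 1 (.s k170 k255 14 (.s k186 k138 3 (.s k190 k130 5 (.s k142
  k174 3 (.d k178 k182 k166 1 5)))))), (.s k93 k28 8 (.s k255 k170 14 (.s k12 k174 12 (.s k4 k8 1
  (.s k166 k247 12 (.d k89 k81 k243 1 14))))))] (.c k71 (.q k139 [(.s k28 k93 8 (.s k150 k146 1 (.s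
  k215 k20 8 (.d k211 k219 k89 1 10)))), (.s k93 k28 8 (.s k169 k184 4 (.s k253 k1 13 (.s k173 k13
  11 (.s k143 k188 4 (.d k165 k176 k161 6 1)))))), (.s k150 k146 1 (.s k20 k215 8 (.s k60 k40 5 (.s
  k105 k195 14 (.s k125 k65 5 (.d k255 k190 k170 8 14))))))] (.c k20 (.l (.s k150 k146 1 (.s k169
  k184 4 (.s k188 k131 6 (.s k173 k143 4 (.s k253 k1 13 (.d k93 k28 k13 8 11))))))) .n)) (.c k81 (.l
  (.s k28 k93 8 (.s k150 k146 1 (.s k211 k89 10 (.d k215 k219 k20 1 8))))) (.c k93 (.l (.s k150 k146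
  1 (.s k20 k215 8 (.s k60 k40 5 (.s k105 k195 14 (.s k125 k65 5 (.d k255 k190 k170 8 14))))))) (.c
  k139 (.q k71 [(.s k28 k93 8 (.s k150 k146 1 (.s k215 k20 8 (.d k211 k219 k89 1 10)))), (.s k150
  k146 1 (.s k170 k255 14 (.s k186 k138 3 (.s k190 k130 5 (.s k142 k174 3 (.d k178 k182 k166 1
  5)))))), (.s k93 k28 8 (.s k255 k170 14 (.s k12 k174 12 (.s k4 k8 1 (.s k166 k247 12 (.d k89 k81
  k243 1 14))))))] (.c k81 (.l (.s k28 k93 8 (.s k150 k146 1 (.s k211 k89 10 (.d k215 k219 k20 1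
  8))))) (.c k93 (.l (.s k150 k146 1 (.s k20 k215 8 (.s k60 k40 5 (.s k105 k195 14 (.s k125 k65 5
  (.d k255 k190 k170 8 14))))))) .n))) .n)))))) (.c k223 (.q k4 [(.s k12 k8 1 (.s k166 k247 12 (.s
  k89 k243 14 (.s k93 k81 1 (.d k255 k174 k170 12 14))))), (.s k12 k8 1 (.s k166 k247 12 (.s k142
  k178 5 (.s k207 k77 8 (.s k69 k138 10 (.d k101 k117 k48 3 14)))))), (.s k166 k247 12 (.s k142 k178
  5 (.s k170 k255 14 (.s k138 k186 3 (.s k134 k130 1 (.d k69 k207 k199 10 8)))))), (.s k8 k12 1 (.s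
  k170 k255 14 (.s k138 k186 3 (.s k203 k73 8 (.s k56 k105 12 (.s k24 k40 3 (.d k89 k219 k251 8
  12)))))))] .n) (.c k239 (.l (.s k16 k223 10 (.s k48 k32 3 (.s k101 k207 14 (.s k255 k170 14 (.d
  k117 k69 k186 3 10)))))) (.c k255 (.q k89 [(.s k93 k81 1 (.s k219 k24 8 (.s k223 k16 10 (.s k28
  k158 8 (.d k211 k215 k150 1 10))))), (.s k81 k93 1 (.s k219 k24 8 (.s k243 k162 12 (.s k207 k231 5
  (.s k69 k138 10 (.d k101 k117 k48 3 14)))))), (.s k16 k223 10 (.s k48 k32 3 (.s k81 k93 1 (.s k243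
  k162 12 (.s k113 k178 8 (.d k101 k207 k77 14 5)))))), (.s k16 k223 10 (.s k24 k219 8 (.s k48 k32 3
  (.s k12 k36 5 (.s k4 k8 1 (.d k166 k247 k243 12 14))))))] (.c k87 (.q k171 [(.s k93 k81 1 (.s k219
  k24 8 (.s k223 k16 10 (.s k28 k158 8 (.d k211 k215 k150 1 10))))), (.s k81 k93 1 (.s k219 k24 8
  (.s k243 k162 12 (.s k207 k231 5 (.s k69 k138 10 (.d k101 k117 k48 3 14)))))), (.s k16 k223 10 (.s
  k48 k32 3 (.s k81 k93 1 (.s k243 k162 12 (.s k113 k178 8 (.d k101 k207 k77 14 5)))))), (.s k16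
  k223 10 (.s k24 k219 8 (.s k48 k32 3 (.s k12 k36 5 (.s k4 k8 1 (.d k166 k247 k243 12 14))))))] .n)
  (.c k171 (.q k87 [(.s k81 k93 1 (.s k219 k24 8 (.s k243 k162 12 (.s k207 k231 5 (.s k69 k138 10
  (.d k101 k117 k48 3 14)))))), (.s k86 k84 0 (.s k222 k18 9 (.s k223 k16 10 (.s k19 k155 9 (.d k220
  k221 k153 0 10)))))] (.c k48 (.l (.s k16 k223 10 (.s k24 k219 8 (.s k28 k20 1 (.s k81 k93 1 (.d
  k211 k146 k150 8 10)))))) .n)) .n))) .n))))))))))))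

def t3_91 : T TT 256 :=
  (.f k255 k170 14 (.q k102 [(.s k68 k119 4 (.s k204 k136 9 (.s k221 k238 4 (.d k153 k17 k51 9
  14))))] (.c k17 (.q k4 [(.s k12 k8 1 (.s k93 k174 12 (.s k166 k247 12 (.d k89 k81 k243 1 14)))),
  (.s k68 k119 4 (.s k166 k247 12 (.s k38 k230 7 (.s k55 k21 4 (.d k196 k132 k149 7 12))))), (.s k12
  k8 1 (.s k68 k119 4 (.s k132 k196 7 (.s k72 k192 9 (.s k76 k64 1 (.d k204 k140 k136 7 9))))))] .n)
  (.c k51 (.f k68 k119 4 (.q k117 [(.s k48 k186 10 (.s k16 k32 3 (.s k101 k69 3 (.d k154 k223 k207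
  10 14)))), (.s k101 k69 3 (.s k100 k103 0 (.s k204 k136 9 (.d k48 k186 k152 10 13)))), (.s k48
  k186 10 (.s k32 k16 3 (.s k204 k136 9 (.s k100 k152 13 (.s k84 k116 3 (.d k168 k236 k252 9
  13))))))] (.c k19 (.q k35 [(.s k48 k186 10 (.s k16 k32 3 (.s k101 k69 3 (.d k154 k223 k207 10
  14)))), (.s k101 k69 3 (.s k100 k103 0 (.s k84 k116 3 (.s k236 k169 10 (.d k168 k252 k32 13
  9))))), (.s k48 k186 10 (.s k32 k16 3 (.s k204 k136 9 (.s k100 k152 13 (.d k236 k168 k169 9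
  10)))))] (.c k32 (.l (.s k48 k186 10 (.s k101 k69 3 (.s k100 k103 0 (.d k204 k136 k152 9 13)))))
  .n)) (.c k35 (.q k19 [(.s k48 k186 10 (.s k16 k32 3 (.s k101 k69 3 (.d k154 k223 k207 10 14)))),
  (.s k48 k186 10 (.s k32 k16 3 (.s k204 k136 9 (.s k100 k152 13 (.s k84 k116 3 (.d k168 k236 k252 9
  13)))))), (.s k101 k69 3 (.s k100 k103 0 (.s k204 k136 9 (.d k48 k186 k152 10 13)))), (.s k69 k101
  3 (.s k70 k71 0 (.s k86 k118 3 (.s k87 k84 0 (.s k223 k155 9 (.d k207 k239 k138 3 10))))))] .n)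
  (.c k48 (.l (.s k69 k101 3 (.s k204 k136 9 (.s k207 k138 10 (.s k205 k206 0 (.s k221 k238 4 (.s
  k253 k237 3 (.d k1 k137 k169 9 13)))))))) (.c k186 (.l (.s k101 k69 3 (.s k100 k103 0 (.s k204
  k136 9 (.s k48 k152 13 (.s k16 k32 3 (.d k154 k207 k223 14 10))))))) .n)))))) (.c k68 (.q k4 [(.s
  k12 k8 1 (.s k93 k174 12 (.s k89 k81 1 (.d k166 k247 k243 12 14)))), (.s k166 k247 12 (.s k38 k230
  7 (.s k21 k55 4 (.s k63 k42 6 (.s k127 k191 7 (.s k106 k64 6 (.d k149 k213 k192 7 14)))))))] (.c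
  k166 (.f k12 k8 1 (.q k89 [(.d k93 k174 k81 12 1), (.s k76 k115 6 (.s k204 k140 7 (.s k153 k51 14
  (.d k221 k238 k17 4 9))))] (.c k162 (.l (.s k174 k93 12 (.s k76 k115 6 (.s k204 k140 7 (.s k153
  k51 14 (.d k221 k238 k17 4 9)))))) (.c k174 (.q k162 [(.d k81 k93 k243 1 12), (.s k76 k115 6 (.s
  k204 k140 7 (.s k221 k238 4 (.d k153 k17 k51 9 14))))] .n) .n)))) (.c k247 (.l (.s k12 k8 1 (.s
  k93 k174 12 (.s k89 k81 1 (.s k76 k115 6 (.s k204 k140 7 (.s k153 k51 14 (.d k221 k238 k17 4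
  9)))))))) .n))) (.c k119 (.q k127 [(.s k63 k191 7 (.s k21 k42 6 (.s k106 k64 6 (.d k149 k213 k192
  7 14)))), (.s k106 k64 6 (.s k110 k98 1 (.s k93 k76 4 (.s k12 k174 12 (.s k4 k8 1 (.s k166 k247 12
  (.d k89 k81 k243 1 14)))))))] (.c k64 (.l (.s k63 k191 7 (.s k21 k42 6 (.s k149 k213 7 (.s k55
  k196 12 (.s k51 k59 1 (.s k17 k34 4 (.d k153 k221 k204 9 14)))))))) (.c k106 (.f k63 k191 7 (.q
  k149 [(.d k21 k42 k213 6 7), (.s k55 k196 12 (.s k51 k59 1 (.s k17 k34 4 (.d k153 k221 k204 9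
  14))))] (.c k42 (.q k234 [(.d k213 k192 k21 6 7), (.s k55 k196 12 (.s k51 k59 1 (.s k17 k34 4 (.d
  k153 k221 k204 9 14))))] .n) (.c k234 (.l (.s k42 k21 6 (.s k55 k196 12 (.s k51 k59 1 (.s k17 k34
  4 (.d k153 k221 k204 9 14)))))) .n)))) .n))) (.c k136 (.l (.s k119 k68 4 (.s k51 k187 9 (.s k153
  k204 14 (.d k17 k34 k221 4 9))))) (.c k153 (.f k119 k68 4 (.q k127 [(.s k106 k64 6 (.s k110 k98 1
  (.s k76 k93 4 (.d k115 k123 k89 1 6)))), (.s k63 k191 7 (.s k21 k42 6 (.s k149 k213 7 (.s k55 k196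
  12 (.d k51 k187 k59 9 1)))))] (.c k106 (.l (.s k63 k191 7 (.s k123 k115 1 (.s k183 k243 9 (.s k55
  k247 7 (.d k51 k59 k187 1 9)))))) (.c k136 (.l (.s k187 k51 9 (.s k63 k191 7 (.s k21 k42 6 (.s
  k106 k64 6 (.d k149 k213 k192 7 14)))))) (.c k187 (.q k136 [(.s k106 k64 6 (.s k110 k98 1 (.s k76
  k93 4 (.d k115 k123 k89 1 6)))), (.s k63 k191 7 (.s k21 k42 6 (.s k149 k213 7 (.d k106 k64 k192 6
  14)))), (.s k63 k191 7 (.s k123 k115 1 (.s k183 k243 9 (.s k55 k247 7 (.s k149 k196 12 (.d k21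
  k213 k42 7 6))))))] .n) .n))))) (.c k187 (.l (.s k68 k119 4 (.s k204 k136 9 (.s k153 k51 14 (.d
  k221 k238 k17 4 9))))) (.c k204 (.f k68 k119 4 (.q k4 [(.s k12 k8 1 (.s k93 k174 12 (.s k89 k81 1
  (.d k166 k247 k243 12 14)))), (.s k196 k132 7 (.s k149 k55 12 (.s k21 k213 7 (.s k63 k42 6 (.s
  k106 k192 14 (.d k127 k64 k191 6 7))))))] (.c k12 (.l (.s k166 k247 12 (.s k38 k230 7 (.s k55 k21
  4 (.d k196 k132 k149 7 12))))) (.c k70 (.q k137 [(.s k12 k8 1 (.s k93 k174 12 (.s k89 k81 1 (.d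
  k166 k247 k243 12 14)))), (.s k196 k132 7 (.s k149 k55 12 (.s k21 k213 7 (.s k63 k42 6 (.s k106
  k192 14 (.d k127 k64 k191 6 7))))))] (.c k12 (.l (.s k166 k247 12 (.s k38 k230 7 (.s k55 k21 4 (.d
  k196 k132 k149 7 12))))) (.c k247 (.l (.s k12 k8 1 (.s k93 k174 12 (.s k89 k81 1 (.s k76 k115 6
  (.s k64 k72 1 (.d k127 k110 k106 4 6))))))) .n))) (.c k137 (.q k70 [(.s k12 k8 1 (.s k93 k174 12
  (.s k89 k81 1 (.d k166 k247 k243 12 14)))), (.s k71 k69 0 (.s k86 k118 3 (.s k84 k87 0 (.d k116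
  k100 k101 3 4))))] .n) (.c k247 (.l (.s k12 k8 1 (.s k93 k174 12 (.s k89 k81 1 (.s k76 k115 6 (.s
  k64 k72 1 (.d k127 k110 k106 4 6))))))) .n)))))) (.c k221 (.q k4 [(.s k12 k8 1 (.s k93 k174 12 (.s
  k89 k81 1 (.d k166 k247 k243 12 14)))), (.s k68 k119 4 (.s k166 k247 12 (.s k38 k230 7 (.s k55 k21
  4 (.d k196 k132 k149 7 12))))), (.s k12 k8 1 (.s k68 k119 4 (.s k132 k196 7 (.s k72 k192 9 (.s k76
  k64 1 (.d k204 k140 k136 7 9))))))] .n) (.c k238 (.l (.s k119 k68 4 (.s k51 k187 9 (.s k17 k34 4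
  (.d k153 k221 k204 9 14))))) .n))))))))))))

def t3_92 : T TT 256 :=
  (.f k255 k170 14 (.q k102 [(.s k68 k119 4 (.s k204 k136 9 (.s k221 k238 4 (.d k153 k17 k51 9
  14))))] (.c k17 (.q k4 [(.s k12 k8 1 (.s k93 k174 12 (.s k166 k247 12 (.d k89 k81 k243 1 14)))),
  (.s k68 k119 4 (.s k166 k247 12 (.s k38 k230 7 (.s k55 k21 4 (.d k196 k132 k149 7 12))))), (.s k12
  k8 1 (.s k68 k119 4 (.s k132 k196 7 (.s k72 k192 9 (.s k76 k64 1 (.d k204 k140 k136 7 9))))))] .n)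
  (.c k51 (.f k68 k119 4 (.q k117 [(.s k48 k186 10 (.s k16 k32 3 (.s k101 k69 3 (.d k154 k223 k207
  10 14)))), (.s k101 k69 3 (.s k100 k103 0 (.s k204 k136 9 (.d k48 k186 k152 10 13)))), (.s k48
  k186 10 (.s k32 k16 3 (.s k204 k136 9 (.s k100 k152 13 (.s k84 k116 3 (.d k168 k236 k252 9
  13))))))] (.c k19 (.q k35 [(.s k48 k186 10 (.s k16 k32 3 (.s k101 k69 3 (.d k154 k223 k207 10
  14)))), (.s k101 k69 3 (.s k100 k103 0 (.s k84 k116 3 (.s k236 k169 10 (.d k168 k252 k32 13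
  9))))), (.s k48 k186 10 (.s k32 k16 3 (.s k204 k136 9 (.s k100 k152 13 (.d k236 k168 k169 9
  10)))))] (.c k32 (.l (.s k48 k186 10 (.s k101 k69 3 (.s k100 k103 0 (.d k204 k136 k152 9 13)))))
  .n)) (.c k35 (.q k19 [(.s k48 k186 10 (.s k16 k32 3 (.s k101 k69 3 (.d k154 k223 k207 10 14)))),
  (.s k48 k186 10 (.s k32 k16 3 (.s k204 k136 9 (.s k100 k152 13 (.s k84 k116 3 (.d k168 k236 k252 9
  13)))))), (.s k101 k69 3 (.s k100 k103 0 (.s k204 k136 9 (.d k48 k186 k152 10 13)))), (.s k69 k101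
  3 (.s k70 k71 0 (.s k86 k118 3 (.s k87 k84 0 (.s k223 k155 9 (.d k207 k239 k138 3 10))))))] .n)
  (.c k48 (.l (.s k69 k101 3 (.s k204 k136 9 (.s k207 k138 10 (.s k205 k206 0 (.s k221 k238 4 (.s
  k253 k237 3 (.d k1 k137 k169 9 13)))))))) (.c k186 (.l (.s k101 k69 3 (.s k100 k103 0 (.s k204
  k136 9 (.s k48 k152 13 (.s k16 k32 3 (.d k154 k207 k223 14 10))))))) .n)))))) (.c k68 (.q k4 [(.s
  k12 k8 1 (.s k93 k174 12 (.s k89 k81 1 (.d k166 k247 k243 12 14)))), (.s k166 k247 12 (.s k38 k230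
  7 (.s k21 k55 4 (.s k63 k42 6 (.s k127 k191 7 (.s k106 k64 6 (.d k149 k213 k192 7 14)))))))] (.c
  k166 (.f k12 k8 1 (.q k89 [(.d k93 k174 k81 12 1), (.s k76 k115 6 (.s k204 k140 7 (.s k153 k51 14
  (.d k221 k238 k17 4 9))))] (.c k162 (.l (.s k174 k93 12 (.s k76 k115 6 (.s k204 k140 7 (.s k153
  k51 14 (.d k221 k238 k17 4 9)))))) (.c k174 (.q k162 [(.d k81 k93 k243 1 12), (.s k76 k115 6 (.s
  k204 k140 7 (.s k221 k238 4 (.d k153 k17 k51 9 14))))] .n) .n)))) (.c k247 (.l (.s k12 k8 1 (.s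
  k93 k174 12 (.s k89 k81 1 (.s k76 k115 6 (.s k204 k140 7 (.s k153 k51 14 (.d k221 k238 k17 4
  9)))))))) .n))) (.c k119 (.q k247 [(.s k166 k4 12 (.s k243 k251 1 (.s k81 k162 12 (.d k89 k93 k12
  1 14)))), (.s k166 k4 12 (.s k230 k38 7 (.s k213 k196 4 (.s k192 k234 6 (.s k64 k128 7 (.s k106
  k127 6 (.d k149 k21 k63 7 14)))))))] (.c k4 (.l (.s k243 k251 1 (.s k81 k162 12 (.s k89 k93 1 (.s
  k115 k76 6 (.s k51 k179 7 (.s k17 k34 4 (.d k153 k221 k204 9 14)))))))) (.c k166 (.f k243 k251 1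
  (.q k89 [(.d k81 k162 k93 12 1), (.s k115 k76 6 (.s k51 k179 7 (.s k17 k34 4 (.d k153 k221 k204 9
  14))))] (.c k162 (.q k174 [(.d k93 k81 k12 1 12), (.s k115 k76 6 (.s k51 k179 7 (.s k17 k34 4 (.d
  k153 k221 k204 9 14))))] .n) (.c k174 (.l (.s k162 k81 12 (.s k115 k76 6 (.s k51 k179 7 (.s k17
  k34 4 (.d k153 k221 k204 9 14)))))) .n)))) .n))) (.c k136 (.l (.s k119 k68 4 (.s k51 k187 9 (.s
  k153 k204 14 (.d k17 k34 k221 4 9))))) (.c k153 (.f k119 k68 4 (.q k127 [(.s k63 k191 7 (.s k21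
  k42 6 (.s k149 k213 7 (.d k106 k64 k192 6 14)))), (.s k106 k64 6 (.s k110 k98 1 (.s k76 k93 4 (.d
  k115 k123 k89 1 6)))), (.s k63 k191 7 (.s k123 k115 1 (.s k183 k243 9 (.s k55 k247 7 (.d k51 k187
  k59 9 1)))))] (.c k136 (.l (.s k187 k51 9 (.s k63 k191 7 (.s k21 k42 6 (.s k106 k64 6 (.d k149
  k213 k192 7 14)))))) (.c k187 (.q k136 [(.s k106 k64 6 (.s k110 k98 1 (.s k76 k93 4 (.d k115 k123
  k89 1 6)))), (.s k63 k191 7 (.s k21 k42 6 (.s k149 k213 7 (.d k106 k64 k192 6 14)))), (.s k63 k191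
  7 (.s k123 k115 1 (.s k183 k243 9 (.s k55 k247 7 (.s k149 k196 12 (.d k21 k213 k42 7 6))))))] .n)
  .n)))) (.c k187 (.l (.s k68 k119 4 (.s k204 k136 9 (.s k153 k51 14 (.d k221 k238 k17 4 9))))) (.c
  k204 (.f k68 k119 4 (.q k149 [(.s k196 k55 12 (.s k4 k132 7 (.s k213 k21 7 (.d k247 k230 k166 4
  12)))), (.s k21 k213 7 (.s k63 k42 6 (.s k127 k191 7 (.d k106 k64 k192 6 14)))), (.s k196 k55 12
  (.s k4 k132 7 (.s k12 k8 1 (.s k93 k174 12 (.s k89 k81 1 (.d k166 k247 k243 12 14))))))] (.c k70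
  (.q k137 [(.s k196 k55 12 (.s k4 k132 7 (.s k213 k21 7 (.d k247 k230 k166 4 12)))), (.s k21 k213 7
  (.s k63 k42 6 (.s k127 k191 7 (.d k106 k64 k192 6 14)))), (.s k196 k55 12 (.s k4 k132 7 (.s k12 k8
  1 (.s k93 k174 12 (.s k89 k81 1 (.d k166 k247 k243 12 14))))))] .n) (.c k137 (.q k70 [(.s k21 k213
  7 (.s k63 k42 6 (.s k127 k191 7 (.d k106 k64 k192 6 14)))), (.s k71 k69 0 (.s k86 k118 3 (.s k84
  k87 0 (.d k116 k100 k101 3 4))))] .n) .n)))) (.c k221 (.q k4 [(.s k12 k8 1 (.s k93 k174 12 (.s k89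
  k81 1 (.d k166 k247 k243 12 14)))), (.s k68 k119 4 (.s k166 k247 12 (.s k38 k230 7 (.s k55 k21 4
  (.d k196 k132 k149 7 12))))), (.s k12 k8 1 (.s k68 k119 4 (.s k132 k196 7 (.s k72 k192 9 (.s k76
  k64 1 (.d k204 k140 k136 7 9))))))] .n) (.c k238 (.l (.s k119 k68 4 (.s k51 k187 9 (.s k17 k34 4
  (.d k153 k221 k204 9 14))))) .n))))))))))))

def t3_94 : T TT 256 :=
  (.f k255 k170 14 (.q k102 [(.s k68 k119 4 (.s k204 k136 9 (.s k221 k238 4 (.d k153 k17 k51 9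
  14))))] (.c k17 (.q k4 [(.s k12 k8 1 (.s k166 k247 12 (.s k89 k243 14 (.d k93 k81 k174 1 12)))),
  (.s k68 k119 4 (.s k166 k247 12 (.s k38 k230 7 (.s k55 k21 4 (.d k196 k132 k149 7 12))))), (.s k12
  k8 1 (.s k68 k119 4 (.s k132 k196 7 (.s k72 k192 9 (.s k76 k64 1 (.d k204 k140 k136 7 9))))))] .n)
  (.c k51 (.f k68 k119 4 (.q k117 [(.s k48 k186 10 (.s k16 k32 3 (.s k101 k69 3 (.d k154 k223 k207
  10 14)))), (.s k101 k69 3 (.s k100 k103 0 (.s k204 k136 9 (.d k48 k186 k152 10 13)))), (.s k48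
  k186 10 (.s k32 k16 3 (.s k204 k136 9 (.s k100 k152 13 (.s k84 k116 3 (.d k168 k236 k252 9
  13))))))] (.c k19 (.q k35 [(.s k48 k186 10 (.s k16 k32 3 (.s k101 k69 3 (.d k154 k223 k207 10
  14)))), (.s k101 k69 3 (.s k100 k103 0 (.s k84 k116 3 (.s k236 k169 10 (.d k168 k252 k32 13
  9))))), (.s k48 k186 10 (.s k32 k16 3 (.s k204 k136 9 (.s k100 k152 13 (.d k236 k168 k169 9
  10)))))] (.c k32 (.l (.s k48 k186 10 (.s k101 k69 3 (.s k100 k103 0 (.d k204 k136 k152 9 13)))))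
  .n)) (.c k35 (.q k19 [(.s k48 k186 10 (.s k16 k32 3 (.s k101 k69 3 (.d k154 k223 k207 10 14)))),
  (.s k48 k186 10 (.s k32 k16 3 (.s k204 k136 9 (.s k100 k152 13 (.s k84 k116 3 (.d k168 k236 k252 9
  13)))))), (.s k101 k69 3 (.s k100 k103 0 (.s k204 k136 9 (.d k48 k186 k152 10 13)))), (.s k69 k101
  3 (.s k70 k71 0 (.s k86 k118 3 (.s k87 k84 0 (.s k223 k155 9 (.d k207 k239 k138 3 10))))))] .n)
  (.c k48 (.l (.s k69 k101 3 (.s k204 k136 9 (.s k207 k138 10 (.s k205 k206 0 (.s k221 k238 4 (.s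
  k253 k237 3 (.d k1 k137 k169 9 13)))))))) (.c k186 (.l (.s k101 k69 3 (.s k100 k103 0 (.s k204
  k136 9 (.s k48 k152 13 (.s k16 k32 3 (.d k154 k207 k223 14 10))))))) .n)))))) (.c k68 (.q k81 [(.s
  k89 k93 1 (.s k243 k162 12 (.s k247 k251 1 (.d k166 k4 k12 12 14)))), (.s k89 k93 1 (.s k115 k76 6
  (.s k64 k98 4 (.s k192 k128 7 (.s k213 k234 6 (.s k149 k21 7 (.d k106 k127 k63 6 14))))))), (.s
  k243 k162 12 (.s k247 k251 1 (.s k166 k4 12 (.s k230 k38 7 (.s k204 k217 6 (.s k153 k51 14 (.d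
  k221 k238 k17 4 9)))))))] (.c k89 (.f k243 k162 12 (.q k166 [(.d k247 k251 k4 1 12), (.s k230 k38
  7 (.s k204 k217 6 (.s k153 k51 14 (.d k221 k238 k17 4 9))))] (.c k8 (.l (.s k251 k247 1 (.s k230
  k38 7 (.s k204 k217 6 (.s k153 k51 14 (.d k221 k238 k17 4 9)))))) (.c k251 (.q k8 [(.d k4 k12 k247
  1 12), (.s k230 k38 7 (.s k204 k217 6 (.s k221 k238 4 (.d k153 k17 k51 9 14))))] .n) .n)))) .n))
  (.c k119 (.q k247 [(.s k166 k4 12 (.s k243 k251 1 (.s k81 k162 12 (.d k89 k93 k12 1 14)))), (.s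
  k166 k4 12 (.s k230 k38 7 (.s k213 k196 4 (.s k192 k234 6 (.s k64 k128 7 (.s k106 k127 6 (.d k149
  k21 k63 7 14)))))))] (.c k4 (.l (.s k243 k251 1 (.s k81 k162 12 (.s k89 k93 1 (.s k115 k76 6 (.s
  k51 k179 7 (.s k17 k34 4 (.d k153 k221 k204 9 14)))))))) (.c k166 (.f k243 k251 1 (.q k89 [(.d k81
  k162 k93 12 1), (.s k115 k76 6 (.s k51 k179 7 (.s k17 k34 4 (.d k153 k221 k204 9 14))))] (.c k162
  (.q k174 [(.d k93 k81 k12 1 12), (.s k115 k76 6 (.s k51 k179 7 (.s k17 k34 4 (.d k153 k221 k204 9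
  14))))] .n) (.c k174 (.l (.s k162 k81 12 (.s k115 k76 6 (.s k51 k179 7 (.s k17 k34 4 (.d k153 k221
  k204 9 14)))))) .n)))) .n))) (.c k136 (.l (.s k119 k68 4 (.s k51 k187 9 (.s k153 k204 14 (.d k17
  k34 k221 4 9))))) (.c k153 (.f k119 k68 4 (.q k127 [(.s k63 k191 7 (.s k21 k42 6 (.s k149 k213 7
  (.d k106 k64 k192 6 14)))), (.s k106 k64 6 (.s k110 k98 1 (.s k76 k93 4 (.d k115 k123 k89 1 6)))),
  (.s k63 k191 7 (.s k123 k115 1 (.s k183 k243 9 (.s k55 k247 7 (.d k51 k187 k59 9 1)))))] (.c k136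
  (.l (.s k187 k51 9 (.s k63 k191 7 (.s k21 k42 6 (.s k106 k64 6 (.d k149 k213 k192 7 14)))))) (.c
  k187 (.q k136 [(.s k106 k64 6 (.s k110 k98 1 (.s k76 k93 4 (.d k115 k123 k89 1 6)))), (.s k63 k191
  7 (.s k21 k42 6 (.s k149 k213 7 (.d k106 k64 k192 6 14)))), (.s k63 k191 7 (.s k123 k115 1 (.s
  k183 k243 9 (.s k55 k247 7 (.s k149 k196 12 (.d k21 k213 k42 7 6))))))] .n) .n)))) (.c k187 (.l
  (.s k68 k119 4 (.s k204 k136 9 (.s k153 k51 14 (.d k221 k238 k17 4 9))))) (.c k204 (.f k68 k119 4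
  (.q k4 [(.s k166 k247 12 (.s k196 k132 7 (.s k55 k149 12 (.d k38 k21 k230 4 7)))), (.s k12 k8 1
  (.s k93 k174 12 (.s k89 k81 1 (.s k76 k115 6 (.s k64 k72 1 (.d k127 k110 k106 4 6))))))] (.c k70
  (.q k137 [(.s k166 k247 12 (.s k196 k132 7 (.s k55 k149 12 (.d k38 k21 k230 4 7)))), (.s k12 k8 1
  (.s k93 k174 12 (.s k89 k81 1 (.s k76 k115 6 (.s k64 k72 1 (.d k127 k110 k106 4 6))))))] (.c k166
  (.l (.s k196 k132 7 (.s k149 k55 12 (.s k21 k213 7 (.s k63 k42 6 (.s k106 k192 14 (.d k127 k64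
  k191 6 7))))))) .n)) (.c k137 (.q k70 [(.s k71 k69 0 (.s k86 k118 3 (.s k84 k87 0 (.d k116 k100
  k101 3 4)))), (.s k12 k8 1 (.s k93 k174 12 (.s k89 k81 1 (.d k166 k247 k243 12 14))))] .n) (.c
  k166 (.l (.s k196 k132 7 (.s k149 k55 12 (.s k21 k213 7 (.s k63 k42 6 (.s k106 k192 14 (.d k127
  k64 k191 6 7))))))) .n))))) (.c k221 (.q k4 [(.s k12 k8 1 (.s k166 k247 12 (.s k89 k243 14 (.d k93
  k81 k174 1 12)))), (.s k68 k119 4 (.s k166 k247 12 (.s k38 k230 7 (.s k55 k21 4 (.d k196 k132 k149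
  7 12))))), (.s k12 k8 1 (.s k68 k119 4 (.s k132 k196 7 (.s k72 k192 9 (.s k76 k64 1 (.d k204 k140
  k136 7 9))))))] .n) (.c k238 (.l (.s k119 k68 4 (.s k51 k187 9 (.s k17 k34 4 (.d k153 k221 k204 9
  14))))) .n))))))))))))

def t3_95 : T TT 256 :=
  (.f k255 k170 14 (.q k102 [(.s k68 k119 4 (.s k204 k136 9 (.s k221 k238 4 (.d k153 k17 k51 9
  14))))] (.c k17 (.q k4 [(.s k12 k8 1 (.s k93 k174 12 (.s k166 k247 12 (.d k89 k81 k243 1 14)))),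
  (.s k68 k119 4 (.s k166 k247 12 (.s k38 k230 7 (.s k55 k21 4 (.d k196 k132 k149 7 12))))), (.s k12
  k8 1 (.s k68 k119 4 (.s k132 k196 7 (.s k72 k192 9 (.s k76 k64 1 (.d k204 k140 k136 7 9))))))] .n)
  (.c k51 (.f k68 k119 4 (.q k110 [(.s k106 k98 1 (.s k204 k136 9 (.s k63 k157 12 (.d k127 k64 k191
  6 7)))), (.s k204 k136 9 (.s k63 k157 12 (.s k127 k191 7 (.s k93 k76 4 (.s k174 k12 12 (.d k238
  k221 k46 4 7)))))), (.s k106 k98 1 (.s k64 k127 6 (.s k192 k128 7 (.s k149 k63 14 (.d k213 k234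
  k21 6 7))))), (.s k106 k98 1 (.s k127 k64 6 (.s k93 k76 4 (.s k174 k12 12 (.s k204 k136 9 (.d k238
  k221 k46 4 7))))))] (.c k19 (.q k35 [(.s k106 k98 1 (.s k204 k136 9 (.s k63 k157 12 (.d k127 k64
  k191 6 7)))), (.s k106 k98 1 (.s k236 k169 10 (.s k47 k173 8 (.s k165 k224 10 (.d k39 k43 k228 1
  8))))), (.s k204 k136 9 (.s k63 k157 12 (.s k127 k191 7 (.s k93 k76 4 (.s k174 k12 12 (.d k238
  k221 k46 4 7))))))] .n) (.c k35 (.q k19 [(.s k106 k98 1 (.s k204 k136 9 (.s k63 k157 12 (.d k127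
  k64 k191 6 7)))), (.s k204 k136 9 (.s k63 k157 12 (.s k127 k191 7 (.s k93 k76 4 (.s k174 k12 12
  (.d k238 k221 k46 4 7)))))), (.s k106 k98 1 (.s k64 k127 6 (.s k192 k128 7 (.s k149 k63 14 (.d
  k213 k234 k21 6 7))))), (.s k106 k98 1 (.s k127 k64 6 (.s k93 k76 4 (.s k174 k12 12 (.s k204 k136
  9 (.d k238 k221 k46 4 7))))))] (.c k127 (.l (.s k106 k98 1 (.s k204 k136 9 (.s k63 k157 12 (.s k21
  k42 6 (.d k149 k192 k213 14 7)))))) .n)) (.c k127 (.l (.s k106 k98 1 (.s k204 k136 9 (.s k63 k157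
  12 (.s k21 k42 6 (.d k149 k192 k213 14 7)))))) .n))))) (.c k68 (.q k4 [(.s k12 k8 1 (.s k93 k174
  12 (.s k89 k81 1 (.d k166 k247 k243 12 14)))), (.s k166 k247 12 (.s k38 k230 7 (.s k21 k55 4 (.s
  k63 k42 6 (.s k127 k191 7 (.s k106 k64 6 (.d k149 k213 k192 7 14)))))))] (.c k166 (.f k12 k8 1 (.q
  k89 [(.d k93 k174 k81 12 1), (.s k76 k115 6 (.s k204 k140 7 (.s k153 k51 14 (.d k221 k238 k17 4
  9))))] (.c k162 (.l (.s k174 k93 12 (.s k76 k115 6 (.s k204 k140 7 (.s k153 k51 14 (.d k221 k238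
  k17 4 9)))))) (.c k174 (.q k162 [(.d k81 k93 k243 1 12), (.s k76 k115 6 (.s k204 k140 7 (.s k221
  k238 4 (.d k153 k17 k51 9 14))))] .n) .n)))) (.c k247 (.l (.s k12 k8 1 (.s k93 k174 12 (.s k89 k81
  1 (.s k76 k115 6 (.s k204 k140 7 (.s k153 k51 14 (.d k221 k238 k17 4 9)))))))) .n))) (.c k119 (.q
  k81 [(.s k243 k162 12 (.s k247 k251 1 (.s k166 k4 12 (.d k89 k93 k12 1 14)))), (.s k89 k93 1 (.s
  k115 k76 6 (.s k64 k98 4 (.s k192 k128 7 (.s k213 k234 6 (.s k149 k21 7 (.d k106 k127 k63 6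
  14)))))))] (.c k89 (.f k243 k162 12 (.q k166 [(.d k247 k251 k4 1 12), (.s k230 k38 7 (.s k204 k217
  6 (.s k153 k51 14 (.d k221 k238 k17 4 9))))] (.c k8 (.l (.s k251 k247 1 (.s k230 k38 7 (.s k204
  k217 6 (.s k153 k51 14 (.d k221 k238 k17 4 9)))))) (.c k251 (.q k8 [(.d k4 k12 k247 1 12), (.s
  k230 k38 7 (.s k204 k217 6 (.s k221 k238 4 (.d k153 k17 k51 9 14))))] .n) .n)))) (.c k93 (.l (.s
  k243 k162 12 (.s k247 k251 1 (.s k166 k4 12 (.s k230 k38 7 (.s k204 k217 6 (.s k153 k51 14 (.d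
  k221 k238 k17 4 9)))))))) .n))) (.c k136 (.l (.s k119 k68 4 (.s k51 k187 9 (.s k153 k204 14 (.d
  k17 k34 k221 4 9))))) (.c k153 (.f k119 k68 4 (.q k115 [(.s k89 k76 6 (.s k81 k93 1 (.s k64 k98 4
  (.d k127 k123 k106 1 6)))), (.s k127 k123 1 (.s k63 k191 7 (.s k21 k42 6 (.s k149 k213 7 (.d k106
  k64 k192 6 14))))), (.s k89 k76 6 (.s k93 k81 1 (.s k12 k174 12 (.s k4 k8 1 (.d k166 k247 k243 12
  14)))))] (.c k64 (.l (.s k123 k127 1 (.s k187 k51 9 (.s k251 k59 7 (.s k243 k247 1 (.s k81 k162 12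
  (.d k89 k93 k76 1 6))))))) (.c k136 (.l (.s k187 k51 9 (.s k76 k89 6 (.s k127 k123 1 (.s k106 k64
  6 (.d k110 k98 k93 1 4)))))) (.c k187 (.q k136 [(.s k89 k76 6 (.s k81 k93 1 (.s k64 k98 4 (.d k127
  k123 k106 1 6)))), (.s k127 k123 1 (.s k63 k191 7 (.s k21 k42 6 (.s k149 k213 7 (.d k106 k64 k192
  6 14))))), (.s k89 k76 6 (.s k93 k81 1 (.s k12 k174 12 (.s k4 k8 1 (.d k166 k247 k243 12 14)))))]
  (.c k64 (.l (.s k123 k127 1 (.s k89 k76 6 (.s k72 k106 4 (.s k93 k81 1 (.s k12 k174 12 (.d k8 k200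
  k4 7 1))))))) .n)) .n))))) (.c k187 (.l (.s k68 k119 4 (.s k204 k136 9 (.s k153 k51 14 (.d k221
  k238 k17 4 9))))) (.c k204 (.f k68 k119 4 (.q k149 [(.s k196 k55 12 (.s k4 k132 7 (.s k213 k21 7
  (.d k247 k230 k166 4 12)))), (.s k21 k213 7 (.s k63 k42 6 (.s k127 k191 7 (.d k106 k64 k192 6
  14)))), (.s k196 k55 12 (.s k4 k132 7 (.s k12 k8 1 (.s k93 k174 12 (.s k89 k81 1 (.d k166 k247
  k243 12 14))))))] (.c k70 (.q k137 [(.s k196 k55 12 (.s k4 k132 7 (.s k213 k21 7 (.d k247 k230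
  k166 4 12)))), (.s k21 k213 7 (.s k63 k42 6 (.s k127 k191 7 (.d k106 k64 k192 6 14)))), (.s k196
  k55 12 (.s k4 k132 7 (.s k12 k8 1 (.s k93 k174 12 (.s k89 k81 1 (.d k166 k247 k243 12 14))))))]
  .n) (.c k137 (.q k70 [(.s k21 k213 7 (.s k63 k42 6 (.s k127 k191 7 (.d k106 k64 k192 6 14)))), (.s
  k71 k69 0 (.s k86 k118 3 (.s k84 k87 0 (.d k116 k100 k101 3 4))))] .n) .n)))) (.c k221 (.q k4 [(.s
  k12 k8 1 (.s k93 k174 12 (.s k89 k81 1 (.d k166 k247 k243 12 14)))), (.s k68 k119 4 (.s k166 k247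
  12 (.s k38 k230 7 (.s k55 k21 4 (.d k196 k132 k149 7 12))))), (.s k12 k8 1 (.s k68 k119 4 (.s k132
  k196 7 (.s k72 k192 9 (.s k76 k64 1 (.d k204 k140 k136 7 9))))))] .n) (.c k238 (.l (.s k119 k68 4
  (.s k51 k187 9 (.s k17 k34 4 (.d k153 k221 k204 9 14))))) .n))))))))))))

def t3_104 : T TT 256 :=
  (.f k255 k170 14 (.q k102 [(.s k68 k119 4 (.s k204 k136 9 (.s k221 k238 4 (.d k153 k17 k51 9
  14))))] (.c k17 (.q k4 [(.s k12 k8 1 (.s k93 k174 12 (.s k166 k247 12 (.d k89 k81 k243 1 14)))),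
  (.s k68 k119 4 (.s k166 k247 12 (.s k38 k230 7 (.s k55 k21 4 (.d k196 k132 k149 7 12))))), (.s k12
  k8 1 (.s k68 k119 4 (.s k132 k196 7 (.s k72 k192 9 (.s k76 k64 1 (.d k204 k140 k136 7 9))))))] .n)
  (.c k51 (.f k68 k119 4 (.q k117 [(.s k48 k186 10 (.s k16 k32 3 (.s k101 k69 3 (.d k154 k223 k207
  10 14)))), (.s k101 k69 3 (.s k100 k103 0 (.s k204 k136 9 (.d k48 k186 k152 10 13)))), (.s k48
  k186 10 (.s k32 k16 3 (.s k204 k136 9 (.s k100 k152 13 (.s k84 k116 3 (.d k168 k236 k252 9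
  13))))))] (.c k19 (.q k35 [(.s k48 k186 10 (.s k16 k32 3 (.s k101 k69 3 (.d k154 k223 k207 10
  14)))), (.s k101 k69 3 (.s k100 k103 0 (.s k84 k116 3 (.s k236 k169 10 (.d k168 k252 k32 13
  9))))), (.s k48 k186 10 (.s k32 k16 3 (.s k204 k136 9 (.s k100 k152 13 (.d k236 k168 k169 9
  10)))))] (.c k32 (.l (.s k48 k186 10 (.s k101 k69 3 (.s k100 k103 0 (.d k204 k136 k152 9 13)))))
  .n)) (.c k35 (.q k19 [(.s k48 k186 10 (.s k16 k32 3 (.s k101 k69 3 (.d k154 k223 k207 10 14)))),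
  (.s k48 k186 10 (.s k32 k16 3 (.s k204 k136 9 (.s k100 k152 13 (.s k84 k116 3 (.d k168 k236 k252 9
  13)))))), (.s k101 k69 3 (.s k100 k103 0 (.s k204 k136 9 (.d k48 k186 k152 10 13)))), (.s k69 k101
  3 (.s k70 k71 0 (.s k86 k118 3 (.s k87 k84 0 (.s k223 k155 9 (.d k207 k239 k138 3 10))))))] .n)
  (.c k48 (.l (.s k69 k101 3 (.s k204 k136 9 (.s k207 k138 10 (.s k205 k206 0 (.s k221 k238 4 (.s
  k253 k237 3 (.d k1 k137 k169 9 13)))))))) (.c k186 (.l (.s k101 k69 3 (.s k100 k103 0 (.s k204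
  k136 9 (.s k48 k152 13 (.s k16 k32 3 (.d k154 k207 k223 14 10))))))) .n)))))) (.c k68 (.q k4 [(.s
  k12 k8 1 (.s k93 k174 12 (.s k89 k81 1 (.d k166 k247 k243 12 14)))), (.s k166 k247 12 (.s k38 k230
  7 (.s k21 k55 4 (.s k63 k42 6 (.s k127 k191 7 (.s k106 k64 6 (.d k149 k213 k192 7 14)))))))] (.c
  k166 (.f k12 k8 1 (.q k89 [(.d k93 k174 k81 12 1), (.s k76 k115 6 (.s k204 k140 7 (.s k153 k51 14
  (.d k221 k238 k17 4 9))))] (.c k162 (.l (.s k174 k93 12 (.s k76 k115 6 (.s k204 k140 7 (.s k153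
  k51 14 (.d k221 k238 k17 4 9)))))) (.c k174 (.q k162 [(.d k81 k93 k243 1 12), (.s k76 k115 6 (.s
  k204 k140 7 (.s k221 k238 4 (.d k153 k17 k51 9 14))))] .n) .n)))) (.c k247 (.l (.s k12 k8 1 (.s
  k93 k174 12 (.s k89 k81 1 (.s k76 k115 6 (.s k204 k140 7 (.s k153 k51 14 (.d k221 k238 k17 4
  9)))))))) .n))) (.c k119 (.q k247 [(.s k166 k4 12 (.s k243 k251 1 (.s k81 k162 12 (.d k89 k93 k12
  1 14)))), (.s k166 k4 12 (.s k230 k38 7 (.s k213 k196 4 (.s k192 k234 6 (.s k64 k128 7 (.s k106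
  k127 6 (.d k149 k21 k63 7 14)))))))] (.c k4 (.l (.s k243 k251 1 (.s k81 k162 12 (.s k89 k93 1 (.s
  k115 k76 6 (.s k51 k179 7 (.s k17 k34 4 (.d k153 k221 k204 9 14)))))))) (.c k166 (.f k243 k251 1
  (.q k89 [(.d k81 k162 k93 12 1), (.s k115 k76 6 (.s k51 k179 7 (.s k17 k34 4 (.d k153 k221 k204 9
  14))))] (.c k162 (.q k174 [(.d k93 k81 k12 1 12), (.s k115 k76 6 (.s k51 k179 7 (.s k17 k34 4 (.d
  k153 k221 k204 9 14))))] .n) (.c k174 (.l (.s k162 k81 12 (.s k115 k76 6 (.s k51 k179 7 (.s k17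
  k34 4 (.d k153 k221 k204 9 14)))))) .n)))) .n))) (.c k136 (.l (.s k119 k68 4 (.s k51 k187 9 (.s
  k153 k204 14 (.d k17 k34 k221 4 9))))) (.c k153 (.f k119 k68 4 (.q k117 [(.s k48 k186 10 (.s k16
  k32 3 (.s k154 k223 10 (.d k101 k69 k207 3 14)))), (.s k118 k116 0 (.s k86 k70 3 (.s k84 k87 0 (.s
  k252 k168 13 (.d k51 k187 k185 9 10)))))] (.c k69 (.l (.s k48 k186 10 (.s k16 k32 3 (.s k154 k223
  10 (.s k50 k206 13 (.d k51 k49 k187 0 9)))))) (.c k136 (.l (.s k187 k51 9 (.s k48 k186 10 (.s k16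
  k32 3 (.s k101 k69 3 (.d k154 k223 k207 10 14)))))) (.c k187 (.q k136 [(.s k101 k69 3 (.s k103
  k100 0 (.s k71 k87 3 (.d k116 k118 k86 0 4)))), (.s k48 k186 10 (.s k16 k32 3 (.s k154 k223 10 (.d
  k101 k69 k207 3 14)))), (.s k118 k116 0 (.s k186 k48 10 (.s k254 k50 9 (.s k252 k253 0 (.s k84
  k168 13 (.d k86 k87 k70 0 3))))))] .n) .n))))) (.c k187 (.l (.s k68 k119 4 (.s k204 k136 9 (.s
  k153 k51 14 (.d k221 k238 k17 4 9))))) (.c k204 (.f k68 k119 4 (.q k4 [(.s k12 k8 1 (.s k93 k174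
  12 (.s k89 k81 1 (.d k166 k247 k243 12 14)))), (.s k196 k132 7 (.s k149 k55 12 (.s k21 k213 7 (.s
  k63 k42 6 (.s k106 k192 14 (.d k127 k64 k191 6 7))))))] (.c k12 (.l (.s k166 k247 12 (.s k38 k230
  7 (.s k55 k21 4 (.d k196 k132 k149 7 12))))) (.c k70 (.q k137 [(.s k12 k8 1 (.s k93 k174 12 (.s
  k89 k81 1 (.d k166 k247 k243 12 14)))), (.s k196 k132 7 (.s k149 k55 12 (.s k21 k213 7 (.s k63 k42
  6 (.s k106 k192 14 (.d k127 k64 k191 6 7))))))] (.c k12 (.l (.s k166 k247 12 (.s k38 k230 7 (.s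
  k55 k21 4 (.d k196 k132 k149 7 12))))) (.c k247 (.l (.s k12 k8 1 (.s k93 k174 12 (.s k89 k81 1 (.s
  k76 k115 6 (.s k64 k72 1 (.d k127 k110 k106 4 6))))))) .n))) (.c k137 (.q k70 [(.s k12 k8 1 (.s
  k93 k174 12 (.s k89 k81 1 (.d k166 k247 k243 12 14)))), (.s k71 k69 0 (.s k86 k118 3 (.s k84 k87 0
  (.d k116 k100 k101 3 4))))] .n) (.c k247 (.l (.s k12 k8 1 (.s k93 k174 12 (.s k89 k81 1 (.s k76
  k115 6 (.s k64 k72 1 (.d k127 k110 k106 4 6))))))) .n)))))) (.c k221 (.q k4 [(.s k12 k8 1 (.s k93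
  k174 12 (.s k89 k81 1 (.d k166 k247 k243 12 14)))), (.s k68 k119 4 (.s k166 k247 12 (.s k38 k230 7
  (.s k55 k21 4 (.d k196 k132 k149 7 12))))), (.s k12 k8 1 (.s k68 k119 4 (.s k132 k196 7 (.s k72
  k192 9 (.s k76 k64 1 (.d k204 k140 k136 7 9))))))] .n) (.c k238 (.l (.s k119 k68 4 (.s k51 k187 9
  (.s k17 k34 4 (.d k153 k221 k204 9 14))))) .n))))))))))))

def t3_105 : T TT 256 :=
  (.q k89 [(.s k81 k93 1 (.s k243 k162 12 (.s k166 k12 14 (.s k247 k4 12 (.d k255 k251 k170 1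
  14))))), (.s k81 k93 1 (.s k243 k162 12 (.s k12 k166 14 (.s k8 k4 1 (.d k170 k251 k255 12 14)))))]
  (.c k4 (.q k1 [(.s k81 k93 1 (.s k169 k253 13 (.s k9 k249 11 (.s k13 k5 1 (.d k241 k161 k165 11
  13))))), (.s k81 k93 1 (.s k170 k255 14 (.s k241 k161 11 (.s k243 k162 12 (.s k240 k242 0 (.s k160
  k80 11 (.d k165 k175 k13 2 13))))))), (.s k169 k253 13 (.s k9 k249 11 (.s k170 k255 14 (.s k8 k251
  12 (.s k10 k11 0 (.d k5 k15 k13 2 1))))))] (.c k13 (.l (.s k81 k93 1 (.s k241 k161 11 (.s k243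
  k162 12 (.s k240 k242 0 (.s k253 k169 13 (.s k245 k249 1 (.d k255 k250 k170 2 14)))))))) (.c k241
  (.l (.s k81 k93 1 (.s k169 k253 13 (.s k170 k255 14 (.s k243 k162 12 (.s k249 k9 11 (.s k252 k246
  2 (.d k168 k171 k84 0 13)))))))) .n))) (.c k12 (.f k255 k170 14 (.f k81 k93 1 (.q k235 [(.s k162
  k243 12 (.s k195 k215 5 (.s k65 k130 8 (.s k97 k113 3 (.s k48 k146 12 (.d k32 k16 k227 3 8)))))),
  (.s k243 k162 12 (.s k251 k247 1 (.s k219 k203 3 (.s k154 k24 8 (.s k223 k16 10 (.d k207 k239 k231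
  3 5)))))), (.s k215 k195 5 (.s k150 k20 8 (.s k211 k28 10 (.s k223 k219 1 (.d k16 k146 k154 8
  10)))))] (.c k6 (.q k9 [(.s k169 k249 11 (.s k1 k253 13 (.s k13 k5 1 (.d k241 k161 k165 11 13)))),
  (.s k215 k195 5 (.s k150 k20 8 (.s k211 k28 10 (.s k16 k146 8 (.d k223 k219 k154 1 10)))))] .n)
  (.c k9 (.q k6 [(.s k162 k243 12 (.s k195 k215 5 (.s k65 k130 8 (.s k97 k113 3 (.s k48 k146 12 (.d
  k32 k16 k227 3 8)))))), (.s k243 k162 12 (.s k251 k247 1 (.s k219 k203 3 (.s k154 k24 8 (.s k223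
  k16 10 (.d k207 k239 k231 3 5)))))), (.s k215 k195 5 (.s k150 k20 8 (.s k211 k28 10 (.s k223 k219
  1 (.d k16 k146 k154 8 10)))))] (.c k16 (.l (.s k195 k215 5 (.s k243 k162 12 (.s k227 k211 3 (.s
  k231 k239 1 (.s k219 k207 5 (.d k251 k247 k203 1 3))))))) .n)) (.c k16 (.l (.s k195 k215 5 (.s
  k243 k162 12 (.s k227 k211 3 (.s k231 k239 1 (.s k219 k207 5 (.d k251 k247 k203 1 3)))))))
  .n)))))) (.c k81 (.q k15 [(.s k5 k10 2 (.s k165 k245 11 (.s k170 k255 14 (.s k160 k175 2 (.d k240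
  k80 k90 11 14))))), (.s k5 k10 2 (.s k165 k245 11 (.s k13 k241 13 (.s k12 k14 0 (.s k4 k8 1 (.d
  k166 k247 k243 12 14)))))), (.s k170 k255 14 (.s k8 k251 12 (.s k12 k4 1 (.s k13 k14 0 (.s k165
  k241 13 (.s k160 k175 2 (.d k240 k80 k90 11 14)))))))] (.c k165 (.l (.s k10 k5 2 (.s k170 k255 14
  (.s k8 k251 12 (.s k11 k9 0 (.s k90 k250 11 (.s k88 k91 0 (.d k248 k168 k169 11 12)))))))) .n))
  (.c k93 (.q k15 [(.s k5 k10 2 (.s k165 k245 11 (.s k90 k240 14 (.s k95 k80 2 (.d k255 k175 k170 11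
  14))))), (.s k5 k10 2 (.s k165 k245 11 (.s k13 k241 13 (.s k12 k14 0 (.s k4 k8 1 (.d k166 k247
  k243 12 14)))))), (.s k170 k255 14 (.s k8 k251 12 (.s k12 k4 1 (.s k13 k14 0 (.s k165 k241 13 (.s
  k160 k175 2 (.d k240 k80 k90 11 14)))))))] (.c k165 (.l (.s k10 k5 2 (.s k170 k255 14 (.s k8 k251
  12 (.s k11 k9 0 (.s k90 k250 11 (.s k88 k91 0 (.d k248 k168 k169 11 12)))))))) .n)) (.c k162 (.l
  (.s k93 k81 1 (.s k255 k170 14 (.s k12 k174 12 (.s k166 k243 14 (.d k4 k8 k247 1 12)))))) (.c k166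
  (.f k93 k81 1 (.q k101 [(.s k69 k117 3 (.s k170 k255 14 (.s k32 k239 10 (.s k48 k16 3 (.d k207
  k138 k154 10 14))))), (.s k69 k117 3 (.s k77 k113 5 (.s k207 k138 10 (.s k12 k142 8 (.s k4 k8 1
  (.s k134 k199 8 (.d k73 k65 k195 1 10))))))), (.s k77 k113 5 (.s k170 k255 14 (.s k8 k251 12 (.s
  k12 k4 1 (.s k32 k239 10 (.s k48 k16 3 (.d k207 k142 k154 8 14)))))))] (.c k44 (.q k227 [(.s k117
  k69 3 (.s k255 k170 14 (.s k48 k186 10 (.s k154 k207 14 (.d k16 k32 k223 3 10))))), (.s k69 k117 3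
  (.s k77 k113 5 (.s k207 k138 10 (.s k12 k142 8 (.s k4 k8 1 (.s k134 k199 8 (.d k73 k65 k195 1
  10))))))), (.s k77 k113 5 (.s k170 k255 14 (.s k8 k251 12 (.s k12 k4 1 (.s k32 k239 10 (.s k48 k16
  3 (.d k207 k142 k154 8 14)))))))] (.c k154 (.l (.s k69 k117 3 (.s k77 k113 5 (.s k138 k207 10 (.s
  k170 k255 14 (.s k8 k251 12 (.d k73 k65 k203 1 8))))))) (.c k207 (.l (.s k117 k69 3 (.s k255 k170
  14 (.s k48 k186 10 (.s k16 k32 3 (.s k154 k223 10 (.s k24 k219 8 (.d k12 k36 k174 5 12))))))))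
  .n))) (.c k154 (.l (.s k69 k117 3 (.s k77 k113 5 (.s k138 k207 10 (.s k170 k255 14 (.s k8 k251 12
  (.d k73 k65 k203 1 8))))))) (.c k207 (.l (.s k117 k69 3 (.s k255 k170 14 (.s k48 k186 10 (.s k16
  k32 3 (.s k154 k223 10 (.s k24 k219 8 (.d k12 k174 k36 12 5)))))))) (.c k227 (.q k44 [(.s k170
  k255 14 (.s k239 k32 10 (.s k109 k174 8 (.d k77 k125 k113 3 5)))), (.s k69 k117 3 (.s k77 k113 5
  (.s k207 k138 10 (.s k12 k142 8 (.s k60 k28 3 (.d k109 k125 k158 3 12)))))), (.s k69 k117 3 (.s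
  k170 k255 14 (.s k32 k239 10 (.s k48 k16 3 (.d k207 k138 k154 10 14)))))] .n) .n)))))) (.c k170
  (.f k81 k93 1 (.q k64 [(.s k115 k98 4 (.s k102 k76 6 (.s k119 k68 4 (.d k127 k123 k106 1 6)))),
  (.s k98 k115 4 (.s k162 k243 12 (.s k34 k226 7 (.s k51 k17 4 (.d k192 k128 k145 7 12))))), (.s
  k106 k127 6 (.s k123 k72 4 (.s k192 k128 7 (.s k243 k162 12 (.d k63 k149 k183 14 9)))))] (.c k40
  (.q k235 [(.s k115 k98 4 (.s k102 k76 6 (.s k119 k68 4 (.d k127 k123 k106 1 6)))), (.s k98 k115 4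
  (.s k162 k243 12 (.s k34 k226 7 (.s k51 k17 4 (.d k192 k128 k145 7 12))))), (.s k106 k127 6 (.s
  k123 k72 4 (.s k192 k128 7 (.s k243 k162 12 (.d k63 k149 k183 14 9)))))] .n) (.c k235 (.q k40 [(.s
  k115 k98 4 (.s k102 k76 6 (.s k119 k68 4 (.d k127 k123 k106 1 6)))), (.s k60 k20 5 (.s k192 k128 7
  (.s k104 k148 13 (.s k84 k124 5 (.d k168 k232 k252 7 13)))))] .n) .n)))) (.c k174 (.l (.s k81 k93
  1 (.s k243 k162 12 (.s k12 k166 14 (.s k170 k255 14 (.d k8 k4 k251 1 12)))))) (.c k243 (.f k81 k93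
  1 (.q k102 [(.s k115 k76 6 (.s k64 k98 4 (.s k119 k68 4 (.d k127 k123 k106 1 6)))), (.s k68 k119 4
  (.s k170 k255 14 (.s k34 k238 9 (.s k51 k17 4 (.d k204 k136 k153 9 14))))), (.s k76 k115 6 (.s
  k170 k255 14 (.s k34 k238 9 (.s k51 k17 4 (.s k204 k153 14 (.s k12 k140 7 (.d k8 k251 k4 12
  1)))))))] (.c k83 (.q k163 [(.s k115 k76 6 (.s k64 k98 4 (.s k119 k68 4 (.d k127 k123 k106 1
  6)))), (.s k68 k119 4 (.s k170 k255 14 (.s k34 k238 9 (.s k51 k17 4 (.d k204 k136 k153 9 14))))),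
  (.s k76 k115 6 (.s k170 k255 14 (.s k34 k238 9 (.s k51 k17 4 (.s k204 k153 14 (.s k12 k140 7 (.d
  k8 k251 k4 12 1)))))))] .n) (.c k163 (.q k83 [(.s k115 k76 6 (.s k64 k98 4 (.s k119 k68 4 (.d k127
  k123 k106 1 6)))), (.s k80 k82 0 (.s k86 k92 2 (.s k87 k84 0 (.d k95 k91 k90 1 2))))] .n) .n))))
  (.c k251 (.l (.s k93 k81 1 (.s k255 k170 14 (.s k12 k174 12 (.s k4 k8 1 (.d k166 k247 k243 12
  14)))))) (.c k255 (.q k217 [(.s k93 k81 1 (.s k153 k25 7 (.s k221 k17 9 (.s k29 k157 7 (.d k209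
  k213 k149 1 9))))), (.s k81 k93 1 (.s k243 k162 12 (.s k12 k166 14 (.s k204 k230 6 (.s k68 k136 9
  (.s k102 k119 4 (.d k76 k115 k140 6 7))))))), (.s k153 k25 7 (.s k17 k221 9 (.s k51 k34 4 (.s k204
  k102 14 (.s k243 k230 6 (.s k179 k115 7 (.d k166 k140 k12 6 14)))))))] (.c k87 (.q k171 [(.s k93
  k81 1 (.s k153 k25 7 (.s k221 k17 9 (.s k29 k157 7 (.d k209 k213 k149 1 9))))), (.s k81 k93 1 (.s
  k243 k162 12 (.s k12 k166 14 (.s k204 k230 6 (.s k68 k136 9 (.s k102 k119 4 (.d k76 k115 k140 6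
  7))))))), (.s k153 k25 7 (.s k17 k221 9 (.s k51 k34 4 (.s k204 k102 14 (.s k243 k230 6 (.s k179
  k115 7 (.d k166 k140 k12 6 14)))))))] .n) (.c k171 (.q k87 [(.s k93 k81 1 (.s k153 k25 7 (.s k221
  k17 9 (.s k29 k157 7 (.d k209 k213 k149 1 9))))), (.s k81 k93 1 (.s k86 k84 0 (.s k83 k92 2 (.s
  k80 k82 0 (.d k95 k91 k90 1 2))))), (.s k86 k84 0 (.s k92 k83 2 (.s k153 k25 7 (.s k220 k19 10 (.s
  k28 k156 7 (.d k211 k214 k150 2 10))))))] .n) .n))) .n))))))))))))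

def t3_106 : T TT 256 :=
  (.q k89 [(.s k81 k93 1 (.s k243 k162 12 (.s k166 k12 14 (.s k247 k4 12 (.d k255 k251 k170 1
  14))))), (.s k81 k93 1 (.s k243 k162 12 (.s k12 k166 14 (.s k8 k4 1 (.d k170 k251 k255 12 14)))))]
  (.c k4 (.q k1 [(.s k81 k93 1 (.s k169 k253 13 (.s k9 k249 11 (.s k13 k5 1 (.d k241 k161 k165 11
  13))))), (.s k81 k93 1 (.s k170 k255 14 (.s k241 k161 11 (.s k243 k162 12 (.s k240 k242 0 (.s k160
  k80 11 (.d k165 k175 k13 2 13))))))), (.s k169 k253 13 (.s k9 k249 11 (.s k170 k255 14 (.s k8 k251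
  12 (.s k10 k11 0 (.d k5 k15 k13 2 1))))))] (.c k13 (.l (.s k81 k93 1 (.s k241 k161 11 (.s k243
  k162 12 (.s k240 k242 0 (.s k253 k169 13 (.s k245 k249 1 (.d k255 k250 k170 2 14)))))))) (.c k241
  (.l (.s k81 k93 1 (.s k169 k253 13 (.s k170 k255 14 (.s k243 k162 12 (.s k249 k9 11 (.s k252 k246
  2 (.d k168 k171 k84 0 13)))))))) .n))) (.c k12 (.f k255 k170 14 (.f k81 k93 1 (.q k234 [(.s k162
  k243 12 (.s k192 k213 6 (.s k64 k128 7 (.s k98 k115 4 (.s k51 k145 12 (.d k34 k17 k226 4 7)))))),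
  (.s k243 k162 12 (.s k251 k247 1 (.s k217 k200 4 (.s k153 k25 7 (.s k221 k17 9 (.d k204 k238 k230
  4 6)))))), (.s k213 k192 6 (.s k149 k21 7 (.s k209 k29 9 (.s k221 k217 1 (.d k17 k145 k153 7
  9)))))] (.c k6 (.q k9 [(.s k169 k249 11 (.s k1 k253 13 (.s k13 k5 1 (.d k241 k161 k165 11 13)))),
  (.s k213 k192 6 (.s k149 k21 7 (.s k209 k29 9 (.s k17 k145 7 (.d k221 k217 k153 1 9)))))] .n) (.c
  k9 (.q k6 [(.s k162 k243 12 (.s k192 k213 6 (.s k64 k128 7 (.s k98 k115 4 (.s k51 k145 12 (.d k34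
  k17 k226 4 7)))))), (.s k243 k162 12 (.s k251 k247 1 (.s k217 k200 4 (.s k153 k25 7 (.s k221 k17 9
  (.d k204 k238 k230 4 6)))))), (.s k213 k192 6 (.s k149 k21 7 (.s k209 k29 9 (.s k221 k217 1 (.d
  k17 k145 k153 7 9)))))] (.c k17 (.l (.s k192 k213 6 (.s k243 k162 12 (.s k226 k209 4 (.s k230 k238
  1 (.s k217 k204 6 (.d k251 k247 k200 1 4))))))) .n)) (.c k17 (.l (.s k192 k213 6 (.s k243 k162 12
  (.s k226 k209 4 (.s k230 k238 1 (.s k217 k204 6 (.d k251 k247 k200 1 4))))))) .n)))))) (.c k81 (.q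
  k15 [(.s k5 k10 2 (.s k165 k245 11 (.s k170 k255 14 (.s k160 k175 2 (.d k240 k80 k90 11 14))))),
  (.s k5 k10 2 (.s k165 k245 11 (.s k13 k241 13 (.s k12 k14 0 (.s k4 k8 1 (.d k166 k247 k243 12
  14)))))), (.s k170 k255 14 (.s k8 k251 12 (.s k12 k4 1 (.s k13 k14 0 (.s k165 k241 13 (.s k160
  k175 2 (.d k240 k80 k90 11 14)))))))] (.c k165 (.l (.s k10 k5 2 (.s k170 k255 14 (.s k8 k251 12
  (.s k11 k9 0 (.s k90 k250 11 (.s k88 k91 0 (.d k248 k168 k169 11 12)))))))) .n)) (.c k93 (.q k15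
  [(.s k5 k10 2 (.s k165 k245 11 (.s k90 k240 14 (.s k95 k80 2 (.d k255 k175 k170 11 14))))), (.s k5
  k10 2 (.s k165 k245 11 (.s k13 k241 13 (.s k12 k14 0 (.s k4 k8 1 (.d k166 k247 k243 12 14)))))),
  (.s k170 k255 14 (.s k8 k251 12 (.s k12 k4 1 (.s k13 k14 0 (.s k165 k241 13 (.s k160 k175 2 (.d
  k240 k80 k90 11 14)))))))] (.c k165 (.l (.s k10 k5 2 (.s k170 k255 14 (.s k8 k251 12 (.s k11 k9 0
  (.s k90 k250 11 (.s k88 k91 0 (.d k248 k168 k169 11 12)))))))) .n)) (.c k162 (.l (.s k93 k81 1 (.s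
  k255 k170 14 (.s k12 k174 12 (.s k166 k243 14 (.d k4 k8 k247 1 12)))))) (.c k166 (.f k93 k81 1 (.q
  k101 [(.s k69 k117 3 (.s k77 k113 5 (.s k65 k73 1 (.d k125 k109 k105 3 5)))), (.s k69 k117 3 (.s
  k170 k255 14 (.s k32 k239 10 (.s k48 k16 3 (.d k207 k138 k154 10 14))))), (.s k77 k113 5 (.s k125
  k109 3 (.s k255 k170 14 (.s k60 k190 8 (.s k20 k40 5 (.s k150 k215 8 (.d k105 k65 k195 5
  14)))))))] (.c k46 (.q k226 [(.s k69 k117 3 (.s k77 k113 5 (.s k65 k73 1 (.d k125 k109 k105 3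
  5)))), (.s k69 k117 3 (.s k170 k255 14 (.s k32 k239 10 (.s k48 k16 3 (.d k207 k138 k154 10
  14))))), (.s k77 k113 5 (.s k125 k109 3 (.s k255 k170 14 (.s k60 k190 8 (.s k20 k40 5 (.s k150
  k215 8 (.d k105 k65 k195 5 14)))))))] .n) (.c k226 (.q k46 [(.s k69 k117 3 (.s k77 k113 5 (.s k65
  k73 1 (.d k125 k109 k105 3 5)))), (.s k69 k117 3 (.s k170 k255 14 (.s k32 k239 10 (.s k48 k16 3
  (.d k207 k138 k154 10 14))))), (.s k77 k113 5 (.s k125 k109 3 (.s k255 k170 14 (.s k60 k190 8 (.s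
  k20 k40 5 (.s k150 k215 8 (.d k105 k65 k195 5 14)))))))] .n) .n)))) (.c k170 (.f k81 k93 1 (.q
  k117 [(.s k101 k69 3 (.s k113 k77 5 (.s k65 k97 3 (.d k125 k121 k105 1 5)))), (.s k243 k162 12 (.s
  k166 k12 14 (.s k247 k4 12 (.s k182 k52 8 (.s k60 k121 10 (.s k20 k40 5 (.d k150 k134 k215 3
  8))))))), (.s k101 k69 3 (.s k243 k162 12 (.s k166 k12 14 (.s k231 k36 8 (.s k207 k219 5 (.s k48
  k154 14 (.d k113 k77 k178 5 8)))))))] (.c k42 (.q k234 [(.s k101 k69 3 (.s k113 k77 5 (.s k65 k97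
  3 (.d k125 k121 k105 1 5)))), (.s k243 k162 12 (.s k166 k12 14 (.s k247 k4 12 (.s k182 k52 8 (.s
  k60 k121 10 (.s k20 k40 5 (.d k150 k134 k215 3 8))))))), (.s k101 k69 3 (.s k243 k162 12 (.s k166
  k12 14 (.s k231 k36 8 (.s k207 k219 5 (.s k48 k154 14 (.d k113 k77 k178 5 8)))))))] .n) (.c k234
  (.q k42 [(.s k101 k69 3 (.s k113 k77 5 (.s k65 k97 3 (.d k125 k121 k105 1 5)))), (.s k21 k63 6 (.s
  k149 k213 7 (.s k29 k209 9 (.s k25 k17 1 (.s k8 k59 4 (.s k12 k4 1 (.d k243 k162 k166 12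
  14)))))))] .n) .n)))) (.c k174 (.l (.s k81 k93 1 (.s k243 k162 12 (.s k12 k166 14 (.s k170 k255 14
  (.d k8 k4 k251 1 12)))))) (.c k243 (.f k81 k93 1 (.q k160 [(.s k80 k240 11 (.s k90 k95 2 (.s k88
  k91 0 (.s k92 k84 1 (.d k83 k82 k86 0 2))))), (.s k240 k80 11 (.s k255 k170 14 (.s k245 k250 2 (.s
  k165 k5 11 (.s k241 k13 13 (.s k1 k161 11 (.d k253 k249 k169 1 13))))))), (.s k170 k255 14 (.s
  k165 k175 2 (.s k241 k13 13 (.s k245 k5 11 (.s k253 k249 1 (.d k1 k161 k169 11 13)))))), (.s k170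
  k255 14 (.s k165 k175 2 (.s k5 k245 11 (.s k15 k10 2 (.d k240 k80 k90 11 14)))))] (.c k83 (.q k163
  [(.s k161 k162 0 (.s k241 k1 11 (.s k165 k13 13 (.d k170 k175 k255 2 14)))), (.s k170 k255 14 (.s
  k165 k175 2 (.s k5 k245 11 (.s k15 k10 2 (.d k240 k80 k90 11 14))))), (.s k161 k162 0 (.s k1 k241
  11 (.s k169 k253 13 (.s k170 k255 14 (.s k172 k166 2 (.d k168 k171 k164 0 1)))))), (.s k161 k162 0
  (.s k240 k80 11 (.s k241 k1 11 (.s k165 k13 13 (.s k5 k245 11 (.d k15 k10 k90 2 14))))))] .n) (.c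
  k163 (.q k83 [(.d k80 k82 k240 0 11)] (.c k80 (.l (.s k170 k255 14 (.s k165 k175 2 (.s k241 k13 13
  (.s k1 k161 11 (.s k245 k5 11 (.d k253 k249 k169 1 13))))))) (.c k82 (.l (.s k86 k92 2 (.s k87 k84
  0 (.s k95 k91 1 (.d k80 k90 k240 2 11))))) (.c k240 (.l (.s k86 k92 2 (.s k87 k84 0 (.s k95 k91 1
  (.d k80 k82 k90 0 2))))) .n)))) .n)))) (.c k251 (.l (.s k93 k81 1 (.s k255 k170 14 (.s k12 k174 12
  (.s k4 k8 1 (.d k166 k247 k243 12 14)))))) (.c k255 (.q k80 [(.s k93 k81 1 (.s k95 k90 2 (.s k92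
  k94 0 (.s k84 k88 1 (.d k86 k87 k83 0 2))))), (.s k90 k95 2 (.s k88 k91 0 (.s k240 k160 11 (.s k12
  k164 13 (.s k4 k8 1 (.d k166 k247 k243 12 14)))))), (.s k81 k93 1 (.s k83 k82 0 (.s k240 k160 11
  (.s k243 k162 12 (.s k12 k166 14 (.s k88 k164 13 (.d k92 k84 k86 1 2)))))))] (.c k83 (.l (.s k81
  k93 1 (.s k90 k95 2 (.s k91 k88 0 (.s k240 k160 11 (.s k15 k165 14 (.d k243 k162 k167 12 13)))))))
  (.c k87 (.q k171 [(.s k81 k93 1 (.s k83 k82 0 (.s k90 k95 2 (.s k88 k91 0 (.d k92 k84 k86 1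
  2))))), (.s k90 k95 2 (.s k91 k88 0 (.s k240 k160 11 (.s k15 k165 14 (.s k10 k5 2 (.s k170 k250 11
  (.d k251 k11 k8 11 12))))))), (.s k81 k93 1 (.s k83 k82 0 (.s k240 k160 11 (.s k243 k162 12 (.s
  k12 k166 14 (.s k88 k164 13 (.d k92 k84 k86 1 2))))))), (.s k81 k93 1 (.s k240 k160 11 (.s k243
  k162 12 (.s k241 k242 0 (.s k165 k13 13 (.d k90 k95 k15 2 14))))))] (.c k240 (.l (.s k81 k93 1 (.s
  k90 k95 2 (.s k91 k88 0 (.s k243 k162 12 (.s k12 k166 14 (.s k8 k4 1 (.d k251 k170 k11 12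
  11)))))))) .n)) (.c k88 (.l (.s k81 k93 1 (.s k83 k82 0 (.s k86 k92 2 (.s k87 k84 0 (.d k95 k91
  k90 1 2)))))) (.c k171 (.q k87 [(.s k81 k93 1 (.s k86 k84 0 (.d k83 k82 k92 0 2))), (.s k84 k86 0
  (.s k88 k92 1 (.d k90 k91 k95 0 2))), (.s k81 k93 1 (.s k83 k82 0 (.d k95 k91 k90 1 2)))] .n)
  .n))))) .n))))))))))))

def t3_107 : T TT 256 :=
  (.f k255 k170 14 (.q k102 [(.s k68 k119 4 (.s k204 k136 9 (.s k221 k238 4 (.d k153 k17 k51 9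
  14))))] (.c k17 (.q k4 [(.s k12 k8 1 (.s k93 k174 12 (.s k166 k247 12 (.d k89 k81 k243 1 14)))),
  (.s k68 k119 4 (.s k166 k247 12 (.s k38 k230 7 (.s k55 k21 4 (.d k196 k132 k149 7 12))))), (.s k12
  k8 1 (.s k68 k119 4 (.s k132 k196 7 (.s k72 k192 9 (.s k76 k64 1 (.d k204 k140 k136 7 9))))))] .n)
  (.c k51 (.f k68 k119 4 (.q k117 [(.s k48 k186 10 (.s k16 k32 3 (.s k101 k69 3 (.d k154 k223 k207
  10 14)))), (.s k101 k69 3 (.s k100 k103 0 (.s k204 k136 9 (.d k48 k186 k152 10 13)))), (.s k48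
  k186 10 (.s k32 k16 3 (.s k204 k136 9 (.s k100 k152 13 (.s k84 k116 3 (.d k168 k236 k252 9
  13))))))] (.c k19 (.q k35 [(.s k48 k186 10 (.s k16 k32 3 (.s k101 k69 3 (.d k154 k223 k207 10
  14)))), (.s k101 k69 3 (.s k100 k103 0 (.s k84 k116 3 (.s k236 k169 10 (.d k168 k252 k32 13
  9))))), (.s k48 k186 10 (.s k32 k16 3 (.s k204 k136 9 (.s k100 k152 13 (.d k236 k168 k169 9
  10)))))] (.c k32 (.l (.s k48 k186 10 (.s k101 k69 3 (.s k100 k103 0 (.d k204 k136 k152 9 13)))))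
  .n)) (.c k35 (.q k19 [(.s k48 k186 10 (.s k16 k32 3 (.s k101 k69 3 (.d k154 k223 k207 10 14)))),
  (.s k48 k186 10 (.s k32 k16 3 (.s k204 k136 9 (.s k100 k152 13 (.s k84 k116 3 (.d k168 k236 k252 9
  13)))))), (.s k101 k69 3 (.s k100 k103 0 (.s k204 k136 9 (.d k48 k186 k152 10 13)))), (.s k69 k101
  3 (.s k70 k71 0 (.s k86 k118 3 (.s k87 k84 0 (.s k223 k155 9 (.d k207 k239 k138 3 10))))))] .n)
  (.c k48 (.l (.s k69 k101 3 (.s k204 k136 9 (.s k207 k138 10 (.s k205 k206 0 (.s k221 k238 4 (.s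
  k253 k237 3 (.d k1 k137 k169 9 13)))))))) (.c k186 (.l (.s k101 k69 3 (.s k100 k103 0 (.s k204
  k136 9 (.s k48 k152 13 (.s k16 k32 3 (.d k154 k207 k223 14 10))))))) .n)))))) (.c k68 (.q k4 [(.s
  k12 k8 1 (.s k93 k174 12 (.s k89 k81 1 (.d k166 k247 k243 12 14)))), (.s k166 k247 12 (.s k38 k230
  7 (.s k21 k55 4 (.s k63 k42 6 (.s k127 k191 7 (.s k106 k64 6 (.d k149 k213 k192 7 14)))))))] (.c
  k166 (.f k12 k8 1 (.q k89 [(.d k93 k174 k81 12 1), (.s k76 k115 6 (.s k204 k140 7 (.s k153 k51 14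
  (.d k221 k238 k17 4 9))))] (.c k162 (.l (.s k174 k93 12 (.s k76 k115 6 (.s k204 k140 7 (.s k153
  k51 14 (.d k221 k238 k17 4 9)))))) (.c k174 (.q k162 [(.d k81 k93 k243 1 12), (.s k76 k115 6 (.s
  k204 k140 7 (.s k221 k238 4 (.d k153 k17 k51 9 14))))] .n) .n)))) (.c k247 (.l (.s k12 k8 1 (.s
  k93 k174 12 (.s k89 k81 1 (.s k76 k115 6 (.s k204 k140 7 (.s k153 k51 14 (.d k221 k238 k17 4
  9)))))))) .n))) (.c k119 (.q k247 [(.s k166 k4 12 (.s k243 k251 1 (.s k81 k162 12 (.d k89 k93 k12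
  1 14)))), (.s k166 k4 12 (.s k230 k38 7 (.s k213 k196 4 (.s k192 k234 6 (.s k64 k128 7 (.s k106
  k127 6 (.d k149 k21 k63 7 14)))))))] (.c k4 (.l (.s k243 k251 1 (.s k81 k162 12 (.s k89 k93 1 (.s
  k115 k76 6 (.s k51 k179 7 (.s k17 k34 4 (.d k153 k221 k204 9 14)))))))) (.c k166 (.f k243 k251 1
  (.q k89 [(.d k81 k162 k93 12 1), (.s k115 k76 6 (.s k51 k179 7 (.s k17 k34 4 (.d k153 k221 k204 9
  14))))] (.c k162 (.q k174 [(.d k93 k81 k12 1 12), (.s k115 k76 6 (.s k51 k179 7 (.s k17 k34 4 (.d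
  k153 k221 k204 9 14))))] .n) (.c k174 (.l (.s k162 k81 12 (.s k115 k76 6 (.s k51 k179 7 (.s k17
  k34 4 (.d k153 k221 k204 9 14)))))) .n)))) .n))) (.c k136 (.l (.s k119 k68 4 (.s k51 k187 9 (.s
  k153 k204 14 (.d k17 k34 k221 4 9))))) (.c k153 (.f k68 k119 4 (.q k84 [(.s k86 k87 0 (.s k70 k118
  3 (.s k71 k69 0 (.d k116 k100 k101 3 4)))), (.s k252 k168 13 (.s k253 k254 0 (.s k169 k1 13 (.s
  k236 k35 10 (.d k204 k136 k220 9 3)))))] (.c k86 (.l (.s k100 k116 3 (.s k101 k103 0 (.s k117 k69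
  3 (.s k48 k186 10 (.d k204 k136 k152 9 13)))))) (.c k136 (.q k187 [(.s k86 k87 0 (.s k70 k118 3
  (.s k71 k69 0 (.d k116 k100 k101 3 4)))), (.s k100 k116 3 (.s k168 k252 13 (.s k32 k236 9 (.s k48
  k16 3 (.s k117 k186 10 (.d k101 k103 k69 0 3)))))), (.s k86 k87 0 (.s k118 k70 3 (.s k252 k168 13
  (.s k185 k51 10 (.s k254 k253 0 (.d k186 k184 k50 0 9))))))] (.c k86 (.l (.s k100 k116 3 (.s k101
  k103 0 (.s k117 k69 3 (.s k48 k186 10 (.s k16 k32 3 (.d k152 k220 k204 9 13))))))) (.c k103 (.l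
  (.s k116 k100 3 (.s k86 k87 0 (.s k71 k101 4 (.d k70 k69 k118 0 3))))) (.c k118 (.q k48 [(.s k116
  k100 3 (.d k252 k184 k168 9 13)), (.s k16 k32 3 (.s k117 k186 10 (.s k101 k69 3 (.d k154 k223 k207
  10 14))))] (.c k116 (.l (.s k117 k186 10 (.s k16 k32 3 (.s k101 k69 3 (.d k154 k223 k207 10
  14))))) (.c k117 (.l (.s k116 k100 3 (.d k252 k184 k168 9 13))) .n))) .n)))) (.c k187 (.l (.s k136
  k204 9 (.s k86 k87 0 (.s k70 k118 3 (.s k71 k69 0 (.d k116 k100 k101 3 4)))))) .n))))) (.c k187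
  (.l (.s k68 k119 4 (.s k204 k136 9 (.s k153 k51 14 (.d k221 k238 k17 4 9))))) (.c k204 (.f k68
  k119 4 (.q k4 [(.s k12 k8 1 (.s k93 k174 12 (.s k89 k81 1 (.d k166 k247 k243 12 14)))), (.s k196
  k132 7 (.s k149 k55 12 (.s k21 k213 7 (.s k63 k42 6 (.s k106 k192 14 (.d k127 k64 k191 6 7))))))]
  (.c k12 (.l (.s k166 k247 12 (.s k38 k230 7 (.s k55 k21 4 (.d k196 k132 k149 7 12))))) (.c k70 (.q
  k137 [(.s k12 k8 1 (.s k93 k174 12 (.s k89 k81 1 (.d k166 k247 k243 12 14)))), (.s k196 k132 7 (.s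
  k149 k55 12 (.s k21 k213 7 (.s k63 k42 6 (.s k106 k192 14 (.d k127 k64 k191 6 7))))))] (.c k12 (.l
  (.s k166 k247 12 (.s k38 k230 7 (.s k55 k21 4 (.d k196 k132 k149 7 12))))) (.c k247 (.l (.s k12 k8
  1 (.s k93 k174 12 (.s k89 k81 1 (.s k76 k115 6 (.s k64 k72 1 (.d k127 k110 k106 4 6))))))) .n)))
  (.c k137 (.q k70 [(.s k12 k8 1 (.s k93 k174 12 (.s k89 k81 1 (.d k166 k247 k243 12 14)))), (.s k71
  k69 0 (.s k86 k118 3 (.s k84 k87 0 (.d k116 k100 k101 3 4))))] .n) (.c k247 (.l (.s k12 k8 1 (.s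
  k93 k174 12 (.s k89 k81 1 (.s k76 k115 6 (.s k64 k72 1 (.d k127 k110 k106 4 6))))))) .n)))))) (.c
  k221 (.q k4 [(.s k12 k8 1 (.s k93 k174 12 (.s k89 k81 1 (.d k166 k247 k243 12 14)))), (.s k68 k119
  4 (.s k166 k247 12 (.s k38 k230 7 (.s k55 k21 4 (.d k196 k132 k149 7 12))))), (.s k12 k8 1 (.s k68
  k119 4 (.s k132 k196 7 (.s k72 k192 9 (.s k76 k64 1 (.d k204 k140 k136 7 9))))))] .n) (.c k238 (.l
  (.s k119 k68 4 (.s k51 k187 9 (.s k17 k34 4 (.d k153 k221 k204 9 14))))) .n))))))))))))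

def t3_108 : T TT 256 :=
  (.f k255 k170 14 (.q k102 [(.s k68 k119 4 (.s k204 k136 9 (.s k221 k238 4 (.d k153 k17 k51 9
  14))))] (.c k17 (.q k4 [(.s k12 k8 1 (.s k93 k174 12 (.s k166 k247 12 (.d k89 k81 k243 1 14)))),
  (.s k68 k119 4 (.s k166 k247 12 (.s k38 k230 7 (.s k55 k21 4 (.d k196 k132 k149 7 12))))), (.s k12
  k8 1 (.s k68 k119 4 (.s k132 k196 7 (.s k72 k192 9 (.s k76 k64 1 (.d k204 k140 k136 7 9))))))] .n)
  (.c k51 (.f k119 k68 4 (.q k117 [(.s k48 k186 10 (.s k16 k32 3 (.s k154 k223 10 (.d k101 k69 k207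
  3 14)))), (.s k101 k69 3 (.s k103 k100 0 (.s k71 k87 3 (.d k116 k118 k86 0 4))))] (.c k19 (.q k35
  [(.s k48 k186 10 (.s k16 k32 3 (.s k101 k69 3 (.d k154 k223 k207 10 14)))), (.s k48 k186 10 (.s
  k116 k118 0 (.s k169 k236 10 (.s k252 k184 9 (.d k253 k254 k1 0 13))))), (.s k101 k69 3 (.s k103
  k100 0 (.s k71 k87 3 (.d k116 k118 k86 0 4))))] .n) (.c k35 (.q k19 [(.s k101 k69 3 (.s k103 k100
  0 (.s k71 k87 3 (.d k116 k118 k86 0 4)))), (.s k48 k186 10 (.s k16 k32 3 (.s k154 k223 10 (.d k101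
  k69 k207 3 14))))] (.c k69 (.l (.s k48 k186 10 (.s k16 k32 3 (.s k17 k18 0 (.s k118 k116 0 (.s
  k153 k221 9 (.d k86 k70 k220 3 10))))))) (.c k101 (.l (.s k48 k186 10 (.s k118 k116 0 (.s k86 k70
  3 (.s k84 k87 0 (.s k220 k153 10 (.d k16 k32 k152 3 9))))))) .n))) (.c k69 (.l (.s k48 k186 10 (.s
  k16 k32 3 (.s k116 k118 0 (.s k154 k223 10 (.s k101 k207 14 (.s k71 k86 4 (.d k103 k100 k87 0
  3)))))))) (.c k101 (.l (.s k118 k116 0 (.s k86 k70 3 (.s k84 k87 0 (.s k186 k48 10 (.s k252 k168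
  13 (.d k254 k50 k253 9 0))))))) .n)))))) (.c k68 (.q k4 [(.s k12 k8 1 (.s k93 k174 12 (.s k89 k81
  1 (.d k166 k247 k243 12 14)))), (.s k166 k247 12 (.s k38 k230 7 (.s k21 k55 4 (.s k63 k42 6 (.s
  k127 k191 7 (.s k106 k64 6 (.d k149 k213 k192 7 14)))))))] (.c k166 (.f k12 k8 1 (.q k89 [(.d k93
  k174 k81 12 1), (.s k76 k115 6 (.s k204 k140 7 (.s k153 k51 14 (.d k221 k238 k17 4 9))))] (.c k162
  (.l (.s k174 k93 12 (.s k76 k115 6 (.s k204 k140 7 (.s k153 k51 14 (.d k221 k238 k17 4 9)))))) (.c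
  k174 (.q k162 [(.d k81 k93 k243 1 12), (.s k76 k115 6 (.s k204 k140 7 (.s k221 k238 4 (.d k153 k17
  k51 9 14))))] .n) .n)))) (.c k247 (.l (.s k12 k8 1 (.s k93 k174 12 (.s k89 k81 1 (.s k76 k115 6
  (.s k204 k140 7 (.s k153 k51 14 (.d k221 k238 k17 4 9)))))))) .n))) (.c k119 (.q k127 [(.s k63
  k191 7 (.s k21 k42 6 (.s k106 k64 6 (.d k149 k213 k192 7 14)))), (.s k106 k64 6 (.s k110 k98 1 (.s
  k93 k76 4 (.s k12 k174 12 (.s k4 k8 1 (.s k166 k247 12 (.d k89 k81 k243 1 14)))))))] (.c k64 (.l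
  (.s k63 k191 7 (.s k21 k42 6 (.s k149 k213 7 (.s k55 k196 12 (.s k51 k59 1 (.s k17 k34 4 (.d k153
  k221 k204 9 14)))))))) (.c k106 (.f k63 k191 7 (.q k149 [(.d k21 k42 k213 6 7), (.s k55 k196 12
  (.s k51 k59 1 (.s k17 k34 4 (.d k153 k221 k204 9 14))))] (.c k42 (.q k234 [(.d k213 k192 k21 6 7),
  (.s k55 k196 12 (.s k51 k59 1 (.s k17 k34 4 (.d k153 k221 k204 9 14))))] .n) (.c k234 (.l (.s k42
  k21 6 (.s k55 k196 12 (.s k51 k59 1 (.s k17 k34 4 (.d k153 k221 k204 9 14)))))) .n)))) .n))) (.c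
  k136 (.l (.s k119 k68 4 (.s k51 k187 9 (.s k153 k204 14 (.d k17 k34 k221 4 9))))) (.c k153 (.f
  k119 k68 4 (.q k89 [(.s k81 k93 1 (.s k243 k162 12 (.s k166 k12 14 (.d k247 k251 k4 1 12)))), (.s
  k115 k76 6 (.s k127 k123 1 (.s k63 k191 7 (.s k21 k42 6 (.s k149 k213 7 (.d k106 k64 k192 6
  14))))))] (.c k136 (.l (.s k187 k51 9 (.s k81 k93 1 (.s k115 k76 6 (.s k64 k98 4 (.d k127 k123
  k106 1 6)))))) (.c k187 (.q k136 [(.s k81 k93 1 (.s k243 k162 12 (.s k166 k12 14 (.d k247 k251 k4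
  1 12)))), (.s k115 k76 6 (.s k127 k123 1 (.s k63 k191 7 (.s k21 k42 6 (.s k149 k213 7 (.d k106 k64
  k192 6 14))))))] (.c k251 (.l (.s k81 k93 1 (.s k115 k76 6 (.s k64 k98 4 (.d k127 k123 k106 1
  6))))) .n)) .n)))) (.c k187 (.l (.s k68 k119 4 (.s k204 k136 9 (.s k153 k51 14 (.d k221 k238 k17 4
  9))))) (.c k204 (.q k60 [(.s k20 k40 5 (.s k125 k190 8 (.s k105 k65 5 (.d k150 k215 k195 8 14)))),
  (.s k119 k68 4 (.s k51 k187 9 (.s k54 k57 2 (.s k150 k198 11 (.d k20 k40 k215 5 8))))), (.s k119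
  k68 4 (.s k51 k187 9 (.s k17 k34 4 (.s k57 k54 2 (.s k153 k221 9 (.s k105 k201 11 (.d k125 k65
  k190 5 8)))))))] (.c k70 (.q k137 [(.s k20 k40 5 (.s k125 k190 8 (.s k105 k65 5 (.d k150 k215 k195
  8 14)))), (.s k119 k68 4 (.s k51 k187 9 (.s k54 k57 2 (.s k150 k198 11 (.d k20 k40 k215 5 8))))),
  (.s k119 k68 4 (.s k51 k187 9 (.s k17 k34 4 (.s k57 k54 2 (.s k153 k221 9 (.s k105 k201 11 (.d
  k125 k65 k190 5 8)))))))] (.c k195 (.l (.s k20 k40 5 (.s k119 k68 4 (.s k51 k187 9 (.s k54 k57 2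
  (.d k150 k215 k198 8 11)))))) .n)) (.c k137 (.q k70 [(.s k20 k40 5 (.s k125 k190 8 (.s k105 k65 5
  (.d k150 k215 k195 8 14)))), (.s k68 k119 4 (.s k71 k69 0 (.s k86 k118 3 (.s k84 k87 0 (.d k116
  k100 k101 3 4)))))] .n) (.c k195 (.l (.s k20 k40 5 (.s k119 k68 4 (.s k51 k187 9 (.s k54 k57 2 (.d
  k150 k215 k198 8 11)))))) .n)))) (.c k221 (.q k4 [(.s k12 k8 1 (.s k93 k174 12 (.s k89 k81 1 (.d
  k166 k247 k243 12 14)))), (.s k68 k119 4 (.s k166 k247 12 (.s k38 k230 7 (.s k55 k21 4 (.d k196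
  k132 k149 7 12))))), (.s k12 k8 1 (.s k68 k119 4 (.s k132 k196 7 (.s k72 k192 9 (.s k76 k64 1 (.d
  k204 k140 k136 7 9))))))] .n) (.c k238 (.l (.s k119 k68 4 (.s k51 k187 9 (.s k17 k34 4 (.d k153
  k221 k204 9 14))))) .n))))))))))))

def t3_109 : T TT 256 :=
  (.f k255 k170 14 (.q k102 [(.s k68 k119 4 (.s k204 k136 9 (.s k221 k238 4 (.d k153 k17 k51 9
  14))))] (.c k17 (.q k4 [(.s k12 k8 1 (.s k166 k247 12 (.s k89 k243 14 (.d k93 k81 k174 1 12)))),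
  (.s k68 k119 4 (.s k166 k247 12 (.s k38 k230 7 (.s k55 k21 4 (.d k196 k132 k149 7 12))))), (.s k12
  k8 1 (.s k68 k119 4 (.s k132 k196 7 (.s k72 k192 9 (.s k76 k64 1 (.d k204 k140 k136 7 9))))))] .n)
  (.c k51 (.f k68 k119 4 (.q k117 [(.s k48 k186 10 (.s k16 k32 3 (.s k101 k69 3 (.d k154 k223 k207
  10 14)))), (.s k101 k69 3 (.s k100 k103 0 (.s k204 k136 9 (.d k48 k186 k152 10 13)))), (.s k48
  k186 10 (.s k32 k16 3 (.s k204 k136 9 (.s k100 k152 13 (.s k84 k116 3 (.d k168 k236 k252 9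
  13))))))] (.c k19 (.q k35 [(.s k48 k186 10 (.s k16 k32 3 (.s k101 k69 3 (.d k154 k223 k207 10
  14)))), (.s k101 k69 3 (.s k100 k103 0 (.s k84 k116 3 (.s k236 k169 10 (.d k168 k252 k32 13
  9))))), (.s k48 k186 10 (.s k32 k16 3 (.s k204 k136 9 (.s k100 k152 13 (.d k236 k168 k169 9
  10)))))] (.c k32 (.l (.s k48 k186 10 (.s k101 k69 3 (.s k100 k103 0 (.d k204 k136 k152 9 13)))))
  .n)) (.c k35 (.q k19 [(.s k48 k186 10 (.s k16 k32 3 (.s k101 k69 3 (.d k154 k223 k207 10 14)))),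
  (.s k48 k186 10 (.s k32 k16 3 (.s k204 k136 9 (.s k100 k152 13 (.s k84 k116 3 (.d k168 k236 k252 9
  13)))))), (.s k101 k69 3 (.s k100 k103 0 (.s k204 k136 9 (.d k48 k186 k152 10 13)))), (.s k69 k101
  3 (.s k70 k71 0 (.s k86 k118 3 (.s k87 k84 0 (.s k223 k155 9 (.d k207 k239 k138 3 10))))))] .n)
  (.c k48 (.l (.s k69 k101 3 (.s k204 k136 9 (.s k207 k138 10 (.s k205 k206 0 (.s k221 k238 4 (.s
  k253 k237 3 (.d k1 k137 k169 9 13)))))))) (.c k186 (.l (.s k101 k69 3 (.s k100 k103 0 (.s k204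
  k136 9 (.s k48 k152 13 (.s k16 k32 3 (.d k154 k207 k223 14 10))))))) .n)))))) (.c k68 (.q k81 [(.s
  k89 k93 1 (.s k243 k162 12 (.s k247 k251 1 (.d k166 k4 k12 12 14)))), (.s k89 k93 1 (.s k115 k76 6
  (.s k64 k98 4 (.s k192 k128 7 (.s k213 k234 6 (.s k149 k21 7 (.d k106 k127 k63 6 14))))))), (.s
  k243 k162 12 (.s k247 k251 1 (.s k166 k4 12 (.s k230 k38 7 (.s k204 k217 6 (.s k153 k51 14 (.d
  k221 k238 k17 4 9)))))))] (.c k89 (.f k243 k162 12 (.q k166 [(.d k247 k251 k4 1 12), (.s k230 k38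
  7 (.s k204 k217 6 (.s k153 k51 14 (.d k221 k238 k17 4 9))))] (.c k8 (.l (.s k251 k247 1 (.s k230
  k38 7 (.s k204 k217 6 (.s k153 k51 14 (.d k221 k238 k17 4 9)))))) (.c k251 (.q k8 [(.d k4 k12 k247
  1 12), (.s k230 k38 7 (.s k204 k217 6 (.s k221 k238 4 (.d k153 k17 k51 9 14))))] .n) .n)))) .n))
  (.c k119 (.q k247 [(.s k166 k4 12 (.s k243 k251 1 (.s k81 k162 12 (.d k89 k93 k12 1 14)))), (.s
  k166 k4 12 (.s k230 k38 7 (.s k213 k196 4 (.s k192 k234 6 (.s k64 k128 7 (.s k106 k127 6 (.d k149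
  k21 k63 7 14)))))))] (.c k4 (.l (.s k243 k251 1 (.s k81 k162 12 (.s k89 k93 1 (.s k115 k76 6 (.s
  k51 k179 7 (.s k17 k34 4 (.d k153 k221 k204 9 14)))))))) (.c k166 (.f k243 k251 1 (.q k89 [(.d k81
  k162 k93 12 1), (.s k115 k76 6 (.s k51 k179 7 (.s k17 k34 4 (.d k153 k221 k204 9 14))))] (.c k162
  (.q k174 [(.d k93 k81 k12 1 12), (.s k115 k76 6 (.s k51 k179 7 (.s k17 k34 4 (.d k153 k221 k204 9
  14))))] .n) (.c k174 (.l (.s k162 k81 12 (.s k115 k76 6 (.s k51 k179 7 (.s k17 k34 4 (.d k153 k221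
  k204 9 14)))))) .n)))) .n))) (.c k136 (.l (.s k119 k68 4 (.s k51 k187 9 (.s k153 k204 14 (.d k17
  k34 k221 4 9))))) (.c k153 (.f k68 k119 4 (.q k196 [(.s k4 k132 7 (.s k149 k55 12 (.s k213 k21 7
  (.d k247 k230 k166 4 12)))), (.s k4 k132 7 (.s k12 k8 1 (.s k93 k174 12 (.s k89 k81 1 (.s k76 k115
  6 (.d k204 k136 k140 9 7)))))), (.s k149 k55 12 (.s k21 k213 7 (.s k63 k42 6 (.s k106 k192 14 (.d
  k127 k64 k191 6 7)))))] (.c k136 (.q k187 [(.s k149 k55 12 (.s k213 k21 7 (.s k247 k230 4 (.d k4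
  k132 k166 7 12)))), (.s k4 k132 7 (.s k12 k8 1 (.s k93 k174 12 (.s k89 k81 1 (.d k166 k247 k243 12
  14))))), (.s k149 k55 12 (.s k21 k213 7 (.s k63 k42 6 (.s k106 k192 14 (.d k127 k64 k191 6 7)))))]
  (.c k247 (.l (.s k132 k4 7 (.s k149 k55 12 (.s k183 k166 4 (.s k21 k213 7 (.s k63 k42 6 (.d k191
  k179 k127 1 7))))))) .n)) (.c k187 (.l (.s k136 k204 9 (.s k4 k132 7 (.s k55 k149 12 (.s k38 k21 4
  (.d k166 k230 k247 7 12)))))) .n)))) (.c k187 (.l (.s k68 k119 4 (.s k204 k136 9 (.s k153 k51 14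
  (.d k221 k238 k17 4 9))))) (.c k204 (.f k68 k119 4 (.q k4 [(.s k166 k247 12 (.s k196 k132 7 (.s
  k55 k149 12 (.d k38 k21 k230 4 7)))), (.s k12 k8 1 (.s k93 k174 12 (.s k89 k81 1 (.s k76 k115 6
  (.s k64 k72 1 (.d k127 k110 k106 4 6))))))] (.c k70 (.q k137 [(.s k166 k247 12 (.s k196 k132 7 (.s
  k55 k149 12 (.d k38 k21 k230 4 7)))), (.s k12 k8 1 (.s k93 k174 12 (.s k89 k81 1 (.s k76 k115 6
  (.s k64 k72 1 (.d k127 k110 k106 4 6))))))] (.c k166 (.l (.s k196 k132 7 (.s k149 k55 12 (.s k21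
  k213 7 (.s k63 k42 6 (.s k106 k192 14 (.d k127 k64 k191 6 7))))))) .n)) (.c k137 (.q k70 [(.s k71
  k69 0 (.s k86 k118 3 (.s k84 k87 0 (.d k116 k100 k101 3 4)))), (.s k12 k8 1 (.s k93 k174 12 (.s
  k89 k81 1 (.d k166 k247 k243 12 14))))] .n) (.c k166 (.l (.s k196 k132 7 (.s k149 k55 12 (.s k21
  k213 7 (.s k63 k42 6 (.s k106 k192 14 (.d k127 k64 k191 6 7))))))) .n))))) (.c k221 (.q k4 [(.s
  k12 k8 1 (.s k166 k247 12 (.s k89 k243 14 (.d k93 k81 k174 1 12)))), (.s k68 k119 4 (.s k166 k247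
  12 (.s k38 k230 7 (.s k55 k21 4 (.d k196 k132 k149 7 12))))), (.s k12 k8 1 (.s k68 k119 4 (.s k132
  k196 7 (.s k72 k192 9 (.s k76 k64 1 (.d k204 k140 k136 7 9))))))] .n) (.c k238 (.l (.s k119 k68 4
  (.s k51 k187 9 (.s k17 k34 4 (.d k153 k221 k204 9 14))))) .n))))))))))))

def t3_110 : T TT 256 :=
  (.f k255 k170 14 (.q k102 [(.s k119 k68 4 (.s k51 k187 9 (.s k17 k34 4 (.d k153 k221 k204 9
  14))))] (.c k17 (.q k4 [(.s k12 k8 1 (.s k166 k247 12 (.s k89 k243 14 (.d k93 k81 k174 1 12)))),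
  (.s k68 k119 4 (.s k166 k247 12 (.s k38 k230 7 (.s k55 k21 4 (.d k196 k132 k149 7 12))))), (.s k12
  k8 1 (.s k68 k119 4 (.s k132 k196 7 (.s k72 k192 9 (.s k76 k64 1 (.d k204 k140 k136 7 9))))))] .n)
  (.c k34 (.l (.s k68 k119 4 (.s k204 k136 9 (.s k153 k51 14 (.d k221 k238 k17 4 9))))) (.c k51 (.f
  k119 k68 4 (.q k117 [(.s k101 k69 3 (.s k103 k100 0 (.s k71 k87 3 (.d k116 k118 k86 0 4)))), (.s
  k48 k186 10 (.s k16 k32 3 (.s k154 k223 10 (.d k101 k69 k207 3 14))))] (.c k19 (.q k35 [(.s k48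
  k186 10 (.s k16 k32 3 (.s k101 k69 3 (.d k154 k223 k207 10 14)))), (.s k48 k186 10 (.s k116 k118 0
  (.s k169 k236 10 (.s k252 k184 9 (.d k253 k254 k1 0 13))))), (.s k101 k69 3 (.s k103 k100 0 (.s
  k71 k87 3 (.d k116 k118 k86 0 4))))] .n) (.c k35 (.q k19 [(.s k101 k69 3 (.s k103 k100 0 (.s k71
  k87 3 (.d k116 k118 k86 0 4)))), (.s k48 k186 10 (.s k16 k32 3 (.s k154 k223 10 (.d k101 k69 k207
  3 14))))] (.c k69 (.l (.s k48 k186 10 (.s k16 k32 3 (.s k17 k18 0 (.s k118 k116 0 (.s k153 k221 9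
  (.d k86 k70 k220 3 10))))))) (.c k101 (.l (.s k48 k186 10 (.s k118 k116 0 (.s k86 k70 3 (.s k84
  k87 0 (.s k220 k153 10 (.d k16 k32 k152 3 9))))))) .n))) (.c k69 (.l (.s k48 k186 10 (.s k16 k32 3
  (.s k116 k118 0 (.s k154 k223 10 (.s k101 k207 14 (.s k71 k86 4 (.d k103 k100 k87 0 3)))))))) (.c
  k101 (.l (.s k118 k116 0 (.s k86 k70 3 (.s k84 k87 0 (.s k186 k48 10 (.s k252 k168 13 (.d k254 k50
  k253 9 0))))))) .n)))))) (.c k68 (.q k60 [(.s k20 k40 5 (.s k125 k190 8 (.s k105 k65 5 (.d k150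
  k215 k195 8 14)))), (.s k20 k40 5 (.s k150 k215 8 (.s k54 k198 11 (.s k51 k57 2 (.s k17 k34 4 (.d
  k153 k221 k204 9 14)))))), (.s k125 k190 8 (.s k105 k65 5 (.s k108 k99 2 (.s k204 k156 11 (.s k153
  k51 14 (.d k221 k238 k17 4 9))))))] (.c k105 (.f k125 k190 8 (.q k150 [(.d k20 k40 k215 5 8), (.s
  k54 k198 11 (.s k51 k57 2 (.s k17 k34 4 (.d k153 k221 k204 9 14))))] (.c k40 (.q k235 [(.d k215
  k195 k20 5 8), (.s k54 k198 11 (.s k51 k57 2 (.s k17 k34 4 (.d k153 k221 k204 9 14))))] .n) (.c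
  k235 (.l (.s k40 k20 5 (.s k54 k198 11 (.s k51 k57 2 (.s k17 k34 4 (.d k153 k221 k204 9 14))))))
  .n)))) (.c k150 (.q k108 [(.s k105 k99 2 (.d k125 k190 k65 8 5)), (.s k204 k156 11 (.s k153 k51 14
  (.d k221 k238 k17 4 9)))] (.c k130 (.l (.s k190 k125 8 (.s k204 k156 11 (.s k153 k51 14 (.d k221
  k238 k17 4 9))))) (.c k190 (.q k130 [(.s k105 k99 2 (.d k65 k125 k195 5 8)), (.s k204 k156 11 (.s
  k153 k51 14 (.d k221 k238 k17 4 9)))] .n) .n))) .n))) (.c k119 (.q k247 [(.s k166 k4 12 (.s k243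
  k251 1 (.s k81 k162 12 (.d k89 k93 k12 1 14)))), (.s k166 k4 12 (.s k230 k38 7 (.s k213 k196 4 (.s
  k192 k234 6 (.s k64 k128 7 (.s k106 k127 6 (.d k149 k21 k63 7 14)))))))] (.c k4 (.q k5 [(.s k15
  k10 2 (.s k95 k175 11 (.s k90 k80 2 (.d k165 k245 k240 11 14)))), (.s k243 k251 1 (.s k245 k165 11
  (.s k246 k244 0 (.s k249 k252 2 (.s k241 k253 1 (.d k240 k242 k250 0 2)))))), (.s k15 k10 2 (.s
  k243 k251 1 (.s k81 k162 12 (.s k89 k93 1 (.s k91 k167 13 (.s k90 k88 0 (.d k95 k80 k175 2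
  11)))))))] (.c k175 (.l (.s k15 k10 2 (.s k165 k245 11 (.s k39 k228 8 (.s k51 k27 5 (.s k17 k34 4
  (.d k153 k221 k204 9 14))))))) (.c k250 (.l (.s k165 k245 11 (.s k15 k10 2 (.s k90 k240 14 (.d k95
  k80 k175 2 11))))) .n))) (.c k93 (.l (.s k166 k4 12 (.s k230 k38 7 (.s k243 k251 1 (.s k204 k217 6
  (.s k153 k51 14 (.d k221 k238 k17 4 9))))))) (.c k166 (.q k204 [(.s k221 k238 4 (.d k153 k17 k51 9
  14)), (.s k153 k51 14 (.s k243 k251 1 (.s k217 k230 6 (.s k89 k25 7 (.d k81 k162 k93 12 1))))),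
  (.s k238 k221 4 (.s k243 k251 1 (.s k230 k217 6 (.s k213 k196 4 (.d k234 k226 k192 1 6)))))] (.c
  k162 (.q k174 [(.s k221 k238 4 (.d k153 k17 k51 9 14)), (.s k51 k153 14 (.s k93 k12 12 (.s k89 k81
  1 (.s k115 k76 6 (.d k243 k179 k251 7 1))))), (.s k238 k221 4 (.s k243 k251 1 (.s k230 k217 6 (.s
  k213 k196 4 (.d k234 k226 k192 1 6)))))] .n) (.c k174 (.q k162 [(.d k243 k251 k81 1 12), (.s k153
  k51 14 (.d k221 k238 k17 4 9))] (.c k46 (.l (.s k238 k221 4 (.d k243 k251 k81 1 12))) (.c k238 (.q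
  k46 [(.d k243 k251 k81 1 12), (.s k51 k153 14 (.s k34 k17 4 (.s k98 k226 7 (.s k192 k145 12 (.s
  k196 k200 1 (.d k213 k230 k234 4 6))))))] (.c k81 (.l (.s k51 k153 14 (.s k34 k17 4 (.s k98 k226 7
  (.s k145 k192 12 (.s k179 k128 4 (.d k243 k251 k115 1 7))))))) .n)) .n))) .n))) .n)))) (.c k136
  (.l (.s k119 k68 4 (.s k51 k187 9 (.s k153 k204 14 (.d k17 k34 k221 4 9))))) (.c k153 (.f k119 k68
  4 (.q k127 [(.s k115 k123 1 (.s k89 k76 6 (.s k81 k93 1 (.d k64 k98 k106 4 6)))), (.s k63 k191 7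
  (.s k21 k42 6 (.s k149 k213 7 (.s k55 k196 12 (.d k51 k187 k59 9 1)))))] (.c k106 (.l (.s k63 k191
  7 (.s k123 k115 1 (.s k183 k243 9 (.s k55 k247 7 (.d k51 k59 k187 1 9)))))) (.c k136 (.l (.s k187
  k51 9 (.s k63 k191 7 (.s k21 k42 6 (.s k106 k64 6 (.d k149 k213 k192 7 14)))))) (.c k187 (.q k136
  [(.s k115 k123 1 (.s k89 k76 6 (.s k81 k93 1 (.d k64 k98 k106 4 6)))), (.s k63 k191 7 (.s k21 k42
  6 (.s k149 k213 7 (.d k106 k64 k192 6 14)))), (.s k63 k191 7 (.s k123 k115 1 (.s k183 k243 9 (.s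
  k55 k247 7 (.s k149 k196 12 (.d k21 k213 k42 7 6))))))] .n) .n))))) (.c k187 (.l (.s k68 k119 4
  (.s k204 k136 9 (.s k153 k51 14 (.d k221 k238 k17 4 9))))) (.c k204 (.q k63 [(.s k21 k42 6 (.s
  k127 k191 7 (.s k106 k64 6 (.d k149 k213 k192 7 14)))), (.s k21 k42 6 (.s k119 k68 4 (.s k51 k187
  9 (.s k55 k59 1 (.s k4 k38 4 (.d k247 k183 k166 7 12)))))), (.s k119 k68 4 (.s k51 k187 9 (.s k55
  k59 1 (.s k127 k191 7 (.s k106 k64 6 (.d k149 k196 k192 12 14))))))] (.c k70 (.q k137 [(.s k21 k42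
  6 (.s k127 k191 7 (.s k106 k64 6 (.d k149 k213 k192 7 14)))), (.s k21 k42 6 (.s k119 k68 4 (.s k51
  k187 9 (.s k55 k59 1 (.s k4 k38 4 (.d k247 k183 k166 7 12)))))), (.s k119 k68 4 (.s k51 k187 9 (.s
  k55 k59 1 (.s k127 k191 7 (.s k106 k64 6 (.d k149 k196 k192 12 14))))))] (.c k106 (.l (.s k119 k68
  4 (.s k51 k187 9 (.s k55 k59 1 (.s k149 k196 12 (.d k21 k42 k213 6 7)))))) .n)) (.c k106 (.l (.s
  k119 k68 4 (.s k51 k187 9 (.s k55 k59 1 (.s k149 k196 12 (.d k21 k42 k213 6 7)))))) (.c k137 (.q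
  k70 [(.s k21 k42 6 (.s k127 k191 7 (.s k106 k64 6 (.d k149 k213 k192 7 14)))), (.s k68 k119 4 (.s
  k71 k69 0 (.s k86 k118 3 (.s k84 k87 0 (.d k116 k100 k101 3 4)))))] .n) .n)))) (.c k221 (.q k4
  [(.s k12 k8 1 (.s k166 k247 12 (.s k89 k243 14 (.d k93 k81 k174 1 12)))), (.s k68 k119 4 (.s k166
  k247 12 (.s k38 k230 7 (.s k55 k21 4 (.d k196 k132 k149 7 12))))), (.s k12 k8 1 (.s k68 k119 4 (.s
  k132 k196 7 (.s k72 k192 9 (.s k76 k64 1 (.d k204 k140 k136 7 9))))))] .n) .n))))))))))))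

def t3_111 : T TT 256 :=
  (.f k255 k170 14 (.q k102 [(.s k68 k119 4 (.s k204 k136 9 (.s k221 k238 4 (.d k153 k17 k51 9
  14))))] (.c k17 (.q k4 [(.s k12 k8 1 (.s k93 k174 12 (.s k166 k247 12 (.d k89 k81 k243 1 14)))),
  (.s k68 k119 4 (.s k166 k247 12 (.s k38 k230 7 (.s k55 k21 4 (.d k196 k132 k149 7 12))))), (.s k12
  k8 1 (.s k68 k119 4 (.s k132 k196 7 (.s k72 k192 9 (.s k76 k64 1 (.d k204 k140 k136 7 9))))))] .n)
  (.c k51 (.f k68 k119 4 (.q k117 [(.s k48 k186 10 (.s k16 k32 3 (.s k101 k69 3 (.d k154 k223 k207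
  10 14)))), (.s k101 k69 3 (.s k100 k103 0 (.s k204 k136 9 (.d k48 k186 k152 10 13)))), (.s k48
  k186 10 (.s k32 k16 3 (.s k204 k136 9 (.s k100 k152 13 (.s k84 k116 3 (.d k168 k236 k252 9
  13))))))] (.c k19 (.q k35 [(.s k48 k186 10 (.s k16 k32 3 (.s k101 k69 3 (.d k154 k223 k207 10
  14)))), (.s k101 k69 3 (.s k100 k103 0 (.s k84 k116 3 (.s k236 k169 10 (.d k168 k252 k32 13
  9))))), (.s k48 k186 10 (.s k32 k16 3 (.s k204 k136 9 (.s k100 k152 13 (.d k236 k168 k169 9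
  10)))))] (.c k32 (.l (.s k48 k186 10 (.s k101 k69 3 (.s k100 k103 0 (.d k204 k136 k152 9 13)))))
  .n)) (.c k35 (.q k19 [(.s k48 k186 10 (.s k16 k32 3 (.s k101 k69 3 (.d k154 k223 k207 10 14)))),
  (.s k48 k186 10 (.s k32 k16 3 (.s k204 k136 9 (.s k100 k152 13 (.s k84 k116 3 (.d k168 k236 k252 9
  13)))))), (.s k101 k69 3 (.s k100 k103 0 (.s k204 k136 9 (.d k48 k186 k152 10 13)))), (.s k69 k101
  3 (.s k70 k71 0 (.s k86 k118 3 (.s k87 k84 0 (.s k223 k155 9 (.d k207 k239 k138 3 10))))))] .n)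
  (.c k48 (.l (.s k69 k101 3 (.s k204 k136 9 (.s k207 k138 10 (.s k205 k206 0 (.s k221 k238 4 (.s
  k253 k237 3 (.d k1 k137 k169 9 13)))))))) (.c k186 (.l (.s k101 k69 3 (.s k100 k103 0 (.s k204
  k136 9 (.s k48 k152 13 (.s k16 k32 3 (.d k154 k207 k223 14 10))))))) .n)))))) (.c k68 (.q k4 [(.s
  k12 k8 1 (.s k93 k174 12 (.s k89 k81 1 (.d k166 k247 k243 12 14)))), (.s k166 k247 12 (.s k38 k230
  7 (.s k21 k55 4 (.s k63 k42 6 (.s k127 k191 7 (.s k106 k64 6 (.d k149 k213 k192 7 14)))))))] (.c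
  k166 (.f k12 k8 1 (.q k89 [(.d k93 k174 k81 12 1), (.s k76 k115 6 (.s k204 k140 7 (.s k153 k51 14
  (.d k221 k238 k17 4 9))))] (.c k162 (.l (.s k174 k93 12 (.s k76 k115 6 (.s k204 k140 7 (.s k153
  k51 14 (.d k221 k238 k17 4 9)))))) (.c k174 (.q k162 [(.d k81 k93 k243 1 12), (.s k76 k115 6 (.s
  k204 k140 7 (.s k221 k238 4 (.d k153 k17 k51 9 14))))] .n) .n)))) (.c k247 (.l (.s k12 k8 1 (.s
  k93 k174 12 (.s k89 k81 1 (.s k76 k115 6 (.s k204 k140 7 (.s k153 k51 14 (.d k221 k238 k17 4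
  9)))))))) .n))) (.c k119 (.q k247 [(.s k166 k4 12 (.s k243 k251 1 (.s k81 k162 12 (.d k89 k93 k12
  1 14)))), (.s k166 k4 12 (.s k230 k38 7 (.s k213 k196 4 (.s k192 k234 6 (.s k64 k128 7 (.s k106
  k127 6 (.d k149 k21 k63 7 14)))))))] (.c k4 (.l (.s k243 k251 1 (.s k81 k162 12 (.s k89 k93 1 (.s
  k115 k76 6 (.s k51 k179 7 (.s k17 k34 4 (.d k153 k221 k204 9 14)))))))) (.c k166 (.f k243 k251 1
  (.q k89 [(.d k81 k162 k93 12 1), (.s k115 k76 6 (.s k51 k179 7 (.s k17 k34 4 (.d k153 k221 k204 9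
  14))))] (.c k162 (.q k174 [(.d k93 k81 k12 1 12), (.s k115 k76 6 (.s k51 k179 7 (.s k17 k34 4 (.d
  k153 k221 k204 9 14))))] .n) (.c k174 (.l (.s k162 k81 12 (.s k115 k76 6 (.s k51 k179 7 (.s k17
  k34 4 (.d k153 k221 k204 9 14)))))) .n)))) .n))) (.c k136 (.l (.s k119 k68 4 (.s k51 k187 9 (.s
  k153 k204 14 (.d k17 k34 k221 4 9))))) (.c k153 (.f k68 k119 4 (.q k4 [(.s k12 k8 1 (.s k93 k174
  12 (.s k89 k81 1 (.d k166 k247 k243 12 14)))), (.s k166 k247 12 (.s k38 k230 7 (.s k55 k21 4 (.d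
  k196 k132 k149 7 12)))), (.s k12 k8 1 (.s k132 k196 7 (.s k72 k192 9 (.s k76 k64 1 (.d k204 k136
  k140 9 7)))))] (.c k136 (.q k187 [(.s k166 k247 12 (.s k38 k230 7 (.s k55 k21 4 (.d k196 k132 k149
  7 12)))), (.s k12 k8 1 (.s k93 k174 12 (.s k89 k81 1 (.s k76 k115 6 (.s k127 k110 4 (.d k64 k72
  k106 1 6))))))] (.c k166 (.l (.s k12 k8 1 (.s k132 k196 7 (.s k72 k192 9 (.s k76 k64 1 (.s k89
  k115 6 (.d k93 k81 k174 1 12))))))) .n)) (.c k187 (.l (.s k136 k204 9 (.s k12 k8 1 (.s k93 k174 12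
  (.s k89 k81 1 (.d k166 k247 k243 12 14)))))) .n)))) (.c k187 (.l (.s k68 k119 4 (.s k204 k136 9
  (.s k153 k51 14 (.d k221 k238 k17 4 9))))) (.c k204 (.f k68 k119 4 (.q k4 [(.s k12 k8 1 (.s k93
  k174 12 (.s k89 k81 1 (.d k166 k247 k243 12 14)))), (.s k196 k132 7 (.s k149 k55 12 (.s k21 k213 7
  (.s k63 k42 6 (.s k106 k192 14 (.d k127 k64 k191 6 7))))))] (.c k12 (.l (.s k166 k247 12 (.s k38
  k230 7 (.s k55 k21 4 (.d k196 k132 k149 7 12))))) (.c k70 (.q k137 [(.s k12 k8 1 (.s k93 k174 12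
  (.s k89 k81 1 (.d k166 k247 k243 12 14)))), (.s k196 k132 7 (.s k149 k55 12 (.s k21 k213 7 (.s k63
  k42 6 (.s k106 k192 14 (.d k127 k64 k191 6 7))))))] (.c k12 (.l (.s k166 k247 12 (.s k38 k230 7
  (.s k55 k21 4 (.d k196 k132 k149 7 12))))) (.c k247 (.l (.s k12 k8 1 (.s k93 k174 12 (.s k89 k81 1
  (.s k76 k115 6 (.s k64 k72 1 (.d k127 k110 k106 4 6))))))) .n))) (.c k137 (.q k70 [(.s k12 k8 1
  (.s k93 k174 12 (.s k89 k81 1 (.d k166 k247 k243 12 14)))), (.s k71 k69 0 (.s k86 k118 3 (.s k84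
  k87 0 (.d k116 k100 k101 3 4))))] .n) (.c k247 (.l (.s k12 k8 1 (.s k93 k174 12 (.s k89 k81 1 (.s
  k76 k115 6 (.s k64 k72 1 (.d k127 k110 k106 4 6))))))) .n)))))) (.c k221 (.q k4 [(.s k12 k8 1 (.s
  k93 k174 12 (.s k89 k81 1 (.d k166 k247 k243 12 14)))), (.s k68 k119 4 (.s k166 k247 12 (.s k38
  k230 7 (.s k55 k21 4 (.d k196 k132 k149 7 12))))), (.s k12 k8 1 (.s k68 k119 4 (.s k132 k196 7 (.s
  k72 k192 9 (.s k76 k64 1 (.d k204 k140 k136 7 9))))))] .n) (.c k238 (.l (.s k119 k68 4 (.s k51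
  k187 9 (.s k17 k34 4 (.d k153 k221 k204 9 14))))) .n))))))))))))

def t3_124 : T TT 256 :=
  (.f k255 k170 14 (.q k102 [(.s k68 k119 4 (.s k204 k136 9 (.s k221 k238 4 (.d k153 k17 k51 9
  14))))] (.c k17 (.q k4 [(.s k12 k8 1 (.s k93 k174 12 (.s k166 k247 12 (.d k89 k81 k243 1 14)))),
  (.s k68 k119 4 (.s k166 k247 12 (.s k38 k230 7 (.s k55 k21 4 (.d k196 k132 k149 7 12))))), (.s k12
  k8 1 (.s k68 k119 4 (.s k132 k196 7 (.s k72 k192 9 (.s k76 k64 1 (.d k204 k140 k136 7 9))))))] .n)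
  (.c k51 (.f k68 k119 4 (.q k117 [(.s k48 k186 10 (.s k16 k32 3 (.s k101 k69 3 (.d k154 k223 k207
  10 14)))), (.s k101 k69 3 (.s k100 k103 0 (.s k204 k136 9 (.d k48 k186 k152 10 13)))), (.s k48
  k186 10 (.s k32 k16 3 (.s k204 k136 9 (.s k100 k152 13 (.s k84 k116 3 (.d k168 k236 k252 9
  13))))))] (.c k19 (.q k35 [(.s k48 k186 10 (.s k16 k32 3 (.s k101 k69 3 (.d k154 k223 k207 10
  14)))), (.s k101 k69 3 (.s k100 k103 0 (.s k84 k116 3 (.s k236 k169 10 (.d k168 k252 k32 13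
  9))))), (.s k48 k186 10 (.s k32 k16 3 (.s k204 k136 9 (.s k100 k152 13 (.d k236 k168 k169 9
  10)))))] (.c k32 (.l (.s k48 k186 10 (.s k101 k69 3 (.s k100 k103 0 (.d k204 k136 k152 9 13)))))
  .n)) (.c k35 (.q k19 [(.s k48 k186 10 (.s k16 k32 3 (.s k101 k69 3 (.d k154 k223 k207 10 14)))),
  (.s k48 k186 10 (.s k32 k16 3 (.s k204 k136 9 (.s k100 k152 13 (.s k84 k116 3 (.d k168 k236 k252 9
  13)))))), (.s k101 k69 3 (.s k100 k103 0 (.s k204 k136 9 (.d k48 k186 k152 10 13)))), (.s k69 k101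
  3 (.s k70 k71 0 (.s k86 k118 3 (.s k87 k84 0 (.s k223 k155 9 (.d k207 k239 k138 3 10))))))] .n)
  (.c k48 (.l (.s k69 k101 3 (.s k204 k136 9 (.s k207 k138 10 (.s k205 k206 0 (.s k221 k238 4 (.s
  k253 k237 3 (.d k1 k137 k169 9 13)))))))) (.c k186 (.l (.s k101 k69 3 (.s k100 k103 0 (.s k204
  k136 9 (.s k48 k152 13 (.s k16 k32 3 (.d k154 k207 k223 14 10))))))) .n)))))) (.c k68 (.q k4 [(.s
  k12 k8 1 (.s k93 k174 12 (.s k89 k81 1 (.d k166 k247 k243 12 14)))), (.s k166 k247 12 (.s k38 k230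
  7 (.s k21 k55 4 (.s k63 k42 6 (.s k127 k191 7 (.s k106 k64 6 (.d k149 k213 k192 7 14)))))))] (.c
  k166 (.f k12 k8 1 (.q k89 [(.d k93 k174 k81 12 1), (.s k76 k115 6 (.s k204 k140 7 (.s k153 k51 14
  (.d k221 k238 k17 4 9))))] (.c k162 (.l (.s k174 k93 12 (.s k76 k115 6 (.s k204 k140 7 (.s k153
  k51 14 (.d k221 k238 k17 4 9)))))) (.c k174 (.q k162 [(.d k81 k93 k243 1 12), (.s k76 k115 6 (.s
  k204 k140 7 (.s k221 k238 4 (.d k153 k17 k51 9 14))))] .n) .n)))) (.c k247 (.l (.s k12 k8 1 (.s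
  k93 k174 12 (.s k89 k81 1 (.s k76 k115 6 (.s k204 k140 7 (.s k153 k51 14 (.d k221 k238 k17 4
  9)))))))) .n))) (.c k119 (.q k247 [(.s k166 k4 12 (.s k243 k251 1 (.s k81 k162 12 (.d k89 k93 k12
  1 14)))), (.s k166 k4 12 (.s k230 k38 7 (.s k213 k196 4 (.s k192 k234 6 (.s k64 k128 7 (.s k106
  k127 6 (.d k149 k21 k63 7 14)))))))] (.c k4 (.l (.s k243 k251 1 (.s k81 k162 12 (.s k89 k93 1 (.s
  k115 k76 6 (.s k51 k179 7 (.s k17 k34 4 (.d k153 k221 k204 9 14)))))))) (.c k166 (.f k243 k251 1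
  (.q k89 [(.d k81 k162 k93 12 1), (.s k115 k76 6 (.s k51 k179 7 (.s k17 k34 4 (.d k153 k221 k204 9
  14))))] (.c k162 (.q k174 [(.d k93 k81 k12 1 12), (.s k115 k76 6 (.s k51 k179 7 (.s k17 k34 4 (.d
  k153 k221 k204 9 14))))] .n) (.c k174 (.l (.s k162 k81 12 (.s k115 k76 6 (.s k51 k179 7 (.s k17
  k34 4 (.d k153 k221 k204 9 14)))))) .n)))) .n))) (.c k136 (.l (.s k119 k68 4 (.s k51 k187 9 (.s
  k153 k204 14 (.d k17 k34 k221 4 9))))) (.c k153 (.f k119 k68 4 (.q k127 [(.s k63 k191 7 (.s k21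
  k42 6 (.s k149 k213 7 (.d k106 k64 k192 6 14)))), (.s k106 k64 6 (.s k110 k98 1 (.s k76 k93 4 (.d
  k115 k123 k89 1 6)))), (.s k63 k191 7 (.s k123 k115 1 (.s k183 k243 9 (.s k55 k247 7 (.d k51 k187
  k59 9 1)))))] (.c k136 (.l (.s k187 k51 9 (.s k63 k191 7 (.s k21 k42 6 (.s k106 k64 6 (.d k149
  k213 k192 7 14)))))) (.c k187 (.q k136 [(.s k106 k64 6 (.s k110 k98 1 (.s k76 k93 4 (.d k115 k123
  k89 1 6)))), (.s k63 k191 7 (.s k21 k42 6 (.s k149 k213 7 (.d k106 k64 k192 6 14)))), (.s k63 k191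
  7 (.s k123 k115 1 (.s k183 k243 9 (.s k55 k247 7 (.s k149 k196 12 (.d k21 k213 k42 7 6))))))] .n)
  .n)))) (.c k187 (.l (.s k68 k119 4 (.s k204 k136 9 (.s k153 k51 14 (.d k221 k238 k17 4 9))))) (.c
  k204 (.f k68 k119 4 (.q k149 [(.s k196 k55 12 (.s k4 k132 7 (.s k213 k21 7 (.d k247 k230 k166 4
  12)))), (.s k21 k213 7 (.s k63 k42 6 (.s k127 k191 7 (.d k106 k64 k192 6 14)))), (.s k196 k55 12
  (.s k4 k132 7 (.s k12 k8 1 (.s k93 k174 12 (.s k89 k81 1 (.d k166 k247 k243 12 14))))))] (.c k70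
  (.q k137 [(.s k196 k55 12 (.s k4 k132 7 (.s k213 k21 7 (.d k247 k230 k166 4 12)))), (.s k21 k213 7
  (.s k63 k42 6 (.s k127 k191 7 (.d k106 k64 k192 6 14)))), (.s k196 k55 12 (.s k4 k132 7 (.s k12 k8
  1 (.s k93 k174 12 (.s k89 k81 1 (.d k166 k247 k243 12 14))))))] .n) (.c k137 (.q k70 [(.s k21 k213
  7 (.s k63 k42 6 (.s k127 k191 7 (.d k106 k64 k192 6 14)))), (.s k71 k69 0 (.s k86 k118 3 (.s k84
  k87 0 (.d k116 k100 k101 3 4))))] .n) .n)))) (.c k221 (.q k4 [(.s k12 k8 1 (.s k93 k174 12 (.s k89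
  k81 1 (.d k166 k247 k243 12 14)))), (.s k68 k119 4 (.s k166 k247 12 (.s k38 k230 7 (.s k55 k21 4
  (.d k196 k132 k149 7 12))))), (.s k12 k8 1 (.s k68 k119 4 (.s k132 k196 7 (.s k72 k192 9 (.s k76
  k64 1 (.d k204 k140 k136 7 9))))))] .n) (.c k238 (.l (.s k119 k68 4 (.s k51 k187 9 (.s k17 k34 4
  (.d k153 k221 k204 9 14))))) .n))))))))))))

def t3_125 : T TT 256 :=
  (.f k255 k170 14 (.q k102 [(.s k68 k119 4 (.s k204 k136 9 (.s k221 k238 4 (.d k153 k17 k51 9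
  14))))] (.c k17 (.q k4 [(.s k12 k8 1 (.s k93 k174 12 (.s k166 k247 12 (.d k89 k81 k243 1 14)))),
  (.s k68 k119 4 (.s k166 k247 12 (.s k38 k230 7 (.s k55 k21 4 (.d k196 k132 k149 7 12))))), (.s k12
  k8 1 (.s k68 k119 4 (.s k132 k196 7 (.s k72 k192 9 (.s k76 k64 1 (.d k204 k140 k136 7 9))))))] .n)
  (.c k51 (.f k68 k119 4 (.q k110 [(.s k106 k98 1 (.s k204 k136 9 (.s k63 k157 12 (.d k127 k64 k191
  6 7)))), (.s k204 k136 9 (.s k63 k157 12 (.s k127 k191 7 (.s k93 k76 4 (.s k174 k12 12 (.d k238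
  k221 k46 4 7)))))), (.s k106 k98 1 (.s k64 k127 6 (.s k192 k128 7 (.s k149 k63 14 (.d k213 k234
  k21 6 7))))), (.s k106 k98 1 (.s k127 k64 6 (.s k93 k76 4 (.s k174 k12 12 (.s k204 k136 9 (.d k238
  k221 k46 4 7))))))] (.c k19 (.q k35 [(.s k106 k98 1 (.s k204 k136 9 (.s k63 k157 12 (.d k127 k64
  k191 6 7)))), (.s k106 k98 1 (.s k236 k169 10 (.s k47 k173 8 (.s k165 k224 10 (.d k39 k43 k228 1
  8))))), (.s k204 k136 9 (.s k63 k157 12 (.s k127 k191 7 (.s k93 k76 4 (.s k174 k12 12 (.d k238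
  k221 k46 4 7))))))] .n) (.c k35 (.q k19 [(.s k106 k98 1 (.s k204 k136 9 (.s k63 k157 12 (.d k127
  k64 k191 6 7)))), (.s k204 k136 9 (.s k63 k157 12 (.s k127 k191 7 (.s k93 k76 4 (.s k174 k12 12
  (.d k238 k221 k46 4 7)))))), (.s k106 k98 1 (.s k64 k127 6 (.s k192 k128 7 (.s k149 k63 14 (.d
  k213 k234 k21 6 7))))), (.s k106 k98 1 (.s k127 k64 6 (.s k93 k76 4 (.s k174 k12 12 (.s k204 k136
  9 (.d k238 k221 k46 4 7))))))] (.c k127 (.l (.s k106 k98 1 (.s k204 k136 9 (.s k63 k157 12 (.s k21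
  k42 6 (.d k149 k192 k213 14 7)))))) .n)) (.c k127 (.l (.s k106 k98 1 (.s k204 k136 9 (.s k63 k157
  12 (.s k21 k42 6 (.d k149 k192 k213 14 7)))))) .n))))) (.c k68 (.q k4 [(.s k12 k8 1 (.s k93 k174
  12 (.s k89 k81 1 (.d k166 k247 k243 12 14)))), (.s k166 k247 12 (.s k38 k230 7 (.s k21 k55 4 (.s
  k63 k42 6 (.s k127 k191 7 (.s k106 k64 6 (.d k149 k213 k192 7 14)))))))] (.c k166 (.f k12 k8 1 (.q
  k89 [(.d k93 k174 k81 12 1), (.s k76 k115 6 (.s k204 k140 7 (.s k153 k51 14 (.d k221 k238 k17 4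
  9))))] (.c k162 (.l (.s k174 k93 12 (.s k76 k115 6 (.s k204 k140 7 (.s k153 k51 14 (.d k221 k238
  k17 4 9)))))) (.c k174 (.q k162 [(.d k81 k93 k243 1 12), (.s k76 k115 6 (.s k204 k140 7 (.s k221
  k238 4 (.d k153 k17 k51 9 14))))] .n) .n)))) (.c k247 (.l (.s k12 k8 1 (.s k93 k174 12 (.s k89 k81
  1 (.s k76 k115 6 (.s k204 k140 7 (.s k153 k51 14 (.d k221 k238 k17 4 9)))))))) .n))) (.c k119 (.q
  k127 [(.s k63 k191 7 (.s k21 k42 6 (.s k106 k64 6 (.d k149 k213 k192 7 14)))), (.s k106 k64 6 (.s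
  k110 k98 1 (.s k93 k76 4 (.s k12 k174 12 (.s k4 k8 1 (.s k166 k247 12 (.d k89 k81 k243 1
  14)))))))] (.c k64 (.l (.s k63 k191 7 (.s k21 k42 6 (.s k149 k213 7 (.s k55 k196 12 (.s k51 k59 1
  (.s k17 k34 4 (.d k153 k221 k204 9 14)))))))) (.c k106 (.f k63 k191 7 (.q k149 [(.d k21 k42 k213 6
  7), (.s k55 k196 12 (.s k51 k59 1 (.s k17 k34 4 (.d k153 k221 k204 9 14))))] (.c k42 (.q k234 [(.d
  k213 k192 k21 6 7), (.s k55 k196 12 (.s k51 k59 1 (.s k17 k34 4 (.d k153 k221 k204 9 14))))] .n)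
  (.c k234 (.l (.s k42 k21 6 (.s k55 k196 12 (.s k51 k59 1 (.s k17 k34 4 (.d k153 k221 k204 9
  14)))))) .n)))) .n))) (.c k136 (.l (.s k119 k68 4 (.s k51 k187 9 (.s k153 k204 14 (.d k17 k34 k221
  4 9))))) (.c k153 (.f k119 k68 4 (.q k89 [(.s k93 k81 1 (.s k12 k174 12 (.s k4 k8 1 (.d k166 k247
  k243 12 14)))), (.s k115 k76 6 (.s k127 k123 1 (.s k63 k191 7 (.s k21 k42 6 (.s k149 k213 7 (.d
  k106 k64 k192 6 14))))))] (.c k136 (.l (.s k187 k51 9 (.s k81 k93 1 (.s k115 k76 6 (.s k64 k98 4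
  (.d k127 k123 k106 1 6)))))) (.c k187 (.q k136 [(.s k93 k81 1 (.s k12 k174 12 (.s k4 k8 1 (.d k166
  k247 k243 12 14)))), (.s k115 k76 6 (.s k127 k123 1 (.s k63 k191 7 (.s k21 k42 6 (.s k149 k213 7
  (.d k106 k64 k192 6 14))))))] .n) .n)))) (.c k187 (.l (.s k68 k119 4 (.s k204 k136 9 (.s k153 k51
  14 (.d k221 k238 k17 4 9))))) (.c k204 (.f k68 k119 4 (.q k4 [(.s k12 k8 1 (.s k93 k174 12 (.s k89
  k81 1 (.d k166 k247 k243 12 14)))), (.s k196 k132 7 (.s k149 k55 12 (.s k21 k213 7 (.s k63 k42 6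
  (.s k106 k192 14 (.d k127 k64 k191 6 7))))))] (.c k12 (.l (.s k166 k247 12 (.s k38 k230 7 (.s k55
  k21 4 (.d k196 k132 k149 7 12))))) (.c k70 (.q k137 [(.s k12 k8 1 (.s k93 k174 12 (.s k89 k81 1
  (.d k166 k247 k243 12 14)))), (.s k196 k132 7 (.s k149 k55 12 (.s k21 k213 7 (.s k63 k42 6 (.s
  k106 k192 14 (.d k127 k64 k191 6 7))))))] (.c k12 (.l (.s k166 k247 12 (.s k38 k230 7 (.s k55 k21
  4 (.d k196 k132 k149 7 12))))) (.c k247 (.l (.s k12 k8 1 (.s k93 k174 12 (.s k89 k81 1 (.s k76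
  k115 6 (.s k64 k72 1 (.d k127 k110 k106 4 6))))))) .n))) (.c k137 (.q k70 [(.s k12 k8 1 (.s k93
  k174 12 (.s k89 k81 1 (.d k166 k247 k243 12 14)))), (.s k71 k69 0 (.s k86 k118 3 (.s k84 k87 0 (.d
  k116 k100 k101 3 4))))] .n) (.c k247 (.l (.s k12 k8 1 (.s k93 k174 12 (.s k89 k81 1 (.s k76 k115 6
  (.s k64 k72 1 (.d k127 k110 k106 4 6))))))) .n)))))) (.c k221 (.q k4 [(.s k12 k8 1 (.s k93 k174 12
  (.s k89 k81 1 (.d k166 k247 k243 12 14)))), (.s k68 k119 4 (.s k166 k247 12 (.s k38 k230 7 (.s k55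
  k21 4 (.d k196 k132 k149 7 12))))), (.s k12 k8 1 (.s k68 k119 4 (.s k132 k196 7 (.s k72 k192 9 (.s
  k76 k64 1 (.d k204 k140 k136 7 9))))))] .n) (.c k238 (.l (.s k119 k68 4 (.s k51 k187 9 (.s k17 k34
  4 (.d k153 k221 k204 9 14))))) .n))))))))))))

def t3_126 : T TT 256 :=
  (.f k255 k170 14 (.q k102 [(.s k68 k119 4 (.s k204 k136 9 (.s k221 k238 4 (.d k153 k17 k51 9
  14))))] (.c k17 (.q k4 [(.s k12 k8 1 (.s k93 k174 12 (.s k166 k247 12 (.d k89 k81 k243 1 14)))),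
  (.s k68 k119 4 (.s k166 k247 12 (.s k38 k230 7 (.s k55 k21 4 (.d k196 k132 k149 7 12))))), (.s k12
  k8 1 (.s k68 k119 4 (.s k132 k196 7 (.s k72 k192 9 (.s k76 k64 1 (.d k204 k140 k136 7 9))))))] .n)
  (.c k51 (.f k68 k119 4 (.q k117 [(.s k48 k186 10 (.s k16 k32 3 (.s k101 k69 3 (.d k154 k223 k207
  10 14)))), (.s k101 k69 3 (.s k100 k103 0 (.s k204 k136 9 (.d k48 k186 k152 10 13)))), (.s k48
  k186 10 (.s k32 k16 3 (.s k204 k136 9 (.s k100 k152 13 (.s k84 k116 3 (.d k168 k236 k252 9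
  13))))))] (.c k19 (.q k35 [(.s k48 k186 10 (.s k16 k32 3 (.s k101 k69 3 (.d k154 k223 k207 10
  14)))), (.s k101 k69 3 (.s k100 k103 0 (.s k84 k116 3 (.s k236 k169 10 (.d k168 k252 k32 13
  9))))), (.s k48 k186 10 (.s k32 k16 3 (.s k204 k136 9 (.s k100 k152 13 (.d k236 k168 k169 9
  10)))))] (.c k32 (.l (.s k48 k186 10 (.s k101 k69 3 (.s k100 k103 0 (.d k204 k136 k152 9 13)))))
  .n)) (.c k35 (.q k19 [(.s k48 k186 10 (.s k16 k32 3 (.s k101 k69 3 (.d k154 k223 k207 10 14)))),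
  (.s k48 k186 10 (.s k32 k16 3 (.s k204 k136 9 (.s k100 k152 13 (.s k84 k116 3 (.d k168 k236 k252 9
  13)))))), (.s k101 k69 3 (.s k100 k103 0 (.s k204 k136 9 (.d k48 k186 k152 10 13)))), (.s k69 k101
  3 (.s k70 k71 0 (.s k86 k118 3 (.s k87 k84 0 (.s k223 k155 9 (.d k207 k239 k138 3 10))))))] .n)
  (.c k48 (.l (.s k69 k101 3 (.s k204 k136 9 (.s k207 k138 10 (.s k205 k206 0 (.s k221 k238 4 (.s
  k253 k237 3 (.d k1 k137 k169 9 13)))))))) (.c k186 (.l (.s k101 k69 3 (.s k100 k103 0 (.s k204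
  k136 9 (.s k48 k152 13 (.s k16 k32 3 (.d k154 k207 k223 14 10))))))) .n)))))) (.c k68 (.q k4 [(.s
  k12 k8 1 (.s k93 k174 12 (.s k89 k81 1 (.d k166 k247 k243 12 14)))), (.s k166 k247 12 (.s k38 k230
  7 (.s k21 k55 4 (.s k63 k42 6 (.s k127 k191 7 (.s k106 k64 6 (.d k149 k213 k192 7 14)))))))] (.c
  k166 (.f k12 k8 1 (.q k89 [(.d k93 k174 k81 12 1), (.s k76 k115 6 (.s k204 k140 7 (.s k153 k51 14
  (.d k221 k238 k17 4 9))))] (.c k162 (.l (.s k174 k93 12 (.s k76 k115 6 (.s k204 k140 7 (.s k153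
  k51 14 (.d k221 k238 k17 4 9)))))) (.c k174 (.q k162 [(.d k81 k93 k243 1 12), (.s k76 k115 6 (.s
  k204 k140 7 (.s k221 k238 4 (.d k153 k17 k51 9 14))))] .n) .n)))) (.c k247 (.l (.s k12 k8 1 (.s
  k93 k174 12 (.s k89 k81 1 (.s k76 k115 6 (.s k204 k140 7 (.s k153 k51 14 (.d k221 k238 k17 4
  9)))))))) .n))) (.c k119 (.q k247 [(.s k166 k4 12 (.s k243 k251 1 (.s k81 k162 12 (.d k89 k93 k12
  1 14)))), (.s k166 k4 12 (.s k230 k38 7 (.s k213 k196 4 (.s k192 k234 6 (.s k64 k128 7 (.s k106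
  k127 6 (.d k149 k21 k63 7 14)))))))] (.c k4 (.l (.s k243 k251 1 (.s k81 k162 12 (.s k89 k93 1 (.s
  k115 k76 6 (.s k51 k179 7 (.s k17 k34 4 (.d k153 k221 k204 9 14)))))))) (.c k166 (.f k243 k251 1
  (.q k89 [(.d k81 k162 k93 12 1), (.s k115 k76 6 (.s k51 k179 7 (.s k17 k34 4 (.d k153 k221 k204 9
  14))))] (.c k162 (.q k174 [(.d k93 k81 k12 1 12), (.s k115 k76 6 (.s k51 k179 7 (.s k17 k34 4 (.d
  k153 k221 k204 9 14))))] .n) (.c k174 (.l (.s k162 k81 12 (.s k115 k76 6 (.s k51 k179 7 (.s k17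
  k34 4 (.d k153 k221 k204 9 14)))))) .n)))) .n))) (.c k136 (.l (.s k119 k68 4 (.s k51 k187 9 (.s
  k153 k204 14 (.d k17 k34 k221 4 9))))) (.c k153 (.f k119 k68 4 (.q k127 [(.s k106 k64 6 (.s k110
  k98 1 (.s k76 k93 4 (.d k115 k123 k89 1 6)))), (.s k63 k191 7 (.s k21 k42 6 (.s k149 k213 7 (.s
  k55 k196 12 (.d k51 k187 k59 9 1)))))] (.c k106 (.l (.s k63 k191 7 (.s k123 k115 1 (.s k183 k243 9
  (.s k55 k247 7 (.d k51 k59 k187 1 9)))))) (.c k136 (.l (.s k187 k51 9 (.s k63 k191 7 (.s k21 k42 6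
  (.s k106 k64 6 (.d k149 k213 k192 7 14)))))) (.c k187 (.q k136 [(.s k106 k64 6 (.s k110 k98 1 (.s
  k76 k93 4 (.d k115 k123 k89 1 6)))), (.s k63 k191 7 (.s k21 k42 6 (.s k149 k213 7 (.d k106 k64
  k192 6 14)))), (.s k63 k191 7 (.s k123 k115 1 (.s k183 k243 9 (.s k55 k247 7 (.s k149 k196 12 (.d
  k21 k213 k42 7 6))))))] .n) .n))))) (.c k187 (.l (.s k68 k119 4 (.s k204 k136 9 (.s k153 k51 14
  (.d k221 k238 k17 4 9))))) (.c k204 (.f k68 k119 4 (.q k4 [(.s k12 k8 1 (.s k93 k174 12 (.s k89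
  k81 1 (.d k166 k247 k243 12 14)))), (.s k196 k132 7 (.s k149 k55 12 (.s k21 k213 7 (.s k63 k42 6
  (.s k106 k192 14 (.d k127 k64 k191 6 7))))))] (.c k12 (.l (.s k166 k247 12 (.s k38 k230 7 (.s k55
  k21 4 (.d k196 k132 k149 7 12))))) (.c k70 (.q k137 [(.s k12 k8 1 (.s k93 k174 12 (.s k89 k81 1
  (.d k166 k247 k243 12 14)))), (.s k196 k132 7 (.s k149 k55 12 (.s k21 k213 7 (.s k63 k42 6 (.s
  k106 k192 14 (.d k127 k64 k191 6 7))))))] (.c k12 (.l (.s k166 k247 12 (.s k38 k230 7 (.s k55 k21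
  4 (.d k196 k132 k149 7 12))))) (.c k247 (.l (.s k12 k8 1 (.s k93 k174 12 (.s k89 k81 1 (.s k76
  k115 6 (.s k64 k72 1 (.d k127 k110 k106 4 6))))))) .n))) (.c k137 (.q k70 [(.s k12 k8 1 (.s k93
  k174 12 (.s k89 k81 1 (.d k166 k247 k243 12 14)))), (.s k71 k69 0 (.s k86 k118 3 (.s k84 k87 0 (.d
  k116 k100 k101 3 4))))] .n) (.c k247 (.l (.s k12 k8 1 (.s k93 k174 12 (.s k89 k81 1 (.s k76 k115 6
  (.s k64 k72 1 (.d k127 k110 k106 4 6))))))) .n)))))) (.c k221 (.q k4 [(.s k12 k8 1 (.s k93 k174 12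
  (.s k89 k81 1 (.d k166 k247 k243 12 14)))), (.s k68 k119 4 (.s k166 k247 12 (.s k38 k230 7 (.s k55
  k21 4 (.d k196 k132 k149 7 12))))), (.s k12 k8 1 (.s k68 k119 4 (.s k132 k196 7 (.s k72 k192 9 (.s
  k76 k64 1 (.d k204 k140 k136 7 9))))))] .n) (.c k238 (.l (.s k119 k68 4 (.s k51 k187 9 (.s k17 k34
  4 (.d k153 k221 k204 9 14))))) .n))))))))))))

def t3_127 : T TT 256 :=
  (.f k255 k170 14 (.q k150 [(.s k20 k215 8 (.s k60 k40 5 (.s k125 k190 8 (.d k105 k65 k195 5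
  14))))] (.c k20 (.q k93 [(.s k12 k174 12 (.s k4 k8 1 (.s k89 k81 1 (.d k166 k247 k243 12 14)))),
  (.s k89 k81 1 (.s k28 k211 10 (.s k223 k158 8 (.s k207 k239 3 (.s k69 k138 10 (.s k101 k117 3 (.d
  k154 k16 k48 10 14)))))))] (.c k81 (.l (.s k12 k174 12 (.s k4 k8 1 (.s k166 k247 12 (.s k134 k182
  3 (.s k195 k73 10 (.s k65 k130 8 (.d k105 k125 k60 5 14)))))))) (.c k89 (.f k12 k174 12 (.q k166
  [(.d k4 k8 k247 1 12), (.s k134 k182 3 (.s k195 k73 10 (.s k65 k130 8 (.d k105 k125 k60 5 14))))]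
  (.c k8 (.q k251 [(.d k247 k243 k4 1 12), (.s k134 k182 3 (.s k195 k73 10 (.s k65 k130 8 (.d k105
  k125 k60 5 14))))] .n) (.c k251 (.l (.s k8 k4 1 (.s k134 k182 3 (.s k195 k73 10 (.s k65 k130 8 (.d
  k105 k125 k60 5 14)))))) .n)))) .n))) (.c k40 (.l (.s k215 k20 8 (.s k195 k235 5 (.s k105 k60 14
  (.d k65 k125 k130 5 8))))) (.c k60 (.f k215 k20 8 (.q k149 [(.s k151 k148 0 (.s k213 k21 7 (.s
  k212 k214 0 (.d k23 k87 k86 7 8)))), (.s k21 k213 7 (.s k63 k42 6 (.s k195 k235 5 (.d k151 k148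
  k107 0 13)))), (.s k195 k235 5 (.s k213 k21 7 (.s k192 k234 6 (.s k106 k63 14 (.d k194 k62 k193 13
  0))))), (.s k151 k148 0 (.s k195 k235 5 (.s k63 k107 13 (.s k65 k130 8 (.s k105 k125 5 (.s k192
  k106 14 (.d k193 k194 k61 0 13)))))))] (.c k22 (.q k41 [(.s k21 k213 7 (.s k151 k148 0 (.s k195
  k235 5 (.d k63 k42 k107 6 13)))), (.s k21 k213 7 (.s k61 k1 5 (.s k105 k193 13 (.s k65 k125 5 (.d
  k195 k235 k130 5 8))))), (.s k151 k148 0 (.s k23 k87 7 (.s k212 k86 8 (.d k213 k21 k214 7 0))))]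
  (.c k21 (.q k23 [(.d k151 k148 k87 0 7), (.s k195 k235 5 (.s k65 k130 8 (.s k105 k125 5 (.s k169
  k233 7 (.s k1 k253 13 (.d k129 k189 k193 5 7))))))] .n) (.c k23 (.l (.s k21 k213 7 (.s k63 k42 6
  (.s k151 k148 0 (.d k195 k235 k107 5 13))))) (.c k213 (.l (.s k195 k235 5 (.s k65 k130 8 (.s k105
  k125 5 (.s k169 k233 7 (.s k1 k253 13 (.d k193 k61 k129 13 7))))))) .n)))) (.c k41 (.q k22 [(.s
  k213 k21 7 (.d k214 k212 k86 0 7)), (.s k21 k213 7 (.s k63 k42 6 (.s k195 k235 5 (.d k151 k148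
  k107 0 13)))), (.s k86 k214 7 (.s k23 k212 8 (.d k87 k84 k151 0 7)))] .n) .n)))) (.c k65 (.q k4
  [(.s k12 k8 1 (.s k93 k174 12 (.s k166 k247 12 (.d k89 k81 k243 1 14)))), (.s k20 k215 8 (.s k52
  k36 3 (.s k101 k199 12 (.s k117 k69 3 (.d k247 k182 k166 8 12))))), (.s k12 k8 1 (.s k20 k215 8
  (.s k36 k52 3 (.s k24 k48 5 (.s k28 k16 1 (.d k60 k44 k40 3 5))))))] .n) (.c k105 (.f k20 k215 8
  (.q k84 [(.s k86 k87 0 (.s k22 k214 7 (.s k23 k21 0 (.d k212 k148 k149 7 8)))), (.s k252 k168 13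
  (.s k253 k254 0 (.s k169 k1 13 (.s k188 k131 6 (.d k60 k40 k124 5 7))))), (.s k148 k212 7 (.s k149
  k151 0 (.s k213 k21 7 (.s k192 k234 6 (.d k60 k40 k104 5 13)))))] (.c k40 (.q k235 [(.s k86 k87 0
  (.s k22 k214 7 (.s k23 k21 0 (.d k212 k148 k149 7 8)))), (.s k148 k212 7 (.s k168 k252 13 (.s k128
  k188 5 (.s k192 k64 7 (.s k213 k234 6 (.d k149 k151 k21 0 7)))))), (.s k86 k87 0 (.s k214 k22 7
  (.s k252 k168 13 (.s k233 k195 6 (.s k254 k253 0 (.d k234 k232 k194 0 5))))))] (.c k86 (.l (.s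
  k148 k212 7 (.s k149 k151 0 (.s k213 k21 7 (.s k192 k234 6 (.s k64 k128 7 (.d k104 k124 k60 5
  13))))))) (.c k151 (.l (.s k212 k148 7 (.s k86 k87 0 (.s k23 k149 8 (.d k22 k21 k214 0 7))))) (.c
  k214 (.q k21 [(.s k23 k22 0 (.s k149 k213 7 (.d k212 k148 k86 7 8))), (.s k212 k148 7 (.s k213
  k149 7 (.s k192 k234 6 (.d k252 k232 k168 5 13)))), (.s k63 k42 6 (.s k86 k87 0 (.s k252 k168 13
  (.s k126 k189 8 (.s k106 k66 5 (.s k62 k194 13 (.d k254 k253 k190 0 7)))))))] (.c k212 (.l (.s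
  k213 k149 7 (.s k234 k192 6 (.s k252 k168 13 (.s k253 k254 0 (.d k233 k232 k193 0 5)))))) (.c k213
  (.l (.s k212 k148 7 (.s k23 k22 0 (.d k86 k87 k149 0 8)))) .n))) .n)))) (.c k235 (.l (.s k40 k60 5
  (.s k86 k87 0 (.s k22 k214 7 (.s k23 k21 0 (.d k212 k148 k149 7 8)))))) .n)))) (.c k125 (.f k215
  k20 8 (.q k101 [(.s k117 k69 3 (.s k48 k186 10 (.s k16 k32 3 (.d k154 k223 k207 10 14)))), (.s k69
  k117 3 (.s k199 k52 12 (.s k4 k134 8 (.d k247 k231 k166 3 12)))), (.s k195 k235 5 (.s k199 k52 12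
  (.s k207 k203 1 (.s k154 k48 14 (.d k223 k239 k16 3 10)))))] (.c k124 (.q k126 [(.s k117 k69 3 (.s
  k48 k186 10 (.s k16 k32 3 (.d k154 k223 k207 10 14)))), (.s k69 k117 3 (.s k199 k52 12 (.s k4 k134
  8 (.d k247 k231 k166 3 12)))), (.s k195 k235 5 (.s k199 k52 12 (.s k207 k203 1 (.s k154 k48 14 (.d
  k223 k239 k16 3 10)))))] .n) (.c k126 (.q k124 [(.s k117 k69 3 (.s k48 k186 10 (.s k16 k32 3 (.d
  k154 k223 k207 10 14)))), (.s k69 k117 3 (.s k199 k52 12 (.s k4 k134 8 (.d k247 k231 k166 3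
  12)))), (.s k195 k235 5 (.s k199 k52 12 (.s k207 k203 1 (.s k154 k48 14 (.d k223 k239 k16 3
  10)))))] .n) .n)))) (.c k190 (.l (.s k215 k20 8 (.s k195 k235 5 (.s k65 k130 8 (.d k105 k125 k60 5
  14))))) (.c k195 (.f k20 k215 8 (.q k169 [(.s k60 k40 5 (.s k253 k1 13 (.s k252 k254 0 (.d k188
  k131 k124 6 7)))), (.s k253 k1 13 (.s k252 k254 0 (.s k84 k168 13 (.s k86 k87 0 (.s k22 k214 7 (.s
  k23 k21 0 (.d k212 k148 k149 7 8))))))), (.s k60 k40 5 (.s k125 k190 8 (.s k105 k65 5 (.s k233 k41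
  7 (.s k253 k1 13 (.s k61 k189 7 (.d k193 k213 k149 5 13)))))))] (.c k1 (.q k148 [(.s k84 k212 7
  (.s k168 k252 13 (.d k188 k131 k128 6 5))), (.s k60 k40 5 (.s k149 k151 0 (.s k213 k21 7 (.d k192
  k234 k104 6 13))))] (.c k67 (.l (.s k131 k188 6 (.s k60 k40 5 (.s k149 k151 0 (.s k192 k104 13 (.d
  k213 k234 k21 6 7)))))) (.c k131 (.q k67 [(.s k60 k40 5 (.s k125 k190 8 (.s k105 k65 5 (.s k86
  k124 6 (.d k84 k87 k212 0 7))))), (.s k60 k40 5 (.s k192 k104 13 (.s k213 k234 6 (.d k149 k151 k21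
  0 7)))), (.s k149 k151 0 (.s k21 k213 7 (.s k212 k84 7 (.d k23 k22 k86 0 8))))] .n) (.c k192 (.l
  (.s k60 k40 5 (.s k84 k212 7 (.s k252 k168 13 (.d k188 k131 k124 6 7))))) (.c k213 (.l (.s k60 k40
  5 (.s k192 k104 13 (.s k128 k64 7 (.d k188 k168 k131 5 6))))) .n))))) (.c k67 (.f k131 k188 6 (.l
  (.s k60 k40 5 (.s k125 k190 8 (.s k105 k65 5 (.s k233 k41 7 (.s k253 k1 13 (.s k193 k213 5 (.d k61
  k189 k149 7 13))))))))) (.c k131 (.q k67 [(.s k60 k40 5 (.s k125 k190 8 (.s k105 k65 5 (.s k124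
  k86 6 (.s k252 k188 7 (.d k253 k254 k1 0 13)))))), (.s k253 k1 13 (.s k252 k254 0 (.s k84 k168 13
  (.s k86 k87 0 (.s k22 k214 7 (.s k23 k21 0 (.d k212 k148 k149 7 8))))))), (.s k60 k40 5 (.s k125
  k190 8 (.s k105 k65 5 (.s k233 k41 7 (.s k253 k1 13 (.s k61 k189 7 (.d k193 k213 k149 5 13)))))))]
  (.c k1 (.q k4 [(.s k12 k8 1 (.s k93 k174 12 (.s k89 k81 1 (.d k166 k247 k243 12 14)))), (.s k52
  k36 3 (.s k101 k199 12 (.s k117 k69 3 (.d k247 k182 k166 8 12)))), (.s k12 k8 1 (.s k36 k52 3 (.s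
  k24 k48 5 (.s k28 k16 1 (.d k60 k44 k40 3 5)))))] .n) (.c k253 (.q k4 [(.s k12 k8 1 (.s k93 k174
  12 (.s k89 k81 1 (.d k166 k247 k243 12 14)))), (.s k52 k36 3 (.s k101 k199 12 (.s k117 k69 3 (.d
  k247 k182 k166 8 12)))), (.s k12 k8 1 (.s k36 k52 3 (.s k24 k48 5 (.s k28 k16 1 (.d k60 k44 k40 3
  5)))))] .n) .n))) (.c k253 (.q k102 [(.s k54 k198 11 (.s k60 k40 5 (.s k51 k57 2 (.d k119 k68 k187
  4 9)))), (.s k68 k119 4 (.s k204 k136 9 (.s k153 k51 14 (.d k221 k238 k17 4 9)))), (.s k54 k198 11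
  (.s k60 k40 5 (.s k51 k57 2 (.s k17 k34 4 (.d k153 k204 k221 14 9)))))] (.c k51 (.l (.s k60 k40 5
  (.s k68 k119 4 (.s k125 k190 8 (.s k105 k65 5 (.s k204 k136 9 (.d k108 k99 k156 2 11))))))) (.c
  k67 (.l (.s k131 k188 6 (.s k54 k198 11 (.s k60 k40 5 (.s k51 k57 2 (.d k119 k68 k187 4 9))))))
  (.c k131 (.q k67 [(.s k54 k198 11 (.s k60 k40 5 (.s k51 k57 2 (.d k119 k68 k187 4 9)))), (.s k68
  k119 4 (.s k204 k136 9 (.s k153 k51 14 (.d k221 k238 k17 4 9)))), (.s k54 k198 11 (.s k60 k40 5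
  (.s k51 k57 2 (.s k17 k34 4 (.d k153 k204 k221 14 9)))))] (.c k51 (.l (.s k60 k40 5 (.s k68 k119 4
  (.s k125 k190 8 (.s k105 k65 5 (.s k204 k136 9 (.d k108 k99 k156 2 11))))))) (.c k204 (.l (.s k60
  k40 5 (.s k119 k68 4 (.s k51 k187 9 (.d k54 k57 k198 2 11))))) .n))) (.c k204 (.l (.s k60 k40 5
  (.s k119 k68 4 (.s k51 k187 9 (.d k54 k57 k198 2 11))))) .n))))) .n)))))) (.c k215 (.q k81 [(.s
  k243 k162 12 (.s k247 k251 1 (.s k166 k4 12 (.d k89 k93 k12 1 14)))), (.s k89 k93 1 (.s k211 k28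
  10 (.s k16 k146 8 (.s k48 k32 3 (.s k117 k186 10 (.s k101 k69 3 (.d k154 k223 k207 10 14)))))))]
  (.c k89 (.f k243 k162 12 (.q k166 [(.d k247 k251 k4 1 12), (.s k182 k134 3 (.s k60 k121 10 (.s
  k105 k195 14 (.d k125 k65 k190 5 8))))] (.c k8 (.l (.s k251 k247 1 (.s k182 k134 3 (.s k60 k121 10
  (.s k105 k195 14 (.d k125 k65 k190 5 8)))))) (.c k251 (.q k8 [(.d k4 k12 k247 1 12), (.s k182 k134
  3 (.s k60 k121 10 (.s k125 k190 8 (.d k105 k65 k195 5 14))))] .n) .n)))) (.c k93 (.l (.s k243 k162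
  12 (.s k247 k251 1 (.s k166 k4 12 (.s k182 k134 3 (.s k60 k121 10 (.s k105 k195 14 (.d k125 k65
  k190 5 8)))))))) .n))) (.c k235 (.l (.s k20 k215 8 (.s k60 k40 5 (.s k105 k195 14 (.d k125 k65
  k190 5 8))))) .n))))))))))))

def t3_168 : T TT 256 :=
  (.q k89 [(.s k81 k93 1 (.s k243 k162 12 (.s k12 k166 14 (.s k8 k4 1 (.d k170 k251 k255 12 14)))))]
  (.c k4 (.q k1 [(.s k81 k93 1 (.s k241 k161 11 (.s k13 k165 13 (.s k169 k253 13 (.d k9 k5 k249 1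
  11))))), (.s k169 k253 13 (.s k9 k249 11 (.s k170 k255 14 (.s k8 k251 12 (.s k10 k11 0 (.d k5 k15
  k13 2 1)))))), (.s k81 k93 1 (.s k170 k255 14 (.s k241 k161 11 (.s k243 k162 12 (.s k240 k242 0
  (.s k160 k80 11 (.d k165 k175 k13 2 13)))))))] (.c k13 (.l (.s k81 k93 1 (.s k241 k161 11 (.s k243
  k162 12 (.s k240 k242 0 (.s k253 k169 13 (.s k245 k249 1 (.d k255 k170 k250 14 2)))))))) (.c k241
  (.l (.s k93 k81 1 (.s k253 k169 13 (.s k13 k173 11 (.s k5 k9 1 (.s k15 k10 2 (.s k12 k14 0 (.d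
  k255 k170 k174 14 12)))))))) .n))) (.c k8 (.l (.s k81 k93 1 (.s k243 k162 12 (.s k166 k12 14 (.s
  k247 k4 12 (.d k255 k251 k170 1 14)))))) (.c k12 (.f k93 k81 1 (.q k68 [(.s k102 k119 4 (.s k76
  k115 6 (.s k127 k110 4 (.d k64 k72 k106 1 6)))), (.s k102 k119 4 (.s k170 k255 14 (.s k34 k238 9
  (.s k51 k17 4 (.d k204 k136 k153 9 14))))), (.s k136 k204 9 (.s k170 k255 14 (.s k8 k251 12 (.s
  k72 k200 7 (.s k106 k123 4 (.d k64 k76 k127 1 6))))))] (.c k6 (.q k9 [(.s k102 k119 4 (.s k76 k115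
  6 (.s k127 k110 4 (.d k64 k72 k106 1 6)))), (.s k102 k119 4 (.s k170 k255 14 (.s k34 k238 9 (.s
  k51 k17 4 (.d k204 k136 k153 9 14))))), (.s k136 k204 9 (.s k170 k255 14 (.s k8 k251 12 (.s k72
  k200 7 (.s k106 k123 4 (.d k64 k76 k127 1 6))))))] .n) (.c k9 (.q k6 [(.s k102 k119 4 (.s k76 k115
  6 (.s k127 k110 4 (.d k64 k72 k106 1 6)))), (.s k102 k119 4 (.s k170 k255 14 (.s k34 k238 9 (.s
  k51 k17 4 (.d k204 k136 k153 9 14))))), (.s k136 k204 9 (.s k170 k255 14 (.s k8 k251 12 (.s k72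
  k200 7 (.s k106 k123 4 (.d k64 k76 k127 1 6))))))] .n) .n)))) (.c k81 (.q k15 [(.s k5 k10 2 (.s
  k165 k245 11 (.s k170 k255 14 (.s k160 k175 2 (.d k240 k80 k90 11 14))))), (.s k5 k10 2 (.s k165
  k245 11 (.s k13 k241 13 (.s k12 k14 0 (.s k4 k8 1 (.d k166 k247 k243 12 14)))))), (.s k170 k255 14
  (.s k8 k251 12 (.s k12 k4 1 (.s k13 k14 0 (.s k165 k241 13 (.s k160 k175 2 (.d k240 k80 k90 11
  14)))))))] (.c k165 (.l (.s k10 k5 2 (.s k170 k255 14 (.s k8 k251 12 (.s k12 k4 1 (.s k14 k13 0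
  (.s k90 k250 11 (.d k166 k243 k242 14 13)))))))) .n)) (.c k93 (.q k15 [(.s k5 k10 2 (.s k165 k245
  11 (.s k90 k240 14 (.s k95 k80 2 (.d k255 k175 k170 11 14))))), (.s k5 k10 2 (.s k165 k245 11 (.s
  k13 k241 13 (.s k12 k14 0 (.s k4 k8 1 (.d k166 k247 k243 12 14)))))), (.s k170 k255 14 (.s k8 k251
  12 (.s k12 k4 1 (.s k13 k14 0 (.s k165 k241 13 (.s k160 k175 2 (.d k240 k80 k90 11 14)))))))] (.c
  k165 (.l (.s k10 k5 2 (.s k170 k255 14 (.s k8 k251 12 (.s k12 k4 1 (.s k14 k13 0 (.s k90 k250 11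
  (.d k166 k243 k242 14 13)))))))) .n)) (.c k162 (.l (.s k93 k81 1 (.s k255 k170 14 (.s k12 k174 12
  (.s k166 k243 14 (.d k4 k8 k247 1 12)))))) (.c k166 (.q k1 [(.s k81 k93 1 (.s k169 k253 13 (.s k9
  k249 11 (.s k13 k5 1 (.d k241 k161 k165 11 13))))), (.s k81 k93 1 (.s k170 k255 14 (.s k241 k161
  11 (.s k243 k162 12 (.s k240 k242 0 (.s k160 k80 11 (.d k165 k175 k13 2 13))))))), (.s k169 k253
  13 (.s k9 k249 11 (.s k170 k255 14 (.s k8 k251 12 (.s k10 k11 0 (.d k5 k15 k13 2 1))))))] (.c k13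
  (.l (.s k81 k93 1 (.s k241 k161 11 (.s k243 k162 12 (.s k240 k242 0 (.s k253 k169 13 (.s k245 k249
  1 (.d k255 k170 k250 14 2)))))))) (.c k241 (.l (.s k93 k81 1 (.s k253 k169 13 (.s k13 k173 11 (.s
  k5 k9 1 (.s k15 k10 2 (.s k12 k14 0 (.d k255 k170 k174 14 12)))))))) .n))) (.c k170 (.f k81 k93 1
  (.q k86 [(.s k87 k84 0 (.s k83 k92 2 (.s k95 k91 1 (.d k80 k82 k90 0 2)))), (.s k84 k87 0 (.s k243
  k162 12 (.s k166 k12 14 (.s k4 k247 12 (.s k6 k246 11 (.s k7 k5 0 (.d k244 k164 k165 11 12))))))),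
  (.s k83 k92 2 (.s k80 k82 0 (.s k240 k160 11 (.s k243 k162 12 (.s k166 k12 14 (.s k242 k241 0 (.d
  k90 k95 k14 2 13)))))))] (.c k169 (.q k171 [(.s k87 k84 0 (.s k83 k92 2 (.s k95 k91 1 (.d k80 k82
  k90 0 2)))), (.s k84 k87 0 (.s k243 k162 12 (.s k166 k12 14 (.s k4 k247 12 (.s k6 k246 11 (.s k7
  k5 0 (.d k244 k164 k165 11 12))))))), (.s k83 k92 2 (.s k80 k82 0 (.s k240 k160 11 (.s k243 k162
  12 (.s k166 k12 14 (.s k242 k241 0 (.d k90 k95 k14 2 13)))))))] .n) (.c k171 (.q k169 [(.s k1 k253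
  13 (.s k9 k249 11 (.s k13 k5 1 (.d k241 k161 k165 11 13)))), (.s k83 k92 2 (.s k87 k84 0 (.s k95
  k91 1 (.d k80 k82 k90 0 2))))] (.c k87 (.q k255 [(.s k243 k162 12 (.s k166 k12 14 (.d k247 k251 k4
  1 12))), (.s k1 k253 13 (.s k9 k249 11 (.s k13 k5 1 (.d k241 k161 k165 11 13))))] (.c k9 (.l (.s
  k243 k162 12 (.s k247 k251 1 (.d k166 k4 k12 12 14)))) .n)) (.c k255 (.l (.s k87 k84 0 (.s k83 k92
  2 (.s k80 k82 0 (.d k95 k91 k90 1 2))))) .n))) .n)))) (.c k174 (.l (.s k81 k93 1 (.s k243 k162 12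
  (.s k12 k166 14 (.s k170 k255 14 (.d k8 k4 k251 1 12)))))) (.c k243 (.f k81 k93 1 (.q k64 [(.s
  k106 k127 6 (.s k115 k98 4 (.s k76 k102 6 (.d k72 k68 k123 1 4)))), (.s k192 k128 7 (.s k255 k170
  14 (.s k213 k234 6 (.s k149 k21 7 (.d k106 k127 k63 6 14)))))] (.c k83 (.q k163 [(.s k106 k127 6
  (.s k115 k98 4 (.s k76 k102 6 (.d k72 k68 k123 1 4)))), (.s k192 k128 7 (.s k255 k170 14 (.s k213
  k234 6 (.s k149 k21 7 (.d k106 k127 k63 6 14)))))] (.c k106 (.l (.s k115 k98 4 (.s k102 k76 6 (.s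
  k68 k119 4 (.s k170 k255 14 (.s k34 k238 9 (.s k51 k17 4 (.d k204 k136 k153 9 14)))))))) (.c k127
  (.l (.s k98 k115 4 (.s k192 k128 7 (.s k255 k170 14 (.s k213 k234 6 (.s k149 k21 7 (.s k209 k29 9
  (.d k145 k17 k51 7 12)))))))) .n))) (.c k106 (.l (.s k115 k98 4 (.s k102 k76 6 (.s k68 k119 4 (.s
  k170 k255 14 (.s k34 k238 9 (.s k51 k17 4 (.d k204 k136 k153 9 14)))))))) (.c k127 (.l (.s k98
  k115 4 (.s k192 k128 7 (.s k255 k170 14 (.s k213 k234 6 (.s k149 k21 7 (.s k209 k29 9 (.d k145 k17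
  k51 7 12)))))))) (.c k163 (.q k83 [(.s k80 k82 0 (.s k86 k92 2 (.s k87 k84 0 (.d k95 k91 k90 1
  2)))), (.s k106 k127 6 (.s k72 k123 4 (.s k76 k68 1 (.d k115 k98 k102 4 6))))] .n) .n)))))) (.c
  k251 (.l (.s k93 k81 1 (.s k255 k170 14 (.s k12 k174 12 (.s k4 k8 1 (.d k166 k247 k243 12 14))))))
  (.c k255 (.q k154 [(.s k93 k81 1 (.s k219 k24 8 (.s k223 k16 10 (.s k28 k158 8 (.d k211 k215 k150
  1 10))))), (.s k81 k93 1 (.s k219 k24 8 (.s k243 k162 12 (.s k207 k231 5 (.s k69 k138 10 (.d k101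
  k117 k48 3 14)))))), (.s k16 k223 10 (.s k48 k32 3 (.s k81 k93 1 (.s k243 k162 12 (.s k113 k178 8
  (.d k101 k207 k77 14 5)))))), (.s k16 k223 10 (.s k24 k219 8 (.s k48 k32 3 (.s k12 k36 5 (.s k4 k8
  1 (.d k166 k247 k243 12 14))))))] (.c k87 (.q k171 [(.s k93 k81 1 (.s k219 k24 8 (.s k223 k16 10
  (.s k28 k158 8 (.d k211 k215 k150 1 10))))), (.s k81 k93 1 (.s k219 k24 8 (.s k243 k162 12 (.s
  k207 k231 5 (.s k69 k138 10 (.d k101 k117 k48 3 14)))))), (.s k16 k223 10 (.s k48 k32 3 (.s k81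
  k93 1 (.s k243 k162 12 (.s k113 k178 8 (.d k101 k207 k77 14 5)))))), (.s k16 k223 10 (.s k24 k219
  8 (.s k48 k32 3 (.s k12 k36 5 (.s k4 k8 1 (.d k166 k247 k243 12 14))))))] .n) (.c k171 (.q k87
  [(.s k16 k223 10 (.s k24 k219 8 (.s k28 k20 1 (.s k211 k150 10 (.d k81 k93 k146 1 8))))), (.s k81
  k93 1 (.s k86 k84 0 (.s k83 k92 2 (.s k80 k82 0 (.d k95 k91 k90 1 2))))), (.s k86 k84 0 (.s k222
  k18 9 (.s k223 k16 10 (.s k19 k155 9 (.d k220 k221 k153 0 10)))))] (.c k169 (.q k170 [(.s k8 k251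
  12 (.s k12 k4 1 (.s k81 k93 1 (.d k243 k162 k166 12 14)))), (.s k16 k223 10 (.s k48 k32 3 (.s k138
  k186 3 (.d k207 k69 k101 10 14))))] (.c k86 (.q k252 [(.s k8 k251 12 (.s k12 k4 1 (.s k81 k93 1
  (.d k243 k162 k166 12 14)))), (.s k16 k223 10 (.s k48 k32 3 (.s k138 k186 3 (.d k207 k69 k101 10
  14))))] .n) (.c k252 (.l (.s k86 k84 0 (.s k8 k251 12 (.s k12 k4 1 (.s k81 k93 1 (.d k243 k162
  k166 12 14)))))) .n))) (.c k170 (.q k169 [(.s k1 k253 13 (.s k9 k249 11 (.s k13 k5 1 (.s k81 k93 1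
  (.d k241 k161 k165 11 13))))), (.s k86 k84 0 (.s k222 k18 9 (.s k223 k16 10 (.s k19 k155 9 (.d
  k220 k221 k153 0 10)))))] .n) .n))) .n))) .n)))))))))))))

def t3_169 : T TT 256 :=
  (.q k101 [(.s k69 k117 3 (.s k207 k138 10 (.s k154 k48 14 (.s k223 k16 10 (.d k255 k239 k170 3
  14))))), (.s k69 k117 3 (.s k207 k138 10 (.s k48 k154 14 (.s k32 k16 3 (.d k170 k239 k255 10
  14)))))] (.c k16 (.f k255 k170 14 (.f k117 k69 3 (.q k252 [(.s k48 k186 10 (.s k116 k184 9 (.s k86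
  k71 4 (.d k84 k168 k87 13 0)))), (.s k186 k48 10 (.s k254 k253 0 (.s k118 k50 9 (.s k51 k185 10
  (.d k119 k116 k187 0 9))))), (.s k253 k254 0 (.s k49 k185 9 (.s k153 k205 13 (.s k17 k221 9 (.s
  k51 k34 4 (.s k102 k204 14 (.d k119 k68 k187 4 9))))))), (.s k186 k48 10 (.s k254 k253 0 (.s k118
  k50 9 (.s k116 k119 0 (.s k86 k71 4 (.d k84 k87 k168 0 13))))))] (.c k168 (.q k171 [(.s k186 k48
  10 (.s k254 k253 0 (.s k118 k50 9 (.s k51 k185 10 (.d k119 k116 k187 0 9))))), (.s k48 k186 10 (.s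
  k116 k184 9 (.s k86 k71 4 (.s k84 k87 0 (.s k68 k100 3 (.d k119 k118 k102 0 4)))))), (.s k253 k254
  0 (.s k49 k185 9 (.s k153 k205 13 (.s k17 k221 9 (.s k51 k34 4 (.s k102 k204 14 (.d k119 k68 k187
  4 9))))))), (.s k253 k254 0 (.s k49 k185 9 (.s k153 k205 13 (.s k17 k221 9 (.s k51 k34 4 (.d k48
  k50 k186 0 10))))))] (.c k185 (.q k153 [(.s k205 k49 13 (.s k253 k254 0 (.d k221 k237 k17 3 9))),
  (.s k17 k221 9 (.s k51 k34 4 (.s k102 k204 14 (.d k119 k68 k187 4 9)))), (.s k48 k186 10 (.s k49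
  k205 13 (.s k51 k50 0 (.s k102 k204 14 (.d k119 k187 k68 9 4)))))] .n) .n)) (.c k171 (.l (.s k168
  k84 13 (.s k48 k186 10 (.s k116 k184 9 (.s k118 k119 0 (.s k185 k51 10 (.d k253 k254 k49 0
  9))))))) .n))))) (.c k48 (.f k255 k170 14 (.f k69 k117 3 (.q k86 [(.s k87 k84 0 (.s k71 k116 4 (.s
  k119 k103 3 (.d k68 k70 k102 0 4)))), (.s k87 k84 0 (.s k207 k138 10 (.s k223 k239 3 (.s k19 k155
  9 (.s k153 k220 10 (.s k17 k221 9 (.d k16 k18 k154 0 10))))))), (.s k71 k116 4 (.s k68 k70 0 (.s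
  k204 k136 9 (.s k221 k238 4 (.s k153 k17 9 (.d k102 k119 k51 4 14))))))] (.c k18 (.q k33 [(.s k87
  k84 0 (.s k71 k116 4 (.s k119 k103 3 (.d k68 k70 k102 0 4)))), (.s k87 k84 0 (.s k207 k138 10 (.s
  k223 k239 3 (.s k19 k155 9 (.s k153 k220 10 (.s k17 k221 9 (.d k49 k1 k205 3 13))))))), (.s k71
  k116 4 (.s k68 k70 0 (.s k204 k136 9 (.s k221 k238 4 (.s k153 k17 9 (.d k102 k119 k51 4 14))))))]
  (.c k168 (.q k171 [(.s k87 k84 0 (.s k71 k116 4 (.s k119 k103 3 (.d k68 k70 k102 0 4)))), (.s k87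
  k84 0 (.s k207 k138 10 (.s k223 k239 3 (.s k155 k19 9 (.s k51 k103 13 (.d k187 k139 k119 3
  9)))))), (.s k71 k116 4 (.s k68 k70 0 (.s k204 k136 9 (.s k221 k238 4 (.s k153 k17 9 (.d k102 k119
  k51 4 14))))))] (.c k119 (.l (.s k84 k87 0 (.s k207 k138 10 (.s k239 k223 3 (.s k103 k35 9 (.s
  k116 k71 4 (.d k100 k102 k68 0 3))))))) .n)) (.c k171 (.q k168 [(.d k84 k87 k252 0 13), (.s k71
  k116 4 (.s k68 k70 0 (.s k204 k136 9 (.s k221 k238 4 (.s k153 k17 9 (.d k102 k119 k51 4 14))))))]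
  (.c k252 (.l (.s k84 k87 0 (.s k116 k71 4 (.s k68 k100 3 (.s k204 k136 9 (.s k221 k238 4 (.s k153
  k17 9 (.d k102 k119 k51 4 14)))))))) .n)) .n))) (.c k33 (.q k18 [(.s k154 k222 9 (.s k207 k138 10
  (.d k223 k239 k16 3 10))), (.s k71 k116 4 (.s k68 k70 0 (.s k87 k84 0 (.d k119 k103 k102 3 4))))]
  (.c k168 (.q k171 [(.s k154 k222 9 (.s k207 k138 10 (.d k223 k239 k16 3 10))), (.s k71 k116 4 (.s
  k68 k70 0 (.s k87 k84 0 (.d k119 k103 k102 3 4))))] .n) (.c k171 (.q k168 [(.d k84 k87 k252 0 13),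
  (.s k154 k222 9 (.s k207 k138 10 (.d k223 k239 k16 3 10)))] .n) .n))) (.c k168 (.q k171 [(.s k87
  k84 0 (.s k71 k116 4 (.s k119 k103 3 (.d k68 k70 k102 0 4)))), (.s k87 k84 0 (.s k207 k138 10 (.s
  k223 k239 3 (.s k155 k19 9 (.s k51 k103 13 (.d k187 k139 k119 3 9)))))), (.s k71 k116 4 (.s k68
  k70 0 (.s k204 k136 9 (.s k221 k238 4 (.s k153 k17 9 (.d k102 k119 k51 4 14))))))] (.c k18 (.q k33
  [(.s k87 k84 0 (.s k71 k116 4 (.s k119 k103 3 (.d k68 k70 k102 0 4)))), (.s k87 k84 0 (.s k207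
  k138 10 (.s k223 k239 3 (.s k155 k19 9 (.s k51 k103 13 (.d k187 k139 k119 3 9)))))), (.s k71 k116
  4 (.s k68 k70 0 (.s k204 k136 9 (.s k221 k238 4 (.s k153 k17 9 (.d k102 k119 k51 4 14))))))] (.c
  k119 (.l (.s k84 k87 0 (.s k207 k138 10 (.s k239 k223 3 (.s k103 k35 9 (.s k116 k71 4 (.d k100
  k102 k68 0 3))))))) .n)) (.c k33 (.q k18 [(.s k154 k222 9 (.s k207 k138 10 (.d k223 k239 k16 3
  10))), (.s k71 k116 4 (.s k68 k70 0 (.s k87 k84 0 (.d k119 k103 k102 3 4))))] .n) (.c k119 (.l (.s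
  k84 k87 0 (.s k207 k138 10 (.s k239 k223 3 (.s k103 k35 9 (.s k116 k71 4 (.d k100 k102 k68 0
  3))))))) .n)))) (.c k171 (.q k168 [(.d k84 k87 k252 0 13)] (.c k18 (.q k33 [(.d k84 k87 k252 0
  13), (.s k71 k116 4 (.s k68 k70 0 (.s k204 k136 9 (.s k221 k238 4 (.s k153 k17 9 (.d k102 k119 k51
  4 14))))))] (.c k252 (.l (.s k84 k87 0 (.s k116 k71 4 (.s k68 k100 3 (.s k204 k136 9 (.s k221 k238
  4 (.s k153 k17 9 (.d k102 k119 k51 4 14)))))))) .n)) (.c k33 (.q k18 [(.d k84 k87 k252 0 13), (.s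
  k154 k222 9 (.s k207 k138 10 (.d k223 k239 k16 3 10)))] .n) (.c k84 (.l (.s k71 k116 4 (.s k68 k70
  0 (.s k119 k102 4 (.s k51 k187 9 (.s k103 k87 3 (.d k207 k155 k138 13 10))))))) (.c k87 (.l (.s
  k207 k138 10 (.s k223 k239 3 (.s k154 k16 10 (.s k252 k84 13 (.d k222 k237 k18 4 9)))))) (.c k252
  (.l (.s k84 k87 0 (.s k116 k71 4 (.s k68 k100 3 (.s k204 k136 9 (.s k221 k238 4 (.s k153 k17 9 (.d
  k102 k119 k51 4 14)))))))) .n)))))) .n))))))) (.c k69 (.q k60 [(.s k20 k40 5 (.s k150 k215 8 (.s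
  k170 k255 14 (.s k130 k190 5 (.d k195 k65 k105 8 14))))), (.s k20 k40 5 (.s k150 k215 8 (.s k52
  k199 12 (.s k48 k56 1 (.s k16 k32 3 (.d k154 k223 k207 10 14)))))), (.s k170 k255 14 (.s k32 k239
  10 (.s k48 k16 3 (.s k52 k56 1 (.s k150 k199 12 (.s k130 k190 5 (.d k195 k65 k105 8 14)))))))] (.c
  k86 (.q k252 [(.s k20 k40 5 (.s k150 k215 8 (.s k105 k195 14 (.s k125 k65 5 (.d k255 k190 k170 8
  14))))), (.s k40 k20 5 (.s k168 k84 13 (.s k104 k232 7 (.s k148 k192 13 (.d k188 k128 k124 5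
  7))))), (.s k124 k188 7 (.s k255 k170 14 (.s k125 k190 8 (.s k126 k127 0 (.s k189 k63 8 (.d k253
  k254 k61 0 7))))))] .n) (.c k150 (.l (.s k40 k20 5 (.s k170 k255 14 (.s k32 k239 10 (.s k36 k44 1
  (.s k48 k16 3 (.s k24 k12 5 (.d k56 k52 k8 1 3)))))))) (.c k252 (.q k86 [(.s k20 k40 5 (.s k150
  k215 8 (.s k170 k255 14 (.s k130 k190 5 (.d k195 k65 k105 8 14))))), (.s k20 k40 5 (.s k87 k84 0
  (.s k215 k150 8 (.s k23 k151 7 (.s k21 k22 0 (.d k149 k213 k212 7 8)))))), (.s k84 k87 0 (.s k255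
  k170 14 (.s k125 k190 8 (.s k105 k65 5 (.s k124 k67 6 (.s k64 k104 5 (.d k127 k126 k106 0
  6)))))))] (.c k87 (.l (.s k20 k40 5 (.s k150 k215 8 (.s k105 k195 14 (.s k125 k65 5 (.d k255 k190
  k170 8 14)))))) (.c k150 (.l (.s k40 k20 5 (.s k170 k255 14 (.s k32 k239 10 (.s k36 k44 1 (.s k48
  k16 3 (.s k24 k12 5 (.d k56 k52 k8 1 3)))))))) .n))) .n)))) (.c k86 (.q k252 [(.s k69 k117 3 (.s
  k207 k138 10 (.s k154 k48 14 (.s k223 k16 10 (.d k255 k239 k170 3 14))))), (.s k168 k84 13 (.s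
  k170 k255 14 (.s k32 k239 10 (.s k48 k16 3 (.s k100 k236 9 (.s k152 k204 13 (.d k184 k136 k116 3
  9))))))), (.s k117 k69 3 (.s k255 k170 14 (.s k48 k186 10 (.s k116 k184 9 (.s k118 k119 0 (.s k185
  k51 10 (.d k253 k254 k49 0 9)))))))] (.c k48 (.f k69 k117 3 (.l (.s k207 k138 10 (.s k222 k237 4
  (.s k255 k170 14 (.s k223 k239 3 (.s k221 k220 0 (.s k238 k204 4 (.d k254 k253 k206 0 3)))))))))
  (.c k170 (.f k168 k84 13 (.f k69 k117 3 (.f k207 k138 10 (.l (.s k154 k48 14 (.s k222 k237 4 (.s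
  k223 k16 10 (.s k255 k239 3 (.s k254 k253 0 (.s k238 k206 3 (.d k221 k220 k204 0 4))))))))))) (.c
  k255 (.f k69 k117 3 (.l (.s k84 k168 13 (.s k207 k138 10 (.s k48 k154 14 (.s k16 k32 3 (.s k152
  k220 9 (.s k100 k204 13 (.d k116 k184 k68 9 3))))))))) .n)))) (.c k117 (.q k63 [(.s k21 k42 6 (.s
  k149 k213 7 (.s k106 k192 14 (.s k127 k64 6 (.d k255 k191 k170 7 14))))), (.s k21 k42 6 (.s k149
  k213 7 (.s k53 k197 11 (.s k48 k58 2 (.s k16 k32 3 (.d k154 k223 k207 10 14)))))), (.s k170 k255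
  14 (.s k32 k239 10 (.s k48 k16 3 (.s k53 k58 2 (.s k149 k197 11 (.s k128 k191 6 (.d k192 k64 k106
  7 14)))))))] (.c k86 (.q k252 [(.s k21 k42 6 (.s k149 k213 7 (.s k106 k192 14 (.s k127 k64 6 (.d
  k255 k191 k170 7 14))))), (.s k21 k42 6 (.s k149 k213 7 (.s k53 k197 11 (.s k48 k58 2 (.s k16 k32
  3 (.d k154 k223 k207 10 14)))))), (.s k189 k126 8 (.s k255 k170 14 (.s k191 k127 7 (.s k190 k188 0
  (.s k125 k60 8 (.d k253 k254 k61 0 7))))))] .n) (.c k149 (.l (.s k42 k21 6 (.s k170 k255 14 (.s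
  k32 k239 10 (.s k37 k47 2 (.s k48 k16 3 (.s k26 k15 6 (.d k58 k53 k10 2 3)))))))) (.c k252 (.q k86
  [(.s k21 k42 6 (.s k149 k213 7 (.s k106 k192 14 (.s k127 k64 6 (.d k255 k191 k170 7 14))))), (.s
  k42 k21 6 (.s k170 k255 14 (.s k32 k239 10 (.s k37 k47 2 (.s k48 k16 3 (.s k26 k15 6 (.d k58 k53
  k10 2 3))))))), (.s k87 k84 0 (.s k255 k170 14 (.s k127 k191 7 (.s k67 k107 5 (.s k105 k124 6 (.s
  k65 k125 5 (.d k64 k66 k106 0 6))))))), (.s k21 k42 6 (.s k87 k84 0 (.s k149 k213 7 (.s k23 k212 8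
  (.s k20 k22 0 (.d k215 k151 k150 7 8))))))] .n) .n)))) (.c k138 (.l (.s k117 k69 3 (.s k255 k170
  14 (.s k48 k186 10 (.s k154 k207 14 (.d k16 k32 k223 3 10)))))) (.c k154 (.f k117 k69 3 (.q k102
  [(.s k103 k100 0 (.s k119 k68 4 (.s k116 k118 0 (.d k71 k86 k87 4 3)))), (.s k68 k119 4 (.s k204
  k136 9 (.s k51 k153 14 (.s k34 k17 4 (.d k170 k238 k255 9 14))))), (.s k100 k103 0 (.s k170 k255
  14 (.s k32 k239 10 (.s k34 k238 9 (.s k48 k16 3 (.s k51 k17 4 (.d k204 k152 k153 13 14)))))))] (.c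
  k86 (.q k252 [(.s k68 k119 4 (.s k84 k168 13 (.d k100 k103 k116 0 3))), (.s k100 k103 0 (.s k168
  k84 13 (.s k32 k236 9 (.d k170 k239 k255 10 14)))), (.s k119 k68 4 (.s k116 k118 0 (.s k255 k170
  14 (.d k48 k184 k186 9 10))))] (.c k18 (.q k222 [(.s k68 k119 4 (.s k84 k168 13 (.d k100 k103 k116
  0 3))), (.s k100 k103 0 (.s k168 k84 13 (.s k32 k236 9 (.d k170 k239 k255 10 14)))), (.s k119 k68
  4 (.s k116 k118 0 (.s k255 k170 14 (.d k48 k184 k186 9 10))))] (.c k33 (.q k48 [(.d k255 k186 k170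
  10 14), (.s k119 k68 4 (.d k116 k184 k118 9 0))] (.c k139 (.l (.s k184 k116 9 (.d k255 k186 k170
  10 14))) (.c k184 (.q k139 [(.d k255 k186 k170 10 14), (.s k32 k16 3 (.s k100 k103 0 (.d k168 k236
  k84 9 13)))] .n) .n))) (.c k48 (.q k33 [(.s k68 k119 4 (.s k84 k168 13 (.d k100 k103 k116 0 3))),
  (.s k170 k255 14 (.s k32 k239 10 (.d k34 k35 k238 0 9))), (.s k68 k119 4 (.s k100 k103 0 (.d k84
  k116 k168 3 13)))] (.c k139 (.q k184 [(.s k68 k119 4 (.s k168 k84 13 (.d k136 k152 k204 3 9))),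
  (.s k170 k255 14 (.s k32 k239 10 (.d k34 k35 k238 0 9)))] (.c k71 (.l (.s k207 k237 4 (.s k68 k119
  4 (.s k84 k168 13 (.d k100 k103 k116 0 3))))) (.c k207 (.q k71 [(.s k119 k68 4 (.d k103 k100 k87 0
  3)), (.s k170 k255 14 (.s k34 k238 9 (.d k32 k239 k35 10 0)))] (.c k87 (.l (.s k68 k119 4 (.s k84
  k168 13 (.d k100 k103 k116 0 3)))) .n)) .n))) (.c k184 (.q k139 [(.s k68 k119 4 (.s k100 k103 0
  (.d k84 k116 k168 3 13))), (.s k170 k255 14 (.s k32 k239 10 (.d k34 k35 k238 0 9)))] (.c k87 (.l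
  (.s k68 k119 4 (.s k84 k168 13 (.d k100 k103 k116 0 3)))) .n)) .n))) (.c k139 (.q k184 [(.s k48
  k116 9 (.d k255 k186 k170 10 14)), (.s k68 k119 4 (.s k136 k204 9 (.d k168 k152 k84 3 13)))] (.c
  k33 (.l (.s k48 k116 9 (.d k255 k186 k170 10 14))) (.c k48 (.q k33 [(.s k68 k119 4 (.s k168 k84 13
  (.d k136 k152 k204 3 9))), (.s k170 k255 14 (.s k32 k239 10 (.d k34 k35 k238 0 9)))] (.c k71 (.l
  (.s k207 k237 4 (.s k68 k119 4 (.s k84 k168 13 (.d k100 k103 k116 0 3))))) (.c k207 (.q k71 [(.s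
  k119 k68 4 (.d k103 k100 k87 0 3)), (.s k170 k255 14 (.s k34 k238 9 (.d k32 k239 k35 10 0)))] (.c
  k87 (.l (.s k68 k119 4 (.s k84 k168 13 (.d k100 k103 k116 0 3)))) .n)) .n))) (.c k71 (.l (.s k207
  k237 4 (.s k48 k116 9 (.d k255 k186 k170 10 14)))) (.c k207 (.q k71 [(.s k48 k116 9 (.d k255 k186
  k170 10 14)), (.s k103 k100 0 (.d k119 k87 k68 3 4))] (.c k33 (.l (.s k48 k116 9 (.d k255 k186
  k170 10 14))) (.c k48 (.q k33 [(.s k119 k68 4 (.d k103 k100 k87 0 3)), (.s k170 k255 14 (.s k34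
  k238 9 (.d k32 k239 k35 10 0)))] (.c k87 (.l (.s k68 k119 4 (.s k84 k168 13 (.d k100 k103 k116 0
  3)))) .n)) .n))) .n))))) (.c k168 (.l (.s k119 k68 4 (.s k118 k116 0 (.s k51 k185 10 (.d k255 k187
  k170 9 14))))) (.c k170 (.l (.s k68 k119 4 (.s k100 k103 0 (.d k84 k116 k168 3 13)))) (.c k184 (.q
  k139 [(.s k100 k103 0 (.s k168 k84 13 (.s k32 k236 9 (.d k170 k239 k255 10 14)))), (.s k119 k68 4
  (.s k255 k170 14 (.s k51 k187 9 (.d k118 k185 k116 10 0)))), (.s k68 k119 4 (.s k100 k103 0 (.d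
  k84 k116 k168 3 13)))] (.c k33 (.q k48 [(.d k255 k186 k170 10 14), (.s k32 k16 3 (.s k100 k103 0
  (.d k168 k236 k84 9 13)))] .n) (.c k48 (.q k33 [(.s k68 k119 4 (.s k100 k103 0 (.d k84 k116 k168 3
  13))), (.s k170 k255 14 (.s k32 k239 10 (.d k34 k35 k238 0 9)))] (.c k87 (.l (.s k68 k119 4 (.s
  k84 k168 13 (.d k100 k103 k116 0 3)))) .n)) (.c k168 (.l (.s k119 k68 4 (.s k118 k116 0 (.s k51
  k185 10 (.d k255 k187 k170 9 14))))) .n)))) .n))))))) (.c k139 (.q k184 [(.s k48 k116 9 (.d k255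
  k186 k170 10 14)), (.s k68 k119 4 (.s k136 k204 9 (.d k168 k152 k84 3 13)))] (.c k18 (.q k222 [(.s
  k48 k116 9 (.d k255 k186 k170 10 14)), (.s k68 k119 4 (.s k136 k204 9 (.d k168 k152 k84 3 13)))]
  (.c k33 (.l (.s k48 k116 9 (.d k255 k186 k170 10 14))) (.c k48 (.q k33 [(.s k68 k119 4 (.s k168
  k84 13 (.d k136 k152 k204 3 9))), (.s k170 k255 14 (.s k32 k239 10 (.d k34 k35 k238 0 9)))] (.c
  k71 (.l (.s k207 k237 4 (.s k68 k119 4 (.s k84 k168 13 (.d k100 k103 k116 0 3))))) (.c k207 (.q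
  k71 [(.s k119 k68 4 (.d k103 k100 k87 0 3)), (.s k170 k255 14 (.s k34 k238 9 (.d k32 k239 k35 10
  0)))] (.c k87 (.l (.s k68 k119 4 (.s k84 k168 13 (.d k100 k103 k116 0 3)))) .n)) .n))) (.c k71 (.l
  (.s k207 k237 4 (.s k48 k116 9 (.d k255 k186 k170 10 14)))) (.c k207 (.q k71 [(.s k48 k116 9 (.d
  k255 k186 k170 10 14)), (.s k103 k100 0 (.d k119 k87 k68 3 4))] (.c k33 (.l (.s k48 k116 9 (.d
  k255 k186 k170 10 14))) (.c k48 (.q k33 [(.s k119 k68 4 (.d k103 k100 k87 0 3)), (.s k170 k255 14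
  (.s k34 k238 9 (.d k32 k239 k35 10 0)))] (.c k87 (.l (.s k68 k119 4 (.s k84 k168 13 (.d k100 k103
  k116 0 3)))) .n)) .n))) .n))))) (.c k71 (.q k207 [(.s k48 k116 9 (.d k255 k186 k170 10 14)), (.s
  k68 k119 4 (.s k136 k204 9 (.d k168 k152 k84 3 13)))] (.c k18 (.l (.s k222 k237 4 (.s k48 k116 9
  (.d k255 k186 k170 10 14)))) (.c k68 (.q k70 [(.s k48 k116 9 (.d k255 k186 k170 10 14)), (.s k100
  k103 0 (.s k168 k84 13 (.s k32 k236 9 (.d k170 k239 k255 10 14)))), (.s k255 k170 14 (.d k48 k186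
  k116 10 9)), (.s k48 k116 9 (.s k32 k16 3 (.s k100 k103 0 (.d k168 k84 k236 13 9))))] (.c k18 (.l
  (.s k222 k237 4 (.s k48 k116 9 (.d k255 k186 k170 10 14)))) (.c k222 (.q k18 [(.s k48 k116 9 (.d
  k255 k186 k170 10 14)), (.s k100 k103 0 (.s k168 k84 13 (.s k32 k236 9 (.d k170 k239 k255 10
  14)))), (.s k255 k170 14 (.d k48 k186 k116 10 9)), (.s k48 k116 9 (.s k32 k16 3 (.s k100 k103 0
  (.d k168 k84 k236 13 9))))] .n) .n))) (.c k70 (.l (.s k68 k119 4 (.s k48 k116 9 (.d k255 k186 k170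
  10 14)))) (.c k222 (.q k18 [(.s k116 k48 9 (.d k119 k68 k118 4 0)), (.s k68 k119 4 (.s k136 k204 9
  (.d k168 k152 k84 3 13)))] (.c k68 (.q k70 [(.s k48 k116 9 (.d k255 k186 k170 10 14)), (.s k100
  k103 0 (.s k168 k84 13 (.s k32 k236 9 (.d k170 k239 k255 10 14)))), (.s k255 k170 14 (.d k48 k186
  k116 10 9)), (.s k48 k116 9 (.s k32 k16 3 (.s k100 k103 0 (.d k168 k84 k236 13 9))))] .n) (.c k70
  (.l (.s k68 k119 4 (.s k48 k116 9 (.d k255 k186 k170 10 14)))) (.c k119 (.l (.s k48 k116 9 (.d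
  k255 k186 k170 10 14))) .n)))) .n))))) (.c k207 (.q k71 [(.s k48 k116 9 (.d k255 k186 k170 10
  14)), (.s k103 k100 0 (.d k119 k87 k68 3 4))] (.c k18 (.q k222 [(.s k48 k116 9 (.d k255 k186 k170
  10 14)), (.s k103 k100 0 (.d k119 k87 k68 3 4))] (.c k33 (.l (.s k48 k116 9 (.d k255 k186 k170 10
  14))) (.c k48 (.q k33 [(.s k119 k68 4 (.d k103 k100 k87 0 3)), (.s k170 k255 14 (.s k34 k238 9 (.d
  k32 k239 k35 10 0)))] (.c k87 (.l (.s k68 k119 4 (.s k84 k168 13 (.d k100 k103 k116 0 3)))) .n))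
  .n))) (.c k222 (.q k18 [(.s k48 k116 9 (.d k255 k186 k170 10 14)), (.s k103 k100 0 (.d k119 k87
  k68 3 4))] .n) .n))) (.c k222 (.q k18 [(.s k48 k116 9 (.d k255 k186 k170 10 14)), (.s k68 k119 4
  (.s k136 k204 9 (.d k168 k152 k84 3 13)))] (.c k71 (.q k207 [(.s k116 k48 9 (.d k119 k68 k118 4
  0)), (.s k68 k119 4 (.s k136 k204 9 (.d k168 k152 k84 3 13)))] (.c k68 (.q k70 [(.s k48 k116 9 (.d
  k255 k186 k170 10 14)), (.s k100 k103 0 (.s k168 k84 13 (.s k32 k236 9 (.d k170 k239 k255 10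
  14)))), (.s k255 k170 14 (.d k48 k186 k116 10 9)), (.s k48 k116 9 (.s k32 k16 3 (.s k100 k103 0
  (.d k168 k84 k236 13 9))))] .n) (.c k70 (.l (.s k68 k119 4 (.s k48 k116 9 (.d k255 k186 k170 10
  14)))) (.c k119 (.l (.s k48 k116 9 (.d k255 k186 k170 10 14))) .n)))) (.c k207 (.q k71 [(.s k48
  k116 9 (.d k255 k186 k170 10 14)), (.s k103 k100 0 (.d k119 k87 k68 3 4))] .n) .n))) .n))))) (.c
  k168 (.l (.s k119 k68 4 (.s k118 k116 0 (.s k51 k185 10 (.d k255 k187 k170 9 14))))) (.c k170 (.l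
  (.s k68 k119 4 (.s k100 k103 0 (.d k84 k116 k168 3 13)))) (.c k184 (.q k139 [(.s k100 k103 0 (.s
  k168 k84 13 (.s k32 k236 9 (.d k170 k239 k255 10 14)))), (.s k119 k68 4 (.s k255 k170 14 (.s k51
  k187 9 (.d k118 k185 k116 10 0)))), (.s k68 k119 4 (.s k100 k103 0 (.d k84 k116 k168 3 13)))] (.c
  k18 (.q k222 [(.s k100 k103 0 (.s k168 k84 13 (.s k32 k236 9 (.d k170 k239 k255 10 14)))), (.s
  k119 k68 4 (.s k255 k170 14 (.s k51 k187 9 (.d k118 k185 k116 10 0)))), (.s k68 k119 4 (.s k100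
  k103 0 (.d k84 k116 k168 3 13)))] (.c k33 (.q k48 [(.d k255 k186 k170 10 14), (.s k32 k16 3 (.s
  k100 k103 0 (.d k168 k236 k84 9 13)))] .n) (.c k48 (.q k33 [(.s k68 k119 4 (.s k100 k103 0 (.d k84
  k116 k168 3 13))), (.s k170 k255 14 (.s k32 k239 10 (.d k34 k35 k238 0 9)))] (.c k87 (.l (.s k68
  k119 4 (.s k84 k168 13 (.d k100 k103 k116 0 3)))) .n)) (.c k168 (.l (.s k119 k68 4 (.s k118 k116 0
  (.s k51 k185 10 (.d k255 k187 k170 9 14))))) .n)))) (.c k168 (.l (.s k119 k68 4 (.s k118 k116 0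
  (.s k51 k185 10 (.d k255 k187 k170 9 14))))) (.c k222 (.q k18 [(.s k100 k103 0 (.s k168 k84 13 (.s
  k32 k236 9 (.d k170 k239 k255 10 14)))), (.s k119 k68 4 (.s k255 k170 14 (.s k51 k187 9 (.d k118
  k185 k116 10 0)))), (.s k68 k119 4 (.s k100 k103 0 (.d k84 k116 k168 3 13)))] (.c k168 (.l (.s
  k119 k68 4 (.s k118 k116 0 (.s k51 k185 10 (.d k255 k187 k170 9 14))))) .n)) .n)))) (.c k222 (.q
  k18 [(.s k68 k119 4 (.s k84 k168 13 (.d k100 k103 k116 0 3))), (.s k100 k103 0 (.s k168 k84 13 (.s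
  k32 k236 9 (.d k170 k239 k255 10 14)))), (.s k119 k68 4 (.s k116 k118 0 (.s k255 k170 14 (.d k48
  k184 k186 9 10))))] (.c k139 (.q k184 [(.s k48 k116 9 (.d k255 k186 k170 10 14)), (.s k68 k119 4
  (.s k136 k204 9 (.d k168 k152 k84 3 13)))] (.c k71 (.q k207 [(.s k116 k48 9 (.d k119 k68 k118 4
  0)), (.s k68 k119 4 (.s k136 k204 9 (.d k168 k152 k84 3 13)))] (.c k68 (.q k70 [(.s k48 k116 9 (.d
  k255 k186 k170 10 14)), (.s k100 k103 0 (.s k168 k84 13 (.s k32 k236 9 (.d k170 k239 k255 10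
  14)))), (.s k255 k170 14 (.d k48 k186 k116 10 9)), (.s k48 k116 9 (.s k32 k16 3 (.s k100 k103 0
  (.d k168 k84 k236 13 9))))] .n) (.c k70 (.l (.s k68 k119 4 (.s k48 k116 9 (.d k255 k186 k170 10
  14)))) (.c k119 (.l (.s k48 k116 9 (.d k255 k186 k170 10 14))) .n)))) (.c k207 (.q k71 [(.s k48
  k116 9 (.d k255 k186 k170 10 14)), (.s k103 k100 0 (.d k119 k87 k68 3 4))] .n) .n))) (.c k168 (.l
  (.s k119 k68 4 (.s k118 k116 0 (.s k51 k185 10 (.d k255 k187 k170 9 14))))) (.c k170 (.l (.s k68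
  k119 4 (.s k100 k103 0 (.d k84 k116 k168 3 13)))) (.c k184 (.q k139 [(.s k100 k103 0 (.s k168 k84
  13 (.s k32 k236 9 (.d k170 k239 k255 10 14)))), (.s k119 k68 4 (.s k255 k170 14 (.s k51 k187 9 (.d
  k118 k185 k116 10 0)))), (.s k68 k119 4 (.s k100 k103 0 (.d k84 k116 k168 3 13)))] (.c k168 (.l
  (.s k119 k68 4 (.s k118 k116 0 (.s k51 k185 10 (.d k255 k187 k170 9 14))))) .n)) .n))))) .n)))))))
  (.c k139 (.q k184 [(.s k103 k100 0 (.s k119 k68 4 (.s k116 k118 0 (.d k71 k86 k87 4 3)))), (.s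
  k119 k68 4 (.s k255 k170 14 (.s k186 k48 10 (.d k187 k185 k51 0 9)))), (.s k100 k103 0 (.s k170
  k255 14 (.s k32 k239 10 (.s k48 k16 3 (.s k152 k204 13 (.d k168 k136 k236 3 9))))))] (.c k70 (.l
  (.s k103 k100 0 (.s k119 k68 4 (.s k71 k87 3 (.d k116 k118 k86 0 4))))) (.c k71 (.q k207 [(.s k68
  k119 4 (.s k103 k100 0 (.s k204 k136 9 (.d k51 k155 k153 13 14)))), (.s k255 k170 14 (.s k186 k48
  10 (.s k187 k185 0 (.d k119 k68 k51 4 9)))), (.s k103 k100 0 (.s k170 k255 14 (.s k34 k238 9 (.d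
  k51 k17 k155 4 13))))] (.c k51 (.l (.s k68 k119 4 (.s k136 k204 9 (.s k168 k152 3 (.s k252 k84 13
  (.s k48 k116 9 (.d k255 k186 k170 10 14))))))) (.c k68 (.q k70 [(.s k86 k118 3 (.s k84 k87 0 (.s
  k252 k168 13 (.s k48 k116 9 (.d k255 k170 k186 14 10))))), (.s k103 k100 0 (.s k51 k155 13 (.s k17
  k34 4 (.d k153 k221 k204 9 14)))), (.s k170 k255 14 (.s k34 k238 9 (.s k51 k17 4 (.d k103 k100
  k155 0 13))))] (.c k86 (.q k252 [(.s k48 k116 9 (.d k255 k186 k170 10 14)), (.s k100 k103 0 (.s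
  k168 k84 13 (.s k32 k236 9 (.d k170 k239 k255 10 14)))), (.s k255 k170 14 (.d k48 k186 k116 10
  9)), (.s k48 k116 9 (.s k32 k16 3 (.s k100 k103 0 (.d k168 k84 k236 13 9))))] (.c k18 (.l (.s k222
  k237 4 (.s k48 k116 9 (.d k255 k186 k170 10 14)))) (.c k222 (.q k18 [(.s k48 k116 9 (.d k255 k186
  k170 10 14)), (.s k100 k103 0 (.s k168 k84 13 (.s k32 k236 9 (.d k170 k239 k255 10 14)))), (.s
  k255 k170 14 (.d k48 k186 k116 10 9)), (.s k48 k116 9 (.s k32 k16 3 (.s k100 k103 0 (.d k168 k84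
  k236 13 9))))] .n) .n))) (.c k103 (.l (.s k255 k170 14 (.s k186 k48 10 (.s k187 k185 0 (.s k119
  k51 9 (.d k118 k116 k86 0 3)))))) (.c k171 (.l (.s k86 k118 3 (.s k87 k84 0 (.s k170 k255 14 (.s
  k34 k238 9 (.s k51 k17 4 (.d k103 k100 k155 0 13))))))) (.c k252 (.l (.s k86 k118 3 (.s k103 k100
  0 (.s k51 k155 13 (.s k17 k34 4 (.d k153 k221 k204 9 14)))))) .n))))) (.c k70 (.l (.s k68 k119 4
  (.s k103 k100 0 (.s k51 k155 13 (.d k204 k153 k136 14 9))))) (.c k86 (.q k252 [(.s k48 k116 9 (.d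
  k255 k186 k170 10 14)), (.s k68 k119 4 (.s k136 k204 9 (.d k168 k152 k84 3 13)))] (.c k18 (.l (.s
  k222 k237 4 (.s k48 k116 9 (.d k255 k186 k170 10 14)))) (.c k68 (.q k70 [(.s k48 k116 9 (.d k255
  k186 k170 10 14)), (.s k100 k103 0 (.s k168 k84 13 (.s k32 k236 9 (.d k170 k239 k255 10 14)))),
  (.s k255 k170 14 (.d k48 k186 k116 10 9)), (.s k48 k116 9 (.s k32 k16 3 (.s k100 k103 0 (.d k168
  k84 k236 13 9))))] (.c k18 (.l (.s k222 k237 4 (.s k48 k116 9 (.d k255 k186 k170 10 14)))) (.c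
  k222 (.q k18 [(.s k48 k116 9 (.d k255 k186 k170 10 14)), (.s k100 k103 0 (.s k168 k84 13 (.s k32
  k236 9 (.d k170 k239 k255 10 14)))), (.s k255 k170 14 (.d k48 k186 k116 10 9)), (.s k48 k116 9 (.s
  k32 k16 3 (.s k100 k103 0 (.d k168 k84 k236 13 9))))] .n) .n))) (.c k70 (.l (.s k68 k119 4 (.s k48
  k116 9 (.d k255 k186 k170 10 14)))) (.c k222 (.q k18 [(.s k116 k48 9 (.d k119 k68 k118 4 0)), (.s
  k68 k119 4 (.s k136 k204 9 (.d k168 k152 k84 3 13)))] (.c k68 (.q k70 [(.s k48 k116 9 (.d k255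
  k186 k170 10 14)), (.s k100 k103 0 (.s k168 k84 13 (.s k32 k236 9 (.d k170 k239 k255 10 14)))),
  (.s k255 k170 14 (.d k48 k186 k116 10 9)), (.s k48 k116 9 (.s k32 k16 3 (.s k100 k103 0 (.d k168
  k84 k236 13 9))))] .n) (.c k70 (.l (.s k68 k119 4 (.s k48 k116 9 (.d k255 k186 k170 10 14)))) (.c
  k119 (.l (.s k48 k116 9 (.d k255 k186 k170 10 14))) .n)))) .n))))) (.c k252 (.q k86 [(.s k68 k119
  4 (.s k103 k100 0 (.s k204 k136 9 (.d k51 k155 k153 13 14)))), (.s k255 k170 14 (.s k186 k48 10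
  (.s k187 k185 0 (.d k119 k68 k51 4 9)))), (.s k103 k100 0 (.s k170 k255 14 (.s k34 k238 9 (.d k51
  k17 k155 4 13))))] (.c k51 (.l (.s k68 k119 4 (.s k87 k84 0 (.s k100 k103 0 (.s k204 k136 9 (.s
  k48 k152 13 (.d k255 k186 k170 10 14))))))) (.c k68 (.l (.s k70 k118 3 (.s k103 k100 0 (.s k51
  k155 13 (.s k17 k34 4 (.d k153 k221 k204 9 14)))))) (.c k70 (.l (.s k68 k119 4 (.s k103 k100 0 (.s
  k51 k155 13 (.d k204 k153 k136 14 9))))) .n)))) .n)))))) (.c k86 (.q k252 [(.s k48 k116 9 (.d k255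
  k186 k170 10 14)), (.s k68 k119 4 (.s k136 k204 9 (.d k168 k152 k84 3 13)))] (.c k18 (.q k222 [(.s
  k48 k116 9 (.d k255 k186 k170 10 14)), (.s k68 k119 4 (.s k136 k204 9 (.d k168 k152 k84 3 13)))]
  (.c k33 (.l (.s k48 k116 9 (.d k255 k186 k170 10 14))) (.c k48 (.q k33 [(.s k68 k119 4 (.s k168
  k84 13 (.d k136 k152 k204 3 9))), (.s k170 k255 14 (.s k32 k239 10 (.d k34 k35 k238 0 9)))] (.c
  k71 (.l (.s k207 k237 4 (.s k68 k119 4 (.s k84 k168 13 (.d k100 k103 k116 0 3))))) (.c k207 (.q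
  k71 [(.s k119 k68 4 (.d k103 k100 k87 0 3)), (.s k170 k255 14 (.s k34 k238 9 (.d k32 k239 k35 10
  0)))] (.c k87 (.l (.s k68 k119 4 (.s k84 k168 13 (.d k100 k103 k116 0 3)))) .n)) .n))) (.c k71 (.l
  (.s k207 k237 4 (.s k48 k116 9 (.d k255 k186 k170 10 14)))) (.c k207 (.q k71 [(.s k48 k116 9 (.d
  k255 k186 k170 10 14)), (.s k103 k100 0 (.d k119 k87 k68 3 4))] (.c k33 (.l (.s k48 k116 9 (.d
  k255 k186 k170 10 14))) (.c k48 (.q k33 [(.s k119 k68 4 (.d k103 k100 k87 0 3)), (.s k170 k255 14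
  (.s k34 k238 9 (.d k32 k239 k35 10 0)))] (.c k87 (.l (.s k68 k119 4 (.s k84 k168 13 (.d k100 k103
  k116 0 3)))) .n)) .n))) .n))))) (.c k71 (.q k207 [(.s k48 k116 9 (.d k255 k186 k170 10 14)), (.s
  k68 k119 4 (.s k136 k204 9 (.d k168 k152 k84 3 13)))] (.c k18 (.l (.s k222 k237 4 (.s k48 k116 9
  (.d k255 k186 k170 10 14)))) (.c k68 (.q k70 [(.s k48 k116 9 (.d k255 k186 k170 10 14)), (.s k100
  k103 0 (.s k168 k84 13 (.s k32 k236 9 (.d k170 k239 k255 10 14)))), (.s k255 k170 14 (.d k48 k186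
  k116 10 9)), (.s k48 k116 9 (.s k32 k16 3 (.s k100 k103 0 (.d k168 k84 k236 13 9))))] (.c k18 (.l
  (.s k222 k237 4 (.s k48 k116 9 (.d k255 k186 k170 10 14)))) (.c k222 (.q k18 [(.s k48 k116 9 (.d
  k255 k186 k170 10 14)), (.s k100 k103 0 (.s k168 k84 13 (.s k32 k236 9 (.d k170 k239 k255 10
  14)))), (.s k255 k170 14 (.d k48 k186 k116 10 9)), (.s k48 k116 9 (.s k32 k16 3 (.s k100 k103 0
  (.d k168 k84 k236 13 9))))] .n) .n))) (.c k70 (.l (.s k68 k119 4 (.s k48 k116 9 (.d k255 k186 k170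
  10 14)))) (.c k222 (.q k18 [(.s k116 k48 9 (.d k119 k68 k118 4 0)), (.s k68 k119 4 (.s k136 k204 9
  (.d k168 k152 k84 3 13)))] (.c k68 (.q k70 [(.s k48 k116 9 (.d k255 k186 k170 10 14)), (.s k100
  k103 0 (.s k168 k84 13 (.s k32 k236 9 (.d k170 k239 k255 10 14)))), (.s k255 k170 14 (.d k48 k186
  k116 10 9)), (.s k48 k116 9 (.s k32 k16 3 (.s k100 k103 0 (.d k168 k84 k236 13 9))))] .n) (.c k70
  (.l (.s k68 k119 4 (.s k48 k116 9 (.d k255 k186 k170 10 14)))) (.c k119 (.l (.s k48 k116 9 (.d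
  k255 k186 k170 10 14))) .n)))) .n))))) (.c k207 (.q k71 [(.s k48 k116 9 (.d k255 k186 k170 10
  14)), (.s k103 k100 0 (.d k119 k87 k68 3 4))] (.c k18 (.q k222 [(.s k48 k116 9 (.d k255 k186 k170
  10 14)), (.s k103 k100 0 (.d k119 k87 k68 3 4))] (.c k33 (.l (.s k48 k116 9 (.d k255 k186 k170 10
  14))) (.c k48 (.q k33 [(.s k119 k68 4 (.d k103 k100 k87 0 3)), (.s k170 k255 14 (.s k34 k238 9 (.d
  k32 k239 k35 10 0)))] (.c k87 (.l (.s k68 k119 4 (.s k84 k168 13 (.d k100 k103 k116 0 3)))) .n))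
  .n))) (.c k222 (.q k18 [(.s k48 k116 9 (.d k255 k186 k170 10 14)), (.s k103 k100 0 (.d k119 k87
  k68 3 4))] .n) .n))) (.c k222 (.q k18 [(.s k48 k116 9 (.d k255 k186 k170 10 14)), (.s k68 k119 4
  (.s k136 k204 9 (.d k168 k152 k84 3 13)))] (.c k71 (.q k207 [(.s k116 k48 9 (.d k119 k68 k118 4
  0)), (.s k68 k119 4 (.s k136 k204 9 (.d k168 k152 k84 3 13)))] (.c k68 (.q k70 [(.s k48 k116 9 (.d
  k255 k186 k170 10 14)), (.s k100 k103 0 (.s k168 k84 13 (.s k32 k236 9 (.d k170 k239 k255 10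
  14)))), (.s k255 k170 14 (.d k48 k186 k116 10 9)), (.s k48 k116 9 (.s k32 k16 3 (.s k100 k103 0
  (.d k168 k84 k236 13 9))))] .n) (.c k70 (.l (.s k68 k119 4 (.s k48 k116 9 (.d k255 k186 k170 10
  14)))) (.c k119 (.l (.s k48 k116 9 (.d k255 k186 k170 10 14))) .n)))) (.c k207 (.q k71 [(.s k48
  k116 9 (.d k255 k186 k170 10 14)), (.s k103 k100 0 (.d k119 k87 k68 3 4))] .n) .n))) .n))))) (.c
  k207 (.q k71 [(.s k119 k68 4 (.d k116 k86 k118 4 0)), (.s k103 k100 0 (.d k119 k87 k68 3 4))] (.c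
  k68 (.l (.s k103 k100 0 (.s k87 k119 3 (.d k86 k84 k116 0 4)))) (.c k86 (.q k252 [(.s k48 k116 9
  (.d k255 k186 k170 10 14)), (.s k103 k100 0 (.d k119 k87 k68 3 4))] (.c k18 (.q k222 [(.s k48 k116
  9 (.d k255 k186 k170 10 14)), (.s k103 k100 0 (.d k119 k87 k68 3 4))] (.c k33 (.l (.s k48 k116 9
  (.d k255 k186 k170 10 14))) (.c k48 (.q k33 [(.s k119 k68 4 (.d k103 k100 k87 0 3)), (.s k170 k255
  14 (.s k34 k238 9 (.d k32 k239 k35 10 0)))] (.c k87 (.l (.s k68 k119 4 (.s k84 k168 13 (.d k100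
  k103 k116 0 3)))) .n)) .n))) (.c k222 (.q k18 [(.s k48 k116 9 (.d k255 k186 k170 10 14)), (.s k103
  k100 0 (.d k119 k87 k68 3 4))] .n) .n))) (.c k119 (.l (.s k100 k103 0 (.s k116 k86 4 (.s k252 k48
  9 (.d k84 k68 k168 3 13))))) (.c k252 (.l (.s k86 k116 4 (.s k87 k84 0 (.d k103 k100 k119 0 3))))
  .n))))) (.c k252 (.q k86 [(.s k119 k68 4 (.d k116 k71 k118 4 0)), (.s k100 k103 0 (.s k170 k255 14
  (.s k32 k239 10 (.s k48 k16 3 (.s k152 k204 13 (.d k168 k236 k136 9 3))))))] (.c k70 (.l (.s k68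
  k119 4 (.s k84 k87 0 (.d k100 k103 k116 0 3)))) (.c k71 (.q k207 [(.s k68 k119 4 (.s k103 k100 0
  (.s k204 k136 9 (.d k51 k155 k153 13 14)))), (.s k255 k170 14 (.s k186 k48 10 (.s k187 k185 0 (.d
  k119 k68 k51 4 9)))), (.s k103 k100 0 (.s k170 k255 14 (.s k34 k238 9 (.d k51 k17 k155 4 13))))]
  (.c k51 (.l (.s k68 k119 4 (.s k87 k84 0 (.s k100 k103 0 (.s k204 k136 9 (.s k48 k152 13 (.d k255
  k186 k170 10 14))))))) (.c k68 (.l (.s k70 k118 3 (.s k103 k100 0 (.s k51 k155 13 (.s k17 k34 4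
  (.d k153 k221 k204 9 14)))))) (.c k70 (.l (.s k68 k119 4 (.s k103 k100 0 (.s k51 k155 13 (.d k204
  k153 k136 14 9))))) .n)))) (.c k207 (.l (.s k71 k116 4 (.s k87 k84 0 (.d k103 k100 k119 0 3))))
  .n)))) .n)))))) (.c k184 (.q k139 [(.s k103 k100 0 (.s k119 k68 4 (.s k116 k118 0 (.d k71 k86 k87
  4 3)))), (.s k68 k119 4 (.s k204 k136 9 (.s k51 k153 14 (.s k34 k17 4 (.d k170 k238 k255 9
  14))))), (.s k100 k103 0 (.s k170 k255 14 (.s k32 k239 10 (.s k34 k238 9 (.s k48 k16 3 (.s k51 k17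
  4 (.d k204 k152 k153 13 14)))))))] (.c k86 (.q k252 [(.s k100 k103 0 (.s k168 k84 13 (.s k32 k236
  9 (.d k170 k239 k255 10 14)))), (.s k119 k68 4 (.s k255 k170 14 (.s k51 k187 9 (.d k118 k185 k116
  10 0)))), (.s k68 k119 4 (.s k100 k103 0 (.d k84 k116 k168 3 13)))] (.c k18 (.q k222 [(.s k100
  k103 0 (.s k168 k84 13 (.s k32 k236 9 (.d k170 k239 k255 10 14)))), (.s k119 k68 4 (.s k255 k170
  14 (.s k51 k187 9 (.d k118 k185 k116 10 0)))), (.s k68 k119 4 (.s k100 k103 0 (.d k84 k116 k168 3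
  13)))] (.c k33 (.q k48 [(.d k255 k186 k170 10 14), (.s k32 k16 3 (.s k100 k103 0 (.d k168 k236 k84
  9 13)))] .n) (.c k48 (.q k33 [(.s k68 k119 4 (.s k100 k103 0 (.d k84 k116 k168 3 13))), (.s k170
  k255 14 (.s k32 k239 10 (.d k34 k35 k238 0 9)))] (.c k87 (.l (.s k68 k119 4 (.s k84 k168 13 (.d
  k100 k103 k116 0 3)))) .n)) (.c k168 (.l (.s k119 k68 4 (.s k118 k116 0 (.s k51 k185 10 (.d k255
  k187 k170 9 14))))) .n)))) (.c k168 (.l (.s k119 k68 4 (.s k118 k116 0 (.s k51 k185 10 (.d k255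
  k187 k170 9 14))))) (.c k222 (.q k18 [(.s k100 k103 0 (.s k168 k84 13 (.s k32 k236 9 (.d k170 k239
  k255 10 14)))), (.s k119 k68 4 (.s k255 k170 14 (.s k51 k187 9 (.d k118 k185 k116 10 0)))), (.s
  k68 k119 4 (.s k100 k103 0 (.d k84 k116 k168 3 13)))] (.c k168 (.l (.s k119 k68 4 (.s k118 k116 0
  (.s k51 k185 10 (.d k255 k187 k170 9 14))))) .n)) .n)))) (.c k252 (.q k86 [(.s k116 k71 4 (.d k118
  k70 k119 3 0)), (.s k100 k103 0 (.s k170 k255 14 (.s k32 k239 10 (.s k34 k238 9 (.s k48 k16 3 (.s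
  k51 k17 4 (.d k204 k152 k153 13 14)))))))] (.c k48 (.l (.s k116 k71 4 (.d k118 k70 k119 3 0))) (.c
  k116 (.q k48 [(.d k255 k186 k170 10 14), (.s k68 k119 4 (.s k100 k103 0 (.d k204 k136 k152 9
  13)))] .n) .n))) .n))) (.c k252 (.q k86 [(.s k116 k71 4 (.d k118 k70 k119 3 0)), (.s k100 k103 0
  (.s k170 k255 14 (.s k32 k239 10 (.s k34 k238 9 (.s k48 k16 3 (.s k51 k17 4 (.d k204 k152 k153 13
  14)))))))] (.c k139 (.q k184 [(.s k119 k68 4 (.d k116 k71 k118 4 0)), (.s k100 k103 0 (.s k170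
  k255 14 (.s k32 k239 10 (.s k48 k16 3 (.s k152 k204 13 (.d k168 k236 k136 9 3))))))] (.c k70 (.l
  (.s k68 k119 4 (.s k84 k87 0 (.d k100 k103 k116 0 3)))) (.c k71 (.q k207 [(.s k68 k119 4 (.s k103
  k100 0 (.s k204 k136 9 (.d k51 k155 k153 13 14)))), (.s k255 k170 14 (.s k186 k48 10 (.s k187 k185
  0 (.d k119 k68 k51 4 9)))), (.s k103 k100 0 (.s k170 k255 14 (.s k34 k238 9 (.d k51 k17 k155 4
  13))))] (.c k51 (.l (.s k68 k119 4 (.s k87 k84 0 (.s k100 k103 0 (.s k204 k136 9 (.s k48 k152 13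
  (.d k255 k186 k170 10 14))))))) (.c k68 (.l (.s k70 k118 3 (.s k103 k100 0 (.s k51 k155 13 (.s k17
  k34 4 (.d k153 k221 k204 9 14)))))) (.c k70 (.l (.s k68 k119 4 (.s k103 k100 0 (.s k51 k155 13 (.d
  k204 k153 k136 14 9))))) .n)))) (.c k207 (.l (.s k71 k116 4 (.s k87 k84 0 (.d k103 k100 k119 0
  3)))) .n)))) (.c k184 (.q k139 [(.s k116 k71 4 (.d k118 k70 k119 3 0)), (.s k100 k103 0 (.s k170
  k255 14 (.s k32 k239 10 (.s k34 k238 9 (.s k48 k16 3 (.s k51 k17 4 (.d k204 k152 k153 13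
  14)))))))] (.c k48 (.l (.s k116 k71 4 (.d k118 k70 k119 3 0))) (.c k116 (.q k48 [(.d k255 k186
  k170 10 14), (.s k68 k119 4 (.s k100 k103 0 (.d k204 k136 k152 9 13)))] .n) .n))) (.c k207 (.l (.s
  k118 k70 3 (.d k116 k71 k119 4 0))) .n)))) .n)))))) (.c k170 (.f k69 k117 3 (.q k86 [(.s k87 k84 0
  (.s k71 k116 4 (.s k119 k103 3 (.d k68 k70 k102 0 4)))), (.s k84 k87 0 (.s k207 k138 10 (.s k154
  k48 14 (.s k16 k223 10 (.s k18 k222 9 (.s k19 k17 0 (.d k220 k152 k153 9 10))))))), (.s k71 k116 4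
  (.s k68 k70 0 (.s k204 k136 9 (.s k207 k138 10 (.s k154 k48 14 (.s k206 k205 0 (.d k102 k119 k50 4
  13)))))))] (.c k168 (.q k171 [(.s k87 k84 0 (.s k71 k116 4 (.s k119 k103 3 (.d k68 k70 k102 0
  4)))), (.s k84 k87 0 (.s k207 k138 10 (.s k154 k48 14 (.s k16 k223 10 (.s k18 k222 9 (.s k19 k17 0
  (.d k220 k152 k153 9 10))))))), (.s k71 k116 4 (.s k68 k70 0 (.s k204 k136 9 (.s k207 k138 10 (.s
  k154 k48 14 (.s k206 k205 0 (.d k102 k119 k50 4 13)))))))] .n) (.c k171 (.q k168 [(.d k84 k87 k252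
  0 13)] (.c k84 (.l (.s k71 k116 4 (.s k68 k70 0 (.s k204 k136 9 (.s k207 k138 10 (.s k154 k48 14
  (.s k206 k205 0 (.d k102 k119 k50 4 13)))))))) (.c k87 (.q k255 [(.s k207 k138 10 (.s k154 k48 14
  (.d k223 k239 k16 3 10))), (.s k71 k116 4 (.s k68 k70 0 (.s k204 k136 9 (.s k221 k238 4 (.s k153
  k17 9 (.d k102 k119 k51 4 14))))))] .n) (.c k252 (.l (.s k71 k116 4 (.s k68 k70 0 (.s k87 k84 0
  (.d k119 k103 k102 3 4))))) (.c k255 (.l (.s k87 k84 0 (.s k71 k116 4 (.s k68 k70 0 (.d k119 k103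
  k102 3 4))))) .n))))) .n)))) (.c k186 (.l (.s k69 k117 3 (.s k207 k138 10 (.s k48 k154 14 (.s k170
  k255 14 (.d k32 k16 k239 3 10)))))) (.c k207 (.q k125 [(.s k105 k65 5 (.s k117 k69 3 (.s k109 k97
  1 (.s k113 k121 1 (.d k77 k93 k89 3 5))))), (.s k105 k65 5 (.s k255 k170 14 (.s k60 k190 8 (.s k20
  k40 5 (.d k150 k215 k195 8 14))))), (.s k117 k69 3 (.s k113 k121 1 (.s k255 k170 14 (.s k48 k186
  10 (.s k243 k178 8 (.s k81 k162 12 (.d k89 k93 k77 1 5)))))))] (.c k71 (.q k139 [(.s k65 k105 5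
  (.s k69 k117 3 (.s k77 k73 1 (.s k89 k113 5 (.d k93 k81 k109 1 3))))), (.s k105 k65 5 (.s k255
  k170 14 (.s k60 k190 8 (.s k20 k40 5 (.d k150 k215 k195 8 14))))), (.s k117 k69 3 (.s k113 k121 1
  (.s k255 k170 14 (.s k48 k186 10 (.s k243 k178 8 (.s k81 k162 12 (.d k89 k93 k77 1 5)))))))] (.c
  k86 (.q k252 [(.s k105 k65 5 (.s k117 k69 3 (.s k109 k97 1 (.s k113 k121 1 (.d k77 k93 k89 3
  5))))), (.s k255 k170 14 (.s k60 k190 8 (.s k124 k188 7 (.s k126 k127 0 (.s k189 k63 8 (.d k253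
  k254 k61 0 7))))))] .n) (.c k252 (.q k86 [(.s k65 k105 5 (.s k69 k117 3 (.s k77 k73 1 (.s k89 k113
  5 (.d k93 k81 k109 1 3))))), (.s k84 k87 0 (.s k105 k65 5 (.s k124 k67 6 (.s k64 k104 5 (.d k127
  k126 k106 0 6))))), (.s k117 k69 3 (.s k113 k121 1 (.s k255 k170 14 (.s k48 k186 10 (.s k243 k178
  8 (.s k81 k162 12 (.d k89 k93 k77 1 5)))))))] (.c k222 (.q k237 [(.s k65 k105 5 (.s k69 k117 3 (.s
  k77 k73 1 (.s k89 k113 5 (.d k93 k81 k109 1 3))))), (.s k84 k87 0 (.s k105 k65 5 (.s k124 k67 6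
  (.s k64 k104 5 (.d k127 k126 k106 0 6))))), (.s k117 k69 3 (.s k113 k121 1 (.s k255 k170 14 (.s
  k48 k186 10 (.s k243 k178 8 (.s k81 k162 12 (.d k89 k93 k77 1 5)))))))] .n) (.c k237 (.q k222 [(.s
  k65 k105 5 (.s k69 k117 3 (.s k77 k73 1 (.s k89 k113 5 (.d k93 k81 k109 1 3))))), (.s k87 k84 0
  (.s k154 k18 9 (.s k223 k16 10 (.s k19 k155 9 (.d k220 k221 k153 0 10)))))] .n) .n))) .n))) (.c
  k86 (.q k252 [(.s k105 k65 5 (.s k117 k69 3 (.s k109 k97 1 (.s k113 k121 1 (.d k77 k93 k89 3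
  5))))), (.s k255 k170 14 (.s k60 k190 8 (.s k124 k188 7 (.s k126 k127 0 (.s k189 k63 8 (.d k253
  k254 k61 0 7))))))] (.c k71 (.q k139 [(.s k105 k65 5 (.s k117 k69 3 (.s k109 k97 1 (.s k113 k121 1
  (.d k77 k93 k89 3 5))))), (.s k255 k170 14 (.s k60 k190 8 (.s k124 k188 7 (.s k126 k127 0 (.s k189
  k63 8 (.d k253 k254 k61 0 7))))))] .n) (.c k139 (.q k71 [(.s k65 k105 5 (.s k69 k117 3 (.s k77 k73
  1 (.s k89 k113 5 (.d k93 k81 k109 1 3))))), (.s k69 k117 3 (.s k68 k70 0 (.s k84 k168 13 (.s k100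
  k116 3 (.d k102 k119 k103 4 0))))), (.s k105 k65 5 (.s k255 k170 14 (.s k60 k190 8 (.s k20 k40 5
  (.d k150 k215 k195 8 14)))))] (.c k154 (.q k184 [(.s k48 k116 9 (.s k32 k16 3 (.d k170 k239 k255
  10 14))), (.s k69 k117 3 (.s k68 k70 0 (.s k168 k84 13 (.d k136 k204 k152 9 3))))] (.c k18 (.q
  k222 [(.s k48 k116 9 (.s k117 k69 3 (.d k255 k186 k170 10 14))), (.s k69 k117 3 (.s k68 k70 0 (.s
  k168 k84 13 (.d k136 k204 k152 9 3)))), (.s k48 k116 9 (.s k32 k16 3 (.d k170 k239 k255 10 14)))]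
  (.c k33 (.l (.s k48 k116 9 (.s k32 k16 3 (.d k170 k239 k255 10 14)))) (.c k48 (.q k33 [(.s k69
  k117 3 (.s k68 k70 0 (.s k168 k84 13 (.d k136 k204 k152 9 3)))), (.s k65 k105 5 (.s k117 k69 3 (.s
  k113 k121 1 (.s k81 k97 3 (.d k89 k93 k77 1 5))))), (.s k105 k65 5 (.s k255 k170 14 (.s k60 k190 8
  (.s k20 k40 5 (.d k150 k215 k195 8 14)))))] .n) .n))) (.c k222 (.q k18 [(.s k48 k116 9 (.s k32 k16
  3 (.d k170 k239 k255 10 14))), (.s k69 k117 3 (.s k68 k70 0 (.s k168 k84 13 (.d k136 k204 k152 9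
  3))))] .n) .n))) (.c k184 (.q k154 [(.s k16 k223 10 (.s k32 k48 3 (.d k170 k239 k255 10 14))), (.s
  k65 k105 5 (.s k69 k117 3 (.s k77 k73 1 (.s k89 k113 5 (.d k93 k81 k109 1 3)))))] .n) .n))) .n)))
  (.c k139 (.q k71 [(.s k69 k117 3 (.s k68 k70 0 (.s k86 k116 4 (.s k87 k84 0 (.d k119 k103 k102 3
  4))))), (.s k105 k65 5 (.s k255 k170 14 (.s k60 k190 8 (.s k20 k40 5 (.d k150 k215 k195 8 14)))))]
  (.c k86 (.q k252 [(.s k65 k105 5 (.s k69 k117 3 (.s k77 k73 1 (.s k89 k113 5 (.d k93 k81 k109 1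
  3))))), (.s k69 k117 3 (.s k68 k70 0 (.s k84 k168 13 (.s k100 k116 3 (.d k102 k119 k103 4 0))))),
  (.s k105 k65 5 (.s k255 k170 14 (.s k60 k190 8 (.s k20 k40 5 (.d k150 k215 k195 8 14)))))] (.c
  k154 (.q k184 [(.s k48 k116 9 (.s k32 k16 3 (.d k170 k239 k255 10 14))), (.s k69 k117 3 (.s k68
  k70 0 (.s k168 k84 13 (.d k136 k204 k152 9 3))))] (.c k18 (.q k222 [(.s k48 k116 9 (.s k117 k69 3
  (.d k255 k186 k170 10 14))), (.s k69 k117 3 (.s k68 k70 0 (.s k168 k84 13 (.d k136 k204 k152 9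
  3)))), (.s k48 k116 9 (.s k32 k16 3 (.d k170 k239 k255 10 14)))] (.c k33 (.l (.s k48 k116 9 (.s
  k32 k16 3 (.d k170 k239 k255 10 14)))) (.c k48 (.q k33 [(.s k69 k117 3 (.s k68 k70 0 (.s k168 k84
  13 (.d k136 k204 k152 9 3)))), (.s k65 k105 5 (.s k117 k69 3 (.s k113 k121 1 (.s k81 k97 3 (.d k89
  k93 k77 1 5))))), (.s k105 k65 5 (.s k255 k170 14 (.s k60 k190 8 (.s k20 k40 5 (.d k150 k215 k195
  8 14)))))] .n) .n))) (.c k222 (.q k18 [(.s k48 k116 9 (.s k32 k16 3 (.d k170 k239 k255 10 14))),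
  (.s k69 k117 3 (.s k68 k70 0 (.s k168 k84 13 (.d k136 k204 k152 9 3))))] .n) .n))) (.c k184 (.q
  k154 [(.s k16 k223 10 (.s k32 k48 3 (.d k170 k239 k255 10 14))), (.s k65 k105 5 (.s k69 k117 3 (.s
  k77 k73 1 (.s k89 k113 5 (.d k93 k81 k109 1 3)))))] .n) .n))) (.c k154 (.q k184 [(.s k69 k117 3
  (.s k68 k70 0 (.s k86 k116 4 (.s k87 k84 0 (.d k119 k103 k102 3 4))))), (.s k105 k65 5 (.s k255
  k170 14 (.s k60 k190 8 (.s k20 k40 5 (.d k150 k215 k195 8 14)))))] (.c k86 (.q k252 [(.s k48 k116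
  9 (.s k32 k16 3 (.d k170 k239 k255 10 14))), (.s k69 k117 3 (.s k68 k70 0 (.s k168 k84 13 (.d k136
  k204 k152 9 3))))] (.c k18 (.q k222 [(.s k48 k116 9 (.s k117 k69 3 (.d k255 k186 k170 10 14))),
  (.s k69 k117 3 (.s k68 k70 0 (.s k168 k84 13 (.d k136 k204 k152 9 3)))), (.s k48 k116 9 (.s k32
  k16 3 (.d k170 k239 k255 10 14)))] (.c k33 (.l (.s k48 k116 9 (.s k32 k16 3 (.d k170 k239 k255 10
  14)))) (.c k48 (.q k33 [(.s k69 k117 3 (.s k68 k70 0 (.s k168 k84 13 (.d k136 k204 k152 9 3)))),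
  (.s k65 k105 5 (.s k117 k69 3 (.s k113 k121 1 (.s k81 k97 3 (.d k89 k93 k77 1 5))))), (.s k105 k65
  5 (.s k255 k170 14 (.s k60 k190 8 (.s k20 k40 5 (.d k150 k215 k195 8 14)))))] .n) .n))) (.c k222
  (.q k18 [(.s k48 k116 9 (.s k32 k16 3 (.d k170 k239 k255 10 14))), (.s k69 k117 3 (.s k68 k70 0
  (.s k168 k84 13 (.d k136 k204 k152 9 3))))] .n) .n))) (.c k252 (.l (.s k86 k116 4 (.s k69 k117 3
  (.s k68 k70 0 (.s k87 k84 0 (.d k119 k103 k102 3 4)))))) .n))) (.c k184 (.q k154 [(.s k16 k223 10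
  (.s k32 k48 3 (.d k170 k239 k255 10 14))), (.s k65 k105 5 (.s k69 k117 3 (.s k77 k73 1 (.s k89
  k113 5 (.d k93 k81 k109 1 3)))))] (.c k86 (.q k252 [(.s k16 k223 10 (.s k32 k48 3 (.d k170 k239
  k255 10 14))), (.s k65 k105 5 (.s k69 k117 3 (.s k77 k73 1 (.s k89 k113 5 (.d k93 k81 k109 1
  3)))))] .n) (.c k252 (.f k86 k116 4 (.q k48 [(.d k16 k32 k223 3 10), (.s k117 k69 3 (.d k255 k186
  k170 10 14))] (.c k222 (.q k237 [(.d k16 k32 k223 3 10), (.s k117 k69 3 (.d k255 k186 k170 10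
  14))] .n) (.c k237 (.l (.s k222 k18 9 (.d k16 k32 k223 3 10))) .n)))) .n))) (.c k252 (.l (.s k86
  k116 4 (.s k69 k117 3 (.s k68 k70 0 (.s k87 k84 0 (.d k119 k103 k102 3 4)))))) .n))))) (.c k252
  (.q k86 [(.s k65 k105 5 (.s k69 k117 3 (.s k77 k73 1 (.s k89 k113 5 (.d k93 k81 k109 1 3))))), (.s
  k69 k117 3 (.s k71 k116 4 (.s k68 k70 0 (.s k87 k84 0 (.d k119 k103 k102 3 4))))), (.s k84 k87 0
  (.s k105 k65 5 (.s k124 k67 6 (.s k64 k104 5 (.d k127 k126 k106 0 6)))))] (.c k71 (.q k139 [(.s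
  k65 k105 5 (.s k69 k117 3 (.s k77 k73 1 (.s k89 k113 5 (.d k93 k81 k109 1 3))))), (.s k84 k87 0
  (.s k105 k65 5 (.s k124 k67 6 (.s k64 k104 5 (.d k127 k126 k106 0 6))))), (.s k117 k69 3 (.s k113
  k121 1 (.s k255 k170 14 (.s k48 k186 10 (.s k243 k178 8 (.s k81 k162 12 (.d k89 k93 k77 1
  5)))))))] (.c k222 (.q k237 [(.s k65 k105 5 (.s k69 k117 3 (.s k77 k73 1 (.s k89 k113 5 (.d k93
  k81 k109 1 3))))), (.s k84 k87 0 (.s k105 k65 5 (.s k124 k67 6 (.s k64 k104 5 (.d k127 k126 k106 0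
  6))))), (.s k117 k69 3 (.s k113 k121 1 (.s k255 k170 14 (.s k48 k186 10 (.s k243 k178 8 (.s k81
  k162 12 (.d k89 k93 k77 1 5)))))))] .n) (.c k237 (.q k222 [(.s k65 k105 5 (.s k69 k117 3 (.s k77
  k73 1 (.s k89 k113 5 (.d k93 k81 k109 1 3))))), (.s k87 k84 0 (.s k154 k18 9 (.s k223 k16 10 (.s
  k19 k155 9 (.d k220 k221 k153 0 10)))))] .n) .n))) (.c k139 (.l (.s k71 k116 4 (.s k69 k117 3 (.s
  k68 k70 0 (.s k87 k84 0 (.d k119 k103 k102 3 4)))))) (.c k222 (.q k237 [(.s k65 k105 5 (.s k69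
  k117 3 (.s k77 k73 1 (.s k89 k113 5 (.d k93 k81 k109 1 3))))), (.s k69 k117 3 (.s k71 k116 4 (.s
  k68 k70 0 (.s k87 k84 0 (.d k119 k103 k102 3 4))))), (.s k84 k87 0 (.s k105 k65 5 (.s k124 k67 6
  (.s k64 k104 5 (.d k127 k126 k106 0 6)))))] (.c k71 (.q k139 [(.s k65 k105 5 (.s k69 k117 3 (.s
  k77 k73 1 (.s k89 k113 5 (.d k93 k81 k109 1 3))))), (.s k84 k87 0 (.s k105 k65 5 (.s k124 k67 6
  (.s k64 k104 5 (.d k127 k126 k106 0 6))))), (.s k117 k69 3 (.s k113 k121 1 (.s k255 k170 14 (.s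
  k48 k186 10 (.s k243 k178 8 (.s k81 k162 12 (.d k89 k93 k77 1 5)))))))] .n) (.c k139 (.l (.s k71
  k116 4 (.s k69 k117 3 (.s k68 k70 0 (.s k87 k84 0 (.d k119 k103 k102 3 4)))))) .n))) (.c k237 (.q
  k222 [(.s k65 k105 5 (.s k69 k117 3 (.s k77 k73 1 (.s k89 k113 5 (.d k93 k81 k109 1 3))))), (.s
  k69 k117 3 (.s k71 k116 4 (.s k68 k70 0 (.s k87 k84 0 (.d k119 k103 k102 3 4))))), (.s k84 k87 0
  (.s k105 k65 5 (.s k124 k67 6 (.s k64 k104 5 (.d k127 k126 k106 0 6)))))] (.c k71 (.q k139 [(.s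
  k65 k105 5 (.s k69 k117 3 (.s k77 k73 1 (.s k89 k113 5 (.d k93 k81 k109 1 3))))), (.s k87 k84 0
  (.s k154 k18 9 (.s k223 k16 10 (.s k19 k155 9 (.d k220 k221 k153 0 10)))))] .n) (.c k139 (.l (.s
  k71 k116 4 (.s k69 k117 3 (.s k68 k70 0 (.s k87 k84 0 (.d k119 k103 k102 3 4)))))) .n))) .n)))))
  .n))))) (.c k239 (.l (.s k117 k69 3 (.s k255 k170 14 (.s k48 k186 10 (.s k16 k32 3 (.d k154 k223
  k207 10 14)))))) (.c k252 (.q k86 [(.s k69 k117 3 (.s k207 k138 10 (.s k48 k154 14 (.s k32 k16 3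
  (.d k170 k239 k255 10 14))))), (.s k69 k117 3 (.s k71 k116 4 (.s k68 k70 0 (.s k87 k84 0 (.d k119
  k103 k102 3 4))))), (.s k84 k87 0 (.s k116 k71 4 (.s k68 k100 3 (.s k117 k69 3 (.d k119 k118 k102
  0 4)))))] (.c k69 (.q k4 [(.s k12 k8 1 (.s k166 k247 12 (.s k89 k243 14 (.s k93 k81 1 (.d k255
  k174 k170 12 14))))), (.s k84 k87 0 (.s k116 k71 4 (.s k244 k164 11 (.s k52 k180 7 (.s k20 k36 3
  (.d k150 k215 k199 8 12))))))] (.c k255 (.l (.s k87 k84 0 (.s k247 k166 12 (.s k7 k167 11 (.s k5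
  k6 0 (.d k165 k245 k244 11 12)))))) .n)) (.c k117 (.q k4 [(.s k12 k8 1 (.s k255 k170 14 (.s k93
  k174 12 (.s k89 k81 1 (.d k166 k247 k243 12 14))))), (.s k84 k87 0 (.s k116 k71 4 (.s k244 k164 11
  (.s k52 k180 7 (.s k20 k36 3 (.d k150 k215 k199 8 12)))))), (.s k87 k84 0 (.s k247 k166 12 (.s k7
  k167 11 (.s k5 k6 0 (.d k165 k245 k244 11 12)))))] .n) .n))) (.c k255 (.q k90 [(.s k69 k117 3 (.s
  k79 k112 6 (.s k64 k74 2 (.s k95 k80 2 (.d k127 k111 k106 3 6))))), (.s k69 k117 3 (.s k80 k95 2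
  (.s k207 k138 10 (.s k240 k160 11 (.s k218 k229 6 (.d k154 k48 k26 14 7)))))), (.s k80 k95 2 (.s
  k112 k79 6 (.s k240 k160 11 (.s k48 k176 7 (.s k16 k32 3 (.d k154 k223 k207 10 14)))))), (.s k69
  k117 3 (.s k79 k112 6 (.s k207 k138 10 (.s k15 k143 7 (.s k5 k10 2 (.d k165 k245 k240 11 14))))))]
  (.c k48 (.l (.s k79 k112 6 (.s k95 k80 2 (.s k127 k111 3 (.s k64 k106 6 (.d k69 k74 k117 2 3))))))
  (.c k86 (.q k252 [(.s k69 k117 3 (.s k79 k112 6 (.s k64 k74 2 (.s k95 k80 2 (.d k127 k111 k106 3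
  6))))), (.s k80 k95 2 (.s k84 k168 13 (.s k88 k92 1 (.s k240 k160 11 (.s k164 k12 13 (.d k244 k248
  k4 1 11)))))), (.s k69 k117 3 (.s k79 k112 6 (.s k207 k138 10 (.s k15 k143 7 (.s k5 k10 2 (.d k165
  k245 k240 11 14))))))] (.c k87 (.q k171 [(.s k69 k117 3 (.s k79 k112 6 (.s k64 k74 2 (.s k95 k80 2
  (.d k127 k111 k106 3 6))))), (.s k80 k95 2 (.s k84 k168 13 (.s k88 k92 1 (.s k240 k160 11 (.s k164
  k12 13 (.d k244 k248 k4 1 11)))))), (.s k69 k117 3 (.s k79 k112 6 (.s k207 k138 10 (.s k15 k143 7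
  (.s k5 k10 2 (.d k165 k245 k240 11 14))))))] .n) (.c k171 (.q k87 [(.s k69 k117 3 (.s k79 k112 6
  (.s k64 k74 2 (.s k95 k80 2 (.d k127 k111 k106 3 6))))), (.s k79 k112 6 (.s k95 k80 2 (.s k91 k83
  1 (.s k103 k115 5 (.s k102 k100 0 (.d k119 k71 k68 3 4)))))), (.s k69 k117 3 (.s k80 k95 2 (.s
  k207 k138 10 (.s k240 k160 11 (.s k218 k229 6 (.d k154 k48 k26 14 7)))))), (.s k69 k117 3 (.s k79
  k112 6 (.s k207 k138 10 (.s k15 k143 7 (.s k5 k10 2 (.d k165 k245 k240 11 14))))))] (.c k168 (.q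
  k170 [(.s k10 k250 11 (.s k15 k5 2 (.s k80 k95 2 (.d k240 k160 k165 11 14)))), (.s k32 k239 10 (.s
  k48 k16 3 (.s k69 k117 3 (.d k207 k138 k154 10 14))))] .n) (.c k170 (.l (.s k168 k84 13 (.s k69
  k117 3 (.s k79 k112 6 (.s k64 k74 2 (.s k95 k80 2 (.d k127 k111 k106 3 6))))))) .n))) .n))) (.c
  k87 (.q k171 [(.s k69 k117 3 (.s k79 k112 6 (.s k64 k74 2 (.s k95 k80 2 (.d k127 k111 k106 3
  6))))), (.s k69 k117 3 (.s k80 k95 2 (.s k207 k138 10 (.s k240 k160 11 (.s k218 k229 6 (.d k154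
  k48 k26 14 7)))))), (.s k80 k95 2 (.s k112 k79 6 (.s k240 k160 11 (.s k48 k176 7 (.s k16 k32 3 (.d
  k154 k223 k207 10 14)))))), (.s k69 k117 3 (.s k79 k112 6 (.s k207 k138 10 (.s k15 k143 7 (.s k5
  k10 2 (.d k165 k245 k240 11 14))))))] (.c k48 (.l (.s k79 k112 6 (.s k95 k80 2 (.s k127 k111 3 (.s
  k64 k106 6 (.d k69 k74 k117 2 3)))))) (.c k86 (.q k252 [(.s k69 k117 3 (.s k79 k112 6 (.s k64 k74
  2 (.s k95 k80 2 (.d k127 k111 k106 3 6))))), (.s k80 k95 2 (.s k84 k168 13 (.s k88 k92 1 (.s k240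
  k160 11 (.s k164 k12 13 (.d k244 k248 k4 1 11)))))), (.s k69 k117 3 (.s k79 k112 6 (.s k207 k138
  10 (.s k15 k143 7 (.s k5 k10 2 (.d k165 k245 k240 11 14))))))] .n) (.c k252 (.q k86 [(.s k69 k117
  3 (.s k79 k112 6 (.s k64 k74 2 (.s k95 k80 2 (.d k127 k111 k106 3 6))))), (.s k79 k112 6 (.s k94
  k82 1 (.s k124 k109 4 (.s k67 k105 6 (.d k71 k75 k116 1 4))))), (.s k69 k117 3 (.s k80 k95 2 (.s
  k207 k138 10 (.s k240 k160 11 (.s k218 k229 6 (.d k154 k48 k26 14 7))))))] (.c k253 (.q k254 [(.s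
  k69 k117 3 (.s k79 k112 6 (.s k64 k74 2 (.s k95 k80 2 (.d k127 k111 k106 3 6))))), (.s k2 k170 13
  (.s k80 k95 2 (.s k82 k94 1 (.s k162 k242 11 (.d k81 k83 k243 0 12))))), (.s k2 k170 13 (.s k69
  k117 3 (.s k71 k116 4 (.s k70 k68 0 (.d k138 k206 k207 9 10)))))] .n) (.c k254 (.q k253 [(.s k69
  k117 3 (.s k79 k112 6 (.s k64 k74 2 (.s k95 k80 2 (.d k127 k111 k106 3 6))))), (.s k79 k112 6 (.s
  k94 k82 1 (.s k124 k109 4 (.s k67 k105 6 (.d k71 k75 k116 1 4))))), (.s k69 k117 3 (.s k80 k95 2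
  (.s k207 k138 10 (.s k240 k160 11 (.s k218 k229 6 (.d k154 k48 k26 14 7))))))] .n) .n))) .n))))
  (.c k171 (.q k87 [(.s k69 k117 3 (.s k79 k112 6 (.s k64 k74 2 (.s k95 k80 2 (.d k127 k111 k106 3
  6))))), (.s k86 k84 0 (.s k94 k82 1 (.s k95 k80 2 (.s k83 k91 1 (.d k92 k93 k89 0 2))))), (.s k69
  k117 3 (.s k86 k84 0 (.s k71 k116 4 (.s k68 k70 0 (.d k119 k103 k102 3 4)))))] (.c k86 (.q k252
  [(.s k69 k117 3 (.s k79 k112 6 (.s k64 k74 2 (.s k95 k80 2 (.d k127 k111 k106 3 6))))), (.s k79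
  k112 6 (.s k95 k80 2 (.s k91 k83 1 (.s k103 k115 5 (.s k102 k100 0 (.d k119 k71 k68 3 4)))))), (.s
  k69 k117 3 (.s k80 k95 2 (.s k207 k138 10 (.s k240 k160 11 (.s k218 k229 6 (.d k154 k48 k26 14
  7)))))), (.s k69 k117 3 (.s k79 k112 6 (.s k207 k138 10 (.s k15 k143 7 (.s k5 k10 2 (.d k165 k245
  k240 11 14))))))] (.c k168 (.q k170 [(.s k10 k250 11 (.s k15 k5 2 (.s k80 k95 2 (.d k240 k160 k165
  11 14)))), (.s k32 k239 10 (.s k48 k16 3 (.s k69 k117 3 (.d k207 k138 k154 10 14))))] .n) (.c k170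
  (.l (.s k168 k84 13 (.s k69 k117 3 (.s k79 k112 6 (.s k64 k74 2 (.s k95 k80 2 (.d k127 k111 k106 3
  6))))))) .n))) (.c k168 (.q k170 [(.s k10 k250 11 (.s k15 k5 2 (.s k80 k95 2 (.d k240 k160 k165 11
  14)))), (.s k32 k239 10 (.s k48 k16 3 (.s k69 k117 3 (.d k207 k138 k154 10 14))))] (.c k86 (.q
  k252 [(.s k10 k250 11 (.s k15 k5 2 (.s k80 k95 2 (.d k240 k160 k165 11 14)))), (.s k32 k239 10 (.s
  k48 k16 3 (.s k69 k117 3 (.d k207 k138 k154 10 14))))] .n) (.c k252 (.l (.s k86 k84 0 (.s k10 k250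
  11 (.s k15 k5 2 (.s k80 k95 2 (.d k240 k160 k165 11 14)))))) .n))) (.c k170 (.q k168 [(.d k84 k86
  k252 0 13)] (.c k84 (.l (.s k69 k117 3 (.s k79 k112 6 (.s k64 k74 2 (.s k95 k80 2 (.d k127 k111
  k106 3 6)))))) (.c k86 (.l (.s k252 k84 13 (.s k69 k117 3 (.s k79 k112 6 (.s k64 k74 2 (.s k95 k80
  2 (.d k127 k111 k106 3 6))))))) (.c k252 (.l (.s k86 k84 0 (.s k69 k117 3 (.s k71 k116 4 (.s k68
  k70 0 (.d k119 k103 k102 3 4)))))) .n)))) (.c k252 (.l (.s k86 k84 0 (.s k69 k117 3 (.s k71 k116 4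
  (.s k68 k70 0 (.d k119 k103 k102 3 4)))))) .n))))) (.c k252 (.q k86 [(.s k69 k117 3 (.s k79 k112 6
  (.s k64 k74 2 (.s k95 k80 2 (.d k127 k111 k106 3 6))))), (.s k79 k112 6 (.s k94 k82 1 (.s k124
  k109 4 (.s k67 k105 6 (.d k71 k75 k116 1 4))))), (.s k69 k117 3 (.s k71 k116 4 (.s k68 k70 0 (.s
  k87 k84 0 (.d k119 k103 k102 3 4)))))] (.c k87 (.q k171 [(.s k69 k117 3 (.s k79 k112 6 (.s k64 k74
  2 (.s k95 k80 2 (.d k127 k111 k106 3 6))))), (.s k79 k112 6 (.s k94 k82 1 (.s k124 k109 4 (.s k67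
  k105 6 (.d k71 k75 k116 1 4))))), (.s k69 k117 3 (.s k80 k95 2 (.s k207 k138 10 (.s k240 k160 11
  (.s k218 k229 6 (.d k154 k48 k26 14 7))))))] (.c k253 (.q k254 [(.s k69 k117 3 (.s k79 k112 6 (.s
  k64 k74 2 (.s k95 k80 2 (.d k127 k111 k106 3 6))))), (.s k2 k170 13 (.s k80 k95 2 (.s k82 k94 1
  (.s k162 k242 11 (.d k81 k83 k243 0 12))))), (.s k2 k170 13 (.s k69 k117 3 (.s k71 k116 4 (.s k70
  k68 0 (.d k138 k206 k207 9 10)))))] .n) (.c k254 (.q k253 [(.s k69 k117 3 (.s k79 k112 6 (.s k64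
  k74 2 (.s k95 k80 2 (.d k127 k111 k106 3 6))))), (.s k79 k112 6 (.s k94 k82 1 (.s k124 k109 4 (.s
  k67 k105 6 (.d k71 k75 k116 1 4))))), (.s k69 k117 3 (.s k80 k95 2 (.s k207 k138 10 (.s k240 k160
  11 (.s k218 k229 6 (.d k154 k48 k26 14 7))))))] .n) .n))) (.c k171 (.l (.s k87 k84 0 (.s k69 k117
  3 (.s k71 k116 4 (.s k68 k70 0 (.d k119 k103 k102 3 4)))))) (.c k253 (.q k254 [(.s k69 k117 3 (.s
  k71 k116 4 (.s k68 k70 0 (.s k87 k84 0 (.d k119 k103 k102 3 4))))), (.s k2 k170 13 (.s k80 k95 2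
  (.s k82 k94 1 (.s k81 k83 0 (.d k162 k243 k242 12 11)))))] (.c k87 (.q k171 [(.s k69 k117 3 (.s
  k79 k112 6 (.s k64 k74 2 (.s k95 k80 2 (.d k127 k111 k106 3 6))))), (.s k2 k170 13 (.s k80 k95 2
  (.s k82 k94 1 (.s k162 k242 11 (.d k81 k83 k243 0 12))))), (.s k2 k170 13 (.s k69 k117 3 (.s k71
  k116 4 (.s k70 k68 0 (.d k138 k206 k207 9 10)))))] .n) (.c k171 (.l (.s k87 k84 0 (.s k69 k117 3
  (.s k71 k116 4 (.s k68 k70 0 (.d k119 k103 k102 3 4)))))) .n))) (.c k254 (.q k253 [(.s k69 k117 3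
  (.s k79 k112 6 (.s k64 k74 2 (.s k95 k80 2 (.d k127 k111 k106 3 6))))), (.s k79 k112 6 (.s k94 k82
  1 (.s k124 k109 4 (.s k67 k105 6 (.d k71 k75 k116 1 4))))), (.s k69 k117 3 (.s k71 k116 4 (.s k68
  k70 0 (.s k87 k84 0 (.d k119 k103 k102 3 4)))))] (.c k87 (.q k171 [(.s k69 k117 3 (.s k79 k112 6
  (.s k64 k74 2 (.s k95 k80 2 (.d k127 k111 k106 3 6))))), (.s k79 k112 6 (.s k94 k82 1 (.s k124
  k109 4 (.s k67 k105 6 (.d k71 k75 k116 1 4))))), (.s k69 k117 3 (.s k80 k95 2 (.s k207 k138 10 (.s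
  k240 k160 11 (.s k218 k229 6 (.d k154 k48 k26 14 7))))))] .n) (.c k171 (.l (.s k87 k84 0 (.s k69
  k117 3 (.s k71 k116 4 (.s k68 k70 0 (.d k119 k103 k102 3 4)))))) .n))) .n))))) .n))))))
  .n))))))))))))))

def t3_171 : T TT 256 :=
  (.q k20 [(.s k60 k40 5 (.s k150 k215 8 (.s k195 k105 14 (.s k130 k65 8 (.d k170 k255 k190 14
  5)))))] (.c k40 (.q k247 [(.s k4 k166 12 (.s k150 k215 8 (.s k52 k36 3 (.s k101 k199 12 (.d k117
  k69 k182 3 8))))), (.s k166 k4 12 (.s k255 k170 14 (.s k243 k251 1 (.s k81 k162 12 (.d k89 k93 k12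
  1 14))))), (.s k215 k150 8 (.s k231 k199 3 (.s k255 k170 14 (.s k235 k195 5 (.s k239 k227 1 (.s
  k207 k223 3 (.d k243 k251 k219 1 5)))))))] (.c k87 (.l (.s k255 k170 14 (.s k166 k4 12 (.s k243
  k251 1 (.s k81 k162 12 (.d k89 k93 k12 1 14)))))) (.c k255 (.q k87 [(.s k4 k166 12 (.s k7 k167 11
  (.s k86 k84 0 (.s k165 k244 12 (.d k5 k6 k245 0 11))))), (.s k86 k84 0 (.s k215 k150 8 (.s k23
  k151 7 (.s k21 k22 0 (.d k149 k213 k212 7 8))))), (.s k4 k166 12 (.s k52 k36 3 (.s k117 k182 8 (.s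
  k101 k69 3 (.d k150 k215 k199 8 12)))))] .n) .n))) (.c k60 (.q k22 [(.s k23 k21 0 (.s k150 k215 8
  (.s k86 k214 7 (.s k212 k149 8 (.d k84 k87 k148 0 7))))), (.s k255 k170 14 (.s k21 k23 0 (.s k63
  k42 6 (.s k127 k191 7 (.s k106 k64 6 (.d k149 k213 k192 7 14))))))] (.c k21 (.f k150 k215 8 (.l
  (.s k86 k214 7 (.s k87 k84 0 (.s k170 k255 14 (.s k2 k254 13 (.s k62 k42 5 (.s k194 k106 13 (.d
  k130 k190 k66 5 7))))))))) (.c k23 (.f k150 k215 8 (.l (.s k86 k214 7 (.s k87 k84 0 (.s k170 k255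
  14 (.s k2 k254 13 (.s k62 k42 5 (.s k194 k106 13 (.d k130 k190 k66 5 7))))))))) (.c k87 (.l (.s
  k255 k170 14 (.s k21 k23 0 (.s k63 k42 6 (.s k127 k191 7 (.s k106 k64 6 (.d k149 k213 k192 7
  14))))))) (.c k149 (.l (.s k21 k23 0 (.s k150 k215 8 (.s k86 k214 7 (.s k87 k84 0 (.s k170 k255 14
  (.s k2 k254 13 (.d k42 k63 k62 6 5)))))))) (.c k213 (.l (.s k23 k21 0 (.s k150 k215 8 (.s k86 k214
  7 (.s k212 k149 8 (.d k84 k87 k148 0 7)))))) (.c k255 (.q k87 [(.s k23 k21 0 (.d k215 k151 k150 7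
  8)), (.s k86 k84 0 (.d k150 k214 k215 7 8)), (.s k21 k23 0 (.s k63 k42 6 (.s k84 k86 0 (.s k149
  k213 7 (.s k192 k106 14 (.s k212 k148 7 (.d k252 k232 k168 5 13)))))))] (.c k125 (.q k190 [(.s k23
  k21 0 (.d k215 k151 k150 7 8)), (.s k86 k84 0 (.d k150 k214 k215 7 8)), (.s k21 k23 0 (.s k63 k42
  6 (.s k84 k86 0 (.s k149 k213 7 (.s k192 k106 14 (.s k212 k148 7 (.d k252 k232 k168 5 13)))))))]
  .n) (.c k190 (.q k125 [(.s k23 k21 0 (.d k215 k151 k150 7 8)), (.s k86 k84 0 (.d k150 k214 k215 7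
  8)), (.s k21 k23 0 (.s k105 k65 5 (.s k149 k213 7 (.s k61 k193 13 (.s k1 k41 5 (.d k253 k189 k169
  7 13))))))] .n) .n))) .n))))))) (.c k65 (.q k84 [(.s k212 k148 7 (.s k215 k150 8 (.s k213 k214 0
  (.s k149 k21 7 (.d k86 k87 k23 0 8))))), (.s k60 k40 5 (.s k148 k212 7 (.s k104 k192 13 (.s k124
  k64 5 (.d k252 k188 k168 7 13))))), (.s k60 k40 5 (.s k150 k215 8 (.s k195 k105 14 (.s k252 k168
  13 (.s k214 k233 6 (.d k86 k87 k22 0 7))))))] (.c k87 (.l (.s k255 k170 14 (.s k60 k40 5 (.s k148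
  k212 7 (.s k104 k192 13 (.s k124 k64 5 (.d k252 k168 k188 13 7))))))) (.c k255 (.l (.s k87 k86 0
  (.s k60 k40 5 (.s k148 k212 7 (.s k104 k192 13 (.s k124 k64 5 (.d k252 k188 k168 7 13))))))) .n)))
  (.c k87 (.l (.s k255 k170 14 (.s k60 k40 5 (.s k125 k190 8 (.s k105 k65 5 (.d k150 k215 k195 8
  14)))))) (.c k105 (.q k84 [(.s k212 k148 7 (.s k215 k150 8 (.s k213 k214 0 (.s k149 k21 7 (.d k86
  k87 k23 0 8))))), (.s k60 k40 5 (.s k148 k212 7 (.s k104 k192 13 (.s k124 k64 5 (.d k252 k188 k168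
  7 13))))), (.s k60 k40 5 (.s k150 k215 8 (.s k252 k168 13 (.s k188 k124 7 (.s k169 k131 6 (.s k253
  k1 13 (.d k255 k170 k254 14 0)))))))] (.c k60 (.l (.s k86 k87 0 (.s k255 k170 14 (.s k150 k215 8
  (.s k22 k214 7 (.s k23 k21 0 (.d k212 k148 k149 7 8))))))) (.c k87 (.l (.s k255 k170 14 (.s k148
  k212 7 (.s k168 k252 13 (.s k128 k188 5 (.s k192 k64 7 (.d k60 k40 k104 5 13))))))) (.c k255 (.l
  (.s k87 k86 0 (.s k60 k40 5 (.s k148 k212 7 (.s k104 k192 13 (.s k124 k64 5 (.d k252 k188 k168 7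
  13))))))) .n)))) (.c k130 (.l (.s k60 k40 5 (.s k150 k215 8 (.s k105 k195 14 (.s k125 k65 5 (.d
  k255 k190 k170 8 14)))))) (.c k150 (.q k4 [(.s k12 k8 1 (.s k166 k247 12 (.s k89 k243 14 (.s k93
  k81 1 (.d k255 k174 k170 12 14))))), (.s k12 k8 1 (.s k36 k52 3 (.s k24 k48 5 (.s k28 k16 1 (.d
  k60 k44 k40 3 5))))), (.s k36 k52 3 (.s k40 k60 5 (.s k44 k32 1 (.s k166 k247 12 (.s k105 k227 10
  (.d k170 k255 k235 14 8))))))] (.c k87 (.l (.s k255 k170 14 (.s k12 k8 1 (.s k93 k174 12 (.s k89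
  k81 1 (.d k166 k247 k243 12 14)))))) (.c k255 (.q k87 [(.s k12 k8 1 (.s k60 k40 5 (.s k28 k44 3
  (.s k24 k16 1 (.d k36 k52 k48 3 5))))), (.s k86 k84 0 (.s k247 k166 12 (.s k7 k167 11 (.s k165
  k244 12 (.d k5 k6 k245 0 11)))))] .n) .n))) (.c k170 (.q k4 [(.s k52 k36 3 (.s k150 k215 8 (.s
  k101 k199 12 (.s k117 k69 3 (.d k247 k182 k166 8 12))))), (.s k12 k8 1 (.s k36 k52 3 (.s k24 k48 5
  (.s k28 k16 1 (.d k60 k44 k40 3 5))))), (.s k12 k8 1 (.s k60 k40 5 (.s k44 k28 3 (.s k150 k215 8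
  (.s k105 k195 14 (.d k166 k227 k247 10 12))))))] (.c k87 (.q k255 [(.s k12 k8 1 (.s k93 k174 12
  (.s k89 k81 1 (.d k166 k247 k243 12 14)))), (.s k60 k40 5 (.s k125 k190 8 (.s k105 k65 5 (.d k150
  k215 k195 8 14))))] (.c k168 (.q k169 [(.s k12 k8 1 (.s k93 k174 12 (.s k89 k81 1 (.d k166 k247
  k243 12 14)))), (.s k60 k40 5 (.s k125 k190 8 (.s k105 k65 5 (.d k150 k215 k195 8 14))))] .n) (.c
  k169 (.q k168 [(.s k12 k8 1 (.s k93 k174 12 (.s k89 k81 1 (.d k166 k247 k243 12 14)))), (.s k60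
  k40 5 (.s k125 k190 8 (.s k105 k65 5 (.d k150 k215 k195 8 14))))] (.c k86 (.l (.s k252 k84 13 (.s
  k12 k8 1 (.s k93 k174 12 (.s k89 k81 1 (.d k166 k247 k243 12 14)))))) (.c k252 (.q k86 [(.s k12 k8
  1 (.s k93 k174 12 (.s k89 k81 1 (.d k166 k247 k243 12 14)))), (.s k60 k40 5 (.s k125 k190 8 (.s
  k105 k65 5 (.d k150 k215 k195 8 14))))] .n) .n))) .n))) (.c k168 (.q k169 [(.s k52 k36 3 (.s k150
  k215 8 (.s k101 k199 12 (.s k117 k69 3 (.d k247 k182 k166 8 12))))), (.s k12 k8 1 (.s k36 k52 3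
  (.s k24 k48 5 (.s k28 k16 1 (.d k60 k44 k40 3 5))))), (.s k12 k8 1 (.s k60 k40 5 (.s k44 k28 3 (.s
  k150 k215 8 (.s k105 k195 14 (.d k166 k227 k247 10 12))))))] (.c k87 (.q k255 [(.s k12 k8 1 (.s
  k93 k174 12 (.s k89 k81 1 (.d k166 k247 k243 12 14)))), (.s k60 k40 5 (.s k125 k190 8 (.s k105 k65
  5 (.d k150 k215 k195 8 14))))] .n) (.c k255 (.q k87 [(.s k52 k36 3 (.s k150 k215 8 (.s k101 k199
  12 (.s k117 k69 3 (.d k247 k182 k166 8 12))))), (.s k12 k8 1 (.s k36 k52 3 (.s k40 k60 5 (.s k32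
  k44 1 (.d k48 k16 k24 3 5))))), (.s k86 k84 0 (.s k215 k150 8 (.s k23 k151 7 (.s k21 k22 0 (.d
  k149 k213 k212 7 8)))))] .n) .n))) (.c k169 (.q k168 [(.s k52 k36 3 (.s k150 k215 8 (.s k101 k199
  12 (.s k117 k69 3 (.d k247 k182 k166 8 12))))), (.s k12 k8 1 (.s k36 k52 3 (.s k24 k48 5 (.s k28
  k16 1 (.d k60 k44 k40 3 5))))), (.s k12 k8 1 (.s k60 k40 5 (.s k44 k28 3 (.s k150 k215 8 (.s k105
  k195 14 (.d k166 k227 k247 10 12))))))] (.c k86 (.l (.s k252 k84 13 (.s k12 k8 1 (.s k36 k52 3 (.s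
  k24 k48 5 (.s k28 k16 1 (.d k60 k44 k40 3 5))))))) (.c k87 (.q k255 [(.s k12 k8 1 (.s k93 k174 12
  (.s k89 k81 1 (.d k166 k247 k243 12 14)))), (.s k60 k40 5 (.s k125 k190 8 (.s k105 k65 5 (.d k150
  k215 k195 8 14))))] (.c k86 (.l (.s k252 k84 13 (.s k12 k8 1 (.s k93 k174 12 (.s k89 k81 1 (.d
  k166 k247 k243 12 14)))))) (.c k252 (.q k86 [(.s k12 k8 1 (.s k93 k174 12 (.s k89 k81 1 (.d k166
  k247 k243 12 14)))), (.s k60 k40 5 (.s k125 k190 8 (.s k105 k65 5 (.d k150 k215 k195 8 14))))] .n)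
  .n))) (.c k252 (.q k86 [(.s k52 k36 3 (.s k150 k215 8 (.s k101 k199 12 (.s k117 k69 3 (.d k247
  k182 k166 8 12))))), (.s k12 k8 1 (.s k36 k52 3 (.s k24 k48 5 (.s k28 k16 1 (.d k60 k44 k40 3
  5))))), (.s k87 k84 0 (.s k215 k150 8 (.s k23 k151 7 (.s k21 k22 0 (.d k149 k213 k212 7 8)))))]
  (.c k87 (.q k255 [(.s k12 k8 1 (.s k93 k174 12 (.s k89 k81 1 (.d k166 k247 k243 12 14)))), (.s k60
  k40 5 (.s k125 k190 8 (.s k105 k65 5 (.d k150 k215 k195 8 14))))] .n) (.c k255 (.l (.s k87 k84 0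
  (.s k215 k150 8 (.s k23 k151 7 (.s k21 k22 0 (.d k149 k213 k212 7 8)))))) .n))) (.c k255 (.q k87
  [(.d k84 k86 k252 0 13)] (.c k84 (.l (.s k12 k8 1 (.s k36 k52 3 (.s k24 k48 5 (.s k28 k16 1 (.d
  k60 k44 k40 3 5)))))) (.c k86 (.l (.s k252 k84 13 (.s k12 k8 1 (.s k36 k52 3 (.s k24 k48 5 (.s k28
  k16 1 (.d k60 k44 k40 3 5))))))) (.c k252 (.l (.s k86 k84 0 (.s k215 k150 8 (.s k23 k151 7 (.s k21
  k22 0 (.d k149 k213 k212 7 8)))))) .n)))) .n))))) (.c k255 (.q k87 [(.s k52 k36 3 (.s k150 k215 8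
  (.s k101 k199 12 (.s k117 k69 3 (.d k247 k182 k166 8 12))))), (.s k12 k8 1 (.s k36 k52 3 (.s k40
  k60 5 (.s k32 k44 1 (.d k48 k16 k24 3 5))))), (.s k86 k84 0 (.s k215 k150 8 (.s k23 k151 7 (.s k21
  k22 0 (.d k149 k213 k212 7 8)))))] (.c k168 (.q k169 [(.s k52 k36 3 (.s k150 k215 8 (.s k101 k199
  12 (.s k117 k69 3 (.d k247 k182 k166 8 12))))), (.s k12 k8 1 (.s k36 k52 3 (.s k40 k60 5 (.s k32
  k44 1 (.d k48 k16 k24 3 5))))), (.s k86 k84 0 (.s k215 k150 8 (.s k23 k151 7 (.s k21 k22 0 (.d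
  k149 k213 k212 7 8)))))] .n) (.c k169 (.q k168 [(.d k84 k86 k252 0 13)] (.c k84 (.l (.s k12 k8 1
  (.s k36 k52 3 (.s k24 k48 5 (.s k28 k16 1 (.d k60 k44 k40 3 5)))))) (.c k86 (.l (.s k252 k84 13
  (.s k12 k8 1 (.s k36 k52 3 (.s k24 k48 5 (.s k28 k16 1 (.d k60 k44 k40 3 5))))))) (.c k252 (.l (.s
  k86 k84 0 (.s k215 k150 8 (.s k23 k151 7 (.s k21 k22 0 (.d k149 k213 k212 7 8)))))) .n)))) .n)))
  .n))))) (.c k190 (.q k84 [(.s k60 k40 5 (.s k148 k212 7 (.s k104 k192 13 (.s k124 k64 5 (.d k252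
  k188 k168 7 13))))), (.s k212 k148 7 (.s k215 k150 8 (.s k213 k214 0 (.s k149 k21 7 (.d k86 k87
  k23 0 8))))), (.s k60 k40 5 (.s k150 k215 8 (.s k195 k105 14 (.s k252 k168 13 (.s k214 k233 6 (.d
  k86 k87 k22 0 7))))))] (.c k87 (.l (.s k255 k170 14 (.s k60 k40 5 (.s k148 k212 7 (.s k104 k192 13
  (.s k124 k64 5 (.d k252 k168 k188 13 7))))))) (.c k255 (.l (.s k87 k86 0 (.s k60 k40 5 (.s k148
  k212 7 (.s k104 k192 13 (.s k124 k64 5 (.d k252 k188 k168 7 13))))))) .n))) (.c k195 (.q k63 [(.s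
  k21 k42 6 (.s k149 k213 7 (.s k192 k106 14 (.s k128 k64 7 (.d k170 k255 k191 14 6))))), (.s k21
  k42 6 (.s k23 k22 0 (.s k149 k213 7 (.s k86 k212 8 (.s k87 k84 0 (.d k215 k151 k150 7 8)))))), (.s
  k60 k40 5 (.s k62 k61 0 (.s k150 k215 8 (.s k106 k194 13 (.s k64 k127 6 (.d k192 k128 k149 7
  14))))))] (.c k67 (.q k131 [(.s k21 k42 6 (.s k149 k213 7 (.s k255 k170 14 (.s k127 k191 7 (.d
  k106 k64 k192 6 14))))), (.s k21 k42 6 (.s k60 k40 5 (.s k61 k62 0 (.s k150 k215 8 (.s k169 k188 6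
  (.d k1 k41 k253 5 13)))))), (.s k60 k40 5 (.s k62 k61 0 (.s k150 k215 8 (.s k106 k194 13 (.s k64
  k127 6 (.d k192 k128 k149 7 14))))))] (.c k87 (.l (.s k255 k170 14 (.s k21 k42 6 (.s k127 k191 7
  (.s k106 k64 6 (.d k149 k213 k192 7 14)))))) (.c k255 (.q k87 [(.s k21 k42 6 (.s k215 k150 8 (.d
  k23 k22 k151 0 7))), (.s k60 k40 5 (.s k84 k86 0 (.s k148 k212 7 (.s k104 k192 13 (.s k124 k64 5
  (.d k252 k188 k168 7 13)))))), (.s k21 k42 6 (.s k22 k23 0 (.s k86 k84 0 (.d k150 k215 k214 8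
  7))))] (.c k23 (.l (.s k21 k42 6 (.s k84 k86 0 (.s k148 k212 7 (.s k149 k213 7 (.d k150 k215 k151
  8 0)))))) (.c k215 (.q k235 [(.s k21 k42 6 (.s k86 k84 0 (.s k149 k213 7 (.d k23 k212 k22 8 0)))),
  (.s k60 k40 5 (.s k84 k86 0 (.s k252 k168 13 (.s k124 k188 7 (.s k126 k189 8 (.s k127 k125 0 (.d
  k64 k104 k106 5 6))))))), (.s k21 k42 6 (.s k40 k60 5 (.s k149 k213 7 (.s k192 k106 14 (.s k128
  k64 7 (.d k170 k105 k191 8 6))))))] .n) (.c k235 (.l (.s k215 k150 8 (.s k21 k42 6 (.d k23 k22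
  k151 0 7)))) .n)))) .n))) (.c k87 (.l (.s k255 k170 14 (.s k21 k42 6 (.s k127 k191 7 (.s k106 k64
  6 (.d k149 k213 k192 7 14)))))) (.c k131 (.q k67 [(.s k21 k42 6 (.s k149 k213 7 (.s k192 k106 14
  (.s k128 k64 7 (.d k170 k191 k255 6 14))))), (.s k21 k42 6 (.s k23 k22 0 (.s k149 k213 7 (.s k86
  k212 8 (.s k87 k84 0 (.d k215 k151 k150 7 8)))))), (.s k60 k40 5 (.s k62 k61 0 (.s k150 k215 8 (.s
  k106 k194 13 (.s k64 k127 6 (.d k192 k128 k149 7 14))))))] (.c k87 (.l (.s k255 k170 14 (.s k21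
  k42 6 (.s k149 k213 7 (.s k106 k192 14 (.d k127 k64 k191 6 7)))))) (.c k149 (.l (.s k42 k21 6 (.s
  k60 k40 5 (.s k62 k61 0 (.s k150 k215 8 (.s k106 k194 13 (.d k170 k255 k234 14 7))))))) (.c k151
  (.q k191 [(.d k255 k127 k170 7 14)] (.c k87 (.l (.d k255 k127 k170 7 14)) (.c k127 (.l (.s k21 k42
  6 (.s k149 k213 7 (.d k170 k128 k255 6 14)))) (.c k170 (.l (.s k21 k42 6 (.s k149 k213 7 (.s k106
  k192 14 (.d k127 k255 k64 7 6))))) (.c k255 (.q k87 [(.s k21 k42 6 (.s k22 k23 0 (.s k86 k84 0 (.d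
  k150 k215 k214 8 7)))), (.s k60 k40 5 (.s k62 k61 0 (.s k127 k107 5 (.s k106 k64 6 (.d k150 k215
  k194 8 13)))))] (.c k150 (.l (.s k21 k42 6 (.s k23 k22 0 (.s k86 k84 0 (.d k149 k213 k212 7 8)))))
  (.c k215 (.q k235 [(.s k86 k84 0 (.s k105 k124 6 (.d k40 k60 k170 5 8))), (.s k21 k42 6 (.s k86
  k84 0 (.s k149 k213 7 (.d k23 k212 k22 8 0)))), (.s k21 k42 6 (.s k40 k60 5 (.s k149 k213 7 (.d
  k170 k105 k128 8 6))))] .n) (.c k235 (.l (.s k215 k150 8 (.s k21 k42 6 (.s k23 k22 0 (.s k86 k84 0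
  (.d k149 k213 k212 7 8)))))) .n)))) .n))))) (.c k191 (.q k151 [(.s k21 k42 6 (.s k149 k213 7 (.d
  k150 k148 k215 0 8))), (.s k21 k42 6 (.s k23 k22 0 (.d k215 k87 k150 7 8))), (.s k60 k40 5 (.s k62
  k61 0 (.s k150 k215 8 (.s k106 k194 13 (.d k149 k192 k148 14 0)))))] (.c k87 (.l (.s k255 k170 14
  (.s k21 k42 6 (.s k149 k213 7 (.d k150 k148 k215 0 8))))) (.c k150 (.l (.s k21 k42 6 (.s k23 k22 0
  (.s k87 k215 7 (.s k86 k84 0 (.d k149 k213 k212 7 8)))))) (.c k215 (.l (.s k21 k42 6 (.s k23 k22 0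
  (.s k149 k213 7 (.s k148 k150 0 (.d k212 k86 k84 8 7)))))) (.c k255 (.q k87 [(.d k215 k23 k150 7
  8)] (.c k23 (.l (.s k21 k42 6 (.s k149 k213 7 (.d k150 k148 k215 0 8)))) (.c k150 (.l (.s k21 k42
  6 (.d k23 k22 k215 0 7))) (.c k215 (.q k235 [(.s k86 k84 0 (.s k105 k124 6 (.d k40 k60 k170 5
  8))), (.s k21 k42 6 (.s k127 k107 5 (.s k106 k64 6 (.d k149 k213 k192 7 14))))] (.c k64 (.l (.s
  k40 k60 5 (.s k86 k84 0 (.d k105 k124 k170 6 8)))) .n)) (.c k235 (.l (.d k215 k23 k150 7 8))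
  .n))))) .n))))) (.c k255 (.q k87 [(.s k21 k42 6 (.s k22 k23 0 (.s k86 k84 0 (.d k150 k215 k214 8
  7)))), (.s k60 k40 5 (.s k62 k61 0 (.s k127 k107 5 (.s k106 k64 6 (.d k150 k215 k194 8 13)))))]
  (.c k150 (.l (.s k21 k42 6 (.s k23 k22 0 (.s k86 k84 0 (.d k149 k213 k212 7 8))))) (.c k151 (.q
  k191 [(.s k21 k42 6 (.s k22 k23 0 (.s k86 k84 0 (.d k150 k215 k214 8 7)))), (.s k60 k40 5 (.s k62
  k61 0 (.s k127 k107 5 (.s k106 k64 6 (.d k150 k215 k194 8 13)))))] (.c k150 (.l (.s k21 k42 6 (.s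
  k23 k22 0 (.s k86 k84 0 (.d k149 k213 k212 7 8))))) (.c k215 (.q k235 [(.s k86 k84 0 (.s k105 k124
  6 (.d k40 k60 k170 5 8))), (.s k21 k42 6 (.s k86 k84 0 (.s k149 k213 7 (.d k23 k212 k22 8 0)))),
  (.s k21 k42 6 (.s k40 k60 5 (.s k149 k213 7 (.d k170 k105 k128 8 6))))] .n) (.c k235 (.l (.s k215
  k150 8 (.s k21 k42 6 (.s k23 k22 0 (.s k86 k84 0 (.d k149 k213 k212 7 8)))))) .n)))) (.c k191 (.q
  k151 [(.d k215 k23 k150 7 8)] (.c k23 (.l (.s k21 k42 6 (.s k149 k213 7 (.d k150 k148 k215 0 8))))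
  (.c k150 (.l (.s k21 k42 6 (.d k23 k22 k215 0 7))) (.c k215 (.q k235 [(.s k86 k84 0 (.s k105 k124
  6 (.d k40 k60 k170 5 8))), (.s k21 k42 6 (.s k127 k107 5 (.s k106 k64 6 (.d k149 k213 k192 7
  14))))] (.c k64 (.l (.s k40 k60 5 (.s k86 k84 0 (.d k105 k124 k170 6 8)))) .n)) (.c k235 (.l (.d
  k215 k23 k150 7 8)) .n))))) (.c k215 (.q k235 [(.s k86 k84 0 (.s k105 k124 6 (.d k40 k60 k170 5
  8))), (.s k21 k42 6 (.s k127 k107 5 (.s k106 k64 6 (.d k149 k213 k192 7 14))))] (.c k64 (.l (.s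
  k40 k60 5 (.s k86 k84 0 (.d k105 k124 k170 6 8)))) (.c k151 (.q k191 [(.s k86 k84 0 (.s k105 k124
  6 (.d k40 k60 k170 5 8))), (.s k21 k42 6 (.s k86 k84 0 (.s k149 k213 7 (.d k23 k212 k22 8 0)))),
  (.s k21 k42 6 (.s k40 k60 5 (.s k149 k213 7 (.d k170 k105 k128 8 6))))] .n) (.c k191 (.q k151 [(.s
  k86 k84 0 (.s k105 k124 6 (.d k40 k60 k170 5 8))), (.s k21 k42 6 (.s k127 k107 5 (.s k106 k64 6
  (.d k149 k213 k192 7 14))))] (.c k64 (.l (.s k40 k60 5 (.s k86 k84 0 (.d k105 k124 k170 6 8))))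
  .n)) .n)))) (.c k235 (.l (.s k215 k150 8 (.s k21 k42 6 (.d k23 k22 k151 0 7)))) .n)))))) .n))))))
  (.c k149 (.l (.s k42 k21 6 (.s k60 k40 5 (.s k62 k61 0 (.s k150 k215 8 (.s k106 k194 13 (.d k170
  k255 k234 14 7))))))) (.c k255 (.q k87 [(.s k21 k42 6 (.s k215 k150 8 (.d k23 k22 k151 0 7))), (.s
  k60 k40 5 (.s k84 k86 0 (.s k148 k212 7 (.s k104 k192 13 (.s k124 k64 5 (.d k252 k188 k168 7
  13))))))] (.c k23 (.l (.s k21 k42 6 (.s k84 k86 0 (.s k148 k212 7 (.s k149 k213 7 (.d k150 k215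
  k151 8 0)))))) (.c k60 (.l (.s k21 k42 6 (.s k22 k23 0 (.s k86 k84 0 (.d k150 k214 k215 7 8)))))
  (.c k67 (.q k131 [(.s k21 k42 6 (.s k215 k150 8 (.d k23 k22 k151 0 7))), (.s k60 k40 5 (.s k84 k86
  0 (.s k148 k212 7 (.s k104 k192 13 (.s k124 k64 5 (.d k252 k188 k168 7 13)))))), (.s k21 k42 6 (.s
  k22 k23 0 (.s k86 k84 0 (.d k150 k215 k214 8 7))))] (.c k23 (.l (.s k21 k42 6 (.s k84 k86 0 (.s
  k148 k212 7 (.s k149 k213 7 (.d k150 k215 k151 8 0)))))) (.c k215 (.q k235 [(.s k21 k42 6 (.s k86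
  k84 0 (.s k149 k213 7 (.d k23 k212 k22 8 0)))), (.s k60 k40 5 (.s k84 k86 0 (.s k252 k168 13 (.s
  k124 k188 7 (.s k126 k189 8 (.s k127 k125 0 (.d k64 k104 k106 5 6))))))), (.s k21 k42 6 (.s k40
  k60 5 (.s k149 k213 7 (.s k192 k106 14 (.s k128 k64 7 (.d k170 k105 k191 8 6))))))] .n) (.c k235
  (.l (.s k215 k150 8 (.s k21 k42 6 (.d k23 k22 k151 0 7)))) .n)))) (.c k131 (.q k67 [(.s k21 k42 6
  (.s k22 k23 0 (.s k86 k84 0 (.d k150 k215 k214 8 7)))), (.s k60 k40 5 (.s k62 k61 0 (.s k127 k107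
  5 (.s k106 k64 6 (.d k150 k215 k194 8 13)))))] (.c k150 (.l (.s k21 k42 6 (.s k23 k22 0 (.s k86
  k84 0 (.d k149 k213 k212 7 8))))) (.c k151 (.q k191 [(.s k21 k42 6 (.s k22 k23 0 (.s k86 k84 0 (.d
  k150 k215 k214 8 7)))), (.s k60 k40 5 (.s k62 k61 0 (.s k127 k107 5 (.s k106 k64 6 (.d k150 k215
  k194 8 13)))))] (.c k150 (.l (.s k21 k42 6 (.s k23 k22 0 (.s k86 k84 0 (.d k149 k213 k212 7 8)))))
  (.c k215 (.q k235 [(.s k86 k84 0 (.s k105 k124 6 (.d k40 k60 k170 5 8))), (.s k21 k42 6 (.s k86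
  k84 0 (.s k149 k213 7 (.d k23 k212 k22 8 0)))), (.s k21 k42 6 (.s k40 k60 5 (.s k149 k213 7 (.d
  k170 k105 k128 8 6))))] .n) (.c k235 (.l (.s k215 k150 8 (.s k21 k42 6 (.s k23 k22 0 (.s k86 k84 0
  (.d k149 k213 k212 7 8)))))) .n)))) (.c k191 (.q k151 [(.d k215 k23 k150 7 8)] (.c k23 (.l (.s k21
  k42 6 (.s k149 k213 7 (.d k150 k148 k215 0 8)))) (.c k150 (.l (.s k21 k42 6 (.d k23 k22 k215 0
  7))) (.c k215 (.q k235 [(.s k86 k84 0 (.s k105 k124 6 (.d k40 k60 k170 5 8))), (.s k21 k42 6 (.s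
  k127 k107 5 (.s k106 k64 6 (.d k149 k213 k192 7 14))))] (.c k64 (.l (.s k40 k60 5 (.s k86 k84 0
  (.d k105 k124 k170 6 8)))) .n)) (.c k235 (.l (.d k215 k23 k150 7 8)) .n))))) (.c k215 (.q k235
  [(.s k86 k84 0 (.s k105 k124 6 (.d k40 k60 k170 5 8))), (.s k21 k42 6 (.s k127 k107 5 (.s k106 k64
  6 (.d k149 k213 k192 7 14))))] (.c k64 (.l (.s k40 k60 5 (.s k86 k84 0 (.d k105 k124 k170 6 8))))
  (.c k151 (.q k191 [(.s k86 k84 0 (.s k105 k124 6 (.d k40 k60 k170 5 8))), (.s k21 k42 6 (.s k86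
  k84 0 (.s k149 k213 7 (.d k23 k212 k22 8 0)))), (.s k21 k42 6 (.s k40 k60 5 (.s k149 k213 7 (.d
  k170 k105 k128 8 6))))] .n) (.c k191 (.q k151 [(.s k86 k84 0 (.s k105 k124 6 (.d k40 k60 k170 5
  8))), (.s k21 k42 6 (.s k127 k107 5 (.s k106 k64 6 (.d k149 k213 k192 7 14))))] (.c k64 (.l (.s
  k40 k60 5 (.s k86 k84 0 (.d k105 k124 k170 6 8)))) .n)) .n)))) (.c k235 (.l (.s k215 k150 8 (.s
  k21 k42 6 (.d k23 k22 k151 0 7)))) .n)))))) (.c k215 (.q k235 [(.s k21 k42 6 (.s k86 k84 0 (.s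
  k149 k213 7 (.d k23 k212 k22 8 0)))), (.s k60 k40 5 (.s k84 k86 0 (.s k252 k168 13 (.s k124 k188 7
  (.s k104 k64 5 (.d k148 k212 k192 7 13)))))), (.s k21 k42 6 (.s k40 k60 5 (.s k149 k213 7 (.s k192
  k106 14 (.s k128 k64 7 (.d k170 k105 k191 8 6)))))), (.s k40 k60 5 (.s k86 k84 0 (.s k105 k170 8
  (.s k67 k124 6 (.s k127 k107 5 (.s k64 k106 6 (.d k65 k125 k66 5 0)))))))] (.c k67 (.q k131 [(.s
  k21 k42 6 (.s k86 k84 0 (.s k149 k213 7 (.d k23 k212 k22 8 0)))), (.s k60 k40 5 (.s k84 k86 0 (.s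
  k252 k168 13 (.s k124 k188 7 (.s k126 k189 8 (.s k127 k125 0 (.d k64 k104 k106 5 6))))))), (.s k21
  k42 6 (.s k40 k60 5 (.s k149 k213 7 (.s k192 k106 14 (.s k128 k64 7 (.d k170 k105 k191 8 6))))))]
  .n) (.c k131 (.q k67 [(.s k86 k84 0 (.s k105 k124 6 (.d k40 k60 k170 5 8))), (.s k21 k42 6 (.s
  k127 k107 5 (.s k106 k64 6 (.d k149 k213 k192 7 14))))] (.c k64 (.l (.s k40 k60 5 (.s k86 k84 0
  (.d k105 k124 k170 6 8)))) (.c k151 (.q k191 [(.s k86 k84 0 (.s k105 k124 6 (.d k40 k60 k170 5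
  8))), (.s k21 k42 6 (.s k86 k84 0 (.s k149 k213 7 (.d k23 k212 k22 8 0)))), (.s k21 k42 6 (.s k40
  k60 5 (.s k149 k213 7 (.d k170 k105 k128 8 6))))] .n) (.c k191 (.q k151 [(.s k86 k84 0 (.s k105
  k124 6 (.d k40 k60 k170 5 8))), (.s k21 k42 6 (.s k127 k107 5 (.s k106 k64 6 (.d k149 k213 k192 7
  14))))] (.c k64 (.l (.s k40 k60 5 (.s k86 k84 0 (.d k105 k124 k170 6 8)))) .n)) .n)))) .n))) (.c
  k235 (.l (.s k215 k150 8 (.s k21 k42 6 (.d k23 k22 k151 0 7)))) .n))))))) .n)))))) (.c k215 (.f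
  k60 k40 5 (.q k84 [(.s k252 k168 13 (.s k124 k188 7 (.s k104 k64 5 (.d k148 k212 k192 7 13)))),
  (.s k86 k87 0 (.s k255 k170 14 (.s k125 k190 8 (.s k105 k65 5 (.s k124 k67 6 (.d k252 k168 k188 13
  7)))))), (.s k148 k212 7 (.s k104 k192 13 (.s k64 k124 5 (.s k106 k127 6 (.s k105 k107 0 (.s k125
  k65 5 (.d k255 k190 k170 8 14))))))), (.s k148 k212 7 (.s k168 k252 13 (.s k128 k188 5 (.d k192
  k64 k104 7 13))))] (.c k64 (.q k4 [(.s k12 k8 1 (.s k28 k44 3 (.s k24 k16 1 (.d k36 k52 k48 3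
  5)))), (.s k52 k36 3 (.s k148 k212 7 (.s k100 k196 11 (.s k116 k68 3 (.d k244 k180 k164 7 11))))),
  (.s k12 k8 1 (.s k148 k212 7 (.s k164 k244 11 (.s k132 k180 3 (.d k192 k72 k104 9 13)))))] (.c k52
  (.l (.s k12 k8 1 (.s k28 k44 3 (.s k148 k212 7 (.s k88 k208 9 (.d k164 k244 k240 11 13)))))) (.c
  k87 (.l (.s k255 k170 14 (.s k12 k8 1 (.s k28 k44 3 (.s k24 k16 1 (.d k36 k52 k48 3 5)))))) (.c
  k255 (.l (.s k87 k86 0 (.s k12 k8 1 (.s k28 k44 3 (.s k24 k16 1 (.d k36 k52 k48 3 5)))))) .n))))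
  (.c k87 (.l (.s k255 k170 14 (.s k148 k212 7 (.s k104 k192 13 (.s k124 k64 5 (.d k252 k168 k188 13
  7)))))) (.c k252 (.l (.s k86 k87 0 (.s k255 k170 14 (.s k125 k190 8 (.s k105 k65 5 (.s k124 k67 6
  (.s k64 k104 5 (.d k127 k126 k106 0 6)))))))) (.c k255 (.l (.s k87 k86 0 (.s k148 k212 7 (.s k104
  k192 13 (.s k124 k64 5 (.d k252 k188 k168 7 13)))))) .n)))))) (.c k235 (.l (.s k60 k40 5 (.s k150
  k215 8 (.s k105 k195 14 (.s k255 k170 14 (.d k125 k65 k190 5 8)))))) (.c k255 (.q k87 [(.s k86 k84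
  0 (.s k215 k150 8 (.s k23 k151 7 (.s k149 k212 8 (.d k21 k22 k213 0 7))))), (.s k60 k40 5 (.s k84
  k86 0 (.s k252 k168 13 (.s k124 k188 7 (.s k104 k64 5 (.d k148 k212 k192 7 13))))))] (.c k84 (.q
  k4 [(.s k52 k36 3 (.s k150 k215 8 (.s k101 k199 12 (.s k117 k69 3 (.d k247 k182 k166 8 12))))),
  (.s k12 k8 1 (.s k36 k52 3 (.s k40 k60 5 (.s k32 k44 1 (.d k48 k16 k24 3 5))))), (.s k12 k8 1 (.s
  k60 k40 5 (.s k44 k28 3 (.s k150 k215 8 (.s k166 k247 12 (.d k105 k195 k227 14 10))))))] .n) (.c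
  k86 (.q k52 [(.s k36 k4 3 (.s k60 k40 5 (.s k48 k56 1 (.s k16 k32 3 (.d k24 k28 k12 1 5))))), (.s
  k4 k36 3 (.s k150 k215 8 (.s k101 k199 12 (.s k117 k69 3 (.d k247 k182 k166 8 12))))), (.s k60 k40
  5 (.s k48 k56 1 (.s k150 k215 8 (.s k101 k199 12 (.s k69 k117 3 (.d k207 k138 k154 10 14))))))]
  (.c k169 (.q k252 [(.s k36 k4 3 (.s k60 k40 5 (.s k48 k56 1 (.s k16 k32 3 (.d k24 k28 k12 1
  5))))), (.s k4 k36 3 (.s k150 k215 8 (.s k101 k199 12 (.s k117 k69 3 (.d k247 k182 k166 8 12))))),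
  (.s k60 k40 5 (.s k48 k56 1 (.s k116 k184 9 (.s k124 k188 7 (.s k120 k112 1 (.d k180 k244 k240 7
  9))))))] (.c k168 (.q k170 [(.s k150 k215 8 (.s k130 k190 5 (.s k195 k65 8 (.d k60 k40 k105 5
  14)))), (.s k4 k36 3 (.s k12 k8 1 (.s k166 k247 12 (.s k162 k174 1 (.d k243 k81 k89 12 14)))))]
  .n) (.c k170 (.l (.s k168 k84 13 (.s k4 k36 3 (.s k150 k215 8 (.s k101 k199 12 (.s k117 k69 3 (.d
  k247 k182 k166 8 12))))))) .n))) (.c k252 (.q k169 [(.s k36 k4 3 (.s k60 k40 5 (.s k48 k56 1 (.s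
  k16 k32 3 (.d k24 k28 k12 1 5))))), (.s k4 k36 3 (.s k150 k215 8 (.s k101 k199 12 (.s k117 k69 3
  (.d k247 k182 k166 8 12))))), (.s k60 k40 5 (.s k48 k56 1 (.s k150 k215 8 (.s k101 k199 12 (.s k69
  k117 3 (.d k207 k138 k154 10 14))))))] (.c k253 (.q k254 [(.s k36 k4 3 (.s k60 k40 5 (.s k48 k56 1
  (.s k16 k32 3 (.d k24 k28 k12 1 5))))), (.s k4 k36 3 (.s k150 k215 8 (.s k101 k199 12 (.s k117 k69
  3 (.d k247 k182 k166 8 12))))), (.s k60 k40 5 (.s k48 k56 1 (.s k150 k215 8 (.s k101 k199 12 (.s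
  k69 k117 3 (.d k207 k138 k154 10 14))))))] .n) (.c k254 (.l (.s k253 k1 13 (.s k4 k36 3 (.s k150
  k215 8 (.s k101 k199 12 (.s k117 k69 3 (.d k247 k182 k166 8 12))))))) .n))) .n))) (.c k148 (.l (.s
  k86 k84 0 (.s k215 k150 8 (.s k23 k151 7 (.s k149 k212 8 (.d k21 k22 k213 0 7)))))) (.c k212 (.q
  k4 [(.s k12 k8 1 (.s k36 k52 3 (.s k24 k48 5 (.s k28 k16 1 (.d k60 k44 k40 3 5))))), (.s k86 k84 0
  (.s k247 k166 12 (.s k7 k167 11 (.s k5 k6 0 (.d k165 k245 k244 11 12)))))] (.c k12 (.l (.s k52 k36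
  3 (.s k150 k215 8 (.s k101 k199 12 (.s k117 k69 3 (.d k247 k182 k166 8 12)))))) .n)) .n)))))
  .n))))))))))))))

def t3_172 : T TT 256 :=
  (.f k255 k170 14 (.q k102 [(.s k68 k119 4 (.s k204 k136 9 (.s k221 k238 4 (.d k153 k17 k51 9
  14))))] (.c k17 (.q k4 [(.s k12 k8 1 (.s k166 k247 12 (.s k89 k243 14 (.d k93 k81 k174 1 12)))),
  (.s k68 k119 4 (.s k166 k247 12 (.s k38 k230 7 (.s k55 k21 4 (.d k196 k132 k149 7 12))))), (.s k12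
  k8 1 (.s k68 k119 4 (.s k132 k196 7 (.s k72 k192 9 (.s k76 k64 1 (.d k204 k140 k136 7 9))))))] .n)
  (.c k51 (.f k68 k119 4 (.q k117 [(.s k48 k186 10 (.s k16 k32 3 (.s k101 k69 3 (.d k154 k223 k207
  10 14)))), (.s k101 k69 3 (.s k100 k103 0 (.s k204 k136 9 (.d k48 k186 k152 10 13)))), (.s k48
  k186 10 (.s k32 k16 3 (.s k204 k136 9 (.s k100 k152 13 (.s k84 k116 3 (.d k168 k236 k252 9
  13))))))] (.c k19 (.q k35 [(.s k48 k186 10 (.s k16 k32 3 (.s k101 k69 3 (.d k154 k223 k207 10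
  14)))), (.s k101 k69 3 (.s k100 k103 0 (.s k84 k116 3 (.s k236 k169 10 (.d k168 k252 k32 13
  9))))), (.s k48 k186 10 (.s k32 k16 3 (.s k204 k136 9 (.s k100 k152 13 (.d k236 k168 k169 9
  10)))))] (.c k32 (.l (.s k48 k186 10 (.s k101 k69 3 (.s k100 k103 0 (.d k204 k136 k152 9 13)))))
  .n)) (.c k35 (.q k19 [(.s k48 k186 10 (.s k16 k32 3 (.s k101 k69 3 (.d k154 k223 k207 10 14)))),
  (.s k48 k186 10 (.s k32 k16 3 (.s k204 k136 9 (.s k100 k152 13 (.s k84 k116 3 (.d k168 k236 k252 9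
  13)))))), (.s k101 k69 3 (.s k100 k103 0 (.s k204 k136 9 (.d k48 k186 k152 10 13)))), (.s k69 k101
  3 (.s k70 k71 0 (.s k86 k118 3 (.s k87 k84 0 (.s k223 k155 9 (.d k207 k239 k138 3 10))))))] .n)
  (.c k48 (.l (.s k69 k101 3 (.s k204 k136 9 (.s k207 k138 10 (.s k205 k206 0 (.s k221 k238 4 (.s
  k253 k237 3 (.d k1 k137 k169 9 13)))))))) (.c k186 (.l (.s k101 k69 3 (.s k100 k103 0 (.s k204
  k136 9 (.s k48 k152 13 (.s k16 k32 3 (.d k154 k207 k223 14 10))))))) .n)))))) (.c k68 (.q k81 [(.s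
  k89 k93 1 (.s k243 k162 12 (.s k247 k251 1 (.d k166 k4 k12 12 14)))), (.s k89 k93 1 (.s k115 k76 6
  (.s k64 k98 4 (.s k192 k128 7 (.s k213 k234 6 (.s k149 k21 7 (.d k106 k127 k63 6 14)))))))] (.c
  k89 (.f k243 k162 12 (.q k166 [(.d k247 k251 k4 1 12), (.s k230 k38 7 (.s k204 k217 6 (.s k153 k51
  14 (.d k221 k238 k17 4 9))))] (.c k8 (.l (.s k251 k247 1 (.s k230 k38 7 (.s k204 k217 6 (.s k153
  k51 14 (.d k221 k238 k17 4 9)))))) (.c k251 (.q k8 [(.d k4 k12 k247 1 12), (.s k230 k38 7 (.s k204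
  k217 6 (.s k221 k238 4 (.d k153 k17 k51 9 14))))] .n) .n)))) (.c k93 (.l (.s k243 k162 12 (.s k247
  k251 1 (.s k166 k4 12 (.s k230 k38 7 (.s k204 k217 6 (.s k153 k51 14 (.d k221 k238 k17 4 9))))))))
  .n))) (.c k119 (.q k81 [(.s k89 k93 1 (.s k243 k162 12 (.s k247 k251 1 (.d k166 k4 k12 12 14)))),
  (.s k89 k93 1 (.s k115 k76 6 (.s k64 k98 4 (.s k192 k128 7 (.s k213 k234 6 (.s k149 k21 7 (.d k106
  k127 k63 6 14)))))))] (.c k89 (.f k243 k162 12 (.q k166 [(.d k247 k251 k4 1 12), (.s k230 k38 7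
  (.s k204 k217 6 (.s k153 k51 14 (.d k221 k238 k17 4 9))))] (.c k8 (.l (.s k251 k247 1 (.s k230 k38
  7 (.s k204 k217 6 (.s k153 k51 14 (.d k221 k238 k17 4 9)))))) (.c k251 (.q k8 [(.d k4 k12 k247 1
  12), (.s k230 k38 7 (.s k204 k217 6 (.s k221 k238 4 (.d k153 k17 k51 9 14))))] .n) .n)))) (.c k93
  (.l (.s k243 k162 12 (.s k247 k251 1 (.s k166 k4 12 (.s k230 k38 7 (.s k204 k217 6 (.s k153 k51 14
  (.d k221 k238 k17 4 9)))))))) .n))) (.c k136 (.l (.s k119 k68 4 (.s k51 k187 9 (.s k153 k204 14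
  (.d k17 k34 k221 4 9))))) (.c k153 (.f k119 k68 4 (.q k127 [(.s k106 k64 6 (.s k110 k98 1 (.s k76
  k93 4 (.d k115 k123 k89 1 6)))), (.s k63 k191 7 (.s k21 k42 6 (.s k149 k213 7 (.s k55 k196 12 (.d
  k51 k187 k59 9 1)))))] (.c k106 (.l (.s k63 k191 7 (.s k123 k115 1 (.s k183 k243 9 (.s k55 k247 7
  (.d k51 k59 k187 1 9)))))) (.c k136 (.l (.s k187 k51 9 (.s k63 k191 7 (.s k21 k42 6 (.s k106 k64 6
  (.d k149 k213 k192 7 14)))))) (.c k187 (.q k136 [(.s k106 k64 6 (.s k110 k98 1 (.s k76 k93 4 (.d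
  k115 k123 k89 1 6)))), (.s k63 k191 7 (.s k21 k42 6 (.s k149 k213 7 (.d k106 k64 k192 6 14)))),
  (.s k63 k191 7 (.s k123 k115 1 (.s k183 k243 9 (.s k55 k247 7 (.s k149 k196 12 (.d k21 k213 k42 7
  6))))))] .n) .n))))) (.c k187 (.l (.s k68 k119 4 (.s k204 k136 9 (.s k153 k51 14 (.d k221 k238 k17
  4 9))))) (.c k204 (.f k68 k119 4 (.q k4 [(.s k166 k247 12 (.s k196 k132 7 (.s k55 k149 12 (.d k38
  k21 k230 4 7)))), (.s k12 k8 1 (.s k93 k174 12 (.s k89 k81 1 (.s k76 k115 6 (.s k64 k72 1 (.d k127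
  k110 k106 4 6))))))] (.c k70 (.q k137 [(.s k166 k247 12 (.s k196 k132 7 (.s k55 k149 12 (.d k38
  k21 k230 4 7)))), (.s k12 k8 1 (.s k93 k174 12 (.s k89 k81 1 (.s k76 k115 6 (.s k64 k72 1 (.d k127
  k110 k106 4 6))))))] (.c k166 (.l (.s k196 k132 7 (.s k149 k55 12 (.s k21 k213 7 (.s k63 k42 6 (.s
  k106 k192 14 (.d k127 k64 k191 6 7))))))) .n)) (.c k137 (.q k70 [(.s k71 k69 0 (.s k86 k118 3 (.s
  k84 k87 0 (.d k116 k100 k101 3 4)))), (.s k12 k8 1 (.s k93 k174 12 (.s k89 k81 1 (.d k166 k247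
  k243 12 14))))] .n) (.c k166 (.l (.s k196 k132 7 (.s k149 k55 12 (.s k21 k213 7 (.s k63 k42 6 (.s
  k106 k192 14 (.d k127 k64 k191 6 7))))))) .n))))) (.c k221 (.q k4 [(.s k12 k8 1 (.s k166 k247 12
  (.s k89 k243 14 (.d k93 k81 k174 1 12)))), (.s k68 k119 4 (.s k166 k247 12 (.s k38 k230 7 (.s k55
  k21 4 (.d k196 k132 k149 7 12))))), (.s k12 k8 1 (.s k68 k119 4 (.s k132 k196 7 (.s k72 k192 9 (.s
  k76 k64 1 (.d k204 k140 k136 7 9))))))] .n) (.c k238 (.l (.s k119 k68 4 (.s k51 k187 9 (.s k17 k34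
  4 (.d k153 k221 k204 9 14))))) .n))))))))))))

def t3_173 : T TT 256 :=
  (.f k255 k170 14 (.q k102 [(.s k68 k119 4 (.s k204 k136 9 (.s k221 k238 4 (.d k153 k17 k51 9
  14))))] (.c k17 (.q k4 [(.s k12 k8 1 (.s k166 k247 12 (.s k89 k243 14 (.d k93 k81 k174 1 12)))),
  (.s k68 k119 4 (.s k166 k247 12 (.s k38 k230 7 (.s k55 k21 4 (.d k196 k132 k149 7 12))))), (.s k12
  k8 1 (.s k68 k119 4 (.s k132 k196 7 (.s k72 k192 9 (.s k76 k64 1 (.d k204 k140 k136 7 9))))))] .n)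
  (.c k51 (.f k68 k119 4 (.q k117 [(.s k48 k186 10 (.s k16 k32 3 (.s k101 k69 3 (.d k154 k223 k207
  10 14)))), (.s k101 k69 3 (.s k100 k103 0 (.s k204 k136 9 (.d k48 k186 k152 10 13)))), (.s k48
  k186 10 (.s k32 k16 3 (.s k204 k136 9 (.s k100 k152 13 (.s k84 k116 3 (.d k168 k236 k252 9
  13))))))] (.c k19 (.q k35 [(.s k48 k186 10 (.s k16 k32 3 (.s k101 k69 3 (.d k154 k223 k207 10
  14)))), (.s k101 k69 3 (.s k100 k103 0 (.s k84 k116 3 (.s k236 k169 10 (.d k168 k252 k32 13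
  9))))), (.s k48 k186 10 (.s k32 k16 3 (.s k204 k136 9 (.s k100 k152 13 (.d k236 k168 k169 9
  10)))))] (.c k32 (.l (.s k48 k186 10 (.s k101 k69 3 (.s k100 k103 0 (.d k204 k136 k152 9 13)))))
  .n)) (.c k35 (.q k19 [(.s k48 k186 10 (.s k16 k32 3 (.s k101 k69 3 (.d k154 k223 k207 10 14)))),
  (.s k48 k186 10 (.s k32 k16 3 (.s k204 k136 9 (.s k100 k152 13 (.s k84 k116 3 (.d k168 k236 k252 9
  13)))))), (.s k101 k69 3 (.s k100 k103 0 (.s k204 k136 9 (.d k48 k186 k152 10 13)))), (.s k69 k101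
  3 (.s k70 k71 0 (.s k86 k118 3 (.s k87 k84 0 (.s k223 k155 9 (.d k207 k239 k138 3 10))))))] .n)
  (.c k48 (.l (.s k69 k101 3 (.s k204 k136 9 (.s k207 k138 10 (.s k205 k206 0 (.s k221 k238 4 (.s
  k253 k237 3 (.d k1 k137 k169 9 13)))))))) (.c k186 (.l (.s k101 k69 3 (.s k100 k103 0 (.s k204
  k136 9 (.s k48 k152 13 (.s k16 k32 3 (.d k154 k207 k223 14 10))))))) .n)))))) (.c k68 (.q k81 [(.s
  k89 k93 1 (.s k243 k162 12 (.s k247 k251 1 (.d k166 k4 k12 12 14)))), (.s k89 k93 1 (.s k115 k76 6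
  (.s k64 k98 4 (.s k192 k128 7 (.s k213 k234 6 (.s k149 k21 7 (.d k106 k127 k63 6 14))))))), (.s
  k243 k162 12 (.s k247 k251 1 (.s k166 k4 12 (.s k230 k38 7 (.s k204 k217 6 (.s k153 k51 14 (.d
  k221 k238 k17 4 9)))))))] (.c k89 (.f k243 k162 12 (.q k166 [(.d k247 k251 k4 1 12), (.s k230 k38
  7 (.s k204 k217 6 (.s k153 k51 14 (.d k221 k238 k17 4 9))))] (.c k8 (.l (.s k251 k247 1 (.s k230
  k38 7 (.s k204 k217 6 (.s k153 k51 14 (.d k221 k238 k17 4 9)))))) (.c k251 (.q k8 [(.d k4 k12 k247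
  1 12), (.s k230 k38 7 (.s k204 k217 6 (.s k221 k238 4 (.d k153 k17 k51 9 14))))] .n) .n)))) .n))
  (.c k119 (.q k247 [(.s k166 k4 12 (.s k243 k251 1 (.s k81 k162 12 (.d k89 k93 k12 1 14)))), (.s
  k166 k4 12 (.s k230 k38 7 (.s k213 k196 4 (.s k192 k234 6 (.s k64 k128 7 (.s k106 k127 6 (.d k149
  k21 k63 7 14)))))))] (.c k4 (.l (.s k243 k251 1 (.s k81 k162 12 (.s k89 k93 1 (.s k115 k76 6 (.s
  k51 k179 7 (.s k17 k34 4 (.d k153 k221 k204 9 14)))))))) (.c k166 (.f k243 k251 1 (.q k89 [(.d k81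
  k162 k93 12 1), (.s k115 k76 6 (.s k51 k179 7 (.s k17 k34 4 (.d k153 k221 k204 9 14))))] (.c k162
  (.q k174 [(.d k93 k81 k12 1 12), (.s k115 k76 6 (.s k51 k179 7 (.s k17 k34 4 (.d k153 k221 k204 9
  14))))] .n) (.c k174 (.l (.s k162 k81 12 (.s k115 k76 6 (.s k51 k179 7 (.s k17 k34 4 (.d k153 k221
  k204 9 14)))))) .n)))) .n))) (.c k136 (.l (.s k119 k68 4 (.s k51 k187 9 (.s k153 k204 14 (.d k17
  k34 k221 4 9))))) (.c k153 (.f k119 k68 4 (.q k247 [(.s k55 k183 7 (.s k149 k196 12 (.s k21 k213 7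
  (.d k4 k38 k166 4 12)))), (.s k243 k251 1 (.s k81 k162 12 (.s k89 k93 1 (.d k166 k4 k12 12 14))))]
  (.c k4 (.l (.s k183 k55 7 (.s k187 k51 9 (.s k191 k179 1 (.s k63 k127 7 (.d k243 k251 k123 1
  9)))))) (.c k136 (.l (.s k187 k51 9 (.s k4 k166 12 (.s k55 k183 7 (.s k21 k38 4 (.d k149 k213 k196
  7 12)))))) (.c k166 (.l (.s k55 k183 7 (.s k149 k196 12 (.s k21 k213 7 (.s k63 k42 6 (.d k51 k59
  k187 1 9)))))) (.c k187 (.q k136 [(.s k166 k4 12 (.s k230 k38 7 (.s k196 k213 4 (.d k55 k183 k149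
  7 12)))), (.s k243 k251 1 (.s k81 k162 12 (.s k89 k93 1 (.d k166 k4 k12 12 14))))] (.c k4 (.l (.s
  k183 k55 7 (.s k243 k251 1 (.s k81 k162 12 (.s k89 k93 1 (.s k115 k76 6 (.d k123 k127 k63 1
  9))))))) (.c k166 (.l (.s k55 k183 7 (.s k149 k196 12 (.s k21 k213 7 (.s k63 k42 6 (.s k106 k192
  14 (.d k127 k191 k64 7 6))))))) .n))) .n)))))) (.c k187 (.l (.s k68 k119 4 (.s k204 k136 9 (.s
  k153 k51 14 (.d k221 k238 k17 4 9))))) (.c k204 (.f k68 k119 4 (.q k89 [(.s k76 k115 6 (.s k64 k72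
  1 (.s k93 k81 1 (.d k127 k110 k106 4 6)))), (.s k81 k93 1 (.s k243 k162 12 (.s k247 k251 1 (.d
  k166 k4 k12 12 14)))), (.s k76 k115 6 (.s k64 k72 1 (.s k192 k128 7 (.s k213 k234 6 (.s k149 k21 7
  (.d k106 k127 k63 6 14))))))] (.c k70 (.q k137 [(.s k76 k115 6 (.s k64 k72 1 (.s k93 k81 1 (.d
  k127 k110 k106 4 6)))), (.s k81 k93 1 (.s k243 k162 12 (.s k247 k251 1 (.d k166 k4 k12 12 14)))),
  (.s k76 k115 6 (.s k64 k72 1 (.s k192 k128 7 (.s k213 k234 6 (.s k149 k21 7 (.d k106 k127 k63 6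
  14))))))] .n) (.c k137 (.q k70 [(.s k76 k115 6 (.s k64 k72 1 (.s k93 k81 1 (.d k127 k110 k106 4
  6)))), (.s k71 k69 0 (.s k86 k118 3 (.s k84 k87 0 (.d k116 k100 k101 3 4))))] .n) .n)))) (.c k221
  (.q k4 [(.s k12 k8 1 (.s k166 k247 12 (.s k89 k243 14 (.d k93 k81 k174 1 12)))), (.s k68 k119 4
  (.s k166 k247 12 (.s k38 k230 7 (.s k55 k21 4 (.d k196 k132 k149 7 12))))), (.s k12 k8 1 (.s k68
  k119 4 (.s k132 k196 7 (.s k72 k192 9 (.s k76 k64 1 (.d k204 k140 k136 7 9))))))] .n) (.c k238 (.l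
  (.s k119 k68 4 (.s k51 k187 9 (.s k17 k34 4 (.d k153 k221 k204 9 14))))) .n))))))))))))

def t3_174 : T TT 256 :=
  (.q k90 [(.s k80 k95 2 (.s k240 k160 11 (.s k15 k165 14 (.s k10 k5 2 (.d k170 k250 k255 11
  14)))))] (.c k5 (.q k12 [(.s k4 k8 1 (.s k80 k95 2 (.s k166 k247 12 (.s k14 k242 13 (.s k15 k13 0
  (.d k240 k160 k165 11 14)))))), (.s k8 k4 1 (.s k170 k255 14 (.s k89 k251 12 (.s k81 k93 1 (.d
  k243 k162 k166 12 14))))), (.s k80 k95 2 (.s k240 k160 11 (.s k88 k164 13 (.s k89 k91 0 (.s k81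
  k93 1 (.d k243 k162 k166 12 14))))))] (.c k166 (.l (.s k8 k4 1 (.s k80 k95 2 (.s k170 k255 14 (.s
  k89 k251 12 (.s k88 k91 0 (.d k240 k160 k164 11 13))))))) .n)) (.c k10 (.l (.s k80 k95 2 (.s k240
  k160 11 (.s k165 k15 14 (.s k245 k5 11 (.d k255 k250 k170 2 14)))))) (.c k15 (.f k95 k80 2 (.q
  k106 [(.s k127 k64 6 (.s k79 k111 3 (.s k112 k101 6 (.d k122 k117 k74 2 3)))), (.s k74 k122 3 (.s
  k170 k255 14 (.s k10 k250 11 (.s k42 k234 7 (.s k58 k26 3 (.d k202 k138 k154 7 11)))))), (.s k64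
  k127 6 (.s k170 k255 14 (.s k42 k234 7 (.s k63 k21 6 (.d k192 k128 k149 7 14)))))] (.c k7 (.q k11
  [(.s k127 k64 6 (.s k79 k111 3 (.s k112 k101 6 (.d k122 k117 k74 2 3)))), (.s k74 k122 3 (.s k169
  k248 12 (.s k43 k232 8 (.s k59 k27 3 (.d k200 k137 k153 8 12))))), (.s k64 k127 6 (.s k170 k255 14
  (.s k42 k234 7 (.s k63 k21 6 (.d k192 k128 k149 7 14)))))] .n) (.c k11 (.q k7 [(.s k127 k64 6 (.s
  k79 k111 3 (.s k112 k101 6 (.d k122 k117 k74 2 3)))), (.s k74 k122 3 (.s k170 k255 14 (.s k10 k250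
  11 (.s k42 k234 7 (.s k58 k26 3 (.d k202 k138 k154 7 11)))))), (.s k64 k127 6 (.s k170 k255 14 (.s
  k42 k234 7 (.s k63 k21 6 (.d k192 k128 k149 7 14)))))] .n) .n)))) (.c k80 (.q k16 [(.s k48 k32 3
  (.s k154 k223 10 (.s k101 k207 14 (.s k117 k69 3 (.d k255 k186 k170 10 14))))), (.s k48 k32 3 (.s
  k154 k223 10 (.s k26 k218 7 (.s k15 k37 6 (.s k5 k10 2 (.d k165 k245 k240 11 14)))))), (.s k154
  k223 10 (.s k26 k218 7 (.s k21 k31 2 (.s k42 k63 6 (.s k170 k255 14 (.d k10 k58 k250 3 11)))))),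
  (.s k48 k32 3 (.s k170 k255 14 (.s k10 k250 11 (.s k15 k5 2 (.s k26 k37 6 (.s k21 k31 2 (.d k42
  k58 k63 3 6)))))))] .n) (.c k95 (.q k16 [(.s k48 k32 3 (.s k255 k170 14 (.s k117 k186 10 (.s k101
  k69 3 (.d k154 k223 k207 10 14))))), (.s k48 k32 3 (.s k154 k223 10 (.s k26 k218 7 (.s k15 k37 6
  (.s k5 k10 2 (.d k165 k245 k240 11 14)))))), (.s k154 k223 10 (.s k26 k218 7 (.s k170 k255 14 (.s
  k10 k250 11 (.s k42 k58 3 (.d k21 k31 k63 2 6)))))), (.s k48 k32 3 (.s k170 k255 14 (.s k10 k250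
  11 (.s k15 k5 2 (.s k26 k37 6 (.s k42 k58 3 (.d k21 k31 k63 2 6)))))))] .n) (.c k160 (.l (.s k95
  k80 2 (.s k255 k170 14 (.s k15 k175 11 (.s k165 k240 14 (.d k5 k10 k245 2 11)))))) (.c k165 (.q
  k12 [(.s k8 k4 1 (.s k170 k255 14 (.s k89 k251 12 (.s k81 k93 1 (.d k243 k162 k166 12 14))))), (.s
  k4 k8 1 (.s k95 k80 2 (.s k166 k247 12 (.s k14 k242 13 (.s k15 k13 0 (.d k255 k175 k170 11
  14)))))), (.s k80 k95 2 (.s k240 k160 11 (.s k88 k164 13 (.s k89 k91 0 (.s k81 k93 1 (.d k243 k166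
  k162 14 12))))))] (.c k89 (.l (.s k4 k8 1 (.s k166 k247 12 (.s k14 k242 13 (.s k170 k255 14 (.s
  k10 k250 11 (.d k15 k13 k5 0 2))))))) (.c k166 (.l (.s k8 k4 1 (.s k80 k95 2 (.s k170 k255 14 (.s
  k89 k251 12 (.s k88 k91 0 (.d k240 k160 k164 11 13))))))) (.c k170 (.l (.s k4 k8 1 (.s k80 k95 2
  (.s k166 k247 12 (.s k89 k243 14 (.s k88 k91 0 (.d k240 k160 k164 11 13))))))) .n)))) (.c k170 (.f
  k80 k95 2 (.q k166 [(.s k4 k247 12 (.s k12 k8 1 (.s k14 k242 13 (.s k15 k13 0 (.d k240 k160 k165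
  11 14))))), (.s k4 k247 12 (.s k240 k160 11 (.s k165 k15 14 (.s k5 k245 11 (.s k164 k167 0 (.s
  k244 k84 11 (.d k7 k6 k86 0 12))))))), (.s k240 k160 11 (.s k242 k14 13 (.s k243 k241 0 (.s k81
  k162 12 (.d k89 k93 k12 1 14))))), (.s k4 k247 12 (.s k12 k8 1 (.s k89 k243 14 (.s k81 k93 1 (.s
  k88 k91 0 (.s k92 k84 1 (.d k83 k82 k86 0 2)))))))] .n)) (.c k175 (.l (.s k80 k95 2 (.s k240 k160
  11 (.s k15 k165 14 (.s k170 k255 14 (.d k10 k5 k250 2 11)))))) (.c k240 (.f k80 k95 2 (.q k106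
  [(.s k64 k127 6 (.s k112 k96 3 (.s k79 k101 6 (.d k74 k69 k122 2 3)))), (.s k122 k74 3 (.s k170
  k255 14 (.s k234 k42 7 (.s k250 k10 11 (.s k58 k186 7 (.d k202 k218 k154 3 11)))))), (.s k64 k127
  6 (.s k170 k255 14 (.s k42 k234 7 (.s k63 k21 6 (.d k192 k128 k149 7 14)))))] (.c k82 (.q k161
  [(.s k64 k127 6 (.s k112 k96 3 (.s k79 k101 6 (.d k74 k69 k122 2 3)))), (.s k122 k74 3 (.s k170
  k255 14 (.s k234 k42 7 (.s k250 k10 11 (.s k58 k186 7 (.d k202 k218 k154 3 11)))))), (.s k64 k127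
  6 (.s k170 k255 14 (.s k42 k234 7 (.s k63 k21 6 (.d k192 k128 k149 7 14)))))] .n) (.c k161 (.q k82
  [(.s k64 k127 6 (.s k112 k96 3 (.s k79 k101 6 (.d k74 k69 k122 2 3)))), (.s k83 k81 0 (.s k86 k94
  1 (.s k84 k87 0 (.d k92 k88 k89 1 2))))] .n) .n)))) (.c k250 (.l (.s k95 k80 2 (.s k255 k170 14
  (.s k15 k175 11 (.s k5 k10 2 (.d k165 k245 k240 11 14)))))) (.c k255 (.q k12 [(.s k4 k8 1 (.s k80
  k95 2 (.s k166 k247 12 (.s k14 k242 13 (.s k15 k13 0 (.d k240 k160 k165 11 14)))))), (.s k80 k95 2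
  (.s k240 k160 11 (.s k88 k164 13 (.s k89 k91 0 (.s k81 k93 1 (.d k243 k162 k166 12 14)))))), (.s
  k4 k8 1 (.s k166 k247 12 (.s k14 k242 13 (.s k15 k13 0 (.s k5 k10 2 (.d k165 k245 k240 11
  14)))))), (.s k8 k4 1 (.s k80 k95 2 (.s k240 k160 11 (.s k88 k164 13 (.s k84 k92 1 (.d k168 k248
  k252 11 13))))))] (.c k15 (.l (.s k4 k8 1 (.s k166 k247 12 (.s k242 k14 13 (.s k243 k89 14 (.s
  k240 k241 0 (.d k80 k95 k160 2 11))))))) (.c k87 (.q k171 [(.s k4 k8 1 (.s k80 k95 2 (.s k240 k160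
  11 (.s k15 k165 14 (.s k14 k13 0 (.d k166 k247 k242 12 13)))))), (.s k4 k8 1 (.s k166 k247 12 (.s
  k14 k242 13 (.s k15 k13 0 (.s k5 k10 2 (.d k165 k245 k240 11 14)))))), (.s k8 k4 1 (.s k80 k95 2
  (.s k240 k160 11 (.s k88 k164 13 (.s k84 k92 1 (.d k168 k248 k252 11 13)))))), (.s k80 k95 2 (.s
  k240 k160 11 (.s k15 k165 14 (.s k14 k13 0 (.s k88 k164 13 (.s k166 k242 13 (.d k89 k91 k243 0
  14)))))))] (.c k15 (.l (.s k4 k8 1 (.s k166 k247 12 (.s k242 k14 13 (.s k243 k89 14 (.s k240 k241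
  0 (.d k80 k95 k160 2 11))))))) (.c k240 (.f k4 k8 1 (.l (.s k166 k247 12 (.s k14 k242 13 (.s k15
  k13 0 (.s k5 k10 2 (.s k243 k89 14 (.s k167 k91 13 (.d k165 k164 k245 0 11))))))))) .n))) (.c k171
  (.q k87 [(.s k80 k95 2 (.s k84 k86 0 (.s k92 k88 1 (.d k252 k172 k168 11 13)))), (.s k4 k8 1 (.s
  k95 k80 2 (.s k91 k83 1 (.s k166 k247 12 (.d k89 k243 k88 14 0))))), (.s k4 k8 1 (.s k84 k86 0 (.s
  k164 k244 11 (.s k88 k240 13 (.s k89 k91 0 (.d k166 k247 k243 12 14))))))] (.c k88 (.l (.s k86 k84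
  0 (.s k94 k82 1 (.s k95 k80 2 (.s k92 k93 0 (.d k83 k91 k89 1 2)))))) .n)) (.c k240 (.f k4 k8 1
  (.l (.s k166 k247 12 (.s k14 k242 13 (.s k15 k13 0 (.s k5 k10 2 (.s k243 k89 14 (.s k167 k91 13
  (.d k165 k164 k245 0 11))))))))) .n))))) .n)))))))))))))

def t3_175 : T TT 256 :=
  (.q k89 [(.s k81 k93 1 (.s k243 k162 12 (.s k12 k166 14 (.s k8 k4 1 (.d k170 k251 k255 12 14)))))]
  (.c k4 (.q k1 [(.s k81 k93 1 (.s k169 k253 13 (.s k9 k249 11 (.s k13 k5 1 (.d k241 k161 k165 11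
  13))))), (.s k169 k253 13 (.s k9 k249 11 (.s k170 k255 14 (.s k8 k251 12 (.s k10 k11 0 (.d k5 k15
  k13 2 1)))))), (.s k81 k93 1 (.s k241 k161 11 (.s k243 k162 12 (.s k240 k242 0 (.s k253 k169 13
  (.s k245 k249 1 (.d k255 k250 k170 2 14))))))), (.s k81 k93 1 (.s k241 k161 11 (.s k13 k165 13 (.s
  k5 k9 1 (.s k15 k10 2 (.s k12 k14 0 (.d k243 k162 k166 12 14)))))))] (.c k169 (.l (.s k81 k93 1
  (.s k241 k161 11 (.s k165 k13 13 (.s k5 k245 11 (.s k15 k10 2 (.s k240 k90 14 (.d k243 k242 k162 0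
  12)))))))) (.c k241 (.l (.s k81 k93 1 (.s k169 k253 13 (.s k170 k255 14 (.s k243 k162 12 (.s k249
  k9 11 (.s k252 k246 2 (.d k168 k171 k84 0 13)))))))) .n))) (.c k8 (.l (.s k81 k93 1 (.s k243 k162
  12 (.s k166 k12 14 (.s k247 k4 12 (.d k255 k251 k170 1 14)))))) (.c k12 (.f k255 k170 14 (.f k81
  k93 1 (.q k165 [(.s k245 k5 11 (.s k240 k250 2 (.s k80 k160 11 (.d k90 k95 k15 2 14)))), (.s k241
  k13 13 (.s k245 k5 11 (.s k253 k249 1 (.d k1 k161 k169 11 13)))), (.s k241 k13 13 (.s k243 k162 12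
  (.s k240 k242 0 (.s k80 k160 11 (.d k90 k15 k95 14 2)))))] (.c k6 (.q k9 [(.s k5 k245 11 (.d k13
  k1 k241 1 13)), (.s k245 k5 11 (.s k240 k250 2 (.s k80 k160 11 (.d k90 k95 k15 2 14))))] (.c k5
  (.l (.s k169 k249 11 (.s k1 k253 13 (.d k161 k173 k241 1 11)))) (.c k245 (.l (.s k13 k241 13 (.s
  k1 k5 1 (.d k169 k249 k253 11 13)))) .n))) (.c k9 (.q k6 [(.s k5 k245 11 (.s k243 k162 12 (.s k247
  k251 1 (.d k4 k166 k7 12 0)))), (.s k241 k13 13 (.s k1 k161 11 (.s k245 k5 11 (.d k253 k249 k169 1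
  13))))] (.c k5 (.l (.s k241 k13 13 (.s k1 k161 11 (.s k243 k162 12 (.s k240 k242 0 (.s k245 k250 2
  (.d k253 k249 k169 1 13))))))) (.c k245 (.l (.s k241 k13 13 (.s k243 k162 12 (.s k240 k242 0 (.s
  k80 k160 11 (.d k90 k15 k95 14 2)))))) .n))) (.c k15 (.l (.s k243 k162 12 (.s k245 k5 11 (.s k240
  k250 2 (.d k241 k242 k13 0 13))))) .n)))))) (.c k81 (.q k16 [(.s k48 k32 3 (.s k154 k223 10 (.s
  k101 k207 14 (.s k117 k69 3 (.d k255 k186 k170 10 14))))), (.s k48 k32 3 (.s k154 k223 10 (.s k24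
  k219 8 (.s k12 k36 5 (.s k4 k8 1 (.d k166 k247 k243 12 14)))))), (.s k154 k223 10 (.s k24 k219 8
  (.s k20 k28 1 (.s k40 k60 5 (.s k170 k255 14 (.d k8 k56 k251 3 12)))))), (.s k48 k32 3 (.s k170
  k255 14 (.s k8 k251 12 (.s k12 k4 1 (.s k24 k36 5 (.s k20 k28 1 (.d k40 k56 k60 3 5)))))))] .n)
  (.c k93 (.q k16 [(.s k48 k32 3 (.s k255 k170 14 (.s k117 k186 10 (.s k101 k69 3 (.d k154 k223 k207
  10 14))))), (.s k48 k32 3 (.s k154 k223 10 (.s k24 k219 8 (.s k12 k36 5 (.s k4 k8 1 (.d k166 k247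
  k243 12 14)))))), (.s k154 k223 10 (.s k24 k219 8 (.s k170 k255 14 (.s k8 k251 12 (.s k40 k56 3
  (.d k20 k28 k60 1 5)))))), (.s k48 k32 3 (.s k170 k255 14 (.s k8 k251 12 (.s k12 k4 1 (.s k24 k36
  5 (.s k40 k56 3 (.d k20 k28 k60 1 5)))))))] .n) (.c k162 (.l (.s k93 k81 1 (.s k255 k170 14 (.s
  k12 k174 12 (.s k166 k243 14 (.d k4 k8 k247 1 12)))))) (.c k166 (.q k15 [(.s k10 k5 2 (.s k170
  k255 14 (.s k90 k250 11 (.s k80 k95 2 (.d k240 k160 k165 11 14))))), (.s k5 k10 2 (.s k93 k81 1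
  (.s k165 k245 11 (.s k13 k241 13 (.s k1 k9 1 (.d k253 k173 k169 11 13)))))), (.s k81 k93 1 (.s
  k243 k162 12 (.s k91 k167 13 (.s k90 k88 0 (.s k80 k95 2 (.d k240 k165 k160 14 11))))))] (.c k165
  (.l (.s k10 k5 2 (.s k81 k93 1 (.s k170 k255 14 (.s k90 k250 11 (.s k91 k88 0 (.d k243 k162 k167
  12 13))))))) .n)) (.c k170 (.q k165 [(.s k81 k93 1 (.s k245 k5 11 (.s k241 k13 13 (.s k253 k249 1
  (.d k1 k161 k169 11 13))))), (.s k5 k245 11 (.s k15 k10 2 (.s k81 k93 1 (.s k90 k240 14 (.s k91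
  k88 0 (.d k243 k162 k167 12 13)))))), (.s k5 k245 11 (.s k13 k241 13 (.s k15 k10 2 (.s k12 k14 0
  (.s k4 k8 1 (.d k166 k247 k243 12 14)))))), (.s k81 k93 1 (.s k241 k13 13 (.s k243 k162 12 (.s
  k240 k242 0 (.s k80 k160 11 (.d k90 k95 k15 2 14))))))] .n) (.c k174 (.l (.s k81 k93 1 (.s k243
  k162 12 (.s k12 k166 14 (.s k170 k255 14 (.d k8 k4 k251 1 12)))))) (.c k243 (.f k81 k93 1 (.q k83
  [(.s k80 k82 0 (.s k86 k92 2 (.s k87 k84 0 (.d k95 k91 k90 1 2)))), (.s k80 k82 0 (.s k90 k95 2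
  (.s k240 k160 11 (.s k15 k165 14 (.s k170 k255 14 (.d k10 k5 k250 2 11)))))), (.s k80 k82 0 (.s
  k92 k86 2 (.s k84 k88 1 (.s k252 k168 13 (.s k12 k172 11 (.s k8 k4 1 (.d k170 k251 k255 12
  14))))))), (.s k86 k92 2 (.s k87 k84 0 (.s k95 k91 1 (.d k80 k82 k90 0 2))))] (.c k80 (.q k16 [(.s
  k211 k146 8 (.s k150 k28 10 (.s k215 k20 8 (.d k223 k219 k154 1 10)))), (.s k48 k32 3 (.s k255
  k170 14 (.s k117 k186 10 (.s k101 k69 3 (.d k154 k223 k207 10 14))))), (.s k86 k92 2 (.s k84 k87 0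
  (.s k211 k146 8 (.s k19 k147 7 (.d k220 k152 k153 9 10)))))] .n) (.c k82 (.q k240 [(.s k80 k160 11
  (.s k86 k92 2 (.s k87 k84 0 (.d k95 k91 k90 1 2)))), (.s k255 k170 14 (.s k245 k250 2 (.s k165 k5
  11 (.s k241 k13 13 (.s k1 k161 11 (.d k253 k249 k169 1 13)))))), (.s k86 k92 2 (.s k84 k87 0 (.s
  k160 k80 11 (.s k168 k252 13 (.s k164 k172 1 (.s k12 k88 13 (.d k4 k8 k244 1 11)))))))] (.c k160
  (.l (.s k86 k92 2 (.s k84 k87 0 (.s k252 k168 13 (.s k244 k248 1 (.s k165 k7 12 (.s k5 k245 11 (.d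
  k15 k10 k90 2 14)))))))) .n)) (.c k90 (.q k1 [(.s k241 k161 11 (.s k165 k13 13 (.s k245 k5 11 (.d
  k253 k249 k169 1 13)))), (.s k86 k92 2 (.s k84 k87 0 (.s k252 k168 13 (.s k253 k169 13 (.d k255
  k170 k254 14 0)))))] (.c k169 (.l (.s k80 k82 0 (.s k240 k160 11 (.s k241 k161 11 (.s k165 k13 13
  (.s k245 k5 11 (.d k255 k170 k250 14 2))))))) (.c k253 (.l (.s k170 k255 14 (.s k241 k161 11 (.s
  k13 k165 13 (.s k5 k9 1 (.s k15 k10 2 (.s k12 k14 0 (.d k8 k251 k4 12 1)))))))) .n))) (.c k92 (.f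
  k255 k170 14 (.q k165 [(.s k80 k82 0 (.s k240 k160 11 (.d k90 k95 k15 2 14))), (.s k241 k13 13 (.s
  k245 k5 11 (.s k253 k249 1 (.d k1 k161 k169 11 13))))] (.c k94 (.q k95 [(.d k80 k82 k90 0 2), (.s
  k241 k13 13 (.s k1 k161 11 (.s k245 k5 11 (.d k253 k249 k169 1 13))))] (.c k82 (.l (.s k90 k80 2
  (.d k91 k88 k87 0 1))) .n)) (.c k95 (.q k94 [(.s k80 k82 0 (.s k240 k160 11 (.d k245 k250 k5 2
  11))), (.s k241 k13 13 (.s k245 k5 11 (.s k253 k249 1 (.d k1 k161 k169 11 13)))), (.s k80 k82 0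
  (.s k240 k160 11 (.s k15 k90 14 (.s k173 k252 12 (.s k241 k13 13 (.d k161 k169 k1 1 11))))))] (.c
  k161 (.l (.s k80 k82 0 (.s k240 k160 11 (.d k245 k250 k5 2 11)))) .n)) (.c k161 (.l (.s k80 k82 0
  (.s k240 k160 11 (.d k90 k95 k15 2 14)))) .n))))) (.c k94 (.l (.s k80 k82 0 (.s k86 k92 2 (.s k95
  k90 2 (.d k87 k84 k91 0 1))))) .n))))))) (.c k251 (.l (.s k93 k81 1 (.s k255 k170 14 (.s k12 k174
  12 (.s k4 k8 1 (.d k166 k247 k243 12 14)))))) (.c k255 (.q k15 [(.s k5 k10 2 (.s k81 k93 1 (.s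
  k165 k245 11 (.s k243 k162 12 (.s k91 k167 13 (.d k90 k240 k88 14 0)))))), (.s k5 k10 2 (.s k165
  k245 11 (.s k13 k241 13 (.s k12 k14 0 (.s k4 k8 1 (.d k166 k247 k243 12 14)))))), (.s k81 k93 1
  (.s k243 k162 12 (.s k91 k167 13 (.s k90 k88 0 (.s k80 k95 2 (.d k240 k160 k165 11 14)))))), (.s
  k5 k10 2 (.s k93 k81 1 (.s k165 k245 11 (.s k13 k241 13 (.s k253 k173 11 (.d k1 k9 k169 1
  13))))))] (.c k87 (.q k171 [(.s k5 k10 2 (.s k81 k93 1 (.s k165 k245 11 (.s k240 k90 14 (.s k243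
  k162 12 (.d k241 k242 k13 0 13)))))), (.s k81 k93 1 (.s k243 k162 12 (.s k12 k166 14 (.s k8 k4 1
  (.s k91 k167 13 (.d k251 k170 k11 12 11)))))), (.s k5 k10 2 (.s k165 k245 11 (.s k13 k241 13 (.s
  k12 k14 0 (.s k4 k8 1 (.d k166 k247 k243 12 14)))))), (.s k5 k10 2 (.s k93 k81 1 (.s k165 k245 11
  (.s k13 k241 13 (.s k253 k173 11 (.d k1 k9 k169 1 13))))))] (.c k165 (.l (.s k10 k5 2 (.s k81 k93
  1 (.s k243 k162 12 (.s k12 k166 14 (.s k8 k4 1 (.s k11 k9 0 (.d k91 k167 k251 13 11)))))))) .n))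
  (.c k165 (.f k10 k5 2 (.l (.s k81 k93 1 (.s k243 k162 12 (.s k12 k166 14 (.s k8 k4 1 (.s k170 k251
  12 (.s k90 k250 11 (.d k91 k167 k88 13 0))))))))) (.c k171 (.q k87 [(.s k81 k93 1 (.s k243 k162 12
  (.s k167 k91 13 (.s k247 k7 11 (.d k166 k12 k4 14 12))))), (.s k5 k10 2 (.s k86 k84 0 (.s k83 k92
  2 (.s k91 k95 1 (.s k165 k245 11 (.d k90 k88 k240 0 14))))))] (.c k91 (.l (.s k5 k10 2 (.s k81 k93
  1 (.s k165 k245 11 (.s k13 k241 13 (.s k12 k14 0 (.d k243 k162 k166 12 14))))))) (.c k93 (.l (.s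
  k5 k10 2 (.s k86 k84 0 (.s k83 k92 2 (.s k95 k91 1 (.s k165 k245 11 (.d k90 k80 k240 2 14)))))))
  (.c k163 (.q k167 [(.s k81 k93 1 (.d k243 k162 k91 12 13)), (.s k5 k10 2 (.s k7 k247 11 (.s k86
  k84 0 (.d k165 k245 k244 11 12))))] (.c k83 (.l (.s k243 k91 13 (.d k81 k93 k162 1 12))) (.c k243
  (.q k83 [(.d k86 k84 k92 0 2), (.s k81 k93 1 (.s k80 k82 0 (.d k95 k91 k90 1 2)))] (.c k247 (.q
  k251 [(.d k86 k84 k92 0 2), (.s k81 k93 1 (.s k80 k82 0 (.d k95 k91 k90 1 2)))] .n) (.c k251 (.l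
  (.s k247 k7 11 (.d k86 k84 k92 0 2))) .n))) .n))) (.c k167 (.q k163 [(.s k86 k84 0 (.s k83 k92 2
  (.s k95 k91 1 (.s k80 k90 2 (.d k81 k82 k93 0 1))))), (.s k5 k10 2 (.s k81 k93 1 (.s k162 k243 12
  (.s k161 k160 0 (.s k165 k245 11 (.d k241 k1 k13 11 13)))))), (.s k5 k10 2 (.s k86 k84 0 (.s k83
  k92 2 (.s k91 k95 1 (.s k165 k245 11 (.d k90 k88 k240 0 14))))))] (.c k93 (.l (.s k5 k10 2 (.s k86
  k84 0 (.s k83 k92 2 (.s k95 k91 1 (.s k165 k245 11 (.d k90 k80 k240 2 14))))))) .n)) .n))))) (.c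
  k240 (.l (.s k5 k10 2 (.s k81 k93 1 (.s k243 k162 12 (.s k12 k166 14 (.s k13 k14 0 (.d k165 k245
  k241 11 13))))))) .n))))) .n)))))))))))))

def t3_188 : T TT 256 :=
  (.f k255 k170 14 (.q k102 [(.s k68 k119 4 (.s k204 k136 9 (.s k221 k238 4 (.d k153 k17 k51 9
  14))))] (.c k17 (.q k4 [(.s k12 k8 1 (.s k93 k174 12 (.s k166 k247 12 (.d k89 k81 k243 1 14)))),
  (.s k68 k119 4 (.s k166 k247 12 (.s k38 k230 7 (.s k55 k21 4 (.d k196 k132 k149 7 12))))), (.s k12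
  k8 1 (.s k68 k119 4 (.s k132 k196 7 (.s k72 k192 9 (.s k76 k64 1 (.d k204 k140 k136 7 9))))))] .n)
  (.c k51 (.f k68 k119 4 (.q k117 [(.s k48 k186 10 (.s k16 k32 3 (.s k101 k69 3 (.d k154 k223 k207
  10 14)))), (.s k101 k69 3 (.s k100 k103 0 (.s k204 k136 9 (.d k48 k186 k152 10 13)))), (.s k48
  k186 10 (.s k32 k16 3 (.s k204 k136 9 (.s k100 k152 13 (.s k84 k116 3 (.d k168 k236 k252 9
  13))))))] (.c k19 (.q k35 [(.s k48 k186 10 (.s k16 k32 3 (.s k101 k69 3 (.d k154 k223 k207 10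
  14)))), (.s k101 k69 3 (.s k100 k103 0 (.s k84 k116 3 (.s k236 k169 10 (.d k168 k252 k32 13
  9))))), (.s k48 k186 10 (.s k32 k16 3 (.s k204 k136 9 (.s k100 k152 13 (.d k236 k168 k169 9
  10)))))] (.c k32 (.l (.s k48 k186 10 (.s k101 k69 3 (.s k100 k103 0 (.d k204 k136 k152 9 13)))))
  .n)) (.c k35 (.q k19 [(.s k48 k186 10 (.s k16 k32 3 (.s k101 k69 3 (.d k154 k223 k207 10 14)))),
  (.s k48 k186 10 (.s k32 k16 3 (.s k204 k136 9 (.s k100 k152 13 (.s k84 k116 3 (.d k168 k236 k252 9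
  13)))))), (.s k101 k69 3 (.s k100 k103 0 (.s k204 k136 9 (.d k48 k186 k152 10 13)))), (.s k69 k101
  3 (.s k70 k71 0 (.s k86 k118 3 (.s k87 k84 0 (.s k223 k155 9 (.d k207 k239 k138 3 10))))))] .n)
  (.c k48 (.l (.s k69 k101 3 (.s k204 k136 9 (.s k207 k138 10 (.s k205 k206 0 (.s k221 k238 4 (.s
  k253 k237 3 (.d k1 k137 k169 9 13)))))))) (.c k186 (.l (.s k101 k69 3 (.s k100 k103 0 (.s k204
  k136 9 (.s k48 k152 13 (.s k16 k32 3 (.d k154 k207 k223 14 10))))))) .n)))))) (.c k68 (.q k4 [(.s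
  k12 k8 1 (.s k93 k174 12 (.s k89 k81 1 (.d k166 k247 k243 12 14)))), (.s k166 k247 12 (.s k38 k230
  7 (.s k21 k55 4 (.s k63 k42 6 (.s k127 k191 7 (.s k106 k64 6 (.d k149 k213 k192 7 14)))))))] (.c
  k166 (.f k12 k8 1 (.q k89 [(.d k93 k174 k81 12 1), (.s k76 k115 6 (.s k204 k140 7 (.s k153 k51 14
  (.d k221 k238 k17 4 9))))] (.c k162 (.l (.s k174 k93 12 (.s k76 k115 6 (.s k204 k140 7 (.s k153
  k51 14 (.d k221 k238 k17 4 9)))))) (.c k174 (.q k162 [(.d k81 k93 k243 1 12), (.s k76 k115 6 (.s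
  k204 k140 7 (.s k221 k238 4 (.d k153 k17 k51 9 14))))] .n) .n)))) (.c k247 (.l (.s k12 k8 1 (.s
  k93 k174 12 (.s k89 k81 1 (.s k76 k115 6 (.s k204 k140 7 (.s k153 k51 14 (.d k221 k238 k17 4
  9)))))))) .n))) (.c k119 (.q k247 [(.s k166 k4 12 (.s k243 k251 1 (.s k81 k162 12 (.d k89 k93 k12
  1 14)))), (.s k166 k4 12 (.s k230 k38 7 (.s k213 k196 4 (.s k192 k234 6 (.s k64 k128 7 (.s k106
  k127 6 (.d k149 k21 k63 7 14)))))))] (.c k4 (.l (.s k243 k251 1 (.s k81 k162 12 (.s k89 k93 1 (.s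
  k115 k76 6 (.s k51 k179 7 (.s k17 k34 4 (.d k153 k221 k204 9 14)))))))) (.c k166 (.f k243 k251 1
  (.q k89 [(.d k81 k162 k93 12 1), (.s k115 k76 6 (.s k51 k179 7 (.s k17 k34 4 (.d k153 k221 k204 9
  14))))] (.c k162 (.q k174 [(.d k93 k81 k12 1 12), (.s k115 k76 6 (.s k51 k179 7 (.s k17 k34 4 (.d
  k153 k221 k204 9 14))))] .n) (.c k174 (.l (.s k162 k81 12 (.s k115 k76 6 (.s k51 k179 7 (.s k17
  k34 4 (.d k153 k221 k204 9 14)))))) .n)))) .n))) (.c k136 (.l (.s k119 k68 4 (.s k51 k187 9 (.s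
  k153 k204 14 (.d k17 k34 k221 4 9))))) (.c k153 (.f k119 k68 4 (.q k89 [(.s k81 k93 1 (.s k115 k76
  6 (.s k64 k98 4 (.d k127 k123 k106 1 6)))), (.s k81 k93 1 (.s k243 k162 12 (.s k166 k12 14 (.d
  k247 k251 k4 1 12)))), (.s k115 k76 6 (.s k127 k123 1 (.s k63 k191 7 (.s k21 k42 6 (.s k149 k213 7
  (.d k106 k64 k192 6 14))))))] (.c k136 (.l (.s k187 k51 9 (.s k81 k93 1 (.s k115 k76 6 (.s k64 k98
  4 (.d k127 k123 k106 1 6)))))) (.c k187 (.q k136 [(.s k81 k93 1 (.s k115 k76 6 (.s k64 k98 4 (.d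
  k127 k123 k106 1 6)))), (.s k81 k93 1 (.s k243 k162 12 (.s k166 k12 14 (.d k247 k251 k4 1 12)))),
  (.s k115 k76 6 (.s k127 k123 1 (.s k63 k191 7 (.s k21 k42 6 (.s k149 k213 7 (.d k106 k64 k192 6
  14))))))] .n) .n)))) (.c k187 (.l (.s k68 k119 4 (.s k204 k136 9 (.s k153 k51 14 (.d k221 k238 k17
  4 9))))) (.c k204 (.f k68 k119 4 (.q k4 [(.s k12 k8 1 (.s k93 k174 12 (.s k89 k81 1 (.d k166 k247
  k243 12 14)))), (.s k196 k132 7 (.s k149 k55 12 (.s k21 k213 7 (.s k63 k42 6 (.s k106 k192 14 (.d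
  k127 k64 k191 6 7))))))] (.c k12 (.l (.s k166 k247 12 (.s k38 k230 7 (.s k55 k21 4 (.d k196 k132
  k149 7 12))))) (.c k70 (.q k137 [(.s k12 k8 1 (.s k93 k174 12 (.s k89 k81 1 (.d k166 k247 k243 12
  14)))), (.s k196 k132 7 (.s k149 k55 12 (.s k21 k213 7 (.s k63 k42 6 (.s k106 k192 14 (.d k127 k64
  k191 6 7))))))] (.c k12 (.l (.s k166 k247 12 (.s k38 k230 7 (.s k55 k21 4 (.d k196 k132 k149 7
  12))))) (.c k247 (.l (.s k12 k8 1 (.s k93 k174 12 (.s k89 k81 1 (.s k76 k115 6 (.s k64 k72 1 (.d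
  k127 k110 k106 4 6))))))) .n))) (.c k137 (.q k70 [(.s k12 k8 1 (.s k93 k174 12 (.s k89 k81 1 (.d
  k166 k247 k243 12 14)))), (.s k71 k69 0 (.s k86 k118 3 (.s k84 k87 0 (.d k116 k100 k101 3 4))))]
  .n) (.c k247 (.l (.s k12 k8 1 (.s k93 k174 12 (.s k89 k81 1 (.s k76 k115 6 (.s k64 k72 1 (.d k127
  k110 k106 4 6))))))) .n)))))) (.c k221 (.q k4 [(.s k12 k8 1 (.s k93 k174 12 (.s k89 k81 1 (.d k166
  k247 k243 12 14)))), (.s k68 k119 4 (.s k166 k247 12 (.s k38 k230 7 (.s k55 k21 4 (.d k196 k132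
  k149 7 12))))), (.s k12 k8 1 (.s k68 k119 4 (.s k132 k196 7 (.s k72 k192 9 (.s k76 k64 1 (.d k204
  k140 k136 7 9))))))] .n) (.c k238 (.l (.s k119 k68 4 (.s k51 k187 9 (.s k17 k34 4 (.d k153 k221
  k204 9 14))))) .n))))))))))))

def t3_189 : T TT 256 :=
  (.f k255 k170 14 (.q k102 [(.s k68 k119 4 (.s k204 k136 9 (.s k221 k238 4 (.d k153 k17 k51 9
  14))))] (.c k17 (.q k4 [(.s k12 k8 1 (.s k93 k174 12 (.s k166 k247 12 (.d k89 k81 k243 1 14)))),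
  (.s k68 k119 4 (.s k166 k247 12 (.s k38 k230 7 (.s k55 k21 4 (.d k196 k132 k149 7 12))))), (.s k12
  k8 1 (.s k68 k119 4 (.s k132 k196 7 (.s k72 k192 9 (.s k76 k64 1 (.d k204 k140 k136 7 9))))))] .n)
  (.c k51 (.f k68 k119 4 (.q k117 [(.s k48 k186 10 (.s k16 k32 3 (.s k101 k69 3 (.d k154 k223 k207
  10 14)))), (.s k101 k69 3 (.s k100 k103 0 (.s k204 k136 9 (.d k48 k186 k152 10 13)))), (.s k48
  k186 10 (.s k32 k16 3 (.s k204 k136 9 (.s k100 k152 13 (.s k84 k116 3 (.d k168 k236 k252 9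
  13))))))] (.c k19 (.q k35 [(.s k48 k186 10 (.s k16 k32 3 (.s k101 k69 3 (.d k154 k223 k207 10
  14)))), (.s k101 k69 3 (.s k100 k103 0 (.s k84 k116 3 (.s k236 k169 10 (.d k168 k252 k32 13
  9))))), (.s k48 k186 10 (.s k32 k16 3 (.s k204 k136 9 (.s k100 k152 13 (.d k236 k168 k169 9
  10)))))] (.c k32 (.l (.s k48 k186 10 (.s k101 k69 3 (.s k100 k103 0 (.d k204 k136 k152 9 13)))))
  .n)) (.c k35 (.q k19 [(.s k48 k186 10 (.s k16 k32 3 (.s k101 k69 3 (.d k154 k223 k207 10 14)))),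
  (.s k48 k186 10 (.s k32 k16 3 (.s k204 k136 9 (.s k100 k152 13 (.s k84 k116 3 (.d k168 k236 k252 9
  13)))))), (.s k101 k69 3 (.s k100 k103 0 (.s k204 k136 9 (.d k48 k186 k152 10 13)))), (.s k69 k101
  3 (.s k70 k71 0 (.s k86 k118 3 (.s k87 k84 0 (.s k223 k155 9 (.d k207 k239 k138 3 10))))))] .n)
  (.c k48 (.l (.s k69 k101 3 (.s k204 k136 9 (.s k207 k138 10 (.s k205 k206 0 (.s k221 k238 4 (.s
  k253 k237 3 (.d k1 k137 k169 9 13)))))))) (.c k186 (.l (.s k101 k69 3 (.s k100 k103 0 (.s k204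
  k136 9 (.s k48 k152 13 (.s k16 k32 3 (.d k154 k207 k223 14 10))))))) .n)))))) (.c k68 (.q k4 [(.s
  k12 k8 1 (.s k93 k174 12 (.s k89 k81 1 (.d k166 k247 k243 12 14)))), (.s k166 k247 12 (.s k38 k230
  7 (.s k21 k55 4 (.s k63 k42 6 (.s k127 k191 7 (.s k106 k64 6 (.d k149 k213 k192 7 14)))))))] (.c
  k166 (.f k12 k8 1 (.q k89 [(.d k93 k174 k81 12 1), (.s k76 k115 6 (.s k204 k140 7 (.s k153 k51 14
  (.d k221 k238 k17 4 9))))] (.c k162 (.l (.s k174 k93 12 (.s k76 k115 6 (.s k204 k140 7 (.s k153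
  k51 14 (.d k221 k238 k17 4 9)))))) (.c k174 (.q k162 [(.d k81 k93 k243 1 12), (.s k76 k115 6 (.s
  k204 k140 7 (.s k221 k238 4 (.d k153 k17 k51 9 14))))] .n) .n)))) (.c k247 (.l (.s k12 k8 1 (.s
  k93 k174 12 (.s k89 k81 1 (.s k76 k115 6 (.s k204 k140 7 (.s k153 k51 14 (.d k221 k238 k17 4
  9)))))))) .n))) (.c k119 (.q k247 [(.s k166 k4 12 (.s k243 k251 1 (.s k81 k162 12 (.d k89 k93 k12
  1 14)))), (.s k166 k4 12 (.s k230 k38 7 (.s k213 k196 4 (.s k192 k234 6 (.s k64 k128 7 (.s k106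
  k127 6 (.d k149 k21 k63 7 14)))))))] (.c k4 (.l (.s k243 k251 1 (.s k81 k162 12 (.s k89 k93 1 (.s
  k115 k76 6 (.s k51 k179 7 (.s k17 k34 4 (.d k153 k221 k204 9 14)))))))) (.c k166 (.f k243 k251 1
  (.q k89 [(.d k81 k162 k93 12 1), (.s k115 k76 6 (.s k51 k179 7 (.s k17 k34 4 (.d k153 k221 k204 9
  14))))] (.c k162 (.q k174 [(.d k93 k81 k12 1 12), (.s k115 k76 6 (.s k51 k179 7 (.s k17 k34 4 (.d
  k153 k221 k204 9 14))))] .n) (.c k174 (.l (.s k162 k81 12 (.s k115 k76 6 (.s k51 k179 7 (.s k17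
  k34 4 (.d k153 k221 k204 9 14)))))) .n)))) .n))) (.c k136 (.l (.s k119 k68 4 (.s k51 k187 9 (.s
  k153 k204 14 (.d k17 k34 k221 4 9))))) (.c k153 (.f k119 k68 4 (.q k127 [(.s k106 k64 6 (.s k110
  k98 1 (.s k76 k93 4 (.d k115 k123 k89 1 6)))), (.s k63 k191 7 (.s k21 k42 6 (.s k149 k213 7 (.s
  k55 k196 12 (.d k51 k187 k59 9 1)))))] (.c k106 (.l (.s k63 k191 7 (.s k123 k115 1 (.s k183 k243 9
  (.s k55 k247 7 (.d k51 k59 k187 1 9)))))) (.c k136 (.l (.s k187 k51 9 (.s k63 k191 7 (.s k21 k42 6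
  (.s k106 k64 6 (.d k149 k213 k192 7 14)))))) (.c k187 (.q k136 [(.s k106 k64 6 (.s k110 k98 1 (.s
  k76 k93 4 (.d k115 k123 k89 1 6)))), (.s k63 k191 7 (.s k21 k42 6 (.s k149 k213 7 (.d k106 k64
  k192 6 14)))), (.s k63 k191 7 (.s k123 k115 1 (.s k183 k243 9 (.s k55 k247 7 (.s k149 k196 12 (.d
  k21 k213 k42 7 6))))))] .n) .n))))) (.c k187 (.l (.s k68 k119 4 (.s k204 k136 9 (.s k153 k51 14
  (.d k221 k238 k17 4 9))))) (.c k204 (.f k68 k119 4 (.q k4 [(.s k12 k8 1 (.s k93 k174 12 (.s k89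
  k81 1 (.d k166 k247 k243 12 14)))), (.s k196 k132 7 (.s k149 k55 12 (.s k21 k213 7 (.s k63 k42 6
  (.s k106 k192 14 (.d k127 k64 k191 6 7))))))] (.c k12 (.l (.s k166 k247 12 (.s k38 k230 7 (.s k55
  k21 4 (.d k196 k132 k149 7 12))))) (.c k70 (.q k137 [(.s k12 k8 1 (.s k93 k174 12 (.s k89 k81 1
  (.d k166 k247 k243 12 14)))), (.s k196 k132 7 (.s k149 k55 12 (.s k21 k213 7 (.s k63 k42 6 (.s
  k106 k192 14 (.d k127 k64 k191 6 7))))))] (.c k12 (.l (.s k166 k247 12 (.s k38 k230 7 (.s k55 k21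
  4 (.d k196 k132 k149 7 12))))) (.c k247 (.l (.s k12 k8 1 (.s k93 k174 12 (.s k89 k81 1 (.s k76
  k115 6 (.s k64 k72 1 (.d k127 k110 k106 4 6))))))) .n))) (.c k137 (.q k70 [(.s k12 k8 1 (.s k93
  k174 12 (.s k89 k81 1 (.d k166 k247 k243 12 14)))), (.s k71 k69 0 (.s k86 k118 3 (.s k84 k87 0 (.d
  k116 k100 k101 3 4))))] .n) (.c k247 (.l (.s k12 k8 1 (.s k93 k174 12 (.s k89 k81 1 (.s k76 k115 6
  (.s k64 k72 1 (.d k127 k110 k106 4 6))))))) .n)))))) (.c k221 (.q k4 [(.s k12 k8 1 (.s k93 k174 12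
  (.s k89 k81 1 (.d k166 k247 k243 12 14)))), (.s k68 k119 4 (.s k166 k247 12 (.s k38 k230 7 (.s k55
  k21 4 (.d k196 k132 k149 7 12))))), (.s k12 k8 1 (.s k68 k119 4 (.s k132 k196 7 (.s k72 k192 9 (.s
  k76 k64 1 (.d k204 k140 k136 7 9))))))] .n) (.c k238 (.l (.s k119 k68 4 (.s k51 k187 9 (.s k17 k34
  4 (.d k153 k221 k204 9 14))))) .n))))))))))))

def t3_190 : T TT 256 :=
  (.q k106 [(.s k64 k127 6 (.s k192 k128 7 (.s k63 k149 14 (.s k42 k21 6 (.d k170 k234 k255 7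
  14)))))] (.c k21 (.q k4 [(.s k12 k8 1 (.s k166 k247 12 (.s k89 k243 14 (.s k93 k81 1 (.d k255 k174
  k170 12 14))))), (.s k12 k8 1 (.s k64 k127 6 (.s k166 k247 12 (.s k46 k226 9 (.s k63 k29 4 (.d
  k192 k128 k149 7 14)))))), (.s k64 k127 6 (.s k166 k247 12 (.s k170 k255 14 (.s k192 k128 7 (.s
  k226 k46 9 (.s k243 k209 4 (.d k162 k174 k81 1 12))))))), (.s k8 k12 1 (.s k170 k255 14 (.s k42
  k234 7 (.s k59 k25 4 (.s k153 k200 12 (.s k187 k136 4 (.d k251 k123 k89 7 12)))))))] .n) (.c k42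
  (.l (.s k64 k127 6 (.s k192 k128 7 (.s k149 k63 14 (.s k213 k21 7 (.d k255 k234 k170 6 14))))))
  (.c k63 (.f k127 k64 6 (.q k111 [(.s k79 k95 3 (.s k101 k96 2 (.s k112 k90 6 (.d k117 k122 k69 2
  3)))), (.s k101 k96 2 (.s k170 k255 14 (.s k234 k42 7 (.s k239 k32 10 (.s k47 k175 7 (.d k224 k229
  k165 2 10)))))), (.s k95 k79 3 (.s k255 k170 14 (.s k15 k175 11 (.s k5 k10 2 (.s k165 k245 11 (.d
  k90 k80 k240 2 14))))))] (.c k23 (.q k43 [(.s k79 k95 3 (.s k101 k96 2 (.s k112 k90 6 (.d k117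
  k122 k69 2 3)))), (.s k101 k96 2 (.s k170 k255 14 (.s k234 k42 7 (.s k239 k32 10 (.s k47 k175 7
  (.d k224 k229 k165 2 10)))))), (.s k95 k79 3 (.s k255 k170 14 (.s k15 k175 11 (.s k5 k10 2 (.s
  k165 k245 11 (.d k90 k80 k240 2 14))))))] (.c k80 (.l (.s k79 k95 3 (.s k101 k96 2 (.s k112 k90 6
  (.d k117 k122 k69 2 3))))) (.c k95 (.l (.s k101 k96 2 (.s k69 k117 3 (.s k170 k255 14 (.s k32 k239
  10 (.s k48 k16 3 (.d k207 k138 k154 10 14))))))) .n))) (.c k43 (.q k23 [(.s k79 k95 3 (.s k101 k96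
  2 (.s k112 k90 6 (.d k117 k122 k69 2 3)))), (.s k101 k96 2 (.s k170 k255 14 (.s k234 k42 7 (.s
  k239 k32 10 (.s k47 k175 7 (.d k224 k229 k165 2 10)))))), (.s k95 k79 3 (.s k255 k170 14 (.s k15
  k175 11 (.s k5 k10 2 (.s k165 k245 11 (.d k90 k80 k240 2 14))))))] (.c k80 (.l (.s k79 k95 3 (.s
  k101 k96 2 (.s k112 k90 6 (.d k117 k122 k69 2 3))))) (.c k95 (.l (.s k101 k96 2 (.s k69 k117 3 (.s
  k170 k255 14 (.s k32 k239 10 (.s k48 k16 3 (.d k207 k138 k154 10 14))))))) .n))) (.c k80 (.l (.s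
  k79 k95 3 (.s k101 k96 2 (.s k112 k90 6 (.d k117 k122 k69 2 3))))) (.c k95 (.l (.s k101 k96 2 (.s
  k69 k117 3 (.s k170 k255 14 (.s k32 k239 10 (.s k48 k16 3 (.d k207 k138 k154 10 14))))))) .n))))))
  (.c k64 (.q k4 [(.s k12 k8 1 (.s k166 k247 12 (.s k46 k226 9 (.s k63 k29 4 (.s k21 k42 6 (.d k149
  k213 k192 7 14)))))), (.s k12 k8 1 (.s k166 k247 12 (.s k89 k243 14 (.s k93 k81 1 (.d k255 k174
  k170 12 14))))), (.s k166 k247 12 (.s k46 k226 9 (.s k170 k255 14 (.s k42 k234 7 (.s k21 k63 6 (.d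
  k38 k34 k55 1 4)))))), (.s k8 k12 1 (.s k170 k255 14 (.s k42 k234 7 (.s k59 k25 4 (.s k153 k200 12
  (.s k187 k136 4 (.d k251 k123 k89 7 12)))))))] .n) (.c k127 (.q k4 [(.s k12 k8 1 (.s k166 k247 12
  (.s k89 k243 14 (.s k93 k81 1 (.d k255 k174 k170 12 14))))), (.s k12 k8 1 (.s k166 k247 12 (.s k46
  k226 9 (.s k63 k29 4 (.s k21 k42 6 (.d k149 k213 k192 7 14)))))), (.s k166 k247 12 (.s k46 k226 9
  (.s k170 k255 14 (.s k42 k234 7 (.s k38 k34 1 (.d k21 k63 k55 6 4)))))), (.s k8 k12 1 (.s k170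
  k255 14 (.s k42 k234 7 (.s k59 k25 4 (.s k153 k200 12 (.s k187 k136 4 (.d k251 k123 k89 7
  12)))))))] .n) (.c k128 (.l (.s k127 k64 6 (.s k255 k170 14 (.s k63 k191 7 (.s k149 k192 14 (.d
  k21 k42 k213 6 7)))))) (.c k149 (.q k4 [(.s k12 k8 1 (.s k166 k247 12 (.s k89 k243 14 (.s k93 k81
  1 (.d k255 k174 k170 12 14))))), (.s k166 k247 12 (.s k46 k226 9 (.s k170 k255 14 (.s k42 k234 7
  (.s k21 k63 6 (.d k38 k34 k55 1 4)))))), (.s k8 k12 1 (.s k170 k255 14 (.s k42 k234 7 (.s k59 k25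
  4 (.s k153 k200 12 (.s k187 k136 4 (.d k251 k123 k89 7 12))))))), (.s k12 k8 1 (.s k64 k127 6 (.s
  k166 k247 12 (.s k192 k128 7 (.s k72 k132 9 (.d k89 k123 k243 4 14))))))] (.c k170 (.l (.s k12 k8
  1 (.s k64 k127 6 (.s k166 k247 12 (.s k89 k243 14 (.s k72 k123 4 (.d k192 k128 k132 7 9)))))))
  .n)) (.c k170 (.f k64 k127 6 (.q k150 [(.s k20 k215 8 (.s k60 k40 5 (.s k62 k194 13 (.s k63 k61 0
  (.d k192 k128 k149 7 14))))), (.s k20 k215 8 (.s k192 k128 7 (.s k149 k63 14 (.s k21 k213 7 (.s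
  k148 k151 0 (.s k212 k84 7 (.d k23 k22 k86 0 8))))))), (.s k192 k128 7 (.s k194 k62 13 (.s k195
  k193 0 (.s k65 k130 8 (.d k105 k125 k60 5 14))))), (.s k20 k215 8 (.s k60 k40 5 (.s k105 k195 14
  (.s k65 k125 5 (.s k104 k107 0 (.s k124 k84 5 (.d k67 k66 k86 0 6)))))))] .n)) (.c k191 (.l (.s
  k64 k127 6 (.s k192 k128 7 (.s k63 k149 14 (.s k170 k255 14 (.d k42 k21 k234 6 7)))))) (.c k192
  (.f k64 k127 6 (.q k68 [(.s k102 k119 4 (.s k98 k110 1 (.s k115 k81 4 (.d k76 k72 k89 1 6)))), (.s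
  k102 k119 4 (.s k170 k255 14 (.s k34 k238 9 (.s k51 k17 4 (.d k204 k136 k153 9 14))))), (.s k72
  k76 1 (.s k136 k204 9 (.s k170 k255 14 (.s k200 k8 7 (.d k153 k187 k59 4 12)))))] (.c k66 (.q k129
  [(.s k102 k119 4 (.s k98 k110 1 (.s k115 k81 4 (.d k76 k72 k89 1 6)))), (.s k102 k119 4 (.s k170
  k255 14 (.s k34 k238 9 (.s k51 k17 4 (.d k204 k136 k153 9 14))))), (.s k72 k76 1 (.s k136 k204 9
  (.s k170 k255 14 (.s k200 k8 7 (.d k153 k187 k59 4 12)))))] .n) (.c k129 (.q k66 [(.s k76 k72 1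
  (.s k102 k119 4 (.s k98 k110 1 (.d k115 k81 k89 4 6)))), (.s k67 k65 0 (.s k86 k126 5 (.s k84 k87
  0 (.d k124 k104 k105 5 6))))] .n) .n)))) (.c k234 (.l (.s k127 k64 6 (.s k255 k170 14 (.s k63 k191
  7 (.s k21 k42 6 (.d k149 k213 k192 7 14)))))) (.c k255 (.q k60 [(.s k20 k40 5 (.s k64 k127 6 (.s
  k150 k215 8 (.s k62 k194 13 (.s k63 k61 0 (.d k192 k128 k149 7 14)))))), (.s k64 k127 6 (.s k192
  k128 7 (.s k104 k148 13 (.s k105 k107 0 (.s k65 k125 5 (.d k195 k130 k150 8 14)))))), (.s k20 k40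
  5 (.s k150 k215 8 (.s k62 k194 13 (.s k63 k61 0 (.s k21 k42 6 (.d k149 k213 k192 7 14)))))), (.s
  k40 k20 5 (.s k64 k127 6 (.s k192 k128 7 (.s k104 k148 13 (.s k84 k124 5 (.d k168 k232 k252 7
  13))))))] (.c k63 (.l (.s k20 k40 5 (.s k150 k215 8 (.s k194 k62 13 (.s k195 k105 14 (.s k192 k193
  0 (.d k64 k127 k128 6 7))))))) (.c k87 (.q k171 [(.s k20 k40 5 (.s k64 k127 6 (.s k192 k128 7 (.s
  k63 k149 14 (.s k62 k61 0 (.d k150 k215 k194 8 13)))))), (.s k20 k40 5 (.s k150 k215 8 (.s k62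
  k194 13 (.s k63 k61 0 (.s k21 k42 6 (.d k149 k213 k192 7 14)))))), (.s k40 k20 5 (.s k64 k127 6
  (.s k192 k128 7 (.s k104 k148 13 (.s k84 k124 5 (.d k168 k232 k252 7 13)))))), (.s k64 k127 6 (.s
  k192 k128 7 (.s k63 k149 14 (.s k62 k61 0 (.s k104 k148 13 (.s k150 k194 13 (.d k105 k107 k195 0
  14)))))))] (.c k63 (.l (.s k20 k40 5 (.s k150 k215 8 (.s k194 k62 13 (.s k195 k105 14 (.s k192
  k193 0 (.d k64 k127 k128 6 7))))))) (.c k192 (.f k20 k40 5 (.l (.s k150 k215 8 (.s k62 k194 13 (.s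
  k63 k61 0 (.s k21 k42 6 (.s k195 k105 14 (.s k151 k107 13 (.d k149 k148 k213 0 7))))))))) .n)))
  (.c k171 (.q k87 [(.s k64 k127 6 (.s k84 k86 0 (.s k124 k104 5 (.d k252 k188 k168 7 13)))), (.s
  k20 k40 5 (.s k127 k64 6 (.s k107 k67 5 (.s k150 k215 8 (.d k105 k195 k104 14 0))))), (.s k20 k40
  5 (.s k84 k86 0 (.s k148 k212 7 (.s k104 k192 13 (.s k105 k107 0 (.d k150 k215 k195 8 14))))))]
  (.c k104 (.l (.s k86 k84 0 (.s k126 k66 5 (.s k127 k64 6 (.s k124 k125 0 (.d k67 k107 k105 5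
  6)))))) .n)) (.c k192 (.f k20 k40 5 (.l (.s k150 k215 8 (.s k62 k194 13 (.s k63 k61 0 (.s k21 k42
  6 (.s k195 k105 14 (.s k151 k107 13 (.d k149 k148 k213 0 7))))))))) .n))))) .n)))))))))))))

def t3_191 : T TT 256 :=
  (.q k89 [(.s k81 k93 1 (.s k243 k162 12 (.s k12 k166 14 (.s k8 k4 1 (.d k170 k251 k255 12 14)))))]
  (.c k4 (.q k1 [(.s k93 k81 1 (.s k253 k169 13 (.s k13 k173 11 (.s k165 k241 13 (.d k5 k9 k245 1
  11))))), (.s k81 k93 1 (.s k170 k255 14 (.s k241 k161 11 (.s k243 k162 12 (.s k240 k242 0 (.s k160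
  k80 11 (.d k165 k175 k13 2 13))))))), (.s k169 k253 13 (.s k9 k249 11 (.s k170 k255 14 (.s k8 k251
  12 (.s k10 k11 0 (.d k5 k15 k13 2 1))))))] (.c k13 (.l (.s k81 k93 1 (.s k241 k161 11 (.s k243
  k162 12 (.s k240 k242 0 (.s k253 k169 13 (.s k245 k249 1 (.d k255 k250 k170 2 14)))))))) (.c k241
  (.l (.s k81 k93 1 (.s k169 k253 13 (.s k170 k255 14 (.s k243 k162 12 (.s k249 k9 11 (.s k252 k246
  2 (.d k168 k171 k84 0 13)))))))) .n))) (.c k8 (.l (.s k81 k93 1 (.s k243 k162 12 (.s k166 k12 14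
  (.s k247 k4 12 (.d k255 k251 k170 1 14)))))) (.c k12 (.f k255 k170 14 (.f k81 k93 1 (.q k149 [(.s
  k213 k21 7 (.s k192 k234 6 (.s k64 k128 7 (.d k106 k127 k63 6 14)))), (.s k209 k29 9 (.s k17 k145
  7 (.s k213 k21 7 (.d k221 k217 k153 1 9)))), (.s k209 k29 9 (.s k243 k162 12 (.s k192 k226 4 (.s
  k64 k128 7 (.d k106 k63 k127 14 6)))))] (.c k6 (.q k9 [(.s k209 k29 9 (.s k17 k145 7 (.s k213 k21
  7 (.d k221 k217 k153 1 9)))), (.s k169 k249 11 (.s k1 k253 13 (.s k13 k5 1 (.d k241 k161 k165 11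
  13))))] .n) (.c k9 (.q k6 [(.s k213 k21 7 (.s k192 k234 6 (.s k64 k128 7 (.d k106 k127 k63 6
  14)))), (.s k209 k29 9 (.s k17 k145 7 (.s k213 k21 7 (.d k221 k217 k153 1 9)))), (.s k209 k29 9
  (.s k243 k162 12 (.s k192 k226 4 (.s k64 k128 7 (.d k106 k63 k127 14 6)))))] (.c k63 (.l (.s k213
  k21 7 (.s k192 k234 6 (.s k243 k162 12 (.d k209 k226 k29 4 9))))) .n)) (.c k63 (.l (.s k213 k21 7
  (.s k192 k234 6 (.s k243 k162 12 (.d k209 k226 k29 4 9))))) .n)))))) (.c k81 (.q k15 [(.s k5 k10 2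
  (.s k165 k245 11 (.s k90 k240 14 (.s k95 k80 2 (.d k255 k175 k170 11 14))))), (.s k5 k10 2 (.s
  k165 k245 11 (.s k13 k241 13 (.s k12 k14 0 (.s k4 k8 1 (.d k166 k247 k243 12 14)))))), (.s k170
  k255 14 (.s k8 k251 12 (.s k12 k4 1 (.s k13 k14 0 (.s k165 k241 13 (.s k160 k175 2 (.d k240 k80
  k90 11 14))))))), (.s k10 k5 2 (.s k170 k255 14 (.s k8 k251 12 (.s k11 k9 0 (.s k90 k250 11 (.s
  k88 k91 0 (.d k248 k168 k169 11 12)))))))] .n) (.c k93 (.q k15 [(.s k5 k10 2 (.s k165 k245 11 (.s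
  k90 k240 14 (.s k95 k80 2 (.d k255 k175 k170 11 14))))), (.s k5 k10 2 (.s k165 k245 11 (.s k13
  k241 13 (.s k12 k14 0 (.s k4 k8 1 (.d k166 k247 k243 12 14)))))), (.s k170 k255 14 (.s k8 k251 12
  (.s k12 k4 1 (.s k13 k14 0 (.s k165 k241 13 (.s k160 k175 2 (.d k240 k80 k90 11 14)))))))] (.c
  k165 (.l (.s k10 k5 2 (.s k170 k255 14 (.s k8 k251 12 (.s k11 k9 0 (.s k90 k250 11 (.s k88 k91 0
  (.d k248 k168 k169 11 12)))))))) .n)) (.c k162 (.l (.s k93 k81 1 (.s k255 k170 14 (.s k12 k174 12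
  (.s k166 k243 14 (.d k4 k8 k247 1 12)))))) (.c k166 (.q k1 [(.s k81 k93 1 (.s k169 k253 13 (.s k9
  k249 11 (.s k13 k5 1 (.d k241 k161 k165 11 13))))), (.s k81 k93 1 (.s k170 k255 14 (.s k241 k161
  11 (.s k243 k162 12 (.s k240 k242 0 (.s k160 k80 11 (.d k165 k175 k13 2 13))))))), (.s k169 k253
  13 (.s k9 k249 11 (.s k170 k255 14 (.s k8 k251 12 (.s k10 k11 0 (.d k5 k15 k13 2 1))))))] (.c k13
  (.l (.s k81 k93 1 (.s k241 k161 11 (.s k243 k162 12 (.s k240 k242 0 (.s k253 k169 13 (.s k245 k249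
  1 (.d k255 k170 k250 14 2)))))))) (.c k241 (.l (.s k81 k93 1 (.s k169 k253 13 (.s k170 k255 14 (.s
  k243 k162 12 (.s k249 k9 11 (.s k252 k246 2 (.d k168 k171 k84 0 13)))))))) .n))) (.c k170 (.q k149
  [(.s k21 k213 7 (.s k29 k209 9 (.s k17 k25 1 (.s k93 k81 1 (.d k221 k157 k153 7 9))))), (.s k21
  k213 7 (.s k63 k42 6 (.s k81 k93 1 (.s k106 k192 14 (.s k123 k72 4 (.d k243 k183 k162 9 12)))))),
  (.s k21 k213 7 (.s k29 k209 9 (.s k63 k42 6 (.s k12 k46 4 (.s k4 k8 1 (.d k166 k247 k243 12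
  14)))))), (.s k81 k93 1 (.s k209 k29 9 (.s k243 k162 12 (.s k192 k226 4 (.s k64 k128 7 (.d k106
  k127 k63 6 14))))))] .n) (.c k174 (.l (.s k81 k93 1 (.s k243 k162 12 (.s k12 k166 14 (.s k170 k255
  14 (.d k8 k4 k251 1 12)))))) (.c k243 (.f k255 k170 14 (.f k81 k93 1 (.q k149 [(.s k209 k29 9 (.s
  k17 k145 7 (.s k213 k21 7 (.d k221 k217 k153 1 9)))), (.s k213 k21 7 (.s k192 k234 6 (.s k64 k128
  7 (.d k106 k127 k63 6 14)))), (.s k209 k29 9 (.s k17 k145 7 (.s k51 k34 4 (.s k119 k187 9 (.s k102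
  k68 4 (.d k153 k221 k204 9 14))))))] (.c k83 (.q k163 [(.s k209 k29 9 (.s k17 k145 7 (.s k213 k21
  7 (.d k221 k217 k153 1 9)))), (.s k213 k21 7 (.s k192 k234 6 (.s k64 k128 7 (.d k106 k127 k63 6
  14)))), (.s k209 k29 9 (.s k17 k145 7 (.s k51 k34 4 (.s k119 k187 9 (.s k102 k68 4 (.d k153 k221
  k204 9 14))))))] .n) (.c k163 (.q k83 [(.s k209 k29 9 (.s k17 k145 7 (.s k213 k21 7 (.d k221 k217
  k153 1 9)))), (.s k80 k82 0 (.s k86 k92 2 (.s k87 k84 0 (.d k95 k91 k90 1 2))))] .n) .n))))) (.c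
  k251 (.l (.s k93 k81 1 (.s k255 k170 14 (.s k12 k174 12 (.s k4 k8 1 (.d k166 k247 k243 12 14))))))
  (.c k255 (.q k63 [(.s k21 k42 6 (.s k81 k93 1 (.s k149 k213 7 (.s k192 k106 14 (.s k243 k162 12
  (.d k209 k226 k29 4 9)))))), (.s k81 k93 1 (.s k243 k162 12 (.s k123 k183 9 (.s k106 k72 4 (.s k64
  k127 6 (.d k192 k128 k149 7 14)))))), (.s k21 k42 6 (.s k93 k81 1 (.s k149 k213 7 (.s k29 k209 9
  (.s k17 k25 1 (.d k221 k157 k153 7 9)))))), (.s k21 k42 6 (.s k149 k213 7 (.s k29 k209 9 (.s k12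
  k46 4 (.s k4 k8 1 (.d k166 k247 k243 12 14))))))] (.c k87 (.q k171 [(.s k21 k42 6 (.s k81 k93 1
  (.s k149 k213 7 (.s k192 k106 14 (.s k243 k162 12 (.d k209 k226 k29 4 9)))))), (.s k81 k93 1 (.s
  k243 k162 12 (.s k123 k183 9 (.s k106 k72 4 (.s k64 k127 6 (.d k192 k128 k149 7 14)))))), (.s k21
  k42 6 (.s k93 k81 1 (.s k149 k213 7 (.s k29 k209 9 (.s k17 k25 1 (.d k221 k157 k153 7 9)))))), (.s
  k21 k42 6 (.s k149 k213 7 (.s k29 k209 9 (.s k12 k46 4 (.s k4 k8 1 (.d k166 k247 k243 12 14))))))]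
  (.c k149 (.f k21 k42 6 (.l (.s k81 k93 1 (.s k243 k162 12 (.s k12 k166 14 (.s k4 k8 1 (.s k29 k46
  4 (.s k25 k17 1 (.d k38 k55 k51 4 6))))))))) (.c k192 (.l (.s k21 k42 6 (.s k81 k93 1 (.s k243
  k162 12 (.s k12 k166 14 (.s k29 k46 4 (.d k149 k213 k209 7 9))))))) .n))) (.c k149 (.f k21 k42 6
  (.l (.s k81 k93 1 (.s k243 k162 12 (.s k12 k166 14 (.s k4 k8 1 (.s k29 k46 4 (.s k25 k17 1 (.d k38
  k55 k51 4 6))))))))) (.c k171 (.q k87 [(.s k86 k84 0 (.s k83 k92 2 (.s k95 k91 1 (.s k80 k90 2 (.d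
  k81 k82 k93 0 1))))), (.s k21 k42 6 (.s k81 k93 1 (.s k149 k213 7 (.s k29 k209 9 (.s k12 k46 4 (.d
  k243 k162 k166 12 14)))))), (.s k21 k42 6 (.s k86 k84 0 (.s k149 k213 7 (.s k23 k212 8 (.s k20 k22
  0 (.d k215 k151 k150 7 8))))))] (.c k131 (.q k151 [(.s k21 k42 6 (.s k23 k215 7 (.s k86 k84 0 (.d
  k149 k213 k212 7 8)))), (.s k81 k93 1 (.s k86 k84 0 (.s k83 k92 2 (.s k80 k82 0 (.d k95 k91 k90 1
  2))))), (.s k21 k42 6 (.s k149 k213 7 (.s k150 k148 0 (.d k215 k23 k20 7 8))))] (.c k67 (.l (.s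
  k195 k107 13 (.s k21 k42 6 (.s k23 k215 7 (.s k86 k84 0 (.d k149 k213 k212 7 8)))))) (.c k195 (.q
  k67 [(.s k21 k42 6 (.s k215 k23 7 (.s k150 k20 8 (.d k149 k148 k213 0 7)))), (.s k81 k93 1 (.s k86
  k84 0 (.s k83 k92 2 (.s k80 k82 0 (.d k95 k91 k90 1 2)))))] (.c k215 (.q k235 [(.s k21 k42 6 (.s
  k127 k107 5 (.s k106 k64 6 (.d k149 k213 k192 7 14)))), (.s k81 k93 1 (.s k86 k84 0 (.s k83 k92 2
  (.s k80 k82 0 (.d k95 k91 k90 1 2)))))] .n) (.c k235 (.l (.s k215 k23 7 (.s k21 k42 6 (.s k149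
  k213 7 (.d k150 k148 k20 0 8))))) .n))) .n))) (.c k151 (.q k131 [(.s k86 k84 0 (.s k83 k92 2 (.s
  k95 k91 1 (.s k80 k90 2 (.d k81 k82 k93 0 1))))), (.s k21 k42 6 (.s k149 k213 7 (.s k29 k209 9 (.s
  k12 k46 4 (.s k4 k8 1 (.d k166 k247 k243 12 14))))))] .n) .n))) (.c k192 (.l (.s k21 k42 6 (.s k81
  k93 1 (.s k243 k162 12 (.s k12 k166 14 (.s k29 k46 4 (.d k149 k213 k209 7 9))))))) .n)))))
  .n)))))))))))))

def t3_252 : T TT 256 :=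
  (.q k153 [(.s k221 k17 9 (.s k255 k170 14 (.s k204 k238 4 (.s k68 k136 9 (.d k102 k119 k51 4
  14)))))] (.c k17 (.q k64 [(.s k106 k127 6 (.s k192 k128 7 (.s k63 k149 14 (.s k42 k21 6 (.d k170
  k234 k255 7 14))))), (.s k106 k127 6 (.s k192 k128 7 (.s k200 k59 12 (.s k204 k196 1 (.s k68 k136
  9 (.d k102 k119 k51 4 14)))))), (.s k106 k127 6 (.s k170 k255 14 (.s k136 k187 4 (.s k68 k204 9
  (.s k72 k76 1 (.d k200 k8 k59 7 12)))))), (.s k128 k192 7 (.s k170 k255 14 (.s k136 k187 4 (.s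
  k140 k132 1 (.s k166 k179 6 (.s k174 k162 1 (.d k191 k157 k149 4 6)))))))] (.c k86 (.q k169 [(.s
  k106 k127 6 (.s k192 k128 7 (.s k63 k149 14 (.s k42 k21 6 (.d k170 k234 k255 7 14))))), (.s k137
  k185 3 (.s k170 k255 14 (.s k136 k187 4 (.s k139 k138 0 (.s k184 k154 4 (.d k168 k171 k152 0
  3)))))), (.s k106 k127 6 (.s k43 k232 8 (.s k59 k200 12 (.s k11 k27 3 (.s k185 k137 3 (.d k248
  k122 k90 8 12))))))] .n) (.c k169 (.q k86 [(.s k84 k87 0 (.s k106 k127 6 (.s k124 k104 5 (.s k67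
  k105 6 (.d k66 k65 k126 0 5))))), (.s k106 k127 6 (.s k192 k128 7 (.s k63 k149 14 (.s k42 k21 6
  (.d k170 k234 k255 7 14))))), (.s k128 k192 7 (.s k170 k255 14 (.s k136 k187 4 (.s k140 k132 1 (.s
  k166 k179 6 (.s k174 k162 1 (.d k191 k157 k149 4 6)))))))] (.c k255 (.l (.s k87 k84 0 (.s k127
  k106 6 (.s k67 k107 5 (.s k65 k66 0 (.d k105 k125 k124 5 6)))))) .n)) .n))) (.c k34 (.l (.s k221
  k17 9 (.s k255 k170 14 (.s k204 k238 4 (.s k102 k51 14 (.d k68 k119 k136 4 9)))))) (.c k51 (.f k17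
  k221 9 (.q k19 [(.s k16 k18 0 (.s k86 k220 10 (.s k87 k84 0 (.d k223 k155 k154 9 10)))), (.s k16
  k18 0 (.s k48 k32 3 (.s k255 k170 14 (.s k117 k186 10 (.s k101 k69 3 (.d k154 k223 k207 10
  14)))))), (.s k86 k220 10 (.s k87 k84 0 (.s k223 k155 9 (.d k16 k18 k154 0 10))))] (.c k16 (.q
  k166 [(.s k247 k4 12 (.s k255 k170 14 (.s k243 k251 1 (.s k81 k162 12 (.d k89 k93 k12 1 14))))),
  (.s k4 k247 12 (.s k86 k220 10 (.s k84 k87 0 (.s k244 k164 11 (.s k7 k165 12 (.d k6 k5 k246 0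
  11)))))), (.s k170 k255 14 (.s k162 k174 1 (.s k179 k140 6 (.s k145 k128 4 (.d k81 k209 k243 7
  12)))))] (.c k86 (.q k169 [(.s k1 k253 13 (.s k49 k33 3 (.s k205 k101 13 (.d k137 k185 k69 3
  9)))), (.s k4 k247 12 (.s k12 k8 1 (.s k89 k243 14 (.s k93 k81 1 (.d k255 k174 k170 12 14)))))]
  (.c k118 (.l (.s k185 k137 3 (.s k163 k172 2 (.s k179 k140 6 (.s k131 k147 3 (.d k188 k182 k150 2
  6)))))) (.c k185 (.q k118 [(.s k247 k4 12 (.s k255 k170 14 (.s k243 k251 1 (.s k81 k162 12 (.d k89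
  k93 k12 1 14))))), (.s k140 k179 6 (.s k170 k255 14 (.s k174 k162 1 (.s k191 k157 4 (.s k128 k149
  6 (.d k136 k187 k132 4 1)))))), (.s k4 k247 12 (.s k12 k8 1 (.s k89 k243 14 (.s k25 k217 7 (.s k29
  k21 1 (.s k81 k93 1 (.d k209 k145 k149 7 9)))))))] (.c k93 (.l (.s k4 k247 12 (.s k12 k8 1 (.s
  k170 k255 14 (.s k162 k174 1 (.d k243 k81 k89 12 14)))))) (.c k243 (.l (.s k163 k172 2 (.s k170
  k255 14 (.s k162 k174 1 (.s k160 k161 0 (.s k171 k168 0 (.d k175 k167 k165 1 2))))))) (.c k255 (.f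
  k4 k247 12 (.l (.s k12 k8 1 (.s k140 k179 6 (.s k204 k76 7 (.s k68 k136 9 (.s k243 k89 14 (.s k230
  k217 6 (.d k102 k119 k38 4 7))))))))) .n)))) (.c k255 (.l (.s k140 k179 6 (.s k172 k163 2 (.s k188
  k156 3 (.s k131 k150 6 (.d k137 k134 k185 2 3)))))) .n)))) (.c k118 (.q k185 [(.s k169 k137 3 (.s
  k179 k140 6 (.s k188 k182 2 (.s k131 k150 6 (.d k163 k172 k147 2 3))))), (.s k4 k247 12 (.s k12 k8
  1 (.s k170 k255 14 (.s k162 k174 1 (.d k243 k81 k89 12 14)))))] (.c k86 (.l (.s k169 k137 3 (.s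
  k163 k172 2 (.s k179 k140 6 (.s k131 k147 3 (.d k188 k182 k150 2 6)))))) (.c k169 (.l (.s k86 k220
  10 (.s k4 k247 12 (.s k6 k246 11 (.s k7 k5 0 (.s k84 k87 0 (.d k244 k164 k165 11 12))))))) (.c
  k204 (.l (.s k4 k247 12 (.s k12 k8 1 (.s k89 k243 14 (.s k93 k81 1 (.d k255 k174 k170 12 14))))))
  .n)))) (.c k169 (.l (.s k86 k220 10 (.s k4 k247 12 (.s k6 k246 11 (.s k7 k5 0 (.s k84 k87 0 (.d
  k244 k164 k165 11 12))))))) (.c k185 (.q k118 [(.s k247 k4 12 (.s k255 k170 14 (.s k243 k251 1 (.s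
  k81 k162 12 (.d k89 k93 k12 1 14))))), (.s k4 k247 12 (.s k86 k220 10 (.s k84 k87 0 (.s k244 k164
  11 (.s k7 k165 12 (.d k6 k5 k246 0 11)))))), (.s k170 k255 14 (.s k162 k174 1 (.s k179 k140 6 (.s
  k145 k128 4 (.d k81 k209 k243 7 12)))))] (.c k86 (.q k169 [(.s k247 k4 12 (.s k255 k170 14 (.s
  k243 k251 1 (.s k81 k162 12 (.d k89 k93 k12 1 14))))), (.s k140 k179 6 (.s k170 k255 14 (.s k174
  k162 1 (.s k191 k157 4 (.s k128 k149 6 (.d k136 k187 k132 4 1)))))), (.s k4 k247 12 (.s k12 k8 1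
  (.s k89 k243 14 (.s k25 k217 7 (.s k29 k21 1 (.s k81 k93 1 (.d k209 k145 k149 7 9)))))))] (.c k93
  (.l (.s k4 k247 12 (.s k12 k8 1 (.s k170 k255 14 (.s k162 k174 1 (.d k243 k81 k89 12 14)))))) (.c
  k243 (.l (.s k163 k172 2 (.s k170 k255 14 (.s k162 k174 1 (.s k160 k161 0 (.s k171 k168 0 (.d k175
  k167 k165 1 2))))))) (.c k255 (.f k4 k247 12 (.l (.s k12 k8 1 (.s k140 k179 6 (.s k204 k76 7 (.s
  k68 k136 9 (.s k243 k89 14 (.s k230 k217 6 (.d k102 k119 k38 4 7))))))))) .n)))) (.c k169 (.l (.s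
  k86 k220 10 (.s k4 k247 12 (.s k6 k246 11 (.s k7 k5 0 (.s k84 k87 0 (.d k244 k164 k165 11
  12))))))) (.c k255 (.l (.s k4 k247 12 (.s k86 k220 10 (.s k6 k246 11 (.s k7 k5 0 (.s k244 k165 12
  (.d k84 k87 k164 0 11))))))) .n)))) (.c k255 (.l (.s k4 k247 12 (.s k86 k220 10 (.s k6 k246 11 (.s
  k7 k5 0 (.s k244 k165 12 (.d k84 k87 k164 0 11))))))) .n)))))) (.c k18 (.f k86 k220 10 (.l (.s k87
  k84 0 (.s k223 k155 9 (.s k255 k170 14 (.s k207 k239 3 (.s k69 k138 10 (.s k101 k117 3 (.d k154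
  k16 k48 10 14))))))))) (.c k86 (.q k169 [(.s k1 k253 13 (.s k49 k33 3 (.s k205 k101 13 (.d k137
  k185 k69 3 9)))), (.s k170 k255 14 (.s k171 k168 0 (.s k185 k137 3 (.s k187 k136 4 (.s k139 k155 3
  (.d k184 k186 k154 0 4)))))), (.s k16 k18 0 (.s k48 k32 3 (.s k154 k223 10 (.s k101 k207 14 (.s
  k117 k69 3 (.d k255 k186 k170 10 14))))))] (.c k118 (.l (.s k185 k137 3 (.s k16 k18 0 (.s k48 k32
  3 (.s k253 k1 13 (.s k117 k49 9 (.d k255 k186 k170 10 14))))))) (.c k185 (.q k118 [(.s k1 k253 13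
  (.s k16 k18 0 (.s k48 k32 3 (.s k49 k33 3 (.s k154 k223 10 (.d k101 k205 k207 13 14)))))), (.s
  k170 k255 14 (.s k171 k168 0 (.s k187 k136 4 (.s k155 k139 3 (.s k223 k87 9 (.d k154 k152 k16 0
  10)))))), (.s k16 k18 0 (.s k154 k223 10 (.s k139 k184 4 (.s k155 k152 0 (.s k187 k171 3 (.d k170
  k136 k255 4 14))))))] (.c k16 (.f k1 k253 13 (.l (.s k49 k33 3 (.s k205 k101 13 (.s k69 k137 9 (.s
  k207 k138 10 (.s k204 k206 0 (.s k136 k68 9 (.d k170 k187 k255 4 14))))))))) (.c k154 (.f k1 k253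
  13 (.l (.s k49 k33 3 (.s k205 k101 13 (.s k69 k137 9 (.s k207 k138 10 (.s k204 k206 0 (.s k136 k68
  9 (.d k170 k187 k255 4 14))))))))) (.c k223 (.l (.s k1 k253 13 (.s k16 k18 0 (.s k48 k32 3 (.s k49
  k33 3 (.s k255 k170 14 (.s k117 k186 10 (.d k101 k205 k69 13 3)))))))) (.c k255 (.l (.s k16 k18 0
  (.s k48 k32 3 (.s k154 k223 10 (.s k152 k155 0 (.s k184 k139 4 (.s k136 k168 3 (.d k204 k100 k68
  13 9)))))))) .n))))) (.c k255 (.l (.s k16 k18 0 (.s k48 k32 3 (.s k154 k223 10 (.s k139 k184 4 (.s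
  k207 k101 14 (.s k138 k69 10 (.d k137 k136 k185 0 3)))))))) .n)))) (.c k118 (.q k185 [(.s k16 k18
  0 (.s k86 k220 10 (.s k87 k84 0 (.d k223 k155 k154 9 10)))), (.s k169 k137 3 (.s k170 k255 14 (.s
  k171 k168 0 (.s k187 k136 4 (.s k139 k155 3 (.d k184 k186 k154 0 4)))))), (.s k169 k137 3 (.s k16
  k18 0 (.s k48 k32 3 (.s k253 k1 13 (.s k117 k49 9 (.d k255 k186 k170 10 14))))))] (.c k86 (.l (.s
  k169 k137 3 (.s k16 k18 0 (.s k48 k32 3 (.s k253 k1 13 (.s k117 k49 9 (.d k255 k186 k170 10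
  14))))))) (.c k169 (.l (.s k86 k220 10 (.s k16 k18 0 (.s k87 k84 0 (.d k223 k155 k154 9 10)))))
  (.c k204 (.l (.s k16 k18 0 (.s k154 k223 10 (.s k152 k155 0 (.d k220 k84 k86 9 10))))) .n)))) (.c
  k154 (.f k18 k16 0 (.q k64 [(.s k106 k127 6 (.s k192 k128 7 (.s k63 k149 14 (.s k42 k21 6 (.d k170
  k234 k255 7 14))))), (.s k86 k220 10 (.s k84 k87 0 (.s k106 k127 6 (.s k124 k104 5 (.s k67 k105 6
  (.d k66 k65 k126 0 5))))))] (.c k86 (.q k169 [(.s k1 k253 13 (.s k49 k33 3 (.s k205 k101 13 (.d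
  k137 k185 k69 3 9)))), (.s k185 k137 3 (.s k106 k127 6 (.s k43 k232 8 (.s k59 k200 12 (.s k11 k27
  3 (.d k248 k122 k90 8 12))))))] (.c k118 (.l (.s k185 k137 3 (.s k106 k127 6 (.s k43 k232 8 (.s
  k59 k200 12 (.s k11 k27 3 (.d k248 k122 k90 8 12))))))) (.c k137 (.l (.s k106 k127 6 (.s k170 k255
  14 (.s k42 k234 7 (.s k63 k21 6 (.d k192 k128 k149 7 14)))))) (.c k185 (.q k118 [(.s k106 k127 6
  (.s k192 k128 7 (.s k63 k149 14 (.s k42 k21 6 (.d k170 k234 k255 7 14))))), (.s k106 k127 6 (.s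
  k170 k255 14 (.s k192 k128 7 (.s k200 k59 12 (.s k204 k196 1 (.d k136 k187 k68 4 9)))))), (.s k106
  k127 6 (.s k59 k200 12 (.s k170 k255 14 (.s k187 k136 4 (.s k251 k123 7 (.s k8 k89 12 (.d k42 k25
  k234 4 7)))))))] (.c k63 (.l (.s k127 k106 6 (.s k170 k255 14 (.s k128 k192 7 (.s k149 k191 6 (.s
  k145 k157 1 (.s k81 k209 7 (.d k162 k243 k179 12 4)))))))) (.c k106 (.l (.s k128 k192 7 (.s k170
  k255 14 (.s k149 k191 6 (.s k145 k157 1 (.s k81 k209 7 (.d k162 k243 k179 12 4))))))) (.c k127 (.l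
  (.s k128 k192 7 (.s k170 k255 14 (.s k171 k168 0 (.s k191 k149 6 (.s k131 k151 5 (.s k150 k188 6
  (.d k130 k129 k190 0 5)))))))) (.c k170 (.l (.s k106 k127 6 (.s k192 k128 7 (.s k149 k63 14 (.s
  k21 k213 7 (.s k29 k25 1 (.s k145 k157 1 (.d k209 k81 k89 7 9)))))))) (.c k191 (.l (.s k106 k127 6
  (.s k192 k128 7 (.s k63 k149 14 (.s k170 k255 14 (.d k42 k21 k234 6 7)))))) (.c k255 (.f k106 k127
  6 (.l (.s k192 k128 7 (.s k63 k149 14 (.s k42 k21 6 (.s k170 k234 7 (.s k200 k59 12 (.s k204 k196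
  1 (.d k136 k187 k68 4 9))))))))) .n))))))) .n)))) (.c k106 (.l (.s k128 k192 7 (.s k170 k255 14
  (.s k149 k191 6 (.s k145 k157 1 (.s k81 k209 7 (.d k162 k243 k179 12 4))))))) (.c k118 (.q k185
  [(.s k106 k127 6 (.s k192 k128 7 (.s k63 k149 14 (.s k42 k21 6 (.d k170 k234 k255 7 14))))), (.s
  k86 k220 10 (.s k84 k87 0 (.s k106 k127 6 (.s k124 k104 5 (.s k67 k105 6 (.d k66 k65 k126 0
  5))))))] (.c k86 (.l (.s k169 k137 3 (.s k106 k127 6 (.s k43 k232 8 (.s k59 k200 12 (.s k11 k27 3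
  (.d k248 k122 k90 8 12))))))) (.c k106 (.l (.s k128 k192 7 (.s k170 k255 14 (.s k149 k191 6 (.s
  k145 k157 1 (.s k81 k209 7 (.d k162 k243 k179 12 4))))))) (.c k127 (.l (.s k128 k192 7 (.s k170
  k255 14 (.s k187 k136 4 (.s k191 k149 6 (.s k179 k183 1 (.s k166 k140 6 (.d k162 k145 k174 4
  1)))))))) (.c k169 (.l (.s k86 k220 10 (.s k84 k87 0 (.s k106 k127 6 (.s k66 k126 5 (.s k67 k65 0
  (.d k124 k104 k105 5 6))))))) (.c k255 (.l (.s k86 k220 10 (.s k106 k127 6 (.s k66 k126 5 (.s k67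
  k65 0 (.s k124 k105 6 (.d k84 k87 k104 0 5))))))) .n)))))) (.c k127 (.l (.s k128 k192 7 (.s k170
  k255 14 (.s k187 k136 4 (.s k191 k149 6 (.s k179 k183 1 (.s k166 k140 6 (.d k162 k145 k174 4
  1)))))))) (.c k169 (.l (.s k86 k220 10 (.s k84 k87 0 (.s k106 k127 6 (.s k66 k126 5 (.s k67 k65 0
  (.d k124 k104 k105 5 6))))))) (.c k185 (.q k118 [(.s k106 k127 6 (.s k192 k128 7 (.s k63 k149 14
  (.s k42 k21 6 (.d k170 k234 k255 7 14))))), (.s k86 k220 10 (.s k102 k70 3 (.s k119 k68 4 (.s k116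
  k117 0 (.s k71 k101 4 (.d k87 k84 k103 0 3))))))] (.c k86 (.q k169 [(.s k106 k127 6 (.s k192 k128
  7 (.s k63 k149 14 (.s k42 k21 6 (.d k170 k234 k255 7 14))))), (.s k106 k127 6 (.s k170 k255 14 (.s
  k192 k128 7 (.s k200 k59 12 (.s k204 k196 1 (.d k136 k187 k68 4 9)))))), (.s k106 k127 6 (.s k59
  k200 12 (.s k170 k255 14 (.s k187 k136 4 (.s k251 k123 7 (.s k8 k89 12 (.d k42 k25 k234 4
  7)))))))] (.c k63 (.l (.s k127 k106 6 (.s k170 k255 14 (.s k128 k192 7 (.s k149 k191 6 (.s k145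
  k157 1 (.s k81 k209 7 (.d k162 k243 k179 12 4)))))))) (.c k106 (.l (.s k128 k192 7 (.s k170 k255
  14 (.s k149 k191 6 (.s k145 k157 1 (.s k81 k209 7 (.d k162 k243 k179 12 4))))))) (.c k127 (.l (.s
  k128 k192 7 (.s k170 k255 14 (.s k171 k168 0 (.s k191 k149 6 (.s k131 k151 5 (.s k150 k188 6 (.d
  k130 k129 k190 0 5)))))))) (.c k170 (.l (.s k106 k127 6 (.s k192 k128 7 (.s k149 k63 14 (.s k21
  k213 7 (.s k29 k25 1 (.s k145 k157 1 (.d k209 k81 k89 7 9)))))))) (.c k191 (.l (.s k106 k127 6 (.s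
  k192 k128 7 (.s k63 k149 14 (.s k170 k255 14 (.d k42 k21 k234 6 7)))))) (.c k255 (.f k106 k127 6
  (.l (.s k192 k128 7 (.s k63 k149 14 (.s k42 k21 6 (.s k170 k234 7 (.s k200 k59 12 (.s k204 k196 1
  (.d k136 k187 k68 4 9))))))))) .n))))))) (.c k169 (.l (.s k86 k220 10 (.s k84 k87 0 (.s k106 k127
  6 (.s k66 k126 5 (.s k67 k65 0 (.d k124 k104 k105 5 6))))))) .n))) (.c k255 (.l (.s k86 k220 10
  (.s k106 k127 6 (.s k66 k126 5 (.s k67 k65 0 (.s k124 k105 6 (.d k84 k87 k104 0 5)))))))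
  .n))))))))) (.c k169 (.l (.s k86 k220 10 (.s k16 k18 0 (.s k87 k84 0 (.d k223 k155 k154 9 10)))))
  (.c k185 (.q k118 [(.s k16 k18 0 (.s k86 k220 10 (.s k87 k84 0 (.d k223 k155 k154 9 10)))), (.s
  k16 k18 0 (.s k48 k32 3 (.s k255 k170 14 (.s k117 k186 10 (.s k101 k69 3 (.d k154 k223 k207 10
  14)))))), (.s k86 k220 10 (.s k102 k70 3 (.s k119 k68 4 (.s k116 k117 0 (.s k71 k101 4 (.d k87 k84
  k103 0 3))))))] (.c k86 (.q k169 [(.s k1 k253 13 (.s k16 k18 0 (.s k48 k32 3 (.s k49 k33 3 (.s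
  k154 k223 10 (.d k101 k205 k207 13 14)))))), (.s k170 k255 14 (.s k171 k168 0 (.s k187 k136 4 (.s
  k155 k139 3 (.s k223 k87 9 (.d k154 k152 k16 0 10)))))), (.s k16 k18 0 (.s k154 k223 10 (.s k139
  k184 4 (.s k155 k152 0 (.s k187 k171 3 (.d k170 k136 k255 4 14))))))] (.c k16 (.f k1 k253 13 (.l
  (.s k49 k33 3 (.s k205 k101 13 (.s k69 k137 9 (.s k207 k138 10 (.s k204 k206 0 (.s k136 k68 9 (.d
  k170 k187 k255 4 14))))))))) (.c k154 (.f k1 k253 13 (.l (.s k49 k33 3 (.s k205 k101 13 (.s k69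
  k137 9 (.s k207 k138 10 (.s k204 k206 0 (.s k136 k68 9 (.d k170 k187 k255 4 14))))))))) (.c k223
  (.l (.s k1 k253 13 (.s k16 k18 0 (.s k48 k32 3 (.s k49 k33 3 (.s k255 k170 14 (.s k117 k186 10 (.d
  k101 k205 k69 13 3)))))))) (.c k255 (.l (.s k16 k18 0 (.s k48 k32 3 (.s k154 k223 10 (.s k152 k155
  0 (.s k184 k139 4 (.s k136 k168 3 (.d k204 k100 k68 13 9)))))))) .n))))) (.c k169 (.l (.s k86 k220
  10 (.s k16 k18 0 (.s k87 k84 0 (.d k223 k155 k154 9 10))))) (.c k223 (.l (.s k16 k18 0 (.s k48 k32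
  3 (.s k255 k170 14 (.s k117 k186 10 (.s k101 k69 3 (.s k116 k119 0 (.d k86 k71 k220 4 10))))))))
  .n)))) (.c k223 (.f k16 k18 0 (.l (.s k48 k32 3 (.s k255 k170 14 (.s k117 k186 10 (.s k101 k69 3
  (.s k49 k205 13 (.s k1 k33 3 (.d k253 k185 k169 9 13))))))))) .n)))))))))) (.c k68 (.f k255 k170
  14 (.f k17 k221 9 (.q k86 [(.s k19 k220 10 (.s k87 k84 0 (.s k223 k155 9 (.d k16 k18 k154 0
  10)))), (.s k51 k34 4 (.s k87 k84 0 (.s k119 k187 9 (.s k71 k103 3 (.s k116 k101 4 (.s k118 k117 0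
  (.d k102 k70 k204 3 14))))))), (.s k19 k220 10 (.s k16 k18 0 (.s k48 k32 3 (.s k117 k186 10 (.s
  k101 k69 3 (.d k154 k223 k207 10 14))))))] (.c k204 (.l (.s k84 k87 0 (.s k220 k19 10 (.s k16 k152
  9 (.s k48 k32 3 (.s k117 k186 10 (.s k101 k69 3 (.d k154 k223 k207 10 14)))))))) .n)))) (.c k86
  (.q k169 [(.s k185 k137 3 (.s k221 k17 9 (.s k253 k1 13 (.s k49 k117 9 (.d k205 k237 k101 3
  13))))), (.s k137 k185 3 (.s k170 k255 14 (.s k136 k187 4 (.s k139 k138 0 (.s k184 k154 4 (.d k168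
  k171 k152 0 3)))))), (.s k17 k221 9 (.s k51 k34 4 (.s k102 k204 14 (.s k119 k68 4 (.d k255 k187
  k170 9 14)))))] (.c k137 (.l (.s k17 k221 9 (.s k51 k34 4 (.s k170 k255 14 (.s k136 k187 4 (.d
  k204 k68 k102 9 14)))))) .n)) (.c k102 (.f k221 k17 9 (.q k154 [(.s k155 k152 0 (.s k223 k16 10
  (.s k19 k87 9 (.d k220 k86 k222 10 0)))), (.s k16 k223 10 (.s k48 k32 3 (.s k101 k207 14 (.s k117
  k69 3 (.d k255 k186 k170 10 14))))), (.s k152 k155 0 (.s k170 k255 14 (.s k136 k187 4 (.s k138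
  k186 3 (.s k139 k137 0 (.d k184 k169 k168 4 3))))))] (.c k86 (.q k169 [(.s k185 k137 3 (.s k253 k1
  13 (.s k49 k117 9 (.d k205 k237 k101 3 13)))), (.s k139 k184 4 (.s k155 k152 0 (.s k170 k255 14
  (.d k171 k168 k187 0 3))))] (.c k70 (.q k118 [(.s k137 k185 3 (.s k139 k184 4 (.s k136 k138 0 (.d
  k170 k187 k255 4 14)))), (.s k253 k1 13 (.s k205 k237 3 (.s k49 k101 13 (.d k185 k137 k117 3
  9))))] (.c k116 (.l (.s k137 k185 3 (.s k170 k255 14 (.s k136 k187 4 (.d k138 k186 k139 3 0)))))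
  (.c k137 (.q k204 [(.d k255 k238 k170 4 14), (.s k16 k223 10 (.s k48 k32 3 (.d k152 k155 k100 0
  13)))] .n) (.c k185 (.l (.s k139 k184 4 (.s k155 k152 0 (.s k170 k255 14 (.d k171 k168 k187 0
  3))))) (.c k204 (.l (.s k137 k185 3 (.s k139 k184 4 (.s k136 k138 0 (.d k170 k187 k255 4 14)))))
  .n))))) (.c k118 (.q k70 [(.s k185 k137 3 (.s k253 k1 13 (.s k49 k117 9 (.d k205 k237 k101 3
  13)))), (.s k184 k139 4 (.s k185 k137 3 (.s k187 k186 0 (.d k170 k136 k255 4 14))))] (.c k51 (.l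
  (.s k185 k137 3 (.s k170 k255 14 (.s k184 k139 4 (.d k186 k187 k138 0 3))))) (.c k137 (.l (.s k139
  k184 4 (.s k155 k152 0 (.s k170 k255 14 (.d k171 k168 k187 0 3))))) (.c k185 (.q k51 [(.s k16 k223
  10 (.s k48 k32 3 (.s k155 k152 0 (.d k207 k103 k101 13 14)))), (.s k152 k155 0 (.s k170 k255 14
  (.s k136 k187 4 (.d k168 k171 k184 0 3)))), (.s k16 k223 10 (.s k48 k32 3 (.s k49 k50 0 (.d k101
  k205 k207 13 14))))] .n) .n)))) (.c k253 (.l (.s k137 k185 3 (.s k139 k184 4 (.s k136 k138 0 (.d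
  k170 k187 k255 4 14))))) .n)))) (.c k169 (.q k86 [(.s k220 k19 10 (.d k222 k18 k223 9 0)), (.s
  k152 k155 0 (.s k170 k255 14 (.s k136 k187 4 (.s k138 k186 3 (.s k204 k68 9 (.s k48 k100 13 (.d
  k207 k101 k69 14 10)))))))] (.c k35 (.q k236 [(.s k223 k16 10 (.d k220 k19 k222 10 0)), (.s k152
  k155 0 (.s k170 k255 14 (.s k136 k187 4 (.s k168 k184 3 (.s k100 k32 9 (.d k204 k48 k68 13
  9))))))] (.c k19 (.q k51 [(.s k16 k223 10 (.s k48 k32 3 (.s k155 k152 0 (.d k207 k103 k101 13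
  14)))), (.s k255 k170 14 (.s k238 k204 4 (.s k239 k237 0 (.d k223 k207 k16 3 10)))), (.s k18 k222
  9 (.s k155 k152 0 (.s k170 k255 14 (.s k138 k186 3 (.d k207 k69 k103 10 13)))))] (.c k16 (.l (.s
  k18 k222 9 (.s k155 k152 0 (.s k170 k255 14 (.s k138 k186 3 (.d k207 k69 k103 10 13)))))) (.c k18
  (.l (.s k16 k223 10 (.s k48 k32 3 (.s k49 k50 0 (.d k101 k205 k207 13 14))))) (.c k207 (.l (.s k16
  k223 10 (.s k48 k32 3 (.s k49 k50 0 (.s k101 k205 13 (.s k117 k69 3 (.d k255 k186 k170 10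
  14))))))) .n)))) (.c k51 (.l (.s k19 k220 10 (.s k87 k84 0 (.d k155 k152 k223 0 9)))) .n))) (.c
  k51 (.l (.s k222 k18 9 (.d k220 k19 k223 10 0))) (.c k236 (.q k35 [(.s k220 k19 10 (.d k222 k18
  k223 9 0)), (.s k152 k155 0 (.s k170 k255 14 (.s k136 k187 4 (.s k138 k186 3 (.s k204 k68 9 (.s
  k48 k100 13 (.d k207 k101 k69 14 10)))))))] (.c k204 (.l (.s k220 k19 10 (.d k222 k18 k223 9 0)))
  (.c k220 (.q k204 [(.d k255 k238 k170 4 14), (.s k16 k223 10 (.s k48 k32 3 (.d k152 k100 k155 13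
  0)))] .n) .n))) .n)))) (.c k255 (.l (.s k155 k152 0 (.s k223 k16 10 (.s k220 k222 0 (.d k19 k87
  k86 9 10))))) .n))))) (.c k119 (.l (.s k17 k221 9 (.s k51 k34 4 (.s k170 k255 14 (.s k136 k187 4
  (.d k204 k68 k102 9 14)))))) (.c k136 (.l (.s k17 k221 9 (.s k51 k34 4 (.s k102 k204 14 (.s k119
  k68 4 (.d k255 k187 k170 9 14)))))) (.c k169 (.q k86 [(.s k17 k221 9 (.s k19 k220 10 (.s k87 k84 0
  (.s k223 k155 9 (.d k16 k18 k154 0 10))))), (.s k17 k221 9 (.s k51 k34 4 (.s k170 k255 14 (.s k136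
  k187 4 (.d k204 k68 k102 9 14)))))] (.c k17 (.q k4 [(.s k12 k8 1 (.s k166 k247 12 (.s k170 k255 14
  (.s k162 k174 1 (.d k243 k81 k89 12 14))))), (.s k87 k84 0 (.s k247 k166 12 (.s k7 k167 11 (.s k5
  k6 0 (.d k165 k245 k244 11 12))))), (.s k8 k12 1 (.s k170 k255 14 (.s k136 k187 4 (.s k200 k72 7
  (.s k59 k106 12 (.s k25 k42 4 (.d k89 k217 k251 7 12)))))))] (.c k12 (.l (.s k84 k87 0 (.s k166
  k247 12 (.s k6 k246 11 (.s k7 k5 0 (.d k244 k164 k165 11 12)))))) (.c k87 (.l (.s k12 k8 1 (.s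
  k166 k247 12 (.s k89 k243 14 (.s k93 k81 1 (.d k255 k174 k170 12 14)))))) .n))) (.c k87 (.l (.s
  k17 k221 9 (.s k51 k34 4 (.s k102 k204 14 (.s k119 k68 4 (.d k255 k187 k170 9 14)))))) (.c k204
  (.l (.s k84 k87 0 (.s k220 k19 10 (.s k16 k152 9 (.s k221 k17 9 (.d k223 k222 k154 0 10)))))) (.c
  k221 (.q k4 [(.s k12 k8 1 (.s k166 k247 12 (.s k89 k243 14 (.s k93 k81 1 (.d k255 k174 k170 12
  14))))), (.s k84 k87 0 (.s k166 k247 12 (.s k244 k164 11 (.s k7 k165 12 (.d k6 k5 k246 0 11))))),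
  (.s k8 k12 1 (.s k170 k255 14 (.s k136 k187 4 (.s k200 k72 7 (.s k59 k106 12 (.s k25 k42 4 (.d k89
  k217 k251 7 12)))))))] (.c k255 (.l (.s k87 k84 0 (.s k247 k166 12 (.s k7 k167 11 (.s k5 k6 0 (.d
  k165 k245 k244 11 12)))))) .n)) .n))))) (.c k170 (.f k17 k221 9 (.q k207 [(.s k51 k34 4 (.s k155
  k103 13 (.s k154 k152 0 (.s k16 k223 10 (.d k48 k32 k101 3 14))))), (.s k69 k138 10 (.s k101 k117
  3 (.s k205 k49 13 (.s k204 k206 0 (.s k68 k136 9 (.d k102 k119 k51 4 14)))))), (.s k69 k138 10 (.s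
  k101 k117 3 (.s k154 k48 14 (.s k16 k223 10 (.s k152 k155 0 (.s k220 k84 9 (.d k19 k18 k86 0
  10)))))))] (.c k86 (.q k169 [(.s k1 k253 13 (.s k69 k138 10 (.d k137 k205 k185 9 3))), (.s k1 k253
  13 (.s k49 k33 3 (.s k51 k34 4 (.s k48 k50 0 (.d k101 k205 k154 13 14))))), (.s k69 k138 10 (.s
  k117 k101 3 (.s k185 k137 3 (.d k253 k49 k1 9 13))))] (.c k1 (.l (.s k51 k34 4 (.s k69 k138 10 (.s
  k101 k117 3 (.s k49 k205 13 (.d k48 k154 k50 14 0)))))) (.c k2 (.q k254 [(.s k1 k253 13 (.s k69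
  k138 10 (.d k137 k205 k185 9 3))), (.s k1 k253 13 (.s k49 k33 3 (.s k51 k34 4 (.s k205 k101 13 (.d
  k204 k102 k206 14 0))))), (.s k69 k138 10 (.s k117 k101 3 (.s k185 k137 3 (.d k253 k49 k1 9
  13))))] (.c k1 (.l (.s k51 k34 4 (.s k69 k138 10 (.s k101 k117 3 (.s k49 k205 13 (.d k48 k50 k154
  0 14)))))) (.c k206 (.l (.s k1 k253 13 (.s k137 k185 3 (.d k69 k205 k138 9 10)))) (.c k253 (.l (.s
  k69 k138 10 (.s k137 k185 3 (.s k205 k1 9 (.d k101 k117 k49 3 13))))) .n)))) (.c k154 (.l (.s k1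
  k253 13 (.s k137 k185 3 (.d k69 k205 k138 9 10)))) (.c k253 (.l (.s k69 k138 10 (.s k137 k185 3
  (.s k205 k1 9 (.d k101 k117 k49 3 13))))) (.c k254 (.q k2 [(.s k69 k138 10 (.s k137 k185 3 (.d k1
  k253 k205 13 9))), (.s k51 k34 4 (.s k155 k103 13 (.s k154 k152 0 (.s k16 k223 10 (.d k48 k32 k101
  3 14)))))] (.c k51 (.l (.s k69 k138 10 (.s k101 k117 3 (.s k33 k237 9 (.d k1 k253 k49 13 3)))))
  (.c k154 (.l (.s k51 k34 4 (.s k138 k69 10 (.s k206 k70 9 (.d k204 k102 k205 14 0))))) (.c k253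
  (.q k255 [(.s k51 k34 4 (.s k119 k187 9 (.d k102 k68 k204 4 14))), (.s k69 k138 10 (.s k101 k117 3
  (.s k154 k48 14 (.d k223 k239 k16 3 10))))] (.c k205 (.q k237 [(.s k69 k138 10 (.d k101 k117 k33 3
  9)), (.s k51 k34 4 (.s k102 k204 14 (.d k119 k68 k187 4 9)))] .n) (.c k237 (.q k205 [(.s k51 k34 4
  (.d k204 k102 k206 14 0)), (.s k69 k138 10 (.d k101 k117 k49 3 13))] .n) .n))) (.c k255 (.l (.s
  k253 k1 13 (.s k69 k138 10 (.s k117 k101 3 (.d k185 k137 k49 3 9))))) .n))))) .n)))))) (.c k101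
  (.l (.s k51 k34 4 (.s k102 k204 14 (.s k119 k68 4 (.s k155 k103 13 (.s k154 k152 0 (.s k223 k16 10
  (.d k255 k239 k187 3 9)))))))) (.c k154 (.l (.s k51 k34 4 (.s k102 k204 14 (.s k103 k155 13 (.s
  k101 k100 0 (.d k69 k117 k138 3 10)))))) (.c k169 (.q k86 [(.s k51 k34 4 (.s k87 k84 0 (.s k155
  k103 13 (.d k19 k223 k220 9 10)))), (.s k19 k220 10 (.s k16 k18 0 (.s k48 k32 3 (.d k154 k223 k101
  10 14)))), (.s k51 k34 4 (.s k69 k138 10 (.s k101 k117 3 (.s k49 k205 13 (.d k48 k154 k50 14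
  0)))))] (.c k168 (.q k171 [(.s k51 k34 4 (.s k87 k84 0 (.s k155 k103 13 (.d k19 k223 k220 9
  10)))), (.s k19 k220 10 (.s k16 k18 0 (.s k48 k32 3 (.d k154 k223 k101 10 14)))), (.s k51 k34 4
  (.s k69 k138 10 (.s k101 k117 3 (.s k49 k205 13 (.d k48 k154 k50 14 0)))))] .n) (.c k171 (.q k168
  [(.s k51 k34 4 (.s k87 k84 0 (.s k155 k103 13 (.d k19 k223 k220 9 10)))), (.s k19 k220 10 (.s k16
  k18 0 (.s k48 k32 3 (.d k154 k223 k101 10 14)))), (.s k51 k34 4 (.s k69 k138 10 (.s k101 k117 3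
  (.s k49 k205 13 (.d k48 k154 k50 14 0)))))] (.c k87 (.q k255 [(.s k51 k34 4 (.s k119 k187 9 (.d
  k102 k68 k204 4 14))), (.s k19 k220 10 (.s k16 k18 0 (.d k223 k239 k154 3 10)))] (.c k204 (.l (.s
  k223 k239 3 (.s k16 k154 10 (.d k19 k18 k220 0 10)))) .n)) (.c k255 (.l (.s k87 k84 0 (.s k19 k220
  10 (.s k16 k18 0 (.d k223 k155 k154 9 10))))) .n))) .n))) .n)))))) (.c k204 (.f k221 k17 9 (.q
  k149 [(.s k157 k145 1 (.s k29 k93 7 (.s k209 k89 9 (.d k213 k217 k21 1 7)))), (.s k145 k157 1 (.s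
  k170 k255 14 (.s k128 k191 6 (.s k136 k187 4 (.s k140 k132 1 (.d k179 k162 k166 4 6)))))), (.s k21
  k213 7 (.s k63 k42 6 (.s k106 k192 14 (.s k127 k64 6 (.d k255 k191 k170 7 14)))))] (.c k70 (.q
  k137 [(.s k157 k145 1 (.s k29 k93 7 (.s k209 k89 9 (.d k213 k217 k21 1 7)))), (.s k145 k157 1 (.s
  k169 k185 3 (.s k129 k189 5 (.s k141 k133 1 (.d k177 k161 k165 3 5))))), (.s k21 k213 7 (.s k63
  k42 6 (.s k106 k192 14 (.s k127 k64 6 (.d k255 k191 k170 7 14)))))] (.c k86 (.l (.s k169 k185 3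
  (.s k129 k189 5 (.s k141 k133 1 (.s k145 k157 1 (.d k177 k161 k165 3 5)))))) (.c k169 (.q k86 [(.s
  k157 k145 1 (.s k29 k93 7 (.s k209 k89 9 (.d k213 k217 k21 1 7)))), (.s k84 k87 0 (.s k220 k19 10
  (.s k16 k152 9 (.d k223 k222 k154 0 10))))] (.c k220 (.q k236 [(.s k157 k145 1 (.s k29 k93 7 (.s
  k213 k21 7 (.d k209 k217 k89 1 9)))), (.s k145 k157 1 (.s k170 k255 14 (.s k128 k191 6 (.s k136
  k187 4 (.s k140 k132 1 (.d k179 k162 k166 4 6)))))), (.s k21 k213 7 (.s k23 k212 8 (.s k20 k22 0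
  (.s k87 k84 0 (.d k215 k151 k150 7 8)))))] .n) (.c k236 (.l (.s k220 k19 10 (.s k84 k87 0 (.s k16
  k152 9 (.d k223 k222 k154 0 10))))) .n))) (.c k220 (.q k236 [(.s k157 k145 1 (.s k29 k93 7 (.s
  k209 k89 9 (.d k213 k217 k21 1 7)))), (.s k145 k157 1 (.s k169 k185 3 (.s k129 k189 5 (.s k141
  k133 1 (.d k177 k161 k165 3 5))))), (.s k21 k213 7 (.s k63 k42 6 (.s k106 k192 14 (.s k127 k64 6
  (.d k255 k191 k170 7 14)))))] (.c k86 (.l (.s k169 k185 3 (.s k129 k189 5 (.s k141 k133 1 (.s k145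
  k157 1 (.d k177 k161 k165 3 5)))))) (.c k169 (.q k86 [(.s k157 k145 1 (.s k29 k93 7 (.s k213 k21 7
  (.d k209 k217 k89 1 9)))), (.s k145 k157 1 (.s k170 k255 14 (.s k128 k191 6 (.s k136 k187 4 (.s
  k140 k132 1 (.d k179 k162 k166 4 6)))))), (.s k21 k213 7 (.s k23 k212 8 (.s k20 k22 0 (.s k87 k84
  0 (.d k215 k151 k150 7 8)))))] .n) .n))) (.c k236 (.q k220 [(.s k157 k145 1 (.s k29 k93 7 (.s k209
  k89 9 (.d k213 k217 k21 1 7)))), (.s k86 k19 10 (.s k84 k87 0 (.s k16 k152 9 (.d k223 k222 k154 0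
  10))))] (.c k86 (.l (.s k169 k185 3 (.s k129 k189 5 (.s k141 k133 1 (.s k145 k157 1 (.d k177 k161
  k165 3 5)))))) (.c k169 (.l (.s k86 k19 10 (.s k84 k87 0 (.s k16 k152 9 (.d k223 k222 k154 0
  10))))) .n))) .n))))) (.c k86 (.q k169 [(.s k157 k145 1 (.s k29 k93 7 (.s k213 k21 7 (.d k209 k217
  k89 1 9)))), (.s k253 k1 13 (.s k205 k237 3 (.s k49 k101 13 (.d k185 k137 k117 3 9))))] (.c k70
  (.l (.s k137 k185 3 (.s k129 k189 5 (.s k141 k133 1 (.s k145 k157 1 (.d k177 k161 k165 3 5))))))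
  (.c k137 (.q k70 [(.s k157 k145 1 (.s k29 k93 7 (.s k213 k21 7 (.d k209 k217 k89 1 9)))), (.s k1
  k253 13 (.s k21 k213 7 (.s k61 k41 5 (.s k129 k189 5 (.d k193 k65 k105 7 13))))), (.s k157 k145 1
  (.s k189 k129 5 (.s k253 k1 13 (.s k61 k125 7 (.d k205 k237 k109 3 11)))))] (.c k220 (.q k236 [(.s
  k157 k145 1 (.s k29 k93 7 (.s k213 k21 7 (.d k209 k217 k89 1 9)))), (.s k102 k35 10 (.s k170 k255
  14 (.s k238 k34 9 (.s k237 k239 0 (.d k253 k205 k1 3 13)))))] .n) (.c k236 (.q k220 [(.s k157 k145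
  1 (.s k29 k93 7 (.s k213 k21 7 (.d k209 k217 k89 1 9)))), (.s k1 k253 13 (.s k21 k213 7 (.s k61
  k41 5 (.s k129 k189 5 (.d k193 k65 k105 7 13))))), (.s k157 k145 1 (.s k31 k94 8 (.s k90 k208 10
  (.s k95 k80 2 (.d k223 k222 k159 0 7)))))] .n) .n))) (.c k220 (.q k236 [(.s k157 k145 1 (.s k29
  k93 7 (.s k213 k21 7 (.d k209 k217 k89 1 9)))), (.s k253 k1 13 (.s k205 k237 3 (.s k49 k101 13 (.d
  k185 k137 k117 3 9))))] (.c k70 (.l (.s k137 k185 3 (.s k129 k189 5 (.s k141 k133 1 (.s k145 k157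
  1 (.d k177 k161 k165 3 5)))))) (.c k137 (.q k70 [(.s k157 k145 1 (.s k29 k93 7 (.s k213 k21 7 (.d
  k209 k217 k89 1 9)))), (.s k102 k35 10 (.s k170 k255 14 (.s k238 k34 9 (.s k237 k239 0 (.d k253
  k205 k1 3 13)))))] .n) .n))) (.c k236 (.q k220 [(.s k157 k145 1 (.s k29 k93 7 (.s k213 k21 7 (.d
  k209 k217 k89 1 9)))), (.s k253 k1 13 (.s k205 k237 3 (.s k49 k101 13 (.d k185 k137 k117 3 9))))]
  (.c k70 (.l (.s k137 k185 3 (.s k129 k189 5 (.s k141 k133 1 (.s k145 k157 1 (.d k177 k161 k165 3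
  5)))))) (.c k137 (.q k70 [(.s k157 k145 1 (.s k29 k93 7 (.s k213 k21 7 (.d k209 k217 k89 1 9)))),
  (.s k1 k253 13 (.s k21 k213 7 (.s k61 k41 5 (.s k129 k189 5 (.d k193 k65 k105 7 13))))), (.s k157
  k145 1 (.s k31 k94 8 (.s k90 k208 10 (.s k95 k80 2 (.d k223 k222 k159 0 7)))))] .n) .n))) .n)))))
  (.c k137 (.q k70 [(.s k157 k145 1 (.s k29 k93 7 (.s k209 k89 9 (.d k213 k217 k21 1 7)))), (.s k145
  k157 1 (.s k170 k255 14 (.s k128 k191 6 (.s k136 k187 4 (.s k140 k132 1 (.d k179 k162 k166 4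
  6)))))), (.s k21 k213 7 (.s k63 k42 6 (.s k106 k192 14 (.s k127 k64 6 (.d k255 k191 k170 7
  14)))))] (.c k86 (.q k169 [(.s k157 k145 1 (.s k29 k93 7 (.s k213 k21 7 (.d k209 k217 k89 1 9)))),
  (.s k1 k253 13 (.s k21 k213 7 (.s k61 k41 5 (.s k129 k189 5 (.d k193 k65 k105 7 13))))), (.s k157
  k145 1 (.s k189 k129 5 (.s k253 k1 13 (.s k61 k125 7 (.d k205 k237 k109 3 11)))))] (.c k220 (.q
  k236 [(.s k157 k145 1 (.s k29 k93 7 (.s k213 k21 7 (.d k209 k217 k89 1 9)))), (.s k102 k35 10 (.s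
  k170 k255 14 (.s k238 k34 9 (.s k237 k239 0 (.d k253 k205 k1 3 13)))))] .n) (.c k236 (.q k220 [(.s
  k157 k145 1 (.s k29 k93 7 (.s k213 k21 7 (.d k209 k217 k89 1 9)))), (.s k1 k253 13 (.s k21 k213 7
  (.s k61 k41 5 (.s k129 k189 5 (.d k193 k65 k105 7 13))))), (.s k157 k145 1 (.s k31 k94 8 (.s k90
  k208 10 (.s k95 k80 2 (.d k223 k222 k159 0 7)))))] .n) .n))) (.c k169 (.q k86 [(.s k157 k145 1 (.s
  k29 k93 7 (.s k209 k89 9 (.d k213 k217 k21 1 7)))), (.s k84 k87 0 (.s k220 k19 10 (.s k16 k152 9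
  (.d k223 k222 k154 0 10))))] (.c k220 (.q k236 [(.s k157 k145 1 (.s k29 k93 7 (.s k213 k21 7 (.d
  k209 k217 k89 1 9)))), (.s k84 k87 0 (.s k102 k118 3 (.s k68 k119 4 (.s k71 k69 0 (.d k116 k100
  k101 3 4)))))] .n) (.c k236 (.l (.s k220 k19 10 (.s k84 k87 0 (.s k16 k152 9 (.d k223 k222 k154 0
  10))))) .n))) (.c k220 (.q k236 [(.s k157 k145 1 (.s k29 k93 7 (.s k209 k89 9 (.d k213 k217 k21 1
  7)))), (.s k145 k157 1 (.s k170 k255 14 (.s k128 k191 6 (.s k136 k187 4 (.s k140 k132 1 (.d k179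
  k162 k166 4 6)))))), (.s k21 k213 7 (.s k63 k42 6 (.s k106 k192 14 (.s k127 k64 6 (.d k255 k191
  k170 7 14)))))] (.c k86 (.q k169 [(.s k157 k145 1 (.s k29 k93 7 (.s k213 k21 7 (.d k209 k217 k89 1
  9)))), (.s k102 k35 10 (.s k170 k255 14 (.s k238 k34 9 (.s k237 k239 0 (.d k253 k205 k1 3 13)))))]
  .n) (.c k169 (.q k86 [(.s k157 k145 1 (.s k29 k93 7 (.s k213 k21 7 (.d k209 k217 k89 1 9)))), (.s
  k84 k87 0 (.s k102 k118 3 (.s k68 k119 4 (.s k71 k69 0 (.d k116 k100 k101 3 4)))))] .n) .n))) (.c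
  k236 (.q k220 [(.s k157 k145 1 (.s k29 k93 7 (.s k209 k89 9 (.d k213 k217 k21 1 7)))), (.s k86 k19
  10 (.s k84 k87 0 (.s k16 k152 9 (.d k223 k222 k154 0 10))))] (.c k86 (.q k169 [(.s k157 k145 1 (.s
  k29 k93 7 (.s k213 k21 7 (.d k209 k217 k89 1 9)))), (.s k1 k253 13 (.s k21 k213 7 (.s k61 k41 5
  (.s k129 k189 5 (.d k193 k65 k105 7 13))))), (.s k157 k145 1 (.s k31 k94 8 (.s k90 k208 10 (.s k95
  k80 2 (.d k223 k222 k159 0 7)))))] .n) (.c k169 (.l (.s k86 k19 10 (.s k84 k87 0 (.s k16 k152 9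
  (.d k223 k222 k154 0 10))))) .n))) .n))))) (.c k169 (.q k86 [(.s k157 k145 1 (.s k29 k93 7 (.s
  k209 k89 9 (.d k213 k217 k21 1 7)))), (.s k84 k87 0 (.s k220 k19 10 (.s k16 k152 9 (.d k223 k222
  k154 0 10))))] (.c k70 (.q k137 [(.s k157 k145 1 (.s k29 k93 7 (.s k209 k89 9 (.d k213 k217 k21 1
  7)))), (.s k84 k87 0 (.s k220 k19 10 (.s k16 k152 9 (.d k223 k222 k154 0 10))))] (.c k220 (.q k236
  [(.s k157 k145 1 (.s k29 k93 7 (.s k213 k21 7 (.d k209 k217 k89 1 9)))), (.s k145 k157 1 (.s k170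
  k255 14 (.s k128 k191 6 (.s k136 k187 4 (.s k140 k132 1 (.d k179 k162 k166 4 6)))))), (.s k21 k213
  7 (.s k23 k212 8 (.s k20 k22 0 (.s k87 k84 0 (.d k215 k151 k150 7 8)))))] .n) (.c k236 (.l (.s
  k220 k19 10 (.s k84 k87 0 (.s k16 k152 9 (.d k223 k222 k154 0 10))))) .n))) (.c k137 (.q k70 [(.s
  k157 k145 1 (.s k29 k93 7 (.s k209 k89 9 (.d k213 k217 k21 1 7)))), (.s k84 k87 0 (.s k220 k19 10
  (.s k16 k152 9 (.d k223 k222 k154 0 10))))] (.c k220 (.q k236 [(.s k157 k145 1 (.s k29 k93 7 (.s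
  k213 k21 7 (.d k209 k217 k89 1 9)))), (.s k84 k87 0 (.s k102 k118 3 (.s k68 k119 4 (.s k71 k69 0
  (.d k116 k100 k101 3 4)))))] .n) (.c k236 (.l (.s k220 k19 10 (.s k84 k87 0 (.s k16 k152 9 (.d
  k223 k222 k154 0 10))))) .n))) (.c k220 (.q k236 [(.s k157 k145 1 (.s k29 k93 7 (.s k213 k21 7 (.d
  k209 k217 k89 1 9)))), (.s k145 k157 1 (.s k170 k255 14 (.s k128 k191 6 (.s k136 k187 4 (.s k140
  k132 1 (.d k179 k162 k166 4 6)))))), (.s k21 k213 7 (.s k23 k212 8 (.s k20 k22 0 (.s k87 k84 0 (.d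
  k215 k151 k150 7 8)))))] (.c k70 (.q k137 [(.s k157 k145 1 (.s k29 k93 7 (.s k213 k21 7 (.d k209
  k217 k89 1 9)))), (.s k145 k157 1 (.s k170 k255 14 (.s k128 k191 6 (.s k136 k187 4 (.s k140 k132 1
  (.d k179 k162 k166 4 6)))))), (.s k21 k213 7 (.s k23 k212 8 (.s k20 k22 0 (.s k87 k84 0 (.d k215
  k151 k150 7 8)))))] .n) (.c k137 (.q k70 [(.s k157 k145 1 (.s k29 k93 7 (.s k213 k21 7 (.d k209
  k217 k89 1 9)))), (.s k84 k87 0 (.s k102 k118 3 (.s k68 k119 4 (.s k71 k69 0 (.d k116 k100 k101 3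
  4)))))] .n) .n))) (.c k236 (.l (.s k220 k19 10 (.s k84 k87 0 (.s k16 k152 9 (.d k223 k222 k154 0
  10))))) .n))))) (.c k220 (.q k236 [(.s k157 k145 1 (.s k29 k93 7 (.s k209 k89 9 (.d k213 k217 k21
  1 7)))), (.s k145 k157 1 (.s k170 k255 14 (.s k128 k191 6 (.s k136 k187 4 (.s k140 k132 1 (.d k179
  k162 k166 4 6)))))), (.s k21 k213 7 (.s k63 k42 6 (.s k106 k192 14 (.s k127 k64 6 (.d k255 k191
  k170 7 14)))))] (.c k70 (.q k137 [(.s k157 k145 1 (.s k29 k93 7 (.s k209 k89 9 (.d k213 k217 k21 1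
  7)))), (.s k145 k157 1 (.s k169 k185 3 (.s k129 k189 5 (.s k141 k133 1 (.d k177 k161 k165 3
  5))))), (.s k21 k213 7 (.s k63 k42 6 (.s k106 k192 14 (.s k127 k64 6 (.d k255 k191 k170 7 14)))))]
  (.c k86 (.l (.s k169 k185 3 (.s k129 k189 5 (.s k141 k133 1 (.s k145 k157 1 (.d k177 k161 k165 3
  5)))))) (.c k169 (.q k86 [(.s k157 k145 1 (.s k29 k93 7 (.s k213 k21 7 (.d k209 k217 k89 1 9)))),
  (.s k145 k157 1 (.s k170 k255 14 (.s k128 k191 6 (.s k136 k187 4 (.s k140 k132 1 (.d k179 k162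
  k166 4 6)))))), (.s k21 k213 7 (.s k23 k212 8 (.s k20 k22 0 (.s k87 k84 0 (.d k215 k151 k150 7
  8)))))] .n) .n))) (.c k86 (.q k169 [(.s k157 k145 1 (.s k29 k93 7 (.s k213 k21 7 (.d k209 k217 k89
  1 9)))), (.s k253 k1 13 (.s k205 k237 3 (.s k49 k101 13 (.d k185 k137 k117 3 9))))] (.c k70 (.l
  (.s k137 k185 3 (.s k129 k189 5 (.s k141 k133 1 (.s k145 k157 1 (.d k177 k161 k165 3 5)))))) (.c
  k137 (.q k70 [(.s k157 k145 1 (.s k29 k93 7 (.s k213 k21 7 (.d k209 k217 k89 1 9)))), (.s k102 k35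
  10 (.s k170 k255 14 (.s k238 k34 9 (.s k237 k239 0 (.d k253 k205 k1 3 13)))))] .n) .n))) (.c k137
  (.q k70 [(.s k157 k145 1 (.s k29 k93 7 (.s k209 k89 9 (.d k213 k217 k21 1 7)))), (.s k145 k157 1
  (.s k170 k255 14 (.s k128 k191 6 (.s k136 k187 4 (.s k140 k132 1 (.d k179 k162 k166 4 6)))))), (.s
  k21 k213 7 (.s k63 k42 6 (.s k106 k192 14 (.s k127 k64 6 (.d k255 k191 k170 7 14)))))] (.c k86 (.q
  k169 [(.s k157 k145 1 (.s k29 k93 7 (.s k213 k21 7 (.d k209 k217 k89 1 9)))), (.s k102 k35 10 (.s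
  k170 k255 14 (.s k238 k34 9 (.s k237 k239 0 (.d k253 k205 k1 3 13)))))] .n) (.c k169 (.q k86 [(.s
  k157 k145 1 (.s k29 k93 7 (.s k213 k21 7 (.d k209 k217 k89 1 9)))), (.s k84 k87 0 (.s k102 k118 3
  (.s k68 k119 4 (.s k71 k69 0 (.d k116 k100 k101 3 4)))))] .n) .n))) (.c k169 (.q k86 [(.s k157
  k145 1 (.s k29 k93 7 (.s k213 k21 7 (.d k209 k217 k89 1 9)))), (.s k145 k157 1 (.s k170 k255 14
  (.s k128 k191 6 (.s k136 k187 4 (.s k140 k132 1 (.d k179 k162 k166 4 6)))))), (.s k21 k213 7 (.s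
  k23 k212 8 (.s k20 k22 0 (.s k87 k84 0 (.d k215 k151 k150 7 8)))))] (.c k70 (.q k137 [(.s k157
  k145 1 (.s k29 k93 7 (.s k213 k21 7 (.d k209 k217 k89 1 9)))), (.s k145 k157 1 (.s k170 k255 14
  (.s k128 k191 6 (.s k136 k187 4 (.s k140 k132 1 (.d k179 k162 k166 4 6)))))), (.s k21 k213 7 (.s
  k23 k212 8 (.s k20 k22 0 (.s k87 k84 0 (.d k215 k151 k150 7 8)))))] .n) (.c k137 (.q k70 [(.s k157
  k145 1 (.s k29 k93 7 (.s k213 k21 7 (.d k209 k217 k89 1 9)))), (.s k84 k87 0 (.s k102 k118 3 (.s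
  k68 k119 4 (.s k71 k69 0 (.d k116 k100 k101 3 4)))))] .n) .n))) .n))))) (.c k236 (.q k220 [(.s
  k157 k145 1 (.s k29 k93 7 (.s k209 k89 9 (.d k213 k217 k21 1 7)))), (.s k86 k19 10 (.s k84 k87 0
  (.s k16 k152 9 (.d k223 k222 k154 0 10))))] (.c k70 (.q k137 [(.s k157 k145 1 (.s k29 k93 7 (.s
  k209 k89 9 (.d k213 k217 k21 1 7)))), (.s k86 k19 10 (.s k84 k87 0 (.s k16 k152 9 (.d k223 k222
  k154 0 10))))] (.c k86 (.l (.s k169 k185 3 (.s k129 k189 5 (.s k141 k133 1 (.s k145 k157 1 (.d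
  k177 k161 k165 3 5)))))) (.c k169 (.l (.s k86 k19 10 (.s k84 k87 0 (.s k16 k152 9 (.d k223 k222
  k154 0 10))))) .n))) (.c k86 (.q k169 [(.s k157 k145 1 (.s k29 k93 7 (.s k213 k21 7 (.d k209 k217
  k89 1 9)))), (.s k253 k1 13 (.s k205 k237 3 (.s k49 k101 13 (.d k185 k137 k117 3 9))))] (.c k70
  (.l (.s k137 k185 3 (.s k129 k189 5 (.s k141 k133 1 (.s k145 k157 1 (.d k177 k161 k165 3 5))))))
  (.c k137 (.q k70 [(.s k157 k145 1 (.s k29 k93 7 (.s k213 k21 7 (.d k209 k217 k89 1 9)))), (.s k1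
  k253 13 (.s k21 k213 7 (.s k61 k41 5 (.s k129 k189 5 (.d k193 k65 k105 7 13))))), (.s k157 k145 1
  (.s k31 k94 8 (.s k90 k208 10 (.s k95 k80 2 (.d k223 k222 k159 0 7)))))] .n) .n))) (.c k137 (.q
  k70 [(.s k157 k145 1 (.s k29 k93 7 (.s k209 k89 9 (.d k213 k217 k21 1 7)))), (.s k86 k19 10 (.s
  k84 k87 0 (.s k16 k152 9 (.d k223 k222 k154 0 10))))] (.c k86 (.q k169 [(.s k157 k145 1 (.s k29
  k93 7 (.s k213 k21 7 (.d k209 k217 k89 1 9)))), (.s k1 k253 13 (.s k21 k213 7 (.s k61 k41 5 (.s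
  k129 k189 5 (.d k193 k65 k105 7 13))))), (.s k157 k145 1 (.s k31 k94 8 (.s k90 k208 10 (.s k95 k80
  2 (.d k223 k222 k159 0 7)))))] .n) (.c k169 (.l (.s k86 k19 10 (.s k84 k87 0 (.s k16 k152 9 (.d
  k223 k222 k154 0 10))))) .n))) (.c k169 (.l (.s k86 k19 10 (.s k84 k87 0 (.s k16 k152 9 (.d k223
  k222 k154 0 10))))) .n))))) .n)))))))) (.c k221 (.q k105 [(.s k65 k125 5 (.s k195 k130 8 (.s k60
  k150 14 (.s k40 k20 5 (.d k170 k235 k255 8 14))))), (.s k65 k125 5 (.s k195 k130 8 (.s k201 k57 11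
  (.s k204 k198 2 (.s k68 k136 9 (.d k102 k119 k51 4 14)))))), (.s k57 k201 11 (.s k170 k255 14 (.s
  k40 k235 8 (.s k60 k20 5 (.s k51 k54 2 (.s k34 k17 4 (.d k102 k238 k204 9 14)))))))] (.c k86 (.q
  k169 [(.s k41 k233 7 (.s k57 k201 11 (.s k9 k25 3 (.s k185 k137 3 (.d k249 k121 k89 7 11))))), (.s
  k65 k125 5 (.s k170 k255 14 (.s k40 k235 8 (.s k60 k20 5 (.d k195 k130 k150 8 14))))), (.s k1 k253
  13 (.s k65 k125 5 (.s k193 k129 7 (.s k61 k149 13 (.d k41 k21 k233 5 7)))))] .n) (.c k169 (.q k86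
  [(.s k65 k125 5 (.s k195 k130 8 (.s k60 k150 14 (.s k40 k20 5 (.d k170 k235 k255 8 14))))), (.s
  k65 k125 5 (.s k67 k124 6 (.s k64 k66 0 (.s k87 k84 0 (.d k127 k107 k106 5 6))))), (.s k57 k201 11
  (.s k170 k255 14 (.s k40 k235 8 (.s k60 k20 5 (.s k51 k54 2 (.s k34 k17 4 (.d k102 k238 k204 9
  14)))))))] (.c k60 (.l (.s k84 k87 0 (.s k124 k67 6 (.s k64 k104 5 (.s k125 k65 5 (.d k127 k126
  k106 0 6)))))) .n)) (.c k195 (.l (.s k57 k201 11 (.s k125 k65 5 (.s k255 k170 14 (.s k60 k190 8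
  (.s k51 k54 2 (.s k119 k187 9 (.d k102 k204 k68 14 4)))))))) .n)))) (.c k238 (.l (.s k17 k221 9
  (.s k51 k34 4 (.s k102 k204 14 (.s k255 k170 14 (.d k119 k68 k187 4 9)))))) (.c k255 (.q k89 [(.s
  k93 k81 1 (.s k217 k25 7 (.s k221 k17 9 (.s k29 k157 7 (.d k209 k213 k149 1 9))))), (.s k81 k93 1
  (.s k217 k25 7 (.s k243 k162 12 (.s k204 k230 6 (.s k68 k136 9 (.d k102 k119 k51 4 14)))))), (.s
  k17 k221 9 (.s k51 k34 4 (.s k81 k93 1 (.s k243 k162 12 (.s k115 k179 7 (.d k102 k204 k76 14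
  6)))))), (.s k17 k221 9 (.s k25 k217 7 (.s k51 k34 4 (.s k12 k38 6 (.s k4 k8 1 (.d k166 k247 k243
  12 14))))))] (.c k86 (.q k169 [(.s k253 k1 13 (.s k93 k81 1 (.s k13 k173 11 (.s k241 k165 13 (.d
  k249 k245 k9 1 11))))), (.s k9 k249 11 (.s k25 k217 7 (.s k57 k41 3 (.s k137 k185 3 (.d k201 k73
  k105 7 11))))), (.s k17 k221 9 (.s k25 k217 7 (.s k29 k21 1 (.s k81 k93 1 (.d k209 k145 k149 7
  9)))))] (.c k87 (.q k171 [(.s k17 k221 9 (.s k51 k34 4 (.s k170 k168 0 (.s k136 k187 4 (.d k204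
  k68 k102 9 14))))), (.s k9 k249 11 (.s k25 k217 7 (.s k57 k41 3 (.s k201 k105 11 (.d k137 k185 k73
  3 7)))))] (.c k253 (.q k254 [(.s k17 k221 9 (.s k51 k34 4 (.s k170 k168 0 (.s k136 k187 4 (.d k204
  k68 k102 9 14))))), (.s k9 k249 11 (.s k25 k217 7 (.s k57 k41 3 (.s k201 k105 11 (.d k137 k185 k73
  3 7)))))] .n) (.c k254 (.l (.s k253 k1 13 (.s k93 k81 1 (.s k13 k173 11 (.s k241 k165 13 (.d k249
  k245 k9 1 11)))))) .n))) (.c k171 (.q k87 [(.s k253 k1 13 (.s k93 k81 1 (.s k13 k173 11 (.s k241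
  k165 13 (.d k249 k245 k9 1 11))))), (.s k9 k249 11 (.s k25 k217 7 (.s k57 k41 3 (.s k137 k185 3
  (.d k201 k73 k105 7 11))))), (.s k17 k221 9 (.s k25 k217 7 (.s k29 k21 1 (.s k81 k93 1 (.d k209
  k145 k149 7 9)))))] (.c k253 (.q k254 [(.s k17 k221 9 (.s k25 k217 7 (.s k29 k21 1 (.s k81 k93 1
  (.d k209 k145 k149 7 9))))), (.s k9 k249 11 (.s k25 k217 7 (.s k57 k41 3 (.s k137 k185 3 (.d k201
  k73 k105 7 11))))), (.s k17 k221 9 (.s k51 k34 4 (.s k81 k93 1 (.s k243 k162 12 (.s k115 k179 7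
  (.d k102 k204 k76 14 6))))))] .n) (.c k254 (.l (.s k253 k1 13 (.s k93 k81 1 (.s k13 k173 11 (.s
  k241 k165 13 (.d k249 k245 k9 1 11)))))) .n))) (.c k253 (.q k254 [(.s k17 k221 9 (.s k25 k217 7
  (.s k29 k21 1 (.s k81 k93 1 (.d k209 k145 k149 7 9))))), (.s k9 k249 11 (.s k25 k217 7 (.s k57 k41
  3 (.s k137 k185 3 (.d k201 k73 k105 7 11))))), (.s k17 k221 9 (.s k51 k34 4 (.s k81 k93 1 (.s k243
  k162 12 (.s k115 k179 7 (.d k102 k204 k76 14 6))))))] (.c k87 (.q k171 [(.s k17 k221 9 (.s k51 k34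
  4 (.s k170 k168 0 (.s k136 k187 4 (.d k204 k68 k102 9 14))))), (.s k9 k249 11 (.s k25 k217 7 (.s
  k57 k41 3 (.s k201 k105 11 (.d k137 k185 k73 3 7)))))] .n) (.c k171 (.q k87 [(.s k17 k221 9 (.s
  k25 k217 7 (.s k29 k21 1 (.s k81 k93 1 (.d k209 k145 k149 7 9))))), (.s k9 k249 11 (.s k25 k217 7
  (.s k57 k41 3 (.s k137 k185 3 (.d k201 k73 k105 7 11))))), (.s k17 k221 9 (.s k51 k34 4 (.s k81
  k93 1 (.s k243 k162 12 (.s k115 k179 7 (.d k102 k204 k76 14 6))))))] .n) .n))) (.c k254 (.l (.s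
  k253 k1 13 (.s k93 k81 1 (.s k13 k173 11 (.s k241 k165 13 (.d k249 k245 k9 1 11)))))) .n))))) (.c
  k87 (.q k171 [(.s k93 k81 1 (.s k217 k25 7 (.s k221 k17 9 (.s k29 k157 7 (.d k209 k213 k149 1
  9))))), (.s k81 k93 1 (.s k217 k25 7 (.s k243 k162 12 (.s k204 k230 6 (.s k68 k136 9 (.d k102 k119
  k51 4 14)))))), (.s k17 k221 9 (.s k51 k34 4 (.s k81 k93 1 (.s k243 k162 12 (.s k115 k179 7 (.d
  k102 k204 k76 14 6)))))), (.s k17 k221 9 (.s k25 k217 7 (.s k51 k34 4 (.s k12 k38 6 (.s k4 k8 1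
  (.d k166 k247 k243 12 14))))))] (.c k86 (.q k169 [(.s k17 k221 9 (.s k51 k34 4 (.s k170 k168 0 (.s
  k136 k187 4 (.d k204 k68 k102 9 14))))), (.s k9 k249 11 (.s k25 k217 7 (.s k57 k41 3 (.s k201 k105
  11 (.d k137 k185 k73 3 7)))))] (.c k253 (.q k254 [(.s k17 k221 9 (.s k51 k34 4 (.s k170 k168 0 (.s
  k136 k187 4 (.d k204 k68 k102 9 14))))), (.s k9 k249 11 (.s k25 k217 7 (.s k57 k41 3 (.s k201 k105
  11 (.d k137 k185 k73 3 7)))))] .n) (.c k254 (.l (.s k253 k1 13 (.s k93 k81 1 (.s k13 k173 11 (.s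
  k241 k165 13 (.d k249 k245 k9 1 11)))))) .n))) (.c k169 (.q k86 [(.s k17 k221 9 (.s k25 k217 7 (.s
  k29 k21 1 (.s k81 k93 1 (.d k209 k145 k149 7 9))))), (.s k92 k83 2 (.s k217 k25 7 (.s k220 k19 10
  (.s k28 k156 7 (.d k211 k214 k150 2 10))))), (.s k17 k221 9 (.s k19 k220 10 (.s k16 k18 0 (.s k81
  k93 1 (.s k83 k92 2 (.d k211 k147 k146 7 8))))))] (.c k253 (.q k254 [(.s k2 k170 13 (.s k17 k221 9
  (.s k19 k220 10 (.s k18 k16 0 (.d k34 k50 k51 3 4))))), (.s k2 k170 13 (.s k81 k93 1 (.s k83 k92 2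
  (.s k82 k80 0 (.d k162 k242 k243 11 12))))), (.s k17 k221 9 (.s k25 k217 7 (.s k29 k21 1 (.s k81
  k93 1 (.d k209 k145 k149 7 9)))))] .n) (.c k254 (.q k253 [(.s k17 k221 9 (.s k25 k217 7 (.s k29
  k21 1 (.s k81 k93 1 (.d k209 k145 k149 7 9))))), (.s k92 k83 2 (.s k217 k25 7 (.s k220 k19 10 (.s
  k28 k156 7 (.d k211 k214 k150 2 10))))), (.s k17 k221 9 (.s k19 k220 10 (.s k16 k18 0 (.s k81 k93
  1 (.s k83 k92 2 (.d k211 k147 k146 7 8))))))] .n) .n))) (.c k253 (.q k254 [(.s k93 k81 1 (.s k217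
  k25 7 (.s k221 k17 9 (.s k29 k157 7 (.d k209 k213 k149 1 9))))), (.s k81 k93 1 (.s k217 k25 7 (.s
  k243 k162 12 (.s k204 k230 6 (.s k68 k136 9 (.d k102 k119 k51 4 14)))))), (.s k17 k221 9 (.s k51
  k34 4 (.s k81 k93 1 (.s k243 k162 12 (.s k115 k179 7 (.d k102 k204 k76 14 6)))))), (.s k17 k221 9
  (.s k25 k217 7 (.s k51 k34 4 (.s k12 k38 6 (.s k4 k8 1 (.d k166 k247 k243 12 14))))))] (.c k86 (.q
  k169 [(.s k17 k221 9 (.s k51 k34 4 (.s k170 k168 0 (.s k136 k187 4 (.d k204 k68 k102 9 14))))),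
  (.s k9 k249 11 (.s k25 k217 7 (.s k57 k41 3 (.s k201 k105 11 (.d k137 k185 k73 3 7)))))] .n) (.c
  k169 (.q k86 [(.s k2 k170 13 (.s k17 k221 9 (.s k19 k220 10 (.s k18 k16 0 (.d k34 k50 k51 3
  4))))), (.s k2 k170 13 (.s k81 k93 1 (.s k83 k92 2 (.s k82 k80 0 (.d k162 k242 k243 11 12))))),
  (.s k17 k221 9 (.s k25 k217 7 (.s k29 k21 1 (.s k81 k93 1 (.d k209 k145 k149 7 9)))))] .n) .n)))
  (.c k254 (.q k253 [(.s k169 k1 13 (.s k93 k81 1 (.s k13 k173 11 (.s k241 k165 13 (.d k249 k245 k9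
  1 11))))), (.s k169 k1 13 (.s k185 k137 3 (.s k49 k117 9 (.s k205 k101 13 (.d k221 k237 k17 3
  9)))))] (.c k1 (.l (.s k17 k221 9 (.s k25 k217 7 (.s k29 k21 1 (.s k81 k93 1 (.d k209 k145 k149 7
  9)))))) (.c k86 (.l (.s k169 k1 13 (.s k93 k81 1 (.s k13 k173 11 (.s k241 k165 13 (.d k249 k245 k9
  1 11)))))) (.c k169 (.q k86 [(.s k17 k221 9 (.s k25 k217 7 (.s k29 k21 1 (.s k81 k93 1 (.d k209
  k145 k149 7 9))))), (.s k92 k83 2 (.s k217 k25 7 (.s k220 k19 10 (.s k28 k156 7 (.d k211 k214 k150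
  2 10))))), (.s k17 k221 9 (.s k19 k220 10 (.s k16 k18 0 (.s k81 k93 1 (.s k83 k92 2 (.d k211 k147
  k146 7 8))))))] .n) .n)))) .n))))) (.c k169 (.q k86 [(.s k17 k221 9 (.s k19 k220 10 (.s k87 k84 0
  (.s k223 k155 9 (.d k16 k18 k154 0 10))))), (.s k81 k93 1 (.s k83 k92 2 (.s k80 k82 0 (.s k87 k84
  0 (.d k95 k91 k90 1 2)))))] (.c k84 (.l (.s k17 k221 9 (.s k25 k217 7 (.s k29 k21 1 (.s k81 k93 1
  (.d k209 k145 k149 7 9)))))) (.c k87 (.q k171 [(.s k17 k221 9 (.s k25 k217 7 (.s k29 k21 1 (.s k81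
  k93 1 (.d k209 k145 k149 7 9))))), (.s k92 k83 2 (.s k217 k25 7 (.s k220 k19 10 (.s k28 k156 7 (.d
  k211 k214 k150 2 10))))), (.s k17 k221 9 (.s k19 k220 10 (.s k16 k18 0 (.s k81 k93 1 (.s k83 k92 2
  (.d k211 k147 k146 7 8))))))] (.c k253 (.q k254 [(.s k2 k170 13 (.s k17 k221 9 (.s k19 k220 10 (.s
  k18 k16 0 (.d k34 k50 k51 3 4))))), (.s k2 k170 13 (.s k81 k93 1 (.s k83 k92 2 (.s k82 k80 0 (.d
  k162 k242 k243 11 12))))), (.s k17 k221 9 (.s k25 k217 7 (.s k29 k21 1 (.s k81 k93 1 (.d k209 k145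
  k149 7 9)))))] .n) (.c k254 (.q k253 [(.s k17 k221 9 (.s k25 k217 7 (.s k29 k21 1 (.s k81 k93 1
  (.d k209 k145 k149 7 9))))), (.s k92 k83 2 (.s k217 k25 7 (.s k220 k19 10 (.s k28 k156 7 (.d k211
  k214 k150 2 10))))), (.s k17 k221 9 (.s k19 k220 10 (.s k16 k18 0 (.s k81 k93 1 (.s k83 k92 2 (.d
  k211 k147 k146 7 8))))))] .n) .n))) (.c k171 (.l (.s k87 k84 0 (.s k17 k221 9 (.s k19 k220 10 (.s
  k16 k18 0 (.d k223 k155 k154 9 10)))))) (.c k253 (.q k254 [(.s k17 k221 9 (.s k19 k220 10 (.s k16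
  k18 0 (.s k87 k84 0 (.d k223 k155 k154 9 10))))), (.s k2 k170 13 (.s k81 k93 1 (.s k83 k92 2 (.s
  k82 k80 0 (.d k162 k242 k243 11 12)))))] (.c k84 (.l (.s k2 k170 13 (.s k17 k221 9 (.s k19 k220 10
  (.s k34 k51 4 (.d k18 k16 k50 0 3)))))) (.c k87 (.q k171 [(.s k2 k170 13 (.s k17 k221 9 (.s k19
  k220 10 (.s k18 k16 0 (.d k34 k50 k51 3 4))))), (.s k2 k170 13 (.s k81 k93 1 (.s k83 k92 2 (.s k82
  k80 0 (.d k162 k242 k243 11 12))))), (.s k17 k221 9 (.s k25 k217 7 (.s k29 k21 1 (.s k81 k93 1 (.d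
  k209 k145 k149 7 9)))))] .n) (.c k171 (.l (.s k87 k84 0 (.s k17 k221 9 (.s k19 k220 10 (.s k16 k18
  0 (.d k223 k155 k154 9 10)))))) .n)))) (.c k254 (.q k253 [(.s k17 k221 9 (.s k19 k220 10 (.s k87
  k84 0 (.s k223 k155 9 (.d k16 k18 k154 0 10))))), (.s k81 k93 1 (.s k83 k92 2 (.s k80 k82 0 (.s
  k87 k84 0 (.d k95 k91 k90 1 2)))))] (.c k84 (.l (.s k17 k221 9 (.s k25 k217 7 (.s k29 k21 1 (.s
  k81 k93 1 (.d k209 k145 k149 7 9)))))) (.c k87 (.q k171 [(.s k17 k221 9 (.s k25 k217 7 (.s k29 k21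
  1 (.s k81 k93 1 (.d k209 k145 k149 7 9))))), (.s k92 k83 2 (.s k217 k25 7 (.s k220 k19 10 (.s k28
  k156 7 (.d k211 k214 k150 2 10))))), (.s k17 k221 9 (.s k19 k220 10 (.s k16 k18 0 (.s k81 k93 1
  (.s k83 k92 2 (.d k211 k147 k146 7 8))))))] .n) (.c k171 (.l (.s k87 k84 0 (.s k17 k221 9 (.s k19
  k220 10 (.s k16 k18 0 (.d k223 k155 k154 9 10)))))) .n)))) .n)))))) (.c k171 (.q k87 [(.s k17 k221
  9 (.s k25 k217 7 (.s k29 k21 1 (.s k209 k149 9 (.d k81 k93 k145 1 7))))), (.s k81 k93 1 (.s k86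
  k84 0 (.s k83 k92 2 (.s k80 k82 0 (.d k95 k91 k90 1 2))))), (.s k17 k221 9 (.s k86 k84 0 (.s k19
  k220 10 (.s k16 k18 0 (.d k223 k155 k154 9 10)))))] (.c k86 (.q k169 [(.s k253 k1 13 (.s k93 k81 1
  (.s k13 k173 11 (.s k241 k165 13 (.d k249 k245 k9 1 11))))), (.s k9 k249 11 (.s k25 k217 7 (.s k57
  k41 3 (.s k137 k185 3 (.d k201 k73 k105 7 11))))), (.s k17 k221 9 (.s k25 k217 7 (.s k29 k21 1 (.s
  k81 k93 1 (.d k209 k145 k149 7 9)))))] (.c k253 (.q k254 [(.s k17 k221 9 (.s k25 k217 7 (.s k29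
  k21 1 (.s k81 k93 1 (.d k209 k145 k149 7 9))))), (.s k9 k249 11 (.s k25 k217 7 (.s k57 k41 3 (.s
  k137 k185 3 (.d k201 k73 k105 7 11))))), (.s k17 k221 9 (.s k51 k34 4 (.s k81 k93 1 (.s k243 k162
  12 (.s k115 k179 7 (.d k102 k204 k76 14 6))))))] .n) (.c k254 (.l (.s k253 k1 13 (.s k93 k81 1 (.s
  k13 k173 11 (.s k241 k165 13 (.d k249 k245 k9 1 11)))))) .n))) (.c k169 (.l (.s k86 k84 0 (.s k17
  k221 9 (.s k19 k220 10 (.s k16 k18 0 (.d k223 k155 k154 9 10)))))) (.c k253 (.q k254 [(.s k17 k221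
  9 (.s k25 k217 7 (.s k29 k21 1 (.s k209 k149 9 (.d k81 k93 k145 1 7))))), (.s k81 k93 1 (.s k86
  k84 0 (.s k83 k92 2 (.s k80 k82 0 (.d k95 k91 k90 1 2))))), (.s k17 k221 9 (.s k86 k84 0 (.s k19
  k220 10 (.s k16 k18 0 (.d k223 k155 k154 9 10)))))] (.c k86 (.q k169 [(.s k17 k221 9 (.s k25 k217
  7 (.s k29 k21 1 (.s k81 k93 1 (.d k209 k145 k149 7 9))))), (.s k9 k249 11 (.s k25 k217 7 (.s k57
  k41 3 (.s k137 k185 3 (.d k201 k73 k105 7 11))))), (.s k17 k221 9 (.s k51 k34 4 (.s k81 k93 1 (.s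
  k243 k162 12 (.s k115 k179 7 (.d k102 k204 k76 14 6))))))] .n) (.c k169 (.l (.s k86 k84 0 (.s k17
  k221 9 (.s k19 k220 10 (.s k16 k18 0 (.d k223 k155 k154 9 10)))))) .n))) (.c k254 (.q k253 [(.s
  k169 k1 13 (.s k93 k81 1 (.s k13 k173 11 (.s k241 k165 13 (.d k249 k245 k9 1 11))))), (.s k17 k221
  9 (.s k86 k84 0 (.s k19 k220 10 (.s k16 k18 0 (.d k223 k155 k154 9 10)))))] (.c k86 (.l (.s k169
  k1 13 (.s k93 k81 1 (.s k13 k173 11 (.s k241 k165 13 (.d k249 k245 k9 1 11)))))) (.c k169 (.l (.s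
  k86 k84 0 (.s k17 k221 9 (.s k19 k220 10 (.s k16 k18 0 (.d k223 k155 k154 9 10)))))) .n))) .n)))))
  (.c k253 (.q k254 [(.s k93 k81 1 (.s k217 k25 7 (.s k221 k17 9 (.s k29 k157 7 (.d k209 k213 k149 1
  9))))), (.s k81 k93 1 (.s k217 k25 7 (.s k243 k162 12 (.s k204 k230 6 (.s k68 k136 9 (.d k102 k119
  k51 4 14)))))), (.s k17 k221 9 (.s k51 k34 4 (.s k81 k93 1 (.s k243 k162 12 (.s k115 k179 7 (.d
  k102 k204 k76 14 6)))))), (.s k17 k221 9 (.s k25 k217 7 (.s k51 k34 4 (.s k12 k38 6 (.s k4 k8 1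
  (.d k166 k247 k243 12 14))))))] (.c k86 (.q k169 [(.s k17 k221 9 (.s k25 k217 7 (.s k29 k21 1 (.s
  k81 k93 1 (.d k209 k145 k149 7 9))))), (.s k9 k249 11 (.s k25 k217 7 (.s k57 k41 3 (.s k137 k185 3
  (.d k201 k73 k105 7 11))))), (.s k17 k221 9 (.s k51 k34 4 (.s k81 k93 1 (.s k243 k162 12 (.s k115
  k179 7 (.d k102 k204 k76 14 6))))))] (.c k87 (.q k171 [(.s k17 k221 9 (.s k51 k34 4 (.s k170 k168
  0 (.s k136 k187 4 (.d k204 k68 k102 9 14))))), (.s k9 k249 11 (.s k25 k217 7 (.s k57 k41 3 (.s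
  k201 k105 11 (.d k137 k185 k73 3 7)))))] .n) (.c k171 (.q k87 [(.s k17 k221 9 (.s k25 k217 7 (.s
  k29 k21 1 (.s k81 k93 1 (.d k209 k145 k149 7 9))))), (.s k9 k249 11 (.s k25 k217 7 (.s k57 k41 3
  (.s k137 k185 3 (.d k201 k73 k105 7 11))))), (.s k17 k221 9 (.s k51 k34 4 (.s k81 k93 1 (.s k243
  k162 12 (.s k115 k179 7 (.d k102 k204 k76 14 6))))))] .n) .n))) (.c k87 (.q k171 [(.s k93 k81 1
  (.s k217 k25 7 (.s k221 k17 9 (.s k29 k157 7 (.d k209 k213 k149 1 9))))), (.s k81 k93 1 (.s k217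
  k25 7 (.s k243 k162 12 (.s k204 k230 6 (.s k68 k136 9 (.d k102 k119 k51 4 14)))))), (.s k17 k221 9
  (.s k51 k34 4 (.s k81 k93 1 (.s k243 k162 12 (.s k115 k179 7 (.d k102 k204 k76 14 6)))))), (.s k17
  k221 9 (.s k25 k217 7 (.s k51 k34 4 (.s k12 k38 6 (.s k4 k8 1 (.d k166 k247 k243 12 14))))))] (.c
  k86 (.q k169 [(.s k17 k221 9 (.s k51 k34 4 (.s k170 k168 0 (.s k136 k187 4 (.d k204 k68 k102 9
  14))))), (.s k9 k249 11 (.s k25 k217 7 (.s k57 k41 3 (.s k201 k105 11 (.d k137 k185 k73 3 7)))))]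
  .n) (.c k169 (.q k86 [(.s k2 k170 13 (.s k17 k221 9 (.s k19 k220 10 (.s k18 k16 0 (.d k34 k50 k51
  3 4))))), (.s k2 k170 13 (.s k81 k93 1 (.s k83 k92 2 (.s k82 k80 0 (.d k162 k242 k243 11 12))))),
  (.s k17 k221 9 (.s k25 k217 7 (.s k29 k21 1 (.s k81 k93 1 (.d k209 k145 k149 7 9)))))] .n) .n)))
  (.c k169 (.q k86 [(.s k17 k221 9 (.s k19 k220 10 (.s k16 k18 0 (.s k87 k84 0 (.d k223 k155 k154 9
  10))))), (.s k2 k170 13 (.s k81 k93 1 (.s k83 k92 2 (.s k82 k80 0 (.d k162 k242 k243 11 12)))))]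
  (.c k84 (.l (.s k2 k170 13 (.s k17 k221 9 (.s k19 k220 10 (.s k34 k51 4 (.d k18 k16 k50 0 3))))))
  (.c k87 (.q k171 [(.s k2 k170 13 (.s k17 k221 9 (.s k19 k220 10 (.s k18 k16 0 (.d k34 k50 k51 3
  4))))), (.s k2 k170 13 (.s k81 k93 1 (.s k83 k92 2 (.s k82 k80 0 (.d k162 k242 k243 11 12))))),
  (.s k17 k221 9 (.s k25 k217 7 (.s k29 k21 1 (.s k81 k93 1 (.d k209 k145 k149 7 9)))))] .n) (.c
  k171 (.l (.s k87 k84 0 (.s k17 k221 9 (.s k19 k220 10 (.s k16 k18 0 (.d k223 k155 k154 9 10))))))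
  .n)))) (.c k171 (.q k87 [(.s k17 k221 9 (.s k25 k217 7 (.s k29 k21 1 (.s k209 k149 9 (.d k81 k93
  k145 1 7))))), (.s k81 k93 1 (.s k86 k84 0 (.s k83 k92 2 (.s k80 k82 0 (.d k95 k91 k90 1 2))))),
  (.s k17 k221 9 (.s k86 k84 0 (.s k19 k220 10 (.s k16 k18 0 (.d k223 k155 k154 9 10)))))] (.c k86
  (.q k169 [(.s k17 k221 9 (.s k25 k217 7 (.s k29 k21 1 (.s k81 k93 1 (.d k209 k145 k149 7 9))))),
  (.s k9 k249 11 (.s k25 k217 7 (.s k57 k41 3 (.s k137 k185 3 (.d k201 k73 k105 7 11))))), (.s k17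
  k221 9 (.s k51 k34 4 (.s k81 k93 1 (.s k243 k162 12 (.s k115 k179 7 (.d k102 k204 k76 14 6))))))]
  .n) (.c k169 (.l (.s k86 k84 0 (.s k17 k221 9 (.s k19 k220 10 (.s k16 k18 0 (.d k223 k155 k154 9
  10)))))) .n))) .n))))) (.c k254 (.q k253 [(.s k169 k1 13 (.s k93 k81 1 (.s k13 k173 11 (.s k241
  k165 13 (.d k249 k245 k9 1 11))))), (.s k169 k1 13 (.s k185 k137 3 (.s k49 k117 9 (.s k205 k101 13
  (.d k221 k237 k17 3 9)))))] (.c k1 (.l (.s k17 k221 9 (.s k25 k217 7 (.s k29 k21 1 (.s k81 k93 1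
  (.d k209 k145 k149 7 9)))))) (.c k86 (.l (.s k169 k1 13 (.s k93 k81 1 (.s k13 k173 11 (.s k241
  k165 13 (.d k249 k245 k9 1 11)))))) (.c k87 (.q k171 [(.s k169 k1 13 (.s k93 k81 1 (.s k13 k173 11
  (.s k241 k165 13 (.d k249 k245 k9 1 11))))), (.s k169 k1 13 (.s k185 k137 3 (.s k49 k117 9 (.s
  k205 k101 13 (.d k221 k237 k17 3 9)))))] (.c k1 (.l (.s k17 k221 9 (.s k25 k217 7 (.s k29 k21 1
  (.s k81 k93 1 (.d k209 k145 k149 7 9)))))) (.c k86 (.l (.s k169 k1 13 (.s k93 k81 1 (.s k13 k173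
  11 (.s k241 k165 13 (.d k249 k245 k9 1 11)))))) (.c k169 (.q k86 [(.s k17 k221 9 (.s k25 k217 7
  (.s k29 k21 1 (.s k81 k93 1 (.d k209 k145 k149 7 9))))), (.s k92 k83 2 (.s k217 k25 7 (.s k220 k19
  10 (.s k28 k156 7 (.d k211 k214 k150 2 10))))), (.s k17 k221 9 (.s k19 k220 10 (.s k16 k18 0 (.s
  k81 k93 1 (.s k83 k92 2 (.d k211 k147 k146 7 8))))))] .n) .n)))) (.c k169 (.q k86 [(.s k17 k221 9
  (.s k19 k220 10 (.s k87 k84 0 (.s k223 k155 9 (.d k16 k18 k154 0 10))))), (.s k81 k93 1 (.s k83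
  k92 2 (.s k80 k82 0 (.s k87 k84 0 (.d k95 k91 k90 1 2)))))] (.c k84 (.l (.s k17 k221 9 (.s k25
  k217 7 (.s k29 k21 1 (.s k81 k93 1 (.d k209 k145 k149 7 9)))))) (.c k87 (.q k171 [(.s k17 k221 9
  (.s k25 k217 7 (.s k29 k21 1 (.s k81 k93 1 (.d k209 k145 k149 7 9))))), (.s k92 k83 2 (.s k217 k25
  7 (.s k220 k19 10 (.s k28 k156 7 (.d k211 k214 k150 2 10))))), (.s k17 k221 9 (.s k19 k220 10 (.s
  k16 k18 0 (.s k81 k93 1 (.s k83 k92 2 (.d k211 k147 k146 7 8))))))] .n) (.c k171 (.l (.s k87 k84 0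
  (.s k17 k221 9 (.s k19 k220 10 (.s k16 k18 0 (.d k223 k155 k154 9 10)))))) .n)))) (.c k171 (.q k87
  [(.s k169 k1 13 (.s k93 k81 1 (.s k13 k173 11 (.s k241 k165 13 (.d k249 k245 k9 1 11))))), (.s k17
  k221 9 (.s k86 k84 0 (.s k19 k220 10 (.s k16 k18 0 (.d k223 k155 k154 9 10)))))] (.c k86 (.l (.s
  k169 k1 13 (.s k93 k81 1 (.s k13 k173 11 (.s k241 k165 13 (.d k249 k245 k9 1 11)))))) (.c k169 (.l
  (.s k86 k84 0 (.s k17 k221 9 (.s k19 k220 10 (.s k16 k18 0 (.d k223 k155 k154 9 10)))))) .n)))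
  .n)))))) .n))))))) .n)))))))))))))))

def t3_253 : T TT 256 :=
  (.f k255 k170 14 (.q k102 [(.s k68 k119 4 (.s k204 k136 9 (.s k221 k238 4 (.d k153 k17 k51 9
  14))))] (.c k17 (.q k4 [(.s k12 k8 1 (.s k93 k174 12 (.s k166 k247 12 (.d k89 k81 k243 1 14)))),
  (.s k68 k119 4 (.s k166 k247 12 (.s k38 k230 7 (.s k55 k21 4 (.d k196 k132 k149 7 12))))), (.s k12
  k8 1 (.s k68 k119 4 (.s k132 k196 7 (.s k72 k192 9 (.s k76 k64 1 (.d k204 k140 k136 7 9))))))] .n)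
  (.c k51 (.f k68 k119 4 (.q k165 [(.s k5 k245 11 (.s k15 k10 2 (.s k95 k175 11 (.d k90 k80 k240 2
  14)))), (.s k204 k136 9 (.s k228 k39 8 (.s k240 k216 5 (.s k80 k160 11 (.d k90 k15 k95 14 2))))),
  (.s k204 k136 9 (.s k228 k39 8 (.s k240 k216 5 (.d k245 k250 k5 2 11))))] (.c k15 (.l (.s k204
  k136 9 (.s k245 k5 11 (.s k240 k250 2 (.d k228 k216 k39 5 8))))) (.c k19 (.q k35 [(.s k5 k245 11
  (.s k15 k10 2 (.s k95 k175 11 (.d k90 k80 k240 2 14)))), (.s k39 k228 8 (.s k47 k43 1 (.s k106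
  k224 10 (.s k110 k98 1 (.d k236 k173 k169 8 10)))))] .n) (.c k35 (.q k19 [(.s k5 k245 11 (.s k15
  k10 2 (.s k95 k175 11 (.d k90 k80 k240 2 14)))), (.s k204 k136 9 (.s k228 k39 8 (.s k240 k216 5
  (.s k80 k160 11 (.d k90 k15 k95 14 2))))), (.s k204 k136 9 (.s k228 k39 8 (.s k240 k216 5 (.d k245
  k250 k5 2 11))))] (.c k15 (.l (.s k204 k136 9 (.s k245 k5 11 (.s k240 k250 2 (.d k228 k216 k39 5
  8))))) (.c k240 (.l (.s k5 k245 11 (.s k15 k10 2 (.s k95 k175 11 (.s k90 k80 2 (.s k204 k136 9 (.d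
  k78 k114 k141 5 8))))))) .n))) (.c k240 (.l (.s k5 k245 11 (.s k15 k10 2 (.s k95 k175 11 (.s k90
  k80 2 (.s k204 k136 9 (.d k78 k114 k141 5 8))))))) .n)))))) (.c k68 (.q k4 [(.s k12 k8 1 (.s k93
  k174 12 (.s k89 k81 1 (.d k166 k247 k243 12 14)))), (.s k166 k247 12 (.s k38 k230 7 (.s k21 k55 4
  (.s k63 k42 6 (.s k127 k191 7 (.s k106 k64 6 (.d k149 k213 k192 7 14)))))))] (.c k166 (.f k12 k8 1
  (.q k89 [(.d k93 k174 k81 12 1), (.s k76 k115 6 (.s k204 k140 7 (.s k153 k51 14 (.d k221 k238 k17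
  4 9))))] (.c k162 (.l (.s k174 k93 12 (.s k76 k115 6 (.s k204 k140 7 (.s k153 k51 14 (.d k221 k238
  k17 4 9)))))) (.c k174 (.q k162 [(.d k81 k93 k243 1 12), (.s k76 k115 6 (.s k204 k140 7 (.s k221
  k238 4 (.d k153 k17 k51 9 14))))] .n) .n)))) (.c k247 (.l (.s k12 k8 1 (.s k93 k174 12 (.s k89 k81
  1 (.s k76 k115 6 (.s k204 k140 7 (.s k153 k51 14 (.d k221 k238 k17 4 9)))))))) .n))) (.c k119 (.q
  k247 [(.s k166 k4 12 (.s k243 k251 1 (.s k81 k162 12 (.d k89 k93 k12 1 14)))), (.s k166 k4 12 (.s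
  k230 k38 7 (.s k213 k196 4 (.s k192 k234 6 (.s k64 k128 7 (.s k106 k127 6 (.d k149 k21 k63 7
  14)))))))] (.c k4 (.l (.s k243 k251 1 (.s k81 k162 12 (.s k89 k93 1 (.s k115 k76 6 (.s k51 k179 7
  (.s k17 k34 4 (.d k153 k221 k204 9 14)))))))) (.c k166 (.f k243 k251 1 (.q k89 [(.d k81 k162 k93
  12 1), (.s k115 k76 6 (.s k51 k179 7 (.s k17 k34 4 (.d k153 k221 k204 9 14))))] (.c k162 (.q k174
  [(.d k93 k81 k12 1 12), (.s k115 k76 6 (.s k51 k179 7 (.s k17 k34 4 (.d k153 k221 k204 9 14))))]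
  .n) (.c k174 (.l (.s k162 k81 12 (.s k115 k76 6 (.s k51 k179 7 (.s k17 k34 4 (.d k153 k221 k204 9
  14)))))) .n)))) .n))) (.c k136 (.l (.s k119 k68 4 (.s k51 k187 9 (.s k153 k204 14 (.d k17 k34 k221
  4 9))))) (.c k153 (.f k119 k68 4 (.q k127 [(.s k63 k191 7 (.s k21 k42 6 (.s k106 k64 6 (.d k149
  k213 k192 7 14)))), (.s k106 k64 6 (.s k110 k98 1 (.s k76 k93 4 (.d k115 k123 k89 1 6)))), (.s k63
  k191 7 (.s k123 k115 1 (.s k183 k243 9 (.s k55 k247 7 (.d k51 k187 k59 9 1)))))] (.c k136 (.l (.s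
  k187 k51 9 (.s k63 k191 7 (.s k21 k42 6 (.s k106 k64 6 (.d k149 k213 k192 7 14)))))) (.c k187 (.q
  k136 [(.s k106 k64 6 (.s k110 k98 1 (.s k76 k93 4 (.d k115 k123 k89 1 6)))), (.s k63 k191 7 (.s
  k21 k42 6 (.s k149 k213 7 (.d k106 k64 k192 6 14)))), (.s k63 k191 7 (.s k123 k115 1 (.s k183 k243
  9 (.s k55 k247 7 (.s k149 k196 12 (.d k21 k213 k42 7 6))))))] .n) .n)))) (.c k187 (.l (.s k68 k119
  4 (.s k204 k136 9 (.s k153 k51 14 (.d k221 k238 k17 4 9))))) (.c k204 (.f k119 k68 4 (.q k101 [(.s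
  k69 k117 3 (.s k207 k138 10 (.s k223 k239 3 (.d k154 k16 k48 10 14)))), (.s k103 k100 0 (.s k71
  k87 3 (.s k116 k86 4 (.d k117 k118 k69 0 3)))), (.s k51 k187 9 (.s k103 k100 0 (.s k207 k155 13
  (.s k223 k239 3 (.d k154 k48 k16 14 10)))))] (.c k48 (.l (.s k51 k187 9 (.s k69 k117 3 (.s k207
  k138 10 (.d k103 k100 k155 0 13))))) (.c k70 (.q k137 [(.s k69 k117 3 (.s k207 k138 10 (.s k223
  k239 3 (.d k154 k16 k48 10 14)))), (.s k103 k100 0 (.s k71 k87 3 (.s k116 k86 4 (.d k117 k69 k118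
  3 0)))), (.s k51 k187 9 (.s k103 k100 0 (.s k207 k155 13 (.s k223 k239 3 (.d k154 k48 k16 14
  10)))))] (.c k48 (.l (.s k51 k187 9 (.s k69 k117 3 (.s k207 k138 10 (.d k103 k100 k155 0 13)))))
  (.c k69 (.q k71 [(.d k103 k100 k87 0 3), (.s k116 k86 4 (.s k117 k118 0 (.s k48 k186 10 (.s k16
  k32 3 (.d k154 k223 k207 10 14)))))] .n) (.c k71 (.l (.s k69 k117 3 (.s k51 k187 9 (.s k103 k100 0
  (.d k207 k138 k155 10 13))))) .n)))) (.c k137 (.q k70 [(.s k117 k69 3 (.d k118 k116 k86 0 3)), (.s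
  k51 k187 9 (.s k69 k117 3 (.s k207 k138 10 (.d k103 k100 k155 0 13)))), (.s k86 k118 3 (.s k71
  k116 4 (.d k87 k84 k103 0 3)))] .n) .n))))) (.c k221 (.f k68 k119 4 (.q k76 [(.s k64 k72 1 (.s k89
  k115 6 (.s k93 k81 1 (.d k127 k110 k106 4 6)))), (.s k204 k136 9 (.s k12 k140 7 (.s k93 k174 12
  (.d k89 k81 k115 1 6)))), (.s k64 k72 1 (.s k106 k127 6 (.s k192 k128 7 (.s k149 k63 14 (.d k213
  k234 k21 6 7)))))] (.c k115 (.l (.s k64 k72 1 (.s k127 k106 6 (.s k63 k191 7 (.s k110 k93 4 (.d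
  k204 k157 k136 12 9)))))) (.c k205 (.q k237 [(.s k64 k72 1 (.s k89 k115 6 (.s k93 k81 1 (.d k127
  k110 k106 4 6)))), (.s k204 k136 9 (.s k12 k140 7 (.s k93 k174 12 (.d k89 k81 k115 1 6)))), (.s
  k64 k72 1 (.s k106 k127 6 (.s k192 k128 7 (.s k149 k63 14 (.d k213 k234 k21 6 7)))))] (.c k115 (.l
  (.s k64 k72 1 (.s k127 k106 6 (.s k63 k191 7 (.s k110 k93 4 (.d k204 k157 k136 12 9)))))) .n)) (.c
  k237 (.q k205 [(.s k64 k72 1 (.s k89 k115 6 (.s k93 k81 1 (.d k127 k110 k106 4 6)))), (.s k204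
  k136 9 (.s k12 k140 7 (.s k93 k174 12 (.d k89 k81 k115 1 6)))), (.s k64 k72 1 (.s k106 k127 6 (.s
  k192 k128 7 (.s k149 k63 14 (.d k213 k234 k21 6 7)))))] (.c k115 (.l (.s k64 k72 1 (.s k127 k106 6
  (.s k63 k191 7 (.s k110 k93 4 (.d k204 k157 k136 12 9)))))) .n)) .n))))) (.c k238 (.l (.s k119 k68
  4 (.s k51 k187 9 (.s k17 k34 4 (.d k153 k221 k204 9 14))))) .n))))))))))))

def t3_254 : T TT 256 :=
  (.q k90 [(.s k80 k95 2 (.s k240 k160 11 (.s k15 k165 14 (.s k10 k5 2 (.d k170 k250 k255 11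
  14)))))] (.c k5 (.q k4 [(.s k12 k8 1 (.s k166 k247 12 (.s k89 k243 14 (.s k93 k81 1 (.d k255 k174
  k170 12 14))))), (.s k12 k8 1 (.s k80 k95 2 (.s k166 k247 12 (.s k14 k242 13 (.s k15 k13 0 (.d
  k240 k160 k165 11 14)))))), (.s k80 k95 2 (.s k166 k247 12 (.s k170 k255 14 (.s k240 k160 11 (.s
  k242 k14 13 (.s k243 k241 0 (.d k162 k174 k81 1 12)))))))] (.c k166 (.l (.s k8 k12 1 (.s k80 k95 2
  (.s k170 k255 14 (.s k89 k251 12 (.s k88 k91 0 (.s k84 k92 1 (.d k168 k252 k248 13 11)))))))) (.c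
  k247 (.l (.s k8 k12 1 (.s k170 k255 14 (.s k250 k10 11 (.s k251 k89 12 (.s k248 k249 0 (.s k168
  k88 11 (.d k169 k171 k11 0 12)))))))) .n))) (.c k10 (.l (.s k80 k95 2 (.s k240 k160 11 (.s k165
  k15 14 (.s k245 k5 11 (.d k255 k250 k170 2 14)))))) (.c k15 (.f k95 k80 2 (.q k101 [(.s k69 k117 3
  (.s k79 k112 6 (.s k127 k111 3 (.d k64 k74 k106 2 6)))), (.s k69 k117 3 (.s k170 k255 14 (.s k32
  k239 10 (.s k48 k16 3 (.d k207 k138 k154 10 14))))), (.s k79 k112 6 (.s k127 k111 3 (.s k255 k170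
  14 (.s k63 k191 7 (.s k21 k42 6 (.s k149 k213 7 (.d k106 k64 k192 6 14)))))))] (.c k7 (.q k11 [(.s
  k69 k117 3 (.s k79 k112 6 (.s k127 k111 3 (.d k64 k74 k106 2 6)))), (.s k169 k248 12 (.s k170 k255
  14 (.s k10 k250 11 (.s k8 k9 0 (.s k171 k168 0 (.d k251 k91 k89 11 12))))))] .n) (.c k11 (.q k7
  [(.s k69 k117 3 (.s k79 k112 6 (.s k127 k111 3 (.d k64 k74 k106 2 6)))), (.s k69 k117 3 (.s k170
  k255 14 (.s k32 k239 10 (.s k48 k16 3 (.d k207 k138 k154 10 14))))), (.s k79 k112 6 (.s k127 k111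
  3 (.s k255 k170 14 (.s k63 k191 7 (.s k21 k42 6 (.s k149 k213 7 (.d k106 k64 k192 6 14)))))))] .n)
  .n)))) (.c k80 (.q k12 [(.s k4 k8 1 (.s k166 k247 12 (.s k89 k243 14 (.s k93 k81 1 (.d k255 k174
  k170 12 14))))), (.s k4 k8 1 (.s k166 k247 12 (.s k14 k242 13 (.s k15 k13 0 (.s k5 k10 2 (.d k165
  k245 k240 11 14)))))), (.s k255 k170 14 (.s k93 k174 12 (.s k89 k81 1 (.s k88 k91 0 (.s k240 k164
  13 (.s k165 k15 14 (.d k245 k250 k5 2 11)))))))] (.c k166 (.l (.s k8 k4 1 (.s k170 k255 14 (.s k10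
  k250 11 (.s k11 k9 0 (.s k89 k251 12 (.s k88 k91 0 (.d k248 k168 k169 11 12)))))))) .n)) (.c k95
  (.q k12 [(.s k4 k8 1 (.s k166 k247 12 (.s k89 k243 14 (.s k93 k81 1 (.d k255 k174 k170 12 14))))),
  (.s k4 k8 1 (.s k166 k247 12 (.s k14 k242 13 (.s k15 k13 0 (.s k5 k10 2 (.d k165 k245 k240 11
  14)))))), (.s k255 k170 14 (.s k93 k174 12 (.s k89 k81 1 (.s k88 k91 0 (.s k240 k164 13 (.s k165
  k15 14 (.d k245 k250 k5 2 11)))))))] (.c k166 (.l (.s k8 k4 1 (.s k170 k255 14 (.s k10 k250 11 (.s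
  k11 k9 0 (.s k89 k251 12 (.s k88 k91 0 (.d k248 k168 k169 11 12)))))))) .n)) (.c k160 (.l (.s k95
  k80 2 (.s k255 k170 14 (.s k15 k175 11 (.s k165 k240 14 (.d k5 k10 k245 2 11)))))) (.c k165 (.q k4
  [(.s k12 k8 1 (.s k166 k247 12 (.s k89 k243 14 (.s k93 k81 1 (.d k255 k174 k170 12 14))))), (.s
  k12 k8 1 (.s k95 k80 2 (.s k166 k247 12 (.s k14 k242 13 (.s k15 k13 0 (.d k255 k175 k170 11
  14)))))), (.s k80 k95 2 (.s k166 k247 12 (.s k170 k255 14 (.s k162 k174 1 (.s k240 k160 11 (.s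
  k243 k81 12 (.d k242 k14 k241 13 0)))))))] (.c k12 (.l (.s k80 k95 2 (.s k166 k247 12 (.s k170
  k255 14 (.s k240 k160 11 (.s k242 k14 13 (.s k243 k241 0 (.d k162 k174 k81 1 12)))))))) (.c k166
  (.l (.s k8 k12 1 (.s k80 k95 2 (.s k170 k255 14 (.s k89 k251 12 (.s k88 k91 0 (.s k84 k92 1 (.d
  k168 k252 k248 13 11)))))))) (.c k170 (.l (.s k12 k8 1 (.s k80 k95 2 (.s k166 k247 12 (.s k89 k243
  14 (.s k88 k91 0 (.d k240 k160 k164 11 13))))))) (.c k247 (.l (.s k8 k12 1 (.s k170 k255 14 (.s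
  k250 k10 11 (.s k251 k89 12 (.s k248 k249 0 (.s k168 k88 11 (.d k169 k171 k11 0 12)))))))) (.c
  k255 (.l (.s k12 k8 1 (.s k80 k95 2 (.s k166 k247 12 (.s k240 k160 11 (.s k88 k164 13 (.d k89 k243
  k91 14 0))))))) .n)))))) (.c k170 (.f k80 k95 2 (.q k86 [(.s k82 k94 1 (.s k83 k81 0 (.s k84 k87 0
  (.d k92 k88 k89 1 2)))), (.s k87 k84 0 (.s k240 k160 11 (.s k165 k15 14 (.s k5 k245 11 (.s k7 k244
  12 (.s k4 k6 0 (.d k247 k167 k166 11 12)))))))] (.c k84 (.l (.s k82 k94 1 (.s k81 k83 0 (.s k240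
  k160 11 (.s k165 k15 14 (.s k243 k162 12 (.s k241 k242 0 (.d k89 k93 k13 1 13)))))))) (.c k87 (.f
  k82 k94 1 (.l (.s k83 k81 0 (.s k92 k89 2 (.s k84 k88 1 (.s k240 k160 11 (.s k165 k15 14 (.s k252
  k168 13 (.d k244 k248 k7 1 12))))))))) (.c k255 (.l (.s k82 k94 1 (.s k83 k81 0 (.s k92 k89 2 (.d
  k84 k87 k88 0 1))))) .n))))) (.c k175 (.l (.s k80 k95 2 (.s k240 k160 11 (.s k15 k165 14 (.s k170
  k255 14 (.d k10 k5 k250 2 11)))))) (.c k240 (.f k80 k95 2 (.q k88 [(.s k89 k91 0 (.s k81 k93 1 (.s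
  k92 k84 1 (.d k83 k82 k86 0 2)))), (.s k84 k92 1 (.s k168 k252 13 (.s k248 k8 11 (.s k169 k11 12
  (.d k170 k255 k171 14 0))))), (.s k89 k91 0 (.s k170 k255 14 (.s k8 k251 12 (.s k168 k248 11 (.d
  k84 k252 k92 13 1))))), (.s k89 k91 0 (.s k93 k81 1 (.s k255 k170 14 (.s k12 k174 12 (.s k4 k8 1
  (.d k166 k247 k243 12 14))))))] (.c k82 (.q k161 [(.s k89 k91 0 (.s k81 k93 1 (.s k243 k162 12 (.s
  k12 k166 14 (.s k8 k4 1 (.d k170 k251 k255 12 14)))))), (.s k84 k92 1 (.s k168 k252 13 (.s k248 k8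
  11 (.s k169 k11 12 (.d k170 k255 k171 14 0))))), (.s k89 k91 0 (.s k170 k255 14 (.s k8 k251 12 (.s
  k168 k248 11 (.d k84 k252 k92 13 1)))))] (.c k8 (.l (.s k89 k91 0 (.s k81 k93 1 (.s k243 k162 12
  (.s k166 k12 14 (.s k247 k4 12 (.d k255 k251 k170 1 14))))))) (.c k92 (.l (.s k89 k91 0 (.s k93
  k81 1 (.s k255 k170 14 (.s k12 k174 12 (.s k4 k8 1 (.d k166 k247 k243 12 14))))))) (.c k170 (.l
  (.s k89 k91 0 (.s k81 k93 1 (.s k1 k241 11 (.s k169 k253 13 (.s k248 k11 12 (.s k168 k8 11 (.d k84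
  k92 k252 1 13)))))))) (.c k255 (.l (.s k89 k91 0 (.s k81 k93 1 (.s k243 k162 12 (.s k12 k166 14
  (.s k8 k4 1 (.s k168 k248 11 (.d k84 k92 k252 1 13)))))))) .n))))) (.c k161 (.q k82 [(.s k84 k92 1
  (.d k86 k94 k87 1 0)), (.s k81 k83 0 (.d k89 k91 k93 0 1))] (.c k87 (.l (.s k83 k81 0 (.s k86 k94
  1 (.d k89 k92 k91 2 0)))) (.c k93 (.l (.s k83 k81 0 (.s k86 k94 1 (.d k92 k84 k89 1 2)))) .n)))
  .n)))) (.c k250 (.l (.s k95 k80 2 (.s k255 k170 14 (.s k15 k175 11 (.s k5 k10 2 (.d k165 k245 k240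
  11 14)))))) (.c k255 (.q k192 [(.s k64 k128 7 (.s k95 k80 2 (.s k127 k106 6 (.s k79 k111 3 (.s k69
  k74 2 (.d k101 k117 k112 3 6)))))), (.s k80 k95 2 (.s k240 k160 11 (.s k208 k224 3 (.s k149 k31 10
  (.s k21 k213 7 (.d k63 k42 k106 6 14)))))), (.s k64 k128 7 (.s k106 k127 6 (.s k74 k122 3 (.s k15
  k133 10 (.s k5 k10 2 (.d k165 k245 k240 11 14))))))] (.c k87 (.q k171 [(.s k64 k128 7 (.s k95 k80
  2 (.s k127 k106 6 (.s k79 k111 3 (.s k69 k74 2 (.d k101 k117 k112 3 6)))))), (.s k80 k95 2 (.s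
  k240 k160 11 (.s k208 k224 3 (.s k149 k31 10 (.s k21 k213 7 (.d k63 k42 k106 6 14)))))), (.s k64
  k128 7 (.s k106 k127 6 (.s k74 k122 3 (.s k15 k133 10 (.s k5 k10 2 (.d k165 k245 k240 11 14))))))]
  (.c k106 (.l (.s k64 k128 7 (.s k80 k95 2 (.s k96 k112 3 (.s k48 k144 11 (.s k32 k16 3 (.d k160
  k224 k240 7 11))))))) (.c k252 (.q k253 [(.s k64 k128 7 (.s k95 k80 2 (.s k127 k106 6 (.s k79 k111
  3 (.s k69 k74 2 (.d k101 k117 k112 3 6)))))), (.s k169 k1 13 (.s k11 k248 12 (.s k170 k168 0 (.s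
  k10 k250 11 (.s k8 k9 0 (.d k251 k91 k89 11 12))))))] (.c k86 (.l (.s k169 k1 13 (.s k11 k248 12
  (.s k170 k168 0 (.s k10 k250 11 (.s k8 k9 0 (.d k251 k91 k89 11 12))))))) (.c k169 (.q k86 [(.s
  k64 k128 7 (.s k95 k80 2 (.s k127 k106 6 (.s k79 k111 3 (.s k69 k74 2 (.d k101 k117 k112 3
  6)))))), (.s k80 k95 2 (.s k240 k160 11 (.s k208 k224 3 (.s k149 k31 10 (.s k21 k213 7 (.d k63 k42
  k106 6 14)))))), (.s k64 k128 7 (.s k106 k127 6 (.s k74 k122 3 (.s k15 k133 10 (.s k5 k10 2 (.d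
  k165 k245 k240 11 14))))))] (.c k106 (.l (.s k64 k128 7 (.s k80 k95 2 (.s k96 k112 3 (.s k48 k144
  11 (.s k32 k16 3 (.d k160 k224 k240 7 11))))))) .n)) .n))) (.c k253 (.q k252 [(.s k64 k128 7 (.s
  k84 k168 13 (.s k104 k124 5 (.s k212 k232 5 (.d k148 k20 k60 7 13))))), (.s k80 k95 2 (.s k168 k84
  13 (.s k169 k170 0 (.s k240 k160 11 (.d k248 k244 k11 1 12))))), (.s k64 k128 7 (.s k80 k95 2 (.s
  k96 k112 3 (.s k48 k144 11 (.s k32 k16 3 (.d k160 k224 k240 7 11))))))] .n) .n)))) (.c k106 (.l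
  (.s k64 k128 7 (.s k80 k95 2 (.s k96 k112 3 (.s k48 k144 11 (.s k32 k16 3 (.d k160 k224 k240 7
  11))))))) (.c k171 (.q k87 [(.s k86 k84 0 (.s k95 k80 2 (.s k83 k91 1 (.s k92 k89 2 (.d k94 k93
  k82 0 1))))), (.s k64 k128 7 (.s k84 k86 0 (.s k104 k124 5 (.s k60 k148 13 (.s k40 k20 5 (.d k168
  k252 k232 13 7)))))), (.s k64 k128 7 (.s k80 k95 2 (.s k96 k112 3 (.s k48 k144 11 (.s k32 k16 3
  (.d k160 k224 k240 7 11))))))] (.c k252 (.q k253 [(.s k86 k84 0 (.s k95 k80 2 (.s k83 k91 1 (.s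
  k92 k89 2 (.d k94 k93 k82 0 1))))), (.s k64 k128 7 (.s k86 k84 0 (.s k127 k106 6 (.s k67 k107 5
  (.s k65 k66 0 (.d k105 k125 k124 5 6))))))] (.c k84 (.l (.s k64 k128 7 (.s k80 k95 2 (.s k96 k112
  3 (.s k48 k144 11 (.s k32 k16 3 (.d k160 k224 k240 7 11))))))) (.c k86 (.l (.s k169 k1 13 (.s k64
  k128 7 (.s k80 k95 2 (.s k96 k112 3 (.s k48 k144 11 (.s k32 k16 3 (.d k160 k224 k240 7 11))))))))
  (.c k169 (.l (.s k86 k84 0 (.s k94 k82 1 (.s k95 k80 2 (.s k83 k91 1 (.d k92 k93 k89 0 2))))))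
  .n)))) (.c k253 (.q k252 [(.d k84 k86 k168 0 13), (.s k64 k128 7 (.s k80 k95 2 (.s k96 k112 3 (.s
  k48 k144 11 (.s k32 k16 3 (.d k160 k224 k240 7 11))))))] .n) .n))) (.c k252 (.q k253 [(.s k64 k128
  7 (.s k95 k80 2 (.s k127 k106 6 (.s k79 k111 3 (.s k69 k74 2 (.d k101 k117 k112 3 6)))))), (.s k80
  k95 2 (.s k240 k160 11 (.s k208 k224 3 (.s k149 k31 10 (.s k21 k213 7 (.d k63 k42 k106 6 14)))))),
  (.s k64 k128 7 (.s k106 k127 6 (.s k74 k122 3 (.s k15 k133 10 (.s k5 k10 2 (.d k165 k245 k240 11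
  14))))))] (.c k86 (.l (.s k169 k1 13 (.s k64 k128 7 (.s k80 k95 2 (.s k96 k112 3 (.s k48 k144 11
  (.s k32 k16 3 (.d k160 k224 k240 7 11)))))))) (.c k87 (.q k171 [(.s k64 k128 7 (.s k95 k80 2 (.s
  k127 k106 6 (.s k79 k111 3 (.s k69 k74 2 (.d k101 k117 k112 3 6)))))), (.s k169 k1 13 (.s k11 k248
  12 (.s k170 k168 0 (.s k10 k250 11 (.s k8 k9 0 (.d k251 k91 k89 11 12))))))] (.c k86 (.l (.s k169
  k1 13 (.s k11 k248 12 (.s k170 k168 0 (.s k10 k250 11 (.s k8 k9 0 (.d k251 k91 k89 11 12)))))))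
  (.c k169 (.q k86 [(.s k64 k128 7 (.s k95 k80 2 (.s k127 k106 6 (.s k79 k111 3 (.s k69 k74 2 (.d
  k101 k117 k112 3 6)))))), (.s k80 k95 2 (.s k240 k160 11 (.s k208 k224 3 (.s k149 k31 10 (.s k21
  k213 7 (.d k63 k42 k106 6 14)))))), (.s k64 k128 7 (.s k106 k127 6 (.s k74 k122 3 (.s k15 k133 10
  (.s k5 k10 2 (.d k165 k245 k240 11 14))))))] (.c k106 (.l (.s k64 k128 7 (.s k80 k95 2 (.s k96
  k112 3 (.s k48 k144 11 (.s k32 k16 3 (.d k160 k224 k240 7 11))))))) .n)) .n))) (.c k106 (.l (.s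
  k64 k128 7 (.s k80 k95 2 (.s k96 k112 3 (.s k48 k144 11 (.s k32 k16 3 (.d k160 k224 k240 7
  11))))))) (.c k169 (.q k86 [(.s k87 k84 0 (.s k94 k82 1 (.s k95 k80 2 (.s k83 k91 1 (.d k92 k93
  k89 0 2))))), (.s k64 k128 7 (.s k87 k84 0 (.s k127 k106 6 (.s k67 k107 5 (.s k65 k66 0 (.d k105
  k125 k124 5 6))))))] (.c k84 (.l (.s k64 k128 7 (.s k80 k95 2 (.s k96 k112 3 (.s k48 k144 11 (.s
  k32 k16 3 (.d k160 k224 k240 7 11))))))) (.c k87 (.q k171 [(.s k64 k128 7 (.s k95 k80 2 (.s k127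
  k106 6 (.s k79 k111 3 (.s k69 k74 2 (.d k101 k117 k112 3 6)))))), (.s k80 k95 2 (.s k240 k160 11
  (.s k208 k224 3 (.s k149 k31 10 (.s k21 k213 7 (.d k63 k42 k106 6 14)))))), (.s k64 k128 7 (.s
  k106 k127 6 (.s k74 k122 3 (.s k15 k133 10 (.s k5 k10 2 (.d k165 k245 k240 11 14))))))] (.c k106
  (.l (.s k64 k128 7 (.s k80 k95 2 (.s k96 k112 3 (.s k48 k144 11 (.s k32 k16 3 (.d k160 k224 k240 7
  11))))))) .n)) (.c k171 (.l (.s k87 k84 0 (.s k94 k82 1 (.s k95 k80 2 (.s k83 k91 1 (.d k92 k93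
  k89 0 2)))))) .n)))) (.c k171 (.q k87 [(.s k86 k84 0 (.s k95 k80 2 (.s k83 k91 1 (.s k92 k89 2 (.d
  k94 k93 k82 0 1))))), (.s k64 k128 7 (.s k86 k84 0 (.s k127 k106 6 (.s k67 k107 5 (.s k65 k66 0
  (.d k105 k125 k124 5 6))))))] (.c k84 (.l (.s k64 k128 7 (.s k80 k95 2 (.s k96 k112 3 (.s k48 k144
  11 (.s k32 k16 3 (.d k160 k224 k240 7 11))))))) (.c k86 (.l (.s k169 k1 13 (.s k64 k128 7 (.s k80
  k95 2 (.s k96 k112 3 (.s k48 k144 11 (.s k32 k16 3 (.d k160 k224 k240 7 11)))))))) (.c k169 (.l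
  (.s k86 k84 0 (.s k94 k82 1 (.s k95 k80 2 (.s k83 k91 1 (.d k92 k93 k89 0 2)))))) .n)))) .n))))))
  (.c k253 (.q k252 [(.s k64 k128 7 (.s k84 k168 13 (.s k104 k124 5 (.s k212 k232 5 (.d k148 k20 k60
  7 13))))), (.s k64 k128 7 (.s k80 k95 2 (.s k96 k112 3 (.s k48 k144 11 (.s k32 k16 3 (.d k160 k224
  k240 7 11)))))), (.s k80 k95 2 (.s k84 k168 13 (.s k88 k92 1 (.s k240 k160 11 (.s k164 k12 13 (.d
  k244 k248 k4 1 11))))))] (.c k87 (.q k171 [(.s k64 k128 7 (.s k84 k168 13 (.s k104 k124 5 (.s k212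
  k232 5 (.d k148 k20 k60 7 13))))), (.s k80 k95 2 (.s k168 k84 13 (.s k169 k170 0 (.s k240 k160 11
  (.d k248 k244 k11 1 12))))), (.s k64 k128 7 (.s k80 k95 2 (.s k96 k112 3 (.s k48 k144 11 (.s k32
  k16 3 (.d k160 k224 k240 7 11))))))] .n) (.c k171 (.q k87 [(.d k84 k86 k168 0 13), (.s k64 k128 7
  (.s k80 k95 2 (.s k96 k112 3 (.s k48 k144 11 (.s k32 k16 3 (.d k160 k224 k240 7 11))))))] .n)
  .n))) .n)))))) .n)))))))))))))

def t5_6 : T TT 256 :=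
  (.f k255 k170 14 (.q k4 [(.s k166 k247 12 (.s k12 k8 1 (.s k89 k243 14 (.d k93 k81 k174 1 12))))]
  (.c k8 (.q k38 [(.s k55 k21 4 (.s k166 k247 12 (.s k102 k230 7 (.s k68 k119 4 (.d k196 k132 k149 7
  12))))), (.s k21 k55 4 (.s k63 k42 6 (.s k127 k191 7 (.s k106 k64 6 (.d k149 k213 k192 7 14))))),
  (.s k166 k247 12 (.s k102 k230 7 (.s k119 k68 4 (.s k51 k187 9 (.s k17 k34 4 (.d k153 k221 k204 9
  14))))))] (.c k89 (.q k251 [(.d k247 k243 k166 1 12), (.s k21 k55 4 (.s k63 k42 6 (.s k127 k191 7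
  (.s k106 k64 6 (.d k149 k213 k192 7 14)))))] .n) (.c k213 (.l (.s k55 k21 4 (.s k166 k247 12 (.s
  k102 k230 7 (.s k196 k149 12 (.d k68 k119 k132 4 7)))))) (.c k251 (.q k89 [(.s k81 k93 1 (.s k166
  k247 12 (.d k243 k162 k12 12 14))), (.s k21 k55 4 (.s k63 k42 6 (.s k127 k191 7 (.s k106 k64 6 (.d
  k149 k213 k192 7 14)))))] .n) .n)))) (.c k12 (.f k166 k247 12 (.q k150 [(.s k215 k20 8 (.s k195
  k235 5 (.s k65 k130 8 (.d k105 k125 k60 5 14)))), (.s k134 k182 3 (.s k69 k199 8 (.s k207 k138 10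
  (.s k223 k239 3 (.s k154 k16 10 (.d k101 k117 k48 3 14))))))] (.c k3 (.q k9 [(.s k215 k20 8 (.s
  k195 k235 5 (.s k65 k130 8 (.d k105 k125 k60 5 14)))), (.s k134 k182 3 (.s k69 k199 8 (.s k207
  k138 10 (.s k223 k239 3 (.s k154 k16 10 (.d k101 k117 k48 3 14))))))] (.c k215 (.l (.s k134 k182 3
  (.s k199 k69 8 (.s k52 k101 12 (.s k20 k36 3 (.s k60 k40 5 (.s k105 k195 14 (.d k125 k65 k190 5
  8)))))))) .n)) (.c k9 (.q k3 [(.s k1 k2 0 (.s k87 k171 13 (.s k86 k84 0 (.d k169 k253 k252 13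
  14)))), (.s k20 k215 8 (.s k52 k36 3 (.s k134 k182 3 (.d k199 k69 k101 8 12))))] (.c k1 (.q k13
  [(.s k215 k20 8 (.s k195 k235 5 (.s k65 k130 8 (.d k105 k125 k60 5 14)))), (.s k20 k215 8 (.s k52
  k36 3 (.s k134 k182 3 (.d k199 k69 k101 8 12)))), (.s k87 k171 13 (.s k86 k84 0 (.s k22 k214 7 (.s
  k60 k41 6 (.s k105 k195 14 (.d k125 k65 k190 5 8))))))] .n) (.c k13 (.l (.s k1 k2 0 (.s k87 k171
  13 (.s k86 k84 0 (.d k169 k253 k252 13 14))))) .n))) (.c k215 (.l (.s k134 k182 3 (.s k199 k69 8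
  (.s k52 k101 12 (.s k20 k36 3 (.s k60 k40 5 (.s k105 k195 14 (.d k125 k65 k190 5 8)))))))) .n)))))
  (.c k81 (.q k16 [(.s k154 k223 10 (.s k48 k32 3 (.s k101 k207 14 (.d k117 k69 k186 3 10)))), (.s
  k12 k8 1 (.s k93 k174 12 (.s k223 k154 10 (.s k28 k158 8 (.s k20 k24 1 (.d k60 k40 k44 5 3)))))),
  (.s k12 k8 1 (.s k48 k32 3 (.s k36 k24 5 (.s k52 k20 3 (.s k247 k166 12 (.d k117 k182 k186 8
  10))))))] (.c k186 (.l (.s k12 k8 1 (.s k48 k32 3 (.s k24 k36 5 (.s k28 k20 1 (.s k93 k174 12 (.d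
  k223 k158 k154 8 10))))))) .n)) (.c k89 (.q k38 [(.s k21 k55 4 (.s k42 k63 6 (.s k34 k46 1 (.s k51
  k17 4 (.d k12 k8 k25 1 6))))), (.s k55 k21 4 (.s k166 k247 12 (.s k102 k230 7 (.s k68 k119 4 (.d
  k196 k132 k149 7 12))))), (.s k166 k247 12 (.s k102 k230 7 (.s k119 k68 4 (.s k51 k187 9 (.d k12
  k8 k25 1 6)))))] (.c k8 (.q k251 [(.d k247 k243 k166 1 12), (.s k21 k55 4 (.s k63 k42 6 (.s k127
  k191 7 (.s k106 k64 6 (.d k149 k213 k192 7 14)))))] .n) (.c k251 (.l (.s k8 k12 1 (.s k21 k55 4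
  (.s k63 k42 6 (.s k127 k191 7 (.s k106 k64 6 (.d k149 k213 k192 7 14))))))) .n))) (.c k93 (.q k16
  [(.s k154 k223 10 (.s k48 k32 3 (.s k101 k207 14 (.d k117 k69 k186 3 10)))), (.s k12 k8 1 (.s k154
  k223 10 (.s k166 k247 12 (.s k89 k243 14 (.s k24 k219 8 (.s k36 k48 5 (.d k20 k28 k52 1 3))))))),
  (.s k12 k8 1 (.s k48 k32 3 (.s k36 k24 5 (.s k52 k20 3 (.s k247 k166 12 (.d k117 k182 k186 8
  10))))))] (.c k48 (.l (.s k223 k154 10 (.s k207 k239 3 (.s k247 k166 12 (.s k243 k251 1 (.s k219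
  k231 5 (.s k211 k215 1 (.d k81 k162 k146 12 8)))))))) .n)) (.c k166 (.q k86 [(.s k84 k87 0 (.s
  k252 k168 13 (.s k253 k254 0 (.d k169 k1 k3 13 14)))), (.s k12 k8 1 (.s k84 k87 0 (.s k164 k244 11
  (.s k88 k240 13 (.s k92 k80 1 (.d k252 k172 k168 11 13))))))] (.c k84 (.f k12 k8 1 (.q k89 [(.d
  k93 k174 k81 12 1), (.s k92 k83 2 (.s k252 k172 11 (.s k169 k3 14 (.d k253 k254 k1 0 13))))] (.c
  k162 (.l (.s k174 k93 12 (.s k92 k83 2 (.s k252 k172 11 (.s k169 k3 14 (.d k253 k254 k1 0 13))))))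
  (.c k174 (.q k162 [(.d k81 k93 k243 1 12), (.s k92 k83 2 (.s k252 k172 11 (.s k253 k254 0 (.d k169
  k1 k3 13 14))))] .n) .n)))) (.c k87 (.f k12 k8 1 (.q k89 [(.d k93 k174 k81 12 1), (.s k92 k83 2
  (.s k252 k172 11 (.s k169 k3 14 (.d k253 k254 k1 0 13))))] (.c k162 (.l (.s k174 k93 12 (.s k92
  k83 2 (.s k252 k172 11 (.s k169 k3 14 (.d k253 k254 k1 0 13)))))) (.c k174 (.q k162 [(.d k81 k93
  k243 1 12), (.s k92 k83 2 (.s k252 k172 11 (.s k253 k254 0 (.d k169 k1 k3 13 14))))] .n) .n))))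
  (.c k162 (.q k174 [(.d k12 k8 k93 1 12), (.s k84 k87 0 (.s k252 k168 13 (.s k253 k254 0 (.d k169
  k1 k3 13 14))))] .n) (.c k168 (.l (.s k87 k84 0 (.s k3 k171 13 (.s k169 k252 14 (.d k1 k2 k253 0
  13))))) (.c k174 (.q k162 [(.s k87 k84 0 (.s k3 k171 13 (.s k169 k252 14 (.d k1 k2 k253 0 13)))),
  (.s k81 k243 12 (.s k87 k84 0 (.s k89 k93 1 (.s k83 k92 2 (.s k80 k82 0 (.d k95 k91 k90 1 2)))))),
  (.s k12 k8 1 (.s k81 k243 12 (.s k89 k93 1 (.s k92 k83 2 (.s k252 k172 11 (.s k253 k254 0 (.d k169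
  k3 k1 14 13)))))))] .n) (.c k252 (.q k162 [(.s k12 k8 1 (.s k93 k174 12 (.d k81 k89 k243 1 12))),
  (.s k87 k84 0 (.s k3 k171 13 (.s k2 k1 0 (.s k82 k242 11 (.s k90 k94 1 (.s k80 k95 2 (.d k240 k160
  k161 11 12)))))))] (.c k93 (.l (.s k81 k243 12 (.s k87 k84 0 (.s k3 k171 13 (.s k1 k2 0 (.s k161
  k241 11 (.s k160 k163 0 (.d k240 k80 k82 11 12)))))))) .n)) .n))))))) (.c k174 (.f k166 k247 12
  (.q k16 [(.s k154 k223 10 (.s k48 k32 3 (.s k101 k207 14 (.d k117 k69 k186 3 10)))), (.s k12 k8 1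
  (.s k89 k243 14 (.s k81 k93 1 (.s k154 k223 10 (.s k24 k219 8 (.s k28 k20 1 (.d k211 k146 k150 8
  10))))))), (.s k12 k8 1 (.s k48 k32 3 (.s k36 k24 5 (.s k101 k231 8 (.d k117 k69 k186 3 10)))))]
  .n)) (.c k243 (.q k16 [(.s k48 k32 3 (.s k117 k186 10 (.s k154 k223 10 (.d k101 k69 k207 3 14)))),
  (.s k12 k8 1 (.s k93 k174 12 (.s k223 k154 10 (.s k28 k158 8 (.s k20 k24 1 (.d k60 k40 k44 5
  3)))))), (.s k12 k8 1 (.s k48 k32 3 (.s k36 k24 5 (.s k52 k20 3 (.s k247 k166 12 (.d k117 k182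
  k186 8 10))))))] (.c k186 (.l (.s k12 k8 1 (.s k48 k32 3 (.s k24 k36 5 (.s k28 k20 1 (.s k93 k174
  12 (.d k223 k158 k154 8 10))))))) .n)) (.c k247 (.q k20 [(.s k60 k40 5 (.s k125 k190 8 (.s k105
  k65 5 (.d k150 k215 k195 8 14)))), (.s k12 k8 1 (.s k36 k52 3 (.s k24 k48 5 (.s k16 k28 1 (.s k93
  k174 12 (.s k89 k81 1 (.d k154 k219 k223 8 10)))))))] (.c k60 (.l (.s k12 k8 1 (.s k36 k52 3 (.s
  k48 k24 5 (.s k16 k32 3 (.s k117 k186 10 (.s k101 k69 3 (.d k154 k223 k207 10 14)))))))) .n)) (.c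
  k251 (.l (.s k166 k247 12 (.s k12 k8 1 (.s k89 k243 14 (.d k93 k81 k174 1 12))))) .n))))))))))))

def t5_7 : T TT 256 :=
  (.f k255 k170 14 (.q k4 [(.s k12 k8 1 (.s k93 k174 12 (.s k89 k81 1 (.d k166 k247 k243 12 14))))]
  (.c k8 (.q k36 [(.s k52 k20 3 (.s k166 k247 12 (.s k101 k231 8 (.s k69 k117 3 (.d k199 k134 k150 8
  12))))), (.s k20 k52 3 (.s k60 k40 5 (.s k125 k190 8 (.s k105 k65 5 (.d k150 k215 k195 8 14))))),
  (.s k166 k247 12 (.s k101 k231 8 (.s k117 k69 3 (.s k48 k186 10 (.s k16 k32 3 (.d k154 k223 k207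
  10 14))))))] (.c k89 (.q k251 [(.d k247 k243 k166 1 12), (.s k20 k52 3 (.s k60 k40 5 (.s k125 k190
  8 (.s k105 k65 5 (.d k150 k215 k195 8 14)))))] .n) (.c k215 (.l (.s k52 k20 3 (.s k166 k247 12 (.s
  k101 k231 8 (.s k199 k150 12 (.d k69 k117 k134 3 8)))))) (.c k251 (.q k89 [(.s k81 k93 1 (.s k243
  k162 12 (.d k166 k247 k12 12 14))), (.s k20 k52 3 (.s k60 k40 5 (.s k125 k190 8 (.s k105 k65 5 (.d
  k150 k215 k195 8 14)))))] .n) .n)))) (.c k12 (.q k3 [(.s k1 k2 0 (.s k87 k171 13 (.s k86 k84 0 (.d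
  k169 k253 k252 13 14)))), (.s k2 k1 0 (.s k247 k166 12 (.s k243 k251 1 (.s k162 k81 12 (.s k82
  k242 11 (.s k161 k240 12 (.d k163 k160 k83 0 11))))))), (.s k87 k171 13 (.s k86 k84 0 (.s k247
  k166 12 (.s k243 k251 1 (.s k83 k163 11 (.s k89 k92 2 (.d k81 k162 k93 12 1)))))))] .n) (.c k81
  (.q k1 [(.s k169 k253 13 (.s k3 k2 0 (.s k86 k252 14 (.d k87 k84 k171 0 13)))), (.s k12 k8 1 (.s
  k166 k247 12 (.s k89 k243 14 (.s k169 k253 13 (.s k9 k249 11 (.d k3 k2 k6 0 2)))))), (.s k3 k2 0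
  (.s k12 k8 1 (.s k6 k9 2 (.s k166 k247 12 (.s k86 k246 11 (.d k87 k84 k171 0 13)))))), (.s k12 k8
  1 (.s k93 k174 12 (.s k253 k169 13 (.s k173 k13 11 (.s k252 k254 0 (.s k92 k172 11 (.d k94 k95 k15
  0 12)))))))] (.c k2 (.l (.s k12 k8 1 (.s k166 k247 12 (.s k169 k253 13 (.s k172 k163 2 (.s k252
  k92 11 (.s k84 k168 13 (.d k86 k87 k3 0 14)))))))) .n)) (.c k89 (.q k36 [(.s k20 k52 3 (.s k40 k60
  5 (.s k32 k44 1 (.s k48 k16 3 (.d k12 k8 k24 1 5))))), (.s k52 k20 3 (.s k166 k247 12 (.s k101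
  k231 8 (.s k69 k117 3 (.d k199 k134 k150 8 12))))), (.s k166 k247 12 (.s k101 k231 8 (.s k117 k69
  3 (.s k48 k186 10 (.d k12 k8 k24 1 5)))))] (.c k8 (.q k251 [(.d k247 k243 k166 1 12), (.s k20 k52
  3 (.s k60 k40 5 (.s k125 k190 8 (.s k105 k65 5 (.d k150 k215 k195 8 14)))))] .n) (.c k251 (.l (.s
  k8 k12 1 (.s k20 k52 3 (.s k60 k40 5 (.s k125 k190 8 (.s k105 k65 5 (.d k150 k215 k195 8 14)))))))
  .n))) (.c k93 (.q k1 [(.s k3 k2 0 (.s k87 k171 13 (.s k86 k84 0 (.d k169 k253 k252 13 14)))), (.s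
  k12 k8 1 (.s k166 k247 12 (.s k89 k243 14 (.s k169 k253 13 (.s k9 k249 11 (.d k3 k2 k6 0 2)))))),
  (.s k3 k2 0 (.s k12 k8 1 (.s k6 k9 2 (.s k166 k247 12 (.s k86 k246 11 (.d k87 k84 k171 0 13)))))),
  (.s k247 k166 12 (.s k243 k251 1 (.s k253 k169 13 (.s k252 k254 0 (.s k246 k249 2 (.s k244 k245 0
  (.d k84 k168 k164 13 11)))))))] (.c k2 (.l (.s k12 k8 1 (.s k166 k247 12 (.s k169 k253 13 (.s k172
  k163 2 (.s k252 k92 11 (.s k84 k168 13 (.d k86 k87 k3 0 14)))))))) .n)) (.c k162 (.l (.s k12 k8 1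
  (.s k93 k174 12 (.s k166 k247 12 (.d k89 k81 k243 1 14))))) (.c k166 (.f k12 k8 1 (.f k174 k93 12
  (.q k252 [(.s k84 k168 13 (.s k92 k172 11 (.s k88 k80 1 (.d k164 k244 k240 11 13)))), (.s k172 k92
  11 (.s k173 k175 0 (.s k94 k15 12 (.d k254 k253 k14 0 11)))), (.s k84 k168 13 (.s k86 k87 0 (.s
  k169 k3 14 (.d k253 k254 k1 0 13))))] (.c k89 (.q k251 [(.s k84 k168 13 (.s k92 k172 11 (.s k88
  k80 1 (.d k164 k244 k240 11 13)))), (.s k172 k92 11 (.s k173 k175 0 (.s k94 k15 12 (.d k254 k253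
  k14 0 11)))), (.s k84 k168 13 (.s k86 k87 0 (.s k169 k3 14 (.d k253 k254 k1 0 13))))] .n) (.c k251
  (.q k89 [(.s k92 k172 11 (.s k86 k83 2 (.d k84 k87 k168 0 13))), (.s k172 k92 11 (.s k173 k175 0
  (.s k94 k15 12 (.d k254 k253 k14 0 11)))), (.s k84 k168 13 (.s k86 k87 0 (.s k169 k3 14 (.d k253
  k254 k1 0 13))))] .n) .n))))) (.c k174 (.q k106 [(.s k64 k127 6 (.s k192 k128 7 (.s k149 k63 14
  (.d k213 k234 k21 6 7)))), (.s k12 k8 1 (.s k127 k64 6 (.s k166 k247 12 (.s k46 k226 9 (.d k63 k29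
  k191 4 7))))), (.s k12 k8 1 (.s k166 k247 12 (.s k46 k226 9 (.s k63 k29 4 (.s k21 k42 6 (.d k149
  k213 k192 7 14))))))] (.c k63 (.l (.s k12 k8 1 (.s k64 k127 6 (.s k166 k247 12 (.s k89 k243 14 (.s
  k192 k128 7 (.d k72 k123 k132 4 9))))))) (.c k162 (.l (.s k166 k247 12 (.s k12 k8 1 (.s k46 k226 9
  (.s k63 k29 4 (.d k127 k64 k191 6 7)))))) (.c k166 (.q k162 [(.s k64 k127 6 (.s k192 k128 7 (.s
  k149 k63 14 (.d k213 k234 k21 6 7)))), (.s k64 k127 6 (.s k81 k243 12 (.s k89 k93 1 (.s k72 k123 4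
  (.s k76 k68 1 (.d k115 k98 k102 4 6)))))), (.s k12 k8 1 (.s k81 k243 12 (.s k89 k93 1 (.s k72 k123
  4 (.s k192 k132 9 (.s k213 k234 6 (.d k149 k63 k21 14 7)))))))] (.c k63 (.l (.s k12 k8 1 (.s k64
  k127 6 (.s k81 k243 12 (.s k89 k93 1 (.s k192 k128 7 (.d k72 k123 k132 4 9))))))) .n)) .n)))) (.c
  k243 (.q k1 [(.s k3 k2 0 (.s k87 k171 13 (.s k86 k84 0 (.d k169 k253 k252 13 14)))), (.s k12 k8 1
  (.s k93 k174 12 (.s k89 k81 1 (.s k169 k253 13 (.s k9 k249 11 (.d k3 k2 k6 0 2)))))), (.s k3 k2 0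
  (.s k12 k8 1 (.s k6 k9 2 (.s k166 k247 12 (.s k86 k246 11 (.d k87 k84 k171 0 13))))))] (.c k2 (.l
  (.s k12 k8 1 (.s k166 k247 12 (.s k169 k253 13 (.s k172 k163 2 (.s k252 k92 11 (.s k84 k168 13 (.d
  k86 k87 k3 0 14)))))))) (.c k3 (.l (.s k12 k8 1 (.s k93 k174 12 (.s k253 k169 13 (.s k173 k13 11
  (.s k252 k254 0 (.s k92 k172 11 (.d k94 k95 k15 0 12)))))))) (.c k252 (.l (.s k3 k2 0 (.s k12 k8 1
  (.s k6 k9 2 (.s k87 k171 13 (.s k86 k84 0 (.d k166 k246 k247 11 12))))))) .n)))) (.c k247 (.q k87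
  [(.s k86 k84 0 (.s k3 k171 13 (.s k169 k252 14 (.d k1 k2 k253 0 13)))), (.s k12 k8 1 (.s k84 k86 0
  (.s k252 k168 13 (.s k92 k172 11 (.s k88 k80 1 (.d k164 k244 k240 11 13)))))), (.s k3 k171 13 (.s
  k12 k8 1 (.s k9 k6 2 (.s k93 k174 12 (.s k89 k81 1 (.s k169 k249 11 (.d k1 k2 k253 0 13)))))))]
  (.c k2 (.l (.s k3 k171 13 (.s k12 k8 1 (.s k6 k9 2 (.s k86 k84 0 (.s k93 k174 12 (.s k89 k81 1 (.d
  k166 k246 k243 11 14)))))))) (.c k168 (.l (.s k86 k84 0 (.s k3 k171 13 (.s k169 k252 14 (.d k1 k2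
  k253 0 13))))) (.c k169 (.l (.s k12 k8 1 (.s k84 k86 0 (.s k171 k3 13 (.s k252 k168 13 (.s k92
  k172 11 (.s k88 k80 1 (.d k164 k244 k240 11 13)))))))) (.c k171 (.f k12 k8 1 (.l (.s k86 k84 0 (.s
  k93 k174 12 (.s k89 k81 1 (.s k92 k83 2 (.s k252 k172 11 (.s k169 k3 14 (.d k253 k254 k1 0
  13))))))))) .n))))) (.c k251 (.l (.s k166 k247 12 (.s k12 k8 1 (.s k89 k243 14 (.d k93 k81 k174 1
  12))))) .n)))))))))))))

def t5_10 : T TT 256 :=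
  (.f k170 k255 14 (.q k204 [(.s k68 k136 9 (.s k102 k119 4 (.s k34 k238 9 (.d k51 k17 k153 4
  14))))] (.c k17 (.q k1 [(.s k169 k253 13 (.s k168 k171 0 (.s k252 k84 13 (.d k3 k2 k86 0 14)))),
  (.s k3 k2 0 (.s k136 k68 9 (.s k137 k70 10 (.s k69 k205 9 (.d k138 k139 k207 0 10))))), (.s k68
  k136 9 (.s k102 k119 4 (.s k169 k253 13 (.s k236 k35 10 (.s k252 k220 3 (.d k168 k171 k84 0
  13))))))] .n) (.c k34 (.q k1 [(.s k169 k253 13 (.s k168 k171 0 (.s k252 k84 13 (.d k3 k2 k86 0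
  14)))), (.s k3 k2 0 (.s k136 k68 9 (.s k137 k70 10 (.s k69 k205 9 (.d k138 k139 k207 0 10))))),
  (.s k68 k136 9 (.s k102 k119 4 (.s k169 k253 13 (.s k236 k35 10 (.s k252 k220 3 (.d k168 k171 k84
  0 13))))))] .n) (.c k51 (.f k136 k68 9 (.f k187 k153 4 (.q k1 [(.s k3 k2 0 (.s k169 k253 13 (.s
  k168 k171 0 (.d k252 k84 k86 13 14)))), (.s k3 k2 0 (.s k137 k70 10 (.s k69 k205 9 (.d k138 k139
  k207 0 10)))), (.s k169 k253 13 (.s k171 k168 0 (.s k139 k155 3 (.s k138 k137 0 (.d k154 k186 k184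
  3 4)))))] .n))) (.c k68 (.q k2 [(.s k86 k254 13 (.s k84 k87 0 (.s k252 k168 13 (.d k3 k1 k169 0
  14)))), (.s k3 k1 0 (.s k70 k137 10 (.s k138 k206 9 (.s k154 k186 3 (.s k16 k223 10 (.s k48 k32 3
  (.d k207 k69 k101 10 14)))))))] (.c k1 (.l (.s k86 k254 13 (.s k84 k87 0 (.s k252 k168 13 (.s k220
  k236 3 (.s k153 k19 10 (.s k17 k221 9 (.d k51 k34 k102 4 14)))))))) (.c k3 (.f k86 k254 13 (.q
  k252 [(.d k84 k87 k168 0 13), (.s k220 k236 3 (.s k153 k19 10 (.s k17 k221 9 (.d k51 k34 k102 4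
  14))))] (.c k87 (.q k171 [(.d k168 k169 k84 0 13), (.s k220 k236 3 (.s k153 k19 10 (.s k17 k221 9
  (.d k51 k34 k102 4 14))))] .n) (.c k171 (.l (.s k87 k84 0 (.s k220 k236 3 (.s k153 k19 10 (.s k17
  k221 9 (.d k51 k34 k102 4 14)))))) .n)))) .n))) (.c k102 (.q k1 [(.s k169 k253 13 (.s k168 k171 0
  (.s k252 k84 13 (.d k3 k2 k86 0 14)))), (.s k3 k2 0 (.s k136 k68 9 (.s k137 k70 10 (.s k69 k205 9
  (.d k138 k139 k207 0 10))))), (.s k136 k68 9 (.s k153 k187 4 (.s k169 k253 13 (.s k137 k185 3 (.s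
  k69 k205 9 (.d k138 k139 k207 0 10))))))] .n) (.c k119 (.l (.s k136 k68 9 (.s k153 k187 4 (.s k51
  k102 14 (.d k17 k34 k221 4 9))))) (.c k136 (.q k2 [(.s k3 k1 0 (.s k86 k254 13 (.s k84 k87 0 (.d
  k252 k168 k169 13 14)))), (.s k3 k1 0 (.s k70 k137 10 (.s k138 k206 9 (.s k154 k186 3 (.s k16 k223
  10 (.s k48 k32 3 (.d k207 k69 k101 10 14))))))), (.s k86 k254 13 (.s k84 k87 0 (.s k252 k168 13
  (.s k220 k236 3 (.s k153 k19 10 (.s k17 k221 9 (.d k51 k34 k102 4 14)))))))] (.c k3 (.f k86 k254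
  13 (.q k252 [(.d k84 k87 k168 0 13), (.s k220 k236 3 (.s k153 k19 10 (.s k17 k221 9 (.d k51 k34
  k102 4 14))))] (.c k87 (.q k171 [(.d k168 k169 k84 0 13), (.s k220 k236 3 (.s k153 k19 10 (.s k17
  k221 9 (.d k51 k34 k102 4 14))))] .n) (.c k171 (.l (.s k87 k84 0 (.s k220 k236 3 (.s k153 k19 10
  (.s k17 k221 9 (.d k51 k34 k102 4 14)))))) .n)))) .n)) (.c k153 (.q k1 [(.s k169 k253 13 (.s k168
  k171 0 (.s k252 k84 13 (.d k3 k2 k86 0 14)))), (.s k3 k2 0 (.s k136 k68 9 (.s k137 k70 10 (.s k69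
  k205 9 (.d k138 k139 k207 0 10))))), (.s k68 k136 9 (.s k102 k119 4 (.s k169 k253 13 (.s k236 k35
  10 (.s k252 k220 3 (.d k168 k171 k84 0 13))))))] .n) (.c k187 (.l (.s k68 k136 9 (.s k102 k119 4
  (.s k51 k153 14 (.d k34 k17 k238 4 9))))) (.c k238 (.l (.s k136 k68 9 (.s k153 k187 4 (.s k17 k221
  9 (.d k51 k34 k102 4 14))))) .n))))))))))))

/-- roots with certificates -/
def certs : List (Cell TT 256 × Cell TT 256 × T TT 256) :=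
  [(k3, k88, t3_88), (k3, k89, t3_89), (k3, k90, t3_90), (k3, k91, t3_91), (k3, k92, t3_92), (k3,
  k94, t3_94), (k3, k95, t3_95), (k3, k104, t3_104), (k3, k105, t3_105), (k3, k106, t3_106), (k3,
  k107, t3_107), (k3, k108, t3_108), (k3, k109, t3_109), (k3, k110, t3_110), (k3, k111, t3_111),
  (k3, k124, t3_124), (k3, k125, t3_125), (k3, k126, t3_126), (k3, k127, t3_127), (k3, k168,
  t3_168), (k3, k169, t3_169), (k3, k171, t3_171), (k3, k172, t3_172), (k3, k173, t3_173), (k3,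
  k174, t3_174), (k3, k175, t3_175), (k3, k188, t3_188), (k3, k189, t3_189), (k3, k190, t3_190),
  (k3, k191, t3_191), (k3, k252, t3_252), (k3, k253, t3_253), (k3, k254, t3_254), (k5, k6, t5_6),
  (k5, k7, t5_7), (k5, k10, t5_10)]

theorem c3_88 : rootOK k3 k88 t3_88 = true := by decide +kernel

theorem c3_89 : rootOK k3 k89 t3_89 = true := by decide +kernel

theorem c3_90 : rootOK k3 k90 t3_90 = true := by decide +kernel

theorem c3_91 : rootOK k3 k91 t3_91 = true := by decide +kernel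

theorem c3_92 : rootOK k3 k92 t3_92 = true := by decide +kernel

theorem c3_94 : rootOK k3 k94 t3_94 = true := by decide +kernel

theorem c3_95 : rootOK k3 k95 t3_95 = true := by decide +kernel

theorem c3_104 : rootOK k3 k104 t3_104 = true := by decide +kernel

theorem c3_105 : rootOK k3 k105 t3_105 = true := by decide +kernel

theorem c3_106 : rootOK k3 k106 t3_106 = true := by decide +kernel

theorem c3_107 : rootOK k3 k107 t3_107 = true := by decide +kernel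

theorem c3_108 : rootOK k3 k108 t3_108 = true := by decide +kernel

theorem c3_109 : rootOK k3 k109 t3_109 = true := by decide +kernel

theorem c3_110 : rootOK k3 k110 t3_110 = true := by decide +kernel

theorem c3_111 : rootOK k3 k111 t3_111 = true := by decide +kernel

theorem c3_124 : rootOK k3 k124 t3_124 = true := by decide +kernel

theorem c3_125 : rootOK k3 k125 t3_125 = true := by decide +kernel

theorem c3_126 : rootOK k3 k126 t3_126 = true := by decide +kernel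

theorem c3_127 : rootOK k3 k127 t3_127 = true := by decide +kernel

theorem c3_168 : rootOK k3 k168 t3_168 = true := by decide +kernel

theorem c3_169 : rootOK k3 k169 t3_169 = true := by decide +kernel

theorem c3_171 : rootOK k3 k171 t3_171 = true := by decide +kernel

theorem c3_172 : rootOK k3 k172 t3_172 = true := by decide +kernel

theorem c3_173 : rootOK k3 k173 t3_173 = true := by decide +kernel

theorem c3_174 : rootOK k3 k174 t3_174 = true := by decide +kernel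

theorem c3_175 : rootOK k3 k175 t3_175 = true := by decide +kernel

theorem c3_188 : rootOK k3 k188 t3_188 = true := by decide +kernel

theorem c3_189 : rootOK k3 k189 t3_189 = true := by decide +kernel

theorem c3_190 : rootOK k3 k190 t3_190 = true := by decide +kernel

theorem c3_191 : rootOK k3 k191 t3_191 = true := by decide +kernel

theorem c3_252 : rootOK k3 k252 t3_252 = true := by decide +kernel

theorem c3_253 : rootOK k3 k253 t3_253 = true := by decide +kernel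

theorem c3_254 : rootOK k3 k254 t3_254 = true := by decide +kernel

theorem c5_6 : rootOK k5 k6 t5_6 = true := by decide +kernel

theorem c5_7 : rootOK k5 k7 t5_7 = true := by decide +kernel

theorem c5_10 : rootOK k5 k10 t5_10 = true := by decide +kernel

theorem ok : certsOK certs = true :=
  certsOK_cons c3_88 (certsOK_cons c3_89 (certsOK_cons c3_90 (certsOK_cons c3_91 (
  certsOK_cons c3_92 (certsOK_cons c3_94 (certsOK_cons c3_95 (certsOK_cons c3_104 (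
  certsOK_cons c3_105 (certsOK_cons c3_106 (certsOK_cons c3_107 (certsOK_cons c3_108 (
  certsOK_cons c3_109 (certsOK_cons c3_110 (certsOK_cons c3_111 (certsOK_cons c3_124 (
  certsOK_cons c3_125 (certsOK_cons c3_126 (certsOK_cons c3_127 (certsOK_cons c3_168 (
  certsOK_cons c3_169 (certsOK_cons c3_171 (certsOK_cons c3_172 (certsOK_cons c3_173 (
  certsOK_cons c3_174 (certsOK_cons c3_175 (certsOK_cons c3_188 (certsOK_cons c3_189 (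
  certsOK_cons c3_190 (certsOK_cons c3_191 (certsOK_cons c3_252 (certsOK_cons c3_253 (
  certsOK_cons c3_254 (certsOK_cons c5_6 (certsOK_cons c5_7 (certsOK_cons c5_10 (certsOK_nil)))))
  )))))))))))))))))))))))))))))))

theorem sound (k : Nat) (hk : (bits certs).testBit k = true) : PI k :=
  certs_sound certs ok k hk

end Pool.Agent.TTT.A05
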