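import Pool.Agent.TTT.Sym

set_option autoImplicit false
set_option maxRecDepth 100000

namespace Pool.Agent.TTT.A06

def t5_11 : T TT 256 :=
  (.f k255 k170 14 (.q k105 [(.s k65 k125 5 (.s k195 k130 8 (.s k150 k60 14 (.d k215 k235 k20 5
  8))))] (.c k20 (.q k1 [(.s k3 k2 0 (.s k169 k253 13 (.s k86 k252 14 (.d k87 k84 k171 0 13)))), (.s
  k65 k125 5 (.s k169 k253 13 (.s k41 k233 7 (.s k61 k21 5 (.d k193 k129 k149 7 13))))), (.s k3 k2 0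
  (.s k65 k125 5 (.s k129 k193 7 (.s k66 k192 8 (.s k67 k64 0 (.d k195 k131 k130 7 8))))))] .n) (.c
  k60 (.q k1 [(.s k3 k2 0 (.s k169 k253 13 (.s k86 k252 14 (.d k87 k84 k171 0 13)))), (.s k65 k125 5
  (.s k169 k253 13 (.s k41 k233 7 (.s k61 k21 5 (.d k193 k129 k149 7 13))))), (.s k3 k2 0 (.s k65
  k125 5 (.s k129 k193 7 (.s k66 k192 8 (.s k67 k64 0 (.d k195 k131 k130 7 8))))))] .n) (.c k65 (.q
  k84 [(.s k86 k87 0 (.s k252 k168 13 (.s k253 k254 0 (.d k169 k1 k3 13 14)))), (.s k86 k87 0 (.s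
  k124 k67 6 (.s k64 k104 5 (.s k192 k128 7 (.s k213 k234 6 (.s k149 k21 7 (.d k106 k127 k63 6
  14)))))))] (.c k86 (.f k252 k168 13 (.q k169 [(.d k253 k254 k1 0 13), (.s k233 k41 7 (.s k195 k214
  6 (.s k150 k60 14 (.d k215 k235 k20 5 8))))] (.c k2 (.l (.s k254 k253 0 (.s k233 k41 7 (.s k195
  k214 6 (.s k150 k60 14 (.d k215 k235 k20 5 8)))))) (.c k254 (.q k2 [(.d k1 k3 k253 0 13), (.s k233
  k41 7 (.s k195 k214 6 (.s k215 k235 5 (.d k150 k20 k60 8 14))))] .n) .n)))) (.c k87 (.l (.s k252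
  k168 13 (.s k253 k254 0 (.s k169 k1 13 (.s k233 k41 7 (.s k195 k214 6 (.s k150 k60 14 (.d k215
  k235 k20 5 8)))))))) .n))) (.c k125 (.q k84 [(.s k86 k87 0 (.s k252 k168 13 (.s k253 k254 0 (.d
  k169 k1 k3 13 14)))), (.s k86 k87 0 (.s k124 k67 6 (.s k64 k104 5 (.s k192 k128 7 (.s k213 k234 6
  (.s k149 k21 7 (.d k106 k127 k63 6 14)))))))] (.c k86 (.f k252 k168 13 (.q k169 [(.d k253 k254 k1
  0 13), (.s k233 k41 7 (.s k195 k214 6 (.s k150 k60 14 (.d k215 k235 k20 5 8))))] (.c k2 (.l (.s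
  k254 k253 0 (.s k233 k41 7 (.s k195 k214 6 (.s k150 k60 14 (.d k215 k235 k20 5 8)))))) (.c k254
  (.q k2 [(.d k1 k3 k253 0 13), (.s k233 k41 7 (.s k195 k214 6 (.s k215 k235 5 (.d k150 k20 k60 8
  14))))] .n) .n)))) (.c k87 (.l (.s k252 k168 13 (.s k253 k254 0 (.s k169 k1 13 (.s k233 k41 7 (.s
  k195 k214 6 (.s k150 k60 14 (.d k215 k235 k20 5 8)))))))) .n))) (.c k130 (.l (.s k125 k65 5 (.s
  k60 k190 8 (.s k150 k195 14 (.d k20 k40 k215 5 8))))) (.c k150 (.f k65 k125 5 (.q k1 [(.s k3 k2 0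
  (.s k169 k253 13 (.s k86 k252 14 (.d k87 k84 k171 0 13)))), (.s k169 k253 13 (.s k41 k233 7 (.s
  k61 k21 5 (.d k193 k129 k149 7 13)))), (.s k3 k2 0 (.s k129 k193 7 (.s k66 k192 8 (.s k67 k64 0
  (.d k195 k130 k131 8 7)))))] (.c k130 (.q k190 [(.s k169 k253 13 (.s k41 k233 7 (.s k61 k21 5 (.d
  k193 k129 k149 7 13)))), (.s k3 k2 0 (.s k87 k171 13 (.s k86 k84 0 (.s k67 k124 6 (.s k127 k107 5
  (.d k64 k66 k106 0 6))))))] (.c k169 (.l (.s k3 k2 0 (.s k129 k193 7 (.s k66 k192 8 (.s k67 k64 0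
  (.s k86 k124 6 (.d k87 k84 k171 0 13))))))) .n)) (.c k190 (.l (.s k130 k195 8 (.s k3 k2 0 (.s k87
  k171 13 (.s k86 k84 0 (.d k169 k253 k252 13 14)))))) .n)))) (.c k190 (.l (.s k65 k125 5 (.s k195
  k130 8 (.s k150 k60 14 (.d k215 k235 k20 5 8))))) (.c k195 (.q k1 [(.s k3 k2 0 (.s k169 k253 13
  (.s k86 k252 14 (.d k87 k84 k171 0 13)))), (.s k3 k2 0 (.s k125 k65 5 (.s k60 k190 8 (.s k40 k20 5
  (.s k41 k22 6 (.s k21 k61 5 (.d k42 k43 k63 0 6))))))), (.s k65 k125 5 (.s k169 k253 13 (.s k41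
  k233 7 (.s k61 k21 5 (.d k193 k129 k149 7 13)))))] .n) (.c k215 (.q k1 [(.s k3 k2 0 (.s k169 k253
  13 (.s k86 k252 14 (.d k87 k84 k171 0 13)))), (.s k65 k125 5 (.s k169 k253 13 (.s k41 k233 7 (.s
  k61 k21 5 (.d k193 k129 k149 7 13))))), (.s k3 k2 0 (.s k65 k125 5 (.s k129 k193 7 (.s k66 k192 8
  (.s k67 k64 0 (.d k195 k131 k130 7 8))))))] .n) (.c k235 (.l (.s k125 k65 5 (.s k60 k190 8 (.s k20
  k40 5 (.d k150 k215 k195 8 14))))) .n))))))))))))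

def t5_15 : T TT 256 :=
  (.f k255 k170 14 (.q k105 [(.s k65 k125 5 (.s k195 k130 8 (.s k215 k235 5 (.d k150 k20 k60 8
  14))))] (.c k20 (.q k1 [(.s k3 k2 0 (.s k87 k171 13 (.s k169 k253 13 (.d k86 k84 k252 0 14)))),
  (.s k65 k125 5 (.s k169 k253 13 (.s k41 k233 7 (.s k61 k21 5 (.d k193 k129 k149 7 13))))), (.s k3
  k2 0 (.s k65 k125 5 (.s k129 k193 7 (.s k66 k192 8 (.s k67 k64 0 (.d k195 k131 k130 7 8))))))] .n)
  (.c k60 (.f k65 k125 5 (.q k69 [(.s k207 k138 10 (.s k223 k239 3 (.s k154 k16 10 (.d k101 k117 k48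
  3 14)))), (.s k73 k77 1 (.s k89 k121 3 (.s k93 k81 1 (.s k12 k174 12 (.d k195 k130 k134 8 10)))))]
  (.c k30 (.q k45 [(.s k207 k138 10 (.s k223 k239 3 (.s k154 k16 10 (.d k101 k117 k48 3 14)))), (.s
  k73 k77 1 (.s k89 k121 3 (.s k93 k81 1 (.s k12 k174 12 (.d k195 k130 k134 8 10)))))] (.c k117 (.l
  (.s k73 k77 1 (.s k138 k207 10 (.s k8 k203 8 (.s k12 k4 1 (.d k195 k130 k134 8 10)))))) .n)) (.c
  k45 (.q k30 [(.s k207 k138 10 (.s k223 k239 3 (.s k154 k16 10 (.d k101 k117 k48 3 14)))), (.s k73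
  k77 1 (.s k89 k121 3 (.s k93 k81 1 (.s k12 k174 12 (.d k195 k130 k134 8 10)))))] (.c k117 (.l (.s
  k73 k77 1 (.s k138 k207 10 (.s k8 k203 8 (.s k12 k4 1 (.d k195 k130 k134 8 10)))))) .n)) (.c k117
  (.l (.s k73 k77 1 (.s k138 k207 10 (.s k8 k203 8 (.s k12 k4 1 (.d k195 k130 k134 8 10))))))
  .n))))) (.c k65 (.q k1 [(.s k3 k2 0 (.s k87 k171 13 (.s k86 k84 0 (.d k169 k253 k252 13 14)))),
  (.s k169 k253 13 (.s k41 k233 7 (.s k21 k61 5 (.s k63 k42 6 (.s k127 k191 7 (.s k106 k64 6 (.d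
  k149 k213 k192 7 14)))))))] (.c k169 (.f k3 k2 0 (.q k86 [(.d k87 k171 k84 13 0), (.s k67 k124 6
  (.s k195 k131 7 (.s k150 k60 14 (.d k215 k235 k20 5 8))))] (.c k168 (.l (.s k171 k87 13 (.s k67
  k124 6 (.s k195 k131 7 (.s k150 k60 14 (.d k215 k235 k20 5 8)))))) (.c k171 (.q k168 [(.d k84 k87
  k252 0 13), (.s k67 k124 6 (.s k195 k131 7 (.s k215 k235 5 (.d k150 k20 k60 8 14))))] .n) .n))))
  (.c k253 (.l (.s k3 k2 0 (.s k87 k171 13 (.s k86 k84 0 (.s k67 k124 6 (.s k195 k131 7 (.s k150 k60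
  14 (.d k215 k235 k20 5 8)))))))) .n))) (.c k125 (.q k253 [(.s k252 k254 0 (.s k84 k168 13 (.s k86
  k87 0 (.d k169 k1 k3 13 14)))), (.s k169 k1 13 (.s k233 k41 7 (.s k213 k193 5 (.s k192 k234 6 (.s
  k64 k128 7 (.s k106 k127 6 (.d k149 k21 k63 7 14)))))))] (.c k1 (.l (.s k252 k254 0 (.s k84 k168
  13 (.s k86 k87 0 (.s k124 k67 6 (.s k60 k188 7 (.s k20 k40 5 (.d k150 k215 k195 8 14)))))))) (.c
  k169 (.f k252 k254 0 (.q k86 [(.d k84 k168 k87 13 0), (.s k124 k67 6 (.s k60 k188 7 (.s k20 k40 5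
  (.d k150 k215 k195 8 14))))] (.c k168 (.q k171 [(.d k87 k84 k3 0 13), (.s k124 k67 6 (.s k60 k188
  7 (.s k20 k40 5 (.d k150 k215 k195 8 14))))] .n) (.c k171 (.l (.s k168 k84 13 (.s k124 k67 6 (.s
  k60 k188 7 (.s k20 k40 5 (.d k150 k215 k195 8 14)))))) .n)))) .n))) (.c k130 (.l (.s k125 k65 5
  (.s k60 k190 8 (.s k150 k195 14 (.d k20 k40 k215 5 8))))) (.c k150 (.f k65 k125 5 (.q k193 [(.s k1
  k129 7 (.s k149 k61 13 (.s k213 k21 7 (.d k253 k233 k169 5 13)))), (.s k1 k129 7 (.s k3 k2 0 (.s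
  k87 k171 13 (.s k86 k84 0 (.s k67 k124 6 (.d k195 k130 k131 8 7)))))), (.s k149 k61 13 (.s k21
  k213 7 (.s k63 k42 6 (.s k106 k192 14 (.d k127 k64 k191 6 7)))))] (.c k130 (.q k190 [(.s k149 k61
  13 (.s k213 k21 7 (.s k253 k233 5 (.d k1 k129 k169 7 13)))), (.s k1 k129 7 (.s k3 k2 0 (.s k87
  k171 13 (.s k86 k84 0 (.d k169 k253 k252 13 14))))), (.s k149 k61 13 (.s k21 k213 7 (.s k63 k42 6
  (.s k106 k192 14 (.d k127 k64 k191 6 7)))))] (.c k253 (.l (.s k129 k1 7 (.s k149 k61 13 (.s k189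
  k169 5 (.s k21 k213 7 (.s k63 k42 6 (.d k191 k188 k127 0 7))))))) .n)) (.c k190 (.l (.s k130 k195
  8 (.s k1 k129 7 (.s k61 k149 13 (.s k41 k21 5 (.d k169 k233 k253 7 13)))))) .n)))) (.c k190 (.l
  (.s k65 k125 5 (.s k195 k130 8 (.s k150 k60 14 (.d k215 k235 k20 5 8))))) (.c k195 (.f k65 k125 5
  (.q k1 [(.s k3 k2 0 (.s k87 k171 13 (.s k86 k84 0 (.d k169 k253 k252 13 14)))), (.s k193 k129 7
  (.s k149 k61 13 (.s k21 k213 7 (.s k63 k42 6 (.s k106 k192 14 (.d k127 k64 k191 6 7))))))] (.c k3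
  (.l (.s k169 k253 13 (.s k41 k233 7 (.s k61 k21 5 (.d k193 k129 k149 7 13))))) (.c k75 (.q k135
  [(.s k3 k2 0 (.s k87 k171 13 (.s k86 k84 0 (.d k169 k253 k252 13 14)))), (.s k193 k129 7 (.s k149
  k61 13 (.s k21 k213 7 (.s k63 k42 6 (.s k106 k192 14 (.d k127 k64 k191 6 7))))))] (.c k3 (.l (.s
  k169 k253 13 (.s k41 k233 7 (.s k61 k21 5 (.d k193 k129 k149 7 13))))) (.c k253 (.l (.s k3 k2 0
  (.s k87 k171 13 (.s k86 k84 0 (.s k67 k124 6 (.s k64 k66 0 (.d k127 k107 k106 5 6))))))) .n))) (.c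
  k135 (.q k75 [(.s k3 k2 0 (.s k87 k171 13 (.s k86 k84 0 (.d k169 k253 k252 13 14)))), (.s k193
  k129 7 (.s k149 k61 13 (.s k21 k213 7 (.s k63 k42 6 (.s k106 k192 14 (.d k127 k64 k191 6 7))))))]
  (.c k3 (.l (.s k169 k253 13 (.s k41 k233 7 (.s k61 k21 5 (.d k193 k129 k149 7 13))))) (.c k253 (.l
  (.s k3 k2 0 (.s k87 k171 13 (.s k86 k84 0 (.s k67 k124 6 (.s k64 k66 0 (.d k127 k107 k106 5
  6))))))) .n))) (.c k253 (.l (.s k3 k2 0 (.s k87 k171 13 (.s k86 k84 0 (.s k67 k124 6 (.s k64 k66 0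
  (.d k127 k107 k106 5 6))))))) .n)))))) (.c k215 (.q k1 [(.s k3 k2 0 (.s k87 k171 13 (.s k86 k84 0
  (.d k169 k253 k252 13 14)))), (.s k65 k125 5 (.s k169 k253 13 (.s k41 k233 7 (.s k61 k21 5 (.d
  k193 k129 k149 7 13))))), (.s k3 k2 0 (.s k65 k125 5 (.s k129 k193 7 (.s k66 k192 8 (.s k67 k64 0
  (.d k195 k131 k130 7 8))))))] .n) (.c k235 (.l (.s k125 k65 5 (.s k60 k190 8 (.s k20 k40 5 (.d
  k150 k215 k195 8 14))))) .n))))))))))))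

def t5_17 : T TT 256 :=
  (.f k255 k170 14 (.q k105 [(.s k65 k125 5 (.s k195 k130 8 (.s k150 k60 14 (.d k215 k235 k20 5
  8))))] (.c k20 (.q k1 [(.s k169 k253 13 (.s k3 k2 0 (.s k86 k252 14 (.d k87 k84 k171 0 13)))), (.s
  k65 k125 5 (.s k169 k253 13 (.s k41 k233 7 (.s k61 k21 5 (.d k193 k129 k149 7 13))))), (.s k3 k2 0
  (.s k65 k125 5 (.s k129 k193 7 (.s k66 k192 8 (.s k67 k64 0 (.d k195 k131 k130 7 8))))))] .n) (.c
  k60 (.q k1 [(.s k3 k2 0 (.s k87 k171 13 (.s k86 k84 0 (.d k169 k253 k252 13 14)))), (.s k65 k125 5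
  (.s k169 k253 13 (.s k41 k233 7 (.s k61 k21 5 (.d k193 k129 k149 7 13))))), (.s k3 k2 0 (.s k65
  k125 5 (.s k129 k193 7 (.s k66 k192 8 (.s k67 k64 0 (.d k195 k131 k130 7 8))))))] .n) (.c k65 (.q
  k87 [(.s k86 k84 0 (.s k3 k171 13 (.s k169 k252 14 (.d k1 k2 k253 0 13)))), (.s k86 k84 0 (.s k67
  k124 6 (.s k127 k107 5 (.s k63 k191 7 (.s k21 k42 6 (.s k149 k213 7 (.d k106 k64 k192 6 14)))))))]
  (.c k84 (.l (.s k3 k171 13 (.s k1 k2 0 (.s k169 k253 13 (.s k41 k233 7 (.s k60 k22 6 (.s k20 k40 5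
  (.d k150 k215 k195 8 14)))))))) (.c k86 (.f k3 k171 13 (.q k169 [(.d k1 k2 k253 0 13), (.s k41
  k233 7 (.s k60 k22 6 (.s k20 k40 5 (.d k150 k215 k195 8 14))))] (.c k2 (.q k254 [(.d k253 k252 k1
  0 13), (.s k41 k233 7 (.s k60 k22 6 (.s k20 k40 5 (.d k150 k215 k195 8 14))))] .n) (.c k254 (.l
  (.s k2 k1 0 (.s k41 k233 7 (.s k60 k22 6 (.s k20 k40 5 (.d k150 k215 k195 8 14)))))) .n)))) .n)))
  (.c k125 (.q k253 [(.s k252 k254 0 (.s k84 k168 13 (.s k86 k87 0 (.d k169 k1 k3 13 14)))), (.s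
  k169 k1 13 (.s k233 k41 7 (.s k213 k193 5 (.s k192 k234 6 (.s k64 k128 7 (.s k106 k127 6 (.d k149
  k21 k63 7 14)))))))] (.c k1 (.l (.s k252 k254 0 (.s k84 k168 13 (.s k86 k87 0 (.s k124 k67 6 (.s
  k60 k188 7 (.s k20 k40 5 (.d k150 k215 k195 8 14)))))))) (.c k169 (.f k252 k254 0 (.q k86 [(.d k84
  k168 k87 13 0), (.s k124 k67 6 (.s k60 k188 7 (.s k20 k40 5 (.d k150 k215 k195 8 14))))] (.c k168
  (.q k171 [(.d k87 k84 k3 0 13), (.s k124 k67 6 (.s k60 k188 7 (.s k20 k40 5 (.d k150 k215 k195 8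
  14))))] .n) (.c k171 (.l (.s k168 k84 13 (.s k124 k67 6 (.s k60 k188 7 (.s k20 k40 5 (.d k150 k215
  k195 8 14)))))) .n)))) .n))) (.c k130 (.l (.s k125 k65 5 (.s k60 k190 8 (.s k150 k195 14 (.d k20
  k40 k215 5 8))))) (.c k150 (.f k65 k125 5 (.q k1 [(.s k3 k2 0 (.s k87 k171 13 (.s k86 k84 0 (.d
  k169 k253 k252 13 14)))), (.s k169 k253 13 (.s k41 k233 7 (.s k61 k21 5 (.d k193 k129 k149 7
  13)))), (.s k3 k2 0 (.s k129 k193 7 (.s k66 k192 8 (.s k67 k64 0 (.d k195 k130 k131 8 7)))))] (.c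
  k130 (.q k190 [(.s k3 k2 0 (.s k87 k171 13 (.s k86 k84 0 (.d k169 k253 k252 13 14)))), (.s k169
  k253 13 (.s k41 k233 7 (.s k61 k21 5 (.d k193 k129 k149 7 13)))), (.s k3 k2 0 (.s k129 k193 7 (.s
  k66 k192 8 (.s k67 k64 0 (.s k86 k124 6 (.d k87 k84 k171 0 13))))))] .n) (.c k190 (.l (.s k130
  k195 8 (.s k3 k2 0 (.s k87 k171 13 (.s k86 k84 0 (.d k169 k253 k252 13 14)))))) .n)))) (.c k190
  (.l (.s k65 k125 5 (.s k195 k130 8 (.s k150 k60 14 (.d k215 k235 k20 5 8))))) (.c k195 (.q k1 [(.s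
  k3 k2 0 (.s k87 k171 13 (.s k86 k84 0 (.d k169 k253 k252 13 14)))), (.s k65 k125 5 (.s k169 k253
  13 (.s k41 k233 7 (.s k61 k21 5 (.d k193 k129 k149 7 13))))), (.s k3 k2 0 (.s k125 k65 5 (.s k60
  k190 8 (.s k40 k20 5 (.s k41 k22 6 (.s k21 k61 5 (.d k42 k43 k63 0 6)))))))] .n) (.c k215 (.q k1
  [(.s k169 k253 13 (.s k3 k2 0 (.s k86 k252 14 (.d k87 k84 k171 0 13)))), (.s k65 k125 5 (.s k169
  k253 13 (.s k41 k233 7 (.s k61 k21 5 (.d k193 k129 k149 7 13))))), (.s k3 k2 0 (.s k65 k125 5 (.s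
  k129 k193 7 (.s k66 k192 8 (.s k67 k64 0 (.d k195 k131 k130 7 8))))))] .n) (.c k235 (.l (.s k125
  k65 5 (.s k60 k190 8 (.s k20 k40 5 (.d k150 k215 k195 8 14))))) .n))))))))))))

def t5_18 : T TT 256 :=
  (.f k255 k170 14 (.q k105 [(.s k65 k125 5 (.s k195 k130 8 (.s k150 k60 14 (.d k215 k235 k20 5
  8))))] (.c k20 (.q k1 [(.s k169 k253 13 (.s k3 k2 0 (.s k86 k252 14 (.d k87 k84 k171 0 13)))), (.s
  k65 k125 5 (.s k169 k253 13 (.s k41 k233 7 (.s k61 k21 5 (.d k193 k129 k149 7 13))))), (.s k3 k2 0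
  (.s k65 k125 5 (.s k129 k193 7 (.s k66 k192 8 (.s k67 k64 0 (.d k195 k131 k130 7 8))))))] .n) (.c
  k60 (.q k1 [(.s k3 k2 0 (.s k87 k171 13 (.s k86 k84 0 (.d k169 k253 k252 13 14)))), (.s k65 k125 5
  (.s k169 k253 13 (.s k41 k233 7 (.s k61 k21 5 (.d k193 k129 k149 7 13))))), (.s k3 k2 0 (.s k65
  k125 5 (.s k129 k193 7 (.s k66 k192 8 (.s k67 k64 0 (.d k195 k131 k130 7 8))))))] .n) (.c k65 (.q
  k21 [(.s k149 k213 7 (.s k63 k42 6 (.s k106 k192 14 (.d k127 k64 k191 6 7)))), (.s k149 k213 7 (.s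
  k61 k193 13 (.s k1 k41 5 (.s k3 k2 0 (.s k87 k171 13 (.s k86 k84 0 (.d k169 k253 k252 13
  14)))))))] (.c k149 (.f k63 k42 6 (.q k106 [(.d k127 k191 k64 7 6), (.s k107 k104 0 (.s k195 k151
  13 (.s k150 k60 14 (.d k215 k235 k20 5 8))))] (.c k128 (.l (.s k191 k127 7 (.s k107 k104 0 (.s
  k195 k151 13 (.s k150 k60 14 (.d k215 k235 k20 5 8)))))) (.c k191 (.q k128 [(.d k64 k127 k192 6
  7), (.s k107 k104 0 (.s k195 k151 13 (.s k215 k235 5 (.d k150 k20 k60 8 14))))] .n) .n)))) (.c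
  k213 (.l (.s k63 k42 6 (.s k127 k191 7 (.s k106 k64 6 (.s k107 k104 0 (.s k195 k151 13 (.s k150
  k60 14 (.d k215 k235 k20 5 8)))))))) .n))) (.c k125 (.q k253 [(.s k252 k254 0 (.s k84 k168 13 (.s
  k86 k87 0 (.d k169 k1 k3 13 14)))), (.s k169 k1 13 (.s k233 k41 7 (.s k213 k193 5 (.s k192 k234 6
  (.s k64 k128 7 (.s k106 k127 6 (.d k149 k21 k63 7 14)))))))] (.c k1 (.l (.s k252 k254 0 (.s k84
  k168 13 (.s k86 k87 0 (.s k124 k67 6 (.s k60 k188 7 (.s k20 k40 5 (.d k150 k215 k195 8 14))))))))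
  (.c k169 (.f k252 k254 0 (.q k86 [(.d k84 k168 k87 13 0), (.s k124 k67 6 (.s k60 k188 7 (.s k20
  k40 5 (.d k150 k215 k195 8 14))))] (.c k168 (.q k171 [(.d k87 k84 k3 0 13), (.s k124 k67 6 (.s k60
  k188 7 (.s k20 k40 5 (.d k150 k215 k195 8 14))))] .n) (.c k171 (.l (.s k168 k84 13 (.s k124 k67 6
  (.s k60 k188 7 (.s k20 k40 5 (.d k150 k215 k195 8 14)))))) .n)))) .n))) (.c k130 (.l (.s k125 k65
  5 (.s k60 k190 8 (.s k150 k195 14 (.d k20 k40 k215 5 8))))) (.c k150 (.f k65 k125 5 (.q k1 [(.s k3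
  k2 0 (.s k87 k171 13 (.s k86 k84 0 (.d k169 k253 k252 13 14)))), (.s k169 k253 13 (.s k41 k233 7
  (.s k61 k21 5 (.d k193 k129 k149 7 13)))), (.s k3 k2 0 (.s k129 k193 7 (.s k66 k192 8 (.s k67 k64
  0 (.d k195 k130 k131 8 7)))))] (.c k130 (.q k190 [(.s k169 k253 13 (.s k41 k233 7 (.s k61 k21 5
  (.d k193 k129 k149 7 13)))), (.s k3 k2 0 (.s k87 k171 13 (.s k86 k84 0 (.s k67 k124 6 (.s k127
  k107 5 (.d k64 k66 k106 0 6))))))] (.c k169 (.l (.s k3 k2 0 (.s k129 k193 7 (.s k66 k192 8 (.s k67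
  k64 0 (.s k86 k124 6 (.d k87 k84 k171 0 13))))))) .n)) (.c k190 (.l (.s k130 k195 8 (.s k3 k2 0
  (.s k87 k171 13 (.s k86 k84 0 (.d k169 k253 k252 13 14)))))) .n)))) (.c k190 (.l (.s k65 k125 5
  (.s k195 k130 8 (.s k150 k60 14 (.d k215 k235 k20 5 8))))) (.c k195 (.q k1 [(.s k3 k2 0 (.s k87
  k171 13 (.s k86 k84 0 (.d k169 k253 k252 13 14)))), (.s k65 k125 5 (.s k169 k253 13 (.s k41 k233 7
  (.s k61 k21 5 (.d k193 k129 k149 7 13))))), (.s k3 k2 0 (.s k125 k65 5 (.s k60 k190 8 (.s k40 k20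
  5 (.s k41 k22 6 (.s k21 k61 5 (.d k42 k43 k63 0 6)))))))] .n) (.c k215 (.q k1 [(.s k169 k253 13
  (.s k3 k2 0 (.s k86 k252 14 (.d k87 k84 k171 0 13)))), (.s k65 k125 5 (.s k169 k253 13 (.s k41
  k233 7 (.s k61 k21 5 (.d k193 k129 k149 7 13))))), (.s k3 k2 0 (.s k65 k125 5 (.s k129 k193 7 (.s
  k66 k192 8 (.s k67 k64 0 (.d k195 k131 k130 7 8))))))] .n) (.c k235 (.l (.s k125 k65 5 (.s k60
  k190 8 (.s k20 k40 5 (.d k150 k215 k195 8 14))))) .n))))))))))))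

def t5_19 : T TT 256 :=
  (.f k255 k170 14 (.q k105 [(.s k65 k125 5 (.s k195 k130 8 (.s k150 k60 14 (.d k215 k235 k20 5
  8))))] (.c k20 (.q k1 [(.s k169 k253 13 (.s k3 k2 0 (.s k86 k252 14 (.d k87 k84 k171 0 13)))), (.s
  k65 k125 5 (.s k169 k253 13 (.s k41 k233 7 (.s k61 k21 5 (.d k193 k129 k149 7 13))))), (.s k3 k2 0
  (.s k65 k125 5 (.s k129 k193 7 (.s k66 k192 8 (.s k67 k64 0 (.d k195 k131 k130 7 8))))))] .n) (.c
  k60 (.q k1 [(.s k3 k2 0 (.s k87 k171 13 (.s k86 k84 0 (.d k169 k253 k252 13 14)))), (.s k65 k125 5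
  (.s k169 k253 13 (.s k41 k233 7 (.s k61 k21 5 (.d k193 k129 k149 7 13))))), (.s k3 k2 0 (.s k65
  k125 5 (.s k129 k193 7 (.s k66 k192 8 (.s k67 k64 0 (.d k195 k131 k130 7 8))))))] .n) (.c k65 (.q
  k1 [(.s k169 k253 13 (.s k3 k2 0 (.s k86 k252 14 (.d k87 k84 k171 0 13)))), (.s k169 k253 13 (.s
  k41 k233 7 (.s k21 k61 5 (.s k63 k42 6 (.s k127 k191 7 (.s k106 k64 6 (.d k149 k213 k192 7
  14)))))))] (.c k169 (.f k3 k2 0 (.q k86 [(.d k87 k171 k84 13 0), (.s k67 k124 6 (.s k195 k131 7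
  (.s k150 k60 14 (.d k215 k235 k20 5 8))))] (.c k168 (.l (.s k171 k87 13 (.s k67 k124 6 (.s k195
  k131 7 (.s k150 k60 14 (.d k215 k235 k20 5 8)))))) (.c k171 (.q k168 [(.d k84 k87 k252 0 13), (.s
  k67 k124 6 (.s k195 k131 7 (.s k215 k235 5 (.d k150 k20 k60 8 14))))] .n) .n)))) (.c k253 (.l (.s
  k3 k2 0 (.s k87 k171 13 (.s k86 k84 0 (.s k67 k124 6 (.s k195 k131 7 (.s k150 k60 14 (.d k215 k235
  k20 5 8)))))))) .n))) (.c k125 (.q k253 [(.s k169 k1 13 (.s k252 k254 0 (.s k84 k168 13 (.d k86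
  k87 k3 0 14)))), (.s k169 k1 13 (.s k233 k41 7 (.s k213 k193 5 (.s k192 k234 6 (.s k64 k128 7 (.s
  k106 k127 6 (.d k149 k21 k63 7 14))))))), (.s k252 k254 0 (.s k84 k168 13 (.s k86 k87 0 (.s k124
  k67 6 (.s k60 k188 7 (.s k20 k40 5 (.d k150 k215 k195 8 14)))))))] (.c k169 (.f k252 k254 0 (.q
  k86 [(.d k84 k168 k87 13 0), (.s k124 k67 6 (.s k60 k188 7 (.s k20 k40 5 (.d k150 k215 k195 8
  14))))] (.c k168 (.q k171 [(.d k87 k84 k3 0 13), (.s k124 k67 6 (.s k60 k188 7 (.s k20 k40 5 (.d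
  k150 k215 k195 8 14))))] .n) (.c k171 (.l (.s k168 k84 13 (.s k124 k67 6 (.s k60 k188 7 (.s k20
  k40 5 (.d k150 k215 k195 8 14)))))) .n)))) .n)) (.c k130 (.l (.s k125 k65 5 (.s k60 k190 8 (.s
  k150 k195 14 (.d k20 k40 k215 5 8))))) (.c k150 (.f k65 k125 5 (.q k1 [(.s k3 k2 0 (.s k87 k171 13
  (.s k86 k84 0 (.d k169 k253 k252 13 14)))), (.s k169 k253 13 (.s k41 k233 7 (.s k61 k21 5 (.d k193
  k129 k149 7 13)))), (.s k3 k2 0 (.s k129 k193 7 (.s k66 k192 8 (.s k67 k64 0 (.d k195 k130 k131 8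
  7)))))] (.c k130 (.q k190 [(.s k3 k2 0 (.s k87 k171 13 (.s k86 k84 0 (.d k169 k253 k252 13 14)))),
  (.s k169 k253 13 (.s k41 k233 7 (.s k61 k21 5 (.d k193 k129 k149 7 13)))), (.s k3 k2 0 (.s k129
  k193 7 (.s k66 k192 8 (.s k67 k64 0 (.s k86 k124 6 (.d k87 k84 k171 0 13))))))] .n) (.c k190 (.l
  (.s k130 k195 8 (.s k3 k2 0 (.s k87 k171 13 (.s k86 k84 0 (.d k169 k253 k252 13 14)))))) .n))))
  (.c k190 (.l (.s k65 k125 5 (.s k195 k130 8 (.s k150 k60 14 (.d k215 k235 k20 5 8))))) (.c k195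
  (.q k1 [(.s k3 k2 0 (.s k87 k171 13 (.s k86 k84 0 (.d k169 k253 k252 13 14)))), (.s k65 k125 5 (.s
  k169 k253 13 (.s k41 k233 7 (.s k61 k21 5 (.d k193 k129 k149 7 13))))), (.s k3 k2 0 (.s k125 k65 5
  (.s k60 k190 8 (.s k40 k20 5 (.s k41 k22 6 (.s k21 k61 5 (.d k42 k43 k63 0 6)))))))] .n) (.c k215
  (.q k1 [(.s k169 k253 13 (.s k3 k2 0 (.s k86 k252 14 (.d k87 k84 k171 0 13)))), (.s k65 k125 5 (.s
  k169 k253 13 (.s k41 k233 7 (.s k61 k21 5 (.d k193 k129 k149 7 13))))), (.s k3 k2 0 (.s k65 k125 5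
  (.s k129 k193 7 (.s k66 k192 8 (.s k67 k64 0 (.d k195 k131 k130 7 8))))))] .n) (.c k235 (.l (.s
  k125 k65 5 (.s k60 k190 8 (.s k20 k40 5 (.d k150 k215 k195 8 14))))) .n))))))))))))

def t5_22 : T TT 256 :=
  (.f k255 k170 14 (.q k105 [(.s k65 k125 5 (.s k195 k130 8 (.s k215 k235 5 (.d k150 k20 k60 8
  14))))] (.c k20 (.q k21 [(.s k149 k213 7 (.s k63 k42 6 (.s k106 k192 14 (.d k127 k64 k191 6 7)))),
  (.s k125 k65 5 (.s k149 k213 7 (.s k61 k193 13 (.s k1 k41 5 (.d k253 k189 k169 7 13))))), (.s k63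
  k42 6 (.s k65 k125 5 (.s k195 k130 8 (.s k107 k151 13 (.s k106 k104 0 (.d k127 k64 k191 6 7))))))]
  .n) (.c k60 (.q k3 [(.s k87 k171 13 (.s k86 k84 0 (.s k169 k252 14 (.d k1 k2 k253 0 13)))), (.s k2
  k1 0 (.s k65 k125 5 (.s k130 k195 8 (.s k66 k194 7 (.s k64 k67 0 (.d k192 k128 k129 7 8)))))), (.s
  k65 k125 5 (.s k87 k171 13 (.s k86 k84 0 (.s k67 k124 6 (.d k195 k131 k130 7 8)))))] .n) (.c k65
  (.q k64 [(.s k106 k127 6 (.s k192 k128 7 (.s k149 k63 14 (.d k213 k234 k21 6 7)))), (.s k106 k127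
  6 (.s k104 k107 0 (.s k84 k124 5 (.s k252 k168 13 (.s k253 k254 0 (.s k169 k1 13 (.d k86 k87 k3 0
  14)))))))] (.c k106 (.f k192 k128 7 (.q k149 [(.d k213 k234 k21 6 7), (.s k193 k61 13 (.s k195
  k194 0 (.s k150 k60 14 (.d k215 k235 k20 5 8))))] (.c k42 (.l (.s k234 k213 6 (.s k193 k61 13 (.s
  k195 k194 0 (.s k150 k60 14 (.d k215 k235 k20 5 8)))))) (.c k234 (.q k42 [(.d k21 k63 k213 6 7),
  (.s k193 k61 13 (.s k195 k194 0 (.s k215 k235 5 (.d k150 k20 k60 8 14))))] .n) .n)))) (.c k127 (.l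
  (.s k192 k128 7 (.s k213 k234 6 (.s k149 k21 7 (.s k193 k61 13 (.s k195 k194 0 (.s k150 k60 14 (.d
  k215 k20 k235 8 5)))))))) .n))) (.c k125 (.q k253 [(.s k252 k254 0 (.s k84 k168 13 (.s k86 k87 0
  (.d k169 k1 k3 13 14)))), (.s k169 k1 13 (.s k233 k41 7 (.s k213 k193 5 (.s k192 k234 6 (.s k64
  k128 7 (.s k106 k127 6 (.d k149 k21 k63 7 14))))))), (.s k252 k254 0 (.s k84 k168 13 (.s k86 k87 0
  (.s k124 k67 6 (.s k60 k188 7 (.s k20 k40 5 (.d k150 k215 k195 8 14)))))))] (.c k169 (.f k252 k254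
  0 (.q k86 [(.d k84 k168 k87 13 0), (.s k124 k67 6 (.s k60 k188 7 (.s k20 k40 5 (.d k150 k215 k195
  8 14))))] (.c k168 (.q k171 [(.d k87 k84 k3 0 13), (.s k124 k67 6 (.s k60 k188 7 (.s k20 k40 5 (.d
  k150 k215 k195 8 14))))] .n) (.c k171 (.l (.s k168 k84 13 (.s k124 k67 6 (.s k60 k188 7 (.s k20
  k40 5 (.d k150 k215 k195 8 14)))))) .n)))) .n)) (.c k130 (.l (.s k125 k65 5 (.s k60 k190 8 (.s
  k150 k195 14 (.d k20 k40 k215 5 8))))) (.c k150 (.f k65 k125 5 (.q k86 [(.s k67 k124 6 (.s k64 k66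
  0 (.s k87 k84 0 (.d k127 k107 k106 5 6)))), (.s k84 k87 0 (.s k252 k168 13 (.s k169 k3 14 (.d k253
  k254 k1 0 13)))), (.s k67 k124 6 (.s k64 k66 0 (.s k192 k128 7 (.s k213 k234 6 (.s k149 k21 7 (.d
  k106 k127 k63 6 14))))))] (.c k130 (.q k190 [(.s k67 k124 6 (.s k87 k84 0 (.s k127 k107 5 (.d k64
  k66 k106 0 6)))), (.s k84 k87 0 (.s k252 k168 13 (.s k169 k3 14 (.d k253 k254 k1 0 13)))), (.s k67
  k124 6 (.s k64 k66 0 (.s k192 k128 7 (.s k213 k234 6 (.s k149 k21 7 (.d k106 k127 k63 6 14))))))]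
  .n) (.c k190 (.l (.s k130 k195 8 (.s k67 k124 6 (.s k64 k66 0 (.s k87 k84 0 (.d k127 k107 k106 5
  6)))))) .n)))) (.c k190 (.l (.s k65 k125 5 (.s k195 k130 8 (.s k150 k60 14 (.d k215 k235 k20 5
  8))))) (.c k195 (.q k1 [(.s k3 k2 0 (.s k87 k171 13 (.s k86 k84 0 (.d k169 k253 k252 13 14)))),
  (.s k65 k125 5 (.s k169 k253 13 (.s k193 k129 7 (.s k61 k149 13 (.d k41 k21 k233 5 7)))))] (.c
  k169 (.l (.s k65 k125 5 (.s k193 k129 7 (.s k149 k61 13 (.s k21 k213 7 (.s k63 k42 6 (.s k106 k192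
  14 (.d k127 k64 k191 6 7)))))))) (.c k253 (.l (.s k3 k2 0 (.s k65 k125 5 (.s k87 k171 13 (.s k86
  k84 0 (.s k67 k124 6 (.s k64 k66 0 (.d k127 k107 k106 5 6)))))))) .n))) (.c k215 (.q k1 [(.s k169
  k253 13 (.s k3 k2 0 (.s k86 k252 14 (.d k87 k84 k171 0 13)))), (.s k65 k125 5 (.s k169 k253 13 (.s
  k41 k233 7 (.s k61 k21 5 (.d k193 k129 k149 7 13))))), (.s k3 k2 0 (.s k65 k125 5 (.s k129 k193 7
  (.s k66 k192 8 (.s k67 k64 0 (.d k195 k131 k130 7 8))))))] .n) (.c k235 (.l (.s k125 k65 5 (.s k60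
  k190 8 (.s k20 k40 5 (.d k150 k215 k195 8 14))))) .n))))))))))))

def t5_23 : T TT 256 :=
  (.f k255 k170 14 (.q k105 [(.s k65 k125 5 (.s k195 k130 8 (.s k150 k60 14 (.d k215 k235 k20 5
  8))))] (.c k20 (.q k21 [(.s k149 k213 7 (.s k63 k42 6 (.s k106 k192 14 (.d k127 k64 k191 6 7)))),
  (.s k125 k65 5 (.s k149 k213 7 (.s k61 k193 13 (.s k1 k41 5 (.d k253 k189 k169 7 13))))), (.s k63
  k42 6 (.s k65 k125 5 (.s k195 k130 8 (.s k107 k151 13 (.s k106 k104 0 (.d k127 k64 k191 6 7))))))]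
  .n) (.c k60 (.q k1 [(.s k3 k2 0 (.s k87 k171 13 (.s k86 k84 0 (.d k169 k253 k252 13 14)))), (.s
  k65 k125 5 (.s k169 k253 13 (.s k41 k233 7 (.s k61 k21 5 (.d k193 k129 k149 7 13))))), (.s k3 k2 0
  (.s k65 k125 5 (.s k129 k193 7 (.s k66 k192 8 (.s k67 k64 0 (.d k195 k131 k130 7 8))))))] .n) (.c
  k65 (.q k1 [(.s k169 k253 13 (.s k3 k2 0 (.s k86 k252 14 (.d k87 k84 k171 0 13)))), (.s k169 k253
  13 (.s k41 k233 7 (.s k21 k61 5 (.s k63 k42 6 (.s k127 k191 7 (.s k106 k64 6 (.d k149 k213 k192 7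
  14)))))))] (.c k169 (.f k3 k2 0 (.q k86 [(.d k87 k171 k84 13 0), (.s k67 k124 6 (.s k195 k131 7
  (.s k150 k60 14 (.d k215 k235 k20 5 8))))] (.c k168 (.l (.s k171 k87 13 (.s k67 k124 6 (.s k195
  k131 7 (.s k150 k60 14 (.d k215 k235 k20 5 8)))))) (.c k171 (.q k168 [(.d k84 k87 k252 0 13), (.s
  k67 k124 6 (.s k195 k131 7 (.s k215 k235 5 (.d k150 k20 k60 8 14))))] .n) .n)))) (.c k253 (.l (.s
  k3 k2 0 (.s k87 k171 13 (.s k86 k84 0 (.s k67 k124 6 (.s k195 k131 7 (.s k150 k60 14 (.d k215 k235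
  k20 5 8)))))))) .n))) (.c k125 (.q k253 [(.s k169 k1 13 (.s k252 k254 0 (.s k84 k168 13 (.d k86
  k87 k3 0 14)))), (.s k169 k1 13 (.s k233 k41 7 (.s k213 k193 5 (.s k192 k234 6 (.s k64 k128 7 (.s
  k106 k127 6 (.d k149 k21 k63 7 14))))))), (.s k252 k254 0 (.s k84 k168 13 (.s k86 k87 0 (.s k124
  k67 6 (.s k60 k188 7 (.s k20 k40 5 (.d k150 k215 k195 8 14)))))))] (.c k169 (.f k252 k254 0 (.q
  k86 [(.d k84 k168 k87 13 0), (.s k124 k67 6 (.s k60 k188 7 (.s k20 k40 5 (.d k150 k215 k195 8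
  14))))] (.c k168 (.q k171 [(.d k87 k84 k3 0 13), (.s k124 k67 6 (.s k60 k188 7 (.s k20 k40 5 (.d
  k150 k215 k195 8 14))))] .n) (.c k171 (.l (.s k168 k84 13 (.s k124 k67 6 (.s k60 k188 7 (.s k20
  k40 5 (.d k150 k215 k195 8 14)))))) .n)))) .n)) (.c k130 (.l (.s k125 k65 5 (.s k60 k190 8 (.s
  k150 k195 14 (.d k20 k40 k215 5 8))))) (.c k150 (.f k65 k125 5 (.q k1 [(.s k3 k2 0 (.s k87 k171 13
  (.s k86 k84 0 (.d k169 k253 k252 13 14)))), (.s k169 k253 13 (.s k41 k233 7 (.s k61 k21 5 (.d k193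
  k129 k149 7 13)))), (.s k3 k2 0 (.s k129 k193 7 (.s k66 k192 8 (.s k67 k64 0 (.d k195 k130 k131 8
  7)))))] (.c k130 (.q k190 [(.s k3 k2 0 (.s k87 k171 13 (.s k86 k84 0 (.d k169 k253 k252 13 14)))),
  (.s k169 k253 13 (.s k41 k233 7 (.s k61 k21 5 (.d k193 k129 k149 7 13)))), (.s k3 k2 0 (.s k129
  k193 7 (.s k66 k192 8 (.s k67 k64 0 (.s k86 k124 6 (.d k87 k84 k171 0 13))))))] .n) (.c k190 (.l
  (.s k130 k195 8 (.s k3 k2 0 (.s k87 k171 13 (.s k86 k84 0 (.d k169 k253 k252 13 14)))))) .n))))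
  (.c k190 (.l (.s k65 k125 5 (.s k195 k130 8 (.s k150 k60 14 (.d k215 k235 k20 5 8))))) (.c k195
  (.q k1 [(.s k3 k2 0 (.s k87 k171 13 (.s k86 k84 0 (.d k169 k253 k252 13 14)))), (.s k65 k125 5 (.s
  k169 k253 13 (.s k41 k233 7 (.s k61 k21 5 (.d k193 k129 k149 7 13))))), (.s k3 k2 0 (.s k125 k65 5
  (.s k60 k190 8 (.s k40 k20 5 (.s k41 k22 6 (.s k21 k61 5 (.d k42 k43 k63 0 6)))))))] .n) (.c k215
  (.q k87 [(.s k86 k84 0 (.s k3 k171 13 (.s k169 k252 14 (.d k1 k2 k253 0 13)))), (.s k65 k125 5 (.s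
  k86 k84 0 (.s k67 k124 6 (.s k64 k66 0 (.d k127 k107 k106 5 6))))), (.s k3 k171 13 (.s k65 k125 5
  (.s k195 k130 8 (.s k67 k131 7 (.s k64 k66 0 (.d k127 k107 k106 5 6))))))] .n) (.c k235 (.l (.s
  k125 k65 5 (.s k60 k190 8 (.s k20 k40 5 (.d k150 k215 k195 8 14))))) .n))))))))))))

def t5_26 : T TT 256 :=
  (.f k255 k170 14 (.q k105 [(.s k65 k125 5 (.s k195 k130 8 (.s k150 k60 14 (.d k215 k235 k20 5
  8))))] (.c k20 (.q k1 [(.s k169 k253 13 (.s k3 k2 0 (.s k86 k252 14 (.d k87 k84 k171 0 13)))), (.s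
  k65 k125 5 (.s k169 k253 13 (.s k41 k233 7 (.s k61 k21 5 (.d k193 k129 k149 7 13))))), (.s k3 k2 0
  (.s k65 k125 5 (.s k129 k193 7 (.s k66 k192 8 (.s k67 k64 0 (.d k195 k131 k130 7 8))))))] .n) (.c
  k60 (.q k1 [(.s k3 k2 0 (.s k87 k171 13 (.s k86 k84 0 (.d k169 k253 k252 13 14)))), (.s k65 k125 5
  (.s k169 k253 13 (.s k41 k233 7 (.s k61 k21 5 (.d k193 k129 k149 7 13))))), (.s k3 k2 0 (.s k65
  k125 5 (.s k129 k193 7 (.s k66 k192 8 (.s k67 k64 0 (.d k195 k131 k130 7 8))))))] .n) (.c k65 (.q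
  k1 [(.s k169 k253 13 (.s k3 k2 0 (.s k86 k252 14 (.d k87 k84 k171 0 13)))), (.s k169 k253 13 (.s
  k41 k233 7 (.s k21 k61 5 (.s k63 k42 6 (.s k127 k191 7 (.s k106 k64 6 (.d k149 k213 k192 7
  14)))))))] (.c k169 (.f k3 k2 0 (.q k86 [(.d k87 k171 k84 13 0), (.s k67 k124 6 (.s k195 k131 7
  (.s k150 k60 14 (.d k215 k235 k20 5 8))))] (.c k168 (.l (.s k171 k87 13 (.s k67 k124 6 (.s k195
  k131 7 (.s k150 k60 14 (.d k215 k235 k20 5 8)))))) (.c k171 (.q k168 [(.d k84 k87 k252 0 13), (.s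
  k67 k124 6 (.s k195 k131 7 (.s k215 k235 5 (.d k150 k20 k60 8 14))))] .n) .n)))) (.c k253 (.l (.s
  k3 k2 0 (.s k87 k171 13 (.s k86 k84 0 (.s k67 k124 6 (.s k195 k131 7 (.s k150 k60 14 (.d k215 k235
  k20 5 8)))))))) .n))) (.c k125 (.q k253 [(.s k252 k254 0 (.s k84 k168 13 (.s k86 k87 0 (.d k169 k1
  k3 13 14)))), (.s k169 k1 13 (.s k233 k41 7 (.s k213 k193 5 (.s k192 k234 6 (.s k64 k128 7 (.s
  k106 k127 6 (.d k149 k21 k63 7 14)))))))] (.c k1 (.l (.s k252 k254 0 (.s k84 k168 13 (.s k86 k87 0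
  (.s k124 k67 6 (.s k60 k188 7 (.s k20 k40 5 (.d k150 k215 k195 8 14)))))))) (.c k169 (.f k252 k254
  0 (.q k86 [(.d k84 k168 k87 13 0), (.s k124 k67 6 (.s k60 k188 7 (.s k20 k40 5 (.d k150 k215 k195
  8 14))))] (.c k168 (.q k171 [(.d k87 k84 k3 0 13), (.s k124 k67 6 (.s k60 k188 7 (.s k20 k40 5 (.d
  k150 k215 k195 8 14))))] .n) (.c k171 (.l (.s k168 k84 13 (.s k124 k67 6 (.s k60 k188 7 (.s k20
  k40 5 (.d k150 k215 k195 8 14)))))) .n)))) .n))) (.c k130 (.l (.s k125 k65 5 (.s k60 k190 8 (.s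
  k150 k195 14 (.d k20 k40 k215 5 8))))) (.c k150 (.f k65 k125 5 (.q k1 [(.s k3 k2 0 (.s k87 k171 13
  (.s k86 k84 0 (.d k169 k253 k252 13 14)))), (.s k169 k253 13 (.s k41 k233 7 (.s k61 k21 5 (.d k193
  k129 k149 7 13)))), (.s k3 k2 0 (.s k129 k193 7 (.s k66 k192 8 (.s k67 k64 0 (.d k195 k130 k131 8
  7)))))] (.c k130 (.q k190 [(.s k3 k2 0 (.s k87 k171 13 (.s k86 k84 0 (.d k169 k253 k252 13 14)))),
  (.s k169 k253 13 (.s k41 k233 7 (.s k61 k21 5 (.d k193 k129 k149 7 13)))), (.s k3 k2 0 (.s k129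
  k193 7 (.s k66 k192 8 (.s k67 k64 0 (.s k86 k124 6 (.d k87 k84 k171 0 13))))))] .n) (.c k190 (.l
  (.s k130 k195 8 (.s k3 k2 0 (.s k87 k171 13 (.s k86 k84 0 (.d k169 k253 k252 13 14)))))) .n))))
  (.c k190 (.l (.s k65 k125 5 (.s k195 k130 8 (.s k150 k60 14 (.d k215 k235 k20 5 8))))) (.c k195
  (.q k1 [(.s k3 k2 0 (.s k87 k171 13 (.s k86 k84 0 (.d k169 k253 k252 13 14)))), (.s k65 k125 5 (.s
  k169 k253 13 (.s k41 k233 7 (.s k61 k21 5 (.d k193 k129 k149 7 13))))), (.s k3 k2 0 (.s k125 k65 5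
  (.s k60 k190 8 (.s k40 k20 5 (.s k41 k22 6 (.s k21 k61 5 (.d k42 k43 k63 0 6)))))))] .n) (.c k215
  (.q k1 [(.s k169 k253 13 (.s k3 k2 0 (.s k86 k252 14 (.d k87 k84 k171 0 13)))), (.s k65 k125 5 (.s
  k169 k253 13 (.s k41 k233 7 (.s k61 k21 5 (.d k193 k129 k149 7 13))))), (.s k3 k2 0 (.s k65 k125 5
  (.s k129 k193 7 (.s k66 k192 8 (.s k67 k64 0 (.d k195 k131 k130 7 8))))))] .n) (.c k235 (.l (.s
  k125 k65 5 (.s k60 k190 8 (.s k20 k40 5 (.d k150 k215 k195 8 14))))) .n))))))))))))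

def t5_27 : T TT 256 :=
  (.f k255 k170 14 (.q k105 [(.s k65 k125 5 (.s k195 k130 8 (.s k150 k60 14 (.d k215 k235 k20 5
  8))))] (.c k20 (.q k1 [(.s k169 k253 13 (.s k3 k2 0 (.s k86 k252 14 (.d k87 k84 k171 0 13)))), (.s
  k65 k125 5 (.s k169 k253 13 (.s k41 k233 7 (.s k61 k21 5 (.d k193 k129 k149 7 13))))), (.s k3 k2 0
  (.s k65 k125 5 (.s k129 k193 7 (.s k66 k192 8 (.s k67 k64 0 (.d k195 k131 k130 7 8))))))] .n) (.c
  k60 (.q k1 [(.s k3 k2 0 (.s k87 k171 13 (.s k86 k84 0 (.d k169 k253 k252 13 14)))), (.s k65 k125 5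
  (.s k169 k253 13 (.s k41 k233 7 (.s k61 k21 5 (.d k193 k129 k149 7 13))))), (.s k3 k2 0 (.s k65
  k125 5 (.s k129 k193 7 (.s k66 k192 8 (.s k67 k64 0 (.d k195 k131 k130 7 8))))))] .n) (.c k65 (.q
  k1 [(.s k169 k253 13 (.s k3 k2 0 (.s k86 k252 14 (.d k87 k84 k171 0 13)))), (.s k169 k253 13 (.s
  k41 k233 7 (.s k21 k61 5 (.s k63 k42 6 (.s k127 k191 7 (.s k106 k64 6 (.d k149 k213 k192 7
  14)))))))] (.c k169 (.f k3 k2 0 (.q k86 [(.d k87 k171 k84 13 0), (.s k67 k124 6 (.s k195 k131 7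
  (.s k150 k60 14 (.d k215 k235 k20 5 8))))] (.c k168 (.l (.s k171 k87 13 (.s k67 k124 6 (.s k195
  k131 7 (.s k150 k60 14 (.d k215 k235 k20 5 8)))))) (.c k171 (.q k168 [(.d k84 k87 k252 0 13), (.s
  k67 k124 6 (.s k195 k131 7 (.s k215 k235 5 (.d k150 k20 k60 8 14))))] .n) .n)))) (.c k253 (.l (.s
  k3 k2 0 (.s k87 k171 13 (.s k86 k84 0 (.s k67 k124 6 (.s k195 k131 7 (.s k150 k60 14 (.d k215 k235
  k20 5 8)))))))) .n))) (.c k125 (.q k253 [(.s k252 k254 0 (.s k84 k168 13 (.s k86 k87 0 (.d k169 k1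
  k3 13 14)))), (.s k169 k1 13 (.s k233 k41 7 (.s k213 k193 5 (.s k192 k234 6 (.s k64 k128 7 (.s
  k106 k127 6 (.d k149 k21 k63 7 14)))))))] (.c k1 (.l (.s k252 k254 0 (.s k84 k168 13 (.s k86 k87 0
  (.s k124 k67 6 (.s k60 k188 7 (.s k20 k40 5 (.d k150 k215 k195 8 14)))))))) (.c k169 (.f k252 k254
  0 (.q k86 [(.d k84 k168 k87 13 0), (.s k124 k67 6 (.s k60 k188 7 (.s k20 k40 5 (.d k150 k215 k195
  8 14))))] (.c k168 (.q k171 [(.d k87 k84 k3 0 13), (.s k124 k67 6 (.s k60 k188 7 (.s k20 k40 5 (.d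
  k150 k215 k195 8 14))))] .n) (.c k171 (.l (.s k168 k84 13 (.s k124 k67 6 (.s k60 k188 7 (.s k20
  k40 5 (.d k150 k215 k195 8 14)))))) .n)))) .n))) (.c k130 (.l (.s k125 k65 5 (.s k60 k190 8 (.s
  k150 k195 14 (.d k20 k40 k215 5 8))))) (.c k150 (.f k65 k125 5 (.q k1 [(.s k3 k2 0 (.s k87 k171 13
  (.s k86 k84 0 (.d k169 k253 k252 13 14)))), (.s k169 k253 13 (.s k41 k233 7 (.s k61 k21 5 (.d k193
  k129 k149 7 13)))), (.s k3 k2 0 (.s k129 k193 7 (.s k66 k192 8 (.s k67 k64 0 (.d k195 k130 k131 8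
  7)))))] (.c k130 (.q k190 [(.s k3 k2 0 (.s k87 k171 13 (.s k86 k84 0 (.d k169 k253 k252 13 14)))),
  (.s k169 k253 13 (.s k41 k233 7 (.s k61 k21 5 (.d k193 k129 k149 7 13)))), (.s k3 k2 0 (.s k129
  k193 7 (.s k66 k192 8 (.s k67 k64 0 (.s k86 k124 6 (.d k87 k84 k171 0 13))))))] .n) (.c k190 (.l
  (.s k130 k195 8 (.s k3 k2 0 (.s k87 k171 13 (.s k86 k84 0 (.d k169 k253 k252 13 14)))))) .n))))
  (.c k190 (.l (.s k65 k125 5 (.s k195 k130 8 (.s k150 k60 14 (.d k215 k235 k20 5 8))))) (.c k195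
  (.q k1 [(.s k3 k2 0 (.s k87 k171 13 (.s k86 k84 0 (.d k169 k253 k252 13 14)))), (.s k65 k125 5 (.s
  k169 k253 13 (.s k41 k233 7 (.s k61 k21 5 (.d k193 k129 k149 7 13))))), (.s k3 k2 0 (.s k125 k65 5
  (.s k60 k190 8 (.s k40 k20 5 (.s k41 k22 6 (.s k21 k61 5 (.d k42 k43 k63 0 6)))))))] .n) (.c k215
  (.q k1 [(.s k169 k253 13 (.s k3 k2 0 (.s k86 k252 14 (.d k87 k84 k171 0 13)))), (.s k65 k125 5 (.s
  k169 k253 13 (.s k41 k233 7 (.s k61 k21 5 (.d k193 k129 k149 7 13))))), (.s k3 k2 0 (.s k65 k125 5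
  (.s k129 k193 7 (.s k66 k192 8 (.s k67 k64 0 (.d k195 k131 k130 7 8))))))] .n) (.c k235 (.l (.s
  k125 k65 5 (.s k60 k190 8 (.s k20 k40 5 (.d k150 k215 k195 8 14))))) .n))))))))))))

def t5_31 : T TT 256 :=
  (.f k255 k170 14 (.q k105 [(.s k65 k125 5 (.s k195 k130 8 (.s k150 k60 14 (.d k215 k235 k20 5
  8))))] (.c k20 (.q k1 [(.s k169 k253 13 (.s k3 k2 0 (.s k86 k252 14 (.d k87 k84 k171 0 13)))), (.s
  k65 k125 5 (.s k169 k253 13 (.s k41 k233 7 (.s k61 k21 5 (.d k193 k129 k149 7 13))))), (.s k3 k2 0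
  (.s k65 k125 5 (.s k129 k193 7 (.s k66 k192 8 (.s k67 k64 0 (.d k195 k131 k130 7 8))))))] .n) (.c
  k60 (.q k1 [(.s k3 k2 0 (.s k87 k171 13 (.s k86 k84 0 (.d k169 k253 k252 13 14)))), (.s k65 k125 5
  (.s k169 k253 13 (.s k41 k233 7 (.s k61 k21 5 (.d k193 k129 k149 7 13))))), (.s k3 k2 0 (.s k65
  k125 5 (.s k129 k193 7 (.s k66 k192 8 (.s k67 k64 0 (.d k195 k131 k130 7 8))))))] .n) (.c k65 (.q
  k1 [(.s k169 k253 13 (.s k3 k2 0 (.s k86 k252 14 (.d k87 k84 k171 0 13)))), (.s k169 k253 13 (.s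
  k41 k233 7 (.s k21 k61 5 (.s k63 k42 6 (.s k127 k191 7 (.s k106 k64 6 (.d k149 k213 k192 7
  14)))))))] (.c k169 (.f k3 k2 0 (.q k86 [(.d k87 k171 k84 13 0), (.s k67 k124 6 (.s k195 k131 7
  (.s k150 k60 14 (.d k215 k235 k20 5 8))))] (.c k168 (.l (.s k171 k87 13 (.s k67 k124 6 (.s k195
  k131 7 (.s k150 k60 14 (.d k215 k235 k20 5 8)))))) (.c k171 (.q k168 [(.d k84 k87 k252 0 13), (.s
  k67 k124 6 (.s k195 k131 7 (.s k215 k235 5 (.d k150 k20 k60 8 14))))] .n) .n)))) (.c k253 (.l (.s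
  k3 k2 0 (.s k87 k171 13 (.s k86 k84 0 (.s k67 k124 6 (.s k195 k131 7 (.s k150 k60 14 (.d k215 k235
  k20 5 8)))))))) .n))) (.c k125 (.q k253 [(.s k252 k254 0 (.s k84 k168 13 (.s k86 k87 0 (.d k169 k1
  k3 13 14)))), (.s k169 k1 13 (.s k233 k41 7 (.s k213 k193 5 (.s k192 k234 6 (.s k64 k128 7 (.s
  k106 k127 6 (.d k149 k21 k63 7 14)))))))] (.c k1 (.l (.s k252 k254 0 (.s k84 k168 13 (.s k86 k87 0
  (.s k124 k67 6 (.s k60 k188 7 (.s k20 k40 5 (.d k150 k215 k195 8 14)))))))) (.c k169 (.f k252 k254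
  0 (.q k86 [(.d k84 k168 k87 13 0), (.s k124 k67 6 (.s k60 k188 7 (.s k20 k40 5 (.d k150 k215 k195
  8 14))))] (.c k168 (.q k171 [(.d k87 k84 k3 0 13), (.s k124 k67 6 (.s k60 k188 7 (.s k20 k40 5 (.d
  k150 k215 k195 8 14))))] .n) (.c k171 (.l (.s k168 k84 13 (.s k124 k67 6 (.s k60 k188 7 (.s k20
  k40 5 (.d k150 k215 k195 8 14)))))) .n)))) .n))) (.c k130 (.l (.s k125 k65 5 (.s k60 k190 8 (.s
  k150 k195 14 (.d k20 k40 k215 5 8))))) (.c k150 (.f k65 k125 5 (.q k1 [(.s k3 k2 0 (.s k87 k171 13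
  (.s k86 k84 0 (.d k169 k253 k252 13 14)))), (.s k169 k253 13 (.s k41 k233 7 (.s k61 k21 5 (.d k193
  k129 k149 7 13)))), (.s k3 k2 0 (.s k129 k193 7 (.s k66 k192 8 (.s k67 k64 0 (.d k195 k130 k131 8
  7)))))] (.c k130 (.q k190 [(.s k3 k2 0 (.s k87 k171 13 (.s k86 k84 0 (.d k169 k253 k252 13 14)))),
  (.s k169 k253 13 (.s k41 k233 7 (.s k61 k21 5 (.d k193 k129 k149 7 13)))), (.s k3 k2 0 (.s k129
  k193 7 (.s k66 k192 8 (.s k67 k64 0 (.s k86 k124 6 (.d k87 k84 k171 0 13))))))] .n) (.c k190 (.l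
  (.s k130 k195 8 (.s k3 k2 0 (.s k87 k171 13 (.s k86 k84 0 (.d k169 k253 k252 13 14)))))) .n))))
  (.c k190 (.l (.s k65 k125 5 (.s k195 k130 8 (.s k150 k60 14 (.d k215 k235 k20 5 8))))) (.c k195
  (.q k1 [(.s k3 k2 0 (.s k87 k171 13 (.s k86 k84 0 (.d k169 k253 k252 13 14)))), (.s k65 k125 5 (.s
  k169 k253 13 (.s k41 k233 7 (.s k61 k21 5 (.d k193 k129 k149 7 13))))), (.s k3 k2 0 (.s k125 k65 5
  (.s k60 k190 8 (.s k40 k20 5 (.s k41 k22 6 (.s k21 k61 5 (.d k42 k43 k63 0 6)))))))] .n) (.c k215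
  (.q k1 [(.s k169 k253 13 (.s k3 k2 0 (.s k86 k252 14 (.d k87 k84 k171 0 13)))), (.s k65 k125 5 (.s
  k169 k253 13 (.s k41 k233 7 (.s k61 k21 5 (.d k193 k129 k149 7 13))))), (.s k3 k2 0 (.s k65 k125 5
  (.s k129 k193 7 (.s k66 k192 8 (.s k67 k64 0 (.d k195 k131 k130 7 8))))))] .n) (.c k235 (.l (.s
  k125 k65 5 (.s k60 k190 8 (.s k20 k40 5 (.d k150 k215 k195 8 14))))) .n))))))))))))

def t5_34 : T TT 256 :=
  (.f k170 k255 14 (.q k195 [(.s k65 k130 8 (.s k105 k125 5 (.s k40 k235 8 (.d k60 k20 k150 5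
  14))))] (.c k20 (.q k1 [(.s k3 k2 0 (.s k169 k253 13 (.s k168 k171 0 (.d k252 k84 k86 13 14)))),
  (.s k65 k130 8 (.s k105 k125 5 (.s k169 k253 13 (.s k41 k233 7 (.s k61 k21 5 (.d k193 k129 k149 7
  13)))))), (.s k3 k2 0 (.s k65 k130 8 (.s k67 k131 7 (.s k66 k64 0 (.d k129 k193 k192 7 8)))))] .n)
  (.c k40 (.q k1 [(.s k169 k253 13 (.s k168 k171 0 (.s k252 k84 13 (.d k3 k2 k86 0 14)))), (.s k3 k2
  0 (.s k65 k130 8 (.s k67 k131 7 (.s k66 k64 0 (.d k129 k193 k192 7 8))))), (.s k65 k130 8 (.s k105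
  k125 5 (.s k169 k253 13 (.s k41 k233 7 (.s k61 k21 5 (.d k193 k129 k149 7 13))))))] .n) (.c k60
  (.f k65 k130 8 (.q k81 [(.s k97 k113 3 (.s k48 k146 12 (.s k32 k16 3 (.d k162 k227 k243 8 12)))),
  (.s k89 k93 1 (.s k8 k251 12 (.s k12 k4 1 (.s k73 k134 10 (.d k105 k125 k121 5 3)))))] (.c k125
  (.q k190 [(.s k97 k113 3 (.s k48 k146 12 (.s k32 k16 3 (.d k162 k227 k243 8 12)))), (.s k89 k93 1
  (.s k8 k251 12 (.s k12 k4 1 (.d k243 k162 k166 12 14)))), (.s k89 k93 1 (.s k113 k97 3 (.s k77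
  k101 5 (.s k73 k69 1 (.s k12 k134 10 (.d k8 k4 k251 1 12))))))] .n) (.c k190 (.l (.s k125 k105 5
  (.s k89 k93 1 (.s k8 k251 12 (.s k12 k4 1 (.d k243 k162 k166 12 14)))))) (.c k243 (.l (.s k89 k93
  1 (.s k113 k97 3 (.s k77 k101 5 (.s k73 k69 1 (.d k105 k121 k125 3 5)))))) .n))))) (.c k65 (.q k32
  [(.s k48 k16 3 (.s k101 k239 10 (.s k69 k117 3 (.d k207 k138 k154 10 14)))), (.s k48 k16 3 (.s k97
  k146 12 (.s k162 k227 8 (.s k166 k174 1 (.s k4 k247 12 (.s k12 k8 1 (.d k243 k81 k89 12 14)))))))]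
  (.c k16 (.l (.s k101 k239 10 (.s k69 k117 3 (.s k207 k138 10 (.s k199 k203 1 (.s k150 k52 12 (.s
  k20 k215 8 (.d k60 k40 k105 5 14)))))))) (.c k48 (.f k101 k239 10 (.q k207 [(.d k69 k117 k138 3
  10), (.s k199 k203 1 (.s k150 k52 12 (.s k20 k215 8 (.d k60 k40 k105 5 14))))] (.c k117 (.q k186
  [(.d k138 k154 k69 3 10), (.s k199 k203 1 (.s k150 k52 12 (.s k20 k215 8 (.d k60 k40 k105 5
  14))))] .n) (.c k186 (.l (.s k117 k69 3 (.s k199 k203 1 (.s k150 k52 12 (.s k20 k215 8 (.d k60 k40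
  k105 5 14)))))) .n)))) .n))) (.c k105 (.q k1 [(.s k169 k253 13 (.s k168 k171 0 (.s k252 k84 13 (.d
  k3 k2 k86 0 14)))), (.s k65 k130 8 (.s k193 k129 7 (.s k192 k194 0 (.s k128 k64 7 (.s k149 k191 6
  (.s k21 k213 7 (.d k63 k42 k106 6 14)))))))] (.c k2 (.l (.s k130 k65 8 (.s k150 k190 5 (.s k169
  k253 13 (.s k131 k188 6 (.s k3 k67 7 (.s k168 k171 0 (.d k252 k86 k84 14 13)))))))) .n)) (.c k125
  (.l (.s k130 k65 8 (.s k150 k190 5 (.s k60 k105 14 (.d k20 k40 k215 5 8))))) (.c k130 (.q k162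
  [(.s k243 k81 12 (.s k166 k174 1 (.s k12 k89 14 (.d k4 k8 k247 1 12)))), (.s k243 k81 12 (.s k227
  k211 3 (.s k32 k97 8 (.s k101 k239 10 (.s k69 k117 3 (.s k207 k138 10 (.d k48 k16 k154 3
  14)))))))] (.c k81 (.l (.s k166 k174 1 (.s k4 k247 12 (.s k12 k8 1 (.s k134 k73 10 (.s k150 k182 3
  (.s k20 k215 8 (.d k60 k40 k105 5 14)))))))) (.c k243 (.f k166 k174 1 (.q k12 [(.d k4 k247 k8 12
  1), (.s k134 k73 10 (.s k150 k182 3 (.s k20 k215 8 (.d k60 k40 k105 5 14))))] (.c k247 (.q k251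
  [(.d k8 k4 k89 1 12), (.s k134 k73 10 (.s k150 k182 3 (.s k20 k215 8 (.d k60 k40 k105 5 14))))]
  .n) (.c k251 (.l (.s k247 k4 12 (.s k134 k73 10 (.s k150 k182 3 (.s k20 k215 8 (.d k60 k40 k105 5
  14)))))) .n)))) .n))) (.c k150 (.q k1 [(.s k169 k253 13 (.s k168 k171 0 (.s k252 k84 13 (.d k3 k2
  k86 0 14)))), (.s k3 k2 0 (.s k65 k130 8 (.s k129 k193 7 (.s k66 k192 8 (.d k67 k64 k131 0 7))))),
  (.s k65 k130 8 (.s k105 k125 5 (.s k169 k253 13 (.s k41 k233 7 (.s k61 k21 5 (.d k193 k129 k149 7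
  13))))))] .n) (.c k190 (.l (.s k65 k130 8 (.s k105 k125 5 (.s k60 k150 14 (.d k40 k20 k235 5
  8))))) (.c k235 (.l (.s k130 k65 8 (.s k150 k190 5 (.s k20 k215 8 (.d k60 k40 k105 5 14)))))
  .n))))))))))))

def t5_35 : T TT 256 :=
  (.f k255 k170 14 (.q k105 [(.s k65 k125 5 (.s k195 k130 8 (.s k150 k60 14 (.d k215 k235 k20 5
  8))))] (.c k20 (.q k1 [(.s k3 k2 0 (.s k169 k253 13 (.s k86 k252 14 (.d k87 k84 k171 0 13)))), (.s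
  k65 k125 5 (.s k169 k253 13 (.s k41 k233 7 (.s k61 k21 5 (.d k193 k129 k149 7 13))))), (.s k3 k2 0
  (.s k65 k125 5 (.s k129 k193 7 (.s k66 k192 8 (.s k67 k64 0 (.d k195 k131 k130 7 8))))))] .n) (.c
  k60 (.q k1 [(.s k3 k2 0 (.s k169 k253 13 (.s k86 k252 14 (.d k87 k84 k171 0 13)))), (.s k65 k125 5
  (.s k169 k253 13 (.s k41 k233 7 (.s k61 k21 5 (.d k193 k129 k149 7 13))))), (.s k3 k2 0 (.s k65
  k125 5 (.s k129 k193 7 (.s k66 k192 8 (.s k67 k64 0 (.d k195 k131 k130 7 8))))))] .n) (.c k65 (.q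
  k84 [(.s k86 k87 0 (.s k252 k168 13 (.s k253 k254 0 (.d k169 k1 k3 13 14)))), (.s k86 k87 0 (.s
  k124 k67 6 (.s k64 k104 5 (.s k192 k128 7 (.s k213 k234 6 (.s k149 k21 7 (.d k106 k127 k63 6
  14)))))))] (.c k86 (.f k252 k168 13 (.q k169 [(.d k253 k254 k1 0 13), (.s k233 k41 7 (.s k195 k214
  6 (.s k150 k60 14 (.d k215 k235 k20 5 8))))] (.c k2 (.l (.s k254 k253 0 (.s k233 k41 7 (.s k195
  k214 6 (.s k150 k60 14 (.d k215 k235 k20 5 8)))))) (.c k254 (.q k2 [(.d k1 k3 k253 0 13), (.s k233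
  k41 7 (.s k195 k214 6 (.s k215 k235 5 (.d k150 k20 k60 8 14))))] .n) .n)))) (.c k87 (.l (.s k252
  k168 13 (.s k253 k254 0 (.s k169 k1 13 (.s k233 k41 7 (.s k195 k214 6 (.s k150 k60 14 (.d k215
  k235 k20 5 8)))))))) .n))) (.c k125 (.q k84 [(.s k86 k87 0 (.s k252 k168 13 (.s k253 k254 0 (.d
  k169 k1 k3 13 14)))), (.s k86 k87 0 (.s k124 k67 6 (.s k64 k104 5 (.s k192 k128 7 (.s k213 k234 6
  (.s k149 k21 7 (.d k106 k127 k63 6 14)))))))] (.c k86 (.f k252 k168 13 (.q k169 [(.d k253 k254 k1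
  0 13), (.s k233 k41 7 (.s k195 k214 6 (.s k150 k60 14 (.d k215 k235 k20 5 8))))] (.c k2 (.l (.s
  k254 k253 0 (.s k233 k41 7 (.s k195 k214 6 (.s k150 k60 14 (.d k215 k235 k20 5 8)))))) (.c k254
  (.q k2 [(.d k1 k3 k253 0 13), (.s k233 k41 7 (.s k195 k214 6 (.s k215 k235 5 (.d k150 k20 k60 8
  14))))] .n) .n)))) (.c k87 (.l (.s k252 k168 13 (.s k253 k254 0 (.s k169 k1 13 (.s k233 k41 7 (.s
  k195 k214 6 (.s k150 k60 14 (.d k215 k235 k20 5 8)))))))) .n))) (.c k130 (.l (.s k125 k65 5 (.s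
  k60 k190 8 (.s k150 k195 14 (.d k20 k40 k215 5 8))))) (.c k150 (.f k65 k125 5 (.q k1 [(.s k3 k2 0
  (.s k169 k253 13 (.s k86 k252 14 (.d k87 k84 k171 0 13)))), (.s k169 k253 13 (.s k41 k233 7 (.s
  k61 k21 5 (.d k193 k129 k149 7 13)))), (.s k3 k2 0 (.s k129 k193 7 (.s k66 k192 8 (.s k67 k64 0
  (.d k195 k130 k131 8 7)))))] (.c k130 (.q k190 [(.s k169 k253 13 (.s k41 k233 7 (.s k61 k21 5 (.d
  k193 k129 k149 7 13)))), (.s k3 k2 0 (.s k87 k171 13 (.s k86 k84 0 (.s k67 k124 6 (.s k127 k107 5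
  (.d k64 k66 k106 0 6))))))] (.c k169 (.l (.s k3 k2 0 (.s k129 k193 7 (.s k66 k192 8 (.s k67 k64 0
  (.s k86 k124 6 (.d k87 k84 k171 0 13))))))) .n)) (.c k190 (.l (.s k130 k195 8 (.s k3 k2 0 (.s k87
  k171 13 (.s k86 k84 0 (.d k169 k253 k252 13 14)))))) .n)))) (.c k190 (.l (.s k65 k125 5 (.s k195
  k130 8 (.s k150 k60 14 (.d k215 k235 k20 5 8))))) (.c k195 (.q k1 [(.s k3 k2 0 (.s k169 k253 13
  (.s k86 k252 14 (.d k87 k84 k171 0 13)))), (.s k3 k2 0 (.s k125 k65 5 (.s k60 k190 8 (.s k40 k20 5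
  (.s k41 k22 6 (.s k21 k61 5 (.d k42 k43 k63 0 6))))))), (.s k65 k125 5 (.s k169 k253 13 (.s k41
  k233 7 (.s k61 k21 5 (.d k193 k129 k149 7 13)))))] .n) (.c k215 (.q k1 [(.s k3 k2 0 (.s k169 k253
  13 (.s k86 k252 14 (.d k87 k84 k171 0 13)))), (.s k65 k125 5 (.s k169 k253 13 (.s k41 k233 7 (.s
  k61 k21 5 (.d k193 k129 k149 7 13))))), (.s k3 k2 0 (.s k65 k125 5 (.s k129 k193 7 (.s k66 k192 8
  (.s k67 k64 0 (.d k195 k131 k130 7 8))))))] .n) (.c k235 (.l (.s k125 k65 5 (.s k60 k190 8 (.s k20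
  k40 5 (.d k150 k215 k195 8 14))))) .n))))))))))))

def t5_38 : T TT 256 :=
  (.f k255 k170 14 (.q k105 [(.s k65 k125 5 (.s k195 k130 8 (.s k150 k60 14 (.d k215 k235 k20 5
  8))))] (.c k20 (.q k1 [(.s k169 k253 13 (.s k3 k2 0 (.s k86 k252 14 (.d k87 k84 k171 0 13)))), (.s
  k65 k125 5 (.s k169 k253 13 (.s k41 k233 7 (.s k61 k21 5 (.d k193 k129 k149 7 13))))), (.s k3 k2 0
  (.s k65 k125 5 (.s k129 k193 7 (.s k66 k192 8 (.s k67 k64 0 (.d k195 k131 k130 7 8))))))] .n) (.c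
  k60 (.q k1 [(.s k3 k2 0 (.s k87 k171 13 (.s k86 k84 0 (.d k169 k253 k252 13 14)))), (.s k65 k125 5
  (.s k169 k253 13 (.s k41 k233 7 (.s k61 k21 5 (.d k193 k129 k149 7 13))))), (.s k3 k2 0 (.s k65
  k125 5 (.s k129 k193 7 (.s k66 k192 8 (.s k67 k64 0 (.d k195 k131 k130 7 8))))))] .n) (.c k65 (.q
  k1 [(.s k169 k253 13 (.s k3 k2 0 (.s k86 k252 14 (.d k87 k84 k171 0 13)))), (.s k169 k253 13 (.s
  k41 k233 7 (.s k21 k61 5 (.s k63 k42 6 (.s k127 k191 7 (.s k106 k64 6 (.d k149 k213 k192 7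
  14)))))))] (.c k169 (.f k3 k2 0 (.q k86 [(.d k87 k171 k84 13 0), (.s k67 k124 6 (.s k195 k131 7
  (.s k150 k60 14 (.d k215 k235 k20 5 8))))] (.c k168 (.l (.s k171 k87 13 (.s k67 k124 6 (.s k195
  k131 7 (.s k150 k60 14 (.d k215 k235 k20 5 8)))))) (.c k171 (.q k168 [(.d k84 k87 k252 0 13), (.s
  k67 k124 6 (.s k195 k131 7 (.s k215 k235 5 (.d k150 k20 k60 8 14))))] .n) .n)))) (.c k253 (.l (.s
  k3 k2 0 (.s k87 k171 13 (.s k86 k84 0 (.s k67 k124 6 (.s k195 k131 7 (.s k150 k60 14 (.d k215 k235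
  k20 5 8)))))))) .n))) (.c k125 (.q k253 [(.s k252 k254 0 (.s k84 k168 13 (.s k86 k87 0 (.d k169 k1
  k3 13 14)))), (.s k169 k1 13 (.s k233 k41 7 (.s k213 k193 5 (.s k192 k234 6 (.s k64 k128 7 (.s
  k106 k127 6 (.d k149 k21 k63 7 14)))))))] (.c k1 (.l (.s k252 k254 0 (.s k84 k168 13 (.s k86 k87 0
  (.s k124 k67 6 (.s k60 k188 7 (.s k20 k40 5 (.d k150 k215 k195 8 14)))))))) (.c k169 (.f k252 k254
  0 (.q k86 [(.d k84 k168 k87 13 0), (.s k124 k67 6 (.s k60 k188 7 (.s k20 k40 5 (.d k150 k215 k195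
  8 14))))] (.c k168 (.q k171 [(.d k87 k84 k3 0 13), (.s k124 k67 6 (.s k60 k188 7 (.s k20 k40 5 (.d
  k150 k215 k195 8 14))))] .n) (.c k171 (.l (.s k168 k84 13 (.s k124 k67 6 (.s k60 k188 7 (.s k20
  k40 5 (.d k150 k215 k195 8 14)))))) .n)))) .n))) (.c k130 (.l (.s k125 k65 5 (.s k60 k190 8 (.s
  k150 k195 14 (.d k20 k40 k215 5 8))))) (.c k150 (.f k65 k125 5 (.q k1 [(.s k3 k2 0 (.s k87 k171 13
  (.s k86 k84 0 (.d k169 k253 k252 13 14)))), (.s k169 k253 13 (.s k41 k233 7 (.s k61 k21 5 (.d k193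
  k129 k149 7 13)))), (.s k3 k2 0 (.s k129 k193 7 (.s k66 k192 8 (.s k67 k64 0 (.d k195 k130 k131 8
  7)))))] (.c k130 (.q k190 [(.s k3 k2 0 (.s k87 k171 13 (.s k86 k84 0 (.d k169 k253 k252 13 14)))),
  (.s k169 k253 13 (.s k41 k233 7 (.s k61 k21 5 (.d k193 k129 k149 7 13)))), (.s k3 k2 0 (.s k129
  k193 7 (.s k66 k192 8 (.s k67 k64 0 (.s k86 k124 6 (.d k87 k84 k171 0 13))))))] .n) (.c k190 (.l
  (.s k130 k195 8 (.s k3 k2 0 (.s k87 k171 13 (.s k86 k84 0 (.d k169 k253 k252 13 14)))))) .n))))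
  (.c k190 (.l (.s k65 k125 5 (.s k195 k130 8 (.s k150 k60 14 (.d k215 k235 k20 5 8))))) (.c k195
  (.q k1 [(.s k3 k2 0 (.s k87 k171 13 (.s k86 k84 0 (.d k169 k253 k252 13 14)))), (.s k65 k125 5 (.s
  k169 k253 13 (.s k41 k233 7 (.s k61 k21 5 (.d k193 k129 k149 7 13))))), (.s k3 k2 0 (.s k125 k65 5
  (.s k60 k190 8 (.s k40 k20 5 (.s k41 k22 6 (.s k21 k61 5 (.d k42 k43 k63 0 6)))))))] .n) (.c k215
  (.q k1 [(.s k169 k253 13 (.s k3 k2 0 (.s k86 k252 14 (.d k87 k84 k171 0 13)))), (.s k65 k125 5 (.s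
  k169 k253 13 (.s k41 k233 7 (.s k61 k21 5 (.d k193 k129 k149 7 13))))), (.s k3 k2 0 (.s k65 k125 5
  (.s k129 k193 7 (.s k66 k192 8 (.s k67 k64 0 (.d k195 k131 k130 7 8))))))] .n) (.c k235 (.l (.s
  k125 k65 5 (.s k60 k190 8 (.s k20 k40 5 (.d k150 k215 k195 8 14))))) .n))))))))))))

def t5_39 : T TT 256 :=
  (.f k255 k170 14 (.q k105 [(.s k65 k125 5 (.s k195 k130 8 (.s k150 k60 14 (.d k215 k235 k20 5
  8))))] (.c k20 (.q k1 [(.s k169 k253 13 (.s k3 k2 0 (.s k86 k252 14 (.d k87 k84 k171 0 13)))), (.s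
  k65 k125 5 (.s k169 k253 13 (.s k41 k233 7 (.s k61 k21 5 (.d k193 k129 k149 7 13))))), (.s k3 k2 0
  (.s k65 k125 5 (.s k129 k193 7 (.s k66 k192 8 (.s k67 k64 0 (.d k195 k131 k130 7 8))))))] .n) (.c
  k60 (.q k1 [(.s k3 k2 0 (.s k87 k171 13 (.s k86 k84 0 (.d k169 k253 k252 13 14)))), (.s k65 k125 5
  (.s k169 k253 13 (.s k41 k233 7 (.s k61 k21 5 (.d k193 k129 k149 7 13))))), (.s k3 k2 0 (.s k65
  k125 5 (.s k129 k193 7 (.s k66 k192 8 (.s k67 k64 0 (.d k195 k131 k130 7 8))))))] .n) (.c k65 (.q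
  k1 [(.s k169 k253 13 (.s k3 k2 0 (.s k86 k252 14 (.d k87 k84 k171 0 13)))), (.s k169 k253 13 (.s
  k41 k233 7 (.s k21 k61 5 (.s k63 k42 6 (.s k127 k191 7 (.s k106 k64 6 (.d k149 k213 k192 7
  14)))))))] (.c k169 (.f k3 k2 0 (.q k86 [(.d k87 k171 k84 13 0), (.s k67 k124 6 (.s k195 k131 7
  (.s k150 k60 14 (.d k215 k235 k20 5 8))))] (.c k168 (.l (.s k171 k87 13 (.s k67 k124 6 (.s k195
  k131 7 (.s k150 k60 14 (.d k215 k235 k20 5 8)))))) (.c k171 (.q k168 [(.d k84 k87 k252 0 13), (.s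
  k67 k124 6 (.s k195 k131 7 (.s k215 k235 5 (.d k150 k20 k60 8 14))))] .n) .n)))) (.c k253 (.l (.s
  k3 k2 0 (.s k87 k171 13 (.s k86 k84 0 (.s k67 k124 6 (.s k195 k131 7 (.s k150 k60 14 (.d k215 k235
  k20 5 8)))))))) .n))) (.c k125 (.q k253 [(.s k252 k254 0 (.s k84 k168 13 (.s k86 k87 0 (.d k169 k1
  k3 13 14)))), (.s k169 k1 13 (.s k233 k41 7 (.s k213 k193 5 (.s k192 k234 6 (.s k64 k128 7 (.s
  k106 k127 6 (.d k149 k21 k63 7 14)))))))] (.c k1 (.l (.s k252 k254 0 (.s k84 k168 13 (.s k86 k87 0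
  (.s k124 k67 6 (.s k60 k188 7 (.s k20 k40 5 (.d k150 k215 k195 8 14)))))))) (.c k169 (.f k252 k254
  0 (.q k86 [(.d k84 k168 k87 13 0), (.s k124 k67 6 (.s k60 k188 7 (.s k20 k40 5 (.d k150 k215 k195
  8 14))))] (.c k168 (.q k171 [(.d k87 k84 k3 0 13), (.s k124 k67 6 (.s k60 k188 7 (.s k20 k40 5 (.d
  k150 k215 k195 8 14))))] .n) (.c k171 (.l (.s k168 k84 13 (.s k124 k67 6 (.s k60 k188 7 (.s k20
  k40 5 (.d k150 k215 k195 8 14)))))) .n)))) .n))) (.c k130 (.l (.s k125 k65 5 (.s k60 k190 8 (.s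
  k150 k195 14 (.d k20 k40 k215 5 8))))) (.c k150 (.f k65 k125 5 (.q k1 [(.s k3 k2 0 (.s k87 k171 13
  (.s k86 k84 0 (.d k169 k253 k252 13 14)))), (.s k169 k253 13 (.s k41 k233 7 (.s k61 k21 5 (.d k193
  k129 k149 7 13)))), (.s k3 k2 0 (.s k129 k193 7 (.s k66 k192 8 (.s k67 k64 0 (.d k195 k130 k131 8
  7)))))] (.c k130 (.q k190 [(.s k3 k2 0 (.s k87 k171 13 (.s k86 k84 0 (.d k169 k253 k252 13 14)))),
  (.s k169 k253 13 (.s k41 k233 7 (.s k61 k21 5 (.d k193 k129 k149 7 13)))), (.s k3 k2 0 (.s k129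
  k193 7 (.s k66 k192 8 (.s k67 k64 0 (.s k86 k124 6 (.d k87 k84 k171 0 13))))))] .n) (.c k190 (.l
  (.s k130 k195 8 (.s k3 k2 0 (.s k87 k171 13 (.s k86 k84 0 (.d k169 k253 k252 13 14)))))) .n))))
  (.c k190 (.l (.s k65 k125 5 (.s k195 k130 8 (.s k150 k60 14 (.d k215 k235 k20 5 8))))) (.c k195
  (.q k1 [(.s k3 k2 0 (.s k87 k171 13 (.s k86 k84 0 (.d k169 k253 k252 13 14)))), (.s k65 k125 5 (.s
  k169 k253 13 (.s k41 k233 7 (.s k61 k21 5 (.d k193 k129 k149 7 13))))), (.s k3 k2 0 (.s k125 k65 5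
  (.s k60 k190 8 (.s k40 k20 5 (.s k41 k22 6 (.s k21 k61 5 (.d k42 k43 k63 0 6)))))))] .n) (.c k215
  (.q k1 [(.s k169 k253 13 (.s k3 k2 0 (.s k86 k252 14 (.d k87 k84 k171 0 13)))), (.s k65 k125 5 (.s
  k169 k253 13 (.s k41 k233 7 (.s k61 k21 5 (.d k193 k129 k149 7 13))))), (.s k3 k2 0 (.s k65 k125 5
  (.s k129 k193 7 (.s k66 k192 8 (.s k67 k64 0 (.d k195 k131 k130 7 8))))))] .n) (.c k235 (.l (.s
  k125 k65 5 (.s k60 k190 8 (.s k20 k40 5 (.d k150 k215 k195 8 14))))) .n))))))))))))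

def t5_42 : T TT 256 :=
  (.f k170 k255 14 (.q k204 [(.s k68 k136 9 (.s k102 k119 4 (.s k34 k238 9 (.d k51 k17 k153 4
  14))))] (.c k17 (.q k1 [(.s k169 k253 13 (.s k168 k171 0 (.s k252 k84 13 (.d k3 k2 k86 0 14)))),
  (.s k3 k2 0 (.s k136 k68 9 (.s k137 k70 10 (.s k69 k205 9 (.d k138 k139 k207 0 10))))), (.s k68
  k136 9 (.s k102 k119 4 (.s k169 k253 13 (.s k236 k35 10 (.s k252 k220 3 (.d k168 k171 k84 0
  13))))))] .n) (.c k34 (.f k68 k136 9 (.f k102 k119 4 (.f k51 k153 14 (.q k38 [(.s k12 k25 6 (.s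
  k166 k230 7 (.d k4 k8 k247 1 12))), (.s k166 k230 7 (.s k4 k247 12 (.s k55 k21 4 (.d k196 k132
  k149 7 12)))), (.s k12 k25 6 (.s k76 k140 7 (.s k89 k115 6 (.d k166 k230 k243 7 14)))), (.s k12
  k25 6 (.s k8 k4 1 (.s k89 k251 12 (.d k76 k115 k140 6 7))))] .n)))) (.c k51 (.f k136 k68 9 (.f
  k187 k153 4 (.q k1 [(.s k3 k2 0 (.s k169 k253 13 (.s k168 k171 0 (.d k252 k84 k86 13 14)))), (.s
  k3 k2 0 (.s k137 k70 10 (.s k69 k205 9 (.d k138 k139 k207 0 10)))), (.s k169 k253 13 (.s k171 k168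
  0 (.s k139 k155 3 (.s k138 k137 0 (.d k154 k186 k184 3 4)))))] .n))) (.c k68 (.q k2 [(.s k86 k254
  13 (.s k84 k87 0 (.s k252 k168 13 (.d k3 k1 k169 0 14)))), (.s k3 k1 0 (.s k70 k137 10 (.s k138
  k206 9 (.s k154 k186 3 (.s k16 k223 10 (.s k48 k32 3 (.d k207 k69 k101 10 14)))))))] (.c k1 (.l
  (.s k86 k254 13 (.s k84 k87 0 (.s k252 k168 13 (.s k220 k236 3 (.s k153 k19 10 (.s k17 k221 9 (.d
  k51 k34 k102 4 14)))))))) (.c k3 (.f k86 k254 13 (.q k252 [(.d k84 k87 k168 0 13), (.s k220 k236 3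
  (.s k153 k19 10 (.s k17 k221 9 (.d k51 k34 k102 4 14))))] (.c k87 (.q k171 [(.d k168 k169 k84 0
  13), (.s k220 k236 3 (.s k153 k19 10 (.s k17 k221 9 (.d k51 k34 k102 4 14))))] .n) (.c k171 (.l
  (.s k87 k84 0 (.s k220 k236 3 (.s k153 k19 10 (.s k17 k221 9 (.d k51 k34 k102 4 14)))))) .n))))
  .n))) (.c k102 (.q k1 [(.s k169 k253 13 (.s k168 k171 0 (.s k252 k84 13 (.d k3 k2 k86 0 14)))),
  (.s k3 k2 0 (.s k136 k68 9 (.s k137 k70 10 (.s k69 k205 9 (.d k138 k139 k207 0 10))))), (.s k136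
  k68 9 (.s k153 k187 4 (.s k169 k253 13 (.s k137 k185 3 (.s k69 k205 9 (.d k138 k139 k207 0
  10))))))] .n) (.c k119 (.l (.s k136 k68 9 (.s k153 k187 4 (.s k51 k102 14 (.d k17 k34 k221 4
  9))))) (.c k136 (.q k2 [(.s k3 k1 0 (.s k86 k254 13 (.s k84 k87 0 (.d k252 k168 k169 13 14)))),
  (.s k3 k1 0 (.s k70 k137 10 (.s k138 k206 9 (.s k154 k186 3 (.s k16 k223 10 (.s k48 k32 3 (.d k207
  k69 k101 10 14))))))), (.s k86 k254 13 (.s k84 k87 0 (.s k252 k168 13 (.s k220 k236 3 (.s k153 k19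
  10 (.s k17 k221 9 (.d k51 k34 k102 4 14)))))))] (.c k3 (.f k86 k254 13 (.q k252 [(.d k84 k87 k168
  0 13), (.s k220 k236 3 (.s k153 k19 10 (.s k17 k221 9 (.d k51 k34 k102 4 14))))] (.c k87 (.q k171
  [(.d k168 k169 k84 0 13), (.s k220 k236 3 (.s k153 k19 10 (.s k17 k221 9 (.d k51 k34 k102 4
  14))))] .n) (.c k171 (.l (.s k87 k84 0 (.s k220 k236 3 (.s k153 k19 10 (.s k17 k221 9 (.d k51 k34
  k102 4 14)))))) .n)))) .n)) (.c k153 (.q k1 [(.s k169 k253 13 (.s k168 k171 0 (.s k252 k84 13 (.d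
  k3 k2 k86 0 14)))), (.s k3 k2 0 (.s k136 k68 9 (.s k137 k70 10 (.s k69 k205 9 (.d k138 k139 k207 0
  10))))), (.s k68 k136 9 (.s k102 k119 4 (.s k169 k253 13 (.s k236 k35 10 (.s k252 k220 3 (.d k168
  k171 k84 0 13))))))] .n) (.c k187 (.l (.s k68 k136 9 (.s k102 k119 4 (.s k51 k153 14 (.d k34 k17
  k238 4 9))))) (.c k238 (.l (.s k136 k68 9 (.s k153 k187 4 (.s k17 k221 9 (.d k51 k34 k102 4
  14))))) .n))))))))))))

def t5_43 : T TT 256 :=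
  (.f k255 k170 14 (.q k105 [(.s k65 k125 5 (.s k195 k130 8 (.s k150 k60 14 (.d k215 k235 k20 5
  8))))] (.c k20 (.q k1 [(.s k3 k2 0 (.s k169 k253 13 (.s k86 k252 14 (.d k87 k84 k171 0 13)))), (.s
  k65 k125 5 (.s k169 k253 13 (.s k41 k233 7 (.s k61 k21 5 (.d k193 k129 k149 7 13))))), (.s k3 k2 0
  (.s k65 k125 5 (.s k129 k193 7 (.s k66 k192 8 (.s k67 k64 0 (.d k195 k131 k130 7 8))))))] .n) (.c
  k60 (.q k1 [(.s k3 k2 0 (.s k169 k253 13 (.s k86 k252 14 (.d k87 k84 k171 0 13)))), (.s k65 k125 5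
  (.s k169 k253 13 (.s k41 k233 7 (.s k61 k21 5 (.d k193 k129 k149 7 13))))), (.s k3 k2 0 (.s k65
  k125 5 (.s k129 k193 7 (.s k66 k192 8 (.s k67 k64 0 (.d k195 k131 k130 7 8))))))] .n) (.c k65 (.q
  k84 [(.s k86 k87 0 (.s k252 k168 13 (.s k253 k254 0 (.d k169 k1 k3 13 14)))), (.s k86 k87 0 (.s
  k124 k67 6 (.s k64 k104 5 (.s k192 k128 7 (.s k213 k234 6 (.s k149 k21 7 (.d k106 k127 k63 6
  14)))))))] (.c k86 (.f k252 k168 13 (.q k169 [(.d k253 k254 k1 0 13), (.s k233 k41 7 (.s k195 k214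
  6 (.s k150 k60 14 (.d k215 k235 k20 5 8))))] (.c k2 (.l (.s k254 k253 0 (.s k233 k41 7 (.s k195
  k214 6 (.s k150 k60 14 (.d k215 k235 k20 5 8)))))) (.c k254 (.q k2 [(.d k1 k3 k253 0 13), (.s k233
  k41 7 (.s k195 k214 6 (.s k215 k235 5 (.d k150 k20 k60 8 14))))] .n) .n)))) (.c k87 (.l (.s k252
  k168 13 (.s k253 k254 0 (.s k169 k1 13 (.s k233 k41 7 (.s k195 k214 6 (.s k150 k60 14 (.d k215
  k235 k20 5 8)))))))) .n))) (.c k125 (.q k213 [(.s k149 k21 7 (.s k192 k234 6 (.s k64 k128 7 (.d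
  k106 k127 k63 6 14)))), (.s k149 k21 7 (.s k193 k61 13 (.s k253 k233 5 (.s k252 k254 0 (.s k84
  k168 13 (.s k86 k87 0 (.d k169 k1 k3 13 14))))))), (.s k192 k234 6 (.s k64 k128 7 (.s k106 k127 6
  (.s k104 k107 0 (.s k60 k148 13 (.s k20 k40 5 (.d k150 k215 k195 8 14)))))))] (.c k149 (.f k192
  k234 6 (.q k106 [(.d k64 k128 k127 7 6), (.s k104 k107 0 (.s k60 k148 13 (.s k20 k40 5 (.d k150
  k215 k195 8 14))))] (.c k128 (.q k191 [(.d k127 k64 k63 6 7), (.s k104 k107 0 (.s k60 k148 13 (.s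
  k20 k40 5 (.d k150 k215 k195 8 14))))] .n) (.c k191 (.l (.s k128 k64 7 (.s k104 k107 0 (.s k60
  k148 13 (.s k20 k40 5 (.d k150 k215 k195 8 14)))))) .n)))) .n)) (.c k130 (.l (.s k125 k65 5 (.s
  k60 k190 8 (.s k150 k195 14 (.d k20 k40 k215 5 8))))) (.c k150 (.f k65 k125 5 (.q k1 [(.s k3 k2 0
  (.s k169 k253 13 (.s k86 k252 14 (.d k87 k84 k171 0 13)))), (.s k169 k253 13 (.s k41 k233 7 (.s
  k61 k21 5 (.d k193 k129 k149 7 13)))), (.s k3 k2 0 (.s k129 k193 7 (.s k66 k192 8 (.s k67 k64 0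
  (.d k195 k130 k131 8 7)))))] (.c k130 (.q k190 [(.s k169 k253 13 (.s k41 k233 7 (.s k61 k21 5 (.d
  k193 k129 k149 7 13)))), (.s k3 k2 0 (.s k87 k171 13 (.s k86 k84 0 (.d k169 k253 k252 13 14)))),
  (.s k3 k2 0 (.s k129 k193 7 (.s k66 k192 8 (.s k67 k64 0 (.s k86 k124 6 (.d k87 k84 k171 0
  13))))))] .n) (.c k190 (.l (.s k130 k195 8 (.s k3 k2 0 (.s k87 k171 13 (.s k86 k84 0 (.d k169 k253
  k252 13 14)))))) .n)))) (.c k190 (.l (.s k65 k125 5 (.s k195 k130 8 (.s k150 k60 14 (.d k215 k235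
  k20 5 8))))) (.c k195 (.q k1 [(.s k3 k2 0 (.s k169 k253 13 (.s k86 k252 14 (.d k87 k84 k171 0
  13)))), (.s k65 k125 5 (.s k193 k129 7 (.s k149 k61 13 (.s k21 k213 7 (.s k63 k42 6 (.s k106 k192
  14 (.d k127 k64 k191 6 7)))))))] (.c k3 (.l (.s k65 k125 5 (.s k169 k253 13 (.s k41 k233 7 (.s k61
  k21 5 (.d k193 k129 k149 7 13)))))) (.c k253 (.l (.s k3 k2 0 (.s k65 k125 5 (.s k87 k171 13 (.s
  k86 k84 0 (.s k67 k124 6 (.s k64 k66 0 (.d k127 k107 k106 5 6)))))))) .n))) (.c k215 (.q k1 [(.s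
  k3 k2 0 (.s k169 k253 13 (.s k86 k252 14 (.d k87 k84 k171 0 13)))), (.s k65 k125 5 (.s k169 k253
  13 (.s k41 k233 7 (.s k61 k21 5 (.d k193 k129 k149 7 13))))), (.s k3 k2 0 (.s k65 k125 5 (.s k129
  k193 7 (.s k66 k192 8 (.s k67 k64 0 (.d k195 k131 k130 7 8))))))] .n) (.c k235 (.l (.s k125 k65 5
  (.s k60 k190 8 (.s k20 k40 5 (.d k150 k215 k195 8 14))))) .n))))))))))))

def t5_47 : T TT 256 :=
  (.f k255 k170 14 (.q k105 [(.s k65 k125 5 (.s k195 k130 8 (.s k150 k60 14 (.d k215 k235 k20 5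
  8))))] (.c k20 (.q k1 [(.s k169 k253 13 (.s k3 k2 0 (.s k86 k252 14 (.d k87 k84 k171 0 13)))), (.s
  k65 k125 5 (.s k169 k253 13 (.s k41 k233 7 (.s k61 k21 5 (.d k193 k129 k149 7 13))))), (.s k3 k2 0
  (.s k65 k125 5 (.s k129 k193 7 (.s k66 k192 8 (.s k67 k64 0 (.d k195 k131 k130 7 8))))))] .n) (.c
  k60 (.q k1 [(.s k3 k2 0 (.s k87 k171 13 (.s k86 k84 0 (.d k169 k253 k252 13 14)))), (.s k65 k125 5
  (.s k169 k253 13 (.s k41 k233 7 (.s k61 k21 5 (.d k193 k129 k149 7 13))))), (.s k3 k2 0 (.s k65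
  k125 5 (.s k129 k193 7 (.s k66 k192 8 (.s k67 k64 0 (.d k195 k131 k130 7 8))))))] .n) (.c k65 (.q
  k1 [(.s k169 k253 13 (.s k3 k2 0 (.s k86 k252 14 (.d k87 k84 k171 0 13)))), (.s k169 k253 13 (.s
  k41 k233 7 (.s k21 k61 5 (.s k63 k42 6 (.s k127 k191 7 (.s k106 k64 6 (.d k149 k213 k192 7
  14)))))))] (.c k169 (.f k3 k2 0 (.q k86 [(.d k87 k171 k84 13 0), (.s k67 k124 6 (.s k195 k131 7
  (.s k150 k60 14 (.d k215 k235 k20 5 8))))] (.c k168 (.l (.s k171 k87 13 (.s k67 k124 6 (.s k195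
  k131 7 (.s k150 k60 14 (.d k215 k235 k20 5 8)))))) (.c k171 (.q k168 [(.d k84 k87 k252 0 13), (.s
  k67 k124 6 (.s k195 k131 7 (.s k215 k235 5 (.d k150 k20 k60 8 14))))] .n) .n)))) (.c k253 (.l (.s
  k3 k2 0 (.s k87 k171 13 (.s k86 k84 0 (.s k67 k124 6 (.s k195 k131 7 (.s k150 k60 14 (.d k215 k235
  k20 5 8)))))))) .n))) (.c k125 (.q k253 [(.s k252 k254 0 (.s k84 k168 13 (.s k86 k87 0 (.d k169 k1
  k3 13 14)))), (.s k169 k1 13 (.s k233 k41 7 (.s k213 k193 5 (.s k192 k234 6 (.s k64 k128 7 (.s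
  k106 k127 6 (.d k149 k21 k63 7 14)))))))] (.c k1 (.l (.s k252 k254 0 (.s k84 k168 13 (.s k86 k87 0
  (.s k124 k67 6 (.s k60 k188 7 (.s k20 k40 5 (.d k150 k215 k195 8 14)))))))) (.c k169 (.f k252 k254
  0 (.q k86 [(.d k84 k168 k87 13 0), (.s k124 k67 6 (.s k60 k188 7 (.s k20 k40 5 (.d k150 k215 k195
  8 14))))] (.c k168 (.q k171 [(.d k87 k84 k3 0 13), (.s k124 k67 6 (.s k60 k188 7 (.s k20 k40 5 (.d
  k150 k215 k195 8 14))))] .n) (.c k171 (.l (.s k168 k84 13 (.s k124 k67 6 (.s k60 k188 7 (.s k20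
  k40 5 (.d k150 k215 k195 8 14)))))) .n)))) .n))) (.c k130 (.l (.s k125 k65 5 (.s k60 k190 8 (.s
  k150 k195 14 (.d k20 k40 k215 5 8))))) (.c k150 (.f k65 k125 5 (.q k1 [(.s k3 k2 0 (.s k87 k171 13
  (.s k86 k84 0 (.d k169 k253 k252 13 14)))), (.s k169 k253 13 (.s k41 k233 7 (.s k61 k21 5 (.d k193
  k129 k149 7 13)))), (.s k3 k2 0 (.s k129 k193 7 (.s k66 k192 8 (.s k67 k64 0 (.d k195 k130 k131 8
  7)))))] (.c k130 (.q k190 [(.s k3 k2 0 (.s k87 k171 13 (.s k86 k84 0 (.d k169 k253 k252 13 14)))),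
  (.s k169 k253 13 (.s k41 k233 7 (.s k61 k21 5 (.d k193 k129 k149 7 13)))), (.s k3 k2 0 (.s k129
  k193 7 (.s k66 k192 8 (.s k67 k64 0 (.s k86 k124 6 (.d k87 k84 k171 0 13))))))] .n) (.c k190 (.l
  (.s k130 k195 8 (.s k3 k2 0 (.s k87 k171 13 (.s k86 k84 0 (.d k169 k253 k252 13 14)))))) .n))))
  (.c k190 (.l (.s k65 k125 5 (.s k195 k130 8 (.s k150 k60 14 (.d k215 k235 k20 5 8))))) (.c k195
  (.q k1 [(.s k3 k2 0 (.s k87 k171 13 (.s k86 k84 0 (.d k169 k253 k252 13 14)))), (.s k65 k125 5 (.s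
  k169 k253 13 (.s k41 k233 7 (.s k61 k21 5 (.d k193 k129 k149 7 13))))), (.s k3 k2 0 (.s k125 k65 5
  (.s k60 k190 8 (.s k40 k20 5 (.s k41 k22 6 (.s k21 k61 5 (.d k42 k43 k63 0 6)))))))] .n) (.c k215
  (.q k1 [(.s k169 k253 13 (.s k3 k2 0 (.s k86 k252 14 (.d k87 k84 k171 0 13)))), (.s k65 k125 5 (.s
  k169 k253 13 (.s k41 k233 7 (.s k61 k21 5 (.d k193 k129 k149 7 13))))), (.s k3 k2 0 (.s k65 k125 5
  (.s k129 k193 7 (.s k66 k192 8 (.s k67 k64 0 (.d k195 k131 k130 7 8))))))] .n) (.c k235 (.l (.s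
  k125 k65 5 (.s k60 k190 8 (.s k20 k40 5 (.d k150 k215 k195 8 14))))) .n))))))))))))

def t5_50 : T TT 256 :=
  (.f k255 k170 14 (.q k105 [(.s k65 k125 5 (.s k195 k130 8 (.s k150 k60 14 (.d k215 k235 k20 5
  8))))] (.c k20 (.q k1 [(.s k169 k253 13 (.s k3 k2 0 (.s k86 k252 14 (.d k87 k84 k171 0 13)))), (.s
  k65 k125 5 (.s k169 k253 13 (.s k41 k233 7 (.s k61 k21 5 (.d k193 k129 k149 7 13))))), (.s k3 k2 0
  (.s k65 k125 5 (.s k129 k193 7 (.s k66 k192 8 (.s k67 k64 0 (.d k195 k131 k130 7 8))))))] .n) (.c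
  k60 (.q k1 [(.s k3 k2 0 (.s k87 k171 13 (.s k86 k84 0 (.d k169 k253 k252 13 14)))), (.s k65 k125 5
  (.s k169 k253 13 (.s k41 k233 7 (.s k61 k21 5 (.d k193 k129 k149 7 13))))), (.s k3 k2 0 (.s k65
  k125 5 (.s k129 k193 7 (.s k66 k192 8 (.s k67 k64 0 (.d k195 k131 k130 7 8))))))] .n) (.c k65 (.q
  k64 [(.s k106 k127 6 (.s k192 k128 7 (.s k149 k63 14 (.d k213 k234 k21 6 7)))), (.s k106 k127 6
  (.s k104 k107 0 (.s k84 k124 5 (.s k252 k168 13 (.s k253 k254 0 (.s k169 k1 13 (.d k86 k87 k3 0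
  14)))))))] (.c k106 (.f k192 k128 7 (.q k149 [(.d k213 k234 k21 6 7), (.s k193 k61 13 (.s k195
  k194 0 (.s k150 k60 14 (.d k215 k235 k20 5 8))))] (.c k42 (.l (.s k234 k213 6 (.s k193 k61 13 (.s
  k195 k194 0 (.s k150 k60 14 (.d k215 k235 k20 5 8)))))) (.c k234 (.q k42 [(.d k21 k63 k213 6 7),
  (.s k193 k61 13 (.s k195 k194 0 (.s k215 k235 5 (.d k150 k20 k60 8 14))))] .n) .n)))) (.c k127 (.l
  (.s k192 k128 7 (.s k213 k234 6 (.s k149 k21 7 (.s k193 k61 13 (.s k195 k194 0 (.s k150 k60 14 (.d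
  k215 k235 k20 5 8)))))))) .n))) (.c k125 (.q k127 [(.s k106 k64 6 (.s k63 k191 7 (.s k149 k192 14
  (.d k21 k42 k213 6 7)))), (.s k106 k64 6 (.s k107 k104 0 (.s k87 k67 5 (.s k3 k171 13 (.s k1 k2 0
  (.s k169 k253 13 (.d k86 k84 k252 0 14)))))))] (.c k64 (.l (.s k63 k191 7 (.s k21 k42 6 (.s k149
  k213 7 (.s k61 k193 13 (.s k60 k62 0 (.s k20 k40 5 (.d k150 k215 k195 8 14)))))))) (.c k106 (.f
  k63 k191 7 (.q k149 [(.d k21 k42 k213 6 7), (.s k61 k193 13 (.s k60 k62 0 (.s k20 k40 5 (.d k150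
  k215 k195 8 14))))] (.c k42 (.q k234 [(.d k213 k192 k21 6 7), (.s k61 k193 13 (.s k60 k62 0 (.s
  k20 k40 5 (.d k150 k215 k195 8 14))))] .n) (.c k234 (.l (.s k42 k21 6 (.s k61 k193 13 (.s k60 k62
  0 (.s k20 k40 5 (.d k150 k215 k195 8 14)))))) .n)))) .n))) (.c k130 (.l (.s k125 k65 5 (.s k60
  k190 8 (.s k150 k195 14 (.d k20 k40 k215 5 8))))) (.c k150 (.f k65 k125 5 (.q k1 [(.s k3 k2 0 (.s
  k87 k171 13 (.s k86 k84 0 (.d k169 k253 k252 13 14)))), (.s k169 k253 13 (.s k41 k233 7 (.s k61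
  k21 5 (.d k193 k129 k149 7 13)))), (.s k3 k2 0 (.s k129 k193 7 (.s k66 k192 8 (.s k67 k64 0 (.d
  k195 k130 k131 8 7)))))] (.c k130 (.q k190 [(.s k169 k253 13 (.s k41 k233 7 (.s k61 k21 5 (.d k193
  k129 k149 7 13)))), (.s k3 k2 0 (.s k87 k171 13 (.s k86 k84 0 (.s k67 k124 6 (.s k127 k107 5 (.d
  k64 k66 k106 0 6))))))] (.c k169 (.l (.s k3 k2 0 (.s k129 k193 7 (.s k66 k192 8 (.s k67 k64 0 (.s
  k86 k124 6 (.d k87 k84 k171 0 13))))))) .n)) (.c k190 (.l (.s k130 k195 8 (.s k3 k2 0 (.s k87 k171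
  13 (.s k86 k84 0 (.d k169 k253 k252 13 14)))))) .n)))) (.c k190 (.l (.s k65 k125 5 (.s k195 k130 8
  (.s k150 k60 14 (.d k215 k235 k20 5 8))))) (.c k195 (.q k1 [(.s k3 k2 0 (.s k87 k171 13 (.s k86
  k84 0 (.d k169 k253 k252 13 14)))), (.s k65 k125 5 (.s k169 k253 13 (.s k41 k233 7 (.s k61 k21 5
  (.d k193 k129 k149 7 13))))), (.s k3 k2 0 (.s k125 k65 5 (.s k60 k190 8 (.s k40 k20 5 (.s k41 k22
  6 (.s k21 k61 5 (.d k42 k43 k63 0 6)))))))] .n) (.c k215 (.q k1 [(.s k169 k253 13 (.s k3 k2 0 (.s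
  k86 k252 14 (.d k87 k84 k171 0 13)))), (.s k65 k125 5 (.s k169 k253 13 (.s k41 k233 7 (.s k61 k21
  5 (.d k193 k129 k149 7 13))))), (.s k3 k2 0 (.s k65 k125 5 (.s k129 k193 7 (.s k66 k192 8 (.s k67
  k64 0 (.d k195 k131 k130 7 8))))))] .n) (.c k235 (.l (.s k125 k65 5 (.s k60 k190 8 (.s k20 k40 5
  (.d k150 k215 k195 8 14))))) .n))))))))))))

def t5_51 : T TT 256 :=
  (.f k255 k170 14 (.q k105 [(.s k65 k125 5 (.s k195 k130 8 (.s k215 k235 5 (.d k150 k20 k60 8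
  14))))] (.c k20 (.q k1 [(.s k3 k2 0 (.s k87 k171 13 (.s k169 k253 13 (.d k86 k84 k252 0 14)))),
  (.s k65 k125 5 (.s k169 k253 13 (.s k41 k233 7 (.s k61 k21 5 (.d k193 k129 k149 7 13))))), (.s k3
  k2 0 (.s k65 k125 5 (.s k129 k193 7 (.s k66 k192 8 (.s k67 k64 0 (.d k195 k131 k130 7 8))))))] .n)
  (.c k60 (.f k65 k125 5 (.q k169 [(.s k1 k253 13 (.s k3 k2 0 (.s k87 k171 13 (.d k86 k84 k252 0
  14)))), (.s k1 k253 13 (.s k41 k233 7 (.s k61 k21 5 (.d k193 k129 k149 7 13)))), (.s k195 k130 8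
  (.s k233 k41 7 (.s k252 k214 6 (.s k84 k168 13 (.d k86 k3 k87 14 0)))))] (.c k54 (.q k57 [(.s k1
  k253 13 (.s k3 k2 0 (.s k87 k171 13 (.d k86 k84 k252 0 14)))), (.s k41 k233 7 (.s k9 k25 3 (.s k89
  k249 11 (.s k73 k121 3 (.d k201 k137 k153 7 11)))))] .n) (.c k57 (.q k54 [(.s k1 k253 13 (.s k3 k2
  0 (.s k87 k171 13 (.d k86 k84 k252 0 14)))), (.s k1 k253 13 (.s k41 k233 7 (.s k61 k21 5 (.d k193
  k129 k149 7 13)))), (.s k195 k130 8 (.s k233 k41 7 (.s k252 k214 6 (.s k84 k168 13 (.d k86 k3 k87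
  14 0)))))] .n) .n)))) (.c k65 (.q k1 [(.s k3 k2 0 (.s k87 k171 13 (.s k86 k84 0 (.d k169 k253 k252
  13 14)))), (.s k169 k253 13 (.s k41 k233 7 (.s k21 k61 5 (.s k63 k42 6 (.s k127 k191 7 (.s k106
  k64 6 (.d k149 k213 k192 7 14)))))))] (.c k169 (.f k3 k2 0 (.q k86 [(.d k87 k171 k84 13 0), (.s
  k67 k124 6 (.s k195 k131 7 (.s k150 k60 14 (.d k215 k235 k20 5 8))))] (.c k168 (.l (.s k171 k87 13
  (.s k67 k124 6 (.s k195 k131 7 (.s k150 k60 14 (.d k215 k235 k20 5 8)))))) (.c k171 (.q k168 [(.d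
  k84 k87 k252 0 13), (.s k67 k124 6 (.s k195 k131 7 (.s k215 k235 5 (.d k150 k20 k60 8 14))))] .n)
  .n)))) (.c k253 (.l (.s k3 k2 0 (.s k87 k171 13 (.s k86 k84 0 (.s k67 k124 6 (.s k195 k131 7 (.s
  k150 k60 14 (.d k215 k235 k20 5 8)))))))) .n))) (.c k125 (.q k253 [(.s k252 k254 0 (.s k84 k168 13
  (.s k86 k87 0 (.d k169 k1 k3 13 14)))), (.s k169 k1 13 (.s k233 k41 7 (.s k213 k193 5 (.s k192
  k234 6 (.s k64 k128 7 (.s k106 k127 6 (.d k149 k21 k63 7 14)))))))] (.c k1 (.l (.s k252 k254 0 (.s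
  k84 k168 13 (.s k86 k87 0 (.s k124 k67 6 (.s k60 k188 7 (.s k20 k40 5 (.d k150 k215 k195 8
  14)))))))) (.c k169 (.f k252 k254 0 (.q k86 [(.d k84 k168 k87 13 0), (.s k124 k67 6 (.s k60 k188 7
  (.s k20 k40 5 (.d k150 k215 k195 8 14))))] (.c k168 (.q k171 [(.d k87 k84 k3 0 13), (.s k124 k67 6
  (.s k60 k188 7 (.s k20 k40 5 (.d k150 k215 k195 8 14))))] .n) (.c k171 (.l (.s k168 k84 13 (.s
  k124 k67 6 (.s k60 k188 7 (.s k20 k40 5 (.d k150 k215 k195 8 14)))))) .n)))) .n))) (.c k130 (.l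
  (.s k125 k65 5 (.s k60 k190 8 (.s k150 k195 14 (.d k20 k40 k215 5 8))))) (.c k150 (.f k65 k125 5
  (.q k1 [(.s k3 k2 0 (.s k87 k171 13 (.s k86 k84 0 (.d k169 k253 k252 13 14)))), (.s k169 k253 13
  (.s k41 k233 7 (.s k61 k21 5 (.d k193 k129 k149 7 13)))), (.s k3 k2 0 (.s k129 k193 7 (.s k66 k192
  8 (.s k67 k64 0 (.d k195 k130 k131 8 7)))))] (.c k130 (.q k190 [(.s k3 k2 0 (.s k87 k171 13 (.s
  k86 k84 0 (.d k169 k253 k252 13 14)))), (.s k169 k253 13 (.s k41 k233 7 (.s k61 k21 5 (.d k193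
  k129 k149 7 13)))), (.s k3 k2 0 (.s k129 k193 7 (.s k66 k192 8 (.s k67 k64 0 (.s k86 k124 6 (.d
  k87 k84 k171 0 13))))))] .n) (.c k190 (.l (.s k130 k195 8 (.s k3 k2 0 (.s k87 k171 13 (.s k86 k84
  0 (.d k169 k253 k252 13 14)))))) .n)))) (.c k190 (.l (.s k65 k125 5 (.s k195 k130 8 (.s k150 k60
  14 (.d k215 k235 k20 5 8))))) (.c k195 (.f k65 k125 5 (.q k193 [(.s k1 k129 7 (.s k61 k149 13 (.s
  k169 k253 13 (.d k41 k21 k233 5 7)))), (.s k1 k129 7 (.s k3 k2 0 (.s k87 k171 13 (.s k86 k84 0 (.d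
  k169 k253 k252 13 14))))), (.s k149 k61 13 (.s k21 k213 7 (.s k63 k42 6 (.s k106 k192 14 (.d k127
  k64 k191 6 7)))))] (.c k99 (.q k147 [(.s k1 k129 7 (.s k61 k149 13 (.s k169 k253 13 (.d k41 k21
  k233 5 7)))), (.s k1 k129 7 (.s k3 k2 0 (.s k87 k171 13 (.s k86 k84 0 (.d k169 k253 k252 13
  14))))), (.s k149 k61 13 (.s k21 k213 7 (.s k63 k42 6 (.s k106 k192 14 (.d k127 k64 k191 6 7)))))]
  (.c k253 (.l (.s k1 k129 7 (.s k3 k2 0 (.s k61 k149 13 (.s k41 k21 5 (.s k87 k171 13 (.s k86 k84 0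
  (.d k169 k233 k252 7 14)))))))) .n)) (.c k147 (.q k99 [(.s k1 k129 7 (.s k61 k149 13 (.s k169 k253
  13 (.d k41 k21 k233 5 7)))), (.s k1 k129 7 (.s k3 k2 0 (.s k87 k171 13 (.s k86 k84 0 (.d k169 k253
  k252 13 14))))), (.s k149 k61 13 (.s k21 k213 7 (.s k63 k42 6 (.s k106 k192 14 (.d k127 k64 k191 6
  7)))))] (.c k253 (.l (.s k1 k129 7 (.s k3 k2 0 (.s k61 k149 13 (.s k41 k21 5 (.s k87 k171 13 (.s
  k86 k84 0 (.d k169 k233 k252 7 14)))))))) .n)) (.c k253 (.l (.s k1 k129 7 (.s k3 k2 0 (.s k61 k149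
  13 (.s k41 k21 5 (.s k87 k171 13 (.s k86 k84 0 (.d k169 k233 k252 7 14)))))))) .n))))) (.c k215
  (.q k1 [(.s k3 k2 0 (.s k87 k171 13 (.s k86 k84 0 (.d k169 k253 k252 13 14)))), (.s k65 k125 5 (.s
  k169 k253 13 (.s k41 k233 7 (.s k61 k21 5 (.d k193 k129 k149 7 13))))), (.s k3 k2 0 (.s k65 k125 5
  (.s k129 k193 7 (.s k66 k192 8 (.s k67 k64 0 (.d k195 k131 k130 7 8))))))] .n) (.c k235 (.l (.s
  k125 k65 5 (.s k60 k190 8 (.s k20 k40 5 (.d k150 k215 k195 8 14))))) .n))))))))))))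

def t5_54 : T TT 256 :=
  (.f k255 k170 14 (.q k105 [(.s k65 k125 5 (.s k195 k130 8 (.s k215 k235 5 (.d k150 k20 k60 8
  14))))] (.c k20 (.q k1 [(.s k169 k253 13 (.s k3 k2 0 (.s k86 k252 14 (.d k87 k84 k171 0 13)))),
  (.s k65 k125 5 (.s k169 k253 13 (.s k41 k233 7 (.s k61 k21 5 (.d k193 k129 k149 7 13))))), (.s k3
  k2 0 (.s k65 k125 5 (.s k129 k193 7 (.s k66 k192 8 (.s k67 k64 0 (.d k195 k131 k130 7 8))))))] .n)
  (.c k60 (.q k51 [(.s k17 k34 4 (.s k119 k187 9 (.s k102 k68 4 (.d k153 k221 k204 9 14)))), (.s k65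
  k125 5 (.s k195 k130 8 (.s k147 k99 11 (.s k215 k235 5 (.s k150 k20 8 (.s k153 k156 2 (.d k17 k34
  k221 4 9))))))), (.s k65 k125 5 (.s k195 k130 8 (.s k99 k147 11 (.s k102 k108 2 (.d k119 k68 k187
  4 9)))))] (.c k204 (.l (.s k65 k125 5 (.s k119 k187 9 (.s k102 k68 4 (.s k195 k130 8 (.d k99 k108
  k147 2 11)))))) .n)) (.c k65 (.q k1 [(.s k169 k253 13 (.s k3 k2 0 (.s k86 k252 14 (.d k87 k84 k171
  0 13)))), (.s k169 k253 13 (.s k41 k233 7 (.s k21 k61 5 (.s k63 k42 6 (.s k127 k191 7 (.s k106 k64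
  6 (.d k149 k213 k192 7 14)))))))] (.c k169 (.f k3 k2 0 (.q k86 [(.d k87 k171 k84 13 0), (.s k67
  k124 6 (.s k195 k131 7 (.s k150 k60 14 (.d k215 k235 k20 5 8))))] (.c k168 (.l (.s k171 k87 13 (.s
  k67 k124 6 (.s k195 k131 7 (.s k150 k60 14 (.d k215 k235 k20 5 8)))))) (.c k171 (.q k168 [(.d k84
  k87 k252 0 13), (.s k67 k124 6 (.s k195 k131 7 (.s k215 k235 5 (.d k150 k20 k60 8 14))))] .n)
  .n)))) (.c k253 (.l (.s k3 k2 0 (.s k87 k171 13 (.s k86 k84 0 (.s k67 k124 6 (.s k195 k131 7 (.s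
  k150 k60 14 (.d k215 k235 k20 5 8)))))))) .n))) (.c k125 (.q k253 [(.s k252 k254 0 (.s k84 k168 13
  (.s k86 k87 0 (.d k169 k1 k3 13 14)))), (.s k169 k1 13 (.s k233 k41 7 (.s k213 k193 5 (.s k192
  k234 6 (.s k64 k128 7 (.s k106 k127 6 (.d k149 k21 k63 7 14)))))))] (.c k1 (.l (.s k252 k254 0 (.s
  k84 k168 13 (.s k86 k87 0 (.s k124 k67 6 (.s k60 k188 7 (.s k20 k40 5 (.d k150 k215 k195 8
  14)))))))) (.c k169 (.f k252 k254 0 (.q k86 [(.d k84 k168 k87 13 0), (.s k124 k67 6 (.s k60 k188 7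
  (.s k20 k40 5 (.d k150 k215 k195 8 14))))] (.c k168 (.q k171 [(.d k87 k84 k3 0 13), (.s k124 k67 6
  (.s k60 k188 7 (.s k20 k40 5 (.d k150 k215 k195 8 14))))] .n) (.c k171 (.l (.s k168 k84 13 (.s
  k124 k67 6 (.s k60 k188 7 (.s k20 k40 5 (.d k150 k215 k195 8 14)))))) .n)))) .n))) (.c k130 (.l
  (.s k125 k65 5 (.s k60 k190 8 (.s k150 k195 14 (.d k20 k40 k215 5 8))))) (.c k150 (.f k65 k125 5
  (.f k130 k195 8 (.q k193 [(.s k1 k129 7 (.s k149 k61 13 (.s k213 k21 7 (.d k253 k233 k169 5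
  13)))), (.s k1 k129 7 (.s k3 k2 0 (.s k87 k171 13 (.s k86 k84 0 (.d k169 k253 k252 13 14))))), (.s
  k149 k61 13 (.s k21 k213 7 (.s k63 k42 6 (.s k106 k192 14 (.d k127 k64 k191 6 7)))))] (.c k102 (.q
  k198 [(.s k1 k129 7 (.s k149 k61 13 (.s k213 k21 7 (.d k253 k233 k169 5 13)))), (.s k1 k129 7 (.s
  k3 k2 0 (.s k87 k171 13 (.s k86 k84 0 (.d k169 k253 k252 13 14))))), (.s k149 k61 13 (.s k21 k213
  7 (.s k63 k42 6 (.s k106 k192 14 (.d k127 k64 k191 6 7)))))] (.c k34 (.q k238 [(.s k1 k129 7 (.s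
  k149 k61 13 (.s k213 k21 7 (.d k253 k233 k169 5 13)))), (.s k1 k129 7 (.s k3 k2 0 (.s k87 k171 13
  (.s k86 k84 0 (.d k169 k253 k252 13 14))))), (.s k149 k61 13 (.s k21 k213 7 (.s k63 k42 6 (.s k106
  k192 14 (.d k127 k64 k191 6 7)))))] (.c k253 (.l (.s k129 k1 7 (.s k128 k131 0 (.s k192 k64 7 (.s
  k213 k234 6 (.d k149 k21 k61 7 13)))))) .n)) (.c k238 (.q k34 [(.s k1 k129 7 (.s k149 k61 13 (.s
  k213 k21 7 (.d k253 k233 k169 5 13)))), (.s k1 k129 7 (.s k3 k2 0 (.s k87 k171 13 (.s k86 k84 0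
  (.d k169 k253 k252 13 14))))), (.s k149 k61 13 (.s k21 k213 7 (.s k63 k42 6 (.s k106 k192 14 (.d
  k127 k64 k191 6 7)))))] (.c k253 (.l (.s k129 k1 7 (.s k128 k131 0 (.s k192 k64 7 (.s k213 k234 6
  (.d k149 k21 k61 7 13)))))) .n)) (.c k253 (.l (.s k129 k1 7 (.s k128 k131 0 (.s k192 k64 7 (.s
  k213 k234 6 (.d k149 k21 k61 7 13)))))) .n)))) (.c k198 (.q k102 [(.s k1 k129 7 (.s k149 k61 13
  (.s k213 k21 7 (.d k253 k233 k169 5 13)))), (.s k68 k119 4 (.s k204 k136 9 (.s k153 k51 14 (.d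
  k221 k238 k17 4 9))))] (.c k201 (.q k204 [(.d k68 k119 k136 4 9), (.s k153 k51 14 (.d k221 k238
  k17 4 9))] .n) (.c k204 (.q k201 [(.s k119 k68 4 (.s k51 k187 9 (.s k17 k34 4 (.d k153 k221 k57 9
  11)))), (.s k1 k129 7 (.s k61 k149 13 (.s k41 k21 5 (.d k169 k233 k253 7 13))))] .n) .n))) (.c
  k253 (.l (.s k129 k1 7 (.s k128 k131 0 (.s k192 k64 7 (.s k213 k234 6 (.d k149 k21 k61 7 13))))))
  .n)))))) (.c k190 (.l (.s k65 k125 5 (.s k195 k130 8 (.s k150 k60 14 (.d k215 k235 k20 5 8)))))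
  (.c k195 (.q k1 [(.s k3 k2 0 (.s k87 k171 13 (.s k86 k84 0 (.d k169 k253 k252 13 14)))), (.s k65
  k125 5 (.s k169 k253 13 (.s k41 k233 7 (.s k61 k21 5 (.d k193 k129 k149 7 13))))), (.s k3 k2 0 (.s
  k125 k65 5 (.s k60 k190 8 (.s k40 k20 5 (.s k41 k22 6 (.s k21 k61 5 (.d k42 k43 k63 0 6)))))))]
  .n) (.c k215 (.q k1 [(.s k169 k253 13 (.s k3 k2 0 (.s k86 k252 14 (.d k87 k84 k171 0 13)))), (.s
  k65 k125 5 (.s k169 k253 13 (.s k41 k233 7 (.s k61 k21 5 (.d k193 k129 k149 7 13))))), (.s k3 k2 0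
  (.s k65 k125 5 (.s k129 k193 7 (.s k66 k192 8 (.s k67 k64 0 (.d k195 k131 k130 7 8))))))] .n) (.c
  k235 (.l (.s k125 k65 5 (.s k60 k190 8 (.s k20 k40 5 (.d k150 k215 k195 8 14))))) .n))))))))))))

def t5_58 : T TT 256 :=
  (.f k255 k170 14 (.q k105 [(.s k65 k125 5 (.s k195 k130 8 (.s k150 k60 14 (.d k215 k235 k20 5
  8))))] (.c k20 (.q k1 [(.s k169 k253 13 (.s k3 k2 0 (.s k86 k252 14 (.d k87 k84 k171 0 13)))), (.s
  k65 k125 5 (.s k169 k253 13 (.s k41 k233 7 (.s k61 k21 5 (.d k193 k129 k149 7 13))))), (.s k3 k2 0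
  (.s k65 k125 5 (.s k129 k193 7 (.s k66 k192 8 (.s k67 k64 0 (.d k195 k131 k130 7 8))))))] .n) (.c
  k60 (.q k1 [(.s k3 k2 0 (.s k87 k171 13 (.s k86 k84 0 (.d k169 k253 k252 13 14)))), (.s k65 k125 5
  (.s k169 k253 13 (.s k41 k233 7 (.s k61 k21 5 (.d k193 k129 k149 7 13))))), (.s k3 k2 0 (.s k65
  k125 5 (.s k129 k193 7 (.s k66 k192 8 (.s k67 k64 0 (.d k195 k131 k130 7 8))))))] .n) (.c k65 (.q
  k1 [(.s k169 k253 13 (.s k3 k2 0 (.s k86 k252 14 (.d k87 k84 k171 0 13)))), (.s k169 k253 13 (.s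
  k41 k233 7 (.s k21 k61 5 (.s k63 k42 6 (.s k127 k191 7 (.s k106 k64 6 (.d k149 k213 k192 7
  14)))))))] (.c k169 (.f k3 k2 0 (.q k86 [(.d k87 k171 k84 13 0), (.s k67 k124 6 (.s k195 k131 7
  (.s k150 k60 14 (.d k215 k235 k20 5 8))))] (.c k168 (.l (.s k171 k87 13 (.s k67 k124 6 (.s k195
  k131 7 (.s k150 k60 14 (.d k215 k235 k20 5 8)))))) (.c k171 (.q k168 [(.d k84 k87 k252 0 13), (.s
  k67 k124 6 (.s k195 k131 7 (.s k215 k235 5 (.d k150 k20 k60 8 14))))] .n) .n)))) (.c k253 (.l (.s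
  k3 k2 0 (.s k87 k171 13 (.s k86 k84 0 (.s k67 k124 6 (.s k195 k131 7 (.s k150 k60 14 (.d k215 k235
  k20 5 8)))))))) .n))) (.c k125 (.q k253 [(.s k252 k254 0 (.s k84 k168 13 (.s k86 k87 0 (.d k169 k1
  k3 13 14)))), (.s k169 k1 13 (.s k233 k41 7 (.s k213 k193 5 (.s k192 k234 6 (.s k64 k128 7 (.s
  k106 k127 6 (.d k149 k21 k63 7 14)))))))] (.c k1 (.l (.s k252 k254 0 (.s k84 k168 13 (.s k86 k87 0
  (.s k124 k67 6 (.s k60 k188 7 (.s k20 k40 5 (.d k150 k215 k195 8 14)))))))) (.c k169 (.f k252 k254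
  0 (.q k86 [(.d k84 k168 k87 13 0), (.s k124 k67 6 (.s k60 k188 7 (.s k20 k40 5 (.d k150 k215 k195
  8 14))))] (.c k168 (.q k171 [(.d k87 k84 k3 0 13), (.s k124 k67 6 (.s k60 k188 7 (.s k20 k40 5 (.d
  k150 k215 k195 8 14))))] .n) (.c k171 (.l (.s k168 k84 13 (.s k124 k67 6 (.s k60 k188 7 (.s k20
  k40 5 (.d k150 k215 k195 8 14)))))) .n)))) .n))) (.c k130 (.l (.s k125 k65 5 (.s k60 k190 8 (.s
  k150 k195 14 (.d k20 k40 k215 5 8))))) (.c k150 (.f k65 k125 5 (.q k193 [(.s k1 k129 7 (.s k149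
  k61 13 (.s k213 k21 7 (.d k253 k233 k169 5 13)))), (.s k1 k129 7 (.s k3 k2 0 (.s k87 k171 13 (.s
  k86 k84 0 (.s k67 k124 6 (.d k195 k130 k131 8 7)))))), (.s k149 k61 13 (.s k21 k213 7 (.s k63 k42
  6 (.s k106 k192 14 (.d k127 k64 k191 6 7)))))] (.c k130 (.q k190 [(.s k149 k61 13 (.s k213 k21 7
  (.s k253 k233 5 (.d k1 k129 k169 7 13)))), (.s k1 k129 7 (.s k3 k2 0 (.s k87 k171 13 (.s k86 k84 0
  (.d k169 k253 k252 13 14))))), (.s k149 k61 13 (.s k21 k213 7 (.s k63 k42 6 (.s k106 k192 14 (.d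
  k127 k64 k191 6 7)))))] (.c k253 (.l (.s k129 k1 7 (.s k149 k61 13 (.s k189 k169 5 (.s k21 k213 7
  (.s k63 k42 6 (.d k191 k188 k127 0 7))))))) .n)) (.c k190 (.l (.s k130 k195 8 (.s k1 k129 7 (.s
  k61 k149 13 (.s k41 k21 5 (.d k169 k233 k253 7 13)))))) .n)))) (.c k190 (.l (.s k65 k125 5 (.s
  k195 k130 8 (.s k150 k60 14 (.d k215 k235 k20 5 8))))) (.c k195 (.q k1 [(.s k3 k2 0 (.s k87 k171
  13 (.s k86 k84 0 (.d k169 k253 k252 13 14)))), (.s k65 k125 5 (.s k169 k253 13 (.s k41 k233 7 (.s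
  k61 k21 5 (.d k193 k129 k149 7 13))))), (.s k3 k2 0 (.s k125 k65 5 (.s k60 k190 8 (.s k40 k20 5
  (.s k41 k22 6 (.s k21 k61 5 (.d k42 k43 k63 0 6)))))))] .n) (.c k215 (.q k1 [(.s k169 k253 13 (.s
  k3 k2 0 (.s k86 k252 14 (.d k87 k84 k171 0 13)))), (.s k65 k125 5 (.s k169 k253 13 (.s k41 k233 7
  (.s k61 k21 5 (.d k193 k129 k149 7 13))))), (.s k3 k2 0 (.s k65 k125 5 (.s k129 k193 7 (.s k66
  k192 8 (.s k67 k64 0 (.d k195 k131 k130 7 8))))))] .n) (.c k235 (.l (.s k125 k65 5 (.s k60 k190 8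
  (.s k20 k40 5 (.d k150 k215 k195 8 14))))) .n))))))))))))

def t5_59 : T TT 256 :=
  (.f k255 k170 14 (.q k105 [(.s k65 k125 5 (.s k195 k130 8 (.s k150 k60 14 (.d k215 k235 k20 5
  8))))] (.c k20 (.q k1 [(.s k169 k253 13 (.s k3 k2 0 (.s k86 k252 14 (.d k87 k84 k171 0 13)))), (.s
  k65 k125 5 (.s k169 k253 13 (.s k41 k233 7 (.s k61 k21 5 (.d k193 k129 k149 7 13))))), (.s k3 k2 0
  (.s k65 k125 5 (.s k129 k193 7 (.s k66 k192 8 (.s k67 k64 0 (.d k195 k131 k130 7 8))))))] .n) (.c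
  k60 (.q k1 [(.s k3 k2 0 (.s k87 k171 13 (.s k86 k84 0 (.d k169 k253 k252 13 14)))), (.s k65 k125 5
  (.s k169 k253 13 (.s k41 k233 7 (.s k61 k21 5 (.d k193 k129 k149 7 13))))), (.s k3 k2 0 (.s k65
  k125 5 (.s k129 k193 7 (.s k66 k192 8 (.s k67 k64 0 (.d k195 k131 k130 7 8))))))] .n) (.c k65 (.q
  k1 [(.s k169 k253 13 (.s k3 k2 0 (.s k86 k252 14 (.d k87 k84 k171 0 13)))), (.s k169 k253 13 (.s
  k41 k233 7 (.s k21 k61 5 (.s k63 k42 6 (.s k127 k191 7 (.s k106 k64 6 (.d k149 k213 k192 7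
  14)))))))] (.c k169 (.f k3 k2 0 (.q k86 [(.d k87 k171 k84 13 0), (.s k67 k124 6 (.s k195 k131 7
  (.s k150 k60 14 (.d k215 k235 k20 5 8))))] (.c k168 (.l (.s k171 k87 13 (.s k67 k124 6 (.s k195
  k131 7 (.s k150 k60 14 (.d k215 k235 k20 5 8)))))) (.c k171 (.q k168 [(.d k84 k87 k252 0 13), (.s
  k67 k124 6 (.s k195 k131 7 (.s k215 k235 5 (.d k150 k20 k60 8 14))))] .n) .n)))) (.c k253 (.l (.s
  k3 k2 0 (.s k87 k171 13 (.s k86 k84 0 (.s k67 k124 6 (.s k195 k131 7 (.s k150 k60 14 (.d k215 k235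
  k20 5 8)))))))) .n))) (.c k125 (.q k253 [(.s k252 k254 0 (.s k84 k168 13 (.s k86 k87 0 (.d k169 k1
  k3 13 14)))), (.s k169 k1 13 (.s k233 k41 7 (.s k213 k193 5 (.s k192 k234 6 (.s k64 k128 7 (.s
  k106 k127 6 (.d k149 k21 k63 7 14)))))))] (.c k1 (.l (.s k252 k254 0 (.s k84 k168 13 (.s k86 k87 0
  (.s k124 k67 6 (.s k60 k188 7 (.s k20 k40 5 (.d k150 k215 k195 8 14)))))))) (.c k169 (.f k252 k254
  0 (.q k86 [(.d k84 k168 k87 13 0), (.s k124 k67 6 (.s k60 k188 7 (.s k20 k40 5 (.d k150 k215 k195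
  8 14))))] (.c k168 (.q k171 [(.d k87 k84 k3 0 13), (.s k124 k67 6 (.s k60 k188 7 (.s k20 k40 5 (.d
  k150 k215 k195 8 14))))] .n) (.c k171 (.l (.s k168 k84 13 (.s k124 k67 6 (.s k60 k188 7 (.s k20
  k40 5 (.d k150 k215 k195 8 14)))))) .n)))) .n))) (.c k130 (.l (.s k125 k65 5 (.s k60 k190 8 (.s
  k150 k195 14 (.d k20 k40 k215 5 8))))) (.c k150 (.f k65 k125 5 (.q k1 [(.s k3 k2 0 (.s k87 k171 13
  (.s k86 k84 0 (.d k169 k253 k252 13 14)))), (.s k169 k253 13 (.s k41 k233 7 (.s k61 k21 5 (.d k193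
  k129 k149 7 13)))), (.s k3 k2 0 (.s k129 k193 7 (.s k66 k192 8 (.s k67 k64 0 (.d k195 k130 k131 8
  7)))))] (.c k130 (.q k190 [(.s k3 k2 0 (.s k87 k171 13 (.s k86 k84 0 (.d k169 k253 k252 13 14)))),
  (.s k169 k253 13 (.s k41 k233 7 (.s k61 k21 5 (.d k193 k129 k149 7 13)))), (.s k3 k2 0 (.s k129
  k193 7 (.s k66 k192 8 (.s k67 k64 0 (.s k86 k124 6 (.d k87 k84 k171 0 13))))))] .n) (.c k190 (.l
  (.s k130 k195 8 (.s k3 k2 0 (.s k87 k171 13 (.s k86 k84 0 (.d k169 k253 k252 13 14)))))) .n))))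
  (.c k190 (.l (.s k65 k125 5 (.s k195 k130 8 (.s k150 k60 14 (.d k215 k235 k20 5 8))))) (.c k195
  (.q k1 [(.s k3 k2 0 (.s k87 k171 13 (.s k86 k84 0 (.d k169 k253 k252 13 14)))), (.s k65 k125 5 (.s
  k169 k253 13 (.s k41 k233 7 (.s k61 k21 5 (.d k193 k129 k149 7 13))))), (.s k3 k2 0 (.s k125 k65 5
  (.s k60 k190 8 (.s k40 k20 5 (.s k41 k22 6 (.s k21 k61 5 (.d k42 k43 k63 0 6)))))))] .n) (.c k215
  (.q k1 [(.s k169 k253 13 (.s k3 k2 0 (.s k86 k252 14 (.d k87 k84 k171 0 13)))), (.s k65 k125 5 (.s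
  k169 k253 13 (.s k41 k233 7 (.s k61 k21 5 (.d k193 k129 k149 7 13))))), (.s k3 k2 0 (.s k65 k125 5
  (.s k129 k193 7 (.s k66 k192 8 (.s k67 k64 0 (.d k195 k131 k130 7 8))))))] .n) (.c k235 (.l (.s
  k125 k65 5 (.s k60 k190 8 (.s k20 k40 5 (.d k150 k215 k195 8 14))))) .n))))))))))))

def t5_63 : T TT 256 :=
  (.f k255 k170 14 (.q k89 [(.s k81 k93 1 (.s k243 k162 12 (.s k247 k251 1 (.d k166 k4 k12 12
  14))))] (.c k4 (.f k81 k93 1 (.q k87 [(.s k3 k171 13 (.s k1 k2 0 (.s k86 k84 0 (.d k169 k253 k252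
  13 14)))), (.s k86 k84 0 (.s k83 k92 2 (.s k80 k82 0 (.d k95 k91 k90 1 2)))), (.s k3 k171 13 (.s
  k243 k162 12 (.s k83 k163 11 (.s k80 k82 0 (.d k95 k91 k90 1 2)))))] (.c k6 (.q k7 [(.s k247 k167
  11 (.d k243 k251 k162 1 12)), (.s k3 k171 13 (.s k1 k2 0 (.s k86 k84 0 (.d k169 k253 k252 13
  14))))] .n) (.c k7 (.q k6 [(.s k86 k84 0 (.s k166 k246 11 (.d k243 k162 k12 12 14))), (.s k3 k171
  13 (.s k1 k2 0 (.s k9 k12 2 (.d k169 k249 k253 11 13))))] (.c k12 (.l (.s k3 k171 13 (.s k1 k2 0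
  (.s k86 k84 0 (.d k169 k253 k252 13 14))))) (.c k86 (.l (.s k3 k171 13 (.s k12 k9 2 (.d k243 k162
  k166 12 14)))) .n))) .n)))) (.c k12 (.q k29 [(.s k93 k81 1 (.s k149 k209 9 (.s k21 k213 7 (.s k17
  k25 1 (.d k221 k157 k153 7 9))))), (.s k93 k81 1 (.s k221 k157 7 (.s k204 k238 4 (.s k68 k136 9
  (.s k102 k119 4 (.d k153 k17 k51 9 14)))))), (.s k149 k209 9 (.s k21 k213 7 (.s k17 k25 1 (.s k51
  k34 4 (.s k119 k187 9 (.s k102 k68 4 (.d k153 k221 k204 9 14))))))), (.s k81 k93 1 (.s k209 k149 9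
  (.s k145 k17 7 (.s k243 k162 12 (.s k192 k226 4 (.s k98 k51 12 (.d k64 k128 k115 7 4)))))))] (.c
  k17 (.q k1 [(.s k3 k2 0 (.s k87 k171 13 (.s k86 k84 0 (.d k169 k253 k252 13 14)))), (.s k81 k93 1
  (.s k149 k209 9 (.s k21 k213 7 (.s k61 k41 5 (.s k13 k45 3 (.d k241 k161 k165 11 13))))))] .n) (.c
  k51 (.l (.s k81 k93 1 (.s k209 k149 9 (.s k17 k145 7 (.s k25 k21 1 (.d k153 k217 k221 7 9))))))
  .n))) (.c k81 (.q k215 [(.s k150 k20 8 (.s k195 k235 5 (.s k65 k130 8 (.d k105 k125 k60 5 14)))),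
  (.s k150 k20 8 (.s k211 k28 10 (.s k223 k219 1 (.s k207 k239 3 (.s k69 k138 10 (.s k101 k117 3 (.d
  k154 k16 k48 10 14)))))))] (.c k20 (.l (.s k195 k235 5 (.s k65 k130 8 (.s k105 k125 5 (.s k73 k121
  3 (.s k12 k134 10 (.s k4 k8 1 (.d k166 k247 k243 12 14)))))))) (.c k150 (.f k195 k235 5 (.q k105
  [(.d k65 k130 k125 8 5), (.s k73 k121 3 (.s k12 k134 10 (.s k4 k8 1 (.d k166 k247 k243 12 14))))]
  (.c k130 (.q k190 [(.d k125 k65 k60 5 8), (.s k73 k121 3 (.s k12 k134 10 (.s k4 k8 1 (.d k166 k247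
  k243 12 14))))] .n) (.c k190 (.l (.s k130 k65 8 (.s k73 k121 3 (.s k12 k134 10 (.s k4 k8 1 (.d
  k166 k247 k243 12 14)))))) .n)))) .n))) (.c k93 (.q k223 [(.s k154 k16 10 (.s k207 k239 3 (.s k69
  k138 10 (.d k101 k117 k48 3 14)))), (.s k154 k16 10 (.s k219 k24 8 (.s k215 k211 1 (.s k195 k235 5
  (.s k65 k130 8 (.s k105 k125 5 (.d k150 k20 k60 8 14)))))))] (.c k16 (.l (.s k207 k239 3 (.s k69
  k138 10 (.s k101 k117 3 (.s k77 k113 5 (.s k12 k142 8 (.s k4 k8 1 (.d k166 k247 k243 12 14))))))))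
  (.c k154 (.f k207 k239 3 (.q k101 [(.d k69 k138 k117 10 3), (.s k77 k113 5 (.s k12 k142 8 (.s k4
  k8 1 (.d k166 k247 k243 12 14))))] (.c k138 (.q k186 [(.d k117 k69 k48 3 10), (.s k77 k113 5 (.s
  k12 k142 8 (.s k4 k8 1 (.d k166 k247 k243 12 14))))] .n) (.c k186 (.l (.s k138 k69 10 (.s k77 k113
  5 (.s k12 k142 8 (.s k4 k8 1 (.d k166 k247 k243 12 14)))))) .n)))) .n))) (.c k162 (.l (.s k93 k81
  1 (.s k12 k174 12 (.s k166 k243 14 (.d k4 k8 k247 1 12))))) (.c k166 (.f k93 k81 1 (.q k101 [(.s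
  k69 k117 3 (.s k77 k113 5 (.s k65 k73 1 (.d k125 k109 k105 3 5)))), (.s k69 k117 3 (.s k207 k138
  10 (.s k154 k48 14 (.d k223 k239 k16 3 10)))), (.s k77 k113 5 (.s k125 k109 3 (.s k60 k190 8 (.s
  k20 k40 5 (.s k150 k215 8 (.d k105 k65 k195 5 14))))))] (.c k162 (.l (.s k174 k12 12 (.s k69 k117
  3 (.s k77 k113 5 (.s k65 k73 1 (.d k125 k109 k105 3 5)))))) (.c k174 (.q k162 [(.s k69 k117 3 (.s
  k77 k113 5 (.s k65 k73 1 (.d k125 k109 k105 3 5)))), (.s k69 k117 3 (.s k207 k138 10 (.s k154 k48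
  14 (.d k223 k239 k16 3 10)))), (.s k77 k113 5 (.s k125 k109 3 (.s k60 k190 8 (.s k20 k40 5 (.s
  k150 k215 8 (.d k105 k65 k195 5 14))))))] .n) .n)))) (.c k174 (.l (.s k81 k93 1 (.s k243 k162 12
  (.s k166 k12 14 (.d k247 k251 k4 1 12))))) (.c k243 (.f k93 k81 1 (.q k204 [(.s k68 k136 9 (.s
  k102 k119 4 (.s k221 k238 4 (.d k153 k17 k51 9 14)))), (.s k12 k174 12 (.s k68 k136 9 (.s k76 k140
  7 (.s k64 k72 1 (.d k127 k110 k106 4 6))))), (.s k12 k174 12 (.s k76 k140 7 (.s k102 k115 6 (.s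
  k221 k238 4 (.d k153 k51 k17 14 9)))))] (.c k123 (.q k183 [(.s k68 k136 9 (.s k221 k238 4 (.s k153
  k17 9 (.d k102 k119 k51 4 14)))), (.s k12 k174 12 (.s k4 k8 1 (.s k68 k136 9 (.s k132 k196 7 (.d
  k166 k149 k247 4 12))))), (.s k12 k174 12 (.s k76 k140 7 (.s k102 k115 6 (.s k221 k238 4 (.d k153
  k51 k17 14 9)))))] (.c k153 (.l (.s k12 k174 12 (.s k76 k140 7 (.s k102 k115 6 (.d k68 k119 k136 4
  9))))) .n)) (.c k153 (.l (.s k12 k174 12 (.s k76 k140 7 (.s k102 k115 6 (.d k68 k119 k136 4 9)))))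
  (.c k183 (.q k123 [(.s k12 k174 12 (.s k76 k140 7 (.s k106 k72 4 (.d k127 k110 k64 4 6)))), (.s
  k68 k136 9 (.s k72 k106 4 (.s k76 k64 1 (.d k102 k115 k119 6 4)))), (.s k12 k174 12 (.s k68 k136 9
  (.s k76 k140 7 (.d k102 k119 k115 4 6))))] (.c k76 (.l (.s k12 k174 12 (.s k8 k4 1 (.s k72 k106 4
  (.d k136 k200 k68 7 9))))) .n)) .n))))) (.c k247 (.q k1 [(.s k3 k2 0 (.s k87 k171 13 (.s k86 k84 0
  (.d k169 k253 k252 13 14)))), (.s k81 k93 1 (.s k241 k161 11 (.s k243 k162 12 (.s k253 k169 13 (.s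
  k245 k249 1 (.d k240 k242 k250 0 2)))))), (.s k3 k2 0 (.s k81 k93 1 (.s k161 k241 11 (.s k82 k240
  12 (.s k83 k80 0 (.d k243 k163 k162 11 12))))))] .n) (.c k251 (.l (.s k93 k81 1 (.s k12 k174 12
  (.s k4 k8 1 (.d k166 k247 k243 12 14))))) .n))))))))))))

def t5_80 : T TT 256 :=
  (.f k255 k170 14 (.q k105 [(.s k65 k125 5 (.s k195 k130 8 (.s k150 k60 14 (.d k215 k235 k20 5
  8))))] (.c k20 (.q k1 [(.s k169 k253 13 (.s k3 k2 0 (.s k86 k252 14 (.d k87 k84 k171 0 13)))), (.s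
  k65 k125 5 (.s k169 k253 13 (.s k41 k233 7 (.s k61 k21 5 (.d k193 k129 k149 7 13))))), (.s k3 k2 0
  (.s k65 k125 5 (.s k129 k193 7 (.s k66 k192 8 (.s k67 k64 0 (.d k195 k131 k130 7 8))))))] .n) (.c
  k60 (.q k1 [(.s k3 k2 0 (.s k87 k171 13 (.s k169 k253 13 (.d k86 k84 k252 0 14)))), (.s k65 k125 5
  (.s k169 k253 13 (.s k41 k233 7 (.s k61 k21 5 (.d k193 k129 k149 7 13))))), (.s k3 k2 0 (.s k65
  k125 5 (.s k129 k193 7 (.s k66 k192 8 (.s k67 k64 0 (.d k195 k131 k130 7 8))))))] .n) (.c k65 (.q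
  k1 [(.s k169 k253 13 (.s k3 k2 0 (.s k86 k252 14 (.d k87 k84 k171 0 13)))), (.s k169 k253 13 (.s
  k41 k233 7 (.s k21 k61 5 (.s k63 k42 6 (.s k127 k191 7 (.s k106 k64 6 (.d k149 k213 k192 7
  14)))))))] (.c k169 (.f k3 k2 0 (.q k86 [(.d k87 k171 k84 13 0), (.s k67 k124 6 (.s k195 k131 7
  (.s k150 k60 14 (.d k215 k235 k20 5 8))))] (.c k168 (.l (.s k171 k87 13 (.s k67 k124 6 (.s k195
  k131 7 (.s k150 k60 14 (.d k215 k235 k20 5 8)))))) (.c k171 (.q k168 [(.d k84 k87 k252 0 13), (.s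
  k67 k124 6 (.s k195 k131 7 (.s k215 k235 5 (.d k150 k20 k60 8 14))))] .n) .n)))) (.c k253 (.l (.s
  k3 k2 0 (.s k87 k171 13 (.s k86 k84 0 (.s k67 k124 6 (.s k195 k131 7 (.s k150 k60 14 (.d k215 k235
  k20 5 8)))))))) .n))) (.c k125 (.q k253 [(.s k252 k254 0 (.s k84 k168 13 (.s k86 k87 0 (.d k169 k1
  k3 13 14)))), (.s k169 k1 13 (.s k233 k41 7 (.s k213 k193 5 (.s k192 k234 6 (.s k64 k128 7 (.s
  k106 k127 6 (.d k149 k21 k63 7 14)))))))] (.c k1 (.l (.s k252 k254 0 (.s k84 k168 13 (.s k86 k87 0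
  (.s k124 k67 6 (.s k60 k188 7 (.s k20 k40 5 (.d k150 k215 k195 8 14)))))))) (.c k169 (.f k252 k254
  0 (.q k86 [(.d k84 k168 k87 13 0), (.s k124 k67 6 (.s k60 k188 7 (.s k20 k40 5 (.d k150 k215 k195
  8 14))))] (.c k168 (.q k171 [(.d k87 k84 k3 0 13), (.s k124 k67 6 (.s k60 k188 7 (.s k20 k40 5 (.d
  k150 k215 k195 8 14))))] .n) (.c k171 (.l (.s k168 k84 13 (.s k124 k67 6 (.s k60 k188 7 (.s k20
  k40 5 (.d k150 k215 k195 8 14)))))) .n)))) .n))) (.c k130 (.l (.s k125 k65 5 (.s k60 k190 8 (.s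
  k150 k195 14 (.d k20 k40 k215 5 8))))) (.c k150 (.f k65 k125 5 (.q k193 [(.s k1 k129 7 (.s k149
  k61 13 (.s k213 k21 7 (.d k253 k233 k169 5 13)))), (.s k1 k129 7 (.s k3 k2 0 (.s k87 k171 13 (.s
  k86 k84 0 (.s k67 k124 6 (.d k195 k130 k131 8 7)))))), (.s k149 k61 13 (.s k21 k213 7 (.s k63 k42
  6 (.s k106 k192 14 (.d k127 k64 k191 6 7)))))] (.c k130 (.q k190 [(.s k149 k61 13 (.s k213 k21 7
  (.s k253 k233 5 (.d k1 k129 k169 7 13)))), (.s k1 k129 7 (.s k3 k2 0 (.s k87 k171 13 (.s k86 k84 0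
  (.d k169 k253 k252 13 14))))), (.s k149 k61 13 (.s k21 k213 7 (.s k63 k42 6 (.s k106 k192 14 (.d
  k127 k64 k191 6 7)))))] (.c k253 (.l (.s k129 k1 7 (.s k149 k61 13 (.s k189 k169 5 (.s k21 k213 7
  (.s k63 k42 6 (.d k191 k188 k127 0 7))))))) .n)) (.c k190 (.l (.s k130 k195 8 (.s k1 k129 7 (.s
  k61 k149 13 (.s k41 k21 5 (.d k169 k233 k253 7 13)))))) .n)))) (.c k190 (.l (.s k65 k125 5 (.s
  k195 k130 8 (.s k150 k60 14 (.d k215 k235 k20 5 8))))) (.c k195 (.q k1 [(.s k3 k2 0 (.s k87 k171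
  13 (.s k169 k253 13 (.d k86 k84 k252 0 14)))), (.s k65 k125 5 (.s k169 k253 13 (.s k41 k233 7 (.s
  k61 k21 5 (.d k193 k129 k149 7 13))))), (.s k3 k2 0 (.s k125 k65 5 (.s k60 k190 8 (.s k40 k20 5
  (.s k41 k22 6 (.s k21 k61 5 (.d k42 k43 k63 0 6)))))))] .n) (.c k215 (.q k1 [(.s k169 k253 13 (.s
  k3 k2 0 (.s k86 k252 14 (.d k87 k84 k171 0 13)))), (.s k65 k125 5 (.s k169 k253 13 (.s k41 k233 7
  (.s k61 k21 5 (.d k193 k129 k149 7 13))))), (.s k3 k2 0 (.s k65 k125 5 (.s k129 k193 7 (.s k66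
  k192 8 (.s k67 k64 0 (.d k195 k131 k130 7 8))))))] .n) (.c k235 (.l (.s k125 k65 5 (.s k60 k190 8
  (.s k20 k40 5 (.d k150 k215 k195 8 14))))) .n))))))))))))

def t5_82 : T TT 256 :=
  (.f k255 k170 14 (.q k105 [(.s k65 k125 5 (.s k195 k130 8 (.s k150 k60 14 (.d k215 k235 k20 5
  8))))] (.c k20 (.q k1 [(.s k169 k253 13 (.s k3 k2 0 (.s k86 k252 14 (.d k87 k84 k171 0 13)))), (.s
  k65 k125 5 (.s k169 k253 13 (.s k41 k233 7 (.s k61 k21 5 (.d k193 k129 k149 7 13))))), (.s k3 k2 0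
  (.s k65 k125 5 (.s k129 k193 7 (.s k66 k192 8 (.s k67 k64 0 (.d k195 k131 k130 7 8))))))] .n) (.c
  k60 (.q k1 [(.s k3 k2 0 (.s k87 k171 13 (.s k86 k84 0 (.d k169 k253 k252 13 14)))), (.s k65 k125 5
  (.s k169 k253 13 (.s k41 k233 7 (.s k61 k21 5 (.d k193 k129 k149 7 13))))), (.s k3 k2 0 (.s k65
  k125 5 (.s k129 k193 7 (.s k66 k192 8 (.s k67 k64 0 (.d k195 k131 k130 7 8))))))] .n) (.c k65 (.q
  k21 [(.s k149 k213 7 (.s k63 k42 6 (.s k106 k192 14 (.d k127 k64 k191 6 7)))), (.s k149 k213 7 (.s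
  k61 k193 13 (.s k1 k41 5 (.s k3 k2 0 (.s k87 k171 13 (.s k86 k84 0 (.d k169 k253 k252 13
  14)))))))] (.c k149 (.f k63 k42 6 (.q k106 [(.d k127 k191 k64 7 6), (.s k107 k104 0 (.s k195 k151
  13 (.s k150 k60 14 (.d k215 k235 k20 5 8))))] (.c k128 (.l (.s k191 k127 7 (.s k107 k104 0 (.s
  k195 k151 13 (.s k150 k60 14 (.d k215 k235 k20 5 8)))))) (.c k191 (.q k128 [(.d k64 k127 k192 6
  7), (.s k107 k104 0 (.s k195 k151 13 (.s k215 k235 5 (.d k150 k20 k60 8 14))))] .n) .n)))) (.c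
  k213 (.l (.s k63 k42 6 (.s k127 k191 7 (.s k106 k64 6 (.s k107 k104 0 (.s k195 k151 13 (.s k150
  k60 14 (.d k215 k235 k20 5 8)))))))) .n))) (.c k125 (.q k253 [(.s k252 k254 0 (.s k84 k168 13 (.s
  k86 k87 0 (.d k169 k1 k3 13 14)))), (.s k169 k1 13 (.s k233 k41 7 (.s k213 k193 5 (.s k192 k234 6
  (.s k64 k128 7 (.s k106 k127 6 (.d k149 k21 k63 7 14)))))))] (.c k1 (.l (.s k252 k254 0 (.s k84
  k168 13 (.s k86 k87 0 (.s k124 k67 6 (.s k60 k188 7 (.s k20 k40 5 (.d k150 k215 k195 8 14))))))))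
  (.c k169 (.f k252 k254 0 (.q k86 [(.d k84 k168 k87 13 0), (.s k124 k67 6 (.s k60 k188 7 (.s k20
  k40 5 (.d k150 k215 k195 8 14))))] (.c k168 (.q k171 [(.d k87 k84 k3 0 13), (.s k124 k67 6 (.s k60
  k188 7 (.s k20 k40 5 (.d k150 k215 k195 8 14))))] .n) (.c k171 (.l (.s k168 k84 13 (.s k124 k67 6
  (.s k60 k188 7 (.s k20 k40 5 (.d k150 k215 k195 8 14)))))) .n)))) .n))) (.c k130 (.l (.s k125 k65
  5 (.s k60 k190 8 (.s k150 k195 14 (.d k20 k40 k215 5 8))))) (.c k150 (.f k65 k125 5 (.q k1 [(.s k3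
  k2 0 (.s k87 k171 13 (.s k86 k84 0 (.d k169 k253 k252 13 14)))), (.s k169 k253 13 (.s k41 k233 7
  (.s k61 k21 5 (.d k193 k129 k149 7 13)))), (.s k3 k2 0 (.s k129 k193 7 (.s k66 k192 8 (.s k67 k64
  0 (.d k195 k130 k131 8 7)))))] (.c k130 (.q k190 [(.s k169 k253 13 (.s k41 k233 7 (.s k61 k21 5
  (.d k193 k129 k149 7 13)))), (.s k3 k2 0 (.s k87 k171 13 (.s k86 k84 0 (.s k67 k124 6 (.s k127
  k107 5 (.d k64 k66 k106 0 6))))))] (.c k169 (.l (.s k3 k2 0 (.s k129 k193 7 (.s k66 k192 8 (.s k67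
  k64 0 (.s k86 k124 6 (.d k87 k84 k171 0 13))))))) .n)) (.c k190 (.l (.s k130 k195 8 (.s k3 k2 0
  (.s k87 k171 13 (.s k86 k84 0 (.d k169 k253 k252 13 14)))))) .n)))) (.c k190 (.l (.s k65 k125 5
  (.s k195 k130 8 (.s k150 k60 14 (.d k215 k235 k20 5 8))))) (.c k195 (.q k1 [(.s k3 k2 0 (.s k87
  k171 13 (.s k86 k84 0 (.d k169 k253 k252 13 14)))), (.s k65 k125 5 (.s k169 k253 13 (.s k41 k233 7
  (.s k61 k21 5 (.d k193 k129 k149 7 13))))), (.s k3 k2 0 (.s k125 k65 5 (.s k60 k190 8 (.s k40 k20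
  5 (.s k41 k22 6 (.s k21 k61 5 (.d k42 k43 k63 0 6)))))))] .n) (.c k215 (.q k1 [(.s k169 k253 13
  (.s k3 k2 0 (.s k86 k252 14 (.d k87 k84 k171 0 13)))), (.s k65 k125 5 (.s k169 k253 13 (.s k41
  k233 7 (.s k61 k21 5 (.d k193 k129 k149 7 13))))), (.s k3 k2 0 (.s k65 k125 5 (.s k129 k193 7 (.s
  k66 k192 8 (.s k67 k64 0 (.d k195 k131 k130 7 8))))))] .n) (.c k235 (.l (.s k125 k65 5 (.s k60
  k190 8 (.s k20 k40 5 (.d k150 k215 k195 8 14))))) .n))))))))))))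

def t5_83 : T TT 256 :=
  (.f k255 k170 14 (.q k105 [(.s k65 k125 5 (.s k195 k130 8 (.s k150 k60 14 (.d k215 k235 k20 5
  8))))] (.c k20 (.q k1 [(.s k169 k253 13 (.s k3 k2 0 (.s k86 k252 14 (.d k87 k84 k171 0 13)))), (.s
  k65 k125 5 (.s k169 k253 13 (.s k41 k233 7 (.s k61 k21 5 (.d k193 k129 k149 7 13))))), (.s k3 k2 0
  (.s k65 k125 5 (.s k129 k193 7 (.s k66 k192 8 (.s k67 k64 0 (.d k195 k131 k130 7 8))))))] .n) (.c
  k60 (.q k1 [(.s k3 k2 0 (.s k87 k171 13 (.s k86 k84 0 (.d k169 k253 k252 13 14)))), (.s k65 k125 5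
  (.s k169 k253 13 (.s k41 k233 7 (.s k61 k21 5 (.d k193 k129 k149 7 13))))), (.s k3 k2 0 (.s k65
  k125 5 (.s k129 k193 7 (.s k66 k192 8 (.s k67 k64 0 (.d k195 k131 k130 7 8))))))] .n) (.c k65 (.q
  k1 [(.s k169 k253 13 (.s k3 k2 0 (.s k86 k252 14 (.d k87 k84 k171 0 13)))), (.s k169 k253 13 (.s
  k41 k233 7 (.s k21 k61 5 (.s k63 k42 6 (.s k127 k191 7 (.s k106 k64 6 (.d k149 k213 k192 7
  14)))))))] (.c k169 (.f k3 k2 0 (.q k86 [(.d k87 k171 k84 13 0), (.s k67 k124 6 (.s k195 k131 7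
  (.s k150 k60 14 (.d k215 k235 k20 5 8))))] (.c k168 (.l (.s k171 k87 13 (.s k67 k124 6 (.s k195
  k131 7 (.s k150 k60 14 (.d k215 k235 k20 5 8)))))) (.c k171 (.q k168 [(.d k84 k87 k252 0 13), (.s
  k67 k124 6 (.s k195 k131 7 (.s k215 k235 5 (.d k150 k20 k60 8 14))))] .n) .n)))) (.c k253 (.l (.s
  k3 k2 0 (.s k87 k171 13 (.s k86 k84 0 (.s k67 k124 6 (.s k195 k131 7 (.s k150 k60 14 (.d k215 k235
  k20 5 8)))))))) .n))) (.c k125 (.q k253 [(.s k169 k1 13 (.s k252 k254 0 (.s k84 k168 13 (.d k86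
  k87 k3 0 14)))), (.s k169 k1 13 (.s k233 k41 7 (.s k213 k193 5 (.s k192 k234 6 (.s k64 k128 7 (.s
  k106 k127 6 (.d k149 k21 k63 7 14))))))), (.s k252 k254 0 (.s k84 k168 13 (.s k86 k87 0 (.s k124
  k67 6 (.s k60 k188 7 (.s k20 k40 5 (.d k150 k215 k195 8 14)))))))] (.c k169 (.f k252 k254 0 (.q
  k86 [(.d k84 k168 k87 13 0), (.s k124 k67 6 (.s k60 k188 7 (.s k20 k40 5 (.d k150 k215 k195 8
  14))))] (.c k168 (.q k171 [(.d k87 k84 k3 0 13), (.s k124 k67 6 (.s k60 k188 7 (.s k20 k40 5 (.d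
  k150 k215 k195 8 14))))] .n) (.c k171 (.l (.s k168 k84 13 (.s k124 k67 6 (.s k60 k188 7 (.s k20
  k40 5 (.d k150 k215 k195 8 14)))))) .n)))) .n)) (.c k130 (.l (.s k125 k65 5 (.s k60 k190 8 (.s
  k150 k195 14 (.d k20 k40 k215 5 8))))) (.c k150 (.f k65 k125 5 (.q k1 [(.s k3 k2 0 (.s k87 k171 13
  (.s k86 k84 0 (.d k169 k253 k252 13 14)))), (.s k169 k253 13 (.s k41 k233 7 (.s k61 k21 5 (.d k193
  k129 k149 7 13)))), (.s k3 k2 0 (.s k129 k193 7 (.s k66 k192 8 (.s k67 k64 0 (.d k195 k130 k131 8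
  7)))))] (.c k130 (.q k190 [(.s k3 k2 0 (.s k87 k171 13 (.s k86 k84 0 (.d k169 k253 k252 13 14)))),
  (.s k169 k253 13 (.s k41 k233 7 (.s k61 k21 5 (.d k193 k129 k149 7 13)))), (.s k3 k2 0 (.s k129
  k193 7 (.s k66 k192 8 (.s k67 k64 0 (.s k86 k124 6 (.d k87 k84 k171 0 13))))))] .n) (.c k190 (.l
  (.s k130 k195 8 (.s k3 k2 0 (.s k87 k171 13 (.s k86 k84 0 (.d k169 k253 k252 13 14)))))) .n))))
  (.c k190 (.l (.s k65 k125 5 (.s k195 k130 8 (.s k150 k60 14 (.d k215 k235 k20 5 8))))) (.c k195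
  (.q k1 [(.s k3 k2 0 (.s k87 k171 13 (.s k86 k84 0 (.d k169 k253 k252 13 14)))), (.s k65 k125 5 (.s
  k169 k253 13 (.s k41 k233 7 (.s k61 k21 5 (.d k193 k129 k149 7 13))))), (.s k3 k2 0 (.s k125 k65 5
  (.s k60 k190 8 (.s k40 k20 5 (.s k41 k22 6 (.s k21 k61 5 (.d k42 k43 k63 0 6)))))))] .n) (.c k215
  (.q k1 [(.s k169 k253 13 (.s k3 k2 0 (.s k86 k252 14 (.d k87 k84 k171 0 13)))), (.s k65 k125 5 (.s
  k169 k253 13 (.s k41 k233 7 (.s k61 k21 5 (.d k193 k129 k149 7 13))))), (.s k3 k2 0 (.s k65 k125 5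
  (.s k129 k193 7 (.s k66 k192 8 (.s k67 k64 0 (.d k195 k131 k130 7 8))))))] .n) (.c k235 (.l (.s
  k125 k65 5 (.s k60 k190 8 (.s k20 k40 5 (.d k150 k215 k195 8 14))))) .n))))))))))))

def t5_90 : T TT 256 :=
  (.f k170 k255 14 (.q k204 [(.s k68 k136 9 (.s k102 k119 4 (.s k34 k238 9 (.d k51 k17 k153 4
  14))))] (.c k17 (.q k1 [(.s k3 k2 0 (.s k169 k253 13 (.s k168 k171 0 (.d k252 k84 k86 13 14)))),
  (.s k3 k2 0 (.s k136 k68 9 (.s k137 k70 10 (.s k69 k205 9 (.d k138 k139 k207 0 10))))), (.s k68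
  k136 9 (.s k102 k119 4 (.s k169 k253 13 (.s k236 k35 10 (.s k252 k220 3 (.d k168 k171 k84 0
  13))))))] .n) (.c k34 (.q k1 [(.s k169 k253 13 (.s k168 k171 0 (.s k252 k84 13 (.d k3 k2 k86 0
  14)))), (.s k3 k2 0 (.s k136 k68 9 (.s k137 k70 10 (.s k69 k205 9 (.d k138 k139 k207 0 10))))),
  (.s k68 k136 9 (.s k102 k119 4 (.s k169 k253 13 (.s k236 k35 10 (.s k252 k220 3 (.d k168 k171 k84
  0 13))))))] .n) (.c k51 (.f k68 k136 9 (.q k84 [(.s k100 k116 3 (.s k48 k152 13 (.s k32 k16 3 (.d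
  k168 k236 k252 9 13)))), (.s k86 k87 0 (.s k2 k254 13 (.s k3 k1 0 (.s k70 k137 10 (.d k102 k119
  k118 4 3)))))] (.c k119 (.q k187 [(.s k100 k116 3 (.s k48 k152 13 (.s k32 k16 3 (.d k168 k236 k252
  9 13)))), (.s k86 k87 0 (.s k2 k254 13 (.s k3 k1 0 (.d k252 k168 k169 13 14)))), (.s k86 k87 0 (.s
  k116 k100 3 (.s k71 k101 4 (.s k70 k69 0 (.s k3 k137 10 (.d k2 k1 k254 0 13))))))] .n) (.c k187
  (.l (.s k119 k102 4 (.s k86 k87 0 (.s k2 k254 13 (.s k3 k1 0 (.d k252 k168 k169 13 14)))))) (.c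
  k252 (.l (.s k86 k87 0 (.s k116 k100 3 (.s k71 k101 4 (.s k70 k69 0 (.d k102 k118 k119 3 4))))))
  .n))))) (.c k68 (.q k2 [(.s k86 k254 13 (.s k84 k87 0 (.s k252 k168 13 (.d k3 k1 k169 0 14)))),
  (.s k3 k1 0 (.s k70 k137 10 (.s k138 k206 9 (.s k154 k186 3 (.s k16 k223 10 (.s k48 k32 3 (.d k207
  k69 k101 10 14)))))))] (.c k1 (.l (.s k86 k254 13 (.s k84 k87 0 (.s k252 k168 13 (.s k220 k236 3
  (.s k153 k19 10 (.s k17 k221 9 (.d k51 k34 k102 4 14)))))))) (.c k3 (.f k86 k254 13 (.q k252 [(.d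
  k84 k87 k168 0 13), (.s k220 k236 3 (.s k153 k19 10 (.s k17 k221 9 (.d k51 k34 k102 4 14))))] (.c
  k87 (.q k171 [(.d k168 k169 k84 0 13), (.s k220 k236 3 (.s k153 k19 10 (.s k17 k221 9 (.d k51 k34
  k102 4 14))))] .n) (.c k171 (.l (.s k87 k84 0 (.s k220 k236 3 (.s k153 k19 10 (.s k17 k221 9 (.d
  k51 k34 k102 4 14)))))) .n)))) .n))) (.c k102 (.f k68 k136 9 (.q k3 [(.s k1 k2 0 (.s k169 k253 13
  (.s k168 k171 0 (.d k252 k84 k86 13 14)))), (.s k70 k137 10 (.s k69 k71 0 (.s k101 k117 3 (.s k32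
  k239 10 (.s k48 k16 3 (.d k207 k138 k154 10 14))))))] (.c k78 (.q k114 [(.s k1 k2 0 (.s k169 k253
  13 (.s k168 k171 0 (.d k252 k84 k86 13 14)))), (.s k70 k137 10 (.s k69 k71 0 (.s k101 k117 3 (.s
  k32 k239 10 (.s k48 k16 3 (.d k207 k138 k154 10 14))))))] .n) (.c k114 (.q k78 [(.s k1 k2 0 (.s
  k169 k253 13 (.s k168 k171 0 (.d k252 k84 k86 13 14)))), (.s k15 k141 8 (.s k7 k11 1 (.s k70 k137
  10 (.s k74 k66 1 (.d k133 k196 k192 8 10)))))] (.c k169 (.l (.s k2 k1 0 (.s k70 k137 10 (.s k69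
  k71 0 (.d k138 k206 k207 9 10))))) .n)) .n)))) (.c k119 (.l (.s k136 k68 9 (.s k153 k187 4 (.s k51
  k102 14 (.d k17 k34 k221 4 9))))) (.c k136 (.q k2 [(.s k3 k1 0 (.s k86 k254 13 (.s k84 k87 0 (.d
  k252 k168 k169 13 14)))), (.s k3 k1 0 (.s k70 k137 10 (.s k138 k206 9 (.s k154 k186 3 (.s k16 k223
  10 (.s k48 k32 3 (.d k207 k69 k101 10 14))))))), (.s k86 k254 13 (.s k84 k87 0 (.s k252 k168 13
  (.s k220 k236 3 (.s k153 k19 10 (.s k17 k221 9 (.d k51 k34 k102 4 14)))))))] (.c k3 (.f k86 k254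
  13 (.q k252 [(.d k84 k87 k168 0 13), (.s k220 k236 3 (.s k153 k19 10 (.s k17 k221 9 (.d k51 k34
  k102 4 14))))] (.c k87 (.q k171 [(.d k168 k169 k84 0 13), (.s k220 k236 3 (.s k153 k19 10 (.s k17
  k221 9 (.d k51 k34 k102 4 14))))] .n) (.c k171 (.l (.s k87 k84 0 (.s k220 k236 3 (.s k153 k19 10
  (.s k17 k221 9 (.d k51 k34 k102 4 14)))))) .n)))) .n)) (.c k153 (.f k68 k136 9 (.q k105 [(.s k40
  k235 8 (.s k60 k20 5 (.s k65 k125 5 (.d k195 k130 k150 8 14)))), (.s k102 k119 4 (.s k34 k238 9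
  (.s k51 k17 4 (.s k99 k108 2 (.s k195 k147 11 (.d k65 k125 k130 5 8)))))), (.s k40 k235 8 (.s k60
  k20 5 (.s k102 k119 4 (.d k108 k99 k156 2 11))))] (.c k27 (.q k216 [(.s k40 k235 8 (.s k60 k20 5
  (.s k65 k125 5 (.d k195 k130 k150 8 14)))), (.s k102 k119 4 (.s k34 k238 9 (.s k51 k17 4 (.s k99
  k108 2 (.s k195 k147 11 (.d k65 k125 k130 5 8)))))), (.s k40 k235 8 (.s k60 k20 5 (.s k102 k119 4
  (.d k108 k99 k156 2 11))))] (.c k195 (.l (.s k102 k119 4 (.s k108 k99 2 (.s k60 k156 11 (.d k40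
  k20 k235 5 8))))) .n)) (.c k195 (.l (.s k102 k119 4 (.s k108 k99 2 (.s k60 k156 11 (.d k40 k20
  k235 5 8))))) (.c k216 (.q k27 [(.s k40 k235 8 (.s k60 k20 5 (.s k65 k125 5 (.d k195 k130 k150 8
  14)))), (.s k102 k119 4 (.s k34 k238 9 (.s k51 k17 4 (.s k99 k108 2 (.s k195 k147 11 (.d k65 k125
  k130 5 8)))))), (.s k40 k235 8 (.s k60 k20 5 (.s k102 k119 4 (.d k108 k99 k156 2 11))))] (.c k195
  (.l (.s k102 k119 4 (.s k108 k99 2 (.s k60 k156 11 (.d k40 k20 k235 5 8))))) .n)) .n))))) (.c k187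
  (.l (.s k68 k136 9 (.s k102 k119 4 (.s k51 k153 14 (.d k34 k17 k238 4 9))))) (.c k238 (.l (.s k136
  k68 9 (.s k153 k187 4 (.s k17 k221 9 (.d k51 k34 k102 4 14))))) .n))))))))))))

def t5_91 : T TT 256 :=
  (.f k255 k170 14 (.q k105 [(.s k65 k125 5 (.s k195 k130 8 (.s k150 k60 14 (.d k215 k235 k20 5
  8))))] (.c k20 (.q k1 [(.s k3 k2 0 (.s k169 k253 13 (.s k86 k252 14 (.d k87 k84 k171 0 13)))), (.s
  k65 k125 5 (.s k169 k253 13 (.s k41 k233 7 (.s k61 k21 5 (.d k193 k129 k149 7 13))))), (.s k3 k2 0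
  (.s k65 k125 5 (.s k129 k193 7 (.s k66 k192 8 (.s k67 k64 0 (.d k195 k131 k130 7 8))))))] .n) (.c
  k60 (.q k1 [(.s k3 k2 0 (.s k169 k253 13 (.s k86 k252 14 (.d k87 k84 k171 0 13)))), (.s k65 k125 5
  (.s k169 k253 13 (.s k41 k233 7 (.s k61 k21 5 (.d k193 k129 k149 7 13))))), (.s k3 k2 0 (.s k65
  k125 5 (.s k129 k193 7 (.s k66 k192 8 (.s k67 k64 0 (.d k195 k131 k130 7 8))))))] .n) (.c k65 (.q
  k84 [(.s k86 k87 0 (.s k252 k168 13 (.s k169 k3 14 (.d k253 k254 k1 0 13)))), (.s k86 k87 0 (.s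
  k124 k67 6 (.s k64 k104 5 (.s k192 k128 7 (.s k213 k234 6 (.s k149 k21 7 (.d k106 k127 k63 6
  14))))))), (.s k252 k168 13 (.s k253 k254 0 (.s k169 k1 13 (.s k233 k41 7 (.s k195 k214 6 (.s k150
  k60 14 (.d k215 k235 k20 5 8)))))))] (.c k86 (.f k252 k168 13 (.q k169 [(.d k253 k254 k1 0 13),
  (.s k233 k41 7 (.s k195 k214 6 (.s k150 k60 14 (.d k215 k235 k20 5 8))))] (.c k2 (.l (.s k254 k253
  0 (.s k233 k41 7 (.s k195 k214 6 (.s k150 k60 14 (.d k215 k235 k20 5 8)))))) (.c k254 (.q k2 [(.d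
  k1 k3 k253 0 13), (.s k233 k41 7 (.s k195 k214 6 (.s k215 k235 5 (.d k150 k20 k60 8 14))))] .n)
  .n)))) .n)) (.c k125 (.q k253 [(.s k169 k1 13 (.s k252 k254 0 (.s k84 k168 13 (.d k86 k87 k3 0
  14)))), (.s k169 k1 13 (.s k233 k41 7 (.s k213 k193 5 (.s k192 k234 6 (.s k64 k128 7 (.s k106 k127
  6 (.d k149 k21 k63 7 14))))))), (.s k252 k254 0 (.s k84 k168 13 (.s k86 k87 0 (.s k124 k67 6 (.s
  k60 k188 7 (.s k20 k40 5 (.d k150 k215 k195 8 14)))))))] (.c k169 (.f k252 k254 0 (.q k86 [(.d k84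
  k168 k87 13 0), (.s k124 k67 6 (.s k60 k188 7 (.s k20 k40 5 (.d k150 k215 k195 8 14))))] (.c k168
  (.q k171 [(.d k87 k84 k3 0 13), (.s k124 k67 6 (.s k60 k188 7 (.s k20 k40 5 (.d k150 k215 k195 8
  14))))] .n) (.c k171 (.l (.s k168 k84 13 (.s k124 k67 6 (.s k60 k188 7 (.s k20 k40 5 (.d k150 k215
  k195 8 14)))))) .n)))) .n)) (.c k130 (.l (.s k125 k65 5 (.s k60 k190 8 (.s k150 k195 14 (.d k20
  k40 k215 5 8))))) (.c k150 (.f k65 k125 5 (.q k1 [(.s k3 k2 0 (.s k169 k253 13 (.s k86 k252 14 (.d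
  k87 k84 k171 0 13)))), (.s k169 k253 13 (.s k41 k233 7 (.s k61 k21 5 (.d k193 k129 k149 7 13)))),
  (.s k3 k2 0 (.s k129 k193 7 (.s k66 k192 8 (.s k67 k64 0 (.d k195 k130 k131 8 7)))))] (.c k130 (.q
  k190 [(.s k169 k253 13 (.s k41 k233 7 (.s k61 k21 5 (.d k193 k129 k149 7 13)))), (.s k3 k2 0 (.s
  k87 k171 13 (.s k86 k84 0 (.s k67 k124 6 (.s k127 k107 5 (.d k64 k66 k106 0 6))))))] (.c k169 (.l
  (.s k3 k2 0 (.s k129 k193 7 (.s k66 k192 8 (.s k67 k64 0 (.s k86 k124 6 (.d k87 k84 k171 0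
  13))))))) .n)) (.c k190 (.l (.s k130 k195 8 (.s k3 k2 0 (.s k87 k171 13 (.s k86 k84 0 (.d k169
  k253 k252 13 14)))))) .n)))) (.c k190 (.l (.s k65 k125 5 (.s k195 k130 8 (.s k150 k60 14 (.d k215
  k235 k20 5 8))))) (.c k195 (.q k1 [(.s k3 k2 0 (.s k169 k253 13 (.s k86 k252 14 (.d k87 k84 k171 0
  13)))), (.s k3 k2 0 (.s k125 k65 5 (.s k60 k190 8 (.s k40 k20 5 (.s k41 k22 6 (.s k21 k61 5 (.d
  k42 k43 k63 0 6))))))), (.s k65 k125 5 (.s k169 k253 13 (.s k41 k233 7 (.s k61 k21 5 (.d k193 k129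
  k149 7 13)))))] .n) (.c k215 (.q k1 [(.s k3 k2 0 (.s k169 k253 13 (.s k86 k252 14 (.d k87 k84 k171
  0 13)))), (.s k65 k125 5 (.s k169 k253 13 (.s k41 k233 7 (.s k61 k21 5 (.d k193 k129 k149 7
  13))))), (.s k3 k2 0 (.s k65 k125 5 (.s k129 k193 7 (.s k66 k192 8 (.s k67 k64 0 (.d k195 k131
  k130 7 8))))))] .n) (.c k235 (.l (.s k125 k65 5 (.s k60 k190 8 (.s k20 k40 5 (.d k150 k215 k195 8
  14))))) .n))))))))))))

def t5_95 : T TT 256 :=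
  (.f k255 k170 14 (.q k105 [(.s k65 k125 5 (.s k195 k130 8 (.s k150 k60 14 (.d k215 k235 k20 5
  8))))] (.c k20 (.q k1 [(.s k169 k253 13 (.s k3 k2 0 (.s k86 k252 14 (.d k87 k84 k171 0 13)))), (.s
  k65 k125 5 (.s k169 k253 13 (.s k41 k233 7 (.s k61 k21 5 (.d k193 k129 k149 7 13))))), (.s k3 k2 0
  (.s k65 k125 5 (.s k129 k193 7 (.s k66 k192 8 (.s k67 k64 0 (.d k195 k131 k130 7 8))))))] .n) (.c
  k60 (.q k1 [(.s k3 k2 0 (.s k87 k171 13 (.s k86 k84 0 (.d k169 k253 k252 13 14)))), (.s k65 k125 5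
  (.s k169 k253 13 (.s k41 k233 7 (.s k61 k21 5 (.d k193 k129 k149 7 13))))), (.s k3 k2 0 (.s k65
  k125 5 (.s k129 k193 7 (.s k66 k192 8 (.s k67 k64 0 (.d k195 k131 k130 7 8))))))] .n) (.c k65 (.q
  k1 [(.s k169 k253 13 (.s k3 k2 0 (.s k86 k252 14 (.d k87 k84 k171 0 13)))), (.s k169 k253 13 (.s
  k41 k233 7 (.s k21 k61 5 (.s k63 k42 6 (.s k127 k191 7 (.s k106 k64 6 (.d k149 k213 k192 7
  14)))))))] (.c k169 (.f k3 k2 0 (.q k86 [(.d k87 k171 k84 13 0), (.s k67 k124 6 (.s k195 k131 7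
  (.s k150 k60 14 (.d k215 k235 k20 5 8))))] (.c k168 (.l (.s k171 k87 13 (.s k67 k124 6 (.s k195
  k131 7 (.s k150 k60 14 (.d k215 k235 k20 5 8)))))) (.c k171 (.q k168 [(.d k84 k87 k252 0 13), (.s
  k67 k124 6 (.s k195 k131 7 (.s k215 k235 5 (.d k150 k20 k60 8 14))))] .n) .n)))) (.c k253 (.l (.s
  k3 k2 0 (.s k87 k171 13 (.s k86 k84 0 (.s k67 k124 6 (.s k195 k131 7 (.s k150 k60 14 (.d k215 k235
  k20 5 8)))))))) .n))) (.c k125 (.q k253 [(.s k169 k1 13 (.s k252 k254 0 (.s k84 k168 13 (.d k86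
  k87 k3 0 14)))), (.s k169 k1 13 (.s k233 k41 7 (.s k213 k193 5 (.s k192 k234 6 (.s k64 k128 7 (.s
  k106 k127 6 (.d k149 k21 k63 7 14))))))), (.s k252 k254 0 (.s k84 k168 13 (.s k86 k87 0 (.s k124
  k67 6 (.s k60 k188 7 (.s k20 k40 5 (.d k150 k215 k195 8 14)))))))] (.c k169 (.f k252 k254 0 (.q
  k86 [(.d k84 k168 k87 13 0), (.s k124 k67 6 (.s k60 k188 7 (.s k20 k40 5 (.d k150 k215 k195 8
  14))))] (.c k168 (.q k171 [(.d k87 k84 k3 0 13), (.s k124 k67 6 (.s k60 k188 7 (.s k20 k40 5 (.d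
  k150 k215 k195 8 14))))] .n) (.c k171 (.l (.s k168 k84 13 (.s k124 k67 6 (.s k60 k188 7 (.s k20
  k40 5 (.d k150 k215 k195 8 14)))))) .n)))) .n)) (.c k130 (.l (.s k125 k65 5 (.s k60 k190 8 (.s
  k150 k195 14 (.d k20 k40 k215 5 8))))) (.c k150 (.f k65 k125 5 (.q k193 [(.s k1 k129 7 (.s k149
  k61 13 (.s k213 k21 7 (.d k253 k233 k169 5 13)))), (.s k1 k129 7 (.s k3 k2 0 (.s k87 k171 13 (.s
  k86 k84 0 (.s k67 k124 6 (.d k195 k130 k131 8 7)))))), (.s k149 k61 13 (.s k21 k213 7 (.s k63 k42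
  6 (.s k106 k192 14 (.d k127 k64 k191 6 7)))))] (.c k130 (.q k190 [(.s k149 k61 13 (.s k213 k21 7
  (.s k253 k233 5 (.d k1 k129 k169 7 13)))), (.s k1 k129 7 (.s k3 k2 0 (.s k87 k171 13 (.s k86 k84 0
  (.d k169 k253 k252 13 14))))), (.s k149 k61 13 (.s k21 k213 7 (.s k63 k42 6 (.s k106 k192 14 (.d
  k127 k64 k191 6 7)))))] (.c k253 (.l (.s k129 k1 7 (.s k149 k61 13 (.s k189 k169 5 (.s k21 k213 7
  (.s k63 k42 6 (.d k191 k188 k127 0 7))))))) .n)) (.c k190 (.l (.s k130 k195 8 (.s k1 k129 7 (.s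
  k61 k149 13 (.s k41 k21 5 (.d k169 k233 k253 7 13)))))) .n)))) (.c k190 (.l (.s k65 k125 5 (.s
  k195 k130 8 (.s k150 k60 14 (.d k215 k235 k20 5 8))))) (.c k195 (.q k1 [(.s k3 k2 0 (.s k87 k171
  13 (.s k86 k84 0 (.d k169 k253 k252 13 14)))), (.s k65 k125 5 (.s k169 k253 13 (.s k41 k233 7 (.s
  k61 k21 5 (.d k193 k129 k149 7 13))))), (.s k3 k2 0 (.s k125 k65 5 (.s k60 k190 8 (.s k40 k20 5
  (.s k41 k22 6 (.s k21 k61 5 (.d k42 k43 k63 0 6)))))))] .n) (.c k215 (.q k1 [(.s k169 k253 13 (.s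
  k3 k2 0 (.s k86 k252 14 (.d k87 k84 k171 0 13)))), (.s k65 k125 5 (.s k169 k253 13 (.s k41 k233 7
  (.s k61 k21 5 (.d k193 k129 k149 7 13))))), (.s k3 k2 0 (.s k65 k125 5 (.s k129 k193 7 (.s k66
  k192 8 (.s k67 k64 0 (.d k195 k131 k130 7 8))))))] .n) (.c k235 (.l (.s k125 k65 5 (.s k60 k190 8
  (.s k20 k40 5 (.d k150 k215 k195 8 14))))) .n))))))))))))

def t5_98 : T TT 256 :=
  (.f k255 k170 14 (.q k105 [(.s k65 k125 5 (.s k195 k130 8 (.s k150 k60 14 (.d k215 k235 k20 5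
  8))))] (.c k20 (.q k1 [(.s k169 k253 13 (.s k3 k2 0 (.s k86 k252 14 (.d k87 k84 k171 0 13)))), (.s
  k65 k125 5 (.s k169 k253 13 (.s k41 k233 7 (.s k61 k21 5 (.d k193 k129 k149 7 13))))), (.s k3 k2 0
  (.s k65 k125 5 (.s k129 k193 7 (.s k66 k192 8 (.s k67 k64 0 (.d k195 k131 k130 7 8))))))] .n) (.c
  k60 (.q k1 [(.s k3 k2 0 (.s k87 k171 13 (.s k86 k84 0 (.d k169 k253 k252 13 14)))), (.s k65 k125 5
  (.s k169 k253 13 (.s k41 k233 7 (.s k61 k21 5 (.d k193 k129 k149 7 13))))), (.s k3 k2 0 (.s k65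
  k125 5 (.s k129 k193 7 (.s k66 k192 8 (.s k67 k64 0 (.d k195 k131 k130 7 8))))))] .n) (.c k65 (.q
  k1 [(.s k169 k253 13 (.s k3 k2 0 (.s k86 k252 14 (.d k87 k84 k171 0 13)))), (.s k169 k253 13 (.s
  k41 k233 7 (.s k21 k61 5 (.s k63 k42 6 (.s k127 k191 7 (.s k106 k64 6 (.d k149 k213 k192 7
  14)))))))] (.c k169 (.f k3 k2 0 (.q k86 [(.d k87 k171 k84 13 0), (.s k67 k124 6 (.s k195 k131 7
  (.s k150 k60 14 (.d k215 k235 k20 5 8))))] (.c k168 (.l (.s k171 k87 13 (.s k67 k124 6 (.s k195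
  k131 7 (.s k150 k60 14 (.d k215 k235 k20 5 8)))))) (.c k171 (.q k168 [(.d k84 k87 k252 0 13), (.s
  k67 k124 6 (.s k195 k131 7 (.s k215 k235 5 (.d k150 k20 k60 8 14))))] .n) .n)))) (.c k253 (.l (.s
  k3 k2 0 (.s k87 k171 13 (.s k86 k84 0 (.s k67 k124 6 (.s k195 k131 7 (.s k150 k60 14 (.d k215 k235
  k20 5 8)))))))) .n))) (.c k125 (.q k253 [(.s k252 k254 0 (.s k84 k168 13 (.s k86 k87 0 (.d k169 k1
  k3 13 14)))), (.s k169 k1 13 (.s k233 k41 7 (.s k213 k193 5 (.s k192 k234 6 (.s k64 k128 7 (.s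
  k106 k127 6 (.d k149 k21 k63 7 14)))))))] (.c k1 (.l (.s k252 k254 0 (.s k84 k168 13 (.s k86 k87 0
  (.s k124 k67 6 (.s k60 k188 7 (.s k20 k40 5 (.d k150 k215 k195 8 14)))))))) (.c k169 (.f k252 k254
  0 (.q k86 [(.d k84 k168 k87 13 0), (.s k124 k67 6 (.s k60 k188 7 (.s k20 k40 5 (.d k150 k215 k195
  8 14))))] (.c k168 (.q k171 [(.d k87 k84 k3 0 13), (.s k124 k67 6 (.s k60 k188 7 (.s k20 k40 5 (.d
  k150 k215 k195 8 14))))] .n) (.c k171 (.l (.s k168 k84 13 (.s k124 k67 6 (.s k60 k188 7 (.s k20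
  k40 5 (.d k150 k215 k195 8 14)))))) .n)))) .n))) (.c k130 (.l (.s k125 k65 5 (.s k60 k190 8 (.s
  k150 k195 14 (.d k20 k40 k215 5 8))))) (.c k150 (.f k65 k125 5 (.q k1 [(.s k3 k2 0 (.s k87 k171 13
  (.s k86 k84 0 (.d k169 k253 k252 13 14)))), (.s k169 k253 13 (.s k41 k233 7 (.s k61 k21 5 (.d k193
  k129 k149 7 13)))), (.s k3 k2 0 (.s k129 k193 7 (.s k66 k192 8 (.s k67 k64 0 (.d k195 k130 k131 8
  7)))))] (.c k130 (.q k190 [(.s k3 k2 0 (.s k87 k171 13 (.s k86 k84 0 (.d k169 k253 k252 13 14)))),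
  (.s k169 k253 13 (.s k41 k233 7 (.s k61 k21 5 (.d k193 k129 k149 7 13)))), (.s k3 k2 0 (.s k129
  k193 7 (.s k66 k192 8 (.s k67 k64 0 (.s k86 k124 6 (.d k87 k84 k171 0 13))))))] .n) (.c k190 (.l
  (.s k130 k195 8 (.s k3 k2 0 (.s k87 k171 13 (.s k86 k84 0 (.d k169 k253 k252 13 14)))))) .n))))
  (.c k190 (.l (.s k65 k125 5 (.s k195 k130 8 (.s k150 k60 14 (.d k215 k235 k20 5 8))))) (.c k195
  (.q k1 [(.s k3 k2 0 (.s k87 k171 13 (.s k86 k84 0 (.d k169 k253 k252 13 14)))), (.s k65 k125 5 (.s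
  k169 k253 13 (.s k41 k233 7 (.s k61 k21 5 (.d k193 k129 k149 7 13))))), (.s k3 k2 0 (.s k125 k65 5
  (.s k60 k190 8 (.s k40 k20 5 (.s k41 k22 6 (.s k21 k61 5 (.d k42 k43 k63 0 6)))))))] .n) (.c k215
  (.q k1 [(.s k169 k253 13 (.s k3 k2 0 (.s k86 k252 14 (.d k87 k84 k171 0 13)))), (.s k65 k125 5 (.s
  k169 k253 13 (.s k41 k233 7 (.s k61 k21 5 (.d k193 k129 k149 7 13))))), (.s k3 k2 0 (.s k65 k125 5
  (.s k129 k193 7 (.s k66 k192 8 (.s k67 k64 0 (.d k195 k131 k130 7 8))))))] .n) (.c k235 (.l (.s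
  k125 k65 5 (.s k60 k190 8 (.s k20 k40 5 (.d k150 k215 k195 8 14))))) .n))))))))))))

def t5_99 : T TT 256 :=
  (.f k255 k170 14 (.q k105 [(.s k65 k125 5 (.s k195 k130 8 (.s k150 k60 14 (.d k215 k235 k20 5
  8))))] (.c k20 (.q k1 [(.s k169 k253 13 (.s k3 k2 0 (.s k86 k252 14 (.d k87 k84 k171 0 13)))), (.s
  k65 k125 5 (.s k169 k253 13 (.s k41 k233 7 (.s k61 k21 5 (.d k193 k129 k149 7 13))))), (.s k3 k2 0
  (.s k65 k125 5 (.s k129 k193 7 (.s k66 k192 8 (.s k67 k64 0 (.d k195 k131 k130 7 8))))))] .n) (.c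
  k60 (.q k1 [(.s k3 k2 0 (.s k87 k171 13 (.s k86 k84 0 (.d k169 k253 k252 13 14)))), (.s k65 k125 5
  (.s k169 k253 13 (.s k41 k233 7 (.s k61 k21 5 (.d k193 k129 k149 7 13))))), (.s k3 k2 0 (.s k65
  k125 5 (.s k129 k193 7 (.s k66 k192 8 (.s k67 k64 0 (.d k195 k131 k130 7 8))))))] .n) (.c k65 (.q
  k1 [(.s k169 k253 13 (.s k3 k2 0 (.s k86 k252 14 (.d k87 k84 k171 0 13)))), (.s k169 k253 13 (.s
  k41 k233 7 (.s k21 k61 5 (.s k63 k42 6 (.s k127 k191 7 (.s k106 k64 6 (.d k149 k213 k192 7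
  14)))))))] (.c k169 (.f k3 k2 0 (.q k86 [(.d k87 k171 k84 13 0), (.s k67 k124 6 (.s k195 k131 7
  (.s k150 k60 14 (.d k215 k235 k20 5 8))))] (.c k168 (.l (.s k171 k87 13 (.s k67 k124 6 (.s k195
  k131 7 (.s k150 k60 14 (.d k215 k235 k20 5 8)))))) (.c k171 (.q k168 [(.d k84 k87 k252 0 13), (.s
  k67 k124 6 (.s k195 k131 7 (.s k215 k235 5 (.d k150 k20 k60 8 14))))] .n) .n)))) (.c k253 (.l (.s
  k3 k2 0 (.s k87 k171 13 (.s k86 k84 0 (.s k67 k124 6 (.s k195 k131 7 (.s k150 k60 14 (.d k215 k235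
  k20 5 8)))))))) .n))) (.c k125 (.q k253 [(.s k252 k254 0 (.s k84 k168 13 (.s k86 k87 0 (.d k169 k1
  k3 13 14)))), (.s k169 k1 13 (.s k233 k41 7 (.s k213 k193 5 (.s k192 k234 6 (.s k64 k128 7 (.s
  k106 k127 6 (.d k149 k21 k63 7 14)))))))] (.c k1 (.l (.s k252 k254 0 (.s k84 k168 13 (.s k86 k87 0
  (.s k124 k67 6 (.s k60 k188 7 (.s k20 k40 5 (.d k150 k215 k195 8 14)))))))) (.c k169 (.f k252 k254
  0 (.q k86 [(.d k84 k168 k87 13 0), (.s k124 k67 6 (.s k60 k188 7 (.s k20 k40 5 (.d k150 k215 k195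
  8 14))))] (.c k168 (.q k171 [(.d k87 k84 k3 0 13), (.s k124 k67 6 (.s k60 k188 7 (.s k20 k40 5 (.d
  k150 k215 k195 8 14))))] .n) (.c k171 (.l (.s k168 k84 13 (.s k124 k67 6 (.s k60 k188 7 (.s k20
  k40 5 (.d k150 k215 k195 8 14)))))) .n)))) .n))) (.c k130 (.l (.s k125 k65 5 (.s k60 k190 8 (.s
  k150 k195 14 (.d k20 k40 k215 5 8))))) (.c k150 (.f k65 k125 5 (.q k81 [(.s k89 k93 1 (.s k243
  k162 12 (.s k166 k12 14 (.d k247 k251 k4 1 12)))), (.s k97 k113 3 (.s k162 k243 12 (.s k32 k227 8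
  (.s k48 k16 3 (.d k195 k130 k146 8 12))))), (.s k89 k93 1 (.s k73 k121 3 (.s k77 k69 1 (.d k113
  k97 k101 3 5))))] (.c k130 (.q k190 [(.s k89 k93 1 (.s k73 k121 3 (.s k77 k69 1 (.d k113 k97 k101
  3 5)))), (.s k243 k162 12 (.s k247 k251 1 (.s k166 k4 12 (.d k89 k93 k12 1 14)))), (.s k97 k113 3
  (.s k162 k243 12 (.s k32 k227 8 (.s k48 k16 3 (.s k117 k186 10 (.d k101 k109 k69 1 3))))))] .n)
  (.c k190 (.l (.s k130 k195 8 (.s k89 k93 1 (.s k73 k121 3 (.s k77 k69 1 (.d k113 k97 k101 3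
  5)))))) .n)))) (.c k190 (.l (.s k65 k125 5 (.s k195 k130 8 (.s k150 k60 14 (.d k215 k235 k20 5
  8))))) (.c k195 (.q k51 [(.s k17 k34 4 (.s k119 k187 9 (.s k102 k68 4 (.d k153 k221 k204 9 14)))),
  (.s k125 k65 5 (.s k60 k190 8 (.s k57 k54 2 (.s k153 k201 11 (.d k17 k34 k221 4 9))))), (.s k125
  k65 5 (.s k60 k190 8 (.s k20 k40 5 (.s k54 k57 2 (.s k150 k215 8 (.s k102 k198 11 (.d k119 k68
  k187 4 9)))))))] (.c k204 (.l (.s k17 k34 4 (.s k125 k65 5 (.s k60 k190 8 (.s k57 k54 2 (.d k153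
  k221 k201 9 11)))))) .n)) (.c k215 (.q k1 [(.s k169 k253 13 (.s k3 k2 0 (.s k86 k252 14 (.d k87
  k84 k171 0 13)))), (.s k65 k125 5 (.s k169 k253 13 (.s k41 k233 7 (.s k61 k21 5 (.d k193 k129 k149
  7 13))))), (.s k3 k2 0 (.s k65 k125 5 (.s k129 k193 7 (.s k66 k192 8 (.s k67 k64 0 (.d k195 k131
  k130 7 8))))))] .n) (.c k235 (.l (.s k125 k65 5 (.s k60 k190 8 (.s k20 k40 5 (.d k150 k215 k195 8
  14))))) .n))))))))))))

def t5_106 : T TT 256 :=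
  (.f k170 k255 14 (.q k204 [(.s k68 k136 9 (.s k102 k119 4 (.s k34 k238 9 (.d k51 k17 k153 4
  14))))] (.c k17 (.q k1 [(.s k3 k2 0 (.s k169 k253 13 (.s k168 k171 0 (.d k252 k84 k86 13 14)))),
  (.s k3 k2 0 (.s k136 k68 9 (.s k137 k70 10 (.s k69 k205 9 (.d k138 k139 k207 0 10))))), (.s k68
  k136 9 (.s k102 k119 4 (.s k169 k253 13 (.s k236 k35 10 (.s k252 k220 3 (.d k168 k171 k84 0
  13))))))] .n) (.c k34 (.q k1 [(.s k169 k253 13 (.s k168 k171 0 (.s k252 k84 13 (.d k3 k2 k86 0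
  14)))), (.s k3 k2 0 (.s k136 k68 9 (.s k137 k70 10 (.s k69 k205 9 (.d k138 k139 k207 0 10))))),
  (.s k68 k136 9 (.s k102 k119 4 (.s k169 k253 13 (.s k236 k35 10 (.s k252 k220 3 (.d k168 k171 k84
  0 13))))))] .n) (.c k51 (.f k68 k136 9 (.q k3 [(.s k1 k2 0 (.s k169 k253 13 (.s k168 k171 0 (.d
  k252 k84 k86 13 14)))), (.s k70 k137 10 (.s k69 k71 0 (.s k101 k117 3 (.s k32 k239 10 (.s k48 k16
  3 (.d k207 k138 k154 10 14))))))] (.c k119 (.q k187 [(.s k1 k2 0 (.s k169 k253 13 (.s k168 k171 0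
  (.d k252 k84 k86 13 14)))), (.s k70 k137 10 (.s k69 k71 0 (.s k101 k117 3 (.s k32 k239 10 (.s k48
  k16 3 (.d k207 k138 k154 10 14))))))] .n) (.c k187 (.l (.s k119 k102 4 (.s k1 k2 0 (.s k169 k253
  13 (.s k168 k171 0 (.d k252 k84 k86 13 14)))))) .n)))) (.c k68 (.q k2 [(.s k86 k254 13 (.s k84 k87
  0 (.s k252 k168 13 (.d k3 k1 k169 0 14)))), (.s k3 k1 0 (.s k70 k137 10 (.s k138 k206 9 (.s k154
  k186 3 (.s k16 k223 10 (.s k48 k32 3 (.d k207 k69 k101 10 14)))))))] (.c k1 (.l (.s k86 k254 13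
  (.s k84 k87 0 (.s k252 k168 13 (.s k220 k236 3 (.s k153 k19 10 (.s k17 k221 9 (.d k51 k34 k102 4
  14)))))))) (.c k3 (.f k86 k254 13 (.q k252 [(.d k84 k87 k168 0 13), (.s k220 k236 3 (.s k153 k19
  10 (.s k17 k221 9 (.d k51 k34 k102 4 14))))] (.c k87 (.q k171 [(.d k168 k169 k84 0 13), (.s k220
  k236 3 (.s k153 k19 10 (.s k17 k221 9 (.d k51 k34 k102 4 14))))] .n) (.c k171 (.l (.s k87 k84 0
  (.s k220 k236 3 (.s k153 k19 10 (.s k17 k221 9 (.d k51 k34 k102 4 14)))))) .n)))) .n))) (.c k102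
  (.f k136 k68 9 (.q k138 [(.s k154 k186 3 (.s k16 k223 10 (.s k48 k32 3 (.d k207 k69 k101 10
  14)))), (.s k137 k139 0 (.s k3 k70 10 (.s k1 k2 0 (.s k153 k187 4 (.d k169 k185 k253 3 13)))))]
  (.c k69 (.l (.s k137 k139 0 (.s k153 k187 4 (.s k169 k185 3 (.s k1 k253 13 (.d k3 k2 k70 0
  10)))))) (.c k98 (.q k110 [(.s k154 k186 3 (.s k16 k223 10 (.s k48 k32 3 (.d k207 k69 k101 10
  14)))), (.s k137 k139 0 (.s k3 k70 10 (.s k1 k2 0 (.s k153 k187 4 (.d k169 k185 k253 3 13)))))]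
  (.c k69 (.l (.s k137 k139 0 (.s k153 k187 4 (.s k169 k185 3 (.s k1 k253 13 (.d k3 k2 k70 0
  10)))))) .n)) (.c k110 (.q k98 [(.s k154 k186 3 (.s k16 k223 10 (.s k48 k32 3 (.d k207 k69 k101 10
  14)))), (.s k137 k139 0 (.s k3 k70 10 (.s k1 k2 0 (.s k153 k187 4 (.d k169 k185 k253 3 13)))))]
  (.c k69 (.l (.s k137 k139 0 (.s k153 k187 4 (.s k169 k185 3 (.s k1 k253 13 (.d k3 k2 k70 0
  10)))))) .n)) .n))))) (.c k119 (.l (.s k136 k68 9 (.s k153 k187 4 (.s k51 k102 14 (.d k17 k34 k221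
  4 9))))) (.c k136 (.q k2 [(.s k3 k1 0 (.s k86 k254 13 (.s k84 k87 0 (.d k252 k168 k169 13 14)))),
  (.s k3 k1 0 (.s k70 k137 10 (.s k138 k206 9 (.s k154 k186 3 (.s k16 k223 10 (.s k48 k32 3 (.d k207
  k69 k101 10 14))))))), (.s k86 k254 13 (.s k84 k87 0 (.s k252 k168 13 (.s k220 k236 3 (.s k153 k19
  10 (.s k17 k221 9 (.d k51 k34 k102 4 14)))))))] (.c k3 (.f k86 k254 13 (.q k252 [(.d k84 k87 k168
  0 13), (.s k220 k236 3 (.s k153 k19 10 (.s k17 k221 9 (.d k51 k34 k102 4 14))))] (.c k87 (.q k171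
  [(.d k168 k169 k84 0 13), (.s k220 k236 3 (.s k153 k19 10 (.s k17 k221 9 (.d k51 k34 k102 4
  14))))] .n) (.c k171 (.l (.s k87 k84 0 (.s k220 k236 3 (.s k153 k19 10 (.s k17 k221 9 (.d k51 k34
  k102 4 14)))))) .n)))) .n)) (.c k153 (.f k136 k68 9 (.q k138 [(.s k137 k139 0 (.s k3 k70 10 (.s k1
  k2 0 (.d k69 k205 k207 9 10)))), (.s k154 k186 3 (.s k16 k223 10 (.s k48 k32 3 (.d k207 k69 k101
  10 14))))] (.c k59 (.q k200 [(.s k72 k8 7 (.s k192 k196 1 (.s k128 k64 7 (.d k132 k140 k12 1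
  9)))), (.s k69 k207 10 (.s k137 k139 0 (.s k1 k205 9 (.d k3 k2 k70 0 10))))] .n) (.c k69 (.l (.s
  k139 k137 0 (.s k154 k186 3 (.s k16 k223 10 (.s k48 k32 3 (.s k152 k100 13 (.d k184 k168 k169 3
  4))))))) (.c k200 (.q k59 [(.s k137 k139 0 (.s k3 k70 10 (.s k1 k2 0 (.d k69 k205 k207 9 10)))),
  (.s k154 k186 3 (.s k16 k223 10 (.s k48 k32 3 (.d k207 k69 k101 10 14))))] (.c k69 (.l (.s k139
  k137 0 (.s k154 k186 3 (.s k16 k223 10 (.s k48 k32 3 (.s k152 k100 13 (.d k184 k168 k169 3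
  4))))))) (.c k207 (.l (.s k137 k139 0 (.s k3 k70 10 (.s k1 k2 0 (.s k169 k253 13 (.s k168 k171 0
  (.d k252 k84 k86 13 14))))))) .n))) (.c k207 (.l (.s k137 k139 0 (.s k3 k70 10 (.s k1 k2 0 (.s
  k169 k253 13 (.s k168 k171 0 (.d k252 k84 k86 13 14))))))) .n)))))) (.c k187 (.l (.s k68 k136 9
  (.s k102 k119 4 (.s k51 k153 14 (.d k34 k17 k238 4 9))))) (.c k238 (.l (.s k136 k68 9 (.s k153
  k187 4 (.s k17 k221 9 (.d k51 k34 k102 4 14))))) .n))))))))))))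

def t5_107 : T TT 256 :=
  (.f k255 k170 14 (.q k105 [(.s k65 k125 5 (.s k195 k130 8 (.s k150 k60 14 (.d k215 k235 k20 5
  8))))] (.c k20 (.q k1 [(.s k3 k2 0 (.s k169 k253 13 (.s k86 k252 14 (.d k87 k84 k171 0 13)))), (.s
  k65 k125 5 (.s k169 k253 13 (.s k41 k233 7 (.s k61 k21 5 (.d k193 k129 k149 7 13))))), (.s k3 k2 0
  (.s k65 k125 5 (.s k129 k193 7 (.s k66 k192 8 (.s k67 k64 0 (.d k195 k131 k130 7 8))))))] .n) (.c
  k60 (.q k1 [(.s k3 k2 0 (.s k169 k253 13 (.s k86 k252 14 (.d k87 k84 k171 0 13)))), (.s k65 k125 5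
  (.s k169 k253 13 (.s k41 k233 7 (.s k61 k21 5 (.d k193 k129 k149 7 13))))), (.s k3 k2 0 (.s k65
  k125 5 (.s k129 k193 7 (.s k66 k192 8 (.s k67 k64 0 (.d k195 k131 k130 7 8))))))] .n) (.c k65 (.q
  k3 [(.s k1 k2 0 (.s k169 k253 13 (.s k86 k252 14 (.d k87 k84 k171 0 13)))), (.s k87 k171 13 (.s
  k86 k84 0 (.s k67 k124 6 (.s k195 k131 7 (.s k150 k60 14 (.d k215 k235 k20 5 8)))))), (.s k1 k2 0
  (.s k169 k253 13 (.s k41 k233 7 (.s k60 k22 6 (.s k20 k40 5 (.d k150 k215 k195 8 14))))))] (.c k86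
  (.q k68 [(.s k102 k119 4 (.s k204 k136 9 (.s k153 k51 14 (.d k221 k238 k17 4 9)))), (.s k2 k1 0
  (.s k204 k136 9 (.s k70 k137 10 (.s k69 k71 0 (.d k138 k206 k207 9 10))))), (.s k87 k171 13 (.s
  k119 k102 4 (.s k71 k103 3 (.s k207 k139 9 (.d k69 k70 k138 0 10)))))] (.c k2 (.q k254 [(.s k102
  k119 4 (.s k204 k136 9 (.s k153 k51 14 (.d k221 k238 k17 4 9)))), (.s k87 k171 13 (.s k119 k102 4
  (.s k71 k103 3 (.s k207 k139 9 (.d k69 k70 k138 0 10))))), (.s k204 k136 9 (.s k70 k137 10 (.s k69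
  k71 0 (.s k238 k221 4 (.s k206 k222 3 (.d k207 k138 k205 10 0))))))] (.c k187 (.l (.s k102 k119 4
  (.s k204 k136 9 (.s k153 k51 14 (.d k221 k238 k17 4 9))))) (.c k238 (.l (.s k87 k171 13 (.s k204
  k136 9 (.s k70 k137 10 (.s k71 k69 0 (.d k119 k103 k102 3 4)))))) .n))) (.c k187 (.l (.s k102 k119
  4 (.s k204 k136 9 (.s k153 k51 14 (.d k221 k238 k17 4 9))))) (.c k254 (.l (.s k2 k1 0 (.s k102
  k119 4 (.s k204 k136 9 (.s k153 k51 14 (.d k221 k238 k17 4 9)))))) .n)))) (.c k169 (.f k171 k87 13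
  (.q k63 [(.s k127 k191 7 (.s k21 k42 6 (.s k149 k213 7 (.d k106 k64 k192 6 14)))), (.s k2 k1 0 (.s
  k42 k21 6 (.s k22 k62 5 (.s k41 k60 6 (.d k43 k40 k23 0 5))))), (.s k127 k191 7 (.s k106 k64 6 (.s
  k149 k192 14 (.s k61 k193 13 (.s k60 k62 0 (.s k20 k40 5 (.d k150 k195 k215 14 8)))))))] (.c k67
  (.l (.s k127 k191 7 (.s k21 k42 6 (.s k149 k213 7 (.d k106 k64 k192 6 14))))) (.c k127 (.q k67
  [(.s k195 k131 7 (.s k150 k60 14 (.d k215 k235 k20 5 8))), (.s k1 k2 0 (.s k21 k42 6 (.s k61 k41 5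
  (.d k149 k213 k193 7 13))))] .n) .n)))) .n))) (.c k125 (.q k3 [(.s k1 k2 0 (.s k169 k253 13 (.s
  k86 k252 14 (.d k87 k84 k171 0 13)))), (.s k87 k171 13 (.s k86 k84 0 (.s k67 k124 6 (.s k195 k131
  7 (.s k150 k60 14 (.d k215 k235 k20 5 8)))))), (.s k1 k2 0 (.s k169 k253 13 (.s k41 k233 7 (.s k60
  k22 6 (.s k20 k40 5 (.d k150 k215 k195 8 14))))))] (.c k86 (.q k68 [(.s k102 k119 4 (.s k204 k136
  9 (.s k153 k51 14 (.d k221 k238 k17 4 9)))), (.s k2 k1 0 (.s k204 k136 9 (.s k70 k137 10 (.s k69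
  k71 0 (.d k138 k206 k207 9 10))))), (.s k87 k171 13 (.s k119 k102 4 (.s k71 k103 3 (.s k207 k139 9
  (.d k69 k70 k138 0 10)))))] (.c k2 (.q k254 [(.s k102 k119 4 (.s k204 k136 9 (.s k153 k51 14 (.d
  k221 k238 k17 4 9)))), (.s k87 k171 13 (.s k119 k102 4 (.s k71 k103 3 (.s k207 k139 9 (.d k69 k70
  k138 0 10))))), (.s k204 k136 9 (.s k70 k137 10 (.s k69 k71 0 (.s k238 k221 4 (.s k206 k222 3 (.d
  k207 k138 k205 10 0))))))] (.c k187 (.l (.s k102 k119 4 (.s k204 k136 9 (.s k153 k51 14 (.d k221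
  k238 k17 4 9))))) (.c k238 (.l (.s k87 k171 13 (.s k204 k136 9 (.s k70 k137 10 (.s k71 k69 0 (.d
  k119 k103 k102 3 4)))))) .n))) (.c k187 (.l (.s k102 k119 4 (.s k204 k136 9 (.s k153 k51 14 (.d
  k221 k238 k17 4 9))))) (.c k254 (.l (.s k2 k1 0 (.s k102 k119 4 (.s k204 k136 9 (.s k153 k51 14
  (.d k221 k238 k17 4 9)))))) .n)))) (.c k169 (.f k171 k87 13 (.q k127 [(.s k106 k64 6 (.s k63 k191
  7 (.s k149 k192 14 (.d k21 k42 k213 6 7)))), (.s k191 k63 7 (.s k131 k151 5 (.s k195 k67 7 (.s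
  k150 k60 14 (.d k215 k235 k20 5 8)))))] (.c k63 (.l (.s k2 k1 0 (.s k64 k106 6 (.s k192 k128 7 (.s
  k66 k129 8 (.s k65 k67 0 (.d k130 k194 k195 7 8))))))) (.c k191 (.q k149 [(.s k21 k213 7 (.s k63
  k42 6 (.d k106 k64 k192 6 14))), (.s k1 k2 0 (.s k21 k213 7 (.d k61 k41 k193 5 13))), (.s k1 k2 0
  (.s k64 k106 6 (.s k192 k128 7 (.s k129 k66 8 (.d k193 k65 k61 7 13)))))] .n) .n)))) .n))) (.c
  k130 (.l (.s k125 k65 5 (.s k60 k190 8 (.s k150 k195 14 (.d k20 k40 k215 5 8))))) (.c k150 (.f k65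
  k125 5 (.q k1 [(.s k3 k2 0 (.s k169 k253 13 (.s k86 k252 14 (.d k87 k84 k171 0 13)))), (.s k169
  k253 13 (.s k41 k233 7 (.s k61 k21 5 (.d k193 k129 k149 7 13)))), (.s k3 k2 0 (.s k129 k193 7 (.s
  k66 k192 8 (.s k67 k64 0 (.d k195 k130 k131 8 7)))))] (.c k130 (.q k190 [(.s k169 k253 13 (.s k41
  k233 7 (.s k61 k21 5 (.d k193 k129 k149 7 13)))), (.s k3 k2 0 (.s k87 k171 13 (.s k86 k84 0 (.d
  k169 k253 k252 13 14)))), (.s k3 k2 0 (.s k129 k193 7 (.s k66 k192 8 (.s k67 k64 0 (.s k86 k124 6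
  (.d k87 k84 k171 0 13))))))] .n) (.c k190 (.l (.s k130 k195 8 (.s k3 k2 0 (.s k87 k171 13 (.s k86
  k84 0 (.d k169 k253 k252 13 14)))))) .n)))) (.c k190 (.l (.s k65 k125 5 (.s k195 k130 8 (.s k150
  k60 14 (.d k215 k235 k20 5 8))))) (.c k195 (.q k63 [(.s k21 k42 6 (.s k127 k191 7 (.s k106 k64 6
  (.d k149 k213 k192 7 14)))), (.s k21 k42 6 (.s k125 k65 5 (.s k60 k190 8 (.s k61 k62 0 (.s k1 k41
  5 (.d k253 k189 k169 7 13)))))), (.s k125 k65 5 (.s k60 k190 8 (.s k61 k62 0 (.s k127 k191 7 (.s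
  k106 k64 6 (.d k149 k193 k192 13 14))))))] (.c k106 (.l (.s k125 k65 5 (.s k60 k190 8 (.s k61 k62
  0 (.s k149 k193 13 (.d k21 k42 k213 6 7)))))) .n)) (.c k215 (.q k1 [(.s k3 k2 0 (.s k169 k253 13
  (.s k86 k252 14 (.d k87 k84 k171 0 13)))), (.s k65 k125 5 (.s k169 k253 13 (.s k41 k233 7 (.s k61
  k21 5 (.d k193 k129 k149 7 13))))), (.s k3 k2 0 (.s k65 k125 5 (.s k129 k193 7 (.s k66 k192 8 (.s
  k67 k64 0 (.d k195 k131 k130 7 8))))))] .n) (.c k235 (.l (.s k125 k65 5 (.s k60 k190 8 (.s k20 k40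
  5 (.d k150 k215 k195 8 14))))) .n))))))))))))

def t5_111 : T TT 256 :=
  (.f k255 k170 14 (.q k105 [(.s k65 k125 5 (.s k195 k130 8 (.s k150 k60 14 (.d k215 k235 k20 5
  8))))] (.c k20 (.q k1 [(.s k169 k253 13 (.s k3 k2 0 (.s k86 k252 14 (.d k87 k84 k171 0 13)))), (.s
  k65 k125 5 (.s k169 k253 13 (.s k41 k233 7 (.s k61 k21 5 (.d k193 k129 k149 7 13))))), (.s k3 k2 0
  (.s k65 k125 5 (.s k129 k193 7 (.s k66 k192 8 (.s k67 k64 0 (.d k195 k131 k130 7 8))))))] .n) (.c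
  k60 (.q k1 [(.s k3 k2 0 (.s k87 k171 13 (.s k86 k84 0 (.d k169 k253 k252 13 14)))), (.s k65 k125 5
  (.s k169 k253 13 (.s k41 k233 7 (.s k61 k21 5 (.d k193 k129 k149 7 13))))), (.s k3 k2 0 (.s k65
  k125 5 (.s k129 k193 7 (.s k66 k192 8 (.s k67 k64 0 (.d k195 k131 k130 7 8))))))] .n) (.c k65 (.q
  k1 [(.s k169 k253 13 (.s k3 k2 0 (.s k86 k252 14 (.d k87 k84 k171 0 13)))), (.s k169 k253 13 (.s
  k41 k233 7 (.s k21 k61 5 (.s k63 k42 6 (.s k127 k191 7 (.s k106 k64 6 (.d k149 k213 k192 7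
  14)))))))] (.c k169 (.f k3 k2 0 (.q k86 [(.d k87 k171 k84 13 0), (.s k67 k124 6 (.s k195 k131 7
  (.s k150 k60 14 (.d k215 k235 k20 5 8))))] (.c k168 (.l (.s k171 k87 13 (.s k67 k124 6 (.s k195
  k131 7 (.s k150 k60 14 (.d k215 k235 k20 5 8)))))) (.c k171 (.q k168 [(.d k84 k87 k252 0 13), (.s
  k67 k124 6 (.s k195 k131 7 (.s k215 k235 5 (.d k150 k20 k60 8 14))))] .n) .n)))) (.c k253 (.l (.s
  k3 k2 0 (.s k87 k171 13 (.s k86 k84 0 (.s k67 k124 6 (.s k195 k131 7 (.s k150 k60 14 (.d k215 k235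
  k20 5 8)))))))) .n))) (.c k125 (.q k253 [(.s k252 k254 0 (.s k84 k168 13 (.s k86 k87 0 (.d k169 k1
  k3 13 14)))), (.s k169 k1 13 (.s k233 k41 7 (.s k213 k193 5 (.s k192 k234 6 (.s k64 k128 7 (.s
  k106 k127 6 (.d k149 k21 k63 7 14)))))))] (.c k1 (.l (.s k252 k254 0 (.s k84 k168 13 (.s k86 k87 0
  (.s k124 k67 6 (.s k60 k188 7 (.s k20 k40 5 (.d k150 k215 k195 8 14)))))))) (.c k169 (.f k252 k254
  0 (.q k86 [(.d k84 k168 k87 13 0), (.s k124 k67 6 (.s k60 k188 7 (.s k20 k40 5 (.d k150 k215 k195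
  8 14))))] (.c k168 (.q k171 [(.d k87 k84 k3 0 13), (.s k124 k67 6 (.s k60 k188 7 (.s k20 k40 5 (.d
  k150 k215 k195 8 14))))] .n) (.c k171 (.l (.s k168 k84 13 (.s k124 k67 6 (.s k60 k188 7 (.s k20
  k40 5 (.d k150 k215 k195 8 14)))))) .n)))) .n))) (.c k130 (.l (.s k125 k65 5 (.s k60 k190 8 (.s
  k150 k195 14 (.d k20 k40 k215 5 8))))) (.c k150 (.f k65 k125 5 (.q k1 [(.s k3 k2 0 (.s k87 k171 13
  (.s k86 k84 0 (.d k169 k253 k252 13 14)))), (.s k169 k253 13 (.s k41 k233 7 (.s k61 k21 5 (.d k193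
  k129 k149 7 13)))), (.s k3 k2 0 (.s k129 k193 7 (.s k66 k192 8 (.s k67 k64 0 (.d k195 k130 k131 8
  7)))))] (.c k130 (.q k190 [(.s k3 k2 0 (.s k87 k171 13 (.s k86 k84 0 (.d k169 k253 k252 13 14)))),
  (.s k169 k253 13 (.s k41 k233 7 (.s k61 k21 5 (.d k193 k129 k149 7 13)))), (.s k3 k2 0 (.s k129
  k193 7 (.s k66 k192 8 (.s k67 k64 0 (.s k86 k124 6 (.d k87 k84 k171 0 13))))))] .n) (.c k190 (.l
  (.s k130 k195 8 (.s k3 k2 0 (.s k87 k171 13 (.s k86 k84 0 (.d k169 k253 k252 13 14)))))) .n))))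
  (.c k190 (.l (.s k65 k125 5 (.s k195 k130 8 (.s k150 k60 14 (.d k215 k235 k20 5 8))))) (.c k195
  (.q k1 [(.s k3 k2 0 (.s k87 k171 13 (.s k86 k84 0 (.d k169 k253 k252 13 14)))), (.s k65 k125 5 (.s
  k169 k253 13 (.s k41 k233 7 (.s k61 k21 5 (.d k193 k129 k149 7 13))))), (.s k3 k2 0 (.s k125 k65 5
  (.s k60 k190 8 (.s k40 k20 5 (.s k41 k22 6 (.s k21 k61 5 (.d k42 k43 k63 0 6)))))))] .n) (.c k215
  (.q k1 [(.s k169 k253 13 (.s k3 k2 0 (.s k86 k252 14 (.d k87 k84 k171 0 13)))), (.s k65 k125 5 (.s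
  k169 k253 13 (.s k41 k233 7 (.s k61 k21 5 (.d k193 k129 k149 7 13))))), (.s k3 k2 0 (.s k65 k125 5
  (.s k129 k193 7 (.s k66 k192 8 (.s k67 k64 0 (.d k195 k131 k130 7 8))))))] .n) (.c k235 (.l (.s
  k125 k65 5 (.s k60 k190 8 (.s k20 k40 5 (.d k150 k215 k195 8 14))))) .n))))))))))))

def t5_114 : T TT 256 :=
  (.f k255 k170 14 (.q k105 [(.s k65 k125 5 (.s k195 k130 8 (.s k150 k60 14 (.d k215 k235 k20 5
  8))))] (.c k20 (.q k1 [(.s k169 k253 13 (.s k3 k2 0 (.s k86 k252 14 (.d k87 k84 k171 0 13)))), (.s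
  k65 k125 5 (.s k169 k253 13 (.s k41 k233 7 (.s k61 k21 5 (.d k193 k129 k149 7 13))))), (.s k3 k2 0
  (.s k65 k125 5 (.s k129 k193 7 (.s k66 k192 8 (.s k67 k64 0 (.d k195 k131 k130 7 8))))))] .n) (.c
  k60 (.q k1 [(.s k3 k2 0 (.s k87 k171 13 (.s k86 k84 0 (.d k169 k253 k252 13 14)))), (.s k65 k125 5
  (.s k169 k253 13 (.s k41 k233 7 (.s k61 k21 5 (.d k193 k129 k149 7 13))))), (.s k3 k2 0 (.s k65
  k125 5 (.s k129 k193 7 (.s k66 k192 8 (.s k67 k64 0 (.d k195 k131 k130 7 8))))))] .n) (.c k65 (.q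
  k1 [(.s k169 k253 13 (.s k3 k2 0 (.s k86 k252 14 (.d k87 k84 k171 0 13)))), (.s k169 k253 13 (.s
  k41 k233 7 (.s k21 k61 5 (.s k63 k42 6 (.s k127 k191 7 (.s k106 k64 6 (.d k149 k213 k192 7
  14)))))))] (.c k169 (.f k3 k2 0 (.q k86 [(.d k87 k171 k84 13 0), (.s k67 k124 6 (.s k195 k131 7
  (.s k150 k60 14 (.d k215 k235 k20 5 8))))] (.c k168 (.l (.s k171 k87 13 (.s k67 k124 6 (.s k195
  k131 7 (.s k150 k60 14 (.d k215 k235 k20 5 8)))))) (.c k171 (.q k168 [(.d k84 k87 k252 0 13), (.s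
  k67 k124 6 (.s k195 k131 7 (.s k215 k235 5 (.d k150 k20 k60 8 14))))] .n) .n)))) (.c k253 (.l (.s
  k3 k2 0 (.s k87 k171 13 (.s k86 k84 0 (.s k67 k124 6 (.s k195 k131 7 (.s k150 k60 14 (.d k215 k235
  k20 5 8)))))))) .n))) (.c k125 (.q k253 [(.s k252 k254 0 (.s k84 k168 13 (.s k86 k87 0 (.d k169 k1
  k3 13 14)))), (.s k169 k1 13 (.s k233 k41 7 (.s k213 k193 5 (.s k192 k234 6 (.s k64 k128 7 (.s
  k106 k127 6 (.d k149 k21 k63 7 14)))))))] (.c k1 (.l (.s k252 k254 0 (.s k84 k168 13 (.s k86 k87 0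
  (.s k124 k67 6 (.s k60 k188 7 (.s k20 k40 5 (.d k150 k215 k195 8 14)))))))) (.c k169 (.f k252 k254
  0 (.q k86 [(.d k84 k168 k87 13 0), (.s k124 k67 6 (.s k60 k188 7 (.s k20 k40 5 (.d k150 k215 k195
  8 14))))] (.c k168 (.q k171 [(.d k87 k84 k3 0 13), (.s k124 k67 6 (.s k60 k188 7 (.s k20 k40 5 (.d
  k150 k215 k195 8 14))))] .n) (.c k171 (.l (.s k168 k84 13 (.s k124 k67 6 (.s k60 k188 7 (.s k20
  k40 5 (.d k150 k215 k195 8 14)))))) .n)))) .n))) (.c k130 (.l (.s k125 k65 5 (.s k60 k190 8 (.s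
  k150 k195 14 (.d k20 k40 k215 5 8))))) (.c k150 (.f k65 k125 5 (.q k1 [(.s k3 k2 0 (.s k87 k171 13
  (.s k86 k84 0 (.d k169 k253 k252 13 14)))), (.s k169 k253 13 (.s k41 k233 7 (.s k61 k21 5 (.d k193
  k129 k149 7 13)))), (.s k3 k2 0 (.s k129 k193 7 (.s k66 k192 8 (.s k67 k64 0 (.d k195 k130 k131 8
  7)))))] (.c k130 (.q k190 [(.s k3 k2 0 (.s k87 k171 13 (.s k86 k84 0 (.d k169 k253 k252 13 14)))),
  (.s k169 k253 13 (.s k41 k233 7 (.s k61 k21 5 (.d k193 k129 k149 7 13)))), (.s k3 k2 0 (.s k129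
  k193 7 (.s k66 k192 8 (.s k67 k64 0 (.s k86 k124 6 (.d k87 k84 k171 0 13))))))] .n) (.c k190 (.l
  (.s k130 k195 8 (.s k3 k2 0 (.s k87 k171 13 (.s k86 k84 0 (.d k169 k253 k252 13 14)))))) .n))))
  (.c k190 (.l (.s k65 k125 5 (.s k195 k130 8 (.s k150 k60 14 (.d k215 k235 k20 5 8))))) (.c k195
  (.q k1 [(.s k3 k2 0 (.s k87 k171 13 (.s k86 k84 0 (.d k169 k253 k252 13 14)))), (.s k65 k125 5 (.s
  k169 k253 13 (.s k41 k233 7 (.s k61 k21 5 (.d k193 k129 k149 7 13))))), (.s k3 k2 0 (.s k125 k65 5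
  (.s k60 k190 8 (.s k40 k20 5 (.s k41 k22 6 (.s k21 k61 5 (.d k42 k43 k63 0 6)))))))] .n) (.c k215
  (.q k1 [(.s k169 k253 13 (.s k3 k2 0 (.s k86 k252 14 (.d k87 k84 k171 0 13)))), (.s k65 k125 5 (.s
  k169 k253 13 (.s k41 k233 7 (.s k61 k21 5 (.d k193 k129 k149 7 13))))), (.s k3 k2 0 (.s k65 k125 5
  (.s k129 k193 7 (.s k66 k192 8 (.s k67 k64 0 (.d k195 k131 k130 7 8))))))] .n) (.c k235 (.l (.s
  k125 k65 5 (.s k60 k190 8 (.s k20 k40 5 (.d k150 k215 k195 8 14))))) .n))))))))))))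

def t5_122 : T TT 256 :=
  (.f k255 k170 14 (.q k105 [(.s k65 k125 5 (.s k195 k130 8 (.s k150 k60 14 (.d k215 k235 k20 5
  8))))] (.c k20 (.q k1 [(.s k169 k253 13 (.s k3 k2 0 (.s k86 k252 14 (.d k87 k84 k171 0 13)))), (.s
  k65 k125 5 (.s k169 k253 13 (.s k41 k233 7 (.s k61 k21 5 (.d k193 k129 k149 7 13))))), (.s k3 k2 0
  (.s k65 k125 5 (.s k129 k193 7 (.s k66 k192 8 (.s k67 k64 0 (.d k195 k131 k130 7 8))))))] .n) (.c
  k60 (.q k1 [(.s k3 k2 0 (.s k87 k171 13 (.s k86 k84 0 (.d k169 k253 k252 13 14)))), (.s k65 k125 5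
  (.s k169 k253 13 (.s k41 k233 7 (.s k61 k21 5 (.d k193 k129 k149 7 13))))), (.s k3 k2 0 (.s k65
  k125 5 (.s k129 k193 7 (.s k66 k192 8 (.s k67 k64 0 (.d k195 k131 k130 7 8))))))] .n) (.c k65 (.q
  k1 [(.s k169 k253 13 (.s k3 k2 0 (.s k86 k252 14 (.d k87 k84 k171 0 13)))), (.s k169 k253 13 (.s
  k41 k233 7 (.s k21 k61 5 (.s k63 k42 6 (.s k127 k191 7 (.s k106 k64 6 (.d k149 k213 k192 7
  14)))))))] (.c k169 (.f k3 k2 0 (.q k86 [(.d k87 k171 k84 13 0), (.s k67 k124 6 (.s k195 k131 7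
  (.s k150 k60 14 (.d k215 k235 k20 5 8))))] (.c k168 (.l (.s k171 k87 13 (.s k67 k124 6 (.s k195
  k131 7 (.s k150 k60 14 (.d k215 k235 k20 5 8)))))) (.c k171 (.q k168 [(.d k84 k87 k252 0 13), (.s
  k67 k124 6 (.s k195 k131 7 (.s k215 k235 5 (.d k150 k20 k60 8 14))))] .n) .n)))) (.c k253 (.l (.s
  k3 k2 0 (.s k87 k171 13 (.s k86 k84 0 (.s k67 k124 6 (.s k195 k131 7 (.s k150 k60 14 (.d k215 k235
  k20 5 8)))))))) .n))) (.c k125 (.q k253 [(.s k252 k254 0 (.s k84 k168 13 (.s k86 k87 0 (.d k169 k1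
  k3 13 14)))), (.s k169 k1 13 (.s k233 k41 7 (.s k213 k193 5 (.s k192 k234 6 (.s k64 k128 7 (.s
  k106 k127 6 (.d k149 k21 k63 7 14)))))))] (.c k1 (.l (.s k252 k254 0 (.s k84 k168 13 (.s k86 k87 0
  (.s k124 k67 6 (.s k60 k188 7 (.s k20 k40 5 (.d k150 k215 k195 8 14)))))))) (.c k169 (.f k252 k254
  0 (.q k86 [(.d k84 k168 k87 13 0), (.s k124 k67 6 (.s k60 k188 7 (.s k20 k40 5 (.d k150 k215 k195
  8 14))))] (.c k168 (.q k171 [(.d k87 k84 k3 0 13), (.s k124 k67 6 (.s k60 k188 7 (.s k20 k40 5 (.d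
  k150 k215 k195 8 14))))] .n) (.c k171 (.l (.s k168 k84 13 (.s k124 k67 6 (.s k60 k188 7 (.s k20
  k40 5 (.d k150 k215 k195 8 14)))))) .n)))) .n))) (.c k130 (.l (.s k125 k65 5 (.s k60 k190 8 (.s
  k150 k195 14 (.d k20 k40 k215 5 8))))) (.c k150 (.f k65 k125 5 (.q k1 [(.s k3 k2 0 (.s k87 k171 13
  (.s k86 k84 0 (.d k169 k253 k252 13 14)))), (.s k169 k253 13 (.s k41 k233 7 (.s k61 k21 5 (.d k193
  k129 k149 7 13)))), (.s k3 k2 0 (.s k129 k193 7 (.s k66 k192 8 (.s k67 k64 0 (.d k195 k130 k131 8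
  7)))))] (.c k130 (.q k190 [(.s k3 k2 0 (.s k87 k171 13 (.s k86 k84 0 (.d k169 k253 k252 13 14)))),
  (.s k169 k253 13 (.s k41 k233 7 (.s k61 k21 5 (.d k193 k129 k149 7 13)))), (.s k3 k2 0 (.s k129
  k193 7 (.s k66 k192 8 (.s k67 k64 0 (.s k86 k124 6 (.d k87 k84 k171 0 13))))))] .n) (.c k190 (.l
  (.s k130 k195 8 (.s k3 k2 0 (.s k87 k171 13 (.s k86 k84 0 (.d k169 k253 k252 13 14)))))) .n))))
  (.c k190 (.l (.s k65 k125 5 (.s k195 k130 8 (.s k150 k60 14 (.d k215 k235 k20 5 8))))) (.c k195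
  (.q k1 [(.s k3 k2 0 (.s k87 k171 13 (.s k86 k84 0 (.d k169 k253 k252 13 14)))), (.s k65 k125 5 (.s
  k169 k253 13 (.s k41 k233 7 (.s k61 k21 5 (.d k193 k129 k149 7 13))))), (.s k3 k2 0 (.s k125 k65 5
  (.s k60 k190 8 (.s k40 k20 5 (.s k41 k22 6 (.s k21 k61 5 (.d k42 k43 k63 0 6)))))))] .n) (.c k215
  (.q k1 [(.s k169 k253 13 (.s k3 k2 0 (.s k86 k252 14 (.d k87 k84 k171 0 13)))), (.s k65 k125 5 (.s
  k169 k253 13 (.s k41 k233 7 (.s k61 k21 5 (.d k193 k129 k149 7 13))))), (.s k3 k2 0 (.s k65 k125 5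
  (.s k129 k193 7 (.s k66 k192 8 (.s k67 k64 0 (.d k195 k131 k130 7 8))))))] .n) (.c k235 (.l (.s
  k125 k65 5 (.s k60 k190 8 (.s k20 k40 5 (.d k150 k215 k195 8 14))))) .n))))))))))))

def t5_123 : T TT 256 :=
  (.f k255 k170 14 (.q k105 [(.s k65 k125 5 (.s k195 k130 8 (.s k150 k60 14 (.d k215 k235 k20 5
  8))))] (.c k20 (.q k1 [(.s k169 k253 13 (.s k3 k2 0 (.s k86 k252 14 (.d k87 k84 k171 0 13)))), (.s
  k65 k125 5 (.s k169 k253 13 (.s k41 k233 7 (.s k61 k21 5 (.d k193 k129 k149 7 13))))), (.s k3 k2 0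
  (.s k65 k125 5 (.s k129 k193 7 (.s k66 k192 8 (.s k67 k64 0 (.d k195 k131 k130 7 8))))))] .n) (.c
  k60 (.q k1 [(.s k3 k2 0 (.s k87 k171 13 (.s k86 k84 0 (.d k169 k253 k252 13 14)))), (.s k65 k125 5
  (.s k169 k253 13 (.s k41 k233 7 (.s k61 k21 5 (.d k193 k129 k149 7 13))))), (.s k3 k2 0 (.s k65
  k125 5 (.s k129 k193 7 (.s k66 k192 8 (.s k67 k64 0 (.d k195 k131 k130 7 8))))))] .n) (.c k65 (.q
  k1 [(.s k169 k253 13 (.s k3 k2 0 (.s k86 k252 14 (.d k87 k84 k171 0 13)))), (.s k169 k253 13 (.s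
  k41 k233 7 (.s k21 k61 5 (.s k63 k42 6 (.s k127 k191 7 (.s k106 k64 6 (.d k149 k213 k192 7
  14)))))))] (.c k169 (.f k3 k2 0 (.q k86 [(.d k87 k171 k84 13 0), (.s k67 k124 6 (.s k195 k131 7
  (.s k150 k60 14 (.d k215 k235 k20 5 8))))] (.c k168 (.l (.s k171 k87 13 (.s k67 k124 6 (.s k195
  k131 7 (.s k150 k60 14 (.d k215 k235 k20 5 8)))))) (.c k171 (.q k168 [(.d k84 k87 k252 0 13), (.s
  k67 k124 6 (.s k195 k131 7 (.s k215 k235 5 (.d k150 k20 k60 8 14))))] .n) .n)))) (.c k253 (.l (.s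
  k3 k2 0 (.s k87 k171 13 (.s k86 k84 0 (.s k67 k124 6 (.s k195 k131 7 (.s k150 k60 14 (.d k215 k235
  k20 5 8)))))))) .n))) (.c k125 (.q k253 [(.s k252 k254 0 (.s k84 k168 13 (.s k86 k87 0 (.d k169 k1
  k3 13 14)))), (.s k169 k1 13 (.s k233 k41 7 (.s k213 k193 5 (.s k192 k234 6 (.s k64 k128 7 (.s
  k106 k127 6 (.d k149 k21 k63 7 14)))))))] (.c k1 (.l (.s k252 k254 0 (.s k84 k168 13 (.s k86 k87 0
  (.s k124 k67 6 (.s k60 k188 7 (.s k20 k40 5 (.d k150 k215 k195 8 14)))))))) (.c k169 (.f k252 k254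
  0 (.q k86 [(.d k84 k168 k87 13 0), (.s k124 k67 6 (.s k60 k188 7 (.s k20 k40 5 (.d k150 k215 k195
  8 14))))] (.c k168 (.q k171 [(.d k87 k84 k3 0 13), (.s k124 k67 6 (.s k60 k188 7 (.s k20 k40 5 (.d
  k150 k215 k195 8 14))))] .n) (.c k171 (.l (.s k168 k84 13 (.s k124 k67 6 (.s k60 k188 7 (.s k20
  k40 5 (.d k150 k215 k195 8 14)))))) .n)))) .n))) (.c k130 (.l (.s k125 k65 5 (.s k60 k190 8 (.s
  k150 k195 14 (.d k20 k40 k215 5 8))))) (.c k150 (.f k65 k125 5 (.q k1 [(.s k3 k2 0 (.s k87 k171 13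
  (.s k86 k84 0 (.d k169 k253 k252 13 14)))), (.s k169 k253 13 (.s k41 k233 7 (.s k61 k21 5 (.d k193
  k129 k149 7 13)))), (.s k3 k2 0 (.s k129 k193 7 (.s k66 k192 8 (.s k67 k64 0 (.d k195 k130 k131 8
  7)))))] (.c k130 (.q k190 [(.s k3 k2 0 (.s k87 k171 13 (.s k86 k84 0 (.d k169 k253 k252 13 14)))),
  (.s k169 k253 13 (.s k41 k233 7 (.s k61 k21 5 (.d k193 k129 k149 7 13)))), (.s k3 k2 0 (.s k129
  k193 7 (.s k66 k192 8 (.s k67 k64 0 (.s k86 k124 6 (.d k87 k84 k171 0 13))))))] .n) (.c k190 (.l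
  (.s k130 k195 8 (.s k3 k2 0 (.s k87 k171 13 (.s k86 k84 0 (.d k169 k253 k252 13 14)))))) .n))))
  (.c k190 (.l (.s k65 k125 5 (.s k195 k130 8 (.s k150 k60 14 (.d k215 k235 k20 5 8))))) (.c k195
  (.q k1 [(.s k3 k2 0 (.s k87 k171 13 (.s k86 k84 0 (.d k169 k253 k252 13 14)))), (.s k65 k125 5 (.s
  k169 k253 13 (.s k41 k233 7 (.s k61 k21 5 (.d k193 k129 k149 7 13))))), (.s k3 k2 0 (.s k125 k65 5
  (.s k60 k190 8 (.s k40 k20 5 (.s k41 k22 6 (.s k21 k61 5 (.d k42 k43 k63 0 6)))))))] .n) (.c k215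
  (.q k1 [(.s k169 k253 13 (.s k3 k2 0 (.s k86 k252 14 (.d k87 k84 k171 0 13)))), (.s k65 k125 5 (.s
  k169 k253 13 (.s k41 k233 7 (.s k61 k21 5 (.d k193 k129 k149 7 13))))), (.s k3 k2 0 (.s k65 k125 5
  (.s k129 k193 7 (.s k66 k192 8 (.s k67 k64 0 (.d k195 k131 k130 7 8))))))] .n) (.c k235 (.l (.s
  k125 k65 5 (.s k60 k190 8 (.s k20 k40 5 (.d k150 k215 k195 8 14))))) .n))))))))))))

def t5_127 : T TT 256 :=
  (.f k255 k170 14 (.q k150 [(.s k20 k215 8 (.s k60 k40 5 (.s k105 k195 14 (.d k125 k65 k190 5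
  8))))] (.c k20 (.q k4 [(.s k166 k247 12 (.s k12 k8 1 (.s k89 k243 14 (.d k93 k81 k174 1 12)))),
  (.s k166 k247 12 (.s k134 k182 3 (.s k69 k199 8 (.s k207 k138 10 (.s k223 k239 3 (.s k154 k16 10
  (.d k101 k117 k48 3 14)))))))] (.c k166 (.f k12 k8 1 (.q k89 [(.d k93 k174 k81 12 1), (.s k28 k211
  10 (.s k60 k44 3 (.s k105 k195 14 (.d k125 k65 k190 5 8))))] (.c k162 (.l (.s k174 k93 12 (.s k28
  k211 10 (.s k60 k44 3 (.s k105 k195 14 (.d k125 k65 k190 5 8)))))) (.c k174 (.q k162 [(.d k81 k93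
  k243 1 12), (.s k28 k211 10 (.s k60 k44 3 (.s k125 k190 8 (.d k105 k65 k195 5 14))))] .n) .n))))
  (.c k247 (.l (.s k12 k8 1 (.s k93 k174 12 (.s k89 k81 1 (.s k28 k211 10 (.s k60 k44 3 (.s k105
  k195 14 (.d k125 k65 k190 5 8)))))))) .n))) (.c k40 (.l (.s k215 k20 8 (.s k195 k235 5 (.s k105
  k60 14 (.d k65 k125 k130 5 8))))) (.c k60 (.q k1 [(.s k3 k2 0 (.s k87 k171 13 (.s k86 k84 0 (.d
  k169 k253 k252 13 14)))), (.s k215 k20 8 (.s k195 k235 5 (.s k65 k130 8 (.s k193 k129 7 (.s k192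
  k194 0 (.s k213 k234 6 (.d k253 k233 k169 5 13))))))), (.s k169 k253 13 (.s k131 k188 6 (.s k215
  k20 8 (.s k195 k235 5 (.s k3 k67 7 (.s k87 k171 13 (.d k86 k252 k84 14 0))))))), (.s k3 k2 0 (.s
  k215 k20 8 (.s k195 k235 5 (.s k65 k130 8 (.s k67 k131 7 (.s k66 k64 0 (.d k129 k193 k192 7
  8)))))))] .n) (.c k65 (.q k1 [(.s k169 k253 13 (.s k3 k2 0 (.s k86 k252 14 (.d k87 k84 k171 0
  13)))), (.s k20 k215 8 (.s k60 k40 5 (.s k125 k190 8 (.s k253 k169 13 (.s k61 k189 7 (.s k21 k41 5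
  (.d k63 k42 k62 6 0))))))), (.s k3 k2 0 (.s k20 k215 8 (.s k60 k40 5 (.s k22 k41 6 (.s k86 k214 7
  (.d k87 k84 k171 0 13))))))] (.c k171 (.l (.s k3 k2 0 (.s k169 k253 13 (.s k131 k188 6 (.s k195
  k67 7 (.d k215 k235 k20 5 8)))))) .n)) (.c k105 (.f k215 k20 8 (.q k101 [(.s k69 k117 3 (.s k207
  k138 10 (.s k154 k48 14 (.d k223 k239 k16 3 10)))), (.s k199 k52 12 (.s k247 k231 3 (.s k243 k251
  1 (.s k81 k162 12 (.s k89 k93 1 (.d k166 k4 k12 12 14))))))] (.c k40 (.l (.s k235 k195 5 (.s k69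
  k117 3 (.s k199 k52 12 (.s k4 k134 8 (.d k247 k231 k166 3 12)))))) (.c k235 (.q k40 [(.s k69 k117
  3 (.s k207 k138 10 (.s k154 k48 14 (.d k223 k239 k16 3 10)))), (.s k199 k52 12 (.s k247 k231 3 (.s
  k243 k251 1 (.s k81 k162 12 (.s k89 k93 1 (.d k166 k4 k12 12 14))))))] (.c k239 (.l (.s k69 k117 3
  (.s k199 k52 12 (.s k4 k134 8 (.d k247 k231 k166 3 12))))) .n)) .n)))) (.c k125 (.f k20 k215 8 (.f
  k60 k40 5 (.f k105 k195 14 (.q k124 [(.s k86 k67 6 (.s k252 k188 7 (.d k84 k87 k168 0 13))), (.s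
  k252 k188 7 (.s k84 k168 13 (.s k104 k64 5 (.d k148 k212 k192 7 13)))), (.s k86 k67 6 (.s k22 k214
  7 (.s k3 k41 6 (.d k252 k188 k169 7 14)))), (.s k86 k67 6 (.s k87 k84 0 (.s k3 k171 13 (.d k22 k41
  k214 6 7))))] .n)))) (.c k190 (.l (.s k215 k20 8 (.s k195 k235 5 (.s k65 k130 8 (.d k105 k125 k60
  5 14))))) (.c k195 (.q k1 [(.s k3 k2 0 (.s k87 k171 13 (.s k86 k84 0 (.d k169 k253 k252 13 14)))),
  (.s k20 k215 8 (.s k60 k40 5 (.s k125 k190 8 (.s k253 k169 13 (.s k61 k189 7 (.s k21 k41 5 (.d k63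
  k42 k62 6 0))))))), (.s k3 k2 0 (.s k20 k215 8 (.s k60 k40 5 (.s k22 k41 6 (.s k86 k214 7 (.d k87
  k84 k171 0 13))))))] (.c k171 (.l (.s k3 k2 0 (.s k20 k215 8 (.s k60 k40 5 (.s k22 k41 6 (.s k86
  k214 7 (.d k169 k252 k253 14 13))))))) .n)) (.c k215 (.q k247 [(.s k166 k4 12 (.s k243 k251 1 (.s
  k81 k162 12 (.d k89 k93 k12 1 14)))), (.s k166 k4 12 (.s k182 k134 3 (.s k117 k52 8 (.s k48 k186
  10 (.s k16 k32 3 (.s k154 k223 10 (.d k101 k69 k207 3 14))))))), (.s k243 k251 1 (.s k81 k162 12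
  (.s k89 k93 1 (.s k211 k28 10 (.s k195 k227 3 (.s k65 k130 8 (.d k105 k125 k60 5 14)))))))] (.c
  k166 (.f k243 k251 1 (.q k89 [(.d k81 k162 k93 12 1), (.s k211 k28 10 (.s k195 k227 3 (.s k65 k130
  8 (.d k105 k125 k60 5 14))))] (.c k162 (.q k174 [(.d k93 k81 k12 1 12), (.s k211 k28 10 (.s k195
  k227 3 (.s k65 k130 8 (.d k105 k125 k60 5 14))))] .n) (.c k174 (.l (.s k162 k81 12 (.s k211 k28 10
  (.s k195 k227 3 (.s k65 k130 8 (.d k105 k125 k60 5 14)))))) .n)))) .n)) (.c k235 (.l (.s k20 k215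
  8 (.s k60 k40 5 (.s k105 k195 14 (.d k125 k65 k190 5 8))))) .n))))))))))))

def t5_171 : T TT 256 :=
  (.q k89 [(.s k81 k93 1 (.s k243 k162 12 (.s k12 k166 14 (.s k8 k4 1 (.d k170 k251 k255 12 14))))),
  (.s k93 k81 1 (.s k255 k170 14 (.s k12 k174 12 (.s k166 k243 14 (.d k4 k8 k247 1 12)))))] (.c k4
  (.f k170 k255 14 (.f k251 k8 12 (.q k3 [(.s k2 k1 0 (.s k86 k254 13 (.s k84 k87 0 (.d k252 k168
  k169 13 14)))), (.s k1 k2 0 (.s k81 k93 1 (.s k161 k241 11 (.s k82 k240 12 (.s k83 k80 0 (.d k243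
  k163 k162 11 12)))))), (.s k81 k93 1 (.s k243 k162 12 (.s k83 k163 11 (.s k86 k92 2 (.s k84 k87 0
  (.d k252 k168 k169 13 14))))))] (.c k6 (.q k7 [(.s k2 k1 0 (.s k86 k254 13 (.s k84 k87 0 (.d k252
  k168 k169 13 14)))), (.s k81 k93 1 (.s k243 k162 12 (.s k83 k163 11 (.s k86 k92 2 (.d k2 k1 k254 0
  13))))), (.s k81 k93 1 (.s k243 k162 12 (.s k83 k163 11 (.s k86 k92 2 (.s k84 k87 0 (.d k252 k168
  k169 13 14))))))] (.c k86 (.l (.s k1 k2 0 (.s k11 k15 1 (.s k169 k253 13 (.s k248 k90 12 (.d k249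
  k250 k9 0 11)))))) .n)) (.c k7 (.q k6 [(.s k81 k93 1 (.s k243 k162 12 (.d k12 k9 k166 2 14))), (.s
  k2 k1 0 (.s k86 k254 13 (.s k84 k87 0 (.d k252 k168 k169 13 14))))] (.c k9 (.l (.s k81 k93 1 (.s
  k243 k162 12 (.s k83 k163 11 (.s k86 k92 2 (.d k2 k1 k254 0 13)))))) .n)) .n))))) (.c k8 (.l (.s
  k81 k93 1 (.s k243 k162 12 (.s k166 k12 14 (.s k247 k4 12 (.d k255 k251 k170 1 14)))))) (.c k12
  (.q k16 [(.s k93 k81 1 (.s k223 k154 10 (.s k28 k158 8 (.s k20 k24 1 (.d k150 k215 k211 8 10))))),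
  (.s k48 k32 3 (.s k154 k223 10 (.s k101 k207 14 (.s k117 k69 3 (.d k255 k186 k170 10 14))))), (.s
  k48 k32 3 (.s k81 k93 1 (.s k146 k211 8 (.s k97 k195 12 (.s k113 k65 3 (.d k243 k178 k162 8
  12))))))] (.c k48 (.l (.s k81 k93 1 (.s k154 k223 10 (.s k24 k219 8 (.s k28 k20 1 (.d k211 k146
  k150 8 10)))))) .n)) (.c k81 (.q k16 [(.s k48 k32 3 (.s k154 k223 10 (.s k101 k207 14 (.s k117 k69
  3 (.d k255 k186 k170 10 14))))), (.s k48 k32 3 (.s k154 k223 10 (.s k24 k219 8 (.s k12 k36 5 (.s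
  k4 k8 1 (.d k166 k247 k243 12 14)))))), (.s k154 k223 10 (.s k24 k219 8 (.s k20 k28 1 (.s k40 k60
  5 (.s k170 k255 14 (.d k8 k56 k251 3 12)))))), (.s k48 k32 3 (.s k170 k255 14 (.s k8 k251 12 (.s
  k12 k4 1 (.s k24 k36 5 (.s k20 k28 1 (.d k40 k56 k60 3 5)))))))] .n) (.c k93 (.q k16 [(.s k48 k32
  3 (.s k154 k223 10 (.s k101 k207 14 (.s k117 k69 3 (.d k255 k186 k170 10 14))))), (.s k48 k32 3
  (.s k154 k223 10 (.s k24 k219 8 (.s k12 k36 5 (.s k4 k8 1 (.d k166 k247 k243 12 14)))))), (.s k48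
  k32 3 (.s k170 k255 14 (.s k8 k251 12 (.s k12 k4 1 (.s k24 k36 5 (.s k40 k56 3 (.d k20 k28 k60 1
  5))))))), (.s k154 k223 10 (.s k24 k219 8 (.s k170 k255 14 (.s k8 k251 12 (.s k40 k56 3 (.d k20
  k28 k60 1 5))))))] (.c k28 (.l (.s k48 k32 3 (.s k255 k170 14 (.s k117 k186 10 (.s k101 k69 3 (.d
  k154 k223 k207 10 14)))))) .n)) (.c k162 (.l (.s k93 k81 1 (.s k255 k170 14 (.s k12 k174 12 (.s
  k166 k243 14 (.d k4 k8 k247 1 12)))))) (.c k166 (.q k1 [(.s k3 k2 0 (.s k81 k93 1 (.s k161 k241 11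
  (.s k82 k240 12 (.s k83 k80 0 (.d k243 k163 k162 11 12)))))), (.s k3 k2 0 (.s k169 k253 13 (.s k9
  k249 11 (.s k12 k6 2 (.s k170 k255 14 (.d k8 k4 k251 1 12))))))] (.c k2 (.l (.s k81 k93 1 (.s k161
  k241 11 (.s k162 k243 12 (.s k160 k163 0 (.s k169 k253 13 (.s k170 k255 14 (.d k165 k173 k175 1
  2)))))))) (.c k3 (.l (.s k81 k93 1 (.s k241 k161 11 (.s k165 k13 13 (.s k243 k162 12 (.s k240 k242
  0 (.s k90 k15 14 (.d k80 k160 k95 11 2)))))))) (.c k241 (.l (.s k3 k2 0 (.s k81 k93 1 (.s k169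
  k253 13 (.s k86 k252 14 (.s k83 k92 2 (.d k243 k163 k162 11 12))))))) .n)))) (.c k170 (.q k169
  [(.s k93 k81 1 (.s k249 k9 11 (.s k253 k1 13 (.s k13 k173 11 (.d k241 k245 k165 1 13))))), (.s k81
  k93 1 (.s k243 k162 12 (.s k166 k12 14 (.s k163 k172 2 (.s k3 k83 11 (.s k252 k86 14 (.d k249 k246
  k9 2 11))))))), (.s k1 k253 13 (.s k3 k2 0 (.s k81 k93 1 (.s k86 k252 14 (.s k83 k92 2 (.d k243
  k163 k162 11 12)))))), (.s k1 k253 13 (.s k3 k2 0 (.s k9 k249 11 (.s k12 k6 2 (.s k4 k8 1 (.d k166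
  k247 k243 12 14))))))] .n) (.c k174 (.l (.s k81 k93 1 (.s k243 k162 12 (.s k12 k166 14 (.s k170
  k255 14 (.d k8 k4 k251 1 12)))))) (.c k243 (.q k13 [(.s k93 k81 1 (.s k241 k165 13 (.s k253 k173
  11 (.s k169 k1 13 (.d k249 k245 k9 1 11))))), (.s k165 k241 13 (.s k170 k255 14 (.s k160 k175 2
  (.s k240 k80 11 (.s k15 k90 14 (.s k12 k14 0 (.d k8 k251 k4 12 1))))))), (.s k93 k81 1 (.s k173
  k253 11 (.s k255 k170 14 (.s k12 k174 12 (.s k15 k14 0 (.s k94 k252 12 (.d k95 k92 k175 0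
  11)))))))] .n) (.c k255 (.q k3 [(.s k1 k2 0 (.s k169 k253 13 (.s k249 k9 11 (.s k252 k86 14 (.s
  k243 k246 2 (.d k81 k93 k162 1 12)))))), (.s k1 k2 0 (.s k81 k93 1 (.s k161 k241 11 (.s k82 k240
  12 (.s k83 k80 0 (.d k243 k163 k162 11 12)))))), (.s k1 k2 0 (.s k169 k253 13 (.s k9 k249 11 (.s
  k12 k6 2 (.s k4 k8 1 (.d k166 k247 k243 12 14)))))), (.s k81 k93 1 (.s k243 k162 12 (.s k83 k163
  11 (.s k86 k92 2 (.s k84 k87 0 (.d k252 k168 k169 13 14))))))] (.c k243 (.f k1 k2 0 (.l (.s k81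
  k93 1 (.s k161 k241 11 (.s k169 k253 13 (.s k240 k82 12 (.s k80 k160 11 (.s k90 k95 2 (.d k165
  k173 k15 1 14))))))))) .n)) .n))))))))))))

def t5_175 : T TT 256 :=
  (.q k86 [(.s k84 k87 0 (.s k252 k168 13 (.s k169 k3 14 (.s k253 k1 13 (.d k255 k254 k170 0
  14))))), (.s k87 k84 0 (.s k255 k170 14 (.s k3 k171 13 (.s k169 k252 14 (.d k1 k2 k253 0 13)))))]
  (.c k1 (.f k170 k255 14 (.f k254 k2 13 (.f k87 k84 0 (.q k95 [(.s k83 k91 1 (.s k90 k80 2 (.s k92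
  k89 2 (.d k94 k93 k82 0 1)))), (.s k90 k80 2 (.s k250 k10 11 (.s k242 k246 1 (.s k14 k166 13 (.d
  k94 k82 k174 1 11))))), (.s k83 k91 1 (.s k89 k92 2 (.s k8 k251 12 (.s k12 k4 1 (.s k81 k93 1 (.d
  k243 k162 k166 12 14))))))] (.c k9 (.q k13 [(.s k80 k90 2 (.s k83 k91 1 (.s k89 k92 2 (.d k81 k82
  k93 0 1)))), (.s k90 k80 2 (.s k250 k10 11 (.s k242 k246 1 (.s k14 k166 13 (.d k94 k82 k174 1
  11))))), (.s k83 k91 1 (.s k89 k92 2 (.s k8 k251 12 (.s k12 k4 1 (.s k81 k93 1 (.d k243 k162 k166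
  12 14))))))] (.c k80 (.l (.s k83 k91 1 (.s k92 k89 2 (.s k94 k93 0 (.s k90 k82 1 (.s k250 k10 11
  (.s k242 k246 1 (.d k14 k174 k166 11 13)))))))) (.c k88 (.l (.s k80 k90 2 (.s k83 k91 1 (.s k89
  k92 2 (.d k81 k82 k93 0 1))))) (.c k92 (.l (.s k80 k90 2 (.s k83 k91 1 (.s k81 k82 0 (.s k89 k93 1
  (.s k8 k251 12 (.s k12 k4 1 (.d k243 k162 k166 12 14)))))))) .n)))) (.c k13 (.q k9 [(.s k80 k90 2
  (.s k83 k91 1 (.s k89 k92 2 (.d k81 k82 k93 0 1)))), (.s k90 k80 2 (.s k250 k10 11 (.s k242 k246 1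
  (.s k14 k166 13 (.d k94 k82 k174 1 11))))), (.s k83 k91 1 (.s k89 k92 2 (.s k8 k251 12 (.s k12 k4
  1 (.s k6 k3 2 (.d k166 k243 k246 14 11))))))] (.c k80 (.l (.s k83 k91 1 (.s k92 k89 2 (.s k94 k93
  0 (.s k90 k82 1 (.s k250 k10 11 (.s k242 k246 1 (.d k14 k174 k166 11 13)))))))) (.c k88 (.l (.s
  k80 k90 2 (.s k83 k91 1 (.s k89 k92 2 (.d k81 k82 k93 0 1))))) (.c k92 (.l (.s k80 k90 2 (.s k83
  k91 1 (.s k81 k82 0 (.s k89 k93 1 (.s k8 k251 12 (.s k12 k4 1 (.d k243 k162 k166 12 14))))))))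
  .n)))) (.c k80 (.l (.s k83 k91 1 (.s k92 k89 2 (.s k94 k93 0 (.s k90 k82 1 (.s k250 k10 11 (.s
  k242 k246 1 (.d k14 k174 k166 11 13)))))))) (.c k88 (.l (.s k80 k90 2 (.s k83 k91 1 (.s k89 k92 2
  (.d k81 k82 k93 0 1))))) (.c k92 (.l (.s k80 k90 2 (.s k83 k91 1 (.s k81 k82 0 (.s k89 k93 1 (.s
  k8 k251 12 (.s k12 k4 1 (.d k243 k162 k166 12 14)))))))) .n))))))))) (.c k3 (.q k4 [(.s k12 k8 1
  (.s k166 k247 12 (.s k89 k243 14 (.s k93 k81 1 (.d k255 k174 k170 12 14))))), (.s k12 k8 1 (.s k84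
  k87 0 (.s k164 k244 11 (.s k88 k240 13 (.s k92 k80 1 (.d k252 k172 k168 11 13)))))), (.s k84 k87 0
  (.s k164 k244 11 (.s k166 k247 12 (.s k168 k252 13 (.s k172 k160 1 (.s k169 k163 2 (.d k170 k171
  k255 0 14)))))))] (.c k255 (.l (.s k12 k8 1 (.s k166 k247 12 (.s k243 k89 14 (.s k246 k6 11 (.s
  k252 k249 2 (.d k84 k87 k168 0 13))))))) .n)) (.c k84 (.q k16 [(.s k48 k32 3 (.s k154 k223 10 (.s
  k101 k207 14 (.s k117 k69 3 (.d k255 k186 k170 10 14))))), (.s k48 k32 3 (.s k154 k223 10 (.s k18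
  k222 9 (.s k3 k33 4 (.s k1 k2 0 (.d k169 k253 k252 13 14)))))), (.s k154 k223 10 (.s k18 k222 9
  (.s k17 k19 0 (.s k34 k51 4 (.s k170 k255 14 (.d k2 k50 k254 3 13)))))), (.s k48 k32 3 (.s k170
  k255 14 (.s k2 k254 13 (.s k3 k1 0 (.s k18 k33 4 (.s k17 k19 0 (.d k34 k50 k51 3 4)))))))] .n) (.c
  k87 (.q k16 [(.s k48 k32 3 (.s k154 k223 10 (.s k101 k207 14 (.s k117 k69 3 (.d k255 k186 k170 10
  14))))), (.s k48 k32 3 (.s k154 k223 10 (.s k18 k222 9 (.s k3 k33 4 (.s k1 k2 0 (.d k169 k253 k252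
  13 14)))))), (.s k48 k32 3 (.s k170 k255 14 (.s k2 k254 13 (.s k3 k1 0 (.s k18 k33 4 (.s k34 k50 3
  (.d k17 k19 k51 0 4))))))), (.s k154 k223 10 (.s k18 k222 9 (.s k170 k255 14 (.s k2 k254 13 (.s
  k34 k50 3 (.d k17 k19 k51 0 4))))))] (.c k19 (.l (.s k48 k32 3 (.s k255 k170 14 (.s k117 k186 10
  (.s k101 k69 3 (.d k154 k223 k207 10 14)))))) .n)) (.c k168 (.l (.s k87 k84 0 (.s k255 k170 14 (.s
  k3 k171 13 (.s k169 k252 14 (.d k1 k2 k253 0 13)))))) (.c k169 (.q k4 [(.s k12 k8 1 (.s k166 k247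
  12 (.s k89 k243 14 (.s k93 k81 1 (.d k255 k174 k170 12 14))))), (.s k12 k8 1 (.s k84 k87 0 (.s
  k164 k244 11 (.s k88 k240 13 (.s k92 k80 1 (.d k252 k172 k168 11 13)))))), (.s k84 k87 0 (.s k166
  k247 12 (.s k170 k255 14 (.s k246 k6 11 (.s k252 k168 13 (.s k243 k249 2 (.d k162 k174 k81 1
  12)))))))] .n) (.c k170 (.f k84 k87 0 (.q k80 [(.s k92 k88 1 (.s k89 k83 2 (.s k93 k81 1 (.d k95
  k94 k90 0 2)))), (.s k88 k92 1 (.s k168 k252 13 (.s k8 k248 11 (.s k12 k4 1 (.d k240 k160 k164 11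
  13))))), (.s k90 k95 2 (.s k94 k82 1 (.s k252 k168 13 (.s k15 k173 12 (.d k240 k160 k165 11
  14)))))] (.c k160 (.q k165 [(.s k92 k88 1 (.s k83 k89 2 (.s k82 k81 0 (.d k90 k94 k95 1 2)))), (.s
  k88 k92 1 (.s k168 k252 13 (.s k8 k248 11 (.s k244 k7 12 (.d k4 k12 k164 1 11))))), (.s k90 k95 2
  (.s k15 k240 14 (.s k94 k82 1 (.d k252 k173 k168 12 13))))] .n) (.c k165 (.l (.s k160 k240 11 (.s
  k90 k95 2 (.s k82 k94 1 (.s k83 k81 0 (.d k92 k88 k89 1 2)))))) .n)))) (.c k171 (.l (.s k84 k87 0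
  (.s k252 k168 13 (.s k3 k169 14 (.s k170 k255 14 (.d k2 k1 k254 0 13)))))) (.c k252 (.q k17 [(.s
  k51 k34 4 (.s k153 k221 9 (.s k102 k204 14 (.s k119 k68 4 (.d k255 k187 k170 9 14))))), (.s k87
  k84 0 (.s k153 k221 9 (.s k19 k220 10 (.s k16 k18 0 (.d k223 k155 k154 9 10))))), (.s k51 k34 4
  (.s k87 k84 0 (.s k255 k170 14 (.s k3 k171 13 (.s k19 k35 3 (.s k16 k18 0 (.d k223 k155 k154 9
  10)))))))] .n) (.c k253 (.l (.s k84 k87 0 (.s k170 k255 14 (.s k2 k254 13 (.s k252 k168 13 (.d k3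
  k1 k169 0 14)))))) (.c k255 (.q k106 [(.s k87 k84 0 (.s k126 k66 5 (.s k127 k64 6 (.s k67 k107 5
  (.d k124 k125 k105 0 6))))), (.s k84 k87 0 (.s k126 k66 5 (.s k252 k168 13 (.s k63 k189 8 (.s k21
  k42 6 (.d k149 k213 k192 7 14)))))), (.s k64 k127 6 (.s k84 k87 0 (.s k192 k128 7 (.s k252 k168 13
  (.s k212 k232 5 (.d k149 k63 k23 14 8)))))), (.s k64 k127 6 (.s k66 k126 5 (.s k192 k128 7 (.s k3
  k129 8 (.s k1 k2 0 (.d k169 k253 k252 13 14))))))] (.c k15 (.q k95 [(.s k64 k127 6 (.s k66 k126 5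
  (.s k67 k65 0 (.s k124 k105 6 (.d k84 k87 k104 0 5))))), (.s k80 k90 2 (.s k84 k87 0 (.s k92 k88 1
  (.s k89 k83 2 (.d k93 k94 k81 0 1))))), (.s k90 k80 2 (.s k122 k74 3 (.s k127 k64 6 (.s k79 k111 3
  (.d k112 k117 k101 2 6)))))] .n) (.c k95 (.q k15 [(.s k87 k84 0 (.s k126 k66 5 (.s k127 k64 6 (.s
  k67 k107 5 (.d k124 k125 k105 0 6))))), (.s k84 k87 0 (.s k126 k66 5 (.s k252 k168 13 (.s k63 k189
  8 (.s k21 k42 6 (.d k149 k213 k192 7 14)))))), (.s k64 k127 6 (.s k84 k87 0 (.s k192 k128 7 (.s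
  k252 k168 13 (.s k212 k232 5 (.d k149 k63 k23 14 8)))))), (.s k64 k127 6 (.s k66 k126 5 (.s k192
  k128 7 (.s k3 k129 8 (.s k1 k2 0 (.d k169 k253 k252 13 14))))))] .n) .n))) .n))))))))))))

def t5_186 : T TT 256 :=
  (.q k86 [(.s k84 k87 0 (.s k252 k168 13 (.s k169 k3 14 (.s k253 k1 13 (.d k255 k254 k170 0
  14))))), (.s k84 k87 0 (.s k170 k255 14 (.s k252 k168 13 (.s k3 k169 14 (.d k2 k1 k254 0 13)))))]
  (.c k1 (.f k170 k255 14 (.f k254 k2 13 (.q k48 [(.s k32 k16 3 (.s k101 k239 10 (.s k69 k117 3 (.d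
  k207 k138 k154 10 14)))), (.s k16 k32 3 (.s k84 k87 0 (.s k152 k220 9 (.s k100 k204 13 (.s k116
  k68 3 (.d k252 k184 k168 9 13)))))), (.s k84 k87 0 (.s k252 k168 13 (.s k116 k184 9 (.s k101 k71 4
  (.s k69 k117 3 (.d k207 k138 k154 10 14))))))] (.c k9 (.q k13 [(.s k32 k16 3 (.s k101 k239 10 (.s
  k69 k117 3 (.d k207 k138 k154 10 14)))), (.s k16 k32 3 (.s k84 k87 0 (.s k152 k220 9 (.s k100 k204
  13 (.s k116 k68 3 (.d k252 k184 k168 9 13)))))), (.s k84 k87 0 (.s k252 k168 13 (.s k116 k184 9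
  (.s k101 k71 4 (.s k69 k117 3 (.d k207 k138 k154 10 14))))))] .n) (.c k13 (.q k9 [(.s k32 k16 3
  (.s k101 k239 10 (.s k69 k117 3 (.d k207 k138 k154 10 14)))), (.s k16 k32 3 (.s k84 k87 0 (.s k152
  k220 9 (.s k100 k204 13 (.s k116 k68 3 (.d k252 k184 k168 9 13)))))), (.s k84 k87 0 (.s k252 k168
  13 (.s k116 k184 9 (.s k101 k71 4 (.s k69 k117 3 (.d k207 k138 k154 10 14))))))] .n) .n))))) (.c
  k3 (.q k4 [(.s k12 k8 1 (.s k166 k247 12 (.s k89 k243 14 (.s k93 k81 1 (.d k255 k174 k170 12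
  14))))), (.s k12 k8 1 (.s k84 k87 0 (.s k164 k244 11 (.s k88 k240 13 (.s k92 k80 1 (.d k252 k172
  k168 11 13)))))), (.s k84 k87 0 (.s k164 k244 11 (.s k166 k247 12 (.s k168 k252 13 (.s k172 k160 1
  (.s k169 k163 2 (.d k170 k171 k255 0 14)))))))] (.c k255 (.l (.s k12 k8 1 (.s k166 k247 12 (.s
  k243 k89 14 (.s k246 k6 11 (.s k252 k249 2 (.d k84 k87 k168 0 13))))))) .n)) (.c k84 (.q k12 [(.s
  k4 k8 1 (.s k166 k247 12 (.s k89 k243 14 (.s k93 k81 1 (.d k255 k174 k170 12 14))))), (.s k4 k8 1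
  (.s k166 k247 12 (.s k6 k246 11 (.s k3 k9 2 (.s k1 k2 0 (.d k169 k253 k252 13 14)))))), (.s k255
  k170 14 (.s k93 k174 12 (.s k89 k81 1 (.s k92 k83 2 (.s k252 k172 11 (.s k169 k3 14 (.d k253 k254
  k1 0 13)))))))] (.c k166 (.l (.s k8 k4 1 (.s k170 k255 14 (.s k2 k254 13 (.s k3 k1 0 (.s k89 k251
  12 (.s k92 k83 2 (.d k252 k172 k169 11 14)))))))) .n)) (.c k87 (.q k12 [(.s k4 k8 1 (.s k166 k247
  12 (.s k89 k243 14 (.s k93 k81 1 (.d k255 k174 k170 12 14))))), (.s k4 k8 1 (.s k166 k247 12 (.s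
  k6 k246 11 (.s k3 k9 2 (.s k1 k2 0 (.d k169 k253 k252 13 14)))))), (.s k255 k170 14 (.s k93 k174
  12 (.s k89 k81 1 (.s k92 k83 2 (.s k252 k172 11 (.s k169 k3 14 (.d k253 k254 k1 0 13)))))))] (.c
  k166 (.l (.s k8 k4 1 (.s k170 k255 14 (.s k2 k254 13 (.s k3 k1 0 (.s k89 k251 12 (.s k92 k83 2 (.d
  k252 k172 k169 11 14)))))))) .n)) (.c k168 (.l (.s k87 k84 0 (.s k255 k170 14 (.s k3 k171 13 (.s
  k169 k252 14 (.d k1 k2 k253 0 13)))))) (.c k169 (.q k4 [(.s k12 k8 1 (.s k166 k247 12 (.s k89 k243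
  14 (.s k93 k81 1 (.d k255 k174 k170 12 14))))), (.s k12 k8 1 (.s k84 k87 0 (.s k164 k244 11 (.s
  k88 k240 13 (.s k92 k80 1 (.d k252 k172 k168 11 13)))))), (.s k84 k87 0 (.s k166 k247 12 (.s k170
  k255 14 (.s k246 k6 11 (.s k252 k168 13 (.s k243 k249 2 (.d k162 k174 k81 1 12)))))))] .n) (.c
  k170 (.q k154 [(.s k16 k223 10 (.s k18 k222 9 (.s k19 k17 0 (.s k84 k87 0 (.d k220 k152 k153 9
  10))))), (.s k84 k87 0 (.s k222 k18 9 (.s k252 k168 13 (.s k207 k237 4 (.s k69 k138 10 (.d k101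
  k117 k48 3 14)))))), (.s k16 k223 10 (.s k48 k32 3 (.s k84 k87 0 (.s k101 k207 14 (.s k116 k71 4
  (.d k252 k184 k168 9 13)))))), (.s k16 k223 10 (.s k18 k222 9 (.s k48 k32 3 (.s k3 k33 4 (.s k1 k2
  0 (.d k169 k253 k252 13 14))))))] .n) (.c k171 (.l (.s k84 k87 0 (.s k252 k168 13 (.s k3 k169 14
  (.s k170 k255 14 (.d k2 k1 k254 0 13)))))) (.c k252 (.q k7 [(.s k87 k84 0 (.s k244 k165 12 (.s
  k247 k167 11 (.s k166 k4 12 (.d k246 k245 k6 0 11))))), (.s k165 k244 12 (.s k170 k255 14 (.s k160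
  k175 2 (.s k240 k80 11 (.s k15 k90 14 (.s k3 k11 1 (.d k2 k254 k1 13 0))))))), (.s k87 k84 0 (.s
  k167 k247 11 (.s k255 k170 14 (.s k3 k171 13 (.s k15 k11 1 (.s k91 k243 13 (.d k95 k83 k175 1
  11)))))))] .n) (.c k254 (.l (.s k87 k84 0 (.s k255 k170 14 (.s k3 k171 13 (.s k1 k2 0 (.d k169
  k253 k252 13 14)))))) (.c k255 (.q k48 [(.s k16 k32 3 (.s k87 k84 0 (.s k223 k154 10 (.s k19 k155
  9 (.s k17 k18 0 (.d k153 k221 k220 9 10)))))), (.s k84 k87 0 (.s k252 k168 13 (.s k116 k184 9 (.s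
  k101 k71 4 (.s k69 k117 3 (.d k207 k138 k154 10 14)))))), (.s k16 k32 3 (.s k154 k223 10 (.s k18
  k222 9 (.s k3 k33 4 (.s k1 k2 0 (.d k169 k253 k252 13 14))))))] (.c k154 (.l (.s k16 k32 3 (.s k84
  k87 0 (.s k152 k220 9 (.s k100 k204 13 (.s k116 k68 3 (.d k252 k184 k168 9 13))))))) .n))
  .n))))))))))))

def t5_187 : T TT 256 :=
  (.q k86 [(.s k84 k87 0 (.s k252 k168 13 (.s k169 k3 14 (.s k253 k1 13 (.d k255 k254 k170 0
  14))))), (.s k87 k84 0 (.s k255 k170 14 (.s k3 k171 13 (.s k169 k252 14 (.d k1 k2 k253 0 13)))))]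
  (.c k1 (.f k170 k255 14 (.f k254 k2 13 (.f k87 k84 0 (.q k119 [(.s k71 k103 3 (.s k102 k68 4 (.s
  k116 k101 4 (.d k118 k117 k70 0 3)))), (.s k102 k68 4 (.s k238 k34 9 (.s k206 k222 3 (.s k50 k154
  13 (.d k118 k70 k186 3 9))))), (.s k71 k103 3 (.s k101 k116 4 (.s k32 k239 10 (.s k48 k16 3 (.s
  k69 k117 3 (.d k207 k138 k154 10 14))))))] (.c k9 (.q k13 [(.s k71 k103 3 (.s k102 k68 4 (.s k116
  k101 4 (.d k118 k117 k70 0 3)))), (.s k102 k68 4 (.s k238 k34 9 (.s k206 k222 3 (.s k50 k154 13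
  (.d k118 k70 k186 3 9))))), (.s k71 k103 3 (.s k101 k116 4 (.s k32 k239 10 (.s k48 k16 3 (.s k69
  k117 3 (.d k207 k138 k154 10 14))))))] (.c k68 (.l (.s k71 k103 3 (.s k116 k101 4 (.s k118 k117 0
  (.s k102 k70 3 (.s k238 k34 9 (.s k206 k222 3 (.d k50 k186 k154 9 13)))))))) (.c k100 (.l (.s k68
  k102 4 (.s k71 k103 3 (.s k101 k116 4 (.d k69 k70 k117 0 3))))) (.c k116 (.l (.s k68 k102 4 (.s
  k71 k103 3 (.s k69 k70 0 (.s k101 k117 3 (.s k32 k239 10 (.s k48 k16 3 (.d k207 k138 k154 10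
  14)))))))) .n)))) (.c k13 (.q k9 [(.s k71 k103 3 (.s k102 k68 4 (.s k116 k101 4 (.d k118 k117 k70
  0 3)))), (.s k102 k68 4 (.s k238 k34 9 (.s k206 k222 3 (.s k50 k154 13 (.d k118 k70 k186 3 9))))),
  (.s k71 k103 3 (.s k101 k116 4 (.s k32 k239 10 (.s k48 k16 3 (.s k69 k117 3 (.d k207 k138 k154 10
  14))))))] (.c k68 (.l (.s k71 k103 3 (.s k116 k101 4 (.s k118 k117 0 (.s k102 k70 3 (.s k238 k34 9
  (.s k206 k222 3 (.d k50 k186 k154 9 13)))))))) (.c k100 (.l (.s k68 k102 4 (.s k71 k103 3 (.s k101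
  k116 4 (.d k69 k70 k117 0 3))))) (.c k116 (.l (.s k68 k102 4 (.s k71 k103 3 (.s k69 k70 0 (.s k101
  k117 3 (.s k32 k239 10 (.s k48 k16 3 (.d k207 k138 k154 10 14)))))))) .n)))) (.c k68 (.l (.s k71
  k103 3 (.s k116 k101 4 (.s k118 k117 0 (.s k102 k70 3 (.s k238 k34 9 (.s k206 k222 3 (.d k50 k186
  k154 9 13)))))))) (.c k100 (.l (.s k68 k102 4 (.s k71 k103 3 (.s k101 k116 4 (.d k69 k70 k117 0
  3))))) (.c k116 (.l (.s k68 k102 4 (.s k71 k103 3 (.s k69 k70 0 (.s k101 k117 3 (.s k32 k239 10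
  (.s k48 k16 3 (.d k207 k138 k154 10 14)))))))) .n))))))))) (.c k3 (.q k4 [(.s k12 k8 1 (.s k166
  k247 12 (.s k89 k243 14 (.s k93 k81 1 (.d k255 k174 k170 12 14))))), (.s k12 k8 1 (.s k84 k87 0
  (.s k164 k244 11 (.s k88 k240 13 (.s k92 k80 1 (.d k252 k172 k168 11 13)))))), (.s k84 k87 0 (.s
  k164 k244 11 (.s k166 k247 12 (.s k168 k252 13 (.s k172 k160 1 (.s k169 k163 2 (.d k170 k171 k255
  0 14)))))))] (.c k255 (.l (.s k12 k8 1 (.s k166 k247 12 (.s k243 k89 14 (.s k246 k6 11 (.s k252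
  k249 2 (.d k84 k87 k168 0 13))))))) .n)) (.c k84 (.q k12 [(.s k4 k8 1 (.s k166 k247 12 (.s k89
  k243 14 (.s k93 k81 1 (.d k255 k174 k170 12 14))))), (.s k4 k8 1 (.s k166 k247 12 (.s k6 k246 11
  (.s k3 k9 2 (.s k1 k2 0 (.d k169 k253 k252 13 14)))))), (.s k255 k170 14 (.s k93 k174 12 (.s k89
  k81 1 (.s k92 k83 2 (.s k252 k172 11 (.s k169 k3 14 (.d k253 k254 k1 0 13)))))))] (.c k166 (.l (.s
  k8 k4 1 (.s k170 k255 14 (.s k2 k254 13 (.s k3 k1 0 (.s k89 k251 12 (.s k92 k83 2 (.d k252 k172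
  k169 11 14)))))))) .n)) (.c k87 (.q k12 [(.s k4 k8 1 (.s k166 k247 12 (.s k89 k243 14 (.s k93 k81
  1 (.d k255 k174 k170 12 14))))), (.s k4 k8 1 (.s k166 k247 12 (.s k6 k246 11 (.s k3 k9 2 (.s k1 k2
  0 (.d k169 k253 k252 13 14)))))), (.s k255 k170 14 (.s k93 k174 12 (.s k89 k81 1 (.s k92 k83 2 (.s
  k252 k172 11 (.s k169 k3 14 (.d k253 k254 k1 0 13)))))))] (.c k166 (.l (.s k8 k4 1 (.s k170 k255
  14 (.s k2 k254 13 (.s k3 k1 0 (.s k89 k251 12 (.s k92 k83 2 (.d k252 k172 k169 11 14)))))))) .n))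
  (.c k168 (.l (.s k87 k84 0 (.s k255 k170 14 (.s k3 k171 13 (.s k169 k252 14 (.d k1 k2 k253 0
  13)))))) (.c k169 (.q k4 [(.s k12 k8 1 (.s k166 k247 12 (.s k89 k243 14 (.s k93 k81 1 (.d k255
  k174 k170 12 14))))), (.s k12 k8 1 (.s k84 k87 0 (.s k164 k244 11 (.s k88 k240 13 (.s k92 k80 1
  (.d k252 k172 k168 11 13)))))), (.s k84 k87 0 (.s k166 k247 12 (.s k170 k255 14 (.s k246 k6 11 (.s
  k252 k168 13 (.s k243 k249 2 (.d k162 k174 k81 1 12)))))))] .n) (.c k170 (.q k153 [(.s k17 k221 9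
  (.s k19 k220 10 (.s k16 k18 0 (.s k87 k84 0 (.d k223 k155 k154 9 10))))), (.s k17 k221 9 (.s k51
  k34 4 (.s k84 k87 0 (.s k102 k204 14 (.s k118 k70 3 (.d k252 k185 k168 10 13)))))), (.s k17 k221 9
  (.s k19 k220 10 (.s k51 k34 4 (.s k3 k35 3 (.s k1 k2 0 (.d k169 k253 k252 13 14)))))), (.s k84 k87
  0 (.s k220 k19 10 (.s k252 k168 13 (.s k204 k236 3 (.s k68 k136 9 (.d k102 k119 k51 4 14))))))]
  .n) (.c k171 (.l (.s k84 k87 0 (.s k252 k168 13 (.s k3 k169 14 (.s k170 k255 14 (.d k2 k1 k254 0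
  13)))))) (.c k252 (.q k7 [(.s k87 k84 0 (.s k244 k165 12 (.s k247 k167 11 (.s k166 k4 12 (.d k246
  k245 k6 0 11))))), (.s k165 k244 12 (.s k170 k255 14 (.s k160 k175 2 (.s k240 k80 11 (.s k15 k90
  14 (.s k3 k11 1 (.d k2 k254 k1 13 0))))))), (.s k87 k84 0 (.s k167 k247 11 (.s k255 k170 14 (.s k3
  k171 13 (.s k15 k11 1 (.s k91 k243 13 (.d k95 k83 k175 1 11)))))))] .n) (.c k253 (.l (.s k84 k87 0
  (.s k170 k255 14 (.s k2 k254 13 (.s k252 k168 13 (.d k3 k1 k169 0 14)))))) (.c k255 (.q k51 [(.s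
  k17 k34 4 (.s k84 k87 0 (.s k153 k221 9 (.s k204 k102 14 (.s k252 k168 13 (.d k220 k236 k19 3
  10)))))), (.s k84 k87 0 (.s k252 k168 13 (.s k118 k185 10 (.s k102 k70 3 (.s k68 k119 4 (.d k204
  k136 k153 9 14)))))), (.s k17 k34 4 (.s k87 k84 0 (.s k153 k221 9 (.s k19 k220 10 (.s k16 k18 0
  (.d k223 k155 k154 9 10)))))), (.s k17 k34 4 (.s k153 k221 9 (.s k19 k220 10 (.s k3 k35 3 (.s k1
  k2 0 (.d k169 k253 k252 13 14))))))] (.c k153 (.f k17 k34 4 (.l (.s k84 k87 0 (.s k252 k168 13 (.s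
  k3 k169 14 (.s k1 k2 0 (.s k19 k35 3 (.s k18 k16 0 (.d k33 k49 k48 3 4))))))))) (.c k204 (.l (.s
  k17 k34 4 (.s k84 k87 0 (.s k252 k168 13 (.s k3 k169 14 (.s k19 k35 3 (.d k153 k221 k220 9
  10))))))) .n))) .n))))))))))))

def t5_250 : T TT 256 :=
  (.q k86 [(.s k84 k87 0 (.s k252 k168 13 (.s k169 k3 14 (.s k253 k1 13 (.d k255 k254 k170 0
  14))))), (.s k87 k84 0 (.s k255 k170 14 (.s k3 k171 13 (.s k169 k252 14 (.d k1 k2 k253 0 13)))))]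
  (.c k1 (.f k170 k255 14 (.f k254 k2 13 (.q k240 [(.s k84 k87 0 (.s k160 k80 11 (.s k165 k175 2 (.s
  k252 k168 13 (.d k244 k248 k7 1 12))))), (.s k80 k160 11 (.s k84 k87 0 (.s k88 k92 1 (.s k12 k164
  13 (.s k168 k252 13 (.d k8 k4 k248 1 11)))))), (.s k80 k160 11 (.s k90 k95 2 (.s k15 k165 14 (.s
  k82 k94 1 (.s k3 k161 12 (.s k11 k7 1 (.d k169 k248 k252 12 14))))))), (.s k84 k87 0 (.s k252 k168
  13 (.s k3 k169 14 (.s k82 k161 12 (.s k90 k94 1 (.s k165 k15 14 (.d k244 k248 k7 1 12))))))), (.s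
  k80 k160 11 (.s k84 k87 0 (.s k90 k95 2 (.s k82 k94 1 (.s k83 k81 0 (.d k92 k88 k89 1 2))))))] (.c
  k3 (.l (.s k160 k80 11 (.s k165 k175 2 (.s k244 k7 12 (.s k252 k248 1 (.d k84 k87 k168 0 13))))))
  (.c k9 (.q k13 [(.s k80 k160 11 (.s k90 k95 2 (.s k15 k165 14 (.s k94 k82 1 (.d k14 k12 k174 0
  11))))), (.s k80 k160 11 (.s k84 k87 0 (.s k88 k92 1 (.s k12 k164 13 (.s k8 k4 1 (.d k168 k248
  k252 11 13)))))), (.s k84 k87 0 (.s k252 k168 13 (.s k3 k169 14 (.s k82 k161 12 (.s k90 k94 1 (.s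
  k165 k15 14 (.d k244 k248 k7 1 12)))))))] .n) (.c k13 (.q k9 [(.s k84 k87 0 (.s k160 k80 11 (.s
  k165 k175 2 (.s k252 k168 13 (.d k244 k248 k7 1 12))))), (.s k80 k160 11 (.s k84 k87 0 (.s k88 k92
  1 (.s k12 k164 13 (.s k168 k252 13 (.d k8 k4 k248 1 11)))))), (.s k80 k160 11 (.s k90 k95 2 (.s
  k15 k165 14 (.s k82 k94 1 (.s k3 k161 12 (.s k11 k7 1 (.d k169 k248 k252 12 14))))))), (.s k84 k87
  0 (.s k252 k168 13 (.s k3 k169 14 (.s k12 k6 2 (.s k4 k8 1 (.d k164 k88 k244 13 11)))))), (.s k80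
  k160 11 (.s k84 k87 0 (.s k90 k95 2 (.s k82 k94 1 (.s k83 k81 0 (.d k92 k88 k89 1 2))))))] (.c k3
  (.l (.s k160 k80 11 (.s k165 k175 2 (.s k244 k7 12 (.s k252 k248 1 (.d k84 k87 k168 0 13))))))
  .n)) .n)))))) (.c k3 (.q k4 [(.s k12 k8 1 (.s k166 k247 12 (.s k89 k243 14 (.s k93 k81 1 (.d k255
  k174 k170 12 14))))), (.s k12 k8 1 (.s k84 k87 0 (.s k164 k244 11 (.s k88 k240 13 (.s k92 k80 1
  (.d k252 k172 k168 11 13)))))), (.s k84 k87 0 (.s k164 k244 11 (.s k166 k247 12 (.s k168 k252 13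
  (.s k172 k160 1 (.s k169 k163 2 (.d k170 k171 k255 0 14)))))))] (.c k255 (.l (.s k12 k8 1 (.s k166
  k247 12 (.s k243 k89 14 (.s k246 k6 11 (.s k252 k249 2 (.d k84 k87 k168 0 13))))))) .n)) (.c k84
  (.q k12 [(.s k4 k8 1 (.s k166 k247 12 (.s k89 k243 14 (.s k93 k81 1 (.d k255 k174 k170 12 14))))),
  (.s k4 k8 1 (.s k166 k247 12 (.s k6 k246 11 (.s k3 k9 2 (.s k1 k2 0 (.d k169 k253 k252 13
  14)))))), (.s k255 k170 14 (.s k93 k174 12 (.s k89 k81 1 (.s k92 k83 2 (.s k252 k172 11 (.s k169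
  k3 14 (.d k253 k254 k1 0 13)))))))] (.c k166 (.l (.s k8 k4 1 (.s k170 k255 14 (.s k2 k254 13 (.s
  k3 k1 0 (.s k89 k251 12 (.s k92 k83 2 (.d k252 k172 k169 11 14)))))))) .n)) (.c k87 (.q k12 [(.s
  k4 k8 1 (.s k166 k247 12 (.s k89 k243 14 (.s k93 k81 1 (.d k255 k174 k170 12 14))))), (.s k4 k8 1
  (.s k166 k247 12 (.s k6 k246 11 (.s k3 k9 2 (.s k1 k2 0 (.d k169 k253 k252 13 14)))))), (.s k255
  k170 14 (.s k93 k174 12 (.s k89 k81 1 (.s k92 k83 2 (.s k252 k172 11 (.s k169 k3 14 (.d k253 k254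
  k1 0 13)))))))] (.c k166 (.l (.s k8 k4 1 (.s k170 k255 14 (.s k2 k254 13 (.s k3 k1 0 (.s k89 k251
  12 (.s k92 k83 2 (.d k252 k172 k169 11 14)))))))) .n)) (.c k168 (.l (.s k87 k84 0 (.s k255 k170 14
  (.s k3 k171 13 (.s k169 k252 14 (.d k1 k2 k253 0 13)))))) (.c k169 (.q k4 [(.s k12 k8 1 (.s k166
  k247 12 (.s k89 k243 14 (.s k93 k81 1 (.d k255 k174 k170 12 14))))), (.s k12 k8 1 (.s k84 k87 0
  (.s k164 k244 11 (.s k88 k240 13 (.s k92 k80 1 (.d k252 k172 k168 11 13)))))), (.s k84 k87 0 (.s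
  k166 k247 12 (.s k170 k255 14 (.s k246 k6 11 (.s k252 k168 13 (.s k243 k249 2 (.d k162 k174 k81 1
  12)))))))] (.c k255 (.l (.s k12 k8 1 (.s k84 k87 0 (.s k164 k244 11 (.s k168 k252 13 (.s k160 k172
  1 (.d k240 k80 k88 11 13))))))) .n)) (.c k170 (.q k90 [(.s k80 k95 2 (.s k82 k94 1 (.s k83 k81 0
  (.s k84 k87 0 (.d k92 k88 k89 1 2))))), (.s k84 k87 0 (.s k94 k82 1 (.s k252 k168 13 (.s k15 k173
  12 (.s k165 k240 14 (.s k7 k244 12 (.d k3 k169 k11 14 1))))))), (.s k80 k95 2 (.s k84 k87 0 (.s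
  k240 k160 11 (.s k165 k15 14 (.s k244 k7 12 (.d k252 k248 k168 1 13)))))), (.s k80 k95 2 (.s k82
  k94 1 (.s k240 k160 11 (.s k3 k161 12 (.s k1 k2 0 (.d k169 k253 k252 13 14))))))] .n) (.c k171 (.l
  (.s k84 k87 0 (.s k252 k168 13 (.s k3 k169 14 (.s k170 k255 14 (.d k2 k1 k254 0 13)))))) (.c k252
  (.q k7 [(.s k87 k84 0 (.s k244 k165 12 (.s k247 k167 11 (.s k166 k4 12 (.d k246 k245 k6 0 11))))),
  (.s k165 k244 12 (.s k170 k255 14 (.s k160 k175 2 (.s k240 k80 11 (.s k15 k90 14 (.s k3 k11 1 (.d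
  k2 k254 k1 13 0))))))), (.s k87 k84 0 (.s k167 k247 11 (.s k255 k170 14 (.s k3 k171 13 (.s k15 k11
  1 (.s k91 k243 13 (.d k95 k83 k175 1 11)))))))] .n) (.c k253 (.l (.s k84 k87 0 (.s k170 k255 14
  (.s k2 k254 13 (.s k252 k168 13 (.d k3 k1 k169 0 14)))))) (.c k255 (.q k240 [(.s k80 k160 11 (.s
  k87 k84 0 (.s k95 k90 2 (.s k83 k91 1 (.s k81 k82 0 (.d k89 k93 k92 1 2)))))), (.s k80 k160 11 (.s
  k84 k87 0 (.s k88 k92 1 (.s k12 k164 13 (.s k8 k4 1 (.d k168 k248 k252 11 13)))))), (.s k84 k87 0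
  (.s k252 k168 13 (.s k3 k169 14 (.s k82 k161 12 (.s k90 k94 1 (.s k165 k15 14 (.d k244 k248 k7 1
  12))))))), (.s k80 k160 11 (.s k90 k95 2 (.s k82 k94 1 (.s k3 k161 12 (.s k1 k2 0 (.d k169 k253
  k252 13 14))))))] .n) .n))))))))))))

def t6_7 : T TT 256 :=
  (.f k170 k255 14 (.q k240 [(.s k80 k160 11 (.s k90 k95 2 (.s k10 k250 11 (.d k15 k5 k165 2 14))))]
  (.c k4 (.q k5 [(.s k160 k80 11 (.d k165 k175 k245 2 11)), (.s k15 k10 2 (.d k165 k245 k90 11 14)),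
  (.s k10 k15 2 (.s k80 k160 11 (.d k90 k95 k250 2 11)))] .n) (.c k5 (.q k4 [(.s k12 k8 1 (.s k166
  k247 12 (.s k162 k174 1 (.d k243 k81 k89 12 14)))), (.s k12 k8 1 (.s k160 k80 11 (.s k164 k88 13
  (.s k84 k244 11 (.d k168 k172 k252 1 13))))), (.s k80 k160 11 (.s k90 k95 2 (.s k166 k247 12 (.s
  k242 k14 13 (.s k243 k241 0 (.d k162 k174 k81 1 12))))))] .n) (.c k10 (.f k80 k160 11 (.f k95 k90
  2 (.q k2 [(.s k3 k1 0 (.s k82 k161 12 (.s k81 k83 0 (.d k162 k242 k243 11 12)))), (.s k3 k1 0 (.s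
  k86 k254 13 (.s k84 k87 0 (.d k252 k168 k169 13 14)))), (.s k86 k254 13 (.s k87 k84 0 (.s k83 k91
  1 (.s k81 k82 0 (.d k89 k93 k92 1 2)))))] (.c k4 (.q k5 [(.s k3 k1 0 (.s k82 k161 12 (.s k81 k83 0
  (.d k162 k242 k243 11 12)))), (.s k3 k1 0 (.s k86 k254 13 (.s k84 k87 0 (.d k252 k168 k169 13
  14)))), (.s k86 k254 13 (.s k87 k84 0 (.s k83 k91 1 (.s k81 k82 0 (.d k89 k93 k92 1 2)))))] .n)
  (.c k5 (.q k4 [(.s k3 k1 0 (.s k82 k161 12 (.s k81 k83 0 (.d k162 k242 k243 11 12)))), (.s k12 k8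
  1 (.s k86 k254 13 (.s k88 k164 13 (.d k84 k87 k92 0 1))))] (.c k9 (.l (.s k86 k254 13 (.s k84 k87
  0 (.s k88 k92 1 (.d k12 k8 k164 1 13))))) .n)) .n))))) (.c k15 (.f k80 k160 11 (.f k95 k90 2 (.q
  k3 [(.s k2 k1 0 (.s k82 k161 12 (.s k81 k83 0 (.d k162 k242 k243 11 12)))), (.s k1 k2 0 (.s k169
  k253 13 (.s k168 k171 0 (.d k252 k84 k86 13 14))))] (.c k1 (.l (.s k82 k161 12 (.s k81 k83 0 (.s
  k162 k243 12 (.s k2 k242 11 (.s k86 k254 13 (.s k84 k87 0 (.d k252 k168 k169 13 14)))))))) (.c k2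
  (.f k82 k161 12 (.l (.s k83 k81 0 (.s k87 k91 1 (.s k84 k86 0 (.s k88 k92 1 (.s k12 k164 13 (.s
  k168 k252 13 (.d k8 k4 k248 1 11))))))))) (.c k4 (.q k5 [(.s k2 k1 0 (.s k82 k161 12 (.s k81 k83 0
  (.d k162 k242 k243 11 12)))), (.s k161 k82 12 (.s k165 k245 11 (.s k169 k173 1 (.s k168 k171 0 (.d
  k252 k86 k84 14 13))))), (.s k1 k2 0 (.s k169 k253 13 (.s k168 k171 0 (.d k252 k84 k86 13 14))))]
  .n) (.c k5 (.q k4 [(.s k1 k2 0 (.s k169 k253 13 (.s k168 k171 0 (.d k252 k84 k86 13 14)))), (.s k8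
  k12 1 (.s k82 k161 12 (.s k81 k83 0 (.d k89 k93 k251 1 12))))] (.c k14 (.l (.s k2 k1 0 (.s k82
  k161 12 (.s k81 k83 0 (.d k162 k242 k243 11 12))))) .n)) .n))))))) (.c k80 (.q k12 [(.s k4 k8 1
  (.s k166 k247 12 (.s k162 k174 1 (.d k243 k81 k89 12 14)))), (.s k4 k8 1 (.s k164 k88 13 (.s k84
  k244 11 (.s k86 k87 0 (.s k2 k254 13 (.s k3 k1 0 (.d k252 k168 k169 13 14)))))))] (.c k4 (.q k5
  [(.s k165 k245 11 (.d k15 k10 k90 2 14)), (.s k164 k88 13 (.s k165 k245 11 (.s k166 k167 0 (.s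
  k162 k174 1 (.d k243 k81 k89 12 14))))), (.s k10 k15 2 (.s k88 k164 13 (.s k90 k250 11 (.s k89 k91
  0 (.s k81 k93 1 (.d k243 k162 k166 12 14))))))] .n) (.c k5 (.l (.s k4 k8 1 (.s k166 k247 12 (.s
  k162 k174 1 (.d k243 k81 k89 12 14))))) (.c k8 (.q k4 [(.s k166 k247 12 (.s k162 k174 1 (.d k243
  k81 k89 12 14))), (.s k164 k88 13 (.s k84 k244 11 (.s k168 k252 13 (.s k160 k172 1 (.s k165 k175 2
  (.s k15 k90 14 (.d k5 k10 k245 2 11))))))), (.s k164 k88 13 (.s k84 k244 11 (.s k86 k87 0 (.s k2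
  k254 13 (.s k3 k1 0 (.d k252 k168 k169 13 14))))))] .n) (.c k87 (.l (.s k4 k8 1 (.s k164 k88 13
  (.s k166 k247 12 (.s k167 k165 0 (.s k162 k174 1 (.d k243 k81 k89 12 14))))))) (.c k167 (.l (.s k4
  k8 1 (.s k164 k88 13 (.s k84 k244 11 (.s k168 k252 13 (.s k169 k171 0 (.s k172 k160 1 (.d k166
  k163 k247 2 12)))))))) (.c k247 (.f k4 k8 1 (.l (.s k164 k88 13 (.s k84 k244 11 (.s k168 k252 13
  (.s k160 k172 1 (.s k165 k175 2 (.s k15 k90 14 (.d k5 k245 k10 11 2))))))))) .n))))))) (.c k90 (.q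
  k4 [(.s k12 k8 1 (.s k166 k247 12 (.s k162 k174 1 (.d k243 k81 k89 12 14)))), (.s k12 k8 1 (.s
  k160 k80 11 (.s k164 k88 13 (.s k84 k244 11 (.d k168 k172 k252 1 13))))), (.s k160 k80 11 (.s k166
  k247 12 (.s k174 k162 1 (.s k175 k165 2 (.s k172 k173 0 (.s k168 k164 1 (.d k169 k171 k163 0
  2)))))))] .n) (.c k95 (.l (.s k160 k80 11 (.s k165 k175 2 (.s k15 k90 14 (.d k5 k10 k245 2 11)))))
  (.c k160 (.q k168 [(.s k169 k171 0 (.s k1 k253 13 (.s k252 k84 13 (.d k3 k2 k86 0 14)))), (.s k252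
  k84 13 (.s k248 k244 1 (.s k8 k88 11 (.s k89 k251 12 (.s k81 k93 1 (.s k243 k162 12 (.d k12 k4
  k166 1 14))))))), (.s k169 k171 0 (.s k1 k253 13 (.s k3 k2 0 (.s k161 k82 12 (.s k165 k173 1 (.s
  k5 k245 11 (.d k15 k10 k90 2 14)))))))] (.c k4 (.q k5 [(.s k165 k245 11 (.d k15 k10 k90 2 14)),
  (.s k169 k171 0 (.s k1 k253 13 (.s k252 k84 13 (.d k3 k2 k86 0 14))))] .n) (.c k5 (.q k4 [(.s k12
  k8 1 (.s k84 k252 13 (.d k164 k244 k88 11 13))), (.s k12 k8 1 (.s k166 k247 12 (.s k162 k174 1 (.d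
  k243 k81 k89 12 14)))), (.s k169 k171 0 (.s k1 k253 13 (.s k3 k2 0 (.d k252 k84 k86 13 14))))] .n)
  (.c k252 (.q k5 [(.s k165 k245 11 (.d k15 k10 k90 2 14)), (.s k165 k245 11 (.s k169 k171 0 (.s
  k161 k173 1 (.s k3 k82 12 (.d k1 k253 k2 13 0))))), (.s k10 k15 2 (.s k90 k250 11 (.s k169 k171 0
  (.s k11 k248 12 (.s k9 k8 0 (.d k1 k253 k13 13 1))))))] (.c k15 (.f k169 k171 0 (.l (.s k245 k165
  11 (.s k253 k1 13 (.s k249 k241 1 (.s k89 k9 11 (.s k8 k251 12 (.s k12 k4 1 (.d k88 k248 k164 11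
  13))))))))) (.c k253 (.q k254 [(.s k15 k10 2 (.d k165 k245 k90 11 14)), (.s k2 k86 13 (.s k3 k1 0
  (.s k165 k245 11 (.s k169 k171 0 (.d k161 k173 k82 1 12)))))] (.c k2 (.l (.s k165 k245 11 (.d k15
  k10 k90 2 14))) (.c k165 (.l (.s k10 k15 2 (.s k250 k90 11 (.s k242 k246 1 (.s k243 k241 0 (.s
  k162 k81 12 (.d k2 k86 k82 13 11))))))) (.c k245 (.l (.s k2 k86 13 (.s k3 k1 0 (.s k10 k15 2 (.s
  k82 k161 12 (.s k250 k90 11 (.d k242 k246 k162 1 11))))))) .n)))) (.c k254 (.q k253 [(.d k169 k171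
  k1 0 13), (.s k15 k10 2 (.d k165 k245 k90 11 14))] .n) .n)))) .n)))) (.c k165 (.f k80 k160 11 (.f
  k95 k90 2 (.q k86 [(.s k87 k84 0 (.s k83 k91 1 (.s k81 k82 0 (.d k89 k93 k92 1 2)))), (.s k2 k254
  13 (.s k3 k1 0 (.s k84 k87 0 (.d k252 k168 k169 13 14)))), (.s k2 k254 13 (.s k3 k1 0 (.s k82 k161
  12 (.s k81 k83 0 (.d k162 k242 k243 11 12)))))] (.c k4 (.q k5 [(.s k2 k254 13 (.s k3 k1 0 (.s k84
  k87 0 (.d k252 k168 k169 13 14)))), (.s k87 k84 0 (.s k83 k91 1 (.s k81 k82 0 (.d k89 k93 k92 1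
  2)))), (.s k2 k254 13 (.s k3 k1 0 (.s k82 k161 12 (.s k81 k83 0 (.d k162 k242 k243 11 12)))))] .n)
  (.c k5 (.q k4 [(.s k12 k8 1 (.s k84 k87 0 (.d k88 k92 k164 1 13))), (.s k8 k12 1 (.s k89 k251 12
  (.s k83 k92 2 (.d k81 k93 k82 1 0)))), (.s k84 k87 0 (.s k244 k164 11 (.d k252 k168 k248 13 1))),
  (.s k12 k8 1 (.s k88 k164 13 (.d k84 k87 k92 0 1)))] .n) .n))))) (.c k175 (.l (.s k80 k160 11 (.s
  k90 k95 2 (.s k15 k165 14 (.d k10 k5 k250 2 11))))) (.c k250 (.l (.s k160 k80 11 (.s k165 k175 2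
  (.s k5 k245 11 (.d k15 k10 k90 2 14))))) .n)))))))))))))

def t6_9 : T TT 256 :=
  (.q k3 [(.s k1 k2 0 (.s k169 k253 13 (.s k86 k252 14 (.s k87 k84 0 (.d k255 k171 k170 13 14))))),
  (.s k2 k1 0 (.s k170 k255 14 (.s k86 k254 13 (.s k84 k87 0 (.d k252 k168 k169 13 14)))))] (.c k1
  (.f k255 k170 14 (.q k5 [(.s k165 k245 11 (.s k15 k10 2 (.s k90 k240 14 (.d k95 k80 k175 2 11)))),
  (.s k87 k171 13 (.s k86 k84 0 (.s k165 k245 11 (.s k7 k244 12 (.d k15 k11 k10 1 2))))), (.s k87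
  k171 13 (.s k86 k84 0 (.s k245 k165 11 (.s k240 k250 2 (.s k82 k161 12 (.s k90 k94 1 (.d k80 k160
  k95 11 2))))))), (.s k15 k10 2 (.s k11 k7 1 (.s k171 k87 13 (.s k91 k251 11 (.s k167 k243 13 (.d
  k175 k163 k95 1 11))))))] (.c k10 (.f k87 k171 13 (.l (.s k86 k84 0 (.s k165 k245 11 (.s k7 k244
  12 (.s k169 k252 14 (.s k161 k173 1 (.s k240 k82 12 (.d k15 k11 k90 1 14))))))))) .n))) (.c k2 (.q
  k60 [(.s k20 k40 5 (.s k150 k215 8 (.s k105 k195 14 (.s k125 k65 5 (.d k255 k190 k170 8 14))))),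
  (.s k20 k40 5 (.s k22 k41 6 (.s k150 k215 8 (.s k86 k214 7 (.s k84 k87 0 (.d k252 k168 k169 13
  14)))))), (.s k22 k41 6 (.s k255 k170 14 (.s k87 k171 13 (.s k86 k84 0 (.s k125 k190 8 (.s k105
  k65 5 (.d k150 k214 k195 7 14)))))))] (.c k10 (.q k14 [(.s k20 k40 5 (.s k150 k215 8 (.s k105 k195
  14 (.s k125 k65 5 (.d k255 k190 k170 8 14))))), (.s k20 k40 5 (.s k22 k41 6 (.s k150 k215 8 (.s
  k86 k214 7 (.s k84 k87 0 (.d k252 k168 k169 13 14)))))), (.s k22 k41 6 (.s k255 k170 14 (.s k87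
  k171 13 (.s k86 k84 0 (.s k125 k190 8 (.s k105 k65 5 (.d k150 k214 k195 7 14)))))))] (.c k8 (.q
  k11 [(.s k40 k20 5 (.s k170 k255 14 (.s k105 k235 8 (.s k65 k125 5 (.d k195 k130 k150 8 14))))),
  (.s k15 k7 1 (.s k41 k22 6 (.s k45 k30 4 (.s k37 k33 1 (.d k26 k56 k48 4 6)))))] .n) (.c k11 (.q
  k8 [(.s k20 k40 5 (.s k150 k215 8 (.s k105 k195 14 (.s k125 k65 5 (.d k255 k190 k170 8 14))))),
  (.s k12 k4 1 (.s k40 k20 5 (.s k24 k56 3 (.s k36 k48 5 (.d k44 k32 k28 1 3))))), (.s k12 k4 1 (.s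
  k170 k255 14 (.s k89 k251 12 (.s k81 k93 1 (.d k243 k162 k166 12 14)))))] .n) (.c k150 (.l (.s k40
  k20 5 (.s k41 k22 6 (.s k170 k255 14 (.s k105 k235 8 (.s k169 k233 7 (.s k168 k171 0 (.d k252 k86
  k84 14 13)))))))) .n)))) (.c k14 (.q k10 [(.s k20 k40 5 (.s k150 k215 8 (.s k105 k195 14 (.s k125
  k65 5 (.d k255 k190 k170 8 14))))), (.s k15 k5 2 (.s k7 k11 1 (.s k22 k41 6 (.s k30 k45 4 (.s k26
  k18 1 (.d k37 k52 k48 4 6))))))] .n) (.c k150 (.l (.s k40 k20 5 (.s k41 k22 6 (.s k170 k255 14 (.s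
  k105 k235 8 (.s k169 k233 7 (.s k168 k171 0 (.d k252 k86 k84 14 13)))))))) .n)))) (.c k84 (.q k5
  [(.s k165 k245 11 (.s k170 k255 14 (.s k160 k175 2 (.s k240 k80 11 (.d k15 k10 k90 2 14))))), (.s
  k1 k2 0 (.s k165 k245 11 (.s k169 k253 13 (.s k173 k161 1 (.s k252 k86 14 (.d k15 k10 k94 2
  12)))))), (.s k15 k10 2 (.s k11 k7 1 (.s k255 k170 14 (.s k171 k87 13 (.s k91 k251 11 (.s k167
  k243 13 (.d k175 k163 k95 1 11)))))))] (.c k10 (.l (.s k165 k245 11 (.s k170 k255 14 (.s k160 k175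
  2 (.s k240 k80 11 (.s k161 k82 12 (.s k169 k173 1 (.d k1 k2 k253 0 13)))))))) (.c k15 (.l (.s k1
  k2 0 (.s k165 k245 11 (.s k169 k253 13 (.s k161 k173 1 (.s k170 k255 14 (.s k240 k82 12 (.d k160
  k175 k80 2 11)))))))) (.c k170 (.l (.s k1 k2 0 (.s k165 k245 11 (.s k169 k253 13 (.s k86 k252 14
  (.s k7 k244 12 (.d k15 k10 k11 2 1))))))) .n)))) (.c k86 (.f k170 k255 14 (.q k166 [(.s k4 k247 12
  (.s k162 k174 1 (.s k243 k81 12 (.d k12 k8 k89 1 14)))), (.s k1 k2 0 (.s k162 k174 1 (.s k169 k253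
  13 (.s k163 k172 2 (.s k160 k161 0 (.s k171 k168 0 (.d k175 k167 k165 1 2))))))), (.s k1 k2 0 (.s
  k4 k247 12 (.s k12 k8 1 (.s k169 k253 13 (.s k163 k172 2 (.d k243 k83 k89 11 14))))))] (.c k12 (.l
  (.s k1 k2 0 (.s k169 k253 13 (.s k163 k172 2 (.s k243 k83 11 (.d k162 k174 k81 1 12)))))) .n)))
  (.c k87 (.l (.s k1 k2 0 (.s k169 k253 13 (.s k170 k255 14 (.s k168 k171 0 (.d k252 k84 k86 13
  14)))))) (.c k169 (.f k170 k255 14 (.q k89 [(.s k8 k251 12 (.s k81 k93 1 (.s k243 k162 12 (.d k12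
  k4 k166 1 14)))), (.s k2 k1 0 (.s k81 k93 1 (.s k86 k254 13 (.s k83 k92 2 (.s k80 k82 0 (.s k87
  k84 0 (.d k95 k91 k90 1 2))))))), (.s k2 k1 0 (.s k8 k251 12 (.s k12 k4 1 (.s k86 k254 13 (.s k83
  k92 2 (.d k243 k163 k166 11 14))))))] (.c k12 (.l (.s k2 k1 0 (.s k86 k254 13 (.s k83 k92 2 (.s
  k243 k163 11 (.d k81 k93 k162 1 12)))))) .n))) (.c k170 (.q k17 [(.s k2 k1 0 (.s k34 k51 4 (.s k18
  k50 3 (.s k16 k19 0 (.d k48 k32 k33 3 4))))), (.s k1 k2 0 (.s k49 k33 3 (.s k153 k221 9 (.s k101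
  k205 13 (.s k117 k69 3 (.d k253 k185 k169 9 13)))))), (.s k51 k34 4 (.s k19 k35 3 (.s k153 k221 9
  (.s k86 k220 10 (.s k84 k87 0 (.d k252 k168 k169 13 14))))))] (.c k33 (.l (.s k1 k2 0 (.s k51 k34
  4 (.s k35 k19 3 (.s k153 k221 9 (.s k102 k204 14 (.d k169 k236 k253 10 13))))))) .n)) (.c k252 (.q
  k5 [(.s k165 k245 11 (.s k170 k255 14 (.s k160 k175 2 (.s k240 k80 11 (.d k15 k10 k90 2 14))))),
  (.s k165 k245 11 (.s k255 k170 14 (.s k87 k171 13 (.s k86 k84 0 (.s k7 k244 12 (.d k15 k11 k10 1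
  2)))))), (.s k15 k10 2 (.s k11 k7 1 (.s k255 k170 14 (.s k171 k87 13 (.s k91 k251 11 (.s k167 k243
  13 (.d k175 k163 k95 1 11)))))))] (.c k10 (.l (.s k165 k245 11 (.s k170 k255 14 (.s k160 k175 2
  (.s k240 k80 11 (.s k161 k82 12 (.s k169 k173 1 (.d k1 k253 k2 13 0)))))))) (.c k15 (.l (.s k1 k2
  0 (.s k245 k165 11 (.s k253 k169 13 (.s k255 k170 14 (.s k240 k250 2 (.s k161 k82 12 (.d k241 k249
  k81 1 11)))))))) (.c k170 (.l (.s k1 k2 0 (.s k165 k245 11 (.s k169 k253 13 (.s k161 k173 1 (.s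
  k240 k82 12 (.d k15 k10 k90 2 14))))))) (.c k255 (.l (.s k15 k10 2 (.s k165 k245 11 (.s k240 k90
  14 (.s k161 k82 12 (.s k169 k173 1 (.d k1 k2 k253 0 13))))))) .n))))) (.c k253 (.l (.s k2 k1 0 (.s
  k170 k255 14 (.s k86 k254 13 (.s k252 k169 14 (.d k84 k87 k168 0 13)))))) (.c k254 (.l (.s k1 k2 0
  (.s k169 k253 13 (.s k86 k252 14 (.s k255 k170 14 (.d k87 k84 k171 0 13)))))) (.c k255 (.q k17
  [(.s k1 k2 0 (.s k33 k49 3 (.s k18 k48 4 (.s k19 k16 0 (.d k51 k35 k34 3 4))))), (.s k51 k34 4 (.s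
  k19 k35 3 (.s k153 k221 9 (.s k86 k220 10 (.s k84 k87 0 (.d k252 k168 k169 13 14)))))), (.s k1 k2
  0 (.s k49 k33 3 (.s k153 k221 9 (.s k101 k205 13 (.s k117 k69 3 (.d k253 k185 k169 9 13))))))] (.c
  k33 (.l (.s k1 k2 0 (.s k51 k34 4 (.s k35 k19 3 (.s k153 k221 9 (.s k169 k253 13 (.d k102 k204
  k236 14 10))))))) .n)) .n))))))))))))

def t6_10 : T TT 256 :=
  (.f k170 k255 14 (.q k2 [(.s k3 k1 0 (.s k86 k254 13 (.s k84 k87 0 (.d k252 k168 k169 13 14))))]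
  (.c k1 (.q k4 [(.s k12 k8 1 (.s k166 k247 12 (.s k162 k174 1 (.d k243 k81 k89 12 14)))), (.s k86
  k254 13 (.s k84 k87 0 (.s k244 k164 11 (.s k165 k7 12 (.s k245 k5 11 (.d k247 k246 k166 0
  12)))))), (.s k12 k8 1 (.s k86 k254 13 (.s k84 k87 0 (.s k164 k244 11 (.s k88 k240 13 (.s k92 k80
  1 (.d k252 k172 k168 11 13)))))))] (.c k9 (.l (.s k166 k247 12 (.s k162 k174 1 (.s k243 k81 12 (.d
  k12 k8 k89 1 14))))) .n)) (.c k3 (.q k154 [(.s k16 k223 10 (.s k48 k32 3 (.s k138 k186 3 (.d k207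
  k69 k101 10 14)))), (.s k86 k254 13 (.s k18 k222 9 (.s k50 k34 3 (.s k138 k186 3 (.d k206 k70 k102
  9 13))))), (.s k16 k223 10 (.s k86 k254 13 (.s k18 k222 9 (.s k17 k19 0 (.d k34 k51 k50 4 3)))))]
  (.c k9 (.q k12 [(.s k16 k223 10 (.s k48 k32 3 (.s k138 k186 3 (.d k207 k69 k101 10 14)))), (.s k8
  k4 1 (.s k89 k251 12 (.s k81 k93 1 (.d k243 k162 k166 12 14))))] (.c k8 (.q k11 [(.s k16 k223 10
  (.s k48 k32 3 (.s k138 k186 3 (.d k207 k69 k101 10 14)))), (.s k86 k254 13 (.s k18 k222 9 (.s k50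
  k34 3 (.s k138 k186 3 (.d k206 k70 k102 9 13))))), (.s k16 k223 10 (.s k86 k254 13 (.s k18 k222 9
  (.s k17 k19 0 (.d k34 k51 k50 4 3)))))] (.c k87 (.q k171 [(.s k138 k186 3 (.s k207 k69 10 (.s k48
  k101 14 (.d k16 k32 k223 3 10)))), (.s k86 k254 13 (.s k18 k222 9 (.s k50 k34 3 (.s k138 k186 3
  (.d k206 k70 k102 9 13))))), (.s k16 k223 10 (.s k86 k254 13 (.s k18 k222 9 (.s k34 k50 3 (.d k17
  k19 k51 0 4)))))] (.c k186 (.l (.s k16 k223 10 (.s k48 k32 3 (.s k24 k36 5 (.s k89 k219 8 (.s k81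
  k93 1 (.d k243 k162 k166 12 14))))))) .n)) (.c k171 (.q k87 [(.d k86 k84 k254 0 13), (.s k16 k223
  10 (.s k48 k32 3 (.s k138 k186 3 (.d k207 k69 k101 10 14))))] .n) .n))) (.c k11 (.l (.s k8 k4 1
  (.s k89 k251 12 (.s k81 k93 1 (.d k243 k162 k166 12 14))))) (.c k87 (.q k171 [(.s k8 k4 1 (.s k89
  k251 12 (.s k81 k93 1 (.d k243 k162 k166 12 14)))), (.s k16 k223 10 (.s k48 k32 3 (.s k138 k186 3
  (.d k207 k69 k101 10 14))))] (.c k8 (.q k11 [(.s k138 k186 3 (.s k207 k69 10 (.s k48 k101 14 (.d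
  k16 k32 k223 3 10)))), (.s k86 k254 13 (.s k18 k222 9 (.s k50 k34 3 (.s k138 k186 3 (.d k206 k70
  k102 9 13))))), (.s k16 k223 10 (.s k86 k254 13 (.s k18 k222 9 (.s k34 k50 3 (.d k17 k19 k51 0
  4)))))] (.c k186 (.l (.s k16 k223 10 (.s k48 k32 3 (.s k24 k36 5 (.s k89 k219 8 (.s k81 k93 1 (.d
  k243 k162 k166 12 14))))))) .n)) (.c k11 (.l (.s k8 k4 1 (.s k89 k251 12 (.s k81 k93 1 (.d k243
  k162 k166 12 14))))) .n))) (.c k171 (.q k87 [(.d k86 k84 k254 0 13), (.s k8 k4 1 (.s k89 k251 12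
  (.s k81 k93 1 (.d k243 k162 k166 12 14))))] (.c k8 (.q k11 [(.d k86 k84 k254 0 13), (.s k16 k223
  10 (.s k48 k32 3 (.s k138 k186 3 (.d k207 k69 k101 10 14))))] .n) (.c k11 (.l (.s k8 k4 1 (.d k86
  k84 k254 0 13))) .n))) .n))))) (.c k12 (.q k9 [(.s k16 k223 10 (.s k48 k32 3 (.s k138 k186 3 (.d
  k207 k69 k101 10 14)))), (.s k86 k254 13 (.s k18 k222 9 (.s k50 k34 3 (.s k138 k186 3 (.d k206 k70
  k102 9 13))))), (.s k16 k223 10 (.s k86 k254 13 (.s k18 k222 9 (.s k17 k19 0 (.d k34 k51 k50 4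
  3)))))] (.c k87 (.q k171 [(.s k138 k186 3 (.s k207 k69 10 (.s k48 k101 14 (.d k16 k32 k223 3
  10)))), (.s k169 k168 0 (.s k1 k253 13 (.s k13 k5 1 (.s k89 k249 11 (.s k241 k165 13 (.d k81 k93
  k161 1 11))))))] (.c k93 (.q k174 [(.s k138 k186 3 (.s k207 k69 10 (.s k48 k101 14 (.d k16 k32
  k223 3 10)))), (.s k86 k254 13 (.s k18 k222 9 (.s k50 k34 3 (.s k138 k186 3 (.d k206 k70 k102 9
  13))))), (.s k16 k223 10 (.s k86 k254 13 (.s k18 k222 9 (.s k34 k50 3 (.d k17 k19 k51 0 4)))))]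
  (.c k186 (.l (.s k16 k223 10 (.s k48 k32 3 (.s k86 k254 13 (.s k168 k169 0 (.s k207 k101 14 (.s
  k222 k18 9 (.d k252 k237 k84 4 13)))))))) .n)) (.c k174 (.q k93 [(.s k89 k81 1 (.d k169 k168 k249
  0 11)), (.s k16 k223 10 (.s k48 k32 3 (.s k138 k186 3 (.d k207 k69 k101 10 14))))] .n) .n))) (.c
  k93 (.q k174 [(.s k138 k186 3 (.s k207 k69 10 (.s k48 k101 14 (.d k16 k32 k223 3 10)))), (.s k16
  k223 10 (.s k86 k254 13 (.s k18 k222 9 (.s k17 k19 0 (.d k34 k51 k50 4 3))))), (.s k86 k254 13 (.s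
  k18 k222 9 (.s k50 k34 3 (.s k138 k186 3 (.d k206 k70 k102 9 13)))))] (.c k87 (.q k171 [(.s k138
  k186 3 (.s k207 k69 10 (.s k48 k101 14 (.d k16 k32 k223 3 10)))), (.s k86 k254 13 (.s k18 k222 9
  (.s k50 k34 3 (.s k138 k186 3 (.d k206 k70 k102 9 13))))), (.s k16 k223 10 (.s k86 k254 13 (.s k18
  k222 9 (.s k34 k50 3 (.d k17 k19 k51 0 4)))))] (.c k186 (.l (.s k16 k223 10 (.s k48 k32 3 (.s k86
  k254 13 (.s k168 k169 0 (.s k207 k101 14 (.s k222 k18 9 (.d k252 k237 k84 4 13)))))))) .n)) (.c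
  k171 (.q k87 [(.d k86 k84 k254 0 13), (.s k16 k223 10 (.s k48 k32 3 (.s k138 k186 3 (.d k207 k69
  k101 10 14))))] .n) .n))) (.c k171 (.q k87 [(.d k86 k84 k254 0 13), (.s k16 k223 10 (.s k48 k32 3
  (.s k138 k186 3 (.d k207 k69 k101 10 14))))] (.c k93 (.q k174 [(.d k86 k84 k254 0 13), (.s k16
  k223 10 (.s k48 k32 3 (.s k138 k186 3 (.d k207 k69 k101 10 14))))] .n) (.c k174 (.q k93 [(.d k86
  k84 k254 0 13), (.s k16 k223 10 (.s k48 k32 3 (.s k138 k186 3 (.d k207 k69 k101 10 14))))] .n)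
  .n))) (.c k174 (.q k93 [(.s k16 k223 10 (.s k48 k32 3 (.s k138 k186 3 (.d k207 k69 k101 10 14)))),
  (.s k86 k254 13 (.s k18 k222 9 (.s k50 k34 3 (.s k138 k186 3 (.d k206 k70 k102 9 13))))), (.s k16
  k223 10 (.s k86 k254 13 (.s k18 k222 9 (.s k17 k19 0 (.d k34 k51 k50 4 3)))))] (.c k87 (.q k171
  [(.s k89 k81 1 (.d k169 k168 k249 0 11)), (.s k16 k223 10 (.s k48 k32 3 (.s k138 k186 3 (.d k207
  k69 k101 10 14))))] .n) (.c k171 (.q k87 [(.d k86 k84 k254 0 13), (.s k16 k223 10 (.s k48 k32 3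
  (.s k138 k186 3 (.d k207 k69 k101 10 14))))] .n) .n))) .n))))) (.c k87 (.q k171 [(.s k138 k186 3
  (.s k207 k69 10 (.s k48 k101 14 (.d k16 k32 k223 3 10)))), (.s k86 k254 13 (.s k18 k222 9 (.s k50
  k34 3 (.s k138 k186 3 (.d k206 k70 k102 9 13))))), (.s k16 k223 10 (.s k86 k254 13 (.s k18 k222 9
  (.s k34 k50 3 (.d k17 k19 k51 0 4)))))] (.c k9 (.q k12 [(.s k8 k4 1 (.s k89 k251 12 (.s k81 k93 1
  (.d k243 k162 k166 12 14)))), (.s k16 k223 10 (.s k48 k32 3 (.s k138 k186 3 (.d k207 k69 k101 10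
  14))))] (.c k8 (.q k11 [(.s k138 k186 3 (.s k207 k69 10 (.s k48 k101 14 (.d k16 k32 k223 3 10)))),
  (.s k86 k254 13 (.s k18 k222 9 (.s k50 k34 3 (.s k138 k186 3 (.d k206 k70 k102 9 13))))), (.s k16
  k223 10 (.s k86 k254 13 (.s k18 k222 9 (.s k34 k50 3 (.d k17 k19 k51 0 4)))))] (.c k186 (.l (.s
  k16 k223 10 (.s k48 k32 3 (.s k24 k36 5 (.s k89 k219 8 (.s k81 k93 1 (.d k243 k162 k166 12
  14))))))) .n)) (.c k11 (.l (.s k8 k4 1 (.s k89 k251 12 (.s k81 k93 1 (.d k243 k162 k166 12 14)))))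
  .n))) (.c k12 (.q k9 [(.s k138 k186 3 (.s k207 k69 10 (.s k48 k101 14 (.d k16 k32 k223 3 10)))),
  (.s k169 k168 0 (.s k1 k253 13 (.s k13 k5 1 (.s k89 k249 11 (.s k241 k165 13 (.d k81 k93 k161 1
  11))))))] (.c k93 (.q k174 [(.s k138 k186 3 (.s k207 k69 10 (.s k48 k101 14 (.d k16 k32 k223 3
  10)))), (.s k86 k254 13 (.s k18 k222 9 (.s k50 k34 3 (.s k138 k186 3 (.d k206 k70 k102 9 13))))),
  (.s k16 k223 10 (.s k86 k254 13 (.s k18 k222 9 (.s k34 k50 3 (.d k17 k19 k51 0 4)))))] (.c k186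
  (.l (.s k16 k223 10 (.s k48 k32 3 (.s k86 k254 13 (.s k168 k169 0 (.s k207 k101 14 (.s k222 k18 9
  (.d k252 k237 k84 4 13)))))))) .n)) (.c k174 (.q k93 [(.s k89 k81 1 (.d k169 k168 k249 0 11)), (.s
  k16 k223 10 (.s k48 k32 3 (.s k138 k186 3 (.d k207 k69 k101 10 14))))] .n) .n))) (.c k186 (.l (.s
  k16 k223 10 (.s k48 k32 3 (.s k86 k254 13 (.s k168 k169 0 (.s k207 k101 14 (.s k222 k18 9 (.d k252
  k237 k84 4 13)))))))) .n)))) (.c k171 (.q k87 [(.d k86 k84 k254 0 13), (.s k16 k223 10 (.s k48 k32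
  3 (.s k138 k186 3 (.d k207 k69 k101 10 14))))] (.c k9 (.q k12 [(.d k86 k84 k254 0 13), (.s k8 k4 1
  (.s k89 k251 12 (.s k81 k93 1 (.d k243 k162 k166 12 14))))] (.c k8 (.q k11 [(.d k86 k84 k254 0
  13), (.s k16 k223 10 (.s k48 k32 3 (.s k138 k186 3 (.d k207 k69 k101 10 14))))] .n) (.c k11 (.l
  (.s k8 k4 1 (.d k86 k84 k254 0 13))) .n))) (.c k12 (.q k9 [(.d k86 k84 k254 0 13), (.s k16 k223 10
  (.s k48 k32 3 (.s k138 k186 3 (.d k207 k69 k101 10 14))))] (.c k93 (.q k174 [(.d k86 k84 k254 0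
  13), (.s k16 k223 10 (.s k48 k32 3 (.s k138 k186 3 (.d k207 k69 k101 10 14))))] .n) (.c k174 (.q
  k93 [(.d k86 k84 k254 0 13), (.s k16 k223 10 (.s k48 k32 3 (.s k138 k186 3 (.d k207 k69 k101 10
  14))))] .n) .n))) .n))) .n))))) (.c k84 (.q k16 [(.s k48 k32 3 (.s k154 k223 10 (.s k138 k186 3
  (.d k207 k69 k101 10 14)))), (.s k3 k1 0 (.s k48 k32 3 (.s k18 k33 4 (.s k17 k19 0 (.d k34 k50 k51
  3 4))))), (.s k86 k254 13 (.s k154 k223 10 (.s k18 k222 9 (.s k17 k19 0 (.d k34 k50 k51 3 4)))))]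
  .n) (.c k86 (.q k166 [(.s k4 k247 12 (.s k162 k174 1 (.s k243 k81 12 (.d k12 k8 k89 1 14)))), (.s
  k1 k3 0 (.s k162 k174 1 (.s k169 k253 13 (.s k163 k172 2 (.s k160 k161 0 (.s k171 k168 0 (.d k175
  k167 k165 1 2))))))), (.s k1 k3 0 (.s k4 k247 12 (.s k12 k8 1 (.s k169 k253 13 (.s k172 k163 2 (.s
  k252 k92 11 (.d k168 k171 k84 0 13)))))))] (.c k12 (.f k3 k1 0 (.q k82 [(.d k162 k174 k242 1 11),
  (.s k4 k247 12 (.s k240 k161 12 (.s k160 k80 11 (.s k165 k175 2 (.s k164 k167 0 (.s k84 k244 11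
  (.d k168 k172 k252 1 13)))))))] (.c k93 (.l (.s k174 k162 1 (.s k240 k161 12 (.s k160 k80 11 (.s
  k175 k165 2 (.s k172 k173 0 (.s k169 k163 2 (.d k168 k171 k164 0 1)))))))) (.c k174 (.q k93 [(.s
  k162 k242 11 (.d k81 k89 k243 1 12)), (.s k242 k162 11 (.s k90 k14 13 (.s k80 k95 2 (.d k240 k160
  k161 11 12)))), (.s k81 k89 1 (.s k240 k161 12 (.d k80 k83 k160 0 11)))] .n) .n)))) .n)) (.c k87
  (.f k86 k254 13 (.f k3 k1 0 (.q k192 [(.s k64 k128 7 (.s k66 k129 8 (.d k106 k126 k127 5 6))), (.s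
  k64 k128 7 (.s k106 k127 6 (.s k42 k234 7 (.d k63 k21 k149 6 14)))), (.s k66 k129 8 (.s k106 k126
  5 (.s k42 k234 7 (.d k63 k21 k149 6 14))))] (.c k106 (.l (.s k64 k128 7 (.s k66 k129 8 (.s k65 k67
  0 (.d k130 k194 k195 7 8))))) (.c k252 (.q k253 [(.s k64 k128 7 (.s k66 k129 8 (.d k106 k126 k127
  5 6))), (.s k64 k128 7 (.s k106 k127 6 (.s k42 k234 7 (.d k63 k21 k149 6 14)))), (.s k66 k129 8
  (.s k106 k126 5 (.s k42 k234 7 (.d k63 k21 k149 6 14))))] (.c k106 (.l (.s k64 k128 7 (.s k66 k129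
  8 (.s k65 k67 0 (.d k130 k194 k195 7 8))))) .n)) (.c k253 (.l (.s k252 k169 14 (.s k64 k128 7 (.s
  k66 k129 8 (.d k106 k126 k127 5 6))))) .n)))))) (.c k168 (.q k8 [(.s k89 k251 12 (.s k81 k93 1 (.s
  k243 k162 12 (.d k12 k4 k166 1 14)))), (.s k3 k1 0 (.s k12 k4 1 (.s k86 k254 13 (.s k252 k169 14
  (.s k92 k172 11 (.d k89 k83 k251 2 12)))))), (.s k3 k1 0 (.s k86 k254 13 (.s k89 k251 12 (.s k83
  k92 2 (.s k243 k163 11 (.d k81 k93 k162 1 12)))))), (.s k4 k12 1 (.s k86 k254 13 (.s k84 k87 0 (.s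
  k244 k164 11 (.s k165 k7 12 (.s k245 k5 11 (.d k247 k246 k166 0 12)))))))] .n) (.c k169 (.q k4
  [(.s k166 k247 12 (.s k162 k174 1 (.s k243 k81 12 (.d k12 k8 k89 1 14)))), (.s k86 k254 13 (.s k84
  k87 0 (.s k244 k164 11 (.s k165 k7 12 (.s k245 k5 11 (.d k247 k246 k166 0 12)))))), (.s k12 k8 1
  (.s k86 k254 13 (.s k84 k87 0 (.s k164 k244 11 (.s k88 k240 13 (.s k92 k80 1 (.d k252 k172 k168 11
  13)))))))] .n) (.c k252 (.q k105 [(.s k40 k235 8 (.s k60 k20 5 (.s k65 k125 5 (.d k195 k130 k150 8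
  14)))), (.s k1 k3 0 (.s k65 k125 5 (.s k193 k129 7 (.s k61 k149 13 (.s k41 k21 5 (.d k169 k253
  k233 13 7)))))), (.s k1 k3 0 (.s k40 k235 8 (.s k169 k253 13 (.s k254 k86 13 (.s k41 k233 7 (.s
  k21 k61 5 (.d k42 k43 k63 0 6)))))))] (.c k125 (.l (.s k3 k1 0 (.s k40 k235 8 (.s k60 k20 5 (.s
  k195 k150 14 (.s k67 k131 7 (.d k86 k124 k254 6 13))))))) (.c k253 (.l (.s k254 k86 13 (.s k40
  k235 8 (.s k60 k20 5 (.s k65 k125 5 (.d k195 k130 k150 8 14)))))) (.c k254 (.q k253 [(.d k1 k3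
  k169 0 13), (.s k40 k235 8 (.s k60 k20 5 (.s k65 k125 5 (.d k195 k130 k150 8 14))))] .n) .n))))
  (.c k253 (.l (.s k3 k1 0 (.s k86 k254 13 (.s k252 k169 14 (.d k84 k87 k168 0 13))))) (.c k254 (.q
  k105 [(.s k40 k235 8 (.s k60 k20 5 (.s k65 k125 5 (.d k195 k130 k150 8 14)))), (.s k1 k3 0 (.s
  k125 k65 5 (.s k253 k169 13 (.s k61 k189 7 (.s k149 k193 13 (.d k21 k41 k213 5 7)))))), (.s k3 k1
  0 (.s k40 k235 8 (.s k60 k20 5 (.s k41 k22 6 (.s k169 k233 7 (.s k168 k171 0 (.d k252 k84 k86 13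
  14)))))))] (.c k252 (.q k253 [(.d k1 k3 k169 0 13), (.s k40 k235 8 (.s k60 k20 5 (.s k65 k125 5
  (.d k195 k130 k150 8 14))))] .n) (.c k253 (.q k252 [(.s k3 k1 0 (.s k84 k168 13 (.d k86 k87 k169 0
  14))), (.s k40 k235 8 (.s k60 k20 5 (.s k65 k125 5 (.d k195 k130 k150 8 14))))] .n) .n)))
  .n))))))))))))

def t6_11 : T TT 256 :=
  (.f k255 k170 14 (.q k106 [(.s k64 k127 6 (.s k192 k128 7 (.s k149 k63 14 (.d k213 k234 k21 6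
  7))))] (.c k21 (.q k1 [(.s k3 k2 0 (.s k169 k253 13 (.s k86 k252 14 (.d k87 k84 k171 0 13)))), (.s
  k64 k127 6 (.s k192 k128 7 (.s k213 k234 6 (.s k253 k169 13 (.s k193 k233 5 (.s k65 k129 7 (.d
  k195 k130 k194 8 0))))))), (.s k3 k2 0 (.s k64 k127 6 (.s k192 k128 7 (.s k66 k129 8 (.s k86 k126
  5 (.d k87 k84 k171 0 13))))))] (.c k171 (.l (.s k3 k2 0 (.s k127 k64 6 (.s k63 k191 7 (.s k43 k23
  5 (.d k169 k232 k253 8 13)))))) .n)) (.c k63 (.q k1 [(.s k3 k2 0 (.s k169 k253 13 (.s k86 k252 14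
  (.d k87 k84 k171 0 13)))), (.s k64 k127 6 (.s k192 k128 7 (.s k213 k234 6 (.s k253 k169 13 (.s
  k193 k233 5 (.s k65 k129 7 (.d k195 k130 k194 8 0))))))), (.s k64 k127 6 (.s k169 k253 13 (.s k192
  k128 7 (.s k232 k43 8 (.s k252 k212 5 (.s k84 k168 13 (.d k86 k3 k87 14 0))))))), (.s k3 k2 0 (.s
  k64 k127 6 (.s k192 k128 7 (.s k66 k129 8 (.s k86 k126 5 (.d k87 k84 k171 0 13))))))] .n) (.c k64
  (.q k60 [(.s k20 k40 5 (.s k125 k190 8 (.s k150 k215 8 (.d k105 k65 k195 5 14)))), (.s k20 k40 5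
  (.s k150 k215 8 (.s k62 k194 13 (.s k63 k61 0 (.s k21 k42 6 (.d k149 k213 k192 7 14)))))), (.s
  k125 k190 8 (.s k105 k65 5 (.s k104 k107 0 (.s k192 k148 13 (.s k149 k63 14 (.d k213 k234 k21 6
  7))))))] (.c k105 (.q k87 [(.s k3 k171 13 (.s k86 k84 0 (.s k169 k252 14 (.d k1 k2 k253 0 13)))),
  (.s k86 k84 0 (.s k126 k66 5 (.s k190 k125 8 (.s k62 k254 7 (.s k150 k194 13 (.d k20 k40 k215 5
  8)))))), (.s k3 k171 13 (.s k2 k1 0 (.s k22 k41 6 (.s k42 k62 5 (.s k21 k63 6 (.d k20 k40 k23 5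
  0))))))] (.c k2 (.l (.s k3 k171 13 (.s k22 k41 6 (.s k86 k84 0 (.s k150 k214 7 (.d k20 k40 k215 5
  8)))))) (.c k40 (.q k235 [(.s k3 k171 13 (.s k86 k84 0 (.s k169 k252 14 (.d k1 k2 k253 0 13)))),
  (.s k86 k84 0 (.s k126 k66 5 (.s k190 k125 8 (.s k62 k254 7 (.s k150 k194 13 (.d k215 k195 k20 5
  8)))))), (.s k3 k171 13 (.s k22 k41 6 (.s k215 k195 5 (.s k20 k150 8 (.d k23 k21 k151 0 7)))))]
  .n) (.c k235 (.l (.s k40 k20 5 (.s k3 k171 13 (.s k1 k2 0 (.s k86 k84 0 (.d k169 k253 k252 13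
  14)))))) .n)))) (.c k150 (.q k149 [(.s k21 k213 7 (.d k63 k42 k192 6 14)), (.s k63 k192 14 (.s k61
  k62 0 (.s k105 k193 13 (.d k125 k190 k65 8 5))))] (.c k63 (.l (.s k213 k21 7 (.s k192 k234 6 (.s
  k104 k148 13 (.s k105 k107 0 (.d k125 k65 k190 5 8)))))) (.c k130 (.l (.s k190 k125 8 (.s k21 k213
  7 (.d k63 k42 k192 6 14)))) (.c k190 (.q k130 [(.s k21 k213 7 (.d k63 k42 k192 6 14)), (.s k63
  k192 14 (.s k61 k62 0 (.s k65 k195 8 (.d k105 k193 k125 13 5))))] (.c k63 (.l (.s k65 k195 8 (.s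
  k105 k125 5 (.s k213 k21 7 (.s k192 k234 6 (.d k104 k107 k148 0 13)))))) (.c k192 (.l (.s k21 k213
  7 (.s k63 k42 6 (.s k61 k62 0 (.s k65 k195 8 (.d k105 k193 k125 13 5)))))) .n))) (.c k192 (.l (.s
  k21 k213 7 (.s k63 k42 6 (.s k61 k62 0 (.s k105 k193 13 (.d k125 k65 k190 5 8)))))) .n))))) .n)))
  (.c k127 (.q k195 [(.s k65 k130 8 (.s k215 k235 5 (.s k150 k20 8 (.d k105 k125 k60 5 14)))), (.s
  k65 k130 8 (.s k105 k125 5 (.s k107 k104 0 (.s k63 k151 13 (.s k21 k42 6 (.d k149 k213 k192 7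
  14)))))), (.s k215 k235 5 (.s k150 k20 8 (.s k194 k62 13 (.s k192 k193 0 (.s k149 k63 14 (.d k213
  k234 k21 6 7))))))] (.c k105 (.q k81 [(.s k89 k93 1 (.s k243 k162 12 (.s k166 k12 14 (.d k247 k251
  k4 1 12)))), (.s k65 k130 8 (.s k97 k113 3 (.s k48 k146 12 (.s k32 k16 3 (.d k162 k227 k243 8
  12)))))] (.c k40 (.l (.s k235 k215 5 (.s k89 k93 1 (.s k243 k162 12 (.s k166 k12 14 (.d k247 k251
  k4 1 12)))))) (.c k162 (.l (.s k65 k130 8 (.s k89 k93 1 (.s k97 k113 3 (.s k146 k48 12 (.s k211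
  k16 8 (.s k150 k28 10 (.d k215 k20 k235 8 5)))))))) (.c k235 (.q k40 [(.s k89 k93 1 (.s k243 k162
  12 (.s k166 k12 14 (.d k247 k251 k4 1 12)))), (.s k20 k60 5 (.s k150 k215 8 (.s k194 k62 13 (.s
  k192 k193 0 (.s k213 k234 6 (.d k149 k63 k21 14 7))))))] .n) (.c k243 (.l (.s k65 k130 8 (.s k93
  k89 1 (.s k12 k174 12 (.s k8 k4 1 (.s k73 k134 10 (.s k69 k77 1 (.d k138 k203 k207 8 10))))))))
  .n))))) (.c k150 (.q k199 [(.s k207 k203 1 (.s k69 k138 10 (.s k101 k117 3 (.s k154 k48 14 (.d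
  k223 k239 k16 3 10))))), (.s k215 k235 5 (.s k247 k231 3 (.s k4 k166 12 (.s k12 k8 1 (.d k134 k69
  k73 8 10))))), (.s k207 k203 1 (.s k215 k235 5 (.s k223 k239 3 (.s k219 k211 1 (.d k231 k247 k243
  3 5))))), (.s k207 k203 1 (.s k69 k138 10 (.s k4 k134 8 (.s k215 k235 5 (.d k247 k166 k231 12
  3)))))] (.c k130 (.q k190 [(.s k207 k203 1 (.s k69 k138 10 (.s k101 k117 3 (.s k154 k48 14 (.d
  k223 k239 k16 3 10))))), (.s k215 k235 5 (.s k247 k231 3 (.s k4 k166 12 (.s k12 k8 1 (.d k134 k69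
  k73 8 10))))), (.s k207 k203 1 (.s k215 k235 5 (.s k223 k239 3 (.s k219 k211 1 (.d k231 k247 k243
  3 5))))), (.s k125 k60 8 (.s k65 k105 5 (.s k207 k203 1 (.s k69 k138 10 (.s k73 k77 1 (.d k134 k4
  k12 8 10))))))] .n) (.c k190 (.l (.s k130 k65 8 (.s k207 k203 1 (.s k69 k138 10 (.s k4 k134 8 (.s
  k215 k235 5 (.d k247 k166 k231 12 3))))))) .n))) .n))) (.c k128 (.l (.s k127 k64 6 (.s k63 k191 7
  (.s k149 k192 14 (.d k21 k42 k213 6 7))))) (.c k149 (.f k127 k64 6 (.q k101 [(.s k69 k117 3 (.s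
  k207 k138 10 (.s k154 k48 14 (.d k223 k239 k16 3 10)))), (.s k111 k96 2 (.s k95 k79 3 (.s k15 k175
  11 (.s k5 k10 2 (.s k165 k245 11 (.d k90 k80 k240 2 14))))))] (.c k69 (.l (.s k111 k96 2 (.s k79
  k95 3 (.s k112 k90 6 (.s k117 k122 2 (.s k48 k186 10 (.s k16 k32 3 (.d k154 k223 k207 10
  14)))))))) (.c k128 (.l (.s k191 k63 7 (.s k69 k117 3 (.s k207 k138 10 (.s k154 k48 14 (.d k223
  k239 k16 3 10)))))) (.c k191 (.q k128 [(.s k69 k117 3 (.s k207 k138 10 (.s k154 k48 14 (.d k223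
  k239 k16 3 10)))), (.s k111 k96 2 (.s k95 k79 3 (.s k15 k175 11 (.s k5 k10 2 (.s k165 k245 11 (.d
  k90 k80 k240 2 14))))))] (.c k69 (.l (.s k111 k96 2 (.s k79 k95 3 (.s k112 k90 6 (.s k117 k122 2
  (.s k48 k186 10 (.s k16 k32 3 (.d k154 k223 k207 10 14)))))))) .n)) .n))))) (.c k191 (.l (.s k64
  k127 6 (.s k192 k128 7 (.s k149 k63 14 (.d k213 k234 k21 6 7))))) (.c k192 (.q k1 [(.s k3 k2 0 (.s
  k169 k253 13 (.s k86 k252 14 (.d k87 k84 k171 0 13)))), (.s k127 k64 6 (.s k63 k191 7 (.s k21 k42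
  6 (.s k61 k41 5 (.s k253 k169 13 (.s k125 k189 7 (.d k60 k190 k62 8 0))))))), (.s k3 k2 0 (.s k127
  k64 6 (.s k63 k191 7 (.s k21 k42 6 (.s k23 k43 5 (.s k22 k20 0 (.d k41 k61 k60 5 6)))))))] .n) (.c
  k213 (.q k1 [(.s k3 k2 0 (.s k169 k253 13 (.s k86 k252 14 (.d k87 k84 k171 0 13)))), (.s k127 k64
  6 (.s k63 k191 7 (.s k21 k42 6 (.s k61 k41 5 (.s k60 k62 0 (.s k125 k190 8 (.d k253 k189 k169 7
  13))))))), (.s k64 k127 6 (.s k169 k253 13 (.s k192 k128 7 (.s k149 k63 14 (.s k129 k189 5 (.s k66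
  k3 8 (.d k65 k193 k67 7 0))))))), (.s k3 k2 0 (.s k64 k127 6 (.s k192 k128 7 (.s k66 k129 8 (.s
  k86 k126 5 (.d k87 k84 k171 0 13))))))] .n) (.c k234 (.l (.s k127 k64 6 (.s k63 k191 7 (.s k21 k42
  6 (.d k149 k213 k192 7 14))))) .n))))))))))))

def t6_13 : T TT 256 :=
  (.f k255 k170 14 (.q k106 [(.s k64 k127 6 (.s k192 k128 7 (.s k149 k63 14 (.d k213 k234 k21 6
  7))))] (.c k21 (.q k1 [(.s k3 k2 0 (.s k87 k171 13 (.s k86 k84 0 (.d k169 k253 k252 13 14)))), (.s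
  k64 k127 6 (.s k169 k253 13 (.s k192 k128 7 (.s k149 k63 14 (.s k129 k189 5 (.s k65 k193 7 (.d k66
  k67 k3 0 8))))))), (.s k3 k2 0 (.s k64 k127 6 (.s k192 k128 7 (.s k66 k129 8 (.s k86 k126 5 (.d
  k87 k84 k171 0 13))))))] (.c k3 (.l (.s k64 k127 6 (.s k192 k128 7 (.s k213 k234 6 (.s k253 k169
  13 (.s k193 k233 5 (.s k65 k129 7 (.d k195 k130 k194 8 0)))))))) .n)) (.c k63 (.q k1 [(.s k3 k2 0
  (.s k87 k171 13 (.s k86 k84 0 (.d k169 k253 k252 13 14)))), (.s k64 k127 6 (.s k192 k128 7 (.s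
  k213 k234 6 (.s k253 k169 13 (.s k193 k233 5 (.s k65 k129 7 (.d k195 k130 k194 8 0))))))), (.s k3
  k2 0 (.s k64 k127 6 (.s k192 k128 7 (.s k66 k129 8 (.s k86 k126 5 (.d k87 k84 k171 0 13))))))] (.c
  k171 (.l (.s k3 k2 0 (.s k64 k127 6 (.s k169 k253 13 (.s k86 k252 14 (.s k192 k128 7 (.d k66 k126
  k129 5 8))))))) .n)) (.c k64 (.q k60 [(.s k20 k40 5 (.s k125 k190 8 (.s k150 k215 8 (.d k105 k65
  k195 5 14)))), (.s k20 k40 5 (.s k150 k215 8 (.s k62 k194 13 (.s k63 k61 0 (.s k21 k42 6 (.d k149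
  k213 k192 7 14)))))), (.s k125 k190 8 (.s k105 k65 5 (.s k104 k107 0 (.s k192 k148 13 (.s k149 k63
  14 (.d k213 k234 k21 6 7))))))] (.c k105 (.q k87 [(.s k3 k171 13 (.s k86 k84 0 (.s k169 k252 14
  (.d k1 k2 k253 0 13)))), (.s k86 k84 0 (.s k126 k66 5 (.s k190 k125 8 (.s k62 k254 7 (.s k150 k194
  13 (.d k20 k40 k215 5 8)))))), (.s k3 k171 13 (.s k2 k1 0 (.s k22 k41 6 (.s k42 k62 5 (.s k21 k63
  6 (.d k20 k40 k23 5 0))))))] (.c k2 (.l (.s k3 k171 13 (.s k22 k41 6 (.s k86 k84 0 (.s k150 k214 7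
  (.d k20 k40 k215 5 8)))))) (.c k40 (.q k235 [(.s k3 k171 13 (.s k86 k84 0 (.s k169 k252 14 (.d k1
  k2 k253 0 13)))), (.s k3 k171 13 (.s k22 k41 6 (.s k215 k195 5 (.s k20 k150 8 (.d k23 k21 k151 0
  7))))), (.s k86 k84 0 (.s k126 k66 5 (.s k190 k125 8 (.s k62 k254 7 (.s k150 k194 13 (.d k215 k195
  k20 5 8))))))] .n) (.c k235 (.l (.s k40 k20 5 (.s k3 k171 13 (.s k1 k2 0 (.s k86 k84 0 (.d k169
  k253 k252 13 14)))))) .n)))) (.c k150 (.q k149 [(.s k21 k213 7 (.d k63 k42 k192 6 14)), (.s k63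
  k192 14 (.s k61 k62 0 (.s k105 k193 13 (.d k125 k190 k65 8 5))))] (.c k63 (.l (.s k213 k21 7 (.s
  k192 k234 6 (.s k104 k148 13 (.s k105 k107 0 (.d k125 k65 k190 5 8)))))) (.c k130 (.l (.s k190
  k125 8 (.s k21 k213 7 (.d k63 k42 k192 6 14)))) (.c k190 (.q k130 [(.s k21 k213 7 (.d k63 k42 k192
  6 14)), (.s k63 k192 14 (.s k61 k62 0 (.s k65 k195 8 (.d k105 k193 k125 13 5))))] (.c k63 (.l (.s
  k65 k195 8 (.s k105 k125 5 (.s k213 k21 7 (.s k192 k234 6 (.d k104 k107 k148 0 13)))))) (.c k192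
  (.l (.s k21 k213 7 (.s k63 k42 6 (.s k61 k62 0 (.s k65 k195 8 (.d k105 k193 k125 13 5)))))) .n)))
  (.c k192 (.l (.s k21 k213 7 (.s k63 k42 6 (.s k61 k62 0 (.s k105 k193 13 (.d k125 k65 k190 5
  8)))))) .n))))) .n))) (.c k127 (.q k195 [(.s k65 k130 8 (.s k215 k235 5 (.s k150 k20 8 (.d k105
  k125 k60 5 14)))), (.s k65 k130 8 (.s k105 k125 5 (.s k107 k104 0 (.s k63 k151 13 (.s k21 k42 6
  (.d k149 k213 k192 7 14)))))), (.s k215 k235 5 (.s k150 k20 8 (.s k194 k62 13 (.s k192 k193 0 (.s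
  k149 k63 14 (.d k213 k234 k21 6 7))))))] (.c k105 (.q k149 [(.s k21 k213 7 (.d k63 k42 k192 6
  14)), (.s k63 k192 14 (.s k151 k107 13 (.s k150 k148 0 (.d k215 k235 k20 5 8))))] (.c k40 (.l (.s
  k235 k215 5 (.s k21 k213 7 (.d k63 k42 k192 6 14)))) (.c k63 (.l (.s k213 k21 7 (.s k192 k234 6
  (.s k194 k193 0 (.s k150 k62 13 (.d k215 k235 k20 5 8)))))) (.c k192 (.l (.s k21 k213 7 (.s k63
  k42 6 (.s k151 k107 13 (.s k150 k148 0 (.d k215 k235 k20 5 8)))))) (.c k235 (.q k40 [(.s k21 k213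
  7 (.d k63 k42 k192 6 14)), (.s k20 k60 5 (.s k63 k192 14 (.s k150 k215 8 (.d k151 k148 k107 0
  13))))] (.c k63 (.l (.s k20 k60 5 (.s k150 k215 8 (.s k213 k21 7 (.s k192 k234 6 (.d k194 k62 k193
  13 0)))))) (.c k192 (.l (.s k20 k60 5 (.s k21 k213 7 (.s k63 k42 6 (.s k150 k215 8 (.d k151 k148
  k107 0 13)))))) .n))) .n))))) (.c k150 (.q k149 [(.s k21 k213 7 (.d k63 k42 k192 6 14)), (.s k63
  k192 14 (.s k107 k151 13 (.s k105 k104 0 (.d k65 k130 k125 8 5))))] (.c k63 (.l (.s k213 k21 7 (.s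
  k192 k234 6 (.s k193 k194 0 (.s k105 k61 13 (.d k65 k125 k130 5 8)))))) (.c k130 (.q k190 [(.s k21
  k213 7 (.d k63 k42 k192 6 14)), (.s k63 k192 14 (.s k107 k151 13 (.s k105 k104 0 (.d k125 k60 k65
  8 5))))] (.c k63 (.l (.s k125 k60 8 (.s k105 k65 5 (.s k213 k21 7 (.s k192 k234 6 (.d k193 k61
  k194 13 0)))))) (.c k192 (.l (.s k21 k213 7 (.s k63 k42 6 (.s k107 k151 13 (.s k105 k104 0 (.d
  k125 k60 k65 8 5)))))) .n))) (.c k190 (.l (.s k130 k65 8 (.s k21 k213 7 (.d k63 k42 k192 6 14))))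
  (.c k192 (.l (.s k21 k213 7 (.s k63 k42 6 (.s k107 k151 13 (.s k105 k104 0 (.d k65 k125 k130 5
  8)))))) .n))))) .n))) (.c k128 (.l (.s k127 k64 6 (.s k63 k191 7 (.s k149 k192 14 (.d k21 k42 k213
  6 7))))) (.c k149 (.f k127 k64 6 (.q k89 [(.s k93 k81 1 (.s k12 k174 12 (.s k166 k243 14 (.d k4 k8
  k247 1 12)))), (.s k123 k72 4 (.s k119 k115 1 (.s k51 k187 9 (.s k17 k34 4 (.s k153 k221 9 (.d
  k102 k68 k204 4 14)))))), (.s k81 k93 1 (.s k123 k72 4 (.s k243 k162 12 (.d k63 k191 k183 7 9))))]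
  (.c k81 (.l (.s k123 k72 4 (.s k115 k119 1 (.s k76 k102 6 (.s k93 k110 4 (.s k12 k174 12 (.s k4 k8
  1 (.d k166 k247 k243 12 14)))))))) (.c k128 (.l (.s k191 k63 7 (.s k81 k93 1 (.s k243 k162 12 (.s
  k166 k12 14 (.d k247 k251 k4 1 12)))))) (.c k191 (.q k128 [(.s k81 k93 1 (.s k243 k162 12 (.s k247
  k251 1 (.d k166 k4 k12 12 14)))), (.s k123 k72 4 (.s k119 k115 1 (.s k51 k187 9 (.s k17 k34 4 (.s
  k153 k221 9 (.d k102 k68 k204 4 14))))))] (.c k81 (.l (.s k123 k72 4 (.s k115 k119 1 (.s k76 k102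
  6 (.s k93 k110 4 (.s k12 k174 12 (.s k4 k8 1 (.d k166 k247 k243 12 14)))))))) .n)) .n))))) (.c
  k191 (.l (.s k64 k127 6 (.s k192 k128 7 (.s k149 k63 14 (.d k213 k234 k21 6 7))))) (.c k192 (.q k1
  [(.s k3 k2 0 (.s k87 k171 13 (.s k86 k84 0 (.d k169 k253 k252 13 14)))), (.s k127 k64 6 (.s k63
  k191 7 (.s k21 k42 6 (.s k61 k41 5 (.s k253 k169 13 (.s k125 k189 7 (.d k60 k190 k62 8 0))))))),
  (.s k3 k2 0 (.s k127 k64 6 (.s k63 k191 7 (.s k21 k42 6 (.s k23 k43 5 (.s k22 k20 0 (.d k41 k61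
  k60 5 6)))))))] .n) (.c k213 (.q k1 [(.s k3 k2 0 (.s k87 k171 13 (.s k86 k84 0 (.d k169 k253 k252
  13 14)))), (.s k64 k127 6 (.s k169 k253 13 (.s k192 k128 7 (.s k149 k63 14 (.s k129 k189 5 (.s k66
  k3 8 (.d k65 k193 k67 7 0))))))), (.s k3 k2 0 (.s k64 k127 6 (.s k192 k128 7 (.s k66 k129 8 (.s
  k86 k126 5 (.d k87 k84 k171 0 13))))))] (.c k3 (.l (.s k127 k64 6 (.s k63 k191 7 (.s k21 k42 6 (.s
  k61 k41 5 (.s k60 k62 0 (.s k125 k190 8 (.d k253 k189 k169 7 13)))))))) .n)) (.c k234 (.l (.s k127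
  k64 6 (.s k63 k191 7 (.s k21 k42 6 (.d k149 k213 k192 7 14))))) .n))))))))))))

def t6_14 : T TT 256 :=
  (.f k170 k255 14 (.q k252 [(.s k84 k168 13 (.s k86 k87 0 (.s k3 k169 14 (.d k2 k1 k254 0 13))))]
  (.c k1 (.q k10 [(.s k90 k250 11 (.s k80 k95 2 (.s k240 k160 11 (.d k15 k5 k165 2 14)))), (.s k15
  k5 2 (.s k84 k168 13 (.s k86 k87 0 (.s k94 k173 12 (.d k90 k82 k250 1 11))))), (.s k90 k250 11 (.s
  k168 k84 13 (.s k169 k171 0 (.s k248 k11 12 (.s k240 k244 1 (.d k80 k95 k160 2 11))))))] (.c k90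
  (.l (.s k5 k15 2 (.s k84 k168 13 (.s k86 k87 0 (.s k165 k245 11 (.s k244 k7 12 (.s k240 k248 1 (.d
  k160 k175 k80 2 11)))))))) (.c k250 (.l (.s k15 k5 2 (.s k84 k168 13 (.s k86 k87 0 (.s k94 k173 12
  (.s k90 k82 1 (.s k80 k95 2 (.d k240 k160 k165 11 14)))))))) .n))) (.c k2 (.q k10 [(.s k90 k250 11
  (.s k80 k95 2 (.s k240 k160 11 (.d k15 k5 k165 2 14)))), (.s k15 k5 2 (.s k84 k168 13 (.s k86 k87
  0 (.s k94 k173 12 (.d k90 k82 k250 1 11))))), (.s k90 k250 11 (.s k168 k84 13 (.s k169 k171 0 (.s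
  k248 k11 12 (.s k240 k244 1 (.d k80 k95 k160 2 11))))))] (.c k90 (.l (.s k5 k15 2 (.s k84 k168 13
  (.s k86 k87 0 (.s k165 k245 11 (.s k244 k7 12 (.s k240 k248 1 (.d k160 k175 k80 2 11)))))))) (.c
  k250 (.l (.s k15 k5 2 (.s k84 k168 13 (.s k86 k87 0 (.s k94 k173 12 (.s k90 k82 1 (.s k80 k95 2
  (.d k240 k160 k165 11 14)))))))) .n))) (.c k3 (.f k168 k84 13 (.f k171 k169 0 (.q k12 [(.s k4 k8 1
  (.s k166 k247 12 (.s k162 k174 1 (.d k243 k81 k89 12 14)))), (.s k8 k4 1 (.s k88 k248 11 (.s k164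
  k240 13 (.d k172 k160 k92 1 11))))] (.c k2 (.q k10 [(.s k8 k4 1 (.s k11 k9 0 (.d k251 k89 k91 12
  11))), (.s k5 k15 2 (.s k165 k245 11 (.s k172 k92 11 (.d k160 k175 k164 2 1)))), (.s k4 k8 1 (.s
  k166 k247 12 (.s k162 k174 1 (.d k243 k81 k89 12 14))))] .n) (.c k4 (.l (.s k172 k92 11 (.s k164
  k160 1 (.s k88 k240 13 (.s k8 k248 11 (.s k89 k251 12 (.s k81 k93 1 (.d k243 k162 k166 12
  14)))))))) (.c k8 (.q k10 [(.s k15 k5 2 (.s k90 k250 11 (.s k80 k95 2 (.d k240 k160 k165 11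
  14)))), (.s k90 k250 11 (.s k80 k95 2 (.s k172 k92 11 (.d k160 k240 k164 11 1)))), (.s k5 k15 2
  (.s k172 k92 11 (.s k160 k164 1 (.d k165 k175 k245 2 11))))] (.c k15 (.l (.s k90 k250 11 (.s k172
  k92 11 (.s k160 k164 1 (.d k80 k240 k95 11 2))))) (.c k80 (.l (.s k5 k15 2 (.s k165 k245 11 (.s
  k175 k160 2 (.s k167 k163 1 (.s k166 k164 0 (.s k162 k174 1 (.d k243 k81 k89 12 14)))))))) (.c k95
  (.l (.s k15 k5 2 (.s k90 k250 11 (.s k172 k92 11 (.s k160 k164 1 (.d k165 k240 k175 14 2)))))) (.c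
  k160 (.l (.s k15 k5 2 (.s k90 k250 11 (.s k92 k172 11 (.s k94 k173 12 (.d k95 k93 k80 0 2))))))
  (.c k245 (.l (.s k15 k5 2 (.s k90 k250 11 (.s k240 k165 14 (.d k80 k95 k160 2 11))))) .n)))))) (.c
  k10 (.q k2 [(.s k4 k8 1 (.s k166 k247 12 (.s k243 k89 14 (.d k162 k174 k81 1 12)))), (.s k8 k4 1
  (.s k88 k248 11 (.s k164 k240 13 (.d k172 k160 k92 1 11)))), (.s k86 k254 13 (.s k92 k172 11 (.s
  k89 k83 2 (.s k81 k93 1 (.d k243 k166 k162 14 12)))))] .n) .n))))))) (.c k10 (.q k2 [(.s k3 k1 0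
  (.d k86 k254 k169 13 14)), (.s k84 k168 13 (.d k86 k87 k254 0 13)), (.s k1 k3 0 (.s k168 k84 13
  (.d k169 k171 k253 0 13)))] .n) (.c k84 (.q k90 [(.s k10 k250 11 (.s k80 k95 2 (.s k240 k160 11
  (.d k15 k5 k165 2 14)))), (.s k10 k250 11 (.s k15 k5 2 (.s k94 k173 12 (.s k86 k82 1 (.s k2 k254
  13 (.d k3 k1 k169 0 14)))))), (.s k80 k95 2 (.s k240 k160 11 (.s k248 k244 1 (.s k169 k11 12 (.s
  k1 k253 13 (.d k3 k2 k86 0 14))))))] (.c k2 (.l (.s k10 k250 11 (.s k15 k5 2 (.s k80 k95 2 (.d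
  k240 k160 k165 11 14))))) (.c k10 (.q k2 [(.s k3 k1 0 (.d k86 k254 k169 13 14)), (.s k80 k95 2 (.s
  k86 k254 13 (.s k94 k82 1 (.s k15 k173 12 (.d k240 k160 k165 11 14))))), (.s k1 k3 0 (.s k80 k95 2
  (.s k169 k253 13 (.s k240 k160 11 (.d k248 k244 k11 1 12)))))] .n) (.c k15 (.q k12 [(.s k4 k8 1
  (.s k166 k247 12 (.s k243 k89 14 (.d k162 k174 k81 1 12)))), (.s k92 k172 11 (.s k95 k80 2 (.s k93
  k94 0 (.s k89 k81 1 (.s k83 k86 2 (.d k91 k88 k87 0 1)))))), (.s k8 k4 1 (.s k89 k251 12 (.s k88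
  k91 0 (.s k248 k168 11 (.d k240 k244 k164 1 13)))))] (.c k2 (.l (.s k10 k250 11 (.s k4 k8 1 (.s
  k166 k247 12 (.s k162 k174 1 (.d k243 k81 k89 12 14)))))) (.c k10 (.q k2 [(.s k3 k1 0 (.d k86 k254
  k169 13 14)), (.s k4 k8 1 (.s k166 k247 12 (.s k243 k89 14 (.d k162 k174 k81 1 12))))] (.c k95 (.q
  k175 [(.s k3 k1 0 (.d k86 k254 k169 13 14)), (.s k4 k8 1 (.s k166 k247 12 (.s k172 k92 11 (.d k174
  k173 k162 0 1))))] .n) (.c k175 (.l (.s k95 k80 2 (.s k3 k1 0 (.d k86 k254 k169 13 14)))) .n)))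
  (.c k89 (.l (.s k4 k8 1 (.s k166 k247 12 (.s k172 k92 11 (.s k169 k163 2 (.s k1 k253 13 (.d k3 k86
  k2 14 0))))))) (.c k95 (.q k175 [(.s k4 k8 1 (.s k166 k247 12 (.s k243 k89 14 (.d k162 k174 k81 1
  12)))), (.s k160 k165 2 (.s k172 k92 11 (.s k164 k168 1 (.d k240 k80 k88 11 13))))] (.c k2 (.l (.s
  k10 k250 11 (.s k4 k8 1 (.s k166 k247 12 (.s k162 k174 1 (.d k243 k81 k89 12 14)))))) (.c k10 (.q
  k2 [(.s k3 k1 0 (.d k86 k254 k169 13 14)), (.s k4 k8 1 (.s k166 k247 12 (.s k172 k92 11 (.d k174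
  k173 k162 0 1))))] .n) .n))) (.c k175 (.l (.s k95 k80 2 (.s k4 k8 1 (.s k166 k247 12 (.s k162 k174
  1 (.d k243 k81 k89 12 14)))))) .n)))))) (.c k240 (.f k250 k10 11 (.q k2 [(.s k3 k1 0 (.d k86 k254
  k169 13 14)), (.s k254 k86 13 (.s k246 k242 1 (.s k243 k249 2 (.s k81 k162 12 (.s k89 k93 1 (.s k8
  k251 12 (.d k12 k166 k4 14 1))))))), (.s k1 k3 0 (.s k169 k253 13 (.s k248 k11 12 (.s k251 k249 0
  (.s k8 k89 12 (.d k168 k171 k88 0 11))))))] .n)) .n))))) (.c k86 (.f k168 k84 13 (.q k166 [(.s k4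
  k247 12 (.s k12 k8 1 (.s k162 k174 1 (.d k243 k81 k89 12 14)))), (.s k169 k171 0 (.s k172 k163 2
  (.s k160 k164 1 (.s k174 k162 1 (.d k175 k173 k165 0 2))))), (.s k4 k247 12 (.s k12 k8 1 (.s k169
  k171 0 (.d k172 k163 k92 2 11))))] (.c k2 (.q k10 [(.s k4 k247 12 (.s k12 k8 1 (.s k162 k174 1 (.d
  k243 k81 k89 12 14)))), (.s k15 k5 2 (.s k90 k250 11 (.s k80 k95 2 (.d k240 k160 k165 11 14))))]
  (.c k4 (.l (.s k5 k15 2 (.s k165 k245 11 (.s k164 k167 0 (.d k160 k175 k172 2 1))))) .n)) (.c k4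
  (.l (.s k162 k174 1 (.s k169 k171 0 (.s k172 k163 2 (.s k12 k92 11 (.d k243 k89 k81 14 12))))))
  (.c k10 (.q k2 [(.s k169 k171 0 (.d k1 k3 k253 0 13)), (.s k4 k247 12 (.s k12 k8 1 (.s k162 k174 1
  (.d k243 k81 k89 12 14))))] .n) .n))))) (.c k87 (.l (.s k168 k84 13 (.s k169 k171 0 (.s k3 k86 14
  (.d k1 k2 k253 0 13))))) (.c k168 (.q k90 [(.s k10 k250 11 (.s k15 k5 2 (.s k80 k95 2 (.d k240
  k160 k165 11 14)))), (.s k80 k95 2 (.s k240 k160 11 (.s k248 k244 1 (.s k169 k11 12 (.s k1 k253 13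
  (.d k3 k2 k86 0 14)))))), (.s k10 k250 11 (.s k15 k5 2 (.s k94 k173 12 (.s k86 k82 1 (.s k2 k254
  13 (.d k3 k1 k169 0 14))))))] (.c k2 (.l (.s k10 k250 11 (.s k15 k5 2 (.s k80 k95 2 (.d k240 k160
  k165 11 14))))) (.c k10 (.q k2 [(.s k3 k1 0 (.d k86 k254 k169 13 14)), (.s k80 k95 2 (.s k86 k254
  13 (.s k94 k82 1 (.s k15 k173 12 (.d k240 k160 k165 11 14))))), (.s k1 k3 0 (.s k80 k95 2 (.s k169
  k253 13 (.s k240 k160 11 (.d k248 k244 k11 1 12)))))] .n) (.c k15 (.f k95 k80 2 (.q k12 [(.s k8 k4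
  1 (.s k89 k251 12 (.s k81 k93 1 (.d k243 k162 k166 12 14)))), (.s k92 k172 11 (.s k94 k93 0 (.s
  k86 k82 1 (.s k2 k254 13 (.d k3 k1 k169 0 14))))), (.s k8 k4 1 (.s k89 k251 12 (.s k91 k88 0 (.s
  k83 k87 1 (.d k92 k86 k172 2 11)))))] (.c k2 (.l (.s k10 k250 11 (.s k4 k8 1 (.s k166 k247 12 (.s
  k162 k174 1 (.d k243 k81 k89 12 14)))))) (.c k10 (.q k2 [(.s k3 k1 0 (.d k86 k254 k169 13 14)),
  (.s k4 k8 1 (.s k166 k247 12 (.s k162 k174 1 (.d k243 k81 k89 12 14))))] (.c k254 (.l (.s k3 k1 0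
  (.s k86 k169 14 (.s k92 k172 11 (.d k94 k93 k82 0 1))))) .n)) .n)))) (.c k240 (.q k2 [(.s k3 k1 0
  (.d k86 k254 k169 13 14)), (.s k86 k254 13 (.s k87 k84 0 (.s k95 k80 2 (.s k83 k91 1 (.s k92 k89 2
  (.d k94 k93 k82 0 1))))))] (.c k86 (.q k245 [(.s k10 k250 11 (.d k5 k15 k165 2 11)), (.s k1 k3 0
  (.s k80 k95 2 (.s k253 k169 13 (.s k241 k249 1 (.s k81 k161 11 (.s k82 k83 0 (.d k162 k243 k242 12
  11)))))))] (.c k15 (.l (.s k1 k3 0 (.s k5 k165 11 (.s k10 k250 11 (.s k169 k253 13 (.s k11 k248 12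
  (.d k9 k8 k13 0 1))))))) (.c k165 (.l (.s k1 k3 0 (.s k10 k250 11 (.s k5 k15 2 (.s k169 k253 13
  (.s k11 k248 12 (.d k9 k8 k13 0 1))))))) (.c k166 (.q k246 [(.s k10 k250 11 (.d k5 k15 k165 2
  11)), (.s k1 k3 0 (.s k249 k243 2 (.d k253 k241 k169 1 13)))] .n) (.c k246 (.q k166 [(.s k5 k165
  11 (.d k10 k15 k250 2 11)), (.s k4 k247 12 (.s k12 k8 1 (.s k162 k174 1 (.d k243 k81 k89 12
  14))))] .n) .n))))) (.c k245 (.l (.s k250 k10 11 (.s k3 k1 0 (.d k86 k254 k169 13 14)))) (.c k250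
  (.q k245 [(.s k3 k1 0 (.d k86 k254 k169 13 14)), (.s k5 k165 11 (.s k15 k10 2 (.s k86 k254 13 (.d
  k94 k82 k173 1 12)))), (.s k1 k3 0 (.s k5 k165 11 (.s k9 k13 1 (.s k169 k253 13 (.s k11 k248 12
  (.d k10 k8 k15 0 2))))))] .n) (.c k254 (.l (.s k3 k1 0 (.s k86 k169 14 (.s k94 k82 1 (.s k15 k173
  12 (.d k10 k5 k250 2 11)))))) .n))))) .n))))) (.c k169 (.q k15 [(.s k10 k5 2 (.s k90 k250 11 (.s
  k80 k95 2 (.d k240 k160 k165 11 14)))), (.s k84 k168 13 (.s k86 k87 0 (.s k94 k173 12 (.s k90 k82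
  1 (.d k10 k5 k250 2 11))))), (.s k84 k168 13 (.s k86 k87 0 (.s k94 k173 12 (.s k90 k82 1 (.s k80
  k95 2 (.d k240 k165 k160 14 11))))))] (.c k2 (.l (.s k10 k5 2 (.s k90 k250 11 (.s k80 k95 2 (.d
  k240 k160 k165 11 14))))) (.c k10 (.q k2 [(.s k84 k168 13 (.d k86 k87 k254 0 13)), (.s k86 k254 13
  (.s k94 k173 12 (.s k90 k82 1 (.s k80 k95 2 (.d k240 k165 k160 14 11)))))] (.c k86 (.q k166 [(.s
  k4 k247 12 (.s k162 k174 1 (.s k243 k81 12 (.d k12 k8 k89 1 14)))), (.s k4 k247 12 (.s k12 k8 1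
  (.s k84 k168 13 (.s k92 k172 11 (.s k88 k80 1 (.d k164 k244 k240 11 13)))))), (.s k3 k1 0 (.s k162
  k174 1 (.s k82 k242 11 (.s k161 k240 12 (.s k163 k160 0 (.d k243 k83 k81 11 12))))))] (.c k12 (.l
  (.s k3 k1 0 (.s k7 k11 1 (.s k247 k4 12 (.s k167 k87 11 (.s k243 k91 13 (.d k162 k174 k81 1
  12))))))) (.c k243 (.l (.s k173 k94 12 (.s k174 k162 1 (.s k172 k175 0 (.s k12 k92 11 (.d k4 k8
  k247 1 12)))))) .n))) (.c k254 (.l (.s k84 k168 13 (.s k86 k87 0 (.s k94 k173 12 (.s k90 k82 1 (.s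
  k80 k95 2 (.d k240 k165 k160 14 11))))))) .n))) (.c k90 (.l (.s k84 k168 13 (.s k86 k87 0 (.s k2
  k254 13 (.s k3 k1 0 (.s k5 k10 2 (.s k165 k245 11 (.d k7 k11 k244 1 12)))))))) (.c k165 (.l (.s
  k10 k5 2 (.s k84 k168 13 (.s k86 k87 0 (.s k90 k250 11 (.d k94 k82 k173 1 12)))))) .n))))) (.c
  k171 (.l (.s k84 k168 13 (.s k86 k87 0 (.s k3 k169 14 (.d k2 k1 k254 0 13))))) (.c k254 (.l (.s
  k168 k84 13 (.s k169 k171 0 (.s k1 k253 13 (.d k3 k2 k86 0 14))))) .n)))))))))))))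

def t6_15 : T TT 256 :=
  (.f k255 k170 14 (.q k105 [(.s k65 k125 5 (.s k195 k130 8 (.s k215 k235 5 (.d k150 k20 k60 8
  14))))] (.c k20 (.q k1 [(.s k3 k2 0 (.s k87 k171 13 (.s k169 k253 13 (.d k86 k84 k252 0 14)))),
  (.s k65 k125 5 (.s k169 k253 13 (.s k41 k233 7 (.s k61 k21 5 (.d k193 k129 k149 7 13))))), (.s k3
  k2 0 (.s k65 k125 5 (.s k129 k193 7 (.s k66 k192 8 (.s k67 k64 0 (.d k195 k131 k130 7 8))))))] .n)
  (.c k60 (.f k65 k125 5 (.q k171 [(.s k3 k87 13 (.s k2 k1 0 (.s k130 k195 8 (.s k66 k194 7 (.s k64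
  k67 0 (.d k192 k128 k129 7 8)))))), (.s k3 k87 13 (.s k1 k2 0 (.s k169 k253 13 (.s k41 k233 7 (.s
  k61 k21 5 (.d k193 k129 k149 7 13)))))), (.s k195 k130 8 (.s k235 k215 5 (.s k107 k43 7 (.s k106
  k104 0 (.s k127 k64 6 (.d k63 k191 k151 7 13))))))] (.c k30 (.q k45 [(.s k3 k87 13 (.s k2 k1 0 (.s
  k130 k195 8 (.s k66 k194 7 (.s k64 k67 0 (.d k192 k128 k129 7 8)))))), (.s k3 k87 13 (.s k1 k2 0
  (.s k169 k253 13 (.s k41 k233 7 (.s k61 k21 5 (.d k193 k129 k149 7 13)))))), (.s k195 k130 8 (.s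
  k235 k215 5 (.s k107 k43 7 (.s k106 k104 0 (.s k127 k64 6 (.d k63 k191 k151 7 13))))))] .n) (.c
  k45 (.q k30 [(.s k3 k87 13 (.s k2 k1 0 (.s k130 k195 8 (.s k66 k194 7 (.s k64 k67 0 (.d k192 k128
  k129 7 8)))))), (.s k3 k87 13 (.s k1 k2 0 (.s k169 k253 13 (.s k41 k233 7 (.s k61 k21 5 (.d k193
  k129 k149 7 13)))))), (.s k195 k130 8 (.s k235 k215 5 (.s k107 k43 7 (.s k106 k104 0 (.s k127 k64
  6 (.d k63 k191 k151 7 13))))))] .n) .n)))) (.c k65 (.q k21 [(.s k63 k42 6 (.s k127 k191 7 (.s k149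
  k213 7 (.d k106 k64 k192 6 14)))), (.s k149 k213 7 (.s k61 k193 13 (.s k1 k41 5 (.s k3 k2 0 (.s
  k87 k171 13 (.s k86 k84 0 (.d k169 k253 k252 13 14)))))))] (.c k149 (.f k63 k42 6 (.q k106 [(.d
  k127 k191 k64 7 6), (.s k107 k104 0 (.s k195 k151 13 (.s k150 k60 14 (.d k215 k235 k20 5 8))))]
  (.c k128 (.l (.s k191 k127 7 (.s k107 k104 0 (.s k195 k151 13 (.s k150 k60 14 (.d k215 k235 k20 5
  8)))))) (.c k191 (.q k128 [(.d k64 k127 k192 6 7), (.s k107 k104 0 (.s k195 k151 13 (.s k215 k235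
  5 (.d k150 k20 k60 8 14))))] .n) .n)))) (.c k213 (.l (.s k63 k42 6 (.s k127 k191 7 (.s k106 k64 6
  (.s k107 k104 0 (.s k195 k151 13 (.s k150 k60 14 (.d k215 k235 k20 5 8)))))))) .n))) (.c k125 (.q
  k253 [(.s k169 k1 13 (.s k252 k254 0 (.s k84 k168 13 (.d k86 k87 k3 0 14)))), (.s k169 k1 13 (.s
  k233 k41 7 (.s k213 k193 5 (.s k192 k234 6 (.s k64 k128 7 (.s k106 k127 6 (.d k149 k21 k63 7
  14)))))))] (.c k1 (.l (.s k252 k254 0 (.s k84 k168 13 (.s k86 k87 0 (.s k124 k67 6 (.s k60 k188 7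
  (.s k20 k40 5 (.d k150 k215 k195 8 14)))))))) (.c k169 (.f k252 k254 0 (.q k86 [(.d k84 k168 k87
  13 0), (.s k124 k67 6 (.s k60 k188 7 (.s k20 k40 5 (.d k150 k215 k195 8 14))))] (.c k168 (.q k171
  [(.d k87 k84 k3 0 13), (.s k124 k67 6 (.s k60 k188 7 (.s k20 k40 5 (.d k150 k215 k195 8 14))))]
  .n) (.c k171 (.l (.s k168 k84 13 (.s k124 k67 6 (.s k60 k188 7 (.s k20 k40 5 (.d k150 k215 k195 8
  14)))))) .n)))) .n))) (.c k130 (.l (.s k125 k65 5 (.s k60 k190 8 (.s k150 k195 14 (.d k20 k40 k215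
  5 8))))) (.c k150 (.f k65 k125 5 (.q k101 [(.s k69 k117 3 (.s k77 k73 1 (.s k97 k109 1 (.d k113
  k81 k89 3 5)))), (.s k69 k117 3 (.s k207 k138 10 (.s k154 k48 14 (.d k223 k239 k16 3 10)))), (.s
  k97 k109 1 (.s k117 k69 3 (.s k48 k186 10 (.d k195 k130 k146 8 12))))] (.c k69 (.l (.s k97 k109 1
  (.s k81 k113 3 (.s k162 k243 12 (.s k32 k227 8 (.s k48 k16 3 (.d k195 k130 k146 8 12))))))) (.c
  k117 (.l (.s k97 k109 1 (.s k113 k81 3 (.s k77 k89 5 (.s k69 k73 1 (.s k207 k138 10 (.s k154 k48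
  14 (.d k223 k239 k16 3 10)))))))) (.c k130 (.q k190 [(.s k69 k117 3 (.s k77 k73 1 (.s k97 k109 1
  (.d k113 k81 k89 3 5)))), (.s k117 k69 3 (.s k48 k186 10 (.s k16 k32 3 (.d k154 k223 k207 10
  14))))] (.c k69 (.l (.s k97 k109 1 (.s k81 k113 3 (.s k243 k162 12 (.s k247 k251 1 (.s k166 k4 12
  (.d k89 k93 k12 1 14))))))) (.c k117 (.l (.s k97 k109 1 (.s k113 k81 3 (.s k77 k89 5 (.s k69 k73 1
  (.s k207 k138 10 (.s k154 k48 14 (.d k223 k239 k16 3 10)))))))) .n))) (.c k190 (.l (.s k130 k195 8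
  (.s k69 k117 3 (.s k77 k73 1 (.s k97 k109 1 (.d k113 k81 k89 3 5)))))) .n)))))) (.c k190 (.l (.s
  k65 k125 5 (.s k195 k130 8 (.s k150 k60 14 (.d k215 k235 k20 5 8))))) (.c k195 (.f k65 k125 5 (.q
  k1 [(.s k169 k253 13 (.s k193 k129 7 (.s k61 k149 13 (.d k41 k21 k233 5 7)))), (.s k3 k2 0 (.s k87
  k171 13 (.s k86 k84 0 (.s k67 k124 6 (.s k64 k66 0 (.d k127 k107 k106 5 6))))))] (.c k75 (.q k135
  [(.s k169 k253 13 (.s k193 k129 7 (.s k61 k149 13 (.d k41 k21 k233 5 7)))), (.s k3 k2 0 (.s k87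
  k171 13 (.s k86 k84 0 (.s k67 k124 6 (.s k64 k66 0 (.d k127 k107 k106 5 6))))))] (.c k169 (.l (.s
  k193 k129 7 (.s k149 k61 13 (.s k21 k213 7 (.s k63 k42 6 (.s k106 k192 14 (.d k127 k64 k191 6
  7))))))) .n)) (.c k135 (.q k75 [(.s k169 k253 13 (.s k193 k129 7 (.s k61 k149 13 (.d k41 k21 k233
  5 7)))), (.s k3 k2 0 (.s k87 k171 13 (.s k86 k84 0 (.s k67 k124 6 (.s k64 k66 0 (.d k127 k107 k106
  5 6))))))] (.c k169 (.l (.s k193 k129 7 (.s k149 k61 13 (.s k21 k213 7 (.s k63 k42 6 (.s k106 k192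
  14 (.d k127 k64 k191 6 7))))))) .n)) (.c k169 (.l (.s k193 k129 7 (.s k149 k61 13 (.s k21 k213 7
  (.s k63 k42 6 (.s k106 k192 14 (.d k127 k64 k191 6 7))))))) .n))))) (.c k215 (.q k1 [(.s k3 k2 0
  (.s k87 k171 13 (.s k86 k84 0 (.d k169 k253 k252 13 14)))), (.s k65 k125 5 (.s k169 k253 13 (.s
  k41 k233 7 (.s k61 k21 5 (.d k193 k129 k149 7 13))))), (.s k3 k2 0 (.s k65 k125 5 (.s k129 k193 7
  (.s k66 k192 8 (.s k67 k64 0 (.d k195 k131 k130 7 8))))))] .n) (.c k235 (.l (.s k125 k65 5 (.s k60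
  k190 8 (.s k20 k40 5 (.d k150 k215 k195 8 14))))) .n))))))))))))

def t6_18 : T TT 256 :=
  (.f k255 k170 14 (.q k106 [(.s k64 k127 6 (.s k192 k128 7 (.s k149 k63 14 (.d k213 k234 k21 6
  7))))] (.c k21 (.q k1 [(.s k127 k64 6 (.s k63 k191 7 (.s k169 k253 13 (.s k43 k232 8 (.d k3 k2 k23
  0 5))))), (.s k3 k2 0 (.s k87 k171 13 (.s k86 k84 0 (.d k169 k253 k252 13 14)))), (.s k64 k127 6
  (.s k192 k128 7 (.s k213 k234 6 (.s k253 k169 13 (.s k193 k233 5 (.s k65 k129 7 (.d k195 k130 k194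
  8 0))))))), (.s k3 k2 0 (.s k64 k127 6 (.s k192 k128 7 (.s k66 k129 8 (.s k86 k126 5 (.d k87 k84
  k171 0 13))))))] .n) (.c k63 (.q k1 [(.s k3 k2 0 (.s k87 k171 13 (.s k86 k84 0 (.d k169 k253 k252
  13 14)))), (.s k64 k127 6 (.s k192 k128 7 (.s k213 k234 6 (.s k253 k169 13 (.s k193 k233 5 (.s k65
  k129 7 (.d k195 k130 k194 8 0))))))), (.s k3 k2 0 (.s k64 k127 6 (.s k192 k128 7 (.s k66 k129 8
  (.s k86 k126 5 (.d k87 k84 k171 0 13))))))] (.c k171 (.l (.s k3 k2 0 (.s k64 k127 6 (.s k169 k253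
  13 (.s k86 k252 14 (.s k192 k128 7 (.d k66 k126 k129 5 8))))))) .n)) (.c k64 (.q k60 [(.s k20 k40
  5 (.s k125 k190 8 (.s k150 k215 8 (.d k105 k65 k195 5 14)))), (.s k20 k40 5 (.s k150 k215 8 (.s
  k62 k194 13 (.s k63 k61 0 (.s k21 k42 6 (.d k149 k213 k192 7 14)))))), (.s k125 k190 8 (.s k105
  k65 5 (.s k104 k107 0 (.s k192 k148 13 (.s k149 k63 14 (.d k213 k234 k21 6 7))))))] (.c k105 (.q
  k87 [(.s k3 k171 13 (.s k86 k84 0 (.s k169 k252 14 (.d k1 k2 k253 0 13)))), (.s k86 k84 0 (.s k126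
  k66 5 (.s k190 k125 8 (.s k62 k254 7 (.s k150 k194 13 (.d k20 k40 k215 5 8)))))), (.s k3 k171 13
  (.s k2 k1 0 (.s k22 k41 6 (.s k42 k62 5 (.s k21 k63 6 (.d k20 k40 k23 5 0))))))] (.c k2 (.l (.s k3
  k171 13 (.s k22 k41 6 (.s k86 k84 0 (.s k150 k214 7 (.d k20 k40 k215 5 8)))))) (.c k40 (.q k235
  [(.s k3 k171 13 (.s k86 k84 0 (.s k169 k252 14 (.d k1 k2 k253 0 13)))), (.s k3 k171 13 (.s k22 k41
  6 (.s k215 k195 5 (.s k20 k150 8 (.d k23 k21 k151 0 7))))), (.s k86 k84 0 (.s k126 k66 5 (.s k190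
  k125 8 (.s k62 k254 7 (.s k150 k194 13 (.d k215 k195 k20 5 8))))))] .n) (.c k235 (.l (.s k40 k20 5
  (.s k3 k171 13 (.s k1 k2 0 (.s k86 k84 0 (.d k169 k253 k252 13 14)))))) .n)))) (.c k150 (.q k149
  [(.s k21 k213 7 (.d k63 k42 k192 6 14)), (.s k63 k192 14 (.s k61 k62 0 (.s k105 k193 13 (.d k125
  k190 k65 8 5))))] (.c k63 (.l (.s k213 k21 7 (.s k192 k234 6 (.s k104 k148 13 (.s k105 k107 0 (.d
  k125 k65 k190 5 8)))))) (.c k130 (.l (.s k190 k125 8 (.s k21 k213 7 (.d k63 k42 k192 6 14)))) (.c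
  k190 (.q k130 [(.s k21 k213 7 (.d k63 k42 k192 6 14)), (.s k63 k192 14 (.s k61 k62 0 (.s k65 k195
  8 (.d k105 k193 k125 13 5))))] (.c k63 (.l (.s k65 k195 8 (.s k105 k125 5 (.s k213 k21 7 (.s k192
  k234 6 (.d k104 k107 k148 0 13)))))) (.c k192 (.l (.s k21 k213 7 (.s k63 k42 6 (.s k61 k62 0 (.s
  k65 k195 8 (.d k105 k193 k125 13 5)))))) .n))) (.c k192 (.l (.s k21 k213 7 (.s k63 k42 6 (.s k61
  k62 0 (.s k105 k193 13 (.d k125 k65 k190 5 8)))))) .n))))) .n))) (.c k127 (.q k195 [(.s k65 k130 8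
  (.s k215 k235 5 (.s k150 k20 8 (.d k105 k125 k60 5 14)))), (.s k65 k130 8 (.s k105 k125 5 (.s k107
  k104 0 (.s k63 k151 13 (.s k21 k42 6 (.d k149 k213 k192 7 14)))))), (.s k215 k235 5 (.s k150 k20 8
  (.s k194 k62 13 (.s k192 k193 0 (.s k149 k63 14 (.d k213 k234 k21 6 7))))))] (.c k105 (.q k149
  [(.s k21 k213 7 (.d k63 k42 k192 6 14)), (.s k63 k192 14 (.s k151 k107 13 (.s k150 k148 0 (.d k215
  k235 k20 5 8))))] (.c k40 (.l (.s k235 k215 5 (.s k21 k213 7 (.d k63 k42 k192 6 14)))) (.c k63 (.l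
  (.s k213 k21 7 (.s k192 k234 6 (.s k194 k193 0 (.s k150 k62 13 (.d k215 k235 k20 5 8)))))) (.c
  k192 (.l (.s k21 k213 7 (.s k63 k42 6 (.s k151 k107 13 (.s k150 k148 0 (.d k215 k235 k20 5 8))))))
  (.c k235 (.q k40 [(.s k21 k213 7 (.d k63 k42 k192 6 14)), (.s k20 k60 5 (.s k63 k192 14 (.s k150
  k215 8 (.d k151 k148 k107 0 13))))] (.c k63 (.l (.s k20 k60 5 (.s k150 k215 8 (.s k213 k21 7 (.s
  k192 k234 6 (.d k194 k62 k193 13 0)))))) (.c k192 (.l (.s k20 k60 5 (.s k21 k213 7 (.s k63 k42 6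
  (.s k150 k215 8 (.d k151 k148 k107 0 13)))))) .n))) .n))))) (.c k150 (.q k149 [(.s k21 k213 7 (.d
  k63 k42 k192 6 14)), (.s k63 k192 14 (.s k107 k151 13 (.s k105 k104 0 (.d k65 k130 k125 8 5))))]
  (.c k63 (.l (.s k213 k21 7 (.s k192 k234 6 (.s k193 k194 0 (.s k105 k61 13 (.d k65 k125 k130 5
  8)))))) (.c k130 (.q k190 [(.s k21 k213 7 (.d k63 k42 k192 6 14)), (.s k63 k192 14 (.s k107 k151
  13 (.s k105 k104 0 (.d k125 k60 k65 8 5))))] (.c k63 (.l (.s k125 k60 8 (.s k105 k65 5 (.s k213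
  k21 7 (.s k192 k234 6 (.d k193 k61 k194 13 0)))))) (.c k192 (.l (.s k21 k213 7 (.s k63 k42 6 (.s
  k107 k151 13 (.s k105 k104 0 (.d k125 k60 k65 8 5)))))) .n))) (.c k190 (.l (.s k130 k65 8 (.s k21
  k213 7 (.d k63 k42 k192 6 14)))) (.c k192 (.l (.s k21 k213 7 (.s k63 k42 6 (.s k107 k151 13 (.s
  k105 k104 0 (.d k65 k125 k130 5 8)))))) .n))))) .n))) (.c k128 (.l (.s k127 k64 6 (.s k63 k191 7
  (.s k149 k192 14 (.d k21 k42 k213 6 7))))) (.c k149 (.f k127 k64 6 (.q k123 [(.s k89 k72 4 (.s k93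
  k81 1 (.s k76 k110 4 (.d k115 k119 k102 1 6)))), (.s k89 k72 4 (.s k81 k93 1 (.s k243 k162 12 (.d
  k63 k191 k183 7 9)))), (.s k119 k115 1 (.s k51 k187 9 (.s k17 k34 4 (.s k153 k221 9 (.d k102 k68
  k204 4 14)))))] (.c k68 (.l (.s k115 k119 1 (.s k89 k72 4 (.s k76 k102 6 (.d k93 k81 k110 1 4)))))
  (.c k81 (.l (.s k89 k72 4 (.s k115 k119 1 (.s k76 k102 6 (.s k93 k110 4 (.s k12 k174 12 (.s k4 k8
  1 (.d k166 k247 k243 12 14)))))))) (.c k128 (.l (.s k191 k63 7 (.s k89 k72 4 (.s k93 k81 1 (.s k76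
  k110 4 (.d k115 k119 k102 1 6)))))) (.c k191 (.q k128 [(.s k89 k72 4 (.s k93 k81 1 (.s k76 k110 4
  (.d k115 k119 k102 1 6)))), (.s k119 k115 1 (.s k51 k187 9 (.s k17 k34 4 (.s k153 k221 9 (.d k102
  k68 k204 4 14))))), (.s k89 k72 4 (.s k81 k93 1 (.s k243 k162 12 (.s k166 k12 14 (.d k247 k251 k4
  1 12)))))] (.c k68 (.l (.s k115 k119 1 (.s k89 k72 4 (.s k76 k102 6 (.d k93 k81 k110 1 4))))) (.c
  k81 (.l (.s k89 k72 4 (.s k115 k119 1 (.s k76 k102 6 (.s k93 k110 4 (.s k12 k174 12 (.s k4 k8 1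
  (.d k166 k247 k243 12 14)))))))) .n))) .n)))))) (.c k191 (.l (.s k64 k127 6 (.s k192 k128 7 (.s
  k149 k63 14 (.d k213 k234 k21 6 7))))) (.c k192 (.q k1 [(.s k3 k2 0 (.s k87 k171 13 (.s k86 k84 0
  (.d k169 k253 k252 13 14)))), (.s k127 k64 6 (.s k63 k191 7 (.s k21 k42 6 (.s k61 k41 5 (.s k253
  k169 13 (.s k125 k189 7 (.d k60 k190 k62 8 0))))))), (.s k3 k2 0 (.s k127 k64 6 (.s k63 k191 7 (.s
  k21 k42 6 (.s k23 k43 5 (.s k22 k20 0 (.d k41 k61 k60 5 6)))))))] .n) (.c k213 (.q k1 [(.s k3 k2 0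
  (.s k87 k171 13 (.s k86 k84 0 (.d k169 k253 k252 13 14)))), (.s k64 k127 6 (.s k169 k253 13 (.s
  k192 k128 7 (.s k149 k63 14 (.s k129 k189 5 (.s k66 k3 8 (.d k65 k193 k67 7 0))))))), (.s k3 k2 0
  (.s k64 k127 6 (.s k192 k128 7 (.s k66 k129 8 (.s k86 k126 5 (.d k87 k84 k171 0 13))))))] (.c k3
  (.l (.s k127 k64 6 (.s k63 k191 7 (.s k21 k42 6 (.s k61 k41 5 (.s k60 k62 0 (.s k125 k190 8 (.d
  k253 k189 k169 7 13)))))))) .n)) (.c k234 (.l (.s k127 k64 6 (.s k63 k191 7 (.s k21 k42 6 (.d k149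
  k213 k192 7 14))))) .n))))))))))))

def t6_19 : T TT 256 :=
  (.f k255 k170 14 (.q k106 [(.s k64 k127 6 (.s k192 k128 7 (.s k149 k63 14 (.d k213 k234 k21 6
  7))))] (.c k21 (.q k1 [(.s k169 k253 13 (.s k3 k2 0 (.s k86 k252 14 (.d k87 k84 k171 0 13)))), (.s
  k64 k127 6 (.s k192 k128 7 (.s k213 k234 6 (.s k253 k169 13 (.s k193 k233 5 (.s k65 k129 7 (.d
  k195 k130 k194 8 0))))))), (.s k3 k2 0 (.s k64 k127 6 (.s k192 k128 7 (.s k66 k129 8 (.s k86 k126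
  5 (.d k87 k84 k171 0 13))))))] (.c k171 (.l (.s k3 k2 0 (.s k127 k64 6 (.s k63 k191 7 (.s k43 k23
  5 (.d k169 k232 k253 8 13)))))) .n)) (.c k63 (.q k1 [(.s k3 k2 0 (.s k87 k171 13 (.s k86 k84 0 (.d
  k169 k253 k252 13 14)))), (.s k64 k127 6 (.s k192 k128 7 (.s k213 k234 6 (.s k253 k169 13 (.s k193
  k233 5 (.s k65 k129 7 (.d k195 k130 k194 8 0))))))), (.s k3 k2 0 (.s k64 k127 6 (.s k192 k128 7
  (.s k66 k129 8 (.s k86 k126 5 (.d k87 k84 k171 0 13))))))] (.c k171 (.l (.s k3 k2 0 (.s k64 k127 6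
  (.s k169 k253 13 (.s k86 k252 14 (.s k192 k128 7 (.d k66 k126 k129 5 8))))))) .n)) (.c k64 (.q k60
  [(.s k20 k40 5 (.s k125 k190 8 (.s k150 k215 8 (.d k105 k65 k195 5 14)))), (.s k20 k40 5 (.s k150
  k215 8 (.s k62 k194 13 (.s k63 k61 0 (.s k21 k42 6 (.d k149 k213 k192 7 14)))))), (.s k125 k190 8
  (.s k105 k65 5 (.s k104 k107 0 (.s k192 k148 13 (.s k149 k63 14 (.d k213 k234 k21 6 7))))))] (.c
  k105 (.q k87 [(.s k3 k171 13 (.s k86 k84 0 (.s k169 k252 14 (.d k1 k2 k253 0 13)))), (.s k86 k84 0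
  (.s k126 k66 5 (.s k190 k125 8 (.s k62 k254 7 (.s k150 k194 13 (.d k20 k40 k215 5 8)))))), (.s k3
  k171 13 (.s k2 k1 0 (.s k22 k41 6 (.s k42 k62 5 (.s k21 k63 6 (.d k20 k40 k23 5 0))))))] (.c k2
  (.l (.s k3 k171 13 (.s k22 k41 6 (.s k86 k84 0 (.s k150 k214 7 (.d k20 k40 k215 5 8)))))) (.c k40
  (.q k235 [(.s k3 k171 13 (.s k86 k84 0 (.s k169 k252 14 (.d k1 k2 k253 0 13)))), (.s k3 k171 13
  (.s k22 k41 6 (.s k215 k195 5 (.s k20 k150 8 (.d k23 k21 k151 0 7))))), (.s k86 k84 0 (.s k126 k66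
  5 (.s k190 k125 8 (.s k62 k254 7 (.s k150 k194 13 (.d k215 k195 k20 5 8))))))] .n) (.c k235 (.l
  (.s k40 k20 5 (.s k3 k171 13 (.s k1 k2 0 (.s k86 k84 0 (.d k169 k253 k252 13 14)))))) .n)))) (.c
  k150 (.q k149 [(.s k21 k213 7 (.d k63 k42 k192 6 14)), (.s k63 k192 14 (.s k61 k62 0 (.s k105 k193
  13 (.d k125 k190 k65 8 5))))] (.c k63 (.l (.s k213 k21 7 (.s k192 k234 6 (.s k104 k148 13 (.s k105
  k107 0 (.d k125 k65 k190 5 8)))))) (.c k130 (.l (.s k190 k125 8 (.s k21 k213 7 (.d k63 k42 k192 6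
  14)))) (.c k190 (.q k130 [(.s k21 k213 7 (.d k63 k42 k192 6 14)), (.s k63 k192 14 (.s k61 k62 0
  (.s k65 k195 8 (.d k105 k193 k125 13 5))))] (.c k63 (.l (.s k65 k195 8 (.s k105 k125 5 (.s k213
  k21 7 (.s k192 k234 6 (.d k104 k107 k148 0 13)))))) (.c k192 (.l (.s k21 k213 7 (.s k63 k42 6 (.s
  k61 k62 0 (.s k65 k195 8 (.d k105 k193 k125 13 5)))))) .n))) (.c k192 (.l (.s k21 k213 7 (.s k63
  k42 6 (.s k61 k62 0 (.s k105 k193 13 (.d k125 k65 k190 5 8)))))) .n))))) .n))) (.c k127 (.q k195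
  [(.s k65 k130 8 (.s k215 k235 5 (.s k150 k20 8 (.d k105 k125 k60 5 14)))), (.s k65 k130 8 (.s k105
  k125 5 (.s k107 k104 0 (.s k63 k151 13 (.s k21 k42 6 (.d k149 k213 k192 7 14)))))), (.s k215 k235
  5 (.s k150 k20 8 (.s k194 k62 13 (.s k192 k193 0 (.s k149 k63 14 (.d k213 k234 k21 6 7))))))] (.c
  k105 (.q k149 [(.s k21 k213 7 (.d k63 k42 k192 6 14)), (.s k63 k192 14 (.s k151 k107 13 (.s k150
  k148 0 (.d k215 k235 k20 5 8))))] (.c k40 (.l (.s k235 k215 5 (.s k21 k213 7 (.d k63 k42 k192 6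
  14)))) (.c k63 (.l (.s k213 k21 7 (.s k192 k234 6 (.s k194 k193 0 (.s k150 k62 13 (.d k215 k235
  k20 5 8)))))) (.c k192 (.l (.s k21 k213 7 (.s k63 k42 6 (.s k151 k107 13 (.s k150 k148 0 (.d k215
  k235 k20 5 8)))))) (.c k235 (.q k40 [(.s k21 k213 7 (.d k63 k42 k192 6 14)), (.s k20 k60 5 (.s k63
  k192 14 (.s k150 k215 8 (.d k151 k148 k107 0 13))))] (.c k63 (.l (.s k20 k60 5 (.s k150 k215 8 (.s
  k213 k21 7 (.s k192 k234 6 (.d k194 k62 k193 13 0)))))) (.c k192 (.l (.s k20 k60 5 (.s k21 k213 7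
  (.s k63 k42 6 (.s k150 k215 8 (.d k151 k148 k107 0 13)))))) .n))) .n))))) (.c k150 (.q k149 [(.s
  k21 k213 7 (.d k63 k42 k192 6 14)), (.s k63 k192 14 (.s k107 k151 13 (.s k105 k104 0 (.d k65 k130
  k125 8 5))))] (.c k63 (.l (.s k213 k21 7 (.s k192 k234 6 (.s k193 k194 0 (.s k105 k61 13 (.d k65
  k125 k130 5 8)))))) (.c k130 (.q k190 [(.s k21 k213 7 (.d k63 k42 k192 6 14)), (.s k63 k192 14 (.s
  k107 k151 13 (.s k105 k104 0 (.d k125 k60 k65 8 5))))] (.c k63 (.l (.s k125 k60 8 (.s k105 k65 5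
  (.s k213 k21 7 (.s k192 k234 6 (.d k193 k61 k194 13 0)))))) (.c k192 (.l (.s k21 k213 7 (.s k63
  k42 6 (.s k107 k151 13 (.s k105 k104 0 (.d k125 k60 k65 8 5)))))) .n))) (.c k190 (.l (.s k130 k65
  8 (.s k21 k213 7 (.d k63 k42 k192 6 14)))) (.c k192 (.l (.s k21 k213 7 (.s k63 k42 6 (.s k107 k151
  13 (.s k105 k104 0 (.d k65 k125 k130 5 8)))))) .n))))) .n))) (.c k128 (.l (.s k127 k64 6 (.s k63
  k191 7 (.s k149 k192 14 (.d k21 k42 k213 6 7))))) (.c k149 (.f k127 k64 6 (.q k89 [(.s k81 k93 1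
  (.s k123 k72 4 (.s k243 k162 12 (.d k63 k191 k183 7 9)))), (.s k123 k72 4 (.s k119 k115 1 (.s k51
  k187 9 (.s k17 k34 4 (.s k153 k221 9 (.d k102 k68 k204 4 14)))))), (.s k81 k93 1 (.s k243 k162 12
  (.s k166 k12 14 (.d k247 k251 k4 1 12))))] (.c k81 (.l (.s k123 k72 4 (.s k115 k119 1 (.s k76 k102
  6 (.s k93 k110 4 (.s k12 k174 12 (.s k4 k8 1 (.d k166 k247 k243 12 14)))))))) (.c k128 (.l (.s
  k191 k63 7 (.s k81 k93 1 (.s k243 k162 12 (.s k166 k12 14 (.d k247 k251 k4 1 12)))))) (.c k191 (.q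
  k128 [(.s k81 k93 1 (.s k243 k162 12 (.s k247 k251 1 (.d k166 k4 k12 12 14)))), (.s k123 k72 4 (.s
  k119 k115 1 (.s k51 k187 9 (.s k17 k34 4 (.s k153 k221 9 (.d k102 k68 k204 4 14))))))] (.c k81 (.l
  (.s k123 k72 4 (.s k115 k119 1 (.s k76 k102 6 (.s k93 k110 4 (.s k12 k174 12 (.s k4 k8 1 (.d k166
  k247 k243 12 14)))))))) .n)) .n))))) (.c k191 (.l (.s k64 k127 6 (.s k192 k128 7 (.s k149 k63 14
  (.d k213 k234 k21 6 7))))) (.c k192 (.q k1 [(.s k3 k2 0 (.s k87 k171 13 (.s k86 k84 0 (.d k169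
  k253 k252 13 14)))), (.s k127 k64 6 (.s k63 k191 7 (.s k21 k42 6 (.s k61 k41 5 (.s k253 k169 13
  (.s k125 k189 7 (.d k60 k190 k62 8 0))))))), (.s k3 k2 0 (.s k127 k64 6 (.s k63 k191 7 (.s k21 k42
  6 (.s k23 k43 5 (.s k22 k20 0 (.d k41 k61 k60 5 6)))))))] .n) (.c k213 (.q k1 [(.s k3 k2 0 (.s k87
  k171 13 (.s k86 k84 0 (.d k169 k253 k252 13 14)))), (.s k64 k127 6 (.s k169 k253 13 (.s k192 k128
  7 (.s k149 k63 14 (.s k129 k189 5 (.s k66 k3 8 (.d k65 k193 k67 7 0))))))), (.s k3 k2 0 (.s k64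
  k127 6 (.s k192 k128 7 (.s k66 k129 8 (.s k86 k126 5 (.d k87 k84 k171 0 13))))))] (.c k3 (.l (.s
  k127 k64 6 (.s k63 k191 7 (.s k21 k42 6 (.s k61 k41 5 (.s k60 k62 0 (.s k125 k190 8 (.d k253 k189
  k169 7 13)))))))) .n)) (.c k234 (.l (.s k127 k64 6 (.s k63 k191 7 (.s k21 k42 6 (.d k149 k213 k192
  7 14))))) .n))))))))))))

def t6_22 : T TT 256 :=
  (.q k102 [(.s k68 k119 4 (.s k204 k136 9 (.s k153 k51 14 (.s k221 k17 9 (.d k255 k238 k170 4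
  14)))))] (.c k17 (.q k38 [(.s k68 k119 4 (.s k166 k230 7 (.s k4 k247 12 (.s k196 k132 7 (.d k55
  k21 k149 4 12))))), (.s k166 k230 7 (.s k170 k255 14 (.s k34 k238 9 (.s k46 k42 1 (.s k162 k174 1
  (.d k226 k98 k106 7 9)))))), (.s k170 k255 14 (.s k34 k238 9 (.s k42 k46 1 (.s k21 k63 6 (.s k55
  k4 4 (.d k149 k213 k196 7 12))))))] .n) (.c k38 (.q k54 [(.s k119 k68 4 (.s k255 k170 14 (.s k51
  k187 9 (.s k153 k204 14 (.d k17 k34 k221 4 9))))), (.s k150 k198 11 (.s k20 k215 8 (.s k60 k40 5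
  (.s k105 k195 14 (.s k125 k65 5 (.d k255 k190 k170 8 14)))))), (.s k68 k119 4 (.s k150 k198 11 (.s
  k20 k215 8 (.s k60 k40 5 (.s k51 k57 2 (.d k204 k136 k153 9 14))))))] (.c k204 (.l (.s k119 k68 4
  (.s k150 k198 11 (.s k20 k215 8 (.s k60 k40 5 (.s k51 k57 2 (.d k255 k187 k170 9 14))))))) .n))
  (.c k51 (.q k38 [(.s k166 k230 7 (.s k4 k247 12 (.s k55 k21 4 (.s k196 k149 12 (.d k68 k119 k132 4
  7))))), (.s k166 k230 7 (.s k170 k255 14 (.s k34 k238 9 (.s k46 k42 1 (.s k162 k174 1 (.d k226 k98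
  k106 7 9)))))), (.s k170 k255 14 (.s k34 k238 9 (.s k42 k46 1 (.s k21 k63 6 (.s k55 k4 4 (.d k149
  k213 k196 7 12))))))] (.c k119 (.l (.s k166 k230 7 (.s k4 k247 12 (.s k12 k8 1 (.s k89 k243 14 (.s
  k93 k81 1 (.d k255 k174 k170 12 14))))))) .n)) (.c k54 (.q k38 [(.s k68 k119 4 (.s k170 k255 14
  (.s k34 k238 9 (.s k51 k17 4 (.d k204 k136 k153 9 14))))), (.s k68 k119 4 (.s k166 k230 7 (.s k4
  k247 12 (.s k55 k21 4 (.d k196 k132 k149 7 12))))), (.s k166 k230 7 (.s k4 k247 12 (.s k12 k8 1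
  (.s k51 k25 6 (.s k17 k34 4 (.d k153 k221 k204 9 14))))))] .n) (.c k68 (.q k38 [(.s k166 k230 7
  (.s k4 k247 12 (.s k12 k8 1 (.s k89 k243 14 (.s k93 k81 1 (.d k255 k174 k170 12 14)))))), (.s k166
  k230 7 (.s k170 k255 14 (.s k34 k238 9 (.s k46 k42 1 (.s k162 k174 1 (.d k226 k98 k106 7 9)))))),
  (.s k166 k230 7 (.s k4 k247 12 (.s k12 k8 1 (.s k51 k25 6 (.s k17 k34 4 (.d k153 k221 k204 9
  14)))))), (.s k166 k230 7 (.s k4 k247 12 (.s k21 k55 4 (.s k42 k63 6 (.s k170 k255 14 (.d k34 k46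
  k238 1 9)))))), (.s k170 k255 14 (.s k34 k238 9 (.s k42 k46 1 (.s k21 k63 6 (.s k55 k4 4 (.d k149
  k196 k213 12 7))))))] .n) (.c k119 (.q k38 [(.s k166 k230 7 (.s k4 k247 12 (.s k12 k8 1 (.s k89
  k243 14 (.s k93 k81 1 (.d k255 k174 k170 12 14)))))), (.s k166 k230 7 (.s k170 k255 14 (.s k34
  k238 9 (.s k46 k42 1 (.s k162 k174 1 (.d k226 k98 k106 7 9)))))), (.s k166 k230 7 (.s k4 k247 12
  (.s k12 k8 1 (.s k51 k25 6 (.s k17 k34 4 (.d k153 k221 k204 9 14)))))), (.s k170 k255 14 (.s k34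
  k238 9 (.s k42 k46 1 (.s k21 k63 6 (.s k55 k4 4 (.d k149 k213 k196 7 12))))))] (.c k12 (.l (.s
  k166 k230 7 (.s k4 k247 12 (.s k170 k255 14 (.s k34 k238 9 (.s k42 k46 1 (.d k21 k55 k63 4
  6))))))) (.c k204 (.l (.s k166 k230 7 (.s k4 k247 12 (.s k12 k8 1 (.s k51 k25 6 (.s k34 k17 4 (.d
  k170 k238 k255 9 14))))))) .n))) (.c k136 (.l (.s k119 k68 4 (.s k255 k170 14 (.s k51 k187 9 (.s
  k153 k204 14 (.d k17 k34 k221 4 9)))))) (.c k153 (.q k38 [(.s k68 k119 4 (.s k166 k230 7 (.s k4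
  k247 12 (.s k196 k132 7 (.d k55 k21 k149 4 12))))), (.s k166 k230 7 (.s k170 k255 14 (.s k34 k238
  9 (.s k46 k42 1 (.s k162 k174 1 (.d k226 k98 k106 7 9)))))), (.s k170 k255 14 (.s k34 k238 9 (.s
  k42 k46 1 (.s k21 k63 6 (.s k55 k4 4 (.d k149 k213 k196 7 12))))))] .n) (.c k170 (.f k68 k119 4
  (.q k166 [(.s k4 k247 12 (.s k38 k230 7 (.s k196 k132 7 (.d k55 k21 k149 4 12)))), (.s k204 k136 9
  (.s k153 k51 14 (.s k140 k179 6 (.s k12 k76 7 (.s k243 k89 14 (.d k230 k38 k217 7 6))))))] (.c k38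
  (.q k54 [(.s k150 k198 11 (.s k20 k215 8 (.s k60 k40 5 (.s k51 k57 2 (.d k204 k136 k153 9 14))))),
  (.s k4 k247 12 (.s k12 k8 1 (.s k89 k243 14 (.s k76 k115 6 (.s k72 k64 1 (.d k132 k196 k192 7
  9))))))] (.c k51 (.l (.s k4 k247 12 (.s k12 k8 1 (.s k89 k243 14 (.s k204 k136 9 (.d k76 k115 k140
  6 7)))))) .n)) (.c k54 (.l (.s k38 k230 7 (.s k4 k247 12 (.s k55 k21 4 (.d k196 k132 k149 7
  12))))) (.c k230 (.l (.s k4 k247 12 (.s k12 k8 1 (.s k89 k243 14 (.s k76 k115 6 (.d k204 k140 k136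
  7 9)))))) .n))))) (.c k187 (.l (.s k68 k119 4 (.s k204 k136 9 (.s k51 k153 14 (.s k170 k255 14 (.d
  k34 k17 k238 4 9)))))) (.c k204 (.f k255 k170 14 (.q k38 [(.s k68 k119 4 (.s k166 k230 7 (.s k4
  k247 12 (.s k196 k132 7 (.d k55 k21 k149 4 12))))), (.s k119 k68 4 (.s k51 k187 9 (.s k12 k25 6
  (.s k93 k174 12 (.s k89 k81 1 (.d k166 k230 k243 7 14)))))), (.s k119 k68 4 (.s k51 k187 9 (.s k12
  k25 6 (.s k4 k8 1 (.s k21 k55 4 (.s k34 k17 4 (.d k42 k46 k63 1 6))))))), (.s k166 k230 7 (.s k4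
  k247 12 (.s k12 k8 1 (.s k93 k174 12 (.d k89 k243 k81 14 1)))))] .n)) (.c k221 (.l (.s k68 k119 4
  (.s k170 k255 14 (.s k34 k238 9 (.s k204 k136 9 (.d k51 k17 k153 4 14)))))) (.c k238 (.l (.s k119
  k68 4 (.s k255 k170 14 (.s k51 k187 9 (.s k17 k34 4 (.d k153 k221 k204 9 14)))))) (.c k255 (.q k38
  [(.s k166 k230 7 (.s k4 k247 12 (.s k55 k21 4 (.s k196 k149 12 (.d k68 k119 k132 4 7))))), (.s k68
  k119 4 (.s k166 k230 7 (.s k204 k136 9 (.s k51 k153 14 (.s k12 k25 6 (.s k76 k140 7 (.d k89 k115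
  k243 6 14))))))), (.s k166 k230 7 (.s k4 k247 12 (.s k12 k8 1 (.s k51 k25 6 (.s k17 k34 4 (.d k153
  k221 k204 9 14)))))), (.s k68 k119 4 (.s k204 k136 9 (.s k51 k153 14 (.s k12 k25 6 (.s k4 k8 1 (.s
  k55 k21 4 (.d k196 k132 k149 7 12)))))))] .n) .n)))))))))))))))

def t6_23 : T TT 256 :=
  (.f k255 k170 14 (.q k106 [(.s k64 k127 6 (.s k192 k128 7 (.s k213 k234 6 (.d k149 k21 k63 7
  14))))] (.c k21 (.q k20 [(.s k60 k40 5 (.s k125 k190 8 (.s k105 k65 5 (.d k150 k215 k195 8 14)))),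
  (.s k64 k127 6 (.s k192 k128 7 (.s k213 k234 6 (.s k215 k150 8 (.s k212 k214 0 (.s k84 k148 7 (.d
  k252 k168 k232 13 5))))))), (.s k60 k40 5 (.s k64 k127 6 (.s k192 k128 7 (.s k104 k148 13 (.s k105
  k107 0 (.d k125 k65 k190 5 8))))))] (.c k190 (.l (.s k60 k40 5 (.s k127 k64 6 (.s k63 k191 7 (.s
  k62 k61 0 (.d k150 k215 k194 8 13)))))) .n)) (.c k63 (.q k3 [(.s k87 k171 13 (.s k86 k84 0 (.s
  k169 k252 14 (.d k1 k2 k253 0 13)))), (.s k2 k1 0 (.s k64 k127 6 (.s k192 k128 7 (.s k66 k129 8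
  (.s k65 k67 0 (.d k130 k194 k195 7 8)))))), (.s k64 k127 6 (.s k87 k171 13 (.s k86 k84 0 (.s k66
  k126 5 (.d k192 k128 k129 7 8)))))] (.c k87 (.l (.s k1 k2 0 (.s k64 k127 6 (.s k169 k253 13 (.s
  k86 k252 14 (.s k192 k128 7 (.d k66 k126 k129 5 8))))))) .n)) (.c k64 (.q k60 [(.s k20 k40 5 (.s
  k125 k190 8 (.s k105 k65 5 (.d k150 k215 k195 8 14)))), (.s k20 k40 5 (.s k150 k215 8 (.s k62 k194
  13 (.s k63 k61 0 (.s k21 k42 6 (.d k149 k213 k192 7 14)))))), (.s k125 k190 8 (.s k105 k65 5 (.s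
  k104 k107 0 (.s k192 k148 13 (.s k149 k63 14 (.d k213 k234 k21 6 7))))))] (.c k105 (.q k87 [(.s k3
  k171 13 (.s k86 k84 0 (.s k169 k252 14 (.d k1 k2 k253 0 13)))), (.s k86 k84 0 (.s k126 k66 5 (.s
  k190 k125 8 (.s k62 k254 7 (.s k150 k194 13 (.d k20 k40 k215 5 8)))))), (.s k3 k171 13 (.s k2 k1 0
  (.s k22 k41 6 (.s k62 k42 5 (.s k150 k194 13 (.d k20 k40 k215 5 8))))))] (.c k2 (.l (.s k3 k171 13
  (.s k22 k41 6 (.s k86 k84 0 (.s k150 k214 7 (.d k20 k40 k215 5 8)))))) (.c k40 (.q k235 [(.s k3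
  k171 13 (.s k86 k84 0 (.s k169 k252 14 (.d k1 k2 k253 0 13)))), (.s k171 k3 13 (.s k195 k215 5 (.s
  k107 k43 7 (.s k63 k151 13 (.d k127 k67 k191 5 7))))), (.s k86 k84 0 (.s k126 k66 5 (.s k190 k125
  8 (.s k62 k254 7 (.s k150 k194 13 (.d k215 k195 k20 5 8))))))] .n) (.c k235 (.l (.s k40 k20 5 (.s
  k3 k171 13 (.s k1 k2 0 (.s k86 k84 0 (.d k169 k253 k252 13 14)))))) .n)))) (.c k150 (.q k148 [(.s
  k104 k192 13 (.s k105 k107 0 (.d k125 k190 k65 8 5))), (.s k192 k104 13 (.s k149 k63 14 (.d k213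
  k234 k21 6 7))), (.s k20 k40 5 (.s k84 k212 7 (.s k86 k87 0 (.s k126 k66 5 (.s k190 k125 8 (.s
  k254 k62 7 (.d k252 k253 k168 0 13)))))))] (.c k130 (.l (.s k190 k125 8 (.s k192 k104 13 (.s k149
  k63 14 (.d k213 k234 k21 6 7))))) (.c k190 (.q k130 [(.s k65 k195 8 (.s k105 k125 5 (.d k104 k107
  k192 0 13))), (.s k192 k104 13 (.s k149 k63 14 (.d k213 k234 k21 6 7))), (.s k20 k40 5 (.s k65
  k195 8 (.s k84 k212 7 (.s k86 k87 0 (.s k105 k125 5 (.s k124 k67 6 (.d k252 k188 k168 7 13)))))))]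
  .n) .n))) .n))) (.c k127 (.q k195 [(.s k65 k130 8 (.s k105 k125 5 (.s k150 k60 14 (.d k215 k235
  k20 5 8)))), (.s k215 k235 5 (.s k150 k20 8 (.s k194 k62 13 (.s k192 k193 0 (.s k149 k63 14 (.d
  k213 k21 k234 7 6)))))), (.s k65 k130 8 (.s k105 k125 5 (.s k107 k104 0 (.s k63 k151 13 (.s k21
  k42 6 (.d k149 k213 k192 7 14))))))] (.c k105 (.q k149 [(.s k21 k213 7 (.d k63 k42 k192 6 14)),
  (.s k63 k192 14 (.s k151 k107 13 (.s k150 k148 0 (.d k215 k235 k20 5 8))))] (.c k40 (.l (.s k235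
  k215 5 (.s k21 k213 7 (.d k63 k42 k192 6 14)))) (.c k63 (.l (.s k213 k21 7 (.s k192 k234 6 (.s
  k194 k193 0 (.s k150 k62 13 (.d k215 k20 k235 8 5)))))) (.c k192 (.l (.s k21 k213 7 (.s k63 k42 6
  (.s k151 k107 13 (.s k150 k148 0 (.d k215 k235 k20 5 8)))))) (.c k235 (.q k40 [(.s k21 k213 7 (.d
  k63 k42 k192 6 14)), (.s k20 k60 5 (.s k63 k192 14 (.s k150 k215 8 (.d k151 k148 k107 0 13))))]
  (.c k63 (.l (.s k20 k60 5 (.s k150 k215 8 (.s k213 k21 7 (.s k192 k234 6 (.d k194 k62 k193 13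
  0)))))) (.c k192 (.l (.s k20 k60 5 (.s k21 k213 7 (.s k63 k42 6 (.s k150 k215 8 (.d k151 k148 k107
  0 13)))))) .n))) .n))))) (.c k150 (.q k1 [(.s k169 k253 13 (.s k3 k2 0 (.s k86 k252 14 (.d k87 k84
  k171 0 13)))), (.s k2 k3 0 (.s k130 k65 8 (.s k194 k66 7 (.s k192 k193 0 (.s k213 k234 6 (.d k149
  k63 k21 14 7)))))), (.s k169 k253 13 (.s k43 k232 8 (.s k235 k215 5 (.s k107 k171 7 (.s k105 k104
  0 (.d k65 k130 k125 8 5))))))] (.c k130 (.q k190 [(.s k169 k253 13 (.s k43 k232 8 (.s k235 k215 5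
  (.s k171 k107 7 (.d k3 k87 k2 13 0))))), (.s k125 k60 8 (.s k65 k105 5 (.s k193 k129 7 (.s k192
  k194 0 (.s k213 k234 6 (.d k149 k21 k63 7 14))))))] (.c k2 (.l (.s k125 k60 8 (.s k65 k105 5 (.s
  k193 k129 7 (.s k253 k169 13 (.s k233 k213 5 (.d k252 k254 k214 0 6))))))) (.c k235 (.l (.s k3 k2
  0 (.s k87 k171 13 (.s k86 k84 0 (.d k169 k253 k252 13 14))))) .n))) (.c k190 (.l (.s k130 k65 8
  (.s k3 k2 0 (.s k87 k171 13 (.s k86 k84 0 (.d k169 k253 k252 13 14)))))) .n))) (.c k215 (.l (.s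
  k65 k130 8 (.s k105 k125 5 (.s k107 k104 0 (.s k150 k60 14 (.s k194 k62 13 (.s k192 k193 0 (.d k63
  k151 k149 13 14)))))))) .n)))) (.c k128 (.l (.s k127 k64 6 (.s k63 k191 7 (.s k149 k192 14 (.d k21
  k42 k213 6 7))))) (.c k149 (.f k64 k127 6 (.f k128 k192 7 (.q k86 [(.s k66 k126 5 (.s k67 k65 0
  (.s k84 k87 0 (.d k124 k104 k105 5 6)))), (.s k87 k84 0 (.s k3 k171 13 (.s k1 k2 0 (.d k169 k253
  k252 13 14))))] (.c k84 (.l (.s k66 k126 5 (.s k65 k67 0 (.s k195 k130 8 (.s k215 k235 5 (.s k150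
  k20 8 (.d k105 k125 k60 5 14))))))) (.c k87 (.l (.s k66 k126 5 (.s k67 k65 0 (.s k124 k105 6 (.s
  k84 k104 5 (.s k252 k168 13 (.s k169 k3 14 (.d k253 k254 k1 0 13)))))))) .n))))) (.c k191 (.l (.s
  k64 k127 6 (.s k192 k128 7 (.s k149 k63 14 (.d k213 k234 k21 6 7))))) (.c k192 (.q k4 [(.s k12 k8
  1 (.s k93 k174 12 (.s k89 k81 1 (.d k166 k247 k243 12 14)))), (.s k127 k64 6 (.s k63 k191 7 (.s
  k21 k42 6 (.s k55 k38 4 (.s k247 k166 12 (.s k119 k183 7 (.d k51 k187 k59 9 1))))))), (.s k12 k8 1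
  (.s k127 k64 6 (.s k63 k191 7 (.s k21 k42 6 (.s k29 k46 4 (.s k25 k17 1 (.d k38 k55 k51 4
  6)))))))] .n) (.c k213 (.q k1 [(.s k3 k2 0 (.s k87 k171 13 (.s k86 k84 0 (.d k169 k253 k252 13
  14)))), (.s k127 k64 6 (.s k63 k191 7 (.s k21 k42 6 (.s k61 k41 5 (.s k60 k62 0 (.s k125 k190 8
  (.d k253 k189 k169 7 13))))))), (.s k64 k127 6 (.s k169 k253 13 (.s k192 k128 7 (.s k232 k43 8 (.s
  k252 k212 5 (.s k84 k168 13 (.d k86 k3 k87 14 0))))))), (.s k3 k2 0 (.s k64 k127 6 (.s k192 k128 7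
  (.s k66 k129 8 (.s k86 k126 5 (.d k87 k84 k171 0 13))))))] .n) (.c k234 (.l (.s k127 k64 6 (.s k63
  k191 7 (.s k21 k42 6 (.d k149 k213 k192 7 14))))) .n))))))))))))

def t6_24 : T TT 256 :=
  (.f k255 k170 14 (.q k106 [(.s k64 k127 6 (.s k192 k128 7 (.s k149 k63 14 (.d k213 k234 k21 6
  7))))] (.c k21 (.q k1 [(.s k169 k253 13 (.s k3 k2 0 (.s k86 k252 14 (.d k87 k84 k171 0 13)))), (.s
  k64 k127 6 (.s k192 k128 7 (.s k213 k234 6 (.s k253 k169 13 (.s k193 k233 5 (.s k65 k129 7 (.d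
  k195 k130 k194 8 0))))))), (.s k3 k2 0 (.s k64 k127 6 (.s k192 k128 7 (.s k66 k129 8 (.s k86 k126
  5 (.d k87 k84 k171 0 13))))))] (.c k171 (.l (.s k3 k2 0 (.s k127 k64 6 (.s k63 k191 7 (.s k43 k23
  5 (.d k169 k232 k253 8 13)))))) .n)) (.c k63 (.q k1 [(.s k3 k2 0 (.s k87 k171 13 (.s k86 k84 0 (.d
  k169 k253 k252 13 14)))), (.s k64 k127 6 (.s k192 k128 7 (.s k213 k234 6 (.s k253 k169 13 (.s k193
  k233 5 (.s k65 k129 7 (.d k195 k130 k194 8 0))))))), (.s k3 k2 0 (.s k64 k127 6 (.s k192 k128 7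
  (.s k66 k129 8 (.s k86 k126 5 (.d k87 k84 k171 0 13))))))] (.c k171 (.l (.s k3 k2 0 (.s k64 k127 6
  (.s k169 k253 13 (.s k86 k252 14 (.s k192 k128 7 (.d k66 k126 k129 5 8))))))) .n)) (.c k64 (.q k60
  [(.s k125 k190 8 (.s k105 k65 5 (.s k150 k195 14 (.d k20 k40 k215 5 8)))), (.s k20 k40 5 (.s k150
  k215 8 (.s k62 k194 13 (.s k63 k61 0 (.s k21 k42 6 (.d k149 k213 k192 7 14)))))), (.s k125 k190 8
  (.s k105 k65 5 (.s k104 k107 0 (.s k192 k148 13 (.s k149 k63 14 (.d k213 k234 k21 6 7))))))] (.c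
  k105 (.f k40 k20 5 (.q k48 [(.s k16 k32 3 (.s k117 k186 10 (.s k154 k223 10 (.d k101 k69 k207 3
  14)))), (.s k56 k52 1 (.s k186 k117 10 (.s k121 k251 8 (.s k182 k243 10 (.d k190 k178 k125 1
  8))))), (.s k16 k32 3 (.s k154 k223 10 (.s k58 k202 11 (.s k63 k53 2 (.s k21 k42 6 (.d k149 k213
  k192 7 14))))))] (.c k16 (.q k28 [(.s k12 k44 3 (.s k4 k8 1 (.s k52 k56 1 (.s k117 k186 10 (.d
  k247 k166 k182 12 8))))), (.s k12 k44 3 (.s k93 k174 12 (.s k125 k190 8 (.s k109 k77 3 (.d k158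
  k223 k207 8 12))))), (.s k52 k56 1 (.s k117 k186 10 (.s k125 k190 8 (.s k121 k113 1 (.d k182 k247
  k243 8 10)))))] .n) (.c k28 (.l (.s k16 k32 3 (.s k117 k186 10 (.s k101 k69 3 (.d k154 k223 k207
  10 14))))) .n)))) (.c k150 (.q k148 [(.s k104 k192 13 (.s k105 k107 0 (.d k125 k190 k65 8 5))),
  (.s k192 k104 13 (.s k149 k63 14 (.d k213 k234 k21 6 7))), (.s k20 k40 5 (.s k84 k212 7 (.s k86
  k87 0 (.s k126 k66 5 (.s k190 k125 8 (.s k254 k62 7 (.d k252 k253 k168 0 13)))))))] (.c k130 (.l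
  (.s k190 k125 8 (.s k192 k104 13 (.s k149 k63 14 (.d k213 k234 k21 6 7))))) (.c k190 (.q k130 [(.s
  k65 k195 8 (.s k105 k125 5 (.d k104 k107 k192 0 13))), (.s k192 k104 13 (.s k149 k63 14 (.d k213
  k234 k21 6 7))), (.s k20 k40 5 (.s k65 k195 8 (.s k84 k212 7 (.s k86 k87 0 (.s k105 k125 5 (.s
  k124 k67 6 (.d k252 k188 k168 7 13)))))))] .n) .n))) .n))) (.c k127 (.q k195 [(.s k65 k130 8 (.s
  k105 k125 5 (.s k150 k60 14 (.d k215 k235 k20 5 8)))), (.s k215 k235 5 (.s k150 k20 8 (.s k194 k62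
  13 (.s k192 k193 0 (.s k149 k63 14 (.d k213 k234 k21 6 7)))))), (.s k65 k130 8 (.s k105 k125 5 (.s
  k107 k104 0 (.s k63 k151 13 (.s k21 k42 6 (.d k149 k213 k192 7 14))))))] (.c k105 (.q k149 [(.s
  k21 k213 7 (.d k63 k42 k192 6 14)), (.s k63 k192 14 (.s k151 k107 13 (.s k150 k148 0 (.d k215 k235
  k20 5 8))))] (.c k40 (.l (.s k235 k215 5 (.s k21 k213 7 (.d k63 k42 k192 6 14)))) (.c k63 (.l (.s
  k213 k21 7 (.s k192 k234 6 (.s k194 k193 0 (.s k150 k62 13 (.d k215 k235 k20 5 8)))))) (.c k192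
  (.l (.s k21 k213 7 (.s k63 k42 6 (.s k151 k107 13 (.s k150 k148 0 (.d k215 k235 k20 5 8)))))) (.c
  k235 (.q k40 [(.s k21 k213 7 (.d k63 k42 k192 6 14)), (.s k20 k60 5 (.s k63 k192 14 (.s k150 k215
  8 (.d k151 k148 k107 0 13))))] (.c k63 (.l (.s k20 k60 5 (.s k150 k215 8 (.s k213 k21 7 (.s k192
  k234 6 (.d k194 k62 k193 13 0)))))) (.c k192 (.l (.s k20 k60 5 (.s k21 k213 7 (.s k63 k42 6 (.s
  k150 k215 8 (.d k151 k148 k107 0 13)))))) .n))) .n))))) (.c k150 (.q k149 [(.s k21 k213 7 (.d k63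
  k42 k192 6 14)), (.s k63 k192 14 (.s k107 k151 13 (.s k105 k104 0 (.d k65 k130 k125 8 5))))] (.c
  k63 (.l (.s k213 k21 7 (.s k192 k234 6 (.s k193 k194 0 (.s k105 k61 13 (.d k65 k125 k130 5 8))))))
  (.c k130 (.q k190 [(.s k21 k213 7 (.d k63 k42 k192 6 14)), (.s k63 k192 14 (.s k107 k151 13 (.s
  k105 k104 0 (.d k125 k60 k65 8 5))))] (.c k63 (.l (.s k125 k60 8 (.s k105 k65 5 (.s k213 k21 7 (.s
  k192 k234 6 (.d k193 k61 k194 13 0)))))) (.c k192 (.l (.s k21 k213 7 (.s k63 k42 6 (.s k107 k151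
  13 (.s k105 k104 0 (.d k125 k60 k65 8 5)))))) .n))) (.c k190 (.l (.s k130 k65 8 (.s k21 k213 7 (.d
  k63 k42 k192 6 14)))) (.c k192 (.l (.s k21 k213 7 (.s k63 k42 6 (.s k107 k151 13 (.s k105 k104 0
  (.d k65 k125 k130 5 8)))))) .n))))) .n))) (.c k128 (.l (.s k127 k64 6 (.s k63 k191 7 (.s k149 k192
  14 (.d k21 k42 k213 6 7))))) (.c k149 (.f k127 k64 6 (.q k90 [(.s k80 k95 2 (.s k240 k160 11 (.s
  k165 k15 14 (.d k245 k250 k5 2 11)))), (.s k122 k74 3 (.s k117 k112 2 (.s k48 k186 10 (.s k16 k32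
  3 (.s k154 k223 10 (.d k101 k69 k207 3 14))))))] (.c k80 (.l (.s k122 k74 3 (.s k112 k117 2 (.s
  k79 k101 6 (.s k95 k111 3 (.s k15 k175 11 (.s k5 k10 2 (.d k165 k245 k240 11 14)))))))) (.c k128
  (.l (.s k191 k63 7 (.s k80 k95 2 (.s k240 k160 11 (.s k165 k15 14 (.d k245 k250 k5 2 11)))))) (.c
  k191 (.q k128 [(.s k80 k95 2 (.s k240 k160 11 (.s k165 k15 14 (.d k245 k250 k5 2 11)))), (.s k122
  k74 3 (.s k117 k112 2 (.s k48 k186 10 (.s k16 k32 3 (.s k154 k223 10 (.d k101 k69 k207 3 14))))))]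
  (.c k80 (.l (.s k122 k74 3 (.s k112 k117 2 (.s k79 k101 6 (.s k95 k111 3 (.s k15 k175 11 (.s k5
  k10 2 (.d k165 k245 k240 11 14)))))))) .n)) .n))))) (.c k191 (.l (.s k64 k127 6 (.s k192 k128 7
  (.s k149 k63 14 (.d k213 k234 k21 6 7))))) (.c k192 (.q k1 [(.s k3 k2 0 (.s k87 k171 13 (.s k86
  k84 0 (.d k169 k253 k252 13 14)))), (.s k127 k64 6 (.s k63 k191 7 (.s k21 k42 6 (.s k61 k41 5 (.s
  k253 k169 13 (.s k125 k189 7 (.d k60 k190 k62 8 0))))))), (.s k3 k2 0 (.s k127 k64 6 (.s k63 k191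
  7 (.s k21 k42 6 (.s k23 k43 5 (.s k22 k20 0 (.d k41 k61 k60 5 6)))))))] .n) (.c k213 (.q k1 [(.s
  k3 k2 0 (.s k87 k171 13 (.s k86 k84 0 (.d k169 k253 k252 13 14)))), (.s k64 k127 6 (.s k169 k253
  13 (.s k192 k128 7 (.s k149 k63 14 (.s k129 k189 5 (.s k66 k3 8 (.d k65 k193 k67 7 0))))))), (.s
  k3 k2 0 (.s k64 k127 6 (.s k192 k128 7 (.s k66 k129 8 (.s k86 k126 5 (.d k87 k84 k171 0 13))))))]
  (.c k3 (.l (.s k127 k64 6 (.s k63 k191 7 (.s k21 k42 6 (.s k61 k41 5 (.s k60 k62 0 (.s k125 k190 8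
  (.d k253 k189 k169 7 13)))))))) .n)) (.c k234 (.l (.s k127 k64 6 (.s k63 k191 7 (.s k21 k42 6 (.d
  k149 k213 k192 7 14))))) .n))))))))))))

def t6_25 : T TT 256 :=
  (.f k255 k170 14 (.q k106 [(.s k64 k127 6 (.s k192 k128 7 (.s k149 k63 14 (.d k213 k234 k21 6
  7))))] (.c k21 (.q k17 [(.s k153 k221 9 (.s k51 k34 4 (.s k102 k204 14 (.d k119 k68 k187 4 9)))),
  (.s k64 k127 6 (.s k153 k221 9 (.s k192 k128 7 (.s k149 k63 14 (.s k145 k157 1 (.s k81 k209 7 (.d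
  k98 k115 k51 4 12))))))), (.s k51 k34 4 (.s k64 k127 6 (.s k192 k128 7 (.s k98 k145 12 (.s k102
  k110 1 (.d k119 k68 k187 4 9))))))] (.c k51 (.l (.s k127 k64 6 (.s k63 k191 7 (.s k221 k153 9 (.s
  k204 k238 4 (.s k110 k157 12 (.s k102 k98 1 (.d k68 k136 k119 9 4)))))))) .n)) (.c k63 (.q k1 [(.s
  k3 k2 0 (.s k87 k171 13 (.s k86 k84 0 (.d k169 k253 k252 13 14)))), (.s k64 k127 6 (.s k192 k128 7
  (.s k213 k234 6 (.s k253 k169 13 (.s k193 k233 5 (.s k65 k129 7 (.d k195 k130 k194 8 0))))))), (.s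
  k3 k2 0 (.s k64 k127 6 (.s k192 k128 7 (.s k66 k129 8 (.s k86 k126 5 (.d k87 k84 k171 0 13))))))]
  (.c k171 (.l (.s k3 k2 0 (.s k64 k127 6 (.s k169 k253 13 (.s k86 k252 14 (.s k192 k128 7 (.d k66
  k126 k129 5 8))))))) .n)) (.c k64 (.q k60 [(.s k20 k40 5 (.s k125 k190 8 (.s k150 k215 8 (.d k105
  k65 k195 5 14)))), (.s k20 k40 5 (.s k150 k215 8 (.s k62 k194 13 (.s k63 k61 0 (.s k21 k42 6 (.d
  k149 k213 k192 7 14)))))), (.s k125 k190 8 (.s k105 k65 5 (.s k104 k107 0 (.s k192 k148 13 (.s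
  k149 k63 14 (.d k213 k234 k21 6 7))))))] (.c k105 (.q k87 [(.s k3 k171 13 (.s k86 k84 0 (.s k169
  k252 14 (.d k1 k2 k253 0 13)))), (.s k86 k84 0 (.s k126 k66 5 (.s k190 k125 8 (.s k62 k254 7 (.s
  k150 k194 13 (.d k20 k40 k215 5 8)))))), (.s k3 k171 13 (.s k2 k1 0 (.s k22 k41 6 (.s k42 k62 5
  (.s k21 k63 6 (.d k20 k40 k23 5 0))))))] (.c k2 (.l (.s k3 k171 13 (.s k22 k41 6 (.s k86 k84 0 (.s
  k150 k214 7 (.d k20 k40 k215 5 8)))))) (.c k40 (.q k235 [(.s k3 k171 13 (.s k86 k84 0 (.s k169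
  k252 14 (.d k1 k2 k253 0 13)))), (.s k3 k171 13 (.s k22 k41 6 (.s k215 k195 5 (.s k20 k150 8 (.d
  k23 k21 k151 0 7))))), (.s k86 k84 0 (.s k126 k66 5 (.s k190 k125 8 (.s k62 k254 7 (.s k150 k194
  13 (.d k215 k195 k20 5 8))))))] .n) (.c k235 (.l (.s k40 k20 5 (.s k3 k171 13 (.s k1 k2 0 (.s k86
  k84 0 (.d k169 k253 k252 13 14)))))) .n)))) (.c k150 (.q k149 [(.s k21 k213 7 (.d k63 k42 k192 6
  14)), (.s k63 k192 14 (.s k61 k62 0 (.s k105 k193 13 (.d k125 k190 k65 8 5))))] (.c k63 (.l (.s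
  k213 k21 7 (.s k192 k234 6 (.s k104 k148 13 (.s k105 k107 0 (.d k125 k65 k190 5 8)))))) (.c k130
  (.l (.s k190 k125 8 (.s k21 k213 7 (.d k63 k42 k192 6 14)))) (.c k190 (.q k130 [(.s k21 k213 7 (.d
  k63 k42 k192 6 14)), (.s k63 k192 14 (.s k61 k62 0 (.s k65 k195 8 (.d k105 k193 k125 13 5))))] (.c
  k63 (.l (.s k65 k195 8 (.s k105 k125 5 (.s k213 k21 7 (.s k192 k234 6 (.d k104 k107 k148 0
  13)))))) (.c k192 (.l (.s k21 k213 7 (.s k63 k42 6 (.s k61 k62 0 (.s k65 k195 8 (.d k105 k193 k125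
  13 5)))))) .n))) (.c k192 (.l (.s k21 k213 7 (.s k63 k42 6 (.s k61 k62 0 (.s k105 k193 13 (.d k125
  k65 k190 5 8)))))) .n))))) .n))) (.c k127 (.q k195 [(.s k65 k130 8 (.s k215 k235 5 (.s k150 k20 8
  (.d k105 k125 k60 5 14)))), (.s k65 k130 8 (.s k105 k125 5 (.s k107 k104 0 (.s k63 k151 13 (.s k21
  k42 6 (.d k149 k213 k192 7 14)))))), (.s k215 k235 5 (.s k150 k20 8 (.s k194 k62 13 (.s k192 k193
  0 (.s k149 k63 14 (.d k213 k234 k21 6 7))))))] (.c k105 (.q k149 [(.s k21 k213 7 (.d k63 k42 k192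
  6 14)), (.s k63 k192 14 (.s k151 k107 13 (.s k150 k148 0 (.d k215 k235 k20 5 8))))] (.c k40 (.l
  (.s k235 k215 5 (.s k21 k213 7 (.d k63 k42 k192 6 14)))) (.c k63 (.l (.s k213 k21 7 (.s k192 k234
  6 (.s k194 k193 0 (.s k150 k62 13 (.d k215 k235 k20 5 8)))))) (.c k192 (.l (.s k21 k213 7 (.s k63
  k42 6 (.s k151 k107 13 (.s k150 k148 0 (.d k215 k235 k20 5 8)))))) (.c k235 (.q k40 [(.s k21 k213
  7 (.d k63 k42 k192 6 14)), (.s k20 k60 5 (.s k63 k192 14 (.s k150 k215 8 (.d k151 k148 k107 0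
  13))))] (.c k63 (.l (.s k20 k60 5 (.s k150 k215 8 (.s k213 k21 7 (.s k192 k234 6 (.d k194 k62 k193
  13 0)))))) (.c k192 (.l (.s k20 k60 5 (.s k21 k213 7 (.s k63 k42 6 (.s k150 k215 8 (.d k151 k148
  k107 0 13)))))) .n))) .n))))) (.c k150 (.q k149 [(.s k21 k213 7 (.d k63 k42 k192 6 14)), (.s k63
  k192 14 (.s k107 k151 13 (.s k105 k104 0 (.d k65 k130 k125 8 5))))] (.c k63 (.l (.s k213 k21 7 (.s
  k192 k234 6 (.s k193 k194 0 (.s k105 k61 13 (.d k65 k125 k130 5 8)))))) (.c k130 (.q k190 [(.s k21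
  k213 7 (.d k63 k42 k192 6 14)), (.s k63 k192 14 (.s k107 k151 13 (.s k105 k104 0 (.d k125 k60 k65
  8 5))))] (.c k63 (.l (.s k125 k60 8 (.s k105 k65 5 (.s k213 k21 7 (.s k192 k234 6 (.d k193 k61
  k194 13 0)))))) (.c k192 (.l (.s k21 k213 7 (.s k63 k42 6 (.s k107 k151 13 (.s k105 k104 0 (.d
  k125 k60 k65 8 5)))))) .n))) (.c k190 (.l (.s k130 k65 8 (.s k21 k213 7 (.d k63 k42 k192 6 14))))
  (.c k192 (.l (.s k21 k213 7 (.s k63 k42 6 (.s k107 k151 13 (.s k105 k104 0 (.d k65 k125 k130 5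
  8)))))) .n))))) .n))) (.c k128 (.l (.s k127 k64 6 (.s k63 k191 7 (.s k149 k192 14 (.d k21 k42 k213
  6 7))))) (.c k149 (.f k127 k64 6 (.q k102 [(.s k110 k98 1 (.s k76 k93 4 (.s k119 k68 4 (.d k115
  k123 k89 1 6)))), (.s k68 k119 4 (.s k204 k136 9 (.s k153 k51 14 (.d k221 k238 k17 4 9))))] (.c
  k68 (.l (.s k110 k98 1 (.s k76 k93 4 (.s k115 k89 6 (.s k119 k123 1 (.s k51 k187 9 (.s k17 k34 4
  (.d k153 k221 k204 9 14)))))))) (.c k119 (.l (.s k110 k98 1 (.s k93 k76 4 (.s k12 k174 12 (.s k4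
  k8 1 (.s k166 k247 12 (.d k89 k81 k243 1 14))))))) (.c k128 (.l (.s k191 k63 7 (.s k68 k119 4 (.s
  k204 k136 9 (.s k153 k51 14 (.d k221 k238 k17 4 9)))))) (.c k191 (.q k128 [(.s k68 k119 4 (.s k204
  k136 9 (.s k221 k238 4 (.d k153 k17 k51 9 14)))), (.s k110 k98 1 (.s k93 k76 4 (.s k12 k174 12 (.s
  k4 k8 1 (.s k166 k247 12 (.d k89 k81 k243 1 14))))))] (.c k68 (.l (.s k110 k98 1 (.s k76 k93 4 (.s
  k115 k89 6 (.s k119 k123 1 (.s k51 k187 9 (.s k17 k34 4 (.d k153 k221 k204 9 14)))))))) .n))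
  .n)))))) (.c k191 (.l (.s k64 k127 6 (.s k192 k128 7 (.s k149 k63 14 (.d k213 k234 k21 6 7)))))
  (.c k192 (.q k1 [(.s k3 k2 0 (.s k87 k171 13 (.s k86 k84 0 (.d k169 k253 k252 13 14)))), (.s k127
  k64 6 (.s k63 k191 7 (.s k21 k42 6 (.s k61 k41 5 (.s k253 k169 13 (.s k125 k189 7 (.d k60 k190 k62
  8 0))))))), (.s k3 k2 0 (.s k127 k64 6 (.s k63 k191 7 (.s k21 k42 6 (.s k23 k43 5 (.s k22 k20 0
  (.d k41 k61 k60 5 6)))))))] .n) (.c k213 (.q k1 [(.s k3 k2 0 (.s k87 k171 13 (.s k86 k84 0 (.d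
  k169 k253 k252 13 14)))), (.s k64 k127 6 (.s k169 k253 13 (.s k192 k128 7 (.s k149 k63 14 (.s k129
  k189 5 (.s k66 k3 8 (.d k65 k193 k67 7 0))))))), (.s k3 k2 0 (.s k64 k127 6 (.s k192 k128 7 (.s
  k66 k129 8 (.s k86 k126 5 (.d k87 k84 k171 0 13))))))] (.c k3 (.l (.s k127 k64 6 (.s k63 k191 7
  (.s k21 k42 6 (.s k61 k41 5 (.s k60 k62 0 (.s k125 k190 8 (.d k253 k189 k169 7 13)))))))) .n)) (.c
  k234 (.l (.s k127 k64 6 (.s k63 k191 7 (.s k21 k42 6 (.d k149 k213 k192 7 14))))) .n))))))))))))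

def t6_26 : T TT 256 :=
  (.f k255 k170 14 (.q k106 [(.s k64 k127 6 (.s k192 k128 7 (.s k149 k63 14 (.d k213 k234 k21 6
  7))))] (.c k21 (.q k16 [(.s k154 k223 10 (.s k48 k32 3 (.s k101 k207 14 (.d k117 k69 k186 3
  10)))), (.s k64 k127 6 (.s k154 k223 10 (.s k192 k128 7 (.s k149 k63 14 (.s k144 k159 2 (.s k80
  k208 7 (.d k96 k112 k48 3 11))))))), (.s k48 k32 3 (.s k64 k127 6 (.s k192 k128 7 (.s k96 k144 11
  (.s k101 k111 2 (.d k117 k69 k186 3 10))))))] (.c k48 (.l (.s k127 k64 6 (.s k63 k191 7 (.s k223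
  k154 10 (.s k207 k239 3 (.s k111 k159 11 (.s k101 k96 2 (.d k69 k138 k117 10 3)))))))) .n)) (.c
  k63 (.q k1 [(.s k3 k2 0 (.s k87 k171 13 (.s k86 k84 0 (.d k169 k253 k252 13 14)))), (.s k64 k127 6
  (.s k192 k128 7 (.s k213 k234 6 (.s k253 k169 13 (.s k193 k233 5 (.s k65 k129 7 (.d k195 k130 k194
  8 0))))))), (.s k3 k2 0 (.s k64 k127 6 (.s k192 k128 7 (.s k66 k129 8 (.s k86 k126 5 (.d k87 k84
  k171 0 13))))))] (.c k171 (.l (.s k3 k2 0 (.s k64 k127 6 (.s k169 k253 13 (.s k86 k252 14 (.s k192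
  k128 7 (.d k66 k126 k129 5 8))))))) .n)) (.c k64 (.q k60 [(.s k20 k40 5 (.s k125 k190 8 (.s k150
  k215 8 (.d k105 k65 k195 5 14)))), (.s k20 k40 5 (.s k150 k215 8 (.s k62 k194 13 (.s k63 k61 0 (.s
  k21 k42 6 (.d k149 k213 k192 7 14)))))), (.s k125 k190 8 (.s k105 k65 5 (.s k104 k107 0 (.s k192
  k148 13 (.s k149 k63 14 (.d k213 k234 k21 6 7))))))] (.c k105 (.q k87 [(.s k3 k171 13 (.s k86 k84
  0 (.s k169 k252 14 (.d k1 k2 k253 0 13)))), (.s k86 k84 0 (.s k126 k66 5 (.s k190 k125 8 (.s k62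
  k254 7 (.s k150 k194 13 (.d k20 k40 k215 5 8)))))), (.s k3 k171 13 (.s k2 k1 0 (.s k22 k41 6 (.s
  k42 k62 5 (.s k21 k63 6 (.d k20 k40 k23 5 0))))))] (.c k2 (.l (.s k3 k171 13 (.s k22 k41 6 (.s k86
  k84 0 (.s k150 k214 7 (.d k20 k40 k215 5 8)))))) (.c k40 (.q k235 [(.s k3 k171 13 (.s k86 k84 0
  (.s k169 k252 14 (.d k1 k2 k253 0 13)))), (.s k3 k171 13 (.s k22 k41 6 (.s k215 k195 5 (.s k20
  k150 8 (.d k23 k21 k151 0 7))))), (.s k86 k84 0 (.s k126 k66 5 (.s k190 k125 8 (.s k62 k254 7 (.s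
  k150 k194 13 (.d k215 k195 k20 5 8))))))] .n) (.c k235 (.l (.s k40 k20 5 (.s k3 k171 13 (.s k1 k2
  0 (.s k86 k84 0 (.d k169 k253 k252 13 14)))))) .n)))) (.c k150 (.q k149 [(.s k21 k213 7 (.d k63
  k42 k192 6 14)), (.s k63 k192 14 (.s k61 k62 0 (.s k105 k193 13 (.d k125 k190 k65 8 5))))] (.c k63
  (.l (.s k213 k21 7 (.s k192 k234 6 (.s k104 k148 13 (.s k105 k107 0 (.d k125 k65 k190 5 8))))))
  (.c k130 (.l (.s k190 k125 8 (.s k21 k213 7 (.d k63 k42 k192 6 14)))) (.c k190 (.q k130 [(.s k21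
  k213 7 (.d k63 k42 k192 6 14)), (.s k63 k192 14 (.s k61 k62 0 (.s k65 k195 8 (.d k105 k193 k125 13
  5))))] (.c k63 (.l (.s k65 k195 8 (.s k105 k125 5 (.s k213 k21 7 (.s k192 k234 6 (.d k104 k107
  k148 0 13)))))) (.c k192 (.l (.s k21 k213 7 (.s k63 k42 6 (.s k61 k62 0 (.s k65 k195 8 (.d k105
  k193 k125 13 5)))))) .n))) (.c k192 (.l (.s k21 k213 7 (.s k63 k42 6 (.s k61 k62 0 (.s k105 k193
  13 (.d k125 k65 k190 5 8)))))) .n))))) .n))) (.c k127 (.q k195 [(.s k65 k130 8 (.s k215 k235 5 (.s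
  k150 k20 8 (.d k105 k125 k60 5 14)))), (.s k65 k130 8 (.s k105 k125 5 (.s k107 k104 0 (.s k63 k151
  13 (.s k21 k42 6 (.d k149 k213 k192 7 14)))))), (.s k215 k235 5 (.s k150 k20 8 (.s k194 k62 13 (.s
  k192 k193 0 (.s k149 k63 14 (.d k213 k234 k21 6 7))))))] (.c k105 (.q k81 [(.s k89 k93 1 (.s k243
  k162 12 (.s k247 k251 1 (.d k166 k4 k12 12 14)))), (.s k65 k130 8 (.s k97 k113 3 (.s k48 k146 12
  (.s k32 k16 3 (.d k162 k227 k243 8 12)))))] (.c k40 (.l (.s k235 k215 5 (.s k89 k93 1 (.s k243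
  k162 12 (.s k166 k12 14 (.d k247 k251 k4 1 12)))))) (.c k162 (.l (.s k65 k130 8 (.s k89 k93 1 (.s
  k97 k113 3 (.s k146 k48 12 (.s k211 k16 8 (.s k150 k28 10 (.d k215 k20 k235 8 5)))))))) (.c k235
  (.q k40 [(.s k89 k93 1 (.s k243 k162 12 (.s k166 k12 14 (.d k247 k251 k4 1 12)))), (.s k20 k60 5
  (.s k150 k215 8 (.s k194 k62 13 (.s k192 k193 0 (.s k213 k234 6 (.d k149 k63 k21 14 7))))))] .n)
  (.c k243 (.l (.s k65 k130 8 (.s k93 k89 1 (.s k12 k174 12 (.s k8 k4 1 (.s k73 k134 10 (.s k69 k77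
  1 (.d k138 k203 k207 8 10)))))))) .n))))) (.c k150 (.q k199 [(.s k207 k203 1 (.s k69 k138 10 (.s
  k101 k117 3 (.s k154 k48 14 (.d k223 k239 k16 3 10))))), (.s k207 k203 1 (.s k215 k235 5 (.s k223
  k239 3 (.s k219 k211 1 (.d k231 k247 k243 3 5))))), (.s k207 k203 1 (.s k69 k138 10 (.s k4 k134 8
  (.s k215 k235 5 (.d k247 k166 k231 12 3))))), (.s k215 k235 5 (.s k247 k231 3 (.s k4 k166 12 (.s
  k12 k8 1 (.d k134 k69 k73 8 10)))))] (.c k130 (.q k190 [(.s k207 k203 1 (.s k69 k138 10 (.s k101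
  k117 3 (.s k223 k239 3 (.d k154 k16 k48 10 14))))), (.s k207 k203 1 (.s k215 k235 5 (.s k223 k239
  3 (.s k219 k211 1 (.d k231 k247 k243 3 5))))), (.s k215 k235 5 (.s k247 k231 3 (.s k4 k166 12 (.s
  k12 k8 1 (.d k134 k69 k73 8 10))))), (.s k125 k60 8 (.s k65 k105 5 (.s k207 k203 1 (.s k69 k138 10
  (.s k73 k77 1 (.d k134 k4 k12 8 10))))))] .n) (.c k190 (.l (.s k130 k65 8 (.s k207 k203 1 (.s k69
  k138 10 (.s k4 k134 8 (.s k215 k235 5 (.d k247 k166 k231 12 3))))))) .n))) .n))) (.c k128 (.l (.s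
  k127 k64 6 (.s k63 k191 7 (.s k149 k192 14 (.d k21 k42 k213 6 7))))) (.c k149 (.f k127 k64 6 (.q
  k123 [(.s k89 k72 4 (.s k93 k81 1 (.s k76 k110 4 (.d k115 k119 k102 1 6)))), (.s k89 k72 4 (.s k81
  k93 1 (.s k243 k162 12 (.d k63 k191 k183 7 9)))), (.s k119 k115 1 (.s k51 k187 9 (.s k17 k34 4 (.s
  k153 k221 9 (.d k102 k68 k204 4 14)))))] (.c k68 (.l (.s k115 k119 1 (.s k89 k72 4 (.s k76 k102 6
  (.d k93 k81 k110 1 4))))) (.c k81 (.l (.s k89 k72 4 (.s k115 k119 1 (.s k76 k102 6 (.s k93 k110 4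
  (.s k12 k174 12 (.s k4 k8 1 (.d k166 k247 k243 12 14)))))))) (.c k128 (.l (.s k191 k63 7 (.s k89
  k72 4 (.s k93 k81 1 (.s k76 k110 4 (.d k115 k119 k102 1 6)))))) (.c k191 (.q k128 [(.s k89 k72 4
  (.s k93 k81 1 (.s k76 k110 4 (.d k115 k119 k102 1 6)))), (.s k119 k115 1 (.s k51 k187 9 (.s k17
  k34 4 (.s k153 k221 9 (.d k102 k68 k204 4 14))))), (.s k89 k72 4 (.s k81 k93 1 (.s k243 k162 12
  (.s k166 k12 14 (.d k247 k251 k4 1 12)))))] (.c k68 (.l (.s k115 k119 1 (.s k89 k72 4 (.s k76 k102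
  6 (.d k93 k81 k110 1 4))))) (.c k81 (.l (.s k89 k72 4 (.s k115 k119 1 (.s k76 k102 6 (.s k93 k110
  4 (.s k12 k174 12 (.s k4 k8 1 (.d k166 k247 k243 12 14)))))))) .n))) .n)))))) (.c k191 (.l (.s k64
  k127 6 (.s k192 k128 7 (.s k149 k63 14 (.d k213 k234 k21 6 7))))) (.c k192 (.q k1 [(.s k3 k2 0 (.s
  k87 k171 13 (.s k86 k84 0 (.d k169 k253 k252 13 14)))), (.s k127 k64 6 (.s k63 k191 7 (.s k21 k42
  6 (.s k61 k41 5 (.s k253 k169 13 (.s k125 k189 7 (.d k60 k190 k62 8 0))))))), (.s k3 k2 0 (.s k127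
  k64 6 (.s k63 k191 7 (.s k21 k42 6 (.s k23 k43 5 (.s k22 k20 0 (.d k41 k61 k60 5 6)))))))] (.c k10
  (.l (.s k127 k64 6 (.s k63 k191 7 (.s k169 k253 13 (.s k43 k232 8 (.d k3 k2 k23 0 5)))))) .n)) (.c
  k213 (.q k1 [(.s k3 k2 0 (.s k87 k171 13 (.s k86 k84 0 (.d k169 k253 k252 13 14)))), (.s k64 k127
  6 (.s k169 k253 13 (.s k192 k128 7 (.s k149 k63 14 (.s k129 k189 5 (.s k66 k3 8 (.d k65 k193 k67 7
  0))))))), (.s k3 k2 0 (.s k64 k127 6 (.s k192 k128 7 (.s k66 k129 8 (.s k86 k126 5 (.d k87 k84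
  k171 0 13))))))] (.c k3 (.l (.s k127 k64 6 (.s k63 k191 7 (.s k21 k42 6 (.s k61 k41 5 (.s k60 k62
  0 (.s k125 k190 8 (.d k253 k189 k169 7 13)))))))) .n)) (.c k234 (.l (.s k127 k64 6 (.s k63 k191 7
  (.s k21 k42 6 (.d k149 k213 k192 7 14))))) .n))))))))))))

def t6_27 : T TT 256 :=
  (.f k255 k170 14 (.q k106 [(.s k64 k127 6 (.s k192 k128 7 (.s k149 k63 14 (.d k213 k234 k21 6
  7))))] (.c k21 (.q k1 [(.s k169 k253 13 (.s k3 k2 0 (.s k86 k252 14 (.d k87 k84 k171 0 13)))), (.s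
  k64 k127 6 (.s k192 k128 7 (.s k213 k234 6 (.s k253 k169 13 (.s k193 k233 5 (.s k65 k129 7 (.d
  k195 k130 k194 8 0))))))), (.s k3 k2 0 (.s k64 k127 6 (.s k192 k128 7 (.s k66 k129 8 (.s k86 k126
  5 (.d k87 k84 k171 0 13))))))] (.c k171 (.l (.s k3 k2 0 (.s k127 k64 6 (.s k63 k191 7 (.s k43 k23
  5 (.d k169 k232 k253 8 13)))))) .n)) (.c k63 (.q k1 [(.s k3 k2 0 (.s k87 k171 13 (.s k86 k84 0 (.d
  k169 k253 k252 13 14)))), (.s k64 k127 6 (.s k192 k128 7 (.s k213 k234 6 (.s k253 k169 13 (.s k193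
  k233 5 (.s k65 k129 7 (.d k195 k130 k194 8 0))))))), (.s k3 k2 0 (.s k64 k127 6 (.s k192 k128 7
  (.s k66 k129 8 (.s k86 k126 5 (.d k87 k84 k171 0 13))))))] (.c k171 (.l (.s k3 k2 0 (.s k64 k127 6
  (.s k169 k253 13 (.s k86 k252 14 (.s k192 k128 7 (.d k66 k126 k129 5 8))))))) .n)) (.c k64 (.q k60
  [(.s k20 k40 5 (.s k125 k190 8 (.s k150 k215 8 (.d k105 k65 k195 5 14)))), (.s k20 k40 5 (.s k150
  k215 8 (.s k62 k194 13 (.s k63 k61 0 (.s k21 k42 6 (.d k149 k213 k192 7 14)))))), (.s k125 k190 8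
  (.s k105 k65 5 (.s k104 k107 0 (.s k192 k148 13 (.s k149 k63 14 (.d k213 k234 k21 6 7))))))] (.c
  k105 (.q k87 [(.s k3 k171 13 (.s k86 k84 0 (.s k169 k252 14 (.d k1 k2 k253 0 13)))), (.s k86 k84 0
  (.s k126 k66 5 (.s k190 k125 8 (.s k62 k254 7 (.s k150 k194 13 (.d k20 k40 k215 5 8)))))), (.s k3
  k171 13 (.s k2 k1 0 (.s k22 k41 6 (.s k42 k62 5 (.s k21 k63 6 (.d k20 k40 k23 5 0))))))] (.c k2
  (.l (.s k3 k171 13 (.s k22 k41 6 (.s k86 k84 0 (.s k150 k214 7 (.d k20 k40 k215 5 8)))))) (.c k40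
  (.q k235 [(.s k3 k171 13 (.s k86 k84 0 (.s k169 k252 14 (.d k1 k2 k253 0 13)))), (.s k3 k171 13
  (.s k22 k41 6 (.s k215 k195 5 (.s k20 k150 8 (.d k23 k21 k151 0 7))))), (.s k86 k84 0 (.s k126 k66
  5 (.s k190 k125 8 (.s k62 k254 7 (.s k150 k194 13 (.d k215 k195 k20 5 8))))))] .n) (.c k235 (.l
  (.s k40 k20 5 (.s k3 k171 13 (.s k1 k2 0 (.s k86 k84 0 (.d k169 k253 k252 13 14)))))) .n)))) (.c
  k150 (.q k149 [(.s k21 k213 7 (.d k63 k42 k192 6 14)), (.s k63 k192 14 (.s k61 k62 0 (.s k105 k193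
  13 (.d k125 k190 k65 8 5))))] (.c k63 (.l (.s k213 k21 7 (.s k192 k234 6 (.s k104 k148 13 (.s k105
  k107 0 (.d k125 k65 k190 5 8)))))) (.c k130 (.l (.s k190 k125 8 (.s k21 k213 7 (.d k63 k42 k192 6
  14)))) (.c k190 (.q k130 [(.s k21 k213 7 (.d k63 k42 k192 6 14)), (.s k63 k192 14 (.s k61 k62 0
  (.s k65 k195 8 (.d k105 k193 k125 13 5))))] (.c k63 (.l (.s k65 k195 8 (.s k105 k125 5 (.s k213
  k21 7 (.s k192 k234 6 (.d k104 k107 k148 0 13)))))) (.c k192 (.l (.s k21 k213 7 (.s k63 k42 6 (.s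
  k61 k62 0 (.s k65 k195 8 (.d k105 k193 k125 13 5)))))) .n))) (.c k192 (.l (.s k21 k213 7 (.s k63
  k42 6 (.s k61 k62 0 (.s k105 k193 13 (.d k125 k65 k190 5 8)))))) .n))))) .n))) (.c k127 (.q k195
  [(.s k65 k130 8 (.s k215 k235 5 (.s k150 k20 8 (.d k105 k125 k60 5 14)))), (.s k65 k130 8 (.s k105
  k125 5 (.s k107 k104 0 (.s k63 k151 13 (.s k21 k42 6 (.d k149 k213 k192 7 14)))))), (.s k215 k235
  5 (.s k150 k20 8 (.s k194 k62 13 (.s k192 k193 0 (.s k149 k63 14 (.d k213 k234 k21 6 7))))))] (.c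
  k105 (.q k149 [(.s k21 k213 7 (.d k63 k42 k192 6 14)), (.s k63 k192 14 (.s k151 k107 13 (.s k150
  k148 0 (.d k215 k235 k20 5 8))))] (.c k40 (.l (.s k235 k215 5 (.s k21 k213 7 (.d k63 k42 k192 6
  14)))) (.c k63 (.l (.s k213 k21 7 (.s k192 k234 6 (.s k194 k193 0 (.s k150 k62 13 (.d k215 k235
  k20 5 8)))))) (.c k192 (.l (.s k21 k213 7 (.s k63 k42 6 (.s k151 k107 13 (.s k150 k148 0 (.d k215
  k235 k20 5 8)))))) (.c k235 (.q k40 [(.s k21 k213 7 (.d k63 k42 k192 6 14)), (.s k20 k60 5 (.s k63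
  k192 14 (.s k150 k215 8 (.d k151 k148 k107 0 13))))] (.c k63 (.l (.s k20 k60 5 (.s k150 k215 8 (.s
  k213 k21 7 (.s k192 k234 6 (.d k194 k62 k193 13 0)))))) (.c k192 (.l (.s k20 k60 5 (.s k21 k213 7
  (.s k63 k42 6 (.s k150 k215 8 (.d k151 k148 k107 0 13)))))) .n))) .n))))) (.c k150 (.q k149 [(.s
  k21 k213 7 (.d k63 k42 k192 6 14)), (.s k63 k192 14 (.s k107 k151 13 (.s k105 k104 0 (.d k65 k130
  k125 8 5))))] (.c k63 (.l (.s k213 k21 7 (.s k192 k234 6 (.s k193 k194 0 (.s k105 k61 13 (.d k65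
  k125 k130 5 8)))))) (.c k130 (.q k190 [(.s k21 k213 7 (.d k63 k42 k192 6 14)), (.s k63 k192 14 (.s
  k107 k151 13 (.s k105 k104 0 (.d k125 k60 k65 8 5))))] (.c k63 (.l (.s k125 k60 8 (.s k105 k65 5
  (.s k213 k21 7 (.s k192 k234 6 (.d k193 k61 k194 13 0)))))) (.c k192 (.l (.s k21 k213 7 (.s k63
  k42 6 (.s k107 k151 13 (.s k105 k104 0 (.d k125 k60 k65 8 5)))))) .n))) (.c k190 (.l (.s k130 k65
  8 (.s k21 k213 7 (.d k63 k42 k192 6 14)))) (.c k192 (.l (.s k21 k213 7 (.s k63 k42 6 (.s k107 k151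
  13 (.s k105 k104 0 (.d k65 k125 k130 5 8)))))) .n))))) .n))) (.c k128 (.l (.s k127 k64 6 (.s k63
  k191 7 (.s k149 k192 14 (.d k21 k42 k213 6 7))))) (.c k149 (.f k127 k64 6 (.q k102 [(.s k68 k119 4
  (.s k110 k98 1 (.s k204 k136 9 (.d k63 k191 k157 7 12)))), (.s k110 k98 1 (.s k93 k76 4 (.s k12
  k174 12 (.s k4 k8 1 (.s k166 k247 12 (.d k89 k81 k243 1 14)))))), (.s k68 k119 4 (.s k204 k136 9
  (.s k153 k51 14 (.d k221 k238 k17 4 9))))] (.c k68 (.l (.s k110 k98 1 (.s k76 k93 4 (.s k115 k89 6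
  (.s k119 k123 1 (.s k51 k187 9 (.s k17 k34 4 (.d k153 k221 k204 9 14)))))))) (.c k128 (.l (.s k191
  k63 7 (.s k68 k119 4 (.s k204 k136 9 (.s k153 k51 14 (.d k221 k238 k17 4 9)))))) (.c k191 (.q k128
  [(.s k68 k119 4 (.s k204 k136 9 (.s k221 k238 4 (.d k153 k17 k51 9 14)))), (.s k110 k98 1 (.s k93
  k76 4 (.s k12 k174 12 (.s k4 k8 1 (.s k166 k247 12 (.d k89 k81 k243 1 14))))))] (.c k68 (.l (.s
  k110 k98 1 (.s k76 k93 4 (.s k115 k89 6 (.s k119 k123 1 (.s k51 k187 9 (.s k17 k34 4 (.d k153 k221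
  k204 9 14)))))))) .n)) .n))))) (.c k191 (.l (.s k64 k127 6 (.s k192 k128 7 (.s k149 k63 14 (.d
  k213 k234 k21 6 7))))) (.c k192 (.q k1 [(.s k3 k2 0 (.s k87 k171 13 (.s k86 k84 0 (.d k169 k253
  k252 13 14)))), (.s k127 k64 6 (.s k63 k191 7 (.s k21 k42 6 (.s k61 k41 5 (.s k253 k169 13 (.s
  k125 k189 7 (.d k60 k190 k62 8 0))))))), (.s k3 k2 0 (.s k127 k64 6 (.s k63 k191 7 (.s k21 k42 6
  (.s k23 k43 5 (.s k22 k20 0 (.d k41 k61 k60 5 6)))))))] .n) (.c k213 (.q k1 [(.s k3 k2 0 (.s k87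
  k171 13 (.s k86 k84 0 (.d k169 k253 k252 13 14)))), (.s k64 k127 6 (.s k169 k253 13 (.s k192 k128
  7 (.s k149 k63 14 (.s k129 k189 5 (.s k66 k3 8 (.d k65 k193 k67 7 0))))))), (.s k3 k2 0 (.s k64
  k127 6 (.s k192 k128 7 (.s k66 k129 8 (.s k86 k126 5 (.d k87 k84 k171 0 13))))))] (.c k3 (.l (.s
  k127 k64 6 (.s k63 k191 7 (.s k21 k42 6 (.s k61 k41 5 (.s k60 k62 0 (.s k125 k190 8 (.d k253 k189
  k169 7 13)))))))) .n)) (.c k234 (.l (.s k127 k64 6 (.s k63 k191 7 (.s k21 k42 6 (.d k149 k213 k192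
  7 14))))) .n))))))))))))

def t6_28 : T TT 256 :=
  (.f k255 k170 14 (.q k106 [(.s k64 k127 6 (.s k192 k128 7 (.s k149 k63 14 (.d k213 k234 k21 6
  7))))] (.c k21 (.q k1 [(.s k169 k253 13 (.s k3 k2 0 (.s k86 k252 14 (.d k87 k84 k171 0 13)))), (.s
  k64 k127 6 (.s k192 k128 7 (.s k213 k234 6 (.s k253 k169 13 (.s k193 k233 5 (.s k65 k129 7 (.d
  k195 k130 k194 8 0))))))), (.s k3 k2 0 (.s k64 k127 6 (.s k192 k128 7 (.s k66 k129 8 (.s k86 k126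
  5 (.d k87 k84 k171 0 13))))))] (.c k171 (.l (.s k3 k2 0 (.s k127 k64 6 (.s k63 k191 7 (.s k43 k23
  5 (.d k169 k232 k253 8 13)))))) .n)) (.c k63 (.q k1 [(.s k3 k2 0 (.s k87 k171 13 (.s k86 k84 0 (.d
  k169 k253 k252 13 14)))), (.s k64 k127 6 (.s k192 k128 7 (.s k213 k234 6 (.s k253 k169 13 (.s k193
  k233 5 (.s k65 k129 7 (.d k195 k130 k194 8 0))))))), (.s k3 k2 0 (.s k64 k127 6 (.s k192 k128 7
  (.s k66 k129 8 (.s k86 k126 5 (.d k87 k84 k171 0 13))))))] (.c k171 (.l (.s k3 k2 0 (.s k64 k127 6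
  (.s k169 k253 13 (.s k86 k252 14 (.s k192 k128 7 (.d k66 k126 k129 5 8))))))) .n)) (.c k64 (.q
  k195 [(.s k65 k130 8 (.s k105 k125 5 (.s k215 k235 5 (.d k150 k20 k60 8 14)))), (.s k65 k130 8 (.s
  k105 k125 5 (.s k107 k104 0 (.s k63 k151 13 (.s k21 k42 6 (.d k149 k213 k192 7 14)))))), (.s k215
  k235 5 (.s k150 k20 8 (.s k194 k62 13 (.s k192 k193 0 (.s k149 k63 14 (.d k213 k234 k21 6 7))))))]
  (.c k105 (.f k130 k65 8 (.f k235 k215 5 (.q k66 [(.s k2 k194 7 (.s k3 k1 0 (.s k129 k192 8 (.d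
  k131 k128 k67 0 7)))), (.s k86 k126 5 (.s k84 k87 0 (.s k252 k168 13 (.s k169 k3 14 (.d k253 k254
  k1 0 13)))))] (.c k1 (.l (.s k86 k126 5 (.s k87 k84 0 (.s k3 k171 13 (.s k129 k192 8 (.d k131 k128
  k67 0 7)))))) (.c k3 (.l (.s k194 k2 7 (.s k192 k193 0 (.s k149 k63 14 (.d k213 k234 k21 6 7)))))
  .n))))) (.c k150 (.q k211 [(.s k243 k227 3 (.s k81 k162 12 (.s k146 k16 8 (.s k97 k48 12 (.d k65
  k130 k113 8 3))))), (.s k215 k235 5 (.s k219 k223 1 (.s k243 k227 3 (.s k231 k207 5 (.d k247 k251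
  k199 1 3))))), (.s k215 k235 5 (.s k223 k219 1 (.s k16 k154 10 (.s k48 k32 3 (.d k146 k81 k97 8
  12)))))] (.c k130 (.q k190 [(.s k215 k235 5 (.s k219 k223 1 (.s k243 k227 3 (.s k231 k207 5 (.d
  k247 k251 k199 1 3))))), (.s k243 k227 3 (.s k81 k162 12 (.s k247 k251 1 (.s k166 k4 12 (.d k89
  k93 k12 1 14))))), (.s k215 k235 5 (.s k223 k219 1 (.s k16 k154 10 (.s k48 k32 3 (.d k146 k81 k97
  8 12)))))] (.c k251 (.l (.s k125 k60 8 (.s k65 k105 5 (.s k243 k227 3 (.s k81 k162 12 (.s k97 k113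
  3 (.d k146 k16 k48 8 12))))))) .n)) (.c k190 (.l (.s k130 k65 8 (.s k215 k235 5 (.s k219 k223 1
  (.s k243 k227 3 (.s k231 k207 5 (.d k247 k251 k199 1 3))))))) .n))) .n))) (.c k127 (.q k195 [(.s
  k65 k130 8 (.s k105 k125 5 (.s k215 k235 5 (.d k150 k20 k60 8 14)))), (.s k215 k235 5 (.s k150 k20
  8 (.s k194 k62 13 (.s k192 k193 0 (.s k149 k63 14 (.d k213 k234 k21 6 7)))))), (.s k65 k130 8 (.s
  k105 k125 5 (.s k107 k104 0 (.s k63 k151 13 (.s k21 k42 6 (.d k149 k213 k192 7 14))))))] (.c k105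
  (.q k149 [(.s k21 k213 7 (.d k63 k42 k192 6 14)), (.s k63 k192 14 (.s k151 k107 13 (.s k150 k148 0
  (.d k215 k235 k20 5 8))))] (.c k40 (.l (.s k235 k215 5 (.s k21 k213 7 (.d k63 k42 k192 6 14))))
  (.c k63 (.l (.s k213 k21 7 (.s k192 k234 6 (.s k194 k193 0 (.s k150 k62 13 (.d k215 k235 k20 5
  8)))))) (.c k192 (.l (.s k21 k213 7 (.s k63 k42 6 (.s k151 k107 13 (.s k150 k148 0 (.d k215 k235
  k20 5 8)))))) (.c k235 (.q k40 [(.s k21 k213 7 (.d k63 k42 k192 6 14)), (.s k20 k60 5 (.s k63 k192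
  14 (.s k150 k215 8 (.d k151 k148 k107 0 13))))] (.c k63 (.l (.s k20 k60 5 (.s k150 k215 8 (.s k213
  k21 7 (.s k192 k234 6 (.d k194 k62 k193 13 0)))))) (.c k192 (.l (.s k20 k60 5 (.s k21 k213 7 (.s
  k63 k42 6 (.s k150 k215 8 (.d k151 k148 k107 0 13)))))) .n))) .n))))) (.c k150 (.q k211 [(.s k243
  k227 3 (.s k81 k162 12 (.s k146 k16 8 (.s k97 k48 12 (.d k65 k130 k113 8 3))))), (.s k215 k235 5
  (.s k219 k223 1 (.s k243 k227 3 (.s k231 k207 5 (.d k247 k251 k199 1 3))))), (.s k215 k235 5 (.s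
  k223 k219 1 (.s k16 k154 10 (.s k48 k32 3 (.d k146 k81 k97 8 12)))))] (.c k130 (.q k190 [(.s k215
  k235 5 (.s k219 k223 1 (.s k243 k227 3 (.s k231 k207 5 (.d k247 k251 k199 1 3))))), (.s k243 k227
  3 (.s k81 k162 12 (.s k247 k251 1 (.s k166 k4 12 (.d k89 k93 k12 1 14))))), (.s k215 k235 5 (.s
  k223 k219 1 (.s k16 k154 10 (.s k48 k32 3 (.d k146 k81 k97 8 12)))))] (.c k251 (.l (.s k125 k60 8
  (.s k65 k105 5 (.s k243 k227 3 (.s k81 k162 12 (.s k97 k113 3 (.d k146 k16 k48 8 12))))))) .n))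
  (.c k190 (.l (.s k130 k65 8 (.s k215 k235 5 (.s k219 k223 1 (.s k243 k227 3 (.s k231 k207 5 (.d
  k247 k251 k199 1 3))))))) .n))) .n))) (.c k128 (.l (.s k127 k64 6 (.s k63 k191 7 (.s k149 k192 14
  (.d k21 k42 k213 6 7))))) (.c k149 (.f k127 k64 6 (.q k90 [(.s k80 k95 2 (.s k240 k160 11 (.s k165
  k15 14 (.d k245 k250 k5 2 11)))), (.s k122 k74 3 (.s k117 k112 2 (.s k48 k186 10 (.s k16 k32 3 (.s
  k154 k223 10 (.d k101 k69 k207 3 14))))))] (.c k80 (.l (.s k122 k74 3 (.s k112 k117 2 (.s k79 k101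
  6 (.s k95 k111 3 (.s k15 k175 11 (.s k5 k10 2 (.d k165 k245 k240 11 14)))))))) (.c k128 (.l (.s
  k191 k63 7 (.s k80 k95 2 (.s k240 k160 11 (.s k165 k15 14 (.d k245 k250 k5 2 11)))))) (.c k191 (.q
  k128 [(.s k80 k95 2 (.s k240 k160 11 (.s k165 k15 14 (.d k245 k250 k5 2 11)))), (.s k122 k74 3 (.s
  k117 k112 2 (.s k48 k186 10 (.s k16 k32 3 (.s k154 k223 10 (.d k101 k69 k207 3 14))))))] (.c k80
  (.l (.s k122 k74 3 (.s k112 k117 2 (.s k79 k101 6 (.s k95 k111 3 (.s k15 k175 11 (.s k5 k10 2 (.d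
  k165 k245 k240 11 14)))))))) .n)) .n))))) (.c k191 (.l (.s k64 k127 6 (.s k192 k128 7 (.s k149 k63
  14 (.d k213 k234 k21 6 7))))) (.c k192 (.q k1 [(.s k3 k2 0 (.s k87 k171 13 (.s k86 k84 0 (.d k169
  k253 k252 13 14)))), (.s k127 k64 6 (.s k63 k191 7 (.s k21 k42 6 (.s k61 k41 5 (.s k253 k169 13
  (.s k125 k189 7 (.d k60 k190 k62 8 0))))))), (.s k3 k2 0 (.s k127 k64 6 (.s k63 k191 7 (.s k21 k42
  6 (.s k23 k43 5 (.s k22 k20 0 (.d k41 k61 k60 5 6)))))))] .n) (.c k213 (.q k1 [(.s k3 k2 0 (.s k87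
  k171 13 (.s k86 k84 0 (.d k169 k253 k252 13 14)))), (.s k64 k127 6 (.s k169 k253 13 (.s k192 k128
  7 (.s k149 k63 14 (.s k129 k189 5 (.s k66 k3 8 (.d k65 k193 k67 7 0))))))), (.s k3 k2 0 (.s k64
  k127 6 (.s k192 k128 7 (.s k66 k129 8 (.s k86 k126 5 (.d k87 k84 k171 0 13))))))] (.c k3 (.l (.s
  k127 k64 6 (.s k63 k191 7 (.s k21 k42 6 (.s k61 k41 5 (.s k60 k62 0 (.s k125 k190 8 (.d k253 k189
  k169 7 13)))))))) .n)) (.c k234 (.l (.s k127 k64 6 (.s k63 k191 7 (.s k21 k42 6 (.d k149 k213 k192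
  7 14))))) .n))))))))))))

def t6_29 : T TT 256 :=
  (.f k255 k170 14 (.q k106 [(.s k64 k127 6 (.s k192 k128 7 (.s k213 k234 6 (.d k149 k21 k63 7
  14))))] (.c k21 (.q k17 [(.s k51 k34 4 (.s k119 k187 9 (.s k102 k68 4 (.d k153 k221 k204 9 14)))),
  (.s k64 k127 6 (.s k192 k128 7 (.s k213 k234 6 (.s k221 k153 9 (.s k209 k217 1 (.s k81 k145 7 (.d
  k243 k162 k226 12 4))))))), (.s k51 k34 4 (.s k64 k127 6 (.s k192 k128 7 (.s k98 k145 12 (.s k102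
  k110 1 (.d k119 k68 k187 4 9))))))] (.c k187 (.l (.s k51 k34 4 (.s k127 k64 6 (.s k63 k191 7 (.s
  k59 k55 1 (.d k153 k221 k200 9 12)))))) .n)) (.c k63 (.q k12 [(.s k4 k8 1 (.s k93 k174 12 (.s k89
  k81 1 (.d k166 k247 k243 12 14)))), (.s k8 k4 1 (.s k64 k127 6 (.s k192 k128 7 (.s k72 k132 9 (.s
  k68 k76 1 (.d k136 k200 k204 7 9)))))), (.s k64 k127 6 (.s k93 k174 12 (.s k89 k81 1 (.s k72 k123
  4 (.d k192 k128 k132 7 9)))))] (.c k93 (.l (.s k4 k8 1 (.s k64 k127 6 (.s k166 k247 12 (.s k89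
  k243 14 (.s k192 k128 7 (.d k72 k123 k132 4 9))))))) .n)) (.c k64 (.q k60 [(.s k20 k40 5 (.s k125
  k190 8 (.s k150 k215 8 (.d k105 k65 k195 5 14)))), (.s k20 k40 5 (.s k150 k215 8 (.s k62 k194 13
  (.s k63 k61 0 (.s k21 k42 6 (.d k149 k213 k192 7 14)))))), (.s k125 k190 8 (.s k105 k65 5 (.s k104
  k107 0 (.s k192 k148 13 (.s k149 k63 14 (.d k213 k234 k21 6 7))))))] (.c k105 (.q k87 [(.s k3 k171
  13 (.s k86 k84 0 (.s k169 k252 14 (.d k1 k2 k253 0 13)))), (.s k86 k84 0 (.s k126 k66 5 (.s k190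
  k125 8 (.s k62 k254 7 (.s k150 k194 13 (.d k20 k40 k215 5 8)))))), (.s k3 k171 13 (.s k2 k1 0 (.s
  k22 k41 6 (.s k42 k62 5 (.s k21 k63 6 (.d k20 k40 k23 5 0))))))] (.c k2 (.l (.s k3 k171 13 (.s k22
  k41 6 (.s k86 k84 0 (.s k150 k214 7 (.d k20 k40 k215 5 8)))))) (.c k40 (.q k235 [(.s k3 k171 13
  (.s k86 k84 0 (.s k169 k252 14 (.d k1 k2 k253 0 13)))), (.s k3 k171 13 (.s k22 k41 6 (.s k215 k195
  5 (.s k20 k150 8 (.d k23 k21 k151 0 7))))), (.s k86 k84 0 (.s k126 k66 5 (.s k190 k125 8 (.s k62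
  k254 7 (.s k150 k194 13 (.d k215 k195 k20 5 8))))))] .n) (.c k235 (.l (.s k40 k20 5 (.s k3 k171 13
  (.s k1 k2 0 (.s k86 k84 0 (.d k169 k253 k252 13 14)))))) .n)))) (.c k150 (.q k69 [(.s k101 k117 3
  (.s k207 k138 10 (.s k154 k48 14 (.d k223 k239 k16 3 10)))), (.s k101 k117 3 (.s k207 k138 10 (.s
  k109 k158 12 (.s k105 k97 1 (.d k125 k190 k65 8 5))))), (.s k190 k125 8 (.s k207 k138 10 (.s k158
  k109 12 (.s k174 k142 3 (.s k93 k12 12 (.d k223 k239 k28 3 8))))))] (.c k130 (.l (.s k190 k125 8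
  (.s k101 k117 3 (.s k207 k138 10 (.s k154 k48 14 (.d k223 k239 k16 3 10)))))) (.c k138 (.l (.s
  k117 k101 3 (.s k186 k48 10 (.s k190 k125 8 (.s k182 k178 1 (.s k243 k121 10 (.d k247 k52 k251 8
  1))))))) (.c k154 (.l (.s k20 k40 5 (.s k117 k101 3 (.s k48 k186 10 (.s k138 k207 10 (.s k52 k56 1
  (.s k4 k36 3 (.d k247 k166 k182 12 8)))))))) (.c k186 (.l (.s k101 k117 3 (.s k207 k138 10 (.s
  k154 k48 14 (.d k223 k239 k16 3 10))))) (.c k190 (.q k130 [(.s k101 k117 3 (.s k207 k138 10 (.s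
  k154 k48 14 (.d k223 k239 k16 3 10)))), (.s k65 k195 8 (.s k77 k73 1 (.s k125 k105 5 (.s k109 k93
  3 (.d k207 k138 k158 10 12))))), (.s k65 k195 8 (.s k77 k73 1 (.s k101 k117 3 (.s k89 k113 5 (.s
  k93 k81 1 (.d k125 k109 k105 3 5))))))] .n) (.c k207 (.l (.s k20 k40 5 (.s k117 k101 3 (.s k48
  k186 10 (.s k52 k56 1 (.s k4 k36 3 (.d k247 k166 k182 12 8))))))) .n))))))) .n))) (.c k127 (.q
  k195 [(.s k65 k130 8 (.s k215 k235 5 (.s k150 k20 8 (.d k105 k125 k60 5 14)))), (.s k65 k130 8 (.s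
  k105 k125 5 (.s k107 k104 0 (.s k63 k151 13 (.s k21 k42 6 (.d k149 k213 k192 7 14)))))), (.s k215
  k235 5 (.s k150 k20 8 (.s k194 k62 13 (.s k192 k193 0 (.s k149 k63 14 (.d k213 k234 k21 6 7))))))]
  (.c k105 (.q k81 [(.s k243 k162 12 (.s k247 k251 1 (.s k166 k4 12 (.d k89 k93 k12 1 14)))), (.s
  k65 k130 8 (.s k97 k113 3 (.s k48 k146 12 (.s k32 k16 3 (.d k162 k227 k243 8 12)))))] (.c k40 (.l
  (.s k235 k215 5 (.s k89 k93 1 (.s k243 k162 12 (.s k166 k12 14 (.d k247 k251 k4 1 12)))))) (.c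
  k162 (.l (.s k65 k130 8 (.s k89 k93 1 (.s k97 k113 3 (.s k146 k48 12 (.s k211 k16 8 (.s k150 k28
  10 (.d k215 k20 k235 8 5)))))))) (.c k235 (.q k40 [(.s k65 k130 8 (.s k97 k113 3 (.s k48 k146 12
  (.s k32 k16 3 (.d k162 k227 k243 8 12))))), (.s k20 k60 5 (.s k150 k215 8 (.s k194 k62 13 (.s k192
  k193 0 (.s k213 k234 6 (.d k149 k63 k21 14 7))))))] (.c k150 (.l (.s k89 k93 1 (.s k243 k162 12
  (.s k166 k12 14 (.d k247 k251 k4 1 12))))) .n)) (.c k243 (.l (.s k65 k130 8 (.s k93 k89 1 (.s k12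
  k174 12 (.s k8 k4 1 (.s k73 k134 10 (.s k69 k77 1 (.d k138 k203 k207 8 10)))))))) .n))))) (.c k150
  (.q k199 [(.s k207 k203 1 (.s k69 k138 10 (.s k101 k117 3 (.s k154 k48 14 (.d k223 k239 k16 3
  10))))), (.s k207 k203 1 (.s k215 k235 5 (.s k223 k239 3 (.s k219 k211 1 (.d k231 k247 k243 3
  5))))), (.s k207 k203 1 (.s k69 k138 10 (.s k4 k134 8 (.s k215 k235 5 (.d k247 k166 k231 12
  3))))), (.s k215 k235 5 (.s k247 k231 3 (.s k4 k166 12 (.s k12 k8 1 (.d k134 k69 k73 8 10)))))]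
  (.c k130 (.q k190 [(.s k207 k203 1 (.s k69 k138 10 (.s k101 k117 3 (.s k154 k48 14 (.d k223 k239
  k16 3 10))))), (.s k207 k203 1 (.s k215 k235 5 (.s k223 k239 3 (.s k219 k211 1 (.d k231 k247 k243
  3 5))))), (.s k215 k235 5 (.s k247 k231 3 (.s k4 k166 12 (.s k12 k8 1 (.d k134 k69 k73 8 10))))),
  (.s k125 k60 8 (.s k65 k105 5 (.s k207 k203 1 (.s k69 k138 10 (.s k73 k77 1 (.d k134 k4 k12 8
  10))))))] .n) (.c k190 (.l (.s k130 k65 8 (.s k207 k203 1 (.s k69 k138 10 (.s k4 k134 8 (.s k215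
  k235 5 (.d k247 k166 k231 12 3))))))) .n))) .n))) (.c k128 (.l (.s k127 k64 6 (.s k63 k191 7 (.s
  k149 k192 14 (.d k21 k42 k213 6 7))))) (.c k149 (.f k127 k64 6 (.q k89 [(.s k81 k93 1 (.s k243
  k162 12 (.s k247 k251 1 (.d k166 k4 k12 12 14)))), (.s k93 k81 1 (.s k76 k110 4 (.s k115 k102 6
  (.d k123 k119 k72 1 4))))] (.c k81 (.l (.s k123 k72 4 (.s k115 k119 1 (.s k76 k102 6 (.s k93 k110
  4 (.s k12 k174 12 (.s k4 k8 1 (.d k166 k247 k243 12 14)))))))) (.c k93 (.l (.s k123 k72 4 (.s k119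
  k115 1 (.s k187 k51 9 (.s k251 k59 7 (.s k243 k247 1 (.d k63 k191 k183 7 9))))))) (.c k128 (.l (.s
  k191 k63 7 (.s k81 k93 1 (.s k243 k162 12 (.s k247 k251 1 (.d k166 k12 k4 14 12)))))) (.c k191 (.q
  k128 [(.s k81 k93 1 (.s k243 k162 12 (.s k247 k251 1 (.d k166 k4 k12 12 14)))), (.s k93 k81 1 (.s
  k76 k110 4 (.s k115 k102 6 (.d k123 k119 k72 1 4))))] (.c k81 (.l (.s k123 k72 4 (.s k115 k119 1
  (.s k76 k102 6 (.s k93 k110 4 (.s k12 k174 12 (.s k4 k8 1 (.d k166 k247 k243 12 14)))))))) (.c k93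
  (.f k123 k72 4 (.l (.s k119 k115 1 (.s k68 k102 4 (.s k187 k51 9 (.s k59 k251 7 (.s k153 k200 12
  (.s k221 k17 9 (.d k204 k238 k136 4 9))))))))) .n))) .n)))))) (.c k191 (.l (.s k64 k127 6 (.s k192
  k128 7 (.s k149 k63 14 (.d k213 k234 k21 6 7))))) (.c k192 (.q k1 [(.s k3 k2 0 (.s k87 k171 13 (.s
  k86 k84 0 (.d k169 k253 k252 13 14)))), (.s k127 k64 6 (.s k63 k191 7 (.s k21 k42 6 (.s k61 k41 5
  (.s k253 k169 13 (.s k125 k189 7 (.d k60 k190 k62 8 0))))))), (.s k3 k2 0 (.s k127 k64 6 (.s k63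
  k191 7 (.s k21 k42 6 (.s k23 k43 5 (.s k22 k20 0 (.d k41 k61 k60 5 6)))))))] .n) (.c k213 (.q k1
  [(.s k3 k2 0 (.s k87 k171 13 (.s k86 k84 0 (.d k169 k253 k252 13 14)))), (.s k64 k127 6 (.s k169
  k253 13 (.s k192 k128 7 (.s k149 k63 14 (.s k129 k189 5 (.s k66 k3 8 (.d k65 k193 k67 7 0))))))),
  (.s k3 k2 0 (.s k64 k127 6 (.s k192 k128 7 (.s k66 k129 8 (.s k86 k126 5 (.d k87 k84 k171 0
  13))))))] (.c k3 (.l (.s k127 k64 6 (.s k63 k191 7 (.s k21 k42 6 (.s k61 k41 5 (.s k60 k62 0 (.s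
  k125 k190 8 (.d k253 k189 k169 7 13)))))))) .n)) (.c k234 (.l (.s k127 k64 6 (.s k63 k191 7 (.s
  k21 k42 6 (.d k149 k213 k192 7 14))))) .n))))))))))))

def t6_30 : T TT 256 :=
  (.f k255 k170 14 (.q k106 [(.s k64 k127 6 (.s k192 k128 7 (.s k149 k63 14 (.d k213 k234 k21 6
  7))))] (.c k21 (.q k1 [(.s k169 k253 13 (.s k3 k2 0 (.s k86 k252 14 (.d k87 k84 k171 0 13)))), (.s
  k64 k127 6 (.s k192 k128 7 (.s k213 k234 6 (.s k253 k169 13 (.s k193 k233 5 (.s k65 k129 7 (.d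
  k195 k130 k194 8 0))))))), (.s k3 k2 0 (.s k64 k127 6 (.s k192 k128 7 (.s k66 k129 8 (.s k86 k126
  5 (.d k87 k84 k171 0 13))))))] (.c k171 (.l (.s k3 k2 0 (.s k127 k64 6 (.s k63 k191 7 (.s k43 k23
  5 (.d k169 k232 k253 8 13)))))) .n)) (.c k63 (.q k1 [(.s k3 k2 0 (.s k87 k171 13 (.s k86 k84 0 (.d
  k169 k253 k252 13 14)))), (.s k64 k127 6 (.s k192 k128 7 (.s k213 k234 6 (.s k253 k169 13 (.s k193
  k233 5 (.s k65 k129 7 (.d k195 k130 k194 8 0))))))), (.s k3 k2 0 (.s k64 k127 6 (.s k192 k128 7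
  (.s k66 k129 8 (.s k86 k126 5 (.d k87 k84 k171 0 13))))))] (.c k171 (.l (.s k3 k2 0 (.s k64 k127 6
  (.s k169 k253 13 (.s k86 k252 14 (.s k192 k128 7 (.d k66 k126 k129 5 8))))))) .n)) (.c k64 (.q
  k204 [(.s k68 k136 9 (.s k102 k119 4 (.s k153 k51 14 (.d k221 k238 k17 4 9)))), (.s k68 k136 9 (.s
  k102 k119 4 (.s k110 k98 1 (.s k63 k157 12 (.s k21 k42 6 (.d k149 k213 k192 7 14)))))), (.s k221
  k238 4 (.s k153 k17 9 (.s k200 k59 12 (.s k192 k196 1 (.s k149 k63 14 (.d k213 k234 k21 6 7))))))]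
  (.c k102 (.q k72 [(.s k136 k68 9 (.s k200 k8 7 (.s k153 k59 12 (.d k221 k238 k17 4 9)))), (.s k89
  k123 4 (.s k81 k93 1 (.s k243 k162 12 (.s k166 k12 14 (.d k247 k251 k4 1 12))))), (.s k136 k68 9
  (.s k8 k200 7 (.s k12 k4 1 (.s k132 k192 9 (.d k140 k128 k76 1 7)))))] (.c k34 (.l (.s k238 k221 4
  (.s k89 k123 4 (.s k81 k93 1 (.s k243 k162 12 (.s k166 k12 14 (.d k247 k251 k4 1 12))))))) (.c
  k238 (.q k34 [(.s k17 k51 4 (.s k136 k68 9 (.s k153 k221 9 (.d k200 k8 k59 7 12)))), (.s k89 k123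
  4 (.s k81 k93 1 (.s k243 k162 12 (.s k166 k12 14 (.d k247 k251 k4 1 12)))))] .n) .n))) (.c k153
  (.q k93 [(.s k12 k174 12 (.s k4 k8 1 (.s k166 k247 12 (.d k89 k81 k243 1 14)))), (.s k221 k238 4
  (.s k157 k29 7 (.s k63 k110 12 (.s k21 k42 6 (.d k149 k213 k192 7 14)))))] (.c k136 (.q k187 [(.s
  k12 k174 12 (.s k89 k81 1 (.s k166 k243 14 (.d k4 k8 k247 1 12)))), (.s k89 k81 1 (.s k119 k51 9
  (.s k123 k72 4 (.s k115 k127 1 (.d k102 k68 k76 4 6))))), (.s k12 k174 12 (.s k76 k140 7 (.s k110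
  k127 4 (.s k119 k51 9 (.d k102 k98 k68 1 4)))))] (.c k98 (.l (.s k12 k174 12 (.s k4 k8 1 (.s k166
  k247 12 (.d k89 k81 k243 1 14))))) .n)) (.c k174 (.l (.s k221 k238 4 (.s k157 k29 7 (.s k110 k63
  12 (.s k102 k98 1 (.d k68 k119 k136 4 9)))))) (.c k187 (.l (.s k136 k68 9 (.s k12 k174 12 (.s k4
  k8 1 (.s k89 k81 1 (.d k166 k247 k243 12 14)))))) .n)))) .n))) (.c k127 (.q k51 [(.s k17 k34 4 (.s
  k119 k187 9 (.s k102 k68 4 (.d k153 k221 k204 9 14)))), (.s k17 k34 4 (.s k153 k221 9 (.s k59 k200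
  12 (.s k63 k55 1 (.s k21 k42 6 (.d k149 k213 k192 7 14)))))), (.s k119 k187 9 (.s k102 k68 4 (.s
  k98 k110 1 (.s k192 k145 12 (.s k149 k63 14 (.d k213 k234 k21 6 7))))))] (.c k102 (.q k207 [(.s
  k69 k138 10 (.s k223 k239 3 (.s k154 k16 10 (.d k101 k117 k48 3 14)))), (.s k103 k155 13 (.s k119
  k187 9 (.s k87 k71 3 (.s k171 k3 13 (.d k239 k223 k35 3 9))))), (.s k69 k138 10 (.s k101 k117 3
  (.s k111 k96 2 (.s k63 k159 11 (.s k21 k42 6 (.d k149 k213 k192 7 14))))))] (.c k34 (.q k238 [(.s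
  k69 k138 10 (.s k223 k239 3 (.s k154 k16 10 (.d k101 k117 k48 3 14)))), (.s k103 k155 13 (.s k119
  k187 9 (.s k87 k71 3 (.s k171 k3 13 (.d k239 k223 k35 3 9))))), (.s k69 k138 10 (.s k101 k117 3
  (.s k111 k96 2 (.s k63 k159 11 (.s k21 k42 6 (.d k149 k213 k192 7 14))))))] .n) (.c k238 (.l (.s
  k34 k17 4 (.s k69 k138 10 (.s k101 k117 3 (.s k154 k48 14 (.d k223 k239 k16 3 10)))))) .n))) (.c
  k153 (.q k63 [(.s k21 k42 6 (.d k149 k213 k192 7 14)), (.s k55 k59 1 (.s k149 k192 14 (.s k102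
  k196 12 (.d k119 k187 k68 9 4)))), (.s k17 k34 4 (.s k21 k42 6 (.s k25 k29 1 (.s k38 k12 6 (.d k55
  k59 k4 1 4)))))] (.c k136 (.l (.s k187 k119 9 (.s k21 k42 6 (.d k149 k213 k192 7 14)))) (.c k187
  (.q k136 [(.s k21 k42 6 (.d k149 k213 k192 7 14)), (.s k55 k59 1 (.s k68 k204 9 (.s k102 k119 4
  (.d k149 k196 k192 12 14)))), (.s k17 k34 4 (.s k21 k42 6 (.s k25 k29 1 (.s k38 k12 6 (.d k55 k59
  k4 1 4)))))] .n) .n))) .n))) (.c k128 (.l (.s k127 k64 6 (.s k63 k191 7 (.s k149 k192 14 (.d k21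
  k42 k213 6 7))))) (.c k149 (.f k127 k64 6 (.q k102 [(.s k68 k119 4 (.s k204 k136 9 (.s k153 k51 14
  (.d k221 k238 k17 4 9)))), (.s k110 k98 1 (.s k93 k76 4 (.s k12 k174 12 (.s k4 k8 1 (.s k166 k247
  12 (.d k89 k81 k243 1 14))))))] (.c k68 (.l (.s k110 k98 1 (.s k76 k93 4 (.s k115 k89 6 (.s k119
  k123 1 (.s k51 k187 9 (.s k17 k34 4 (.d k153 k221 k204 9 14)))))))) (.c k128 (.l (.s k191 k63 7
  (.s k68 k119 4 (.s k204 k136 9 (.s k153 k51 14 (.d k221 k238 k17 4 9)))))) (.c k191 (.q k128 [(.s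
  k68 k119 4 (.s k204 k136 9 (.s k153 k51 14 (.d k221 k238 k17 4 9)))), (.s k110 k98 1 (.s k93 k76 4
  (.s k12 k174 12 (.s k4 k8 1 (.s k166 k247 12 (.d k89 k81 k243 1 14))))))] (.c k68 (.l (.s k110 k98
  1 (.s k76 k93 4 (.s k115 k89 6 (.s k119 k123 1 (.s k51 k187 9 (.s k17 k34 4 (.d k153 k221 k204 9
  14)))))))) .n)) .n))))) (.c k191 (.l (.s k64 k127 6 (.s k192 k128 7 (.s k149 k63 14 (.d k213 k234
  k21 6 7))))) (.c k192 (.q k1 [(.s k3 k2 0 (.s k87 k171 13 (.s k86 k84 0 (.d k169 k253 k252 13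
  14)))), (.s k127 k64 6 (.s k63 k191 7 (.s k21 k42 6 (.s k61 k41 5 (.s k253 k169 13 (.s k125 k189 7
  (.d k60 k190 k62 8 0))))))), (.s k3 k2 0 (.s k127 k64 6 (.s k63 k191 7 (.s k21 k42 6 (.s k23 k43 5
  (.s k22 k20 0 (.d k41 k61 k60 5 6)))))))] .n) (.c k213 (.q k1 [(.s k3 k2 0 (.s k87 k171 13 (.s k86
  k84 0 (.d k169 k253 k252 13 14)))), (.s k64 k127 6 (.s k169 k253 13 (.s k192 k128 7 (.s k149 k63
  14 (.s k129 k189 5 (.s k66 k3 8 (.d k65 k193 k67 7 0))))))), (.s k3 k2 0 (.s k64 k127 6 (.s k192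
  k128 7 (.s k66 k129 8 (.s k86 k126 5 (.d k87 k84 k171 0 13))))))] (.c k3 (.l (.s k127 k64 6 (.s
  k63 k191 7 (.s k21 k42 6 (.s k61 k41 5 (.s k60 k62 0 (.s k125 k190 8 (.d k253 k189 k169 7
  13)))))))) .n)) (.c k234 (.l (.s k127 k64 6 (.s k63 k191 7 (.s k21 k42 6 (.d k149 k213 k192 7
  14))))) .n))))))))))))

def t6_31 : T TT 256 :=
  (.f k255 k170 14 (.q k106 [(.s k64 k127 6 (.s k192 k128 7 (.s k213 k234 6 (.d k149 k21 k63 7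
  14))))] (.c k21 (.q k16 [(.s k48 k32 3 (.s k117 k186 10 (.s k101 k69 3 (.d k154 k223 k207 10
  14)))), (.s k64 k127 6 (.s k192 k128 7 (.s k213 k234 6 (.s k223 k154 10 (.s k208 k218 2 (.s k80
  k144 7 (.d k240 k160 k224 11 3))))))), (.s k48 k32 3 (.s k64 k127 6 (.s k192 k128 7 (.s k96 k144
  11 (.s k101 k111 2 (.d k117 k69 k186 3 10))))))] (.c k186 (.l (.s k48 k32 3 (.s k127 k64 6 (.s k63
  k191 7 (.s k58 k53 2 (.d k154 k223 k202 10 11)))))) .n)) (.c k63 (.q k15 [(.s k95 k175 11 (.s k90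
  k80 2 (.s k165 k240 14 (.d k5 k10 k245 2 11)))), (.s k10 k5 2 (.s k64 k127 6 (.s k192 k128 7 (.s
  k74 k133 10 (.s k69 k79 2 (.d k138 k202 k207 7 10)))))), (.s k64 k127 6 (.s k95 k175 11 (.s k90
  k80 2 (.s k74 k122 3 (.d k192 k128 k133 7 10)))))] (.c k95 (.l (.s k5 k10 2 (.s k64 k127 6 (.s
  k165 k245 11 (.s k90 k240 14 (.s k192 k128 7 (.d k74 k122 k133 3 10))))))) .n)) (.c k64 (.q k60
  [(.s k20 k40 5 (.s k125 k190 8 (.s k150 k215 8 (.d k105 k65 k195 5 14)))), (.s k20 k40 5 (.s k150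
  k215 8 (.s k62 k194 13 (.s k63 k61 0 (.s k21 k42 6 (.d k149 k213 k192 7 14)))))), (.s k125 k190 8
  (.s k105 k65 5 (.s k104 k107 0 (.s k192 k148 13 (.s k149 k63 14 (.d k213 k234 k21 6 7))))))] (.c
  k105 (.q k87 [(.s k3 k171 13 (.s k86 k84 0 (.s k169 k252 14 (.d k1 k2 k253 0 13)))), (.s k86 k84 0
  (.s k126 k66 5 (.s k190 k125 8 (.s k62 k254 7 (.s k150 k194 13 (.d k20 k40 k215 5 8)))))), (.s k3
  k171 13 (.s k2 k1 0 (.s k22 k41 6 (.s k42 k62 5 (.s k21 k63 6 (.d k20 k40 k23 5 0))))))] (.c k2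
  (.l (.s k3 k171 13 (.s k22 k41 6 (.s k86 k84 0 (.s k150 k214 7 (.d k20 k40 k215 5 8)))))) (.c k40
  (.q k235 [(.s k3 k171 13 (.s k86 k84 0 (.s k169 k252 14 (.d k1 k2 k253 0 13)))), (.s k3 k171 13
  (.s k22 k41 6 (.s k215 k195 5 (.s k20 k150 8 (.d k23 k21 k151 0 7))))), (.s k86 k84 0 (.s k126 k66
  5 (.s k190 k125 8 (.s k62 k254 7 (.s k150 k194 13 (.d k215 k195 k20 5 8))))))] .n) (.c k235 (.l
  (.s k40 k20 5 (.s k3 k171 13 (.s k1 k2 0 (.s k86 k84 0 (.d k169 k253 k252 13 14)))))) .n)))) (.c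
  k150 (.q k69 [(.s k101 k117 3 (.s k207 k138 10 (.s k154 k48 14 (.d k223 k239 k16 3 10)))), (.s
  k101 k117 3 (.s k207 k138 10 (.s k109 k158 12 (.s k105 k97 1 (.d k125 k190 k65 8 5))))), (.s k190
  k125 8 (.s k207 k138 10 (.s k158 k109 12 (.s k174 k142 3 (.s k93 k12 12 (.d k223 k239 k28 3
  8))))))] (.c k130 (.l (.s k190 k125 8 (.s k101 k117 3 (.s k207 k138 10 (.s k154 k48 14 (.d k223
  k239 k16 3 10)))))) (.c k138 (.l (.s k117 k101 3 (.s k186 k48 10 (.s k190 k125 8 (.s k182 k178 1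
  (.s k243 k121 10 (.d k247 k52 k251 8 1))))))) (.c k154 (.l (.s k20 k40 5 (.s k117 k101 3 (.s k48
  k186 10 (.s k138 k207 10 (.s k52 k56 1 (.s k4 k36 3 (.d k247 k166 k182 12 8)))))))) (.c k186 (.l
  (.s k101 k117 3 (.s k207 k138 10 (.s k154 k48 14 (.d k223 k239 k16 3 10))))) (.c k190 (.q k130
  [(.s k101 k117 3 (.s k207 k138 10 (.s k154 k48 14 (.d k223 k239 k16 3 10)))), (.s k65 k195 8 (.s
  k77 k73 1 (.s k125 k105 5 (.s k109 k93 3 (.d k207 k138 k158 10 12))))), (.s k65 k195 8 (.s k77 k73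
  1 (.s k101 k117 3 (.s k89 k113 5 (.s k93 k81 1 (.d k125 k109 k105 3 5))))))] .n) (.c k207 (.l (.s
  k20 k40 5 (.s k117 k101 3 (.s k48 k186 10 (.s k52 k56 1 (.s k4 k36 3 (.d k247 k166 k182 12
  8))))))) .n))))))) .n))) (.c k127 (.q k195 [(.s k65 k130 8 (.s k215 k235 5 (.s k150 k20 8 (.d k105
  k125 k60 5 14)))), (.s k65 k130 8 (.s k105 k125 5 (.s k107 k104 0 (.s k63 k151 13 (.s k21 k42 6
  (.d k149 k213 k192 7 14)))))), (.s k215 k235 5 (.s k150 k20 8 (.s k194 k62 13 (.s k192 k193 0 (.s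
  k149 k63 14 (.d k213 k234 k21 6 7))))))] (.c k105 (.q k81 [(.s k89 k93 1 (.s k243 k162 12 (.s k247
  k251 1 (.d k166 k4 k12 12 14)))), (.s k65 k130 8 (.s k97 k113 3 (.s k48 k146 12 (.s k32 k16 3 (.d
  k162 k227 k243 8 12)))))] (.c k40 (.l (.s k235 k215 5 (.s k89 k93 1 (.s k243 k162 12 (.s k166 k12
  14 (.d k247 k251 k4 1 12)))))) (.c k162 (.l (.s k65 k130 8 (.s k89 k93 1 (.s k97 k113 3 (.s k146
  k48 12 (.s k211 k16 8 (.s k150 k28 10 (.d k215 k20 k235 8 5)))))))) (.c k235 (.q k40 [(.s k89 k93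
  1 (.s k243 k162 12 (.s k166 k12 14 (.d k247 k251 k4 1 12)))), (.s k20 k60 5 (.s k150 k215 8 (.s
  k194 k62 13 (.s k192 k193 0 (.s k213 k234 6 (.d k149 k63 k21 14 7))))))] .n) (.c k243 (.l (.s k65
  k130 8 (.s k93 k89 1 (.s k12 k174 12 (.s k8 k4 1 (.s k73 k134 10 (.s k69 k77 1 (.d k138 k203 k207
  8 10)))))))) .n))))) (.c k150 (.q k199 [(.s k207 k203 1 (.s k69 k138 10 (.s k101 k117 3 (.s k154
  k48 14 (.d k223 k239 k16 3 10))))), (.s k207 k203 1 (.s k215 k235 5 (.s k223 k239 3 (.s k219 k211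
  1 (.d k231 k247 k243 3 5))))), (.s k207 k203 1 (.s k69 k138 10 (.s k4 k134 8 (.s k215 k235 5 (.d
  k247 k166 k231 12 3))))), (.s k215 k235 5 (.s k247 k231 3 (.s k4 k166 12 (.s k12 k8 1 (.d k134 k69
  k73 8 10)))))] (.c k130 (.q k190 [(.s k207 k203 1 (.s k69 k138 10 (.s k101 k117 3 (.s k154 k48 14
  (.d k223 k239 k16 3 10))))), (.s k207 k203 1 (.s k215 k235 5 (.s k223 k239 3 (.s k219 k211 1 (.d
  k231 k247 k243 3 5))))), (.s k215 k235 5 (.s k247 k231 3 (.s k4 k166 12 (.s k12 k8 1 (.d k134 k69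
  k73 8 10))))), (.s k125 k60 8 (.s k65 k105 5 (.s k207 k203 1 (.s k69 k138 10 (.s k73 k77 1 (.d
  k134 k4 k12 8 10))))))] .n) (.c k190 (.l (.s k130 k65 8 (.s k207 k203 1 (.s k69 k138 10 (.s k4
  k134 8 (.s k215 k235 5 (.d k247 k166 k231 12 3))))))) .n))) .n))) (.c k128 (.l (.s k127 k64 6 (.s
  k63 k191 7 (.s k149 k192 14 (.d k21 k42 k213 6 7))))) (.c k149 (.f k64 k127 6 (.q k90 [(.s k74
  k122 3 (.s k79 k69 2 (.s k80 k95 2 (.d k112 k96 k101 3 6)))), (.s k80 k95 2 (.s k240 k160 11 (.s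
  k165 k15 14 (.d k245 k250 k5 2 11)))), (.s k74 k122 3 (.s k95 k80 2 (.s k15 k175 11 (.d k192 k128
  k133 7 10))))] (.c k80 (.l (.s k74 k122 3 (.s k69 k79 2 (.s k138 k207 10 (.s k10 k202 7 (.s k15 k5
  2 (.d k192 k128 k133 7 10))))))) (.c k95 (.l (.s k74 k122 3 (.s k79 k69 2 (.s k112 k101 6 (.s k80
  k96 3 (.s k240 k160 11 (.s k165 k15 14 (.d k245 k250 k5 2 11)))))))) (.c k128 (.q k191 [(.s k74
  k122 3 (.s k79 k69 2 (.s k80 k95 2 (.d k112 k96 k101 3 6)))), (.s k95 k80 2 (.s k15 k175 11 (.s k5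
  k10 2 (.d k165 k245 k240 11 14))))] (.c k80 (.l (.s k74 k122 3 (.s k69 k79 2 (.s k207 k138 10 (.s
  k223 k239 3 (.s k154 k16 10 (.d k101 k117 k48 3 14))))))) (.c k95 (.l (.s k74 k122 3 (.s k79 k69 2
  (.s k112 k101 6 (.s k80 k96 3 (.s k240 k160 11 (.s k165 k15 14 (.d k245 k250 k5 2 11)))))))) .n)))
  (.c k191 (.l (.s k128 k192 7 (.s k74 k122 3 (.s k79 k69 2 (.s k80 k95 2 (.d k112 k96 k101 3
  6)))))) .n)))))) (.c k191 (.l (.s k64 k127 6 (.s k192 k128 7 (.s k149 k63 14 (.d k213 k234 k21 6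
  7))))) (.c k192 (.q k1 [(.s k3 k2 0 (.s k87 k171 13 (.s k86 k84 0 (.d k169 k253 k252 13 14)))),
  (.s k127 k64 6 (.s k63 k191 7 (.s k21 k42 6 (.s k61 k41 5 (.s k253 k169 13 (.s k125 k189 7 (.d k60
  k190 k62 8 0))))))), (.s k3 k2 0 (.s k127 k64 6 (.s k63 k191 7 (.s k21 k42 6 (.s k23 k43 5 (.s k22
  k20 0 (.d k41 k61 k60 5 6)))))))] .n) (.c k213 (.q k1 [(.s k3 k2 0 (.s k87 k171 13 (.s k86 k84 0
  (.d k169 k253 k252 13 14)))), (.s k64 k127 6 (.s k169 k253 13 (.s k192 k128 7 (.s k149 k63 14 (.s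
  k129 k189 5 (.s k66 k3 8 (.d k65 k193 k67 7 0))))))), (.s k3 k2 0 (.s k64 k127 6 (.s k192 k128 7
  (.s k66 k129 8 (.s k86 k126 5 (.d k87 k84 k171 0 13))))))] (.c k3 (.l (.s k127 k64 6 (.s k63 k191
  7 (.s k21 k42 6 (.s k61 k41 5 (.s k60 k62 0 (.s k125 k190 8 (.d k253 k189 k169 7 13)))))))) .n))
  (.c k234 (.l (.s k127 k64 6 (.s k63 k191 7 (.s k21 k42 6 (.d k149 k213 k192 7 14)))))
  .n))))))))))))

def t6_34 : T TT 256 :=
  (.f k170 k255 14 (.q k252 [(.s k84 k168 13 (.s k86 k87 0 (.s k2 k254 13 (.d k3 k1 k169 0 14))))]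
  (.c k1 (.q k4 [(.s k12 k8 1 (.s k166 k247 12 (.s k162 k174 1 (.d k243 k81 k89 12 14)))), (.s k84
  k168 13 (.s k86 k87 0 (.s k244 k164 11 (.s k165 k7 12 (.s k160 k175 2 (.d k240 k248 k80 1
  11))))))] (.c k247 (.l (.s k12 k8 1 (.s k84 k168 13 (.s k92 k172 11 (.s k88 k80 1 (.d k164 k244
  k240 11 13)))))) .n)) (.c k2 (.f k84 k168 13 (.q k10 [(.s k15 k5 2 (.s k90 k250 11 (.s k80 k95 2
  (.d k240 k160 k165 11 14)))), (.s k86 k87 0 (.s k90 k250 11 (.s k94 k82 1 (.d k15 k5 k173 2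
  12)))), (.s k86 k87 0 (.s k3 k169 14 (.s k90 k250 11 (.s k82 k94 1 (.s k240 k161 12 (.d k80 k95
  k160 2 11)))))), (.s k15 k5 2 (.s k86 k87 0 (.s k94 k173 12 (.d k90 k82 k250 1 11))))] (.c k18 (.q
  k50 [(.s k15 k5 2 (.s k90 k250 11 (.s k80 k95 2 (.d k240 k160 k165 11 14)))), (.s k86 k87 0 (.s
  k90 k250 11 (.s k94 k82 1 (.d k15 k5 k173 2 12)))), (.s k86 k87 0 (.s k3 k169 14 (.s k90 k250 11
  (.s k82 k94 1 (.s k240 k161 12 (.d k80 k95 k160 2 11)))))), (.s k15 k5 2 (.s k86 k87 0 (.s k94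
  k173 12 (.d k90 k82 k250 1 11))))] (.c k90 (.l (.s k5 k15 2 (.s k86 k87 0 (.s k165 k245 11 (.s
  k244 k7 12 (.s k240 k248 1 (.d k160 k175 k80 2 11))))))) (.c k250 (.l (.s k15 k5 2 (.s k86 k87 0
  (.s k94 k173 12 (.s k90 k82 1 (.s k80 k95 2 (.d k240 k160 k165 11 14))))))) .n))) (.c k50 (.q k18
  [(.s k15 k5 2 (.s k90 k250 11 (.s k80 k95 2 (.d k240 k160 k165 11 14)))), (.s k86 k87 0 (.s k3
  k169 14 (.s k48 k33 4 (.s k154 k222 9 (.d k16 k32 k223 3 10)))))] .n) (.c k90 (.l (.s k5 k15 2 (.s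
  k86 k87 0 (.s k165 k245 11 (.s k244 k7 12 (.s k240 k248 1 (.d k160 k175 k80 2 11))))))) (.c k250
  (.l (.s k15 k5 2 (.s k86 k87 0 (.s k94 k173 12 (.s k90 k82 1 (.s k80 k95 2 (.d k240 k160 k165 11
  14))))))) .n)))))) (.c k3 (.f k168 k84 13 (.q k12 [(.s k4 k8 1 (.s k166 k247 12 (.s k162 k174 1
  (.d k243 k81 k89 12 14)))), (.s k172 k92 11 (.s k160 k164 1 (.s k165 k175 2 (.s k5 k245 11 (.s k15
  k10 2 (.d k240 k80 k90 11 14))))))] (.c k4 (.l (.s k172 k92 11 (.s k164 k160 1 (.s k88 k240 13 (.s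
  k8 k248 11 (.s k89 k251 12 (.s k81 k93 1 (.d k243 k162 k166 12 14)))))))) (.c k87 (.l (.s k171
  k169 0 (.s k4 k8 1 (.s k166 k247 12 (.s k162 k174 1 (.d k243 k81 k89 12 14)))))) (.c k171 (.q k87
  [(.s k4 k8 1 (.s k166 k247 12 (.s k162 k174 1 (.d k243 k81 k89 12 14)))), (.s k172 k92 11 (.s k160
  k164 1 (.s k165 k175 2 (.s k5 k245 11 (.s k15 k10 2 (.d k240 k80 k90 11 14))))))] (.c k4 (.l (.s
  k172 k92 11 (.s k164 k160 1 (.s k88 k240 13 (.s k8 k248 11 (.s k89 k251 12 (.s k81 k93 1 (.d k243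
  k162 k166 12 14)))))))) .n)) .n))))) (.c k84 (.q k150 [(.s k20 k215 8 (.s k60 k40 5 (.s k130 k190
  5 (.d k195 k65 k105 8 14)))), (.s k130 k190 5 (.s k195 k65 8 (.s k214 k233 6 (.s k86 k22 7 (.s k2
  k254 13 (.d k3 k1 k169 0 14)))))), (.s k20 k215 8 (.s k60 k40 5 (.s k188 k124 7 (.s k169 k131 6
  (.s k1 k253 13 (.d k3 k2 k86 0 14))))))] (.c k60 (.q k166 [(.s k4 k247 12 (.s k12 k8 1 (.s k162
  k174 1 (.d k243 k81 k89 12 14)))), (.s k174 k162 1 (.s k182 k134 3 (.s k190 k130 5 (.s k142 k158 3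
  (.d k178 k186 k154 1 5))))), (.s k4 k247 12 (.s k20 k215 8 (.s k52 k36 3 (.s k134 k182 3 (.d k199
  k69 k101 8 12)))))] (.c k125 (.l (.s k190 k130 5 (.s k4 k247 12 (.s k12 k8 1 (.s k162 k174 1 (.d
  k243 k81 k89 12 14)))))) (.c k190 (.q k125 [(.s k4 k247 12 (.s k12 k8 1 (.s k243 k89 14 (.d k162
  k174 k81 1 12)))), (.s k182 k134 3 (.s k215 k20 8 (.s k247 k4 12 (.s k52 k117 8 (.d k199 k231 k101
  3 12))))), (.s k65 k105 5 (.s k130 k195 8 (.s k134 k182 3 (.s k142 k138 1 (.s k162 k174 1 (.d k178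
  k146 k154 3 5))))))] .n) .n))) (.c k195 (.q k1 [(.s k169 k253 13 (.d k3 k2 k86 0 14)), (.s k130
  k190 5 (.s k169 k253 13 (.s k131 k188 6 (.s k128 k129 0 (.s k171 k168 0 (.d k191 k151 k149 5
  6)))))), (.s k2 k3 0 (.s k86 k254 13 (.s k22 k214 7 (.s k42 k62 5 (.s k21 k63 6 (.d k20 k23 k215 0
  8))))))] (.c k215 (.q k235 [(.s k169 k253 13 (.d k3 k2 k86 0 14)), (.s k40 k105 8 (.s k60 k20 5
  (.s k169 k253 13 (.d k188 k131 k124 6 7)))), (.s k2 k3 0 (.s k86 k254 13 (.s k22 k214 7 (.s k62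
  k42 5 (.s k130 k190 5 (.d k194 k66 k106 7 13))))))] .n) (.c k235 (.l (.s k215 k20 8 (.s k3 k2 0
  (.d k169 k253 k86 13 14)))) .n))) .n))) (.c k86 (.q k166 [(.s k4 k247 12 (.s k12 k8 1 (.s k162
  k174 1 (.d k243 k81 k89 12 14)))), (.s k168 k84 13 (.s k169 k171 0 (.s k172 k163 2 (.s k160 k164 1
  (.s k174 k162 1 (.d k175 k173 k165 0 2)))))), (.s k4 k247 12 (.s k12 k8 1 (.s k168 k84 13 (.s k169
  k171 0 (.d k172 k163 k92 2 11)))))] (.c k4 (.l (.s k162 k174 1 (.s k168 k84 13 (.s k169 k171 0 (.s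
  k172 k163 2 (.s k12 k92 11 (.d k243 k89 k81 14 12))))))) .n)) (.c k87 (.l (.s k168 k84 13 (.s k169
  k171 0 (.s k3 k86 14 (.d k1 k2 k253 0 13))))) (.c k168 (.q k149 [(.s k21 k213 7 (.s k128 k191 6
  (.s k192 k64 7 (.d k63 k42 k106 6 14)))), (.s k128 k191 6 (.s k192 k64 7 (.s k212 k232 5 (.s k86
  k23 8 (.s k2 k254 13 (.d k3 k1 k169 0 14)))))), (.s k21 k213 7 (.s k63 k42 6 (.s k189 k126 8 (.s
  k169 k129 5 (.s k1 k253 13 (.d k3 k2 k86 0 14))))))] (.c k63 (.q k212 [(.s k192 k232 5 (.d k128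
  k191 k64 6 7)), (.s k86 k23 8 (.s k2 k254 13 (.d k3 k1 k169 0 14)))] (.c k127 (.l (.s k191 k128 6
  (.s k86 k23 8 (.s k2 k254 13 (.d k3 k1 k169 0 14))))) (.c k191 (.q k127 [(.s k64 k106 6 (.d k192
  k232 k128 5 7)), (.s k86 k23 8 (.s k2 k254 13 (.d k3 k1 k169 0 14)))] .n) .n))) (.c k192 (.q k132
  [(.s k166 k183 4 (.s k4 k247 12 (.s k12 k8 1 (.s k162 k174 1 (.d k243 k81 k89 12 14))))), (.s k128
  k191 6 (.s k136 k140 1 (.s k68 k204 9 (.s k102 k119 4 (.d k196 k4 k55 7 12))))), (.s k128 k191 6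
  (.s k140 k136 1 (.s k166 k183 4 (.s k162 k174 1 (.d k179 k145 k153 4 6))))), (.s k128 k191 6 (.s
  k166 k183 4 (.s k4 k247 12 (.s k68 k196 7 (.d k136 k204 k140 9 1)))))] (.c k213 (.q k234 [(.s k128
  k191 6 (.s k140 k136 1 (.s k166 k183 4 (.s k162 k174 1 (.d k179 k145 k153 4 6))))), (.s k166 k183
  4 (.s k4 k247 12 (.s k12 k8 1 (.s k162 k174 1 (.d k243 k81 k89 12 14))))), (.s k128 k191 6 (.s
  k136 k140 1 (.s k68 k204 9 (.s k102 k119 4 (.d k196 k4 k55 7 12))))), (.s k42 k106 7 (.s k21 k63 6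
  (.s k166 k183 4 (.s k4 k247 12 (.s k55 k38 4 (.d k196 k68 k102 7 12))))))] .n) (.c k234 (.l (.s
  k213 k21 7 (.s k128 k191 6 (.s k136 k140 1 (.s k68 k204 9 (.s k102 k119 4 (.d k196 k4 k55 7
  12))))))) .n))) .n))) (.c k169 (.q k4 [(.s k12 k8 1 (.s k166 k247 12 (.s k162 k174 1 (.d k243 k81
  k89 12 14)))), (.s k84 k168 13 (.s k86 k87 0 (.s k244 k164 11 (.s k165 k7 12 (.s k160 k175 2 (.d
  k240 k248 k80 1 11))))))] (.c k247 (.l (.s k12 k8 1 (.s k84 k168 13 (.s k92 k172 11 (.s k88 k80 1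
  (.d k164 k244 k240 11 13)))))) .n)) (.c k171 (.l (.s k84 k168 13 (.s k86 k87 0 (.s k3 k169 14 (.d
  k2 k1 k254 0 13))))) (.c k254 (.l (.s k168 k84 13 (.s k169 k171 0 (.s k1 k253 13 (.d k3 k2 k86 0
  14))))) .n))))))))))))

def t6_35 : T TT 256 :=
  (.f k255 k170 14 (.q k165 [(.s k5 k245 11 (.s k15 k10 2 (.s k90 k240 14 (.d k95 k80 k175 2 11)))),
  (.s k245 k5 11 (.s k240 k250 2 (.s k80 k160 11 (.d k90 k95 k15 2 14))))] (.c k5 (.q k4 [(.s k166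
  k247 12 (.s k12 k8 1 (.s k89 k243 14 (.d k93 k81 k174 1 12)))), (.s k166 k247 12 (.s k164 k167 0
  (.s k84 k244 11 (.s k252 k168 13 (.s k253 k254 0 (.s k169 k1 13 (.d k86 k87 k3 0 14)))))))] (.c
  k166 (.q k86 [(.s k84 k87 0 (.d k244 k164 k7 11 12)), (.s k84 k87 0 (.s k252 k168 13 (.s k169 k3
  14 (.d k253 k254 k1 0 13))))] (.c k84 (.q k173 [(.s k169 k161 1 (.s k1 k253 13 (.d k3 k2 k252 0
  14))), (.s k12 k8 1 (.s k174 k93 12 (.s k172 k175 0 (.s k252 k92 11 (.s k94 k15 12 (.d k254 k253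
  k14 0 11))))))] (.c k162 (.q k174 [(.d k12 k8 k93 1 12), (.s k169 k161 1 (.s k1 k253 13 (.d k3 k2
  k252 0 14)))] .n) (.c k174 (.q k162 [(.s k169 k161 1 (.s k1 k253 13 (.d k3 k2 k252 0 14))), (.s
  k81 k243 12 (.s k89 k93 1 (.s k83 k92 2 (.s k80 k82 0 (.s k240 k160 11 (.d k90 k95 k15 2 14))))))]
  .n) (.c k252 (.l (.s k12 k8 1 (.s k169 k161 1 (.s k253 k1 13 (.d k93 k13 k174 11 12))))) (.c k253
  (.l (.s k12 k8 1 (.s k169 k161 1 (.s k174 k93 12 (.s k172 k175 0 (.d k252 k92 k3 11 14))))))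
  .n))))) (.c k87 (.l (.s k244 k7 12 (.s k84 k164 11 (.s k252 k168 13 (.s k169 k3 14 (.d k253 k254
  k1 0 13)))))) (.c k162 (.q k174 [(.d k12 k8 k93 1 12), (.s k84 k87 0 (.d k244 k164 k7 11 12))] .n)
  (.c k174 (.q k162 [(.s k84 k87 0 (.d k244 k164 k7 11 12)), (.s k81 k243 12 (.s k89 k93 1 (.s k83
  k92 2 (.s k80 k82 0 (.s k240 k160 11 (.d k90 k95 k15 2 14))))))] .n) .n))))) (.c k247 (.l (.s k12
  k8 1 (.s k93 k174 12 (.s k89 k81 1 (.s k13 k241 13 (.s k15 k14 0 (.s k90 k240 14 (.d k95 k80 k175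
  2 11)))))))) .n))) (.c k10 (.l (.s k245 k5 11 (.s k240 k250 2 (.s k90 k15 14 (.d k80 k95 k160 2
  11))))) (.c k15 (.q k1 [(.s k5 k245 11 (.s k13 k9 1 (.s k89 k241 13 (.s k93 k81 1 (.d k253 k173
  k169 11 13))))), (.s k3 k2 0 (.s k87 k171 13 (.s k86 k84 0 (.d k169 k253 k252 13 14)))), (.s k3 k2
  0 (.s k245 k5 11 (.s k240 k250 2 (.s k160 k80 11 (.s k161 k82 12 (.s k81 k241 11 (.d k162 k163
  k243 0 12)))))))] (.c k3 (.l (.s k5 k245 11 (.s k169 k253 13 (.s k161 k173 1 (.s k241 k81 11 (.d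
  k13 k9 k89 1 13)))))) .n)) (.c k80 (.q k1 [(.s k3 k2 0 (.s k169 k253 13 (.s k86 k252 14 (.d k87
  k84 k171 0 13)))), (.s k5 k245 11 (.s k169 k253 13 (.s k161 k173 1 (.s k241 k81 11 (.d k13 k9 k89
  1 13)))))] (.c k169 (.l (.s k5 k245 11 (.s k13 k9 1 (.s k15 k10 2 (.s k89 k241 13 (.s k93 k81 1
  (.d k12 k14 k174 0 12))))))) (.c k253 (.l (.s k3 k2 0 (.s k5 k245 11 (.s k87 k171 13 (.s k86 k84 0
  (.s k7 k244 12 (.d k15 k10 k11 2 1))))))) .n))) (.c k90 (.f k5 k245 11 (.f k10 k15 2 (.q k1 [(.s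
  k13 k9 1 (.s k89 k241 13 (.s k93 k81 1 (.d k253 k173 k169 11 13)))), (.s k3 k2 0 (.s k87 k171 13
  (.s k86 k84 0 (.d k169 k253 k252 13 14))))] (.c k3 (.l (.s k169 k253 13 (.s k161 k173 1 (.s k241
  k81 11 (.d k13 k9 k89 1 13))))) (.c k169 (.l (.s k13 k9 1 (.s k89 k241 13 (.s k81 k93 1 (.s k243
  k162 12 (.s k247 k251 1 (.d k166 k12 k4 14 12))))))) (.c k253 (.l (.s k3 k2 0 (.s k13 k9 1 (.s k87
  k171 13 (.s k86 k84 0 (.s k169 k252 14 (.s k241 k89 13 (.d k161 k173 k81 1 11)))))))) .n)))))) (.c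
  k95 (.q k1 [(.s k3 k2 0 (.s k169 k253 13 (.s k86 k252 14 (.d k87 k84 k171 0 13)))), (.s k5 k245 11
  (.s k169 k253 13 (.s k161 k173 1 (.s k241 k81 11 (.d k13 k9 k89 1 13)))))] (.c k169 (.l (.s k5
  k245 11 (.s k13 k9 1 (.s k15 k10 2 (.s k89 k241 13 (.s k93 k81 1 (.d k12 k14 k174 0 12))))))) (.c
  k253 (.l (.s k3 k2 0 (.s k5 k245 11 (.s k87 k171 13 (.s k86 k84 0 (.s k7 k244 12 (.d k15 k10 k11 2
  1))))))) .n))) (.c k240 (.q k1 [(.s k5 k245 11 (.s k169 k253 13 (.s k161 k173 1 (.s k241 k81 11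
  (.d k13 k9 k89 1 13))))), (.s k3 k2 0 (.s k87 k171 13 (.s k86 k84 0 (.d k169 k253 k252 13 14))))]
  (.c k169 (.l (.s k5 k245 11 (.s k13 k9 1 (.s k15 k10 2 (.s k89 k241 13 (.s k93 k81 1 (.d k12 k14
  k174 0 12))))))) (.c k253 (.l (.s k3 k2 0 (.s k5 k245 11 (.s k87 k171 13 (.s k86 k84 0 (.s k7 k244
  12 (.d k15 k10 k11 2 1))))))) .n))) (.c k245 (.q k81 [(.s k89 k93 1 (.s k243 k162 12 (.s k247 k251
  1 (.d k166 k4 k12 12 14)))), (.s k89 k93 1 (.s k241 k13 13 (.s k1 k161 11 (.s k3 k2 0 (.s k87 k171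
  13 (.s k86 k84 0 (.d k169 k253 k252 13 14)))))))] (.c k89 (.f k243 k162 12 (.q k166 [(.d k247 k251
  k4 1 12), (.s k167 k164 0 (.s k15 k91 13 (.s k90 k240 14 (.d k95 k80 k175 2 11))))] (.c k8 (.l (.s
  k251 k247 1 (.s k167 k164 0 (.s k15 k91 13 (.s k90 k240 14 (.d k95 k80 k175 2 11)))))) (.c k251
  (.q k8 [(.d k4 k12 k247 1 12), (.s k167 k164 0 (.s k15 k91 13 (.s k95 k175 11 (.d k90 k80 k240 2
  14))))] .n) .n)))) (.c k93 (.l (.s k243 k162 12 (.s k247 k251 1 (.s k166 k4 12 (.s k167 k164 0 (.s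
  k15 k91 13 (.s k90 k240 14 (.d k95 k80 k175 2 11)))))))) .n))) (.c k250 (.l (.s k5 k245 11 (.s k15
  k10 2 (.s k90 k240 14 (.d k95 k80 k175 2 11))))) .n)))))))))))

def t6_36 : T TT 256 :=
  (.f k255 k170 14 (.q k106 [(.s k64 k127 6 (.s k192 k128 7 (.s k149 k63 14 (.d k213 k234 k21 6
  7))))] (.c k21 (.q k1 [(.s k169 k253 13 (.s k3 k2 0 (.s k86 k252 14 (.d k87 k84 k171 0 13)))), (.s
  k64 k127 6 (.s k192 k128 7 (.s k213 k234 6 (.s k253 k169 13 (.s k193 k233 5 (.s k65 k129 7 (.d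
  k195 k130 k194 8 0))))))), (.s k3 k2 0 (.s k64 k127 6 (.s k192 k128 7 (.s k66 k129 8 (.s k86 k126
  5 (.d k87 k84 k171 0 13))))))] (.c k171 (.l (.s k3 k2 0 (.s k127 k64 6 (.s k63 k191 7 (.s k43 k23
  5 (.d k169 k232 k253 8 13)))))) .n)) (.c k63 (.q k1 [(.s k3 k2 0 (.s k87 k171 13 (.s k86 k84 0 (.d
  k169 k253 k252 13 14)))), (.s k64 k127 6 (.s k192 k128 7 (.s k213 k234 6 (.s k253 k169 13 (.s k193
  k233 5 (.s k65 k129 7 (.d k195 k130 k194 8 0))))))), (.s k3 k2 0 (.s k64 k127 6 (.s k192 k128 7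
  (.s k66 k129 8 (.s k86 k126 5 (.d k87 k84 k171 0 13))))))] (.c k171 (.l (.s k3 k2 0 (.s k64 k127 6
  (.s k169 k253 13 (.s k86 k252 14 (.s k192 k128 7 (.d k66 k126 k129 5 8))))))) .n)) (.c k64 (.q k60
  [(.s k125 k190 8 (.s k105 k65 5 (.s k150 k195 14 (.d k20 k40 k215 5 8)))), (.s k20 k40 5 (.s k150
  k215 8 (.s k62 k194 13 (.s k63 k61 0 (.s k21 k42 6 (.d k149 k213 k192 7 14)))))), (.s k125 k190 8
  (.s k105 k65 5 (.s k104 k107 0 (.s k192 k148 13 (.s k149 k63 14 (.d k213 k234 k21 6 7))))))] (.c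
  k105 (.f k40 k20 5 (.q k48 [(.s k16 k32 3 (.s k117 k186 10 (.s k154 k223 10 (.d k101 k69 k207 3
  14)))), (.s k186 k117 10 (.s k190 k125 8 (.s k182 k178 1 (.s k121 k243 10 (.d k56 k52 k251 1
  8))))), (.s k16 k32 3 (.s k154 k223 10 (.s k58 k202 11 (.s k63 k53 2 (.s k21 k42 6 (.d k149 k213
  k192 7 14))))))] (.c k4 (.l (.s k52 k56 1 (.s k16 k32 3 (.s k117 k186 10 (.s k101 k69 3 (.d k154
  k223 k207 10 14)))))) (.c k52 (.q k4 [(.s k12 k8 1 (.s k93 k174 12 (.s k89 k81 1 (.d k166 k247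
  k243 12 14)))), (.s k16 k32 3 (.s k117 k186 10 (.s k101 k69 3 (.d k154 k223 k207 10 14))))] .n)
  .n)))) (.c k150 (.q k148 [(.s k104 k192 13 (.s k105 k107 0 (.d k125 k190 k65 8 5))), (.s k192 k104
  13 (.s k149 k63 14 (.d k213 k234 k21 6 7))), (.s k20 k40 5 (.s k84 k212 7 (.s k86 k87 0 (.s k126
  k66 5 (.s k190 k125 8 (.s k254 k62 7 (.d k252 k253 k168 0 13)))))))] (.c k130 (.l (.s k190 k125 8
  (.s k192 k104 13 (.s k149 k63 14 (.d k213 k234 k21 6 7))))) (.c k190 (.q k130 [(.s k65 k195 8 (.s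
  k105 k125 5 (.d k104 k107 k192 0 13))), (.s k192 k104 13 (.s k149 k63 14 (.d k213 k234 k21 6 7))),
  (.s k20 k40 5 (.s k65 k195 8 (.s k84 k212 7 (.s k86 k87 0 (.s k105 k125 5 (.s k124 k67 6 (.d k252
  k188 k168 7 13)))))))] .n) .n))) .n))) (.c k127 (.q k195 [(.s k65 k130 8 (.s k105 k125 5 (.s k150
  k60 14 (.d k215 k235 k20 5 8)))), (.s k215 k235 5 (.s k150 k20 8 (.s k194 k62 13 (.s k192 k193 0
  (.s k149 k63 14 (.d k213 k234 k21 6 7)))))), (.s k65 k130 8 (.s k105 k125 5 (.s k107 k104 0 (.s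
  k63 k151 13 (.s k21 k42 6 (.d k149 k213 k192 7 14))))))] (.c k105 (.q k149 [(.s k21 k213 7 (.d k63
  k42 k192 6 14)), (.s k63 k192 14 (.s k151 k107 13 (.s k150 k148 0 (.d k215 k235 k20 5 8))))] (.c
  k40 (.l (.s k235 k215 5 (.s k21 k213 7 (.d k63 k42 k192 6 14)))) (.c k63 (.l (.s k213 k21 7 (.s
  k192 k234 6 (.s k194 k193 0 (.s k150 k62 13 (.d k215 k235 k20 5 8)))))) (.c k192 (.l (.s k21 k213
  7 (.s k63 k42 6 (.s k151 k107 13 (.s k150 k148 0 (.d k215 k235 k20 5 8)))))) (.c k235 (.q k40 [(.s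
  k21 k213 7 (.d k63 k42 k192 6 14)), (.s k20 k60 5 (.s k63 k192 14 (.s k150 k215 8 (.d k151 k148
  k107 0 13))))] (.c k63 (.l (.s k20 k60 5 (.s k150 k215 8 (.s k213 k21 7 (.s k192 k234 6 (.d k194
  k62 k193 13 0)))))) (.c k192 (.l (.s k20 k60 5 (.s k21 k213 7 (.s k63 k42 6 (.s k150 k215 8 (.d
  k151 k148 k107 0 13)))))) .n))) .n))))) (.c k150 (.q k149 [(.s k21 k213 7 (.d k63 k42 k192 6 14)),
  (.s k63 k192 14 (.s k107 k151 13 (.s k105 k104 0 (.d k65 k130 k125 8 5))))] (.c k63 (.l (.s k213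
  k21 7 (.s k192 k234 6 (.s k193 k194 0 (.s k105 k61 13 (.d k65 k125 k130 5 8)))))) (.c k130 (.q
  k190 [(.s k21 k213 7 (.d k63 k42 k192 6 14)), (.s k63 k192 14 (.s k107 k151 13 (.s k105 k104 0 (.d
  k125 k60 k65 8 5))))] (.c k63 (.l (.s k125 k60 8 (.s k105 k65 5 (.s k213 k21 7 (.s k192 k234 6 (.d
  k193 k61 k194 13 0)))))) (.c k192 (.l (.s k21 k213 7 (.s k63 k42 6 (.s k107 k151 13 (.s k105 k104
  0 (.d k125 k60 k65 8 5)))))) .n))) (.c k190 (.l (.s k130 k65 8 (.s k21 k213 7 (.d k63 k42 k192 6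
  14)))) (.c k192 (.l (.s k21 k213 7 (.s k63 k42 6 (.s k107 k151 13 (.s k105 k104 0 (.d k65 k125
  k130 5 8)))))) .n))))) .n))) (.c k128 (.l (.s k127 k64 6 (.s k63 k191 7 (.s k149 k192 14 (.d k21
  k42 k213 6 7))))) (.c k149 (.f k64 k127 6 (.q k80 [(.s k90 k95 2 (.s k74 k122 3 (.s k79 k69 2 (.d
  k112 k96 k101 3 6)))), (.s k240 k160 11 (.s k245 k250 2 (.s k165 k5 11 (.d k90 k95 k15 2 14)))),
  (.s k96 k112 3 (.s k160 k240 11 (.s k32 k224 7 (.s k48 k16 3 (.d k192 k128 k144 7 11)))))] (.c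
  k128 (.q k191 [(.s k90 k95 2 (.s k74 k122 3 (.s k79 k69 2 (.d k112 k96 k101 3 6)))), (.s k240 k160
  11 (.s k245 k250 2 (.s k165 k5 11 (.d k90 k95 k15 2 14)))), (.s k96 k112 3 (.s k160 k240 11 (.s
  k32 k224 7 (.s k48 k16 3 (.s k117 k186 10 (.d k101 k111 k69 2 3))))))] .n) (.c k191 (.l (.s k128
  k192 7 (.s k90 k95 2 (.s k74 k122 3 (.s k79 k69 2 (.d k112 k96 k101 3 6)))))) .n)))) (.c k191 (.l
  (.s k64 k127 6 (.s k192 k128 7 (.s k149 k63 14 (.d k213 k234 k21 6 7))))) (.c k192 (.q k1 [(.s k3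
  k2 0 (.s k87 k171 13 (.s k86 k84 0 (.d k169 k253 k252 13 14)))), (.s k127 k64 6 (.s k63 k191 7 (.s
  k21 k42 6 (.s k61 k41 5 (.s k253 k169 13 (.s k125 k189 7 (.d k60 k190 k62 8 0))))))), (.s k3 k2 0
  (.s k127 k64 6 (.s k63 k191 7 (.s k21 k42 6 (.s k23 k43 5 (.s k22 k20 0 (.d k41 k61 k60 5
  6)))))))] .n) (.c k213 (.q k1 [(.s k3 k2 0 (.s k87 k171 13 (.s k86 k84 0 (.d k169 k253 k252 13
  14)))), (.s k64 k127 6 (.s k169 k253 13 (.s k192 k128 7 (.s k149 k63 14 (.s k129 k189 5 (.s k66 k3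
  8 (.d k65 k193 k67 7 0))))))), (.s k3 k2 0 (.s k64 k127 6 (.s k192 k128 7 (.s k66 k129 8 (.s k86
  k126 5 (.d k87 k84 k171 0 13))))))] (.c k3 (.l (.s k127 k64 6 (.s k63 k191 7 (.s k21 k42 6 (.s k61
  k41 5 (.s k60 k62 0 (.s k125 k190 8 (.d k253 k189 k169 7 13)))))))) .n)) (.c k234 (.l (.s k127 k64
  6 (.s k63 k191 7 (.s k21 k42 6 (.d k149 k213 k192 7 14))))) .n))))))))))))

def t6_37 : T TT 256 :=
  (.f k255 k170 14 (.q k106 [(.s k64 k127 6 (.s k192 k128 7 (.s k149 k63 14 (.d k213 k234 k21 6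
  7))))] (.c k21 (.q k5 [(.s k165 k245 11 (.s k15 k10 2 (.s k90 k240 14 (.d k95 k80 k175 2 11)))),
  (.s k127 k64 6 (.s k63 k191 7 (.s k165 k245 11 (.s k47 k224 10 (.d k15 k10 k31 2 3))))), (.s k15
  k10 2 (.s k64 k127 6 (.s k192 k128 7 (.s k74 k133 10 (.s k90 k122 3 (.d k95 k80 k175 2 11))))))]
  (.c k10 (.l (.s k64 k127 6 (.s k165 k245 11 (.s k192 k128 7 (.s k149 k63 14 (.s k133 k181 3 (.s
  k69 k197 7 (.d k74 k79 k15 2 10)))))))) (.c k15 (.l (.s k127 k64 6 (.s k63 k191 7 (.s k245 k165 11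
  (.s k240 k250 2 (.s k122 k181 10 (.s k90 k74 3 (.d k80 k160 k95 11 2)))))))) .n))) (.c k63 (.q k1
  [(.s k3 k2 0 (.s k87 k171 13 (.s k86 k84 0 (.d k169 k253 k252 13 14)))), (.s k64 k127 6 (.s k192
  k128 7 (.s k213 k234 6 (.s k253 k169 13 (.s k193 k233 5 (.s k65 k129 7 (.d k195 k130 k194 8
  0))))))), (.s k3 k2 0 (.s k64 k127 6 (.s k192 k128 7 (.s k66 k129 8 (.s k86 k126 5 (.d k87 k84
  k171 0 13))))))] (.c k171 (.l (.s k3 k2 0 (.s k64 k127 6 (.s k169 k253 13 (.s k86 k252 14 (.s k192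
  k128 7 (.d k66 k126 k129 5 8))))))) .n)) (.c k64 (.q k60 [(.s k20 k40 5 (.s k125 k190 8 (.s k150
  k215 8 (.d k105 k65 k195 5 14)))), (.s k20 k40 5 (.s k150 k215 8 (.s k62 k194 13 (.s k63 k61 0 (.s
  k21 k42 6 (.d k149 k213 k192 7 14)))))), (.s k125 k190 8 (.s k105 k65 5 (.s k104 k107 0 (.s k192
  k148 13 (.s k149 k63 14 (.d k213 k234 k21 6 7))))))] (.c k105 (.q k86 [(.s k84 k87 0 (.s k252 k168
  13 (.s k253 k254 0 (.d k169 k1 k3 13 14)))), (.s k126 k66 5 (.s k190 k125 8 (.s k62 k254 7 (.s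
  k150 k194 13 (.d k20 k40 k215 5 8)))))] (.c k40 (.q k235 [(.s k84 k87 0 (.s k252 k168 13 (.s k253
  k254 0 (.d k169 k1 k3 13 14)))), (.s k126 k66 5 (.s k190 k125 8 (.s k62 k254 7 (.s k150 k194 13
  (.d k215 k195 k20 5 8)))))] (.c k254 (.l (.s k87 k84 0 (.s k3 k171 13 (.s k1 k2 0 (.d k169 k253
  k252 13 14))))) .n)) (.c k235 (.l (.s k40 k20 5 (.s k84 k87 0 (.s k252 k168 13 (.s k169 k3 14 (.d
  k253 k254 k1 0 13)))))) (.c k254 (.l (.s k87 k84 0 (.s k3 k171 13 (.s k1 k2 0 (.d k169 k253 k252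
  13 14))))) .n)))) (.c k150 (.q k149 [(.s k21 k213 7 (.d k63 k42 k192 6 14)), (.s k63 k192 14 (.s
  k61 k62 0 (.s k105 k193 13 (.d k125 k190 k65 8 5))))] (.c k63 (.l (.s k213 k21 7 (.s k192 k234 6
  (.s k104 k148 13 (.s k105 k107 0 (.d k125 k65 k190 5 8)))))) (.c k130 (.l (.s k190 k125 8 (.s k21
  k213 7 (.d k63 k42 k192 6 14)))) (.c k190 (.q k130 [(.s k21 k213 7 (.d k63 k42 k192 6 14)), (.s
  k63 k192 14 (.s k61 k62 0 (.s k65 k195 8 (.d k105 k193 k125 13 5))))] (.c k63 (.l (.s k65 k195 8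
  (.s k105 k125 5 (.s k213 k21 7 (.s k192 k234 6 (.d k104 k107 k148 0 13)))))) (.c k192 (.l (.s k21
  k213 7 (.s k63 k42 6 (.s k61 k62 0 (.s k65 k195 8 (.d k105 k193 k125 13 5)))))) .n))) (.c k192 (.l
  (.s k21 k213 7 (.s k63 k42 6 (.s k61 k62 0 (.s k105 k193 13 (.d k125 k65 k190 5 8)))))) .n)))))
  .n))) (.c k127 (.q k195 [(.s k65 k130 8 (.s k215 k235 5 (.s k150 k20 8 (.d k105 k125 k60 5 14)))),
  (.s k65 k130 8 (.s k105 k125 5 (.s k107 k104 0 (.s k63 k151 13 (.s k21 k42 6 (.d k149 k213 k192 7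
  14)))))), (.s k215 k235 5 (.s k150 k20 8 (.s k194 k62 13 (.s k192 k193 0 (.s k149 k63 14 (.d k213
  k234 k21 6 7))))))] (.c k105 (.q k149 [(.s k21 k213 7 (.d k63 k42 k192 6 14)), (.s k63 k192 14 (.s
  k151 k107 13 (.s k150 k148 0 (.d k215 k235 k20 5 8))))] (.c k40 (.l (.s k235 k215 5 (.s k21 k213 7
  (.d k63 k42 k192 6 14)))) (.c k63 (.l (.s k213 k21 7 (.s k192 k234 6 (.s k194 k193 0 (.s k150 k62
  13 (.d k215 k235 k20 5 8)))))) (.c k192 (.l (.s k21 k213 7 (.s k63 k42 6 (.s k151 k107 13 (.s k150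
  k148 0 (.d k215 k235 k20 5 8)))))) (.c k235 (.q k40 [(.s k21 k213 7 (.d k63 k42 k192 6 14)), (.s
  k20 k60 5 (.s k63 k192 14 (.s k150 k215 8 (.d k151 k148 k107 0 13))))] (.c k63 (.l (.s k20 k60 5
  (.s k150 k215 8 (.s k213 k21 7 (.s k192 k234 6 (.d k194 k62 k193 13 0)))))) (.c k192 (.l (.s k20
  k60 5 (.s k21 k213 7 (.s k63 k42 6 (.s k150 k215 8 (.d k151 k148 k107 0 13)))))) .n))) .n))))) (.c
  k150 (.q k149 [(.s k21 k213 7 (.d k63 k42 k192 6 14)), (.s k63 k192 14 (.s k107 k151 13 (.s k105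
  k104 0 (.d k65 k130 k125 8 5))))] (.c k63 (.l (.s k213 k21 7 (.s k192 k234 6 (.s k193 k194 0 (.s
  k105 k61 13 (.d k65 k125 k130 5 8)))))) (.c k130 (.q k190 [(.s k21 k213 7 (.d k63 k42 k192 6 14)),
  (.s k63 k192 14 (.s k107 k151 13 (.s k105 k104 0 (.d k125 k60 k65 8 5))))] (.c k63 (.l (.s k125
  k60 8 (.s k105 k65 5 (.s k213 k21 7 (.s k192 k234 6 (.d k193 k61 k194 13 0)))))) (.c k192 (.l (.s
  k21 k213 7 (.s k63 k42 6 (.s k107 k151 13 (.s k105 k104 0 (.d k125 k60 k65 8 5)))))) .n))) (.c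
  k190 (.l (.s k130 k65 8 (.s k21 k213 7 (.d k63 k42 k192 6 14)))) (.c k192 (.l (.s k21 k213 7 (.s
  k63 k42 6 (.s k107 k151 13 (.s k105 k104 0 (.d k65 k125 k130 5 8)))))) .n))))) .n))) (.c k128 (.l
  (.s k127 k64 6 (.s k63 k191 7 (.s k149 k192 14 (.d k21 k42 k213 6 7))))) (.c k149 (.f k64 k127 6
  (.q k72 [(.s k76 k68 1 (.s k89 k123 4 (.s k81 k93 1 (.d k115 k98 k102 4 6)))), (.s k68 k76 1 (.s
  k136 k204 9 (.s k8 k200 7 (.s k12 k4 1 (.d k192 k128 k132 7 9))))), (.s k89 k123 4 (.s k93 k81 1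
  (.s k12 k174 12 (.d k192 k128 k132 7 9))))] (.c k93 (.l (.s k76 k68 1 (.s k89 k123 4 (.s k115 k102
  6 (.s k81 k98 4 (.s k243 k162 12 (.s k166 k12 14 (.d k247 k251 k4 1 12)))))))) (.c k128 (.q k191
  [(.s k76 k68 1 (.s k89 k123 4 (.s k81 k93 1 (.d k115 k98 k102 4 6)))), (.s k68 k76 1 (.s k204 k136
  9 (.s k221 k238 4 (.s k153 k17 9 (.d k102 k119 k51 4 14))))), (.s k89 k123 4 (.s k93 k81 1 (.s k12
  k174 12 (.s k4 k8 1 (.d k166 k247 k243 12 14)))))] (.c k93 (.l (.s k76 k68 1 (.s k89 k123 4 (.s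
  k115 k102 6 (.s k81 k98 4 (.s k243 k162 12 (.s k166 k12 14 (.d k247 k251 k4 1 12)))))))) (.c k119
  (.l (.s k76 k68 1 (.s k89 k123 4 (.s k115 k102 6 (.d k81 k93 k98 1 4))))) .n))) (.c k191 (.l (.s
  k128 k192 7 (.s k76 k68 1 (.s k89 k123 4 (.s k81 k93 1 (.d k115 k98 k102 4 6)))))) .n))))) (.c
  k191 (.l (.s k64 k127 6 (.s k192 k128 7 (.s k149 k63 14 (.d k213 k234 k21 6 7))))) (.c k192 (.q k1
  [(.s k3 k2 0 (.s k87 k171 13 (.s k86 k84 0 (.d k169 k253 k252 13 14)))), (.s k127 k64 6 (.s k63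
  k191 7 (.s k21 k42 6 (.s k61 k41 5 (.s k253 k169 13 (.s k125 k189 7 (.d k60 k190 k62 8 0))))))),
  (.s k3 k2 0 (.s k127 k64 6 (.s k63 k191 7 (.s k21 k42 6 (.s k23 k43 5 (.s k22 k20 0 (.d k41 k61
  k60 5 6)))))))] .n) (.c k213 (.q k1 [(.s k3 k2 0 (.s k87 k171 13 (.s k86 k84 0 (.d k169 k253 k252
  13 14)))), (.s k64 k127 6 (.s k169 k253 13 (.s k192 k128 7 (.s k149 k63 14 (.s k129 k189 5 (.s k66
  k3 8 (.d k65 k193 k67 7 0))))))), (.s k3 k2 0 (.s k64 k127 6 (.s k192 k128 7 (.s k66 k129 8 (.s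
  k86 k126 5 (.d k87 k84 k171 0 13))))))] (.c k3 (.l (.s k127 k64 6 (.s k63 k191 7 (.s k21 k42 6 (.s
  k61 k41 5 (.s k60 k62 0 (.s k125 k190 8 (.d k253 k189 k169 7 13)))))))) .n)) (.c k234 (.l (.s k127
  k64 6 (.s k63 k191 7 (.s k21 k42 6 (.d k149 k213 k192 7 14))))) .n))))))))))))

def t6_38 : T TT 256 :=
  (.q k150 [(.s k20 k215 8 (.s k60 k40 5 (.s k105 k195 14 (.s k125 k65 5 (.d k255 k190 k170 8
  14)))))] (.c k20 (.f k170 k255 14 (.q k22 [(.s k86 k214 7 (.s k84 k87 0 (.s k252 k168 13 (.s k3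
  k169 14 (.d k2 k1 k254 0 13))))), (.s k86 k214 7 (.s k2 k254 13 (.s k62 k42 5 (.s k130 k190 5 (.d
  k194 k66 k106 7 13))))), (.s k130 k190 5 (.s k195 k65 8 (.s k60 k105 14 (.s k3 k41 6 (.s k1 k2 0
  (.s k131 k67 7 (.d k169 k188 k253 6 13)))))))] (.c k2 (.l (.s k86 k214 7 (.s k84 k87 0 (.s k130
  k190 5 (.s k195 k65 8 (.s k60 k105 14 (.s k3 k41 6 (.d k252 k169 k168 14 13)))))))) (.c k86 (.l
  (.s k130 k190 5 (.s k195 k65 8 (.s k60 k105 14 (.s k3 k41 6 (.s k1 k2 0 (.s k169 k253 13 (.d k131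
  k67 k188 7 6)))))))) .n)))) (.c k22 (.q k54 [(.s k20 k215 8 (.s k60 k40 5 (.s k105 k195 14 (.s
  k125 k65 5 (.d k255 k190 k170 8 14))))), (.s k102 k198 11 (.s k68 k119 4 (.s k170 k255 14 (.s k34
  k238 9 (.s k51 k17 4 (.d k204 k136 k153 9 14)))))), (.s k20 k215 8 (.s k60 k40 5 (.s k51 k57 2 (.s
  k17 k34 4 (.s k102 k198 11 (.d k153 k221 k204 9 14))))))] .n) (.c k40 (.l (.s k215 k20 8 (.s k255
  k170 14 (.s k195 k235 5 (.s k105 k60 14 (.d k65 k125 k130 5 8)))))) (.c k54 (.q k22 [(.s k20 k215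
  8 (.s k60 k40 5 (.s k105 k195 14 (.s k125 k65 5 (.d k255 k190 k170 8 14))))), (.s k20 k215 8 (.s
  k23 k21 0 (.s k86 k214 7 (.s k84 k87 0 (.d k212 k148 k149 7 8))))), (.s k86 k214 7 (.s k84 k87 0
  (.s k170 k255 14 (.s k2 k254 13 (.s k3 k1 0 (.d k252 k168 k169 13 14))))))] .n) (.c k60 (.q k22
  [(.s k20 k215 8 (.s k23 k21 0 (.s k86 k214 7 (.s k84 k87 0 (.d k212 k148 k149 7 8))))), (.s k86
  k214 7 (.s k84 k87 0 (.s k170 k255 14 (.s k2 k254 13 (.s k3 k1 0 (.d k252 k168 k169 13 14)))))),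
  (.s k20 k215 8 (.s k21 k23 0 (.s k42 k63 6 (.s k62 k2 5 (.s k106 k194 13 (.d k170 k234 k255 7
  14))))))] (.c k87 (.l (.s k20 k215 8 (.s k86 k214 7 (.s k170 k255 14 (.s k2 k254 13 (.s k42 k62 5
  (.d k21 k23 k63 0 6))))))) .n)) (.c k65 (.q k22 [(.s k20 k215 8 (.s k86 k214 7 (.s k84 k87 0 (.s
  k212 k148 7 (.d k23 k21 k149 0 8))))), (.s k86 k214 7 (.s k84 k87 0 (.s k170 k255 14 (.s k2 k254
  13 (.s k3 k1 0 (.d k252 k168 k169 13 14)))))), (.s k20 k215 8 (.s k21 k23 0 (.s k42 k63 6 (.s k2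
  k62 5 (.s k3 k1 0 (.d k60 k40 k41 5 6))))))] (.c k87 (.l (.s k20 k215 8 (.s k60 k40 5 (.s k3 k41 6
  (.s k1 k2 0 (.s k86 k214 7 (.d k169 k253 k252 13 14))))))) .n)) (.c k105 (.q k22 [(.s k20 k215 8
  (.s k86 k214 7 (.s k84 k87 0 (.s k212 k148 7 (.d k23 k21 k149 0 8))))), (.s k86 k214 7 (.s k84 k87
  0 (.s k170 k255 14 (.s k2 k254 13 (.s k3 k1 0 (.d k252 k168 k169 13 14)))))), (.s k20 k215 8 (.s
  k21 k23 0 (.s k42 k63 6 (.s k2 k62 5 (.s k3 k1 0 (.d k60 k40 k41 5 6))))))] (.c k87 (.l (.s k20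
  k215 8 (.s k60 k40 5 (.s k3 k41 6 (.s k1 k2 0 (.s k86 k214 7 (.d k169 k253 k252 13 14))))))) .n))
  (.c k125 (.l (.s k20 k215 8 (.s k60 k40 5 (.s k170 k255 14 (.s k130 k190 5 (.d k195 k65 k105 8
  14)))))) (.c k170 (.q k86 [(.s k20 k215 8 (.s k22 k214 7 (.s k84 k87 0 (.s k212 k148 7 (.d k23 k21
  k149 0 8))))), (.s k84 k87 0 (.s k252 k168 13 (.s k169 k3 14 (.s k188 k131 6 (.s k60 k124 7 (.s
  k195 k105 14 (.d k214 k22 k233 7 6))))))), (.s k20 k215 8 (.s k22 k214 7 (.s k60 k40 5 (.s k3 k41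
  6 (.s k1 k2 0 (.d k169 k253 k252 13 14))))))] (.c k22 (.q k54 [(.s k84 k87 0 (.s k102 k198 11 (.s
  k68 k119 4 (.s k70 k118 3 (.s k71 k69 0 (.d k116 k100 k101 3 4)))))), (.s k20 k215 8 (.s k60 k40 5
  (.s k84 k87 0 (.s k105 k195 14 (.s k124 k67 6 (.d k252 k188 k168 7 13)))))), (.s k20 k215 8 (.s
  k60 k40 5 (.s k51 k57 2 (.s k17 k34 4 (.s k102 k198 11 (.d k153 k221 k204 9 14))))))] .n) (.c k54
  (.l (.s k22 k214 7 (.s k20 k215 8 (.s k23 k21 0 (.s k84 k87 0 (.d k212 k148 k149 7 8)))))) (.c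
  k214 (.l (.s k20 k215 8 (.s k60 k40 5 (.s k84 k87 0 (.s k105 k195 14 (.s k124 k67 6 (.d k252 k188
  k168 7 13))))))) .n)))) (.c k190 (.l (.s k215 k20 8 (.s k255 k170 14 (.s k195 k235 5 (.s k65 k130
  8 (.d k105 k125 k60 5 14)))))) (.c k195 (.q k22 [(.s k86 k214 7 (.s k84 k87 0 (.s k252 k168 13 (.s
  k3 k169 14 (.s k2 k1 0 (.d k170 k254 k255 13 14)))))), (.s k20 k215 8 (.s k21 k23 0 (.s k42 k63 6
  (.s k2 k62 5 (.s k3 k1 0 (.d k60 k40 k41 5 6)))))), (.s k20 k215 8 (.s k23 k21 0 (.s k86 k214 7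
  (.s k84 k87 0 (.d k212 k148 k149 7 8)))))] (.c k87 (.l (.s k20 k215 8 (.s k60 k40 5 (.s k3 k41 6
  (.s k1 k2 0 (.s k86 k214 7 (.d k169 k252 k253 14 13))))))) (.c k255 (.l (.s k86 k214 7 (.s k84 k87
  0 (.s k252 k168 13 (.s k3 k169 14 (.s k60 k41 6 (.d k20 k40 k215 5 8))))))) .n))) (.c k215 (.q k86
  [(.s k87 k84 0 (.s k255 k170 14 (.s k3 k171 13 (.s k169 k252 14 (.d k1 k2 k253 0 13))))), (.s k170
  k255 14 (.s k190 k130 5 (.s k254 k2 13 (.s k62 k126 7 (.s k194 k106 13 (.d k214 k22 k234 7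
  5)))))), (.s k84 k87 0 (.s k252 k168 13 (.s k169 k3 14 (.s k188 k131 6 (.s k60 k124 7 (.s k195
  k105 14 (.d k214 k22 k233 7 6)))))))] (.c k22 (.q k54 [(.s k87 k84 0 (.s k255 k170 14 (.s k3 k171
  13 (.s k169 k252 14 (.d k1 k2 k253 0 13))))), (.s k84 k87 0 (.s k102 k198 11 (.s k68 k119 4 (.s
  k70 k118 3 (.s k71 k69 0 (.d k116 k100 k101 3 4)))))), (.s k102 k198 11 (.s k68 k119 4 (.s k170
  k255 14 (.s k34 k238 9 (.s k51 k17 4 (.d k204 k136 k153 9 14))))))] .n) (.c k54 (.l (.s k22 k214 7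
  (.s k84 k87 0 (.s k170 k255 14 (.s k2 k254 13 (.s k3 k1 0 (.d k252 k168 k169 13 14))))))) (.c k255
  (.l (.s k22 k214 7 (.s k84 k87 0 (.s k252 k168 13 (.s k3 k169 14 (.s k60 k41 6 (.s k124 k188 7 (.d
  k105 k67 k195 6 14)))))))) .n)))) (.c k235 (.l (.s k20 k215 8 (.s k60 k40 5 (.s k105 k195 14 (.s
  k255 k170 14 (.d k125 k65 k190 5 8)))))) (.c k255 (.q k22 [(.s k20 k215 8 (.s k23 k21 0 (.s k86
  k214 7 (.s k212 k149 8 (.d k84 k87 k148 0 7))))), (.s k86 k214 7 (.s k84 k87 0 (.s k252 k168 13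
  (.s k3 k169 14 (.s k60 k41 6 (.d k20 k40 k215 5 8)))))), (.s k20 k215 8 (.s k21 k23 0 (.s k42 k63
  6 (.s k2 k62 5 (.s k3 k1 0 (.d k60 k40 k41 5 6)))))), (.s k86 k214 7 (.s k84 k87 0 (.s k252 k168
  13 (.s k3 k169 14 (.s k60 k41 6 (.s k124 k188 7 (.d k105 k67 k195 6 14)))))))] (.c k87 (.l (.s k20
  k215 8 (.s k60 k40 5 (.s k3 k41 6 (.s k1 k2 0 (.s k86 k214 7 (.d k169 k253 k252 13 14))))))) .n))
  .n)))))))))))))))

def t6_39 : T TT 256 :=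
  (.f k255 k170 14 (.q k106 [(.s k64 k127 6 (.s k192 k128 7 (.s k149 k63 14 (.d k213 k234 k21 6
  7))))] (.c k21 (.q k1 [(.s k169 k253 13 (.s k3 k2 0 (.s k86 k252 14 (.d k87 k84 k171 0 13)))), (.s
  k64 k127 6 (.s k192 k128 7 (.s k213 k234 6 (.s k253 k169 13 (.s k193 k233 5 (.s k65 k129 7 (.d
  k195 k130 k194 8 0))))))), (.s k3 k2 0 (.s k64 k127 6 (.s k192 k128 7 (.s k66 k129 8 (.s k86 k126
  5 (.d k87 k84 k171 0 13))))))] (.c k171 (.l (.s k3 k2 0 (.s k127 k64 6 (.s k63 k191 7 (.s k43 k23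
  5 (.d k169 k232 k253 8 13)))))) .n)) (.c k63 (.q k1 [(.s k3 k2 0 (.s k87 k171 13 (.s k86 k84 0 (.d
  k169 k253 k252 13 14)))), (.s k64 k127 6 (.s k192 k128 7 (.s k213 k234 6 (.s k253 k169 13 (.s k193
  k233 5 (.s k65 k129 7 (.d k195 k130 k194 8 0))))))), (.s k3 k2 0 (.s k64 k127 6 (.s k192 k128 7
  (.s k66 k129 8 (.s k86 k126 5 (.d k87 k84 k171 0 13))))))] (.c k171 (.l (.s k3 k2 0 (.s k64 k127 6
  (.s k169 k253 13 (.s k86 k252 14 (.s k192 k128 7 (.d k66 k126 k129 5 8))))))) .n)) (.c k64 (.q k60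
  [(.s k20 k40 5 (.s k125 k190 8 (.s k150 k215 8 (.d k105 k65 k195 5 14)))), (.s k20 k40 5 (.s k150
  k215 8 (.s k62 k194 13 (.s k63 k61 0 (.s k21 k42 6 (.d k149 k213 k192 7 14)))))), (.s k125 k190 8
  (.s k105 k65 5 (.s k104 k107 0 (.s k192 k148 13 (.s k149 k63 14 (.d k213 k234 k21 6 7))))))] (.c
  k105 (.q k87 [(.s k3 k171 13 (.s k86 k84 0 (.s k169 k252 14 (.d k1 k2 k253 0 13)))), (.s k86 k84 0
  (.s k126 k66 5 (.s k190 k125 8 (.s k62 k254 7 (.s k150 k194 13 (.d k20 k40 k215 5 8)))))), (.s k3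
  k171 13 (.s k2 k1 0 (.s k22 k41 6 (.s k42 k62 5 (.s k21 k63 6 (.d k20 k40 k23 5 0))))))] (.c k2
  (.l (.s k3 k171 13 (.s k22 k41 6 (.s k86 k84 0 (.s k150 k214 7 (.d k20 k40 k215 5 8)))))) (.c k40
  (.q k235 [(.s k3 k171 13 (.s k86 k84 0 (.s k169 k252 14 (.d k1 k2 k253 0 13)))), (.s k3 k171 13
  (.s k22 k41 6 (.s k215 k195 5 (.s k20 k150 8 (.d k23 k21 k151 0 7))))), (.s k86 k84 0 (.s k126 k66
  5 (.s k190 k125 8 (.s k62 k254 7 (.s k150 k194 13 (.d k215 k195 k20 5 8))))))] .n) (.c k235 (.l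
  (.s k40 k20 5 (.s k3 k171 13 (.s k1 k2 0 (.s k86 k84 0 (.d k169 k253 k252 13 14)))))) .n)))) (.c
  k150 (.q k149 [(.s k21 k213 7 (.d k63 k42 k192 6 14)), (.s k63 k192 14 (.s k61 k62 0 (.s k105 k193
  13 (.d k125 k190 k65 8 5))))] (.c k63 (.l (.s k213 k21 7 (.s k192 k234 6 (.s k104 k148 13 (.s k105
  k107 0 (.d k125 k65 k190 5 8)))))) (.c k130 (.l (.s k190 k125 8 (.s k21 k213 7 (.d k63 k42 k192 6
  14)))) (.c k190 (.q k130 [(.s k21 k213 7 (.d k63 k42 k192 6 14)), (.s k63 k192 14 (.s k61 k62 0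
  (.s k65 k195 8 (.d k105 k193 k125 13 5))))] (.c k63 (.l (.s k65 k195 8 (.s k105 k125 5 (.s k213
  k21 7 (.s k192 k234 6 (.d k104 k107 k148 0 13)))))) (.c k192 (.l (.s k21 k213 7 (.s k63 k42 6 (.s
  k61 k62 0 (.s k65 k195 8 (.d k105 k193 k125 13 5)))))) .n))) (.c k192 (.l (.s k21 k213 7 (.s k63
  k42 6 (.s k61 k62 0 (.s k105 k193 13 (.d k125 k65 k190 5 8)))))) .n))))) .n))) (.c k127 (.q k195
  [(.s k65 k130 8 (.s k215 k235 5 (.s k150 k20 8 (.d k105 k125 k60 5 14)))), (.s k65 k130 8 (.s k105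
  k125 5 (.s k107 k104 0 (.s k63 k151 13 (.s k21 k42 6 (.d k149 k213 k192 7 14)))))), (.s k215 k235
  5 (.s k150 k20 8 (.s k194 k62 13 (.s k192 k193 0 (.s k149 k63 14 (.d k213 k234 k21 6 7))))))] (.c
  k105 (.q k149 [(.s k21 k213 7 (.d k63 k42 k192 6 14)), (.s k63 k192 14 (.s k151 k107 13 (.s k150
  k148 0 (.d k215 k235 k20 5 8))))] (.c k40 (.l (.s k235 k215 5 (.s k21 k213 7 (.d k63 k42 k192 6
  14)))) (.c k63 (.l (.s k213 k21 7 (.s k192 k234 6 (.s k194 k193 0 (.s k150 k62 13 (.d k215 k235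
  k20 5 8)))))) (.c k192 (.l (.s k21 k213 7 (.s k63 k42 6 (.s k151 k107 13 (.s k150 k148 0 (.d k215
  k235 k20 5 8)))))) (.c k235 (.q k40 [(.s k21 k213 7 (.d k63 k42 k192 6 14)), (.s k20 k60 5 (.s k63
  k192 14 (.s k150 k215 8 (.d k151 k148 k107 0 13))))] (.c k63 (.l (.s k20 k60 5 (.s k150 k215 8 (.s
  k213 k21 7 (.s k192 k234 6 (.d k194 k62 k193 13 0)))))) (.c k192 (.l (.s k20 k60 5 (.s k21 k213 7
  (.s k63 k42 6 (.s k150 k215 8 (.d k151 k148 k107 0 13)))))) .n))) .n))))) (.c k150 (.q k149 [(.s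
  k21 k213 7 (.d k63 k42 k192 6 14)), (.s k63 k192 14 (.s k107 k151 13 (.s k105 k104 0 (.d k65 k130
  k125 8 5))))] (.c k63 (.l (.s k213 k21 7 (.s k192 k234 6 (.s k193 k194 0 (.s k105 k61 13 (.d k65
  k125 k130 5 8)))))) (.c k130 (.q k190 [(.s k21 k213 7 (.d k63 k42 k192 6 14)), (.s k63 k192 14 (.s
  k107 k151 13 (.s k105 k104 0 (.d k125 k60 k65 8 5))))] (.c k63 (.l (.s k125 k60 8 (.s k105 k65 5
  (.s k213 k21 7 (.s k192 k234 6 (.d k193 k61 k194 13 0)))))) (.c k192 (.l (.s k21 k213 7 (.s k63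
  k42 6 (.s k107 k151 13 (.s k105 k104 0 (.d k125 k60 k65 8 5)))))) .n))) (.c k190 (.l (.s k130 k65
  8 (.s k21 k213 7 (.d k63 k42 k192 6 14)))) (.c k192 (.l (.s k21 k213 7 (.s k63 k42 6 (.s k107 k151
  13 (.s k105 k104 0 (.d k65 k125 k130 5 8)))))) .n))))) .n))) (.c k128 (.l (.s k127 k64 6 (.s k63
  k191 7 (.s k149 k192 14 (.d k21 k42 k213 6 7))))) (.c k149 (.f k127 k64 6 (.q k102 [(.s k68 k119 4
  (.s k110 k98 1 (.s k204 k136 9 (.d k63 k191 k157 7 12)))), (.s k110 k98 1 (.s k93 k76 4 (.s k12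
  k174 12 (.s k4 k8 1 (.s k166 k247 12 (.d k89 k81 k243 1 14)))))), (.s k68 k119 4 (.s k204 k136 9
  (.s k153 k51 14 (.d k221 k238 k17 4 9))))] (.c k68 (.l (.s k110 k98 1 (.s k76 k93 4 (.s k115 k89 6
  (.s k119 k123 1 (.s k51 k187 9 (.s k17 k34 4 (.d k153 k221 k204 9 14)))))))) (.c k128 (.l (.s k191
  k63 7 (.s k68 k119 4 (.s k204 k136 9 (.s k153 k51 14 (.d k221 k238 k17 4 9)))))) (.c k191 (.q k128
  [(.s k68 k119 4 (.s k204 k136 9 (.s k221 k238 4 (.d k153 k17 k51 9 14)))), (.s k110 k98 1 (.s k93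
  k76 4 (.s k12 k174 12 (.s k4 k8 1 (.s k166 k247 12 (.d k89 k81 k243 1 14))))))] (.c k68 (.l (.s
  k110 k98 1 (.s k76 k93 4 (.s k115 k89 6 (.s k119 k123 1 (.s k51 k187 9 (.s k17 k34 4 (.d k153 k221
  k204 9 14)))))))) .n)) .n))))) (.c k191 (.l (.s k64 k127 6 (.s k192 k128 7 (.s k149 k63 14 (.d
  k213 k234 k21 6 7))))) (.c k192 (.q k1 [(.s k3 k2 0 (.s k87 k171 13 (.s k86 k84 0 (.d k169 k253
  k252 13 14)))), (.s k127 k64 6 (.s k63 k191 7 (.s k21 k42 6 (.s k61 k41 5 (.s k253 k169 13 (.s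
  k125 k189 7 (.d k60 k190 k62 8 0))))))), (.s k3 k2 0 (.s k127 k64 6 (.s k63 k191 7 (.s k21 k42 6
  (.s k23 k43 5 (.s k22 k20 0 (.d k41 k61 k60 5 6)))))))] .n) (.c k213 (.q k1 [(.s k3 k2 0 (.s k87
  k171 13 (.s k86 k84 0 (.d k169 k253 k252 13 14)))), (.s k64 k127 6 (.s k169 k253 13 (.s k192 k128
  7 (.s k149 k63 14 (.s k129 k189 5 (.s k66 k3 8 (.d k65 k193 k67 7 0))))))), (.s k3 k2 0 (.s k64
  k127 6 (.s k192 k128 7 (.s k66 k129 8 (.s k86 k126 5 (.d k87 k84 k171 0 13))))))] (.c k3 (.l (.s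
  k127 k64 6 (.s k63 k191 7 (.s k21 k42 6 (.s k61 k41 5 (.s k60 k62 0 (.s k125 k190 8 (.d k253 k189
  k169 7 13)))))))) .n)) (.c k234 (.l (.s k127 k64 6 (.s k63 k191 7 (.s k21 k42 6 (.d k149 k213 k192
  7 14))))) .n))))))))))))

/-- roots with certificates -/
def certs : List (Cell TT 256 × Cell TT 256 × T TT 256) :=
  [(k5, k11, t5_11), (k5, k15, t5_15), (k5, k17, t5_17), (k5, k18, t5_18), (k5, k19, t5_19), (k5,
  k22, t5_22), (k5, k23, t5_23), (k5, k26, t5_26), (k5, k27, t5_27), (k5, k31, t5_31), (k5, k34,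
  t5_34), (k5, k35, t5_35), (k5, k38, t5_38), (k5, k39, t5_39), (k5, k42, t5_42), (k5, k43, t5_43),
  (k5, k47, t5_47), (k5, k50, t5_50), (k5, k51, t5_51), (k5, k54, t5_54), (k5, k58, t5_58), (k5,
  k59, t5_59), (k5, k63, t5_63), (k5, k80, t5_80), (k5, k82, t5_82), (k5, k83, t5_83), (k5, k90,
  t5_90), (k5, k91, t5_91), (k5, k95, t5_95), (k5, k98, t5_98), (k5, k99, t5_99), (k5, k106,
  t5_106), (k5, k107, t5_107), (k5, k111, t5_111), (k5, k114, t5_114), (k5, k122, t5_122), (k5,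
  k123, t5_123), (k5, k127, t5_127), (k5, k171, t5_171), (k5, k175, t5_175), (k5, k186, t5_186),
  (k5, k187, t5_187), (k5, k250, t5_250), (k6, k7, t6_7), (k6, k9, t6_9), (k6, k10, t6_10), (k6,
  k11, t6_11), (k6, k13, t6_13), (k6, k14, t6_14), (k6, k15, t6_15), (k6, k18, t6_18), (k6, k19,
  t6_19), (k6, k22, t6_22), (k6, k23, t6_23), (k6, k24, t6_24), (k6, k25, t6_25), (k6, k26, t6_26),
  (k6, k27, t6_27), (k6, k28, t6_28), (k6, k29, t6_29), (k6, k30, t6_30), (k6, k31, t6_31), (k6,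
  k34, t6_34), (k6, k35, t6_35), (k6, k36, t6_36), (k6, k37, t6_37), (k6, k38, t6_38), (k6, k39,
  t6_39)]

theorem c5_11 : rootOK k5 k11 t5_11 = true := by decide +kernel

theorem c5_15 : rootOK k5 k15 t5_15 = true := by decide +kernel

theorem c5_17 : rootOK k5 k17 t5_17 = true := by decide +kernel

theorem c5_18 : rootOK k5 k18 t5_18 = true := by decide +kernel

theorem c5_19 : rootOK k5 k19 t5_19 = true := by decide +kernel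

theorem c5_22 : rootOK k5 k22 t5_22 = true := by decide +kernel

theorem c5_23 : rootOK k5 k23 t5_23 = true := by decide +kernel

theorem c5_26 : rootOK k5 k26 t5_26 = true := by decide +kernel

theorem c5_27 : rootOK k5 k27 t5_27 = true := by decide +kernel

theorem c5_31 : rootOK k5 k31 t5_31 = true := by decide +kernel

theorem c5_34 : rootOK k5 k34 t5_34 = true := by decide +kernel

theorem c5_35 : rootOK k5 k35 t5_35 = true := by decide +kernel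

theorem c5_38 : rootOK k5 k38 t5_38 = true := by decide +kernel

theorem c5_39 : rootOK k5 k39 t5_39 = true := by decide +kernel

theorem c5_42 : rootOK k5 k42 t5_42 = true := by decide +kernel

theorem c5_43 : rootOK k5 k43 t5_43 = true := by decide +kernel

theorem c5_47 : rootOK k5 k47 t5_47 = true := by decide +kernel

theorem c5_50 : rootOK k5 k50 t5_50 = true := by decide +kernel

theorem c5_51 : rootOK k5 k51 t5_51 = true := by decide +kernel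

theorem c5_54 : rootOK k5 k54 t5_54 = true := by decide +kernel

theorem c5_58 : rootOK k5 k58 t5_58 = true := by decide +kernel

theorem c5_59 : rootOK k5 k59 t5_59 = true := by decide +kernel

theorem c5_63 : rootOK k5 k63 t5_63 = true := by decide +kernel

theorem c5_80 : rootOK k5 k80 t5_80 = true := by decide +kernel

theorem c5_82 : rootOK k5 k82 t5_82 = true := by decide +kernel

theorem c5_83 : rootOK k5 k83 t5_83 = true := by decide +kernel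

theorem c5_90 : rootOK k5 k90 t5_90 = true := by decide +kernel

theorem c5_91 : rootOK k5 k91 t5_91 = true := by decide +kernel

theorem c5_95 : rootOK k5 k95 t5_95 = true := by decide +kernel

theorem c5_98 : rootOK k5 k98 t5_98 = true := by decide +kernel

theorem c5_99 : rootOK k5 k99 t5_99 = true := by decide +kernel

theorem c5_106 : rootOK k5 k106 t5_106 = true := by decide +kernel

theorem c5_107 : rootOK k5 k107 t5_107 = true := by decide +kernel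

theorem c5_111 : rootOK k5 k111 t5_111 = true := by decide +kernel

theorem c5_114 : rootOK k5 k114 t5_114 = true := by decide +kernel

theorem c5_122 : rootOK k5 k122 t5_122 = true := by decide +kernel

theorem c5_123 : rootOK k5 k123 t5_123 = true := by decide +kernel

theorem c5_127 : rootOK k5 k127 t5_127 = true := by decide +kernel

theorem c5_171 : rootOK k5 k171 t5_171 = true := by decide +kernel

theorem c5_175 : rootOK k5 k175 t5_175 = true := by decide +kernel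

theorem c5_186 : rootOK k5 k186 t5_186 = true := by decide +kernel

theorem c5_187 : rootOK k5 k187 t5_187 = true := by decide +kernel

theorem c5_250 : rootOK k5 k250 t5_250 = true := by decide +kernel

theorem c6_7 : rootOK k6 k7 t6_7 = true := by decide +kernel

theorem c6_9 : rootOK k6 k9 t6_9 = true := by decide +kernel

theorem c6_10 : rootOK k6 k10 t6_10 = true := by decide +kernel

theorem c6_11 : rootOK k6 k11 t6_11 = true := by decide +kernel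

theorem c6_13 : rootOK k6 k13 t6_13 = true := by decide +kernel

theorem c6_14 : rootOK k6 k14 t6_14 = true := by decide +kernel

theorem c6_15 : rootOK k6 k15 t6_15 = true := by decide +kernel

theorem c6_18 : rootOK k6 k18 t6_18 = true := by decide +kernel

theorem c6_19 : rootOK k6 k19 t6_19 = true := by decide +kernel

theorem c6_22 : rootOK k6 k22 t6_22 = true := by decide +kernel

theorem c6_23 : rootOK k6 k23 t6_23 = true := by decide +kernel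

theorem c6_24 : rootOK k6 k24 t6_24 = true := by decide +kernel

theorem c6_25 : rootOK k6 k25 t6_25 = true := by decide +kernel

theorem c6_26 : rootOK k6 k26 t6_26 = true := by decide +kernel

theorem c6_27 : rootOK k6 k27 t6_27 = true := by decide +kernel

theorem c6_28 : rootOK k6 k28 t6_28 = true := by decide +kernel

theorem c6_29 : rootOK k6 k29 t6_29 = true := by decide +kernel

theorem c6_30 : rootOK k6 k30 t6_30 = true := by decide +kernel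

theorem c6_31 : rootOK k6 k31 t6_31 = true := by decide +kernel

theorem c6_34 : rootOK k6 k34 t6_34 = true := by decide +kernel

theorem c6_35 : rootOK k6 k35 t6_35 = true := by decide +kernel

theorem c6_36 : rootOK k6 k36 t6_36 = true := by decide +kernel

theorem c6_37 : rootOK k6 k37 t6_37 = true := by decide +kernel

theorem c6_38 : rootOK k6 k38 t6_38 = true := by decide +kernel

theorem c6_39 : rootOK k6 k39 t6_39 = true := by decide +kernel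

theorem ok : certsOK certs = true :=
  certsOK_cons c5_11 (certsOK_cons c5_15 (certsOK_cons c5_17 (certsOK_cons c5_18 (
  certsOK_cons c5_19 (certsOK_cons c5_22 (certsOK_cons c5_23 (certsOK_cons c5_26 (
  certsOK_cons c5_27 (certsOK_cons c5_31 (certsOK_cons c5_34 (certsOK_cons c5_35 (
  certsOK_cons c5_38 (certsOK_cons c5_39 (certsOK_cons c5_42 (certsOK_cons c5_43 (
  certsOK_cons c5_47 (certsOK_cons c5_50 (certsOK_cons c5_51 (certsOK_cons c5_54 (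
  certsOK_cons c5_58 (certsOK_cons c5_59 (certsOK_cons c5_63 (certsOK_cons c5_80 (
  certsOK_cons c5_82 (certsOK_cons c5_83 (certsOK_cons c5_90 (certsOK_cons c5_91 (
  certsOK_cons c5_95 (certsOK_cons c5_98 (certsOK_cons c5_99 (certsOK_cons c5_106 (
  certsOK_cons c5_107 (certsOK_cons c5_111 (certsOK_cons c5_114 (certsOK_cons c5_122 (
  certsOK_cons c5_123 (certsOK_cons c5_127 (certsOK_cons c5_171 (certsOK_cons c5_175 (
  certsOK_cons c5_186 (certsOK_cons c5_187 (certsOK_cons c5_250 (certsOK_cons c6_7 (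
  certsOK_cons c6_9 (certsOK_cons c6_10 (certsOK_cons c6_11 (certsOK_cons c6_13 (
  certsOK_cons c6_14 (certsOK_cons c6_15 (certsOK_cons c6_18 (certsOK_cons c6_19 (
  certsOK_cons c6_22 (certsOK_cons c6_23 (certsOK_cons c6_24 (certsOK_cons c6_25 (
  certsOK_cons c6_26 (certsOK_cons c6_27 (certsOK_cons c6_28 (certsOK_cons c6_29 (
  certsOK_cons c6_30 (certsOK_cons c6_31 (certsOK_cons c6_34 (certsOK_cons c6_35 (
  certsOK_cons c6_36 (certsOK_cons c6_37 (certsOK_cons c6_38 (certsOK_cons c6_39 (certsOK_nil))))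
  ))))))))))))))))))))))))))))))))))))))))))))))))))))))))))))))))

theorem sound (k : Nat) (hk : (bits certs).testBit k = true) : PI k :=
  certs_sound certs ok k hk

end Pool.Agent.TTT.A06
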