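import Pool.Agent.TTT.Sym

set_option autoImplicit false
set_option maxRecDepth 100000

namespace Pool.Agent.TTT.A07

def t6_40 : T TT 256 :=
  (.f k170 k255 14 (.q k243 [(.s k81 k162 12 (.s k89 k93 1 (.s k8 k251 12 (.d k12 k4 k166 1 14))))]
  (.c k4 (.q k5 [(.s k165 k245 11 (.s k160 k175 2 (.s k240 k80 11 (.d k15 k10 k90 2 14)))), (.s k10
  k15 2 (.s k81 k162 12 (.s k89 k93 1 (.s k8 k251 12 (.s k9 k11 0 (.s k1 k13 1 (.d k169 k253 k249 13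
  11))))))), (.s k81 k162 12 (.s k89 k93 1 (.s k165 k245 11 (.s k241 k13 13 (.s k240 k242 0 (.d k160
  k175 k80 2 11))))))] (.c k175 (.l (.s k15 k10 2 (.s k162 k81 12 (.s k165 k245 11 (.s k166 k174 1
  (.d k167 k164 k91 0 13)))))) .n)) (.c k8 (.f k81 k162 12 (.q k105 [(.s k65 k125 5 (.s k97 k113 3
  (.s k195 k130 8 (.s k146 k48 12 (.d k211 k227 k16 3 8))))), (.s k89 k93 1 (.s k12 k166 14 (.s k73
  k121 3 (.s k195 k134 10 (.d k65 k125 k130 5 8))))), (.s k89 k93 1 (.s k12 k166 14 (.s k73 k121 3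
  (.s k195 k134 10 (.s k150 k60 14 (.d k211 k227 k28 3 10))))))] (.c k24 (.q k56 [(.s k89 k93 1 (.s
  k121 k73 3 (.s k186 k251 8 (.d k154 k138 k203 3 12)))), (.s k65 k125 5 (.s k97 k113 3 (.s k195
  k130 8 (.s k60 k150 14 (.d k48 k146 k52 12 1)))))] (.c k121 (.l (.s k65 k125 5 (.s k89 k93 1 (.s
  k195 k130 8 (.s k211 k227 3 (.d k150 k60 k28 14 10)))))) .n)) (.c k56 (.q k24 [(.s k89 k93 1 (.s
  k12 k166 14 (.s k48 k36 5 (.s k154 k219 8 (.d k16 k32 k223 3 10))))), (.s k65 k125 5 (.s k97 k113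
  3 (.s k195 k130 8 (.s k146 k48 12 (.d k211 k227 k16 3 8))))), (.s k65 k125 5 (.s k89 k93 1 (.s k12
  k166 14 (.s k73 k121 3 (.d k195 k130 k134 8 10)))))] .n) (.c k121 (.l (.s k65 k125 5 (.s k89 k93 1
  (.s k195 k130 8 (.s k211 k227 3 (.d k150 k60 k28 14 10)))))) (.c k125 (.l (.s k89 k93 1 (.s k12
  k166 14 (.s k73 k121 3 (.s k195 k134 10 (.s k130 k65 8 (.d k150 k190 k60 5 14))))))) (.c k195 (.l
  (.s k65 k125 5 (.s k89 k93 1 (.s k73 k121 3 (.s k77 k69 1 (.d k113 k97 k101 3 5)))))) .n)))))))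
  (.c k12 (.f k162 k81 12 (.q k3 [(.s k1 k2 0 (.s k169 k253 13 (.s k168 k171 0 (.d k252 k84 k86 13
  14)))), (.s k2 k1 0 (.s k82 k242 11 (.s k161 k240 12 (.d k163 k160 k83 0 11))))] (.c k1 (.l (.s
  k163 k83 11 (.s k161 k160 0 (.s k82 k240 12 (.s k2 k242 11 (.s k86 k254 13 (.s k84 k87 0 (.d k252
  k168 k169 13 14)))))))) (.c k2 (.l (.s k163 k83 11 (.s k160 k161 0 (.s k175 k165 2 (.s k171 k167 1
  (.s k169 k168 0 (.d k166 k174 k172 1 2))))))) (.c k93 (.l (.s k174 k166 1 (.s k1 k2 0 (.s k169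
  k253 13 (.s k168 k171 0 (.d k252 k86 k84 14 13)))))) (.c k174 (.q k93 [(.s k1 k2 0 (.s k169 k253
  13 (.s k168 k171 0 (.d k252 k84 k86 13 14)))), (.s k2 k1 0 (.s k82 k242 11 (.s k161 k240 12 (.d
  k163 k160 k83 0 11))))] (.c k1 (.l (.s k163 k83 11 (.s k161 k160 0 (.s k82 k240 12 (.s k2 k242 11
  (.s k86 k254 13 (.s k84 k87 0 (.d k252 k168 k169 13 14)))))))) (.c k2 (.q k10 [(.s k15 k5 2 (.s
  k90 k250 11 (.s k80 k95 2 (.d k240 k160 k165 11 14)))), (.s k5 k15 2 (.s k163 k83 11 (.s k160 k161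
  0 (.d k165 k175 k245 2 11)))), (.s k15 k5 2 (.s k90 k250 11 (.s k91 k167 13 (.s k89 k88 0 (.s k8
  k251 12 (.d k11 k7 k9 1 0)))))), (.s k90 k250 11 (.s k163 k83 11 (.s k160 k161 0 (.d k80 k240 k95
  11 2))))] (.c k245 (.l (.s k15 k5 2 (.s k90 k250 11 (.s k240 k165 14 (.d k80 k95 k160 2 11)))))
  .n)) .n))) .n)))))) (.c k81 (.q k106 [(.s k42 k234 7 (.s k63 k21 6 (.s k64 k127 6 (.d k192 k128
  k149 7 14)))), (.s k64 k127 6 (.s k192 k128 7 (.s k226 k209 4 (.s k166 k46 9 (.s k4 k247 12 (.d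
  k12 k8 k89 1 14)))))), (.s k42 k234 7 (.s k63 k21 6 (.s k123 k183 9 (.s k89 k72 4 (.s k8 k251 12
  (.d k12 k4 k166 1 14))))))] (.c k63 (.q k153 [(.s k17 k221 9 (.s k51 k34 4 (.s k136 k187 4 (.d
  k204 k68 k102 9 14)))), (.s k42 k234 7 (.s k59 k200 12 (.s k8 k25 4 (.s k12 k4 1 (.d k89 k251 k166
  12 14)))))] (.c k127 (.q k191 [(.s k17 k221 9 (.s k51 k34 4 (.s k136 k187 4 (.d k204 k68 k102 9
  14)))), (.s k42 k234 7 (.s k59 k200 12 (.s k8 k25 4 (.s k12 k4 1 (.d k89 k251 k166 12 14)))))] .n)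
  (.c k191 (.l (.s k127 k64 6 (.s k17 k221 9 (.s k51 k34 4 (.s k136 k187 4 (.d k204 k68 k102 9
  14)))))) .n))) (.c k192 (.q k74 [(.s k64 k127 6 (.s k79 k69 2 (.s k90 k122 3 (.s k80 k95 2 (.d
  k112 k96 k101 3 6))))), (.s k90 k122 3 (.s k10 k250 11 (.s k15 k5 2 (.s k80 k95 2 (.d k240 k160
  k165 11 14))))), (.s k64 k127 6 (.s k69 k79 2 (.s k138 k207 10 (.s k154 k186 3 (.d k202 k10 k58 7
  11))))), (.s k64 k127 6 (.s k90 k122 3 (.s k10 k250 11 (.s k138 k202 7 (.d k69 k207 k79 10 2)))))]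
  (.c k213 (.l (.s k234 k42 7 (.s k64 k127 6 (.s k69 k79 2 (.s k90 k122 3 (.s k10 k250 11 (.d k138
  k202 k207 7 10))))))) (.c k234 (.q k213 [(.s k64 k127 6 (.s k79 k69 2 (.s k90 k122 3 (.s k80 k95 2
  (.d k112 k96 k101 3 6))))), (.s k90 k122 3 (.s k10 k250 11 (.s k15 k5 2 (.s k80 k95 2 (.d k240
  k160 k165 11 14))))), (.s k64 k127 6 (.s k69 k79 2 (.s k138 k207 10 (.s k154 k186 3 (.d k202 k10
  k58 7 11))))), (.s k21 k149 7 (.s k42 k63 6 (.s k90 k122 3 (.s k10 k250 11 (.s k58 k26 3 (.d k202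
  k138 k154 7 11))))))] .n) .n))) .n))) (.c k89 (.q k1 [(.s k169 k253 13 (.s k168 k171 0 (.s k252
  k84 13 (.d k3 k2 k86 0 14)))), (.s k81 k162 12 (.s k241 k161 11 (.s k240 k242 0 (.s k160 k80 11
  (.s k165 k175 2 (.s k5 k245 11 (.d k15 k10 k90 2 14)))))))] (.c k2 (.l (.s k162 k81 12 (.s k166
  k174 1 (.s k169 k253 13 (.s k163 k172 2 (.s k3 k83 11 (.s k168 k171 0 (.d k252 k86 k84 14
  13)))))))) .n)) (.c k93 (.l (.s k162 k81 12 (.s k166 k174 1 (.s k12 k89 14 (.d k4 k8 k247 1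
  12))))) (.c k162 (.q k86 [(.s k2 k254 13 (.s k3 k1 0 (.s k84 k87 0 (.d k252 k168 k169 13 14)))),
  (.s k84 k87 0 (.s k252 k168 13 (.s k3 k169 14 (.s k83 k163 11 (.s k89 k92 2 (.s k8 k251 12 (.d k12
  k166 k4 14 1))))))), (.s k2 k254 13 (.s k3 k1 0 (.s k83 k163 11 (.s k89 k92 2 (.s k8 k251 12 (.d
  k12 k4 k166 1 14))))))] (.c k3 (.f k87 k84 0 (.q k12 [(.s k4 k8 1 (.d k166 k247 k89 12 14)), (.s
  k89 k166 14 (.s k81 k93 1 (.s k83 k92 2 (.s k80 k82 0 (.d k95 k91 k90 1 2)))))] (.c k89 (.f k4 k8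
  1 (.l (.s k247 k166 12 (.s k7 k167 11 (.s k165 k244 12 (.s k5 k245 11 (.s k15 k10 2 (.s k160 k175
  2 (.d k240 k80 k90 11 14))))))))) (.c k166 (.l (.s k8 k4 1 (.s k89 k251 12 (.s k81 k93 1 (.s k83
  k92 2 (.s k80 k82 0 (.d k95 k91 k90 1 2))))))) .n)))) (.c k252 (.q k128 [(.s k192 k64 7 (.s k149
  k191 6 (.s k63 k106 14 (.d k21 k42 k213 6 7)))), (.s k64 k192 7 (.s k84 k87 0 (.s k124 k104 5 (.s
  k67 k105 6 (.s k66 k65 0 (.d k106 k126 k127 5 6)))))), (.s k84 k87 0 (.s k149 k191 6 (.s k212 k23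
  8 (.s k20 k148 7 (.s k213 k21 7 (.d k215 k214 k150 0 8))))))] (.c k127 (.l (.s k192 k64 7 (.s k149
  k191 6 (.s k63 k106 14 (.d k21 k42 k213 6 7))))) (.c k213 (.l (.s k149 k191 6 (.s k23 k212 8 (.s
  k192 k64 7 (.s k63 k106 14 (.s k3 k43 5 (.d k2 k1 k254 0 13))))))) (.c k253 (.l (.s k254 k2 13 (.s
  k149 k191 6 (.s k21 k213 7 (.s k63 k42 6 (.d k192 k64 k106 7 14)))))) (.c k254 (.q k253 [(.s k192
  k64 7 (.s k149 k191 6 (.s k63 k106 14 (.d k21 k42 k213 6 7)))), (.s k1 k169 13 (.s k3 k2 0 (.s k83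
  k163 11 (.s k89 k92 2 (.s k8 k251 12 (.d k12 k166 k4 14 1))))))] .n) .n))))) .n))) (.c k166 (.q
  k86 [(.s k2 k254 13 (.s k3 k1 0 (.s k84 k87 0 (.d k252 k168 k169 13 14)))), (.s k81 k162 12 (.s
  k87 k84 0 (.s k89 k93 1 (.s k83 k92 2 (.s k80 k82 0 (.d k95 k91 k90 1 2)))))), (.s k2 k254 13 (.s
  k3 k1 0 (.s k81 k162 12 (.s k83 k163 11 (.d k89 k93 k92 1 2)))))] (.c k2 (.l (.s k81 k162 12 (.s
  k84 k87 0 (.s k89 k93 1 (.s k83 k92 2 (.s k3 k163 11 (.d k252 k169 k168 14 13))))))) .n)) (.c k174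
  (.l (.s k81 k162 12 (.s k89 k93 1 (.s k12 k166 14 (.d k8 k4 k251 1 12))))) (.c k251 (.l (.s k162
  k81 12 (.s k166 k174 1 (.s k4 k247 12 (.d k12 k8 k89 1 14))))) .n))))))))))))

def t6_41 : T TT 256 :=
  (.f k255 k170 14 (.q k106 [(.s k64 k127 6 (.s k192 k128 7 (.s k149 k63 14 (.d k213 k234 k21 6
  7))))] (.c k21 (.q k1 [(.s k169 k253 13 (.s k3 k2 0 (.s k86 k252 14 (.d k87 k84 k171 0 13)))), (.s
  k64 k127 6 (.s k169 k253 13 (.s k192 k128 7 (.s k149 k63 14 (.s k129 k189 5 (.s k65 k193 7 (.d k66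
  k67 k3 0 8))))))), (.s k3 k2 0 (.s k64 k127 6 (.s k192 k128 7 (.s k66 k129 8 (.s k86 k126 5 (.d
  k87 k84 k171 0 13))))))] (.c k3 (.l (.s k127 k64 6 (.s k63 k191 7 (.s k253 k169 13 (.s k252 k254 0
  (.s k126 k189 8 (.s k86 k66 5 (.d k84 k168 k87 13 0)))))))) .n)) (.c k63 (.q k3 [(.s k87 k171 13
  (.s k86 k84 0 (.s k169 k252 14 (.d k1 k2 k253 0 13)))), (.s k2 k1 0 (.s k64 k127 6 (.s k192 k128 7
  (.s k66 k129 8 (.s k65 k67 0 (.d k130 k194 k195 7 8)))))), (.s k64 k127 6 (.s k87 k171 13 (.s k86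
  k84 0 (.s k66 k126 5 (.d k192 k128 k129 7 8)))))] (.c k87 (.l (.s k1 k2 0 (.s k64 k127 6 (.s k169
  k253 13 (.s k86 k252 14 (.s k192 k128 7 (.d k66 k126 k129 5 8))))))) .n)) (.c k64 (.q k60 [(.s
  k125 k190 8 (.s k105 k65 5 (.s k150 k195 14 (.d k20 k40 k215 5 8)))), (.s k20 k40 5 (.s k150 k215
  8 (.s k62 k194 13 (.s k63 k61 0 (.s k149 k192 14 (.d k21 k42 k213 6 7)))))), (.s k125 k190 8 (.s
  k105 k65 5 (.s k104 k107 0 (.s k192 k148 13 (.s k213 k234 6 (.d k149 k21 k63 7 14))))))] (.c k105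
  (.f k40 k20 5 (.q k169 [(.s k1 k253 13 (.s k3 k2 0 (.s k86 k252 14 (.d k87 k84 k171 0 13)))), (.s
  k232 k43 8 (.s k104 k168 7 (.s k192 k148 13 (.s k149 k63 14 (.d k213 k234 k21 6 7))))), (.s k232
  k43 8 (.s k104 k168 7 (.s k253 k1 13 (.s k252 k254 0 (.d k192 k212 k148 5 13)))))] .n)) (.c k150
  (.q k126 [(.s k86 k66 5 (.s k84 k87 0 (.s k190 k125 8 (.s k254 k62 7 (.d k252 k253 k168 0 13))))),
  (.s k190 k125 8 (.s k62 k254 7 (.s k63 k61 0 (.s k21 k42 6 (.d k149 k213 k192 7 14))))), (.s k86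
  k66 5 (.s k84 k87 0 (.s k252 k168 13 (.s k124 k188 7 (.d k125 k190 k127 8 0)))))] (.c k86 (.l (.s
  k190 k125 8 (.s k254 k62 7 (.s k252 k253 0 (.s k188 k124 7 (.d k189 k191 k63 0 8)))))) (.c k125
  (.l (.s k86 k66 5 (.s k84 k87 0 (.s k252 k168 13 (.s k169 k3 14 (.d k253 k254 k1 0 13)))))) (.c
  k130 (.l (.s k190 k125 8 (.s k62 k254 7 (.s k63 k61 0 (.s k21 k42 6 (.d k149 k213 k192 7 14))))))
  (.c k190 (.q k130 [(.s k86 k66 5 (.s k84 k87 0 (.s k252 k168 13 (.s k253 k254 0 (.d k169 k1 k3 13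
  14))))), (.s k65 k195 8 (.s k105 k125 5 (.s k104 k107 0 (.s k192 k148 13 (.s k213 k234 6 (.d k149
  k63 k21 14 7))))))] (.c k65 (.f k66 k86 5 (.l (.s k2 k194 7 (.s k1 k3 0 (.s k253 k169 13 (.s k252
  k254 0 (.s k63 k189 8 (.s k21 k42 6 (.d k149 k213 k192 7 14))))))))) .n)) .n))))) .n))) (.c k127
  (.q k195 [(.s k65 k130 8 (.s k215 k235 5 (.s k150 k20 8 (.d k105 k125 k60 5 14)))), (.s k65 k130 8
  (.s k105 k125 5 (.s k107 k104 0 (.s k63 k151 13 (.s k21 k42 6 (.d k149 k213 k192 7 14)))))), (.s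
  k215 k235 5 (.s k150 k20 8 (.s k194 k62 13 (.s k192 k193 0 (.s k149 k63 14 (.d k213 k234 k21 6
  7))))))] (.c k40 (.l (.s k65 k130 8 (.s k105 k125 5 (.s k150 k60 14 (.d k215 k235 k20 5 8))))) (.c
  k105 (.f k235 k215 5 (.q k169 [(.s k1 k253 13 (.s k43 k232 8 (.s k171 k107 7 (.d k3 k87 k2 13
  0)))), (.s k232 k43 8 (.s k233 k234 0 (.s k252 k214 6 (.d k253 k254 k1 0 13)))), (.s k43 k232 8
  (.s k107 k171 7 (.s k63 k151 13 (.s k21 k42 6 (.d k149 k213 k192 7 14))))), (.s k1 k253 13 (.s k3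
  k2 0 (.s k86 k252 14 (.d k87 k84 k171 0 13))))] .n)) (.c k150 (.q k149 [(.s k21 k213 7 (.d k63 k42
  k192 6 14)), (.s k63 k192 14 (.s k107 k151 13 (.s k105 k104 0 (.d k65 k130 k125 8 5))))] (.c k63
  (.l (.s k213 k21 7 (.s k192 k234 6 (.s k193 k194 0 (.s k215 k235 5 (.s k214 k212 0 (.d k233 k253
  k252 5 6))))))) (.c k130 (.q k190 [(.s k21 k213 7 (.d k63 k42 k192 6 14)), (.s k63 k192 14 (.s
  k107 k151 13 (.s k105 k104 0 (.d k125 k60 k65 8 5))))] (.c k63 (.l (.s k125 k60 8 (.s k105 k65 5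
  (.s k213 k21 7 (.s k192 k234 6 (.d k193 k61 k194 13 0)))))) (.c k192 (.l (.s k21 k213 7 (.s k63
  k42 6 (.s k107 k151 13 (.s k105 k104 0 (.d k125 k60 k65 8 5)))))) .n))) (.c k190 (.l (.s k130 k65
  8 (.s k21 k213 7 (.d k63 k42 k192 6 14)))) (.c k192 (.l (.s k21 k213 7 (.s k63 k42 6 (.s k107 k151
  13 (.s k105 k104 0 (.d k65 k125 k130 5 8)))))) .n))))) .n)))) (.c k128 (.l (.s k127 k64 6 (.s k63
  k191 7 (.s k149 k192 14 (.d k21 k42 k213 6 7))))) (.c k149 (.f k127 k64 6 (.q k107 [(.s k67 k87 5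
  (.s k105 k104 0 (.s k125 k65 5 (.d k124 k126 k86 0 6)))), (.s k87 k67 5 (.s k3 k171 13 (.s k1 k2 0
  (.s k169 k253 13 (.d k86 k84 k252 0 14))))), (.s k105 k104 0 (.s k65 k125 5 (.s k195 k130 8 (.d
  k63 k191 k151 7 13))))] (.c k65 (.l (.s k67 k87 5 (.s k105 k104 0 (.s k124 k86 6 (.s k125 k126 0
  (.s k60 k190 8 (.s k20 k40 5 (.d k150 k215 k195 8 14)))))))) (.c k84 (.l (.s k67 k87 5 (.s k105
  k104 0 (.s k124 k86 6 (.d k125 k126 k65 0 5))))) (.c k128 (.l (.s k191 k63 7 (.s k67 k87 5 (.s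
  k105 k104 0 (.s k124 k86 6 (.d k125 k126 k65 0 5)))))) (.c k191 (.q k128 [(.s k67 k87 5 (.s k105
  k104 0 (.s k125 k65 5 (.d k124 k126 k86 0 6)))), (.s k87 k67 5 (.s k3 k171 13 (.s k1 k2 0 (.s k169
  k253 13 (.d k86 k84 k252 0 14))))), (.s k105 k104 0 (.s k65 k125 5 (.s k195 k130 8 (.s k150 k60 14
  (.d k215 k235 k20 5 8)))))] (.c k65 (.l (.s k67 k87 5 (.s k105 k104 0 (.s k124 k86 6 (.s k125 k126
  0 (.s k60 k190 8 (.s k20 k40 5 (.d k150 k215 k195 8 14)))))))) (.c k84 (.l (.s k67 k87 5 (.s k105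
  k104 0 (.s k124 k86 6 (.d k125 k126 k65 0 5))))) .n))) .n)))))) (.c k191 (.l (.s k64 k127 6 (.s
  k192 k128 7 (.s k149 k63 14 (.d k213 k234 k21 6 7))))) (.c k192 (.q k4 [(.s k12 k8 1 (.s k93 k174
  12 (.s k89 k81 1 (.d k166 k247 k243 12 14)))), (.s k127 k64 6 (.s k63 k191 7 (.s k21 k42 6 (.s k55
  k38 4 (.s k247 k166 12 (.s k119 k183 7 (.d k51 k187 k59 9 1))))))), (.s k12 k8 1 (.s k127 k64 6
  (.s k63 k191 7 (.s k21 k42 6 (.s k29 k46 4 (.s k25 k17 1 (.d k38 k55 k51 4 6)))))))] .n) (.c k213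
  (.q k1 [(.s k3 k2 0 (.s k87 k171 13 (.s k86 k84 0 (.d k169 k253 k252 13 14)))), (.s k64 k127 6 (.s
  k169 k253 13 (.s k192 k128 7 (.s k149 k63 14 (.s k129 k189 5 (.s k66 k3 8 (.d k65 k193 k67 7
  0))))))), (.s k3 k2 0 (.s k64 k127 6 (.s k192 k128 7 (.s k66 k129 8 (.s k86 k126 5 (.d k87 k84
  k171 0 13))))))] (.c k3 (.l (.s k127 k64 6 (.s k63 k191 7 (.s k253 k169 13 (.s k252 k254 0 (.s
  k126 k189 8 (.s k86 k66 5 (.d k84 k168 k87 13 0)))))))) .n)) (.c k234 (.l (.s k127 k64 6 (.s k63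
  k191 7 (.s k21 k42 6 (.d k149 k213 k192 7 14))))) .n))))))))))))

def t6_42 : T TT 256 :=
  (.f k170 k255 14 (.q k243 [(.s k81 k162 12 (.s k89 k93 1 (.s k8 k251 12 (.d k12 k4 k166 1 14))))]
  (.c k4 (.q k5 [(.s k165 k245 11 (.s k160 k175 2 (.s k240 k80 11 (.d k15 k10 k90 2 14)))), (.s k10
  k15 2 (.s k81 k162 12 (.s k89 k93 1 (.s k8 k251 12 (.s k9 k11 0 (.s k1 k13 1 (.d k169 k253 k249 13
  11))))))), (.s k81 k162 12 (.s k89 k93 1 (.s k165 k245 11 (.s k241 k13 13 (.s k240 k242 0 (.d k160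
  k175 k80 2 11))))))] (.c k175 (.l (.s k15 k10 2 (.s k162 k81 12 (.s k165 k245 11 (.s k166 k174 1
  (.d k167 k164 k91 0 13)))))) .n)) (.c k8 (.f k81 k162 12 (.q k105 [(.s k40 k235 8 (.s k60 k20 5
  (.s k65 k125 5 (.d k195 k130 k150 8 14)))), (.s k89 k93 1 (.s k121 k73 3 (.s k60 k182 10 (.d k40
  k20 k235 5 8)))), (.s k89 k93 1 (.s k12 k166 14 (.s k73 k121 3 (.s k195 k134 10 (.d k65 k125 k130
  5 8)))))] (.c k25 (.q k59 [(.s k40 k235 8 (.s k60 k20 5 (.s k65 k125 5 (.d k195 k130 k150 8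
  14)))), (.s k89 k93 1 (.s k121 k73 3 (.s k60 k182 10 (.d k40 k20 k235 5 8)))), (.s k89 k93 1 (.s
  k12 k166 14 (.s k73 k121 3 (.s k195 k134 10 (.d k65 k125 k130 5 8)))))] .n) (.c k59 (.q k25 [(.s
  k40 k235 8 (.s k60 k20 5 (.s k65 k125 5 (.d k195 k130 k150 8 14)))), (.s k89 k93 1 (.s k12 k166 14
  (.s k51 k38 6 (.s k153 k217 7 (.d k17 k34 k221 4 9)))))] .n) .n)))) (.c k12 (.f k162 k81 12 (.q k3
  [(.s k2 k1 0 (.s k82 k242 11 (.s k161 k240 12 (.d k163 k160 k83 0 11)))), (.s k1 k2 0 (.s k169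
  k253 13 (.s k168 k171 0 (.d k252 k84 k86 13 14))))] (.c k1 (.l (.s k163 k83 11 (.s k161 k160 0 (.s
  k82 k240 12 (.s k2 k242 11 (.s k86 k254 13 (.s k84 k87 0 (.d k252 k168 k169 13 14)))))))) (.c k2
  (.l (.s k163 k83 11 (.s k160 k161 0 (.s k175 k165 2 (.s k171 k167 1 (.s k169 k168 0 (.d k166 k174
  k172 1 2))))))) (.c k93 (.l (.s k174 k166 1 (.s k1 k2 0 (.s k169 k253 13 (.s k168 k171 0 (.d k252
  k86 k84 14 13)))))) (.c k174 (.q k93 [(.s k1 k2 0 (.s k169 k253 13 (.s k168 k171 0 (.d k252 k84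
  k86 13 14)))), (.s k2 k1 0 (.s k82 k242 11 (.s k161 k240 12 (.d k163 k160 k83 0 11))))] (.c k1 (.l
  (.s k163 k83 11 (.s k161 k160 0 (.s k82 k240 12 (.s k2 k242 11 (.s k86 k254 13 (.s k84 k87 0 (.d
  k252 k168 k169 13 14)))))))) (.c k2 (.f k163 k83 11 (.l (.s k160 k161 0 (.s k80 k240 11 (.s k175
  k165 2 (.s k167 k171 1 (.s k15 k91 13 (.s k10 k5 2 (.d k90 k95 k250 2 11))))))))) .n))) .n))))))
  (.c k81 (.q k165 [(.s k5 k245 11 (.s k160 k175 2 (.s k240 k80 11 (.d k15 k10 k90 2 14)))), (.s k5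
  k245 11 (.s k15 k10 2 (.s k167 k91 13 (.s k166 k164 0 (.s k4 k247 12 (.d k12 k8 k89 1 14)))))),
  (.s k160 k175 2 (.s k240 k80 11 (.s k241 k242 0 (.s k89 k13 13 (.s k8 k251 12 (.d k12 k4 k166 1
  14))))))] (.c k15 (.q k101 [(.s k32 k239 10 (.s k69 k117 3 (.s k207 k138 10 (.d k48 k16 k154 3
  14)))), (.s k5 k245 11 (.s k37 k229 7 (.s k53 k21 3 (.s k197 k149 11 (.d k69 k117 k133 3 7))))),
  (.s k175 k160 2 (.s k229 k37 7 (.s k239 k32 10 (.s k47 k111 7 (.d k224 k234 k106 2 10)))))] (.c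
  k95 (.l (.s k175 k160 2 (.s k32 k239 10 (.s k48 k16 3 (.s k69 k117 3 (.d k207 k138 k154 10
  14)))))) (.c k175 (.q k95 [(.s k69 k117 3 (.s k207 k138 10 (.s k48 k154 14 (.d k32 k16 k239 3
  10)))), (.s k5 k245 11 (.s k37 k229 7 (.s k53 k21 3 (.s k197 k149 11 (.d k69 k117 k133 3 7))))),
  (.s k32 k239 10 (.s k48 k16 3 (.s k80 k90 2 (.s k207 k154 14 (.s k229 k37 7 (.d k240 k218 k160 6
  11))))))] .n) .n))) (.c k240 (.q k163 [(.s k175 k160 2 (.s k167 k171 1 (.s k15 k91 13 (.d k5 k245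
  k10 11 2)))), (.s k3 k83 11 (.s k2 k1 0 (.s k86 k254 13 (.s k84 k87 0 (.d k252 k168 k169 13
  14))))), (.s k160 k175 2 (.s k161 k162 0 (.s k169 k173 1 (.s k172 k166 2 (.d k168 k171 k164 0
  1)))))] (.c k245 (.q k250 [(.s k10 k90 11 (.s k175 k160 2 (.s k167 k171 1 (.d k15 k5 k91 2 13)))),
  (.s k3 k83 11 (.s k2 k1 0 (.s k86 k254 13 (.s k84 k87 0 (.d k252 k168 k169 13 14))))), (.s k10 k90
  11 (.s k15 k5 2 (.s k167 k91 13 (.d k175 k171 k160 1 2))))] (.c k91 (.l (.s k3 k83 11 (.s k1 k2 0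
  (.s k160 k175 2 (.s k161 k162 0 (.d k169 k173 k253 1 13)))))) .n)) (.c k250 (.l (.s k245 k5 11 (.s
  k3 k83 11 (.s k1 k2 0 (.s k160 k175 2 (.s k161 k162 0 (.d k169 k173 k253 1 13))))))) .n))) .n)))
  (.c k89 (.q k1 [(.s k169 k253 13 (.s k168 k171 0 (.s k252 k84 13 (.d k3 k2 k86 0 14)))), (.s k81
  k162 12 (.s k241 k161 11 (.s k240 k242 0 (.s k160 k80 11 (.s k165 k175 2 (.s k5 k245 11 (.d k15
  k10 k90 2 14)))))))] (.c k2 (.l (.s k162 k81 12 (.s k166 k174 1 (.s k169 k253 13 (.s k163 k172 2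
  (.s k3 k83 11 (.s k168 k171 0 (.d k252 k86 k84 14 13)))))))) .n)) (.c k93 (.l (.s k162 k81 12 (.s
  k166 k174 1 (.s k12 k89 14 (.d k4 k8 k247 1 12))))) (.c k162 (.q k86 [(.s k2 k254 13 (.s k3 k1 0
  (.s k84 k87 0 (.d k252 k168 k169 13 14)))), (.s k84 k87 0 (.s k252 k168 13 (.s k3 k169 14 (.s k83
  k163 11 (.s k89 k92 2 (.s k8 k251 12 (.d k12 k166 k4 14 1))))))), (.s k2 k254 13 (.s k3 k1 0 (.s
  k83 k163 11 (.s k89 k92 2 (.s k8 k251 12 (.d k12 k4 k166 1 14))))))] (.c k3 (.f k87 k84 0 (.q k12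
  [(.s k4 k8 1 (.d k166 k247 k89 12 14)), (.s k89 k166 14 (.s k81 k93 1 (.s k83 k92 2 (.s k80 k82 0
  (.d k95 k91 k90 1 2)))))] (.c k89 (.f k4 k8 1 (.l (.s k247 k166 12 (.s k7 k167 11 (.s k165 k244 12
  (.s k5 k245 11 (.s k15 k10 2 (.s k160 k175 2 (.d k240 k80 k90 11 14))))))))) (.c k166 (.l (.s k8
  k4 1 (.s k89 k251 12 (.s k81 k93 1 (.s k83 k92 2 (.s k80 k82 0 (.d k95 k91 k90 1 2))))))) .n))))
  (.c k252 (.q k128 [(.s k149 k191 6 (.s k23 k212 8 (.s k192 k64 7 (.s k63 k106 14 (.s k3 k43 5 (.d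
  k2 k254 k1 13 0)))))), (.s k149 k191 6 (.s k192 k64 7 (.s k209 k226 4 (.s k89 k29 9 (.s k8 k251 12
  (.d k12 k4 k166 1 14)))))), (.s k64 k192 7 (.s k84 k87 0 (.s k124 k104 5 (.s k67 k105 6 (.s k66
  k65 0 (.d k106 k126 k127 5 6)))))), (.s k84 k87 0 (.s k149 k191 6 (.s k212 k23 8 (.s k20 k148 7
  (.s k213 k21 7 (.d k215 k214 k150 0 8))))))] (.c k127 (.l (.s k192 k64 7 (.s k149 k191 6 (.s k63
  k106 14 (.s k23 k212 8 (.s k3 k43 5 (.d k2 k1 k254 0 13))))))) (.c k253 (.l (.s k254 k2 13 (.s k64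
  k192 7 (.s k84 k87 0 (.s k106 k127 6 (.s k66 k126 5 (.s k67 k65 0 (.d k124 k104 k105 5 6))))))))
  (.c k254 (.q k253 [(.s k1 k169 13 (.s k149 k191 6 (.s k21 k213 7 (.s k61 k41 5 (.s k105 k193 13
  (.d k125 k65 k189 5 7)))))), (.s k1 k169 13 (.s k3 k2 0 (.s k83 k163 11 (.s k89 k92 2 (.s k8 k251
  12 (.d k12 k166 k4 14 1)))))), (.s k64 k192 7 (.s k84 k87 0 (.s k106 k127 6 (.s k66 k126 5 (.s k67
  k65 0 (.d k124 k104 k105 5 6))))))] .n) .n)))) .n))) (.c k166 (.q k86 [(.s k2 k254 13 (.s k3 k1 0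
  (.s k84 k87 0 (.d k252 k168 k169 13 14)))), (.s k81 k162 12 (.s k87 k84 0 (.s k89 k93 1 (.s k83
  k92 2 (.s k80 k82 0 (.d k95 k91 k90 1 2)))))), (.s k2 k254 13 (.s k3 k1 0 (.s k81 k162 12 (.s k83
  k163 11 (.d k89 k93 k92 1 2)))))] (.c k2 (.l (.s k81 k162 12 (.s k84 k87 0 (.s k89 k93 1 (.s k83
  k92 2 (.s k3 k163 11 (.d k252 k169 k168 14 13))))))) .n)) (.c k174 (.l (.s k81 k162 12 (.s k89 k93
  1 (.s k12 k166 14 (.d k8 k4 k251 1 12))))) (.c k251 (.l (.s k162 k81 12 (.s k166 k174 1 (.s k4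
  k247 12 (.d k12 k8 k89 1 14))))) .n))))))))))))

def t6_43 : T TT 256 :=
  (.f k255 k170 14 (.q k165 [(.s k5 k245 11 (.s k15 k10 2 (.s k90 k240 14 (.d k95 k80 k175 2 11)))),
  (.s k245 k5 11 (.s k240 k250 2 (.s k80 k160 11 (.d k90 k95 k15 2 14))))] (.c k5 (.q k4 [(.s k166
  k247 12 (.s k12 k8 1 (.s k89 k243 14 (.d k93 k81 k174 1 12)))), (.s k166 k247 12 (.s k164 k167 0
  (.s k84 k244 11 (.s k252 k168 13 (.s k253 k254 0 (.s k169 k1 13 (.d k86 k87 k3 0 14)))))))] (.c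
  k166 (.q k86 [(.s k84 k87 0 (.d k244 k164 k7 11 12)), (.s k84 k87 0 (.s k252 k168 13 (.s k169 k3
  14 (.d k253 k254 k1 0 13))))] (.c k84 (.q k173 [(.s k169 k161 1 (.s k1 k253 13 (.d k3 k2 k252 0
  14))), (.s k12 k8 1 (.s k174 k93 12 (.s k172 k175 0 (.s k252 k92 11 (.s k94 k15 12 (.d k254 k253
  k14 0 11))))))] (.c k162 (.q k174 [(.d k12 k8 k93 1 12), (.s k169 k161 1 (.s k1 k253 13 (.d k3 k2
  k252 0 14)))] .n) (.c k174 (.q k162 [(.s k169 k161 1 (.s k1 k253 13 (.d k3 k2 k252 0 14))), (.s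
  k81 k243 12 (.s k89 k93 1 (.s k83 k92 2 (.s k80 k82 0 (.s k240 k160 11 (.d k90 k95 k15 2 14))))))]
  .n) (.c k252 (.l (.s k12 k8 1 (.s k169 k161 1 (.s k253 k1 13 (.d k93 k13 k174 11 12))))) (.c k253
  (.l (.s k12 k8 1 (.s k169 k161 1 (.s k174 k93 12 (.s k172 k175 0 (.d k252 k92 k3 11 14))))))
  .n))))) (.c k87 (.l (.s k244 k7 12 (.s k84 k164 11 (.s k252 k168 13 (.s k169 k3 14 (.d k253 k254
  k1 0 13)))))) (.c k162 (.q k174 [(.d k12 k8 k93 1 12), (.s k84 k87 0 (.d k244 k164 k7 11 12))] .n)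
  (.c k174 (.q k162 [(.s k84 k87 0 (.d k244 k164 k7 11 12)), (.s k81 k243 12 (.s k89 k93 1 (.s k83
  k92 2 (.s k80 k82 0 (.s k240 k160 11 (.d k90 k95 k15 2 14))))))] .n) .n))))) (.c k247 (.l (.s k12
  k8 1 (.s k93 k174 12 (.s k89 k81 1 (.s k13 k241 13 (.s k15 k14 0 (.s k90 k240 14 (.d k95 k80 k175
  2 11)))))))) .n))) (.c k10 (.l (.s k245 k5 11 (.s k240 k250 2 (.s k90 k15 14 (.d k80 k95 k160 2
  11))))) (.c k15 (.q k1 [(.s k5 k245 11 (.s k13 k9 1 (.s k89 k241 13 (.s k93 k81 1 (.d k253 k173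
  k169 11 13))))), (.s k3 k2 0 (.s k87 k171 13 (.s k86 k84 0 (.d k169 k253 k252 13 14)))), (.s k3 k2
  0 (.s k245 k5 11 (.s k240 k250 2 (.s k160 k80 11 (.s k161 k82 12 (.s k81 k241 11 (.d k162 k163
  k243 0 12)))))))] (.c k3 (.l (.s k5 k245 11 (.s k169 k253 13 (.s k161 k173 1 (.s k241 k81 11 (.d
  k13 k9 k89 1 13)))))) .n)) (.c k80 (.q k1 [(.s k3 k2 0 (.s k169 k253 13 (.s k86 k252 14 (.d k87
  k84 k171 0 13)))), (.s k5 k245 11 (.s k169 k253 13 (.s k161 k173 1 (.s k241 k81 11 (.d k13 k9 k89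
  1 13)))))] (.c k169 (.l (.s k5 k245 11 (.s k13 k9 1 (.s k15 k10 2 (.s k89 k241 13 (.s k93 k81 1
  (.d k12 k14 k174 0 12))))))) (.c k253 (.l (.s k3 k2 0 (.s k5 k245 11 (.s k87 k171 13 (.s k86 k84 0
  (.s k7 k244 12 (.d k15 k10 k11 2 1))))))) .n))) (.c k90 (.f k5 k245 11 (.f k10 k15 2 (.q k1 [(.s
  k13 k9 1 (.s k89 k241 13 (.s k93 k81 1 (.d k253 k173 k169 11 13)))), (.s k3 k2 0 (.s k87 k171 13
  (.s k86 k84 0 (.d k169 k253 k252 13 14))))] (.c k3 (.l (.s k169 k253 13 (.s k161 k173 1 (.s k241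
  k81 11 (.d k13 k9 k89 1 13))))) (.c k169 (.l (.s k13 k9 1 (.s k89 k241 13 (.s k81 k93 1 (.s k243
  k162 12 (.s k247 k251 1 (.d k166 k12 k4 14 12))))))) (.c k253 (.l (.s k3 k2 0 (.s k13 k9 1 (.s k87
  k171 13 (.s k86 k84 0 (.s k169 k252 14 (.s k241 k89 13 (.d k161 k173 k81 1 11)))))))) .n)))))) (.c
  k95 (.q k1 [(.s k3 k2 0 (.s k169 k253 13 (.s k86 k252 14 (.d k87 k84 k171 0 13)))), (.s k5 k245 11
  (.s k169 k253 13 (.s k161 k173 1 (.s k241 k81 11 (.d k13 k9 k89 1 13)))))] (.c k169 (.l (.s k5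
  k245 11 (.s k13 k9 1 (.s k15 k10 2 (.s k89 k241 13 (.s k93 k81 1 (.d k12 k14 k174 0 12))))))) (.c
  k253 (.l (.s k3 k2 0 (.s k5 k245 11 (.s k87 k171 13 (.s k86 k84 0 (.s k7 k244 12 (.d k15 k10 k11 2
  1))))))) .n))) (.c k240 (.q k1 [(.s k5 k245 11 (.s k169 k253 13 (.s k161 k173 1 (.s k241 k81 11
  (.d k13 k9 k89 1 13))))), (.s k3 k2 0 (.s k87 k171 13 (.s k86 k84 0 (.d k169 k253 k252 13 14))))]
  (.c k169 (.l (.s k5 k245 11 (.s k13 k9 1 (.s k15 k10 2 (.s k89 k241 13 (.s k93 k81 1 (.d k12 k14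
  k174 0 12))))))) (.c k253 (.l (.s k3 k2 0 (.s k5 k245 11 (.s k87 k171 13 (.s k86 k84 0 (.s k7 k244
  12 (.d k15 k10 k11 2 1))))))) .n))) (.c k245 (.q k81 [(.s k89 k93 1 (.s k243 k162 12 (.s k247 k251
  1 (.d k166 k4 k12 12 14)))), (.s k89 k93 1 (.s k241 k13 13 (.s k1 k161 11 (.s k3 k2 0 (.s k87 k171
  13 (.s k86 k84 0 (.d k169 k253 k252 13 14)))))))] (.c k89 (.f k243 k162 12 (.q k166 [(.d k247 k251
  k4 1 12), (.s k167 k164 0 (.s k15 k91 13 (.s k90 k240 14 (.d k95 k80 k175 2 11))))] (.c k8 (.l (.s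
  k251 k247 1 (.s k167 k164 0 (.s k15 k91 13 (.s k90 k240 14 (.d k95 k80 k175 2 11)))))) (.c k251
  (.q k8 [(.d k4 k12 k247 1 12), (.s k167 k164 0 (.s k15 k91 13 (.s k95 k175 11 (.d k90 k80 k240 2
  14))))] .n) .n)))) (.c k93 (.l (.s k243 k162 12 (.s k247 k251 1 (.s k166 k4 12 (.s k167 k164 0 (.s
  k15 k91 13 (.s k90 k240 14 (.d k95 k80 k175 2 11)))))))) .n))) (.c k250 (.l (.s k5 k245 11 (.s k15
  k10 2 (.s k90 k240 14 (.d k95 k80 k175 2 11))))) .n)))))))))))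

def t6_44 : T TT 256 :=
  (.f k255 k170 14 (.q k165 [(.s k5 k245 11 (.s k15 k10 2 (.s k90 k240 14 (.d k95 k80 k175 2 11)))),
  (.s k245 k5 11 (.s k240 k250 2 (.s k80 k160 11 (.d k90 k95 k15 2 14))))] (.c k5 (.q k166 [(.s k4
  k247 12 (.s k12 k8 1 (.s k89 k243 14 (.d k93 k81 k174 1 12)))), (.s k4 k247 12 (.s k164 k167 0 (.s
  k84 k244 11 (.s k252 k168 13 (.s k253 k254 0 (.s k169 k1 13 (.d k86 k87 k3 0 14)))))))] (.c k4 (.q
  k7 [(.s k167 k164 0 (.s k87 k247 11 (.d k86 k84 k244 0 12))), (.s k86 k244 12 (.s k84 k87 0 (.s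
  k252 k168 13 (.s k169 k3 14 (.d k253 k254 k1 0 13)))))] (.c k84 (.l (.s k167 k164 0 (.s k244 k86
  12 (.s k247 k87 11 (.s k243 k251 1 (.s k81 k162 12 (.d k89 k93 k12 1 14))))))) (.c k86 (.l (.s
  k167 k164 0 (.s k247 k87 11 (.s k243 k251 1 (.s k81 k162 12 (.d k89 k93 k12 1 14)))))) (.c k87 (.q
  k1 [(.s k86 k244 12 (.s k169 k253 13 (.d k3 k2 k252 0 14))), (.s k169 k253 13 (.s k161 k173 1 (.s
  k81 k241 11 (.s k162 k243 12 (.d k163 k160 k172 0 2))))), (.s k3 k2 0 (.s k15 k11 1 (.s k90 k240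
  14 (.d k95 k80 k175 2 11))))] .n) (.c k164 (.l (.s k86 k244 12 (.s k84 k87 0 (.s k252 k168 13 (.s
  k169 k3 14 (.d k253 k254 k1 0 13)))))) (.c k244 (.q k84 [(.s k87 k86 0 (.d k167 k164 k247 0 11)),
  (.s k252 k168 13 (.s k253 k254 0 (.s k169 k1 13 (.s k173 k161 1 (.s k15 k94 12 (.d k3 k86 k11 14
  1)))))), (.s k167 k164 0 (.s k247 k87 11 (.s k243 k251 1 (.s k81 k162 12 (.d k89 k93 k12 1
  14)))))] .n) .n)))))) (.c k7 (.l (.s k4 k247 12 (.s k12 k8 1 (.s k89 k243 14 (.d k93 k81 k174 1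
  12))))) (.c k247 (.q k4 [(.s k12 k8 1 (.s k89 k243 14 (.d k93 k81 k174 1 12))), (.s k164 k167 0
  (.s k84 k244 11 (.s k252 k168 13 (.s k253 k254 0 (.s k169 k1 13 (.d k86 k87 k3 0 14))))))] .n)
  .n)))) (.c k10 (.l (.s k245 k5 11 (.s k240 k250 2 (.s k90 k15 14 (.d k80 k95 k160 2 11))))) (.c
  k15 (.q k1 [(.s k3 k2 0 (.s k87 k171 13 (.s k86 k84 0 (.d k169 k253 k252 13 14)))), (.s k5 k245 11
  (.s k13 k9 1 (.s k89 k241 13 (.s k93 k81 1 (.d k253 k173 k169 11 13))))), (.s k3 k2 0 (.s k245 k5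
  11 (.s k240 k250 2 (.s k160 k80 11 (.s k161 k82 12 (.s k81 k241 11 (.d k162 k163 k243 0 12)))))))]
  (.c k3 (.l (.s k5 k245 11 (.s k169 k253 13 (.s k161 k173 1 (.s k241 k81 11 (.d k13 k9 k89 1
  13)))))) .n)) (.c k80 (.q k1 [(.s k169 k253 13 (.s k3 k2 0 (.s k86 k252 14 (.d k87 k84 k171 0
  13)))), (.s k5 k245 11 (.s k169 k253 13 (.s k161 k173 1 (.s k241 k81 11 (.d k13 k9 k89 1 13)))))]
  (.c k169 (.l (.s k5 k245 11 (.s k13 k9 1 (.s k15 k10 2 (.s k89 k241 13 (.s k93 k81 1 (.d k12 k14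
  k174 0 12))))))) (.c k253 (.l (.s k3 k2 0 (.s k5 k245 11 (.s k87 k171 13 (.s k86 k84 0 (.s k7 k244
  12 (.d k15 k10 k11 2 1))))))) .n))) (.c k90 (.f k5 k245 11 (.f k10 k15 2 (.q k1 [(.s k3 k2 0 (.s
  k87 k171 13 (.s k86 k84 0 (.d k169 k253 k252 13 14)))), (.s k13 k9 1 (.s k89 k241 13 (.s k81 k93 1
  (.s k243 k162 12 (.s k247 k251 1 (.d k166 k12 k4 14 12))))))] (.c k3 (.l (.s k169 k253 13 (.s k161
  k173 1 (.s k241 k81 11 (.d k13 k9 k89 1 13))))) (.c k253 (.l (.s k3 k2 0 (.s k13 k9 1 (.s k87 k171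
  13 (.s k86 k84 0 (.s k169 k252 14 (.s k241 k89 13 (.d k161 k173 k81 1 11)))))))) .n))))) (.c k95
  (.q k1 [(.s k169 k253 13 (.s k3 k2 0 (.s k86 k252 14 (.d k87 k84 k171 0 13)))), (.s k5 k245 11 (.s
  k169 k253 13 (.s k161 k173 1 (.s k241 k81 11 (.d k13 k9 k89 1 13)))))] (.c k169 (.l (.s k5 k245 11
  (.s k13 k9 1 (.s k15 k10 2 (.s k89 k241 13 (.s k93 k81 1 (.d k12 k14 k174 0 12))))))) (.c k253 (.l
  (.s k3 k2 0 (.s k5 k245 11 (.s k87 k171 13 (.s k86 k84 0 (.s k7 k244 12 (.d k15 k10 k11 2 1)))))))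
  .n))) (.c k240 (.q k1 [(.s k3 k2 0 (.s k87 k171 13 (.s k86 k84 0 (.d k169 k253 k252 13 14)))), (.s
  k5 k245 11 (.s k169 k253 13 (.s k161 k173 1 (.s k241 k81 11 (.d k13 k9 k89 1 13)))))] (.c k169 (.l
  (.s k5 k245 11 (.s k13 k9 1 (.s k15 k10 2 (.s k89 k241 13 (.s k93 k81 1 (.d k12 k14 k174 0
  12))))))) (.c k253 (.l (.s k3 k2 0 (.s k5 k245 11 (.s k87 k171 13 (.s k86 k84 0 (.s k7 k244 12 (.d
  k15 k10 k11 2 1))))))) .n))) (.c k245 (.q k253 [(.s k169 k1 13 (.s k252 k254 0 (.s k84 k168 13 (.d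
  k86 k87 k3 0 14)))), (.s k169 k1 13 (.s k173 k161 1 (.s k93 k13 11 (.s k12 k174 12 (.s k4 k8 1 (.s
  k166 k247 12 (.d k89 k81 k243 1 14)))))))] (.c k1 (.l (.s k252 k254 0 (.s k84 k168 13 (.s k86 k87
  0 (.s k244 k7 12 (.s k240 k248 1 (.s k80 k160 11 (.d k90 k95 k15 2 14)))))))) (.c k169 (.f k252
  k254 0 (.q k86 [(.d k84 k168 k87 13 0), (.s k244 k7 12 (.s k240 k248 1 (.s k80 k160 11 (.d k90 k95
  k15 2 14))))] (.c k168 (.q k171 [(.d k87 k84 k3 0 13), (.s k244 k7 12 (.s k240 k248 1 (.s k80 k160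
  11 (.d k90 k95 k15 2 14))))] .n) (.c k171 (.l (.s k168 k84 13 (.s k244 k7 12 (.s k240 k248 1 (.s
  k80 k160 11 (.d k90 k95 k15 2 14)))))) .n)))) .n))) (.c k250 (.l (.s k5 k245 11 (.s k15 k10 2 (.s
  k90 k240 14 (.d k95 k80 k175 2 11))))) .n)))))))))))

def t6_45 : T TT 256 :=
  (.f k255 k170 14 (.q k106 [(.s k64 k127 6 (.s k192 k128 7 (.s k149 k63 14 (.d k213 k234 k21 6
  7))))] (.c k21 (.q k1 [(.s k169 k253 13 (.s k3 k2 0 (.s k86 k252 14 (.d k87 k84 k171 0 13)))), (.s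
  k64 k127 6 (.s k192 k128 7 (.s k213 k234 6 (.s k253 k169 13 (.s k193 k233 5 (.s k65 k129 7 (.d
  k195 k130 k194 8 0))))))), (.s k3 k2 0 (.s k64 k127 6 (.s k192 k128 7 (.s k66 k129 8 (.s k86 k126
  5 (.d k87 k84 k171 0 13))))))] (.c k171 (.l (.s k3 k2 0 (.s k127 k64 6 (.s k63 k191 7 (.s k43 k23
  5 (.d k169 k232 k253 8 13)))))) .n)) (.c k63 (.q k1 [(.s k3 k2 0 (.s k87 k171 13 (.s k86 k84 0 (.d
  k169 k253 k252 13 14)))), (.s k64 k127 6 (.s k192 k128 7 (.s k213 k234 6 (.s k253 k169 13 (.s k193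
  k233 5 (.s k65 k129 7 (.d k195 k130 k194 8 0))))))), (.s k3 k2 0 (.s k64 k127 6 (.s k192 k128 7
  (.s k66 k129 8 (.s k86 k126 5 (.d k87 k84 k171 0 13))))))] (.c k171 (.l (.s k3 k2 0 (.s k64 k127 6
  (.s k169 k253 13 (.s k86 k252 14 (.s k192 k128 7 (.d k66 k126 k129 5 8))))))) .n)) (.c k64 (.q
  k204 [(.s k68 k136 9 (.s k102 k119 4 (.s k153 k51 14 (.d k221 k238 k17 4 9)))), (.s k68 k136 9 (.s
  k102 k119 4 (.s k110 k98 1 (.s k63 k157 12 (.s k21 k42 6 (.d k149 k213 k192 7 14)))))), (.s k221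
  k238 4 (.s k153 k17 9 (.s k200 k59 12 (.s k192 k196 1 (.s k149 k63 14 (.d k213 k234 k21 6 7))))))]
  (.c k102 (.q k72 [(.s k136 k68 9 (.s k200 k8 7 (.s k153 k59 12 (.d k221 k238 k17 4 9)))), (.s k89
  k123 4 (.s k81 k93 1 (.s k243 k162 12 (.s k166 k12 14 (.d k247 k251 k4 1 12))))), (.s k136 k68 9
  (.s k8 k200 7 (.s k12 k4 1 (.s k132 k192 9 (.d k140 k128 k76 1 7)))))] (.c k34 (.l (.s k238 k221 4
  (.s k89 k123 4 (.s k81 k93 1 (.s k243 k162 12 (.s k166 k12 14 (.d k247 k251 k4 1 12))))))) (.c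
  k238 (.q k34 [(.s k17 k51 4 (.s k136 k68 9 (.s k153 k221 9 (.d k200 k8 k59 7 12)))), (.s k89 k123
  4 (.s k81 k93 1 (.s k243 k162 12 (.s k166 k12 14 (.d k247 k251 k4 1 12)))))] .n) .n))) (.c k153
  (.q k93 [(.s k12 k174 12 (.s k4 k8 1 (.s k166 k247 12 (.d k89 k81 k243 1 14)))), (.s k221 k238 4
  (.s k157 k29 7 (.s k63 k110 12 (.s k21 k42 6 (.d k149 k213 k192 7 14)))))] (.c k136 (.q k187 [(.s
  k12 k174 12 (.s k89 k81 1 (.s k166 k243 14 (.d k4 k8 k247 1 12)))), (.s k89 k81 1 (.s k119 k51 9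
  (.s k123 k72 4 (.s k115 k127 1 (.d k102 k68 k76 4 6))))), (.s k12 k174 12 (.s k76 k140 7 (.s k110
  k127 4 (.s k119 k51 9 (.d k102 k98 k68 1 4)))))] (.c k98 (.l (.s k12 k174 12 (.s k4 k8 1 (.s k166
  k247 12 (.d k89 k81 k243 1 14))))) .n)) (.c k174 (.l (.s k221 k238 4 (.s k157 k29 7 (.s k110 k63
  12 (.s k102 k98 1 (.d k68 k119 k136 4 9)))))) (.c k187 (.l (.s k136 k68 9 (.s k12 k174 12 (.s k4
  k8 1 (.s k89 k81 1 (.d k166 k247 k243 12 14)))))) .n)))) .n))) (.c k127 (.q k51 [(.s k17 k34 4 (.s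
  k119 k187 9 (.s k102 k68 4 (.d k153 k221 k204 9 14)))), (.s k17 k34 4 (.s k153 k221 9 (.s k59 k200
  12 (.s k63 k55 1 (.s k21 k42 6 (.d k149 k213 k192 7 14)))))), (.s k119 k187 9 (.s k102 k68 4 (.s
  k98 k110 1 (.s k192 k145 12 (.s k149 k63 14 (.d k213 k234 k21 6 7))))))] (.c k102 (.q k207 [(.s
  k69 k138 10 (.s k223 k239 3 (.s k154 k16 10 (.d k101 k117 k48 3 14)))), (.s k103 k155 13 (.s k119
  k187 9 (.s k87 k71 3 (.s k171 k3 13 (.d k239 k223 k35 3 9))))), (.s k69 k138 10 (.s k101 k117 3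
  (.s k111 k96 2 (.s k63 k159 11 (.s k21 k42 6 (.d k149 k213 k192 7 14))))))] (.c k34 (.q k238 [(.s
  k69 k138 10 (.s k223 k239 3 (.s k154 k16 10 (.d k101 k117 k48 3 14)))), (.s k103 k155 13 (.s k119
  k187 9 (.s k87 k71 3 (.s k171 k3 13 (.d k239 k223 k35 3 9))))), (.s k69 k138 10 (.s k101 k117 3
  (.s k111 k96 2 (.s k63 k159 11 (.s k21 k42 6 (.d k149 k213 k192 7 14))))))] .n) (.c k238 (.l (.s
  k34 k17 4 (.s k69 k138 10 (.s k101 k117 3 (.s k154 k48 14 (.d k223 k239 k16 3 10)))))) .n))) (.c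
  k153 (.q k63 [(.s k21 k42 6 (.d k149 k213 k192 7 14)), (.s k55 k59 1 (.s k149 k192 14 (.s k102
  k196 12 (.d k119 k187 k68 9 4)))), (.s k17 k34 4 (.s k21 k42 6 (.s k25 k29 1 (.s k38 k12 6 (.d k55
  k59 k4 1 4)))))] (.c k136 (.l (.s k187 k119 9 (.s k21 k42 6 (.d k149 k213 k192 7 14)))) (.c k187
  (.q k136 [(.s k21 k42 6 (.d k149 k213 k192 7 14)), (.s k55 k59 1 (.s k68 k204 9 (.s k102 k119 4
  (.d k149 k196 k192 12 14)))), (.s k17 k34 4 (.s k21 k42 6 (.s k25 k29 1 (.s k38 k12 6 (.d k55 k59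
  k4 1 4)))))] .n) .n))) .n))) (.c k128 (.l (.s k127 k64 6 (.s k63 k191 7 (.s k149 k192 14 (.d k21
  k42 k213 6 7))))) (.c k149 (.f k127 k64 6 (.q k102 [(.s k68 k119 4 (.s k204 k136 9 (.s k153 k51 14
  (.d k221 k238 k17 4 9)))), (.s k110 k98 1 (.s k93 k76 4 (.s k12 k174 12 (.s k4 k8 1 (.s k166 k247
  12 (.d k89 k81 k243 1 14))))))] (.c k68 (.l (.s k110 k98 1 (.s k76 k93 4 (.s k115 k89 6 (.s k119
  k123 1 (.s k51 k187 9 (.s k17 k34 4 (.d k153 k221 k204 9 14)))))))) (.c k128 (.l (.s k191 k63 7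
  (.s k68 k119 4 (.s k204 k136 9 (.s k153 k51 14 (.d k221 k238 k17 4 9)))))) (.c k191 (.q k128 [(.s
  k68 k119 4 (.s k204 k136 9 (.s k153 k51 14 (.d k221 k238 k17 4 9)))), (.s k110 k98 1 (.s k93 k76 4
  (.s k12 k174 12 (.s k4 k8 1 (.s k166 k247 12 (.d k89 k81 k243 1 14))))))] (.c k68 (.l (.s k110 k98
  1 (.s k76 k93 4 (.s k115 k89 6 (.s k119 k123 1 (.s k51 k187 9 (.s k17 k34 4 (.d k153 k221 k204 9
  14)))))))) .n)) .n))))) (.c k191 (.l (.s k64 k127 6 (.s k192 k128 7 (.s k149 k63 14 (.d k213 k234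
  k21 6 7))))) (.c k192 (.q k1 [(.s k3 k2 0 (.s k87 k171 13 (.s k86 k84 0 (.d k169 k253 k252 13
  14)))), (.s k127 k64 6 (.s k63 k191 7 (.s k21 k42 6 (.s k61 k41 5 (.s k253 k169 13 (.s k125 k189 7
  (.d k60 k190 k62 8 0))))))), (.s k3 k2 0 (.s k127 k64 6 (.s k63 k191 7 (.s k21 k42 6 (.s k23 k43 5
  (.s k22 k20 0 (.d k41 k61 k60 5 6)))))))] .n) (.c k213 (.q k1 [(.s k3 k2 0 (.s k87 k171 13 (.s k86
  k84 0 (.d k169 k253 k252 13 14)))), (.s k64 k127 6 (.s k169 k253 13 (.s k192 k128 7 (.s k149 k63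
  14 (.s k129 k189 5 (.s k66 k3 8 (.d k65 k193 k67 7 0))))))), (.s k3 k2 0 (.s k64 k127 6 (.s k192
  k128 7 (.s k66 k129 8 (.s k86 k126 5 (.d k87 k84 k171 0 13))))))] (.c k3 (.l (.s k127 k64 6 (.s
  k63 k191 7 (.s k21 k42 6 (.s k61 k41 5 (.s k60 k62 0 (.s k125 k190 8 (.d k253 k189 k169 7
  13)))))))) .n)) (.c k234 (.l (.s k127 k64 6 (.s k63 k191 7 (.s k21 k42 6 (.d k149 k213 k192 7
  14))))) .n))))))))))))

def t6_46 : T TT 256 :=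
  (.f k255 k170 14 (.q k165 [(.s k5 k245 11 (.s k15 k10 2 (.s k90 k240 14 (.d k95 k80 k175 2 11)))),
  (.s k245 k5 11 (.s k240 k250 2 (.s k80 k160 11 (.d k90 k95 k15 2 14))))] (.c k5 (.q k166 [(.s k4
  k247 12 (.s k12 k8 1 (.s k89 k243 14 (.d k93 k81 k174 1 12)))), (.s k4 k247 12 (.s k164 k167 0 (.s
  k84 k244 11 (.s k252 k168 13 (.s k253 k254 0 (.s k169 k1 13 (.d k86 k87 k3 0 14)))))))] (.c k4 (.q
  k7 [(.s k167 k164 0 (.s k87 k247 11 (.d k86 k84 k244 0 12))), (.s k86 k244 12 (.s k84 k87 0 (.s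
  k252 k168 13 (.s k169 k3 14 (.d k253 k254 k1 0 13)))))] (.c k84 (.l (.s k167 k164 0 (.s k244 k86
  12 (.s k247 k87 11 (.s k243 k251 1 (.s k81 k162 12 (.d k89 k93 k12 1 14))))))) (.c k86 (.l (.s
  k167 k164 0 (.s k247 k87 11 (.s k243 k251 1 (.s k81 k162 12 (.d k89 k93 k12 1 14)))))) (.c k87 (.q
  k1 [(.s k86 k244 12 (.s k169 k253 13 (.d k3 k2 k252 0 14))), (.s k169 k253 13 (.s k161 k173 1 (.s
  k81 k241 11 (.s k162 k243 12 (.d k163 k160 k172 0 2))))), (.s k3 k2 0 (.s k15 k11 1 (.s k90 k240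
  14 (.d k95 k80 k175 2 11))))] .n) (.c k164 (.l (.s k86 k244 12 (.s k84 k87 0 (.s k252 k168 13 (.s
  k169 k3 14 (.d k253 k254 k1 0 13)))))) (.c k244 (.q k84 [(.s k167 k164 0 (.d k87 k86 k247 0 11)),
  (.s k252 k168 13 (.s k253 k254 0 (.s k169 k1 13 (.s k173 k161 1 (.s k15 k94 12 (.d k3 k86 k11 14
  1))))))] (.c k86 (.l (.s k167 k164 0 (.s k247 k87 11 (.s k243 k251 1 (.s k81 k162 12 (.d k89 k93
  k12 1 14)))))) .n)) .n)))))) (.c k7 (.l (.s k4 k247 12 (.s k12 k8 1 (.s k89 k243 14 (.d k93 k81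
  k174 1 12))))) (.c k247 (.q k4 [(.s k12 k8 1 (.s k89 k243 14 (.d k93 k81 k174 1 12))), (.s k164
  k167 0 (.s k84 k244 11 (.s k252 k168 13 (.s k253 k254 0 (.s k169 k1 13 (.d k86 k87 k3 0 14))))))]
  .n) .n)))) (.c k10 (.l (.s k245 k5 11 (.s k240 k250 2 (.s k90 k15 14 (.d k80 k95 k160 2 11)))))
  (.c k15 (.q k1 [(.s k3 k2 0 (.s k87 k171 13 (.s k86 k84 0 (.d k169 k253 k252 13 14)))), (.s k5
  k245 11 (.s k13 k9 1 (.s k89 k241 13 (.s k93 k81 1 (.d k253 k173 k169 11 13))))), (.s k3 k2 0 (.s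
  k245 k5 11 (.s k240 k250 2 (.s k160 k80 11 (.s k161 k82 12 (.s k81 k241 11 (.d k162 k163 k243 0
  12)))))))] (.c k3 (.l (.s k5 k245 11 (.s k169 k253 13 (.s k161 k173 1 (.s k241 k81 11 (.d k13 k9
  k89 1 13)))))) .n)) (.c k80 (.q k1 [(.s k169 k253 13 (.s k3 k2 0 (.s k86 k252 14 (.d k87 k84 k171
  0 13)))), (.s k5 k245 11 (.s k169 k253 13 (.s k161 k173 1 (.s k241 k81 11 (.d k13 k9 k89 1
  13)))))] (.c k169 (.l (.s k5 k245 11 (.s k13 k9 1 (.s k15 k10 2 (.s k89 k241 13 (.s k93 k81 1 (.d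
  k12 k14 k174 0 12))))))) (.c k253 (.l (.s k3 k2 0 (.s k5 k245 11 (.s k87 k171 13 (.s k86 k84 0 (.s
  k7 k244 12 (.d k15 k10 k11 2 1))))))) .n))) (.c k90 (.f k5 k245 11 (.f k10 k15 2 (.q k1 [(.s k3 k2
  0 (.s k87 k171 13 (.s k86 k84 0 (.d k169 k253 k252 13 14)))), (.s k13 k9 1 (.s k89 k241 13 (.s k81
  k93 1 (.s k243 k162 12 (.s k247 k251 1 (.d k166 k12 k4 14 12))))))] (.c k3 (.l (.s k169 k253 13
  (.s k161 k173 1 (.s k241 k81 11 (.d k13 k9 k89 1 13))))) (.c k253 (.l (.s k3 k2 0 (.s k13 k9 1 (.s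
  k87 k171 13 (.s k86 k84 0 (.s k169 k252 14 (.s k241 k89 13 (.d k161 k173 k81 1 11)))))))) .n)))))
  (.c k95 (.q k1 [(.s k169 k253 13 (.s k3 k2 0 (.s k86 k252 14 (.d k87 k84 k171 0 13)))), (.s k5
  k245 11 (.s k169 k253 13 (.s k161 k173 1 (.s k241 k81 11 (.d k13 k9 k89 1 13)))))] (.c k169 (.l
  (.s k5 k245 11 (.s k13 k9 1 (.s k15 k10 2 (.s k89 k241 13 (.s k93 k81 1 (.d k12 k14 k174 0
  12))))))) (.c k253 (.l (.s k3 k2 0 (.s k5 k245 11 (.s k87 k171 13 (.s k86 k84 0 (.s k7 k244 12 (.d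
  k15 k10 k11 2 1))))))) .n))) (.c k240 (.q k1 [(.s k3 k2 0 (.s k87 k171 13 (.s k86 k84 0 (.d k169
  k253 k252 13 14)))), (.s k5 k245 11 (.s k169 k253 13 (.s k161 k173 1 (.s k241 k81 11 (.d k13 k9
  k89 1 13)))))] (.c k169 (.l (.s k5 k245 11 (.s k13 k9 1 (.s k15 k10 2 (.s k89 k241 13 (.s k93 k81
  1 (.d k12 k14 k174 0 12))))))) (.c k253 (.l (.s k3 k2 0 (.s k5 k245 11 (.s k87 k171 13 (.s k86 k84
  0 (.s k7 k244 12 (.d k15 k10 k11 2 1))))))) .n))) (.c k245 (.q k253 [(.s k169 k1 13 (.s k252 k254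
  0 (.s k84 k168 13 (.d k86 k87 k3 0 14)))), (.s k169 k1 13 (.s k173 k161 1 (.s k93 k13 11 (.s k12
  k174 12 (.s k4 k8 1 (.s k166 k247 12 (.d k89 k81 k243 1 14)))))))] (.c k1 (.l (.s k252 k254 0 (.s
  k84 k168 13 (.s k86 k87 0 (.s k244 k7 12 (.s k240 k248 1 (.s k80 k160 11 (.d k90 k95 k15 2
  14)))))))) (.c k169 (.f k252 k254 0 (.q k86 [(.d k84 k168 k87 13 0), (.s k244 k7 12 (.s k240 k248
  1 (.s k80 k160 11 (.d k90 k95 k15 2 14))))] (.c k168 (.q k171 [(.d k87 k84 k3 0 13), (.s k244 k7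
  12 (.s k240 k248 1 (.s k80 k160 11 (.d k90 k95 k15 2 14))))] .n) (.c k171 (.l (.s k168 k84 13 (.s
  k244 k7 12 (.s k240 k248 1 (.s k80 k160 11 (.d k90 k95 k15 2 14)))))) .n)))) .n))) (.c k250 (.l
  (.s k5 k245 11 (.s k15 k10 2 (.s k90 k240 14 (.d k95 k80 k175 2 11))))) .n)))))))))))

def t6_47 : T TT 256 :=
  (.f k255 k170 14 (.q k165 [(.s k5 k245 11 (.s k15 k10 2 (.s k90 k240 14 (.d k95 k80 k175 2 11)))),
  (.s k245 k5 11 (.s k240 k250 2 (.s k80 k160 11 (.d k90 k95 k15 2 14))))] (.c k5 (.q k4 [(.s k166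
  k247 12 (.s k12 k8 1 (.s k89 k243 14 (.d k93 k81 k174 1 12)))), (.s k166 k247 12 (.s k164 k167 0
  (.s k84 k244 11 (.s k252 k168 13 (.s k253 k254 0 (.s k169 k1 13 (.d k86 k87 k3 0 14)))))))] (.c
  k166 (.q k86 [(.s k84 k87 0 (.d k244 k164 k7 11 12)), (.s k84 k87 0 (.s k252 k168 13 (.s k169 k3
  14 (.d k253 k254 k1 0 13))))] (.c k84 (.q k173 [(.s k169 k161 1 (.s k1 k253 13 (.d k3 k2 k252 0
  14))), (.s k12 k8 1 (.s k174 k93 12 (.s k172 k175 0 (.s k252 k92 11 (.s k94 k15 12 (.d k254 k253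
  k14 0 11))))))] (.c k162 (.q k174 [(.d k12 k8 k93 1 12), (.s k169 k161 1 (.s k1 k253 13 (.d k3 k2
  k252 0 14)))] .n) (.c k174 (.q k162 [(.s k169 k161 1 (.s k1 k253 13 (.d k3 k2 k252 0 14))), (.s
  k81 k243 12 (.s k89 k93 1 (.s k83 k92 2 (.s k80 k82 0 (.s k240 k160 11 (.d k90 k95 k15 2 14))))))]
  .n) (.c k252 (.l (.s k12 k8 1 (.s k169 k161 1 (.s k253 k1 13 (.d k93 k13 k174 11 12))))) (.c k253
  (.l (.s k12 k8 1 (.s k169 k161 1 (.s k174 k93 12 (.s k172 k175 0 (.d k252 k92 k3 11 14))))))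
  .n))))) (.c k87 (.l (.s k244 k7 12 (.s k84 k164 11 (.s k252 k168 13 (.s k169 k3 14 (.d k253 k254
  k1 0 13)))))) (.c k162 (.q k174 [(.d k12 k8 k93 1 12), (.s k84 k87 0 (.d k244 k164 k7 11 12))] .n)
  (.c k174 (.q k162 [(.s k84 k87 0 (.d k244 k164 k7 11 12)), (.s k81 k243 12 (.s k89 k93 1 (.s k83
  k92 2 (.s k80 k82 0 (.s k240 k160 11 (.d k90 k95 k15 2 14))))))] .n) .n))))) (.c k247 (.l (.s k12
  k8 1 (.s k93 k174 12 (.s k89 k81 1 (.s k13 k241 13 (.s k15 k14 0 (.s k90 k240 14 (.d k95 k80 k175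
  2 11)))))))) .n))) (.c k10 (.l (.s k245 k5 11 (.s k240 k250 2 (.s k90 k15 14 (.d k80 k95 k160 2
  11))))) (.c k15 (.q k63 [(.s k127 k191 7 (.s k106 k64 6 (.s k149 k192 14 (.d k21 k42 k213 6 7)))),
  (.s k191 k127 7 (.s k245 k5 11 (.s k240 k250 2 (.s k181 k122 10 (.s k117 k53 7 (.d k186 k176 k48 2
  10)))))), (.s k21 k42 6 (.s k149 k213 7 (.s k181 k133 3 (.s k240 k122 10 (.d k245 k250 k5 2
  11)))))] (.c k21 (.l (.s k127 k191 7 (.s k106 k64 6 (.s k149 k192 14 (.s k245 k5 11 (.s k240 k250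
  2 (.d k181 k133 k122 3 10))))))) .n)) (.c k80 (.q k1 [(.s k169 k253 13 (.s k3 k2 0 (.s k86 k252 14
  (.d k87 k84 k171 0 13)))), (.s k5 k245 11 (.s k169 k253 13 (.s k161 k173 1 (.s k241 k81 11 (.d k13
  k9 k89 1 13)))))] (.c k169 (.l (.s k5 k245 11 (.s k13 k9 1 (.s k15 k10 2 (.s k89 k241 13 (.s k93
  k81 1 (.d k12 k14 k174 0 12))))))) (.c k253 (.l (.s k3 k2 0 (.s k5 k245 11 (.s k87 k171 13 (.s k86
  k84 0 (.s k7 k244 12 (.d k15 k10 k11 2 1))))))) .n))) (.c k90 (.f k245 k5 11 (.f k250 k240 2 (.q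
  k247 [(.s k243 k251 1 (.s k81 k162 12 (.s k89 k93 1 (.d k166 k4 k12 12 14)))), (.s k4 k166 12 (.s
  k244 k246 0 (.s k86 k7 12 (.d k84 k87 k164 0 11)))), (.s k243 k251 1 (.s k246 k244 0 (.s k252 k249
  2 (.d k254 k253 k242 0 1))))] (.c k4 (.q k7 [(.d k244 k246 k86 0 12)] (.c k86 (.l (.s k243 k251 1
  (.s k246 k244 0 (.s k252 k249 2 (.d k254 k253 k242 0 1))))) (.c k244 (.l (.s k87 k167 11 (.s k3
  k171 13 (.s k1 k2 0 (.s k169 k253 13 (.d k86 k84 k252 0 14)))))) (.c k246 (.l (.s k86 k244 12 (.d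
  k87 k84 k167 0 11))) .n)))) (.c k7 (.l (.s k4 k166 12 (.s k243 k251 1 (.s k246 k244 0 (.s k252
  k249 2 (.d k254 k242 k253 1 0)))))) .n))))) (.c k95 (.q k1 [(.s k169 k253 13 (.s k3 k2 0 (.s k86
  k252 14 (.d k87 k84 k171 0 13)))), (.s k5 k245 11 (.s k169 k253 13 (.s k161 k173 1 (.s k241 k81 11
  (.d k13 k9 k89 1 13)))))] (.c k169 (.l (.s k5 k245 11 (.s k13 k9 1 (.s k15 k10 2 (.s k89 k241 13
  (.s k93 k81 1 (.d k12 k14 k174 0 12))))))) (.c k253 (.l (.s k3 k2 0 (.s k5 k245 11 (.s k87 k171 13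
  (.s k86 k84 0 (.s k7 k244 12 (.d k15 k10 k11 2 1))))))) .n))) (.c k240 (.q k1 [(.s k3 k2 0 (.s k87
  k171 13 (.s k86 k84 0 (.d k169 k253 k252 13 14)))), (.s k5 k245 11 (.s k169 k253 13 (.s k161 k173
  1 (.s k241 k81 11 (.d k13 k9 k89 1 13)))))] (.c k169 (.l (.s k5 k245 11 (.s k13 k9 1 (.s k15 k10 2
  (.s k89 k241 13 (.s k93 k81 1 (.d k12 k14 k174 0 12))))))) (.c k253 (.l (.s k3 k2 0 (.s k5 k245 11
  (.s k87 k171 13 (.s k86 k84 0 (.s k7 k244 12 (.d k15 k10 k11 2 1))))))) .n))) (.c k245 (.q k253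
  [(.s k169 k1 13 (.s k252 k254 0 (.s k84 k168 13 (.d k86 k87 k3 0 14)))), (.s k169 k1 13 (.s k173
  k161 1 (.s k93 k13 11 (.s k12 k174 12 (.s k4 k8 1 (.s k166 k247 12 (.d k89 k81 k243 1 14)))))))]
  (.c k1 (.l (.s k252 k254 0 (.s k84 k168 13 (.s k86 k87 0 (.s k244 k7 12 (.s k240 k248 1 (.s k80
  k160 11 (.d k90 k95 k15 2 14)))))))) (.c k169 (.f k252 k254 0 (.q k86 [(.d k84 k168 k87 13 0), (.s
  k244 k7 12 (.s k240 k248 1 (.s k80 k160 11 (.d k90 k95 k15 2 14))))] (.c k168 (.q k171 [(.d k87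
  k84 k3 0 13), (.s k244 k7 12 (.s k240 k248 1 (.s k80 k160 11 (.d k90 k95 k15 2 14))))] .n) (.c
  k171 (.l (.s k168 k84 13 (.s k244 k7 12 (.s k240 k248 1 (.s k80 k160 11 (.d k90 k95 k15 2 14))))))
  .n)))) .n))) (.c k250 (.l (.s k5 k245 11 (.s k15 k10 2 (.s k90 k240 14 (.d k95 k80 k175 2 11)))))
  .n)))))))))))

def t6_49 : T TT 256 :=
  (.f k255 k170 14 (.q k106 [(.s k64 k127 6 (.s k192 k128 7 (.s k149 k63 14 (.d k213 k234 k21 6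
  7))))] (.c k21 (.q k1 [(.s k3 k2 0 (.s k87 k171 13 (.s k86 k84 0 (.d k169 k253 k252 13 14)))), (.s
  k64 k127 6 (.s k169 k253 13 (.s k192 k128 7 (.s k149 k63 14 (.s k129 k189 5 (.s k65 k193 7 (.d k66
  k67 k3 0 8))))))), (.s k3 k2 0 (.s k64 k127 6 (.s k192 k128 7 (.s k66 k129 8 (.s k86 k126 5 (.d
  k87 k84 k171 0 13))))))] (.c k3 (.l (.s k64 k127 6 (.s k192 k128 7 (.s k213 k234 6 (.s k253 k169
  13 (.s k193 k233 5 (.s k65 k129 7 (.d k195 k130 k194 8 0)))))))) .n)) (.c k63 (.q k1 [(.s k3 k2 0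
  (.s k87 k171 13 (.s k86 k84 0 (.d k169 k253 k252 13 14)))), (.s k64 k127 6 (.s k192 k128 7 (.s
  k213 k234 6 (.s k253 k169 13 (.s k193 k233 5 (.s k65 k129 7 (.d k195 k130 k194 8 0))))))), (.s k3
  k2 0 (.s k64 k127 6 (.s k192 k128 7 (.s k66 k129 8 (.s k86 k126 5 (.d k87 k84 k171 0 13))))))] (.c
  k171 (.l (.s k3 k2 0 (.s k64 k127 6 (.s k169 k253 13 (.s k86 k252 14 (.s k192 k128 7 (.d k66 k126
  k129 5 8))))))) .n)) (.c k64 (.q k60 [(.s k20 k40 5 (.s k125 k190 8 (.s k150 k215 8 (.d k105 k65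
  k195 5 14)))), (.s k20 k40 5 (.s k150 k215 8 (.s k62 k194 13 (.s k63 k61 0 (.s k21 k42 6 (.d k149
  k213 k192 7 14)))))), (.s k125 k190 8 (.s k105 k65 5 (.s k104 k107 0 (.s k192 k148 13 (.s k149 k63
  14 (.d k213 k234 k21 6 7))))))] (.c k105 (.q k87 [(.s k3 k171 13 (.s k86 k84 0 (.s k169 k252 14
  (.d k1 k2 k253 0 13)))), (.s k86 k84 0 (.s k126 k66 5 (.s k190 k125 8 (.s k62 k254 7 (.s k150 k194
  13 (.d k20 k40 k215 5 8)))))), (.s k3 k171 13 (.s k2 k1 0 (.s k22 k41 6 (.s k42 k62 5 (.s k21 k63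
  6 (.d k20 k40 k23 5 0))))))] (.c k2 (.l (.s k3 k171 13 (.s k22 k41 6 (.s k86 k84 0 (.s k150 k214 7
  (.d k20 k40 k215 5 8)))))) (.c k40 (.q k235 [(.s k3 k171 13 (.s k86 k84 0 (.s k169 k252 14 (.d k1
  k2 k253 0 13)))), (.s k3 k171 13 (.s k22 k41 6 (.s k215 k195 5 (.s k20 k150 8 (.d k23 k21 k151 0
  7))))), (.s k86 k84 0 (.s k126 k66 5 (.s k190 k125 8 (.s k62 k254 7 (.s k150 k194 13 (.d k215 k195
  k20 5 8))))))] .n) (.c k235 (.l (.s k40 k20 5 (.s k3 k171 13 (.s k1 k2 0 (.s k86 k84 0 (.d k169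
  k253 k252 13 14)))))) .n)))) (.c k150 (.q k149 [(.s k21 k213 7 (.d k63 k42 k192 6 14)), (.s k63
  k192 14 (.s k61 k62 0 (.s k105 k193 13 (.d k125 k190 k65 8 5))))] (.c k63 (.l (.s k213 k21 7 (.s
  k192 k234 6 (.s k104 k148 13 (.s k105 k107 0 (.d k125 k65 k190 5 8)))))) (.c k130 (.l (.s k190
  k125 8 (.s k21 k213 7 (.d k63 k42 k192 6 14)))) (.c k190 (.q k130 [(.s k21 k213 7 (.d k63 k42 k192
  6 14)), (.s k63 k192 14 (.s k61 k62 0 (.s k65 k195 8 (.d k105 k193 k125 13 5))))] (.c k63 (.l (.s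
  k65 k195 8 (.s k105 k125 5 (.s k213 k21 7 (.s k192 k234 6 (.d k104 k107 k148 0 13)))))) (.c k192
  (.l (.s k21 k213 7 (.s k63 k42 6 (.s k61 k62 0 (.s k65 k195 8 (.d k105 k193 k125 13 5)))))) .n)))
  (.c k192 (.l (.s k21 k213 7 (.s k63 k42 6 (.s k61 k62 0 (.s k105 k193 13 (.d k125 k65 k190 5
  8)))))) .n))))) .n))) (.c k127 (.q k195 [(.s k65 k130 8 (.s k215 k235 5 (.s k150 k20 8 (.d k105
  k125 k60 5 14)))), (.s k65 k130 8 (.s k105 k125 5 (.s k107 k104 0 (.s k63 k151 13 (.s k21 k42 6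
  (.d k149 k213 k192 7 14)))))), (.s k215 k235 5 (.s k150 k20 8 (.s k194 k62 13 (.s k192 k193 0 (.s
  k149 k63 14 (.d k213 k234 k21 6 7))))))] (.c k105 (.q k149 [(.s k21 k213 7 (.d k63 k42 k192 6
  14)), (.s k63 k192 14 (.s k151 k107 13 (.s k150 k148 0 (.d k215 k235 k20 5 8))))] (.c k40 (.l (.s
  k235 k215 5 (.s k21 k213 7 (.d k63 k42 k192 6 14)))) (.c k63 (.l (.s k213 k21 7 (.s k192 k234 6
  (.s k194 k193 0 (.s k150 k62 13 (.d k215 k235 k20 5 8)))))) (.c k192 (.l (.s k21 k213 7 (.s k63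
  k42 6 (.s k151 k107 13 (.s k150 k148 0 (.d k215 k235 k20 5 8)))))) (.c k235 (.q k40 [(.s k21 k213
  7 (.d k63 k42 k192 6 14)), (.s k20 k60 5 (.s k63 k192 14 (.s k150 k215 8 (.d k151 k148 k107 0
  13))))] (.c k63 (.l (.s k20 k60 5 (.s k150 k215 8 (.s k213 k21 7 (.s k192 k234 6 (.d k194 k62 k193
  13 0)))))) (.c k192 (.l (.s k20 k60 5 (.s k21 k213 7 (.s k63 k42 6 (.s k150 k215 8 (.d k151 k148
  k107 0 13)))))) .n))) .n))))) (.c k150 (.q k149 [(.s k21 k213 7 (.d k63 k42 k192 6 14)), (.s k63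
  k192 14 (.s k107 k151 13 (.s k105 k104 0 (.d k65 k130 k125 8 5))))] (.c k63 (.l (.s k213 k21 7 (.s
  k192 k234 6 (.s k193 k194 0 (.s k105 k61 13 (.d k65 k125 k130 5 8)))))) (.c k130 (.q k190 [(.s k21
  k213 7 (.d k63 k42 k192 6 14)), (.s k63 k192 14 (.s k107 k151 13 (.s k105 k104 0 (.d k125 k60 k65
  8 5))))] (.c k63 (.l (.s k125 k60 8 (.s k105 k65 5 (.s k213 k21 7 (.s k192 k234 6 (.d k193 k61
  k194 13 0)))))) (.c k192 (.l (.s k21 k213 7 (.s k63 k42 6 (.s k107 k151 13 (.s k105 k104 0 (.d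
  k125 k60 k65 8 5)))))) .n))) (.c k190 (.l (.s k130 k65 8 (.s k21 k213 7 (.d k63 k42 k192 6 14))))
  (.c k192 (.l (.s k21 k213 7 (.s k63 k42 6 (.s k107 k151 13 (.s k105 k104 0 (.d k65 k125 k130 5
  8)))))) .n))))) .n))) (.c k128 (.l (.s k127 k64 6 (.s k63 k191 7 (.s k149 k192 14 (.d k21 k42 k213
  6 7))))) (.c k149 (.f k64 k127 6 (.q k101 [(.s k69 k117 3 (.s k79 k74 2 (.s k96 k111 2 (.d k112
  k80 k90 3 6)))), (.s k96 k111 2 (.s k117 k69 3 (.s k48 k186 10 (.d k192 k128 k144 7 11)))), (.s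
  k69 k117 3 (.s k207 k138 10 (.s k154 k48 14 (.d k223 k239 k16 3 10))))] (.c k69 (.l (.s k96 k111 2
  (.s k80 k112 3 (.s k160 k240 11 (.s k32 k224 7 (.s k48 k16 3 (.d k192 k128 k144 7 11))))))) (.c
  k117 (.l (.s k96 k111 2 (.s k112 k80 3 (.s k79 k90 6 (.s k69 k74 2 (.s k207 k138 10 (.s k154 k48
  14 (.d k223 k239 k16 3 10)))))))) (.c k128 (.q k191 [(.s k117 k69 3 (.s k48 k186 10 (.s k16 k32 3
  (.d k154 k223 k207 10 14)))), (.s k96 k111 2 (.s k80 k112 3 (.s k240 k160 11 (.s k245 k250 2 (.s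
  k165 k5 11 (.d k90 k95 k15 2 14))))))] (.c k117 (.l (.s k96 k111 2 (.s k112 k80 3 (.s k79 k90 6
  (.s k69 k74 2 (.s k207 k138 10 (.s k154 k48 14 (.d k223 k239 k16 3 10)))))))) .n)) (.c k191 (.l
  (.s k128 k192 7 (.s k69 k117 3 (.s k79 k74 2 (.s k96 k111 2 (.d k112 k80 k90 3 6)))))) .n))))))
  (.c k191 (.l (.s k64 k127 6 (.s k192 k128 7 (.s k149 k63 14 (.d k213 k234 k21 6 7))))) (.c k192
  (.q k1 [(.s k3 k2 0 (.s k87 k171 13 (.s k86 k84 0 (.d k169 k253 k252 13 14)))), (.s k127 k64 6 (.s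
  k63 k191 7 (.s k21 k42 6 (.s k61 k41 5 (.s k253 k169 13 (.s k125 k189 7 (.d k60 k190 k62 8
  0))))))), (.s k3 k2 0 (.s k127 k64 6 (.s k63 k191 7 (.s k21 k42 6 (.s k23 k43 5 (.s k22 k20 0 (.d
  k41 k61 k60 5 6)))))))] .n) (.c k213 (.q k1 [(.s k3 k2 0 (.s k87 k171 13 (.s k86 k84 0 (.d k169
  k253 k252 13 14)))), (.s k64 k127 6 (.s k169 k253 13 (.s k192 k128 7 (.s k149 k63 14 (.s k129 k189
  5 (.s k66 k3 8 (.d k65 k193 k67 7 0))))))), (.s k3 k2 0 (.s k64 k127 6 (.s k192 k128 7 (.s k66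
  k129 8 (.s k86 k126 5 (.d k87 k84 k171 0 13))))))] (.c k3 (.l (.s k127 k64 6 (.s k63 k191 7 (.s
  k21 k42 6 (.s k61 k41 5 (.s k60 k62 0 (.s k125 k190 8 (.d k253 k189 k169 7 13)))))))) .n)) (.c
  k234 (.l (.s k127 k64 6 (.s k63 k191 7 (.s k21 k42 6 (.d k149 k213 k192 7 14))))) .n))))))))))))

def t6_50 : T TT 256 :=
  (.f k255 k170 14 (.q k106 [(.s k64 k127 6 (.s k192 k128 7 (.s k149 k63 14 (.d k213 k234 k21 6
  7))))] (.c k21 (.q k1 [(.s k127 k64 6 (.s k63 k191 7 (.s k169 k253 13 (.s k43 k232 8 (.d k3 k2 k23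
  0 5))))), (.s k3 k2 0 (.s k87 k171 13 (.s k86 k84 0 (.d k169 k253 k252 13 14)))), (.s k64 k127 6
  (.s k192 k128 7 (.s k213 k234 6 (.s k253 k169 13 (.s k193 k233 5 (.s k65 k129 7 (.d k195 k130 k194
  8 0))))))), (.s k3 k2 0 (.s k64 k127 6 (.s k192 k128 7 (.s k66 k129 8 (.s k86 k126 5 (.d k87 k84
  k171 0 13))))))] .n) (.c k63 (.q k1 [(.s k3 k2 0 (.s k87 k171 13 (.s k86 k84 0 (.d k169 k253 k252
  13 14)))), (.s k64 k127 6 (.s k192 k128 7 (.s k213 k234 6 (.s k253 k169 13 (.s k193 k233 5 (.s k65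
  k129 7 (.d k195 k130 k194 8 0))))))), (.s k3 k2 0 (.s k64 k127 6 (.s k192 k128 7 (.s k66 k129 8
  (.s k86 k126 5 (.d k87 k84 k171 0 13))))))] (.c k171 (.l (.s k3 k2 0 (.s k64 k127 6 (.s k169 k253
  13 (.s k86 k252 14 (.s k192 k128 7 (.d k66 k126 k129 5 8))))))) .n)) (.c k64 (.q k60 [(.s k20 k40
  5 (.s k125 k190 8 (.s k150 k215 8 (.d k105 k65 k195 5 14)))), (.s k20 k40 5 (.s k150 k215 8 (.s
  k62 k194 13 (.s k63 k61 0 (.s k21 k42 6 (.d k149 k213 k192 7 14)))))), (.s k125 k190 8 (.s k105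
  k65 5 (.s k104 k107 0 (.s k192 k148 13 (.s k149 k63 14 (.d k213 k234 k21 6 7))))))] (.c k105 (.q
  k87 [(.s k3 k171 13 (.s k86 k84 0 (.s k169 k252 14 (.d k1 k2 k253 0 13)))), (.s k86 k84 0 (.s k126
  k66 5 (.s k190 k125 8 (.s k62 k254 7 (.s k150 k194 13 (.d k20 k40 k215 5 8)))))), (.s k3 k171 13
  (.s k2 k1 0 (.s k22 k41 6 (.s k42 k62 5 (.s k21 k63 6 (.d k20 k40 k23 5 0))))))] (.c k2 (.l (.s k3
  k171 13 (.s k22 k41 6 (.s k86 k84 0 (.s k150 k214 7 (.d k20 k40 k215 5 8)))))) (.c k40 (.q k235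
  [(.s k3 k171 13 (.s k86 k84 0 (.s k169 k252 14 (.d k1 k2 k253 0 13)))), (.s k3 k171 13 (.s k22 k41
  6 (.s k215 k195 5 (.s k20 k150 8 (.d k23 k21 k151 0 7))))), (.s k86 k84 0 (.s k126 k66 5 (.s k190
  k125 8 (.s k62 k254 7 (.s k150 k194 13 (.d k215 k195 k20 5 8))))))] .n) (.c k235 (.l (.s k40 k20 5
  (.s k3 k171 13 (.s k1 k2 0 (.s k86 k84 0 (.d k169 k253 k252 13 14)))))) .n)))) (.c k150 (.q k149
  [(.s k21 k213 7 (.d k63 k42 k192 6 14)), (.s k63 k192 14 (.s k61 k62 0 (.s k105 k193 13 (.d k125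
  k190 k65 8 5))))] (.c k63 (.l (.s k213 k21 7 (.s k192 k234 6 (.s k104 k148 13 (.s k105 k107 0 (.d
  k125 k65 k190 5 8)))))) (.c k130 (.l (.s k190 k125 8 (.s k21 k213 7 (.d k63 k42 k192 6 14)))) (.c
  k190 (.q k130 [(.s k21 k213 7 (.d k63 k42 k192 6 14)), (.s k63 k192 14 (.s k61 k62 0 (.s k65 k195
  8 (.d k105 k193 k125 13 5))))] (.c k63 (.l (.s k65 k195 8 (.s k105 k125 5 (.s k213 k21 7 (.s k192
  k234 6 (.d k104 k107 k148 0 13)))))) (.c k192 (.l (.s k21 k213 7 (.s k63 k42 6 (.s k61 k62 0 (.s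
  k65 k195 8 (.d k105 k193 k125 13 5)))))) .n))) (.c k192 (.l (.s k21 k213 7 (.s k63 k42 6 (.s k61
  k62 0 (.s k105 k193 13 (.d k125 k65 k190 5 8)))))) .n))))) .n))) (.c k127 (.q k195 [(.s k65 k130 8
  (.s k215 k235 5 (.s k150 k20 8 (.d k105 k125 k60 5 14)))), (.s k65 k130 8 (.s k105 k125 5 (.s k107
  k104 0 (.s k63 k151 13 (.s k21 k42 6 (.d k149 k213 k192 7 14)))))), (.s k215 k235 5 (.s k150 k20 8
  (.s k194 k62 13 (.s k192 k193 0 (.s k149 k63 14 (.d k213 k234 k21 6 7))))))] (.c k105 (.q k149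
  [(.s k21 k213 7 (.d k63 k42 k192 6 14)), (.s k63 k192 14 (.s k151 k107 13 (.s k150 k148 0 (.d k215
  k235 k20 5 8))))] (.c k40 (.l (.s k235 k215 5 (.s k21 k213 7 (.d k63 k42 k192 6 14)))) (.c k63 (.l
  (.s k213 k21 7 (.s k192 k234 6 (.s k194 k193 0 (.s k150 k62 13 (.d k215 k235 k20 5 8)))))) (.c
  k192 (.l (.s k21 k213 7 (.s k63 k42 6 (.s k151 k107 13 (.s k150 k148 0 (.d k215 k235 k20 5 8))))))
  (.c k235 (.q k40 [(.s k21 k213 7 (.d k63 k42 k192 6 14)), (.s k20 k60 5 (.s k63 k192 14 (.s k150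
  k215 8 (.d k151 k148 k107 0 13))))] (.c k63 (.l (.s k20 k60 5 (.s k150 k215 8 (.s k213 k21 7 (.s
  k192 k234 6 (.d k194 k62 k193 13 0)))))) (.c k192 (.l (.s k20 k60 5 (.s k21 k213 7 (.s k63 k42 6
  (.s k150 k215 8 (.d k151 k148 k107 0 13)))))) .n))) .n))))) (.c k150 (.q k149 [(.s k21 k213 7 (.d
  k63 k42 k192 6 14)), (.s k63 k192 14 (.s k107 k151 13 (.s k105 k104 0 (.d k65 k130 k125 8 5))))]
  (.c k63 (.l (.s k213 k21 7 (.s k192 k234 6 (.s k193 k194 0 (.s k105 k61 13 (.d k65 k125 k130 5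
  8)))))) (.c k130 (.q k190 [(.s k21 k213 7 (.d k63 k42 k192 6 14)), (.s k63 k192 14 (.s k107 k151
  13 (.s k105 k104 0 (.d k125 k60 k65 8 5))))] (.c k63 (.l (.s k125 k60 8 (.s k105 k65 5 (.s k213
  k21 7 (.s k192 k234 6 (.d k193 k61 k194 13 0)))))) (.c k192 (.l (.s k21 k213 7 (.s k63 k42 6 (.s
  k107 k151 13 (.s k105 k104 0 (.d k125 k60 k65 8 5)))))) .n))) (.c k190 (.l (.s k130 k65 8 (.s k21
  k213 7 (.d k63 k42 k192 6 14)))) (.c k192 (.l (.s k21 k213 7 (.s k63 k42 6 (.s k107 k151 13 (.s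
  k105 k104 0 (.d k65 k125 k130 5 8)))))) .n))))) .n))) (.c k128 (.l (.s k127 k64 6 (.s k63 k191 7
  (.s k149 k192 14 (.d k21 k42 k213 6 7))))) (.c k149 (.f k127 k64 6 (.q k123 [(.s k89 k72 4 (.s k93
  k81 1 (.s k76 k110 4 (.d k115 k119 k102 1 6)))), (.s k89 k72 4 (.s k81 k93 1 (.s k243 k162 12 (.d
  k63 k191 k183 7 9)))), (.s k119 k115 1 (.s k51 k187 9 (.s k17 k34 4 (.s k153 k221 9 (.d k102 k68
  k204 4 14)))))] (.c k68 (.l (.s k115 k119 1 (.s k89 k72 4 (.s k76 k102 6 (.d k93 k81 k110 1 4)))))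
  (.c k81 (.l (.s k89 k72 4 (.s k115 k119 1 (.s k76 k102 6 (.s k93 k110 4 (.s k12 k174 12 (.s k4 k8
  1 (.d k166 k247 k243 12 14)))))))) (.c k128 (.l (.s k191 k63 7 (.s k89 k72 4 (.s k93 k81 1 (.s k76
  k110 4 (.d k115 k119 k102 1 6)))))) (.c k191 (.q k128 [(.s k89 k72 4 (.s k93 k81 1 (.s k76 k110 4
  (.d k115 k119 k102 1 6)))), (.s k119 k115 1 (.s k51 k187 9 (.s k17 k34 4 (.s k153 k221 9 (.d k102
  k68 k204 4 14))))), (.s k89 k72 4 (.s k81 k93 1 (.s k243 k162 12 (.s k166 k12 14 (.d k247 k251 k4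
  1 12)))))] (.c k68 (.l (.s k115 k119 1 (.s k89 k72 4 (.s k76 k102 6 (.d k93 k81 k110 1 4))))) (.c
  k81 (.l (.s k89 k72 4 (.s k115 k119 1 (.s k76 k102 6 (.s k93 k110 4 (.s k12 k174 12 (.s k4 k8 1
  (.d k166 k247 k243 12 14)))))))) .n))) .n)))))) (.c k191 (.l (.s k64 k127 6 (.s k192 k128 7 (.s
  k149 k63 14 (.d k213 k234 k21 6 7))))) (.c k192 (.q k1 [(.s k3 k2 0 (.s k87 k171 13 (.s k86 k84 0
  (.d k169 k253 k252 13 14)))), (.s k127 k64 6 (.s k63 k191 7 (.s k21 k42 6 (.s k61 k41 5 (.s k253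
  k169 13 (.s k125 k189 7 (.d k60 k190 k62 8 0))))))), (.s k3 k2 0 (.s k127 k64 6 (.s k63 k191 7 (.s
  k21 k42 6 (.s k23 k43 5 (.s k22 k20 0 (.d k41 k61 k60 5 6)))))))] .n) (.c k213 (.q k1 [(.s k3 k2 0
  (.s k87 k171 13 (.s k86 k84 0 (.d k169 k253 k252 13 14)))), (.s k64 k127 6 (.s k169 k253 13 (.s
  k192 k128 7 (.s k149 k63 14 (.s k129 k189 5 (.s k66 k3 8 (.d k65 k193 k67 7 0))))))), (.s k3 k2 0
  (.s k64 k127 6 (.s k192 k128 7 (.s k66 k129 8 (.s k86 k126 5 (.d k87 k84 k171 0 13))))))] (.c k3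
  (.l (.s k127 k64 6 (.s k63 k191 7 (.s k21 k42 6 (.s k61 k41 5 (.s k60 k62 0 (.s k125 k190 8 (.d
  k253 k189 k169 7 13)))))))) .n)) (.c k234 (.l (.s k127 k64 6 (.s k63 k191 7 (.s k21 k42 6 (.d k149
  k213 k192 7 14))))) .n))))))))))))

def t6_51 : T TT 256 :=
  (.f k255 k170 14 (.q k101 [(.s k69 k117 3 (.s k207 k138 10 (.s k223 k239 3 (.d k154 k16 k48 10
  14))))] (.c k16 (.q k1 [(.s k3 k2 0 (.s k87 k171 13 (.s k169 k253 13 (.d k86 k84 k252 0 14)))),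
  (.s k69 k117 3 (.s k169 k253 13 (.s k33 k237 9 (.s k49 k17 3 (.d k205 k137 k153 9 13))))), (.s k3
  k2 0 (.s k69 k117 3 (.s k137 k205 9 (.s k70 k204 10 (.s k71 k68 0 (.d k207 k139 k138 9 10))))))]
  .n) (.c k48 (.q k49 [(.s k117 k69 3 (.s k153 k205 13 (.s k17 k221 9 (.s k1 k33 3 (.d k253 k185
  k169 9 13))))), (.s k117 k69 3 (.s k253 k185 9 (.s k252 k254 0 (.s k84 k168 13 (.s k86 k87 0 (.d
  k169 k1 k3 13 14)))))), (.s k153 k205 13 (.s k17 k221 9 (.s k1 k33 3 (.s k3 k2 0 (.s k87 k171 13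
  (.s k86 k84 0 (.d k169 k253 k252 13 14))))))), (.s k69 k117 3 (.s k205 k153 13 (.s k137 k1 9 (.s
  k207 k138 10 (.s k204 k206 0 (.s k70 k3 10 (.d k68 k136 k71 9 0)))))))] (.c k1 (.q k4 [(.s k12 k8
  1 (.s k93 k174 12 (.s k166 k247 12 (.d k89 k81 k243 1 14)))), (.s k69 k117 3 (.s k166 k247 12 (.s
  k36 k231 8 (.s k52 k20 3 (.d k199 k134 k150 8 12))))), (.s k12 k8 1 (.s k69 k117 3 (.s k134 k199 8
  (.s k73 k195 10 (.s k77 k65 1 (.d k207 k142 k138 8 10))))))] .n) (.c k3 (.l (.s k69 k117 3 (.s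
  k205 k153 13 (.s k1 k137 9 (.s k33 k17 3 (.d k169 k237 k253 9 13)))))) .n))) (.c k69 (.q k21 [(.s
  k63 k42 6 (.s k127 k191 7 (.s k149 k213 7 (.d k106 k64 k192 6 14)))), (.s k149 k213 7 (.s k53 k197
  11 (.s k5 k37 3 (.s k15 k10 2 (.s k95 k175 11 (.s k90 k80 2 (.d k165 k245 k240 11 14)))))))] (.c
  k149 (.f k63 k42 6 (.q k106 [(.d k127 k191 k64 7 6), (.s k111 k96 2 (.s k207 k159 11 (.s k154 k48
  14 (.d k223 k239 k16 3 10))))] (.c k128 (.l (.s k191 k127 7 (.s k111 k96 2 (.s k207 k159 11 (.s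
  k154 k48 14 (.d k223 k239 k16 3 10)))))) (.c k191 (.q k128 [(.d k64 k127 k192 6 7), (.s k111 k96 2
  (.s k207 k159 11 (.s k223 k239 3 (.d k154 k16 k48 10 14))))] .n) .n)))) (.c k213 (.l (.s k63 k42 6
  (.s k127 k191 7 (.s k106 k64 6 (.s k111 k96 2 (.s k207 k159 11 (.s k154 k48 14 (.d k223 k239 k16 3
  10)))))))) .n))) (.c k117 (.q k21 [(.s k63 k42 6 (.s k127 k191 7 (.s k106 k64 6 (.d k149 k213 k192
  7 14)))), (.s k149 k213 7 (.s k53 k197 11 (.s k5 k37 3 (.s k15 k10 2 (.s k95 k175 11 (.s k90 k80 2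
  (.d k165 k245 k240 11 14)))))))] (.c k149 (.f k63 k42 6 (.q k106 [(.d k127 k191 k64 7 6), (.s k111
  k96 2 (.s k207 k159 11 (.s k154 k48 14 (.d k223 k239 k16 3 10))))] (.c k128 (.l (.s k191 k127 7
  (.s k111 k96 2 (.s k207 k159 11 (.s k154 k48 14 (.d k223 k239 k16 3 10)))))) (.c k191 (.q k128
  [(.d k64 k127 k192 6 7), (.s k111 k96 2 (.s k207 k159 11 (.s k223 k239 3 (.d k154 k16 k48 10
  14))))] .n) .n)))) (.c k213 (.l (.s k63 k42 6 (.s k127 k191 7 (.s k106 k64 6 (.s k111 k96 2 (.s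
  k207 k159 11 (.s k154 k48 14 (.d k223 k239 k16 3 10)))))))) .n))) (.c k138 (.l (.s k117 k69 3 (.s
  k48 k186 10 (.s k154 k207 14 (.d k16 k32 k223 3 10))))) (.c k154 (.f k69 k117 3 (.q k65 [(.s k77
  k73 1 (.s k89 k113 5 (.s k93 k81 1 (.d k125 k109 k105 3 5)))), (.s k73 k77 1 (.s k138 k207 10 (.s
  k195 k130 8 (.s k12 k134 10 (.d k8 k4 k203 1 8))))), (.s k105 k125 5 (.s k195 k130 8 (.s k150 k60
  14 (.d k215 k235 k20 5 8))))] (.c k138 (.q k186 [(.s k105 k125 5 (.s k97 k109 1 (.s k113 k81 3 (.d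
  k77 k73 k89 1 5)))), (.s k73 k77 1 (.s k195 k130 8 (.s k134 k12 10 (.s k199 k4 8 (.s k150 k52 12
  (.d k215 k20 k235 8 5)))))), (.s k105 k125 5 (.s k195 k130 8 (.s k150 k60 14 (.d k215 k235 k20 5
  8))))] .n) (.c k186 (.l (.s k138 k207 10 (.s k73 k77 1 (.s k8 k203 8 (.s k12 k4 1 (.d k195 k130
  k134 8 10)))))) .n)))) (.c k186 (.l (.s k69 k117 3 (.s k207 k138 10 (.s k154 k48 14 (.d k223 k239
  k16 3 10))))) (.c k207 (.f k69 k117 3 (.q k153 [(.s k205 k49 13 (.s k1 k137 9 (.s k221 k17 9 (.d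
  k253 k237 k169 3 13)))), (.s k221 k17 9 (.s k204 k238 4 (.s k68 k136 9 (.s k71 k70 0 (.s k86 k116
  4 (.s k87 k84 0 (.d k119 k103 k102 3 4))))))), (.s k205 k49 13 (.s k1 k137 9 (.s k3 k2 0 (.s k87
  k171 13 (.s k86 k84 0 (.d k169 k253 k252 13 14))))))] (.c k103 (.q k155 [(.s k205 k49 13 (.s k1
  k137 9 (.s k221 k17 9 (.d k253 k237 k169 3 13)))), (.s k154 k152 0 (.s k221 k17 9 (.s k223 k16 10
  (.s k19 k87 9 (.d k220 k222 k86 0 10))))), (.s k154 k152 0 (.s k205 k49 13 (.s k1 k137 9 (.s k3 k2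
  0 (.s k87 k171 13 (.d k223 k19 k16 9 10))))))] .n) (.c k155 (.q k103 [(.s k102 k100 0 (.s k221 k17
  9 (.s k204 k238 4 (.d k68 k119 k136 4 9)))), (.s k205 k49 13 (.s k1 k137 9 (.s k221 k17 9 (.d k253
  k237 k169 3 13)))), (.s k102 k100 0 (.s k68 k119 4 (.s k70 k71 0 (.s k204 k136 9 (.s k205 k49 13
  (.d k137 k3 k1 10 9))))))] .n) .n)))) (.c k223 (.q k1 [(.s k3 k2 0 (.s k87 k171 13 (.s k86 k84 0
  (.d k169 k253 k252 13 14)))), (.s k69 k117 3 (.s k169 k253 13 (.s k33 k237 9 (.s k49 k17 3 (.d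
  k205 k137 k153 9 13))))), (.s k3 k2 0 (.s k69 k117 3 (.s k137 k205 9 (.s k70 k204 10 (.s k71 k68 0
  (.d k207 k139 k138 9 10))))))] .n) (.c k239 (.l (.s k117 k69 3 (.s k48 k186 10 (.s k16 k32 3 (.d
  k154 k223 k207 10 14))))) .n))))))))))))

def t6_52 : T TT 256 :=
  (.f k255 k170 14 (.q k106 [(.s k64 k127 6 (.s k192 k128 7 (.s k149 k63 14 (.d k213 k234 k21 6
  7))))] (.c k21 (.q k1 [(.s k169 k253 13 (.s k3 k2 0 (.s k86 k252 14 (.d k87 k84 k171 0 13)))), (.s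
  k64 k127 6 (.s k192 k128 7 (.s k213 k234 6 (.s k253 k169 13 (.s k193 k233 5 (.s k65 k129 7 (.d
  k195 k130 k194 8 0))))))), (.s k3 k2 0 (.s k64 k127 6 (.s k192 k128 7 (.s k66 k129 8 (.s k86 k126
  5 (.d k87 k84 k171 0 13))))))] (.c k171 (.l (.s k3 k2 0 (.s k127 k64 6 (.s k63 k191 7 (.s k43 k23
  5 (.d k169 k232 k253 8 13)))))) .n)) (.c k63 (.q k1 [(.s k3 k2 0 (.s k87 k171 13 (.s k86 k84 0 (.d
  k169 k253 k252 13 14)))), (.s k64 k127 6 (.s k192 k128 7 (.s k213 k234 6 (.s k253 k169 13 (.s k193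
  k233 5 (.s k65 k129 7 (.d k195 k130 k194 8 0))))))), (.s k3 k2 0 (.s k64 k127 6 (.s k192 k128 7
  (.s k66 k129 8 (.s k86 k126 5 (.d k87 k84 k171 0 13))))))] (.c k171 (.l (.s k3 k2 0 (.s k64 k127 6
  (.s k169 k253 13 (.s k86 k252 14 (.s k192 k128 7 (.d k66 k126 k129 5 8))))))) .n)) (.c k64 (.q
  k195 [(.s k65 k130 8 (.s k105 k125 5 (.s k215 k235 5 (.d k150 k20 k60 8 14)))), (.s k65 k130 8 (.s
  k105 k125 5 (.s k107 k104 0 (.s k63 k151 13 (.s k21 k42 6 (.d k149 k213 k192 7 14)))))), (.s k215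
  k235 5 (.s k150 k20 8 (.s k194 k62 13 (.s k192 k193 0 (.s k149 k63 14 (.d k213 k234 k21 6 7))))))]
  (.c k105 (.q k213 [(.s k149 k21 7 (.d k192 k234 k63 6 14)), (.s k65 k130 8 (.s k192 k234 6 (.s
  k193 k194 0 (.s k1 k129 7 (.d k253 k233 k169 5 13))))), (.s k21 k149 7 (.s k63 k42 6 (.s k107 k151
  13 (.s k235 k215 5 (.s k171 k43 7 (.s k87 k3 13 (.d k127 k191 k67 7 5)))))))] (.c k40 (.l (.s k235
  k215 5 (.s k149 k21 7 (.d k192 k234 k63 6 14)))) (.c k235 (.q k40 [(.s k149 k21 7 (.d k192 k234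
  k63 6 14)), (.s k20 k60 5 (.s k150 k215 8 (.s k192 k234 6 (.d k194 k193 k62 0 13)))), (.s k20 k60
  5 (.s k21 k149 7 (.s k22 k23 0 (.s k42 k63 6 (.s k62 k2 5 (.d k150 k215 k194 8 13))))))] .n) .n)))
  (.c k150 (.q k199 [(.s k207 k203 1 (.s k69 k138 10 (.s k101 k117 3 (.s k154 k48 14 (.d k223 k239
  k16 3 10))))), (.s k207 k203 1 (.s k215 k235 5 (.s k223 k239 3 (.s k219 k211 1 (.d k231 k247 k243
  3 5))))), (.s k207 k203 1 (.s k69 k138 10 (.s k134 k4 8 (.s k73 k12 10 (.d k65 k130 k77 8 1))))),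
  (.s k215 k235 5 (.s k247 k231 3 (.s k4 k166 12 (.s k12 k8 1 (.d k134 k69 k73 8 10)))))] (.c k130
  (.q k190 [(.s k207 k203 1 (.s k69 k138 10 (.s k223 k239 3 (.s k154 k16 10 (.d k101 k117 k48 3
  14))))), (.s k207 k203 1 (.s k215 k235 5 (.s k223 k239 3 (.s k219 k211 1 (.d k231 k247 k243 3
  5))))), (.s k215 k235 5 (.s k247 k231 3 (.s k4 k166 12 (.s k12 k8 1 (.d k134 k69 k73 8 10))))),
  (.s k125 k60 8 (.s k65 k105 5 (.s k207 k203 1 (.s k69 k138 10 (.s k73 k77 1 (.d k134 k4 k12 8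
  10))))))] .n) (.c k190 (.l (.s k130 k65 8 (.s k207 k203 1 (.s k69 k138 10 (.s k4 k134 8 (.s k215
  k235 5 (.d k247 k166 k231 12 3))))))) .n))) .n))) (.c k127 (.q k195 [(.s k65 k130 8 (.s k105 k125
  5 (.s k215 k235 5 (.d k150 k20 k60 8 14)))), (.s k215 k235 5 (.s k150 k20 8 (.s k194 k62 13 (.s
  k192 k193 0 (.s k149 k63 14 (.d k213 k234 k21 6 7)))))), (.s k65 k130 8 (.s k105 k125 5 (.s k107
  k104 0 (.s k63 k151 13 (.s k21 k42 6 (.d k149 k213 k192 7 14))))))] (.c k105 (.q k149 [(.s k21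
  k213 7 (.d k63 k42 k192 6 14)), (.s k63 k192 14 (.s k151 k107 13 (.s k150 k148 0 (.d k215 k235 k20
  5 8))))] (.c k40 (.l (.s k235 k215 5 (.s k21 k213 7 (.d k63 k42 k192 6 14)))) (.c k63 (.l (.s k213
  k21 7 (.s k192 k234 6 (.s k194 k193 0 (.s k150 k62 13 (.d k215 k235 k20 5 8)))))) (.c k192 (.l (.s
  k21 k213 7 (.s k63 k42 6 (.s k151 k107 13 (.s k150 k148 0 (.d k215 k235 k20 5 8)))))) (.c k235 (.q
  k40 [(.s k21 k213 7 (.d k63 k42 k192 6 14)), (.s k20 k60 5 (.s k63 k192 14 (.s k150 k215 8 (.d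
  k151 k148 k107 0 13))))] (.c k63 (.l (.s k20 k60 5 (.s k150 k215 8 (.s k213 k21 7 (.s k192 k234 6
  (.d k194 k62 k193 13 0)))))) (.c k192 (.l (.s k20 k60 5 (.s k21 k213 7 (.s k63 k42 6 (.s k150 k215
  8 (.d k151 k148 k107 0 13)))))) .n))) .n))))) (.c k150 (.q k199 [(.s k207 k203 1 (.s k215 k235 5
  (.s k223 k239 3 (.s k219 k211 1 (.d k231 k247 k243 3 5))))), (.s k207 k203 1 (.s k69 k138 10 (.s
  k134 k4 8 (.s k73 k12 10 (.d k65 k130 k77 8 1))))), (.s k215 k235 5 (.s k247 k231 3 (.s k4 k166 12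
  (.s k12 k8 1 (.d k134 k69 k73 8 10)))))] (.c k130 (.q k190 [(.s k207 k203 1 (.s k69 k138 10 (.s
  k223 k239 3 (.s k154 k16 10 (.d k101 k117 k48 3 14))))), (.s k207 k203 1 (.s k215 k235 5 (.s k223
  k239 3 (.s k219 k211 1 (.d k231 k247 k243 3 5))))), (.s k215 k235 5 (.s k247 k231 3 (.s k4 k166 12
  (.s k12 k8 1 (.d k134 k69 k73 8 10))))), (.s k125 k60 8 (.s k65 k105 5 (.s k207 k203 1 (.s k69
  k138 10 (.s k73 k77 1 (.d k134 k4 k12 8 10))))))] .n) (.c k190 (.l (.s k130 k65 8 (.s k207 k203 1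
  (.s k69 k138 10 (.s k4 k134 8 (.s k215 k235 5 (.d k247 k166 k231 12 3))))))) .n))) .n))) (.c k128
  (.l (.s k127 k64 6 (.s k63 k191 7 (.s k149 k192 14 (.d k21 k42 k213 6 7))))) (.c k149 (.f k64 k127
  6 (.f k128 k192 7 (.q k65 [(.s k105 k125 5 (.s k104 k107 0 (.s k124 k84 5 (.d k67 k66 k86 0 6)))),
  (.s k195 k130 8 (.s k215 k235 5 (.s k150 k20 8 (.d k105 k125 k60 5 14)))), (.s k67 k66 0 (.s k195
  k130 8 (.s k3 k131 7 (.s k87 k171 13 (.s k86 k84 0 (.s k169 k252 14 (.d k1 k2 k253 0 13)))))))]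
  .n))) (.c k191 (.l (.s k64 k127 6 (.s k192 k128 7 (.s k149 k63 14 (.d k213 k234 k21 6 7))))) (.c
  k192 (.q k1 [(.s k3 k2 0 (.s k87 k171 13 (.s k86 k84 0 (.d k169 k253 k252 13 14)))), (.s k127 k64
  6 (.s k63 k191 7 (.s k21 k42 6 (.s k61 k41 5 (.s k253 k169 13 (.s k125 k189 7 (.d k60 k190 k62 8
  0))))))), (.s k3 k2 0 (.s k127 k64 6 (.s k63 k191 7 (.s k21 k42 6 (.s k23 k43 5 (.s k22 k20 0 (.d
  k41 k61 k60 5 6)))))))] .n) (.c k213 (.q k1 [(.s k3 k2 0 (.s k87 k171 13 (.s k86 k84 0 (.d k169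
  k253 k252 13 14)))), (.s k64 k127 6 (.s k169 k253 13 (.s k192 k128 7 (.s k149 k63 14 (.s k129 k189
  5 (.s k66 k3 8 (.d k65 k193 k67 7 0))))))), (.s k3 k2 0 (.s k64 k127 6 (.s k192 k128 7 (.s k66
  k129 8 (.s k86 k126 5 (.d k87 k84 k171 0 13))))))] (.c k3 (.l (.s k127 k64 6 (.s k63 k191 7 (.s
  k21 k42 6 (.s k61 k41 5 (.s k60 k62 0 (.s k125 k190 8 (.d k253 k189 k169 7 13)))))))) .n)) (.c
  k234 (.l (.s k127 k64 6 (.s k63 k191 7 (.s k21 k42 6 (.d k149 k213 k192 7 14))))) .n))))))))))))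

def t6_53 : T TT 256 :=
  (.f k255 k170 14 (.q k106 [(.s k64 k127 6 (.s k192 k128 7 (.s k213 k234 6 (.d k149 k21 k63 7
  14))))] (.c k21 (.q k5 [(.s k15 k10 2 (.s k95 k175 11 (.s k90 k80 2 (.d k165 k245 k240 11 14)))),
  (.s k127 k64 6 (.s k63 k191 7 (.s k165 k245 11 (.s k47 k224 10 (.d k15 k10 k31 2 3))))), (.s k64
  k127 6 (.s k192 k128 7 (.s k213 k234 6 (.s k245 k165 11 (.s k197 k229 3 (.s k69 k133 7 (.d k207
  k138 k202 10 2))))))), (.s k15 k10 2 (.s k64 k127 6 (.s k192 k128 7 (.s k74 k133 10 (.s k90 k122 3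
  (.d k95 k80 k175 2 11))))))] .n) (.c k63 (.q k48 [(.s k16 k32 3 (.s k117 k186 10 (.s k101 k69 3
  (.d k154 k223 k207 10 14)))), (.s k32 k16 3 (.s k64 k127 6 (.s k192 k128 7 (.s k96 k144 11 (.s k80
  k112 3 (.d k160 k224 k240 7 11)))))), (.s k64 k127 6 (.s k117 k186 10 (.s k101 k69 3 (.s k96 k111
  2 (.d k192 k128 k144 7 11)))))] (.c k117 (.l (.s k16 k32 3 (.s k64 k127 6 (.s k154 k223 10 (.s
  k101 k207 14 (.s k192 k128 7 (.d k96 k111 k144 2 11))))))) .n)) (.c k64 (.q k60 [(.s k20 k40 5 (.s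
  k125 k190 8 (.s k150 k215 8 (.d k105 k65 k195 5 14)))), (.s k20 k40 5 (.s k150 k215 8 (.s k62 k194
  13 (.s k63 k61 0 (.s k21 k42 6 (.d k149 k213 k192 7 14)))))), (.s k125 k190 8 (.s k105 k65 5 (.s
  k104 k107 0 (.s k192 k148 13 (.s k149 k63 14 (.d k213 k234 k21 6 7))))))] (.c k105 (.q k86 [(.s
  k84 k87 0 (.s k252 k168 13 (.s k253 k254 0 (.d k169 k1 k3 13 14)))), (.s k126 k66 5 (.s k190 k125
  8 (.s k62 k254 7 (.s k150 k194 13 (.d k20 k40 k215 5 8)))))] (.c k40 (.q k235 [(.s k84 k87 0 (.s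
  k252 k168 13 (.s k253 k254 0 (.d k169 k1 k3 13 14)))), (.s k126 k66 5 (.s k190 k125 8 (.s k62 k254
  7 (.s k150 k194 13 (.d k215 k195 k20 5 8)))))] (.c k254 (.l (.s k87 k84 0 (.s k3 k171 13 (.s k1 k2
  0 (.d k169 k253 k252 13 14))))) .n)) (.c k235 (.l (.s k40 k20 5 (.s k84 k87 0 (.s k252 k168 13 (.s
  k169 k3 14 (.d k253 k254 k1 0 13)))))) (.c k254 (.l (.s k87 k84 0 (.s k3 k171 13 (.s k1 k2 0 (.d
  k169 k253 k252 13 14))))) .n)))) (.c k150 (.q k69 [(.s k207 k138 10 (.s k223 k239 3 (.s k154 k16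
  10 (.d k101 k117 k48 3 14)))), (.s k101 k117 3 (.s k207 k138 10 (.s k109 k158 12 (.s k105 k97 1
  (.d k125 k190 k65 8 5))))), (.s k190 k125 8 (.s k207 k138 10 (.s k158 k109 12 (.s k174 k142 3 (.s
  k93 k12 12 (.d k223 k239 k28 3 8))))))] (.c k130 (.l (.s k190 k125 8 (.s k101 k117 3 (.s k207 k138
  10 (.s k154 k48 14 (.d k223 k239 k16 3 10)))))) (.c k138 (.l (.s k117 k101 3 (.s k186 k48 10 (.s
  k190 k125 8 (.s k182 k178 1 (.s k243 k121 10 (.d k247 k52 k251 8 1))))))) (.c k154 (.l (.s k20 k40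
  5 (.s k117 k101 3 (.s k48 k186 10 (.s k138 k207 10 (.s k52 k56 1 (.s k4 k36 3 (.d k247 k166 k182
  12 8)))))))) (.c k186 (.l (.s k101 k117 3 (.s k207 k138 10 (.s k154 k48 14 (.d k223 k239 k16 3
  10))))) (.c k190 (.q k130 [(.s k207 k138 10 (.s k223 k239 3 (.s k154 k16 10 (.d k101 k117 k48 3
  14)))), (.s k65 k195 8 (.s k77 k73 1 (.s k125 k105 5 (.s k109 k93 3 (.d k207 k138 k158 10 12))))),
  (.s k65 k195 8 (.s k77 k73 1 (.s k101 k117 3 (.s k89 k113 5 (.s k93 k81 1 (.d k125 k109 k105 3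
  5))))))] .n) (.c k207 (.l (.s k20 k40 5 (.s k117 k101 3 (.s k48 k186 10 (.s k52 k56 1 (.s k4 k36 3
  (.d k247 k166 k182 12 8))))))) .n))))))) .n))) (.c k127 (.q k195 [(.s k65 k130 8 (.s k215 k235 5
  (.s k150 k20 8 (.d k105 k125 k60 5 14)))), (.s k65 k130 8 (.s k105 k125 5 (.s k107 k104 0 (.s k63
  k151 13 (.s k21 k42 6 (.d k149 k213 k192 7 14)))))), (.s k215 k235 5 (.s k150 k20 8 (.s k194 k62
  13 (.s k192 k193 0 (.s k149 k63 14 (.d k213 k234 k21 6 7))))))] (.c k105 (.q k81 [(.s k89 k93 1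
  (.s k243 k162 12 (.s k247 k251 1 (.d k166 k4 k12 12 14)))), (.s k65 k130 8 (.s k97 k113 3 (.s k48
  k146 12 (.s k32 k16 3 (.d k162 k227 k243 8 12)))))] (.c k40 (.l (.s k235 k215 5 (.s k89 k93 1 (.s
  k243 k162 12 (.s k166 k12 14 (.d k247 k251 k4 1 12)))))) (.c k162 (.l (.s k65 k130 8 (.s k89 k93 1
  (.s k97 k113 3 (.s k146 k48 12 (.s k211 k16 8 (.s k150 k28 10 (.d k215 k20 k235 8 5)))))))) (.c
  k235 (.q k40 [(.s k89 k93 1 (.s k243 k162 12 (.s k166 k12 14 (.d k247 k251 k4 1 12)))), (.s k20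
  k60 5 (.s k150 k215 8 (.s k194 k62 13 (.s k192 k193 0 (.s k213 k234 6 (.d k149 k63 k21 14 7))))))]
  .n) (.c k243 (.l (.s k65 k130 8 (.s k93 k89 1 (.s k12 k174 12 (.s k8 k4 1 (.s k73 k134 10 (.s k69
  k77 1 (.d k138 k203 k207 8 10)))))))) .n))))) (.c k150 (.q k199 [(.s k207 k203 1 (.s k215 k235 5
  (.s k223 k239 3 (.s k219 k211 1 (.d k231 k247 k243 3 5))))), (.s k207 k203 1 (.s k69 k138 10 (.s
  k101 k117 3 (.s k154 k48 14 (.d k223 k239 k16 3 10))))), (.s k207 k203 1 (.s k69 k138 10 (.s k4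
  k134 8 (.s k215 k235 5 (.d k247 k166 k231 12 3))))), (.s k215 k235 5 (.s k247 k231 3 (.s k4 k166
  12 (.s k12 k8 1 (.d k134 k69 k73 8 10)))))] (.c k130 (.q k190 [(.s k207 k203 1 (.s k215 k235 5 (.s
  k223 k239 3 (.s k219 k211 1 (.d k231 k247 k243 3 5))))), (.s k207 k203 1 (.s k69 k138 10 (.s k101
  k117 3 (.s k154 k48 14 (.d k223 k239 k16 3 10))))), (.s k215 k235 5 (.s k247 k231 3 (.s k4 k166 12
  (.s k12 k8 1 (.d k134 k69 k73 8 10))))), (.s k125 k60 8 (.s k65 k105 5 (.s k207 k203 1 (.s k69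
  k138 10 (.s k73 k77 1 (.d k134 k4 k12 8 10))))))] .n) (.c k190 (.l (.s k130 k65 8 (.s k207 k203 1
  (.s k69 k138 10 (.s k4 k134 8 (.s k215 k235 5 (.d k247 k166 k231 12 3))))))) .n))) .n))) (.c k128
  (.l (.s k127 k64 6 (.s k63 k191 7 (.s k149 k192 14 (.d k21 k42 k213 6 7))))) (.c k149 (.f k127 k64
  6 (.q k101 [(.s k69 k117 3 (.s k207 k138 10 (.s k223 k239 3 (.d k154 k16 k48 10 14)))), (.s k111
  k96 2 (.s k79 k95 3 (.s k112 k90 6 (.d k117 k122 k69 2 3))))] (.c k69 (.l (.s k111 k96 2 (.s k79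
  k95 3 (.s k112 k90 6 (.s k117 k122 2 (.s k48 k186 10 (.s k16 k32 3 (.d k154 k223 k207 10
  14)))))))) (.c k117 (.l (.s k111 k96 2 (.s k95 k79 3 (.s k175 k15 11 (.s k239 k47 7 (.s k207 k223
  3 (.d k63 k191 k159 7 11))))))) (.c k128 (.l (.s k191 k63 7 (.s k69 k117 3 (.s k207 k138 10 (.s
  k223 k239 3 (.d k154 k48 k16 14 10)))))) (.c k191 (.q k128 [(.s k69 k117 3 (.s k207 k138 10 (.s
  k223 k239 3 (.d k154 k16 k48 10 14)))), (.s k111 k96 2 (.s k79 k95 3 (.s k112 k90 6 (.d k117 k122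
  k69 2 3))))] (.c k69 (.l (.s k111 k96 2 (.s k79 k95 3 (.s k112 k90 6 (.s k117 k122 2 (.s k48 k186
  10 (.s k16 k32 3 (.d k154 k223 k207 10 14)))))))) (.c k117 (.f k111 k96 2 (.l (.s k95 k79 3 (.s
  k80 k90 2 (.s k175 k15 11 (.s k47 k239 7 (.s k165 k224 10 (.s k245 k5 11 (.d k240 k250 k160 2
  11))))))))) .n))) .n)))))) (.c k191 (.l (.s k64 k127 6 (.s k192 k128 7 (.s k149 k63 14 (.d k213
  k234 k21 6 7))))) (.c k192 (.q k1 [(.s k3 k2 0 (.s k87 k171 13 (.s k86 k84 0 (.d k169 k253 k252 13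
  14)))), (.s k127 k64 6 (.s k63 k191 7 (.s k21 k42 6 (.s k61 k41 5 (.s k253 k169 13 (.s k125 k189 7
  (.d k60 k190 k62 8 0))))))), (.s k3 k2 0 (.s k127 k64 6 (.s k63 k191 7 (.s k21 k42 6 (.s k23 k43 5
  (.s k22 k20 0 (.d k41 k61 k60 5 6)))))))] .n) (.c k213 (.q k1 [(.s k3 k2 0 (.s k87 k171 13 (.s k86
  k84 0 (.d k169 k253 k252 13 14)))), (.s k64 k127 6 (.s k169 k253 13 (.s k192 k128 7 (.s k149 k63
  14 (.s k129 k189 5 (.s k66 k3 8 (.d k65 k193 k67 7 0))))))), (.s k3 k2 0 (.s k64 k127 6 (.s k192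
  k128 7 (.s k66 k129 8 (.s k86 k126 5 (.d k87 k84 k171 0 13))))))] (.c k3 (.l (.s k127 k64 6 (.s
  k63 k191 7 (.s k21 k42 6 (.s k61 k41 5 (.s k60 k62 0 (.s k125 k190 8 (.d k253 k189 k169 7
  13)))))))) .n)) (.c k234 (.l (.s k127 k64 6 (.s k63 k191 7 (.s k21 k42 6 (.d k149 k213 k192 7
  14))))) .n))))))))))))

def t6_54 : T TT 256 :=
  (.f k255 k170 14 (.q k21 [(.s k149 k213 7 (.s k63 k42 6 (.s k106 k192 14 (.d k127 k64 k191 6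
  7))))] (.c k22 (.q k38 [(.s k149 k213 7 (.s k63 k42 6 (.s k106 k192 14 (.d k127 k64 k191 6 7)))),
  (.s k4 k55 4 (.s k12 k8 1 (.s k93 k174 12 (.s k89 k81 1 (.d k166 k247 k243 12 14)))))] .n) (.c k38
  (.q k22 [(.s k149 k213 7 (.s k63 k42 6 (.s k106 k192 14 (.d k127 k64 k191 6 7)))), (.s k20 k23 0
  (.s k60 k40 5 (.s k125 k190 8 (.s k105 k65 5 (.d k150 k215 k195 8 14)))))] .n) (.c k42 (.q k38
  [(.s k4 k55 4 (.s k12 k8 1 (.s k93 k174 12 (.s k89 k81 1 (.d k166 k247 k243 12 14))))), (.s k55 k4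
  4 (.s k149 k213 7 (.s k102 k196 12 (.s k68 k119 4 (.s k204 k136 9 (.s k153 k51 14 (.d k221 k238
  k17 4 9)))))))] (.c k4 (.f k149 k213 7 (.q k5 [(.s k53 k37 3 (.s k101 k197 11 (.s k117 k69 3 (.d
  k245 k181 k165 7 11)))), (.s k15 k10 2 (.s k95 k175 11 (.s k90 k80 2 (.d k165 k245 k240 11 14)))),
  (.s k15 k10 2 (.s k37 k53 3 (.s k26 k48 6 (.s k31 k16 2 (.s k90 k208 10 (.d k95 k80 k175 2
  11))))))] (.c k106 (.q k234 [(.s k53 k37 3 (.s k101 k197 11 (.s k117 k69 3 (.d k245 k181 k165 7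
  11)))), (.s k15 k10 2 (.s k95 k175 11 (.s k90 k80 2 (.d k165 k245 k240 11 14)))), (.s k15 k10 2
  (.s k37 k53 3 (.s k26 k48 6 (.s k31 k16 2 (.s k90 k208 10 (.d k95 k80 k175 2 11))))))] .n) (.c
  k234 (.q k106 [(.s k63 k192 14 (.d k127 k64 k191 6 7)), (.s k15 k10 2 (.s k95 k175 11 (.s k90 k80
  2 (.d k165 k245 k240 11 14))))] .n) .n)))) (.c k55 (.f k149 k213 7 (.q k53 [(.s k5 k37 3 (.s k101
  k197 11 (.s k117 k69 3 (.d k245 k181 k165 7 11)))), (.s k5 k37 3 (.s k15 k10 2 (.s k95 k175 11 (.s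
  k90 k80 2 (.s k31 k208 10 (.s k223 k159 7 (.d k16 k26 k154 2 10))))))), (.s k101 k197 11 (.s k69
  k117 3 (.s k207 k138 10 (.s k154 k48 14 (.d k223 k239 k16 3 10)))))] (.c k106 (.q k234 [(.s k5 k37
  3 (.s k101 k197 11 (.s k117 k69 3 (.d k245 k181 k165 7 11)))), (.s k101 k197 11 (.s k69 k117 3 (.s
  k207 k138 10 (.s k154 k48 14 (.d k223 k239 k16 3 10))))), (.s k5 k37 3 (.s k15 k10 2 (.s k95 k175
  11 (.s k90 k80 2 (.d k165 k245 k240 11 14)))))] (.c k245 (.l (.s k37 k5 3 (.s k101 k197 11 (.s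
  k229 k165 7 (.s k69 k117 3 (.s k207 k138 10 (.d k239 k224 k223 2 3))))))) .n)) (.c k234 (.q k106
  [(.s k63 k192 14 (.d k127 k64 k191 6 7)), (.s k5 k37 3 (.s k101 k197 11 (.s k117 k69 3 (.d k245
  k181 k165 7 11))))] .n) .n)))) (.c k106 (.q k234 [(.d k213 k192 k149 6 7), (.s k4 k55 4 (.s k12 k8
  1 (.s k93 k174 12 (.s k89 k81 1 (.d k166 k247 k243 12 14)))))] .n) (.c k234 (.q k106 [(.s k64 k127
  6 (.s k149 k213 7 (.d k192 k128 k63 7 14))), (.s k4 k55 4 (.s k12 k8 1 (.s k93 k174 12 (.s k89 k81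
  1 (.d k166 k247 k243 12 14)))))] .n) (.c k247 (.l (.s k4 k55 4 (.s k12 k8 1 (.s k25 k51 6 (.s k17
  k29 1 (.s k93 k174 12 (.s k89 k81 1 (.d k153 k217 k221 7 9)))))))) .n)))))) (.c k63 (.q k4 [(.s
  k12 k8 1 (.s k93 k174 12 (.s k89 k81 1 (.d k166 k247 k243 12 14)))), (.s k149 k213 7 (.s k166 k247
  12 (.s k132 k183 4 (.s k196 k68 7 (.d k55 k38 k102 4 12))))), (.s k12 k8 1 (.s k38 k55 4 (.s k51
  k25 6 (.s k17 k34 4 (.s k119 k187 9 (.s k102 k68 4 (.d k153 k221 k204 9 14)))))))] (.c k22 (.l (.s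
  k38 k55 4 (.s k12 k8 1 (.s k93 k174 12 (.s k89 k81 1 (.d k166 k247 k243 12 14)))))) (.c k38 (.q
  k22 [(.s k12 k8 1 (.s k93 k174 12 (.s k89 k81 1 (.d k166 k247 k243 12 14)))), (.s k20 k23 0 (.s
  k60 k40 5 (.s k125 k190 8 (.s k105 k65 5 (.d k150 k215 k195 8 14)))))] .n) .n))) (.c k64 (.f k42
  k63 6 (.q k4 [(.s k38 k55 4 (.s k34 k46 1 (.s k51 k17 4 (.d k12 k8 k25 1 6)))), (.s k149 k213 7
  (.s k166 k247 12 (.s k132 k183 4 (.s k196 k68 7 (.d k55 k38 k102 4 12)))))] (.c k22 (.l (.s k38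
  k55 4 (.s k12 k8 1 (.s k34 k46 1 (.d k51 k17 k25 4 6))))) (.c k38 (.q k22 [(.s k2 k62 5 (.s k3 k1
  0 (.s k20 k23 0 (.d k60 k40 k41 5 6)))), (.s k12 k8 1 (.s k93 k174 12 (.s k89 k81 1 (.d k166 k247
  k243 12 14))))] .n) (.c k55 (.l (.s k12 k8 1 (.s k93 k174 12 (.s k89 k81 1 (.d k166 k247 k243 12
  14))))) .n))))) (.c k106 (.f k42 k63 6 (.f k149 k213 7 (.q k20 [(.s k60 k40 5 (.s k125 k190 8 (.s
  k105 k65 5 (.d k150 k215 k195 8 14)))), (.s k22 k23 0 (.s k2 k62 5 (.s k3 k1 0 (.d k60 k40 k41 5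
  6)))), (.s k150 k215 8 (.s k148 k151 0 (.s k212 k84 7 (.d k23 k22 k86 0 8))))] (.c k22 (.q k38
  [(.s k60 k40 5 (.s k125 k190 8 (.s k105 k65 5 (.d k150 k215 k195 8 14)))), (.s k4 k55 4 (.s k12 k8
  1 (.s k34 k46 1 (.d k51 k17 k25 4 6))))] .n) (.c k38 (.l (.s k22 k23 0 (.s k2 k62 5 (.s k3 k1 0
  (.d k60 k40 k41 5 6))))) (.c k150 (.l (.s k22 k23 0 (.s k60 k40 5 (.s k3 k41 6 (.d k2 k1 k62 0
  5))))) .n)))))) (.c k127 (.f k42 k63 6 (.q k22 [(.s k2 k62 5 (.s k3 k1 0 (.s k20 k23 0 (.d k60 k40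
  k41 5 6)))), (.s k20 k23 0 (.s k60 k40 5 (.s k125 k190 8 (.s k105 k65 5 (.d k150 k215 k195 8
  14))))), (.s k2 k62 5 (.s k1 k3 0 (.s k61 k41 5 (.s k149 k213 7 (.s k105 k193 13 (.s k125 k65 5
  (.d k253 k189 k169 7 13)))))))] (.c k3 (.f k23 k20 0 (.q k12 [(.s k4 k8 1 (.s k93 k174 12 (.s k89
  k81 1 (.d k166 k247 k243 12 14)))), (.s k8 k4 1 (.s k25 k59 4 (.s k17 k29 1 (.d k51 k34 k38 4
  6)))), (.s k93 k174 12 (.s k89 k81 1 (.s k149 k213 7 (.s k29 k209 9 (.s k17 k25 1 (.d k221 k157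
  k153 7 9))))))] .n)) (.c k23 (.l (.s k2 k62 5 (.s k3 k1 0 (.s k60 k41 6 (.s k20 k40 5 (.s k87 k171
  13 (.s k86 k84 0 (.d k150 k214 k215 7 8)))))))) (.c k60 (.l (.s k20 k23 0 (.s k150 k215 8 (.s k86
  k214 7 (.s k87 k84 0 (.s k3 k171 13 (.d k2 k1 k62 0 5))))))) .n))))) (.c k149 (.q k4 [(.s k166
  k247 12 (.s k12 k8 1 (.s k89 k243 14 (.d k93 k81 k174 1 12)))), (.s k38 k55 4 (.s k42 k63 6 (.s
  k34 k46 1 (.s k51 k17 4 (.d k12 k8 k25 1 6)))))] (.c k8 (.l (.s k38 k55 4 (.s k42 k63 6 (.s k34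
  k46 1 (.s k51 k17 4 (.s k119 k187 9 (.s k102 k68 4 (.d k166 k230 k247 7 12)))))))) (.c k12 (.l (.s
  k63 k42 6 (.s k247 k166 12 (.s k243 k251 1 (.s k183 k123 9 (.d k55 k38 k119 4 7)))))) (.c k22 (.l
  (.s k38 k55 4 (.s k12 k8 1 (.s k25 k51 6 (.s k29 k17 1 (.d k63 k46 k42 4 6)))))) (.c k38 (.q k22
  [(.s k166 k247 12 (.s k12 k8 1 (.s k89 k243 14 (.d k93 k81 k174 1 12)))), (.s k20 k23 0 (.s k42
  k63 6 (.s k2 k62 5 (.s k3 k1 0 (.d k60 k40 k41 5 6)))))] (.c k128 (.q k191 [(.d k63 k42 k127 6 7),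
  (.s k12 k8 1 (.s k93 k174 12 (.s k89 k81 1 (.d k166 k247 k243 12 14))))] .n) (.c k191 (.q k128
  [(.s k12 k8 1 (.s k166 k247 12 (.s k89 k243 14 (.d k93 k81 k174 1 12)))), (.s k20 k23 0 (.s k42
  k63 6 (.s k2 k62 5 (.s k3 k1 0 (.d k60 k40 k41 5 6)))))] .n) .n))) (.c k128 (.q k191 [(.d k63 k42
  k127 6 7), (.s k12 k8 1 (.s k93 k174 12 (.s k89 k81 1 (.d k166 k247 k243 12 14))))] (.c k22 (.l
  (.s k38 k55 4 (.d k63 k42 k127 6 7))) (.c k38 (.q k22 [(.d k63 k42 k127 6 7), (.s k12 k8 1 (.s k93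
  k174 12 (.s k89 k81 1 (.d k166 k247 k243 12 14))))] .n) .n))) (.c k191 (.q k128 [(.s k12 k8 1 (.s
  k166 k247 12 (.s k89 k243 14 (.d k93 k81 k174 1 12)))), (.s k38 k55 4 (.s k42 k63 6 (.s k46 k34 1
  (.s k64 k192 7 (.s k106 k127 6 (.d k166 k226 k247 9 12)))))), (.s k38 k55 4 (.s k12 k8 1 (.s k25
  k51 6 (.s k29 k17 1 (.d k63 k46 k42 4 6)))))] (.c k22 (.l (.s k38 k55 4 (.s k12 k8 1 (.s k25 k51 6
  (.s k29 k17 1 (.d k63 k46 k42 4 6)))))) (.c k38 (.q k22 [(.s k12 k8 1 (.s k166 k247 12 (.s k89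
  k243 14 (.d k93 k81 k174 1 12)))), (.s k20 k23 0 (.s k42 k63 6 (.s k2 k62 5 (.s k3 k1 0 (.d k60
  k40 k41 5 6)))))] .n) .n))) .n))))))) (.c k191 (.f k149 k213 7 (.q k38 [(.s k42 k63 6 (.s k34 k46
  1 (.s k51 k17 4 (.s k12 k25 6 (.d k4 k8 k55 1 4))))), (.s k4 k55 4 (.s k12 k8 1 (.s k93 k174 12
  (.s k89 k81 1 (.d k166 k247 k243 12 14))))), (.s k42 k63 6 (.s k34 k46 1 (.s k17 k51 4 (.s k29 k25
  1 (.s k89 k209 9 (.s k93 k81 1 (.d k221 k157 k153 7 9)))))))] (.c k12 (.l (.s k55 k4 4 (.s k63 k42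
  6 (.s k51 k59 1 (.s k102 k196 12 (.d k119 k68 k187 4 9)))))) (.c k55 (.f k42 k63 6 (.l (.s k34 k46
  1 (.s k51 k17 4 (.s k12 k25 6 (.s k4 k8 1 (.s k93 k174 12 (.s k89 k81 1 (.d k166 k247 k243 12
  14))))))))) .n)))) (.c k192 (.f k149 k213 7 (.q k38 [(.s k42 k63 6 (.s k34 k46 1 (.s k51 k17 4 (.s
  k12 k25 6 (.d k4 k8 k55 1 4))))), (.s k4 k55 4 (.s k12 k8 1 (.s k93 k174 12 (.s k89 k81 1 (.d k166
  k247 k243 12 14))))), (.s k42 k63 6 (.s k34 k46 1 (.s k17 k51 4 (.s k29 k25 1 (.s k89 k209 9 (.s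
  k93 k81 1 (.d k221 k157 k153 7 9)))))))] (.c k12 (.l (.s k55 k4 4 (.s k63 k42 6 (.s k51 k59 1 (.s
  k102 k196 12 (.d k119 k68 k187 4 9)))))) (.c k55 (.f k42 k63 6 (.l (.s k34 k46 1 (.s k51 k17 4 (.s
  k12 k25 6 (.s k4 k8 1 (.s k93 k174 12 (.s k89 k81 1 (.d k166 k247 k243 12 14))))))))) .n)))) (.c
  k213 (.q k4 [(.s k12 k8 1 (.s k93 k174 12 (.s k89 k81 1 (.d k166 k247 k243 12 14)))), (.s k38 k55
  4 (.s k42 k63 6 (.s k34 k46 1 (.s k51 k17 4 (.d k12 k8 k25 1 6)))))] (.c k8 (.l (.s k38 k55 4 (.s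
  k42 k63 6 (.s k34 k46 1 (.s k51 k17 4 (.s k119 k187 9 (.s k102 k68 4 (.d k166 k230 k247 7
  12)))))))) (.c k12 (.l (.s k63 k42 6 (.s k247 k166 12 (.s k243 k251 1 (.s k183 k123 9 (.d k55 k38
  k119 4 7)))))) (.c k22 (.l (.s k38 k55 4 (.s k12 k8 1 (.s k25 k51 6 (.s k29 k17 1 (.d k63 k46 k42
  4 6)))))) (.c k38 (.q k22 [(.s k12 k8 1 (.s k93 k174 12 (.s k89 k81 1 (.d k166 k247 k243 12
  14)))), (.s k20 k23 0 (.s k42 k63 6 (.s k2 k62 5 (.s k3 k1 0 (.d k60 k40 k41 5 6)))))] .n) .n)))))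
  (.c k234 (.l (.s k149 k213 7 (.s k63 k42 6 (.s k106 k192 14 (.d k127 k64 k191 6 7)))))
  .n))))))))))))))

def t6_55 : T TT 256 :=
  (.f k255 k170 14 (.q k106 [(.s k64 k127 6 (.s k192 k128 7 (.s k213 k234 6 (.d k149 k21 k63 7
  14))))] (.c k21 (.q k4 [(.s k12 k8 1 (.s k93 k174 12 (.s k89 k81 1 (.d k166 k247 k243 12 14)))),
  (.s k64 k127 6 (.s k192 k128 7 (.s k213 k234 6 (.s k247 k166 12 (.s k196 k230 4 (.s k68 k132 7 (.d
  k204 k136 k200 9 1))))))), (.s k12 k8 1 (.s k64 k127 6 (.s k192 k128 7 (.s k72 k132 9 (.s k89 k123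
  4 (.d k93 k81 k174 1 12))))))] (.c k174 (.l (.s k12 k8 1 (.s k127 k64 6 (.s k63 k191 7 (.s k46 k29
  4 (.d k166 k226 k247 9 12)))))) .n)) (.c k63 (.q k51 [(.s k17 k34 4 (.s k119 k187 9 (.s k102 k68 4
  (.d k153 k221 k204 9 14)))), (.s k34 k17 4 (.s k64 k127 6 (.s k192 k128 7 (.s k98 k145 12 (.s k81
  k115 4 (.d k162 k226 k243 7 12)))))), (.s k64 k127 6 (.s k119 k187 9 (.s k102 k68 4 (.s k98 k110 1
  (.d k192 k128 k145 7 12)))))] (.c k119 (.l (.s k17 k34 4 (.s k64 k127 6 (.s k153 k221 9 (.s k102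
  k204 14 (.s k192 k128 7 (.d k98 k110 k145 1 12))))))) .n)) (.c k64 (.q k60 [(.s k20 k40 5 (.s k125
  k190 8 (.s k150 k215 8 (.d k105 k65 k195 5 14)))), (.s k20 k40 5 (.s k150 k215 8 (.s k62 k194 13
  (.s k63 k61 0 (.s k21 k42 6 (.d k149 k213 k192 7 14)))))), (.s k125 k190 8 (.s k105 k65 5 (.s k104
  k107 0 (.s k192 k148 13 (.s k149 k63 14 (.d k213 k234 k21 6 7))))))] (.c k105 (.q k87 [(.s k3 k171
  13 (.s k86 k84 0 (.s k169 k252 14 (.d k1 k2 k253 0 13)))), (.s k86 k84 0 (.s k126 k66 5 (.s k190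
  k125 8 (.s k62 k254 7 (.s k150 k194 13 (.d k20 k40 k215 5 8)))))), (.s k3 k171 13 (.s k2 k1 0 (.s
  k22 k41 6 (.s k42 k62 5 (.s k21 k63 6 (.d k20 k40 k23 5 0))))))] (.c k2 (.l (.s k3 k171 13 (.s k22
  k41 6 (.s k86 k84 0 (.s k150 k214 7 (.d k20 k40 k215 5 8)))))) (.c k40 (.q k235 [(.s k3 k171 13
  (.s k86 k84 0 (.s k169 k252 14 (.d k1 k2 k253 0 13)))), (.s k3 k171 13 (.s k22 k41 6 (.s k215 k195
  5 (.s k20 k150 8 (.d k23 k21 k151 0 7))))), (.s k86 k84 0 (.s k126 k66 5 (.s k190 k125 8 (.s k62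
  k254 7 (.s k150 k194 13 (.d k215 k195 k20 5 8))))))] .n) (.c k235 (.l (.s k40 k20 5 (.s k3 k171 13
  (.s k1 k2 0 (.s k86 k84 0 (.d k169 k253 k252 13 14)))))) .n)))) (.c k150 (.q k69 [(.s k101 k117 3
  (.s k207 k138 10 (.s k154 k48 14 (.d k223 k239 k16 3 10)))), (.s k101 k117 3 (.s k207 k138 10 (.s
  k109 k158 12 (.s k105 k97 1 (.d k125 k190 k65 8 5))))), (.s k190 k125 8 (.s k207 k138 10 (.s k158
  k109 12 (.s k174 k142 3 (.s k93 k12 12 (.d k223 k239 k28 3 8))))))] (.c k130 (.l (.s k190 k125 8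
  (.s k101 k117 3 (.s k207 k138 10 (.s k154 k48 14 (.d k223 k239 k16 3 10)))))) (.c k138 (.l (.s
  k117 k101 3 (.s k186 k48 10 (.s k190 k125 8 (.s k182 k178 1 (.s k243 k121 10 (.d k247 k52 k251 8
  1))))))) (.c k154 (.l (.s k20 k40 5 (.s k117 k101 3 (.s k48 k186 10 (.s k138 k207 10 (.s k52 k56 1
  (.s k4 k36 3 (.d k247 k166 k182 12 8)))))))) (.c k186 (.l (.s k101 k117 3 (.s k207 k138 10 (.s
  k154 k48 14 (.d k223 k239 k16 3 10))))) (.c k190 (.q k130 [(.s k101 k117 3 (.s k207 k138 10 (.s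
  k154 k48 14 (.d k223 k239 k16 3 10)))), (.s k65 k195 8 (.s k77 k73 1 (.s k125 k105 5 (.s k109 k93
  3 (.d k207 k138 k158 10 12))))), (.s k65 k195 8 (.s k77 k73 1 (.s k101 k117 3 (.s k89 k113 5 (.s
  k93 k81 1 (.d k125 k109 k105 3 5))))))] .n) (.c k207 (.l (.s k20 k40 5 (.s k117 k101 3 (.s k48
  k186 10 (.s k52 k56 1 (.s k4 k36 3 (.d k247 k166 k182 12 8))))))) .n))))))) .n))) (.c k127 (.q
  k195 [(.s k65 k130 8 (.s k215 k235 5 (.s k150 k20 8 (.d k105 k125 k60 5 14)))), (.s k65 k130 8 (.s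
  k105 k125 5 (.s k107 k104 0 (.s k63 k151 13 (.s k21 k42 6 (.d k149 k213 k192 7 14)))))), (.s k215
  k235 5 (.s k150 k20 8 (.s k194 k62 13 (.s k192 k193 0 (.s k149 k63 14 (.d k213 k234 k21 6 7))))))]
  (.c k105 (.q k81 [(.s k89 k93 1 (.s k243 k162 12 (.s k247 k251 1 (.d k166 k4 k12 12 14)))), (.s
  k65 k130 8 (.s k97 k113 3 (.s k48 k146 12 (.s k32 k16 3 (.d k162 k227 k243 8 12)))))] (.c k40 (.l
  (.s k235 k215 5 (.s k89 k93 1 (.s k243 k162 12 (.s k166 k12 14 (.d k247 k251 k4 1 12)))))) (.c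
  k162 (.l (.s k65 k130 8 (.s k89 k93 1 (.s k97 k113 3 (.s k146 k48 12 (.s k211 k16 8 (.s k150 k28
  10 (.d k215 k20 k235 8 5)))))))) (.c k235 (.q k40 [(.s k89 k93 1 (.s k243 k162 12 (.s k166 k12 14
  (.d k247 k251 k4 1 12)))), (.s k20 k60 5 (.s k150 k215 8 (.s k194 k62 13 (.s k192 k193 0 (.s k213
  k234 6 (.d k149 k63 k21 14 7))))))] .n) (.c k243 (.l (.s k65 k130 8 (.s k93 k89 1 (.s k12 k174 12
  (.s k8 k4 1 (.s k73 k134 10 (.s k69 k77 1 (.d k138 k203 k207 8 10)))))))) .n))))) (.c k150 (.q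
  k199 [(.s k207 k203 1 (.s k69 k138 10 (.s k101 k117 3 (.s k154 k48 14 (.d k223 k239 k16 3 10))))),
  (.s k207 k203 1 (.s k215 k235 5 (.s k223 k239 3 (.s k219 k211 1 (.d k231 k247 k243 3 5))))), (.s
  k207 k203 1 (.s k69 k138 10 (.s k4 k134 8 (.s k215 k235 5 (.d k247 k166 k231 12 3))))), (.s k215
  k235 5 (.s k247 k231 3 (.s k4 k166 12 (.s k12 k8 1 (.d k134 k69 k73 8 10)))))] (.c k130 (.q k190
  [(.s k207 k203 1 (.s k69 k138 10 (.s k101 k117 3 (.s k154 k48 14 (.d k223 k239 k16 3 10))))), (.s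
  k207 k203 1 (.s k215 k235 5 (.s k223 k239 3 (.s k219 k211 1 (.d k231 k247 k243 3 5))))), (.s k215
  k235 5 (.s k247 k231 3 (.s k4 k166 12 (.s k12 k8 1 (.d k134 k69 k73 8 10))))), (.s k125 k60 8 (.s
  k65 k105 5 (.s k207 k203 1 (.s k69 k138 10 (.s k73 k77 1 (.d k134 k4 k12 8 10))))))] .n) (.c k190
  (.l (.s k130 k65 8 (.s k207 k203 1 (.s k69 k138 10 (.s k4 k134 8 (.s k215 k235 5 (.d k247 k166
  k231 12 3))))))) .n))) .n))) (.c k128 (.l (.s k127 k64 6 (.s k63 k191 7 (.s k149 k192 14 (.d k21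
  k42 k213 6 7))))) (.c k149 (.f k127 k64 6 (.q k102 [(.s k68 k119 4 (.s k204 k136 9 (.s k221 k238 4
  (.d k153 k17 k51 9 14)))), (.s k110 k98 1 (.s k76 k93 4 (.s k115 k89 6 (.d k119 k123 k68 1 4))))]
  (.c k68 (.l (.s k110 k98 1 (.s k76 k93 4 (.s k115 k89 6 (.s k119 k123 1 (.s k51 k187 9 (.s k17 k34
  4 (.d k153 k221 k204 9 14)))))))) (.c k119 (.l (.s k110 k98 1 (.s k93 k76 4 (.s k174 k12 12 (.s
  k238 k46 7 (.s k204 k221 4 (.d k63 k191 k157 7 12))))))) (.c k128 (.l (.s k191 k63 7 (.s k68 k119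
  4 (.s k204 k136 9 (.s k221 k238 4 (.d k153 k51 k17 14 9)))))) (.c k191 (.q k128 [(.s k68 k119 4
  (.s k204 k136 9 (.s k221 k238 4 (.d k153 k17 k51 9 14)))), (.s k110 k98 1 (.s k76 k93 4 (.s k115
  k89 6 (.d k119 k123 k68 1 4))))] (.c k68 (.l (.s k110 k98 1 (.s k76 k93 4 (.s k115 k89 6 (.s k119
  k123 1 (.s k51 k187 9 (.s k17 k34 4 (.d k153 k221 k204 9 14)))))))) (.c k119 (.f k110 k98 1 (.l
  (.s k93 k76 4 (.s k81 k89 1 (.s k174 k12 12 (.s k46 k238 7 (.s k166 k226 9 (.s k247 k4 12 (.d k243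
  k251 k162 1 12))))))))) .n))) .n)))))) (.c k191 (.l (.s k64 k127 6 (.s k192 k128 7 (.s k149 k63 14
  (.d k213 k234 k21 6 7))))) (.c k192 (.q k1 [(.s k3 k2 0 (.s k87 k171 13 (.s k86 k84 0 (.d k169
  k253 k252 13 14)))), (.s k127 k64 6 (.s k63 k191 7 (.s k21 k42 6 (.s k61 k41 5 (.s k253 k169 13
  (.s k125 k189 7 (.d k60 k190 k62 8 0))))))), (.s k3 k2 0 (.s k127 k64 6 (.s k63 k191 7 (.s k21 k42
  6 (.s k23 k43 5 (.s k22 k20 0 (.d k41 k61 k60 5 6)))))))] .n) (.c k213 (.q k1 [(.s k3 k2 0 (.s k87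
  k171 13 (.s k86 k84 0 (.d k169 k253 k252 13 14)))), (.s k64 k127 6 (.s k169 k253 13 (.s k192 k128
  7 (.s k149 k63 14 (.s k129 k189 5 (.s k66 k3 8 (.d k65 k193 k67 7 0))))))), (.s k3 k2 0 (.s k64
  k127 6 (.s k192 k128 7 (.s k66 k129 8 (.s k86 k126 5 (.d k87 k84 k171 0 13))))))] (.c k3 (.l (.s
  k127 k64 6 (.s k63 k191 7 (.s k21 k42 6 (.s k61 k41 5 (.s k60 k62 0 (.s k125 k190 8 (.d k253 k189
  k169 7 13)))))))) .n)) (.c k234 (.l (.s k127 k64 6 (.s k63 k191 7 (.s k21 k42 6 (.d k149 k213 k192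
  7 14))))) .n))))))))))))

def t6_56 : T TT 256 :=
  (.f k255 k170 14 (.q k165 [(.s k5 k245 11 (.s k15 k10 2 (.s k90 k240 14 (.d k95 k80 k175 2 11)))),
  (.s k245 k5 11 (.s k240 k250 2 (.s k80 k160 11 (.d k90 k95 k15 2 14))))] (.c k5 (.q k4 [(.s k166
  k247 12 (.s k12 k8 1 (.s k89 k243 14 (.d k93 k81 k174 1 12)))), (.s k166 k247 12 (.s k164 k167 0
  (.s k84 k244 11 (.s k252 k168 13 (.s k253 k254 0 (.s k169 k1 13 (.d k86 k87 k3 0 14)))))))] (.c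
  k166 (.q k86 [(.s k84 k87 0 (.d k244 k164 k7 11 12)), (.s k84 k87 0 (.s k252 k168 13 (.s k169 k3
  14 (.d k253 k254 k1 0 13))))] (.c k84 (.q k135 [(.s k7 k244 12 (.s k150 k180 4 (.s k20 k215 8 (.s
  k52 k36 3 (.d k199 k101 k71 12 7))))), (.s k150 k180 4 (.s k20 k215 8 (.s k60 k40 5 (.s k105 k195
  14 (.d k125 k65 k190 5 8))))), (.s k7 k244 12 (.s k71 k199 7 (.s k101 k116 4 (.s k69 k117 3 (.s
  k207 k138 10 (.s k154 k48 14 (.d k223 k239 k16 3 10)))))))] (.c k162 (.q k174 [(.d k12 k8 k93 1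
  12), (.s k7 k244 12 (.s k150 k180 4 (.s k20 k215 8 (.s k22 k214 7 (.d k52 k36 k37 3 4)))))] .n)
  (.c k174 (.q k162 [(.s k7 k244 12 (.s k150 k180 4 (.s k20 k215 8 (.s k52 k36 3 (.d k199 k101 k71
  12 7))))), (.s k81 k243 12 (.s k89 k93 1 (.s k83 k92 2 (.s k80 k82 0 (.s k240 k160 11 (.d k90 k95
  k15 2 14))))))] .n) (.c k180 (.l (.s k7 k244 12 (.s k199 k71 7 (.s k69 k134 8 (.s k101 k117 3 (.s
  k37 k229 7 (.d k52 k150 k22 12 4))))))) .n)))) (.c k87 (.l (.s k244 k7 12 (.s k84 k164 11 (.s k252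
  k168 13 (.s k169 k3 14 (.d k253 k254 k1 0 13)))))) (.c k162 (.q k174 [(.d k12 k8 k93 1 12), (.s
  k84 k87 0 (.d k244 k164 k7 11 12))] .n) (.c k174 (.q k162 [(.s k84 k87 0 (.d k244 k164 k7 11 12)),
  (.s k81 k243 12 (.s k89 k93 1 (.s k83 k92 2 (.s k80 k82 0 (.s k240 k160 11 (.d k90 k95 k15 2
  14))))))] .n) .n))))) (.c k247 (.l (.s k12 k8 1 (.s k93 k174 12 (.s k89 k81 1 (.s k13 k241 13 (.s
  k15 k14 0 (.s k90 k240 14 (.d k95 k80 k175 2 11)))))))) .n))) (.c k10 (.l (.s k245 k5 11 (.s k240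
  k250 2 (.s k90 k15 14 (.d k80 k95 k160 2 11))))) (.c k15 (.q k1 [(.s k3 k2 0 (.s k87 k171 13 (.s
  k86 k84 0 (.d k169 k253 k252 13 14)))), (.s k5 k245 11 (.s k13 k9 1 (.s k89 k241 13 (.s k93 k81 1
  (.d k253 k173 k169 11 13))))), (.s k3 k2 0 (.s k245 k5 11 (.s k240 k250 2 (.s k160 k80 11 (.s k161
  k82 12 (.s k81 k241 11 (.d k162 k163 k243 0 12)))))))] (.c k3 (.l (.s k5 k245 11 (.s k169 k253 13
  (.s k161 k173 1 (.s k241 k81 11 (.d k13 k9 k89 1 13)))))) .n)) (.c k80 (.q k1 [(.s k169 k253 13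
  (.s k3 k2 0 (.s k86 k252 14 (.d k87 k84 k171 0 13)))), (.s k5 k245 11 (.s k169 k253 13 (.s k161
  k173 1 (.s k241 k81 11 (.d k13 k9 k89 1 13)))))] (.c k169 (.l (.s k5 k245 11 (.s k13 k9 1 (.s k15
  k10 2 (.s k89 k241 13 (.s k93 k81 1 (.d k12 k14 k174 0 12))))))) (.c k253 (.l (.s k3 k2 0 (.s k5
  k245 11 (.s k87 k171 13 (.s k86 k84 0 (.s k7 k244 12 (.d k15 k10 k11 2 1))))))) .n))) (.c k90 (.f
  k5 k245 11 (.f k10 k15 2 (.q k1 [(.s k3 k2 0 (.s k87 k171 13 (.s k86 k84 0 (.d k169 k253 k252 13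
  14)))), (.s k13 k9 1 (.s k89 k241 13 (.s k81 k93 1 (.s k243 k162 12 (.s k247 k251 1 (.d k166 k12
  k4 14 12))))))] (.c k3 (.l (.s k169 k253 13 (.s k161 k173 1 (.s k241 k81 11 (.d k13 k9 k89 1
  13))))) (.c k253 (.l (.s k3 k2 0 (.s k13 k9 1 (.s k87 k171 13 (.s k86 k84 0 (.s k169 k252 14 (.s
  k241 k89 13 (.d k161 k173 k81 1 11)))))))) .n))))) (.c k95 (.q k1 [(.s k169 k253 13 (.s k3 k2 0
  (.s k86 k252 14 (.d k87 k84 k171 0 13)))), (.s k5 k245 11 (.s k169 k253 13 (.s k161 k173 1 (.s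
  k241 k81 11 (.d k13 k9 k89 1 13)))))] (.c k169 (.l (.s k5 k245 11 (.s k13 k9 1 (.s k15 k10 2 (.s
  k89 k241 13 (.s k93 k81 1 (.d k12 k14 k174 0 12))))))) (.c k253 (.l (.s k3 k2 0 (.s k5 k245 11 (.s
  k87 k171 13 (.s k86 k84 0 (.s k7 k244 12 (.d k15 k10 k11 2 1))))))) .n))) (.c k240 (.q k1 [(.s k3
  k2 0 (.s k87 k171 13 (.s k86 k84 0 (.d k169 k253 k252 13 14)))), (.s k5 k245 11 (.s k169 k253 13
  (.s k161 k173 1 (.s k241 k81 11 (.d k13 k9 k89 1 13)))))] (.c k169 (.l (.s k5 k245 11 (.s k13 k9 1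
  (.s k15 k10 2 (.s k89 k241 13 (.s k93 k81 1 (.d k12 k14 k174 0 12))))))) (.c k253 (.l (.s k3 k2 0
  (.s k5 k245 11 (.s k87 k171 13 (.s k86 k84 0 (.s k7 k244 12 (.d k15 k10 k11 2 1))))))) .n))) (.c
  k245 (.q k253 [(.s k169 k1 13 (.s k252 k254 0 (.s k84 k168 13 (.d k86 k87 k3 0 14)))), (.s k169 k1
  13 (.s k173 k161 1 (.s k93 k13 11 (.s k12 k174 12 (.s k4 k8 1 (.s k166 k247 12 (.d k89 k81 k243 1
  14)))))))] (.c k1 (.l (.s k252 k254 0 (.s k84 k168 13 (.s k86 k87 0 (.s k244 k7 12 (.s k240 k248 1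
  (.s k80 k160 11 (.d k90 k95 k15 2 14)))))))) (.c k169 (.f k252 k254 0 (.q k86 [(.d k84 k168 k87 13
  0), (.s k244 k7 12 (.s k240 k248 1 (.s k80 k160 11 (.d k90 k95 k15 2 14))))] (.c k168 (.q k171
  [(.d k87 k84 k3 0 13), (.s k244 k7 12 (.s k240 k248 1 (.s k80 k160 11 (.d k90 k95 k15 2 14))))]
  .n) (.c k171 (.l (.s k168 k84 13 (.s k244 k7 12 (.s k240 k248 1 (.s k80 k160 11 (.d k90 k95 k15 2
  14)))))) .n)))) .n))) (.c k250 (.l (.s k5 k245 11 (.s k15 k10 2 (.s k90 k240 14 (.d k95 k80 k175 2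
  11))))) .n)))))))))))

def t6_57 : T TT 256 :=
  (.f k255 k170 14 (.q k106 [(.s k64 k127 6 (.s k192 k128 7 (.s k149 k63 14 (.d k213 k234 k21 6
  7))))] (.c k21 (.q k1 [(.s k169 k253 13 (.s k3 k2 0 (.s k86 k252 14 (.d k87 k84 k171 0 13)))), (.s
  k64 k127 6 (.s k192 k128 7 (.s k213 k234 6 (.s k253 k169 13 (.s k193 k233 5 (.s k65 k129 7 (.d
  k195 k130 k194 8 0))))))), (.s k3 k2 0 (.s k64 k127 6 (.s k192 k128 7 (.s k66 k129 8 (.s k86 k126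
  5 (.d k87 k84 k171 0 13))))))] (.c k171 (.l (.s k3 k2 0 (.s k127 k64 6 (.s k63 k191 7 (.s k43 k23
  5 (.d k169 k232 k253 8 13)))))) .n)) (.c k63 (.q k1 [(.s k3 k2 0 (.s k87 k171 13 (.s k86 k84 0 (.d
  k169 k253 k252 13 14)))), (.s k64 k127 6 (.s k192 k128 7 (.s k213 k234 6 (.s k253 k169 13 (.s k193
  k233 5 (.s k65 k129 7 (.d k195 k130 k194 8 0))))))), (.s k3 k2 0 (.s k64 k127 6 (.s k192 k128 7
  (.s k66 k129 8 (.s k86 k126 5 (.d k87 k84 k171 0 13))))))] (.c k171 (.l (.s k3 k2 0 (.s k64 k127 6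
  (.s k169 k253 13 (.s k86 k252 14 (.s k192 k128 7 (.d k66 k126 k129 5 8))))))) .n)) (.c k64 (.q k48
  [(.s k16 k32 3 (.s k117 k186 10 (.s k154 k223 10 (.d k101 k69 k207 3 14)))), (.s k16 k32 3 (.s
  k154 k223 10 (.s k58 k202 11 (.s k63 k53 2 (.s k21 k42 6 (.d k149 k213 k192 7 14)))))), (.s k117
  k186 10 (.s k101 k69 3 (.s k96 k111 2 (.s k192 k144 11 (.s k149 k63 14 (.d k213 k234 k21 6
  7))))))] (.c k101 (.q k87 [(.s k3 k171 13 (.s k86 k84 0 (.s k169 k252 14 (.d k1 k2 k253 0 13)))),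
  (.s k3 k171 13 (.s k2 k1 0 (.s k18 k33 4 (.s k34 k50 3 (.s k17 k51 4 (.d k16 k32 k19 3 0)))))),
  (.s k3 k171 13 (.s k18 k33 4 (.s k86 k84 0 (.s k154 k222 9 (.d k16 k32 k223 3 10)))))] (.c k3 (.l
  (.s k84 k86 0 (.s k117 k186 10 (.s k252 k168 13 (.s k116 k184 9 (.s k68 k100 3 (.d k119 k102 k118
  4 0))))))) (.c k32 (.q k239 [(.s k3 k171 13 (.s k86 k84 0 (.s k169 k252 14 (.d k1 k2 k253 0
  13)))), (.s k3 k171 13 (.s k18 k33 4 (.s k223 k207 3 (.s k16 k154 10 (.d k19 k17 k155 0 9))))),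
  (.s k86 k84 0 (.s k223 k207 3 (.s k16 k154 10 (.s k19 k155 9 (.s k17 k18 0 (.d k153 k221 k220 9
  10))))))] .n) (.c k168 (.l (.s k86 k84 0 (.s k3 k171 13 (.s k169 k252 14 (.d k1 k2 k253 0 13)))))
  (.c k169 (.l (.s k32 k16 3 (.s k84 k86 0 (.s k3 k171 13 (.s k168 k252 13 (.s k100 k236 9 (.s k204
  k152 13 (.d k68 k116 k136 3 9)))))))) (.c k171 (.l (.s k32 k16 3 (.s k84 k86 0 (.s k168 k252 13
  (.s k100 k236 9 (.s k204 k152 13 (.d k68 k116 k136 3 9))))))) (.c k239 (.l (.s k32 k16 3 (.s k3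
  k171 13 (.s k1 k2 0 (.s k86 k84 0 (.d k169 k253 k252 13 14)))))) .n))))))) (.c k154 (.q k84 [(.s
  k86 k87 0 (.s k252 k168 13 (.s k253 k254 0 (.d k169 k1 k3 13 14)))), (.s k16 k32 3 (.s k152 k220 9
  (.s k100 k204 13 (.s k116 k68 3 (.d k252 k184 k168 9 13)))))] (.c k138 (.l (.s k186 k117 10 (.s
  k86 k87 0 (.s k252 k168 13 (.s k169 k3 14 (.d k253 k254 k1 0 13)))))) (.c k168 (.l (.s k16 k32 3
  (.s k86 k87 0 (.s k152 k220 9 (.s k100 k204 13 (.s k116 k68 3 (.s k101 k71 4 (.d k117 k69 k186 3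
  10)))))))) (.c k186 (.q k138 [(.s k86 k87 0 (.s k252 k168 13 (.s k169 k3 14 (.d k253 k254 k1 0
  13)))), (.s k69 k207 10 (.s k101 k117 3 (.s k96 k111 2 (.s k192 k144 11 (.s k213 k234 6 (.d k149
  k63 k21 14 7))))))] .n) (.c k252 (.l (.s k16 k32 3 (.s k87 k86 0 (.s k3 k171 13 (.s k2 k1 0 (.s
  k18 k33 4 (.s k17 k19 0 (.d k34 k50 k51 3 4)))))))) .n))))) .n))) (.c k127 (.q k48 [(.s k16 k32 3
  (.s k117 k186 10 (.s k101 k69 3 (.d k154 k223 k207 10 14)))), (.s k16 k32 3 (.s k154 k223 10 (.s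
  k58 k202 11 (.s k63 k53 2 (.s k21 k42 6 (.d k149 k213 k192 7 14)))))), (.s k117 k186 10 (.s k101
  k69 3 (.s k96 k111 2 (.s k192 k144 11 (.s k149 k63 14 (.d k213 k234 k21 6 7))))))] (.c k101 (.q
  k149 [(.s k21 k213 7 (.d k63 k42 k192 6 14)), (.s k63 k192 14 (.s k58 k53 2 (.s k154 k202 11 (.d
  k16 k32 k223 3 10))))] (.c k32 (.q k239 [(.s k21 k213 7 (.d k63 k42 k192 6 14)), (.s k63 k192 14
  (.s k58 k53 2 (.s k154 k202 11 (.d k223 k207 k16 3 10))))] (.c k63 (.l (.s k213 k21 7 (.s k192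
  k234 6 (.s k144 k96 11 (.s k154 k159 2 (.d k223 k207 k16 3 10)))))) (.c k192 (.l (.s k21 k213 7
  (.s k63 k42 6 (.s k58 k53 2 (.s k154 k202 11 (.d k223 k207 k16 3 10)))))) .n))) (.c k63 (.l (.s
  k213 k21 7 (.s k192 k234 6 (.s k144 k96 11 (.s k154 k159 2 (.d k16 k32 k223 3 10)))))) (.c k192
  (.l (.s k21 k213 7 (.s k63 k42 6 (.s k58 k53 2 (.s k154 k202 11 (.d k16 k32 k223 3 10)))))) (.c
  k239 (.l (.s k32 k16 3 (.s k21 k213 7 (.d k63 k42 k192 6 14)))) .n))))) (.c k154 (.q k84 [(.s k252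
  k168 13 (.s k253 k254 0 (.s k169 k1 13 (.d k86 k87 k3 0 14)))), (.s k16 k32 3 (.s k152 k220 9 (.s
  k100 k204 13 (.s k116 k68 3 (.d k252 k184 k168 9 13)))))] (.c k138 (.l (.s k186 k117 10 (.s k86
  k87 0 (.s k252 k168 13 (.s k169 k3 14 (.d k253 k254 k1 0 13)))))) (.c k168 (.l (.s k16 k32 3 (.s
  k86 k87 0 (.s k152 k220 9 (.s k100 k204 13 (.s k116 k68 3 (.s k101 k71 4 (.d k117 k69 k186 3
  10)))))))) (.c k186 (.q k138 [(.s k252 k168 13 (.s k253 k254 0 (.s k169 k1 13 (.d k86 k87 k3 0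
  14)))), (.s k69 k207 10 (.s k101 k117 3 (.s k96 k111 2 (.s k192 k144 11 (.s k213 k234 6 (.d k149
  k63 k21 14 7))))))] .n) (.c k252 (.l (.s k16 k32 3 (.s k87 k86 0 (.s k3 k171 13 (.s k2 k1 0 (.s
  k18 k33 4 (.s k17 k19 0 (.d k34 k50 k51 3 4)))))))) .n))))) .n))) (.c k128 (.l (.s k127 k64 6 (.s
  k63 k191 7 (.s k149 k192 14 (.d k21 k42 k213 6 7))))) (.c k149 (.f k127 k64 6 (.q k102 [(.s k68
  k119 4 (.s k110 k98 1 (.s k204 k136 9 (.d k63 k191 k157 7 12)))), (.s k110 k98 1 (.s k93 k76 4 (.s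
  k12 k174 12 (.s k4 k8 1 (.s k166 k247 12 (.d k89 k81 k243 1 14)))))), (.s k68 k119 4 (.s k204 k136
  9 (.s k153 k51 14 (.d k221 k238 k17 4 9))))] (.c k68 (.l (.s k110 k98 1 (.s k76 k93 4 (.s k115 k89
  6 (.s k119 k123 1 (.s k51 k187 9 (.s k17 k34 4 (.d k153 k221 k204 9 14)))))))) (.c k128 (.l (.s
  k191 k63 7 (.s k68 k119 4 (.s k204 k136 9 (.s k153 k51 14 (.d k221 k238 k17 4 9)))))) (.c k191 (.q
  k128 [(.s k68 k119 4 (.s k204 k136 9 (.s k221 k238 4 (.d k153 k17 k51 9 14)))), (.s k110 k98 1 (.s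
  k93 k76 4 (.s k12 k174 12 (.s k4 k8 1 (.s k166 k247 12 (.d k89 k81 k243 1 14))))))] (.c k68 (.l
  (.s k110 k98 1 (.s k76 k93 4 (.s k115 k89 6 (.s k119 k123 1 (.s k51 k187 9 (.s k17 k34 4 (.d k153
  k221 k204 9 14)))))))) .n)) .n))))) (.c k191 (.l (.s k64 k127 6 (.s k192 k128 7 (.s k149 k63 14
  (.d k213 k234 k21 6 7))))) (.c k192 (.q k1 [(.s k3 k2 0 (.s k87 k171 13 (.s k86 k84 0 (.d k169
  k253 k252 13 14)))), (.s k127 k64 6 (.s k63 k191 7 (.s k21 k42 6 (.s k61 k41 5 (.s k253 k169 13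
  (.s k125 k189 7 (.d k60 k190 k62 8 0))))))), (.s k3 k2 0 (.s k127 k64 6 (.s k63 k191 7 (.s k21 k42
  6 (.s k23 k43 5 (.s k22 k20 0 (.d k41 k61 k60 5 6)))))))] .n) (.c k213 (.q k1 [(.s k3 k2 0 (.s k87
  k171 13 (.s k86 k84 0 (.d k169 k253 k252 13 14)))), (.s k64 k127 6 (.s k169 k253 13 (.s k192 k128
  7 (.s k149 k63 14 (.s k129 k189 5 (.s k66 k3 8 (.d k65 k193 k67 7 0))))))), (.s k3 k2 0 (.s k64
  k127 6 (.s k192 k128 7 (.s k66 k129 8 (.s k86 k126 5 (.d k87 k84 k171 0 13))))))] (.c k3 (.l (.s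
  k127 k64 6 (.s k63 k191 7 (.s k21 k42 6 (.s k61 k41 5 (.s k60 k62 0 (.s k125 k190 8 (.d k253 k189
  k169 7 13)))))))) .n)) (.c k234 (.l (.s k127 k64 6 (.s k63 k191 7 (.s k21 k42 6 (.d k149 k213 k192
  7 14))))) .n))))))))))))

def t6_58 : T TT 256 :=
  (.f k255 k170 14 (.q k165 [(.s k5 k245 11 (.s k15 k10 2 (.s k90 k240 14 (.d k95 k80 k175 2 11)))),
  (.s k245 k5 11 (.s k240 k250 2 (.s k80 k160 11 (.d k90 k95 k15 2 14))))] (.c k5 (.q k4 [(.s k166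
  k247 12 (.s k12 k8 1 (.s k89 k243 14 (.d k93 k81 k174 1 12)))), (.s k166 k247 12 (.s k164 k167 0
  (.s k84 k244 11 (.s k252 k168 13 (.s k253 k254 0 (.s k169 k1 13 (.d k86 k87 k3 0 14)))))))] (.c
  k166 (.q k86 [(.s k84 k87 0 (.d k244 k164 k7 11 12)), (.s k84 k87 0 (.s k252 k168 13 (.s k169 k3
  14 (.d k253 k254 k1 0 13))))] (.c k84 (.q k173 [(.s k169 k161 1 (.s k1 k253 13 (.d k3 k2 k252 0
  14))), (.s k12 k8 1 (.s k174 k93 12 (.s k172 k175 0 (.s k252 k92 11 (.s k94 k15 12 (.d k254 k253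
  k14 0 11))))))] (.c k162 (.q k174 [(.d k12 k8 k93 1 12), (.s k169 k161 1 (.s k1 k253 13 (.d k3 k2
  k252 0 14)))] .n) (.c k174 (.q k162 [(.s k169 k161 1 (.s k1 k253 13 (.d k3 k2 k252 0 14))), (.s
  k81 k243 12 (.s k89 k93 1 (.s k83 k92 2 (.s k80 k82 0 (.s k240 k160 11 (.d k90 k95 k15 2 14))))))]
  .n) (.c k252 (.l (.s k12 k8 1 (.s k169 k161 1 (.s k253 k1 13 (.d k93 k13 k174 11 12))))) (.c k253
  (.l (.s k12 k8 1 (.s k169 k161 1 (.s k174 k93 12 (.s k172 k175 0 (.d k252 k92 k3 11 14))))))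
  .n))))) (.c k87 (.l (.s k244 k7 12 (.s k84 k164 11 (.s k252 k168 13 (.s k169 k3 14 (.d k253 k254
  k1 0 13)))))) (.c k162 (.q k174 [(.d k12 k8 k93 1 12), (.s k84 k87 0 (.d k244 k164 k7 11 12))] .n)
  (.c k174 (.q k162 [(.s k84 k87 0 (.d k244 k164 k7 11 12)), (.s k81 k243 12 (.s k89 k93 1 (.s k83
  k92 2 (.s k80 k82 0 (.s k240 k160 11 (.d k90 k95 k15 2 14))))))] .n) .n))))) (.c k247 (.l (.s k12
  k8 1 (.s k93 k174 12 (.s k89 k81 1 (.s k13 k241 13 (.s k15 k14 0 (.s k90 k240 14 (.d k95 k80 k175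
  2 11)))))))) .n))) (.c k10 (.l (.s k245 k5 11 (.s k240 k250 2 (.s k90 k15 14 (.d k80 k95 k160 2
  11))))) (.c k15 (.q k1 [(.s k3 k2 0 (.s k87 k171 13 (.s k86 k84 0 (.d k169 k253 k252 13 14)))),
  (.s k5 k245 11 (.s k13 k9 1 (.s k89 k241 13 (.s k93 k81 1 (.d k253 k173 k169 11 13))))), (.s k3 k2
  0 (.s k245 k5 11 (.s k240 k250 2 (.s k160 k80 11 (.s k161 k82 12 (.s k81 k241 11 (.d k162 k163
  k243 0 12)))))))] (.c k3 (.l (.s k5 k245 11 (.s k169 k253 13 (.s k161 k173 1 (.s k241 k81 11 (.d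
  k13 k9 k89 1 13)))))) .n)) (.c k80 (.q k1 [(.s k169 k253 13 (.s k3 k2 0 (.s k86 k252 14 (.d k87
  k84 k171 0 13)))), (.s k5 k245 11 (.s k169 k253 13 (.s k161 k173 1 (.s k241 k81 11 (.d k13 k9 k89
  1 13)))))] (.c k169 (.l (.s k5 k245 11 (.s k13 k9 1 (.s k15 k10 2 (.s k89 k241 13 (.s k93 k81 1
  (.d k12 k14 k174 0 12))))))) (.c k253 (.l (.s k3 k2 0 (.s k5 k245 11 (.s k87 k171 13 (.s k86 k84 0
  (.s k7 k244 12 (.d k15 k10 k11 2 1))))))) .n))) (.c k90 (.f k5 k245 11 (.f k10 k15 2 (.q k1 [(.s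
  k3 k2 0 (.s k87 k171 13 (.s k86 k84 0 (.d k169 k253 k252 13 14)))), (.s k13 k9 1 (.s k89 k241 13
  (.s k81 k93 1 (.s k243 k162 12 (.s k247 k251 1 (.d k166 k12 k4 14 12))))))] (.c k3 (.l (.s k169
  k253 13 (.s k161 k173 1 (.s k241 k81 11 (.d k13 k9 k89 1 13))))) (.c k253 (.l (.s k3 k2 0 (.s k13
  k9 1 (.s k87 k171 13 (.s k86 k84 0 (.s k169 k252 14 (.s k241 k89 13 (.d k161 k173 k81 1 11))))))))
  .n))))) (.c k95 (.q k1 [(.s k169 k253 13 (.s k3 k2 0 (.s k86 k252 14 (.d k87 k84 k171 0 13)))),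
  (.s k5 k245 11 (.s k169 k253 13 (.s k161 k173 1 (.s k241 k81 11 (.d k13 k9 k89 1 13)))))] (.c k169
  (.l (.s k5 k245 11 (.s k13 k9 1 (.s k15 k10 2 (.s k89 k241 13 (.s k93 k81 1 (.d k12 k14 k174 0
  12))))))) (.c k253 (.l (.s k3 k2 0 (.s k5 k245 11 (.s k87 k171 13 (.s k86 k84 0 (.s k7 k244 12 (.d
  k15 k10 k11 2 1))))))) .n))) (.c k240 (.q k1 [(.s k3 k2 0 (.s k87 k171 13 (.s k86 k84 0 (.d k169
  k253 k252 13 14)))), (.s k5 k245 11 (.s k169 k253 13 (.s k161 k173 1 (.s k241 k81 11 (.d k13 k9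
  k89 1 13)))))] (.c k169 (.l (.s k5 k245 11 (.s k13 k9 1 (.s k15 k10 2 (.s k89 k241 13 (.s k93 k81
  1 (.d k12 k14 k174 0 12))))))) (.c k253 (.l (.s k3 k2 0 (.s k5 k245 11 (.s k87 k171 13 (.s k86 k84
  0 (.s k7 k244 12 (.d k15 k10 k11 2 1))))))) .n))) (.c k245 (.q k253 [(.s k169 k1 13 (.s k252 k254
  0 (.s k84 k168 13 (.d k86 k87 k3 0 14)))), (.s k169 k1 13 (.s k173 k161 1 (.s k93 k13 11 (.s k12
  k174 12 (.s k4 k8 1 (.s k166 k247 12 (.d k89 k81 k243 1 14)))))))] (.c k1 (.l (.s k252 k254 0 (.s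
  k84 k168 13 (.s k86 k87 0 (.s k244 k7 12 (.s k240 k248 1 (.s k80 k160 11 (.d k90 k95 k15 2
  14)))))))) (.c k169 (.f k252 k254 0 (.q k86 [(.d k84 k168 k87 13 0), (.s k244 k7 12 (.s k240 k248
  1 (.s k80 k160 11 (.d k90 k95 k15 2 14))))] (.c k168 (.q k171 [(.d k87 k84 k3 0 13), (.s k244 k7
  12 (.s k240 k248 1 (.s k80 k160 11 (.d k90 k95 k15 2 14))))] .n) (.c k171 (.l (.s k168 k84 13 (.s
  k244 k7 12 (.s k240 k248 1 (.s k80 k160 11 (.d k90 k95 k15 2 14)))))) .n)))) .n))) (.c k250 (.l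
  (.s k5 k245 11 (.s k15 k10 2 (.s k90 k240 14 (.d k95 k80 k175 2 11))))) .n)))))))))))

def t6_59 : T TT 256 :=
  (.f k255 k170 14 (.q k165 [(.s k5 k245 11 (.s k15 k10 2 (.s k90 k240 14 (.d k95 k80 k175 2 11)))),
  (.s k245 k5 11 (.s k240 k250 2 (.s k80 k160 11 (.d k90 k95 k15 2 14))))] (.c k5 (.q k4 [(.s k166
  k247 12 (.s k12 k8 1 (.s k89 k243 14 (.d k93 k81 k174 1 12)))), (.s k166 k247 12 (.s k164 k167 0
  (.s k84 k244 11 (.s k252 k168 13 (.s k253 k254 0 (.s k169 k1 13 (.d k86 k87 k3 0 14)))))))] (.c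
  k166 (.q k86 [(.s k84 k87 0 (.d k244 k164 k7 11 12)), (.s k84 k87 0 (.s k252 k168 13 (.s k169 k3
  14 (.d k253 k254 k1 0 13))))] (.c k84 (.q k135 [(.s k150 k180 4 (.s k20 k215 8 (.s k60 k40 5 (.s
  k105 k195 14 (.d k125 k65 k190 5 8))))), (.s k7 k244 12 (.s k71 k199 7 (.s k101 k116 4 (.s k69
  k117 3 (.s k207 k138 10 (.s k154 k48 14 (.d k223 k239 k16 3 10)))))))] (.c k162 (.q k174 [(.d k12
  k8 k93 1 12), (.s k7 k244 12 (.s k150 k180 4 (.s k20 k215 8 (.s k22 k214 7 (.d k52 k36 k37 3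
  4)))))] .n) (.c k174 (.q k162 [(.s k150 k180 4 (.s k20 k215 8 (.s k60 k40 5 (.s k105 k195 14 (.d
  k125 k65 k190 5 8))))), (.s k81 k243 12 (.s k89 k93 1 (.s k83 k92 2 (.s k80 k82 0 (.s k240 k160 11
  (.d k90 k95 k15 2 14))))))] .n) (.c k180 (.l (.s k7 k244 12 (.s k199 k71 7 (.s k69 k134 8 (.s k101
  k117 3 (.s k37 k229 7 (.d k52 k150 k22 12 4))))))) .n)))) (.c k87 (.l (.s k244 k7 12 (.s k84 k164
  11 (.s k252 k168 13 (.s k169 k3 14 (.d k253 k254 k1 0 13)))))) (.c k162 (.q k174 [(.d k12 k8 k93 1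
  12), (.s k84 k87 0 (.d k244 k164 k7 11 12))] .n) (.c k174 (.q k162 [(.s k84 k87 0 (.d k244 k164 k7
  11 12)), (.s k81 k243 12 (.s k89 k93 1 (.s k83 k92 2 (.s k80 k82 0 (.s k240 k160 11 (.d k90 k95
  k15 2 14))))))] .n) .n))))) (.c k247 (.l (.s k12 k8 1 (.s k93 k174 12 (.s k89 k81 1 (.s k13 k241
  13 (.s k15 k14 0 (.s k90 k240 14 (.d k95 k80 k175 2 11)))))))) .n))) (.c k10 (.l (.s k245 k5 11
  (.s k240 k250 2 (.s k90 k15 14 (.d k80 k95 k160 2 11))))) (.c k15 (.q k1 [(.s k3 k2 0 (.s k87 k171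
  13 (.s k86 k84 0 (.d k169 k253 k252 13 14)))), (.s k5 k245 11 (.s k13 k9 1 (.s k89 k241 13 (.s k93
  k81 1 (.d k253 k173 k169 11 13))))), (.s k3 k2 0 (.s k245 k5 11 (.s k240 k250 2 (.s k160 k80 11
  (.s k161 k82 12 (.s k81 k241 11 (.d k162 k163 k243 0 12)))))))] (.c k3 (.l (.s k5 k245 11 (.s k169
  k253 13 (.s k161 k173 1 (.s k241 k81 11 (.d k13 k9 k89 1 13)))))) .n)) (.c k80 (.q k1 [(.s k169
  k253 13 (.s k3 k2 0 (.s k86 k252 14 (.d k87 k84 k171 0 13)))), (.s k5 k245 11 (.s k169 k253 13 (.s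
  k161 k173 1 (.s k241 k81 11 (.d k13 k9 k89 1 13)))))] (.c k169 (.l (.s k5 k245 11 (.s k13 k9 1 (.s
  k15 k10 2 (.s k89 k241 13 (.s k93 k81 1 (.d k12 k14 k174 0 12))))))) (.c k253 (.l (.s k3 k2 0 (.s
  k5 k245 11 (.s k87 k171 13 (.s k86 k84 0 (.s k7 k244 12 (.d k15 k10 k11 2 1))))))) .n))) (.c k90
  (.f k5 k245 11 (.f k10 k15 2 (.q k1 [(.s k3 k2 0 (.s k87 k171 13 (.s k86 k84 0 (.d k169 k253 k252
  13 14)))), (.s k13 k9 1 (.s k89 k241 13 (.s k81 k93 1 (.s k243 k162 12 (.s k247 k251 1 (.d k166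
  k12 k4 14 12))))))] (.c k3 (.l (.s k169 k253 13 (.s k161 k173 1 (.s k241 k81 11 (.d k13 k9 k89 1
  13))))) (.c k253 (.l (.s k3 k2 0 (.s k13 k9 1 (.s k87 k171 13 (.s k86 k84 0 (.s k169 k252 14 (.s
  k241 k89 13 (.d k161 k173 k81 1 11)))))))) .n))))) (.c k95 (.q k1 [(.s k169 k253 13 (.s k3 k2 0
  (.s k86 k252 14 (.d k87 k84 k171 0 13)))), (.s k5 k245 11 (.s k169 k253 13 (.s k161 k173 1 (.s
  k241 k81 11 (.d k13 k9 k89 1 13)))))] (.c k169 (.l (.s k5 k245 11 (.s k13 k9 1 (.s k15 k10 2 (.s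
  k89 k241 13 (.s k93 k81 1 (.d k12 k14 k174 0 12))))))) (.c k253 (.l (.s k3 k2 0 (.s k5 k245 11 (.s
  k87 k171 13 (.s k86 k84 0 (.s k7 k244 12 (.d k15 k10 k11 2 1))))))) .n))) (.c k240 (.q k1 [(.s k3
  k2 0 (.s k87 k171 13 (.s k86 k84 0 (.d k169 k253 k252 13 14)))), (.s k5 k245 11 (.s k169 k253 13
  (.s k161 k173 1 (.s k241 k81 11 (.d k13 k9 k89 1 13)))))] (.c k169 (.l (.s k5 k245 11 (.s k13 k9 1
  (.s k15 k10 2 (.s k89 k241 13 (.s k93 k81 1 (.d k12 k14 k174 0 12))))))) (.c k253 (.l (.s k3 k2 0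
  (.s k5 k245 11 (.s k87 k171 13 (.s k86 k84 0 (.s k7 k244 12 (.d k15 k10 k11 2 1))))))) .n))) (.c
  k245 (.q k253 [(.s k169 k1 13 (.s k252 k254 0 (.s k84 k168 13 (.d k86 k87 k3 0 14)))), (.s k169 k1
  13 (.s k173 k161 1 (.s k93 k13 11 (.s k12 k174 12 (.s k4 k8 1 (.s k166 k247 12 (.d k89 k81 k243 1
  14)))))))] (.c k1 (.l (.s k252 k254 0 (.s k84 k168 13 (.s k86 k87 0 (.s k244 k7 12 (.s k240 k248 1
  (.s k80 k160 11 (.d k90 k95 k15 2 14)))))))) (.c k169 (.f k252 k254 0 (.q k86 [(.d k84 k168 k87 13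
  0), (.s k244 k7 12 (.s k240 k248 1 (.s k80 k160 11 (.d k90 k95 k15 2 14))))] (.c k168 (.q k171
  [(.d k87 k84 k3 0 13), (.s k244 k7 12 (.s k240 k248 1 (.s k80 k160 11 (.d k90 k95 k15 2 14))))]
  .n) (.c k171 (.l (.s k168 k84 13 (.s k244 k7 12 (.s k240 k248 1 (.s k80 k160 11 (.d k90 k95 k15 2
  14)))))) .n)))) .n))) (.c k250 (.l (.s k5 k245 11 (.s k15 k10 2 (.s k90 k240 14 (.d k95 k80 k175 2
  11))))) .n)))))))))))

def t6_60 : T TT 256 :=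
  (.f k255 k170 14 (.q k101 [(.s k69 k117 3 (.s k207 k138 10 (.s k223 k239 3 (.d k154 k16 k48 10
  14))))] (.c k16 (.q k1 [(.s k3 k2 0 (.s k87 k171 13 (.s k169 k253 13 (.d k86 k84 k252 0 14)))),
  (.s k69 k117 3 (.s k169 k253 13 (.s k33 k237 9 (.s k49 k17 3 (.d k205 k137 k153 9 13))))), (.s k3
  k2 0 (.s k69 k117 3 (.s k137 k205 9 (.s k70 k204 10 (.s k71 k68 0 (.d k207 k139 k138 9 10))))))]
  .n) (.c k48 (.q k52 [(.s k117 k69 3 (.s k150 k199 12 (.s k20 k215 8 (.s k4 k36 3 (.d k247 k182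
  k166 8 12))))), (.s k117 k69 3 (.s k247 k182 8 (.s k243 k251 1 (.s k81 k162 12 (.s k89 k93 1 (.d
  k166 k4 k12 12 14)))))), (.s k150 k199 12 (.s k20 k215 8 (.s k4 k36 3 (.s k12 k8 1 (.s k93 k174 12
  (.s k89 k81 1 (.d k166 k247 k243 12 14))))))), (.s k69 k117 3 (.s k199 k150 12 (.s k134 k4 8 (.s
  k207 k138 10 (.s k195 k203 1 (.s k73 k12 10 (.d k65 k130 k77 8 1)))))))] (.c k4 (.q k5 [(.s k15
  k10 2 (.s k95 k175 11 (.s k90 k80 2 (.d k165 k245 k240 11 14)))), (.s k69 k117 3 (.s k165 k245 11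
  (.s k37 k229 7 (.s k53 k21 3 (.d k197 k133 k149 7 11))))), (.s k15 k10 2 (.s k69 k117 3 (.s k133
  k197 7 (.s k74 k192 10 (.s k79 k64 2 (.d k207 k143 k138 7 10))))))] .n) (.c k12 (.l (.s k69 k117 3
  (.s k199 k150 12 (.s k4 k134 8 (.s k36 k20 3 (.d k166 k231 k247 8 12)))))) .n))) (.c k69 (.q k80
  [(.s k90 k95 2 (.s k240 k160 11 (.s k245 k250 2 (.d k165 k5 k15 11 14)))), (.s k90 k95 2 (.s k112
  k79 6 (.s k64 k96 3 (.s k192 k128 7 (.s k213 k234 6 (.s k149 k21 7 (.d k106 k127 k63 6 14)))))))]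
  (.c k90 (.f k240 k160 11 (.q k165 [(.d k245 k250 k5 2 11), (.s k229 k37 7 (.s k207 k218 6 (.s k154
  k48 14 (.d k223 k239 k16 3 10))))] (.c k10 (.l (.s k250 k245 2 (.s k229 k37 7 (.s k207 k218 6 (.s
  k154 k48 14 (.d k223 k239 k16 3 10)))))) (.c k250 (.q k10 [(.d k5 k15 k245 2 11), (.s k229 k37 7
  (.s k207 k218 6 (.s k223 k239 3 (.d k154 k16 k48 10 14))))] .n) .n)))) (.c k95 (.l (.s k240 k160
  11 (.s k245 k250 2 (.s k165 k5 11 (.s k229 k37 7 (.s k207 k218 6 (.s k154 k48 14 (.d k223 k239 k16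
  3 10)))))))) .n))) (.c k117 (.q k253 [(.s k169 k1 13 (.s k252 k254 0 (.s k84 k168 13 (.d k86 k87
  k3 0 14)))), (.s k169 k1 13 (.s k237 k33 9 (.s k221 k205 3 (.s k204 k238 4 (.s k68 k136 9 (.s k102
  k119 4 (.d k153 k17 k51 9 14)))))))] (.c k1 (.l (.s k252 k254 0 (.s k84 k168 13 (.s k86 k87 0 (.s
  k116 k71 4 (.s k48 k184 9 (.s k16 k32 3 (.d k154 k223 k207 10 14)))))))) (.c k169 (.f k252 k254 0
  (.q k86 [(.d k84 k168 k87 13 0), (.s k116 k71 4 (.s k48 k184 9 (.s k16 k32 3 (.d k154 k223 k207 10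
  14))))] (.c k168 (.q k171 [(.d k87 k84 k3 0 13), (.s k116 k71 4 (.s k48 k184 9 (.s k16 k32 3 (.d
  k154 k223 k207 10 14))))] .n) (.c k171 (.l (.s k168 k84 13 (.s k116 k71 4 (.s k48 k184 9 (.s k16
  k32 3 (.d k154 k223 k207 10 14)))))) .n)))) .n))) (.c k138 (.l (.s k117 k69 3 (.s k48 k186 10 (.s
  k154 k207 14 (.d k16 k32 k223 3 10))))) (.c k154 (.f k69 k117 3 (.q k68 [(.s k204 k136 9 (.s k221
  k238 4 (.s k153 k17 9 (.d k102 k119 k51 4 14)))), (.s k71 k70 0 (.s k86 k116 4 (.s k87 k84 0 (.d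
  k119 k103 k102 3 4)))), (.s k70 k71 0 (.s k138 k207 10 (.s k204 k136 9 (.s k3 k137 10 (.d k2 k1
  k206 0 9)))))] (.c k138 (.q k186 [(.s k102 k119 4 (.s k100 k103 0 (.s k116 k84 3 (.d k71 k70 k86 0
  4)))), (.s k70 k71 0 (.s k204 k136 9 (.s k137 k3 10 (.s k205 k1 9 (.s k153 k49 13 (.d k221 k17
  k238 9 4)))))), (.s k102 k119 4 (.s k204 k136 9 (.s k153 k51 14 (.d k221 k238 k17 4 9))))] .n) (.c
  k186 (.l (.s k138 k207 10 (.s k70 k71 0 (.s k2 k206 9 (.s k3 k1 0 (.d k204 k136 k137 9 10))))))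
  .n)))) (.c k186 (.l (.s k69 k117 3 (.s k207 k138 10 (.s k154 k48 14 (.d k223 k239 k16 3 10)))))
  (.c k207 (.f k69 k117 3 (.q k1 [(.s k169 k253 13 (.s k205 k137 9 (.s k49 k153 13 (.d k33 k17 k237
  3 9)))), (.s k3 k2 0 (.s k87 k171 13 (.s k86 k84 0 (.s k71 k116 4 (.s k68 k70 0 (.d k119 k103 k102
  3 4))))))] (.c k109 (.q k158 [(.s k169 k253 13 (.s k205 k137 9 (.s k49 k153 13 (.d k33 k17 k237 3
  9)))), (.s k3 k2 0 (.s k87 k171 13 (.s k86 k84 0 (.s k71 k116 4 (.s k68 k70 0 (.d k119 k103 k102 3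
  4))))))] (.c k169 (.l (.s k205 k137 9 (.s k153 k49 13 (.s k17 k221 9 (.s k51 k34 4 (.s k102 k204
  14 (.d k119 k68 k187 4 9))))))) .n)) (.c k158 (.q k109 [(.s k169 k253 13 (.s k205 k137 9 (.s k49
  k153 13 (.d k33 k17 k237 3 9)))), (.s k3 k2 0 (.s k87 k171 13 (.s k86 k84 0 (.d k169 k253 k252 13
  14)))), (.s k105 k97 1 (.s k65 k125 5 (.s k193 k129 7 (.s k205 k137 9 (.d k61 k157 k149 11
  13)))))] .n) (.c k169 (.l (.s k205 k137 9 (.s k153 k49 13 (.s k17 k221 9 (.s k51 k34 4 (.s k102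
  k204 14 (.d k119 k68 k187 4 9))))))) .n))))) (.c k223 (.q k1 [(.s k3 k2 0 (.s k87 k171 13 (.s k86
  k84 0 (.d k169 k253 k252 13 14)))), (.s k69 k117 3 (.s k169 k253 13 (.s k33 k237 9 (.s k49 k17 3
  (.d k205 k137 k153 9 13))))), (.s k3 k2 0 (.s k69 k117 3 (.s k137 k205 9 (.s k70 k204 10 (.s k71
  k68 0 (.d k207 k139 k138 9 10))))))] .n) (.c k239 (.l (.s k117 k69 3 (.s k48 k186 10 (.s k16 k32 3
  (.d k154 k223 k207 10 14))))) .n))))))))))))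

def t6_61 : T TT 256 :=
  (.f k255 k170 14 (.q k106 [(.s k64 k127 6 (.s k192 k128 7 (.s k213 k234 6 (.d k149 k21 k63 7
  14))))] (.c k21 (.q k1 [(.s k3 k2 0 (.s k87 k171 13 (.s k86 k84 0 (.d k169 k253 k252 13 14)))),
  (.s k64 k127 6 (.s k192 k128 7 (.s k213 k234 6 (.s k253 k169 13 (.s k193 k233 5 (.s k65 k129 7 (.d
  k195 k130 k194 8 0))))))), (.s k3 k2 0 (.s k64 k127 6 (.s k192 k128 7 (.s k66 k129 8 (.s k86 k126
  5 (.d k87 k84 k171 0 13))))))] (.c k171 (.l (.s k3 k2 0 (.s k127 k64 6 (.s k63 k191 7 (.s k43 k23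
  5 (.d k169 k232 k253 8 13)))))) .n)) (.c k63 (.q k60 [(.s k20 k40 5 (.s k125 k190 8 (.s k105 k65 5
  (.d k150 k215 k195 8 14)))), (.s k40 k20 5 (.s k64 k127 6 (.s k192 k128 7 (.s k104 k148 13 (.s k84
  k124 5 (.d k168 k232 k252 7 13)))))), (.s k64 k127 6 (.s k125 k190 8 (.s k105 k65 5 (.s k104 k107
  0 (.d k192 k128 k148 7 13)))))] (.c k125 (.l (.s k20 k40 5 (.s k64 k127 6 (.s k150 k215 8 (.s k105
  k195 14 (.s k192 k128 7 (.d k104 k107 k148 0 13))))))) .n)) (.c k64 (.q k60 [(.s k20 k40 5 (.s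
  k125 k190 8 (.s k150 k215 8 (.d k105 k65 k195 5 14)))), (.s k125 k190 8 (.s k105 k65 5 (.s k104
  k107 0 (.s k192 k148 13 (.s k213 k234 6 (.d k149 k21 k63 7 14)))))), (.s k20 k40 5 (.s k150 k215 8
  (.s k105 k195 14 (.s k104 k107 0 (.s k192 k148 13 (.s k213 k234 6 (.d k149 k63 k21 14 7)))))))]
  (.c k105 (.f k40 k20 5 (.q k149 [(.s k21 k213 7 (.d k63 k42 k192 6 14)), (.s k63 k192 14 (.s k125
  k190 8 (.s k127 k191 7 (.s k126 k124 0 (.s k86 k66 5 (.s k84 k87 0 (.d k252 k189 k168 8 13)))))))]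
  (.c k63 (.q k1 [(.s k169 k253 13 (.s k43 k232 8 (.s k41 k42 0 (.d k3 k2 k22 0 6)))), (.s k3 k2 0
  (.s k87 k171 13 (.s k86 k84 0 (.d k169 k253 k252 13 14)))), (.s k169 k253 13 (.s k213 k21 7 (.s
  k192 k234 6 (.s k104 k148 13 (.d k232 k168 k43 7 8))))), (.s k3 k2 0 (.s k213 k21 7 (.s k192 k234
  6 (.s k66 k129 8 (.s k86 k126 5 (.d k87 k84 k171 0 13))))))] .n) (.c k192 (.q k1 [(.s k21 k213 7
  (.s k42 k63 6 (.s k43 k41 0 (.d k169 k232 k253 8 13)))), (.s k3 k2 0 (.s k87 k171 13 (.s k86 k84 0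
  (.d k169 k253 k252 13 14)))), (.s k3 k2 0 (.s k21 k213 7 (.s k41 k22 6 (.d k42 k43 k63 0 6))))]
  .n) .n)))) (.c k150 (.f k190 k125 8 (.q k253 [(.s k252 k254 0 (.s k84 k168 13 (.s k86 k87 0 (.d
  k169 k1 k3 13 14)))), (.s k40 k20 5 (.s k252 k254 0 (.s k168 k84 13 (.s k104 k232 7 (.s k148 k192
  13 (.d k188 k124 k128 7 5)))))), (.s k40 k20 5 (.s k169 k1 13 (.s k232 k43 8 (.s k168 k104 7 (.d
  k252 k84 k254 13 0))))), (.s k40 k20 5 (.s k169 k1 13 (.s k43 k232 8 (.s k41 k42 0 (.s k3 k22 6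
  (.d k252 k86 k254 14 0))))))] (.c k252 (.l (.s k1 k169 13 (.s k3 k2 0 (.s k20 k40 5 (.s k22 k41 6
  (.s k21 k23 0 (.s k149 k213 7 (.d k63 k42 k192 6 14)))))))) (.c k254 (.l (.s k40 k20 5 (.s k169 k1
  13 (.s k43 k232 8 (.s k41 k42 0 (.s k3 k22 6 (.s k86 k252 14 (.d k87 k84 k171 0 13)))))))) .n))))
  .n))) (.c k127 (.q k195 [(.s k65 k130 8 (.s k215 k235 5 (.s k150 k20 8 (.d k105 k125 k60 5 14)))),
  (.s k65 k130 8 (.s k105 k125 5 (.s k107 k104 0 (.s k63 k151 13 (.s k21 k42 6 (.d k149 k213 k192 7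
  14)))))), (.s k215 k235 5 (.s k150 k20 8 (.s k194 k62 13 (.s k192 k193 0 (.s k213 k234 6 (.d k149
  k63 k21 14 7))))))] (.c k105 (.f k130 k65 8 (.q k149 [(.s k21 k213 7 (.d k63 k42 k192 6 14)), (.s
  k63 k192 14 (.s k151 k107 13 (.s k150 k148 0 (.d k215 k235 k20 5 8))))] (.c k40 (.l (.s k235 k215
  5 (.s k21 k213 7 (.d k63 k42 k192 6 14)))) (.c k63 (.l (.s k213 k21 7 (.s k192 k234 6 (.s k128 k64
  7 (.s k129 k131 0 (.s k66 k3 8 (.d k194 k193 k2 0 7))))))) (.c k192 (.l (.s k21 k213 7 (.s k63 k42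
  6 (.s k151 k107 13 (.s k150 k148 0 (.d k215 k235 k20 5 8)))))) (.c k235 (.q k40 [(.s k21 k213 7
  (.d k63 k42 k192 6 14)), (.s k20 k60 5 (.s k63 k192 14 (.s k150 k215 8 (.d k151 k148 k107 0
  13))))] (.c k63 (.l (.s k60 k20 5 (.s k213 k21 7 (.s k192 k234 6 (.s k148 k104 13 (.s k150 k151 0
  (.d k194 k193 k62 0 13))))))) (.c k192 (.l (.s k20 k60 5 (.s k21 k213 7 (.s k63 k42 6 (.s k150
  k215 8 (.d k151 k148 k107 0 13)))))) .n))) .n)))))) (.c k150 (.q k149 [(.s k21 k213 7 (.d k63 k42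
  k192 6 14)), (.s k63 k192 14 (.s k107 k151 13 (.s k105 k104 0 (.d k65 k130 k125 8 5))))] (.c k63
  (.l (.s k213 k21 7 (.s k192 k234 6 (.s k193 k194 0 (.s k215 k235 5 (.s k214 k212 0 (.d k233 k253
  k252 5 6))))))) (.c k130 (.q k190 [(.s k21 k213 7 (.d k63 k42 k192 6 14)), (.s k63 k192 14 (.s
  k107 k151 13 (.s k105 k104 0 (.d k125 k60 k65 8 5))))] (.c k63 (.l (.s k213 k21 7 (.s k192 k234 6
  (.s k193 k194 0 (.s k215 k235 5 (.s k214 k212 0 (.d k233 k253 k252 5 6))))))) (.c k192 (.l (.s k21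
  k213 7 (.s k63 k42 6 (.s k107 k151 13 (.s k105 k104 0 (.d k125 k60 k65 8 5)))))) .n))) (.c k190
  (.l (.s k130 k65 8 (.s k21 k213 7 (.d k63 k42 k192 6 14)))) (.c k192 (.l (.s k21 k213 7 (.s k63
  k42 6 (.s k107 k151 13 (.s k105 k104 0 (.d k65 k125 k130 5 8)))))) .n))))) .n))) (.c k128 (.l (.s
  k127 k64 6 (.s k63 k191 7 (.s k149 k192 14 (.d k21 k42 k213 6 7))))) (.c k149 (.f k64 k127 6 (.q
  k105 [(.s k65 k125 5 (.s k67 k66 0 (.s k104 k107 0 (.d k124 k84 k86 5 6)))), (.s k104 k107 0 (.s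
  k125 k65 5 (.s k60 k190 8 (.d k192 k128 k148 7 13)))), (.s k65 k125 5 (.s k195 k130 8 (.s k150 k60
  14 (.d k215 k235 k20 5 8))))] (.c k65 (.l (.s k104 k107 0 (.s k84 k124 5 (.s k168 k252 13 (.s k40
  k232 7 (.s k60 k20 5 (.d k192 k128 k148 7 13))))))) (.c k125 (.l (.s k104 k107 0 (.s k124 k84 5
  (.s k67 k86 6 (.s k65 k66 0 (.s k195 k130 8 (.s k150 k60 14 (.d k215 k235 k20 5 8)))))))) (.c k128
  (.q k191 [(.s k125 k65 5 (.s k60 k190 8 (.s k20 k40 5 (.d k150 k215 k195 8 14)))), (.s k104 k107 0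
  (.s k84 k124 5 (.s k252 k168 13 (.s k253 k254 0 (.s k169 k1 13 (.d k86 k87 k3 0 14))))))] (.c k125
  (.l (.s k104 k107 0 (.s k124 k84 5 (.s k67 k86 6 (.s k65 k66 0 (.s k195 k130 8 (.s k150 k60 14 (.d
  k215 k235 k20 5 8)))))))) .n)) (.c k191 (.l (.s k128 k192 7 (.s k65 k125 5 (.s k67 k66 0 (.s k104
  k107 0 (.d k124 k84 k86 5 6)))))) .n)))))) (.c k191 (.l (.s k64 k127 6 (.s k192 k128 7 (.s k149
  k63 14 (.d k213 k234 k21 6 7))))) (.c k192 (.q k3 [(.s k87 k171 13 (.s k86 k84 0 (.s k169 k252 14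
  (.d k1 k2 k253 0 13)))), (.s k2 k1 0 (.s k127 k64 6 (.s k63 k191 7 (.s k43 k23 5 (.s k42 k21 6 (.s
  k41 k40 0 (.d k22 k62 k60 5 6))))))), (.s k87 k171 13 (.s k86 k84 0 (.s k126 k66 5 (.s k127 k64 6
  (.s k63 k191 7 (.d k252 k169 k189 14 8))))))] .n) (.c k213 (.q k1 [(.s k3 k2 0 (.s k87 k171 13 (.s
  k86 k84 0 (.d k169 k253 k252 13 14)))), (.s k127 k64 6 (.s k63 k191 7 (.s k169 k253 13 (.s k43
  k232 8 (.d k3 k2 k23 0 5))))), (.s k3 k2 0 (.s k64 k127 6 (.s k192 k128 7 (.s k66 k129 8 (.s k86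
  k126 5 (.d k87 k84 k171 0 13))))))] (.c k2 (.l (.s k64 k127 6 (.s k169 k253 13 (.s k192 k128 7 (.s
  k232 k43 8 (.s k252 k212 5 (.s k84 k168 13 (.d k86 k87 k3 0 14)))))))) (.c k3 (.l (.s k127 k64 6
  (.s k63 k191 7 (.s k253 k169 13 (.s k252 k254 0 (.s k126 k189 8 (.s k86 k66 5 (.d k84 k168 k87 13
  0)))))))) .n))) (.c k234 (.l (.s k127 k64 6 (.s k63 k191 7 (.s k21 k42 6 (.d k149 k213 k192 7
  14))))) .n))))))))))))

def t6_62 : T TT 256 :=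
  (.f k255 k170 14 (.q k106 [(.s k64 k127 6 (.s k192 k128 7 (.s k213 k234 6 (.d k149 k21 k63 7
  14))))] (.c k21 (.q k1 [(.s k127 k64 6 (.s k63 k191 7 (.s k169 k253 13 (.s k43 k232 8 (.d k3 k2
  k23 0 5))))), (.s k3 k2 0 (.s k87 k171 13 (.s k86 k84 0 (.d k169 k253 k252 13 14)))), (.s k64 k127
  6 (.s k192 k128 7 (.s k213 k234 6 (.s k253 k169 13 (.s k193 k233 5 (.s k65 k129 7 (.d k195 k130
  k194 8 0))))))), (.s k3 k2 0 (.s k64 k127 6 (.s k192 k128 7 (.s k66 k129 8 (.s k86 k126 5 (.d k87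
  k84 k171 0 13))))))] .n) (.c k63 (.q k60 [(.s k20 k40 5 (.s k150 k215 8 (.s k105 k195 14 (.d k125
  k65 k190 5 8)))), (.s k40 k20 5 (.s k64 k127 6 (.s k192 k128 7 (.s k104 k148 13 (.s k84 k124 5 (.d
  k168 k232 k252 7 13)))))), (.s k64 k127 6 (.s k125 k190 8 (.s k105 k65 5 (.s k104 k107 0 (.d k192
  k128 k148 7 13)))))] (.c k125 (.l (.s k20 k40 5 (.s k64 k127 6 (.s k150 k215 8 (.s k105 k195 14
  (.s k192 k128 7 (.d k104 k107 k148 0 13))))))) .n)) (.c k64 (.q k60 [(.s k20 k40 5 (.s k150 k215 8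
  (.s k105 k195 14 (.d k125 k65 k190 5 8)))), (.s k125 k190 8 (.s k105 k65 5 (.s k104 k107 0 (.s
  k192 k148 13 (.s k213 k234 6 (.d k149 k21 k63 7 14)))))), (.s k20 k40 5 (.s k150 k215 8 (.s k105
  k195 14 (.s k104 k107 0 (.s k192 k148 13 (.s k213 k234 6 (.d k149 k63 k21 14 7)))))))] (.c k105
  (.q k86 [(.s k84 k87 0 (.s k252 k168 13 (.s k169 k3 14 (.d k253 k254 k1 0 13)))), (.s k84 k87 0
  (.s k125 k190 8 (.s k126 k66 5 (.s k124 k127 0 (.d k252 k188 k168 7 13))))), (.s k125 k190 8 (.s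
  k126 k66 5 (.s k124 k127 0 (.s k252 k188 7 (.s k169 k3 14 (.d k253 k254 k1 0 13)))))), (.s k87 k84
  0 (.s k3 k171 13 (.s k22 k41 6 (.s k150 k214 7 (.d k20 k40 k215 5 8)))))] (.c k40 (.q k235 [(.s
  k87 k84 0 (.s k3 k171 13 (.s k169 k252 14 (.d k1 k2 k253 0 13)))), (.s k84 k87 0 (.s k125 k190 8
  (.s k126 k66 5 (.s k124 k127 0 (.d k252 k188 k168 7 13))))), (.s k125 k190 8 (.s k126 k66 5 (.s
  k124 k127 0 (.s k252 k188 7 (.s k169 k3 14 (.d k253 k254 k1 0 13))))))] (.c k124 (.l (.s k84 k87 0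
  (.s k252 k168 13 (.s k169 k3 14 (.d k253 k254 k1 0 13))))) (.c k252 (.l (.s k87 k84 0 (.s k3 k171
  13 (.s k22 k41 6 (.s k150 k214 7 (.d k215 k195 k20 5 8)))))) .n))) (.c k235 (.l (.s k40 k20 5 (.s
  k84 k87 0 (.s k252 k168 13 (.s k169 k3 14 (.d k253 k254 k1 0 13)))))) .n))) (.c k150 (.f k40 k20 5
  (.f k190 k125 8 (.q k1 [(.s k169 k253 13 (.s k43 k232 8 (.s k41 k42 0 (.d k3 k2 k22 0 6)))), (.s
  k169 k253 13 (.s k232 k43 8 (.s k104 k168 7 (.s k192 k148 13 (.s k213 k234 6 (.d k149 k21 k63 7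
  14)))))), (.s k3 k2 0 (.s k41 k22 6 (.s k42 k43 0 (.d k21 k61 k63 5 6)))), (.s k3 k2 0 (.s k87
  k171 13 (.s k86 k84 0 (.d k169 k253 k252 13 14))))] .n))) .n))) (.c k127 (.q k252 [(.s k84 k168 13
  (.s k253 k254 0 (.s k169 k1 13 (.d k86 k87 k3 0 14)))), (.s k84 k168 13 (.s k86 k87 0 (.s k126 k66
  5 (.s k63 k189 8 (.s k21 k42 6 (.d k149 k213 k192 7 14)))))), (.s k253 k254 0 (.s k169 k1 13 (.s
  k232 k43 8 (.s k192 k212 5 (.s k149 k63 14 (.d k213 k234 k21 6 7)))))), (.s k84 k168 13 (.s k86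
  k87 0 (.s k169 k3 14 (.d k253 k254 k1 0 13))))] (.c k86 (.f k254 k253 0 (.q k246 [(.s k243 k249 2
  (.s k250 k242 1 (.s k245 k240 2 (.d k247 k244 k251 0 1)))), (.s k243 k249 2 (.s k81 k162 12 (.s
  k89 k93 1 (.s k166 k12 14 (.d k247 k251 k4 1 12))))), (.s k84 k168 13 (.s k250 k242 1 (.s k240
  k245 2 (.s k80 k160 11 (.s k88 k92 1 (.s k164 k12 13 (.d k244 k248 k4 1 11)))))))] (.c k241 (.l
  (.s k249 k243 2 (.s k250 k242 1 (.s k240 k245 2 (.d k248 k251 k244 0 1))))) (.c k245 (.l (.s k242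
  k250 1 (.s k243 k249 2 (.s k241 k240 0 (.s k81 k162 12 (.s k89 k93 1 (.s k166 k12 14 (.d k247 k251
  k4 1 12)))))))) (.c k249 (.l (.s k250 k242 1 (.s k245 k240 2 (.s k247 k244 0 (.s k166 k4 12 (.s
  k243 k251 1 (.s k81 k162 12 (.d k89 k93 k12 1 14)))))))) .n))))) (.c k169 (.q k192 [(.s k213 k234
  6 (.d k149 k21 k63 7 14)), (.s k128 k64 7 (.s k168 k84 13 (.s k148 k188 5 (.s k232 k212 5 (.d k104
  k40 k60 7 13)))))] (.c k168 (.q k171 [(.s k213 k234 6 (.d k149 k21 k63 7 14)), (.s k3 k87 13 (.s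
  k66 k129 8 (.s k126 k86 5 (.d k63 k189 k149 8 14)))), (.s k212 k232 5 (.s k213 k234 6 (.s k214
  k215 0 (.s k233 k195 6 (.d k253 k254 k193 0 5)))))] .n) (.c k171 (.l (.s k168 k84 13 (.s k149 k63
  14 (.d k213 k234 k21 6 7)))) .n))) .n))) (.c k128 (.l (.s k127 k64 6 (.s k63 k191 7 (.s k149 k192
  14 (.d k21 k42 k213 6 7))))) (.c k149 (.f k64 k127 6 (.f k128 k192 7 (.q k65 [(.s k105 k125 5 (.s
  k104 k107 0 (.s k124 k84 5 (.d k67 k66 k86 0 6)))), (.s k195 k130 8 (.s k215 k235 5 (.s k150 k20 8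
  (.d k105 k125 k60 5 14)))), (.s k67 k66 0 (.s k195 k130 8 (.s k3 k131 7 (.s k87 k171 13 (.s k86
  k84 0 (.s k169 k252 14 (.d k1 k2 k253 0 13)))))))] .n))) (.c k191 (.l (.s k64 k127 6 (.s k192 k128
  7 (.s k149 k63 14 (.d k213 k234 k21 6 7))))) (.c k192 (.q k1 [(.s k3 k2 0 (.s k87 k171 13 (.s k86
  k84 0 (.d k169 k253 k252 13 14)))), (.s k127 k64 6 (.s k63 k191 7 (.s k169 k253 13 (.s k43 k232 8
  (.d k3 k2 k23 0 5))))), (.s k3 k2 0 (.s k127 k64 6 (.s k63 k191 7 (.s k23 k43 5 (.s k21 k42 6 (.s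
  k22 k20 0 (.d k41 k61 k60 5 6)))))))] (.c k2 (.l (.s k127 k64 6 (.s k63 k191 7 (.s k169 k253 13
  (.s k43 k232 8 (.s k3 k23 5 (.s k87 k171 13 (.d k86 k252 k84 14 0)))))))) (.c k3 (.l (.s k127 k64
  6 (.s k63 k191 7 (.s k21 k42 6 (.s k61 k41 5 (.s k253 k169 13 (.s k189 k125 7 (.d k252 k254 k126 0
  8)))))))) .n))) (.c k213 (.q k1 [(.s k3 k2 0 (.s k87 k171 13 (.s k86 k84 0 (.d k169 k253 k252 13
  14)))), (.s k64 k127 6 (.s k169 k253 13 (.s k192 k128 7 (.s k149 k63 14 (.s k129 k189 5 (.s k66 k3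
  8 (.d k65 k193 k67 7 0))))))), (.s k3 k2 0 (.s k64 k127 6 (.s k192 k128 7 (.s k66 k129 8 (.s k86
  k126 5 (.d k87 k84 k171 0 13))))))] (.c k3 (.l (.s k127 k64 6 (.s k63 k191 7 (.s k21 k42 6 (.s k61
  k41 5 (.s k253 k169 13 (.s k189 k125 7 (.d k252 k254 k126 0 8)))))))) .n)) (.c k234 (.l (.s k127
  k64 6 (.s k63 k191 7 (.s k21 k42 6 (.d k149 k213 k192 7 14))))) .n))))))))))))

def t6_63 : T TT 256 :=
  (.f k255 k170 14 (.q k101 [(.s k69 k117 3 (.s k207 k138 10 (.s k223 k239 3 (.d k154 k16 k48 10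
  14))))] (.c k16 (.q k1 [(.s k3 k2 0 (.s k87 k171 13 (.s k169 k253 13 (.d k86 k84 k252 0 14)))),
  (.s k69 k117 3 (.s k169 k253 13 (.s k33 k237 9 (.s k49 k17 3 (.d k205 k137 k153 9 13))))), (.s k3
  k2 0 (.s k69 k117 3 (.s k137 k205 9 (.s k70 k204 10 (.s k71 k68 0 (.d k207 k139 k138 9 10))))))]
  .n) (.c k48 (.q k53 [(.s k117 k69 3 (.s k149 k197 11 (.s k21 k213 7 (.s k5 k37 3 (.d k245 k181
  k165 7 11))))), (.s k117 k69 3 (.s k245 k181 7 (.s k240 k250 2 (.s k80 k160 11 (.s k90 k95 2 (.d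
  k165 k5 k15 11 14)))))), (.s k149 k197 11 (.s k21 k213 7 (.s k5 k37 3 (.s k15 k10 2 (.s k95 k175
  11 (.s k90 k80 2 (.d k165 k245 k240 11 14))))))), (.s k69 k117 3 (.s k197 k149 11 (.s k133 k5 7
  (.s k207 k138 10 (.s k192 k202 2 (.s k74 k15 10 (.d k64 k128 k79 7 2)))))))] (.c k5 (.q k4 [(.s
  k12 k8 1 (.s k93 k174 12 (.s k89 k81 1 (.d k166 k247 k243 12 14)))), (.s k69 k117 3 (.s k166 k247
  12 (.s k36 k231 8 (.s k52 k20 3 (.d k199 k134 k150 8 12))))), (.s k12 k8 1 (.s k69 k117 3 (.s k134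
  k199 8 (.s k73 k195 10 (.s k77 k65 1 (.d k207 k142 k138 8 10))))))] .n) (.c k15 (.l (.s k69 k117 3
  (.s k197 k149 11 (.s k5 k133 7 (.s k37 k21 3 (.d k165 k229 k245 7 11)))))) .n))) (.c k69 (.q k81
  [(.s k89 k93 1 (.s k243 k162 12 (.s k247 k251 1 (.d k166 k4 k12 12 14)))), (.s k89 k93 1 (.s k113
  k77 5 (.s k65 k97 3 (.s k195 k130 8 (.s k215 k235 5 (.s k150 k20 8 (.d k105 k125 k60 5 14)))))))]
  (.c k89 (.f k243 k162 12 (.q k166 [(.d k247 k251 k4 1 12), (.s k231 k36 8 (.s k207 k219 5 (.s k154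
  k48 14 (.d k223 k239 k16 3 10))))] (.c k8 (.l (.s k251 k247 1 (.s k231 k36 8 (.s k207 k219 5 (.s
  k154 k48 14 (.d k223 k239 k16 3 10)))))) (.c k251 (.q k8 [(.d k4 k12 k247 1 12), (.s k231 k36 8
  (.s k207 k219 5 (.s k223 k239 3 (.d k154 k16 k48 10 14))))] .n) .n)))) (.c k93 (.l (.s k243 k162
  12 (.s k247 k251 1 (.s k166 k4 12 (.s k231 k36 8 (.s k207 k219 5 (.s k154 k48 14 (.d k223 k239 k16
  3 10)))))))) .n))) (.c k117 (.q k253 [(.s k169 k1 13 (.s k252 k254 0 (.s k84 k168 13 (.d k86 k87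
  k3 0 14)))), (.s k169 k1 13 (.s k237 k33 9 (.s k221 k205 3 (.s k204 k238 4 (.s k68 k136 9 (.s k102
  k119 4 (.d k153 k17 k51 9 14)))))))] (.c k1 (.l (.s k252 k254 0 (.s k84 k168 13 (.s k86 k87 0 (.s
  k116 k71 4 (.s k48 k184 9 (.s k16 k32 3 (.d k154 k223 k207 10 14)))))))) (.c k169 (.f k252 k254 0
  (.q k86 [(.d k84 k168 k87 13 0), (.s k116 k71 4 (.s k48 k184 9 (.s k16 k32 3 (.d k154 k223 k207 10
  14))))] (.c k168 (.q k171 [(.d k87 k84 k3 0 13), (.s k116 k71 4 (.s k48 k184 9 (.s k16 k32 3 (.d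
  k154 k223 k207 10 14))))] .n) (.c k171 (.l (.s k168 k84 13 (.s k116 k71 4 (.s k48 k184 9 (.s k16
  k32 3 (.d k154 k223 k207 10 14)))))) .n)))) .n))) (.c k138 (.l (.s k117 k69 3 (.s k48 k186 10 (.s
  k154 k207 14 (.d k16 k32 k223 3 10))))) (.c k154 (.f k69 k117 3 (.q k153 [(.s k205 k49 13 (.s k1
  k137 9 (.s k221 k17 9 (.d k253 k237 k169 3 13)))), (.s k17 k221 9 (.s k51 k34 4 (.s k102 k204 14
  (.d k119 k68 k187 4 9)))), (.s k205 k49 13 (.s k1 k137 9 (.s k3 k2 0 (.s k87 k171 13 (.s k86 k84 0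
  (.d k169 k253 k252 13 14))))))] (.c k138 (.q k186 [(.s k17 k221 9 (.s k51 k34 4 (.s k119 k187 9
  (.d k102 k68 k204 4 14)))), (.s k205 k49 13 (.s k1 k137 9 (.s k3 k2 0 (.s k87 k171 13 (.s k86 k84
  0 (.d k169 k253 k252 13 14))))))] .n) (.c k186 (.l (.s k138 k207 10 (.s k17 k221 9 (.s k51 k34 4
  (.s k102 k204 14 (.d k119 k68 k187 4 9)))))) .n)))) (.c k186 (.l (.s k69 k117 3 (.s k207 k138 10
  (.s k154 k48 14 (.d k223 k239 k16 3 10))))) (.c k207 (.f k117 k69 3 (.q k93 [(.s k12 k174 12 (.s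
  k4 k8 1 (.s k89 k81 1 (.d k166 k247 k243 12 14)))), (.s k48 k186 10 (.s k16 k32 3 (.s k89 k81 1
  (.s k154 k223 10 (.s k24 k219 8 (.d k12 k36 k174 5 12)))))), (.s k12 k174 12 (.s k4 k8 1 (.s k48
  k186 10 (.s k36 k24 5 (.d k166 k231 k247 8 12)))))] (.c k12 (.l (.s k48 k186 10 (.s k81 k89 1 (.s
  k243 k162 12 (.s k113 k178 8 (.s k65 k97 3 (.d k125 k121 k105 1 5))))))) (.c k89 (.l (.s k12 k174
  12 (.s k48 k186 10 (.s k36 k24 5 (.s k166 k231 8 (.d k4 k8 k247 1 12)))))) (.c k111 (.q k159 [(.s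
  k12 k174 12 (.s k4 k8 1 (.s k89 k81 1 (.d k166 k247 k243 12 14)))), (.s k48 k186 10 (.s k16 k32 3
  (.s k89 k81 1 (.s k154 k223 10 (.s k24 k219 8 (.d k12 k36 k174 5 12)))))), (.s k12 k174 12 (.s k4
  k8 1 (.s k48 k186 10 (.s k36 k24 5 (.d k166 k231 k247 8 12)))))] (.c k12 (.l (.s k48 k186 10 (.s
  k81 k89 1 (.s k243 k162 12 (.s k113 k178 8 (.s k65 k97 3 (.d k125 k121 k105 1 5))))))) (.c k89 (.l
  (.s k12 k174 12 (.s k48 k186 10 (.s k36 k24 5 (.s k166 k231 8 (.d k4 k8 k247 1 12)))))) (.c k174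
  (.l (.s k48 k186 10 (.s k89 k81 1 (.s k113 k77 5 (.s k243 k178 8 (.s k247 k251 1 (.d k166 k12 k4
  14 12))))))) .n)))) (.c k159 (.q k111 [(.s k12 k174 12 (.s k4 k8 1 (.s k89 k81 1 (.d k166 k247
  k243 12 14)))), (.s k106 k96 2 (.s k127 k64 6 (.s k79 k95 3 (.d k112 k122 k90 2 6))))] .n) (.c
  k174 (.l (.s k48 k186 10 (.s k89 k81 1 (.s k113 k77 5 (.s k243 k178 8 (.s k247 k251 1 (.d k166 k12
  k4 14 12))))))) .n))))))) (.c k223 (.q k1 [(.s k3 k2 0 (.s k87 k171 13 (.s k86 k84 0 (.d k169 k253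
  k252 13 14)))), (.s k69 k117 3 (.s k169 k253 13 (.s k33 k237 9 (.s k49 k17 3 (.d k205 k137 k153 9
  13))))), (.s k3 k2 0 (.s k69 k117 3 (.s k137 k205 9 (.s k70 k204 10 (.s k71 k68 0 (.d k207 k139
  k138 9 10))))))] .n) (.c k239 (.l (.s k117 k69 3 (.s k48 k186 10 (.s k16 k32 3 (.d k154 k223 k207
  10 14))))) .n))))))))))))

def t6_82 : T TT 256 :=
  (.f k255 k170 14 (.q k106 [(.s k64 k127 6 (.s k192 k128 7 (.s k149 k63 14 (.d k213 k234 k21 6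
  7))))] (.c k21 (.q k1 [(.s k127 k64 6 (.s k63 k191 7 (.s k169 k253 13 (.s k43 k232 8 (.d k3 k2 k23
  0 5))))), (.s k3 k2 0 (.s k87 k171 13 (.s k86 k84 0 (.d k169 k253 k252 13 14)))), (.s k64 k127 6
  (.s k192 k128 7 (.s k213 k234 6 (.s k253 k169 13 (.s k193 k233 5 (.s k65 k129 7 (.d k195 k130 k194
  8 0))))))), (.s k3 k2 0 (.s k64 k127 6 (.s k192 k128 7 (.s k66 k129 8 (.s k86 k126 5 (.d k87 k84
  k171 0 13))))))] .n) (.c k63 (.q k1 [(.s k3 k2 0 (.s k87 k171 13 (.s k86 k84 0 (.d k169 k253 k252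
  13 14)))), (.s k64 k127 6 (.s k192 k128 7 (.s k213 k234 6 (.s k253 k169 13 (.s k193 k233 5 (.s k65
  k129 7 (.d k195 k130 k194 8 0))))))), (.s k3 k2 0 (.s k64 k127 6 (.s k192 k128 7 (.s k66 k129 8
  (.s k86 k126 5 (.d k87 k84 k171 0 13))))))] (.c k171 (.l (.s k3 k2 0 (.s k64 k127 6 (.s k169 k253
  13 (.s k86 k252 14 (.s k192 k128 7 (.d k66 k126 k129 5 8))))))) .n)) (.c k64 (.q k60 [(.s k20 k40
  5 (.s k125 k190 8 (.s k150 k215 8 (.d k105 k65 k195 5 14)))), (.s k20 k40 5 (.s k150 k215 8 (.s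
  k62 k194 13 (.s k63 k61 0 (.s k21 k42 6 (.d k149 k213 k192 7 14)))))), (.s k125 k190 8 (.s k105
  k65 5 (.s k104 k107 0 (.s k192 k148 13 (.s k149 k63 14 (.d k213 k234 k21 6 7))))))] (.c k105 (.q
  k86 [(.s k84 k87 0 (.s k252 k168 13 (.s k253 k254 0 (.d k169 k1 k3 13 14)))), (.s k126 k66 5 (.s
  k190 k125 8 (.s k62 k254 7 (.s k150 k194 13 (.d k20 k40 k215 5 8)))))] (.c k40 (.q k235 [(.s k84
  k87 0 (.s k252 k168 13 (.s k253 k254 0 (.d k169 k1 k3 13 14)))), (.s k126 k66 5 (.s k190 k125 8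
  (.s k62 k254 7 (.s k150 k194 13 (.d k215 k195 k20 5 8)))))] (.c k254 (.l (.s k87 k84 0 (.s k3 k171
  13 (.s k1 k2 0 (.d k169 k253 k252 13 14))))) .n)) (.c k235 (.l (.s k40 k20 5 (.s k84 k87 0 (.s
  k252 k168 13 (.s k169 k3 14 (.d k253 k254 k1 0 13)))))) (.c k254 (.l (.s k87 k84 0 (.s k3 k171 13
  (.s k1 k2 0 (.d k169 k253 k252 13 14))))) .n)))) (.c k150 (.q k149 [(.s k21 k213 7 (.d k63 k42
  k192 6 14)), (.s k63 k192 14 (.s k61 k62 0 (.s k105 k193 13 (.d k125 k190 k65 8 5))))] (.c k63 (.l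
  (.s k213 k21 7 (.s k192 k234 6 (.s k104 k148 13 (.s k105 k107 0 (.d k125 k65 k190 5 8)))))) (.c
  k130 (.l (.s k190 k125 8 (.s k21 k213 7 (.d k63 k42 k192 6 14)))) (.c k190 (.q k130 [(.s k21 k213
  7 (.d k63 k42 k192 6 14)), (.s k63 k192 14 (.s k61 k62 0 (.s k65 k195 8 (.d k105 k193 k125 13
  5))))] (.c k63 (.l (.s k65 k195 8 (.s k105 k125 5 (.s k213 k21 7 (.s k192 k234 6 (.d k104 k107
  k148 0 13)))))) (.c k192 (.l (.s k21 k213 7 (.s k63 k42 6 (.s k61 k62 0 (.s k65 k195 8 (.d k105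
  k193 k125 13 5)))))) .n))) (.c k192 (.l (.s k21 k213 7 (.s k63 k42 6 (.s k61 k62 0 (.s k105 k193
  13 (.d k125 k65 k190 5 8)))))) .n))))) .n))) (.c k127 (.q k195 [(.s k65 k130 8 (.s k215 k235 5 (.s
  k150 k20 8 (.d k105 k125 k60 5 14)))), (.s k65 k130 8 (.s k105 k125 5 (.s k107 k104 0 (.s k63 k151
  13 (.s k21 k42 6 (.d k149 k213 k192 7 14)))))), (.s k215 k235 5 (.s k150 k20 8 (.s k194 k62 13 (.s
  k192 k193 0 (.s k149 k63 14 (.d k213 k234 k21 6 7))))))] (.c k105 (.q k149 [(.s k21 k213 7 (.d k63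
  k42 k192 6 14)), (.s k63 k192 14 (.s k151 k107 13 (.s k150 k148 0 (.d k215 k235 k20 5 8))))] (.c
  k40 (.l (.s k235 k215 5 (.s k21 k213 7 (.d k63 k42 k192 6 14)))) (.c k63 (.l (.s k213 k21 7 (.s
  k192 k234 6 (.s k194 k193 0 (.s k150 k62 13 (.d k215 k235 k20 5 8)))))) (.c k192 (.l (.s k21 k213
  7 (.s k63 k42 6 (.s k151 k107 13 (.s k150 k148 0 (.d k215 k235 k20 5 8)))))) (.c k235 (.q k40 [(.s
  k21 k213 7 (.d k63 k42 k192 6 14)), (.s k20 k60 5 (.s k63 k192 14 (.s k150 k215 8 (.d k151 k148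
  k107 0 13))))] (.c k63 (.l (.s k20 k60 5 (.s k150 k215 8 (.s k213 k21 7 (.s k192 k234 6 (.d k194
  k62 k193 13 0)))))) (.c k192 (.l (.s k20 k60 5 (.s k21 k213 7 (.s k63 k42 6 (.s k150 k215 8 (.d
  k151 k148 k107 0 13)))))) .n))) .n))))) (.c k150 (.q k149 [(.s k21 k213 7 (.d k63 k42 k192 6 14)),
  (.s k63 k192 14 (.s k107 k151 13 (.s k105 k104 0 (.d k65 k130 k125 8 5))))] (.c k63 (.l (.s k213
  k21 7 (.s k192 k234 6 (.s k193 k194 0 (.s k105 k61 13 (.d k65 k125 k130 5 8)))))) (.c k130 (.q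
  k190 [(.s k21 k213 7 (.d k63 k42 k192 6 14)), (.s k63 k192 14 (.s k107 k151 13 (.s k105 k104 0 (.d
  k125 k60 k65 8 5))))] (.c k63 (.l (.s k125 k60 8 (.s k105 k65 5 (.s k213 k21 7 (.s k192 k234 6 (.d
  k193 k61 k194 13 0)))))) (.c k192 (.l (.s k21 k213 7 (.s k63 k42 6 (.s k107 k151 13 (.s k105 k104
  0 (.d k125 k60 k65 8 5)))))) .n))) (.c k190 (.l (.s k130 k65 8 (.s k21 k213 7 (.d k63 k42 k192 6
  14)))) (.c k192 (.l (.s k21 k213 7 (.s k63 k42 6 (.s k107 k151 13 (.s k105 k104 0 (.d k65 k125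
  k130 5 8)))))) .n))))) .n))) (.c k128 (.l (.s k127 k64 6 (.s k63 k191 7 (.s k149 k192 14 (.d k21
  k42 k213 6 7))))) (.c k149 (.f k64 k127 6 (.q k72 [(.s k76 k68 1 (.s k89 k123 4 (.s k81 k93 1 (.d
  k115 k98 k102 4 6)))), (.s k68 k76 1 (.s k136 k204 9 (.s k8 k200 7 (.s k12 k4 1 (.d k192 k128 k132
  7 9))))), (.s k89 k123 4 (.s k93 k81 1 (.s k12 k174 12 (.d k192 k128 k132 7 9))))] (.c k93 (.l (.s
  k76 k68 1 (.s k89 k123 4 (.s k115 k102 6 (.s k81 k98 4 (.s k243 k162 12 (.s k166 k12 14 (.d k247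
  k251 k4 1 12)))))))) (.c k128 (.q k191 [(.s k76 k68 1 (.s k89 k123 4 (.s k81 k93 1 (.d k115 k98
  k102 4 6)))), (.s k68 k76 1 (.s k204 k136 9 (.s k221 k238 4 (.s k153 k17 9 (.d k102 k119 k51 4
  14))))), (.s k89 k123 4 (.s k93 k81 1 (.s k12 k174 12 (.s k4 k8 1 (.d k166 k247 k243 12 14)))))]
  (.c k93 (.l (.s k76 k68 1 (.s k89 k123 4 (.s k115 k102 6 (.s k81 k98 4 (.s k243 k162 12 (.s k166
  k12 14 (.d k247 k251 k4 1 12)))))))) (.c k119 (.l (.s k76 k68 1 (.s k89 k123 4 (.s k115 k102 6 (.d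
  k81 k93 k98 1 4))))) .n))) (.c k191 (.l (.s k128 k192 7 (.s k76 k68 1 (.s k89 k123 4 (.s k81 k93 1
  (.d k115 k98 k102 4 6)))))) .n))))) (.c k191 (.l (.s k64 k127 6 (.s k192 k128 7 (.s k149 k63 14
  (.d k213 k234 k21 6 7))))) (.c k192 (.q k1 [(.s k3 k2 0 (.s k87 k171 13 (.s k86 k84 0 (.d k169
  k253 k252 13 14)))), (.s k127 k64 6 (.s k63 k191 7 (.s k21 k42 6 (.s k61 k41 5 (.s k253 k169 13
  (.s k125 k189 7 (.d k60 k190 k62 8 0))))))), (.s k3 k2 0 (.s k127 k64 6 (.s k63 k191 7 (.s k21 k42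
  6 (.s k23 k43 5 (.s k22 k20 0 (.d k41 k61 k60 5 6)))))))] .n) (.c k213 (.q k1 [(.s k3 k2 0 (.s k87
  k171 13 (.s k86 k84 0 (.d k169 k253 k252 13 14)))), (.s k64 k127 6 (.s k169 k253 13 (.s k192 k128
  7 (.s k149 k63 14 (.s k129 k189 5 (.s k66 k3 8 (.d k65 k193 k67 7 0))))))), (.s k3 k2 0 (.s k64
  k127 6 (.s k192 k128 7 (.s k66 k129 8 (.s k86 k126 5 (.d k87 k84 k171 0 13))))))] (.c k3 (.l (.s
  k127 k64 6 (.s k63 k191 7 (.s k21 k42 6 (.s k61 k41 5 (.s k60 k62 0 (.s k125 k190 8 (.d k253 k189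
  k169 7 13)))))))) .n)) (.c k234 (.l (.s k127 k64 6 (.s k63 k191 7 (.s k21 k42 6 (.d k149 k213 k192
  7 14))))) .n))))))))))))

def t6_83 : T TT 256 :=
  (.f k255 k170 14 (.q k106 [(.s k64 k127 6 (.s k192 k128 7 (.s k149 k63 14 (.d k213 k234 k21 6
  7))))] (.c k21 (.q k1 [(.s k169 k253 13 (.s k3 k2 0 (.s k86 k252 14 (.d k87 k84 k171 0 13)))), (.s
  k64 k127 6 (.s k192 k128 7 (.s k213 k234 6 (.s k253 k169 13 (.s k193 k233 5 (.s k65 k129 7 (.d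
  k195 k130 k194 8 0))))))), (.s k3 k2 0 (.s k64 k127 6 (.s k192 k128 7 (.s k66 k129 8 (.s k86 k126
  5 (.d k87 k84 k171 0 13))))))] (.c k171 (.l (.s k3 k2 0 (.s k127 k64 6 (.s k63 k191 7 (.s k43 k23
  5 (.d k169 k232 k253 8 13)))))) .n)) (.c k63 (.q k1 [(.s k3 k2 0 (.s k87 k171 13 (.s k86 k84 0 (.d
  k169 k253 k252 13 14)))), (.s k64 k127 6 (.s k192 k128 7 (.s k213 k234 6 (.s k253 k169 13 (.s k193
  k233 5 (.s k65 k129 7 (.d k195 k130 k194 8 0))))))), (.s k3 k2 0 (.s k64 k127 6 (.s k192 k128 7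
  (.s k66 k129 8 (.s k86 k126 5 (.d k87 k84 k171 0 13))))))] (.c k171 (.l (.s k3 k2 0 (.s k64 k127 6
  (.s k169 k253 13 (.s k86 k252 14 (.s k192 k128 7 (.d k66 k126 k129 5 8))))))) .n)) (.c k64 (.q k60
  [(.s k20 k40 5 (.s k125 k190 8 (.s k150 k215 8 (.d k105 k65 k195 5 14)))), (.s k20 k40 5 (.s k150
  k215 8 (.s k62 k194 13 (.s k63 k61 0 (.s k21 k42 6 (.d k149 k213 k192 7 14)))))), (.s k125 k190 8
  (.s k105 k65 5 (.s k104 k107 0 (.s k192 k148 13 (.s k149 k63 14 (.d k213 k234 k21 6 7))))))] (.c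
  k105 (.q k86 [(.s k84 k87 0 (.s k252 k168 13 (.s k253 k254 0 (.d k169 k1 k3 13 14)))), (.s k126
  k66 5 (.s k190 k125 8 (.s k62 k254 7 (.s k150 k194 13 (.d k20 k40 k215 5 8)))))] (.c k40 (.q k235
  [(.s k87 k84 0 (.s k3 k171 13 (.s k169 k252 14 (.d k1 k2 k253 0 13)))), (.s k126 k66 5 (.s k190
  k125 8 (.s k62 k254 7 (.s k150 k194 13 (.d k215 k195 k20 5 8)))))] (.c k2 (.l (.s k84 k87 0 (.s
  k252 k168 13 (.s k169 k3 14 (.d k253 k254 k1 0 13))))) .n)) (.c k235 (.l (.s k40 k20 5 (.s k84 k87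
  0 (.s k252 k168 13 (.s k169 k3 14 (.d k253 k254 k1 0 13)))))) (.c k254 (.l (.s k87 k84 0 (.s k3
  k171 13 (.s k1 k2 0 (.d k169 k253 k252 13 14))))) .n)))) (.c k150 (.q k149 [(.s k21 k213 7 (.d k63
  k42 k192 6 14)), (.s k63 k192 14 (.s k61 k62 0 (.s k105 k193 13 (.d k125 k190 k65 8 5))))] (.c k63
  (.l (.s k213 k21 7 (.s k192 k234 6 (.s k104 k148 13 (.s k105 k107 0 (.d k125 k65 k190 5 8))))))
  (.c k130 (.l (.s k190 k125 8 (.s k21 k213 7 (.d k63 k42 k192 6 14)))) (.c k190 (.q k130 [(.s k21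
  k213 7 (.d k63 k42 k192 6 14)), (.s k63 k192 14 (.s k61 k62 0 (.s k65 k195 8 (.d k105 k193 k125 13
  5))))] (.c k63 (.l (.s k65 k195 8 (.s k105 k125 5 (.s k213 k21 7 (.s k192 k234 6 (.d k104 k107
  k148 0 13)))))) (.c k192 (.l (.s k21 k213 7 (.s k63 k42 6 (.s k61 k62 0 (.s k65 k195 8 (.d k105
  k193 k125 13 5)))))) .n))) (.c k192 (.l (.s k21 k213 7 (.s k63 k42 6 (.s k61 k62 0 (.s k105 k193
  13 (.d k125 k65 k190 5 8)))))) .n))))) .n))) (.c k127 (.q k195 [(.s k65 k130 8 (.s k215 k235 5 (.s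
  k150 k20 8 (.d k105 k125 k60 5 14)))), (.s k65 k130 8 (.s k105 k125 5 (.s k107 k104 0 (.s k63 k151
  13 (.s k21 k42 6 (.d k149 k213 k192 7 14)))))), (.s k215 k235 5 (.s k150 k20 8 (.s k194 k62 13 (.s
  k192 k193 0 (.s k149 k63 14 (.d k213 k234 k21 6 7))))))] (.c k105 (.q k81 [(.s k89 k93 1 (.s k243
  k162 12 (.s k247 k251 1 (.d k166 k4 k12 12 14)))), (.s k65 k130 8 (.s k97 k113 3 (.s k48 k146 12
  (.s k32 k16 3 (.d k162 k227 k243 8 12)))))] (.c k40 (.l (.s k235 k215 5 (.s k89 k93 1 (.s k243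
  k162 12 (.s k166 k12 14 (.d k247 k251 k4 1 12)))))) (.c k162 (.l (.s k65 k130 8 (.s k89 k93 1 (.s
  k97 k113 3 (.s k146 k48 12 (.s k211 k16 8 (.s k150 k28 10 (.d k215 k20 k235 8 5)))))))) (.c k235
  (.q k40 [(.s k89 k93 1 (.s k243 k162 12 (.s k166 k12 14 (.d k247 k251 k4 1 12)))), (.s k20 k60 5
  (.s k150 k215 8 (.s k194 k62 13 (.s k192 k193 0 (.s k213 k234 6 (.d k149 k63 k21 14 7))))))] .n)
  (.c k243 (.l (.s k65 k130 8 (.s k93 k89 1 (.s k12 k174 12 (.s k8 k4 1 (.s k73 k134 10 (.s k69 k77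
  1 (.d k138 k203 k207 8 10)))))))) .n))))) (.c k150 (.q k199 [(.s k207 k203 1 (.s k69 k138 10 (.s
  k101 k117 3 (.s k154 k48 14 (.d k223 k239 k16 3 10))))), (.s k207 k203 1 (.s k215 k235 5 (.s k223
  k239 3 (.s k219 k211 1 (.d k231 k247 k243 3 5))))), (.s k207 k203 1 (.s k69 k138 10 (.s k4 k134 8
  (.s k215 k235 5 (.d k247 k166 k231 12 3))))), (.s k215 k235 5 (.s k247 k231 3 (.s k4 k166 12 (.s
  k12 k8 1 (.d k134 k69 k73 8 10)))))] (.c k130 (.q k190 [(.s k207 k203 1 (.s k69 k138 10 (.s k101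
  k117 3 (.s k154 k48 14 (.d k223 k239 k16 3 10))))), (.s k207 k203 1 (.s k215 k235 5 (.s k223 k239
  3 (.s k219 k211 1 (.d k231 k247 k243 3 5))))), (.s k215 k235 5 (.s k247 k231 3 (.s k4 k166 12 (.s
  k12 k8 1 (.d k134 k69 k73 8 10))))), (.s k125 k60 8 (.s k65 k105 5 (.s k207 k203 1 (.s k69 k138 10
  (.s k73 k77 1 (.d k134 k4 k12 8 10))))))] .n) (.c k190 (.l (.s k130 k65 8 (.s k207 k203 1 (.s k69
  k138 10 (.s k4 k134 8 (.s k215 k235 5 (.d k247 k166 k231 12 3))))))) .n))) .n))) (.c k128 (.l (.s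
  k127 k64 6 (.s k63 k191 7 (.s k149 k192 14 (.d k21 k42 k213 6 7))))) (.c k149 (.f k64 k127 6 (.q
  k90 [(.s k74 k122 3 (.s k79 k69 2 (.s k80 k95 2 (.d k112 k96 k101 3 6)))), (.s k80 k95 2 (.s k240
  k160 11 (.s k165 k15 14 (.d k245 k250 k5 2 11)))), (.s k74 k122 3 (.s k95 k80 2 (.s k15 k175 11
  (.d k192 k128 k133 7 10))))] (.c k80 (.l (.s k74 k122 3 (.s k69 k79 2 (.s k138 k207 10 (.s k10
  k202 7 (.s k15 k5 2 (.d k192 k128 k133 7 10))))))) (.c k95 (.l (.s k74 k122 3 (.s k79 k69 2 (.s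
  k112 k101 6 (.s k80 k96 3 (.s k240 k160 11 (.s k165 k15 14 (.d k245 k250 k5 2 11)))))))) (.c k128
  (.q k191 [(.s k74 k122 3 (.s k79 k69 2 (.s k80 k95 2 (.d k112 k96 k101 3 6)))), (.s k95 k80 2 (.s
  k15 k175 11 (.s k5 k10 2 (.d k165 k245 k240 11 14))))] (.c k80 (.l (.s k74 k122 3 (.s k69 k79 2
  (.s k207 k138 10 (.s k223 k239 3 (.s k154 k16 10 (.d k101 k117 k48 3 14))))))) (.c k95 (.l (.s k74
  k122 3 (.s k79 k69 2 (.s k112 k101 6 (.s k80 k96 3 (.s k240 k160 11 (.s k165 k15 14 (.d k245 k250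
  k5 2 11)))))))) .n))) (.c k191 (.l (.s k128 k192 7 (.s k74 k122 3 (.s k79 k69 2 (.s k80 k95 2 (.d
  k112 k96 k101 3 6)))))) .n)))))) (.c k191 (.l (.s k64 k127 6 (.s k192 k128 7 (.s k149 k63 14 (.d
  k213 k234 k21 6 7))))) (.c k192 (.q k1 [(.s k3 k2 0 (.s k87 k171 13 (.s k86 k84 0 (.d k169 k253
  k252 13 14)))), (.s k127 k64 6 (.s k63 k191 7 (.s k21 k42 6 (.s k61 k41 5 (.s k253 k169 13 (.s
  k125 k189 7 (.d k60 k190 k62 8 0))))))), (.s k3 k2 0 (.s k127 k64 6 (.s k63 k191 7 (.s k21 k42 6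
  (.s k23 k43 5 (.s k22 k20 0 (.d k41 k61 k60 5 6)))))))] .n) (.c k213 (.q k1 [(.s k3 k2 0 (.s k87
  k171 13 (.s k86 k84 0 (.d k169 k253 k252 13 14)))), (.s k64 k127 6 (.s k169 k253 13 (.s k192 k128
  7 (.s k149 k63 14 (.s k129 k189 5 (.s k66 k3 8 (.d k65 k193 k67 7 0))))))), (.s k3 k2 0 (.s k64
  k127 6 (.s k192 k128 7 (.s k66 k129 8 (.s k86 k126 5 (.d k87 k84 k171 0 13))))))] (.c k3 (.l (.s
  k127 k64 6 (.s k63 k191 7 (.s k21 k42 6 (.s k61 k41 5 (.s k60 k62 0 (.s k125 k190 8 (.d k253 k189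
  k169 7 13)))))))) .n)) (.c k234 (.l (.s k127 k64 6 (.s k63 k191 7 (.s k21 k42 6 (.d k149 k213 k192
  7 14))))) .n))))))))))))

def t6_88 : T TT 256 :=
  (.f k255 k170 14 (.q k106 [(.s k64 k127 6 (.s k192 k128 7 (.s k149 k63 14 (.d k213 k234 k21 6
  7))))] (.c k21 (.q k1 [(.s k169 k253 13 (.s k3 k2 0 (.s k86 k252 14 (.d k87 k84 k171 0 13)))), (.s
  k64 k127 6 (.s k192 k128 7 (.s k213 k234 6 (.s k253 k169 13 (.s k193 k233 5 (.s k65 k129 7 (.d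
  k195 k130 k194 8 0))))))), (.s k3 k2 0 (.s k64 k127 6 (.s k192 k128 7 (.s k66 k129 8 (.s k86 k126
  5 (.d k87 k84 k171 0 13))))))] (.c k171 (.l (.s k3 k2 0 (.s k127 k64 6 (.s k63 k191 7 (.s k43 k23
  5 (.d k169 k232 k253 8 13)))))) .n)) (.c k63 (.q k1 [(.s k3 k2 0 (.s k87 k171 13 (.s k169 k253 13
  (.d k86 k84 k252 0 14)))), (.s k64 k127 6 (.s k192 k128 7 (.s k213 k234 6 (.s k253 k169 13 (.s
  k193 k233 5 (.s k65 k129 7 (.d k195 k130 k194 8 0))))))), (.s k3 k2 0 (.s k64 k127 6 (.s k192 k128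
  7 (.s k66 k129 8 (.s k86 k126 5 (.d k87 k84 k171 0 13))))))] (.c k171 (.l (.s k3 k2 0 (.s k64 k127
  6 (.s k169 k253 13 (.s k86 k252 14 (.s k192 k128 7 (.d k66 k126 k129 5 8))))))) .n)) (.c k64 (.q
  k60 [(.s k20 k40 5 (.s k125 k190 8 (.s k150 k215 8 (.d k105 k65 k195 5 14)))), (.s k20 k40 5 (.s
  k150 k215 8 (.s k62 k194 13 (.s k63 k61 0 (.s k21 k42 6 (.d k149 k213 k192 7 14)))))), (.s k125
  k190 8 (.s k105 k65 5 (.s k104 k107 0 (.s k192 k148 13 (.s k149 k63 14 (.d k213 k234 k21 6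
  7))))))] (.c k105 (.q k86 [(.s k84 k87 0 (.s k252 k168 13 (.s k253 k254 0 (.d k169 k1 k3 13
  14)))), (.s k126 k66 5 (.s k190 k125 8 (.s k62 k254 7 (.s k150 k194 13 (.d k20 k40 k215 5 8)))))]
  (.c k40 (.q k235 [(.s k84 k87 0 (.s k252 k168 13 (.s k253 k254 0 (.d k169 k1 k3 13 14)))), (.s
  k126 k66 5 (.s k190 k125 8 (.s k62 k254 7 (.s k150 k194 13 (.d k215 k195 k20 5 8)))))] (.c k254
  (.l (.s k87 k84 0 (.s k3 k171 13 (.s k1 k2 0 (.d k169 k253 k252 13 14))))) .n)) (.c k235 (.l (.s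
  k40 k20 5 (.s k84 k87 0 (.s k252 k168 13 (.s k169 k3 14 (.d k253 k254 k1 0 13)))))) (.c k254 (.l
  (.s k87 k84 0 (.s k3 k171 13 (.s k1 k2 0 (.d k169 k253 k252 13 14))))) .n)))) (.c k150 (.q k149
  [(.s k21 k213 7 (.d k63 k42 k192 6 14)), (.s k63 k192 14 (.s k61 k62 0 (.s k105 k193 13 (.d k125
  k190 k65 8 5))))] (.c k63 (.l (.s k213 k21 7 (.s k192 k234 6 (.s k104 k148 13 (.s k105 k107 0 (.d
  k125 k65 k190 5 8)))))) (.c k130 (.l (.s k190 k125 8 (.s k21 k213 7 (.d k63 k42 k192 6 14)))) (.c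
  k190 (.q k130 [(.s k21 k213 7 (.d k63 k42 k192 6 14)), (.s k63 k192 14 (.s k61 k62 0 (.s k65 k195
  8 (.d k105 k193 k125 13 5))))] (.c k63 (.l (.s k65 k195 8 (.s k105 k125 5 (.s k213 k21 7 (.s k192
  k234 6 (.d k104 k107 k148 0 13)))))) (.c k192 (.l (.s k21 k213 7 (.s k63 k42 6 (.s k61 k62 0 (.s
  k65 k195 8 (.d k105 k193 k125 13 5)))))) .n))) (.c k192 (.l (.s k21 k213 7 (.s k63 k42 6 (.s k61
  k62 0 (.s k105 k193 13 (.d k125 k65 k190 5 8)))))) .n))))) .n))) (.c k127 (.q k195 [(.s k65 k130 8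
  (.s k215 k235 5 (.s k150 k20 8 (.d k105 k125 k60 5 14)))), (.s k65 k130 8 (.s k105 k125 5 (.s k107
  k104 0 (.s k63 k151 13 (.s k21 k42 6 (.d k149 k213 k192 7 14)))))), (.s k215 k235 5 (.s k150 k20 8
  (.s k194 k62 13 (.s k192 k193 0 (.s k149 k63 14 (.d k213 k234 k21 6 7))))))] (.c k105 (.q k149
  [(.s k21 k213 7 (.d k63 k42 k192 6 14)), (.s k63 k192 14 (.s k151 k107 13 (.s k150 k148 0 (.d k215
  k235 k20 5 8))))] (.c k40 (.l (.s k235 k215 5 (.s k21 k213 7 (.d k63 k42 k192 6 14)))) (.c k63 (.l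
  (.s k213 k21 7 (.s k192 k234 6 (.s k194 k193 0 (.s k150 k62 13 (.d k215 k235 k20 5 8)))))) (.c
  k192 (.l (.s k21 k213 7 (.s k63 k42 6 (.s k151 k107 13 (.s k150 k148 0 (.d k215 k235 k20 5 8))))))
  (.c k235 (.q k40 [(.s k21 k213 7 (.d k63 k42 k192 6 14)), (.s k20 k60 5 (.s k63 k192 14 (.s k150
  k215 8 (.d k151 k148 k107 0 13))))] (.c k63 (.l (.s k20 k60 5 (.s k150 k215 8 (.s k213 k21 7 (.s
  k192 k234 6 (.d k194 k62 k193 13 0)))))) (.c k192 (.l (.s k20 k60 5 (.s k21 k213 7 (.s k63 k42 6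
  (.s k150 k215 8 (.d k151 k148 k107 0 13)))))) .n))) .n))))) (.c k150 (.q k149 [(.s k21 k213 7 (.d
  k63 k42 k192 6 14)), (.s k63 k192 14 (.s k107 k151 13 (.s k105 k104 0 (.d k65 k130 k125 8 5))))]
  (.c k63 (.l (.s k213 k21 7 (.s k192 k234 6 (.s k193 k194 0 (.s k105 k61 13 (.d k65 k125 k130 5
  8)))))) (.c k130 (.q k190 [(.s k21 k213 7 (.d k63 k42 k192 6 14)), (.s k63 k192 14 (.s k107 k151
  13 (.s k105 k104 0 (.d k125 k60 k65 8 5))))] (.c k63 (.l (.s k125 k60 8 (.s k105 k65 5 (.s k213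
  k21 7 (.s k192 k234 6 (.d k193 k61 k194 13 0)))))) (.c k192 (.l (.s k21 k213 7 (.s k63 k42 6 (.s
  k107 k151 13 (.s k105 k104 0 (.d k125 k60 k65 8 5)))))) .n))) (.c k190 (.l (.s k130 k65 8 (.s k21
  k213 7 (.d k63 k42 k192 6 14)))) (.c k192 (.l (.s k21 k213 7 (.s k63 k42 6 (.s k107 k151 13 (.s
  k105 k104 0 (.d k65 k125 k130 5 8)))))) .n))))) .n))) (.c k128 (.l (.s k127 k64 6 (.s k63 k191 7
  (.s k149 k192 14 (.d k21 k42 k213 6 7))))) (.c k149 (.f k127 k64 6 (.q k89 [(.s k93 k81 1 (.s k12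
  k174 12 (.s k166 k243 14 (.d k4 k8 k247 1 12)))), (.s k123 k72 4 (.s k119 k115 1 (.s k51 k187 9
  (.s k17 k34 4 (.s k153 k221 9 (.d k102 k68 k204 4 14)))))), (.s k81 k93 1 (.s k123 k72 4 (.s k243
  k162 12 (.d k63 k191 k183 7 9))))] (.c k81 (.l (.s k123 k72 4 (.s k115 k119 1 (.s k76 k102 6 (.s
  k93 k110 4 (.s k12 k174 12 (.s k4 k8 1 (.d k166 k247 k243 12 14)))))))) (.c k128 (.l (.s k191 k63
  7 (.s k81 k93 1 (.s k243 k162 12 (.s k166 k12 14 (.d k247 k251 k4 1 12)))))) (.c k191 (.q k128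
  [(.s k81 k93 1 (.s k243 k162 12 (.s k247 k251 1 (.d k166 k4 k12 12 14)))), (.s k123 k72 4 (.s k119
  k115 1 (.s k51 k187 9 (.s k17 k34 4 (.s k153 k221 9 (.d k102 k68 k204 4 14))))))] (.c k81 (.l (.s
  k123 k72 4 (.s k115 k119 1 (.s k76 k102 6 (.s k93 k110 4 (.s k12 k174 12 (.s k4 k8 1 (.d k166 k247
  k243 12 14)))))))) .n)) .n))))) (.c k191 (.l (.s k64 k127 6 (.s k192 k128 7 (.s k149 k63 14 (.d
  k213 k234 k21 6 7))))) (.c k192 (.q k1 [(.s k3 k2 0 (.s k87 k171 13 (.s k169 k253 13 (.d k86 k84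
  k252 0 14)))), (.s k127 k64 6 (.s k63 k191 7 (.s k21 k42 6 (.s k61 k41 5 (.s k253 k169 13 (.s k125
  k189 7 (.d k60 k190 k62 8 0))))))), (.s k3 k2 0 (.s k127 k64 6 (.s k63 k191 7 (.s k21 k42 6 (.s
  k23 k43 5 (.s k22 k20 0 (.d k41 k61 k60 5 6)))))))] .n) (.c k213 (.q k1 [(.s k169 k253 13 (.s k3
  k2 0 (.s k86 k252 14 (.d k87 k84 k171 0 13)))), (.s k127 k64 6 (.s k63 k191 7 (.s k21 k42 6 (.s
  k61 k41 5 (.s k60 k62 0 (.s k125 k190 8 (.d k253 k189 k169 7 13))))))), (.s k64 k127 6 (.s k169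
  k253 13 (.s k192 k128 7 (.s k149 k63 14 (.s k129 k189 5 (.s k66 k3 8 (.d k65 k193 k67 7 0))))))),
  (.s k3 k2 0 (.s k64 k127 6 (.s k192 k128 7 (.s k66 k129 8 (.s k86 k126 5 (.d k87 k84 k171 0
  13))))))] .n) (.c k234 (.l (.s k127 k64 6 (.s k63 k191 7 (.s k21 k42 6 (.d k149 k213 k192 7
  14))))) .n))))))))))))

def t6_90 : T TT 256 :=
  (.f k170 k255 14 (.q k207 [(.s k69 k138 10 (.s k101 k117 3 (.s k32 k239 10 (.d k48 k16 k154 3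
  14))))] (.c k16 (.q k1 [(.s k3 k2 0 (.s k169 k253 13 (.s k168 k171 0 (.d k252 k84 k86 13 14)))),
  (.s k69 k138 10 (.s k101 k117 3 (.s k169 k253 13 (.s k33 k237 9 (.s k49 k17 3 (.d k205 k137 k153 9
  13)))))), (.s k3 k2 0 (.s k69 k138 10 (.s k71 k139 9 (.s k70 k68 0 (.d k137 k205 k204 9 10)))))]
  .n) (.c k32 (.q k1 [(.s k169 k253 13 (.s k168 k171 0 (.s k252 k84 13 (.d k3 k2 k86 0 14)))), (.s
  k3 k2 0 (.s k69 k138 10 (.s k71 k139 9 (.s k70 k68 0 (.d k137 k205 k204 9 10))))), (.s k69 k138 10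
  (.s k101 k117 3 (.s k169 k253 13 (.s k33 k237 9 (.s k49 k17 3 (.d k205 k137 k153 9 13))))))] .n)
  (.c k48 (.f k138 k69 10 (.q k2 [(.s k3 k1 0 (.s k70 k206 9 (.s k139 k71 9 (.d k137 k136 k204 0
  10)))), (.s k86 k254 13 (.s k84 k87 0 (.s k252 k168 13 (.s k222 k237 4 (.d k154 k186 k18 3 9)))))]
  (.c k3 (.l (.s k206 k70 9 (.s k204 k205 0 (.s k68 k136 9 (.s k102 k119 4 (.d k154 k186 k50 3
  13)))))) (.c k117 (.l (.s k186 k154 3 (.s k3 k1 0 (.s k70 k206 9 (.s k137 k204 10 (.d k139 k136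
  k71 0 9)))))) (.c k186 (.q k117 [(.s k3 k1 0 (.s k70 k206 9 (.s k139 k71 9 (.d k137 k136 k204 0
  10)))), (.s k86 k254 13 (.s k84 k87 0 (.s k252 k168 13 (.d k3 k1 k169 0 14)))), (.s k206 k70 9 (.s
  k254 k86 13 (.s k238 k222 3 (.s k102 k34 9 (.s k68 k119 4 (.d k204 k205 k136 0 9))))))] .n)
  .n))))) (.c k69 (.q k150 [(.s k20 k215 8 (.s k60 k40 5 (.s k130 k190 5 (.d k195 k65 k105 8 14)))),
  (.s k130 k190 5 (.s k195 k65 8 (.s k199 k203 1 (.s k101 k52 12 (.s k32 k239 10 (.d k48 k16 k154 3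
  14)))))), (.s k20 k215 8 (.s k60 k40 5 (.s k158 k109 12 (.s k154 k146 1 (.s k16 k223 10 (.d k48
  k32 k101 3 14))))))] (.c k60 (.q k89 [(.s k8 k251 12 (.s k81 k93 1 (.s k243 k162 12 (.d k12 k4
  k166 1 14)))), (.s k20 k215 8 (.s k28 k211 10 (.s k16 k24 1 (.s k48 k32 3 (.d k154 k223 k101 10
  14)))))] (.c k125 (.l (.s k190 k130 5 (.s k8 k251 12 (.s k12 k4 1 (.s k81 k93 1 (.d k243 k162 k166
  12 14)))))) (.c k190 (.q k125 [(.s k8 k251 12 (.s k81 k93 1 (.s k243 k162 12 (.d k12 k4 k166 1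
  14)))), (.s k20 k215 8 (.s k28 k211 10 (.s k16 k24 1 (.s k48 k32 3 (.d k154 k223 k101 10 14)))))]
  .n) .n))) (.c k195 (.q k149 [(.s k21 k213 7 (.s k63 k42 6 (.s k128 k191 6 (.d k192 k64 k106 7
  14)))), (.s k151 k148 0 (.s k190 k130 5 (.s k191 k128 6 (.s k131 k171 5 (.d k188 k189 k169 0
  6))))), (.s k151 k148 0 (.s k213 k21 7 (.s k215 k20 8 (.s k23 k87 7 (.d k212 k214 k86 0 8)))))]
  (.c k215 (.q k235 [(.s k21 k213 7 (.s k63 k42 6 (.s k128 k191 6 (.d k192 k64 k106 7 14)))), (.s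
  k151 k148 0 (.s k190 k130 5 (.s k191 k128 6 (.s k131 k171 5 (.d k188 k189 k169 0 6))))), (.s k21
  k213 7 (.s k40 k105 8 (.s k20 k60 5 (.s k23 k22 0 (.s k148 k151 0 (.d k212 k84 k86 7 8))))))] .n)
  (.c k235 (.l (.s k215 k20 8 (.s k21 k213 7 (.s k63 k42 6 (.s k128 k191 6 (.d k192 k64 k106 7
  14)))))) .n))) .n))) (.c k101 (.f k138 k69 10 (.q k106 [(.s k42 k234 7 (.s k63 k21 6 (.s k64 k127
  6 (.d k192 k128 k149 7 14)))), (.s k64 k127 6 (.s k154 k186 3 (.s k192 k128 7 (.d k202 k197 k58 2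
  11)))), (.s k154 k186 3 (.s k16 k223 10 (.s k48 k32 3 (.s k58 k202 11 (.s k63 k53 2 (.d k42 k21
  k234 6 7))))))] (.c k63 (.l (.s k154 k186 3 (.s k202 k58 11 (.s k192 k197 2 (.d k64 k127 k128 6
  7))))) (.c k79 (.q k112 [(.s k42 k234 7 (.s k63 k21 6 (.s k64 k127 6 (.d k192 k128 k149 7 14)))),
  (.s k154 k186 3 (.s k202 k58 11 (.s k192 k197 2 (.d k64 k127 k128 6 7)))), (.s k64 k127 6 (.s k80
  k96 3 (.s k154 k186 3 (.s k16 k223 10 (.s k48 k32 3 (.d k240 k160 k176 11 7))))))] (.c k64 (.q k74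
  [(.s k154 k186 3 (.d k202 k10 k58 7 11)), (.s k42 k234 7 (.s k63 k21 6 (.s k192 k149 14 (.d k202
  k197 k10 2 7)))), (.s k42 k234 7 (.s k63 k21 6 (.s k154 k186 3 (.s k159 k111 11 (.d k149 k192 k144
  14 2)))))] .n) (.c k74 (.l (.s k64 k127 6 (.s k42 k234 7 (.s k63 k21 6 (.d k192 k128 k149 7
  14))))) (.c k127 (.l (.s k42 k234 7 (.s k63 k21 6 (.s k154 k186 3 (.s k192 k149 14 (.d k202 k197
  k58 2 11)))))) .n)))) (.c k112 (.q k79 [(.s k42 k234 7 (.s k63 k21 6 (.s k64 k127 6 (.d k192 k128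
  k149 7 14)))), (.s k15 k143 7 (.s k10 k5 2 (.s k154 k186 3 (.d k202 k74 k58 7 11))))] (.c k117 (.l
  (.s k143 k15 7 (.s k128 k133 2 (.d k64 k192 k127 7 6)))) .n)) .n))))) (.c k117 (.l (.s k138 k69 10
  (.s k154 k186 3 (.s k48 k101 14 (.d k16 k32 k223 3 10))))) (.c k138 (.q k150 [(.s k20 k215 8 (.s
  k60 k40 5 (.s k130 k190 5 (.d k195 k65 k105 8 14)))), (.s k130 k190 5 (.s k195 k65 8 (.s k199 k203
  1 (.s k101 k52 12 (.s k32 k239 10 (.d k48 k16 k154 3 14)))))), (.s k20 k215 8 (.s k60 k40 5 (.s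
  k158 k109 12 (.s k154 k146 1 (.s k16 k223 10 (.d k48 k32 k101 3 14))))))] (.c k60 (.q k86 [(.s k2
  k254 13 (.s k3 k1 0 (.s k84 k87 0 (.d k252 k168 k169 13 14)))), (.s k20 k215 8 (.s k22 k214 7 (.s
  k23 k21 0 (.s k84 k87 0 (.d k212 k148 k149 7 8))))), (.s k2 k254 13 (.s k20 k215 8 (.s k22 k214 7
  (.s k42 k62 5 (.d k21 k63 k23 6 0)))))] (.c k125 (.l (.s k190 k130 5 (.s k2 k254 13 (.s k3 k1 0
  (.s k84 k87 0 (.d k252 k168 k169 13 14)))))) (.c k190 (.q k125 [(.s k2 k254 13 (.s k3 k1 0 (.s k84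
  k87 0 (.d k252 k168 k169 13 14)))), (.s k20 k215 8 (.s k22 k214 7 (.s k23 k21 0 (.s k84 k87 0 (.d
  k212 k148 k149 7 8))))), (.s k2 k254 13 (.s k20 k215 8 (.s k22 k214 7 (.s k21 k23 0 (.d k42 k62
  k63 5 6)))))] (.c k87 (.l (.s k2 k254 13 (.s k3 k1 0 (.s k65 k105 5 (.s k195 k130 8 (.s k131 k67 7
  (.d k169 k252 k188 14 6))))))) .n)) .n))) (.c k195 (.q k81 [(.s k89 k93 1 (.s k8 k251 12 (.s k243
  k162 12 (.d k12 k4 k166 1 14)))), (.s k89 k93 1 (.s k211 k28 10 (.s k16 k146 8 (.s k48 k32 3 (.d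
  k154 k223 k101 10 14))))), (.s k130 k190 5 (.s k162 k243 12 (.s k146 k178 3 (.s k154 k158 1 (.d
  k16 k211 k223 8 10)))))] (.c k174 (.l (.s k243 k162 12 (.s k89 k93 1 (.s k12 k166 14 (.d k8 k4
  k251 1 12))))) (.c k215 (.q k235 [(.s k89 k93 1 (.s k8 k251 12 (.s k243 k162 12 (.d k12 k4 k166 1
  14)))), (.s k89 k93 1 (.s k211 k28 10 (.s k16 k146 8 (.s k48 k32 3 (.d k154 k223 k101 10 14))))),
  (.s k130 k190 5 (.s k162 k243 12 (.s k146 k178 3 (.s k154 k158 1 (.d k16 k211 k223 8 10)))))] (.c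
  k174 (.l (.s k243 k162 12 (.s k89 k93 1 (.s k12 k166 14 (.d k8 k4 k251 1 12))))) .n)) (.c k235 (.l
  (.s k215 k20 8 (.s k89 k93 1 (.s k8 k251 12 (.s k12 k4 1 (.d k243 k162 k166 12 14)))))) .n))))
  .n))) (.c k154 (.f k69 k138 10 (.q k105 [(.s k40 k235 8 (.s k60 k20 5 (.s k65 k125 5 (.d k195 k130
  k150 8 14)))), (.s k40 k235 8 (.s k101 k117 3 (.s k32 k239 10 (.s k44 k36 1 (.s k97 k109 1 (.d
  k227 k162 k166 8 10)))))), (.s k65 k125 5 (.s k73 k77 1 (.s k195 k130 8 (.s k134 k12 10 (.d k199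
  k203 k4 1 8)))))] (.c k26 (.q k218 [(.s k40 k235 8 (.s k60 k20 5 (.s k65 k125 5 (.d k195 k130 k150
  8 14)))), (.s k40 k235 8 (.s k101 k117 3 (.s k32 k239 10 (.s k44 k36 1 (.s k97 k109 1 (.d k227
  k162 k166 8 10)))))), (.s k65 k125 5 (.s k73 k77 1 (.s k195 k130 8 (.s k134 k12 10 (.d k199 k203
  k4 1 8)))))] (.c k195 (.l (.s k101 k117 3 (.s k109 k97 1 (.s k60 k158 12 (.d k40 k20 k235 5 8)))))
  .n)) (.c k195 (.l (.s k101 k117 3 (.s k109 k97 1 (.s k60 k158 12 (.d k40 k20 k235 5 8))))) (.c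
  k218 (.q k26 [(.s k40 k235 8 (.s k60 k20 5 (.s k65 k125 5 (.d k195 k130 k150 8 14)))), (.s k40
  k235 8 (.s k101 k117 3 (.s k32 k239 10 (.s k44 k36 1 (.s k97 k109 1 (.d k227 k162 k166 8 10)))))),
  (.s k65 k125 5 (.s k73 k77 1 (.s k195 k130 8 (.s k134 k12 10 (.d k199 k203 k4 1 8)))))] (.c k195
  (.l (.s k101 k117 3 (.s k109 k97 1 (.s k60 k158 12 (.d k40 k20 k235 5 8))))) .n)) .n))))) (.c k186
  (.l (.s k69 k138 10 (.s k101 k117 3 (.s k48 k154 14 (.d k32 k16 k239 3 10))))) (.c k239 (.l (.s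
  k138 k69 10 (.s k154 k186 3 (.s k16 k223 10 (.d k48 k32 k101 3 14))))) .n))))))))))))

def t6_91 : T TT 256 :=
  (.f k255 k170 14 (.q k165 [(.s k5 k245 11 (.s k15 k10 2 (.s k90 k240 14 (.d k95 k80 k175 2 11)))),
  (.s k245 k5 11 (.s k240 k250 2 (.s k80 k160 11 (.d k90 k95 k15 2 14))))] (.c k5 (.q k4 [(.s k12 k8
  1 (.s k93 k174 12 (.s k89 k81 1 (.d k166 k247 k243 12 14)))), (.s k166 k247 12 (.s k164 k167 0 (.s
  k84 k244 11 (.s k252 k168 13 (.s k253 k254 0 (.s k169 k1 13 (.d k86 k87 k3 0 14))))))), (.s k12 k8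
  1 (.s k93 k174 12 (.s k89 k81 1 (.s k13 k241 13 (.s k15 k14 0 (.s k95 k175 11 (.d k90 k80 k240 2
  14)))))))] (.c k166 (.q k86 [(.s k244 k7 12 (.d k84 k87 k164 0 11)), (.s k84 k87 0 (.s k252 k168
  13 (.s k169 k3 14 (.d k253 k254 k1 0 13))))] (.c k84 (.q k199 [(.s k7 k244 12 (.s k71 k135 7 (.s
  k101 k116 4 (.d k69 k117 k134 3 8)))), (.s k69 k134 8 (.s k101 k117 3 (.s k207 k138 10 (.s k154
  k48 14 (.d k223 k239 k16 3 10))))), (.s k7 k244 12 (.s k135 k71 7 (.s k150 k180 4 (.s k20 k215 8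
  (.s k22 k214 7 (.d k52 k36 k37 3 4))))))] (.c k162 (.q k174 [(.d k12 k8 k93 1 12), (.s k7 k244 12
  (.s k69 k134 8 (.s k71 k135 7 (.d k101 k117 k116 3 4))))] .n) (.c k174 (.q k162 [(.s k7 k244 12
  (.s k71 k135 7 (.s k101 k116 4 (.d k69 k117 k134 3 8)))), (.s k69 k134 8 (.s k207 k138 10 (.s k243
  k81 12 (.s k231 k219 5 (.d k247 k251 k215 1 3))))), (.s k7 k244 12 (.s k71 k135 7 (.s k101 k116 4
  (.s k37 k229 7 (.d k52 k22 k150 4 12)))))] .n) .n))) (.c k87 (.l (.s k244 k7 12 (.s k84 k164 11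
  (.s k252 k168 13 (.s k169 k3 14 (.d k253 k254 k1 0 13)))))) (.c k162 (.q k174 [(.d k12 k8 k93 1
  12), (.s k84 k87 0 (.d k244 k164 k7 11 12))] .n) (.c k174 (.q k162 [(.s k244 k7 12 (.d k84 k87
  k164 0 11)), (.s k81 k243 12 (.s k89 k93 1 (.s k83 k92 2 (.s k80 k82 0 (.s k240 k160 11 (.d k90
  k95 k15 2 14))))))] .n) .n))))) .n)) (.c k10 (.l (.s k245 k5 11 (.s k240 k250 2 (.s k90 k15 14 (.d
  k80 k95 k160 2 11))))) (.c k15 (.q k243 [(.s k81 k162 12 (.s k89 k93 1 (.s k247 k251 1 (.d k166 k4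
  k12 12 14)))), (.s k81 k162 12 (.s k245 k5 11 (.s k240 k250 2 (.s k241 k242 0 (.s k1 k161 11 (.d
  k253 k249 k169 1 13)))))), (.s k245 k5 11 (.s k240 k250 2 (.s k241 k242 0 (.s k89 k13 13 (.s k247
  k251 1 (.d k166 k4 k12 12 14))))))] (.c k4 (.l (.s k81 k162 12 (.s k89 k93 1 (.s k241 k13 13 (.s
  k240 k242 0 (.d k245 k250 k5 2 11)))))) (.c k166 (.l (.s k245 k5 11 (.s k240 k250 2 (.s k241 k242
  0 (.s k89 k13 13 (.d k81 k93 k162 1 12)))))) .n))) (.c k80 (.q k1 [(.s k3 k2 0 (.s k169 k253 13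
  (.s k86 k252 14 (.d k87 k84 k171 0 13)))), (.s k5 k245 11 (.s k169 k253 13 (.s k161 k173 1 (.s
  k241 k81 11 (.d k13 k9 k89 1 13)))))] (.c k169 (.l (.s k5 k245 11 (.s k13 k9 1 (.s k15 k10 2 (.s
  k89 k241 13 (.s k93 k81 1 (.d k12 k14 k174 0 12))))))) (.c k253 (.l (.s k3 k2 0 (.s k5 k245 11 (.s
  k87 k171 13 (.s k86 k84 0 (.s k7 k244 12 (.d k15 k11 k10 1 2))))))) .n))) (.c k90 (.f k245 k5 11
  (.f k250 k240 2 (.q k89 [(.s k81 k93 1 (.s k241 k13 13 (.s k253 k249 1 (.d k1 k161 k169 11 13)))),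
  (.s k81 k93 1 (.s k243 k162 12 (.s k166 k12 14 (.d k247 k4 k251 12 1)))), (.s k241 k13 13 (.s k253
  k249 1 (.s k252 k254 0 (.s k84 k168 13 (.s k86 k87 0 (.d k169 k1 k3 13 14))))))] (.c k4 (.q k7
  [(.s k81 k93 1 (.s k241 k13 13 (.s k253 k249 1 (.d k1 k161 k169 11 13)))), (.s k81 k93 1 (.s k243
  k162 12 (.s k244 k86 12 (.d k247 k246 k251 0 1)))), (.s k86 k244 12 (.s k84 k87 0 (.s k241 k13 13
  (.s k252 k168 13 (.d k253 k254 k249 0 1)))))] .n) (.c k7 (.q k4 [(.s k12 k8 1 (.d k93 k81 k174 1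
  12)), (.s k12 k8 1 (.d k166 k247 k243 12 14)), (.s k81 k93 1 (.s k243 k162 12 (.d k247 k166 k251
  12 1)))] .n) (.c k9 (.l (.s k81 k93 1 (.s k241 k13 13 (.s k1 k161 11 (.d k253 k249 k169 1 13)))))
  .n)))))) (.c k95 (.q k3 [(.s k87 k171 13 (.s k86 k84 0 (.s k169 k252 14 (.d k1 k2 k253 0 13)))),
  (.s k245 k5 11 (.s k240 k250 2 (.s k161 k82 12 (.s k169 k173 1 (.d k1 k2 k253 0 13))))), (.s k5
  k245 11 (.s k15 k10 2 (.s k7 k11 1 (.s k86 k244 12 (.d k87 k171 k84 13 0)))))] (.c k2 (.l (.s k5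
  k245 11 (.s k87 k171 13 (.s k86 k84 0 (.s k7 k244 12 (.d k15 k11 k10 1 2)))))) (.c k83 (.l (.s k87
  k171 13 (.s k1 k2 0 (.s k86 k84 0 (.d k169 k253 k252 13 14))))) (.c k87 (.q k83 [(.s k245 k5 11
  (.s k240 k250 2 (.s k80 k160 11 (.d k82 k81 k161 0 12)))), (.s k1 k2 0 (.s k169 k253 13 (.s k161
  k173 1 (.s k81 k241 11 (.d k243 k163 k162 11 12))))), (.s k243 k163 11 (.s k247 k251 1 (.s k166 k4
  12 (.s k89 k12 14 (.d k81 k93 k162 1 12)))))] (.c k81 (.l (.s k1 k2 0 (.s k169 k253 13 (.s k161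
  k173 1 (.s k240 k82 12 (.d k245 k250 k5 2 11)))))) .n)) .n)))) (.c k240 (.q k1 [(.s k5 k245 11 (.s
  k169 k253 13 (.s k161 k173 1 (.s k241 k81 11 (.d k13 k9 k89 1 13))))), (.s k3 k2 0 (.s k87 k171 13
  (.s k86 k84 0 (.d k169 k253 k252 13 14))))] (.c k169 (.l (.s k5 k245 11 (.s k13 k9 1 (.s k15 k10 2
  (.s k89 k241 13 (.s k93 k81 1 (.d k12 k14 k174 0 12))))))) (.c k253 (.l (.s k3 k2 0 (.s k5 k245 11
  (.s k87 k171 13 (.s k86 k84 0 (.s k7 k244 12 (.d k15 k11 k10 1 2))))))) .n))) (.c k245 (.q k253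
  [(.s k169 k1 13 (.s k252 k254 0 (.s k84 k168 13 (.d k86 k87 k3 0 14)))), (.s k169 k1 13 (.s k173
  k161 1 (.s k93 k13 11 (.s k12 k174 12 (.s k4 k8 1 (.s k166 k247 12 (.d k89 k81 k243 1 14)))))))]
  (.c k1 (.l (.s k252 k254 0 (.s k84 k168 13 (.s k86 k87 0 (.s k244 k7 12 (.s k240 k248 1 (.s k80
  k160 11 (.d k90 k95 k15 2 14)))))))) (.c k169 (.f k252 k254 0 (.q k86 [(.d k84 k168 k87 13 0), (.s
  k244 k7 12 (.s k240 k248 1 (.s k80 k160 11 (.d k90 k95 k15 2 14))))] (.c k168 (.q k171 [(.d k87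
  k84 k3 0 13), (.s k244 k7 12 (.s k240 k248 1 (.s k80 k160 11 (.d k90 k95 k15 2 14))))] .n) (.c
  k171 (.l (.s k168 k84 13 (.s k244 k7 12 (.s k240 k248 1 (.s k80 k160 11 (.d k90 k95 k15 2 14))))))
  .n)))) .n))) (.c k250 (.l (.s k5 k245 11 (.s k15 k10 2 (.s k90 k240 14 (.d k95 k80 k175 2 11)))))
  .n)))))))))))

def t6_92 : T TT 256 :=
  (.f k255 k170 14 (.q k106 [(.s k64 k127 6 (.s k192 k128 7 (.s k149 k63 14 (.d k213 k234 k21 6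
  7))))] (.c k21 (.q k1 [(.s k127 k64 6 (.s k63 k191 7 (.s k169 k253 13 (.s k43 k232 8 (.d k3 k2 k23
  0 5))))), (.s k3 k2 0 (.s k87 k171 13 (.s k86 k84 0 (.d k169 k253 k252 13 14)))), (.s k64 k127 6
  (.s k192 k128 7 (.s k213 k234 6 (.s k253 k169 13 (.s k193 k233 5 (.s k65 k129 7 (.d k195 k130 k194
  8 0))))))), (.s k3 k2 0 (.s k64 k127 6 (.s k192 k128 7 (.s k66 k129 8 (.s k86 k126 5 (.d k87 k84
  k171 0 13))))))] .n) (.c k63 (.q k1 [(.s k3 k2 0 (.s k87 k171 13 (.s k169 k253 13 (.d k86 k84 k252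
  0 14)))), (.s k64 k127 6 (.s k192 k128 7 (.s k213 k234 6 (.s k253 k169 13 (.s k193 k233 5 (.s k65
  k129 7 (.d k195 k130 k194 8 0))))))), (.s k3 k2 0 (.s k64 k127 6 (.s k192 k128 7 (.s k66 k129 8
  (.s k86 k126 5 (.d k87 k84 k171 0 13))))))] (.c k171 (.l (.s k3 k2 0 (.s k64 k127 6 (.s k169 k253
  13 (.s k86 k252 14 (.s k192 k128 7 (.d k66 k126 k129 5 8))))))) .n)) (.c k64 (.q k60 [(.s k20 k40
  5 (.s k125 k190 8 (.s k150 k215 8 (.d k105 k65 k195 5 14)))), (.s k20 k40 5 (.s k150 k215 8 (.s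
  k62 k194 13 (.s k63 k61 0 (.s k21 k42 6 (.d k149 k213 k192 7 14)))))), (.s k125 k190 8 (.s k105
  k65 5 (.s k104 k107 0 (.s k192 k148 13 (.s k149 k63 14 (.d k213 k234 k21 6 7))))))] (.c k105 (.q
  k86 [(.s k84 k87 0 (.s k252 k168 13 (.s k253 k254 0 (.d k169 k1 k3 13 14)))), (.s k126 k66 5 (.s
  k190 k125 8 (.s k62 k254 7 (.s k150 k194 13 (.d k20 k40 k215 5 8)))))] (.c k40 (.q k235 [(.s k84
  k87 0 (.s k252 k168 13 (.s k253 k254 0 (.d k169 k1 k3 13 14)))), (.s k126 k66 5 (.s k190 k125 8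
  (.s k62 k254 7 (.s k150 k194 13 (.d k215 k195 k20 5 8)))))] (.c k254 (.l (.s k87 k84 0 (.s k3 k171
  13 (.s k1 k2 0 (.d k169 k253 k252 13 14))))) .n)) (.c k235 (.l (.s k40 k20 5 (.s k84 k87 0 (.s
  k252 k168 13 (.s k169 k3 14 (.d k253 k254 k1 0 13)))))) (.c k254 (.l (.s k87 k84 0 (.s k3 k171 13
  (.s k1 k2 0 (.d k169 k253 k252 13 14))))) .n)))) (.c k150 (.q k149 [(.s k21 k213 7 (.d k63 k42
  k192 6 14)), (.s k63 k192 14 (.s k61 k62 0 (.s k105 k193 13 (.d k125 k190 k65 8 5))))] (.c k63 (.l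
  (.s k213 k21 7 (.s k192 k234 6 (.s k104 k148 13 (.s k105 k107 0 (.d k125 k65 k190 5 8)))))) (.c
  k130 (.l (.s k190 k125 8 (.s k21 k213 7 (.d k63 k42 k192 6 14)))) (.c k190 (.q k130 [(.s k21 k213
  7 (.d k63 k42 k192 6 14)), (.s k63 k192 14 (.s k61 k62 0 (.s k65 k195 8 (.d k105 k193 k125 13
  5))))] (.c k63 (.l (.s k65 k195 8 (.s k105 k125 5 (.s k213 k21 7 (.s k192 k234 6 (.d k104 k107
  k148 0 13)))))) (.c k192 (.l (.s k21 k213 7 (.s k63 k42 6 (.s k61 k62 0 (.s k65 k195 8 (.d k105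
  k193 k125 13 5)))))) .n))) (.c k192 (.l (.s k21 k213 7 (.s k63 k42 6 (.s k61 k62 0 (.s k105 k193
  13 (.d k125 k65 k190 5 8)))))) .n))))) .n))) (.c k127 (.q k195 [(.s k65 k130 8 (.s k215 k235 5 (.s
  k150 k20 8 (.d k105 k125 k60 5 14)))), (.s k65 k130 8 (.s k105 k125 5 (.s k107 k104 0 (.s k63 k151
  13 (.s k21 k42 6 (.d k149 k213 k192 7 14)))))), (.s k215 k235 5 (.s k150 k20 8 (.s k194 k62 13 (.s
  k192 k193 0 (.s k149 k63 14 (.d k213 k234 k21 6 7))))))] (.c k105 (.q k81 [(.s k243 k162 12 (.s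
  k247 k251 1 (.s k166 k4 12 (.d k89 k93 k12 1 14)))), (.s k65 k130 8 (.s k97 k113 3 (.s k48 k146 12
  (.s k32 k16 3 (.d k162 k227 k243 8 12)))))] (.c k40 (.l (.s k235 k215 5 (.s k89 k93 1 (.s k243
  k162 12 (.s k166 k12 14 (.d k247 k251 k4 1 12)))))) (.c k162 (.l (.s k65 k130 8 (.s k89 k93 1 (.s
  k97 k113 3 (.s k146 k48 12 (.s k211 k16 8 (.s k150 k28 10 (.d k215 k20 k235 8 5)))))))) (.c k235
  (.q k40 [(.s k65 k130 8 (.s k97 k113 3 (.s k48 k146 12 (.s k32 k16 3 (.d k162 k227 k243 8 12))))),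
  (.s k20 k60 5 (.s k150 k215 8 (.s k194 k62 13 (.s k192 k193 0 (.s k213 k234 6 (.d k149 k63 k21 14
  7))))))] (.c k150 (.l (.s k89 k93 1 (.s k243 k162 12 (.s k166 k12 14 (.d k247 k251 k4 1 12)))))
  .n)) (.c k243 (.l (.s k65 k130 8 (.s k93 k89 1 (.s k12 k174 12 (.s k8 k4 1 (.s k73 k134 10 (.s k69
  k77 1 (.d k138 k203 k207 8 10)))))))) .n))))) (.c k150 (.q k199 [(.s k207 k203 1 (.s k69 k138 10
  (.s k101 k117 3 (.s k154 k48 14 (.d k223 k239 k16 3 10))))), (.s k207 k203 1 (.s k215 k235 5 (.s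
  k223 k239 3 (.s k219 k211 1 (.d k231 k247 k243 3 5))))), (.s k207 k203 1 (.s k69 k138 10 (.s k4
  k134 8 (.s k215 k235 5 (.d k247 k166 k231 12 3))))), (.s k215 k235 5 (.s k247 k231 3 (.s k4 k166
  12 (.s k12 k8 1 (.d k134 k69 k73 8 10)))))] (.c k130 (.q k190 [(.s k207 k203 1 (.s k69 k138 10 (.s
  k101 k117 3 (.s k154 k48 14 (.d k223 k239 k16 3 10))))), (.s k207 k203 1 (.s k215 k235 5 (.s k223
  k239 3 (.s k219 k211 1 (.d k231 k247 k243 3 5))))), (.s k215 k235 5 (.s k247 k231 3 (.s k4 k166 12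
  (.s k12 k8 1 (.d k134 k69 k73 8 10))))), (.s k125 k60 8 (.s k65 k105 5 (.s k207 k203 1 (.s k69
  k138 10 (.s k73 k77 1 (.d k134 k4 k12 8 10))))))] .n) (.c k190 (.l (.s k130 k65 8 (.s k207 k203 1
  (.s k69 k138 10 (.s k4 k134 8 (.s k215 k235 5 (.d k247 k166 k231 12 3))))))) .n))) .n))) (.c k128
  (.l (.s k127 k64 6 (.s k63 k191 7 (.s k149 k192 14 (.d k21 k42 k213 6 7))))) (.c k149 (.f k64 k127
  6 (.q k80 [(.s k90 k95 2 (.s k74 k122 3 (.s k79 k69 2 (.d k112 k96 k101 3 6)))), (.s k240 k160 11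
  (.s k245 k250 2 (.s k165 k5 11 (.d k90 k95 k15 2 14)))), (.s k96 k112 3 (.s k160 k240 11 (.s k32
  k224 7 (.s k48 k16 3 (.d k192 k128 k144 7 11)))))] (.c k128 (.q k191 [(.s k90 k95 2 (.s k74 k122 3
  (.s k79 k69 2 (.d k112 k96 k101 3 6)))), (.s k240 k160 11 (.s k245 k250 2 (.s k165 k5 11 (.d k90
  k95 k15 2 14)))), (.s k96 k112 3 (.s k160 k240 11 (.s k32 k224 7 (.s k48 k16 3 (.s k117 k186 10
  (.d k101 k111 k69 2 3))))))] .n) (.c k191 (.l (.s k128 k192 7 (.s k90 k95 2 (.s k74 k122 3 (.s k79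
  k69 2 (.d k112 k96 k101 3 6)))))) .n)))) (.c k191 (.l (.s k64 k127 6 (.s k192 k128 7 (.s k149 k63
  14 (.d k213 k234 k21 6 7))))) (.c k192 (.q k1 [(.s k3 k2 0 (.s k87 k171 13 (.s k169 k253 13 (.d
  k86 k84 k252 0 14)))), (.s k127 k64 6 (.s k63 k191 7 (.s k21 k42 6 (.s k61 k41 5 (.s k253 k169 13
  (.s k125 k189 7 (.d k60 k190 k62 8 0))))))), (.s k3 k2 0 (.s k127 k64 6 (.s k63 k191 7 (.s k21 k42
  6 (.s k23 k43 5 (.s k22 k20 0 (.d k41 k61 k60 5 6)))))))] .n) (.c k213 (.q k1 [(.s k3 k2 0 (.s k87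
  k171 13 (.s k86 k84 0 (.d k169 k253 k252 13 14)))), (.s k64 k127 6 (.s k169 k253 13 (.s k192 k128
  7 (.s k149 k63 14 (.s k129 k189 5 (.s k66 k3 8 (.d k65 k193 k67 7 0))))))), (.s k3 k2 0 (.s k64
  k127 6 (.s k192 k128 7 (.s k66 k129 8 (.s k86 k126 5 (.d k87 k84 k171 0 13))))))] (.c k3 (.l (.s
  k127 k64 6 (.s k63 k191 7 (.s k21 k42 6 (.s k61 k41 5 (.s k60 k62 0 (.s k125 k190 8 (.d k253 k189
  k169 7 13)))))))) .n)) (.c k234 (.l (.s k127 k64 6 (.s k63 k191 7 (.s k21 k42 6 (.d k149 k213 k192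
  7 14))))) .n))))))))))))

def t6_94 : T TT 256 :=
  (.f k255 k170 14 (.q k106 [(.s k64 k127 6 (.s k192 k128 7 (.s k149 k63 14 (.d k213 k234 k21 6
  7))))] (.c k21 (.q k1 [(.s k3 k2 0 (.s k87 k171 13 (.s k86 k84 0 (.d k169 k253 k252 13 14)))), (.s
  k64 k127 6 (.s k169 k253 13 (.s k192 k128 7 (.s k149 k63 14 (.s k129 k189 5 (.s k65 k193 7 (.d k66
  k67 k3 0 8))))))), (.s k3 k2 0 (.s k64 k127 6 (.s k192 k128 7 (.s k66 k129 8 (.s k86 k126 5 (.d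
  k87 k84 k171 0 13))))))] (.c k3 (.l (.s k64 k127 6 (.s k192 k128 7 (.s k213 k234 6 (.s k253 k169
  13 (.s k193 k233 5 (.s k65 k129 7 (.d k195 k130 k194 8 0)))))))) .n)) (.c k63 (.q k1 [(.s k3 k2 0
  (.s k87 k171 13 (.s k86 k84 0 (.d k169 k253 k252 13 14)))), (.s k64 k127 6 (.s k192 k128 7 (.s
  k213 k234 6 (.s k253 k169 13 (.s k193 k233 5 (.s k65 k129 7 (.d k195 k130 k194 8 0))))))), (.s k3
  k2 0 (.s k64 k127 6 (.s k192 k128 7 (.s k66 k129 8 (.s k86 k126 5 (.d k87 k84 k171 0 13))))))] (.c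
  k171 (.l (.s k3 k2 0 (.s k64 k127 6 (.s k169 k253 13 (.s k86 k252 14 (.s k192 k128 7 (.d k66 k126
  k129 5 8))))))) .n)) (.c k64 (.q k207 [(.s k69 k138 10 (.s k101 k117 3 (.s k154 k48 14 (.d k223
  k239 k16 3 10)))), (.s k69 k138 10 (.s k101 k117 3 (.s k111 k96 2 (.s k63 k159 11 (.s k21 k42 6
  (.d k149 k213 k192 7 14)))))), (.s k223 k239 3 (.s k154 k16 10 (.s k202 k58 11 (.s k192 k197 2 (.s
  k149 k63 14 (.d k213 k234 k21 6 7))))))] (.c k101 (.q k81 [(.s k89 k93 1 (.s k243 k162 12 (.s k247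
  k251 1 (.d k166 k4 k12 12 14)))), (.s k239 k223 3 (.s k243 k162 12 (.s k231 k219 5 (.s k235 k227 1
  (.s k215 k195 5 (.d k247 k251 k199 1 3)))))), (.s k89 k93 1 (.s k243 k162 12 (.s k219 k231 5 (.s
  k154 k24 8 (.d k223 k239 k16 3 10)))))] (.c k32 (.l (.s k239 k223 3 (.s k89 k93 1 (.s k243 k162 12
  (.s k166 k12 14 (.d k247 k251 k4 1 12)))))) (.c k162 (.l (.s k93 k89 1 (.s k174 k12 12 (.s k239
  k223 3 (.s k109 k44 8 (.s k60 k158 12 (.d k125 k77 k190 3 8))))))) (.c k166 (.l (.s k69 k138 10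
  (.s k93 k89 1 (.s k12 k174 12 (.s k162 k243 12 (.s k77 k142 8 (.s k65 k73 1 (.d k125 k105 k109 5
  3)))))))) (.c k174 (.l (.s k89 k93 1 (.s k243 k162 12 (.s k166 k12 14 (.d k247 k251 k4 1 12)))))
  (.c k239 (.q k32 [(.s k89 k93 1 (.s k243 k162 12 (.s k247 k251 1 (.d k166 k4 k12 12 14)))), (.s
  k16 k48 3 (.s k211 k146 8 (.s k223 k154 10 (.s k219 k215 1 (.d k243 k231 k162 5 12))))), (.s k16
  k48 3 (.s k89 k93 1 (.s k154 k223 10 (.s k24 k219 8 (.s k28 k20 1 (.d k211 k146 k150 8 10))))))]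
  .n) (.c k243 (.l (.s k69 k138 10 (.s k93 k89 1 (.s k12 k174 12 (.s k77 k142 8 (.s k65 k73 1 (.d
  k125 k105 k109 5 3))))))) .n))))))) (.c k154 (.q k81 [(.s k89 k93 1 (.s k243 k162 12 (.s k247 k251
  1 (.d k166 k4 k12 12 14)))), (.s k93 k89 1 (.s k223 k239 3 (.s k158 k28 8 (.s k60 k109 12 (.s k190
  k125 8 (.d k174 k142 k12 3 12)))))), (.s k223 k239 3 (.s k243 k162 12 (.s k219 k231 5 (.s k215
  k211 1 (.s k235 k195 5 (.d k251 k247 k203 1 3))))))] (.c k138 (.q k186 [(.s k89 k93 1 (.s k243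
  k162 12 (.s k247 k251 1 (.d k166 k4 k12 12 14)))), (.s k48 k117 10 (.s k16 k32 3 (.s k146 k211 8
  (.s k97 k195 12 (.s k113 k65 3 (.d k243 k178 k162 8 12)))))), (.s k89 k93 1 (.s k117 k48 10 (.s
  k101 k69 3 (.s k113 k77 5 (.s k65 k97 3 (.d k125 k121 k105 1 5))))))] .n) (.c k174 (.l (.s k89 k93
  1 (.s k243 k162 12 (.s k166 k12 14 (.d k247 k251 k4 1 12))))) (.c k186 (.l (.s k138 k69 10 (.s k89
  k93 1 (.s k243 k162 12 (.s k166 k12 14 (.d k247 k251 k4 1 12)))))) (.c k251 (.l (.s k89 k93 1 (.s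
  k123 k72 4 (.s k243 k162 12 (.s k63 k183 9 (.s k21 k42 6 (.d k149 k213 k192 7 14))))))) .n)))))
  .n))) (.c k127 (.q k195 [(.s k65 k130 8 (.s k215 k235 5 (.s k150 k20 8 (.d k105 k125 k60 5 14)))),
  (.s k65 k130 8 (.s k105 k125 5 (.s k107 k104 0 (.s k63 k151 13 (.s k21 k42 6 (.d k149 k213 k192 7
  14)))))), (.s k215 k235 5 (.s k150 k20 8 (.s k194 k62 13 (.s k192 k193 0 (.s k149 k63 14 (.d k213
  k234 k21 6 7))))))] (.c k105 (.q k81 [(.s k243 k162 12 (.s k247 k251 1 (.s k166 k4 12 (.d k89 k93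
  k12 1 14)))), (.s k65 k130 8 (.s k97 k113 3 (.s k48 k146 12 (.s k32 k16 3 (.d k162 k227 k243 8
  12)))))] (.c k40 (.l (.s k235 k215 5 (.s k89 k93 1 (.s k243 k162 12 (.s k166 k12 14 (.d k247 k251
  k4 1 12)))))) (.c k162 (.l (.s k65 k130 8 (.s k89 k93 1 (.s k97 k113 3 (.s k146 k48 12 (.s k211
  k16 8 (.s k150 k28 10 (.d k215 k20 k235 8 5)))))))) (.c k235 (.q k40 [(.s k65 k130 8 (.s k97 k113
  3 (.s k48 k146 12 (.s k32 k16 3 (.d k162 k227 k243 8 12))))), (.s k20 k60 5 (.s k150 k215 8 (.s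
  k194 k62 13 (.s k192 k193 0 (.s k213 k234 6 (.d k149 k63 k21 14 7))))))] (.c k150 (.l (.s k89 k93
  1 (.s k243 k162 12 (.s k166 k12 14 (.d k247 k251 k4 1 12))))) .n)) (.c k243 (.l (.s k65 k130 8 (.s
  k93 k89 1 (.s k12 k174 12 (.s k8 k4 1 (.s k73 k134 10 (.s k69 k77 1 (.d k138 k203 k207 8
  10)))))))) .n))))) (.c k150 (.q k199 [(.s k207 k203 1 (.s k69 k138 10 (.s k101 k117 3 (.s k154 k48
  14 (.d k223 k239 k16 3 10))))), (.s k207 k203 1 (.s k215 k235 5 (.s k223 k239 3 (.s k219 k211 1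
  (.d k231 k247 k243 3 5))))), (.s k207 k203 1 (.s k69 k138 10 (.s k4 k134 8 (.s k215 k235 5 (.d
  k247 k166 k231 12 3))))), (.s k215 k235 5 (.s k247 k231 3 (.s k4 k166 12 (.s k12 k8 1 (.d k134 k69
  k73 8 10)))))] (.c k130 (.q k190 [(.s k207 k203 1 (.s k69 k138 10 (.s k101 k117 3 (.s k154 k48 14
  (.d k223 k239 k16 3 10))))), (.s k207 k203 1 (.s k215 k235 5 (.s k223 k239 3 (.s k219 k211 1 (.d
  k231 k247 k243 3 5))))), (.s k215 k235 5 (.s k247 k231 3 (.s k4 k166 12 (.s k12 k8 1 (.d k134 k69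
  k73 8 10))))), (.s k125 k60 8 (.s k65 k105 5 (.s k207 k203 1 (.s k69 k138 10 (.s k73 k77 1 (.d
  k134 k4 k12 8 10))))))] .n) (.c k190 (.l (.s k130 k65 8 (.s k207 k203 1 (.s k69 k138 10 (.s k4
  k134 8 (.s k215 k235 5 (.d k247 k166 k231 12 3))))))) .n))) .n))) (.c k128 (.l (.s k127 k64 6 (.s
  k63 k191 7 (.s k149 k192 14 (.d k21 k42 k213 6 7))))) (.c k149 (.f k64 k127 6 (.q k101 [(.s k69
  k117 3 (.s k79 k74 2 (.s k96 k111 2 (.d k112 k80 k90 3 6)))), (.s k69 k117 3 (.s k207 k138 10 (.s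
  k154 k48 14 (.d k223 k239 k16 3 10)))), (.s k96 k111 2 (.s k117 k69 3 (.s k48 k186 10 (.d k192
  k128 k144 7 11))))] (.c k69 (.l (.s k96 k111 2 (.s k80 k112 3 (.s k160 k240 11 (.s k32 k224 7 (.s
  k48 k16 3 (.d k192 k128 k144 7 11))))))) (.c k117 (.l (.s k96 k111 2 (.s k112 k80 3 (.s k79 k90 6
  (.s k69 k74 2 (.s k207 k138 10 (.s k154 k48 14 (.d k223 k239 k16 3 10)))))))) (.c k128 (.q k191
  [(.s k69 k117 3 (.s k79 k74 2 (.s k96 k111 2 (.d k112 k80 k90 3 6)))), (.s k117 k69 3 (.s k48 k186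
  10 (.s k16 k32 3 (.d k154 k223 k207 10 14))))] (.c k69 (.l (.s k96 k111 2 (.s k80 k112 3 (.s k240
  k160 11 (.s k245 k250 2 (.s k165 k5 11 (.d k90 k95 k15 2 14))))))) (.c k117 (.l (.s k96 k111 2 (.s
  k112 k80 3 (.s k79 k90 6 (.s k69 k74 2 (.s k207 k138 10 (.s k154 k48 14 (.d k223 k239 k16 3
  10)))))))) .n))) (.c k191 (.l (.s k128 k192 7 (.s k69 k117 3 (.s k79 k74 2 (.s k96 k111 2 (.d k112
  k80 k90 3 6)))))) .n)))))) (.c k191 (.l (.s k64 k127 6 (.s k192 k128 7 (.s k149 k63 14 (.d k213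
  k234 k21 6 7))))) (.c k192 (.q k1 [(.s k3 k2 0 (.s k87 k171 13 (.s k86 k84 0 (.d k169 k253 k252 13
  14)))), (.s k127 k64 6 (.s k63 k191 7 (.s k21 k42 6 (.s k61 k41 5 (.s k253 k169 13 (.s k125 k189 7
  (.d k60 k190 k62 8 0))))))), (.s k3 k2 0 (.s k127 k64 6 (.s k63 k191 7 (.s k21 k42 6 (.s k23 k43 5
  (.s k22 k20 0 (.d k41 k61 k60 5 6)))))))] .n) (.c k213 (.q k1 [(.s k3 k2 0 (.s k87 k171 13 (.s k86
  k84 0 (.d k169 k253 k252 13 14)))), (.s k64 k127 6 (.s k169 k253 13 (.s k192 k128 7 (.s k149 k63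
  14 (.s k129 k189 5 (.s k66 k3 8 (.d k65 k193 k67 7 0))))))), (.s k3 k2 0 (.s k64 k127 6 (.s k192
  k128 7 (.s k66 k129 8 (.s k86 k126 5 (.d k87 k84 k171 0 13))))))] (.c k3 (.l (.s k127 k64 6 (.s
  k63 k191 7 (.s k21 k42 6 (.s k61 k41 5 (.s k60 k62 0 (.s k125 k190 8 (.d k253 k189 k169 7
  13)))))))) .n)) (.c k234 (.l (.s k127 k64 6 (.s k63 k191 7 (.s k21 k42 6 (.d k149 k213 k192 7
  14))))) .n))))))))))))

def t6_95 : T TT 256 :=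
  (.f k255 k170 14 (.q k105 [(.s k65 k125 5 (.s k195 k130 8 (.s k150 k60 14 (.d k215 k235 k20 5
  8))))] (.c k20 (.q k1 [(.s k169 k253 13 (.s k3 k2 0 (.s k86 k252 14 (.d k87 k84 k171 0 13)))), (.s
  k65 k125 5 (.s k169 k253 13 (.s k41 k233 7 (.s k61 k21 5 (.d k193 k129 k149 7 13))))), (.s k3 k2 0
  (.s k65 k125 5 (.s k129 k193 7 (.s k66 k192 8 (.s k67 k64 0 (.d k195 k131 k130 7 8))))))] .n) (.c
  k60 (.q k1 [(.s k3 k2 0 (.s k87 k171 13 (.s k86 k84 0 (.d k169 k253 k252 13 14)))), (.s k65 k125 5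
  (.s k169 k253 13 (.s k41 k233 7 (.s k61 k21 5 (.d k193 k129 k149 7 13))))), (.s k3 k2 0 (.s k65
  k125 5 (.s k129 k193 7 (.s k66 k192 8 (.s k67 k64 0 (.d k195 k131 k130 7 8))))))] .n) (.c k65 (.q
  k64 [(.s k192 k128 7 (.s k213 k234 6 (.s k149 k21 7 (.d k106 k127 k63 6 14)))), (.s k106 k127 6
  (.s k104 k107 0 (.s k84 k124 5 (.s k252 k168 13 (.s k253 k254 0 (.s k169 k1 13 (.d k86 k87 k3 0
  14)))))))] (.c k106 (.f k192 k128 7 (.q k149 [(.d k213 k234 k21 6 7), (.s k193 k61 13 (.s k195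
  k194 0 (.s k150 k60 14 (.d k215 k235 k20 5 8))))] (.c k42 (.l (.s k234 k213 6 (.s k193 k61 13 (.s
  k195 k194 0 (.s k150 k60 14 (.d k215 k235 k20 5 8)))))) (.c k234 (.q k42 [(.d k21 k63 k213 6 7),
  (.s k193 k61 13 (.s k195 k194 0 (.s k215 k235 5 (.d k150 k20 k60 8 14))))] .n) .n)))) (.c k127 (.l
  (.s k192 k128 7 (.s k213 k234 6 (.s k149 k21 7 (.s k193 k61 13 (.s k195 k194 0 (.s k150 k60 14 (.d
  k215 k235 k20 5 8)))))))) .n))) (.c k125 (.q k253 [(.s k169 k1 13 (.s k252 k254 0 (.s k84 k168 13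
  (.d k86 k87 k3 0 14)))), (.s k169 k1 13 (.s k233 k41 7 (.s k213 k193 5 (.s k192 k234 6 (.s k64
  k128 7 (.s k106 k127 6 (.d k149 k21 k63 7 14)))))))] (.c k1 (.l (.s k252 k254 0 (.s k84 k168 13
  (.s k86 k87 0 (.s k124 k67 6 (.s k60 k188 7 (.s k20 k40 5 (.d k150 k215 k195 8 14)))))))) (.c k169
  (.f k252 k254 0 (.q k86 [(.d k84 k168 k87 13 0), (.s k124 k67 6 (.s k60 k188 7 (.s k20 k40 5 (.d
  k150 k215 k195 8 14))))] (.c k168 (.q k171 [(.d k87 k84 k3 0 13), (.s k124 k67 6 (.s k60 k188 7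
  (.s k20 k40 5 (.d k150 k215 k195 8 14))))] .n) (.c k171 (.l (.s k168 k84 13 (.s k124 k67 6 (.s k60
  k188 7 (.s k20 k40 5 (.d k150 k215 k195 8 14)))))) .n)))) .n))) (.c k130 (.l (.s k125 k65 5 (.s
  k60 k190 8 (.s k150 k195 14 (.d k20 k40 k215 5 8))))) (.c k150 (.f k65 k125 5 (.q k193 [(.s k1
  k129 7 (.s k149 k61 13 (.s k213 k21 7 (.d k253 k233 k169 5 13)))), (.s k1 k129 7 (.s k3 k2 0 (.s
  k87 k171 13 (.s k86 k84 0 (.s k67 k124 6 (.d k195 k130 k131 8 7)))))), (.s k149 k61 13 (.s k21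
  k213 7 (.s k63 k42 6 (.s k106 k192 14 (.d k127 k64 k191 6 7)))))] (.c k130 (.q k190 [(.s k149 k61
  13 (.s k213 k21 7 (.s k253 k233 5 (.d k1 k129 k169 7 13)))), (.s k1 k129 7 (.s k3 k2 0 (.s k87
  k171 13 (.s k86 k84 0 (.d k169 k253 k252 13 14))))), (.s k149 k61 13 (.s k21 k213 7 (.s k63 k42 6
  (.s k106 k192 14 (.d k127 k64 k191 6 7)))))] (.c k253 (.l (.s k129 k1 7 (.s k149 k61 13 (.s k189
  k169 5 (.s k21 k213 7 (.s k63 k42 6 (.d k191 k188 k127 0 7))))))) .n)) (.c k190 (.l (.s k130 k195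
  8 (.s k1 k129 7 (.s k61 k149 13 (.s k41 k21 5 (.d k169 k233 k253 7 13)))))) .n)))) (.c k190 (.l
  (.s k65 k125 5 (.s k195 k130 8 (.s k150 k60 14 (.d k215 k235 k20 5 8))))) (.c k195 (.q k1 [(.s k3
  k2 0 (.s k87 k171 13 (.s k86 k84 0 (.d k169 k253 k252 13 14)))), (.s k65 k125 5 (.s k169 k253 13
  (.s k41 k233 7 (.s k61 k21 5 (.d k193 k129 k149 7 13))))), (.s k3 k2 0 (.s k125 k65 5 (.s k60 k190
  8 (.s k40 k20 5 (.s k41 k22 6 (.s k21 k61 5 (.d k42 k43 k63 0 6)))))))] .n) (.c k215 (.q k1 [(.s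
  k169 k253 13 (.s k3 k2 0 (.s k86 k252 14 (.d k87 k84 k171 0 13)))), (.s k65 k125 5 (.s k169 k253
  13 (.s k41 k233 7 (.s k61 k21 5 (.d k193 k129 k149 7 13))))), (.s k3 k2 0 (.s k65 k125 5 (.s k129
  k193 7 (.s k66 k192 8 (.s k67 k64 0 (.d k195 k131 k130 7 8))))))] .n) (.c k235 (.l (.s k125 k65 5
  (.s k60 k190 8 (.s k20 k40 5 (.d k150 k215 k195 8 14))))) .n))))))))))))

def t6_96 : T TT 256 :=
  (.f k255 k170 14 (.q k105 [(.s k65 k125 5 (.s k195 k130 8 (.s k150 k60 14 (.d k215 k235 k20 5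
  8))))] (.c k20 (.q k1 [(.s k169 k253 13 (.s k3 k2 0 (.s k86 k252 14 (.d k87 k84 k171 0 13)))), (.s
  k65 k125 5 (.s k169 k253 13 (.s k41 k233 7 (.s k61 k21 5 (.d k193 k129 k149 7 13))))), (.s k3 k2 0
  (.s k65 k125 5 (.s k129 k193 7 (.s k66 k192 8 (.s k67 k64 0 (.d k195 k131 k130 7 8))))))] .n) (.c
  k60 (.q k1 [(.s k3 k2 0 (.s k87 k171 13 (.s k86 k84 0 (.d k169 k253 k252 13 14)))), (.s k65 k125 5
  (.s k169 k253 13 (.s k41 k233 7 (.s k61 k21 5 (.d k193 k129 k149 7 13))))), (.s k3 k2 0 (.s k65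
  k125 5 (.s k129 k193 7 (.s k66 k192 8 (.s k67 k64 0 (.d k195 k131 k130 7 8))))))] .n) (.c k65 (.q
  k21 [(.s k63 k42 6 (.s k127 k191 7 (.s k149 k213 7 (.d k106 k64 k192 6 14)))), (.s k149 k213 7 (.s
  k61 k193 13 (.s k1 k41 5 (.s k3 k2 0 (.s k87 k171 13 (.s k86 k84 0 (.d k169 k253 k252 13
  14)))))))] (.c k149 (.f k63 k42 6 (.q k106 [(.d k127 k191 k64 7 6), (.s k107 k104 0 (.s k195 k151
  13 (.s k150 k60 14 (.d k215 k235 k20 5 8))))] (.c k128 (.l (.s k191 k127 7 (.s k107 k104 0 (.s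
  k195 k151 13 (.s k150 k60 14 (.d k215 k235 k20 5 8)))))) (.c k191 (.q k128 [(.d k64 k127 k192 6
  7), (.s k107 k104 0 (.s k195 k151 13 (.s k215 k235 5 (.d k150 k20 k60 8 14))))] .n) .n)))) (.c
  k213 (.l (.s k63 k42 6 (.s k127 k191 7 (.s k106 k64 6 (.s k107 k104 0 (.s k195 k151 13 (.s k150
  k60 14 (.d k215 k235 k20 5 8)))))))) .n))) (.c k125 (.q k253 [(.s k169 k1 13 (.s k252 k254 0 (.s
  k84 k168 13 (.d k86 k87 k3 0 14)))), (.s k169 k1 13 (.s k233 k41 7 (.s k213 k193 5 (.s k192 k234 6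
  (.s k64 k128 7 (.s k106 k127 6 (.d k149 k21 k63 7 14)))))))] (.c k1 (.l (.s k252 k254 0 (.s k84
  k168 13 (.s k86 k87 0 (.s k124 k67 6 (.s k60 k188 7 (.s k20 k40 5 (.d k150 k215 k195 8 14))))))))
  (.c k169 (.f k252 k254 0 (.q k86 [(.d k84 k168 k87 13 0), (.s k124 k67 6 (.s k60 k188 7 (.s k20
  k40 5 (.d k150 k215 k195 8 14))))] (.c k168 (.q k171 [(.d k87 k84 k3 0 13), (.s k124 k67 6 (.s k60
  k188 7 (.s k20 k40 5 (.d k150 k215 k195 8 14))))] .n) (.c k171 (.l (.s k168 k84 13 (.s k124 k67 6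
  (.s k60 k188 7 (.s k20 k40 5 (.d k150 k215 k195 8 14)))))) .n)))) .n))) (.c k130 (.l (.s k125 k65
  5 (.s k60 k190 8 (.s k150 k195 14 (.d k20 k40 k215 5 8))))) (.c k150 (.f k125 k65 5 (.q k127 [(.s
  k63 k191 7 (.s k21 k42 6 (.s k149 k213 7 (.d k106 k64 k192 6 14)))), (.s k106 k64 6 (.s k107 k104
  0 (.s k67 k87 5 (.d k124 k126 k86 0 6)))), (.s k63 k191 7 (.s k126 k124 0 (.s k189 k252 8 (.s k61
  k253 7 (.d k60 k190 k62 8 0)))))] (.c k130 (.l (.s k190 k60 8 (.s k63 k191 7 (.s k21 k42 6 (.s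
  k106 k64 6 (.d k149 k213 k192 7 14)))))) (.c k190 (.q k130 [(.s k63 k191 7 (.s k21 k42 6 (.s k149
  k213 7 (.d k106 k64 k192 6 14)))), (.s k106 k64 6 (.s k107 k104 0 (.s k67 k87 5 (.d k124 k126 k86
  0 6)))), (.s k63 k191 7 (.s k126 k124 0 (.s k189 k252 8 (.s k61 k253 7 (.s k149 k193 13 (.d k21
  k213 k42 7 6))))))] .n) .n)))) (.c k190 (.l (.s k65 k125 5 (.s k195 k130 8 (.s k150 k60 14 (.d
  k215 k235 k20 5 8))))) (.c k195 (.q k1 [(.s k3 k2 0 (.s k87 k171 13 (.s k86 k84 0 (.d k169 k253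
  k252 13 14)))), (.s k65 k125 5 (.s k169 k253 13 (.s k41 k233 7 (.s k61 k21 5 (.d k193 k129 k149 7
  13))))), (.s k3 k2 0 (.s k125 k65 5 (.s k60 k190 8 (.s k40 k20 5 (.s k41 k22 6 (.s k21 k61 5 (.d
  k42 k43 k63 0 6)))))))] .n) (.c k215 (.q k1 [(.s k169 k253 13 (.s k3 k2 0 (.s k86 k252 14 (.d k87
  k84 k171 0 13)))), (.s k65 k125 5 (.s k169 k253 13 (.s k41 k233 7 (.s k61 k21 5 (.d k193 k129 k149
  7 13))))), (.s k3 k2 0 (.s k65 k125 5 (.s k129 k193 7 (.s k66 k192 8 (.s k67 k64 0 (.d k195 k131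
  k130 7 8))))))] .n) (.c k235 (.l (.s k125 k65 5 (.s k60 k190 8 (.s k20 k40 5 (.d k150 k215 k195 8
  14))))) .n))))))))))))

def t6_97 : T TT 256 :=
  (.f k255 k170 14 (.q k106 [(.s k64 k127 6 (.s k192 k128 7 (.s k149 k63 14 (.d k213 k234 k21 6
  7))))] (.c k21 (.q k1 [(.s k169 k253 13 (.s k3 k2 0 (.s k86 k252 14 (.d k87 k84 k171 0 13)))), (.s
  k64 k127 6 (.s k192 k128 7 (.s k213 k234 6 (.s k253 k169 13 (.s k193 k233 5 (.s k65 k129 7 (.d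
  k195 k130 k194 8 0))))))), (.s k3 k2 0 (.s k64 k127 6 (.s k192 k128 7 (.s k66 k129 8 (.s k86 k126
  5 (.d k87 k84 k171 0 13))))))] (.c k171 (.l (.s k3 k2 0 (.s k127 k64 6 (.s k63 k191 7 (.s k43 k23
  5 (.d k169 k232 k253 8 13)))))) .n)) (.c k63 (.q k1 [(.s k3 k2 0 (.s k87 k171 13 (.s k86 k84 0 (.d
  k169 k253 k252 13 14)))), (.s k64 k127 6 (.s k192 k128 7 (.s k213 k234 6 (.s k253 k169 13 (.s k193
  k233 5 (.s k65 k129 7 (.d k195 k130 k194 8 0))))))), (.s k3 k2 0 (.s k64 k127 6 (.s k192 k128 7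
  (.s k66 k129 8 (.s k86 k126 5 (.d k87 k84 k171 0 13))))))] (.c k171 (.l (.s k3 k2 0 (.s k64 k127 6
  (.s k169 k253 13 (.s k86 k252 14 (.s k192 k128 7 (.d k66 k126 k129 5 8))))))) .n)) (.c k64 (.q k60
  [(.s k20 k40 5 (.s k125 k190 8 (.s k150 k215 8 (.d k105 k65 k195 5 14)))), (.s k20 k40 5 (.s k150
  k215 8 (.s k62 k194 13 (.s k63 k61 0 (.s k21 k42 6 (.d k149 k213 k192 7 14)))))), (.s k125 k190 8
  (.s k105 k65 5 (.s k104 k107 0 (.s k192 k148 13 (.s k149 k63 14 (.d k213 k234 k21 6 7))))))] (.c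
  k105 (.f k40 k20 5 (.q k207 [(.s k69 k138 10 (.s k101 k117 3 (.s k223 k239 3 (.d k154 k16 k48 10
  14)))), (.s k109 k158 12 (.s k125 k190 8 (.s k93 k77 3 (.s k174 k12 12 (.d k239 k223 k44 3 8))))),
  (.s k69 k138 10 (.s k101 k117 3 (.s k111 k96 2 (.s k63 k159 11 (.s k21 k42 6 (.d k149 k213 k192 7
  14))))))] (.c k101 (.l (.s k109 k158 12 (.s k125 k190 8 (.s k93 k77 3 (.s k174 k12 12 (.d k239
  k223 k44 3 8)))))) (.c k109 (.q k101 [(.d k69 k117 k138 3 10), (.s k154 k48 14 (.d k223 k239 k16 3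
  10))] .n) .n)))) (.c k150 (.q k149 [(.s k21 k213 7 (.d k63 k42 k192 6 14)), (.s k63 k192 14 (.s
  k61 k62 0 (.s k105 k193 13 (.d k125 k190 k65 8 5))))] (.c k63 (.l (.s k213 k21 7 (.s k192 k234 6
  (.s k104 k148 13 (.s k105 k107 0 (.d k125 k65 k190 5 8)))))) (.c k130 (.l (.s k190 k125 8 (.s k21
  k213 7 (.d k63 k42 k192 6 14)))) (.c k190 (.q k130 [(.s k21 k213 7 (.d k63 k42 k192 6 14)), (.s
  k63 k192 14 (.s k61 k62 0 (.s k65 k195 8 (.d k105 k193 k125 13 5))))] (.c k63 (.l (.s k65 k195 8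
  (.s k105 k125 5 (.s k213 k21 7 (.s k192 k234 6 (.d k104 k107 k148 0 13)))))) (.c k192 (.l (.s k21
  k213 7 (.s k63 k42 6 (.s k61 k62 0 (.s k65 k195 8 (.d k105 k193 k125 13 5)))))) .n))) (.c k192 (.l
  (.s k21 k213 7 (.s k63 k42 6 (.s k61 k62 0 (.s k105 k193 13 (.d k125 k65 k190 5 8)))))) .n)))))
  .n))) (.c k127 (.q k60 [(.s k20 k40 5 (.s k125 k190 8 (.s k150 k215 8 (.d k105 k65 k195 5 14)))),
  (.s k20 k40 5 (.s k150 k215 8 (.s k62 k194 13 (.s k63 k61 0 (.s k21 k42 6 (.d k149 k213 k192 7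
  14)))))), (.s k125 k190 8 (.s k105 k65 5 (.s k104 k107 0 (.s k192 k148 13 (.s k149 k63 14 (.d k213
  k234 k21 6 7))))))] (.c k105 (.f k40 k20 5 (.q k109 [(.s k125 k190 8 (.s k93 k77 3 (.s k158 k207
  12 (.s k28 k223 8 (.d k12 k44 k174 3 12))))), (.s k207 k158 12 (.s k69 k138 10 (.s k101 k117 3 (.s
  k154 k48 14 (.d k223 k239 k16 3 10))))), (.s k125 k190 8 (.s k93 k77 3 (.s k12 k174 12 (.s k4 k8 1
  (.s k89 k81 1 (.d k166 k247 k243 12 14))))))] (.c k158 (.q k1 [(.s k169 k253 13 (.s k43 k232 8 (.s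
  k41 k42 0 (.d k3 k2 k22 0 6)))), (.s k125 k190 8 (.s k253 k169 13 (.s k61 k189 7 (.s k63 k62 0 (.d
  k21 k41 k42 5 6))))), (.s k3 k2 0 (.s k41 k22 6 (.s k21 k61 5 (.d k42 k43 k63 0 6)))), (.s k3 k2 0
  (.s k87 k171 13 (.s k86 k84 0 (.d k169 k253 k252 13 14))))] .n) .n))) (.c k150 (.q k149 [(.s k21
  k213 7 (.d k63 k42 k192 6 14)), (.s k63 k192 14 (.s k61 k62 0 (.s k105 k193 13 (.d k125 k190 k65 8
  5))))] (.c k63 (.l (.s k213 k21 7 (.s k192 k234 6 (.s k104 k148 13 (.s k105 k107 0 (.d k125 k65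
  k190 5 8)))))) (.c k130 (.l (.s k190 k125 8 (.s k21 k213 7 (.d k63 k42 k192 6 14)))) (.c k190 (.q
  k130 [(.s k21 k213 7 (.d k63 k42 k192 6 14)), (.s k63 k192 14 (.s k61 k62 0 (.s k65 k195 8 (.d
  k105 k193 k125 13 5))))] (.c k63 (.l (.s k65 k195 8 (.s k105 k125 5 (.s k213 k21 7 (.s k192 k234 6
  (.d k104 k107 k148 0 13)))))) (.c k192 (.l (.s k21 k213 7 (.s k63 k42 6 (.s k61 k62 0 (.s k65 k195
  8 (.d k105 k193 k125 13 5)))))) .n))) (.c k192 (.l (.s k21 k213 7 (.s k63 k42 6 (.s k61 k62 0 (.s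
  k105 k193 13 (.d k125 k65 k190 5 8)))))) .n))))) .n))) (.c k128 (.l (.s k127 k64 6 (.s k63 k191 7
  (.s k149 k192 14 (.d k21 k42 k213 6 7))))) (.c k149 (.f k64 k127 6 (.f k128 k192 7 (.q k65 [(.s
  k105 k125 5 (.s k104 k107 0 (.s k124 k84 5 (.d k67 k66 k86 0 6)))), (.s k195 k130 8 (.s k215 k235
  5 (.s k150 k20 8 (.d k105 k125 k60 5 14)))), (.s k67 k66 0 (.s k195 k130 8 (.s k3 k131 7 (.s k87
  k171 13 (.s k86 k84 0 (.s k169 k252 14 (.d k1 k2 k253 0 13)))))))] .n))) (.c k191 (.l (.s k64 k127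
  6 (.s k192 k128 7 (.s k149 k63 14 (.d k213 k234 k21 6 7))))) (.c k192 (.q k1 [(.s k3 k2 0 (.s k87
  k171 13 (.s k86 k84 0 (.d k169 k253 k252 13 14)))), (.s k127 k64 6 (.s k63 k191 7 (.s k21 k42 6
  (.s k61 k41 5 (.s k253 k169 13 (.s k125 k189 7 (.d k60 k190 k62 8 0))))))), (.s k3 k2 0 (.s k127
  k64 6 (.s k63 k191 7 (.s k21 k42 6 (.s k23 k43 5 (.s k22 k20 0 (.d k41 k61 k60 5 6)))))))] .n) (.c
  k213 (.q k1 [(.s k3 k2 0 (.s k87 k171 13 (.s k86 k84 0 (.d k169 k253 k252 13 14)))), (.s k64 k127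
  6 (.s k169 k253 13 (.s k192 k128 7 (.s k149 k63 14 (.s k129 k189 5 (.s k66 k3 8 (.d k65 k193 k67 7
  0))))))), (.s k3 k2 0 (.s k64 k127 6 (.s k192 k128 7 (.s k66 k129 8 (.s k86 k126 5 (.d k87 k84
  k171 0 13))))))] (.c k3 (.l (.s k127 k64 6 (.s k63 k191 7 (.s k21 k42 6 (.s k61 k41 5 (.s k60 k62
  0 (.s k125 k190 8 (.d k253 k189 k169 7 13)))))))) .n)) (.c k234 (.l (.s k127 k64 6 (.s k63 k191 7
  (.s k21 k42 6 (.d k149 k213 k192 7 14))))) .n))))))))))))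

def t6_98 : T TT 256 :=
  (.f k255 k170 14 (.q k105 [(.s k65 k125 5 (.s k195 k130 8 (.s k150 k60 14 (.d k215 k235 k20 5
  8))))] (.c k20 (.q k1 [(.s k169 k253 13 (.s k3 k2 0 (.s k86 k252 14 (.d k87 k84 k171 0 13)))), (.s
  k65 k125 5 (.s k169 k253 13 (.s k41 k233 7 (.s k61 k21 5 (.d k193 k129 k149 7 13))))), (.s k3 k2 0
  (.s k65 k125 5 (.s k129 k193 7 (.s k66 k192 8 (.s k67 k64 0 (.d k195 k131 k130 7 8))))))] .n) (.c
  k60 (.q k1 [(.s k3 k2 0 (.s k87 k171 13 (.s k86 k84 0 (.d k169 k253 k252 13 14)))), (.s k65 k125 5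
  (.s k169 k253 13 (.s k41 k233 7 (.s k61 k21 5 (.d k193 k129 k149 7 13))))), (.s k3 k2 0 (.s k65
  k125 5 (.s k129 k193 7 (.s k66 k192 8 (.s k67 k64 0 (.d k195 k131 k130 7 8))))))] .n) (.c k65 (.q
  k21 [(.s k63 k42 6 (.s k127 k191 7 (.s k149 k213 7 (.d k106 k64 k192 6 14)))), (.s k149 k213 7 (.s
  k61 k193 13 (.s k1 k41 5 (.s k3 k2 0 (.s k87 k171 13 (.s k86 k84 0 (.d k169 k253 k252 13
  14)))))))] (.c k149 (.f k63 k42 6 (.q k106 [(.d k127 k191 k64 7 6), (.s k107 k104 0 (.s k195 k151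
  13 (.s k150 k60 14 (.d k215 k235 k20 5 8))))] (.c k128 (.l (.s k191 k127 7 (.s k107 k104 0 (.s
  k195 k151 13 (.s k150 k60 14 (.d k215 k235 k20 5 8)))))) (.c k191 (.q k128 [(.d k64 k127 k192 6
  7), (.s k107 k104 0 (.s k195 k151 13 (.s k215 k235 5 (.d k150 k20 k60 8 14))))] .n) .n)))) (.c
  k213 (.l (.s k63 k42 6 (.s k127 k191 7 (.s k106 k64 6 (.s k107 k104 0 (.s k195 k151 13 (.s k150
  k60 14 (.d k215 k235 k20 5 8)))))))) .n))) (.c k125 (.q k253 [(.s k169 k1 13 (.s k252 k254 0 (.s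
  k84 k168 13 (.d k86 k87 k3 0 14)))), (.s k169 k1 13 (.s k233 k41 7 (.s k213 k193 5 (.s k192 k234 6
  (.s k64 k128 7 (.s k106 k127 6 (.d k149 k21 k63 7 14)))))))] (.c k1 (.l (.s k252 k254 0 (.s k84
  k168 13 (.s k86 k87 0 (.s k124 k67 6 (.s k60 k188 7 (.s k20 k40 5 (.d k150 k215 k195 8 14))))))))
  (.c k169 (.f k252 k254 0 (.q k86 [(.d k84 k168 k87 13 0), (.s k124 k67 6 (.s k60 k188 7 (.s k20
  k40 5 (.d k150 k215 k195 8 14))))] (.c k168 (.q k171 [(.d k87 k84 k3 0 13), (.s k124 k67 6 (.s k60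
  k188 7 (.s k20 k40 5 (.d k150 k215 k195 8 14))))] .n) (.c k171 (.l (.s k168 k84 13 (.s k124 k67 6
  (.s k60 k188 7 (.s k20 k40 5 (.d k150 k215 k195 8 14)))))) .n)))) .n))) (.c k130 (.l (.s k125 k65
  5 (.s k60 k190 8 (.s k150 k195 14 (.d k20 k40 k215 5 8))))) (.c k150 (.f k125 k65 5 (.q k86 [(.s
  k84 k87 0 (.s k124 k67 6 (.s k64 k104 5 (.d k127 k126 k106 0 6)))), (.s k84 k87 0 (.s k252 k168 13
  (.s k169 k3 14 (.d k253 k254 k1 0 13)))), (.s k124 k67 6 (.s k127 k126 0 (.s k63 k191 7 (.s k21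
  k42 6 (.s k149 k213 7 (.d k106 k64 k192 6 14))))))] (.c k130 (.l (.s k190 k60 8 (.s k84 k87 0 (.s
  k124 k67 6 (.s k64 k104 5 (.d k127 k126 k106 0 6)))))) (.c k190 (.q k130 [(.s k84 k87 0 (.s k124
  k67 6 (.s k64 k104 5 (.d k127 k126 k106 0 6)))), (.s k84 k87 0 (.s k252 k168 13 (.s k169 k3 14 (.d
  k253 k254 k1 0 13)))), (.s k124 k67 6 (.s k127 k126 0 (.s k63 k191 7 (.s k21 k42 6 (.s k149 k213 7
  (.d k106 k64 k192 6 14))))))] .n) .n)))) (.c k190 (.l (.s k65 k125 5 (.s k195 k130 8 (.s k150 k60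
  14 (.d k215 k235 k20 5 8))))) (.c k195 (.q k1 [(.s k3 k2 0 (.s k87 k171 13 (.s k86 k84 0 (.d k169
  k253 k252 13 14)))), (.s k65 k125 5 (.s k169 k253 13 (.s k41 k233 7 (.s k61 k21 5 (.d k193 k129
  k149 7 13))))), (.s k3 k2 0 (.s k125 k65 5 (.s k60 k190 8 (.s k40 k20 5 (.s k41 k22 6 (.s k21 k61
  5 (.d k42 k43 k63 0 6)))))))] .n) (.c k215 (.q k1 [(.s k169 k253 13 (.s k3 k2 0 (.s k86 k252 14
  (.d k87 k84 k171 0 13)))), (.s k65 k125 5 (.s k169 k253 13 (.s k41 k233 7 (.s k61 k21 5 (.d k193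
  k129 k149 7 13))))), (.s k3 k2 0 (.s k65 k125 5 (.s k129 k193 7 (.s k66 k192 8 (.s k67 k64 0 (.d
  k195 k131 k130 7 8))))))] .n) (.c k235 (.l (.s k125 k65 5 (.s k60 k190 8 (.s k20 k40 5 (.d k150
  k215 k195 8 14))))) .n))))))))))))

def t6_99 : T TT 256 :=
  (.f k255 k170 14 (.q k106 [(.s k64 k127 6 (.s k192 k128 7 (.s k149 k63 14 (.d k213 k234 k21 6
  7))))] (.c k21 (.q k1 [(.s k169 k253 13 (.s k3 k2 0 (.s k86 k252 14 (.d k87 k84 k171 0 13)))), (.s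
  k64 k127 6 (.s k192 k128 7 (.s k213 k234 6 (.s k253 k169 13 (.s k193 k233 5 (.s k65 k129 7 (.d
  k195 k130 k194 8 0))))))), (.s k3 k2 0 (.s k64 k127 6 (.s k192 k128 7 (.s k66 k129 8 (.s k86 k126
  5 (.d k87 k84 k171 0 13))))))] (.c k171 (.l (.s k3 k2 0 (.s k127 k64 6 (.s k63 k191 7 (.s k43 k23
  5 (.d k169 k232 k253 8 13)))))) .n)) (.c k63 (.q k1 [(.s k3 k2 0 (.s k87 k171 13 (.s k86 k84 0 (.d
  k169 k253 k252 13 14)))), (.s k64 k127 6 (.s k192 k128 7 (.s k213 k234 6 (.s k253 k169 13 (.s k193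
  k233 5 (.s k65 k129 7 (.d k195 k130 k194 8 0))))))), (.s k3 k2 0 (.s k64 k127 6 (.s k192 k128 7
  (.s k66 k129 8 (.s k86 k126 5 (.d k87 k84 k171 0 13))))))] (.c k171 (.l (.s k3 k2 0 (.s k64 k127 6
  (.s k169 k253 13 (.s k86 k252 14 (.s k192 k128 7 (.d k66 k126 k129 5 8))))))) .n)) (.c k64 (.q k48
  [(.s k16 k32 3 (.s k117 k186 10 (.s k154 k223 10 (.d k101 k69 k207 3 14)))), (.s k16 k32 3 (.s
  k154 k223 10 (.s k58 k202 11 (.s k63 k53 2 (.s k21 k42 6 (.d k149 k213 k192 7 14)))))), (.s k117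
  k186 10 (.s k101 k69 3 (.s k96 k111 2 (.s k192 k144 11 (.s k149 k63 14 (.d k213 k234 k21 6
  7))))))] (.c k101 (.q k87 [(.s k3 k171 13 (.s k86 k84 0 (.s k169 k252 14 (.d k1 k2 k253 0 13)))),
  (.s k3 k171 13 (.s k2 k1 0 (.s k18 k33 4 (.s k34 k50 3 (.s k17 k51 4 (.d k16 k32 k19 3 0)))))),
  (.s k3 k171 13 (.s k18 k33 4 (.s k86 k84 0 (.s k154 k222 9 (.d k16 k32 k223 3 10)))))] (.c k3 (.l
  (.s k84 k86 0 (.s k117 k186 10 (.s k252 k168 13 (.s k116 k184 9 (.s k68 k100 3 (.d k119 k102 k118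
  4 0))))))) (.c k32 (.q k239 [(.s k3 k171 13 (.s k86 k84 0 (.s k169 k252 14 (.d k1 k2 k253 0
  13)))), (.s k3 k171 13 (.s k18 k33 4 (.s k223 k207 3 (.s k16 k154 10 (.d k19 k17 k155 0 9))))),
  (.s k86 k84 0 (.s k223 k207 3 (.s k16 k154 10 (.s k19 k155 9 (.s k17 k18 0 (.d k153 k221 k220 9
  10))))))] .n) (.c k168 (.l (.s k86 k84 0 (.s k3 k171 13 (.s k169 k252 14 (.d k1 k2 k253 0 13)))))
  (.c k169 (.l (.s k32 k16 3 (.s k84 k86 0 (.s k3 k171 13 (.s k168 k252 13 (.s k100 k236 9 (.s k204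
  k152 13 (.d k68 k116 k136 3 9)))))))) (.c k171 (.l (.s k32 k16 3 (.s k84 k86 0 (.s k168 k252 13
  (.s k100 k236 9 (.s k204 k152 13 (.d k68 k116 k136 3 9))))))) (.c k239 (.l (.s k32 k16 3 (.s k3
  k171 13 (.s k1 k2 0 (.s k86 k84 0 (.d k169 k253 k252 13 14)))))) .n))))))) (.c k154 (.q k84 [(.s
  k86 k87 0 (.s k252 k168 13 (.s k253 k254 0 (.d k169 k1 k3 13 14)))), (.s k16 k32 3 (.s k152 k220 9
  (.s k100 k204 13 (.s k116 k68 3 (.d k252 k184 k168 9 13)))))] (.c k138 (.l (.s k186 k117 10 (.s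
  k86 k87 0 (.s k252 k168 13 (.s k169 k3 14 (.d k253 k254 k1 0 13)))))) (.c k168 (.l (.s k16 k32 3
  (.s k86 k87 0 (.s k152 k220 9 (.s k100 k204 13 (.s k116 k68 3 (.s k101 k71 4 (.d k117 k69 k186 3
  10)))))))) (.c k186 (.q k138 [(.s k86 k87 0 (.s k252 k168 13 (.s k169 k3 14 (.d k253 k254 k1 0
  13)))), (.s k69 k207 10 (.s k101 k117 3 (.s k96 k111 2 (.s k192 k144 11 (.s k213 k234 6 (.d k149
  k63 k21 14 7))))))] .n) (.c k252 (.l (.s k16 k32 3 (.s k87 k86 0 (.s k3 k171 13 (.s k2 k1 0 (.s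
  k18 k33 4 (.s k17 k19 0 (.d k34 k50 k51 3 4)))))))) .n))))) .n))) (.c k127 (.q k48 [(.s k16 k32 3
  (.s k117 k186 10 (.s k101 k69 3 (.d k154 k223 k207 10 14)))), (.s k16 k32 3 (.s k154 k223 10 (.s
  k58 k202 11 (.s k63 k53 2 (.s k21 k42 6 (.d k149 k213 k192 7 14)))))), (.s k117 k186 10 (.s k101
  k69 3 (.s k96 k111 2 (.s k192 k144 11 (.s k149 k63 14 (.d k213 k234 k21 6 7))))))] (.c k101 (.q
  k149 [(.s k21 k213 7 (.d k63 k42 k192 6 14)), (.s k63 k192 14 (.s k58 k53 2 (.s k154 k202 11 (.d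
  k16 k32 k223 3 10))))] (.c k32 (.q k239 [(.s k21 k213 7 (.d k63 k42 k192 6 14)), (.s k63 k192 14
  (.s k58 k53 2 (.s k154 k202 11 (.d k223 k207 k16 3 10))))] (.c k63 (.l (.s k213 k21 7 (.s k192
  k234 6 (.s k144 k96 11 (.s k154 k159 2 (.d k223 k207 k16 3 10)))))) (.c k192 (.l (.s k21 k213 7
  (.s k63 k42 6 (.s k58 k53 2 (.s k154 k202 11 (.d k223 k207 k16 3 10)))))) .n))) (.c k63 (.l (.s
  k213 k21 7 (.s k192 k234 6 (.s k144 k96 11 (.s k154 k159 2 (.d k16 k32 k223 3 10)))))) (.c k192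
  (.l (.s k21 k213 7 (.s k63 k42 6 (.s k58 k53 2 (.s k154 k202 11 (.d k16 k32 k223 3 10)))))) (.c
  k239 (.l (.s k32 k16 3 (.s k21 k213 7 (.d k63 k42 k192 6 14)))) .n))))) (.c k154 (.q k84 [(.s k252
  k168 13 (.s k253 k254 0 (.s k169 k1 13 (.d k86 k87 k3 0 14)))), (.s k16 k32 3 (.s k152 k220 9 (.s
  k100 k204 13 (.s k116 k68 3 (.d k252 k184 k168 9 13)))))] (.c k138 (.l (.s k186 k117 10 (.s k86
  k87 0 (.s k252 k168 13 (.s k169 k3 14 (.d k253 k254 k1 0 13)))))) (.c k168 (.l (.s k16 k32 3 (.s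
  k86 k87 0 (.s k152 k220 9 (.s k100 k204 13 (.s k116 k68 3 (.s k101 k71 4 (.d k117 k69 k186 3
  10)))))))) (.c k186 (.q k138 [(.s k252 k168 13 (.s k253 k254 0 (.s k169 k1 13 (.d k86 k87 k3 0
  14)))), (.s k69 k207 10 (.s k101 k117 3 (.s k96 k111 2 (.s k192 k144 11 (.s k213 k234 6 (.d k149
  k63 k21 14 7))))))] .n) (.c k252 (.l (.s k16 k32 3 (.s k87 k86 0 (.s k3 k171 13 (.s k2 k1 0 (.s
  k18 k33 4 (.s k17 k19 0 (.d k34 k50 k51 3 4)))))))) .n))))) .n))) (.c k128 (.l (.s k127 k64 6 (.s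
  k63 k191 7 (.s k149 k192 14 (.d k21 k42 k213 6 7))))) (.c k149 (.f k127 k64 6 (.q k90 [(.s k80 k95
  2 (.s k240 k160 11 (.s k165 k15 14 (.d k245 k250 k5 2 11)))), (.s k122 k74 3 (.s k117 k112 2 (.s
  k48 k186 10 (.s k16 k32 3 (.s k154 k223 10 (.d k101 k69 k207 3 14))))))] (.c k80 (.l (.s k122 k74
  3 (.s k112 k117 2 (.s k79 k101 6 (.s k95 k111 3 (.s k15 k175 11 (.s k5 k10 2 (.d k165 k245 k240 11
  14)))))))) (.c k128 (.l (.s k191 k63 7 (.s k80 k95 2 (.s k240 k160 11 (.s k165 k15 14 (.d k245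
  k250 k5 2 11)))))) (.c k191 (.q k128 [(.s k80 k95 2 (.s k240 k160 11 (.s k165 k15 14 (.d k245 k250
  k5 2 11)))), (.s k122 k74 3 (.s k117 k112 2 (.s k48 k186 10 (.s k16 k32 3 (.s k154 k223 10 (.d
  k101 k69 k207 3 14))))))] (.c k80 (.l (.s k122 k74 3 (.s k112 k117 2 (.s k79 k101 6 (.s k95 k111 3
  (.s k15 k175 11 (.s k5 k10 2 (.d k165 k245 k240 11 14)))))))) .n)) .n))))) (.c k191 (.l (.s k64
  k127 6 (.s k192 k128 7 (.s k149 k63 14 (.d k213 k234 k21 6 7))))) (.c k192 (.q k1 [(.s k3 k2 0 (.s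
  k87 k171 13 (.s k86 k84 0 (.d k169 k253 k252 13 14)))), (.s k127 k64 6 (.s k63 k191 7 (.s k21 k42
  6 (.s k61 k41 5 (.s k253 k169 13 (.s k125 k189 7 (.d k60 k190 k62 8 0))))))), (.s k3 k2 0 (.s k127
  k64 6 (.s k63 k191 7 (.s k21 k42 6 (.s k23 k43 5 (.s k22 k20 0 (.d k41 k61 k60 5 6)))))))] .n) (.c
  k213 (.q k1 [(.s k3 k2 0 (.s k87 k171 13 (.s k86 k84 0 (.d k169 k253 k252 13 14)))), (.s k64 k127
  6 (.s k169 k253 13 (.s k192 k128 7 (.s k149 k63 14 (.s k129 k189 5 (.s k66 k3 8 (.d k65 k193 k67 7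
  0))))))), (.s k3 k2 0 (.s k64 k127 6 (.s k192 k128 7 (.s k66 k129 8 (.s k86 k126 5 (.d k87 k84
  k171 0 13))))))] (.c k3 (.l (.s k127 k64 6 (.s k63 k191 7 (.s k21 k42 6 (.s k61 k41 5 (.s k60 k62
  0 (.s k125 k190 8 (.d k253 k189 k169 7 13)))))))) .n)) (.c k234 (.l (.s k127 k64 6 (.s k63 k191 7
  (.s k21 k42 6 (.d k149 k213 k192 7 14))))) .n))))))))))))

def t6_100 : T TT 256 :=
  (.f k255 k170 14 (.q k106 [(.s k64 k127 6 (.s k192 k128 7 (.s k149 k63 14 (.d k213 k234 k21 6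
  7))))] (.c k21 (.q k1 [(.s k169 k253 13 (.s k3 k2 0 (.s k86 k252 14 (.d k87 k84 k171 0 13)))), (.s
  k64 k127 6 (.s k192 k128 7 (.s k213 k234 6 (.s k253 k169 13 (.s k193 k233 5 (.s k65 k129 7 (.d
  k195 k130 k194 8 0))))))), (.s k3 k2 0 (.s k64 k127 6 (.s k192 k128 7 (.s k66 k129 8 (.s k86 k126
  5 (.d k87 k84 k171 0 13))))))] (.c k171 (.l (.s k3 k2 0 (.s k127 k64 6 (.s k63 k191 7 (.s k43 k23
  5 (.d k169 k232 k253 8 13)))))) .n)) (.c k63 (.q k1 [(.s k3 k2 0 (.s k87 k171 13 (.s k169 k253 13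
  (.d k86 k84 k252 0 14)))), (.s k64 k127 6 (.s k192 k128 7 (.s k213 k234 6 (.s k253 k169 13 (.s
  k193 k233 5 (.s k65 k129 7 (.d k195 k130 k194 8 0))))))), (.s k3 k2 0 (.s k64 k127 6 (.s k192 k128
  7 (.s k66 k129 8 (.s k86 k126 5 (.d k87 k84 k171 0 13))))))] (.c k171 (.l (.s k3 k2 0 (.s k64 k127
  6 (.s k169 k253 13 (.s k86 k252 14 (.s k192 k128 7 (.d k66 k126 k129 5 8))))))) .n)) (.c k64 (.q
  k60 [(.s k20 k40 5 (.s k125 k190 8 (.s k150 k215 8 (.d k105 k65 k195 5 14)))), (.s k20 k40 5 (.s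
  k150 k215 8 (.s k62 k194 13 (.s k63 k61 0 (.s k21 k42 6 (.d k149 k213 k192 7 14)))))), (.s k125
  k190 8 (.s k105 k65 5 (.s k104 k107 0 (.s k192 k148 13 (.s k149 k63 14 (.d k213 k234 k21 6
  7))))))] (.c k105 (.q k87 [(.s k3 k171 13 (.s k1 k2 0 (.s k169 k253 13 (.d k86 k84 k252 0 14)))),
  (.s k86 k84 0 (.s k126 k66 5 (.s k190 k125 8 (.s k62 k254 7 (.s k150 k194 13 (.d k20 k40 k215 5
  8)))))), (.s k3 k171 13 (.s k2 k1 0 (.s k22 k41 6 (.s k42 k62 5 (.s k21 k63 6 (.d k20 k40 k23 5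
  0))))))] (.c k2 (.l (.s k3 k171 13 (.s k22 k41 6 (.s k86 k84 0 (.s k150 k214 7 (.d k20 k40 k215 5
  8)))))) (.c k40 (.q k235 [(.s k3 k171 13 (.s k1 k2 0 (.s k169 k253 13 (.d k86 k84 k252 0 14)))),
  (.s k86 k84 0 (.s k126 k66 5 (.s k190 k125 8 (.s k62 k254 7 (.s k150 k194 13 (.d k215 k195 k20 5
  8)))))), (.s k3 k171 13 (.s k22 k41 6 (.s k215 k195 5 (.s k20 k150 8 (.d k23 k21 k151 0 7)))))]
  .n) (.c k235 (.l (.s k40 k20 5 (.s k3 k171 13 (.s k1 k2 0 (.s k86 k84 0 (.d k169 k253 k252 13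
  14)))))) .n)))) (.c k150 (.q k149 [(.s k21 k213 7 (.d k63 k42 k192 6 14)), (.s k63 k192 14 (.s k61
  k62 0 (.s k105 k193 13 (.d k125 k190 k65 8 5))))] (.c k63 (.l (.s k213 k21 7 (.s k192 k234 6 (.s
  k104 k148 13 (.s k105 k107 0 (.d k125 k65 k190 5 8)))))) (.c k130 (.l (.s k190 k125 8 (.s k21 k213
  7 (.d k63 k42 k192 6 14)))) (.c k190 (.q k130 [(.s k21 k213 7 (.d k63 k42 k192 6 14)), (.s k63
  k192 14 (.s k61 k62 0 (.s k65 k195 8 (.d k105 k193 k125 13 5))))] (.c k63 (.l (.s k65 k195 8 (.s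
  k105 k125 5 (.s k213 k21 7 (.s k192 k234 6 (.d k104 k107 k148 0 13)))))) (.c k192 (.l (.s k21 k213
  7 (.s k63 k42 6 (.s k61 k62 0 (.s k65 k195 8 (.d k105 k193 k125 13 5)))))) .n))) (.c k192 (.l (.s
  k21 k213 7 (.s k63 k42 6 (.s k61 k62 0 (.s k105 k193 13 (.d k125 k65 k190 5 8)))))) .n))))) .n)))
  (.c k127 (.q k195 [(.s k65 k130 8 (.s k215 k235 5 (.s k150 k20 8 (.d k105 k125 k60 5 14)))), (.s
  k65 k130 8 (.s k105 k125 5 (.s k107 k104 0 (.s k63 k151 13 (.s k21 k42 6 (.d k149 k213 k192 7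
  14)))))), (.s k215 k235 5 (.s k150 k20 8 (.s k194 k62 13 (.s k192 k193 0 (.s k149 k63 14 (.d k213
  k234 k21 6 7))))))] (.c k105 (.q k149 [(.s k21 k213 7 (.d k63 k42 k192 6 14)), (.s k63 k192 14 (.s
  k151 k107 13 (.s k150 k148 0 (.d k215 k235 k20 5 8))))] (.c k40 (.l (.s k235 k215 5 (.s k21 k213 7
  (.d k63 k42 k192 6 14)))) (.c k63 (.l (.s k213 k21 7 (.s k192 k234 6 (.s k194 k193 0 (.s k150 k62
  13 (.d k215 k235 k20 5 8)))))) (.c k192 (.l (.s k21 k213 7 (.s k63 k42 6 (.s k151 k107 13 (.s k150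
  k148 0 (.d k215 k235 k20 5 8)))))) (.c k235 (.q k40 [(.s k21 k213 7 (.d k63 k42 k192 6 14)), (.s
  k20 k60 5 (.s k63 k192 14 (.s k150 k215 8 (.d k151 k148 k107 0 13))))] (.c k63 (.l (.s k20 k60 5
  (.s k150 k215 8 (.s k213 k21 7 (.s k192 k234 6 (.d k194 k62 k193 13 0)))))) (.c k192 (.l (.s k20
  k60 5 (.s k21 k213 7 (.s k63 k42 6 (.s k150 k215 8 (.d k151 k148 k107 0 13)))))) .n))) .n))))) (.c
  k150 (.q k149 [(.s k21 k213 7 (.d k63 k42 k192 6 14)), (.s k63 k192 14 (.s k107 k151 13 (.s k105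
  k104 0 (.d k65 k130 k125 8 5))))] (.c k63 (.l (.s k213 k21 7 (.s k192 k234 6 (.s k193 k194 0 (.s
  k105 k61 13 (.d k65 k125 k130 5 8)))))) (.c k130 (.q k190 [(.s k21 k213 7 (.d k63 k42 k192 6 14)),
  (.s k63 k192 14 (.s k107 k151 13 (.s k105 k104 0 (.d k125 k60 k65 8 5))))] (.c k63 (.l (.s k125
  k60 8 (.s k105 k65 5 (.s k213 k21 7 (.s k192 k234 6 (.d k193 k61 k194 13 0)))))) (.c k192 (.l (.s
  k21 k213 7 (.s k63 k42 6 (.s k107 k151 13 (.s k105 k104 0 (.d k125 k60 k65 8 5)))))) .n))) (.c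
  k190 (.l (.s k130 k65 8 (.s k21 k213 7 (.d k63 k42 k192 6 14)))) (.c k192 (.l (.s k21 k213 7 (.s
  k63 k42 6 (.s k107 k151 13 (.s k105 k104 0 (.d k65 k125 k130 5 8)))))) .n))))) .n))) (.c k128 (.l
  (.s k127 k64 6 (.s k63 k191 7 (.s k149 k192 14 (.d k21 k42 k213 6 7))))) (.c k149 (.f k127 k64 6
  (.q k89 [(.s k81 k93 1 (.s k123 k72 4 (.s k243 k162 12 (.d k63 k191 k183 7 9)))), (.s k123 k72 4
  (.s k119 k115 1 (.s k51 k187 9 (.s k17 k34 4 (.s k153 k221 9 (.d k102 k68 k204 4 14)))))), (.s k81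
  k93 1 (.s k243 k162 12 (.s k166 k12 14 (.d k247 k251 k4 1 12))))] (.c k81 (.l (.s k123 k72 4 (.s
  k115 k119 1 (.s k76 k102 6 (.s k93 k110 4 (.s k12 k174 12 (.s k4 k8 1 (.d k166 k247 k243 12
  14)))))))) (.c k128 (.l (.s k191 k63 7 (.s k81 k93 1 (.s k243 k162 12 (.s k166 k12 14 (.d k247
  k251 k4 1 12)))))) (.c k191 (.q k128 [(.s k81 k93 1 (.s k243 k162 12 (.s k247 k251 1 (.d k166 k4
  k12 12 14)))), (.s k123 k72 4 (.s k119 k115 1 (.s k51 k187 9 (.s k17 k34 4 (.s k153 k221 9 (.d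
  k102 k68 k204 4 14))))))] (.c k81 (.l (.s k123 k72 4 (.s k115 k119 1 (.s k76 k102 6 (.s k93 k110 4
  (.s k12 k174 12 (.s k4 k8 1 (.d k166 k247 k243 12 14)))))))) .n)) .n))))) (.c k191 (.l (.s k64
  k127 6 (.s k192 k128 7 (.s k149 k63 14 (.d k213 k234 k21 6 7))))) (.c k192 (.q k1 [(.s k3 k2 0 (.s
  k87 k171 13 (.s k169 k253 13 (.d k86 k84 k252 0 14)))), (.s k127 k64 6 (.s k63 k191 7 (.s k21 k42
  6 (.s k61 k41 5 (.s k253 k169 13 (.s k125 k189 7 (.d k60 k190 k62 8 0))))))), (.s k3 k2 0 (.s k127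
  k64 6 (.s k63 k191 7 (.s k21 k42 6 (.s k23 k43 5 (.s k22 k20 0 (.d k41 k61 k60 5 6)))))))] .n) (.c
  k213 (.q k1 [(.s k169 k253 13 (.s k3 k2 0 (.s k86 k252 14 (.d k87 k84 k171 0 13)))), (.s k127 k64
  6 (.s k63 k191 7 (.s k21 k42 6 (.s k61 k41 5 (.s k60 k62 0 (.s k125 k190 8 (.d k253 k189 k169 7
  13))))))), (.s k64 k127 6 (.s k169 k253 13 (.s k192 k128 7 (.s k149 k63 14 (.s k129 k189 5 (.s k66
  k3 8 (.d k65 k193 k67 7 0))))))), (.s k3 k2 0 (.s k64 k127 6 (.s k192 k128 7 (.s k66 k129 8 (.s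
  k86 k126 5 (.d k87 k84 k171 0 13))))))] .n) (.c k234 (.l (.s k127 k64 6 (.s k63 k191 7 (.s k21 k42
  6 (.d k149 k213 k192 7 14))))) .n))))))))))))

def t6_102 : T TT 256 :=
  (.f k170 k255 14 (.q k240 [(.s k80 k160 11 (.s k90 k95 2 (.s k10 k250 11 (.d k15 k5 k165 2 14))))]
  (.c k5 (.q k4 [(.s k12 k8 1 (.s k166 k247 12 (.s k162 k174 1 (.d k243 k81 k89 12 14)))), (.s k12
  k8 1 (.s k160 k80 11 (.s k164 k88 13 (.s k84 k244 11 (.d k168 k172 k252 1 13))))), (.s k80 k160 11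
  (.s k90 k95 2 (.s k166 k247 12 (.s k242 k14 13 (.s k243 k241 0 (.d k162 k174 k81 1 12))))))] .n)
  (.c k10 (.q k2 [(.s k3 k1 0 (.s k86 k254 13 (.s k84 k87 0 (.d k252 k168 k169 13 14)))), (.s k3 k1
  0 (.s k80 k160 11 (.s k82 k161 12 (.s k81 k83 0 (.d k162 k242 k243 11 12))))), (.s k80 k160 11 (.s
  k86 k254 13 (.s k90 k95 2 (.s k82 k94 1 (.s k81 k83 0 (.d k162 k242 k243 11 12))))))] .n) (.c k15
  (.f k80 k160 11 (.q k84 [(.s k86 k87 0 (.s k2 k254 13 (.s k3 k1 0 (.d k252 k168 k169 13 14)))),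
  (.s k88 k92 1 (.s k12 k164 13 (.s k8 k4 1 (.d k168 k248 k252 11 13)))), (.s k86 k87 0 (.s k92 k88
  1 (.s k83 k89 2 (.s k82 k81 0 (.d k90 k95 k94 2 1)))))] (.c k95 (.q k175 [(.s k86 k87 0 (.s k2
  k254 13 (.s k3 k1 0 (.d k252 k168 k169 13 14)))), (.s k88 k92 1 (.s k12 k164 13 (.s k8 k4 1 (.d
  k168 k248 k252 11 13)))), (.s k86 k87 0 (.s k92 k88 1 (.s k83 k89 2 (.s k82 k81 0 (.s k3 k161 12
  (.d k2 k1 k254 0 13))))))] .n) (.c k175 (.l (.s k95 k90 2 (.s k86 k87 0 (.s k2 k254 13 (.s k3 k1 0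
  (.d k252 k168 k169 13 14)))))) .n)))) (.c k80 (.q k81 [(.s k89 k93 1 (.s k8 k251 12 (.s k243 k162
  12 (.d k12 k4 k166 1 14)))), (.s k243 k162 12 (.s k241 k242 0 (.s k1 k161 11 (.s k169 k253 13 (.s
  k168 k171 0 (.s k252 k84 13 (.d k3 k2 k86 0 14)))))))] (.c k162 (.l (.s k89 k93 1 (.s k8 k251 12
  (.s k12 k4 1 (.s k88 k164 13 (.s k90 k91 0 (.s k10 k250 11 (.d k15 k5 k165 2 14)))))))) (.c k243
  (.f k89 k93 1 (.q k12 [(.d k8 k251 k4 12 1), (.s k88 k164 13 (.s k90 k91 0 (.s k10 k250 11 (.d k15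
  k5 k165 2 14))))] (.c k247 (.l (.s k251 k8 12 (.s k88 k164 13 (.s k90 k91 0 (.s k10 k250 11 (.d
  k15 k5 k165 2 14)))))) (.c k251 (.q k247 [(.d k4 k8 k166 1 12), (.s k88 k164 13 (.s k90 k91 0 (.s
  k10 k250 11 (.d k15 k5 k165 2 14))))] .n) .n)))) .n))) (.c k90 (.f k80 k160 11 (.q k82 [(.s k3
  k161 12 (.s k2 k1 0 (.s k81 k83 0 (.d k162 k242 k243 11 12)))), (.s k81 k83 0 (.s k89 k93 1 (.s k8
  k251 12 (.s k12 k4 1 (.s k88 k164 13 (.s k84 k92 1 (.d k168 k248 k252 11 13))))))), (.s k3 k161 12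
  (.s k1 k2 0 (.s k169 k253 13 (.s k168 k171 0 (.d k252 k84 k86 13 14)))))] (.c k78 (.q k114 [(.s k3
  k161 12 (.s k2 k1 0 (.s k81 k83 0 (.d k162 k242 k243 11 12)))), (.s k51 k177 8 (.s k17 k34 4 (.s
  k81 k83 0 (.s k98 k66 3 (.d k145 k209 k192 7 12))))), (.s k3 k161 12 (.s k51 k177 8 (.s k19 k35 3
  (.s k98 k66 3 (.d k145 k208 k192 8 12)))))] .n) (.c k114 (.q k78 [(.s k3 k161 12 (.s k2 k1 0 (.s
  k81 k83 0 (.d k162 k242 k243 11 12)))), (.s k81 k83 0 (.s k89 k93 1 (.s k8 k251 12 (.s k12 k4 1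
  (.s k88 k164 13 (.s k84 k92 1 (.d k168 k248 k252 11 13))))))), (.s k3 k161 12 (.s k1 k2 0 (.s k169
  k253 13 (.s k168 k171 0 (.d k252 k84 k86 13 14)))))] .n) .n)))) (.c k95 (.l (.s k160 k80 11 (.s
  k165 k175 2 (.s k15 k90 14 (.d k5 k10 k245 2 11))))) (.c k160 (.q k162 [(.s k166 k174 1 (.s k4
  k247 12 (.s k12 k8 1 (.d k243 k81 k89 12 14)))), (.s k243 k81 12 (.s k242 k241 0 (.s k2 k82 11 (.s
  k86 k254 13 (.s k84 k87 0 (.s k252 k168 13 (.d k3 k1 k169 0 14)))))))] (.c k81 (.l (.s k166 k174 1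
  (.s k4 k247 12 (.s k12 k8 1 (.s k164 k88 13 (.s k165 k167 0 (.s k5 k245 11 (.d k15 k10 k90 2
  14)))))))) (.c k243 (.f k166 k174 1 (.q k12 [(.d k4 k247 k8 12 1), (.s k164 k88 13 (.s k165 k167 0
  (.s k5 k245 11 (.d k15 k10 k90 2 14))))] (.c k247 (.q k251 [(.d k8 k4 k89 1 12), (.s k164 k88 13
  (.s k165 k167 0 (.s k5 k245 11 (.d k15 k10 k90 2 14))))] .n) (.c k251 (.l (.s k247 k4 12 (.s k164
  k88 13 (.s k165 k167 0 (.s k5 k245 11 (.d k15 k10 k90 2 14)))))) .n)))) .n))) (.c k165 (.f k80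
  k160 11 (.q k101 [(.s k32 k239 10 (.s k48 k16 3 (.s k69 k117 3 (.d k207 k138 k154 10 14)))), (.s
  k90 k95 2 (.s k112 k79 6 (.s k64 k96 3 (.s k117 k69 3 (.d k127 k122 k106 2 6))))), (.s k32 k239 10
  (.s k48 k16 3 (.s k90 k95 2 (.d k112 k79 k176 6 7))))] (.c k32 (.l (.s k69 k117 3 (.s k90 k95 2
  (.s k112 k79 6 (.s k48 k176 7 (.d k207 k154 k138 14 10)))))) (.c k39 (.q k228 [(.s k32 k239 10 (.s
  k48 k16 3 (.s k69 k117 3 (.d k207 k138 k154 10 14)))), (.s k90 k95 2 (.s k112 k79 6 (.s k64 k96 3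
  (.s k117 k69 3 (.d k127 k122 k106 2 6))))), (.s k32 k239 10 (.s k48 k16 3 (.s k90 k95 2 (.d k112
  k79 k176 6 7))))] (.c k32 (.l (.s k69 k117 3 (.s k90 k95 2 (.s k112 k79 6 (.s k48 k176 7 (.d k207
  k154 k138 14 10)))))) .n)) (.c k228 (.q k39 [(.s k32 k239 10 (.s k48 k16 3 (.s k69 k117 3 (.d k207
  k138 k154 10 14)))), (.s k90 k95 2 (.s k112 k79 6 (.s k64 k96 3 (.s k117 k69 3 (.d k127 k122 k106
  2 6))))), (.s k32 k239 10 (.s k48 k16 3 (.s k90 k95 2 (.d k112 k79 k176 6 7))))] (.c k32 (.l (.s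
  k69 k117 3 (.s k90 k95 2 (.s k112 k79 6 (.s k48 k176 7 (.d k207 k154 k138 14 10)))))) .n)) .n)))))
  (.c k175 (.l (.s k80 k160 11 (.s k90 k95 2 (.s k15 k165 14 (.d k10 k5 k250 2 11))))) (.c k250 (.l
  (.s k160 k80 11 (.s k165 k175 2 (.s k5 k245 11 (.d k15 k10 k90 2 14))))) .n))))))))))))

def t6_103 : T TT 256 :=
  (.f k255 k170 14 (.q k165 [(.s k5 k245 11 (.s k15 k10 2 (.s k90 k240 14 (.d k95 k80 k175 2 11)))),
  (.s k245 k5 11 (.s k240 k250 2 (.s k80 k160 11 (.d k90 k95 k15 2 14))))] (.c k5 (.q k4 [(.s k166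
  k247 12 (.s k12 k8 1 (.s k89 k243 14 (.d k93 k81 k174 1 12)))), (.s k166 k247 12 (.s k164 k167 0
  (.s k84 k244 11 (.s k252 k168 13 (.s k253 k254 0 (.s k169 k1 13 (.d k86 k87 k3 0 14)))))))] (.c
  k166 (.q k86 [(.s k244 k7 12 (.d k84 k87 k164 0 11)), (.s k84 k87 0 (.s k252 k168 13 (.s k169 k3
  14 (.d k253 k254 k1 0 13))))] (.c k84 (.q k173 [(.s k169 k161 1 (.s k1 k253 13 (.d k3 k2 k252 0
  14))), (.s k12 k8 1 (.s k174 k93 12 (.s k172 k175 0 (.s k252 k92 11 (.s k94 k15 12 (.d k254 k253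
  k14 0 11))))))] (.c k162 (.q k174 [(.d k12 k8 k93 1 12), (.s k169 k161 1 (.s k1 k253 13 (.d k3 k2
  k252 0 14)))] .n) (.c k174 (.q k162 [(.s k169 k161 1 (.s k1 k253 13 (.d k3 k2 k252 0 14))), (.s
  k81 k243 12 (.s k89 k93 1 (.s k83 k92 2 (.s k80 k82 0 (.s k240 k160 11 (.d k90 k95 k15 2 14))))))]
  .n) (.c k252 (.l (.s k12 k8 1 (.s k169 k161 1 (.s k253 k1 13 (.d k93 k13 k174 11 12))))) (.c k253
  (.l (.s k12 k8 1 (.s k169 k161 1 (.s k174 k93 12 (.s k172 k175 0 (.d k252 k92 k3 11 14))))))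
  .n))))) (.c k87 (.l (.s k244 k7 12 (.s k84 k164 11 (.s k252 k168 13 (.s k169 k3 14 (.d k253 k254
  k1 0 13)))))) (.c k162 (.q k174 [(.d k12 k8 k93 1 12), (.s k84 k87 0 (.d k244 k164 k7 11 12))] .n)
  (.c k174 (.q k162 [(.s k244 k7 12 (.d k84 k87 k164 0 11)), (.s k81 k243 12 (.s k89 k93 1 (.s k83
  k92 2 (.s k80 k82 0 (.s k240 k160 11 (.d k90 k95 k15 2 14))))))] .n) .n))))) (.c k247 (.l (.s k12
  k8 1 (.s k93 k174 12 (.s k89 k81 1 (.s k13 k241 13 (.s k15 k14 0 (.s k90 k240 14 (.d k95 k80 k175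
  2 11)))))))) .n))) (.c k10 (.l (.s k245 k5 11 (.s k240 k250 2 (.s k90 k15 14 (.d k80 k95 k160 2
  11))))) (.c k15 (.q k1 [(.s k5 k245 11 (.s k13 k9 1 (.s k89 k241 13 (.s k93 k81 1 (.d k253 k173
  k169 11 13))))), (.s k3 k2 0 (.s k87 k171 13 (.s k86 k84 0 (.d k169 k253 k252 13 14)))), (.s k3 k2
  0 (.s k245 k5 11 (.s k240 k250 2 (.s k160 k80 11 (.s k161 k82 12 (.s k81 k241 11 (.d k162 k163
  k243 0 12)))))))] (.c k3 (.l (.s k5 k245 11 (.s k169 k253 13 (.s k161 k173 1 (.s k241 k81 11 (.d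
  k13 k9 k89 1 13)))))) .n)) (.c k80 (.q k1 [(.s k3 k2 0 (.s k169 k253 13 (.s k86 k252 14 (.d k87
  k84 k171 0 13)))), (.s k5 k245 11 (.s k169 k253 13 (.s k161 k173 1 (.s k241 k81 11 (.d k13 k9 k89
  1 13)))))] (.c k169 (.l (.s k5 k245 11 (.s k13 k9 1 (.s k15 k10 2 (.s k89 k241 13 (.s k93 k81 1
  (.d k12 k14 k174 0 12))))))) (.c k253 (.l (.s k3 k2 0 (.s k5 k245 11 (.s k87 k171 13 (.s k86 k84 0
  (.s k7 k244 12 (.d k15 k10 k11 2 1))))))) .n))) (.c k90 (.f k5 k245 11 (.f k10 k15 2 (.q k1 [(.s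
  k13 k9 1 (.s k89 k241 13 (.s k93 k81 1 (.d k253 k173 k169 11 13)))), (.s k3 k2 0 (.s k87 k171 13
  (.s k86 k84 0 (.d k169 k253 k252 13 14))))] (.c k3 (.l (.s k169 k253 13 (.s k161 k173 1 (.s k241
  k81 11 (.d k13 k9 k89 1 13))))) (.c k169 (.l (.s k13 k9 1 (.s k89 k241 13 (.s k81 k93 1 (.s k243
  k162 12 (.s k247 k251 1 (.d k166 k12 k4 14 12))))))) (.c k253 (.l (.s k3 k2 0 (.s k13 k9 1 (.s k87
  k171 13 (.s k86 k84 0 (.s k169 k252 14 (.s k241 k89 13 (.d k161 k173 k81 1 11)))))))) .n)))))) (.c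
  k95 (.q k1 [(.s k3 k2 0 (.s k169 k253 13 (.s k86 k252 14 (.d k87 k84 k171 0 13)))), (.s k5 k245 11
  (.s k169 k253 13 (.s k161 k173 1 (.s k241 k81 11 (.d k13 k9 k89 1 13)))))] (.c k169 (.l (.s k5
  k245 11 (.s k13 k9 1 (.s k15 k10 2 (.s k89 k241 13 (.s k93 k81 1 (.d k12 k14 k174 0 12))))))) (.c
  k253 (.l (.s k3 k2 0 (.s k5 k245 11 (.s k87 k171 13 (.s k86 k84 0 (.s k7 k244 12 (.d k15 k10 k11 2
  1))))))) .n))) (.c k240 (.q k1 [(.s k5 k245 11 (.s k169 k253 13 (.s k161 k173 1 (.s k241 k81 11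
  (.d k13 k9 k89 1 13))))), (.s k3 k2 0 (.s k87 k171 13 (.s k86 k84 0 (.d k169 k253 k252 13 14))))]
  (.c k169 (.l (.s k5 k245 11 (.s k13 k9 1 (.s k15 k10 2 (.s k89 k241 13 (.s k93 k81 1 (.d k12 k14
  k174 0 12))))))) (.c k253 (.l (.s k3 k2 0 (.s k5 k245 11 (.s k87 k171 13 (.s k86 k84 0 (.s k7 k244
  12 (.d k15 k10 k11 2 1))))))) .n))) (.c k245 (.q k253 [(.s k169 k1 13 (.s k252 k254 0 (.s k84 k168
  13 (.d k86 k87 k3 0 14)))), (.s k169 k1 13 (.s k173 k161 1 (.s k93 k13 11 (.s k12 k174 12 (.s k4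
  k8 1 (.s k166 k247 12 (.d k89 k81 k243 1 14)))))))] (.c k1 (.l (.s k252 k254 0 (.s k84 k168 13 (.s
  k86 k87 0 (.s k244 k7 12 (.s k240 k248 1 (.s k80 k160 11 (.d k90 k95 k15 2 14)))))))) (.c k169 (.f
  k252 k254 0 (.q k86 [(.d k84 k168 k87 13 0), (.s k244 k7 12 (.s k240 k248 1 (.s k80 k160 11 (.d
  k90 k95 k15 2 14))))] (.c k168 (.q k171 [(.d k87 k84 k3 0 13), (.s k244 k7 12 (.s k240 k248 1 (.s
  k80 k160 11 (.d k90 k95 k15 2 14))))] .n) (.c k171 (.l (.s k168 k84 13 (.s k244 k7 12 (.s k240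
  k248 1 (.s k80 k160 11 (.d k90 k95 k15 2 14)))))) .n)))) .n))) (.c k250 (.l (.s k5 k245 11 (.s k15
  k10 2 (.s k90 k240 14 (.d k95 k80 k175 2 11))))) .n)))))))))))

def t6_104 : T TT 256 :=
  (.f k255 k170 14 (.q k105 [(.s k125 k65 5 (.s k60 k190 8 (.s k150 k195 14 (.d k20 k40 k215 5
  8))))] (.c k20 (.q k1 [(.s k169 k253 13 (.s k3 k2 0 (.s k86 k252 14 (.d k87 k84 k171 0 13)))), (.s
  k65 k125 5 (.s k169 k253 13 (.s k41 k233 7 (.s k61 k21 5 (.d k193 k129 k149 7 13))))), (.s k3 k2 0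
  (.s k65 k125 5 (.s k129 k193 7 (.s k66 k192 8 (.s k67 k64 0 (.d k195 k131 k130 7 8))))))] .n) (.c
  k40 (.l (.s k65 k125 5 (.s k195 k130 8 (.s k150 k60 14 (.d k215 k235 k20 5 8))))) (.c k60 (.q k192
  [(.s k64 k128 7 (.s k106 k127 6 (.s k213 k234 6 (.d k149 k21 k63 7 14)))), (.s k65 k125 5 (.s k128
  k64 7 (.s k130 k195 8 (.s k129 k131 0 (.s k1 k193 7 (.d k3 k2 k66 0 8)))))), (.s k65 k125 5 (.s
  k195 k130 8 (.s k193 k194 0 (.s k213 k234 6 (.d k149 k21 k61 7 13)))))] .n) (.c k65 (.q k1 [(.s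
  k169 k253 13 (.s k3 k2 0 (.s k86 k252 14 (.d k87 k84 k171 0 13)))), (.s k169 k253 13 (.s k41 k233
  7 (.s k21 k61 5 (.s k63 k42 6 (.s k127 k191 7 (.s k106 k64 6 (.d k149 k213 k192 7 14)))))))] (.c
  k84 (.l (.s k3 k2 0 (.s k169 k253 13 (.s k41 k233 7 (.s k60 k22 6 (.s k20 k40 5 (.d k150 k215 k195
  8 14))))))) (.c k169 (.q k60 [(.s k150 k195 14 (.d k20 k40 k215 5 8)), (.s k3 k2 0 (.s k22 k41 6
  (.s k150 k195 14 (.s k86 k214 7 (.d k87 k171 k84 13 0))))), (.s k3 k2 0 (.s k40 k20 5 (.s k41 k22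
  6 (.s k21 k61 5 (.d k42 k43 k63 0 6)))))] (.c k168 (.q k171 [(.d k3 k2 k87 0 13), (.s k150 k195 14
  (.d k20 k40 k215 5 8))] (.c k40 (.q k232 [(.d k3 k2 k87 0 13), (.s k195 k150 14 (.s k235 k215 5
  (.s k107 k43 7 (.s k63 k151 13 (.s k61 k62 0 (.d k21 k41 k42 5 6))))))] (.c k87 (.l (.s k3 k2 0
  (.s k195 k150 14 (.s k131 k67 7 (.s k151 k191 5 (.s k107 k63 13 (.d k235 k215 k43 5 7))))))) .n))
  (.c k232 (.l (.s k40 k20 5 (.d k3 k2 k87 0 13))) .n))) (.c k171 (.q k168 [(.s k20 k40 5 (.d k150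
  k215 k195 8 14)), (.s k3 k2 0 (.s k22 k41 6 (.s k84 k252 13 (.s k86 k87 0 (.d k150 k214 k195 7
  14))))), (.s k3 k2 0 (.s k40 k20 5 (.s k41 k22 6 (.s k21 k61 5 (.d k42 k43 k63 0 6)))))] .n) .n)))
  (.c k253 (.f k3 k2 0 (.l (.s k87 k171 13 (.s k86 k84 0 (.s k169 k252 14 (.s k41 k233 7 (.s k60 k22
  6 (.s k20 k40 5 (.d k150 k195 k215 14 8))))))))) .n)))) (.c k125 (.q k252 [(.s k84 k168 13 (.s k86
  k87 0 (.s k253 k254 0 (.d k169 k1 k3 13 14)))), (.s k253 k254 0 (.s k169 k1 13 (.s k233 k41 7 (.s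
  k195 k214 6 (.s k215 k235 5 (.d k150 k20 k60 8 14)))))), (.s k84 k168 13 (.s k86 k87 0 (.s k124
  k67 6 (.s k60 k188 7 (.s k150 k195 14 (.d k20 k40 k215 5 8))))))] (.c k86 (.f k254 k253 0 (.q k246
  [(.s k243 k249 2 (.s k250 k242 1 (.s k245 k240 2 (.d k247 k244 k251 0 1)))), (.s k243 k249 2 (.s
  k81 k162 12 (.s k89 k93 1 (.s k166 k12 14 (.d k247 k251 k4 1 12))))), (.s k84 k168 13 (.s k250
  k242 1 (.s k240 k245 2 (.s k80 k160 11 (.s k88 k92 1 (.s k164 k12 13 (.d k244 k248 k4 1 11)))))))]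
  (.c k61 (.q k189 [(.s k243 k249 2 (.s k250 k242 1 (.s k245 k240 2 (.d k247 k244 k251 0 1)))), (.s
  k63 k126 8 (.s k21 k42 6 (.s k127 k191 7 (.s k106 k64 6 (.d k149 k213 k192 7 14)))))] .n) (.c k189
  (.q k61 [(.s k243 k249 2 (.s k250 k242 1 (.s k245 k240 2 (.d k247 k244 k251 0 1)))), (.s k149 k193
  13 (.s k213 k21 7 (.s k192 k234 6 (.s k64 k128 7 (.d k106 k127 k63 6 14)))))] .n) (.c k241 (.l (.s
  k249 k243 2 (.s k250 k242 1 (.s k240 k245 2 (.d k248 k251 k244 0 1))))) (.c k245 (.l (.s k242 k250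
  1 (.s k243 k249 2 (.s k241 k240 0 (.s k81 k162 12 (.s k89 k93 1 (.s k166 k12 14 (.d k247 k251 k4 1
  12)))))))) (.c k249 (.l (.s k250 k242 1 (.s k245 k240 2 (.s k247 k244 0 (.s k166 k4 12 (.s k243
  k251 1 (.s k81 k162 12 (.d k89 k93 k12 1 14)))))))) .n))))))) (.c k169 (.f k168 k84 13 (.q k192
  [(.s k64 k128 7 (.s k106 k127 6 (.s k149 k63 14 (.d k213 k234 k21 6 7)))), (.s k232 k212 5 (.s
  k234 k213 6 (.s k233 k235 0 (.s k214 k195 6 (.d k254 k253 k194 0 5))))), (.s k64 k128 7 (.s k106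
  k127 6 (.s k149 k63 14 (.s k193 k61 13 (.s k195 k194 0 (.s k215 k235 5 (.d k150 k60 k20 14
  8)))))))] (.c k64 (.q k124 [(.s k60 k188 7 (.s k20 k40 5 (.d k150 k215 k195 8 14))), (.s k86 k67 6
  (.s k212 k232 5 (.s k149 k23 8 (.d k213 k234 k21 6 7))))] .n) (.c k124 (.l (.s k64 k128 7 (.s k213
  k234 6 (.s k149 k21 7 (.d k106 k127 k63 6 14))))) .n)))) .n))) (.c k130 (.l (.s k125 k65 5 (.s k60
  k190 8 (.s k150 k195 14 (.d k20 k40 k215 5 8))))) (.c k150 (.f k65 k125 5 (.q k69 [(.s k77 k73 1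
  (.s k101 k117 3 (.s k97 k109 1 (.d k113 k81 k89 3 5)))), (.s k207 k138 10 (.s k223 k239 3 (.s k154
  k16 10 (.d k101 k117 k48 3 14)))), (.s k73 k77 1 (.s k138 k207 10 (.s k8 k203 8 (.s k12 k4 1 (.d
  k195 k130 k134 8 10)))))] (.c k130 (.q k190 [(.s k77 k73 1 (.s k101 k117 3 (.s k97 k109 1 (.d k113
  k81 k89 3 5)))), (.s k207 k138 10 (.s k223 k239 3 (.s k154 k16 10 (.d k101 k117 k48 3 14)))), (.s
  k73 k77 1 (.s k138 k207 10 (.s k8 k203 8 (.s k12 k4 1 (.s k93 k174 12 (.d k89 k81 k121 1 3))))))]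
  .n) (.c k190 (.l (.s k130 k195 8 (.s k77 k73 1 (.s k101 k117 3 (.s k97 k109 1 (.d k113 k81 k89 3
  5)))))) .n)))) (.c k190 (.l (.s k65 k125 5 (.s k195 k130 8 (.s k150 k60 14 (.d k215 k235 k20 5
  8))))) (.c k195 (.q k1 [(.s k3 k2 0 (.s k87 k171 13 (.s k169 k253 13 (.d k86 k84 k252 0 14)))),
  (.s k65 k125 5 (.s k169 k253 13 (.s k41 k233 7 (.s k61 k21 5 (.d k193 k129 k149 7 13))))), (.s k3
  k2 0 (.s k125 k65 5 (.s k60 k190 8 (.s k40 k20 5 (.s k41 k22 6 (.s k21 k61 5 (.d k42 k43 k63 0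
  6)))))))] .n) (.c k215 (.q k1 [(.s k169 k253 13 (.s k3 k2 0 (.s k86 k252 14 (.d k87 k84 k171 0
  13)))), (.s k65 k125 5 (.s k169 k253 13 (.s k41 k233 7 (.s k61 k21 5 (.d k193 k129 k149 7 13))))),
  (.s k3 k2 0 (.s k65 k125 5 (.s k129 k193 7 (.s k66 k192 8 (.s k67 k64 0 (.d k195 k131 k130 7
  8))))))] .n) .n))))))))))))

def t6_105 : T TT 256 :=
  (.f k170 k255 14 (.q k252 [(.s k84 k168 13 (.s k86 k87 0 (.s k2 k254 13 (.d k3 k1 k169 0 14))))]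
  (.c k1 (.q k4 [(.s k12 k8 1 (.s k166 k247 12 (.s k162 k174 1 (.d k243 k81 k89 12 14)))), (.s k84
  k168 13 (.s k86 k87 0 (.s k244 k164 11 (.s k165 k7 12 (.s k160 k175 2 (.d k240 k248 k80 1
  11))))))] (.c k247 (.l (.s k12 k8 1 (.s k84 k168 13 (.s k92 k172 11 (.s k88 k80 1 (.d k164 k244
  k240 11 13)))))) .n)) (.c k2 (.q k10 [(.s k90 k250 11 (.s k80 k95 2 (.s k240 k160 11 (.d k15 k5
  k165 2 14)))), (.s k15 k5 2 (.s k84 k168 13 (.s k86 k87 0 (.s k94 k173 12 (.d k90 k82 k250 1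
  11))))), (.s k90 k250 11 (.s k168 k84 13 (.s k169 k171 0 (.s k248 k11 12 (.s k240 k244 1 (.d k80
  k95 k160 2 11)))))), (.s k5 k15 2 (.s k168 k84 13 (.s k169 k171 0 (.s k1 k253 13 (.s k9 k13 1 (.s
  k8 k11 0 (.d k89 k251 k249 12 11)))))))] .n) (.c k3 (.f k84 k168 13 (.q k12 [(.s k4 k8 1 (.s k92
  k172 11 (.s k88 k80 1 (.d k164 k244 k240 11 13)))), (.s k8 k4 1 (.s k89 k251 12 (.s k81 k93 1 (.d
  k243 k162 k166 12 14))))] (.c k4 (.l (.s k92 k172 11 (.s k80 k88 1 (.s k95 k90 2 (.s k93 k94 0 (.s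
  k89 k81 1 (.d k86 k87 k83 0 2))))))) (.c k8 (.l (.s k92 k172 11 (.s k88 k80 1 (.s k164 k240 13 (.s
  k4 k244 11 (.s k166 k247 12 (.s k162 k174 1 (.d k243 k81 k89 12 14)))))))) (.c k87 (.q k171 [(.s
  k4 k8 1 (.s k92 k172 11 (.s k88 k80 1 (.d k164 k244 k240 11 13)))), (.s k8 k4 1 (.s k89 k251 12
  (.s k81 k93 1 (.d k243 k162 k166 12 14))))] (.c k4 (.q k5 [(.s k15 k10 2 (.s k165 k245 11 (.s k160
  k175 2 (.d k240 k80 k90 11 14)))), (.s k92 k172 11 (.s k80 k88 1 (.s k160 k240 11 (.d k165 k245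
  k175 11 2)))), (.s k15 k10 2 (.s k165 k245 11 (.s k173 k94 12 (.s k169 k161 1 (.s k1 k253 13 (.d
  k13 k14 k9 0 1)))))), (.s k10 k15 2 (.s k92 k172 11 (.s k80 k88 1 (.d k90 k95 k250 2 11))))] (.c
  k250 (.l (.s k15 k10 2 (.s k165 k245 11 (.s k240 k90 14 (.d k160 k175 k80 2 11))))) .n)) (.c k8
  (.l (.s k92 k172 11 (.s k88 k80 1 (.s k164 k240 13 (.s k4 k244 11 (.s k166 k247 12 (.s k162 k174 1
  (.d k243 k81 k89 12 14)))))))) .n))) (.c k171 (.l (.s k87 k86 0 (.s k4 k8 1 (.s k92 k172 11 (.s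
  k88 k80 1 (.d k164 k244 k240 11 13)))))) .n)))))) (.c k84 (.q k153 [(.s k17 k221 9 (.s k51 k34 4
  (.s k136 k187 4 (.d k204 k68 k102 9 14)))), (.s k136 k187 4 (.s k204 k68 9 (.s k220 k236 3 (.s k86
  k19 10 (.s k2 k254 13 (.d k3 k1 k169 0 14)))))), (.s k17 k221 9 (.s k51 k34 4 (.s k185 k118 10 (.s
  k169 k137 3 (.s k1 k253 13 (.d k3 k2 k86 0 14))))))] (.c k51 (.q k64 [(.s k106 k127 6 (.s k42 k234
  7 (.s k63 k21 6 (.d k192 k128 k149 7 14)))), (.s k106 k127 6 (.s k192 k128 7 (.s k200 k59 12 (.s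
  k204 k196 1 (.d k136 k187 k68 4 9))))), (.s k106 k127 6 (.s k59 k200 12 (.s k187 k136 4 (.s k251
  k123 7 (.s k8 k89 12 (.d k42 k25 k234 4 7))))))] (.c k63 (.l (.s k17 k221 9 (.s k127 k106 6 (.s
  k128 k192 7 (.s k149 k191 6 (.s k145 k157 1 (.s k81 k209 7 (.d k162 k243 k179 12 4)))))))) (.c
  k106 (.l (.s k17 k221 9 (.s k128 k192 7 (.s k149 k191 6 (.s k145 k157 1 (.s k81 k209 7 (.d k162
  k243 k179 12 4))))))) (.c k119 (.l (.s k187 k136 4 (.s k106 k127 6 (.s k42 k234 7 (.s k63 k21 6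
  (.d k192 k128 k149 7 14)))))) (.c k127 (.l (.s k128 k192 7 (.s k187 k136 4 (.s k191 k149 6 (.s
  k179 k183 1 (.s k166 k140 6 (.d k162 k145 k174 4 1))))))) (.c k187 (.q k119 [(.s k106 k127 6 (.s
  k42 k234 7 (.s k63 k21 6 (.d k192 k128 k149 7 14)))), (.s k68 k102 4 (.s k72 k76 1 (.s k136 k204 9
  (.s k200 k8 7 (.d k106 k127 k59 6 12))))), (.s k68 k102 4 (.s k72 k76 1 (.s k136 k204 9 (.s k8
  k200 7 (.s k12 k4 1 (.d k192 k128 k132 7 9))))))] .n) (.c k191 (.l (.s k192 k128 7 (.s k106 k127 6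
  (.s k63 k149 14 (.d k42 k21 k234 6 7))))) .n))))))) (.c k204 (.q k106 [(.s k42 k234 7 (.s k63 k21
  6 (.s k64 k127 6 (.d k192 k128 k149 7 14)))), (.s k136 k187 4 (.s k200 k59 12 (.s k8 k72 7 (.s
  k234 k42 7 (.d k251 k217 k89 4 12))))), (.s k59 k200 12 (.s k64 k127 6 (.s k192 k128 7 (.s k63
  k149 14 (.s k51 k55 1 (.d k17 k221 k34 9 4))))))] (.c k221 (.q k238 [(.s k42 k234 7 (.s k63 k21 6
  (.s k64 k127 6 (.d k192 k128 k149 7 14)))), (.s k34 k102 9 (.s k234 k42 7 (.s k226 k230 1 (.s k162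
  k98 7 (.d k166 k174 k46 1 9))))), (.s k34 k102 9 (.s k51 k17 4 (.s k59 k200 12 (.s k63 k55 1 (.s
  k64 k127 6 (.d k192 k149 k128 14 7))))))] .n) (.c k238 (.l (.s k221 k17 9 (.s k42 k234 7 (.s k63
  k21 6 (.s k64 k127 6 (.d k192 k128 k149 7 14)))))) .n))) .n))) (.c k86 (.q k166 [(.s k4 k247 12
  (.s k12 k8 1 (.s k162 k174 1 (.d k243 k81 k89 12 14)))), (.s k168 k84 13 (.s k169 k171 0 (.s k172
  k163 2 (.s k160 k164 1 (.s k174 k162 1 (.d k175 k173 k165 0 2)))))), (.s k4 k247 12 (.s k12 k8 1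
  (.s k168 k84 13 (.s k169 k171 0 (.d k172 k163 k92 2 11)))))] (.c k4 (.l (.s k162 k174 1 (.s k168
  k84 13 (.s k169 k171 0 (.s k172 k163 2 (.s k12 k92 11 (.d k243 k89 k81 14 12))))))) (.c k67 (.q
  k124 [(.s k4 k247 12 (.s k12 k8 1 (.s k162 k174 1 (.d k243 k81 k89 12 14)))), (.s k60 k188 7 (.s
  k20 k40 5 (.s k84 k168 13 (.s k104 k64 5 (.d k148 k212 k192 7 13)))))] .n) (.c k124 (.q k67 [(.s
  k4 k247 12 (.s k12 k8 1 (.s k162 k174 1 (.d k243 k81 k89 12 14)))), (.s k168 k84 13 (.s k169 k171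
  0 (.s k172 k163 2 (.s k160 k164 1 (.s k174 k162 1 (.d k175 k173 k165 0 2)))))), (.s k4 k247 12 (.s
  k12 k8 1 (.s k168 k84 13 (.s k169 k171 0 (.d k172 k163 k92 2 11)))))] (.c k4 (.l (.s k162 k174 1
  (.s k168 k84 13 (.s k169 k171 0 (.s k172 k163 2 (.s k12 k92 11 (.d k243 k89 k81 14 12))))))) .n))
  .n)))) (.c k87 (.l (.s k168 k84 13 (.s k169 k171 0 (.s k3 k86 14 (.d k1 k2 k253 0 13))))) (.c k168
  (.q k102 [(.s k34 k238 9 (.s k51 k17 4 (.s k68 k119 4 (.d k204 k136 k153 9 14)))), (.s k68 k119 4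
  (.s k204 k136 9 (.s k236 k220 3 (.s k169 k35 10 (.s k1 k253 13 (.d k3 k2 k86 0 14)))))), (.s k34
  k238 9 (.s k51 k17 4 (.s k118 k185 10 (.s k86 k70 3 (.s k2 k254 13 (.d k3 k1 k169 0 14))))))] (.c
  k51 (.q k138 [(.s k207 k69 10 (.s k222 k237 4 (.s k238 k34 9 (.s k206 k254 3 (.d k154 k186 k50 3
  13))))), (.s k154 k186 3 (.s k16 k223 10 (.s k48 k32 3 (.d k207 k69 k101 10 14)))), (.s k154 k186
  3 (.s k206 k50 13 (.s k2 k70 9 (.s k3 k1 0 (.d k86 k254 k169 13 14))))), (.s k207 k69 10 (.s k222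
  k237 4 (.s k238 k34 9 (.s k206 k254 3 (.s k204 k205 0 (.d k68 k119 k136 4 9))))))] (.c k119 (.q
  k187 [(.s k154 k186 3 (.s k16 k223 10 (.s k207 k69 10 (.d k48 k32 k101 3 14)))), (.s k154 k186 3
  (.s k206 k50 13 (.s k2 k70 9 (.s k3 k1 0 (.d k86 k254 k169 13 14))))), (.s k69 k207 10 (.s k136
  k153 4 (.s k68 k204 9 (.s k70 k71 0 (.s k86 k118 3 (.d k2 k206 k254 9 13))))))] (.c k117 (.l (.s
  k207 k69 10 (.s k154 k186 3 (.s k48 k101 14 (.d k16 k32 k223 3 10))))) .n)) (.c k187 (.l (.s k119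
  k68 4 (.s k154 k186 3 (.s k16 k223 10 (.s k48 k32 3 (.d k207 k69 k101 10 14)))))) .n))) (.c k204
  (.q k1 [(.s k169 k253 13 (.d k3 k2 k86 0 14)), (.s k169 k253 13 (.s k236 k35 10 (.s k238 k34 9 (.s
  k237 k239 0 (.s k207 k222 4 (.s k69 k138 10 (.d k101 k33 k117 9 3))))))), (.s k2 k3 0 (.s k68 k119
  4 (.s k86 k254 13 (.s k70 k118 3 (.s k69 k71 0 (.d k138 k207 k206 10 9))))))] (.c k221 (.l (.s
  k238 k34 9 (.s k3 k2 0 (.d k169 k253 k86 13 14)))) (.c k238 (.q k221 [(.s k169 k253 13 (.d k3 k2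
  k86 0 14)), (.s k17 k153 9 (.s k33 k49 3 (.s k34 k51 4 (.s k35 k32 0 (.d k169 k236 k253 10
  13))))), (.s k2 k3 0 (.s k17 k153 9 (.s k51 k34 4 (.s k86 k254 13 (.d k118 k70 k185 3 10)))))] .n)
  .n))) .n))) (.c k169 (.f k168 k84 13 (.q k128 [(.s k149 k191 6 (.s k21 k213 7 (.s k63 k42 6 (.d
  k192 k64 k106 7 14)))), (.s k148 k188 5 (.s k192 k64 7 (.s k104 k60 13 (.d k232 k212 k40 5 7))))]
  (.c k41 (.q k233 [(.s k148 k188 5 (.s k192 k64 7 (.s k232 k212 5 (.d k104 k40 k60 7 13)))), (.s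
  k149 k191 6 (.s k21 k213 7 (.s k63 k42 6 (.d k192 k64 k106 7 14)))), (.s k148 k188 5 (.s k149 k191
  6 (.s k150 k151 0 (.s k195 k214 6 (.d k130 k190 k65 5 8)))))] .n) (.c k64 (.l (.s k148 k188 5 (.s
  k149 k191 6 (.s k21 k213 7 (.s k63 k42 6 (.s k192 k106 14 (.s k104 k60 13 (.d k232 k212 k40 5
  7)))))))) (.c k192 (.l (.s k188 k148 5 (.s k60 k124 7 (.s k20 k40 5 (.s k150 k215 8 (.s k190 k130
  5 (.d k191 k189 k149 0 6))))))) (.c k233 (.q k41 [(.s k148 k188 5 (.s k192 k64 7 (.s k232 k212 5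
  (.d k104 k40 k60 7 13)))), (.s k149 k191 6 (.s k21 k213 7 (.s k63 k42 6 (.d k192 k64 k106 7
  14))))] (.c k64 (.l (.s k149 k191 6 (.s k21 k213 7 (.s k1 k61 5 (.s k3 k2 0 (.s k60 k22 6 (.d k188
  k148 k124 5 7))))))) (.c k192 (.l (.s k149 k191 6 (.s k188 k148 5 (.s k60 k124 7 (.s k3 k22 6 (.s
  k1 k2 0 (.d k21 k61 k213 5 7))))))) .n))) .n)))))) (.c k171 (.l (.s k84 k168 13 (.s k86 k87 0 (.s
  k3 k169 14 (.d k2 k1 k254 0 13))))) (.c k254 (.l (.s k168 k84 13 (.s k169 k171 0 (.s k1 k253 13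
  (.d k3 k2 k86 0 14))))) .n))))))))))))

def t6_106 : T TT 256 :=
  (.f k170 k255 14 (.q k252 [(.s k84 k168 13 (.s k86 k87 0 (.s k2 k254 13 (.d k3 k1 k169 0 14))))]
  (.c k1 (.q k4 [(.s k12 k8 1 (.s k166 k247 12 (.s k162 k174 1 (.d k243 k81 k89 12 14)))), (.s k84
  k168 13 (.s k86 k87 0 (.s k244 k164 11 (.s k165 k7 12 (.s k160 k175 2 (.d k240 k248 k80 1
  11))))))] (.c k247 (.l (.s k12 k8 1 (.s k84 k168 13 (.s k92 k172 11 (.s k88 k80 1 (.d k164 k244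
  k240 11 13)))))) .n)) (.c k2 (.q k10 [(.s k90 k250 11 (.s k80 k95 2 (.s k240 k160 11 (.d k15 k5
  k165 2 14)))), (.s k15 k5 2 (.s k84 k168 13 (.s k86 k87 0 (.s k94 k173 12 (.d k90 k82 k250 1
  11))))), (.s k90 k250 11 (.s k168 k84 13 (.s k169 k171 0 (.s k248 k11 12 (.s k240 k244 1 (.d k80
  k95 k160 2 11)))))), (.s k5 k15 2 (.s k168 k84 13 (.s k169 k171 0 (.s k1 k253 13 (.s k9 k13 1 (.s
  k8 k11 0 (.d k89 k251 k249 12 11)))))))] .n) (.c k3 (.f k168 k84 13 (.q k12 [(.s k4 k8 1 (.s k166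
  k247 12 (.s k162 k174 1 (.d k243 k81 k89 12 14)))), (.s k172 k92 11 (.s k160 k164 1 (.s k165 k175
  2 (.s k5 k245 11 (.s k15 k10 2 (.d k240 k80 k90 11 14))))))] (.c k4 (.l (.s k172 k92 11 (.s k164
  k160 1 (.s k88 k240 13 (.s k8 k248 11 (.s k89 k251 12 (.s k81 k93 1 (.d k243 k162 k166 12
  14)))))))) (.c k87 (.l (.s k171 k169 0 (.s k4 k8 1 (.s k166 k247 12 (.s k162 k174 1 (.d k243 k81
  k89 12 14)))))) (.c k171 (.q k87 [(.s k4 k8 1 (.s k166 k247 12 (.s k162 k174 1 (.d k243 k81 k89 12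
  14)))), (.s k172 k92 11 (.s k160 k164 1 (.s k165 k175 2 (.s k5 k245 11 (.s k15 k10 2 (.d k240 k80
  k90 11 14))))))] (.c k4 (.l (.s k172 k92 11 (.s k164 k160 1 (.s k88 k240 13 (.s k8 k248 11 (.s k89
  k251 12 (.s k81 k93 1 (.d k243 k162 k166 12 14)))))))) .n)) .n))))) (.c k84 (.q k150 [(.s k20 k215
  8 (.s k60 k40 5 (.s k130 k190 5 (.d k195 k65 k105 8 14)))), (.s k130 k190 5 (.s k195 k65 8 (.s
  k214 k233 6 (.s k86 k22 7 (.s k2 k254 13 (.d k3 k1 k169 0 14)))))), (.s k20 k215 8 (.s k60 k40 5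
  (.s k188 k124 7 (.s k169 k131 6 (.s k1 k253 13 (.d k3 k2 k86 0 14))))))] (.c k60 (.q k192 [(.s
  k128 k64 7 (.s k212 k232 5 (.s k215 k20 8 (.s k213 k214 0 (.d k149 k191 k21 6 7))))), (.s k212
  k232 5 (.s k215 k20 8 (.s k214 k213 0 (.s k195 k233 6 (.d k130 k190 k65 5 8))))), (.s k128 k64 7
  (.s k149 k191 6 (.s k148 k151 0 (.s k188 k168 5 (.s k131 k169 6 (.d k130 k190 k129 5 0)))))), (.s
  k128 k64 7 (.s k149 k191 6 (.s k213 k21 7 (.s k215 k20 8 (.d k212 k214 k232 0 5)))))] (.c k125 (.l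
  (.s k190 k130 5 (.s k128 k64 7 (.s k149 k191 6 (.s k212 k232 5 (.s k213 k21 7 (.d k215 k214 k20 0
  8))))))) (.c k190 (.q k125 [(.s k65 k105 5 (.s k195 k130 8 (.s k212 k232 5 (.s k215 k20 8 (.d k214
  k213 k233 0 6))))), (.s k64 k128 7 (.s k65 k105 5 (.s k66 k67 0 (.s k3 k129 8 (.s k1 k2 0 (.d k169
  k86 k253 14 13)))))), (.s k212 k232 5 (.s k215 k20 8 (.s k213 k214 0 (.s k149 k21 7 (.d k128 k191
  k64 6 7)))))] (.c k169 (.l (.s k128 k64 7 (.s k149 k191 6 (.s k213 k21 7 (.s k215 k20 8 (.d k212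
  k214 k232 0 5)))))) .n)) (.c k232 (.l (.s k128 k64 7 (.s k190 k130 5 (.s k191 k149 6 (.s k188 k189
  0 (.s k168 k148 5 (.d k169 k171 k131 0 6))))))) .n)))) (.c k195 (.q k146 [(.s k154 k158 1 (.s k16
  k223 10 (.s k48 k32 3 (.s k138 k186 3 (.d k207 k69 k101 10 14))))), (.s k130 k190 5 (.s k154 k158
  1 (.s k138 k186 3 (.s k142 k134 1 (.d k178 k162 k166 3 5))))), (.s k130 k190 5 (.s k154 k158 1 (.s
  k16 k223 10 (.s k81 k211 8 (.d k162 k243 k178 12 3))))), (.s k130 k190 5 (.s k162 k178 3 (.s k81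
  k243 12 (.s k89 k93 1 (.d k211 k16 k28 8 10)))))] (.c k215 (.q k235 [(.s k154 k158 1 (.s k16 k223
  10 (.s k48 k32 3 (.s k138 k186 3 (.d k207 k69 k101 10 14))))), (.s k130 k190 5 (.s k154 k158 1 (.s
  k138 k186 3 (.s k142 k134 1 (.d k178 k162 k166 3 5))))), (.s k130 k190 5 (.s k162 k178 3 (.s k81
  k243 12 (.s k89 k93 1 (.d k211 k16 k28 8 10))))), (.s k40 k105 8 (.s k20 k60 5 (.s k154 k158 1 (.s
  k16 k223 10 (.s k28 k24 1 (.d k211 k81 k89 8 10))))))] .n) (.c k235 (.l (.s k215 k20 8 (.s k130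
  k190 5 (.s k154 k158 1 (.s k16 k223 10 (.s k81 k211 8 (.d k162 k243 k178 12 3))))))) .n))) .n)))
  (.c k86 (.f k168 k84 13 (.q k166 [(.s k4 k247 12 (.s k12 k8 1 (.s k162 k174 1 (.d k243 k81 k89 12
  14)))), (.s k169 k171 0 (.s k172 k163 2 (.s k160 k164 1 (.s k174 k162 1 (.d k175 k173 k165 0
  2))))), (.s k4 k247 12 (.s k12 k8 1 (.s k169 k171 0 (.d k172 k163 k92 2 11))))] (.c k4 (.l (.s
  k162 k174 1 (.s k169 k171 0 (.s k172 k163 2 (.s k12 k92 11 (.d k243 k89 k81 14 12)))))) (.c k66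
  (.q k126 [(.s k4 k247 12 (.s k12 k8 1 (.s k162 k174 1 (.d k243 k81 k89 12 14)))), (.s k169 k171 0
  (.s k172 k163 2 (.s k160 k164 1 (.s k174 k162 1 (.d k175 k173 k165 0 2))))), (.s k4 k247 12 (.s
  k12 k8 1 (.s k169 k171 0 (.d k172 k163 k92 2 11))))] (.c k4 (.l (.s k162 k174 1 (.s k169 k171 0
  (.s k172 k163 2 (.s k12 k92 11 (.d k243 k89 k81 14 12)))))) .n)) (.c k126 (.q k66 [(.s k4 k247 12
  (.s k12 k8 1 (.s k162 k174 1 (.d k243 k81 k89 12 14)))), (.s k169 k171 0 (.s k172 k163 2 (.s k160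
  k164 1 (.s k174 k162 1 (.d k175 k173 k165 0 2))))), (.s k4 k247 12 (.s k12 k8 1 (.s k169 k171 0
  (.d k172 k163 k92 2 11))))] (.c k4 (.l (.s k162 k174 1 (.s k169 k171 0 (.s k172 k163 2 (.s k12 k92
  11 (.d k243 k89 k81 14 12)))))) .n)) .n))))) (.c k87 (.l (.s k168 k84 13 (.s k169 k171 0 (.s k3
  k86 14 (.d k1 k2 k253 0 13))))) (.c k168 (.q k102 [(.s k34 k238 9 (.s k51 k17 4 (.s k68 k119 4 (.d
  k204 k136 k153 9 14)))), (.s k68 k119 4 (.s k204 k136 9 (.s k236 k220 3 (.s k169 k35 10 (.s k1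
  k253 13 (.d k3 k2 k86 0 14)))))), (.s k34 k238 9 (.s k51 k17 4 (.s k118 k185 10 (.s k86 k70 3 (.s
  k2 k254 13 (.d k3 k1 k169 0 14))))))] (.c k51 (.q k162 [(.s k166 k174 1 (.s k4 k247 12 (.s k243
  k81 12 (.d k12 k8 k89 1 14)))), (.s k166 k174 1 (.s k230 k38 7 (.s k243 k81 12 (.s k204 k217 6 (.d
  k68 k119 k136 4 9))))), (.s k34 k238 9 (.s k81 k243 12 (.s k98 k226 7 (.s k115 k64 4 (.d k89 k93
  k76 1 6))))), (.s k119 k68 4 (.s k166 k174 1 (.s k230 k38 7 (.s k247 k4 12 (.s k55 k183 7 (.d k196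
  k213 k149 4 12))))))] (.c k93 (.l (.s k243 k81 12 (.s k166 k174 1 (.s k12 k89 14 (.d k4 k8 k247 1
  12))))) (.c k119 (.q k187 [(.s k166 k174 1 (.s k243 k81 12 (.s k12 k89 14 (.d k4 k8 k247 1 12)))),
  (.s k153 k136 4 (.s k166 k174 1 (.s k179 k140 6 (.s k128 k145 4 (.d k191 k183 k149 1 6))))), (.s
  k34 k238 9 (.s k81 k243 12 (.s k98 k226 7 (.s k115 k64 4 (.d k89 k93 k76 1 6)))))] (.c k93 (.l (.s
  k243 k81 12 (.s k166 k174 1 (.s k12 k89 14 (.d k4 k8 k247 1 12))))) (.c k166 (.l (.s k34 k238 9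
  (.s k81 k243 12 (.s k89 k93 1 (.s k115 k76 6 (.d k98 k64 k226 4 7)))))) .n))) (.c k166 (.l (.s k34
  k238 9 (.s k81 k243 12 (.s k89 k93 1 (.s k115 k76 6 (.d k98 k64 k226 4 7)))))) (.c k187 (.l (.s
  k119 k68 4 (.s k166 k174 1 (.s k4 k247 12 (.s k12 k8 1 (.d k243 k81 k89 12 14)))))) .n))))) (.c
  k204 (.q k116 [(.s k119 k68 4 (.s k118 k117 0 (.s k51 k185 10 (.d k34 k238 k17 9 4)))), (.s k48
  k184 9 (.s k16 k32 3 (.s k154 k223 10 (.s k207 k101 14 (.d k138 k186 k69 3 10))))), (.s k68 k119 4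
  (.s k100 k84 3 (.s k101 k103 0 (.s k71 k86 4 (.d k69 k70 k117 0 3)))))] (.c k221 (.l (.s k238 k34
  9 (.s k48 k184 9 (.s k16 k32 3 (.s k154 k223 10 (.s k138 k186 3 (.d k207 k69 k101 10 14))))))) (.c
  k238 (.q k221 [(.s k17 k153 9 (.s k51 k34 4 (.s k119 k68 4 (.d k118 k117 k185 0 10)))), (.s k48
  k184 9 (.s k16 k32 3 (.s k154 k223 10 (.s k207 k101 14 (.d k138 k186 k69 3 10)))))] .n) .n)))
  .n))) (.c k169 (.f k168 k84 13 (.q k240 [(.s k80 k160 11 (.s k90 k95 2 (.s k10 k250 11 (.d k15 k5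
  k165 2 14)))), (.s k248 k244 1 (.s k8 k88 11 (.s k89 k251 12 (.s k81 k93 1 (.s k243 k162 12 (.d
  k12 k4 k166 1 14))))))] (.c k43 (.q k232 [(.s k80 k160 11 (.s k90 k95 2 (.s k10 k250 11 (.d k15 k5
  k165 2 14)))), (.s k104 k40 7 (.s k192 k212 5 (.s k128 k64 7 (.d k148 k188 k60 5 13))))] .n) (.c
  k80 (.l (.s k248 k244 1 (.s k88 k8 11 (.s k164 k12 13 (.s k160 k172 1 (.s k165 k175 2 (.s k5 k245
  11 (.d k15 k10 k90 2 14)))))))) (.c k232 (.q k43 [(.s k80 k160 11 (.s k90 k95 2 (.s k10 k250 11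
  (.d k15 k5 k165 2 14)))), (.s k248 k244 1 (.s k8 k88 11 (.s k89 k251 12 (.s k81 k93 1 (.s k243
  k162 12 (.d k12 k4 k166 1 14))))))] (.c k80 (.l (.s k248 k244 1 (.s k88 k8 11 (.s k164 k12 13 (.s
  k160 k172 1 (.s k165 k175 2 (.s k5 k245 11 (.d k15 k10 k90 2 14)))))))) .n)) .n))))) (.c k171 (.l
  (.s k84 k168 13 (.s k86 k87 0 (.s k3 k169 14 (.d k2 k1 k254 0 13))))) (.c k254 (.l (.s k168 k84 13
  (.s k169 k171 0 (.s k1 k253 13 (.d k3 k2 k86 0 14))))) .n))))))))))))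

def t6_107 : T TT 256 :=
  (.f k255 k170 14 (.q k165 [(.s k5 k245 11 (.s k15 k10 2 (.s k90 k240 14 (.d k95 k80 k175 2 11)))),
  (.s k245 k5 11 (.s k240 k250 2 (.s k80 k160 11 (.d k90 k95 k15 2 14))))] (.c k5 (.q k4 [(.s k166
  k247 12 (.s k12 k8 1 (.s k89 k243 14 (.d k93 k81 k174 1 12)))), (.s k166 k247 12 (.s k164 k167 0
  (.s k84 k244 11 (.s k252 k168 13 (.s k253 k254 0 (.s k169 k1 13 (.d k86 k87 k3 0 14)))))))] (.c
  k166 (.q k86 [(.s k244 k7 12 (.d k84 k87 k164 0 11)), (.s k84 k87 0 (.s k252 k168 13 (.s k169 k3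
  14 (.d k253 k254 k1 0 13))))] (.c k84 (.q k173 [(.s k169 k161 1 (.s k1 k253 13 (.d k3 k2 k252 0
  14))), (.s k12 k8 1 (.s k174 k93 12 (.s k172 k175 0 (.s k252 k92 11 (.s k94 k15 12 (.d k254 k253
  k14 0 11))))))] (.c k162 (.q k174 [(.d k12 k8 k93 1 12), (.s k169 k161 1 (.s k1 k253 13 (.d k3 k2
  k252 0 14)))] .n) (.c k174 (.q k162 [(.s k169 k161 1 (.s k1 k253 13 (.d k3 k2 k252 0 14))), (.s
  k81 k243 12 (.s k89 k93 1 (.s k83 k92 2 (.s k80 k82 0 (.s k240 k160 11 (.d k90 k95 k15 2 14))))))]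
  .n) (.c k252 (.l (.s k12 k8 1 (.s k169 k161 1 (.s k253 k1 13 (.d k93 k13 k174 11 12))))) (.c k253
  (.l (.s k12 k8 1 (.s k169 k161 1 (.s k174 k93 12 (.s k172 k175 0 (.d k252 k92 k3 11 14))))))
  .n))))) (.c k87 (.l (.s k244 k7 12 (.s k84 k164 11 (.s k252 k168 13 (.s k169 k3 14 (.d k253 k254
  k1 0 13)))))) (.c k162 (.q k174 [(.d k12 k8 k93 1 12), (.s k84 k87 0 (.d k244 k164 k7 11 12))] .n)
  (.c k174 (.q k162 [(.s k244 k7 12 (.d k84 k87 k164 0 11)), (.s k81 k243 12 (.s k89 k93 1 (.s k83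
  k92 2 (.s k80 k82 0 (.s k240 k160 11 (.d k90 k95 k15 2 14))))))] .n) .n))))) (.c k247 (.l (.s k12
  k8 1 (.s k93 k174 12 (.s k89 k81 1 (.s k13 k241 13 (.s k15 k14 0 (.s k90 k240 14 (.d k95 k80 k175
  2 11)))))))) .n))) (.c k10 (.l (.s k245 k5 11 (.s k240 k250 2 (.s k90 k15 14 (.d k80 k95 k160 2
  11))))) (.c k15 (.q k1 [(.s k5 k245 11 (.s k13 k9 1 (.s k89 k241 13 (.s k93 k81 1 (.d k253 k173
  k169 11 13))))), (.s k3 k2 0 (.s k87 k171 13 (.s k86 k84 0 (.d k169 k253 k252 13 14)))), (.s k3 k2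
  0 (.s k245 k5 11 (.s k240 k250 2 (.s k160 k80 11 (.s k161 k82 12 (.s k81 k241 11 (.d k162 k163
  k243 0 12)))))))] (.c k3 (.l (.s k5 k245 11 (.s k169 k253 13 (.s k161 k173 1 (.s k241 k81 11 (.d
  k13 k9 k89 1 13)))))) .n)) (.c k80 (.q k1 [(.s k3 k2 0 (.s k169 k253 13 (.s k86 k252 14 (.d k87
  k84 k171 0 13)))), (.s k5 k245 11 (.s k169 k253 13 (.s k161 k173 1 (.s k241 k81 11 (.d k13 k9 k89
  1 13)))))] (.c k169 (.l (.s k5 k245 11 (.s k13 k9 1 (.s k15 k10 2 (.s k89 k241 13 (.s k93 k81 1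
  (.d k12 k14 k174 0 12))))))) (.c k253 (.l (.s k3 k2 0 (.s k5 k245 11 (.s k87 k171 13 (.s k86 k84 0
  (.s k7 k244 12 (.d k15 k10 k11 2 1))))))) .n))) (.c k90 (.f k245 k5 11 (.f k250 k240 2 (.q k247
  [(.s k243 k251 1 (.s k81 k162 12 (.s k89 k93 1 (.d k166 k4 k12 12 14)))), (.s k4 k166 12 (.s k244
  k246 0 (.s k86 k7 12 (.d k84 k87 k164 0 11)))), (.s k243 k251 1 (.s k246 k244 0 (.s k252 k249 2
  (.d k254 k253 k242 0 1))))] (.c k4 (.q k7 [(.d k244 k246 k86 0 12)] (.c k86 (.l (.s k243 k251 1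
  (.s k246 k244 0 (.s k252 k249 2 (.d k254 k253 k242 0 1))))) (.c k244 (.l (.s k87 k167 11 (.s k3
  k171 13 (.s k1 k2 0 (.s k169 k253 13 (.d k86 k84 k252 0 14)))))) (.c k246 (.l (.s k86 k244 12 (.d
  k87 k84 k167 0 11))) .n)))) (.c k7 (.l (.s k4 k166 12 (.s k243 k251 1 (.s k246 k244 0 (.s k252
  k249 2 (.d k254 k242 k253 1 0)))))) .n))))) (.c k95 (.q k1 [(.s k3 k2 0 (.s k169 k253 13 (.s k86
  k252 14 (.d k87 k84 k171 0 13)))), (.s k5 k245 11 (.s k169 k253 13 (.s k161 k173 1 (.s k241 k81 11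
  (.d k13 k9 k89 1 13)))))] (.c k169 (.l (.s k5 k245 11 (.s k13 k9 1 (.s k15 k10 2 (.s k89 k241 13
  (.s k93 k81 1 (.d k12 k14 k174 0 12))))))) (.c k253 (.l (.s k3 k2 0 (.s k5 k245 11 (.s k87 k171 13
  (.s k86 k84 0 (.s k7 k244 12 (.d k15 k10 k11 2 1))))))) .n))) (.c k240 (.q k1 [(.s k5 k245 11 (.s
  k169 k253 13 (.s k161 k173 1 (.s k241 k81 11 (.d k13 k9 k89 1 13))))), (.s k3 k2 0 (.s k87 k171 13
  (.s k86 k84 0 (.d k169 k253 k252 13 14))))] (.c k169 (.l (.s k5 k245 11 (.s k13 k9 1 (.s k15 k10 2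
  (.s k89 k241 13 (.s k93 k81 1 (.d k12 k14 k174 0 12))))))) (.c k253 (.l (.s k3 k2 0 (.s k5 k245 11
  (.s k87 k171 13 (.s k86 k84 0 (.s k7 k244 12 (.d k15 k10 k11 2 1))))))) .n))) (.c k245 (.q k253
  [(.s k169 k1 13 (.s k252 k254 0 (.s k84 k168 13 (.d k86 k87 k3 0 14)))), (.s k169 k1 13 (.s k173
  k161 1 (.s k93 k13 11 (.s k12 k174 12 (.s k4 k8 1 (.s k166 k247 12 (.d k89 k81 k243 1 14)))))))]
  (.c k1 (.l (.s k252 k254 0 (.s k84 k168 13 (.s k86 k87 0 (.s k244 k7 12 (.s k240 k248 1 (.s k80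
  k160 11 (.d k90 k95 k15 2 14)))))))) (.c k169 (.f k252 k254 0 (.q k86 [(.d k84 k168 k87 13 0), (.s
  k244 k7 12 (.s k240 k248 1 (.s k80 k160 11 (.d k90 k95 k15 2 14))))] (.c k168 (.q k171 [(.d k87
  k84 k3 0 13), (.s k244 k7 12 (.s k240 k248 1 (.s k80 k160 11 (.d k90 k95 k15 2 14))))] .n) (.c
  k171 (.l (.s k168 k84 13 (.s k244 k7 12 (.s k240 k248 1 (.s k80 k160 11 (.d k90 k95 k15 2 14))))))
  .n)))) .n))) (.c k250 (.l (.s k5 k245 11 (.s k15 k10 2 (.s k90 k240 14 (.d k95 k80 k175 2 11)))))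
  .n)))))))))))

def t6_108 : T TT 256 :=
  (.f k255 k170 14 (.q k106 [(.s k64 k127 6 (.s k192 k128 7 (.s k149 k63 14 (.d k213 k234 k21 6
  7))))] (.c k21 (.q k1 [(.s k169 k253 13 (.s k3 k2 0 (.s k86 k252 14 (.d k87 k84 k171 0 13)))), (.s
  k64 k127 6 (.s k192 k128 7 (.s k213 k234 6 (.s k253 k169 13 (.s k193 k233 5 (.s k65 k129 7 (.d
  k195 k130 k194 8 0))))))), (.s k3 k2 0 (.s k64 k127 6 (.s k192 k128 7 (.s k66 k129 8 (.s k86 k126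
  5 (.d k87 k84 k171 0 13))))))] (.c k171 (.l (.s k3 k2 0 (.s k127 k64 6 (.s k63 k191 7 (.s k43 k23
  5 (.d k169 k232 k253 8 13)))))) .n)) (.c k63 (.q k1 [(.s k3 k2 0 (.s k87 k171 13 (.s k86 k84 0 (.d
  k169 k253 k252 13 14)))), (.s k64 k127 6 (.s k192 k128 7 (.s k213 k234 6 (.s k253 k169 13 (.s k193
  k233 5 (.s k65 k129 7 (.d k195 k130 k194 8 0))))))), (.s k3 k2 0 (.s k64 k127 6 (.s k192 k128 7
  (.s k66 k129 8 (.s k86 k126 5 (.d k87 k84 k171 0 13))))))] (.c k171 (.l (.s k3 k2 0 (.s k64 k127 6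
  (.s k169 k253 13 (.s k86 k252 14 (.s k192 k128 7 (.d k66 k126 k129 5 8))))))) .n)) (.c k64 (.q k48
  [(.s k16 k32 3 (.s k117 k186 10 (.s k154 k223 10 (.d k101 k69 k207 3 14)))), (.s k16 k32 3 (.s
  k154 k223 10 (.s k58 k202 11 (.s k63 k53 2 (.s k21 k42 6 (.d k149 k213 k192 7 14)))))), (.s k117
  k186 10 (.s k101 k69 3 (.s k96 k111 2 (.s k192 k144 11 (.s k149 k63 14 (.d k213 k234 k21 6
  7))))))] (.c k101 (.q k87 [(.s k3 k171 13 (.s k86 k84 0 (.s k169 k252 14 (.d k1 k2 k253 0 13)))),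
  (.s k3 k171 13 (.s k2 k1 0 (.s k18 k33 4 (.s k34 k50 3 (.s k17 k51 4 (.d k16 k32 k19 3 0)))))),
  (.s k3 k171 13 (.s k18 k33 4 (.s k86 k84 0 (.s k154 k222 9 (.d k16 k32 k223 3 10)))))] (.c k3 (.l
  (.s k84 k86 0 (.s k117 k186 10 (.s k252 k168 13 (.s k116 k184 9 (.s k68 k100 3 (.d k119 k102 k118
  4 0))))))) (.c k32 (.q k239 [(.s k3 k171 13 (.s k86 k84 0 (.s k169 k252 14 (.d k1 k2 k253 0
  13)))), (.s k3 k171 13 (.s k18 k33 4 (.s k223 k207 3 (.s k16 k154 10 (.d k19 k17 k155 0 9))))),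
  (.s k86 k84 0 (.s k223 k207 3 (.s k16 k154 10 (.s k19 k155 9 (.s k17 k18 0 (.d k153 k221 k220 9
  10))))))] .n) (.c k168 (.l (.s k86 k84 0 (.s k3 k171 13 (.s k169 k252 14 (.d k1 k2 k253 0 13)))))
  (.c k169 (.l (.s k32 k16 3 (.s k84 k86 0 (.s k3 k171 13 (.s k168 k252 13 (.s k100 k236 9 (.s k204
  k152 13 (.d k68 k116 k136 3 9)))))))) (.c k171 (.l (.s k32 k16 3 (.s k84 k86 0 (.s k168 k252 13
  (.s k100 k236 9 (.s k204 k152 13 (.d k68 k116 k136 3 9))))))) (.c k239 (.l (.s k32 k16 3 (.s k3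
  k171 13 (.s k1 k2 0 (.s k86 k84 0 (.d k169 k253 k252 13 14)))))) .n))))))) (.c k154 (.q k84 [(.s
  k86 k87 0 (.s k252 k168 13 (.s k253 k254 0 (.d k169 k1 k3 13 14)))), (.s k16 k32 3 (.s k152 k220 9
  (.s k100 k204 13 (.s k116 k68 3 (.d k252 k184 k168 9 13)))))] (.c k138 (.l (.s k186 k117 10 (.s
  k86 k87 0 (.s k252 k168 13 (.s k169 k3 14 (.d k253 k254 k1 0 13)))))) (.c k168 (.l (.s k16 k32 3
  (.s k86 k87 0 (.s k152 k220 9 (.s k100 k204 13 (.s k116 k68 3 (.s k101 k71 4 (.d k117 k69 k186 3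
  10)))))))) (.c k186 (.q k138 [(.s k86 k87 0 (.s k252 k168 13 (.s k169 k3 14 (.d k253 k254 k1 0
  13)))), (.s k69 k207 10 (.s k101 k117 3 (.s k96 k111 2 (.s k192 k144 11 (.s k213 k234 6 (.d k149
  k63 k21 14 7))))))] .n) (.c k252 (.l (.s k16 k32 3 (.s k87 k86 0 (.s k3 k171 13 (.s k2 k1 0 (.s
  k18 k33 4 (.s k17 k19 0 (.d k34 k50 k51 3 4)))))))) .n))))) .n))) (.c k127 (.q k48 [(.s k16 k32 3
  (.s k117 k186 10 (.s k101 k69 3 (.d k154 k223 k207 10 14)))), (.s k16 k32 3 (.s k154 k223 10 (.s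
  k58 k202 11 (.s k63 k53 2 (.s k21 k42 6 (.d k149 k213 k192 7 14)))))), (.s k117 k186 10 (.s k101
  k69 3 (.s k96 k111 2 (.s k192 k144 11 (.s k149 k63 14 (.d k213 k234 k21 6 7))))))] (.c k101 (.q
  k149 [(.s k21 k213 7 (.d k63 k42 k192 6 14)), (.s k63 k192 14 (.s k58 k53 2 (.s k154 k202 11 (.d
  k16 k32 k223 3 10))))] (.c k32 (.q k239 [(.s k21 k213 7 (.d k63 k42 k192 6 14)), (.s k63 k192 14
  (.s k58 k53 2 (.s k154 k202 11 (.d k223 k207 k16 3 10))))] (.c k63 (.l (.s k213 k21 7 (.s k192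
  k234 6 (.s k144 k96 11 (.s k154 k159 2 (.d k223 k207 k16 3 10)))))) (.c k192 (.l (.s k21 k213 7
  (.s k63 k42 6 (.s k58 k53 2 (.s k154 k202 11 (.d k223 k207 k16 3 10)))))) .n))) (.c k63 (.l (.s
  k213 k21 7 (.s k192 k234 6 (.s k144 k96 11 (.s k154 k159 2 (.d k16 k32 k223 3 10)))))) (.c k192
  (.l (.s k21 k213 7 (.s k63 k42 6 (.s k58 k53 2 (.s k154 k202 11 (.d k16 k32 k223 3 10)))))) (.c
  k239 (.l (.s k32 k16 3 (.s k21 k213 7 (.d k63 k42 k192 6 14)))) .n))))) (.c k154 (.q k84 [(.s k252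
  k168 13 (.s k253 k254 0 (.s k169 k1 13 (.d k86 k87 k3 0 14)))), (.s k16 k32 3 (.s k152 k220 9 (.s
  k100 k204 13 (.s k116 k68 3 (.d k252 k184 k168 9 13)))))] (.c k138 (.l (.s k186 k117 10 (.s k86
  k87 0 (.s k252 k168 13 (.s k169 k3 14 (.d k253 k254 k1 0 13)))))) (.c k168 (.l (.s k16 k32 3 (.s
  k86 k87 0 (.s k152 k220 9 (.s k100 k204 13 (.s k116 k68 3 (.s k101 k71 4 (.d k117 k69 k186 3
  10)))))))) (.c k186 (.q k138 [(.s k252 k168 13 (.s k253 k254 0 (.s k169 k1 13 (.d k86 k87 k3 0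
  14)))), (.s k69 k207 10 (.s k101 k117 3 (.s k96 k111 2 (.s k192 k144 11 (.s k213 k234 6 (.d k149
  k63 k21 14 7))))))] .n) (.c k252 (.l (.s k16 k32 3 (.s k87 k86 0 (.s k3 k171 13 (.s k2 k1 0 (.s
  k18 k33 4 (.s k17 k19 0 (.d k34 k50 k51 3 4)))))))) .n))))) .n))) (.c k128 (.l (.s k127 k64 6 (.s
  k63 k191 7 (.s k149 k192 14 (.d k21 k42 k213 6 7))))) (.c k149 (.f k127 k64 6 (.q k90 [(.s k80 k95
  2 (.s k240 k160 11 (.s k165 k15 14 (.d k245 k250 k5 2 11)))), (.s k122 k74 3 (.s k117 k112 2 (.s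
  k48 k186 10 (.s k16 k32 3 (.s k154 k223 10 (.d k101 k69 k207 3 14))))))] (.c k80 (.l (.s k122 k74
  3 (.s k112 k117 2 (.s k79 k101 6 (.s k95 k111 3 (.s k15 k175 11 (.s k5 k10 2 (.d k165 k245 k240 11
  14)))))))) (.c k128 (.l (.s k191 k63 7 (.s k80 k95 2 (.s k240 k160 11 (.s k165 k15 14 (.d k245
  k250 k5 2 11)))))) (.c k191 (.q k128 [(.s k80 k95 2 (.s k240 k160 11 (.s k165 k15 14 (.d k245 k250
  k5 2 11)))), (.s k122 k74 3 (.s k117 k112 2 (.s k48 k186 10 (.s k16 k32 3 (.s k154 k223 10 (.d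
  k101 k69 k207 3 14))))))] (.c k80 (.l (.s k122 k74 3 (.s k112 k117 2 (.s k79 k101 6 (.s k95 k111 3
  (.s k15 k175 11 (.s k5 k10 2 (.d k165 k245 k240 11 14)))))))) .n)) .n))))) (.c k191 (.l (.s k64
  k127 6 (.s k192 k128 7 (.s k149 k63 14 (.d k213 k234 k21 6 7))))) (.c k192 (.q k1 [(.s k3 k2 0 (.s
  k87 k171 13 (.s k86 k84 0 (.d k169 k253 k252 13 14)))), (.s k127 k64 6 (.s k63 k191 7 (.s k21 k42
  6 (.s k61 k41 5 (.s k253 k169 13 (.s k125 k189 7 (.d k60 k190 k62 8 0))))))), (.s k3 k2 0 (.s k127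
  k64 6 (.s k63 k191 7 (.s k21 k42 6 (.s k23 k43 5 (.s k22 k20 0 (.d k41 k61 k60 5 6)))))))] .n) (.c
  k213 (.q k1 [(.s k3 k2 0 (.s k87 k171 13 (.s k86 k84 0 (.d k169 k253 k252 13 14)))), (.s k64 k127
  6 (.s k169 k253 13 (.s k192 k128 7 (.s k149 k63 14 (.s k129 k189 5 (.s k66 k3 8 (.d k65 k193 k67 7
  0))))))), (.s k3 k2 0 (.s k64 k127 6 (.s k192 k128 7 (.s k66 k129 8 (.s k86 k126 5 (.d k87 k84
  k171 0 13))))))] (.c k3 (.l (.s k127 k64 6 (.s k63 k191 7 (.s k21 k42 6 (.s k61 k41 5 (.s k60 k62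
  0 (.s k125 k190 8 (.d k253 k189 k169 7 13)))))))) .n)) (.c k234 (.l (.s k127 k64 6 (.s k63 k191 7
  (.s k21 k42 6 (.d k149 k213 k192 7 14))))) .n))))))))))))

def t6_109 : T TT 256 :=
  (.f k255 k170 14 (.q k165 [(.s k5 k245 11 (.s k15 k10 2 (.s k90 k240 14 (.d k95 k80 k175 2 11)))),
  (.s k245 k5 11 (.s k240 k250 2 (.s k80 k160 11 (.d k90 k95 k15 2 14))))] (.c k5 (.q k166 [(.s k4
  k247 12 (.s k12 k8 1 (.s k89 k243 14 (.d k93 k81 k174 1 12)))), (.s k4 k247 12 (.s k164 k167 0 (.s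
  k84 k244 11 (.s k252 k168 13 (.s k253 k254 0 (.s k169 k1 13 (.d k86 k87 k3 0 14)))))))] (.c k4 (.q
  k7 [(.s k167 k164 0 (.s k87 k247 11 (.d k86 k84 k244 0 12))), (.s k86 k244 12 (.s k84 k87 0 (.s
  k252 k168 13 (.s k169 k3 14 (.d k253 k254 k1 0 13)))))] (.c k84 (.l (.s k167 k164 0 (.s k244 k86
  12 (.s k247 k87 11 (.s k243 k251 1 (.s k81 k162 12 (.d k89 k93 k12 1 14))))))) (.c k86 (.l (.s
  k167 k164 0 (.s k247 k87 11 (.s k243 k251 1 (.s k81 k162 12 (.d k89 k93 k12 1 14)))))) (.c k87 (.q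
  k1 [(.s k86 k244 12 (.s k169 k253 13 (.d k3 k2 k252 0 14))), (.s k169 k253 13 (.s k161 k173 1 (.s
  k81 k241 11 (.s k162 k243 12 (.d k163 k160 k172 0 2))))), (.s k3 k2 0 (.s k15 k11 1 (.s k90 k240
  14 (.d k95 k80 k175 2 11))))] .n) (.c k164 (.l (.s k86 k244 12 (.s k84 k87 0 (.s k252 k168 13 (.s
  k169 k3 14 (.d k253 k254 k1 0 13)))))) (.c k244 (.q k84 [(.s k167 k164 0 (.d k87 k86 k247 0 11)),
  (.s k252 k168 13 (.s k253 k254 0 (.s k169 k1 13 (.s k173 k161 1 (.s k15 k94 12 (.d k3 k86 k11 14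
  1))))))] (.c k86 (.l (.s k167 k164 0 (.s k247 k87 11 (.s k243 k251 1 (.s k81 k162 12 (.d k89 k93
  k12 1 14)))))) .n)) .n)))))) (.c k7 (.l (.s k4 k247 12 (.s k12 k8 1 (.s k89 k243 14 (.d k93 k81
  k174 1 12))))) (.c k247 (.q k4 [(.s k12 k8 1 (.s k89 k243 14 (.d k93 k81 k174 1 12))), (.s k164
  k167 0 (.s k84 k244 11 (.s k252 k168 13 (.s k253 k254 0 (.s k169 k1 13 (.d k86 k87 k3 0 14))))))]
  .n) .n)))) (.c k10 (.l (.s k245 k5 11 (.s k240 k250 2 (.s k90 k15 14 (.d k80 k95 k160 2 11)))))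
  (.c k15 (.q k1 [(.s k3 k2 0 (.s k87 k171 13 (.s k86 k84 0 (.d k169 k253 k252 13 14)))), (.s k5
  k245 11 (.s k13 k9 1 (.s k89 k241 13 (.s k93 k81 1 (.d k253 k173 k169 11 13))))), (.s k3 k2 0 (.s
  k245 k5 11 (.s k240 k250 2 (.s k160 k80 11 (.s k161 k82 12 (.s k81 k241 11 (.d k162 k163 k243 0
  12)))))))] (.c k3 (.l (.s k5 k245 11 (.s k169 k253 13 (.s k161 k173 1 (.s k241 k81 11 (.d k13 k9
  k89 1 13)))))) .n)) (.c k80 (.q k1 [(.s k169 k253 13 (.s k3 k2 0 (.s k86 k252 14 (.d k87 k84 k171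
  0 13)))), (.s k5 k245 11 (.s k169 k253 13 (.s k161 k173 1 (.s k241 k81 11 (.d k13 k9 k89 1
  13)))))] (.c k169 (.l (.s k5 k245 11 (.s k13 k9 1 (.s k15 k10 2 (.s k89 k241 13 (.s k93 k81 1 (.d
  k12 k14 k174 0 12))))))) (.c k253 (.l (.s k3 k2 0 (.s k5 k245 11 (.s k87 k171 13 (.s k86 k84 0 (.s
  k7 k244 12 (.d k15 k10 k11 2 1))))))) .n))) (.c k90 (.f k5 k245 11 (.f k10 k15 2 (.q k1 [(.s k3 k2
  0 (.s k87 k171 13 (.s k86 k84 0 (.d k169 k253 k252 13 14)))), (.s k13 k9 1 (.s k89 k241 13 (.s k81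
  k93 1 (.s k243 k162 12 (.s k247 k251 1 (.d k166 k12 k4 14 12))))))] (.c k3 (.l (.s k169 k253 13
  (.s k161 k173 1 (.s k241 k81 11 (.d k13 k9 k89 1 13))))) (.c k253 (.l (.s k3 k2 0 (.s k13 k9 1 (.s
  k87 k171 13 (.s k86 k84 0 (.s k169 k252 14 (.s k241 k89 13 (.d k161 k173 k81 1 11)))))))) .n)))))
  (.c k95 (.q k1 [(.s k169 k253 13 (.s k3 k2 0 (.s k86 k252 14 (.d k87 k84 k171 0 13)))), (.s k5
  k245 11 (.s k169 k253 13 (.s k161 k173 1 (.s k241 k81 11 (.d k13 k9 k89 1 13)))))] (.c k169 (.l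
  (.s k5 k245 11 (.s k13 k9 1 (.s k15 k10 2 (.s k89 k241 13 (.s k93 k81 1 (.d k12 k14 k174 0
  12))))))) (.c k253 (.l (.s k3 k2 0 (.s k5 k245 11 (.s k87 k171 13 (.s k86 k84 0 (.s k7 k244 12 (.d
  k15 k10 k11 2 1))))))) .n))) (.c k240 (.q k1 [(.s k3 k2 0 (.s k87 k171 13 (.s k86 k84 0 (.d k169
  k253 k252 13 14)))), (.s k5 k245 11 (.s k169 k253 13 (.s k161 k173 1 (.s k241 k81 11 (.d k13 k9
  k89 1 13)))))] (.c k169 (.l (.s k5 k245 11 (.s k13 k9 1 (.s k15 k10 2 (.s k89 k241 13 (.s k93 k81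
  1 (.d k12 k14 k174 0 12))))))) (.c k253 (.l (.s k3 k2 0 (.s k5 k245 11 (.s k87 k171 13 (.s k86 k84
  0 (.s k7 k244 12 (.d k15 k10 k11 2 1))))))) .n))) (.c k245 (.q k253 [(.s k169 k1 13 (.s k252 k254
  0 (.s k84 k168 13 (.d k86 k87 k3 0 14)))), (.s k169 k1 13 (.s k173 k161 1 (.s k93 k13 11 (.s k12
  k174 12 (.s k4 k8 1 (.s k166 k247 12 (.d k89 k81 k243 1 14)))))))] (.c k1 (.l (.s k252 k254 0 (.s
  k84 k168 13 (.s k86 k87 0 (.s k244 k7 12 (.s k240 k248 1 (.s k80 k160 11 (.d k90 k95 k15 2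
  14)))))))) (.c k169 (.f k252 k254 0 (.q k86 [(.d k84 k168 k87 13 0), (.s k244 k7 12 (.s k240 k248
  1 (.s k80 k160 11 (.d k90 k95 k15 2 14))))] (.c k168 (.q k171 [(.d k87 k84 k3 0 13), (.s k244 k7
  12 (.s k240 k248 1 (.s k80 k160 11 (.d k90 k95 k15 2 14))))] .n) (.c k171 (.l (.s k168 k84 13 (.s
  k244 k7 12 (.s k240 k248 1 (.s k80 k160 11 (.d k90 k95 k15 2 14)))))) .n)))) .n))) (.c k250 (.l
  (.s k5 k245 11 (.s k15 k10 2 (.s k90 k240 14 (.d k95 k80 k175 2 11))))) .n)))))))))))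

def t6_110 : T TT 256 :=
  (.f k255 k170 14 (.q k165 [(.s k5 k245 11 (.s k15 k10 2 (.s k90 k240 14 (.d k95 k80 k175 2 11)))),
  (.s k245 k5 11 (.s k240 k250 2 (.s k80 k160 11 (.d k90 k95 k15 2 14))))] (.c k5 (.q k166 [(.s k4
  k247 12 (.s k12 k8 1 (.s k89 k243 14 (.d k93 k81 k174 1 12)))), (.s k4 k247 12 (.s k164 k167 0 (.s
  k84 k244 11 (.s k252 k168 13 (.s k253 k254 0 (.s k169 k1 13 (.d k86 k87 k3 0 14)))))))] (.c k4 (.q
  k7 [(.s k167 k164 0 (.s k87 k247 11 (.d k86 k84 k244 0 12))), (.s k86 k244 12 (.s k84 k87 0 (.s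
  k252 k168 13 (.s k169 k3 14 (.d k253 k254 k1 0 13)))))] (.c k84 (.l (.s k167 k164 0 (.s k244 k86
  12 (.s k247 k87 11 (.s k243 k251 1 (.s k81 k162 12 (.d k89 k93 k12 1 14))))))) (.c k86 (.l (.s
  k167 k164 0 (.s k247 k87 11 (.s k243 k251 1 (.s k81 k162 12 (.d k89 k93 k12 1 14)))))) (.c k87 (.q
  k1 [(.s k86 k244 12 (.s k169 k253 13 (.d k3 k2 k252 0 14))), (.s k169 k253 13 (.s k161 k173 1 (.s
  k81 k241 11 (.s k162 k243 12 (.d k163 k160 k172 0 2))))), (.s k3 k2 0 (.s k15 k11 1 (.s k90 k240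
  14 (.d k95 k80 k175 2 11))))] .n) (.c k164 (.l (.s k86 k244 12 (.s k84 k87 0 (.s k252 k168 13 (.s
  k169 k3 14 (.d k253 k254 k1 0 13)))))) (.c k244 (.q k84 [(.s k167 k164 0 (.d k87 k86 k247 0 11)),
  (.s k252 k168 13 (.s k253 k254 0 (.s k169 k1 13 (.s k173 k161 1 (.s k15 k94 12 (.d k3 k86 k11 14
  1))))))] (.c k86 (.l (.s k167 k164 0 (.s k247 k87 11 (.s k243 k251 1 (.s k81 k162 12 (.d k89 k93
  k12 1 14)))))) .n)) .n)))))) (.c k7 (.l (.s k4 k247 12 (.s k12 k8 1 (.s k89 k243 14 (.d k93 k81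
  k174 1 12))))) (.c k247 (.q k4 [(.s k12 k8 1 (.s k89 k243 14 (.d k93 k81 k174 1 12))), (.s k164
  k167 0 (.s k84 k244 11 (.s k252 k168 13 (.s k253 k254 0 (.s k169 k1 13 (.d k86 k87 k3 0 14))))))]
  .n) .n)))) (.c k10 (.l (.s k245 k5 11 (.s k240 k250 2 (.s k90 k15 14 (.d k80 k95 k160 2 11)))))
  (.c k15 (.q k1 [(.s k3 k2 0 (.s k87 k171 13 (.s k86 k84 0 (.d k169 k253 k252 13 14)))), (.s k5
  k245 11 (.s k13 k9 1 (.s k89 k241 13 (.s k93 k81 1 (.d k253 k173 k169 11 13))))), (.s k3 k2 0 (.s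
  k245 k5 11 (.s k240 k250 2 (.s k160 k80 11 (.s k161 k82 12 (.s k81 k241 11 (.d k162 k163 k243 0
  12)))))))] (.c k3 (.l (.s k5 k245 11 (.s k169 k253 13 (.s k161 k173 1 (.s k241 k81 11 (.d k13 k9
  k89 1 13)))))) .n)) (.c k80 (.q k1 [(.s k169 k253 13 (.s k3 k2 0 (.s k86 k252 14 (.d k87 k84 k171
  0 13)))), (.s k5 k245 11 (.s k169 k253 13 (.s k161 k173 1 (.s k241 k81 11 (.d k13 k9 k89 1
  13)))))] (.c k169 (.l (.s k5 k245 11 (.s k13 k9 1 (.s k15 k10 2 (.s k89 k241 13 (.s k93 k81 1 (.d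
  k12 k14 k174 0 12))))))) (.c k253 (.l (.s k3 k2 0 (.s k5 k245 11 (.s k87 k171 13 (.s k86 k84 0 (.s
  k7 k244 12 (.d k15 k10 k11 2 1))))))) .n))) (.c k90 (.f k245 k5 11 (.f k250 k240 2 (.q k247 [(.s
  k4 k166 12 (.s k244 k246 0 (.s k86 k7 12 (.d k84 k87 k164 0 11)))), (.s k243 k251 1 (.s k81 k162
  12 (.s k89 k93 1 (.d k166 k4 k12 12 14)))), (.s k243 k251 1 (.s k246 k244 0 (.s k252 k249 2 (.d
  k254 k253 k242 0 1))))] (.c k4 (.q k7 [(.d k244 k246 k86 0 12)] (.c k86 (.l (.s k243 k251 1 (.s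
  k246 k244 0 (.s k252 k249 2 (.d k254 k253 k242 0 1))))) (.c k244 (.l (.s k87 k167 11 (.s k3 k171
  13 (.s k1 k2 0 (.s k169 k253 13 (.d k86 k84 k252 0 14)))))) (.c k246 (.l (.s k86 k244 12 (.d k87
  k84 k167 0 11))) .n)))) (.c k7 (.l (.s k4 k166 12 (.s k243 k251 1 (.s k246 k244 0 (.s k252 k249 2
  (.d k254 k242 k253 1 0)))))) .n))))) (.c k95 (.q k1 [(.s k169 k253 13 (.s k3 k2 0 (.s k86 k252 14
  (.d k87 k84 k171 0 13)))), (.s k5 k245 11 (.s k169 k253 13 (.s k161 k173 1 (.s k241 k81 11 (.d k13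
  k9 k89 1 13)))))] (.c k169 (.l (.s k5 k245 11 (.s k13 k9 1 (.s k15 k10 2 (.s k89 k241 13 (.s k93
  k81 1 (.d k12 k14 k174 0 12))))))) (.c k253 (.l (.s k3 k2 0 (.s k5 k245 11 (.s k87 k171 13 (.s k86
  k84 0 (.s k7 k244 12 (.d k15 k10 k11 2 1))))))) .n))) (.c k240 (.q k1 [(.s k3 k2 0 (.s k87 k171 13
  (.s k86 k84 0 (.d k169 k253 k252 13 14)))), (.s k5 k245 11 (.s k169 k253 13 (.s k161 k173 1 (.s
  k241 k81 11 (.d k13 k9 k89 1 13)))))] (.c k169 (.l (.s k5 k245 11 (.s k13 k9 1 (.s k15 k10 2 (.s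
  k89 k241 13 (.s k93 k81 1 (.d k12 k14 k174 0 12))))))) (.c k253 (.l (.s k3 k2 0 (.s k5 k245 11 (.s
  k87 k171 13 (.s k86 k84 0 (.s k7 k244 12 (.d k15 k10 k11 2 1))))))) .n))) (.c k245 (.q k253 [(.s
  k169 k1 13 (.s k252 k254 0 (.s k84 k168 13 (.d k86 k87 k3 0 14)))), (.s k169 k1 13 (.s k173 k161 1
  (.s k93 k13 11 (.s k12 k174 12 (.s k4 k8 1 (.s k166 k247 12 (.d k89 k81 k243 1 14)))))))] (.c k1
  (.l (.s k252 k254 0 (.s k84 k168 13 (.s k86 k87 0 (.s k244 k7 12 (.s k240 k248 1 (.s k80 k160 11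
  (.d k90 k95 k15 2 14)))))))) (.c k169 (.f k252 k254 0 (.q k86 [(.d k84 k168 k87 13 0), (.s k244 k7
  12 (.s k240 k248 1 (.s k80 k160 11 (.d k90 k95 k15 2 14))))] (.c k168 (.q k171 [(.d k87 k84 k3 0
  13), (.s k244 k7 12 (.s k240 k248 1 (.s k80 k160 11 (.d k90 k95 k15 2 14))))] .n) (.c k171 (.l (.s
  k168 k84 13 (.s k244 k7 12 (.s k240 k248 1 (.s k80 k160 11 (.d k90 k95 k15 2 14)))))) .n)))) .n)))
  (.c k250 (.l (.s k5 k245 11 (.s k15 k10 2 (.s k90 k240 14 (.d k95 k80 k175 2 11))))) .n)))))))))))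

def t6_111 : T TT 256 :=
  (.f k255 k170 14 (.q k165 [(.s k5 k245 11 (.s k15 k10 2 (.s k90 k240 14 (.d k95 k80 k175 2 11)))),
  (.s k245 k5 11 (.s k240 k250 2 (.s k80 k160 11 (.d k90 k95 k15 2 14))))] (.c k5 (.q k4 [(.s k166
  k247 12 (.s k12 k8 1 (.s k89 k243 14 (.d k93 k81 k174 1 12)))), (.s k166 k247 12 (.s k164 k167 0
  (.s k84 k244 11 (.s k252 k168 13 (.s k253 k254 0 (.s k169 k1 13 (.d k86 k87 k3 0 14)))))))] (.c
  k166 (.q k86 [(.s k84 k87 0 (.d k244 k164 k7 11 12)), (.s k84 k87 0 (.s k252 k168 13 (.s k169 k3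
  14 (.d k253 k254 k1 0 13))))] (.c k84 (.q k173 [(.s k169 k161 1 (.s k1 k253 13 (.d k3 k2 k252 0
  14))), (.s k12 k8 1 (.s k174 k93 12 (.s k172 k175 0 (.s k252 k92 11 (.s k94 k15 12 (.d k254 k253
  k14 0 11))))))] (.c k162 (.q k174 [(.d k12 k8 k93 1 12), (.s k169 k161 1 (.s k1 k253 13 (.d k3 k2
  k252 0 14)))] .n) (.c k174 (.q k162 [(.s k169 k161 1 (.s k1 k253 13 (.d k3 k2 k252 0 14))), (.s
  k81 k243 12 (.s k89 k93 1 (.s k83 k92 2 (.s k80 k82 0 (.s k240 k160 11 (.d k90 k95 k15 2 14))))))]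
  .n) (.c k252 (.l (.s k12 k8 1 (.s k169 k161 1 (.s k253 k1 13 (.d k93 k13 k174 11 12))))) (.c k253
  (.l (.s k12 k8 1 (.s k169 k161 1 (.s k174 k93 12 (.s k172 k175 0 (.d k252 k92 k3 11 14))))))
  .n))))) (.c k87 (.l (.s k244 k7 12 (.s k84 k164 11 (.s k252 k168 13 (.s k169 k3 14 (.d k253 k254
  k1 0 13)))))) (.c k162 (.q k174 [(.d k12 k8 k93 1 12), (.s k84 k87 0 (.d k244 k164 k7 11 12))] .n)
  (.c k174 (.q k162 [(.s k84 k87 0 (.d k244 k164 k7 11 12)), (.s k81 k243 12 (.s k89 k93 1 (.s k83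
  k92 2 (.s k80 k82 0 (.s k240 k160 11 (.d k90 k95 k15 2 14))))))] .n) .n))))) (.c k247 (.l (.s k12
  k8 1 (.s k93 k174 12 (.s k89 k81 1 (.s k13 k241 13 (.s k15 k14 0 (.s k90 k240 14 (.d k95 k80 k175
  2 11)))))))) .n))) (.c k10 (.l (.s k245 k5 11 (.s k240 k250 2 (.s k90 k15 14 (.d k80 k95 k160 2
  11))))) (.c k15 (.q k1 [(.s k3 k2 0 (.s k87 k171 13 (.s k86 k84 0 (.d k169 k253 k252 13 14)))),
  (.s k5 k245 11 (.s k13 k9 1 (.s k89 k241 13 (.s k93 k81 1 (.d k253 k173 k169 11 13))))), (.s k3 k2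
  0 (.s k245 k5 11 (.s k240 k250 2 (.s k160 k80 11 (.s k161 k82 12 (.s k81 k241 11 (.d k162 k163
  k243 0 12)))))))] (.c k3 (.l (.s k5 k245 11 (.s k169 k253 13 (.s k161 k173 1 (.s k241 k81 11 (.d
  k13 k9 k89 1 13)))))) .n)) (.c k80 (.q k1 [(.s k169 k253 13 (.s k3 k2 0 (.s k86 k252 14 (.d k87
  k84 k171 0 13)))), (.s k5 k245 11 (.s k169 k253 13 (.s k161 k173 1 (.s k241 k81 11 (.d k13 k9 k89
  1 13)))))] (.c k169 (.l (.s k5 k245 11 (.s k13 k9 1 (.s k15 k10 2 (.s k89 k241 13 (.s k93 k81 1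
  (.d k12 k14 k174 0 12))))))) (.c k253 (.l (.s k3 k2 0 (.s k5 k245 11 (.s k87 k171 13 (.s k86 k84 0
  (.s k7 k244 12 (.d k15 k10 k11 2 1))))))) .n))) (.c k90 (.f k245 k5 11 (.f k250 k240 2 (.q k247
  [(.s k243 k251 1 (.s k81 k162 12 (.s k89 k93 1 (.d k166 k4 k12 12 14)))), (.s k4 k166 12 (.s k244
  k246 0 (.s k86 k7 12 (.d k84 k87 k164 0 11)))), (.s k243 k251 1 (.s k246 k244 0 (.s k252 k249 2
  (.d k254 k253 k242 0 1))))] (.c k4 (.q k7 [(.d k244 k246 k86 0 12)] (.c k86 (.l (.s k243 k251 1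
  (.s k246 k244 0 (.s k252 k249 2 (.d k254 k253 k242 0 1))))) (.c k244 (.l (.s k87 k167 11 (.s k3
  k171 13 (.s k1 k2 0 (.s k169 k253 13 (.d k86 k84 k252 0 14)))))) (.c k246 (.l (.s k86 k244 12 (.d
  k87 k84 k167 0 11))) .n)))) (.c k7 (.l (.s k4 k166 12 (.s k243 k251 1 (.s k246 k244 0 (.s k252
  k249 2 (.d k254 k242 k253 1 0)))))) .n))))) (.c k95 (.q k127 [(.s k106 k64 6 (.s k63 k191 7 (.s
  k149 k192 14 (.d k21 k42 k213 6 7)))), (.s k5 k245 11 (.s k15 k10 2 (.s k106 k64 6 (.s k47 k224 10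
  (.d k63 k31 k191 3 7))))), (.s k63 k191 7 (.s k245 k5 11 (.s k240 k250 2 (.s k181 k122 10 (.s k149
  k133 3 (.d k21 k42 k213 6 7))))))] (.c k63 (.l (.s k5 k245 11 (.s k15 k10 2 (.s k64 k106 6 (.s
  k192 k128 7 (.s k133 k74 10 (.s k149 k181 3 (.d k213 k234 k21 6 7)))))))) (.c k191 (.l (.s k5 k245
  11 (.s k15 k10 2 (.s k106 k64 6 (.s k47 k224 10 (.s k63 k31 3 (.s k21 k42 6 (.d k149 k213 k192 7
  14)))))))) .n))) (.c k240 (.q k1 [(.s k3 k2 0 (.s k87 k171 13 (.s k86 k84 0 (.d k169 k253 k252 13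
  14)))), (.s k5 k245 11 (.s k169 k253 13 (.s k161 k173 1 (.s k241 k81 11 (.d k13 k9 k89 1 13)))))]
  (.c k169 (.l (.s k5 k245 11 (.s k13 k9 1 (.s k15 k10 2 (.s k89 k241 13 (.s k93 k81 1 (.d k12 k14
  k174 0 12))))))) (.c k253 (.l (.s k3 k2 0 (.s k5 k245 11 (.s k87 k171 13 (.s k86 k84 0 (.s k7 k244
  12 (.d k15 k10 k11 2 1))))))) .n))) (.c k245 (.q k253 [(.s k169 k1 13 (.s k252 k254 0 (.s k84 k168
  13 (.d k86 k87 k3 0 14)))), (.s k169 k1 13 (.s k173 k161 1 (.s k93 k13 11 (.s k12 k174 12 (.s k4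
  k8 1 (.s k166 k247 12 (.d k89 k81 k243 1 14)))))))] (.c k1 (.l (.s k252 k254 0 (.s k84 k168 13 (.s
  k86 k87 0 (.s k244 k7 12 (.s k240 k248 1 (.s k80 k160 11 (.d k90 k95 k15 2 14)))))))) (.c k169 (.f
  k252 k254 0 (.q k86 [(.d k84 k168 k87 13 0), (.s k244 k7 12 (.s k240 k248 1 (.s k80 k160 11 (.d
  k90 k95 k15 2 14))))] (.c k168 (.q k171 [(.d k87 k84 k3 0 13), (.s k244 k7 12 (.s k240 k248 1 (.s
  k80 k160 11 (.d k90 k95 k15 2 14))))] .n) (.c k171 (.l (.s k168 k84 13 (.s k244 k7 12 (.s k240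
  k248 1 (.s k80 k160 11 (.d k90 k95 k15 2 14)))))) .n)))) .n))) (.c k250 (.l (.s k5 k245 11 (.s k15
  k10 2 (.s k90 k240 14 (.d k95 k80 k175 2 11))))) .n)))))))))))

def t6_112 : T TT 256 :=
  (.f k255 k170 14 (.q k105 [(.s k65 k125 5 (.s k195 k130 8 (.s k150 k60 14 (.d k215 k235 k20 5
  8))))] (.c k20 (.q k1 [(.s k169 k253 13 (.s k3 k2 0 (.s k86 k252 14 (.d k87 k84 k171 0 13)))), (.s
  k65 k125 5 (.s k169 k253 13 (.s k41 k233 7 (.s k61 k21 5 (.d k193 k129 k149 7 13))))), (.s k3 k2 0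
  (.s k65 k125 5 (.s k129 k193 7 (.s k66 k192 8 (.s k67 k64 0 (.d k195 k131 k130 7 8))))))] .n) (.c
  k60 (.q k1 [(.s k3 k2 0 (.s k87 k171 13 (.s k86 k84 0 (.d k169 k253 k252 13 14)))), (.s k65 k125 5
  (.s k169 k253 13 (.s k41 k233 7 (.s k61 k21 5 (.d k193 k129 k149 7 13))))), (.s k3 k2 0 (.s k65
  k125 5 (.s k129 k193 7 (.s k66 k192 8 (.s k67 k64 0 (.d k195 k131 k130 7 8))))))] .n) (.c k65 (.q
  k64 [(.s k192 k128 7 (.s k213 k234 6 (.s k149 k21 7 (.d k106 k127 k63 6 14)))), (.s k106 k127 6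
  (.s k104 k107 0 (.s k84 k124 5 (.s k252 k168 13 (.s k253 k254 0 (.s k169 k1 13 (.d k86 k87 k3 0
  14)))))))] (.c k106 (.f k192 k128 7 (.q k149 [(.d k213 k234 k21 6 7), (.s k193 k61 13 (.s k195
  k194 0 (.s k150 k60 14 (.d k215 k235 k20 5 8))))] (.c k42 (.l (.s k234 k213 6 (.s k193 k61 13 (.s
  k195 k194 0 (.s k150 k60 14 (.d k215 k235 k20 5 8)))))) (.c k234 (.q k42 [(.d k21 k63 k213 6 7),
  (.s k193 k61 13 (.s k195 k194 0 (.s k215 k235 5 (.d k150 k20 k60 8 14))))] .n) .n)))) (.c k127 (.l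
  (.s k192 k128 7 (.s k213 k234 6 (.s k149 k21 7 (.s k193 k61 13 (.s k195 k194 0 (.s k150 k60 14 (.d
  k215 k235 k20 5 8)))))))) .n))) (.c k125 (.q k253 [(.s k169 k1 13 (.s k252 k254 0 (.s k84 k168 13
  (.d k86 k87 k3 0 14)))), (.s k169 k1 13 (.s k233 k41 7 (.s k213 k193 5 (.s k192 k234 6 (.s k64
  k128 7 (.s k106 k127 6 (.d k149 k21 k63 7 14)))))))] (.c k1 (.l (.s k252 k254 0 (.s k84 k168 13
  (.s k86 k87 0 (.s k124 k67 6 (.s k60 k188 7 (.s k20 k40 5 (.d k150 k215 k195 8 14)))))))) (.c k169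
  (.f k252 k254 0 (.q k86 [(.d k84 k168 k87 13 0), (.s k124 k67 6 (.s k60 k188 7 (.s k20 k40 5 (.d
  k150 k215 k195 8 14))))] (.c k168 (.q k171 [(.d k87 k84 k3 0 13), (.s k124 k67 6 (.s k60 k188 7
  (.s k20 k40 5 (.d k150 k215 k195 8 14))))] .n) (.c k171 (.l (.s k168 k84 13 (.s k124 k67 6 (.s k60
  k188 7 (.s k20 k40 5 (.d k150 k215 k195 8 14)))))) .n)))) .n))) (.c k130 (.l (.s k125 k65 5 (.s
  k60 k190 8 (.s k150 k195 14 (.d k20 k40 k215 5 8))))) (.c k150 (.f k125 k65 5 (.q k86 [(.s k84 k87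
  0 (.s k252 k168 13 (.s k169 k3 14 (.d k253 k254 k1 0 13)))), (.s k124 k67 6 (.s k127 k126 0 (.s
  k63 k191 7 (.s k21 k42 6 (.s k149 k213 7 (.d k106 k64 k192 6 14))))))] (.c k130 (.l (.s k190 k60 8
  (.s k84 k87 0 (.s k124 k67 6 (.s k64 k104 5 (.d k127 k126 k106 0 6)))))) (.c k190 (.q k130 [(.s
  k84 k87 0 (.s k252 k168 13 (.s k169 k3 14 (.d k253 k254 k1 0 13)))), (.s k124 k67 6 (.s k127 k126
  0 (.s k63 k191 7 (.s k21 k42 6 (.s k149 k213 7 (.d k106 k64 k192 6 14))))))] (.c k254 (.l (.s k84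
  k87 0 (.s k124 k67 6 (.s k64 k104 5 (.d k127 k126 k106 0 6))))) .n)) .n)))) (.c k190 (.l (.s k65
  k125 5 (.s k195 k130 8 (.s k150 k60 14 (.d k215 k235 k20 5 8))))) (.c k195 (.q k1 [(.s k3 k2 0 (.s
  k87 k171 13 (.s k86 k84 0 (.d k169 k253 k252 13 14)))), (.s k65 k125 5 (.s k169 k253 13 (.s k41
  k233 7 (.s k61 k21 5 (.d k193 k129 k149 7 13))))), (.s k3 k2 0 (.s k125 k65 5 (.s k60 k190 8 (.s
  k40 k20 5 (.s k41 k22 6 (.s k21 k61 5 (.d k42 k43 k63 0 6)))))))] .n) (.c k215 (.q k1 [(.s k169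
  k253 13 (.s k3 k2 0 (.s k86 k252 14 (.d k87 k84 k171 0 13)))), (.s k65 k125 5 (.s k169 k253 13 (.s
  k41 k233 7 (.s k61 k21 5 (.d k193 k129 k149 7 13))))), (.s k3 k2 0 (.s k65 k125 5 (.s k129 k193 7
  (.s k66 k192 8 (.s k67 k64 0 (.d k195 k131 k130 7 8))))))] .n) (.c k235 (.l (.s k125 k65 5 (.s k60
  k190 8 (.s k20 k40 5 (.d k150 k215 k195 8 14))))) .n))))))))))))

def t6_113 : T TT 256 :=
  (.f k255 k170 14 (.q k106 [(.s k64 k127 6 (.s k192 k128 7 (.s k149 k63 14 (.d k213 k234 k21 6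
  7))))] (.c k21 (.q k1 [(.s k169 k253 13 (.s k3 k2 0 (.s k86 k252 14 (.d k87 k84 k171 0 13)))), (.s
  k64 k127 6 (.s k192 k128 7 (.s k213 k234 6 (.s k253 k169 13 (.s k193 k233 5 (.s k65 k129 7 (.d
  k195 k130 k194 8 0))))))), (.s k3 k2 0 (.s k64 k127 6 (.s k192 k128 7 (.s k66 k129 8 (.s k86 k126
  5 (.d k87 k84 k171 0 13))))))] (.c k171 (.l (.s k3 k2 0 (.s k127 k64 6 (.s k63 k191 7 (.s k43 k23
  5 (.d k169 k232 k253 8 13)))))) .n)) (.c k63 (.q k1 [(.s k3 k2 0 (.s k87 k171 13 (.s k86 k84 0 (.d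
  k169 k253 k252 13 14)))), (.s k64 k127 6 (.s k192 k128 7 (.s k213 k234 6 (.s k253 k169 13 (.s k193
  k233 5 (.s k65 k129 7 (.d k195 k130 k194 8 0))))))), (.s k3 k2 0 (.s k64 k127 6 (.s k192 k128 7
  (.s k66 k129 8 (.s k86 k126 5 (.d k87 k84 k171 0 13))))))] (.c k171 (.l (.s k3 k2 0 (.s k64 k127 6
  (.s k169 k253 13 (.s k86 k252 14 (.s k192 k128 7 (.d k66 k126 k129 5 8))))))) .n)) (.c k64 (.q k60
  [(.s k20 k40 5 (.s k125 k190 8 (.s k150 k215 8 (.d k105 k65 k195 5 14)))), (.s k20 k40 5 (.s k150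
  k215 8 (.s k62 k194 13 (.s k63 k61 0 (.s k21 k42 6 (.d k149 k213 k192 7 14)))))), (.s k125 k190 8
  (.s k105 k65 5 (.s k104 k107 0 (.s k192 k148 13 (.s k149 k63 14 (.d k213 k234 k21 6 7))))))] (.c
  k105 (.q k86 [(.s k84 k87 0 (.s k252 k168 13 (.s k253 k254 0 (.d k169 k1 k3 13 14)))), (.s k126
  k66 5 (.s k190 k125 8 (.s k62 k254 7 (.s k150 k194 13 (.d k20 k40 k215 5 8)))))] (.c k40 (.q k235
  [(.s k84 k87 0 (.s k252 k168 13 (.s k253 k254 0 (.d k169 k1 k3 13 14)))), (.s k126 k66 5 (.s k190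
  k125 8 (.s k62 k254 7 (.s k150 k194 13 (.d k215 k195 k20 5 8)))))] (.c k254 (.l (.s k87 k84 0 (.s
  k3 k171 13 (.s k1 k2 0 (.d k169 k253 k252 13 14))))) .n)) (.c k235 (.l (.s k40 k20 5 (.s k84 k87 0
  (.s k252 k168 13 (.s k169 k3 14 (.d k253 k254 k1 0 13)))))) (.c k254 (.l (.s k87 k84 0 (.s k3 k171
  13 (.s k1 k2 0 (.d k169 k253 k252 13 14))))) .n)))) (.c k150 (.q k149 [(.s k21 k213 7 (.d k63 k42
  k192 6 14)), (.s k63 k192 14 (.s k61 k62 0 (.s k105 k193 13 (.d k125 k190 k65 8 5))))] (.c k63 (.l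
  (.s k213 k21 7 (.s k192 k234 6 (.s k104 k148 13 (.s k105 k107 0 (.d k125 k65 k190 5 8)))))) (.c
  k130 (.l (.s k190 k125 8 (.s k21 k213 7 (.d k63 k42 k192 6 14)))) (.c k190 (.q k130 [(.s k21 k213
  7 (.d k63 k42 k192 6 14)), (.s k63 k192 14 (.s k61 k62 0 (.s k65 k195 8 (.d k105 k193 k125 13
  5))))] (.c k63 (.l (.s k65 k195 8 (.s k105 k125 5 (.s k213 k21 7 (.s k192 k234 6 (.d k104 k107
  k148 0 13)))))) (.c k192 (.l (.s k21 k213 7 (.s k63 k42 6 (.s k61 k62 0 (.s k65 k195 8 (.d k105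
  k193 k125 13 5)))))) .n))) (.c k192 (.l (.s k21 k213 7 (.s k63 k42 6 (.s k61 k62 0 (.s k105 k193
  13 (.d k125 k65 k190 5 8)))))) .n))))) .n))) (.c k127 (.q k195 [(.s k65 k130 8 (.s k215 k235 5 (.s
  k150 k20 8 (.d k105 k125 k60 5 14)))), (.s k65 k130 8 (.s k105 k125 5 (.s k107 k104 0 (.s k63 k151
  13 (.s k21 k42 6 (.d k149 k213 k192 7 14)))))), (.s k215 k235 5 (.s k150 k20 8 (.s k194 k62 13 (.s
  k192 k193 0 (.s k149 k63 14 (.d k213 k234 k21 6 7))))))] (.c k105 (.q k150 [(.d k215 k235 k20 5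
  8), (.s k194 k62 13 (.s k192 k193 0 (.s k149 k63 14 (.d k213 k234 k21 6 7))))] (.c k40 (.l (.s
  k235 k215 5 (.s k194 k62 13 (.s k192 k193 0 (.s k149 k63 14 (.d k213 k234 k21 6 7)))))) (.c k235
  (.q k40 [(.d k20 k60 k215 5 8), (.s k194 k62 13 (.s k192 k193 0 (.s k213 k234 6 (.d k149 k21 k63 7
  14))))] .n) .n))) (.c k150 (.q k151 [(.s k107 k63 13 (.s k105 k104 0 (.d k65 k130 k125 8 5))), (.s
  k63 k107 13 (.s k21 k42 6 (.d k149 k213 k192 7 14))), (.s k130 k65 8 (.s k215 k235 5 (.s k87 k23 7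
  (.s k86 k84 0 (.s k66 k126 5 (.s k2 k194 7 (.d k3 k1 k171 0 13)))))))] (.c k130 (.q k190 [(.s k107
  k63 13 (.s k105 k104 0 (.d k125 k65 k60 5 8))), (.s k63 k107 13 (.s k21 k42 6 (.d k149 k213 k192 7
  14))), (.s k125 k60 8 (.s k105 k65 5 (.s k215 k235 5 (.s k87 k23 7 (.s k86 k84 0 (.s k67 k124 6
  (.d k3 k131 k171 7 13)))))))] .n) (.c k190 (.l (.s k130 k65 8 (.s k63 k107 13 (.s k21 k42 6 (.d
  k149 k213 k192 7 14))))) .n))) .n))) (.c k128 (.l (.s k127 k64 6 (.s k63 k191 7 (.s k149 k192 14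
  (.d k21 k42 k213 6 7))))) (.c k149 (.f k64 k127 6 (.f k128 k192 7 (.q k65 [(.s k195 k130 8 (.s
  k215 k235 5 (.s k150 k20 8 (.d k105 k125 k60 5 14)))), (.s k66 k67 0 (.s k86 k126 5 (.s k87 k84 0
  (.s k3 k171 13 (.s k1 k2 0 (.d k169 k253 k252 13 14))))))] (.c k125 (.l (.s k67 k66 0 (.s k195
  k130 8 (.s k3 k131 7 (.s k87 k171 13 (.s k86 k84 0 (.s k169 k252 14 (.d k1 k2 k253 0 13))))))))
  .n)))) (.c k191 (.l (.s k64 k127 6 (.s k192 k128 7 (.s k149 k63 14 (.d k213 k234 k21 6 7))))) (.c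
  k192 (.q k1 [(.s k3 k2 0 (.s k87 k171 13 (.s k86 k84 0 (.d k169 k253 k252 13 14)))), (.s k127 k64
  6 (.s k63 k191 7 (.s k21 k42 6 (.s k61 k41 5 (.s k253 k169 13 (.s k125 k189 7 (.d k60 k190 k62 8
  0))))))), (.s k3 k2 0 (.s k127 k64 6 (.s k63 k191 7 (.s k21 k42 6 (.s k23 k43 5 (.s k22 k20 0 (.d
  k41 k61 k60 5 6)))))))] .n) (.c k213 (.q k1 [(.s k3 k2 0 (.s k87 k171 13 (.s k86 k84 0 (.d k169
  k253 k252 13 14)))), (.s k64 k127 6 (.s k169 k253 13 (.s k192 k128 7 (.s k149 k63 14 (.s k129 k189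
  5 (.s k66 k3 8 (.d k65 k193 k67 7 0))))))), (.s k3 k2 0 (.s k64 k127 6 (.s k192 k128 7 (.s k66
  k129 8 (.s k86 k126 5 (.d k87 k84 k171 0 13))))))] (.c k3 (.l (.s k127 k64 6 (.s k63 k191 7 (.s
  k21 k42 6 (.s k61 k41 5 (.s k60 k62 0 (.s k125 k190 8 (.d k253 k189 k169 7 13)))))))) .n)) (.c
  k234 (.l (.s k127 k64 6 (.s k63 k191 7 (.s k21 k42 6 (.d k149 k213 k192 7 14))))) .n))))))))))))

def t6_114 : T TT 256 :=
  (.f k255 k170 14 (.q k106 [(.s k64 k127 6 (.s k192 k128 7 (.s k149 k63 14 (.d k213 k234 k21 6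
  7))))] (.c k21 (.q k1 [(.s k169 k253 13 (.s k3 k2 0 (.s k86 k252 14 (.d k87 k84 k171 0 13)))), (.s
  k64 k127 6 (.s k192 k128 7 (.s k213 k234 6 (.s k253 k169 13 (.s k193 k233 5 (.s k65 k129 7 (.d
  k195 k130 k194 8 0))))))), (.s k3 k2 0 (.s k64 k127 6 (.s k192 k128 7 (.s k66 k129 8 (.s k86 k126
  5 (.d k87 k84 k171 0 13))))))] (.c k171 (.l (.s k3 k2 0 (.s k127 k64 6 (.s k63 k191 7 (.s k43 k23
  5 (.d k169 k232 k253 8 13)))))) .n)) (.c k63 (.q k1 [(.s k3 k2 0 (.s k87 k171 13 (.s k86 k84 0 (.d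
  k169 k253 k252 13 14)))), (.s k64 k127 6 (.s k192 k128 7 (.s k213 k234 6 (.s k253 k169 13 (.s k193
  k233 5 (.s k65 k129 7 (.d k195 k130 k194 8 0))))))), (.s k3 k2 0 (.s k64 k127 6 (.s k192 k128 7
  (.s k66 k129 8 (.s k86 k126 5 (.d k87 k84 k171 0 13))))))] (.c k171 (.l (.s k3 k2 0 (.s k64 k127 6
  (.s k169 k253 13 (.s k86 k252 14 (.s k192 k128 7 (.d k66 k126 k129 5 8))))))) .n)) (.c k64 (.q k60
  [(.s k20 k40 5 (.s k125 k190 8 (.s k150 k215 8 (.d k105 k65 k195 5 14)))), (.s k20 k40 5 (.s k150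
  k215 8 (.s k62 k194 13 (.s k63 k61 0 (.s k21 k42 6 (.d k149 k213 k192 7 14)))))), (.s k125 k190 8
  (.s k105 k65 5 (.s k104 k107 0 (.s k192 k148 13 (.s k149 k63 14 (.d k213 k234 k21 6 7))))))] (.c
  k105 (.q k87 [(.s k3 k171 13 (.s k86 k84 0 (.s k169 k252 14 (.d k1 k2 k253 0 13)))), (.s k86 k84 0
  (.s k126 k66 5 (.s k190 k125 8 (.s k62 k254 7 (.s k150 k194 13 (.d k20 k40 k215 5 8)))))), (.s k3
  k171 13 (.s k2 k1 0 (.s k22 k41 6 (.s k42 k62 5 (.s k21 k63 6 (.d k20 k40 k23 5 0))))))] (.c k2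
  (.l (.s k3 k171 13 (.s k22 k41 6 (.s k86 k84 0 (.s k150 k214 7 (.d k20 k40 k215 5 8)))))) (.c k40
  (.q k235 [(.s k3 k171 13 (.s k86 k84 0 (.s k169 k252 14 (.d k1 k2 k253 0 13)))), (.s k3 k171 13
  (.s k22 k41 6 (.s k215 k195 5 (.s k20 k150 8 (.d k23 k21 k151 0 7))))), (.s k86 k84 0 (.s k126 k66
  5 (.s k190 k125 8 (.s k62 k254 7 (.s k150 k194 13 (.d k215 k195 k20 5 8))))))] .n) (.c k235 (.l
  (.s k40 k20 5 (.s k3 k171 13 (.s k1 k2 0 (.s k86 k84 0 (.d k169 k253 k252 13 14)))))) .n)))) (.c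
  k150 (.q k149 [(.s k21 k213 7 (.d k63 k42 k192 6 14)), (.s k63 k192 14 (.s k61 k62 0 (.s k105 k193
  13 (.d k125 k190 k65 8 5))))] (.c k63 (.l (.s k213 k21 7 (.s k192 k234 6 (.s k104 k148 13 (.s k105
  k107 0 (.d k125 k65 k190 5 8)))))) (.c k130 (.l (.s k190 k125 8 (.s k21 k213 7 (.d k63 k42 k192 6
  14)))) (.c k190 (.q k130 [(.s k21 k213 7 (.d k63 k42 k192 6 14)), (.s k63 k192 14 (.s k61 k62 0
  (.s k65 k195 8 (.d k105 k193 k125 13 5))))] (.c k63 (.l (.s k65 k195 8 (.s k105 k125 5 (.s k213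
  k21 7 (.s k192 k234 6 (.d k104 k107 k148 0 13)))))) (.c k192 (.l (.s k21 k213 7 (.s k63 k42 6 (.s
  k61 k62 0 (.s k65 k195 8 (.d k105 k193 k125 13 5)))))) .n))) (.c k192 (.l (.s k21 k213 7 (.s k63
  k42 6 (.s k61 k62 0 (.s k105 k193 13 (.d k125 k65 k190 5 8)))))) .n))))) .n))) (.c k127 (.q k195
  [(.s k65 k130 8 (.s k215 k235 5 (.s k150 k20 8 (.d k105 k125 k60 5 14)))), (.s k65 k130 8 (.s k105
  k125 5 (.s k107 k104 0 (.s k63 k151 13 (.s k21 k42 6 (.d k149 k213 k192 7 14)))))), (.s k215 k235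
  5 (.s k150 k20 8 (.s k194 k62 13 (.s k192 k193 0 (.s k149 k63 14 (.d k213 k234 k21 6 7))))))] (.c
  k105 (.q k149 [(.s k21 k213 7 (.d k63 k42 k192 6 14)), (.s k63 k192 14 (.s k151 k107 13 (.s k150
  k148 0 (.d k215 k235 k20 5 8))))] (.c k40 (.l (.s k235 k215 5 (.s k21 k213 7 (.d k63 k42 k192 6
  14)))) (.c k63 (.l (.s k213 k21 7 (.s k192 k234 6 (.s k194 k193 0 (.s k150 k62 13 (.d k215 k235
  k20 5 8)))))) (.c k192 (.l (.s k21 k213 7 (.s k63 k42 6 (.s k151 k107 13 (.s k150 k148 0 (.d k215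
  k235 k20 5 8)))))) (.c k235 (.q k40 [(.s k21 k213 7 (.d k63 k42 k192 6 14)), (.s k20 k60 5 (.s k63
  k192 14 (.s k150 k215 8 (.d k151 k148 k107 0 13))))] (.c k63 (.l (.s k20 k60 5 (.s k150 k215 8 (.s
  k213 k21 7 (.s k192 k234 6 (.d k194 k62 k193 13 0)))))) (.c k192 (.l (.s k20 k60 5 (.s k21 k213 7
  (.s k63 k42 6 (.s k150 k215 8 (.d k151 k148 k107 0 13)))))) .n))) .n))))) (.c k150 (.q k149 [(.s
  k21 k213 7 (.d k63 k42 k192 6 14)), (.s k63 k192 14 (.s k107 k151 13 (.s k105 k104 0 (.d k65 k130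
  k125 8 5))))] (.c k63 (.l (.s k213 k21 7 (.s k192 k234 6 (.s k193 k194 0 (.s k105 k61 13 (.d k65
  k125 k130 5 8)))))) (.c k130 (.q k190 [(.s k21 k213 7 (.d k63 k42 k192 6 14)), (.s k63 k192 14 (.s
  k107 k151 13 (.s k105 k104 0 (.d k125 k60 k65 8 5))))] (.c k63 (.l (.s k125 k60 8 (.s k105 k65 5
  (.s k213 k21 7 (.s k192 k234 6 (.d k193 k61 k194 13 0)))))) (.c k192 (.l (.s k21 k213 7 (.s k63
  k42 6 (.s k107 k151 13 (.s k105 k104 0 (.d k125 k60 k65 8 5)))))) .n))) (.c k190 (.l (.s k130 k65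
  8 (.s k21 k213 7 (.d k63 k42 k192 6 14)))) (.c k192 (.l (.s k21 k213 7 (.s k63 k42 6 (.s k107 k151
  13 (.s k105 k104 0 (.d k65 k125 k130 5 8)))))) .n))))) .n))) (.c k128 (.l (.s k127 k64 6 (.s k63
  k191 7 (.s k149 k192 14 (.d k21 k42 k213 6 7))))) (.c k149 (.f k127 k64 6 (.q k89 [(.s k81 k93 1
  (.s k123 k72 4 (.s k243 k162 12 (.d k63 k191 k183 7 9)))), (.s k123 k72 4 (.s k119 k115 1 (.s k51
  k187 9 (.s k17 k34 4 (.s k153 k221 9 (.d k102 k68 k204 4 14)))))), (.s k81 k93 1 (.s k243 k162 12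
  (.s k166 k12 14 (.d k247 k251 k4 1 12))))] (.c k81 (.l (.s k123 k72 4 (.s k115 k119 1 (.s k76 k102
  6 (.s k93 k110 4 (.s k12 k174 12 (.s k4 k8 1 (.d k166 k247 k243 12 14)))))))) (.c k128 (.l (.s
  k191 k63 7 (.s k81 k93 1 (.s k243 k162 12 (.s k166 k12 14 (.d k247 k251 k4 1 12)))))) (.c k191 (.q
  k128 [(.s k81 k93 1 (.s k243 k162 12 (.s k247 k251 1 (.d k166 k4 k12 12 14)))), (.s k123 k72 4 (.s
  k119 k115 1 (.s k51 k187 9 (.s k17 k34 4 (.s k153 k221 9 (.d k102 k68 k204 4 14))))))] (.c k81 (.l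
  (.s k123 k72 4 (.s k115 k119 1 (.s k76 k102 6 (.s k93 k110 4 (.s k12 k174 12 (.s k4 k8 1 (.d k166
  k247 k243 12 14)))))))) .n)) .n))))) (.c k191 (.l (.s k64 k127 6 (.s k192 k128 7 (.s k149 k63 14
  (.d k213 k234 k21 6 7))))) (.c k192 (.q k1 [(.s k3 k2 0 (.s k87 k171 13 (.s k86 k84 0 (.d k169
  k253 k252 13 14)))), (.s k127 k64 6 (.s k63 k191 7 (.s k21 k42 6 (.s k61 k41 5 (.s k253 k169 13
  (.s k125 k189 7 (.d k60 k190 k62 8 0))))))), (.s k3 k2 0 (.s k127 k64 6 (.s k63 k191 7 (.s k21 k42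
  6 (.s k23 k43 5 (.s k22 k20 0 (.d k41 k61 k60 5 6)))))))] .n) (.c k213 (.q k1 [(.s k3 k2 0 (.s k87
  k171 13 (.s k86 k84 0 (.d k169 k253 k252 13 14)))), (.s k64 k127 6 (.s k169 k253 13 (.s k192 k128
  7 (.s k149 k63 14 (.s k129 k189 5 (.s k66 k3 8 (.d k65 k193 k67 7 0))))))), (.s k3 k2 0 (.s k64
  k127 6 (.s k192 k128 7 (.s k66 k129 8 (.s k86 k126 5 (.d k87 k84 k171 0 13))))))] (.c k3 (.l (.s
  k127 k64 6 (.s k63 k191 7 (.s k21 k42 6 (.s k61 k41 5 (.s k60 k62 0 (.s k125 k190 8 (.d k253 k189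
  k169 7 13)))))))) .n)) (.c k234 (.l (.s k127 k64 6 (.s k63 k191 7 (.s k21 k42 6 (.d k149 k213 k192
  7 14))))) .n))))))))))))

def t6_115 : T TT 256 :=
  (.f k255 k170 14 (.q k105 [(.s k65 k125 5 (.s k195 k130 8 (.s k150 k60 14 (.d k215 k235 k20 5
  8))))] (.c k20 (.q k1 [(.s k169 k253 13 (.s k3 k2 0 (.s k86 k252 14 (.d k87 k84 k171 0 13)))), (.s
  k65 k125 5 (.s k169 k253 13 (.s k41 k233 7 (.s k61 k21 5 (.d k193 k129 k149 7 13))))), (.s k3 k2 0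
  (.s k65 k125 5 (.s k129 k193 7 (.s k66 k192 8 (.s k67 k64 0 (.d k195 k131 k130 7 8))))))] .n) (.c
  k60 (.q k1 [(.s k3 k2 0 (.s k87 k171 13 (.s k86 k84 0 (.d k169 k253 k252 13 14)))), (.s k65 k125 5
  (.s k169 k253 13 (.s k41 k233 7 (.s k61 k21 5 (.d k193 k129 k149 7 13))))), (.s k3 k2 0 (.s k65
  k125 5 (.s k129 k193 7 (.s k66 k192 8 (.s k67 k64 0 (.d k195 k131 k130 7 8))))))] .n) (.c k65 (.q
  k64 [(.s k192 k128 7 (.s k213 k234 6 (.s k149 k21 7 (.d k106 k127 k63 6 14)))), (.s k106 k127 6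
  (.s k104 k107 0 (.s k84 k124 5 (.s k252 k168 13 (.s k253 k254 0 (.s k169 k1 13 (.d k86 k87 k3 0
  14)))))))] (.c k106 (.f k192 k128 7 (.q k149 [(.d k213 k234 k21 6 7), (.s k193 k61 13 (.s k195
  k194 0 (.s k150 k60 14 (.d k215 k235 k20 5 8))))] (.c k42 (.l (.s k234 k213 6 (.s k193 k61 13 (.s
  k195 k194 0 (.s k150 k60 14 (.d k215 k235 k20 5 8)))))) (.c k234 (.q k42 [(.d k21 k63 k213 6 7),
  (.s k193 k61 13 (.s k195 k194 0 (.s k215 k235 5 (.d k150 k20 k60 8 14))))] .n) .n)))) (.c k127 (.l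
  (.s k192 k128 7 (.s k213 k234 6 (.s k149 k21 7 (.s k193 k61 13 (.s k195 k194 0 (.s k150 k60 14 (.d
  k215 k235 k20 5 8)))))))) .n))) (.c k125 (.q k253 [(.s k169 k1 13 (.s k252 k254 0 (.s k84 k168 13
  (.d k86 k87 k3 0 14)))), (.s k169 k1 13 (.s k233 k41 7 (.s k213 k193 5 (.s k192 k234 6 (.s k64
  k128 7 (.s k106 k127 6 (.d k149 k21 k63 7 14)))))))] (.c k1 (.l (.s k252 k254 0 (.s k84 k168 13
  (.s k86 k87 0 (.s k124 k67 6 (.s k60 k188 7 (.s k20 k40 5 (.d k150 k215 k195 8 14)))))))) (.c k169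
  (.f k252 k254 0 (.q k86 [(.d k84 k168 k87 13 0), (.s k124 k67 6 (.s k60 k188 7 (.s k20 k40 5 (.d
  k150 k215 k195 8 14))))] (.c k168 (.q k171 [(.d k87 k84 k3 0 13), (.s k124 k67 6 (.s k60 k188 7
  (.s k20 k40 5 (.d k150 k215 k195 8 14))))] .n) (.c k171 (.l (.s k168 k84 13 (.s k124 k67 6 (.s k60
  k188 7 (.s k20 k40 5 (.d k150 k215 k195 8 14)))))) .n)))) .n))) (.c k130 (.l (.s k125 k65 5 (.s
  k60 k190 8 (.s k150 k195 14 (.d k20 k40 k215 5 8))))) (.c k150 (.f k125 k65 5 (.q k117 [(.s k101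
  k69 3 (.s k109 k97 1 (.s k77 k93 3 (.d k113 k121 k89 1 5)))), (.s k48 k186 10 (.s k16 k32 3 (.s
  k154 k223 10 (.s k56 k203 12 (.d k60 k190 k52 8 1)))))] (.c k101 (.l (.s k121 k113 1 (.s k89 k73 3
  (.s k81 k93 1 (.s k243 k162 12 (.d k60 k190 k182 8 10)))))) (.c k130 (.l (.s k190 k60 8 (.s k48
  k186 10 (.s k16 k32 3 (.s k101 k69 3 (.d k154 k223 k207 10 14)))))) (.c k190 (.q k130 [(.s k101
  k69 3 (.s k109 k97 1 (.s k77 k93 3 (.d k113 k121 k89 1 5)))), (.s k48 k186 10 (.s k16 k32 3 (.s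
  k154 k223 10 (.d k101 k69 k207 3 14)))), (.s k121 k113 1 (.s k186 k48 10 (.s k251 k56 8 (.s k243
  k247 1 (.s k81 k162 12 (.d k89 k93 k73 1 3))))))] .n) .n))))) (.c k190 (.l (.s k65 k125 5 (.s k195
  k130 8 (.s k150 k60 14 (.d k215 k235 k20 5 8))))) (.c k195 (.q k1 [(.s k3 k2 0 (.s k87 k171 13 (.s
  k86 k84 0 (.d k169 k253 k252 13 14)))), (.s k65 k125 5 (.s k169 k253 13 (.s k41 k233 7 (.s k61 k21
  5 (.d k193 k129 k149 7 13))))), (.s k3 k2 0 (.s k125 k65 5 (.s k60 k190 8 (.s k40 k20 5 (.s k41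
  k22 6 (.s k21 k61 5 (.d k42 k43 k63 0 6)))))))] .n) (.c k215 (.q k1 [(.s k169 k253 13 (.s k3 k2 0
  (.s k86 k252 14 (.d k87 k84 k171 0 13)))), (.s k65 k125 5 (.s k169 k253 13 (.s k41 k233 7 (.s k61
  k21 5 (.d k193 k129 k149 7 13))))), (.s k3 k2 0 (.s k65 k125 5 (.s k129 k193 7 (.s k66 k192 8 (.s
  k67 k64 0 (.d k195 k131 k130 7 8))))))] .n) (.c k235 (.l (.s k125 k65 5 (.s k60 k190 8 (.s k20 k40
  5 (.d k150 k215 k195 8 14))))) .n))))))))))))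

def t6_118 : T TT 256 :=
  (.f k255 k170 14 (.q k106 [(.s k64 k127 6 (.s k192 k128 7 (.s k149 k63 14 (.d k213 k234 k21 6
  7))))] (.c k21 (.q k1 [(.s k3 k2 0 (.s k87 k171 13 (.s k86 k84 0 (.d k169 k253 k252 13 14)))), (.s
  k64 k127 6 (.s k169 k253 13 (.s k192 k128 7 (.s k149 k63 14 (.s k129 k189 5 (.s k65 k193 7 (.d k66
  k67 k3 0 8))))))), (.s k3 k2 0 (.s k64 k127 6 (.s k192 k128 7 (.s k66 k129 8 (.s k86 k126 5 (.d
  k87 k84 k171 0 13))))))] (.c k3 (.l (.s k64 k127 6 (.s k192 k128 7 (.s k213 k234 6 (.s k253 k169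
  13 (.s k193 k233 5 (.s k65 k129 7 (.d k195 k130 k194 8 0)))))))) .n)) (.c k63 (.q k1 [(.s k3 k2 0
  (.s k87 k171 13 (.s k86 k84 0 (.d k169 k253 k252 13 14)))), (.s k64 k127 6 (.s k192 k128 7 (.s
  k213 k234 6 (.s k253 k169 13 (.s k193 k233 5 (.s k65 k129 7 (.d k195 k130 k194 8 0))))))), (.s k3
  k2 0 (.s k64 k127 6 (.s k192 k128 7 (.s k66 k129 8 (.s k86 k126 5 (.d k87 k84 k171 0 13))))))] (.c
  k171 (.l (.s k3 k2 0 (.s k64 k127 6 (.s k169 k253 13 (.s k86 k252 14 (.s k192 k128 7 (.d k66 k126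
  k129 5 8))))))) .n)) (.c k64 (.q k60 [(.s k20 k40 5 (.s k125 k190 8 (.s k150 k215 8 (.d k105 k65
  k195 5 14)))), (.s k20 k40 5 (.s k150 k215 8 (.s k62 k194 13 (.s k63 k61 0 (.s k21 k42 6 (.d k149
  k213 k192 7 14)))))), (.s k125 k190 8 (.s k105 k65 5 (.s k104 k107 0 (.s k192 k148 13 (.s k149 k63
  14 (.d k213 k234 k21 6 7))))))] (.c k105 (.q k87 [(.s k3 k171 13 (.s k1 k2 0 (.s k169 k253 13 (.d
  k86 k84 k252 0 14)))), (.s k86 k84 0 (.s k126 k66 5 (.s k190 k125 8 (.s k62 k254 7 (.s k150 k194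
  13 (.d k20 k40 k215 5 8)))))), (.s k3 k171 13 (.s k2 k1 0 (.s k22 k41 6 (.s k42 k62 5 (.s k21 k63
  6 (.d k20 k40 k23 5 0))))))] (.c k2 (.l (.s k3 k171 13 (.s k22 k41 6 (.s k86 k84 0 (.s k150 k214 7
  (.d k20 k40 k215 5 8)))))) (.c k40 (.q k235 [(.s k3 k171 13 (.s k1 k2 0 (.s k169 k253 13 (.d k86
  k84 k252 0 14)))), (.s k86 k84 0 (.s k126 k66 5 (.s k190 k125 8 (.s k62 k254 7 (.s k150 k194 13
  (.d k215 k195 k20 5 8)))))), (.s k3 k171 13 (.s k22 k41 6 (.s k215 k195 5 (.s k20 k150 8 (.d k23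
  k21 k151 0 7)))))] .n) (.c k235 (.l (.s k40 k20 5 (.s k3 k171 13 (.s k1 k2 0 (.s k86 k84 0 (.d
  k169 k253 k252 13 14)))))) .n)))) (.c k150 (.q k149 [(.s k21 k213 7 (.d k63 k42 k192 6 14)), (.s
  k63 k192 14 (.s k61 k62 0 (.s k105 k193 13 (.d k125 k190 k65 8 5))))] (.c k63 (.l (.s k213 k21 7
  (.s k192 k234 6 (.s k104 k148 13 (.s k105 k107 0 (.d k125 k65 k190 5 8)))))) (.c k130 (.l (.s k190
  k125 8 (.s k21 k213 7 (.d k63 k42 k192 6 14)))) (.c k190 (.q k130 [(.s k21 k213 7 (.d k63 k42 k192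
  6 14)), (.s k63 k192 14 (.s k61 k62 0 (.s k65 k195 8 (.d k105 k193 k125 13 5))))] (.c k63 (.l (.s
  k65 k195 8 (.s k105 k125 5 (.s k213 k21 7 (.s k192 k234 6 (.d k104 k107 k148 0 13)))))) (.c k192
  (.l (.s k21 k213 7 (.s k63 k42 6 (.s k61 k62 0 (.s k65 k195 8 (.d k105 k193 k125 13 5)))))) .n)))
  (.c k192 (.l (.s k21 k213 7 (.s k63 k42 6 (.s k61 k62 0 (.s k105 k193 13 (.d k125 k65 k190 5
  8)))))) .n))))) .n))) (.c k127 (.q k195 [(.s k65 k130 8 (.s k215 k235 5 (.s k150 k20 8 (.d k105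
  k125 k60 5 14)))), (.s k65 k130 8 (.s k105 k125 5 (.s k107 k104 0 (.s k63 k151 13 (.s k21 k42 6
  (.d k149 k213 k192 7 14)))))), (.s k215 k235 5 (.s k150 k20 8 (.s k194 k62 13 (.s k192 k193 0 (.s
  k149 k63 14 (.d k213 k234 k21 6 7))))))] (.c k105 (.q k149 [(.s k21 k213 7 (.d k63 k42 k192 6
  14)), (.s k63 k192 14 (.s k151 k107 13 (.s k150 k148 0 (.d k215 k235 k20 5 8))))] (.c k40 (.l (.s
  k235 k215 5 (.s k21 k213 7 (.d k63 k42 k192 6 14)))) (.c k63 (.l (.s k213 k21 7 (.s k192 k234 6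
  (.s k194 k193 0 (.s k150 k62 13 (.d k215 k235 k20 5 8)))))) (.c k192 (.l (.s k21 k213 7 (.s k63
  k42 6 (.s k151 k107 13 (.s k150 k148 0 (.d k215 k235 k20 5 8)))))) (.c k235 (.q k40 [(.s k21 k213
  7 (.d k63 k42 k192 6 14)), (.s k20 k60 5 (.s k63 k192 14 (.s k150 k215 8 (.d k151 k148 k107 0
  13))))] (.c k63 (.l (.s k20 k60 5 (.s k150 k215 8 (.s k213 k21 7 (.s k192 k234 6 (.d k194 k62 k193
  13 0)))))) (.c k192 (.l (.s k20 k60 5 (.s k21 k213 7 (.s k63 k42 6 (.s k150 k215 8 (.d k151 k148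
  k107 0 13)))))) .n))) .n))))) (.c k150 (.q k149 [(.s k21 k213 7 (.d k63 k42 k192 6 14)), (.s k63
  k192 14 (.s k107 k151 13 (.s k105 k104 0 (.d k65 k130 k125 8 5))))] (.c k63 (.l (.s k213 k21 7 (.s
  k192 k234 6 (.s k193 k194 0 (.s k105 k61 13 (.d k65 k125 k130 5 8)))))) (.c k130 (.q k190 [(.s k21
  k213 7 (.d k63 k42 k192 6 14)), (.s k63 k192 14 (.s k107 k151 13 (.s k105 k104 0 (.d k125 k60 k65
  8 5))))] (.c k63 (.l (.s k125 k60 8 (.s k105 k65 5 (.s k213 k21 7 (.s k192 k234 6 (.d k193 k61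
  k194 13 0)))))) (.c k192 (.l (.s k21 k213 7 (.s k63 k42 6 (.s k107 k151 13 (.s k105 k104 0 (.d
  k125 k60 k65 8 5)))))) .n))) (.c k190 (.l (.s k130 k65 8 (.s k21 k213 7 (.d k63 k42 k192 6 14))))
  (.c k192 (.l (.s k21 k213 7 (.s k63 k42 6 (.s k107 k151 13 (.s k105 k104 0 (.d k65 k125 k130 5
  8)))))) .n))))) .n))) (.c k128 (.l (.s k127 k64 6 (.s k63 k191 7 (.s k149 k192 14 (.d k21 k42 k213
  6 7))))) (.c k149 (.f k127 k64 6 (.q k90 [(.s k80 k95 2 (.s k240 k160 11 (.s k165 k15 14 (.d k245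
  k250 k5 2 11)))), (.s k122 k74 3 (.s k117 k112 2 (.s k48 k186 10 (.s k16 k32 3 (.s k154 k223 10
  (.d k101 k69 k207 3 14))))))] (.c k80 (.l (.s k122 k74 3 (.s k112 k117 2 (.s k79 k101 6 (.s k95
  k111 3 (.s k15 k175 11 (.s k5 k10 2 (.d k165 k245 k240 11 14)))))))) (.c k128 (.l (.s k191 k63 7
  (.s k80 k95 2 (.s k240 k160 11 (.s k165 k15 14 (.d k245 k250 k5 2 11)))))) (.c k191 (.q k128 [(.s
  k80 k95 2 (.s k240 k160 11 (.s k165 k15 14 (.d k245 k250 k5 2 11)))), (.s k122 k74 3 (.s k117 k112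
  2 (.s k48 k186 10 (.s k16 k32 3 (.s k154 k223 10 (.d k101 k69 k207 3 14))))))] (.c k80 (.l (.s
  k122 k74 3 (.s k112 k117 2 (.s k79 k101 6 (.s k95 k111 3 (.s k15 k175 11 (.s k5 k10 2 (.d k165
  k245 k240 11 14)))))))) .n)) .n))))) (.c k191 (.l (.s k64 k127 6 (.s k192 k128 7 (.s k149 k63 14
  (.d k213 k234 k21 6 7))))) (.c k192 (.q k1 [(.s k3 k2 0 (.s k87 k171 13 (.s k86 k84 0 (.d k169
  k253 k252 13 14)))), (.s k127 k64 6 (.s k63 k191 7 (.s k21 k42 6 (.s k61 k41 5 (.s k253 k169 13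
  (.s k125 k189 7 (.d k60 k190 k62 8 0))))))), (.s k3 k2 0 (.s k127 k64 6 (.s k63 k191 7 (.s k21 k42
  6 (.s k23 k43 5 (.s k22 k20 0 (.d k41 k61 k60 5 6)))))))] .n) (.c k213 (.q k1 [(.s k3 k2 0 (.s k87
  k171 13 (.s k86 k84 0 (.d k169 k253 k252 13 14)))), (.s k64 k127 6 (.s k169 k253 13 (.s k192 k128
  7 (.s k149 k63 14 (.s k129 k189 5 (.s k66 k3 8 (.d k65 k193 k67 7 0))))))), (.s k3 k2 0 (.s k64
  k127 6 (.s k192 k128 7 (.s k66 k129 8 (.s k86 k126 5 (.d k87 k84 k171 0 13))))))] (.c k3 (.l (.s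
  k127 k64 6 (.s k63 k191 7 (.s k21 k42 6 (.s k61 k41 5 (.s k60 k62 0 (.s k125 k190 8 (.d k253 k189
  k169 7 13)))))))) .n)) (.c k234 (.l (.s k127 k64 6 (.s k63 k191 7 (.s k21 k42 6 (.d k149 k213 k192
  7 14))))) .n))))))))))))

def t6_119 : T TT 256 :=
  (.f k255 k170 14 (.q k105 [(.s k65 k125 5 (.s k195 k130 8 (.s k150 k60 14 (.d k215 k235 k20 5
  8))))] (.c k20 (.q k1 [(.s k169 k253 13 (.s k3 k2 0 (.s k86 k252 14 (.d k87 k84 k171 0 13)))), (.s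
  k65 k125 5 (.s k169 k253 13 (.s k41 k233 7 (.s k61 k21 5 (.d k193 k129 k149 7 13))))), (.s k3 k2 0
  (.s k65 k125 5 (.s k129 k193 7 (.s k66 k192 8 (.s k67 k64 0 (.d k195 k131 k130 7 8))))))] .n) (.c
  k60 (.q k1 [(.s k3 k2 0 (.s k87 k171 13 (.s k86 k84 0 (.d k169 k253 k252 13 14)))), (.s k65 k125 5
  (.s k169 k253 13 (.s k41 k233 7 (.s k61 k21 5 (.d k193 k129 k149 7 13))))), (.s k3 k2 0 (.s k65
  k125 5 (.s k129 k193 7 (.s k66 k192 8 (.s k67 k64 0 (.d k195 k131 k130 7 8))))))] .n) (.c k65 (.q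
  k64 [(.s k192 k128 7 (.s k213 k234 6 (.s k149 k21 7 (.d k106 k127 k63 6 14)))), (.s k106 k127 6
  (.s k104 k107 0 (.s k84 k124 5 (.s k252 k168 13 (.s k253 k254 0 (.s k169 k1 13 (.d k86 k87 k3 0
  14)))))))] (.c k106 (.f k192 k128 7 (.q k149 [(.d k213 k234 k21 6 7), (.s k193 k61 13 (.s k195
  k194 0 (.s k150 k60 14 (.d k215 k235 k20 5 8))))] (.c k42 (.l (.s k234 k213 6 (.s k193 k61 13 (.s
  k195 k194 0 (.s k150 k60 14 (.d k215 k235 k20 5 8)))))) (.c k234 (.q k42 [(.d k21 k63 k213 6 7),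
  (.s k193 k61 13 (.s k195 k194 0 (.s k215 k235 5 (.d k150 k20 k60 8 14))))] .n) .n)))) (.c k127 (.l
  (.s k192 k128 7 (.s k213 k234 6 (.s k149 k21 7 (.s k193 k61 13 (.s k195 k194 0 (.s k150 k60 14 (.d
  k215 k235 k20 5 8)))))))) .n))) (.c k125 (.q k253 [(.s k169 k1 13 (.s k252 k254 0 (.s k84 k168 13
  (.d k86 k87 k3 0 14)))), (.s k169 k1 13 (.s k233 k41 7 (.s k213 k193 5 (.s k192 k234 6 (.s k64
  k128 7 (.s k106 k127 6 (.d k149 k21 k63 7 14)))))))] (.c k1 (.l (.s k252 k254 0 (.s k84 k168 13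
  (.s k86 k87 0 (.s k124 k67 6 (.s k60 k188 7 (.s k20 k40 5 (.d k150 k215 k195 8 14)))))))) (.c k169
  (.f k252 k254 0 (.q k86 [(.d k84 k168 k87 13 0), (.s k124 k67 6 (.s k60 k188 7 (.s k20 k40 5 (.d
  k150 k215 k195 8 14))))] (.c k168 (.q k171 [(.d k87 k84 k3 0 13), (.s k124 k67 6 (.s k60 k188 7
  (.s k20 k40 5 (.d k150 k215 k195 8 14))))] .n) (.c k171 (.l (.s k168 k84 13 (.s k124 k67 6 (.s k60
  k188 7 (.s k20 k40 5 (.d k150 k215 k195 8 14)))))) .n)))) .n))) (.c k130 (.l (.s k125 k65 5 (.s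
  k60 k190 8 (.s k150 k195 14 (.d k20 k40 k215 5 8))))) (.c k150 (.f k65 k125 5 (.q k193 [(.s k1
  k129 7 (.s k149 k61 13 (.s k213 k21 7 (.d k253 k233 k169 5 13)))), (.s k1 k129 7 (.s k3 k2 0 (.s
  k87 k171 13 (.s k86 k84 0 (.s k67 k124 6 (.d k195 k130 k131 8 7)))))), (.s k149 k61 13 (.s k21
  k213 7 (.s k63 k42 6 (.s k106 k192 14 (.d k127 k64 k191 6 7)))))] (.c k130 (.q k190 [(.s k149 k61
  13 (.s k213 k21 7 (.s k253 k233 5 (.d k1 k129 k169 7 13)))), (.s k1 k129 7 (.s k3 k2 0 (.s k87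
  k171 13 (.s k86 k84 0 (.d k169 k253 k252 13 14))))), (.s k149 k61 13 (.s k21 k213 7 (.s k63 k42 6
  (.s k106 k192 14 (.d k127 k64 k191 6 7)))))] (.c k253 (.l (.s k129 k1 7 (.s k149 k61 13 (.s k189
  k169 5 (.s k21 k213 7 (.s k63 k42 6 (.d k191 k188 k127 0 7))))))) .n)) (.c k190 (.l (.s k130 k195
  8 (.s k1 k129 7 (.s k61 k149 13 (.s k41 k21 5 (.d k169 k233 k253 7 13)))))) .n)))) (.c k190 (.l
  (.s k65 k125 5 (.s k195 k130 8 (.s k150 k60 14 (.d k215 k235 k20 5 8))))) (.c k195 (.q k1 [(.s k3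
  k2 0 (.s k87 k171 13 (.s k86 k84 0 (.d k169 k253 k252 13 14)))), (.s k65 k125 5 (.s k169 k253 13
  (.s k41 k233 7 (.s k61 k21 5 (.d k193 k129 k149 7 13))))), (.s k3 k2 0 (.s k125 k65 5 (.s k60 k190
  8 (.s k40 k20 5 (.s k41 k22 6 (.s k21 k61 5 (.d k42 k43 k63 0 6)))))))] .n) (.c k215 (.q k1 [(.s
  k169 k253 13 (.s k3 k2 0 (.s k86 k252 14 (.d k87 k84 k171 0 13)))), (.s k65 k125 5 (.s k169 k253
  13 (.s k41 k233 7 (.s k61 k21 5 (.d k193 k129 k149 7 13))))), (.s k3 k2 0 (.s k65 k125 5 (.s k129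
  k193 7 (.s k66 k192 8 (.s k67 k64 0 (.d k195 k131 k130 7 8))))))] .n) (.c k235 (.l (.s k125 k65 5
  (.s k60 k190 8 (.s k20 k40 5 (.d k150 k215 k195 8 14))))) .n))))))))))))

def t6_120 : T TT 256 :=
  (.f k255 k170 14 (.q k106 [(.s k64 k127 6 (.s k192 k128 7 (.s k149 k63 14 (.d k213 k234 k21 6
  7))))] (.c k21 (.q k1 [(.s k169 k253 13 (.s k3 k2 0 (.s k86 k252 14 (.d k87 k84 k171 0 13)))), (.s
  k64 k127 6 (.s k192 k128 7 (.s k213 k234 6 (.s k253 k169 13 (.s k193 k233 5 (.s k65 k129 7 (.d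
  k195 k130 k194 8 0))))))), (.s k3 k2 0 (.s k64 k127 6 (.s k192 k128 7 (.s k66 k129 8 (.s k86 k126
  5 (.d k87 k84 k171 0 13))))))] (.c k171 (.l (.s k3 k2 0 (.s k127 k64 6 (.s k63 k191 7 (.s k43 k23
  5 (.d k169 k232 k253 8 13)))))) .n)) (.c k63 (.q k1 [(.s k3 k2 0 (.s k87 k171 13 (.s k86 k84 0 (.d
  k169 k253 k252 13 14)))), (.s k64 k127 6 (.s k192 k128 7 (.s k213 k234 6 (.s k253 k169 13 (.s k193
  k233 5 (.s k65 k129 7 (.d k195 k130 k194 8 0))))))), (.s k3 k2 0 (.s k64 k127 6 (.s k192 k128 7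
  (.s k66 k129 8 (.s k86 k126 5 (.d k87 k84 k171 0 13))))))] (.c k171 (.l (.s k3 k2 0 (.s k64 k127 6
  (.s k169 k253 13 (.s k86 k252 14 (.s k192 k128 7 (.d k66 k126 k129 5 8))))))) .n)) (.c k64 (.q
  k204 [(.s k68 k136 9 (.s k102 k119 4 (.s k153 k51 14 (.d k221 k238 k17 4 9)))), (.s k68 k136 9 (.s
  k102 k119 4 (.s k110 k98 1 (.s k63 k157 12 (.s k21 k42 6 (.d k149 k213 k192 7 14)))))), (.s k221
  k238 4 (.s k153 k17 9 (.s k200 k59 12 (.s k192 k196 1 (.s k149 k63 14 (.d k213 k234 k21 6 7))))))]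
  (.c k102 (.q k72 [(.s k136 k68 9 (.s k200 k8 7 (.s k153 k59 12 (.d k221 k238 k17 4 9)))), (.s k89
  k123 4 (.s k81 k93 1 (.s k243 k162 12 (.s k166 k12 14 (.d k247 k251 k4 1 12))))), (.s k136 k68 9
  (.s k8 k200 7 (.s k12 k4 1 (.s k132 k192 9 (.d k140 k128 k76 1 7)))))] (.c k34 (.l (.s k238 k221 4
  (.s k89 k123 4 (.s k81 k93 1 (.s k243 k162 12 (.s k166 k12 14 (.d k247 k251 k4 1 12))))))) (.c
  k238 (.q k34 [(.s k17 k51 4 (.s k136 k68 9 (.s k153 k221 9 (.d k200 k8 k59 7 12)))), (.s k89 k123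
  4 (.s k81 k93 1 (.s k243 k162 12 (.s k166 k12 14 (.d k247 k251 k4 1 12)))))] .n) .n))) (.c k153
  (.q k93 [(.s k12 k174 12 (.s k4 k8 1 (.s k166 k247 12 (.d k89 k81 k243 1 14)))), (.s k221 k238 4
  (.s k157 k29 7 (.s k63 k110 12 (.s k21 k42 6 (.d k149 k213 k192 7 14)))))] (.c k136 (.q k187 [(.s
  k12 k174 12 (.s k89 k81 1 (.s k166 k243 14 (.d k4 k8 k247 1 12)))), (.s k89 k81 1 (.s k119 k51 9
  (.s k123 k72 4 (.s k115 k127 1 (.d k102 k68 k76 4 6))))), (.s k12 k174 12 (.s k76 k140 7 (.s k110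
  k127 4 (.s k119 k51 9 (.d k102 k98 k68 1 4)))))] (.c k98 (.l (.s k12 k174 12 (.s k4 k8 1 (.s k166
  k247 12 (.d k89 k81 k243 1 14))))) .n)) (.c k174 (.l (.s k221 k238 4 (.s k157 k29 7 (.s k110 k63
  12 (.s k102 k98 1 (.d k68 k119 k136 4 9)))))) (.c k187 (.l (.s k136 k68 9 (.s k12 k174 12 (.s k4
  k8 1 (.s k89 k81 1 (.d k166 k247 k243 12 14)))))) .n)))) .n))) (.c k127 (.q k51 [(.s k17 k34 4 (.s
  k119 k187 9 (.s k102 k68 4 (.d k153 k221 k204 9 14)))), (.s k17 k34 4 (.s k153 k221 9 (.s k59 k200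
  12 (.s k63 k55 1 (.s k21 k42 6 (.d k149 k213 k192 7 14)))))), (.s k119 k187 9 (.s k102 k68 4 (.s
  k98 k110 1 (.s k192 k145 12 (.s k149 k63 14 (.d k213 k234 k21 6 7))))))] (.c k102 (.q k207 [(.s
  k69 k138 10 (.s k223 k239 3 (.s k154 k16 10 (.d k101 k117 k48 3 14)))), (.s k103 k155 13 (.s k119
  k187 9 (.s k87 k71 3 (.s k171 k3 13 (.d k239 k223 k35 3 9))))), (.s k69 k138 10 (.s k101 k117 3
  (.s k111 k96 2 (.s k63 k159 11 (.s k21 k42 6 (.d k149 k213 k192 7 14))))))] (.c k34 (.q k238 [(.s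
  k69 k138 10 (.s k223 k239 3 (.s k154 k16 10 (.d k101 k117 k48 3 14)))), (.s k103 k155 13 (.s k119
  k187 9 (.s k87 k71 3 (.s k171 k3 13 (.d k239 k223 k35 3 9))))), (.s k69 k138 10 (.s k101 k117 3
  (.s k111 k96 2 (.s k63 k159 11 (.s k21 k42 6 (.d k149 k213 k192 7 14))))))] .n) (.c k238 (.l (.s
  k34 k17 4 (.s k69 k138 10 (.s k101 k117 3 (.s k154 k48 14 (.d k223 k239 k16 3 10)))))) .n))) (.c
  k153 (.q k63 [(.s k21 k42 6 (.d k149 k213 k192 7 14)), (.s k55 k59 1 (.s k149 k192 14 (.s k102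
  k196 12 (.d k119 k187 k68 9 4)))), (.s k17 k34 4 (.s k21 k42 6 (.s k25 k29 1 (.s k38 k12 6 (.d k55
  k59 k4 1 4)))))] (.c k136 (.l (.s k187 k119 9 (.s k21 k42 6 (.d k149 k213 k192 7 14)))) (.c k187
  (.q k136 [(.s k21 k42 6 (.d k149 k213 k192 7 14)), (.s k55 k59 1 (.s k68 k204 9 (.s k102 k119 4
  (.d k149 k196 k192 12 14)))), (.s k17 k34 4 (.s k21 k42 6 (.s k25 k29 1 (.s k38 k12 6 (.d k55 k59
  k4 1 4)))))] .n) .n))) .n))) (.c k128 (.l (.s k127 k64 6 (.s k63 k191 7 (.s k149 k192 14 (.d k21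
  k42 k213 6 7))))) (.c k149 (.f k127 k64 6 (.q k90 [(.s k80 k95 2 (.s k240 k160 11 (.s k165 k15 14
  (.d k245 k250 k5 2 11)))), (.s k122 k74 3 (.s k117 k112 2 (.s k48 k186 10 (.s k16 k32 3 (.s k154
  k223 10 (.d k101 k69 k207 3 14))))))] (.c k80 (.l (.s k122 k74 3 (.s k112 k117 2 (.s k79 k101 6
  (.s k95 k111 3 (.s k15 k175 11 (.s k5 k10 2 (.d k165 k245 k240 11 14)))))))) (.c k128 (.l (.s k191
  k63 7 (.s k80 k95 2 (.s k240 k160 11 (.s k165 k15 14 (.d k245 k250 k5 2 11)))))) (.c k191 (.q k128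
  [(.s k80 k95 2 (.s k240 k160 11 (.s k165 k15 14 (.d k245 k250 k5 2 11)))), (.s k122 k74 3 (.s k117
  k112 2 (.s k48 k186 10 (.s k16 k32 3 (.s k154 k223 10 (.d k101 k69 k207 3 14))))))] (.c k80 (.l
  (.s k122 k74 3 (.s k112 k117 2 (.s k79 k101 6 (.s k95 k111 3 (.s k15 k175 11 (.s k5 k10 2 (.d k165
  k245 k240 11 14)))))))) .n)) .n))))) (.c k191 (.l (.s k64 k127 6 (.s k192 k128 7 (.s k149 k63 14
  (.d k213 k234 k21 6 7))))) (.c k192 (.q k1 [(.s k3 k2 0 (.s k87 k171 13 (.s k86 k84 0 (.d k169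
  k253 k252 13 14)))), (.s k127 k64 6 (.s k63 k191 7 (.s k21 k42 6 (.s k61 k41 5 (.s k253 k169 13
  (.s k125 k189 7 (.d k60 k190 k62 8 0))))))), (.s k3 k2 0 (.s k127 k64 6 (.s k63 k191 7 (.s k21 k42
  6 (.s k23 k43 5 (.s k22 k20 0 (.d k41 k61 k60 5 6)))))))] .n) (.c k213 (.q k1 [(.s k3 k2 0 (.s k87
  k171 13 (.s k86 k84 0 (.d k169 k253 k252 13 14)))), (.s k64 k127 6 (.s k169 k253 13 (.s k192 k128
  7 (.s k149 k63 14 (.s k129 k189 5 (.s k66 k3 8 (.d k65 k193 k67 7 0))))))), (.s k3 k2 0 (.s k64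
  k127 6 (.s k192 k128 7 (.s k66 k129 8 (.s k86 k126 5 (.d k87 k84 k171 0 13))))))] (.c k3 (.l (.s
  k127 k64 6 (.s k63 k191 7 (.s k21 k42 6 (.s k61 k41 5 (.s k60 k62 0 (.s k125 k190 8 (.d k253 k189
  k169 7 13)))))))) .n)) (.c k234 (.l (.s k127 k64 6 (.s k63 k191 7 (.s k21 k42 6 (.d k149 k213 k192
  7 14))))) .n))))))))))))

def t6_121 : T TT 256 :=
  (.f k255 k170 14 (.q k165 [(.s k5 k245 11 (.s k15 k10 2 (.s k90 k240 14 (.d k95 k80 k175 2 11)))),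
  (.s k245 k5 11 (.s k240 k250 2 (.s k80 k160 11 (.d k90 k95 k15 2 14))))] (.c k5 (.q k4 [(.s k12 k8
  1 (.s k93 k174 12 (.s k89 k81 1 (.d k166 k247 k243 12 14)))), (.s k166 k247 12 (.s k164 k167 0 (.s
  k84 k244 11 (.s k252 k168 13 (.s k253 k254 0 (.s k169 k1 13 (.d k86 k87 k3 0 14)))))))] (.c k166
  (.q k86 [(.s k84 k87 0 (.d k244 k164 k7 11 12)), (.s k84 k87 0 (.s k252 k168 13 (.s k169 k3 14 (.d
  k253 k254 k1 0 13))))] (.c k84 (.q k173 [(.s k169 k161 1 (.s k1 k253 13 (.d k3 k2 k252 0 14))),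
  (.s k12 k8 1 (.s k174 k93 12 (.s k172 k175 0 (.s k252 k92 11 (.s k94 k15 12 (.d k254 k253 k14 0
  11))))))] (.c k162 (.q k174 [(.d k12 k8 k93 1 12), (.s k169 k161 1 (.s k1 k253 13 (.d k3 k2 k252 0
  14)))] .n) (.c k174 (.q k162 [(.s k169 k161 1 (.s k1 k253 13 (.d k3 k2 k252 0 14))), (.s k81 k243
  12 (.s k89 k93 1 (.s k83 k92 2 (.s k80 k82 0 (.s k240 k160 11 (.d k90 k95 k15 2 14))))))] .n) (.c
  k252 (.l (.s k12 k8 1 (.s k169 k161 1 (.s k253 k1 13 (.d k93 k13 k174 11 12))))) (.c k253 (.l (.s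
  k12 k8 1 (.s k169 k161 1 (.s k174 k93 12 (.s k172 k175 0 (.d k252 k92 k3 11 14)))))) .n))))) (.c
  k87 (.l (.s k244 k7 12 (.s k84 k164 11 (.s k252 k168 13 (.s k169 k3 14 (.d k253 k254 k1 0 13))))))
  (.c k162 (.q k174 [(.d k12 k8 k93 1 12), (.s k84 k87 0 (.d k244 k164 k7 11 12))] .n) (.c k174 (.q
  k162 [(.s k84 k87 0 (.d k244 k164 k7 11 12)), (.s k81 k243 12 (.s k89 k93 1 (.s k83 k92 2 (.s k80
  k82 0 (.s k240 k160 11 (.d k90 k95 k15 2 14))))))] .n) .n))))) (.c k247 (.l (.s k12 k8 1 (.s k93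
  k174 12 (.s k89 k81 1 (.s k13 k241 13 (.s k15 k14 0 (.s k90 k240 14 (.d k95 k80 k175 2 11))))))))
  .n))) (.c k10 (.l (.s k245 k5 11 (.s k240 k250 2 (.s k90 k15 14 (.d k80 k95 k160 2 11))))) (.c k15
  (.q k1 [(.s k3 k2 0 (.s k87 k171 13 (.s k86 k84 0 (.d k169 k253 k252 13 14)))), (.s k5 k245 11 (.s
  k13 k9 1 (.s k89 k241 13 (.s k93 k81 1 (.d k253 k173 k169 11 13))))), (.s k3 k2 0 (.s k245 k5 11
  (.s k240 k250 2 (.s k160 k80 11 (.s k161 k82 12 (.s k81 k241 11 (.d k162 k163 k243 0 12)))))))]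
  (.c k3 (.l (.s k5 k245 11 (.s k169 k253 13 (.s k161 k173 1 (.s k241 k81 11 (.d k13 k9 k89 1
  13)))))) .n)) (.c k80 (.q k1 [(.s k169 k253 13 (.s k3 k2 0 (.s k86 k252 14 (.d k87 k84 k171 0
  13)))), (.s k5 k245 11 (.s k169 k253 13 (.s k161 k173 1 (.s k241 k81 11 (.d k13 k9 k89 1 13)))))]
  (.c k169 (.l (.s k5 k245 11 (.s k13 k9 1 (.s k15 k10 2 (.s k89 k241 13 (.s k93 k81 1 (.d k12 k14
  k174 0 12))))))) (.c k253 (.l (.s k3 k2 0 (.s k5 k245 11 (.s k87 k171 13 (.s k86 k84 0 (.s k7 k244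
  12 (.d k15 k10 k11 2 1))))))) .n))) (.c k90 (.f k5 k245 11 (.f k10 k15 2 (.q k1 [(.s k3 k2 0 (.s
  k87 k171 13 (.s k86 k84 0 (.d k169 k253 k252 13 14)))), (.s k13 k9 1 (.s k89 k241 13 (.s k81 k93 1
  (.s k243 k162 12 (.s k247 k251 1 (.d k166 k12 k4 14 12))))))] (.c k3 (.l (.s k169 k253 13 (.s k161
  k173 1 (.s k241 k81 11 (.d k13 k9 k89 1 13))))) (.c k253 (.l (.s k3 k2 0 (.s k13 k9 1 (.s k87 k171
  13 (.s k86 k84 0 (.s k169 k252 14 (.s k241 k89 13 (.d k161 k173 k81 1 11)))))))) .n))))) (.c k95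
  (.q k1 [(.s k169 k253 13 (.s k3 k2 0 (.s k86 k252 14 (.d k87 k84 k171 0 13)))), (.s k5 k245 11 (.s
  k169 k253 13 (.s k161 k173 1 (.s k241 k81 11 (.d k13 k9 k89 1 13)))))] (.c k169 (.l (.s k5 k245 11
  (.s k13 k9 1 (.s k15 k10 2 (.s k89 k241 13 (.s k93 k81 1 (.d k12 k14 k174 0 12))))))) (.c k253 (.l
  (.s k3 k2 0 (.s k5 k245 11 (.s k87 k171 13 (.s k86 k84 0 (.s k7 k244 12 (.d k15 k10 k11 2 1)))))))
  .n))) (.c k240 (.q k1 [(.s k3 k2 0 (.s k87 k171 13 (.s k86 k84 0 (.d k169 k253 k252 13 14)))), (.s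
  k5 k245 11 (.s k169 k253 13 (.s k161 k173 1 (.s k241 k81 11 (.d k13 k9 k89 1 13)))))] (.c k169 (.l
  (.s k5 k245 11 (.s k13 k9 1 (.s k15 k10 2 (.s k89 k241 13 (.s k93 k81 1 (.d k12 k14 k174 0
  12))))))) (.c k253 (.l (.s k3 k2 0 (.s k5 k245 11 (.s k87 k171 13 (.s k86 k84 0 (.s k7 k244 12 (.d
  k15 k10 k11 2 1))))))) .n))) (.c k245 (.q k253 [(.s k169 k1 13 (.s k252 k254 0 (.s k84 k168 13 (.d
  k86 k87 k3 0 14)))), (.s k169 k1 13 (.s k173 k161 1 (.s k93 k13 11 (.s k12 k174 12 (.s k4 k8 1 (.s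
  k166 k247 12 (.d k89 k81 k243 1 14)))))))] (.c k1 (.l (.s k252 k254 0 (.s k84 k168 13 (.s k86 k87
  0 (.s k244 k7 12 (.s k240 k248 1 (.s k80 k160 11 (.d k90 k95 k15 2 14)))))))) (.c k169 (.f k252
  k254 0 (.q k86 [(.d k84 k168 k87 13 0), (.s k244 k7 12 (.s k240 k248 1 (.s k80 k160 11 (.d k90 k95
  k15 2 14))))] (.c k168 (.q k171 [(.d k87 k84 k3 0 13), (.s k244 k7 12 (.s k240 k248 1 (.s k80 k160
  11 (.d k90 k95 k15 2 14))))] .n) (.c k171 (.l (.s k168 k84 13 (.s k244 k7 12 (.s k240 k248 1 (.s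
  k80 k160 11 (.d k90 k95 k15 2 14)))))) .n)))) .n))) (.c k250 (.l (.s k5 k245 11 (.s k15 k10 2 (.s
  k90 k240 14 (.d k95 k80 k175 2 11))))) .n)))))))))))

def t6_122 : T TT 256 :=
  (.f k255 k170 14 (.q k105 [(.s k65 k125 5 (.s k195 k130 8 (.s k150 k60 14 (.d k215 k235 k20 5
  8))))] (.c k20 (.q k1 [(.s k169 k253 13 (.s k3 k2 0 (.s k86 k252 14 (.d k87 k84 k171 0 13)))), (.s
  k65 k125 5 (.s k169 k253 13 (.s k41 k233 7 (.s k61 k21 5 (.d k193 k129 k149 7 13))))), (.s k3 k2 0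
  (.s k65 k125 5 (.s k129 k193 7 (.s k66 k192 8 (.s k67 k64 0 (.d k195 k131 k130 7 8))))))] .n) (.c
  k60 (.q k1 [(.s k3 k2 0 (.s k87 k171 13 (.s k86 k84 0 (.d k169 k253 k252 13 14)))), (.s k65 k125 5
  (.s k169 k253 13 (.s k41 k233 7 (.s k61 k21 5 (.d k193 k129 k149 7 13))))), (.s k3 k2 0 (.s k65
  k125 5 (.s k129 k193 7 (.s k66 k192 8 (.s k67 k64 0 (.d k195 k131 k130 7 8))))))] .n) (.c k65 (.q
  k21 [(.s k149 k213 7 (.s k63 k42 6 (.s k106 k192 14 (.d k127 k64 k191 6 7)))), (.s k149 k213 7 (.s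
  k61 k193 13 (.s k1 k41 5 (.s k3 k2 0 (.s k87 k171 13 (.s k86 k84 0 (.d k169 k253 k252 13
  14)))))))] (.c k149 (.f k63 k42 6 (.q k106 [(.d k127 k191 k64 7 6), (.s k107 k104 0 (.s k195 k151
  13 (.s k150 k60 14 (.d k215 k235 k20 5 8))))] (.c k128 (.l (.s k191 k127 7 (.s k107 k104 0 (.s
  k195 k151 13 (.s k150 k60 14 (.d k215 k235 k20 5 8)))))) (.c k191 (.q k128 [(.d k64 k127 k192 6
  7), (.s k107 k104 0 (.s k195 k151 13 (.s k215 k235 5 (.d k150 k20 k60 8 14))))] .n) .n)))) (.c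
  k213 (.l (.s k63 k42 6 (.s k127 k191 7 (.s k106 k64 6 (.s k107 k104 0 (.s k195 k151 13 (.s k150
  k60 14 (.d k215 k235 k20 5 8)))))))) .n))) (.c k125 (.q k253 [(.s k169 k1 13 (.s k252 k254 0 (.s
  k84 k168 13 (.d k86 k87 k3 0 14)))), (.s k169 k1 13 (.s k233 k41 7 (.s k213 k193 5 (.s k192 k234 6
  (.s k64 k128 7 (.s k106 k127 6 (.d k149 k21 k63 7 14)))))))] (.c k1 (.l (.s k252 k254 0 (.s k84
  k168 13 (.s k86 k87 0 (.s k124 k67 6 (.s k60 k188 7 (.s k20 k40 5 (.d k150 k215 k195 8 14))))))))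
  (.c k169 (.f k252 k254 0 (.q k86 [(.d k84 k168 k87 13 0), (.s k124 k67 6 (.s k60 k188 7 (.s k20
  k40 5 (.d k150 k215 k195 8 14))))] (.c k168 (.q k171 [(.d k87 k84 k3 0 13), (.s k124 k67 6 (.s k60
  k188 7 (.s k20 k40 5 (.d k150 k215 k195 8 14))))] .n) (.c k171 (.l (.s k168 k84 13 (.s k124 k67 6
  (.s k60 k188 7 (.s k20 k40 5 (.d k150 k215 k195 8 14)))))) .n)))) .n))) (.c k130 (.l (.s k125 k65
  5 (.s k60 k190 8 (.s k150 k195 14 (.d k20 k40 k215 5 8))))) (.c k150 (.f k125 k65 5 (.q k86 [(.s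
  k84 k87 0 (.s k124 k67 6 (.s k64 k104 5 (.d k127 k126 k106 0 6)))), (.s k84 k87 0 (.s k252 k168 13
  (.s k169 k3 14 (.d k253 k254 k1 0 13)))), (.s k124 k67 6 (.s k127 k126 0 (.s k63 k191 7 (.s k21
  k42 6 (.s k149 k213 7 (.d k106 k64 k192 6 14))))))] (.c k130 (.l (.s k190 k60 8 (.s k84 k87 0 (.s
  k124 k67 6 (.s k64 k104 5 (.d k127 k126 k106 0 6)))))) (.c k190 (.q k130 [(.s k84 k87 0 (.s k124
  k67 6 (.s k64 k104 5 (.d k127 k126 k106 0 6)))), (.s k84 k87 0 (.s k252 k168 13 (.s k169 k3 14 (.d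
  k253 k254 k1 0 13)))), (.s k124 k67 6 (.s k127 k126 0 (.s k63 k191 7 (.s k21 k42 6 (.s k149 k213 7
  (.d k106 k64 k192 6 14))))))] .n) .n)))) (.c k190 (.l (.s k65 k125 5 (.s k195 k130 8 (.s k150 k60
  14 (.d k215 k235 k20 5 8))))) (.c k195 (.q k1 [(.s k3 k2 0 (.s k87 k171 13 (.s k86 k84 0 (.d k169
  k253 k252 13 14)))), (.s k65 k125 5 (.s k169 k253 13 (.s k41 k233 7 (.s k61 k21 5 (.d k193 k129
  k149 7 13))))), (.s k3 k2 0 (.s k125 k65 5 (.s k60 k190 8 (.s k40 k20 5 (.s k41 k22 6 (.s k21 k61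
  5 (.d k42 k43 k63 0 6)))))))] .n) (.c k215 (.q k1 [(.s k169 k253 13 (.s k3 k2 0 (.s k86 k252 14
  (.d k87 k84 k171 0 13)))), (.s k65 k125 5 (.s k169 k253 13 (.s k41 k233 7 (.s k61 k21 5 (.d k193
  k129 k149 7 13))))), (.s k3 k2 0 (.s k65 k125 5 (.s k129 k193 7 (.s k66 k192 8 (.s k67 k64 0 (.d
  k195 k131 k130 7 8))))))] .n) (.c k235 (.l (.s k125 k65 5 (.s k60 k190 8 (.s k20 k40 5 (.d k150
  k215 k195 8 14))))) .n))))))))))))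

def t6_123 : T TT 256 :=
  (.f k255 k170 14 (.q k165 [(.s k5 k245 11 (.s k15 k10 2 (.s k90 k240 14 (.d k95 k80 k175 2 11)))),
  (.s k245 k5 11 (.s k240 k250 2 (.s k80 k160 11 (.d k90 k95 k15 2 14))))] (.c k5 (.q k4 [(.s k12 k8
  1 (.s k93 k174 12 (.s k89 k81 1 (.d k166 k247 k243 12 14)))), (.s k166 k247 12 (.s k164 k167 0 (.s
  k84 k244 11 (.s k252 k168 13 (.s k253 k254 0 (.s k169 k1 13 (.d k86 k87 k3 0 14)))))))] (.c k166
  (.q k86 [(.s k84 k87 0 (.d k244 k164 k7 11 12)), (.s k84 k87 0 (.s k252 k168 13 (.s k169 k3 14 (.d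
  k253 k254 k1 0 13))))] (.c k84 (.q k173 [(.s k169 k161 1 (.s k1 k253 13 (.d k3 k2 k252 0 14))),
  (.s k12 k8 1 (.s k174 k93 12 (.s k172 k175 0 (.s k252 k92 11 (.s k94 k15 12 (.d k254 k253 k14 0
  11))))))] (.c k162 (.q k174 [(.d k12 k8 k93 1 12), (.s k169 k161 1 (.s k1 k253 13 (.d k3 k2 k252 0
  14)))] .n) (.c k174 (.q k162 [(.s k169 k161 1 (.s k1 k253 13 (.d k3 k2 k252 0 14))), (.s k81 k243
  12 (.s k89 k93 1 (.s k83 k92 2 (.s k80 k82 0 (.s k240 k160 11 (.d k90 k95 k15 2 14))))))] .n) (.c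
  k252 (.l (.s k12 k8 1 (.s k169 k161 1 (.s k253 k1 13 (.d k93 k13 k174 11 12))))) (.c k253 (.l (.s
  k12 k8 1 (.s k169 k161 1 (.s k174 k93 12 (.s k172 k175 0 (.d k252 k92 k3 11 14)))))) .n))))) (.c
  k87 (.l (.s k244 k7 12 (.s k84 k164 11 (.s k252 k168 13 (.s k169 k3 14 (.d k253 k254 k1 0 13))))))
  (.c k162 (.q k174 [(.d k12 k8 k93 1 12), (.s k84 k87 0 (.d k244 k164 k7 11 12))] .n) (.c k174 (.q
  k162 [(.s k84 k87 0 (.d k244 k164 k7 11 12)), (.s k81 k243 12 (.s k89 k93 1 (.s k83 k92 2 (.s k80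
  k82 0 (.s k240 k160 11 (.d k90 k95 k15 2 14))))))] .n) .n))))) (.c k247 (.l (.s k12 k8 1 (.s k93
  k174 12 (.s k89 k81 1 (.s k13 k241 13 (.s k15 k14 0 (.s k90 k240 14 (.d k95 k80 k175 2 11))))))))
  .n))) (.c k10 (.l (.s k245 k5 11 (.s k240 k250 2 (.s k90 k15 14 (.d k80 k95 k160 2 11))))) (.c k15
  (.q k1 [(.s k3 k2 0 (.s k87 k171 13 (.s k86 k84 0 (.d k169 k253 k252 13 14)))), (.s k5 k245 11 (.s
  k13 k9 1 (.s k89 k241 13 (.s k93 k81 1 (.d k253 k173 k169 11 13))))), (.s k3 k2 0 (.s k245 k5 11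
  (.s k240 k250 2 (.s k160 k80 11 (.s k161 k82 12 (.s k81 k241 11 (.d k162 k163 k243 0 12)))))))]
  (.c k3 (.l (.s k5 k245 11 (.s k169 k253 13 (.s k161 k173 1 (.s k241 k81 11 (.d k13 k9 k89 1
  13)))))) .n)) (.c k80 (.q k1 [(.s k169 k253 13 (.s k3 k2 0 (.s k86 k252 14 (.d k87 k84 k171 0
  13)))), (.s k5 k245 11 (.s k169 k253 13 (.s k161 k173 1 (.s k241 k81 11 (.d k13 k9 k89 1 13)))))]
  (.c k169 (.l (.s k5 k245 11 (.s k13 k9 1 (.s k15 k10 2 (.s k89 k241 13 (.s k93 k81 1 (.d k12 k14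
  k174 0 12))))))) (.c k253 (.l (.s k3 k2 0 (.s k5 k245 11 (.s k87 k171 13 (.s k86 k84 0 (.s k7 k244
  12 (.d k15 k10 k11 2 1))))))) .n))) (.c k90 (.f k5 k245 11 (.f k10 k15 2 (.q k1 [(.s k3 k2 0 (.s
  k87 k171 13 (.s k86 k84 0 (.d k169 k253 k252 13 14)))), (.s k13 k9 1 (.s k89 k241 13 (.s k81 k93 1
  (.s k243 k162 12 (.s k247 k251 1 (.d k166 k12 k4 14 12))))))] (.c k3 (.l (.s k169 k253 13 (.s k161
  k173 1 (.s k241 k81 11 (.d k13 k9 k89 1 13))))) (.c k253 (.l (.s k3 k2 0 (.s k13 k9 1 (.s k87 k171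
  13 (.s k86 k84 0 (.s k169 k252 14 (.s k241 k89 13 (.d k161 k173 k81 1 11)))))))) .n))))) (.c k95
  (.q k1 [(.s k169 k253 13 (.s k3 k2 0 (.s k86 k252 14 (.d k87 k84 k171 0 13)))), (.s k5 k245 11 (.s
  k169 k253 13 (.s k161 k173 1 (.s k241 k81 11 (.d k13 k9 k89 1 13)))))] (.c k169 (.l (.s k5 k245 11
  (.s k13 k9 1 (.s k15 k10 2 (.s k89 k241 13 (.s k93 k81 1 (.d k12 k14 k174 0 12))))))) (.c k253 (.l
  (.s k3 k2 0 (.s k5 k245 11 (.s k87 k171 13 (.s k86 k84 0 (.s k7 k244 12 (.d k15 k10 k11 2 1)))))))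
  .n))) (.c k240 (.q k1 [(.s k3 k2 0 (.s k87 k171 13 (.s k86 k84 0 (.d k169 k253 k252 13 14)))), (.s
  k5 k245 11 (.s k169 k253 13 (.s k161 k173 1 (.s k241 k81 11 (.d k13 k9 k89 1 13)))))] (.c k169 (.l
  (.s k5 k245 11 (.s k13 k9 1 (.s k15 k10 2 (.s k89 k241 13 (.s k93 k81 1 (.d k12 k14 k174 0
  12))))))) (.c k253 (.l (.s k3 k2 0 (.s k5 k245 11 (.s k87 k171 13 (.s k86 k84 0 (.s k7 k244 12 (.d
  k15 k10 k11 2 1))))))) .n))) (.c k245 (.q k253 [(.s k169 k1 13 (.s k252 k254 0 (.s k84 k168 13 (.d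
  k86 k87 k3 0 14)))), (.s k169 k1 13 (.s k173 k161 1 (.s k93 k13 11 (.s k12 k174 12 (.s k4 k8 1 (.s
  k166 k247 12 (.d k89 k81 k243 1 14)))))))] (.c k1 (.l (.s k252 k254 0 (.s k84 k168 13 (.s k86 k87
  0 (.s k244 k7 12 (.s k240 k248 1 (.s k80 k160 11 (.d k90 k95 k15 2 14)))))))) (.c k169 (.f k252
  k254 0 (.q k86 [(.d k84 k168 k87 13 0), (.s k244 k7 12 (.s k240 k248 1 (.s k80 k160 11 (.d k90 k95
  k15 2 14))))] (.c k168 (.q k171 [(.d k87 k84 k3 0 13), (.s k244 k7 12 (.s k240 k248 1 (.s k80 k160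
  11 (.d k90 k95 k15 2 14))))] .n) (.c k171 (.l (.s k168 k84 13 (.s k244 k7 12 (.s k240 k248 1 (.s
  k80 k160 11 (.d k90 k95 k15 2 14)))))) .n)))) .n))) (.c k250 (.l (.s k5 k245 11 (.s k15 k10 2 (.s
  k90 k240 14 (.d k95 k80 k175 2 11))))) .n)))))))))))

def t6_124 : T TT 256 :=
  (.f k255 k170 14 (.q k105 [(.s k125 k65 5 (.s k60 k190 8 (.s k20 k40 5 (.d k150 k215 k195 8
  14))))] (.c k20 (.q k1 [(.s k3 k2 0 (.s k87 k171 13 (.s k169 k253 13 (.d k86 k84 k252 0 14)))),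
  (.s k65 k125 5 (.s k169 k253 13 (.s k41 k233 7 (.s k61 k21 5 (.d k193 k129 k149 7 13))))), (.s k3
  k2 0 (.s k65 k125 5 (.s k129 k193 7 (.s k66 k192 8 (.s k67 k64 0 (.d k195 k131 k130 7 8))))))] .n)
  (.c k40 (.l (.s k65 k125 5 (.s k195 k130 8 (.s k150 k60 14 (.d k215 k235 k20 5 8))))) (.c k60 (.q
  k252 [(.s k84 k168 13 (.s k86 k87 0 (.s k253 k254 0 (.d k169 k1 k3 13 14)))), (.s k65 k125 5 (.s
  k195 k130 8 (.s k233 k214 6 (.s k253 k254 0 (.d k169 k41 k1 7 13))))), (.s k65 k125 5 (.s k195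
  k130 8 (.s k214 k233 6 (.s k215 k235 5 (.s k150 k20 8 (.s k86 k22 7 (.d k84 k87 k168 0 13)))))))]
  (.c k86 (.l (.s k65 k125 5 (.s k195 k130 8 (.s k233 k214 6 (.s k169 k41 7 (.d k253 k254 k1 0
  13)))))) .n)) (.c k65 (.q k213 [(.s k149 k21 7 (.s k192 k234 6 (.s k64 k128 7 (.d k106 k127 k63 6
  14)))), (.s k149 k21 7 (.s k193 k61 13 (.s k253 k233 5 (.s k252 k254 0 (.s k84 k168 13 (.s k86 k87
  0 (.d k169 k1 k3 13 14)))))))] (.c k21 (.l (.s k192 k234 6 (.s k64 k128 7 (.s k106 k127 6 (.s k104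
  k107 0 (.s k60 k148 13 (.s k20 k40 5 (.d k150 k215 k195 8 14)))))))) (.c k149 (.f k192 k234 6 (.q
  k106 [(.d k64 k128 k127 7 6), (.s k104 k107 0 (.s k60 k148 13 (.s k20 k40 5 (.d k150 k215 k195 8
  14))))] (.c k128 (.q k191 [(.d k127 k64 k63 6 7), (.s k104 k107 0 (.s k60 k148 13 (.s k20 k40 5
  (.d k150 k215 k195 8 14))))] .n) (.c k191 (.l (.s k128 k64 7 (.s k104 k107 0 (.s k60 k148 13 (.s
  k20 k40 5 (.d k150 k215 k195 8 14)))))) .n)))) .n))) (.c k125 (.q k63 [(.s k21 k42 6 (.s k127 k191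
  7 (.s k149 k213 7 (.d k106 k64 k192 6 14)))), (.s k127 k191 7 (.s k106 k64 6 (.s k149 k192 14 (.s
  k61 k193 13 (.s k60 k62 0 (.s k20 k40 5 (.d k150 k195 k215 14 8))))))), (.s k21 k42 6 (.s k149
  k213 7 (.s k61 k193 13 (.s k60 k62 0 (.s k20 k40 5 (.d k150 k215 k195 8 14))))))] (.c k106 (.f
  k127 k191 7 (.q k149 [(.d k21 k42 k213 6 7), (.s k61 k193 13 (.s k60 k62 0 (.s k20 k40 5 (.d k150
  k215 k195 8 14))))] (.c k42 (.q k234 [(.d k213 k192 k21 6 7), (.s k61 k193 13 (.s k60 k62 0 (.s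
  k20 k40 5 (.d k150 k215 k195 8 14))))] .n) (.c k234 (.l (.s k42 k21 6 (.s k61 k193 13 (.s k60 k62
  0 (.s k20 k40 5 (.d k150 k215 k195 8 14)))))) .n)))) (.c k126 (.l (.s k127 k191 7 (.s k21 k42 6
  (.s k106 k64 6 (.d k149 k213 k192 7 14))))) (.c k127 (.q k126 [(.s k252 k189 8 (.s k84 k168 13 (.s
  k253 k254 0 (.s k169 k1 13 (.d k86 k87 k3 0 14))))), (.s k21 k42 6 (.s k149 k213 7 (.s k61 k193 13
  (.s k60 k62 0 (.s k20 k40 5 (.d k150 k215 k195 8 14)))))), (.s k21 k42 6 (.s k149 k213 7 (.s k106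
  k192 14 (.s k86 k66 5 (.s k84 k87 0 (.d k252 k189 k168 8 13))))))] .n) (.c k149 (.q k48 [(.s k16
  k32 3 (.s k117 k186 10 (.s k101 k69 3 (.d k154 k223 k207 10 14)))), (.s k21 k42 6 (.s k53 k58 2
  (.s k117 k186 10 (.s k245 k181 7 (.d k5 k165 k37 11 3))))), (.s k16 k32 3 (.s k21 k42 6 (.s k26
  k31 2 (.s k37 k15 6 (.d k53 k58 k5 2 3)))))] (.c k126 (.f k127 k191 7 (.q k128 [(.d k64 k106 k192
  6 7), (.s k16 k32 3 (.s k117 k186 10 (.s k101 k69 3 (.d k154 k223 k207 10 14))))] .n)) (.c k127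
  (.q k126 [(.s k16 k32 3 (.s k117 k186 10 (.s k101 k69 3 (.d k154 k223 k207 10 14)))), (.s k21 k42
  6 (.s k53 k58 2 (.s k117 k186 10 (.s k245 k181 7 (.d k5 k165 k37 11 3))))), (.s k16 k32 3 (.s k21
  k42 6 (.s k26 k31 2 (.s k37 k15 6 (.d k53 k58 k5 2 3)))))] (.c k128 (.q k191 [(.s k16 k32 3 (.s
  k117 k186 10 (.s k101 k69 3 (.d k154 k223 k207 10 14)))), (.s k186 k117 10 (.s k181 k176 2 (.s
  k122 k240 10 (.d k58 k53 k250 2 7)))), (.s k16 k32 3 (.s k21 k42 6 (.s k26 k31 2 (.s k37 k15 6 (.d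
  k53 k58 k5 2 3)))))] .n) (.c k191 (.q k128 [(.s k16 k32 3 (.s k154 k223 10 (.s k101 k207 14 (.d
  k117 k69 k186 3 10)))), (.s k252 k189 8 (.s k84 k168 13 (.s k86 k87 0 (.s k169 k3 14 (.d k253 k254
  k1 0 13)))))] .n) .n))) (.c k128 (.f k191 k127 7 (.q k126 [(.s k16 k32 3 (.s k117 k186 10 (.s k101
  k69 3 (.d k154 k223 k207 10 14)))), (.s k186 k117 10 (.s k181 k176 2 (.s k122 k240 10 (.d k58 k53
  k250 2 7)))), (.s k16 k32 3 (.s k21 k42 6 (.s k26 k31 2 (.s k37 k15 6 (.d k53 k58 k5 2 3)))))]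
  .n)) (.c k191 (.q k128 [(.s k16 k32 3 (.s k154 k223 10 (.s k101 k207 14 (.d k117 k69 k186 3
  10)))), (.s k53 k58 2 (.s k64 k192 7 (.s k117 k186 10 (.s k127 k106 6 (.s k122 k112 2 (.d k181
  k245 k240 7 10)))))), (.s k16 k32 3 (.s k21 k42 6 (.s k26 k31 2 (.s k37 k15 6 (.d k53 k58 k5 2
  3)))))] (.c k126 (.q k127 [(.d k64 k106 k192 6 7), (.s k16 k32 3 (.s k117 k186 10 (.s k101 k69 3
  (.d k154 k223 k207 10 14))))] .n) (.c k127 (.q k126 [(.s k16 k32 3 (.s k154 k223 10 (.s k101 k207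
  14 (.d k117 k69 k186 3 10)))), (.s k252 k189 8 (.s k84 k168 13 (.s k86 k87 0 (.s k169 k3 14 (.d
  k253 k254 k1 0 13)))))] .n) .n))) .n))))) .n))))) (.c k130 (.l (.s k125 k65 5 (.s k60 k190 8 (.s
  k150 k195 14 (.d k20 k40 k215 5 8))))) (.c k150 (.f k125 k65 5 (.q k89 [(.s k81 k93 1 (.s k121 k73
  3 (.s k243 k162 12 (.d k60 k190 k182 8 10)))), (.s k121 k73 3 (.s k117 k113 1 (.s k48 k186 10 (.s
  k16 k32 3 (.s k154 k223 10 (.d k101 k69 k207 3 14)))))), (.s k81 k93 1 (.s k243 k162 12 (.s k166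
  k12 14 (.d k247 k251 k4 1 12))))] (.c k81 (.l (.s k121 k73 3 (.s k113 k117 1 (.s k77 k101 5 (.s
  k93 k109 3 (.s k12 k174 12 (.s k4 k8 1 (.d k166 k247 k243 12 14)))))))) (.c k130 (.l (.s k190 k60
  8 (.s k81 k93 1 (.s k243 k162 12 (.s k166 k12 14 (.d k247 k251 k4 1 12)))))) (.c k190 (.q k130
  [(.s k81 k93 1 (.s k243 k162 12 (.s k247 k251 1 (.d k166 k4 k12 12 14)))), (.s k121 k73 3 (.s k117
  k113 1 (.s k48 k186 10 (.s k16 k32 3 (.s k154 k223 10 (.d k101 k69 k207 3 14))))))] (.c k81 (.l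
  (.s k121 k73 3 (.s k113 k117 1 (.s k77 k101 5 (.s k93 k109 3 (.s k12 k174 12 (.s k4 k8 1 (.d k166
  k247 k243 12 14)))))))) .n)) .n))))) (.c k190 (.l (.s k65 k125 5 (.s k195 k130 8 (.s k150 k60 14
  (.d k215 k235 k20 5 8))))) (.c k195 (.q k1 [(.s k3 k2 0 (.s k87 k171 13 (.s k169 k253 13 (.d k86
  k84 k252 0 14)))), (.s k65 k125 5 (.s k169 k253 13 (.s k41 k233 7 (.s k61 k21 5 (.d k193 k129 k149
  7 13))))), (.s k3 k2 0 (.s k125 k65 5 (.s k60 k190 8 (.s k40 k20 5 (.s k41 k22 6 (.s k21 k61 5 (.d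
  k42 k43 k63 0 6)))))))] .n) (.c k215 (.q k1 [(.s k3 k2 0 (.s k87 k171 13 (.s k169 k253 13 (.d k86
  k84 k252 0 14)))), (.s k65 k125 5 (.s k169 k253 13 (.s k41 k233 7 (.s k61 k21 5 (.d k193 k129 k149
  7 13))))), (.s k3 k2 0 (.s k65 k125 5 (.s k129 k193 7 (.s k66 k192 8 (.s k67 k64 0 (.d k195 k131
  k130 7 8))))))] .n) .n))))))))))))

def t6_125 : T TT 256 :=
  (.f k255 k170 14 (.q k102 [(.s k68 k119 4 (.s k204 k136 9 (.s k153 k51 14 (.d k221 k238 k17 4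
  9))))] (.c k17 (.q k1 [(.s k3 k2 0 (.s k87 k171 13 (.s k86 k84 0 (.d k169 k253 k252 13 14)))), (.s
  k68 k119 4 (.s k169 k253 13 (.s k204 k136 9 (.s k153 k51 14 (.s k137 k185 3 (.s k69 k205 9 (.d k70
  k71 k3 0 10))))))), (.s k3 k2 0 (.s k68 k119 4 (.s k204 k136 9 (.s k70 k137 10 (.s k86 k118 3 (.d
  k87 k84 k171 0 13))))))] (.c k3 (.l (.s k68 k119 4 (.s k204 k136 9 (.s k221 k238 4 (.s k253 k169
  13 (.s k205 k237 3 (.s k69 k137 9 (.d k207 k138 k206 10 0)))))))) .n)) (.c k51 (.q k1 [(.s k3 k2 0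
  (.s k87 k171 13 (.s k86 k84 0 (.d k169 k253 k252 13 14)))), (.s k68 k119 4 (.s k204 k136 9 (.s
  k221 k238 4 (.s k253 k169 13 (.s k205 k237 3 (.s k69 k137 9 (.d k207 k138 k206 10 0))))))), (.s k3
  k2 0 (.s k68 k119 4 (.s k204 k136 9 (.s k70 k137 10 (.s k86 k118 3 (.d k87 k84 k171 0 13))))))]
  (.c k171 (.l (.s k3 k2 0 (.s k68 k119 4 (.s k169 k253 13 (.s k86 k252 14 (.s k204 k136 9 (.d k70
  k118 k137 3 10))))))) .n)) (.c k68 (.q k81 [(.s k89 k93 1 (.s k243 k162 12 (.s k247 k251 1 (.d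
  k166 k4 k12 12 14)))), (.s k89 k93 1 (.s k115 k76 6 (.s k64 k98 4 (.s k192 k128 7 (.s k213 k234 6
  (.s k149 k21 7 (.d k106 k127 k63 6 14))))))), (.s k243 k162 12 (.s k247 k251 1 (.s k166 k4 12 (.s
  k230 k38 7 (.s k204 k217 6 (.s k153 k51 14 (.d k221 k238 k17 4 9)))))))] (.c k89 (.f k243 k162 12
  (.q k166 [(.d k247 k251 k4 1 12), (.s k230 k38 7 (.s k204 k217 6 (.s k153 k51 14 (.d k221 k238 k17
  4 9))))] (.c k8 (.l (.s k251 k247 1 (.s k230 k38 7 (.s k204 k217 6 (.s k153 k51 14 (.d k221 k238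
  k17 4 9)))))) (.c k251 (.q k8 [(.d k4 k12 k247 1 12), (.s k230 k38 7 (.s k204 k217 6 (.s k221 k238
  4 (.d k153 k17 k51 9 14))))] .n) .n)))) .n)) (.c k119 (.q k81 [(.s k89 k93 1 (.s k243 k162 12 (.s
  k247 k251 1 (.d k166 k4 k12 12 14)))), (.s k89 k93 1 (.s k115 k76 6 (.s k64 k98 4 (.s k192 k128 7
  (.s k213 k234 6 (.s k149 k21 7 (.d k106 k127 k63 6 14))))))), (.s k243 k162 12 (.s k247 k251 1 (.s
  k166 k4 12 (.s k230 k38 7 (.s k204 k217 6 (.s k153 k51 14 (.d k221 k238 k17 4 9)))))))] (.c k89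
  (.f k243 k162 12 (.q k166 [(.d k247 k251 k4 1 12), (.s k230 k38 7 (.s k204 k217 6 (.s k153 k51 14
  (.d k221 k238 k17 4 9))))] (.c k8 (.l (.s k251 k247 1 (.s k230 k38 7 (.s k204 k217 6 (.s k153 k51
  14 (.d k221 k238 k17 4 9)))))) (.c k251 (.q k8 [(.d k4 k12 k247 1 12), (.s k230 k38 7 (.s k204
  k217 6 (.s k221 k238 4 (.d k153 k17 k51 9 14))))] .n) .n)))) .n)) (.c k136 (.l (.s k119 k68 4 (.s
  k51 k187 9 (.s k153 k204 14 (.d k17 k34 k221 4 9))))) (.c k153 (.f k119 k68 4 (.q k149 [(.s k21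
  k213 7 (.s k63 k42 6 (.s k106 k192 14 (.d k127 k64 k191 6 7)))), (.s k55 k196 12 (.s k247 k183 7
  (.s k243 k251 1 (.s k81 k162 12 (.s k89 k93 1 (.d k166 k4 k12 12 14))))))] (.c k136 (.l (.s k187
  k51 9 (.s k21 k213 7 (.s k55 k196 12 (.s k4 k38 4 (.d k247 k183 k166 7 12)))))) (.c k187 (.q k136
  [(.s k21 k213 7 (.s k63 k42 6 (.s k106 k192 14 (.d k127 k64 k191 6 7)))), (.s k55 k196 12 (.s k247
  k183 7 (.s k243 k251 1 (.s k81 k162 12 (.s k89 k93 1 (.d k166 k4 k12 12 14))))))] (.c k191 (.l (.s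
  k21 k213 7 (.s k55 k196 12 (.s k4 k38 4 (.d k247 k183 k166 7 12))))) .n)) .n)))) (.c k187 (.l (.s
  k68 k119 4 (.s k204 k136 9 (.s k153 k51 14 (.d k221 k238 k17 4 9))))) (.c k204 (.q k1 [(.s k3 k2 0
  (.s k87 k171 13 (.s k86 k84 0 (.d k169 k253 k252 13 14)))), (.s k119 k68 4 (.s k51 k187 9 (.s k17
  k34 4 (.s k49 k33 3 (.s k253 k169 13 (.s k117 k185 9 (.d k48 k186 k50 10 0))))))), (.s k3 k2 0 (.s
  k119 k68 4 (.s k51 k187 9 (.s k17 k34 4 (.s k19 k35 3 (.s k18 k16 0 (.d k33 k49 k48 3 4)))))))]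
  .n) (.c k221 (.q k1 [(.s k3 k2 0 (.s k87 k171 13 (.s k86 k84 0 (.d k169 k253 k252 13 14)))), (.s
  k68 k119 4 (.s k169 k253 13 (.s k204 k136 9 (.s k153 k51 14 (.s k137 k185 3 (.s k70 k3 10 (.d k69
  k205 k71 9 0))))))), (.s k3 k2 0 (.s k68 k119 4 (.s k204 k136 9 (.s k70 k137 10 (.s k86 k118 3 (.d
  k87 k84 k171 0 13))))))] (.c k3 (.l (.s k119 k68 4 (.s k51 k187 9 (.s k17 k34 4 (.s k49 k33 3 (.s
  k48 k50 0 (.s k117 k186 10 (.d k253 k185 k169 9 13)))))))) .n)) (.c k238 (.l (.s k119 k68 4 (.s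
  k51 k187 9 (.s k17 k34 4 (.d k153 k221 k204 9 14))))) .n))))))))))))

def t6_126 : T TT 256 :=
  (.f k255 k170 14 (.q k105 [(.s k65 k125 5 (.s k195 k130 8 (.s k150 k60 14 (.d k215 k235 k20 5
  8)))), (.s k125 k65 5 (.s k60 k190 8 (.s k20 k40 5 (.d k150 k215 k195 8 14))))] (.c k20 (.q k1
  [(.s k3 k2 0 (.s k87 k171 13 (.s k169 k253 13 (.d k86 k84 k252 0 14)))), (.s k65 k125 5 (.s k169
  k253 13 (.s k41 k233 7 (.s k61 k21 5 (.d k193 k129 k149 7 13))))), (.s k3 k2 0 (.s k65 k125 5 (.s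
  k129 k193 7 (.s k66 k192 8 (.s k67 k64 0 (.d k195 k131 k130 7 8))))))] .n) (.c k60 (.q k1 [(.s k3
  k2 0 (.s k87 k171 13 (.s k86 k84 0 (.d k169 k253 k252 13 14)))), (.s k65 k125 5 (.s k169 k253 13
  (.s k41 k233 7 (.s k61 k21 5 (.d k193 k129 k149 7 13))))), (.s k3 k2 0 (.s k65 k125 5 (.s k129
  k193 7 (.s k66 k192 8 (.s k67 k64 0 (.d k195 k131 k130 7 8))))))] .n) (.c k65 (.q k213 [(.s k149
  k21 7 (.s k192 k234 6 (.s k64 k128 7 (.d k106 k127 k63 6 14)))), (.s k149 k21 7 (.s k193 k61 13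
  (.s k253 k233 5 (.s k252 k254 0 (.s k84 k168 13 (.s k86 k87 0 (.d k169 k1 k3 13 14)))))))] (.c k21
  (.l (.s k192 k234 6 (.s k64 k128 7 (.s k106 k127 6 (.s k104 k107 0 (.s k60 k148 13 (.s k20 k40 5
  (.d k150 k215 k195 8 14)))))))) (.c k149 (.f k192 k234 6 (.q k106 [(.d k64 k128 k127 7 6), (.s
  k104 k107 0 (.s k60 k148 13 (.s k20 k40 5 (.d k150 k215 k195 8 14))))] (.c k128 (.q k191 [(.d k127
  k64 k63 6 7), (.s k104 k107 0 (.s k60 k148 13 (.s k20 k40 5 (.d k150 k215 k195 8 14))))] .n) (.c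
  k191 (.l (.s k128 k64 7 (.s k104 k107 0 (.s k60 k148 13 (.s k20 k40 5 (.d k150 k215 k195 8
  14)))))) .n)))) .n))) (.c k125 (.q k106 [(.s k127 k64 6 (.s k63 k191 7 (.s k21 k42 6 (.d k149 k213
  k192 7 14)))), (.s k107 k104 0 (.s k127 k64 6 (.s k87 k67 5 (.s k3 k171 13 (.s k1 k2 0 (.s k169
  k253 13 (.d k86 k84 k252 0 14)))))))] (.c k64 (.q k127 [(.s k63 k191 7 (.s k21 k42 6 (.d k149 k213
  k192 7 14))), (.s k107 k104 0 (.s k87 k67 5 (.s k3 k171 13 (.s k1 k2 0 (.s k169 k253 13 (.d k86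
  k84 k252 0 14))))))] .n) (.c k124 (.l (.s k127 k64 6 (.s k63 k191 7 (.s k21 k42 6 (.d k149 k213
  k192 7 14))))) (.c k127 (.q k124 [(.s k104 k107 0 (.s k84 k64 5 (.d k86 k87 k67 0 6))), (.s k86
  k67 6 (.s k87 k84 0 (.s k3 k171 13 (.s k1 k2 0 (.d k169 k253 k252 13 14)))))] (.c k67 (.q k3 [(.s
  k87 k171 13 (.s k104 k107 0 (.d k84 k86 k64 0 5))), (.s k1 k2 0 (.s k169 k253 13 (.s k41 k233 7
  (.s k60 k22 6 (.d k252 k86 k188 14 7))))), (.s k107 k104 0 (.s k171 k87 13 (.s k43 k235 7 (.s k63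
  k23 5 (.s k21 k42 6 (.d k149 k213 k192 7 14))))))] (.c k87 (.l (.s k107 k104 0 (.s k1 k2 0 (.s
  k169 k253 13 (.s k41 k233 7 (.s k60 k22 6 (.d k252 k86 k188 14 7))))))) (.c k107 (.l (.s k87 k171
  13 (.s k1 k2 0 (.s k86 k84 0 (.d k169 k253 k252 13 14))))) .n))) (.c k84 (.q k1 [(.s k86 k67 6 (.s
  k169 k253 13 (.d k3 k2 k252 0 14))), (.s k169 k253 13 (.s k41 k233 7 (.s k43 k232 8 (.s k42 k40 0
  (.d k21 k61 k63 5 6))))), (.s k3 k2 0 (.s k107 k104 0 (.s k171 k87 13 (.s k235 k43 7 (.s k195 k215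
  5 (.d k67 k86 k131 6 7))))))] .n) (.c k86 (.l (.s k104 k107 0 (.s k64 k84 5 (.s k192 k128 7 (.s
  k149 k63 14 (.d k213 k234 k21 6 7)))))) (.c k87 (.l (.s k67 k86 6 (.s k104 k107 0 (.s k64 k84 5
  (.s k192 k128 7 (.s k149 k63 14 (.d k213 k234 k21 6 7))))))) (.c k107 (.l (.s k86 k67 6 (.s k87
  k84 0 (.s k3 k171 13 (.s k1 k2 0 (.d k169 k253 k252 13 14)))))) .n)))))) .n)))) (.c k130 (.l (.s
  k125 k65 5 (.s k60 k190 8 (.s k150 k195 14 (.d k20 k40 k215 5 8))))) (.c k150 (.f k125 k65 5 (.f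
  k190 k60 8 (.q k61 [(.s k149 k193 13 (.s k21 k213 7 (.s k1 k41 5 (.d k253 k189 k169 7 13)))), (.s
  k253 k189 7 (.s k252 k254 0 (.s k84 k168 13 (.s k86 k87 0 (.d k169 k1 k3 13 14))))), (.s k149 k193
  13 (.s k213 k21 7 (.s k192 k234 6 (.s k64 k128 7 (.d k106 k127 k63 6 14)))))] (.c k1 (.l (.s k189
  k253 7 (.s k191 k188 0 (.s k63 k127 7 (.s k21 k42 6 (.d k149 k213 k193 7 13)))))) .n)))) (.c k190
  (.l (.s k65 k125 5 (.s k195 k130 8 (.s k150 k60 14 (.d k215 k235 k20 5 8))))) (.c k195 (.q k1 [(.s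
  k3 k2 0 (.s k87 k171 13 (.s k86 k84 0 (.d k169 k253 k252 13 14)))), (.s k65 k125 5 (.s k169 k253
  13 (.s k41 k233 7 (.s k61 k21 5 (.d k193 k129 k149 7 13))))), (.s k3 k2 0 (.s k125 k65 5 (.s k60
  k190 8 (.s k40 k20 5 (.s k41 k22 6 (.s k21 k61 5 (.d k42 k43 k63 0 6)))))))] .n) (.c k215 (.q k1
  [(.s k3 k2 0 (.s k87 k171 13 (.s k86 k84 0 (.d k169 k253 k252 13 14)))), (.s k65 k125 5 (.s k169
  k253 13 (.s k41 k233 7 (.s k61 k21 5 (.d k193 k129 k149 7 13))))), (.s k3 k2 0 (.s k65 k125 5 (.s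
  k129 k193 7 (.s k66 k192 8 (.s k67 k64 0 (.d k195 k131 k130 7 8))))))] .n) .n)))))))))))

def t6_127 : T TT 256 :=
  (.f k255 k170 14 (.q k101 [(.s k117 k69 3 (.s k48 k186 10 (.s k16 k32 3 (.d k154 k223 k207 10
  14))))] (.c k16 (.q k1 [(.s k169 k253 13 (.s k3 k2 0 (.s k86 k252 14 (.d k87 k84 k171 0 13)))),
  (.s k69 k117 3 (.s k169 k253 13 (.s k33 k237 9 (.s k49 k17 3 (.d k205 k137 k153 9 13))))), (.s k3
  k2 0 (.s k69 k117 3 (.s k137 k205 9 (.s k70 k204 10 (.s k71 k68 0 (.d k207 k139 k138 9 10))))))]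
  .n) (.c k32 (.l (.s k69 k117 3 (.s k207 k138 10 (.s k154 k48 14 (.d k223 k239 k16 3 10))))) (.c
  k48 (.q k1 [(.s k3 k2 0 (.s k87 k171 13 (.s k86 k84 0 (.d k169 k253 k252 13 14)))), (.s k69 k117 3
  (.s k169 k253 13 (.s k33 k237 9 (.s k49 k17 3 (.d k205 k137 k153 9 13))))), (.s k3 k2 0 (.s k69
  k117 3 (.s k137 k205 9 (.s k70 k204 10 (.s k71 k68 0 (.d k207 k139 k138 9 10))))))] .n) (.c k69
  (.q k68 [(.s k204 k136 9 (.s k221 k238 4 (.s k153 k17 9 (.d k102 k119 k51 4 14)))), (.s k102 k119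
  4 (.s k100 k103 0 (.s k84 k116 3 (.s k252 k168 13 (.s k253 k254 0 (.s k169 k1 13 (.d k86 k87 k3 0
  14)))))))] (.c k102 (.f k204 k136 9 (.q k153 [(.d k221 k238 k17 4 9), (.s k205 k49 13 (.s k207
  k206 0 (.s k154 k48 14 (.d k223 k239 k16 3 10))))] (.c k34 (.l (.s k238 k221 4 (.s k205 k49 13 (.s
  k207 k206 0 (.s k154 k48 14 (.d k223 k239 k16 3 10)))))) (.c k238 (.q k34 [(.d k17 k51 k221 4 9),
  (.s k205 k49 13 (.s k207 k206 0 (.s k223 k239 3 (.d k154 k16 k48 10 14))))] .n) .n)))) (.c k119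
  (.l (.s k204 k136 9 (.s k221 k238 4 (.s k153 k17 9 (.s k205 k49 13 (.s k207 k206 0 (.s k154 k48 14
  (.d k223 k239 k16 3 10)))))))) .n))) (.c k117 (.q k240 [(.s k80 k160 11 (.s k90 k95 2 (.s k165 k15
  14 (.d k245 k250 k5 2 11)))), (.s k245 k250 2 (.s k165 k5 11 (.s k229 k37 7 (.s k207 k218 6 (.s
  k223 k239 3 (.d k154 k16 k48 10 14)))))), (.s k80 k160 11 (.s k90 k95 2 (.s k165 k15 14 (.s k229
  k37 7 (.s k207 k218 6 (.s k48 k154 14 (.d k112 k79 k176 6 7)))))))] (.c k90 (.q k112 [(.s k48 k176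
  7 (.s k16 k32 3 (.d k154 k223 k207 10 14))), (.s k80 k160 11 (.s k64 k96 3 (.s k192 k128 7 (.s
  k213 k234 6 (.s k149 k21 7 (.s k197 k53 11 (.d k245 k250 k229 2 3)))))))] (.c k10 (.l (.s k250
  k245 2 (.s k48 k176 7 (.s k16 k32 3 (.d k154 k223 k207 10 14))))) (.c k32 (.l (.s k48 k176 7 (.s
  k80 k160 11 (.s k96 k64 3 (.s k144 k192 11 (.s k16 k208 7 (.d k154 k223 k207 10 14))))))) (.c k176
  (.q k100 [(.s k76 k88 5 (.s k80 k160 11 (.s k64 k96 3 (.s k102 k103 0 (.d k68 k72 k119 1 4))))),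
  (.s k102 k103 0 (.s k68 k119 4 (.s k204 k136 9 (.s k153 k51 14 (.d k221 k238 k17 4 9))))), (.s k80
  k160 11 (.s k88 k76 5 (.s k12 k164 13 (.s k8 k4 1 (.s k84 k92 1 (.d k168 k248 k252 11 13))))))]
  (.c k10 (.l (.s k250 k245 2 (.s k76 k88 5 (.s k80 k160 11 (.s k64 k96 3 (.s k68 k72 1 (.d k102
  k103 k119 0 4))))))) (.c k250 (.q k10 [(.s k76 k88 5 (.s k80 k160 11 (.s k64 k96 3 (.s k102 k103 0
  (.d k68 k72 k119 1 4))))), (.s k102 k103 0 (.s k68 k119 4 (.s k204 k136 9 (.s k153 k51 14 (.d k221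
  k238 k17 4 9))))), (.s k80 k160 11 (.s k88 k76 5 (.s k84 k92 1 (.s k86 k87 0 (.d k116 k68 k71 3
  4)))))] (.c k68 (.l (.s k5 k15 2 (.s k88 k76 5 (.s k102 k103 0 (.s k164 k12 13 (.s k165 k245 11
  (.d k228 k36 k39 7 8))))))) .n)) .n))) (.c k250 (.q k10 [(.s k48 k176 7 (.s k16 k32 3 (.d k154
  k223 k207 10 14))), (.s k15 k5 2 (.s k80 k160 11 (.s k64 k96 3 (.s k192 k128 7 (.s k74 k133 10 (.s
  k69 k79 2 (.d k138 k202 k207 7 10))))))), (.s k5 k15 2 (.s k165 k245 11 (.s k229 k37 7 (.s k207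
  k218 6 (.s k223 k239 3 (.d k154 k48 k16 14 10))))))] (.c k207 (.l (.s k48 k176 7 (.s k16 k32 3 (.s
  k80 k160 11 (.s k96 k64 3 (.d k144 k208 k192 7 11)))))) .n)) .n))))) (.c k112 (.q k122 [(.s k80
  k160 11 (.s k90 k95 2 (.s k165 k15 14 (.d k245 k250 k5 2 11)))), (.s k63 k181 10 (.s k21 k42 6 (.s
  k149 k213 7 (.s k53 k197 11 (.s k58 k48 2 (.d k250 k245 k186 2 7)))))), (.s k80 k160 11 (.s k90
  k95 2 (.s k106 k74 3 (.s k165 k15 14 (.s k224 k47 10 (.s k192 k208 3 (.d k63 k181 k149 10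
  14)))))))] .n) (.c k122 (.q k112 [(.s k90 k79 6 (.d k80 k95 k160 2 11)), (.s k48 k176 7 (.s k16
  k32 3 (.d k154 k223 k207 10 14)))] .n) (.c k165 (.q k112 [(.s k90 k79 6 (.d k80 k95 k160 2 11)),
  (.s k48 k176 7 (.s k16 k32 3 (.d k154 k223 k207 10 14)))] (.c k160 (.q k175 [(.s k90 k79 6 (.d k95
  k80 k15 2 11)), (.s k48 k176 7 (.s k16 k32 3 (.d k154 k223 k207 10 14)))] .n) (.c k175 (.l (.s
  k160 k80 11 (.s k48 k176 7 (.s k16 k32 3 (.d k154 k223 k207 10 14))))) .n))) .n))))) (.c k138 (.l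
  (.s k117 k69 3 (.s k48 k186 10 (.s k154 k207 14 (.d k16 k32 k223 3 10))))) (.c k154 (.f k117 k69 3
  (.q k153 [(.s k17 k221 9 (.s k51 k34 4 (.s k102 k204 14 (.d k119 k68 k187 4 9)))), (.s k49 k205 13
  (.s k253 k185 9 (.s k252 k254 0 (.s k84 k168 13 (.s k86 k87 0 (.d k169 k1 k3 13 14))))))] (.c k138
  (.l (.s k186 k48 10 (.s k17 k221 9 (.s k49 k205 13 (.s k1 k33 3 (.d k253 k185 k169 9 13)))))) (.c
  k186 (.q k138 [(.s k17 k221 9 (.s k51 k34 4 (.s k102 k204 14 (.d k119 k68 k187 4 9)))), (.s k49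
  k205 13 (.s k253 k185 9 (.s k252 k254 0 (.s k84 k168 13 (.s k86 k87 0 (.d k169 k1 k3 13 14))))))]
  (.c k187 (.l (.s k17 k221 9 (.s k49 k205 13 (.s k1 k33 3 (.d k253 k185 k169 9 13))))) .n)) .n))))
  (.c k186 (.l (.s k69 k117 3 (.s k207 k138 10 (.s k154 k48 14 (.d k223 k239 k16 3 10))))) (.c k207
  (.q k1 [(.s k3 k2 0 (.s k87 k171 13 (.s k86 k84 0 (.d k169 k253 k252 13 14)))), (.s k69 k117 3 (.s
  k169 k253 13 (.s k33 k237 9 (.s k49 k17 3 (.d k205 k137 k153 9 13))))), (.s k3 k2 0 (.s k117 k69 3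
  (.s k48 k186 10 (.s k32 k16 3 (.s k33 k18 4 (.s k17 k49 3 (.d k34 k35 k51 0 4)))))))] .n) (.c k223
  (.q k1 [(.s k169 k253 13 (.s k3 k2 0 (.s k86 k252 14 (.d k87 k84 k171 0 13)))), (.s k69 k117 3 (.s
  k169 k253 13 (.s k33 k237 9 (.s k49 k17 3 (.d k205 k137 k153 9 13))))), (.s k3 k2 0 (.s k69 k117 3
  (.s k137 k205 9 (.s k70 k204 10 (.s k71 k68 0 (.d k207 k139 k138 9 10))))))] .n) .n))))))))))))

/-- roots with certificates -/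
def certs : List (Cell TT 256 × Cell TT 256 × T TT 256) :=
  [(k6, k40, t6_40), (k6, k41, t6_41), (k6, k42, t6_42), (k6, k43, t6_43), (k6, k44, t6_44), (k6,
  k45, t6_45), (k6, k46, t6_46), (k6, k47, t6_47), (k6, k49, t6_49), (k6, k50, t6_50), (k6, k51,
  t6_51), (k6, k52, t6_52), (k6, k53, t6_53), (k6, k54, t6_54), (k6, k55, t6_55), (k6, k56, t6_56),
  (k6, k57, t6_57), (k6, k58, t6_58), (k6, k59, t6_59), (k6, k60, t6_60), (k6, k61, t6_61), (k6,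
  k62, t6_62), (k6, k63, t6_63), (k6, k82, t6_82), (k6, k83, t6_83), (k6, k88, t6_88), (k6, k90,
  t6_90), (k6, k91, t6_91), (k6, k92, t6_92), (k6, k94, t6_94), (k6, k95, t6_95), (k6, k96, t6_96),
  (k6, k97, t6_97), (k6, k98, t6_98), (k6, k99, t6_99), (k6, k100, t6_100), (k6, k102, t6_102), (k6,
  k103, t6_103), (k6, k104, t6_104), (k6, k105, t6_105), (k6, k106, t6_106), (k6, k107, t6_107),
  (k6, k108, t6_108), (k6, k109, t6_109), (k6, k110, t6_110), (k6, k111, t6_111), (k6, k112,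
  t6_112), (k6, k113, t6_113), (k6, k114, t6_114), (k6, k115, t6_115), (k6, k118, t6_118), (k6,
  k119, t6_119), (k6, k120, t6_120), (k6, k121, t6_121), (k6, k122, t6_122), (k6, k123, t6_123),
  (k6, k124, t6_124), (k6, k125, t6_125), (k6, k126, t6_126), (k6, k127, t6_127)]

theorem c6_40 : rootOK k6 k40 t6_40 = true := by decide +kernel

theorem c6_41 : rootOK k6 k41 t6_41 = true := by decide +kernel

theorem c6_42 : rootOK k6 k42 t6_42 = true := by decide +kernel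

theorem c6_43 : rootOK k6 k43 t6_43 = true := by decide +kernel

theorem c6_44 : rootOK k6 k44 t6_44 = true := by decide +kernel

theorem c6_45 : rootOK k6 k45 t6_45 = true := by decide +kernel

theorem c6_46 : rootOK k6 k46 t6_46 = true := by decide +kernel

theorem c6_47 : rootOK k6 k47 t6_47 = true := by decide +kernel

theorem c6_49 : rootOK k6 k49 t6_49 = true := by decide +kernel

theorem c6_50 : rootOK k6 k50 t6_50 = true := by decide +kernel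

theorem c6_51 : rootOK k6 k51 t6_51 = true := by decide +kernel

theorem c6_52 : rootOK k6 k52 t6_52 = true := by decide +kernel

theorem c6_53 : rootOK k6 k53 t6_53 = true := by decide +kernel

theorem c6_54 : rootOK k6 k54 t6_54 = true := by decide +kernel

theorem c6_55 : rootOK k6 k55 t6_55 = true := by decide +kernel

theorem c6_56 : rootOK k6 k56 t6_56 = true := by decide +kernel

theorem c6_57 : rootOK k6 k57 t6_57 = true := by decide +kernel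

theorem c6_58 : rootOK k6 k58 t6_58 = true := by decide +kernel

theorem c6_59 : rootOK k6 k59 t6_59 = true := by decide +kernel

theorem c6_60 : rootOK k6 k60 t6_60 = true := by decide +kernel

theorem c6_61 : rootOK k6 k61 t6_61 = true := by decide +kernel

theorem c6_62 : rootOK k6 k62 t6_62 = true := by decide +kernel

theorem c6_63 : rootOK k6 k63 t6_63 = true := by decide +kernel

theorem c6_82 : rootOK k6 k82 t6_82 = true := by decide +kernel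

theorem c6_83 : rootOK k6 k83 t6_83 = true := by decide +kernel

theorem c6_88 : rootOK k6 k88 t6_88 = true := by decide +kernel

theorem c6_90 : rootOK k6 k90 t6_90 = true := by decide +kernel

theorem c6_91 : rootOK k6 k91 t6_91 = true := by decide +kernel

theorem c6_92 : rootOK k6 k92 t6_92 = true := by decide +kernel

theorem c6_94 : rootOK k6 k94 t6_94 = true := by decide +kernel

theorem c6_95 : rootOK k6 k95 t6_95 = true := by decide +kernel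

theorem c6_96 : rootOK k6 k96 t6_96 = true := by decide +kernel

theorem c6_97 : rootOK k6 k97 t6_97 = true := by decide +kernel

theorem c6_98 : rootOK k6 k98 t6_98 = true := by decide +kernel

theorem c6_99 : rootOK k6 k99 t6_99 = true := by decide +kernel

theorem c6_100 : rootOK k6 k100 t6_100 = true := by decide +kernel

theorem c6_102 : rootOK k6 k102 t6_102 = true := by decide +kernel

theorem c6_103 : rootOK k6 k103 t6_103 = true := by decide +kernel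

theorem c6_104 : rootOK k6 k104 t6_104 = true := by decide +kernel

theorem c6_105 : rootOK k6 k105 t6_105 = true := by decide +kernel

theorem c6_106 : rootOK k6 k106 t6_106 = true := by decide +kernel

theorem c6_107 : rootOK k6 k107 t6_107 = true := by decide +kernel

theorem c6_108 : rootOK k6 k108 t6_108 = true := by decide +kernel

theorem c6_109 : rootOK k6 k109 t6_109 = true := by decide +kernel

theorem c6_110 : rootOK k6 k110 t6_110 = true := by decide +kernel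

theorem c6_111 : rootOK k6 k111 t6_111 = true := by decide +kernel

theorem c6_112 : rootOK k6 k112 t6_112 = true := by decide +kernel

theorem c6_113 : rootOK k6 k113 t6_113 = true := by decide +kernel

theorem c6_114 : rootOK k6 k114 t6_114 = true := by decide +kernel

theorem c6_115 : rootOK k6 k115 t6_115 = true := by decide +kernel

theorem c6_118 : rootOK k6 k118 t6_118 = true := by decide +kernel

theorem c6_119 : rootOK k6 k119 t6_119 = true := by decide +kernel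

theorem c6_120 : rootOK k6 k120 t6_120 = true := by decide +kernel

theorem c6_121 : rootOK k6 k121 t6_121 = true := by decide +kernel

theorem c6_122 : rootOK k6 k122 t6_122 = true := by decide +kernel

theorem c6_123 : rootOK k6 k123 t6_123 = true := by decide +kernel

theorem c6_124 : rootOK k6 k124 t6_124 = true := by decide +kernel

theorem c6_125 : rootOK k6 k125 t6_125 = true := by decide +kernel

theorem c6_126 : rootOK k6 k126 t6_126 = true := by decide +kernel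

theorem c6_127 : rootOK k6 k127 t6_127 = true := by decide +kernel

theorem ok : certsOK certs = true :=
  certsOK_cons c6_40 (certsOK_cons c6_41 (certsOK_cons c6_42 (certsOK_cons c6_43 (
  certsOK_cons c6_44 (certsOK_cons c6_45 (certsOK_cons c6_46 (certsOK_cons c6_47 (
  certsOK_cons c6_49 (certsOK_cons c6_50 (certsOK_cons c6_51 (certsOK_cons c6_52 (
  certsOK_cons c6_53 (certsOK_cons c6_54 (certsOK_cons c6_55 (certsOK_cons c6_56 (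
  certsOK_cons c6_57 (certsOK_cons c6_58 (certsOK_cons c6_59 (certsOK_cons c6_60 (
  certsOK_cons c6_61 (certsOK_cons c6_62 (certsOK_cons c6_63 (certsOK_cons c6_82 (
  certsOK_cons c6_83 (certsOK_cons c6_88 (certsOK_cons c6_90 (certsOK_cons c6_91 (
  certsOK_cons c6_92 (certsOK_cons c6_94 (certsOK_cons c6_95 (certsOK_cons c6_96 (
  certsOK_cons c6_97 (certsOK_cons c6_98 (certsOK_cons c6_99 (certsOK_cons c6_100 (
  certsOK_cons c6_102 (certsOK_cons c6_103 (certsOK_cons c6_104 (certsOK_cons c6_105 (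
  certsOK_cons c6_106 (certsOK_cons c6_107 (certsOK_cons c6_108 (certsOK_cons c6_109 (
  certsOK_cons c6_110 (certsOK_cons c6_111 (certsOK_cons c6_112 (certsOK_cons c6_113 (
  certsOK_cons c6_114 (certsOK_cons c6_115 (certsOK_cons c6_118 (certsOK_cons c6_119 (
  certsOK_cons c6_120 (certsOK_cons c6_121 (certsOK_cons c6_122 (certsOK_cons c6_123 (
  certsOK_cons c6_124 (certsOK_cons c6_125 (certsOK_cons c6_126 (certsOK_cons c6_127 (certsOK_nil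
  ))))))))))))))))))))))))))))))))))))))))))))))))))))))))))))

theorem sound (k : Nat) (hk : (bits certs).testBit k = true) : PI k :=
  certs_sound certs ok k hk

end Pool.Agent.TTT.A07
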