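import Pool.Agent.TTT.Sym

set_option autoImplicit false
set_option maxRecDepth 100000

namespace Pool.Agent.TTT.A08

def t6_160 : T TT 256 :=
  (.f k170 k255 14 (.q k207 [(.s k69 k138 10 (.s k101 k117 3 (.s k32 k239 10 (.d k48 k16 k154 3
  14))))] (.c k16 (.q k1 [(.s k3 k2 0 (.s k169 k253 13 (.s k168 k171 0 (.d k252 k84 k86 13 14)))),
  (.s k69 k138 10 (.s k101 k117 3 (.s k169 k253 13 (.s k33 k237 9 (.s k49 k17 3 (.d k205 k137 k153 9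
  13)))))), (.s k3 k2 0 (.s k69 k138 10 (.s k71 k139 9 (.s k70 k68 0 (.d k137 k205 k204 9 10)))))]
  .n) (.c k32 (.f k69 k138 10 (.f k101 k117 3 (.f k48 k154 14 (.q k96 [(.s k106 k111 2 (.s k192 k144
  11 (.d k64 k128 k127 7 6))), (.s k106 k111 2 (.s k64 k127 6 (.s k79 k74 2 (.d k112 k80 k90 3
  6)))), (.s k106 k111 2 (.s k42 k234 7 (.s k63 k21 6 (.d k192 k144 k149 11 14)))), (.s k192 k144 11
  (.s k128 k64 7 (.s k149 k191 6 (.d k197 k202 k53 2 11))))] .n)))) (.c k48 (.f k138 k69 10 (.q k2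
  [(.s k3 k1 0 (.s k70 k206 9 (.s k139 k71 9 (.d k137 k136 k204 0 10)))), (.s k86 k254 13 (.s k84
  k87 0 (.s k252 k168 13 (.s k222 k237 4 (.d k154 k186 k18 3 9)))))] (.c k3 (.l (.s k206 k70 9 (.s
  k204 k205 0 (.s k68 k136 9 (.s k102 k119 4 (.d k154 k186 k50 3 13)))))) (.c k117 (.l (.s k186 k154
  3 (.s k3 k1 0 (.s k70 k206 9 (.s k137 k204 10 (.d k139 k136 k71 0 9)))))) (.c k186 (.q k117 [(.s
  k3 k1 0 (.s k70 k206 9 (.s k139 k71 9 (.d k137 k136 k204 0 10)))), (.s k86 k254 13 (.s k84 k87 0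
  (.s k252 k168 13 (.d k3 k1 k169 0 14)))), (.s k206 k70 9 (.s k254 k86 13 (.s k238 k222 3 (.s k102
  k34 9 (.s k68 k119 4 (.d k204 k205 k136 0 9))))))] .n) .n))))) (.c k69 (.q k89 [(.s k8 k251 12 (.s
  k81 k93 1 (.s k243 k162 12 (.d k12 k4 k166 1 14)))), (.s k8 k251 12 (.s k12 k4 1 (.s k77 k142 8
  (.s k101 k113 5 (.s k32 k239 10 (.d k48 k16 k154 3 14)))))), (.s k81 k93 1 (.s k243 k162 12 (.s
  k219 k231 5 (.s k154 k24 8 (.s k16 k223 10 (.d k48 k32 k101 3 14))))))] (.c k12 (.f k93 k81 1 (.q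
  k9 [(.s k169 k249 11 (.s k1 k253 13 (.s k168 k171 0 (.s k252 k84 13 (.d k3 k2 k86 0 14))))), (.s
  k8 k251 12 (.s k10 k11 0 (.s k5 k15 2 (.s k13 k1 1 (.d k165 k241 k245 13 11))))), (.s k8 k251 12
  (.s k11 k10 0 (.s k169 k249 11 (.s k168 k171 0 (.d k248 k88 k90 11 12))))), (.s k8 k251 12 (.s
  k169 k249 11 (.s k1 k253 13 (.s k5 k13 1 (.d k10 k15 k11 2 0)))))] .n)) (.c k243 (.q k106 [(.s k42
  k234 7 (.s k63 k21 6 (.s k64 k127 6 (.d k192 k128 k149 7 14)))), (.s k93 k81 1 (.s k123 k72 4 (.s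
  k127 k64 6 (.s k76 k110 4 (.d k115 k119 k102 1 6))))), (.s k123 k72 4 (.s k234 k42 7 (.s k251 k8
  12 (.s k59 k187 7 (.d k200 k217 k153 4 12)))))] (.c k247 (.l (.s k251 k8 12 (.s k42 k234 7 (.s k63
  k21 6 (.s k64 k127 6 (.d k192 k128 k149 7 14)))))) (.c k251 (.q k247 [(.s k42 k234 7 (.s k63 k21 6
  (.s k64 k127 6 (.d k192 k128 k149 7 14)))), (.s k93 k81 1 (.s k123 k72 4 (.s k127 k64 6 (.s k76
  k110 4 (.d k115 k119 k102 1 6))))), (.s k4 k166 12 (.s k8 k12 1 (.s k42 k234 7 (.s k59 k25 4 (.s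
  k72 k123 4 (.d k200 k136 k153 7 12))))))] .n) .n))) .n))) (.c k101 (.q k1 [(.s k169 k253 13 (.s
  k168 k171 0 (.s k252 k84 13 (.d k3 k2 k86 0 14)))), (.s k69 k138 10 (.s k205 k137 9 (.s k204 k206
  0 (.s k136 k68 9 (.s k153 k187 4 (.s k17 k221 9 (.d k51 k34 k102 4 14)))))))] (.c k2 (.l (.s k138
  k69 10 (.s k154 k186 3 (.s k169 k253 13 (.s k139 k184 4 (.s k3 k71 9 (.s k168 k171 0 (.d k252 k86
  k84 14 13)))))))) .n)) (.c k117 (.l (.s k138 k69 10 (.s k154 k186 3 (.s k48 k101 14 (.d k16 k32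
  k223 3 10))))) (.c k138 (.q k169 [(.s k1 k253 13 (.s k168 k171 0 (.s k252 k84 13 (.d k3 k2 k86 0
  14)))), (.s k168 k171 0 (.s k252 k84 13 (.s k237 k222 4 (.s k101 k33 9 (.s k32 k239 10 (.d k48 k16
  k154 3 14)))))), (.s k1 k253 13 (.s k3 k2 0 (.s k139 k71 9 (.s k154 k184 4 (.s k16 k223 10 (.d k48
  k32 k101 3 14))))))] (.c k3 (.q k9 [(.s k89 k249 11 (.s k8 k251 12 (.s k11 k10 0 (.s k248 k90 12
  (.d k168 k171 k88 0 11))))), (.s k1 k253 13 (.s k13 k5 1 (.s k89 k249 11 (.s k81 k93 1 (.d k241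
  k161 k165 11 13))))), (.s k1 k253 13 (.s k5 k13 1 (.s k10 k15 2 (.s k11 k8 0 (.d k90 k250 k248 11
  12)))))] (.c k87 (.l (.s k171 k168 0 (.s k1 k253 13 (.s k5 k13 1 (.s k10 k15 2 (.s k11 k8 0 (.d
  k90 k248 k250 12 11))))))) (.c k171 (.q k87 [(.s k89 k249 11 (.s k8 k251 12 (.s k12 k4 1 (.s k81
  k93 1 (.d k243 k162 k166 12 14))))), (.s k1 k253 13 (.s k5 k13 1 (.s k10 k15 2 (.s k11 k8 0 (.d
  k90 k250 k248 11 12))))), (.s k1 k253 13 (.s k13 k5 1 (.s k89 k249 11 (.s k81 k93 1 (.d k241 k161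
  k165 11 13))))), (.s k84 k86 0 (.s k89 k249 11 (.s k8 k251 12 (.s k11 k10 0 (.s k168 k252 13 (.d
  k248 k88 k90 11 12))))))] .n) .n))) (.c k252 (.q k102 [(.s k34 k238 9 (.s k51 k17 4 (.s k68 k119 4
  (.d k204 k136 k153 9 14)))), (.s k168 k171 0 (.s k236 k35 10 (.s k32 k100 9 (.s k48 k16 3 (.d k101
  k239 k154 10 14)))))] (.c k253 (.q k254 [(.s k34 k238 9 (.s k51 k17 4 (.s k68 k119 4 (.d k204 k136
  k153 9 14)))), (.s k168 k171 0 (.s k236 k35 10 (.s k32 k100 9 (.s k48 k16 3 (.d k101 k239 k154 10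
  14)))))] .n) (.c k254 (.l (.s k253 k1 13 (.s k34 k238 9 (.s k51 k17 4 (.s k68 k119 4 (.d k204 k136
  k153 9 14)))))) .n))) .n))) (.c k154 (.q k1 [(.s k169 k253 13 (.s k168 k171 0 (.s k252 k84 13 (.d
  k3 k2 k86 0 14)))), (.s k3 k2 0 (.s k69 k138 10 (.s k137 k205 9 (.s k70 k204 10 (.d k71 k68 k139 0
  9))))), (.s k69 k138 10 (.s k101 k117 3 (.s k169 k253 13 (.s k33 k237 9 (.s k49 k17 3 (.d k205
  k137 k153 9 13))))))] .n) (.c k186 (.l (.s k69 k138 10 (.s k101 k117 3 (.s k48 k154 14 (.d k32 k16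
  k239 3 10))))) (.c k239 (.l (.s k138 k69 10 (.s k154 k186 3 (.s k16 k223 10 (.d k48 k32 k101 3
  14))))) .n))))))))))))

def t6_161 : T TT 256 :=
  (.f k255 k170 14 (.q k106 [(.s k64 k127 6 (.s k192 k128 7 (.s k149 k63 14 (.d k213 k234 k21 6
  7))))] (.c k21 (.q k1 [(.s k169 k253 13 (.s k3 k2 0 (.s k86 k252 14 (.d k87 k84 k171 0 13)))), (.s
  k64 k127 6 (.s k192 k128 7 (.s k213 k234 6 (.s k253 k169 13 (.s k193 k233 5 (.s k65 k129 7 (.d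
  k195 k130 k194 8 0))))))), (.s k3 k2 0 (.s k64 k127 6 (.s k192 k128 7 (.s k66 k129 8 (.s k86 k126
  5 (.d k87 k84 k171 0 13))))))] (.c k171 (.l (.s k3 k2 0 (.s k127 k64 6 (.s k63 k191 7 (.s k43 k23
  5 (.d k169 k232 k253 8 13)))))) .n)) (.c k63 (.q k1 [(.s k3 k2 0 (.s k87 k171 13 (.s k86 k84 0 (.d
  k169 k253 k252 13 14)))), (.s k64 k127 6 (.s k192 k128 7 (.s k213 k234 6 (.s k253 k169 13 (.s k193
  k233 5 (.s k65 k129 7 (.d k195 k130 k194 8 0))))))), (.s k3 k2 0 (.s k64 k127 6 (.s k192 k128 7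
  (.s k66 k129 8 (.s k86 k126 5 (.d k87 k84 k171 0 13))))))] (.c k171 (.l (.s k3 k2 0 (.s k64 k127 6
  (.s k169 k253 13 (.s k86 k252 14 (.s k192 k128 7 (.d k66 k126 k129 5 8))))))) .n)) (.c k64 (.q k60
  [(.s k20 k40 5 (.s k125 k190 8 (.s k150 k215 8 (.d k105 k65 k195 5 14)))), (.s k20 k40 5 (.s k150
  k215 8 (.s k62 k194 13 (.s k63 k61 0 (.s k21 k42 6 (.d k149 k213 k192 7 14)))))), (.s k125 k190 8
  (.s k105 k65 5 (.s k104 k107 0 (.s k192 k148 13 (.s k149 k63 14 (.d k213 k234 k21 6 7))))))] (.c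
  k105 (.q k87 [(.s k3 k171 13 (.s k86 k84 0 (.s k169 k252 14 (.d k1 k2 k253 0 13)))), (.s k86 k84 0
  (.s k126 k66 5 (.s k190 k125 8 (.s k62 k254 7 (.s k150 k194 13 (.d k20 k40 k215 5 8)))))), (.s k3
  k171 13 (.s k2 k1 0 (.s k22 k41 6 (.s k42 k62 5 (.s k21 k63 6 (.d k20 k40 k23 5 0))))))] (.c k2
  (.l (.s k3 k171 13 (.s k22 k41 6 (.s k86 k84 0 (.s k150 k214 7 (.d k20 k40 k215 5 8)))))) (.c k40
  (.q k235 [(.s k3 k171 13 (.s k86 k84 0 (.s k169 k252 14 (.d k1 k2 k253 0 13)))), (.s k3 k171 13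
  (.s k22 k41 6 (.s k215 k195 5 (.s k20 k150 8 (.d k23 k21 k151 0 7))))), (.s k86 k84 0 (.s k126 k66
  5 (.s k190 k125 8 (.s k62 k254 7 (.s k150 k194 13 (.d k215 k195 k20 5 8))))))] .n) (.c k235 (.l
  (.s k40 k20 5 (.s k3 k171 13 (.s k1 k2 0 (.s k86 k84 0 (.d k169 k253 k252 13 14)))))) .n)))) (.c
  k150 (.q k149 [(.s k21 k213 7 (.d k63 k42 k192 6 14)), (.s k63 k192 14 (.s k61 k62 0 (.s k105 k193
  13 (.d k125 k190 k65 8 5))))] (.c k63 (.l (.s k213 k21 7 (.s k192 k234 6 (.s k104 k148 13 (.s k105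
  k107 0 (.d k125 k65 k190 5 8)))))) (.c k130 (.l (.s k190 k125 8 (.s k21 k213 7 (.d k63 k42 k192 6
  14)))) (.c k190 (.q k130 [(.s k21 k213 7 (.d k63 k42 k192 6 14)), (.s k63 k192 14 (.s k61 k62 0
  (.s k65 k195 8 (.d k105 k193 k125 13 5))))] (.c k63 (.l (.s k65 k195 8 (.s k105 k125 5 (.s k213
  k21 7 (.s k192 k234 6 (.d k104 k107 k148 0 13)))))) (.c k192 (.l (.s k21 k213 7 (.s k63 k42 6 (.s
  k61 k62 0 (.s k65 k195 8 (.d k105 k193 k125 13 5)))))) .n))) (.c k192 (.l (.s k21 k213 7 (.s k63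
  k42 6 (.s k61 k62 0 (.s k105 k193 13 (.d k125 k65 k190 5 8)))))) .n))))) .n))) (.c k127 (.q k195
  [(.s k65 k130 8 (.s k215 k235 5 (.s k150 k20 8 (.d k105 k125 k60 5 14)))), (.s k65 k130 8 (.s k105
  k125 5 (.s k107 k104 0 (.s k63 k151 13 (.s k21 k42 6 (.d k149 k213 k192 7 14)))))), (.s k215 k235
  5 (.s k150 k20 8 (.s k194 k62 13 (.s k192 k193 0 (.s k149 k63 14 (.d k213 k234 k21 6 7))))))] (.c
  k105 (.q k149 [(.s k21 k213 7 (.d k63 k42 k192 6 14)), (.s k63 k192 14 (.s k151 k107 13 (.s k150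
  k148 0 (.d k215 k235 k20 5 8))))] (.c k40 (.l (.s k235 k215 5 (.s k21 k213 7 (.d k63 k42 k192 6
  14)))) (.c k63 (.l (.s k213 k21 7 (.s k192 k234 6 (.s k194 k193 0 (.s k150 k62 13 (.d k215 k235
  k20 5 8)))))) (.c k192 (.l (.s k21 k213 7 (.s k63 k42 6 (.s k151 k107 13 (.s k150 k148 0 (.d k215
  k235 k20 5 8)))))) (.c k235 (.q k40 [(.s k21 k213 7 (.d k63 k42 k192 6 14)), (.s k20 k60 5 (.s k63
  k192 14 (.s k150 k215 8 (.d k151 k148 k107 0 13))))] (.c k63 (.l (.s k20 k60 5 (.s k150 k215 8 (.s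
  k213 k21 7 (.s k192 k234 6 (.d k194 k62 k193 13 0)))))) (.c k192 (.l (.s k20 k60 5 (.s k21 k213 7
  (.s k63 k42 6 (.s k150 k215 8 (.d k151 k148 k107 0 13)))))) .n))) .n))))) (.c k150 (.q k149 [(.s
  k21 k213 7 (.d k63 k42 k192 6 14)), (.s k63 k192 14 (.s k107 k151 13 (.s k105 k104 0 (.d k65 k130
  k125 8 5))))] (.c k63 (.l (.s k213 k21 7 (.s k192 k234 6 (.s k193 k194 0 (.s k105 k61 13 (.d k65
  k125 k130 5 8)))))) (.c k130 (.q k190 [(.s k21 k213 7 (.d k63 k42 k192 6 14)), (.s k63 k192 14 (.s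
  k107 k151 13 (.s k105 k104 0 (.d k125 k60 k65 8 5))))] (.c k63 (.l (.s k125 k60 8 (.s k105 k65 5
  (.s k213 k21 7 (.s k192 k234 6 (.d k193 k61 k194 13 0)))))) (.c k192 (.l (.s k21 k213 7 (.s k63
  k42 6 (.s k107 k151 13 (.s k105 k104 0 (.d k125 k60 k65 8 5)))))) .n))) (.c k190 (.l (.s k130 k65
  8 (.s k21 k213 7 (.d k63 k42 k192 6 14)))) (.c k192 (.l (.s k21 k213 7 (.s k63 k42 6 (.s k107 k151
  13 (.s k105 k104 0 (.d k65 k125 k130 5 8)))))) .n))))) .n))) (.c k128 (.l (.s k127 k64 6 (.s k63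
  k191 7 (.s k149 k192 14 (.d k21 k42 k213 6 7))))) (.c k149 (.f k64 k127 6 (.q k80 [(.s k90 k95 2
  (.s k74 k122 3 (.s k79 k69 2 (.d k112 k96 k101 3 6)))), (.s k240 k160 11 (.s k245 k250 2 (.s k165
  k5 11 (.d k90 k95 k15 2 14)))), (.s k96 k112 3 (.s k160 k240 11 (.s k32 k224 7 (.s k48 k16 3 (.d
  k192 k128 k144 7 11)))))] (.c k128 (.q k191 [(.s k90 k95 2 (.s k74 k122 3 (.s k79 k69 2 (.d k112
  k96 k101 3 6)))), (.s k240 k160 11 (.s k245 k250 2 (.s k165 k5 11 (.d k90 k95 k15 2 14)))), (.s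
  k96 k112 3 (.s k160 k240 11 (.s k32 k224 7 (.s k48 k16 3 (.s k117 k186 10 (.d k101 k111 k69 2
  3))))))] .n) (.c k191 (.l (.s k128 k192 7 (.s k90 k95 2 (.s k74 k122 3 (.s k79 k69 2 (.d k112 k96
  k101 3 6)))))) .n)))) (.c k191 (.l (.s k64 k127 6 (.s k192 k128 7 (.s k149 k63 14 (.d k213 k234
  k21 6 7))))) (.c k192 (.q k1 [(.s k3 k2 0 (.s k87 k171 13 (.s k86 k84 0 (.d k169 k253 k252 13
  14)))), (.s k127 k64 6 (.s k63 k191 7 (.s k21 k42 6 (.s k61 k41 5 (.s k253 k169 13 (.s k125 k189 7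
  (.d k60 k190 k62 8 0))))))), (.s k3 k2 0 (.s k127 k64 6 (.s k63 k191 7 (.s k21 k42 6 (.s k23 k43 5
  (.s k22 k20 0 (.d k41 k61 k60 5 6)))))))] .n) (.c k213 (.q k1 [(.s k3 k2 0 (.s k87 k171 13 (.s k86
  k84 0 (.d k169 k253 k252 13 14)))), (.s k64 k127 6 (.s k169 k253 13 (.s k192 k128 7 (.s k149 k63
  14 (.s k129 k189 5 (.s k66 k3 8 (.d k65 k193 k67 7 0))))))), (.s k3 k2 0 (.s k64 k127 6 (.s k192
  k128 7 (.s k66 k129 8 (.s k86 k126 5 (.d k87 k84 k171 0 13))))))] (.c k3 (.l (.s k127 k64 6 (.s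
  k63 k191 7 (.s k21 k42 6 (.s k61 k41 5 (.s k60 k62 0 (.s k125 k190 8 (.d k253 k189 k169 7
  13)))))))) .n)) (.c k234 (.l (.s k127 k64 6 (.s k63 k191 7 (.s k21 k42 6 (.d k149 k213 k192 7
  14))))) .n))))))))))))

def t6_162 : T TT 256 :=
  (.f k170 k255 14 (.q k207 [(.s k69 k138 10 (.s k101 k117 3 (.s k32 k239 10 (.d k48 k16 k154 3
  14))))] (.c k16 (.q k1 [(.s k169 k253 13 (.s k168 k171 0 (.s k252 k84 13 (.d k3 k2 k86 0 14)))),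
  (.s k3 k2 0 (.s k69 k138 10 (.s k71 k139 9 (.s k70 k68 0 (.d k137 k205 k204 9 10))))), (.s k69
  k138 10 (.s k101 k117 3 (.s k169 k253 13 (.s k33 k237 9 (.s k49 k17 3 (.d k205 k137 k153 9
  13))))))] .n) (.c k32 (.f k69 k138 10 (.f k101 k117 3 (.f k48 k154 14 (.q k97 [(.s k105 k109 1 (.s
  k195 k146 12 (.d k65 k130 k125 8 5))), (.s k105 k109 1 (.s k65 k125 5 (.s k77 k73 1 (.d k113 k81
  k89 3 5)))), (.s k105 k109 1 (.s k40 k235 8 (.s k60 k20 5 (.d k195 k146 k150 12 14)))), (.s k195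
  k146 12 (.s k130 k65 8 (.s k150 k190 5 (.d k199 k203 k52 1 12))))] .n)))) (.c k48 (.f k138 k69 10
  (.q k2 [(.s k3 k1 0 (.s k70 k206 9 (.s k139 k71 9 (.d k137 k136 k204 0 10)))), (.s k86 k254 13 (.s
  k84 k87 0 (.s k252 k168 13 (.s k222 k237 4 (.d k154 k186 k18 3 9)))))] (.c k3 (.l (.s k206 k70 9
  (.s k204 k205 0 (.s k68 k136 9 (.s k102 k119 4 (.d k154 k186 k50 3 13)))))) (.c k117 (.l (.s k186
  k154 3 (.s k3 k1 0 (.s k70 k206 9 (.s k137 k204 10 (.d k139 k136 k71 0 9)))))) (.c k186 (.q k117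
  [(.s k3 k1 0 (.s k70 k206 9 (.s k139 k71 9 (.d k137 k136 k204 0 10)))), (.s k86 k254 13 (.s k84
  k87 0 (.s k252 k168 13 (.d k3 k1 k169 0 14)))), (.s k206 k70 9 (.s k254 k86 13 (.s k238 k222 3 (.s
  k102 k34 9 (.s k68 k119 4 (.d k204 k205 k136 0 9))))))] .n) .n))))) (.c k69 (.q k90 [(.s k10 k250
  11 (.s k80 k95 2 (.s k240 k160 11 (.d k15 k5 k165 2 14)))), (.s k10 k250 11 (.s k15 k5 2 (.s k79
  k143 7 (.s k101 k112 6 (.s k32 k239 10 (.d k48 k16 k154 3 14)))))), (.s k80 k95 2 (.s k240 k160 11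
  (.s k218 k229 6 (.s k154 k26 7 (.s k16 k223 10 (.d k48 k32 k101 3 14))))))] (.c k15 (.q k106 [(.s
  k42 k234 7 (.s k63 k21 6 (.s k64 k127 6 (.d k192 k128 k149 7 14)))), (.s k10 k250 11 (.s k74 k122
  3 (.s k202 k138 7 (.s k58 k154 11 (.d k42 k26 k234 3 7))))), (.s k10 k250 11 (.s k64 k127 6 (.s
  k74 k122 3 (.s k192 k128 7 (.d k202 k197 k138 2 7)))))] (.c k95 (.q k175 [(.s k42 k234 7 (.s k63
  k21 6 (.s k192 k149 14 (.d k64 k127 k128 6 7)))), (.s k10 k250 11 (.s k74 k122 3 (.s k202 k138 7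
  (.s k58 k154 11 (.d k42 k26 k234 3 7))))), (.s k10 k250 11 (.s k64 k127 6 (.s k74 k122 3 (.s k192
  k128 7 (.d k202 k197 k138 2 7)))))] .n) (.c k175 (.l (.s k95 k80 2 (.s k42 k234 7 (.s k63 k21 6
  (.s k64 k127 6 (.d k192 k128 k149 7 14)))))) .n))) (.c k240 (.q k79 [(.s k15 k143 7 (.d k10 k250
  k5 11 2)), (.s k101 k112 6 (.s k32 k239 10 (.d k48 k16 k154 3 14)))] (.c k245 (.l (.s k250 k10 11
  (.s k101 k112 6 (.s k32 k239 10 (.d k48 k16 k154 3 14))))) (.c k250 (.q k245 [(.s k5 k165 11 (.d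
  k15 k10 k143 2 7)), (.s k101 k112 6 (.s k32 k239 10 (.d k48 k16 k154 3 14)))] .n) .n))) .n))) (.c
  k101 (.q k1 [(.s k169 k253 13 (.s k168 k171 0 (.s k252 k84 13 (.d k3 k2 k86 0 14)))), (.s k69 k138
  10 (.s k205 k137 9 (.s k204 k206 0 (.s k136 k68 9 (.s k153 k187 4 (.s k17 k221 9 (.d k51 k34 k102
  4 14)))))))] (.c k2 (.l (.s k138 k69 10 (.s k154 k186 3 (.s k169 k253 13 (.s k139 k184 4 (.s k3
  k71 9 (.s k168 k171 0 (.d k252 k86 k84 14 13)))))))) .n)) (.c k117 (.l (.s k138 k69 10 (.s k154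
  k186 3 (.s k48 k101 14 (.d k16 k32 k223 3 10))))) (.c k138 (.q k169 [(.s k1 k253 13 (.s k168 k171
  0 (.s k252 k84 13 (.d k3 k2 k86 0 14)))), (.s k168 k171 0 (.s k252 k84 13 (.s k237 k222 4 (.s k101
  k33 9 (.s k32 k239 10 (.d k48 k16 k154 3 14)))))), (.s k1 k253 13 (.s k3 k2 0 (.s k139 k71 9 (.s
  k154 k184 4 (.s k16 k223 10 (.d k48 k32 k101 3 14))))))] (.c k3 (.f k171 k168 0 (.q k89 [(.s k251
  k8 12 (.s k11 k91 11 (.s k248 k90 12 (.d k249 k9 k250 11 0)))), (.s k1 k253 13 (.s k9 k249 11 (.s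
  k13 k5 1 (.s k81 k93 1 (.d k241 k161 k165 11 13)))))] (.c k9 (.q k12 [(.d k8 k4 k251 1 12), (.s
  k77 k142 8 (.s k101 k113 5 (.s k32 k239 10 (.d k48 k16 k154 3 14))))] .n) (.c k12 (.l (.s k9 k249
  11 (.s k1 k253 13 (.s k5 k13 1 (.s k8 k251 12 (.d k10 k15 k11 2 0)))))) (.c k249 (.l (.s k8 k251
  12 (.s k12 k4 1 (.s k77 k142 8 (.s k101 k113 5 (.s k32 k239 10 (.d k48 k16 k154 3 14)))))))
  .n))))) (.c k252 (.q k105 [(.s k40 k235 8 (.s k60 k20 5 (.s k65 k125 5 (.d k195 k130 k150 8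
  14)))), (.s k125 k65 5 (.s k233 k41 7 (.s k253 k1 13 (.s k61 k189 7 (.d k193 k213 k149 5 13))))),
  (.s k40 k235 8 (.s k41 k233 7 (.s k42 k43 0 (.s k21 k63 6 (.d k1 k253 k61 13 5)))))] (.c k253 (.q
  k254 [(.s k40 k235 8 (.s k60 k20 5 (.s k195 k150 14 (.d k65 k125 k130 5 8)))), (.s k171 k168 0 (.s
  k233 k41 7 (.s k235 k40 8 (.s k43 k107 7 (.d k232 k234 k106 0 8))))), (.s k2 k86 13 (.s k1 k3 0
  (.s k41 k233 7 (.s k61 k21 5 (.s k65 k125 5 (.d k193 k129 k149 7 13))))))] .n) (.c k254 (.l (.s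
  k253 k1 13 (.s k40 k235 8 (.s k60 k20 5 (.s k65 k125 5 (.d k195 k130 k150 8 14)))))) .n))) .n)))
  (.c k154 (.q k1 [(.s k169 k253 13 (.s k168 k171 0 (.s k252 k84 13 (.d k3 k2 k86 0 14)))), (.s k3
  k2 0 (.s k69 k138 10 (.s k137 k205 9 (.s k70 k204 10 (.d k71 k68 k139 0 9))))), (.s k69 k138 10
  (.s k101 k117 3 (.s k169 k253 13 (.s k33 k237 9 (.s k49 k17 3 (.d k205 k137 k153 9 13))))))] .n)
  (.c k186 (.l (.s k69 k138 10 (.s k101 k117 3 (.s k48 k154 14 (.d k32 k16 k239 3 10))))) (.c k239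
  (.l (.s k138 k69 10 (.s k154 k186 3 (.s k16 k223 10 (.d k48 k32 k101 3 14))))) .n))))))))))))

def t6_163 : T TT 256 :=
  (.f k255 k170 14 (.q k106 [(.s k64 k127 6 (.s k192 k128 7 (.s k149 k63 14 (.d k213 k234 k21 6
  7))))] (.c k21 (.q k1 [(.s k3 k2 0 (.s k169 k253 13 (.s k86 k252 14 (.d k87 k84 k171 0 13)))), (.s
  k64 k127 6 (.s k192 k128 7 (.s k213 k234 6 (.s k253 k169 13 (.s k193 k233 5 (.s k65 k129 7 (.d
  k195 k130 k194 8 0))))))), (.s k3 k2 0 (.s k64 k127 6 (.s k192 k128 7 (.s k66 k129 8 (.s k86 k126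
  5 (.d k87 k84 k171 0 13))))))] (.c k171 (.l (.s k3 k2 0 (.s k127 k64 6 (.s k63 k191 7 (.s k43 k23
  5 (.d k169 k232 k253 8 13)))))) .n)) (.c k63 (.q k1 [(.s k3 k2 0 (.s k169 k253 13 (.s k86 k252 14
  (.d k87 k84 k171 0 13)))), (.s k64 k127 6 (.s k192 k128 7 (.s k213 k234 6 (.s k253 k169 13 (.s
  k193 k233 5 (.s k65 k129 7 (.d k195 k130 k194 8 0))))))), (.s k64 k127 6 (.s k169 k253 13 (.s k192
  k128 7 (.s k232 k43 8 (.s k252 k212 5 (.s k84 k168 13 (.d k86 k3 k87 14 0))))))), (.s k3 k2 0 (.s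
  k64 k127 6 (.s k192 k128 7 (.s k66 k129 8 (.s k86 k126 5 (.d k87 k84 k171 0 13))))))] .n) (.c k64
  (.q k60 [(.s k20 k40 5 (.s k125 k190 8 (.s k150 k215 8 (.d k105 k65 k195 5 14)))), (.s k20 k40 5
  (.s k150 k215 8 (.s k62 k194 13 (.s k63 k61 0 (.s k21 k42 6 (.d k149 k213 k192 7 14)))))), (.s
  k125 k190 8 (.s k105 k65 5 (.s k104 k107 0 (.s k192 k148 13 (.s k149 k63 14 (.d k213 k234 k21 6
  7))))))] (.c k105 (.q k86 [(.s k84 k87 0 (.s k252 k168 13 (.s k253 k254 0 (.d k169 k1 k3 13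
  14)))), (.s k126 k66 5 (.s k190 k125 8 (.s k62 k254 7 (.s k150 k194 13 (.d k20 k40 k215 5 8)))))]
  (.c k40 (.q k235 [(.s k84 k87 0 (.s k252 k168 13 (.s k253 k254 0 (.d k169 k1 k3 13 14)))), (.s
  k126 k66 5 (.s k190 k125 8 (.s k62 k254 7 (.s k150 k194 13 (.d k215 k195 k20 5 8)))))] (.c k254
  (.l (.s k87 k84 0 (.s k3 k171 13 (.s k1 k2 0 (.d k169 k253 k252 13 14))))) .n)) (.c k235 (.l (.s
  k40 k20 5 (.s k84 k87 0 (.s k252 k168 13 (.s k169 k3 14 (.d k253 k254 k1 0 13)))))) (.c k254 (.l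
  (.s k87 k84 0 (.s k3 k171 13 (.s k1 k2 0 (.d k169 k253 k252 13 14))))) .n)))) (.c k150 (.q k149
  [(.s k21 k213 7 (.d k63 k42 k192 6 14)), (.s k63 k192 14 (.s k61 k62 0 (.s k105 k193 13 (.d k125
  k190 k65 8 5))))] (.c k63 (.l (.s k213 k21 7 (.s k192 k234 6 (.s k104 k148 13 (.s k105 k107 0 (.d
  k125 k65 k190 5 8)))))) (.c k130 (.l (.s k190 k125 8 (.s k21 k213 7 (.d k63 k42 k192 6 14)))) (.c
  k190 (.q k130 [(.s k21 k213 7 (.d k63 k42 k192 6 14)), (.s k63 k192 14 (.s k61 k62 0 (.s k65 k195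
  8 (.d k105 k193 k125 13 5))))] (.c k63 (.l (.s k65 k195 8 (.s k105 k125 5 (.s k213 k21 7 (.s k192
  k234 6 (.d k104 k107 k148 0 13)))))) (.c k192 (.l (.s k21 k213 7 (.s k63 k42 6 (.s k61 k62 0 (.s
  k65 k195 8 (.d k105 k193 k125 13 5)))))) .n))) (.c k192 (.l (.s k21 k213 7 (.s k63 k42 6 (.s k61
  k62 0 (.s k105 k193 13 (.d k125 k65 k190 5 8)))))) .n))))) .n))) (.c k127 (.q k195 [(.s k65 k130 8
  (.s k215 k235 5 (.s k150 k20 8 (.d k105 k125 k60 5 14)))), (.s k65 k130 8 (.s k105 k125 5 (.s k107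
  k104 0 (.s k63 k151 13 (.s k21 k42 6 (.d k149 k213 k192 7 14)))))), (.s k215 k235 5 (.s k150 k20 8
  (.s k194 k62 13 (.s k192 k193 0 (.s k149 k63 14 (.d k213 k234 k21 6 7))))))] (.c k105 (.q k149
  [(.s k21 k213 7 (.d k63 k42 k192 6 14)), (.s k63 k192 14 (.s k151 k107 13 (.s k150 k148 0 (.d k215
  k235 k20 5 8))))] (.c k40 (.l (.s k235 k215 5 (.s k21 k213 7 (.d k63 k42 k192 6 14)))) (.c k63 (.l
  (.s k213 k21 7 (.s k192 k234 6 (.s k194 k193 0 (.s k150 k62 13 (.d k215 k235 k20 5 8)))))) (.c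
  k192 (.l (.s k21 k213 7 (.s k63 k42 6 (.s k151 k107 13 (.s k150 k148 0 (.d k215 k235 k20 5 8))))))
  (.c k235 (.q k40 [(.s k21 k213 7 (.d k63 k42 k192 6 14)), (.s k20 k60 5 (.s k63 k192 14 (.s k150
  k215 8 (.d k151 k148 k107 0 13))))] (.c k63 (.l (.s k20 k60 5 (.s k150 k215 8 (.s k213 k21 7 (.s
  k192 k234 6 (.d k194 k62 k193 13 0)))))) (.c k192 (.l (.s k20 k60 5 (.s k21 k213 7 (.s k63 k42 6
  (.s k150 k215 8 (.d k151 k148 k107 0 13)))))) .n))) .n))))) (.c k150 (.q k149 [(.s k21 k213 7 (.d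
  k63 k42 k192 6 14)), (.s k63 k192 14 (.s k107 k151 13 (.s k105 k104 0 (.d k65 k130 k125 8 5))))]
  (.c k63 (.l (.s k213 k21 7 (.s k192 k234 6 (.s k193 k194 0 (.s k105 k61 13 (.d k65 k125 k130 5
  8)))))) (.c k130 (.q k190 [(.s k21 k213 7 (.d k63 k42 k192 6 14)), (.s k63 k192 14 (.s k107 k151
  13 (.s k105 k104 0 (.d k125 k60 k65 8 5))))] (.c k63 (.l (.s k125 k60 8 (.s k105 k65 5 (.s k213
  k21 7 (.s k192 k234 6 (.d k193 k61 k194 13 0)))))) (.c k192 (.l (.s k21 k213 7 (.s k63 k42 6 (.s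
  k107 k151 13 (.s k105 k104 0 (.d k125 k60 k65 8 5)))))) .n))) (.c k190 (.l (.s k130 k65 8 (.s k21
  k213 7 (.d k63 k42 k192 6 14)))) (.c k192 (.l (.s k21 k213 7 (.s k63 k42 6 (.s k107 k151 13 (.s
  k105 k104 0 (.d k65 k125 k130 5 8)))))) .n))))) .n))) (.c k128 (.l (.s k127 k64 6 (.s k63 k191 7
  (.s k149 k192 14 (.d k21 k42 k213 6 7))))) (.c k149 (.f k64 k127 6 (.q k80 [(.s k90 k95 2 (.s k74
  k122 3 (.s k79 k69 2 (.d k112 k96 k101 3 6)))), (.s k240 k160 11 (.s k245 k250 2 (.s k165 k5 11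
  (.d k90 k95 k15 2 14)))), (.s k96 k112 3 (.s k160 k240 11 (.s k32 k224 7 (.s k48 k16 3 (.d k192
  k128 k144 7 11)))))] (.c k128 (.q k191 [(.s k90 k95 2 (.s k74 k122 3 (.s k79 k69 2 (.d k112 k96
  k101 3 6)))), (.s k240 k160 11 (.s k245 k250 2 (.s k165 k5 11 (.d k90 k95 k15 2 14)))), (.s k96
  k112 3 (.s k160 k240 11 (.s k32 k224 7 (.s k48 k16 3 (.s k117 k186 10 (.d k101 k111 k69 2 3))))))]
  .n) (.c k191 (.l (.s k128 k192 7 (.s k90 k95 2 (.s k74 k122 3 (.s k79 k69 2 (.d k112 k96 k101 3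
  6)))))) .n)))) (.c k191 (.l (.s k64 k127 6 (.s k192 k128 7 (.s k149 k63 14 (.d k213 k234 k21 6
  7))))) (.c k192 (.q k1 [(.s k3 k2 0 (.s k169 k253 13 (.s k86 k252 14 (.d k87 k84 k171 0 13)))),
  (.s k127 k64 6 (.s k63 k191 7 (.s k21 k42 6 (.s k61 k41 5 (.s k253 k169 13 (.s k125 k189 7 (.d k60
  k190 k62 8 0))))))), (.s k3 k2 0 (.s k127 k64 6 (.s k63 k191 7 (.s k21 k42 6 (.s k23 k43 5 (.s k22
  k20 0 (.d k41 k61 k60 5 6)))))))] .n) (.c k213 (.q k1 [(.s k3 k2 0 (.s k169 k253 13 (.s k86 k252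
  14 (.d k87 k84 k171 0 13)))), (.s k127 k64 6 (.s k63 k191 7 (.s k21 k42 6 (.s k61 k41 5 (.s k60
  k62 0 (.s k125 k190 8 (.d k253 k189 k169 7 13))))))), (.s k64 k127 6 (.s k169 k253 13 (.s k192
  k128 7 (.s k149 k63 14 (.s k129 k189 5 (.s k66 k3 8 (.d k65 k193 k67 7 0))))))), (.s k3 k2 0 (.s
  k64 k127 6 (.s k192 k128 7 (.s k66 k129 8 (.s k86 k126 5 (.d k87 k84 k171 0 13))))))] .n) (.c k234
  (.l (.s k127 k64 6 (.s k63 k191 7 (.s k21 k42 6 (.d k149 k213 k192 7 14))))) .n))))))))))))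

def t6_164 : T TT 256 :=
  (.f k255 k170 14 (.q k106 [(.s k64 k127 6 (.s k192 k128 7 (.s k149 k63 14 (.d k213 k234 k21 6
  7))))] (.c k21 (.q k1 [(.s k169 k253 13 (.s k3 k2 0 (.s k86 k252 14 (.d k87 k84 k171 0 13)))), (.s
  k64 k127 6 (.s k192 k128 7 (.s k213 k234 6 (.s k253 k169 13 (.s k193 k233 5 (.s k65 k129 7 (.d
  k195 k130 k194 8 0))))))), (.s k3 k2 0 (.s k64 k127 6 (.s k192 k128 7 (.s k66 k129 8 (.s k86 k126
  5 (.d k87 k84 k171 0 13))))))] (.c k171 (.l (.s k3 k2 0 (.s k127 k64 6 (.s k63 k191 7 (.s k43 k23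
  5 (.d k169 k232 k253 8 13)))))) .n)) (.c k63 (.q k1 [(.s k3 k2 0 (.s k87 k171 13 (.s k169 k253 13
  (.d k86 k84 k252 0 14)))), (.s k64 k127 6 (.s k192 k128 7 (.s k213 k234 6 (.s k253 k169 13 (.s
  k193 k233 5 (.s k65 k129 7 (.d k195 k130 k194 8 0))))))), (.s k3 k2 0 (.s k64 k127 6 (.s k192 k128
  7 (.s k66 k129 8 (.s k86 k126 5 (.d k87 k84 k171 0 13))))))] (.c k171 (.l (.s k3 k2 0 (.s k64 k127
  6 (.s k169 k253 13 (.s k86 k252 14 (.s k192 k128 7 (.d k66 k126 k129 5 8))))))) .n)) (.c k64 (.q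
  k60 [(.s k20 k40 5 (.s k125 k190 8 (.s k150 k215 8 (.d k105 k65 k195 5 14)))), (.s k20 k40 5 (.s
  k150 k215 8 (.s k62 k194 13 (.s k63 k61 0 (.s k21 k42 6 (.d k149 k213 k192 7 14)))))), (.s k125
  k190 8 (.s k105 k65 5 (.s k104 k107 0 (.s k192 k148 13 (.s k149 k63 14 (.d k213 k234 k21 6
  7))))))] (.c k105 (.q k87 [(.s k3 k171 13 (.s k1 k2 0 (.s k169 k253 13 (.d k86 k84 k252 0 14)))),
  (.s k86 k84 0 (.s k126 k66 5 (.s k190 k125 8 (.s k62 k254 7 (.s k150 k194 13 (.d k20 k40 k215 5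
  8)))))), (.s k3 k171 13 (.s k2 k1 0 (.s k22 k41 6 (.s k42 k62 5 (.s k21 k63 6 (.d k20 k40 k23 5
  0))))))] (.c k2 (.l (.s k3 k171 13 (.s k22 k41 6 (.s k86 k84 0 (.s k150 k214 7 (.d k20 k40 k215 5
  8)))))) (.c k40 (.q k235 [(.s k3 k171 13 (.s k1 k2 0 (.s k169 k253 13 (.d k86 k84 k252 0 14)))),
  (.s k86 k84 0 (.s k126 k66 5 (.s k190 k125 8 (.s k62 k254 7 (.s k150 k194 13 (.d k215 k195 k20 5
  8)))))), (.s k3 k171 13 (.s k22 k41 6 (.s k215 k195 5 (.s k20 k150 8 (.d k23 k21 k151 0 7)))))]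
  .n) (.c k235 (.l (.s k40 k20 5 (.s k3 k171 13 (.s k1 k2 0 (.s k86 k84 0 (.d k169 k253 k252 13
  14)))))) .n)))) (.c k150 (.q k149 [(.s k21 k213 7 (.d k63 k42 k192 6 14)), (.s k63 k192 14 (.s k61
  k62 0 (.s k105 k193 13 (.d k125 k190 k65 8 5))))] (.c k63 (.l (.s k213 k21 7 (.s k192 k234 6 (.s
  k104 k148 13 (.s k105 k107 0 (.d k125 k65 k190 5 8)))))) (.c k130 (.l (.s k190 k125 8 (.s k21 k213
  7 (.d k63 k42 k192 6 14)))) (.c k190 (.q k130 [(.s k21 k213 7 (.d k63 k42 k192 6 14)), (.s k63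
  k192 14 (.s k61 k62 0 (.s k65 k195 8 (.d k105 k193 k125 13 5))))] (.c k63 (.l (.s k65 k195 8 (.s
  k105 k125 5 (.s k213 k21 7 (.s k192 k234 6 (.d k104 k107 k148 0 13)))))) (.c k192 (.l (.s k21 k213
  7 (.s k63 k42 6 (.s k61 k62 0 (.s k65 k195 8 (.d k105 k193 k125 13 5)))))) .n))) (.c k192 (.l (.s
  k21 k213 7 (.s k63 k42 6 (.s k61 k62 0 (.s k105 k193 13 (.d k125 k65 k190 5 8)))))) .n))))) .n)))
  (.c k127 (.q k195 [(.s k65 k130 8 (.s k215 k235 5 (.s k150 k20 8 (.d k105 k125 k60 5 14)))), (.s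
  k65 k130 8 (.s k105 k125 5 (.s k107 k104 0 (.s k63 k151 13 (.s k21 k42 6 (.d k149 k213 k192 7
  14)))))), (.s k215 k235 5 (.s k150 k20 8 (.s k194 k62 13 (.s k192 k193 0 (.s k149 k63 14 (.d k213
  k234 k21 6 7))))))] (.c k105 (.q k149 [(.s k21 k213 7 (.d k63 k42 k192 6 14)), (.s k63 k192 14 (.s
  k151 k107 13 (.s k150 k148 0 (.d k215 k235 k20 5 8))))] (.c k40 (.l (.s k235 k215 5 (.s k21 k213 7
  (.d k63 k42 k192 6 14)))) (.c k63 (.l (.s k213 k21 7 (.s k192 k234 6 (.s k194 k193 0 (.s k150 k62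
  13 (.d k215 k235 k20 5 8)))))) (.c k192 (.l (.s k21 k213 7 (.s k63 k42 6 (.s k151 k107 13 (.s k150
  k148 0 (.d k215 k235 k20 5 8)))))) (.c k235 (.q k40 [(.s k21 k213 7 (.d k63 k42 k192 6 14)), (.s
  k20 k60 5 (.s k63 k192 14 (.s k150 k215 8 (.d k151 k148 k107 0 13))))] (.c k63 (.l (.s k20 k60 5
  (.s k150 k215 8 (.s k213 k21 7 (.s k192 k234 6 (.d k194 k62 k193 13 0)))))) (.c k192 (.l (.s k20
  k60 5 (.s k21 k213 7 (.s k63 k42 6 (.s k150 k215 8 (.d k151 k148 k107 0 13)))))) .n))) .n))))) (.c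
  k150 (.q k149 [(.s k21 k213 7 (.d k63 k42 k192 6 14)), (.s k63 k192 14 (.s k107 k151 13 (.s k105
  k104 0 (.d k65 k130 k125 8 5))))] (.c k63 (.l (.s k213 k21 7 (.s k192 k234 6 (.s k193 k194 0 (.s
  k105 k61 13 (.d k65 k125 k130 5 8)))))) (.c k130 (.q k190 [(.s k21 k213 7 (.d k63 k42 k192 6 14)),
  (.s k63 k192 14 (.s k107 k151 13 (.s k105 k104 0 (.d k125 k60 k65 8 5))))] (.c k63 (.l (.s k125
  k60 8 (.s k105 k65 5 (.s k213 k21 7 (.s k192 k234 6 (.d k193 k61 k194 13 0)))))) (.c k192 (.l (.s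
  k21 k213 7 (.s k63 k42 6 (.s k107 k151 13 (.s k105 k104 0 (.d k125 k60 k65 8 5)))))) .n))) (.c
  k190 (.l (.s k130 k65 8 (.s k21 k213 7 (.d k63 k42 k192 6 14)))) (.c k192 (.l (.s k21 k213 7 (.s
  k63 k42 6 (.s k107 k151 13 (.s k105 k104 0 (.d k65 k125 k130 5 8)))))) .n))))) .n))) (.c k128 (.l
  (.s k127 k64 6 (.s k63 k191 7 (.s k149 k192 14 (.d k21 k42 k213 6 7))))) (.c k149 (.f k127 k64 6
  (.q k89 [(.s k81 k93 1 (.s k123 k72 4 (.s k243 k162 12 (.d k63 k191 k183 7 9)))), (.s k123 k72 4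
  (.s k119 k115 1 (.s k51 k187 9 (.s k17 k34 4 (.s k153 k221 9 (.d k102 k68 k204 4 14)))))), (.s k81
  k93 1 (.s k243 k162 12 (.s k166 k12 14 (.d k247 k251 k4 1 12))))] (.c k81 (.l (.s k123 k72 4 (.s
  k115 k119 1 (.s k76 k102 6 (.s k93 k110 4 (.s k12 k174 12 (.s k4 k8 1 (.d k166 k247 k243 12
  14)))))))) (.c k128 (.l (.s k191 k63 7 (.s k81 k93 1 (.s k243 k162 12 (.s k166 k12 14 (.d k247
  k251 k4 1 12)))))) (.c k191 (.q k128 [(.s k81 k93 1 (.s k243 k162 12 (.s k247 k251 1 (.d k166 k4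
  k12 12 14)))), (.s k123 k72 4 (.s k119 k115 1 (.s k51 k187 9 (.s k17 k34 4 (.s k153 k221 9 (.d
  k102 k68 k204 4 14))))))] (.c k81 (.l (.s k123 k72 4 (.s k115 k119 1 (.s k76 k102 6 (.s k93 k110 4
  (.s k12 k174 12 (.s k4 k8 1 (.d k166 k247 k243 12 14)))))))) .n)) .n))))) (.c k191 (.l (.s k64
  k127 6 (.s k192 k128 7 (.s k149 k63 14 (.d k213 k234 k21 6 7))))) (.c k192 (.q k1 [(.s k3 k2 0 (.s
  k87 k171 13 (.s k169 k253 13 (.d k86 k84 k252 0 14)))), (.s k127 k64 6 (.s k63 k191 7 (.s k21 k42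
  6 (.s k61 k41 5 (.s k253 k169 13 (.s k125 k189 7 (.d k60 k190 k62 8 0))))))), (.s k3 k2 0 (.s k127
  k64 6 (.s k63 k191 7 (.s k21 k42 6 (.s k23 k43 5 (.s k22 k20 0 (.d k41 k61 k60 5 6)))))))] .n) (.c
  k213 (.q k1 [(.s k169 k253 13 (.s k3 k2 0 (.s k86 k252 14 (.d k87 k84 k171 0 13)))), (.s k127 k64
  6 (.s k63 k191 7 (.s k21 k42 6 (.s k61 k41 5 (.s k60 k62 0 (.s k125 k190 8 (.d k253 k189 k169 7
  13))))))), (.s k64 k127 6 (.s k169 k253 13 (.s k192 k128 7 (.s k149 k63 14 (.s k129 k189 5 (.s k66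
  k3 8 (.d k65 k193 k67 7 0))))))), (.s k3 k2 0 (.s k64 k127 6 (.s k192 k128 7 (.s k66 k129 8 (.s
  k86 k126 5 (.d k87 k84 k171 0 13))))))] .n) (.c k234 (.l (.s k127 k64 6 (.s k63 k191 7 (.s k21 k42
  6 (.d k149 k213 k192 7 14))))) .n))))))))))))

def t6_165 : T TT 256 :=
  (.f k170 k255 14 (.q k207 [(.s k69 k138 10 (.s k101 k117 3 (.s k32 k239 10 (.d k48 k16 k154 3
  14))))] (.c k16 (.q k1 [(.s k3 k2 0 (.s k169 k253 13 (.s k168 k171 0 (.d k252 k84 k86 13 14)))),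
  (.s k69 k138 10 (.s k101 k117 3 (.s k169 k253 13 (.s k33 k237 9 (.s k49 k17 3 (.d k205 k137 k153 9
  13)))))), (.s k3 k2 0 (.s k69 k138 10 (.s k71 k139 9 (.s k70 k68 0 (.d k137 k205 k204 9 10)))))]
  .n) (.c k32 (.q k1 [(.s k169 k253 13 (.s k168 k171 0 (.s k252 k84 13 (.d k3 k2 k86 0 14)))), (.s
  k3 k2 0 (.s k69 k138 10 (.s k71 k139 9 (.s k70 k68 0 (.d k137 k205 k204 9 10))))), (.s k69 k138 10
  (.s k101 k117 3 (.s k169 k253 13 (.s k33 k237 9 (.s k49 k17 3 (.d k205 k137 k153 9 13))))))] .n)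
  (.c k48 (.f k138 k69 10 (.q k2 [(.s k3 k1 0 (.s k70 k206 9 (.s k139 k71 9 (.d k137 k136 k204 0
  10)))), (.s k86 k254 13 (.s k84 k87 0 (.s k252 k168 13 (.s k222 k237 4 (.d k154 k186 k18 3 9)))))]
  (.c k3 (.l (.s k206 k70 9 (.s k204 k205 0 (.s k68 k136 9 (.s k102 k119 4 (.d k154 k186 k50 3
  13)))))) (.c k117 (.l (.s k186 k154 3 (.s k3 k1 0 (.s k70 k206 9 (.s k137 k204 10 (.d k139 k136
  k71 0 9)))))) (.c k186 (.q k117 [(.s k3 k1 0 (.s k70 k206 9 (.s k139 k71 9 (.d k137 k136 k204 0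
  10)))), (.s k86 k254 13 (.s k84 k87 0 (.s k252 k168 13 (.d k3 k1 k169 0 14)))), (.s k206 k70 9 (.s
  k254 k86 13 (.s k238 k222 3 (.s k102 k34 9 (.s k68 k119 4 (.d k204 k205 k136 0 9))))))] .n)
  .n))))) (.c k69 (.q k150 [(.s k20 k215 8 (.s k60 k40 5 (.s k130 k190 5 (.d k195 k65 k105 8 14)))),
  (.s k130 k190 5 (.s k195 k65 8 (.s k199 k203 1 (.s k101 k52 12 (.s k32 k239 10 (.d k48 k16 k154 3
  14)))))), (.s k20 k215 8 (.s k60 k40 5 (.s k158 k109 12 (.s k154 k146 1 (.s k16 k223 10 (.d k48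
  k32 k101 3 14))))))] (.c k60 (.q k86 [(.s k2 k254 13 (.s k84 k87 0 (.s k252 k168 13 (.d k3 k1 k169
  0 14)))), (.s k20 k215 8 (.s k22 k214 7 (.s k23 k21 0 (.s k84 k87 0 (.d k212 k148 k149 7 8))))),
  (.s k2 k254 13 (.s k20 k215 8 (.s k22 k214 7 (.s k42 k62 5 (.d k21 k63 k23 6 0)))))] (.c k125 (.l
  (.s k190 k130 5 (.s k2 k254 13 (.s k3 k1 0 (.s k84 k87 0 (.d k252 k168 k169 13 14)))))) (.c k190
  (.q k125 [(.s k84 k87 0 (.s k252 k168 13 (.s k3 k169 14 (.d k2 k1 k254 0 13)))), (.s k2 k254 13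
  (.s k20 k215 8 (.s k22 k214 7 (.s k21 k23 0 (.d k42 k62 k63 5 6))))), (.s k20 k215 8 (.s k22 k214
  7 (.s k23 k21 0 (.s k84 k87 0 (.d k212 k148 k149 7 8)))))] (.c k87 (.l (.s k2 k254 13 (.s k3 k1 0
  (.s k65 k105 5 (.s k195 k130 8 (.s k131 k67 7 (.d k169 k252 k188 14 6))))))) .n)) .n))) (.c k195
  (.q k149 [(.s k21 k213 7 (.s k63 k42 6 (.s k128 k191 6 (.d k192 k64 k106 7 14)))), (.s k151 k148 0
  (.s k190 k130 5 (.s k191 k128 6 (.s k131 k171 5 (.d k188 k189 k169 0 6))))), (.s k151 k148 0 (.s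
  k213 k21 7 (.s k215 k20 8 (.s k23 k87 7 (.d k212 k214 k86 0 8)))))] (.c k215 (.q k235 [(.s k21
  k213 7 (.s k63 k42 6 (.s k128 k191 6 (.d k192 k64 k106 7 14)))), (.s k151 k148 0 (.s k190 k130 5
  (.s k191 k128 6 (.s k131 k171 5 (.d k188 k189 k169 0 6))))), (.s k21 k213 7 (.s k40 k105 8 (.s k20
  k60 5 (.s k23 k22 0 (.s k148 k151 0 (.d k212 k84 k86 7 8))))))] .n) (.c k235 (.l (.s k215 k20 8
  (.s k21 k213 7 (.s k63 k42 6 (.s k128 k191 6 (.d k192 k64 k106 7 14)))))) .n))) .n))) (.c k101 (.f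
  k69 k138 10 (.q k71 [(.s k3 k139 9 (.s k70 k68 0 (.s k137 k204 10 (.d k1 k2 k205 0 9)))), (.s k3
  k139 9 (.s k2 k1 0 (.s k86 k254 13 (.s k84 k87 0 (.d k252 k168 k169 13 14))))), (.s k68 k70 0 (.s
  k102 k119 4 (.s k34 k238 9 (.s k51 k17 4 (.d k204 k136 k153 9 14)))))] (.c k2 (.l (.s k3 k139 9
  (.s k70 k68 0 (.s k137 k204 10 (.s k1 k205 9 (.s k169 k253 13 (.s k168 k171 0 (.d k252 k84 k86 13
  14)))))))) (.c k37 (.q k229 [(.s k3 k139 9 (.s k70 k68 0 (.s k137 k204 10 (.d k1 k2 k205 0 9)))),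
  (.s k3 k139 9 (.s k2 k1 0 (.s k86 k254 13 (.s k84 k87 0 (.d k252 k168 k169 13 14))))), (.s k68 k70
  0 (.s k102 k119 4 (.s k34 k238 9 (.s k51 k17 4 (.d k204 k136 k153 9 14)))))] (.c k2 (.l (.s k3
  k139 9 (.s k70 k68 0 (.s k137 k204 10 (.s k1 k205 9 (.s k169 k253 13 (.s k168 k171 0 (.d k252 k84
  k86 13 14)))))))) (.c k136 (.l (.s k70 k68 0 (.s k3 k139 9 (.s k137 k204 10 (.d k1 k2 k205 0
  9))))) .n))) (.c k136 (.l (.s k70 k68 0 (.s k3 k139 9 (.s k137 k204 10 (.d k1 k2 k205 0 9))))) (.c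
  k229 (.q k37 [(.s k3 k139 9 (.s k70 k68 0 (.s k137 k204 10 (.d k1 k2 k205 0 9)))), (.s k3 k139 9
  (.s k2 k1 0 (.s k86 k254 13 (.s k84 k87 0 (.d k252 k168 k169 13 14))))), (.s k68 k70 0 (.s k102
  k119 4 (.s k34 k238 9 (.s k51 k17 4 (.d k204 k136 k153 9 14)))))] (.c k2 (.l (.s k3 k139 9 (.s k70
  k68 0 (.s k137 k204 10 (.s k1 k205 9 (.s k169 k253 13 (.s k168 k171 0 (.d k252 k84 k86 13
  14)))))))) (.c k136 (.l (.s k70 k68 0 (.s k3 k139 9 (.s k137 k204 10 (.d k1 k2 k205 0 9))))) .n)))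
  .n)))))) (.c k117 (.l (.s k138 k69 10 (.s k154 k186 3 (.s k48 k101 14 (.d k16 k32 k223 3 10)))))
  (.c k138 (.q k89 [(.s k8 k251 12 (.s k81 k93 1 (.s k243 k162 12 (.d k12 k4 k166 1 14)))), (.s k81
  k93 1 (.s k243 k162 12 (.s k219 k231 5 (.s k154 k24 8 (.s k16 k223 10 (.d k48 k32 k101 3 14)))))),
  (.s k8 k251 12 (.s k12 k4 1 (.s k77 k142 8 (.s k101 k113 5 (.s k32 k239 10 (.d k48 k16 k154 3
  14))))))] (.c k12 (.f k93 k81 1 (.q k169 [(.s k1 k253 13 (.s k168 k171 0 (.s k252 k84 13 (.d k3 k2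
  k86 0 14)))), (.s k8 k251 12 (.s k9 k249 11 (.s k10 k11 0 (.s k5 k15 2 (.d k1 k13 k253 1 13))))),
  (.s k8 k251 12 (.s k9 k249 11 (.s k11 k10 0 (.s k168 k171 0 (.d k248 k88 k90 11 12)))))] (.c k3
  (.l (.s k9 k249 11 (.s k1 k253 13 (.s k5 k13 1 (.s k8 k251 12 (.d k10 k15 k11 2 0)))))) (.c k9 (.q
  k3 [(.d k1 k2 k253 0 13), (.s k168 k171 0 (.d k252 k84 k86 13 14))] .n) (.c k171 (.l (.s k1 k253
  13 (.s k8 k251 12 (.s k9 k249 11 (.s k5 k13 1 (.d k10 k11 k15 0 2)))))) .n))))) (.c k243 (.q k90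
  [(.s k91 k88 0 (.s k93 k81 1 (.s k95 k80 2 (.s k83 k87 1 (.d k92 k94 k86 0 2))))), (.s k10 k250 11
  (.s k15 k5 2 (.s k79 k143 7 (.s k101 k112 6 (.s k32 k239 10 (.d k48 k154 k16 14 3))))))] (.c k247
  (.l (.s k251 k8 12 (.s k91 k88 0 (.s k11 k171 11 (.s k248 k169 12 (.d k250 k249 k10 0 11)))))) (.c
  k251 (.q k247 [(.s k91 k88 0 (.s k93 k81 1 (.s k95 k80 2 (.s k83 k87 1 (.d k92 k94 k86 0 2))))),
  (.s k4 k166 12 (.s k12 k8 1 (.s k77 k142 8 (.s k101 k113 5 (.s k32 k239 10 (.d k48 k154 k16 14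
  3))))))] (.c k86 (.l (.s k80 k95 2 (.s k88 k91 0 (.s k240 k160 11 (.s k12 k164 13 (.d k4 k166 k8
  12 1)))))) .n)) .n))) .n))) (.c k154 (.f k69 k138 10 (.q k192 [(.s k64 k128 7 (.s k106 k127 6 (.s
  k42 k234 7 (.d k63 k21 k149 6 14)))), (.s k64 k128 7 (.s k74 k79 2 (.s k133 k15 10 (.d k197 k202
  k5 2 7)))), (.s k101 k117 3 (.s k197 k202 2 (.s k149 k53 11 (.s k21 k213 7 (.d k63 k106 k42 14
  6)))))] (.c k143 (.q k176 [(.s k128 k64 7 (.s k149 k191 6 (.s k21 k213 7 (.d k63 k42 k106 6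
  14)))), (.s k197 k202 2 (.s k64 k128 7 (.s k133 k5 7 (.d k74 k79 k15 2 10))))] (.c k64 (.l (.s
  k101 k117 3 (.s k197 k202 2 (.s k149 k53 11 (.s k21 k213 7 (.d k63 k106 k42 14 6)))))) (.c k106
  (.l (.s k101 k117 3 (.s k128 k64 7 (.s k149 k191 6 (.d k197 k202 k53 2 11))))) (.c k128 (.q k133
  [(.d k197 k202 k5 2 7), (.s k74 k15 10 (.s k64 k79 2 (.s k106 k127 6 (.s k42 k234 7 (.d k63 k21
  k149 6 14)))))] .n) (.c k133 (.l (.s k128 k64 7 (.s k101 k117 3 (.s k149 k191 6 (.d k197 k202 k53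
  2 11))))) .n))))) (.c k176 (.q k143 [(.s k64 k128 7 (.d k79 k74 k15 2 7)), (.s k15 k79 7 (.s k5
  k10 2 (.d k133 k74 k197 10 7))), (.s k64 k128 7 (.s k106 k127 6 (.s k42 k234 7 (.d k63 k21 k149 6
  14))))] .n) .n)))) (.c k186 (.l (.s k69 k138 10 (.s k101 k117 3 (.s k48 k154 14 (.d k32 k16 k239 3
  10))))) (.c k239 (.l (.s k138 k69 10 (.s k154 k186 3 (.s k16 k223 10 (.d k48 k32 k101 3 14)))))
  .n))))))))))))

def t6_166 : T TT 256 :=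
  (.q k86 [(.s k84 k87 0 (.s k170 k255 14 (.s k2 k254 13 (.s k3 k1 0 (.d k252 k168 k169 13 14)))))]
  (.c k1 (.q k5 [(.s k165 k245 11 (.s k170 k255 14 (.s k160 k175 2 (.s k240 k80 11 (.d k15 k10 k90 2
  14))))), (.s k15 k10 2 (.s k84 k87 0 (.s k165 k245 11 (.s k7 k244 12 (.s k3 k11 1 (.d k252 k168
  k169 13 14)))))), (.s k84 k87 0 (.s k165 k245 11 (.s k168 k252 13 (.s k170 k255 14 (.s k244 k7 12
  (.s k164 k4 11 (.d k160 k172 k175 1 2))))))), (.s k15 k10 2 (.s k84 k87 0 (.s k252 k168 13 (.s k94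
  k173 12 (.s k90 k82 1 (.s k95 k80 2 (.d k255 k175 k170 11 14)))))))] .n) (.c k2 (.l (.s k84 k87 0
  (.s k252 k168 13 (.s k169 k3 14 (.s k253 k1 13 (.d k255 k254 k170 0 14)))))) (.c k3 (.f k255 k170
  14 (.f k84 k87 0 (.q k12 [(.s k8 k4 1 (.s k168 k252 13 (.s k88 k248 11 (.s k80 k92 1 (.d k240 k160
  k164 11 13))))), (.s k252 k168 13 (.s k92 k172 11 (.s k89 k83 2 (.d k93 k174 k81 12 1)))), (.s k8
  k4 1 (.s k168 k252 13 (.s k88 k248 11 (.s k92 k80 1 (.s k89 k83 2 (.d k93 k81 k174 1 12)))))), (.s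
  k4 k8 1 (.s k164 k244 11 (.s k240 k88 13 (.s k80 k160 11 (.s k90 k95 2 (.s k165 k15 14 (.d k245
  k250 k5 2 11)))))))] (.c k162 (.l (.s k174 k93 12 (.s k4 k8 1 (.s k164 k244 11 (.s k88 k240 13 (.s
  k92 k80 1 (.d k252 k172 k168 11 13))))))) (.c k168 (.l (.s k4 k8 1 (.s k164 k244 11 (.s k88 k240
  13 (.s k92 k80 1 (.s k89 k83 2 (.d k93 k81 k174 1 12))))))) (.c k174 (.q k162 [(.s k81 k243 12 (.s
  k89 k93 1 (.s k252 k168 13 (.d k92 k83 k172 2 11)))), (.s k8 k4 1 (.s k168 k252 13 (.s k88 k248 11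
  (.s k80 k92 1 (.d k240 k160 k164 11 13))))), (.s k4 k8 1 (.s k243 k81 12 (.s k244 k164 11 (.s k165
  k7 12 (.s k245 k5 11 (.d k247 k251 k246 1 0))))))] .n) .n)))))) (.c k84 (.q k15 [(.s k10 k5 2 (.s
  k170 k255 14 (.s k90 k250 11 (.s k80 k95 2 (.d k240 k160 k165 11 14))))), (.s k5 k10 2 (.s k165
  k245 11 (.s k7 k244 12 (.s k3 k11 1 (.s k169 k252 14 (.d k1 k2 k253 0 13)))))), (.s k170 k255 14
  (.s k2 k254 13 (.s k3 k1 0 (.s k7 k11 1 (.s k165 k244 12 (.s k160 k175 2 (.d k240 k80 k90 11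
  14))))))), (.s k5 k10 2 (.s k165 k245 11 (.s k90 k240 14 (.s k95 k80 2 (.d k255 k175 k170 11
  14)))))] (.c k165 (.l (.s k10 k5 2 (.s k170 k255 14 (.s k2 k254 13 (.s k3 k1 0 (.s k90 k250 11 (.s
  k94 k82 1 (.d k252 k173 k169 12 14)))))))) (.c k240 (.l (.s k5 k10 2 (.s k165 k245 11 (.s k7 k244
  12 (.s k3 k11 1 (.s k2 k1 0 (.d k170 k255 k254 14 13))))))) .n))) (.c k87 (.q k15 [(.s k5 k10 2
  (.s k165 k245 11 (.s k90 k240 14 (.s k95 k80 2 (.d k255 k175 k170 11 14))))), (.s k5 k10 2 (.s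
  k165 k245 11 (.s k7 k244 12 (.s k3 k11 1 (.s k169 k252 14 (.d k1 k2 k253 0 13)))))), (.s k170 k255
  14 (.s k2 k254 13 (.s k3 k1 0 (.s k7 k11 1 (.s k165 k244 12 (.s k160 k175 2 (.d k240 k80 k90 11
  14)))))))] (.c k2 (.l (.s k10 k5 2 (.s k170 k255 14 (.s k90 k250 11 (.s k80 k95 2 (.d k240 k160
  k165 11 14)))))) (.c k165 (.l (.s k10 k5 2 (.s k170 k255 14 (.s k2 k254 13 (.s k3 k1 0 (.s k90
  k250 11 (.s k94 k82 1 (.d k252 k173 k169 12 14)))))))) (.c k240 (.l (.s k5 k10 2 (.s k165 k245 11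
  (.s k7 k244 12 (.s k3 k11 1 (.s k2 k1 0 (.d k170 k255 k254 14 13))))))) .n)))) (.c k168 (.l (.s
  k87 k84 0 (.s k255 k170 14 (.s k3 k171 13 (.s k169 k252 14 (.d k1 k2 k253 0 13)))))) (.c k169 (.f
  k170 k255 14 (.f k254 k2 13 (.q k10 [(.s k90 k250 11 (.s k80 k95 2 (.s k240 k160 11 (.d k15 k5
  k165 2 14)))), (.s k15 k5 2 (.s k84 k87 0 (.s k252 k168 13 (.s k94 k173 12 (.d k90 k82 k250 1
  11))))), (.s k87 k84 0 (.s k90 k250 11 (.s k94 k82 1 (.s k95 k80 2 (.s k83 k91 1 (.d k92 k93 k89 0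
  2))))))] (.c k90 (.l (.s k5 k15 2 (.s k84 k87 0 (.s k165 k245 11 (.s k168 k252 13 (.s k244 k7 12
  (.s k164 k4 11 (.d k160 k175 k172 2 1)))))))) (.c k163 (.q k172 [(.s k15 k5 2 (.s k90 k250 11 (.s
  k80 k95 2 (.d k240 k160 k165 11 14)))), (.s k5 k15 2 (.s k84 k87 0 (.s k168 k252 13 (.s k160 k164
  1 (.d k165 k175 k245 2 11))))), (.s k84 k87 0 (.s k90 k250 11 (.s k80 k95 2 (.s k92 k88 1 (.d k252
  k12 k168 11 13)))))] (.c k15 (.l (.s k84 k87 0 (.s k90 k250 11 (.s k168 k252 13 (.s k160 k164 1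
  (.d k80 k240 k95 11 2)))))) (.c k95 (.l (.s k15 k5 2 (.s k84 k87 0 (.s k90 k250 11 (.s k94 k82 1
  (.d k252 k173 k168 12 13)))))) (.c k245 (.l (.s k15 k5 2 (.s k90 k250 11 (.s k240 k165 14 (.d k80
  k95 k160 2 11))))) .n)))) (.c k172 (.q k163 [(.s k15 k5 2 (.s k90 k250 11 (.s k80 k95 2 (.d k240
  k160 k165 11 14)))), (.s k87 k84 0 (.s k90 k250 11 (.s k94 k82 1 (.s k95 k80 2 (.s k83 k91 1 (.d
  k92 k93 k89 0 2)))))), (.s k15 k5 2 (.s k84 k87 0 (.s k252 k168 13 (.s k94 k173 12 (.d k90 k82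
  k250 1 11)))))] (.c k90 (.l (.s k5 k15 2 (.s k87 k84 0 (.s k165 k245 11 (.s k7 k244 12 (.s k175
  k160 2 (.d k167 k247 k171 11 1))))))) (.c k250 (.l (.s k15 k5 2 (.s k84 k87 0 (.s k252 k168 13 (.s
  k94 k173 12 (.s k90 k82 1 (.s k80 k95 2 (.d k240 k160 k165 11 14)))))))) .n))) (.c k250 (.l (.s
  k15 k5 2 (.s k84 k87 0 (.s k252 k168 13 (.s k94 k173 12 (.s k90 k82 1 (.s k80 k95 2 (.d k240 k165
  k160 14 11)))))))) .n))))))) (.c k170 (.f k84 k87 0 (.f k168 k252 13 (.q k68 [(.s k100 k116 3 (.s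
  k32 k236 9 (.s k48 k16 3 (.d k204 k136 k152 9 13)))), (.s k102 k119 4 (.s k70 k118 3 (.s k71 k69 0
  (.d k116 k100 k101 3 4)))), (.s k102 k119 4 (.s k204 k136 9 (.s k153 k51 14 (.s k220 k19 10 (.s
  k16 k152 9 (.s k221 k17 9 (.d k223 k222 k154 0 10)))))))] (.c k162 (.q k174 [(.s k100 k116 3 (.s
  k32 k236 9 (.s k48 k16 3 (.d k204 k136 k152 9 13)))), (.s k102 k119 4 (.s k70 k118 3 (.s k71 k69 0
  (.d k116 k100 k101 3 4)))), (.s k102 k119 4 (.s k204 k136 9 (.s k153 k51 14 (.s k220 k19 10 (.s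
  k16 k152 9 (.s k221 k17 9 (.d k223 k222 k154 0 10)))))))] .n) (.c k174 (.q k162 [(.s k100 k116 3
  (.s k32 k236 9 (.s k48 k16 3 (.d k204 k136 k152 9 13)))), (.s k81 k243 12 (.s k89 k93 1 (.s k92
  k83 2 (.s k102 k119 4 (.s k76 k115 6 (.s k64 k72 1 (.d k124 k108 k104 3 5)))))))] .n) .n))))) (.c
  k171 (.l (.s k84 k87 0 (.s k252 k168 13 (.s k3 k169 14 (.s k170 k255 14 (.d k2 k1 k254 0 13))))))
  (.c k252 (.q k17 [(.s k51 k34 4 (.s k153 k221 9 (.s k102 k204 14 (.s k119 k68 4 (.d k255 k187 k170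
  9 14))))), (.s k87 k84 0 (.s k153 k221 9 (.s k19 k220 10 (.s k16 k18 0 (.d k223 k155 k154 9
  10))))), (.s k51 k34 4 (.s k87 k84 0 (.s k255 k170 14 (.s k3 k171 13 (.s k19 k35 3 (.s k16 k18 0
  (.d k223 k155 k154 9 10)))))))] .n) (.c k253 (.l (.s k84 k87 0 (.s k170 k255 14 (.s k2 k254 13 (.s
  k252 k168 13 (.d k3 k1 k169 0 14)))))) (.c k254 (.l (.s k87 k84 0 (.s k255 k170 14 (.s k3 k171 13
  (.s k1 k2 0 (.d k169 k253 k252 13 14)))))) (.c k255 (.q k16 [(.s k87 k84 0 (.s k223 k154 10 (.s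
  k19 k155 9 (.s k17 k18 0 (.d k153 k221 k220 9 10))))), (.s k48 k32 3 (.s k84 k87 0 (.s k152 k220 9
  (.s k100 k204 13 (.s k116 k68 3 (.d k252 k184 k168 9 13)))))), (.s k48 k32 3 (.s k154 k223 10 (.s
  k18 k222 9 (.s k3 k33 4 (.s k1 k2 0 (.d k169 k253 k252 13 14)))))), (.s k48 k32 3 (.s k84 k87 0
  (.s k154 k223 10 (.s k207 k101 14 (.s k222 k18 9 (.d k252 k237 k168 4 13))))))] .n)
  .n))))))))))))))

def t6_167 : T TT 256 :=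
  (.f k255 k170 14 (.q k106 [(.s k64 k127 6 (.s k192 k128 7 (.s k149 k63 14 (.d k213 k234 k21 6
  7))))] (.c k21 (.q k1 [(.s k3 k2 0 (.s k169 k253 13 (.s k86 k252 14 (.d k87 k84 k171 0 13)))), (.s
  k64 k127 6 (.s k192 k128 7 (.s k213 k234 6 (.s k253 k169 13 (.s k193 k233 5 (.s k65 k129 7 (.d
  k195 k130 k194 8 0))))))), (.s k3 k2 0 (.s k64 k127 6 (.s k192 k128 7 (.s k66 k129 8 (.s k86 k126
  5 (.d k87 k84 k171 0 13))))))] (.c k171 (.l (.s k3 k2 0 (.s k127 k64 6 (.s k63 k191 7 (.s k43 k23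
  5 (.d k169 k232 k253 8 13)))))) .n)) (.c k63 (.q k1 [(.s k3 k2 0 (.s k169 k253 13 (.s k86 k252 14
  (.d k87 k84 k171 0 13)))), (.s k64 k127 6 (.s k192 k128 7 (.s k213 k234 6 (.s k253 k169 13 (.s
  k193 k233 5 (.s k65 k129 7 (.d k195 k130 k194 8 0))))))), (.s k64 k127 6 (.s k169 k253 13 (.s k192
  k128 7 (.s k232 k43 8 (.s k252 k212 5 (.s k84 k168 13 (.d k86 k3 k87 14 0))))))), (.s k3 k2 0 (.s
  k64 k127 6 (.s k192 k128 7 (.s k66 k129 8 (.s k86 k126 5 (.d k87 k84 k171 0 13))))))] .n) (.c k64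
  (.q k60 [(.s k20 k40 5 (.s k125 k190 8 (.s k150 k215 8 (.d k105 k65 k195 5 14)))), (.s k20 k40 5
  (.s k150 k215 8 (.s k62 k194 13 (.s k63 k61 0 (.s k21 k42 6 (.d k149 k213 k192 7 14)))))), (.s
  k125 k190 8 (.s k105 k65 5 (.s k104 k107 0 (.s k192 k148 13 (.s k149 k63 14 (.d k213 k234 k21 6
  7))))))] (.c k105 (.q k87 [(.s k3 k171 13 (.s k86 k84 0 (.s k169 k252 14 (.d k1 k2 k253 0 13)))),
  (.s k86 k84 0 (.s k126 k66 5 (.s k190 k125 8 (.s k62 k254 7 (.s k150 k194 13 (.d k20 k40 k215 5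
  8)))))), (.s k3 k171 13 (.s k2 k1 0 (.s k22 k41 6 (.s k42 k62 5 (.s k21 k63 6 (.d k20 k40 k23 5
  0))))))] (.c k2 (.l (.s k3 k171 13 (.s k22 k41 6 (.s k86 k84 0 (.s k150 k214 7 (.d k20 k40 k215 5
  8)))))) (.c k40 (.q k235 [(.s k3 k171 13 (.s k86 k84 0 (.s k169 k252 14 (.d k1 k2 k253 0 13)))),
  (.s k86 k84 0 (.s k126 k66 5 (.s k190 k125 8 (.s k62 k254 7 (.s k150 k194 13 (.d k215 k195 k20 5
  8)))))), (.s k3 k171 13 (.s k22 k41 6 (.s k215 k195 5 (.s k20 k150 8 (.d k23 k21 k151 0 7)))))]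
  .n) (.c k235 (.l (.s k40 k20 5 (.s k3 k171 13 (.s k1 k2 0 (.s k86 k84 0 (.d k169 k253 k252 13
  14)))))) .n)))) (.c k150 (.q k149 [(.s k21 k213 7 (.d k63 k42 k192 6 14)), (.s k63 k192 14 (.s k61
  k62 0 (.s k105 k193 13 (.d k125 k190 k65 8 5))))] (.c k63 (.l (.s k213 k21 7 (.s k192 k234 6 (.s
  k104 k148 13 (.s k105 k107 0 (.d k125 k65 k190 5 8)))))) (.c k130 (.l (.s k190 k125 8 (.s k21 k213
  7 (.d k63 k42 k192 6 14)))) (.c k190 (.q k130 [(.s k21 k213 7 (.d k63 k42 k192 6 14)), (.s k63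
  k192 14 (.s k61 k62 0 (.s k65 k195 8 (.d k105 k193 k125 13 5))))] (.c k63 (.l (.s k65 k195 8 (.s
  k105 k125 5 (.s k213 k21 7 (.s k192 k234 6 (.d k104 k107 k148 0 13)))))) (.c k192 (.l (.s k21 k213
  7 (.s k63 k42 6 (.s k61 k62 0 (.s k65 k195 8 (.d k105 k193 k125 13 5)))))) .n))) (.c k192 (.l (.s
  k21 k213 7 (.s k63 k42 6 (.s k61 k62 0 (.s k105 k193 13 (.d k125 k65 k190 5 8)))))) .n))))) .n)))
  (.c k127 (.q k195 [(.s k65 k130 8 (.s k215 k235 5 (.s k150 k20 8 (.d k105 k125 k60 5 14)))), (.s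
  k65 k130 8 (.s k105 k125 5 (.s k107 k104 0 (.s k63 k151 13 (.s k21 k42 6 (.d k149 k213 k192 7
  14)))))), (.s k215 k235 5 (.s k150 k20 8 (.s k194 k62 13 (.s k192 k193 0 (.s k149 k63 14 (.d k213
  k234 k21 6 7))))))] (.c k105 (.q k149 [(.s k21 k213 7 (.d k63 k42 k192 6 14)), (.s k63 k192 14 (.s
  k151 k107 13 (.s k150 k148 0 (.d k215 k235 k20 5 8))))] (.c k40 (.l (.s k235 k215 5 (.s k21 k213 7
  (.d k63 k42 k192 6 14)))) (.c k63 (.l (.s k213 k21 7 (.s k192 k234 6 (.s k194 k193 0 (.s k150 k62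
  13 (.d k215 k235 k20 5 8)))))) (.c k192 (.l (.s k21 k213 7 (.s k63 k42 6 (.s k151 k107 13 (.s k150
  k148 0 (.d k215 k235 k20 5 8)))))) (.c k235 (.q k40 [(.s k21 k213 7 (.d k63 k42 k192 6 14)), (.s
  k20 k60 5 (.s k63 k192 14 (.s k150 k215 8 (.d k151 k148 k107 0 13))))] (.c k63 (.l (.s k20 k60 5
  (.s k150 k215 8 (.s k213 k21 7 (.s k192 k234 6 (.d k194 k62 k193 13 0)))))) (.c k192 (.l (.s k20
  k60 5 (.s k21 k213 7 (.s k63 k42 6 (.s k150 k215 8 (.d k151 k148 k107 0 13)))))) .n))) .n))))) (.c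
  k150 (.q k149 [(.s k21 k213 7 (.d k63 k42 k192 6 14)), (.s k63 k192 14 (.s k107 k151 13 (.s k105
  k104 0 (.d k65 k130 k125 8 5))))] (.c k63 (.l (.s k213 k21 7 (.s k192 k234 6 (.s k193 k194 0 (.s
  k105 k61 13 (.d k65 k125 k130 5 8)))))) (.c k130 (.q k190 [(.s k21 k213 7 (.d k63 k42 k192 6 14)),
  (.s k63 k192 14 (.s k107 k151 13 (.s k105 k104 0 (.d k125 k60 k65 8 5))))] (.c k63 (.l (.s k125
  k60 8 (.s k105 k65 5 (.s k213 k21 7 (.s k192 k234 6 (.d k193 k61 k194 13 0)))))) (.c k192 (.l (.s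
  k21 k213 7 (.s k63 k42 6 (.s k107 k151 13 (.s k105 k104 0 (.d k125 k60 k65 8 5)))))) .n))) (.c
  k190 (.l (.s k130 k65 8 (.s k21 k213 7 (.d k63 k42 k192 6 14)))) (.c k192 (.l (.s k21 k213 7 (.s
  k63 k42 6 (.s k107 k151 13 (.s k105 k104 0 (.d k65 k125 k130 5 8)))))) .n))))) .n))) (.c k128 (.l
  (.s k127 k64 6 (.s k63 k191 7 (.s k149 k192 14 (.d k21 k42 k213 6 7))))) (.c k149 (.f k127 k64 6
  (.q k89 [(.s k81 k93 1 (.s k123 k72 4 (.s k243 k162 12 (.d k63 k191 k183 7 9)))), (.s k123 k72 4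
  (.s k119 k115 1 (.s k51 k187 9 (.s k17 k34 4 (.s k153 k221 9 (.d k102 k68 k204 4 14)))))), (.s k81
  k93 1 (.s k243 k162 12 (.s k166 k12 14 (.d k247 k251 k4 1 12))))] (.c k81 (.l (.s k123 k72 4 (.s
  k115 k119 1 (.s k76 k102 6 (.s k93 k110 4 (.s k12 k174 12 (.s k4 k8 1 (.d k166 k247 k243 12
  14)))))))) (.c k128 (.l (.s k191 k63 7 (.s k81 k93 1 (.s k243 k162 12 (.s k166 k12 14 (.d k247
  k251 k4 1 12)))))) (.c k191 (.q k128 [(.s k81 k93 1 (.s k243 k162 12 (.s k247 k251 1 (.d k166 k4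
  k12 12 14)))), (.s k123 k72 4 (.s k119 k115 1 (.s k51 k187 9 (.s k17 k34 4 (.s k153 k221 9 (.d
  k102 k68 k204 4 14))))))] (.c k81 (.l (.s k123 k72 4 (.s k115 k119 1 (.s k76 k102 6 (.s k93 k110 4
  (.s k12 k174 12 (.s k4 k8 1 (.d k166 k247 k243 12 14)))))))) .n)) .n))))) (.c k191 (.l (.s k64
  k127 6 (.s k192 k128 7 (.s k149 k63 14 (.d k213 k234 k21 6 7))))) (.c k192 (.q k1 [(.s k3 k2 0 (.s
  k169 k253 13 (.s k86 k252 14 (.d k87 k84 k171 0 13)))), (.s k127 k64 6 (.s k63 k191 7 (.s k21 k42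
  6 (.s k61 k41 5 (.s k253 k169 13 (.s k125 k189 7 (.d k60 k190 k62 8 0))))))), (.s k3 k2 0 (.s k127
  k64 6 (.s k63 k191 7 (.s k21 k42 6 (.s k23 k43 5 (.s k22 k20 0 (.d k41 k61 k60 5 6)))))))] .n) (.c
  k213 (.q k1 [(.s k3 k2 0 (.s k169 k253 13 (.s k86 k252 14 (.d k87 k84 k171 0 13)))), (.s k127 k64
  6 (.s k63 k191 7 (.s k21 k42 6 (.s k61 k41 5 (.s k60 k62 0 (.s k125 k190 8 (.d k253 k189 k169 7
  13))))))), (.s k64 k127 6 (.s k169 k253 13 (.s k192 k128 7 (.s k149 k63 14 (.s k129 k189 5 (.s k66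
  k3 8 (.d k65 k193 k67 7 0))))))), (.s k3 k2 0 (.s k64 k127 6 (.s k192 k128 7 (.s k66 k129 8 (.s
  k86 k126 5 (.d k87 k84 k171 0 13))))))] .n) (.c k234 (.l (.s k127 k64 6 (.s k63 k191 7 (.s k21 k42
  6 (.d k149 k213 k192 7 14))))) .n))))))))))))

def t6_168 : T TT 256 :=
  (.f k170 k255 14 (.q k243 [(.s k81 k162 12 (.s k89 k93 1 (.s k8 k251 12 (.d k12 k4 k166 1 14))))]
  (.c k4 (.q k5 [(.s k165 k245 11 (.s k160 k175 2 (.s k240 k80 11 (.d k15 k10 k90 2 14)))), (.s k10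
  k15 2 (.s k81 k162 12 (.s k89 k93 1 (.s k8 k251 12 (.s k9 k11 0 (.s k1 k13 1 (.d k169 k253 k249 13
  11))))))), (.s k81 k162 12 (.s k89 k93 1 (.s k165 k245 11 (.s k241 k13 13 (.s k240 k242 0 (.d k160
  k175 k80 2 11))))))] (.c k175 (.l (.s k15 k10 2 (.s k162 k81 12 (.s k165 k245 11 (.s k166 k174 1
  (.d k167 k164 k91 0 13)))))) .n)) (.c k8 (.f k162 k81 12 (.q k90 [(.s k10 k250 11 (.s k15 k5 2 (.s
  k80 k95 2 (.d k240 k160 k165 11 14)))), (.s k80 k95 2 (.s k166 k174 1 (.s k240 k160 11 (.d k242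
  k241 k14 0 13)))), (.s k166 k174 1 (.s k12 k89 14 (.s k14 k242 13 (.s k15 k13 0 (.d k10 k5 k250 2
  11)))))] (.c k15 (.l (.s k166 k174 1 (.s k242 k14 13 (.s k240 k241 0 (.d k80 k95 k160 2 11)))))
  (.c k88 (.q k248 [(.s k10 k250 11 (.s k15 k5 2 (.s k80 k95 2 (.d k240 k160 k165 11 14)))), (.s k80
  k95 2 (.s k166 k174 1 (.s k240 k160 11 (.d k242 k241 k14 0 13)))), (.s k166 k174 1 (.s k12 k89 14
  (.s k14 k242 13 (.s k15 k13 0 (.d k10 k5 k250 2 11)))))] (.c k15 (.l (.s k166 k174 1 (.s k242 k14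
  13 (.s k240 k241 0 (.d k80 k95 k160 2 11))))) .n)) (.c k248 (.q k88 [(.s k89 k91 0 (.d k166 k174
  k12 1 14)), (.s k10 k250 11 (.s k15 k5 2 (.s k80 k95 2 (.d k240 k160 k165 11 14))))] .n) .n)))))
  (.c k12 (.q k3 [(.s k2 k1 0 (.s k81 k162 12 (.s k83 k163 11 (.s k86 k254 13 (.d k89 k93 k92 1
  2))))), (.s k81 k162 12 (.s k83 k163 11 (.s k80 k82 0 (.s k90 k95 2 (.s k10 k250 11 (.s k15 k5 2
  (.d k240 k160 k165 11 14))))))), (.s k1 k2 0 (.s k81 k162 12 (.s k161 k241 11 (.s k169 k253 13 (.s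
  k165 k173 1 (.s k160 k175 2 (.d k240 k82 k80 12 11))))))), (.s k1 k2 0 (.s k162 k81 12 (.s k163
  k83 11 (.s k169 k253 13 (.d k166 k174 k172 1 2)))))] (.c k2 (.f k162 k81 12 (.f k163 k83 11 (.l
  (.s k160 k161 0 (.s k80 k240 11 (.s k175 k165 2 (.s k167 k171 1 (.s k15 k91 13 (.s k10 k5 2 (.d
  k90 k95 k250 2 11)))))))))) (.c k81 (.f k2 k1 0 (.l (.s k83 k163 11 (.s k86 k254 13 (.s k87 k84 0
  (.s k92 k89 2 (.s k95 k91 1 (.s k90 k80 2 (.d k94 k93 k82 0 1))))))))) (.c k93 (.q k174 [(.d k162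
  k166 k81 1 12)] (.c k81 (.l (.s k1 k2 0 (.s k163 k83 11 (.s k166 k162 1 (.d k169 k172 k253 2
  13))))) (.c k162 (.f k1 k2 0 (.l (.s k163 k83 11 (.s k169 k253 13 (.s k172 k166 2 (.s k173 k175 0
  (.s k161 k165 1 (.s k241 k81 11 (.d k240 k82 k242 12 0))))))))) (.c k166 (.l (.s k1 k2 0 (.s k81
  k162 12 (.s k83 k163 11 (.s k82 k80 0 (.d k161 k241 k240 11 12)))))) .n)))) (.c k162 (.f k2 k1 0
  (.l (.s k83 k163 11 (.s k86 k254 13 (.s k84 k87 0 (.s k92 k89 2 (.s k80 k88 1 (.s k82 k81 0 (.d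
  k90 k94 k95 1 2))))))))) (.c k174 (.q k93 [(.d k81 k89 k162 1 12), (.s k2 k1 0 (.s k83 k163 11 (.s
  k86 k254 13 (.s k87 k84 0 (.s k92 k89 2 (.d k95 k94 k91 0 1))))))] (.c k89 (.l (.s k1 k2 0 (.s k81
  k162 12 (.s k83 k163 11 (.s k82 k80 0 (.d k161 k241 k240 11 12)))))) .n)) .n)))))) (.c k81 (.q
  k154 [(.s k16 k223 10 (.s k138 k186 3 (.s k207 k69 10 (.d k48 k32 k101 3 14)))), (.s k138 k186 3
  (.s k207 k69 10 (.s k219 k231 5 (.s k89 k24 8 (.s k8 k251 12 (.d k12 k4 k166 1 14)))))), (.s k16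
  k223 10 (.s k48 k32 3 (.s k178 k113 8 (.s k166 k142 5 (.s k4 k247 12 (.d k12 k8 k89 1 14))))))]
  (.c k48 (.q k80 [(.s k240 k160 11 (.s k90 k95 2 (.s k15 k165 14 (.d k10 k5 k250 2 11)))), (.s k16
  k223 10 (.s k90 k95 2 (.s k26 k218 7 (.s k31 k21 2 (.d k208 k144 k149 7 10))))), (.s k16 k223 10
  (.s k144 k208 7 (.s k160 k240 11 (.s k176 k128 3 (.d k165 k175 k143 2 6)))))] (.c k117 (.l (.s
  k186 k138 3 (.s k90 k95 2 (.s k10 k250 11 (.s k15 k5 2 (.d k240 k160 k165 11 14)))))) (.c k175 (.l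
  (.s k240 k160 11 (.s k90 k95 2 (.s k15 k165 14 (.d k10 k5 k250 2 11))))) (.c k186 (.q k117 [(.s
  k90 k95 2 (.s k240 k160 11 (.s k15 k165 14 (.d k10 k5 k250 2 11)))), (.s k16 k223 10 (.s k90 k95 2
  (.s k26 k218 7 (.s k31 k21 2 (.d k208 k144 k149 7 10))))), (.s k16 k223 10 (.s k144 k208 7 (.s
  k160 k240 11 (.s k176 k128 3 (.d k165 k175 k143 2 6)))))] (.c k175 (.l (.s k240 k160 11 (.s k90
  k95 2 (.s k15 k165 14 (.d k10 k5 k250 2 11))))) .n)) .n)))) (.c k207 (.q k149 [(.s k21 k213 7 (.s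
  k63 k42 6 (.s k128 k191 6 (.d k192 k64 k106 7 14)))), (.s k159 k144 2 (.s k186 k138 3 (.s k191
  k128 6 (.s k143 k175 3 (.d k176 k181 k165 2 6))))), (.s k159 k144 2 (.s k213 k21 7 (.s k223 k16 10
  (.s k31 k95 7 (.d k208 k218 k90 2 10)))))] (.c k223 (.q k239 [(.s k21 k213 7 (.s k63 k42 6 (.s
  k128 k191 6 (.d k192 k64 k106 7 14)))), (.s k159 k144 2 (.s k186 k138 3 (.s k191 k128 6 (.s k143
  k175 3 (.d k176 k181 k165 2 6))))), (.s k21 k213 7 (.s k32 k101 10 (.s k16 k48 3 (.s k31 k26 2 (.s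
  k144 k159 2 (.d k208 k80 k90 7 10))))))] .n) (.c k239 (.l (.s k223 k16 10 (.s k21 k213 7 (.s k63
  k42 6 (.s k128 k191 6 (.d k192 k64 k106 7 14)))))) .n))) .n))) (.c k89 (.q k15 [(.s k5 k10 2 (.s
  k165 k245 11 (.s k160 k175 2 (.d k240 k80 k90 11 14)))), (.s k162 k81 12 (.s k166 k174 1 (.s k167
  k91 13 (.s k165 k164 0 (.s k160 k175 2 (.d k240 k90 k80 14 11)))))), (.s k5 k10 2 (.s k162 k81 12
  (.s k165 k245 11 (.s k166 k174 1 (.d k167 k164 k91 0 13)))))] (.c k165 (.l (.s k10 k5 2 (.s k90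
  k250 11 (.s k80 k95 2 (.s k162 k81 12 (.s k166 k174 1 (.s k240 k160 11 (.d k242 k241 k14 0
  13)))))))) (.c k240 (.l (.s k5 k10 2 (.s k162 k81 12 (.s k166 k174 1 (.s k167 k91 13 (.d k165 k164
  k245 0 11)))))) .n))) (.c k93 (.l (.s k162 k81 12 (.s k166 k174 1 (.s k12 k89 14 (.d k4 k8 k247 1
  12))))) (.c k162 (.q k165 [(.s k5 k245 11 (.s k160 k175 2 (.s k240 k80 11 (.d k15 k10 k90 2
  14)))), (.s k160 k175 2 (.s k240 k80 11 (.s k241 k242 0 (.s k89 k13 13 (.s k8 k251 12 (.d k12 k4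
  k166 1 14)))))), (.s k5 k245 11 (.s k15 k10 2 (.s k167 k91 13 (.s k240 k90 14 (.s k241 k242 0 (.s
  k89 k13 13 (.d k166 k164 k12 0 14)))))))] (.c k15 (.q k37 [(.s k101 k229 7 (.s k32 k239 10 (.s k47
  k42 2 (.s k224 k106 10 (.d k160 k175 k96 2 7))))), (.s k5 k245 11 (.s k53 k21 3 (.s k101 k229 7
  (.s k69 k117 3 (.d k197 k133 k149 7 11))))), (.s k5 k245 11 (.s k21 k53 3 (.s k42 k63 6 (.s k47
  k32 2 (.d k106 k234 k224 7 10)))))] (.c k95 (.l (.s k175 k160 2 (.s k5 k245 11 (.s k21 k53 3 (.s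
  k42 k63 6 (.s k47 k32 2 (.d k106 k224 k234 10 7))))))) (.c k175 (.q k95 [(.s k101 k229 7 (.s k32
  k239 10 (.s k48 k16 3 (.s k69 k117 3 (.d k207 k138 k154 10 14))))), (.s k5 k245 11 (.s k53 k21 3
  (.s k101 k229 7 (.s k69 k117 3 (.d k197 k133 k149 7 11))))), (.s k5 k245 11 (.s k21 k53 3 (.s k42
  k63 6 (.s k47 k32 2 (.d k106 k234 k224 7 10))))), (.s k80 k90 2 (.s k101 k229 7 (.s k32 k239 10
  (.s k47 k42 2 (.s k160 k240 11 (.d k224 k96 k106 7 10))))))] .n) .n))) (.c k240 (.q k2 [(.s k3 k1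
  0 (.s k86 k254 13 (.s k7 k244 12 (.s k15 k11 1 (.d k5 k245 k10 11 2))))), (.s k3 k1 0 (.s k83 k163
  11 (.s k86 k254 13 (.s k89 k92 2 (.s k8 k251 12 (.d k12 k4 k166 1 14)))))), (.s k3 k1 0 (.s k163
  k83 11 (.s k175 k160 2 (.s k167 k171 1 (.s k15 k91 13 (.d k5 k245 k10 11 2)))))), (.s k86 k254 13
  (.s k7 k244 12 (.s k87 k84 0 (.s k167 k247 11 (.s k15 k91 13 (.d k5 k245 k10 11 2))))))] (.c k245
  (.q k250 [(.s k3 k1 0 (.s k10 k90 11 (.s k163 k83 11 (.s k175 k160 2 (.s k167 k171 1 (.d k15 k5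
  k91 2 13)))))), (.s k3 k1 0 (.s k83 k163 11 (.s k86 k254 13 (.s k89 k92 2 (.s k8 k251 12 (.d k12
  k4 k166 1 14)))))), (.s k10 k90 11 (.s k15 k5 2 (.s k86 k254 13 (.s k7 k244 12 (.s k87 k84 0 (.d
  k167 k247 k91 11 13))))))] .n) (.c k250 (.l (.s k245 k5 11 (.s k1 k3 0 (.s k253 k169 13 (.s k241
  k249 1 (.s k89 k13 13 (.d k81 k161 k93 11 1))))))) .n))) .n))) (.c k166 (.f k81 k162 12 (.q k86
  [(.s k2 k254 13 (.s k3 k1 0 (.s k89 k93 1 (.d k83 k92 k163 2 11)))), (.s k87 k84 0 (.s k89 k93 1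
  (.s k83 k92 2 (.s k95 k91 1 (.d k80 k82 k90 0 2))))), (.s k2 k254 13 (.s k3 k1 0 (.s k83 k163 11
  (.s k80 k82 0 (.s k87 k84 0 (.d k95 k91 k90 1 2))))))] (.c k83 (.l (.s k2 k254 13 (.s k1 k3 0 (.s
  k89 k93 1 (.s k241 k161 11 (.s k13 k165 13 (.s k9 k5 1 (.d k169 k253 k249 13 11)))))))) .n))) (.c
  k174 (.l (.s k81 k162 12 (.s k89 k93 1 (.s k12 k166 14 (.d k8 k4 k251 1 12))))) (.c k251 (.l (.s
  k162 k81 12 (.s k166 k174 1 (.s k4 k247 12 (.d k12 k8 k89 1 14))))) .n))))))))))))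

def t6_169 : T TT 256 :=
  (.f k170 k255 14 (.q k240 [(.s k80 k160 11 (.s k90 k95 2 (.s k10 k250 11 (.d k15 k5 k165 2 14))))]
  (.c k5 (.q k4 [(.s k12 k8 1 (.s k166 k247 12 (.s k162 k174 1 (.d k243 k81 k89 12 14)))), (.s k12
  k8 1 (.s k160 k80 11 (.s k164 k88 13 (.s k84 k244 11 (.d k168 k172 k252 1 13))))), (.s k80 k160 11
  (.s k90 k95 2 (.s k166 k247 12 (.s k242 k14 13 (.s k243 k241 0 (.d k162 k174 k81 1 12))))))] .n)
  (.c k10 (.q k2 [(.s k3 k1 0 (.s k80 k160 11 (.s k82 k161 12 (.s k81 k83 0 (.d k162 k242 k243 11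
  12))))), (.s k3 k1 0 (.s k86 k254 13 (.s k160 k80 11 (.s k165 k175 2 (.s k7 k244 12 (.d k15 k11
  k90 1 14)))))), (.s k80 k160 11 (.s k86 k254 13 (.s k90 k95 2 (.s k82 k94 1 (.s k81 k83 0 (.d k162
  k242 k243 11 12)))))), (.s k3 k1 0 (.s k82 k161 12 (.s k162 k242 11 (.s k166 k174 1 (.s k4 k247 12
  (.s k12 k8 1 (.d k243 k81 k89 12 14)))))))] .n) (.c k15 (.f k80 k160 11 (.q k81 [(.s k82 k83 0 (.s
  k3 k161 12 (.s k2 k1 0 (.d k162 k242 k243 11 12)))), (.s k89 k93 1 (.s k8 k251 12 (.s k12 k4 1 (.d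
  k243 k162 k166 12 14)))), (.s k83 k82 0 (.s k89 k93 1 (.s k86 k92 2 (.s k87 k84 0 (.d k95 k91 k90
  1 2)))))] (.c k95 (.q k175 [(.s k82 k83 0 (.s k3 k161 12 (.s k2 k1 0 (.d k162 k242 k243 11 12)))),
  (.s k89 k93 1 (.s k8 k251 12 (.s k12 k4 1 (.d k243 k162 k166 12 14)))), (.s k83 k82 0 (.s k89 k93
  1 (.s k92 k86 2 (.s k88 k84 1 (.s k12 k164 13 (.d k8 k4 k251 1 12))))))] .n) (.c k175 (.l (.s k95
  k90 2 (.s k82 k83 0 (.s k3 k161 12 (.s k2 k1 0 (.d k162 k242 k243 11 12)))))) .n)))) (.c k80 (.q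
  k154 [(.s k16 k223 10 (.s k48 k32 3 (.s k138 k186 3 (.d k207 k69 k101 10 14)))), (.s k138 k186 3
  (.s k207 k69 10 (.s k218 k229 6 (.s k90 k26 7 (.s k10 k250 11 (.d k15 k5 k165 2 14)))))), (.s k16
  k223 10 (.s k48 k32 3 (.s k176 k112 7 (.s k165 k143 6 (.s k5 k245 11 (.d k15 k10 k90 2 14))))))]
  (.c k48 (.q k149 [(.s k21 k213 7 (.s k63 k42 6 (.s k128 k191 6 (.d k192 k64 k106 7 14)))), (.s
  k128 k191 6 (.s k144 k159 2 (.s k176 k160 3 (.s k143 k165 6 (.d k138 k186 k133 3 2))))), (.s k21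
  k213 7 (.s k63 k42 6 (.s k159 k144 2 (.s k207 k111 11 (.d k138 k186 k69 3 10)))))] (.c k63 (.l (.s
  k159 k144 2 (.s k186 k138 3 (.s k191 k128 6 (.s k143 k175 3 (.d k176 k181 k165 2 6)))))) (.c k117
  (.l (.s k186 k138 3 (.s k21 k213 7 (.s k63 k42 6 (.s k128 k191 6 (.d k192 k64 k106 7 14)))))) (.c
  k186 (.q k117 [(.s k21 k213 7 (.s k63 k42 6 (.s k128 k191 6 (.d k192 k64 k106 7 14)))), (.s k69
  k101 3 (.s k207 k138 10 (.s k213 k21 7 (.s k218 k229 6 (.d k223 k208 k16 2 10))))), (.s k69 k101 3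
  (.s k128 k191 6 (.s k138 k207 10 (.s k133 k143 2 (.s k5 k197 7 (.d k165 k181 k245 3 11))))))] .n)
  .n)))) (.c k207 (.q k149 [(.s k21 k213 7 (.s k63 k42 6 (.s k128 k191 6 (.d k192 k64 k106 7 14)))),
  (.s k159 k144 2 (.s k186 k138 3 (.s k191 k128 6 (.s k143 k175 3 (.d k176 k181 k165 2 6))))), (.s
  k159 k144 2 (.s k213 k21 7 (.s k223 k16 10 (.s k208 k218 2 (.d k31 k95 k90 7 10)))))] (.c k223 (.q
  k239 [(.s k21 k213 7 (.s k63 k42 6 (.s k128 k191 6 (.d k192 k64 k106 7 14)))), (.s k32 k101 10 (.s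
  k48 k16 3 (.s k128 k191 6 (.s k144 k159 2 (.d k176 k160 k112 3 7))))), (.s k21 k213 7 (.s k32 k101
  10 (.s k48 k16 3 (.s k63 k42 6 (.s k58 k53 2 (.d k106 k192 k202 14 11))))))] (.c k63 (.l (.s k32
  k101 10 (.s k48 k16 3 (.s k176 k112 7 (.s k186 k138 3 (.d k191 k181 k128 2 6)))))) (.c k208 (.l
  (.s k128 k191 6 (.s k192 k64 7 (.s k63 k106 14 (.d k21 k42 k213 6 7))))) .n))) (.c k239 (.l (.s
  k223 k16 10 (.s k21 k213 7 (.s k63 k42 6 (.s k128 k191 6 (.d k192 k64 k106 7 14)))))) .n))) .n)))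
  (.c k90 (.f k160 k80 11 (.q k161 [(.s k162 k163 0 (.s k166 k174 1 (.s k4 k247 12 (.s k12 k8 1 (.d
  k243 k81 k89 12 14))))), (.s k3 k82 12 (.s k2 k1 0 (.s k86 k254 13 (.s k84 k87 0 (.s k165 k175 2
  (.s k244 k7 12 (.d k252 k248 k168 1 13))))))), (.s k3 k82 12 (.s k1 k2 0 (.s k81 k241 11 (.d k162
  k163 k243 0 12))))] (.c k11 (.q k248 [(.s k252 k244 1 (.s k168 k84 13 (.s k88 k8 11 (.d k164 k172
  k12 1 13)))), (.s k3 k82 12 (.s k1 k2 0 (.s k81 k241 11 (.d k162 k163 k243 0 12))))] (.c k10 (.l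
  (.s k3 k82 12 (.s k162 k163 0 (.s k81 k243 12 (.d k1 k2 k241 0 11))))) .n)) (.c k81 (.l (.s k162
  k163 0 (.s k165 k175 2 (.s k166 k174 1 (.s k4 k247 12 (.s k12 k8 1 (.d k164 k167 k88 0 13)))))))
  (.c k248 (.q k11 [(.s k165 k175 2 (.s k5 k245 11 (.s k15 k10 2 (.d k3 k7 k82 1 12)))), (.s k162
  k163 0 (.s k166 k174 1 (.s k4 k247 12 (.s k12 k8 1 (.d k243 k81 k89 12 14)))))] .n) .n))))) (.c
  k95 (.l (.s k160 k80 11 (.s k165 k175 2 (.s k15 k90 14 (.d k5 k10 k245 2 11))))) (.c k160 (.q k154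
  [(.s k16 k223 10 (.s k138 k186 3 (.s k207 k69 10 (.d k48 k32 k101 3 14)))), (.s k138 k186 3 (.s
  k207 k69 10 (.s k218 k229 6 (.s k90 k26 7 (.s k10 k250 11 (.d k15 k5 k165 2 14)))))), (.s k16 k223
  10 (.s k48 k32 3 (.s k176 k112 7 (.s k165 k143 6 (.s k5 k245 11 (.d k15 k10 k90 2 14))))))] (.c
  k48 (.q k150 [(.s k20 k215 8 (.s k60 k40 5 (.s k130 k190 5 (.d k195 k65 k105 8 14)))), (.s k16
  k223 10 (.s k130 k190 5 (.s k146 k158 1 (.s k162 k178 3 (.d k81 k243 k211 12 8))))), (.s k16 k223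
  10 (.s k20 k215 8 (.s k28 k24 1 (.s k146 k158 1 (.d k211 k81 k89 8 10)))))] (.c k117 (.l (.s k186
  k138 3 (.s k20 k215 8 (.s k60 k40 5 (.s k130 k190 5 (.d k195 k65 k105 8 14)))))) (.c k186 (.q k117
  [(.s k20 k215 8 (.s k60 k40 5 (.s k130 k190 5 (.d k195 k65 k105 8 14)))), (.s k16 k223 10 (.s k20
  k215 8 (.s k28 k24 1 (.s k146 k158 1 (.d k211 k81 k89 8 10))))), (.s k16 k223 10 (.s k130 k190 5
  (.s k146 k158 1 (.s k81 k211 8 (.d k162 k178 k243 3 12)))))] (.c k215 (.l (.s k69 k101 3 (.s k130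
  k190 5 (.s k138 k207 10 (.s k134 k142 1 (.s k4 k199 8 (.d k166 k182 k247 3 12))))))) .n)) .n)))
  (.c k207 (.q k143 [(.s k176 k165 6 (.s k48 k112 7 (.d k16 k223 k32 10 3))), (.s k165 k176 6 (.s k5
  k245 11 (.d k15 k10 k90 2 14))), (.s k138 k186 3 (.s k128 k133 2 (.s k192 k64 7 (.s k208 k224 3
  (.s k223 k16 10 (.s k213 k218 2 (.d k149 k191 k21 6 7)))))))] (.c k223 (.q k239 [(.s k32 k101 10
  (.s k48 k16 3 (.d k176 k165 k112 6 7))), (.s k165 k176 6 (.s k5 k245 11 (.d k15 k10 k90 2 14))),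
  (.s k32 k101 10 (.s k48 k16 3 (.s k138 k186 3 (.s k128 k133 2 (.s k192 k64 7 (.s k144 k96 11 (.d
  k149 k159 k191 2 6)))))))] .n) (.c k239 (.l (.s k223 k16 10 (.s k165 k176 6 (.s k5 k245 11 (.d k15
  k10 k90 2 14))))) .n))) .n))) (.c k165 (.q k161 [(.s k3 k82 12 (.s k1 k2 0 (.s k81 k241 11 (.s
  k160 k80 11 (.d k162 k163 k243 0 12))))), (.s k160 k80 11 (.s k162 k163 0 (.s k166 k174 1 (.s k4
  k247 12 (.s k12 k8 1 (.d k243 k81 k89 12 14)))))), (.s k3 k82 12 (.s k1 k2 0 (.s k81 k241 11 (.s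
  k89 k93 1 (.s k8 k251 12 (.s k12 k4 1 (.d k243 k162 k166 12 14))))))), (.s k80 k160 11 (.s k82 k3
  12 (.s k83 k81 0 (.s k90 k95 2 (.s k86 k94 1 (.s k92 k89 2 (.d k84 k87 k88 0 1)))))))] (.c k81 (.q
  k2 [(.d k3 k1 k82 0 12), (.s k160 k80 11 (.s k162 k163 0 (.s k166 k174 1 (.s k4 k247 12 (.s k12 k8
  1 (.s k243 k89 14 (.d k242 k241 k82 0 11)))))))] (.c k82 (.l (.s k80 k160 11 (.s k86 k254 13 (.s
  k84 k87 0 (.s k88 k92 1 (.s k12 k164 13 (.s k8 k4 1 (.d k168 k252 k248 13 11)))))))) .n)) (.c k89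
  (.l (.s k3 k82 12 (.s k1 k2 0 (.s k160 k80 11 (.s k162 k163 0 (.d k81 k241 k243 11 12)))))) .n)))
  (.c k175 (.l (.s k80 k160 11 (.s k90 k95 2 (.s k15 k165 14 (.d k10 k5 k250 2 11))))) (.c k250 (.l
  (.s k160 k80 11 (.s k165 k175 2 (.s k5 k245 11 (.d k15 k10 k90 2 14))))) .n))))))))))))

def t6_171 : T TT 256 :=
  (.q k89 [(.s k93 k81 1 (.s k255 k170 14 (.s k12 k174 12 (.s k166 k243 14 (.d k4 k8 k247 1 12))))),
  (.s k81 k93 1 (.s k243 k162 12 (.s k12 k166 14 (.s k8 k4 1 (.d k170 k251 k255 12 14)))))] (.c k4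
  (.q k5 [(.s k15 k10 2 (.s k165 k245 11 (.s k90 k240 14 (.s k95 k80 2 (.d k255 k175 k170 11
  14))))), (.s k93 k81 1 (.s k165 k245 11 (.s k13 k241 13 (.s k1 k9 1 (.d k253 k173 k169 11 13)))))]
  (.c k165 (.l (.s k10 k15 2 (.s k170 k255 14 (.s k8 k251 12 (.s k11 k9 0 (.s k90 k250 11 (.s k88
  k91 0 (.d k248 k168 k169 11 12)))))))) (.c k245 (.l (.s k15 k10 2 (.s k81 k93 1 (.s k243 k162 12
  (.s k91 k167 13 (.s k90 k88 0 (.s k80 k95 2 (.d k240 k160 k165 11 14)))))))) .n))) (.c k8 (.l (.s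
  k81 k93 1 (.s k243 k162 12 (.s k166 k12 14 (.s k247 k4 12 (.d k255 k251 k170 1 14)))))) (.c k12
  (.f k255 k170 14 (.f k81 k93 1 (.q k169 [(.s k253 k1 13 (.s k252 k254 0 (.s k84 k168 13 (.d k86 k3
  k87 14 0)))), (.s k1 k253 13 (.s k9 k249 11 (.s k13 k5 1 (.d k241 k161 k165 11 13)))), (.s k243
  k162 12 (.s k247 k251 1 (.s k166 k4 12 (.s k163 k172 2 (.s k3 k83 11 (.s k249 k9 11 (.d k252 k246
  k86 2 14)))))))] (.c k3 (.l (.s k9 k249 11 (.s k1 k253 13 (.s k13 k5 1 (.d k241 k161 k165 11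
  13))))) (.c k9 (.q k3 [(.d k1 k2 k253 0 13), (.s k86 k252 14 (.s k243 k162 12 (.d k83 k92 k163 2
  11)))] .n) .n))))) (.c k81 (.q k16 [(.s k48 k32 3 (.s k154 k223 10 (.s k101 k207 14 (.s k117 k69 3
  (.d k255 k186 k170 10 14))))), (.s k48 k32 3 (.s k154 k223 10 (.s k24 k219 8 (.s k12 k36 5 (.s k4
  k8 1 (.d k166 k247 k243 12 14)))))), (.s k154 k223 10 (.s k24 k219 8 (.s k20 k28 1 (.s k40 k60 5
  (.s k170 k255 14 (.d k8 k56 k251 3 12)))))), (.s k48 k32 3 (.s k170 k255 14 (.s k8 k251 12 (.s k12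
  k4 1 (.s k24 k36 5 (.s k20 k28 1 (.d k40 k56 k60 3 5)))))))] .n) (.c k93 (.q k16 [(.s k48 k32 3
  (.s k154 k223 10 (.s k101 k207 14 (.s k117 k69 3 (.d k255 k186 k170 10 14))))), (.s k48 k32 3 (.s
  k154 k223 10 (.s k24 k219 8 (.s k12 k36 5 (.s k4 k8 1 (.d k166 k247 k243 12 14)))))), (.s k48 k32
  3 (.s k170 k255 14 (.s k8 k251 12 (.s k12 k4 1 (.s k24 k36 5 (.s k40 k56 3 (.d k20 k28 k60 1
  5))))))), (.s k154 k223 10 (.s k24 k219 8 (.s k170 k255 14 (.s k8 k251 12 (.s k40 k56 3 (.d k20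
  k28 k60 1 5))))))] (.c k28 (.l (.s k48 k32 3 (.s k255 k170 14 (.s k117 k186 10 (.s k101 k69 3 (.d
  k154 k223 k207 10 14)))))) .n)) (.c k162 (.l (.s k93 k81 1 (.s k255 k170 14 (.s k12 k174 12 (.s
  k166 k243 14 (.d k4 k8 k247 1 12)))))) (.c k166 (.q k86 [(.s k81 k93 1 (.s k83 k92 2 (.s k80 k82 0
  (.s k87 k84 0 (.d k95 k91 k90 1 2))))), (.s k84 k87 0 (.s k252 k168 13 (.s k3 k169 14 (.s k170
  k255 14 (.d k2 k1 k254 0 13)))))] (.c k84 (.l (.s k81 k93 1 (.s k83 k92 2 (.s k162 k243 12 (.s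
  k170 k255 14 (.s k2 k254 13 (.d k82 k80 k242 0 11))))))) (.c k87 (.l (.s k81 k93 1 (.s k83 k92 2
  (.s k82 k80 0 (.s k162 k243 12 (.s k2 k242 11 (.d k170 k254 k255 13 14))))))) .n))) (.c k170 (.f
  k81 k93 1 (.q k169 [(.s k1 k253 13 (.s k9 k249 11 (.s k241 k161 11 (.d k13 k5 k165 1 13)))), (.s
  k243 k162 12 (.s k249 k9 11 (.s k252 k246 2 (.s k84 k168 13 (.d k86 k3 k87 14 0))))), (.s k1 k253
  13 (.s k3 k2 0 (.s k86 k252 14 (.s k83 k92 2 (.d k243 k163 k162 11 12)))))] .n)) (.c k174 (.l (.s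
  k81 k93 1 (.s k243 k162 12 (.s k12 k166 14 (.s k170 k255 14 (.d k8 k4 k251 1 12)))))) (.c k243 (.q
  k13 [(.s k81 k93 1 (.s k241 k165 13 (.s k1 k161 11 (.s k169 k253 13 (.d k9 k5 k249 1 11))))), (.s
  k165 k241 13 (.s k5 k245 11 (.s k15 k10 2 (.s k170 k255 14 (.s k160 k175 2 (.d k240 k80 k90 11
  14)))))), (.s k93 k81 1 (.s k173 k253 11 (.s k255 k170 14 (.s k12 k174 12 (.s k15 k14 0 (.s k94
  k252 12 (.d k95 k92 k175 0 11))))))), (.s k93 k81 1 (.s k165 k241 13 (.s k255 k170 14 (.s k12 k174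
  12 (.s k15 k14 0 (.d k5 k10 k245 2 11))))))] .n) (.c k255 (.q k3 [(.s k2 k1 0 (.s k81 k93 1 (.s
  k162 k243 12 (.s k82 k242 11 (.s k80 k83 0 (.d k240 k160 k161 11 12)))))), (.s k1 k2 0 (.s k93 k81
  1 (.s k253 k169 13 (.s k13 k173 11 (.s k5 k9 1 (.d k165 k245 k241 11 13)))))), (.s k81 k93 1 (.s
  k243 k162 12 (.s k83 k163 11 (.s k86 k92 2 (.s k84 k87 0 (.d k252 k168 k169 13 14)))))), (.s k1 k2
  0 (.s k169 k253 13 (.s k249 k9 11 (.s k252 k86 14 (.s k243 k246 2 (.s k166 k12 14 (.d k163 k172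
  k83 2 11)))))))] (.c k93 (.q k12 [(.s k4 k8 1 (.d k166 k247 k243 12 14)), (.s k1 k2 0 (.s k8 k4 1
  (.s k169 k253 13 (.s k9 k249 11 (.s k10 k11 0 (.d k5 k13 k15 1 2)))))), (.s k1 k2 0 (.s k166 k243
  14 (.s k169 k253 13 (.s k172 k163 2 (.d k252 k92 k86 11 14)))))] .n) .n)) .n))))))))))))

def t6_172 : T TT 256 :=
  (.f k255 k170 14 (.q k106 [(.s k64 k127 6 (.s k192 k128 7 (.s k149 k63 14 (.d k213 k234 k21 6
  7))))] (.c k21 (.q k1 [(.s k3 k2 0 (.s k87 k171 13 (.s k86 k84 0 (.d k169 k253 k252 13 14)))), (.s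
  k64 k127 6 (.s k169 k253 13 (.s k192 k128 7 (.s k149 k63 14 (.s k129 k189 5 (.s k65 k193 7 (.d k66
  k67 k3 0 8))))))), (.s k3 k2 0 (.s k64 k127 6 (.s k192 k128 7 (.s k66 k129 8 (.s k86 k126 5 (.d
  k87 k84 k171 0 13))))))] (.c k3 (.l (.s k64 k127 6 (.s k192 k128 7 (.s k213 k234 6 (.s k253 k169
  13 (.s k193 k233 5 (.s k65 k129 7 (.d k195 k130 k194 8 0)))))))) .n)) (.c k63 (.q k1 [(.s k3 k2 0
  (.s k87 k171 13 (.s k86 k84 0 (.d k169 k253 k252 13 14)))), (.s k64 k127 6 (.s k192 k128 7 (.s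
  k213 k234 6 (.s k253 k169 13 (.s k193 k233 5 (.s k65 k129 7 (.d k195 k130 k194 8 0))))))), (.s k3
  k2 0 (.s k64 k127 6 (.s k192 k128 7 (.s k66 k129 8 (.s k86 k126 5 (.d k87 k84 k171 0 13))))))] (.c
  k171 (.l (.s k3 k2 0 (.s k64 k127 6 (.s k169 k253 13 (.s k86 k252 14 (.s k192 k128 7 (.d k66 k126
  k129 5 8))))))) .n)) (.c k64 (.q k60 [(.s k20 k40 5 (.s k125 k190 8 (.s k150 k215 8 (.d k105 k65
  k195 5 14)))), (.s k20 k40 5 (.s k150 k215 8 (.s k62 k194 13 (.s k63 k61 0 (.s k21 k42 6 (.d k149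
  k213 k192 7 14)))))), (.s k125 k190 8 (.s k105 k65 5 (.s k104 k107 0 (.s k192 k148 13 (.s k149 k63
  14 (.d k213 k234 k21 6 7))))))] (.c k105 (.q k86 [(.s k84 k87 0 (.s k252 k168 13 (.s k253 k254 0
  (.d k169 k1 k3 13 14)))), (.s k126 k66 5 (.s k190 k125 8 (.s k62 k254 7 (.s k150 k194 13 (.d k20
  k40 k215 5 8)))))] (.c k40 (.q k235 [(.s k84 k87 0 (.s k252 k168 13 (.s k253 k254 0 (.d k169 k1 k3
  13 14)))), (.s k126 k66 5 (.s k190 k125 8 (.s k62 k254 7 (.s k150 k194 13 (.d k215 k195 k20 5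
  8)))))] (.c k254 (.l (.s k87 k84 0 (.s k3 k171 13 (.s k1 k2 0 (.d k169 k253 k252 13 14))))) .n))
  (.c k235 (.l (.s k40 k20 5 (.s k84 k87 0 (.s k252 k168 13 (.s k169 k3 14 (.d k253 k254 k1 0
  13)))))) (.c k254 (.l (.s k87 k84 0 (.s k3 k171 13 (.s k1 k2 0 (.d k169 k253 k252 13 14)))))
  .n)))) (.c k150 (.q k149 [(.s k21 k213 7 (.d k63 k42 k192 6 14)), (.s k63 k192 14 (.s k61 k62 0
  (.s k105 k193 13 (.d k125 k190 k65 8 5))))] (.c k63 (.l (.s k213 k21 7 (.s k192 k234 6 (.s k104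
  k148 13 (.s k105 k107 0 (.d k125 k65 k190 5 8)))))) (.c k130 (.l (.s k190 k125 8 (.s k21 k213 7
  (.d k63 k42 k192 6 14)))) (.c k190 (.q k130 [(.s k21 k213 7 (.d k63 k42 k192 6 14)), (.s k63 k192
  14 (.s k61 k62 0 (.s k65 k195 8 (.d k105 k193 k125 13 5))))] (.c k63 (.l (.s k65 k195 8 (.s k105
  k125 5 (.s k213 k21 7 (.s k192 k234 6 (.d k104 k107 k148 0 13)))))) (.c k192 (.l (.s k21 k213 7
  (.s k63 k42 6 (.s k61 k62 0 (.s k65 k195 8 (.d k105 k193 k125 13 5)))))) .n))) (.c k192 (.l (.s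
  k21 k213 7 (.s k63 k42 6 (.s k61 k62 0 (.s k105 k193 13 (.d k125 k65 k190 5 8)))))) .n))))) .n)))
  (.c k127 (.q k195 [(.s k65 k130 8 (.s k215 k235 5 (.s k150 k20 8 (.d k105 k125 k60 5 14)))), (.s
  k65 k130 8 (.s k105 k125 5 (.s k107 k104 0 (.s k63 k151 13 (.s k21 k42 6 (.d k149 k213 k192 7
  14)))))), (.s k215 k235 5 (.s k150 k20 8 (.s k194 k62 13 (.s k192 k193 0 (.s k149 k63 14 (.d k213
  k234 k21 6 7))))))] (.c k105 (.q k149 [(.s k21 k213 7 (.d k63 k42 k192 6 14)), (.s k63 k192 14 (.s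
  k151 k107 13 (.s k150 k148 0 (.d k215 k235 k20 5 8))))] (.c k40 (.l (.s k235 k215 5 (.s k21 k213 7
  (.d k63 k42 k192 6 14)))) (.c k63 (.l (.s k213 k21 7 (.s k192 k234 6 (.s k194 k193 0 (.s k150 k62
  13 (.d k215 k235 k20 5 8)))))) (.c k192 (.l (.s k21 k213 7 (.s k63 k42 6 (.s k151 k107 13 (.s k150
  k148 0 (.d k215 k235 k20 5 8)))))) (.c k235 (.q k40 [(.s k21 k213 7 (.d k63 k42 k192 6 14)), (.s
  k20 k60 5 (.s k63 k192 14 (.s k150 k215 8 (.d k151 k148 k107 0 13))))] (.c k63 (.l (.s k20 k60 5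
  (.s k150 k215 8 (.s k213 k21 7 (.s k192 k234 6 (.d k194 k62 k193 13 0)))))) (.c k192 (.l (.s k20
  k60 5 (.s k21 k213 7 (.s k63 k42 6 (.s k150 k215 8 (.d k151 k148 k107 0 13)))))) .n))) .n))))) (.c
  k150 (.q k149 [(.s k21 k213 7 (.d k63 k42 k192 6 14)), (.s k63 k192 14 (.s k107 k151 13 (.s k105
  k104 0 (.d k65 k130 k125 8 5))))] (.c k63 (.l (.s k213 k21 7 (.s k192 k234 6 (.s k193 k194 0 (.s
  k105 k61 13 (.d k65 k125 k130 5 8)))))) (.c k130 (.q k190 [(.s k21 k213 7 (.d k63 k42 k192 6 14)),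
  (.s k63 k192 14 (.s k107 k151 13 (.s k105 k104 0 (.d k125 k60 k65 8 5))))] (.c k63 (.l (.s k125
  k60 8 (.s k105 k65 5 (.s k213 k21 7 (.s k192 k234 6 (.d k193 k61 k194 13 0)))))) (.c k192 (.l (.s
  k21 k213 7 (.s k63 k42 6 (.s k107 k151 13 (.s k105 k104 0 (.d k125 k60 k65 8 5)))))) .n))) (.c
  k190 (.l (.s k130 k65 8 (.s k21 k213 7 (.d k63 k42 k192 6 14)))) (.c k192 (.l (.s k21 k213 7 (.s
  k63 k42 6 (.s k107 k151 13 (.s k105 k104 0 (.d k65 k125 k130 5 8)))))) .n))))) .n))) (.c k128 (.l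
  (.s k127 k64 6 (.s k63 k191 7 (.s k149 k192 14 (.d k21 k42 k213 6 7))))) (.c k149 (.f k64 k127 6
  (.q k90 [(.s k74 k122 3 (.s k79 k69 2 (.s k80 k95 2 (.d k112 k96 k101 3 6)))), (.s k80 k95 2 (.s
  k240 k160 11 (.s k165 k15 14 (.d k245 k250 k5 2 11))))] (.c k79 (.l (.s k74 k122 3 (.s k95 k80 2
  (.s k15 k175 11 (.d k192 k128 k133 7 10))))) (.c k80 (.l (.s k74 k122 3 (.s k69 k79 2 (.s k138
  k207 10 (.s k10 k202 7 (.s k15 k5 2 (.d k192 k128 k133 7 10))))))) (.c k95 (.l (.s k74 k122 3 (.s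
  k79 k69 2 (.s k112 k101 6 (.s k80 k96 3 (.s k240 k160 11 (.s k165 k15 14 (.d k245 k250 k5 2
  11)))))))) (.c k128 (.q k191 [(.s k74 k122 3 (.s k79 k69 2 (.s k80 k95 2 (.d k112 k96 k101 3
  6)))), (.s k95 k80 2 (.s k15 k175 11 (.s k5 k10 2 (.d k165 k245 k240 11 14))))] (.c k80 (.l (.s
  k74 k122 3 (.s k69 k79 2 (.s k207 k138 10 (.s k223 k239 3 (.s k154 k16 10 (.d k101 k117 k48 3
  14))))))) (.c k95 (.l (.s k74 k122 3 (.s k79 k69 2 (.s k112 k101 6 (.s k80 k96 3 (.s k240 k160 11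
  (.s k165 k15 14 (.d k245 k250 k5 2 11)))))))) .n))) (.c k191 (.l (.s k128 k192 7 (.s k74 k122 3
  (.s k79 k69 2 (.s k80 k95 2 (.d k112 k96 k101 3 6)))))) .n))))))) (.c k191 (.l (.s k64 k127 6 (.s
  k192 k128 7 (.s k149 k63 14 (.d k213 k234 k21 6 7))))) (.c k192 (.q k1 [(.s k3 k2 0 (.s k87 k171
  13 (.s k86 k84 0 (.d k169 k253 k252 13 14)))), (.s k127 k64 6 (.s k63 k191 7 (.s k21 k42 6 (.s k61
  k41 5 (.s k253 k169 13 (.s k125 k189 7 (.d k60 k190 k62 8 0))))))), (.s k3 k2 0 (.s k127 k64 6 (.s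
  k63 k191 7 (.s k21 k42 6 (.s k23 k43 5 (.s k22 k20 0 (.d k41 k61 k60 5 6)))))))] .n) (.c k213 (.q
  k1 [(.s k3 k2 0 (.s k87 k171 13 (.s k86 k84 0 (.d k169 k253 k252 13 14)))), (.s k64 k127 6 (.s
  k169 k253 13 (.s k192 k128 7 (.s k149 k63 14 (.s k129 k189 5 (.s k66 k3 8 (.d k65 k193 k67 7
  0))))))), (.s k3 k2 0 (.s k64 k127 6 (.s k192 k128 7 (.s k66 k129 8 (.s k86 k126 5 (.d k87 k84
  k171 0 13))))))] (.c k3 (.l (.s k127 k64 6 (.s k63 k191 7 (.s k21 k42 6 (.s k61 k41 5 (.s k60 k62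
  0 (.s k125 k190 8 (.d k253 k189 k169 7 13)))))))) .n)) (.c k234 (.l (.s k127 k64 6 (.s k63 k191 7
  (.s k21 k42 6 (.d k149 k213 k192 7 14))))) .n))))))))))))

def t6_173 : T TT 256 :=
  (.f k255 k170 14 (.q k106 [(.s k64 k127 6 (.s k192 k128 7 (.s k149 k63 14 (.d k213 k234 k21 6
  7))))] (.c k21 (.q k1 [(.s k3 k2 0 (.s k87 k171 13 (.s k86 k84 0 (.d k169 k253 k252 13 14)))), (.s
  k64 k127 6 (.s k169 k253 13 (.s k192 k128 7 (.s k149 k63 14 (.s k129 k189 5 (.s k65 k193 7 (.d k66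
  k67 k3 0 8))))))), (.s k3 k2 0 (.s k64 k127 6 (.s k192 k128 7 (.s k66 k129 8 (.s k86 k126 5 (.d
  k87 k84 k171 0 13))))))] (.c k3 (.l (.s k64 k127 6 (.s k192 k128 7 (.s k213 k234 6 (.s k253 k169
  13 (.s k193 k233 5 (.s k65 k129 7 (.d k195 k130 k194 8 0)))))))) .n)) (.c k63 (.q k1 [(.s k3 k2 0
  (.s k87 k171 13 (.s k86 k84 0 (.d k169 k253 k252 13 14)))), (.s k64 k127 6 (.s k192 k128 7 (.s
  k213 k234 6 (.s k253 k169 13 (.s k193 k233 5 (.s k65 k129 7 (.d k195 k130 k194 8 0))))))), (.s k3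
  k2 0 (.s k64 k127 6 (.s k192 k128 7 (.s k66 k129 8 (.s k86 k126 5 (.d k87 k84 k171 0 13))))))] (.c
  k171 (.l (.s k3 k2 0 (.s k64 k127 6 (.s k169 k253 13 (.s k86 k252 14 (.s k192 k128 7 (.d k66 k126
  k129 5 8))))))) .n)) (.c k64 (.q k60 [(.s k20 k40 5 (.s k125 k190 8 (.s k150 k215 8 (.d k105 k65
  k195 5 14)))), (.s k20 k40 5 (.s k150 k215 8 (.s k62 k194 13 (.s k63 k61 0 (.s k21 k42 6 (.d k149
  k213 k192 7 14)))))), (.s k125 k190 8 (.s k105 k65 5 (.s k104 k107 0 (.s k192 k148 13 (.s k149 k63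
  14 (.d k213 k234 k21 6 7))))))] (.c k105 (.q k86 [(.s k84 k87 0 (.s k252 k168 13 (.s k253 k254 0
  (.d k169 k1 k3 13 14)))), (.s k126 k66 5 (.s k190 k125 8 (.s k62 k254 7 (.s k150 k194 13 (.d k20
  k40 k215 5 8)))))] (.c k40 (.q k235 [(.s k84 k87 0 (.s k252 k168 13 (.s k253 k254 0 (.d k169 k1 k3
  13 14)))), (.s k126 k66 5 (.s k190 k125 8 (.s k62 k254 7 (.s k150 k194 13 (.d k215 k195 k20 5
  8)))))] (.c k254 (.l (.s k87 k84 0 (.s k3 k171 13 (.s k1 k2 0 (.d k169 k253 k252 13 14))))) .n))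
  (.c k235 (.l (.s k40 k20 5 (.s k84 k87 0 (.s k252 k168 13 (.s k169 k3 14 (.d k253 k254 k1 0
  13)))))) (.c k254 (.l (.s k87 k84 0 (.s k3 k171 13 (.s k1 k2 0 (.d k169 k253 k252 13 14)))))
  .n)))) (.c k150 (.q k149 [(.s k21 k213 7 (.d k63 k42 k192 6 14)), (.s k63 k192 14 (.s k61 k62 0
  (.s k105 k193 13 (.d k125 k190 k65 8 5))))] (.c k63 (.l (.s k213 k21 7 (.s k192 k234 6 (.s k104
  k148 13 (.s k105 k107 0 (.d k125 k65 k190 5 8)))))) (.c k130 (.l (.s k190 k125 8 (.s k21 k213 7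
  (.d k63 k42 k192 6 14)))) (.c k190 (.q k130 [(.s k21 k213 7 (.d k63 k42 k192 6 14)), (.s k63 k192
  14 (.s k61 k62 0 (.s k65 k195 8 (.d k105 k193 k125 13 5))))] (.c k63 (.l (.s k65 k195 8 (.s k105
  k125 5 (.s k213 k21 7 (.s k192 k234 6 (.d k104 k107 k148 0 13)))))) (.c k192 (.l (.s k21 k213 7
  (.s k63 k42 6 (.s k61 k62 0 (.s k65 k195 8 (.d k105 k193 k125 13 5)))))) .n))) (.c k192 (.l (.s
  k21 k213 7 (.s k63 k42 6 (.s k61 k62 0 (.s k105 k193 13 (.d k125 k65 k190 5 8)))))) .n))))) .n)))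
  (.c k127 (.q k195 [(.s k65 k130 8 (.s k215 k235 5 (.s k150 k20 8 (.d k105 k125 k60 5 14)))), (.s
  k65 k130 8 (.s k105 k125 5 (.s k107 k104 0 (.s k63 k151 13 (.s k21 k42 6 (.d k149 k213 k192 7
  14)))))), (.s k215 k235 5 (.s k150 k20 8 (.s k194 k62 13 (.s k192 k193 0 (.s k149 k63 14 (.d k213
  k234 k21 6 7))))))] (.c k105 (.q k149 [(.s k21 k213 7 (.d k63 k42 k192 6 14)), (.s k63 k192 14 (.s
  k151 k107 13 (.s k150 k148 0 (.d k215 k235 k20 5 8))))] (.c k40 (.l (.s k235 k215 5 (.s k21 k213 7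
  (.d k63 k42 k192 6 14)))) (.c k63 (.l (.s k213 k21 7 (.s k192 k234 6 (.s k194 k193 0 (.s k150 k62
  13 (.d k215 k235 k20 5 8)))))) (.c k192 (.l (.s k21 k213 7 (.s k63 k42 6 (.s k151 k107 13 (.s k150
  k148 0 (.d k215 k235 k20 5 8)))))) (.c k235 (.q k40 [(.s k21 k213 7 (.d k63 k42 k192 6 14)), (.s
  k20 k60 5 (.s k63 k192 14 (.s k150 k215 8 (.d k151 k148 k107 0 13))))] (.c k63 (.l (.s k20 k60 5
  (.s k150 k215 8 (.s k213 k21 7 (.s k192 k234 6 (.d k194 k62 k193 13 0)))))) (.c k192 (.l (.s k20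
  k60 5 (.s k21 k213 7 (.s k63 k42 6 (.s k150 k215 8 (.d k151 k148 k107 0 13)))))) .n))) .n))))) (.c
  k150 (.q k149 [(.s k21 k213 7 (.d k63 k42 k192 6 14)), (.s k63 k192 14 (.s k107 k151 13 (.s k105
  k104 0 (.d k65 k130 k125 8 5))))] (.c k63 (.l (.s k213 k21 7 (.s k192 k234 6 (.s k193 k194 0 (.s
  k105 k61 13 (.d k65 k125 k130 5 8)))))) (.c k130 (.q k190 [(.s k21 k213 7 (.d k63 k42 k192 6 14)),
  (.s k63 k192 14 (.s k107 k151 13 (.s k105 k104 0 (.d k125 k60 k65 8 5))))] (.c k63 (.l (.s k125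
  k60 8 (.s k105 k65 5 (.s k213 k21 7 (.s k192 k234 6 (.d k193 k61 k194 13 0)))))) (.c k192 (.l (.s
  k21 k213 7 (.s k63 k42 6 (.s k107 k151 13 (.s k105 k104 0 (.d k125 k60 k65 8 5)))))) .n))) (.c
  k190 (.l (.s k130 k65 8 (.s k21 k213 7 (.d k63 k42 k192 6 14)))) (.c k192 (.l (.s k21 k213 7 (.s
  k63 k42 6 (.s k107 k151 13 (.s k105 k104 0 (.d k65 k125 k130 5 8)))))) .n))))) .n))) (.c k128 (.l
  (.s k127 k64 6 (.s k63 k191 7 (.s k149 k192 14 (.d k21 k42 k213 6 7))))) (.c k149 (.f k64 k127 6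
  (.f k128 k192 7 (.q k65 [(.s k105 k125 5 (.s k104 k107 0 (.s k124 k84 5 (.d k67 k66 k86 0 6)))),
  (.s k195 k130 8 (.s k215 k235 5 (.s k150 k20 8 (.d k105 k125 k60 5 14)))), (.s k67 k66 0 (.s k195
  k130 8 (.s k3 k131 7 (.s k87 k171 13 (.s k86 k84 0 (.s k169 k252 14 (.d k1 k2 k253 0 13)))))))]
  .n))) (.c k191 (.l (.s k64 k127 6 (.s k192 k128 7 (.s k149 k63 14 (.d k213 k234 k21 6 7))))) (.c
  k192 (.q k1 [(.s k3 k2 0 (.s k87 k171 13 (.s k86 k84 0 (.d k169 k253 k252 13 14)))), (.s k127 k64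
  6 (.s k63 k191 7 (.s k21 k42 6 (.s k61 k41 5 (.s k253 k169 13 (.s k125 k189 7 (.d k60 k190 k62 8
  0))))))), (.s k3 k2 0 (.s k127 k64 6 (.s k63 k191 7 (.s k21 k42 6 (.s k23 k43 5 (.s k22 k20 0 (.d
  k41 k61 k60 5 6)))))))] .n) (.c k213 (.q k1 [(.s k3 k2 0 (.s k87 k171 13 (.s k86 k84 0 (.d k169
  k253 k252 13 14)))), (.s k64 k127 6 (.s k169 k253 13 (.s k192 k128 7 (.s k149 k63 14 (.s k129 k189
  5 (.s k66 k3 8 (.d k65 k193 k67 7 0))))))), (.s k3 k2 0 (.s k64 k127 6 (.s k192 k128 7 (.s k66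
  k129 8 (.s k86 k126 5 (.d k87 k84 k171 0 13))))))] (.c k3 (.l (.s k127 k64 6 (.s k63 k191 7 (.s
  k21 k42 6 (.s k61 k41 5 (.s k60 k62 0 (.s k125 k190 8 (.d k253 k189 k169 7 13)))))))) .n)) (.c
  k234 (.l (.s k127 k64 6 (.s k63 k191 7 (.s k21 k42 6 (.d k149 k213 k192 7 14))))) .n))))))))))))

def t6_174 : T TT 256 :=
  (.q k86 [(.s k84 k87 0 (.s k252 k168 13 (.s k3 k169 14 (.s k2 k1 0 (.d k170 k254 k255 13 14)))))]
  (.c k1 (.q k5 [(.s k15 k10 2 (.s k165 k245 11 (.s k90 k240 14 (.s k95 k80 2 (.d k255 k175 k170 11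
  14))))), (.s k15 k10 2 (.s k84 k87 0 (.s k165 k245 11 (.s k7 k244 12 (.s k3 k11 1 (.d k252 k168
  k169 13 14)))))), (.s k84 k87 0 (.s k165 k245 11 (.s k168 k252 13 (.s k170 k255 14 (.s k244 k7 12
  (.s k164 k4 11 (.d k160 k172 k175 1 2))))))), (.s k15 k10 2 (.s k84 k87 0 (.s k252 k168 13 (.s k94
  k173 12 (.s k90 k82 1 (.s k95 k80 2 (.d k255 k175 k170 11 14)))))))] .n) (.c k2 (.l (.s k84 k87 0
  (.s k252 k168 13 (.s k169 k3 14 (.s k253 k1 13 (.d k255 k254 k170 0 14)))))) (.c k3 (.f k84 k87 0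
  (.q k12 [(.s k4 k8 1 (.s k164 k244 11 (.s k88 k240 13 (.s k92 k80 1 (.d k252 k172 k168 11 13))))),
  (.s k4 k8 1 (.s k244 k164 11 (.s k165 k7 12 (.s k245 k5 11 (.d k247 k246 k166 0 12))))), (.s k252
  k168 13 (.s k92 k172 11 (.s k89 k83 2 (.s k81 k93 1 (.d k243 k162 k166 12 14)))))] (.c k164 (.l
  (.s k4 k8 1 (.s k166 k247 12 (.s k89 k243 14 (.s k252 k168 13 (.d k92 k83 k172 2 11)))))) (.c k171
  (.l (.s k255 k170 14 (.s k4 k8 1 (.s k164 k244 11 (.s k88 k240 13 (.s k92 k80 1 (.d k252 k168 k172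
  13 11))))))) (.c k255 (.q k171 [(.s k4 k8 1 (.s k244 k164 11 (.s k165 k7 12 (.s k245 k5 11 (.d
  k247 k246 k166 0 12))))), (.s k252 k168 13 (.s k92 k172 11 (.s k89 k83 2 (.s k81 k93 1 (.d k243
  k162 k166 12 14))))), (.s k8 k4 1 (.s k168 k252 13 (.s k88 k248 11 (.s k92 k80 1 (.s k89 k83 2 (.d
  k170 k169 k251 0 12))))))] .n) .n))))) (.c k84 (.q k15 [(.s k5 k10 2 (.s k165 k245 11 (.s k90 k240
  14 (.s k95 k80 2 (.d k255 k175 k170 11 14))))), (.s k5 k10 2 (.s k165 k245 11 (.s k7 k244 12 (.s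
  k3 k11 1 (.s k169 k252 14 (.d k1 k2 k253 0 13)))))), (.s k170 k255 14 (.s k2 k254 13 (.s k3 k1 0
  (.s k7 k11 1 (.s k165 k244 12 (.s k160 k175 2 (.d k240 k80 k90 11 14))))))), (.s k10 k5 2 (.s k170
  k255 14 (.s k90 k250 11 (.s k80 k95 2 (.d k240 k160 k165 11 14)))))] (.c k165 (.l (.s k10 k5 2 (.s
  k170 k255 14 (.s k2 k254 13 (.s k3 k1 0 (.s k90 k250 11 (.s k94 k82 1 (.d k252 k173 k169 12
  14)))))))) (.c k240 (.l (.s k5 k10 2 (.s k165 k245 11 (.s k7 k244 12 (.s k3 k11 1 (.s k2 k1 0 (.d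
  k170 k255 k254 14 13))))))) .n))) (.c k87 (.q k15 [(.s k5 k10 2 (.s k165 k245 11 (.s k90 k240 14
  (.s k95 k80 2 (.d k255 k175 k170 11 14))))), (.s k5 k10 2 (.s k165 k245 11 (.s k7 k244 12 (.s k3
  k11 1 (.s k169 k252 14 (.d k1 k2 k253 0 13)))))), (.s k170 k255 14 (.s k2 k254 13 (.s k3 k1 0 (.s
  k7 k11 1 (.s k165 k244 12 (.s k160 k175 2 (.d k240 k80 k90 11 14))))))), (.s k10 k5 2 (.s k170
  k255 14 (.s k90 k250 11 (.s k80 k95 2 (.d k240 k160 k165 11 14)))))] (.c k165 (.l (.s k10 k5 2 (.s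
  k170 k255 14 (.s k2 k254 13 (.s k3 k1 0 (.s k90 k250 11 (.s k94 k82 1 (.d k252 k173 k169 12
  14)))))))) (.c k240 (.l (.s k5 k10 2 (.s k165 k245 11 (.s k7 k244 12 (.s k3 k11 1 (.s k2 k1 0 (.d
  k170 k255 k254 14 13))))))) .n))) (.c k168 (.l (.s k87 k84 0 (.s k255 k170 14 (.s k3 k171 13 (.s
  k169 k252 14 (.d k1 k2 k253 0 13)))))) (.c k169 (.q k8 [(.s k12 k4 1 (.s k170 k255 14 (.s k89 k251
  12 (.s k81 k93 1 (.d k243 k162 k166 12 14))))), (.s k84 k87 0 (.s k168 k252 13 (.s k88 k248 11 (.s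
  k80 k92 1 (.s k240 k160 11 (.d k12 k4 k164 1 13)))))), (.s k84 k87 0 (.s k168 k252 13 (.s k88 k248
  11 (.s k92 k80 1 (.s k89 k83 2 (.d k170 k251 k255 12 14))))))] .n) (.c k170 (.f k84 k87 0 (.q k4
  [(.s k244 k164 11 (.s k165 k7 12 (.s k245 k5 11 (.d k247 k166 k246 12 0)))), (.s k12 k8 1 (.s k164
  k244 11 (.s k88 k240 13 (.s k92 k80 1 (.d k252 k172 k168 11 13))))), (.s k166 k247 12 (.s k12 k8 1
  (.s k89 k243 14 (.s k92 k83 2 (.d k252 k172 k168 11 13)))))] (.c k162 (.l (.s k166 k247 12 (.s k12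
  k8 1 (.s k89 k243 14 (.s k92 k83 2 (.d k252 k172 k168 11 13)))))) (.c k166 (.q k162 [(.s k12 k8 1
  (.s k164 k244 11 (.s k88 k240 13 (.s k92 k80 1 (.d k252 k172 k168 11 13))))), (.s k243 k81 12 (.s
  k244 k164 11 (.s k165 k7 12 (.s k245 k5 11 (.s k252 k168 13 (.d k246 k247 k249 0 2)))))), (.s k12
  k8 1 (.s k81 k243 12 (.s k89 k93 1 (.s k92 k83 2 (.s k88 k80 1 (.d k164 k244 k240 11 13)))))), (.s
  k12 k8 1 (.s k81 k243 12 (.s k89 k93 1 (.s k92 k83 2 (.d k252 k172 k168 11 13)))))] .n) .n)))) (.c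
  k171 (.l (.s k84 k87 0 (.s k252 k168 13 (.s k3 k169 14 (.s k170 k255 14 (.d k2 k1 k254 0 13))))))
  (.c k252 (.q k17 [(.s k51 k34 4 (.s k153 k221 9 (.s k102 k204 14 (.s k119 k68 4 (.d k255 k187 k170
  9 14))))), (.s k87 k84 0 (.s k153 k221 9 (.s k19 k220 10 (.s k16 k18 0 (.d k223 k155 k154 9
  10))))), (.s k51 k34 4 (.s k87 k84 0 (.s k255 k170 14 (.s k3 k171 13 (.s k19 k35 3 (.s k16 k18 0
  (.d k223 k155 k154 9 10)))))))] .n) (.c k254 (.l (.s k87 k84 0 (.s k255 k170 14 (.s k3 k171 13 (.s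
  k1 k2 0 (.d k169 k253 k252 13 14)))))) (.c k255 (.f k84 k87 0 (.f k252 k168 13 (.q k12 [(.s k4 k8
  1 (.s k164 k244 11 (.s k88 k240 13 (.d k92 k80 k172 1 11)))), (.s k92 k172 11 (.s k89 k83 2 (.s
  k81 k93 1 (.d k243 k162 k166 12 14))))] (.c k3 (.q k171 [(.s k4 k8 1 (.s k92 k172 11 (.s k88 k80 1
  (.d k164 k244 k240 11 13)))), (.s k92 k172 11 (.s k89 k83 2 (.s k81 k93 1 (.d k243 k162 k166 12
  14)))), (.s k4 k8 1 (.s k164 k244 11 (.s k88 k240 13 (.s k92 k80 1 (.s k89 k83 2 (.d k166 k243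
  k247 14 12))))))] (.c k92 (.l (.s k4 k8 1 (.s k244 k164 11 (.s k165 k7 12 (.s k245 k5 11 (.d k247
  k246 k166 0 12)))))) (.c k164 (.q k80 [(.d k92 k172 k88 11 1), (.s k90 k95 2 (.s k94 k82 1 (.s k15
  k173 12 (.d k240 k160 k165 11 14))))] (.c k160 (.l (.s k172 k92 11 (.s k90 k95 2 (.s k94 k82 1 (.s
  k15 k173 12 (.s k5 k10 2 (.d k165 k240 k245 14 11))))))) (.c k172 (.l (.s k160 k240 11 (.s k90 k95
  2 (.s k82 k94 1 (.s k83 k81 0 (.d k92 k88 k89 1 2)))))) .n))) .n))) (.c k92 (.l (.s k4 k8 1 (.s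
  k244 k164 11 (.s k165 k7 12 (.s k245 k5 11 (.d k247 k246 k166 0 12)))))) (.c k164 (.l (.s k4 k8 1
  (.s k166 k247 12 (.s k172 k92 11 (.d k169 k163 k3 2 14))))) (.c k171 (.f k3 k169 14 (.q k170 [(.d
  k2 k1 k254 0 13), (.s k8 k4 1 (.s k89 k251 12 (.d k92 k83 k172 2 11)))] .n)) (.c k172 (.l (.s k4
  k8 1 (.s k164 k244 11 (.s k88 k240 13 (.s k92 k80 1 (.s k89 k83 2 (.d k166 k247 k243 12 14)))))))
  .n)))))))) .n)))))))))))))

def t6_175 : T TT 256 :=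
  (.q k86 [(.s k84 k87 0 (.s k252 k168 13 (.s k3 k169 14 (.s k2 k1 0 (.d k170 k254 k255 13 14)))))]
  (.c k1 (.q k4 [(.s k12 k8 1 (.s k166 k247 12 (.s k89 k243 14 (.s k93 k81 1 (.d k255 k174 k170 12
  14))))), (.s k84 k87 0 (.s k244 k164 11 (.s k165 k7 12 (.s k245 k5 11 (.d k247 k246 k166 0
  12))))), (.s k12 k8 1 (.s k84 k87 0 (.s k164 k244 11 (.s k88 k240 13 (.s k92 k80 1 (.d k252 k172
  k168 11 13))))))] .n) (.c k2 (.l (.s k84 k87 0 (.s k252 k168 13 (.s k169 k3 14 (.s k253 k1 13 (.d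
  k255 k254 k170 0 14)))))) (.c k3 (.q k12 [(.s k4 k8 1 (.s k166 k247 12 (.s k89 k243 14 (.s k93 k81
  1 (.d k255 k174 k170 12 14))))), (.s k4 k8 1 (.s k84 k87 0 (.s k164 k244 11 (.s k88 k240 13 (.s
  k92 k80 1 (.d k252 k172 k168 11 13)))))), (.s k84 k87 0 (.s k252 k168 13 (.s k92 k172 11 (.s k89
  k83 2 (.s k81 k93 1 (.d k243 k162 k166 12 14))))))] (.c k255 (.f k4 k8 1 (.f k87 k84 0 (.q k95
  [(.s k83 k91 1 (.s k166 k247 12 (.d k89 k243 k92 14 2))), (.s k80 k90 2 (.s k83 k91 1 (.s k81 k82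
  0 (.d k89 k93 k92 1 2)))), (.s k90 k80 2 (.s k166 k247 12 (.s k14 k242 13 (.s k15 k13 0 (.s k5 k10
  2 (.d k165 k245 k240 11 14))))))] (.c k92 (.l (.s k80 k90 2 (.s k83 k91 1 (.s k81 k82 0 (.s k89
  k93 1 (.d k166 k247 k243 12 14)))))) .n)))) .n)) (.c k84 (.q k16 [(.s k48 k32 3 (.s k154 k223 10
  (.s k101 k207 14 (.s k117 k69 3 (.d k255 k186 k170 10 14))))), (.s k48 k32 3 (.s k154 k223 10 (.s
  k18 k222 9 (.s k3 k33 4 (.s k1 k2 0 (.d k169 k253 k252 13 14)))))), (.s k154 k223 10 (.s k18 k222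
  9 (.s k17 k19 0 (.s k34 k51 4 (.s k170 k255 14 (.d k2 k50 k254 3 13)))))), (.s k48 k32 3 (.s k170
  k255 14 (.s k2 k254 13 (.s k3 k1 0 (.s k18 k33 4 (.s k17 k19 0 (.d k34 k50 k51 3 4)))))))] .n) (.c
  k87 (.q k16 [(.s k48 k32 3 (.s k154 k223 10 (.s k101 k207 14 (.s k117 k69 3 (.d k255 k186 k170 10
  14))))), (.s k48 k32 3 (.s k154 k223 10 (.s k18 k222 9 (.s k3 k33 4 (.s k1 k2 0 (.d k169 k253 k252
  13 14)))))), (.s k48 k32 3 (.s k170 k255 14 (.s k2 k254 13 (.s k3 k1 0 (.s k18 k33 4 (.s k34 k50 3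
  (.d k17 k19 k51 0 4))))))), (.s k154 k223 10 (.s k18 k222 9 (.s k170 k255 14 (.s k2 k254 13 (.s
  k34 k50 3 (.d k17 k19 k51 0 4))))))] (.c k19 (.l (.s k48 k32 3 (.s k255 k170 14 (.s k117 k186 10
  (.s k101 k69 3 (.d k154 k223 k207 10 14)))))) .n)) (.c k168 (.l (.s k87 k84 0 (.s k255 k170 14 (.s
  k3 k171 13 (.s k169 k252 14 (.d k1 k2 k253 0 13)))))) (.c k169 (.q k4 [(.s k12 k8 1 (.s k166 k247
  12 (.s k89 k243 14 (.s k93 k81 1 (.d k255 k174 k170 12 14))))), (.s k84 k87 0 (.s k244 k164 11 (.s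
  k165 k7 12 (.s k245 k5 11 (.d k247 k246 k166 0 12))))), (.s k12 k8 1 (.s k84 k87 0 (.s k164 k244
  11 (.s k88 k240 13 (.s k92 k80 1 (.d k252 k172 k168 11 13))))))] .n) (.c k170 (.q k165 [(.s k84
  k87 0 (.s k244 k7 12 (.s k4 k164 11 (.s k245 k5 11 (.d k247 k246 k166 0 12))))), (.s k5 k245 11
  (.s k15 k10 2 (.s k84 k87 0 (.s k90 k240 14 (.s k94 k82 1 (.d k252 k173 k168 12 13)))))), (.s k5
  k245 11 (.s k7 k244 12 (.s k15 k10 2 (.s k3 k11 1 (.s k169 k252 14 (.d k1 k2 k253 0 13))))))] (.c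
  k5 (.l (.s k84 k87 0 (.s k244 k7 12 (.s k4 k164 11 (.s k252 k168 13 (.s k240 k248 1 (.s k90 k15 14
  (.d k80 k95 k160 2 11)))))))) (.c k245 (.l (.s k84 k87 0 (.s k244 k7 12 (.s k252 k168 13 (.s k240
  k248 1 (.s k80 k160 11 (.d k90 k95 k15 2 14))))))) .n))) (.c k171 (.l (.s k84 k87 0 (.s k252 k168
  13 (.s k3 k169 14 (.s k170 k255 14 (.d k2 k1 k254 0 13)))))) (.c k252 (.q k8 [(.s k170 k255 14 (.s
  k89 k251 12 (.s k81 k93 1 (.s k243 k162 12 (.d k12 k4 k166 1 14))))), (.s k4 k12 1 (.s k84 k87 0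
  (.s k244 k164 11 (.s k165 k7 12 (.s k245 k5 11 (.d k247 k246 k166 0 12)))))), (.s k84 k87 0 (.s
  k170 k255 14 (.s k89 k251 12 (.s k92 k83 2 (.s k80 k88 1 (.s k93 k81 1 (.d k95 k94 k90 0 2)))))))]
  (.c k247 (.l (.s k12 k4 1 (.s k170 k255 14 (.s k89 k251 12 (.s k243 k166 14 (.d k81 k93 k162 1
  12)))))) .n)) (.c k254 (.l (.s k87 k84 0 (.s k255 k170 14 (.s k3 k171 13 (.s k1 k2 0 (.d k169 k253
  k252 13 14)))))) (.c k255 (.q k60 [(.s k20 k40 5 (.s k87 k84 0 (.s k215 k150 8 (.s k23 k151 7 (.s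
  k21 k22 0 (.d k149 k213 k212 7 8)))))), (.s k84 k87 0 (.s k252 k168 13 (.s k124 k188 7 (.s k105
  k67 6 (.s k65 k125 5 (.d k195 k130 k150 8 14)))))), (.s k20 k40 5 (.s k150 k215 8 (.s k22 k214 7
  (.s k3 k41 6 (.s k1 k2 0 (.d k169 k253 k252 13 14))))))] (.c k15 (.q k95 [(.s k87 k84 0 (.s k83
  k91 1 (.s k90 k80 2 (.s k92 k89 2 (.d k94 k93 k82 0 1))))), (.s k20 k40 5 (.s k150 k215 8 (.s k22
  k214 7 (.s k3 k41 6 (.s k1 k2 0 (.d k169 k253 k252 13 14))))))] .n) (.c k95 (.q k15 [(.s k5 k10 2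
  (.s k20 k40 5 (.s k30 k45 4 (.s k150 k215 8 (.s k90 k210 9 (.d k165 k245 k240 11 14)))))), (.s k20
  k40 5 (.s k84 k87 0 (.s k148 k212 7 (.s k104 k192 13 (.s k124 k64 5 (.d k252 k188 k168 7 13)))))),
  (.s k5 k10 2 (.s k45 k30 4 (.s k165 k245 11 (.s k105 k225 9 (.s k65 k125 5 (.d k195 k130 k150 8
  14))))))] .n) (.c k150 (.l (.s k20 k40 5 (.s k84 k87 0 (.s k148 k212 7 (.s k104 k192 13 (.s k124
  k64 5 (.d k252 k188 k168 7 13))))))) .n)))) .n)))))))))))))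

def t6_176 : T TT 256 :=
  (.f k255 k170 14 (.q k105 [(.s k65 k125 5 (.s k195 k130 8 (.s k150 k60 14 (.d k215 k235 k20 5
  8))))] (.c k20 (.q k1 [(.s k169 k253 13 (.s k3 k2 0 (.s k86 k252 14 (.d k87 k84 k171 0 13)))), (.s
  k65 k125 5 (.s k169 k253 13 (.s k41 k233 7 (.s k61 k21 5 (.d k193 k129 k149 7 13))))), (.s k3 k2 0
  (.s k65 k125 5 (.s k129 k193 7 (.s k66 k192 8 (.s k67 k64 0 (.d k195 k131 k130 7 8))))))] .n) (.c
  k60 (.q k1 [(.s k3 k2 0 (.s k87 k171 13 (.s k86 k84 0 (.d k169 k253 k252 13 14)))), (.s k65 k125 5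
  (.s k169 k253 13 (.s k41 k233 7 (.s k61 k21 5 (.d k193 k129 k149 7 13))))), (.s k3 k2 0 (.s k65
  k125 5 (.s k129 k193 7 (.s k66 k192 8 (.s k67 k64 0 (.d k195 k131 k130 7 8))))))] .n) (.c k65 (.q
  k1 [(.s k169 k253 13 (.s k3 k2 0 (.s k86 k252 14 (.d k87 k84 k171 0 13)))), (.s k169 k253 13 (.s
  k41 k233 7 (.s k21 k61 5 (.s k63 k42 6 (.s k127 k191 7 (.s k106 k64 6 (.d k149 k213 k192 7
  14)))))))] (.c k169 (.q k48 [(.s k16 k32 3 (.s k154 k223 10 (.s k101 k207 14 (.d k117 k69 k186 3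
  10)))), (.s k3 k2 0 (.s k32 k16 3 (.s k33 k18 4 (.s k17 k49 3 (.d k34 k35 k51 0 4))))), (.s k117
  k186 10 (.s k101 k69 3 (.s k97 k109 1 (.s k195 k146 12 (.s k150 k60 14 (.d k215 k235 k20 5
  8))))))] (.c k168 (.q k171 [(.d k3 k2 k87 0 13), (.s k16 k32 3 (.s k117 k186 10 (.s k101 k69 3 (.d
  k154 k223 k207 10 14))))] .n) (.c k171 (.q k168 [(.s k16 k32 3 (.s k154 k223 10 (.s k101 k207 14
  (.d k117 k69 k186 3 10)))), (.s k3 k2 0 (.s k32 k16 3 (.s k33 k18 4 (.s k17 k49 3 (.d k34 k35 k51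
  0 4))))), (.s k117 k186 10 (.s k101 k69 3 (.s k97 k109 1 (.s k195 k146 12 (.s k150 k60 14 (.d k215
  k235 k20 5 8))))))] .n) .n))) (.c k253 (.l (.s k3 k2 0 (.s k87 k171 13 (.s k86 k84 0 (.s k67 k124
  6 (.s k195 k131 7 (.s k150 k60 14 (.d k215 k235 k20 5 8)))))))) .n))) (.c k125 (.q k253 [(.s k169
  k1 13 (.s k252 k254 0 (.s k84 k168 13 (.d k86 k87 k3 0 14)))), (.s k169 k1 13 (.s k233 k41 7 (.s
  k213 k193 5 (.s k192 k234 6 (.s k64 k128 7 (.s k106 k127 6 (.d k149 k21 k63 7 14)))))))] (.c k1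
  (.l (.s k252 k254 0 (.s k84 k168 13 (.s k86 k87 0 (.s k124 k67 6 (.s k60 k188 7 (.s k20 k40 5 (.d
  k150 k215 k195 8 14)))))))) (.c k169 (.f k252 k254 0 (.q k86 [(.d k84 k168 k87 13 0), (.s k124 k67
  6 (.s k60 k188 7 (.s k20 k40 5 (.d k150 k215 k195 8 14))))] (.c k168 (.q k171 [(.d k87 k84 k3 0
  13), (.s k124 k67 6 (.s k60 k188 7 (.s k20 k40 5 (.d k150 k215 k195 8 14))))] .n) (.c k171 (.l (.s
  k168 k84 13 (.s k124 k67 6 (.s k60 k188 7 (.s k20 k40 5 (.d k150 k215 k195 8 14)))))) .n)))) .n)))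
  (.c k130 (.l (.s k125 k65 5 (.s k60 k190 8 (.s k150 k195 14 (.d k20 k40 k215 5 8))))) (.c k150 (.f
  k125 k65 5 (.q k86 [(.s k84 k87 0 (.s k124 k67 6 (.s k64 k104 5 (.d k127 k126 k106 0 6)))), (.s
  k84 k87 0 (.s k252 k168 13 (.s k169 k3 14 (.d k253 k254 k1 0 13)))), (.s k124 k67 6 (.s k127 k126
  0 (.s k63 k191 7 (.s k21 k42 6 (.s k149 k213 7 (.d k106 k64 k192 6 14))))))] (.c k130 (.l (.s k190
  k60 8 (.s k84 k87 0 (.s k124 k67 6 (.s k64 k104 5 (.d k127 k126 k106 0 6)))))) (.c k190 (.q k130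
  [(.s k84 k87 0 (.s k124 k67 6 (.s k64 k104 5 (.d k127 k126 k106 0 6)))), (.s k84 k87 0 (.s k252
  k168 13 (.s k169 k3 14 (.d k253 k254 k1 0 13)))), (.s k124 k67 6 (.s k127 k126 0 (.s k63 k191 7
  (.s k21 k42 6 (.s k149 k213 7 (.d k106 k64 k192 6 14))))))] .n) .n)))) (.c k190 (.l (.s k65 k125 5
  (.s k195 k130 8 (.s k150 k60 14 (.d k215 k235 k20 5 8))))) (.c k195 (.q k1 [(.s k3 k2 0 (.s k87
  k171 13 (.s k86 k84 0 (.d k169 k253 k252 13 14)))), (.s k65 k125 5 (.s k169 k253 13 (.s k41 k233 7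
  (.s k61 k21 5 (.d k193 k129 k149 7 13))))), (.s k3 k2 0 (.s k125 k65 5 (.s k60 k190 8 (.s k40 k20
  5 (.s k41 k22 6 (.s k21 k61 5 (.d k42 k43 k63 0 6)))))))] .n) (.c k215 (.q k1 [(.s k169 k253 13
  (.s k3 k2 0 (.s k86 k252 14 (.d k87 k84 k171 0 13)))), (.s k65 k125 5 (.s k169 k253 13 (.s k41
  k233 7 (.s k61 k21 5 (.d k193 k129 k149 7 13))))), (.s k3 k2 0 (.s k65 k125 5 (.s k129 k193 7 (.s
  k66 k192 8 (.s k67 k64 0 (.d k195 k131 k130 7 8))))))] .n) (.c k235 (.l (.s k125 k65 5 (.s k60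
  k190 8 (.s k20 k40 5 (.d k150 k215 k195 8 14))))) .n))))))))))))

def t6_177 : T TT 256 :=
  (.f k255 k170 14 (.q k106 [(.s k64 k127 6 (.s k192 k128 7 (.s k149 k63 14 (.d k213 k234 k21 6
  7))))] (.c k21 (.q k1 [(.s k169 k253 13 (.s k3 k2 0 (.s k86 k252 14 (.d k87 k84 k171 0 13)))), (.s
  k64 k127 6 (.s k192 k128 7 (.s k213 k234 6 (.s k253 k169 13 (.s k193 k233 5 (.s k65 k129 7 (.d
  k195 k130 k194 8 0))))))), (.s k3 k2 0 (.s k64 k127 6 (.s k192 k128 7 (.s k66 k129 8 (.s k86 k126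
  5 (.d k87 k84 k171 0 13))))))] (.c k171 (.l (.s k3 k2 0 (.s k127 k64 6 (.s k63 k191 7 (.s k43 k23
  5 (.d k169 k232 k253 8 13)))))) .n)) (.c k63 (.q k1 [(.s k3 k2 0 (.s k87 k171 13 (.s k86 k84 0 (.d
  k169 k253 k252 13 14)))), (.s k64 k127 6 (.s k192 k128 7 (.s k213 k234 6 (.s k253 k169 13 (.s k193
  k233 5 (.s k65 k129 7 (.d k195 k130 k194 8 0))))))), (.s k3 k2 0 (.s k64 k127 6 (.s k192 k128 7
  (.s k66 k129 8 (.s k86 k126 5 (.d k87 k84 k171 0 13))))))] (.c k171 (.l (.s k3 k2 0 (.s k64 k127 6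
  (.s k169 k253 13 (.s k86 k252 14 (.s k192 k128 7 (.d k66 k126 k129 5 8))))))) .n)) (.c k64 (.q k60
  [(.s k20 k40 5 (.s k125 k190 8 (.s k150 k215 8 (.d k105 k65 k195 5 14)))), (.s k20 k40 5 (.s k150
  k215 8 (.s k62 k194 13 (.s k63 k61 0 (.s k21 k42 6 (.d k149 k213 k192 7 14)))))), (.s k125 k190 8
  (.s k105 k65 5 (.s k104 k107 0 (.s k192 k148 13 (.s k149 k63 14 (.d k213 k234 k21 6 7))))))] (.c
  k105 (.q k87 [(.s k3 k171 13 (.s k86 k84 0 (.s k169 k252 14 (.d k1 k2 k253 0 13)))), (.s k86 k84 0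
  (.s k126 k66 5 (.s k190 k125 8 (.s k62 k254 7 (.s k150 k194 13 (.d k20 k40 k215 5 8)))))), (.s k3
  k171 13 (.s k2 k1 0 (.s k22 k41 6 (.s k42 k62 5 (.s k21 k63 6 (.d k20 k40 k23 5 0))))))] (.c k2
  (.l (.s k3 k171 13 (.s k22 k41 6 (.s k86 k84 0 (.s k150 k214 7 (.d k20 k40 k215 5 8)))))) (.c k40
  (.q k235 [(.s k3 k171 13 (.s k86 k84 0 (.s k169 k252 14 (.d k1 k2 k253 0 13)))), (.s k3 k171 13
  (.s k22 k41 6 (.s k215 k195 5 (.s k20 k150 8 (.d k23 k21 k151 0 7))))), (.s k86 k84 0 (.s k126 k66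
  5 (.s k190 k125 8 (.s k62 k254 7 (.s k150 k194 13 (.d k215 k195 k20 5 8))))))] .n) (.c k235 (.l
  (.s k40 k20 5 (.s k3 k171 13 (.s k1 k2 0 (.s k86 k84 0 (.d k169 k253 k252 13 14)))))) .n)))) (.c
  k150 (.q k149 [(.s k21 k213 7 (.d k63 k42 k192 6 14)), (.s k63 k192 14 (.s k61 k62 0 (.s k105 k193
  13 (.d k125 k190 k65 8 5))))] (.c k63 (.l (.s k213 k21 7 (.s k192 k234 6 (.s k104 k148 13 (.s k105
  k107 0 (.d k125 k65 k190 5 8)))))) (.c k130 (.l (.s k190 k125 8 (.s k21 k213 7 (.d k63 k42 k192 6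
  14)))) (.c k190 (.q k130 [(.s k21 k213 7 (.d k63 k42 k192 6 14)), (.s k63 k192 14 (.s k61 k62 0
  (.s k65 k195 8 (.d k105 k193 k125 13 5))))] (.c k63 (.l (.s k65 k195 8 (.s k105 k125 5 (.s k213
  k21 7 (.s k192 k234 6 (.d k104 k107 k148 0 13)))))) (.c k192 (.l (.s k21 k213 7 (.s k63 k42 6 (.s
  k61 k62 0 (.s k65 k195 8 (.d k105 k193 k125 13 5)))))) .n))) (.c k192 (.l (.s k21 k213 7 (.s k63
  k42 6 (.s k61 k62 0 (.s k105 k193 13 (.d k125 k65 k190 5 8)))))) .n))))) .n))) (.c k127 (.q k195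
  [(.s k65 k130 8 (.s k215 k235 5 (.s k150 k20 8 (.d k105 k125 k60 5 14)))), (.s k65 k130 8 (.s k105
  k125 5 (.s k107 k104 0 (.s k63 k151 13 (.s k21 k42 6 (.d k149 k213 k192 7 14)))))), (.s k215 k235
  5 (.s k150 k20 8 (.s k194 k62 13 (.s k192 k193 0 (.s k149 k63 14 (.d k213 k234 k21 6 7))))))] (.c
  k105 (.q k149 [(.s k21 k213 7 (.d k63 k42 k192 6 14)), (.s k63 k192 14 (.s k151 k107 13 (.s k150
  k148 0 (.d k215 k235 k20 5 8))))] (.c k40 (.l (.s k235 k215 5 (.s k21 k213 7 (.d k63 k42 k192 6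
  14)))) (.c k63 (.l (.s k213 k21 7 (.s k192 k234 6 (.s k194 k193 0 (.s k150 k62 13 (.d k215 k235
  k20 5 8)))))) (.c k192 (.l (.s k21 k213 7 (.s k63 k42 6 (.s k151 k107 13 (.s k150 k148 0 (.d k215
  k235 k20 5 8)))))) (.c k235 (.q k40 [(.s k21 k213 7 (.d k63 k42 k192 6 14)), (.s k20 k60 5 (.s k63
  k192 14 (.s k150 k215 8 (.d k151 k148 k107 0 13))))] (.c k63 (.l (.s k20 k60 5 (.s k150 k215 8 (.s
  k213 k21 7 (.s k192 k234 6 (.d k194 k62 k193 13 0)))))) (.c k192 (.l (.s k20 k60 5 (.s k21 k213 7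
  (.s k63 k42 6 (.s k150 k215 8 (.d k151 k148 k107 0 13)))))) .n))) .n))))) (.c k150 (.q k149 [(.s
  k21 k213 7 (.d k63 k42 k192 6 14)), (.s k63 k192 14 (.s k107 k151 13 (.s k105 k104 0 (.d k65 k130
  k125 8 5))))] (.c k63 (.l (.s k213 k21 7 (.s k192 k234 6 (.s k193 k194 0 (.s k105 k61 13 (.d k65
  k125 k130 5 8)))))) (.c k130 (.q k190 [(.s k21 k213 7 (.d k63 k42 k192 6 14)), (.s k63 k192 14 (.s
  k107 k151 13 (.s k105 k104 0 (.d k125 k60 k65 8 5))))] (.c k63 (.l (.s k125 k60 8 (.s k105 k65 5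
  (.s k213 k21 7 (.s k192 k234 6 (.d k193 k61 k194 13 0)))))) (.c k192 (.l (.s k21 k213 7 (.s k63
  k42 6 (.s k107 k151 13 (.s k105 k104 0 (.d k125 k60 k65 8 5)))))) .n))) (.c k190 (.l (.s k130 k65
  8 (.s k21 k213 7 (.d k63 k42 k192 6 14)))) (.c k192 (.l (.s k21 k213 7 (.s k63 k42 6 (.s k107 k151
  13 (.s k105 k104 0 (.d k65 k125 k130 5 8)))))) .n))))) .n))) (.c k128 (.l (.s k127 k64 6 (.s k63
  k191 7 (.s k149 k192 14 (.d k21 k42 k213 6 7))))) (.c k149 (.f k127 k64 6 (.q k90 [(.s k80 k95 2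
  (.s k240 k160 11 (.s k165 k15 14 (.d k245 k250 k5 2 11)))), (.s k122 k74 3 (.s k117 k112 2 (.s k48
  k186 10 (.s k16 k32 3 (.s k154 k223 10 (.d k101 k69 k207 3 14))))))] (.c k80 (.l (.s k122 k74 3
  (.s k112 k117 2 (.s k79 k101 6 (.s k95 k111 3 (.s k15 k175 11 (.s k5 k10 2 (.d k165 k245 k240 11
  14)))))))) (.c k128 (.l (.s k191 k63 7 (.s k80 k95 2 (.s k240 k160 11 (.s k165 k15 14 (.d k245
  k250 k5 2 11)))))) (.c k191 (.q k128 [(.s k80 k95 2 (.s k240 k160 11 (.s k165 k15 14 (.d k245 k250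
  k5 2 11)))), (.s k122 k74 3 (.s k117 k112 2 (.s k48 k186 10 (.s k16 k32 3 (.s k154 k223 10 (.d
  k101 k69 k207 3 14))))))] (.c k80 (.l (.s k122 k74 3 (.s k112 k117 2 (.s k79 k101 6 (.s k95 k111 3
  (.s k15 k175 11 (.s k5 k10 2 (.d k165 k245 k240 11 14)))))))) .n)) .n))))) (.c k191 (.l (.s k64
  k127 6 (.s k192 k128 7 (.s k149 k63 14 (.d k213 k234 k21 6 7))))) (.c k192 (.q k1 [(.s k3 k2 0 (.s
  k87 k171 13 (.s k86 k84 0 (.d k169 k253 k252 13 14)))), (.s k127 k64 6 (.s k63 k191 7 (.s k21 k42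
  6 (.s k61 k41 5 (.s k253 k169 13 (.s k125 k189 7 (.d k60 k190 k62 8 0))))))), (.s k3 k2 0 (.s k127
  k64 6 (.s k63 k191 7 (.s k21 k42 6 (.s k23 k43 5 (.s k22 k20 0 (.d k41 k61 k60 5 6)))))))] .n) (.c
  k213 (.q k1 [(.s k3 k2 0 (.s k87 k171 13 (.s k86 k84 0 (.d k169 k253 k252 13 14)))), (.s k64 k127
  6 (.s k169 k253 13 (.s k192 k128 7 (.s k149 k63 14 (.s k129 k189 5 (.s k66 k3 8 (.d k65 k193 k67 7
  0))))))), (.s k3 k2 0 (.s k64 k127 6 (.s k192 k128 7 (.s k66 k129 8 (.s k86 k126 5 (.d k87 k84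
  k171 0 13))))))] (.c k3 (.l (.s k127 k64 6 (.s k63 k191 7 (.s k21 k42 6 (.s k61 k41 5 (.s k60 k62
  0 (.s k125 k190 8 (.d k253 k189 k169 7 13)))))))) .n)) (.c k234 (.l (.s k127 k64 6 (.s k63 k191 7
  (.s k21 k42 6 (.d k149 k213 k192 7 14))))) .n))))))))))))

def t6_178 : T TT 256 :=
  (.f k255 k170 14 (.q k105 [(.s k65 k125 5 (.s k195 k130 8 (.s k150 k60 14 (.d k215 k235 k20 5
  8)))), (.s k125 k65 5 (.s k60 k190 8 (.s k150 k195 14 (.d k20 k40 k215 5 8))))] (.c k20 (.q k1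
  [(.s k169 k253 13 (.s k3 k2 0 (.s k86 k252 14 (.d k87 k84 k171 0 13)))), (.s k65 k125 5 (.s k169
  k253 13 (.s k41 k233 7 (.s k61 k21 5 (.d k193 k129 k149 7 13))))), (.s k3 k2 0 (.s k65 k125 5 (.s
  k129 k193 7 (.s k66 k192 8 (.s k67 k64 0 (.d k195 k131 k130 7 8))))))] .n) (.c k60 (.q k1 [(.s k3
  k2 0 (.s k87 k171 13 (.s k86 k84 0 (.d k169 k253 k252 13 14)))), (.s k65 k125 5 (.s k169 k253 13
  (.s k41 k233 7 (.s k61 k21 5 (.d k193 k129 k149 7 13))))), (.s k3 k2 0 (.s k65 k125 5 (.s k129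
  k193 7 (.s k66 k192 8 (.s k67 k64 0 (.d k195 k131 k130 7 8))))))] .n) (.c k65 (.q k21 [(.s k149
  k213 7 (.s k63 k42 6 (.s k106 k192 14 (.d k127 k64 k191 6 7)))), (.s k149 k213 7 (.s k61 k193 13
  (.s k1 k41 5 (.s k3 k2 0 (.s k87 k171 13 (.s k86 k84 0 (.d k169 k253 k252 13 14)))))))] (.c k149
  (.f k63 k42 6 (.q k106 [(.d k127 k191 k64 7 6), (.s k107 k104 0 (.s k195 k151 13 (.s k150 k60 14
  (.d k215 k235 k20 5 8))))] (.c k128 (.l (.s k191 k127 7 (.s k107 k104 0 (.s k195 k151 13 (.s k150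
  k60 14 (.d k215 k235 k20 5 8)))))) (.c k191 (.q k128 [(.d k64 k127 k192 6 7), (.s k107 k104 0 (.s
  k195 k151 13 (.s k215 k235 5 (.d k150 k20 k60 8 14))))] .n) .n)))) (.c k213 (.l (.s k63 k42 6 (.s
  k127 k191 7 (.s k106 k64 6 (.s k107 k104 0 (.s k195 k151 13 (.s k150 k60 14 (.d k215 k235 k20 5
  8)))))))) .n))) (.c k125 (.q k253 [(.s k169 k1 13 (.s k252 k254 0 (.s k84 k168 13 (.d k86 k87 k3 0
  14)))), (.s k169 k1 13 (.s k233 k41 7 (.s k213 k193 5 (.s k192 k234 6 (.s k64 k128 7 (.s k106 k127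
  6 (.d k149 k21 k63 7 14)))))))] (.c k1 (.l (.s k252 k254 0 (.s k84 k168 13 (.s k86 k87 0 (.s k124
  k67 6 (.s k60 k188 7 (.s k20 k40 5 (.d k150 k215 k195 8 14)))))))) (.c k169 (.f k252 k254 0 (.q
  k86 [(.d k84 k168 k87 13 0), (.s k124 k67 6 (.s k60 k188 7 (.s k20 k40 5 (.d k150 k215 k195 8
  14))))] (.c k168 (.q k171 [(.d k87 k84 k3 0 13), (.s k124 k67 6 (.s k60 k188 7 (.s k20 k40 5 (.d
  k150 k215 k195 8 14))))] .n) (.c k171 (.l (.s k168 k84 13 (.s k124 k67 6 (.s k60 k188 7 (.s k20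
  k40 5 (.d k150 k215 k195 8 14)))))) .n)))) .n))) (.c k130 (.l (.s k125 k65 5 (.s k60 k190 8 (.s
  k150 k195 14 (.d k20 k40 k215 5 8))))) (.c k150 (.f k125 k65 5 (.f k190 k60 8 (.q k21 [(.s k63 k42
  6 (.s k127 k191 7 (.s k149 k213 7 (.d k106 k64 k192 6 14)))), (.s k149 k213 7 (.s k61 k193 13 (.s
  k1 k41 5 (.d k253 k189 k169 7 13)))), (.s k63 k42 6 (.s k191 k127 7 (.s k189 k188 0 (.s k252 k126
  8 (.d k253 k254 k61 0 7)))))] .n))) (.c k190 (.l (.s k65 k125 5 (.s k195 k130 8 (.s k150 k60 14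
  (.d k215 k235 k20 5 8))))) (.c k195 (.q k1 [(.s k3 k2 0 (.s k87 k171 13 (.s k86 k84 0 (.d k169
  k253 k252 13 14)))), (.s k65 k125 5 (.s k169 k253 13 (.s k41 k233 7 (.s k61 k21 5 (.d k193 k129
  k149 7 13))))), (.s k3 k2 0 (.s k125 k65 5 (.s k60 k190 8 (.s k40 k20 5 (.s k41 k22 6 (.s k21 k61
  5 (.d k42 k43 k63 0 6)))))))] .n) (.c k215 (.q k1 [(.s k169 k253 13 (.s k3 k2 0 (.s k86 k252 14
  (.d k87 k84 k171 0 13)))), (.s k65 k125 5 (.s k169 k253 13 (.s k41 k233 7 (.s k61 k21 5 (.d k193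
  k129 k149 7 13))))), (.s k3 k2 0 (.s k65 k125 5 (.s k129 k193 7 (.s k66 k192 8 (.s k67 k64 0 (.d
  k195 k131 k130 7 8))))))] .n) .n)))))))))))

def t6_179 : T TT 256 :=
  (.f k255 k170 14 (.q k105 [(.s k65 k125 5 (.s k195 k130 8 (.s k150 k60 14 (.d k215 k235 k20 5
  8))))] (.c k20 (.q k1 [(.s k169 k253 13 (.s k3 k2 0 (.s k86 k252 14 (.d k87 k84 k171 0 13)))), (.s
  k65 k125 5 (.s k169 k253 13 (.s k41 k233 7 (.s k61 k21 5 (.d k193 k129 k149 7 13))))), (.s k3 k2 0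
  (.s k65 k125 5 (.s k129 k193 7 (.s k66 k192 8 (.s k67 k64 0 (.d k195 k131 k130 7 8))))))] .n) (.c
  k60 (.q k1 [(.s k3 k2 0 (.s k87 k171 13 (.s k86 k84 0 (.d k169 k253 k252 13 14)))), (.s k65 k125 5
  (.s k169 k253 13 (.s k41 k233 7 (.s k61 k21 5 (.d k193 k129 k149 7 13))))), (.s k3 k2 0 (.s k65
  k125 5 (.s k129 k193 7 (.s k66 k192 8 (.s k67 k64 0 (.d k195 k131 k130 7 8))))))] .n) (.c k65 (.q
  k1 [(.s k169 k253 13 (.s k3 k2 0 (.s k86 k252 14 (.d k87 k84 k171 0 13)))), (.s k169 k253 13 (.s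
  k41 k233 7 (.s k21 k61 5 (.s k63 k42 6 (.s k127 k191 7 (.s k106 k64 6 (.d k149 k213 k192 7
  14)))))))] (.c k169 (.q k48 [(.s k16 k32 3 (.s k117 k186 10 (.s k154 k223 10 (.d k101 k69 k207 3
  14)))), (.s k3 k2 0 (.s k32 k16 3 (.s k33 k18 4 (.s k17 k49 3 (.d k34 k35 k51 0 4))))), (.s k117
  k186 10 (.s k101 k69 3 (.s k97 k109 1 (.s k195 k146 12 (.s k150 k60 14 (.d k215 k235 k20 5
  8))))))] (.c k168 (.q k171 [(.d k3 k2 k87 0 13), (.s k16 k32 3 (.s k117 k186 10 (.s k101 k69 3 (.d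
  k154 k223 k207 10 14))))] .n) (.c k171 (.q k168 [(.s k16 k32 3 (.s k117 k186 10 (.s k154 k223 10
  (.d k101 k69 k207 3 14)))), (.s k3 k2 0 (.s k32 k16 3 (.s k33 k18 4 (.s k17 k49 3 (.d k34 k35 k51
  0 4))))), (.s k117 k186 10 (.s k101 k69 3 (.s k97 k109 1 (.s k195 k146 12 (.s k150 k60 14 (.d k215
  k235 k20 5 8))))))] .n) .n))) (.c k253 (.l (.s k3 k2 0 (.s k87 k171 13 (.s k86 k84 0 (.s k67 k124
  6 (.s k195 k131 7 (.s k150 k60 14 (.d k215 k235 k20 5 8)))))))) .n))) (.c k125 (.q k253 [(.s k169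
  k1 13 (.s k252 k254 0 (.s k84 k168 13 (.d k86 k87 k3 0 14)))), (.s k169 k1 13 (.s k233 k41 7 (.s
  k213 k193 5 (.s k192 k234 6 (.s k64 k128 7 (.s k106 k127 6 (.d k149 k21 k63 7 14)))))))] (.c k1
  (.l (.s k252 k254 0 (.s k84 k168 13 (.s k86 k87 0 (.s k124 k67 6 (.s k60 k188 7 (.s k20 k40 5 (.d
  k150 k215 k195 8 14)))))))) (.c k169 (.f k252 k254 0 (.q k86 [(.d k84 k168 k87 13 0), (.s k124 k67
  6 (.s k60 k188 7 (.s k20 k40 5 (.d k150 k215 k195 8 14))))] (.c k168 (.q k171 [(.d k87 k84 k3 0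
  13), (.s k124 k67 6 (.s k60 k188 7 (.s k20 k40 5 (.d k150 k215 k195 8 14))))] .n) (.c k171 (.l (.s
  k168 k84 13 (.s k124 k67 6 (.s k60 k188 7 (.s k20 k40 5 (.d k150 k215 k195 8 14)))))) .n)))) .n)))
  (.c k130 (.l (.s k125 k65 5 (.s k60 k190 8 (.s k150 k195 14 (.d k20 k40 k215 5 8))))) (.c k150 (.f
  k125 k65 5 (.q k86 [(.s k84 k87 0 (.s k124 k67 6 (.s k64 k104 5 (.d k127 k126 k106 0 6)))), (.s
  k84 k87 0 (.s k252 k168 13 (.s k169 k3 14 (.d k253 k254 k1 0 13)))), (.s k124 k67 6 (.s k127 k126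
  0 (.s k63 k191 7 (.s k21 k42 6 (.s k149 k213 7 (.d k106 k64 k192 6 14))))))] (.c k130 (.l (.s k190
  k60 8 (.s k84 k87 0 (.s k124 k67 6 (.s k64 k104 5 (.d k127 k126 k106 0 6)))))) (.c k190 (.q k130
  [(.s k84 k87 0 (.s k124 k67 6 (.s k64 k104 5 (.d k127 k126 k106 0 6)))), (.s k84 k87 0 (.s k252
  k168 13 (.s k169 k3 14 (.d k253 k254 k1 0 13)))), (.s k124 k67 6 (.s k127 k126 0 (.s k63 k191 7
  (.s k21 k42 6 (.s k149 k213 7 (.d k106 k64 k192 6 14))))))] .n) .n)))) (.c k190 (.l (.s k65 k125 5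
  (.s k195 k130 8 (.s k150 k60 14 (.d k215 k235 k20 5 8))))) (.c k195 (.q k1 [(.s k3 k2 0 (.s k87
  k171 13 (.s k86 k84 0 (.d k169 k253 k252 13 14)))), (.s k65 k125 5 (.s k169 k253 13 (.s k41 k233 7
  (.s k61 k21 5 (.d k193 k129 k149 7 13))))), (.s k3 k2 0 (.s k125 k65 5 (.s k60 k190 8 (.s k40 k20
  5 (.s k41 k22 6 (.s k21 k61 5 (.d k42 k43 k63 0 6)))))))] .n) (.c k215 (.q k1 [(.s k169 k253 13
  (.s k3 k2 0 (.s k86 k252 14 (.d k87 k84 k171 0 13)))), (.s k65 k125 5 (.s k169 k253 13 (.s k41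
  k233 7 (.s k61 k21 5 (.d k193 k129 k149 7 13))))), (.s k3 k2 0 (.s k65 k125 5 (.s k129 k193 7 (.s
  k66 k192 8 (.s k67 k64 0 (.d k195 k131 k130 7 8))))))] .n) (.c k235 (.l (.s k125 k65 5 (.s k60
  k190 8 (.s k20 k40 5 (.d k150 k215 k195 8 14))))) .n))))))))))))

def t6_180 : T TT 256 :=
  (.f k255 k170 14 (.q k106 [(.s k64 k127 6 (.s k192 k128 7 (.s k149 k63 14 (.d k213 k234 k21 6
  7))))] (.c k21 (.q k1 [(.s k169 k253 13 (.s k3 k2 0 (.s k86 k252 14 (.d k87 k84 k171 0 13)))), (.s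
  k64 k127 6 (.s k192 k128 7 (.s k213 k234 6 (.s k253 k169 13 (.s k193 k233 5 (.s k65 k129 7 (.d
  k195 k130 k194 8 0))))))), (.s k3 k2 0 (.s k64 k127 6 (.s k192 k128 7 (.s k66 k129 8 (.s k86 k126
  5 (.d k87 k84 k171 0 13))))))] (.c k171 (.l (.s k3 k2 0 (.s k127 k64 6 (.s k63 k191 7 (.s k43 k23
  5 (.d k169 k232 k253 8 13)))))) .n)) (.c k63 (.q k1 [(.s k3 k2 0 (.s k87 k171 13 (.s k86 k84 0 (.d
  k169 k253 k252 13 14)))), (.s k64 k127 6 (.s k192 k128 7 (.s k213 k234 6 (.s k253 k169 13 (.s k193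
  k233 5 (.s k65 k129 7 (.d k195 k130 k194 8 0))))))), (.s k3 k2 0 (.s k64 k127 6 (.s k192 k128 7
  (.s k66 k129 8 (.s k86 k126 5 (.d k87 k84 k171 0 13))))))] (.c k171 (.l (.s k3 k2 0 (.s k64 k127 6
  (.s k169 k253 13 (.s k86 k252 14 (.s k192 k128 7 (.d k66 k126 k129 5 8))))))) .n)) (.c k64 (.q
  k204 [(.s k68 k136 9 (.s k102 k119 4 (.s k153 k51 14 (.d k221 k238 k17 4 9)))), (.s k68 k136 9 (.s
  k102 k119 4 (.s k110 k98 1 (.s k63 k157 12 (.s k21 k42 6 (.d k149 k213 k192 7 14)))))), (.s k221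
  k238 4 (.s k153 k17 9 (.s k200 k59 12 (.s k192 k196 1 (.s k149 k63 14 (.d k213 k234 k21 6 7))))))]
  (.c k102 (.q k72 [(.s k136 k68 9 (.s k200 k8 7 (.s k153 k59 12 (.d k221 k238 k17 4 9)))), (.s k89
  k123 4 (.s k81 k93 1 (.s k243 k162 12 (.s k166 k12 14 (.d k247 k251 k4 1 12))))), (.s k136 k68 9
  (.s k8 k200 7 (.s k12 k4 1 (.s k132 k192 9 (.d k140 k128 k76 1 7)))))] (.c k34 (.l (.s k238 k221 4
  (.s k89 k123 4 (.s k81 k93 1 (.s k243 k162 12 (.s k166 k12 14 (.d k247 k251 k4 1 12))))))) (.c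
  k238 (.q k34 [(.s k17 k51 4 (.s k136 k68 9 (.s k153 k221 9 (.d k200 k8 k59 7 12)))), (.s k89 k123
  4 (.s k81 k93 1 (.s k243 k162 12 (.s k166 k12 14 (.d k247 k251 k4 1 12)))))] .n) .n))) (.c k153
  (.q k93 [(.s k12 k174 12 (.s k4 k8 1 (.s k166 k247 12 (.d k89 k81 k243 1 14)))), (.s k221 k238 4
  (.s k157 k29 7 (.s k63 k110 12 (.s k21 k42 6 (.d k149 k213 k192 7 14)))))] (.c k136 (.q k187 [(.s
  k12 k174 12 (.s k89 k81 1 (.s k166 k243 14 (.d k4 k8 k247 1 12)))), (.s k89 k81 1 (.s k119 k51 9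
  (.s k123 k72 4 (.s k115 k127 1 (.d k102 k68 k76 4 6))))), (.s k12 k174 12 (.s k76 k140 7 (.s k110
  k127 4 (.s k119 k51 9 (.d k102 k98 k68 1 4)))))] (.c k98 (.l (.s k12 k174 12 (.s k4 k8 1 (.s k166
  k247 12 (.d k89 k81 k243 1 14))))) .n)) (.c k174 (.l (.s k221 k238 4 (.s k157 k29 7 (.s k110 k63
  12 (.s k102 k98 1 (.d k68 k119 k136 4 9)))))) (.c k187 (.l (.s k136 k68 9 (.s k12 k174 12 (.s k4
  k8 1 (.s k89 k81 1 (.d k166 k247 k243 12 14)))))) .n)))) .n))) (.c k127 (.q k51 [(.s k17 k34 4 (.s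
  k119 k187 9 (.s k102 k68 4 (.d k153 k221 k204 9 14)))), (.s k17 k34 4 (.s k153 k221 9 (.s k59 k200
  12 (.s k63 k55 1 (.s k21 k42 6 (.d k149 k213 k192 7 14)))))), (.s k119 k187 9 (.s k102 k68 4 (.s
  k98 k110 1 (.s k192 k145 12 (.s k149 k63 14 (.d k213 k234 k21 6 7))))))] (.c k102 (.q k207 [(.s
  k69 k138 10 (.s k223 k239 3 (.s k154 k16 10 (.d k101 k117 k48 3 14)))), (.s k103 k155 13 (.s k119
  k187 9 (.s k87 k71 3 (.s k171 k3 13 (.d k239 k223 k35 3 9))))), (.s k69 k138 10 (.s k101 k117 3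
  (.s k111 k96 2 (.s k63 k159 11 (.s k21 k42 6 (.d k149 k213 k192 7 14))))))] (.c k34 (.q k238 [(.s
  k69 k138 10 (.s k223 k239 3 (.s k154 k16 10 (.d k101 k117 k48 3 14)))), (.s k103 k155 13 (.s k119
  k187 9 (.s k87 k71 3 (.s k171 k3 13 (.d k239 k223 k35 3 9))))), (.s k69 k138 10 (.s k101 k117 3
  (.s k111 k96 2 (.s k63 k159 11 (.s k21 k42 6 (.d k149 k213 k192 7 14))))))] .n) (.c k238 (.l (.s
  k34 k17 4 (.s k69 k138 10 (.s k101 k117 3 (.s k154 k48 14 (.d k223 k239 k16 3 10)))))) .n))) (.c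
  k153 (.q k63 [(.s k21 k42 6 (.d k149 k213 k192 7 14)), (.s k55 k59 1 (.s k149 k192 14 (.s k102
  k196 12 (.d k119 k187 k68 9 4)))), (.s k17 k34 4 (.s k21 k42 6 (.s k25 k29 1 (.s k38 k12 6 (.d k55
  k59 k4 1 4)))))] (.c k136 (.l (.s k187 k119 9 (.s k21 k42 6 (.d k149 k213 k192 7 14)))) (.c k187
  (.q k136 [(.s k21 k42 6 (.d k149 k213 k192 7 14)), (.s k55 k59 1 (.s k68 k204 9 (.s k102 k119 4
  (.d k149 k196 k192 12 14)))), (.s k17 k34 4 (.s k21 k42 6 (.s k25 k29 1 (.s k38 k12 6 (.d k55 k59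
  k4 1 4)))))] .n) .n))) .n))) (.c k128 (.l (.s k127 k64 6 (.s k63 k191 7 (.s k149 k192 14 (.d k21
  k42 k213 6 7))))) (.c k149 (.f k127 k64 6 (.q k90 [(.s k80 k95 2 (.s k240 k160 11 (.s k165 k15 14
  (.d k245 k250 k5 2 11)))), (.s k122 k74 3 (.s k117 k112 2 (.s k48 k186 10 (.s k16 k32 3 (.s k154
  k223 10 (.d k101 k69 k207 3 14))))))] (.c k80 (.l (.s k122 k74 3 (.s k112 k117 2 (.s k79 k101 6
  (.s k95 k111 3 (.s k15 k175 11 (.s k5 k10 2 (.d k165 k245 k240 11 14)))))))) (.c k128 (.l (.s k191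
  k63 7 (.s k80 k95 2 (.s k240 k160 11 (.s k165 k15 14 (.d k245 k250 k5 2 11)))))) (.c k191 (.q k128
  [(.s k80 k95 2 (.s k240 k160 11 (.s k165 k15 14 (.d k245 k250 k5 2 11)))), (.s k122 k74 3 (.s k117
  k112 2 (.s k48 k186 10 (.s k16 k32 3 (.s k154 k223 10 (.d k101 k69 k207 3 14))))))] (.c k80 (.l
  (.s k122 k74 3 (.s k112 k117 2 (.s k79 k101 6 (.s k95 k111 3 (.s k15 k175 11 (.s k5 k10 2 (.d k165
  k245 k240 11 14)))))))) .n)) .n))))) (.c k191 (.l (.s k64 k127 6 (.s k192 k128 7 (.s k149 k63 14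
  (.d k213 k234 k21 6 7))))) (.c k192 (.q k1 [(.s k3 k2 0 (.s k87 k171 13 (.s k86 k84 0 (.d k169
  k253 k252 13 14)))), (.s k127 k64 6 (.s k63 k191 7 (.s k21 k42 6 (.s k61 k41 5 (.s k253 k169 13
  (.s k125 k189 7 (.d k60 k190 k62 8 0))))))), (.s k3 k2 0 (.s k127 k64 6 (.s k63 k191 7 (.s k21 k42
  6 (.s k23 k43 5 (.s k22 k20 0 (.d k41 k61 k60 5 6)))))))] .n) (.c k213 (.q k1 [(.s k3 k2 0 (.s k87
  k171 13 (.s k86 k84 0 (.d k169 k253 k252 13 14)))), (.s k64 k127 6 (.s k169 k253 13 (.s k192 k128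
  7 (.s k149 k63 14 (.s k129 k189 5 (.s k66 k3 8 (.d k65 k193 k67 7 0))))))), (.s k3 k2 0 (.s k64
  k127 6 (.s k192 k128 7 (.s k66 k129 8 (.s k86 k126 5 (.d k87 k84 k171 0 13))))))] (.c k3 (.l (.s
  k127 k64 6 (.s k63 k191 7 (.s k21 k42 6 (.s k61 k41 5 (.s k60 k62 0 (.s k125 k190 8 (.d k253 k189
  k169 7 13)))))))) .n)) (.c k234 (.l (.s k127 k64 6 (.s k63 k191 7 (.s k21 k42 6 (.d k149 k213 k192
  7 14))))) .n))))))))))))

def t6_181 : T TT 256 :=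
  (.f k255 k170 14 (.q k105 [(.s k65 k125 5 (.s k195 k130 8 (.s k150 k60 14 (.d k215 k235 k20 5
  8))))] (.c k20 (.q k1 [(.s k169 k253 13 (.s k3 k2 0 (.s k86 k252 14 (.d k87 k84 k171 0 13)))), (.s
  k65 k125 5 (.s k169 k253 13 (.s k41 k233 7 (.s k61 k21 5 (.d k193 k129 k149 7 13))))), (.s k3 k2 0
  (.s k65 k125 5 (.s k129 k193 7 (.s k66 k192 8 (.s k67 k64 0 (.d k195 k131 k130 7 8))))))] .n) (.c
  k60 (.q k1 [(.s k3 k2 0 (.s k87 k171 13 (.s k86 k84 0 (.d k169 k253 k252 13 14)))), (.s k65 k125 5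
  (.s k169 k253 13 (.s k41 k233 7 (.s k61 k21 5 (.d k193 k129 k149 7 13))))), (.s k3 k2 0 (.s k65
  k125 5 (.s k129 k193 7 (.s k66 k192 8 (.s k67 k64 0 (.d k195 k131 k130 7 8))))))] .n) (.c k65 (.q
  k64 [(.s k106 k127 6 (.s k192 k128 7 (.s k213 k234 6 (.d k149 k21 k63 7 14)))), (.s k106 k127 6
  (.s k104 k107 0 (.s k84 k124 5 (.s k252 k168 13 (.s k253 k254 0 (.s k169 k1 13 (.d k86 k87 k3 0
  14)))))))] (.c k106 (.f k192 k128 7 (.q k149 [(.d k213 k234 k21 6 7), (.s k193 k61 13 (.s k195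
  k194 0 (.s k150 k60 14 (.d k215 k235 k20 5 8))))] (.c k42 (.l (.s k234 k213 6 (.s k193 k61 13 (.s
  k195 k194 0 (.s k150 k60 14 (.d k215 k235 k20 5 8)))))) (.c k234 (.q k42 [(.d k21 k63 k213 6 7),
  (.s k193 k61 13 (.s k195 k194 0 (.s k215 k235 5 (.d k150 k20 k60 8 14))))] .n) .n)))) (.c k127 (.l
  (.s k192 k128 7 (.s k213 k234 6 (.s k149 k21 7 (.s k193 k61 13 (.s k195 k194 0 (.s k150 k60 14 (.d
  k215 k235 k20 5 8)))))))) .n))) (.c k125 (.q k253 [(.s k169 k1 13 (.s k252 k254 0 (.s k84 k168 13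
  (.d k86 k87 k3 0 14)))), (.s k169 k1 13 (.s k233 k41 7 (.s k213 k193 5 (.s k192 k234 6 (.s k64
  k128 7 (.s k106 k127 6 (.d k149 k21 k63 7 14)))))))] (.c k1 (.l (.s k252 k254 0 (.s k84 k168 13
  (.s k86 k87 0 (.s k124 k67 6 (.s k60 k188 7 (.s k20 k40 5 (.d k150 k215 k195 8 14)))))))) (.c k169
  (.f k252 k254 0 (.q k86 [(.d k84 k168 k87 13 0), (.s k124 k67 6 (.s k60 k188 7 (.s k20 k40 5 (.d
  k150 k215 k195 8 14))))] (.c k168 (.q k171 [(.d k87 k84 k3 0 13), (.s k124 k67 6 (.s k60 k188 7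
  (.s k20 k40 5 (.d k150 k215 k195 8 14))))] .n) (.c k171 (.l (.s k168 k84 13 (.s k124 k67 6 (.s k60
  k188 7 (.s k20 k40 5 (.d k150 k215 k195 8 14)))))) .n)))) .n))) (.c k130 (.l (.s k125 k65 5 (.s
  k60 k190 8 (.s k150 k195 14 (.d k20 k40 k215 5 8))))) (.c k150 (.f k125 k65 5 (.q k121 [(.s k89
  k73 3 (.s k93 k81 1 (.s k77 k109 3 (.d k113 k117 k101 1 5)))), (.s k89 k73 3 (.s k81 k93 1 (.s
  k243 k162 12 (.d k60 k190 k182 8 10)))), (.s k117 k113 1 (.s k48 k186 10 (.s k16 k32 3 (.s k154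
  k223 10 (.d k101 k69 k207 3 14)))))] (.c k69 (.l (.s k113 k117 1 (.s k89 k73 3 (.s k77 k101 5 (.d
  k93 k81 k109 1 3))))) (.c k81 (.l (.s k89 k73 3 (.s k113 k117 1 (.s k77 k101 5 (.s k93 k109 3 (.s
  k12 k174 12 (.s k4 k8 1 (.d k166 k247 k243 12 14)))))))) (.c k130 (.l (.s k190 k60 8 (.s k89 k73 3
  (.s k93 k81 1 (.s k77 k109 3 (.d k113 k117 k101 1 5)))))) (.c k190 (.q k130 [(.s k89 k73 3 (.s k93
  k81 1 (.s k77 k109 3 (.d k113 k117 k101 1 5)))), (.s k117 k113 1 (.s k48 k186 10 (.s k16 k32 3 (.s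
  k154 k223 10 (.d k101 k69 k207 3 14))))), (.s k89 k73 3 (.s k81 k93 1 (.s k243 k162 12 (.s k166
  k12 14 (.d k247 k251 k4 1 12)))))] (.c k69 (.l (.s k113 k117 1 (.s k89 k73 3 (.s k77 k101 5 (.d
  k93 k81 k109 1 3))))) (.c k81 (.l (.s k89 k73 3 (.s k113 k117 1 (.s k77 k101 5 (.s k93 k109 3 (.s
  k12 k174 12 (.s k4 k8 1 (.d k166 k247 k243 12 14)))))))) .n))) .n)))))) (.c k190 (.l (.s k65 k125
  5 (.s k195 k130 8 (.s k150 k60 14 (.d k215 k235 k20 5 8))))) (.c k195 (.q k1 [(.s k3 k2 0 (.s k87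
  k171 13 (.s k86 k84 0 (.d k169 k253 k252 13 14)))), (.s k65 k125 5 (.s k169 k253 13 (.s k41 k233 7
  (.s k61 k21 5 (.d k193 k129 k149 7 13))))), (.s k3 k2 0 (.s k125 k65 5 (.s k60 k190 8 (.s k40 k20
  5 (.s k41 k22 6 (.s k21 k61 5 (.d k42 k43 k63 0 6)))))))] .n) (.c k215 (.q k1 [(.s k169 k253 13
  (.s k3 k2 0 (.s k86 k252 14 (.d k87 k84 k171 0 13)))), (.s k65 k125 5 (.s k169 k253 13 (.s k41
  k233 7 (.s k61 k21 5 (.d k193 k129 k149 7 13))))), (.s k3 k2 0 (.s k65 k125 5 (.s k129 k193 7 (.s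
  k66 k192 8 (.s k67 k64 0 (.d k195 k131 k130 7 8))))))] .n) (.c k235 (.l (.s k125 k65 5 (.s k60
  k190 8 (.s k20 k40 5 (.d k150 k215 k195 8 14))))) .n))))))))))))

def t6_182 : T TT 256 :=
  (.f k255 k170 14 (.q k105 [(.s k65 k125 5 (.s k195 k130 8 (.s k215 k235 5 (.d k150 k20 k60 8
  14))))] (.c k20 (.q k1 [(.s k169 k253 13 (.s k3 k2 0 (.s k86 k252 14 (.d k87 k84 k171 0 13)))),
  (.s k65 k125 5 (.s k169 k253 13 (.s k41 k233 7 (.s k61 k21 5 (.d k193 k129 k149 7 13))))), (.s k3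
  k2 0 (.s k65 k125 5 (.s k129 k193 7 (.s k66 k192 8 (.s k67 k64 0 (.d k195 k131 k130 7 8))))))] .n)
  (.c k60 (.q k121 [(.s k89 k73 3 (.s k81 k93 1 (.s k243 k162 12 (.s k247 k251 1 (.d k166 k4 k12 12
  14))))), (.s k125 k65 5 (.s k117 k113 1 (.s k48 k186 10 (.s k16 k32 3 (.s k154 k223 10 (.d k101
  k69 k207 3 14))))))] (.c k81 (.l (.s k65 k125 5 (.s k73 k89 3 (.s k69 k77 1 (.s k101 k117 3 (.s
  k207 k138 10 (.s k154 k48 14 (.d k223 k239 k16 3 10)))))))) .n)) (.c k65 (.q k64 [(.s k106 k127 6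
  (.s k192 k128 7 (.s k149 k63 14 (.d k213 k234 k21 6 7)))), (.s k106 k127 6 (.s k104 k107 0 (.s k84
  k124 5 (.s k252 k168 13 (.s k253 k254 0 (.s k169 k1 13 (.d k86 k87 k3 0 14)))))))] (.c k106 (.f
  k192 k128 7 (.q k149 [(.d k213 k234 k21 6 7), (.s k193 k61 13 (.s k195 k194 0 (.s k150 k60 14 (.d
  k215 k235 k20 5 8))))] (.c k42 (.l (.s k234 k213 6 (.s k193 k61 13 (.s k195 k194 0 (.s k150 k60 14
  (.d k215 k235 k20 5 8)))))) (.c k234 (.q k42 [(.d k21 k63 k213 6 7), (.s k193 k61 13 (.s k195 k194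
  0 (.s k215 k235 5 (.d k150 k20 k60 8 14))))] .n) .n)))) (.c k127 (.l (.s k192 k128 7 (.s k213 k234
  6 (.s k149 k21 7 (.s k193 k61 13 (.s k195 k194 0 (.s k150 k60 14 (.d k215 k235 k20 5 8))))))))
  .n))) (.c k125 (.q k253 [(.s k169 k1 13 (.s k252 k254 0 (.s k84 k168 13 (.d k86 k87 k3 0 14)))),
  (.s k169 k1 13 (.s k233 k41 7 (.s k213 k193 5 (.s k192 k234 6 (.s k64 k128 7 (.s k106 k127 6 (.d
  k149 k21 k63 7 14)))))))] (.c k1 (.l (.s k252 k254 0 (.s k84 k168 13 (.s k86 k87 0 (.s k124 k67 6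
  (.s k60 k188 7 (.s k20 k40 5 (.d k150 k215 k195 8 14)))))))) (.c k169 (.f k252 k254 0 (.q k86 [(.d
  k84 k168 k87 13 0), (.s k124 k67 6 (.s k60 k188 7 (.s k20 k40 5 (.d k150 k215 k195 8 14))))] (.c
  k168 (.q k171 [(.d k87 k84 k3 0 13), (.s k124 k67 6 (.s k60 k188 7 (.s k20 k40 5 (.d k150 k215
  k195 8 14))))] .n) (.c k171 (.l (.s k168 k84 13 (.s k124 k67 6 (.s k60 k188 7 (.s k20 k40 5 (.d
  k150 k215 k195 8 14)))))) .n)))) .n))) (.c k130 (.l (.s k125 k65 5 (.s k60 k190 8 (.s k150 k195 14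
  (.d k20 k40 k215 5 8))))) (.c k150 (.f k65 k125 5 (.f k130 k195 8 (.q k166 [(.s k247 k4 12 (.s
  k243 k251 1 (.s k81 k162 12 (.d k89 k93 k12 1 14)))), (.s k4 k247 12 (.s k12 k8 1 (.s k89 k243 14
  (.d k93 k81 k174 1 12)))), (.s k227 k44 10 (.s k247 k4 12 (.s k243 k251 1 (.s k162 k81 12 (.s k32
  k97 8 (.s k48 k16 3 (.d k178 k146 k113 3 8)))))))] (.c k4 (.f k227 k44 10 (.q k165 [(.s k5 k245 11
  (.s k15 k10 2 (.s k95 k175 11 (.d k90 k80 k240 2 14)))), (.s k167 k164 0 (.s k47 k107 9 (.s k224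
  k106 10 (.d k225 k226 k45 0 9))))] (.c k5 (.q k7 [(.s k167 k164 0 (.s k87 k247 11 (.d k86 k84 k244
  0 12))), (.s k225 k45 9 (.s k224 k226 0 (.s k47 k106 10 (.d k167 k164 k107 0 9)))), (.s k86 k244
  12 (.s k84 k87 0 (.s k252 k168 13 (.s k169 k3 14 (.d k253 k254 k1 0 13)))))] (.c k164 (.l (.s k86
  k244 12 (.s k84 k87 0 (.s k252 k168 13 (.s k169 k3 14 (.d k253 k254 k1 0 13)))))) .n)) (.c k7 (.l
  (.s k5 k245 11 (.s k15 k10 2 (.s k90 k240 14 (.d k95 k80 k175 2 11))))) .n)))) (.c k8 (.l (.s k247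
  k4 12 (.s k243 k251 1 (.s k89 k12 14 (.d k81 k93 k162 1 12))))) (.c k81 (.q k1 [(.s k3 k2 0 (.s
  k87 k171 13 (.s k86 k84 0 (.d k169 k253 k252 13 14)))), (.s k169 k253 13 (.s k41 k233 7 (.s k61
  k21 5 (.d k193 k129 k149 7 13)))), (.s k3 k2 0 (.s k129 k193 7 (.s k192 k66 8 (.d k128 k131 k64 0
  7))))] .n) (.c k89 (.q k243 [(.d k247 k251 k4 1 12), (.s k162 k81 12 (.s k178 k146 3 (.s k48 k113
  8 (.s k16 k32 3 (.d k154 k142 k223 5 10)))))] (.c k8 (.l (.s k251 k247 1 (.s k162 k81 12 (.s k178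
  k146 3 (.s k48 k113 8 (.s k16 k32 3 (.d k154 k142 k223 5 10))))))) (.c k28 (.q k211 [(.d k247 k251
  k4 1 12), (.s k81 k162 12 (.s k16 k146 8 (.s k48 k32 3 (.d k113 k97 k178 3 8))))] (.c k8 (.l (.s
  k251 k247 1 (.s k81 k162 12 (.s k16 k146 8 (.s k48 k32 3 (.d k113 k97 k178 3 8)))))) (.c k251 (.q
  k8 [(.d k4 k12 k247 1 12), (.s k81 k162 12 (.s k16 k146 8 (.s k48 k32 3 (.d k113 k97 k178 3 8))))]
  .n) .n))) (.c k211 (.q k28 [(.d k247 k251 k4 1 12), (.s k44 k227 10 (.s k12 k60 3 (.s k81 k162 12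
  (.s k97 k113 3 (.s k174 k93 12 (.d k109 k101 k239 1 8))))))] (.c k8 (.l (.s k251 k247 1 (.s k44
  k227 10 (.s k12 k60 3 (.s k81 k162 12 (.s k97 k113 3 (.s k174 k93 12 (.d k109 k101 k239 1
  8)))))))) (.c k251 (.q k8 [(.d k4 k12 k247 1 12), (.s k81 k162 12 (.s k97 k113 3 (.s k101 k109 1
  (.s k231 k36 8 (.s k207 k219 5 (.d k69 k117 k138 3 10))))))] .n) .n))) (.c k251 (.q k8 [(.d k4 k12
  k247 1 12), (.s k162 k81 12 (.s k178 k146 3 (.s k48 k113 8 (.s k16 k32 3 (.d k154 k142 k223 5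
  10)))))] (.c k28 (.q k211 [(.d k4 k12 k247 1 12), (.s k81 k162 12 (.s k16 k146 8 (.s k48 k32 3 (.d
  k113 k97 k178 3 8))))] .n) (.c k211 (.q k28 [(.d k4 k12 k247 1 12), (.s k81 k162 12 (.s k97 k113 3
  (.s k101 k109 1 (.s k231 k36 8 (.s k207 k219 5 (.d k69 k117 k138 3 10))))))] .n) .n))) .n))))) (.c
  k243 (.q k117 [(.s k48 k186 10 (.s k16 k32 3 (.s k101 k69 3 (.d k154 k223 k207 10 14)))), (.s k4
  k247 12 (.s k8 k12 1 (.s k69 k101 3 (.s k73 k77 1 (.d k138 k207 k203 10 8))))), (.s k4 k247 12 (.s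
  k12 k8 1 (.s k48 k186 10 (.s k32 k16 3 (.s k36 k24 5 (.d k44 k40 k227 1 10))))))] (.c k32 (.l (.s
  k4 k247 12 (.s k12 k8 1 (.s k48 k186 10 (.s k36 k24 5 (.d k101 k69 k231 3 8)))))) (.c k60 (.q k121
  [(.s k73 k89 3 (.d k69 k77 k101 1 3)), (.s k4 k247 12 (.s k69 k101 3 (.s k138 k207 10 (.d k134
  k199 k142 8 1)))), (.s k4 k247 12 (.s k12 k8 1 (.s k89 k73 3 (.d k93 k81 k174 1 12))))] (.c k211
  (.l (.s k227 k44 10 (.s k69 k101 3 (.d k73 k77 k89 1 3)))) (.c k227 (.q k211 [(.s k73 k89 3 (.d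
  k69 k77 k101 1 3)), (.s k4 k247 12 (.s k69 k101 3 (.s k138 k207 10 (.d k134 k199 k142 8 1)))), (.s
  k4 k247 12 (.s k12 k8 1 (.s k89 k73 3 (.d k93 k81 k174 1 12))))] .n) .n))) (.c k121 (.q k60 [(.s
  k4 k247 12 (.s k12 k8 1 (.d k44 k227 k28 10 3))), (.s k4 k247 12 (.s k20 k40 5 (.s k36 k52 3 (.d
  k101 k69 k231 3 8)))), (.s k40 k20 5 (.s k48 k186 10 (.s k32 k16 3 (.d k44 k227 k36 10 1))))] (.c
  k211 (.l (.s k227 k44 10 (.s k4 k247 12 (.s k20 k40 5 (.s k36 k52 3 (.d k101 k69 k231 3 8))))))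
  (.c k227 (.q k211 [(.s k4 k247 12 (.s k20 k40 5 (.s k36 k52 3 (.d k101 k69 k231 3 8)))), (.s k48
  k186 10 (.s k16 k32 3 (.s k101 k69 3 (.d k154 k223 k207 10 14)))), (.s k4 k247 12 (.s k20 k40 5
  (.s k48 k186 10 (.d k52 k56 k36 1 3))))] .n) .n))) (.c k138 (.l (.s k101 k69 3 (.s k48 k186 10 (.s
  k154 k207 14 (.d k16 k32 k223 3 10))))) (.c k211 (.l (.s k227 k44 10 (.s k4 k247 12 (.s k69 k101 3
  (.s k138 k207 10 (.d k134 k199 k142 8 1)))))) (.c k227 (.q k211 [(.s k48 k186 10 (.s k16 k32 3 (.s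
  k101 k69 3 (.d k154 k223 k207 10 14)))), (.s k4 k247 12 (.s k8 k12 1 (.s k69 k101 3 (.s k73 k77 1
  (.d k138 k207 k203 10 8))))), (.s k4 k247 12 (.s k12 k8 1 (.s k48 k186 10 (.s k32 k16 3 (.s k36
  k24 5 (.s k40 k44 1 (.d k20 k60 k52 5 3)))))))] (.c k32 (.l (.s k4 k247 12 (.s k12 k8 1 (.s k48
  k186 10 (.s k36 k24 5 (.d k101 k69 k231 3 8)))))) (.c k60 (.q k121 [(.s k73 k89 3 (.d k69 k77 k101
  1 3)), (.s k4 k247 12 (.s k69 k101 3 (.s k138 k207 10 (.d k134 k199 k142 8 1)))), (.s k4 k247 12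
  (.s k12 k8 1 (.s k89 k73 3 (.d k93 k81 k174 1 12))))] .n) (.c k121 (.q k60 [(.s k4 k247 12 (.s k20
  k40 5 (.s k36 k52 3 (.d k101 k69 k231 3 8)))), (.s k48 k186 10 (.s k16 k32 3 (.s k101 k69 3 (.d
  k154 k223 k207 10 14)))), (.s k4 k247 12 (.s k20 k40 5 (.s k48 k186 10 (.d k52 k56 k36 1 3))))]
  .n) (.c k138 (.l (.s k101 k69 3 (.s k48 k186 10 (.s k154 k207 14 (.d k16 k32 k223 3 10)))))
  .n))))) .n))))))) (.c k247 (.q k117 [(.s k101 k69 3 (.s k97 k109 1 (.s k81 k113 3 (.s k243 k162 12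
  (.d k89 k93 k12 1 14))))), (.s k48 k186 10 (.s k16 k32 3 (.s k101 k69 3 (.d k154 k223 k207 10
  14)))), (.s k48 k186 10 (.s k32 k16 3 (.s k227 k44 10 (.s k162 k97 8 (.s k178 k146 3 (.d k243 k81
  k113 12 8))))))] .n) (.c k251 (.l (.s k4 k247 12 (.s k12 k8 1 (.s k89 k243 14 (.d k93 k81 k174 1
  12))))) .n)))))))))) (.c k190 (.l (.s k65 k125 5 (.s k195 k130 8 (.s k150 k60 14 (.d k215 k235 k20
  5 8))))) (.c k195 (.q k1 [(.s k3 k2 0 (.s k87 k171 13 (.s k86 k84 0 (.d k169 k253 k252 13 14)))),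
  (.s k65 k125 5 (.s k169 k253 13 (.s k41 k233 7 (.s k61 k21 5 (.d k193 k129 k149 7 13))))), (.s k3
  k2 0 (.s k125 k65 5 (.s k60 k190 8 (.s k40 k20 5 (.s k41 k22 6 (.s k21 k61 5 (.d k42 k43 k63 0
  6)))))))] .n) (.c k215 (.q k1 [(.s k169 k253 13 (.s k3 k2 0 (.s k86 k252 14 (.d k87 k84 k171 0
  13)))), (.s k65 k125 5 (.s k169 k253 13 (.s k41 k233 7 (.s k61 k21 5 (.d k193 k129 k149 7 13))))),
  (.s k3 k2 0 (.s k65 k125 5 (.s k129 k193 7 (.s k66 k192 8 (.s k67 k64 0 (.d k195 k131 k130 7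
  8))))))] .n) (.c k235 (.l (.s k125 k65 5 (.s k60 k190 8 (.s k20 k40 5 (.d k150 k215 k195 8 14)))))
  .n))))))))))))

def t6_183 : T TT 256 :=
  (.f k255 k170 14 (.q k105 [(.s k65 k125 5 (.s k195 k130 8 (.s k150 k60 14 (.d k215 k235 k20 5
  8))))] (.c k20 (.q k1 [(.s k169 k253 13 (.s k3 k2 0 (.s k86 k252 14 (.d k87 k84 k171 0 13)))), (.s
  k65 k125 5 (.s k169 k253 13 (.s k41 k233 7 (.s k61 k21 5 (.d k193 k129 k149 7 13))))), (.s k3 k2 0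
  (.s k65 k125 5 (.s k129 k193 7 (.s k66 k192 8 (.s k67 k64 0 (.d k195 k131 k130 7 8))))))] .n) (.c
  k60 (.q k1 [(.s k3 k2 0 (.s k87 k171 13 (.s k86 k84 0 (.d k169 k253 k252 13 14)))), (.s k65 k125 5
  (.s k169 k253 13 (.s k41 k233 7 (.s k61 k21 5 (.d k193 k129 k149 7 13))))), (.s k3 k2 0 (.s k65
  k125 5 (.s k129 k193 7 (.s k66 k192 8 (.s k67 k64 0 (.d k195 k131 k130 7 8))))))] .n) (.c k65 (.q
  k64 [(.s k106 k127 6 (.s k192 k128 7 (.s k213 k234 6 (.d k149 k21 k63 7 14)))), (.s k106 k127 6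
  (.s k104 k107 0 (.s k84 k124 5 (.s k252 k168 13 (.s k253 k254 0 (.s k169 k1 13 (.d k86 k87 k3 0
  14)))))))] (.c k106 (.f k192 k128 7 (.q k149 [(.d k213 k234 k21 6 7), (.s k193 k61 13 (.s k195
  k194 0 (.s k150 k60 14 (.d k215 k235 k20 5 8))))] (.c k42 (.l (.s k234 k213 6 (.s k193 k61 13 (.s
  k195 k194 0 (.s k150 k60 14 (.d k215 k235 k20 5 8)))))) (.c k234 (.q k42 [(.d k21 k63 k213 6 7),
  (.s k193 k61 13 (.s k195 k194 0 (.s k215 k235 5 (.d k150 k20 k60 8 14))))] .n) .n)))) (.c k127 (.l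
  (.s k192 k128 7 (.s k213 k234 6 (.s k149 k21 7 (.s k193 k61 13 (.s k195 k194 0 (.s k150 k60 14 (.d
  k215 k235 k20 5 8)))))))) .n))) (.c k125 (.q k253 [(.s k169 k1 13 (.s k252 k254 0 (.s k84 k168 13
  (.d k86 k87 k3 0 14)))), (.s k169 k1 13 (.s k233 k41 7 (.s k213 k193 5 (.s k192 k234 6 (.s k64
  k128 7 (.s k106 k127 6 (.d k149 k21 k63 7 14)))))))] (.c k1 (.l (.s k252 k254 0 (.s k84 k168 13
  (.s k86 k87 0 (.s k124 k67 6 (.s k60 k188 7 (.s k20 k40 5 (.d k150 k215 k195 8 14)))))))) (.c k169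
  (.f k252 k254 0 (.q k86 [(.d k84 k168 k87 13 0), (.s k124 k67 6 (.s k60 k188 7 (.s k20 k40 5 (.d
  k150 k215 k195 8 14))))] (.c k168 (.q k171 [(.d k87 k84 k3 0 13), (.s k124 k67 6 (.s k60 k188 7
  (.s k20 k40 5 (.d k150 k215 k195 8 14))))] .n) (.c k171 (.l (.s k168 k84 13 (.s k124 k67 6 (.s k60
  k188 7 (.s k20 k40 5 (.d k150 k215 k195 8 14)))))) .n)))) .n))) (.c k130 (.l (.s k125 k65 5 (.s
  k60 k190 8 (.s k150 k195 14 (.d k20 k40 k215 5 8))))) (.c k150 (.f k125 k65 5 (.q k121 [(.s k89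
  k73 3 (.s k93 k81 1 (.s k77 k109 3 (.d k113 k117 k101 1 5)))), (.s k89 k73 3 (.s k81 k93 1 (.s
  k243 k162 12 (.d k60 k190 k182 8 10)))), (.s k117 k113 1 (.s k48 k186 10 (.s k16 k32 3 (.s k154
  k223 10 (.d k101 k69 k207 3 14)))))] (.c k69 (.l (.s k113 k117 1 (.s k89 k73 3 (.s k77 k101 5 (.d
  k93 k81 k109 1 3))))) (.c k81 (.l (.s k89 k73 3 (.s k113 k117 1 (.s k77 k101 5 (.s k93 k109 3 (.s
  k12 k174 12 (.s k4 k8 1 (.d k166 k247 k243 12 14)))))))) (.c k130 (.l (.s k190 k60 8 (.s k89 k73 3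
  (.s k93 k81 1 (.s k77 k109 3 (.d k113 k117 k101 1 5)))))) (.c k190 (.q k130 [(.s k89 k73 3 (.s k93
  k81 1 (.s k77 k109 3 (.d k113 k117 k101 1 5)))), (.s k117 k113 1 (.s k48 k186 10 (.s k16 k32 3 (.s
  k154 k223 10 (.d k101 k69 k207 3 14))))), (.s k89 k73 3 (.s k81 k93 1 (.s k243 k162 12 (.s k166
  k12 14 (.d k247 k251 k4 1 12)))))] (.c k69 (.l (.s k113 k117 1 (.s k89 k73 3 (.s k77 k101 5 (.d
  k93 k81 k109 1 3))))) (.c k81 (.l (.s k89 k73 3 (.s k113 k117 1 (.s k77 k101 5 (.s k93 k109 3 (.s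
  k12 k174 12 (.s k4 k8 1 (.d k166 k247 k243 12 14)))))))) .n))) .n)))))) (.c k190 (.l (.s k65 k125
  5 (.s k195 k130 8 (.s k150 k60 14 (.d k215 k235 k20 5 8))))) (.c k195 (.q k1 [(.s k3 k2 0 (.s k87
  k171 13 (.s k86 k84 0 (.d k169 k253 k252 13 14)))), (.s k65 k125 5 (.s k169 k253 13 (.s k41 k233 7
  (.s k61 k21 5 (.d k193 k129 k149 7 13))))), (.s k3 k2 0 (.s k125 k65 5 (.s k60 k190 8 (.s k40 k20
  5 (.s k41 k22 6 (.s k21 k61 5 (.d k42 k43 k63 0 6)))))))] .n) (.c k215 (.q k1 [(.s k169 k253 13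
  (.s k3 k2 0 (.s k86 k252 14 (.d k87 k84 k171 0 13)))), (.s k65 k125 5 (.s k169 k253 13 (.s k41
  k233 7 (.s k61 k21 5 (.d k193 k129 k149 7 13))))), (.s k3 k2 0 (.s k65 k125 5 (.s k129 k193 7 (.s
  k66 k192 8 (.s k67 k64 0 (.d k195 k131 k130 7 8))))))] .n) (.c k235 (.l (.s k125 k65 5 (.s k60
  k190 8 (.s k20 k40 5 (.d k150 k215 k195 8 14))))) .n))))))))))))

def t6_184 : T TT 256 :=
  (.f k255 k170 14 (.q k105 [(.s k65 k125 5 (.s k195 k130 8 (.s k150 k60 14 (.d k215 k235 k20 5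
  8))))] (.c k20 (.q k1 [(.s k3 k2 0 (.s k87 k171 13 (.s k169 k253 13 (.d k86 k84 k252 0 14)))), (.s
  k65 k125 5 (.s k169 k253 13 (.s k41 k233 7 (.s k61 k21 5 (.d k193 k129 k149 7 13))))), (.s k3 k2 0
  (.s k65 k125 5 (.s k129 k193 7 (.s k66 k192 8 (.s k67 k64 0 (.d k195 k131 k130 7 8))))))] .n) (.c
  k60 (.q k1 [(.s k3 k2 0 (.s k87 k171 13 (.s k86 k84 0 (.d k169 k253 k252 13 14)))), (.s k65 k125 5
  (.s k169 k253 13 (.s k41 k233 7 (.s k61 k21 5 (.d k193 k129 k149 7 13))))), (.s k3 k2 0 (.s k65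
  k125 5 (.s k129 k193 7 (.s k66 k192 8 (.s k67 k64 0 (.d k195 k131 k130 7 8))))))] .n) (.c k65 (.q
  k21 [(.s k149 k213 7 (.s k63 k42 6 (.s k106 k192 14 (.d k127 k64 k191 6 7)))), (.s k149 k213 7 (.s
  k61 k193 13 (.s k1 k41 5 (.s k3 k2 0 (.s k87 k171 13 (.s k86 k84 0 (.d k169 k253 k252 13
  14)))))))] (.c k149 (.f k63 k42 6 (.q k106 [(.d k127 k191 k64 7 6), (.s k107 k104 0 (.s k195 k151
  13 (.s k150 k60 14 (.d k215 k235 k20 5 8))))] (.c k128 (.l (.s k191 k127 7 (.s k107 k104 0 (.s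
  k195 k151 13 (.s k150 k60 14 (.d k215 k235 k20 5 8)))))) (.c k191 (.q k128 [(.d k64 k127 k192 6
  7), (.s k107 k104 0 (.s k195 k151 13 (.s k215 k235 5 (.d k150 k20 k60 8 14))))] .n) .n)))) (.c
  k213 (.l (.s k63 k42 6 (.s k127 k191 7 (.s k106 k64 6 (.s k107 k104 0 (.s k195 k151 13 (.s k150
  k60 14 (.d k215 k235 k20 5 8)))))))) .n))) (.c k125 (.q k127 [(.s k106 k64 6 (.s k63 k191 7 (.s
  k149 k192 14 (.d k21 k42 k213 6 7)))), (.s k106 k64 6 (.s k107 k104 0 (.s k87 k67 5 (.s k3 k171 13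
  (.s k1 k2 0 (.s k169 k253 13 (.d k86 k84 k252 0 14)))))))] (.c k64 (.l (.s k63 k191 7 (.s k21 k42
  6 (.s k149 k213 7 (.s k61 k193 13 (.s k60 k62 0 (.s k20 k40 5 (.d k150 k215 k195 8 14)))))))) (.c
  k106 (.f k63 k191 7 (.q k149 [(.d k21 k42 k213 6 7), (.s k61 k193 13 (.s k60 k62 0 (.s k20 k40 5
  (.d k150 k215 k195 8 14))))] (.c k42 (.q k234 [(.d k213 k192 k21 6 7), (.s k61 k193 13 (.s k60 k62
  0 (.s k20 k40 5 (.d k150 k215 k195 8 14))))] .n) (.c k234 (.l (.s k42 k21 6 (.s k61 k193 13 (.s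
  k60 k62 0 (.s k20 k40 5 (.d k150 k215 k195 8 14)))))) .n)))) .n))) (.c k130 (.l (.s k125 k65 5 (.s
  k60 k190 8 (.s k150 k195 14 (.d k20 k40 k215 5 8))))) (.c k150 (.f k125 k65 5 (.q k86 [(.s k84 k87
  0 (.s k124 k67 6 (.s k64 k104 5 (.d k127 k126 k106 0 6)))), (.s k84 k87 0 (.s k252 k168 13 (.s
  k169 k3 14 (.d k253 k254 k1 0 13)))), (.s k124 k67 6 (.s k127 k126 0 (.s k63 k191 7 (.s k21 k42 6
  (.s k149 k213 7 (.d k106 k64 k192 6 14))))))] (.c k130 (.l (.s k190 k60 8 (.s k84 k87 0 (.s k124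
  k67 6 (.s k64 k104 5 (.d k127 k126 k106 0 6)))))) (.c k190 (.q k130 [(.s k84 k87 0 (.s k124 k67 6
  (.s k64 k104 5 (.d k127 k126 k106 0 6)))), (.s k84 k87 0 (.s k252 k168 13 (.s k169 k3 14 (.d k253
  k254 k1 0 13)))), (.s k124 k67 6 (.s k127 k126 0 (.s k63 k191 7 (.s k21 k42 6 (.s k149 k213 7 (.d
  k106 k64 k192 6 14))))))] .n) .n)))) (.c k190 (.l (.s k65 k125 5 (.s k195 k130 8 (.s k150 k60 14
  (.d k215 k235 k20 5 8))))) (.c k195 (.q k1 [(.s k3 k2 0 (.s k87 k171 13 (.s k86 k84 0 (.d k169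
  k253 k252 13 14)))), (.s k65 k125 5 (.s k169 k253 13 (.s k41 k233 7 (.s k61 k21 5 (.d k193 k129
  k149 7 13))))), (.s k3 k2 0 (.s k125 k65 5 (.s k60 k190 8 (.s k40 k20 5 (.s k41 k22 6 (.s k21 k61
  5 (.d k42 k43 k63 0 6)))))))] .n) (.c k215 (.q k1 [(.s k3 k2 0 (.s k87 k171 13 (.s k86 k84 0 (.d
  k169 k253 k252 13 14)))), (.s k65 k125 5 (.s k169 k253 13 (.s k41 k233 7 (.s k61 k21 5 (.d k193
  k129 k149 7 13))))), (.s k3 k2 0 (.s k65 k125 5 (.s k129 k193 7 (.s k66 k192 8 (.s k67 k64 0 (.d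
  k195 k131 k130 7 8))))))] .n) (.c k235 (.l (.s k125 k65 5 (.s k60 k190 8 (.s k20 k40 5 (.d k150
  k215 k195 8 14))))) .n))))))))))))

def t6_185 : T TT 256 :=
  (.f k255 k170 14 (.q k105 [(.s k65 k125 5 (.s k195 k130 8 (.s k150 k60 14 (.d k215 k235 k20 5
  8))))] (.c k20 (.q k1 [(.s k3 k2 0 (.s k87 k171 13 (.s k86 k84 0 (.d k169 k253 k252 13 14)))), (.s
  k65 k125 5 (.s k169 k253 13 (.s k41 k233 7 (.s k61 k21 5 (.d k193 k129 k149 7 13))))), (.s k3 k2 0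
  (.s k65 k125 5 (.s k129 k193 7 (.s k66 k192 8 (.s k67 k64 0 (.d k195 k131 k130 7 8))))))] .n) (.c
  k60 (.q k1 [(.s k3 k2 0 (.s k87 k171 13 (.s k86 k84 0 (.d k169 k253 k252 13 14)))), (.s k65 k125 5
  (.s k169 k253 13 (.s k41 k233 7 (.s k61 k21 5 (.d k193 k129 k149 7 13))))), (.s k3 k2 0 (.s k65
  k125 5 (.s k129 k193 7 (.s k66 k192 8 (.s k67 k64 0 (.d k195 k131 k130 7 8))))))] .n) (.c k65 (.q
  k21 [(.s k149 k213 7 (.s k63 k42 6 (.s k106 k192 14 (.d k127 k64 k191 6 7)))), (.s k149 k213 7 (.s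
  k61 k193 13 (.s k1 k41 5 (.s k3 k2 0 (.s k87 k171 13 (.s k86 k84 0 (.d k169 k253 k252 13
  14)))))))] (.c k149 (.f k63 k42 6 (.q k106 [(.d k127 k191 k64 7 6), (.s k107 k104 0 (.s k195 k151
  13 (.s k150 k60 14 (.d k215 k235 k20 5 8))))] (.c k128 (.l (.s k191 k127 7 (.s k107 k104 0 (.s
  k195 k151 13 (.s k150 k60 14 (.d k215 k235 k20 5 8)))))) (.c k191 (.q k128 [(.d k64 k127 k192 6
  7), (.s k107 k104 0 (.s k195 k151 13 (.s k215 k235 5 (.d k150 k20 k60 8 14))))] .n) .n)))) (.c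
  k213 (.l (.s k63 k42 6 (.s k127 k191 7 (.s k106 k64 6 (.s k107 k104 0 (.s k195 k151 13 (.s k150
  k60 14 (.d k215 k235 k20 5 8)))))))) .n))) (.c k125 (.q k127 [(.s k106 k64 6 (.s k63 k191 7 (.s
  k149 k192 14 (.d k21 k42 k213 6 7)))), (.s k106 k64 6 (.s k107 k104 0 (.s k87 k67 5 (.s k3 k171 13
  (.s k1 k2 0 (.s k169 k253 13 (.d k86 k84 k252 0 14)))))))] (.c k64 (.l (.s k63 k191 7 (.s k21 k42
  6 (.s k149 k213 7 (.s k61 k193 13 (.s k60 k62 0 (.s k20 k40 5 (.d k150 k215 k195 8 14)))))))) (.c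
  k106 (.f k63 k191 7 (.q k149 [(.d k21 k42 k213 6 7), (.s k61 k193 13 (.s k60 k62 0 (.s k20 k40 5
  (.d k150 k215 k195 8 14))))] (.c k42 (.q k234 [(.d k213 k192 k21 6 7), (.s k61 k193 13 (.s k60 k62
  0 (.s k20 k40 5 (.d k150 k215 k195 8 14))))] .n) (.c k234 (.l (.s k42 k21 6 (.s k61 k193 13 (.s
  k60 k62 0 (.s k20 k40 5 (.d k150 k215 k195 8 14)))))) .n)))) .n))) (.c k130 (.l (.s k125 k65 5 (.s
  k60 k190 8 (.s k150 k195 14 (.d k20 k40 k215 5 8))))) (.c k150 (.f k125 k65 5 (.q k86 [(.s k84 k87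
  0 (.s k124 k67 6 (.s k64 k104 5 (.d k127 k126 k106 0 6)))), (.s k84 k87 0 (.s k252 k168 13 (.s
  k169 k3 14 (.d k253 k254 k1 0 13)))), (.s k124 k67 6 (.s k127 k126 0 (.s k63 k191 7 (.s k21 k42 6
  (.s k149 k213 7 (.d k106 k64 k192 6 14))))))] (.c k130 (.l (.s k190 k60 8 (.s k84 k87 0 (.s k124
  k67 6 (.s k64 k104 5 (.d k127 k126 k106 0 6)))))) (.c k190 (.q k130 [(.s k84 k87 0 (.s k124 k67 6
  (.s k64 k104 5 (.d k127 k126 k106 0 6)))), (.s k84 k87 0 (.s k252 k168 13 (.s k169 k3 14 (.d k253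
  k254 k1 0 13)))), (.s k124 k67 6 (.s k127 k126 0 (.s k63 k191 7 (.s k21 k42 6 (.s k149 k213 7 (.d
  k106 k64 k192 6 14))))))] .n) .n)))) (.c k190 (.l (.s k65 k125 5 (.s k195 k130 8 (.s k150 k60 14
  (.d k215 k235 k20 5 8))))) (.c k195 (.q k1 [(.s k3 k2 0 (.s k87 k171 13 (.s k86 k84 0 (.d k169
  k253 k252 13 14)))), (.s k65 k125 5 (.s k169 k253 13 (.s k41 k233 7 (.s k61 k21 5 (.d k193 k129
  k149 7 13))))), (.s k3 k2 0 (.s k125 k65 5 (.s k60 k190 8 (.s k40 k20 5 (.s k41 k22 6 (.s k21 k61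
  5 (.d k42 k43 k63 0 6)))))))] .n) (.c k215 (.q k1 [(.s k3 k2 0 (.s k87 k171 13 (.s k86 k84 0 (.d
  k169 k253 k252 13 14)))), (.s k65 k125 5 (.s k169 k253 13 (.s k41 k233 7 (.s k61 k21 5 (.d k193
  k129 k149 7 13))))), (.s k3 k2 0 (.s k65 k125 5 (.s k129 k193 7 (.s k66 k192 8 (.s k67 k64 0 (.d
  k195 k131 k130 7 8))))))] .n) (.c k235 (.l (.s k125 k65 5 (.s k60 k190 8 (.s k20 k40 5 (.d k150
  k215 k195 8 14))))) .n))))))))))))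

def t6_186 : T TT 256 :=
  (.q k86 [(.s k84 k87 0 (.s k252 k168 13 (.s k3 k169 14 (.s k2 k1 0 (.d k170 k254 k255 13 14)))))]
  (.c k1 (.q k4 [(.s k12 k8 1 (.s k166 k247 12 (.s k89 k243 14 (.s k93 k81 1 (.d k255 k174 k170 12
  14))))), (.s k84 k87 0 (.s k244 k164 11 (.s k165 k7 12 (.s k245 k5 11 (.d k247 k246 k166 0
  12))))), (.s k12 k8 1 (.s k84 k87 0 (.s k164 k244 11 (.s k88 k240 13 (.s k92 k80 1 (.d k252 k172
  k168 11 13))))))] .n) (.c k2 (.l (.s k84 k87 0 (.s k252 k168 13 (.s k169 k3 14 (.s k253 k1 13 (.d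
  k255 k254 k170 0 14)))))) (.c k3 (.q k12 [(.s k4 k8 1 (.s k166 k247 12 (.s k89 k243 14 (.s k93 k81
  1 (.d k255 k174 k170 12 14))))), (.s k4 k8 1 (.s k84 k87 0 (.s k164 k244 11 (.s k88 k240 13 (.s
  k92 k80 1 (.d k252 k172 k168 11 13)))))), (.s k84 k87 0 (.s k252 k168 13 (.s k92 k172 11 (.s k89
  k83 2 (.s k81 k93 1 (.d k243 k162 k166 12 14))))))] (.c k255 (.f k4 k8 1 (.f k166 k247 12 (.f k243
  k89 14 (.l (.s k162 k81 12 (.s k170 k174 1 (.s k2 k254 13 (.s k242 k82 11 (.s k240 k241 0 (.s k80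
  k160 11 (.d k90 k14 k95 13 2))))))))))) .n)) (.c k84 (.q k15 [(.s k5 k10 2 (.s k165 k245 11 (.s
  k90 k240 14 (.s k95 k80 2 (.d k255 k175 k170 11 14))))), (.s k5 k10 2 (.s k165 k245 11 (.s k7 k244
  12 (.s k3 k11 1 (.s k169 k252 14 (.d k1 k2 k253 0 13)))))), (.s k170 k255 14 (.s k2 k254 13 (.s k3
  k1 0 (.s k7 k11 1 (.s k165 k244 12 (.s k160 k175 2 (.d k240 k80 k90 11 14)))))))] (.c k2 (.l (.s
  k10 k5 2 (.s k170 k255 14 (.s k90 k250 11 (.s k80 k95 2 (.d k240 k160 k165 11 14)))))) (.c k165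
  (.l (.s k10 k5 2 (.s k170 k255 14 (.s k2 k254 13 (.s k3 k1 0 (.s k90 k250 11 (.s k94 k82 1 (.d
  k252 k173 k169 12 14)))))))) (.c k240 (.l (.s k5 k10 2 (.s k165 k245 11 (.s k7 k244 12 (.s k3 k11
  1 (.s k2 k1 0 (.d k170 k255 k254 14 13))))))) .n)))) (.c k87 (.q k15 [(.s k5 k10 2 (.s k165 k245
  11 (.s k90 k240 14 (.s k95 k80 2 (.d k255 k175 k170 11 14))))), (.s k5 k10 2 (.s k165 k245 11 (.s
  k7 k244 12 (.s k3 k11 1 (.s k169 k252 14 (.d k1 k2 k253 0 13)))))), (.s k170 k255 14 (.s k2 k254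
  13 (.s k3 k1 0 (.s k7 k11 1 (.s k165 k244 12 (.s k160 k175 2 (.d k240 k80 k90 11 14)))))))] (.c k2
  (.l (.s k10 k5 2 (.s k170 k255 14 (.s k90 k250 11 (.s k80 k95 2 (.d k240 k160 k165 11 14)))))) (.c
  k165 (.l (.s k10 k5 2 (.s k170 k255 14 (.s k2 k254 13 (.s k3 k1 0 (.s k90 k250 11 (.s k94 k82 1
  (.d k252 k173 k169 12 14)))))))) (.c k240 (.l (.s k5 k10 2 (.s k165 k245 11 (.s k7 k244 12 (.s k3
  k11 1 (.s k2 k1 0 (.d k170 k255 k254 14 13))))))) .n)))) (.c k168 (.l (.s k87 k84 0 (.s k255 k170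
  14 (.s k3 k171 13 (.s k169 k252 14 (.d k1 k2 k253 0 13)))))) (.c k169 (.q k4 [(.s k12 k8 1 (.s
  k166 k247 12 (.s k89 k243 14 (.s k93 k81 1 (.d k255 k174 k170 12 14))))), (.s k84 k87 0 (.s k244
  k164 11 (.s k165 k7 12 (.s k245 k5 11 (.d k247 k246 k166 0 12))))), (.s k12 k8 1 (.s k84 k87 0 (.s
  k164 k244 11 (.s k88 k240 13 (.s k92 k80 1 (.d k252 k172 k168 11 13))))))] .n) (.c k170 (.q k154
  [(.s k16 k223 10 (.s k18 k222 9 (.s k19 k17 0 (.s k84 k87 0 (.d k220 k152 k153 9 10))))), (.s k84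
  k87 0 (.s k222 k18 9 (.s k252 k168 13 (.s k207 k237 4 (.s k69 k138 10 (.d k101 k117 k48 3
  14)))))), (.s k16 k223 10 (.s k48 k32 3 (.s k84 k87 0 (.s k101 k207 14 (.s k116 k71 4 (.d k252
  k184 k168 9 13)))))), (.s k16 k223 10 (.s k18 k222 9 (.s k48 k32 3 (.s k3 k33 4 (.s k1 k2 0 (.d
  k169 k253 k252 13 14))))))] .n) (.c k171 (.l (.s k84 k87 0 (.s k252 k168 13 (.s k3 k169 14 (.s
  k170 k255 14 (.d k2 k1 k254 0 13)))))) (.c k252 (.q k8 [(.s k170 k255 14 (.s k89 k251 12 (.s k81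
  k93 1 (.s k243 k162 12 (.d k12 k4 k166 1 14))))), (.s k4 k12 1 (.s k84 k87 0 (.s k244 k164 11 (.s
  k165 k7 12 (.s k245 k5 11 (.d k247 k246 k166 0 12)))))), (.s k84 k87 0 (.s k170 k255 14 (.s k89
  k251 12 (.s k92 k83 2 (.s k80 k88 1 (.s k93 k81 1 (.d k95 k94 k90 0 2)))))))] (.c k247 (.l (.s k12
  k4 1 (.s k170 k255 14 (.s k89 k251 12 (.s k243 k166 14 (.d k81 k93 k162 1 12)))))) .n)) (.c k254
  (.l (.s k87 k84 0 (.s k255 k170 14 (.s k3 k171 13 (.s k1 k2 0 (.d k169 k253 k252 13 14)))))) (.c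
  k255 (.q k48 [(.s k16 k32 3 (.s k87 k84 0 (.s k223 k154 10 (.s k19 k155 9 (.s k17 k18 0 (.d k153
  k221 k220 9 10)))))), (.s k84 k87 0 (.s k252 k168 13 (.s k116 k184 9 (.s k101 k71 4 (.s k69 k117 3
  (.d k207 k138 k154 10 14)))))), (.s k16 k32 3 (.s k154 k223 10 (.s k18 k222 9 (.s k3 k33 4 (.s k1
  k2 0 (.d k169 k253 k252 13 14))))))] (.c k154 (.l (.s k16 k32 3 (.s k84 k87 0 (.s k152 k220 9 (.s
  k100 k204 13 (.s k116 k68 3 (.d k252 k184 k168 9 13))))))) .n)) .n)))))))))))))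

def t6_187 : T TT 256 :=
  (.q k86 [(.s k84 k87 0 (.s k252 k168 13 (.s k3 k169 14 (.s k2 k1 0 (.d k170 k254 k255 13 14)))))]
  (.c k1 (.q k4 [(.s k12 k8 1 (.s k166 k247 12 (.s k89 k243 14 (.s k93 k81 1 (.d k255 k174 k170 12
  14))))), (.s k84 k87 0 (.s k244 k164 11 (.s k165 k7 12 (.s k245 k5 11 (.d k247 k246 k166 0
  12))))), (.s k12 k8 1 (.s k84 k87 0 (.s k164 k244 11 (.s k88 k240 13 (.s k92 k80 1 (.d k252 k172
  k168 11 13))))))] .n) (.c k2 (.l (.s k84 k87 0 (.s k252 k168 13 (.s k169 k3 14 (.s k253 k1 13 (.d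
  k255 k254 k170 0 14)))))) (.c k3 (.q k12 [(.s k4 k8 1 (.s k166 k247 12 (.s k89 k243 14 (.s k93 k81
  1 (.d k255 k174 k170 12 14))))), (.s k4 k8 1 (.s k84 k87 0 (.s k164 k244 11 (.s k88 k240 13 (.s
  k92 k80 1 (.d k252 k172 k168 11 13)))))), (.s k84 k87 0 (.s k252 k168 13 (.s k92 k172 11 (.s k89
  k83 2 (.s k81 k93 1 (.d k243 k162 k166 12 14))))))] (.c k255 (.f k4 k8 1 (.f k87 k84 0 (.q k51
  [(.s k34 k17 4 (.s k38 k25 6 (.s k21 k55 4 (.d k42 k46 k63 1 6)))), (.s k17 k34 4 (.s k153 k221 9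
  (.s k19 k220 10 (.s k16 k18 0 (.d k223 k155 k154 9 10))))), (.s k38 k25 6 (.s k166 k247 12 (.s
  k102 k230 7 (.s k68 k119 4 (.d k204 k136 k153 9 14)))))] .n))) .n)) (.c k84 (.q k15 [(.s k5 k10 2
  (.s k165 k245 11 (.s k90 k240 14 (.s k95 k80 2 (.d k255 k175 k170 11 14))))), (.s k5 k10 2 (.s
  k165 k245 11 (.s k7 k244 12 (.s k3 k11 1 (.s k169 k252 14 (.d k1 k2 k253 0 13)))))), (.s k170 k255
  14 (.s k2 k254 13 (.s k3 k1 0 (.s k7 k11 1 (.s k165 k244 12 (.s k160 k175 2 (.d k240 k80 k90 11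
  14)))))))] (.c k2 (.l (.s k10 k5 2 (.s k170 k255 14 (.s k90 k250 11 (.s k80 k95 2 (.d k240 k160
  k165 11 14)))))) (.c k165 (.l (.s k10 k5 2 (.s k170 k255 14 (.s k2 k254 13 (.s k3 k1 0 (.s k90
  k250 11 (.s k94 k82 1 (.d k252 k173 k169 12 14)))))))) (.c k240 (.l (.s k5 k10 2 (.s k165 k245 11
  (.s k7 k244 12 (.s k3 k11 1 (.s k2 k1 0 (.d k170 k255 k254 14 13))))))) .n)))) (.c k87 (.q k15
  [(.s k5 k10 2 (.s k165 k245 11 (.s k90 k240 14 (.s k95 k80 2 (.d k255 k175 k170 11 14))))), (.s k5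
  k10 2 (.s k165 k245 11 (.s k7 k244 12 (.s k3 k11 1 (.s k169 k252 14 (.d k1 k2 k253 0 13)))))), (.s
  k170 k255 14 (.s k2 k254 13 (.s k3 k1 0 (.s k7 k11 1 (.s k165 k244 12 (.s k160 k175 2 (.d k240 k80
  k90 11 14)))))))] (.c k2 (.l (.s k10 k5 2 (.s k170 k255 14 (.s k90 k250 11 (.s k80 k95 2 (.d k240
  k160 k165 11 14)))))) (.c k165 (.l (.s k10 k5 2 (.s k170 k255 14 (.s k2 k254 13 (.s k3 k1 0 (.s
  k90 k250 11 (.s k94 k82 1 (.d k252 k173 k169 12 14)))))))) (.c k240 (.l (.s k5 k10 2 (.s k165 k245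
  11 (.s k7 k244 12 (.s k3 k11 1 (.s k2 k1 0 (.d k170 k255 k254 14 13))))))) .n)))) (.c k168 (.l (.s
  k87 k84 0 (.s k255 k170 14 (.s k3 k171 13 (.s k169 k252 14 (.d k1 k2 k253 0 13)))))) (.c k169 (.q
  k4 [(.s k12 k8 1 (.s k166 k247 12 (.s k89 k243 14 (.s k93 k81 1 (.d k255 k174 k170 12 14))))), (.s
  k84 k87 0 (.s k244 k164 11 (.s k165 k7 12 (.s k245 k5 11 (.d k247 k246 k166 0 12))))), (.s k12 k8
  1 (.s k84 k87 0 (.s k164 k244 11 (.s k88 k240 13 (.s k92 k80 1 (.d k252 k172 k168 11 13))))))] .n)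
  (.c k170 (.q k153 [(.s k17 k221 9 (.s k19 k220 10 (.s k16 k18 0 (.s k87 k84 0 (.d k223 k155 k154 9
  10))))), (.s k17 k221 9 (.s k51 k34 4 (.s k84 k87 0 (.s k102 k204 14 (.s k118 k70 3 (.d k252 k185
  k168 10 13)))))), (.s k17 k221 9 (.s k19 k220 10 (.s k51 k34 4 (.s k3 k35 3 (.s k1 k2 0 (.d k169
  k253 k252 13 14)))))), (.s k84 k87 0 (.s k220 k19 10 (.s k252 k168 13 (.s k204 k236 3 (.s k68 k136
  9 (.d k102 k119 k51 4 14))))))] .n) (.c k171 (.l (.s k84 k87 0 (.s k252 k168 13 (.s k3 k169 14 (.s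
  k170 k255 14 (.d k2 k1 k254 0 13)))))) (.c k252 (.q k8 [(.s k170 k255 14 (.s k89 k251 12 (.s k81
  k93 1 (.s k243 k162 12 (.d k12 k4 k166 1 14))))), (.s k4 k12 1 (.s k84 k87 0 (.s k244 k164 11 (.s
  k165 k7 12 (.s k245 k5 11 (.d k247 k246 k166 0 12)))))), (.s k84 k87 0 (.s k170 k255 14 (.s k89
  k251 12 (.s k92 k83 2 (.s k80 k88 1 (.s k93 k81 1 (.d k95 k94 k90 0 2)))))))] (.c k247 (.l (.s k12
  k4 1 (.s k170 k255 14 (.s k89 k251 12 (.s k243 k166 14 (.d k81 k93 k162 1 12)))))) .n)) (.c k254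
  (.l (.s k87 k84 0 (.s k255 k170 14 (.s k3 k171 13 (.s k1 k2 0 (.d k169 k253 k252 13 14)))))) (.c
  k255 (.q k51 [(.s k17 k34 4 (.s k84 k87 0 (.s k153 k221 9 (.s k204 k102 14 (.s k252 k168 13 (.d
  k220 k236 k19 3 10)))))), (.s k84 k87 0 (.s k252 k168 13 (.s k118 k185 10 (.s k102 k70 3 (.s k68
  k119 4 (.d k204 k136 k153 9 14)))))), (.s k17 k34 4 (.s k87 k84 0 (.s k153 k221 9 (.s k19 k220 10
  (.s k16 k18 0 (.d k223 k155 k154 9 10)))))), (.s k17 k34 4 (.s k153 k221 9 (.s k19 k220 10 (.s k3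
  k35 3 (.s k1 k2 0 (.d k169 k253 k252 13 14))))))] (.c k153 (.f k17 k34 4 (.l (.s k84 k87 0 (.s
  k252 k168 13 (.s k3 k169 14 (.s k1 k2 0 (.s k19 k35 3 (.s k18 k16 0 (.d k33 k49 k48 3 4)))))))))
  (.c k204 (.l (.s k17 k34 4 (.s k84 k87 0 (.s k252 k168 13 (.s k3 k169 14 (.s k19 k35 3 (.d k153
  k221 k220 9 10))))))) .n))) .n)))))))))))))

def t6_188 : T TT 256 :=
  (.f k255 k170 14 (.q k102 [(.s k68 k119 4 (.s k204 k136 9 (.s k153 k51 14 (.d k221 k238 k17 4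
  9))))] (.c k17 (.q k1 [(.s k3 k2 0 (.s k87 k171 13 (.s k86 k84 0 (.d k169 k253 k252 13 14)))), (.s
  k68 k119 4 (.s k169 k253 13 (.s k204 k136 9 (.s k153 k51 14 (.s k137 k185 3 (.s k69 k205 9 (.d k70
  k71 k3 0 10))))))), (.s k3 k2 0 (.s k68 k119 4 (.s k204 k136 9 (.s k70 k137 10 (.s k86 k118 3 (.d
  k87 k84 k171 0 13))))))] (.c k3 (.l (.s k68 k119 4 (.s k204 k136 9 (.s k221 k238 4 (.s k253 k169
  13 (.s k205 k237 3 (.s k69 k137 9 (.d k207 k138 k206 10 0)))))))) .n)) (.c k51 (.q k1 [(.s k3 k2 0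
  (.s k87 k171 13 (.s k86 k84 0 (.d k169 k253 k252 13 14)))), (.s k68 k119 4 (.s k204 k136 9 (.s
  k221 k238 4 (.s k253 k169 13 (.s k205 k237 3 (.s k69 k137 9 (.d k207 k138 k206 10 0))))))), (.s k3
  k2 0 (.s k68 k119 4 (.s k204 k136 9 (.s k70 k137 10 (.s k86 k118 3 (.d k87 k84 k171 0 13))))))]
  (.c k171 (.l (.s k3 k2 0 (.s k68 k119 4 (.s k169 k253 13 (.s k86 k252 14 (.s k204 k136 9 (.d k70
  k118 k137 3 10))))))) .n)) (.c k68 (.q k93 [(.s k89 k81 1 (.s k12 k174 12 (.s k166 k243 14 (.d k4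
  k8 k247 1 12)))), (.s k89 k81 1 (.s k76 k115 6 (.s k127 k110 4 (.s k63 k191 7 (.s k21 k42 6 (.s
  k149 k213 7 (.d k106 k64 k192 6 14)))))))] (.c k81 (.l (.s k12 k174 12 (.s k4 k8 1 (.s k166 k247
  12 (.s k38 k230 7 (.s k51 k25 6 (.s k17 k34 4 (.d k153 k221 k204 9 14)))))))) (.c k89 (.f k12 k174
  12 (.q k166 [(.d k4 k8 k247 1 12), (.s k38 k230 7 (.s k51 k25 6 (.s k17 k34 4 (.d k153 k221 k204 9
  14))))] (.c k8 (.q k251 [(.d k247 k243 k4 1 12), (.s k38 k230 7 (.s k51 k25 6 (.s k17 k34 4 (.d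
  k153 k221 k204 9 14))))] .n) (.c k251 (.l (.s k8 k4 1 (.s k38 k230 7 (.s k51 k25 6 (.s k17 k34 4
  (.d k153 k221 k204 9 14)))))) .n)))) .n))) (.c k119 (.q k81 [(.s k89 k93 1 (.s k243 k162 12 (.s
  k247 k251 1 (.d k166 k4 k12 12 14)))), (.s k89 k93 1 (.s k115 k76 6 (.s k64 k98 4 (.s k192 k128 7
  (.s k213 k234 6 (.s k149 k21 7 (.d k106 k127 k63 6 14)))))))] (.c k89 (.f k243 k162 12 (.q k166
  [(.d k247 k251 k4 1 12), (.s k230 k38 7 (.s k204 k217 6 (.s k153 k51 14 (.d k221 k238 k17 4 9))))]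
  (.c k8 (.l (.s k251 k247 1 (.s k230 k38 7 (.s k204 k217 6 (.s k153 k51 14 (.d k221 k238 k17 4
  9)))))) (.c k251 (.q k8 [(.d k4 k12 k247 1 12), (.s k230 k38 7 (.s k204 k217 6 (.s k221 k238 4 (.d
  k153 k17 k51 9 14))))] .n) .n)))) (.c k93 (.l (.s k243 k162 12 (.s k247 k251 1 (.s k166 k4 12 (.s
  k230 k38 7 (.s k204 k217 6 (.s k153 k51 14 (.d k221 k238 k17 4 9)))))))) .n))) (.c k136 (.l (.s
  k119 k68 4 (.s k51 k187 9 (.s k153 k204 14 (.d k17 k34 k221 4 9))))) (.c k153 (.f k119 k68 4 (.q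
  k103 [(.s k71 k87 3 (.s k101 k100 0 (.s k117 k69 3 (.d k116 k118 k86 0 4)))), (.s k87 k71 3 (.s k3
  k171 13 (.s k1 k2 0 (.s k169 k253 13 (.d k86 k84 k252 0 14))))), (.s k101 k100 0 (.s k69 k117 3
  (.s k207 k138 10 (.d k51 k187 k155 9 13))))] (.c k69 (.l (.s k71 k87 3 (.s k101 k100 0 (.s k116
  k86 4 (.s k117 k118 0 (.s k48 k186 10 (.s k16 k32 3 (.d k154 k223 k207 10 14)))))))) (.c k84 (.l
  (.s k71 k87 3 (.s k101 k100 0 (.s k116 k86 4 (.d k117 k118 k69 0 3))))) (.c k136 (.l (.s k187 k51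
  9 (.s k71 k87 3 (.s k101 k100 0 (.s k116 k86 4 (.d k117 k118 k69 0 3)))))) (.c k187 (.q k136 [(.s
  k71 k87 3 (.s k101 k100 0 (.s k117 k69 3 (.d k116 k118 k86 0 4)))), (.s k87 k71 3 (.s k3 k171 13
  (.s k1 k2 0 (.s k169 k253 13 (.d k86 k84 k252 0 14))))), (.s k101 k100 0 (.s k69 k117 3 (.s k207
  k138 10 (.s k154 k48 14 (.d k223 k239 k16 3 10)))))] (.c k69 (.l (.s k71 k87 3 (.s k101 k100 0 (.s
  k116 k86 4 (.s k117 k118 0 (.s k48 k186 10 (.s k16 k32 3 (.d k154 k223 k207 10 14)))))))) (.c k84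
  (.l (.s k71 k87 3 (.s k101 k100 0 (.s k116 k86 4 (.d k117 k118 k69 0 3))))) .n))) .n)))))) (.c
  k187 (.l (.s k68 k119 4 (.s k204 k136 9 (.s k153 k51 14 (.d k221 k238 k17 4 9))))) (.c k204 (.q k1
  [(.s k3 k2 0 (.s k87 k171 13 (.s k86 k84 0 (.d k169 k253 k252 13 14)))), (.s k119 k68 4 (.s k51
  k187 9 (.s k17 k34 4 (.s k49 k33 3 (.s k253 k169 13 (.s k117 k185 9 (.d k48 k186 k50 10 0))))))),
  (.s k3 k2 0 (.s k119 k68 4 (.s k51 k187 9 (.s k17 k34 4 (.s k19 k35 3 (.s k18 k16 0 (.d k33 k49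
  k48 3 4)))))))] .n) (.c k221 (.q k1 [(.s k3 k2 0 (.s k87 k171 13 (.s k86 k84 0 (.d k169 k253 k252
  13 14)))), (.s k68 k119 4 (.s k169 k253 13 (.s k204 k136 9 (.s k153 k51 14 (.s k137 k185 3 (.s k70
  k3 10 (.d k69 k205 k71 9 0))))))), (.s k3 k2 0 (.s k68 k119 4 (.s k204 k136 9 (.s k70 k137 10 (.s
  k86 k118 3 (.d k87 k84 k171 0 13))))))] (.c k3 (.l (.s k119 k68 4 (.s k51 k187 9 (.s k17 k34 4 (.s
  k49 k33 3 (.s k48 k50 0 (.s k117 k186 10 (.d k253 k185 k169 9 13)))))))) .n)) (.c k238 (.l (.s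
  k119 k68 4 (.s k51 k187 9 (.s k17 k34 4 (.d k153 k221 k204 9 14))))) .n))))))))))))

def t6_189 : T TT 256 :=
  (.f k255 k170 14 (.q k105 [(.s k65 k125 5 (.s k195 k130 8 (.s k150 k60 14 (.d k215 k235 k20 5
  8)))), (.s k125 k65 5 (.s k60 k190 8 (.s k20 k40 5 (.d k150 k215 k195 8 14))))] (.c k20 (.q k1
  [(.s k65 k125 5 (.s k193 k129 7 (.s k61 k149 13 (.s k169 k253 13 (.d k41 k21 k233 5 7))))), (.s k3
  k2 0 (.s k87 k171 13 (.s k86 k84 0 (.d k169 k253 k252 13 14))))] (.c k169 (.l (.s k3 k2 0 (.s k65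
  k125 5 (.s k129 k193 7 (.s k66 k192 8 (.s k67 k64 0 (.d k195 k131 k130 7 8))))))) (.c k253 (.l (.s
  k3 k2 0 (.s k87 k171 13 (.s k86 k84 0 (.s k67 k124 6 (.s k195 k131 7 (.d k65 k125 k130 5 8)))))))
  .n))) (.c k60 (.q k1 [(.s k3 k2 0 (.s k87 k171 13 (.s k86 k84 0 (.d k169 k253 k252 13 14)))), (.s
  k65 k125 5 (.s k193 k129 7 (.s k61 k149 13 (.s k169 k253 13 (.d k41 k21 k233 5 7)))))] (.c k169
  (.l (.s k3 k2 0 (.s k65 k125 5 (.s k129 k193 7 (.s k66 k192 8 (.s k67 k64 0 (.d k195 k131 k130 7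
  8))))))) (.c k253 (.l (.s k3 k2 0 (.s k87 k171 13 (.s k86 k84 0 (.s k67 k124 6 (.s k195 k131 7 (.d
  k65 k125 k130 5 8))))))) .n))) (.c k65 (.q k64 [(.s k106 k127 6 (.s k192 k128 7 (.s k213 k234 6
  (.d k149 k21 k63 7 14)))), (.s k106 k127 6 (.s k104 k107 0 (.s k84 k124 5 (.s k252 k168 13 (.s
  k253 k254 0 (.s k169 k1 13 (.d k86 k87 k3 0 14)))))))] (.c k106 (.f k192 k128 7 (.q k149 [(.d k213
  k234 k21 6 7), (.s k193 k61 13 (.s k195 k194 0 (.s k150 k60 14 (.d k215 k235 k20 5 8))))] (.c k42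
  (.l (.s k234 k213 6 (.s k193 k61 13 (.s k195 k194 0 (.s k150 k60 14 (.d k215 k235 k20 5 8))))))
  (.c k234 (.q k42 [(.d k21 k63 k213 6 7), (.s k193 k61 13 (.s k195 k194 0 (.s k215 k235 5 (.d k150
  k20 k60 8 14))))] .n) .n)))) (.c k127 (.l (.s k192 k128 7 (.s k213 k234 6 (.s k149 k21 7 (.s k193
  k61 13 (.s k195 k194 0 (.s k150 k60 14 (.d k215 k235 k20 5 8)))))))) .n))) (.c k125 (.q k169 [(.s
  k253 k1 13 (.s k252 k254 0 (.s k84 k168 13 (.d k86 k87 k3 0 14)))), (.s k233 k41 7 (.s k253 k1 13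
  (.s k213 k193 5 (.s k192 k234 6 (.s k64 k128 7 (.s k106 k127 6 (.d k149 k21 k63 7 14)))))))] (.c
  k1 (.q k253 [(.s k252 k254 0 (.s k84 k168 13 (.d k86 k87 k3 0 14))), (.s k233 k41 7 (.s k213 k193
  5 (.s k192 k234 6 (.s k64 k128 7 (.s k106 k127 6 (.d k149 k21 k63 7 14))))))] .n) (.c k61 (.l (.s
  k253 k1 13 (.s k252 k254 0 (.s k84 k168 13 (.d k86 k87 k3 0 14))))) (.c k253 (.q k61 [(.s k41 k233
  7 (.s k21 k1 5 (.d k149 k213 k193 7 13))), (.s k149 k193 13 (.s k213 k21 7 (.s k192 k234 6 (.s k64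
  k128 7 (.d k106 k127 k63 6 14)))))] (.c k21 (.q k1 [(.s k3 k2 0 (.s k87 k171 13 (.d k86 k84 k252 0
  14))), (.s k193 k149 13 (.s k65 k129 7 (.s k195 k130 8 (.s k150 k60 14 (.d k215 k235 k20 5 8)))))]
  .n) (.c k149 (.l (.s k41 k233 7 (.s k1 k21 5 (.s k3 k2 0 (.s k86 k252 14 (.d k87 k84 k171 0
  13)))))) (.c k193 (.q k21 [(.d k41 k233 k1 7 5), (.s k63 k42 6 (.s k60 k62 0 (.s k150 k195 14 (.d
  k20 k40 k215 5 8))))] (.c k213 (.l (.s k233 k41 7 (.s k63 k42 6 (.s k60 k62 0 (.s k150 k195 14 (.d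
  k20 k40 k215 5 8)))))) (.c k233 (.l (.s k213 k149 7 (.s k1 k41 5 (.s k3 k2 0 (.s k86 k252 14 (.d
  k87 k84 k171 0 13)))))) .n))) (.c k213 (.l (.s k41 k233 7 (.s k193 k149 13 (.s k1 k21 5 (.s k3 k2
  0 (.s k86 k252 14 (.d k87 k84 k171 0 13))))))) (.c k233 (.l (.s k149 k193 13 (.s k213 k21 7 (.s
  k192 k234 6 (.s k64 k128 7 (.d k106 k127 k63 6 14)))))) .n)))))) .n)))) (.c k130 (.l (.s k125 k65
  5 (.s k60 k190 8 (.s k150 k195 14 (.d k20 k40 k215 5 8))))) (.c k150 (.f k125 k65 5 (.f k190 k60 8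
  (.q k86 [(.s k84 k87 0 (.s k124 k67 6 (.s k64 k104 5 (.d k127 k126 k106 0 6)))), (.s k84 k87 0 (.s
  k252 k168 13 (.s k169 k3 14 (.d k253 k254 k1 0 13)))), (.s k124 k67 6 (.s k127 k126 0 (.s k63 k191
  7 (.s k21 k42 6 (.s k149 k213 7 (.d k106 k64 k192 6 14))))))] .n))) (.c k190 (.l (.s k65 k125 5
  (.s k195 k130 8 (.s k150 k60 14 (.d k215 k235 k20 5 8))))) (.c k195 (.q k1 [(.s k3 k2 0 (.s k87
  k171 13 (.s k86 k84 0 (.d k169 k253 k252 13 14)))), (.s k65 k125 5 (.s k193 k129 7 (.s k61 k149 13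
  (.s k169 k253 13 (.d k41 k21 k233 5 7))))), (.s k3 k2 0 (.s k125 k65 5 (.s k60 k190 8 (.s k40 k20
  5 (.s k41 k22 6 (.s k21 k61 5 (.d k42 k43 k63 0 6)))))))] .n) (.c k215 (.q k1 [(.s k3 k2 0 (.s k87
  k171 13 (.s k86 k84 0 (.d k169 k253 k252 13 14)))), (.s k65 k125 5 (.s k193 k129 7 (.s k61 k149 13
  (.s k169 k253 13 (.d k41 k21 k233 5 7)))))] (.c k169 (.l (.s k3 k2 0 (.s k65 k125 5 (.s k129 k193
  7 (.s k66 k192 8 (.s k67 k64 0 (.d k195 k131 k130 7 8))))))) (.c k253 (.l (.s k3 k2 0 (.s k87 k171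
  13 (.s k86 k84 0 (.s k67 k124 6 (.s k195 k131 7 (.d k65 k125 k130 5 8))))))) .n))) .n)))))))))))

def t6_190 : T TT 256 :=
  (.q k86 [(.s k84 k87 0 (.s k252 k168 13 (.s k3 k169 14 (.s k2 k1 0 (.d k170 k254 k255 13 14)))))]
  (.c k1 (.q k4 [(.s k12 k8 1 (.s k166 k247 12 (.s k89 k243 14 (.s k93 k81 1 (.d k255 k174 k170 12
  14))))), (.s k84 k87 0 (.s k244 k164 11 (.s k165 k7 12 (.s k245 k5 11 (.d k247 k246 k166 0
  12))))), (.s k12 k8 1 (.s k84 k87 0 (.s k164 k244 11 (.s k88 k240 13 (.s k92 k80 1 (.d k252 k172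
  k168 11 13))))))] .n) (.c k2 (.l (.s k84 k87 0 (.s k252 k168 13 (.s k169 k3 14 (.s k253 k1 13 (.d
  k255 k254 k170 0 14)))))) (.c k3 (.q k12 [(.s k4 k8 1 (.s k166 k247 12 (.s k89 k243 14 (.s k93 k81
  1 (.d k255 k174 k170 12 14))))), (.s k4 k8 1 (.s k84 k87 0 (.s k164 k244 11 (.s k88 k240 13 (.s
  k92 k80 1 (.d k252 k172 k168 11 13)))))), (.s k84 k87 0 (.s k252 k168 13 (.s k92 k172 11 (.s k89
  k83 2 (.s k81 k93 1 (.d k243 k162 k166 12 14))))))] (.c k255 (.f k4 k8 1 (.f k166 k247 12 (.f k243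
  k89 14 (.l (.s k162 k81 12 (.s k170 k174 1 (.s k2 k254 13 (.s k242 k82 11 (.s k240 k241 0 (.s k80
  k160 11 (.d k90 k14 k95 13 2))))))))))) .n)) (.c k84 (.q k15 [(.s k5 k10 2 (.s k165 k245 11 (.s
  k90 k240 14 (.s k95 k80 2 (.d k255 k175 k170 11 14))))), (.s k5 k10 2 (.s k165 k245 11 (.s k7 k244
  12 (.s k3 k11 1 (.s k169 k252 14 (.d k1 k2 k253 0 13)))))), (.s k170 k255 14 (.s k2 k254 13 (.s k3
  k1 0 (.s k7 k11 1 (.s k165 k244 12 (.s k160 k175 2 (.d k240 k80 k90 11 14)))))))] (.c k2 (.l (.s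
  k10 k5 2 (.s k170 k255 14 (.s k90 k250 11 (.s k80 k95 2 (.d k240 k160 k165 11 14)))))) (.c k165
  (.l (.s k10 k5 2 (.s k170 k255 14 (.s k2 k254 13 (.s k3 k1 0 (.s k90 k250 11 (.s k94 k82 1 (.d
  k252 k173 k169 12 14)))))))) (.c k240 (.l (.s k5 k10 2 (.s k165 k245 11 (.s k7 k244 12 (.s k3 k11
  1 (.s k2 k1 0 (.d k170 k255 k254 14 13))))))) .n)))) (.c k87 (.q k15 [(.s k5 k10 2 (.s k165 k245
  11 (.s k90 k240 14 (.s k95 k80 2 (.d k255 k175 k170 11 14))))), (.s k5 k10 2 (.s k165 k245 11 (.s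
  k7 k244 12 (.s k3 k11 1 (.s k169 k252 14 (.d k1 k2 k253 0 13)))))), (.s k170 k255 14 (.s k2 k254
  13 (.s k3 k1 0 (.s k7 k11 1 (.s k165 k244 12 (.s k160 k175 2 (.d k240 k80 k90 11 14)))))))] (.c k2
  (.l (.s k10 k5 2 (.s k170 k255 14 (.s k90 k250 11 (.s k80 k95 2 (.d k240 k160 k165 11 14)))))) (.c
  k165 (.l (.s k10 k5 2 (.s k170 k255 14 (.s k2 k254 13 (.s k3 k1 0 (.s k90 k250 11 (.s k94 k82 1
  (.d k252 k173 k169 12 14)))))))) (.c k240 (.l (.s k5 k10 2 (.s k165 k245 11 (.s k7 k244 12 (.s k3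
  k11 1 (.s k2 k1 0 (.d k170 k255 k254 14 13))))))) .n)))) (.c k168 (.l (.s k87 k84 0 (.s k255 k170
  14 (.s k3 k171 13 (.s k169 k252 14 (.d k1 k2 k253 0 13)))))) (.c k169 (.q k4 [(.s k12 k8 1 (.s
  k166 k247 12 (.s k89 k243 14 (.s k93 k81 1 (.d k255 k174 k170 12 14))))), (.s k84 k87 0 (.s k244
  k164 11 (.s k165 k7 12 (.s k245 k5 11 (.d k247 k246 k166 0 12))))), (.s k12 k8 1 (.s k84 k87 0 (.s
  k164 k244 11 (.s k88 k240 13 (.s k92 k80 1 (.d k252 k172 k168 11 13))))))] .n) (.c k170 (.q k150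
  [(.s k20 k215 8 (.s k22 k214 7 (.s k23 k21 0 (.s k84 k87 0 (.d k212 k148 k149 7 8))))), (.s k84
  k87 0 (.s k214 k22 7 (.s k252 k168 13 (.s k195 k233 6 (.s k65 k130 8 (.d k105 k125 k60 5 14)))))),
  (.s k20 k215 8 (.s k60 k40 5 (.s k84 k87 0 (.s k105 k195 14 (.s k124 k67 6 (.d k252 k188 k168 7
  13)))))), (.s k20 k215 8 (.s k22 k214 7 (.s k60 k40 5 (.s k3 k41 6 (.s k1 k2 0 (.d k169 k253 k252
  13 14))))))] .n) (.c k171 (.l (.s k84 k87 0 (.s k252 k168 13 (.s k3 k169 14 (.s k170 k255 14 (.d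
  k2 k1 k254 0 13)))))) (.c k252 (.q k8 [(.s k170 k255 14 (.s k89 k251 12 (.s k81 k93 1 (.s k243
  k162 12 (.d k12 k4 k166 1 14))))), (.s k4 k12 1 (.s k84 k87 0 (.s k244 k164 11 (.s k165 k7 12 (.s
  k245 k5 11 (.d k247 k246 k166 0 12)))))), (.s k84 k87 0 (.s k170 k255 14 (.s k89 k251 12 (.s k92
  k83 2 (.s k80 k88 1 (.s k93 k81 1 (.d k95 k94 k90 0 2)))))))] (.c k247 (.l (.s k12 k4 1 (.s k170
  k255 14 (.s k89 k251 12 (.s k243 k166 14 (.d k81 k93 k162 1 12)))))) .n)) (.c k254 (.l (.s k87 k84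
  0 (.s k255 k170 14 (.s k3 k171 13 (.s k1 k2 0 (.d k169 k253 k252 13 14)))))) (.c k255 (.q k60 [(.s
  k20 k40 5 (.s k84 k87 0 (.s k148 k212 7 (.s k104 k192 13 (.s k124 k64 5 (.d k252 k188 k168 7
  13)))))), (.s k20 k40 5 (.s k150 k215 8 (.s k22 k214 7 (.s k3 k41 6 (.s k1 k2 0 (.d k169 k253 k252
  13 14)))))), (.s k84 k87 0 (.s k252 k168 13 (.s k124 k188 7 (.s k105 k67 6 (.s k65 k125 5 (.d k195
  k130 k150 8 14)))))), (.s k20 k40 5 (.s k87 k84 0 (.s k215 k150 8 (.s k23 k151 7 (.s k21 k22 0 (.d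
  k149 k213 k212 7 8))))))] .n) .n)))))))))))))

def t6_191 : T TT 256 :=
  (.q k86 [(.s k84 k87 0 (.s k252 k168 13 (.s k3 k169 14 (.s k2 k1 0 (.d k170 k254 k255 13 14)))))]
  (.c k1 (.q k4 [(.s k12 k8 1 (.s k166 k247 12 (.s k89 k243 14 (.s k93 k81 1 (.d k255 k174 k170 12
  14))))), (.s k84 k87 0 (.s k244 k164 11 (.s k165 k7 12 (.s k245 k5 11 (.d k247 k246 k166 0
  12))))), (.s k12 k8 1 (.s k84 k87 0 (.s k164 k244 11 (.s k88 k240 13 (.s k92 k80 1 (.d k252 k172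
  k168 11 13))))))] .n) (.c k2 (.l (.s k84 k87 0 (.s k252 k168 13 (.s k169 k3 14 (.s k253 k1 13 (.d
  k255 k254 k170 0 14)))))) (.c k3 (.q k12 [(.s k4 k8 1 (.s k166 k247 12 (.s k89 k243 14 (.s k93 k81
  1 (.d k255 k174 k170 12 14))))), (.s k4 k8 1 (.s k84 k87 0 (.s k164 k244 11 (.s k88 k240 13 (.s
  k92 k80 1 (.d k252 k172 k168 11 13)))))), (.s k84 k87 0 (.s k252 k168 13 (.s k92 k172 11 (.s k89
  k83 2 (.s k81 k93 1 (.d k243 k162 k166 12 14))))))] (.c k255 (.f k4 k8 1 (.f k87 k84 0 (.q k63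
  [(.s k21 k42 6 (.s k29 k46 4 (.s k25 k17 1 (.d k38 k55 k51 4 6)))), (.s k46 k29 4 (.s k166 k247 12
  (.s k106 k226 9 (.s k64 k127 6 (.d k192 k128 k149 7 14))))), (.s k21 k42 6 (.s k149 k213 7 (.s k23
  k212 8 (.s k20 k22 0 (.d k215 k151 k150 7 8)))))] .n))) .n)) (.c k84 (.q k15 [(.s k5 k10 2 (.s
  k165 k245 11 (.s k90 k240 14 (.s k95 k80 2 (.d k255 k175 k170 11 14))))), (.s k5 k10 2 (.s k165
  k245 11 (.s k7 k244 12 (.s k3 k11 1 (.s k169 k252 14 (.d k1 k2 k253 0 13)))))), (.s k170 k255 14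
  (.s k2 k254 13 (.s k3 k1 0 (.s k7 k11 1 (.s k165 k244 12 (.s k160 k175 2 (.d k240 k80 k90 11
  14)))))))] (.c k2 (.l (.s k10 k5 2 (.s k170 k255 14 (.s k90 k250 11 (.s k80 k95 2 (.d k240 k160
  k165 11 14)))))) (.c k165 (.l (.s k10 k5 2 (.s k170 k255 14 (.s k2 k254 13 (.s k3 k1 0 (.s k90
  k250 11 (.s k94 k82 1 (.d k252 k173 k169 12 14)))))))) (.c k240 (.l (.s k5 k10 2 (.s k165 k245 11
  (.s k7 k244 12 (.s k3 k11 1 (.s k2 k1 0 (.d k170 k255 k254 14 13))))))) .n)))) (.c k87 (.q k15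
  [(.s k5 k10 2 (.s k165 k245 11 (.s k90 k240 14 (.s k95 k80 2 (.d k255 k175 k170 11 14))))), (.s k5
  k10 2 (.s k165 k245 11 (.s k7 k244 12 (.s k3 k11 1 (.s k169 k252 14 (.d k1 k2 k253 0 13)))))), (.s
  k170 k255 14 (.s k2 k254 13 (.s k3 k1 0 (.s k7 k11 1 (.s k165 k244 12 (.s k160 k175 2 (.d k240 k80
  k90 11 14)))))))] (.c k2 (.l (.s k10 k5 2 (.s k170 k255 14 (.s k90 k250 11 (.s k80 k95 2 (.d k240
  k160 k165 11 14)))))) (.c k165 (.l (.s k10 k5 2 (.s k170 k255 14 (.s k2 k254 13 (.s k3 k1 0 (.s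
  k90 k250 11 (.s k94 k82 1 (.d k252 k173 k169 12 14)))))))) (.c k240 (.l (.s k5 k10 2 (.s k165 k245
  11 (.s k7 k244 12 (.s k3 k11 1 (.s k2 k1 0 (.d k170 k255 k254 14 13))))))) .n)))) (.c k168 (.l (.s
  k87 k84 0 (.s k255 k170 14 (.s k3 k171 13 (.s k169 k252 14 (.d k1 k2 k253 0 13)))))) (.c k169 (.q
  k4 [(.s k12 k8 1 (.s k166 k247 12 (.s k89 k243 14 (.s k93 k81 1 (.d k255 k174 k170 12 14))))), (.s
  k84 k87 0 (.s k244 k164 11 (.s k165 k7 12 (.s k245 k5 11 (.d k247 k246 k166 0 12))))), (.s k12 k8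
  1 (.s k84 k87 0 (.s k164 k244 11 (.s k88 k240 13 (.s k92 k80 1 (.d k252 k172 k168 11 13))))))] .n)
  (.c k170 (.q k149 [(.s k84 k87 0 (.s k212 k23 8 (.s k20 k148 7 (.s k213 k21 7 (.d k215 k214 k150 0
  8))))), (.s k21 k213 7 (.s k63 k42 6 (.s k84 k87 0 (.s k106 k192 14 (.s k126 k66 5 (.d k252 k189
  k168 8 13)))))), (.s k21 k213 7 (.s k23 k212 8 (.s k63 k42 6 (.s k3 k43 5 (.s k1 k2 0 (.d k169
  k253 k252 13 14)))))), (.s k84 k87 0 (.s k212 k23 8 (.s k252 k168 13 (.s k192 k232 5 (.s k64 k128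
  7 (.d k106 k127 k63 6 14))))))] .n) (.c k171 (.l (.s k84 k87 0 (.s k252 k168 13 (.s k3 k169 14 (.s
  k170 k255 14 (.d k2 k1 k254 0 13)))))) (.c k252 (.q k8 [(.s k170 k255 14 (.s k89 k251 12 (.s k81
  k93 1 (.s k243 k162 12 (.d k12 k4 k166 1 14))))), (.s k4 k12 1 (.s k84 k87 0 (.s k244 k164 11 (.s
  k165 k7 12 (.s k245 k5 11 (.d k247 k246 k166 0 12)))))), (.s k84 k87 0 (.s k170 k255 14 (.s k89
  k251 12 (.s k92 k83 2 (.s k80 k88 1 (.s k93 k81 1 (.d k95 k94 k90 0 2)))))))] (.c k247 (.l (.s k12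
  k4 1 (.s k170 k255 14 (.s k89 k251 12 (.s k243 k166 14 (.d k81 k93 k162 1 12)))))) .n)) (.c k254
  (.l (.s k87 k84 0 (.s k255 k170 14 (.s k3 k171 13 (.s k1 k2 0 (.d k169 k253 k252 13 14)))))) (.c
  k255 (.q k63 [(.s k21 k42 6 (.s k84 k87 0 (.s k149 k213 7 (.s k192 k106 14 (.s k252 k168 13 (.d
  k212 k232 k23 5 8)))))), (.s k84 k87 0 (.s k252 k168 13 (.s k126 k189 8 (.s k106 k66 5 (.s k64
  k127 6 (.d k192 k128 k149 7 14)))))), (.s k21 k42 6 (.s k87 k84 0 (.s k149 k213 7 (.s k23 k212 8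
  (.s k20 k22 0 (.d k215 k151 k150 7 8)))))), (.s k21 k42 6 (.s k149 k213 7 (.s k23 k212 8 (.s k3
  k43 5 (.s k1 k2 0 (.d k169 k253 k252 13 14))))))] (.c k149 (.f k21 k42 6 (.l (.s k84 k87 0 (.s
  k252 k168 13 (.s k3 k169 14 (.s k1 k2 0 (.s k23 k43 5 (.s k22 k20 0 (.d k41 k61 k60 5 6)))))))))
  (.c k192 (.l (.s k21 k42 6 (.s k84 k87 0 (.s k252 k168 13 (.s k3 k169 14 (.s k23 k43 5 (.d k149
  k213 k212 7 8))))))) .n))) .n)))))))))))))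

def t6_240 : T TT 256 :=
  (.f k255 k170 14 (.q k105 [(.s k65 k125 5 (.s k195 k130 8 (.s k215 k235 5 (.d k150 k20 k60 8
  14))))] (.c k20 (.q k1 [(.s k3 k2 0 (.s k87 k171 13 (.s k169 k253 13 (.d k86 k84 k252 0 14)))),
  (.s k65 k125 5 (.s k169 k253 13 (.s k41 k233 7 (.s k61 k21 5 (.d k193 k129 k149 7 13))))), (.s k3
  k2 0 (.s k65 k125 5 (.s k129 k193 7 (.s k66 k192 8 (.s k67 k64 0 (.d k195 k131 k130 7 8))))))] .n)
  (.c k60 (.f k65 k125 5 (.q k169 [(.s k1 k253 13 (.s k41 k233 7 (.s k61 k21 5 (.d k193 k129 k149 7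
  13)))), (.s k195 k130 8 (.s k233 k41 7 (.s k252 k214 6 (.s k84 k168 13 (.d k86 k3 k87 14 0))))),
  (.s k1 k253 13 (.s k3 k2 0 (.s k86 k252 14 (.d k87 k84 k171 0 13))))] (.c k120 (.q k180 [(.s k1
  k253 13 (.s k41 k233 7 (.s k61 k21 5 (.d k193 k129 k149 7 13)))), (.s k195 k130 8 (.s k233 k41 7
  (.s k252 k214 6 (.s k84 k168 13 (.d k86 k3 k87 14 0))))), (.s k1 k253 13 (.s k3 k2 0 (.s k86 k252
  14 (.d k87 k84 k171 0 13))))] .n) (.c k180 (.q k120 [(.s k1 k253 13 (.s k41 k233 7 (.s k61 k21 5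
  (.d k193 k129 k149 7 13)))), (.s k90 k75 4 (.s k233 k41 7 (.s k248 k11 12 (.s k56 k184 7 (.d k203
  k218 k154 4 12))))), (.s k1 k253 13 (.s k3 k2 0 (.s k86 k252 14 (.d k87 k84 k171 0 13))))] .n)
  .n)))) (.c k65 (.q k64 [(.s k106 k127 6 (.s k192 k128 7 (.s k213 k234 6 (.d k149 k21 k63 7 14)))),
  (.s k106 k127 6 (.s k104 k107 0 (.s k84 k124 5 (.s k252 k168 13 (.s k253 k254 0 (.s k169 k1 13 (.d
  k86 k87 k3 0 14)))))))] (.c k106 (.f k192 k128 7 (.q k149 [(.d k213 k234 k21 6 7), (.s k193 k61 13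
  (.s k195 k194 0 (.s k150 k60 14 (.d k215 k235 k20 5 8))))] (.c k42 (.l (.s k234 k213 6 (.s k193
  k61 13 (.s k195 k194 0 (.s k150 k60 14 (.d k215 k235 k20 5 8)))))) (.c k234 (.q k42 [(.d k21 k63
  k213 6 7), (.s k193 k61 13 (.s k195 k194 0 (.s k215 k235 5 (.d k150 k20 k60 8 14))))] .n) .n))))
  (.c k127 (.l (.s k192 k128 7 (.s k213 k234 6 (.s k149 k21 7 (.s k193 k61 13 (.s k195 k194 0 (.s
  k150 k60 14 (.d k215 k235 k20 5 8)))))))) .n))) (.c k125 (.q k253 [(.s k169 k1 13 (.s k252 k254 0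
  (.s k84 k168 13 (.d k86 k87 k3 0 14)))), (.s k169 k1 13 (.s k233 k41 7 (.s k213 k193 5 (.s k192
  k234 6 (.s k64 k128 7 (.s k106 k127 6 (.d k149 k21 k63 7 14)))))))] (.c k1 (.l (.s k252 k254 0 (.s
  k84 k168 13 (.s k86 k87 0 (.s k124 k67 6 (.s k60 k188 7 (.s k20 k40 5 (.d k150 k215 k195 8
  14)))))))) (.c k169 (.f k252 k254 0 (.q k86 [(.d k84 k168 k87 13 0), (.s k124 k67 6 (.s k60 k188 7
  (.s k20 k40 5 (.d k150 k215 k195 8 14))))] (.c k168 (.q k171 [(.d k87 k84 k3 0 13), (.s k124 k67 6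
  (.s k60 k188 7 (.s k20 k40 5 (.d k150 k215 k195 8 14))))] .n) (.c k171 (.l (.s k168 k84 13 (.s
  k124 k67 6 (.s k60 k188 7 (.s k20 k40 5 (.d k150 k215 k195 8 14)))))) .n)))) .n))) (.c k130 (.l
  (.s k125 k65 5 (.s k60 k190 8 (.s k150 k195 14 (.d k20 k40 k215 5 8))))) (.c k150 (.f k125 k65 5
  (.q k61 [(.s k149 k193 13 (.s k21 k213 7 (.s k1 k41 5 (.d k253 k189 k169 7 13)))), (.s k253 k189 7
  (.s k169 k1 13 (.s k252 k254 0 (.s k84 k168 13 (.d k86 k87 k3 0 14))))), (.s k149 k193 13 (.s k213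
  k21 7 (.s k192 k234 6 (.s k64 k128 7 (.d k106 k127 k63 6 14))))), (.s k189 k253 7 (.s k190 k60 8
  (.s k191 k188 0 (.s k63 k127 7 (.s k21 k42 6 (.d k149 k213 k193 7 13))))))] (.c k130 (.l (.s k190
  k60 8 (.s k149 k193 13 (.s k21 k213 7 (.s k1 k41 5 (.d k253 k189 k169 7 13)))))) (.c k190 (.q k130
  [(.s k149 k193 13 (.s k21 k213 7 (.s k1 k41 5 (.d k253 k189 k169 7 13)))), (.s k253 k189 7 (.s
  k252 k254 0 (.s k84 k168 13 (.s k86 k87 0 (.d k169 k1 k3 13 14))))), (.s k149 k193 13 (.s k213 k21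
  7 (.s k192 k234 6 (.s k64 k128 7 (.d k106 k127 k63 6 14)))))] (.c k1 (.l (.s k189 k253 7 (.s k149
  k193 13 (.s k129 k169 5 (.s k213 k21 7 (.s k192 k234 6 (.d k128 k131 k64 0 7))))))) .n)) (.c k193
  (.l (.s k253 k189 7 (.s k1 k169 13 (.s k3 k2 0 (.s k41 k21 5 (.d k60 k22 k190 6 8)))))) .n)))))
  (.c k190 (.l (.s k65 k125 5 (.s k195 k130 8 (.s k150 k60 14 (.d k215 k235 k20 5 8))))) (.c k195
  (.f k65 k125 5 (.q k1 [(.s k169 k253 13 (.s k193 k129 7 (.s k61 k149 13 (.d k41 k21 k233 5 7)))),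
  (.s k3 k2 0 (.s k87 k171 13 (.s k86 k84 0 (.s k67 k124 6 (.s k64 k66 0 (.d k127 k107 k106 5
  6))))))] (.c k169 (.l (.s k193 k129 7 (.s k149 k61 13 (.s k21 k213 7 (.s k63 k42 6 (.s k106 k192
  14 (.d k127 k64 k191 6 7))))))) (.c k210 (.q k225 [(.s k169 k253 13 (.s k193 k129 7 (.s k61 k149
  13 (.d k41 k21 k233 5 7)))), (.s k3 k2 0 (.s k87 k171 13 (.s k86 k84 0 (.d k169 k253 k252 13
  14)))), (.s k165 k45 9 (.s k5 k245 11 (.s k13 k9 1 (.s k193 k129 7 (.d k241 k209 k89 3 13)))))]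
  .n) (.c k225 (.q k210 [(.s k169 k253 13 (.s k193 k129 7 (.s k61 k149 13 (.d k41 k21 k233 5 7)))),
  (.s k3 k2 0 (.s k87 k171 13 (.s k86 k84 0 (.s k67 k124 6 (.s k64 k66 0 (.d k127 k107 k106 5
  6))))))] (.c k169 (.l (.s k193 k129 7 (.s k149 k61 13 (.s k21 k213 7 (.s k63 k42 6 (.s k106 k192
  14 (.d k127 k64 k191 6 7))))))) .n)) .n))))) (.c k215 (.q k1 [(.s k3 k2 0 (.s k87 k171 13 (.s k86
  k84 0 (.d k169 k253 k252 13 14)))), (.s k65 k125 5 (.s k169 k253 13 (.s k41 k233 7 (.s k61 k21 5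
  (.d k193 k129 k149 7 13))))), (.s k3 k2 0 (.s k65 k125 5 (.s k129 k193 7 (.s k66 k192 8 (.s k67
  k64 0 (.d k195 k131 k130 7 8))))))] .n) (.c k235 (.l (.s k125 k65 5 (.s k60 k190 8 (.s k20 k40 5
  (.d k150 k215 k195 8 14))))) .n))))))))))))

def t6_241 : T TT 256 :=
  (.f k255 k170 14 (.q k106 [(.s k64 k127 6 (.s k192 k128 7 (.s k149 k63 14 (.d k213 k234 k21 6
  7))))] (.c k21 (.q k1 [(.s k3 k2 0 (.s k87 k171 13 (.s k86 k84 0 (.d k169 k253 k252 13 14)))), (.s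
  k64 k127 6 (.s k169 k253 13 (.s k192 k128 7 (.s k149 k63 14 (.s k129 k189 5 (.s k65 k193 7 (.d k66
  k67 k3 0 8))))))), (.s k3 k2 0 (.s k64 k127 6 (.s k192 k128 7 (.s k66 k129 8 (.s k86 k126 5 (.d
  k87 k84 k171 0 13))))))] (.c k3 (.l (.s k64 k127 6 (.s k192 k128 7 (.s k213 k234 6 (.s k253 k169
  13 (.s k193 k233 5 (.s k65 k129 7 (.d k195 k130 k194 8 0)))))))) .n)) (.c k63 (.q k1 [(.s k3 k2 0
  (.s k87 k171 13 (.s k86 k84 0 (.d k169 k253 k252 13 14)))), (.s k64 k127 6 (.s k192 k128 7 (.s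
  k213 k234 6 (.s k253 k169 13 (.s k193 k233 5 (.s k65 k129 7 (.d k195 k130 k194 8 0))))))), (.s k3
  k2 0 (.s k64 k127 6 (.s k192 k128 7 (.s k66 k129 8 (.s k86 k126 5 (.d k87 k84 k171 0 13))))))] (.c
  k171 (.l (.s k3 k2 0 (.s k64 k127 6 (.s k169 k253 13 (.s k86 k252 14 (.s k192 k128 7 (.d k66 k126
  k129 5 8))))))) .n)) (.c k64 (.q k60 [(.s k20 k40 5 (.s k125 k190 8 (.s k150 k215 8 (.d k105 k65
  k195 5 14)))), (.s k20 k40 5 (.s k150 k215 8 (.s k62 k194 13 (.s k63 k61 0 (.s k21 k42 6 (.d k149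
  k213 k192 7 14)))))), (.s k125 k190 8 (.s k105 k65 5 (.s k104 k107 0 (.s k192 k148 13 (.s k149 k63
  14 (.d k213 k234 k21 6 7))))))] (.c k105 (.q k87 [(.s k3 k171 13 (.s k86 k84 0 (.s k169 k252 14
  (.d k1 k2 k253 0 13)))), (.s k86 k84 0 (.s k126 k66 5 (.s k190 k125 8 (.s k62 k254 7 (.s k150 k194
  13 (.d k20 k40 k215 5 8)))))), (.s k3 k171 13 (.s k2 k1 0 (.s k22 k41 6 (.s k42 k62 5 (.s k21 k63
  6 (.d k20 k40 k23 5 0))))))] (.c k2 (.l (.s k3 k171 13 (.s k22 k41 6 (.s k86 k84 0 (.s k150 k214 7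
  (.d k20 k40 k215 5 8)))))) (.c k40 (.q k235 [(.s k3 k171 13 (.s k86 k84 0 (.s k169 k252 14 (.d k1
  k2 k253 0 13)))), (.s k3 k171 13 (.s k22 k41 6 (.s k215 k195 5 (.s k20 k150 8 (.d k23 k21 k151 0
  7))))), (.s k86 k84 0 (.s k126 k66 5 (.s k190 k125 8 (.s k62 k254 7 (.s k150 k194 13 (.d k215 k195
  k20 5 8))))))] .n) (.c k235 (.l (.s k40 k20 5 (.s k3 k171 13 (.s k1 k2 0 (.s k86 k84 0 (.d k169
  k253 k252 13 14)))))) .n)))) (.c k150 (.q k149 [(.s k21 k213 7 (.d k63 k42 k192 6 14)), (.s k63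
  k192 14 (.s k61 k62 0 (.s k105 k193 13 (.d k125 k190 k65 8 5))))] (.c k63 (.l (.s k213 k21 7 (.s
  k192 k234 6 (.s k104 k148 13 (.s k105 k107 0 (.d k125 k65 k190 5 8)))))) (.c k130 (.l (.s k190
  k125 8 (.s k21 k213 7 (.d k63 k42 k192 6 14)))) (.c k190 (.q k130 [(.s k21 k213 7 (.d k63 k42 k192
  6 14)), (.s k63 k192 14 (.s k61 k62 0 (.s k65 k195 8 (.d k105 k193 k125 13 5))))] (.c k63 (.l (.s
  k65 k195 8 (.s k105 k125 5 (.s k213 k21 7 (.s k192 k234 6 (.d k104 k107 k148 0 13)))))) (.c k192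
  (.l (.s k21 k213 7 (.s k63 k42 6 (.s k61 k62 0 (.s k65 k195 8 (.d k105 k193 k125 13 5)))))) .n)))
  (.c k192 (.l (.s k21 k213 7 (.s k63 k42 6 (.s k61 k62 0 (.s k105 k193 13 (.d k125 k65 k190 5
  8)))))) .n))))) .n))) (.c k127 (.q k195 [(.s k65 k130 8 (.s k215 k235 5 (.s k150 k20 8 (.d k105
  k125 k60 5 14)))), (.s k65 k130 8 (.s k105 k125 5 (.s k107 k104 0 (.s k63 k151 13 (.s k21 k42 6
  (.d k149 k213 k192 7 14)))))), (.s k215 k235 5 (.s k150 k20 8 (.s k194 k62 13 (.s k192 k193 0 (.s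
  k149 k63 14 (.d k213 k234 k21 6 7))))))] (.c k105 (.q k81 [(.s k89 k93 1 (.s k243 k162 12 (.s k247
  k251 1 (.d k166 k4 k12 12 14)))), (.s k65 k130 8 (.s k97 k113 3 (.s k48 k146 12 (.s k32 k16 3 (.d
  k162 k227 k243 8 12)))))] (.c k40 (.l (.s k235 k215 5 (.s k89 k93 1 (.s k243 k162 12 (.s k166 k12
  14 (.d k247 k251 k4 1 12)))))) (.c k162 (.l (.s k65 k130 8 (.s k89 k93 1 (.s k97 k113 3 (.s k146
  k48 12 (.s k211 k16 8 (.s k150 k28 10 (.d k215 k20 k235 8 5)))))))) (.c k235 (.q k40 [(.s k89 k93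
  1 (.s k243 k162 12 (.s k166 k12 14 (.d k247 k251 k4 1 12)))), (.s k20 k60 5 (.s k150 k215 8 (.s
  k194 k62 13 (.s k192 k193 0 (.s k213 k234 6 (.d k149 k63 k21 14 7))))))] .n) (.c k243 (.l (.s k65
  k130 8 (.s k93 k89 1 (.s k12 k174 12 (.s k8 k4 1 (.s k73 k134 10 (.s k69 k77 1 (.d k138 k203 k207
  8 10)))))))) .n))))) (.c k150 (.q k199 [(.s k207 k203 1 (.s k69 k138 10 (.s k101 k117 3 (.s k154
  k48 14 (.d k223 k239 k16 3 10))))), (.s k207 k203 1 (.s k215 k235 5 (.s k223 k239 3 (.s k219 k211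
  1 (.d k231 k247 k243 3 5))))), (.s k207 k203 1 (.s k69 k138 10 (.s k4 k134 8 (.s k215 k235 5 (.d
  k247 k166 k231 12 3))))), (.s k215 k235 5 (.s k247 k231 3 (.s k4 k166 12 (.s k12 k8 1 (.d k134 k69
  k73 8 10)))))] (.c k130 (.q k190 [(.s k207 k203 1 (.s k69 k138 10 (.s k101 k117 3 (.s k154 k48 14
  (.d k223 k239 k16 3 10))))), (.s k207 k203 1 (.s k215 k235 5 (.s k223 k239 3 (.s k219 k211 1 (.d
  k231 k247 k243 3 5))))), (.s k215 k235 5 (.s k247 k231 3 (.s k4 k166 12 (.s k12 k8 1 (.d k134 k69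
  k73 8 10))))), (.s k125 k60 8 (.s k65 k105 5 (.s k207 k203 1 (.s k69 k138 10 (.s k73 k77 1 (.d
  k134 k4 k12 8 10))))))] .n) (.c k190 (.l (.s k130 k65 8 (.s k207 k203 1 (.s k69 k138 10 (.s k4
  k134 8 (.s k215 k235 5 (.d k247 k166 k231 12 3))))))) .n))) .n))) (.c k128 (.l (.s k127 k64 6 (.s
  k63 k191 7 (.s k149 k192 14 (.d k21 k42 k213 6 7))))) (.c k149 (.f k127 k64 6 (.q k89 [(.s k81 k93
  1 (.s k123 k72 4 (.s k243 k162 12 (.d k63 k191 k183 7 9)))), (.s k123 k72 4 (.s k119 k115 1 (.s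
  k51 k187 9 (.s k17 k34 4 (.s k153 k221 9 (.d k102 k68 k204 4 14)))))), (.s k81 k93 1 (.s k243 k162
  12 (.s k166 k12 14 (.d k247 k251 k4 1 12))))] (.c k81 (.l (.s k123 k72 4 (.s k115 k119 1 (.s k76
  k102 6 (.s k93 k110 4 (.s k12 k174 12 (.s k4 k8 1 (.d k166 k247 k243 12 14)))))))) (.c k128 (.l
  (.s k191 k63 7 (.s k81 k93 1 (.s k243 k162 12 (.s k166 k12 14 (.d k247 k251 k4 1 12)))))) (.c k191
  (.q k128 [(.s k81 k93 1 (.s k243 k162 12 (.s k247 k251 1 (.d k166 k4 k12 12 14)))), (.s k123 k72 4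
  (.s k119 k115 1 (.s k51 k187 9 (.s k17 k34 4 (.s k153 k221 9 (.d k102 k68 k204 4 14))))))] (.c k81
  (.l (.s k123 k72 4 (.s k115 k119 1 (.s k76 k102 6 (.s k93 k110 4 (.s k12 k174 12 (.s k4 k8 1 (.d
  k166 k247 k243 12 14)))))))) .n)) .n))))) (.c k191 (.l (.s k64 k127 6 (.s k192 k128 7 (.s k149 k63
  14 (.d k213 k234 k21 6 7))))) (.c k192 (.q k1 [(.s k3 k2 0 (.s k87 k171 13 (.s k86 k84 0 (.d k169
  k253 k252 13 14)))), (.s k127 k64 6 (.s k63 k191 7 (.s k21 k42 6 (.s k61 k41 5 (.s k253 k169 13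
  (.s k125 k189 7 (.d k60 k190 k62 8 0))))))), (.s k3 k2 0 (.s k127 k64 6 (.s k63 k191 7 (.s k21 k42
  6 (.s k23 k43 5 (.s k22 k20 0 (.d k41 k61 k60 5 6)))))))] .n) (.c k213 (.q k1 [(.s k3 k2 0 (.s k87
  k171 13 (.s k86 k84 0 (.d k169 k253 k252 13 14)))), (.s k64 k127 6 (.s k169 k253 13 (.s k192 k128
  7 (.s k149 k63 14 (.s k129 k189 5 (.s k66 k3 8 (.d k65 k193 k67 7 0))))))), (.s k3 k2 0 (.s k64
  k127 6 (.s k192 k128 7 (.s k66 k129 8 (.s k86 k126 5 (.d k87 k84 k171 0 13))))))] (.c k3 (.l (.s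
  k127 k64 6 (.s k63 k191 7 (.s k21 k42 6 (.s k61 k41 5 (.s k60 k62 0 (.s k125 k190 8 (.d k253 k189
  k169 7 13)))))))) .n)) (.c k234 (.l (.s k127 k64 6 (.s k63 k191 7 (.s k21 k42 6 (.d k149 k213 k192
  7 14))))) .n))))))))))))

def t6_242 : T TT 256 :=
  (.f k255 k170 14 (.q k106 [(.s k64 k127 6 (.s k192 k128 7 (.s k149 k63 14 (.d k213 k234 k21 6
  7))))] (.c k21 (.q k1 [(.s k127 k64 6 (.s k63 k191 7 (.s k169 k253 13 (.s k43 k232 8 (.d k3 k2 k23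
  0 5))))), (.s k3 k2 0 (.s k87 k171 13 (.s k86 k84 0 (.d k169 k253 k252 13 14)))), (.s k64 k127 6
  (.s k192 k128 7 (.s k213 k234 6 (.s k253 k169 13 (.s k193 k233 5 (.s k65 k129 7 (.d k195 k130 k194
  8 0))))))), (.s k3 k2 0 (.s k64 k127 6 (.s k192 k128 7 (.s k66 k129 8 (.s k86 k126 5 (.d k87 k84
  k171 0 13))))))] .n) (.c k63 (.q k1 [(.s k3 k2 0 (.s k87 k171 13 (.s k86 k84 0 (.d k169 k253 k252
  13 14)))), (.s k64 k127 6 (.s k192 k128 7 (.s k213 k234 6 (.s k253 k169 13 (.s k193 k233 5 (.s k65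
  k129 7 (.d k195 k130 k194 8 0))))))), (.s k3 k2 0 (.s k64 k127 6 (.s k192 k128 7 (.s k66 k129 8
  (.s k86 k126 5 (.d k87 k84 k171 0 13))))))] (.c k171 (.l (.s k3 k2 0 (.s k64 k127 6 (.s k169 k253
  13 (.s k86 k252 14 (.s k192 k128 7 (.d k66 k126 k129 5 8))))))) .n)) (.c k64 (.q k207 [(.s k69
  k138 10 (.s k101 k117 3 (.s k154 k48 14 (.d k223 k239 k16 3 10)))), (.s k69 k138 10 (.s k101 k117
  3 (.s k111 k96 2 (.s k63 k159 11 (.s k21 k42 6 (.d k149 k213 k192 7 14)))))), (.s k223 k239 3 (.s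
  k154 k16 10 (.s k202 k58 11 (.s k192 k197 2 (.s k149 k63 14 (.d k213 k234 k21 6 7))))))] (.c k101
  (.q k81 [(.s k89 k93 1 (.s k243 k162 12 (.s k247 k251 1 (.d k166 k4 k12 12 14)))), (.s k69 k138 10
  (.s k93 k89 1 (.s k12 k174 12 (.s k77 k142 8 (.s k65 k73 1 (.d k125 k105 k109 5 3)))))), (.s k239
  k223 3 (.s k243 k162 12 (.s k231 k219 5 (.s k235 k227 1 (.s k215 k195 5 (.d k247 k251 k199 1
  3))))))] (.c k32 (.l (.s k239 k223 3 (.s k89 k93 1 (.s k243 k162 12 (.s k166 k12 14 (.d k247 k251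
  k4 1 12)))))) (.c k162 (.l (.s k93 k89 1 (.s k174 k12 12 (.s k239 k223 3 (.s k109 k44 8 (.s k60
  k158 12 (.d k125 k77 k190 3 8))))))) (.c k166 (.l (.s k69 k138 10 (.s k93 k89 1 (.s k12 k174 12
  (.s k162 k243 12 (.s k77 k142 8 (.s k65 k73 1 (.d k125 k105 k109 5 3)))))))) (.c k174 (.l (.s k89
  k93 1 (.s k243 k162 12 (.s k166 k12 14 (.d k247 k251 k4 1 12))))) (.c k239 (.q k32 [(.s k89 k93 1
  (.s k243 k162 12 (.s k247 k251 1 (.d k166 k4 k12 12 14)))), (.s k16 k48 3 (.s k211 k146 8 (.s k223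
  k154 10 (.s k219 k215 1 (.d k243 k231 k162 5 12))))), (.s k16 k48 3 (.s k89 k93 1 (.s k154 k223 10
  (.s k24 k219 8 (.s k28 k20 1 (.d k211 k146 k150 8 10))))))] .n) (.c k251 (.l (.s k89 k93 1 (.s
  k243 k162 12 (.s k219 k231 5 (.s k154 k24 8 (.d k223 k239 k16 3 10)))))) .n))))))) (.c k154 (.q
  k81 [(.s k89 k93 1 (.s k243 k162 12 (.s k247 k251 1 (.d k166 k4 k12 12 14)))), (.s k93 k89 1 (.s
  k223 k239 3 (.s k158 k28 8 (.s k60 k109 12 (.s k190 k125 8 (.d k174 k142 k12 3 12)))))), (.s k223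
  k239 3 (.s k243 k162 12 (.s k219 k231 5 (.s k215 k211 1 (.s k235 k195 5 (.d k251 k247 k203 1
  3))))))] (.c k138 (.q k186 [(.s k89 k93 1 (.s k243 k162 12 (.s k247 k251 1 (.d k166 k4 k12 12
  14)))), (.s k48 k117 10 (.s k16 k32 3 (.s k146 k211 8 (.s k97 k195 12 (.s k113 k65 3 (.d k243 k178
  k162 8 12)))))), (.s k89 k93 1 (.s k117 k48 10 (.s k101 k69 3 (.s k113 k77 5 (.s k65 k97 3 (.d
  k125 k121 k105 1 5))))))] .n) (.c k174 (.l (.s k89 k93 1 (.s k243 k162 12 (.s k166 k12 14 (.d k247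
  k251 k4 1 12))))) (.c k186 (.l (.s k138 k69 10 (.s k89 k93 1 (.s k243 k162 12 (.s k166 k12 14 (.d
  k247 k251 k4 1 12)))))) (.c k251 (.l (.s k89 k93 1 (.s k123 k72 4 (.s k243 k162 12 (.s k63 k183 9
  (.s k21 k42 6 (.d k149 k213 k192 7 14))))))) .n))))) .n))) (.c k127 (.q k195 [(.s k65 k130 8 (.s
  k215 k235 5 (.s k150 k20 8 (.d k105 k125 k60 5 14)))), (.s k65 k130 8 (.s k105 k125 5 (.s k107
  k104 0 (.s k63 k151 13 (.s k21 k42 6 (.d k149 k213 k192 7 14)))))), (.s k215 k235 5 (.s k150 k20 8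
  (.s k194 k62 13 (.s k192 k193 0 (.s k149 k63 14 (.d k213 k234 k21 6 7))))))] (.c k105 (.q k149
  [(.s k21 k213 7 (.d k63 k42 k192 6 14)), (.s k63 k192 14 (.s k151 k107 13 (.s k150 k148 0 (.d k215
  k235 k20 5 8))))] (.c k40 (.l (.s k235 k215 5 (.s k21 k213 7 (.d k63 k42 k192 6 14)))) (.c k63 (.l
  (.s k213 k21 7 (.s k192 k234 6 (.s k194 k193 0 (.s k150 k62 13 (.d k215 k235 k20 5 8)))))) (.c
  k192 (.l (.s k21 k213 7 (.s k63 k42 6 (.s k151 k107 13 (.s k150 k148 0 (.d k215 k235 k20 5 8))))))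
  (.c k235 (.q k40 [(.s k21 k213 7 (.d k63 k42 k192 6 14)), (.s k20 k60 5 (.s k63 k192 14 (.s k150
  k215 8 (.d k151 k148 k107 0 13))))] (.c k63 (.l (.s k20 k60 5 (.s k150 k215 8 (.s k213 k21 7 (.s
  k192 k234 6 (.d k194 k62 k193 13 0)))))) (.c k192 (.l (.s k20 k60 5 (.s k21 k213 7 (.s k63 k42 6
  (.s k150 k215 8 (.d k151 k148 k107 0 13)))))) .n))) .n))))) (.c k150 (.q k149 [(.s k21 k213 7 (.d
  k63 k42 k192 6 14)), (.s k63 k192 14 (.s k107 k151 13 (.s k105 k104 0 (.d k65 k130 k125 8 5))))]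
  (.c k63 (.l (.s k213 k21 7 (.s k192 k234 6 (.s k193 k194 0 (.s k105 k61 13 (.d k65 k125 k130 5
  8)))))) (.c k130 (.q k190 [(.s k21 k213 7 (.d k63 k42 k192 6 14)), (.s k63 k192 14 (.s k107 k151
  13 (.s k105 k104 0 (.d k125 k60 k65 8 5))))] (.c k63 (.l (.s k125 k60 8 (.s k105 k65 5 (.s k213
  k21 7 (.s k192 k234 6 (.d k193 k61 k194 13 0)))))) (.c k192 (.l (.s k21 k213 7 (.s k63 k42 6 (.s
  k107 k151 13 (.s k105 k104 0 (.d k125 k60 k65 8 5)))))) .n))) (.c k190 (.l (.s k130 k65 8 (.s k21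
  k213 7 (.d k63 k42 k192 6 14)))) (.c k192 (.l (.s k21 k213 7 (.s k63 k42 6 (.s k107 k151 13 (.s
  k105 k104 0 (.d k65 k125 k130 5 8)))))) .n))))) .n))) (.c k128 (.l (.s k127 k64 6 (.s k63 k191 7
  (.s k149 k192 14 (.d k21 k42 k213 6 7))))) (.c k149 (.f k127 k64 6 (.q k122 [(.s k90 k74 3 (.s k95
  k80 2 (.s k79 k111 3 (.d k112 k117 k101 2 6)))), (.s k90 k74 3 (.s k80 k95 2 (.s k240 k160 11 (.d
  k63 k191 k181 7 10)))), (.s k117 k112 2 (.s k48 k186 10 (.s k16 k32 3 (.s k154 k223 10 (.d k101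
  k69 k207 3 14)))))] (.c k69 (.l (.s k112 k117 2 (.s k90 k74 3 (.s k79 k101 6 (.d k95 k80 k111 2
  3))))) (.c k80 (.l (.s k90 k74 3 (.s k112 k117 2 (.s k79 k101 6 (.s k95 k111 3 (.s k15 k175 11 (.s
  k5 k10 2 (.d k165 k245 k240 11 14)))))))) (.c k128 (.l (.s k191 k63 7 (.s k90 k74 3 (.s k95 k80 2
  (.s k79 k111 3 (.d k112 k117 k101 2 6)))))) (.c k191 (.q k128 [(.s k90 k74 3 (.s k95 k80 2 (.s k79
  k111 3 (.d k112 k117 k101 2 6)))), (.s k117 k112 2 (.s k48 k186 10 (.s k16 k32 3 (.s k154 k223 10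
  (.d k101 k69 k207 3 14))))), (.s k90 k74 3 (.s k80 k95 2 (.s k240 k160 11 (.s k165 k15 14 (.d k245
  k250 k5 2 11)))))] (.c k69 (.l (.s k112 k117 2 (.s k90 k74 3 (.s k79 k101 6 (.d k95 k80 k111 2
  3))))) (.c k80 (.l (.s k90 k74 3 (.s k112 k117 2 (.s k79 k101 6 (.s k95 k111 3 (.s k15 k175 11 (.s
  k5 k10 2 (.d k165 k245 k240 11 14)))))))) .n))) .n)))))) (.c k191 (.l (.s k64 k127 6 (.s k192 k128
  7 (.s k149 k63 14 (.d k213 k234 k21 6 7))))) (.c k192 (.q k1 [(.s k3 k2 0 (.s k87 k171 13 (.s k86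
  k84 0 (.d k169 k253 k252 13 14)))), (.s k127 k64 6 (.s k63 k191 7 (.s k21 k42 6 (.s k61 k41 5 (.s
  k253 k169 13 (.s k125 k189 7 (.d k60 k190 k62 8 0))))))), (.s k3 k2 0 (.s k127 k64 6 (.s k63 k191
  7 (.s k21 k42 6 (.s k23 k43 5 (.s k22 k20 0 (.d k41 k61 k60 5 6)))))))] .n) (.c k213 (.q k1 [(.s
  k3 k2 0 (.s k87 k171 13 (.s k86 k84 0 (.d k169 k253 k252 13 14)))), (.s k64 k127 6 (.s k169 k253
  13 (.s k192 k128 7 (.s k149 k63 14 (.s k129 k189 5 (.s k66 k3 8 (.d k65 k193 k67 7 0))))))), (.s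
  k3 k2 0 (.s k64 k127 6 (.s k192 k128 7 (.s k66 k129 8 (.s k86 k126 5 (.d k87 k84 k171 0 13))))))]
  (.c k3 (.l (.s k127 k64 6 (.s k63 k191 7 (.s k21 k42 6 (.s k61 k41 5 (.s k60 k62 0 (.s k125 k190 8
  (.d k253 k189 k169 7 13)))))))) .n)) (.c k234 (.l (.s k127 k64 6 (.s k63 k191 7 (.s k21 k42 6 (.d
  k149 k213 k192 7 14))))) .n))))))))))))

def t6_243 : T TT 256 :=
  (.f k255 k170 14 (.q k105 [(.s k65 k125 5 (.s k195 k130 8 (.s k215 k235 5 (.d k150 k20 k60 8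
  14))))] (.c k20 (.q k1 [(.s k3 k2 0 (.s k87 k171 13 (.s k169 k253 13 (.d k86 k84 k252 0 14)))),
  (.s k65 k125 5 (.s k169 k253 13 (.s k41 k233 7 (.s k61 k21 5 (.d k193 k129 k149 7 13))))), (.s k3
  k2 0 (.s k65 k125 5 (.s k129 k193 7 (.s k66 k192 8 (.s k67 k64 0 (.d k195 k131 k130 7 8))))))] .n)
  (.c k60 (.f k65 k125 5 (.q k69 [(.s k77 k73 1 (.s k101 k117 3 (.s k97 k109 1 (.d k113 k81 k89 3
  5)))), (.s k207 k138 10 (.s k223 k239 3 (.s k154 k16 10 (.d k101 k117 k48 3 14)))), (.s k73 k77 1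
  (.s k138 k207 10 (.s k8 k203 8 (.s k12 k4 1 (.d k195 k130 k134 8 10)))))] (.c k121 (.q k182 [(.s
  k207 k138 10 (.s k223 k239 3 (.s k154 k16 10 (.d k101 k117 k48 3 14)))), (.s k77 k73 1 (.s k101
  k117 3 (.s k113 k89 5 (.d k97 k109 k81 1 3))))] (.c k101 (.l (.s k73 k77 1 (.s k138 k207 10 (.s k8
  k203 8 (.s k12 k4 1 (.d k195 k130 k134 8 10)))))) (.c k113 (.l (.s k117 k101 3 (.s k77 k73 1 (.s
  k207 k138 10 (.s k12 k142 8 (.s k247 k52 8 (.d k4 k8 k166 1 12))))))) (.c k117 (.q k113 [(.s k77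
  k73 1 (.s k81 k97 3 (.d k89 k93 k101 1 5))), (.s k97 k81 3 (.s k195 k130 8 (.s k48 k146 12 (.s
  k207 k138 10 (.d k101 k154 k109 14 1))))), (.s k73 k77 1 (.s k138 k207 10 (.s k8 k203 8 (.s k12 k4
  1 (.d k195 k130 k134 8 10)))))] .n) .n)))) (.c k182 (.q k121 [(.d k73 k77 k89 1 3), (.s k101 k117
  3 (.s k207 k138 10 (.s k154 k48 14 (.d k223 k239 k16 3 10))))] .n) (.c k207 (.l (.s k77 k73 1 (.s
  k101 k117 3 (.s k113 k89 5 (.d k97 k109 k81 1 3))))) .n))))) (.c k65 (.q k64 [(.s k106 k127 6 (.s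
  k192 k128 7 (.s k213 k234 6 (.d k149 k21 k63 7 14)))), (.s k106 k127 6 (.s k104 k107 0 (.s k84
  k124 5 (.s k252 k168 13 (.s k253 k254 0 (.s k169 k1 13 (.d k86 k87 k3 0 14)))))))] (.c k106 (.f
  k192 k128 7 (.q k149 [(.d k213 k234 k21 6 7), (.s k193 k61 13 (.s k195 k194 0 (.s k150 k60 14 (.d
  k215 k235 k20 5 8))))] (.c k42 (.l (.s k234 k213 6 (.s k193 k61 13 (.s k195 k194 0 (.s k150 k60 14
  (.d k215 k235 k20 5 8)))))) (.c k234 (.q k42 [(.d k21 k63 k213 6 7), (.s k193 k61 13 (.s k195 k194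
  0 (.s k215 k235 5 (.d k150 k20 k60 8 14))))] .n) .n)))) (.c k127 (.l (.s k192 k128 7 (.s k213 k234
  6 (.s k149 k21 7 (.s k193 k61 13 (.s k195 k194 0 (.s k150 k60 14 (.d k215 k235 k20 5 8))))))))
  .n))) (.c k125 (.q k253 [(.s k169 k1 13 (.s k252 k254 0 (.s k84 k168 13 (.d k86 k87 k3 0 14)))),
  (.s k169 k1 13 (.s k233 k41 7 (.s k213 k193 5 (.s k192 k234 6 (.s k64 k128 7 (.s k106 k127 6 (.d
  k149 k21 k63 7 14)))))))] (.c k1 (.l (.s k252 k254 0 (.s k84 k168 13 (.s k86 k87 0 (.s k124 k67 6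
  (.s k60 k188 7 (.s k20 k40 5 (.d k150 k215 k195 8 14)))))))) (.c k169 (.f k252 k254 0 (.q k86 [(.d
  k84 k168 k87 13 0), (.s k124 k67 6 (.s k60 k188 7 (.s k20 k40 5 (.d k150 k215 k195 8 14))))] (.c
  k168 (.q k171 [(.d k87 k84 k3 0 13), (.s k124 k67 6 (.s k60 k188 7 (.s k20 k40 5 (.d k150 k215
  k195 8 14))))] .n) (.c k171 (.l (.s k168 k84 13 (.s k124 k67 6 (.s k60 k188 7 (.s k20 k40 5 (.d
  k150 k215 k195 8 14)))))) .n)))) .n))) (.c k130 (.l (.s k125 k65 5 (.s k60 k190 8 (.s k150 k195 14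
  (.d k20 k40 k215 5 8))))) (.c k150 (.f k125 k65 5 (.q k149 [(.s k21 k213 7 (.s k61 k193 13 (.s k1
  k41 5 (.d k253 k189 k169 7 13)))), (.s k21 k213 7 (.s k63 k42 6 (.s k106 k192 14 (.d k127 k64 k191
  6 7)))), (.s k61 k193 13 (.s k253 k189 7 (.s k252 k254 0 (.s k84 k168 13 (.s k86 k87 0 (.d k169 k1
  k3 13 14))))))] (.c k130 (.l (.s k190 k60 8 (.s k21 k213 7 (.s k61 k193 13 (.s k1 k41 5 (.d k253
  k189 k169 7 13)))))) (.c k190 (.q k130 [(.s k21 k213 7 (.s k61 k193 13 (.s k1 k41 5 (.d k253 k189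
  k169 7 13)))), (.s k21 k213 7 (.s k63 k42 6 (.s k106 k192 14 (.d k127 k64 k191 6 7)))), (.s k61
  k193 13 (.s k253 k189 7 (.s k252 k254 0 (.s k84 k168 13 (.s k86 k87 0 (.d k169 k1 k3 13 14))))))]
  .n) .n)))) (.c k190 (.l (.s k65 k125 5 (.s k195 k130 8 (.s k150 k60 14 (.d k215 k235 k20 5 8)))))
  (.c k195 (.f k65 k125 5 (.q k1 [(.s k169 k253 13 (.s k193 k129 7 (.s k61 k149 13 (.d k41 k21 k233
  5 7)))), (.s k3 k2 0 (.s k87 k171 13 (.s k86 k84 0 (.s k67 k124 6 (.s k64 k66 0 (.d k127 k107 k106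
  5 6))))))] (.c k169 (.l (.s k193 k129 7 (.s k149 k61 13 (.s k21 k213 7 (.s k63 k42 6 (.s k106 k192
  14 (.d k127 k64 k191 6 7))))))) (.c k211 (.q k227 [(.s k169 k253 13 (.s k193 k129 7 (.s k61 k149
  13 (.d k41 k21 k233 5 7)))), (.s k3 k2 0 (.s k87 k171 13 (.s k86 k84 0 (.s k67 k124 6 (.s k64 k66
  0 (.d k127 k107 k106 5 6))))))] (.c k169 (.l (.s k193 k129 7 (.s k149 k61 13 (.s k21 k213 7 (.s
  k63 k42 6 (.s k106 k192 14 (.d k127 k64 k191 6 7))))))) .n)) (.c k227 (.q k211 [(.s k169 k253 13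
  (.s k193 k129 7 (.s k61 k149 13 (.d k41 k21 k233 5 7)))), (.s k3 k2 0 (.s k87 k171 13 (.s k86 k84
  0 (.s k67 k124 6 (.s k64 k66 0 (.d k127 k107 k106 5 6))))))] (.c k169 (.l (.s k193 k129 7 (.s k149
  k61 13 (.s k21 k213 7 (.s k63 k42 6 (.s k106 k192 14 (.d k127 k64 k191 6 7))))))) .n)) .n))))) (.c
  k215 (.q k1 [(.s k3 k2 0 (.s k87 k171 13 (.s k86 k84 0 (.d k169 k253 k252 13 14)))), (.s k65 k125
  5 (.s k169 k253 13 (.s k41 k233 7 (.s k61 k21 5 (.d k193 k129 k149 7 13))))), (.s k3 k2 0 (.s k65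
  k125 5 (.s k129 k193 7 (.s k66 k192 8 (.s k67 k64 0 (.d k195 k131 k130 7 8))))))] .n) (.c k235 (.l
  (.s k125 k65 5 (.s k60 k190 8 (.s k20 k40 5 (.d k150 k215 k195 8 14))))) .n))))))))))))

def t6_244 : T TT 256 :=
  (.f k255 k170 14 (.q k106 [(.s k64 k127 6 (.s k192 k128 7 (.s k149 k63 14 (.d k213 k234 k21 6
  7))))] (.c k21 (.q k1 [(.s k3 k2 0 (.s k87 k171 13 (.s k169 k253 13 (.d k86 k84 k252 0 14)))), (.s
  k64 k127 6 (.s k169 k253 13 (.s k192 k128 7 (.s k149 k63 14 (.s k129 k189 5 (.s k65 k193 7 (.d k66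
  k67 k3 0 8))))))), (.s k3 k2 0 (.s k64 k127 6 (.s k192 k128 7 (.s k66 k129 8 (.s k86 k126 5 (.d
  k87 k84 k171 0 13))))))] (.c k3 (.l (.s k64 k127 6 (.s k192 k128 7 (.s k213 k234 6 (.s k253 k169
  13 (.s k193 k233 5 (.s k65 k129 7 (.d k195 k130 k194 8 0)))))))) .n)) (.c k63 (.q k1 [(.s k3 k2 0
  (.s k87 k171 13 (.s k169 k253 13 (.d k86 k84 k252 0 14)))), (.s k64 k127 6 (.s k192 k128 7 (.s
  k213 k234 6 (.s k253 k169 13 (.s k193 k233 5 (.s k65 k129 7 (.d k195 k130 k194 8 0))))))), (.s k3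
  k2 0 (.s k64 k127 6 (.s k192 k128 7 (.s k66 k129 8 (.s k86 k126 5 (.d k87 k84 k171 0 13))))))] (.c
  k171 (.l (.s k3 k2 0 (.s k64 k127 6 (.s k169 k253 13 (.s k86 k252 14 (.s k192 k128 7 (.d k66 k126
  k129 5 8))))))) .n)) (.c k64 (.q k60 [(.s k20 k40 5 (.s k125 k190 8 (.s k150 k215 8 (.d k105 k65
  k195 5 14)))), (.s k20 k40 5 (.s k150 k215 8 (.s k62 k194 13 (.s k63 k61 0 (.s k21 k42 6 (.d k149
  k213 k192 7 14)))))), (.s k125 k190 8 (.s k105 k65 5 (.s k104 k107 0 (.s k192 k148 13 (.s k149 k63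
  14 (.d k213 k234 k21 6 7))))))] (.c k105 (.q k87 [(.s k3 k171 13 (.s k1 k2 0 (.s k169 k253 13 (.d
  k86 k84 k252 0 14)))), (.s k86 k84 0 (.s k126 k66 5 (.s k190 k125 8 (.s k62 k254 7 (.s k150 k194
  13 (.d k20 k40 k215 5 8)))))), (.s k3 k171 13 (.s k2 k1 0 (.s k22 k41 6 (.s k42 k62 5 (.s k21 k63
  6 (.d k20 k40 k23 5 0))))))] (.c k2 (.l (.s k3 k171 13 (.s k22 k41 6 (.s k86 k84 0 (.s k150 k214 7
  (.d k20 k40 k215 5 8)))))) (.c k40 (.q k235 [(.s k3 k171 13 (.s k1 k2 0 (.s k169 k253 13 (.d k86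
  k84 k252 0 14)))), (.s k86 k84 0 (.s k126 k66 5 (.s k190 k125 8 (.s k62 k254 7 (.s k150 k194 13
  (.d k215 k195 k20 5 8)))))), (.s k3 k171 13 (.s k22 k41 6 (.s k215 k195 5 (.s k20 k150 8 (.d k23
  k21 k151 0 7)))))] .n) (.c k235 (.l (.s k40 k20 5 (.s k3 k171 13 (.s k1 k2 0 (.s k86 k84 0 (.d
  k169 k253 k252 13 14)))))) .n)))) (.c k150 (.q k149 [(.s k21 k213 7 (.d k63 k42 k192 6 14)), (.s
  k63 k192 14 (.s k61 k62 0 (.s k105 k193 13 (.d k125 k190 k65 8 5))))] (.c k63 (.l (.s k213 k21 7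
  (.s k192 k234 6 (.s k104 k148 13 (.s k105 k107 0 (.d k125 k65 k190 5 8)))))) (.c k130 (.l (.s k190
  k125 8 (.s k21 k213 7 (.d k63 k42 k192 6 14)))) (.c k190 (.q k130 [(.s k21 k213 7 (.d k63 k42 k192
  6 14)), (.s k63 k192 14 (.s k61 k62 0 (.s k65 k195 8 (.d k105 k193 k125 13 5))))] (.c k63 (.l (.s
  k65 k195 8 (.s k105 k125 5 (.s k213 k21 7 (.s k192 k234 6 (.d k104 k107 k148 0 13)))))) (.c k192
  (.l (.s k21 k213 7 (.s k63 k42 6 (.s k61 k62 0 (.s k65 k195 8 (.d k105 k193 k125 13 5)))))) .n)))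
  (.c k192 (.l (.s k21 k213 7 (.s k63 k42 6 (.s k61 k62 0 (.s k105 k193 13 (.d k125 k65 k190 5
  8)))))) .n))))) .n))) (.c k127 (.q k195 [(.s k65 k130 8 (.s k215 k235 5 (.s k150 k20 8 (.d k105
  k125 k60 5 14)))), (.s k65 k130 8 (.s k105 k125 5 (.s k107 k104 0 (.s k63 k151 13 (.s k21 k42 6
  (.d k149 k213 k192 7 14)))))), (.s k215 k235 5 (.s k150 k20 8 (.s k194 k62 13 (.s k192 k193 0 (.s
  k149 k63 14 (.d k213 k234 k21 6 7))))))] (.c k105 (.q k81 [(.s k89 k93 1 (.s k243 k162 12 (.s k247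
  k251 1 (.d k166 k4 k12 12 14)))), (.s k65 k130 8 (.s k97 k113 3 (.s k48 k146 12 (.s k32 k16 3 (.d
  k162 k227 k243 8 12)))))] (.c k40 (.l (.s k235 k215 5 (.s k89 k93 1 (.s k243 k162 12 (.s k166 k12
  14 (.d k247 k251 k4 1 12)))))) (.c k162 (.l (.s k65 k130 8 (.s k89 k93 1 (.s k97 k113 3 (.s k146
  k48 12 (.s k211 k16 8 (.s k150 k28 10 (.d k215 k20 k235 8 5)))))))) (.c k235 (.q k40 [(.s k89 k93
  1 (.s k243 k162 12 (.s k166 k12 14 (.d k247 k251 k4 1 12)))), (.s k20 k60 5 (.s k150 k215 8 (.s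
  k194 k62 13 (.s k192 k193 0 (.s k213 k234 6 (.d k149 k63 k21 14 7))))))] .n) (.c k243 (.l (.s k65
  k130 8 (.s k93 k89 1 (.s k12 k174 12 (.s k8 k4 1 (.s k73 k134 10 (.s k69 k77 1 (.d k138 k203 k207
  8 10)))))))) .n))))) (.c k150 (.q k199 [(.s k207 k203 1 (.s k69 k138 10 (.s k101 k117 3 (.s k154
  k48 14 (.d k223 k239 k16 3 10))))), (.s k207 k203 1 (.s k215 k235 5 (.s k223 k239 3 (.s k219 k211
  1 (.d k231 k247 k243 3 5))))), (.s k207 k203 1 (.s k69 k138 10 (.s k4 k134 8 (.s k215 k235 5 (.d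
  k247 k166 k231 12 3))))), (.s k215 k235 5 (.s k247 k231 3 (.s k4 k166 12 (.s k12 k8 1 (.d k134 k69
  k73 8 10)))))] (.c k130 (.q k190 [(.s k207 k203 1 (.s k69 k138 10 (.s k101 k117 3 (.s k154 k48 14
  (.d k223 k239 k16 3 10))))), (.s k207 k203 1 (.s k215 k235 5 (.s k223 k239 3 (.s k219 k211 1 (.d
  k231 k247 k243 3 5))))), (.s k215 k235 5 (.s k247 k231 3 (.s k4 k166 12 (.s k12 k8 1 (.d k134 k69
  k73 8 10))))), (.s k125 k60 8 (.s k65 k105 5 (.s k207 k203 1 (.s k69 k138 10 (.s k73 k77 1 (.d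
  k134 k4 k12 8 10))))))] .n) (.c k190 (.l (.s k130 k65 8 (.s k207 k203 1 (.s k69 k138 10 (.s k4
  k134 8 (.s k215 k235 5 (.d k247 k166 k231 12 3))))))) .n))) .n))) (.c k128 (.l (.s k127 k64 6 (.s
  k63 k191 7 (.s k149 k192 14 (.d k21 k42 k213 6 7))))) (.c k149 (.f k64 k127 6 (.q k80 [(.s k90 k95
  2 (.s k74 k122 3 (.s k79 k69 2 (.d k112 k96 k101 3 6)))), (.s k240 k160 11 (.s k245 k250 2 (.s
  k165 k5 11 (.d k90 k95 k15 2 14)))), (.s k96 k112 3 (.s k160 k240 11 (.s k32 k224 7 (.s k48 k16 3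
  (.d k192 k128 k144 7 11)))))] (.c k128 (.q k191 [(.s k90 k95 2 (.s k74 k122 3 (.s k79 k69 2 (.d
  k112 k96 k101 3 6)))), (.s k240 k160 11 (.s k245 k250 2 (.s k165 k5 11 (.d k90 k95 k15 2 14)))),
  (.s k96 k112 3 (.s k160 k240 11 (.s k32 k224 7 (.s k48 k16 3 (.s k117 k186 10 (.d k101 k111 k69 2
  3))))))] .n) (.c k191 (.l (.s k128 k192 7 (.s k90 k95 2 (.s k74 k122 3 (.s k79 k69 2 (.d k112 k96
  k101 3 6)))))) .n)))) (.c k191 (.l (.s k64 k127 6 (.s k192 k128 7 (.s k149 k63 14 (.d k213 k234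
  k21 6 7))))) (.c k192 (.q k1 [(.s k3 k2 0 (.s k87 k171 13 (.s k169 k253 13 (.d k86 k84 k252 0
  14)))), (.s k127 k64 6 (.s k63 k191 7 (.s k21 k42 6 (.s k61 k41 5 (.s k253 k169 13 (.s k125 k189 7
  (.d k60 k190 k62 8 0))))))), (.s k3 k2 0 (.s k127 k64 6 (.s k63 k191 7 (.s k21 k42 6 (.s k23 k43 5
  (.s k22 k20 0 (.d k41 k61 k60 5 6)))))))] .n) (.c k213 (.q k1 [(.s k3 k2 0 (.s k87 k171 13 (.s k86
  k84 0 (.d k169 k253 k252 13 14)))), (.s k64 k127 6 (.s k169 k253 13 (.s k192 k128 7 (.s k149 k63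
  14 (.s k129 k189 5 (.s k66 k3 8 (.d k65 k193 k67 7 0))))))), (.s k3 k2 0 (.s k64 k127 6 (.s k192
  k128 7 (.s k66 k129 8 (.s k86 k126 5 (.d k87 k84 k171 0 13))))))] (.c k3 (.l (.s k127 k64 6 (.s
  k63 k191 7 (.s k21 k42 6 (.s k61 k41 5 (.s k60 k62 0 (.s k125 k190 8 (.d k253 k189 k169 7
  13)))))))) .n)) (.c k234 (.l (.s k127 k64 6 (.s k63 k191 7 (.s k21 k42 6 (.d k149 k213 k192 7
  14))))) .n))))))))))))

def t6_245 : T TT 256 :=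
  (.f k255 k170 14 (.q k106 [(.s k64 k127 6 (.s k192 k128 7 (.s k149 k63 14 (.d k213 k234 k21 6
  7))))] (.c k21 (.q k1 [(.s k3 k2 0 (.s k87 k171 13 (.s k86 k84 0 (.d k169 k253 k252 13 14)))), (.s
  k64 k127 6 (.s k169 k253 13 (.s k192 k128 7 (.s k149 k63 14 (.s k129 k189 5 (.s k65 k193 7 (.d k66
  k67 k3 0 8))))))), (.s k3 k2 0 (.s k64 k127 6 (.s k192 k128 7 (.s k66 k129 8 (.s k86 k126 5 (.d
  k87 k84 k171 0 13))))))] (.c k3 (.l (.s k64 k127 6 (.s k192 k128 7 (.s k213 k234 6 (.s k253 k169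
  13 (.s k193 k233 5 (.s k65 k129 7 (.d k195 k130 k194 8 0)))))))) .n)) (.c k63 (.q k1 [(.s k3 k2 0
  (.s k87 k171 13 (.s k86 k84 0 (.d k169 k253 k252 13 14)))), (.s k64 k127 6 (.s k192 k128 7 (.s
  k213 k234 6 (.s k253 k169 13 (.s k193 k233 5 (.s k65 k129 7 (.d k195 k130 k194 8 0))))))), (.s k3
  k2 0 (.s k64 k127 6 (.s k192 k128 7 (.s k66 k129 8 (.s k86 k126 5 (.d k87 k84 k171 0 13))))))] (.c
  k171 (.l (.s k3 k2 0 (.s k64 k127 6 (.s k169 k253 13 (.s k86 k252 14 (.s k192 k128 7 (.d k66 k126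
  k129 5 8))))))) .n)) (.c k64 (.q k60 [(.s k20 k40 5 (.s k125 k190 8 (.s k150 k215 8 (.d k105 k65
  k195 5 14)))), (.s k20 k40 5 (.s k150 k215 8 (.s k62 k194 13 (.s k63 k61 0 (.s k21 k42 6 (.d k149
  k213 k192 7 14)))))), (.s k125 k190 8 (.s k105 k65 5 (.s k104 k107 0 (.s k192 k148 13 (.s k149 k63
  14 (.d k213 k234 k21 6 7))))))] (.c k105 (.q k86 [(.s k84 k87 0 (.s k252 k168 13 (.s k253 k254 0
  (.d k169 k1 k3 13 14)))), (.s k126 k66 5 (.s k190 k125 8 (.s k62 k254 7 (.s k150 k194 13 (.d k20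
  k40 k215 5 8)))))] (.c k40 (.q k235 [(.s k84 k87 0 (.s k252 k168 13 (.s k253 k254 0 (.d k169 k1 k3
  13 14)))), (.s k126 k66 5 (.s k190 k125 8 (.s k62 k254 7 (.s k150 k194 13 (.d k215 k195 k20 5
  8)))))] (.c k254 (.l (.s k87 k84 0 (.s k3 k171 13 (.s k1 k2 0 (.d k169 k253 k252 13 14))))) .n))
  (.c k235 (.l (.s k40 k20 5 (.s k84 k87 0 (.s k252 k168 13 (.s k169 k3 14 (.d k253 k254 k1 0
  13)))))) (.c k254 (.l (.s k87 k84 0 (.s k3 k171 13 (.s k1 k2 0 (.d k169 k253 k252 13 14)))))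
  .n)))) (.c k150 (.q k87 [(.s k3 k171 13 (.s k86 k84 0 (.s k169 k252 14 (.d k1 k2 k253 0 13)))),
  (.s k3 k171 13 (.s k20 k40 5 (.s k22 k41 6 (.s k21 k23 0 (.s k149 k213 7 (.d k63 k42 k192 6
  14)))))), (.s k20 k40 5 (.s k84 k86 0 (.s k148 k212 7 (.s k104 k192 13 (.s k105 k107 0 (.d k125
  k190 k65 8 5))))))] (.c k130 (.l (.s k190 k125 8 (.s k3 k171 13 (.s k1 k2 0 (.s k86 k84 0 (.d k169
  k253 k252 13 14)))))) (.c k190 (.q k130 [(.s k3 k171 13 (.s k2 k1 0 (.s k66 k194 7 (.d k86 k84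
  k126 0 5)))), (.s k65 k195 8 (.s k105 k125 5 (.s k107 k104 0 (.s k67 k127 5 (.d k86 k84 k124 0
  6))))), (.s k3 k171 13 (.s k2 k1 0 (.s k20 k40 5 (.s k22 k41 6 (.s k21 k23 0 (.d k42 k62 k63 5
  6))))))] .n) .n))) .n))) (.c k127 (.q k207 [(.s k69 k138 10 (.s k223 k239 3 (.s k154 k16 10 (.d
  k101 k117 k48 3 14)))), (.s k69 k138 10 (.s k101 k117 3 (.s k111 k96 2 (.s k63 k159 11 (.s k21 k42
  6 (.d k149 k213 k192 7 14)))))), (.s k223 k239 3 (.s k154 k16 10 (.s k202 k58 11 (.s k192 k197 2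
  (.s k149 k63 14 (.d k213 k234 k21 6 7))))))] (.c k101 (.q k77 [(.s k12 k142 8 (.s k4 k8 1 (.s k93
  k174 12 (.s k89 k81 1 (.d k166 k247 k243 12 14))))), (.s k69 k138 10 (.s k65 k73 1 (.s k125 k105 5
  (.s k60 k190 8 (.d k109 k93 k158 3 12))))), (.s k12 k142 8 (.s k4 k8 1 (.s k69 k138 10 (.s k73 k65
  1 (.d k134 k199 k195 8 10))))), (.s k12 k142 8 (.s k69 k138 10 (.s k93 k174 12 (.s k125 k109 3 (.d
  k65 k105 k73 5 1)))))] (.c k32 (.l (.s k239 k223 3 (.s k12 k142 8 (.s k4 k8 1 (.s k69 k138 10 (.s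
  k73 k65 1 (.d k134 k199 k195 8 10))))))) (.c k239 (.q k32 [(.s k12 k142 8 (.s k4 k8 1 (.s k69 k138
  10 (.s k73 k65 1 (.d k134 k199 k195 8 10))))), (.s k12 k142 8 (.s k16 k48 3 (.s k93 k174 12 (.s
  k109 k125 3 (.s k158 k60 12 (.d k223 k28 k154 8 10)))))), (.s k69 k138 10 (.s k65 k73 1 (.s k125
  k105 5 (.s k60 k190 8 (.d k109 k93 k158 3 12)))))] (.c k154 (.l (.s k12 k142 8 (.s k4 k8 1 (.s k93
  k174 12 (.s k89 k81 1 (.d k166 k247 k243 12 14)))))) .n)) .n))) (.c k154 (.q k175 [(.s k239 k223 3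
  (.s k111 k47 7 (.s k101 k96 2 (.d k69 k138 k117 10 3)))), (.s k15 k95 11 (.s k10 k5 2 (.s k138 k69
  10 (.s k74 k202 7 (.s k133 k192 10 (.d k143 k79 k128 7 2)))))), (.s k95 k15 11 (.s k90 k80 2 (.s
  k223 k239 3 (.s k31 k159 7 (.s k149 k208 10 (.s k21 k213 7 (.d k63 k42 k192 6 14)))))))] (.c k138
  (.q k186 [(.s k117 k48 10 (.s k101 k69 3 (.s k239 k223 3 (.d k111 k96 k47 2 7)))), (.s k15 k95 11
  (.s k239 k223 3 (.s k111 k47 7 (.s k143 k79 7 (.d k159 k191 k63 3 11))))), (.s k15 k95 11 (.s k117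
  k48 10 (.s k101 k69 3 (.s k111 k96 2 (.s k143 k79 7 (.d k159 k191 k63 3 11))))))] (.c k111 (.l (.s
  k15 k95 11 (.s k79 k143 7 (.s k5 k10 2 (.s k117 k48 10 (.s k69 k101 3 (.s k74 k64 2 (.d k133 k197
  k192 7 10)))))))) .n)) (.c k186 (.l (.s k138 k69 10 (.s k15 k95 11 (.s k10 k5 2 (.s k74 k202 7 (.s
  k133 k192 10 (.d k143 k79 k128 7 2))))))) .n))) .n))) (.c k128 (.l (.s k127 k64 6 (.s k63 k191 7
  (.s k149 k192 14 (.d k21 k42 k213 6 7))))) (.c k149 (.f k127 k64 6 (.q k119 [(.s k102 k68 4 (.s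
  k110 k98 1 (.s k76 k93 4 (.d k115 k123 k89 1 6)))), (.s k51 k187 9 (.s k17 k34 4 (.s k153 k221 9
  (.s k59 k200 12 (.d k63 k191 k55 7 1)))))] (.c k102 (.l (.s k123 k115 1 (.s k89 k72 4 (.s k81 k93
  1 (.s k243 k162 12 (.d k63 k191 k183 7 9)))))) (.c k128 (.l (.s k191 k63 7 (.s k51 k187 9 (.s k17
  k34 4 (.s k102 k68 4 (.d k153 k221 k204 9 14)))))) (.c k191 (.q k128 [(.s k102 k68 4 (.s k110 k98
  1 (.s k76 k93 4 (.d k115 k123 k89 1 6)))), (.s k51 k187 9 (.s k17 k34 4 (.s k153 k221 9 (.d k102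
  k68 k204 4 14)))), (.s k123 k115 1 (.s k187 k51 9 (.s k251 k59 7 (.s k243 k247 1 (.s k81 k162 12
  (.d k89 k93 k72 1 4))))))] .n) .n))))) (.c k191 (.l (.s k64 k127 6 (.s k192 k128 7 (.s k149 k63 14
  (.d k213 k234 k21 6 7))))) (.c k192 (.q k1 [(.s k3 k2 0 (.s k87 k171 13 (.s k86 k84 0 (.d k169
  k253 k252 13 14)))), (.s k127 k64 6 (.s k63 k191 7 (.s k21 k42 6 (.s k61 k41 5 (.s k253 k169 13
  (.s k125 k189 7 (.d k60 k190 k62 8 0))))))), (.s k3 k2 0 (.s k127 k64 6 (.s k63 k191 7 (.s k21 k42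
  6 (.s k23 k43 5 (.s k22 k20 0 (.d k41 k61 k60 5 6)))))))] .n) (.c k213 (.f k64 k127 6 (.f k192
  k128 7 (.f k149 k63 14 (.q k197 [(.s k101 k53 11 (.s k207 k202 2 (.d k69 k117 k138 3 10))), (.s
  k207 k202 2 (.s k69 k138 10 (.s k74 k79 2 (.d k133 k5 k15 7 10)))), (.s k101 k53 11 (.s k96 k111 2
  (.s k48 k144 11 (.d k207 k202 k154 2 14)))), (.s k101 k53 11 (.s k117 k69 3 (.s k48 k186 10 (.d
  k96 k111 k144 2 11))))] .n)))) (.c k234 (.l (.s k127 k64 6 (.s k63 k191 7 (.s k21 k42 6 (.d k149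
  k213 k192 7 14))))) .n))))))))))))

def t6_246 : T TT 256 :=
  (.f k255 k170 14 (.q k86 [(.s k84 k87 0 (.s k252 k168 13 (.s k169 k3 14 (.d k253 k254 k1 0 13)))),
  (.s k87 k84 0 (.s k3 k171 13 (.s k169 k252 14 (.d k1 k2 k253 0 13))))] (.c k1 (.q k4 [(.s k12 k8 1
  (.s k93 k174 12 (.s k89 k81 1 (.d k166 k247 k243 12 14)))), (.s k84 k87 0 (.s k244 k164 11 (.s
  k165 k7 12 (.s k245 k5 11 (.s k240 k250 2 (.d k252 k248 k168 1 13))))))] (.c k247 (.l (.s k12 k8 1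
  (.s k84 k87 0 (.s k93 k174 12 (.s k89 k81 1 (.s k92 k83 2 (.d k252 k172 k168 11 13))))))) .n)) (.c
  k3 (.q k12 [(.s k4 k8 1 (.s k93 k174 12 (.s k89 k81 1 (.d k166 k247 k243 12 14)))), (.s k8 k4 1
  (.s k84 k87 0 (.s k168 k252 13 (.s k88 k248 11 (.s k80 k92 1 (.d k240 k160 k164 11 13)))))), (.s
  k84 k87 0 (.s k93 k174 12 (.s k89 k81 1 (.s k252 k168 13 (.d k92 k83 k172 2 11)))))] .n) (.c k84
  (.q k117 [(.s k101 k69 3 (.s k48 k186 10 (.s k154 k207 14 (.d k16 k32 k223 3 10)))), (.s k101 k69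
  3 (.s k116 k71 4 (.s k119 k118 0 (.s k51 k187 9 (.s k17 k34 4 (.s k153 k221 9 (.d k102 k68 k204 4
  14)))))))] (.c k69 (.l (.s k48 k186 10 (.s k16 k32 3 (.s k154 k223 10 (.s k18 k222 9 (.s k3 k33 4
  (.s k1 k2 0 (.d k169 k253 k252 13 14)))))))) (.c k101 (.f k48 k186 10 (.q k154 [(.d k16 k32 k223 3
  10), (.s k18 k222 9 (.s k3 k33 4 (.s k1 k2 0 (.d k169 k253 k252 13 14))))] (.c k32 (.q k239 [(.d
  k223 k207 k16 3 10), (.s k18 k222 9 (.s k3 k33 4 (.s k1 k2 0 (.d k169 k253 k252 13 14))))] .n) (.c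
  k239 (.l (.s k32 k16 3 (.s k18 k222 9 (.s k3 k33 4 (.s k1 k2 0 (.d k169 k253 k252 13 14))))))
  .n)))) .n))) (.c k87 (.q k221 [(.s k153 k17 9 (.s k204 k238 4 (.s k68 k136 9 (.d k102 k119 k51 4
  14)))), (.s k153 k17 9 (.s k220 k19 10 (.s k223 k222 0 (.s k207 k239 3 (.s k69 k138 10 (.s k101
  k117 3 (.d k154 k16 k48 10 14)))))))] (.c k17 (.l (.s k204 k238 4 (.s k68 k136 9 (.s k102 k119 4
  (.s k70 k118 3 (.s k3 k137 10 (.s k1 k2 0 (.d k169 k253 k252 13 14)))))))) (.c k153 (.f k204 k238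
  4 (.q k102 [(.d k68 k136 k119 9 4), (.s k70 k118 3 (.s k3 k137 10 (.s k1 k2 0 (.d k169 k253 k252
  13 14))))] (.c k136 (.q k187 [(.d k119 k68 k51 4 9), (.s k70 k118 3 (.s k3 k137 10 (.s k1 k2 0 (.d
  k169 k253 k252 13 14))))] .n) (.c k187 (.l (.s k136 k68 9 (.s k70 k118 3 (.s k3 k137 10 (.s k1 k2
  0 (.d k169 k253 k252 13 14)))))) .n)))) .n))) (.c k168 (.l (.s k87 k84 0 (.s k3 k171 13 (.s k169
  k252 14 (.d k1 k2 k253 0 13))))) (.c k169 (.f k84 k87 0 (.q k165 [(.s k5 k245 11 (.s k15 k10 2 (.s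
  k90 k240 14 (.d k95 k80 k175 2 11)))), (.s k244 k7 12 (.s k4 k164 11 (.s k12 k8 1 (.s k93 k174 12
  (.s k89 k81 1 (.d k166 k247 k243 12 14)))))), (.s k245 k5 11 (.s k240 k250 2 (.s k80 k160 11 (.d
  k90 k95 k15 2 14))))] (.c k5 (.l (.s k244 k7 12 (.s k4 k164 11 (.s k12 k8 1 (.s k93 k174 12 (.s
  k89 k81 1 (.d k166 k247 k243 12 14))))))) (.c k168 (.q k171 [(.s k5 k245 11 (.s k15 k10 2 (.s k90
  k240 14 (.d k95 k80 k175 2 11)))), (.s k244 k7 12 (.s k4 k164 11 (.s k12 k8 1 (.s k93 k174 12 (.s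
  k89 k81 1 (.d k166 k247 k243 12 14)))))), (.s k245 k5 11 (.s k240 k250 2 (.s k80 k160 11 (.d k90
  k95 k15 2 14))))] (.c k5 (.l (.s k244 k7 12 (.s k4 k164 11 (.s k12 k8 1 (.s k93 k174 12 (.s k89
  k81 1 (.d k166 k247 k243 12 14))))))) .n)) (.c k171 (.l (.s k168 k252 13 (.s k5 k245 11 (.s k15
  k10 2 (.s k90 k240 14 (.d k95 k80 k175 2 11)))))) .n))))) (.c k171 (.l (.s k84 k87 0 (.s k252 k168
  13 (.s k169 k3 14 (.d k253 k254 k1 0 13))))) (.c k252 (.q k243 [(.s k81 k162 12 (.s k89 k93 1 (.s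
  k247 k251 1 (.d k166 k4 k12 12 14)))), (.s k81 k162 12 (.s k87 k84 0 (.s k3 k171 13 (.s k83 k163
  11 (.s k80 k82 0 (.d k95 k91 k90 1 2)))))), (.s k87 k84 0 (.s k3 k171 13 (.s k83 k163 11 (.s k89
  k92 2 (.s k247 k251 1 (.d k166 k12 k4 14 12))))))] (.c k166 (.l (.s k87 k84 0 (.s k3 k171 13 (.s
  k83 k163 11 (.s k89 k92 2 (.d k81 k93 k162 1 12)))))) .n)) (.c k253 (.q k4 [(.s k12 k8 1 (.s k93
  k174 12 (.s k89 k81 1 (.d k166 k247 k243 12 14)))), (.s k84 k87 0 (.s k244 k164 11 (.s k165 k7 12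
  (.s k245 k5 11 (.s k240 k250 2 (.d k252 k248 k168 1 13))))))] (.c k247 (.l (.s k12 k8 1 (.s k84
  k87 0 (.s k93 k174 12 (.s k89 k81 1 (.s k92 k83 2 (.d k252 k172 k168 11 13))))))) .n))
  .n)))))))))))

def t6_247 : T TT 256 :=
  (.f k255 k170 14 (.q k106 [(.s k64 k127 6 (.s k192 k128 7 (.s k149 k63 14 (.d k213 k234 k21 6
  7))))] (.c k21 (.q k1 [(.s k169 k253 13 (.s k3 k2 0 (.s k86 k252 14 (.d k87 k84 k171 0 13)))), (.s
  k64 k127 6 (.s k192 k128 7 (.s k213 k234 6 (.s k253 k169 13 (.s k193 k233 5 (.s k65 k129 7 (.d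
  k195 k130 k194 8 0))))))), (.s k3 k2 0 (.s k64 k127 6 (.s k192 k128 7 (.s k66 k129 8 (.s k86 k126
  5 (.d k87 k84 k171 0 13))))))] (.c k171 (.l (.s k3 k2 0 (.s k127 k64 6 (.s k63 k191 7 (.s k43 k23
  5 (.d k169 k232 k253 8 13)))))) .n)) (.c k63 (.q k1 [(.s k3 k2 0 (.s k87 k171 13 (.s k86 k84 0 (.d
  k169 k253 k252 13 14)))), (.s k64 k127 6 (.s k192 k128 7 (.s k213 k234 6 (.s k253 k169 13 (.s k193
  k233 5 (.s k65 k129 7 (.d k195 k130 k194 8 0))))))), (.s k3 k2 0 (.s k64 k127 6 (.s k192 k128 7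
  (.s k66 k129 8 (.s k86 k126 5 (.d k87 k84 k171 0 13))))))] (.c k171 (.l (.s k3 k2 0 (.s k64 k127 6
  (.s k169 k253 13 (.s k86 k252 14 (.s k192 k128 7 (.d k66 k126 k129 5 8))))))) .n)) (.c k64 (.q k60
  [(.s k20 k40 5 (.s k125 k190 8 (.s k105 k65 5 (.d k150 k215 k195 8 14)))), (.s k20 k40 5 (.s k150
  k215 8 (.s k62 k194 13 (.s k63 k61 0 (.s k21 k42 6 (.d k149 k213 k192 7 14)))))), (.s k125 k190 8
  (.s k105 k65 5 (.s k104 k107 0 (.s k192 k148 13 (.s k149 k63 14 (.d k213 k234 k21 6 7))))))] (.c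
  k105 (.q k87 [(.s k3 k171 13 (.s k86 k84 0 (.s k169 k252 14 (.d k1 k2 k253 0 13)))), (.s k86 k84 0
  (.s k126 k66 5 (.s k190 k125 8 (.s k62 k254 7 (.s k150 k194 13 (.d k20 k40 k215 5 8)))))), (.s k3
  k171 13 (.s k2 k1 0 (.s k22 k41 6 (.s k42 k62 5 (.s k21 k63 6 (.d k20 k40 k23 5 0))))))] (.c k2
  (.l (.s k3 k171 13 (.s k22 k41 6 (.s k86 k84 0 (.s k150 k214 7 (.d k20 k40 k215 5 8)))))) (.c k40
  (.q k235 [(.s k3 k171 13 (.s k86 k84 0 (.s k169 k252 14 (.d k1 k2 k253 0 13)))), (.s k3 k171 13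
  (.s k22 k41 6 (.s k215 k195 5 (.s k20 k150 8 (.d k23 k21 k151 0 7))))), (.s k86 k84 0 (.s k126 k66
  5 (.s k190 k125 8 (.s k62 k254 7 (.s k150 k194 13 (.d k215 k195 k20 5 8))))))] .n) (.c k235 (.l
  (.s k40 k20 5 (.s k3 k171 13 (.s k1 k2 0 (.s k86 k84 0 (.d k169 k253 k252 13 14)))))) .n)))) (.c
  k150 (.q k148 [(.s k104 k192 13 (.s k105 k107 0 (.d k125 k190 k65 8 5))), (.s k192 k104 13 (.s
  k149 k63 14 (.d k213 k234 k21 6 7))), (.s k20 k40 5 (.s k84 k212 7 (.s k86 k87 0 (.s k126 k66 5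
  (.s k190 k125 8 (.s k254 k62 7 (.d k252 k253 k168 0 13)))))))] (.c k130 (.l (.s k190 k125 8 (.s
  k192 k104 13 (.s k149 k63 14 (.d k213 k234 k21 6 7))))) (.c k190 (.q k130 [(.s k65 k195 8 (.s k105
  k125 5 (.d k104 k107 k192 0 13))), (.s k192 k104 13 (.s k149 k63 14 (.d k213 k234 k21 6 7))), (.s
  k20 k40 5 (.s k65 k195 8 (.s k84 k212 7 (.s k86 k87 0 (.s k105 k125 5 (.s k124 k67 6 (.d k252 k188
  k168 7 13)))))))] .n) .n))) .n))) (.c k127 (.q k240 [(.s k80 k160 11 (.s k90 k95 2 (.s k165 k15 14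
  (.d k245 k250 k5 2 11)))), (.s k245 k250 2 (.s k165 k5 11 (.s k224 k47 10 (.s k192 k208 3 (.s k149
  k63 14 (.d k213 k234 k21 6 7)))))), (.s k80 k160 11 (.s k90 k95 2 (.s k122 k74 3 (.s k63 k181 10
  (.s k21 k42 6 (.d k149 k213 k192 7 14))))))] (.c k90 (.q k93 [(.s k89 k81 1 (.s k12 k174 12 (.s
  k166 k243 14 (.s k164 k88 13 (.s k165 k167 0 (.d k245 k250 k5 2 11)))))), (.s k12 k174 12 (.s k89
  k81 1 (.s k72 k123 4 (.s k192 k132 9 (.s k149 k63 14 (.d k213 k234 k21 6 7)))))), (.s k80 k160 11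
  (.s k81 k89 1 (.s k82 k83 0 (.s k3 k161 12 (.s k2 k1 0 (.d k162 k242 k243 11 12)))))), (.s k12
  k174 12 (.s k8 k4 1 (.s k80 k160 11 (.s k88 k164 13 (.s k84 k92 1 (.d k168 k248 k252 11 13))))))]
  (.c k10 (.l (.s k250 k245 2 (.s k12 k174 12 (.s k4 k8 1 (.s k160 k80 11 (.s k164 k88 13 (.s k168
  k172 1 (.d k84 k244 k252 11 13)))))))) (.c k162 (.l (.s k89 k81 1 (.s k12 k174 12 (.s k166 k243 14
  (.s k164 k88 13 (.s k165 k167 0 (.d k245 k250 k5 2 11))))))) (.c k250 (.q k10 [(.s k5 k15 2 (.s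
  k89 k81 1 (.s k12 k174 12 (.s k166 k243 14 (.s k164 k88 13 (.d k165 k167 k245 0 11)))))), (.s k5
  k15 2 (.s k165 k245 11 (.s k224 k47 10 (.s k192 k208 3 (.s k213 k234 6 (.d k149 k63 k21 14
  7)))))), (.s k12 k174 12 (.s k4 k8 1 (.s k160 k80 11 (.s k164 k88 13 (.s k168 k172 1 (.d k84 k244
  k252 11 13))))))] .n) .n)))) (.c k165 (.q k101 [(.s k117 k69 3 (.s k48 k186 10 (.s k16 k32 3 (.d
  k154 k223 k207 10 14)))), (.s k96 k111 2 (.s k160 k80 11 (.s k32 k224 7 (.s k48 k16 3 (.s k144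
  k192 11 (.d k176 k128 k112 3 7)))))), (.s k69 k117 3 (.s k111 k96 2 (.s k207 k138 10 (.s k63 k159
  11 (.s k21 k42 6 (.d k149 k213 k192 7 14))))))] (.c k160 (.q k175 [(.s k117 k69 3 (.s k48 k186 10
  (.s k154 k207 14 (.d k16 k32 k223 3 10)))), (.s k15 k95 11 (.s k111 k96 2 (.s k47 k239 7 (.s k63
  k31 3 (.s k21 k42 6 (.d k149 k213 k192 7 14)))))), (.s k95 k15 11 (.s k90 k80 2 (.s k117 k69 3 (.s
  k48 k186 10 (.d k112 k79 k176 6 7)))))] .n) (.c k175 (.l (.s k160 k80 11 (.s k69 k117 3 (.s k207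
  k138 10 (.s k154 k48 14 (.d k223 k239 k16 3 10)))))) .n))) .n))) (.c k128 (.l (.s k127 k64 6 (.s
  k63 k191 7 (.s k149 k192 14 (.d k21 k42 k213 6 7))))) (.c k149 (.f k64 k127 6 (.q k102 [(.s k68
  k119 4 (.s k76 k72 1 (.s k98 k110 1 (.d k115 k81 k89 4 6)))), (.s k98 k110 1 (.s k119 k68 4 (.s
  k51 k187 9 (.d k192 k128 k145 7 12)))), (.s k68 k119 4 (.s k204 k136 9 (.s k153 k51 14 (.d k221
  k238 k17 4 9))))] (.c k68 (.l (.s k98 k110 1 (.s k81 k115 4 (.s k162 k243 12 (.s k34 k226 7 (.s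
  k51 k17 4 (.d k192 k128 k145 7 12))))))) (.c k119 (.l (.s k98 k110 1 (.s k115 k81 4 (.s k76 k89 6
  (.s k68 k72 1 (.s k204 k136 9 (.s k153 k51 14 (.d k221 k238 k17 4 9)))))))) (.c k128 (.q k191 [(.s
  k119 k68 4 (.s k51 k187 9 (.s k17 k34 4 (.d k153 k221 k204 9 14)))), (.s k68 k119 4 (.s k76 k72 1
  (.s k98 k110 1 (.d k115 k81 k89 4 6))))] (.c k68 (.q k1 [(.s k169 k253 13 (.s k3 k2 0 (.s k86 k252
  14 (.d k87 k84 k171 0 13)))), (.s k98 k110 1 (.s k81 k115 4 (.s k161 k241 11 (.s k35 k224 8 (.d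
  k169 k236 k253 10 13))))), (.s k3 k2 0 (.s k98 k110 1 (.s k81 k115 4 (.s k161 k241 11 (.s k82 k240
  12 (.s k83 k80 0 (.d k243 k163 k162 11 12)))))))] .n) (.c k119 (.l (.s k98 k110 1 (.s k115 k81 4
  (.s k76 k89 6 (.s k68 k72 1 (.s k204 k136 9 (.s k153 k51 14 (.d k221 k238 k17 4 9)))))))) .n)))
  (.c k191 (.l (.s k128 k192 7 (.s k68 k119 4 (.s k76 k72 1 (.s k98 k110 1 (.d k115 k81 k89 4
  6)))))) .n)))))) (.c k191 (.l (.s k64 k127 6 (.s k192 k128 7 (.s k149 k63 14 (.d k213 k234 k21 6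
  7))))) (.c k192 (.q k1 [(.s k3 k2 0 (.s k87 k171 13 (.s k86 k84 0 (.d k169 k253 k252 13 14)))),
  (.s k127 k64 6 (.s k63 k191 7 (.s k21 k42 6 (.s k61 k41 5 (.s k253 k169 13 (.s k125 k189 7 (.d k60
  k190 k62 8 0))))))), (.s k3 k2 0 (.s k127 k64 6 (.s k63 k191 7 (.s k21 k42 6 (.s k23 k43 5 (.s k22
  k20 0 (.d k41 k61 k60 5 6)))))))] .n) (.c k213 (.f k64 k127 6 (.f k192 k128 7 (.f k149 k63 14 (.q
  k196 [(.s k102 k55 12 (.s k204 k200 1 (.d k68 k119 k136 4 9))), (.s k204 k200 1 (.s k68 k136 9 (.s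
  k72 k76 1 (.d k132 k4 k12 7 9)))), (.s k102 k55 12 (.s k98 k110 1 (.s k51 k145 12 (.d k204 k200
  k153 1 14)))), (.s k102 k55 12 (.s k119 k68 4 (.s k51 k187 9 (.d k98 k110 k145 1 12))))] .n))))
  (.c k234 (.l (.s k127 k64 6 (.s k63 k191 7 (.s k21 k42 6 (.d k149 k213 k192 7 14)))))
  .n))))))))))))

def t6_248 : T TT 256 :=
  (.f k255 k170 14 (.q k105 [(.s k65 k125 5 (.s k195 k130 8 (.s k150 k60 14 (.d k215 k235 k20 5
  8))))] (.c k20 (.q k1 [(.s k3 k2 0 (.s k87 k171 13 (.s k169 k253 13 (.d k86 k84 k252 0 14)))), (.s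
  k65 k125 5 (.s k169 k253 13 (.s k41 k233 7 (.s k61 k21 5 (.d k193 k129 k149 7 13))))), (.s k3 k2 0
  (.s k65 k125 5 (.s k129 k193 7 (.s k66 k192 8 (.s k67 k64 0 (.d k195 k131 k130 7 8))))))] .n) (.c
  k60 (.q k1 [(.s k3 k2 0 (.s k87 k171 13 (.s k86 k84 0 (.d k169 k253 k252 13 14)))), (.s k65 k125 5
  (.s k169 k253 13 (.s k41 k233 7 (.s k61 k21 5 (.d k193 k129 k149 7 13))))), (.s k3 k2 0 (.s k65
  k125 5 (.s k129 k193 7 (.s k66 k192 8 (.s k67 k64 0 (.d k195 k131 k130 7 8))))))] .n) (.c k65 (.q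
  k64 [(.s k106 k127 6 (.s k192 k128 7 (.s k149 k63 14 (.d k213 k234 k21 6 7)))), (.s k106 k127 6
  (.s k104 k107 0 (.s k84 k124 5 (.s k252 k168 13 (.s k253 k254 0 (.s k169 k1 13 (.d k86 k87 k3 0
  14)))))))] (.c k106 (.f k192 k128 7 (.q k149 [(.d k213 k234 k21 6 7), (.s k193 k61 13 (.s k195
  k194 0 (.s k150 k60 14 (.d k215 k235 k20 5 8))))] (.c k42 (.l (.s k234 k213 6 (.s k193 k61 13 (.s
  k195 k194 0 (.s k150 k60 14 (.d k215 k235 k20 5 8)))))) (.c k234 (.q k42 [(.d k21 k63 k213 6 7),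
  (.s k193 k61 13 (.s k195 k194 0 (.s k215 k235 5 (.d k150 k20 k60 8 14))))] .n) .n)))) (.c k127 (.l
  (.s k192 k128 7 (.s k213 k234 6 (.s k149 k21 7 (.s k193 k61 13 (.s k195 k194 0 (.s k150 k60 14 (.d
  k215 k235 k20 5 8)))))))) .n))) (.c k125 (.q k127 [(.s k106 k64 6 (.s k63 k191 7 (.s k149 k192 14
  (.d k21 k42 k213 6 7)))), (.s k106 k64 6 (.s k107 k104 0 (.s k87 k67 5 (.s k3 k171 13 (.s k1 k2 0
  (.s k169 k253 13 (.d k86 k84 k252 0 14)))))))] (.c k64 (.l (.s k63 k191 7 (.s k21 k42 6 (.s k149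
  k213 7 (.s k61 k193 13 (.s k60 k62 0 (.s k20 k40 5 (.d k150 k215 k195 8 14)))))))) (.c k106 (.f
  k63 k191 7 (.q k149 [(.d k21 k42 k213 6 7), (.s k61 k193 13 (.s k60 k62 0 (.s k20 k40 5 (.d k150
  k215 k195 8 14))))] (.c k42 (.q k234 [(.d k213 k192 k21 6 7), (.s k61 k193 13 (.s k60 k62 0 (.s
  k20 k40 5 (.d k150 k215 k195 8 14))))] .n) (.c k234 (.l (.s k42 k21 6 (.s k61 k193 13 (.s k60 k62
  0 (.s k20 k40 5 (.d k150 k215 k195 8 14)))))) .n)))) .n))) (.c k130 (.l (.s k125 k65 5 (.s k60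
  k190 8 (.s k150 k195 14 (.d k20 k40 k215 5 8))))) (.c k150 (.f k125 k65 5 (.q k86 [(.s k84 k87 0
  (.s k124 k67 6 (.s k64 k104 5 (.d k127 k126 k106 0 6)))), (.s k84 k87 0 (.s k252 k168 13 (.s k169
  k3 14 (.d k253 k254 k1 0 13)))), (.s k124 k67 6 (.s k127 k126 0 (.s k63 k191 7 (.s k21 k42 6 (.s
  k149 k213 7 (.d k106 k64 k192 6 14))))))] (.c k130 (.l (.s k190 k60 8 (.s k84 k87 0 (.s k124 k67 6
  (.s k64 k104 5 (.d k127 k126 k106 0 6)))))) (.c k190 (.q k130 [(.s k84 k87 0 (.s k124 k67 6 (.s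
  k64 k104 5 (.d k127 k126 k106 0 6)))), (.s k84 k87 0 (.s k252 k168 13 (.s k169 k3 14 (.d k253 k254
  k1 0 13)))), (.s k124 k67 6 (.s k127 k126 0 (.s k63 k191 7 (.s k21 k42 6 (.s k149 k213 7 (.d k106
  k64 k192 6 14))))))] .n) .n)))) (.c k190 (.l (.s k65 k125 5 (.s k195 k130 8 (.s k150 k60 14 (.d
  k215 k235 k20 5 8))))) (.c k195 (.q k1 [(.s k3 k2 0 (.s k87 k171 13 (.s k86 k84 0 (.d k169 k253
  k252 13 14)))), (.s k65 k125 5 (.s k169 k253 13 (.s k41 k233 7 (.s k61 k21 5 (.d k193 k129 k149 7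
  13))))), (.s k3 k2 0 (.s k125 k65 5 (.s k60 k190 8 (.s k40 k20 5 (.s k41 k22 6 (.s k21 k61 5 (.d
  k42 k43 k63 0 6)))))))] .n) (.c k215 (.q k1 [(.s k3 k2 0 (.s k87 k171 13 (.s k86 k84 0 (.d k169
  k253 k252 13 14)))), (.s k65 k125 5 (.s k169 k253 13 (.s k41 k233 7 (.s k61 k21 5 (.d k193 k129
  k149 7 13))))), (.s k3 k2 0 (.s k65 k125 5 (.s k129 k193 7 (.s k66 k192 8 (.s k67 k64 0 (.d k195
  k131 k130 7 8))))))] .n) (.c k235 (.l (.s k125 k65 5 (.s k60 k190 8 (.s k20 k40 5 (.d k150 k215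
  k195 8 14))))) .n))))))))))))

def t6_249 : T TT 256 :=
  (.f k255 k170 14 (.q k105 [(.s k65 k125 5 (.s k195 k130 8 (.s k150 k60 14 (.d k215 k235 k20 5
  8))))] (.c k20 (.q k1 [(.s k3 k2 0 (.s k87 k171 13 (.s k86 k84 0 (.d k169 k253 k252 13 14)))), (.s
  k65 k125 5 (.s k169 k253 13 (.s k41 k233 7 (.s k61 k21 5 (.d k193 k129 k149 7 13))))), (.s k3 k2 0
  (.s k65 k125 5 (.s k129 k193 7 (.s k66 k192 8 (.s k67 k64 0 (.d k195 k131 k130 7 8))))))] .n) (.c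
  k60 (.q k1 [(.s k3 k2 0 (.s k87 k171 13 (.s k86 k84 0 (.d k169 k253 k252 13 14)))), (.s k65 k125 5
  (.s k169 k253 13 (.s k41 k233 7 (.s k61 k21 5 (.d k193 k129 k149 7 13))))), (.s k3 k2 0 (.s k65
  k125 5 (.s k129 k193 7 (.s k66 k192 8 (.s k67 k64 0 (.d k195 k131 k130 7 8))))))] .n) (.c k65 (.q
  k64 [(.s k106 k127 6 (.s k192 k128 7 (.s k149 k63 14 (.d k213 k234 k21 6 7)))), (.s k106 k127 6
  (.s k104 k107 0 (.s k84 k124 5 (.s k252 k168 13 (.s k253 k254 0 (.s k169 k1 13 (.d k86 k87 k3 0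
  14)))))))] (.c k106 (.f k192 k128 7 (.q k149 [(.d k213 k234 k21 6 7), (.s k193 k61 13 (.s k195
  k194 0 (.s k150 k60 14 (.d k215 k235 k20 5 8))))] (.c k42 (.l (.s k234 k213 6 (.s k193 k61 13 (.s
  k195 k194 0 (.s k150 k60 14 (.d k215 k235 k20 5 8)))))) (.c k234 (.q k42 [(.d k21 k63 k213 6 7),
  (.s k193 k61 13 (.s k195 k194 0 (.s k215 k235 5 (.d k150 k20 k60 8 14))))] .n) .n)))) (.c k127 (.l
  (.s k192 k128 7 (.s k213 k234 6 (.s k149 k21 7 (.s k193 k61 13 (.s k195 k194 0 (.s k150 k60 14 (.d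
  k215 k235 k20 5 8)))))))) .n))) (.c k125 (.q k127 [(.s k106 k64 6 (.s k63 k191 7 (.s k149 k192 14
  (.d k21 k42 k213 6 7)))), (.s k106 k64 6 (.s k107 k104 0 (.s k87 k67 5 (.s k3 k171 13 (.s k1 k2 0
  (.s k169 k253 13 (.d k86 k84 k252 0 14)))))))] (.c k64 (.l (.s k63 k191 7 (.s k21 k42 6 (.s k149
  k213 7 (.s k61 k193 13 (.s k60 k62 0 (.s k20 k40 5 (.d k150 k215 k195 8 14)))))))) (.c k106 (.f
  k63 k191 7 (.q k149 [(.d k21 k42 k213 6 7), (.s k61 k193 13 (.s k60 k62 0 (.s k20 k40 5 (.d k150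
  k215 k195 8 14))))] (.c k42 (.q k234 [(.d k213 k192 k21 6 7), (.s k61 k193 13 (.s k60 k62 0 (.s
  k20 k40 5 (.d k150 k215 k195 8 14))))] .n) (.c k234 (.l (.s k42 k21 6 (.s k61 k193 13 (.s k60 k62
  0 (.s k20 k40 5 (.d k150 k215 k195 8 14)))))) .n)))) .n))) (.c k130 (.l (.s k125 k65 5 (.s k60
  k190 8 (.s k150 k195 14 (.d k20 k40 k215 5 8))))) (.c k150 (.f k125 k65 5 (.q k109 [(.s k77 k93 3
  (.s k101 k97 1 (.s k117 k69 3 (.d k113 k121 k89 1 5)))), (.s k93 k77 3 (.s k12 k174 12 (.s k4 k8 1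
  (.s k166 k247 12 (.d k89 k81 k243 1 14))))), (.s k101 k97 1 (.s k69 k117 3 (.s k207 k138 10 (.d
  k60 k190 k158 8 12))))] (.c k69 (.l (.s k77 k93 3 (.s k101 k97 1 (.s k113 k89 5 (.s k117 k121 1
  (.s k48 k186 10 (.s k16 k32 3 (.d k154 k223 k207 10 14)))))))) (.c k81 (.l (.s k77 k93 3 (.s k101
  k97 1 (.s k113 k89 5 (.d k117 k121 k69 1 3))))) (.c k130 (.l (.s k190 k60 8 (.s k77 k93 3 (.s k101
  k97 1 (.s k113 k89 5 (.d k117 k121 k69 1 3)))))) (.c k190 (.q k130 [(.s k77 k93 3 (.s k101 k97 1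
  (.s k117 k69 3 (.d k113 k121 k89 1 5)))), (.s k93 k77 3 (.s k12 k174 12 (.s k4 k8 1 (.s k166 k247
  12 (.d k89 k81 k243 1 14))))), (.s k101 k97 1 (.s k69 k117 3 (.s k207 k138 10 (.s k154 k48 14 (.d
  k223 k239 k16 3 10)))))] (.c k69 (.l (.s k77 k93 3 (.s k101 k97 1 (.s k113 k89 5 (.s k117 k121 1
  (.s k48 k186 10 (.s k16 k32 3 (.d k154 k223 k207 10 14)))))))) (.c k81 (.l (.s k77 k93 3 (.s k101
  k97 1 (.s k113 k89 5 (.d k117 k121 k69 1 3))))) .n))) .n)))))) (.c k190 (.l (.s k65 k125 5 (.s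
  k195 k130 8 (.s k150 k60 14 (.d k215 k235 k20 5 8))))) (.c k195 (.q k1 [(.s k3 k2 0 (.s k87 k171
  13 (.s k86 k84 0 (.d k169 k253 k252 13 14)))), (.s k65 k125 5 (.s k169 k253 13 (.s k41 k233 7 (.s
  k61 k21 5 (.d k193 k129 k149 7 13))))), (.s k3 k2 0 (.s k125 k65 5 (.s k60 k190 8 (.s k40 k20 5
  (.s k41 k22 6 (.s k21 k61 5 (.d k42 k43 k63 0 6)))))))] .n) (.c k215 (.q k1 [(.s k3 k2 0 (.s k87
  k171 13 (.s k86 k84 0 (.d k169 k253 k252 13 14)))), (.s k65 k125 5 (.s k169 k253 13 (.s k41 k233 7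
  (.s k61 k21 5 (.d k193 k129 k149 7 13))))), (.s k3 k2 0 (.s k65 k125 5 (.s k129 k193 7 (.s k66
  k192 8 (.s k67 k64 0 (.d k195 k131 k130 7 8))))))] .n) (.c k235 (.l (.s k125 k65 5 (.s k60 k190 8
  (.s k20 k40 5 (.d k150 k215 k195 8 14))))) .n))))))))))))

def t6_250 : T TT 256 :=
  (.q k86 [(.s k84 k87 0 (.s k252 k168 13 (.s k3 k169 14 (.s k2 k1 0 (.d k170 k254 k255 13 14)))))]
  (.c k1 (.q k4 [(.s k12 k8 1 (.s k166 k247 12 (.s k89 k243 14 (.s k93 k81 1 (.d k255 k174 k170 12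
  14))))), (.s k84 k87 0 (.s k244 k164 11 (.s k165 k7 12 (.s k245 k5 11 (.d k247 k246 k166 0
  12))))), (.s k12 k8 1 (.s k84 k87 0 (.s k164 k244 11 (.s k88 k240 13 (.s k92 k80 1 (.d k252 k172
  k168 11 13))))))] .n) (.c k2 (.l (.s k84 k87 0 (.s k252 k168 13 (.s k169 k3 14 (.s k253 k1 13 (.d
  k255 k254 k170 0 14)))))) (.c k3 (.q k12 [(.s k4 k8 1 (.s k166 k247 12 (.s k89 k243 14 (.s k93 k81
  1 (.d k255 k174 k170 12 14))))), (.s k4 k8 1 (.s k84 k87 0 (.s k164 k244 11 (.s k88 k240 13 (.s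
  k92 k80 1 (.d k252 k172 k168 11 13)))))), (.s k84 k87 0 (.s k252 k168 13 (.s k92 k172 11 (.s k89
  k83 2 (.s k81 k93 1 (.d k243 k162 k166 12 14))))))] (.c k255 (.f k4 k8 1 (.f k87 k84 0 (.q k240
  [(.s k247 k166 12 (.s k7 k167 11 (.s k165 k244 12 (.s k5 k245 11 (.d k15 k10 k90 2 14))))), (.s
  k80 k160 11 (.s k95 k90 2 (.s k83 k91 1 (.s k81 k82 0 (.d k89 k93 k92 1 2))))), (.s k166 k247 12
  (.s k243 k89 14 (.s k162 k81 12 (.s k170 k174 1 (.s k2 k254 13 (.d k242 k241 k82 0 11))))))] .n)))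
  .n)) (.c k84 (.q k16 [(.s k48 k32 3 (.s k154 k223 10 (.s k101 k207 14 (.s k117 k69 3 (.d k255 k186
  k170 10 14))))), (.s k48 k32 3 (.s k154 k223 10 (.s k18 k222 9 (.s k3 k33 4 (.s k1 k2 0 (.d k169
  k253 k252 13 14)))))), (.s k154 k223 10 (.s k18 k222 9 (.s k17 k19 0 (.s k34 k51 4 (.s k170 k255
  14 (.d k2 k50 k254 3 13)))))), (.s k48 k32 3 (.s k170 k255 14 (.s k2 k254 13 (.s k3 k1 0 (.s k18
  k33 4 (.s k17 k19 0 (.d k34 k50 k51 3 4)))))))] .n) (.c k87 (.q k16 [(.s k48 k32 3 (.s k154 k223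
  10 (.s k101 k207 14 (.s k117 k69 3 (.d k255 k186 k170 10 14))))), (.s k48 k32 3 (.s k154 k223 10
  (.s k18 k222 9 (.s k3 k33 4 (.s k1 k2 0 (.d k169 k253 k252 13 14)))))), (.s k48 k32 3 (.s k170
  k255 14 (.s k2 k254 13 (.s k3 k1 0 (.s k18 k33 4 (.s k34 k50 3 (.d k17 k19 k51 0 4))))))), (.s
  k154 k223 10 (.s k18 k222 9 (.s k170 k255 14 (.s k2 k254 13 (.s k34 k50 3 (.d k17 k19 k51 0
  4))))))] (.c k19 (.l (.s k48 k32 3 (.s k255 k170 14 (.s k117 k186 10 (.s k101 k69 3 (.d k154 k223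
  k207 10 14)))))) .n)) (.c k168 (.l (.s k87 k84 0 (.s k255 k170 14 (.s k3 k171 13 (.s k169 k252 14
  (.d k1 k2 k253 0 13)))))) (.c k169 (.q k4 [(.s k12 k8 1 (.s k166 k247 12 (.s k89 k243 14 (.s k93
  k81 1 (.d k255 k174 k170 12 14))))), (.s k84 k87 0 (.s k244 k164 11 (.s k165 k7 12 (.s k245 k5 11
  (.d k247 k246 k166 0 12))))), (.s k12 k8 1 (.s k84 k87 0 (.s k164 k244 11 (.s k88 k240 13 (.s k92
  k80 1 (.d k252 k172 k168 11 13))))))] .n) (.c k170 (.q k90 [(.s k80 k95 2 (.s k82 k94 1 (.s k83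
  k81 0 (.s k84 k87 0 (.d k92 k88 k89 1 2))))), (.s k84 k87 0 (.s k94 k82 1 (.s k252 k168 13 (.s k15
  k173 12 (.s k5 k10 2 (.d k165 k245 k240 11 14)))))), (.s k80 k95 2 (.s k84 k87 0 (.s k240 k160 11
  (.s k165 k15 14 (.s k244 k7 12 (.d k252 k248 k168 1 13)))))), (.s k80 k95 2 (.s k82 k94 1 (.s k240
  k160 11 (.s k3 k161 12 (.s k1 k2 0 (.d k169 k253 k252 13 14))))))] .n) (.c k171 (.l (.s k84 k87 0
  (.s k252 k168 13 (.s k3 k169 14 (.s k170 k255 14 (.d k2 k1 k254 0 13)))))) (.c k252 (.q k17 [(.s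
  k51 k34 4 (.s k153 k221 9 (.s k102 k204 14 (.s k119 k68 4 (.d k255 k187 k170 9 14))))), (.s k87
  k84 0 (.s k153 k221 9 (.s k19 k220 10 (.s k16 k18 0 (.d k223 k155 k154 9 10))))), (.s k51 k34 4
  (.s k87 k84 0 (.s k255 k170 14 (.s k3 k171 13 (.s k19 k35 3 (.s k16 k18 0 (.d k223 k155 k154 9
  10)))))))] .n) (.c k254 (.l (.s k87 k84 0 (.s k255 k170 14 (.s k3 k171 13 (.s k1 k2 0 (.d k169
  k253 k252 13 14)))))) (.c k255 (.q k240 [(.s k80 k160 11 (.s k87 k84 0 (.s k95 k90 2 (.s k83 k91 1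
  (.s k81 k82 0 (.d k89 k93 k92 1 2)))))), (.s k84 k87 0 (.s k252 k168 13 (.s k244 k248 1 (.s k165
  k7 12 (.s k5 k245 11 (.d k15 k10 k90 2 14)))))), (.s k80 k160 11 (.s k90 k95 2 (.s k82 k94 1 (.s
  k3 k161 12 (.s k1 k2 0 (.d k169 k253 k252 13 14)))))), (.s k80 k160 11 (.s k84 k87 0 (.s k88 k92 1
  (.s k12 k164 13 (.s k8 k4 1 (.d k168 k248 k252 11 13))))))] .n) .n)))))))))))))

def t6_251 : T TT 256 :=
  (.q k86 [(.s k84 k87 0 (.s k252 k168 13 (.s k3 k169 14 (.s k2 k1 0 (.d k170 k254 k255 13 14)))))]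
  (.c k1 (.q k4 [(.s k12 k8 1 (.s k166 k247 12 (.s k89 k243 14 (.s k255 k170 14 (.d k93 k81 k174 1
  12))))), (.s k84 k87 0 (.s k244 k164 11 (.s k165 k7 12 (.s k245 k5 11 (.d k247 k246 k166 0
  12))))), (.s k12 k8 1 (.s k84 k87 0 (.s k164 k244 11 (.s k88 k240 13 (.s k92 k80 1 (.d k252 k172
  k168 11 13))))))] .n) (.c k2 (.l (.s k84 k87 0 (.s k252 k168 13 (.s k169 k3 14 (.s k253 k1 13 (.d
  k255 k254 k170 0 14)))))) (.c k3 (.f k255 k170 14 (.f k84 k87 0 (.q k12 [(.s k93 k174 12 (.s k4 k8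
  1 (.s k89 k81 1 (.d k166 k247 k243 12 14)))), (.s k8 k4 1 (.s k168 k252 13 (.s k88 k248 11 (.s k80
  k92 1 (.d k240 k160 k164 11 13)))))] (.c k4 (.l (.s k93 k174 12 (.s k89 k81 1 (.s k92 k83 2 (.d
  k252 k172 k168 11 13))))) (.c k8 (.q k89 [(.d k93 k81 k174 1 12), (.s k92 k83 2 (.d k252 k172 k168
  11 13))] .n) (.c k89 (.l (.s k8 k4 1 (.s k168 k252 13 (.s k88 k248 11 (.s k80 k92 1 (.d k240 k160
  k164 11 13)))))) .n)))))) (.c k84 (.q k15 [(.s k5 k10 2 (.s k165 k245 11 (.s k90 k240 14 (.s k95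
  k80 2 (.d k255 k175 k170 11 14))))), (.s k5 k10 2 (.s k165 k245 11 (.s k7 k244 12 (.s k3 k11 1 (.s
  k169 k252 14 (.d k1 k2 k253 0 13)))))), (.s k170 k255 14 (.s k2 k254 13 (.s k3 k1 0 (.s k7 k11 1
  (.s k165 k244 12 (.s k160 k175 2 (.d k240 k80 k90 11 14)))))))] (.c k2 (.l (.s k10 k5 2 (.s k170
  k255 14 (.s k90 k250 11 (.s k80 k95 2 (.d k240 k160 k165 11 14)))))) (.c k165 (.l (.s k10 k5 2 (.s
  k170 k255 14 (.s k2 k254 13 (.s k3 k1 0 (.s k90 k250 11 (.s k94 k82 1 (.d k252 k173 k169 12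
  14)))))))) (.c k240 (.l (.s k5 k10 2 (.s k165 k245 11 (.s k7 k244 12 (.s k3 k11 1 (.s k2 k1 0 (.d
  k170 k255 k254 14 13))))))) .n)))) (.c k87 (.q k15 [(.s k5 k10 2 (.s k165 k245 11 (.s k90 k240 14
  (.s k95 k80 2 (.d k255 k175 k170 11 14))))), (.s k5 k10 2 (.s k165 k245 11 (.s k7 k244 12 (.s k3
  k11 1 (.s k169 k252 14 (.d k1 k2 k253 0 13)))))), (.s k170 k255 14 (.s k2 k254 13 (.s k3 k1 0 (.s
  k7 k11 1 (.s k165 k244 12 (.s k160 k175 2 (.d k240 k80 k90 11 14)))))))] (.c k2 (.l (.s k10 k5 2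
  (.s k170 k255 14 (.s k90 k250 11 (.s k80 k95 2 (.d k240 k160 k165 11 14)))))) (.c k165 (.l (.s k10
  k5 2 (.s k170 k255 14 (.s k2 k254 13 (.s k3 k1 0 (.s k90 k250 11 (.s k94 k82 1 (.d k252 k173 k169
  12 14)))))))) (.c k240 (.l (.s k5 k10 2 (.s k165 k245 11 (.s k7 k244 12 (.s k3 k11 1 (.s k2 k1 0
  (.d k170 k255 k254 14 13))))))) .n)))) (.c k168 (.l (.s k87 k84 0 (.s k255 k170 14 (.s k3 k171 13
  (.s k169 k252 14 (.d k1 k2 k253 0 13)))))) (.c k169 (.q k4 [(.s k84 k87 0 (.s k244 k164 11 (.s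
  k165 k7 12 (.s k245 k5 11 (.d k247 k246 k166 0 12))))), (.s k12 k8 1 (.s k166 k247 12 (.s k89 k243
  14 (.s k255 k170 14 (.d k93 k81 k174 1 12))))), (.s k12 k8 1 (.s k84 k87 0 (.s k164 k244 11 (.s
  k88 k240 13 (.s k92 k80 1 (.d k252 k172 k168 11 13))))))] .n) (.c k170 (.q k89 [(.s k81 k93 1 (.s
  k83 k92 2 (.s k80 k82 0 (.s k87 k84 0 (.d k95 k91 k90 1 2))))), (.s k81 k93 1 (.s k84 k87 0 (.s
  k243 k162 12 (.s k252 k168 13 (.s k169 k3 14 (.d k249 k9 k246 11 2)))))), (.s k84 k87 0 (.s k92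
  k83 2 (.s k252 k168 13 (.s k12 k172 11 (.s k4 k8 1 (.d k166 k247 k243 12 14)))))), (.s k81 k93 1
  (.s k83 k92 2 (.s k243 k162 12 (.s k3 k163 11 (.s k1 k2 0 (.d k169 k253 k252 13 14))))))] .n) (.c
  k171 (.l (.s k84 k87 0 (.s k252 k168 13 (.s k3 k169 14 (.s k170 k255 14 (.d k2 k1 k254 0 13))))))
  (.c k252 (.q k17 [(.s k51 k34 4 (.s k153 k221 9 (.s k102 k204 14 (.s k119 k68 4 (.d k255 k187 k170
  9 14))))), (.s k87 k84 0 (.s k153 k221 9 (.s k19 k220 10 (.s k16 k18 0 (.d k223 k155 k154 9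
  10))))), (.s k51 k34 4 (.s k87 k84 0 (.s k255 k170 14 (.s k3 k171 13 (.s k19 k35 3 (.s k16 k18 0
  (.d k223 k155 k154 9 10)))))))] .n) (.c k254 (.l (.s k87 k84 0 (.s k255 k170 14 (.s k3 k171 13 (.s
  k1 k2 0 (.d k169 k253 k252 13 14)))))) (.c k255 (.q k244 [(.s k84 k87 0 (.s k4 k164 11 (.s k165 k7
  12 (.s k245 k5 11 (.d k247 k246 k166 0 12))))), (.s k84 k87 0 (.s k252 k168 13 (.s k240 k248 1 (.s
  k80 k160 11 (.s k88 k92 1 (.d k164 k4 k12 11 13)))))), (.s k165 k7 12 (.s k5 k245 11 (.s k15 k10 2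
  (.s k240 k90 14 (.s k252 k248 1 (.s k173 k94 12 (.d k169 k161 k3 1 14)))))))] (.c k3 (.l (.s k165
  k7 12 (.s k5 k245 11 (.s k15 k10 2 (.s k240 k90 14 (.s k252 k248 1 (.d k84 k87 k168 0 13)))))))
  (.c k4 (.l (.s k84 k87 0 (.s k165 k7 12 (.s k5 k245 11 (.s k15 k10 2 (.s k240 k90 14 (.d k252 k248
  k168 1 13))))))) (.c k243 (.q k247 [(.s k7 k165 12 (.d k87 k84 k167 0 11)), (.s k4 k166 12 (.d k84
  k87 k164 0 11)), (.s k165 k7 12 (.d k245 k5 k246 11 0))] .n) (.c k247 (.q k243 [(.s k81 k162 12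
  (.s k89 k93 1 (.s k12 k166 14 (.s k4 k8 1 (.d k84 k87 k164 0 11))))), (.s k81 k162 12 (.s k89 k93
  1 (.s k83 k92 2 (.s k3 k163 11 (.s k1 k2 0 (.d k169 k253 k252 13 14)))))), (.s k84 k87 0 (.s k164
  k4 11 (.s k252 k168 13 (.s k240 k248 1 (.s k80 k160 11 (.d k88 k92 k12 1 13))))))] (.c k12 (.l (.s
  k81 k162 12 (.s k84 k87 0 (.s k252 k168 13 (.s k3 k169 14 (.s k83 k163 11 (.d k89 k93 k92 1
  2))))))) .n)) .n))))) .n)))))))))))))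

def t6_252 : T TT 256 :=
  (.f k255 k170 14 (.q k102 [(.s k68 k119 4 (.s k204 k136 9 (.s k221 k238 4 (.d k153 k17 k51 9
  14))))] (.c k17 (.q k4 [(.s k12 k8 1 (.s k93 k174 12 (.s k166 k247 12 (.d k89 k81 k243 1 14)))),
  (.s k68 k119 4 (.s k166 k247 12 (.s k38 k230 7 (.s k55 k21 4 (.d k196 k132 k149 7 12))))), (.s k12
  k8 1 (.s k68 k119 4 (.s k132 k196 7 (.s k72 k192 9 (.s k76 k64 1 (.d k204 k140 k136 7 9))))))] .n)
  (.c k51 (.f k68 k119 4 (.q k69 [(.s k207 k138 10 (.s k223 k239 3 (.s k154 k16 10 (.d k101 k117 k48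
  3 14)))), (.s k70 k71 0 (.s k138 k207 10 (.s k2 k206 9 (.s k3 k1 0 (.d k204 k136 k137 9 10))))),
  (.s k71 k70 0 (.s k101 k117 3 (.s k116 k86 4 (.d k100 k103 k84 0 3))))] (.c k118 (.q k185 [(.s
  k207 k138 10 (.s k223 k239 3 (.s k154 k16 10 (.d k101 k117 k48 3 14)))), (.s k71 k70 0 (.s k101
  k117 3 (.s k116 k86 4 (.d k100 k103 k84 0 3))))] (.c k101 (.l (.s k70 k71 0 (.s k138 k207 10 (.s
  k2 k206 9 (.s k3 k1 0 (.d k204 k136 k137 9 10)))))) (.c k116 (.l (.s k117 k101 3 (.s k71 k70 0 (.s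
  k207 k138 10 (.s k3 k139 9 (.s k253 k49 9 (.d k1 k2 k169 0 13))))))) (.c k117 (.q k116 [(.s k84
  k100 3 (.s k86 k87 0 (.d k71 k70 k101 0 4))), (.s k100 k84 3 (.s k204 k136 9 (.s k48 k152 13 (.s
  k207 k138 10 (.d k101 k154 k103 14 0))))), (.s k70 k71 0 (.s k138 k207 10 (.s k2 k206 9 (.s k3 k1
  0 (.d k204 k136 k137 9 10)))))] (.c k103 (.l (.s k71 k70 0 (.s k84 k100 3 (.d k86 k87 k101 0 4))))
  .n)) .n)))) (.c k185 (.q k118 [(.d k70 k71 k86 0 3), (.s k101 k117 3 (.s k207 k138 10 (.s k154 k48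
  14 (.d k223 k239 k16 3 10))))] .n) .n)))) (.c k68 (.q k81 [(.s k89 k93 1 (.s k243 k162 12 (.s k247
  k251 1 (.d k166 k4 k12 12 14)))), (.s k89 k93 1 (.s k115 k76 6 (.s k64 k98 4 (.s k192 k128 7 (.s
  k213 k234 6 (.s k149 k21 7 (.d k106 k127 k63 6 14)))))))] (.c k89 (.f k243 k162 12 (.q k166 [(.d
  k247 k251 k4 1 12), (.s k230 k38 7 (.s k204 k217 6 (.s k153 k51 14 (.d k221 k238 k17 4 9))))] (.c
  k8 (.l (.s k251 k247 1 (.s k230 k38 7 (.s k204 k217 6 (.s k153 k51 14 (.d k221 k238 k17 4 9))))))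
  (.c k251 (.q k8 [(.d k4 k12 k247 1 12), (.s k230 k38 7 (.s k204 k217 6 (.s k221 k238 4 (.d k153
  k17 k51 9 14))))] .n) .n)))) (.c k93 (.l (.s k243 k162 12 (.s k247 k251 1 (.s k166 k4 12 (.s k230
  k38 7 (.s k204 k217 6 (.s k153 k51 14 (.d k221 k238 k17 4 9)))))))) .n))) (.c k119 (.q k81 [(.s
  k89 k93 1 (.s k243 k162 12 (.s k247 k251 1 (.d k166 k4 k12 12 14)))), (.s k89 k93 1 (.s k115 k76 6
  (.s k64 k98 4 (.s k192 k128 7 (.s k213 k234 6 (.s k149 k21 7 (.d k106 k127 k63 6 14)))))))] (.c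
  k89 (.f k243 k162 12 (.q k166 [(.d k247 k251 k4 1 12), (.s k230 k38 7 (.s k204 k217 6 (.s k153 k51
  14 (.d k221 k238 k17 4 9))))] (.c k8 (.l (.s k251 k247 1 (.s k230 k38 7 (.s k204 k217 6 (.s k153
  k51 14 (.d k221 k238 k17 4 9)))))) (.c k251 (.q k8 [(.d k4 k12 k247 1 12), (.s k230 k38 7 (.s k204
  k217 6 (.s k221 k238 4 (.d k153 k17 k51 9 14))))] .n) .n)))) (.c k93 (.l (.s k243 k162 12 (.s k247
  k251 1 (.s k166 k4 12 (.s k230 k38 7 (.s k204 k217 6 (.s k153 k51 14 (.d k221 k238 k17 4 9))))))))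
  .n))) (.c k136 (.l (.s k119 k68 4 (.s k51 k187 9 (.s k153 k204 14 (.d k17 k34 k221 4 9))))) (.c
  k153 (.f k68 k119 4 (.q k4 [(.s k12 k8 1 (.s k93 k174 12 (.s k89 k81 1 (.d k166 k247 k243 12
  14)))), (.s k166 k247 12 (.s k38 k230 7 (.s k55 k21 4 (.d k196 k132 k149 7 12)))), (.s k12 k8 1
  (.s k132 k196 7 (.s k72 k192 9 (.s k76 k64 1 (.d k204 k136 k140 9 7)))))] (.c k136 (.q k187 [(.s
  k166 k247 12 (.s k38 k230 7 (.s k55 k21 4 (.d k196 k132 k149 7 12)))), (.s k12 k8 1 (.s k93 k174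
  12 (.s k89 k81 1 (.s k76 k115 6 (.s k127 k110 4 (.d k64 k72 k106 1 6))))))] (.c k166 (.l (.s k12
  k8 1 (.s k132 k196 7 (.s k72 k192 9 (.s k76 k64 1 (.s k89 k115 6 (.d k93 k81 k174 1 12))))))) .n))
  (.c k187 (.l (.s k136 k204 9 (.s k12 k8 1 (.s k93 k174 12 (.s k89 k81 1 (.d k166 k247 k243 12
  14)))))) .n)))) (.c k187 (.l (.s k68 k119 4 (.s k204 k136 9 (.s k153 k51 14 (.d k221 k238 k17 4
  9))))) (.c k204 (.f k68 k119 4 (.q k4 [(.s k12 k8 1 (.s k93 k174 12 (.s k89 k81 1 (.d k166 k247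
  k243 12 14)))), (.s k196 k132 7 (.s k149 k55 12 (.s k21 k213 7 (.s k63 k42 6 (.s k106 k192 14 (.d
  k127 k64 k191 6 7))))))] (.c k12 (.l (.s k166 k247 12 (.s k38 k230 7 (.s k55 k21 4 (.d k196 k132
  k149 7 12))))) (.c k220 (.q k236 [(.s k12 k8 1 (.s k93 k174 12 (.s k89 k81 1 (.d k166 k247 k243 12
  14)))), (.s k196 k132 7 (.s k149 k55 12 (.s k21 k213 7 (.s k63 k42 6 (.s k106 k192 14 (.d k127 k64
  k191 6 7))))))] (.c k12 (.l (.s k166 k247 12 (.s k38 k230 7 (.s k55 k21 4 (.d k196 k132 k149 7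
  12))))) (.c k247 (.l (.s k12 k8 1 (.s k93 k174 12 (.s k89 k81 1 (.s k76 k115 6 (.s k64 k72 1 (.d
  k127 k110 k106 4 6))))))) .n))) (.c k236 (.q k220 [(.s k12 k8 1 (.s k93 k174 12 (.s k89 k81 1 (.d
  k166 k247 k243 12 14)))), (.s k196 k132 7 (.s k149 k55 12 (.s k21 k213 7 (.s k63 k42 6 (.s k106
  k192 14 (.d k127 k64 k191 6 7))))))] (.c k12 (.l (.s k166 k247 12 (.s k38 k230 7 (.s k55 k21 4 (.d
  k196 k132 k149 7 12))))) (.c k247 (.l (.s k12 k8 1 (.s k93 k174 12 (.s k89 k81 1 (.s k76 k115 6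
  (.s k64 k72 1 (.d k127 k110 k106 4 6))))))) .n))) (.c k247 (.l (.s k12 k8 1 (.s k93 k174 12 (.s
  k89 k81 1 (.s k76 k115 6 (.s k64 k72 1 (.d k127 k110 k106 4 6))))))) .n)))))) (.c k221 (.q k4 [(.s
  k12 k8 1 (.s k93 k174 12 (.s k89 k81 1 (.d k166 k247 k243 12 14)))), (.s k68 k119 4 (.s k166 k247
  12 (.s k38 k230 7 (.s k55 k21 4 (.d k196 k132 k149 7 12))))), (.s k12 k8 1 (.s k68 k119 4 (.s k132
  k196 7 (.s k72 k192 9 (.s k76 k64 1 (.d k204 k140 k136 7 9))))))] .n) (.c k238 (.l (.s k119 k68 4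
  (.s k51 k187 9 (.s k17 k34 4 (.d k153 k221 k204 9 14))))) .n))))))))))))

def t6_253 : T TT 256 :=
  (.f k255 k170 14 (.q k106 [(.s k64 k127 6 (.s k192 k128 7 (.s k149 k63 14 (.d k213 k234 k21 6
  7))))] (.c k21 (.q k3 [(.s k64 k127 6 (.s k87 k171 13 (.s k86 k84 0 (.s k66 k126 5 (.d k192 k128
  k129 7 8))))), (.s k2 k1 0 (.s k64 k127 6 (.s k192 k128 7 (.s k66 k129 8 (.s k130 k194 7 (.d k65
  k67 k195 0 8)))))), (.s k87 k171 13 (.s k86 k84 0 (.s k66 k126 5 (.s k169 k252 14 (.s k43 k232 8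
  (.s k63 k23 5 (.d k192 k129 k149 8 14))))))), (.s k87 k171 13 (.s k86 k84 0 (.s k127 k64 6 (.s k63
  k191 7 (.s k23 k43 5 (.d k149 k212 k192 8 14))))))] (.c k192 (.l (.s k87 k171 13 (.s k86 k84 0 (.s
  k126 k66 5 (.s k127 k64 6 (.s k63 k191 7 (.d k252 k169 k189 14 8))))))) .n)) (.c k63 (.q k4 [(.s
  k12 k8 1 (.s k93 k174 12 (.s k89 k81 1 (.d k166 k247 k243 12 14)))), (.s k64 k127 6 (.s k192 k128
  7 (.s k213 k234 6 (.s k247 k166 12 (.s k196 k230 4 (.s k68 k132 7 (.d k204 k136 k200 9 1))))))),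
  (.s k12 k8 1 (.s k64 k127 6 (.s k192 k128 7 (.s k72 k132 9 (.s k89 k123 4 (.d k93 k81 k174 1
  12))))))] (.c k174 (.l (.s k12 k8 1 (.s k64 k127 6 (.s k166 k247 12 (.s k89 k243 14 (.s k192 k128
  7 (.d k72 k123 k132 4 9))))))) .n)) (.c k64 (.q k240 [(.s k80 k160 11 (.s k90 k95 2 (.s k165 k15
  14 (.d k245 k250 k5 2 11)))), (.s k80 k160 11 (.s k90 k95 2 (.s k122 k74 3 (.s k63 k181 10 (.s k21
  k42 6 (.d k149 k213 k192 7 14)))))), (.s k245 k250 2 (.s k165 k5 11 (.s k224 k47 10 (.s k192 k208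
  3 (.s k149 k63 14 (.d k213 k234 k21 6 7))))))] (.c k90 (.q k69 [(.s k207 k138 10 (.s k223 k239 3
  (.s k154 k16 10 (.d k101 k117 k48 3 14)))), (.s k101 k117 3 (.s k96 k111 2 (.s k160 k80 11 (.s
  k224 k32 7 (.s k165 k47 10 (.d k245 k250 k5 2 11)))))), (.s k207 k138 10 (.s k218 k229 6 (.s k250
  k245 2 (.s k202 k234 3 (.s k154 k58 11 (.d k223 k239 k16 3 10))))))] (.c k10 (.l (.s k250 k245 2
  (.s k101 k117 3 (.s k207 k138 10 (.s k154 k48 14 (.d k223 k239 k16 3 10)))))) (.c k239 (.l (.s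
  k101 k117 3 (.s k207 k138 10 (.s k229 k218 6 (.s k165 k37 7 (.d k245 k250 k5 2 11)))))) (.c k250
  (.q k10 [(.s k207 k138 10 (.s k223 k239 3 (.s k154 k16 10 (.d k101 k117 k48 3 14)))), (.s k5 k15 2
  (.s k101 k117 3 (.s k96 k111 2 (.s k160 k80 11 (.s k165 k245 11 (.d k224 k32 k47 7 10)))))), (.s
  k5 k15 2 (.s k197 k133 7 (.s k207 k138 10 (.s k229 k218 6 (.d k245 k213 k165 3 11)))))] .n) .n))))
  (.c k165 (.q k90 [(.d k80 k160 k95 11 2), (.s k122 k74 3 (.s k63 k181 10 (.s k21 k42 6 (.d k149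
  k213 k192 7 14))))] (.c k160 (.q k175 [(.d k95 k80 k15 2 11), (.s k122 k74 3 (.s k63 k181 10 (.s
  k21 k42 6 (.d k149 k213 k192 7 14))))] .n) (.c k175 (.l (.s k160 k80 11 (.s k122 k74 3 (.s k63
  k181 10 (.s k21 k42 6 (.d k149 k213 k192 7 14)))))) .n))) .n))) (.c k127 (.q k15 [(.s k95 k175 11
  (.s k90 k80 2 (.s k165 k240 14 (.d k5 k10 k245 2 11)))), (.s k5 k10 2 (.s k165 k245 11 (.s k47
  k224 10 (.s k63 k31 3 (.s k21 k42 6 (.d k149 k213 k192 7 14)))))), (.s k95 k175 11 (.s k90 k80 2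
  (.s k74 k122 3 (.s k192 k133 10 (.s k149 k63 14 (.d k213 k234 k21 6 7))))))] (.c k90 (.f k10 k5 2
  (.q k4 [(.s k166 k247 12 (.s k12 k8 1 (.s k89 k243 14 (.d k93 k81 k174 1 12)))), (.s k8 k12 1 (.s
  k11 k9 0 (.s k3 k7 1 (.s k171 k87 13 (.s k91 k251 11 (.s k175 k95 11 (.d k167 k163 k243 1
  13))))))), (.s k12 k8 1 (.s k14 k13 0 (.s k175 k95 11 (.s k174 k93 12 (.s k173 k172 0 (.d k94 k254
  k252 11 12))))))] (.c k8 (.q k89 [(.s k93 k81 1 (.s k12 k174 12 (.d k166 k247 k243 12 14))), (.s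
  k72 k123 4 (.s k166 k247 12 (.s k12 k243 14 (.s k46 k226 9 (.s k63 k29 4 (.d k192 k132 k149 9
  14)))))), (.s k93 k81 1 (.s k95 k175 11 (.s k92 k94 0 (.s k86 k83 2 (.s k84 k87 0 (.s k252 k168 13
  (.d k12 k172 k174 11 12)))))))] (.c k12 (.l (.s k81 k93 1 (.s k243 k162 12 (.d k247 k166 k251 12
  1)))) .n)) (.c k12 (.l (.s k175 k95 11 (.s k247 k166 12 (.s k243 k251 1 (.s k167 k91 13 (.s k87 k7
  11 (.d k171 k163 k3 1 13))))))) (.c k251 (.l (.s k166 k247 12 (.s k12 k8 1 (.s k89 k243 14 (.d k93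
  k81 k174 1 12))))) .n))))) (.c k165 (.q k63 [(.s k21 k42 6 (.d k149 k213 k192 7 14)), (.s k31 k47
  3 (.s k149 k192 14 (.s k90 k208 10 (.d k95 k175 k80 11 2)))), (.s k5 k10 2 (.s k21 k42 6 (.s k31
  k47 3 (.s k26 k16 2 (.d k37 k53 k48 3 6)))))] (.c k160 (.l (.s k175 k95 11 (.s k21 k42 6 (.d k149
  k213 k192 7 14)))) (.c k175 (.q k160 [(.s k21 k42 6 (.d k149 k213 k192 7 14)), (.s k31 k47 3 (.s
  k80 k240 11 (.s k90 k95 2 (.d k149 k208 k192 10 14)))), (.s k5 k10 2 (.s k21 k42 6 (.s k31 k47 3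
  (.s k26 k16 2 (.d k37 k53 k48 3 6)))))] .n) .n))) .n))) (.c k128 (.l (.s k127 k64 6 (.s k63 k191 7
  (.s k149 k192 14 (.d k21 k42 k213 6 7))))) (.c k149 (.f k64 k127 6 (.q k98 [(.s k102 k110 1 (.s
  k68 k119 4 (.s k76 k72 1 (.d k115 k81 k89 4 6)))), (.s k81 k115 4 (.s k162 k243 12 (.s k34 k226 7
  (.s k51 k17 4 (.d k192 k128 k145 7 12))))), (.s k102 k110 1 (.s k119 k68 4 (.s k51 k187 9 (.d k192
  k128 k145 7 12))))] (.c k119 (.l (.s k102 k110 1 (.s k115 k81 4 (.s k76 k89 6 (.s k68 k72 1 (.s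
  k204 k136 9 (.s k153 k51 14 (.d k221 k238 k17 4 9)))))))) (.c k128 (.q k191 [(.s k102 k110 1 (.s
  k68 k119 4 (.s k76 k72 1 (.d k115 k81 k89 4 6)))), (.s k81 k115 4 (.s k243 k162 12 (.s k247 k251 1
  (.s k166 k4 12 (.d k89 k93 k12 1 14))))), (.s k102 k110 1 (.s k119 k68 4 (.s k51 k187 9 (.s k17
  k34 4 (.d k153 k221 k204 9 14)))))] (.c k93 (.l (.s k115 k81 4 (.s k102 k110 1 (.s k76 k89 6 (.d
  k68 k72 k119 1 4))))) (.c k119 (.l (.s k102 k110 1 (.s k115 k81 4 (.s k76 k89 6 (.s k68 k72 1 (.s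
  k204 k136 9 (.s k153 k51 14 (.d k221 k238 k17 4 9)))))))) .n))) (.c k191 (.l (.s k128 k192 7 (.s
  k102 k110 1 (.s k68 k119 4 (.s k76 k72 1 (.d k115 k81 k89 4 6)))))) .n))))) (.c k191 (.l (.s k64
  k127 6 (.s k192 k128 7 (.s k149 k63 14 (.d k213 k234 k21 6 7))))) (.c k192 (.q k4 [(.s k12 k8 1
  (.s k93 k174 12 (.s k89 k81 1 (.d k166 k247 k243 12 14)))), (.s k127 k64 6 (.s k63 k191 7 (.s k21
  k42 6 (.s k55 k38 4 (.s k247 k166 12 (.s k119 k183 7 (.d k51 k187 k59 9 1))))))), (.s k12 k8 1 (.s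
  k127 k64 6 (.s k63 k191 7 (.s k21 k42 6 (.s k29 k46 4 (.s k25 k17 1 (.d k38 k55 k51 4 6)))))))]
  .n) (.c k213 (.f k64 k127 6 (.f k192 k128 7 (.f k149 k63 14 (.q k193 [(.s k105 k61 13 (.s k195
  k194 0 (.d k65 k125 k130 5 8))), (.s k195 k194 0 (.s k65 k130 8 (.s k66 k67 0 (.d k129 k1 k3 7
  8)))), (.s k105 k61 13 (.s k104 k107 0 (.s k60 k148 13 (.d k195 k194 k150 0 14)))), (.s k105 k61
  13 (.s k125 k65 5 (.s k60 k190 8 (.d k104 k107 k148 0 13))))] .n)))) (.c k234 (.l (.s k127 k64 6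
  (.s k63 k191 7 (.s k21 k42 6 (.d k149 k213 k192 7 14))))) .n))))))))))))

def t6_254 : T TT 256 :=
  (.q k89 [(.s k81 k93 1 (.s k170 k255 14 (.s k8 k251 12 (.s k243 k162 12 (.d k12 k4 k166 1 14))))),
  (.s k81 k93 1 (.s k243 k162 12 (.s k166 k12 14 (.s k247 k4 12 (.d k255 k251 k170 1 14)))))] (.c k4
  (.q k5 [(.s k15 k10 2 (.s k165 k245 11 (.s k90 k240 14 (.s k95 k80 2 (.d k255 k175 k170 11
  14))))), (.s k93 k81 1 (.s k165 k245 11 (.s k13 k241 13 (.s k1 k9 1 (.d k253 k173 k169 11 13))))),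
  (.s k10 k15 2 (.s k170 k255 14 (.s k8 k251 12 (.s k9 k11 0 (.s k1 k13 1 (.d k169 k253 k249 13
  11))))))] .n) (.c k12 (.q k3 [(.s k255 k170 14 (.s k87 k171 13 (.s k86 k84 0 (.s k169 k252 14 (.d
  k1 k2 k253 0 13))))), (.s k2 k1 0 (.s k81 k93 1 (.s k162 k243 12 (.s k82 k242 11 (.s k80 k83 0 (.d
  k240 k160 k161 11 12)))))), (.s k81 k93 1 (.s k243 k162 12 (.s k83 k163 11 (.s k86 k92 2 (.s k84
  k87 0 (.d k252 k168 k169 13 14))))))] (.c k255 (.l (.s k1 k2 0 (.s k93 k81 1 (.s k253 k169 13 (.s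
  k13 k173 11 (.s k5 k9 1 (.d k165 k245 k241 11 13))))))) .n)) (.c k81 (.q k15 [(.s k5 k10 2 (.s
  k165 k245 11 (.s k90 k240 14 (.s k255 k170 14 (.d k95 k80 k175 2 11))))), (.s k10 k5 2 (.s k170
  k255 14 (.s k8 k251 12 (.s k11 k9 0 (.s k90 k250 11 (.s k88 k91 0 (.d k248 k168 k169 11 12))))))),
  (.s k255 k170 14 (.s k95 k175 11 (.s k90 k80 2 (.s k91 k88 0 (.s k243 k167 13 (.s k166 k12 14 (.d
  k247 k251 k4 1 12))))))), (.s k170 k255 14 (.s k8 k251 12 (.s k12 k4 1 (.s k13 k14 0 (.s k165 k241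
  13 (.d k5 k10 k245 2 11))))))] (.c k170 (.l (.s k5 k10 2 (.s k165 k245 11 (.s k13 k241 13 (.s k90
  k240 14 (.s k91 k88 0 (.s k243 k167 13 (.d k12 k14 k166 0 14)))))))) (.c k255 (.l (.s k5 k10 2 (.s
  k165 k245 11 (.s k240 k90 14 (.s k241 k13 13 (.s k243 k242 0 (.s k166 k12 14 (.d k167 k164 k91 0
  13)))))))) .n))) (.c k93 (.q k15 [(.s k5 k10 2 (.s k165 k245 11 (.s k90 k240 14 (.s k95 k80 2 (.d
  k255 k175 k170 11 14))))), (.s k10 k5 2 (.s k170 k255 14 (.s k8 k251 12 (.s k11 k9 0 (.s k90 k250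
  11 (.s k88 k91 0 (.d k248 k168 k169 11 12))))))), (.s k255 k170 14 (.s k95 k175 11 (.s k90 k80 2
  (.s k91 k88 0 (.s k243 k167 13 (.s k166 k12 14 (.d k247 k251 k4 1 12))))))), (.s k170 k255 14 (.s
  k8 k251 12 (.s k12 k4 1 (.s k13 k14 0 (.s k165 k241 13 (.d k5 k10 k245 2 11))))))] (.c k170 (.l
  (.s k5 k10 2 (.s k165 k245 11 (.s k13 k241 13 (.s k90 k240 14 (.s k91 k88 0 (.s k243 k167 13 (.d
  k12 k14 k166 0 14)))))))) (.c k255 (.l (.s k5 k10 2 (.s k165 k245 11 (.s k240 k90 14 (.s k241 k13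
  13 (.s k243 k242 0 (.s k167 k91 13 (.d k166 k164 k12 0 14)))))))) .n))) (.c k162 (.l (.s k93 k81 1
  (.s k255 k170 14 (.s k12 k174 12 (.s k166 k243 14 (.d k4 k8 k247 1 12)))))) (.c k166 (.q k86 [(.s
  k81 k93 1 (.s k83 k92 2 (.s k80 k82 0 (.s k87 k84 0 (.d k95 k91 k90 1 2))))), (.s k87 k84 0 (.s
  k255 k170 14 (.s k3 k171 13 (.s k1 k2 0 (.d k169 k253 k252 13 14))))), (.s k81 k93 1 (.s k83 k92 2
  (.s k243 k162 12 (.s k3 k163 11 (.s k1 k2 0 (.d k169 k253 k252 13 14))))))] .n) (.c k170 (.q k86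
  [(.s k81 k93 1 (.s k83 k92 2 (.s k80 k82 0 (.s k87 k84 0 (.d k95 k91 k90 1 2))))), (.s k81 k93 1
  (.s k84 k87 0 (.s k243 k162 12 (.s k252 k168 13 (.s k169 k3 14 (.d k249 k9 k246 11 2)))))), (.s
  k84 k87 0 (.s k92 k83 2 (.s k252 k168 13 (.s k12 k172 11 (.s k4 k8 1 (.d k166 k247 k243 12
  14)))))), (.s k81 k93 1 (.s k83 k92 2 (.s k243 k162 12 (.s k3 k163 11 (.s k1 k2 0 (.d k169 k253
  k252 13 14))))))] .n) (.c k174 (.l (.s k81 k93 1 (.s k243 k162 12 (.s k12 k166 14 (.s k170 k255 14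
  (.d k8 k4 k251 1 12)))))) (.c k243 (.q k13 [(.s k93 k81 1 (.s k241 k165 13 (.s k253 k173 11 (.s
  k169 k1 13 (.d k249 k245 k9 1 11))))), (.s k165 k241 13 (.s k245 k5 11 (.s k255 k170 14 (.s k240
  k250 2 (.s k80 k160 11 (.d k90 k95 k15 2 14)))))), (.s k93 k81 1 (.s k173 k253 11 (.s k255 k170 14
  (.s k12 k174 12 (.s k15 k14 0 (.s k94 k252 12 (.d k95 k92 k175 0 11)))))))] .n) (.c k247 (.l (.s
  k81 k93 1 (.s k170 k255 14 (.s k8 k251 12 (.s k243 k162 12 (.d k12 k4 k166 1 14)))))) (.c k251 (.l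
  (.s k93 k81 1 (.s k255 k170 14 (.s k12 k174 12 (.s k4 k8 1 (.d k166 k247 k243 12 14)))))) (.c k255
  (.q k252 [(.s k84 k168 13 (.s k86 k87 0 (.s k3 k169 14 (.s k83 k92 2 (.s k243 k163 11 (.d k81 k93
  k162 1 12)))))), (.s k81 k93 1 (.s k243 k162 12 (.s k249 k246 2 (.s k169 k9 11 (.s k1 k253 13 (.d
  k3 k86 k2 14 0)))))), (.s k84 k168 13 (.s k86 k87 0 (.s k92 k83 2 (.s k12 k172 11 (.s k4 k8 1 (.d
  k166 k247 k243 12 14)))))), (.s k84 k168 13 (.s k86 k87 0 (.s k92 k83 2 (.s k80 k88 1 (.s k93 k81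
  1 (.d k95 k94 k90 0 2))))))] (.c k3 (.l (.s k81 k93 1 (.s k84 k168 13 (.s k243 k162 12 (.s k12
  k166 14 (.s k92 k172 11 (.d k86 k87 k83 0 2))))))) (.c k86 (.f k84 k168 13 (.f k81 k93 1 (.l (.s
  k243 k162 12 (.s k12 k166 14 (.s k246 k249 2 (.s k4 k8 1 (.s k92 k172 11 (.s k88 k80 1 (.d k164
  k244 k240 11 13)))))))))) .n))) .n)))))))))))))

def t7_10 : T TT 256 :=
  (.f k170 k255 14 (.q k204 [(.s k68 k136 9 (.s k102 k119 4 (.s k34 k238 9 (.d k51 k17 k153 4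
  14))))] (.c k17 (.q k1 [(.s k169 k253 13 (.s k168 k171 0 (.s k252 k84 13 (.d k3 k2 k86 0 14)))),
  (.s k3 k2 0 (.s k136 k68 9 (.s k137 k70 10 (.s k69 k205 9 (.d k138 k139 k207 0 10))))), (.s k68
  k136 9 (.s k102 k119 4 (.s k169 k253 13 (.s k236 k35 10 (.s k252 k220 3 (.d k168 k171 k84 0
  13))))))] .n) (.c k34 (.q k1 [(.s k169 k253 13 (.s k168 k171 0 (.s k252 k84 13 (.d k3 k2 k86 0
  14)))), (.s k3 k2 0 (.s k136 k68 9 (.s k137 k70 10 (.s k69 k205 9 (.d k138 k139 k207 0 10))))),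
  (.s k68 k136 9 (.s k102 k119 4 (.s k169 k253 13 (.s k236 k35 10 (.s k252 k220 3 (.d k168 k171 k84
  0 13))))))] .n) (.c k51 (.f k68 k136 9 (.q k84 [(.s k100 k116 3 (.s k48 k152 13 (.s k32 k16 3 (.d
  k168 k236 k252 9 13)))), (.s k86 k87 0 (.s k2 k254 13 (.s k3 k1 0 (.s k70 k137 10 (.d k102 k119
  k118 4 3)))))] (.c k119 (.q k187 [(.s k100 k116 3 (.s k48 k152 13 (.s k32 k16 3 (.d k168 k236 k252
  9 13)))), (.s k86 k87 0 (.s k2 k254 13 (.s k3 k1 0 (.d k252 k168 k169 13 14)))), (.s k86 k87 0 (.s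
  k116 k100 3 (.s k71 k101 4 (.s k70 k69 0 (.s k3 k137 10 (.d k2 k1 k254 0 13))))))] .n) (.c k187
  (.l (.s k119 k102 4 (.s k86 k87 0 (.s k2 k254 13 (.s k3 k1 0 (.d k252 k168 k169 13 14)))))) (.c
  k252 (.l (.s k86 k87 0 (.s k116 k100 3 (.s k71 k101 4 (.s k70 k69 0 (.d k102 k118 k119 3 4))))))
  .n))))) (.c k68 (.q k69 [(.s k101 k117 3 (.s k32 k239 10 (.s k48 k16 3 (.d k207 k138 k154 10
  14)))), (.s k207 k138 10 (.s k205 k206 0 (.s k1 k137 9 (.s k169 k253 13 (.s k168 k171 0 (.s k252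
  k84 13 (.d k3 k2 k86 0 14)))))))] (.c k138 (.l (.s k101 k117 3 (.s k32 k239 10 (.s k48 k16 3 (.s
  k100 k152 13 (.s k102 k103 0 (.s k34 k238 9 (.d k51 k17 k153 4 14)))))))) (.c k207 (.f k101 k117 3
  (.q k48 [(.d k32 k239 k16 10 3), (.s k100 k152 13 (.s k102 k103 0 (.s k34 k238 9 (.d k51 k17 k153
  4 14))))] (.c k223 (.l (.s k239 k32 10 (.s k100 k152 13 (.s k102 k103 0 (.s k34 k238 9 (.d k51 k17
  k153 4 14)))))) (.c k239 (.q k223 [(.d k16 k32 k154 3 10), (.s k100 k152 13 (.s k102 k103 0 (.s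
  k34 k238 9 (.d k51 k17 k153 4 14))))] .n) .n)))) .n))) (.c k102 (.q k1 [(.s k169 k253 13 (.s k168
  k171 0 (.s k252 k84 13 (.d k3 k2 k86 0 14)))), (.s k3 k2 0 (.s k136 k68 9 (.s k137 k70 10 (.s k69
  k205 9 (.d k138 k139 k207 0 10))))), (.s k136 k68 9 (.s k153 k187 4 (.s k169 k253 13 (.s k137 k185
  3 (.s k69 k205 9 (.d k138 k139 k207 0 10))))))] .n) (.c k119 (.l (.s k136 k68 9 (.s k153 k187 4
  (.s k51 k102 14 (.d k17 k34 k221 4 9))))) (.c k136 (.q k168 [(.s k169 k171 0 (.s k1 k253 13 (.s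
  k252 k84 13 (.d k3 k2 k86 0 14)))), (.s k252 k84 13 (.s k236 k220 3 (.s k32 k100 9 (.s k101 k239
  10 (.s k69 k117 3 (.s k207 k138 10 (.d k48 k16 k154 3 14)))))))] (.c k84 (.l (.s k169 k171 0 (.s
  k1 k253 13 (.s k3 k2 0 (.s k137 k70 10 (.s k153 k185 3 (.s k17 k221 9 (.d k51 k34 k102 4
  14)))))))) (.c k252 (.f k169 k171 0 (.q k3 [(.d k1 k253 k2 13 0), (.s k137 k70 10 (.s k153 k185 3
  (.s k17 k221 9 (.d k51 k34 k102 4 14))))] (.c k253 (.q k254 [(.d k2 k1 k86 0 13), (.s k137 k70 10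
  (.s k153 k185 3 (.s k17 k221 9 (.d k51 k34 k102 4 14))))] .n) (.c k254 (.l (.s k253 k1 13 (.s k137
  k70 10 (.s k153 k185 3 (.s k17 k221 9 (.d k51 k34 k102 4 14)))))) .n)))) .n))) (.c k153 (.q k1
  [(.s k169 k253 13 (.s k168 k171 0 (.s k252 k84 13 (.d k3 k2 k86 0 14)))), (.s k3 k2 0 (.s k136 k68
  9 (.s k137 k70 10 (.s k69 k205 9 (.d k138 k139 k207 0 10))))), (.s k68 k136 9 (.s k102 k119 4 (.s
  k169 k253 13 (.s k236 k35 10 (.s k252 k220 3 (.d k168 k171 k84 0 13))))))] .n) (.c k187 (.l (.s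
  k68 k136 9 (.s k102 k119 4 (.s k51 k153 14 (.d k34 k17 k238 4 9))))) (.c k238 (.l (.s k136 k68 9
  (.s k153 k187 4 (.s k17 k221 9 (.d k51 k34 k102 4 14))))) .n))))))))))))

def t7_11 : T TT 256 :=
  (.f k170 k255 14 (.q k3 [(.s k1 k2 0 (.s k169 k253 13 (.s k168 k171 0 (.d k252 k84 k86 13 14)))),
  (.s k2 k1 0 (.s k86 k254 13 (.s k84 k87 0 (.d k252 k168 k169 13 14))))] (.c k1 (.q k16 [(.s k48
  k32 3 (.s k154 k223 10 (.s k138 k186 3 (.d k207 k69 k101 10 14)))), (.s k48 k32 3 (.s k18 k33 4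
  (.s k17 k19 0 (.s k153 k221 9 (.s k136 k187 4 (.s k204 k68 9 (.d k51 k34 k102 4 14)))))))] (.c k32
  (.l (.s k154 k223 10 (.s k138 k186 3 (.s k207 k69 10 (.s k139 k71 9 (.s k169 k184 4 (.s k168 k171
  0 (.d k252 k84 k86 13 14)))))))) (.c k48 (.f k154 k223 10 (.q k207 [(.d k138 k186 k69 3 10), (.s
  k139 k71 9 (.s k169 k184 4 (.s k168 k171 0 (.d k252 k84 k86 13 14))))] (.c k117 (.l (.s k186 k138
  3 (.s k139 k71 9 (.s k169 k184 4 (.s k168 k171 0 (.d k252 k84 k86 13 14)))))) (.c k186 (.q k117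
  [(.d k69 k101 k138 3 10), (.s k139 k71 9 (.s k169 k184 4 (.s k168 k171 0 (.d k252 k84 k86 13
  14))))] .n) .n)))) .n))) (.c k2 (.q k42 [(.s k63 k21 6 (.s k106 k234 7 (.s k64 k127 6 (.d k192
  k128 k149 7 14)))), (.s k63 k21 6 (.s k43 k23 5 (.s k40 k41 0 (.s k105 k235 8 (.s k65 k125 5 (.s
  k195 k130 8 (.d k60 k20 k150 5 14)))))))] (.c k21 (.l (.s k106 k234 7 (.s k64 k127 6 (.s k192 k128
  7 (.s k66 k129 8 (.s k86 k126 5 (.s k84 k87 0 (.d k252 k168 k169 13 14)))))))) (.c k63 (.f k106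
  k234 7 (.q k192 [(.d k64 k127 k128 6 7), (.s k66 k129 8 (.s k86 k126 5 (.s k84 k87 0 (.d k252 k168
  k169 13 14))))] (.c k127 (.q k191 [(.d k128 k149 k64 6 7), (.s k66 k129 8 (.s k86 k126 5 (.s k84
  k87 0 (.d k252 k168 k169 13 14))))] .n) (.c k191 (.l (.s k127 k64 6 (.s k66 k129 8 (.s k86 k126 5
  (.s k84 k87 0 (.d k252 k168 k169 13 14)))))) .n)))) .n))) (.c k84 (.q k4 [(.s k166 k247 12 (.s
  k162 k174 1 (.s k243 k81 12 (.d k12 k8 k89 1 14)))), (.s k1 k2 0 (.s k12 k8 1 (.s k169 k253 13 (.s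
  k252 k86 14 (.s k172 k92 11 (.d k166 k163 k247 2 12)))))), (.s k1 k2 0 (.s k166 k247 12 (.s k169
  k253 13 (.s k163 k172 2 (.s k243 k83 11 (.d k162 k174 k81 1 12))))))] (.c k166 (.l (.s k2 k1 0 (.s
  k8 k12 1 (.s k86 k254 13 (.s k89 k251 12 (.s k83 k92 2 (.s k243 k163 11 (.d k81 k93 k162 1
  12)))))))) (.c k247 (.l (.s k1 k2 0 (.s k12 k8 1 (.s k9 k6 2 (.s k169 k253 13 (.s k89 k249 11 (.s
  k81 k93 1 (.d k243 k162 k166 12 14)))))))) .n))) (.c k86 (.q k165 [(.s k5 k245 11 (.s k160 k175 2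
  (.s k240 k80 11 (.d k15 k10 k90 2 14)))), (.s k1 k2 0 (.s k169 k253 13 (.s k161 k173 1 (.s k240
  k82 12 (.d k160 k175 k80 2 11))))), (.s k1 k2 0 (.s k5 k245 11 (.s k13 k9 1 (.s k89 k241 13 (.s
  k93 k81 1 (.d k253 k173 k169 11 13))))))] (.c k240 (.l (.s k1 k2 0 (.s k160 k175 2 (.s k169 k253
  13 (.s k161 k173 1 (.s k81 k241 11 (.d k162 k243 k163 12 0))))))) .n)) (.c k168 (.q k4 [(.s k166
  k247 12 (.s k162 k174 1 (.s k243 k81 12 (.d k12 k8 k89 1 14)))), (.s k1 k2 0 (.s k12 k8 1 (.s k169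
  k253 13 (.s k252 k86 14 (.s k172 k92 11 (.d k166 k163 k247 2 12)))))), (.s k1 k2 0 (.s k166 k247
  12 (.s k169 k253 13 (.s k163 k172 2 (.s k243 k83 11 (.d k162 k174 k81 1 12))))))] (.c k166 (.l (.s
  k2 k1 0 (.s k8 k12 1 (.s k86 k254 13 (.s k89 k251 12 (.s k83 k92 2 (.s k243 k163 11 (.d k81 k93
  k162 1 12)))))))) (.c k247 (.l (.s k1 k2 0 (.s k12 k8 1 (.s k9 k6 2 (.s k169 k253 13 (.s k89 k249
  11 (.s k81 k93 1 (.d k243 k162 k166 12 14)))))))) .n))) (.c k169 (.q k90 [(.s k10 k250 11 (.s k80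
  k95 2 (.s k240 k160 11 (.d k15 k5 k165 2 14)))), (.s k2 k1 0 (.s k80 k95 2 (.s k86 k254 13 (.s k82
  k94 1 (.s k81 k83 0 (.d k162 k242 k243 11 12)))))), (.s k2 k1 0 (.s k10 k250 11 (.s k14 k6 1 (.s
  k86 k254 13 (.s k82 k94 1 (.d k242 k162 k166 11 13))))))] .n) (.c k252 (.f k2 k1 0 (.q k42 [(.s
  k106 k234 7 (.s k64 k127 6 (.s k192 k128 7 (.d k63 k21 k149 6 14)))), (.s k22 k62 5 (.s k60 k41 6
  (.s k20 k40 5 (.s k150 k215 8 (.d k86 k254 k214 13 7)))))] (.c k21 (.l (.s k62 k22 5 (.s k106 k234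
  7 (.s k150 k194 13 (.s k190 k130 5 (.d k254 k126 k86 7 13)))))) (.c k253 (.l (.s k254 k86 13 (.s
  k21 k63 6 (.s k22 k62 5 (.s k20 k23 0 (.d k60 k40 k41 5 6)))))) (.c k254 (.q k253 [(.s k106 k234 7
  (.s k64 k127 6 (.s k192 k128 7 (.d k63 k21 k149 6 14)))), (.s k22 k62 5 (.s k60 k41 6 (.s k20 k40
  5 (.s k150 k215 8 (.s k195 k105 14 (.d k130 k190 k65 5 8))))))] (.c k21 (.l (.s k62 k22 5 (.s k106
  k234 7 (.s k64 k127 6 (.s k192 k128 7 (.s k66 k129 8 (.d k194 k130 k150 7 13))))))) .n)) .n)))))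
  (.c k253 (.l (.s k2 k1 0 (.s k86 k254 13 (.s k252 k169 14 (.d k84 k87 k168 0 13))))) (.c k254 (.l
  (.s k1 k2 0 (.s k169 k253 13 (.s k252 k86 14 (.d k168 k171 k84 0 13))))) .n)))))))))))

def t7_13 : T TT 256 :=
  (.f k255 k170 14 (.q k153 [(.s k17 k221 9 (.s k51 k34 4 (.s k102 k204 14 (.d k119 k68 k187 4
  9))))] (.c k17 (.q k117 [(.s k101 k69 3 (.s k48 k186 10 (.s k154 k207 14 (.d k16 k32 k223 3
  10)))), (.s k101 k69 3 (.s k49 k205 13 (.s k253 k185 9 (.s k252 k254 0 (.s k84 k168 13 (.s k86 k87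
  0 (.d k169 k1 k3 13 14)))))))] (.c k69 (.l (.s k48 k186 10 (.s k16 k32 3 (.s k154 k223 10 (.s k152
  k155 0 (.s k204 k100 13 (.s k68 k136 9 (.d k102 k119 k51 4 14)))))))) (.c k101 (.f k48 k186 10 (.q
  k154 [(.d k16 k32 k223 3 10), (.s k152 k155 0 (.s k204 k100 13 (.s k68 k136 9 (.d k102 k119 k51 4
  14))))] (.c k32 (.q k239 [(.d k223 k207 k16 3 10), (.s k152 k155 0 (.s k204 k100 13 (.s k68 k136 9
  (.d k102 k119 k51 4 14))))] .n) (.c k239 (.l (.s k32 k16 3 (.s k152 k155 0 (.s k204 k100 13 (.s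
  k68 k136 9 (.d k102 k119 k51 4 14)))))) .n)))) .n))) (.c k34 (.l (.s k221 k17 9 (.s k204 k238 4
  (.s k102 k51 14 (.d k68 k119 k136 4 9))))) (.c k51 (.q k1 [(.s k3 k2 0 (.s k87 k171 13 (.s k86 k84
  0 (.d k169 k253 k252 13 14)))), (.s k17 k221 9 (.s k49 k33 3 (.s k101 k205 13 (.s k117 k69 3 (.d
  k253 k185 k169 9 13))))), (.s k3 k2 0 (.s k221 k17 9 (.s k204 k238 4 (.s k136 k68 9 (.s k137 k70
  10 (.s k69 k205 9 (.d k138 k139 k207 0 10)))))))] .n) (.c k68 (.q k1 [(.s k169 k253 13 (.s k3 k2 0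
  (.s k86 k252 14 (.d k87 k84 k171 0 13)))), (.s k17 k221 9 (.s k49 k33 3 (.s k101 k205 13 (.s k117
  k69 3 (.d k253 k185 k169 9 13))))), (.s k3 k2 0 (.s k17 k221 9 (.s k33 k49 3 (.s k18 k48 4 (.s k19
  k16 0 (.d k51 k35 k34 3 4))))))] .n) (.c k102 (.f k221 k17 9 (.q k205 [(.s k101 k49 13 (.s k69
  k117 3 (.s k1 k137 9 (.d k253 k237 k169 3 13)))), (.s k253 k237 3 (.s k169 k1 13 (.s k252 k254 0
  (.s k84 k168 13 (.d k86 k87 k3 0 14))))), (.s k101 k49 13 (.s k117 k69 3 (.s k48 k186 10 (.s k16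
  k32 3 (.d k154 k223 k207 10 14))))), (.s k237 k253 3 (.s k238 k204 4 (.s k239 k236 0 (.s k207 k223
  3 (.s k69 k138 10 (.d k101 k117 k49 3 13))))))] (.c k34 (.l (.s k238 k204 4 (.s k49 k101 13 (.s
  k253 k237 3 (.s k169 k1 13 (.d k185 k137 k117 3 9)))))) (.c k49 (.l (.s k253 k237 3 (.s k1 k169 13
  (.s k3 k2 0 (.s k137 k69 9 (.d k204 k238 k70 4 10)))))) (.c k238 (.q k34 [(.s k101 k49 13 (.s k69
  k117 3 (.s k1 k137 9 (.d k253 k237 k169 3 13)))), (.s k253 k237 3 (.s k252 k254 0 (.s k84 k168 13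
  (.s k86 k87 0 (.d k169 k1 k3 13 14))))), (.s k101 k49 13 (.s k117 k69 3 (.s k48 k186 10 (.s k16
  k32 3 (.d k154 k223 k207 10 14)))))] (.c k1 (.l (.s k237 k253 3 (.s k101 k49 13 (.s k33 k169 9 (.s
  k117 k69 3 (.s k48 k186 10 (.d k32 k35 k16 0 3))))))) .n)) .n))))) (.c k119 (.q k1 [(.s k3 k2 0
  (.s k87 k171 13 (.s k86 k84 0 (.d k169 k253 k252 13 14)))), (.s k17 k221 9 (.s k49 k33 3 (.s k101
  k205 13 (.s k117 k69 3 (.d k253 k185 k169 9 13))))), (.s k3 k2 0 (.s k17 k221 9 (.s k33 k49 3 (.s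
  k18 k48 4 (.s k19 k16 0 (.d k51 k35 k34 3 4))))))] .n) (.c k187 (.l (.s k221 k17 9 (.s k204 k238 4
  (.s k68 k136 9 (.d k102 k119 k51 4 14))))) (.c k204 (.q k1 [(.s k3 k2 0 (.s k87 k171 13 (.s k86
  k84 0 (.d k169 k253 k252 13 14)))), (.s k17 k221 9 (.s k49 k33 3 (.s k101 k205 13 (.s k117 k69 3
  (.d k253 k185 k169 9 13))))), (.s k3 k2 0 (.s k17 k221 9 (.s k33 k49 3 (.s k18 k48 4 (.s k19 k16 0
  (.d k51 k35 k34 3 4))))))] .n) (.c k221 (.q k253 [(.s k169 k1 13 (.s k252 k254 0 (.s k84 k168 13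
  (.d k86 k87 k3 0 14)))), (.s k169 k1 13 (.s k185 k137 3 (.s k117 k49 9 (.s k48 k186 10 (.s k16 k32
  3 (.s k154 k223 10 (.d k101 k69 k207 3 14))))))), (.s k252 k254 0 (.s k84 k168 13 (.s k86 k87 0
  (.s k220 k19 10 (.s k204 k236 3 (.s k68 k136 9 (.d k102 k119 k51 4 14)))))))] (.c k169 (.f k252
  k254 0 (.q k86 [(.d k84 k168 k87 13 0), (.s k220 k19 10 (.s k204 k236 3 (.s k68 k136 9 (.d k102
  k119 k51 4 14))))] (.c k168 (.q k171 [(.d k87 k84 k3 0 13), (.s k220 k19 10 (.s k204 k236 3 (.s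
  k68 k136 9 (.d k102 k119 k51 4 14))))] .n) (.c k171 (.l (.s k168 k84 13 (.s k220 k19 10 (.s k204
  k236 3 (.s k68 k136 9 (.d k102 k119 k51 4 14)))))) .n)))) .n)) (.c k238 (.l (.s k17 k221 9 (.s k51
  k34 4 (.s k102 k204 14 (.d k119 k68 k187 4 9))))) .n))))))))))))

def t7_14 : T TT 256 :=
  (.f k255 k170 14 (.q k106 [(.s k64 k127 6 (.s k192 k128 7 (.s k149 k63 14 (.d k213 k234 k21 6
  7))))] (.c k21 (.q k1 [(.s k169 k253 13 (.s k3 k2 0 (.s k86 k252 14 (.d k87 k84 k171 0 13)))), (.s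
  k64 k127 6 (.s k192 k128 7 (.s k213 k234 6 (.s k253 k169 13 (.s k193 k233 5 (.s k65 k129 7 (.d
  k195 k130 k194 8 0))))))), (.s k3 k2 0 (.s k64 k127 6 (.s k192 k128 7 (.s k66 k129 8 (.s k86 k126
  5 (.d k87 k84 k171 0 13))))))] (.c k171 (.l (.s k3 k2 0 (.s k127 k64 6 (.s k63 k191 7 (.s k43 k23
  5 (.d k169 k232 k253 8 13)))))) .n)) (.c k63 (.q k1 [(.s k3 k2 0 (.s k87 k171 13 (.s k86 k84 0 (.d
  k169 k253 k252 13 14)))), (.s k64 k127 6 (.s k192 k128 7 (.s k213 k234 6 (.s k253 k169 13 (.s k193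
  k233 5 (.s k65 k129 7 (.d k195 k130 k194 8 0))))))), (.s k3 k2 0 (.s k64 k127 6 (.s k192 k128 7
  (.s k66 k129 8 (.s k86 k126 5 (.d k87 k84 k171 0 13))))))] (.c k171 (.l (.s k3 k2 0 (.s k64 k127 6
  (.s k169 k253 13 (.s k86 k252 14 (.s k192 k128 7 (.d k66 k126 k129 5 8))))))) .n)) (.c k64 (.q
  k207 [(.s k69 k138 10 (.s k101 k117 3 (.s k154 k48 14 (.d k223 k239 k16 3 10)))), (.s k69 k138 10
  (.s k101 k117 3 (.s k111 k96 2 (.s k63 k159 11 (.s k21 k42 6 (.d k149 k213 k192 7 14)))))), (.s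
  k223 k239 3 (.s k154 k16 10 (.s k202 k58 11 (.s k192 k197 2 (.s k149 k63 14 (.d k213 k234 k21 6
  7))))))] (.c k101 (.q k81 [(.s k89 k93 1 (.s k243 k162 12 (.s k247 k251 1 (.d k166 k4 k12 12
  14)))), (.s k89 k93 1 (.s k243 k162 12 (.s k219 k231 5 (.s k154 k24 8 (.d k223 k239 k16 3 10))))),
  (.s k239 k223 3 (.s k243 k162 12 (.s k231 k219 5 (.s k235 k227 1 (.s k215 k195 5 (.d k247 k251
  k199 1 3))))))] (.c k32 (.l (.s k239 k223 3 (.s k89 k93 1 (.s k243 k162 12 (.s k166 k12 14 (.d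
  k247 k251 k4 1 12)))))) (.c k162 (.l (.s k93 k89 1 (.s k174 k12 12 (.s k239 k223 3 (.s k109 k44 8
  (.s k60 k158 12 (.d k125 k77 k190 3 8))))))) (.c k166 (.l (.s k69 k138 10 (.s k93 k89 1 (.s k12
  k174 12 (.s k162 k243 12 (.s k77 k142 8 (.s k65 k73 1 (.d k125 k105 k109 5 3)))))))) (.c k174 (.l
  (.s k89 k93 1 (.s k243 k162 12 (.s k166 k12 14 (.d k247 k251 k4 1 12))))) (.c k239 (.q k32 [(.s
  k89 k93 1 (.s k243 k162 12 (.s k247 k251 1 (.d k166 k4 k12 12 14)))), (.s k16 k48 3 (.s k211 k146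
  8 (.s k223 k154 10 (.s k219 k215 1 (.d k243 k231 k162 5 12))))), (.s k16 k48 3 (.s k89 k93 1 (.s
  k154 k223 10 (.s k24 k219 8 (.s k28 k20 1 (.d k211 k146 k150 8 10))))))] .n) (.c k243 (.l (.s k69
  k138 10 (.s k93 k89 1 (.s k12 k174 12 (.s k77 k142 8 (.s k65 k73 1 (.d k125 k105 k109 5 3)))))))
  .n))))))) (.c k154 (.q k81 [(.s k89 k93 1 (.s k243 k162 12 (.s k247 k251 1 (.d k166 k4 k12 12
  14)))), (.s k93 k89 1 (.s k223 k239 3 (.s k158 k28 8 (.s k60 k109 12 (.s k190 k125 8 (.d k174 k142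
  k12 3 12)))))), (.s k223 k239 3 (.s k243 k162 12 (.s k219 k231 5 (.s k215 k211 1 (.s k235 k195 5
  (.d k251 k247 k203 1 3))))))] (.c k138 (.q k186 [(.s k89 k93 1 (.s k243 k162 12 (.s k247 k251 1
  (.d k166 k4 k12 12 14)))), (.s k48 k117 10 (.s k16 k32 3 (.s k146 k211 8 (.s k97 k195 12 (.s k113
  k65 3 (.d k243 k178 k162 8 12)))))), (.s k89 k93 1 (.s k117 k48 10 (.s k101 k69 3 (.s k113 k77 5
  (.s k65 k97 3 (.d k125 k121 k105 1 5))))))] .n) (.c k174 (.l (.s k89 k93 1 (.s k243 k162 12 (.s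
  k166 k12 14 (.d k247 k251 k4 1 12))))) (.c k186 (.l (.s k138 k69 10 (.s k89 k93 1 (.s k243 k162 12
  (.s k166 k12 14 (.d k247 k251 k4 1 12)))))) (.c k251 (.l (.s k89 k93 1 (.s k123 k72 4 (.s k243
  k162 12 (.s k63 k183 9 (.s k21 k42 6 (.d k149 k213 k192 7 14))))))) .n))))) .n))) (.c k127 (.q
  k195 [(.s k65 k130 8 (.s k215 k235 5 (.s k150 k20 8 (.d k105 k125 k60 5 14)))), (.s k65 k130 8 (.s
  k105 k125 5 (.s k107 k104 0 (.s k63 k151 13 (.s k21 k42 6 (.d k149 k213 k192 7 14)))))), (.s k215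
  k235 5 (.s k150 k20 8 (.s k194 k62 13 (.s k192 k193 0 (.s k149 k63 14 (.d k213 k234 k21 6 7))))))]
  (.c k105 (.q k149 [(.s k21 k213 7 (.d k63 k42 k192 6 14)), (.s k63 k192 14 (.s k151 k107 13 (.s
  k150 k148 0 (.d k215 k235 k20 5 8))))] (.c k40 (.l (.s k235 k215 5 (.s k21 k213 7 (.d k63 k42 k192
  6 14)))) (.c k63 (.l (.s k213 k21 7 (.s k192 k234 6 (.s k194 k193 0 (.s k150 k62 13 (.d k215 k235
  k20 5 8)))))) (.c k192 (.l (.s k21 k213 7 (.s k63 k42 6 (.s k151 k107 13 (.s k150 k148 0 (.d k215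
  k235 k20 5 8)))))) (.c k235 (.q k40 [(.s k21 k213 7 (.d k63 k42 k192 6 14)), (.s k20 k60 5 (.s k63
  k192 14 (.s k150 k215 8 (.d k151 k148 k107 0 13))))] (.c k63 (.l (.s k20 k60 5 (.s k150 k215 8 (.s
  k213 k21 7 (.s k192 k234 6 (.d k194 k62 k193 13 0)))))) (.c k192 (.l (.s k20 k60 5 (.s k21 k213 7
  (.s k63 k42 6 (.s k150 k215 8 (.d k151 k148 k107 0 13)))))) .n))) .n))))) (.c k150 (.q k149 [(.s
  k21 k213 7 (.d k63 k42 k192 6 14)), (.s k63 k192 14 (.s k107 k151 13 (.s k105 k104 0 (.d k65 k130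
  k125 8 5))))] (.c k63 (.l (.s k213 k21 7 (.s k192 k234 6 (.s k193 k194 0 (.s k105 k61 13 (.d k65
  k125 k130 5 8)))))) (.c k130 (.q k190 [(.s k21 k213 7 (.d k63 k42 k192 6 14)), (.s k63 k192 14 (.s
  k107 k151 13 (.s k105 k104 0 (.d k125 k60 k65 8 5))))] (.c k63 (.l (.s k125 k60 8 (.s k105 k65 5
  (.s k213 k21 7 (.s k192 k234 6 (.d k193 k61 k194 13 0)))))) (.c k192 (.l (.s k21 k213 7 (.s k63
  k42 6 (.s k107 k151 13 (.s k105 k104 0 (.d k125 k60 k65 8 5)))))) .n))) (.c k190 (.l (.s k130 k65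
  8 (.s k21 k213 7 (.d k63 k42 k192 6 14)))) (.c k192 (.l (.s k21 k213 7 (.s k63 k42 6 (.s k107 k151
  13 (.s k105 k104 0 (.d k65 k125 k130 5 8)))))) .n))))) .n))) (.c k128 (.l (.s k127 k64 6 (.s k63
  k191 7 (.s k149 k192 14 (.d k21 k42 k213 6 7))))) (.c k149 (.f k64 k127 6 (.q k86 [(.s k66 k126 5
  (.s k67 k65 0 (.s k84 k87 0 (.d k124 k104 k105 5 6)))), (.s k84 k87 0 (.s k252 k168 13 (.s k169 k3
  14 (.d k253 k254 k1 0 13)))), (.s k66 k126 5 (.s k87 k84 0 (.s k3 k171 13 (.d k192 k128 k129 7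
  8))))] (.c k84 (.l (.s k66 k126 5 (.s k65 k67 0 (.s k130 k195 8 (.s k2 k194 7 (.s k3 k1 0 (.d k192
  k128 k129 7 8))))))) (.c k87 (.l (.s k66 k126 5 (.s k67 k65 0 (.s k124 k105 6 (.s k84 k104 5 (.s
  k252 k168 13 (.s k169 k3 14 (.d k253 k254 k1 0 13)))))))) (.c k128 (.q k191 [(.s k66 k126 5 (.s
  k67 k65 0 (.s k84 k87 0 (.d k124 k104 k105 5 6)))), (.s k87 k84 0 (.s k3 k171 13 (.s k1 k2 0 (.d
  k169 k253 k252 13 14))))] (.c k84 (.l (.s k66 k126 5 (.s k65 k67 0 (.s k195 k130 8 (.s k215 k235 5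
  (.s k150 k20 8 (.d k105 k125 k60 5 14))))))) (.c k87 (.l (.s k66 k126 5 (.s k67 k65 0 (.s k124
  k105 6 (.s k84 k104 5 (.s k252 k168 13 (.s k169 k3 14 (.d k253 k254 k1 0 13)))))))) .n))) (.c k191
  (.l (.s k128 k192 7 (.s k66 k126 5 (.s k67 k65 0 (.s k84 k87 0 (.d k124 k104 k105 5 6))))))
  .n)))))) (.c k191 (.l (.s k64 k127 6 (.s k192 k128 7 (.s k149 k63 14 (.d k213 k234 k21 6 7)))))
  (.c k192 (.q k1 [(.s k3 k2 0 (.s k87 k171 13 (.s k86 k84 0 (.d k169 k253 k252 13 14)))), (.s k127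
  k64 6 (.s k63 k191 7 (.s k21 k42 6 (.s k61 k41 5 (.s k253 k169 13 (.s k125 k189 7 (.d k60 k190 k62
  8 0))))))), (.s k3 k2 0 (.s k127 k64 6 (.s k63 k191 7 (.s k21 k42 6 (.s k23 k43 5 (.s k22 k20 0
  (.d k41 k61 k60 5 6)))))))] .n) (.c k213 (.q k1 [(.s k3 k2 0 (.s k87 k171 13 (.s k86 k84 0 (.d
  k169 k253 k252 13 14)))), (.s k64 k127 6 (.s k169 k253 13 (.s k192 k128 7 (.s k149 k63 14 (.s k129
  k189 5 (.s k66 k3 8 (.d k65 k193 k67 7 0))))))), (.s k3 k2 0 (.s k64 k127 6 (.s k192 k128 7 (.s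
  k66 k129 8 (.s k86 k126 5 (.d k87 k84 k171 0 13))))))] (.c k3 (.l (.s k127 k64 6 (.s k63 k191 7
  (.s k21 k42 6 (.s k61 k41 5 (.s k60 k62 0 (.s k125 k190 8 (.d k253 k189 k169 7 13)))))))) .n)) (.c
  k234 (.l (.s k127 k64 6 (.s k63 k191 7 (.s k21 k42 6 (.d k149 k213 k192 7 14))))) .n))))))))))))

def t7_15 : T TT 256 :=
  (.q k3 [(.s k1 k2 0 (.s k169 k253 13 (.s k86 k252 14 (.s k87 k84 0 (.d k255 k171 k170 13 14))))),
  (.s k1 k2 0 (.s k169 k253 13 (.s k170 k255 14 (.s k168 k171 0 (.d k252 k84 k86 13 14)))))] (.c k1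
  (.q k12 [(.s k4 k8 1 (.s k255 k170 14 (.s k93 k174 12 (.s k89 k81 1 (.d k166 k247 k243 12 14))))),
  (.s k4 k8 1 (.s k6 k9 2 (.s k166 k247 12 (.s k86 k246 11 (.s k252 k169 14 (.d k84 k87 k168 0
  13)))))), (.s k6 k9 2 (.s k255 k170 14 (.s k87 k171 13 (.s k86 k84 0 (.s k93 k174 12 (.s k89 k81 1
  (.d k166 k246 k243 11 14)))))))] (.c k89 (.l (.s k4 k8 1 (.s k6 k9 2 (.s k166 k247 12 (.s k86 k246
  11 (.s k87 k84 0 (.d k255 k170 k171 14 13))))))) (.c k166 (.l (.s k9 k6 2 (.s k255 k170 14 (.s k87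
  k171 13 (.s k86 k84 0 (.s k169 k252 14 (.s k89 k249 11 (.d k93 k174 k81 12 1)))))))) .n))) (.c k2
  (.q k12 [(.s k4 k8 1 (.s k166 k247 12 (.s k89 k243 14 (.s k93 k81 1 (.d k255 k174 k170 12 14))))),
  (.s k4 k8 1 (.s k6 k9 2 (.s k166 k247 12 (.s k86 k246 11 (.s k252 k169 14 (.d k84 k87 k168 0
  13)))))), (.s k6 k9 2 (.s k255 k170 14 (.s k87 k171 13 (.s k86 k84 0 (.s k93 k174 12 (.s k89 k81 1
  (.d k166 k246 k243 11 14)))))))] (.c k87 (.l (.s k4 k8 1 (.s k255 k170 14 (.s k93 k174 12 (.s k89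
  k81 1 (.d k166 k247 k243 12 14)))))) (.c k89 (.l (.s k4 k8 1 (.s k6 k9 2 (.s k166 k247 12 (.s k86
  k246 11 (.s k87 k84 0 (.d k255 k170 k171 14 13))))))) (.c k166 (.l (.s k9 k6 2 (.s k255 k170 14
  (.s k87 k171 13 (.s k86 k84 0 (.s k169 k252 14 (.s k89 k249 11 (.d k93 k174 k81 12 1))))))))
  .n)))) (.c k84 (.q k4 [(.s k12 k8 1 (.s k255 k170 14 (.s k93 k174 12 (.s k89 k81 1 (.d k166 k247
  k243 12 14))))), (.s k1 k2 0 (.s k12 k8 1 (.s k6 k9 2 (.s k166 k247 12 (.s k86 k246 11 (.d k169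
  k253 k252 13 14)))))), (.s k1 k2 0 (.s k166 k247 12 (.s k169 k253 13 (.s k163 k172 2 (.s k170 k255
  14 (.s k243 k83 11 (.d k162 k174 k81 1 12))))))), (.s k1 k2 0 (.s k12 k8 1 (.s k9 k6 2 (.s k13 k5
  1 (.s k253 k169 13 (.s k93 k173 11 (.d k255 k174 k170 12 14)))))))] .n) (.c k86 (.f k170 k255 14
  (.f k1 k2 0 (.q k165 [(.s k5 k245 11 (.s k13 k9 1 (.s k89 k241 13 (.s k93 k81 1 (.d k253 k173 k169
  11 13))))), (.s k169 k253 13 (.s k171 k168 0 (.s k173 k161 1 (.s k175 k160 2 (.s k163 k167 1 (.d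
  k172 k174 k166 0 2)))))), (.s k5 k245 11 (.s k9 k13 1 (.s k12 k6 2 (.s k4 k8 1 (.s k166 k247 12
  (.s k162 k174 1 (.d k243 k81 k89 12 14)))))))] (.c k95 (.l (.s k175 k160 2 (.s k5 k245 11 (.s k13
  k9 1 (.s k89 k241 13 (.s k93 k81 1 (.d k253 k173 k169 11 13))))))) (.c k175 (.q k95 [(.s k80 k90 2
  (.s k169 k253 13 (.s k240 k160 11 (.d k161 k82 k173 12 1)))), (.s k5 k245 11 (.s k9 k13 1 (.s k12
  k6 2 (.s k8 k4 1 (.s k10 k11 0 (.d k90 k250 k80 11 2)))))), (.s k245 k5 11 (.s k253 k169 13 (.s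
  k241 k249 1 (.s k81 k161 11 (.d k89 k93 k13 1 13)))))] .n) .n))))) (.c k169 (.q k16 [(.s k48 k32 3
  (.s k154 k223 10 (.s k101 k207 14 (.s k117 k69 3 (.d k255 k186 k170 10 14))))), (.s k2 k1 0 (.s
  k48 k32 3 (.s k18 k33 4 (.s k17 k19 0 (.d k34 k50 k51 3 4))))), (.s k2 k1 0 (.s k154 k223 10 (.s
  k170 k255 14 (.s k86 k254 13 (.s k18 k222 9 (.s k17 k19 0 (.d k34 k50 k51 3 4)))))))] .n) (.c k170
  (.q k17 [(.s k2 k1 0 (.s k34 k51 4 (.s k18 k50 3 (.s k16 k19 0 (.d k48 k32 k33 3 4))))), (.s k1 k2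
  0 (.s k49 k33 3 (.s k153 k221 9 (.s k101 k205 13 (.s k117 k69 3 (.d k253 k185 k169 9 13)))))), (.s
  k51 k34 4 (.s k19 k35 3 (.s k153 k221 9 (.s k86 k220 10 (.s k84 k87 0 (.d k252 k168 k169 13
  14))))))] (.c k33 (.l (.s k1 k2 0 (.s k51 k34 4 (.s k35 k19 3 (.s k153 k221 9 (.s k102 k204 14 (.d
  k169 k236 k253 10 13))))))) .n)) (.c k171 (.l (.s k2 k1 0 (.s k170 k255 14 (.s k86 k254 13 (.s k84
  k87 0 (.d k252 k168 k169 13 14)))))) (.c k252 (.f k255 k170 14 (.f k171 k87 13 (.q k247 [(.s k243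
  k251 1 (.s k81 k162 12 (.s k89 k93 1 (.d k166 k4 k12 12 14)))), (.s k1 k2 0 (.s k166 k4 12 (.s
  k169 k253 13 (.s k163 k172 2 (.d k243 k251 k83 1 11))))), (.s k2 k1 0 (.s k243 k251 1 (.s k162 k81
  12 (.s k82 k242 11 (.s k161 k240 12 (.d k163 k160 k83 0 11))))))] (.c k94 (.q k173 [(.s k166 k4 12
  (.s k243 k251 1 (.s k81 k162 12 (.d k89 k93 k12 1 14)))), (.s k1 k2 0 (.s k169 k253 13 (.s k161
  k165 1 (.s k81 k241 11 (.d k243 k251 k162 1 12))))), (.s k1 k2 0 (.s k4 k166 12 (.s k253 k169 13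
  (.s k93 k13 11 (.d k12 k174 k8 12 1)))))] (.c k162 (.l (.s k1 k2 0 (.s k166 k4 12 (.s k169 k253 13
  (.s k163 k172 2 (.d k243 k251 k83 1 11)))))) .n)) (.c k173 (.q k94 [(.s k166 k4 12 (.s k243 k251 1
  (.s k81 k162 12 (.d k89 k93 k12 1 14)))), (.s k2 k1 0 (.s k243 k251 1 (.s k162 k81 12 (.s k82 k242
  11 (.s k161 k240 12 (.d k163 k160 k83 0 11)))))), (.s k1 k2 0 (.s k166 k4 12 (.s k169 k253 13 (.s
  k163 k172 2 (.d k243 k251 k83 1 11)))))] (.c k243 (.l (.s k2 k1 0 (.s k4 k166 12 (.s k12 k8 1 (.s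
  k6 k9 2 (.s k174 k93 12 (.d k14 k10 k254 1 11))))))) (.c k251 (.l (.s k1 k2 0 (.s k166 k4 12 (.s
  k169 k253 13 (.s k163 k172 2 (.s k243 k83 11 (.s k81 k162 12 (.d k89 k93 k12 1 14)))))))) .n)))
  (.c k243 (.l (.s k1 k2 0 (.s k4 k166 12 (.s k12 k8 1 (.s k9 k6 2 (.s k13 k5 1 (.s k253 k169 13 (.d
  k93 k174 k173 12 11)))))))) (.c k251 (.l (.s k1 k2 0 (.s k166 k4 12 (.s k169 k253 13 (.s k163 k172
  2 (.s k243 k83 11 (.s k81 k162 12 (.d k89 k12 k93 14 1)))))))) .n))))))) (.c k253 (.l (.s k2 k1 0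
  (.s k170 k255 14 (.s k86 k254 13 (.s k252 k169 14 (.d k84 k87 k168 0 13)))))) (.c k254 (.l (.s k1
  k2 0 (.s k169 k253 13 (.s k86 k252 14 (.s k255 k170 14 (.d k87 k84 k171 0 13)))))) (.c k255 (.f k1
  k2 0 (.f k253 k169 13 (.q k65 [(.s k105 k125 5 (.s k193 k129 7 (.s k149 k61 13 (.d k213 k233 k21 5
  7)))), (.s k129 k193 7 (.s k130 k195 8 (.s k128 k131 0 (.d k192 k64 k66 7 8)))), (.s k105 k125 5
  (.s k195 k130 8 (.s k60 k150 14 (.s k40 k20 5 (.s k41 k22 6 (.s k21 k61 5 (.d k42 k43 k63 0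
  6)))))))] (.c k95 (.q k175 [(.s k105 k125 5 (.s k193 k129 7 (.s k149 k61 13 (.d k213 k233 k21 5
  7)))), (.s k129 k193 7 (.s k130 k195 8 (.s k128 k131 0 (.d k192 k64 k66 7 8)))), (.s k105 k125 5
  (.s k195 k130 8 (.s k60 k150 14 (.s k40 k20 5 (.s k41 k22 6 (.s k21 k61 5 (.d k42 k43 k63 0
  6)))))))] .n) (.c k175 (.q k95 [(.s k105 k125 5 (.s k193 k129 7 (.s k149 k61 13 (.d k213 k233 k21
  5 7)))), (.s k80 k90 2 (.s k195 k130 8 (.s k240 k160 11 (.s k82 k161 12 (.s k81 k83 0 (.s k97 k113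
  3 (.d k67 k112 k131 4 7)))))))] .n) .n))))) .n))))))))))))

def t7_19 : T TT 256 :=
  (.f k255 k170 14 (.q k89 [(.s k81 k93 1 (.s k243 k162 12 (.s k166 k12 14 (.d k247 k251 k4 1
  12))))] (.c k4 (.q k5 [(.s k165 k245 11 (.s k15 k10 2 (.s k90 k240 14 (.d k95 k80 k175 2 11)))),
  (.s k93 k81 1 (.s k165 k245 11 (.s k13 k241 13 (.s k1 k9 1 (.d k253 k173 k169 11 13))))), (.s k15
  k10 2 (.s k81 k93 1 (.s k243 k162 12 (.s k91 k167 13 (.s k90 k88 0 (.d k95 k80 k175 2 11))))))]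
  .n) (.c k12 (.q k1 [(.s k3 k2 0 (.s k87 k171 13 (.s k86 k84 0 (.d k169 k253 k252 13 14)))), (.s
  k81 k93 1 (.s k169 k253 13 (.s k9 k249 11 (.s k13 k5 1 (.d k241 k161 k165 11 13))))), (.s k3 k2 0
  (.s k81 k93 1 (.s k161 k241 11 (.s k82 k240 12 (.s k83 k80 0 (.d k243 k163 k162 11 12))))))] .n)
  (.c k81 (.q k69 [(.s k101 k117 3 (.s k207 k138 10 (.s k154 k48 14 (.d k223 k239 k16 3 10)))), (.s
  k101 k117 3 (.s k77 k113 5 (.s k65 k73 1 (.s k195 k130 8 (.s k215 k235 5 (.s k150 k20 8 (.d k105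
  k125 k60 5 14)))))))] (.c k101 (.f k207 k138 10 (.q k154 [(.d k223 k239 k16 3 10), (.s k219 k24 8
  (.s k243 k231 5 (.s k166 k12 14 (.d k247 k251 k4 1 12))))] (.c k32 (.l (.s k239 k223 3 (.s k219
  k24 8 (.s k243 k231 5 (.s k166 k12 14 (.d k247 k251 k4 1 12)))))) (.c k239 (.q k32 [(.d k16 k48
  k223 3 10), (.s k219 k24 8 (.s k243 k231 5 (.s k247 k251 1 (.d k166 k4 k12 12 14))))] .n) .n))))
  (.c k117 (.l (.s k207 k138 10 (.s k223 k239 3 (.s k154 k16 10 (.s k219 k24 8 (.s k243 k231 5 (.s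
  k166 k12 14 (.d k247 k251 k4 1 12)))))))) .n))) (.c k93 (.q k21 [(.s k149 k213 7 (.s k63 k42 6 (.s
  k106 k192 14 (.d k127 k64 k191 6 7)))), (.s k149 k213 7 (.s k29 k209 9 (.s k17 k25 1 (.s k51 k34 4
  (.s k119 k187 9 (.s k102 k68 4 (.d k153 k221 k204 9 14)))))))] (.c k149 (.f k63 k42 6 (.q k106
  [(.d k127 k191 k64 7 6), (.s k123 k72 4 (.s k243 k183 9 (.s k166 k12 14 (.d k247 k251 k4 1 12))))]
  (.c k128 (.l (.s k191 k127 7 (.s k123 k72 4 (.s k243 k183 9 (.s k166 k12 14 (.d k247 k251 k4 1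
  12)))))) (.c k191 (.q k128 [(.d k64 k127 k192 6 7), (.s k123 k72 4 (.s k243 k183 9 (.s k247 k251 1
  (.d k166 k4 k12 12 14))))] .n) .n)))) (.c k213 (.l (.s k63 k42 6 (.s k127 k191 7 (.s k106 k64 6
  (.s k123 k72 4 (.s k243 k183 9 (.s k166 k12 14 (.d k247 k251 k4 1 12)))))))) .n))) (.c k162 (.l
  (.s k93 k81 1 (.s k12 k174 12 (.s k166 k243 14 (.d k4 k8 k247 1 12))))) (.c k166 (.f k81 k93 1 (.q
  k83 [(.s k80 k82 0 (.s k86 k92 2 (.s k87 k84 0 (.d k95 k91 k90 1 2)))), (.s k80 k82 0 (.s k240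
  k160 11 (.s k245 k250 2 (.s k165 k5 11 (.s k241 k13 13 (.d k243 k162 k242 12 0)))))), (.s k86 k92
  2 (.s k84 k87 0 (.s k252 k168 13 (.s k169 k3 14 (.d k253 k254 k1 0 13)))))] (.c k162 (.q k174 [(.s
  k86 k92 2 (.s k87 k84 0 (.s k95 k91 1 (.d k80 k82 k90 0 2)))), (.s k80 k82 0 (.s k240 k160 11 (.s
  k245 k250 2 (.s k165 k5 11 (.d k90 k95 k15 2 14))))), (.s k86 k92 2 (.s k84 k87 0 (.s k252 k168 13
  (.s k169 k3 14 (.d k253 k254 k1 0 13)))))] (.c k95 (.l (.s k82 k80 0 (.s k86 k92 2 (.s k94 k90 1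
  (.s k84 k87 0 (.s k252 k168 13 (.d k254 k14 k253 11 0))))))) .n)) (.c k174 (.l (.s k162 k243 12
  (.s k80 k82 0 (.s k86 k92 2 (.s k87 k84 0 (.d k95 k91 k90 1 2)))))) .n)))) (.c k174 (.l (.s k81
  k93 1 (.s k243 k162 12 (.s k166 k12 14 (.d k247 k251 k4 1 12))))) (.c k243 (.q k1 [(.s k3 k2 0 (.s
  k87 k171 13 (.s k86 k84 0 (.d k169 k253 k252 13 14)))), (.s k81 k93 1 (.s k169 k253 13 (.s k9 k249
  11 (.s k13 k5 1 (.d k241 k161 k165 11 13))))), (.s k3 k2 0 (.s k93 k81 1 (.s k12 k174 12 (.s k8 k4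
  1 (.s k9 k6 2 (.s k5 k13 1 (.d k10 k11 k15 0 2)))))))] .n) (.c k247 (.q k87 [(.s k86 k84 0 (.s k3
  k171 13 (.s k169 k252 14 (.d k1 k2 k253 0 13)))), (.s k81 k93 1 (.s k86 k84 0 (.s k83 k92 2 (.s
  k80 k82 0 (.d k95 k91 k90 1 2))))), (.s k3 k171 13 (.s k81 k93 1 (.s k243 k162 12 (.s k83 k163 11
  (.s k80 k82 0 (.d k95 k91 k90 1 2))))))] .n) (.c k251 (.l (.s k93 k81 1 (.s k12 k174 12 (.s k4 k8
  1 (.d k166 k247 k243 12 14))))) .n))))))))))))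

def t7_22 : T TT 256 :=
  (.f k255 k170 14 (.q k101 [(.s k69 k117 3 (.s k207 k138 10 (.s k154 k48 14 (.d k223 k239 k16 3
  10))))] (.c k16 (.q k52 [(.s k117 k69 3 (.s k199 k150 12 (.s k247 k182 8 (.s k166 k4 12 (.d k231
  k215 k36 3 8))))), (.s k117 k69 3 (.s k48 k186 10 (.s k60 k56 1 (.s k20 k40 5 (.d k150 k215 k199 8
  12))))), (.s k117 k69 3 (.s k48 k186 10 (.s k60 k56 1 (.s k20 k40 5 (.s k4 k36 3 (.d k247 k182
  k166 8 12)))))), (.s k150 k199 12 (.s k20 k215 8 (.s k60 k40 5 (.s k105 k195 14 (.d k125 k65 k190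
  5 8)))))] .n) (.c k37 (.q k52 [(.s k69 k117 3 (.s k207 k138 10 (.s k223 k239 3 (.d k154 k16 k48 10
  14)))), (.s k150 k199 12 (.s k20 k215 8 (.s k60 k40 5 (.s k105 k195 14 (.d k125 k65 k190 5 8)))))]
  (.c k207 (.l (.s k69 k117 3 (.s k199 k150 12 (.s k4 k134 8 (.s k36 k20 3 (.d k166 k231 k247 8
  12)))))) .n)) (.c k48 (.q k52 [(.s k117 k69 3 (.s k247 k182 8 (.s k243 k251 1 (.s k81 k162 12 (.s
  k89 k93 1 (.d k166 k4 k12 12 14)))))), (.s k150 k199 12 (.s k215 k20 8 (.s k195 k235 5 (.s k65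
  k130 8 (.d k105 k125 k60 5 14)))))] .n) (.c k52 (.q k37 [(.s k117 k69 3 (.s k48 k186 10 (.s k154
  k207 14 (.d k16 k32 k223 3 10)))), (.s k165 k229 7 (.s k5 k245 11 (.s k15 k10 2 (.s k90 k240 14
  (.d k95 k80 k175 2 11)))))] (.c k207 (.l (.s k69 k117 3 (.s k165 k229 7 (.s k5 k245 11 (.s k53 k21
  3 (.d k197 k133 k149 7 11)))))) .n)) (.c k69 (.q k95 [(.s k90 k80 2 (.s k15 k175 11 (.s k165 k240
  14 (.d k5 k10 k245 2 11)))), (.s k90 k80 2 (.s k79 k112 6 (.s k127 k111 3 (.s k63 k191 7 (.s k21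
  k42 6 (.s k149 k213 7 (.d k106 k64 k192 6 14)))))))] (.c k37 (.q k52 [(.s k90 k80 2 (.s k15 k175
  11 (.s k165 k240 14 (.d k5 k10 k245 2 11)))), (.s k150 k199 12 (.s k20 k215 8 (.s k60 k40 5 (.s
  k105 k195 14 (.d k125 k65 k190 5 8)))))] .n) (.c k52 (.q k37 [(.s k15 k175 11 (.s k90 k80 2 (.d
  k165 k229 k240 7 14))), (.s k15 k175 11 (.s k165 k229 7 (.d k5 k10 k245 2 11))), (.s k80 k90 2 (.s
  k165 k229 7 (.s k240 k160 11 (.d k245 k250 k5 2 11))))] (.c k160 (.l (.s k15 k175 11 (.s k165 k229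
  7 (.d k5 k10 k245 2 11)))) (.c k165 (.l (.s k80 k90 2 (.s k15 k175 11 (.s k160 k240 11 (.s k48 k26
  6 (.s k16 k32 3 (.d k154 k223 k207 10 14))))))) (.c k229 (.l (.s k15 k175 11 (.s k5 k10 2 (.s k90
  k80 2 (.d k165 k245 k240 11 14))))) .n)))) (.c k80 (.l (.s k15 k175 11 (.s k5 k10 2 (.s k165 k245
  11 (.s k37 k229 7 (.s k48 k26 6 (.s k16 k32 3 (.d k154 k223 k207 10 14)))))))) (.c k90 (.q k165
  [(.s k5 k245 11 (.d k15 k10 k175 2 11)), (.s k15 k175 11 (.s k37 k229 7 (.s k48 k26 6 (.s k16 k32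
  3 (.d k154 k223 k207 10 14))))), (.s k5 k245 11 (.s k37 k229 7 (.s k21 k53 3 (.s k63 k42 6 (.s
  k127 k191 7 (.s k106 k64 6 (.d k111 k79 k96 3 2)))))))] (.c k10 (.q k250 [(.d k245 k240 k5 2 11),
  (.s k15 k175 11 (.s k37 k229 7 (.s k48 k26 6 (.s k16 k32 3 (.d k154 k223 k207 10 14)))))] (.c k37
  (.q k52 [(.d k245 k240 k5 2 11), (.s k15 k175 11 (.s k150 k199 12 (.s k135 k180 4 (.s k195 k75 9
  (.d k215 k235 k20 5 8)))))] .n) (.c k52 (.l (.s k37 k229 7 (.d k245 k240 k5 2 11))) .n))) (.c k37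
  (.q k52 [(.s k5 k245 11 (.d k15 k10 k175 2 11)), (.s k150 k199 12 (.s k20 k215 8 (.s k60 k40 5 (.s
  k105 k195 14 (.d k125 k65 k190 5 8)))))] (.c k10 (.q k250 [(.d k245 k240 k5 2 11), (.s k15 k175 11
  (.s k150 k199 12 (.s k135 k180 4 (.s k195 k75 9 (.d k215 k235 k20 5 8)))))] .n) (.c k250 (.q k10
  [(.d k5 k15 k245 2 11), (.s k150 k199 12 (.s k20 k215 8 (.s k60 k40 5 (.s k105 k195 14 (.d k125
  k65 k190 5 8)))))] .n) .n))) (.c k52 (.l (.s k37 k229 7 (.s k5 k245 11 (.d k15 k10 k175 2 11))))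
  (.c k250 (.q k10 [(.d k5 k15 k245 2 11), (.s k15 k175 11 (.s k37 k229 7 (.s k48 k26 6 (.s k16 k32
  3 (.d k154 k223 k207 10 14)))))] (.c k15 (.l (.s k5 k245 11 (.s k37 k229 7 (.s k21 k53 3 (.s k63
  k42 6 (.s k127 k191 7 (.s k106 k64 6 (.d k111 k79 k96 3 2)))))))) (.c k37 (.q k52 [(.d k5 k15 k245
  2 11), (.s k150 k199 12 (.s k20 k215 8 (.s k60 k40 5 (.s k105 k195 14 (.d k125 k65 k190 5 8)))))]
  .n) (.c k52 (.l (.s k37 k229 7 (.d k5 k15 k245 2 11))) .n)))) .n))))) .n))))) (.c k117 (.q k213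
  [(.s k149 k21 7 (.s k192 k234 6 (.s k64 k128 7 (.d k106 k127 k63 6 14)))), (.s k149 k21 7 (.s k197
  k53 11 (.s k245 k229 3 (.s k240 k250 2 (.s k80 k160 11 (.s k90 k95 2 (.d k165 k5 k15 11 14))))))),
  (.s k192 k234 6 (.s k64 k128 7 (.s k106 k127 6 (.s k96 k111 2 (.s k48 k144 11 (.s k16 k32 3 (.d
  k154 k223 k207 10 14)))))))] (.c k37 (.q k52 [(.s k192 k234 6 (.s k64 k128 7 (.s k106 k127 6 (.d
  k149 k21 k63 7 14)))), (.s k150 k199 12 (.s k20 k215 8 (.s k60 k40 5 (.s k105 k195 14 (.d k125 k65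
  k190 5 8)))))] .n) (.c k52 (.q k37 [(.s k21 k149 7 (.s k165 k229 7 (.d k5 k53 k245 3 11))), (.s
  k149 k21 7 (.s k192 k234 6 (.s k64 k128 7 (.d k106 k127 k63 6 14)))), (.s k165 k229 7 (.s k5 k245
  11 (.s k15 k10 2 (.s k90 k240 14 (.d k95 k80 k175 2 11)))))] (.c k182 (.q k247 [(.s k21 k149 7 (.s
  k165 k229 7 (.d k5 k53 k245 3 11))), (.s k166 k4 12 (.s k36 k231 8 (.s k38 k39 0 (.d k230 k196
  k102 4 7))))] (.c k5 (.l (.s k149 k21 7 (.s k197 k53 11 (.d k229 k245 k165 3 7)))) .n)) (.c k247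
  (.q k182 [(.s k21 k149 7 (.s k165 k229 7 (.d k5 k53 k245 3 11))), (.s k149 k21 7 (.s k192 k234 6
  (.s k64 k128 7 (.d k106 k127 k63 6 14)))), (.s k165 k229 7 (.s k5 k245 11 (.s k15 k10 2 (.s k90
  k240 14 (.d k95 k80 k175 2 11)))))] (.c k87 (.q k167 [(.s k21 k149 7 (.s k165 k229 7 (.d k5 k53
  k245 3 11))), (.s k149 k21 7 (.s k192 k234 6 (.s k64 k128 7 (.d k106 k127 k63 6 14)))), (.s k165
  k229 7 (.s k5 k245 11 (.s k15 k10 2 (.s k90 k240 14 (.d k95 k80 k175 2 11)))))] .n) (.c k167 (.q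
  k87 [(.s k21 k149 7 (.s k165 k229 7 (.d k5 k53 k245 3 11))), (.s k3 k171 13 (.s k1 k2 0 (.s k86
  k84 0 (.d k169 k253 k252 13 14))))] .n) .n))) .n))) (.c k149 (.q k229 [(.s k245 k197 3 (.d k165
  k37 k5 7 11)), (.s k234 k192 6 (.s k239 k224 2 (.s k207 k223 3 (.s k240 k218 6 (.s k80 k160 11 (.s
  k90 k95 2 (.d k165 k37 k15 7 14)))))))] (.c k37 (.q k52 [(.s k150 k199 12 (.s k215 k20 8 (.s k195
  k235 5 (.s k65 k130 8 (.d k105 k125 k60 5 14))))), (.s k192 k234 6 (.s k197 k245 3 (.s k207 k202 2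
  (.s k154 k48 14 (.d k223 k239 k16 3 10)))))] (.c k128 (.q k191 [(.s k150 k199 12 (.s k20 k215 8
  (.s k60 k40 5 (.s k125 k190 8 (.d k105 k65 k195 5 14))))), (.s k192 k234 6 (.s k197 k245 3 (.s
  k207 k202 2 (.s k154 k48 14 (.d k223 k239 k16 3 10)))))] .n) (.c k191 (.q k128 [(.d k192 k234 k64
  6 7), (.s k150 k199 12 (.s k20 k215 8 (.s k60 k40 5 (.s k105 k195 14 (.d k125 k65 k190 5 8)))))]
  .n) .n))) (.c k52 (.l (.s k37 k165 7 (.s k192 k234 6 (.s k197 k245 3 (.s k207 k202 2 (.s k154 k48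
  14 (.d k223 k239 k16 3 10))))))) (.c k128 (.q k191 [(.s k245 k197 3 (.d k165 k37 k5 7 11)), (.s
  k127 k63 7 (.s k106 k64 6 (.s k234 k192 6 (.s k224 k239 2 (.d k165 k37 k47 7 10)))))] (.c k37 (.q
  k52 [(.s k150 k199 12 (.s k20 k215 8 (.s k60 k40 5 (.s k125 k190 8 (.d k105 k65 k195 5 14))))),
  (.s k192 k234 6 (.s k197 k245 3 (.s k207 k202 2 (.s k154 k48 14 (.d k223 k239 k16 3 10)))))] .n)
  (.c k52 (.l (.s k37 k165 7 (.s k192 k234 6 (.s k197 k245 3 (.s k207 k202 2 (.s k154 k48 14 (.d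
  k223 k239 k16 3 10))))))) (.c k165 (.l (.s k192 k234 6 (.s k197 k245 3 (.s k207 k202 2 (.s k154
  k48 14 (.d k223 k239 k16 3 10)))))) .n)))) (.c k165 (.l (.s k192 k234 6 (.s k197 k245 3 (.s k207
  k202 2 (.s k154 k48 14 (.d k223 k239 k16 3 10)))))) (.c k191 (.q k128 [(.d k192 k234 k64 6 7), (.s
  k245 k197 3 (.d k165 k37 k5 7 11))] (.c k37 (.q k52 [(.d k192 k234 k64 6 7), (.s k150 k199 12 (.s
  k20 k215 8 (.s k60 k40 5 (.s k105 k195 14 (.d k125 k65 k190 5 8)))))] .n) (.c k52 (.l (.s k37 k165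
  7 (.d k192 k234 k64 6 7))) .n))) .n)))))) .n)))) (.c k138 (.l (.s k117 k69 3 (.s k48 k186 10 (.s
  k154 k207 14 (.d k16 k32 k223 3 10))))) (.c k154 (.f k117 k69 3 (.q k52 [(.s k150 k199 12 (.s k20
  k215 8 (.s k4 k36 3 (.d k247 k182 k166 8 12)))), (.s k247 k182 8 (.s k166 k4 12 (.s k243 k251 1
  (.s k81 k162 12 (.d k89 k93 k12 1 14))))), (.s k150 k199 12 (.s k215 k20 8 (.s k195 k235 5 (.s k65
  k130 8 (.d k105 k125 k60 5 14))))), (.s k182 k247 8 (.s k186 k48 10 (.s k190 k178 1 (.s k60 k125 8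
  (.s k20 k40 5 (.d k150 k215 k199 8 12))))))] (.c k138 (.l (.s k186 k48 10 (.s k150 k199 12 (.s k20
  k215 8 (.s k4 k36 3 (.d k247 k182 k166 8 12)))))) (.c k186 (.q k138 [(.s k150 k199 12 (.s k20 k215
  8 (.s k4 k36 3 (.d k247 k182 k166 8 12)))), (.s k247 k182 8 (.s k243 k251 1 (.s k81 k162 12 (.s
  k89 k93 1 (.d k166 k4 k12 12 14))))), (.s k150 k199 12 (.s k215 k20 8 (.s k195 k235 5 (.s k65 k130
  8 (.d k105 k125 k60 5 14)))))] (.c k4 (.l (.s k182 k247 8 (.s k150 k199 12 (.s k134 k166 3 (.s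
  k215 k20 8 (.s k195 k235 5 (.d k130 k142 k65 1 8))))))) .n)) (.c k199 (.l (.s k247 k182 8 (.s k4
  k166 12 (.s k12 k8 1 (.s k36 k20 3 (.d k48 k24 k186 5 10)))))) .n))))) (.c k186 (.l (.s k69 k117 3
  (.s k207 k138 10 (.s k154 k48 14 (.d k223 k239 k16 3 10))))) (.c k207 (.q k37 [(.s k165 k229 7 (.s
  k5 k245 11 (.s k15 k10 2 (.s k95 k175 11 (.d k90 k240 k80 14 2))))), (.s k117 k69 3 (.s k48 k186
  10 (.s k15 k26 6 (.s k5 k10 2 (.s k21 k53 3 (.s k32 k16 3 (.d k42 k47 k63 2 6))))))), (.s k69 k117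
  3 (.s k165 k229 7 (.s k5 k245 11 (.s k53 k21 3 (.d k197 k133 k149 7 11)))))] (.c k5 (.l (.s k117
  k69 3 (.s k48 k186 10 (.s k15 k26 6 (.s k95 k175 11 (.s k90 k80 2 (.d k165 k229 k240 7 14)))))))
  .n)) (.c k223 (.q k37 [(.s k69 k117 3 (.s k165 k229 7 (.s k5 k245 11 (.s k53 k21 3 (.d k197 k133
  k149 7 11))))), (.s k117 k69 3 (.s k48 k186 10 (.s k15 k26 6 (.s k95 k175 11 (.s k90 k80 2 (.d
  k165 k229 k240 7 14)))))), (.s k165 k229 7 (.s k5 k245 11 (.s k15 k10 2 (.s k90 k240 14 (.d k95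
  k80 k175 2 11))))), (.s k117 k69 3 (.s k48 k186 10 (.s k15 k26 6 (.s k5 k10 2 (.s k21 k53 3 (.s
  k32 k16 3 (.d k42 k47 k63 2 6)))))))] .n) (.c k239 (.l (.s k117 k69 3 (.s k48 k186 10 (.s k16 k32
  3 (.d k154 k223 k207 10 14))))) .n))))))))))))))

def t7_25 : T TT 256 :=
  (.f k255 k170 14 (.q k89 [(.s k81 k93 1 (.s k243 k162 12 (.s k247 k251 1 (.d k166 k4 k12 12
  14))))] (.c k4 (.q k5 [(.s k165 k245 11 (.s k15 k10 2 (.s k90 k240 14 (.d k95 k80 k175 2 11)))),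
  (.s k93 k81 1 (.s k165 k245 11 (.s k13 k241 13 (.s k1 k9 1 (.d k253 k173 k169 11 13))))), (.s k15
  k10 2 (.s k81 k93 1 (.s k243 k162 12 (.s k91 k167 13 (.s k90 k88 0 (.d k95 k80 k175 2 11))))))]
  .n) (.c k12 (.q k51 [(.s k17 k34 4 (.s k119 k187 9 (.s k102 k68 4 (.d k153 k221 k204 9 14)))), (.s
  k34 k17 4 (.s k81 k93 1 (.s k162 k243 12 (.s k98 k226 7 (.s k64 k115 4 (.d k192 k128 k145 7
  12)))))), (.s k81 k93 1 (.s k119 k187 9 (.s k102 k68 4 (.s k115 k76 6 (.d k243 k179 k162 7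
  12)))))] .n) (.c k81 (.q k1 [(.s k169 k253 13 (.s k3 k2 0 (.s k86 k252 14 (.d k87 k84 k171 0
  13)))), (.s k169 k253 13 (.s k9 k249 11 (.s k5 k13 1 (.s k15 k10 2 (.s k95 k175 11 (.s k90 k80 2
  (.d k165 k245 k240 11 14)))))))] (.c k169 (.f k3 k2 0 (.q k86 [(.d k87 k171 k84 13 0), (.s k83 k92
  2 (.s k243 k163 11 (.s k166 k12 14 (.d k247 k251 k4 1 12))))] (.c k168 (.l (.s k171 k87 13 (.s k83
  k92 2 (.s k243 k163 11 (.s k166 k12 14 (.d k247 k251 k4 1 12)))))) (.c k171 (.q k168 [(.d k84 k87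
  k252 0 13), (.s k83 k92 2 (.s k243 k163 11 (.s k247 k251 1 (.d k166 k4 k12 12 14))))] .n) .n))))
  (.c k253 (.l (.s k3 k2 0 (.s k87 k171 13 (.s k86 k84 0 (.s k83 k92 2 (.s k243 k163 11 (.s k166 k12
  14 (.d k247 k251 k4 1 12)))))))) .n))) (.c k93 (.q k253 [(.s k169 k1 13 (.s k252 k254 0 (.s k84
  k168 13 (.d k86 k87 k3 0 14)))), (.s k169 k1 13 (.s k249 k9 11 (.s k245 k241 1 (.s k240 k250 2 (.s
  k80 k160 11 (.s k90 k95 2 (.d k165 k5 k15 11 14)))))))] (.c k1 (.l (.s k252 k254 0 (.s k84 k168 13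
  (.s k86 k87 0 (.s k92 k83 2 (.s k12 k172 11 (.s k4 k8 1 (.d k166 k247 k243 12 14)))))))) (.c k169
  (.f k252 k254 0 (.q k86 [(.d k84 k168 k87 13 0), (.s k92 k83 2 (.s k12 k172 11 (.s k4 k8 1 (.d
  k166 k247 k243 12 14))))] (.c k168 (.q k171 [(.d k87 k84 k3 0 13), (.s k92 k83 2 (.s k12 k172 11
  (.s k4 k8 1 (.d k166 k247 k243 12 14))))] .n) (.c k171 (.l (.s k168 k84 13 (.s k92 k83 2 (.s k12
  k172 11 (.s k4 k8 1 (.d k166 k247 k243 12 14)))))) .n)))) .n))) (.c k162 (.l (.s k93 k81 1 (.s k12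
  k174 12 (.s k166 k243 14 (.d k4 k8 k247 1 12))))) (.c k166 (.f k81 k93 1 (.q k83 [(.s k80 k82 0
  (.s k86 k92 2 (.s k87 k84 0 (.d k95 k91 k90 1 2)))), (.s k80 k82 0 (.s k240 k160 11 (.s k245 k250
  2 (.s k165 k5 11 (.s k241 k13 13 (.d k243 k162 k242 12 0)))))), (.s k86 k92 2 (.s k84 k87 0 (.s
  k252 k168 13 (.s k169 k3 14 (.d k253 k254 k1 0 13)))))] (.c k162 (.q k174 [(.s k86 k92 2 (.s k87
  k84 0 (.s k95 k91 1 (.d k80 k82 k90 0 2)))), (.s k80 k82 0 (.s k240 k160 11 (.s k245 k250 2 (.s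
  k165 k5 11 (.d k90 k95 k15 2 14))))), (.s k86 k92 2 (.s k84 k87 0 (.s k252 k168 13 (.s k169 k3 14
  (.d k253 k254 k1 0 13)))))] (.c k95 (.l (.s k82 k80 0 (.s k86 k92 2 (.s k94 k90 1 (.s k84 k87 0
  (.s k252 k168 13 (.d k254 k14 k253 11 0))))))) .n)) (.c k174 (.l (.s k162 k243 12 (.s k80 k82 0
  (.s k86 k92 2 (.s k87 k84 0 (.d k95 k91 k90 1 2)))))) .n)))) (.c k174 (.l (.s k81 k93 1 (.s k243
  k162 12 (.s k166 k12 14 (.d k247 k251 k4 1 12))))) (.c k243 (.q k1 [(.s k3 k2 0 (.s k87 k171 13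
  (.s k86 k84 0 (.d k169 k253 k252 13 14)))), (.s k81 k93 1 (.s k169 k253 13 (.s k9 k249 11 (.s k13
  k5 1 (.d k241 k161 k165 11 13))))), (.s k3 k2 0 (.s k93 k81 1 (.s k12 k174 12 (.s k8 k4 1 (.s k9
  k6 2 (.s k5 k13 1 (.d k10 k11 k15 0 2)))))))] .n) (.c k247 (.q k87 [(.s k86 k84 0 (.s k3 k171 13
  (.s k169 k252 14 (.d k1 k2 k253 0 13)))), (.s k81 k93 1 (.s k86 k84 0 (.s k83 k92 2 (.s k80 k82 0
  (.d k95 k91 k90 1 2))))), (.s k3 k171 13 (.s k81 k93 1 (.s k243 k162 12 (.s k83 k163 11 (.s k80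
  k82 0 (.d k95 k91 k90 1 2))))))] .n) (.c k251 (.l (.s k93 k81 1 (.s k12 k174 12 (.s k4 k8 1 (.d
  k166 k247 k243 12 14))))) .n))))))))))))

def t7_26 : T TT 256 :=
  (.f k255 k170 14 (.q k89 [(.s k81 k93 1 (.s k243 k162 12 (.s k166 k12 14 (.d k247 k251 k4 1
  12))))] (.c k4 (.q k5 [(.s k165 k245 11 (.s k15 k10 2 (.s k90 k240 14 (.d k95 k80 k175 2 11)))),
  (.s k93 k81 1 (.s k165 k245 11 (.s k13 k241 13 (.s k1 k9 1 (.d k253 k173 k169 11 13))))), (.s k15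
  k10 2 (.s k81 k93 1 (.s k243 k162 12 (.s k91 k167 13 (.s k90 k88 0 (.d k95 k80 k175 2 11))))))]
  .n) (.c k12 (.q k1 [(.s k3 k2 0 (.s k87 k171 13 (.s k86 k84 0 (.d k169 k253 k252 13 14)))), (.s
  k81 k93 1 (.s k169 k253 13 (.s k9 k249 11 (.s k13 k5 1 (.d k241 k161 k165 11 13))))), (.s k3 k2 0
  (.s k81 k93 1 (.s k161 k241 11 (.s k82 k240 12 (.s k83 k80 0 (.d k243 k163 k162 11 12))))))] .n)
  (.c k81 (.q k69 [(.s k101 k117 3 (.s k207 k138 10 (.s k223 k239 3 (.d k154 k16 k48 10 14)))), (.s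
  k101 k117 3 (.s k77 k113 5 (.s k65 k73 1 (.s k195 k130 8 (.s k215 k235 5 (.s k150 k20 8 (.d k105
  k125 k60 5 14)))))))] (.c k101 (.f k207 k138 10 (.q k154 [(.d k223 k239 k16 3 10), (.s k219 k24 8
  (.s k243 k231 5 (.s k166 k12 14 (.d k247 k251 k4 1 12))))] (.c k32 (.l (.s k239 k223 3 (.s k219
  k24 8 (.s k243 k231 5 (.s k166 k12 14 (.d k247 k251 k4 1 12)))))) (.c k239 (.q k32 [(.d k16 k48
  k223 3 10), (.s k219 k24 8 (.s k243 k231 5 (.s k247 k251 1 (.d k166 k4 k12 12 14))))] .n) .n))))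
  (.c k117 (.l (.s k207 k138 10 (.s k223 k239 3 (.s k154 k16 10 (.s k219 k24 8 (.s k243 k231 5 (.s
  k166 k12 14 (.d k247 k251 k4 1 12)))))))) .n))) (.c k93 (.q k68 [(.s k102 k119 4 (.s k204 k136 9
  (.s k153 k51 14 (.d k221 k238 k17 4 9)))), (.s k102 k119 4 (.s k76 k115 6 (.s k64 k72 1 (.s k192
  k128 7 (.s k213 k234 6 (.s k149 k21 7 (.d k106 k127 k63 6 14)))))))] (.c k102 (.f k204 k136 9 (.q
  k153 [(.d k221 k238 k17 4 9), (.s k217 k25 7 (.s k243 k230 6 (.s k166 k12 14 (.d k247 k251 k4 1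
  12))))] (.c k34 (.l (.s k238 k221 4 (.s k217 k25 7 (.s k243 k230 6 (.s k166 k12 14 (.d k247 k251
  k4 1 12)))))) (.c k238 (.q k34 [(.d k17 k51 k221 4 9), (.s k217 k25 7 (.s k243 k230 6 (.s k247
  k251 1 (.d k166 k4 k12 12 14))))] .n) .n)))) (.c k119 (.l (.s k204 k136 9 (.s k221 k238 4 (.s k153
  k17 9 (.s k217 k25 7 (.s k243 k230 6 (.s k166 k12 14 (.d k247 k251 k4 1 12)))))))) .n))) (.c k162
  (.l (.s k93 k81 1 (.s k12 k174 12 (.s k166 k243 14 (.d k4 k8 k247 1 12))))) (.c k166 (.f k81 k93 1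
  (.q k83 [(.s k80 k82 0 (.s k86 k92 2 (.s k87 k84 0 (.d k95 k91 k90 1 2)))), (.s k80 k82 0 (.s k240
  k160 11 (.s k245 k250 2 (.s k165 k5 11 (.s k241 k13 13 (.d k243 k162 k242 12 0)))))), (.s k86 k92
  2 (.s k84 k87 0 (.s k252 k168 13 (.s k169 k3 14 (.d k253 k254 k1 0 13)))))] (.c k162 (.q k174 [(.s
  k86 k92 2 (.s k87 k84 0 (.s k95 k91 1 (.d k80 k82 k90 0 2)))), (.s k80 k82 0 (.s k240 k160 11 (.s
  k245 k250 2 (.s k165 k5 11 (.d k90 k95 k15 2 14))))), (.s k86 k92 2 (.s k84 k87 0 (.s k252 k168 13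
  (.s k169 k3 14 (.d k253 k254 k1 0 13)))))] (.c k95 (.l (.s k82 k80 0 (.s k86 k92 2 (.s k94 k90 1
  (.s k84 k87 0 (.s k252 k168 13 (.d k254 k14 k253 11 0))))))) .n)) (.c k174 (.l (.s k162 k243 12
  (.s k80 k82 0 (.s k86 k92 2 (.s k87 k84 0 (.d k95 k91 k90 1 2)))))) .n)))) (.c k174 (.l (.s k81
  k93 1 (.s k243 k162 12 (.s k166 k12 14 (.d k247 k251 k4 1 12))))) (.c k243 (.q k1 [(.s k3 k2 0 (.s
  k87 k171 13 (.s k86 k84 0 (.d k169 k253 k252 13 14)))), (.s k81 k93 1 (.s k169 k253 13 (.s k9 k249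
  11 (.s k13 k5 1 (.d k241 k161 k165 11 13))))), (.s k3 k2 0 (.s k93 k81 1 (.s k12 k174 12 (.s k8 k4
  1 (.s k9 k6 2 (.s k5 k13 1 (.d k10 k11 k15 0 2)))))))] .n) (.c k247 (.q k87 [(.s k86 k84 0 (.s k3
  k171 13 (.s k169 k252 14 (.d k1 k2 k253 0 13)))), (.s k81 k93 1 (.s k86 k84 0 (.s k83 k92 2 (.s
  k80 k82 0 (.d k95 k91 k90 1 2))))), (.s k3 k171 13 (.s k81 k93 1 (.s k243 k162 12 (.s k83 k163 11
  (.s k80 k82 0 (.d k95 k91 k90 1 2))))))] .n) (.c k251 (.l (.s k93 k81 1 (.s k12 k174 12 (.s k4 k8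
  1 (.d k166 k247 k243 12 14))))) .n))))))))))))

def t7_27 : T TT 256 :=
  (.f k255 k170 14 (.q k89 [(.s k81 k93 1 (.s k243 k162 12 (.s k166 k12 14 (.d k247 k251 k4 1
  12))))] (.c k4 (.q k5 [(.s k165 k245 11 (.s k15 k10 2 (.s k90 k240 14 (.d k95 k80 k175 2 11)))),
  (.s k93 k81 1 (.s k165 k245 11 (.s k13 k241 13 (.s k1 k9 1 (.d k253 k173 k169 11 13))))), (.s k15
  k10 2 (.s k81 k93 1 (.s k243 k162 12 (.s k91 k167 13 (.s k90 k88 0 (.d k95 k80 k175 2 11))))))]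
  .n) (.c k12 (.q k1 [(.s k3 k2 0 (.s k87 k171 13 (.s k86 k84 0 (.d k169 k253 k252 13 14)))), (.s
  k81 k93 1 (.s k169 k253 13 (.s k9 k249 11 (.s k13 k5 1 (.d k241 k161 k165 11 13))))), (.s k3 k2 0
  (.s k81 k93 1 (.s k161 k241 11 (.s k82 k240 12 (.s k83 k80 0 (.d k243 k163 k162 11 12))))))] .n)
  (.c k81 (.q k69 [(.s k101 k117 3 (.s k207 k138 10 (.s k154 k48 14 (.d k223 k239 k16 3 10)))), (.s
  k101 k117 3 (.s k77 k113 5 (.s k65 k73 1 (.s k195 k130 8 (.s k215 k235 5 (.s k150 k20 8 (.d k105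
  k125 k60 5 14)))))))] (.c k101 (.f k207 k138 10 (.q k154 [(.d k223 k239 k16 3 10), (.s k219 k24 8
  (.s k243 k231 5 (.s k166 k12 14 (.d k247 k251 k4 1 12))))] (.c k32 (.l (.s k239 k223 3 (.s k219
  k24 8 (.s k243 k231 5 (.s k166 k12 14 (.d k247 k251 k4 1 12)))))) (.c k239 (.q k32 [(.d k16 k48
  k223 3 10), (.s k219 k24 8 (.s k243 k231 5 (.s k247 k251 1 (.d k166 k4 k12 12 14))))] .n) .n))))
  (.c k117 (.l (.s k207 k138 10 (.s k223 k239 3 (.s k154 k16 10 (.s k219 k24 8 (.s k243 k231 5 (.s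
  k166 k12 14 (.d k247 k251 k4 1 12)))))))) .n))) (.c k93 (.q k21 [(.s k149 k213 7 (.s k63 k42 6 (.s
  k106 k192 14 (.d k127 k64 k191 6 7)))), (.s k149 k213 7 (.s k29 k209 9 (.s k17 k25 1 (.s k51 k34 4
  (.s k119 k187 9 (.s k102 k68 4 (.d k153 k221 k204 9 14)))))))] (.c k149 (.f k63 k42 6 (.q k106
  [(.d k127 k191 k64 7 6), (.s k123 k72 4 (.s k243 k183 9 (.s k166 k12 14 (.d k247 k251 k4 1 12))))]
  (.c k128 (.l (.s k191 k127 7 (.s k123 k72 4 (.s k243 k183 9 (.s k166 k12 14 (.d k247 k251 k4 1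
  12)))))) (.c k191 (.q k128 [(.d k64 k127 k192 6 7), (.s k123 k72 4 (.s k243 k183 9 (.s k247 k251 1
  (.d k166 k4 k12 12 14))))] .n) .n)))) (.c k213 (.l (.s k63 k42 6 (.s k127 k191 7 (.s k106 k64 6
  (.s k123 k72 4 (.s k243 k183 9 (.s k166 k12 14 (.d k247 k251 k4 1 12)))))))) .n))) (.c k162 (.l
  (.s k93 k81 1 (.s k12 k174 12 (.s k166 k243 14 (.d k4 k8 k247 1 12))))) (.c k166 (.f k81 k93 1 (.q
  k83 [(.s k80 k82 0 (.s k86 k92 2 (.s k87 k84 0 (.d k95 k91 k90 1 2)))), (.s k80 k82 0 (.s k240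
  k160 11 (.s k245 k250 2 (.s k165 k5 11 (.s k241 k13 13 (.d k243 k162 k242 12 0)))))), (.s k86 k92
  2 (.s k84 k87 0 (.s k252 k168 13 (.s k169 k3 14 (.d k253 k254 k1 0 13)))))] (.c k162 (.q k174 [(.s
  k80 k82 0 (.s k86 k92 2 (.s k87 k84 0 (.d k95 k91 k90 1 2)))), (.s k86 k92 2 (.s k84 k87 0 (.s
  k252 k168 13 (.s k169 k3 14 (.d k253 k254 k1 0 13))))), (.s k80 k82 0 (.s k240 k160 11 (.s k245
  k250 2 (.s k165 k5 11 (.d k90 k95 k15 2 14)))))] (.c k95 (.l (.s k82 k80 0 (.s k86 k92 2 (.s k94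
  k90 1 (.s k84 k87 0 (.s k252 k168 13 (.d k254 k14 k253 11 0))))))) .n)) (.c k174 (.l (.s k162 k243
  12 (.s k80 k82 0 (.s k86 k92 2 (.s k87 k84 0 (.d k95 k91 k90 1 2)))))) .n)))) (.c k174 (.l (.s k81
  k93 1 (.s k243 k162 12 (.s k166 k12 14 (.d k247 k251 k4 1 12))))) (.c k243 (.q k1 [(.s k3 k2 0 (.s
  k87 k171 13 (.s k86 k84 0 (.d k169 k253 k252 13 14)))), (.s k81 k93 1 (.s k169 k253 13 (.s k9 k249
  11 (.s k13 k5 1 (.d k241 k161 k165 11 13))))), (.s k3 k2 0 (.s k93 k81 1 (.s k12 k174 12 (.s k8 k4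
  1 (.s k9 k6 2 (.s k5 k13 1 (.d k10 k11 k15 0 2)))))))] .n) (.c k247 (.q k87 [(.s k86 k84 0 (.s k3
  k171 13 (.s k169 k252 14 (.d k1 k2 k253 0 13)))), (.s k81 k93 1 (.s k86 k84 0 (.s k83 k92 2 (.s
  k80 k82 0 (.d k95 k91 k90 1 2))))), (.s k3 k171 13 (.s k81 k93 1 (.s k243 k162 12 (.s k83 k163 11
  (.s k80 k82 0 (.d k95 k91 k90 1 2))))))] .n) (.c k251 (.l (.s k93 k81 1 (.s k12 k174 12 (.s k4 k8
  1 (.d k166 k247 k243 12 14))))) .n))))))))))))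

def t7_28 : T TT 256 :=
  (.f k255 k170 14 (.q k89 [(.s k93 k81 1 (.s k12 k174 12 (.s k4 k8 1 (.d k166 k247 k243 12 14))))]
  (.c k4 (.q k5 [(.s k165 k245 11 (.s k15 k10 2 (.s k90 k240 14 (.d k95 k80 k175 2 11)))), (.s k93
  k81 1 (.s k165 k245 11 (.s k13 k241 13 (.s k1 k9 1 (.d k253 k173 k169 11 13))))), (.s k15 k10 2
  (.s k81 k93 1 (.s k243 k162 12 (.s k91 k167 13 (.s k90 k88 0 (.d k95 k80 k175 2 11))))))] .n) (.c
  k8 (.l (.s k81 k93 1 (.s k243 k162 12 (.s k166 k12 14 (.d k247 k251 k4 1 12))))) (.c k12 (.q k60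
  [(.s k20 k40 5 (.s k125 k190 8 (.s k105 k65 5 (.d k150 k215 k195 8 14)))), (.s k81 k93 1 (.s k125
  k190 8 (.s k243 k162 12 (.s k121 k182 10 (.s k117 k113 1 (.s k186 k48 10 (.d k251 k247 k56 1
  8))))))), (.s k20 k40 5 (.s k81 k93 1 (.s k150 k215 8 (.s k105 k195 14 (.s k243 k162 12 (.d k121
  k73 k182 3 10))))))] (.c k150 (.l (.s k81 k93 1 (.s k243 k162 12 (.s k121 k182 10 (.s k105 k73 3
  (.d k125 k65 k190 5 8)))))) .n)) (.c k81 (.q k1 [(.s k169 k253 13 (.s k3 k2 0 (.s k86 k252 14 (.d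
  k87 k84 k171 0 13)))), (.s k169 k253 13 (.s k9 k249 11 (.s k5 k13 1 (.s k15 k10 2 (.s k95 k175 11
  (.s k90 k80 2 (.d k165 k245 k240 11 14)))))))] (.c k169 (.f k3 k2 0 (.q k86 [(.d k87 k171 k84 13
  0), (.s k83 k92 2 (.s k243 k163 11 (.s k166 k12 14 (.d k247 k251 k4 1 12))))] (.c k168 (.l (.s
  k171 k87 13 (.s k83 k92 2 (.s k243 k163 11 (.s k166 k12 14 (.d k247 k251 k4 1 12)))))) (.c k171
  (.q k168 [(.d k84 k87 k252 0 13), (.s k83 k92 2 (.s k243 k163 11 (.s k247 k251 1 (.d k166 k4 k12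
  12 14))))] .n) .n)))) (.c k253 (.l (.s k3 k2 0 (.s k87 k171 13 (.s k86 k84 0 (.s k83 k92 2 (.s
  k243 k163 11 (.s k166 k12 14 (.d k247 k251 k4 1 12)))))))) .n))) (.c k93 (.q k253 [(.s k169 k1 13
  (.s k252 k254 0 (.s k84 k168 13 (.d k86 k87 k3 0 14)))), (.s k169 k1 13 (.s k249 k9 11 (.s k245
  k241 1 (.s k240 k250 2 (.s k80 k160 11 (.s k90 k95 2 (.d k165 k5 k15 11 14)))))))] (.c k1 (.l (.s
  k252 k254 0 (.s k84 k168 13 (.s k86 k87 0 (.s k92 k83 2 (.s k12 k172 11 (.s k4 k8 1 (.d k166 k247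
  k243 12 14)))))))) (.c k158 (.q k223 [(.s k169 k1 13 (.s k252 k254 0 (.s k84 k168 13 (.d k86 k87
  k3 0 14)))), (.s k154 k16 10 (.s k207 k239 3 (.s k69 k138 10 (.d k101 k117 k48 3 14))))] .n) (.c
  k169 (.q k207 [(.s k69 k138 10 (.s k101 k117 3 (.s k154 k48 14 (.d k223 k239 k16 3 10)))), (.s
  k252 k254 0 (.s k237 k222 4 (.s k221 k205 3 (.s k238 k204 4 (.d k239 k223 k236 3 0)))))] (.c k158
  (.l (.s k223 k239 3 (.s k69 k138 10 (.s k101 k117 3 (.d k154 k16 k48 10 14))))) (.c k168 (.q k171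
  [(.s k69 k138 10 (.s k101 k117 3 (.s k154 k48 14 (.d k223 k239 k16 3 10)))), (.s k3 k87 13 (.s
  k139 k71 9 (.s k155 k187 3 (.s k103 k51 13 (.d k239 k223 k35 3 9)))))] (.c k158 (.l (.s k223 k239
  3 (.s k69 k138 10 (.s k101 k117 3 (.d k154 k16 k48 10 14))))) (.c k223 (.q k158 [(.s k60 k109 12
  (.s k125 k190 8 (.s k105 k65 5 (.s k150 k195 14 (.d k20 k40 k215 5 8))))), (.s k3 k87 13 (.s k1 k2
  0 (.s k69 k138 10 (.s k71 k139 9 (.s k70 k68 0 (.d k137 k205 k204 9 10))))))] .n) (.c k239 (.l (.s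
  k3 k87 13 (.s k1 k2 0 (.s k69 k138 10 (.s k71 k139 9 (.s k70 k68 0 (.d k137 k205 k204 9 10)))))))
  .n)))) (.c k171 (.q k168 [(.d k252 k254 k84 0 13), (.s k69 k138 10 (.s k101 k117 3 (.s k154 k48 14
  (.d k223 k239 k16 3 10))))] (.c k158 (.l (.s k223 k239 3 (.d k252 k254 k84 0 13))) (.c k223 (.q
  k158 [(.d k252 k254 k84 0 13), (.s k60 k109 12 (.s k20 k40 5 (.s k125 k190 8 (.s k105 k65 5 (.d
  k150 k215 k195 8 14)))))] .n) .n))) (.c k223 (.q k158 [(.s k60 k109 12 (.s k20 k40 5 (.s k125 k190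
  8 (.s k105 k65 5 (.d k150 k215 k195 8 14))))), (.s k69 k138 10 (.s k101 k117 3 (.s k77 k113 5 (.s
  k12 k142 8 (.s k4 k8 1 (.d k166 k247 k243 12 14)))))), (.s k69 k138 10 (.s k101 k117 3 (.s k154
  k48 14 (.s k150 k146 1 (.s k20 k215 8 (.d k60 k40 k109 5 12))))))] (.c k168 (.q k171 [(.s k60 k109
  12 (.s k125 k190 8 (.s k105 k65 5 (.s k150 k195 14 (.d k20 k40 k215 5 8))))), (.s k3 k87 13 (.s k1
  k2 0 (.s k69 k138 10 (.s k71 k139 9 (.s k70 k68 0 (.d k137 k205 k204 9 10))))))] .n) (.c k171 (.q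
  k168 [(.d k252 k254 k84 0 13), (.s k60 k109 12 (.s k20 k40 5 (.s k125 k190 8 (.s k105 k65 5 (.d
  k150 k215 k195 8 14)))))] .n) .n))) (.c k239 (.l (.s k69 k138 10 (.s k101 k117 3 (.s k77 k113 5
  (.s k12 k142 8 (.s k4 k8 1 (.d k166 k247 k243 12 14))))))) .n)))))) (.c k223 (.q k158 [(.s k169 k1
  13 (.s k252 k254 0 (.s k84 k168 13 (.d k86 k87 k3 0 14)))), (.s k169 k1 13 (.s k249 k9 11 (.s k245
  k241 1 (.s k240 k250 2 (.s k80 k160 11 (.s k90 k95 2 (.d k165 k5 k15 11 14)))))))] (.c k1 (.l (.s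
  k252 k254 0 (.s k84 k168 13 (.s k86 k87 0 (.s k92 k83 2 (.s k12 k172 11 (.s k4 k8 1 (.d k166 k247
  k243 12 14)))))))) (.c k169 (.q k207 [(.s k60 k109 12 (.s k20 k40 5 (.s k125 k190 8 (.s k105 k65 5
  (.d k150 k215 k195 8 14))))), (.s k69 k138 10 (.s k101 k117 3 (.s k77 k113 5 (.s k12 k142 8 (.s k4
  k8 1 (.d k166 k247 k243 12 14)))))), (.s k69 k138 10 (.s k101 k117 3 (.s k154 k48 14 (.s k150 k146
  1 (.s k20 k215 8 (.d k60 k40 k109 5 12))))))] (.c k168 (.q k171 [(.s k60 k109 12 (.s k125 k190 8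
  (.s k105 k65 5 (.s k150 k195 14 (.d k20 k40 k215 5 8))))), (.s k3 k87 13 (.s k1 k2 0 (.s k69 k138
  10 (.s k71 k139 9 (.s k70 k68 0 (.d k137 k205 k204 9 10))))))] .n) (.c k171 (.q k168 [(.d k252
  k254 k84 0 13), (.s k60 k109 12 (.s k20 k40 5 (.s k125 k190 8 (.s k105 k65 5 (.d k150 k215 k195 8
  14)))))] .n) .n))) .n))) .n))))) (.c k162 (.l (.s k93 k81 1 (.s k12 k174 12 (.s k166 k243 14 (.d
  k4 k8 k247 1 12))))) (.c k166 (.f k81 k93 1 (.f k162 k243 12 (.q k16 [(.s k48 k32 3 (.s k117 k186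
  10 (.s k101 k69 3 (.d k154 k223 k207 10 14)))), (.s k146 k211 8 (.s k130 k178 3 (.s k195 k65 8 (.s
  k215 k235 5 (.s k150 k20 8 (.d k154 k158 k223 1 10))))))] (.c k48 (.l (.s k211 k146 8 (.s k223
  k154 10 (.s k215 k219 1 (.s k150 k20 8 (.s k195 k235 5 (.s k65 k130 8 (.d k105 k125 k60 5
  14)))))))) (.c k154 (.l (.s k48 k32 3 (.s k146 k211 8 (.s k195 k97 12 (.d k130 k178 k65 3 8)))))
  (.c k158 (.l (.s k223 k154 10 (.s k48 k32 3 (.s k146 k211 8 (.s k195 k97 12 (.d k130 k178 k65 3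
  8)))))) (.c k223 (.q k158 [(.s k48 k32 3 (.s k146 k211 8 (.s k195 k97 12 (.d k130 k178 k65 3
  8)))), (.s k48 k32 3 (.s k117 k186 10 (.s k101 k69 3 (.s k113 k77 5 (.s k65 k97 3 (.d k125 k121
  k105 1 5)))))), (.s k146 k211 8 (.s k150 k154 1 (.s k215 k20 8 (.s k195 k235 5 (.d k130 k178 k65 3
  8)))))] (.c k65 (.l (.s k48 k32 3 (.s k117 k186 10 (.s k101 k69 3 (.s k146 k211 8 (.d k154 k150
  k207 1 14)))))) .n)) .n))))))) (.c k174 (.l (.s k81 k93 1 (.s k243 k162 12 (.s k166 k12 14 (.d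
  k247 k251 k4 1 12))))) (.c k243 (.q k1 [(.s k3 k2 0 (.s k87 k171 13 (.s k86 k84 0 (.d k169 k253
  k252 13 14)))), (.s k81 k93 1 (.s k169 k253 13 (.s k9 k249 11 (.s k13 k5 1 (.d k241 k161 k165 11
  13))))), (.s k3 k2 0 (.s k93 k81 1 (.s k12 k174 12 (.s k8 k4 1 (.s k9 k6 2 (.s k5 k13 1 (.d k10
  k11 k15 0 2)))))))] .n) (.c k247 (.q k87 [(.s k86 k84 0 (.s k3 k171 13 (.s k169 k252 14 (.d k1 k2
  k253 0 13)))), (.s k81 k93 1 (.s k86 k84 0 (.s k83 k92 2 (.s k80 k82 0 (.d k95 k91 k90 1 2))))),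
  (.s k3 k171 13 (.s k81 k93 1 (.s k243 k162 12 (.s k83 k163 11 (.s k80 k82 0 (.d k95 k91 k90 1
  2))))))] .n) .n))))))))))))

def t7_30 : T TT 256 :=
  (.f k255 k170 14 (.q k89 [(.s k81 k93 1 (.s k243 k162 12 (.s k166 k12 14 (.d k247 k251 k4 1
  12))))] (.c k4 (.q k5 [(.s k165 k245 11 (.s k15 k10 2 (.s k90 k240 14 (.d k95 k80 k175 2 11)))),
  (.s k93 k81 1 (.s k165 k245 11 (.s k13 k241 13 (.s k1 k9 1 (.d k253 k173 k169 11 13))))), (.s k15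
  k10 2 (.s k81 k93 1 (.s k243 k162 12 (.s k91 k167 13 (.s k90 k88 0 (.d k95 k80 k175 2 11))))))]
  .n) (.c k12 (.q k1 [(.s k3 k2 0 (.s k87 k171 13 (.s k86 k84 0 (.d k169 k253 k252 13 14)))), (.s
  k81 k93 1 (.s k169 k253 13 (.s k9 k249 11 (.s k13 k5 1 (.d k241 k161 k165 11 13))))), (.s k3 k2 0
  (.s k81 k93 1 (.s k161 k241 11 (.s k82 k240 12 (.s k83 k80 0 (.d k243 k163 k162 11 12))))))] .n)
  (.c k81 (.q k69 [(.s k101 k117 3 (.s k207 k138 10 (.s k154 k48 14 (.d k223 k239 k16 3 10)))), (.s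
  k101 k117 3 (.s k77 k113 5 (.s k65 k73 1 (.s k195 k130 8 (.s k215 k235 5 (.s k150 k20 8 (.d k105
  k125 k60 5 14)))))))] (.c k101 (.f k207 k138 10 (.q k154 [(.d k223 k239 k16 3 10), (.s k219 k24 8
  (.s k243 k231 5 (.s k166 k12 14 (.d k247 k251 k4 1 12))))] (.c k32 (.l (.s k239 k223 3 (.s k219
  k24 8 (.s k243 k231 5 (.s k166 k12 14 (.d k247 k251 k4 1 12)))))) (.c k239 (.q k32 [(.d k16 k48
  k223 3 10), (.s k219 k24 8 (.s k243 k231 5 (.s k247 k251 1 (.d k166 k4 k12 12 14))))] .n) .n))))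
  (.c k117 (.l (.s k207 k138 10 (.s k223 k239 3 (.s k154 k16 10 (.s k219 k24 8 (.s k243 k231 5 (.s
  k166 k12 14 (.d k247 k251 k4 1 12)))))))) .n))) (.c k93 (.q k21 [(.s k149 k213 7 (.s k63 k42 6 (.s
  k106 k192 14 (.d k127 k64 k191 6 7)))), (.s k149 k213 7 (.s k29 k209 9 (.s k17 k25 1 (.s k51 k34 4
  (.s k119 k187 9 (.s k102 k68 4 (.d k153 k221 k204 9 14)))))))] (.c k149 (.f k63 k42 6 (.q k106
  [(.d k127 k191 k64 7 6), (.s k123 k72 4 (.s k243 k183 9 (.s k166 k12 14 (.d k247 k251 k4 1 12))))]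
  (.c k128 (.l (.s k191 k127 7 (.s k123 k72 4 (.s k243 k183 9 (.s k166 k12 14 (.d k247 k251 k4 1
  12)))))) (.c k191 (.q k128 [(.d k64 k127 k192 6 7), (.s k123 k72 4 (.s k243 k183 9 (.s k247 k251 1
  (.d k166 k4 k12 12 14))))] .n) .n)))) (.c k213 (.l (.s k63 k42 6 (.s k127 k191 7 (.s k106 k64 6
  (.s k123 k72 4 (.s k243 k183 9 (.s k166 k12 14 (.d k247 k251 k4 1 12)))))))) .n))) (.c k162 (.l
  (.s k93 k81 1 (.s k12 k174 12 (.s k166 k243 14 (.d k4 k8 k247 1 12))))) (.c k166 (.f k81 k93 1 (.q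
  k83 [(.s k80 k82 0 (.s k86 k92 2 (.s k87 k84 0 (.d k95 k91 k90 1 2)))), (.s k80 k82 0 (.s k240
  k160 11 (.s k245 k250 2 (.s k165 k5 11 (.s k241 k13 13 (.d k243 k162 k242 12 0)))))), (.s k86 k92
  2 (.s k84 k87 0 (.s k252 k168 13 (.s k169 k3 14 (.d k253 k254 k1 0 13)))))] (.c k162 (.q k174 [(.s
  k86 k92 2 (.s k87 k84 0 (.s k95 k91 1 (.d k80 k82 k90 0 2)))), (.s k80 k82 0 (.s k240 k160 11 (.s
  k245 k250 2 (.s k165 k5 11 (.d k90 k95 k15 2 14))))), (.s k86 k92 2 (.s k84 k87 0 (.s k252 k168 13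
  (.s k169 k3 14 (.d k253 k254 k1 0 13)))))] (.c k95 (.l (.s k82 k80 0 (.s k86 k92 2 (.s k94 k90 1
  (.s k84 k87 0 (.s k252 k168 13 (.d k254 k14 k253 11 0))))))) .n)) (.c k174 (.l (.s k162 k243 12
  (.s k80 k82 0 (.s k86 k92 2 (.s k87 k84 0 (.d k95 k91 k90 1 2)))))) .n)))) (.c k174 (.l (.s k81
  k93 1 (.s k243 k162 12 (.s k166 k12 14 (.d k247 k251 k4 1 12))))) (.c k243 (.q k1 [(.s k3 k2 0 (.s
  k87 k171 13 (.s k86 k84 0 (.d k169 k253 k252 13 14)))), (.s k81 k93 1 (.s k169 k253 13 (.s k9 k249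
  11 (.s k13 k5 1 (.d k241 k161 k165 11 13))))), (.s k3 k2 0 (.s k93 k81 1 (.s k12 k174 12 (.s k8 k4
  1 (.s k9 k6 2 (.s k5 k13 1 (.d k10 k11 k15 0 2)))))))] .n) (.c k247 (.q k87 [(.s k86 k84 0 (.s k3
  k171 13 (.s k169 k252 14 (.d k1 k2 k253 0 13)))), (.s k81 k93 1 (.s k86 k84 0 (.s k83 k92 2 (.s
  k80 k82 0 (.d k95 k91 k90 1 2))))), (.s k3 k171 13 (.s k81 k93 1 (.s k243 k162 12 (.s k83 k163 11
  (.s k80 k82 0 (.d k95 k91 k90 1 2))))))] .n) (.c k251 (.l (.s k93 k81 1 (.s k12 k174 12 (.s k4 k8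
  1 (.d k166 k247 k243 12 14))))) .n))))))))))))

def t7_31 : T TT 256 :=
  (.f k255 k170 14 (.q k89 [(.s k81 k93 1 (.s k243 k162 12 (.s k166 k12 14 (.d k247 k251 k4 1
  12))))] (.c k4 (.q k5 [(.s k165 k245 11 (.s k15 k10 2 (.s k90 k240 14 (.d k95 k80 k175 2 11)))),
  (.s k93 k81 1 (.s k165 k245 11 (.s k13 k241 13 (.s k1 k9 1 (.d k253 k173 k169 11 13))))), (.s k15
  k10 2 (.s k81 k93 1 (.s k243 k162 12 (.s k91 k167 13 (.s k90 k88 0 (.d k95 k80 k175 2 11))))))]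
  .n) (.c k12 (.q k1 [(.s k3 k2 0 (.s k87 k171 13 (.s k86 k84 0 (.d k169 k253 k252 13 14)))), (.s
  k81 k93 1 (.s k169 k253 13 (.s k9 k249 11 (.s k13 k5 1 (.d k241 k161 k165 11 13))))), (.s k3 k2 0
  (.s k81 k93 1 (.s k161 k241 11 (.s k82 k240 12 (.s k83 k80 0 (.d k243 k163 k162 11 12))))))] .n)
  (.c k81 (.q k69 [(.s k101 k117 3 (.s k207 k138 10 (.s k154 k48 14 (.d k223 k239 k16 3 10)))), (.s
  k101 k117 3 (.s k77 k113 5 (.s k65 k73 1 (.s k195 k130 8 (.s k215 k235 5 (.s k150 k20 8 (.d k105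
  k125 k60 5 14)))))))] (.c k101 (.f k207 k138 10 (.q k154 [(.d k223 k239 k16 3 10), (.s k219 k24 8
  (.s k243 k231 5 (.s k166 k12 14 (.d k247 k251 k4 1 12))))] (.c k32 (.l (.s k239 k223 3 (.s k219
  k24 8 (.s k243 k231 5 (.s k166 k12 14 (.d k247 k251 k4 1 12)))))) (.c k239 (.q k32 [(.d k16 k48
  k223 3 10), (.s k219 k24 8 (.s k243 k231 5 (.s k247 k251 1 (.d k166 k4 k12 12 14))))] .n) .n))))
  (.c k117 (.l (.s k207 k138 10 (.s k223 k239 3 (.s k154 k16 10 (.s k219 k24 8 (.s k243 k231 5 (.s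
  k166 k12 14 (.d k247 k251 k4 1 12)))))))) .n))) (.c k93 (.q k68 [(.s k102 k119 4 (.s k204 k136 9
  (.s k153 k51 14 (.d k221 k238 k17 4 9)))), (.s k102 k119 4 (.s k76 k115 6 (.s k64 k72 1 (.s k192
  k128 7 (.s k213 k234 6 (.s k149 k21 7 (.d k106 k127 k63 6 14)))))))] (.c k102 (.f k204 k136 9 (.q
  k153 [(.d k221 k238 k17 4 9), (.s k217 k25 7 (.s k243 k230 6 (.s k166 k12 14 (.d k247 k251 k4 1
  12))))] (.c k34 (.l (.s k238 k221 4 (.s k217 k25 7 (.s k243 k230 6 (.s k166 k12 14 (.d k247 k251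
  k4 1 12)))))) (.c k238 (.q k34 [(.d k17 k51 k221 4 9), (.s k217 k25 7 (.s k243 k230 6 (.s k247
  k251 1 (.d k166 k4 k12 12 14))))] .n) .n)))) (.c k119 (.l (.s k204 k136 9 (.s k221 k238 4 (.s k153
  k17 9 (.s k217 k25 7 (.s k243 k230 6 (.s k166 k12 14 (.d k247 k251 k4 1 12)))))))) .n))) (.c k162
  (.l (.s k93 k81 1 (.s k12 k174 12 (.s k166 k243 14 (.d k4 k8 k247 1 12))))) (.c k166 (.f k81 k93 1
  (.q k83 [(.s k80 k82 0 (.s k86 k92 2 (.s k87 k84 0 (.d k95 k91 k90 1 2)))), (.s k80 k82 0 (.s k240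
  k160 11 (.s k245 k250 2 (.s k165 k5 11 (.s k241 k13 13 (.d k243 k162 k242 12 0)))))), (.s k86 k92
  2 (.s k84 k87 0 (.s k252 k168 13 (.s k169 k3 14 (.d k253 k254 k1 0 13)))))] (.c k162 (.q k174 [(.s
  k80 k82 0 (.s k86 k92 2 (.s k87 k84 0 (.d k95 k91 k90 1 2)))), (.s k86 k92 2 (.s k84 k87 0 (.s
  k252 k168 13 (.s k169 k3 14 (.d k253 k254 k1 0 13))))), (.s k80 k82 0 (.s k240 k160 11 (.s k245
  k250 2 (.s k165 k5 11 (.d k90 k95 k15 2 14)))))] (.c k95 (.l (.s k82 k80 0 (.s k86 k92 2 (.s k94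
  k90 1 (.s k84 k87 0 (.s k252 k168 13 (.d k254 k14 k253 11 0))))))) .n)) (.c k174 (.l (.s k162 k243
  12 (.s k80 k82 0 (.s k86 k92 2 (.s k87 k84 0 (.d k95 k91 k90 1 2)))))) .n)))) (.c k174 (.l (.s k81
  k93 1 (.s k243 k162 12 (.s k166 k12 14 (.d k247 k251 k4 1 12))))) (.c k243 (.q k1 [(.s k3 k2 0 (.s
  k87 k171 13 (.s k86 k84 0 (.d k169 k253 k252 13 14)))), (.s k81 k93 1 (.s k169 k253 13 (.s k9 k249
  11 (.s k13 k5 1 (.d k241 k161 k165 11 13))))), (.s k3 k2 0 (.s k93 k81 1 (.s k12 k174 12 (.s k8 k4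
  1 (.s k9 k6 2 (.s k5 k13 1 (.d k10 k11 k15 0 2)))))))] .n) (.c k247 (.q k87 [(.s k86 k84 0 (.s k3
  k171 13 (.s k169 k252 14 (.d k1 k2 k253 0 13)))), (.s k81 k93 1 (.s k86 k84 0 (.s k83 k92 2 (.s
  k80 k82 0 (.d k95 k91 k90 1 2))))), (.s k3 k171 13 (.s k81 k93 1 (.s k243 k162 12 (.s k83 k163 11
  (.s k80 k82 0 (.d k95 k91 k90 1 2))))))] .n) (.c k251 (.l (.s k93 k81 1 (.s k12 k174 12 (.s k4 k8
  1 (.d k166 k247 k243 12 14))))) .n))))))))))))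

def t7_34 : T TT 256 :=
  (.f k170 k255 14 (.q k252 [(.s k168 k84 13 (.s k169 k171 0 (.s k1 k253 13 (.d k3 k2 k86 0 14))))]
  (.c k1 (.q k4 [(.s k12 k8 1 (.s k166 k247 12 (.s k162 k174 1 (.d k243 k81 k89 12 14)))), (.s k84
  k168 13 (.s k244 k164 11 (.s k240 k248 1 (.s k160 k80 11 (.s k165 k175 2 (.s k5 k245 11 (.d k15
  k10 k90 2 14)))))))] (.c k8 (.l (.s k84 k168 13 (.s k166 k247 12 (.s k162 k174 1 (.s k243 k81 12
  (.s k246 k249 2 (.d k86 k87 k6 0 11))))))) .n)) (.c k2 (.f k84 k168 13 (.q k166 [(.s k162 k174 1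
  (.s k243 k81 12 (.s k12 k89 14 (.d k4 k8 k247 1 12)))), (.s k4 k247 12 (.s k12 k8 1 (.s k92 k172
  11 (.s k88 k80 1 (.d k164 k244 k240 11 13))))), (.s k162 k174 1 (.s k243 k81 12 (.s k246 k249 2
  (.d k86 k87 k6 0 11))))] (.c k12 (.l (.s k86 k87 0 (.s k246 k6 11 (.s k243 k249 2 (.d k162 k174
  k81 1 12))))) (.c k18 (.q k50 [(.s k162 k174 1 (.s k243 k81 12 (.s k12 k89 14 (.d k4 k8 k247 1
  12)))), (.s k4 k247 12 (.s k12 k8 1 (.s k92 k172 11 (.s k88 k80 1 (.d k164 k244 k240 11 13))))),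
  (.s k162 k174 1 (.s k243 k81 12 (.s k246 k249 2 (.d k86 k87 k6 0 11))))] (.c k12 (.l (.s k86 k87 0
  (.s k246 k6 11 (.s k243 k249 2 (.d k162 k174 k81 1 12))))) (.c k243 (.l (.s k86 k87 0 (.s k3 k169
  14 (.s k6 k246 11 (.s k12 k9 2 (.d k4 k247 k8 12 1)))))) .n))) (.c k50 (.q k18 [(.s k162 k174 1
  (.s k243 k81 12 (.s k12 k89 14 (.d k4 k8 k247 1 12)))), (.s k4 k247 12 (.s k12 k8 1 (.s k92 k172
  11 (.s k88 k80 1 (.d k164 k244 k240 11 13))))), (.s k162 k174 1 (.s k243 k81 12 (.s k246 k249 2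
  (.d k86 k87 k6 0 11))))] (.c k12 (.l (.s k86 k87 0 (.s k246 k6 11 (.s k243 k249 2 (.d k162 k174
  k81 1 12))))) (.c k243 (.l (.s k86 k87 0 (.s k3 k169 14 (.s k6 k246 11 (.s k12 k9 2 (.d k4 k247 k8
  12 1)))))) .n))) (.c k243 (.l (.s k86 k87 0 (.s k3 k169 14 (.s k6 k246 11 (.s k12 k9 2 (.d k4 k247
  k8 12 1)))))) .n)))))) (.c k3 (.f k168 k84 13 (.f k171 k169 0 (.q k240 [(.s k80 k160 11 (.s k90
  k95 2 (.s k10 k250 11 (.d k15 k5 k165 2 14)))), (.s k160 k80 11 (.s k164 k172 1 (.s k88 k12 13 (.d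
  k248 k244 k8 1 11))))] (.c k11 (.q k15 [(.s k80 k160 11 (.d k90 k95 k165 2 14)), (.s k5 k10 2 (.d
  k165 k90 k245 14 11))] (.c k90 (.l (.s k248 k244 1 (.s k5 k10 2 (.s k160 k80 11 (.d k165 k175 k245
  2 11))))) (.c k165 (.l (.s k10 k5 2 (.s k80 k160 11 (.d k90 k95 k250 2 11)))) (.c k248 (.l (.s k90
  k165 14 (.d k10 k5 k250 2 11))) .n)))) (.c k15 (.q k11 [(.s k251 k91 11 (.s k8 k89 12 (.d k248 k88
  k244 11 1))), (.s k160 k80 11 (.s k164 k172 1 (.s k88 k12 13 (.d k248 k244 k8 1 11)))), (.s k80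
  k160 11 (.s k248 k244 1 (.s k251 k91 11 (.s k250 k249 0 (.d k90 k95 k10 2 11))))), (.s k160 k80 11
  (.s k164 k172 1 (.s k251 k91 11 (.s k8 k89 12 (.d k12 k88 k4 13 1)))))] (.c k9 (.l (.s k248 k244 1
  (.s k8 k88 11 (.d k251 k91 k89 11 12)))) (.c k95 (.q k175 [(.d k160 k165 k80 2 11), (.s k251 k91
  11 (.s k8 k89 12 (.d k248 k88 k244 11 1)))] .n) (.c k175 (.q k95 [(.d k80 k90 k160 2 11), (.s k248
  k244 1 (.s k251 k91 11 (.d k8 k88 k89 11 12)))] .n) .n)))) (.c k80 (.l (.s k248 k244 1 (.s k88 k8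
  11 (.s k164 k12 13 (.s k160 k172 1 (.s k165 k175 2 (.s k5 k245 11 (.d k15 k10 k90 2 14)))))))) (.c
  k160 (.l (.s k248 k244 1 (.s k8 k88 11 (.s k89 k251 12 (.s k81 k93 1 (.s k243 k162 12 (.d k12 k4
  k166 1 14))))))) .n))))))) (.c k84 (.q k149 [(.s k21 k213 7 (.s k63 k42 6 (.s k128 k191 6 (.d k192
  k64 k106 7 14)))), (.s k128 k191 6 (.s k192 k64 7 (.s k212 k232 5 (.s k86 k23 8 (.s k2 k254 13 (.d
  k3 k1 k169 0 14)))))), (.s k21 k213 7 (.s k63 k42 6 (.s k189 k126 8 (.s k169 k129 5 (.s k1 k253 13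
  (.d k3 k2 k86 0 14))))))] (.c k63 (.q k189 [(.s k169 k129 5 (.s k1 k253 13 (.d k3 k2 k86 0 14))),
  (.s k191 k128 6 (.s k188 k190 0 (.s k60 k124 7 (.s k20 k40 5 (.s k150 k215 8 (.s k131 k169 6 (.d
  k151 k148 k171 0 5)))))))] (.c k127 (.l (.s k191 k128 6 (.s k169 k129 5 (.s k1 k253 13 (.d k3 k2
  k86 0 14))))) (.c k169 (.l (.s k191 k128 6 (.s k188 k190 0 (.s k60 k124 7 (.s k40 k20 5 (.s k105
  k235 8 (.s k61 k193 13 (.d k125 k65 k253 5 7)))))))) (.c k191 (.q k127 [(.s k169 k129 5 (.s k1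
  k253 13 (.d k3 k2 k86 0 14))), (.s k64 k106 6 (.s k169 k129 5 (.s k86 k3 14 (.s k192 k128 7 (.d
  k212 k23 k232 8 5))))), (.s k169 k129 5 (.s k213 k21 7 (.s k253 k1 13 (.s k61 k125 7 (.d k193 k233
  k105 5 13)))))] (.c k129 (.l (.s k64 k106 6 (.s k192 k128 7 (.s k212 k232 5 (.s k86 k23 8 (.s k2
  k254 13 (.d k3 k169 k1 14 0))))))) (.c k169 (.q k1 [(.s k21 k213 7 (.s k61 k41 5 (.s k105 k193 13
  (.d k125 k253 k65 7 5)))), (.s k2 k3 0 (.s k64 k106 6 (.s k86 k254 13 (.s k192 k128 7 (.d k212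
  k232 k23 5 8)))))] (.c k192 (.l (.s k106 k64 6 (.s k21 k213 7 (.s k234 k42 7 (.s k61 k41 5 (.s
  k105 k193 13 (.d k125 k253 k65 7 5))))))) .n)) .n))) .n)))) (.c k192 (.q k129 [(.s k189 k169 5 (.s
  k63 k126 8 (.d k21 k213 k42 7 6))), (.s k128 k191 6 (.s k130 k131 0 (.s k65 k195 8 (.s k105 k125 5
  (.d k193 k1 k61 7 13)))))] (.c k63 (.l (.s k169 k189 5 (.s k1 k253 13 (.d k3 k2 k86 0 14)))) (.c
  k213 (.q k234 [(.s k42 k106 7 (.s k63 k21 6 (.d k189 k169 k126 5 8))), (.s k128 k191 6 (.s k130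
  k131 0 (.s k65 k195 8 (.s k105 k125 5 (.d k193 k1 k61 7 13)))))] (.c k63 (.l (.s k169 k189 5 (.s
  k1 k253 13 (.d k3 k2 k86 0 14)))) .n)) (.c k234 (.l (.s k213 k21 7 (.s k169 k189 5 (.s k1 k253 13
  (.d k3 k2 k86 0 14))))) .n)))) .n))) (.c k86 (.q k165 [(.s k5 k245 11 (.s k15 k10 2 (.s k160 k175
  2 (.d k240 k80 k90 11 14)))), (.s k5 k245 11 (.s k168 k84 13 (.s k169 k171 0 (.s k1 k253 13 (.s
  k13 k9 1 (.s k161 k173 1 (.d k241 k81 k89 11 13))))))), (.s k160 k175 2 (.s k168 k84 13 (.s k164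
  k172 1 (.s k240 k80 11 (.s k88 k12 13 (.d k248 k244 k8 1 11))))))] (.c k240 (.l (.s k168 k84 13
  (.s k169 k171 0 (.s k173 k161 1 (.s k15 k94 12 (.d k5 k10 k245 2 11)))))) .n)) (.c k87 (.l (.s
  k168 k84 13 (.s k169 k171 0 (.s k3 k86 14 (.d k1 k2 k253 0 13))))) (.c k168 (.q k149 [(.s k21 k213
  7 (.s k128 k191 6 (.s k192 k64 7 (.d k63 k42 k106 6 14)))), (.s k128 k191 6 (.s k192 k64 7 (.s
  k212 k232 5 (.s k86 k23 8 (.s k2 k254 13 (.d k3 k1 k169 0 14)))))), (.s k21 k213 7 (.s k63 k42 6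
  (.s k189 k126 8 (.s k169 k129 5 (.s k1 k253 13 (.d k3 k2 k86 0 14))))))] (.c k63 (.q k212 [(.s
  k192 k232 5 (.d k128 k191 k64 6 7)), (.s k86 k23 8 (.s k2 k254 13 (.d k3 k1 k169 0 14)))] (.c k127
  (.l (.s k191 k128 6 (.s k86 k23 8 (.s k2 k254 13 (.d k3 k1 k169 0 14))))) (.c k191 (.q k127 [(.s
  k64 k106 6 (.d k192 k232 k128 5 7)), (.s k86 k23 8 (.s k2 k254 13 (.d k3 k1 k169 0 14)))] .n)
  .n))) (.c k192 (.q k132 [(.s k128 k191 6 (.s k140 k136 1 (.s k166 k183 4 (.s k162 k174 1 (.d k179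
  k145 k153 4 6))))), (.s k166 k183 4 (.s k4 k247 12 (.s k12 k8 1 (.s k162 k174 1 (.d k243 k81 k89
  12 14))))), (.s k128 k191 6 (.s k136 k140 1 (.s k68 k204 9 (.s k102 k119 4 (.d k196 k4 k55 7
  12))))), (.s k128 k191 6 (.s k166 k183 4 (.s k4 k247 12 (.s k68 k196 7 (.d k136 k204 k140 9
  1)))))] (.c k213 (.q k234 [(.s k128 k191 6 (.s k140 k136 1 (.s k166 k183 4 (.s k162 k174 1 (.d
  k179 k145 k153 4 6))))), (.s k166 k183 4 (.s k4 k247 12 (.s k12 k8 1 (.s k162 k174 1 (.d k243 k81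
  k89 12 14))))), (.s k128 k191 6 (.s k136 k140 1 (.s k68 k204 9 (.s k102 k119 4 (.d k196 k4 k55 7
  12))))), (.s k42 k106 7 (.s k21 k63 6 (.s k166 k183 4 (.s k4 k247 12 (.s k55 k38 4 (.d k196 k68
  k102 7 12))))))] .n) (.c k234 (.l (.s k213 k21 7 (.s k128 k191 6 (.s k136 k140 1 (.s k68 k204 9
  (.s k102 k119 4 (.d k196 k4 k55 7 12))))))) .n))) .n))) (.c k169 (.q k4 [(.s k12 k8 1 (.s k166
  k247 12 (.s k162 k174 1 (.d k243 k81 k89 12 14)))), (.s k84 k168 13 (.s k244 k164 11 (.s k240 k248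
  1 (.s k160 k80 11 (.s k165 k175 2 (.s k5 k245 11 (.d k15 k90 k10 14 2)))))))] (.c k8 (.l (.s k84
  k168 13 (.s k166 k247 12 (.s k162 k174 1 (.s k243 k81 12 (.s k246 k249 2 (.d k86 k87 k6 0
  11))))))) .n)) (.c k171 (.l (.s k84 k168 13 (.s k86 k87 0 (.s k3 k169 14 (.d k2 k1 k254 0 13)))))
  (.c k253 (.l (.s k84 k168 13 (.s k86 k87 0 (.s k2 k254 13 (.d k3 k1 k169 0 14))))) .n))))))))))))

def t7_35 : T TT 256 :=
  (.f k255 k170 14 (.q k106 [(.s k64 k127 6 (.s k192 k128 7 (.s k149 k63 14 (.d k213 k234 k21 6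
  7))))] (.c k21 (.q k1 [(.s k3 k2 0 (.s k169 k253 13 (.s k86 k252 14 (.d k87 k84 k171 0 13)))), (.s
  k64 k127 6 (.s k192 k128 7 (.s k213 k234 6 (.s k253 k169 13 (.s k193 k233 5 (.s k65 k129 7 (.d
  k195 k130 k194 8 0))))))), (.s k3 k2 0 (.s k64 k127 6 (.s k192 k128 7 (.s k66 k129 8 (.s k86 k126
  5 (.d k87 k84 k171 0 13))))))] (.c k171 (.l (.s k3 k2 0 (.s k127 k64 6 (.s k63 k191 7 (.s k43 k23
  5 (.d k169 k232 k253 8 13)))))) .n)) (.c k63 (.q k1 [(.s k3 k2 0 (.s k169 k253 13 (.s k86 k252 14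
  (.d k87 k84 k171 0 13)))), (.s k64 k127 6 (.s k192 k128 7 (.s k213 k234 6 (.s k253 k169 13 (.s
  k193 k233 5 (.s k65 k129 7 (.d k195 k130 k194 8 0))))))), (.s k64 k127 6 (.s k169 k253 13 (.s k192
  k128 7 (.s k232 k43 8 (.s k252 k212 5 (.s k84 k168 13 (.d k86 k3 k87 14 0))))))), (.s k3 k2 0 (.s
  k64 k127 6 (.s k192 k128 7 (.s k66 k129 8 (.s k86 k126 5 (.d k87 k84 k171 0 13))))))] .n) (.c k64
  (.q k60 [(.s k20 k40 5 (.s k125 k190 8 (.s k150 k215 8 (.d k105 k65 k195 5 14)))), (.s k20 k40 5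
  (.s k150 k215 8 (.s k62 k194 13 (.s k63 k61 0 (.s k21 k42 6 (.d k149 k213 k192 7 14)))))), (.s
  k125 k190 8 (.s k105 k65 5 (.s k104 k107 0 (.s k192 k148 13 (.s k149 k63 14 (.d k213 k234 k21 6
  7))))))] (.c k105 (.q k87 [(.s k3 k171 13 (.s k1 k2 0 (.s k169 k253 13 (.d k86 k84 k252 0 14)))),
  (.s k86 k84 0 (.s k126 k66 5 (.s k190 k125 8 (.s k62 k254 7 (.s k150 k194 13 (.d k20 k40 k215 5
  8)))))), (.s k3 k171 13 (.s k2 k1 0 (.s k22 k41 6 (.s k42 k62 5 (.s k21 k63 6 (.d k20 k40 k23 5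
  0))))))] (.c k2 (.l (.s k3 k171 13 (.s k22 k41 6 (.s k86 k84 0 (.s k150 k214 7 (.d k20 k40 k215 5
  8)))))) (.c k40 (.q k235 [(.s k3 k171 13 (.s k1 k2 0 (.s k169 k253 13 (.d k86 k84 k252 0 14)))),
  (.s k86 k84 0 (.s k126 k66 5 (.s k190 k125 8 (.s k62 k254 7 (.s k150 k194 13 (.d k215 k195 k20 5
  8)))))), (.s k3 k171 13 (.s k22 k41 6 (.s k215 k195 5 (.s k20 k150 8 (.d k23 k21 k151 0 7)))))]
  .n) (.c k235 (.l (.s k40 k20 5 (.s k3 k171 13 (.s k1 k2 0 (.s k86 k84 0 (.d k169 k253 k252 13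
  14)))))) .n)))) (.c k150 (.q k149 [(.s k21 k213 7 (.d k63 k42 k192 6 14)), (.s k63 k192 14 (.s k61
  k62 0 (.s k105 k193 13 (.d k125 k190 k65 8 5))))] (.c k63 (.l (.s k213 k21 7 (.s k192 k234 6 (.s
  k104 k148 13 (.s k105 k107 0 (.d k125 k65 k190 5 8)))))) (.c k130 (.l (.s k190 k125 8 (.s k21 k213
  7 (.d k63 k42 k192 6 14)))) (.c k190 (.q k130 [(.s k21 k213 7 (.d k63 k42 k192 6 14)), (.s k63
  k192 14 (.s k61 k62 0 (.s k65 k195 8 (.d k105 k193 k125 13 5))))] (.c k63 (.l (.s k65 k195 8 (.s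
  k105 k125 5 (.s k213 k21 7 (.s k192 k234 6 (.d k104 k107 k148 0 13)))))) (.c k192 (.l (.s k21 k213
  7 (.s k63 k42 6 (.s k61 k62 0 (.s k65 k195 8 (.d k105 k193 k125 13 5)))))) .n))) (.c k192 (.l (.s
  k21 k213 7 (.s k63 k42 6 (.s k61 k62 0 (.s k105 k193 13 (.d k125 k65 k190 5 8)))))) .n))))) .n)))
  (.c k127 (.q k195 [(.s k65 k130 8 (.s k215 k235 5 (.s k150 k20 8 (.d k105 k125 k60 5 14)))), (.s
  k65 k130 8 (.s k105 k125 5 (.s k107 k104 0 (.s k63 k151 13 (.s k21 k42 6 (.d k149 k213 k192 7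
  14)))))), (.s k215 k235 5 (.s k150 k20 8 (.s k194 k62 13 (.s k192 k193 0 (.s k149 k63 14 (.d k213
  k234 k21 6 7))))))] (.c k105 (.q k149 [(.s k21 k213 7 (.d k63 k42 k192 6 14)), (.s k63 k192 14 (.s
  k151 k107 13 (.s k150 k148 0 (.d k215 k235 k20 5 8))))] (.c k40 (.l (.s k235 k215 5 (.s k21 k213 7
  (.d k63 k42 k192 6 14)))) (.c k63 (.l (.s k213 k21 7 (.s k192 k234 6 (.s k194 k193 0 (.s k150 k62
  13 (.d k215 k235 k20 5 8)))))) (.c k192 (.l (.s k21 k213 7 (.s k63 k42 6 (.s k151 k107 13 (.s k150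
  k148 0 (.d k215 k235 k20 5 8)))))) (.c k235 (.q k40 [(.s k21 k213 7 (.d k63 k42 k192 6 14)), (.s
  k20 k60 5 (.s k63 k192 14 (.s k150 k215 8 (.d k151 k148 k107 0 13))))] (.c k63 (.l (.s k20 k60 5
  (.s k150 k215 8 (.s k213 k21 7 (.s k192 k234 6 (.d k194 k62 k193 13 0)))))) (.c k192 (.l (.s k20
  k60 5 (.s k21 k213 7 (.s k63 k42 6 (.s k150 k215 8 (.d k151 k148 k107 0 13)))))) .n))) .n))))) (.c
  k150 (.q k149 [(.s k21 k213 7 (.d k63 k42 k192 6 14)), (.s k63 k192 14 (.s k107 k151 13 (.s k105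
  k104 0 (.d k65 k130 k125 8 5))))] (.c k63 (.l (.s k213 k21 7 (.s k192 k234 6 (.s k193 k194 0 (.s
  k105 k61 13 (.d k65 k125 k130 5 8)))))) (.c k130 (.q k190 [(.s k21 k213 7 (.d k63 k42 k192 6 14)),
  (.s k63 k192 14 (.s k107 k151 13 (.s k105 k104 0 (.d k125 k60 k65 8 5))))] (.c k63 (.l (.s k125
  k60 8 (.s k105 k65 5 (.s k213 k21 7 (.s k192 k234 6 (.d k193 k61 k194 13 0)))))) (.c k192 (.l (.s
  k21 k213 7 (.s k63 k42 6 (.s k107 k151 13 (.s k105 k104 0 (.d k125 k60 k65 8 5)))))) .n))) (.c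
  k190 (.l (.s k130 k65 8 (.s k21 k213 7 (.d k63 k42 k192 6 14)))) (.c k192 (.l (.s k21 k213 7 (.s
  k63 k42 6 (.s k107 k151 13 (.s k105 k104 0 (.d k65 k125 k130 5 8)))))) .n))))) .n))) (.c k128 (.l
  (.s k127 k64 6 (.s k63 k191 7 (.s k149 k192 14 (.d k21 k42 k213 6 7))))) (.c k149 (.f k64 k127 6
  (.q k80 [(.s k90 k95 2 (.s k74 k122 3 (.s k79 k69 2 (.d k112 k96 k101 3 6)))), (.s k240 k160 11
  (.s k245 k250 2 (.s k165 k5 11 (.d k90 k95 k15 2 14)))), (.s k96 k112 3 (.s k160 k240 11 (.s k32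
  k224 7 (.s k48 k16 3 (.d k192 k128 k144 7 11)))))] (.c k128 (.q k191 [(.s k90 k95 2 (.s k74 k122 3
  (.s k79 k69 2 (.d k112 k96 k101 3 6)))), (.s k240 k160 11 (.s k245 k250 2 (.s k165 k5 11 (.d k90
  k95 k15 2 14)))), (.s k96 k112 3 (.s k160 k240 11 (.s k32 k224 7 (.s k48 k16 3 (.s k117 k186 10
  (.d k101 k111 k69 2 3))))))] .n) (.c k191 (.l (.s k128 k192 7 (.s k90 k95 2 (.s k74 k122 3 (.s k79
  k69 2 (.d k112 k96 k101 3 6)))))) .n)))) (.c k191 (.l (.s k64 k127 6 (.s k192 k128 7 (.s k149 k63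
  14 (.d k213 k234 k21 6 7))))) (.c k192 (.q k1 [(.s k3 k2 0 (.s k169 k253 13 (.s k86 k252 14 (.d
  k87 k84 k171 0 13)))), (.s k127 k64 6 (.s k63 k191 7 (.s k21 k42 6 (.s k61 k41 5 (.s k253 k169 13
  (.s k125 k189 7 (.d k60 k190 k62 8 0))))))), (.s k3 k2 0 (.s k127 k64 6 (.s k63 k191 7 (.s k21 k42
  6 (.s k23 k43 5 (.s k22 k20 0 (.d k41 k61 k60 5 6)))))))] .n) (.c k213 (.q k1 [(.s k3 k2 0 (.s
  k169 k253 13 (.s k86 k252 14 (.d k87 k84 k171 0 13)))), (.s k127 k64 6 (.s k63 k191 7 (.s k21 k42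
  6 (.s k61 k41 5 (.s k60 k62 0 (.s k125 k190 8 (.d k253 k189 k169 7 13))))))), (.s k64 k127 6 (.s
  k169 k253 13 (.s k192 k128 7 (.s k149 k63 14 (.s k129 k189 5 (.s k66 k3 8 (.d k65 k193 k67 7
  0))))))), (.s k3 k2 0 (.s k64 k127 6 (.s k192 k128 7 (.s k66 k129 8 (.s k86 k126 5 (.d k87 k84
  k171 0 13))))))] .n) (.c k234 (.l (.s k127 k64 6 (.s k63 k191 7 (.s k21 k42 6 (.d k149 k213 k192 7
  14))))) .n))))))))))))

def t7_37 : T TT 256 :=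
  (.q k150 [(.s k20 k215 8 (.s k60 k40 5 (.s k105 k195 14 (.s k125 k65 5 (.d k255 k190 k170 8
  14)))))] (.c k20 (.f k170 k255 14 (.q k22 [(.s k86 k214 7 (.s k2 k254 13 (.s k3 k1 0 (.s k252 k169
  14 (.d k84 k87 k168 0 13))))), (.s k130 k190 5 (.s k195 k65 8 (.s k60 k105 14 (.s k3 k41 6 (.s k1
  k2 0 (.s k131 k67 7 (.d k169 k188 k253 6 13))))))), (.s k86 k214 7 (.s k2 k254 13 (.s k62 k42 5
  (.s k130 k190 5 (.d k194 k66 k106 7 13))))), (.s k86 k214 7 (.s k84 k87 0 (.s k130 k190 5 (.s k195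
  k65 8 (.s k60 k105 14 (.s k3 k41 6 (.d k252 k169 k168 14 13)))))))] (.c k86 (.l (.s k130 k190 5
  (.s k195 k65 8 (.s k60 k105 14 (.s k3 k41 6 (.s k1 k2 0 (.s k169 k253 13 (.d k131 k67 k188 7
  6)))))))) .n))) (.c k22 (.q k52 [(.s k20 k215 8 (.s k60 k40 5 (.s k105 k195 14 (.s k125 k65 5 (.d
  k255 k190 k170 8 14))))), (.s k20 k215 8 (.s k4 k36 3 (.s k101 k199 12 (.s k117 k69 3 (.d k247
  k182 k166 8 12))))), (.s k101 k199 12 (.s k69 k117 3 (.s k170 k255 14 (.s k32 k239 10 (.s k48 k16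
  3 (.d k207 k138 k154 10 14))))))] .n) (.c k40 (.l (.s k215 k20 8 (.s k255 k170 14 (.s k195 k235 5
  (.s k105 k60 14 (.d k65 k125 k130 5 8)))))) (.c k52 (.q k22 [(.s k20 k215 8 (.s k60 k40 5 (.s k105
  k195 14 (.s k125 k65 5 (.d k255 k190 k170 8 14))))), (.s k20 k215 8 (.s k23 k21 0 (.s k86 k214 7
  (.s k84 k87 0 (.d k212 k148 k149 7 8))))), (.s k86 k214 7 (.s k84 k87 0 (.s k170 k255 14 (.s k2
  k254 13 (.s k3 k1 0 (.d k252 k168 k169 13 14))))))] .n) (.c k60 (.q k22 [(.s k20 k215 8 (.s k23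
  k21 0 (.s k86 k214 7 (.s k212 k149 8 (.d k84 k87 k148 0 7))))), (.s k86 k214 7 (.s k84 k87 0 (.s
  k170 k255 14 (.s k2 k254 13 (.s k3 k1 0 (.d k252 k168 k169 13 14)))))), (.s k20 k215 8 (.s k21 k23
  0 (.s k42 k63 6 (.s k62 k2 5 (.s k106 k194 13 (.d k170 k234 k255 7 14))))))] (.c k87 (.l (.s k20
  k215 8 (.s k86 k214 7 (.s k170 k255 14 (.s k2 k254 13 (.s k42 k62 5 (.d k21 k23 k63 0 6)))))))
  .n)) (.c k65 (.q k22 [(.s k20 k215 8 (.s k23 k21 0 (.s k86 k214 7 (.s k212 k149 8 (.d k84 k87 k148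
  0 7))))), (.s k86 k214 7 (.s k84 k87 0 (.s k170 k255 14 (.s k2 k254 13 (.s k3 k1 0 (.d k252 k168
  k169 13 14)))))), (.s k20 k215 8 (.s k21 k23 0 (.s k42 k63 6 (.s k2 k62 5 (.s k3 k1 0 (.d k60 k40
  k41 5 6))))))] (.c k87 (.l (.s k20 k215 8 (.s k60 k40 5 (.s k3 k41 6 (.s k1 k2 0 (.s k86 k214 7
  (.d k169 k253 k252 13 14))))))) .n)) (.c k105 (.q k22 [(.s k20 k215 8 (.s k86 k214 7 (.s k84 k87 0
  (.s k212 k148 7 (.d k23 k21 k149 0 8))))), (.s k86 k214 7 (.s k84 k87 0 (.s k170 k255 14 (.s k2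
  k254 13 (.s k3 k1 0 (.d k252 k168 k169 13 14)))))), (.s k20 k215 8 (.s k21 k23 0 (.s k42 k63 6 (.s
  k2 k62 5 (.s k3 k1 0 (.d k60 k40 k41 5 6))))))] (.c k87 (.l (.s k20 k215 8 (.s k60 k40 5 (.s k3
  k41 6 (.s k1 k2 0 (.s k86 k214 7 (.d k169 k253 k252 13 14))))))) .n)) (.c k125 (.l (.s k20 k215 8
  (.s k60 k40 5 (.s k170 k255 14 (.s k130 k190 5 (.d k195 k65 k105 8 14)))))) (.c k170 (.q k101 [(.s
  k20 k215 8 (.s k52 k199 12 (.s k117 k69 3 (.s k247 k182 8 (.d k4 k36 k166 3 12))))), (.s k69 k117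
  3 (.s k207 k138 10 (.s k154 k48 14 (.s k158 k146 1 (.s k60 k109 12 (.s k195 k105 14 (.d k199 k52
  k203 12 1))))))), (.s k20 k215 8 (.s k52 k199 12 (.s k60 k40 5 (.s k48 k56 1 (.s k16 k32 3 (.d
  k154 k223 k207 10 14))))))] (.c k22 (.l (.s k52 k199 12 (.s k20 k215 8 (.s k4 k36 3 (.s k117 k69 3
  (.d k247 k182 k166 8 12)))))) (.c k52 (.q k22 [(.s k20 k215 8 (.s k23 k21 0 (.s k86 k214 7 (.s k84
  k87 0 (.d k212 k148 k149 7 8))))), (.s k69 k117 3 (.s k86 k214 7 (.s k71 k116 4 (.s k68 k70 0 (.s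
  k87 k84 0 (.d k119 k103 k102 3 4)))))), (.s k20 k215 8 (.s k21 k23 0 (.s k42 k63 6 (.s k2 k62 5
  (.s k3 k1 0 (.d k60 k40 k41 5 6))))))] (.c k87 (.l (.s k20 k215 8 (.s k60 k40 5 (.s k3 k41 6 (.s
  k1 k2 0 (.s k86 k214 7 (.d k169 k253 k252 13 14))))))) .n)) (.c k199 (.l (.s k20 k215 8 (.s k60
  k40 5 (.s k69 k117 3 (.s k105 k195 14 (.s k109 k97 1 (.d k207 k138 k158 10 12))))))) .n)))) (.c
  k190 (.l (.s k215 k20 8 (.s k255 k170 14 (.s k195 k235 5 (.s k65 k130 8 (.d k105 k125 k60 5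
  14)))))) (.c k195 (.q k22 [(.s k86 k214 7 (.s k84 k87 0 (.s k252 k168 13 (.s k3 k169 14 (.s k2 k1
  0 (.d k170 k254 k255 13 14)))))), (.s k20 k215 8 (.s k21 k23 0 (.s k42 k63 6 (.s k2 k62 5 (.s k3
  k1 0 (.d k60 k40 k41 5 6)))))), (.s k20 k215 8 (.s k23 k21 0 (.s k86 k214 7 (.s k84 k87 0 (.d k212
  k148 k149 7 8)))))] (.c k87 (.l (.s k20 k215 8 (.s k60 k40 5 (.s k3 k41 6 (.s k1 k2 0 (.s k86 k214
  7 (.d k169 k252 k253 14 13))))))) (.c k255 (.l (.s k86 k214 7 (.s k84 k87 0 (.s k252 k168 13 (.s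
  k3 k169 14 (.s k60 k41 6 (.d k20 k40 k215 5 8))))))) .n))) (.c k215 (.q k86 [(.s k87 k84 0 (.s
  k255 k170 14 (.s k3 k171 13 (.s k1 k2 0 (.d k169 k253 k252 13 14))))), (.s k170 k255 14 (.s k190
  k130 5 (.s k254 k2 13 (.s k62 k126 7 (.s k194 k106 13 (.d k214 k22 k234 7 5)))))), (.s k84 k87 0
  (.s k252 k168 13 (.s k169 k3 14 (.s k188 k131 6 (.s k60 k124 7 (.s k195 k105 14 (.d k214 k22 k233
  7 6)))))))] (.c k22 (.q k52 [(.s k87 k84 0 (.s k255 k170 14 (.s k3 k171 13 (.s k169 k252 14 (.d k1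
  k2 k253 0 13))))), (.s k87 k84 0 (.s k101 k199 12 (.s k69 k117 3 (.s k71 k116 4 (.s k68 k70 0 (.d
  k119 k103 k102 3 4)))))), (.s k101 k199 12 (.s k69 k117 3 (.s k170 k255 14 (.s k32 k239 10 (.s k48
  k16 3 (.d k207 k138 k154 10 14))))))] .n) (.c k52 (.l (.s k22 k214 7 (.s k84 k87 0 (.s k170 k255
  14 (.s k2 k254 13 (.s k3 k1 0 (.d k252 k168 k169 13 14))))))) (.c k255 (.l (.s k22 k214 7 (.s k84
  k87 0 (.s k252 k168 13 (.s k3 k169 14 (.s k60 k41 6 (.s k124 k188 7 (.d k105 k67 k195 6 14))))))))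
  .n)))) (.c k235 (.l (.s k20 k215 8 (.s k60 k40 5 (.s k105 k195 14 (.s k255 k170 14 (.d k125 k65
  k190 5 8)))))) (.c k255 (.q k22 [(.s k20 k215 8 (.s k23 k21 0 (.s k86 k214 7 (.s k212 k149 8 (.d
  k84 k87 k148 0 7))))), (.s k86 k214 7 (.s k84 k87 0 (.s k252 k168 13 (.s k3 k169 14 (.s k60 k41 6
  (.d k20 k40 k215 5 8)))))), (.s k20 k215 8 (.s k21 k23 0 (.s k42 k63 6 (.s k2 k62 5 (.s k3 k1 0
  (.d k60 k40 k41 5 6)))))), (.s k86 k214 7 (.s k84 k87 0 (.s k252 k168 13 (.s k3 k169 14 (.s k60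
  k41 6 (.s k124 k188 7 (.d k105 k67 k195 6 14)))))))] (.c k87 (.l (.s k20 k215 8 (.s k60 k40 5 (.s
  k3 k41 6 (.s k1 k2 0 (.s k86 k214 7 (.d k169 k253 k252 13 14))))))) .n)) .n)))))))))))))))

def t7_38 : T TT 256 :=
  (.f k255 k170 14 (.q k89 [(.s k81 k93 1 (.s k243 k162 12 (.s k247 k251 1 (.d k166 k4 k12 12
  14))))] (.c k4 (.q k5 [(.s k165 k245 11 (.s k15 k10 2 (.s k90 k240 14 (.d k95 k80 k175 2 11)))),
  (.s k93 k81 1 (.s k165 k245 11 (.s k13 k241 13 (.s k1 k9 1 (.d k253 k173 k169 11 13))))), (.s k15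
  k10 2 (.s k81 k93 1 (.s k243 k162 12 (.s k91 k167 13 (.s k90 k88 0 (.d k95 k80 k175 2 11))))))]
  (.c k21 (.q k55 [(.s k165 k245 11 (.s k15 k10 2 (.s k90 k240 14 (.d k95 k80 k175 2 11)))), (.s k93
  k81 1 (.s k165 k245 11 (.s k13 k241 13 (.s k1 k9 1 (.d k253 k173 k169 11 13))))), (.s k15 k10 2
  (.s k81 k93 1 (.s k243 k162 12 (.s k91 k167 13 (.s k90 k88 0 (.d k95 k80 k175 2 11))))))] .n) (.c
  k55 (.q k21 [(.s k15 k10 2 (.s k95 k175 11 (.s k90 k80 2 (.d k165 k245 k240 11 14)))), (.s k63 k42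
  6 (.s k127 k191 7 (.s k106 k64 6 (.d k149 k213 k192 7 14))))] (.c k23 (.q k39 [(.s k15 k10 2 (.s
  k95 k175 11 (.s k90 k80 2 (.d k165 k245 k240 11 14)))), (.s k63 k42 6 (.s k127 k191 7 (.s k106 k64
  6 (.d k149 k213 k192 7 14))))] .n) (.c k39 (.q k23 [(.s k15 k10 2 (.s k95 k175 11 (.s k90 k80 2
  (.d k165 k245 k240 11 14)))), (.s k63 k42 6 (.s k127 k191 7 (.s k106 k64 6 (.d k149 k213 k192 7
  14))))] (.c k36 (.l (.s k37 k53 3 (.s k15 k10 2 (.s k26 k48 6 (.s k31 k16 2 (.d k63 k47 k42 3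
  6)))))) (.c k37 (.q k36 [(.s k15 k10 2 (.s k95 k175 11 (.s k90 k80 2 (.d k165 k245 k240 11 14)))),
  (.s k63 k42 6 (.s k127 k191 7 (.s k106 k64 6 (.d k149 k213 k192 7 14))))] (.c k22 (.q k52 [(.s k15
  k10 2 (.s k95 k175 11 (.s k90 k80 2 (.d k165 k245 k240 11 14)))), (.s k63 k42 6 (.s k127 k191 7
  (.s k106 k64 6 (.d k149 k213 k192 7 14))))] (.c k6 (.q k54 [(.s k15 k10 2 (.s k95 k175 11 (.s k90
  k80 2 (.d k165 k245 k240 11 14)))), (.s k93 k81 1 (.s k12 k174 12 (.s k149 k213 7 (.s k29 k209 9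
  (.d k63 k46 k42 4 6)))))] .n) (.c k54 (.q k6 [(.s k15 k10 2 (.s k95 k175 11 (.s k90 k80 2 (.d k165
  k245 k240 11 14)))), (.s k63 k42 6 (.s k3 k43 5 (.s k9 k12 2 (.d k1 k2 k13 0 1))))] .n) .n))) (.c
  k52 (.l (.s k22 k20 0 (.s k15 k10 2 (.s k95 k175 11 (.s k90 k80 2 (.d k165 k245 k240 11 14))))))
  .n))) .n))) .n))) .n))) (.c k12 (.q k51 [(.s k119 k187 9 (.s k102 k68 4 (.s k153 k204 14 (.d k17
  k34 k221 4 9)))), (.s k34 k17 4 (.s k81 k93 1 (.s k162 k243 12 (.s k98 k226 7 (.s k64 k115 4 (.d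
  k192 k128 k145 7 12)))))), (.s k81 k93 1 (.s k119 k187 9 (.s k102 k68 4 (.s k115 k76 6 (.d k243
  k179 k162 7 12)))))] .n) (.c k81 (.q k65 [(.s k105 k125 5 (.s k195 k130 8 (.s k150 k60 14 (.d k215
  k235 k20 5 8)))), (.s k105 k125 5 (.s k73 k121 3 (.s k69 k77 1 (.s k207 k138 10 (.s k223 k239 3
  (.s k154 k16 10 (.d k101 k117 k48 3 14)))))))] (.c k105 (.f k195 k130 8 (.q k150 [(.d k215 k235
  k20 5 8), (.s k211 k28 10 (.s k243 k227 3 (.s k166 k12 14 (.d k247 k251 k4 1 12))))] (.c k40 (.l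
  (.s k235 k215 5 (.s k211 k28 10 (.s k243 k227 3 (.s k166 k12 14 (.d k247 k251 k4 1 12)))))) (.c
  k235 (.q k40 [(.d k20 k60 k215 5 8), (.s k211 k28 10 (.s k243 k227 3 (.s k247 k251 1 (.d k166 k4
  k12 12 14))))] .n) .n)))) (.c k125 (.l (.s k195 k130 8 (.s k215 k235 5 (.s k150 k20 8 (.s k211 k28
  10 (.s k243 k227 3 (.s k166 k12 14 (.d k247 k251 k4 1 12)))))))) .n))) (.c k93 (.q k253 [(.s k169
  k1 13 (.s k252 k254 0 (.s k84 k168 13 (.d k86 k87 k3 0 14)))), (.s k169 k1 13 (.s k249 k9 11 (.s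
  k245 k241 1 (.s k240 k250 2 (.s k80 k160 11 (.s k90 k95 2 (.d k165 k5 k15 11 14)))))))] (.c k1 (.l
  (.s k252 k254 0 (.s k84 k168 13 (.s k86 k87 0 (.s k92 k83 2 (.s k12 k172 11 (.s k4 k8 1 (.d k166
  k247 k243 12 14)))))))) (.c k169 (.f k252 k254 0 (.q k86 [(.d k84 k168 k87 13 0), (.s k92 k83 2
  (.s k12 k172 11 (.s k4 k8 1 (.d k166 k247 k243 12 14))))] (.c k168 (.q k171 [(.d k87 k84 k3 0 13),
  (.s k92 k83 2 (.s k12 k172 11 (.s k4 k8 1 (.d k166 k247 k243 12 14))))] .n) (.c k171 (.l (.s k168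
  k84 13 (.s k92 k83 2 (.s k12 k172 11 (.s k4 k8 1 (.d k166 k247 k243 12 14)))))) .n)))) .n))) (.c
  k162 (.l (.s k93 k81 1 (.s k12 k174 12 (.s k166 k243 14 (.d k4 k8 k247 1 12))))) (.c k166 (.f k81
  k93 1 (.f k162 k243 12 (.q k102 [(.s k68 k119 4 (.s k204 k136 9 (.s k221 k238 4 (.d k153 k17 k51 9
  14)))), (.s k115 k76 6 (.s k64 k98 4 (.s k192 k128 7 (.s k213 k234 6 (.s k149 k21 7 (.d k106 k127
  k63 6 14))))))] .n))) (.c k174 (.l (.s k81 k93 1 (.s k243 k162 12 (.s k166 k12 14 (.d k247 k251 k4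
  1 12))))) (.c k243 (.q k1 [(.s k3 k2 0 (.s k87 k171 13 (.s k86 k84 0 (.d k169 k253 k252 13 14)))),
  (.s k81 k93 1 (.s k169 k253 13 (.s k9 k249 11 (.s k13 k5 1 (.d k241 k161 k165 11 13))))), (.s k3
  k2 0 (.s k93 k81 1 (.s k12 k174 12 (.s k8 k4 1 (.s k9 k6 2 (.s k5 k13 1 (.d k10 k11 k15 0
  2)))))))] .n) (.c k247 (.q k87 [(.s k86 k84 0 (.s k3 k171 13 (.s k169 k252 14 (.d k1 k2 k253 0
  13)))), (.s k81 k93 1 (.s k86 k84 0 (.s k83 k92 2 (.s k80 k82 0 (.d k95 k91 k90 1 2))))), (.s k3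
  k171 13 (.s k81 k93 1 (.s k243 k162 12 (.s k83 k163 11 (.s k80 k82 0 (.d k95 k91 k90 1 2))))))]
  .n) (.c k251 (.l (.s k93 k81 1 (.s k12 k174 12 (.s k4 k8 1 (.d k166 k247 k243 12 14)))))
  .n))))))))))))

def t7_39 : T TT 256 :=
  (.q k149 [(.s k21 k213 7 (.s k63 k42 6 (.s k106 k192 14 (.s k127 k64 6 (.d k255 k191 k170 7
  14)))))] (.c k21 (.f k170 k255 14 (.q k55 [(.s k102 k196 12 (.s k34 k238 9 (.s k68 k119 4 (.s k204
  k136 9 (.d k51 k17 k153 4 14))))), (.s k128 k191 6 (.s k192 k64 7 (.s k63 k106 14 (.s k51 k59 1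
  (.s k17 k34 4 (.s k145 k98 12 (.d k153 k157 k221 1 9))))))), (.s k102 k196 12 (.s k68 k119 4 (.s
  k128 k191 6 (.s k192 k64 7 (.s k63 k106 14 (.s k51 k59 1 (.d k204 k153 k136 14 9)))))))] (.c k51
  (.f k102 k196 12 (.l (.s k119 k68 4 (.s k128 k191 6 (.s k64 k192 7 (.s k127 k106 6 (.s k115 k123 1
  (.s k89 k76 6 (.d k81 k98 k93 4 1))))))))) (.c k102 (.l (.s k128 k191 6 (.s k192 k64 7 (.s k63
  k106 14 (.s k51 k59 1 (.s k17 k34 4 (.s k153 k221 9 (.d k145 k98 k157 12 1)))))))) (.c k153 (.l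
  (.s k102 k196 12 (.s k34 k238 9 (.s k51 k17 4 (.s k63 k59 1 (.s k128 k191 6 (.d k192 k106 k64 14
  7))))))) .n))))) (.c k23 (.q k55 [(.s k21 k213 7 (.s k63 k42 6 (.s k106 k192 14 (.s k127 k64 6 (.d
  k255 k191 k170 7 14))))), (.s k21 k213 7 (.s k4 k38 4 (.s k102 k196 12 (.s k119 k68 4 (.d k247
  k183 k166 7 12))))), (.s k102 k196 12 (.s k68 k119 4 (.s k170 k255 14 (.s k34 k238 9 (.s k51 k17 4
  (.d k204 k136 k153 9 14))))))] .n) (.c k42 (.l (.s k213 k21 7 (.s k255 k170 14 (.s k192 k234 6 (.s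
  k106 k63 14 (.d k64 k127 k128 6 7)))))) (.c k55 (.q k23 [(.s k21 k213 7 (.s k63 k42 6 (.s k106
  k192 14 (.s k127 k64 6 (.d k255 k191 k170 7 14))))), (.s k21 k213 7 (.s k20 k22 0 (.s k86 k212 8
  (.s k87 k84 0 (.d k215 k151 k150 7 8))))), (.s k86 k212 8 (.s k84 k87 0 (.s k170 k255 14 (.s k2
  k254 13 (.s k3 k1 0 (.d k252 k168 k169 13 14))))))] .n) (.c k63 (.q k23 [(.s k21 k213 7 (.s k20
  k22 0 (.s k86 k212 8 (.s k87 k84 0 (.d k215 k151 k150 7 8))))), (.s k86 k212 8 (.s k84 k87 0 (.s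
  k170 k255 14 (.s k2 k254 13 (.s k3 k1 0 (.d k252 k168 k169 13 14)))))), (.s k21 k213 7 (.s k20 k22
  0 (.s k60 k40 5 (.s k255 k170 14 (.s k125 k190 8 (.s k105 k65 5 (.d k150 k215 k195 8 14)))))))]
  .n) (.c k64 (.q k23 [(.s k212 k86 8 (.s k213 k21 7 (.s k215 k214 0 (.s k150 k20 8 (.d k151 k148
  k87 0 7))))), (.s k86 k212 8 (.s k84 k87 0 (.s k170 k255 14 (.s k2 k254 13 (.s k3 k1 0 (.d k252
  k168 k169 13 14)))))), (.s k21 k213 7 (.s k22 k20 0 (.s k63 k42 6 (.s k3 k43 5 (.s k1 k2 0 (.d k41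
  k61 k60 5 6))))))] .n) (.c k106 (.q k23 [(.s k21 k213 7 (.s k86 k212 8 (.s k87 k84 0 (.s k215 k151
  7 (.d k20 k22 k150 0 8))))), (.s k86 k212 8 (.s k84 k87 0 (.s k170 k255 14 (.s k2 k254 13 (.s k3
  k1 0 (.d k252 k168 k169 13 14)))))), (.s k21 k213 7 (.s k22 k20 0 (.s k63 k42 6 (.s k3 k43 5 (.s
  k1 k2 0 (.d k41 k61 k60 5 6))))))] .n) (.c k127 (.l (.s k21 k213 7 (.s k63 k42 6 (.s k170 k255 14
  (.s k128 k191 6 (.d k192 k64 k106 7 14)))))) (.c k170 (.q k102 [(.s k21 k213 7 (.s k55 k196 12 (.s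
  k119 k68 4 (.s k247 k183 7 (.d k4 k38 k166 4 12))))), (.s k68 k119 4 (.s k204 k136 9 (.s k153 k51
  14 (.s k157 k145 1 (.s k63 k110 12 (.s k192 k106 14 (.d k196 k55 k200 12 1))))))), (.s k21 k213 7
  (.s k55 k196 12 (.s k63 k42 6 (.s k51 k59 1 (.s k17 k34 4 (.d k153 k221 k204 9 14))))))] (.c k23
  (.l (.s k55 k196 12 (.s k21 k213 7 (.s k4 k38 4 (.s k119 k68 4 (.d k247 k183 k166 7 12)))))) (.c
  k55 (.q k23 [(.s k21 k213 7 (.s k20 k22 0 (.s k86 k212 8 (.s k87 k84 0 (.d k215 k151 k150 7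
  8))))), (.s k68 k119 4 (.s k86 k212 8 (.s k70 k118 3 (.s k71 k69 0 (.s k84 k87 0 (.d k116 k100
  k101 3 4)))))), (.s k21 k213 7 (.s k22 k20 0 (.s k63 k42 6 (.s k3 k43 5 (.s k41 k60 6 (.d k1 k2
  k61 0 5))))))] .n) (.c k196 (.l (.s k21 k213 7 (.s k63 k42 6 (.s k68 k119 4 (.s k106 k192 14 (.s
  k110 k98 1 (.d k204 k136 k157 9 12))))))) .n)))) (.c k191 (.l (.s k213 k21 7 (.s k255 k170 14 (.s
  k192 k234 6 (.s k64 k128 7 (.d k106 k127 k63 6 14)))))) (.c k192 (.q k23 [(.s k212 k86 8 (.s k213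
  k21 7 (.s k215 k214 0 (.s k150 k20 8 (.d k151 k148 k87 0 7))))), (.s k86 k212 8 (.s k84 k87 0 (.s
  k252 k168 13 (.s k3 k169 14 (.s k2 k1 0 (.d k170 k254 k255 13 14)))))), (.s k21 k213 7 (.s k22 k20
  0 (.s k63 k42 6 (.s k3 k43 5 (.s k1 k2 0 (.d k41 k61 k60 5 6))))))] .n) (.c k213 (.q k86 [(.s k87
  k84 0 (.s k255 k170 14 (.s k3 k171 13 (.s k1 k2 0 (.d k169 k253 k252 13 14))))), (.s k23 k212 8
  (.s k170 k255 14 (.s k2 k254 13 (.s k3 k1 0 (.s k63 k43 5 (.s k42 k21 6 (.d k106 k234 k192 7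
  14))))))), (.s k84 k87 0 (.s k252 k168 13 (.s k169 k3 14 (.s k189 k129 5 (.s k63 k126 8 (.s k192
  k106 14 (.d k212 k23 k232 8 5)))))))] (.c k3 (.l (.s k84 k87 0 (.s k168 k252 13 (.s k170 k255 14
  (.s k171 k169 0 (.s k128 k191 6 (.s k148 k188 5 (.d k212 k20 k23 7 8)))))))) (.c k23 (.q k55 [(.s
  k87 k84 0 (.s k255 k170 14 (.s k3 k171 13 (.s k1 k2 0 (.d k169 k253 k252 13 14))))), (.s k84 k87 0
  (.s k102 k196 12 (.s k68 k119 4 (.s k70 k118 3 (.s k71 k69 0 (.d k116 k100 k101 3 4)))))), (.s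
  k102 k196 12 (.s k68 k119 4 (.s k170 k255 14 (.s k34 k238 9 (.s k51 k17 4 (.d k204 k136 k153 9
  14))))))] .n) (.c k55 (.l (.s k23 k212 8 (.s k84 k87 0 (.s k170 k255 14 (.s k2 k254 13 (.s k3 k1 0
  (.d k252 k168 k169 13 14))))))) (.c k252 (.l (.s k23 k212 8 (.s k87 k84 0 (.s k255 k170 14 (.s k3
  k171 13 (.s k63 k43 5 (.s k127 k191 7 (.d k106 k192 k64 14 6)))))))) (.c k255 (.l (.s k23 k212 8
  (.s k84 k87 0 (.s k252 k168 13 (.s k3 k169 14 (.s k63 k43 5 (.s k126 k189 8 (.d k106 k66 k192 5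
  14)))))))) .n)))))) (.c k234 (.l (.s k21 k213 7 (.s k63 k42 6 (.s k106 k192 14 (.s k255 k170 14
  (.d k127 k64 k191 6 7)))))) (.c k255 (.q k23 [(.s k86 k212 8 (.s k87 k84 0 (.s k215 k151 7 (.s k20
  k150 8 (.d k21 k22 k213 0 7))))), (.s k21 k213 7 (.s k22 k20 0 (.s k63 k42 6 (.s k3 k43 5 (.s k1
  k2 0 (.d k41 k61 k60 5 6)))))), (.s k86 k212 8 (.s k84 k87 0 (.s k252 k168 13 (.s k3 k169 14 (.s
  k63 k43 5 (.s k126 k189 8 (.d k106 k66 k192 5 14)))))))] .n) .n)))))))))))))))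

/-- roots with certificates -/
def certs : List (Cell TT 256 × Cell TT 256 × T TT 256) :=
  [(k6, k160, t6_160), (k6, k161, t6_161), (k6, k162, t6_162), (k6, k163, t6_163), (k6, k164,
  t6_164), (k6, k165, t6_165), (k6, k166, t6_166), (k6, k167, t6_167), (k6, k168, t6_168), (k6,
  k169, t6_169), (k6, k171, t6_171), (k6, k172, t6_172), (k6, k173, t6_173), (k6, k174, t6_174),
  (k6, k175, t6_175), (k6, k176, t6_176), (k6, k177, t6_177), (k6, k178, t6_178), (k6, k179,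
  t6_179), (k6, k180, t6_180), (k6, k181, t6_181), (k6, k182, t6_182), (k6, k183, t6_183), (k6,
  k184, t6_184), (k6, k185, t6_185), (k6, k186, t6_186), (k6, k187, t6_187), (k6, k188, t6_188),
  (k6, k189, t6_189), (k6, k190, t6_190), (k6, k191, t6_191), (k6, k240, t6_240), (k6, k241,
  t6_241), (k6, k242, t6_242), (k6, k243, t6_243), (k6, k244, t6_244), (k6, k245, t6_245), (k6,
  k246, t6_246), (k6, k247, t6_247), (k6, k248, t6_248), (k6, k249, t6_249), (k6, k250, t6_250),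
  (k6, k251, t6_251), (k6, k252, t6_252), (k6, k253, t6_253), (k6, k254, t6_254), (k7, k10, t7_10),
  (k7, k11, t7_11), (k7, k13, t7_13), (k7, k14, t7_14), (k7, k15, t7_15), (k7, k19, t7_19), (k7,
  k22, t7_22), (k7, k25, t7_25), (k7, k26, t7_26), (k7, k27, t7_27), (k7, k28, t7_28), (k7, k30,
  t7_30), (k7, k31, t7_31), (k7, k34, t7_34), (k7, k35, t7_35), (k7, k37, t7_37), (k7, k38, t7_38),
  (k7, k39, t7_39)]

theorem c6_160 : rootOK k6 k160 t6_160 = true := by decide +kernel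

theorem c6_161 : rootOK k6 k161 t6_161 = true := by decide +kernel

theorem c6_162 : rootOK k6 k162 t6_162 = true := by decide +kernel

theorem c6_163 : rootOK k6 k163 t6_163 = true := by decide +kernel

theorem c6_164 : rootOK k6 k164 t6_164 = true := by decide +kernel

theorem c6_165 : rootOK k6 k165 t6_165 = true := by decide +kernel

theorem c6_166 : rootOK k6 k166 t6_166 = true := by decide +kernel

theorem c6_167 : rootOK k6 k167 t6_167 = true := by decide +kernel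

theorem c6_168 : rootOK k6 k168 t6_168 = true := by decide +kernel

theorem c6_169 : rootOK k6 k169 t6_169 = true := by decide +kernel

theorem c6_171 : rootOK k6 k171 t6_171 = true := by decide +kernel

theorem c6_172 : rootOK k6 k172 t6_172 = true := by decide +kernel

theorem c6_173 : rootOK k6 k173 t6_173 = true := by decide +kernel

theorem c6_174 : rootOK k6 k174 t6_174 = true := by decide +kernel

theorem c6_175 : rootOK k6 k175 t6_175 = true := by decide +kernel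

theorem c6_176 : rootOK k6 k176 t6_176 = true := by decide +kernel

theorem c6_177 : rootOK k6 k177 t6_177 = true := by decide +kernel

theorem c6_178 : rootOK k6 k178 t6_178 = true := by decide +kernel

theorem c6_179 : rootOK k6 k179 t6_179 = true := by decide +kernel

theorem c6_180 : rootOK k6 k180 t6_180 = true := by decide +kernel

theorem c6_181 : rootOK k6 k181 t6_181 = true := by decide +kernel

theorem c6_182 : rootOK k6 k182 t6_182 = true := by decide +kernel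

theorem c6_183 : rootOK k6 k183 t6_183 = true := by decide +kernel

theorem c6_184 : rootOK k6 k184 t6_184 = true := by decide +kernel

theorem c6_185 : rootOK k6 k185 t6_185 = true := by decide +kernel

theorem c6_186 : rootOK k6 k186 t6_186 = true := by decide +kernel

theorem c6_187 : rootOK k6 k187 t6_187 = true := by decide +kernel

theorem c6_188 : rootOK k6 k188 t6_188 = true := by decide +kernel

theorem c6_189 : rootOK k6 k189 t6_189 = true := by decide +kernel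

theorem c6_190 : rootOK k6 k190 t6_190 = true := by decide +kernel

theorem c6_191 : rootOK k6 k191 t6_191 = true := by decide +kernel

theorem c6_240 : rootOK k6 k240 t6_240 = true := by decide +kernel

theorem c6_241 : rootOK k6 k241 t6_241 = true := by decide +kernel

theorem c6_242 : rootOK k6 k242 t6_242 = true := by decide +kernel

theorem c6_243 : rootOK k6 k243 t6_243 = true := by decide +kernel

theorem c6_244 : rootOK k6 k244 t6_244 = true := by decide +kernel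

theorem c6_245 : rootOK k6 k245 t6_245 = true := by decide +kernel

theorem c6_246 : rootOK k6 k246 t6_246 = true := by decide +kernel

theorem c6_247 : rootOK k6 k247 t6_247 = true := by decide +kernel

theorem c6_248 : rootOK k6 k248 t6_248 = true := by decide +kernel

theorem c6_249 : rootOK k6 k249 t6_249 = true := by decide +kernel

theorem c6_250 : rootOK k6 k250 t6_250 = true := by decide +kernel

theorem c6_251 : rootOK k6 k251 t6_251 = true := by decide +kernel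

theorem c6_252 : rootOK k6 k252 t6_252 = true := by decide +kernel

theorem c6_253 : rootOK k6 k253 t6_253 = true := by decide +kernel

theorem c6_254 : rootOK k6 k254 t6_254 = true := by decide +kernel

theorem c7_10 : rootOK k7 k10 t7_10 = true := by decide +kernel

theorem c7_11 : rootOK k7 k11 t7_11 = true := by decide +kernel

theorem c7_13 : rootOK k7 k13 t7_13 = true := by decide +kernel

theorem c7_14 : rootOK k7 k14 t7_14 = true := by decide +kernel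

theorem c7_15 : rootOK k7 k15 t7_15 = true := by decide +kernel

theorem c7_19 : rootOK k7 k19 t7_19 = true := by decide +kernel

theorem c7_22 : rootOK k7 k22 t7_22 = true := by decide +kernel

theorem c7_25 : rootOK k7 k25 t7_25 = true := by decide +kernel

theorem c7_26 : rootOK k7 k26 t7_26 = true := by decide +kernel

theorem c7_27 : rootOK k7 k27 t7_27 = true := by decide +kernel

theorem c7_28 : rootOK k7 k28 t7_28 = true := by decide +kernel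

theorem c7_30 : rootOK k7 k30 t7_30 = true := by decide +kernel

theorem c7_31 : rootOK k7 k31 t7_31 = true := by decide +kernel

theorem c7_34 : rootOK k7 k34 t7_34 = true := by decide +kernel

theorem c7_35 : rootOK k7 k35 t7_35 = true := by decide +kernel

theorem c7_37 : rootOK k7 k37 t7_37 = true := by decide +kernel

theorem c7_38 : rootOK k7 k38 t7_38 = true := by decide +kernel

theorem c7_39 : rootOK k7 k39 t7_39 = true := by decide +kernel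

theorem ok : certsOK certs = true :=
  certsOK_cons c6_160 (certsOK_cons c6_161 (certsOK_cons c6_162 (certsOK_cons c6_163 (
  certsOK_cons c6_164 (certsOK_cons c6_165 (certsOK_cons c6_166 (certsOK_cons c6_167 (
  certsOK_cons c6_168 (certsOK_cons c6_169 (certsOK_cons c6_171 (certsOK_cons c6_172 (
  certsOK_cons c6_173 (certsOK_cons c6_174 (certsOK_cons c6_175 (certsOK_cons c6_176 (
  certsOK_cons c6_177 (certsOK_cons c6_178 (certsOK_cons c6_179 (certsOK_cons c6_180 (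
  certsOK_cons c6_181 (certsOK_cons c6_182 (certsOK_cons c6_183 (certsOK_cons c6_184 (
  certsOK_cons c6_185 (certsOK_cons c6_186 (certsOK_cons c6_187 (certsOK_cons c6_188 (
  certsOK_cons c6_189 (certsOK_cons c6_190 (certsOK_cons c6_191 (certsOK_cons c6_240 (
  certsOK_cons c6_241 (certsOK_cons c6_242 (certsOK_cons c6_243 (certsOK_cons c6_244 (
  certsOK_cons c6_245 (certsOK_cons c6_246 (certsOK_cons c6_247 (certsOK_cons c6_248 (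
  certsOK_cons c6_249 (certsOK_cons c6_250 (certsOK_cons c6_251 (certsOK_cons c6_252 (
  certsOK_cons c6_253 (certsOK_cons c6_254 (certsOK_cons c7_10 (certsOK_cons c7_11 (
  certsOK_cons c7_13 (certsOK_cons c7_14 (certsOK_cons c7_15 (certsOK_cons c7_19 (
  certsOK_cons c7_22 (certsOK_cons c7_25 (certsOK_cons c7_26 (certsOK_cons c7_27 (
  certsOK_cons c7_28 (certsOK_cons c7_30 (certsOK_cons c7_31 (certsOK_cons c7_34 (
  certsOK_cons c7_35 (certsOK_cons c7_37 (certsOK_cons c7_38 (certsOK_cons c7_39 (certsOK_nil))))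
  ))))))))))))))))))))))))))))))))))))))))))))))))))))))))))))

theorem sound (k : Nat) (hk : (bits certs).testBit k = true) : PI k :=
  certs_sound certs ok k hk

end Pool.Agent.TTT.A08
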