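import Pool.Agent.TTT.Sym

set_option autoImplicit false
set_option maxRecDepth 100000

namespace Pool.Agent.TTT.A09

def t7_40 : T TT 256 :=
  (.f k170 k255 14 (.q k3 [(.s k1 k2 0 (.s k169 k253 13 (.s k168 k171 0 (.d k252 k84 k86 13 14))))]
  (.c k1 (.q k32 [(.s k48 k16 3 (.s k101 k239 10 (.s k69 k117 3 (.d k207 k138 k154 10 14)))), (.s
  k48 k16 3 (.s k33 k18 4 (.s k34 k35 0 (.s k102 k238 9 (.s k68 k119 4 (.s k204 k136 9 (.d k51 k17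
  k153 4 14)))))))] (.c k16 (.l (.s k101 k239 10 (.s k69 k117 3 (.s k207 k138 10 (.s k71 k139 9 (.s
  k86 k116 4 (.s k84 k87 0 (.d k252 k168 k169 13 14)))))))) (.c k48 (.f k101 k239 10 (.q k207 [(.d
  k69 k117 k138 3 10), (.s k71 k139 9 (.s k86 k116 4 (.s k84 k87 0 (.d k252 k168 k169 13 14))))] (.c
  k117 (.q k186 [(.d k138 k154 k69 3 10), (.s k71 k139 9 (.s k86 k116 4 (.s k84 k87 0 (.d k252 k168
  k169 13 14))))] .n) (.c k186 (.l (.s k117 k69 3 (.s k71 k139 9 (.s k86 k116 4 (.s k84 k87 0 (.d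
  k252 k168 k169 13 14)))))) .n)))) .n))) (.c k2 (.q k68 [(.s k204 k136 9 (.s k102 k119 4 (.s k51
  k153 14 (.d k34 k17 k238 4 9)))), (.s k204 k136 9 (.s k70 k137 10 (.s k69 k71 0 (.s k101 k117 3
  (.s k32 k239 10 (.s k48 k16 3 (.d k207 k138 k154 10 14)))))))] (.c k136 (.l (.s k102 k119 4 (.s
  k34 k238 9 (.s k51 k17 4 (.s k35 k19 3 (.s k169 k236 10 (.s k168 k171 0 (.d k252 k84 k86 13
  14)))))))) (.c k204 (.f k102 k119 4 (.q k51 [(.d k34 k238 k17 9 4), (.s k35 k19 3 (.s k169 k236 10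
  (.s k168 k171 0 (.d k252 k84 k86 13 14))))] (.c k221 (.l (.s k238 k34 9 (.s k35 k19 3 (.s k169
  k236 10 (.s k168 k171 0 (.d k252 k84 k86 13 14)))))) (.c k238 (.q k221 [(.d k17 k34 k153 4 9), (.s
  k35 k19 3 (.s k169 k236 10 (.s k168 k171 0 (.d k252 k84 k86 13 14))))] .n) .n)))) .n))) (.c k84
  (.q k4 [(.s k166 k247 12 (.s k162 k174 1 (.s k243 k81 12 (.d k12 k8 k89 1 14)))), (.s k2 k1 0 (.s
  k12 k8 1 (.s k6 k9 2 (.s k86 k254 13 (.d k166 k246 k247 11 12))))), (.s k1 k2 0 (.s k166 k247 12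
  (.s k169 k253 13 (.s k163 k172 2 (.s k243 k83 11 (.d k162 k174 k81 1 12))))))] (.c k166 (.l (.s k1
  k2 0 (.s k8 k12 1 (.s k89 k251 12 (.s k169 k253 13 (.s k9 k249 11 (.s k5 k13 1 (.d k10 k15 k11 2
  0)))))))) (.c k247 (.l (.s k1 k2 0 (.s k12 k8 1 (.s k9 k6 2 (.s k169 k253 13 (.s k89 k249 11 (.s
  k81 k93 1 (.d k243 k162 k166 12 14)))))))) .n))) (.c k86 (.q k165 [(.s k5 k245 11 (.s k15 k10 2
  (.s k160 k175 2 (.d k240 k80 k90 11 14)))), (.s k1 k2 0 (.s k160 k175 2 (.s k169 k253 13 (.s k161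
  k173 1 (.s k81 k241 11 (.d k162 k163 k243 0 12)))))), (.s k1 k2 0 (.s k169 k253 13 (.s k161 k173 1
  (.s k240 k82 12 (.d k160 k175 k80 2 11))))), (.s k1 k2 0 (.s k5 k245 11 (.s k9 k13 1 (.s k12 k6 2
  (.s k8 k4 1 (.d k10 k11 k15 0 2))))))] .n) (.c k168 (.f k2 k1 0 (.q k128 [(.s k192 k64 7 (.s k149
  k191 6 (.s k63 k106 14 (.d k21 k42 k213 6 7)))), (.s k86 k254 13 (.s k149 k191 6 (.s k23 k212 8
  (.s k192 k64 7 (.d k63 k43 k106 5 14))))), (.s k86 k254 13 (.s k149 k191 6 (.s k23 k212 8 (.s k63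
  k43 5 (.d k21 k42 k213 6 7))))), (.s k86 k254 13 (.s k192 k64 7 (.s k66 k129 8 (.s k106 k126 5 (.s
  k42 k234 7 (.d k63 k21 k149 6 14))))))] (.c k63 (.l (.s k64 k192 7 (.s k86 k254 13 (.s k106 k127 6
  (.s k191 k149 6 (.s k66 k126 5 (.s k65 k67 0 (.d k130 k194 k195 7 8)))))))) (.c k104 (.q k232 [(.s
  k86 k254 13 (.s k252 k169 14 (.d k192 k212 k64 5 7))), (.s k149 k191 6 (.s k21 k213 7 (.s k63 k42
  6 (.d k192 k64 k106 7 14)))), (.s k86 k254 13 (.s k149 k191 6 (.s k23 k212 8 (.s k63 k43 5 (.d k21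
  k42 k213 6 7)))))] .n) (.c k149 (.l (.s k64 k192 7 (.s k86 k254 13 (.s k106 k127 6 (.s k66 k126 5
  (.s k65 k67 0 (.d k130 k194 k195 7 8))))))) (.c k232 (.q k104 [(.s k64 k192 7 (.s k84 k124 5 (.d
  k86 k87 k254 0 13))), (.s k149 k191 6 (.s k21 k213 7 (.s k63 k42 6 (.d k192 k64 k106 7 14)))), (.s
  k86 k254 13 (.s k84 k87 0 (.s k149 k191 6 (.s k212 k23 8 (.s k20 k148 7 (.s k213 k21 7 (.d k215
  k214 k150 0 8)))))))] (.c k213 (.l (.s k86 k254 13 (.s k84 k87 0 (.d k64 k124 k192 5 7)))) .n))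
  .n)))))) (.c k169 (.q k5 [(.s k15 k10 2 (.s k165 k245 11 (.s k160 k175 2 (.d k240 k80 k90 11
  14)))), (.s k1 k2 0 (.s k9 k13 1 (.s k12 k6 2 (.s k4 k8 1 (.s k166 k247 12 (.s k162 k174 1 (.d
  k243 k81 k89 12 14)))))))] (.c k10 (.l (.s k1 k2 0 (.s k13 k9 1 (.s k165 k245 11 (.s k160 k175 2
  (.s k240 k80 11 (.s k161 k82 12 (.d k241 k81 k89 11 13)))))))) .n)) (.c k171 (.l (.s k2 k1 0 (.s
  k86 k254 13 (.s k84 k87 0 (.d k252 k168 k169 13 14))))) (.c k252 (.f k2 k1 0 (.q k42 [(.s k106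
  k234 7 (.s k64 k127 6 (.s k192 k128 7 (.d k63 k21 k149 6 14)))), (.s k62 k22 5 (.s k106 k234 7 (.s
  k150 k194 13 (.s k190 k130 5 (.d k254 k126 k86 7 13))))), (.s k21 k63 6 (.s k22 k62 5 (.s k20 k23
  0 (.s k150 k215 8 (.d k86 k254 k214 13 7)))))] (.c k253 (.l (.s k254 k86 13 (.s k62 k22 5 (.s k106
  k234 7 (.s k150 k194 13 (.d k190 k130 k126 5 7)))))) (.c k254 (.q k253 [(.s k106 k234 7 (.s k64
  k127 6 (.s k192 k128 7 (.d k63 k21 k149 6 14)))), (.s k21 k63 6 (.s k22 k62 5 (.s k20 k23 0 (.s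
  k60 k41 6 (.s k150 k215 8 (.s k195 k105 14 (.d k130 k190 k65 5 8))))))), (.s k62 k22 5 (.s k106
  k234 7 (.s k194 k150 13 (.s k66 k130 7 (.s k192 k129 8 (.d k64 k128 k127 7 6))))))] (.c k127 (.l
  (.s k62 k22 5 (.s k63 k21 6 (.s k106 k234 7 (.s k192 k149 14 (.s k66 k129 8 (.d k194 k130 k150 7
  13))))))) .n)) .n)))) (.c k253 (.l (.s k2 k1 0 (.s k86 k254 13 (.s k252 k169 14 (.d k84 k87 k168 0
  13))))) (.c k254 (.l (.s k1 k2 0 (.s k169 k253 13 (.s k252 k86 14 (.d k168 k171 k84 0 13)))))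
  .n))))))))))))

def t7_41 : T TT 256 :=
  (.f k255 k170 14 (.q k89 [(.s k81 k93 1 (.s k243 k162 12 (.s k166 k12 14 (.d k247 k251 k4 1
  12))))] (.c k4 (.q k5 [(.s k165 k245 11 (.s k15 k10 2 (.s k90 k240 14 (.d k95 k80 k175 2 11)))),
  (.s k93 k81 1 (.s k165 k245 11 (.s k13 k241 13 (.s k1 k9 1 (.d k253 k173 k169 11 13))))), (.s k15
  k10 2 (.s k81 k93 1 (.s k243 k162 12 (.s k91 k167 13 (.s k90 k88 0 (.d k95 k80 k175 2 11))))))]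
  .n) (.c k12 (.q k1 [(.s k3 k2 0 (.s k87 k171 13 (.s k86 k84 0 (.d k169 k253 k252 13 14)))), (.s
  k81 k93 1 (.s k169 k253 13 (.s k9 k249 11 (.s k13 k5 1 (.d k241 k161 k165 11 13))))), (.s k3 k2 0
  (.s k81 k93 1 (.s k161 k241 11 (.s k82 k240 12 (.s k83 k80 0 (.d k243 k163 k162 11 12))))))] .n)
  (.c k81 (.q k69 [(.s k101 k117 3 (.s k207 k138 10 (.s k154 k48 14 (.d k223 k239 k16 3 10)))), (.s
  k101 k117 3 (.s k77 k113 5 (.s k65 k73 1 (.s k195 k130 8 (.s k215 k235 5 (.s k150 k20 8 (.d k105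
  k125 k60 5 14)))))))] (.c k101 (.f k207 k138 10 (.q k154 [(.d k223 k239 k16 3 10), (.s k219 k24 8
  (.s k243 k231 5 (.s k166 k12 14 (.d k247 k251 k4 1 12))))] (.c k32 (.l (.s k239 k223 3 (.s k219
  k24 8 (.s k243 k231 5 (.s k166 k12 14 (.d k247 k251 k4 1 12)))))) (.c k239 (.q k32 [(.d k16 k48
  k223 3 10), (.s k219 k24 8 (.s k243 k231 5 (.s k247 k251 1 (.d k166 k4 k12 12 14))))] .n) .n))))
  (.c k117 (.l (.s k207 k138 10 (.s k223 k239 3 (.s k154 k16 10 (.s k219 k24 8 (.s k243 k231 5 (.s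
  k166 k12 14 (.d k247 k251 k4 1 12)))))))) .n))) (.c k93 (.q k68 [(.s k102 k119 4 (.s k204 k136 9
  (.s k153 k51 14 (.d k221 k238 k17 4 9)))), (.s k102 k119 4 (.s k76 k115 6 (.s k64 k72 1 (.s k192
  k128 7 (.s k213 k234 6 (.s k149 k21 7 (.d k106 k127 k63 6 14)))))))] (.c k102 (.f k204 k136 9 (.q
  k153 [(.d k221 k238 k17 4 9), (.s k217 k25 7 (.s k243 k230 6 (.s k166 k12 14 (.d k247 k251 k4 1
  12))))] (.c k34 (.l (.s k238 k221 4 (.s k217 k25 7 (.s k243 k230 6 (.s k166 k12 14 (.d k247 k251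
  k4 1 12)))))) (.c k238 (.q k34 [(.d k17 k51 k221 4 9), (.s k217 k25 7 (.s k243 k230 6 (.s k247
  k251 1 (.d k166 k4 k12 12 14))))] .n) .n)))) (.c k119 (.l (.s k204 k136 9 (.s k221 k238 4 (.s k153
  k17 9 (.s k217 k25 7 (.s k243 k230 6 (.s k166 k12 14 (.d k247 k251 k4 1 12)))))))) .n))) (.c k162
  (.l (.s k93 k81 1 (.s k12 k174 12 (.s k166 k243 14 (.d k4 k8 k247 1 12))))) (.c k166 (.f k81 k93 1
  (.q k83 [(.s k80 k82 0 (.s k86 k92 2 (.s k87 k84 0 (.d k95 k91 k90 1 2)))), (.s k80 k82 0 (.s k240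
  k160 11 (.s k245 k250 2 (.s k165 k5 11 (.s k241 k13 13 (.d k243 k162 k242 12 0)))))), (.s k86 k92
  2 (.s k84 k87 0 (.s k252 k168 13 (.s k169 k3 14 (.d k253 k254 k1 0 13)))))] (.c k162 (.q k174 [(.s
  k86 k92 2 (.s k87 k84 0 (.s k95 k91 1 (.d k80 k82 k90 0 2)))), (.s k80 k82 0 (.s k240 k160 11 (.s
  k245 k250 2 (.s k165 k5 11 (.d k90 k95 k15 2 14))))), (.s k86 k92 2 (.s k84 k87 0 (.s k252 k168 13
  (.s k169 k3 14 (.d k253 k254 k1 0 13)))))] (.c k95 (.l (.s k82 k80 0 (.s k86 k92 2 (.s k94 k90 1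
  (.s k84 k87 0 (.s k252 k168 13 (.d k254 k14 k253 11 0))))))) .n)) (.c k174 (.l (.s k162 k243 12
  (.s k80 k82 0 (.s k86 k92 2 (.s k87 k84 0 (.d k95 k91 k90 1 2)))))) .n)))) (.c k174 (.l (.s k81
  k93 1 (.s k243 k162 12 (.s k166 k12 14 (.d k247 k251 k4 1 12))))) (.c k243 (.q k1 [(.s k3 k2 0 (.s
  k87 k171 13 (.s k86 k84 0 (.d k169 k253 k252 13 14)))), (.s k81 k93 1 (.s k169 k253 13 (.s k9 k249
  11 (.s k13 k5 1 (.d k241 k161 k165 11 13))))), (.s k3 k2 0 (.s k93 k81 1 (.s k12 k174 12 (.s k8 k4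
  1 (.s k9 k6 2 (.s k5 k13 1 (.d k10 k11 k15 0 2)))))))] .n) (.c k247 (.q k87 [(.s k86 k84 0 (.s k3
  k171 13 (.s k169 k252 14 (.d k1 k2 k253 0 13)))), (.s k81 k93 1 (.s k86 k84 0 (.s k83 k92 2 (.s
  k80 k82 0 (.d k95 k91 k90 1 2))))), (.s k3 k171 13 (.s k81 k93 1 (.s k243 k162 12 (.s k83 k163 11
  (.s k80 k82 0 (.d k95 k91 k90 1 2))))))] .n) (.c k251 (.l (.s k93 k81 1 (.s k12 k174 12 (.s k4 k8
  1 (.d k166 k247 k243 12 14))))) .n))))))))))))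

def t7_42 : T TT 256 :=
  (.f k170 k255 14 (.q k252 [(.s k168 k84 13 (.s k169 k171 0 (.s k1 k253 13 (.d k3 k2 k86 0 14))))]
  (.c k1 (.q k4 [(.s k12 k8 1 (.s k166 k247 12 (.s k162 k174 1 (.d k243 k81 k89 12 14)))), (.s k84
  k168 13 (.s k244 k164 11 (.s k240 k248 1 (.s k160 k80 11 (.s k165 k175 2 (.s k5 k245 11 (.d k15
  k10 k90 2 14)))))))] (.c k8 (.l (.s k84 k168 13 (.s k166 k247 12 (.s k162 k174 1 (.s k243 k81 12
  (.s k246 k249 2 (.d k86 k87 k6 0 11))))))) .n)) (.c k2 (.f k84 k168 13 (.q k32 [(.s k48 k16 3 (.s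
  k101 k239 10 (.s k69 k117 3 (.d k207 k138 k154 10 14)))), (.s k48 k16 3 (.s k86 k87 0 (.s k116
  k184 9 (.d k101 k71 k239 4 10)))), (.s k86 k87 0 (.s k3 k169 14 (.s k101 k239 10 (.s k71 k116 4
  (.s k207 k139 9 (.d k69 k117 k138 3 10)))))), (.s k16 k48 3 (.s k86 k87 0 (.s k220 k152 9 (.s k19
  k153 10 (.s k18 k17 0 (.d k154 k222 k223 9 10))))))] (.c k22 (.q k62 [(.s k48 k16 3 (.s k101 k239
  10 (.s k69 k117 3 (.d k207 k138 k154 10 14)))), (.s k48 k16 3 (.s k86 k87 0 (.s k116 k184 9 (.d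
  k101 k71 k239 4 10)))), (.s k86 k87 0 (.s k3 k169 14 (.s k101 k239 10 (.s k71 k116 4 (.s k207 k139
  9 (.d k69 k117 k138 3 10)))))), (.s k16 k48 3 (.s k86 k87 0 (.s k220 k152 9 (.s k19 k153 10 (.s
  k18 k17 0 (.d k154 k222 k223 9 10))))))] (.c k37 (.q k52 [(.s k48 k16 3 (.s k101 k239 10 (.s k69
  k117 3 (.d k207 k138 k154 10 14)))), (.s k48 k16 3 (.s k86 k87 0 (.s k116 k184 9 (.d k101 k71 k239
  4 10)))), (.s k101 k239 10 (.s k150 k199 12 (.s k20 k215 8 (.s k36 k4 3 (.d k40 k44 k60 1 5))))),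
  (.s k16 k48 3 (.s k86 k87 0 (.s k220 k152 9 (.s k19 k153 10 (.s k18 k17 0 (.d k154 k222 k223 9
  10))))))] .n) (.c k52 (.q k37 [(.s k48 k16 3 (.s k101 k239 10 (.s k69 k117 3 (.d k207 k138 k154 10
  14)))), (.s k48 k16 3 (.s k86 k87 0 (.s k116 k184 9 (.d k101 k71 k239 4 10)))), (.s k86 k87 0 (.s
  k3 k169 14 (.s k101 k239 10 (.s k71 k116 4 (.s k207 k139 9 (.d k69 k117 k138 3 10)))))), (.s k16
  k48 3 (.s k86 k87 0 (.s k220 k152 9 (.s k19 k153 10 (.s k18 k17 0 (.d k154 k222 k223 9 10))))))]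
  (.c k247 (.l (.s k48 k16 3 (.s k101 k239 10 (.s k116 k184 9 (.d k86 k87 k71 0 4))))) .n)) .n)))
  (.c k62 (.q k22 [(.s k48 k16 3 (.s k101 k239 10 (.s k69 k117 3 (.d k207 k138 k154 10 14)))), (.s
  k86 k87 0 (.s k3 k169 14 (.s k60 k41 6 (.s k150 k214 7 (.d k20 k40 k215 5 8)))))] .n) .n)))) (.c
  k3 (.f k168 k84 13 (.f k171 k169 0 (.q k240 [(.s k80 k160 11 (.s k90 k95 2 (.s k10 k250 11 (.d k15
  k5 k165 2 14)))), (.s k160 k80 11 (.s k164 k172 1 (.s k88 k12 13 (.d k248 k244 k8 1 11))))] (.c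
  k11 (.q k15 [(.s k80 k160 11 (.d k90 k95 k165 2 14)), (.s k5 k10 2 (.d k165 k90 k245 14 11))] (.c
  k90 (.l (.s k248 k244 1 (.s k5 k10 2 (.s k160 k80 11 (.d k165 k175 k245 2 11))))) (.c k165 (.l (.s
  k10 k5 2 (.s k80 k160 11 (.d k90 k95 k250 2 11)))) (.c k248 (.l (.s k90 k165 14 (.d k10 k5 k250 2
  11))) .n)))) (.c k15 (.q k11 [(.s k251 k91 11 (.s k8 k89 12 (.d k248 k88 k244 11 1))), (.s k160
  k80 11 (.s k164 k172 1 (.s k88 k12 13 (.d k248 k244 k8 1 11)))), (.s k80 k160 11 (.s k248 k244 1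
  (.s k251 k91 11 (.s k250 k249 0 (.d k90 k95 k10 2 11))))), (.s k160 k80 11 (.s k164 k172 1 (.s
  k251 k91 11 (.s k8 k89 12 (.d k12 k88 k4 13 1)))))] (.c k9 (.l (.s k248 k244 1 (.s k8 k88 11 (.d
  k251 k91 k89 11 12)))) (.c k95 (.q k175 [(.d k160 k165 k80 2 11), (.s k251 k91 11 (.s k8 k89 12
  (.d k248 k88 k244 11 1)))] .n) (.c k175 (.q k95 [(.d k80 k90 k160 2 11), (.s k248 k244 1 (.s k251
  k91 11 (.d k8 k88 k89 11 12)))] .n) .n)))) (.c k80 (.l (.s k248 k244 1 (.s k88 k8 11 (.s k164 k12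
  13 (.s k160 k172 1 (.s k165 k175 2 (.s k5 k245 11 (.d k15 k10 k90 2 14)))))))) (.c k160 (.l (.s
  k248 k244 1 (.s k8 k88 11 (.s k89 k251 12 (.s k81 k93 1 (.s k243 k162 12 (.d k12 k4 k166 1
  14))))))) .n))))))) (.c k84 (.q k150 [(.s k20 k215 8 (.s k130 k190 5 (.s k195 k65 8 (.d k60 k40
  k105 5 14)))), (.s k130 k190 5 (.s k195 k65 8 (.s k214 k233 6 (.s k86 k22 7 (.s k2 k254 13 (.d k3
  k1 k169 0 14)))))), (.s k20 k215 8 (.s k60 k40 5 (.s k188 k124 7 (.s k169 k131 6 (.s k1 k253 13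
  (.d k3 k2 k86 0 14))))))] (.c k60 (.q k21 [(.s k149 k213 7 (.s k128 k191 6 (.s k148 k151 0 (.s
  k188 k168 5 (.s k131 k169 6 (.d k130 k190 k129 5 0)))))), (.s k20 k215 8 (.s k22 k23 0 (.s k214
  k86 7 (.s k195 k233 6 (.d k130 k190 k65 5 8))))), (.s k20 k215 8 (.s k22 k23 0 (.s k86 k214 7 (.s
  k2 k254 13 (.d k3 k1 k169 0 14)))))] (.c k125 (.l (.s k190 k130 5 (.s k20 k215 8 (.s k22 k23 0 (.s
  k86 k214 7 (.s k2 k254 13 (.d k3 k1 k169 0 14))))))) (.c k151 (.l (.s k20 k215 8 (.s k23 k22 0 (.s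
  k149 k213 7 (.s k128 k191 6 (.s k192 k64 7 (.d k212 k232 k86 5 8))))))) (.c k190 (.q k125 [(.s k20
  k215 8 (.s k65 k105 5 (.s k195 k130 8 (.s k214 k233 6 (.d k22 k23 k86 0 7))))), (.s k105 k65 5 (.s
  k149 k213 7 (.s k61 k193 13 (.s k1 k41 5 (.d k253 k189 k169 7 13))))), (.s k20 k215 8 (.s k22 k23
  0 (.s k86 k214 7 (.s k2 k254 13 (.d k3 k1 k169 0 14)))))] (.c k22 (.l (.s k65 k105 5 (.s k195 k130
  8 (.s k213 k149 7 (.s k214 k233 6 (.d k215 k212 k20 0 8)))))) (.c k169 (.l (.s k20 k215 8 (.s k22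
  k23 0 (.s k65 k105 5 (.s k195 k130 8 (.d k214 k233 k86 6 7)))))) .n))) .n)))) (.c k195 (.q k162
  [(.s k166 k174 1 (.s k243 k81 12 (.s k12 k89 14 (.d k4 k8 k247 1 12)))), (.s k81 k243 12 (.s k130
  k190 5 (.s k146 k178 3 (.s k154 k158 1 (.d k16 k211 k223 8 10))))), (.s k130 k190 5 (.s k166 k174
  1 (.s k134 k182 3 (.s k142 k138 1 (.d k178 k146 k154 3 5)))))] (.c k174 (.l (.s k81 k243 12 (.s
  k130 k190 5 (.s k146 k178 3 (.s k211 k16 8 (.d k89 k93 k28 1 10)))))) (.c k215 (.q k235 [(.s k166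
  k174 1 (.s k243 k81 12 (.s k12 k89 14 (.d k4 k8 k247 1 12)))), (.s k105 k40 8 (.s k166 k174 1 (.s
  k227 k44 10 (.s k32 k97 8 (.d k239 k231 k101 1 10))))), (.s k81 k243 12 (.s k130 k190 5 (.s k146
  k178 3 (.s k211 k16 8 (.d k89 k93 k28 1 10)))))] (.c k93 (.l (.s k243 k81 12 (.s k166 k174 1 (.s
  k12 k89 14 (.d k4 k8 k247 1 12))))) .n)) (.c k235 (.l (.s k215 k20 8 (.s k166 k174 1 (.s k4 k247
  12 (.s k12 k8 1 (.d k243 k81 k89 12 14)))))) .n)))) .n))) (.c k86 (.q k165 [(.s k5 k245 11 (.s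
  k160 k175 2 (.s k240 k80 11 (.d k15 k10 k90 2 14)))), (.s k5 k245 11 (.s k168 k84 13 (.s k169 k171
  0 (.s k1 k253 13 (.s k13 k9 1 (.s k161 k173 1 (.d k241 k81 k89 11 13))))))), (.s k160 k175 2 (.s
  k168 k84 13 (.s k164 k172 1 (.s k240 k80 11 (.s k88 k12 13 (.d k248 k244 k8 1 11))))))] (.c k240
  (.l (.s k168 k84 13 (.s k169 k171 0 (.s k173 k161 1 (.s k15 k94 12 (.d k5 k10 k245 2 11)))))) .n))
  (.c k87 (.l (.s k168 k84 13 (.s k169 k171 0 (.s k3 k86 14 (.d k1 k2 k253 0 13))))) (.c k168 (.q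
  k154 [(.s k16 k223 10 (.s k138 k186 3 (.s k207 k69 10 (.d k48 k32 k101 3 14)))), (.s k138 k186 3
  (.s k207 k69 10 (.s k222 k237 4 (.s k86 k18 9 (.s k2 k254 13 (.d k3 k1 k169 0 14)))))), (.s k16
  k223 10 (.s k48 k32 3 (.s k184 k116 9 (.s k169 k139 4 (.s k1 k253 13 (.d k3 k2 k86 0 14))))))] (.c
  k48 (.q k153 [(.s k17 k221 9 (.s k136 k187 4 (.s k204 k68 9 (.d k51 k34 k102 4 14)))), (.s k16
  k223 10 (.s k152 k155 0 (.s k220 k84 9 (.s k19 k86 10 (.d k17 k18 k221 0 9))))), (.s k16 k223 10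
  (.s k136 k187 4 (.s k152 k155 0 (.s k204 k68 9 (.d k220 k236 k84 3 9)))))] (.c k117 (.l (.s k186
  k138 3 (.s k17 k221 9 (.s k51 k34 4 (.s k136 k187 4 (.d k204 k68 k102 9 14)))))) (.c k186 (.q k117
  [(.s k17 k221 9 (.s k51 k34 4 (.s k204 k102 14 (.d k136 k187 k68 4 9)))), (.s k16 k223 10 (.s k152
  k155 0 (.s k220 k84 9 (.s k19 k86 10 (.d k17 k18 k221 0 9))))), (.s k16 k223 10 (.s k136 k187 4
  (.s k152 k155 0 (.s k204 k68 9 (.d k220 k236 k84 3 9)))))] .n) .n))) (.c k207 (.q k153 [(.s k17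
  k221 9 (.s k136 k187 4 (.s k204 k68 9 (.d k51 k34 k102 4 14)))), (.s k155 k152 0 (.s k186 k138 3
  (.s k187 k136 4 (.s k184 k185 0 (.d k139 k171 k169 3 4))))), (.s k221 k17 9 (.s k223 k16 10 (.s
  k220 k222 0 (.s k19 k86 10 (.d k155 k152 k87 0 9)))))] (.c k223 (.q k239 [(.s k136 k187 4 (.s k204
  k68 9 (.s k51 k102 14 (.d k17 k34 k221 4 9)))), (.s k32 k101 10 (.s k48 k16 3 (.s k184 k116 9 (.s
  k186 k138 3 (.d k187 k185 k136 0 4))))), (.s k17 k221 9 (.s k32 k101 10 (.s k16 k48 3 (.s k19 k18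
  0 (.s k152 k155 0 (.d k220 k84 k86 9 10))))))] .n) (.c k239 (.l (.s k223 k16 10 (.s k17 k221 9 (.s
  k51 k34 4 (.s k136 k187 4 (.d k204 k68 k102 9 14)))))) .n))) .n))) (.c k169 (.q k4 [(.s k166 k247
  12 (.s k162 k174 1 (.s k243 k81 12 (.d k12 k8 k89 1 14)))), (.s k84 k168 13 (.s k244 k164 11 (.s
  k240 k248 1 (.s k160 k80 11 (.s k165 k175 2 (.s k5 k245 11 (.d k15 k90 k10 14 2)))))))] (.c k8 (.l
  (.s k84 k168 13 (.s k166 k247 12 (.s k162 k174 1 (.s k243 k81 12 (.s k246 k249 2 (.d k86 k87 k6 0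
  11))))))) .n)) (.c k171 (.l (.s k84 k168 13 (.s k86 k87 0 (.s k3 k169 14 (.d k2 k1 k254 0 13)))))
  (.c k253 (.l (.s k84 k168 13 (.s k86 k87 0 (.s k2 k254 13 (.d k3 k1 k169 0 14))))) .n))))))))))))

def t7_43 : T TT 256 :=
  (.f k255 k170 14 (.q k106 [(.s k64 k127 6 (.s k192 k128 7 (.s k213 k234 6 (.d k149 k21 k63 7
  14))))] (.c k21 (.q k1 [(.s k3 k2 0 (.s k169 k253 13 (.s k86 k252 14 (.d k87 k84 k171 0 13)))),
  (.s k64 k127 6 (.s k192 k128 7 (.s k213 k234 6 (.s k253 k169 13 (.s k193 k233 5 (.s k65 k129 7 (.d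
  k195 k130 k194 8 0))))))), (.s k3 k2 0 (.s k64 k127 6 (.s k192 k128 7 (.s k66 k129 8 (.s k86 k126
  5 (.d k87 k84 k171 0 13))))))] (.c k171 (.l (.s k3 k2 0 (.s k64 k127 6 (.s k169 k253 13 (.s k86
  k252 14 (.s k66 k126 5 (.d k192 k128 k129 7 8))))))) .n)) (.c k63 (.q k3 [(.s k1 k2 0 (.s k169
  k253 13 (.s k86 k252 14 (.d k87 k84 k171 0 13)))), (.s k2 k1 0 (.s k64 k127 6 (.s k192 k128 7 (.s
  k66 k129 8 (.s k65 k67 0 (.d k130 k194 k195 7 8)))))), (.s k64 k127 6 (.s k87 k171 13 (.s k86 k84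
  0 (.s k66 k126 5 (.d k192 k128 k129 7 8)))))] (.c k87 (.l (.s k1 k2 0 (.s k64 k127 6 (.s k169 k253
  13 (.s k86 k252 14 (.s k192 k128 7 (.d k66 k126 k129 5 8))))))) .n)) (.c k64 (.q k195 [(.s k65
  k130 8 (.s k105 k125 5 (.s k150 k60 14 (.d k215 k235 k20 5 8)))), (.s k65 k130 8 (.s k105 k125 5
  (.s k107 k104 0 (.s k63 k151 13 (.s k21 k42 6 (.d k149 k213 k192 7 14)))))), (.s k215 k235 5 (.s
  k150 k20 8 (.s k194 k62 13 (.s k192 k193 0 (.s k149 k63 14 (.d k213 k234 k21 6 7))))))] (.c k105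
  (.q k63 [(.s k149 k192 14 (.d k21 k42 k213 6 7)), (.s k151 k107 13 (.s k191 k127 7 (.s k171 k131 5
  (.s k87 k3 13 (.d k215 k235 k23 5 7)))))] (.c k40 (.l (.s k235 k215 5 (.s k149 k192 14 (.d k21 k42
  k213 6 7)))) (.c k235 (.q k40 [(.s k21 k42 6 (.d k149 k213 k192 7 14)), (.s k20 k60 5 (.s k149
  k192 14 (.s k150 k215 8 (.d k151 k148 k107 0 13)))), (.s k20 k60 5 (.s k21 k42 6 (.s k23 k22 0 (.s
  k215 k150 8 (.d k151 k107 k87 13 7)))))] (.c k107 (.q k171 [(.s k21 k42 6 (.d k149 k213 k192 7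
  14)), (.s k191 k127 7 (.s k131 k151 5 (.d k3 k67 k87 7 13)))] .n) (.c k171 (.l (.s k107 k151 13
  (.s k21 k42 6 (.d k149 k213 k192 7 14)))) .n))) .n))) (.c k150 (.q k211 [(.s k243 k227 3 (.s k81
  k162 12 (.s k89 k93 1 (.s k166 k12 14 (.d k247 k251 k4 1 12))))), (.s k215 k235 5 (.s k219 k223 1
  (.s k243 k227 3 (.s k231 k207 5 (.d k247 k251 k199 1 3))))), (.s k215 k235 5 (.s k223 k219 1 (.s
  k16 k154 10 (.s k48 k32 3 (.d k146 k81 k97 8 12)))))] (.c k130 (.q k190 [(.s k215 k235 5 (.s k219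
  k223 1 (.s k243 k227 3 (.s k231 k207 5 (.d k247 k251 k199 1 3))))), (.s k243 k227 3 (.s k81 k162
  12 (.s k89 k93 1 (.s k166 k12 14 (.d k247 k251 k4 1 12))))), (.s k215 k235 5 (.s k223 k219 1 (.s
  k16 k154 10 (.s k48 k32 3 (.d k146 k81 k97 8 12)))))] (.c k251 (.l (.s k125 k60 8 (.s k65 k105 5
  (.s k243 k227 3 (.s k81 k162 12 (.s k97 k113 3 (.d k146 k16 k48 8 12))))))) .n)) (.c k190 (.l (.s
  k130 k65 8 (.s k215 k235 5 (.s k219 k223 1 (.s k243 k227 3 (.s k231 k207 5 (.d k247 k251 k199 1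
  3))))))) (.c k251 (.l (.s k215 k235 5 (.s k243 k227 3 (.s k81 k162 12 (.s k16 k146 8 (.d k223 k219
  k154 1 10)))))) .n)))) .n))) (.c k127 (.q k204 [(.s k68 k136 9 (.s k221 k238 4 (.s k153 k17 9 (.d
  k102 k119 k51 4 14)))), (.s k68 k136 9 (.s k102 k119 4 (.s k110 k98 1 (.s k63 k157 12 (.s k21 k42
  6 (.d k149 k213 k192 7 14)))))), (.s k221 k238 4 (.s k153 k17 9 (.s k200 k59 12 (.s k192 k196 1
  (.s k149 k63 14 (.d k213 k234 k21 6 7))))))] (.c k102 (.q k200 [(.s k153 k59 12 (.d k221 k238 k17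
  4 9)), (.s k192 k196 1 (.s k149 k63 14 (.d k213 k234 k21 6 7)))] (.c k34 (.l (.s k238 k221 4 (.s
  k192 k196 1 (.s k149 k63 14 (.d k213 k234 k21 6 7))))) (.c k238 (.q k34 [(.s k17 k51 4 (.d k153
  k221 k59 9 12)), (.s k192 k196 1 (.s k149 k63 14 (.d k213 k234 k21 6 7)))] .n) .n))) (.c k153 (.q
  k102 [(.d k68 k136 k119 9 4), (.s k110 k98 1 (.s k63 k157 12 (.s k21 k42 6 (.d k149 k213 k192 7
  14))))] (.c k136 (.q k187 [(.d k119 k68 k51 4 9), (.s k110 k98 1 (.s k63 k157 12 (.s k21 k42 6 (.d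
  k149 k213 k192 7 14))))] .n) (.c k187 (.l (.s k136 k68 9 (.s k110 k98 1 (.s k63 k157 12 (.s k21
  k42 6 (.d k149 k213 k192 7 14)))))) .n))) .n))) (.c k128 (.l (.s k127 k64 6 (.s k63 k191 7 (.s
  k149 k192 14 (.d k21 k42 k213 6 7))))) (.c k149 (.f k127 k64 6 (.q k111 [(.s k79 k95 3 (.s k101
  k96 2 (.s k117 k69 3 (.d k112 k122 k90 2 6)))), (.s k95 k79 3 (.s k15 k175 11 (.s k5 k10 2 (.s
  k165 k245 11 (.d k90 k80 k240 2 14))))), (.s k101 k96 2 (.s k69 k117 3 (.s k207 k138 10 (.d k63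
  k191 k159 7 11))))] (.c k69 (.l (.s k79 k95 3 (.s k101 k96 2 (.s k112 k90 6 (.s k117 k122 2 (.s
  k48 k186 10 (.s k16 k32 3 (.d k154 k223 k207 10 14)))))))) (.c k80 (.l (.s k79 k95 3 (.s k101 k96
  2 (.s k112 k90 6 (.d k117 k122 k69 2 3))))) (.c k128 (.l (.s k191 k63 7 (.s k79 k95 3 (.s k101 k96
  2 (.s k112 k90 6 (.d k117 k122 k69 2 3)))))) (.c k191 (.q k128 [(.s k79 k95 3 (.s k101 k96 2 (.s
  k117 k69 3 (.d k112 k122 k90 2 6)))), (.s k95 k79 3 (.s k15 k175 11 (.s k5 k10 2 (.s k165 k245 11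
  (.d k90 k80 k240 2 14))))), (.s k101 k96 2 (.s k69 k117 3 (.s k207 k138 10 (.s k154 k48 14 (.d
  k223 k239 k16 3 10)))))] (.c k69 (.l (.s k79 k95 3 (.s k101 k96 2 (.s k112 k90 6 (.s k117 k122 2
  (.s k48 k186 10 (.s k16 k32 3 (.d k154 k223 k207 10 14)))))))) (.c k80 (.l (.s k79 k95 3 (.s k101
  k96 2 (.s k112 k90 6 (.d k117 k122 k69 2 3))))) .n))) .n)))))) (.c k191 (.l (.s k64 k127 6 (.s
  k192 k128 7 (.s k149 k63 14 (.d k213 k234 k21 6 7))))) (.c k192 (.q k4 [(.s k12 k8 1 (.s k93 k174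
  12 (.s k89 k81 1 (.d k166 k247 k243 12 14)))), (.s k127 k64 6 (.s k63 k191 7 (.s k21 k42 6 (.s k55
  k38 4 (.s k247 k166 12 (.s k119 k183 7 (.d k51 k187 k59 9 1))))))), (.s k12 k8 1 (.s k127 k64 6
  (.s k63 k191 7 (.s k21 k42 6 (.s k29 k46 4 (.s k25 k17 1 (.d k38 k55 k51 4 6)))))))] .n) (.c k213
  (.q k3 [(.s k1 k2 0 (.s k169 k253 13 (.s k86 k252 14 (.d k87 k84 k171 0 13)))), (.s k2 k1 0 (.s
  k64 k127 6 (.s k192 k128 7 (.s k66 k129 8 (.s k65 k67 0 (.d k130 k194 k195 7 8)))))), (.s k64 k127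
  6 (.s k87 k171 13 (.s k86 k84 0 (.s k66 k126 5 (.d k192 k128 k129 7 8)))))] (.c k87 (.l (.s k1 k2
  0 (.s k64 k127 6 (.s k169 k253 13 (.s k86 k252 14 (.s k66 k126 5 (.d k192 k128 k129 7 8)))))))
  .n)) (.c k234 (.l (.s k127 k64 6 (.s k63 k191 7 (.s k21 k42 6 (.d k149 k213 k192 7 14)))))
  .n))))))))))))

def t7_44 : T TT 256 :=
  (.f k255 k170 14 (.q k106 [(.s k64 k127 6 (.s k192 k128 7 (.s k149 k63 14 (.d k213 k234 k21 6
  7))))] (.c k21 (.q k1 [(.s k169 k253 13 (.s k3 k2 0 (.s k86 k252 14 (.d k87 k84 k171 0 13)))), (.s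
  k64 k127 6 (.s k192 k128 7 (.s k213 k234 6 (.s k253 k169 13 (.s k193 k233 5 (.s k65 k129 7 (.d
  k195 k130 k194 8 0))))))), (.s k3 k2 0 (.s k64 k127 6 (.s k192 k128 7 (.s k66 k129 8 (.s k86 k126
  5 (.d k87 k84 k171 0 13))))))] (.c k171 (.l (.s k3 k2 0 (.s k127 k64 6 (.s k63 k191 7 (.s k43 k23
  5 (.d k169 k232 k253 8 13)))))) .n)) (.c k63 (.q k1 [(.s k3 k2 0 (.s k87 k171 13 (.s k86 k84 0 (.d
  k169 k253 k252 13 14)))), (.s k64 k127 6 (.s k192 k128 7 (.s k213 k234 6 (.s k253 k169 13 (.s k193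
  k233 5 (.s k65 k129 7 (.d k195 k130 k194 8 0))))))), (.s k3 k2 0 (.s k64 k127 6 (.s k192 k128 7
  (.s k66 k129 8 (.s k86 k126 5 (.d k87 k84 k171 0 13))))))] (.c k171 (.l (.s k3 k2 0 (.s k64 k127 6
  (.s k169 k253 13 (.s k86 k252 14 (.s k192 k128 7 (.d k66 k126 k129 5 8))))))) .n)) (.c k64 (.q
  k195 [(.s k65 k130 8 (.s k105 k125 5 (.s k215 k235 5 (.d k150 k20 k60 8 14)))), (.s k65 k130 8 (.s
  k105 k125 5 (.s k107 k104 0 (.s k63 k151 13 (.s k21 k42 6 (.d k149 k213 k192 7 14)))))), (.s k215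
  k235 5 (.s k150 k20 8 (.s k194 k62 13 (.s k192 k193 0 (.s k149 k63 14 (.d k213 k234 k21 6 7))))))]
  (.c k105 (.f k235 k215 5 (.q k243 [(.s k81 k162 12 (.s k89 k93 1 (.s k247 k251 1 (.d k166 k4 k12
  12 14)))), (.s k227 k211 3 (.s k251 k247 1 (.s k219 k203 3 (.d k231 k239 k207 1 5)))), (.s k65
  k130 8 (.s k81 k162 12 (.s k97 k113 3 (.s k146 k48 12 (.d k211 k227 k16 3 8)))))] (.c k166 (.l (.s
  k227 k211 3 (.s k231 k239 1 (.s k219 k207 5 (.d k251 k247 k203 1 3))))) (.c k227 (.q k166 [(.d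
  k247 k251 k4 1 12), (.s k81 k162 12 (.d k89 k93 k12 1 14))] .n) .n)))) (.c k150 (.q k207 [(.s k69
  k138 10 (.s k101 k117 3 (.s k154 k48 14 (.d k223 k239 k16 3 10)))), (.s k130 k65 8 (.s k138 k69 10
  (.s k134 k142 1 (.s k73 k12 10 (.d k203 k199 k8 1 8))))), (.s k199 k203 1 (.s k215 k235 5 (.s k223
  k239 3 (.s k219 k211 1 (.d k231 k247 k243 3 5)))))] (.c k130 (.q k190 [(.s k69 k138 10 (.s k101
  k117 3 (.s k154 k48 14 (.d k223 k239 k16 3 10)))), (.s k60 k125 8 (.s k158 k109 12 (.s k174 k142 3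
  (.s k93 k12 12 (.d k223 k239 k28 3 8))))), (.s k125 k60 8 (.s k105 k65 5 (.s k203 k199 1 (.s k154
  k56 12 (.d k223 k239 k16 3 10))))), (.s k60 k125 8 (.s k69 k138 10 (.s k101 k117 3 (.s k109 k158
  12 (.s k97 k105 1 (.d k48 k146 k154 12 14))))))] .n) (.c k190 (.l (.s k130 k65 8 (.s k69 k138 10
  (.s k101 k117 3 (.s k154 k48 14 (.d k223 k239 k16 3 10)))))) .n))) .n))) (.c k127 (.q k195 [(.s
  k65 k130 8 (.s k215 k235 5 (.s k150 k20 8 (.d k105 k125 k60 5 14)))), (.s k65 k130 8 (.s k105 k125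
  5 (.s k107 k104 0 (.s k63 k151 13 (.s k21 k42 6 (.d k149 k213 k192 7 14)))))), (.s k215 k235 5 (.s
  k150 k20 8 (.s k194 k62 13 (.s k192 k193 0 (.s k149 k63 14 (.d k213 k234 k21 6 7))))))] (.c k105
  (.f k235 k215 5 (.q k243 [(.s k81 k162 12 (.s k89 k93 1 (.s k247 k251 1 (.d k166 k4 k12 12 14)))),
  (.s k227 k211 3 (.s k251 k247 1 (.s k219 k203 3 (.d k231 k239 k207 1 5)))), (.s k65 k130 8 (.s k81
  k162 12 (.s k97 k113 3 (.s k146 k48 12 (.d k211 k227 k16 3 8)))))] (.c k166 (.l (.s k227 k211 3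
  (.s k231 k239 1 (.s k219 k207 5 (.d k251 k247 k203 1 3))))) (.c k227 (.q k166 [(.d k247 k251 k4 1
  12), (.s k81 k162 12 (.d k89 k93 k12 1 14))] .n) .n)))) (.c k150 (.q k149 [(.s k21 k213 7 (.d k63
  k42 k192 6 14)), (.s k63 k192 14 (.s k107 k151 13 (.s k105 k104 0 (.d k65 k130 k125 8 5))))] (.c
  k63 (.l (.s k213 k21 7 (.s k192 k234 6 (.s k193 k194 0 (.s k105 k61 13 (.d k65 k125 k130 5 8))))))
  (.c k130 (.q k190 [(.s k21 k213 7 (.d k63 k42 k192 6 14)), (.s k63 k192 14 (.s k107 k151 13 (.s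
  k105 k104 0 (.d k125 k60 k65 8 5))))] (.c k63 (.l (.s k125 k60 8 (.s k105 k65 5 (.s k213 k21 7 (.s
  k192 k234 6 (.d k193 k61 k194 13 0)))))) (.c k192 (.l (.s k21 k213 7 (.s k63 k42 6 (.s k107 k151
  13 (.s k105 k104 0 (.d k125 k60 k65 8 5)))))) .n))) (.c k190 (.l (.s k130 k65 8 (.s k21 k213 7 (.d
  k63 k42 k192 6 14)))) (.c k192 (.l (.s k21 k213 7 (.s k63 k42 6 (.s k107 k151 13 (.s k105 k104 0
  (.d k65 k125 k130 5 8)))))) .n))))) .n))) (.c k128 (.l (.s k127 k64 6 (.s k63 k191 7 (.s k149 k192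
  14 (.d k21 k42 k213 6 7))))) (.c k149 (.f k64 k127 6 (.q k68 [(.s k76 k72 1 (.s k102 k119 4 (.s
  k98 k110 1 (.d k115 k81 k89 4 6)))), (.s k204 k136 9 (.s k221 k238 4 (.s k153 k17 9 (.d k102 k119
  k51 4 14)))), (.s k72 k76 1 (.s k136 k204 9 (.s k8 k200 7 (.s k12 k4 1 (.d k192 k128 k132 7
  9)))))] (.c k128 (.q k191 [(.s k76 k72 1 (.s k102 k119 4 (.s k98 k110 1 (.d k115 k81 k89 4 6)))),
  (.s k204 k136 9 (.s k221 k238 4 (.s k153 k17 9 (.d k102 k119 k51 4 14)))), (.s k72 k76 1 (.s k136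
  k204 9 (.s k8 k200 7 (.s k12 k4 1 (.s k93 k174 12 (.d k89 k81 k123 1 4))))))] .n) (.c k191 (.l (.s
  k128 k192 7 (.s k76 k72 1 (.s k102 k119 4 (.s k98 k110 1 (.d k115 k81 k89 4 6)))))) .n)))) (.c
  k191 (.l (.s k64 k127 6 (.s k192 k128 7 (.s k149 k63 14 (.d k213 k234 k21 6 7))))) (.c k192 (.q k1
  [(.s k3 k2 0 (.s k87 k171 13 (.s k86 k84 0 (.d k169 k253 k252 13 14)))), (.s k127 k64 6 (.s k63
  k191 7 (.s k21 k42 6 (.s k61 k41 5 (.s k253 k169 13 (.s k125 k189 7 (.d k60 k190 k62 8 0))))))),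
  (.s k3 k2 0 (.s k127 k64 6 (.s k63 k191 7 (.s k21 k42 6 (.s k23 k43 5 (.s k22 k20 0 (.d k41 k61
  k60 5 6)))))))] .n) (.c k213 (.q k1 [(.s k3 k2 0 (.s k87 k171 13 (.s k86 k84 0 (.d k169 k253 k252
  13 14)))), (.s k64 k127 6 (.s k169 k253 13 (.s k192 k128 7 (.s k149 k63 14 (.s k129 k189 5 (.s k66
  k3 8 (.d k65 k193 k67 7 0))))))), (.s k3 k2 0 (.s k64 k127 6 (.s k192 k128 7 (.s k66 k129 8 (.s
  k86 k126 5 (.d k87 k84 k171 0 13))))))] (.c k3 (.l (.s k127 k64 6 (.s k63 k191 7 (.s k21 k42 6 (.s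
  k61 k41 5 (.s k60 k62 0 (.s k125 k190 8 (.d k253 k189 k169 7 13)))))))) .n)) (.c k234 (.l (.s k127
  k64 6 (.s k63 k191 7 (.s k21 k42 6 (.d k149 k213 k192 7 14))))) .n))))))))))))

def t7_45 : T TT 256 :=
  (.f k255 k170 14 (.q k89 [(.s k81 k93 1 (.s k243 k162 12 (.s k166 k12 14 (.d k247 k251 k4 1
  12))))] (.c k4 (.q k5 [(.s k165 k245 11 (.s k15 k10 2 (.s k90 k240 14 (.d k95 k80 k175 2 11)))),
  (.s k93 k81 1 (.s k165 k245 11 (.s k13 k241 13 (.s k1 k9 1 (.d k253 k173 k169 11 13))))), (.s k15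
  k10 2 (.s k81 k93 1 (.s k243 k162 12 (.s k91 k167 13 (.s k90 k88 0 (.d k95 k80 k175 2 11))))))]
  .n) (.c k12 (.q k1 [(.s k3 k2 0 (.s k87 k171 13 (.s k86 k84 0 (.d k169 k253 k252 13 14)))), (.s
  k81 k93 1 (.s k169 k253 13 (.s k9 k249 11 (.s k13 k5 1 (.d k241 k161 k165 11 13))))), (.s k3 k2 0
  (.s k81 k93 1 (.s k161 k241 11 (.s k82 k240 12 (.s k83 k80 0 (.d k243 k163 k162 11 12))))))] .n)
  (.c k81 (.q k69 [(.s k101 k117 3 (.s k207 k138 10 (.s k154 k48 14 (.d k223 k239 k16 3 10)))), (.s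
  k101 k117 3 (.s k77 k113 5 (.s k65 k73 1 (.s k195 k130 8 (.s k215 k235 5 (.s k150 k20 8 (.d k105
  k125 k60 5 14)))))))] (.c k101 (.f k207 k138 10 (.q k154 [(.d k223 k239 k16 3 10), (.s k219 k24 8
  (.s k243 k231 5 (.s k166 k12 14 (.d k247 k251 k4 1 12))))] (.c k32 (.l (.s k239 k223 3 (.s k219
  k24 8 (.s k243 k231 5 (.s k166 k12 14 (.d k247 k251 k4 1 12)))))) (.c k239 (.q k32 [(.d k16 k48
  k223 3 10), (.s k219 k24 8 (.s k243 k231 5 (.s k247 k251 1 (.d k166 k4 k12 12 14))))] .n) .n))))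
  (.c k117 (.l (.s k207 k138 10 (.s k223 k239 3 (.s k154 k16 10 (.s k219 k24 8 (.s k243 k231 5 (.s
  k166 k12 14 (.d k247 k251 k4 1 12)))))))) .n))) (.c k93 (.q k21 [(.s k149 k213 7 (.s k63 k42 6 (.s
  k106 k192 14 (.d k127 k64 k191 6 7)))), (.s k149 k213 7 (.s k29 k209 9 (.s k17 k25 1 (.s k51 k34 4
  (.s k119 k187 9 (.s k102 k68 4 (.d k153 k221 k204 9 14)))))))] (.c k149 (.f k63 k42 6 (.q k106
  [(.d k127 k191 k64 7 6), (.s k123 k72 4 (.s k243 k183 9 (.s k166 k12 14 (.d k247 k251 k4 1 12))))]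
  (.c k128 (.l (.s k191 k127 7 (.s k123 k72 4 (.s k243 k183 9 (.s k166 k12 14 (.d k247 k251 k4 1
  12)))))) (.c k191 (.q k128 [(.d k64 k127 k192 6 7), (.s k123 k72 4 (.s k243 k183 9 (.s k247 k251 1
  (.d k166 k4 k12 12 14))))] .n) .n)))) (.c k213 (.l (.s k63 k42 6 (.s k127 k191 7 (.s k106 k64 6
  (.s k123 k72 4 (.s k243 k183 9 (.s k166 k12 14 (.d k247 k251 k4 1 12)))))))) .n))) (.c k162 (.l
  (.s k93 k81 1 (.s k12 k174 12 (.s k166 k243 14 (.d k4 k8 k247 1 12))))) (.c k166 (.f k81 k93 1 (.q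
  k83 [(.s k80 k82 0 (.s k86 k92 2 (.s k87 k84 0 (.d k95 k91 k90 1 2)))), (.s k80 k82 0 (.s k240
  k160 11 (.s k245 k250 2 (.s k165 k5 11 (.s k241 k13 13 (.d k243 k162 k242 12 0)))))), (.s k86 k92
  2 (.s k84 k87 0 (.s k252 k168 13 (.s k169 k3 14 (.d k253 k254 k1 0 13)))))] (.c k162 (.q k174 [(.s
  k86 k92 2 (.s k87 k84 0 (.s k95 k91 1 (.d k80 k82 k90 0 2)))), (.s k80 k82 0 (.s k240 k160 11 (.s
  k245 k250 2 (.s k165 k5 11 (.d k90 k95 k15 2 14))))), (.s k86 k92 2 (.s k84 k87 0 (.s k252 k168 13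
  (.s k169 k3 14 (.d k253 k254 k1 0 13)))))] (.c k95 (.l (.s k82 k80 0 (.s k86 k92 2 (.s k94 k90 1
  (.s k84 k87 0 (.s k252 k168 13 (.d k254 k14 k253 11 0))))))) .n)) (.c k174 (.l (.s k162 k243 12
  (.s k80 k82 0 (.s k86 k92 2 (.s k87 k84 0 (.d k95 k91 k90 1 2)))))) .n)))) (.c k174 (.l (.s k81
  k93 1 (.s k243 k162 12 (.s k166 k12 14 (.d k247 k251 k4 1 12))))) (.c k243 (.q k1 [(.s k3 k2 0 (.s
  k87 k171 13 (.s k86 k84 0 (.d k169 k253 k252 13 14)))), (.s k81 k93 1 (.s k169 k253 13 (.s k9 k249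
  11 (.s k13 k5 1 (.d k241 k161 k165 11 13))))), (.s k3 k2 0 (.s k93 k81 1 (.s k12 k174 12 (.s k8 k4
  1 (.s k9 k6 2 (.s k5 k13 1 (.d k10 k11 k15 0 2)))))))] .n) (.c k247 (.q k87 [(.s k86 k84 0 (.s k3
  k171 13 (.s k169 k252 14 (.d k1 k2 k253 0 13)))), (.s k81 k93 1 (.s k86 k84 0 (.s k83 k92 2 (.s
  k80 k82 0 (.d k95 k91 k90 1 2))))), (.s k3 k171 13 (.s k81 k93 1 (.s k243 k162 12 (.s k83 k163 11
  (.s k80 k82 0 (.d k95 k91 k90 1 2))))))] .n) (.c k251 (.l (.s k93 k81 1 (.s k12 k174 12 (.s k4 k8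
  1 (.d k166 k247 k243 12 14))))) .n))))))))))))

def t7_46 : T TT 256 :=
  (.f k255 k170 14 (.q k106 [(.s k64 k127 6 (.s k192 k128 7 (.s k213 k234 6 (.d k149 k21 k63 7
  14))))] (.c k21 (.q k1 [(.s k169 k253 13 (.s k3 k2 0 (.s k86 k252 14 (.d k87 k84 k171 0 13)))),
  (.s k64 k127 6 (.s k192 k128 7 (.s k213 k234 6 (.s k253 k169 13 (.s k193 k233 5 (.s k65 k129 7 (.d
  k195 k130 k194 8 0))))))), (.s k3 k2 0 (.s k64 k127 6 (.s k192 k128 7 (.s k66 k129 8 (.s k86 k126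
  5 (.d k87 k84 k171 0 13))))))] (.c k171 (.l (.s k3 k2 0 (.s k127 k64 6 (.s k63 k191 7 (.s k43 k23
  5 (.d k169 k232 k253 8 13)))))) .n)) (.c k63 (.q k12 [(.s k4 k8 1 (.s k93 k174 12 (.s k89 k81 1
  (.d k166 k247 k243 12 14)))), (.s k8 k4 1 (.s k64 k127 6 (.s k192 k128 7 (.s k72 k132 9 (.s k68
  k76 1 (.d k136 k200 k204 7 9)))))), (.s k64 k127 6 (.s k192 k128 7 (.s k72 k132 9 (.s k89 k123 4
  (.d k93 k81 k174 1 12)))))] (.c k93 (.l (.s k4 k8 1 (.s k64 k127 6 (.s k166 k247 12 (.s k89 k243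
  14 (.s k192 k128 7 (.d k72 k123 k132 4 9))))))) .n)) (.c k64 (.q k195 [(.s k65 k130 8 (.s k105
  k125 5 (.s k150 k60 14 (.d k215 k235 k20 5 8)))), (.s k65 k130 8 (.s k105 k125 5 (.s k107 k104 0
  (.s k63 k151 13 (.s k21 k42 6 (.d k149 k213 k192 7 14)))))), (.s k215 k235 5 (.s k150 k20 8 (.s
  k194 k62 13 (.s k192 k193 0 (.s k149 k63 14 (.d k213 k234 k21 6 7))))))] (.c k105 (.q k69 [(.s
  k101 k117 3 (.s k207 k138 10 (.s k154 k48 14 (.d k223 k239 k16 3 10)))), (.s k65 k130 8 (.s k73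
  k77 1 (.s k12 k134 10 (.s k4 k8 1 (.s k93 k174 12 (.s k89 k81 1 (.d k166 k247 k243 12 14)))))))]
  (.c k40 (.l (.s k235 k215 5 (.s k101 k117 3 (.s k207 k138 10 (.s k154 k48 14 (.d k223 k239 k16 3
  10)))))) (.c k138 (.l (.s k65 k130 8 (.s k73 k77 1 (.s k101 k117 3 (.s k134 k12 10 (.s k199 k4 8
  (.s k150 k52 12 (.d k215 k20 k235 8 5)))))))) (.c k235 (.q k40 [(.s k101 k117 3 (.s k207 k138 10
  (.s k154 k48 14 (.d k223 k239 k16 3 10)))), (.s k20 k60 5 (.s k150 k215 8 (.s k194 k62 13 (.s k192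
  k193 0 (.s k213 k234 6 (.d k149 k63 k21 14 7))))))] .n) .n)))) (.c k150 (.q k93 [(.s k89 k81 1 (.s
  k12 k174 12 (.s k166 k243 14 (.d k4 k8 k247 1 12)))), (.s k81 k89 1 (.s k215 k235 5 (.s k243 k162
  12 (.s k211 k227 3 (.s k16 k146 8 (.d k223 k154 k219 10 1)))))), (.s k12 k174 12 (.s k8 k4 1 (.s
  k73 k134 10 (.s k138 k203 8 (.s k69 k207 10 (.d k65 k130 k77 8 1))))))] (.c k8 (.l (.s k12 k174 12
  (.s k73 k134 10 (.s k89 k81 1 (.s k105 k121 3 (.d k65 k125 k130 5 8)))))) (.c k130 (.q k190 [(.s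
  k89 k81 1 (.s k12 k174 12 (.s k166 k243 14 (.d k4 k8 k247 1 12)))), (.s k60 k125 8 (.s k174 k12 12
  (.s k158 k142 3 (.s k207 k109 12 (.d k223 k239 k28 3 8))))), (.s k89 k81 1 (.s k125 k60 8 (.s k65
  k105 5 (.s k77 k109 3 (.s k69 k73 1 (.d k101 k117 k113 3 5))))))] .n) (.c k162 (.l (.s k89 k81 1
  (.s k12 k174 12 (.s k166 k243 14 (.d k4 k8 k247 1 12))))) (.c k166 (.l (.s k81 k89 1 (.s k12 k174
  12 (.s k162 k243 12 (.s k130 k65 8 (.s k146 k178 3 (.s k48 k97 12 (.d k16 k211 k32 8 3)))))))) (.c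
  k174 (.l (.s k81 k89 1 (.s k130 k65 8 (.s k162 k243 12 (.s k146 k178 3 (.s k48 k97 12 (.d k16 k211
  k32 8 3))))))) (.c k190 (.l (.s k130 k65 8 (.s k12 k174 12 (.s k4 k8 1 (.s k89 k81 1 (.d k166 k247
  k243 12 14)))))) .n))))))) .n))) (.c k127 (.q k204 [(.s k68 k136 9 (.s k102 k119 4 (.s k153 k51 14
  (.d k221 k238 k17 4 9)))), (.s k221 k238 4 (.s k153 k17 9 (.s k200 k59 12 (.s k192 k196 1 (.s k149
  k63 14 (.d k213 k234 k21 6 7)))))), (.s k68 k136 9 (.s k102 k119 4 (.s k110 k98 1 (.s k63 k157 12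
  (.s k21 k42 6 (.d k149 k213 k192 7 14))))))] (.c k102 (.f k136 k68 9 (.f k238 k221 4 (.q k8 [(.s
  k72 k200 7 (.s k89 k123 4 (.s k93 k81 1 (.d k12 k4 k174 1 12)))), (.s k200 k72 7 (.s k59 k153 12
  (.s k42 k25 4 (.s k63 k21 6 (.d k192 k196 k149 1 14)))))] (.c k72 (.l (.s k4 k12 1 (.s k247 k166
  12 (.s k243 k251 1 (.s k230 k217 6 (.s k213 k196 4 (.d k234 k192 k226 6 1))))))) (.c k89 (.l (.s
  k12 k4 1 (.s k72 k200 7 (.s k132 k192 9 (.d k140 k128 k76 1 7))))) (.c k200 (.l (.s k4 k12 1 (.s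
  k247 k166 12 (.s k243 k251 1 (.s k230 k217 6 (.s k234 k226 1 (.d k213 k196 k192 4 6)))))))
  .n)))))) (.c k153 (.q k72 [(.s k89 k123 4 (.s k93 k81 1 (.s k136 k68 9 (.s k8 k200 7 (.d k12 k4
  k174 1 12))))), (.s k136 k68 9 (.s k200 k8 7 (.s k192 k196 1 (.s k213 k234 6 (.d k149 k21 k63 7
  14))))), (.s k89 k123 4 (.s k81 k93 1 (.s k243 k162 12 (.s k166 k12 14 (.d k247 k251 k4 1 12)))))]
  (.c k4 (.l (.s k89 k123 4 (.s k93 k81 1 (.s k12 k174 12 (.s k76 k140 7 (.d k68 k64 k136 1 9))))))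
  (.c k89 (.l (.s k136 k68 9 (.s k8 k200 7 (.s k12 k4 1 (.s k132 k192 9 (.d k140 k128 k76 1 7))))))
  (.c k136 (.q k187 [(.s k89 k123 4 (.s k81 k93 1 (.s k243 k162 12 (.s k247 k251 1 (.d k166 k4 k12
  12 14))))), (.s k119 k51 9 (.s k68 k102 4 (.s k76 k64 1 (.s k12 k140 7 (.s k132 k192 9 (.d k4 k8
  k196 1 7)))))), (.s k123 k89 4 (.s k221 k238 4 (.s k251 k59 7 (.s k243 k247 1 (.s k217 k230 6 (.s
  k213 k209 1 (.d k234 k200 k192 4 6)))))))] .n) (.c k187 (.l (.s k136 k68 9 (.s k8 k200 7 (.s k12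
  k4 1 (.s k89 k123 4 (.d k93 k81 k174 1 12)))))) .n))))) .n))) (.c k128 (.l (.s k127 k64 6 (.s k63
  k191 7 (.s k149 k192 14 (.d k21 k42 k213 6 7))))) (.c k149 (.f k64 k127 6 (.q k74 [(.s k79 k69 2
  (.s k90 k122 3 (.s k80 k95 2 (.d k112 k96 k101 3 6)))), (.s k69 k79 2 (.s k138 k207 10 (.s k10
  k202 7 (.s k15 k5 2 (.d k192 k128 k133 7 10))))), (.s k90 k122 3 (.s k95 k80 2 (.s k15 k175 11 (.d
  k192 k128 k133 7 10))))] (.c k95 (.l (.s k79 k69 2 (.s k90 k122 3 (.s k112 k101 6 (.s k80 k96 3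
  (.s k240 k160 11 (.s k165 k15 14 (.d k245 k250 k5 2 11)))))))) (.c k128 (.q k191 [(.s k79 k69 2
  (.s k90 k122 3 (.s k80 k95 2 (.d k112 k96 k101 3 6)))), (.s k69 k79 2 (.s k207 k138 10 (.s k223
  k239 3 (.s k154 k16 10 (.d k101 k117 k48 3 14))))), (.s k90 k122 3 (.s k95 k80 2 (.s k15 k175 11
  (.s k5 k10 2 (.d k165 k245 k240 11 14)))))] (.c k95 (.l (.s k79 k69 2 (.s k90 k122 3 (.s k112 k101
  6 (.s k80 k96 3 (.s k240 k160 11 (.s k165 k15 14 (.d k245 k250 k5 2 11)))))))) (.c k117 (.l (.s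
  k79 k69 2 (.s k90 k122 3 (.s k112 k101 6 (.d k80 k95 k96 2 3))))) .n))) (.c k191 (.l (.s k128 k192
  7 (.s k79 k69 2 (.s k90 k122 3 (.s k80 k95 2 (.d k112 k96 k101 3 6)))))) .n))))) (.c k191 (.l (.s
  k64 k127 6 (.s k192 k128 7 (.s k149 k63 14 (.d k213 k234 k21 6 7))))) (.c k192 (.q k1 [(.s k3 k2 0
  (.s k87 k171 13 (.s k86 k84 0 (.d k169 k253 k252 13 14)))), (.s k127 k64 6 (.s k63 k191 7 (.s k21
  k42 6 (.s k61 k41 5 (.s k253 k169 13 (.s k125 k189 7 (.d k60 k190 k62 8 0))))))), (.s k3 k2 0 (.s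
  k127 k64 6 (.s k63 k191 7 (.s k21 k42 6 (.s k23 k43 5 (.s k22 k20 0 (.d k41 k61 k60 5 6)))))))]
  .n) (.c k213 (.q k1 [(.s k3 k2 0 (.s k87 k171 13 (.s k86 k84 0 (.d k169 k253 k252 13 14)))), (.s
  k64 k127 6 (.s k169 k253 13 (.s k192 k128 7 (.s k149 k63 14 (.s k129 k189 5 (.s k66 k3 8 (.d k65
  k193 k67 7 0))))))), (.s k3 k2 0 (.s k64 k127 6 (.s k192 k128 7 (.s k66 k129 8 (.s k86 k126 5 (.d
  k87 k84 k171 0 13))))))] (.c k3 (.l (.s k127 k64 6 (.s k63 k191 7 (.s k21 k42 6 (.s k61 k41 5 (.s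
  k60 k62 0 (.s k125 k190 8 (.d k253 k189 k169 7 13)))))))) .n)) (.c k234 (.l (.s k127 k64 6 (.s k63
  k191 7 (.s k21 k42 6 (.d k149 k213 k192 7 14))))) .n))))))))))))

def t7_47 : T TT 256 :=
  (.f k255 k170 14 (.q k106 [(.s k64 k127 6 (.s k192 k128 7 (.s k213 k234 6 (.d k149 k21 k63 7
  14))))] (.c k21 (.q k1 [(.s k169 k253 13 (.s k3 k2 0 (.s k86 k252 14 (.d k87 k84 k171 0 13)))),
  (.s k64 k127 6 (.s k192 k128 7 (.s k213 k234 6 (.s k253 k169 13 (.s k193 k233 5 (.s k65 k129 7 (.d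
  k195 k130 k194 8 0))))))), (.s k3 k2 0 (.s k64 k127 6 (.s k192 k128 7 (.s k66 k129 8 (.s k86 k126
  5 (.d k87 k84 k171 0 13))))))] (.c k171 (.l (.s k3 k2 0 (.s k127 k64 6 (.s k63 k191 7 (.s k43 k23
  5 (.d k169 k232 k253 8 13)))))) .n)) (.c k63 (.q k15 [(.s k5 k10 2 (.s k165 k245 11 (.s k90 k240
  14 (.d k95 k80 k175 2 11)))), (.s k10 k5 2 (.s k64 k127 6 (.s k192 k128 7 (.s k74 k133 10 (.s k69
  k79 2 (.d k138 k202 k207 7 10)))))), (.s k64 k127 6 (.s k95 k175 11 (.s k90 k80 2 (.s k74 k122 3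
  (.d k192 k128 k133 7 10)))))] (.c k95 (.l (.s k5 k10 2 (.s k64 k127 6 (.s k165 k245 11 (.s k90
  k240 14 (.s k192 k128 7 (.d k74 k122 k133 3 10))))))) .n)) (.c k64 (.q k195 [(.s k65 k130 8 (.s
  k105 k125 5 (.s k150 k60 14 (.d k215 k235 k20 5 8)))), (.s k65 k130 8 (.s k105 k125 5 (.s k107
  k104 0 (.s k63 k151 13 (.s k21 k42 6 (.d k149 k213 k192 7 14)))))), (.s k215 k235 5 (.s k150 k20 8
  (.s k194 k62 13 (.s k192 k193 0 (.s k149 k63 14 (.d k213 k234 k21 6 7))))))] (.c k105 (.q k149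
  [(.s k21 k213 7 (.d k63 k42 k192 6 14)), (.s k63 k192 14 (.s k151 k107 13 (.s k150 k148 0 (.d k215
  k235 k20 5 8))))] (.c k40 (.l (.s k235 k215 5 (.s k21 k213 7 (.d k63 k42 k192 6 14)))) (.c k63 (.l
  (.s k213 k21 7 (.s k192 k234 6 (.s k194 k193 0 (.s k150 k62 13 (.d k215 k235 k20 5 8)))))) (.c
  k192 (.l (.s k21 k213 7 (.s k63 k42 6 (.s k151 k107 13 (.s k150 k148 0 (.d k215 k235 k20 5 8))))))
  (.c k235 (.q k40 [(.s k21 k213 7 (.d k63 k42 k192 6 14)), (.s k20 k60 5 (.s k63 k192 14 (.s k150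
  k215 8 (.d k151 k148 k107 0 13))))] (.c k63 (.l (.s k20 k60 5 (.s k150 k215 8 (.s k213 k21 7 (.s
  k192 k234 6 (.d k194 k62 k193 13 0)))))) (.c k192 (.l (.s k20 k60 5 (.s k21 k213 7 (.s k63 k42 6
  (.s k150 k215 8 (.d k151 k148 k107 0 13)))))) .n))) .n))))) (.c k150 (.q k199 [(.s k207 k203 1 (.s
  k69 k138 10 (.s k101 k117 3 (.s k154 k48 14 (.d k223 k239 k16 3 10))))), (.s k207 k203 1 (.s k215
  k235 5 (.s k223 k239 3 (.s k219 k211 1 (.d k231 k247 k243 3 5))))), (.s k207 k203 1 (.s k69 k138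
  10 (.s k4 k134 8 (.s k215 k235 5 (.d k247 k166 k231 12 3))))), (.s k215 k235 5 (.s k247 k231 3 (.s
  k4 k166 12 (.s k12 k8 1 (.d k134 k69 k73 8 10)))))] (.c k130 (.q k190 [(.s k207 k203 1 (.s k69
  k138 10 (.s k101 k117 3 (.s k154 k48 14 (.d k223 k239 k16 3 10))))), (.s k207 k203 1 (.s k215 k235
  5 (.s k223 k239 3 (.s k219 k211 1 (.d k231 k247 k243 3 5))))), (.s k215 k235 5 (.s k247 k231 3 (.s
  k4 k166 12 (.s k12 k8 1 (.d k134 k69 k73 8 10))))), (.s k125 k60 8 (.s k65 k105 5 (.s k207 k203 1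
  (.s k69 k138 10 (.s k73 k77 1 (.d k134 k4 k12 8 10))))))] .n) (.c k190 (.l (.s k130 k65 8 (.s k207
  k203 1 (.s k69 k138 10 (.s k4 k134 8 (.s k215 k235 5 (.d k247 k166 k231 12 3))))))) .n))) .n)))
  (.c k127 (.q k204 [(.s k68 k136 9 (.s k221 k238 4 (.s k153 k17 9 (.d k102 k119 k51 4 14)))), (.s
  k68 k136 9 (.s k102 k119 4 (.s k110 k98 1 (.s k63 k157 12 (.s k21 k42 6 (.d k149 k213 k192 7
  14)))))), (.s k221 k238 4 (.s k153 k17 9 (.s k200 k59 12 (.s k192 k196 1 (.s k149 k63 14 (.d k213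
  k234 k21 6 7))))))] (.c k102 (.q k200 [(.s k153 k59 12 (.d k221 k238 k17 4 9)), (.s k192 k196 1
  (.s k149 k63 14 (.d k213 k234 k21 6 7)))] (.c k34 (.l (.s k238 k221 4 (.s k192 k196 1 (.s k149 k63
  14 (.d k213 k234 k21 6 7))))) (.c k238 (.q k34 [(.s k17 k51 4 (.d k153 k221 k59 9 12)), (.s k192
  k196 1 (.s k149 k63 14 (.d k213 k234 k21 6 7)))] .n) .n))) (.c k153 (.q k213 [(.s k149 k21 7 (.d
  k192 k234 k63 6 14)), (.s k221 k238 4 (.s k217 k209 1 (.s k243 k230 6 (.s k81 k162 12 (.s k89 k93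
  1 (.s k166 k12 14 (.d k247 k251 k4 1 12)))))))] (.c k136 (.q k187 [(.s k149 k21 7 (.d k192 k234
  k63 6 14)), (.s k192 k234 6 (.s k196 k200 1 (.s k221 k238 4 (.s k217 k209 1 (.d k230 k247 k243 4
  6))))), (.s k21 k149 7 (.s k63 k42 6 (.s k119 k51 9 (.s k102 k68 4 (.d k110 k157 k98 12 1)))))]
  .n) (.c k187 (.l (.s k136 k68 9 (.s k149 k21 7 (.d k192 k234 k63 6 14)))) (.c k234 (.l (.s k149
  k21 7 (.s k63 k192 14 (.s k110 k157 12 (.s k102 k98 1 (.d k68 k119 k136 4 9)))))) .n)))) .n))) (.c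
  k128 (.l (.s k127 k64 6 (.s k63 k191 7 (.s k149 k192 14 (.d k21 k42 k213 6 7))))) (.c k149 (.f k64
  k127 6 (.q k98 [(.s k102 k110 1 (.s k68 k119 4 (.s k76 k72 1 (.d k115 k81 k89 4 6)))), (.s k81
  k115 4 (.s k162 k243 12 (.s k34 k226 7 (.s k51 k17 4 (.d k192 k128 k145 7 12))))), (.s k102 k110 1
  (.s k119 k68 4 (.s k51 k187 9 (.d k192 k128 k145 7 12))))] (.c k119 (.l (.s k102 k110 1 (.s k115
  k81 4 (.s k76 k89 6 (.s k68 k72 1 (.s k204 k136 9 (.s k153 k51 14 (.d k221 k238 k17 4 9))))))))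
  (.c k128 (.q k191 [(.s k102 k110 1 (.s k68 k119 4 (.s k76 k72 1 (.d k115 k81 k89 4 6)))), (.s k81
  k115 4 (.s k243 k162 12 (.s k247 k251 1 (.s k166 k4 12 (.d k89 k93 k12 1 14))))), (.s k102 k110 1
  (.s k119 k68 4 (.s k51 k187 9 (.s k17 k34 4 (.d k153 k221 k204 9 14)))))] (.c k93 (.l (.s k115 k81
  4 (.s k102 k110 1 (.s k76 k89 6 (.d k68 k72 k119 1 4))))) (.c k119 (.l (.s k102 k110 1 (.s k115
  k81 4 (.s k76 k89 6 (.s k68 k72 1 (.s k204 k136 9 (.s k153 k51 14 (.d k221 k238 k17 4 9))))))))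
  .n))) (.c k191 (.l (.s k128 k192 7 (.s k102 k110 1 (.s k68 k119 4 (.s k76 k72 1 (.d k115 k81 k89 4
  6)))))) .n))))) (.c k191 (.l (.s k64 k127 6 (.s k192 k128 7 (.s k149 k63 14 (.d k213 k234 k21 6
  7))))) (.c k192 (.q k1 [(.s k3 k2 0 (.s k87 k171 13 (.s k86 k84 0 (.d k169 k253 k252 13 14)))),
  (.s k127 k64 6 (.s k63 k191 7 (.s k21 k42 6 (.s k61 k41 5 (.s k253 k169 13 (.s k125 k189 7 (.d k60
  k190 k62 8 0))))))), (.s k3 k2 0 (.s k127 k64 6 (.s k63 k191 7 (.s k21 k42 6 (.s k23 k43 5 (.s k22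
  k20 0 (.d k41 k61 k60 5 6)))))))] .n) (.c k213 (.q k1 [(.s k3 k2 0 (.s k87 k171 13 (.s k86 k84 0
  (.d k169 k253 k252 13 14)))), (.s k64 k127 6 (.s k169 k253 13 (.s k192 k128 7 (.s k149 k63 14 (.s
  k129 k189 5 (.s k66 k3 8 (.d k65 k193 k67 7 0))))))), (.s k3 k2 0 (.s k64 k127 6 (.s k192 k128 7
  (.s k66 k129 8 (.s k86 k126 5 (.d k87 k84 k171 0 13))))))] (.c k3 (.l (.s k127 k64 6 (.s k63 k191
  7 (.s k21 k42 6 (.s k61 k41 5 (.s k60 k62 0 (.s k125 k190 8 (.d k253 k189 k169 7 13)))))))) .n))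
  (.c k234 (.l (.s k127 k64 6 (.s k63 k191 7 (.s k21 k42 6 (.d k149 k213 k192 7 14)))))
  .n))))))))))))

def t7_50 : T TT 256 :=
  (.f k255 k170 14 (.q k106 [(.s k64 k127 6 (.s k192 k128 7 (.s k149 k63 14 (.d k213 k234 k21 6
  7))))] (.c k21 (.q k1 [(.s k169 k253 13 (.s k3 k2 0 (.s k86 k252 14 (.d k87 k84 k171 0 13)))), (.s
  k64 k127 6 (.s k192 k128 7 (.s k213 k234 6 (.s k253 k169 13 (.s k193 k233 5 (.s k65 k129 7 (.d
  k195 k130 k194 8 0))))))), (.s k3 k2 0 (.s k64 k127 6 (.s k192 k128 7 (.s k66 k129 8 (.s k86 k126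
  5 (.d k87 k84 k171 0 13))))))] (.c k171 (.l (.s k3 k2 0 (.s k127 k64 6 (.s k63 k191 7 (.s k43 k23
  5 (.d k169 k232 k253 8 13)))))) .n)) (.c k63 (.q k1 [(.s k3 k2 0 (.s k87 k171 13 (.s k86 k84 0 (.d
  k169 k253 k252 13 14)))), (.s k64 k127 6 (.s k192 k128 7 (.s k213 k234 6 (.s k253 k169 13 (.s k193
  k233 5 (.s k65 k129 7 (.d k195 k130 k194 8 0))))))), (.s k3 k2 0 (.s k64 k127 6 (.s k192 k128 7
  (.s k66 k129 8 (.s k86 k126 5 (.d k87 k84 k171 0 13))))))] (.c k171 (.l (.s k3 k2 0 (.s k64 k127 6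
  (.s k169 k253 13 (.s k86 k252 14 (.s k192 k128 7 (.d k66 k126 k129 5 8))))))) .n)) (.c k64 (.q k60
  [(.s k20 k40 5 (.s k125 k190 8 (.s k150 k215 8 (.d k105 k65 k195 5 14)))), (.s k20 k40 5 (.s k150
  k215 8 (.s k62 k194 13 (.s k63 k61 0 (.s k21 k42 6 (.d k149 k213 k192 7 14)))))), (.s k125 k190 8
  (.s k105 k65 5 (.s k104 k107 0 (.s k192 k148 13 (.s k149 k63 14 (.d k213 k234 k21 6 7))))))] (.c
  k105 (.q k87 [(.s k3 k171 13 (.s k86 k84 0 (.s k169 k252 14 (.d k1 k2 k253 0 13)))), (.s k86 k84 0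
  (.s k126 k66 5 (.s k190 k125 8 (.s k62 k254 7 (.s k150 k194 13 (.d k20 k40 k215 5 8)))))), (.s k3
  k171 13 (.s k2 k1 0 (.s k22 k41 6 (.s k42 k62 5 (.s k21 k63 6 (.d k20 k40 k23 5 0))))))] (.c k2
  (.l (.s k3 k171 13 (.s k22 k41 6 (.s k86 k84 0 (.s k150 k214 7 (.d k20 k40 k215 5 8)))))) (.c k40
  (.q k235 [(.s k3 k171 13 (.s k86 k84 0 (.s k169 k252 14 (.d k1 k2 k253 0 13)))), (.s k3 k171 13
  (.s k22 k41 6 (.s k215 k195 5 (.s k20 k150 8 (.d k23 k21 k151 0 7))))), (.s k86 k84 0 (.s k126 k66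
  5 (.s k190 k125 8 (.s k62 k254 7 (.s k150 k194 13 (.d k215 k195 k20 5 8))))))] .n) (.c k235 (.l
  (.s k40 k20 5 (.s k3 k171 13 (.s k1 k2 0 (.s k86 k84 0 (.d k169 k253 k252 13 14)))))) .n)))) (.c
  k150 (.q k149 [(.s k21 k213 7 (.d k63 k42 k192 6 14)), (.s k63 k192 14 (.s k61 k62 0 (.s k105 k193
  13 (.d k125 k190 k65 8 5))))] (.c k63 (.l (.s k213 k21 7 (.s k192 k234 6 (.s k104 k148 13 (.s k105
  k107 0 (.d k125 k65 k190 5 8)))))) (.c k130 (.l (.s k190 k125 8 (.s k21 k213 7 (.d k63 k42 k192 6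
  14)))) (.c k190 (.q k130 [(.s k21 k213 7 (.d k63 k42 k192 6 14)), (.s k63 k192 14 (.s k61 k62 0
  (.s k65 k195 8 (.d k105 k193 k125 13 5))))] (.c k63 (.l (.s k65 k195 8 (.s k105 k125 5 (.s k213
  k21 7 (.s k192 k234 6 (.d k104 k107 k148 0 13)))))) (.c k192 (.l (.s k21 k213 7 (.s k63 k42 6 (.s
  k61 k62 0 (.s k65 k195 8 (.d k105 k193 k125 13 5)))))) .n))) (.c k192 (.l (.s k21 k213 7 (.s k63
  k42 6 (.s k61 k62 0 (.s k105 k193 13 (.d k125 k65 k190 5 8)))))) .n))))) .n))) (.c k127 (.q k195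
  [(.s k65 k130 8 (.s k215 k235 5 (.s k150 k20 8 (.d k105 k125 k60 5 14)))), (.s k65 k130 8 (.s k105
  k125 5 (.s k107 k104 0 (.s k63 k151 13 (.s k21 k42 6 (.d k149 k213 k192 7 14)))))), (.s k215 k235
  5 (.s k150 k20 8 (.s k194 k62 13 (.s k192 k193 0 (.s k149 k63 14 (.d k213 k234 k21 6 7))))))] (.c
  k105 (.q k149 [(.s k21 k213 7 (.d k63 k42 k192 6 14)), (.s k63 k192 14 (.s k151 k107 13 (.s k150
  k148 0 (.d k215 k235 k20 5 8))))] (.c k40 (.l (.s k235 k215 5 (.s k21 k213 7 (.d k63 k42 k192 6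
  14)))) (.c k63 (.l (.s k213 k21 7 (.s k192 k234 6 (.s k194 k193 0 (.s k150 k62 13 (.d k215 k235
  k20 5 8)))))) (.c k192 (.l (.s k21 k213 7 (.s k63 k42 6 (.s k151 k107 13 (.s k150 k148 0 (.d k215
  k235 k20 5 8)))))) (.c k235 (.q k40 [(.s k21 k213 7 (.d k63 k42 k192 6 14)), (.s k20 k60 5 (.s k63
  k192 14 (.s k150 k215 8 (.d k151 k148 k107 0 13))))] (.c k63 (.l (.s k20 k60 5 (.s k150 k215 8 (.s
  k213 k21 7 (.s k192 k234 6 (.d k194 k62 k193 13 0)))))) (.c k192 (.l (.s k20 k60 5 (.s k21 k213 7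
  (.s k63 k42 6 (.s k150 k215 8 (.d k151 k148 k107 0 13)))))) .n))) .n))))) (.c k150 (.q k149 [(.s
  k21 k213 7 (.d k63 k42 k192 6 14)), (.s k63 k192 14 (.s k107 k151 13 (.s k105 k104 0 (.d k65 k130
  k125 8 5))))] (.c k63 (.l (.s k213 k21 7 (.s k192 k234 6 (.s k193 k194 0 (.s k105 k61 13 (.d k65
  k125 k130 5 8)))))) (.c k130 (.q k190 [(.s k21 k213 7 (.d k63 k42 k192 6 14)), (.s k63 k192 14 (.s
  k107 k151 13 (.s k105 k104 0 (.d k125 k60 k65 8 5))))] (.c k63 (.l (.s k125 k60 8 (.s k105 k65 5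
  (.s k213 k21 7 (.s k192 k234 6 (.d k193 k61 k194 13 0)))))) (.c k192 (.l (.s k21 k213 7 (.s k63
  k42 6 (.s k107 k151 13 (.s k105 k104 0 (.d k125 k60 k65 8 5)))))) .n))) (.c k190 (.l (.s k130 k65
  8 (.s k21 k213 7 (.d k63 k42 k192 6 14)))) (.c k192 (.l (.s k21 k213 7 (.s k63 k42 6 (.s k107 k151
  13 (.s k105 k104 0 (.d k65 k125 k130 5 8)))))) .n))))) .n))) (.c k128 (.l (.s k127 k64 6 (.s k63
  k191 7 (.s k149 k192 14 (.d k21 k42 k213 6 7))))) (.c k149 (.f k127 k64 6 (.q k102 [(.s k68 k119 4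
  (.s k204 k136 9 (.s k153 k51 14 (.d k221 k238 k17 4 9)))), (.s k110 k98 1 (.s k93 k76 4 (.s k12
  k174 12 (.s k4 k8 1 (.s k166 k247 12 (.d k89 k81 k243 1 14))))))] (.c k68 (.l (.s k110 k98 1 (.s
  k76 k93 4 (.s k115 k89 6 (.s k119 k123 1 (.s k51 k187 9 (.s k17 k34 4 (.d k153 k221 k204 9
  14)))))))) (.c k128 (.l (.s k191 k63 7 (.s k68 k119 4 (.s k204 k136 9 (.s k153 k51 14 (.d k221
  k238 k17 4 9)))))) (.c k191 (.q k128 [(.s k68 k119 4 (.s k204 k136 9 (.s k221 k238 4 (.d k153 k17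
  k51 9 14)))), (.s k110 k98 1 (.s k93 k76 4 (.s k12 k174 12 (.s k4 k8 1 (.s k166 k247 12 (.d k89
  k81 k243 1 14))))))] (.c k68 (.l (.s k110 k98 1 (.s k76 k93 4 (.s k115 k89 6 (.s k119 k123 1 (.s
  k51 k187 9 (.s k17 k34 4 (.d k153 k221 k204 9 14)))))))) .n)) .n))))) (.c k191 (.l (.s k64 k127 6
  (.s k192 k128 7 (.s k149 k63 14 (.d k213 k234 k21 6 7))))) (.c k192 (.q k1 [(.s k3 k2 0 (.s k87
  k171 13 (.s k86 k84 0 (.d k169 k253 k252 13 14)))), (.s k127 k64 6 (.s k63 k191 7 (.s k21 k42 6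
  (.s k61 k41 5 (.s k253 k169 13 (.s k125 k189 7 (.d k60 k190 k62 8 0))))))), (.s k3 k2 0 (.s k127
  k64 6 (.s k63 k191 7 (.s k21 k42 6 (.s k23 k43 5 (.s k22 k20 0 (.d k41 k61 k60 5 6)))))))] .n) (.c
  k213 (.q k1 [(.s k3 k2 0 (.s k87 k171 13 (.s k86 k84 0 (.d k169 k253 k252 13 14)))), (.s k64 k127
  6 (.s k169 k253 13 (.s k192 k128 7 (.s k149 k63 14 (.s k129 k189 5 (.s k66 k3 8 (.d k65 k193 k67 7
  0))))))), (.s k3 k2 0 (.s k64 k127 6 (.s k192 k128 7 (.s k66 k129 8 (.s k86 k126 5 (.d k87 k84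
  k171 0 13))))))] (.c k3 (.l (.s k127 k64 6 (.s k63 k191 7 (.s k21 k42 6 (.s k61 k41 5 (.s k60 k62
  0 (.s k125 k190 8 (.d k253 k189 k169 7 13)))))))) .n)) (.c k234 (.l (.s k127 k64 6 (.s k63 k191 7
  (.s k21 k42 6 (.d k149 k213 k192 7 14))))) .n))))))))))))

def t7_51 : T TT 256 :=
  (.f k255 k170 14 (.q k105 [(.s k65 k125 5 (.s k195 k130 8 (.s k215 k235 5 (.d k150 k20 k60 8
  14))))] (.c k20 (.q k1 [(.s k3 k2 0 (.s k87 k171 13 (.s k169 k253 13 (.d k86 k84 k252 0 14)))),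
  (.s k65 k125 5 (.s k169 k253 13 (.s k41 k233 7 (.s k61 k21 5 (.d k193 k129 k149 7 13))))), (.s k3
  k2 0 (.s k65 k125 5 (.s k129 k193 7 (.s k66 k192 8 (.s k67 k64 0 (.d k195 k131 k130 7 8))))))] .n)
  (.c k60 (.f k65 k125 5 (.q k171 [(.s k195 k130 8 (.s k235 k215 5 (.s k107 k43 7 (.s k63 k151 13
  (.s k106 k104 0 (.d k127 k64 k191 6 7)))))), (.s k3 k87 13 (.s k1 k2 0 (.s k169 k253 13 (.s k41
  k233 7 (.s k61 k21 5 (.d k193 k129 k149 7 13))))))] (.c k54 (.q k57 [(.s k195 k130 8 (.s k235 k215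
  5 (.s k107 k43 7 (.s k63 k151 13 (.s k106 k104 0 (.d k127 k64 k191 6 7)))))), (.s k3 k87 13 (.s k1
  k2 0 (.s k169 k253 13 (.s k41 k233 7 (.s k61 k21 5 (.d k193 k129 k149 7 13))))))] (.c k87 (.l (.s
  k195 k130 8 (.s k235 k215 5 (.s k107 k43 7 (.s k106 k104 0 (.s k127 k64 6 (.d k63 k151 k191 13
  7))))))) .n)) (.c k57 (.q k54 [(.s k195 k130 8 (.s k235 k215 5 (.s k107 k43 7 (.s k63 k151 13 (.s
  k106 k104 0 (.d k127 k64 k191 6 7)))))), (.s k3 k87 13 (.s k1 k2 0 (.s k169 k253 13 (.s k41 k233 7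
  (.s k61 k21 5 (.d k193 k129 k149 7 13))))))] (.c k87 (.l (.s k195 k130 8 (.s k235 k215 5 (.s k107
  k43 7 (.s k106 k104 0 (.s k127 k64 6 (.d k63 k151 k191 13 7))))))) .n)) (.c k87 (.l (.s k195 k130
  8 (.s k235 k215 5 (.s k107 k43 7 (.s k106 k104 0 (.s k127 k64 6 (.d k63 k151 k191 13 7)))))))
  .n))))) (.c k65 (.q k1 [(.s k3 k2 0 (.s k87 k171 13 (.s k86 k84 0 (.d k169 k253 k252 13 14)))),
  (.s k169 k253 13 (.s k41 k233 7 (.s k21 k61 5 (.s k63 k42 6 (.s k127 k191 7 (.s k106 k64 6 (.d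
  k149 k213 k192 7 14)))))))] (.c k169 (.f k3 k2 0 (.q k86 [(.d k87 k171 k84 13 0), (.s k67 k124 6
  (.s k195 k131 7 (.s k150 k60 14 (.d k215 k235 k20 5 8))))] (.c k168 (.l (.s k171 k87 13 (.s k67
  k124 6 (.s k195 k131 7 (.s k150 k60 14 (.d k215 k235 k20 5 8)))))) (.c k171 (.q k168 [(.d k84 k87
  k252 0 13), (.s k67 k124 6 (.s k195 k131 7 (.s k215 k235 5 (.d k150 k20 k60 8 14))))] .n) .n))))
  (.c k253 (.l (.s k3 k2 0 (.s k87 k171 13 (.s k86 k84 0 (.s k67 k124 6 (.s k195 k131 7 (.s k150 k60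
  14 (.d k215 k235 k20 5 8)))))))) .n))) (.c k125 (.q k253 [(.s k169 k1 13 (.s k252 k254 0 (.s k84
  k168 13 (.d k86 k87 k3 0 14)))), (.s k169 k1 13 (.s k233 k41 7 (.s k213 k193 5 (.s k192 k234 6 (.s
  k64 k128 7 (.s k106 k127 6 (.d k149 k21 k63 7 14)))))))] (.c k1 (.l (.s k252 k254 0 (.s k84 k168
  13 (.s k86 k87 0 (.s k124 k67 6 (.s k60 k188 7 (.s k20 k40 5 (.d k150 k215 k195 8 14)))))))) (.c
  k169 (.f k252 k254 0 (.q k86 [(.d k84 k168 k87 13 0), (.s k124 k67 6 (.s k60 k188 7 (.s k20 k40 5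
  (.d k150 k215 k195 8 14))))] (.c k168 (.q k171 [(.d k87 k84 k3 0 13), (.s k124 k67 6 (.s k60 k188
  7 (.s k20 k40 5 (.d k150 k215 k195 8 14))))] .n) (.c k171 (.l (.s k168 k84 13 (.s k124 k67 6 (.s
  k60 k188 7 (.s k20 k40 5 (.d k150 k215 k195 8 14)))))) .n)))) .n))) (.c k130 (.l (.s k125 k65 5
  (.s k60 k190 8 (.s k150 k195 14 (.d k20 k40 k215 5 8))))) (.c k150 (.f k65 k125 5 (.q k193 [(.s k1
  k129 7 (.s k149 k61 13 (.s k213 k21 7 (.d k253 k233 k169 5 13)))), (.s k1 k129 7 (.s k3 k2 0 (.s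
  k87 k171 13 (.s k86 k84 0 (.s k67 k124 6 (.d k195 k130 k131 8 7)))))), (.s k149 k61 13 (.s k21
  k213 7 (.s k63 k42 6 (.s k106 k192 14 (.d k127 k64 k191 6 7)))))] (.c k130 (.q k190 [(.s k149 k61
  13 (.s k213 k21 7 (.s k253 k233 5 (.d k1 k129 k169 7 13)))), (.s k1 k129 7 (.s k3 k2 0 (.s k87
  k171 13 (.s k86 k84 0 (.d k169 k253 k252 13 14))))), (.s k149 k61 13 (.s k21 k213 7 (.s k63 k42 6
  (.s k106 k192 14 (.d k127 k64 k191 6 7)))))] (.c k253 (.l (.s k129 k1 7 (.s k149 k61 13 (.s k189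
  k169 5 (.s k21 k213 7 (.s k63 k42 6 (.d k191 k188 k127 0 7))))))) .n)) (.c k190 (.l (.s k130 k195
  8 (.s k1 k129 7 (.s k61 k149 13 (.s k41 k21 5 (.d k169 k233 k253 7 13)))))) .n)))) (.c k190 (.l
  (.s k65 k125 5 (.s k195 k130 8 (.s k150 k60 14 (.d k215 k235 k20 5 8))))) (.c k195 (.f k65 k125 5
  (.q k1 [(.s k3 k2 0 (.s k87 k171 13 (.s k86 k84 0 (.d k169 k253 k252 13 14)))), (.s k193 k129 7
  (.s k149 k61 13 (.s k21 k213 7 (.s k63 k42 6 (.s k106 k192 14 (.d k127 k64 k191 6 7))))))] (.c k3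
  (.l (.s k169 k253 13 (.s k41 k233 7 (.s k61 k21 5 (.d k193 k129 k149 7 13))))) (.c k99 (.q k147
  [(.s k3 k2 0 (.s k87 k171 13 (.s k86 k84 0 (.d k169 k253 k252 13 14)))), (.s k193 k129 7 (.s k149
  k61 13 (.s k21 k213 7 (.s k63 k42 6 (.s k106 k192 14 (.d k127 k64 k191 6 7))))))] (.c k3 (.l (.s
  k169 k253 13 (.s k41 k233 7 (.s k61 k21 5 (.d k193 k129 k149 7 13))))) (.c k253 (.l (.s k3 k2 0
  (.s k87 k171 13 (.s k86 k84 0 (.s k67 k124 6 (.s k64 k66 0 (.d k127 k107 k106 5 6))))))) .n))) (.c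
  k147 (.q k99 [(.s k3 k2 0 (.s k87 k171 13 (.s k86 k84 0 (.d k169 k253 k252 13 14)))), (.s k193
  k129 7 (.s k149 k61 13 (.s k21 k213 7 (.s k63 k42 6 (.s k106 k192 14 (.d k127 k64 k191 6 7))))))]
  (.c k3 (.l (.s k169 k253 13 (.s k41 k233 7 (.s k61 k21 5 (.d k193 k129 k149 7 13))))) (.c k253 (.l
  (.s k3 k2 0 (.s k87 k171 13 (.s k86 k84 0 (.s k67 k124 6 (.s k64 k66 0 (.d k127 k107 k106 5
  6))))))) .n))) (.c k253 (.l (.s k3 k2 0 (.s k87 k171 13 (.s k86 k84 0 (.s k67 k124 6 (.s k64 k66 0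
  (.d k127 k107 k106 5 6))))))) .n)))))) (.c k215 (.q k1 [(.s k3 k2 0 (.s k87 k171 13 (.s k86 k84 0
  (.d k169 k253 k252 13 14)))), (.s k65 k125 5 (.s k169 k253 13 (.s k41 k233 7 (.s k61 k21 5 (.d
  k193 k129 k149 7 13))))), (.s k3 k2 0 (.s k65 k125 5 (.s k129 k193 7 (.s k66 k192 8 (.s k67 k64 0
  (.d k195 k131 k130 7 8))))))] .n) (.c k235 (.l (.s k125 k65 5 (.s k60 k190 8 (.s k20 k40 5 (.d
  k150 k215 k195 8 14))))) .n))))))))))))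

def t7_52 : T TT 256 :=
  (.f k170 k255 14 (.q k42 [(.s k63 k21 6 (.s k106 k234 7 (.s k64 k127 6 (.d k192 k128 k149 7
  14))))] (.c k21 (.q k22 [(.s k2 k62 5 (.s k3 k1 0 (.s k86 k254 13 (.s k252 k169 14 (.d k84 k87
  k168 0 13))))), (.s k62 k2 5 (.s k106 k234 7 (.s k150 k194 13 (.s k20 k215 8 (.s k60 k40 5 (.s
  k130 k190 5 (.d k195 k65 k105 8 14)))))))] (.c k2 (.q k3 [(.s k60 k41 6 (.s k20 k40 5 (.s k150
  k215 8 (.s k130 k190 5 (.d k195 k65 k105 8 14))))), (.s k106 k234 7 (.s k64 k127 6 (.s k192 k128 7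
  (.s k66 k129 8 (.s k86 k126 5 (.s k84 k87 0 (.d k252 k168 k169 13 14)))))))] (.c k130 (.l (.s k41
  k60 6 (.s k40 k43 0 (.s k105 k235 8 (.s k169 k233 7 (.s k252 k86 14 (.d k168 k171 k84 0 13)))))))
  .n)) (.c k62 (.q k1 [(.s k3 k2 0 (.s k169 k253 13 (.s k168 k171 0 (.d k252 k84 k86 13 14)))), (.s
  k3 k2 0 (.s k60 k41 6 (.s k20 k40 5 (.s k150 k215 8 (.s k130 k190 5 (.d k195 k65 k105 8 14)))))),
  (.s k106 k234 7 (.s k169 k253 13 (.s k43 k232 8 (.s k40 k41 0 (.s k171 k168 0 (.d k235 k107 k105 7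
  8))))))] (.c k254 (.l (.s k3 k2 0 (.s k169 k253 13 (.s k252 k86 14 (.d k168 k171 k84 0 13)))))
  .n)) (.c k190 (.l (.s k2 k62 5 (.s k3 k1 0 (.s k106 k234 7 (.s k64 k127 6 (.s k192 k128 7 (.s k66
  k129 8 (.d k86 k126 k254 5 13)))))))) (.c k254 (.f k2 k62 5 (.l (.s k3 k1 0 (.s k41 k60 6 (.s k40
  k43 0 (.s k105 k235 8 (.s k169 k233 7 (.s k252 k86 14 (.d k168 k171 k84 0 13))))))))) .n))))) (.c
  k22 (.q k37 [(.s k106 k234 7 (.s k64 k127 6 (.s k192 k128 7 (.d k63 k21 k149 6 14)))), (.s k32 k47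
  2 (.s k48 k16 3 (.s k101 k239 10 (.s k69 k117 3 (.d k207 k138 k154 10 14)))))] .n) (.c k37 (.q k22
  [(.s k106 k234 7 (.s k64 k127 6 (.s k192 k128 7 (.d k63 k21 k149 6 14)))), (.s k2 k62 5 (.s k3 k1
  0 (.s k86 k254 13 (.s k84 k87 0 (.d k252 k168 k169 13 14)))))] .n) (.c k63 (.q k2 [(.s k3 k1 0 (.s
  k86 k254 13 (.s k252 k169 14 (.d k84 k87 k168 0 13)))), (.s k3 k1 0 (.s k22 k62 5 (.s k60 k41 6
  (.s k20 k40 5 (.s k150 k215 8 (.s k195 k105 14 (.d k130 k190 k65 5 8))))))), (.s k86 k254 13 (.s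
  k106 k234 7 (.s k66 k126 5 (.s k194 k130 7 (.d k62 k22 k150 5 13)))))] (.c k22 (.q k37 [(.s k3 k1
  0 (.s k86 k254 13 (.s k252 k169 14 (.d k84 k87 k168 0 13)))), (.s k32 k47 2 (.s k48 k16 3 (.s k101
  k239 10 (.s k69 k117 3 (.d k207 k138 k154 10 14)))))] (.c k127 (.q k191 [(.s k3 k1 0 (.s k86 k254
  13 (.s k252 k169 14 (.d k84 k87 k168 0 13)))), (.s k32 k47 2 (.s k48 k16 3 (.s k101 k239 10 (.s
  k69 k117 3 (.d k207 k138 k154 10 14)))))] .n) (.c k191 (.q k127 [(.d k106 k64 k234 6 7), (.s k3 k1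
  0 (.s k86 k254 13 (.s k84 k87 0 (.d k252 k168 k169 13 14))))] .n) .n))) (.c k37 (.l (.s k22 k62 5
  (.s k3 k1 0 (.s k86 k254 13 (.s k84 k87 0 (.d k252 k168 k169 13 14)))))) (.c k127 (.q k191 [(.s k3
  k1 0 (.s k86 k254 13 (.s k252 k169 14 (.d k84 k87 k168 0 13)))), (.s k3 k1 0 (.s k22 k62 5 (.s k60
  k41 6 (.s k20 k40 5 (.s k21 k23 0 (.d k149 k128 k213 6 7)))))), (.s k22 k62 5 (.s k86 k254 13 (.s
  k149 k128 6 (.s k21 k213 7 (.d k23 k20 k212 0 8)))))] (.c k22 (.q k37 [(.s k3 k1 0 (.s k86 k254 13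
  (.s k252 k169 14 (.d k84 k87 k168 0 13)))), (.s k32 k47 2 (.s k48 k16 3 (.s k101 k239 10 (.s k69
  k117 3 (.d k207 k138 k154 10 14)))))] .n) (.c k37 (.l (.s k22 k62 5 (.s k3 k1 0 (.s k86 k254 13
  (.s k84 k87 0 (.d k252 k168 k169 13 14)))))) .n))) (.c k191 (.q k127 [(.d k106 k64 k234 6 7), (.s
  k3 k1 0 (.s k86 k254 13 (.s k84 k87 0 (.d k252 k168 k169 13 14))))] (.c k22 (.q k37 [(.d k106 k64
  k234 6 7), (.s k3 k1 0 (.s k86 k254 13 (.s k84 k87 0 (.d k252 k168 k169 13 14))))] .n) (.c k37 (.l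
  (.s k22 k62 5 (.d k106 k64 k234 6 7))) .n))) .n))))) (.c k64 (.q k22 [(.s k2 k62 5 (.s k3 k1 0 (.s
  k21 k63 6 (.s k60 k41 6 (.d k20 k23 k40 0 5))))), (.s k2 k62 5 (.s k3 k1 0 (.s k86 k254 13 (.s k84
  k87 0 (.d k252 k168 k169 13 14))))), (.s k21 k63 6 (.s k20 k23 0 (.s k60 k40 5 (.s k150 k215 8 (.s
  k130 k190 5 (.d k195 k65 k105 8 14))))))] (.c k3 (.l (.s k2 k62 5 (.s k21 k63 6 (.s k23 k20 0 (.s
  k86 k254 13 (.d k149 k213 k212 7 8)))))) .n)) (.c k106 (.q k22 [(.s k2 k62 5 (.s k3 k1 0 (.s k41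
  k60 6 (.s k43 k40 0 (.d k63 k23 k21 5 6))))), (.s k2 k62 5 (.s k3 k1 0 (.s k86 k254 13 (.s k84 k87
  0 (.d k252 k168 k169 13 14))))), (.s k21 k63 6 (.s k20 k23 0 (.s k60 k40 5 (.s k150 k215 8 (.s
  k130 k190 5 (.d k195 k65 k105 8 14)))))), (.s k21 k63 6 (.s k20 k23 0 (.s k60 k40 5 (.s k3 k41 6
  (.d k2 k1 k62 0 5)))))] (.c k3 (.l (.s k2 k62 5 (.s k21 k63 6 (.s k23 k20 0 (.s k86 k254 13 (.d
  k149 k213 k212 7 8)))))) .n)) (.c k127 (.q k2 [(.s k3 k1 0 (.s k86 k254 13 (.s k252 k169 14 (.d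
  k84 k87 k168 0 13)))), (.s k22 k62 5 (.s k3 k1 0 (.s k41 k60 6 (.s k43 k40 0 (.d k63 k23 k21 5
  6))))), (.s k22 k62 5 (.s k86 k254 13 (.s k150 k214 7 (.s k20 k215 8 (.d k21 k63 k23 6 0)))))] (.c
  k22 (.q k37 [(.s k3 k1 0 (.s k86 k254 13 (.s k252 k169 14 (.d k84 k87 k168 0 13)))), (.s k32 k47 2
  (.s k48 k16 3 (.s k15 k26 6 (.s k5 k10 2 (.d k21 k63 k53 6 3)))))] (.c k63 (.q k191 [(.s k3 k1 0
  (.s k86 k254 13 (.s k252 k169 14 (.d k84 k87 k168 0 13)))), (.s k32 k47 2 (.s k48 k16 3 (.s k101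
  k239 10 (.s k69 k117 3 (.d k207 k138 k154 10 14)))))] .n) (.c k191 (.l (.s k63 k21 6 (.s k3 k1 0
  (.s k86 k254 13 (.s k84 k87 0 (.d k252 k168 k169 13 14)))))) .n))) (.c k37 (.l (.s k22 k62 5 (.s
  k3 k1 0 (.s k41 k60 6 (.s k43 k40 0 (.d k63 k23 k21 5 6)))))) (.c k63 (.q k191 [(.s k3 k1 0 (.s
  k86 k254 13 (.s k252 k169 14 (.d k84 k87 k168 0 13)))), (.s k3 k1 0 (.s k22 k62 5 (.s k60 k41 6
  (.s k20 k40 5 (.s k21 k23 0 (.d k149 k128 k213 6 7)))))), (.s k22 k62 5 (.s k86 k254 13 (.s k149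
  k128 6 (.s k21 k213 7 (.d k23 k20 k212 0 8)))))] (.c k22 (.q k37 [(.s k3 k1 0 (.s k86 k254 13 (.s
  k252 k169 14 (.d k84 k87 k168 0 13)))), (.s k32 k47 2 (.s k48 k16 3 (.s k101 k239 10 (.s k69 k117
  3 (.d k207 k138 k154 10 14)))))] .n) (.c k37 (.l (.s k22 k62 5 (.s k3 k1 0 (.s k86 k254 13 (.s k84
  k87 0 (.d k252 k168 k169 13 14)))))) .n))) (.c k191 (.l (.s k63 k21 6 (.s k3 k1 0 (.s k22 k62 5
  (.s k41 k60 6 (.d k43 k40 k23 0 5)))))) .n))))) (.c k128 (.q k22 [(.s k2 k62 5 (.s k3 k1 0 (.s k21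
  k63 6 (.s k60 k41 6 (.d k20 k23 k40 0 5))))), (.s k2 k62 5 (.s k3 k1 0 (.s k86 k254 13 (.s k84 k87
  0 (.d k252 k168 k169 13 14))))), (.s k21 k63 6 (.s k20 k23 0 (.s k60 k40 5 (.s k150 k215 8 (.s
  k130 k190 5 (.d k195 k65 k105 8 14))))))] (.c k3 (.l (.s k2 k62 5 (.s k21 k63 6 (.s k23 k20 0 (.s
  k86 k254 13 (.d k149 k213 k212 7 8)))))) .n)) (.c k149 (.q k22 [(.s k2 k62 5 (.s k3 k1 0 (.s k41
  k60 6 (.s k43 k40 0 (.d k63 k23 k21 5 6))))), (.s k2 k62 5 (.s k3 k1 0 (.s k86 k254 13 (.s k84 k87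
  0 (.d k252 k168 k169 13 14))))), (.s k21 k63 6 (.s k20 k23 0 (.s k60 k40 5 (.s k150 k215 8 (.s
  k130 k190 5 (.d k195 k65 k105 8 14))))))] (.c k3 (.l (.s k2 k62 5 (.s k21 k63 6 (.s k86 k254 13
  (.s k150 k214 7 (.d k20 k23 k215 0 8)))))) (.c k190 (.l (.s k2 k62 5 (.s k3 k1 0 (.s k21 k63 6 (.s
  k20 k23 0 (.d k60 k40 k41 5 6)))))) .n))) (.c k192 (.q k37 [(.s k32 k47 2 (.s k48 k16 3 (.s k15
  k26 6 (.s k5 k10 2 (.d k21 k53 k63 3 6))))), (.s k32 k47 2 (.s k48 k16 3 (.s k101 k239 10 (.s k69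
  k117 3 (.d k207 k138 k154 10 14))))), (.s k21 k63 6 (.s k5 k53 3 (.s k15 k10 2 (.s k165 k245 11
  (.s k160 k175 2 (.d k240 k80 k90 11 14))))))] (.c k48 (.l (.s k21 k63 6 (.s k32 k47 2 (.s k53 k5 3
  (.s k101 k239 10 (.d k149 k213 k197 7 11)))))) (.c k213 (.l (.s k234 k106 7 (.s k32 k47 2 (.s k48
  k16 3 (.s k15 k26 6 (.s k5 k10 2 (.d k21 k63 k53 6 3))))))) (.c k234 (.q k213 [(.d k21 k63 k149 6
  7), (.s k32 k47 2 (.s k48 k16 3 (.s k101 k239 10 (.s k69 k117 3 (.d k207 k138 k154 10 14)))))] .n)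
  .n)))) (.c k213 (.l (.s k63 k21 6 (.s k106 k234 7 (.s k192 k149 14 (.d k64 k127 k128 6 7))))) (.c
  k234 (.q k37 [(.s k32 k47 2 (.s k48 k16 3 (.s k15 k26 6 (.s k5 k10 2 (.d k21 k53 k63 3 6))))), (.s
  k32 k47 2 (.s k48 k16 3 (.s k101 k239 10 (.s k69 k117 3 (.d k207 k138 k154 10 14))))), (.s k21 k63
  6 (.s k5 k53 3 (.s k15 k10 2 (.s k165 k245 11 (.s k160 k175 2 (.d k240 k80 k90 11 14))))))] (.c
  k48 (.l (.s k21 k63 6 (.s k32 k47 2 (.s k53 k5 3 (.s k101 k239 10 (.d k149 k213 k197 7 11))))))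
  (.c k192 (.q k213 [(.d k21 k63 k149 6 7), (.s k32 k47 2 (.s k48 k16 3 (.s k101 k239 10 (.s k69
  k117 3 (.d k207 k138 k154 10 14)))))] .n) (.c k213 (.q k192 [(.s k63 k21 6 (.s k64 k128 7 (.d k106
  k127 k149 6 14))), (.s k32 k47 2 (.s k48 k16 3 (.s k101 k239 10 (.s k69 k117 3 (.d k207 k138 k154
  10 14)))))] .n) .n)))) .n))))))))))))))

def t7_54 : T TT 256 :=
  (.f k255 k170 14 (.q k89 [(.s k81 k93 1 (.s k243 k162 12 (.s k166 k12 14 (.d k247 k251 k4 1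
  12))))] (.c k4 (.q k5 [(.s k165 k245 11 (.s k15 k10 2 (.s k90 k240 14 (.d k95 k80 k175 2 11)))),
  (.s k93 k81 1 (.s k165 k245 11 (.s k13 k241 13 (.s k1 k9 1 (.d k253 k173 k169 11 13))))), (.s k15
  k10 2 (.s k81 k93 1 (.s k243 k162 12 (.s k91 k167 13 (.s k90 k88 0 (.d k95 k80 k175 2 11))))))]
  .n) (.c k12 (.q k1 [(.s k3 k2 0 (.s k87 k171 13 (.s k86 k84 0 (.d k169 k253 k252 13 14)))), (.s
  k81 k93 1 (.s k169 k253 13 (.s k9 k249 11 (.s k13 k5 1 (.d k241 k161 k165 11 13))))), (.s k3 k2 0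
  (.s k81 k93 1 (.s k161 k241 11 (.s k82 k240 12 (.s k83 k80 0 (.d k243 k163 k162 11 12))))))] .n)
  (.c k81 (.q k69 [(.s k101 k117 3 (.s k207 k138 10 (.s k154 k48 14 (.d k223 k239 k16 3 10)))), (.s
  k101 k117 3 (.s k77 k113 5 (.s k65 k73 1 (.s k195 k130 8 (.s k215 k235 5 (.s k150 k20 8 (.d k105
  k125 k60 5 14)))))))] (.c k101 (.f k207 k138 10 (.q k154 [(.d k223 k239 k16 3 10), (.s k219 k24 8
  (.s k243 k231 5 (.s k166 k12 14 (.d k247 k251 k4 1 12))))] (.c k32 (.l (.s k239 k223 3 (.s k219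
  k24 8 (.s k243 k231 5 (.s k166 k12 14 (.d k247 k251 k4 1 12)))))) (.c k239 (.q k32 [(.d k16 k48
  k223 3 10), (.s k219 k24 8 (.s k243 k231 5 (.s k247 k251 1 (.d k166 k4 k12 12 14))))] .n) .n))))
  (.c k117 (.l (.s k207 k138 10 (.s k223 k239 3 (.s k154 k16 10 (.s k219 k24 8 (.s k243 k231 5 (.s
  k166 k12 14 (.d k247 k251 k4 1 12)))))))) .n))) (.c k93 (.q k21 [(.s k149 k213 7 (.s k63 k42 6 (.s
  k106 k192 14 (.d k127 k64 k191 6 7)))), (.s k149 k213 7 (.s k29 k209 9 (.s k17 k25 1 (.s k51 k34 4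
  (.s k119 k187 9 (.s k102 k68 4 (.d k153 k221 k204 9 14)))))))] (.c k149 (.f k63 k42 6 (.q k106
  [(.d k127 k191 k64 7 6), (.s k123 k72 4 (.s k243 k183 9 (.s k166 k12 14 (.d k247 k251 k4 1 12))))]
  (.c k128 (.l (.s k191 k127 7 (.s k123 k72 4 (.s k243 k183 9 (.s k166 k12 14 (.d k247 k251 k4 1
  12)))))) (.c k191 (.q k128 [(.d k64 k127 k192 6 7), (.s k123 k72 4 (.s k243 k183 9 (.s k247 k251 1
  (.d k166 k4 k12 12 14))))] .n) .n)))) (.c k213 (.l (.s k63 k42 6 (.s k127 k191 7 (.s k106 k64 6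
  (.s k123 k72 4 (.s k243 k183 9 (.s k166 k12 14 (.d k247 k251 k4 1 12)))))))) .n))) (.c k162 (.l
  (.s k93 k81 1 (.s k12 k174 12 (.s k166 k243 14 (.d k4 k8 k247 1 12))))) (.c k166 (.f k81 k93 1 (.q
  k83 [(.s k80 k82 0 (.s k86 k92 2 (.s k87 k84 0 (.d k95 k91 k90 1 2)))), (.s k80 k82 0 (.s k240
  k160 11 (.s k245 k250 2 (.s k165 k5 11 (.s k241 k13 13 (.d k243 k162 k242 12 0)))))), (.s k86 k92
  2 (.s k84 k87 0 (.s k252 k168 13 (.s k169 k3 14 (.d k253 k254 k1 0 13)))))] (.c k162 (.q k174 [(.s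
  k86 k92 2 (.s k87 k84 0 (.s k95 k91 1 (.d k80 k82 k90 0 2)))), (.s k80 k82 0 (.s k240 k160 11 (.s
  k245 k250 2 (.s k165 k5 11 (.d k90 k95 k15 2 14))))), (.s k86 k92 2 (.s k84 k87 0 (.s k252 k168 13
  (.s k169 k3 14 (.d k253 k254 k1 0 13)))))] (.c k95 (.l (.s k82 k80 0 (.s k86 k92 2 (.s k94 k90 1
  (.s k84 k87 0 (.s k252 k168 13 (.d k254 k14 k253 11 0))))))) .n)) (.c k174 (.l (.s k162 k243 12
  (.s k80 k82 0 (.s k86 k92 2 (.s k87 k84 0 (.d k95 k91 k90 1 2)))))) .n)))) (.c k174 (.l (.s k81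
  k93 1 (.s k243 k162 12 (.s k166 k12 14 (.d k247 k251 k4 1 12))))) (.c k243 (.q k1 [(.s k3 k2 0 (.s
  k87 k171 13 (.s k86 k84 0 (.d k169 k253 k252 13 14)))), (.s k81 k93 1 (.s k169 k253 13 (.s k9 k249
  11 (.s k13 k5 1 (.d k241 k161 k165 11 13))))), (.s k3 k2 0 (.s k93 k81 1 (.s k12 k174 12 (.s k8 k4
  1 (.s k9 k6 2 (.s k5 k13 1 (.d k10 k11 k15 0 2)))))))] .n) (.c k247 (.q k87 [(.s k86 k84 0 (.s k3
  k171 13 (.s k169 k252 14 (.d k1 k2 k253 0 13)))), (.s k81 k93 1 (.s k86 k84 0 (.s k83 k92 2 (.s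
  k80 k82 0 (.d k95 k91 k90 1 2))))), (.s k3 k171 13 (.s k81 k93 1 (.s k243 k162 12 (.s k83 k163 11
  (.s k80 k82 0 (.d k95 k91 k90 1 2))))))] .n) (.c k251 (.l (.s k93 k81 1 (.s k12 k174 12 (.s k4 k8
  1 (.d k166 k247 k243 12 14))))) .n))))))))))))

def t7_55 : T TT 256 :=
  (.f k255 k170 14 (.q k101 [(.s k69 k117 3 (.s k207 k138 10 (.s k154 k48 14 (.d k223 k239 k16 3
  10))))] (.c k16 (.f k117 k69 3 (.f k186 k48 10 (.q k119 [(.s k51 k187 9 (.s k17 k34 4 (.s k153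
  k221 9 (.d k102 k68 k204 4 14)))), (.s k51 k187 9 (.s k118 k116 0 (.s k252 k185 10 (.d k254 k253
  k50 0 9)))), (.s k68 k102 4 (.s k116 k118 0 (.s k84 k100 3 (.d k86 k87 k71 0 4))))] (.c k23 (.q
  k39 [(.s k51 k187 9 (.s k17 k34 4 (.s k153 k221 9 (.d k102 k68 k204 4 14)))), (.s k51 k187 9 (.s
  k118 k116 0 (.s k252 k185 10 (.d k254 k253 k50 0 9)))), (.s k68 k102 4 (.s k116 k118 0 (.s k84
  k100 3 (.d k86 k87 k71 0 4))))] .n) (.c k39 (.q k23 [(.s k51 k187 9 (.s k17 k34 4 (.s k153 k221 9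
  (.d k102 k68 k204 4 14)))), (.s k51 k187 9 (.s k118 k116 0 (.s k252 k185 10 (.d k254 k253 k50 0
  9)))), (.s k68 k102 4 (.s k116 k118 0 (.s k84 k100 3 (.d k86 k87 k71 0 4))))] .n) .n))))) (.c k23
  (.q k39 [(.s k69 k117 3 (.s k207 k138 10 (.s k154 k48 14 (.d k223 k239 k16 3 10))))] (.c k16 (.q
  k1 [(.s k169 k253 13 (.s k3 k2 0 (.s k86 k252 14 (.d k87 k84 k171 0 13)))), (.s k69 k117 3 (.s
  k169 k253 13 (.s k33 k237 9 (.s k49 k17 3 (.d k205 k137 k153 9 13))))), (.s k3 k2 0 (.s k69 k117 3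
  (.s k137 k205 9 (.s k70 k204 10 (.s k71 k68 0 (.d k207 k139 k138 9 10))))))] .n) (.c k48 (.q k1
  [(.s k3 k2 0 (.s k87 k171 13 (.s k86 k84 0 (.d k169 k253 k252 13 14)))), (.s k69 k117 3 (.s k169
  k253 13 (.s k33 k237 9 (.s k49 k17 3 (.d k205 k137 k153 9 13))))), (.s k3 k2 0 (.s k69 k117 3 (.s
  k137 k205 9 (.s k70 k204 10 (.s k71 k68 0 (.d k207 k139 k138 9 10))))))] .n) (.c k69 (.q k5 [(.s
  k165 k245 11 (.s k15 k10 2 (.s k90 k240 14 (.d k95 k80 k175 2 11)))), (.s k165 k245 11 (.s k37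
  k229 7 (.s k36 k38 0 (.s k102 k228 8 (.s k103 k100 0 (.d k231 k167 k166 7 8)))))), (.s k15 k10 2
  (.s k51 k27 5 (.s k17 k34 4 (.s k119 k187 9 (.s k102 k68 4 (.d k153 k221 k204 9 14))))))] .n) (.c
  k117 (.q k5 [(.s k15 k10 2 (.s k95 k175 11 (.s k90 k80 2 (.d k165 k245 k240 11 14)))), (.s k165
  k245 11 (.s k37 k229 7 (.s k36 k38 0 (.s k102 k228 8 (.s k103 k100 0 (.d k231 k167 k166 7 8)))))),
  (.s k15 k10 2 (.s k51 k27 5 (.s k17 k34 4 (.s k119 k187 9 (.s k102 k68 4 (.d k153 k221 k204 9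
  14))))))] .n) (.c k138 (.l (.s k117 k69 3 (.s k48 k186 10 (.s k154 k207 14 (.d k16 k32 k223 3
  10))))) (.c k154 (.f k117 k69 3 (.q k89 [(.s k81 k93 1 (.s k243 k162 12 (.s k166 k12 14 (.d k247
  k251 k4 1 12)))), (.s k113 k77 5 (.s k125 k121 1 (.s k60 k190 8 (.s k20 k40 5 (.s k150 k215 8 (.d
  k105 k65 k195 5 14))))))] (.c k138 (.l (.s k186 k48 10 (.s k81 k93 1 (.s k113 k77 5 (.s k65 k97 3
  (.d k125 k121 k105 1 5)))))) (.c k186 (.q k138 [(.s k81 k93 1 (.s k243 k162 12 (.s k166 k12 14 (.d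
  k247 k251 k4 1 12)))), (.s k113 k77 5 (.s k125 k121 1 (.s k60 k190 8 (.s k20 k40 5 (.s k150 k215 8
  (.d k105 k65 k195 5 14))))))] (.c k251 (.l (.s k81 k93 1 (.s k113 k77 5 (.s k65 k97 3 (.d k125
  k121 k105 1 5))))) .n)) .n)))) (.c k186 (.l (.s k69 k117 3 (.s k207 k138 10 (.s k154 k48 14 (.d
  k223 k239 k16 3 10))))) (.c k207 (.q k1 [(.s k3 k2 0 (.s k87 k171 13 (.s k86 k84 0 (.d k169 k253
  k252 13 14)))), (.s k69 k117 3 (.s k169 k253 13 (.s k33 k237 9 (.s k49 k17 3 (.d k205 k137 k153 9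
  13))))), (.s k3 k2 0 (.s k117 k69 3 (.s k48 k186 10 (.s k32 k16 3 (.s k33 k18 4 (.s k17 k49 3 (.d
  k34 k35 k51 0 4)))))))] .n) (.c k223 (.q k1 [(.s k169 k253 13 (.s k3 k2 0 (.s k86 k252 14 (.d k87
  k84 k171 0 13)))), (.s k69 k117 3 (.s k169 k253 13 (.s k33 k237 9 (.s k49 k17 3 (.d k205 k137 k153
  9 13))))), (.s k3 k2 0 (.s k69 k117 3 (.s k137 k205 9 (.s k70 k204 10 (.s k71 k68 0 (.d k207 k139
  k138 9 10))))))] .n) (.c k239 (.l (.s k117 k69 3 (.s k48 k186 10 (.s k16 k32 3 (.d k154 k223 k207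
  10 14))))) .n))))))))))) (.c k39 (.q k23 [(.s k69 k117 3 (.s k207 k138 10 (.s k154 k48 14 (.d k223
  k239 k16 3 10))))] (.c k16 (.q k1 [(.s k169 k253 13 (.s k3 k2 0 (.s k86 k252 14 (.d k87 k84 k171 0
  13)))), (.s k69 k117 3 (.s k169 k253 13 (.s k33 k237 9 (.s k49 k17 3 (.d k205 k137 k153 9 13))))),
  (.s k3 k2 0 (.s k63 k43 5 (.s k21 k42 6 (.s k22 k20 0 (.d k41 k61 k60 5 6)))))] .n) (.c k48 (.q k1
  [(.s k3 k2 0 (.s k87 k171 13 (.s k86 k84 0 (.d k169 k253 k252 13 14)))), (.s k69 k117 3 (.s k169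
  k253 13 (.s k33 k237 9 (.s k49 k17 3 (.d k205 k137 k153 9 13))))), (.s k3 k2 0 (.s k63 k43 5 (.s
  k21 k42 6 (.s k22 k20 0 (.d k41 k61 k60 5 6)))))] .n) (.c k69 (.q k1 [(.s k169 k253 13 (.s k3 k2 0
  (.s k86 k252 14 (.d k87 k84 k171 0 13)))), (.s k169 k253 13 (.s k33 k237 9 (.s k17 k49 3 (.s k51
  k34 4 (.s k119 k187 9 (.s k102 k68 4 (.d k153 k221 k204 9 14))))))), (.s k3 k2 0 (.s k63 k43 5 (.s
  k21 k42 6 (.s k22 k20 0 (.d k41 k61 k60 5 6)))))] .n) (.c k117 (.q k3 [(.s k1 k2 0 (.s k87 k171 13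
  (.s k86 k84 0 (.d k169 k253 k252 13 14)))), (.s k1 k2 0 (.s k63 k43 5 (.s k21 k42 6 (.s k22 k20 0
  (.d k41 k61 k60 5 6))))), (.s k63 k43 5 (.s k21 k42 6 (.s k20 k22 0 (.s k87 k171 13 (.d k215 k151
  k150 7 8)))))] (.c k2 (.l (.s k63 k43 5 (.s k21 k42 6 (.s k87 k171 13 (.s k86 k84 0 (.d k149 k213
  k212 7 8)))))) .n)) (.c k138 (.l (.s k117 k69 3 (.s k48 k186 10 (.s k154 k207 14 (.d k16 k32 k223
  3 10))))) (.c k154 (.f k69 k117 3 (.q k71 [(.s k68 k70 0 (.s k86 k116 4 (.s k87 k84 0 (.d k119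
  k103 k102 3 4)))), (.s k68 k70 0 (.s k204 k136 9 (.s k221 k238 4 (.s k153 k17 9 (.s k205 k49 13
  (.d k207 k138 k206 10 0)))))), (.s k86 k116 4 (.s k84 k87 0 (.s k252 k168 13 (.s k169 k3 14 (.d
  k253 k254 k1 0 13)))))] (.c k138 (.q k186 [(.s k68 k70 0 (.s k86 k116 4 (.s k87 k84 0 (.d k119
  k103 k102 3 4)))), (.s k86 k116 4 (.s k84 k87 0 (.s k252 k168 13 (.s k169 k3 14 (.d k253 k254 k1 0
  13))))), (.s k68 k70 0 (.s k204 k136 9 (.s k221 k238 4 (.s k153 k17 9 (.d k102 k119 k51 4 14)))))]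
  (.c k119 (.l (.s k70 k68 0 (.s k86 k116 4 (.s k118 k102 3 (.s k84 k87 0 (.s k252 k168 13 (.d k254
  k50 k253 9 0))))))) .n)) (.c k186 (.l (.s k138 k207 10 (.s k68 k70 0 (.s k86 k116 4 (.s k87 k84 0
  (.d k119 k103 k102 3 4)))))) .n)))) (.c k186 (.l (.s k69 k117 3 (.s k207 k138 10 (.s k154 k48 14
  (.d k223 k239 k16 3 10))))) (.c k207 (.q k1 [(.s k3 k2 0 (.s k87 k171 13 (.s k86 k84 0 (.d k169
  k253 k252 13 14)))), (.s k69 k117 3 (.s k169 k253 13 (.s k33 k237 9 (.s k49 k17 3 (.d k205 k137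
  k153 9 13))))), (.s k3 k2 0 (.s k63 k43 5 (.s k21 k42 6 (.s k22 k20 0 (.d k41 k61 k60 5 6)))))]
  .n) (.c k223 (.q k1 [(.s k169 k253 13 (.s k3 k2 0 (.s k86 k252 14 (.d k87 k84 k171 0 13)))), (.s
  k69 k117 3 (.s k169 k253 13 (.s k33 k237 9 (.s k49 k17 3 (.d k205 k137 k153 9 13))))), (.s k3 k2 0
  (.s k63 k43 5 (.s k21 k42 6 (.s k22 k20 0 (.d k41 k61 k60 5 6)))))] .n) (.c k239 (.l (.s k117 k69
  3 (.s k48 k186 10 (.s k16 k32 3 (.d k154 k223 k207 10 14))))) .n))))))))))) (.c k48 (.f k117 k69 3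
  (.q k253 [(.s k49 k185 9 (.s k153 k205 13 (.s k17 k221 9 (.d k1 k33 k169 3 13)))), (.s k252 k254 0
  (.s k84 k168 13 (.s k86 k87 0 (.d k169 k1 k3 13 14))))] (.c k1 (.l (.s k185 k49 9 (.s k252 k254 0
  (.s k84 k168 13 (.s k86 k87 0 (.s k116 k71 4 (.d k118 k119 k51 0 10))))))) (.c k23 (.q k39 [(.s
  k49 k185 9 (.s k153 k205 13 (.s k17 k221 9 (.d k1 k33 k169 3 13)))), (.s k252 k254 0 (.s k84 k168
  13 (.s k86 k87 0 (.d k169 k1 k3 13 14))))] (.c k1 (.l (.s k185 k49 9 (.s k252 k254 0 (.s k84 k168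
  13 (.s k86 k87 0 (.s k116 k71 4 (.d k118 k119 k51 0 10))))))) (.c k169 (.l (.s k49 k185 9 (.s k153
  k205 13 (.s k17 k221 9 (.s k51 k34 4 (.s k102 k204 14 (.d k119 k68 k187 4 9))))))) .n))) (.c k39
  (.q k23 [(.s k49 k185 9 (.s k153 k205 13 (.s k17 k221 9 (.d k1 k33 k169 3 13)))), (.s k252 k254 0
  (.s k84 k168 13 (.s k86 k87 0 (.d k169 k1 k3 13 14))))] (.c k1 (.l (.s k185 k49 9 (.s k252 k254 0
  (.s k84 k168 13 (.s k86 k87 0 (.s k116 k71 4 (.d k118 k119 k51 0 10))))))) (.c k169 (.l (.s k49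
  k185 9 (.s k153 k205 13 (.s k17 k221 9 (.s k51 k34 4 (.s k102 k204 14 (.d k119 k68 k187 4 9)))))))
  .n))) (.c k169 (.l (.s k49 k185 9 (.s k153 k205 13 (.s k17 k221 9 (.s k51 k34 4 (.s k102 k204 14
  (.d k119 k68 k187 4 9))))))) .n)))))) (.c k69 (.q k215 [(.s k150 k20 8 (.s k195 k235 5 (.s k65
  k130 8 (.d k105 k125 k60 5 14)))), (.s k150 k20 8 (.s k199 k52 12 (.s k247 k231 3 (.s k243 k251 1
  (.s k81 k162 12 (.s k89 k93 1 (.d k166 k4 k12 12 14)))))))] (.c k20 (.l (.s k195 k235 5 (.s k65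
  k130 8 (.s k105 k125 5 (.s k97 k109 1 (.s k48 k146 12 (.s k16 k32 3 (.d k154 k223 k207 10
  14)))))))) (.c k23 (.q k39 [(.s k195 k235 5 (.s k65 k130 8 (.s k105 k125 5 (.d k150 k20 k60 8
  14)))), (.s k150 k20 8 (.s k199 k52 12 (.s k247 k231 3 (.s k243 k251 1 (.s k81 k162 12 (.s k89 k93
  1 (.d k166 k4 k12 12 14)))))))] (.c k20 (.l (.s k195 k235 5 (.s k65 k130 8 (.s k105 k125 5 (.s k97
  k109 1 (.s k48 k146 12 (.s k16 k32 3 (.d k154 k223 k207 10 14)))))))) (.c k150 (.f k195 k235 5 (.q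
  k105 [(.d k65 k130 k125 8 5), (.s k97 k109 1 (.s k48 k146 12 (.s k16 k32 3 (.d k154 k223 k207 10
  14))))] (.c k130 (.q k190 [(.d k125 k65 k60 5 8), (.s k97 k109 1 (.s k48 k146 12 (.s k16 k32 3 (.d
  k154 k223 k207 10 14))))] .n) (.c k190 (.l (.s k130 k65 8 (.s k97 k109 1 (.s k48 k146 12 (.s k16
  k32 3 (.d k154 k223 k207 10 14)))))) .n)))) .n))) (.c k39 (.q k23 [(.s k150 k20 8 (.s k195 k235 5
  (.s k65 k130 8 (.d k105 k125 k60 5 14)))), (.s k87 k151 7 (.s k3 k171 13 (.s k1 k2 0 (.s k86 k84 0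
  (.d k169 k253 k252 13 14)))))] .n) (.c k150 (.f k195 k235 5 (.q k105 [(.d k65 k130 k125 8 5), (.s
  k97 k109 1 (.s k48 k146 12 (.s k16 k32 3 (.d k154 k223 k207 10 14))))] (.c k23 (.q k39 [(.d k65
  k130 k125 8 5), (.s k97 k109 1 (.s k48 k146 12 (.s k16 k32 3 (.d k154 k223 k207 10 14))))] (.c
  k130 (.q k190 [(.d k125 k65 k60 5 8), (.s k97 k109 1 (.s k48 k146 12 (.s k16 k32 3 (.d k154 k223
  k207 10 14))))] .n) (.c k190 (.l (.s k130 k65 8 (.s k97 k109 1 (.s k48 k146 12 (.s k16 k32 3 (.d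
  k154 k223 k207 10 14)))))) .n))) (.c k39 (.q k23 [(.d k65 k130 k125 8 5), (.s k87 k151 7 (.s k3
  k171 13 (.s k86 k84 0 (.d k67 k131 k124 7 6))))] (.c k130 (.q k190 [(.d k125 k65 k60 5 8), (.s k87
  k151 7 (.s k3 k171 13 (.s k86 k84 0 (.d k67 k131 k124 7 6))))] .n) (.c k190 (.l (.s k130 k65 8 (.s
  k87 k151 7 (.s k3 k171 13 (.s k86 k84 0 (.d k67 k131 k124 7 6)))))) .n))) (.c k130 (.q k190 [(.d
  k125 k65 k60 5 8), (.s k97 k109 1 (.s k48 k146 12 (.s k16 k32 3 (.d k154 k223 k207 10 14))))] (.c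
  k23 (.q k39 [(.d k125 k65 k60 5 8), (.s k97 k109 1 (.s k48 k146 12 (.s k16 k32 3 (.d k154 k223
  k207 10 14))))] .n) (.c k39 (.q k23 [(.d k125 k65 k60 5 8), (.s k87 k151 7 (.s k3 k171 13 (.s k86
  k84 0 (.d k67 k131 k124 7 6))))] .n) .n))) (.c k190 (.l (.s k130 k65 8 (.s k97 k109 1 (.s k48 k146
  12 (.s k16 k32 3 (.d k154 k223 k207 10 14)))))) .n)))))) .n))))) (.c k117 (.q k253 [(.s k169 k1 13
  (.s k252 k254 0 (.s k84 k168 13 (.d k86 k87 k3 0 14)))), (.s k169 k1 13 (.s k237 k33 9 (.s k221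
  k205 3 (.s k204 k238 4 (.s k68 k136 9 (.s k102 k119 4 (.d k153 k17 k51 9 14)))))))] (.c k1 (.l (.s
  k252 k254 0 (.s k84 k168 13 (.s k86 k87 0 (.s k116 k71 4 (.s k48 k184 9 (.s k16 k32 3 (.d k154
  k223 k207 10 14)))))))) (.c k23 (.q k39 [(.s k169 k1 13 (.s k252 k254 0 (.s k84 k168 13 (.d k86
  k87 k3 0 14)))), (.s k169 k1 13 (.s k237 k33 9 (.s k221 k205 3 (.s k204 k238 4 (.s k68 k136 9 (.s
  k102 k119 4 (.d k153 k17 k51 9 14)))))))] (.c k1 (.l (.s k252 k254 0 (.s k84 k168 13 (.s k86 k87 0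
  (.s k116 k71 4 (.s k48 k184 9 (.s k16 k32 3 (.d k154 k223 k207 10 14)))))))) (.c k169 (.f k252
  k254 0 (.q k86 [(.d k84 k168 k87 13 0), (.s k116 k71 4 (.s k48 k184 9 (.s k16 k32 3 (.d k154 k223
  k207 10 14))))] (.c k168 (.q k171 [(.d k87 k84 k3 0 13), (.s k116 k71 4 (.s k48 k184 9 (.s k16 k32
  3 (.d k154 k223 k207 10 14))))] .n) (.c k171 (.l (.s k168 k84 13 (.s k116 k71 4 (.s k48 k184 9 (.s
  k16 k32 3 (.d k154 k223 k207 10 14)))))) .n)))) .n))) (.c k39 (.q k23 [(.s k169 k1 13 (.s k252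
  k254 0 (.s k84 k168 13 (.d k86 k87 k3 0 14)))), (.s k169 k1 13 (.s k237 k33 9 (.s k221 k205 3 (.s
  k204 k238 4 (.s k68 k136 9 (.s k102 k119 4 (.d k153 k17 k51 9 14)))))))] (.c k1 (.l (.s k252 k254
  0 (.s k84 k168 13 (.s k86 k87 0 (.s k116 k71 4 (.s k48 k184 9 (.s k16 k32 3 (.d k154 k223 k207 10
  14)))))))) (.c k169 (.q k3 [(.s k63 k43 5 (.s k127 k191 7 (.s k106 k64 6 (.s k149 k192 14 (.d k21
  k42 k213 6 7))))), (.s k252 k254 0 (.s k87 k171 13 (.s k168 k84 13 (.s k215 k151 7 (.s k20 k150 8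
  (.s k22 k21 0 (.d k60 k40 k41 5 6))))))), (.s k1 k2 0 (.s k63 k43 5 (.s k21 k42 6 (.s k22 k20 0
  (.d k41 k61 k60 5 6)))))] (.c k21 (.l (.s k63 k43 5 (.s k127 k191 7 (.s k106 k64 6 (.s k149 k192
  14 (.s k86 k212 8 (.d k87 k84 k171 0 13))))))) (.c k168 (.l (.s k171 k87 13 (.s k1 k2 0 (.s k63
  k43 5 (.s k21 k42 6 (.s k22 k20 0 (.d k41 k61 k60 5 6))))))) (.c k171 (.q k168 [(.d k252 k254 k84
  0 13), (.s k63 k43 5 (.s k21 k42 6 (.s k22 k20 0 (.s k41 k60 6 (.d k1 k2 k61 0 5)))))] .n) .n))))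
  .n))) (.c k169 (.f k252 k254 0 (.q k86 [(.d k84 k168 k87 13 0), (.s k116 k71 4 (.s k48 k184 9 (.s
  k16 k32 3 (.d k154 k223 k207 10 14))))] (.c k23 (.q k39 [(.d k84 k168 k87 13 0), (.s k116 k71 4
  (.s k48 k184 9 (.s k16 k32 3 (.d k154 k223 k207 10 14))))] (.c k168 (.q k171 [(.d k87 k84 k3 0
  13), (.s k116 k71 4 (.s k48 k184 9 (.s k16 k32 3 (.d k154 k223 k207 10 14))))] .n) (.c k171 (.l
  (.s k168 k84 13 (.s k116 k71 4 (.s k48 k184 9 (.s k16 k32 3 (.d k154 k223 k207 10 14)))))) .n)))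
  (.c k39 (.q k23 [(.d k84 k168 k87 13 0), (.s k116 k71 4 (.s k48 k184 9 (.s k16 k32 3 (.d k154 k223
  k207 10 14))))] (.c k168 (.q k171 [(.d k87 k84 k3 0 13), (.s k116 k71 4 (.s k48 k184 9 (.s k16 k32
  3 (.d k154 k223 k207 10 14))))] .n) (.c k171 (.l (.s k168 k84 13 (.s k116 k71 4 (.s k48 k184 9 (.s
  k16 k32 3 (.d k154 k223 k207 10 14)))))) .n))) (.c k168 (.q k171 [(.d k87 k84 k3 0 13), (.s k116
  k71 4 (.s k48 k184 9 (.s k16 k32 3 (.d k154 k223 k207 10 14))))] (.c k23 (.q k39 [(.d k87 k84 k3 0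
  13), (.s k116 k71 4 (.s k48 k184 9 (.s k16 k32 3 (.d k154 k223 k207 10 14))))] .n) (.c k39 (.q k23
  [(.d k87 k84 k3 0 13), (.s k116 k71 4 (.s k48 k184 9 (.s k16 k32 3 (.d k154 k223 k207 10 14))))]
  .n) .n))) (.c k171 (.l (.s k168 k84 13 (.s k116 k71 4 (.s k48 k184 9 (.s k16 k32 3 (.d k154 k223
  k207 10 14)))))) .n)))))) .n))))) (.c k138 (.l (.s k117 k69 3 (.s k48 k186 10 (.s k154 k207 14 (.d
  k16 k32 k223 3 10))))) (.c k154 (.f k69 k117 3 (.f k138 k207 10 (.q k71 [(.s k68 k70 0 (.s k86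
  k116 4 (.s k87 k84 0 (.d k119 k103 k102 3 4)))), (.s k86 k116 4 (.s k84 k87 0 (.s k252 k168 13 (.s
  k169 k3 14 (.d k253 k254 k1 0 13))))), (.s k68 k70 0 (.s k204 k136 9 (.s k221 k238 4 (.s k153 k17
  9 (.d k102 k119 k51 4 14)))))] (.c k23 (.q k39 [(.s k68 k70 0 (.s k86 k116 4 (.s k87 k84 0 (.d
  k119 k103 k102 3 4)))), (.s k86 k116 4 (.s k84 k87 0 (.s k252 k168 13 (.s k169 k3 14 (.d k253 k254
  k1 0 13))))), (.s k68 k70 0 (.s k204 k136 9 (.s k221 k238 4 (.s k153 k17 9 (.d k102 k119 k51 4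
  14)))))] (.c k119 (.l (.s k70 k68 0 (.s k2 k206 9 (.s k3 k1 0 (.s k87 k171 13 (.d k86 k84 k116 0
  4)))))) .n)) (.c k39 (.q k23 [(.s k68 k70 0 (.s k86 k116 4 (.s k87 k84 0 (.d k119 k103 k102 3
  4)))), (.s k86 k116 4 (.s k84 k87 0 (.s k252 k168 13 (.s k169 k3 14 (.d k253 k254 k1 0 13))))),
  (.s k68 k70 0 (.s k204 k136 9 (.s k221 k238 4 (.s k153 k17 9 (.d k102 k119 k51 4 14)))))] (.c k119
  (.l (.s k70 k68 0 (.s k2 k206 9 (.s k3 k1 0 (.s k87 k171 13 (.d k86 k84 k116 0 4)))))) .n)) (.c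
  k119 (.l (.s k70 k68 0 (.s k2 k206 9 (.s k3 k1 0 (.s k87 k171 13 (.d k86 k84 k116 0 4))))))
  .n)))))) (.c k186 (.l (.s k69 k117 3 (.s k207 k138 10 (.s k154 k48 14 (.d k223 k239 k16 3 10)))))
  (.c k207 (.f k69 k117 3 (.q k68 [(.s k204 k136 9 (.s k221 k238 4 (.s k153 k17 9 (.d k102 k119 k51
  4 14)))), (.s k71 k70 0 (.s k86 k116 4 (.s k87 k84 0 (.d k119 k103 k102 3 4))))] (.c k23 (.q k39
  [(.s k204 k136 9 (.s k221 k238 4 (.s k153 k17 9 (.d k102 k119 k51 4 14)))), (.s k71 k70 0 (.s k86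
  k116 4 (.s k87 k84 0 (.d k119 k103 k102 3 4))))] (.c k102 (.l (.s k71 k70 0 (.s k86 k116 4 (.s k84
  k87 0 (.s k252 k168 13 (.s k169 k3 14 (.d k253 k254 k1 0 13))))))) (.c k119 (.l (.s k70 k71 0 (.s
  k204 k136 9 (.s k221 k238 4 (.s k153 k17 9 (.s k205 k49 13 (.d k137 k1 k3 9 10))))))) .n))) (.c
  k39 (.q k23 [(.s k204 k136 9 (.s k221 k238 4 (.s k153 k17 9 (.d k102 k119 k51 4 14)))), (.s k71
  k70 0 (.s k86 k116 4 (.s k87 k84 0 (.d k119 k103 k102 3 4))))] (.c k102 (.l (.s k71 k70 0 (.s k86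
  k116 4 (.s k84 k87 0 (.s k252 k168 13 (.s k169 k3 14 (.d k253 k254 k1 0 13))))))) (.c k119 (.l (.s
  k70 k71 0 (.s k204 k136 9 (.s k221 k238 4 (.s k153 k17 9 (.s k205 k49 13 (.d k137 k1 k3 9
  10))))))) .n))) (.c k102 (.l (.s k71 k70 0 (.s k86 k116 4 (.s k84 k87 0 (.s k252 k168 13 (.s k169
  k3 14 (.d k253 k254 k1 0 13))))))) (.c k119 (.l (.s k70 k71 0 (.s k204 k136 9 (.s k221 k238 4 (.s
  k153 k17 9 (.s k205 k49 13 (.d k137 k1 k3 9 10))))))) .n)))))) (.c k223 (.f k117 k69 3 (.f k48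
  k186 10 (.f k154 k207 14 (.q k97 [(.s k105 k109 1 (.s k195 k146 12 (.d k65 k125 k130 5 8))), (.s
  k16 k32 3 (.s k146 k195 12 (.s k81 k211 8 (.s k89 k93 1 (.d k113 k65 k77 3 5))))), (.s k105 k109 1
  (.s k125 k65 5 (.s k60 k190 8 (.d k56 k52 k203 1 12))))] (.c k23 (.q k39 [(.s k105 k109 1 (.s k195
  k146 12 (.d k65 k125 k130 5 8))), (.s k16 k32 3 (.s k146 k195 12 (.s k81 k211 8 (.s k89 k93 1 (.d
  k113 k65 k77 3 5))))), (.s k105 k109 1 (.s k125 k65 5 (.s k60 k190 8 (.d k56 k52 k203 1 12))))]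
  (.c k65 (.l (.s k105 k109 1 (.s k56 k203 12 (.s k60 k52 1 (.d k195 k146 k150 12 14))))) (.c k158
  (.l (.s k195 k146 12 (.s k65 k130 8 (.d k105 k109 k125 1 5)))) .n))) (.c k39 (.q k23 [(.s k105
  k109 1 (.s k195 k146 12 (.d k65 k125 k130 5 8))), (.s k16 k32 3 (.s k146 k195 12 (.s k81 k211 8
  (.s k89 k93 1 (.d k113 k65 k77 3 5))))), (.s k105 k109 1 (.s k125 k65 5 (.s k60 k190 8 (.d k56 k52
  k203 1 12))))] (.c k65 (.l (.s k105 k109 1 (.s k56 k203 12 (.s k60 k52 1 (.d k195 k146 k150 12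
  14))))) (.c k158 (.l (.s k195 k146 12 (.s k65 k130 8 (.d k105 k109 k125 1 5)))) .n))) (.c k65 (.l
  (.s k105 k109 1 (.s k56 k203 12 (.s k60 k52 1 (.d k195 k146 k150 12 14))))) (.c k158 (.l (.s k195
  k146 12 (.s k65 k130 8 (.d k105 k109 k125 1 5)))) .n)))))))) (.c k239 (.l (.s k117 k69 3 (.s k48
  k186 10 (.s k16 k32 3 (.d k154 k223 k207 10 14))))) .n))))))))))))))

def t7_56 : T TT 256 :=
  (.f k255 k170 14 (.q k106 [(.s k64 k127 6 (.s k192 k128 7 (.s k149 k63 14 (.d k213 k234 k21 6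
  7))))] (.c k21 (.q k1 [(.s k169 k253 13 (.s k3 k2 0 (.s k86 k252 14 (.d k87 k84 k171 0 13)))), (.s
  k64 k127 6 (.s k192 k128 7 (.s k213 k234 6 (.s k253 k169 13 (.s k193 k233 5 (.s k65 k129 7 (.d
  k195 k130 k194 8 0))))))), (.s k3 k2 0 (.s k64 k127 6 (.s k192 k128 7 (.s k66 k129 8 (.s k86 k126
  5 (.d k87 k84 k171 0 13))))))] (.c k171 (.l (.s k3 k2 0 (.s k127 k64 6 (.s k63 k191 7 (.s k43 k23
  5 (.d k169 k232 k253 8 13)))))) .n)) (.c k63 (.q k1 [(.s k3 k2 0 (.s k87 k171 13 (.s k86 k84 0 (.d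
  k169 k253 k252 13 14)))), (.s k64 k127 6 (.s k192 k128 7 (.s k213 k234 6 (.s k253 k169 13 (.s k193
  k233 5 (.s k65 k129 7 (.d k195 k130 k194 8 0))))))), (.s k3 k2 0 (.s k64 k127 6 (.s k192 k128 7
  (.s k66 k129 8 (.s k86 k126 5 (.d k87 k84 k171 0 13))))))] (.c k171 (.l (.s k3 k2 0 (.s k64 k127 6
  (.s k169 k253 13 (.s k86 k252 14 (.s k192 k128 7 (.d k66 k126 k129 5 8))))))) .n)) (.c k64 (.q
  k195 [(.s k65 k130 8 (.s k105 k125 5 (.s k215 k235 5 (.d k150 k20 k60 8 14)))), (.s k65 k130 8 (.s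
  k105 k125 5 (.s k107 k104 0 (.s k63 k151 13 (.s k21 k42 6 (.d k149 k213 k192 7 14)))))), (.s k215
  k235 5 (.s k150 k20 8 (.s k194 k62 13 (.s k192 k193 0 (.s k149 k63 14 (.d k213 k234 k21 6 7))))))]
  (.c k105 (.f k235 k215 5 (.q k207 [(.s k69 k138 10 (.s k101 k117 3 (.s k223 k239 3 (.d k154 k16
  k48 10 14)))), (.s k203 k199 1 (.s k239 k223 3 (.s k231 k227 1 (.d k219 k251 k243 3 5)))), (.s k65
  k130 8 (.s k69 k138 10 (.s k73 k77 1 (.s k134 k12 10 (.d k199 k203 k4 1 8)))))] (.c k154 (.l (.s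
  k203 k199 1 (.s k219 k251 3 (.s k231 k243 5 (.d k239 k227 k223 1 3))))) (.c k203 (.q k154 [(.d
  k223 k239 k16 3 10), (.s k69 k138 10 (.d k101 k117 k48 3 14))] .n) .n)))) (.c k150 (.q k194 [(.s
  k192 k193 0 (.s k149 k63 14 (.d k213 k234 k21 6 7))), (.s k130 k65 8 (.s k66 k2 7 (.s k86 k126 5
  (.s k84 k87 0 (.s k252 k168 13 (.s k169 k3 14 (.d k253 k254 k1 0 13)))))))] (.c k130 (.q k190 [(.s
  k192 k193 0 (.s k149 k63 14 (.d k213 k234 k21 6 7))), (.s k60 k125 8 (.s k192 k193 0 (.s k104 k148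
  13 (.s k107 k105 0 (.d k63 k151 k149 13 14))))), (.s k192 k193 0 (.s k234 k213 6 (.s k214 k254 5
  (.s k233 k252 6 (.d k235 k232 k215 0 5)))))] (.c k192 (.q k1 [(.s k3 k2 0 (.s k87 k171 13 (.s k169
  k253 13 (.d k86 k84 k252 0 14)))), (.s k3 k2 0 (.s k60 k125 8 (.s k40 k20 5 (.s k41 k22 6 (.s k42
  k43 0 (.d k21 k61 k63 5 6)))))), (.s k125 k60 8 (.s k65 k105 5 (.s k193 k129 7 (.s k253 k169 13
  (.s k233 k213 5 (.d k252 k254 k214 0 6))))))] (.c k3 (.l (.s k125 k60 8 (.s k65 k105 5 (.s k253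
  k169 13 (.s k252 k254 0 (.s k233 k214 6 (.d k193 k213 k129 5 7))))))) (.c k254 (.l (.s k169 k253
  13 (.s k3 k2 0 (.s k86 k252 14 (.d k87 k84 k171 0 13))))) .n))) (.c k193 (.l (.s k125 k60 8 (.s
  k105 k65 5 (.s k107 k104 0 (.s k63 k151 13 (.s k21 k42 6 (.d k149 k192 k213 14 7))))))) .n))) (.c
  k190 (.l (.s k130 k65 8 (.s k192 k193 0 (.s k149 k63 14 (.d k213 k234 k21 6 7))))) .n))) .n))) (.c
  k127 (.q k195 [(.s k65 k130 8 (.s k215 k235 5 (.s k150 k20 8 (.d k105 k125 k60 5 14)))), (.s k65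
  k130 8 (.s k105 k125 5 (.s k107 k104 0 (.s k63 k151 13 (.s k21 k42 6 (.d k149 k213 k192 7
  14)))))), (.s k215 k235 5 (.s k150 k20 8 (.s k194 k62 13 (.s k192 k193 0 (.s k149 k63 14 (.d k213
  k234 k21 6 7))))))] (.c k105 (.f k235 k215 5 (.q k207 [(.s k69 k138 10 (.s k223 k239 3 (.s k154
  k16 10 (.d k101 k117 k48 3 14)))), (.s k203 k199 1 (.s k239 k223 3 (.s k231 k227 1 (.d k219 k251
  k243 3 5)))), (.s k65 k130 8 (.s k69 k138 10 (.s k73 k77 1 (.s k134 k12 10 (.d k199 k203 k4 1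
  8)))))] (.c k154 (.l (.s k203 k199 1 (.s k219 k251 3 (.s k231 k243 5 (.d k239 k227 k223 1 3)))))
  (.c k203 (.q k154 [(.d k223 k239 k16 3 10), (.s k69 k138 10 (.d k101 k117 k48 3 14))] .n) .n))))
  (.c k150 (.q k149 [(.s k21 k213 7 (.d k63 k42 k192 6 14)), (.s k63 k192 14 (.s k107 k151 13 (.s
  k105 k104 0 (.d k65 k130 k125 8 5))))] (.c k63 (.l (.s k213 k21 7 (.s k192 k234 6 (.s k193 k194 0
  (.s k105 k61 13 (.d k65 k125 k130 5 8)))))) (.c k130 (.q k190 [(.s k21 k213 7 (.d k63 k42 k192 6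
  14)), (.s k63 k192 14 (.s k107 k151 13 (.s k105 k104 0 (.d k125 k60 k65 8 5))))] (.c k63 (.l (.s
  k125 k60 8 (.s k105 k65 5 (.s k213 k21 7 (.s k192 k234 6 (.d k193 k61 k194 13 0)))))) (.c k192 (.l
  (.s k21 k213 7 (.s k63 k42 6 (.s k107 k151 13 (.s k105 k104 0 (.d k125 k60 k65 8 5)))))) .n))) (.c
  k190 (.l (.s k130 k65 8 (.s k21 k213 7 (.d k63 k42 k192 6 14)))) (.c k192 (.l (.s k21 k213 7 (.s
  k63 k42 6 (.s k107 k151 13 (.s k105 k104 0 (.d k65 k125 k130 5 8)))))) .n))))) .n))) (.c k128 (.l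
  (.s k127 k64 6 (.s k63 k191 7 (.s k149 k192 14 (.d k21 k42 k213 6 7))))) (.c k149 (.f k127 k64 6
  (.f k191 k63 7 (.q k86 [(.s k84 k87 0 (.s k252 k168 13 (.s k253 k254 0 (.d k169 k1 k3 13 14)))),
  (.s k126 k66 5 (.s k125 k124 0 (.s k60 k190 8 (.s k20 k40 5 (.s k150 k215 8 (.d k105 k65 k195 5
  14))))))] (.c k84 (.l (.s k126 k66 5 (.s k124 k125 0 (.s k67 k105 6 (.s k87 k107 5 (.s k3 k171 13
  (.s k1 k2 0 (.d k169 k253 k252 13 14)))))))) .n)))) (.c k191 (.l (.s k64 k127 6 (.s k192 k128 7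
  (.s k149 k63 14 (.d k213 k234 k21 6 7))))) (.c k192 (.q k1 [(.s k3 k2 0 (.s k87 k171 13 (.s k86
  k84 0 (.d k169 k253 k252 13 14)))), (.s k127 k64 6 (.s k63 k191 7 (.s k21 k42 6 (.s k61 k41 5 (.s
  k253 k169 13 (.s k125 k189 7 (.d k60 k190 k62 8 0))))))), (.s k3 k2 0 (.s k127 k64 6 (.s k63 k191
  7 (.s k21 k42 6 (.s k23 k43 5 (.s k22 k20 0 (.d k41 k61 k60 5 6)))))))] .n) (.c k213 (.q k1 [(.s
  k3 k2 0 (.s k87 k171 13 (.s k86 k84 0 (.d k169 k253 k252 13 14)))), (.s k64 k127 6 (.s k169 k253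
  13 (.s k192 k128 7 (.s k149 k63 14 (.s k129 k189 5 (.s k66 k3 8 (.d k65 k193 k67 7 0))))))), (.s
  k3 k2 0 (.s k64 k127 6 (.s k192 k128 7 (.s k66 k129 8 (.s k86 k126 5 (.d k87 k84 k171 0 13))))))]
  (.c k3 (.l (.s k127 k64 6 (.s k63 k191 7 (.s k21 k42 6 (.s k61 k41 5 (.s k60 k62 0 (.s k125 k190 8
  (.d k253 k189 k169 7 13)))))))) .n)) (.c k234 (.l (.s k127 k64 6 (.s k63 k191 7 (.s k21 k42 6 (.d
  k149 k213 k192 7 14))))) .n))))))))))))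

def t7_57 : T TT 256 :=
  (.f k255 k170 14 (.q k89 [(.s k81 k93 1 (.s k243 k162 12 (.s k166 k12 14 (.d k247 k251 k4 1
  12))))] (.c k4 (.q k5 [(.s k165 k245 11 (.s k15 k10 2 (.s k90 k240 14 (.d k95 k80 k175 2 11)))),
  (.s k93 k81 1 (.s k165 k245 11 (.s k13 k241 13 (.s k1 k9 1 (.d k253 k173 k169 11 13))))), (.s k15
  k10 2 (.s k81 k93 1 (.s k243 k162 12 (.s k91 k167 13 (.s k90 k88 0 (.d k95 k80 k175 2 11))))))]
  .n) (.c k12 (.q k1 [(.s k3 k2 0 (.s k87 k171 13 (.s k86 k84 0 (.d k169 k253 k252 13 14)))), (.s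
  k81 k93 1 (.s k169 k253 13 (.s k9 k249 11 (.s k13 k5 1 (.d k241 k161 k165 11 13))))), (.s k3 k2 0
  (.s k81 k93 1 (.s k161 k241 11 (.s k82 k240 12 (.s k83 k80 0 (.d k243 k163 k162 11 12))))))] .n)
  (.c k81 (.q k69 [(.s k101 k117 3 (.s k207 k138 10 (.s k154 k48 14 (.d k223 k239 k16 3 10)))), (.s
  k101 k117 3 (.s k77 k113 5 (.s k65 k73 1 (.s k195 k130 8 (.s k215 k235 5 (.s k150 k20 8 (.d k105
  k125 k60 5 14)))))))] (.c k101 (.f k207 k138 10 (.q k154 [(.d k223 k239 k16 3 10), (.s k219 k24 8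
  (.s k243 k231 5 (.s k166 k12 14 (.d k247 k251 k4 1 12))))] (.c k32 (.l (.s k239 k223 3 (.s k219
  k24 8 (.s k243 k231 5 (.s k166 k12 14 (.d k247 k251 k4 1 12)))))) (.c k239 (.q k32 [(.d k16 k48
  k223 3 10), (.s k219 k24 8 (.s k243 k231 5 (.s k247 k251 1 (.d k166 k4 k12 12 14))))] .n) .n))))
  (.c k117 (.l (.s k207 k138 10 (.s k223 k239 3 (.s k154 k16 10 (.s k219 k24 8 (.s k243 k231 5 (.s
  k166 k12 14 (.d k247 k251 k4 1 12)))))))) .n))) (.c k93 (.q k21 [(.s k149 k213 7 (.s k63 k42 6 (.s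
  k106 k192 14 (.d k127 k64 k191 6 7)))), (.s k149 k213 7 (.s k29 k209 9 (.s k17 k25 1 (.s k51 k34 4
  (.s k119 k187 9 (.s k102 k68 4 (.d k153 k221 k204 9 14)))))))] (.c k149 (.f k63 k42 6 (.q k106
  [(.d k127 k191 k64 7 6), (.s k123 k72 4 (.s k243 k183 9 (.s k166 k12 14 (.d k247 k251 k4 1 12))))]
  (.c k128 (.l (.s k191 k127 7 (.s k123 k72 4 (.s k243 k183 9 (.s k166 k12 14 (.d k247 k251 k4 1
  12)))))) (.c k191 (.q k128 [(.d k64 k127 k192 6 7), (.s k123 k72 4 (.s k243 k183 9 (.s k247 k251 1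
  (.d k166 k4 k12 12 14))))] .n) .n)))) (.c k213 (.l (.s k63 k42 6 (.s k127 k191 7 (.s k106 k64 6
  (.s k123 k72 4 (.s k243 k183 9 (.s k166 k12 14 (.d k247 k251 k4 1 12)))))))) .n))) (.c k162 (.l
  (.s k93 k81 1 (.s k12 k174 12 (.s k166 k243 14 (.d k4 k8 k247 1 12))))) (.c k166 (.f k81 k93 1 (.q
  k83 [(.s k80 k82 0 (.s k86 k92 2 (.s k87 k84 0 (.d k95 k91 k90 1 2)))), (.s k80 k82 0 (.s k240
  k160 11 (.s k245 k250 2 (.s k165 k5 11 (.s k241 k13 13 (.d k243 k162 k242 12 0)))))), (.s k86 k92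
  2 (.s k84 k87 0 (.s k252 k168 13 (.s k169 k3 14 (.d k253 k254 k1 0 13)))))] (.c k162 (.q k174 [(.s
  k86 k92 2 (.s k87 k84 0 (.s k95 k91 1 (.d k80 k82 k90 0 2)))), (.s k80 k82 0 (.s k240 k160 11 (.s
  k245 k250 2 (.s k165 k5 11 (.d k90 k95 k15 2 14))))), (.s k86 k92 2 (.s k84 k87 0 (.s k252 k168 13
  (.s k169 k3 14 (.d k253 k254 k1 0 13)))))] (.c k95 (.l (.s k82 k80 0 (.s k86 k92 2 (.s k94 k90 1
  (.s k84 k87 0 (.s k252 k168 13 (.d k254 k14 k253 11 0))))))) .n)) (.c k174 (.l (.s k162 k243 12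
  (.s k80 k82 0 (.s k86 k92 2 (.s k87 k84 0 (.d k95 k91 k90 1 2)))))) .n)))) (.c k174 (.l (.s k81
  k93 1 (.s k243 k162 12 (.s k166 k12 14 (.d k247 k251 k4 1 12))))) (.c k243 (.q k1 [(.s k3 k2 0 (.s
  k87 k171 13 (.s k86 k84 0 (.d k169 k253 k252 13 14)))), (.s k81 k93 1 (.s k169 k253 13 (.s k9 k249
  11 (.s k13 k5 1 (.d k241 k161 k165 11 13))))), (.s k3 k2 0 (.s k93 k81 1 (.s k12 k174 12 (.s k8 k4
  1 (.s k9 k6 2 (.s k5 k13 1 (.d k10 k11 k15 0 2)))))))] .n) (.c k247 (.q k87 [(.s k86 k84 0 (.s k3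
  k171 13 (.s k169 k252 14 (.d k1 k2 k253 0 13)))), (.s k81 k93 1 (.s k86 k84 0 (.s k83 k92 2 (.s
  k80 k82 0 (.d k95 k91 k90 1 2))))), (.s k3 k171 13 (.s k81 k93 1 (.s k243 k162 12 (.s k83 k163 11
  (.s k80 k82 0 (.d k95 k91 k90 1 2))))))] .n) (.c k251 (.l (.s k93 k81 1 (.s k12 k174 12 (.s k4 k8
  1 (.d k166 k247 k243 12 14))))) .n))))))))))))

def t7_58 : T TT 256 :=
  (.f k255 k170 14 (.q k106 [(.s k64 k127 6 (.s k192 k128 7 (.s k213 k234 6 (.d k149 k21 k63 7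
  14))))] (.c k21 (.q k1 [(.s k169 k253 13 (.s k3 k2 0 (.s k86 k252 14 (.d k87 k84 k171 0 13)))),
  (.s k64 k127 6 (.s k192 k128 7 (.s k213 k234 6 (.s k253 k169 13 (.s k193 k233 5 (.s k65 k129 7 (.d
  k195 k130 k194 8 0))))))), (.s k3 k2 0 (.s k64 k127 6 (.s k192 k128 7 (.s k66 k129 8 (.s k86 k126
  5 (.d k87 k84 k171 0 13))))))] (.c k171 (.l (.s k3 k2 0 (.s k127 k64 6 (.s k63 k191 7 (.s k43 k23
  5 (.d k169 k232 k253 8 13)))))) .n)) (.c k63 (.q k48 [(.s k16 k32 3 (.s k154 k223 10 (.s k101 k207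
  14 (.d k117 k69 k186 3 10)))), (.s k32 k16 3 (.s k64 k127 6 (.s k192 k128 7 (.s k96 k144 11 (.s
  k80 k112 3 (.d k160 k224 k240 7 11)))))), (.s k64 k127 6 (.s k117 k186 10 (.s k101 k69 3 (.s k96
  k111 2 (.d k192 k128 k144 7 11)))))] (.c k117 (.l (.s k16 k32 3 (.s k64 k127 6 (.s k154 k223 10
  (.s k101 k207 14 (.s k192 k128 7 (.d k96 k111 k144 2 11))))))) .n)) (.c k64 (.q k195 [(.s k65 k130
  8 (.s k105 k125 5 (.s k150 k60 14 (.d k215 k235 k20 5 8)))), (.s k65 k130 8 (.s k105 k125 5 (.s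
  k107 k104 0 (.s k63 k151 13 (.s k21 k42 6 (.d k149 k213 k192 7 14)))))), (.s k215 k235 5 (.s k150
  k20 8 (.s k194 k62 13 (.s k192 k193 0 (.s k149 k63 14 (.d k213 k234 k21 6 7))))))] (.c k105 (.q
  k69 [(.s k101 k117 3 (.s k207 k138 10 (.s k223 k239 3 (.d k154 k16 k48 10 14)))), (.s k65 k130 8
  (.s k73 k77 1 (.s k12 k134 10 (.s k4 k8 1 (.s k93 k174 12 (.s k89 k81 1 (.d k166 k247 k243 12
  14)))))))] (.c k40 (.l (.s k235 k215 5 (.s k101 k117 3 (.s k207 k138 10 (.s k154 k48 14 (.d k223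
  k239 k16 3 10)))))) (.c k138 (.l (.s k65 k130 8 (.s k73 k77 1 (.s k101 k117 3 (.s k134 k12 10 (.s
  k199 k4 8 (.s k150 k52 12 (.d k215 k20 k235 8 5)))))))) (.c k235 (.q k40 [(.s k101 k117 3 (.s k207
  k138 10 (.s k154 k48 14 (.d k223 k239 k16 3 10)))), (.s k20 k60 5 (.s k150 k215 8 (.s k194 k62 13
  (.s k192 k193 0 (.s k213 k234 6 (.d k149 k63 k21 14 7))))))] (.c k63 (.l (.s k101 k117 3 (.s k207
  k138 10 (.s k223 k239 3 (.d k154 k16 k48 10 14))))) .n)) .n)))) (.c k150 (.q k93 [(.s k89 k81 1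
  (.s k12 k174 12 (.s k166 k243 14 (.d k4 k8 k247 1 12)))), (.s k12 k174 12 (.s k8 k4 1 (.s k73 k134
  10 (.s k138 k203 8 (.s k69 k207 10 (.d k65 k130 k77 8 1)))))), (.s k12 k174 12 (.s k73 k134 10 (.s
  k89 k81 1 (.s k105 k121 3 (.d k65 k130 k125 8 5)))))] (.c k12 (.l (.s k81 k89 1 (.s k215 k235 5
  (.s k243 k162 12 (.s k211 k227 3 (.s k16 k146 8 (.d k223 k154 k219 10 1))))))) (.c k130 (.q k190
  [(.s k89 k81 1 (.s k12 k174 12 (.s k166 k243 14 (.d k4 k8 k247 1 12)))), (.s k60 k125 8 (.s k174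
  k12 12 (.s k158 k142 3 (.s k207 k109 12 (.d k223 k239 k28 3 8))))), (.s k89 k81 1 (.s k125 k60 8
  (.s k65 k105 5 (.s k77 k109 3 (.s k69 k73 1 (.d k101 k117 k113 3 5))))))] .n) (.c k162 (.l (.s k89
  k81 1 (.s k12 k174 12 (.s k166 k243 14 (.d k4 k8 k247 1 12))))) (.c k166 (.l (.s k81 k89 1 (.s k12
  k174 12 (.s k162 k243 12 (.s k130 k65 8 (.s k146 k178 3 (.s k48 k97 12 (.d k16 k211 k32 8
  3)))))))) (.c k174 (.l (.s k81 k89 1 (.s k130 k65 8 (.s k162 k243 12 (.s k146 k178 3 (.s k48 k97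
  12 (.d k16 k211 k32 8 3))))))) (.c k190 (.l (.s k130 k65 8 (.s k12 k174 12 (.s k4 k8 1 (.s k89 k81
  1 (.d k166 k247 k243 12 14)))))) .n))))))) .n))) (.c k127 (.q k204 [(.s k68 k136 9 (.s k221 k238 4
  (.s k153 k17 9 (.d k102 k119 k51 4 14)))), (.s k68 k136 9 (.s k102 k119 4 (.s k110 k98 1 (.s k63
  k157 12 (.s k21 k42 6 (.d k149 k213 k192 7 14)))))), (.s k221 k238 4 (.s k153 k17 9 (.s k200 k59
  12 (.s k192 k196 1 (.s k149 k63 14 (.d k213 k234 k21 6 7))))))] (.c k102 (.q k200 [(.s k153 k59 12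
  (.d k221 k238 k17 4 9)), (.s k192 k196 1 (.s k149 k63 14 (.d k213 k234 k21 6 7)))] (.c k34 (.l (.s
  k238 k221 4 (.s k192 k196 1 (.s k149 k63 14 (.d k213 k234 k21 6 7))))) (.c k238 (.q k34 [(.s k17
  k51 4 (.d k153 k221 k59 9 12)), (.s k192 k196 1 (.s k149 k63 14 (.d k213 k234 k21 6 7)))] .n)
  .n))) (.c k153 (.q k102 [(.d k68 k136 k119 9 4), (.s k110 k98 1 (.s k63 k157 12 (.s k21 k42 6 (.d
  k149 k213 k192 7 14))))] (.c k136 (.q k187 [(.d k119 k68 k51 4 9), (.s k110 k98 1 (.s k63 k157 12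
  (.s k21 k42 6 (.d k149 k213 k192 7 14))))] .n) (.c k187 (.l (.s k136 k68 9 (.s k110 k98 1 (.s k63
  k157 12 (.s k21 k42 6 (.d k149 k213 k192 7 14)))))) .n))) .n))) (.c k128 (.l (.s k127 k64 6 (.s
  k63 k191 7 (.s k149 k192 14 (.d k21 k42 k213 6 7))))) (.c k149 (.f k64 k127 6 (.q k74 [(.s k79 k69
  2 (.s k90 k122 3 (.s k80 k95 2 (.d k112 k96 k101 3 6)))), (.s k69 k79 2 (.s k138 k207 10 (.s k10
  k202 7 (.s k15 k5 2 (.d k192 k128 k133 7 10))))), (.s k90 k122 3 (.s k95 k80 2 (.s k15 k175 11 (.d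
  k192 k128 k133 7 10))))] (.c k95 (.l (.s k79 k69 2 (.s k90 k122 3 (.s k112 k101 6 (.s k80 k96 3
  (.s k240 k160 11 (.s k165 k15 14 (.d k245 k250 k5 2 11)))))))) (.c k128 (.q k191 [(.s k79 k69 2
  (.s k90 k122 3 (.s k80 k95 2 (.d k112 k96 k101 3 6)))), (.s k69 k79 2 (.s k207 k138 10 (.s k223
  k239 3 (.s k154 k16 10 (.d k101 k117 k48 3 14))))), (.s k90 k122 3 (.s k95 k80 2 (.s k15 k175 11
  (.s k5 k10 2 (.d k165 k245 k240 11 14)))))] (.c k95 (.l (.s k79 k69 2 (.s k90 k122 3 (.s k112 k101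
  6 (.s k80 k96 3 (.s k240 k160 11 (.s k165 k15 14 (.d k245 k250 k5 2 11)))))))) (.c k117 (.l (.s
  k79 k69 2 (.s k90 k122 3 (.s k112 k101 6 (.d k80 k95 k96 2 3))))) (.c k186 (.l (.s k69 k79 2 (.s
  k101 k117 3 (.s k207 k138 10 (.s k154 k48 14 (.d k223 k239 k16 3 10)))))) .n)))) (.c k191 (.l (.s
  k128 k192 7 (.s k79 k69 2 (.s k90 k122 3 (.s k80 k95 2 (.d k112 k96 k101 3 6)))))) .n))))) (.c
  k191 (.l (.s k64 k127 6 (.s k192 k128 7 (.s k149 k63 14 (.d k213 k234 k21 6 7))))) (.c k192 (.q k1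
  [(.s k3 k2 0 (.s k87 k171 13 (.s k86 k84 0 (.d k169 k253 k252 13 14)))), (.s k127 k64 6 (.s k63
  k191 7 (.s k21 k42 6 (.s k61 k41 5 (.s k253 k169 13 (.s k125 k189 7 (.d k60 k190 k62 8 0))))))),
  (.s k3 k2 0 (.s k127 k64 6 (.s k63 k191 7 (.s k21 k42 6 (.s k23 k43 5 (.s k22 k20 0 (.d k41 k61
  k60 5 6)))))))] .n) (.c k213 (.q k1 [(.s k3 k2 0 (.s k87 k171 13 (.s k86 k84 0 (.d k169 k253 k252
  13 14)))), (.s k64 k127 6 (.s k169 k253 13 (.s k192 k128 7 (.s k149 k63 14 (.s k129 k189 5 (.s k66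
  k3 8 (.d k65 k193 k67 7 0))))))), (.s k3 k2 0 (.s k64 k127 6 (.s k192 k128 7 (.s k66 k129 8 (.s
  k86 k126 5 (.d k87 k84 k171 0 13))))))] (.c k3 (.l (.s k127 k64 6 (.s k63 k191 7 (.s k21 k42 6 (.s
  k61 k41 5 (.s k60 k62 0 (.s k125 k190 8 (.d k253 k189 k169 7 13)))))))) .n)) (.c k234 (.l (.s k127
  k64 6 (.s k63 k191 7 (.s k21 k42 6 (.d k149 k213 k192 7 14))))) .n))))))))))))

def t7_59 : T TT 256 :=
  (.f k255 k170 14 (.q k106 [(.s k64 k127 6 (.s k192 k128 7 (.s k213 k234 6 (.d k149 k21 k63 7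
  14))))] (.c k21 (.q k1 [(.s k169 k253 13 (.s k3 k2 0 (.s k86 k252 14 (.d k87 k84 k171 0 13)))),
  (.s k64 k127 6 (.s k192 k128 7 (.s k213 k234 6 (.s k253 k169 13 (.s k193 k233 5 (.s k65 k129 7 (.d
  k195 k130 k194 8 0))))))), (.s k3 k2 0 (.s k64 k127 6 (.s k192 k128 7 (.s k66 k129 8 (.s k86 k126
  5 (.d k87 k84 k171 0 13))))))] (.c k171 (.l (.s k3 k2 0 (.s k127 k64 6 (.s k63 k191 7 (.s k43 k23
  5 (.d k169 k232 k253 8 13)))))) .n)) (.c k63 (.q k51 [(.s k17 k34 4 (.s k153 k221 9 (.s k102 k204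
  14 (.d k119 k68 k187 4 9)))), (.s k34 k17 4 (.s k64 k127 6 (.s k192 k128 7 (.s k98 k145 12 (.s k81
  k115 4 (.d k162 k226 k243 7 12)))))), (.s k64 k127 6 (.s k119 k187 9 (.s k102 k68 4 (.s k98 k110 1
  (.d k192 k128 k145 7 12)))))] (.c k119 (.l (.s k17 k34 4 (.s k64 k127 6 (.s k153 k221 9 (.s k102
  k204 14 (.s k192 k128 7 (.d k98 k110 k145 1 12))))))) .n)) (.c k64 (.q k195 [(.s k65 k130 8 (.s
  k105 k125 5 (.s k150 k60 14 (.d k215 k235 k20 5 8)))), (.s k65 k130 8 (.s k105 k125 5 (.s k107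
  k104 0 (.s k63 k151 13 (.s k21 k42 6 (.d k149 k213 k192 7 14)))))), (.s k215 k235 5 (.s k150 k20 8
  (.s k194 k62 13 (.s k192 k193 0 (.s k149 k63 14 (.d k213 k234 k21 6 7))))))] (.c k105 (.q k69 [(.s
  k101 k117 3 (.s k207 k138 10 (.s k154 k48 14 (.d k223 k239 k16 3 10)))), (.s k65 k130 8 (.s k73
  k77 1 (.s k12 k134 10 (.s k4 k8 1 (.s k93 k174 12 (.s k89 k81 1 (.d k166 k247 k243 12 14)))))))]
  (.c k40 (.l (.s k235 k215 5 (.s k101 k117 3 (.s k207 k138 10 (.s k154 k48 14 (.d k223 k239 k16 3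
  10)))))) (.c k138 (.l (.s k65 k130 8 (.s k73 k77 1 (.s k101 k117 3 (.s k134 k12 10 (.s k199 k4 8
  (.s k150 k52 12 (.d k215 k20 k235 8 5)))))))) (.c k235 (.q k40 [(.s k101 k117 3 (.s k207 k138 10
  (.s k154 k48 14 (.d k223 k239 k16 3 10)))), (.s k20 k60 5 (.s k150 k215 8 (.s k194 k62 13 (.s k192
  k193 0 (.s k213 k234 6 (.d k149 k63 k21 14 7))))))] .n) .n)))) (.c k150 (.q k93 [(.s k12 k174 12
  (.s k89 k81 1 (.s k166 k243 14 (.d k4 k8 k247 1 12)))), (.s k12 k174 12 (.s k8 k4 1 (.s k73 k134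
  10 (.s k138 k203 8 (.s k69 k207 10 (.d k65 k130 k77 8 1)))))), (.s k12 k174 12 (.s k73 k134 10 (.s
  k89 k81 1 (.s k105 k121 3 (.d k65 k130 k125 8 5)))))] (.c k12 (.l (.s k81 k89 1 (.s k215 k235 5
  (.s k243 k162 12 (.s k211 k227 3 (.s k16 k146 8 (.d k223 k154 k219 10 1))))))) (.c k130 (.q k190
  [(.s k12 k174 12 (.s k89 k81 1 (.s k166 k243 14 (.d k4 k8 k247 1 12)))), (.s k60 k125 8 (.s k174
  k12 12 (.s k158 k142 3 (.s k207 k109 12 (.d k223 k239 k28 3 8))))), (.s k89 k81 1 (.s k125 k60 8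
  (.s k65 k105 5 (.s k77 k109 3 (.s k69 k73 1 (.d k101 k117 k113 3 5))))))] .n) (.c k162 (.l (.s k89
  k81 1 (.s k12 k174 12 (.s k166 k243 14 (.d k4 k8 k247 1 12))))) (.c k166 (.l (.s k81 k89 1 (.s k12
  k174 12 (.s k162 k243 12 (.s k130 k65 8 (.s k146 k178 3 (.s k48 k97 12 (.d k16 k211 k32 8
  3)))))))) (.c k174 (.l (.s k81 k89 1 (.s k130 k65 8 (.s k162 k243 12 (.s k146 k178 3 (.s k48 k97
  12 (.d k16 k211 k32 8 3))))))) (.c k190 (.l (.s k130 k65 8 (.s k12 k174 12 (.s k4 k8 1 (.s k89 k81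
  1 (.d k166 k247 k243 12 14)))))) .n))))))) .n))) (.c k127 (.q k195 [(.s k65 k130 8 (.s k215 k235 5
  (.s k150 k20 8 (.d k105 k125 k60 5 14)))), (.s k65 k130 8 (.s k105 k125 5 (.s k107 k104 0 (.s k63
  k151 13 (.s k21 k42 6 (.d k149 k213 k192 7 14)))))), (.s k215 k235 5 (.s k150 k20 8 (.s k194 k62
  13 (.s k192 k193 0 (.s k149 k63 14 (.d k213 k234 k21 6 7))))))] (.c k105 (.q k84 [(.s k252 k168 13
  (.s k253 k254 0 (.s k169 k1 13 (.d k86 k87 k3 0 14)))), (.s k86 k87 0 (.s k66 k126 5 (.s k130 k65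
  8 (.s k194 k2 7 (.s k150 k62 13 (.d k215 k235 k20 5 8)))))), (.s k235 k215 5 (.s k252 k168 13 (.s
  k233 k214 6 (.s k232 k234 0 (.s k169 k43 8 (.d k253 k254 k1 0 13))))))] (.c k40 (.l (.s k235 k215
  5 (.s k86 k87 0 (.s k252 k168 13 (.s k169 k3 14 (.d k253 k254 k1 0 13)))))) (.c k235 (.q k40 [(.s
  k252 k168 13 (.s k253 k254 0 (.s k169 k1 13 (.d k86 k87 k3 0 14)))), (.s k20 k60 5 (.s k212 k148 7
  (.s k215 k150 8 (.s k214 k213 0 (.d k252 k233 k168 6 13))))), (.s k20 k60 5 (.s k86 k87 0 (.s k66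
  k126 5 (.s k130 k65 8 (.s k150 k215 8 (.d k194 k2 k62 7 13))))))] .n) (.c k254 (.l (.s k86 k87 0
  (.s k252 k168 13 (.s k214 k233 6 (.s k150 k22 7 (.d k215 k235 k20 5 8)))))) .n)))) (.c k150 (.q
  k199 [(.s k207 k203 1 (.s k69 k138 10 (.s k101 k117 3 (.s k154 k48 14 (.d k223 k239 k16 3 10))))),
  (.s k215 k235 5 (.s k247 k231 3 (.s k4 k166 12 (.s k12 k8 1 (.d k134 k69 k73 8 10))))), (.s k207
  k203 1 (.s k215 k235 5 (.s k223 k239 3 (.s k219 k211 1 (.d k231 k247 k243 3 5))))), (.s k207 k203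
  1 (.s k69 k138 10 (.s k4 k134 8 (.s k215 k235 5 (.d k247 k166 k231 12 3)))))] (.c k130 (.q k190
  [(.s k207 k203 1 (.s k69 k138 10 (.s k101 k117 3 (.s k154 k48 14 (.d k223 k239 k16 3 10))))), (.s
  k215 k235 5 (.s k247 k231 3 (.s k4 k166 12 (.s k12 k8 1 (.d k134 k69 k73 8 10))))), (.s k207 k203
  1 (.s k215 k235 5 (.s k223 k239 3 (.s k219 k211 1 (.d k231 k247 k243 3 5))))), (.s k125 k60 8 (.s
  k65 k105 5 (.s k207 k203 1 (.s k69 k138 10 (.s k73 k77 1 (.d k134 k4 k12 8 10))))))] .n) (.c k190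
  (.l (.s k130 k65 8 (.s k207 k203 1 (.s k69 k138 10 (.s k4 k134 8 (.s k215 k235 5 (.d k247 k166
  k231 12 3))))))) .n))) .n))) (.c k128 (.l (.s k127 k64 6 (.s k63 k191 7 (.s k149 k192 14 (.d k21
  k42 k213 6 7))))) (.c k149 (.f k64 k127 6 (.q k98 [(.s k102 k110 1 (.s k68 k119 4 (.s k76 k72 1
  (.d k115 k81 k89 4 6)))), (.s k81 k115 4 (.s k162 k243 12 (.s k34 k226 7 (.s k51 k17 4 (.d k192
  k128 k145 7 12))))), (.s k102 k110 1 (.s k119 k68 4 (.s k51 k187 9 (.d k192 k128 k145 7 12)))),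
  (.s k102 k110 1 (.s k115 k81 4 (.s k76 k89 6 (.s k68 k72 1 (.s k204 k136 9 (.s k153 k51 14 (.d
  k221 k238 k17 4 9)))))))] (.c k128 (.q k191 [(.s k102 k110 1 (.s k68 k119 4 (.s k76 k72 1 (.d k115
  k81 k89 4 6)))), (.s k81 k115 4 (.s k243 k162 12 (.s k247 k251 1 (.s k166 k4 12 (.d k89 k93 k12 1
  14))))), (.s k102 k110 1 (.s k119 k68 4 (.s k51 k187 9 (.s k17 k34 4 (.d k153 k221 k204 9 14))))),
  (.s k102 k110 1 (.s k115 k81 4 (.s k76 k89 6 (.s k68 k72 1 (.s k204 k136 9 (.s k153 k51 14 (.d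
  k221 k238 k17 4 9)))))))] (.c k93 (.l (.s k115 k81 4 (.s k102 k110 1 (.s k76 k89 6 (.d k68 k72
  k119 1 4))))) .n)) (.c k191 (.l (.s k128 k192 7 (.s k102 k110 1 (.s k68 k119 4 (.s k76 k72 1 (.d
  k115 k81 k89 4 6)))))) .n)))) (.c k191 (.l (.s k64 k127 6 (.s k192 k128 7 (.s k149 k63 14 (.d k213
  k234 k21 6 7))))) (.c k192 (.q k1 [(.s k3 k2 0 (.s k87 k171 13 (.s k86 k84 0 (.d k169 k253 k252 13
  14)))), (.s k127 k64 6 (.s k63 k191 7 (.s k21 k42 6 (.s k61 k41 5 (.s k253 k169 13 (.s k125 k189 7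
  (.d k60 k190 k62 8 0))))))), (.s k3 k2 0 (.s k127 k64 6 (.s k63 k191 7 (.s k21 k42 6 (.s k23 k43 5
  (.s k22 k20 0 (.d k41 k61 k60 5 6)))))))] .n) (.c k213 (.q k1 [(.s k3 k2 0 (.s k87 k171 13 (.s k86
  k84 0 (.d k169 k253 k252 13 14)))), (.s k64 k127 6 (.s k169 k253 13 (.s k192 k128 7 (.s k149 k63
  14 (.s k129 k189 5 (.s k66 k3 8 (.d k65 k193 k67 7 0))))))), (.s k3 k2 0 (.s k64 k127 6 (.s k192
  k128 7 (.s k66 k129 8 (.s k86 k126 5 (.d k87 k84 k171 0 13))))))] (.c k3 (.l (.s k127 k64 6 (.s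
  k63 k191 7 (.s k21 k42 6 (.s k61 k41 5 (.s k60 k62 0 (.s k125 k190 8 (.d k253 k189 k169 7
  13)))))))) .n)) (.c k234 (.l (.s k127 k64 6 (.s k63 k191 7 (.s k21 k42 6 (.d k149 k213 k192 7
  14))))) .n))))))))))))

def t7_60 : T TT 256 :=
  (.f k255 k170 14 (.q k102 [(.s k68 k119 4 (.s k204 k136 9 (.s k221 k238 4 (.d k153 k17 k51 9
  14))))] (.c k17 (.q k1 [(.s k3 k2 0 (.s k87 k171 13 (.s k86 k84 0 (.d k169 k253 k252 13 14)))),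
  (.s k68 k119 4 (.s k169 k253 13 (.s k204 k136 9 (.s k153 k51 14 (.s k137 k185 3 (.s k69 k205 9 (.d
  k70 k71 k3 0 10))))))), (.s k3 k2 0 (.s k68 k119 4 (.s k204 k136 9 (.s k70 k137 10 (.s k86 k118 3
  (.d k87 k84 k171 0 13))))))] (.c k3 (.l (.s k68 k119 4 (.s k204 k136 9 (.s k221 k238 4 (.s k253
  k169 13 (.s k205 k237 3 (.s k69 k137 9 (.d k207 k138 k206 10 0)))))))) .n)) (.c k51 (.f k68 k119 4
  (.q k117 [(.s k48 k186 10 (.s k16 k32 3 (.s k101 k69 3 (.d k154 k223 k207 10 14)))), (.s k69 k101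
  3 (.s k70 k71 0 (.s k86 k118 3 (.s k87 k84 0 (.s k3 k171 13 (.d k204 k136 k137 9 10)))))), (.s k48
  k186 10 (.s k32 k16 3 (.s k204 k136 9 (.s k100 k152 13 (.s k84 k116 3 (.d k168 k236 k252 9
  13))))))] (.c k32 (.l (.s k48 k186 10 (.s k101 k69 3 (.s k100 k103 0 (.d k204 k136 k152 9 13)))))
  (.c k54 (.q k57 [(.s k48 k186 10 (.s k16 k32 3 (.s k101 k69 3 (.d k154 k223 k207 10 14)))), (.s
  k69 k101 3 (.s k70 k71 0 (.s k86 k118 3 (.s k87 k84 0 (.s k3 k171 13 (.d k204 k136 k137 9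
  10)))))), (.s k48 k186 10 (.s k32 k16 3 (.s k204 k136 9 (.s k100 k152 13 (.s k84 k116 3 (.d k168
  k236 k252 9 13))))))] (.c k32 (.l (.s k48 k186 10 (.s k101 k69 3 (.s k100 k103 0 (.d k204 k136
  k152 9 13))))) .n)) (.c k57 (.q k54 [(.s k48 k186 10 (.s k16 k32 3 (.s k101 k69 3 (.d k154 k223
  k207 10 14)))), (.s k69 k101 3 (.s k70 k71 0 (.s k86 k118 3 (.s k87 k84 0 (.s k3 k171 13 (.d k204
  k136 k137 9 10)))))), (.s k48 k186 10 (.s k32 k16 3 (.s k204 k136 9 (.s k100 k152 13 (.s k84 k116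
  3 (.d k168 k236 k252 9 13))))))] (.c k32 (.l (.s k48 k186 10 (.s k101 k69 3 (.s k100 k103 0 (.d
  k204 k136 k152 9 13))))) .n)) .n))))) (.c k68 (.q k4 [(.s k12 k8 1 (.s k93 k174 12 (.s k89 k81 1
  (.d k166 k247 k243 12 14)))), (.s k166 k247 12 (.s k38 k230 7 (.s k21 k55 4 (.s k63 k42 6 (.s k127
  k191 7 (.s k106 k64 6 (.d k149 k213 k192 7 14)))))))] (.c k166 (.f k12 k8 1 (.q k89 [(.d k93 k174
  k81 12 1), (.s k76 k115 6 (.s k204 k140 7 (.s k153 k51 14 (.d k221 k238 k17 4 9))))] (.c k162 (.l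
  (.s k174 k93 12 (.s k76 k115 6 (.s k204 k140 7 (.s k153 k51 14 (.d k221 k238 k17 4 9)))))) (.c
  k174 (.q k162 [(.d k81 k93 k243 1 12), (.s k76 k115 6 (.s k204 k140 7 (.s k221 k238 4 (.d k153 k17
  k51 9 14))))] .n) .n)))) (.c k247 (.l (.s k12 k8 1 (.s k93 k174 12 (.s k89 k81 1 (.s k76 k115 6
  (.s k204 k140 7 (.s k153 k51 14 (.d k221 k238 k17 4 9)))))))) .n))) (.c k119 (.q k81 [(.s k89 k93
  1 (.s k243 k162 12 (.s k247 k251 1 (.d k166 k4 k12 12 14)))), (.s k89 k93 1 (.s k115 k76 6 (.s k64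
  k98 4 (.s k192 k128 7 (.s k213 k234 6 (.s k149 k21 7 (.d k106 k127 k63 6 14)))))))] (.c k89 (.f
  k243 k162 12 (.q k166 [(.d k247 k251 k4 1 12), (.s k230 k38 7 (.s k204 k217 6 (.s k153 k51 14 (.d
  k221 k238 k17 4 9))))] (.c k8 (.l (.s k251 k247 1 (.s k230 k38 7 (.s k204 k217 6 (.s k153 k51 14
  (.d k221 k238 k17 4 9)))))) (.c k251 (.q k8 [(.d k4 k12 k247 1 12), (.s k230 k38 7 (.s k204 k217 6
  (.s k221 k238 4 (.d k153 k17 k51 9 14))))] .n) .n)))) (.c k93 (.l (.s k243 k162 12 (.s k247 k251 1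
  (.s k166 k4 12 (.s k230 k38 7 (.s k204 k217 6 (.s k153 k51 14 (.d k221 k238 k17 4 9)))))))) .n)))
  (.c k136 (.l (.s k119 k68 4 (.s k51 k187 9 (.s k153 k204 14 (.d k17 k34 k221 4 9))))) (.c k153 (.f
  k68 k119 4 (.q k76 [(.s k64 k72 1 (.s k89 k115 6 (.s k93 k81 1 (.d k127 k110 k106 4 6)))), (.s k64
  k72 1 (.s k192 k128 7 (.s k213 k234 6 (.s k149 k21 7 (.s k196 k55 12 (.d k204 k136 k200 9 1)))))),
  (.s k89 k115 6 (.s k81 k93 1 (.s k243 k162 12 (.s k166 k12 14 (.d k247 k251 k4 1 12)))))] (.c k136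
  (.q k187 [(.s k89 k115 6 (.s k93 k81 1 (.s k127 k110 4 (.d k64 k72 k106 1 6)))), (.s k64 k72 1 (.s
  k192 k128 7 (.s k213 k234 6 (.s k149 k21 7 (.d k106 k127 k63 6 14))))), (.s k89 k115 6 (.s k81 k93
  1 (.s k243 k162 12 (.s k166 k12 14 (.d k247 k251 k4 1 12)))))] (.c k127 (.l (.s k72 k64 1 (.s k89
  k115 6 (.s k123 k106 4 (.s k81 k93 1 (.s k243 k162 12 (.d k251 k59 k247 7 1))))))) .n)) (.c k187
  (.l (.s k136 k204 9 (.s k64 k72 1 (.s k89 k115 6 (.s k93 k81 1 (.d k127 k110 k106 4 6)))))) .n))))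
  (.c k187 (.l (.s k68 k119 4 (.s k204 k136 9 (.s k153 k51 14 (.d k221 k238 k17 4 9))))) (.c k204
  (.f k68 k119 4 (.q k149 [(.s k21 k213 7 (.s k63 k42 6 (.s k127 k191 7 (.d k106 k64 k192 6 14)))),
  (.s k196 k55 12 (.s k4 k132 7 (.s k12 k8 1 (.s k93 k174 12 (.s k89 k81 1 (.d k166 k247 k243 12
  14))))))] (.c k108 (.q k156 [(.s k21 k213 7 (.s k63 k42 6 (.s k127 k191 7 (.d k106 k64 k192 6
  14)))), (.s k196 k55 12 (.s k4 k132 7 (.s k12 k8 1 (.s k93 k174 12 (.s k89 k81 1 (.d k166 k247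
  k243 12 14))))))] .n) (.c k156 (.q k108 [(.s k21 k213 7 (.s k63 k42 6 (.s k127 k191 7 (.d k106 k64
  k192 6 14)))), (.s k196 k55 12 (.s k4 k132 7 (.s k12 k8 1 (.s k93 k174 12 (.s k89 k81 1 (.d k166
  k247 k243 12 14))))))] .n) .n)))) (.c k221 (.q k1 [(.s k3 k2 0 (.s k87 k171 13 (.s k86 k84 0 (.d
  k169 k253 k252 13 14)))), (.s k68 k119 4 (.s k169 k253 13 (.s k204 k136 9 (.s k153 k51 14 (.s k137
  k185 3 (.s k70 k3 10 (.d k69 k205 k71 9 0))))))), (.s k3 k2 0 (.s k68 k119 4 (.s k204 k136 9 (.s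
  k70 k137 10 (.s k86 k118 3 (.d k87 k84 k171 0 13))))))] (.c k3 (.l (.s k119 k68 4 (.s k51 k187 9
  (.s k17 k34 4 (.s k49 k33 3 (.s k48 k50 0 (.s k117 k186 10 (.d k253 k185 k169 9 13)))))))) .n))
  (.c k238 (.l (.s k119 k68 4 (.s k51 k187 9 (.s k17 k34 4 (.d k153 k221 k204 9 14)))))
  .n))))))))))))

def t7_61 : T TT 256 :=
  (.f k255 k170 14 (.q k89 [(.s k81 k93 1 (.s k243 k162 12 (.s k166 k12 14 (.d k247 k251 k4 1
  12))))] (.c k4 (.q k5 [(.s k165 k245 11 (.s k15 k10 2 (.s k90 k240 14 (.d k95 k80 k175 2 11)))),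
  (.s k93 k81 1 (.s k165 k245 11 (.s k13 k241 13 (.s k1 k9 1 (.d k253 k173 k169 11 13))))), (.s k15
  k10 2 (.s k81 k93 1 (.s k243 k162 12 (.s k91 k167 13 (.s k90 k88 0 (.d k95 k80 k175 2 11))))))]
  .n) (.c k12 (.q k1 [(.s k3 k2 0 (.s k87 k171 13 (.s k86 k84 0 (.d k169 k253 k252 13 14)))), (.s
  k81 k93 1 (.s k169 k253 13 (.s k9 k249 11 (.s k13 k5 1 (.d k241 k161 k165 11 13))))), (.s k3 k2 0
  (.s k81 k93 1 (.s k161 k241 11 (.s k82 k240 12 (.s k83 k80 0 (.d k243 k163 k162 11 12))))))] .n)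
  (.c k81 (.q k69 [(.s k101 k117 3 (.s k207 k138 10 (.s k154 k48 14 (.d k223 k239 k16 3 10)))), (.s
  k101 k117 3 (.s k77 k113 5 (.s k65 k73 1 (.s k195 k130 8 (.s k215 k235 5 (.s k150 k20 8 (.d k105
  k125 k60 5 14)))))))] (.c k101 (.f k207 k138 10 (.q k154 [(.d k223 k239 k16 3 10), (.s k219 k24 8
  (.s k243 k231 5 (.s k166 k12 14 (.d k247 k251 k4 1 12))))] (.c k32 (.l (.s k239 k223 3 (.s k219
  k24 8 (.s k243 k231 5 (.s k166 k12 14 (.d k247 k251 k4 1 12)))))) (.c k239 (.q k32 [(.d k16 k48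
  k223 3 10), (.s k219 k24 8 (.s k243 k231 5 (.s k247 k251 1 (.d k166 k4 k12 12 14))))] .n) .n))))
  (.c k117 (.l (.s k207 k138 10 (.s k223 k239 3 (.s k154 k16 10 (.s k219 k24 8 (.s k243 k231 5 (.s
  k166 k12 14 (.d k247 k251 k4 1 12)))))))) .n))) (.c k93 (.q k68 [(.s k102 k119 4 (.s k204 k136 9
  (.s k153 k51 14 (.d k221 k238 k17 4 9)))), (.s k102 k119 4 (.s k76 k115 6 (.s k64 k72 1 (.s k192
  k128 7 (.s k213 k234 6 (.s k149 k21 7 (.d k106 k127 k63 6 14)))))))] (.c k102 (.f k204 k136 9 (.q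
  k153 [(.d k221 k238 k17 4 9), (.s k217 k25 7 (.s k243 k230 6 (.s k166 k12 14 (.d k247 k251 k4 1
  12))))] (.c k34 (.l (.s k238 k221 4 (.s k217 k25 7 (.s k243 k230 6 (.s k166 k12 14 (.d k247 k251
  k4 1 12)))))) (.c k238 (.q k34 [(.d k17 k51 k221 4 9), (.s k217 k25 7 (.s k243 k230 6 (.s k247
  k251 1 (.d k166 k4 k12 12 14))))] .n) .n)))) (.c k119 (.l (.s k204 k136 9 (.s k221 k238 4 (.s k153
  k17 9 (.s k217 k25 7 (.s k243 k230 6 (.s k166 k12 14 (.d k247 k251 k4 1 12)))))))) .n))) (.c k162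
  (.l (.s k93 k81 1 (.s k12 k174 12 (.s k166 k243 14 (.d k4 k8 k247 1 12))))) (.c k166 (.f k81 k93 1
  (.q k83 [(.s k80 k82 0 (.s k86 k92 2 (.s k87 k84 0 (.d k95 k91 k90 1 2)))), (.s k80 k82 0 (.s k240
  k160 11 (.s k245 k250 2 (.s k165 k5 11 (.s k241 k13 13 (.d k243 k162 k242 12 0)))))), (.s k86 k92
  2 (.s k84 k87 0 (.s k252 k168 13 (.s k169 k3 14 (.d k253 k254 k1 0 13)))))] (.c k162 (.q k174 [(.s
  k86 k92 2 (.s k87 k84 0 (.s k95 k91 1 (.d k80 k82 k90 0 2)))), (.s k80 k82 0 (.s k240 k160 11 (.s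
  k245 k250 2 (.s k165 k5 11 (.d k90 k95 k15 2 14))))), (.s k86 k92 2 (.s k84 k87 0 (.s k252 k168 13
  (.s k169 k3 14 (.d k253 k254 k1 0 13)))))] (.c k95 (.l (.s k82 k80 0 (.s k86 k92 2 (.s k94 k90 1
  (.s k84 k87 0 (.s k252 k168 13 (.d k254 k14 k253 11 0))))))) .n)) (.c k174 (.l (.s k162 k243 12
  (.s k80 k82 0 (.s k86 k92 2 (.s k87 k84 0 (.d k95 k91 k90 1 2)))))) .n)))) (.c k174 (.l (.s k81
  k93 1 (.s k243 k162 12 (.s k166 k12 14 (.d k247 k251 k4 1 12))))) (.c k243 (.q k1 [(.s k3 k2 0 (.s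
  k87 k171 13 (.s k86 k84 0 (.d k169 k253 k252 13 14)))), (.s k81 k93 1 (.s k169 k253 13 (.s k9 k249
  11 (.s k13 k5 1 (.d k241 k161 k165 11 13))))), (.s k3 k2 0 (.s k93 k81 1 (.s k12 k174 12 (.s k8 k4
  1 (.s k9 k6 2 (.s k5 k13 1 (.d k10 k11 k15 0 2)))))))] .n) (.c k247 (.q k87 [(.s k86 k84 0 (.s k3
  k171 13 (.s k169 k252 14 (.d k1 k2 k253 0 13)))), (.s k81 k93 1 (.s k86 k84 0 (.s k83 k92 2 (.s
  k80 k82 0 (.d k95 k91 k90 1 2))))), (.s k3 k171 13 (.s k81 k93 1 (.s k243 k162 12 (.s k83 k163 11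
  (.s k80 k82 0 (.d k95 k91 k90 1 2))))))] .n) (.c k251 (.l (.s k93 k81 1 (.s k12 k174 12 (.s k4 k8
  1 (.d k166 k247 k243 12 14))))) .n))))))))))))

def t7_62 : T TT 256 :=
  (.f k255 k170 14 (.q k106 [(.s k64 k127 6 (.s k192 k128 7 (.s k213 k234 6 (.d k149 k21 k63 7
  14))))] (.c k21 (.q k1 [(.s k169 k253 13 (.s k3 k2 0 (.s k86 k252 14 (.d k87 k84 k171 0 13)))),
  (.s k64 k127 6 (.s k192 k128 7 (.s k213 k234 6 (.s k253 k169 13 (.s k193 k233 5 (.s k65 k129 7 (.d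
  k195 k130 k194 8 0))))))), (.s k3 k2 0 (.s k64 k127 6 (.s k192 k128 7 (.s k66 k129 8 (.s k86 k126
  5 (.d k87 k84 k171 0 13))))))] (.c k171 (.l (.s k3 k2 0 (.s k127 k64 6 (.s k63 k191 7 (.s k43 k23
  5 (.d k169 k232 k253 8 13)))))) .n)) (.c k63 (.q k60 [(.s k20 k40 5 (.s k150 k215 8 (.s k105 k195
  14 (.d k125 k65 k190 5 8)))), (.s k40 k20 5 (.s k64 k127 6 (.s k192 k128 7 (.s k104 k148 13 (.s
  k84 k124 5 (.d k168 k232 k252 7 13)))))), (.s k64 k127 6 (.s k125 k190 8 (.s k105 k65 5 (.s k104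
  k107 0 (.d k192 k128 k148 7 13)))))] (.c k125 (.l (.s k20 k40 5 (.s k64 k127 6 (.s k150 k215 8 (.s
  k105 k195 14 (.s k192 k128 7 (.d k104 k107 k148 0 13))))))) .n)) (.c k64 (.q k240 [(.s k80 k160 11
  (.s k90 k95 2 (.s k245 k250 2 (.d k165 k5 k15 11 14)))), (.s k80 k160 11 (.s k90 k95 2 (.s k122
  k74 3 (.s k63 k181 10 (.s k21 k42 6 (.d k149 k213 k192 7 14)))))), (.s k245 k250 2 (.s k165 k5 11
  (.s k224 k47 10 (.s k192 k208 3 (.s k149 k63 14 (.d k213 k234 k21 6 7))))))] (.c k90 (.q k224 [(.s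
  k165 k47 10 (.d k245 k250 k5 2 11)), (.s k192 k208 3 (.s k149 k63 14 (.d k213 k234 k21 6 7)))] (.c
  k10 (.l (.s k250 k245 2 (.s k192 k208 3 (.s k149 k63 14 (.d k213 k234 k21 6 7))))) (.c k250 (.q
  k10 [(.s k165 k47 10 (.d k5 k15 k245 2 11)), (.s k192 k208 3 (.s k149 k63 14 (.d k213 k234 k21 6
  7)))] .n) .n))) (.c k165 (.q k244 [(.s k252 k248 1 (.s k84 k168 13 (.s k164 k4 11 (.s k88 k12 13
  (.d k80 k160 k92 11 1))))), (.s k245 k250 2 (.s k246 k247 0 (.s k252 k248 1 (.s k249 k243 2 (.d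
  k253 k254 k241 0 1))))), (.s k245 k250 2 (.s k247 k246 0 (.s k4 k166 12 (.s k12 k8 1 (.d k164 k84
  k88 11 13)))))] (.c k160 (.q k175 [(.s k245 k250 2 (.s k246 k247 0 (.s k252 k248 1 (.s k249 k243 2
  (.d k253 k254 k241 0 1))))), (.s k252 k248 1 (.s k84 k168 13 (.s k253 k254 0 (.s k169 k1 13 (.d
  k86 k87 k3 0 14))))), (.s k245 k250 2 (.s k247 k246 0 (.s k4 k166 12 (.s k12 k8 1 (.d k164 k84 k88
  11 13)))))] (.c k254 (.l (.s k95 k15 11 (.s k80 k90 2 (.s k252 k248 1 (.s k84 k168 13 (.s k88 k92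
  1 (.d k164 k4 k12 11 13))))))) .n)) (.c k175 (.l (.s k160 k80 11 (.s k245 k250 2 (.s k246 k247 0
  (.s k252 k248 1 (.s k249 k243 2 (.d k253 k254 k241 0 1))))))) .n))) .n))) (.c k127 (.q k252 [(.s
  k84 k168 13 (.s k253 k254 0 (.s k169 k1 13 (.d k86 k87 k3 0 14)))), (.s k84 k168 13 (.s k86 k87 0
  (.s k126 k66 5 (.s k63 k189 8 (.s k21 k42 6 (.d k149 k213 k192 7 14)))))), (.s k253 k254 0 (.s
  k169 k1 13 (.s k232 k43 8 (.s k192 k212 5 (.s k149 k63 14 (.d k213 k234 k21 6 7)))))), (.s k84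
  k168 13 (.s k86 k87 0 (.s k169 k3 14 (.d k253 k254 k1 0 13))))] (.c k86 (.f k254 k253 0 (.q k244
  [(.s k240 k248 1 (.s k80 k160 11 (.s k90 k95 2 (.s k165 k15 14 (.d k245 k250 k5 2 11))))), (.s k84
  k168 13 (.s k4 k164 11 (.s k247 k166 12 (.s k246 k245 0 (.d k243 k249 k251 2 1))))), (.s k84 k168
  13 (.s k240 k248 1 (.s k245 k250 2 (.s k247 k246 0 (.d k4 k166 k164 12 11)))))] (.c k245 (.l (.s
  k84 k168 13 (.s k164 k4 11 (.s k240 k248 1 (.s k80 k160 11 (.d k88 k92 k12 1 13)))))) .n))) (.c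
  k169 (.q k192 [(.s k213 k234 6 (.d k149 k21 k63 7 14)), (.s k128 k64 7 (.s k168 k84 13 (.s k148
  k188 5 (.s k232 k212 5 (.d k104 k40 k60 7 13)))))] (.c k168 (.q k171 [(.s k213 k234 6 (.d k149 k21
  k63 7 14)), (.s k3 k87 13 (.s k66 k129 8 (.s k126 k86 5 (.d k63 k189 k149 8 14)))), (.s k212 k232
  5 (.s k213 k234 6 (.s k214 k215 0 (.s k233 k195 6 (.d k253 k254 k193 0 5)))))] .n) (.c k171 (.l
  (.s k168 k84 13 (.s k149 k63 14 (.d k213 k234 k21 6 7)))) .n))) .n))) (.c k128 (.l (.s k127 k64 6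
  (.s k63 k191 7 (.s k149 k192 14 (.d k21 k42 k213 6 7))))) (.c k149 (.f k64 k127 6 (.f k128 k192 7
  (.q k65 [(.s k105 k125 5 (.s k104 k107 0 (.s k124 k84 5 (.d k67 k66 k86 0 6)))), (.s k195 k130 8
  (.s k215 k235 5 (.s k150 k20 8 (.d k105 k125 k60 5 14)))), (.s k67 k66 0 (.s k195 k130 8 (.s k3
  k131 7 (.s k87 k171 13 (.s k86 k84 0 (.s k169 k252 14 (.d k1 k2 k253 0 13)))))))] .n))) (.c k191
  (.l (.s k64 k127 6 (.s k192 k128 7 (.s k149 k63 14 (.d k213 k234 k21 6 7))))) (.c k192 (.q k1 [(.s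
  k3 k2 0 (.s k87 k171 13 (.s k86 k84 0 (.d k169 k253 k252 13 14)))), (.s k127 k64 6 (.s k63 k191 7
  (.s k169 k253 13 (.s k43 k232 8 (.d k3 k2 k23 0 5))))), (.s k3 k2 0 (.s k127 k64 6 (.s k63 k191 7
  (.s k23 k43 5 (.s k21 k42 6 (.s k22 k20 0 (.d k41 k61 k60 5 6)))))))] (.c k2 (.l (.s k127 k64 6
  (.s k63 k191 7 (.s k169 k253 13 (.s k43 k232 8 (.s k3 k23 5 (.s k87 k171 13 (.d k86 k252 k84 14
  0)))))))) (.c k3 (.l (.s k127 k64 6 (.s k63 k191 7 (.s k21 k42 6 (.s k61 k41 5 (.s k253 k169 13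
  (.s k189 k125 7 (.d k252 k254 k126 0 8)))))))) .n))) (.c k213 (.q k1 [(.s k3 k2 0 (.s k87 k171 13
  (.s k86 k84 0 (.d k169 k253 k252 13 14)))), (.s k64 k127 6 (.s k169 k253 13 (.s k192 k128 7 (.s
  k149 k63 14 (.s k129 k189 5 (.s k66 k3 8 (.d k65 k193 k67 7 0))))))), (.s k3 k2 0 (.s k64 k127 6
  (.s k192 k128 7 (.s k66 k129 8 (.s k86 k126 5 (.d k87 k84 k171 0 13))))))] (.c k3 (.l (.s k127 k64
  6 (.s k63 k191 7 (.s k21 k42 6 (.s k61 k41 5 (.s k253 k169 13 (.s k189 k125 7 (.d k252 k254 k126 0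
  8)))))))) .n)) (.c k234 (.l (.s k127 k64 6 (.s k63 k191 7 (.s k21 k42 6 (.d k149 k213 k192 7
  14))))) .n))))))))))))

def t7_63 : T TT 256 :=
  (.f k255 k170 14 (.q k101 [(.s k69 k117 3 (.s k207 k138 10 (.s k223 k239 3 (.d k154 k16 k48 10
  14))))] (.c k16 (.q k1 [(.s k3 k2 0 (.s k87 k171 13 (.s k169 k253 13 (.d k86 k84 k252 0 14)))),
  (.s k69 k117 3 (.s k169 k253 13 (.s k33 k237 9 (.s k49 k17 3 (.d k205 k137 k153 9 13))))), (.s k3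
  k2 0 (.s k69 k117 3 (.s k137 k205 9 (.s k70 k204 10 (.s k71 k68 0 (.d k207 k139 k138 9 10))))))]
  .n) (.c k48 (.q k53 [(.s k117 k69 3 (.s k149 k197 11 (.s k21 k213 7 (.s k245 k181 7 (.d k5 k37
  k165 3 11))))), (.s k69 k117 3 (.s k197 k149 11 (.s k133 k5 7 (.s k207 k138 10 (.s k192 k202 2 (.s
  k74 k15 10 (.d k64 k128 k79 7 2))))))), (.s k117 k69 3 (.s k245 k181 7 (.s k240 k250 2 (.s k80
  k160 11 (.s k90 k95 2 (.d k165 k5 k15 11 14)))))), (.s k149 k197 11 (.s k21 k213 7 (.s k5 k37 3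
  (.s k15 k10 2 (.s k95 k175 11 (.s k90 k80 2 (.d k165 k245 k240 11 14)))))))] (.c k5 (.q k4 [(.s
  k12 k8 1 (.s k93 k174 12 (.s k89 k81 1 (.d k166 k247 k243 12 14)))), (.s k69 k117 3 (.s k166 k247
  12 (.s k36 k231 8 (.s k52 k20 3 (.d k199 k134 k150 8 12))))), (.s k12 k8 1 (.s k69 k117 3 (.s k134
  k199 8 (.s k73 k195 10 (.s k77 k65 1 (.d k207 k142 k138 8 10))))))] .n) .n)) (.c k69 (.q k1 [(.s
  k3 k2 0 (.s k87 k171 13 (.s k86 k84 0 (.d k169 k253 k252 13 14)))), (.s k169 k253 13 (.s k33 k237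
  9 (.s k17 k49 3 (.s k51 k34 4 (.s k119 k187 9 (.s k102 k68 4 (.d k153 k221 k204 9 14)))))))] (.c
  k169 (.f k3 k2 0 (.q k86 [(.d k87 k171 k84 13 0), (.s k71 k116 4 (.s k207 k139 9 (.s k154 k48 14
  (.d k223 k239 k16 3 10))))] (.c k168 (.l (.s k171 k87 13 (.s k71 k116 4 (.s k207 k139 9 (.s k154
  k48 14 (.d k223 k239 k16 3 10)))))) (.c k171 (.q k168 [(.d k84 k87 k252 0 13), (.s k71 k116 4 (.s
  k207 k139 9 (.s k223 k239 3 (.d k154 k16 k48 10 14))))] .n) .n)))) (.c k253 (.l (.s k3 k2 0 (.s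
  k87 k171 13 (.s k86 k84 0 (.s k71 k116 4 (.s k207 k139 9 (.s k154 k48 14 (.d k223 k239 k16 3
  10)))))))) .n))) (.c k117 (.q k253 [(.s k169 k1 13 (.s k252 k254 0 (.s k84 k168 13 (.d k86 k87 k3
  0 14)))), (.s k169 k1 13 (.s k237 k33 9 (.s k221 k205 3 (.s k204 k238 4 (.s k68 k136 9 (.s k102
  k119 4 (.d k153 k17 k51 9 14)))))))] (.c k1 (.l (.s k252 k254 0 (.s k84 k168 13 (.s k86 k87 0 (.s
  k116 k71 4 (.s k48 k184 9 (.s k16 k32 3 (.d k154 k223 k207 10 14)))))))) (.c k169 (.f k252 k254 0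
  (.q k86 [(.d k84 k168 k87 13 0), (.s k116 k71 4 (.s k48 k184 9 (.s k16 k32 3 (.d k154 k223 k207 10
  14))))] (.c k168 (.q k171 [(.d k87 k84 k3 0 13), (.s k116 k71 4 (.s k48 k184 9 (.s k16 k32 3 (.d
  k154 k223 k207 10 14))))] .n) (.c k171 (.l (.s k168 k84 13 (.s k116 k71 4 (.s k48 k184 9 (.s k16
  k32 3 (.d k154 k223 k207 10 14)))))) .n)))) .n))) (.c k138 (.l (.s k117 k69 3 (.s k48 k186 10 (.s
  k154 k207 14 (.d k16 k32 k223 3 10))))) (.c k154 (.f k69 k117 3 (.q k153 [(.s k205 k49 13 (.s k1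
  k137 9 (.s k221 k17 9 (.d k253 k237 k169 3 13)))), (.s k17 k221 9 (.s k51 k34 4 (.s k102 k204 14
  (.d k119 k68 k187 4 9)))), (.s k205 k49 13 (.s k1 k137 9 (.s k3 k2 0 (.s k87 k171 13 (.s k86 k84 0
  (.d k169 k253 k252 13 14))))))] (.c k138 (.q k186 [(.s k17 k221 9 (.s k51 k34 4 (.s k119 k187 9
  (.d k102 k68 k204 4 14)))), (.s k205 k49 13 (.s k1 k137 9 (.s k3 k2 0 (.s k87 k171 13 (.s k86 k84
  0 (.d k169 k253 k252 13 14))))))] .n) (.c k186 (.l (.s k138 k207 10 (.s k17 k221 9 (.s k51 k34 4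
  (.s k102 k204 14 (.d k119 k68 k187 4 9)))))) .n)))) (.c k186 (.l (.s k69 k117 3 (.s k207 k138 10
  (.s k154 k48 14 (.d k223 k239 k16 3 10))))) (.c k207 (.f k69 k117 3 (.q k1 [(.s k3 k2 0 (.s k87
  k171 13 (.s k86 k84 0 (.d k169 k253 k252 13 14)))), (.s k205 k137 9 (.s k153 k49 13 (.s k17 k221 9
  (.s k51 k34 4 (.s k102 k204 14 (.d k119 k68 k187 4 9))))))] (.c k3 (.l (.s k169 k253 13 (.s k33
  k237 9 (.s k49 k17 3 (.d k205 k137 k153 9 13))))) (.c k111 (.q k159 [(.s k3 k2 0 (.s k87 k171 13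
  (.s k86 k84 0 (.d k169 k253 k252 13 14)))), (.s k205 k137 9 (.s k153 k49 13 (.s k17 k221 9 (.s k51
  k34 4 (.s k102 k204 14 (.d k119 k68 k187 4 9))))))] (.c k3 (.l (.s k169 k253 13 (.s k33 k237 9 (.s
  k49 k17 3 (.d k205 k137 k153 9 13))))) (.c k253 (.l (.s k3 k2 0 (.s k87 k171 13 (.s k86 k84 0 (.s
  k71 k116 4 (.s k68 k70 0 (.d k119 k103 k102 3 4))))))) .n))) (.c k159 (.q k111 [(.s k3 k2 0 (.s
  k87 k171 13 (.s k86 k84 0 (.d k169 k253 k252 13 14)))), (.s k205 k137 9 (.s k153 k49 13 (.s k17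
  k221 9 (.s k51 k34 4 (.s k102 k204 14 (.d k119 k68 k187 4 9))))))] (.c k3 (.l (.s k169 k253 13 (.s
  k33 k237 9 (.s k49 k17 3 (.d k205 k137 k153 9 13))))) (.c k253 (.l (.s k3 k2 0 (.s k87 k171 13 (.s
  k86 k84 0 (.s k71 k116 4 (.s k68 k70 0 (.d k119 k103 k102 3 4))))))) .n))) (.c k253 (.l (.s k3 k2
  0 (.s k87 k171 13 (.s k86 k84 0 (.s k71 k116 4 (.s k68 k70 0 (.d k119 k103 k102 3 4)))))))
  .n)))))) (.c k223 (.q k1 [(.s k3 k2 0 (.s k87 k171 13 (.s k86 k84 0 (.d k169 k253 k252 13 14)))),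
  (.s k69 k117 3 (.s k169 k253 13 (.s k33 k237 9 (.s k49 k17 3 (.d k205 k137 k153 9 13))))), (.s k3
  k2 0 (.s k69 k117 3 (.s k137 k205 9 (.s k70 k204 10 (.s k71 k68 0 (.d k207 k139 k138 9 10))))))]
  .n) (.c k239 (.l (.s k117 k69 3 (.s k48 k186 10 (.s k16 k32 3 (.d k154 k223 k207 10 14)))))
  .n))))))))))))

def t7_82 : T TT 256 :=
  (.f k255 k170 14 (.q k106 [(.s k64 k127 6 (.s k192 k128 7 (.s k149 k63 14 (.d k213 k234 k21 6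
  7))))] (.c k21 (.q k1 [(.s k169 k253 13 (.s k3 k2 0 (.s k86 k252 14 (.d k87 k84 k171 0 13)))), (.s
  k64 k127 6 (.s k192 k128 7 (.s k213 k234 6 (.s k253 k169 13 (.s k193 k233 5 (.s k65 k129 7 (.d
  k195 k130 k194 8 0))))))), (.s k3 k2 0 (.s k64 k127 6 (.s k192 k128 7 (.s k66 k129 8 (.s k86 k126
  5 (.d k87 k84 k171 0 13))))))] (.c k171 (.l (.s k3 k2 0 (.s k127 k64 6 (.s k63 k191 7 (.s k43 k23
  5 (.d k169 k232 k253 8 13)))))) .n)) (.c k63 (.q k1 [(.s k3 k2 0 (.s k87 k171 13 (.s k86 k84 0 (.d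
  k169 k253 k252 13 14)))), (.s k64 k127 6 (.s k192 k128 7 (.s k213 k234 6 (.s k253 k169 13 (.s k193
  k233 5 (.s k65 k129 7 (.d k195 k130 k194 8 0))))))), (.s k3 k2 0 (.s k64 k127 6 (.s k192 k128 7
  (.s k66 k129 8 (.s k86 k126 5 (.d k87 k84 k171 0 13))))))] (.c k171 (.l (.s k3 k2 0 (.s k64 k127 6
  (.s k169 k253 13 (.s k86 k252 14 (.s k192 k128 7 (.d k66 k126 k129 5 8))))))) .n)) (.c k64 (.q k60
  [(.s k20 k40 5 (.s k125 k190 8 (.s k150 k215 8 (.d k105 k65 k195 5 14)))), (.s k20 k40 5 (.s k150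
  k215 8 (.s k62 k194 13 (.s k63 k61 0 (.s k21 k42 6 (.d k149 k213 k192 7 14)))))), (.s k125 k190 8
  (.s k105 k65 5 (.s k104 k107 0 (.s k192 k148 13 (.s k149 k63 14 (.d k213 k234 k21 6 7))))))] (.c
  k105 (.q k87 [(.s k3 k171 13 (.s k86 k84 0 (.s k169 k252 14 (.d k1 k2 k253 0 13)))), (.s k86 k84 0
  (.s k126 k66 5 (.s k190 k125 8 (.s k62 k254 7 (.s k150 k194 13 (.d k20 k40 k215 5 8)))))), (.s k3
  k171 13 (.s k2 k1 0 (.s k22 k41 6 (.s k42 k62 5 (.s k21 k63 6 (.d k20 k40 k23 5 0))))))] (.c k2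
  (.l (.s k3 k171 13 (.s k22 k41 6 (.s k86 k84 0 (.s k150 k214 7 (.d k20 k40 k215 5 8)))))) (.c k40
  (.q k235 [(.s k3 k171 13 (.s k86 k84 0 (.s k169 k252 14 (.d k1 k2 k253 0 13)))), (.s k3 k171 13
  (.s k22 k41 6 (.s k215 k195 5 (.s k20 k150 8 (.d k23 k21 k151 0 7))))), (.s k86 k84 0 (.s k126 k66
  5 (.s k190 k125 8 (.s k62 k254 7 (.s k150 k194 13 (.d k215 k195 k20 5 8))))))] .n) (.c k235 (.l
  (.s k40 k20 5 (.s k3 k171 13 (.s k1 k2 0 (.s k86 k84 0 (.d k169 k253 k252 13 14)))))) .n)))) (.c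
  k150 (.q k149 [(.s k21 k213 7 (.d k63 k42 k192 6 14)), (.s k63 k192 14 (.s k61 k62 0 (.s k105 k193
  13 (.d k125 k190 k65 8 5))))] (.c k63 (.l (.s k213 k21 7 (.s k192 k234 6 (.s k104 k148 13 (.s k105
  k107 0 (.d k125 k65 k190 5 8)))))) (.c k130 (.l (.s k190 k125 8 (.s k21 k213 7 (.d k63 k42 k192 6
  14)))) (.c k190 (.q k130 [(.s k21 k213 7 (.d k63 k42 k192 6 14)), (.s k63 k192 14 (.s k61 k62 0
  (.s k65 k195 8 (.d k105 k193 k125 13 5))))] (.c k63 (.l (.s k65 k195 8 (.s k105 k125 5 (.s k213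
  k21 7 (.s k192 k234 6 (.d k104 k107 k148 0 13)))))) (.c k192 (.l (.s k21 k213 7 (.s k63 k42 6 (.s
  k61 k62 0 (.s k65 k195 8 (.d k105 k193 k125 13 5)))))) .n))) (.c k192 (.l (.s k21 k213 7 (.s k63
  k42 6 (.s k61 k62 0 (.s k105 k193 13 (.d k125 k65 k190 5 8)))))) .n))))) .n))) (.c k127 (.q k195
  [(.s k65 k130 8 (.s k215 k235 5 (.s k150 k20 8 (.d k105 k125 k60 5 14)))), (.s k65 k130 8 (.s k105
  k125 5 (.s k107 k104 0 (.s k63 k151 13 (.s k21 k42 6 (.d k149 k213 k192 7 14)))))), (.s k215 k235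
  5 (.s k150 k20 8 (.s k194 k62 13 (.s k192 k193 0 (.s k149 k63 14 (.d k213 k234 k21 6 7))))))] (.c
  k105 (.q k149 [(.s k21 k213 7 (.d k63 k42 k192 6 14)), (.s k63 k192 14 (.s k151 k107 13 (.s k150
  k148 0 (.d k215 k235 k20 5 8))))] (.c k40 (.l (.s k235 k215 5 (.s k21 k213 7 (.d k63 k42 k192 6
  14)))) (.c k63 (.l (.s k213 k21 7 (.s k192 k234 6 (.s k194 k193 0 (.s k150 k62 13 (.d k215 k235
  k20 5 8)))))) (.c k192 (.l (.s k21 k213 7 (.s k63 k42 6 (.s k151 k107 13 (.s k150 k148 0 (.d k215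
  k235 k20 5 8)))))) (.c k235 (.q k40 [(.s k21 k213 7 (.d k63 k42 k192 6 14)), (.s k20 k60 5 (.s k63
  k192 14 (.s k150 k215 8 (.d k151 k148 k107 0 13))))] (.c k63 (.l (.s k20 k60 5 (.s k150 k215 8 (.s
  k213 k21 7 (.s k192 k234 6 (.d k194 k62 k193 13 0)))))) (.c k192 (.l (.s k20 k60 5 (.s k21 k213 7
  (.s k63 k42 6 (.s k150 k215 8 (.d k151 k148 k107 0 13)))))) .n))) .n))))) (.c k150 (.q k149 [(.s
  k21 k213 7 (.d k63 k42 k192 6 14)), (.s k63 k192 14 (.s k107 k151 13 (.s k105 k104 0 (.d k65 k130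
  k125 8 5))))] (.c k63 (.l (.s k213 k21 7 (.s k192 k234 6 (.s k193 k194 0 (.s k105 k61 13 (.d k65
  k125 k130 5 8)))))) (.c k130 (.q k190 [(.s k21 k213 7 (.d k63 k42 k192 6 14)), (.s k63 k192 14 (.s
  k107 k151 13 (.s k105 k104 0 (.d k125 k60 k65 8 5))))] (.c k63 (.l (.s k125 k60 8 (.s k105 k65 5
  (.s k213 k21 7 (.s k192 k234 6 (.d k193 k61 k194 13 0)))))) (.c k192 (.l (.s k21 k213 7 (.s k63
  k42 6 (.s k107 k151 13 (.s k105 k104 0 (.d k125 k60 k65 8 5)))))) .n))) (.c k190 (.l (.s k130 k65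
  8 (.s k21 k213 7 (.d k63 k42 k192 6 14)))) (.c k192 (.l (.s k21 k213 7 (.s k63 k42 6 (.s k107 k151
  13 (.s k105 k104 0 (.d k65 k125 k130 5 8)))))) .n))))) .n))) (.c k128 (.l (.s k127 k64 6 (.s k63
  k191 7 (.s k149 k192 14 (.d k21 k42 k213 6 7))))) (.c k149 (.f k64 k127 6 (.q k96 [(.s k101 k111 2
  (.s k69 k117 3 (.s k79 k74 2 (.d k112 k80 k90 3 6)))), (.s k80 k112 3 (.s k160 k240 11 (.s k32
  k224 7 (.s k48 k16 3 (.d k192 k128 k144 7 11))))), (.s k101 k111 2 (.s k117 k69 3 (.s k48 k186 10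
  (.d k192 k128 k144 7 11))))] (.c k117 (.l (.s k101 k111 2 (.s k112 k80 3 (.s k79 k90 6 (.s k69 k74
  2 (.s k207 k138 10 (.s k154 k48 14 (.d k223 k239 k16 3 10)))))))) (.c k128 (.q k191 [(.s k101 k111
  2 (.s k69 k117 3 (.s k79 k74 2 (.d k112 k80 k90 3 6)))), (.s k80 k112 3 (.s k240 k160 11 (.s k245
  k250 2 (.s k165 k5 11 (.d k90 k95 k15 2 14))))), (.s k101 k111 2 (.s k117 k69 3 (.s k48 k186 10
  (.s k16 k32 3 (.d k154 k223 k207 10 14)))))] (.c k95 (.l (.s k112 k80 3 (.s k101 k111 2 (.s k79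
  k90 6 (.d k69 k74 k117 2 3))))) (.c k117 (.l (.s k101 k111 2 (.s k112 k80 3 (.s k79 k90 6 (.s k69
  k74 2 (.s k207 k138 10 (.s k154 k48 14 (.d k223 k239 k16 3 10)))))))) .n))) (.c k191 (.l (.s k128
  k192 7 (.s k101 k111 2 (.s k69 k117 3 (.s k79 k74 2 (.d k112 k80 k90 3 6)))))) .n))))) (.c k191
  (.l (.s k64 k127 6 (.s k192 k128 7 (.s k149 k63 14 (.d k213 k234 k21 6 7))))) (.c k192 (.q k1 [(.s
  k3 k2 0 (.s k87 k171 13 (.s k86 k84 0 (.d k169 k253 k252 13 14)))), (.s k127 k64 6 (.s k63 k191 7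
  (.s k21 k42 6 (.s k61 k41 5 (.s k253 k169 13 (.s k125 k189 7 (.d k60 k190 k62 8 0))))))), (.s k3
  k2 0 (.s k127 k64 6 (.s k63 k191 7 (.s k21 k42 6 (.s k23 k43 5 (.s k22 k20 0 (.d k41 k61 k60 5
  6)))))))] .n) (.c k213 (.q k1 [(.s k3 k2 0 (.s k87 k171 13 (.s k86 k84 0 (.d k169 k253 k252 13
  14)))), (.s k64 k127 6 (.s k169 k253 13 (.s k192 k128 7 (.s k149 k63 14 (.s k129 k189 5 (.s k66 k3
  8 (.d k65 k193 k67 7 0))))))), (.s k3 k2 0 (.s k64 k127 6 (.s k192 k128 7 (.s k66 k129 8 (.s k86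
  k126 5 (.d k87 k84 k171 0 13))))))] (.c k3 (.l (.s k127 k64 6 (.s k63 k191 7 (.s k21 k42 6 (.s k61
  k41 5 (.s k60 k62 0 (.s k125 k190 8 (.d k253 k189 k169 7 13)))))))) .n)) (.c k234 (.l (.s k127 k64
  6 (.s k63 k191 7 (.s k21 k42 6 (.d k149 k213 k192 7 14))))) .n))))))))))))

def t7_88 : T TT 256 :=
  (.f k255 k170 14 (.q k89 [(.s k93 k81 1 (.s k12 k174 12 (.s k166 k243 14 (.d k4 k8 k247 1 12))))]
  (.c k4 (.q k5 [(.s k15 k10 2 (.s k95 k175 11 (.s k165 k245 11 (.d k90 k80 k240 2 14)))), (.s k93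
  k81 1 (.s k165 k245 11 (.s k13 k241 13 (.s k1 k9 1 (.d k253 k173 k169 11 13))))), (.s k15 k10 2
  (.s k93 k81 1 (.s k12 k174 12 (.s k13 k14 0 (.s k1 k9 1 (.d k253 k173 k169 11 13))))))] .n) (.c k8
  (.l (.s k81 k93 1 (.s k243 k162 12 (.s k166 k12 14 (.d k247 k251 k4 1 12))))) (.c k12 (.q k240
  [(.s k80 k160 11 (.s k90 k95 2 (.s k245 k250 2 (.d k165 k5 k15 11 14)))), (.s k81 k93 1 (.s k160
  k80 11 (.s k162 k243 12 (.s k161 k163 0 (.s k1 k241 11 (.d k3 k2 k82 0 12)))))), (.s k81 k93 1 (.s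
  k243 k162 12 (.s k241 k242 0 (.s k245 k250 2 (.d k165 k5 k13 11 13)))))] .n) (.c k81 (.q k64 [(.s
  k106 k127 6 (.s k192 k128 7 (.s k149 k63 14 (.d k213 k234 k21 6 7)))), (.s k106 k127 6 (.s k72
  k123 4 (.s k68 k76 1 (.s k204 k136 9 (.s k221 k238 4 (.s k153 k17 9 (.d k102 k119 k51 4 14)))))))]
  (.c k106 (.f k192 k128 7 (.q k149 [(.d k213 k234 k21 6 7), (.s k209 k29 9 (.s k243 k226 4 (.s k166
  k12 14 (.d k247 k251 k4 1 12))))] (.c k42 (.l (.s k234 k213 6 (.s k209 k29 9 (.s k243 k226 4 (.s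
  k166 k12 14 (.d k247 k251 k4 1 12)))))) (.c k234 (.q k42 [(.d k21 k63 k213 6 7), (.s k209 k29 9
  (.s k243 k226 4 (.s k247 k251 1 (.d k166 k4 k12 12 14))))] .n) .n)))) (.c k127 (.l (.s k192 k128 7
  (.s k213 k234 6 (.s k149 k21 7 (.s k209 k29 9 (.s k243 k226 4 (.s k166 k12 14 (.d k247 k251 k4 1
  12)))))))) .n))) (.c k93 (.q k127 [(.s k106 k64 6 (.s k63 k191 7 (.s k149 k192 14 (.d k21 k42 k213
  6 7)))), (.s k106 k64 6 (.s k123 k72 4 (.s k119 k115 1 (.s k51 k187 9 (.s k17 k34 4 (.s k153 k221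
  9 (.d k102 k68 k204 4 14)))))))] (.c k64 (.l (.s k63 k191 7 (.s k21 k42 6 (.s k149 k213 7 (.s k29
  k209 9 (.s k12 k46 4 (.s k4 k8 1 (.d k166 k247 k243 12 14)))))))) (.c k106 (.f k63 k191 7 (.q k149
  [(.d k21 k42 k213 6 7), (.s k29 k209 9 (.s k12 k46 4 (.s k4 k8 1 (.d k166 k247 k243 12 14))))] (.c
  k42 (.q k234 [(.d k213 k192 k21 6 7), (.s k29 k209 9 (.s k12 k46 4 (.s k4 k8 1 (.d k166 k247 k243
  12 14))))] .n) (.c k234 (.l (.s k42 k21 6 (.s k29 k209 9 (.s k12 k46 4 (.s k4 k8 1 (.d k166 k247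
  k243 12 14)))))) .n)))) .n))) (.c k162 (.l (.s k93 k81 1 (.s k12 k174 12 (.s k166 k243 14 (.d k4
  k8 k247 1 12))))) (.c k166 (.f k81 k93 1 (.q k83 [(.s k80 k82 0 (.s k86 k92 2 (.s k87 k84 0 (.d
  k95 k91 k90 1 2)))), (.s k80 k82 0 (.s k240 k160 11 (.s k245 k250 2 (.s k165 k5 11 (.s k241 k13 13
  (.d k243 k162 k242 12 0)))))), (.s k86 k92 2 (.s k84 k87 0 (.s k252 k168 13 (.s k169 k3 14 (.d
  k253 k254 k1 0 13)))))] (.c k80 (.l (.s k86 k92 2 (.s k84 k87 0 (.s k252 k168 13 (.s k169 k3 14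
  (.d k253 k254 k1 0 13)))))) (.c k162 (.q k174 [(.s k80 k82 0 (.s k86 k92 2 (.s k87 k84 0 (.d k95
  k91 k90 1 2)))), (.s k80 k82 0 (.s k240 k160 11 (.s k245 k250 2 (.s k165 k5 11 (.s k241 k13 13 (.s
  k253 k249 1 (.d k1 k161 k169 11 13))))))), (.s k86 k92 2 (.s k84 k87 0 (.s k252 k168 13 (.s k169
  k3 14 (.d k253 k254 k1 0 13)))))] (.c k80 (.l (.s k86 k92 2 (.s k84 k87 0 (.s k252 k168 13 (.s
  k169 k3 14 (.d k253 k254 k1 0 13)))))) .n)) (.c k174 (.l (.s k162 k243 12 (.s k80 k82 0 (.s k86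
  k92 2 (.s k87 k84 0 (.d k95 k91 k90 1 2)))))) .n))))) (.c k174 (.l (.s k81 k93 1 (.s k243 k162 12
  (.s k166 k12 14 (.d k247 k251 k4 1 12))))) (.c k243 (.q k1 [(.s k3 k2 0 (.s k87 k171 13 (.s k169
  k253 13 (.d k86 k84 k252 0 14)))), (.s k81 k93 1 (.s k169 k253 13 (.s k9 k249 11 (.s k13 k5 1 (.d
  k241 k161 k165 11 13))))), (.s k3 k2 0 (.s k93 k81 1 (.s k12 k174 12 (.s k8 k4 1 (.s k9 k6 2 (.s
  k5 k13 1 (.d k10 k11 k15 0 2)))))))] .n) (.c k247 (.q k87 [(.s k3 k171 13 (.s k1 k2 0 (.s k169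
  k253 13 (.d k86 k84 k252 0 14)))), (.s k81 k93 1 (.s k86 k84 0 (.s k83 k92 2 (.s k80 k82 0 (.d k95
  k91 k90 1 2))))), (.s k3 k171 13 (.s k81 k93 1 (.s k243 k162 12 (.s k83 k163 11 (.s k80 k82 0 (.d
  k95 k91 k90 1 2))))))] .n) .n))))))))))))

def t7_90 : T TT 256 :=
  (.f k170 k255 14 (.q k3 [(.s k1 k2 0 (.s k169 k253 13 (.s k168 k171 0 (.d k252 k84 k86 13 14))))]
  (.c k1 (.q k136 [(.s k153 k187 4 (.s k17 k221 9 (.s k51 k34 4 (.d k204 k68 k102 9 14)))), (.s k204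
  k68 9 (.s k137 k70 10 (.s k138 k139 0 (.s k154 k186 3 (.s k16 k223 10 (.s k48 k32 3 (.d k207 k69
  k101 10 14)))))))] (.c k68 (.l (.s k153 k187 4 (.s k17 k221 9 (.s k51 k34 4 (.s k19 k35 3 (.s k86
  k220 10 (.s k84 k87 0 (.d k252 k168 k169 13 14)))))))) (.c k204 (.f k153 k187 4 (.q k51 [(.d k17
  k221 k34 9 4), (.s k19 k35 3 (.s k86 k220 10 (.s k84 k87 0 (.d k252 k168 k169 13 14))))] (.c k221
  (.q k238 [(.d k34 k17 k102 4 9), (.s k19 k35 3 (.s k86 k220 10 (.s k84 k87 0 (.d k252 k168 k169 13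
  14))))] .n) (.c k238 (.l (.s k221 k17 9 (.s k19 k35 3 (.s k86 k220 10 (.s k84 k87 0 (.d k252 k168
  k169 13 14)))))) .n)))) .n))) (.c k2 (.q k128 [(.s k149 k191 6 (.s k21 k213 7 (.s k192 k64 7 (.d
  k63 k42 k106 6 14)))), (.s k192 k64 7 (.s k129 k66 8 (.s k130 k131 0 (.s k150 k190 5 (.s k20 k215
  8 (.s k60 k40 5 (.d k195 k65 k105 8 14)))))))] (.c k64 (.l (.s k149 k191 6 (.s k21 k213 7 (.s k63
  k42 6 (.s k23 k43 5 (.s k86 k212 8 (.s k84 k87 0 (.d k252 k168 k169 13 14)))))))) (.c k192 (.f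
  k149 k191 6 (.q k63 [(.d k21 k213 k42 7 6), (.s k23 k43 5 (.s k86 k212 8 (.s k84 k87 0 (.d k252
  k168 k169 13 14))))] (.c k213 (.q k234 [(.d k42 k21 k106 6 7), (.s k23 k43 5 (.s k86 k212 8 (.s
  k84 k87 0 (.d k252 k168 k169 13 14))))] .n) (.c k234 (.l (.s k213 k21 7 (.s k23 k43 5 (.s k86 k212
  8 (.s k84 k87 0 (.d k252 k168 k169 13 14)))))) .n)))) .n))) (.c k84 (.q k4 [(.s k12 k8 1 (.s k166
  k247 12 (.s k162 k174 1 (.d k243 k81 k89 12 14)))), (.s k2 k1 0 (.s k12 k8 1 (.s k6 k9 2 (.s k86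
  k254 13 (.d k166 k246 k247 11 12))))), (.s k1 k2 0 (.s k166 k247 12 (.s k169 k253 13 (.s k163 k172
  2 (.s k243 k83 11 (.d k162 k174 k81 1 12))))))] (.c k166 (.l (.s k1 k2 0 (.s k8 k12 1 (.s k89 k251
  12 (.s k169 k253 13 (.s k9 k249 11 (.s k5 k13 1 (.d k10 k15 k11 2 0)))))))) (.c k247 (.l (.s k1 k2
  0 (.s k12 k8 1 (.s k9 k6 2 (.s k169 k253 13 (.s k89 k249 11 (.s k81 k93 1 (.d k243 k162 k166 12
  14)))))))) .n))) (.c k86 (.q k165 [(.s k1 k2 0 (.s k160 k175 2 (.s k169 k253 13 (.s k240 k80 11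
  (.d k161 k82 k173 12 1))))), (.s k1 k2 0 (.s k5 k245 11 (.s k9 k13 1 (.s k12 k6 2 (.s k8 k4 1 (.d
  k10 k11 k15 0 2))))))] (.c k1 (.f k175 k160 2 (.q k47 [(.s k106 k224 10 (.s k42 k234 7 (.s k239
  k111 7 (.d k32 k37 k101 2 10)))), (.s k5 k245 11 (.s k15 k10 2 (.s k63 k31 3 (.s k42 k21 6 (.d
  k106 k234 k224 7 10))))), (.s k5 k245 11 (.s k15 k10 2 (.s k63 k31 3 (.s k42 k21 6 (.s k32 k37 2
  (.d k239 k111 k101 7 10))))))] (.c k42 (.l (.s k224 k106 10 (.s k239 k111 7 (.s k101 k32 10 (.d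
  k229 k234 k37 2 7))))) (.c k82 (.q k94 [(.s k106 k224 10 (.s k42 k234 7 (.s k239 k111 7 (.d k32
  k37 k101 2 10)))), (.s k5 k245 11 (.s k15 k10 2 (.s k63 k31 3 (.s k42 k21 6 (.d k106 k234 k224 7
  10))))), (.s k5 k245 11 (.s k15 k10 2 (.s k63 k31 3 (.s k42 k21 6 (.s k32 k37 2 (.d k239 k111 k101
  7 10))))))] (.c k42 (.l (.s k224 k106 10 (.s k239 k111 7 (.s k101 k32 10 (.d k229 k234 k37 2
  7))))) .n)) (.c k94 (.q k82 [(.s k106 k224 10 (.s k42 k234 7 (.s k239 k111 7 (.d k32 k37 k101 2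
  10)))), (.s k5 k245 11 (.s k15 k10 2 (.s k63 k31 3 (.s k42 k21 6 (.d k106 k234 k224 7 10))))), (.s
  k5 k245 11 (.s k15 k10 2 (.s k63 k31 3 (.s k42 k21 6 (.s k32 k37 2 (.d k239 k111 k101 7 10))))))]
  (.c k42 (.l (.s k224 k106 10 (.s k239 k111 7 (.s k101 k32 10 (.d k229 k234 k37 2 7))))) .n))
  .n))))) (.c k2 (.q k82 [(.s k240 k161 12 (.d k160 k175 k80 2 11)), (.s k161 k240 12 (.s k169 k173
  1 (.s k1 k253 13 (.s k81 k241 11 (.s k83 k80 0 (.d k243 k163 k162 11 12))))))] (.c k80 (.l (.s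
  k160 k175 2 (.s k161 k240 12 (.s k162 k163 0 (.s k81 k243 12 (.s k89 k93 1 (.d k241 k1 k13 11
  13))))))) (.c k161 (.l (.s k160 k175 2 (.s k80 k240 11 (.s k81 k83 0 (.s k89 k93 1 (.s k8 k251 12
  (.s k12 k4 1 (.d k243 k162 k166 12 14)))))))) (.c k240 (.q k51 [(.s k34 k17 4 (.s k102 k238 9 (.s
  k68 k119 4 (.d k204 k136 k153 9 14)))), (.s k19 k35 3 (.s k145 k208 8 (.s k192 k98 12 (.s k64 k128
  7 (.s k106 k127 6 (.s k42 k234 7 (.d k63 k149 k21 14 6)))))))] (.c k245 (.q k250 [(.s k34 k17 4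
  (.s k102 k238 9 (.s k68 k119 4 (.d k204 k136 k153 9 14)))), (.s k19 k35 3 (.s k145 k208 8 (.s k192
  k98 12 (.s k64 k128 7 (.s k106 k127 6 (.s k42 k234 7 (.d k63 k149 k21 14 6)))))))] .n) (.c k250
  (.l (.s k245 k5 11 (.s k17 k34 4 (.s k153 k221 9 (.s k136 k187 4 (.d k204 k68 k102 9 14))))))
  .n))) .n)))) (.c k15 (.l (.s k1 k2 0 (.s k5 k245 11 (.s k13 k9 1 (.s k89 k241 13 (.s k93 k81 1 (.d
  k253 k173 k169 11 13))))))) (.c k82 (.q k94 [(.s k1 k2 0 (.s k169 k253 13 (.s k168 k171 0 (.s k173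
  k161 1 (.d k252 k15 k84 12 13))))), (.s k1 k2 0 (.s k5 k245 11 (.s k9 k13 1 (.s k10 k15 2 (.s k12
  k6 2 (.d k8 k11 k4 0 1)))))), (.s k5 k245 11 (.s k15 k10 2 (.s k173 k252 12 (.s k169 k161 1 (.d k1
  k253 k2 13 0)))))] (.c k1 (.q k4 [(.s k12 k8 1 (.s k166 k247 12 (.s k162 k174 1 (.d k243 k81 k89
  12 14)))), (.s k12 k8 1 (.s k160 k175 2 (.s k240 k80 11 (.s k164 k88 13 (.s k84 k244 11 (.d k168
  k172 k252 1 13)))))), (.s k160 k175 2 (.s k166 k247 12 (.s k162 k174 1 (.s k163 k161 0 (.d k243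
  k81 k83 12 11)))))] (.c k12 (.l (.s k5 k245 11 (.s k15 k10 2 (.s k166 k247 12 (.s k167 k164 0 (.s
  k243 k91 13 (.d k162 k174 k81 1 12))))))) (.c k81 (.l (.s k5 k245 11 (.s k12 k8 1 (.s k15 k10 2
  (.s k13 k14 0 (.s k166 k247 12 (.d k89 k243 k241 14 13))))))) .n))) (.c k2 (.f k5 k245 11 (.l (.s
  k15 k10 2 (.s k173 k252 12 (.s k169 k161 1 (.s k171 k168 0 (.s k175 k160 2 (.s k163 k167 1 (.d
  k172 k174 k166 0 2))))))))) (.c k15 (.l (.s k1 k2 0 (.s k5 k245 11 (.s k13 k9 1 (.s k89 k241 13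
  (.s k93 k81 1 (.d k253 k173 k169 11 13))))))) .n)))) (.c k94 (.q k82 [(.s k240 k161 12 (.d k160
  k175 k80 2 11)), (.s k1 k2 0 (.s k161 k240 12 (.d k169 k173 k253 1 13)))] (.c k161 (.l (.s k2 k1 0
  (.s k160 k175 2 (.s k80 k240 11 (.s k81 k83 0 (.d k162 k242 k243 11 12)))))) (.c k240 (.l (.s k2
  k1 0 (.s k160 k175 2 (.s k162 k242 11 (.s k163 k161 0 (.d k243 k81 k83 12 11)))))) .n))) (.c k240
  (.l (.s k1 k2 0 (.s k160 k175 2 (.s k169 k253 13 (.s k161 k173 1 (.s k81 k241 11 (.d k162 k243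
  k163 12 0))))))) .n))))))) (.c k168 (.q k4 [(.s k166 k247 12 (.s k162 k174 1 (.s k243 k81 12 (.d
  k12 k8 k89 1 14)))), (.s k2 k1 0 (.s k12 k8 1 (.s k6 k9 2 (.s k86 k254 13 (.d k166 k246 k247 11
  12))))), (.s k1 k2 0 (.s k166 k247 12 (.s k169 k253 13 (.s k163 k172 2 (.s k243 k83 11 (.d k162
  k174 k81 1 12))))))] (.c k166 (.l (.s k1 k2 0 (.s k8 k12 1 (.s k89 k251 12 (.s k169 k253 13 (.s k9
  k249 11 (.s k5 k13 1 (.d k10 k15 k11 2 0)))))))) (.c k247 (.l (.s k1 k2 0 (.s k12 k8 1 (.s k9 k6 2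
  (.s k169 k253 13 (.s k89 k249 11 (.s k81 k93 1 (.d k243 k162 k166 12 14)))))))) .n))) (.c k169 (.f
  k2 k1 0 (.q k65 [(.s k105 k125 5 (.s k40 k235 8 (.s k60 k20 5 (.d k195 k130 k150 8 14)))), (.s
  k130 k195 8 (.s k66 k194 7 (.s k64 k67 0 (.d k192 k128 k129 7 8)))), (.s k86 k254 13 (.s k87 k84 0
  (.s k105 k125 5 (.s k67 k124 6 (.s k64 k66 0 (.d k127 k107 k106 5 6))))))] (.c k11 (.q k248 [(.s
  k105 k125 5 (.s k40 k235 8 (.s k60 k20 5 (.d k195 k130 k150 8 14)))), (.s k130 k195 8 (.s k66 k194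
  7 (.s k64 k67 0 (.d k192 k128 k129 7 8)))), (.s k86 k254 13 (.s k87 k84 0 (.s k105 k125 5 (.s k67
  k124 6 (.s k64 k66 0 (.d k127 k107 k106 5 6))))))] .n) (.c k248 (.q k11 [(.s k105 k125 5 (.s k40
  k235 8 (.s k60 k20 5 (.d k195 k130 k150 8 14)))), (.s k130 k195 8 (.s k66 k194 7 (.s k64 k67 0 (.d
  k192 k128 k129 7 8)))), (.s k86 k254 13 (.s k87 k84 0 (.s k105 k125 5 (.s k67 k124 6 (.s k64 k66 0
  (.d k127 k107 k106 5 6))))))] .n) .n)))) (.c k171 (.l (.s k2 k1 0 (.s k86 k254 13 (.s k84 k87 0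
  (.d k252 k168 k169 13 14))))) (.c k252 (.f k2 k1 0 (.q k70 [(.s k138 k206 9 (.s k154 k186 3 (.s
  k16 k223 10 (.s k48 k32 3 (.d k207 k69 k101 10 14))))), (.s k204 k137 10 (.s k136 k68 9 (.s k153
  k187 4 (.s k17 k221 9 (.d k51 k34 k102 4 14)))))] (.c k69 (.l (.s k138 k206 9 (.s k154 k186 3 (.s
  k16 k223 10 (.s k48 k32 3 (.s k18 k33 4 (.d k86 k222 k254 9 13))))))) (.c k253 (.l (.s k254 k86 13
  (.s k137 k204 10 (.s k138 k206 9 (.s k139 k136 0 (.d k207 k71 k69 9 10)))))) (.c k254 (.q k253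
  [(.s k204 k137 10 (.s k68 k136 9 (.s k69 k71 0 (.d k138 k206 k207 9 10)))), (.s k138 k206 9 (.s
  k154 k186 3 (.s k16 k223 10 (.s k48 k32 3 (.d k207 k69 k101 10 14))))), (.s k204 k137 10 (.s k136
  k68 9 (.s k153 k187 4 (.s k17 k221 9 (.d k51 k34 k102 4 14)))))] (.c k69 (.l (.s k206 k138 9 (.s
  k204 k137 10 (.s k205 k207 0 (.s k136 k68 9 (.s k153 k187 4 (.d k221 k237 k17 3 9))))))) .n))
  .n))))) (.c k253 (.l (.s k2 k1 0 (.s k86 k254 13 (.s k252 k169 14 (.d k84 k87 k168 0 13))))) (.c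
  k254 (.l (.s k1 k2 0 (.s k169 k253 13 (.s k252 k86 14 (.d k168 k171 k84 0 13))))) .n))))))))))))

def t7_91 : T TT 256 :=
  (.f k255 k170 14 (.q k106 [(.s k64 k127 6 (.s k192 k128 7 (.s k149 k63 14 (.d k213 k234 k21 6
  7))))] (.c k21 (.q k1 [(.s k3 k2 0 (.s k169 k253 13 (.s k86 k252 14 (.d k87 k84 k171 0 13)))), (.s
  k64 k127 6 (.s k192 k128 7 (.s k213 k234 6 (.s k253 k169 13 (.s k193 k233 5 (.s k65 k129 7 (.d
  k195 k130 k194 8 0))))))), (.s k3 k2 0 (.s k64 k127 6 (.s k192 k128 7 (.s k66 k129 8 (.s k86 k126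
  5 (.d k87 k84 k171 0 13))))))] (.c k171 (.l (.s k3 k2 0 (.s k127 k64 6 (.s k63 k191 7 (.s k43 k23
  5 (.d k169 k232 k253 8 13)))))) .n)) (.c k63 (.q k1 [(.s k3 k2 0 (.s k169 k253 13 (.s k86 k252 14
  (.d k87 k84 k171 0 13)))), (.s k64 k127 6 (.s k192 k128 7 (.s k213 k234 6 (.s k253 k169 13 (.s
  k193 k233 5 (.s k65 k129 7 (.d k195 k130 k194 8 0))))))), (.s k64 k127 6 (.s k169 k253 13 (.s k192
  k128 7 (.s k232 k43 8 (.s k252 k212 5 (.s k84 k168 13 (.d k86 k3 k87 14 0))))))), (.s k3 k2 0 (.s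
  k64 k127 6 (.s k192 k128 7 (.s k66 k129 8 (.s k86 k126 5 (.d k87 k84 k171 0 13))))))] .n) (.c k64
  (.q k60 [(.s k20 k40 5 (.s k125 k190 8 (.s k150 k215 8 (.d k105 k65 k195 5 14)))), (.s k20 k40 5
  (.s k150 k215 8 (.s k62 k194 13 (.s k63 k61 0 (.s k21 k42 6 (.d k149 k213 k192 7 14)))))), (.s
  k125 k190 8 (.s k105 k65 5 (.s k104 k107 0 (.s k192 k148 13 (.s k149 k63 14 (.d k213 k234 k21 6
  7))))))] (.c k105 (.q k87 [(.s k3 k171 13 (.s k1 k2 0 (.s k169 k253 13 (.d k86 k84 k252 0 14)))),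
  (.s k86 k84 0 (.s k126 k66 5 (.s k190 k125 8 (.s k62 k254 7 (.s k150 k194 13 (.d k20 k40 k215 5
  8)))))), (.s k3 k171 13 (.s k2 k1 0 (.s k22 k41 6 (.s k42 k62 5 (.s k21 k63 6 (.d k20 k40 k23 5
  0))))))] (.c k2 (.l (.s k3 k171 13 (.s k22 k41 6 (.s k86 k84 0 (.s k150 k214 7 (.d k20 k40 k215 5
  8)))))) (.c k40 (.q k235 [(.s k3 k171 13 (.s k1 k2 0 (.s k169 k253 13 (.d k86 k84 k252 0 14)))),
  (.s k86 k84 0 (.s k126 k66 5 (.s k190 k125 8 (.s k62 k254 7 (.s k150 k194 13 (.d k215 k195 k20 5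
  8)))))), (.s k3 k171 13 (.s k22 k41 6 (.s k215 k195 5 (.s k20 k150 8 (.d k23 k21 k151 0 7)))))]
  .n) (.c k235 (.l (.s k40 k20 5 (.s k3 k171 13 (.s k1 k2 0 (.s k86 k84 0 (.d k169 k253 k252 13
  14)))))) .n)))) (.c k150 (.q k149 [(.s k21 k213 7 (.d k63 k42 k192 6 14)), (.s k63 k192 14 (.s k61
  k62 0 (.s k105 k193 13 (.d k125 k190 k65 8 5))))] (.c k63 (.l (.s k213 k21 7 (.s k192 k234 6 (.s
  k104 k148 13 (.s k105 k107 0 (.d k125 k65 k190 5 8)))))) (.c k130 (.l (.s k190 k125 8 (.s k21 k213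
  7 (.d k63 k42 k192 6 14)))) (.c k190 (.q k130 [(.s k21 k213 7 (.d k63 k42 k192 6 14)), (.s k63
  k192 14 (.s k61 k62 0 (.s k65 k195 8 (.d k105 k193 k125 13 5))))] (.c k63 (.l (.s k65 k195 8 (.s
  k105 k125 5 (.s k213 k21 7 (.s k192 k234 6 (.d k104 k107 k148 0 13)))))) (.c k192 (.l (.s k21 k213
  7 (.s k63 k42 6 (.s k61 k62 0 (.s k65 k195 8 (.d k105 k193 k125 13 5)))))) .n))) (.c k192 (.l (.s
  k21 k213 7 (.s k63 k42 6 (.s k61 k62 0 (.s k105 k193 13 (.d k125 k65 k190 5 8)))))) .n))))) .n)))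
  (.c k127 (.q k195 [(.s k65 k130 8 (.s k215 k235 5 (.s k150 k20 8 (.d k105 k125 k60 5 14)))), (.s
  k65 k130 8 (.s k105 k125 5 (.s k107 k104 0 (.s k63 k151 13 (.s k21 k42 6 (.d k149 k213 k192 7
  14)))))), (.s k215 k235 5 (.s k150 k20 8 (.s k194 k62 13 (.s k192 k193 0 (.s k149 k63 14 (.d k213
  k234 k21 6 7))))))] (.c k105 (.q k149 [(.s k21 k213 7 (.d k63 k42 k192 6 14)), (.s k63 k192 14 (.s
  k151 k107 13 (.s k150 k148 0 (.d k215 k235 k20 5 8))))] (.c k40 (.l (.s k235 k215 5 (.s k21 k213 7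
  (.d k63 k42 k192 6 14)))) (.c k63 (.l (.s k213 k21 7 (.s k192 k234 6 (.s k194 k193 0 (.s k150 k62
  13 (.d k215 k235 k20 5 8)))))) (.c k192 (.l (.s k21 k213 7 (.s k63 k42 6 (.s k151 k107 13 (.s k150
  k148 0 (.d k215 k235 k20 5 8)))))) (.c k235 (.q k40 [(.s k21 k213 7 (.d k63 k42 k192 6 14)), (.s
  k20 k60 5 (.s k63 k192 14 (.s k150 k215 8 (.d k151 k148 k107 0 13))))] (.c k63 (.l (.s k20 k60 5
  (.s k150 k215 8 (.s k213 k21 7 (.s k192 k234 6 (.d k194 k62 k193 13 0)))))) (.c k192 (.l (.s k20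
  k60 5 (.s k21 k213 7 (.s k63 k42 6 (.s k150 k215 8 (.d k151 k148 k107 0 13)))))) .n))) .n))))) (.c
  k150 (.q k149 [(.s k21 k213 7 (.d k63 k42 k192 6 14)), (.s k63 k192 14 (.s k107 k151 13 (.s k105
  k104 0 (.d k65 k130 k125 8 5))))] (.c k63 (.l (.s k213 k21 7 (.s k192 k234 6 (.s k193 k194 0 (.s
  k105 k61 13 (.d k65 k125 k130 5 8)))))) (.c k130 (.q k190 [(.s k21 k213 7 (.d k63 k42 k192 6 14)),
  (.s k63 k192 14 (.s k107 k151 13 (.s k105 k104 0 (.d k125 k60 k65 8 5))))] (.c k63 (.l (.s k125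
  k60 8 (.s k105 k65 5 (.s k213 k21 7 (.s k192 k234 6 (.d k193 k61 k194 13 0)))))) (.c k192 (.l (.s
  k21 k213 7 (.s k63 k42 6 (.s k107 k151 13 (.s k105 k104 0 (.d k125 k60 k65 8 5)))))) .n))) (.c
  k190 (.l (.s k130 k65 8 (.s k21 k213 7 (.d k63 k42 k192 6 14)))) (.c k192 (.l (.s k21 k213 7 (.s
  k63 k42 6 (.s k107 k151 13 (.s k105 k104 0 (.d k65 k125 k130 5 8)))))) .n))))) .n))) (.c k128 (.l
  (.s k127 k64 6 (.s k63 k191 7 (.s k149 k192 14 (.d k21 k42 k213 6 7))))) (.c k149 (.f k64 k127 6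
  (.q k101 [(.s k69 k117 3 (.s k79 k74 2 (.s k96 k111 2 (.d k112 k80 k90 3 6)))), (.s k69 k117 3 (.s
  k207 k138 10 (.s k154 k48 14 (.d k223 k239 k16 3 10)))), (.s k96 k111 2 (.s k117 k69 3 (.s k48
  k186 10 (.d k192 k128 k144 7 11))))] (.c k69 (.l (.s k96 k111 2 (.s k80 k112 3 (.s k160 k240 11
  (.s k32 k224 7 (.s k48 k16 3 (.d k192 k128 k144 7 11))))))) (.c k117 (.l (.s k96 k111 2 (.s k112
  k80 3 (.s k79 k90 6 (.s k69 k74 2 (.s k207 k138 10 (.s k154 k48 14 (.d k223 k239 k16 3 10))))))))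
  (.c k128 (.q k191 [(.s k69 k117 3 (.s k79 k74 2 (.s k96 k111 2 (.d k112 k80 k90 3 6)))), (.s k117
  k69 3 (.s k48 k186 10 (.s k16 k32 3 (.d k154 k223 k207 10 14))))] (.c k69 (.l (.s k96 k111 2 (.s
  k80 k112 3 (.s k240 k160 11 (.s k245 k250 2 (.s k165 k5 11 (.d k90 k95 k15 2 14))))))) (.c k117
  (.l (.s k96 k111 2 (.s k112 k80 3 (.s k79 k90 6 (.s k69 k74 2 (.s k207 k138 10 (.s k154 k48 14 (.d
  k223 k239 k16 3 10)))))))) .n))) (.c k191 (.l (.s k128 k192 7 (.s k69 k117 3 (.s k79 k74 2 (.s k96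
  k111 2 (.d k112 k80 k90 3 6)))))) .n)))))) (.c k191 (.l (.s k64 k127 6 (.s k192 k128 7 (.s k149
  k63 14 (.d k213 k234 k21 6 7))))) (.c k192 (.q k1 [(.s k3 k2 0 (.s k169 k253 13 (.s k86 k252 14
  (.d k87 k84 k171 0 13)))), (.s k127 k64 6 (.s k63 k191 7 (.s k21 k42 6 (.s k61 k41 5 (.s k253 k169
  13 (.s k125 k189 7 (.d k60 k190 k62 8 0))))))), (.s k3 k2 0 (.s k127 k64 6 (.s k63 k191 7 (.s k21
  k42 6 (.s k23 k43 5 (.s k22 k20 0 (.d k41 k61 k60 5 6)))))))] .n) (.c k213 (.q k1 [(.s k3 k2 0 (.s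
  k169 k253 13 (.s k86 k252 14 (.d k87 k84 k171 0 13)))), (.s k127 k64 6 (.s k63 k191 7 (.s k21 k42
  6 (.s k61 k41 5 (.s k60 k62 0 (.s k125 k190 8 (.d k253 k189 k169 7 13))))))), (.s k64 k127 6 (.s
  k169 k253 13 (.s k192 k128 7 (.s k149 k63 14 (.s k129 k189 5 (.s k66 k3 8 (.d k65 k193 k67 7
  0))))))), (.s k3 k2 0 (.s k64 k127 6 (.s k192 k128 7 (.s k66 k129 8 (.s k86 k126 5 (.d k87 k84
  k171 0 13))))))] .n) (.c k234 (.l (.s k127 k64 6 (.s k63 k191 7 (.s k21 k42 6 (.d k149 k213 k192 7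
  14))))) .n))))))))))))

def t7_94 : T TT 256 :=
  (.f k255 k170 14 (.q k106 [(.s k64 k127 6 (.s k192 k128 7 (.s k149 k63 14 (.d k213 k234 k21 6
  7))))] (.c k21 (.q k1 [(.s k3 k2 0 (.s k87 k171 13 (.s k86 k84 0 (.d k169 k253 k252 13 14)))), (.s
  k64 k127 6 (.s k169 k253 13 (.s k192 k128 7 (.s k149 k63 14 (.s k129 k189 5 (.s k65 k193 7 (.d k66
  k67 k3 0 8))))))), (.s k3 k2 0 (.s k64 k127 6 (.s k192 k128 7 (.s k66 k129 8 (.s k86 k126 5 (.d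
  k87 k84 k171 0 13))))))] (.c k3 (.l (.s k64 k127 6 (.s k192 k128 7 (.s k213 k234 6 (.s k253 k169
  13 (.s k193 k233 5 (.s k65 k129 7 (.d k195 k130 k194 8 0)))))))) .n)) (.c k63 (.q k1 [(.s k3 k2 0
  (.s k87 k171 13 (.s k86 k84 0 (.d k169 k253 k252 13 14)))), (.s k64 k127 6 (.s k192 k128 7 (.s
  k213 k234 6 (.s k253 k169 13 (.s k193 k233 5 (.s k65 k129 7 (.d k195 k130 k194 8 0))))))), (.s k3
  k2 0 (.s k64 k127 6 (.s k192 k128 7 (.s k66 k129 8 (.s k86 k126 5 (.d k87 k84 k171 0 13))))))] (.c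
  k171 (.l (.s k3 k2 0 (.s k64 k127 6 (.s k169 k253 13 (.s k86 k252 14 (.s k192 k128 7 (.d k66 k126
  k129 5 8))))))) .n)) (.c k64 (.q k240 [(.s k80 k160 11 (.s k90 k95 2 (.s k245 k250 2 (.d k165 k5
  k15 11 14)))), (.s k245 k250 2 (.s k165 k5 11 (.s k224 k47 10 (.s k192 k208 3 (.s k149 k63 14 (.d
  k213 k234 k21 6 7)))))), (.s k80 k160 11 (.s k90 k95 2 (.s k122 k74 3 (.s k63 k181 10 (.s k21 k42
  6 (.d k149 k213 k192 7 14))))))] (.c k90 (.f k250 k245 2 (.q k3 [(.s k1 k2 0 (.s k87 k171 13 (.s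
  k86 k84 0 (.d k169 k253 k252 13 14)))), (.s k2 k1 0 (.s k80 k160 11 (.s k82 k161 12 (.s k81 k83 0
  (.d k162 k242 k243 11 12))))), (.s k87 k171 13 (.s k86 k84 0 (.s k66 k126 5 (.s k192 k129 8 (.s
  k149 k63 14 (.d k213 k234 k21 6 7))))))] (.c k82 (.q k86 [(.d k87 k84 k171 0 13), (.s k1 k2 0 (.d
  k169 k253 k252 13 14))] .n) (.c k86 (.l (.s k82 k161 12 (.s k2 k1 0 (.s k80 k160 11 (.s k81 k83 0
  (.d k162 k242 k243 11 12)))))) .n)))) (.c k165 (.q k244 [(.s k252 k248 1 (.s k84 k168 13 (.s k164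
  k4 11 (.s k88 k12 13 (.d k80 k160 k92 11 1))))), (.s k245 k250 2 (.s k246 k247 0 (.s k252 k248 1
  (.s k249 k243 2 (.d k253 k254 k241 0 1))))), (.s k245 k250 2 (.s k247 k246 0 (.s k4 k166 12 (.s
  k12 k8 1 (.d k164 k84 k88 11 13)))))] (.c k160 (.q k175 [(.s k245 k250 2 (.s k246 k247 0 (.s k252
  k248 1 (.s k249 k243 2 (.d k253 k254 k241 0 1))))), (.s k252 k248 1 (.s k84 k168 13 (.s k253 k254
  0 (.s k169 k1 13 (.d k86 k87 k3 0 14))))), (.s k245 k250 2 (.s k247 k246 0 (.s k4 k166 12 (.s k12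
  k8 1 (.d k164 k84 k88 11 13)))))] (.c k254 (.l (.s k95 k15 11 (.s k80 k90 2 (.s k252 k248 1 (.s
  k84 k168 13 (.s k88 k92 1 (.d k164 k4 k12 11 13))))))) .n)) (.c k175 (.l (.s k160 k80 11 (.s k245
  k250 2 (.s k246 k247 0 (.s k252 k248 1 (.s k249 k243 2 (.d k253 k254 k241 0 1))))))) .n))) .n)))
  (.c k127 (.q k195 [(.s k65 k130 8 (.s k215 k235 5 (.s k150 k20 8 (.d k105 k125 k60 5 14)))), (.s
  k65 k130 8 (.s k105 k125 5 (.s k107 k104 0 (.s k63 k151 13 (.s k21 k42 6 (.d k149 k213 k192 7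
  14)))))), (.s k215 k235 5 (.s k150 k20 8 (.s k194 k62 13 (.s k192 k193 0 (.s k149 k63 14 (.d k213
  k234 k21 6 7))))))] (.c k105 (.q k149 [(.s k21 k213 7 (.d k63 k42 k192 6 14)), (.s k63 k192 14 (.s
  k151 k107 13 (.s k150 k148 0 (.d k215 k235 k20 5 8))))] (.c k40 (.l (.s k235 k215 5 (.s k21 k213 7
  (.d k63 k42 k192 6 14)))) (.c k63 (.l (.s k213 k21 7 (.s k192 k234 6 (.s k194 k193 0 (.s k150 k62
  13 (.d k215 k235 k20 5 8)))))) (.c k192 (.l (.s k21 k213 7 (.s k63 k42 6 (.s k151 k107 13 (.s k150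
  k148 0 (.d k215 k235 k20 5 8)))))) (.c k235 (.q k40 [(.s k21 k213 7 (.d k63 k42 k192 6 14)), (.s
  k20 k60 5 (.s k63 k192 14 (.s k150 k215 8 (.d k151 k148 k107 0 13))))] (.c k63 (.l (.s k20 k60 5
  (.s k150 k215 8 (.s k213 k21 7 (.s k192 k234 6 (.d k194 k62 k193 13 0)))))) (.c k192 (.l (.s k20
  k60 5 (.s k21 k213 7 (.s k63 k42 6 (.s k150 k215 8 (.d k151 k148 k107 0 13)))))) .n))) .n))))) (.c
  k150 (.q k149 [(.s k21 k213 7 (.d k63 k42 k192 6 14)), (.s k63 k192 14 (.s k107 k151 13 (.s k105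
  k104 0 (.d k65 k130 k125 8 5))))] (.c k63 (.l (.s k213 k21 7 (.s k192 k234 6 (.s k193 k194 0 (.s
  k105 k61 13 (.d k65 k125 k130 5 8)))))) (.c k130 (.q k190 [(.s k21 k213 7 (.d k63 k42 k192 6 14)),
  (.s k63 k192 14 (.s k107 k151 13 (.s k105 k104 0 (.d k125 k60 k65 8 5))))] (.c k63 (.l (.s k125
  k60 8 (.s k105 k65 5 (.s k213 k21 7 (.s k192 k234 6 (.d k193 k61 k194 13 0)))))) (.c k192 (.l (.s
  k21 k213 7 (.s k63 k42 6 (.s k107 k151 13 (.s k105 k104 0 (.d k125 k60 k65 8 5)))))) .n))) (.c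
  k190 (.l (.s k130 k65 8 (.s k21 k213 7 (.d k63 k42 k192 6 14)))) (.c k192 (.l (.s k21 k213 7 (.s
  k63 k42 6 (.s k107 k151 13 (.s k105 k104 0 (.d k65 k125 k130 5 8)))))) .n))))) .n))) (.c k128 (.l
  (.s k127 k64 6 (.s k63 k191 7 (.s k149 k192 14 (.d k21 k42 k213 6 7))))) (.c k149 (.f k64 k127 6
  (.q k81 [(.s k89 k93 1 (.s k72 k123 4 (.s k76 k68 1 (.d k115 k98 k102 4 6)))), (.s k243 k162 12
  (.s k247 k251 1 (.s k166 k4 12 (.d k89 k93 k12 1 14)))), (.s k98 k115 4 (.s k162 k243 12 (.s k34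
  k226 7 (.s k51 k17 4 (.d k192 k128 k145 7 12)))))] (.c k128 (.q k191 [(.s k89 k93 1 (.s k72 k123 4
  (.s k76 k68 1 (.d k115 k98 k102 4 6)))), (.s k243 k162 12 (.s k247 k251 1 (.s k166 k4 12 (.d k89
  k93 k12 1 14)))), (.s k98 k115 4 (.s k162 k243 12 (.s k34 k226 7 (.s k51 k17 4 (.s k119 k187 9 (.d
  k102 k110 k68 1 4))))))] .n) (.c k191 (.l (.s k128 k192 7 (.s k89 k93 1 (.s k72 k123 4 (.s k76 k68
  1 (.d k115 k98 k102 4 6)))))) .n)))) (.c k191 (.l (.s k64 k127 6 (.s k192 k128 7 (.s k149 k63 14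
  (.d k213 k234 k21 6 7))))) (.c k192 (.q k1 [(.s k3 k2 0 (.s k87 k171 13 (.s k86 k84 0 (.d k169
  k253 k252 13 14)))), (.s k127 k64 6 (.s k63 k191 7 (.s k21 k42 6 (.s k61 k41 5 (.s k253 k169 13
  (.s k125 k189 7 (.d k60 k190 k62 8 0))))))), (.s k3 k2 0 (.s k127 k64 6 (.s k63 k191 7 (.s k21 k42
  6 (.s k23 k43 5 (.s k22 k20 0 (.d k41 k61 k60 5 6)))))))] .n) (.c k213 (.q k1 [(.s k3 k2 0 (.s k87
  k171 13 (.s k86 k84 0 (.d k169 k253 k252 13 14)))), (.s k64 k127 6 (.s k169 k253 13 (.s k192 k128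
  7 (.s k149 k63 14 (.s k129 k189 5 (.s k66 k3 8 (.d k65 k193 k67 7 0))))))), (.s k3 k2 0 (.s k64
  k127 6 (.s k192 k128 7 (.s k66 k129 8 (.s k86 k126 5 (.d k87 k84 k171 0 13))))))] (.c k3 (.l (.s
  k127 k64 6 (.s k63 k191 7 (.s k21 k42 6 (.s k61 k41 5 (.s k60 k62 0 (.s k125 k190 8 (.d k253 k189
  k169 7 13)))))))) .n)) (.c k234 (.l (.s k127 k64 6 (.s k63 k191 7 (.s k21 k42 6 (.d k149 k213 k192
  7 14))))) .n))))))))))))

def t7_95 : T TT 256 :=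
  (.f k255 k170 14 (.q k105 [(.s k65 k125 5 (.s k195 k130 8 (.s k150 k60 14 (.d k215 k235 k20 5
  8))))] (.c k20 (.q k1 [(.s k169 k253 13 (.s k3 k2 0 (.s k86 k252 14 (.d k87 k84 k171 0 13)))), (.s
  k65 k125 5 (.s k169 k253 13 (.s k41 k233 7 (.s k61 k21 5 (.d k193 k129 k149 7 13))))), (.s k3 k2 0
  (.s k65 k125 5 (.s k129 k193 7 (.s k66 k192 8 (.s k67 k64 0 (.d k195 k131 k130 7 8))))))] .n) (.c
  k60 (.q k1 [(.s k3 k2 0 (.s k87 k171 13 (.s k86 k84 0 (.d k169 k253 k252 13 14)))), (.s k65 k125 5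
  (.s k169 k253 13 (.s k41 k233 7 (.s k61 k21 5 (.d k193 k129 k149 7 13))))), (.s k3 k2 0 (.s k65
  k125 5 (.s k129 k193 7 (.s k66 k192 8 (.s k67 k64 0 (.d k195 k131 k130 7 8))))))] .n) (.c k65 (.q
  k1 [(.s k169 k253 13 (.s k3 k2 0 (.s k86 k252 14 (.d k87 k84 k171 0 13)))), (.s k169 k253 13 (.s
  k41 k233 7 (.s k21 k61 5 (.s k63 k42 6 (.s k127 k191 7 (.s k106 k64 6 (.d k149 k213 k192 7
  14)))))))] (.c k169 (.f k3 k2 0 (.q k86 [(.d k87 k171 k84 13 0), (.s k67 k124 6 (.s k195 k131 7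
  (.s k150 k60 14 (.d k215 k235 k20 5 8))))] (.c k168 (.l (.s k171 k87 13 (.s k67 k124 6 (.s k195
  k131 7 (.s k150 k60 14 (.d k215 k235 k20 5 8)))))) (.c k171 (.q k168 [(.d k84 k87 k252 0 13), (.s
  k67 k124 6 (.s k195 k131 7 (.s k215 k235 5 (.d k150 k20 k60 8 14))))] .n) .n)))) (.c k253 (.l (.s
  k3 k2 0 (.s k87 k171 13 (.s k86 k84 0 (.s k67 k124 6 (.s k195 k131 7 (.s k150 k60 14 (.d k215 k235
  k20 5 8)))))))) .n))) (.c k125 (.q k253 [(.s k169 k1 13 (.s k252 k254 0 (.s k84 k168 13 (.d k86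
  k87 k3 0 14)))), (.s k169 k1 13 (.s k233 k41 7 (.s k213 k193 5 (.s k192 k234 6 (.s k64 k128 7 (.s
  k106 k127 6 (.d k149 k21 k63 7 14)))))))] (.c k1 (.l (.s k252 k254 0 (.s k84 k168 13 (.s k86 k87 0
  (.s k124 k67 6 (.s k60 k188 7 (.s k20 k40 5 (.d k150 k215 k195 8 14)))))))) (.c k169 (.f k252 k254
  0 (.q k86 [(.d k84 k168 k87 13 0), (.s k124 k67 6 (.s k60 k188 7 (.s k20 k40 5 (.d k150 k215 k195
  8 14))))] (.c k168 (.q k171 [(.d k87 k84 k3 0 13), (.s k124 k67 6 (.s k60 k188 7 (.s k20 k40 5 (.d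
  k150 k215 k195 8 14))))] .n) (.c k171 (.l (.s k168 k84 13 (.s k124 k67 6 (.s k60 k188 7 (.s k20
  k40 5 (.d k150 k215 k195 8 14)))))) .n)))) .n))) (.c k130 (.l (.s k125 k65 5 (.s k60 k190 8 (.s
  k150 k195 14 (.d k20 k40 k215 5 8))))) (.c k150 (.f k65 k125 5 (.q k73 [(.s k77 k69 1 (.s k89 k121
  3 (.s k81 k93 1 (.d k113 k97 k101 3 5)))), (.s k69 k77 1 (.s k138 k207 10 (.s k8 k203 8 (.s k12 k4
  1 (.d k195 k130 k134 8 10))))), (.s k89 k121 3 (.s k93 k81 1 (.s k12 k174 12 (.d k195 k130 k134 8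
  10))))] (.c k93 (.l (.s k77 k69 1 (.s k89 k121 3 (.s k113 k101 5 (.s k81 k97 3 (.s k243 k162 12
  (.s k166 k12 14 (.d k247 k251 k4 1 12)))))))) (.c k130 (.q k190 [(.s k77 k69 1 (.s k89 k121 3 (.s
  k81 k93 1 (.d k113 k97 k101 3 5)))), (.s k69 k77 1 (.s k207 k138 10 (.s k223 k239 3 (.s k154 k16
  10 (.d k101 k117 k48 3 14))))), (.s k89 k121 3 (.s k93 k81 1 (.s k12 k174 12 (.s k4 k8 1 (.d k166
  k247 k243 12 14)))))] (.c k93 (.l (.s k77 k69 1 (.s k89 k121 3 (.s k113 k101 5 (.s k81 k97 3 (.s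
  k243 k162 12 (.s k166 k12 14 (.d k247 k251 k4 1 12)))))))) (.c k117 (.l (.s k77 k69 1 (.s k89 k121
  3 (.s k113 k101 5 (.d k81 k93 k97 1 3))))) .n))) (.c k190 (.l (.s k130 k195 8 (.s k77 k69 1 (.s
  k89 k121 3 (.s k81 k93 1 (.d k113 k97 k101 3 5)))))) .n))))) (.c k190 (.l (.s k65 k125 5 (.s k195
  k130 8 (.s k150 k60 14 (.d k215 k235 k20 5 8))))) (.c k195 (.q k1 [(.s k3 k2 0 (.s k87 k171 13 (.s
  k86 k84 0 (.d k169 k253 k252 13 14)))), (.s k65 k125 5 (.s k169 k253 13 (.s k41 k233 7 (.s k61 k21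
  5 (.d k193 k129 k149 7 13))))), (.s k3 k2 0 (.s k125 k65 5 (.s k60 k190 8 (.s k40 k20 5 (.s k41
  k22 6 (.s k21 k61 5 (.d k42 k43 k63 0 6)))))))] .n) (.c k215 (.q k1 [(.s k169 k253 13 (.s k3 k2 0
  (.s k86 k252 14 (.d k87 k84 k171 0 13)))), (.s k65 k125 5 (.s k169 k253 13 (.s k41 k233 7 (.s k61
  k21 5 (.d k193 k129 k149 7 13))))), (.s k3 k2 0 (.s k65 k125 5 (.s k129 k193 7 (.s k66 k192 8 (.s
  k67 k64 0 (.d k195 k131 k130 7 8))))))] .n) (.c k235 (.l (.s k125 k65 5 (.s k60 k190 8 (.s k20 k40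
  5 (.d k150 k215 k195 8 14))))) .n))))))))))))

def t7_97 : T TT 256 :=
  (.f k255 k170 14 (.q k89 [(.s k81 k93 1 (.s k243 k162 12 (.s k166 k12 14 (.d k247 k251 k4 1
  12)))), (.s k93 k81 1 (.s k12 k174 12 (.s k4 k8 1 (.d k166 k247 k243 12 14))))] (.c k4 (.q k5 [(.s
  k165 k245 11 (.s k15 k10 2 (.s k90 k240 14 (.d k95 k80 k175 2 11)))), (.s k93 k81 1 (.s k165 k245
  11 (.s k13 k241 13 (.s k1 k9 1 (.d k253 k173 k169 11 13))))), (.s k15 k10 2 (.s k81 k93 1 (.s k243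
  k162 12 (.s k91 k167 13 (.s k90 k88 0 (.d k95 k80 k175 2 11))))))] .n) (.c k12 (.q k1 [(.s k3 k2 0
  (.s k87 k171 13 (.s k86 k84 0 (.d k169 k253 k252 13 14)))), (.s k81 k93 1 (.s k169 k253 13 (.s k9
  k249 11 (.s k13 k5 1 (.d k241 k161 k165 11 13))))), (.s k3 k2 0 (.s k81 k93 1 (.s k161 k241 11 (.s
  k82 k240 12 (.s k83 k80 0 (.d k243 k163 k162 11 12))))))] .n) (.c k81 (.q k65 [(.s k105 k125 5 (.s
  k195 k130 8 (.s k150 k60 14 (.d k215 k235 k20 5 8)))), (.s k105 k125 5 (.s k73 k121 3 (.s k69 k77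
  1 (.s k207 k138 10 (.s k223 k239 3 (.s k154 k16 10 (.d k101 k117 k48 3 14)))))))] (.c k105 (.q
  k101 [(.s k69 k117 3 (.d k77 k73 k113 1 5)), (.s k69 k117 3 (.s k207 k138 10 (.s k154 k48 14 (.d
  k223 k239 k16 3 10))))] (.c k40 (.q k235 [(.d k195 k215 k130 5 8), (.s k69 k117 3 (.d k77 k73 k113
  1 5))] .n) (.c k69 (.q k64 [(.s k106 k127 6 (.s k192 k128 7 (.s k149 k63 14 (.d k213 k234 k21 6
  7)))), (.s k66 k67 0 (.s k130 k195 8 (.s k2 k194 7 (.s k3 k1 0 (.d k192 k128 k129 7 8))))), (.s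
  k67 k66 0 (.s k127 k106 6 (.s k107 k87 5 (.s k195 k130 8 (.d k63 k191 k151 7 13)))))] (.c k40 (.q
  k235 [(.d k195 k215 k130 5 8), (.s k106 k127 6 (.s k192 k128 7 (.s k149 k63 14 (.d k213 k234 k21 6
  7))))] .n) (.c k235 (.q k40 [(.s k106 k127 6 (.s k192 k128 7 (.s k149 k63 14 (.d k213 k234 k21 6
  7)))), (.s k66 k67 0 (.s k130 k195 8 (.s k2 k194 7 (.s k3 k1 0 (.d k192 k128 k129 7 8))))), (.s
  k67 k66 0 (.s k127 k106 6 (.s k107 k87 5 (.s k195 k130 8 (.d k63 k191 k151 7 13)))))] .n) .n)))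
  (.c k117 (.l (.s k77 k113 5 (.s k69 k73 1 (.s k207 k138 10 (.s k154 k48 14 (.d k223 k239 k16 3
  10)))))) (.c k235 (.q k40 [(.s k69 k117 3 (.d k77 k73 k113 1 5)), (.s k20 k60 5 (.s k150 k215 8
  (.s k28 k211 10 (.s k16 k24 1 (.s k48 k32 3 (.d k154 k223 k207 10 14))))))] .n) .n))))) (.c k125
  (.l (.s k195 k130 8 (.s k215 k235 5 (.s k150 k20 8 (.s k211 k28 10 (.s k243 k227 3 (.s k166 k12 14
  (.d k247 k251 k4 1 12)))))))) .n))) (.c k93 (.q k253 [(.s k169 k1 13 (.s k252 k254 0 (.s k84 k168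
  13 (.d k86 k87 k3 0 14)))), (.s k169 k1 13 (.s k249 k9 11 (.s k245 k241 1 (.s k240 k250 2 (.s k80
  k160 11 (.s k90 k95 2 (.d k165 k5 k15 11 14)))))))] (.c k1 (.l (.s k252 k254 0 (.s k84 k168 13 (.s
  k86 k87 0 (.s k92 k83 2 (.s k12 k172 11 (.s k4 k8 1 (.d k166 k247 k243 12 14)))))))) (.c k169 (.f
  k252 k254 0 (.q k86 [(.d k84 k168 k87 13 0), (.s k92 k83 2 (.s k12 k172 11 (.s k4 k8 1 (.d k166
  k247 k243 12 14))))] (.c k168 (.q k171 [(.d k87 k84 k3 0 13), (.s k92 k83 2 (.s k12 k172 11 (.s k4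
  k8 1 (.d k166 k247 k243 12 14))))] .n) (.c k171 (.l (.s k168 k84 13 (.s k92 k83 2 (.s k12 k172 11
  (.s k4 k8 1 (.d k166 k247 k243 12 14)))))) .n)))) .n))) (.c k162 (.l (.s k93 k81 1 (.s k12 k174 12
  (.s k166 k243 14 (.d k4 k8 k247 1 12))))) (.c k166 (.f k81 k93 1 (.f k162 k243 12 (.q k1 [(.s k3
  k2 0 (.s k87 k171 13 (.s k86 k84 0 (.d k169 k253 k252 13 14)))), (.s k169 k253 13 (.s k9 k249 11
  (.s k13 k5 1 (.d k241 k161 k165 11 13)))), (.s k3 k2 0 (.s k161 k241 11 (.s k240 k82 12 (.d k160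
  k163 k80 0 11))))] .n))) (.c k174 (.l (.s k81 k93 1 (.s k243 k162 12 (.s k166 k12 14 (.d k247 k251
  k4 1 12))))) (.c k243 (.q k1 [(.s k3 k2 0 (.s k87 k171 13 (.s k86 k84 0 (.d k169 k253 k252 13
  14)))), (.s k81 k93 1 (.s k169 k253 13 (.s k9 k249 11 (.s k13 k5 1 (.d k241 k161 k165 11 13))))),
  (.s k3 k2 0 (.s k93 k81 1 (.s k12 k174 12 (.s k8 k4 1 (.s k9 k6 2 (.s k5 k13 1 (.d k10 k11 k15 0
  2)))))))] .n) (.c k247 (.q k87 [(.s k86 k84 0 (.s k3 k171 13 (.s k169 k252 14 (.d k1 k2 k253 0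
  13)))), (.s k81 k93 1 (.s k86 k84 0 (.s k83 k92 2 (.s k80 k82 0 (.d k95 k91 k90 1 2))))), (.s k3
  k171 13 (.s k81 k93 1 (.s k243 k162 12 (.s k83 k163 11 (.s k80 k82 0 (.d k95 k91 k90 1 2))))))]
  .n) .n)))))))))))

def t7_98 : T TT 256 :=
  (.f k255 k170 14 (.q k89 [(.s k81 k93 1 (.s k243 k162 12 (.s k166 k12 14 (.d k247 k251 k4 1
  12)))), (.s k93 k81 1 (.s k12 k174 12 (.s k4 k8 1 (.d k166 k247 k243 12 14))))] (.c k4 (.q k5 [(.s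
  k165 k245 11 (.s k15 k10 2 (.s k90 k240 14 (.d k95 k80 k175 2 11)))), (.s k93 k81 1 (.s k165 k245
  11 (.s k13 k241 13 (.s k1 k9 1 (.d k253 k173 k169 11 13))))), (.s k15 k10 2 (.s k81 k93 1 (.s k243
  k162 12 (.s k91 k167 13 (.s k90 k88 0 (.d k95 k80 k175 2 11))))))] .n) (.c k12 (.q k1 [(.s k3 k2 0
  (.s k87 k171 13 (.s k86 k84 0 (.d k169 k253 k252 13 14)))), (.s k81 k93 1 (.s k169 k253 13 (.s k9
  k249 11 (.s k13 k5 1 (.d k241 k161 k165 11 13))))), (.s k3 k2 0 (.s k81 k93 1 (.s k161 k241 11 (.s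
  k82 k240 12 (.s k83 k80 0 (.d k243 k163 k162 11 12))))))] .n) (.c k81 (.q k64 [(.s k106 k127 6 (.s
  k192 k128 7 (.s k149 k63 14 (.d k213 k234 k21 6 7)))), (.s k106 k127 6 (.s k72 k123 4 (.s k68 k76
  1 (.s k204 k136 9 (.s k221 k238 4 (.s k153 k17 9 (.d k102 k119 k51 4 14)))))))] (.c k106 (.q k102
  [(.s k68 k119 4 (.d k76 k72 k115 1 6)), (.s k68 k119 4 (.s k204 k136 9 (.s k153 k51 14 (.d k221
  k238 k17 4 9))))] (.c k42 (.q k234 [(.d k192 k213 k128 6 7), (.s k68 k119 4 (.d k76 k72 k115 1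
  6))] .n) (.c k68 (.q k86 [(.s k76 k115 6 (.s k84 k87 0 (.s k124 k104 5 (.d k92 k83 k108 2 3)))),
  (.s k84 k87 0 (.s k252 k168 13 (.s k169 k3 14 (.d k253 k254 k1 0 13)))), (.s k70 k118 3 (.s k76
  k115 6 (.s k67 k73 2 (.s k65 k66 0 (.d k105 k124 k125 6 5)))))] (.c k42 (.q k234 [(.d k192 k213
  k128 6 7), (.s k76 k115 6 (.s k84 k87 0 (.s k92 k83 2 (.d k124 k108 k104 3 5))))] .n) (.c k234 (.q
  k42 [(.s k76 k115 6 (.s k84 k87 0 (.s k124 k104 5 (.d k92 k83 k108 2 3)))), (.s k84 k87 0 (.s k252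
  k168 13 (.s k169 k3 14 (.d k253 k254 k1 0 13)))), (.s k70 k118 3 (.s k76 k115 6 (.s k67 k73 2 (.s
  k65 k66 0 (.d k105 k124 k125 6 5)))))] .n) .n))) (.c k119 (.l (.s k76 k115 6 (.s k68 k72 1 (.s
  k204 k136 9 (.s k153 k51 14 (.d k221 k238 k17 4 9)))))) (.c k234 (.q k42 [(.s k68 k119 4 (.d k76
  k72 k115 1 6)), (.s k21 k63 6 (.s k149 k213 7 (.s k29 k209 9 (.s k17 k25 1 (.s k51 k34 4 (.d k153
  k221 k204 9 14))))))] .n) .n))))) (.c k127 (.l (.s k192 k128 7 (.s k213 k234 6 (.s k149 k21 7 (.s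
  k209 k29 9 (.s k243 k226 4 (.s k166 k12 14 (.d k247 k251 k4 1 12)))))))) .n))) (.c k93 (.q k253
  [(.s k169 k1 13 (.s k252 k254 0 (.s k84 k168 13 (.d k86 k87 k3 0 14)))), (.s k169 k1 13 (.s k249
  k9 11 (.s k245 k241 1 (.s k240 k250 2 (.s k80 k160 11 (.s k90 k95 2 (.d k165 k5 k15 11 14)))))))]
  (.c k1 (.l (.s k252 k254 0 (.s k84 k168 13 (.s k86 k87 0 (.s k92 k83 2 (.s k12 k172 11 (.s k4 k8 1
  (.d k166 k247 k243 12 14)))))))) (.c k169 (.f k252 k254 0 (.q k86 [(.d k84 k168 k87 13 0), (.s k92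
  k83 2 (.s k12 k172 11 (.s k4 k8 1 (.d k166 k247 k243 12 14))))] (.c k168 (.q k171 [(.d k87 k84 k3
  0 13), (.s k92 k83 2 (.s k12 k172 11 (.s k4 k8 1 (.d k166 k247 k243 12 14))))] .n) (.c k171 (.l
  (.s k168 k84 13 (.s k92 k83 2 (.s k12 k172 11 (.s k4 k8 1 (.d k166 k247 k243 12 14)))))) .n))))
  .n))) (.c k162 (.l (.s k93 k81 1 (.s k12 k174 12 (.s k166 k243 14 (.d k4 k8 k247 1 12))))) (.c
  k166 (.f k81 k93 1 (.f k162 k243 12 (.q k1 [(.s k3 k2 0 (.s k87 k171 13 (.s k86 k84 0 (.d k169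
  k253 k252 13 14)))), (.s k169 k253 13 (.s k9 k249 11 (.s k13 k5 1 (.d k241 k161 k165 11 13)))),
  (.s k3 k2 0 (.s k161 k241 11 (.s k240 k82 12 (.d k160 k163 k80 0 11))))] .n))) (.c k174 (.l (.s
  k81 k93 1 (.s k243 k162 12 (.s k166 k12 14 (.d k247 k251 k4 1 12))))) (.c k243 (.q k1 [(.s k3 k2 0
  (.s k87 k171 13 (.s k86 k84 0 (.d k169 k253 k252 13 14)))), (.s k81 k93 1 (.s k169 k253 13 (.s k9
  k249 11 (.s k13 k5 1 (.d k241 k161 k165 11 13))))), (.s k3 k2 0 (.s k93 k81 1 (.s k12 k174 12 (.s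
  k8 k4 1 (.s k9 k6 2 (.s k5 k13 1 (.d k10 k11 k15 0 2)))))))] .n) (.c k247 (.q k87 [(.s k86 k84 0
  (.s k3 k171 13 (.s k169 k252 14 (.d k1 k2 k253 0 13)))), (.s k81 k93 1 (.s k86 k84 0 (.s k83 k92 2
  (.s k80 k82 0 (.d k95 k91 k90 1 2))))), (.s k3 k171 13 (.s k81 k93 1 (.s k243 k162 12 (.s k83 k163
  11 (.s k80 k82 0 (.d k95 k91 k90 1 2))))))] .n) .n)))))))))))

def t7_99 : T TT 256 :=
  (.f k255 k170 14 (.q k89 [(.s k81 k93 1 (.s k243 k162 12 (.s k166 k12 14 (.d k247 k251 k4 1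
  12))))] (.c k4 (.q k5 [(.s k165 k245 11 (.s k15 k10 2 (.s k90 k240 14 (.d k95 k80 k175 2 11)))),
  (.s k93 k81 1 (.s k165 k245 11 (.s k13 k241 13 (.s k1 k9 1 (.d k253 k173 k169 11 13))))), (.s k15
  k10 2 (.s k81 k93 1 (.s k243 k162 12 (.s k91 k167 13 (.s k90 k88 0 (.d k95 k80 k175 2 11))))))]
  .n) (.c k12 (.q k1 [(.s k3 k2 0 (.s k87 k171 13 (.s k86 k84 0 (.d k169 k253 k252 13 14)))), (.s
  k81 k93 1 (.s k169 k253 13 (.s k9 k249 11 (.s k13 k5 1 (.d k241 k161 k165 11 13))))), (.s k3 k2 0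
  (.s k81 k93 1 (.s k161 k241 11 (.s k82 k240 12 (.s k83 k80 0 (.d k243 k163 k162 11 12))))))] .n)
  (.c k81 (.q k69 [(.s k101 k117 3 (.s k207 k138 10 (.s k154 k48 14 (.d k223 k239 k16 3 10)))), (.s
  k101 k117 3 (.s k77 k113 5 (.s k65 k73 1 (.s k195 k130 8 (.s k215 k235 5 (.s k150 k20 8 (.d k105
  k125 k60 5 14)))))))] (.c k101 (.f k207 k138 10 (.q k154 [(.d k223 k239 k16 3 10), (.s k219 k24 8
  (.s k243 k231 5 (.s k166 k12 14 (.d k247 k251 k4 1 12))))] (.c k32 (.l (.s k239 k223 3 (.s k219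
  k24 8 (.s k243 k231 5 (.s k166 k12 14 (.d k247 k251 k4 1 12)))))) (.c k239 (.q k32 [(.d k16 k48
  k223 3 10), (.s k219 k24 8 (.s k243 k231 5 (.s k247 k251 1 (.d k166 k4 k12 12 14))))] .n) .n))))
  (.c k117 (.l (.s k207 k138 10 (.s k223 k239 3 (.s k154 k16 10 (.s k219 k24 8 (.s k243 k231 5 (.s
  k166 k12 14 (.d k247 k251 k4 1 12)))))))) .n))) (.c k93 (.q k21 [(.s k149 k213 7 (.s k63 k42 6 (.s
  k106 k192 14 (.d k127 k64 k191 6 7)))), (.s k149 k213 7 (.s k29 k209 9 (.s k17 k25 1 (.s k51 k34 4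
  (.s k119 k187 9 (.s k102 k68 4 (.d k153 k221 k204 9 14)))))))] (.c k149 (.f k63 k42 6 (.q k106
  [(.d k127 k191 k64 7 6), (.s k123 k72 4 (.s k243 k183 9 (.s k166 k12 14 (.d k247 k251 k4 1 12))))]
  (.c k128 (.l (.s k191 k127 7 (.s k123 k72 4 (.s k243 k183 9 (.s k166 k12 14 (.d k247 k251 k4 1
  12)))))) (.c k191 (.q k128 [(.d k64 k127 k192 6 7), (.s k123 k72 4 (.s k243 k183 9 (.s k247 k251 1
  (.d k166 k4 k12 12 14))))] .n) .n)))) (.c k213 (.l (.s k63 k42 6 (.s k127 k191 7 (.s k106 k64 6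
  (.s k123 k72 4 (.s k243 k183 9 (.s k166 k12 14 (.d k247 k251 k4 1 12)))))))) .n))) (.c k162 (.l
  (.s k93 k81 1 (.s k12 k174 12 (.s k166 k243 14 (.d k4 k8 k247 1 12))))) (.c k166 (.f k81 k93 1 (.q
  k83 [(.s k80 k82 0 (.s k86 k92 2 (.s k87 k84 0 (.d k95 k91 k90 1 2)))), (.s k80 k82 0 (.s k240
  k160 11 (.s k245 k250 2 (.s k165 k5 11 (.s k241 k13 13 (.d k243 k162 k242 12 0)))))), (.s k86 k92
  2 (.s k84 k87 0 (.s k252 k168 13 (.s k169 k3 14 (.d k253 k254 k1 0 13)))))] (.c k162 (.q k174 [(.s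
  k86 k92 2 (.s k87 k84 0 (.s k95 k91 1 (.d k80 k82 k90 0 2)))), (.s k80 k82 0 (.s k240 k160 11 (.s
  k245 k250 2 (.s k165 k5 11 (.d k90 k95 k15 2 14))))), (.s k86 k92 2 (.s k84 k87 0 (.s k252 k168 13
  (.s k169 k3 14 (.d k253 k254 k1 0 13)))))] (.c k95 (.l (.s k82 k80 0 (.s k86 k92 2 (.s k94 k90 1
  (.s k84 k87 0 (.s k252 k168 13 (.d k254 k14 k253 11 0))))))) .n)) (.c k174 (.l (.s k162 k243 12
  (.s k80 k82 0 (.s k86 k92 2 (.s k87 k84 0 (.d k95 k91 k90 1 2)))))) .n)))) (.c k174 (.l (.s k81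
  k93 1 (.s k243 k162 12 (.s k166 k12 14 (.d k247 k251 k4 1 12))))) (.c k243 (.q k1 [(.s k3 k2 0 (.s
  k87 k171 13 (.s k86 k84 0 (.d k169 k253 k252 13 14)))), (.s k81 k93 1 (.s k169 k253 13 (.s k9 k249
  11 (.s k13 k5 1 (.d k241 k161 k165 11 13))))), (.s k3 k2 0 (.s k93 k81 1 (.s k12 k174 12 (.s k8 k4
  1 (.s k9 k6 2 (.s k5 k13 1 (.d k10 k11 k15 0 2)))))))] .n) (.c k247 (.q k87 [(.s k86 k84 0 (.s k3
  k171 13 (.s k169 k252 14 (.d k1 k2 k253 0 13)))), (.s k81 k93 1 (.s k86 k84 0 (.s k83 k92 2 (.s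
  k80 k82 0 (.d k95 k91 k90 1 2))))), (.s k3 k171 13 (.s k81 k93 1 (.s k243 k162 12 (.s k83 k163 11
  (.s k80 k82 0 (.d k95 k91 k90 1 2))))))] .n) (.c k251 (.l (.s k93 k81 1 (.s k12 k174 12 (.s k4 k8
  1 (.d k166 k247 k243 12 14))))) .n))))))))))))

def t7_102 : T TT 256 :=
  (.f k170 k255 14 (.q k243 [(.s k81 k162 12 (.s k89 k93 1 (.s k8 k251 12 (.d k12 k4 k166 1 14))))]
  (.c k4 (.q k5 [(.s k15 k10 2 (.s k165 k245 11 (.s k160 k175 2 (.d k240 k80 k90 11 14)))), (.s k15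
  k10 2 (.s k162 k81 12 (.s k166 k174 1 (.s k167 k91 13 (.d k165 k164 k245 0 11))))), (.s k81 k162
  12 (.s k89 k93 1 (.s k165 k245 11 (.s k241 k13 13 (.s k240 k242 0 (.d k160 k175 k80 2 11))))))]
  (.c k165 (.l (.s k10 k15 2 (.s k90 k250 11 (.s k162 k81 12 (.s k166 k174 1 (.s k242 k14 13 (.s
  k240 k241 0 (.d k80 k95 k160 2 11)))))))) (.c k245 (.l (.s k15 k10 2 (.s k81 k162 12 (.s k89 k93 1
  (.s k12 k166 14 (.s k13 k14 0 (.s k1 k9 1 (.d k241 k161 k165 11 13)))))))) .n))) (.c k8 (.q k1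
  [(.s k3 k2 0 (.s k169 k253 13 (.s k168 k171 0 (.d k252 k84 k86 13 14)))), (.s k3 k2 0 (.s k81 k162
  12 (.s k83 k163 11 (.s k82 k80 0 (.d k161 k241 k240 11 12))))), (.s k81 k162 12 (.s k89 k93 1 (.s
  k169 k253 13 (.s k9 k249 11 (.s k13 k5 1 (.d k241 k161 k165 11 13))))))] .n) (.c k12 (.f k81 k162
  12 (.q k80 [(.s k82 k83 0 (.s k240 k160 11 (.s k241 k242 0 (.d k161 k1 k3 11 12)))), (.s k90 k95 2
  (.s k10 k250 11 (.s k15 k5 2 (.d k240 k160 k165 11 14)))), (.s k83 k82 0 (.s k95 k90 2 (.s k87 k91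
  1 (.s k86 k84 0 (.d k89 k93 k92 1 2)))))] (.c k93 (.q k174 [(.s k82 k83 0 (.s k240 k160 11 (.s
  k241 k242 0 (.d k161 k1 k3 11 12)))), (.s k90 k95 2 (.s k10 k250 11 (.s k15 k5 2 (.d k240 k160
  k165 11 14)))), (.s k83 k82 0 (.s k95 k90 2 (.s k87 k91 1 (.s k86 k84 0 (.s k2 k254 13 (.d k3 k1
  k163 0 11))))))] .n) (.c k174 (.l (.s k93 k89 1 (.s k82 k83 0 (.s k240 k160 11 (.s k161 k3 12 (.d
  k241 k242 k1 0 11)))))) .n)))) (.c k81 (.q k150 [(.s k20 k215 8 (.s k60 k40 5 (.s k130 k190 5 (.d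
  k195 k65 k105 8 14)))), (.s k130 k190 5 (.s k195 k65 8 (.s k211 k227 3 (.s k89 k28 10 (.s k8 k251
  12 (.d k12 k4 k166 1 14)))))), (.s k20 k215 8 (.s k60 k40 5 (.s k182 k121 10 (.s k166 k134 3 (.s
  k4 k247 12 (.d k12 k8 k89 1 14))))))] (.c k60 (.q k169 [(.s k1 k253 13 (.s k3 k2 0 (.s k168 k171 0
  (.d k252 k84 k86 13 14)))), (.s k131 k188 6 (.s k171 k168 0 (.s k191 k151 5 (.s k128 k149 6 (.d
  k130 k190 k129 5 0))))), (.s k1 k253 13 (.s k3 k2 0 (.s k131 k188 6 (.s k195 k67 7 (.d k130 k190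
  k65 5 8)))))] (.c k125 (.l (.s k190 k130 5 (.s k1 k253 13 (.s k3 k2 0 (.s k168 k171 0 (.d k252 k84
  k86 13 14)))))) (.c k190 (.q k125 [(.s k1 k253 13 (.s k3 k2 0 (.s k168 k171 0 (.d k252 k84 k86 13
  14)))), (.s k105 k65 5 (.s k233 k41 7 (.s k253 k1 13 (.s k61 k189 7 (.d k193 k213 k149 5 13))))),
  (.s k20 k215 8 (.s k168 k171 0 (.s k188 k131 6 (.s k148 k128 5 (.d k84 k212 k252 7 13)))))] (.c k3
  (.l (.s k1 k253 13 (.s k65 k105 5 (.s k129 k193 7 (.s k130 k195 8 (.d k131 k128 k188 0 6))))))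
  .n)) (.c k252 (.l (.s k168 k171 0 (.s k188 k131 6 (.s k128 k148 5 (.s k190 k130 5 (.d k191 k189
  k149 0 6)))))) .n)))) (.c k195 (.q k154 [(.s k16 k223 10 (.s k48 k32 3 (.s k138 k186 3 (.d k207
  k69 k101 10 14)))), (.s k130 k190 5 (.s k146 k158 1 (.s k178 k162 3 (.s k142 k166 5 (.d k138 k134
  k186 1 3))))), (.s k16 k223 10 (.s k48 k32 3 (.s k130 k190 5 (.s k146 k158 1 (.d k178 k162 k113 3
  8)))))] (.c k215 (.q k235 [(.s k16 k223 10 (.s k48 k32 3 (.s k138 k186 3 (.d k207 k69 k101 10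
  14)))), (.s k40 k105 8 (.s k60 k20 5 (.s k182 k121 10 (.s k186 k138 3 (.d k190 k178 k130 1 5))))),
  (.s k16 k223 10 (.s k48 k32 3 (.s k130 k190 5 (.s k146 k158 1 (.d k178 k162 k113 3 8)))))] .n) (.c
  k235 (.l (.s k215 k20 8 (.s k16 k223 10 (.s k48 k32 3 (.s k138 k186 3 (.d k207 k69 k101 10
  14)))))) .n))) .n))) (.c k89 (.f k81 k162 12 (.q k1 [(.s k3 k2 0 (.s k83 k163 11 (.s k82 k80 0 (.d
  k161 k241 k240 11 12)))), (.s k169 k253 13 (.s k168 k171 0 (.s k252 k84 13 (.d k3 k2 k86 0 14)))),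
  (.s k161 k241 11 (.s k169 k253 13 (.s k165 k173 1 (.s k160 k175 2 (.s k240 k80 11 (.s k15 k90 14
  (.d k5 k245 k10 11 2)))))))] (.c k76 (.q k115 [(.s k3 k2 0 (.s k83 k163 11 (.s k82 k80 0 (.d k161
  k241 k240 11 12)))), (.s k51 k179 7 (.s k17 k34 4 (.s k98 k64 4 (.d k145 k209 k192 7 12))))] .n)
  (.c k115 (.q k76 [(.s k3 k2 0 (.s k83 k163 11 (.s k82 k80 0 (.d k161 k241 k240 11 12)))), (.s k169
  k253 13 (.s k168 k171 0 (.s k252 k84 13 (.d k3 k2 k86 0 14)))), (.s k161 k241 11 (.s k169 k253 13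
  (.s k165 k173 1 (.s k160 k175 2 (.s k240 k80 11 (.s k15 k90 14 (.d k5 k245 k10 11 2)))))))] .n)
  .n)))) (.c k93 (.l (.s k162 k81 12 (.s k166 k174 1 (.s k12 k89 14 (.d k4 k8 k247 1 12))))) (.c
  k162 (.q k150 [(.s k20 k215 8 (.s k60 k40 5 (.s k130 k190 5 (.d k195 k65 k105 8 14)))), (.s k130
  k190 5 (.s k195 k65 8 (.s k211 k227 3 (.s k89 k28 10 (.s k8 k251 12 (.d k12 k4 k166 1 14)))))),
  (.s k20 k215 8 (.s k60 k40 5 (.s k182 k121 10 (.s k166 k134 3 (.s k4 k247 12 (.d k12 k8 k89 1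
  14))))))] (.c k60 (.q k168 [(.s k169 k171 0 (.s k1 k253 13 (.s k252 k84 13 (.d k3 k2 k86 0 14)))),
  (.s k169 k171 0 (.s k188 k131 6 (.s k128 k148 5 (.s k190 k130 5 (.d k191 k189 k149 0 6))))), (.s
  k20 k215 8 (.s k84 k252 13 (.s k148 k212 7 (.s k149 k151 0 (.d k128 k188 k191 5 6)))))] (.c k87
  (.l (.s k252 k84 13 (.s k169 k171 0 (.s k3 k86 14 (.d k1 k2 k253 0 13))))) (.c k125 (.l (.s k190
  k130 5 (.s k169 k171 0 (.s k1 k253 13 (.s k3 k2 0 (.d k252 k84 k86 13 14)))))) (.c k190 (.q k125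
  [(.s k169 k171 0 (.s k1 k253 13 (.s k252 k84 13 (.d k3 k2 k86 0 14)))), (.s k65 k105 5 (.s k195
  k130 8 (.s k211 k227 3 (.s k89 k28 10 (.s k8 k251 12 (.d k12 k166 k4 14 1))))))] .n) .n)))) (.c
  k195 (.q k149 [(.s k21 k213 7 (.s k63 k42 6 (.s k128 k191 6 (.d k192 k64 k106 7 14)))), (.s k151
  k148 0 (.s k190 k130 5 (.s k191 k128 6 (.s k131 k171 5 (.d k188 k189 k169 0 6))))), (.s k151 k148
  0 (.s k213 k21 7 (.s k215 k20 8 (.s k23 k87 7 (.d k212 k214 k86 0 8)))))] (.c k215 (.q k235 [(.s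
  k21 k213 7 (.s k63 k42 6 (.s k128 k191 6 (.d k192 k64 k106 7 14)))), (.s k151 k148 0 (.s k190 k130
  5 (.s k191 k128 6 (.s k131 k171 5 (.d k188 k189 k169 0 6))))), (.s k21 k213 7 (.s k40 k105 8 (.s
  k20 k60 5 (.s k23 k22 0 (.s k148 k151 0 (.d k212 k84 k86 7 8))))))] .n) (.c k235 (.l (.s k215 k20
  8 (.s k21 k213 7 (.s k63 k42 6 (.s k128 k191 6 (.d k192 k64 k106 7 14)))))) .n))) .n))) (.c k166
  (.f k162 k81 12 (.q k2 [(.s k3 k1 0 (.s k82 k242 11 (.s k163 k83 11 (.d k161 k160 k240 0 12)))),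
  (.s k86 k254 13 (.s k84 k87 0 (.s k252 k168 13 (.d k3 k1 k169 0 14))))] (.c k1 (.l (.s k82 k242 11
  (.s k86 k254 13 (.s k84 k87 0 (.s k252 k168 13 (.s k3 k169 14 (.s k161 k240 12 (.d k163 k160 k83 0
  11)))))))) (.c k3 (.l (.s k242 k82 11 (.s k240 k241 0 (.s k80 k160 11 (.s k90 k95 2 (.s k10 k250
  11 (.d k15 k5 k165 2 14))))))) (.c k38 (.q k230 [(.s k3 k1 0 (.s k82 k242 11 (.s k163 k83 11 (.d
  k161 k160 k240 0 12)))), (.s k86 k254 13 (.s k84 k87 0 (.s k252 k168 13 (.d k3 k1 k169 0 14)))),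
  (.s k204 k217 6 (.s k242 k82 11 (.s k206 k218 5 (.s k138 k70 9 (.d k207 k205 k69 0 10)))))] .n)
  (.c k230 (.q k38 [(.s k86 k254 13 (.s k84 k87 0 (.s k252 k168 13 (.d k3 k1 k169 0 14)))), (.s k242
  k82 11 (.s k240 k241 0 (.s k80 k160 11 (.s k90 k95 2 (.s k10 k250 11 (.d k15 k5 k165 2 14))))))]
  (.c k1 (.l (.s k82 k242 11 (.s k86 k254 13 (.s k84 k87 0 (.s k252 k168 13 (.s k3 k169 14 (.s k161
  k240 12 (.d k163 k160 k83 0 11)))))))) .n)) .n)))))) (.c k174 (.l (.s k81 k162 12 (.s k89 k93 1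
  (.s k12 k166 14 (.d k8 k4 k251 1 12))))) (.c k251 (.l (.s k162 k81 12 (.s k166 k174 1 (.s k4 k247
  12 (.d k12 k8 k89 1 14))))) .n))))))))))))

def t7_103 : T TT 256 :=
  (.f k255 k170 14 (.q k106 [(.s k64 k127 6 (.s k192 k128 7 (.s k149 k63 14 (.d k213 k234 k21 6
  7))))] (.c k21 (.q k1 [(.s k3 k2 0 (.s k169 k253 13 (.s k86 k252 14 (.d k87 k84 k171 0 13)))), (.s
  k64 k127 6 (.s k192 k128 7 (.s k213 k234 6 (.s k253 k169 13 (.s k193 k233 5 (.s k65 k129 7 (.d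
  k195 k130 k194 8 0))))))), (.s k3 k2 0 (.s k64 k127 6 (.s k192 k128 7 (.s k66 k129 8 (.s k86 k126
  5 (.d k87 k84 k171 0 13))))))] (.c k171 (.l (.s k3 k2 0 (.s k127 k64 6 (.s k63 k191 7 (.s k43 k23
  5 (.d k169 k232 k253 8 13)))))) .n)) (.c k63 (.q k1 [(.s k3 k2 0 (.s k169 k253 13 (.s k86 k252 14
  (.d k87 k84 k171 0 13)))), (.s k64 k127 6 (.s k192 k128 7 (.s k213 k234 6 (.s k253 k169 13 (.s
  k193 k233 5 (.s k65 k129 7 (.d k195 k130 k194 8 0))))))), (.s k64 k127 6 (.s k169 k253 13 (.s k192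
  k128 7 (.s k232 k43 8 (.s k252 k212 5 (.s k84 k168 13 (.d k86 k3 k87 14 0))))))), (.s k3 k2 0 (.s
  k64 k127 6 (.s k192 k128 7 (.s k66 k129 8 (.s k86 k126 5 (.d k87 k84 k171 0 13))))))] .n) (.c k64
  (.q k60 [(.s k20 k40 5 (.s k125 k190 8 (.s k150 k215 8 (.d k105 k65 k195 5 14)))), (.s k20 k40 5
  (.s k150 k215 8 (.s k62 k194 13 (.s k63 k61 0 (.s k21 k42 6 (.d k149 k213 k192 7 14)))))), (.s
  k125 k190 8 (.s k105 k65 5 (.s k104 k107 0 (.s k192 k148 13 (.s k149 k63 14 (.d k213 k234 k21 6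
  7))))))] (.c k105 (.q k87 [(.s k3 k171 13 (.s k1 k2 0 (.s k169 k253 13 (.d k86 k84 k252 0 14)))),
  (.s k86 k84 0 (.s k126 k66 5 (.s k190 k125 8 (.s k62 k254 7 (.s k150 k194 13 (.d k20 k40 k215 5
  8)))))), (.s k3 k171 13 (.s k2 k1 0 (.s k22 k41 6 (.s k42 k62 5 (.s k21 k63 6 (.d k20 k40 k23 5
  0))))))] (.c k2 (.l (.s k3 k171 13 (.s k22 k41 6 (.s k86 k84 0 (.s k150 k214 7 (.d k20 k40 k215 5
  8)))))) (.c k40 (.q k235 [(.s k3 k171 13 (.s k1 k2 0 (.s k169 k253 13 (.d k86 k84 k252 0 14)))),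
  (.s k86 k84 0 (.s k126 k66 5 (.s k190 k125 8 (.s k62 k254 7 (.s k150 k194 13 (.d k215 k195 k20 5
  8)))))), (.s k3 k171 13 (.s k22 k41 6 (.s k215 k195 5 (.s k20 k150 8 (.d k23 k21 k151 0 7)))))]
  .n) (.c k235 (.l (.s k40 k20 5 (.s k3 k171 13 (.s k1 k2 0 (.s k86 k84 0 (.d k169 k253 k252 13
  14)))))) .n)))) (.c k150 (.q k149 [(.s k21 k213 7 (.d k63 k42 k192 6 14)), (.s k63 k192 14 (.s k61
  k62 0 (.s k105 k193 13 (.d k125 k190 k65 8 5))))] (.c k63 (.l (.s k213 k21 7 (.s k192 k234 6 (.s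
  k104 k148 13 (.s k105 k107 0 (.d k125 k65 k190 5 8)))))) (.c k130 (.l (.s k190 k125 8 (.s k21 k213
  7 (.d k63 k42 k192 6 14)))) (.c k190 (.q k130 [(.s k21 k213 7 (.d k63 k42 k192 6 14)), (.s k63
  k192 14 (.s k61 k62 0 (.s k65 k195 8 (.d k105 k193 k125 13 5))))] (.c k63 (.l (.s k65 k195 8 (.s
  k105 k125 5 (.s k213 k21 7 (.s k192 k234 6 (.d k104 k107 k148 0 13)))))) (.c k192 (.l (.s k21 k213
  7 (.s k63 k42 6 (.s k61 k62 0 (.s k65 k195 8 (.d k105 k193 k125 13 5)))))) .n))) (.c k192 (.l (.s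
  k21 k213 7 (.s k63 k42 6 (.s k61 k62 0 (.s k105 k193 13 (.d k125 k65 k190 5 8)))))) .n))))) .n)))
  (.c k127 (.q k195 [(.s k65 k130 8 (.s k215 k235 5 (.s k150 k20 8 (.d k105 k125 k60 5 14)))), (.s
  k65 k130 8 (.s k105 k125 5 (.s k107 k104 0 (.s k63 k151 13 (.s k21 k42 6 (.d k149 k213 k192 7
  14)))))), (.s k215 k235 5 (.s k150 k20 8 (.s k194 k62 13 (.s k192 k193 0 (.s k149 k63 14 (.d k213
  k234 k21 6 7))))))] (.c k105 (.q k149 [(.s k21 k213 7 (.d k63 k42 k192 6 14)), (.s k63 k192 14 (.s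
  k151 k107 13 (.s k150 k148 0 (.d k215 k235 k20 5 8))))] (.c k40 (.l (.s k235 k215 5 (.s k21 k213 7
  (.d k63 k42 k192 6 14)))) (.c k63 (.l (.s k213 k21 7 (.s k192 k234 6 (.s k194 k193 0 (.s k150 k62
  13 (.d k215 k235 k20 5 8)))))) (.c k192 (.l (.s k21 k213 7 (.s k63 k42 6 (.s k151 k107 13 (.s k150
  k148 0 (.d k215 k235 k20 5 8)))))) (.c k235 (.q k40 [(.s k21 k213 7 (.d k63 k42 k192 6 14)), (.s
  k20 k60 5 (.s k63 k192 14 (.s k150 k215 8 (.d k151 k148 k107 0 13))))] (.c k63 (.l (.s k20 k60 5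
  (.s k150 k215 8 (.s k213 k21 7 (.s k192 k234 6 (.d k194 k62 k193 13 0)))))) (.c k192 (.l (.s k20
  k60 5 (.s k21 k213 7 (.s k63 k42 6 (.s k150 k215 8 (.d k151 k148 k107 0 13)))))) .n))) .n))))) (.c
  k150 (.q k149 [(.s k21 k213 7 (.d k63 k42 k192 6 14)), (.s k63 k192 14 (.s k107 k151 13 (.s k105
  k104 0 (.d k65 k130 k125 8 5))))] (.c k63 (.l (.s k213 k21 7 (.s k192 k234 6 (.s k193 k194 0 (.s
  k105 k61 13 (.d k65 k125 k130 5 8)))))) (.c k130 (.q k190 [(.s k21 k213 7 (.d k63 k42 k192 6 14)),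
  (.s k63 k192 14 (.s k107 k151 13 (.s k105 k104 0 (.d k125 k60 k65 8 5))))] (.c k63 (.l (.s k125
  k60 8 (.s k105 k65 5 (.s k213 k21 7 (.s k192 k234 6 (.d k193 k61 k194 13 0)))))) (.c k192 (.l (.s
  k21 k213 7 (.s k63 k42 6 (.s k107 k151 13 (.s k105 k104 0 (.d k125 k60 k65 8 5)))))) .n))) (.c
  k190 (.l (.s k130 k65 8 (.s k21 k213 7 (.d k63 k42 k192 6 14)))) (.c k192 (.l (.s k21 k213 7 (.s
  k63 k42 6 (.s k107 k151 13 (.s k105 k104 0 (.d k65 k125 k130 5 8)))))) .n))))) .n))) (.c k128 (.l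
  (.s k127 k64 6 (.s k63 k191 7 (.s k149 k192 14 (.d k21 k42 k213 6 7))))) (.c k149 (.f k64 k127 6
  (.q k80 [(.s k90 k95 2 (.s k74 k122 3 (.s k79 k69 2 (.d k112 k96 k101 3 6)))), (.s k240 k160 11
  (.s k245 k250 2 (.s k165 k5 11 (.d k90 k95 k15 2 14)))), (.s k96 k112 3 (.s k160 k240 11 (.s k32
  k224 7 (.s k48 k16 3 (.d k192 k128 k144 7 11)))))] (.c k128 (.q k191 [(.s k90 k95 2 (.s k74 k122 3
  (.s k79 k69 2 (.d k112 k96 k101 3 6)))), (.s k240 k160 11 (.s k245 k250 2 (.s k165 k5 11 (.d k90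
  k95 k15 2 14)))), (.s k96 k112 3 (.s k160 k240 11 (.s k32 k224 7 (.s k48 k16 3 (.s k117 k186 10
  (.d k101 k111 k69 2 3))))))] .n) (.c k191 (.l (.s k128 k192 7 (.s k90 k95 2 (.s k74 k122 3 (.s k79
  k69 2 (.d k112 k96 k101 3 6)))))) .n)))) (.c k191 (.l (.s k64 k127 6 (.s k192 k128 7 (.s k149 k63
  14 (.d k213 k234 k21 6 7))))) (.c k192 (.q k1 [(.s k3 k2 0 (.s k169 k253 13 (.s k86 k252 14 (.d
  k87 k84 k171 0 13)))), (.s k127 k64 6 (.s k63 k191 7 (.s k21 k42 6 (.s k61 k41 5 (.s k253 k169 13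
  (.s k125 k189 7 (.d k60 k190 k62 8 0))))))), (.s k3 k2 0 (.s k127 k64 6 (.s k63 k191 7 (.s k21 k42
  6 (.s k23 k43 5 (.s k22 k20 0 (.d k41 k61 k60 5 6)))))))] .n) (.c k213 (.q k1 [(.s k3 k2 0 (.s
  k169 k253 13 (.s k86 k252 14 (.d k87 k84 k171 0 13)))), (.s k127 k64 6 (.s k63 k191 7 (.s k21 k42
  6 (.s k61 k41 5 (.s k60 k62 0 (.s k125 k190 8 (.d k253 k189 k169 7 13))))))), (.s k64 k127 6 (.s
  k169 k253 13 (.s k192 k128 7 (.s k149 k63 14 (.s k129 k189 5 (.s k66 k3 8 (.d k65 k193 k67 7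
  0))))))), (.s k3 k2 0 (.s k64 k127 6 (.s k192 k128 7 (.s k66 k129 8 (.s k86 k126 5 (.d k87 k84
  k171 0 13))))))] .n) (.c k234 (.l (.s k127 k64 6 (.s k63 k191 7 (.s k21 k42 6 (.d k149 k213 k192 7
  14))))) .n))))))))))))

def t7_104 : T TT 256 :=
  (.f k255 k170 14 (.q k89 [(.s k81 k93 1 (.s k243 k162 12 (.s k166 k12 14 (.d k247 k251 k4 1
  12))))] (.c k4 (.q k5 [(.s k165 k245 11 (.s k15 k10 2 (.s k90 k240 14 (.d k95 k80 k175 2 11)))),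
  (.s k93 k81 1 (.s k165 k245 11 (.s k13 k241 13 (.s k1 k9 1 (.d k253 k173 k169 11 13))))), (.s k15
  k10 2 (.s k81 k93 1 (.s k243 k162 12 (.s k91 k167 13 (.s k90 k88 0 (.d k95 k80 k175 2 11))))))]
  .n) (.c k12 (.q k1 [(.s k3 k2 0 (.s k87 k171 13 (.s k169 k253 13 (.d k86 k84 k252 0 14)))), (.s
  k81 k93 1 (.s k169 k253 13 (.s k9 k249 11 (.s k13 k5 1 (.d k241 k161 k165 11 13))))), (.s k3 k2 0
  (.s k81 k93 1 (.s k161 k241 11 (.s k82 k240 12 (.s k83 k80 0 (.d k243 k163 k162 11 12))))))] .n)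
  (.c k81 (.q k69 [(.s k101 k117 3 (.s k207 k138 10 (.s k154 k48 14 (.d k223 k239 k16 3 10)))), (.s
  k101 k117 3 (.s k77 k113 5 (.s k65 k73 1 (.s k195 k130 8 (.s k215 k235 5 (.s k150 k20 8 (.d k105
  k125 k60 5 14)))))))] (.c k101 (.f k207 k138 10 (.q k154 [(.d k223 k239 k16 3 10), (.s k219 k24 8
  (.s k243 k231 5 (.s k166 k12 14 (.d k247 k251 k4 1 12))))] (.c k32 (.l (.s k239 k223 3 (.s k219
  k24 8 (.s k243 k231 5 (.s k166 k12 14 (.d k247 k251 k4 1 12)))))) (.c k239 (.q k32 [(.d k16 k48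
  k223 3 10), (.s k219 k24 8 (.s k243 k231 5 (.s k247 k251 1 (.d k166 k4 k12 12 14))))] .n) .n))))
  (.c k117 (.l (.s k207 k138 10 (.s k223 k239 3 (.s k154 k16 10 (.s k219 k24 8 (.s k243 k231 5 (.s
  k166 k12 14 (.d k247 k251 k4 1 12)))))))) .n))) (.c k93 (.q k21 [(.s k63 k42 6 (.s k127 k191 7 (.s
  k149 k213 7 (.d k106 k64 k192 6 14)))), (.s k149 k213 7 (.s k29 k209 9 (.s k17 k25 1 (.s k51 k34 4
  (.s k119 k187 9 (.s k102 k68 4 (.d k153 k221 k204 9 14)))))))] (.c k149 (.f k63 k42 6 (.q k106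
  [(.d k127 k191 k64 7 6), (.s k123 k72 4 (.s k243 k183 9 (.s k166 k12 14 (.d k247 k251 k4 1 12))))]
  (.c k128 (.l (.s k191 k127 7 (.s k123 k72 4 (.s k243 k183 9 (.s k166 k12 14 (.d k247 k251 k4 1
  12)))))) (.c k191 (.q k128 [(.d k64 k127 k192 6 7), (.s k123 k72 4 (.s k243 k183 9 (.s k247 k251 1
  (.d k166 k4 k12 12 14))))] .n) .n)))) (.c k213 (.l (.s k63 k42 6 (.s k127 k191 7 (.s k106 k64 6
  (.s k123 k72 4 (.s k243 k183 9 (.s k166 k12 14 (.d k247 k251 k4 1 12)))))))) .n))) (.c k162 (.l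
  (.s k93 k81 1 (.s k12 k174 12 (.s k166 k243 14 (.d k4 k8 k247 1 12))))) (.c k166 (.f k81 k93 1 (.q
  k83 [(.s k80 k82 0 (.s k90 k95 2 (.s k88 k91 0 (.d k92 k84 k86 1 2)))), (.s k80 k82 0 (.s k240
  k160 11 (.s k245 k250 2 (.s k165 k5 11 (.s k241 k13 13 (.d k243 k162 k242 12 0)))))), (.s k86 k92
  2 (.s k84 k87 0 (.s k252 k168 13 (.s k169 k3 14 (.d k253 k254 k1 0 13)))))] (.c k162 (.q k174 [(.s
  k80 k82 0 (.s k90 k95 2 (.s k88 k91 0 (.d k92 k84 k86 1 2)))), (.s k86 k92 2 (.s k84 k87 0 (.s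
  k252 k168 13 (.s k169 k3 14 (.d k253 k254 k1 0 13))))), (.s k80 k82 0 (.s k240 k160 11 (.s k245
  k250 2 (.s k165 k5 11 (.d k90 k95 k15 2 14)))))] (.c k95 (.l (.s k82 k80 0 (.s k86 k92 2 (.s k94
  k90 1 (.s k84 k87 0 (.s k252 k168 13 (.d k254 k14 k253 11 0))))))) .n)) (.c k174 (.l (.s k162 k243
  12 (.s k80 k82 0 (.s k86 k92 2 (.s k87 k84 0 (.d k95 k91 k90 1 2)))))) .n)))) (.c k174 (.l (.s k81
  k93 1 (.s k243 k162 12 (.s k166 k12 14 (.d k247 k251 k4 1 12))))) (.c k243 (.q k1 [(.s k3 k2 0 (.s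
  k87 k171 13 (.s k169 k253 13 (.d k86 k84 k252 0 14)))), (.s k81 k93 1 (.s k169 k253 13 (.s k9 k249
  11 (.s k13 k5 1 (.d k241 k161 k165 11 13))))), (.s k3 k2 0 (.s k93 k81 1 (.s k12 k174 12 (.s k8 k4
  1 (.s k9 k6 2 (.s k5 k13 1 (.d k10 k11 k15 0 2)))))))] .n) (.c k247 (.q k87 [(.s k3 k171 13 (.s k1
  k2 0 (.s k169 k253 13 (.d k86 k84 k252 0 14)))), (.s k81 k93 1 (.s k86 k84 0 (.s k83 k92 2 (.s k80
  k82 0 (.d k95 k91 k90 1 2))))), (.s k3 k171 13 (.s k81 k93 1 (.s k243 k162 12 (.s k83 k163 11 (.s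
  k80 k82 0 (.d k95 k91 k90 1 2))))))] .n) (.c k251 (.l (.s k93 k81 1 (.s k12 k174 12 (.s k4 k8 1
  (.d k166 k247 k243 12 14))))) .n))))))))))))

def t7_105 : T TT 256 :=
  (.f k170 k255 14 (.q k3 [(.s k1 k2 0 (.s k169 k253 13 (.s k168 k171 0 (.d k252 k84 k86 13 14))))]
  (.c k1 (.q k68 [(.s k102 k119 4 (.s k34 k238 9 (.s k204 k136 9 (.d k51 k17 k153 4 14)))), (.s k204
  k136 9 (.s k70 k137 10 (.s k69 k71 0 (.s k101 k117 3 (.s k32 k239 10 (.s k48 k16 3 (.d k207 k138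
  k154 10 14)))))))] (.c k136 (.l (.s k102 k119 4 (.s k34 k238 9 (.s k51 k17 4 (.s k35 k19 3 (.s
  k169 k236 10 (.s k168 k171 0 (.d k252 k84 k86 13 14)))))))) (.c k204 (.f k102 k119 4 (.q k51 [(.d
  k34 k238 k17 9 4), (.s k35 k19 3 (.s k169 k236 10 (.s k168 k171 0 (.d k252 k84 k86 13 14))))] (.c
  k221 (.l (.s k238 k34 9 (.s k35 k19 3 (.s k169 k236 10 (.s k168 k171 0 (.d k252 k84 k86 13
  14)))))) (.c k238 (.q k221 [(.d k17 k34 k153 4 9), (.s k35 k19 3 (.s k169 k236 10 (.s k168 k171 0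
  (.d k252 k84 k86 13 14))))] .n) .n)))) .n))) (.c k2 (.q k16 [(.s k48 k32 3 (.s k154 k223 10 (.s
  k138 k186 3 (.d k207 k69 k101 10 14)))), (.s k48 k32 3 (.s k18 k33 4 (.s k17 k19 0 (.s k153 k221 9
  (.s k136 k187 4 (.s k204 k68 9 (.d k51 k34 k102 4 14)))))))] (.c k32 (.l (.s k154 k223 10 (.s k138
  k186 3 (.s k207 k69 10 (.s k139 k71 9 (.s k169 k184 4 (.s k168 k171 0 (.d k252 k84 k86 13
  14)))))))) (.c k48 (.f k154 k223 10 (.q k207 [(.d k138 k186 k69 3 10), (.s k139 k71 9 (.s k169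
  k184 4 (.s k168 k171 0 (.d k252 k84 k86 13 14))))] (.c k117 (.l (.s k186 k138 3 (.s k139 k71 9 (.s
  k169 k184 4 (.s k168 k171 0 (.d k252 k84 k86 13 14)))))) (.c k186 (.q k117 [(.d k69 k101 k138 3
  10), (.s k139 k71 9 (.s k169 k184 4 (.s k168 k171 0 (.d k252 k84 k86 13 14))))] .n) .n)))) .n)))
  (.c k84 (.q k4 [(.s k12 k8 1 (.s k166 k247 12 (.s k162 k174 1 (.d k243 k81 k89 12 14)))), (.s k2
  k1 0 (.s k12 k8 1 (.s k6 k9 2 (.s k86 k254 13 (.d k166 k246 k247 11 12))))), (.s k1 k2 0 (.s k166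
  k247 12 (.s k169 k253 13 (.s k163 k172 2 (.s k243 k83 11 (.d k162 k174 k81 1 12))))))] (.c k166
  (.l (.s k1 k2 0 (.s k8 k12 1 (.s k89 k251 12 (.s k169 k253 13 (.s k9 k249 11 (.s k5 k13 1 (.d k10
  k15 k11 2 0)))))))) (.c k247 (.l (.s k1 k2 0 (.s k12 k8 1 (.s k9 k6 2 (.s k169 k253 13 (.s k89
  k249 11 (.s k81 k93 1 (.d k243 k162 k166 12 14)))))))) .n))) (.c k86 (.f k1 k2 0 (.q k165 [(.s k5
  k245 11 (.s k160 k175 2 (.s k240 k80 11 (.d k15 k10 k90 2 14)))), (.s k169 k253 13 (.s k161 k173 1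
  (.s k240 k82 12 (.d k160 k175 k80 2 11)))), (.s k5 k245 11 (.s k9 k13 1 (.s k12 k6 2 (.s k8 k4 1
  (.d k10 k11 k15 0 2)))))] (.c k67 (.q k124 [(.s k5 k245 11 (.s k160 k175 2 (.s k240 k80 11 (.d k15
  k10 k90 2 14)))), (.s k169 k253 13 (.s k161 k173 1 (.s k240 k82 12 (.d k160 k175 k80 2 11)))), (.s
  k5 k245 11 (.s k9 k13 1 (.s k12 k6 2 (.s k8 k4 1 (.d k10 k11 k15 0 2)))))] (.c k240 (.l (.s k160
  k175 2 (.s k169 k253 13 (.s k161 k173 1 (.s k81 k241 11 (.d k162 k243 k163 12 0)))))) .n)) (.c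
  k124 (.q k67 [(.s k5 k245 11 (.s k160 k175 2 (.s k240 k80 11 (.d k15 k10 k90 2 14)))), (.s k195
  k131 7 (.s k65 k130 8 (.s k66 k64 0 (.d k129 k193 k192 7 8))))] .n) (.c k240 (.l (.s k160 k175 2
  (.s k169 k253 13 (.s k161 k173 1 (.s k81 k241 11 (.d k162 k243 k163 12 0)))))) .n))))) (.c k168
  (.q k4 [(.s k166 k247 12 (.s k162 k174 1 (.s k243 k81 12 (.d k12 k8 k89 1 14)))), (.s k2 k1 0 (.s
  k12 k8 1 (.s k6 k9 2 (.s k86 k254 13 (.d k166 k246 k247 11 12))))), (.s k1 k2 0 (.s k166 k247 12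
  (.s k169 k253 13 (.s k163 k172 2 (.s k243 k83 11 (.d k162 k174 k81 1 12))))))] (.c k166 (.l (.s k1
  k2 0 (.s k8 k12 1 (.s k89 k251 12 (.s k169 k253 13 (.s k9 k249 11 (.s k5 k13 1 (.d k10 k15 k11 2
  0)))))))) (.c k247 (.l (.s k1 k2 0 (.s k12 k8 1 (.s k9 k6 2 (.s k169 k253 13 (.s k89 k249 11 (.s
  k81 k93 1 (.d k243 k162 k166 12 14)))))))) .n))) (.c k169 (.q k41 [(.s k2 k1 0 (.s k22 k60 6 (.s
  k42 k62 5 (.s k43 k40 0 (.d k63 k23 k21 5 6))))), (.s k1 k2 0 (.s k21 k61 5 (.s k149 k213 7 (.s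
  k128 k191 6 (.s k192 k64 7 (.d k63 k42 k106 6 14)))))), (.s k60 k22 6 (.s k40 k20 5 (.s k42 k43 0
  (.s k106 k234 7 (.s k64 k127 6 (.s k192 k128 7 (.d k63 k21 k149 6 14))))))), (.s k2 k1 0 (.s k22
  k60 6 (.s k62 k42 5 (.s k86 k254 13 (.s k150 k214 7 (.s k194 k106 13 (.d k130 k190 k66 5 7)))))))]
  (.c k42 (.f k1 k2 0 (.l (.s k21 k61 5 (.s k22 k60 6 (.s k23 k20 0 (.s k63 k43 5 (.s k149 k213 7
  (.s k128 k191 6 (.d k192 k106 k64 14 7))))))))) .n)) (.c k171 (.l (.s k2 k1 0 (.s k86 k254 13 (.s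
  k84 k87 0 (.d k252 k168 k169 13 14))))) (.c k252 (.f k2 k1 0 (.q k66 [(.s k129 k192 8 (.s k130
  k194 7 (.s k131 k128 0 (.d k195 k67 k65 7 8)))), (.s k130 k194 7 (.s k150 k190 5 (.s k20 k215 8
  (.s k60 k40 5 (.s k22 k41 6 (.d k86 k254 k214 13 7)))))), (.s k192 k129 8 (.s k128 k64 7 (.s k149
  k191 6 (.s k21 k213 7 (.d k63 k42 k106 6 14)))))] (.c k253 (.l (.s k254 k86 13 (.s k129 k192 8 (.s
  k130 k194 7 (.s k131 k128 0 (.d k195 k67 k65 7 8)))))) (.c k254 (.q k253 [(.s k192 k129 8 (.s k64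
  k128 7 (.s k65 k67 0 (.d k130 k194 k195 7 8)))), (.s k130 k194 7 (.s k150 k190 5 (.s k20 k215 8
  (.s k60 k40 5 (.s k22 k41 6 (.s k21 k23 0 (.d k42 k62 k63 5 6))))))), (.s k192 k129 8 (.s k128 k64
  7 (.s k149 k191 6 (.s k21 k213 7 (.d k63 k42 k106 6 14)))))] .n) .n)))) (.c k253 (.l (.s k2 k1 0
  (.s k86 k254 13 (.s k252 k169 14 (.d k84 k87 k168 0 13))))) (.c k254 (.l (.s k1 k2 0 (.s k169 k253
  13 (.s k252 k86 14 (.d k168 k171 k84 0 13))))) .n))))))))))))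

def t7_106 : T TT 256 :=
  (.f k170 k255 14 (.q k3 [(.s k1 k2 0 (.s k169 k253 13 (.s k168 k171 0 (.d k252 k84 k86 13 14))))]
  (.c k1 (.q k32 [(.s k48 k16 3 (.s k101 k239 10 (.s k69 k117 3 (.d k207 k138 k154 10 14)))), (.s
  k48 k16 3 (.s k33 k18 4 (.s k34 k35 0 (.s k102 k238 9 (.s k68 k119 4 (.s k204 k136 9 (.d k51 k17
  k153 4 14)))))))] (.c k16 (.l (.s k101 k239 10 (.s k69 k117 3 (.s k207 k138 10 (.s k71 k139 9 (.s
  k86 k116 4 (.s k84 k87 0 (.d k252 k168 k169 13 14)))))))) (.c k48 (.f k101 k239 10 (.q k207 [(.d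
  k69 k117 k138 3 10), (.s k71 k139 9 (.s k86 k116 4 (.s k84 k87 0 (.d k252 k168 k169 13 14))))] (.c
  k117 (.q k186 [(.d k138 k154 k69 3 10), (.s k71 k139 9 (.s k86 k116 4 (.s k84 k87 0 (.d k252 k168
  k169 13 14))))] .n) (.c k186 (.l (.s k117 k69 3 (.s k71 k139 9 (.s k86 k116 4 (.s k84 k87 0 (.d
  k252 k168 k169 13 14)))))) .n)))) .n))) (.c k2 (.q k138 [(.s k154 k186 3 (.s k16 k223 10 (.s k48
  k32 3 (.d k207 k69 k101 10 14)))), (.s k207 k69 10 (.s k139 k71 9 (.s k136 k137 0 (.s k153 k187 4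
  (.s k17 k221 9 (.s k51 k34 4 (.d k204 k68 k102 9 14)))))))] (.c k69 (.l (.s k154 k186 3 (.s k16
  k223 10 (.s k48 k32 3 (.s k18 k33 4 (.s k86 k222 9 (.s k84 k87 0 (.d k252 k168 k169 13 14))))))))
  (.c k207 (.f k154 k186 3 (.q k48 [(.d k16 k223 k32 10 3), (.s k18 k33 4 (.s k86 k222 9 (.s k84 k87
  0 (.d k252 k168 k169 13 14))))] (.c k223 (.q k239 [(.d k32 k16 k101 3 10), (.s k18 k33 4 (.s k86
  k222 9 (.s k84 k87 0 (.d k252 k168 k169 13 14))))] .n) (.c k239 (.l (.s k223 k16 10 (.s k18 k33 4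
  (.s k86 k222 9 (.s k84 k87 0 (.d k252 k168 k169 13 14)))))) .n)))) .n))) (.c k84 (.q k4 [(.s k12
  k8 1 (.s k166 k247 12 (.s k162 k174 1 (.d k243 k81 k89 12 14)))), (.s k2 k1 0 (.s k12 k8 1 (.s k6
  k9 2 (.s k86 k254 13 (.d k166 k246 k247 11 12))))), (.s k1 k2 0 (.s k166 k247 12 (.s k169 k253 13
  (.s k163 k172 2 (.s k243 k83 11 (.d k162 k174 k81 1 12))))))] (.c k166 (.l (.s k1 k2 0 (.s k8 k12
  1 (.s k89 k251 12 (.s k169 k253 13 (.s k9 k249 11 (.s k5 k13 1 (.d k10 k15 k11 2 0)))))))) (.c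
  k247 (.l (.s k1 k2 0 (.s k12 k8 1 (.s k9 k6 2 (.s k169 k253 13 (.s k89 k249 11 (.s k81 k93 1 (.d
  k243 k162 k166 12 14)))))))) .n))) (.c k86 (.q k165 [(.s k5 k245 11 (.s k15 k10 2 (.s k160 k175 2
  (.d k240 k80 k90 11 14)))), (.s k1 k2 0 (.s k160 k175 2 (.s k169 k253 13 (.s k161 k173 1 (.s k81
  k241 11 (.d k162 k163 k243 0 12)))))), (.s k1 k2 0 (.s k169 k253 13 (.s k161 k173 1 (.s k240 k82
  12 (.d k160 k175 k80 2 11))))), (.s k1 k2 0 (.s k5 k245 11 (.s k9 k13 1 (.s k12 k6 2 (.s k8 k4 1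
  (.d k10 k11 k15 0 2))))))] (.c k66 (.q k126 [(.s k5 k245 11 (.s k15 k10 2 (.s k160 k175 2 (.d k240
  k80 k90 11 14)))), (.s k1 k2 0 (.s k160 k175 2 (.s k169 k253 13 (.s k161 k173 1 (.s k81 k241 11
  (.d k162 k163 k243 0 12)))))), (.s k1 k2 0 (.s k169 k253 13 (.s k161 k173 1 (.s k240 k82 12 (.d
  k160 k175 k80 2 11))))), (.s k1 k2 0 (.s k5 k245 11 (.s k9 k13 1 (.s k12 k6 2 (.s k8 k4 1 (.d k10
  k11 k15 0 2))))))] .n) (.c k126 (.q k66 [(.s k5 k245 11 (.s k15 k10 2 (.s k160 k175 2 (.d k240 k80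
  k90 11 14)))), (.s k1 k2 0 (.s k129 k192 8 (.s k65 k193 7 (.s k67 k64 0 (.d k195 k131 k130 7
  8)))))] .n) .n))) (.c k168 (.q k4 [(.s k166 k247 12 (.s k162 k174 1 (.s k243 k81 12 (.d k12 k8 k89
  1 14)))), (.s k2 k1 0 (.s k12 k8 1 (.s k6 k9 2 (.s k86 k254 13 (.d k166 k246 k247 11 12))))), (.s
  k1 k2 0 (.s k166 k247 12 (.s k169 k253 13 (.s k163 k172 2 (.s k243 k83 11 (.d k162 k174 k81 1
  12))))))] (.c k166 (.l (.s k1 k2 0 (.s k8 k12 1 (.s k89 k251 12 (.s k169 k253 13 (.s k9 k249 11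
  (.s k5 k13 1 (.d k10 k15 k11 2 0)))))))) (.c k247 (.l (.s k1 k2 0 (.s k12 k8 1 (.s k9 k6 2 (.s
  k169 k253 13 (.s k89 k249 11 (.s k81 k93 1 (.d k243 k162 k166 12 14)))))))) .n))) (.c k169 (.f k2
  k1 0 (.q k90 [(.s k10 k250 11 (.s k80 k95 2 (.s k240 k160 11 (.d k15 k5 k165 2 14)))), (.s k80 k95
  2 (.s k86 k254 13 (.s k82 k94 1 (.s k81 k83 0 (.d k162 k242 k243 11 12))))), (.s k10 k250 11 (.s
  k14 k6 1 (.s k86 k254 13 (.s k82 k94 1 (.d k242 k162 k166 11 13)))))] (.c k43 (.q k232 [(.s k10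
  k250 11 (.s k80 k95 2 (.s k240 k160 11 (.d k15 k5 k165 2 14)))), (.s k80 k95 2 (.s k86 k254 13 (.s
  k82 k94 1 (.s k81 k83 0 (.d k162 k242 k243 11 12))))), (.s k10 k250 11 (.s k14 k6 1 (.s k86 k254
  13 (.s k82 k94 1 (.d k242 k162 k166 11 13)))))] .n) (.c k232 (.q k43 [(.s k10 k250 11 (.s k80 k95
  2 (.s k240 k160 11 (.d k15 k5 k165 2 14)))), (.s k63 k23 5 (.s k42 k21 6 (.s k22 k62 5 (.d k41 k40
  k60 0 6))))] .n) .n)))) (.c k171 (.l (.s k2 k1 0 (.s k86 k254 13 (.s k84 k87 0 (.d k252 k168 k169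
  13 14))))) (.c k252 (.f k2 k1 0 (.q k162 [(.s k166 k174 1 (.s k4 k247 12 (.s k12 k8 1 (.d k243 k81
  k89 12 14)))), (.s k82 k242 11 (.s k240 k161 12 (.s k80 k160 11 (.s k90 k95 2 (.d k86 k254 k94 13
  1)))))] (.c k81 (.l (.s k166 k174 1 (.s k4 k247 12 (.s k12 k8 1 (.s k6 k9 2 (.d k86 k246 k254 11
  13)))))) (.c k253 (.l (.s k254 k86 13 (.s k81 k243 12 (.s k82 k242 11 (.s k80 k83 0 (.d k240 k160
  k161 11 12)))))) (.c k254 (.q k253 [(.s k81 k243 12 (.s k82 k242 11 (.s k80 k83 0 (.d k240 k160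
  k161 11 12)))), (.s k166 k174 1 (.s k4 k247 12 (.s k12 k8 1 (.d k243 k81 k89 12 14)))), (.s k82
  k242 11 (.s k240 k161 12 (.s k80 k160 11 (.s k90 k95 2 (.s k15 k165 14 (.d k10 k250 k5 11 2))))))]
  (.c k81 (.l (.s k166 k174 1 (.s k4 k247 12 (.s k12 k8 1 (.s k6 k9 2 (.s k242 k82 11 (.d k14 k10
  k90 1 13))))))) .n)) .n))))) (.c k253 (.l (.s k2 k1 0 (.s k86 k254 13 (.s k252 k169 14 (.d k84 k87
  k168 0 13))))) (.c k254 (.l (.s k1 k2 0 (.s k169 k253 13 (.s k252 k86 14 (.d k168 k171 k84 0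
  13))))) .n))))))))))))

def t7_107 : T TT 256 :=
  (.f k255 k170 14 (.q k105 [(.s k65 k125 5 (.s k195 k130 8 (.s k150 k60 14 (.d k215 k235 k20 5
  8))))] (.c k20 (.q k1 [(.s k3 k2 0 (.s k169 k253 13 (.s k86 k252 14 (.d k87 k84 k171 0 13)))), (.s
  k65 k125 5 (.s k169 k253 13 (.s k41 k233 7 (.s k61 k21 5 (.d k193 k129 k149 7 13))))), (.s k3 k2 0
  (.s k65 k125 5 (.s k129 k193 7 (.s k66 k192 8 (.s k67 k64 0 (.d k195 k131 k130 7 8))))))] .n) (.c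
  k60 (.q k1 [(.s k3 k2 0 (.s k169 k253 13 (.s k86 k252 14 (.d k87 k84 k171 0 13)))), (.s k65 k125 5
  (.s k169 k253 13 (.s k41 k233 7 (.s k61 k21 5 (.d k193 k129 k149 7 13))))), (.s k3 k2 0 (.s k65
  k125 5 (.s k129 k193 7 (.s k66 k192 8 (.s k67 k64 0 (.d k195 k131 k130 7 8))))))] .n) (.c k65 (.q
  k149 [(.s k21 k213 7 (.s k63 k42 6 (.s k106 k192 14 (.d k127 k64 k191 6 7)))), (.s k21 k213 7 (.s
  k61 k193 13 (.s k1 k41 5 (.s k3 k2 0 (.s k87 k171 13 (.s k86 k84 0 (.d k169 k253 k252 13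
  14)))))))] (.c k21 (.q k20 [(.s k60 k40 5 (.d k150 k215 k195 8 14)), (.s k60 k40 5 (.s k61 k193 13
  (.s k63 k62 0 (.s k127 k191 7 (.d k106 k64 k192 6 14))))), (.s k193 k61 13 (.s k215 k150 8 (.s
  k195 k235 5 (.s k192 k194 0 (.s k64 k128 7 (.d k106 k127 k63 6 14))))))] .n) (.c k213 (.q k1 [(.s
  k61 k193 13 (.s k41 k21 5 (.d k169 k233 k253 7 13))), (.s k3 k2 0 (.s k87 k171 13 (.s k86 k84 0
  (.s k23 k212 8 (.s k67 k124 6 (.s k195 k131 7 (.d k215 k235 k151 5 7)))))))] (.c k169 (.l (.s k61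
  k193 13 (.s k21 k41 5 (.s k63 k42 6 (.s k106 k192 14 (.d k127 k64 k191 6 7)))))) .n)) .n))) (.c
  k125 (.q k253 [(.s k169 k1 13 (.s k252 k254 0 (.s k84 k168 13 (.d k86 k87 k3 0 14)))), (.s k169 k1
  13 (.s k233 k41 7 (.s k213 k193 5 (.s k192 k234 6 (.s k64 k128 7 (.s k106 k127 6 (.d k149 k21 k63
  7 14)))))))] (.c k1 (.q k4 [(.s k166 k247 12 (.s k12 k8 1 (.s k89 k243 14 (.d k93 k81 k174 1
  12)))), (.s k247 k166 12 (.s k252 k254 0 (.s k84 k168 13 (.s k244 k164 11 (.s k245 k246 0 (.d k240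
  k250 k248 2 1)))))), (.s k12 k8 1 (.s k252 k254 0 (.s k84 k168 13 (.s k92 k172 11 (.s k88 k80 1
  (.d k164 k244 k240 11 13))))))] .n) (.c k87 (.l (.s k169 k1 13 (.s k233 k41 7 (.s k252 k254 0 (.s
  k195 k214 6 (.s k150 k60 14 (.d k215 k235 k20 5 8))))))) (.c k169 (.q k195 [(.s k150 k60 14 (.d
  k215 k235 k20 5 8)), (.s k150 k60 14 (.s k252 k254 0 (.s k214 k233 6 (.s k86 k22 7 (.d k84 k168
  k87 13 0))))), (.s k235 k215 5 (.s k252 k254 0 (.s k233 k214 6 (.s k213 k193 5 (.d k234 k232 k192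
  0 6)))))] (.c k168 (.q k171 [(.s k150 k60 14 (.d k215 k235 k20 5 8)), (.s k60 k150 14 (.s k87 k3
  13 (.s k86 k84 0 (.s k124 k67 6 (.d k252 k188 k254 7 0))))), (.s k235 k215 5 (.s k252 k254 0 (.s
  k233 k214 6 (.s k213 k193 5 (.d k234 k232 k192 0 6)))))] .n) (.c k171 (.q k168 [(.d k252 k254 k84
  0 13), (.s k150 k60 14 (.d k215 k235 k20 5 8))] (.c k43 (.l (.s k235 k215 5 (.d k252 k254 k84 0
  13))) (.c k235 (.q k43 [(.d k252 k254 k84 0 13), (.s k60 k150 14 (.s k40 k20 5 (.s k104 k232 7 (.s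
  k192 k148 13 (.s k193 k194 0 (.d k213 k233 k234 5 6))))))] (.c k84 (.l (.s k60 k150 14 (.s k40 k20
  5 (.s k104 k232 7 (.s k148 k192 13 (.s k188 k128 5 (.d k252 k254 k124 0 7))))))) .n)) .n))) .n)))
  .n)))) (.c k130 (.l (.s k125 k65 5 (.s k60 k190 8 (.s k150 k195 14 (.d k20 k40 k215 5 8))))) (.c
  k150 (.f k125 k65 5 (.q k61 [(.s k149 k193 13 (.s k21 k213 7 (.s k1 k41 5 (.d k253 k189 k169 7
  13)))), (.s k253 k189 7 (.s k169 k1 13 (.s k252 k254 0 (.s k84 k168 13 (.d k86 k87 k3 0 14))))),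
  (.s k149 k193 13 (.s k213 k21 7 (.s k192 k234 6 (.s k64 k128 7 (.d k106 k127 k63 6 14))))), (.s
  k189 k253 7 (.s k190 k60 8 (.s k191 k188 0 (.s k63 k127 7 (.s k21 k42 6 (.d k149 k213 k193 7
  13))))))] (.c k130 (.l (.s k190 k60 8 (.s k149 k193 13 (.s k21 k213 7 (.s k1 k41 5 (.d k253 k189
  k169 7 13)))))) (.c k190 (.q k130 [(.s k149 k193 13 (.s k21 k213 7 (.s k1 k41 5 (.d k253 k189 k169
  7 13)))), (.s k253 k189 7 (.s k252 k254 0 (.s k84 k168 13 (.s k86 k87 0 (.d k169 k1 k3 13 14))))),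
  (.s k149 k193 13 (.s k213 k21 7 (.s k192 k234 6 (.s k64 k128 7 (.d k106 k127 k63 6 14)))))] (.c k1
  (.l (.s k189 k253 7 (.s k149 k193 13 (.s k129 k169 5 (.s k213 k21 7 (.s k192 k234 6 (.d k128 k131
  k64 0 7))))))) .n)) (.c k193 (.l (.s k253 k189 7 (.s k1 k169 13 (.s k3 k2 0 (.s k41 k21 5 (.d k60
  k22 k190 6 8)))))) .n))))) (.c k190 (.l (.s k65 k125 5 (.s k195 k130 8 (.s k150 k60 14 (.d k215
  k235 k20 5 8))))) (.c k195 (.q k63 [(.s k21 k42 6 (.s k127 k191 7 (.s k106 k64 6 (.d k149 k213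
  k192 7 14)))), (.s k21 k42 6 (.s k125 k65 5 (.s k60 k190 8 (.s k61 k62 0 (.s k1 k41 5 (.d k253
  k189 k169 7 13)))))), (.s k125 k65 5 (.s k60 k190 8 (.s k61 k62 0 (.s k127 k191 7 (.s k106 k64 6
  (.d k149 k193 k192 13 14))))))] (.c k106 (.l (.s k125 k65 5 (.s k60 k190 8 (.s k61 k62 0 (.s k149
  k193 13 (.d k21 k42 k213 6 7)))))) .n)) (.c k215 (.q k1 [(.s k3 k2 0 (.s k169 k253 13 (.s k86 k252
  14 (.d k87 k84 k171 0 13)))), (.s k65 k125 5 (.s k169 k253 13 (.s k41 k233 7 (.s k61 k21 5 (.d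
  k193 k129 k149 7 13))))), (.s k3 k2 0 (.s k65 k125 5 (.s k129 k193 7 (.s k66 k192 8 (.s k67 k64 0
  (.d k195 k131 k130 7 8))))))] .n) (.c k235 (.l (.s k125 k65 5 (.s k60 k190 8 (.s k20 k40 5 (.d
  k150 k215 k195 8 14))))) .n))))))))))))

def t7_108 : T TT 256 :=
  (.f k255 k170 14 (.q k89 [(.s k81 k93 1 (.s k243 k162 12 (.s k166 k12 14 (.d k247 k251 k4 1
  12))))] (.c k4 (.q k5 [(.s k165 k245 11 (.s k15 k10 2 (.s k90 k240 14 (.d k95 k80 k175 2 11)))),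
  (.s k93 k81 1 (.s k165 k245 11 (.s k13 k241 13 (.s k1 k9 1 (.d k253 k173 k169 11 13))))), (.s k15
  k10 2 (.s k81 k93 1 (.s k243 k162 12 (.s k91 k167 13 (.s k90 k88 0 (.d k95 k80 k175 2 11))))))]
  .n) (.c k12 (.q k1 [(.s k3 k2 0 (.s k87 k171 13 (.s k86 k84 0 (.d k169 k253 k252 13 14)))), (.s
  k81 k93 1 (.s k169 k253 13 (.s k9 k249 11 (.s k13 k5 1 (.d k241 k161 k165 11 13))))), (.s k3 k2 0
  (.s k81 k93 1 (.s k161 k241 11 (.s k82 k240 12 (.s k83 k80 0 (.d k243 k163 k162 11 12))))))] .n)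
  (.c k81 (.q k69 [(.s k101 k117 3 (.s k207 k138 10 (.s k154 k48 14 (.d k223 k239 k16 3 10)))), (.s
  k101 k117 3 (.s k77 k113 5 (.s k65 k73 1 (.s k195 k130 8 (.s k215 k235 5 (.s k150 k20 8 (.d k105
  k125 k60 5 14)))))))] (.c k101 (.f k207 k138 10 (.q k154 [(.d k223 k239 k16 3 10), (.s k219 k24 8
  (.s k243 k231 5 (.s k166 k12 14 (.d k247 k251 k4 1 12))))] (.c k32 (.l (.s k239 k223 3 (.s k219
  k24 8 (.s k243 k231 5 (.s k166 k12 14 (.d k247 k251 k4 1 12)))))) (.c k239 (.q k32 [(.d k16 k48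
  k223 3 10), (.s k219 k24 8 (.s k243 k231 5 (.s k247 k251 1 (.d k166 k4 k12 12 14))))] .n) .n))))
  (.c k117 (.l (.s k207 k138 10 (.s k223 k239 3 (.s k154 k16 10 (.s k219 k24 8 (.s k243 k231 5 (.s
  k166 k12 14 (.d k247 k251 k4 1 12)))))))) .n))) (.c k93 (.q k21 [(.s k149 k213 7 (.s k63 k42 6 (.s
  k106 k192 14 (.d k127 k64 k191 6 7)))), (.s k149 k213 7 (.s k29 k209 9 (.s k17 k25 1 (.s k51 k34 4
  (.s k119 k187 9 (.s k102 k68 4 (.d k153 k221 k204 9 14)))))))] (.c k149 (.f k63 k42 6 (.q k106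
  [(.d k127 k191 k64 7 6), (.s k123 k72 4 (.s k243 k183 9 (.s k166 k12 14 (.d k247 k251 k4 1 12))))]
  (.c k128 (.l (.s k191 k127 7 (.s k123 k72 4 (.s k243 k183 9 (.s k166 k12 14 (.d k247 k251 k4 1
  12)))))) (.c k191 (.q k128 [(.d k64 k127 k192 6 7), (.s k123 k72 4 (.s k243 k183 9 (.s k247 k251 1
  (.d k166 k4 k12 12 14))))] .n) .n)))) (.c k213 (.l (.s k63 k42 6 (.s k127 k191 7 (.s k106 k64 6
  (.s k123 k72 4 (.s k243 k183 9 (.s k166 k12 14 (.d k247 k251 k4 1 12)))))))) .n))) (.c k162 (.l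
  (.s k93 k81 1 (.s k12 k174 12 (.s k166 k243 14 (.d k4 k8 k247 1 12))))) (.c k166 (.f k81 k93 1 (.q
  k83 [(.s k80 k82 0 (.s k90 k95 2 (.s k88 k91 0 (.d k92 k84 k86 1 2)))), (.s k80 k82 0 (.s k240
  k160 11 (.s k245 k250 2 (.s k165 k5 11 (.s k241 k13 13 (.d k243 k162 k242 12 0)))))), (.s k86 k92
  2 (.s k84 k87 0 (.s k252 k168 13 (.s k169 k3 14 (.d k253 k254 k1 0 13)))))] (.c k162 (.q k174 [(.s
  k80 k82 0 (.s k90 k95 2 (.s k88 k91 0 (.d k92 k84 k86 1 2)))), (.s k86 k92 2 (.s k84 k87 0 (.s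
  k252 k168 13 (.s k169 k3 14 (.d k253 k254 k1 0 13))))), (.s k80 k82 0 (.s k240 k160 11 (.s k245
  k250 2 (.s k165 k5 11 (.d k90 k95 k15 2 14)))))] (.c k95 (.l (.s k82 k80 0 (.s k86 k92 2 (.s k94
  k90 1 (.s k84 k87 0 (.s k252 k168 13 (.d k254 k14 k253 11 0))))))) .n)) (.c k174 (.l (.s k162 k243
  12 (.s k80 k82 0 (.s k86 k92 2 (.s k87 k84 0 (.d k95 k91 k90 1 2)))))) .n)))) (.c k174 (.l (.s k81
  k93 1 (.s k243 k162 12 (.s k166 k12 14 (.d k247 k251 k4 1 12))))) (.c k243 (.q k1 [(.s k3 k2 0 (.s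
  k87 k171 13 (.s k86 k84 0 (.d k169 k253 k252 13 14)))), (.s k81 k93 1 (.s k169 k253 13 (.s k9 k249
  11 (.s k13 k5 1 (.d k241 k161 k165 11 13))))), (.s k3 k2 0 (.s k93 k81 1 (.s k12 k174 12 (.s k8 k4
  1 (.s k9 k6 2 (.s k5 k13 1 (.d k10 k11 k15 0 2)))))))] .n) (.c k247 (.q k87 [(.s k86 k84 0 (.s k3
  k171 13 (.s k169 k252 14 (.d k1 k2 k253 0 13)))), (.s k81 k93 1 (.s k86 k84 0 (.s k83 k92 2 (.s
  k80 k82 0 (.d k95 k91 k90 1 2))))), (.s k3 k171 13 (.s k81 k93 1 (.s k243 k162 12 (.s k83 k163 11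
  (.s k80 k82 0 (.d k95 k91 k90 1 2))))))] .n) (.c k251 (.l (.s k93 k81 1 (.s k12 k174 12 (.s k4 k8
  1 (.d k166 k247 k243 12 14))))) .n))))))))))))

def t7_109 : T TT 256 :=
  (.f k255 k170 14 (.q k106 [(.s k64 k127 6 (.s k192 k128 7 (.s k149 k63 14 (.d k213 k234 k21 6
  7))))] (.c k21 (.q k1 [(.s k169 k253 13 (.s k3 k2 0 (.s k86 k252 14 (.d k87 k84 k171 0 13)))), (.s
  k64 k127 6 (.s k192 k128 7 (.s k213 k234 6 (.s k253 k169 13 (.s k193 k233 5 (.s k65 k129 7 (.d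
  k195 k130 k194 8 0))))))), (.s k3 k2 0 (.s k64 k127 6 (.s k192 k128 7 (.s k66 k129 8 (.s k86 k126
  5 (.d k87 k84 k171 0 13))))))] (.c k171 (.l (.s k3 k2 0 (.s k127 k64 6 (.s k63 k191 7 (.s k43 k23
  5 (.d k169 k232 k253 8 13)))))) .n)) (.c k63 (.q k1 [(.s k3 k2 0 (.s k87 k171 13 (.s k86 k84 0 (.d
  k169 k253 k252 13 14)))), (.s k64 k127 6 (.s k192 k128 7 (.s k213 k234 6 (.s k253 k169 13 (.s k193
  k233 5 (.s k65 k129 7 (.d k195 k130 k194 8 0))))))), (.s k3 k2 0 (.s k64 k127 6 (.s k192 k128 7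
  (.s k66 k129 8 (.s k86 k126 5 (.d k87 k84 k171 0 13))))))] (.c k171 (.l (.s k3 k2 0 (.s k64 k127 6
  (.s k169 k253 13 (.s k86 k252 14 (.s k192 k128 7 (.d k66 k126 k129 5 8))))))) .n)) (.c k64 (.q
  k195 [(.s k65 k130 8 (.s k215 k235 5 (.s k150 k20 8 (.d k105 k125 k60 5 14)))), (.s k65 k130 8 (.s
  k105 k125 5 (.s k107 k104 0 (.s k63 k151 13 (.s k21 k42 6 (.d k149 k213 k192 7 14)))))), (.s k215
  k235 5 (.s k150 k20 8 (.s k194 k62 13 (.s k192 k193 0 (.s k149 k63 14 (.d k213 k234 k21 6 7))))))]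
  (.c k105 (.f k235 k215 5 (.q k48 [(.s k16 k32 3 (.s k117 k186 10 (.s k101 k69 3 (.d k154 k223 k207
  10 14)))), (.s k32 k16 3 (.s k65 k130 8 (.s k97 k146 12 (.s k81 k113 3 (.d k162 k227 k243 8
  12))))), (.s k117 k186 10 (.s k101 k69 3 (.s k96 k111 2 (.s k192 k144 11 (.s k149 k63 14 (.d k213
  k234 k21 6 7))))))] (.c k97 (.q k101 [(.d k117 k69 k186 3 10), (.s k16 k32 3 (.d k154 k223 k207 10
  14))] .n) (.c k101 (.l (.s k97 k146 12 (.s k32 k16 3 (.s k65 k130 8 (.s k81 k113 3 (.d k162 k227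
  k243 8 12)))))) .n)))) (.c k150 (.q k194 [(.s k192 k193 0 (.s k149 k63 14 (.d k213 k234 k21 6
  7))), (.s k130 k65 8 (.s k66 k2 7 (.s k86 k126 5 (.s k84 k87 0 (.s k252 k168 13 (.s k169 k3 14 (.d
  k253 k254 k1 0 13)))))))] (.c k130 (.q k190 [(.s k192 k193 0 (.s k149 k63 14 (.d k213 k234 k21 6
  7))), (.s k60 k125 8 (.s k192 k193 0 (.s k104 k148 13 (.s k107 k105 0 (.d k63 k151 k149 13
  14))))), (.s k192 k193 0 (.s k234 k213 6 (.s k214 k254 5 (.s k233 k252 6 (.d k235 k232 k215 0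
  5)))))] (.c k192 (.q k1 [(.s k3 k2 0 (.s k87 k171 13 (.s k169 k253 13 (.d k86 k84 k252 0 14)))),
  (.s k3 k2 0 (.s k60 k125 8 (.s k40 k20 5 (.s k41 k22 6 (.s k42 k43 0 (.d k21 k61 k63 5 6)))))),
  (.s k125 k60 8 (.s k65 k105 5 (.s k193 k129 7 (.s k253 k169 13 (.s k233 k213 5 (.d k252 k254 k214
  0 6))))))] (.c k3 (.l (.s k125 k60 8 (.s k65 k105 5 (.s k253 k169 13 (.s k252 k254 0 (.s k233 k214
  6 (.d k193 k213 k129 5 7))))))) (.c k254 (.l (.s k169 k253 13 (.s k3 k2 0 (.s k86 k252 14 (.d k87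
  k84 k171 0 13))))) .n))) (.c k193 (.l (.s k125 k60 8 (.s k105 k65 5 (.s k107 k104 0 (.s k63 k151
  13 (.s k21 k42 6 (.d k149 k192 k213 14 7))))))) .n))) (.c k190 (.l (.s k130 k65 8 (.s k192 k193 0
  (.s k149 k63 14 (.d k213 k234 k21 6 7))))) .n))) .n))) (.c k127 (.q k195 [(.s k65 k130 8 (.s k215
  k235 5 (.s k150 k20 8 (.d k105 k125 k60 5 14)))), (.s k65 k130 8 (.s k105 k125 5 (.s k107 k104 0
  (.s k63 k151 13 (.s k21 k42 6 (.d k149 k213 k192 7 14)))))), (.s k215 k235 5 (.s k150 k20 8 (.s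
  k194 k62 13 (.s k192 k193 0 (.s k149 k63 14 (.d k213 k234 k21 6 7))))))] (.c k105 (.f k235 k215 5
  (.q k97 [(.s k48 k146 12 (.s k16 k32 3 (.s k117 k186 10 (.s k101 k69 3 (.d k154 k223 k207 10
  14))))), (.s k65 k130 8 (.s k81 k113 3 (.s k89 k93 1 (.s k243 k162 12 (.s k166 k12 14 (.d k247
  k251 k4 1 12))))))] (.c k146 (.q k1 [(.s k169 k253 13 (.s k43 k232 8 (.s k171 k107 7 (.d k3 k87 k2
  13 0)))), (.s k65 k130 8 (.s k193 k129 7 (.s k192 k194 0 (.s k149 k63 14 (.d k213 k234 k21 6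
  7)))))] (.c k2 (.l (.s k65 k130 8 (.s k193 k129 7 (.s k253 k169 13 (.s k233 k213 5 (.d k252 k214
  k254 6 0)))))) .n)) .n))) (.c k150 (.q k149 [(.s k21 k213 7 (.d k63 k42 k192 6 14)), (.s k63 k192
  14 (.s k107 k151 13 (.s k105 k104 0 (.d k65 k130 k125 8 5))))] (.c k63 (.l (.s k213 k21 7 (.s k192
  k234 6 (.s k193 k194 0 (.s k105 k61 13 (.d k65 k125 k130 5 8)))))) (.c k130 (.q k190 [(.s k21 k213
  7 (.d k63 k42 k192 6 14)), (.s k63 k192 14 (.s k107 k151 13 (.s k105 k104 0 (.d k125 k60 k65 8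
  5))))] (.c k63 (.l (.s k125 k60 8 (.s k105 k65 5 (.s k213 k21 7 (.s k192 k234 6 (.d k193 k61 k194
  13 0)))))) (.c k192 (.l (.s k21 k213 7 (.s k63 k42 6 (.s k107 k151 13 (.s k105 k104 0 (.d k125 k60
  k65 8 5)))))) .n))) (.c k190 (.l (.s k130 k65 8 (.s k21 k213 7 (.d k63 k42 k192 6 14)))) (.c k192
  (.l (.s k21 k213 7 (.s k63 k42 6 (.s k107 k151 13 (.s k105 k104 0 (.d k65 k125 k130 5 8))))))
  .n))))) .n))) (.c k128 (.l (.s k127 k64 6 (.s k63 k191 7 (.s k149 k192 14 (.d k21 k42 k213 6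
  7))))) (.c k149 (.f k64 k127 6 (.q k101 [(.s k69 k117 3 (.s k79 k74 2 (.s k96 k111 2 (.d k112 k80
  k90 3 6)))), (.s k69 k117 3 (.s k207 k138 10 (.s k154 k48 14 (.d k223 k239 k16 3 10)))), (.s k96
  k111 2 (.s k117 k69 3 (.s k48 k186 10 (.d k192 k128 k144 7 11))))] (.c k69 (.l (.s k96 k111 2 (.s
  k80 k112 3 (.s k160 k240 11 (.s k32 k224 7 (.s k48 k16 3 (.d k192 k128 k144 7 11))))))) (.c k117
  (.l (.s k96 k111 2 (.s k112 k80 3 (.s k79 k90 6 (.s k69 k74 2 (.s k207 k138 10 (.s k154 k48 14 (.d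
  k223 k239 k16 3 10)))))))) (.c k128 (.q k191 [(.s k117 k69 3 (.s k48 k186 10 (.s k16 k32 3 (.d
  k154 k223 k207 10 14)))), (.s k96 k111 2 (.s k80 k112 3 (.s k240 k160 11 (.s k245 k250 2 (.s k165
  k5 11 (.d k90 k95 k15 2 14))))))] (.c k117 (.l (.s k96 k111 2 (.s k112 k80 3 (.s k79 k90 6 (.s k69
  k74 2 (.s k207 k138 10 (.s k154 k48 14 (.d k223 k239 k16 3 10)))))))) .n)) (.c k191 (.l (.s k128
  k192 7 (.s k69 k117 3 (.s k79 k74 2 (.s k96 k111 2 (.d k112 k80 k90 3 6)))))) .n)))))) (.c k191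
  (.l (.s k64 k127 6 (.s k192 k128 7 (.s k149 k63 14 (.d k213 k234 k21 6 7))))) (.c k192 (.q k1 [(.s
  k3 k2 0 (.s k87 k171 13 (.s k86 k84 0 (.d k169 k253 k252 13 14)))), (.s k127 k64 6 (.s k63 k191 7
  (.s k21 k42 6 (.s k61 k41 5 (.s k253 k169 13 (.s k125 k189 7 (.d k60 k190 k62 8 0))))))), (.s k3
  k2 0 (.s k127 k64 6 (.s k63 k191 7 (.s k21 k42 6 (.s k23 k43 5 (.s k22 k20 0 (.d k41 k61 k60 5
  6)))))))] .n) (.c k213 (.q k1 [(.s k3 k2 0 (.s k87 k171 13 (.s k86 k84 0 (.d k169 k253 k252 13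
  14)))), (.s k64 k127 6 (.s k169 k253 13 (.s k192 k128 7 (.s k149 k63 14 (.s k129 k189 5 (.s k66 k3
  8 (.d k65 k193 k67 7 0))))))), (.s k3 k2 0 (.s k64 k127 6 (.s k192 k128 7 (.s k66 k129 8 (.s k86
  k126 5 (.d k87 k84 k171 0 13))))))] (.c k3 (.l (.s k127 k64 6 (.s k63 k191 7 (.s k21 k42 6 (.s k61
  k41 5 (.s k60 k62 0 (.s k125 k190 8 (.d k253 k189 k169 7 13)))))))) .n)) (.c k234 (.l (.s k127 k64
  6 (.s k63 k191 7 (.s k21 k42 6 (.d k149 k213 k192 7 14))))) .n))))))))))))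

def t7_110 : T TT 256 :=
  (.f k255 k170 14 (.q k105 [(.s k65 k125 5 (.s k195 k130 8 (.s k150 k60 14 (.d k215 k235 k20 5
  8))))] (.c k20 (.q k1 [(.s k169 k253 13 (.s k3 k2 0 (.s k86 k252 14 (.d k87 k84 k171 0 13)))), (.s
  k65 k125 5 (.s k169 k253 13 (.s k41 k233 7 (.s k61 k21 5 (.d k193 k129 k149 7 13))))), (.s k3 k2 0
  (.s k65 k125 5 (.s k129 k193 7 (.s k66 k192 8 (.s k67 k64 0 (.d k195 k131 k130 7 8))))))] .n) (.c
  k60 (.q k1 [(.s k3 k2 0 (.s k87 k171 13 (.s k86 k84 0 (.d k169 k253 k252 13 14)))), (.s k65 k125 5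
  (.s k169 k253 13 (.s k41 k233 7 (.s k61 k21 5 (.d k193 k129 k149 7 13))))), (.s k3 k2 0 (.s k65
  k125 5 (.s k129 k193 7 (.s k66 k192 8 (.s k67 k64 0 (.d k195 k131 k130 7 8))))))] .n) (.c k65 (.q
  k1 [(.s k169 k253 13 (.s k3 k2 0 (.s k86 k252 14 (.d k87 k84 k171 0 13)))), (.s k169 k253 13 (.s
  k41 k233 7 (.s k21 k61 5 (.s k63 k42 6 (.s k127 k191 7 (.s k106 k64 6 (.d k149 k213 k192 7
  14)))))))] (.c k169 (.f k3 k2 0 (.q k86 [(.d k87 k171 k84 13 0), (.s k67 k124 6 (.s k195 k131 7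
  (.s k150 k60 14 (.d k215 k235 k20 5 8))))] (.c k168 (.l (.s k171 k87 13 (.s k67 k124 6 (.s k195
  k131 7 (.s k150 k60 14 (.d k215 k235 k20 5 8)))))) (.c k171 (.q k168 [(.d k84 k87 k252 0 13), (.s
  k67 k124 6 (.s k195 k131 7 (.s k215 k235 5 (.d k150 k20 k60 8 14))))] .n) .n)))) (.c k253 (.l (.s
  k3 k2 0 (.s k87 k171 13 (.s k86 k84 0 (.s k67 k124 6 (.s k195 k131 7 (.s k150 k60 14 (.d k215 k235
  k20 5 8)))))))) .n))) (.c k125 (.q k253 [(.s k169 k1 13 (.s k252 k254 0 (.s k84 k168 13 (.d k86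
  k87 k3 0 14)))), (.s k169 k1 13 (.s k233 k41 7 (.s k213 k193 5 (.s k192 k234 6 (.s k64 k128 7 (.s
  k106 k127 6 (.d k149 k21 k63 7 14)))))))] (.c k1 (.l (.s k252 k254 0 (.s k84 k168 13 (.s k86 k87 0
  (.s k124 k67 6 (.s k60 k188 7 (.s k20 k40 5 (.d k150 k215 k195 8 14)))))))) (.c k169 (.f k252 k254
  0 (.q k86 [(.d k84 k168 k87 13 0), (.s k124 k67 6 (.s k60 k188 7 (.s k20 k40 5 (.d k150 k215 k195
  8 14))))] (.c k168 (.q k171 [(.d k87 k84 k3 0 13), (.s k124 k67 6 (.s k60 k188 7 (.s k20 k40 5 (.d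
  k150 k215 k195 8 14))))] .n) (.c k171 (.l (.s k168 k84 13 (.s k124 k67 6 (.s k60 k188 7 (.s k20
  k40 5 (.d k150 k215 k195 8 14)))))) .n)))) .n))) (.c k130 (.l (.s k125 k65 5 (.s k60 k190 8 (.s
  k150 k195 14 (.d k20 k40 k215 5 8))))) (.c k150 (.f k65 k125 5 (.q k73 [(.s k77 k69 1 (.s k89 k121
  3 (.s k81 k93 1 (.d k113 k97 k101 3 5)))), (.s k69 k77 1 (.s k138 k207 10 (.s k8 k203 8 (.s k12 k4
  1 (.d k195 k130 k134 8 10))))), (.s k89 k121 3 (.s k93 k81 1 (.s k12 k174 12 (.d k195 k130 k134 8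
  10))))] (.c k93 (.l (.s k77 k69 1 (.s k89 k121 3 (.s k113 k101 5 (.s k81 k97 3 (.s k243 k162 12
  (.s k166 k12 14 (.d k247 k251 k4 1 12)))))))) (.c k130 (.q k190 [(.s k77 k69 1 (.s k89 k121 3 (.s
  k81 k93 1 (.d k113 k97 k101 3 5)))), (.s k69 k77 1 (.s k207 k138 10 (.s k223 k239 3 (.s k154 k16
  10 (.d k101 k117 k48 3 14))))), (.s k89 k121 3 (.s k93 k81 1 (.s k12 k174 12 (.s k4 k8 1 (.d k166
  k247 k243 12 14)))))] (.c k93 (.l (.s k77 k69 1 (.s k89 k121 3 (.s k113 k101 5 (.s k81 k97 3 (.s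
  k243 k162 12 (.s k166 k12 14 (.d k247 k251 k4 1 12)))))))) (.c k117 (.l (.s k77 k69 1 (.s k89 k121
  3 (.s k113 k101 5 (.d k81 k93 k97 1 3))))) .n))) (.c k190 (.l (.s k130 k195 8 (.s k77 k69 1 (.s
  k89 k121 3 (.s k81 k93 1 (.d k113 k97 k101 3 5)))))) .n))))) (.c k190 (.l (.s k65 k125 5 (.s k195
  k130 8 (.s k150 k60 14 (.d k215 k235 k20 5 8))))) (.c k195 (.q k1 [(.s k3 k2 0 (.s k87 k171 13 (.s
  k86 k84 0 (.d k169 k253 k252 13 14)))), (.s k65 k125 5 (.s k169 k253 13 (.s k41 k233 7 (.s k61 k21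
  5 (.d k193 k129 k149 7 13))))), (.s k3 k2 0 (.s k125 k65 5 (.s k60 k190 8 (.s k40 k20 5 (.s k41
  k22 6 (.s k21 k61 5 (.d k42 k43 k63 0 6)))))))] .n) (.c k215 (.q k1 [(.s k169 k253 13 (.s k3 k2 0
  (.s k86 k252 14 (.d k87 k84 k171 0 13)))), (.s k65 k125 5 (.s k169 k253 13 (.s k41 k233 7 (.s k61
  k21 5 (.d k193 k129 k149 7 13))))), (.s k3 k2 0 (.s k65 k125 5 (.s k129 k193 7 (.s k66 k192 8 (.s
  k67 k64 0 (.d k195 k131 k130 7 8))))))] .n) (.c k235 (.l (.s k125 k65 5 (.s k60 k190 8 (.s k20 k40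
  5 (.d k150 k215 k195 8 14))))) .n))))))))))))

def t7_111 : T TT 256 :=
  (.f k255 k170 14 (.q k105 [(.s k65 k125 5 (.s k195 k130 8 (.s k150 k60 14 (.d k215 k235 k20 5
  8))))] (.c k20 (.q k1 [(.s k169 k253 13 (.s k3 k2 0 (.s k86 k252 14 (.d k87 k84 k171 0 13)))), (.s
  k65 k125 5 (.s k169 k253 13 (.s k41 k233 7 (.s k61 k21 5 (.d k193 k129 k149 7 13))))), (.s k3 k2 0
  (.s k65 k125 5 (.s k129 k193 7 (.s k66 k192 8 (.s k67 k64 0 (.d k195 k131 k130 7 8))))))] .n) (.c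
  k60 (.q k1 [(.s k3 k2 0 (.s k87 k171 13 (.s k86 k84 0 (.d k169 k253 k252 13 14)))), (.s k65 k125 5
  (.s k169 k253 13 (.s k41 k233 7 (.s k61 k21 5 (.d k193 k129 k149 7 13))))), (.s k3 k2 0 (.s k65
  k125 5 (.s k129 k193 7 (.s k66 k192 8 (.s k67 k64 0 (.d k195 k131 k130 7 8))))))] .n) (.c k65 (.q
  k1 [(.s k169 k253 13 (.s k3 k2 0 (.s k86 k252 14 (.d k87 k84 k171 0 13)))), (.s k169 k253 13 (.s
  k41 k233 7 (.s k21 k61 5 (.s k63 k42 6 (.s k127 k191 7 (.s k106 k64 6 (.d k149 k213 k192 7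
  14)))))))] (.c k169 (.f k3 k2 0 (.q k86 [(.d k87 k171 k84 13 0), (.s k67 k124 6 (.s k195 k131 7
  (.s k150 k60 14 (.d k215 k235 k20 5 8))))] (.c k168 (.l (.s k171 k87 13 (.s k67 k124 6 (.s k195
  k131 7 (.s k150 k60 14 (.d k215 k235 k20 5 8)))))) (.c k171 (.q k168 [(.d k84 k87 k252 0 13), (.s
  k67 k124 6 (.s k195 k131 7 (.s k215 k235 5 (.d k150 k20 k60 8 14))))] .n) .n)))) (.c k253 (.l (.s
  k3 k2 0 (.s k87 k171 13 (.s k86 k84 0 (.s k67 k124 6 (.s k195 k131 7 (.s k150 k60 14 (.d k215 k235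
  k20 5 8)))))))) .n))) (.c k125 (.q k253 [(.s k169 k1 13 (.s k252 k254 0 (.s k84 k168 13 (.d k86
  k87 k3 0 14)))), (.s k169 k1 13 (.s k233 k41 7 (.s k213 k193 5 (.s k192 k234 6 (.s k64 k128 7 (.s
  k106 k127 6 (.d k149 k21 k63 7 14)))))))] (.c k1 (.l (.s k252 k254 0 (.s k84 k168 13 (.s k86 k87 0
  (.s k124 k67 6 (.s k60 k188 7 (.s k20 k40 5 (.d k150 k215 k195 8 14)))))))) (.c k169 (.f k252 k254
  0 (.q k86 [(.d k84 k168 k87 13 0), (.s k124 k67 6 (.s k60 k188 7 (.s k20 k40 5 (.d k150 k215 k195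
  8 14))))] (.c k168 (.q k171 [(.d k87 k84 k3 0 13), (.s k124 k67 6 (.s k60 k188 7 (.s k20 k40 5 (.d
  k150 k215 k195 8 14))))] .n) (.c k171 (.l (.s k168 k84 13 (.s k124 k67 6 (.s k60 k188 7 (.s k20
  k40 5 (.d k150 k215 k195 8 14)))))) .n)))) .n))) (.c k130 (.l (.s k125 k65 5 (.s k60 k190 8 (.s
  k150 k195 14 (.d k20 k40 k215 5 8))))) (.c k150 (.f k125 k65 5 (.q k109 [(.s k77 k93 3 (.s k101
  k97 1 (.s k117 k69 3 (.d k113 k121 k89 1 5)))), (.s k93 k77 3 (.s k12 k174 12 (.s k4 k8 1 (.s k166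
  k247 12 (.d k89 k81 k243 1 14))))), (.s k101 k97 1 (.s k69 k117 3 (.s k207 k138 10 (.d k60 k190
  k158 8 12))))] (.c k69 (.l (.s k77 k93 3 (.s k101 k97 1 (.s k113 k89 5 (.s k117 k121 1 (.s k48
  k186 10 (.s k16 k32 3 (.d k154 k223 k207 10 14)))))))) (.c k81 (.l (.s k77 k93 3 (.s k101 k97 1
  (.s k113 k89 5 (.d k117 k121 k69 1 3))))) (.c k130 (.l (.s k190 k60 8 (.s k77 k93 3 (.s k101 k97 1
  (.s k113 k89 5 (.d k117 k121 k69 1 3)))))) (.c k190 (.q k130 [(.s k77 k93 3 (.s k101 k97 1 (.s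
  k117 k69 3 (.d k113 k121 k89 1 5)))), (.s k93 k77 3 (.s k12 k174 12 (.s k4 k8 1 (.s k166 k247 12
  (.d k89 k81 k243 1 14))))), (.s k101 k97 1 (.s k69 k117 3 (.s k207 k138 10 (.s k154 k48 14 (.d
  k223 k239 k16 3 10)))))] (.c k69 (.l (.s k77 k93 3 (.s k101 k97 1 (.s k113 k89 5 (.s k117 k121 1
  (.s k48 k186 10 (.s k16 k32 3 (.d k154 k223 k207 10 14)))))))) (.c k81 (.l (.s k77 k93 3 (.s k101
  k97 1 (.s k113 k89 5 (.d k117 k121 k69 1 3))))) .n))) .n)))))) (.c k190 (.l (.s k65 k125 5 (.s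
  k195 k130 8 (.s k150 k60 14 (.d k215 k235 k20 5 8))))) (.c k195 (.q k1 [(.s k3 k2 0 (.s k87 k171
  13 (.s k86 k84 0 (.d k169 k253 k252 13 14)))), (.s k65 k125 5 (.s k169 k253 13 (.s k41 k233 7 (.s
  k61 k21 5 (.d k193 k129 k149 7 13))))), (.s k3 k2 0 (.s k125 k65 5 (.s k60 k190 8 (.s k40 k20 5
  (.s k41 k22 6 (.s k21 k61 5 (.d k42 k43 k63 0 6)))))))] .n) (.c k215 (.q k1 [(.s k169 k253 13 (.s
  k3 k2 0 (.s k86 k252 14 (.d k87 k84 k171 0 13)))), (.s k65 k125 5 (.s k169 k253 13 (.s k41 k233 7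
  (.s k61 k21 5 (.d k193 k129 k149 7 13))))), (.s k3 k2 0 (.s k65 k125 5 (.s k129 k193 7 (.s k66
  k192 8 (.s k67 k64 0 (.d k195 k131 k130 7 8))))))] .n) (.c k235 (.l (.s k125 k65 5 (.s k60 k190 8
  (.s k20 k40 5 (.d k150 k215 k195 8 14))))) .n))))))))))))

def t7_112 : T TT 256 :=
  (.f k255 k170 14 (.q k89 [(.s k81 k93 1 (.s k243 k162 12 (.s k166 k12 14 (.d k247 k251 k4 1
  12))))] (.c k4 (.q k5 [(.s k15 k10 2 (.s k95 k175 11 (.s k165 k245 11 (.d k90 k80 k240 2 14)))),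
  (.s k93 k81 1 (.s k165 k245 11 (.s k13 k241 13 (.s k1 k9 1 (.d k253 k173 k169 11 13))))), (.s k15
  k10 2 (.s k81 k93 1 (.s k243 k162 12 (.s k91 k167 13 (.s k90 k88 0 (.d k95 k80 k175 2 11))))))]
  .n) (.c k12 (.q k1 [(.s k3 k2 0 (.s k87 k171 13 (.s k86 k84 0 (.d k169 k253 k252 13 14)))), (.s
  k81 k93 1 (.s k169 k253 13 (.s k9 k249 11 (.s k13 k5 1 (.d k241 k161 k165 11 13))))), (.s k3 k2 0
  (.s k81 k93 1 (.s k161 k241 11 (.s k82 k240 12 (.s k83 k80 0 (.d k243 k163 k162 11 12))))))] .n)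
  (.c k81 (.q k68 [(.s k102 k119 4 (.s k204 k136 9 (.s k153 k51 14 (.d k221 k238 k17 4 9)))), (.s
  k102 k119 4 (.s k76 k115 6 (.s k64 k72 1 (.s k192 k128 7 (.s k213 k234 6 (.s k149 k21 7 (.d k106
  k127 k63 6 14)))))))] (.c k102 (.f k204 k136 9 (.q k153 [(.d k221 k238 k17 4 9), (.s k217 k25 7
  (.s k243 k230 6 (.s k166 k12 14 (.d k247 k251 k4 1 12))))] (.c k34 (.l (.s k238 k221 4 (.s k217
  k25 7 (.s k243 k230 6 (.s k166 k12 14 (.d k247 k251 k4 1 12)))))) (.c k238 (.q k34 [(.d k17 k51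
  k221 4 9), (.s k217 k25 7 (.s k243 k230 6 (.s k247 k251 1 (.d k166 k4 k12 12 14))))] .n) .n))))
  (.c k119 (.l (.s k204 k136 9 (.s k221 k238 4 (.s k153 k17 9 (.s k217 k25 7 (.s k243 k230 6 (.s
  k166 k12 14 (.d k247 k251 k4 1 12)))))))) .n))) (.c k93 (.q k21 [(.s k149 k213 7 (.s k63 k42 6 (.s
  k106 k192 14 (.d k127 k64 k191 6 7)))), (.s k149 k213 7 (.s k29 k209 9 (.s k17 k25 1 (.s k51 k34 4
  (.s k119 k187 9 (.s k102 k68 4 (.d k153 k221 k204 9 14)))))))] (.c k149 (.f k63 k42 6 (.q k106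
  [(.d k127 k191 k64 7 6), (.s k123 k72 4 (.s k243 k183 9 (.s k166 k12 14 (.d k247 k251 k4 1 12))))]
  (.c k128 (.l (.s k191 k127 7 (.s k123 k72 4 (.s k243 k183 9 (.s k166 k12 14 (.d k247 k251 k4 1
  12)))))) (.c k191 (.q k128 [(.d k64 k127 k192 6 7), (.s k123 k72 4 (.s k243 k183 9 (.s k247 k251 1
  (.d k166 k4 k12 12 14))))] .n) .n)))) (.c k213 (.l (.s k63 k42 6 (.s k127 k191 7 (.s k106 k64 6
  (.s k123 k72 4 (.s k243 k183 9 (.s k166 k12 14 (.d k247 k251 k4 1 12)))))))) .n))) (.c k162 (.l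
  (.s k93 k81 1 (.s k12 k174 12 (.s k166 k243 14 (.d k4 k8 k247 1 12))))) (.c k166 (.f k81 k93 1 (.q
  k83 [(.s k80 k82 0 (.s k86 k92 2 (.s k87 k84 0 (.d k95 k91 k90 1 2)))), (.s k80 k82 0 (.s k240
  k160 11 (.s k245 k250 2 (.s k165 k5 11 (.s k241 k13 13 (.d k243 k162 k242 12 0)))))), (.s k86 k92
  2 (.s k84 k87 0 (.s k252 k168 13 (.s k169 k3 14 (.d k253 k254 k1 0 13)))))] (.c k162 (.q k174 [(.s
  k86 k92 2 (.s k87 k84 0 (.s k95 k91 1 (.d k80 k82 k90 0 2)))), (.s k80 k82 0 (.s k240 k160 11 (.s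
  k245 k250 2 (.s k165 k5 11 (.d k90 k95 k15 2 14))))), (.s k86 k92 2 (.s k84 k87 0 (.s k252 k168 13
  (.s k169 k3 14 (.d k253 k254 k1 0 13)))))] (.c k95 (.l (.s k82 k80 0 (.s k86 k92 2 (.s k94 k90 1
  (.s k84 k87 0 (.s k252 k168 13 (.d k254 k14 k253 11 0))))))) .n)) (.c k174 (.l (.s k162 k243 12
  (.s k80 k82 0 (.s k86 k92 2 (.s k87 k84 0 (.d k95 k91 k90 1 2)))))) .n)))) (.c k174 (.l (.s k81
  k93 1 (.s k243 k162 12 (.s k166 k12 14 (.d k247 k251 k4 1 12))))) (.c k243 (.q k1 [(.s k3 k2 0 (.s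
  k87 k171 13 (.s k86 k84 0 (.d k169 k253 k252 13 14)))), (.s k81 k93 1 (.s k169 k253 13 (.s k9 k249
  11 (.s k13 k5 1 (.d k241 k161 k165 11 13))))), (.s k3 k2 0 (.s k93 k81 1 (.s k12 k174 12 (.s k8 k4
  1 (.s k9 k6 2 (.s k5 k13 1 (.d k10 k11 k15 0 2)))))))] .n) (.c k247 (.q k87 [(.s k86 k84 0 (.s k3
  k171 13 (.s k169 k252 14 (.d k1 k2 k253 0 13)))), (.s k81 k93 1 (.s k86 k84 0 (.s k83 k92 2 (.s
  k80 k82 0 (.d k95 k91 k90 1 2))))), (.s k3 k171 13 (.s k81 k93 1 (.s k243 k162 12 (.s k83 k163 11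
  (.s k80 k82 0 (.d k95 k91 k90 1 2))))))] .n) (.c k251 (.l (.s k93 k81 1 (.s k12 k174 12 (.s k4 k8
  1 (.d k166 k247 k243 12 14))))) .n))))))))))))

def t7_114 : T TT 256 :=
  (.f k255 k170 14 (.q k89 [(.s k81 k93 1 (.s k243 k162 12 (.s k166 k12 14 (.d k247 k251 k4 1
  12))))] (.c k4 (.q k5 [(.s k15 k10 2 (.s k95 k175 11 (.s k90 k80 2 (.d k165 k245 k240 11 14)))),
  (.s k93 k81 1 (.s k165 k245 11 (.s k13 k241 13 (.s k1 k9 1 (.d k253 k173 k169 11 13))))), (.s k15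
  k10 2 (.s k81 k93 1 (.s k243 k162 12 (.s k91 k167 13 (.s k90 k88 0 (.d k95 k80 k175 2 11))))))]
  .n) (.c k12 (.q k1 [(.s k3 k2 0 (.s k87 k171 13 (.s k86 k84 0 (.d k169 k253 k252 13 14)))), (.s
  k81 k93 1 (.s k169 k253 13 (.s k9 k249 11 (.s k13 k5 1 (.d k241 k161 k165 11 13))))), (.s k3 k2 0
  (.s k81 k93 1 (.s k161 k241 11 (.s k82 k240 12 (.s k83 k80 0 (.d k243 k163 k162 11 12))))))] .n)
  (.c k81 (.q k69 [(.s k101 k117 3 (.s k207 k138 10 (.s k154 k48 14 (.d k223 k239 k16 3 10)))), (.s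
  k101 k117 3 (.s k77 k113 5 (.s k65 k73 1 (.s k195 k130 8 (.s k215 k235 5 (.s k150 k20 8 (.d k105
  k125 k60 5 14)))))))] (.c k101 (.f k207 k138 10 (.q k154 [(.d k223 k239 k16 3 10), (.s k219 k24 8
  (.s k243 k231 5 (.s k166 k12 14 (.d k247 k251 k4 1 12))))] (.c k32 (.l (.s k239 k223 3 (.s k219
  k24 8 (.s k243 k231 5 (.s k166 k12 14 (.d k247 k251 k4 1 12)))))) (.c k239 (.q k32 [(.d k16 k48
  k223 3 10), (.s k219 k24 8 (.s k243 k231 5 (.s k247 k251 1 (.d k166 k4 k12 12 14))))] .n) .n))))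
  (.c k117 (.l (.s k207 k138 10 (.s k223 k239 3 (.s k154 k16 10 (.s k219 k24 8 (.s k243 k231 5 (.s
  k166 k12 14 (.d k247 k251 k4 1 12)))))))) .n))) (.c k93 (.q k21 [(.s k149 k213 7 (.s k63 k42 6 (.s
  k106 k192 14 (.d k127 k64 k191 6 7)))), (.s k149 k213 7 (.s k29 k209 9 (.s k17 k25 1 (.s k51 k34 4
  (.s k119 k187 9 (.s k102 k68 4 (.d k153 k221 k204 9 14)))))))] (.c k149 (.f k63 k42 6 (.q k106
  [(.d k127 k191 k64 7 6), (.s k123 k72 4 (.s k243 k183 9 (.s k166 k12 14 (.d k247 k251 k4 1 12))))]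
  (.c k128 (.l (.s k191 k127 7 (.s k123 k72 4 (.s k243 k183 9 (.s k166 k12 14 (.d k247 k251 k4 1
  12)))))) (.c k191 (.q k128 [(.d k64 k127 k192 6 7), (.s k123 k72 4 (.s k243 k183 9 (.s k247 k251 1
  (.d k166 k4 k12 12 14))))] .n) .n)))) (.c k213 (.l (.s k63 k42 6 (.s k127 k191 7 (.s k106 k64 6
  (.s k123 k72 4 (.s k243 k183 9 (.s k166 k12 14 (.d k247 k251 k4 1 12)))))))) .n))) (.c k162 (.l
  (.s k93 k81 1 (.s k12 k174 12 (.s k166 k243 14 (.d k4 k8 k247 1 12))))) (.c k166 (.f k81 k93 1 (.q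
  k83 [(.s k80 k82 0 (.s k86 k92 2 (.s k87 k84 0 (.d k95 k91 k90 1 2)))), (.s k80 k82 0 (.s k240
  k160 11 (.s k245 k250 2 (.s k165 k5 11 (.s k241 k13 13 (.d k243 k162 k242 12 0)))))), (.s k86 k92
  2 (.s k84 k87 0 (.s k252 k168 13 (.s k169 k3 14 (.d k253 k254 k1 0 13)))))] (.c k162 (.q k174 [(.s
  k86 k92 2 (.s k87 k84 0 (.s k95 k91 1 (.d k80 k82 k90 0 2)))), (.s k80 k82 0 (.s k240 k160 11 (.s
  k245 k250 2 (.s k165 k5 11 (.d k90 k95 k15 2 14))))), (.s k86 k92 2 (.s k84 k87 0 (.s k252 k168 13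
  (.s k169 k3 14 (.d k253 k254 k1 0 13)))))] (.c k95 (.l (.s k82 k80 0 (.s k86 k92 2 (.s k94 k90 1
  (.s k84 k87 0 (.s k252 k168 13 (.d k254 k14 k253 11 0))))))) .n)) (.c k174 (.l (.s k162 k243 12
  (.s k80 k82 0 (.s k86 k92 2 (.s k87 k84 0 (.d k95 k91 k90 1 2)))))) .n)))) (.c k174 (.l (.s k81
  k93 1 (.s k243 k162 12 (.s k166 k12 14 (.d k247 k251 k4 1 12))))) (.c k243 (.q k1 [(.s k3 k2 0 (.s
  k87 k171 13 (.s k86 k84 0 (.d k169 k253 k252 13 14)))), (.s k81 k93 1 (.s k169 k253 13 (.s k9 k249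
  11 (.s k13 k5 1 (.d k241 k161 k165 11 13))))), (.s k3 k2 0 (.s k93 k81 1 (.s k12 k174 12 (.s k8 k4
  1 (.s k9 k6 2 (.s k5 k13 1 (.d k10 k11 k15 0 2)))))))] .n) (.c k247 (.q k87 [(.s k86 k84 0 (.s k3
  k171 13 (.s k169 k252 14 (.d k1 k2 k253 0 13)))), (.s k81 k93 1 (.s k86 k84 0 (.s k83 k92 2 (.s
  k80 k82 0 (.d k95 k91 k90 1 2))))), (.s k3 k171 13 (.s k81 k93 1 (.s k243 k162 12 (.s k83 k163 11
  (.s k80 k82 0 (.d k95 k91 k90 1 2))))))] .n) (.c k251 (.l (.s k93 k81 1 (.s k12 k174 12 (.s k4 k8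
  1 (.d k166 k247 k243 12 14))))) .n))))))))))))

def t7_115 : T TT 256 :=
  (.f k255 k170 14 (.q k89 [(.s k81 k93 1 (.s k243 k162 12 (.s k166 k12 14 (.d k247 k251 k4 1
  12))))] (.c k4 (.q k5 [(.s k165 k245 11 (.s k15 k10 2 (.s k90 k240 14 (.d k95 k80 k175 2 11)))),
  (.s k93 k81 1 (.s k165 k245 11 (.s k13 k241 13 (.s k1 k9 1 (.d k253 k173 k169 11 13))))), (.s k15
  k10 2 (.s k81 k93 1 (.s k243 k162 12 (.s k91 k167 13 (.s k90 k88 0 (.d k95 k80 k175 2 11))))))]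
  .n) (.c k12 (.q k1 [(.s k3 k2 0 (.s k87 k171 13 (.s k86 k84 0 (.d k169 k253 k252 13 14)))), (.s
  k81 k93 1 (.s k169 k253 13 (.s k9 k249 11 (.s k13 k5 1 (.d k241 k161 k165 11 13))))), (.s k3 k2 0
  (.s k81 k93 1 (.s k161 k241 11 (.s k82 k240 12 (.s k83 k80 0 (.d k243 k163 k162 11 12))))))] .n)
  (.c k81 (.q k65 [(.s k105 k125 5 (.s k195 k130 8 (.s k150 k60 14 (.d k215 k235 k20 5 8)))), (.s
  k105 k125 5 (.s k73 k121 3 (.s k69 k77 1 (.s k207 k138 10 (.s k223 k239 3 (.s k154 k16 10 (.d k101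
  k117 k48 3 14)))))))] (.c k64 (.q k98 [(.s k105 k125 5 (.s k195 k130 8 (.s k150 k60 14 (.d k215
  k235 k20 5 8)))), (.s k105 k125 5 (.s k73 k121 3 (.s k69 k77 1 (.s k207 k138 10 (.s k223 k239 3
  (.s k154 k16 10 (.d k101 k117 k48 3 14)))))))] (.c k105 (.q k219 [(.s k154 k24 8 (.s k16 k223 10
  (.s k48 k32 3 (.s k101 k207 14 (.d k117 k69 k186 3 10))))), (.s k195 k130 8 (.s k235 k215 5 (.s
  k203 k251 3 (.s k207 k199 1 (.s k231 k243 5 (.d k239 k227 k223 1 3)))))), (.s k154 k24 8 (.s k195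
  k130 8 (.s k223 k16 10 (.d k215 k211 k235 1 5))))] (.c k40 (.q k235 [(.d k195 k215 k130 5 8), (.s
  k154 k24 8 (.s k16 k223 10 (.s k48 k32 3 (.s k101 k207 14 (.d k117 k69 k186 3 10)))))] .n) (.c
  k223 (.l (.s k195 k130 8 (.s k235 k215 5 (.s k251 k203 3 (.s k243 k247 1 (.s k227 k211 3 (.d k231
  k239 k207 1 5))))))) (.c k235 (.q k40 [(.s k20 k60 5 (.s k154 k24 8 (.s k223 k16 10 (.d k215 k211
  k150 1 8)))), (.s k154 k24 8 (.s k16 k223 10 (.s k48 k32 3 (.s k101 k207 14 (.d k117 k69 k186 3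
  10))))), (.s k20 k60 5 (.s k150 k215 8 (.s k195 k130 8 (.s k211 k28 10 (.s k243 k227 3 (.s k247
  k251 1 (.d k166 k12 k4 14 12)))))))] .n) .n)))) (.c k125 (.l (.s k195 k130 8 (.s k215 k235 5 (.s
  k150 k20 8 (.s k211 k28 10 (.s k243 k227 3 (.s k166 k12 14 (.d k247 k251 k4 1 12)))))))) .n))) (.c
  k98 (.q k64 [(.s k105 k125 5 (.s k195 k130 8 (.s k150 k60 14 (.d k215 k235 k20 5 8)))), (.s k106
  k127 6 (.s k192 k128 7 (.s k149 k63 14 (.d k213 k234 k21 6 7))))] .n) (.c k105 (.q k64 [(.s k192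
  k128 7 (.s k213 k234 6 (.s k149 k21 7 (.d k106 k127 k63 6 14)))), (.s k66 k67 0 (.s k130 k195 8
  (.s k2 k194 7 (.s k3 k1 0 (.d k192 k128 k129 7 8))))), (.s k67 k66 0 (.s k127 k106 6 (.s k107 k87
  5 (.s k195 k130 8 (.d k63 k191 k151 7 13)))))] (.c k40 (.q k235 [(.d k195 k215 k130 5 8), (.s k106
  k127 6 (.s k192 k128 7 (.s k149 k63 14 (.d k213 k234 k21 6 7))))] .n) (.c k235 (.q k40 [(.s k106
  k127 6 (.s k192 k128 7 (.s k149 k63 14 (.d k213 k234 k21 6 7)))), (.s k66 k67 0 (.s k130 k195 8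
  (.s k2 k194 7 (.s k3 k1 0 (.d k192 k128 k129 7 8))))), (.s k67 k66 0 (.s k127 k106 6 (.s k107 k87
  5 (.s k195 k130 8 (.d k63 k191 k151 7 13)))))] .n) .n))) (.c k125 (.l (.s k195 k130 8 (.s k215
  k235 5 (.s k150 k20 8 (.s k211 k28 10 (.s k243 k227 3 (.s k166 k12 14 (.d k247 k251 k4 1
  12)))))))) .n))))) (.c k93 (.q k253 [(.s k169 k1 13 (.s k252 k254 0 (.s k84 k168 13 (.d k86 k87 k3
  0 14)))), (.s k169 k1 13 (.s k249 k9 11 (.s k245 k241 1 (.s k240 k250 2 (.s k80 k160 11 (.s k90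
  k95 2 (.d k165 k5 k15 11 14)))))))] (.c k1 (.l (.s k252 k254 0 (.s k84 k168 13 (.s k86 k87 0 (.s
  k92 k83 2 (.s k12 k172 11 (.s k4 k8 1 (.d k166 k247 k243 12 14)))))))) (.c k169 (.f k252 k254 0
  (.q k86 [(.d k84 k168 k87 13 0), (.s k92 k83 2 (.s k12 k172 11 (.s k4 k8 1 (.d k166 k247 k243 12
  14))))] (.c k168 (.q k171 [(.d k87 k84 k3 0 13), (.s k92 k83 2 (.s k12 k172 11 (.s k4 k8 1 (.d
  k166 k247 k243 12 14))))] .n) (.c k171 (.l (.s k168 k84 13 (.s k92 k83 2 (.s k12 k172 11 (.s k4 k8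
  1 (.d k166 k247 k243 12 14)))))) .n)))) .n))) (.c k162 (.l (.s k93 k81 1 (.s k12 k174 12 (.s k166
  k243 14 (.d k4 k8 k247 1 12))))) (.c k166 (.f k81 k93 1 (.q k209 [(.s k17 k145 7 (.s k149 k29 9
  (.s k213 k21 7 (.d k221 k217 k153 1 9)))), (.s k17 k145 7 (.s k51 k34 4 (.s k119 k187 9 (.s k102
  k68 4 (.d k153 k221 k204 9 14))))), (.s k149 k29 9 (.s k21 k213 7 (.s k63 k42 6 (.s k106 k192 14
  (.d k127 k64 k191 6 7)))))] (.c k162 (.q k174 [(.s k149 k29 9 (.s k213 k21 7 (.s k221 k217 1 (.d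
  k17 k145 k153 7 9)))), (.s k17 k145 7 (.s k51 k34 4 (.s k119 k187 9 (.s k102 k68 4 (.d k153 k221
  k204 9 14))))), (.s k149 k29 9 (.s k21 k213 7 (.s k63 k42 6 (.s k106 k192 14 (.d k127 k64 k191 6
  7)))))] (.c k221 (.l (.s k145 k17 7 (.s k149 k29 9 (.s k157 k153 1 (.s k21 k213 7 (.s k63 k42 6
  (.d k191 k140 k127 4 7))))))) .n)) (.c k174 (.l (.s k162 k243 12 (.s k17 k145 7 (.s k29 k149 9 (.s
  k25 k21 1 (.d k153 k217 k221 7 9)))))) (.c k221 (.l (.s k17 k145 7 (.s k29 k149 9 (.s k25 k21 1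
  (.s k51 k34 4 (.s k119 k187 9 (.s k102 k68 4 (.d k153 k217 k204 7 14)))))))) .n))))) (.c k174 (.l
  (.s k81 k93 1 (.s k243 k162 12 (.s k166 k12 14 (.d k247 k251 k4 1 12))))) (.c k243 (.q k51 [(.s
  k17 k34 4 (.s k119 k187 9 (.s k102 k68 4 (.d k153 k221 k204 9 14)))), (.s k17 k34 4 (.s k93 k81 1
  (.s k12 k174 12 (.s k8 k4 1 (.s k25 k38 6 (.s k21 k29 1 (.d k42 k59 k63 4 6))))))), (.s k93 k81 1
  (.s k12 k174 12 (.s k25 k38 6 (.s k119 k187 9 (.s k102 k68 4 (.d k153 k217 k204 7 14))))))] (.c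
  k102 (.l (.s k93 k81 1 (.s k12 k174 12 (.s k25 k38 6 (.s k153 k217 7 (.d k17 k34 k221 4 9))))))
  .n)) (.c k247 (.q k87 [(.s k86 k84 0 (.s k3 k171 13 (.s k169 k252 14 (.d k1 k2 k253 0 13)))), (.s
  k81 k93 1 (.s k86 k84 0 (.s k83 k92 2 (.s k80 k82 0 (.d k95 k91 k90 1 2))))), (.s k3 k171 13 (.s
  k81 k93 1 (.s k243 k162 12 (.s k83 k163 11 (.s k80 k82 0 (.d k95 k91 k90 1 2))))))] .n) (.c k251
  (.l (.s k93 k81 1 (.s k12 k174 12 (.s k4 k8 1 (.d k166 k247 k243 12 14))))) .n))))))))))))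

def t7_118 : T TT 256 :=
  (.f k255 k170 14 (.q k106 [(.s k64 k127 6 (.s k192 k128 7 (.s k149 k63 14 (.d k213 k234 k21 6
  7))))] (.c k21 (.q k1 [(.s k3 k2 0 (.s k87 k171 13 (.s k86 k84 0 (.d k169 k253 k252 13 14)))), (.s
  k64 k127 6 (.s k169 k253 13 (.s k192 k128 7 (.s k149 k63 14 (.s k129 k189 5 (.s k65 k193 7 (.d k66
  k67 k3 0 8))))))), (.s k3 k2 0 (.s k64 k127 6 (.s k192 k128 7 (.s k66 k129 8 (.s k86 k126 5 (.d
  k87 k84 k171 0 13))))))] (.c k3 (.l (.s k64 k127 6 (.s k192 k128 7 (.s k213 k234 6 (.s k253 k169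
  13 (.s k193 k233 5 (.s k65 k129 7 (.d k195 k130 k194 8 0)))))))) .n)) (.c k63 (.q k1 [(.s k3 k2 0
  (.s k87 k171 13 (.s k86 k84 0 (.d k169 k253 k252 13 14)))), (.s k64 k127 6 (.s k192 k128 7 (.s
  k213 k234 6 (.s k253 k169 13 (.s k193 k233 5 (.s k65 k129 7 (.d k195 k130 k194 8 0))))))), (.s k3
  k2 0 (.s k64 k127 6 (.s k192 k128 7 (.s k66 k129 8 (.s k86 k126 5 (.d k87 k84 k171 0 13))))))] (.c
  k171 (.l (.s k3 k2 0 (.s k64 k127 6 (.s k169 k253 13 (.s k86 k252 14 (.s k192 k128 7 (.d k66 k126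
  k129 5 8))))))) .n)) (.c k64 (.q k240 [(.s k80 k160 11 (.s k90 k95 2 (.s k245 k250 2 (.d k165 k5
  k15 11 14)))), (.s k80 k160 11 (.s k90 k95 2 (.s k122 k74 3 (.s k63 k181 10 (.s k21 k42 6 (.d k149
  k213 k192 7 14)))))), (.s k245 k250 2 (.s k165 k5 11 (.s k224 k47 10 (.s k192 k208 3 (.s k149 k63
  14 (.d k213 k234 k21 6 7))))))] (.c k90 (.q k224 [(.s k165 k47 10 (.d k245 k250 k5 2 11)), (.s
  k192 k208 3 (.s k149 k63 14 (.d k213 k234 k21 6 7)))] (.c k10 (.l (.s k250 k245 2 (.s k192 k208 3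
  (.s k149 k63 14 (.d k213 k234 k21 6 7))))) (.c k250 (.q k10 [(.s k165 k47 10 (.d k5 k15 k245 2
  11)), (.s k192 k208 3 (.s k149 k63 14 (.d k213 k234 k21 6 7)))] .n) .n))) (.c k165 (.q k244 [(.s
  k252 k248 1 (.s k84 k168 13 (.s k164 k4 11 (.s k88 k12 13 (.d k80 k160 k92 11 1))))), (.s k245
  k250 2 (.s k246 k247 0 (.s k252 k248 1 (.s k249 k243 2 (.d k253 k254 k241 0 1))))), (.s k245 k250
  2 (.s k247 k246 0 (.s k4 k166 12 (.s k12 k8 1 (.d k164 k84 k88 11 13)))))] (.c k160 (.q k175 [(.s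
  k245 k250 2 (.s k246 k247 0 (.s k252 k248 1 (.s k249 k243 2 (.d k253 k254 k241 0 1))))), (.s k252
  k248 1 (.s k84 k168 13 (.s k253 k254 0 (.s k169 k1 13 (.d k86 k87 k3 0 14))))), (.s k245 k250 2
  (.s k247 k246 0 (.s k4 k166 12 (.s k12 k8 1 (.d k164 k84 k88 11 13)))))] (.c k254 (.l (.s k95 k15
  11 (.s k80 k90 2 (.s k252 k248 1 (.s k84 k168 13 (.s k88 k92 1 (.d k164 k4 k12 11 13))))))) .n))
  (.c k175 (.l (.s k160 k80 11 (.s k245 k250 2 (.s k246 k247 0 (.s k252 k248 1 (.s k249 k243 2 (.d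
  k253 k254 k241 0 1))))))) .n))) .n))) (.c k127 (.q k195 [(.s k65 k130 8 (.s k215 k235 5 (.s k150
  k20 8 (.d k105 k125 k60 5 14)))), (.s k65 k130 8 (.s k105 k125 5 (.s k107 k104 0 (.s k63 k151 13
  (.s k21 k42 6 (.d k149 k213 k192 7 14)))))), (.s k215 k235 5 (.s k150 k20 8 (.s k194 k62 13 (.s
  k192 k193 0 (.s k149 k63 14 (.d k213 k234 k21 6 7))))))] (.c k105 (.q k149 [(.s k21 k213 7 (.d k63
  k42 k192 6 14)), (.s k63 k192 14 (.s k151 k107 13 (.s k150 k148 0 (.d k215 k235 k20 5 8))))] (.c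
  k40 (.l (.s k235 k215 5 (.s k21 k213 7 (.d k63 k42 k192 6 14)))) (.c k63 (.l (.s k213 k21 7 (.s
  k192 k234 6 (.s k194 k193 0 (.s k150 k62 13 (.d k215 k235 k20 5 8)))))) (.c k192 (.l (.s k21 k213
  7 (.s k63 k42 6 (.s k151 k107 13 (.s k150 k148 0 (.d k215 k235 k20 5 8)))))) (.c k235 (.q k40 [(.s
  k21 k213 7 (.d k63 k42 k192 6 14)), (.s k20 k60 5 (.s k63 k192 14 (.s k150 k215 8 (.d k151 k148
  k107 0 13))))] (.c k63 (.l (.s k20 k60 5 (.s k150 k215 8 (.s k213 k21 7 (.s k192 k234 6 (.d k194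
  k62 k193 13 0)))))) (.c k192 (.l (.s k20 k60 5 (.s k21 k213 7 (.s k63 k42 6 (.s k150 k215 8 (.d
  k151 k148 k107 0 13)))))) .n))) .n))))) (.c k150 (.q k149 [(.s k21 k213 7 (.d k63 k42 k192 6 14)),
  (.s k63 k192 14 (.s k107 k151 13 (.s k105 k104 0 (.d k65 k130 k125 8 5))))] (.c k63 (.l (.s k213
  k21 7 (.s k192 k234 6 (.s k193 k194 0 (.s k105 k61 13 (.d k65 k125 k130 5 8)))))) (.c k130 (.q
  k190 [(.s k21 k213 7 (.d k63 k42 k192 6 14)), (.s k63 k192 14 (.s k107 k151 13 (.s k105 k104 0 (.d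
  k125 k60 k65 8 5))))] (.c k63 (.l (.s k125 k60 8 (.s k105 k65 5 (.s k213 k21 7 (.s k192 k234 6 (.d
  k193 k61 k194 13 0)))))) (.c k192 (.l (.s k21 k213 7 (.s k63 k42 6 (.s k107 k151 13 (.s k105 k104
  0 (.d k125 k60 k65 8 5)))))) .n))) (.c k190 (.l (.s k130 k65 8 (.s k21 k213 7 (.d k63 k42 k192 6
  14)))) (.c k192 (.l (.s k21 k213 7 (.s k63 k42 6 (.s k107 k151 13 (.s k105 k104 0 (.d k65 k125
  k130 5 8)))))) .n))))) .n))) (.c k128 (.l (.s k127 k64 6 (.s k63 k191 7 (.s k149 k192 14 (.d k21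
  k42 k213 6 7))))) (.c k149 (.f k127 k64 6 (.q k123 [(.s k89 k72 4 (.s k93 k81 1 (.s k76 k110 4 (.d
  k115 k119 k102 1 6)))), (.s k89 k72 4 (.s k81 k93 1 (.s k243 k162 12 (.d k63 k191 k183 7 9)))),
  (.s k119 k115 1 (.s k51 k187 9 (.s k17 k34 4 (.s k153 k221 9 (.d k102 k68 k204 4 14)))))] (.c k68
  (.l (.s k115 k119 1 (.s k89 k72 4 (.s k76 k102 6 (.d k93 k81 k110 1 4))))) (.c k81 (.l (.s k89 k72
  4 (.s k115 k119 1 (.s k76 k102 6 (.s k93 k110 4 (.s k12 k174 12 (.s k4 k8 1 (.d k166 k247 k243 12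
  14)))))))) (.c k128 (.l (.s k191 k63 7 (.s k89 k72 4 (.s k93 k81 1 (.s k76 k110 4 (.d k115 k119
  k102 1 6)))))) (.c k191 (.q k128 [(.s k89 k72 4 (.s k93 k81 1 (.s k76 k110 4 (.d k115 k119 k102 1
  6)))), (.s k119 k115 1 (.s k51 k187 9 (.s k17 k34 4 (.s k153 k221 9 (.d k102 k68 k204 4 14))))),
  (.s k89 k72 4 (.s k81 k93 1 (.s k243 k162 12 (.s k166 k12 14 (.d k247 k251 k4 1 12)))))] (.c k68
  (.l (.s k115 k119 1 (.s k89 k72 4 (.s k76 k102 6 (.d k93 k81 k110 1 4))))) (.c k81 (.l (.s k89 k72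
  4 (.s k115 k119 1 (.s k76 k102 6 (.s k93 k110 4 (.s k12 k174 12 (.s k4 k8 1 (.d k166 k247 k243 12
  14)))))))) .n))) .n)))))) (.c k191 (.l (.s k64 k127 6 (.s k192 k128 7 (.s k149 k63 14 (.d k213
  k234 k21 6 7))))) (.c k192 (.q k1 [(.s k3 k2 0 (.s k87 k171 13 (.s k86 k84 0 (.d k169 k253 k252 13
  14)))), (.s k127 k64 6 (.s k63 k191 7 (.s k21 k42 6 (.s k61 k41 5 (.s k253 k169 13 (.s k125 k189 7
  (.d k60 k190 k62 8 0))))))), (.s k3 k2 0 (.s k127 k64 6 (.s k63 k191 7 (.s k21 k42 6 (.s k23 k43 5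
  (.s k22 k20 0 (.d k41 k61 k60 5 6)))))))] .n) (.c k213 (.q k1 [(.s k3 k2 0 (.s k87 k171 13 (.s k86
  k84 0 (.d k169 k253 k252 13 14)))), (.s k64 k127 6 (.s k169 k253 13 (.s k192 k128 7 (.s k149 k63
  14 (.s k129 k189 5 (.s k66 k3 8 (.d k65 k193 k67 7 0))))))), (.s k3 k2 0 (.s k64 k127 6 (.s k192
  k128 7 (.s k66 k129 8 (.s k86 k126 5 (.d k87 k84 k171 0 13))))))] (.c k3 (.l (.s k127 k64 6 (.s
  k63 k191 7 (.s k21 k42 6 (.s k61 k41 5 (.s k60 k62 0 (.s k125 k190 8 (.d k253 k189 k169 7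
  13)))))))) .n)) (.c k234 (.l (.s k127 k64 6 (.s k63 k191 7 (.s k21 k42 6 (.d k149 k213 k192 7
  14))))) .n))))))))))))

def t7_119 : T TT 256 :=
  (.f k255 k170 14 (.q k105 [(.s k65 k125 5 (.s k195 k130 8 (.s k150 k60 14 (.d k215 k235 k20 5
  8))))] (.c k20 (.q k1 [(.s k169 k253 13 (.s k3 k2 0 (.s k86 k252 14 (.d k87 k84 k171 0 13)))), (.s
  k65 k125 5 (.s k169 k253 13 (.s k41 k233 7 (.s k61 k21 5 (.d k193 k129 k149 7 13))))), (.s k3 k2 0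
  (.s k65 k125 5 (.s k129 k193 7 (.s k66 k192 8 (.s k67 k64 0 (.d k195 k131 k130 7 8))))))] .n) (.c
  k60 (.q k1 [(.s k3 k2 0 (.s k87 k171 13 (.s k86 k84 0 (.d k169 k253 k252 13 14)))), (.s k65 k125 5
  (.s k169 k253 13 (.s k41 k233 7 (.s k61 k21 5 (.d k193 k129 k149 7 13))))), (.s k3 k2 0 (.s k65
  k125 5 (.s k129 k193 7 (.s k66 k192 8 (.s k67 k64 0 (.d k195 k131 k130 7 8))))))] .n) (.c k65 (.q
  k1 [(.s k169 k253 13 (.s k3 k2 0 (.s k86 k252 14 (.d k87 k84 k171 0 13)))), (.s k169 k253 13 (.s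
  k41 k233 7 (.s k21 k61 5 (.s k63 k42 6 (.s k127 k191 7 (.s k106 k64 6 (.d k149 k213 k192 7
  14)))))))] (.c k169 (.f k3 k2 0 (.q k86 [(.d k87 k171 k84 13 0), (.s k67 k124 6 (.s k195 k131 7
  (.s k150 k60 14 (.d k215 k235 k20 5 8))))] (.c k168 (.l (.s k171 k87 13 (.s k67 k124 6 (.s k195
  k131 7 (.s k150 k60 14 (.d k215 k235 k20 5 8)))))) (.c k171 (.q k168 [(.d k84 k87 k252 0 13), (.s
  k67 k124 6 (.s k195 k131 7 (.s k215 k235 5 (.d k150 k20 k60 8 14))))] .n) .n)))) (.c k253 (.l (.s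
  k3 k2 0 (.s k87 k171 13 (.s k86 k84 0 (.s k67 k124 6 (.s k195 k131 7 (.s k150 k60 14 (.d k215 k235
  k20 5 8)))))))) .n))) (.c k125 (.q k253 [(.s k169 k1 13 (.s k252 k254 0 (.s k84 k168 13 (.d k86
  k87 k3 0 14)))), (.s k169 k1 13 (.s k233 k41 7 (.s k213 k193 5 (.s k192 k234 6 (.s k64 k128 7 (.s
  k106 k127 6 (.d k149 k21 k63 7 14)))))))] (.c k1 (.l (.s k252 k254 0 (.s k84 k168 13 (.s k86 k87 0
  (.s k124 k67 6 (.s k60 k188 7 (.s k20 k40 5 (.d k150 k215 k195 8 14)))))))) (.c k169 (.f k252 k254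
  0 (.q k86 [(.d k84 k168 k87 13 0), (.s k124 k67 6 (.s k60 k188 7 (.s k20 k40 5 (.d k150 k215 k195
  8 14))))] (.c k168 (.q k171 [(.d k87 k84 k3 0 13), (.s k124 k67 6 (.s k60 k188 7 (.s k20 k40 5 (.d
  k150 k215 k195 8 14))))] .n) (.c k171 (.l (.s k168 k84 13 (.s k124 k67 6 (.s k60 k188 7 (.s k20
  k40 5 (.d k150 k215 k195 8 14)))))) .n)))) .n))) (.c k130 (.l (.s k125 k65 5 (.s k60 k190 8 (.s
  k150 k195 14 (.d k20 k40 k215 5 8))))) (.c k150 (.f k65 k125 5 (.q k193 [(.s k1 k129 7 (.s k149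
  k61 13 (.s k213 k21 7 (.d k253 k233 k169 5 13)))), (.s k1 k129 7 (.s k3 k2 0 (.s k87 k171 13 (.s
  k86 k84 0 (.s k67 k124 6 (.d k195 k130 k131 8 7)))))), (.s k149 k61 13 (.s k21 k213 7 (.s k63 k42
  6 (.s k106 k192 14 (.d k127 k64 k191 6 7)))))] (.c k130 (.q k190 [(.s k149 k61 13 (.s k213 k21 7
  (.s k253 k233 5 (.d k1 k129 k169 7 13)))), (.s k1 k129 7 (.s k3 k2 0 (.s k87 k171 13 (.s k86 k84 0
  (.d k169 k253 k252 13 14))))), (.s k149 k61 13 (.s k21 k213 7 (.s k63 k42 6 (.s k106 k192 14 (.d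
  k127 k64 k191 6 7)))))] (.c k253 (.l (.s k129 k1 7 (.s k149 k61 13 (.s k189 k169 5 (.s k21 k213 7
  (.s k63 k42 6 (.d k191 k188 k127 0 7))))))) .n)) (.c k190 (.l (.s k130 k195 8 (.s k1 k129 7 (.s
  k61 k149 13 (.s k41 k21 5 (.d k169 k233 k253 7 13)))))) .n)))) (.c k190 (.l (.s k65 k125 5 (.s
  k195 k130 8 (.s k150 k60 14 (.d k215 k235 k20 5 8))))) (.c k195 (.q k1 [(.s k3 k2 0 (.s k87 k171
  13 (.s k86 k84 0 (.d k169 k253 k252 13 14)))), (.s k65 k125 5 (.s k169 k253 13 (.s k41 k233 7 (.s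
  k61 k21 5 (.d k193 k129 k149 7 13))))), (.s k3 k2 0 (.s k125 k65 5 (.s k60 k190 8 (.s k40 k20 5
  (.s k41 k22 6 (.s k21 k61 5 (.d k42 k43 k63 0 6)))))))] .n) (.c k215 (.q k1 [(.s k169 k253 13 (.s
  k3 k2 0 (.s k86 k252 14 (.d k87 k84 k171 0 13)))), (.s k65 k125 5 (.s k169 k253 13 (.s k41 k233 7
  (.s k61 k21 5 (.d k193 k129 k149 7 13))))), (.s k3 k2 0 (.s k65 k125 5 (.s k129 k193 7 (.s k66
  k192 8 (.s k67 k64 0 (.d k195 k131 k130 7 8))))))] .n) (.c k235 (.l (.s k125 k65 5 (.s k60 k190 8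
  (.s k20 k40 5 (.d k150 k215 k195 8 14))))) .n))))))))))))

def t7_120 : T TT 256 :=
  (.f k255 k170 14 (.q k89 [(.s k81 k93 1 (.s k243 k162 12 (.s k166 k12 14 (.d k247 k251 k4 1
  12))))] (.c k4 (.q k5 [(.s k15 k10 2 (.s k95 k175 11 (.s k90 k80 2 (.d k165 k245 k240 11 14)))),
  (.s k93 k81 1 (.s k165 k245 11 (.s k13 k241 13 (.s k1 k9 1 (.d k253 k173 k169 11 13))))), (.s k15
  k10 2 (.s k81 k93 1 (.s k243 k162 12 (.s k91 k167 13 (.s k90 k88 0 (.d k95 k80 k175 2 11))))))]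
  .n) (.c k12 (.q k1 [(.s k3 k2 0 (.s k87 k171 13 (.s k86 k84 0 (.d k169 k253 k252 13 14)))), (.s
  k81 k93 1 (.s k169 k253 13 (.s k9 k249 11 (.s k13 k5 1 (.d k241 k161 k165 11 13))))), (.s k3 k2 0
  (.s k81 k93 1 (.s k161 k241 11 (.s k82 k240 12 (.s k83 k80 0 (.d k243 k163 k162 11 12))))))] .n)
  (.c k81 (.q k69 [(.s k101 k117 3 (.s k207 k138 10 (.s k154 k48 14 (.d k223 k239 k16 3 10)))), (.s
  k101 k117 3 (.s k77 k113 5 (.s k65 k73 1 (.s k195 k130 8 (.s k215 k235 5 (.s k150 k20 8 (.d k105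
  k125 k60 5 14)))))))] (.c k101 (.f k207 k138 10 (.q k154 [(.d k223 k239 k16 3 10), (.s k219 k24 8
  (.s k243 k231 5 (.s k166 k12 14 (.d k247 k251 k4 1 12))))] (.c k32 (.l (.s k239 k223 3 (.s k219
  k24 8 (.s k243 k231 5 (.s k166 k12 14 (.d k247 k251 k4 1 12)))))) (.c k239 (.q k32 [(.d k16 k48
  k223 3 10), (.s k219 k24 8 (.s k243 k231 5 (.s k247 k251 1 (.d k166 k4 k12 12 14))))] .n) .n))))
  (.c k117 (.l (.s k207 k138 10 (.s k223 k239 3 (.s k154 k16 10 (.s k219 k24 8 (.s k243 k231 5 (.s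
  k166 k12 14 (.d k247 k251 k4 1 12)))))))) .n))) (.c k93 (.q k21 [(.s k149 k213 7 (.s k63 k42 6 (.s
  k106 k192 14 (.d k127 k64 k191 6 7)))), (.s k149 k213 7 (.s k29 k209 9 (.s k17 k25 1 (.s k51 k34 4
  (.s k119 k187 9 (.s k102 k68 4 (.d k153 k221 k204 9 14)))))))] (.c k149 (.f k63 k42 6 (.q k106
  [(.d k127 k191 k64 7 6), (.s k123 k72 4 (.s k243 k183 9 (.s k166 k12 14 (.d k247 k251 k4 1 12))))]
  (.c k128 (.l (.s k191 k127 7 (.s k123 k72 4 (.s k243 k183 9 (.s k166 k12 14 (.d k247 k251 k4 1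
  12)))))) (.c k191 (.q k128 [(.d k64 k127 k192 6 7), (.s k123 k72 4 (.s k243 k183 9 (.s k247 k251 1
  (.d k166 k4 k12 12 14))))] .n) .n)))) (.c k213 (.l (.s k63 k42 6 (.s k127 k191 7 (.s k106 k64 6
  (.s k123 k72 4 (.s k243 k183 9 (.s k166 k12 14 (.d k247 k251 k4 1 12)))))))) .n))) (.c k162 (.l
  (.s k93 k81 1 (.s k12 k174 12 (.s k166 k243 14 (.d k4 k8 k247 1 12))))) (.c k166 (.f k81 k93 1 (.q
  k83 [(.s k80 k82 0 (.s k86 k92 2 (.s k87 k84 0 (.d k95 k91 k90 1 2)))), (.s k80 k82 0 (.s k240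
  k160 11 (.s k245 k250 2 (.s k165 k5 11 (.s k241 k13 13 (.d k243 k162 k242 12 0)))))), (.s k86 k92
  2 (.s k84 k87 0 (.s k252 k168 13 (.s k169 k3 14 (.d k253 k254 k1 0 13)))))] (.c k162 (.q k174 [(.s
  k86 k92 2 (.s k87 k84 0 (.s k95 k91 1 (.d k80 k82 k90 0 2)))), (.s k80 k82 0 (.s k240 k160 11 (.s
  k245 k250 2 (.s k165 k5 11 (.d k90 k95 k15 2 14))))), (.s k86 k92 2 (.s k84 k87 0 (.s k252 k168 13
  (.s k169 k3 14 (.d k253 k254 k1 0 13)))))] (.c k95 (.l (.s k82 k80 0 (.s k86 k92 2 (.s k94 k90 1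
  (.s k84 k87 0 (.s k252 k168 13 (.d k254 k14 k253 11 0))))))) .n)) (.c k174 (.l (.s k162 k243 12
  (.s k80 k82 0 (.s k86 k92 2 (.s k87 k84 0 (.d k95 k91 k90 1 2)))))) .n)))) (.c k174 (.l (.s k81
  k93 1 (.s k243 k162 12 (.s k166 k12 14 (.d k247 k251 k4 1 12))))) (.c k243 (.q k1 [(.s k3 k2 0 (.s
  k87 k171 13 (.s k86 k84 0 (.d k169 k253 k252 13 14)))), (.s k81 k93 1 (.s k169 k253 13 (.s k9 k249
  11 (.s k13 k5 1 (.d k241 k161 k165 11 13))))), (.s k3 k2 0 (.s k93 k81 1 (.s k12 k174 12 (.s k8 k4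
  1 (.s k9 k6 2 (.s k5 k13 1 (.d k10 k11 k15 0 2)))))))] .n) (.c k247 (.q k87 [(.s k86 k84 0 (.s k3
  k171 13 (.s k169 k252 14 (.d k1 k2 k253 0 13)))), (.s k81 k93 1 (.s k86 k84 0 (.s k83 k92 2 (.s
  k80 k82 0 (.d k95 k91 k90 1 2))))), (.s k3 k171 13 (.s k81 k93 1 (.s k243 k162 12 (.s k83 k163 11
  (.s k80 k82 0 (.d k95 k91 k90 1 2))))))] .n) (.c k251 (.l (.s k93 k81 1 (.s k12 k174 12 (.s k4 k8
  1 (.d k166 k247 k243 12 14))))) .n))))))))))))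

def t7_121 : T TT 256 :=
  (.f k255 k170 14 (.q k106 [(.s k64 k127 6 (.s k192 k128 7 (.s k149 k63 14 (.d k213 k234 k21 6
  7))))] (.c k21 (.q k1 [(.s k169 k253 13 (.s k3 k2 0 (.s k86 k252 14 (.d k87 k84 k171 0 13)))), (.s
  k64 k127 6 (.s k192 k128 7 (.s k213 k234 6 (.s k253 k169 13 (.s k193 k233 5 (.s k65 k129 7 (.d
  k195 k130 k194 8 0))))))), (.s k3 k2 0 (.s k64 k127 6 (.s k192 k128 7 (.s k66 k129 8 (.s k86 k126
  5 (.d k87 k84 k171 0 13))))))] (.c k171 (.l (.s k3 k2 0 (.s k127 k64 6 (.s k63 k191 7 (.s k43 k23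
  5 (.d k169 k232 k253 8 13)))))) .n)) (.c k63 (.q k1 [(.s k3 k2 0 (.s k87 k171 13 (.s k86 k84 0 (.d
  k169 k253 k252 13 14)))), (.s k64 k127 6 (.s k192 k128 7 (.s k213 k234 6 (.s k253 k169 13 (.s k193
  k233 5 (.s k65 k129 7 (.d k195 k130 k194 8 0))))))), (.s k3 k2 0 (.s k64 k127 6 (.s k192 k128 7
  (.s k66 k129 8 (.s k86 k126 5 (.d k87 k84 k171 0 13))))))] (.c k171 (.l (.s k3 k2 0 (.s k64 k127 6
  (.s k169 k253 13 (.s k86 k252 14 (.s k192 k128 7 (.d k66 k126 k129 5 8))))))) .n)) (.c k64 (.q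
  k195 [(.s k65 k130 8 (.s k215 k235 5 (.s k150 k20 8 (.d k105 k125 k60 5 14)))), (.s k65 k130 8 (.s
  k105 k125 5 (.s k107 k104 0 (.s k63 k151 13 (.s k21 k42 6 (.d k149 k213 k192 7 14)))))), (.s k215
  k235 5 (.s k150 k20 8 (.s k194 k62 13 (.s k192 k193 0 (.s k149 k63 14 (.d k213 k234 k21 6 7))))))]
  (.c k105 (.f k235 k215 5 (.q k12 [(.s k4 k8 1 (.s k93 k174 12 (.s k89 k81 1 (.d k166 k247 k243 12
  14)))), (.s k8 k4 1 (.s k65 k130 8 (.s k73 k134 10 (.s k69 k77 1 (.d k138 k203 k207 8 10))))), (.s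
  k93 k174 12 (.s k89 k81 1 (.s k72 k123 4 (.s k192 k132 9 (.s k149 k63 14 (.d k213 k234 k21 6
  7))))))] (.c k73 (.q k89 [(.d k93 k81 k174 1 12), (.s k4 k8 1 (.d k166 k247 k243 12 14))] .n) (.c
  k89 (.l (.s k73 k134 10 (.s k8 k4 1 (.s k65 k130 8 (.s k69 k77 1 (.d k138 k203 k207 8 10))))))
  .n)))) (.c k150 (.q k93 [(.s k12 k174 12 (.s k4 k8 1 (.s k89 k81 1 (.d k166 k247 k243 12 14)))),
  (.s k12 k174 12 (.s k8 k4 1 (.s k73 k134 10 (.s k138 k203 8 (.s k69 k207 10 (.d k65 k130 k77 8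
  1)))))), (.s k12 k174 12 (.s k89 k81 1 (.s k72 k123 4 (.s k192 k132 9 (.s k149 k63 14 (.d k213
  k234 k21 6 7))))))] (.c k12 (.l (.s k81 k89 1 (.s k215 k235 5 (.s k243 k162 12 (.s k211 k227 3 (.s
  k16 k146 8 (.d k223 k154 k219 10 1))))))) (.c k130 (.q k190 [(.s k12 k174 12 (.s k4 k8 1 (.s k89
  k81 1 (.d k166 k247 k243 12 14)))), (.s k60 k125 8 (.s k174 k12 12 (.s k158 k142 3 (.s k207 k109
  12 (.d k223 k239 k28 3 8))))), (.s k89 k81 1 (.s k125 k60 8 (.s k65 k105 5 (.s k77 k109 3 (.s k69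
  k73 1 (.d k101 k117 k113 3 5))))))] .n) (.c k162 (.l (.s k89 k81 1 (.s k12 k174 12 (.s k166 k243
  14 (.d k4 k8 k247 1 12))))) (.c k166 (.l (.s k81 k89 1 (.s k12 k174 12 (.s k162 k243 12 (.s k130
  k65 8 (.s k146 k178 3 (.s k48 k97 12 (.d k16 k211 k32 8 3)))))))) (.c k174 (.l (.s k81 k89 1 (.s
  k130 k65 8 (.s k162 k243 12 (.s k146 k178 3 (.s k48 k97 12 (.d k16 k211 k32 8 3))))))) (.c k190
  (.l (.s k130 k65 8 (.s k12 k174 12 (.s k4 k8 1 (.s k89 k81 1 (.d k166 k247 k243 12 14))))))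
  .n))))))) .n))) (.c k127 (.q k195 [(.s k65 k130 8 (.s k215 k235 5 (.s k150 k20 8 (.d k105 k125 k60
  5 14)))), (.s k65 k130 8 (.s k105 k125 5 (.s k107 k104 0 (.s k63 k151 13 (.s k21 k42 6 (.d k149
  k213 k192 7 14)))))), (.s k215 k235 5 (.s k150 k20 8 (.s k194 k62 13 (.s k192 k193 0 (.s k149 k63
  14 (.d k213 k234 k21 6 7))))))] (.c k105 (.f k235 k215 5 (.q k12 [(.s k4 k8 1 (.s k93 k174 12 (.s
  k89 k81 1 (.d k166 k247 k243 12 14)))), (.s k8 k4 1 (.s k65 k130 8 (.s k73 k134 10 (.s k69 k77 1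
  (.d k138 k203 k207 8 10))))), (.s k93 k174 12 (.s k89 k81 1 (.s k72 k123 4 (.s k192 k132 9 (.s
  k149 k63 14 (.d k213 k234 k21 6 7))))))] (.c k73 (.q k89 [(.d k93 k81 k174 1 12), (.s k4 k8 1 (.d
  k166 k247 k243 12 14))] .n) (.c k89 (.l (.s k73 k134 10 (.s k8 k4 1 (.s k65 k130 8 (.s k69 k77 1
  (.d k138 k203 k207 8 10)))))) .n)))) (.c k150 (.q k149 [(.s k21 k213 7 (.d k63 k42 k192 6 14)),
  (.s k63 k192 14 (.s k107 k151 13 (.s k105 k104 0 (.d k65 k130 k125 8 5))))] (.c k63 (.l (.s k213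
  k21 7 (.s k192 k234 6 (.s k193 k194 0 (.s k105 k61 13 (.d k65 k125 k130 5 8)))))) (.c k130 (.q
  k190 [(.s k21 k213 7 (.d k63 k42 k192 6 14)), (.s k63 k192 14 (.s k107 k151 13 (.s k105 k104 0 (.d
  k125 k60 k65 8 5))))] (.c k63 (.l (.s k125 k60 8 (.s k105 k65 5 (.s k213 k21 7 (.s k192 k234 6 (.d
  k193 k61 k194 13 0)))))) (.c k192 (.l (.s k21 k213 7 (.s k63 k42 6 (.s k107 k151 13 (.s k105 k104
  0 (.d k125 k60 k65 8 5)))))) .n))) (.c k190 (.l (.s k130 k65 8 (.s k21 k213 7 (.d k63 k42 k192 6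
  14)))) (.c k192 (.l (.s k21 k213 7 (.s k63 k42 6 (.s k107 k151 13 (.s k105 k104 0 (.d k65 k125
  k130 5 8)))))) .n))))) .n))) (.c k128 (.l (.s k127 k64 6 (.s k63 k191 7 (.s k149 k192 14 (.d k21
  k42 k213 6 7))))) (.c k149 (.f k127 k64 6 (.f k191 k63 7 (.q k86 [(.s k84 k87 0 (.s k252 k168 13
  (.s k253 k254 0 (.d k169 k1 k3 13 14)))), (.s k126 k66 5 (.s k125 k124 0 (.s k60 k190 8 (.s k20
  k40 5 (.s k150 k215 8 (.d k105 k65 k195 5 14))))))] (.c k84 (.l (.s k126 k66 5 (.s k124 k125 0 (.s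
  k67 k105 6 (.s k87 k107 5 (.s k3 k171 13 (.s k1 k2 0 (.d k169 k253 k252 13 14)))))))) .n)))) (.c
  k191 (.l (.s k64 k127 6 (.s k192 k128 7 (.s k149 k63 14 (.d k213 k234 k21 6 7))))) (.c k192 (.q k1
  [(.s k3 k2 0 (.s k87 k171 13 (.s k86 k84 0 (.d k169 k253 k252 13 14)))), (.s k127 k64 6 (.s k63
  k191 7 (.s k21 k42 6 (.s k61 k41 5 (.s k253 k169 13 (.s k125 k189 7 (.d k60 k190 k62 8 0))))))),
  (.s k3 k2 0 (.s k127 k64 6 (.s k63 k191 7 (.s k21 k42 6 (.s k23 k43 5 (.s k22 k20 0 (.d k41 k61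
  k60 5 6)))))))] .n) (.c k213 (.q k1 [(.s k3 k2 0 (.s k87 k171 13 (.s k86 k84 0 (.d k169 k253 k252
  13 14)))), (.s k64 k127 6 (.s k169 k253 13 (.s k192 k128 7 (.s k149 k63 14 (.s k129 k189 5 (.s k66
  k3 8 (.d k65 k193 k67 7 0))))))), (.s k3 k2 0 (.s k64 k127 6 (.s k192 k128 7 (.s k66 k129 8 (.s
  k86 k126 5 (.d k87 k84 k171 0 13))))))] (.c k3 (.l (.s k127 k64 6 (.s k63 k191 7 (.s k21 k42 6 (.s
  k61 k41 5 (.s k60 k62 0 (.s k125 k190 8 (.d k253 k189 k169 7 13)))))))) .n)) (.c k234 (.l (.s k127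
  k64 6 (.s k63 k191 7 (.s k21 k42 6 (.d k149 k213 k192 7 14))))) .n))))))))))))

def t7_122 : T TT 256 :=
  (.f k255 k170 14 (.q k105 [(.s k65 k125 5 (.s k195 k130 8 (.s k150 k60 14 (.d k215 k235 k20 5
  8))))] (.c k20 (.q k1 [(.s k169 k253 13 (.s k3 k2 0 (.s k86 k252 14 (.d k87 k84 k171 0 13)))), (.s
  k65 k125 5 (.s k169 k253 13 (.s k41 k233 7 (.s k61 k21 5 (.d k193 k129 k149 7 13))))), (.s k3 k2 0
  (.s k65 k125 5 (.s k129 k193 7 (.s k66 k192 8 (.s k67 k64 0 (.d k195 k131 k130 7 8))))))] .n) (.c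
  k60 (.q k1 [(.s k3 k2 0 (.s k87 k171 13 (.s k86 k84 0 (.d k169 k253 k252 13 14)))), (.s k65 k125 5
  (.s k169 k253 13 (.s k41 k233 7 (.s k61 k21 5 (.d k193 k129 k149 7 13))))), (.s k3 k2 0 (.s k65
  k125 5 (.s k129 k193 7 (.s k66 k192 8 (.s k67 k64 0 (.d k195 k131 k130 7 8))))))] .n) (.c k65 (.q
  k1 [(.s k169 k253 13 (.s k3 k2 0 (.s k86 k252 14 (.d k87 k84 k171 0 13)))), (.s k169 k253 13 (.s
  k41 k233 7 (.s k21 k61 5 (.s k63 k42 6 (.s k127 k191 7 (.s k106 k64 6 (.d k149 k213 k192 7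
  14)))))))] (.c k169 (.f k3 k2 0 (.q k86 [(.d k87 k171 k84 13 0), (.s k67 k124 6 (.s k195 k131 7
  (.s k150 k60 14 (.d k215 k235 k20 5 8))))] (.c k168 (.l (.s k171 k87 13 (.s k67 k124 6 (.s k195
  k131 7 (.s k150 k60 14 (.d k215 k235 k20 5 8)))))) (.c k171 (.q k168 [(.d k84 k87 k252 0 13), (.s
  k67 k124 6 (.s k195 k131 7 (.s k215 k235 5 (.d k150 k20 k60 8 14))))] .n) .n)))) (.c k253 (.l (.s
  k3 k2 0 (.s k87 k171 13 (.s k86 k84 0 (.s k67 k124 6 (.s k195 k131 7 (.s k150 k60 14 (.d k215 k235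
  k20 5 8)))))))) .n))) (.c k125 (.q k253 [(.s k169 k1 13 (.s k252 k254 0 (.s k84 k168 13 (.d k86
  k87 k3 0 14)))), (.s k169 k1 13 (.s k233 k41 7 (.s k213 k193 5 (.s k192 k234 6 (.s k64 k128 7 (.s
  k106 k127 6 (.d k149 k21 k63 7 14)))))))] (.c k1 (.l (.s k252 k254 0 (.s k84 k168 13 (.s k86 k87 0
  (.s k124 k67 6 (.s k60 k188 7 (.s k20 k40 5 (.d k150 k215 k195 8 14)))))))) (.c k169 (.f k252 k254
  0 (.q k86 [(.d k84 k168 k87 13 0), (.s k124 k67 6 (.s k60 k188 7 (.s k20 k40 5 (.d k150 k215 k195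
  8 14))))] (.c k168 (.q k171 [(.d k87 k84 k3 0 13), (.s k124 k67 6 (.s k60 k188 7 (.s k20 k40 5 (.d
  k150 k215 k195 8 14))))] .n) (.c k171 (.l (.s k168 k84 13 (.s k124 k67 6 (.s k60 k188 7 (.s k20
  k40 5 (.d k150 k215 k195 8 14)))))) .n)))) .n))) (.c k130 (.l (.s k125 k65 5 (.s k60 k190 8 (.s
  k150 k195 14 (.d k20 k40 k215 5 8))))) (.c k150 (.f k65 k125 5 (.q k193 [(.s k1 k129 7 (.s k149
  k61 13 (.s k213 k21 7 (.d k253 k233 k169 5 13)))), (.s k1 k129 7 (.s k3 k2 0 (.s k87 k171 13 (.s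
  k86 k84 0 (.s k67 k124 6 (.d k195 k130 k131 8 7)))))), (.s k149 k61 13 (.s k21 k213 7 (.s k63 k42
  6 (.s k106 k192 14 (.d k127 k64 k191 6 7)))))] (.c k130 (.q k190 [(.s k149 k61 13 (.s k213 k21 7
  (.s k253 k233 5 (.d k1 k129 k169 7 13)))), (.s k1 k129 7 (.s k3 k2 0 (.s k87 k171 13 (.s k86 k84 0
  (.d k169 k253 k252 13 14))))), (.s k149 k61 13 (.s k21 k213 7 (.s k63 k42 6 (.s k106 k192 14 (.d
  k127 k64 k191 6 7)))))] (.c k253 (.l (.s k129 k1 7 (.s k149 k61 13 (.s k189 k169 5 (.s k21 k213 7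
  (.s k63 k42 6 (.d k191 k188 k127 0 7))))))) .n)) (.c k190 (.l (.s k130 k195 8 (.s k1 k129 7 (.s
  k61 k149 13 (.s k41 k21 5 (.d k169 k233 k253 7 13)))))) .n)))) (.c k190 (.l (.s k65 k125 5 (.s
  k195 k130 8 (.s k150 k60 14 (.d k215 k235 k20 5 8))))) (.c k195 (.q k1 [(.s k3 k2 0 (.s k87 k171
  13 (.s k86 k84 0 (.d k169 k253 k252 13 14)))), (.s k65 k125 5 (.s k169 k253 13 (.s k41 k233 7 (.s
  k61 k21 5 (.d k193 k129 k149 7 13))))), (.s k3 k2 0 (.s k125 k65 5 (.s k60 k190 8 (.s k40 k20 5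
  (.s k41 k22 6 (.s k21 k61 5 (.d k42 k43 k63 0 6)))))))] .n) (.c k215 (.q k1 [(.s k169 k253 13 (.s
  k3 k2 0 (.s k86 k252 14 (.d k87 k84 k171 0 13)))), (.s k65 k125 5 (.s k169 k253 13 (.s k41 k233 7
  (.s k61 k21 5 (.d k193 k129 k149 7 13))))), (.s k3 k2 0 (.s k65 k125 5 (.s k129 k193 7 (.s k66
  k192 8 (.s k67 k64 0 (.d k195 k131 k130 7 8))))))] .n) (.c k235 (.l (.s k125 k65 5 (.s k60 k190 8
  (.s k20 k40 5 (.d k150 k215 k195 8 14))))) .n))))))))))))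

def t7_123 : T TT 256 :=
  (.f k255 k170 14 (.q k105 [(.s k65 k125 5 (.s k195 k130 8 (.s k150 k60 14 (.d k215 k235 k20 5
  8))))] (.c k20 (.q k1 [(.s k169 k253 13 (.s k3 k2 0 (.s k86 k252 14 (.d k87 k84 k171 0 13)))), (.s
  k65 k125 5 (.s k169 k253 13 (.s k41 k233 7 (.s k61 k21 5 (.d k193 k129 k149 7 13))))), (.s k3 k2 0
  (.s k65 k125 5 (.s k129 k193 7 (.s k66 k192 8 (.s k67 k64 0 (.d k195 k131 k130 7 8))))))] .n) (.c
  k60 (.q k1 [(.s k3 k2 0 (.s k87 k171 13 (.s k86 k84 0 (.d k169 k253 k252 13 14)))), (.s k65 k125 5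
  (.s k169 k253 13 (.s k41 k233 7 (.s k61 k21 5 (.d k193 k129 k149 7 13))))), (.s k3 k2 0 (.s k65
  k125 5 (.s k129 k193 7 (.s k66 k192 8 (.s k67 k64 0 (.d k195 k131 k130 7 8))))))] .n) (.c k65 (.q
  k1 [(.s k169 k253 13 (.s k3 k2 0 (.s k86 k252 14 (.d k87 k84 k171 0 13)))), (.s k169 k253 13 (.s
  k41 k233 7 (.s k21 k61 5 (.s k63 k42 6 (.s k127 k191 7 (.s k106 k64 6 (.d k149 k213 k192 7
  14)))))))] (.c k169 (.f k3 k2 0 (.q k86 [(.d k87 k171 k84 13 0), (.s k67 k124 6 (.s k195 k131 7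
  (.s k150 k60 14 (.d k215 k235 k20 5 8))))] (.c k168 (.l (.s k171 k87 13 (.s k67 k124 6 (.s k195
  k131 7 (.s k150 k60 14 (.d k215 k235 k20 5 8)))))) (.c k171 (.q k168 [(.d k84 k87 k252 0 13), (.s
  k67 k124 6 (.s k195 k131 7 (.s k215 k235 5 (.d k150 k20 k60 8 14))))] .n) .n)))) (.c k253 (.l (.s
  k3 k2 0 (.s k87 k171 13 (.s k86 k84 0 (.s k67 k124 6 (.s k195 k131 7 (.s k150 k60 14 (.d k215 k235
  k20 5 8)))))))) .n))) (.c k125 (.q k253 [(.s k169 k1 13 (.s k252 k254 0 (.s k84 k168 13 (.d k86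
  k87 k3 0 14)))), (.s k169 k1 13 (.s k233 k41 7 (.s k213 k193 5 (.s k192 k234 6 (.s k64 k128 7 (.s
  k106 k127 6 (.d k149 k21 k63 7 14)))))))] (.c k1 (.l (.s k252 k254 0 (.s k84 k168 13 (.s k86 k87 0
  (.s k124 k67 6 (.s k60 k188 7 (.s k20 k40 5 (.d k150 k215 k195 8 14)))))))) (.c k169 (.f k252 k254
  0 (.q k86 [(.d k84 k168 k87 13 0), (.s k124 k67 6 (.s k60 k188 7 (.s k20 k40 5 (.d k150 k215 k195
  8 14))))] (.c k168 (.q k171 [(.d k87 k84 k3 0 13), (.s k124 k67 6 (.s k60 k188 7 (.s k20 k40 5 (.d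
  k150 k215 k195 8 14))))] .n) (.c k171 (.l (.s k168 k84 13 (.s k124 k67 6 (.s k60 k188 7 (.s k20
  k40 5 (.d k150 k215 k195 8 14)))))) .n)))) .n))) (.c k130 (.l (.s k125 k65 5 (.s k60 k190 8 (.s
  k150 k195 14 (.d k20 k40 k215 5 8))))) (.c k150 (.f k125 k65 5 (.q k117 [(.s k101 k69 3 (.s k109
  k97 1 (.s k77 k93 3 (.d k113 k121 k89 1 5)))), (.s k48 k186 10 (.s k16 k32 3 (.s k154 k223 10 (.s
  k56 k203 12 (.d k60 k190 k52 8 1)))))] (.c k101 (.l (.s k121 k113 1 (.s k89 k73 3 (.s k81 k93 1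
  (.s k243 k162 12 (.d k60 k190 k182 8 10)))))) (.c k130 (.l (.s k190 k60 8 (.s k48 k186 10 (.s k16
  k32 3 (.s k101 k69 3 (.d k154 k223 k207 10 14)))))) (.c k190 (.q k130 [(.s k101 k69 3 (.s k109 k97
  1 (.s k77 k93 3 (.d k113 k121 k89 1 5)))), (.s k48 k186 10 (.s k16 k32 3 (.s k154 k223 10 (.d k101
  k69 k207 3 14)))), (.s k121 k113 1 (.s k186 k48 10 (.s k251 k56 8 (.s k243 k247 1 (.s k81 k162 12
  (.d k89 k93 k73 1 3))))))] .n) .n))))) (.c k190 (.l (.s k65 k125 5 (.s k195 k130 8 (.s k150 k60 14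
  (.d k215 k235 k20 5 8))))) (.c k195 (.q k1 [(.s k3 k2 0 (.s k87 k171 13 (.s k86 k84 0 (.d k169
  k253 k252 13 14)))), (.s k65 k125 5 (.s k169 k253 13 (.s k41 k233 7 (.s k61 k21 5 (.d k193 k129
  k149 7 13))))), (.s k3 k2 0 (.s k125 k65 5 (.s k60 k190 8 (.s k40 k20 5 (.s k41 k22 6 (.s k21 k61
  5 (.d k42 k43 k63 0 6)))))))] .n) (.c k215 (.q k1 [(.s k169 k253 13 (.s k3 k2 0 (.s k86 k252 14
  (.d k87 k84 k171 0 13)))), (.s k65 k125 5 (.s k169 k253 13 (.s k41 k233 7 (.s k61 k21 5 (.d k193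
  k129 k149 7 13))))), (.s k3 k2 0 (.s k65 k125 5 (.s k129 k193 7 (.s k66 k192 8 (.s k67 k64 0 (.d
  k195 k131 k130 7 8))))))] .n) (.c k235 (.l (.s k125 k65 5 (.s k60 k190 8 (.s k20 k40 5 (.d k150
  k215 k195 8 14))))) .n))))))))))))

def t7_124 : T TT 256 :=
  (.f k255 k170 14 (.q k89 [(.s k81 k93 1 (.s k243 k162 12 (.s k166 k12 14 (.d k247 k251 k4 1
  12))))] (.c k4 (.q k5 [(.s k165 k245 11 (.s k15 k10 2 (.s k90 k240 14 (.d k95 k80 k175 2 11)))),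
  (.s k93 k81 1 (.s k165 k245 11 (.s k13 k241 13 (.s k1 k9 1 (.d k253 k173 k169 11 13))))), (.s k15
  k10 2 (.s k81 k93 1 (.s k243 k162 12 (.s k91 k167 13 (.s k90 k88 0 (.d k95 k80 k175 2 11))))))]
  .n) (.c k12 (.q k1 [(.s k3 k2 0 (.s k87 k171 13 (.s k169 k253 13 (.d k86 k84 k252 0 14)))), (.s
  k81 k93 1 (.s k169 k253 13 (.s k9 k249 11 (.s k13 k5 1 (.d k241 k161 k165 11 13))))), (.s k3 k2 0
  (.s k81 k93 1 (.s k161 k241 11 (.s k82 k240 12 (.s k83 k80 0 (.d k243 k163 k162 11 12))))))] .n)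
  (.c k81 (.q k69 [(.s k101 k117 3 (.s k207 k138 10 (.s k154 k48 14 (.d k223 k239 k16 3 10)))), (.s
  k101 k117 3 (.s k77 k113 5 (.s k65 k73 1 (.s k195 k130 8 (.s k215 k235 5 (.s k150 k20 8 (.d k105
  k125 k60 5 14)))))))] (.c k101 (.f k207 k138 10 (.q k154 [(.d k223 k239 k16 3 10), (.s k219 k24 8
  (.s k243 k231 5 (.s k166 k12 14 (.d k247 k251 k4 1 12))))] (.c k32 (.l (.s k239 k223 3 (.s k219
  k24 8 (.s k243 k231 5 (.s k166 k12 14 (.d k247 k251 k4 1 12)))))) (.c k239 (.q k32 [(.d k16 k48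
  k223 3 10), (.s k219 k24 8 (.s k243 k231 5 (.s k247 k251 1 (.d k166 k4 k12 12 14))))] .n) .n))))
  (.c k117 (.l (.s k207 k138 10 (.s k223 k239 3 (.s k154 k16 10 (.s k219 k24 8 (.s k243 k231 5 (.s
  k166 k12 14 (.d k247 k251 k4 1 12)))))))) .n))) (.c k93 (.q k21 [(.s k149 k213 7 (.s k63 k42 6 (.s
  k106 k192 14 (.d k127 k64 k191 6 7)))), (.s k149 k213 7 (.s k29 k209 9 (.s k17 k25 1 (.s k51 k34 4
  (.s k119 k187 9 (.s k102 k68 4 (.d k153 k221 k204 9 14)))))))] (.c k149 (.f k63 k42 6 (.q k106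
  [(.d k127 k191 k64 7 6), (.s k123 k72 4 (.s k243 k183 9 (.s k166 k12 14 (.d k247 k251 k4 1 12))))]
  (.c k128 (.l (.s k191 k127 7 (.s k123 k72 4 (.s k243 k183 9 (.s k166 k12 14 (.d k247 k251 k4 1
  12)))))) (.c k191 (.q k128 [(.d k64 k127 k192 6 7), (.s k123 k72 4 (.s k243 k183 9 (.s k247 k251 1
  (.d k166 k4 k12 12 14))))] .n) .n)))) (.c k213 (.l (.s k63 k42 6 (.s k127 k191 7 (.s k106 k64 6
  (.s k123 k72 4 (.s k243 k183 9 (.s k166 k12 14 (.d k247 k251 k4 1 12)))))))) .n))) (.c k162 (.l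
  (.s k93 k81 1 (.s k12 k174 12 (.s k166 k243 14 (.d k4 k8 k247 1 12))))) (.c k166 (.f k81 k93 1 (.q
  k83 [(.s k80 k82 0 (.s k90 k95 2 (.s k88 k91 0 (.d k92 k84 k86 1 2)))), (.s k80 k82 0 (.s k240
  k160 11 (.s k245 k250 2 (.s k165 k5 11 (.s k241 k13 13 (.d k243 k162 k242 12 0)))))), (.s k86 k92
  2 (.s k84 k87 0 (.s k252 k168 13 (.s k169 k3 14 (.d k253 k254 k1 0 13)))))] (.c k162 (.q k174 [(.s
  k80 k82 0 (.s k90 k95 2 (.s k88 k91 0 (.d k92 k84 k86 1 2)))), (.s k86 k92 2 (.s k84 k87 0 (.s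
  k252 k168 13 (.s k169 k3 14 (.d k253 k254 k1 0 13))))), (.s k80 k82 0 (.s k240 k160 11 (.s k245
  k250 2 (.s k165 k5 11 (.d k90 k95 k15 2 14)))))] (.c k95 (.l (.s k82 k80 0 (.s k86 k92 2 (.s k94
  k90 1 (.s k84 k87 0 (.s k252 k168 13 (.d k254 k14 k253 11 0))))))) .n)) (.c k174 (.l (.s k162 k243
  12 (.s k80 k82 0 (.s k86 k92 2 (.s k87 k84 0 (.d k95 k91 k90 1 2)))))) .n)))) (.c k174 (.l (.s k81
  k93 1 (.s k243 k162 12 (.s k166 k12 14 (.d k247 k251 k4 1 12))))) (.c k243 (.q k1 [(.s k3 k2 0 (.s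
  k87 k171 13 (.s k169 k253 13 (.d k86 k84 k252 0 14)))), (.s k81 k93 1 (.s k169 k253 13 (.s k9 k249
  11 (.s k13 k5 1 (.d k241 k161 k165 11 13))))), (.s k3 k2 0 (.s k93 k81 1 (.s k12 k174 12 (.s k8 k4
  1 (.s k9 k6 2 (.s k5 k13 1 (.d k10 k11 k15 0 2)))))))] .n) (.c k247 (.q k87 [(.s k3 k171 13 (.s k1
  k2 0 (.s k169 k253 13 (.d k86 k84 k252 0 14)))), (.s k81 k93 1 (.s k86 k84 0 (.s k83 k92 2 (.s k80
  k82 0 (.d k95 k91 k90 1 2))))), (.s k3 k171 13 (.s k81 k93 1 (.s k243 k162 12 (.s k83 k163 11 (.s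
  k80 k82 0 (.d k95 k91 k90 1 2))))))] .n) (.c k251 (.l (.s k93 k81 1 (.s k12 k174 12 (.s k4 k8 1
  (.d k166 k247 k243 12 14))))) .n))))))))))))

def t7_125 : T TT 256 :=
  (.f k255 k170 14 (.q k102 [(.s k68 k119 4 (.s k204 k136 9 (.s k153 k51 14 (.d k221 k238 k17 4
  9))))] (.c k17 (.q k1 [(.s k3 k2 0 (.s k87 k171 13 (.s k86 k84 0 (.d k169 k253 k252 13 14)))), (.s
  k68 k119 4 (.s k169 k253 13 (.s k204 k136 9 (.s k153 k51 14 (.s k137 k185 3 (.s k69 k205 9 (.d k70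
  k71 k3 0 10))))))), (.s k3 k2 0 (.s k68 k119 4 (.s k204 k136 9 (.s k70 k137 10 (.s k86 k118 3 (.d
  k87 k84 k171 0 13))))))] (.c k3 (.l (.s k68 k119 4 (.s k204 k136 9 (.s k221 k238 4 (.s k253 k169
  13 (.s k205 k237 3 (.s k69 k137 9 (.d k207 k138 k206 10 0)))))))) .n)) (.c k51 (.q k1 [(.s k3 k2 0
  (.s k87 k171 13 (.s k86 k84 0 (.d k169 k253 k252 13 14)))), (.s k68 k119 4 (.s k204 k136 9 (.s
  k221 k238 4 (.s k253 k169 13 (.s k205 k237 3 (.s k69 k137 9 (.d k207 k138 k206 10 0))))))), (.s k3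
  k2 0 (.s k68 k119 4 (.s k204 k136 9 (.s k70 k137 10 (.s k86 k118 3 (.d k87 k84 k171 0 13))))))]
  (.c k171 (.l (.s k3 k2 0 (.s k68 k119 4 (.s k169 k253 13 (.s k86 k252 14 (.s k204 k136 9 (.d k70
  k118 k137 3 10))))))) .n)) (.c k68 (.q k4 [(.s k12 k8 1 (.s k93 k174 12 (.s k89 k81 1 (.d k166
  k247 k243 12 14)))), (.s k166 k247 12 (.s k38 k230 7 (.s k21 k55 4 (.s k63 k42 6 (.s k127 k191 7
  (.s k106 k64 6 (.d k149 k213 k192 7 14)))))))] (.c k166 (.f k12 k8 1 (.q k89 [(.d k93 k174 k81 12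
  1), (.s k76 k115 6 (.s k204 k140 7 (.s k153 k51 14 (.d k221 k238 k17 4 9))))] (.c k162 (.l (.s
  k174 k93 12 (.s k76 k115 6 (.s k204 k140 7 (.s k153 k51 14 (.d k221 k238 k17 4 9)))))) (.c k174
  (.q k162 [(.d k81 k93 k243 1 12), (.s k76 k115 6 (.s k204 k140 7 (.s k221 k238 4 (.d k153 k17 k51
  9 14))))] .n) .n)))) (.c k247 (.l (.s k12 k8 1 (.s k93 k174 12 (.s k89 k81 1 (.s k76 k115 6 (.s
  k204 k140 7 (.s k153 k51 14 (.d k221 k238 k17 4 9)))))))) .n))) (.c k119 (.q k81 [(.s k89 k93 1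
  (.s k243 k162 12 (.s k166 k12 14 (.d k247 k251 k4 1 12)))), (.s k89 k93 1 (.s k115 k76 6 (.s k64
  k98 4 (.s k192 k128 7 (.s k213 k234 6 (.s k149 k21 7 (.d k106 k127 k63 6 14))))))), (.s k243 k162
  12 (.s k247 k251 1 (.s k166 k4 12 (.s k230 k38 7 (.s k204 k217 6 (.s k153 k51 14 (.d k221 k238 k17
  4 9)))))))] (.c k89 (.f k243 k162 12 (.q k166 [(.d k247 k251 k4 1 12), (.s k230 k38 7 (.s k204
  k217 6 (.s k153 k51 14 (.d k221 k238 k17 4 9))))] (.c k8 (.l (.s k251 k247 1 (.s k230 k38 7 (.s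
  k204 k217 6 (.s k153 k51 14 (.d k221 k238 k17 4 9)))))) (.c k251 (.q k8 [(.d k4 k12 k247 1 12),
  (.s k230 k38 7 (.s k204 k217 6 (.s k221 k238 4 (.d k153 k17 k51 9 14))))] .n) .n)))) .n)) (.c k136
  (.l (.s k119 k68 4 (.s k51 k187 9 (.s k153 k204 14 (.d k17 k34 k221 4 9))))) (.c k153 (.f k68 k119
  4 (.q k149 [(.s k21 k213 7 (.s k63 k42 6 (.s k106 k192 14 (.d k127 k64 k191 6 7)))), (.s k196 k55
  12 (.s k4 k132 7 (.s k12 k8 1 (.s k93 k174 12 (.s k89 k81 1 (.d k166 k247 k243 12 14))))))] (.c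
  k136 (.q k187 [(.s k21 k213 7 (.s k63 k42 6 (.s k106 k192 14 (.d k127 k64 k191 6 7)))), (.s k196
  k55 12 (.s k4 k132 7 (.s k12 k8 1 (.s k93 k174 12 (.s k89 k81 1 (.d k166 k247 k243 12 14))))))]
  .n) (.c k187 (.l (.s k136 k204 9 (.s k21 k213 7 (.s k63 k42 6 (.s k106 k192 14 (.d k127 k64 k191 6
  7)))))) .n)))) (.c k187 (.l (.s k68 k119 4 (.s k204 k136 9 (.s k153 k51 14 (.d k221 k238 k17 4
  9))))) (.c k204 (.q k1 [(.s k3 k2 0 (.s k87 k171 13 (.s k86 k84 0 (.d k169 k253 k252 13 14)))),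
  (.s k119 k68 4 (.s k51 k187 9 (.s k17 k34 4 (.s k49 k33 3 (.s k253 k169 13 (.s k117 k185 9 (.d k48
  k186 k50 10 0))))))), (.s k3 k2 0 (.s k119 k68 4 (.s k51 k187 9 (.s k17 k34 4 (.s k19 k35 3 (.s
  k18 k16 0 (.d k33 k49 k48 3 4)))))))] .n) (.c k221 (.q k1 [(.s k3 k2 0 (.s k87 k171 13 (.s k86 k84
  0 (.d k169 k253 k252 13 14)))), (.s k68 k119 4 (.s k169 k253 13 (.s k204 k136 9 (.s k153 k51 14
  (.s k137 k185 3 (.s k70 k3 10 (.d k69 k205 k71 9 0))))))), (.s k3 k2 0 (.s k68 k119 4 (.s k204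
  k136 9 (.s k70 k137 10 (.s k86 k118 3 (.d k87 k84 k171 0 13))))))] (.c k3 (.l (.s k119 k68 4 (.s
  k51 k187 9 (.s k17 k34 4 (.s k49 k33 3 (.s k48 k50 0 (.s k117 k186 10 (.d k253 k185 k169 9
  13)))))))) .n)) (.c k238 (.l (.s k119 k68 4 (.s k51 k187 9 (.s k17 k34 4 (.d k153 k221 k204 9
  14))))) .n))))))))))))

def t7_126 : T TT 256 :=
  (.f k255 k170 14 (.q k105 [(.s k65 k125 5 (.s k195 k130 8 (.s k150 k60 14 (.d k215 k235 k20 5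
  8)))), (.s k125 k65 5 (.s k60 k190 8 (.s k20 k40 5 (.d k150 k215 k195 8 14))))] (.c k20 (.q k1
  [(.s k3 k2 0 (.s k87 k171 13 (.s k169 k253 13 (.d k86 k84 k252 0 14)))), (.s k65 k125 5 (.s k169
  k253 13 (.s k41 k233 7 (.s k61 k21 5 (.d k193 k129 k149 7 13))))), (.s k3 k2 0 (.s k65 k125 5 (.s
  k129 k193 7 (.s k66 k192 8 (.s k67 k64 0 (.d k195 k131 k130 7 8))))))] .n) (.c k60 (.q k1 [(.s k3
  k2 0 (.s k87 k171 13 (.s k86 k84 0 (.d k169 k253 k252 13 14)))), (.s k65 k125 5 (.s k169 k253 13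
  (.s k41 k233 7 (.s k61 k21 5 (.d k193 k129 k149 7 13))))), (.s k3 k2 0 (.s k65 k125 5 (.s k129
  k193 7 (.s k66 k192 8 (.s k67 k64 0 (.d k195 k131 k130 7 8))))))] .n) (.c k65 (.q k213 [(.s k149
  k21 7 (.s k192 k234 6 (.s k64 k128 7 (.d k106 k127 k63 6 14)))), (.s k149 k21 7 (.s k193 k61 13
  (.s k253 k233 5 (.s k252 k254 0 (.s k84 k168 13 (.s k86 k87 0 (.d k169 k1 k3 13 14)))))))] (.c k21
  (.l (.s k192 k234 6 (.s k64 k128 7 (.s k106 k127 6 (.s k104 k107 0 (.s k60 k148 13 (.s k20 k40 5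
  (.d k150 k215 k195 8 14)))))))) (.c k149 (.f k192 k234 6 (.q k106 [(.d k64 k128 k127 7 6), (.s
  k104 k107 0 (.s k60 k148 13 (.s k20 k40 5 (.d k150 k215 k195 8 14))))] (.c k128 (.q k191 [(.d k127
  k64 k63 6 7), (.s k104 k107 0 (.s k60 k148 13 (.s k20 k40 5 (.d k150 k215 k195 8 14))))] .n) (.c
  k191 (.l (.s k128 k64 7 (.s k104 k107 0 (.s k60 k148 13 (.s k20 k40 5 (.d k150 k215 k195 8
  14)))))) .n)))) .n))) (.c k125 (.q k106 [(.s k127 k64 6 (.s k63 k191 7 (.s k21 k42 6 (.d k149 k213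
  k192 7 14)))), (.s k107 k104 0 (.s k127 k64 6 (.s k87 k67 5 (.s k3 k171 13 (.s k1 k2 0 (.s k169
  k253 13 (.d k86 k84 k252 0 14)))))))] (.c k64 (.q k127 [(.s k63 k191 7 (.s k21 k42 6 (.d k149 k213
  k192 7 14))), (.s k107 k104 0 (.s k87 k67 5 (.s k3 k171 13 (.s k1 k2 0 (.s k169 k253 13 (.d k86
  k84 k252 0 14))))))] .n) (.c k124 (.l (.s k127 k64 6 (.s k63 k191 7 (.s k21 k42 6 (.d k149 k213
  k192 7 14))))) (.c k127 (.q k124 [(.s k104 k107 0 (.s k84 k64 5 (.d k86 k87 k67 0 6))), (.s k86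
  k67 6 (.s k87 k84 0 (.s k3 k171 13 (.s k1 k2 0 (.d k169 k253 k252 13 14)))))] (.c k67 (.q k3 [(.s
  k87 k171 13 (.s k104 k107 0 (.d k84 k86 k64 0 5))), (.s k1 k2 0 (.s k169 k253 13 (.s k41 k233 7
  (.s k60 k22 6 (.d k252 k86 k188 14 7))))), (.s k107 k104 0 (.s k171 k87 13 (.s k43 k235 7 (.s k63
  k23 5 (.s k21 k42 6 (.d k149 k213 k192 7 14))))))] (.c k87 (.l (.s k107 k104 0 (.s k1 k2 0 (.s
  k169 k253 13 (.s k41 k233 7 (.s k60 k22 6 (.d k252 k86 k188 14 7))))))) (.c k107 (.l (.s k87 k171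
  13 (.s k1 k2 0 (.s k86 k84 0 (.d k169 k253 k252 13 14))))) .n))) (.c k84 (.q k1 [(.s k3 k2 0 (.s
  k86 k67 6 (.d k169 k253 k252 13 14))), (.s k169 k253 13 (.s k41 k233 7 (.s k43 k232 8 (.s k42 k40
  0 (.d k21 k61 k63 5 6))))), (.s k3 k2 0 (.s k107 k104 0 (.s k171 k87 13 (.s k235 k43 7 (.s k195
  k215 5 (.d k67 k86 k131 6 7))))))] .n) (.c k86 (.l (.s k104 k107 0 (.s k64 k84 5 (.s k192 k128 7
  (.s k149 k63 14 (.d k213 k234 k21 6 7)))))) (.c k87 (.l (.s k67 k86 6 (.s k104 k107 0 (.s k64 k84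
  5 (.s k192 k128 7 (.s k149 k63 14 (.d k213 k234 k21 6 7))))))) (.c k107 (.l (.s k86 k67 6 (.s k87
  k84 0 (.s k3 k171 13 (.s k1 k2 0 (.d k169 k253 k252 13 14)))))) .n)))))) .n)))) (.c k130 (.l (.s
  k125 k65 5 (.s k60 k190 8 (.s k150 k195 14 (.d k20 k40 k215 5 8))))) (.c k150 (.f k125 k65 5 (.f
  k190 k60 8 (.q k61 [(.s k149 k193 13 (.s k21 k213 7 (.s k1 k41 5 (.d k253 k189 k169 7 13)))), (.s
  k253 k189 7 (.s k252 k254 0 (.s k84 k168 13 (.s k86 k87 0 (.d k169 k1 k3 13 14))))), (.s k149 k193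
  13 (.s k213 k21 7 (.s k192 k234 6 (.s k64 k128 7 (.d k106 k127 k63 6 14)))))] (.c k1 (.l (.s k189
  k253 7 (.s k191 k188 0 (.s k63 k127 7 (.s k21 k42 6 (.d k149 k213 k193 7 13)))))) .n)))) (.c k190
  (.l (.s k65 k125 5 (.s k195 k130 8 (.s k150 k60 14 (.d k215 k235 k20 5 8))))) (.c k195 (.q k1 [(.s
  k3 k2 0 (.s k87 k171 13 (.s k86 k84 0 (.d k169 k253 k252 13 14)))), (.s k65 k125 5 (.s k169 k253
  13 (.s k41 k233 7 (.s k61 k21 5 (.d k193 k129 k149 7 13))))), (.s k3 k2 0 (.s k125 k65 5 (.s k60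
  k190 8 (.s k40 k20 5 (.s k41 k22 6 (.s k21 k61 5 (.d k42 k43 k63 0 6)))))))] .n) (.c k215 (.q k1
  [(.s k3 k2 0 (.s k87 k171 13 (.s k86 k84 0 (.d k169 k253 k252 13 14)))), (.s k65 k125 5 (.s k169
  k253 13 (.s k41 k233 7 (.s k61 k21 5 (.d k193 k129 k149 7 13))))), (.s k3 k2 0 (.s k65 k125 5 (.s
  k129 k193 7 (.s k66 k192 8 (.s k67 k64 0 (.d k195 k131 k130 7 8))))))] .n) .n)))))))))))

def t7_127 : T TT 256 :=
  (.f k255 k170 14 (.q k101 [(.s k117 k69 3 (.s k48 k186 10 (.s k16 k32 3 (.d k154 k223 k207 10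
  14))))] (.c k16 (.q k1 [(.s k169 k253 13 (.s k3 k2 0 (.s k86 k252 14 (.d k87 k84 k171 0 13)))),
  (.s k69 k117 3 (.s k169 k253 13 (.s k33 k237 9 (.s k49 k17 3 (.d k205 k137 k153 9 13))))), (.s k3
  k2 0 (.s k69 k117 3 (.s k137 k205 9 (.s k70 k204 10 (.s k71 k68 0 (.d k207 k139 k138 9 10))))))]
  .n) (.c k32 (.l (.s k69 k117 3 (.s k207 k138 10 (.s k154 k48 14 (.d k223 k239 k16 3 10))))) (.c
  k48 (.q k1 [(.s k3 k2 0 (.s k87 k171 13 (.s k86 k84 0 (.d k169 k253 k252 13 14)))), (.s k69 k117 3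
  (.s k169 k253 13 (.s k33 k237 9 (.s k49 k17 3 (.d k205 k137 k153 9 13))))), (.s k3 k2 0 (.s k69
  k117 3 (.s k137 k205 9 (.s k70 k204 10 (.s k71 k68 0 (.d k207 k139 k138 9 10))))))] .n) (.c k69
  (.q k4 [(.s k12 k8 1 (.s k93 k174 12 (.s k89 k81 1 (.d k166 k247 k243 12 14)))), (.s k166 k247 12
  (.s k36 k231 8 (.s k20 k52 3 (.s k60 k40 5 (.s k125 k190 8 (.s k105 k65 5 (.d k150 k215 k195 8
  14)))))))] (.c k166 (.f k12 k8 1 (.q k89 [(.d k93 k174 k81 12 1), (.s k77 k113 5 (.s k207 k142 8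
  (.s k154 k48 14 (.d k223 k239 k16 3 10))))] (.c k162 (.l (.s k174 k93 12 (.s k77 k113 5 (.s k207
  k142 8 (.s k154 k48 14 (.d k223 k239 k16 3 10)))))) (.c k174 (.q k162 [(.d k81 k93 k243 1 12), (.s
  k77 k113 5 (.s k207 k142 8 (.s k223 k239 3 (.d k154 k16 k48 10 14))))] .n) .n)))) (.c k247 (.l (.s
  k12 k8 1 (.s k93 k174 12 (.s k89 k81 1 (.s k77 k113 5 (.s k207 k142 8 (.s k154 k48 14 (.d k223
  k239 k16 3 10)))))))) .n))) (.c k117 (.q k253 [(.s k169 k1 13 (.s k252 k254 0 (.s k84 k168 13 (.d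
  k86 k87 k3 0 14)))), (.s k169 k1 13 (.s k237 k33 9 (.s k221 k205 3 (.s k204 k238 4 (.s k68 k136 9
  (.s k102 k119 4 (.d k153 k17 k51 9 14)))))))] (.c k1 (.l (.s k252 k254 0 (.s k84 k168 13 (.s k86
  k87 0 (.s k116 k71 4 (.s k48 k184 9 (.s k16 k32 3 (.d k154 k223 k207 10 14)))))))) (.c k112 (.q
  k122 [(.s k169 k1 13 (.s k252 k254 0 (.s k84 k168 13 (.d k86 k87 k3 0 14)))), (.s k169 k1 13 (.s
  k237 k33 9 (.s k221 k205 3 (.s k204 k238 4 (.s k68 k136 9 (.s k102 k119 4 (.d k153 k17 k51 9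
  14)))))))] (.c k1 (.l (.s k252 k254 0 (.s k84 k168 13 (.s k86 k87 0 (.s k116 k71 4 (.s k48 k184 9
  (.s k16 k32 3 (.d k154 k223 k207 10 14)))))))) (.c k169 (.q k63 [(.s k240 k181 10 (.s k80 k160 11
  (.s k90 k95 2 (.s k245 k250 2 (.d k165 k5 k15 11 14))))), (.s k21 k42 6 (.s k149 k213 7 (.s k53
  k197 11 (.s k48 k58 2 (.s k16 k32 3 (.d k154 k223 k207 10 14)))))), (.s k21 k42 6 (.s k149 k213 7
  (.s k106 k192 14 (.s k90 k74 3 (.s k80 k95 2 (.d k240 k181 k160 10 11))))))] (.c k168 (.q k171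
  [(.s k240 k181 10 (.s k80 k160 11 (.s k90 k95 2 (.s k245 k250 2 (.d k165 k5 k15 11 14))))), (.s k3
  k87 13 (.s k1 k2 0 (.s k21 k42 6 (.s k23 k43 5 (.s k22 k20 0 (.d k41 k61 k60 5 6))))))] .n) (.c
  k171 (.q k168 [(.d k252 k254 k84 0 13), (.s k240 k181 10 (.s k80 k160 11 (.s k90 k95 2 (.s k165
  k15 14 (.d k245 k250 k5 2 11)))))] .n) .n))) .n))) (.c k122 (.q k112 [(.s k169 k1 13 (.s k252 k254
  0 (.s k84 k168 13 (.d k86 k87 k3 0 14)))), (.s k90 k79 6 (.s k95 k80 2 (.s k15 k175 11 (.s k5 k10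
  2 (.d k165 k245 k240 11 14)))))] .n) (.c k169 (.q k68 [(.s k204 k136 9 (.s k221 k238 4 (.s k153
  k17 9 (.d k102 k119 k51 4 14)))), (.s k102 k119 4 (.s k100 k103 0 (.s k252 k254 0 (.d k84 k116
  k168 3 13))))] (.c k102 (.l (.s k136 k204 9 (.s k252 k254 0 (.s k168 k84 13 (.s k184 k152 3 (.s
  k48 k116 9 (.s k16 k32 3 (.d k154 k223 k207 10 14)))))))) (.c k112 (.q k122 [(.s k204 k136 9 (.s
  k221 k238 4 (.s k153 k17 9 (.d k102 k119 k51 4 14)))), (.s k102 k119 4 (.s k100 k103 0 (.s k252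
  k254 0 (.d k84 k116 k168 3 13))))] (.c k102 (.l (.s k136 k204 9 (.s k252 k254 0 (.s k168 k84 13
  (.s k184 k152 3 (.s k48 k116 9 (.s k16 k32 3 (.d k154 k223 k207 10 14)))))))) (.c k119 (.l (.s
  k204 k136 9 (.s k221 k238 4 (.s k153 k17 9 (.d k205 k237 k49 3 13))))) (.c k168 (.q k171 [(.s k204
  k136 9 (.s k221 k238 4 (.s k153 k17 9 (.d k102 k119 k51 4 14)))), (.s k87 k3 13 (.s k86 k84 0 (.s
  k71 k116 4 (.d k119 k103 k102 3 4)))), (.s k3 k87 13 (.s k1 k2 0 (.s k204 k136 9 (.s k137 k70 10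
  (.s k205 k69 9 (.d k221 k237 k238 3 4))))))] .n) (.c k171 (.q k168 [(.d k252 k254 k84 0 13), (.s
  k102 k119 4 (.s k204 k136 9 (.s k153 k51 14 (.d k221 k238 k17 4 9))))] .n) .n))))) (.c k119 (.l
  (.s k204 k136 9 (.s k221 k238 4 (.s k153 k17 9 (.d k205 k237 k49 3 13))))) (.c k122 (.q k112 [(.s
  k204 k136 9 (.s k221 k238 4 (.s k153 k17 9 (.d k102 k119 k51 4 14)))), (.s k90 k79 6 (.s k95 k80 2
  (.s k15 k175 11 (.s k5 k10 2 (.d k165 k245 k240 11 14)))))] (.c k168 (.q k171 [(.s k87 k3 13 (.s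
  k86 k84 0 (.s k71 k116 4 (.d k119 k103 k102 3 4)))), (.s k90 k79 6 (.s k95 k80 2 (.s k15 k175 11
  (.s k5 k10 2 (.d k165 k245 k240 11 14)))))] (.c k15 (.l (.s k102 k119 4 (.s k204 k136 9 (.s k153
  k51 14 (.d k221 k238 k17 4 9))))) .n)) (.c k171 (.q k168 [(.d k252 k254 k84 0 13), (.s k102 k119 4
  (.s k204 k136 9 (.s k153 k51 14 (.d k221 k238 k17 4 9))))] .n) .n))) (.c k168 (.q k171 [(.s k87 k3
  13 (.s k86 k84 0 (.s k71 k116 4 (.d k119 k103 k102 3 4)))), (.s k204 k136 9 (.s k221 k238 4 (.s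
  k153 k17 9 (.d k205 k237 k49 3 13))))] (.c k102 (.l (.s k3 k87 13 (.s k1 k2 0 (.s k204 k136 9 (.s
  k137 k70 10 (.s k205 k69 9 (.d k221 k237 k238 3 4))))))) (.c k112 (.q k122 [(.s k204 k136 9 (.s
  k221 k238 4 (.s k153 k17 9 (.d k102 k119 k51 4 14)))), (.s k87 k3 13 (.s k86 k84 0 (.s k71 k116 4
  (.d k119 k103 k102 3 4)))), (.s k3 k87 13 (.s k1 k2 0 (.s k204 k136 9 (.s k137 k70 10 (.s k205 k69
  9 (.d k221 k237 k238 3 4))))))] .n) (.c k122 (.q k112 [(.s k87 k3 13 (.s k86 k84 0 (.s k71 k116 4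
  (.d k119 k103 k102 3 4)))), (.s k90 k79 6 (.s k95 k80 2 (.s k15 k175 11 (.s k5 k10 2 (.d k165 k245
  k240 11 14)))))] (.c k15 (.l (.s k102 k119 4 (.s k204 k136 9 (.s k153 k51 14 (.d k221 k238 k17 4
  9))))) .n)) .n)))) (.c k171 (.q k168 [(.d k252 k254 k84 0 13), (.s k102 k119 4 (.s k204 k136 9 (.s
  k153 k51 14 (.d k221 k238 k17 4 9))))] (.c k112 (.q k122 [(.d k252 k254 k84 0 13), (.s k102 k119 4
  (.s k204 k136 9 (.s k153 k51 14 (.d k221 k238 k17 4 9))))] .n) (.c k122 (.q k112 [(.d k252 k254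
  k84 0 13), (.s k102 k119 4 (.s k204 k136 9 (.s k153 k51 14 (.d k221 k238 k17 4 9))))] .n) .n)))
  .n))))))) .n))))) (.c k138 (.l (.s k117 k69 3 (.s k48 k186 10 (.s k154 k207 14 (.d k16 k32 k223 3
  10))))) (.c k154 (.f k117 k69 3 (.q k153 [(.s k17 k221 9 (.s k51 k34 4 (.s k102 k204 14 (.d k119
  k68 k187 4 9)))), (.s k49 k205 13 (.s k253 k185 9 (.s k252 k254 0 (.s k84 k168 13 (.s k86 k87 0
  (.d k169 k1 k3 13 14))))))] (.c k138 (.l (.s k186 k48 10 (.s k17 k221 9 (.s k49 k205 13 (.s k1 k33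
  3 (.d k253 k185 k169 9 13)))))) (.c k186 (.q k138 [(.s k17 k221 9 (.s k51 k34 4 (.s k102 k204 14
  (.d k119 k68 k187 4 9)))), (.s k49 k205 13 (.s k253 k185 9 (.s k252 k254 0 (.s k84 k168 13 (.s k86
  k87 0 (.d k169 k1 k3 13 14))))))] (.c k187 (.l (.s k17 k221 9 (.s k49 k205 13 (.s k1 k33 3 (.d
  k253 k185 k169 9 13))))) .n)) .n)))) (.c k186 (.l (.s k69 k117 3 (.s k207 k138 10 (.s k154 k48 14
  (.d k223 k239 k16 3 10))))) (.c k207 (.q k1 [(.s k3 k2 0 (.s k87 k171 13 (.s k86 k84 0 (.d k169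
  k253 k252 13 14)))), (.s k69 k117 3 (.s k169 k253 13 (.s k33 k237 9 (.s k49 k17 3 (.d k205 k137
  k153 9 13))))), (.s k3 k2 0 (.s k117 k69 3 (.s k48 k186 10 (.s k32 k16 3 (.s k33 k18 4 (.s k17 k49
  3 (.d k34 k35 k51 0 4)))))))] .n) (.c k223 (.q k1 [(.s k169 k253 13 (.s k3 k2 0 (.s k86 k252 14
  (.d k87 k84 k171 0 13)))), (.s k69 k117 3 (.s k169 k253 13 (.s k33 k237 9 (.s k49 k17 3 (.d k205
  k137 k153 9 13))))), (.s k3 k2 0 (.s k69 k117 3 (.s k137 k205 9 (.s k70 k204 10 (.s k71 k68 0 (.d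
  k207 k139 k138 9 10))))))] .n) .n))))))))))))

def t7_160 : T TT 256 :=
  (.f k170 k255 14 (.q k3 [(.s k1 k2 0 (.s k169 k253 13 (.s k168 k171 0 (.d k252 k84 k86 13 14))))]
  (.c k1 (.q k136 [(.s k204 k68 9 (.s k153 k187 4 (.s k51 k102 14 (.d k17 k34 k221 4 9)))), (.s k204
  k68 9 (.s k137 k70 10 (.s k138 k139 0 (.s k154 k186 3 (.s k16 k223 10 (.s k48 k32 3 (.d k207 k69
  k101 10 14)))))))] (.c k68 (.l (.s k153 k187 4 (.s k17 k221 9 (.s k51 k34 4 (.s k19 k35 3 (.s k86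
  k220 10 (.s k84 k87 0 (.d k252 k168 k169 13 14)))))))) (.c k204 (.f k153 k187 4 (.q k51 [(.d k17
  k221 k34 9 4), (.s k19 k35 3 (.s k86 k220 10 (.s k84 k87 0 (.d k252 k168 k169 13 14))))] (.c k221
  (.q k238 [(.d k34 k17 k102 4 9), (.s k19 k35 3 (.s k86 k220 10 (.s k84 k87 0 (.d k252 k168 k169 13
  14))))] .n) (.c k238 (.l (.s k221 k17 9 (.s k19 k35 3 (.s k86 k220 10 (.s k84 k87 0 (.d k252 k168
  k169 13 14)))))) .n)))) .n))) (.c k2 (.q k138 [(.s k207 k69 10 (.s k154 k186 3 (.s k48 k101 14 (.d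
  k16 k32 k223 3 10)))), (.s k207 k69 10 (.s k139 k71 9 (.s k136 k137 0 (.s k153 k187 4 (.s k17 k221
  9 (.s k51 k34 4 (.d k204 k68 k102 9 14)))))))] (.c k69 (.l (.s k154 k186 3 (.s k16 k223 10 (.s k48
  k32 3 (.s k18 k33 4 (.s k86 k222 9 (.s k84 k87 0 (.d k252 k168 k169 13 14)))))))) (.c k207 (.f
  k154 k186 3 (.q k48 [(.d k16 k223 k32 10 3), (.s k18 k33 4 (.s k86 k222 9 (.s k84 k87 0 (.d k252
  k168 k169 13 14))))] (.c k223 (.q k239 [(.d k32 k16 k101 3 10), (.s k18 k33 4 (.s k86 k222 9 (.s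
  k84 k87 0 (.d k252 k168 k169 13 14))))] .n) (.c k239 (.l (.s k223 k16 10 (.s k18 k33 4 (.s k86
  k222 9 (.s k84 k87 0 (.d k252 k168 k169 13 14)))))) .n)))) .n))) (.c k84 (.q k4 [(.s k12 k8 1 (.s
  k166 k247 12 (.s k162 k174 1 (.d k243 k81 k89 12 14)))), (.s k2 k1 0 (.s k12 k8 1 (.s k6 k9 2 (.s
  k86 k254 13 (.d k166 k246 k247 11 12))))), (.s k1 k2 0 (.s k166 k247 12 (.s k169 k253 13 (.s k163
  k172 2 (.s k243 k83 11 (.d k162 k174 k81 1 12))))))] (.c k166 (.l (.s k1 k2 0 (.s k8 k12 1 (.s k89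
  k251 12 (.s k169 k253 13 (.s k9 k249 11 (.s k5 k13 1 (.d k10 k15 k11 2 0)))))))) (.c k247 (.l (.s
  k1 k2 0 (.s k12 k8 1 (.s k9 k6 2 (.s k169 k253 13 (.s k89 k249 11 (.s k81 k93 1 (.d k243 k162 k166
  12 14)))))))) .n))) (.c k86 (.f k1 k2 0 (.q k165 [(.s k5 k245 11 (.s k13 k9 1 (.s k89 k241 13 (.s
  k93 k81 1 (.d k253 k173 k169 11 13))))), (.s k5 k245 11 (.s k9 k13 1 (.s k10 k15 2 (.s k8 k11 0
  (.d k12 k4 k6 1 2))))), (.s k169 k253 13 (.s k161 k173 1 (.s k168 k171 0 (.s k240 k82 12 (.s k90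
  k15 14 (.s k248 k11 12 (.d k252 k244 k84 1 13)))))))] (.c k13 (.l (.s k5 k245 11 (.s k15 k10 2 (.s
  k169 k253 13 (.s k240 k90 14 (.d k161 k173 k82 1 12)))))) (.c k240 (.l (.s k169 k253 13 (.s k161
  k173 1 (.s k241 k81 11 (.s k13 k89 13 (.d k5 k9 k245 1 11)))))) .n)))) (.c k168 (.f k2 k1 0 (.q
  k127 [(.s k86 k254 13 (.s k87 k84 0 (.s k67 k107 5 (.s k106 k64 6 (.s k124 k105 6 (.d k126 k125
  k66 0 5)))))), (.s k64 k106 6 (.s k192 k128 7 (.s k66 k129 8 (.s k65 k67 0 (.d k130 k194 k195 7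
  8))))), (.s k86 k254 13 (.s k87 k84 0 (.s k67 k107 5 (.s k195 k131 7 (.s k65 k130 8 (.d k105 k125
  k124 5 6))))))] (.c k67 (.l (.s k86 k254 13 (.s k106 k64 6 (.s k42 k234 7 (.s k62 k22 5 (.s k66
  k126 5 (.d k194 k130 k150 7 13))))))) (.c k164 (.q k172 [(.s k64 k106 6 (.s k192 k128 7 (.s k66
  k129 8 (.s k65 k67 0 (.d k130 k194 k195 7 8))))), (.s k86 k254 13 (.s k87 k84 0 (.s k67 k107 5 (.s
  k106 k64 6 (.s k124 k105 6 (.d k126 k125 k66 0 5)))))), (.s k86 k254 13 (.s k87 k84 0 (.s k67 k107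
  5 (.s k195 k131 7 (.s k65 k130 8 (.d k105 k125 k124 5 6))))))] (.c k67 (.l (.s k86 k254 13 (.s
  k106 k64 6 (.s k42 k234 7 (.s k62 k22 5 (.s k66 k126 5 (.d k194 k130 k150 7 13))))))) .n)) (.c
  k172 (.q k164 [(.s k64 k106 6 (.s k192 k128 7 (.s k66 k129 8 (.s k65 k67 0 (.d k130 k194 k195 7
  8))))), (.s k86 k254 13 (.s k84 k87 0 (.s k4 k244 11 (.s k12 k8 1 (.s k6 k9 2 (.d k166 k247 k246
  12 11))))))] .n) .n))))) (.c k169 (.q k6 [(.s k12 k9 2 (.s k8 k4 1 (.s k89 k251 12 (.s k243 k166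
  14 (.d k81 k93 k162 1 12))))), (.s k2 k1 0 (.s k10 k14 1 (.s k15 k5 2 (.s k86 k254 13 (.s k90 k250
  11 (.s k240 k165 14 (.d k82 k94 k161 1 12)))))))] (.c k9 (.l (.s k2 k1 0 (.s k14 k10 1 (.s k86
  k254 13 (.s k166 k246 11 (.s k162 k174 1 (.d k242 k82 k90 11 13))))))) .n)) (.c k171 (.l (.s k2 k1
  0 (.s k86 k254 13 (.s k84 k87 0 (.d k252 k168 k169 13 14))))) (.c k252 (.f k2 k1 0 (.q k192 [(.s
  k64 k128 7 (.s k106 k127 6 (.s k42 k234 7 (.d k63 k21 k149 6 14)))), (.s k66 k129 8 (.s k130 k194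
  7 (.s k150 k190 5 (.s k20 k215 8 (.s k60 k40 5 (.d k195 k65 k105 8 14))))))] (.c k253 (.l (.s k254
  k86 13 (.s k64 k128 7 (.s k66 k129 8 (.s k65 k67 0 (.d k130 k194 k195 7 8)))))) (.c k254 (.q k253
  [(.s k64 k128 7 (.s k106 k127 6 (.s k63 k149 14 (.d k42 k21 k234 6 7)))), (.s k66 k129 8 (.s k130
  k194 7 (.s k150 k190 5 (.s k20 k215 8 (.s k60 k40 5 (.d k195 k65 k105 8 14))))))] (.c k234 (.l (.s
  k64 k128 7 (.s k66 k129 8 (.s k65 k67 0 (.d k130 k194 k195 7 8))))) .n)) .n)))) (.c k253 (.l (.s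
  k2 k1 0 (.s k86 k254 13 (.s k252 k169 14 (.d k84 k87 k168 0 13))))) (.c k254 (.l (.s k1 k2 0 (.s
  k169 k253 13 (.s k252 k86 14 (.d k168 k171 k84 0 13))))) .n))))))))))))

def t7_161 : T TT 256 :=
  (.f k255 k170 14 (.q k89 [(.s k81 k93 1 (.s k243 k162 12 (.s k166 k12 14 (.d k247 k251 k4 1
  12)))), (.s k93 k81 1 (.s k12 k174 12 (.s k4 k8 1 (.d k166 k247 k243 12 14))))] (.c k4 (.q k5 [(.s
  k15 k10 2 (.s k95 k175 11 (.s k90 k80 2 (.d k165 k245 k240 11 14)))), (.s k93 k81 1 (.s k165 k245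
  11 (.s k13 k241 13 (.s k1 k9 1 (.d k253 k173 k169 11 13))))), (.s k15 k10 2 (.s k81 k93 1 (.s k243
  k162 12 (.s k91 k167 13 (.s k90 k88 0 (.d k95 k80 k175 2 11))))))] .n) (.c k12 (.q k3 [(.s k1 k2 0
  (.s k87 k171 13 (.s k86 k84 0 (.d k169 k253 k252 13 14)))), (.s k81 k93 1 (.s k171 k87 13 (.s k243
  k162 12 (.s k163 k83 11 (.s k167 k175 1 (.s k91 k15 13 (.d k251 k247 k11 1 11))))))), (.s k1 k2 0
  (.s k81 k93 1 (.s k169 k253 13 (.s k86 k252 14 (.s k243 k162 12 (.d k83 k92 k163 2 11))))))] .n)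
  (.c k81 (.q k1 [(.s k169 k253 13 (.s k3 k2 0 (.s k86 k252 14 (.d k87 k84 k171 0 13)))), (.s k169
  k253 13 (.s k9 k249 11 (.s k5 k13 1 (.s k15 k10 2 (.s k95 k175 11 (.s k90 k80 2 (.d k165 k245 k240
  11 14)))))))] (.c k169 (.q k165 [(.s k5 k245 11 (.d k13 k9 k241 1 13)), (.s k5 k245 11 (.s k15 k10
  2 (.s k90 k240 14 (.d k95 k80 k175 2 11))))] (.c k5 (.q k4 [(.s k12 k8 1 (.d k166 k247 k243 12
  14)), (.s k12 k8 1 (.s k13 k241 13 (.s k15 k14 0 (.s k95 k175 11 (.d k90 k80 k240 2 14))))), (.s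
  k241 k13 13 (.s k247 k166 12 (.s k243 k251 1 (.s k240 k242 0 (.s k80 k160 11 (.d k90 k95 k15 2
  14))))))] (.c k168 (.q k171 [(.d k3 k2 k87 0 13), (.s k12 k8 1 (.d k166 k247 k243 12 14))] .n) (.c
  k171 (.q k168 [(.s k12 k8 1 (.d k166 k247 k243 12 14)), (.s k84 k252 13 (.s k164 k244 11 (.d k166
  k167 k247 0 12)))] (.c k166 (.l (.s k8 k12 1 (.s k84 k252 13 (.s k86 k87 0 (.s k88 k248 11 (.d k92
  k80 k83 1 2)))))) (.c k247 (.l (.s k12 k8 1 (.s k84 k252 13 (.s k164 k244 11 (.d k166 k167 k243 0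
  14))))) .n))) .n))) (.c k168 (.q k171 [(.d k3 k2 k87 0 13), (.s k5 k245 11 (.d k13 k9 k241 1 13))]
  .n) (.c k171 (.q k168 [(.s k5 k245 11 (.d k13 k9 k241 1 13)), (.s k84 k252 13 (.s k86 k87 0 (.s
  k92 k83 2 (.s k80 k88 1 (.s k240 k160 11 (.d k90 k95 k15 2 14))))))] .n) (.c k245 (.l (.s k13 k241
  13 (.s k5 k9 1 (.s k15 k10 2 (.s k90 k240 14 (.d k95 k80 k175 2 11)))))) .n))))) (.c k253 (.l (.s
  k3 k2 0 (.s k87 k171 13 (.s k86 k84 0 (.s k83 k92 2 (.s k243 k163 11 (.s k166 k12 14 (.d k247 k251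
  k4 1 12)))))))) .n))) (.c k93 (.q k21 [(.s k149 k213 7 (.s k63 k42 6 (.s k106 k192 14 (.d k127 k64
  k191 6 7)))), (.s k149 k213 7 (.s k29 k209 9 (.s k17 k25 1 (.s k51 k34 4 (.s k119 k187 9 (.s k102
  k68 4 (.d k153 k221 k204 9 14)))))))] (.c k149 (.f k63 k42 6 (.q k106 [(.d k127 k191 k64 7 6), (.s
  k123 k72 4 (.s k243 k183 9 (.s k166 k12 14 (.d k247 k251 k4 1 12))))] (.c k128 (.l (.s k191 k127 7
  (.s k123 k72 4 (.s k243 k183 9 (.s k166 k12 14 (.d k247 k251 k4 1 12)))))) (.c k191 (.q k128 [(.d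
  k64 k127 k192 6 7), (.s k123 k72 4 (.s k243 k183 9 (.s k247 k251 1 (.d k166 k4 k12 12 14))))] .n)
  .n)))) (.c k213 (.l (.s k63 k42 6 (.s k127 k191 7 (.s k106 k64 6 (.s k123 k72 4 (.s k243 k183 9
  (.s k166 k12 14 (.d k247 k251 k4 1 12)))))))) .n))) (.c k162 (.l (.s k93 k81 1 (.s k12 k174 12 (.s
  k166 k243 14 (.d k4 k8 k247 1 12))))) (.c k166 (.f k93 k81 1 (.f k174 k12 12 (.q k253 [(.s k1 k169
  13 (.s k13 k173 11 (.s k165 k241 13 (.d k5 k9 k245 1 11)))), (.s k252 k254 0 (.s k84 k168 13 (.s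
  k86 k87 0 (.d k169 k1 k3 13 14)))), (.s k173 k13 11 (.s k252 k254 0 (.s k15 k94 12 (.d k175 k172
  k95 0 11))))] (.c k1 (.q k241 [(.d k13 k173 k165 11 13)] (.c k13 (.l (.s k245 k249 1 (.s k240 k250
  2 (.s k80 k160 11 (.s k90 k95 2 (.d k165 k5 k15 11 14)))))) (.c k165 (.l (.s k173 k13 11 (.s k175
  k172 0 (.s k15 k95 11 (.d k252 k254 k94 0 12))))) (.c k173 (.l (.s k165 k13 13 (.d k245 k5 k249 11
  1))) .n)))) (.c k241 (.l (.s k1 k169 13 (.s k173 k13 11 (.s k252 k254 0 (.s k15 k94 12 (.d k175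
  k172 k95 0 11)))))) .n))))) (.c k174 (.l (.s k81 k93 1 (.s k243 k162 12 (.s k166 k12 14 (.d k247
  k251 k4 1 12))))) (.c k243 (.q k1 [(.s k3 k2 0 (.s k87 k171 13 (.s k86 k84 0 (.d k169 k253 k252 13
  14)))), (.s k93 k81 1 (.s k253 k169 13 (.s k13 k173 11 (.s k165 k241 13 (.d k5 k9 k245 1 11))))),
  (.s k3 k2 0 (.s k93 k81 1 (.s k12 k174 12 (.s k8 k4 1 (.s k9 k6 2 (.s k5 k13 1 (.d k10 k11 k15 0
  2)))))))] .n) (.c k247 (.q k87 [(.s k86 k84 0 (.s k3 k171 13 (.s k169 k252 14 (.d k1 k2 k253 0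
  13)))), (.s k81 k93 1 (.s k86 k84 0 (.s k83 k92 2 (.s k95 k91 1 (.d k80 k82 k90 0 2))))), (.s k3
  k171 13 (.s k93 k81 1 (.s k12 k174 12 (.s k9 k6 2 (.s k169 k249 11 (.d k1 k2 k253 0 13))))))] .n)
  .n)))))))))))

def t7_162 : T TT 256 :=
  (.f k170 k255 14 (.q k207 [(.s k69 k138 10 (.s k101 k117 3 (.s k32 k239 10 (.d k48 k16 k154 3
  14))))] (.c k16 (.q k1 [(.s k3 k2 0 (.s k169 k253 13 (.s k168 k171 0 (.d k252 k84 k86 13 14)))),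
  (.s k69 k138 10 (.s k101 k117 3 (.s k169 k253 13 (.s k33 k237 9 (.s k49 k17 3 (.d k205 k137 k153 9
  13)))))), (.s k3 k2 0 (.s k69 k138 10 (.s k71 k139 9 (.s k70 k68 0 (.d k137 k205 k204 9 10)))))]
  .n) (.c k32 (.f k69 k138 10 (.f k101 k117 3 (.f k48 k154 14 (.q k97 [(.s k105 k109 1 (.s k195 k146
  12 (.d k65 k130 k125 8 5))), (.s k105 k109 1 (.s k65 k125 5 (.s k77 k73 1 (.d k113 k81 k89 3
  5)))), (.s k105 k109 1 (.s k40 k235 8 (.s k60 k20 5 (.d k195 k146 k150 12 14)))), (.s k195 k146 12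
  (.s k130 k65 8 (.s k150 k190 5 (.d k199 k203 k52 1 12))))] .n)))) (.c k48 (.f k69 k138 10 (.q k65
  [(.s k105 k125 5 (.s k40 k235 8 (.s k60 k20 5 (.d k195 k130 k150 8 14)))), (.s k77 k73 1 (.s k12
  k142 8 (.s k8 k4 1 (.s k89 k251 12 (.d k101 k117 k113 3 5)))))] (.c k117 (.q k186 [(.s k73 k77 1
  (.s k195 k130 8 (.s k199 k203 1 (.d k134 k4 k12 8 10)))), (.s k105 k125 5 (.s k40 k235 8 (.s k60
  k20 5 (.d k195 k130 k150 8 14)))), (.s k77 k73 1 (.s k125 k105 5 (.s k93 k109 3 (.s k89 k81 1 (.s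
  k8 k251 12 (.d k12 k4 k142 1 8))))))] .n) (.c k130 (.l (.s k77 k73 1 (.s k125 k105 5 (.s k93 k109
  3 (.s k89 k81 1 (.d k101 k117 k113 3 5)))))) (.c k186 (.l (.s k117 k101 3 (.s k73 k77 1 (.s k195
  k130 8 (.s k134 k12 10 (.d k199 k203 k4 1 8)))))) .n))))) (.c k69 (.q k150 [(.s k20 k215 8 (.s k60
  k40 5 (.s k130 k190 5 (.d k195 k65 k105 8 14)))), (.s k130 k190 5 (.s k195 k65 8 (.s k199 k203 1
  (.s k101 k52 12 (.s k32 k239 10 (.d k48 k16 k154 3 14)))))), (.s k20 k215 8 (.s k60 k40 5 (.s k158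
  k109 12 (.s k195 k105 14 (.s k199 k203 1 (.s k101 k52 12 (.d k154 k146 k48 1 14)))))))] (.c k60
  (.q k169 [(.s k1 k253 13 (.s k168 k171 0 (.s k252 k84 13 (.d k3 k2 k86 0 14)))), (.s k131 k188 6
  (.s k171 k168 0 (.s k191 k151 5 (.s k128 k149 6 (.d k130 k190 k129 5 0))))), (.s k1 k253 13 (.s k3
  k2 0 (.s k131 k188 6 (.s k195 k67 7 (.d k130 k190 k65 5 8)))))] (.c k125 (.l (.s k190 k130 5 (.s
  k1 k253 13 (.s k3 k2 0 (.s k168 k171 0 (.d k252 k84 k86 13 14)))))) (.c k190 (.q k125 [(.s k1 k253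
  13 (.s k168 k171 0 (.s k252 k84 13 (.d k3 k2 k86 0 14)))), (.s k105 k65 5 (.s k233 k41 7 (.s k253
  k1 13 (.s k61 k189 7 (.d k193 k213 k149 5 13))))), (.s k20 k215 8 (.s k168 k171 0 (.s k188 k131 6
  (.s k148 k128 5 (.d k84 k212 k252 7 13)))))] (.c k3 (.l (.s k1 k253 13 (.s k65 k105 5 (.s k129
  k193 7 (.s k130 k195 8 (.d k131 k128 k188 0 6)))))) .n)) (.c k252 (.l (.s k168 k171 0 (.s k188
  k131 6 (.s k128 k148 5 (.s k190 k130 5 (.d k191 k189 k149 0 6)))))) .n)))) (.c k195 (.q k158 [(.s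
  k60 k109 12 (.d k20 k215 k40 8 5)), (.s k154 k146 1 (.s k16 k223 10 (.d k48 k32 k101 3 14)))] (.c
  k215 (.q k235 [(.s k40 k105 8 (.d k60 k20 k109 5 12)), (.s k154 k146 1 (.s k16 k223 10 (.d k48 k32
  k101 3 14)))] .n) (.c k235 (.l (.s k215 k20 8 (.s k154 k146 1 (.s k16 k223 10 (.d k48 k32 k101 3
  14))))) .n))) .n))) (.c k101 (.q k1 [(.s k169 k253 13 (.s k168 k171 0 (.s k252 k84 13 (.d k3 k2
  k86 0 14)))), (.s k69 k138 10 (.s k205 k137 9 (.s k204 k206 0 (.s k136 k68 9 (.s k153 k187 4 (.s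
  k17 k221 9 (.d k51 k34 k102 4 14)))))))] (.c k2 (.l (.s k138 k69 10 (.s k154 k186 3 (.s k169 k253
  13 (.s k139 k184 4 (.s k3 k71 9 (.s k168 k171 0 (.d k252 k86 k84 14 13)))))))) .n)) (.c k117 (.l
  (.s k138 k69 10 (.s k154 k186 3 (.s k48 k101 14 (.d k16 k32 k223 3 10))))) (.c k138 (.q k169 [(.s
  k1 k253 13 (.s k168 k171 0 (.s k252 k84 13 (.d k3 k2 k86 0 14)))), (.s k168 k171 0 (.s k252 k84 13
  (.s k237 k222 4 (.s k101 k33 9 (.s k32 k239 10 (.d k48 k16 k154 3 14)))))), (.s k1 k253 13 (.s k3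
  k2 0 (.s k139 k71 9 (.s k154 k184 4 (.s k16 k223 10 (.d k48 k32 k101 3 14))))))] (.c k3 (.f k253
  k1 13 (.f k171 k168 0 (.q k11 [(.s k90 k248 12 (.s k251 k91 11 (.s k8 k89 12 (.d k10 k9 k250 0
  11)))), (.s k90 k248 12 (.s k80 k95 2 (.s k240 k160 11 (.s k15 k165 14 (.d k10 k5 k250 2 11))))),
  (.s k251 k91 11 (.s k89 k8 12 (.s k93 k81 1 (.s k13 k173 11 (.s k241 k165 13 (.d k249 k245 k9 1
  11))))))] (.c k8 (.l (.s k91 k251 11 (.s k90 k248 12 (.s k88 k89 0 (.s k80 k95 2 (.s k240 k160 11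
  (.s k15 k165 14 (.d k10 k250 k5 11 2)))))))) (.c k88 (.l (.s k248 k90 12 (.s k251 k91 11 (.s k89
  k8 12 (.d k249 k250 k9 0 11))))) (.c k248 (.l (.s k251 k91 11 (.s k8 k89 12 (.s k10 k9 0 (.s k90
  k250 11 (.s k80 k95 2 (.s k240 k160 11 (.d k15 k5 k165 2 14)))))))) .n)))))) (.c k252 (.q k105
  [(.s k40 k235 8 (.s k60 k20 5 (.s k65 k125 5 (.d k195 k130 k150 8 14)))), (.s k125 k65 5 (.s k233
  k41 7 (.s k253 k1 13 (.s k61 k189 7 (.d k193 k213 k149 5 13))))), (.s k40 k235 8 (.s k41 k233 7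
  (.s k42 k43 0 (.s k21 k63 6 (.d k1 k253 k61 13 5)))))] (.c k253 (.q k254 [(.s k40 k235 8 (.s k60
  k20 5 (.s k195 k150 14 (.d k65 k125 k130 5 8)))), (.s k171 k168 0 (.s k233 k41 7 (.s k235 k40 8
  (.s k43 k107 7 (.d k232 k234 k106 0 8))))), (.s k2 k86 13 (.s k1 k3 0 (.s k41 k233 7 (.s k61 k21 5
  (.s k65 k125 5 (.d k193 k129 k149 7 13))))))] .n) (.c k254 (.l (.s k253 k1 13 (.s k40 k235 8 (.s
  k60 k20 5 (.s k65 k125 5 (.d k195 k130 k150 8 14)))))) .n))) .n))) (.c k154 (.q k1 [(.s k169 k253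
  13 (.s k168 k171 0 (.s k252 k84 13 (.d k3 k2 k86 0 14)))), (.s k3 k2 0 (.s k69 k138 10 (.s k137
  k205 9 (.s k70 k204 10 (.d k71 k68 k139 0 9))))), (.s k69 k138 10 (.s k101 k117 3 (.s k169 k253 13
  (.s k33 k237 9 (.s k49 k17 3 (.d k205 k137 k153 9 13))))))] .n) (.c k186 (.l (.s k69 k138 10 (.s
  k101 k117 3 (.s k48 k154 14 (.d k32 k16 k239 3 10))))) (.c k239 (.l (.s k138 k69 10 (.s k154 k186
  3 (.s k16 k223 10 (.d k48 k32 k101 3 14))))) .n))))))))))))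

def t7_163 : T TT 256 :=
  (.f k255 k170 14 (.q k153 [(.s k17 k221 9 (.s k51 k34 4 (.s k102 k204 14 (.d k119 k68 k187 4
  9))))] (.c k17 (.q k117 [(.s k101 k69 3 (.s k48 k186 10 (.s k154 k207 14 (.d k16 k32 k223 3
  10)))), (.s k101 k69 3 (.s k49 k205 13 (.s k253 k185 9 (.s k252 k254 0 (.s k84 k168 13 (.s k86 k87
  0 (.d k169 k1 k3 13 14)))))))] (.c k69 (.l (.s k48 k186 10 (.s k16 k32 3 (.s k154 k223 10 (.s k152
  k155 0 (.s k204 k100 13 (.s k68 k136 9 (.d k102 k119 k51 4 14)))))))) (.c k101 (.f k48 k186 10 (.q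
  k154 [(.d k16 k32 k223 3 10), (.s k152 k155 0 (.s k204 k100 13 (.s k68 k136 9 (.d k102 k119 k51 4
  14))))] (.c k32 (.q k239 [(.d k223 k207 k16 3 10), (.s k152 k155 0 (.s k204 k100 13 (.s k68 k136 9
  (.d k102 k119 k51 4 14))))] .n) (.c k239 (.l (.s k32 k16 3 (.s k152 k155 0 (.s k204 k100 13 (.s
  k68 k136 9 (.d k102 k119 k51 4 14)))))) .n)))) .n))) (.c k34 (.l (.s k221 k17 9 (.s k204 k238 4
  (.s k102 k51 14 (.d k68 k119 k136 4 9))))) (.c k51 (.q k1 [(.s k17 k221 9 (.s k49 k33 3 (.s k101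
  k205 13 (.s k117 k69 3 (.d k253 k185 k169 9 13))))), (.s k3 k2 0 (.s k87 k171 13 (.s k86 k84 0 (.d
  k169 k253 k252 13 14)))), (.s k3 k2 0 (.s k221 k17 9 (.s k204 k238 4 (.s k136 k68 9 (.s k137 k70
  10 (.s k69 k205 9 (.d k138 k139 k207 0 10)))))))] .n) (.c k68 (.q k1 [(.s k3 k2 0 (.s k169 k253 13
  (.s k86 k252 14 (.d k87 k84 k171 0 13)))), (.s k17 k221 9 (.s k49 k33 3 (.s k101 k205 13 (.s k117
  k69 3 (.d k253 k185 k169 9 13))))), (.s k3 k2 0 (.s k17 k221 9 (.s k33 k49 3 (.s k18 k48 4 (.s k19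
  k16 0 (.d k51 k35 k34 3 4))))))] .n) (.c k102 (.f k221 k17 9 (.q k86 [(.s k87 k84 0 (.s k3 k171 13
  (.s k1 k2 0 (.d k169 k253 k252 13 14)))), (.s k220 k19 10 (.s k223 k222 0 (.s k207 k239 3 (.s k69
  k138 10 (.s k101 k117 3 (.d k154 k16 k48 10 14))))))] (.c k34 (.l (.s k238 k204 4 (.s k84 k87 0
  (.s k220 k19 10 (.s k16 k152 9 (.d k223 k222 k154 0 10)))))) (.c k238 (.q k34 [(.s k87 k84 0 (.s
  k3 k171 13 (.s k1 k2 0 (.d k169 k253 k252 13 14)))), (.s k220 k19 10 (.s k223 k222 0 (.s k207 k239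
  3 (.s k69 k138 10 (.s k101 k117 3 (.d k154 k16 k48 10 14))))))] .n) .n)))) (.c k119 (.q k1 [(.s k3
  k2 0 (.s k169 k253 13 (.s k86 k252 14 (.d k87 k84 k171 0 13)))), (.s k17 k221 9 (.s k49 k33 3 (.s
  k101 k205 13 (.s k117 k69 3 (.d k253 k185 k169 9 13))))), (.s k3 k2 0 (.s k17 k221 9 (.s k33 k49 3
  (.s k18 k48 4 (.s k19 k16 0 (.d k51 k35 k34 3 4))))))] .n) (.c k187 (.l (.s k221 k17 9 (.s k204
  k238 4 (.s k68 k136 9 (.d k102 k119 k51 4 14))))) (.c k204 (.q k1 [(.s k3 k2 0 (.s k169 k253 13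
  (.s k86 k252 14 (.d k87 k84 k171 0 13)))), (.s k17 k221 9 (.s k49 k33 3 (.s k101 k205 13 (.s k117
  k69 3 (.d k253 k185 k169 9 13))))), (.s k3 k2 0 (.s k17 k221 9 (.s k33 k49 3 (.s k18 k48 4 (.s k19
  k16 0 (.d k51 k35 k34 3 4))))))] .n) (.c k221 (.q k69 [(.s k101 k117 3 (.s k207 k138 10 (.s k154
  k48 14 (.d k223 k239 k16 3 10)))), (.s k101 k117 3 (.s k205 k49 13 (.s k1 k137 9 (.s k3 k2 0 (.s
  k87 k171 13 (.s k86 k84 0 (.d k169 k253 k252 13 14)))))))] (.c k101 (.f k207 k138 10 (.q k154 [(.d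
  k223 k239 k16 3 10), (.s k155 k152 0 (.s k51 k103 13 (.s k102 k204 14 (.d k119 k68 k187 4 9))))]
  (.c k32 (.l (.s k239 k223 3 (.s k155 k152 0 (.s k51 k103 13 (.s k102 k204 14 (.d k119 k68 k187 4
  9)))))) (.c k239 (.q k32 [(.d k16 k48 k223 3 10), (.s k155 k152 0 (.s k51 k103 13 (.s k119 k187 9
  (.d k102 k68 k204 4 14))))] .n) .n)))) (.c k117 (.l (.s k207 k138 10 (.s k223 k239 3 (.s k154 k16
  10 (.s k155 k152 0 (.s k51 k103 13 (.s k102 k204 14 (.d k119 k68 k187 4 9)))))))) .n))) (.c k238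
  (.l (.s k17 k221 9 (.s k51 k34 4 (.s k102 k204 14 (.d k119 k68 k187 4 9))))) .n))))))))))))

def t7_164 : T TT 256 :=
  (.f k255 k170 14 (.q k89 [(.s k81 k93 1 (.s k243 k162 12 (.s k247 k251 1 (.d k166 k4 k12 12
  14))))] (.c k4 (.f k81 k93 1 (.q k84 [(.s k252 k168 13 (.s k253 k254 0 (.s k169 k1 13 (.d k86 k87
  k3 0 14)))), (.s k86 k87 0 (.s k83 k92 2 (.s k82 k80 0 (.s k243 k162 12 (.s k3 k163 11 (.s k1 k2 0
  (.d k161 k241 k240 11 12))))))), (.s k243 k162 12 (.s k252 k168 13 (.s k249 k246 2 (.s k169 k9 11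
  (.d k253 k254 k1 0 13)))))] (.c k1 (.l (.s k86 k87 0 (.s k83 k92 2 (.s k243 k162 12 (.s k3 k163 11
  (.d k252 k168 k169 13 14)))))) (.c k5 (.q k6 [(.s k86 k87 0 (.s k166 k246 11 (.d k243 k162 k12 12
  14))), (.s k243 k162 12 (.s k252 k168 13 (.s k249 k246 2 (.s k169 k9 11 (.d k253 k1 k254 13
  0))))), (.s k86 k87 0 (.s k252 k168 13 (.s k169 k3 14 (.d k253 k254 k1 0 13))))] .n) (.c k6 (.q k5
  [(.s k15 k10 2 (.s k95 k175 11 (.s k90 k80 2 (.d k165 k245 k240 11 14)))), (.s k86 k87 0 (.s k252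
  k168 13 (.s k253 k254 0 (.d k169 k1 k3 13 14))))] (.c k160 (.l (.s k15 k10 2 (.s k95 k175 11 (.s
  k165 k245 11 (.d k90 k80 k240 2 14))))) .n)) (.c k160 (.l (.s k86 k87 0 (.s k92 k83 2 (.s k252
  k168 13 (.s k172 k12 11 (.s k169 k3 14 (.d k253 k254 k1 0 13))))))) .n)))))) (.c k12 (.q k240 [(.s
  k80 k160 11 (.s k90 k95 2 (.s k245 k250 2 (.d k165 k5 k15 11 14)))), (.s k81 k93 1 (.s k160 k80 11
  (.s k162 k243 12 (.s k161 k163 0 (.s k1 k241 11 (.d k3 k2 k82 0 12)))))), (.s k81 k93 1 (.s k243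
  k162 12 (.s k241 k242 0 (.s k245 k250 2 (.d k165 k5 k13 11 13)))))] .n) (.c k81 (.q k21 [(.s k149
  k213 7 (.s k63 k42 6 (.s k106 k192 14 (.d k127 k64 k191 6 7)))), (.s k149 k213 7 (.s k29 k209 9
  (.s k17 k25 1 (.s k51 k34 4 (.s k119 k187 9 (.s k102 k68 4 (.d k153 k221 k204 9 14)))))))] (.c
  k149 (.f k63 k42 6 (.q k106 [(.d k127 k191 k64 7 6), (.s k123 k72 4 (.s k243 k183 9 (.s k166 k12
  14 (.d k247 k251 k4 1 12))))] (.c k128 (.l (.s k191 k127 7 (.s k123 k72 4 (.s k243 k183 9 (.s k166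
  k12 14 (.d k247 k251 k4 1 12)))))) (.c k191 (.q k128 [(.d k64 k127 k192 6 7), (.s k123 k72 4 (.s
  k243 k183 9 (.s k247 k251 1 (.d k166 k4 k12 12 14))))] .n) .n)))) (.c k213 (.l (.s k63 k42 6 (.s
  k127 k191 7 (.s k106 k64 6 (.s k123 k72 4 (.s k243 k183 9 (.s k166 k12 14 (.d k247 k251 k4 1
  12)))))))) .n))) (.c k93 (.q k68 [(.s k102 k119 4 (.s k204 k136 9 (.s k153 k51 14 (.d k221 k238
  k17 4 9)))), (.s k102 k119 4 (.s k76 k115 6 (.s k64 k72 1 (.s k192 k128 7 (.s k213 k234 6 (.s k149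
  k21 7 (.d k106 k127 k63 6 14)))))))] (.c k102 (.f k204 k136 9 (.q k153 [(.d k221 k238 k17 4 9),
  (.s k217 k25 7 (.s k243 k230 6 (.s k166 k12 14 (.d k247 k251 k4 1 12))))] (.c k34 (.l (.s k238
  k221 4 (.s k217 k25 7 (.s k243 k230 6 (.s k166 k12 14 (.d k247 k251 k4 1 12)))))) (.c k238 (.q k34
  [(.d k17 k51 k221 4 9), (.s k217 k25 7 (.s k243 k230 6 (.s k247 k251 1 (.d k166 k4 k12 12 14))))]
  .n) .n)))) (.c k119 (.l (.s k204 k136 9 (.s k221 k238 4 (.s k153 k17 9 (.s k217 k25 7 (.s k243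
  k230 6 (.s k166 k12 14 (.d k247 k251 k4 1 12)))))))) .n))) (.c k162 (.l (.s k93 k81 1 (.s k12 k174
  12 (.s k166 k243 14 (.d k4 k8 k247 1 12))))) (.c k166 (.f k81 k93 1 (.q k165 [(.s k5 k245 11 (.s
  k15 k10 2 (.s k95 k175 11 (.d k90 k80 k240 2 14)))), (.s k241 k13 13 (.s k1 k161 11 (.s k3 k2 0
  (.s k87 k171 13 (.s k86 k84 0 (.d k169 k253 k252 13 14))))))] (.c k162 (.q k174 [(.s k5 k245 11
  (.s k15 k10 2 (.s k95 k175 11 (.d k90 k80 k240 2 14)))), (.s k241 k13 13 (.s k1 k161 11 (.s k3 k2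
  0 (.s k87 k171 13 (.s k86 k84 0 (.d k169 k253 k252 13 14))))))] .n) (.c k174 (.l (.s k162 k243 12
  (.s k5 k245 11 (.s k15 k10 2 (.s k90 k240 14 (.d k95 k80 k175 2 11)))))) .n)))) (.c k174 (.l (.s
  k81 k93 1 (.s k243 k162 12 (.s k166 k12 14 (.d k247 k251 k4 1 12))))) (.c k243 (.q k1 [(.s k3 k2 0
  (.s k87 k171 13 (.s k169 k253 13 (.d k86 k84 k252 0 14)))), (.s k81 k93 1 (.s k169 k253 13 (.s k9
  k249 11 (.s k13 k5 1 (.d k241 k161 k165 11 13))))), (.s k3 k2 0 (.s k93 k81 1 (.s k12 k174 12 (.s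
  k8 k4 1 (.s k9 k6 2 (.s k5 k13 1 (.d k10 k11 k15 0 2)))))))] .n) (.c k247 (.q k87 [(.s k3 k171 13
  (.s k1 k2 0 (.s k169 k253 13 (.d k86 k84 k252 0 14)))), (.s k81 k93 1 (.s k86 k84 0 (.s k83 k92 2
  (.s k80 k82 0 (.d k95 k91 k90 1 2))))), (.s k3 k171 13 (.s k81 k93 1 (.s k243 k162 12 (.s k83 k163
  11 (.s k80 k82 0 (.d k95 k91 k90 1 2))))))] .n) (.c k251 (.l (.s k93 k81 1 (.s k12 k174 12 (.s k4
  k8 1 (.d k166 k247 k243 12 14))))) .n))))))))))))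

def t7_165 : T TT 256 :=
  (.q k86 [(.s k87 k84 0 (.s k255 k170 14 (.s k3 k171 13 (.s k1 k2 0 (.d k169 k253 k252 13 14))))),
  (.s k84 k87 0 (.s k252 k168 13 (.s k169 k3 14 (.s k253 k1 13 (.d k255 k254 k170 0 14)))))] (.c k1
  (.q k4 [(.s k12 k8 1 (.s k166 k247 12 (.s k170 k255 14 (.s k162 k174 1 (.d k243 k81 k89 12
  14))))), (.s k12 k8 1 (.s k84 k87 0 (.s k164 k244 11 (.s k88 k240 13 (.s k92 k80 1 (.d k252 k172
  k168 11 13)))))), (.s k12 k8 1 (.s k255 k170 14 (.s k93 k174 12 (.s k89 k81 1 (.d k166 k247 k243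
  12 14)))))] (.c k8 (.l (.s k166 k247 12 (.s k6 k246 11 (.s k170 k255 14 (.s k2 k254 13 (.s k14 k10
  1 (.s k162 k174 1 (.d k242 k82 k90 11 13)))))))) (.c k12 (.l (.s k84 k87 0 (.s k244 k164 11 (.s
  k252 k168 13 (.s k240 k248 1 (.s k255 k170 14 (.s k245 k250 2 (.d k247 k166 k246 12 0)))))))) (.c
  k247 (.l (.s k12 k8 1 (.s k255 k170 14 (.s k93 k174 12 (.s k89 k81 1 (.s k92 k83 2 (.s k252 k172
  11 (.d k84 k87 k168 0 13)))))))) .n)))) (.c k3 (.f k87 k84 0 (.q k63 [(.s k21 k42 6 (.s k149 k213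
  7 (.s k23 k212 8 (.s k215 k151 7 (.d k20 k22 k150 0 8))))), (.s k255 k170 14 (.s k127 k191 7 (.s
  k67 k107 5 (.s k105 k124 6 (.s k65 k125 5 (.d k64 k66 k106 0 6))))))] (.c k11 (.q k15 [(.s k21 k42
  6 (.s k149 k213 7 (.s k23 k212 8 (.s k215 k151 7 (.d k20 k22 k150 0 8))))), (.s k47 k31 3 (.s k255
  k170 14 (.s k175 k95 11 (.s k111 k239 7 (.s k159 k207 11 (.d k191 k143 k127 3 7))))))] .n) (.c k15
  (.q k11 [(.s k21 k42 6 (.s k149 k213 7 (.s k23 k212 8 (.s k215 k151 7 (.d k20 k22 k150 0 8))))),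
  (.s k255 k170 14 (.s k127 k191 7 (.s k67 k107 5 (.s k105 k124 6 (.s k65 k125 5 (.d k64 k66 k106 0
  6))))))] (.c k90 (.q k240 [(.s k21 k42 6 (.s k149 k213 7 (.s k23 k212 8 (.s k215 k151 7 (.d k20
  k22 k150 0 8))))), (.s k181 k122 10 (.s k255 k170 14 (.s k191 k127 7 (.s k186 k176 2 (.s k117 k48
  10 (.d k245 k250 k53 2 7))))))] .n) (.c k149 (.l (.s k42 k21 6 (.s k170 k255 14 (.s k2 k254 13 (.s
  k62 k22 5 (.s k106 k234 7 (.s k66 k126 5 (.d k194 k130 k150 7 13)))))))) (.c k240 (.q k90 [(.s k95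
  k80 2 (.s k83 k91 1 (.s k92 k89 2 (.d k94 k82 k93 1 0)))), (.s k21 k42 6 (.s k149 k213 7 (.s k23
  k212 8 (.s k20 k22 0 (.d k215 k151 k150 7 8)))))] (.c k82 (.q k161 [(.s k21 k42 6 (.s k149 k213 7
  (.s k23 k212 8 (.s k215 k151 7 (.d k20 k22 k150 0 8))))), (.s k95 k80 2 (.s k169 k248 12 (.s k170
  k255 14 (.s k171 k168 0 (.d k91 k83 k251 1 11)))))] .n) (.c k161 (.l (.s k82 k94 1 (.s k21 k42 6
  (.s k149 k213 7 (.s k23 k212 8 (.s k20 k22 0 (.d k215 k151 k150 7 8))))))) .n))) .n)))) (.c k149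
  (.l (.s k42 k21 6 (.s k170 k255 14 (.s k2 k254 13 (.s k62 k22 5 (.s k106 k234 7 (.s k66 k126 5 (.d
  k194 k130 k150 7 13)))))))) .n))))) (.c k84 (.q k12 [(.s k4 k8 1 (.s k166 k247 12 (.s k89 k243 14
  (.s k93 k81 1 (.d k255 k174 k170 12 14))))), (.s k4 k8 1 (.s k166 k247 12 (.s k6 k246 11 (.s k3 k9
  2 (.s k1 k2 0 (.d k169 k253 k252 13 14)))))), (.s k170 k255 14 (.s k2 k254 13 (.s k3 k1 0 (.s k6
  k9 2 (.s k166 k246 11 (.s k162 k174 1 (.d k243 k81 k89 12 14)))))))] (.c k166 (.l (.s k8 k4 1 (.s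
  k170 k255 14 (.s k2 k254 13 (.s k3 k1 0 (.s k89 k251 12 (.s k92 k83 2 (.d k252 k172 k169 11
  14)))))))) .n)) (.c k87 (.q k22 [(.s k150 k214 7 (.s k20 k215 8 (.s k60 k40 5 (.s k3 k41 6 (.s k1
  k2 0 (.d k169 k253 k252 13 14)))))), (.s k150 k214 7 (.s k170 k255 14 (.s k2 k254 13 (.s k62 k42 5
  (.s k130 k190 5 (.d k194 k66 k106 7 13)))))), (.s k150 k214 7 (.s k20 k215 8 (.s k60 k40 5 (.s
  k105 k195 14 (.s k125 k65 5 (.d k255 k190 k170 8 14)))))), (.s k170 k255 14 (.s k2 k254 13 (.s k42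
  k62 5 (.s k21 k63 6 (.s k23 k20 0 (.d k149 k213 k212 7 8))))))] (.c k60 (.l (.s k150 k214 7 (.s
  k20 k215 8 (.s k170 k255 14 (.s k2 k254 13 (.s k42 k62 5 (.d k21 k23 k63 0 6))))))) (.c k167 (.q
  k247 [(.s k255 k170 14 (.s k243 k251 1 (.s k81 k162 12 (.s k89 k93 1 (.d k166 k4 k12 12 14))))),
  (.s k150 k214 7 (.s k20 k215 8 (.s k60 k40 5 (.s k3 k41 6 (.s k1 k2 0 (.d k169 k253 k252 13
  14))))))] (.c k164 (.l (.s k166 k4 12 (.s k255 k170 14 (.s k243 k251 1 (.s k81 k162 12 (.d k89 k93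
  k12 1 14)))))) (.c k166 (.q k164 [(.s k150 k214 7 (.s k20 k215 8 (.s k60 k40 5 (.s k3 k41 6 (.s k1
  k2 0 (.d k169 k253 k252 13 14)))))), (.s k150 k214 7 (.s k170 k255 14 (.s k2 k254 13 (.s k62 k42 5
  (.s k130 k190 5 (.d k194 k66 k106 7 13)))))), (.s k150 k214 7 (.s k20 k215 8 (.s k60 k40 5 (.s
  k105 k195 14 (.s k125 k65 5 (.d k255 k190 k170 8 14)))))), (.s k170 k255 14 (.s k2 k254 13 (.s k42
  k62 5 (.s k21 k63 6 (.s k23 k20 0 (.d k149 k213 k212 7 8))))))] (.c k60 (.l (.s k150 k214 7 (.s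
  k20 k215 8 (.s k170 k255 14 (.s k2 k254 13 (.s k42 k62 5 (.d k21 k23 k63 0 6))))))) (.c k252 (.l
  (.s k150 k214 7 (.s k20 k215 8 (.s k60 k40 5 (.s k3 k41 6 (.s k2 k1 0 (.d k170 k254 k255 13
  14))))))) .n))) .n))) (.c k247 (.q k167 [(.s k150 k214 7 (.s k20 k215 8 (.s k60 k40 5 (.s k3 k41 6
  (.s k1 k2 0 (.d k169 k253 k252 13 14)))))), (.s k150 k214 7 (.s k170 k255 14 (.s k2 k254 13 (.s
  k62 k42 5 (.s k130 k190 5 (.d k194 k66 k106 7 13)))))), (.s k150 k214 7 (.s k20 k215 8 (.s k60 k40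
  5 (.s k105 k195 14 (.s k125 k65 5 (.d k255 k190 k170 8 14)))))), (.s k170 k255 14 (.s k2 k254 13
  (.s k42 k62 5 (.s k21 k63 6 (.s k23 k20 0 (.d k149 k213 k212 7 8))))))] (.c k60 (.l (.s k150 k214
  7 (.s k20 k215 8 (.s k170 k255 14 (.s k2 k254 13 (.s k42 k62 5 (.d k21 k23 k63 0 6))))))) (.c k252
  (.l (.s k150 k214 7 (.s k20 k215 8 (.s k60 k40 5 (.s k3 k41 6 (.s k2 k1 0 (.d k170 k254 k255 13
  14))))))) .n))) (.c k252 (.l (.s k150 k214 7 (.s k20 k215 8 (.s k60 k40 5 (.s k3 k41 6 (.s k2 k1 0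
  (.d k170 k254 k255 13 14))))))) .n))))) (.c k168 (.l (.s k87 k84 0 (.s k255 k170 14 (.s k3 k171 13
  (.s k169 k252 14 (.d k1 k2 k253 0 13)))))) (.c k169 (.f k170 k255 14 (.f k254 k2 13 (.f k87 k84 0
  (.q k32 [(.s k48 k16 3 (.s k101 k239 10 (.s k69 k117 3 (.d k207 k138 k154 10 14)))), (.s k101 k239
  10 (.s k71 k116 4 (.s k119 k103 3 (.s k68 k102 4 (.d k69 k70 k117 0 3))))), (.s k16 k48 3 (.s k223
  k154 10 (.s k19 k155 9 (.s k17 k18 0 (.d k153 k221 k220 9 10)))))] (.c k101 (.l (.s k16 k48 3 (.s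
  k154 k223 10 (.s k186 k138 3 (.s k50 k118 9 (.s k206 k102 13 (.d k222 k238 k18 3 9))))))) (.c k117
  (.l (.s k48 k16 3 (.s k101 k239 10 (.s k71 k116 4 (.s k119 k103 3 (.s k68 k102 4 (.s k69 k70 0 (.d
  k207 k138 k154 10 14)))))))) (.c k161 (.q k173 [(.s k48 k16 3 (.s k101 k239 10 (.s k69 k117 3 (.d
  k207 k138 k154 10 14)))), (.s k101 k239 10 (.s k71 k116 4 (.s k119 k103 3 (.s k68 k102 4 (.d k69
  k70 k117 0 3))))), (.s k16 k48 3 (.s k223 k154 10 (.s k19 k155 9 (.s k17 k18 0 (.d k153 k221 k220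
  9 10)))))] (.c k101 (.l (.s k16 k48 3 (.s k154 k223 10 (.s k186 k138 3 (.s k50 k118 9 (.s k206
  k102 13 (.d k222 k238 k18 3 9))))))) (.c k117 (.l (.s k48 k16 3 (.s k101 k239 10 (.s k71 k116 4
  (.s k119 k103 3 (.s k68 k102 4 (.s k69 k70 0 (.d k207 k138 k154 10 14)))))))) (.c k207 (.l (.s k16
  k48 3 (.s k101 k239 10 (.s k223 k154 10 (.s k19 k155 9 (.s k17 k18 0 (.d k153 k221 k220 9
  10))))))) (.c k223 (.l (.s k48 k16 3 (.s k101 k239 10 (.s k207 k154 14 (.d k69 k117 k138 3 10)))))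
  .n))))) (.c k173 (.q k161 [(.s k48 k16 3 (.s k101 k239 10 (.s k69 k117 3 (.d k207 k138 k154 10
  14)))), (.s k101 k239 10 (.s k71 k116 4 (.s k119 k103 3 (.s k68 k102 4 (.d k69 k70 k117 0 3))))),
  (.s k16 k48 3 (.s k223 k154 10 (.s k19 k155 9 (.s k17 k18 0 (.d k153 k221 k220 9 10)))))] (.c k101
  (.l (.s k16 k48 3 (.s k154 k223 10 (.s k186 k138 3 (.s k50 k118 9 (.s k206 k102 13 (.d k222 k238
  k18 3 9))))))) (.c k117 (.l (.s k48 k16 3 (.s k101 k239 10 (.s k71 k116 4 (.s k119 k103 3 (.s k68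
  k102 4 (.s k69 k70 0 (.d k207 k138 k154 10 14)))))))) (.c k207 (.l (.s k16 k48 3 (.s k101 k239 10
  (.s k223 k154 10 (.s k19 k155 9 (.s k17 k18 0 (.d k153 k221 k220 9 10))))))) (.c k223 (.l (.s k48
  k16 3 (.s k101 k239 10 (.s k207 k154 14 (.d k69 k117 k138 3 10))))) .n))))) (.c k207 (.l (.s k16
  k48 3 (.s k101 k239 10 (.s k223 k154 10 (.s k19 k155 9 (.s k17 k18 0 (.d k153 k221 k220 9
  10))))))) (.c k223 (.l (.s k48 k16 3 (.s k101 k239 10 (.s k207 k154 14 (.d k69 k117 k138 3 10)))))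
  .n)))))))))) (.c k170 (.q k192 [(.s k84 k87 0 (.s k128 k64 7 (.s k168 k252 13 (.s k148 k188 5 (.s
  k20 k212 7 (.d k60 k40 k104 5 13)))))), (.s k64 k128 7 (.s k106 k127 6 (.s k66 k126 5 (.s k3 k129
  8 (.s k1 k2 0 (.d k169 k253 k252 13 14)))))), (.s k84 k87 0 (.s k252 k168 13 (.s k212 k232 5 (.s
  k149 k23 8 (.s k21 k213 7 (.d k63 k42 k106 6 14))))))] (.c k160 (.q k175 [(.s k84 k87 0 (.s k128
  k64 7 (.s k168 k252 13 (.s k148 k188 5 (.s k20 k212 7 (.d k60 k40 k104 5 13)))))), (.s k64 k128 7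
  (.s k106 k127 6 (.s k66 k126 5 (.s k3 k129 8 (.s k1 k2 0 (.d k169 k253 k252 13 14)))))), (.s k84
  k87 0 (.s k252 k168 13 (.s k212 k232 5 (.s k149 k23 8 (.s k21 k213 7 (.d k63 k42 k106 6 14))))))]
  (.c k252 (.l (.s k64 k128 7 (.s k84 k87 0 (.s k106 k127 6 (.s k66 k126 5 (.s k67 k65 0 (.d k124
  k104 k105 5 6))))))) .n)) (.c k175 (.q k160 [(.s k128 k64 7 (.s k144 k176 3 (.s k48 k96 11 (.s k16
  k32 3 (.d k80 k208 k240 7 11))))), (.s k64 k128 7 (.s k84 k87 0 (.s k104 k124 5 (.s k60 k148 13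
  (.s k40 k20 5 (.d k168 k232 k252 7 13)))))), (.s k80 k240 11 (.s k84 k87 0 (.s k90 k95 2 (.s k82
  k94 1 (.s k83 k81 0 (.d k92 k88 k89 1 2))))))] .n) (.c k252 (.l (.s k64 k128 7 (.s k84 k87 0 (.s
  k106 k127 6 (.s k66 k126 5 (.s k67 k65 0 (.d k124 k104 k105 5 6))))))) .n)))) (.c k171 (.l (.s k84
  k87 0 (.s k252 k168 13 (.s k3 k169 14 (.s k170 k255 14 (.d k2 k1 k254 0 13)))))) (.c k252 (.q k17
  [(.s k51 k34 4 (.s k153 k221 9 (.s k102 k204 14 (.s k119 k68 4 (.d k255 k187 k170 9 14))))), (.s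
  k87 k84 0 (.s k153 k221 9 (.s k19 k220 10 (.s k16 k18 0 (.d k223 k155 k154 9 10))))), (.s k51 k34
  4 (.s k87 k84 0 (.s k255 k170 14 (.s k3 k171 13 (.s k19 k35 3 (.s k16 k18 0 (.d k223 k155 k154 9
  10)))))))] .n) (.c k253 (.l (.s k84 k87 0 (.s k170 k255 14 (.s k2 k254 13 (.s k252 k168 13 (.d k3
  k1 k169 0 14)))))) (.c k255 (.q k16 [(.s k87 k84 0 (.s k223 k154 10 (.s k19 k155 9 (.s k17 k18 0
  (.d k153 k221 k220 9 10))))), (.s k48 k32 3 (.s k84 k87 0 (.s k152 k220 9 (.s k100 k204 13 (.s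
  k116 k68 3 (.d k252 k184 k168 9 13)))))), (.s k48 k32 3 (.s k154 k223 10 (.s k18 k222 9 (.s k3 k33
  4 (.s k1 k2 0 (.d k169 k253 k252 13 14)))))), (.s k48 k32 3 (.s k84 k87 0 (.s k154 k223 10 (.s
  k207 k101 14 (.s k222 k18 9 (.d k252 k237 k168 4 13))))))] .n) .n))))))))))))

def t7_166 : T TT 256 :=
  (.f k170 k255 14 (.q k3 [(.s k1 k2 0 (.s k169 k253 13 (.s k168 k171 0 (.d k252 k84 k86 13 14))))]
  (.c k1 (.q k128 [(.s k149 k191 6 (.s k21 k213 7 (.s k63 k42 6 (.d k192 k64 k106 7 14)))), (.s k192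
  k64 7 (.s k129 k66 8 (.s k130 k131 0 (.s k150 k190 5 (.s k20 k215 8 (.s k60 k40 5 (.d k195 k65
  k105 8 14)))))))] (.c k64 (.l (.s k149 k191 6 (.s k21 k213 7 (.s k63 k42 6 (.s k23 k43 5 (.s k86
  k212 8 (.s k84 k87 0 (.d k252 k168 k169 13 14)))))))) (.c k192 (.f k149 k191 6 (.q k63 [(.d k21
  k213 k42 7 6), (.s k23 k43 5 (.s k86 k212 8 (.s k84 k87 0 (.d k252 k168 k169 13 14))))] (.c k213
  (.q k234 [(.d k42 k21 k106 6 7), (.s k23 k43 5 (.s k86 k212 8 (.s k84 k87 0 (.d k252 k168 k169 13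
  14))))] .n) (.c k234 (.l (.s k213 k21 7 (.s k23 k43 5 (.s k86 k212 8 (.s k84 k87 0 (.d k252 k168
  k169 13 14)))))) .n)))) .n))) (.c k2 (.q k42 [(.s k63 k21 6 (.s k106 k234 7 (.s k64 k127 6 (.d
  k192 k128 k149 7 14)))), (.s k63 k21 6 (.s k43 k23 5 (.s k40 k41 0 (.s k105 k235 8 (.s k65 k125 5
  (.s k195 k130 8 (.d k60 k20 k150 5 14)))))))] (.c k21 (.l (.s k106 k234 7 (.s k64 k127 6 (.s k192
  k128 7 (.s k66 k129 8 (.s k86 k126 5 (.s k84 k87 0 (.d k252 k168 k169 13 14)))))))) (.c k63 (.f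
  k106 k234 7 (.q k192 [(.d k64 k127 k128 6 7), (.s k66 k129 8 (.s k86 k126 5 (.s k84 k87 0 (.d k252
  k168 k169 13 14))))] (.c k127 (.q k191 [(.d k128 k149 k64 6 7), (.s k66 k129 8 (.s k86 k126 5 (.s
  k84 k87 0 (.d k252 k168 k169 13 14))))] .n) (.c k191 (.l (.s k127 k64 6 (.s k66 k129 8 (.s k86
  k126 5 (.s k84 k87 0 (.d k252 k168 k169 13 14)))))) .n)))) .n))) (.c k84 (.q k5 [(.s k15 k10 2 (.s
  k165 k245 11 (.s k160 k175 2 (.d k240 k80 k90 11 14)))), (.s k1 k2 0 (.s k9 k13 1 (.s k12 k6 2 (.s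
  k8 k4 1 (.s k89 k251 12 (.d k169 k249 k253 11 13))))))] (.c k10 (.l (.s k1 k2 0 (.s k9 k13 1 (.s
  k169 k253 13 (.s k89 k249 11 (.s k8 k251 12 (.d k12 k6 k4 2 1))))))) .n)) (.c k86 (.q k165 [(.s k5
  k245 11 (.s k15 k10 2 (.s k160 k175 2 (.d k240 k80 k90 11 14)))), (.s k1 k2 0 (.s k5 k245 11 (.s
  k13 k9 1 (.s k89 k241 13 (.s k93 k81 1 (.d k253 k173 k169 11 13)))))), (.s k1 k2 0 (.s k160 k175 2
  (.s k169 k253 13 (.s k161 k173 1 (.d k240 k80 k82 11 12)))))] (.c k6 (.q k246 [(.s k5 k245 11 (.s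
  k160 k175 2 (.s k240 k80 11 (.d k15 k10 k90 2 14)))), (.s k1 k2 0 (.s k5 k245 11 (.s k13 k9 1 (.s
  k89 k241 13 (.s k93 k81 1 (.d k253 k173 k169 11 13)))))), (.s k160 k175 2 (.s k240 k80 11 (.s k161
  k82 12 (.s k169 k173 1 (.d k1 k2 k253 0 13)))))] (.c k4 (.l (.s k5 k245 11 (.s k15 k10 2 (.s k160
  k175 2 (.d k240 k80 k90 11 14))))) (.c k5 (.q k4 [(.s k1 k2 0 (.s k8 k12 1 (.s k89 k251 12 (.s
  k241 k13 13 (.d k81 k93 k161 1 11))))), (.s k12 k8 1 (.s k160 k175 2 (.s k240 k80 11 (.s k164 k88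
  13 (.s k84 k244 11 (.d k168 k172 k252 1 13)))))), (.s k1 k2 0 (.s k169 k253 13 (.s k161 k173 1 (.s
  k240 k82 12 (.d k160 k175 k80 2 11)))))] .n) (.c k240 (.l (.s k1 k2 0 (.s k160 k175 2 (.s k169
  k253 13 (.s k161 k173 1 (.s k81 k241 11 (.d k162 k243 k163 12 0))))))) .n)))) (.c k240 (.l (.s k1
  k2 0 (.s k160 k175 2 (.s k169 k253 13 (.s k161 k173 1 (.s k81 k241 11 (.d k162 k243 k163 12
  0))))))) (.c k246 (.q k6 [(.s k1 k2 0 (.s k5 k245 11 (.d k9 k13 k12 1 2))), (.s k1 k2 0 (.s k160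
  k175 2 (.s k169 k253 13 (.s k161 k173 1 (.d k240 k80 k82 11 12))))), (.s k5 k245 11 (.s k15 k10 2
  (.s k160 k175 2 (.d k240 k80 k90 11 14))))] (.c k240 (.l (.s k1 k2 0 (.s k9 k12 2 (.d k5 k13 k245
  1 11)))) .n)) .n)))) (.c k168 (.q k5 [(.s k15 k10 2 (.s k165 k245 11 (.s k160 k175 2 (.d k240 k80
  k90 11 14)))), (.s k1 k2 0 (.s k9 k13 1 (.s k12 k6 2 (.s k8 k4 1 (.s k89 k251 12 (.d k169 k249
  k253 11 13))))))] (.c k10 (.l (.s k1 k2 0 (.s k9 k13 1 (.s k169 k253 13 (.s k89 k249 11 (.s k8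
  k251 12 (.d k12 k6 k4 2 1))))))) .n)) (.c k169 (.f k2 k1 0 (.q k119 [(.s k86 k254 13 (.s k87 k84 0
  (.s k71 k103 3 (.s k101 k116 4 (.s k69 k117 3 (.d k68 k70 k102 0 4)))))), (.s k68 k102 4 (.s k204
  k136 9 (.s k70 k137 10 (.s k69 k71 0 (.d k138 k206 k207 9 10))))), (.s k86 k254 13 (.s k87 k84 0
  (.s k71 k103 3 (.s k207 k139 9 (.s k69 k138 10 (.d k101 k117 k116 3 4)))))), (.s k86 k254 13 (.s
  k102 k68 4 (.s k34 k238 9 (.s k50 k18 3 (.s k70 k118 3 (.d k206 k138 k154 9 13))))))] (.c k163 (.q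
  k172 [(.s k86 k254 13 (.s k87 k84 0 (.s k71 k103 3 (.s k101 k116 4 (.s k69 k117 3 (.d k68 k70 k102
  0 4)))))), (.s k68 k102 4 (.s k204 k136 9 (.s k70 k137 10 (.s k69 k71 0 (.d k138 k206 k207 9
  10))))), (.s k86 k254 13 (.s k87 k84 0 (.s k71 k103 3 (.s k207 k139 9 (.s k69 k138 10 (.d k101
  k117 k116 3 4)))))), (.s k86 k254 13 (.s k102 k68 4 (.s k34 k238 9 (.s k50 k18 3 (.s k70 k118 3
  (.d k206 k138 k154 9 13))))))] .n) (.c k172 (.q k163 [(.s k243 k83 11 (.s k162 k81 12 (.s k82 k242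
  11 (.d k161 k160 k240 0 12)))), (.s k68 k102 4 (.s k204 k136 9 (.s k70 k137 10 (.s k69 k71 0 (.d
  k138 k206 k207 9 10)))))] .n) .n)))) (.c k171 (.l (.s k2 k1 0 (.s k86 k254 13 (.s k84 k87 0 (.d
  k252 k168 k169 13 14))))) (.c k252 (.f k2 k1 0 (.q k42 [(.s k106 k234 7 (.s k64 k127 6 (.s k192
  k128 7 (.d k63 k21 k149 6 14)))), (.s k22 k62 5 (.s k60 k41 6 (.s k20 k40 5 (.s k150 k215 8 (.d
  k86 k254 k214 13 7)))))] (.c k21 (.l (.s k62 k22 5 (.s k106 k234 7 (.s k150 k194 13 (.s k190 k130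
  5 (.d k254 k126 k86 7 13)))))) (.c k253 (.l (.s k254 k86 13 (.s k21 k63 6 (.s k22 k62 5 (.s k20
  k23 0 (.d k60 k40 k41 5 6)))))) (.c k254 (.q k253 [(.s k106 k234 7 (.s k64 k127 6 (.s k192 k128 7
  (.d k63 k21 k149 6 14)))), (.s k22 k62 5 (.s k60 k41 6 (.s k20 k40 5 (.s k150 k215 8 (.s k195 k105
  14 (.d k130 k190 k65 5 8))))))] (.c k21 (.l (.s k62 k22 5 (.s k106 k234 7 (.s k64 k127 6 (.s k192
  k128 7 (.s k66 k129 8 (.d k194 k130 k150 7 13))))))) .n)) .n))))) (.c k253 (.l (.s k2 k1 0 (.s k86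
  k254 13 (.s k252 k169 14 (.d k84 k87 k168 0 13))))) (.c k254 (.l (.s k1 k2 0 (.s k169 k253 13 (.s
  k252 k86 14 (.d k168 k171 k84 0 13))))) .n))))))))))))

def t7_167 : T TT 256 :=
  (.f k255 k170 14 (.q k89 [(.s k81 k93 1 (.s k243 k162 12 (.s k166 k12 14 (.d k247 k251 k4 1
  12))))] (.c k4 (.f k81 k93 1 (.q k87 [(.s k86 k84 0 (.s k83 k92 2 (.s k80 k82 0 (.d k95 k91 k90 1
  2)))), (.s k3 k171 13 (.s k1 k2 0 (.s k169 k253 13 (.d k86 k84 k252 0 14)))), (.s k3 k171 13 (.s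
  k2 k1 0 (.s k162 k243 12 (.s k82 k242 11 (.s k80 k83 0 (.d k240 k160 k161 11 12))))))] (.c k5 (.q
  k6 [(.s k86 k84 0 (.s k166 k246 11 (.d k243 k162 k12 12 14))), (.s k3 k171 13 (.s k1 k2 0 (.s k9
  k12 2 (.d k169 k249 k253 11 13))))] (.c k12 (.l (.s k3 k171 13 (.s k1 k2 0 (.s k86 k84 0 (.d k169
  k253 k252 13 14))))) (.c k86 (.l (.s k3 k171 13 (.s k12 k9 2 (.d k243 k162 k166 12 14)))) .n)))
  (.c k6 (.q k5 [(.s k86 k84 0 (.s k83 k92 2 (.s k80 k82 0 (.d k95 k91 k90 1 2)))), (.s k3 k171 13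
  (.s k165 k245 11 (.s k13 k241 13 (.d k1 k2 k9 0 1))))] .n) .n)))) (.c k12 (.q k87 [(.s k3 k171 13
  (.s k1 k2 0 (.s k86 k84 0 (.d k169 k253 k252 13 14)))), (.s k81 k93 1 (.s k86 k84 0 (.s k83 k92 2
  (.s k80 k82 0 (.d k95 k91 k90 1 2))))), (.s k3 k171 13 (.s k2 k1 0 (.s k81 k93 1 (.s k162 k243 12
  (.s k82 k242 11 (.s k80 k83 0 (.d k240 k160 k161 11 12)))))))] .n) (.c k81 (.q k80 [(.s k90 k95 2
  (.s k240 k160 11 (.s k245 k250 2 (.d k165 k5 k15 11 14)))), (.s k90 k95 2 (.s k88 k91 0 (.s k84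
  k92 1 (.s k252 k168 13 (.s k253 k254 0 (.s k169 k1 13 (.d k86 k87 k3 0 14))))))), (.s k240 k160 11
  (.s k245 k250 2 (.s k165 k5 11 (.s k241 k13 13 (.s k243 k242 0 (.s k247 k251 1 (.d k166 k4 k12 12
  14)))))))] (.c k87 (.q k247 [(.s k243 k251 1 (.d k166 k4 k12 12 14)), (.s k90 k95 2 (.s k240 k160
  11 (.s k245 k250 2 (.d k165 k5 k15 11 14))))] .n) (.c k90 (.q k247 [(.s k243 k251 1 (.d k166 k4
  k12 12 14)), (.s k240 k160 11 (.s k243 k251 1 (.s k241 k242 0 (.s k165 k13 13 (.d k245 k250 k5 2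
  11))))), (.s k4 k166 12 (.s k12 k8 1 (.s k240 k160 11 (.s k164 k88 13 (.s k244 k84 11 (.d k245
  k250 k246 2 0))))))] (.c k10 (.q k250 [(.d k240 k245 k160 2 11), (.s k166 k4 12 (.d k243 k251 k12
  1 14))] .n) (.c k166 (.f k240 k160 11 (.l (.s k250 k245 2 (.s k251 k243 1 (.s k248 k249 0 (.s k252
  k244 1 (.s k84 k168 13 (.s k86 k87 0 (.d k92 k88 k83 1 2))))))))) (.c k250 (.q k10 [(.s k166 k4 12
  (.d k243 k251 k12 1 14)), (.s k5 k15 2 (.s k165 k245 11 (.s k240 k160 11 (.s k243 k251 1 (.d k241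
  k242 k13 0 13)))))] (.c k5 (.l (.s k243 k251 1 (.d k166 k4 k12 12 14))) (.c k243 (.l (.s k4 k166
  12 (.s k8 k12 1 (.s k9 k11 0 (.s k169 k249 11 (.s k1 k253 13 (.d k5 k15 k13 2 1))))))) (.c k251
  (.l (.s k4 k166 12 (.s k5 k15 2 (.s k8 k12 1 (.s k165 k245 11 (.s k13 k241 13 (.d k9 k11 k1 0
  1))))))) .n)))) .n)))) (.c k247 (.q k87 [(.s k86 k84 0 (.s k83 k92 2 (.d k95 k91 k90 1 2))), (.s
  k3 k171 13 (.s k1 k2 0 (.s k86 k84 0 (.d k169 k253 k252 13 14)))), (.s k90 k95 2 (.s k240 k160 11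
  (.s k165 k15 14 (.d k245 k250 k5 2 11))))] .n) .n)))) (.c k87 (.q k247 [(.s k81 k93 1 (.d k243
  k251 k162 1 12)), (.s k166 k4 12 (.d k243 k251 k12 1 14)), (.s k4 k166 12 (.s k12 k8 1 (.d k93
  k174 k81 12 1)))] .n) (.c k93 (.q k86 [(.s k87 k84 0 (.s k3 k171 13 (.s k1 k2 0 (.d k169 k253 k252
  13 14)))), (.s k83 k92 2 (.s k87 k84 0 (.s k95 k91 1 (.s k15 k175 11 (.s k5 k10 2 (.s k165 k245 11
  (.d k90 k80 k240 2 14)))))))] (.c k84 (.q k87 [(.s k3 k171 13 (.s k1 k2 0 (.d k169 k253 k252 13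
  14))), (.s k83 k92 2 (.s k95 k91 1 (.s k80 k90 2 (.s k81 k82 0 (.s k243 k162 12 (.s k166 k12 14
  (.d k247 k251 k4 1 12))))))), (.s k3 k171 13 (.s k83 k92 2 (.s k95 k91 1 (.s k80 k90 2 (.s k81 k82
  0 (.d k243 k163 k162 11 12))))))] .n) (.c k87 (.q k247 [(.s k243 k251 1 (.d k166 k4 k12 12 14)),
  (.s k83 k92 2 (.s k243 k251 1 (.s k3 k163 11 (.s k1 k2 0 (.d k169 k253 k252 13 14))))), (.s k4
  k166 12 (.s k12 k8 1 (.s k92 k83 2 (.s k252 k172 11 (.s k253 k254 0 (.d k169 k1 k3 13 14))))))]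
  .n) (.c k163 (.l (.s k83 k92 2 (.s k87 k84 0 (.s k95 k91 1 (.s k80 k90 2 (.s k82 k81 0 (.s k240
  k160 11 (.d k3 k161 k171 12 13)))))))) (.c k171 (.f k83 k92 2 (.l (.s k87 k84 0 (.s k95 k91 1 (.s
  k80 k90 2 (.s k81 k82 0 (.s k243 k162 12 (.s k166 k12 14 (.d k247 k251 k4 1 12))))))))) (.c k175
  (.l (.s k83 k92 2 (.s k87 k84 0 (.s k3 k171 13 (.s k163 k243 11 (.s k1 k2 0 (.d k169 k253 k252 13
  14))))))) (.c k247 (.l (.s k87 k84 0 (.s k3 k171 13 (.s k1 k2 0 (.d k169 k253 k252 13 14)))))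
  .n))))))) (.c k162 (.l (.s k93 k81 1 (.s k12 k174 12 (.s k166 k243 14 (.d k4 k8 k247 1 12))))) (.c
  k166 (.f k93 k81 1 (.f k174 k12 12 (.q k165 [(.s k5 k245 11 (.s k13 k241 13 (.s k253 k173 11 (.d
  k1 k9 k169 1 13)))), (.s k5 k245 11 (.s k15 k10 2 (.s k90 k240 14 (.d k95 k80 k175 2 11))))] (.c
  k5 (.f k13 k241 13 (.l (.s k173 k253 11 (.s k175 k172 0 (.s k95 k15 11 (.s k80 k90 2 (.s k92 k94 0
  (.s k84 k88 1 (.d k86 k87 k83 0 2))))))))) (.c k87 (.q k247 [(.s k5 k245 11 (.s k13 k241 13 (.s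
  k253 k173 11 (.d k1 k9 k169 1 13)))), (.s k5 k245 11 (.s k15 k10 2 (.s k90 k240 14 (.d k95 k80
  k175 2 11)))), (.s k241 k13 13 (.s k243 k251 1 (.s k240 k242 0 (.s k80 k160 11 (.d k90 k15 k95 14
  2)))))] .n) (.c k245 (.l (.s k13 k241 13 (.s k253 k173 11 (.s k1 k169 13 (.s k5 k9 1 (.s k15 k10 2
  (.s k90 k240 14 (.d k95 k80 k175 2 11)))))))) (.c k247 (.q k87 [(.s k5 k245 11 (.s k13 k241 13 (.s
  k253 k173 11 (.d k1 k9 k169 1 13)))), (.s k3 k171 13 (.s k1 k2 0 (.s k86 k84 0 (.d k169 k253 k252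
  13 14)))), (.s k5 k245 11 (.s k15 k10 2 (.s k90 k240 14 (.d k95 k80 k175 2 11))))] .n) .n)))))))
  (.c k174 (.l (.s k81 k93 1 (.s k243 k162 12 (.s k166 k12 14 (.d k247 k251 k4 1 12))))) (.c k243
  (.f k93 k81 1 (.f k174 k12 12 (.q k15 [(.s k175 k95 11 (.s k173 k172 0 (.s k252 k94 12 (.d k253
  k254 k13 0 11)))), (.s k5 k10 2 (.s k95 k175 11 (.s k90 k80 2 (.d k165 k245 k240 11 14)))), (.s k5
  k10 2 (.s k165 k245 11 (.s k13 k241 13 (.s k1 k9 1 (.d k253 k173 k169 11 13)))))] (.c k87 (.q k247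
  [(.s k175 k95 11 (.s k173 k172 0 (.s k252 k94 12 (.d k253 k254 k13 0 11)))), (.s k5 k10 2 (.s k95
  k175 11 (.s k165 k245 11 (.d k90 k80 k240 2 14)))), (.s k5 k10 2 (.s k165 k245 11 (.s k13 k241 13
  (.s k1 k9 1 (.d k253 k173 k169 11 13)))))] .n) (.c k247 (.q k87 [(.s k86 k84 0 (.s k83 k92 2 (.d
  k95 k91 k175 1 11))), (.s k84 k86 0 (.s k252 k168 13 (.s k94 k173 12 (.d k254 k253 k14 0 11)))),
  (.s k95 k175 11 (.s k90 k80 2 (.d k91 k83 k88 1 0)))] .n) .n))))) (.c k247 (.q k87 [(.s k86 k84 0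
  (.s k3 k171 13 (.s k169 k252 14 (.d k1 k2 k253 0 13)))), (.s k81 k93 1 (.s k86 k84 0 (.s k83 k92 2
  (.s k80 k82 0 (.d k95 k91 k90 1 2))))), (.s k3 k171 13 (.s k93 k81 1 (.s k12 k174 12 (.s k9 k6 2
  (.s k169 k249 11 (.d k1 k2 k253 0 13))))))] .n) (.c k251 (.l (.s k93 k81 1 (.s k12 k174 12 (.s k4
  k8 1 (.d k166 k247 k243 12 14))))) .n)))))))))))))

def t7_168 : T TT 256 :=
  (.f k170 k255 14 (.q k243 [(.s k81 k162 12 (.s k89 k93 1 (.s k8 k251 12 (.d k12 k4 k166 1 14))))]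
  (.c k4 (.q k5 [(.s k15 k10 2 (.s k165 k245 11 (.s k160 k175 2 (.d k240 k80 k90 11 14)))), (.s k15
  k10 2 (.s k162 k81 12 (.s k166 k174 1 (.s k167 k91 13 (.d k165 k164 k245 0 11))))), (.s k81 k162
  12 (.s k89 k93 1 (.s k165 k245 11 (.s k241 k13 13 (.s k240 k242 0 (.d k160 k175 k80 2 11))))))]
  (.c k165 (.l (.s k10 k15 2 (.s k90 k250 11 (.s k162 k81 12 (.s k166 k174 1 (.s k242 k14 13 (.s
  k240 k241 0 (.d k80 k95 k160 2 11)))))))) (.c k245 (.l (.s k15 k10 2 (.s k81 k162 12 (.s k89 k93 1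
  (.s k12 k166 14 (.s k13 k14 0 (.s k1 k9 1 (.d k241 k161 k165 11 13)))))))) .n))) (.c k8 (.f k81
  k162 12 (.f k89 k93 1 (.f k12 k166 14 (.q k88 [(.s k90 k91 0 (.s k240 k164 13 (.d k80 k160 k95 11
  2))), (.s k90 k91 0 (.s k80 k95 2 (.s k83 k82 0 (.d k92 k84 k86 1 2)))), (.s k90 k91 0 (.s k10
  k250 11 (.s k15 k5 2 (.d k240 k164 k165 13 14)))), (.s k240 k164 13 (.s k160 k80 11 (.s k165 k175
  2 (.d k241 k242 k13 0 13))))] .n)))) (.c k12 (.f k162 k81 12 (.q k2 [(.s k3 k1 0 (.s k82 k242 11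
  (.s k163 k83 11 (.d k161 k160 k240 0 12)))), (.s k242 k82 11 (.s k254 k86 13 (.s k250 k246 1 (.s
  k90 k10 11 (.d k166 k174 k14 1 13))))), (.s k3 k1 0 (.s k86 k254 13 (.s k252 k169 14 (.s k246 k249
  2 (.d k166 k174 k6 1 11)))))] (.c k93 (.l (.s k174 k166 1 (.s k3 k1 0 (.s k82 k242 11 (.s k161
  k240 12 (.d k163 k160 k83 0 11)))))) (.c k174 (.q k93 [(.s k3 k1 0 (.s k82 k242 11 (.s k163 k83 11
  (.d k161 k160 k240 0 12)))), (.s k242 k82 11 (.s k254 k86 13 (.s k250 k246 1 (.s k90 k10 11 (.s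
  k80 k95 2 (.d k240 k241 k160 0 11)))))), (.s k3 k1 0 (.s k83 k163 11 (.s k86 k254 13 (.s k87 k84 0
  (.s k92 k89 2 (.d k95 k94 k91 0 1))))))] (.c k83 (.l (.s k3 k1 0 (.s k82 k242 11 (.s k86 k254 13
  (.s k161 k240 12 (.s k160 k163 0 (.s k165 k175 2 (.d k169 k173 k252 1 14)))))))) (.c k241 (.l (.s
  k82 k242 11 (.s k3 k1 0 (.s k161 k240 12 (.d k163 k160 k83 0 11))))) .n))) .n)))) (.c k81 (.q k165
  [(.s k5 k245 11 (.s k15 k10 2 (.s k160 k175 2 (.d k240 k80 k90 11 14)))), (.s k160 k175 2 (.s k240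
  k80 11 (.s k241 k242 0 (.s k89 k13 13 (.s k8 k251 12 (.d k12 k4 k166 1 14)))))), (.s k5 k245 11
  (.s k15 k10 2 (.s k167 k91 13 (.s k240 k90 14 (.s k241 k242 0 (.s k89 k13 13 (.d k166 k164 k12 0
  14)))))))] (.c k15 (.q k3 [(.s k163 k83 11 (.s k175 k160 2 (.s k167 k171 1 (.s k166 k164 0 (.s
  k172 k169 2 (.d k174 k173 k162 0 1)))))), (.s k1 k2 0 (.s k5 k245 11 (.s k9 k13 1 (.s k12 k6 2 (.s
  k4 k8 1 (.d k166 k247 k89 12 14))))))] (.c k95 (.l (.s k175 k160 2 (.s k1 k2 0 (.s k163 k83 11 (.s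
  k167 k171 1 (.s k169 k253 13 (.d k166 k164 k172 0 2))))))) (.c k166 (.l (.s k1 k2 0 (.s k163 k83
  11 (.s k169 k253 13 (.s k161 k173 1 (.d k160 k162 k175 0 2)))))) (.c k175 (.q k95 [(.s k83 k163 11
  (.s k87 k91 1 (.s k86 k84 0 (.d k2 k1 k254 0 13)))), (.s k80 k90 2 (.s k240 k160 11 (.s k241 k242
  0 (.s k89 k13 13 (.s k8 k251 12 (.d k12 k166 k4 14 1))))))] .n) .n)))) (.c k240 (.q k106 [(.s k42
  k234 7 (.s k63 k21 6 (.s k64 k127 6 (.d k192 k128 k149 7 14)))), (.s k160 k175 2 (.s k224 k47 10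
  (.s k32 k96 7 (.s k234 k42 7 (.d k239 k229 k101 2 10))))), (.s k47 k224 10 (.s k64 k127 6 (.s k192
  k128 7 (.s k63 k149 14 (.s k15 k31 3 (.d k5 k245 k10 11 2))))))] (.c k245 (.q k250 [(.s k42 k234 7
  (.s k63 k21 6 (.s k64 k127 6 (.d k192 k128 k149 7 14)))), (.s k10 k90 11 (.s k234 k42 7 (.s k202
  k218 3 (.s k138 k74 7 (.d k154 k186 k58 3 11))))), (.s k10 k90 11 (.s k15 k5 2 (.s k47 k224 10 (.s
  k63 k31 3 (.s k64 k127 6 (.d k192 k149 k128 14 7))))))] .n) (.c k250 (.l (.s k245 k5 11 (.s k42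
  k234 7 (.s k63 k21 6 (.s k64 k127 6 (.d k192 k128 k149 7 14)))))) .n))) .n))) (.c k89 (.q k15 [(.s
  k5 k10 2 (.s k165 k245 11 (.s k160 k175 2 (.d k240 k80 k90 11 14)))), (.s k5 k10 2 (.s k162 k81 12
  (.s k166 k174 1 (.s k167 k91 13 (.d k165 k164 k245 0 11))))), (.s k162 k81 12 (.s k166 k174 1 (.s
  k167 k91 13 (.s k165 k164 0 (.s k160 k175 2 (.d k240 k90 k80 14 11))))))] (.c k90 (.l (.s k5 k10 2
  (.s k162 k81 12 (.s k165 k245 11 (.s k166 k174 1 (.d k167 k164 k91 0 13)))))) (.c k165 (.l (.s k10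
  k5 2 (.s k90 k250 11 (.s k80 k95 2 (.s k162 k81 12 (.s k166 k174 1 (.s k240 k160 11 (.d k242 k241
  k14 0 13)))))))) .n))) (.c k93 (.l (.s k162 k81 12 (.s k166 k174 1 (.s k12 k89 14 (.d k4 k8 k247 1
  12))))) (.c k162 (.q k165 [(.s k5 k245 11 (.s k15 k10 2 (.s k160 k175 2 (.d k240 k80 k90 11
  14)))), (.s k160 k175 2 (.s k240 k80 11 (.s k241 k242 0 (.s k89 k13 13 (.s k8 k251 12 (.d k12 k4
  k166 1 14)))))), (.s k5 k245 11 (.s k15 k10 2 (.s k167 k91 13 (.s k240 k90 14 (.s k241 k242 0 (.s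
  k89 k13 13 (.d k166 k164 k12 0 14)))))))] (.c k15 (.q k3 [(.s k163 k83 11 (.s k175 k160 2 (.s k167
  k171 1 (.s k166 k164 0 (.s k172 k169 2 (.s k4 k247 12 (.d k12 k8 k89 1 14))))))), (.s k1 k2 0 (.s
  k169 k253 13 (.s k161 k173 1 (.s k241 k81 11 (.d k240 k242 k82 0 12)))))] (.c k95 (.l (.s k175
  k160 2 (.s k1 k2 0 (.s k163 k83 11 (.s k167 k171 1 (.s k169 k253 13 (.d k166 k164 k172 0 2)))))))
  (.c k169 (.l (.s k1 k2 0 (.s k5 k245 11 (.s k9 k13 1 (.s k12 k6 2 (.s k4 k8 1 (.d k166 k247 k89 12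
  14))))))) (.c k175 (.q k95 [(.s k80 k90 2 (.s k83 k163 11 (.s k82 k81 0 (.d k240 k160 k161 11
  12)))), (.s k2 k1 0 (.s k86 k254 13 (.s k87 k84 0 (.d k83 k91 k163 1 11)))), (.s k1 k2 0 (.s k80
  k90 2 (.s k169 k253 13 (.s k161 k173 1 (.d k240 k82 k160 12 11)))))] .n) .n)))) (.c k240 (.q k89
  [(.s k8 k251 12 (.d k12 k4 k166 1 14)), (.s k13 k241 13 (.s k93 k81 1 (.s k253 k173 11 (.s k1 k169
  13 (.d k5 k245 k9 11 1)))))] (.c k245 (.q k250 [(.s k8 k251 12 (.d k12 k4 k166 1 14)), (.s k10 k90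
  11 (.s k12 k166 14 (.s k13 k241 13 (.d k15 k14 k5 0 2)))), (.s k8 k251 12 (.s k10 k90 11 (.s k5
  k15 2 (.s k13 k241 13 (.d k9 k11 k1 0 1)))))] .n) (.c k250 (.l (.s k245 k5 11 (.s k8 k251 12 (.d
  k12 k4 k166 1 14)))) .n))) .n))) (.c k166 (.q k15 [(.s k5 k10 2 (.s k165 k245 11 (.s k160 k175 2
  (.d k240 k80 k90 11 14)))), (.s k81 k162 12 (.s k89 k93 1 (.s k91 k167 13 (.s k90 k88 0 (.s k80
  k95 2 (.d k240 k165 k160 14 11)))))), (.s k10 k5 2 (.s k81 k162 12 (.s k89 k93 1 (.s k90 k250 11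
  (.d k91 k88 k167 0 13)))))] (.c k90 (.l (.s k5 k10 2 (.s k81 k162 12 (.s k89 k93 1 (.s k8 k251 12
  (.s k12 k4 1 (.s k165 k245 11 (.d k13 k14 k241 0 13)))))))) (.c k240 (.l (.s k10 k5 2 (.s k81 k162
  12 (.s k89 k93 1 (.s k91 k167 13 (.d k90 k88 k250 0 11)))))) .n))) (.c k174 (.l (.s k81 k162 12
  (.s k89 k93 1 (.s k12 k166 14 (.d k8 k4 k251 1 12))))) (.c k251 (.l (.s k162 k81 12 (.s k166 k174
  1 (.s k4 k247 12 (.d k12 k8 k89 1 14))))) .n))))))))))))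

/-- roots with certificates -/
def certs : List (Cell TT 256 × Cell TT 256 × T TT 256) :=
  [(k7, k40, t7_40), (k7, k41, t7_41), (k7, k42, t7_42), (k7, k43, t7_43), (k7, k44, t7_44), (k7,
  k45, t7_45), (k7, k46, t7_46), (k7, k47, t7_47), (k7, k50, t7_50), (k7, k51, t7_51), (k7, k52,
  t7_52), (k7, k54, t7_54), (k7, k55, t7_55), (k7, k56, t7_56), (k7, k57, t7_57), (k7, k58, t7_58),
  (k7, k59, t7_59), (k7, k60, t7_60), (k7, k61, t7_61), (k7, k62, t7_62), (k7, k63, t7_63), (k7,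
  k82, t7_82), (k7, k88, t7_88), (k7, k90, t7_90), (k7, k91, t7_91), (k7, k94, t7_94), (k7, k95,
  t7_95), (k7, k97, t7_97), (k7, k98, t7_98), (k7, k99, t7_99), (k7, k102, t7_102), (k7, k103,
  t7_103), (k7, k104, t7_104), (k7, k105, t7_105), (k7, k106, t7_106), (k7, k107, t7_107), (k7,
  k108, t7_108), (k7, k109, t7_109), (k7, k110, t7_110), (k7, k111, t7_111), (k7, k112, t7_112),
  (k7, k114, t7_114), (k7, k115, t7_115), (k7, k118, t7_118), (k7, k119, t7_119), (k7, k120,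
  t7_120), (k7, k121, t7_121), (k7, k122, t7_122), (k7, k123, t7_123), (k7, k124, t7_124), (k7,
  k125, t7_125), (k7, k126, t7_126), (k7, k127, t7_127), (k7, k160, t7_160), (k7, k161, t7_161),
  (k7, k162, t7_162), (k7, k163, t7_163), (k7, k164, t7_164), (k7, k165, t7_165), (k7, k166,
  t7_166), (k7, k167, t7_167), (k7, k168, t7_168)]

theorem c7_40 : rootOK k7 k40 t7_40 = true := by decide +kernel

theorem c7_41 : rootOK k7 k41 t7_41 = true := by decide +kernel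

theorem c7_42 : rootOK k7 k42 t7_42 = true := by decide +kernel

theorem c7_43 : rootOK k7 k43 t7_43 = true := by decide +kernel

theorem c7_44 : rootOK k7 k44 t7_44 = true := by decide +kernel

theorem c7_45 : rootOK k7 k45 t7_45 = true := by decide +kernel

theorem c7_46 : rootOK k7 k46 t7_46 = true := by decide +kernel

theorem c7_47 : rootOK k7 k47 t7_47 = true := by decide +kernel

theorem c7_50 : rootOK k7 k50 t7_50 = true := by decide +kernel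

theorem c7_51 : rootOK k7 k51 t7_51 = true := by decide +kernel

theorem c7_52 : rootOK k7 k52 t7_52 = true := by decide +kernel

theorem c7_54 : rootOK k7 k54 t7_54 = true := by decide +kernel

theorem c7_55 : rootOK k7 k55 t7_55 = true := by decide +kernel

theorem c7_56 : rootOK k7 k56 t7_56 = true := by decide +kernel

theorem c7_57 : rootOK k7 k57 t7_57 = true := by decide +kernel

theorem c7_58 : rootOK k7 k58 t7_58 = true := by decide +kernel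

theorem c7_59 : rootOK k7 k59 t7_59 = true := by decide +kernel

theorem c7_60 : rootOK k7 k60 t7_60 = true := by decide +kernel

theorem c7_61 : rootOK k7 k61 t7_61 = true := by decide +kernel

theorem c7_62 : rootOK k7 k62 t7_62 = true := by decide +kernel

theorem c7_63 : rootOK k7 k63 t7_63 = true := by decide +kernel

theorem c7_82 : rootOK k7 k82 t7_82 = true := by decide +kernel

theorem c7_88 : rootOK k7 k88 t7_88 = true := by decide +kernel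

theorem c7_90 : rootOK k7 k90 t7_90 = true := by decide +kernel

theorem c7_91 : rootOK k7 k91 t7_91 = true := by decide +kernel

theorem c7_94 : rootOK k7 k94 t7_94 = true := by decide +kernel

theorem c7_95 : rootOK k7 k95 t7_95 = true := by decide +kernel

theorem c7_97 : rootOK k7 k97 t7_97 = true := by decide +kernel

theorem c7_98 : rootOK k7 k98 t7_98 = true := by decide +kernel

theorem c7_99 : rootOK k7 k99 t7_99 = true := by decide +kernel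

theorem c7_102 : rootOK k7 k102 t7_102 = true := by decide +kernel

theorem c7_103 : rootOK k7 k103 t7_103 = true := by decide +kernel

theorem c7_104 : rootOK k7 k104 t7_104 = true := by decide +kernel

theorem c7_105 : rootOK k7 k105 t7_105 = true := by decide +kernel

theorem c7_106 : rootOK k7 k106 t7_106 = true := by decide +kernel

theorem c7_107 : rootOK k7 k107 t7_107 = true := by decide +kernel

theorem c7_108 : rootOK k7 k108 t7_108 = true := by decide +kernel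

theorem c7_109 : rootOK k7 k109 t7_109 = true := by decide +kernel

theorem c7_110 : rootOK k7 k110 t7_110 = true := by decide +kernel

theorem c7_111 : rootOK k7 k111 t7_111 = true := by decide +kernel

theorem c7_112 : rootOK k7 k112 t7_112 = true := by decide +kernel

theorem c7_114 : rootOK k7 k114 t7_114 = true := by decide +kernel

theorem c7_115 : rootOK k7 k115 t7_115 = true := by decide +kernel

theorem c7_118 : rootOK k7 k118 t7_118 = true := by decide +kernel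

theorem c7_119 : rootOK k7 k119 t7_119 = true := by decide +kernel

theorem c7_120 : rootOK k7 k120 t7_120 = true := by decide +kernel

theorem c7_121 : rootOK k7 k121 t7_121 = true := by decide +kernel

theorem c7_122 : rootOK k7 k122 t7_122 = true := by decide +kernel

theorem c7_123 : rootOK k7 k123 t7_123 = true := by decide +kernel

theorem c7_124 : rootOK k7 k124 t7_124 = true := by decide +kernel

theorem c7_125 : rootOK k7 k125 t7_125 = true := by decide +kernel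

theorem c7_126 : rootOK k7 k126 t7_126 = true := by decide +kernel

theorem c7_127 : rootOK k7 k127 t7_127 = true := by decide +kernel

theorem c7_160 : rootOK k7 k160 t7_160 = true := by decide +kernel

theorem c7_161 : rootOK k7 k161 t7_161 = true := by decide +kernel

theorem c7_162 : rootOK k7 k162 t7_162 = true := by decide +kernel

theorem c7_163 : rootOK k7 k163 t7_163 = true := by decide +kernel

theorem c7_164 : rootOK k7 k164 t7_164 = true := by decide +kernel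

theorem c7_165 : rootOK k7 k165 t7_165 = true := by decide +kernel

theorem c7_166 : rootOK k7 k166 t7_166 = true := by decide +kernel

theorem c7_167 : rootOK k7 k167 t7_167 = true := by decide +kernel

theorem c7_168 : rootOK k7 k168 t7_168 = true := by decide +kernel

theorem ok : certsOK certs = true :=
  certsOK_cons c7_40 (certsOK_cons c7_41 (certsOK_cons c7_42 (certsOK_cons c7_43 (
  certsOK_cons c7_44 (certsOK_cons c7_45 (certsOK_cons c7_46 (certsOK_cons c7_47 (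
  certsOK_cons c7_50 (certsOK_cons c7_51 (certsOK_cons c7_52 (certsOK_cons c7_54 (
  certsOK_cons c7_55 (certsOK_cons c7_56 (certsOK_cons c7_57 (certsOK_cons c7_58 (
  certsOK_cons c7_59 (certsOK_cons c7_60 (certsOK_cons c7_61 (certsOK_cons c7_62 (
  certsOK_cons c7_63 (certsOK_cons c7_82 (certsOK_cons c7_88 (certsOK_cons c7_90 (
  certsOK_cons c7_91 (certsOK_cons c7_94 (certsOK_cons c7_95 (certsOK_cons c7_97 (
  certsOK_cons c7_98 (certsOK_cons c7_99 (certsOK_cons c7_102 (certsOK_cons c7_103 (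
  certsOK_cons c7_104 (certsOK_cons c7_105 (certsOK_cons c7_106 (certsOK_cons c7_107 (
  certsOK_cons c7_108 (certsOK_cons c7_109 (certsOK_cons c7_110 (certsOK_cons c7_111 (
  certsOK_cons c7_112 (certsOK_cons c7_114 (certsOK_cons c7_115 (certsOK_cons c7_118 (
  certsOK_cons c7_119 (certsOK_cons c7_120 (certsOK_cons c7_121 (certsOK_cons c7_122 (
  certsOK_cons c7_123 (certsOK_cons c7_124 (certsOK_cons c7_125 (certsOK_cons c7_126 (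
  certsOK_cons c7_127 (certsOK_cons c7_160 (certsOK_cons c7_161 (certsOK_cons c7_162 (
  certsOK_cons c7_163 (certsOK_cons c7_164 (certsOK_cons c7_165 (certsOK_cons c7_166 (
  certsOK_cons c7_167 (certsOK_cons c7_168 (certsOK_nil))))))))))))))))))))))))))))))))))))))))))
  ))))))))))))))))))))

theorem sound (k : Nat) (hk : (bits certs).testBit k = true) : PI k :=
  certs_sound certs ok k hk

end Pool.Agent.TTT.A09
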