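import Pool.Agent.TTT.Sym

set_option autoImplicit false
set_option maxRecDepth 100000

namespace Pool.Agent.TTT.A10

def t7_169 : T TT 256 :=
  (.f k170 k255 14 (.q k243 [(.s k81 k162 12 (.s k89 k93 1 (.s k8 k251 12 (.d k12 k4 k166 1 14))))]
  (.c k4 (.q k5 [(.s k15 k10 2 (.s k165 k245 11 (.s k160 k175 2 (.d k240 k80 k90 11 14)))), (.s k15
  k10 2 (.s k162 k81 12 (.s k166 k174 1 (.s k167 k91 13 (.d k165 k164 k245 0 11))))), (.s k81 k162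
  12 (.s k89 k93 1 (.s k165 k245 11 (.s k241 k13 13 (.s k240 k242 0 (.d k160 k175 k80 2 11))))))]
  (.c k165 (.l (.s k10 k15 2 (.s k90 k250 11 (.s k162 k81 12 (.s k166 k174 1 (.s k242 k14 13 (.s
  k240 k241 0 (.d k80 k95 k160 2 11)))))))) (.c k245 (.l (.s k15 k10 2 (.s k81 k162 12 (.s k89 k93 1
  (.s k12 k166 14 (.s k13 k14 0 (.s k1 k9 1 (.d k241 k161 k165 11 13)))))))) .n))) (.c k8 (.q k5
  [(.s k165 k245 11 (.s k160 k175 2 (.s k240 k80 11 (.d k15 k10 k90 2 14)))), (.s k15 k10 2 (.s k162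
  k81 12 (.s k166 k174 1 (.s k167 k91 13 (.d k165 k164 k245 0 11))))), (.s k81 k162 12 (.s k89 k93 1
  (.s k165 k245 11 (.s k241 k13 13 (.s k240 k242 0 (.d k160 k175 k80 2 11))))))] (.c k165 (.l (.s
  k10 k15 2 (.s k90 k250 11 (.s k162 k81 12 (.s k166 k174 1 (.s k242 k14 13 (.s k240 k241 0 (.d k80
  k95 k160 2 11)))))))) (.c k245 (.l (.s k15 k10 2 (.s k81 k162 12 (.s k89 k93 1 (.s k12 k166 14 (.s
  k13 k14 0 (.s k241 k165 13 (.d k1 k9 k161 1 11)))))))) .n))) (.c k12 (.f k162 k81 12 (.q k179 [(.s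
  k51 k115 7 (.s k34 k17 4 (.s k98 k226 7 (.d k145 k128 k192 4 12)))), (.s k51 k115 7 (.s k17 k34 4
  (.s k153 k221 9 (.d k166 k174 k140 1 6)))), (.s k128 k145 4 (.s k149 k191 6 (.s k21 k213 7 (.s k63
  k42 6 (.d k192 k64 k106 7 14)))))] (.c k17 (.l (.s k51 k115 7 (.s k145 k128 4 (.s k98 k192 12 (.s
  k34 k226 7 (.s k102 k238 9 (.s k68 k119 4 (.d k204 k136 k153 9 14)))))))) (.c k64 (.l (.s k145
  k128 4 (.s k51 k115 7 (.s k98 k192 12 (.d k34 k17 k226 4 7))))) (.c k93 (.l (.s k174 k166 1 (.s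
  k51 k115 7 (.s k34 k17 4 (.s k98 k226 7 (.d k145 k128 k192 4 12)))))) (.c k174 (.q k93 [(.s k51
  k115 7 (.s k34 k17 4 (.s k98 k226 7 (.d k145 k128 k192 4 12)))), (.s k128 k145 4 (.s k149 k191 6
  (.s k21 k213 7 (.s k63 k42 6 (.d k192 k64 k106 7 14))))), (.s k51 k115 7 (.s k17 k34 4 (.s k153
  k221 9 (.s k136 k187 4 (.d k204 k68 k102 9 14)))))] (.c k17 (.l (.s k51 k115 7 (.s k145 k128 4 (.s
  k98 k192 12 (.s k34 k226 7 (.s k102 k238 9 (.s k68 k119 4 (.d k204 k136 k153 9 14)))))))) (.c k64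
  (.l (.s k145 k128 4 (.s k51 k115 7 (.s k98 k192 12 (.d k34 k17 k226 4 7))))) .n))) .n)))))) (.c
  k81 (.q k165 [(.s k5 k245 11 (.s k15 k10 2 (.s k160 k175 2 (.d k240 k80 k90 11 14)))), (.s k160
  k175 2 (.s k240 k80 11 (.s k241 k242 0 (.s k89 k13 13 (.s k8 k251 12 (.d k12 k4 k166 1 14)))))),
  (.s k5 k245 11 (.s k15 k10 2 (.s k167 k91 13 (.s k166 k164 0 (.s k4 k247 12 (.d k12 k8 k89 1
  14))))))] (.c k15 (.q k3 [(.s k163 k83 11 (.s k175 k160 2 (.s k167 k171 1 (.s k166 k164 0 (.s k4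
  k247 12 (.d k12 k8 k89 1 14)))))), (.s k1 k2 0 (.s k5 k245 11 (.s k13 k9 1 (.s k89 k241 13 (.s k8
  k251 12 (.d k12 k4 k166 1 14)))))), (.s k2 k1 0 (.s k83 k163 11 (.s k86 k254 13 (.s k87 k84 0 (.s
  k95 k91 1 (.s k160 k175 2 (.d k80 k90 k240 2 11)))))))] (.c k95 (.l (.s k175 k160 2 (.s k163 k83
  11 (.s k167 k171 1 (.s k166 k164 0 (.s k4 k247 12 (.d k12 k8 k89 1 14))))))) (.c k166 (.q k95 [(.s
  k160 k175 2 (.d k80 k90 k240 2 11)), (.s k2 k1 0 (.s k86 k254 13 (.s k87 k84 0 (.d k83 k163 k91 11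
  1))))] (.c k163 (.q k172 [(.s k160 k175 2 (.d k80 k90 k240 2 11)), (.s k2 k1 0 (.s k80 k90 2 (.s
  k86 k254 13 (.s k84 k87 0 (.s k92 k88 1 (.d k252 k12 k168 11 13)))))), (.s k2 k1 0 (.s k86 k254 13
  (.s k84 k87 0 (.s k160 k175 2 (.d k168 k252 k164 13 1)))))] (.c k167 (.l (.s k80 k90 2 (.d k160
  k175 k240 2 11))) .n)) (.c k172 (.l (.s k163 k83 11 (.s k80 k90 2 (.d k160 k175 k240 2 11))))
  .n))) (.c k175 (.q k95 [(.s k83 k163 11 (.s k87 k91 1 (.s k86 k84 0 (.d k2 k1 k254 0 13)))), (.s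
  k80 k90 2 (.s k240 k160 11 (.s k241 k242 0 (.s k89 k13 13 (.s k8 k251 12 (.d k12 k166 k4 14
  1))))))] (.c k166 (.l (.s k2 k1 0 (.s k86 k254 13 (.s k87 k84 0 (.d k83 k91 k163 1 11))))) .n))
  .n)))) (.c k240 (.q k16 [(.s k48 k32 3 (.s k154 k223 10 (.s k138 k186 3 (.d k207 k69 k101 10
  14)))), (.s k32 k48 3 (.s k160 k175 2 (.s k224 k96 7 (.s k47 k106 10 (.s k37 k42 2 (.d k101 k229
  k239 7 10)))))), (.s k154 k223 10 (.s k160 k175 2 (.s k176 k143 6 (.s k128 k144 3 (.s k186 k138 3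
  (.d k191 k181 k149 2 6))))))] (.c k186 (.l (.s k48 k32 3 (.s k154 k223 10 (.s k143 k176 6 (.s k207
  k101 14 (.s k15 k79 7 (.d k5 k10 k245 2 11))))))) (.c k239 (.l (.s k48 k32 3 (.s k154 k223 10 (.s
  k207 k101 14 (.d k138 k186 k69 3 10))))) (.c k245 (.q k250 [(.s k48 k32 3 (.s k154 k223 10 (.s
  k138 k186 3 (.d k207 k69 k101 10 14)))), (.s k10 k90 11 (.s k15 k5 2 (.s k167 k91 13 (.s k166 k164
  0 (.s k4 k247 12 (.d k12 k89 k8 14 1))))))] .n) (.c k250 (.l (.s k245 k5 11 (.s k48 k32 3 (.s k154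
  k223 10 (.s k138 k186 3 (.d k207 k69 k101 10 14)))))) .n))))) .n))) (.c k89 (.f k81 k162 12 (.q
  k211 [(.s k146 k16 8 (.s k195 k227 3 (.s k65 k130 8 (.d k97 k113 k48 3 12)))), (.s k16 k146 8 (.s
  k154 k223 10 (.s k138 k186 3 (.s k207 k69 10 (.d k48 k32 k101 3 14))))), (.s k195 k227 3 (.s k130
  k65 8 (.s k150 k190 5 (.s k20 k215 8 (.d k60 k40 k105 5 14)))))] (.c k9 (.q k249 [(.s k146 k16 8
  (.s k195 k227 3 (.s k65 k130 8 (.d k97 k113 k48 3 12)))), (.s k16 k146 8 (.s k154 k223 10 (.s k138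
  k186 3 (.s k207 k69 10 (.d k48 k32 k101 3 14))))), (.s k195 k227 3 (.s k130 k65 8 (.s k150 k190 5
  (.s k20 k215 8 (.d k60 k40 k105 5 14)))))] (.c k32 (.l (.s k146 k16 8 (.s k195 k227 3 (.s k97 k48
  12 (.d k65 k113 k130 3 8))))) (.c k130 (.l (.s k195 k227 3 (.s k252 k246 2 (.s k84 k168 13 (.s
  k214 k233 6 (.s k220 k217 2 (.d k16 k146 k152 8 9))))))) .n))) (.c k32 (.l (.s k146 k16 8 (.s k195
  k227 3 (.s k97 k48 12 (.d k65 k113 k130 3 8))))) (.c k130 (.l (.s k146 k16 8 (.s k195 k227 3 (.s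
  k97 k48 12 (.s k65 k113 3 (.s k105 k125 5 (.s k40 k235 8 (.d k60 k20 k150 5 14)))))))) (.c k249
  (.q k9 [(.s k146 k16 8 (.s k195 k227 3 (.s k65 k130 8 (.d k97 k113 k48 3 12)))), (.s k16 k146 8
  (.s k154 k223 10 (.s k138 k186 3 (.s k207 k69 10 (.d k48 k32 k101 3 14))))), (.s k195 k227 3 (.s
  k130 k65 8 (.s k150 k190 5 (.s k20 k215 8 (.d k60 k40 k105 5 14)))))] (.c k32 (.l (.s k146 k16 8
  (.s k195 k227 3 (.s k97 k48 12 (.d k65 k113 k130 3 8))))) (.c k130 (.l (.s k146 k16 8 (.s k195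
  k227 3 (.s k97 k48 12 (.s k65 k113 3 (.s k105 k125 5 (.s k40 k235 8 (.d k60 k20 k150 5 14))))))))
  .n))) .n)))))) (.c k93 (.l (.s k162 k81 12 (.s k166 k174 1 (.s k12 k89 14 (.d k4 k8 k247 1 12)))))
  (.c k162 (.q k154 [(.s k16 k223 10 (.s k138 k186 3 (.s k207 k69 10 (.d k48 k32 k101 3 14)))), (.s
  k138 k186 3 (.s k207 k69 10 (.s k219 k231 5 (.s k89 k24 8 (.s k8 k251 12 (.d k12 k4 k166 1
  14)))))), (.s k16 k223 10 (.s k48 k32 3 (.s k178 k113 8 (.s k166 k142 5 (.s k4 k247 12 (.d k12 k8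
  k89 1 14))))))] (.c k48 (.q k90 [(.s k10 k250 11 (.s k15 k5 2 (.s k80 k95 2 (.d k240 k160 k165 11
  14)))), (.s k16 k223 10 (.s k26 k218 7 (.s k31 k21 2 (.s k80 k95 2 (.d k208 k144 k149 7 10))))),
  (.s k10 k250 11 (.s k16 k223 10 (.s k26 k218 7 (.s k42 k58 3 (.d k21 k63 k31 6 2)))))] (.c k117
  (.l (.s k186 k138 3 (.s k10 k250 11 (.s k15 k5 2 (.s k80 k95 2 (.d k240 k160 k165 11 14)))))) (.c
  k186 (.q k117 [(.s k10 k250 11 (.s k15 k5 2 (.s k80 k95 2 (.d k240 k160 k165 11 14)))), (.s k16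
  k223 10 (.s k26 k218 7 (.s k31 k21 2 (.s k80 k95 2 (.d k208 k144 k149 7 10))))), (.s k10 k250 11
  (.s k16 k223 10 (.s k26 k218 7 (.s k21 k31 2 (.d k42 k58 k63 3 6)))))] (.c k95 (.l (.s k10 k250 11
  (.s k15 k5 2 (.s k69 k101 3 (.s k207 k138 10 (.s k143 k79 7 (.d k165 k240 k176 14 6))))))) .n))
  .n))) (.c k207 (.q k150 [(.s k20 k215 8 (.s k60 k40 5 (.s k130 k190 5 (.d k195 k65 k105 8 14)))),
  (.s k158 k146 1 (.s k186 k138 3 (.s k190 k130 5 (.s k178 k182 1 (.d k142 k174 k166 3 5))))), (.s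
  k215 k20 8 (.s k223 k16 10 (.s k211 k219 1 (.s k28 k89 10 (.d k158 k146 k93 1 8)))))] (.c k223 (.q
  k239 [(.s k20 k215 8 (.s k60 k40 5 (.s k130 k190 5 (.d k195 k65 k105 8 14)))), (.s k32 k101 10 (.s
  k48 k16 3 (.s k178 k113 8 (.s k186 k138 3 (.d k190 k182 k130 1 5))))), (.s k20 k215 8 (.s k32 k101
  10 (.s k16 k48 3 (.s k28 k24 1 (.s k146 k158 1 (.d k211 k81 k89 8 10))))))] .n) (.c k239 (.l (.s
  k223 k16 10 (.s k20 k215 8 (.s k60 k40 5 (.s k130 k190 5 (.d k195 k65 k105 8 14)))))) .n))) .n)))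
  (.c k166 (.f k162 k81 12 (.q k130 [(.s k150 k190 5 (.s k20 k215 8 (.s k60 k40 5 (.d k195 k65 k105
  8 14)))), (.s k178 k146 3 (.s k48 k113 8 (.s k16 k32 3 (.s k154 k223 10 (.s k138 k186 3 (.d k207
  k69 k101 10 14))))))] (.c k65 (.l (.s k146 k178 3 (.s k150 k190 5 (.s k20 k215 8 (.s k60 k40 5 (.s
  k195 k105 14 (.s k97 k48 12 (.d k227 k211 k32 3 8)))))))) (.c k163 (.q k172 [(.s k150 k190 5 (.s
  k20 k215 8 (.s k60 k40 5 (.d k195 k65 k105 8 14)))), (.s k178 k146 3 (.s k48 k113 8 (.s k16 k32 3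
  (.s k154 k223 10 (.s k138 k186 3 (.d k207 k69 k101 10 14))))))] (.c k65 (.l (.s k146 k178 3 (.s
  k150 k190 5 (.s k20 k215 8 (.s k60 k40 5 (.s k195 k105 14 (.s k97 k48 12 (.d k227 k211 k32 3
  8)))))))) .n)) (.c k172 (.q k163 [(.s k3 k83 11 (.s k2 k1 0 (.s k82 k242 11 (.d k161 k160 k240 0
  12)))), (.s k146 k178 3 (.s k195 k65 8 (.s k97 k48 12 (.d k227 k211 k32 3 8))))] .n) .n))))) (.c
  k174 (.l (.s k81 k162 12 (.s k89 k93 1 (.s k12 k166 14 (.d k8 k4 k251 1 12))))) (.c k251 (.l (.s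
  k162 k81 12 (.s k166 k174 1 (.s k4 k247 12 (.d k12 k8 k89 1 14))))) .n))))))))))))

def t7_171 : T TT 256 :=
  (.q k89 [(.s k81 k93 1 (.s k243 k162 12 (.s k12 k166 14 (.s k8 k4 1 (.d k170 k251 k255 12 14))))),
  (.s k93 k81 1 (.s k255 k170 14 (.s k12 k174 12 (.s k166 k243 14 (.d k4 k8 k247 1 12)))))] (.c k4
  (.q k5 [(.s k15 k10 2 (.s k165 k245 11 (.s k90 k240 14 (.s k95 k80 2 (.d k255 k175 k170 11
  14))))), (.s k93 k81 1 (.s k165 k245 11 (.s k13 k241 13 (.s k1 k9 1 (.d k253 k173 k169 11 13)))))]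
  (.c k165 (.l (.s k10 k15 2 (.s k170 k255 14 (.s k8 k251 12 (.s k11 k9 0 (.s k90 k250 11 (.s k88
  k91 0 (.d k248 k168 k169 11 12)))))))) (.c k245 (.l (.s k15 k10 2 (.s k81 k93 1 (.s k243 k162 12
  (.s k12 k166 14 (.s k13 k14 0 (.s k1 k9 1 (.d k241 k161 k165 11 13)))))))) .n))) (.c k8 (.l (.s
  k81 k93 1 (.s k243 k162 12 (.s k166 k12 14 (.s k247 k4 12 (.d k255 k251 k170 1 14)))))) (.c k12
  (.q k5 [(.s k15 k10 2 (.s k165 k245 11 (.s k90 k240 14 (.s k95 k80 2 (.d k255 k175 k170 11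
  14))))), (.s k93 k81 1 (.s k165 k245 11 (.s k13 k241 13 (.s k1 k9 1 (.d k253 k173 k169 11 13)))))]
  (.c k165 (.l (.s k10 k15 2 (.s k170 k255 14 (.s k8 k251 12 (.s k11 k9 0 (.s k90 k250 11 (.s k88
  k91 0 (.d k248 k168 k169 11 12)))))))) (.c k245 (.l (.s k15 k10 2 (.s k81 k93 1 (.s k243 k162 12
  (.s k91 k167 13 (.s k90 k88 0 (.s k80 k95 2 (.d k240 k160 k165 11 14)))))))) .n))) (.c k81 (.q k16
  [(.s k48 k32 3 (.s k154 k223 10 (.s k101 k207 14 (.s k117 k69 3 (.d k255 k186 k170 10 14))))), (.s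
  k48 k32 3 (.s k154 k223 10 (.s k24 k219 8 (.s k12 k36 5 (.s k4 k8 1 (.d k166 k247 k243 12
  14)))))), (.s k154 k223 10 (.s k24 k219 8 (.s k20 k28 1 (.s k40 k60 5 (.s k170 k255 14 (.d k8 k56
  k251 3 12)))))), (.s k48 k32 3 (.s k170 k255 14 (.s k8 k251 12 (.s k12 k4 1 (.s k24 k36 5 (.s k20
  k28 1 (.d k40 k56 k60 3 5)))))))] .n) (.c k93 (.q k16 [(.s k48 k32 3 (.s k154 k223 10 (.s k101
  k207 14 (.s k117 k69 3 (.d k255 k186 k170 10 14))))), (.s k48 k32 3 (.s k154 k223 10 (.s k24 k219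
  8 (.s k12 k36 5 (.s k4 k8 1 (.d k166 k247 k243 12 14)))))), (.s k48 k32 3 (.s k170 k255 14 (.s k8
  k251 12 (.s k12 k4 1 (.s k24 k36 5 (.s k40 k56 3 (.d k20 k28 k60 1 5))))))), (.s k154 k223 10 (.s
  k24 k219 8 (.s k170 k255 14 (.s k8 k251 12 (.s k40 k56 3 (.d k20 k28 k60 1 5))))))] (.c k28 (.l
  (.s k48 k32 3 (.s k255 k170 14 (.s k117 k186 10 (.s k101 k69 3 (.d k154 k223 k207 10 14)))))) .n))
  (.c k162 (.l (.s k93 k81 1 (.s k255 k170 14 (.s k12 k174 12 (.s k166 k243 14 (.d k4 k8 k247 1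
  12)))))) (.c k166 (.q k1 [(.s k81 k93 1 (.s k169 k253 13 (.s k9 k249 11 (.s k241 k161 11 (.d k13
  k5 k165 1 13))))), (.s k3 k2 0 (.s k81 k93 1 (.s k161 k241 11 (.s k82 k240 12 (.s k83 k80 0 (.d
  k243 k163 k162 11 12)))))), (.s k3 k2 0 (.s k169 k253 13 (.s k9 k249 11 (.s k12 k6 2 (.s k170 k255
  14 (.d k8 k4 k251 1 12))))))] (.c k241 (.l (.s k3 k2 0 (.s k81 k93 1 (.s k169 k253 13 (.s k86 k252
  14 (.s k83 k92 2 (.d k243 k163 k162 11 12))))))) .n)) (.c k170 (.q k169 [(.s k1 k253 13 (.s k9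
  k249 11 (.s k81 k93 1 (.s k241 k161 11 (.d k13 k5 k165 1 13))))), (.s k81 k93 1 (.s k243 k162 12
  (.s k249 k9 11 (.s k252 k246 2 (.s k84 k168 13 (.d k86 k87 k3 0 14)))))), (.s k1 k253 13 (.s k3 k2
  0 (.s k81 k93 1 (.s k86 k252 14 (.s k83 k92 2 (.d k243 k163 k162 11 12)))))), (.s k1 k253 13 (.s
  k3 k2 0 (.s k9 k249 11 (.s k12 k6 2 (.s k4 k8 1 (.d k166 k247 k243 12 14))))))] .n) (.c k174 (.l
  (.s k81 k93 1 (.s k243 k162 12 (.s k12 k166 14 (.s k170 k255 14 (.d k8 k4 k251 1 12)))))) (.c k243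
  (.q k5 [(.s k15 k10 2 (.s k165 k245 11 (.s k90 k240 14 (.s k95 k80 2 (.d k255 k175 k170 11
  14))))), (.s k93 k81 1 (.s k165 k245 11 (.s k13 k241 13 (.s k1 k9 1 (.d k253 k173 k169 11 13))))),
  (.s k15 k10 2 (.s k93 k81 1 (.s k255 k170 14 (.s k12 k174 12 (.s k13 k14 0 (.s k1 k9 1 (.d k253
  k169 k173 13 11)))))))] .n) (.c k255 (.q k3 [(.s k1 k2 0 (.s k93 k81 1 (.s k253 k169 13 (.s k13
  k173 11 (.s k5 k9 1 (.d k165 k245 k241 11 13)))))), (.s k81 k93 1 (.s k243 k162 12 (.s k83 k163 11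
  (.s k86 k92 2 (.s k84 k87 0 (.d k252 k168 k169 13 14)))))), (.s k1 k2 0 (.s k169 k253 13 (.s k9
  k249 11 (.s k12 k6 2 (.s k4 k8 1 (.d k166 k247 k243 12 14))))))] (.c k169 (.l (.s k1 k2 0 (.s k81
  k93 1 (.s k161 k241 11 (.s k82 k240 12 (.s k83 k80 0 (.d k243 k163 k162 11 12))))))) .n))
  .n))))))))))))

def t7_172 : T TT 256 :=
  (.f k255 k170 14 (.q k153 [(.s k17 k221 9 (.s k51 k34 4 (.s k102 k204 14 (.d k119 k68 k187 4
  9))))] (.c k17 (.q k117 [(.s k101 k69 3 (.s k48 k186 10 (.s k154 k207 14 (.d k16 k32 k223 3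
  10)))), (.s k101 k69 3 (.s k49 k205 13 (.s k253 k185 9 (.s k252 k254 0 (.s k84 k168 13 (.s k86 k87
  0 (.d k169 k1 k3 13 14)))))))] (.c k69 (.l (.s k48 k186 10 (.s k16 k32 3 (.s k154 k223 10 (.s k152
  k155 0 (.s k204 k100 13 (.s k68 k136 9 (.d k102 k119 k51 4 14)))))))) (.c k101 (.f k48 k186 10 (.q
  k154 [(.d k16 k32 k223 3 10), (.s k152 k155 0 (.s k204 k100 13 (.s k68 k136 9 (.d k102 k119 k51 4
  14))))] (.c k32 (.q k239 [(.d k223 k207 k16 3 10), (.s k152 k155 0 (.s k204 k100 13 (.s k68 k136 9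
  (.d k102 k119 k51 4 14))))] .n) (.c k239 (.l (.s k32 k16 3 (.s k152 k155 0 (.s k204 k100 13 (.s
  k68 k136 9 (.d k102 k119 k51 4 14)))))) .n)))) .n))) (.c k34 (.l (.s k221 k17 9 (.s k204 k238 4
  (.s k102 k51 14 (.d k68 k119 k136 4 9))))) (.c k51 (.q k1 [(.s k3 k2 0 (.s k87 k171 13 (.s k86 k84
  0 (.d k169 k253 k252 13 14)))), (.s k17 k221 9 (.s k49 k33 3 (.s k101 k205 13 (.s k117 k69 3 (.d
  k253 k185 k169 9 13))))), (.s k3 k2 0 (.s k221 k17 9 (.s k204 k238 4 (.s k136 k68 9 (.s k137 k70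
  10 (.s k69 k205 9 (.d k138 k139 k207 0 10)))))))] .n) (.c k68 (.q k1 [(.s k3 k2 0 (.s k87 k171 13
  (.s k169 k253 13 (.d k86 k84 k252 0 14)))), (.s k17 k221 9 (.s k49 k33 3 (.s k101 k205 13 (.s k117
  k69 3 (.d k253 k185 k169 9 13))))), (.s k3 k2 0 (.s k17 k221 9 (.s k33 k49 3 (.s k18 k48 4 (.s k19
  k16 0 (.d k51 k35 k34 3 4))))))] .n) (.c k102 (.f k221 k17 9 (.q k205 [(.s k101 k49 13 (.s k69
  k117 3 (.s k1 k137 9 (.d k253 k237 k169 3 13)))), (.s k253 k237 3 (.s k169 k1 13 (.s k252 k254 0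
  (.s k84 k168 13 (.d k86 k87 k3 0 14))))), (.s k101 k49 13 (.s k117 k69 3 (.s k48 k186 10 (.s k16
  k32 3 (.d k154 k223 k207 10 14))))), (.s k237 k253 3 (.s k238 k204 4 (.s k239 k236 0 (.s k207 k223
  3 (.s k69 k138 10 (.d k101 k117 k49 3 13))))))] (.c k34 (.l (.s k238 k204 4 (.s k49 k101 13 (.s
  k253 k237 3 (.s k169 k1 13 (.d k185 k137 k117 3 9)))))) (.c k49 (.l (.s k253 k237 3 (.s k1 k169 13
  (.s k3 k2 0 (.s k137 k69 9 (.d k204 k238 k70 4 10)))))) (.c k238 (.q k34 [(.s k101 k49 13 (.s k69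
  k117 3 (.s k1 k137 9 (.d k253 k237 k169 3 13)))), (.s k253 k237 3 (.s k252 k254 0 (.s k84 k168 13
  (.s k86 k87 0 (.d k169 k1 k3 13 14))))), (.s k101 k49 13 (.s k117 k69 3 (.s k48 k186 10 (.s k16
  k32 3 (.d k154 k223 k207 10 14)))))] (.c k1 (.l (.s k237 k253 3 (.s k101 k49 13 (.s k33 k169 9 (.s
  k117 k69 3 (.s k48 k186 10 (.d k32 k35 k16 0 3))))))) .n)) .n))))) (.c k119 (.q k1 [(.s k3 k2 0
  (.s k87 k171 13 (.s k86 k84 0 (.d k169 k253 k252 13 14)))), (.s k17 k221 9 (.s k49 k33 3 (.s k101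
  k205 13 (.s k117 k69 3 (.d k253 k185 k169 9 13))))), (.s k3 k2 0 (.s k17 k221 9 (.s k33 k49 3 (.s
  k18 k48 4 (.s k19 k16 0 (.d k51 k35 k34 3 4))))))] .n) (.c k187 (.l (.s k221 k17 9 (.s k204 k238 4
  (.s k68 k136 9 (.d k102 k119 k51 4 14))))) (.c k204 (.q k1 [(.s k3 k2 0 (.s k87 k171 13 (.s k86
  k84 0 (.d k169 k253 k252 13 14)))), (.s k17 k221 9 (.s k49 k33 3 (.s k101 k205 13 (.s k117 k69 3
  (.d k253 k185 k169 9 13))))), (.s k3 k2 0 (.s k17 k221 9 (.s k33 k49 3 (.s k18 k48 4 (.s k19 k16 0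
  (.d k51 k35 k34 3 4))))))] .n) (.c k221 (.q k69 [(.s k101 k117 3 (.s k207 k138 10 (.s k154 k48 14
  (.d k223 k239 k16 3 10)))), (.s k101 k117 3 (.s k205 k49 13 (.s k1 k137 9 (.s k3 k2 0 (.s k87 k171
  13 (.s k86 k84 0 (.d k169 k253 k252 13 14)))))))] (.c k101 (.f k207 k138 10 (.q k154 [(.d k223
  k239 k16 3 10), (.s k155 k152 0 (.s k51 k103 13 (.s k102 k204 14 (.d k119 k68 k187 4 9))))] (.c
  k32 (.l (.s k239 k223 3 (.s k155 k152 0 (.s k51 k103 13 (.s k102 k204 14 (.d k119 k68 k187 4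
  9)))))) (.c k239 (.q k32 [(.d k16 k48 k223 3 10), (.s k155 k152 0 (.s k51 k103 13 (.s k119 k187 9
  (.d k102 k68 k204 4 14))))] .n) .n)))) (.c k117 (.l (.s k207 k138 10 (.s k223 k239 3 (.s k154 k16
  10 (.s k155 k152 0 (.s k51 k103 13 (.s k102 k204 14 (.d k119 k68 k187 4 9)))))))) .n))) (.c k238
  (.l (.s k17 k221 9 (.s k51 k34 4 (.s k102 k204 14 (.d k119 k68 k187 4 9))))) .n))))))))))))

def t7_173 : T TT 256 :=
  (.f k255 k170 14 (.q k89 [(.s k81 k93 1 (.s k243 k162 12 (.s k166 k12 14 (.d k247 k251 k4 1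
  12)))), (.s k93 k81 1 (.s k12 k174 12 (.s k4 k8 1 (.d k166 k247 k243 12 14))))] (.c k4 (.q k5 [(.s
  k15 k10 2 (.s k165 k245 11 (.s k90 k240 14 (.d k95 k80 k175 2 11)))), (.s k93 k81 1 (.s k12 k174
  12 (.s k165 k245 11 (.s k13 k241 13 (.d k15 k14 k10 0 2))))), (.s k15 k10 2 (.s k81 k93 1 (.s k243
  k162 12 (.s k91 k167 13 (.s k90 k88 0 (.d k95 k80 k175 2 11))))))] (.c k10 (.l (.s k93 k81 1 (.s
  k12 k174 12 (.s k165 k245 11 (.s k13 k241 13 (.s k15 k14 0 (.s k90 k240 14 (.d k95 k175 k80 11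
  2)))))))) (.c k15 (.l (.s k81 k93 1 (.s k243 k162 12 (.s k245 k165 11 (.s k240 k250 2 (.s k241
  k242 0 (.s k253 k249 1 (.d k1 k161 k169 11 13)))))))) (.c k175 (.l (.s k15 k10 2 (.s k93 k81 1 (.s
  k165 k245 11 (.s k13 k241 13 (.d k12 k14 k174 0 12)))))) .n)))) (.c k12 (.q k1 [(.s k3 k2 0 (.s
  k87 k171 13 (.s k86 k84 0 (.d k169 k253 k252 13 14)))), (.s k81 k93 1 (.s k241 k161 11 (.s k13
  k165 13 (.s k169 k253 13 (.d k9 k5 k249 1 11)))))] (.c k86 (.l (.s k81 k93 1 (.s k241 k161 11 (.s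
  k165 k13 13 (.s k253 k169 13 (.d k245 k249 k5 1 11)))))) (.c k169 (.l (.s k3 k2 0 (.s k81 k93 1
  (.s k161 k241 11 (.s k82 k240 12 (.s k83 k80 0 (.d k243 k163 k162 11 12))))))) (.c k253 (.l (.s k3
  k2 0 (.s k87 k171 13 (.s k86 k84 0 (.s k83 k92 2 (.s k243 k163 11 (.d k81 k93 k162 1 12)))))))
  .n)))) (.c k81 (.q k21 [(.s k149 k213 7 (.s k63 k42 6 (.s k106 k192 14 (.d k127 k64 k191 6 7)))),
  (.s k149 k213 7 (.s k29 k209 9 (.s k17 k25 1 (.s k51 k34 4 (.s k119 k187 9 (.s k102 k68 4 (.d k153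
  k221 k204 9 14)))))))] (.c k149 (.f k63 k42 6 (.q k106 [(.d k127 k191 k64 7 6), (.s k123 k72 4 (.s
  k243 k183 9 (.s k166 k12 14 (.d k247 k251 k4 1 12))))] (.c k128 (.l (.s k191 k127 7 (.s k123 k72 4
  (.s k243 k183 9 (.s k166 k12 14 (.d k247 k251 k4 1 12)))))) (.c k191 (.q k128 [(.d k64 k127 k192 6
  7), (.s k123 k72 4 (.s k243 k183 9 (.s k247 k251 1 (.d k166 k4 k12 12 14))))] .n) .n)))) (.c k213
  (.l (.s k63 k42 6 (.s k127 k191 7 (.s k106 k64 6 (.s k123 k72 4 (.s k243 k183 9 (.s k166 k12 14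
  (.d k247 k251 k4 1 12)))))))) .n))) (.c k93 (.q k169 [(.s k253 k1 13 (.s k252 k254 0 (.s k84 k168
  13 (.d k86 k87 k3 0 14)))), (.s k249 k9 11 (.s k253 k1 13 (.s k245 k241 1 (.s k240 k250 2 (.s k80
  k160 11 (.s k90 k95 2 (.d k165 k5 k15 11 14)))))))] (.c k1 (.q k253 [(.s k252 k254 0 (.s k84 k168
  13 (.d k86 k87 k3 0 14))), (.s k249 k9 11 (.s k245 k241 1 (.s k240 k250 2 (.s k80 k160 11 (.s k90
  k95 2 (.d k165 k5 k15 11 14))))))] .n) (.c k13 (.l (.s k253 k1 13 (.s k252 k254 0 (.s k84 k168 13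
  (.d k86 k87 k3 0 14))))) (.c k253 (.q k13 [(.s k9 k249 11 (.s k5 k1 1 (.d k165 k245 k241 11 13))),
  (.s k165 k241 13 (.s k245 k5 11 (.s k240 k250 2 (.s k80 k160 11 (.d k90 k95 k15 2 14)))))] (.c k5
  (.q k4 [(.s k12 k8 1 (.d k166 k247 k243 12 14)), (.s k9 k249 11 (.s k12 k8 1 (.s k3 k6 2 (.s k87
  k171 13 (.d k86 k84 k252 0 14))))), (.s k247 k166 12 (.s k243 k251 1 (.s k249 k9 11 (.s k252 k246
  2 (.s k84 k168 13 (.d k86 k87 k3 0 14))))))] .n) (.c k165 (.l (.s k9 k249 11 (.s k1 k5 1 (.s k3 k2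
  0 (.s k86 k252 14 (.d k87 k84 k171 0 13)))))) (.c k241 (.q k5 [(.d k9 k249 k1 11 1), (.s k15 k10 2
  (.s k12 k14 0 (.s k166 k243 14 (.d k4 k8 k247 1 12))))] (.c k245 (.l (.s k249 k9 11 (.s k15 k10 2
  (.s k12 k14 0 (.s k166 k243 14 (.d k4 k8 k247 1 12)))))) (.c k249 (.l (.s k245 k165 11 (.s k1 k9 1
  (.s k3 k2 0 (.s k86 k252 14 (.d k87 k84 k171 0 13)))))) .n))) (.c k245 (.l (.s k9 k249 11 (.s k241
  k165 13 (.s k1 k5 1 (.s k3 k2 0 (.s k86 k252 14 (.d k87 k84 k171 0 13))))))) (.c k249 (.l (.s k165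
  k241 13 (.s k245 k5 11 (.s k240 k250 2 (.s k80 k160 11 (.d k90 k95 k15 2 14)))))) .n)))))) .n))))
  (.c k162 (.l (.s k93 k81 1 (.s k12 k174 12 (.s k166 k243 14 (.d k4 k8 k247 1 12))))) (.c k166 (.f
  k81 k93 1 (.f k162 k243 12 (.q k1 [(.s k3 k2 0 (.s k87 k171 13 (.s k86 k84 0 (.d k169 k253 k252 13
  14)))), (.s k241 k161 11 (.s k13 k165 13 (.s k169 k253 13 (.d k9 k5 k249 1 11))))] (.c k13 (.l (.s
  k253 k169 13 (.s k3 k2 0 (.s k161 k241 11 (.s k240 k82 12 (.d k160 k163 k80 0 11)))))) (.c k86 (.l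
  (.s k161 k241 11 (.s k160 k163 0 (.s k240 k80 11 (.d k3 k2 k82 0 12))))) (.c k169 (.l (.s k3 k2 0
  (.s k161 k241 11 (.s k240 k82 12 (.d k160 k163 k80 0 11))))) (.c k253 (.q k13 [(.d k241 k161 k165
  11 13), (.s k3 k2 0 (.s k9 k5 1 (.s k87 k171 13 (.s k86 k84 0 (.d k169 k249 k252 11 14)))))] .n)
  .n))))))) (.c k174 (.l (.s k81 k93 1 (.s k243 k162 12 (.s k166 k12 14 (.d k247 k251 k4 1 12)))))
  (.c k243 (.q k1 [(.s k3 k2 0 (.s k87 k171 13 (.s k86 k84 0 (.d k169 k253 k252 13 14)))), (.s k81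
  k93 1 (.s k241 k161 11 (.s k13 k165 13 (.s k169 k253 13 (.d k9 k5 k249 1 11))))), (.s k3 k2 0 (.s
  k93 k81 1 (.s k12 k174 12 (.s k8 k4 1 (.s k9 k6 2 (.s k5 k13 1 (.d k10 k11 k15 0 2)))))))] (.c k86
  (.l (.s k81 k93 1 (.s k241 k161 11 (.s k165 k13 13 (.s k253 k169 13 (.d k245 k249 k5 1 11))))))
  .n)) (.c k247 (.q k87 [(.s k3 k171 13 (.s k1 k2 0 (.s k86 k84 0 (.d k169 k253 k252 13 14)))), (.s
  k81 k93 1 (.s k86 k84 0 (.s k83 k92 2 (.s k80 k82 0 (.d k95 k91 k90 1 2))))), (.s k3 k171 13 (.s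
  k81 k93 1 (.s k243 k162 12 (.s k83 k163 11 (.s k80 k82 0 (.d k95 k91 k90 1 2))))))] (.c k253 (.l
  (.s k3 k171 13 (.s k86 k84 0 (.s k83 k92 2 (.s k243 k163 11 (.d k81 k93 k162 1 12)))))) .n))
  .n)))))))))))

def t7_174 : T TT 256 :=
  (.q k86 [(.s k84 k87 0 (.s k252 k168 13 (.s k3 k169 14 (.s k2 k1 0 (.d k170 k254 k255 13 14))))),
  (.s k87 k84 0 (.s k255 k170 14 (.s k3 k171 13 (.s k1 k2 0 (.d k169 k253 k252 13 14)))))] (.c k1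
  (.q k8 [(.s k12 k4 1 (.s k170 k255 14 (.s k89 k251 12 (.s k81 k93 1 (.d k243 k162 k166 12 14))))),
  (.s k84 k87 0 (.s k168 k252 13 (.s k88 k248 11 (.s k80 k92 1 (.s k240 k160 11 (.d k12 k4 k164 1
  13)))))), (.s k84 k87 0 (.s k168 k252 13 (.s k88 k248 11 (.s k92 k80 1 (.s k89 k83 2 (.d k170 k251
  k255 12 14))))))] (.c k247 (.l (.s k12 k4 1 (.s k170 k255 14 (.s k89 k251 12 (.s k243 k166 14 (.d
  k81 k93 k162 1 12)))))) .n)) (.c k2 (.l (.s k84 k87 0 (.s k252 k168 13 (.s k169 k3 14 (.s k253 k1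
  13 (.d k255 k254 k170 0 14)))))) (.c k3 (.f k87 k84 0 (.q k223 [(.s k19 k155 9 (.s k154 k16 10 (.s
  k220 k153 10 (.d k222 k221 k18 0 9)))), (.s k255 k170 14 (.s k207 k239 3 (.s k69 k138 10 (.s k101
  k117 3 (.d k154 k16 k48 10 14)))))] (.c k11 (.q k15 [(.s k19 k155 9 (.s k154 k16 10 (.s k220 k153
  10 (.d k222 k221 k18 0 9)))), (.s k5 k10 2 (.s k165 k245 11 (.s k90 k240 14 (.s k95 k80 2 (.d k255
  k175 k170 11 14)))))] .n) (.c k15 (.q k11 [(.s k19 k155 9 (.s k154 k16 10 (.s k220 k153 10 (.d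
  k222 k221 k18 0 9)))), (.s k255 k170 14 (.s k207 k239 3 (.s k69 k138 10 (.s k101 k117 3 (.d k154
  k16 k48 10 14)))))] (.c k16 (.l (.s k155 k19 9 (.s k255 k170 14 (.s k207 k239 3 (.s k69 k138 10
  (.s k101 k117 3 (.s k71 k116 4 (.d k103 k119 k51 3 13)))))))) (.c k154 (.l (.s k19 k155 9 (.s k153
  k220 10 (.s k17 k221 9 (.s k34 k51 4 (.s k170 k255 14 (.s k2 k254 13 (.d k18 k16 k50 0 3))))))))
  .n))) (.c k16 (.l (.s k155 k19 9 (.s k255 k170 14 (.s k207 k239 3 (.s k69 k138 10 (.s k101 k117 3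
  (.s k71 k116 4 (.d k103 k119 k51 3 13)))))))) (.c k154 (.l (.s k19 k155 9 (.s k153 k220 10 (.s k17
  k221 9 (.s k34 k51 4 (.s k170 k255 14 (.s k2 k254 13 (.d k18 k16 k50 0 3)))))))) .n)))))) (.c k84
  (.q k16 [(.s k48 k32 3 (.s k154 k223 10 (.s k101 k207 14 (.s k117 k69 3 (.d k255 k186 k170 10
  14))))), (.s k48 k32 3 (.s k154 k223 10 (.s k18 k222 9 (.s k3 k33 4 (.s k1 k2 0 (.d k169 k253 k252
  13 14)))))), (.s k154 k223 10 (.s k18 k222 9 (.s k17 k19 0 (.s k34 k51 4 (.s k170 k255 14 (.d k2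
  k50 k254 3 13)))))), (.s k48 k32 3 (.s k170 k255 14 (.s k2 k254 13 (.s k3 k1 0 (.s k18 k33 4 (.s
  k17 k19 0 (.d k34 k50 k51 3 4)))))))] .n) (.c k87 (.q k51 [(.s k17 k34 4 (.s k153 k221 9 (.s k102
  k204 14 (.s k119 k68 4 (.d k255 k187 k170 9 14))))), (.s k17 k34 4 (.s k153 k221 9 (.s k19 k220 10
  (.s k3 k35 3 (.s k1 k2 0 (.d k169 k253 k252 13 14)))))), (.s k170 k255 14 (.s k2 k254 13 (.s k3 k1
  0 (.s k19 k35 3 (.s k153 k220 10 (.s k136 k187 4 (.d k204 k68 k102 9 14)))))))] (.c k153 (.l (.s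
  k34 k17 4 (.s k170 k255 14 (.s k2 k254 13 (.s k3 k1 0 (.s k18 k50 3 (.s k33 k48 4 (.d k35 k32 k19
  0 3)))))))) (.c k167 (.q k247 [(.s k17 k34 4 (.s k153 k221 9 (.s k102 k204 14 (.s k119 k68 4 (.d
  k255 k187 k170 9 14))))), (.s k166 k4 12 (.s k255 k170 14 (.s k243 k251 1 (.s k81 k162 12 (.d k89
  k93 k12 1 14))))), (.s k17 k34 4 (.s k153 k221 9 (.s k19 k220 10 (.s k3 k35 3 (.s k1 k2 0 (.d k169
  k253 k252 13 14))))))] .n) (.c k247 (.q k167 [(.s k17 k34 4 (.s k153 k221 9 (.s k102 k204 14 (.s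
  k119 k68 4 (.d k255 k187 k170 9 14))))), (.s k17 k34 4 (.s k153 k221 9 (.s k19 k220 10 (.s k3 k35
  3 (.s k1 k2 0 (.d k169 k253 k252 13 14)))))), (.s k170 k255 14 (.s k2 k254 13 (.s k3 k1 0 (.s k19
  k35 3 (.s k153 k220 10 (.s k136 k187 4 (.d k204 k68 k102 9 14)))))))] (.c k153 (.l (.s k34 k17 4
  (.s k170 k255 14 (.s k2 k254 13 (.s k3 k1 0 (.s k18 k50 3 (.s k33 k48 4 (.d k35 k32 k19 0
  3)))))))) .n)) .n)))) (.c k168 (.l (.s k87 k84 0 (.s k255 k170 14 (.s k3 k171 13 (.s k169 k252 14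
  (.d k1 k2 k253 0 13)))))) (.c k169 (.q k8 [(.s k12 k4 1 (.s k170 k255 14 (.s k89 k251 12 (.s k81
  k93 1 (.d k243 k162 k166 12 14))))), (.s k84 k87 0 (.s k168 k252 13 (.s k88 k248 11 (.s k80 k92 1
  (.s k240 k160 11 (.d k12 k4 k164 1 13)))))), (.s k84 k87 0 (.s k168 k252 13 (.s k88 k248 11 (.s
  k92 k80 1 (.s k89 k83 2 (.d k170 k251 k255 12 14))))))] (.c k247 (.l (.s k12 k4 1 (.s k170 k255 14
  (.s k89 k251 12 (.s k243 k166 14 (.d k81 k93 k162 1 12)))))) .n)) (.c k170 (.q k192 [(.s k84 k87 0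
  (.s k128 k64 7 (.s k168 k252 13 (.s k148 k188 5 (.s k20 k212 7 (.d k60 k40 k104 5 13)))))), (.s
  k64 k128 7 (.s k106 k127 6 (.s k66 k126 5 (.s k3 k129 8 (.s k1 k2 0 (.d k169 k253 k252 13
  14)))))), (.s k84 k87 0 (.s k252 k168 13 (.s k212 k232 5 (.s k149 k23 8 (.s k21 k213 7 (.d k63 k42
  k106 6 14))))))] (.c k162 (.q k166 [(.s k64 k128 7 (.s k84 k87 0 (.s k104 k124 5 (.s k60 k148 13
  (.s k40 k20 5 (.d k168 k232 k252 7 13)))))), (.s k4 k247 12 (.s k6 k246 11 (.s k12 k8 1 (.s k3 k9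
  2 (.s k1 k2 0 (.d k169 k253 k252 13 14)))))), (.s k64 k128 7 (.s k106 k127 6 (.s k66 k126 5 (.s k3
  k129 8 (.s k1 k2 0 (.d k169 k253 k252 13 14))))))] (.c k252 (.l (.s k4 k247 12 (.s k12 k8 1 (.s
  k64 k128 7 (.s k72 k132 9 (.s k89 k243 14 (.d k106 k123 k127 4 6))))))) .n)) (.c k166 (.q k162
  [(.s k128 k64 7 (.s k145 k179 4 (.s k51 k98 12 (.s k17 k34 4 (.d k81 k209 k243 7 12))))), (.s k64
  k128 7 (.s k84 k87 0 (.s k104 k124 5 (.s k60 k148 13 (.s k40 k20 5 (.d k168 k232 k252 7 13)))))),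
  (.s k81 k243 12 (.s k87 k84 0 (.s k89 k93 1 (.s k83 k92 2 (.s k80 k82 0 (.d k95 k91 k90 1 2))))))]
  .n) (.c k252 (.l (.s k64 k128 7 (.s k84 k87 0 (.s k106 k127 6 (.s k66 k126 5 (.s k67 k65 0 (.d
  k124 k104 k105 5 6))))))) .n)))) (.c k171 (.l (.s k84 k87 0 (.s k252 k168 13 (.s k3 k169 14 (.s
  k170 k255 14 (.d k2 k1 k254 0 13)))))) (.c k252 (.q k17 [(.s k51 k34 4 (.s k153 k221 9 (.s k102
  k204 14 (.s k119 k68 4 (.d k255 k187 k170 9 14))))), (.s k87 k84 0 (.s k153 k221 9 (.s k19 k220 10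
  (.s k16 k18 0 (.d k223 k155 k154 9 10))))), (.s k51 k34 4 (.s k87 k84 0 (.s k255 k170 14 (.s k3
  k171 13 (.s k19 k35 3 (.s k16 k18 0 (.d k223 k155 k154 9 10)))))))] .n) (.c k255 (.q k204 [(.s k68
  k136 9 (.s k87 k84 0 (.s k119 k102 4 (.s k71 k103 3 (.s k69 k70 0 (.d k101 k117 k116 3 4)))))),
  (.s k84 k87 0 (.s k252 k168 13 (.s k220 k236 3 (.s k153 k19 10 (.s k17 k221 9 (.d k51 k34 k102 4
  14)))))), (.s k68 k136 9 (.s k102 k119 4 (.s k70 k118 3 (.s k3 k137 10 (.s k1 k2 0 (.d k169 k253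
  k252 13 14))))))] (.c k12 (.q k93 [(.s k89 k81 1 (.s k92 k83 2 (.s k95 k94 0 (.s k80 k90 2 (.d k84
  k87 k88 0 1))))), (.s k68 k136 9 (.s k84 k87 0 (.s k100 k116 3 (.s k48 k152 13 (.s k32 k16 3 (.d
  k168 k236 k252 9 13)))))), (.s k68 k136 9 (.s k89 k81 1 (.s k102 k119 4 (.s k76 k115 6 (.s k64 k72
  1 (.d k127 k110 k106 4 6))))))] .n) (.c k93 (.q k12 [(.s k4 k8 1 (.s k68 k136 9 (.s k76 k140 7 (.s
  k72 k64 1 (.d k132 k196 k192 7 9))))), (.s k68 k136 9 (.s k84 k87 0 (.s k100 k116 3 (.s k48 k152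
  13 (.s k32 k16 3 (.d k168 k236 k252 9 13)))))), (.s k4 k8 1 (.s k84 k87 0 (.s k164 k244 11 (.s k88
  k240 13 (.s k92 k80 1 (.d k252 k172 k168 11 13))))))] .n) (.c k102 (.l (.s k68 k136 9 (.s k84 k87
  0 (.s k100 k116 3 (.s k48 k152 13 (.s k32 k16 3 (.d k168 k236 k252 9 13))))))) .n))))
  .n))))))))))))

def t7_175 : T TT 256 :=
  (.q k86 [(.s k84 k87 0 (.s k252 k168 13 (.s k3 k169 14 (.s k2 k1 0 (.d k170 k254 k255 13 14))))),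
  (.s k170 k255 14 (.s k2 k254 13 (.s k3 k1 0 (.s k252 k169 14 (.d k84 k87 k168 0 13)))))] (.c k1
  (.q k8 [(.s k170 k255 14 (.s k89 k251 12 (.s k81 k93 1 (.s k243 k162 12 (.d k12 k4 k166 1 14))))),
  (.s k12 k4 1 (.s k84 k87 0 (.s k168 k252 13 (.s k88 k248 11 (.s k80 k92 1 (.d k240 k160 k164 11
  13)))))), (.s k84 k87 0 (.s k168 k252 13 (.s k88 k248 11 (.s k92 k80 1 (.s k89 k83 2 (.d k170 k251
  k255 12 14))))))] (.c k247 (.l (.s k12 k4 1 (.s k170 k255 14 (.s k89 k251 12 (.s k243 k166 14 (.d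
  k81 k93 k162 1 12)))))) .n)) (.c k2 (.l (.s k84 k87 0 (.s k252 k168 13 (.s k169 k3 14 (.s k253 k1
  13 (.d k255 k254 k170 0 14)))))) (.c k3 (.f k87 k84 0 (.f k170 k255 14 (.f k254 k2 13 (.q k95 [(.s
  k83 k91 1 (.s k90 k80 2 (.s k92 k89 2 (.d k94 k93 k82 0 1)))), (.s k90 k80 2 (.s k250 k10 11 (.s
  k242 k246 1 (.s k14 k166 13 (.d k94 k82 k174 1 11))))), (.s k83 k91 1 (.s k89 k92 2 (.s k8 k251 12
  (.s k12 k4 1 (.s k81 k93 1 (.d k243 k162 k166 12 14))))))] (.c k11 (.q k15 [(.s k10 k5 2 (.d k90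
  k80 k250 2 11)), (.s k80 k90 2 (.s k83 k91 1 (.s k81 k82 0 (.d k89 k93 k92 1 2))))] (.c k80 (.l
  (.s k10 k5 2 (.s k83 k91 1 (.s k90 k250 11 (.s k92 k89 2 (.d k94 k93 k82 0 1)))))) (.c k90 (.l (.s
  k83 k91 1 (.s k89 k92 2 (.s k81 k93 1 (.s k243 k162 12 (.s k12 k166 14 (.d k8 k251 k4 12 1)))))))
  .n))) (.c k15 (.q k11 [(.s k83 k91 1 (.s k90 k80 2 (.s k92 k89 2 (.d k94 k93 k82 0 1)))), (.s k91
  k83 1 (.s k171 k251 11 (.s k169 k168 0 (.d k90 k80 k248 2 12)))), (.s k90 k80 2 (.s k250 k10 11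
  (.s k242 k246 1 (.s k14 k166 13 (.d k94 k82 k174 1 11)))))] (.c k80 (.l (.s k83 k91 1 (.s k92 k89
  2 (.s k94 k93 0 (.s k90 k82 1 (.s k250 k10 11 (.s k242 k246 1 (.d k14 k174 k166 11 13)))))))) (.c
  k90 (.l (.s k83 k91 1 (.s k89 k92 2 (.s k8 k251 12 (.s k12 k4 1 (.s k81 k93 1 (.d k243 k162 k166
  12 14))))))) .n))) (.c k80 (.l (.s k83 k91 1 (.s k92 k89 2 (.s k94 k93 0 (.s k90 k82 1 (.s k250
  k10 11 (.s k242 k246 1 (.d k14 k174 k166 11 13)))))))) (.c k88 (.l (.s k80 k90 2 (.s k83 k91 1 (.s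
  k89 k92 2 (.d k81 k82 k93 0 1))))) (.c k92 (.l (.s k80 k90 2 (.s k83 k91 1 (.s k81 k82 0 (.s k89
  k93 1 (.s k8 k251 12 (.s k12 k4 1 (.d k243 k162 k166 12 14)))))))) .n))))))))) (.c k84 (.q k12
  [(.s k4 k8 1 (.s k166 k247 12 (.s k89 k243 14 (.s k93 k81 1 (.d k255 k174 k170 12 14))))), (.s k4
  k8 1 (.s k166 k247 12 (.s k6 k246 11 (.s k3 k9 2 (.s k1 k2 0 (.d k169 k253 k252 13 14)))))), (.s
  k170 k255 14 (.s k2 k254 13 (.s k3 k1 0 (.s k6 k9 2 (.s k166 k246 11 (.s k162 k174 1 (.d k243 k81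
  k89 12 14)))))))] (.c k166 (.l (.s k8 k4 1 (.s k170 k255 14 (.s k2 k254 13 (.s k3 k1 0 (.s k89
  k251 12 (.s k92 k83 2 (.d k252 k172 k169 11 14)))))))) .n)) (.c k87 (.q k243 [(.s k81 k162 12 (.s
  k89 k93 1 (.s k166 k12 14 (.s k247 k4 12 (.d k255 k251 k170 1 14))))), (.s k81 k162 12 (.s k89 k93
  1 (.s k83 k92 2 (.s k3 k163 11 (.s k1 k2 0 (.d k169 k253 k252 13 14)))))), (.s k170 k255 14 (.s k2
  k254 13 (.s k3 k1 0 (.s k83 k163 11 (.s k89 k92 2 (.s k8 k251 12 (.d k12 k4 k166 1 14)))))))] (.c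
  k89 (.l (.s k162 k81 12 (.s k170 k255 14 (.s k2 k254 13 (.s k3 k1 0 (.s k82 k242 11 (.s k161 k240
  12 (.d k163 k160 k83 0 11)))))))) (.c k167 (.q k247 [(.d k255 k251 k170 1 14), (.s k81 k162 12 (.s
  k89 k93 1 (.d k166 k4 k12 12 14)))] (.c k163 (.q k171 [(.d k255 k251 k170 1 14), (.s k81 k162 12
  (.s k89 k93 1 (.d k166 k4 k12 12 14)))] .n) (.c k171 (.q k163 [(.d k255 k251 k170 1 14), (.s k3
  k83 11 (.s k1 k2 0 (.d k169 k253 k252 13 14)))] (.c k3 (.l (.d k255 k251 k170 1 14)) (.c k255 (.l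
  (.s k3 k83 11 (.s k1 k2 0 (.d k169 k253 k252 13 14)))) .n))) .n))) (.c k247 (.q k167 [(.s k81 k162
  12 (.s k89 k93 1 (.s k12 k166 14 (.s k8 k4 1 (.d k170 k251 k255 12 14))))), (.s k15 k91 13 (.s k10
  k5 2 (.s k170 k255 14 (.s k90 k250 11 (.s k240 k165 14 (.d k80 k95 k160 2 11)))))), (.s k15 k91 13
  (.s k5 k10 2 (.s k81 k162 12 (.s k89 k93 1 (.s k165 k245 11 (.d k166 k164 k12 0 14))))))] (.c k5
  (.l (.s k81 k162 12 (.s k89 k93 1 (.s k12 k166 14 (.s k170 k255 14 (.d k8 k4 k251 1 12)))))) .n))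
  .n)))) (.c k168 (.l (.s k87 k84 0 (.s k255 k170 14 (.s k3 k171 13 (.s k169 k252 14 (.d k1 k2 k253
  0 13)))))) (.c k169 (.q k8 [(.s k170 k255 14 (.s k89 k251 12 (.s k81 k93 1 (.s k243 k162 12 (.d
  k12 k4 k166 1 14))))), (.s k12 k4 1 (.s k84 k87 0 (.s k168 k252 13 (.s k88 k248 11 (.s k80 k92 1
  (.d k240 k160 k164 11 13)))))), (.s k84 k87 0 (.s k168 k252 13 (.s k88 k248 11 (.s k92 k80 1 (.s
  k89 k83 2 (.d k170 k251 k255 12 14))))))] (.c k247 (.l (.s k12 k4 1 (.s k170 k255 14 (.s k89 k251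
  12 (.s k243 k166 14 (.d k81 k93 k162 1 12)))))) .n)) (.c k170 (.q k106 [(.s k87 k84 0 (.s k126 k66
  5 (.s k127 k64 6 (.s k67 k107 5 (.d k124 k125 k105 0 6))))), (.s k84 k87 0 (.s k126 k66 5 (.s k252
  k168 13 (.s k63 k189 8 (.s k21 k42 6 (.d k149 k213 k192 7 14)))))), (.s k64 k127 6 (.s k84 k87 0
  (.s k192 k128 7 (.s k149 k63 14 (.s k212 k23 8 (.d k252 k232 k168 5 13)))))), (.s k64 k127 6 (.s
  k66 k126 5 (.s k192 k128 7 (.s k3 k129 8 (.s k1 k2 0 (.d k169 k253 k252 13 14))))))] (.c k160 (.q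
  k165 [(.s k87 k84 0 (.s k126 k66 5 (.s k127 k64 6 (.s k67 k107 5 (.d k124 k125 k105 0 6))))), (.s
  k5 k245 11 (.s k15 k10 2 (.s k47 k224 10 (.s k63 k31 3 (.s k21 k42 6 (.d k149 k213 k192 7
  14))))))] .n) (.c k165 (.q k160 [(.s k87 k84 0 (.s k126 k66 5 (.s k127 k64 6 (.s k67 k107 5 (.d
  k124 k125 k105 0 6))))), (.s k80 k240 11 (.s k84 k87 0 (.s k90 k95 2 (.s k82 k94 1 (.s k83 k81 0
  (.d k92 k88 k89 1 2)))))), (.s k64 k127 6 (.s k80 k240 11 (.s k90 k95 2 (.s k74 k122 3 (.s k79 k69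
  2 (.d k112 k96 k101 3 6))))))] .n) .n))) (.c k252 (.q k17 [(.s k51 k34 4 (.s k153 k221 9 (.s k102
  k204 14 (.s k119 k68 4 (.d k255 k187 k170 9 14))))), (.s k87 k84 0 (.s k153 k221 9 (.s k19 k220 10
  (.s k16 k18 0 (.d k223 k155 k154 9 10))))), (.s k51 k34 4 (.s k87 k84 0 (.s k255 k170 14 (.s k3
  k171 13 (.s k19 k35 3 (.s k16 k18 0 (.d k223 k155 k154 9 10)))))))] .n) (.c k254 (.l (.s k87 k84 0
  (.s k255 k170 14 (.s k3 k171 13 (.s k1 k2 0 (.d k169 k253 k252 13 14)))))) (.c k255 (.q k80 [(.s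
  k87 k84 0 (.s k95 k90 2 (.s k83 k91 1 (.s k81 k82 0 (.d k89 k93 k92 1 2))))), (.s k84 k87 0 (.s
  k88 k92 1 (.s k168 k252 13 (.s k8 k248 11 (.s k12 k4 1 (.d k240 k160 k164 11 13)))))), (.s k84 k87
  0 (.s k240 k160 11 (.s k252 k168 13 (.s k3 k169 14 (.s k82 k161 12 (.d k90 k95 k94 2 1))))))] (.c
  k15 (.l (.s k95 k90 2 (.s k84 k87 0 (.s k92 k88 1 (.s k89 k83 2 (.d k93 k94 k81 0 1)))))) (.c k84
  (.q k82 [(.d k90 k95 k94 2 1), (.s k240 k160 11 (.s k3 k161 12 (.s k1 k2 0 (.d k169 k253 k252 13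
  14))))] (.c k15 (.l (.s k95 k90 2 (.s k240 k160 11 (.s k3 k161 12 (.s k1 k2 0 (.d k169 k253 k252
  13 14)))))) (.c k95 (.q k15 [(.s k240 k160 11 (.d k90 k165 k94 14 1)), (.s k81 k83 0 (.s k89 k93 1
  (.s k243 k162 12 (.s k91 k167 13 (.d k90 k94 k88 1 0))))), (.s k240 k160 11 (.s k3 k161 12 (.s k1
  k2 0 (.d k169 k253 k252 13 14))))] .n) .n))) (.c k87 (.f k95 k90 2 (.q k3 [(.s k1 k2 0 (.d k169
  k253 k252 13 14)), (.s k252 k169 14 (.s k84 k168 13 (.s k92 k88 1 (.s k89 k83 2 (.d k93 k94 k81 0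
  1))))), (.s k2 k1 0 (.s k240 k160 11 (.s k82 k161 12 (.s k81 k83 0 (.d k162 k242 k243 11 12)))))]
  (.c k167 (.q k247 [(.s k1 k2 0 (.d k169 k253 k252 13 14)), (.s k4 k166 12 (.s k12 k8 1 (.s k252
  k169 14 (.s k84 k168 13 (.d k92 k88 k172 1 11))))), (.s k2 k1 0 (.s k240 k160 11 (.s k82 k161 12
  (.s k81 k83 0 (.d k162 k242 k243 11 12)))))] (.c k163 (.q k171 [(.s k1 k2 0 (.d k169 k253 k252 13
  14)), (.s k252 k169 14 (.s k84 k168 13 (.s k92 k88 1 (.s k89 k83 2 (.d k93 k94 k81 0 1))))), (.s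
  k2 k1 0 (.s k240 k160 11 (.s k82 k161 12 (.s k162 k242 11 (.d k81 k83 k243 0 12)))))] .n) (.c k171
  (.q k163 [(.s k1 k2 0 (.d k169 k253 k252 13 14)), (.s k83 k243 11 (.s k81 k82 0 (.d k89 k93 k92 1
  2)))] .n) .n))) (.c k247 (.q k167 [(.s k1 k2 0 (.d k169 k253 k252 13 14)), (.s k252 k169 14 (.s
  k84 k168 13 (.s k92 k88 1 (.s k89 k83 2 (.d k93 k94 k81 0 1))))), (.s k2 k1 0 (.s k240 k160 11 (.s
  k82 k161 12 (.s k81 k83 0 (.d k162 k243 k242 12 11)))))] (.c k243 (.q k251 [(.s k1 k2 0 (.d k169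
  k253 k252 13 14)), (.s k252 k169 14 (.s k84 k168 13 (.s k92 k88 1 (.s k89 k83 2 (.d k93 k94 k81 0
  1))))), (.s k2 k1 0 (.s k240 k160 11 (.s k82 k161 12 (.s k81 k83 0 (.s k89 k93 1 (.d k170 k8 k254
  12 13))))))] .n) (.c k251 (.q k243 [(.s k1 k2 0 (.d k169 k253 k252 13 14)), (.s k81 k162 12 (.d
  k83 k82 k163 0 11))] .n) .n))) .n)))) (.c k95 (.q k15 [(.s k5 k10 2 (.s k165 k245 11 (.d k240 k160
  k90 11 14))), (.s k84 k87 0 (.s k92 k88 1 (.s k83 k89 2 (.s k82 k81 0 (.s k252 k168 13 (.d k94 k90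
  k173 1 12))))))] (.c k90 (.l (.s k5 k10 2 (.s k84 k87 0 (.s k165 k245 11 (.s k252 k168 13 (.s k173
  k94 12 (.d k169 k3 k161 14 1))))))) .n)) .n))))) .n))))))))))))

def t7_176 : T TT 256 :=
  (.f k255 k170 14 (.q k106 [(.s k64 k127 6 (.s k192 k128 7 (.s k149 k63 14 (.d k213 k234 k21 6
  7)))), (.s k127 k64 6 (.s k63 k191 7 (.s k149 k192 14 (.d k21 k42 k213 6 7))))] (.c k21 (.q k1
  [(.s k169 k253 13 (.s k3 k2 0 (.s k86 k252 14 (.d k87 k84 k171 0 13)))), (.s k64 k127 6 (.s k192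
  k128 7 (.s k213 k234 6 (.s k253 k169 13 (.s k193 k233 5 (.s k65 k129 7 (.d k195 k130 k194 8
  0))))))), (.s k3 k2 0 (.s k64 k127 6 (.s k192 k128 7 (.s k66 k129 8 (.s k86 k126 5 (.d k87 k84
  k171 0 13))))))] (.c k171 (.l (.s k3 k2 0 (.s k127 k64 6 (.s k63 k191 7 (.s k43 k23 5 (.d k169
  k232 k253 8 13)))))) .n)) (.c k63 (.q k1 [(.s k3 k2 0 (.s k87 k171 13 (.s k86 k84 0 (.d k169 k253
  k252 13 14)))), (.s k64 k127 6 (.s k192 k128 7 (.s k213 k234 6 (.s k253 k169 13 (.s k193 k233 5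
  (.s k65 k129 7 (.d k195 k130 k194 8 0))))))), (.s k3 k2 0 (.s k64 k127 6 (.s k192 k128 7 (.s k66
  k129 8 (.s k86 k126 5 (.d k87 k84 k171 0 13))))))] (.c k171 (.l (.s k3 k2 0 (.s k64 k127 6 (.s
  k169 k253 13 (.s k86 k252 14 (.s k192 k128 7 (.d k66 k126 k129 5 8))))))) .n)) (.c k64 (.q k195
  [(.s k65 k130 8 (.s k105 k125 5 (.s k150 k60 14 (.d k215 k235 k20 5 8)))), (.s k65 k130 8 (.s k105
  k125 5 (.s k107 k104 0 (.s k63 k151 13 (.s k21 k42 6 (.d k149 k213 k192 7 14)))))), (.s k215 k235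
  5 (.s k150 k20 8 (.s k194 k62 13 (.s k192 k193 0 (.s k149 k63 14 (.d k213 k234 k21 6 7))))))] (.c
  k105 (.q k107 [(.s k63 k151 13 (.s k21 k42 6 (.d k149 k213 k192 7 14))), (.s k235 k215 5 (.s k43
  k171 7 (.s k169 k232 8 (.s k253 k1 13 (.s k252 k254 0 (.s k84 k168 13 (.d k86 k87 k3 0 14)))))))]
  (.c k40 (.l (.s k235 k215 5 (.s k63 k151 13 (.s k21 k42 6 (.d k149 k213 k192 7 14))))) (.c k235
  (.q k40 [(.s k63 k151 13 (.s k21 k42 6 (.d k149 k213 k192 7 14))), (.s k20 k60 5 (.s k151 k63 13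
  (.s k215 k150 8 (.s k87 k23 7 (.s k3 k171 13 (.d k67 k127 k131 5 7))))))] (.c k63 (.q k1 [(.s k3
  k2 0 (.s k67 k131 7 (.d k87 k127 k171 5 13))), (.s k20 k60 5 (.s k65 k130 8 (.s k150 k215 8 (.s
  k193 k129 7 (.d k194 k62 k192 13 0)))))] (.c k131 (.l (.s k3 k2 0 (.s k87 k171 13 (.s k86 k84 0
  (.d k169 k253 k252 13 14))))) .n)) (.c k151 (.l (.s k20 k60 5 (.s k150 k215 8 (.s k194 k62 13 (.s
  k192 k193 0 (.s k213 k234 6 (.d k149 k63 k21 14 7))))))) .n))) .n))) (.c k150 (.q k194 [(.s k192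
  k193 0 (.s k149 k63 14 (.d k213 k234 k21 6 7))), (.s k130 k65 8 (.s k66 k2 7 (.s k86 k126 5 (.s
  k84 k87 0 (.s k252 k168 13 (.s k169 k3 14 (.d k253 k254 k1 0 13)))))))] (.c k130 (.q k190 [(.s
  k192 k193 0 (.s k149 k63 14 (.d k213 k234 k21 6 7))), (.s k60 k125 8 (.s k192 k193 0 (.s k104 k148
  13 (.s k107 k105 0 (.d k63 k151 k149 13 14))))), (.s k192 k193 0 (.s k234 k213 6 (.s k214 k254 5
  (.s k233 k252 6 (.d k235 k232 k215 0 5)))))] (.c k192 (.q k1 [(.s k3 k2 0 (.s k87 k171 13 (.s k169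
  k253 13 (.d k86 k84 k252 0 14)))), (.s k3 k2 0 (.s k60 k125 8 (.s k40 k20 5 (.s k41 k22 6 (.s k42
  k43 0 (.d k21 k61 k63 5 6)))))), (.s k125 k60 8 (.s k65 k105 5 (.s k193 k129 7 (.s k253 k169 13
  (.s k233 k213 5 (.d k252 k254 k214 0 6))))))] (.c k3 (.l (.s k125 k60 8 (.s k65 k105 5 (.s k253
  k169 13 (.s k252 k254 0 (.s k233 k214 6 (.d k193 k213 k129 5 7))))))) (.c k254 (.l (.s k169 k253
  13 (.s k3 k2 0 (.s k86 k252 14 (.d k87 k84 k171 0 13))))) .n))) (.c k193 (.l (.s k125 k60 8 (.s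
  k105 k65 5 (.s k107 k104 0 (.s k63 k151 13 (.s k21 k42 6 (.d k149 k192 k213 14 7))))))) .n))) (.c
  k190 (.l (.s k130 k65 8 (.s k192 k193 0 (.s k149 k63 14 (.d k213 k234 k21 6 7))))) .n))) .n))) (.c
  k127 (.q k195 [(.s k65 k130 8 (.s k215 k235 5 (.s k150 k20 8 (.d k105 k125 k60 5 14)))), (.s k65
  k130 8 (.s k105 k125 5 (.s k107 k104 0 (.s k63 k151 13 (.s k21 k42 6 (.d k149 k213 k192 7
  14)))))), (.s k215 k235 5 (.s k150 k20 8 (.s k194 k62 13 (.s k192 k193 0 (.s k149 k63 14 (.d k213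
  k234 k21 6 7))))))] (.c k105 (.q k149 [(.s k21 k213 7 (.d k63 k42 k192 6 14)), (.s k63 k192 14 (.s
  k151 k107 13 (.s k150 k148 0 (.d k215 k235 k20 5 8))))] (.c k40 (.l (.s k235 k215 5 (.s k21 k213 7
  (.d k63 k42 k192 6 14)))) (.c k63 (.l (.s k213 k21 7 (.s k192 k234 6 (.s k194 k193 0 (.s k150 k62
  13 (.d k215 k235 k20 5 8)))))) (.c k192 (.l (.s k21 k213 7 (.s k63 k42 6 (.s k151 k107 13 (.s k150
  k148 0 (.d k215 k235 k20 5 8)))))) (.c k235 (.q k40 [(.s k21 k213 7 (.d k63 k42 k192 6 14)), (.s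
  k20 k60 5 (.s k63 k192 14 (.s k150 k215 8 (.d k151 k148 k107 0 13))))] (.c k63 (.l (.s k20 k60 5
  (.s k150 k215 8 (.s k213 k21 7 (.s k192 k234 6 (.d k194 k62 k193 13 0)))))) (.c k192 (.l (.s k20
  k60 5 (.s k21 k213 7 (.s k63 k42 6 (.s k150 k215 8 (.d k151 k148 k107 0 13)))))) .n))) .n))))) (.c
  k150 (.q k149 [(.s k21 k213 7 (.d k63 k42 k192 6 14)), (.s k63 k192 14 (.s k107 k151 13 (.s k105
  k104 0 (.d k65 k130 k125 8 5))))] (.c k63 (.l (.s k213 k21 7 (.s k192 k234 6 (.s k193 k194 0 (.s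
  k105 k61 13 (.d k65 k125 k130 5 8)))))) (.c k130 (.q k190 [(.s k21 k213 7 (.d k63 k42 k192 6 14)),
  (.s k63 k192 14 (.s k107 k151 13 (.s k105 k104 0 (.d k125 k60 k65 8 5))))] (.c k63 (.l (.s k125
  k60 8 (.s k105 k65 5 (.s k213 k21 7 (.s k192 k234 6 (.d k193 k61 k194 13 0)))))) (.c k192 (.l (.s
  k21 k213 7 (.s k63 k42 6 (.s k107 k151 13 (.s k105 k104 0 (.d k125 k60 k65 8 5)))))) .n))) (.c
  k190 (.l (.s k130 k65 8 (.s k21 k213 7 (.d k63 k42 k192 6 14)))) (.c k192 (.l (.s k21 k213 7 (.s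
  k63 k42 6 (.s k107 k151 13 (.s k105 k104 0 (.d k65 k125 k130 5 8)))))) .n))))) .n))) (.c k128 (.l
  (.s k127 k64 6 (.s k63 k191 7 (.s k149 k192 14 (.d k21 k42 k213 6 7))))) (.c k149 (.f k64 k127 6
  (.f k128 k192 7 (.q k65 [(.s k105 k125 5 (.s k104 k107 0 (.s k124 k84 5 (.d k67 k66 k86 0 6)))),
  (.s k195 k130 8 (.s k215 k235 5 (.s k150 k20 8 (.d k105 k125 k60 5 14)))), (.s k67 k66 0 (.s k195
  k130 8 (.s k3 k131 7 (.s k87 k171 13 (.s k86 k84 0 (.s k169 k252 14 (.d k1 k2 k253 0 13)))))))]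
  .n))) (.c k191 (.l (.s k64 k127 6 (.s k192 k128 7 (.s k149 k63 14 (.d k213 k234 k21 6 7))))) (.c
  k192 (.q k1 [(.s k3 k2 0 (.s k87 k171 13 (.s k86 k84 0 (.d k169 k253 k252 13 14)))), (.s k127 k64
  6 (.s k63 k191 7 (.s k21 k42 6 (.s k61 k41 5 (.s k253 k169 13 (.s k125 k189 7 (.d k60 k190 k62 8
  0))))))), (.s k3 k2 0 (.s k127 k64 6 (.s k63 k191 7 (.s k21 k42 6 (.s k23 k43 5 (.s k22 k20 0 (.d
  k41 k61 k60 5 6)))))))] .n) (.c k213 (.q k1 [(.s k3 k2 0 (.s k87 k171 13 (.s k86 k84 0 (.d k169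
  k253 k252 13 14)))), (.s k64 k127 6 (.s k169 k253 13 (.s k192 k128 7 (.s k149 k63 14 (.s k129 k189
  5 (.s k66 k3 8 (.d k65 k193 k67 7 0))))))), (.s k3 k2 0 (.s k64 k127 6 (.s k192 k128 7 (.s k66
  k129 8 (.s k86 k126 5 (.d k87 k84 k171 0 13))))))] (.c k3 (.l (.s k127 k64 6 (.s k63 k191 7 (.s
  k21 k42 6 (.s k61 k41 5 (.s k60 k62 0 (.s k125 k190 8 (.d k253 k189 k169 7 13)))))))) .n))
  .n)))))))))))

def t7_177 : T TT 256 :=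
  (.f k255 k170 14 (.q k89 [(.s k81 k93 1 (.s k243 k162 12 (.s k166 k12 14 (.d k247 k251 k4 1
  12))))] (.c k4 (.q k5 [(.s k15 k10 2 (.s k95 k175 11 (.s k90 k80 2 (.d k165 k245 k240 11 14)))),
  (.s k93 k81 1 (.s k165 k245 11 (.s k13 k241 13 (.s k1 k9 1 (.d k253 k173 k169 11 13))))), (.s k15
  k10 2 (.s k81 k93 1 (.s k243 k162 12 (.s k91 k167 13 (.s k90 k88 0 (.d k95 k80 k175 2 11))))))]
  .n) (.c k12 (.q k1 [(.s k3 k2 0 (.s k87 k171 13 (.s k86 k84 0 (.d k169 k253 k252 13 14)))), (.s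
  k81 k93 1 (.s k169 k253 13 (.s k9 k249 11 (.s k13 k5 1 (.d k241 k161 k165 11 13))))), (.s k3 k2 0
  (.s k81 k93 1 (.s k161 k241 11 (.s k82 k240 12 (.s k83 k80 0 (.d k243 k163 k162 11 12))))))] .n)
  (.c k81 (.q k69 [(.s k101 k117 3 (.s k207 k138 10 (.s k154 k48 14 (.d k223 k239 k16 3 10)))), (.s
  k101 k117 3 (.s k77 k113 5 (.s k65 k73 1 (.s k195 k130 8 (.s k215 k235 5 (.s k150 k20 8 (.d k105
  k125 k60 5 14)))))))] (.c k101 (.f k207 k138 10 (.q k154 [(.d k223 k239 k16 3 10), (.s k219 k24 8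
  (.s k243 k231 5 (.s k166 k12 14 (.d k247 k251 k4 1 12))))] (.c k32 (.l (.s k239 k223 3 (.s k219
  k24 8 (.s k243 k231 5 (.s k166 k12 14 (.d k247 k251 k4 1 12)))))) (.c k239 (.q k32 [(.d k16 k48
  k223 3 10), (.s k219 k24 8 (.s k243 k231 5 (.s k247 k251 1 (.d k166 k4 k12 12 14))))] .n) .n))))
  (.c k117 (.l (.s k207 k138 10 (.s k223 k239 3 (.s k154 k16 10 (.s k219 k24 8 (.s k243 k231 5 (.s
  k166 k12 14 (.d k247 k251 k4 1 12)))))))) .n))) (.c k93 (.q k21 [(.s k149 k213 7 (.s k63 k42 6 (.s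
  k106 k192 14 (.d k127 k64 k191 6 7)))), (.s k149 k213 7 (.s k29 k209 9 (.s k17 k25 1 (.s k51 k34 4
  (.s k119 k187 9 (.s k102 k68 4 (.d k153 k221 k204 9 14)))))))] (.c k149 (.f k63 k42 6 (.q k106
  [(.d k127 k191 k64 7 6), (.s k123 k72 4 (.s k243 k183 9 (.s k166 k12 14 (.d k247 k251 k4 1 12))))]
  (.c k128 (.l (.s k191 k127 7 (.s k123 k72 4 (.s k243 k183 9 (.s k166 k12 14 (.d k247 k251 k4 1
  12)))))) (.c k191 (.q k128 [(.d k64 k127 k192 6 7), (.s k123 k72 4 (.s k243 k183 9 (.s k247 k251 1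
  (.d k166 k4 k12 12 14))))] .n) .n)))) (.c k213 (.l (.s k63 k42 6 (.s k127 k191 7 (.s k106 k64 6
  (.s k123 k72 4 (.s k243 k183 9 (.s k166 k12 14 (.d k247 k251 k4 1 12)))))))) .n))) (.c k162 (.l
  (.s k93 k81 1 (.s k12 k174 12 (.s k166 k243 14 (.d k4 k8 k247 1 12))))) (.c k166 (.f k81 k93 1 (.q
  k83 [(.s k80 k82 0 (.s k86 k92 2 (.s k87 k84 0 (.d k95 k91 k90 1 2)))), (.s k80 k82 0 (.s k240
  k160 11 (.s k245 k250 2 (.s k165 k5 11 (.s k241 k13 13 (.d k243 k162 k242 12 0)))))), (.s k86 k92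
  2 (.s k84 k87 0 (.s k252 k168 13 (.s k169 k3 14 (.d k253 k254 k1 0 13)))))] (.c k162 (.q k174 [(.s
  k86 k92 2 (.s k87 k84 0 (.s k95 k91 1 (.d k80 k82 k90 0 2)))), (.s k80 k82 0 (.s k240 k160 11 (.s
  k245 k250 2 (.s k165 k5 11 (.d k90 k95 k15 2 14))))), (.s k86 k92 2 (.s k84 k87 0 (.s k252 k168 13
  (.s k169 k3 14 (.d k253 k254 k1 0 13)))))] (.c k95 (.l (.s k82 k80 0 (.s k86 k92 2 (.s k94 k90 1
  (.s k84 k87 0 (.s k252 k168 13 (.d k254 k14 k253 11 0))))))) .n)) (.c k174 (.l (.s k162 k243 12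
  (.s k80 k82 0 (.s k86 k92 2 (.s k87 k84 0 (.d k95 k91 k90 1 2)))))) .n)))) (.c k174 (.l (.s k81
  k93 1 (.s k243 k162 12 (.s k166 k12 14 (.d k247 k251 k4 1 12))))) (.c k243 (.q k1 [(.s k3 k2 0 (.s
  k87 k171 13 (.s k86 k84 0 (.d k169 k253 k252 13 14)))), (.s k81 k93 1 (.s k169 k253 13 (.s k9 k249
  11 (.s k13 k5 1 (.d k241 k161 k165 11 13))))), (.s k3 k2 0 (.s k93 k81 1 (.s k12 k174 12 (.s k8 k4
  1 (.s k9 k6 2 (.s k5 k13 1 (.d k10 k11 k15 0 2)))))))] .n) (.c k247 (.q k87 [(.s k86 k84 0 (.s k3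
  k171 13 (.s k169 k252 14 (.d k1 k2 k253 0 13)))), (.s k81 k93 1 (.s k86 k84 0 (.s k83 k92 2 (.s
  k80 k82 0 (.d k95 k91 k90 1 2))))), (.s k3 k171 13 (.s k81 k93 1 (.s k243 k162 12 (.s k83 k163 11
  (.s k80 k82 0 (.d k95 k91 k90 1 2))))))] .n) (.c k251 (.l (.s k93 k81 1 (.s k12 k174 12 (.s k4 k8
  1 (.d k166 k247 k243 12 14))))) .n))))))))))))

def t7_178 : T TT 256 :=
  (.f k255 k170 14 (.q k106 [(.s k64 k127 6 (.s k192 k128 7 (.s k149 k63 14 (.d k213 k234 k21 6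
  7))))] (.c k21 (.q k1 [(.s k169 k253 13 (.s k3 k2 0 (.s k86 k252 14 (.d k87 k84 k171 0 13)))), (.s
  k64 k127 6 (.s k192 k128 7 (.s k213 k234 6 (.s k253 k169 13 (.s k193 k233 5 (.s k65 k129 7 (.d
  k195 k130 k194 8 0))))))), (.s k3 k2 0 (.s k64 k127 6 (.s k192 k128 7 (.s k66 k129 8 (.s k86 k126
  5 (.d k87 k84 k171 0 13))))))] (.c k171 (.l (.s k3 k2 0 (.s k127 k64 6 (.s k63 k191 7 (.s k43 k23
  5 (.d k169 k232 k253 8 13)))))) .n)) (.c k63 (.q k1 [(.s k3 k2 0 (.s k87 k171 13 (.s k86 k84 0 (.d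
  k169 k253 k252 13 14)))), (.s k64 k127 6 (.s k192 k128 7 (.s k213 k234 6 (.s k253 k169 13 (.s k193
  k233 5 (.s k65 k129 7 (.d k195 k130 k194 8 0))))))), (.s k3 k2 0 (.s k64 k127 6 (.s k192 k128 7
  (.s k66 k129 8 (.s k86 k126 5 (.d k87 k84 k171 0 13))))))] (.c k171 (.l (.s k3 k2 0 (.s k64 k127 6
  (.s k169 k253 13 (.s k86 k252 14 (.s k192 k128 7 (.d k66 k126 k129 5 8))))))) .n)) (.c k64 (.q
  k195 [(.s k215 k235 5 (.s k150 k20 8 (.s k105 k60 14 (.d k65 k125 k130 5 8)))), (.s k65 k130 8 (.s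
  k105 k125 5 (.s k107 k104 0 (.s k63 k151 13 (.s k21 k42 6 (.d k149 k213 k192 7 14)))))), (.s k215
  k235 5 (.s k150 k20 8 (.s k194 k62 13 (.s k192 k193 0 (.s k149 k63 14 (.d k213 k234 k21 6 7))))))]
  (.c k105 (.q k193 [(.s k194 k192 0 (.s k150 k62 13 (.d k215 k235 k20 5 8))), (.s k65 k130 8 (.s k1
  k129 7 (.s k253 k169 13 (.s k233 k213 5 (.d k252 k254 k214 0 6)))))] (.c k40 (.l (.s k235 k215 5
  (.s k192 k194 0 (.s k149 k63 14 (.d k213 k234 k21 6 7))))) (.c k150 (.l (.s k192 k194 0 (.s k149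
  k63 14 (.d k213 k234 k21 6 7)))) (.c k235 (.q k40 [(.s k20 k60 5 (.s k150 k215 8 (.d k194 k192 k62
  0 13))), (.s k65 k130 8 (.s k1 k129 7 (.s k253 k169 13 (.s k233 k213 5 (.d k252 k254 k214 0
  6)))))] (.c k150 (.l (.s k192 k194 0 (.s k149 k63 14 (.d k213 k234 k21 6 7)))) .n)) .n)))) (.c
  k150 (.f k130 k65 8 (.q k66 [(.s k2 k194 7 (.s k3 k1 0 (.s k129 k192 8 (.d k131 k128 k67 0 7)))),
  (.s k86 k126 5 (.s k84 k87 0 (.s k252 k168 13 (.s k169 k3 14 (.d k253 k254 k1 0 13)))))] (.c k1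
  (.l (.s k86 k126 5 (.s k87 k84 0 (.s k3 k171 13 (.s k129 k192 8 (.d k131 k128 k67 0 7)))))) (.c k3
  (.l (.s k194 k2 7 (.s k192 k193 0 (.s k149 k63 14 (.d k213 k234 k21 6 7))))) .n)))) .n))) (.c k127
  (.q k195 [(.s k215 k235 5 (.s k150 k20 8 (.s k105 k60 14 (.d k65 k125 k130 5 8)))), (.s k65 k130 8
  (.s k105 k125 5 (.s k107 k104 0 (.s k63 k151 13 (.s k21 k42 6 (.d k149 k213 k192 7 14)))))), (.s
  k215 k235 5 (.s k150 k20 8 (.s k194 k62 13 (.s k192 k193 0 (.s k149 k63 14 (.d k213 k234 k21 6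
  7))))))] (.c k105 (.q k149 [(.s k21 k213 7 (.d k63 k42 k192 6 14)), (.s k63 k192 14 (.s k151 k107
  13 (.s k150 k148 0 (.d k215 k235 k20 5 8))))] (.c k40 (.l (.s k235 k215 5 (.s k21 k213 7 (.d k63
  k42 k192 6 14)))) (.c k63 (.l (.s k213 k21 7 (.s k192 k234 6 (.s k194 k193 0 (.s k150 k62 13 (.d
  k215 k235 k20 5 8)))))) (.c k192 (.l (.s k21 k213 7 (.s k63 k42 6 (.s k151 k107 13 (.s k150 k148 0
  (.d k215 k235 k20 5 8)))))) (.c k235 (.q k40 [(.s k21 k213 7 (.d k63 k42 k192 6 14)), (.s k20 k60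
  5 (.s k63 k192 14 (.s k150 k215 8 (.d k151 k148 k107 0 13))))] (.c k63 (.l (.s k20 k60 5 (.s k150
  k215 8 (.s k213 k21 7 (.s k192 k234 6 (.d k194 k62 k193 13 0)))))) (.c k192 (.l (.s k20 k60 5 (.s
  k21 k213 7 (.s k63 k42 6 (.s k150 k215 8 (.d k151 k148 k107 0 13)))))) .n))) .n))))) (.c k150 (.f
  k130 k65 8 (.q k1 [(.s k169 k253 13 (.s k3 k2 0 (.s k86 k252 14 (.d k87 k84 k171 0 13)))), (.s k2
  k3 0 (.s k194 k66 7 (.s k192 k193 0 (.s k149 k63 14 (.d k213 k234 k21 6 7))))), (.s k169 k253 13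
  (.s k43 k232 8 (.s k235 k215 5 (.s k107 k171 7 (.s k63 k151 13 (.s k21 k42 6 (.d k149 k213 k192 7
  14)))))))] .n)) .n))) (.c k128 (.l (.s k127 k64 6 (.s k63 k191 7 (.s k149 k192 14 (.d k21 k42 k213
  6 7))))) (.c k149 (.f k127 k64 6 (.q k90 [(.s k80 k95 2 (.s k122 k74 3 (.s k240 k160 11 (.d k63
  k191 k181 7 10)))), (.s k122 k74 3 (.s k117 k112 2 (.s k48 k186 10 (.s k16 k32 3 (.s k154 k223 10
  (.d k101 k69 k207 3 14)))))), (.s k80 k95 2 (.s k240 k160 11 (.s k165 k15 14 (.d k245 k250 k5 2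
  11))))] (.c k80 (.l (.s k122 k74 3 (.s k112 k117 2 (.s k79 k101 6 (.s k95 k111 3 (.s k15 k175 11
  (.s k5 k10 2 (.d k165 k245 k240 11 14)))))))) (.c k128 (.l (.s k191 k63 7 (.s k80 k95 2 (.s k240
  k160 11 (.s k165 k15 14 (.d k245 k250 k5 2 11)))))) (.c k191 (.q k128 [(.s k80 k95 2 (.s k240 k160
  11 (.s k245 k250 2 (.d k165 k5 k15 11 14)))), (.s k122 k74 3 (.s k117 k112 2 (.s k48 k186 10 (.s
  k16 k32 3 (.s k154 k223 10 (.d k101 k69 k207 3 14))))))] (.c k80 (.l (.s k122 k74 3 (.s k112 k117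
  2 (.s k79 k101 6 (.s k95 k111 3 (.s k15 k175 11 (.s k5 k10 2 (.d k165 k245 k240 11 14)))))))) .n))
  .n))))) (.c k191 (.l (.s k64 k127 6 (.s k192 k128 7 (.s k149 k63 14 (.d k213 k234 k21 6 7))))) (.c
  k192 (.q k1 [(.s k3 k2 0 (.s k87 k171 13 (.s k86 k84 0 (.d k169 k253 k252 13 14)))), (.s k127 k64
  6 (.s k63 k191 7 (.s k21 k42 6 (.s k61 k41 5 (.s k253 k169 13 (.s k125 k189 7 (.d k60 k190 k62 8
  0))))))), (.s k3 k2 0 (.s k127 k64 6 (.s k63 k191 7 (.s k21 k42 6 (.s k23 k43 5 (.s k22 k20 0 (.d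
  k41 k61 k60 5 6)))))))] .n) (.c k213 (.q k1 [(.s k3 k2 0 (.s k87 k171 13 (.s k86 k84 0 (.d k169
  k253 k252 13 14)))), (.s k64 k127 6 (.s k169 k253 13 (.s k192 k128 7 (.s k149 k63 14 (.s k129 k189
  5 (.s k66 k3 8 (.d k65 k193 k67 7 0))))))), (.s k3 k2 0 (.s k64 k127 6 (.s k192 k128 7 (.s k66
  k129 8 (.s k86 k126 5 (.d k87 k84 k171 0 13))))))] (.c k3 (.l (.s k127 k64 6 (.s k63 k191 7 (.s
  k21 k42 6 (.s k61 k41 5 (.s k60 k62 0 (.s k125 k190 8 (.d k253 k189 k169 7 13)))))))) .n)) (.c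
  k234 (.l (.s k127 k64 6 (.s k63 k191 7 (.s k21 k42 6 (.d k149 k213 k192 7 14))))) .n))))))))))))

def t7_179 : T TT 256 :=
  (.f k255 k170 14 (.q k106 [(.s k64 k127 6 (.s k192 k128 7 (.s k149 k63 14 (.d k213 k234 k21 6
  7)))), (.s k127 k64 6 (.s k63 k191 7 (.s k149 k192 14 (.d k21 k42 k213 6 7))))] (.c k21 (.q k1
  [(.s k169 k253 13 (.s k3 k2 0 (.s k86 k252 14 (.d k87 k84 k171 0 13)))), (.s k64 k127 6 (.s k192
  k128 7 (.s k213 k234 6 (.s k253 k169 13 (.s k193 k233 5 (.s k65 k129 7 (.d k195 k130 k194 8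
  0))))))), (.s k3 k2 0 (.s k64 k127 6 (.s k192 k128 7 (.s k66 k129 8 (.s k86 k126 5 (.d k87 k84
  k171 0 13))))))] (.c k171 (.l (.s k3 k2 0 (.s k127 k64 6 (.s k63 k191 7 (.s k43 k23 5 (.d k169
  k232 k253 8 13)))))) .n)) (.c k63 (.q k1 [(.s k3 k2 0 (.s k87 k171 13 (.s k86 k84 0 (.d k169 k253
  k252 13 14)))), (.s k64 k127 6 (.s k192 k128 7 (.s k213 k234 6 (.s k253 k169 13 (.s k193 k233 5
  (.s k65 k129 7 (.d k195 k130 k194 8 0))))))), (.s k3 k2 0 (.s k64 k127 6 (.s k192 k128 7 (.s k66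
  k129 8 (.s k86 k126 5 (.d k87 k84 k171 0 13))))))] (.c k171 (.l (.s k3 k2 0 (.s k64 k127 6 (.s
  k169 k253 13 (.s k86 k252 14 (.s k192 k128 7 (.d k66 k126 k129 5 8))))))) .n)) (.c k64 (.q k195
  [(.s k65 k130 8 (.s k105 k125 5 (.s k150 k60 14 (.d k215 k235 k20 5 8)))), (.s k65 k130 8 (.s k105
  k125 5 (.s k107 k104 0 (.s k63 k151 13 (.s k21 k42 6 (.d k149 k213 k192 7 14)))))), (.s k215 k235
  5 (.s k150 k20 8 (.s k194 k62 13 (.s k192 k193 0 (.s k149 k63 14 (.d k213 k234 k21 6 7))))))] (.c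
  k105 (.q k107 [(.s k63 k151 13 (.s k21 k42 6 (.d k149 k213 k192 7 14))), (.s k235 k215 5 (.s k43
  k171 7 (.s k169 k232 8 (.s k253 k1 13 (.s k252 k254 0 (.s k84 k168 13 (.d k86 k87 k3 0 14)))))))]
  (.c k40 (.l (.s k235 k215 5 (.s k63 k151 13 (.s k21 k42 6 (.d k149 k213 k192 7 14))))) (.c k235
  (.q k40 [(.s k63 k151 13 (.s k21 k42 6 (.d k149 k213 k192 7 14))), (.s k20 k60 5 (.s k151 k63 13
  (.s k215 k150 8 (.s k87 k23 7 (.s k3 k171 13 (.d k67 k127 k131 5 7))))))] (.c k63 (.q k1 [(.s k3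
  k2 0 (.s k67 k131 7 (.d k87 k127 k171 5 13))), (.s k20 k60 5 (.s k65 k130 8 (.s k150 k215 8 (.s
  k193 k129 7 (.d k194 k62 k192 13 0)))))] (.c k131 (.l (.s k3 k2 0 (.s k87 k171 13 (.s k86 k84 0
  (.d k169 k253 k252 13 14))))) .n)) (.c k151 (.l (.s k20 k60 5 (.s k150 k215 8 (.s k194 k62 13 (.s
  k192 k193 0 (.s k213 k234 6 (.d k149 k63 k21 14 7))))))) .n))) .n))) (.c k150 (.q k194 [(.s k192
  k193 0 (.s k149 k63 14 (.d k213 k234 k21 6 7))), (.s k130 k65 8 (.s k66 k2 7 (.s k86 k126 5 (.s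
  k84 k87 0 (.s k252 k168 13 (.s k169 k3 14 (.d k253 k254 k1 0 13)))))))] (.c k130 (.q k190 [(.s
  k192 k193 0 (.s k149 k63 14 (.d k213 k234 k21 6 7))), (.s k60 k125 8 (.s k192 k193 0 (.s k104 k148
  13 (.s k107 k105 0 (.d k63 k151 k149 13 14))))), (.s k192 k193 0 (.s k234 k213 6 (.s k214 k254 5
  (.s k233 k252 6 (.d k235 k232 k215 0 5)))))] (.c k192 (.q k1 [(.s k3 k2 0 (.s k87 k171 13 (.s k169
  k253 13 (.d k86 k84 k252 0 14)))), (.s k3 k2 0 (.s k60 k125 8 (.s k40 k20 5 (.s k41 k22 6 (.s k42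
  k43 0 (.d k21 k61 k63 5 6)))))), (.s k125 k60 8 (.s k65 k105 5 (.s k193 k129 7 (.s k253 k169 13
  (.s k233 k213 5 (.d k252 k254 k214 0 6))))))] (.c k3 (.l (.s k125 k60 8 (.s k65 k105 5 (.s k253
  k169 13 (.s k252 k254 0 (.s k233 k214 6 (.d k193 k213 k129 5 7))))))) (.c k254 (.l (.s k169 k253
  13 (.s k3 k2 0 (.s k86 k252 14 (.d k87 k84 k171 0 13))))) .n))) (.c k193 (.l (.s k125 k60 8 (.s
  k105 k65 5 (.s k107 k104 0 (.s k63 k151 13 (.s k21 k42 6 (.d k149 k192 k213 14 7))))))) .n))) (.c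
  k190 (.l (.s k130 k65 8 (.s k192 k193 0 (.s k149 k63 14 (.d k213 k234 k21 6 7))))) .n))) .n))) (.c
  k127 (.q k195 [(.s k65 k130 8 (.s k215 k235 5 (.s k150 k20 8 (.d k105 k125 k60 5 14)))), (.s k65
  k130 8 (.s k105 k125 5 (.s k107 k104 0 (.s k63 k151 13 (.s k21 k42 6 (.d k149 k213 k192 7
  14)))))), (.s k215 k235 5 (.s k150 k20 8 (.s k194 k62 13 (.s k192 k193 0 (.s k149 k63 14 (.d k213
  k234 k21 6 7))))))] (.c k105 (.q k149 [(.s k21 k213 7 (.d k63 k42 k192 6 14)), (.s k63 k192 14 (.s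
  k151 k107 13 (.s k150 k148 0 (.d k215 k235 k20 5 8))))] (.c k40 (.l (.s k235 k215 5 (.s k21 k213 7
  (.d k63 k42 k192 6 14)))) (.c k63 (.l (.s k213 k21 7 (.s k192 k234 6 (.s k194 k193 0 (.s k150 k62
  13 (.d k215 k235 k20 5 8)))))) (.c k192 (.l (.s k21 k213 7 (.s k63 k42 6 (.s k151 k107 13 (.s k150
  k148 0 (.d k215 k235 k20 5 8)))))) (.c k235 (.q k40 [(.s k21 k213 7 (.d k63 k42 k192 6 14)), (.s
  k20 k60 5 (.s k63 k192 14 (.s k150 k215 8 (.d k151 k148 k107 0 13))))] (.c k63 (.l (.s k20 k60 5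
  (.s k150 k215 8 (.s k213 k21 7 (.s k192 k234 6 (.d k194 k62 k193 13 0)))))) (.c k192 (.l (.s k20
  k60 5 (.s k21 k213 7 (.s k63 k42 6 (.s k150 k215 8 (.d k151 k148 k107 0 13)))))) .n))) .n))))) (.c
  k150 (.q k149 [(.s k21 k213 7 (.d k63 k42 k192 6 14)), (.s k63 k192 14 (.s k107 k151 13 (.s k105
  k104 0 (.d k65 k130 k125 8 5))))] (.c k63 (.l (.s k213 k21 7 (.s k192 k234 6 (.s k193 k194 0 (.s
  k105 k61 13 (.d k65 k125 k130 5 8)))))) (.c k130 (.q k190 [(.s k21 k213 7 (.d k63 k42 k192 6 14)),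
  (.s k63 k192 14 (.s k107 k151 13 (.s k105 k104 0 (.d k125 k60 k65 8 5))))] (.c k63 (.l (.s k125
  k60 8 (.s k105 k65 5 (.s k213 k21 7 (.s k192 k234 6 (.d k193 k61 k194 13 0)))))) (.c k192 (.l (.s
  k21 k213 7 (.s k63 k42 6 (.s k107 k151 13 (.s k105 k104 0 (.d k125 k60 k65 8 5)))))) .n))) (.c
  k190 (.l (.s k130 k65 8 (.s k21 k213 7 (.d k63 k42 k192 6 14)))) (.c k192 (.l (.s k21 k213 7 (.s
  k63 k42 6 (.s k107 k151 13 (.s k105 k104 0 (.d k65 k125 k130 5 8)))))) .n))))) .n))) (.c k128 (.l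
  (.s k127 k64 6 (.s k63 k191 7 (.s k149 k192 14 (.d k21 k42 k213 6 7))))) (.c k149 (.f k127 k64 6
  (.f k191 k63 7 (.q k86 [(.s k84 k87 0 (.s k252 k168 13 (.s k253 k254 0 (.d k169 k1 k3 13 14)))),
  (.s k126 k66 5 (.s k125 k124 0 (.s k60 k190 8 (.s k20 k40 5 (.s k150 k215 8 (.d k105 k65 k195 5
  14))))))] (.c k84 (.l (.s k126 k66 5 (.s k124 k125 0 (.s k67 k105 6 (.s k87 k107 5 (.s k3 k171 13
  (.s k1 k2 0 (.d k169 k253 k252 13 14)))))))) .n)))) (.c k191 (.l (.s k64 k127 6 (.s k192 k128 7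
  (.s k149 k63 14 (.d k213 k234 k21 6 7))))) (.c k192 (.q k1 [(.s k3 k2 0 (.s k87 k171 13 (.s k86
  k84 0 (.d k169 k253 k252 13 14)))), (.s k127 k64 6 (.s k63 k191 7 (.s k21 k42 6 (.s k61 k41 5 (.s
  k253 k169 13 (.s k125 k189 7 (.d k60 k190 k62 8 0))))))), (.s k3 k2 0 (.s k127 k64 6 (.s k63 k191
  7 (.s k21 k42 6 (.s k23 k43 5 (.s k22 k20 0 (.d k41 k61 k60 5 6)))))))] .n) (.c k213 (.q k1 [(.s
  k3 k2 0 (.s k87 k171 13 (.s k86 k84 0 (.d k169 k253 k252 13 14)))), (.s k64 k127 6 (.s k169 k253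
  13 (.s k192 k128 7 (.s k149 k63 14 (.s k129 k189 5 (.s k66 k3 8 (.d k65 k193 k67 7 0))))))), (.s
  k3 k2 0 (.s k64 k127 6 (.s k192 k128 7 (.s k66 k129 8 (.s k86 k126 5 (.d k87 k84 k171 0 13))))))]
  (.c k3 (.l (.s k127 k64 6 (.s k63 k191 7 (.s k21 k42 6 (.s k61 k41 5 (.s k60 k62 0 (.s k125 k190 8
  (.d k253 k189 k169 7 13)))))))) .n)) .n)))))))))))

def t7_180 : T TT 256 :=
  (.f k255 k170 14 (.q k89 [(.s k81 k93 1 (.s k243 k162 12 (.s k166 k12 14 (.d k247 k251 k4 1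
  12))))] (.c k4 (.q k5 [(.s k15 k10 2 (.s k95 k175 11 (.s k90 k80 2 (.d k165 k245 k240 11 14)))),
  (.s k93 k81 1 (.s k165 k245 11 (.s k13 k241 13 (.s k1 k9 1 (.d k253 k173 k169 11 13))))), (.s k15
  k10 2 (.s k81 k93 1 (.s k243 k162 12 (.s k91 k167 13 (.s k90 k88 0 (.d k95 k80 k175 2 11))))))]
  .n) (.c k12 (.q k1 [(.s k3 k2 0 (.s k87 k171 13 (.s k86 k84 0 (.d k169 k253 k252 13 14)))), (.s
  k81 k93 1 (.s k169 k253 13 (.s k9 k249 11 (.s k13 k5 1 (.d k241 k161 k165 11 13))))), (.s k3 k2 0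
  (.s k81 k93 1 (.s k161 k241 11 (.s k82 k240 12 (.s k83 k80 0 (.d k243 k163 k162 11 12))))))] .n)
  (.c k81 (.q k69 [(.s k101 k117 3 (.s k207 k138 10 (.s k154 k48 14 (.d k223 k239 k16 3 10)))), (.s
  k101 k117 3 (.s k77 k113 5 (.s k65 k73 1 (.s k195 k130 8 (.s k215 k235 5 (.s k150 k20 8 (.d k105
  k125 k60 5 14)))))))] (.c k101 (.f k207 k138 10 (.q k154 [(.d k223 k239 k16 3 10), (.s k219 k24 8
  (.s k243 k231 5 (.s k166 k12 14 (.d k247 k251 k4 1 12))))] (.c k32 (.l (.s k239 k223 3 (.s k219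
  k24 8 (.s k243 k231 5 (.s k166 k12 14 (.d k247 k251 k4 1 12)))))) (.c k239 (.q k32 [(.d k16 k48
  k223 3 10), (.s k219 k24 8 (.s k243 k231 5 (.s k247 k251 1 (.d k166 k4 k12 12 14))))] .n) .n))))
  (.c k117 (.l (.s k207 k138 10 (.s k223 k239 3 (.s k154 k16 10 (.s k219 k24 8 (.s k243 k231 5 (.s
  k166 k12 14 (.d k247 k251 k4 1 12)))))))) .n))) (.c k93 (.q k21 [(.s k149 k213 7 (.s k63 k42 6 (.s
  k106 k192 14 (.d k127 k64 k191 6 7)))), (.s k149 k213 7 (.s k29 k209 9 (.s k17 k25 1 (.s k51 k34 4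
  (.s k119 k187 9 (.s k102 k68 4 (.d k153 k221 k204 9 14)))))))] (.c k149 (.f k63 k42 6 (.q k106
  [(.d k127 k191 k64 7 6), (.s k123 k72 4 (.s k243 k183 9 (.s k166 k12 14 (.d k247 k251 k4 1 12))))]
  (.c k128 (.l (.s k191 k127 7 (.s k123 k72 4 (.s k243 k183 9 (.s k166 k12 14 (.d k247 k251 k4 1
  12)))))) (.c k191 (.q k128 [(.d k64 k127 k192 6 7), (.s k123 k72 4 (.s k243 k183 9 (.s k247 k251 1
  (.d k166 k4 k12 12 14))))] .n) .n)))) (.c k213 (.l (.s k63 k42 6 (.s k127 k191 7 (.s k106 k64 6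
  (.s k123 k72 4 (.s k243 k183 9 (.s k166 k12 14 (.d k247 k251 k4 1 12)))))))) .n))) (.c k162 (.l
  (.s k93 k81 1 (.s k12 k174 12 (.s k166 k243 14 (.d k4 k8 k247 1 12))))) (.c k166 (.f k81 k93 1 (.q
  k83 [(.s k80 k82 0 (.s k86 k92 2 (.s k87 k84 0 (.d k95 k91 k90 1 2)))), (.s k80 k82 0 (.s k240
  k160 11 (.s k245 k250 2 (.s k165 k5 11 (.s k241 k13 13 (.d k243 k162 k242 12 0)))))), (.s k86 k92
  2 (.s k84 k87 0 (.s k252 k168 13 (.s k169 k3 14 (.d k253 k254 k1 0 13)))))] (.c k162 (.q k174 [(.s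
  k86 k92 2 (.s k87 k84 0 (.s k95 k91 1 (.d k80 k82 k90 0 2)))), (.s k80 k82 0 (.s k240 k160 11 (.s
  k245 k250 2 (.s k165 k5 11 (.d k90 k95 k15 2 14))))), (.s k86 k92 2 (.s k84 k87 0 (.s k252 k168 13
  (.s k169 k3 14 (.d k253 k254 k1 0 13)))))] (.c k95 (.l (.s k82 k80 0 (.s k86 k92 2 (.s k94 k90 1
  (.s k84 k87 0 (.s k252 k168 13 (.d k254 k14 k253 11 0))))))) .n)) (.c k174 (.l (.s k162 k243 12
  (.s k80 k82 0 (.s k86 k92 2 (.s k87 k84 0 (.d k95 k91 k90 1 2)))))) .n)))) (.c k174 (.l (.s k81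
  k93 1 (.s k243 k162 12 (.s k166 k12 14 (.d k247 k251 k4 1 12))))) (.c k243 (.q k1 [(.s k3 k2 0 (.s
  k87 k171 13 (.s k86 k84 0 (.d k169 k253 k252 13 14)))), (.s k81 k93 1 (.s k169 k253 13 (.s k9 k249
  11 (.s k13 k5 1 (.d k241 k161 k165 11 13))))), (.s k3 k2 0 (.s k93 k81 1 (.s k12 k174 12 (.s k8 k4
  1 (.s k9 k6 2 (.s k5 k13 1 (.d k10 k11 k15 0 2)))))))] .n) (.c k247 (.q k87 [(.s k86 k84 0 (.s k3
  k171 13 (.s k169 k252 14 (.d k1 k2 k253 0 13)))), (.s k81 k93 1 (.s k86 k84 0 (.s k83 k92 2 (.s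
  k80 k82 0 (.d k95 k91 k90 1 2))))), (.s k3 k171 13 (.s k81 k93 1 (.s k243 k162 12 (.s k83 k163 11
  (.s k80 k82 0 (.d k95 k91 k90 1 2))))))] .n) (.c k251 (.l (.s k93 k81 1 (.s k12 k174 12 (.s k4 k8
  1 (.d k166 k247 k243 12 14))))) .n))))))))))))

def t7_181 : T TT 256 :=
  (.f k255 k170 14 (.q k106 [(.s k64 k127 6 (.s k192 k128 7 (.s k213 k234 6 (.d k149 k21 k63 7
  14))))] (.c k21 (.q k1 [(.s k169 k253 13 (.s k3 k2 0 (.s k86 k252 14 (.d k87 k84 k171 0 13)))),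
  (.s k64 k127 6 (.s k192 k128 7 (.s k213 k234 6 (.s k253 k169 13 (.s k193 k233 5 (.s k65 k129 7 (.d
  k195 k130 k194 8 0))))))), (.s k3 k2 0 (.s k64 k127 6 (.s k192 k128 7 (.s k66 k129 8 (.s k86 k126
  5 (.d k87 k84 k171 0 13))))))] (.c k171 (.l (.s k3 k2 0 (.s k127 k64 6 (.s k63 k191 7 (.s k43 k23
  5 (.d k169 k232 k253 8 13)))))) .n)) (.c k63 (.q k122 [(.s k90 k74 3 (.s k80 k95 2 (.s k240 k160
  11 (.s k245 k250 2 (.d k165 k5 k15 11 14))))), (.s k127 k64 6 (.s k117 k112 2 (.s k48 k186 10 (.s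
  k16 k32 3 (.s k154 k223 10 (.d k101 k69 k207 3 14))))))] (.c k80 (.l (.s k64 k127 6 (.s k74 k90 3
  (.s k69 k79 2 (.s k101 k117 3 (.s k207 k138 10 (.s k154 k48 14 (.d k223 k239 k16 3 10)))))))) .n))
  (.c k64 (.q k60 [(.s k20 k40 5 (.s k125 k190 8 (.s k150 k215 8 (.d k105 k65 k195 5 14)))), (.s k20
  k40 5 (.s k150 k215 8 (.s k62 k194 13 (.s k63 k61 0 (.s k21 k42 6 (.d k149 k213 k192 7 14)))))),
  (.s k125 k190 8 (.s k105 k65 5 (.s k104 k107 0 (.s k192 k148 13 (.s k149 k63 14 (.d k213 k234 k21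
  6 7))))))] (.c k105 (.q k87 [(.s k3 k171 13 (.s k1 k2 0 (.s k169 k253 13 (.d k86 k84 k252 0
  14)))), (.s k86 k84 0 (.s k126 k66 5 (.s k190 k125 8 (.s k62 k254 7 (.s k150 k194 13 (.d k20 k40
  k215 5 8)))))), (.s k3 k171 13 (.s k2 k1 0 (.s k22 k41 6 (.s k42 k62 5 (.s k21 k63 6 (.d k20 k40
  k23 5 0))))))] (.c k2 (.l (.s k3 k171 13 (.s k22 k41 6 (.s k86 k84 0 (.s k150 k214 7 (.d k20 k40
  k215 5 8)))))) (.c k40 (.q k235 [(.s k3 k171 13 (.s k1 k2 0 (.s k169 k253 13 (.d k86 k84 k252 0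
  14)))), (.s k86 k84 0 (.s k126 k66 5 (.s k190 k125 8 (.s k62 k254 7 (.s k150 k194 13 (.d k215 k195
  k20 5 8)))))), (.s k3 k171 13 (.s k22 k41 6 (.s k215 k195 5 (.s k20 k150 8 (.d k23 k21 k151 0
  7)))))] .n) (.c k235 (.l (.s k40 k20 5 (.s k3 k171 13 (.s k1 k2 0 (.s k86 k84 0 (.d k169 k253 k252
  13 14)))))) .n)))) (.c k150 (.q k69 [(.s k207 k138 10 (.s k223 k239 3 (.s k154 k16 10 (.d k101
  k117 k48 3 14)))), (.s k101 k117 3 (.s k207 k138 10 (.s k109 k158 12 (.s k105 k97 1 (.d k125 k190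
  k65 8 5))))), (.s k190 k125 8 (.s k207 k138 10 (.s k158 k109 12 (.s k174 k142 3 (.s k93 k12 12 (.d
  k223 k239 k28 3 8))))))] (.c k130 (.l (.s k190 k125 8 (.s k101 k117 3 (.s k207 k138 10 (.s k154
  k48 14 (.d k223 k239 k16 3 10)))))) (.c k138 (.l (.s k117 k101 3 (.s k186 k48 10 (.s k190 k125 8
  (.s k182 k178 1 (.s k243 k121 10 (.d k247 k52 k251 8 1))))))) (.c k154 (.l (.s k20 k40 5 (.s k117
  k101 3 (.s k48 k186 10 (.s k138 k207 10 (.s k52 k56 1 (.s k4 k36 3 (.d k247 k166 k182 12 8))))))))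
  (.c k186 (.l (.s k101 k117 3 (.s k207 k138 10 (.s k154 k48 14 (.d k223 k239 k16 3 10))))) (.c k190
  (.q k130 [(.s k207 k138 10 (.s k223 k239 3 (.s k154 k16 10 (.d k101 k117 k48 3 14)))), (.s k65
  k195 8 (.s k77 k73 1 (.s k125 k105 5 (.s k109 k93 3 (.d k207 k138 k158 10 12))))), (.s k65 k195 8
  (.s k77 k73 1 (.s k101 k117 3 (.s k89 k113 5 (.s k93 k81 1 (.d k125 k109 k105 3 5))))))] .n) (.c
  k207 (.l (.s k20 k40 5 (.s k117 k101 3 (.s k48 k186 10 (.s k52 k56 1 (.s k4 k36 3 (.d k247 k166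
  k182 12 8))))))) .n))))))) .n))) (.c k127 (.q k195 [(.s k65 k130 8 (.s k215 k235 5 (.s k150 k20 8
  (.d k105 k125 k60 5 14)))), (.s k65 k130 8 (.s k105 k125 5 (.s k107 k104 0 (.s k63 k151 13 (.s k21
  k42 6 (.d k149 k213 k192 7 14)))))), (.s k215 k235 5 (.s k150 k20 8 (.s k194 k62 13 (.s k192 k193
  0 (.s k149 k63 14 (.d k213 k234 k21 6 7))))))] (.c k105 (.q k81 [(.s k89 k93 1 (.s k243 k162 12
  (.s k166 k12 14 (.d k247 k251 k4 1 12)))), (.s k65 k130 8 (.s k97 k113 3 (.s k48 k146 12 (.s k32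
  k16 3 (.d k162 k227 k243 8 12)))))] (.c k40 (.l (.s k235 k215 5 (.s k89 k93 1 (.s k243 k162 12 (.s
  k166 k12 14 (.d k247 k251 k4 1 12)))))) (.c k162 (.l (.s k65 k130 8 (.s k89 k93 1 (.s k97 k113 3
  (.s k146 k48 12 (.s k211 k16 8 (.s k150 k28 10 (.d k215 k20 k235 8 5)))))))) (.c k235 (.q k40 [(.s
  k89 k93 1 (.s k243 k162 12 (.s k166 k12 14 (.d k247 k251 k4 1 12)))), (.s k20 k60 5 (.s k150 k215
  8 (.s k194 k62 13 (.s k192 k193 0 (.s k213 k234 6 (.d k149 k63 k21 14 7))))))] .n) (.c k243 (.l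
  (.s k65 k130 8 (.s k93 k89 1 (.s k12 k174 12 (.s k8 k4 1 (.s k73 k134 10 (.s k69 k77 1 (.d k138
  k203 k207 8 10)))))))) .n))))) (.c k150 (.q k199 [(.s k207 k203 1 (.s k69 k138 10 (.s k101 k117 3
  (.s k154 k48 14 (.d k223 k239 k16 3 10))))), (.s k207 k203 1 (.s k215 k235 5 (.s k223 k239 3 (.s
  k219 k211 1 (.d k231 k247 k243 3 5))))), (.s k207 k203 1 (.s k69 k138 10 (.s k4 k134 8 (.s k215
  k235 5 (.d k247 k166 k231 12 3))))), (.s k215 k235 5 (.s k247 k231 3 (.s k4 k166 12 (.s k12 k8 1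
  (.d k134 k69 k73 8 10)))))] (.c k130 (.q k190 [(.s k207 k203 1 (.s k215 k235 5 (.s k223 k239 3 (.s
  k219 k211 1 (.d k231 k247 k243 3 5))))), (.s k207 k203 1 (.s k69 k138 10 (.s k101 k117 3 (.s k154
  k48 14 (.d k223 k239 k16 3 10))))), (.s k215 k235 5 (.s k247 k231 3 (.s k4 k166 12 (.s k12 k8 1
  (.d k134 k69 k73 8 10))))), (.s k125 k60 8 (.s k65 k105 5 (.s k207 k203 1 (.s k69 k138 10 (.s k73
  k77 1 (.d k134 k4 k12 8 10))))))] .n) (.c k190 (.l (.s k130 k65 8 (.s k207 k203 1 (.s k69 k138 10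
  (.s k4 k134 8 (.s k215 k235 5 (.d k247 k166 k231 12 3))))))) .n))) .n))) (.c k128 (.l (.s k127 k64
  6 (.s k63 k191 7 (.s k149 k192 14 (.d k21 k42 k213 6 7))))) (.c k149 (.f k64 k127 6 (.f k128 k192
  7 (.q k165 [(.s k245 k5 11 (.s k240 k250 2 (.s k80 k160 11 (.d k90 k95 k15 2 14)))), (.s k5 k245
  11 (.s k15 k10 2 (.s k90 k240 14 (.d k95 k80 k175 2 11)))), (.s k224 k47 10 (.s k245 k5 11 (.s
  k240 k250 2 (.s k160 k80 11 (.s k32 k96 7 (.s k48 k16 3 (.d k176 k144 k112 3 7)))))))] (.c k5 (.f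
  k224 k47 10 (.q k102 [(.s k68 k119 4 (.s k204 k136 9 (.s k221 k238 4 (.d k153 k17 k51 9 14)))),
  (.s k98 k110 1 (.s k35 k161 8 (.s k228 k39 8 (.d k236 k232 k169 1 10))))] (.c k4 (.q k6 [(.s k68
  k119 4 (.s k204 k136 9 (.s k221 k238 4 (.d k153 k17 k51 9 14)))), (.s k98 k110 1 (.s k35 k161 8
  (.s k228 k39 8 (.d k236 k232 k169 1 10))))] .n) (.c k6 (.q k4 [(.s k68 k119 4 (.s k136 k204 9 (.d
  k132 k196 k140 7 1))), (.s k12 k8 1 (.s k93 k174 12 (.s k89 k81 1 (.d k166 k247 k243 12 14))))]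
  .n) .n)))) (.c k10 (.l (.s k245 k5 11 (.s k240 k250 2 (.s k90 k15 14 (.d k80 k95 k160 2 11)))))
  (.c k80 (.q k1 [(.s k3 k2 0 (.s k87 k171 13 (.s k169 k253 13 (.d k86 k84 k252 0 14)))), (.s k5
  k245 11 (.s k13 k9 1 (.s k89 k241 13 (.s k93 k81 1 (.d k253 k173 k169 11 13))))), (.s k3 k2 0 (.s
  k5 k245 11 (.s k9 k13 1 (.s k10 k15 2 (.s k8 k11 0 (.d k12 k4 k6 1 2))))))] .n) (.c k90 (.q k240
  [(.d k245 k250 k5 2 11), (.s k160 k80 11 (.s k176 k144 3 (.s k48 k112 7 (.s k16 k32 3 (.d k154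
  k143 k223 6 10)))))] (.c k10 (.l (.s k250 k245 2 (.s k160 k80 11 (.s k176 k144 3 (.s k48 k112 7
  (.s k16 k32 3 (.d k154 k143 k223 6 10))))))) (.c k31 (.q k208 [(.d k245 k250 k5 2 11), (.s k80
  k160 11 (.s k16 k144 7 (.s k48 k32 3 (.d k112 k96 k176 3 7))))] (.c k10 (.l (.s k250 k245 2 (.s
  k80 k160 11 (.s k16 k144 7 (.s k48 k32 3 (.d k112 k96 k176 3 7)))))) (.c k250 (.q k10 [(.d k5 k15
  k245 2 11), (.s k80 k160 11 (.s k16 k144 7 (.s k48 k32 3 (.d k112 k96 k176 3 7))))] .n) .n))) (.c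
  k208 (.q k31 [(.d k245 k250 k5 2 11), (.s k47 k224 10 (.s k15 k63 3 (.s k80 k160 11 (.s k96 k112 3
  (.s k175 k95 11 (.d k111 k101 k239 2 7))))))] (.c k10 (.l (.s k250 k245 2 (.s k47 k224 10 (.s k15
  k63 3 (.s k80 k160 11 (.s k96 k112 3 (.s k175 k95 11 (.d k111 k101 k239 2 7)))))))) (.c k250 (.q
  k10 [(.d k5 k15 k245 2 11), (.s k80 k160 11 (.s k96 k112 3 (.s k101 k111 2 (.s k229 k37 7 (.s k207
  k218 6 (.d k69 k117 k138 3 10))))))] .n) .n))) (.c k250 (.q k10 [(.d k5 k15 k245 2 11), (.s k160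
  k80 11 (.s k176 k144 3 (.s k48 k112 7 (.s k16 k32 3 (.d k154 k143 k223 6 10)))))] (.c k31 (.q k208
  [(.d k5 k15 k245 2 11), (.s k80 k160 11 (.s k16 k144 7 (.s k48 k32 3 (.d k112 k96 k176 3 7))))]
  .n) (.c k208 (.q k31 [(.d k5 k15 k245 2 11), (.s k80 k160 11 (.s k96 k112 3 (.s k101 k111 2 (.s
  k229 k37 7 (.s k207 k218 6 (.d k69 k117 k138 3 10))))))] .n) .n))) .n))))) (.c k240 (.q k117 [(.s
  k48 k186 10 (.s k16 k32 3 (.s k101 k69 3 (.d k154 k223 k207 10 14)))), (.s k5 k245 11 (.s k10 k15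
  2 (.s k69 k101 3 (.s k74 k79 2 (.d k138 k207 k202 10 7))))), (.s k5 k245 11 (.s k15 k10 2 (.s k48
  k186 10 (.s k32 k16 3 (.s k37 k26 6 (.d k47 k42 k224 2 10))))))] (.c k32 (.l (.s k5 k245 11 (.s
  k15 k10 2 (.s k48 k186 10 (.s k37 k26 6 (.d k101 k69 k229 3 7)))))) (.c k63 (.q k122 [(.s k74 k90
  3 (.d k69 k79 k101 2 3)), (.s k5 k245 11 (.s k69 k101 3 (.s k138 k207 10 (.d k133 k197 k143 7
  2)))), (.s k5 k245 11 (.s k15 k10 2 (.s k90 k74 3 (.d k95 k80 k175 2 11))))] (.c k208 (.l (.s k224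
  k47 10 (.s k69 k101 3 (.d k74 k79 k90 2 3)))) (.c k224 (.q k208 [(.s k74 k90 3 (.d k69 k79 k101 2
  3)), (.s k5 k245 11 (.s k69 k101 3 (.s k138 k207 10 (.d k133 k197 k143 7 2)))), (.s k5 k245 11 (.s
  k15 k10 2 (.s k90 k74 3 (.d k95 k80 k175 2 11))))] .n) .n))) (.c k122 (.q k63 [(.s k5 k245 11 (.s
  k15 k10 2 (.d k47 k224 k31 10 3))), (.s k5 k245 11 (.s k21 k42 6 (.s k37 k53 3 (.d k101 k69 k229 3
  7)))), (.s k42 k21 6 (.s k48 k186 10 (.s k32 k16 3 (.d k47 k224 k37 10 2))))] (.c k208 (.l (.s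
  k224 k47 10 (.s k5 k245 11 (.s k21 k42 6 (.s k37 k53 3 (.d k101 k69 k229 3 7)))))) (.c k224 (.q
  k208 [(.s k5 k245 11 (.s k21 k42 6 (.s k37 k53 3 (.d k101 k69 k229 3 7)))), (.s k48 k186 10 (.s
  k16 k32 3 (.s k101 k69 3 (.d k154 k223 k207 10 14)))), (.s k5 k245 11 (.s k21 k42 6 (.s k48 k186
  10 (.d k53 k58 k37 2 3))))] .n) .n))) (.c k138 (.l (.s k101 k69 3 (.s k48 k186 10 (.s k154 k207 14
  (.d k16 k32 k223 3 10))))) (.c k208 (.l (.s k224 k47 10 (.s k5 k245 11 (.s k69 k101 3 (.s k138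
  k207 10 (.d k133 k197 k143 7 2)))))) (.c k224 (.q k208 [(.s k48 k186 10 (.s k16 k32 3 (.s k101 k69
  3 (.d k154 k223 k207 10 14)))), (.s k5 k245 11 (.s k10 k15 2 (.s k69 k101 3 (.s k74 k79 2 (.d k138
  k207 k202 10 7))))), (.s k5 k245 11 (.s k15 k10 2 (.s k48 k186 10 (.s k32 k16 3 (.s k37 k26 6 (.s
  k42 k47 2 (.d k21 k63 k53 6 3)))))))] (.c k32 (.l (.s k5 k245 11 (.s k15 k10 2 (.s k48 k186 10 (.s
  k37 k26 6 (.d k101 k69 k229 3 7)))))) (.c k63 (.q k122 [(.s k74 k90 3 (.d k69 k79 k101 2 3)), (.s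
  k5 k245 11 (.s k69 k101 3 (.s k138 k207 10 (.d k133 k197 k143 7 2)))), (.s k5 k245 11 (.s k15 k10
  2 (.s k90 k74 3 (.d k95 k80 k175 2 11))))] .n) (.c k122 (.q k63 [(.s k5 k245 11 (.s k21 k42 6 (.s
  k37 k53 3 (.d k101 k69 k229 3 7)))), (.s k48 k186 10 (.s k16 k32 3 (.s k101 k69 3 (.d k154 k223
  k207 10 14)))), (.s k5 k245 11 (.s k21 k42 6 (.s k48 k186 10 (.d k53 k58 k37 2 3))))] .n) (.c k138
  (.l (.s k101 k69 3 (.s k48 k186 10 (.s k154 k207 14 (.d k16 k32 k223 3 10))))) .n))))) .n)))))))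
  (.c k245 (.q k117 [(.s k101 k69 3 (.s k96 k111 2 (.s k80 k112 3 (.s k240 k160 11 (.d k90 k95 k15 2
  14))))), (.s k48 k186 10 (.s k16 k32 3 (.s k101 k69 3 (.d k154 k223 k207 10 14)))), (.s k48 k186
  10 (.s k32 k16 3 (.s k224 k47 10 (.s k160 k96 7 (.s k176 k144 3 (.d k240 k80 k112 11 7))))))] .n)
  (.c k250 (.l (.s k5 k245 11 (.s k15 k10 2 (.s k90 k240 14 (.d k95 k80 k175 2 11))))) .n))))))))))
  (.c k191 (.l (.s k64 k127 6 (.s k192 k128 7 (.s k149 k63 14 (.d k213 k234 k21 6 7))))) (.c k192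
  (.q k1 [(.s k3 k2 0 (.s k87 k171 13 (.s k86 k84 0 (.d k169 k253 k252 13 14)))), (.s k127 k64 6 (.s
  k63 k191 7 (.s k21 k42 6 (.s k61 k41 5 (.s k253 k169 13 (.s k125 k189 7 (.d k60 k190 k62 8
  0))))))), (.s k3 k2 0 (.s k127 k64 6 (.s k63 k191 7 (.s k21 k42 6 (.s k23 k43 5 (.s k22 k20 0 (.d
  k41 k61 k60 5 6)))))))] .n) (.c k213 (.q k1 [(.s k3 k2 0 (.s k87 k171 13 (.s k86 k84 0 (.d k169
  k253 k252 13 14)))), (.s k64 k127 6 (.s k169 k253 13 (.s k192 k128 7 (.s k149 k63 14 (.s k129 k189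
  5 (.s k66 k3 8 (.d k65 k193 k67 7 0))))))), (.s k3 k2 0 (.s k64 k127 6 (.s k192 k128 7 (.s k66
  k129 8 (.s k86 k126 5 (.d k87 k84 k171 0 13))))))] (.c k3 (.l (.s k127 k64 6 (.s k63 k191 7 (.s
  k21 k42 6 (.s k61 k41 5 (.s k60 k62 0 (.s k125 k190 8 (.d k253 k189 k169 7 13)))))))) .n)) (.c
  k234 (.l (.s k127 k64 6 (.s k63 k191 7 (.s k21 k42 6 (.d k149 k213 k192 7 14))))) .n))))))))))))

def t7_182 : T TT 256 :=
  (.f k255 k170 14 (.q k106 [(.s k64 k127 6 (.s k192 k128 7 (.s k149 k63 14 (.d k213 k234 k21 6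
  7))))] (.c k21 (.q k1 [(.s k169 k253 13 (.s k3 k2 0 (.s k86 k252 14 (.d k87 k84 k171 0 13)))), (.s
  k64 k127 6 (.s k192 k128 7 (.s k213 k234 6 (.s k253 k169 13 (.s k193 k233 5 (.s k65 k129 7 (.d
  k195 k130 k194 8 0))))))), (.s k3 k2 0 (.s k64 k127 6 (.s k192 k128 7 (.s k66 k129 8 (.s k86 k126
  5 (.d k87 k84 k171 0 13))))))] (.c k171 (.l (.s k3 k2 0 (.s k127 k64 6 (.s k63 k191 7 (.s k43 k23
  5 (.d k169 k232 k253 8 13)))))) .n)) (.c k63 (.q k1 [(.s k3 k2 0 (.s k87 k171 13 (.s k86 k84 0 (.d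
  k169 k253 k252 13 14)))), (.s k64 k127 6 (.s k192 k128 7 (.s k213 k234 6 (.s k253 k169 13 (.s k193
  k233 5 (.s k65 k129 7 (.d k195 k130 k194 8 0))))))), (.s k3 k2 0 (.s k64 k127 6 (.s k192 k128 7
  (.s k66 k129 8 (.s k86 k126 5 (.d k87 k84 k171 0 13))))))] (.c k171 (.l (.s k3 k2 0 (.s k64 k127 6
  (.s k169 k253 13 (.s k86 k252 14 (.s k192 k128 7 (.d k66 k126 k129 5 8))))))) .n)) (.c k64 (.q
  k195 [(.s k65 k130 8 (.s k105 k125 5 (.s k215 k235 5 (.d k150 k20 k60 8 14)))), (.s k65 k130 8 (.s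
  k105 k125 5 (.s k107 k104 0 (.s k63 k151 13 (.s k21 k42 6 (.d k149 k213 k192 7 14)))))), (.s k215
  k235 5 (.s k150 k20 8 (.s k194 k62 13 (.s k192 k193 0 (.s k149 k63 14 (.d k213 k234 k21 6 7))))))]
  (.c k105 (.q k213 [(.s k149 k21 7 (.d k192 k234 k63 6 14)), (.s k65 k130 8 (.s k192 k234 6 (.s
  k193 k194 0 (.s k1 k129 7 (.d k253 k233 k169 5 13))))), (.s k21 k149 7 (.s k63 k42 6 (.s k107 k151
  13 (.s k235 k215 5 (.s k171 k43 7 (.s k87 k3 13 (.d k127 k191 k67 7 5)))))))] (.c k40 (.l (.s k235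
  k215 5 (.s k149 k21 7 (.d k192 k234 k63 6 14)))) (.c k235 (.q k40 [(.s k149 k21 7 (.d k192 k234
  k63 6 14)), (.s k20 k60 5 (.s k150 k215 8 (.s k192 k234 6 (.d k194 k193 k62 0 13)))), (.s k20 k60
  5 (.s k21 k149 7 (.s k22 k23 0 (.s k42 k63 6 (.s k62 k2 5 (.d k150 k215 k194 8 13))))))] .n) .n)))
  (.c k150 (.f k130 k65 8 (.q k134 [(.s k12 k73 10 (.s k138 k142 1 (.s k69 k207 10 (.d k4 k8 k199 1
  8)))), (.s k12 k73 10 (.s k93 k174 12 (.s k89 k81 1 (.s k72 k123 4 (.s k192 k132 9 (.s k149 k63 14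
  (.d k213 k234 k21 6 7)))))))] (.c k12 (.l (.s k138 k142 1 (.s k207 k69 10 (.s k199 k203 1 (.s k215
  k235 5 (.s k223 k239 3 (.s k219 k211 1 (.d k231 k247 k243 3 5)))))))) (.c k66 (.q k67 [(.s k12 k73
  10 (.s k138 k142 1 (.s k69 k207 10 (.d k4 k8 k199 1 8)))), (.s k3 k131 7 (.s k1 k2 0 (.s k87 k171
  13 (.s k86 k84 0 (.d k169 k253 k252 13 14)))))] .n) (.c k67 (.q k66 [(.s k2 k194 7 (.s k3 k1 0 (.s
  k86 k126 5 (.d k87 k84 k171 0 13)))), (.s k12 k73 10 (.s k4 k8 1 (.s k69 k199 8 (.d k138 k142 k207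
  1 10))))] .n) (.c k69 (.l (.s k142 k138 1 (.s k12 k73 10 (.s k77 k207 8 (.s k93 k174 12 (.s k89
  k81 1 (.s k166 k243 14 (.d k4 k8 k247 1 12)))))))) (.c k73 (.l (.s k138 k142 1 (.s k69 k207 10 (.s
  k4 k199 8 (.s k12 k8 1 (.s k93 k174 12 (.s k89 k81 1 (.d k166 k247 k243 12 14)))))))) (.c k77 (.l
  (.s k73 k12 10 (.s k138 k142 1 (.s k207 k69 10 (.d k203 k199 k8 1 8))))) .n)))))))) .n))) (.c k127
  (.q k195 [(.s k65 k130 8 (.s k215 k235 5 (.s k150 k20 8 (.d k105 k125 k60 5 14)))), (.s k65 k130 8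
  (.s k105 k125 5 (.s k107 k104 0 (.s k63 k151 13 (.s k21 k42 6 (.d k149 k213 k192 7 14)))))), (.s
  k215 k235 5 (.s k150 k20 8 (.s k194 k62 13 (.s k192 k193 0 (.s k149 k63 14 (.d k213 k234 k21 6
  7))))))] (.c k105 (.q k149 [(.s k21 k213 7 (.d k63 k42 k192 6 14)), (.s k63 k192 14 (.s k151 k107
  13 (.s k150 k148 0 (.d k215 k235 k20 5 8))))] (.c k40 (.l (.s k235 k215 5 (.s k21 k213 7 (.d k63
  k42 k192 6 14)))) (.c k63 (.l (.s k213 k21 7 (.s k192 k234 6 (.s k194 k193 0 (.s k150 k62 13 (.d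
  k215 k235 k20 5 8)))))) (.c k192 (.l (.s k21 k213 7 (.s k63 k42 6 (.s k151 k107 13 (.s k150 k148 0
  (.d k215 k235 k20 5 8)))))) (.c k235 (.q k40 [(.s k21 k213 7 (.d k63 k42 k192 6 14)), (.s k20 k60
  5 (.s k63 k192 14 (.s k150 k215 8 (.d k151 k148 k107 0 13))))] (.c k63 (.l (.s k20 k60 5 (.s k150
  k215 8 (.s k213 k21 7 (.s k192 k234 6 (.d k194 k62 k193 13 0)))))) (.c k192 (.l (.s k20 k60 5 (.s
  k21 k213 7 (.s k63 k42 6 (.s k150 k215 8 (.d k151 k148 k107 0 13)))))) .n))) .n))))) (.c k150 (.f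
  k130 k65 8 (.q k134 [(.s k73 k12 10 (.s k138 k142 1 (.s k207 k69 10 (.d k203 k199 k8 1 8)))), (.s
  k12 k73 10 (.s k93 k174 12 (.s k89 k81 1 (.s k72 k123 4 (.s k192 k132 9 (.s k149 k63 14 (.d k213
  k234 k21 6 7)))))))] (.c k12 (.l (.s k138 k142 1 (.s k207 k69 10 (.s k199 k203 1 (.s k215 k235 5
  (.s k223 k239 3 (.s k219 k211 1 (.d k231 k247 k243 3 5)))))))) (.c k69 (.l (.s k142 k138 1 (.s k12
  k73 10 (.s k77 k207 8 (.s k93 k174 12 (.s k89 k81 1 (.s k166 k243 14 (.d k4 k8 k247 1 12))))))))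
  (.c k73 (.l (.s k138 k142 1 (.s k69 k207 10 (.s k4 k199 8 (.s k12 k8 1 (.s k93 k174 12 (.s k89 k81
  1 (.d k166 k247 k243 12 14)))))))) (.c k77 (.l (.s k73 k12 10 (.s k138 k142 1 (.s k207 k69 10 (.d
  k203 k199 k8 1 8))))) .n)))))) .n))) (.c k128 (.l (.s k127 k64 6 (.s k63 k191 7 (.s k149 k192 14
  (.d k21 k42 k213 6 7))))) (.c k149 (.f k127 k64 6 (.q k90 [(.s k80 k95 2 (.s k122 k74 3 (.s k240
  k160 11 (.d k63 k191 k181 7 10)))), (.s k122 k74 3 (.s k117 k112 2 (.s k48 k186 10 (.s k16 k32 3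
  (.s k154 k223 10 (.d k101 k69 k207 3 14)))))), (.s k80 k95 2 (.s k240 k160 11 (.s k165 k15 14 (.d
  k245 k250 k5 2 11))))] (.c k80 (.l (.s k122 k74 3 (.s k112 k117 2 (.s k79 k101 6 (.s k95 k111 3
  (.s k15 k175 11 (.s k5 k10 2 (.d k165 k245 k240 11 14)))))))) (.c k128 (.l (.s k191 k63 7 (.s k80
  k95 2 (.s k240 k160 11 (.s k165 k15 14 (.d k245 k250 k5 2 11)))))) (.c k191 (.q k128 [(.s k80 k95
  2 (.s k240 k160 11 (.s k245 k250 2 (.d k165 k5 k15 11 14)))), (.s k122 k74 3 (.s k117 k112 2 (.s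
  k48 k186 10 (.s k16 k32 3 (.s k154 k223 10 (.d k101 k69 k207 3 14))))))] (.c k80 (.l (.s k122 k74
  3 (.s k112 k117 2 (.s k79 k101 6 (.s k95 k111 3 (.s k15 k175 11 (.s k5 k10 2 (.d k165 k245 k240 11
  14)))))))) .n)) .n))))) (.c k191 (.l (.s k64 k127 6 (.s k192 k128 7 (.s k149 k63 14 (.d k213 k234
  k21 6 7))))) (.c k192 (.q k1 [(.s k3 k2 0 (.s k87 k171 13 (.s k86 k84 0 (.d k169 k253 k252 13
  14)))), (.s k127 k64 6 (.s k63 k191 7 (.s k21 k42 6 (.s k61 k41 5 (.s k253 k169 13 (.s k125 k189 7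
  (.d k60 k190 k62 8 0))))))), (.s k3 k2 0 (.s k127 k64 6 (.s k63 k191 7 (.s k21 k42 6 (.s k23 k43 5
  (.s k22 k20 0 (.d k41 k61 k60 5 6)))))))] .n) (.c k213 (.q k1 [(.s k3 k2 0 (.s k87 k171 13 (.s k86
  k84 0 (.d k169 k253 k252 13 14)))), (.s k64 k127 6 (.s k169 k253 13 (.s k192 k128 7 (.s k149 k63
  14 (.s k129 k189 5 (.s k66 k3 8 (.d k65 k193 k67 7 0))))))), (.s k3 k2 0 (.s k64 k127 6 (.s k192
  k128 7 (.s k66 k129 8 (.s k86 k126 5 (.d k87 k84 k171 0 13))))))] (.c k3 (.l (.s k127 k64 6 (.s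
  k63 k191 7 (.s k21 k42 6 (.s k61 k41 5 (.s k60 k62 0 (.s k125 k190 8 (.d k253 k189 k169 7
  13)))))))) .n)) (.c k234 (.l (.s k127 k64 6 (.s k63 k191 7 (.s k21 k42 6 (.d k149 k213 k192 7
  14))))) .n))))))))))))

def t7_183 : T TT 256 :=
  (.f k255 k170 14 (.q k105 [(.s k65 k125 5 (.s k195 k130 8 (.s k150 k60 14 (.d k215 k235 k20 5
  8))))] (.c k20 (.q k1 [(.s k169 k253 13 (.s k3 k2 0 (.s k86 k252 14 (.d k87 k84 k171 0 13)))), (.s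
  k65 k125 5 (.s k169 k253 13 (.s k41 k233 7 (.s k61 k21 5 (.d k193 k129 k149 7 13))))), (.s k3 k2 0
  (.s k65 k125 5 (.s k129 k193 7 (.s k66 k192 8 (.s k67 k64 0 (.d k195 k131 k130 7 8))))))] .n) (.c
  k60 (.q k1 [(.s k3 k2 0 (.s k87 k171 13 (.s k86 k84 0 (.d k169 k253 k252 13 14)))), (.s k65 k125 5
  (.s k169 k253 13 (.s k41 k233 7 (.s k61 k21 5 (.d k193 k129 k149 7 13))))), (.s k3 k2 0 (.s k65
  k125 5 (.s k129 k193 7 (.s k66 k192 8 (.s k67 k64 0 (.d k195 k131 k130 7 8))))))] .n) (.c k65 (.q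
  k1 [(.s k169 k253 13 (.s k3 k2 0 (.s k86 k252 14 (.d k87 k84 k171 0 13)))), (.s k169 k253 13 (.s
  k41 k233 7 (.s k21 k61 5 (.s k63 k42 6 (.s k127 k191 7 (.s k106 k64 6 (.d k149 k213 k192 7
  14)))))))] (.c k169 (.f k3 k2 0 (.q k86 [(.d k87 k171 k84 13 0), (.s k67 k124 6 (.s k195 k131 7
  (.s k150 k60 14 (.d k215 k235 k20 5 8))))] (.c k168 (.l (.s k171 k87 13 (.s k67 k124 6 (.s k195
  k131 7 (.s k150 k60 14 (.d k215 k235 k20 5 8)))))) (.c k171 (.q k168 [(.d k84 k87 k252 0 13), (.s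
  k67 k124 6 (.s k195 k131 7 (.s k215 k235 5 (.d k150 k20 k60 8 14))))] .n) .n)))) (.c k253 (.l (.s
  k3 k2 0 (.s k87 k171 13 (.s k86 k84 0 (.s k67 k124 6 (.s k195 k131 7 (.s k150 k60 14 (.d k215 k235
  k20 5 8)))))))) .n))) (.c k125 (.q k253 [(.s k169 k1 13 (.s k252 k254 0 (.s k84 k168 13 (.d k86
  k87 k3 0 14)))), (.s k169 k1 13 (.s k233 k41 7 (.s k213 k193 5 (.s k192 k234 6 (.s k64 k128 7 (.s
  k106 k127 6 (.d k149 k21 k63 7 14)))))))] (.c k1 (.l (.s k252 k254 0 (.s k84 k168 13 (.s k86 k87 0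
  (.s k124 k67 6 (.s k60 k188 7 (.s k20 k40 5 (.d k150 k215 k195 8 14)))))))) (.c k169 (.f k252 k254
  0 (.q k86 [(.d k84 k168 k87 13 0), (.s k124 k67 6 (.s k60 k188 7 (.s k20 k40 5 (.d k150 k215 k195
  8 14))))] (.c k168 (.q k171 [(.d k87 k84 k3 0 13), (.s k124 k67 6 (.s k60 k188 7 (.s k20 k40 5 (.d
  k150 k215 k195 8 14))))] .n) (.c k171 (.l (.s k168 k84 13 (.s k124 k67 6 (.s k60 k188 7 (.s k20
  k40 5 (.d k150 k215 k195 8 14)))))) .n)))) .n))) (.c k130 (.l (.s k125 k65 5 (.s k60 k190 8 (.s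
  k150 k195 14 (.d k20 k40 k215 5 8))))) (.c k150 (.f k125 k65 5 (.q k117 [(.s k101 k69 3 (.s k109
  k97 1 (.s k77 k93 3 (.d k113 k121 k89 1 5)))), (.s k48 k186 10 (.s k16 k32 3 (.s k154 k223 10 (.s
  k56 k203 12 (.d k60 k190 k52 8 1)))))] (.c k101 (.l (.s k121 k113 1 (.s k89 k73 3 (.s k81 k93 1
  (.s k243 k162 12 (.d k60 k190 k182 8 10)))))) (.c k130 (.l (.s k190 k60 8 (.s k48 k186 10 (.s k16
  k32 3 (.s k101 k69 3 (.d k154 k223 k207 10 14)))))) (.c k190 (.q k130 [(.s k101 k69 3 (.s k109 k97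
  1 (.s k77 k93 3 (.d k113 k121 k89 1 5)))), (.s k48 k186 10 (.s k16 k32 3 (.s k154 k223 10 (.d k101
  k69 k207 3 14)))), (.s k121 k113 1 (.s k186 k48 10 (.s k251 k56 8 (.s k243 k247 1 (.s k81 k162 12
  (.d k89 k93 k73 1 3))))))] .n) .n))))) (.c k190 (.l (.s k65 k125 5 (.s k195 k130 8 (.s k150 k60 14
  (.d k215 k235 k20 5 8))))) (.c k195 (.q k1 [(.s k3 k2 0 (.s k87 k171 13 (.s k86 k84 0 (.d k169
  k253 k252 13 14)))), (.s k65 k125 5 (.s k169 k253 13 (.s k41 k233 7 (.s k61 k21 5 (.d k193 k129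
  k149 7 13))))), (.s k3 k2 0 (.s k125 k65 5 (.s k60 k190 8 (.s k40 k20 5 (.s k41 k22 6 (.s k21 k61
  5 (.d k42 k43 k63 0 6)))))))] .n) (.c k215 (.q k1 [(.s k169 k253 13 (.s k3 k2 0 (.s k86 k252 14
  (.d k87 k84 k171 0 13)))), (.s k65 k125 5 (.s k169 k253 13 (.s k41 k233 7 (.s k61 k21 5 (.d k193
  k129 k149 7 13))))), (.s k3 k2 0 (.s k65 k125 5 (.s k129 k193 7 (.s k66 k192 8 (.s k67 k64 0 (.d
  k195 k131 k130 7 8))))))] .n) (.c k235 (.l (.s k125 k65 5 (.s k60 k190 8 (.s k20 k40 5 (.d k150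
  k215 k195 8 14))))) .n))))))))))))

def t7_184 : T TT 256 :=
  (.f k255 k170 14 (.q k106 [(.s k64 k127 6 (.s k192 k128 7 (.s k149 k63 14 (.d k213 k234 k21 6
  7))))] (.c k21 (.q k1 [(.s k3 k2 0 (.s k87 k171 13 (.s k86 k84 0 (.d k169 k253 k252 13 14)))), (.s
  k64 k127 6 (.s k169 k253 13 (.s k192 k128 7 (.s k149 k63 14 (.s k129 k189 5 (.s k65 k193 7 (.d k66
  k67 k3 0 8))))))), (.s k3 k2 0 (.s k64 k127 6 (.s k192 k128 7 (.s k66 k129 8 (.s k86 k126 5 (.d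
  k87 k84 k171 0 13))))))] (.c k3 (.l (.s k64 k127 6 (.s k192 k128 7 (.s k213 k234 6 (.s k253 k169
  13 (.s k193 k233 5 (.s k65 k129 7 (.d k195 k130 k194 8 0)))))))) .n)) (.c k63 (.q k1 [(.s k3 k2 0
  (.s k87 k171 13 (.s k86 k84 0 (.d k169 k253 k252 13 14)))), (.s k64 k127 6 (.s k192 k128 7 (.s
  k213 k234 6 (.s k253 k169 13 (.s k193 k233 5 (.s k65 k129 7 (.d k195 k130 k194 8 0))))))), (.s k3
  k2 0 (.s k64 k127 6 (.s k192 k128 7 (.s k66 k129 8 (.s k86 k126 5 (.d k87 k84 k171 0 13))))))] (.c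
  k171 (.l (.s k3 k2 0 (.s k64 k127 6 (.s k169 k253 13 (.s k86 k252 14 (.s k192 k128 7 (.d k66 k126
  k129 5 8))))))) .n)) (.c k64 (.q k195 [(.s k65 k130 8 (.s k105 k125 5 (.s k150 k60 14 (.d k215
  k235 k20 5 8)))), (.s k65 k130 8 (.s k105 k125 5 (.s k107 k104 0 (.s k63 k151 13 (.s k21 k42 6 (.d
  k149 k213 k192 7 14)))))), (.s k215 k235 5 (.s k150 k20 8 (.s k194 k62 13 (.s k192 k193 0 (.s k149
  k63 14 (.d k213 k234 k21 6 7))))))] (.c k105 (.q k234 [(.s k213 k192 6 (.s k235 k215 5 (.s k233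
  k232 0 (.s k252 k214 6 (.d k253 k254 k193 0 5))))), (.s k192 k213 6 (.s k194 k193 0 (.s k150 k62
  13 (.d k215 k235 k20 5 8)))), (.s k235 k215 5 (.s k232 k233 0 (.s k169 k43 8 (.s k253 k1 13 (.s
  k252 k254 0 (.s k84 k168 13 (.d k86 k87 k3 0 14))))))), (.s k192 k213 6 (.s k63 k149 14 (.s k107
  k151 13 (.s k235 k215 5 (.s k171 k43 7 (.s k87 k3 13 (.d k127 k191 k67 7 5)))))))] (.c k40 (.l (.s
  k235 k215 5 (.s k192 k213 6 (.s k194 k193 0 (.s k214 k254 5 (.d k233 k232 k252 0 6)))))) (.c k215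
  (.l (.s k130 k65 8 (.s k192 k213 6 (.s k194 k193 0 (.s k62 k150 13 (.s k66 k2 7 (.s k126 k86 5 (.d
  k254 k214 k190 5 7)))))))) (.c k235 (.q k40 [(.s k20 k60 5 (.s k150 k215 8 (.s k192 k213 6 (.d
  k194 k193 k62 0 13)))), (.s k130 k65 8 (.s k192 k213 6 (.s k194 k193 0 (.s k62 k150 13 (.s k66 k2
  7 (.s k126 k86 5 (.d k254 k214 k190 5 7))))))), (.s k20 k60 5 (.s k130 k65 8 (.s k150 k215 8 (.s
  k194 k62 13 (.s k66 k2 7 (.s k86 k126 5 (.d k214 k254 k22 5 7))))))), (.s k20 k60 5 (.s k192 k213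
  6 (.s k63 k149 14 (.s k21 k42 6 (.s k23 k22 0 (.s k151 k107 13 (.d k215 k87 k150 7 8)))))))] (.c
  k62 (.l (.s k20 k60 5 (.s k213 k192 6 (.s k215 k150 8 (.s k214 k212 0 (.s k252 k233 6 (.d k254
  k253 k194 0 5))))))) (.c k150 (.l (.s k60 k20 5 (.s k190 k125 8 (.s k192 k213 6 (.s k194 k193 0
  (.s k254 k214 5 (.s k62 k126 7 (.d k63 k61 k149 0 14)))))))) .n))) .n)))) (.c k150 (.q k194 [(.s
  k192 k193 0 (.s k149 k63 14 (.d k213 k234 k21 6 7))), (.s k130 k65 8 (.s k66 k2 7 (.s k86 k126 5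
  (.s k84 k87 0 (.s k252 k168 13 (.s k169 k3 14 (.d k253 k254 k1 0 13)))))))] (.c k130 (.q k190 [(.s
  k192 k193 0 (.s k149 k63 14 (.d k213 k234 k21 6 7))), (.s k60 k125 8 (.s k192 k193 0 (.s k104 k148
  13 (.s k107 k105 0 (.d k63 k151 k149 13 14))))), (.s k192 k193 0 (.s k234 k213 6 (.s k214 k254 5
  (.s k233 k252 6 (.d k235 k232 k215 0 5)))))] (.c k192 (.q k1 [(.s k3 k2 0 (.s k87 k171 13 (.s k169
  k253 13 (.d k86 k84 k252 0 14)))), (.s k3 k2 0 (.s k60 k125 8 (.s k40 k20 5 (.s k41 k22 6 (.s k42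
  k43 0 (.d k21 k61 k63 5 6)))))), (.s k125 k60 8 (.s k65 k105 5 (.s k193 k129 7 (.s k253 k169 13
  (.s k233 k213 5 (.d k252 k254 k214 0 6))))))] (.c k3 (.l (.s k125 k60 8 (.s k65 k105 5 (.s k253
  k169 13 (.s k252 k254 0 (.s k233 k214 6 (.d k193 k213 k129 5 7))))))) (.c k254 (.l (.s k169 k253
  13 (.s k3 k2 0 (.s k86 k252 14 (.d k87 k84 k171 0 13))))) .n))) (.c k193 (.l (.s k125 k60 8 (.s
  k105 k65 5 (.s k107 k104 0 (.s k63 k151 13 (.s k21 k42 6 (.d k149 k192 k213 14 7))))))) .n))) (.c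
  k190 (.l (.s k130 k65 8 (.s k192 k193 0 (.s k149 k63 14 (.d k213 k234 k21 6 7))))) .n))) .n))) (.c
  k127 (.q k195 [(.s k65 k130 8 (.s k215 k235 5 (.s k150 k20 8 (.d k105 k125 k60 5 14)))), (.s k65
  k130 8 (.s k105 k125 5 (.s k107 k104 0 (.s k63 k151 13 (.s k21 k42 6 (.d k149 k213 k192 7
  14)))))), (.s k215 k235 5 (.s k150 k20 8 (.s k194 k62 13 (.s k192 k193 0 (.s k149 k63 14 (.d k213
  k234 k21 6 7))))))] (.c k105 (.q k149 [(.s k21 k213 7 (.d k63 k42 k192 6 14)), (.s k63 k192 14 (.s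
  k151 k107 13 (.s k150 k148 0 (.d k215 k235 k20 5 8))))] (.c k40 (.l (.s k235 k215 5 (.s k21 k213 7
  (.d k63 k42 k192 6 14)))) (.c k63 (.l (.s k213 k21 7 (.s k192 k234 6 (.s k194 k193 0 (.s k150 k62
  13 (.d k215 k235 k20 5 8)))))) (.c k192 (.l (.s k21 k213 7 (.s k63 k42 6 (.s k151 k107 13 (.s k150
  k148 0 (.d k215 k235 k20 5 8)))))) (.c k235 (.q k40 [(.s k21 k213 7 (.d k63 k42 k192 6 14)), (.s
  k20 k60 5 (.s k63 k192 14 (.s k150 k215 8 (.d k151 k148 k107 0 13))))] (.c k63 (.l (.s k20 k60 5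
  (.s k150 k215 8 (.s k213 k21 7 (.s k192 k234 6 (.d k194 k62 k193 13 0)))))) (.c k192 (.l (.s k20
  k60 5 (.s k21 k213 7 (.s k63 k42 6 (.s k150 k215 8 (.d k151 k148 k107 0 13)))))) .n))) .n))))) (.c
  k150 (.q k149 [(.s k21 k213 7 (.d k63 k42 k192 6 14)), (.s k63 k192 14 (.s k107 k151 13 (.s k105
  k104 0 (.d k65 k130 k125 8 5))))] (.c k63 (.l (.s k213 k21 7 (.s k192 k234 6 (.s k193 k194 0 (.s
  k105 k61 13 (.d k65 k125 k130 5 8)))))) (.c k130 (.q k190 [(.s k21 k213 7 (.d k63 k42 k192 6 14)),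
  (.s k63 k192 14 (.s k107 k151 13 (.s k105 k104 0 (.d k125 k60 k65 8 5))))] (.c k63 (.l (.s k125
  k60 8 (.s k105 k65 5 (.s k213 k21 7 (.s k192 k234 6 (.d k193 k61 k194 13 0)))))) (.c k192 (.l (.s
  k21 k213 7 (.s k63 k42 6 (.s k107 k151 13 (.s k105 k104 0 (.d k125 k60 k65 8 5)))))) .n))) (.c
  k190 (.l (.s k130 k65 8 (.s k21 k213 7 (.d k63 k42 k192 6 14)))) (.c k192 (.l (.s k21 k213 7 (.s
  k63 k42 6 (.s k107 k151 13 (.s k105 k104 0 (.d k65 k125 k130 5 8)))))) .n))))) .n))) (.c k128 (.l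
  (.s k127 k64 6 (.s k63 k191 7 (.s k149 k192 14 (.d k21 k42 k213 6 7))))) (.c k149 (.f k64 k127 6
  (.q k74 [(.s k79 k69 2 (.s k90 k122 3 (.s k80 k95 2 (.d k112 k96 k101 3 6)))), (.s k69 k79 2 (.s
  k138 k207 10 (.s k10 k202 7 (.s k15 k5 2 (.d k192 k128 k133 7 10))))), (.s k90 k122 3 (.s k95 k80
  2 (.s k15 k175 11 (.d k192 k128 k133 7 10))))] (.c k95 (.l (.s k79 k69 2 (.s k90 k122 3 (.s k112
  k101 6 (.s k80 k96 3 (.s k240 k160 11 (.s k165 k15 14 (.d k245 k250 k5 2 11)))))))) (.c k128 (.q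
  k191 [(.s k79 k69 2 (.s k90 k122 3 (.s k80 k95 2 (.d k112 k96 k101 3 6)))), (.s k69 k79 2 (.s k207
  k138 10 (.s k223 k239 3 (.s k154 k16 10 (.d k101 k117 k48 3 14))))), (.s k90 k122 3 (.s k95 k80 2
  (.s k15 k175 11 (.s k5 k10 2 (.d k165 k245 k240 11 14)))))] (.c k95 (.l (.s k79 k69 2 (.s k90 k122
  3 (.s k112 k101 6 (.s k80 k96 3 (.s k240 k160 11 (.s k165 k15 14 (.d k245 k250 k5 2 11)))))))) (.c
  k117 (.l (.s k79 k69 2 (.s k90 k122 3 (.s k112 k101 6 (.d k80 k95 k96 2 3))))) .n))) (.c k191 (.l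
  (.s k128 k192 7 (.s k79 k69 2 (.s k90 k122 3 (.s k80 k95 2 (.d k112 k96 k101 3 6)))))) .n))))) (.c
  k191 (.l (.s k64 k127 6 (.s k192 k128 7 (.s k149 k63 14 (.d k213 k234 k21 6 7))))) (.c k192 (.q k1
  [(.s k3 k2 0 (.s k87 k171 13 (.s k86 k84 0 (.d k169 k253 k252 13 14)))), (.s k127 k64 6 (.s k63
  k191 7 (.s k21 k42 6 (.s k61 k41 5 (.s k253 k169 13 (.s k125 k189 7 (.d k60 k190 k62 8 0))))))),
  (.s k3 k2 0 (.s k127 k64 6 (.s k63 k191 7 (.s k21 k42 6 (.s k23 k43 5 (.s k22 k20 0 (.d k41 k61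
  k60 5 6)))))))] .n) (.c k213 (.q k1 [(.s k3 k2 0 (.s k87 k171 13 (.s k86 k84 0 (.d k169 k253 k252
  13 14)))), (.s k64 k127 6 (.s k169 k253 13 (.s k192 k128 7 (.s k149 k63 14 (.s k129 k189 5 (.s k66
  k3 8 (.d k65 k193 k67 7 0))))))), (.s k3 k2 0 (.s k64 k127 6 (.s k192 k128 7 (.s k66 k129 8 (.s
  k86 k126 5 (.d k87 k84 k171 0 13))))))] (.c k3 (.l (.s k127 k64 6 (.s k63 k191 7 (.s k21 k42 6 (.s
  k61 k41 5 (.s k60 k62 0 (.s k125 k190 8 (.d k253 k189 k169 7 13)))))))) .n)) (.c k234 (.l (.s k127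
  k64 6 (.s k63 k191 7 (.s k21 k42 6 (.d k149 k213 k192 7 14))))) .n))))))))))))

def t7_185 : T TT 256 :=
  (.f k255 k170 14 (.q k106 [(.s k64 k127 6 (.s k192 k128 7 (.s k149 k63 14 (.d k213 k234 k21 6
  7))))] (.c k21 (.q k1 [(.s k3 k2 0 (.s k87 k171 13 (.s k86 k84 0 (.d k169 k253 k252 13 14)))), (.s
  k64 k127 6 (.s k169 k253 13 (.s k192 k128 7 (.s k149 k63 14 (.s k129 k189 5 (.s k65 k193 7 (.d k66
  k67 k3 0 8))))))), (.s k3 k2 0 (.s k64 k127 6 (.s k192 k128 7 (.s k66 k129 8 (.s k86 k126 5 (.d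
  k87 k84 k171 0 13))))))] (.c k3 (.l (.s k64 k127 6 (.s k192 k128 7 (.s k213 k234 6 (.s k253 k169
  13 (.s k193 k233 5 (.s k65 k129 7 (.d k195 k130 k194 8 0)))))))) .n)) (.c k63 (.q k1 [(.s k3 k2 0
  (.s k87 k171 13 (.s k86 k84 0 (.d k169 k253 k252 13 14)))), (.s k64 k127 6 (.s k192 k128 7 (.s
  k213 k234 6 (.s k253 k169 13 (.s k193 k233 5 (.s k65 k129 7 (.d k195 k130 k194 8 0))))))), (.s k3
  k2 0 (.s k64 k127 6 (.s k192 k128 7 (.s k66 k129 8 (.s k86 k126 5 (.d k87 k84 k171 0 13))))))] (.c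
  k171 (.l (.s k3 k2 0 (.s k64 k127 6 (.s k169 k253 13 (.s k86 k252 14 (.s k192 k128 7 (.d k66 k126
  k129 5 8))))))) .n)) (.c k64 (.q k195 [(.s k65 k130 8 (.s k105 k125 5 (.s k150 k60 14 (.d k215
  k235 k20 5 8)))), (.s k65 k130 8 (.s k105 k125 5 (.s k107 k104 0 (.s k63 k151 13 (.s k21 k42 6 (.d
  k149 k213 k192 7 14)))))), (.s k215 k235 5 (.s k150 k20 8 (.s k194 k62 13 (.s k192 k193 0 (.s k149
  k63 14 (.d k213 k234 k21 6 7))))))] (.c k105 (.q k234 [(.s k213 k192 6 (.s k235 k215 5 (.s k233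
  k232 0 (.s k252 k214 6 (.d k253 k254 k193 0 5))))), (.s k192 k213 6 (.s k194 k193 0 (.s k150 k62
  13 (.d k215 k235 k20 5 8)))), (.s k235 k215 5 (.s k232 k233 0 (.s k169 k43 8 (.s k253 k1 13 (.s
  k252 k254 0 (.s k84 k168 13 (.d k86 k87 k3 0 14))))))), (.s k192 k213 6 (.s k63 k149 14 (.s k107
  k151 13 (.s k235 k215 5 (.s k171 k43 7 (.s k87 k3 13 (.d k127 k191 k67 7 5)))))))] (.c k40 (.l (.s
  k235 k215 5 (.s k192 k213 6 (.s k194 k193 0 (.s k214 k254 5 (.d k233 k232 k252 0 6)))))) (.c k215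
  (.l (.s k130 k65 8 (.s k192 k213 6 (.s k194 k193 0 (.s k62 k150 13 (.s k66 k2 7 (.s k126 k86 5 (.d
  k254 k214 k190 5 7)))))))) (.c k235 (.q k40 [(.s k20 k60 5 (.s k150 k215 8 (.s k192 k213 6 (.d
  k194 k193 k62 0 13)))), (.s k130 k65 8 (.s k192 k213 6 (.s k194 k193 0 (.s k62 k150 13 (.s k66 k2
  7 (.s k126 k86 5 (.d k254 k214 k190 5 7))))))), (.s k20 k60 5 (.s k130 k65 8 (.s k150 k215 8 (.s
  k194 k62 13 (.s k66 k2 7 (.s k86 k126 5 (.d k214 k254 k22 5 7))))))), (.s k20 k60 5 (.s k192 k213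
  6 (.s k63 k149 14 (.s k21 k42 6 (.s k23 k22 0 (.s k151 k107 13 (.d k215 k87 k150 7 8)))))))] (.c
  k62 (.l (.s k20 k60 5 (.s k213 k192 6 (.s k215 k150 8 (.s k214 k212 0 (.s k252 k233 6 (.d k254
  k253 k194 0 5))))))) (.c k150 (.l (.s k60 k20 5 (.s k190 k125 8 (.s k192 k213 6 (.s k194 k193 0
  (.s k254 k214 5 (.s k62 k126 7 (.d k63 k61 k149 0 14)))))))) .n))) .n)))) (.c k150 (.q k194 [(.s
  k192 k193 0 (.s k149 k63 14 (.d k213 k234 k21 6 7))), (.s k130 k65 8 (.s k66 k2 7 (.s k86 k126 5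
  (.s k84 k87 0 (.s k252 k168 13 (.s k169 k3 14 (.d k253 k254 k1 0 13)))))))] (.c k130 (.q k190 [(.s
  k192 k193 0 (.s k149 k63 14 (.d k213 k234 k21 6 7))), (.s k60 k125 8 (.s k192 k193 0 (.s k104 k148
  13 (.s k107 k105 0 (.d k63 k151 k149 13 14))))), (.s k192 k193 0 (.s k234 k213 6 (.s k214 k254 5
  (.s k233 k252 6 (.d k235 k232 k215 0 5)))))] (.c k192 (.q k1 [(.s k3 k2 0 (.s k87 k171 13 (.s k86
  k84 0 (.d k169 k253 k252 13 14)))), (.s k3 k2 0 (.s k60 k125 8 (.s k40 k20 5 (.s k41 k22 6 (.s k42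
  k43 0 (.d k21 k61 k63 5 6)))))), (.s k125 k60 8 (.s k65 k105 5 (.s k193 k129 7 (.s k253 k169 13
  (.s k233 k213 5 (.d k252 k254 k214 0 6))))))] (.c k3 (.l (.s k125 k60 8 (.s k65 k105 5 (.s k253
  k169 13 (.s k252 k254 0 (.s k233 k214 6 (.d k193 k213 k129 5 7))))))) (.c k254 (.l (.s k169 k253
  13 (.s k3 k2 0 (.s k86 k252 14 (.d k87 k84 k171 0 13))))) .n))) (.c k193 (.l (.s k125 k60 8 (.s
  k105 k65 5 (.s k107 k104 0 (.s k63 k151 13 (.s k21 k42 6 (.d k149 k192 k213 14 7))))))) .n))) (.c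
  k190 (.l (.s k130 k65 8 (.s k192 k193 0 (.s k149 k63 14 (.d k213 k234 k21 6 7))))) .n))) .n))) (.c
  k127 (.q k195 [(.s k65 k130 8 (.s k215 k235 5 (.s k150 k20 8 (.d k105 k125 k60 5 14)))), (.s k65
  k130 8 (.s k105 k125 5 (.s k107 k104 0 (.s k63 k151 13 (.s k21 k42 6 (.d k149 k213 k192 7
  14)))))), (.s k215 k235 5 (.s k150 k20 8 (.s k194 k62 13 (.s k192 k193 0 (.s k149 k63 14 (.d k213
  k234 k21 6 7))))))] (.c k105 (.q k149 [(.s k21 k213 7 (.d k63 k42 k192 6 14)), (.s k63 k192 14 (.s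
  k151 k107 13 (.s k150 k148 0 (.d k215 k235 k20 5 8))))] (.c k40 (.l (.s k235 k215 5 (.s k21 k213 7
  (.d k63 k42 k192 6 14)))) (.c k63 (.l (.s k213 k21 7 (.s k192 k234 6 (.s k194 k193 0 (.s k150 k62
  13 (.d k215 k235 k20 5 8)))))) (.c k192 (.l (.s k21 k213 7 (.s k63 k42 6 (.s k151 k107 13 (.s k150
  k148 0 (.d k215 k235 k20 5 8)))))) (.c k235 (.q k40 [(.s k21 k213 7 (.d k63 k42 k192 6 14)), (.s
  k20 k60 5 (.s k63 k192 14 (.s k150 k215 8 (.d k151 k148 k107 0 13))))] (.c k63 (.l (.s k20 k60 5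
  (.s k150 k215 8 (.s k213 k21 7 (.s k192 k234 6 (.d k194 k62 k193 13 0)))))) (.c k192 (.l (.s k20
  k60 5 (.s k21 k213 7 (.s k63 k42 6 (.s k150 k215 8 (.d k151 k148 k107 0 13)))))) .n))) .n))))) (.c
  k150 (.q k149 [(.s k21 k213 7 (.d k63 k42 k192 6 14)), (.s k63 k192 14 (.s k107 k151 13 (.s k105
  k104 0 (.d k65 k130 k125 8 5))))] (.c k63 (.l (.s k213 k21 7 (.s k192 k234 6 (.s k193 k194 0 (.s
  k105 k61 13 (.d k65 k125 k130 5 8)))))) (.c k130 (.q k190 [(.s k21 k213 7 (.d k63 k42 k192 6 14)),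
  (.s k63 k192 14 (.s k107 k151 13 (.s k105 k104 0 (.d k125 k60 k65 8 5))))] (.c k63 (.l (.s k125
  k60 8 (.s k105 k65 5 (.s k213 k21 7 (.s k192 k234 6 (.d k193 k61 k194 13 0)))))) (.c k192 (.l (.s
  k21 k213 7 (.s k63 k42 6 (.s k107 k151 13 (.s k105 k104 0 (.d k125 k60 k65 8 5)))))) .n))) (.c
  k190 (.l (.s k130 k65 8 (.s k21 k213 7 (.d k63 k42 k192 6 14)))) (.c k192 (.l (.s k21 k213 7 (.s
  k63 k42 6 (.s k107 k151 13 (.s k105 k104 0 (.d k65 k125 k130 5 8)))))) .n))))) .n))) (.c k128 (.l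
  (.s k127 k64 6 (.s k63 k191 7 (.s k149 k192 14 (.d k21 k42 k213 6 7))))) (.c k149 (.f k64 k127 6
  (.q k80 [(.s k90 k95 2 (.s k74 k122 3 (.s k79 k69 2 (.d k112 k96 k101 3 6)))), (.s k240 k160 11
  (.s k245 k250 2 (.s k165 k5 11 (.d k90 k95 k15 2 14)))), (.s k96 k112 3 (.s k160 k240 11 (.s k32
  k224 7 (.s k48 k16 3 (.d k192 k128 k144 7 11)))))] (.c k128 (.q k191 [(.s k90 k95 2 (.s k74 k122 3
  (.s k79 k69 2 (.d k112 k96 k101 3 6)))), (.s k240 k160 11 (.s k245 k250 2 (.s k165 k5 11 (.d k90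
  k95 k15 2 14)))), (.s k96 k112 3 (.s k160 k240 11 (.s k32 k224 7 (.s k48 k16 3 (.s k117 k186 10
  (.d k101 k111 k69 2 3))))))] .n) (.c k191 (.l (.s k128 k192 7 (.s k90 k95 2 (.s k74 k122 3 (.s k79
  k69 2 (.d k112 k96 k101 3 6)))))) .n)))) (.c k191 (.l (.s k64 k127 6 (.s k192 k128 7 (.s k149 k63
  14 (.d k213 k234 k21 6 7))))) (.c k192 (.q k1 [(.s k3 k2 0 (.s k87 k171 13 (.s k86 k84 0 (.d k169
  k253 k252 13 14)))), (.s k127 k64 6 (.s k63 k191 7 (.s k21 k42 6 (.s k61 k41 5 (.s k253 k169 13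
  (.s k125 k189 7 (.d k60 k190 k62 8 0))))))), (.s k3 k2 0 (.s k127 k64 6 (.s k63 k191 7 (.s k21 k42
  6 (.s k23 k43 5 (.s k22 k20 0 (.d k41 k61 k60 5 6)))))))] .n) (.c k213 (.q k1 [(.s k3 k2 0 (.s k87
  k171 13 (.s k86 k84 0 (.d k169 k253 k252 13 14)))), (.s k64 k127 6 (.s k169 k253 13 (.s k192 k128
  7 (.s k149 k63 14 (.s k129 k189 5 (.s k66 k3 8 (.d k65 k193 k67 7 0))))))), (.s k3 k2 0 (.s k64
  k127 6 (.s k192 k128 7 (.s k66 k129 8 (.s k86 k126 5 (.d k87 k84 k171 0 13))))))] (.c k3 (.l (.s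
  k127 k64 6 (.s k63 k191 7 (.s k21 k42 6 (.s k61 k41 5 (.s k60 k62 0 (.s k125 k190 8 (.d k253 k189
  k169 7 13)))))))) .n)) (.c k234 (.l (.s k127 k64 6 (.s k63 k191 7 (.s k21 k42 6 (.d k149 k213 k192
  7 14))))) .n))))))))))))

def t7_186 : T TT 256 :=
  (.q k86 [(.s k84 k87 0 (.s k252 k168 13 (.s k3 k169 14 (.s k2 k1 0 (.d k170 k254 k255 13 14))))),
  (.s k87 k84 0 (.s k255 k170 14 (.s k3 k171 13 (.s k1 k2 0 (.d k169 k253 k252 13 14)))))] (.c k1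
  (.q k4 [(.s k12 k8 1 (.s k166 k247 12 (.s k89 k243 14 (.s k93 k81 1 (.d k255 k174 k170 12 14))))),
  (.s k12 k8 1 (.s k84 k87 0 (.s k164 k244 11 (.s k88 k240 13 (.s k92 k80 1 (.d k252 k172 k168 11
  13)))))), (.s k12 k8 1 (.s k255 k170 14 (.s k93 k174 12 (.s k89 k81 1 (.d k166 k247 k243 12
  14)))))] (.c k8 (.l (.s k84 k87 0 (.s k164 k244 11 (.s k168 k252 13 (.s k160 k172 1 (.s k170 k255
  14 (.s k165 k175 2 (.d k166 k167 k247 0 12)))))))) (.c k12 (.l (.s k84 k87 0 (.s k244 k164 11 (.s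
  k247 k166 12 (.s k245 k246 0 (.s k252 k168 13 (.s k240 k248 1 (.d k255 k250 k170 2 14)))))))) (.c
  k247 (.l (.s k12 k8 1 (.s k255 k170 14 (.s k93 k174 12 (.s k89 k81 1 (.s k92 k83 2 (.s k252 k172
  11 (.d k84 k87 k168 0 13)))))))) .n)))) (.c k2 (.l (.s k84 k87 0 (.s k252 k168 13 (.s k169 k3 14
  (.s k253 k1 13 (.d k255 k254 k170 0 14)))))) (.c k3 (.f k255 k170 14 (.q k154 [(.s k223 k16 10 (.s
  k207 k239 3 (.s k69 k138 10 (.d k101 k117 k48 3 14)))), (.s k16 k223 10 (.s k18 k222 9 (.s k19 k17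
  0 (.s k84 k87 0 (.d k220 k152 k153 9 10))))), (.s k84 k87 0 (.s k222 k18 9 (.s k252 k168 13 (.s
  k207 k237 4 (.s k69 k138 10 (.d k101 k48 k117 14 3))))))] (.c k11 (.q k15 [(.s k223 k16 10 (.s
  k207 k239 3 (.s k69 k138 10 (.d k101 k117 k48 3 14)))), (.s k5 k10 2 (.s k95 k175 11 (.s k90 k80 2
  (.d k165 k245 k240 11 14))))] .n) (.c k15 (.q k11 [(.s k223 k16 10 (.s k207 k239 3 (.s k69 k138 10
  (.d k101 k117 k48 3 14)))), (.s k16 k223 10 (.s k18 k222 9 (.s k19 k17 0 (.s k84 k87 0 (.d k220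
  k152 k153 9 10))))), (.s k84 k87 0 (.s k222 k18 9 (.s k252 k168 13 (.s k207 k237 4 (.s k69 k138 10
  (.d k101 k48 k117 14 3))))))] .n) .n)))) (.c k84 (.q k12 [(.s k4 k8 1 (.s k166 k247 12 (.s k89
  k243 14 (.s k93 k81 1 (.d k255 k174 k170 12 14))))), (.s k4 k8 1 (.s k166 k247 12 (.s k6 k246 11
  (.s k3 k9 2 (.s k1 k2 0 (.d k169 k253 k252 13 14)))))), (.s k170 k255 14 (.s k2 k254 13 (.s k3 k1
  0 (.s k6 k9 2 (.s k166 k246 11 (.s k162 k174 1 (.d k243 k81 k89 12 14)))))))] (.c k166 (.l (.s k8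
  k4 1 (.s k170 k255 14 (.s k2 k254 13 (.s k3 k1 0 (.s k89 k251 12 (.s k92 k83 2 (.d k252 k172 k169
  11 14)))))))) .n)) (.c k87 (.q k51 [(.s k17 k34 4 (.s k153 k221 9 (.s k102 k204 14 (.s k119 k68 4
  (.d k255 k187 k170 9 14))))), (.s k17 k34 4 (.s k153 k221 9 (.s k19 k220 10 (.s k3 k35 3 (.s k1 k2
  0 (.d k169 k253 k252 13 14)))))), (.s k170 k255 14 (.s k2 k254 13 (.s k3 k1 0 (.s k19 k35 3 (.s
  k153 k220 10 (.s k136 k187 4 (.d k204 k68 k102 9 14)))))))] (.c k153 (.l (.s k34 k17 4 (.s k170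
  k255 14 (.s k2 k254 13 (.s k3 k1 0 (.s k35 k19 3 (.s k33 k32 0 (.d k18 k50 k48 3 4)))))))) (.c
  k167 (.q k247 [(.s k17 k34 4 (.s k153 k221 9 (.s k102 k204 14 (.s k119 k68 4 (.d k255 k187 k170 9
  14))))), (.s k166 k4 12 (.s k255 k170 14 (.s k243 k251 1 (.s k81 k162 12 (.d k89 k93 k12 1
  14))))), (.s k4 k166 12 (.s k12 k8 1 (.s k34 k17 4 (.s k38 k25 6 (.s k21 k55 4 (.d k42 k46 k63 1
  6))))))] .n) (.c k247 (.q k167 [(.s k17 k34 4 (.s k153 k221 9 (.s k102 k204 14 (.s k119 k68 4 (.d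
  k255 k187 k170 9 14))))), (.s k17 k34 4 (.s k153 k221 9 (.s k19 k220 10 (.s k3 k35 3 (.s k1 k2 0
  (.d k169 k253 k252 13 14)))))), (.s k170 k255 14 (.s k2 k254 13 (.s k3 k1 0 (.s k19 k35 3 (.s k153
  k220 10 (.s k136 k187 4 (.d k204 k68 k102 9 14)))))))] (.c k153 (.l (.s k34 k17 4 (.s k170 k255 14
  (.s k2 k254 13 (.s k3 k1 0 (.s k35 k19 3 (.s k33 k32 0 (.d k18 k50 k48 3 4)))))))) .n)) .n)))) (.c
  k168 (.l (.s k87 k84 0 (.s k255 k170 14 (.s k3 k171 13 (.s k169 k252 14 (.d k1 k2 k253 0 13))))))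
  (.c k169 (.q k4 [(.s k12 k8 1 (.s k166 k247 12 (.s k89 k243 14 (.s k93 k81 1 (.d k255 k174 k170 12
  14))))), (.s k12 k8 1 (.s k84 k87 0 (.s k164 k244 11 (.s k88 k240 13 (.s k92 k80 1 (.d k252 k172
  k168 11 13)))))), (.s k12 k8 1 (.s k255 k170 14 (.s k93 k174 12 (.s k89 k81 1 (.d k166 k247 k243
  12 14)))))] (.c k8 (.l (.s k84 k87 0 (.s k164 k244 11 (.s k168 k252 13 (.s k160 k172 1 (.s k170
  k255 14 (.s k165 k175 2 (.d k166 k167 k247 0 12)))))))) (.c k12 (.l (.s k84 k87 0 (.s k244 k164 11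
  (.s k247 k166 12 (.s k245 k246 0 (.s k252 k168 13 (.s k240 k248 1 (.d k255 k170 k250 14 2))))))))
  (.c k247 (.l (.s k12 k8 1 (.s k255 k170 14 (.s k93 k174 12 (.s k89 k81 1 (.s k92 k83 2 (.s k252
  k172 11 (.d k84 k168 k87 13 0)))))))) .n)))) (.c k170 (.q k154 [(.s k87 k84 0 (.s k222 k18 9 (.s
  k223 k16 10 (.s k19 k155 9 (.d k220 k221 k153 0 10))))), (.s k84 k87 0 (.s k222 k18 9 (.s k252
  k168 13 (.s k207 k237 4 (.s k69 k138 10 (.d k101 k117 k48 3 14)))))), (.s k16 k223 10 (.s k48 k32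
  3 (.s k84 k87 0 (.s k101 k207 14 (.s k116 k71 4 (.d k252 k184 k168 9 13)))))), (.s k16 k223 10 (.s
  k18 k222 9 (.s k48 k32 3 (.s k3 k33 4 (.s k1 k2 0 (.d k169 k253 k252 13 14))))))] .n) (.c k171 (.l
  (.s k84 k87 0 (.s k252 k168 13 (.s k3 k169 14 (.s k170 k255 14 (.d k2 k1 k254 0 13)))))) (.c k252
  (.q k17 [(.s k51 k34 4 (.s k153 k221 9 (.s k102 k204 14 (.s k119 k68 4 (.d k255 k187 k170 9
  14))))), (.s k87 k84 0 (.s k153 k221 9 (.s k19 k220 10 (.s k16 k18 0 (.d k223 k155 k154 9 10))))),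
  (.s k51 k34 4 (.s k87 k84 0 (.s k255 k170 14 (.s k3 k171 13 (.s k19 k35 3 (.s k16 k18 0 (.d k223
  k154 k155 10 9)))))))] .n) (.c k255 (.q k48 [(.s k16 k32 3 (.s k87 k84 0 (.s k223 k154 10 (.s k19
  k155 9 (.s k17 k18 0 (.d k153 k221 k220 9 10)))))), (.s k84 k87 0 (.s k252 k168 13 (.s k116 k184 9
  (.s k101 k71 4 (.s k69 k117 3 (.d k207 k138 k154 10 14)))))), (.s k16 k32 3 (.s k154 k223 10 (.s
  k18 k222 9 (.s k3 k33 4 (.s k1 k2 0 (.d k169 k253 k252 13 14))))))] (.c k154 (.l (.s k16 k32 3 (.s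
  k84 k87 0 (.s k152 k220 9 (.s k100 k204 13 (.s k116 k68 3 (.d k252 k184 k168 9 13))))))) .n))
  .n))))))))))))

def t7_187 : T TT 256 :=
  (.q k86 [(.s k84 k87 0 (.s k252 k168 13 (.s k3 k169 14 (.s k2 k1 0 (.d k170 k254 k255 13 14))))),
  (.s k87 k84 0 (.s k255 k170 14 (.s k3 k171 13 (.s k1 k2 0 (.d k169 k253 k252 13 14)))))] (.c k1
  (.q k4 [(.s k12 k8 1 (.s k166 k247 12 (.s k89 k243 14 (.s k93 k81 1 (.d k255 k174 k170 12 14))))),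
  (.s k12 k8 1 (.s k84 k87 0 (.s k164 k244 11 (.s k88 k240 13 (.s k92 k80 1 (.d k252 k172 k168 11
  13)))))), (.s k12 k8 1 (.s k255 k170 14 (.s k93 k174 12 (.s k89 k81 1 (.d k166 k247 k243 12
  14)))))] (.c k8 (.l (.s k84 k87 0 (.s k164 k244 11 (.s k168 k252 13 (.s k160 k172 1 (.s k170 k255
  14 (.s k165 k175 2 (.d k166 k167 k247 0 12)))))))) (.c k12 (.l (.s k84 k87 0 (.s k244 k164 11 (.s
  k247 k166 12 (.s k245 k246 0 (.s k252 k168 13 (.s k240 k248 1 (.d k255 k250 k170 2 14)))))))) (.c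
  k247 (.l (.s k12 k8 1 (.s k255 k170 14 (.s k93 k174 12 (.s k89 k81 1 (.s k92 k83 2 (.s k252 k172
  11 (.d k84 k87 k168 0 13)))))))) .n)))) (.c k2 (.l (.s k84 k87 0 (.s k252 k168 13 (.s k169 k3 14
  (.s k253 k1 13 (.d k255 k254 k170 0 14)))))) (.c k3 (.f k255 k170 14 (.f k87 k84 0 (.q k153 [(.s
  k221 k17 9 (.s k204 k238 4 (.s k68 k136 9 (.d k102 k119 k51 4 14)))), (.s k19 k220 10 (.s k223
  k155 9 (.s k207 k239 3 (.s k69 k138 10 (.s k101 k117 3 (.d k154 k16 k48 10 14))))))] (.c k11 (.q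
  k15 [(.s k17 k221 9 (.s k19 k220 10 (.s k16 k18 0 (.d k223 k155 k154 9 10)))), (.s k5 k10 2 (.s
  k95 k175 11 (.s k90 k80 2 (.d k165 k245 k240 11 14))))] .n) (.c k15 (.q k11 [(.s k221 k17 9 (.s
  k204 k238 4 (.s k68 k136 9 (.d k102 k119 k51 4 14)))), (.s k19 k220 10 (.s k223 k155 9 (.s k207
  k239 3 (.s k69 k138 10 (.s k101 k117 3 (.d k154 k16 k48 10 14))))))] .n) .n))))) (.c k84 (.q k12
  [(.s k4 k8 1 (.s k166 k247 12 (.s k89 k243 14 (.s k93 k81 1 (.d k255 k174 k170 12 14))))), (.s k4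
  k8 1 (.s k166 k247 12 (.s k6 k246 11 (.s k3 k9 2 (.s k1 k2 0 (.d k169 k253 k252 13 14)))))), (.s
  k170 k255 14 (.s k2 k254 13 (.s k3 k1 0 (.s k6 k9 2 (.s k166 k246 11 (.s k162 k174 1 (.d k243 k81
  k89 12 14)))))))] (.c k166 (.l (.s k8 k4 1 (.s k170 k255 14 (.s k2 k254 13 (.s k3 k1 0 (.s k89
  k251 12 (.s k92 k83 2 (.d k252 k172 k169 11 14)))))))) .n)) (.c k87 (.q k48 [(.s k16 k32 3 (.s
  k154 k223 10 (.s k101 k207 14 (.s k117 k69 3 (.d k255 k186 k170 10 14))))), (.s k16 k32 3 (.s k154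
  k223 10 (.s k18 k222 9 (.s k3 k33 4 (.s k1 k2 0 (.d k169 k253 k252 13 14)))))), (.s k170 k255 14
  (.s k2 k254 13 (.s k3 k1 0 (.s k18 k33 4 (.s k154 k222 9 (.s k138 k186 3 (.d k207 k69 k101 10
  14)))))))] (.c k154 (.l (.s k16 k32 3 (.s k170 k255 14 (.s k2 k254 13 (.s k3 k1 0 (.s k18 k33 4
  (.s k17 k19 0 (.d k34 k51 k50 4 3)))))))) (.c k167 (.q k247 [(.s k16 k32 3 (.s k154 k223 10 (.s
  k101 k207 14 (.s k117 k69 3 (.d k255 k186 k170 10 14))))), (.s k166 k4 12 (.s k255 k170 14 (.s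
  k243 k251 1 (.s k81 k162 12 (.d k89 k93 k12 1 14))))), (.s k4 k166 12 (.s k12 k8 1 (.s k32 k16 3
  (.s k36 k24 5 (.s k20 k52 3 (.d k40 k44 k60 1 5))))))] .n) (.c k247 (.q k167 [(.s k16 k32 3 (.s
  k154 k223 10 (.s k101 k207 14 (.s k117 k69 3 (.d k255 k186 k170 10 14))))), (.s k16 k32 3 (.s k154
  k223 10 (.s k18 k222 9 (.s k3 k33 4 (.s k1 k2 0 (.d k169 k253 k252 13 14)))))), (.s k170 k255 14
  (.s k2 k254 13 (.s k3 k1 0 (.s k18 k33 4 (.s k154 k222 9 (.s k138 k186 3 (.d k207 k69 k101 10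
  14)))))))] (.c k154 (.l (.s k16 k32 3 (.s k170 k255 14 (.s k2 k254 13 (.s k3 k1 0 (.s k18 k33 4
  (.s k17 k19 0 (.d k34 k51 k50 4 3)))))))) .n)) .n)))) (.c k168 (.l (.s k87 k84 0 (.s k255 k170 14
  (.s k3 k171 13 (.s k169 k252 14 (.d k1 k2 k253 0 13)))))) (.c k169 (.q k4 [(.s k12 k8 1 (.s k166
  k247 12 (.s k89 k243 14 (.s k93 k81 1 (.d k255 k174 k170 12 14))))), (.s k12 k8 1 (.s k84 k87 0
  (.s k164 k244 11 (.s k88 k240 13 (.s k92 k80 1 (.d k252 k172 k168 11 13)))))), (.s k12 k8 1 (.s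
  k255 k170 14 (.s k93 k174 12 (.s k89 k81 1 (.d k166 k247 k243 12 14)))))] (.c k8 (.l (.s k84 k87 0
  (.s k164 k244 11 (.s k168 k252 13 (.s k160 k172 1 (.s k170 k255 14 (.s k165 k175 2 (.d k166 k167
  k247 0 12)))))))) (.c k12 (.l (.s k84 k87 0 (.s k244 k164 11 (.s k247 k166 12 (.s k245 k246 0 (.s
  k252 k168 13 (.s k240 k248 1 (.d k255 k170 k250 14 2)))))))) (.c k247 (.l (.s k12 k8 1 (.s k255
  k170 14 (.s k93 k174 12 (.s k89 k81 1 (.s k92 k83 2 (.s k252 k172 11 (.d k84 k168 k87 13 0))))))))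
  .n)))) (.c k170 (.q k153 [(.s k17 k221 9 (.s k19 k220 10 (.s k16 k18 0 (.s k87 k84 0 (.d k223 k155
  k154 9 10))))), (.s k17 k221 9 (.s k51 k34 4 (.s k84 k87 0 (.s k102 k204 14 (.s k118 k70 3 (.d
  k252 k185 k168 10 13)))))), (.s k17 k221 9 (.s k19 k220 10 (.s k51 k34 4 (.s k3 k35 3 (.s k1 k2 0
  (.d k169 k253 k252 13 14)))))), (.s k84 k87 0 (.s k220 k19 10 (.s k252 k168 13 (.s k204 k236 3 (.s
  k68 k136 9 (.d k102 k119 k51 4 14))))))] .n) (.c k171 (.l (.s k84 k87 0 (.s k252 k168 13 (.s k3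
  k169 14 (.s k170 k255 14 (.d k2 k1 k254 0 13)))))) (.c k252 (.q k21 [(.s k63 k42 6 (.s k149 k213 7
  (.s k106 k192 14 (.s k127 k64 6 (.d k255 k191 k170 7 14))))), (.s k87 k84 0 (.s k149 k213 7 (.s
  k23 k212 8 (.s k20 k22 0 (.d k215 k151 k150 7 8))))), (.s k63 k42 6 (.s k87 k84 0 (.s k255 k170 14
  (.s k3 k171 13 (.s k23 k43 5 (.s k20 k22 0 (.d k215 k151 k150 7 8)))))))] .n) (.c k255 (.q k51
  [(.s k17 k34 4 (.s k87 k84 0 (.s k153 k221 9 (.s k19 k220 10 (.s k16 k18 0 (.d k223 k155 k154 9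
  10)))))), (.s k84 k87 0 (.s k252 k168 13 (.s k118 k185 10 (.s k102 k70 3 (.s k68 k119 4 (.d k204
  k136 k153 9 14)))))), (.s k17 k34 4 (.s k153 k221 9 (.s k19 k220 10 (.s k3 k35 3 (.s k1 k2 0 (.d
  k169 k253 k252 13 14))))))] (.c k153 (.f k17 k34 4 (.l (.s k84 k87 0 (.s k252 k168 13 (.s k3 k169
  14 (.s k1 k2 0 (.s k19 k35 3 (.s k18 k16 0 (.d k33 k49 k48 3 4))))))))) (.c k204 (.l (.s k17 k34 4
  (.s k84 k87 0 (.s k252 k168 13 (.s k3 k169 14 (.s k19 k35 3 (.d k153 k221 k220 9 10))))))) .n)))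
  .n))))))))))))

def t7_188 : T TT 256 :=
  (.f k255 k170 14 (.q k106 [(.s k64 k127 6 (.s k192 k128 7 (.s k149 k63 14 (.d k213 k234 k21 6
  7)))), (.s k127 k64 6 (.s k63 k191 7 (.s k149 k192 14 (.d k21 k42 k213 6 7))))] (.c k21 (.q k1
  [(.s k3 k2 0 (.s k87 k171 13 (.s k86 k84 0 (.d k169 k253 k252 13 14)))), (.s k64 k127 6 (.s k192
  k128 7 (.s k213 k234 6 (.s k253 k169 13 (.s k193 k233 5 (.s k65 k129 7 (.d k195 k130 k194 8
  0))))))), (.s k3 k2 0 (.s k127 k64 6 (.s k63 k191 7 (.s k43 k23 5 (.d k169 k232 k253 8 13))))),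
  (.s k3 k2 0 (.s k64 k127 6 (.s k192 k128 7 (.s k66 k129 8 (.s k86 k126 5 (.d k87 k84 k171 0
  13))))))] .n) (.c k63 (.q k1 [(.s k3 k2 0 (.s k87 k171 13 (.s k86 k84 0 (.d k169 k253 k252 13
  14)))), (.s k64 k127 6 (.s k192 k128 7 (.s k213 k234 6 (.s k253 k169 13 (.s k193 k233 5 (.s k65
  k129 7 (.d k195 k130 k194 8 0))))))), (.s k3 k2 0 (.s k64 k127 6 (.s k192 k128 7 (.s k66 k129 8
  (.s k86 k126 5 (.d k87 k84 k171 0 13))))))] (.c k168 (.l (.s k3 k2 0 (.s k87 k171 13 (.s k169 k253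
  13 (.d k86 k84 k252 0 14))))) (.c k171 (.l (.s k3 k2 0 (.s k64 k127 6 (.s k169 k253 13 (.s k86
  k252 14 (.s k192 k128 7 (.d k66 k126 k129 5 8))))))) .n))) (.c k64 (.q k195 [(.s k65 k130 8 (.s
  k105 k125 5 (.s k215 k235 5 (.d k150 k20 k60 8 14)))), (.s k65 k130 8 (.s k105 k125 5 (.s k107
  k104 0 (.s k63 k151 13 (.s k21 k42 6 (.d k149 k213 k192 7 14)))))), (.s k215 k235 5 (.s k150 k20 8
  (.s k194 k62 13 (.s k192 k193 0 (.s k149 k63 14 (.d k213 k234 k21 6 7))))))] (.c k105 (.q k207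
  [(.s k69 k138 10 (.s k101 k117 3 (.s k154 k48 14 (.d k223 k239 k16 3 10)))), (.s k203 k199 1 (.s
  k235 k215 5 (.s k219 k251 3 (.s k231 k243 5 (.d k239 k227 k223 1 3))))), (.s k65 k130 8 (.s k69
  k138 10 (.s k73 k77 1 (.s k134 k12 10 (.d k199 k203 k4 1 8)))))] (.c k40 (.l (.s k235 k215 5 (.s
  k69 k138 10 (.s k101 k117 3 (.s k154 k48 14 (.d k223 k239 k16 3 10)))))) (.c k235 (.q k40 [(.s k69
  k138 10 (.s k101 k117 3 (.s k154 k48 14 (.d k223 k239 k16 3 10)))), (.s k20 k60 5 (.s k150 k215 8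
  (.s k194 k62 13 (.s k192 k193 0 (.s k213 k234 6 (.d k149 k63 k21 14 7))))))] .n) .n))) (.c k150
  (.f k235 k215 5 (.q k169 [(.s k1 k253 13 (.s k43 k232 8 (.s k171 k107 7 (.d k3 k2 k87 0 13)))),
  (.s k232 k43 8 (.s k233 k234 0 (.s k105 k41 7 (.d k65 k130 k125 8 5)))), (.s k1 k253 13 (.s k3 k2
  0 (.s k86 k252 14 (.d k87 k84 k171 0 13))))] (.c k130 (.q k190 [(.s k1 k253 13 (.s k43 k232 8 (.s
  k171 k107 7 (.d k3 k2 k87 0 13)))), (.s k125 k60 8 (.s k105 k65 5 (.s k232 k43 8 (.d k233 k234 k41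
  0 7)))), (.s k1 k253 13 (.s k3 k2 0 (.s k86 k252 14 (.d k87 k84 k171 0 13))))] .n) (.c k190 (.l
  (.s k130 k65 8 (.s k1 k253 13 (.s k3 k2 0 (.s k43 k232 8 (.d k171 k107 k87 7 13)))))) .n)))) .n)))
  (.c k127 (.q k195 [(.s k65 k130 8 (.s k215 k235 5 (.s k150 k20 8 (.d k105 k125 k60 5 14)))), (.s
  k65 k130 8 (.s k105 k125 5 (.s k107 k104 0 (.s k63 k151 13 (.s k21 k42 6 (.d k149 k213 k192 7
  14)))))), (.s k215 k235 5 (.s k150 k20 8 (.s k194 k62 13 (.s k192 k193 0 (.s k149 k63 14 (.d k213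
  k234 k21 6 7))))))] (.c k105 (.q k149 [(.s k21 k213 7 (.d k63 k42 k192 6 14)), (.s k63 k192 14 (.s
  k151 k107 13 (.s k150 k148 0 (.d k215 k235 k20 5 8))))] (.c k40 (.l (.s k235 k215 5 (.s k21 k213 7
  (.d k63 k42 k192 6 14)))) (.c k63 (.l (.s k213 k21 7 (.s k192 k234 6 (.s k194 k193 0 (.s k150 k62
  13 (.d k215 k235 k20 5 8)))))) (.c k192 (.l (.s k21 k213 7 (.s k63 k42 6 (.s k151 k107 13 (.s k150
  k148 0 (.d k215 k235 k20 5 8)))))) (.c k235 (.q k40 [(.s k21 k213 7 (.d k63 k42 k192 6 14)), (.s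
  k20 k60 5 (.s k63 k192 14 (.s k150 k215 8 (.d k151 k148 k107 0 13))))] (.c k63 (.l (.s k20 k60 5
  (.s k150 k215 8 (.s k213 k21 7 (.s k192 k234 6 (.d k194 k62 k193 13 0)))))) (.c k192 (.l (.s k20
  k60 5 (.s k21 k213 7 (.s k63 k42 6 (.s k150 k215 8 (.d k151 k148 k107 0 13)))))) .n))) .n))))) (.c
  k150 (.q k169 [(.s k1 k253 13 (.s k3 k2 0 (.s k87 k171 13 (.d k86 k84 k252 0 14)))), (.s k43 k232
  8 (.s k235 k215 5 (.s k107 k171 7 (.s k105 k104 0 (.d k65 k130 k125 8 5)))))] (.c k130 (.q k190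
  [(.s k253 k1 13 (.s k252 k254 0 (.s k86 k3 14 (.d k84 k87 k168 0 13)))), (.s k43 k232 8 (.s k125
  k60 8 (.s k105 k65 5 (.s k107 k104 0 (.d k235 k215 k171 5 7))))), (.s k1 k253 13 (.s k3 k2 0 (.s
  k43 k232 8 (.s k171 k87 13 (.d k235 k107 k215 7 5)))))] .n) (.c k171 (.l (.s k253 k1 13 (.s k252
  k254 0 (.s k84 k168 13 (.d k86 k87 k3 0 14))))) (.c k190 (.l (.s k130 k65 8 (.s k1 k253 13 (.s k3
  k2 0 (.s k86 k252 14 (.d k87 k84 k171 0 13)))))) .n)))) .n))) (.c k128 (.l (.s k127 k64 6 (.s k63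
  k191 7 (.s k149 k192 14 (.d k21 k42 k213 6 7))))) (.c k149 (.f k64 k127 6 (.f k128 k192 7 (.q k65
  [(.s k105 k125 5 (.s k104 k107 0 (.s k124 k84 5 (.d k67 k66 k86 0 6)))), (.s k195 k130 8 (.s k215
  k235 5 (.s k150 k20 8 (.d k105 k125 k60 5 14)))), (.s k67 k66 0 (.s k195 k130 8 (.s k3 k131 7 (.s
  k87 k171 13 (.s k86 k84 0 (.s k169 k252 14 (.d k1 k2 k253 0 13)))))))] .n))) (.c k191 (.l (.s k64
  k127 6 (.s k192 k128 7 (.s k149 k63 14 (.d k213 k234 k21 6 7))))) (.c k192 (.q k1 [(.s k3 k2 0 (.s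
  k87 k171 13 (.s k86 k84 0 (.d k169 k253 k252 13 14)))), (.s k3 k2 0 (.s k127 k64 6 (.s k63 k191 7
  (.s k21 k42 6 (.s k23 k43 5 (.s k22 k20 0 (.d k41 k61 k60 5 6))))))), (.s k127 k64 6 (.s k63 k191
  7 (.s k21 k42 6 (.s k61 k41 5 (.s k253 k169 13 (.s k189 k125 7 (.d k252 k254 k126 0 8)))))))] (.c
  k254 (.l (.s k169 k253 13 (.s k3 k2 0 (.s k86 k252 14 (.d k87 k84 k171 0 13))))) .n)) (.c k213 (.q
  k1 [(.s k3 k2 0 (.s k87 k171 13 (.s k86 k84 0 (.d k169 k253 k252 13 14)))), (.s k127 k64 6 (.s k63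
  k191 7 (.s k169 k253 13 (.s k43 k232 8 (.d k3 k2 k23 0 5))))), (.s k3 k2 0 (.s k64 k127 6 (.s k192
  k128 7 (.s k66 k129 8 (.s k86 k126 5 (.d k87 k84 k171 0 13))))))] (.c k2 (.l (.s k64 k127 6 (.s
  k169 k253 13 (.s k192 k128 7 (.s k149 k63 14 (.s k129 k189 5 (.s k66 k3 8 (.d k65 k193 k67 7
  0)))))))) (.c k3 (.l (.s k127 k64 6 (.s k63 k191 7 (.s k21 k42 6 (.s k61 k41 5 (.s k60 k62 0 (.s
  k253 k169 13 (.d k125 k189 k190 7 8)))))))) .n))) .n)))))))))))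

def t7_189 : T TT 256 :=
  (.f k255 k170 14 (.q k105 [(.s k65 k125 5 (.s k195 k130 8 (.s k150 k60 14 (.d k215 k235 k20 5
  8)))), (.s k125 k65 5 (.s k60 k190 8 (.s k20 k40 5 (.d k150 k215 k195 8 14))))] (.c k20 (.q k1
  [(.s k3 k2 0 (.s k87 k171 13 (.s k86 k84 0 (.d k169 k253 k252 13 14)))), (.s k65 k125 5 (.s k193
  k129 7 (.s k61 k149 13 (.s k169 k253 13 (.d k41 k21 k233 5 7)))))] (.c k169 (.l (.s k3 k2 0 (.s
  k65 k125 5 (.s k129 k193 7 (.s k66 k192 8 (.s k67 k64 0 (.d k195 k131 k130 7 8))))))) (.c k253 (.l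
  (.s k3 k2 0 (.s k87 k171 13 (.s k86 k84 0 (.s k67 k124 6 (.s k195 k131 7 (.d k65 k125 k130 5
  8))))))) .n))) (.c k60 (.q k1 [(.s k3 k2 0 (.s k87 k171 13 (.s k86 k84 0 (.d k169 k253 k252 13
  14)))), (.s k65 k125 5 (.s k193 k129 7 (.s k61 k149 13 (.s k169 k253 13 (.d k41 k21 k233 5 7)))))]
  (.c k169 (.l (.s k3 k2 0 (.s k65 k125 5 (.s k129 k193 7 (.s k66 k192 8 (.s k67 k64 0 (.d k195 k131
  k130 7 8))))))) (.c k253 (.l (.s k3 k2 0 (.s k87 k171 13 (.s k86 k84 0 (.s k67 k124 6 (.s k195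
  k131 7 (.d k65 k125 k130 5 8))))))) .n))) (.c k65 (.q k64 [(.s k106 k127 6 (.s k192 k128 7 (.s
  k213 k234 6 (.d k149 k21 k63 7 14)))), (.s k106 k127 6 (.s k104 k107 0 (.s k84 k124 5 (.s k252
  k168 13 (.s k253 k254 0 (.s k169 k1 13 (.d k86 k87 k3 0 14)))))))] (.c k106 (.f k192 k128 7 (.q
  k149 [(.d k213 k234 k21 6 7), (.s k193 k61 13 (.s k195 k194 0 (.s k150 k60 14 (.d k215 k235 k20 5
  8))))] (.c k42 (.l (.s k234 k213 6 (.s k193 k61 13 (.s k195 k194 0 (.s k150 k60 14 (.d k215 k235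
  k20 5 8)))))) (.c k234 (.q k42 [(.d k21 k63 k213 6 7), (.s k193 k61 13 (.s k195 k194 0 (.s k215
  k235 5 (.d k150 k20 k60 8 14))))] .n) .n)))) (.c k127 (.l (.s k192 k128 7 (.s k213 k234 6 (.s k149
  k21 7 (.s k193 k61 13 (.s k195 k194 0 (.s k150 k60 14 (.d k215 k235 k20 5 8)))))))) .n))) (.c k125
  (.q k169 [(.s k253 k1 13 (.s k252 k254 0 (.s k84 k168 13 (.d k86 k87 k3 0 14)))), (.s k233 k41 7
  (.s k253 k1 13 (.s k213 k193 5 (.s k192 k234 6 (.s k64 k128 7 (.s k106 k127 6 (.d k149 k21 k63 7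
  14)))))))] (.c k1 (.q k253 [(.s k252 k254 0 (.s k84 k168 13 (.d k86 k87 k3 0 14))), (.s k233 k41 7
  (.s k213 k193 5 (.s k192 k234 6 (.s k64 k128 7 (.s k106 k127 6 (.d k149 k21 k63 7 14))))))] .n)
  (.c k61 (.l (.s k253 k1 13 (.s k252 k254 0 (.s k84 k168 13 (.d k86 k87 k3 0 14))))) (.c k253 (.q
  k61 [(.s k41 k233 7 (.s k21 k1 5 (.d k149 k213 k193 7 13))), (.s k149 k193 13 (.s k213 k21 7 (.s
  k192 k234 6 (.s k64 k128 7 (.d k106 k127 k63 6 14)))))] (.c k21 (.q k1 [(.s k3 k2 0 (.s k87 k171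
  13 (.d k86 k84 k252 0 14))), (.s k193 k149 13 (.s k65 k129 7 (.s k195 k130 8 (.s k150 k60 14 (.d
  k215 k235 k20 5 8)))))] .n) (.c k149 (.l (.s k41 k233 7 (.s k1 k21 5 (.s k3 k2 0 (.s k86 k252 14
  (.d k87 k84 k171 0 13)))))) (.c k193 (.q k21 [(.d k41 k233 k1 7 5), (.s k63 k42 6 (.s k60 k62 0
  (.s k150 k195 14 (.d k20 k40 k215 5 8))))] (.c k213 (.l (.s k233 k41 7 (.s k63 k42 6 (.s k60 k62 0
  (.s k150 k195 14 (.d k20 k40 k215 5 8)))))) (.c k233 (.l (.s k213 k149 7 (.s k1 k41 5 (.s k3 k2 0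
  (.s k86 k252 14 (.d k87 k84 k171 0 13)))))) .n))) (.c k213 (.l (.s k41 k233 7 (.s k193 k149 13 (.s
  k1 k21 5 (.s k3 k2 0 (.s k86 k252 14 (.d k87 k84 k171 0 13))))))) (.c k233 (.l (.s k149 k193 13
  (.s k213 k21 7 (.s k192 k234 6 (.s k64 k128 7 (.d k106 k127 k63 6 14)))))) .n)))))) .n)))) (.c
  k130 (.l (.s k125 k65 5 (.s k60 k190 8 (.s k150 k195 14 (.d k20 k40 k215 5 8))))) (.c k150 (.f
  k125 k65 5 (.f k190 k60 8 (.q k86 [(.s k87 k84 0 (.s k3 k171 13 (.s k1 k2 0 (.d k169 k253 k252 13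
  14)))), (.s k124 k67 6 (.s k127 k126 0 (.s k63 k191 7 (.s k21 k42 6 (.s k149 k213 7 (.d k106 k64
  k192 6 14))))))] (.c k252 (.l (.s k84 k87 0 (.s k124 k67 6 (.s k64 k104 5 (.d k127 k126 k106 0
  6))))) .n)))) (.c k190 (.l (.s k65 k125 5 (.s k195 k130 8 (.s k150 k60 14 (.d k215 k235 k20 5
  8))))) (.c k195 (.q k1 [(.s k3 k2 0 (.s k87 k171 13 (.s k86 k84 0 (.d k169 k253 k252 13 14)))),
  (.s k65 k125 5 (.s k193 k129 7 (.s k61 k149 13 (.s k169 k253 13 (.d k41 k21 k233 5 7))))), (.s k3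
  k2 0 (.s k125 k65 5 (.s k60 k190 8 (.s k40 k20 5 (.s k41 k22 6 (.s k21 k61 5 (.d k42 k43 k63 0
  6)))))))] .n) (.c k215 (.q k1 [(.s k3 k2 0 (.s k87 k171 13 (.s k86 k84 0 (.d k169 k253 k252 13
  14)))), (.s k65 k125 5 (.s k193 k129 7 (.s k61 k149 13 (.s k169 k253 13 (.d k41 k21 k233 5 7)))))]
  (.c k169 (.l (.s k3 k2 0 (.s k65 k125 5 (.s k129 k193 7 (.s k66 k192 8 (.s k67 k64 0 (.d k195 k131
  k130 7 8))))))) (.c k253 (.l (.s k3 k2 0 (.s k87 k171 13 (.s k86 k84 0 (.s k67 k124 6 (.s k195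
  k131 7 (.d k65 k125 k130 5 8))))))) .n))) .n)))))))))))

def t7_190 : T TT 256 :=
  (.q k86 [(.s k84 k87 0 (.s k252 k168 13 (.s k3 k169 14 (.s k2 k1 0 (.d k170 k254 k255 13 14))))),
  (.s k87 k84 0 (.s k255 k170 14 (.s k3 k171 13 (.s k1 k2 0 (.d k169 k253 k252 13 14)))))] (.c k1
  (.q k4 [(.s k12 k8 1 (.s k166 k247 12 (.s k89 k243 14 (.s k93 k81 1 (.d k255 k174 k170 12 14))))),
  (.s k12 k8 1 (.s k84 k87 0 (.s k164 k244 11 (.s k88 k240 13 (.s k92 k80 1 (.d k252 k172 k168 11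
  13)))))), (.s k12 k8 1 (.s k255 k170 14 (.s k93 k174 12 (.s k89 k81 1 (.d k166 k247 k243 12
  14)))))] (.c k8 (.l (.s k84 k87 0 (.s k164 k244 11 (.s k168 k252 13 (.s k160 k172 1 (.s k170 k255
  14 (.s k165 k175 2 (.d k166 k167 k247 0 12)))))))) (.c k12 (.l (.s k84 k87 0 (.s k244 k164 11 (.s
  k247 k166 12 (.s k245 k246 0 (.s k252 k168 13 (.s k240 k248 1 (.d k255 k250 k170 2 14)))))))) (.c
  k247 (.l (.s k12 k8 1 (.s k255 k170 14 (.s k93 k174 12 (.s k89 k81 1 (.s k92 k83 2 (.s k252 k172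
  11 (.d k84 k87 k168 0 13)))))))) .n)))) (.c k2 (.l (.s k84 k87 0 (.s k252 k168 13 (.s k169 k3 14
  (.s k253 k1 13 (.d k255 k254 k170 0 14)))))) (.c k3 (.f k87 k84 0 (.q k138 [(.s k170 k255 14 (.s
  k207 k69 10 (.s k154 k186 3 (.s k48 k101 14 (.d k16 k32 k223 3 10))))), (.s k69 k207 10 (.s k101
  k117 3 (.s k71 k116 4 (.s k68 k70 0 (.d k119 k103 k102 3 4))))), (.s k170 k255 14 (.s k2 k254 13
  (.s k154 k186 3 (.s k18 k222 9 (.s k50 k34 3 (.d k206 k70 k102 9 13))))))] (.c k11 (.q k15 [(.s k5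
  k10 2 (.s k69 k207 10 (.s k133 k197 7 (.s k128 k143 2 (.d k192 k64 k74 7 10))))), (.s k5 k10 2 (.s
  k165 k245 11 (.s k90 k240 14 (.s k95 k80 2 (.d k255 k175 k170 11 14))))), (.s k69 k207 10 (.s k101
  k117 3 (.s k71 k116 4 (.s k68 k70 0 (.d k119 k103 k102 3 4)))))] .n) (.c k15 (.q k11 [(.s k170
  k255 14 (.s k207 k69 10 (.s k154 k186 3 (.s k48 k101 14 (.d k16 k32 k223 3 10))))), (.s k69 k207
  10 (.s k101 k117 3 (.s k71 k116 4 (.s k68 k70 0 (.d k119 k103 k102 3 4))))), (.s k170 k255 14 (.s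
  k2 k254 13 (.s k154 k186 3 (.s k18 k222 9 (.s k50 k34 3 (.d k206 k70 k102 9 13))))))] (.c k117 (.l
  (.s k170 k255 14 (.s k207 k69 10 (.s k154 k186 3 (.s k48 k101 14 (.d k16 k32 k223 3 10)))))) .n))
  (.c k117 (.l (.s k170 k255 14 (.s k207 k69 10 (.s k154 k186 3 (.s k48 k101 14 (.d k16 k32 k223 3
  10)))))) .n))))) (.c k84 (.q k12 [(.s k4 k8 1 (.s k166 k247 12 (.s k89 k243 14 (.s k93 k81 1 (.d
  k255 k174 k170 12 14))))), (.s k4 k8 1 (.s k166 k247 12 (.s k6 k246 11 (.s k3 k9 2 (.s k1 k2 0 (.d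
  k169 k253 k252 13 14)))))), (.s k170 k255 14 (.s k2 k254 13 (.s k3 k1 0 (.s k6 k9 2 (.s k166 k246
  11 (.s k162 k174 1 (.d k243 k81 k89 12 14)))))))] (.c k166 (.l (.s k8 k4 1 (.s k170 k255 14 (.s k2
  k254 13 (.s k3 k1 0 (.s k89 k251 12 (.s k92 k83 2 (.d k252 k172 k169 11 14)))))))) .n)) (.c k87
  (.q k48 [(.s k16 k32 3 (.s k154 k223 10 (.s k101 k207 14 (.s k117 k69 3 (.d k255 k186 k170 10
  14))))), (.s k16 k32 3 (.s k154 k223 10 (.s k18 k222 9 (.s k3 k33 4 (.s k1 k2 0 (.d k169 k253 k252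
  13 14)))))), (.s k170 k255 14 (.s k2 k254 13 (.s k3 k1 0 (.s k18 k33 4 (.s k154 k222 9 (.s k138
  k186 3 (.d k207 k69 k101 10 14)))))))] (.c k154 (.l (.s k16 k32 3 (.s k170 k255 14 (.s k2 k254 13
  (.s k3 k1 0 (.s k18 k33 4 (.s k17 k19 0 (.d k34 k50 k51 3 4)))))))) (.c k167 (.q k247 [(.s k16 k32
  3 (.s k154 k223 10 (.s k101 k207 14 (.s k117 k69 3 (.d k255 k186 k170 10 14))))), (.s k166 k4 12
  (.s k255 k170 14 (.s k243 k251 1 (.s k81 k162 12 (.d k89 k93 k12 1 14))))), (.s k4 k166 12 (.s k12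
  k8 1 (.s k32 k16 3 (.s k36 k24 5 (.s k20 k52 3 (.d k40 k44 k60 1 5))))))] .n) (.c k247 (.q k167
  [(.s k16 k32 3 (.s k154 k223 10 (.s k101 k207 14 (.s k117 k69 3 (.d k255 k186 k170 10 14))))), (.s
  k16 k32 3 (.s k154 k223 10 (.s k18 k222 9 (.s k3 k33 4 (.s k1 k2 0 (.d k169 k253 k252 13 14)))))),
  (.s k170 k255 14 (.s k2 k254 13 (.s k3 k1 0 (.s k18 k33 4 (.s k154 k222 9 (.s k138 k186 3 (.d k207
  k69 k101 10 14)))))))] (.c k154 (.l (.s k16 k32 3 (.s k170 k255 14 (.s k2 k254 13 (.s k3 k1 0 (.s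
  k18 k33 4 (.s k17 k19 0 (.d k34 k50 k51 3 4)))))))) .n)) .n)))) (.c k168 (.l (.s k87 k84 0 (.s
  k255 k170 14 (.s k3 k171 13 (.s k169 k252 14 (.d k1 k2 k253 0 13)))))) (.c k169 (.q k4 [(.s k12 k8
  1 (.s k166 k247 12 (.s k89 k243 14 (.s k93 k81 1 (.d k255 k174 k170 12 14))))), (.s k12 k8 1 (.s
  k84 k87 0 (.s k164 k244 11 (.s k88 k240 13 (.s k92 k80 1 (.d k252 k172 k168 11 13)))))), (.s k12
  k8 1 (.s k255 k170 14 (.s k93 k174 12 (.s k89 k81 1 (.d k166 k247 k243 12 14)))))] (.c k8 (.l (.s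
  k84 k87 0 (.s k164 k244 11 (.s k168 k252 13 (.s k160 k172 1 (.s k170 k255 14 (.s k165 k175 2 (.d
  k166 k167 k247 0 12)))))))) (.c k12 (.l (.s k84 k87 0 (.s k244 k164 11 (.s k247 k166 12 (.s k245
  k246 0 (.s k252 k168 13 (.s k240 k248 1 (.d k255 k170 k250 14 2)))))))) (.c k247 (.l (.s k12 k8 1
  (.s k255 k170 14 (.s k93 k174 12 (.s k89 k81 1 (.s k92 k83 2 (.s k252 k172 11 (.d k84 k168 k87 13
  0)))))))) .n)))) (.c k170 (.q k150 [(.s k20 k215 8 (.s k22 k214 7 (.s k23 k21 0 (.s k84 k87 0 (.d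
  k212 k148 k149 7 8))))), (.s k84 k87 0 (.s k214 k22 7 (.s k252 k168 13 (.s k195 k233 6 (.s k65
  k130 8 (.d k105 k125 k60 5 14)))))), (.s k20 k215 8 (.s k22 k214 7 (.s k60 k40 5 (.s k3 k41 6 (.s
  k1 k2 0 (.d k169 k253 k252 13 14)))))), (.s k20 k215 8 (.s k60 k40 5 (.s k84 k87 0 (.s k105 k195
  14 (.s k124 k67 6 (.d k252 k188 k168 7 13))))))] .n) (.c k171 (.l (.s k84 k87 0 (.s k252 k168 13
  (.s k3 k169 14 (.s k170 k255 14 (.d k2 k1 k254 0 13)))))) (.c k252 (.q k17 [(.s k51 k34 4 (.s k153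
  k221 9 (.s k102 k204 14 (.s k119 k68 4 (.d k255 k187 k170 9 14))))), (.s k87 k84 0 (.s k153 k221 9
  (.s k19 k220 10 (.s k16 k18 0 (.d k223 k155 k154 9 10))))), (.s k51 k34 4 (.s k87 k84 0 (.s k255
  k170 14 (.s k3 k171 13 (.s k19 k35 3 (.s k16 k18 0 (.d k223 k155 k154 9 10)))))))] .n) (.c k255
  (.q k60 [(.s k20 k40 5 (.s k87 k84 0 (.s k215 k150 8 (.s k23 k151 7 (.s k21 k22 0 (.d k149 k213
  k212 7 8)))))), (.s k84 k87 0 (.s k252 k168 13 (.s k124 k188 7 (.s k105 k67 6 (.s k65 k125 5 (.d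
  k195 k130 k150 8 14)))))), (.s k20 k40 5 (.s k150 k215 8 (.s k22 k214 7 (.s k3 k41 6 (.s k1 k2 0
  (.d k169 k253 k252 13 14))))))] (.c k150 (.l (.s k20 k40 5 (.s k84 k87 0 (.s k148 k212 7 (.s k104
  k192 13 (.s k124 k64 5 (.d k252 k188 k168 7 13))))))) .n)) .n))))))))))))

def t7_191 : T TT 256 :=
  (.q k86 [(.s k84 k87 0 (.s k252 k168 13 (.s k3 k169 14 (.s k2 k1 0 (.d k170 k254 k255 13 14))))),
  (.s k87 k84 0 (.s k255 k170 14 (.s k3 k171 13 (.s k1 k2 0 (.d k169 k253 k252 13 14)))))] (.c k1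
  (.q k4 [(.s k12 k8 1 (.s k166 k247 12 (.s k89 k243 14 (.s k93 k81 1 (.d k255 k174 k170 12 14))))),
  (.s k12 k8 1 (.s k84 k87 0 (.s k164 k244 11 (.s k88 k240 13 (.s k92 k80 1 (.d k252 k172 k168 11
  13)))))), (.s k12 k8 1 (.s k255 k170 14 (.s k93 k174 12 (.s k89 k81 1 (.d k166 k247 k243 12
  14)))))] (.c k8 (.l (.s k84 k87 0 (.s k164 k244 11 (.s k168 k252 13 (.s k160 k172 1 (.s k170 k255
  14 (.s k165 k175 2 (.d k166 k167 k247 0 12)))))))) (.c k12 (.l (.s k84 k87 0 (.s k244 k164 11 (.s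
  k247 k166 12 (.s k245 k246 0 (.s k252 k168 13 (.s k240 k248 1 (.d k255 k250 k170 2 14)))))))) (.c
  k247 (.l (.s k12 k8 1 (.s k255 k170 14 (.s k93 k174 12 (.s k89 k81 1 (.s k92 k83 2 (.s k252 k172
  11 (.d k84 k87 k168 0 13)))))))) .n)))) (.c k2 (.l (.s k84 k87 0 (.s k252 k168 13 (.s k169 k3 14
  (.s k253 k1 13 (.d k255 k254 k170 0 14)))))) (.c k3 (.f k255 k170 14 (.f k87 k84 0 (.q k149 [(.s
  k213 k21 7 (.s k192 k234 6 (.s k64 k128 7 (.d k106 k127 k63 6 14)))), (.s k23 k212 8 (.s k215 k151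
  7 (.s k195 k235 5 (.s k65 k130 8 (.s k105 k125 5 (.d k150 k20 k60 8 14))))))] (.c k11 (.q k15 [(.s
  k5 k10 2 (.s k165 k245 11 (.s k90 k240 14 (.d k95 k80 k175 2 11)))), (.s k21 k213 7 (.s k23 k212 8
  (.s k20 k22 0 (.d k215 k151 k150 7 8))))] .n) (.c k15 (.q k11 [(.s k213 k21 7 (.s k192 k234 6 (.s
  k64 k128 7 (.d k106 k127 k63 6 14)))), (.s k23 k212 8 (.s k215 k151 7 (.s k195 k235 5 (.s k65 k130
  8 (.s k105 k125 5 (.d k150 k20 k60 8 14))))))] .n) .n))))) (.c k84 (.q k12 [(.s k4 k8 1 (.s k166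
  k247 12 (.s k89 k243 14 (.s k93 k81 1 (.d k255 k174 k170 12 14))))), (.s k4 k8 1 (.s k166 k247 12
  (.s k6 k246 11 (.s k3 k9 2 (.s k1 k2 0 (.d k169 k253 k252 13 14)))))), (.s k170 k255 14 (.s k2
  k254 13 (.s k3 k1 0 (.s k6 k9 2 (.s k166 k246 11 (.s k162 k174 1 (.d k243 k81 k89 12 14)))))))]
  (.c k166 (.l (.s k8 k4 1 (.s k170 k255 14 (.s k2 k254 13 (.s k3 k1 0 (.s k89 k251 12 (.s k92 k83 2
  (.d k252 k172 k169 11 14)))))))) .n)) (.c k87 (.q k102 [(.s k68 k119 4 (.s k204 k136 9 (.s k51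
  k153 14 (.s k34 k17 4 (.d k170 k238 k255 9 14))))), (.s k70 k118 3 (.s k170 k255 14 (.s k2 k254 13
  (.s k34 k238 9 (.s k50 k18 3 (.d k206 k138 k154 9 13)))))), (.s k68 k119 4 (.s k70 k118 3 (.s k204
  k136 9 (.s k3 k137 10 (.s k1 k2 0 (.d k169 k253 k252 13 14))))))] (.c k167 (.q k247 [(.s k4 k166
  12 (.s k68 k119 4 (.s k196 k132 7 (.s k213 k230 4 (.d k149 k21 k55 7 12))))), (.s k166 k4 12 (.s
  k255 k170 14 (.s k243 k251 1 (.s k81 k162 12 (.d k89 k93 k12 1 14))))), (.s k68 k119 4 (.s k170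
  k255 14 (.s k34 k238 9 (.s k51 k17 4 (.d k204 k136 k153 9 14)))))] .n) (.c k204 (.l (.s k68 k119 4
  (.s k70 k118 3 (.s k170 k255 14 (.s k2 k254 13 (.s k138 k206 9 (.d k69 k71 k207 0 10))))))) (.c
  k247 (.q k167 [(.s k68 k119 4 (.s k204 k136 9 (.s k51 k153 14 (.s k34 k17 4 (.d k170 k238 k255 9
  14))))), (.s k70 k118 3 (.s k170 k255 14 (.s k2 k254 13 (.s k34 k238 9 (.s k50 k18 3 (.d k206 k138
  k154 9 13)))))), (.s k68 k119 4 (.s k70 k118 3 (.s k204 k136 9 (.s k3 k137 10 (.s k1 k2 0 (.d k169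
  k253 k252 13 14))))))] (.c k204 (.l (.s k68 k119 4 (.s k70 k118 3 (.s k170 k255 14 (.s k2 k254 13
  (.s k138 k206 9 (.d k69 k71 k207 0 10))))))) .n)) .n)))) (.c k168 (.l (.s k87 k84 0 (.s k255 k170
  14 (.s k3 k171 13 (.s k169 k252 14 (.d k1 k2 k253 0 13)))))) (.c k169 (.q k4 [(.s k12 k8 1 (.s
  k166 k247 12 (.s k89 k243 14 (.s k93 k81 1 (.d k255 k174 k170 12 14))))), (.s k12 k8 1 (.s k84 k87
  0 (.s k164 k244 11 (.s k88 k240 13 (.s k92 k80 1 (.d k252 k172 k168 11 13)))))), (.s k12 k8 1 (.s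
  k255 k170 14 (.s k93 k174 12 (.s k89 k81 1 (.d k166 k247 k243 12 14)))))] (.c k8 (.l (.s k84 k87 0
  (.s k164 k244 11 (.s k168 k252 13 (.s k160 k172 1 (.s k170 k255 14 (.s k165 k175 2 (.d k166 k167
  k247 0 12)))))))) (.c k12 (.l (.s k84 k87 0 (.s k244 k164 11 (.s k247 k166 12 (.s k245 k246 0 (.s
  k252 k168 13 (.s k240 k248 1 (.d k255 k170 k250 14 2)))))))) (.c k247 (.l (.s k12 k8 1 (.s k255
  k170 14 (.s k93 k174 12 (.s k89 k81 1 (.s k92 k83 2 (.s k252 k172 11 (.d k84 k168 k87 13 0))))))))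
  .n)))) (.c k170 (.q k149 [(.s k21 k213 7 (.s k23 k212 8 (.s k20 k22 0 (.s k87 k84 0 (.d k215 k151
  k150 7 8))))), (.s k21 k213 7 (.s k63 k42 6 (.s k84 k87 0 (.s k106 k192 14 (.s k126 k66 5 (.d k252
  k189 k168 8 13)))))), (.s k21 k213 7 (.s k23 k212 8 (.s k63 k42 6 (.s k3 k43 5 (.s k1 k2 0 (.d
  k169 k253 k252 13 14)))))), (.s k84 k87 0 (.s k212 k23 8 (.s k252 k168 13 (.s k192 k232 5 (.s k64
  k128 7 (.d k106 k127 k63 6 14))))))] .n) (.c k171 (.l (.s k84 k87 0 (.s k252 k168 13 (.s k3 k169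
  14 (.s k170 k255 14 (.d k2 k1 k254 0 13)))))) (.c k252 (.q k17 [(.s k51 k34 4 (.s k153 k221 9 (.s
  k102 k204 14 (.s k119 k68 4 (.d k255 k187 k170 9 14))))), (.s k87 k84 0 (.s k153 k221 9 (.s k19
  k220 10 (.s k16 k18 0 (.d k223 k155 k154 9 10))))), (.s k51 k34 4 (.s k87 k84 0 (.s k255 k170 14
  (.s k3 k171 13 (.s k19 k35 3 (.s k16 k18 0 (.d k223 k155 k154 9 10)))))))] .n) (.c k255 (.q k63
  [(.s k21 k42 6 (.s k84 k87 0 (.s k149 k213 7 (.s k192 k106 14 (.s k252 k168 13 (.d k212 k232 k23 5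
  8)))))), (.s k21 k42 6 (.s k87 k84 0 (.s k149 k213 7 (.s k23 k212 8 (.s k20 k22 0 (.d k215 k151
  k150 7 8)))))), (.s k84 k87 0 (.s k252 k168 13 (.s k126 k189 8 (.s k106 k66 5 (.s k64 k127 6 (.d
  k192 k128 k149 7 14)))))), (.s k21 k42 6 (.s k149 k213 7 (.s k23 k212 8 (.s k3 k43 5 (.s k1 k2 0
  (.d k169 k253 k252 13 14))))))] (.c k149 (.f k21 k42 6 (.l (.s k84 k87 0 (.s k252 k168 13 (.s k3
  k169 14 (.s k1 k2 0 (.s k23 k43 5 (.s k22 k20 0 (.d k41 k61 k60 5 6))))))))) (.c k192 (.l (.s k21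
  k42 6 (.s k84 k87 0 (.s k252 k168 13 (.s k3 k169 14 (.s k23 k43 5 (.d k149 k213 k212 7 8)))))))
  .n))) .n))))))))))))

def t7_240 : T TT 256 :=
  (.f k255 k170 14 (.q k105 [(.s k65 k125 5 (.s k195 k130 8 (.s k215 k235 5 (.d k150 k20 k60 8
  14))))] (.c k20 (.q k1 [(.s k3 k2 0 (.s k87 k171 13 (.s k169 k253 13 (.d k86 k84 k252 0 14)))),
  (.s k65 k125 5 (.s k169 k253 13 (.s k41 k233 7 (.s k61 k21 5 (.d k193 k129 k149 7 13))))), (.s k3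
  k2 0 (.s k65 k125 5 (.s k129 k193 7 (.s k66 k192 8 (.s k67 k64 0 (.d k195 k131 k130 7 8))))))] .n)
  (.c k60 (.f k65 k125 5 (.q k93 [(.s k12 k174 12 (.s k4 k8 1 (.s k89 k81 1 (.d k166 k247 k243 12
  14)))), (.s k81 k89 1 (.s k97 k113 3 (.s k101 k109 1 (.s k117 k69 3 (.s k48 k186 10 (.d k195 k130
  k146 8 12)))))), (.s k12 k174 12 (.s k8 k4 1 (.s k195 k130 8 (.s k73 k134 10 (.s k69 k77 1 (.d
  k138 k203 k207 8 10))))))] (.c k8 (.l (.s k12 k174 12 (.s k89 k81 1 (.s k73 k121 3 (.d k195 k130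
  k134 8 10))))) (.c k120 (.q k180 [(.s k12 k174 12 (.s k4 k8 1 (.s k89 k81 1 (.d k166 k247 k243 12
  14)))), (.s k81 k89 1 (.s k97 k113 3 (.s k101 k109 1 (.s k117 k69 3 (.s k48 k186 10 (.d k195 k130
  k146 8 12)))))), (.s k12 k174 12 (.s k8 k4 1 (.s k195 k130 8 (.s k73 k134 10 (.s k69 k77 1 (.d
  k138 k203 k207 8 10))))))] (.c k8 (.l (.s k12 k174 12 (.s k89 k81 1 (.s k73 k121 3 (.d k195 k130
  k134 8 10))))) .n)) (.c k180 (.q k120 [(.s k12 k174 12 (.s k4 k8 1 (.s k89 k81 1 (.d k166 k247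
  k243 12 14)))), (.s k75 k90 4 (.s k89 k81 1 (.s k73 k121 3 (.s k72 k74 0 (.s k106 k123 4 (.d k104
  k107 k88 0 3)))))), (.s k12 k174 12 (.s k8 k4 1 (.s k195 k130 8 (.s k73 k134 10 (.s k69 k77 1 (.d
  k138 k203 k207 8 10))))))] .n) .n))))) (.c k65 (.q k1 [(.s k3 k2 0 (.s k87 k171 13 (.s k86 k84 0
  (.d k169 k253 k252 13 14)))), (.s k169 k253 13 (.s k41 k233 7 (.s k21 k61 5 (.s k63 k42 6 (.s k127
  k191 7 (.s k106 k64 6 (.d k149 k213 k192 7 14)))))))] (.c k169 (.f k3 k2 0 (.q k86 [(.d k87 k171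
  k84 13 0), (.s k67 k124 6 (.s k195 k131 7 (.s k150 k60 14 (.d k215 k235 k20 5 8))))] (.c k168 (.l
  (.s k171 k87 13 (.s k67 k124 6 (.s k195 k131 7 (.s k150 k60 14 (.d k215 k235 k20 5 8)))))) (.c
  k171 (.q k168 [(.d k84 k87 k252 0 13), (.s k67 k124 6 (.s k195 k131 7 (.s k215 k235 5 (.d k150 k20
  k60 8 14))))] .n) .n)))) (.c k253 (.l (.s k3 k2 0 (.s k87 k171 13 (.s k86 k84 0 (.s k67 k124 6 (.s
  k195 k131 7 (.s k150 k60 14 (.d k215 k235 k20 5 8)))))))) .n))) (.c k125 (.q k253 [(.s k169 k1 13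
  (.s k252 k254 0 (.s k84 k168 13 (.d k86 k87 k3 0 14)))), (.s k169 k1 13 (.s k233 k41 7 (.s k213
  k193 5 (.s k192 k234 6 (.s k64 k128 7 (.s k106 k127 6 (.d k149 k21 k63 7 14)))))))] (.c k1 (.l (.s
  k252 k254 0 (.s k84 k168 13 (.s k86 k87 0 (.s k124 k67 6 (.s k60 k188 7 (.s k20 k40 5 (.d k150
  k215 k195 8 14)))))))) (.c k169 (.f k252 k254 0 (.q k86 [(.d k84 k168 k87 13 0), (.s k124 k67 6
  (.s k60 k188 7 (.s k20 k40 5 (.d k150 k215 k195 8 14))))] (.c k168 (.q k171 [(.d k87 k84 k3 0 13),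
  (.s k124 k67 6 (.s k60 k188 7 (.s k20 k40 5 (.d k150 k215 k195 8 14))))] .n) (.c k171 (.l (.s k168
  k84 13 (.s k124 k67 6 (.s k60 k188 7 (.s k20 k40 5 (.d k150 k215 k195 8 14)))))) .n)))) .n))) (.c
  k130 (.l (.s k125 k65 5 (.s k60 k190 8 (.s k150 k195 14 (.d k20 k40 k215 5 8))))) (.c k150 (.f
  k125 k65 5 (.q k109 [(.s k77 k93 3 (.s k101 k97 1 (.s k117 k69 3 (.d k113 k121 k89 1 5)))), (.s
  k93 k77 3 (.s k12 k174 12 (.s k4 k8 1 (.s k166 k247 12 (.d k89 k81 k243 1 14))))), (.s k101 k97 1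
  (.s k69 k117 3 (.s k207 k138 10 (.d k60 k190 k158 8 12))))] (.c k69 (.l (.s k77 k93 3 (.s k101 k97
  1 (.s k113 k89 5 (.s k117 k121 1 (.s k48 k186 10 (.s k16 k32 3 (.d k154 k223 k207 10 14))))))))
  (.c k81 (.l (.s k77 k93 3 (.s k101 k97 1 (.s k113 k89 5 (.d k117 k121 k69 1 3))))) (.c k130 (.l
  (.s k190 k60 8 (.s k77 k93 3 (.s k101 k97 1 (.s k113 k89 5 (.d k117 k121 k69 1 3)))))) (.c k190
  (.q k130 [(.s k77 k93 3 (.s k101 k97 1 (.s k117 k69 3 (.d k113 k121 k89 1 5)))), (.s k93 k77 3 (.s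
  k12 k174 12 (.s k4 k8 1 (.s k166 k247 12 (.d k89 k81 k243 1 14))))), (.s k101 k97 1 (.s k69 k117 3
  (.s k207 k138 10 (.s k154 k48 14 (.d k223 k239 k16 3 10)))))] (.c k69 (.l (.s k77 k93 3 (.s k101
  k97 1 (.s k113 k89 5 (.s k117 k121 1 (.s k48 k186 10 (.s k16 k32 3 (.d k154 k223 k207 10
  14)))))))) (.c k81 (.l (.s k77 k93 3 (.s k101 k97 1 (.s k113 k89 5 (.d k117 k121 k69 1 3)))))
  .n))) .n)))))) (.c k190 (.l (.s k65 k125 5 (.s k195 k130 8 (.s k150 k60 14 (.d k215 k235 k20 5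
  8))))) (.c k195 (.f k65 k125 5 (.q k1 [(.s k3 k2 0 (.s k87 k171 13 (.s k86 k84 0 (.d k169 k253
  k252 13 14)))), (.s k193 k129 7 (.s k149 k61 13 (.s k21 k213 7 (.s k63 k42 6 (.s k106 k192 14 (.d
  k127 k64 k191 6 7))))))] (.c k3 (.l (.s k169 k253 13 (.s k41 k233 7 (.s k61 k21 5 (.d k193 k129
  k149 7 13))))) (.c k210 (.q k225 [(.s k3 k2 0 (.s k87 k171 13 (.s k86 k84 0 (.d k169 k253 k252 13
  14)))), (.s k165 k45 9 (.s k5 k245 11 (.s k13 k9 1 (.s k193 k129 7 (.d k241 k209 k89 3 13)))))]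
  .n) (.c k225 (.q k210 [(.s k3 k2 0 (.s k87 k171 13 (.s k86 k84 0 (.d k169 k253 k252 13 14)))), (.s
  k193 k129 7 (.s k149 k61 13 (.s k21 k213 7 (.s k63 k42 6 (.s k106 k192 14 (.d k127 k64 k191 6
  7))))))] (.c k3 (.l (.s k169 k253 13 (.s k41 k233 7 (.s k61 k21 5 (.d k193 k129 k149 7 13))))) (.c
  k253 (.l (.s k3 k2 0 (.s k87 k171 13 (.s k86 k84 0 (.s k67 k124 6 (.s k64 k66 0 (.d k127 k107 k106
  5 6))))))) .n))) (.c k253 (.l (.s k3 k2 0 (.s k87 k171 13 (.s k86 k84 0 (.s k67 k124 6 (.s k64 k66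
  0 (.d k127 k107 k106 5 6))))))) .n)))))) (.c k215 (.q k1 [(.s k3 k2 0 (.s k87 k171 13 (.s k86 k84
  0 (.d k169 k253 k252 13 14)))), (.s k65 k125 5 (.s k169 k253 13 (.s k41 k233 7 (.s k61 k21 5 (.d
  k193 k129 k149 7 13))))), (.s k3 k2 0 (.s k65 k125 5 (.s k129 k193 7 (.s k66 k192 8 (.s k67 k64 0
  (.d k195 k131 k130 7 8))))))] .n) (.c k235 (.l (.s k125 k65 5 (.s k60 k190 8 (.s k20 k40 5 (.d
  k150 k215 k195 8 14))))) .n))))))))))))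

def t7_241 : T TT 256 :=
  (.f k255 k170 14 (.q k153 [(.s k17 k221 9 (.s k51 k34 4 (.s k102 k204 14 (.d k119 k68 k187 4
  9))))] (.c k17 (.q k117 [(.s k101 k69 3 (.s k48 k186 10 (.s k154 k207 14 (.d k16 k32 k223 3
  10)))), (.s k101 k69 3 (.s k49 k205 13 (.s k253 k185 9 (.s k252 k254 0 (.s k84 k168 13 (.s k86 k87
  0 (.d k169 k1 k3 13 14)))))))] (.c k69 (.l (.s k48 k186 10 (.s k16 k32 3 (.s k154 k223 10 (.s k152
  k155 0 (.s k204 k100 13 (.s k68 k136 9 (.d k102 k119 k51 4 14)))))))) (.c k101 (.f k48 k186 10 (.q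
  k154 [(.d k16 k32 k223 3 10), (.s k152 k155 0 (.s k204 k100 13 (.s k68 k136 9 (.d k102 k119 k51 4
  14))))] (.c k32 (.q k239 [(.d k223 k207 k16 3 10), (.s k152 k155 0 (.s k204 k100 13 (.s k68 k136 9
  (.d k102 k119 k51 4 14))))] .n) (.c k239 (.l (.s k32 k16 3 (.s k152 k155 0 (.s k204 k100 13 (.s
  k68 k136 9 (.d k102 k119 k51 4 14)))))) .n)))) .n))) (.c k34 (.l (.s k221 k17 9 (.s k204 k238 4
  (.s k102 k51 14 (.d k68 k119 k136 4 9))))) (.c k51 (.q k1 [(.s k3 k2 0 (.s k87 k171 13 (.s k86 k84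
  0 (.d k169 k253 k252 13 14)))), (.s k17 k221 9 (.s k49 k33 3 (.s k101 k205 13 (.s k117 k69 3 (.d
  k253 k185 k169 9 13))))), (.s k3 k2 0 (.s k221 k17 9 (.s k204 k238 4 (.s k136 k68 9 (.s k137 k70
  10 (.s k69 k205 9 (.d k138 k139 k207 0 10)))))))] .n) (.c k68 (.q k1 [(.s k169 k253 13 (.s k3 k2 0
  (.s k86 k252 14 (.d k87 k84 k171 0 13)))), (.s k17 k221 9 (.s k49 k33 3 (.s k101 k205 13 (.s k117
  k69 3 (.d k253 k185 k169 9 13))))), (.s k3 k2 0 (.s k17 k221 9 (.s k33 k49 3 (.s k18 k48 4 (.s k19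
  k16 0 (.d k51 k35 k34 3 4))))))] .n) (.c k102 (.f k221 k17 9 (.q k86 [(.s k87 k84 0 (.s k3 k171 13
  (.s k1 k2 0 (.d k169 k253 k252 13 14)))), (.s k220 k19 10 (.s k223 k222 0 (.s k207 k239 3 (.s k69
  k138 10 (.s k101 k117 3 (.d k154 k16 k48 10 14))))))] (.c k34 (.l (.s k238 k204 4 (.s k84 k87 0
  (.s k220 k19 10 (.s k16 k152 9 (.d k223 k222 k154 0 10)))))) (.c k238 (.q k34 [(.s k87 k84 0 (.s
  k3 k171 13 (.s k1 k2 0 (.d k169 k253 k252 13 14)))), (.s k220 k19 10 (.s k223 k222 0 (.s k207 k239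
  3 (.s k69 k138 10 (.s k101 k117 3 (.d k154 k16 k48 10 14))))))] .n) .n)))) (.c k119 (.q k1 [(.s k3
  k2 0 (.s k87 k171 13 (.s k86 k84 0 (.d k169 k253 k252 13 14)))), (.s k17 k221 9 (.s k49 k33 3 (.s
  k101 k205 13 (.s k117 k69 3 (.d k253 k185 k169 9 13))))), (.s k3 k2 0 (.s k17 k221 9 (.s k33 k49 3
  (.s k18 k48 4 (.s k19 k16 0 (.d k51 k35 k34 3 4))))))] .n) (.c k187 (.l (.s k221 k17 9 (.s k204
  k238 4 (.s k68 k136 9 (.d k102 k119 k51 4 14))))) (.c k204 (.q k1 [(.s k3 k2 0 (.s k87 k171 13 (.s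
  k86 k84 0 (.d k169 k253 k252 13 14)))), (.s k17 k221 9 (.s k49 k33 3 (.s k101 k205 13 (.s k117 k69
  3 (.d k253 k185 k169 9 13))))), (.s k3 k2 0 (.s k17 k221 9 (.s k33 k49 3 (.s k18 k48 4 (.s k19 k16
  0 (.d k51 k35 k34 3 4))))))] .n) (.c k221 (.q k253 [(.s k169 k1 13 (.s k252 k254 0 (.s k84 k168 13
  (.d k86 k87 k3 0 14)))), (.s k169 k1 13 (.s k185 k137 3 (.s k117 k49 9 (.s k48 k186 10 (.s k16 k32
  3 (.s k154 k223 10 (.d k101 k69 k207 3 14))))))), (.s k252 k254 0 (.s k84 k168 13 (.s k86 k87 0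
  (.s k220 k19 10 (.s k204 k236 3 (.s k68 k136 9 (.d k102 k119 k51 4 14)))))))] (.c k169 (.f k252
  k254 0 (.q k86 [(.d k84 k168 k87 13 0), (.s k220 k19 10 (.s k204 k236 3 (.s k68 k136 9 (.d k102
  k119 k51 4 14))))] (.c k168 (.q k171 [(.d k87 k84 k3 0 13), (.s k220 k19 10 (.s k204 k236 3 (.s
  k68 k136 9 (.d k102 k119 k51 4 14))))] .n) (.c k171 (.l (.s k168 k84 13 (.s k220 k19 10 (.s k204
  k236 3 (.s k68 k136 9 (.d k102 k119 k51 4 14)))))) .n)))) .n)) (.c k238 (.l (.s k17 k221 9 (.s k51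
  k34 4 (.s k102 k204 14 (.d k119 k68 k187 4 9))))) .n))))))))))))

def t7_242 : T TT 256 :=
  (.f k255 k170 14 (.q k106 [(.s k64 k127 6 (.s k192 k128 7 (.s k149 k63 14 (.d k213 k234 k21 6
  7))))] (.c k21 (.q k1 [(.s k169 k253 13 (.s k3 k2 0 (.s k86 k252 14 (.d k87 k84 k171 0 13)))), (.s
  k64 k127 6 (.s k192 k128 7 (.s k213 k234 6 (.s k253 k169 13 (.s k193 k233 5 (.s k65 k129 7 (.d
  k195 k130 k194 8 0))))))), (.s k3 k2 0 (.s k64 k127 6 (.s k192 k128 7 (.s k66 k129 8 (.s k86 k126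
  5 (.d k87 k84 k171 0 13))))))] (.c k171 (.l (.s k3 k2 0 (.s k127 k64 6 (.s k63 k191 7 (.s k43 k23
  5 (.d k169 k232 k253 8 13)))))) .n)) (.c k63 (.q k1 [(.s k3 k2 0 (.s k87 k171 13 (.s k86 k84 0 (.d
  k169 k253 k252 13 14)))), (.s k64 k127 6 (.s k192 k128 7 (.s k213 k234 6 (.s k253 k169 13 (.s k193
  k233 5 (.s k65 k129 7 (.d k195 k130 k194 8 0))))))), (.s k3 k2 0 (.s k64 k127 6 (.s k192 k128 7
  (.s k66 k129 8 (.s k86 k126 5 (.d k87 k84 k171 0 13))))))] (.c k171 (.l (.s k3 k2 0 (.s k64 k127 6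
  (.s k169 k253 13 (.s k86 k252 14 (.s k192 k128 7 (.d k66 k126 k129 5 8))))))) .n)) (.c k64 (.q k60
  [(.s k20 k40 5 (.s k125 k190 8 (.s k150 k215 8 (.d k105 k65 k195 5 14)))), (.s k20 k40 5 (.s k150
  k215 8 (.s k62 k194 13 (.s k63 k61 0 (.s k21 k42 6 (.d k149 k213 k192 7 14)))))), (.s k125 k190 8
  (.s k105 k65 5 (.s k104 k107 0 (.s k192 k148 13 (.s k149 k63 14 (.d k213 k234 k21 6 7))))))] (.c
  k105 (.q k87 [(.s k3 k171 13 (.s k86 k84 0 (.s k169 k252 14 (.d k1 k2 k253 0 13)))), (.s k86 k84 0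
  (.s k126 k66 5 (.s k190 k125 8 (.s k62 k254 7 (.s k150 k194 13 (.d k20 k40 k215 5 8)))))), (.s k3
  k171 13 (.s k2 k1 0 (.s k22 k41 6 (.s k42 k62 5 (.s k21 k63 6 (.d k20 k40 k23 5 0))))))] (.c k2
  (.l (.s k3 k171 13 (.s k22 k41 6 (.s k86 k84 0 (.s k150 k214 7 (.d k20 k40 k215 5 8)))))) (.c k40
  (.q k235 [(.s k3 k171 13 (.s k86 k84 0 (.s k169 k252 14 (.d k1 k2 k253 0 13)))), (.s k3 k171 13
  (.s k22 k41 6 (.s k215 k195 5 (.s k20 k150 8 (.d k23 k21 k151 0 7))))), (.s k86 k84 0 (.s k126 k66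
  5 (.s k190 k125 8 (.s k62 k254 7 (.s k150 k194 13 (.d k215 k195 k20 5 8))))))] .n) (.c k235 (.l
  (.s k40 k20 5 (.s k3 k171 13 (.s k1 k2 0 (.s k86 k84 0 (.d k169 k253 k252 13 14)))))) .n)))) (.c
  k150 (.q k69 [(.s k101 k117 3 (.s k207 k138 10 (.s k154 k48 14 (.d k223 k239 k16 3 10)))), (.s
  k101 k117 3 (.s k207 k138 10 (.s k109 k158 12 (.s k105 k97 1 (.d k125 k190 k65 8 5))))), (.s k190
  k125 8 (.s k207 k138 10 (.s k158 k109 12 (.s k174 k142 3 (.s k93 k12 12 (.d k223 k239 k28 3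
  8))))))] (.c k130 (.l (.s k190 k125 8 (.s k101 k117 3 (.s k207 k138 10 (.s k154 k48 14 (.d k223
  k239 k16 3 10)))))) (.c k138 (.l (.s k117 k101 3 (.s k186 k48 10 (.s k190 k125 8 (.s k182 k178 1
  (.s k243 k121 10 (.d k247 k52 k251 8 1))))))) (.c k154 (.l (.s k20 k40 5 (.s k117 k101 3 (.s k48
  k186 10 (.s k138 k207 10 (.s k52 k56 1 (.s k4 k36 3 (.d k247 k166 k182 12 8)))))))) (.c k186 (.l
  (.s k101 k117 3 (.s k207 k138 10 (.s k154 k48 14 (.d k223 k239 k16 3 10))))) (.c k190 (.q k130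
  [(.s k101 k117 3 (.s k207 k138 10 (.s k154 k48 14 (.d k223 k239 k16 3 10)))), (.s k65 k195 8 (.s
  k77 k73 1 (.s k125 k105 5 (.s k109 k93 3 (.d k207 k138 k158 10 12))))), (.s k65 k195 8 (.s k77 k73
  1 (.s k101 k117 3 (.s k89 k113 5 (.s k93 k81 1 (.d k125 k109 k105 3 5))))))] .n) (.c k207 (.l (.s
  k20 k40 5 (.s k117 k101 3 (.s k48 k186 10 (.s k52 k56 1 (.s k4 k36 3 (.d k247 k166 k182 12
  8))))))) .n))))))) .n))) (.c k127 (.q k195 [(.s k65 k130 8 (.s k215 k235 5 (.s k150 k20 8 (.d k105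
  k125 k60 5 14)))), (.s k65 k130 8 (.s k105 k125 5 (.s k107 k104 0 (.s k63 k151 13 (.s k21 k42 6
  (.d k149 k213 k192 7 14)))))), (.s k215 k235 5 (.s k150 k20 8 (.s k194 k62 13 (.s k192 k193 0 (.s
  k149 k63 14 (.d k213 k234 k21 6 7))))))] (.c k105 (.q k149 [(.s k21 k213 7 (.d k63 k42 k192 6
  14)), (.s k63 k192 14 (.s k151 k107 13 (.s k150 k148 0 (.d k215 k235 k20 5 8))))] (.c k40 (.l (.s
  k235 k215 5 (.s k21 k213 7 (.d k63 k42 k192 6 14)))) (.c k63 (.l (.s k213 k21 7 (.s k192 k234 6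
  (.s k194 k193 0 (.s k150 k62 13 (.d k215 k235 k20 5 8)))))) (.c k192 (.l (.s k21 k213 7 (.s k63
  k42 6 (.s k151 k107 13 (.s k150 k148 0 (.d k215 k235 k20 5 8)))))) (.c k235 (.q k40 [(.s k21 k213
  7 (.d k63 k42 k192 6 14)), (.s k20 k60 5 (.s k63 k192 14 (.s k150 k215 8 (.d k151 k148 k107 0
  13))))] (.c k63 (.l (.s k20 k60 5 (.s k150 k215 8 (.s k213 k21 7 (.s k192 k234 6 (.d k194 k62 k193
  13 0)))))) (.c k192 (.l (.s k20 k60 5 (.s k21 k213 7 (.s k63 k42 6 (.s k150 k215 8 (.d k151 k148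
  k107 0 13)))))) .n))) .n))))) (.c k150 (.q k149 [(.s k21 k213 7 (.d k63 k42 k192 6 14)), (.s k63
  k192 14 (.s k107 k151 13 (.s k105 k104 0 (.d k65 k130 k125 8 5))))] (.c k63 (.l (.s k213 k21 7 (.s
  k192 k234 6 (.s k193 k194 0 (.s k105 k61 13 (.d k65 k125 k130 5 8)))))) (.c k130 (.q k190 [(.s k21
  k213 7 (.d k63 k42 k192 6 14)), (.s k63 k192 14 (.s k107 k151 13 (.s k105 k104 0 (.d k125 k60 k65
  8 5))))] (.c k63 (.l (.s k125 k60 8 (.s k105 k65 5 (.s k213 k21 7 (.s k192 k234 6 (.d k193 k61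
  k194 13 0)))))) (.c k192 (.l (.s k21 k213 7 (.s k63 k42 6 (.s k107 k151 13 (.s k105 k104 0 (.d
  k125 k60 k65 8 5)))))) .n))) (.c k190 (.l (.s k130 k65 8 (.s k21 k213 7 (.d k63 k42 k192 6 14))))
  (.c k192 (.l (.s k21 k213 7 (.s k63 k42 6 (.s k107 k151 13 (.s k105 k104 0 (.d k65 k125 k130 5
  8)))))) .n))))) .n))) (.c k128 (.l (.s k127 k64 6 (.s k63 k191 7 (.s k149 k192 14 (.d k21 k42 k213
  6 7))))) (.c k149 (.f k127 k64 6 (.q k102 [(.s k68 k119 4 (.s k204 k136 9 (.s k153 k51 14 (.d k221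
  k238 k17 4 9)))), (.s k110 k98 1 (.s k93 k76 4 (.s k12 k174 12 (.s k4 k8 1 (.s k166 k247 12 (.d
  k89 k81 k243 1 14))))))] (.c k68 (.l (.s k110 k98 1 (.s k76 k93 4 (.s k115 k89 6 (.s k119 k123 1
  (.s k51 k187 9 (.s k17 k34 4 (.d k153 k221 k204 9 14)))))))) (.c k128 (.l (.s k191 k63 7 (.s k68
  k119 4 (.s k204 k136 9 (.s k153 k51 14 (.d k221 k238 k17 4 9)))))) (.c k191 (.q k128 [(.s k68 k119
  4 (.s k204 k136 9 (.s k153 k51 14 (.d k221 k238 k17 4 9)))), (.s k110 k98 1 (.s k93 k76 4 (.s k12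
  k174 12 (.s k4 k8 1 (.s k166 k247 12 (.d k89 k81 k243 1 14))))))] (.c k68 (.l (.s k110 k98 1 (.s
  k76 k93 4 (.s k115 k89 6 (.s k119 k123 1 (.s k51 k187 9 (.s k17 k34 4 (.d k153 k221 k204 9
  14)))))))) .n)) .n))))) (.c k191 (.l (.s k64 k127 6 (.s k192 k128 7 (.s k149 k63 14 (.d k213 k234
  k21 6 7))))) (.c k192 (.q k1 [(.s k3 k2 0 (.s k87 k171 13 (.s k86 k84 0 (.d k169 k253 k252 13
  14)))), (.s k127 k64 6 (.s k63 k191 7 (.s k21 k42 6 (.s k61 k41 5 (.s k253 k169 13 (.s k125 k189 7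
  (.d k60 k190 k62 8 0))))))), (.s k3 k2 0 (.s k127 k64 6 (.s k63 k191 7 (.s k21 k42 6 (.s k23 k43 5
  (.s k22 k20 0 (.d k41 k61 k60 5 6)))))))] .n) (.c k213 (.q k1 [(.s k3 k2 0 (.s k87 k171 13 (.s k86
  k84 0 (.d k169 k253 k252 13 14)))), (.s k64 k127 6 (.s k169 k253 13 (.s k192 k128 7 (.s k149 k63
  14 (.s k129 k189 5 (.s k66 k3 8 (.d k65 k193 k67 7 0))))))), (.s k3 k2 0 (.s k64 k127 6 (.s k192
  k128 7 (.s k66 k129 8 (.s k86 k126 5 (.d k87 k84 k171 0 13))))))] (.c k3 (.l (.s k127 k64 6 (.s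
  k63 k191 7 (.s k21 k42 6 (.s k61 k41 5 (.s k60 k62 0 (.s k125 k190 8 (.d k253 k189 k169 7
  13)))))))) .n)) (.c k234 (.l (.s k127 k64 6 (.s k63 k191 7 (.s k21 k42 6 (.d k149 k213 k192 7
  14))))) .n))))))))))))

def t7_243 : T TT 256 :=
  (.f k255 k170 14 (.q k105 [(.s k65 k125 5 (.s k195 k130 8 (.s k215 k235 5 (.d k150 k20 k60 8
  14))))] (.c k20 (.q k1 [(.s k3 k2 0 (.s k87 k171 13 (.s k169 k253 13 (.d k86 k84 k252 0 14)))),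
  (.s k65 k125 5 (.s k169 k253 13 (.s k41 k233 7 (.s k61 k21 5 (.d k193 k129 k149 7 13))))), (.s k3
  k2 0 (.s k65 k125 5 (.s k129 k193 7 (.s k66 k192 8 (.s k67 k64 0 (.d k195 k131 k130 7 8))))))] .n)
  (.c k60 (.f k65 k125 5 (.q k69 [(.s k77 k73 1 (.s k101 k117 3 (.s k97 k109 1 (.d k113 k81 k89 3
  5)))), (.s k207 k138 10 (.s k223 k239 3 (.s k154 k16 10 (.d k101 k117 k48 3 14)))), (.s k73 k77 1
  (.s k138 k207 10 (.s k8 k203 8 (.s k12 k4 1 (.d k195 k130 k134 8 10)))))] (.c k121 (.q k182 [(.s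
  k207 k138 10 (.s k223 k239 3 (.s k154 k16 10 (.d k101 k117 k48 3 14)))), (.s k77 k73 1 (.s k101
  k117 3 (.s k113 k89 5 (.d k97 k109 k81 1 3))))] (.c k101 (.l (.s k73 k77 1 (.s k138 k207 10 (.s k8
  k203 8 (.s k12 k4 1 (.d k195 k130 k134 8 10)))))) (.c k113 (.l (.s k117 k101 3 (.s k77 k73 1 (.s
  k207 k138 10 (.s k12 k142 8 (.s k247 k52 8 (.d k4 k8 k166 1 12))))))) (.c k117 (.q k113 [(.s k77
  k73 1 (.s k81 k97 3 (.d k89 k93 k101 1 5))), (.s k97 k81 3 (.s k195 k130 8 (.s k48 k146 12 (.s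
  k207 k138 10 (.d k101 k154 k109 14 1))))), (.s k73 k77 1 (.s k138 k207 10 (.s k8 k203 8 (.s k12 k4
  1 (.d k195 k130 k134 8 10)))))] .n) .n)))) (.c k182 (.q k121 [(.d k73 k77 k89 1 3), (.s k101 k117
  3 (.s k207 k138 10 (.s k154 k48 14 (.d k223 k239 k16 3 10))))] .n) (.c k207 (.l (.s k77 k73 1 (.s
  k101 k117 3 (.s k113 k89 5 (.d k97 k109 k81 1 3))))) .n))))) (.c k65 (.q k1 [(.s k3 k2 0 (.s k87
  k171 13 (.s k86 k84 0 (.d k169 k253 k252 13 14)))), (.s k169 k253 13 (.s k41 k233 7 (.s k21 k61 5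
  (.s k63 k42 6 (.s k127 k191 7 (.s k106 k64 6 (.d k149 k213 k192 7 14)))))))] (.c k169 (.f k3 k2 0
  (.q k86 [(.d k87 k171 k84 13 0), (.s k67 k124 6 (.s k195 k131 7 (.s k150 k60 14 (.d k215 k235 k20
  5 8))))] (.c k168 (.l (.s k171 k87 13 (.s k67 k124 6 (.s k195 k131 7 (.s k150 k60 14 (.d k215 k235
  k20 5 8)))))) (.c k171 (.q k168 [(.d k84 k87 k252 0 13), (.s k67 k124 6 (.s k195 k131 7 (.s k215
  k235 5 (.d k150 k20 k60 8 14))))] .n) .n)))) (.c k253 (.l (.s k3 k2 0 (.s k87 k171 13 (.s k86 k84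
  0 (.s k67 k124 6 (.s k195 k131 7 (.s k150 k60 14 (.d k215 k235 k20 5 8)))))))) .n))) (.c k125 (.q
  k253 [(.s k169 k1 13 (.s k252 k254 0 (.s k84 k168 13 (.d k86 k87 k3 0 14)))), (.s k169 k1 13 (.s
  k233 k41 7 (.s k213 k193 5 (.s k192 k234 6 (.s k64 k128 7 (.s k106 k127 6 (.d k149 k21 k63 7
  14)))))))] (.c k1 (.l (.s k252 k254 0 (.s k84 k168 13 (.s k86 k87 0 (.s k124 k67 6 (.s k60 k188 7
  (.s k20 k40 5 (.d k150 k215 k195 8 14)))))))) (.c k169 (.f k252 k254 0 (.q k86 [(.d k84 k168 k87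
  13 0), (.s k124 k67 6 (.s k60 k188 7 (.s k20 k40 5 (.d k150 k215 k195 8 14))))] (.c k168 (.q k171
  [(.d k87 k84 k3 0 13), (.s k124 k67 6 (.s k60 k188 7 (.s k20 k40 5 (.d k150 k215 k195 8 14))))]
  .n) (.c k171 (.l (.s k168 k84 13 (.s k124 k67 6 (.s k60 k188 7 (.s k20 k40 5 (.d k150 k215 k195 8
  14)))))) .n)))) .n))) (.c k130 (.l (.s k125 k65 5 (.s k60 k190 8 (.s k150 k195 14 (.d k20 k40 k215
  5 8))))) (.c k150 (.f k125 k65 5 (.q k61 [(.s k149 k193 13 (.s k21 k213 7 (.s k1 k41 5 (.d k253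
  k189 k169 7 13)))), (.s k253 k189 7 (.s k169 k1 13 (.s k252 k254 0 (.s k84 k168 13 (.d k86 k87 k3
  0 14))))), (.s k149 k193 13 (.s k213 k21 7 (.s k192 k234 6 (.s k64 k128 7 (.d k106 k127 k63 6
  14))))), (.s k189 k253 7 (.s k190 k60 8 (.s k191 k188 0 (.s k63 k127 7 (.s k21 k42 6 (.d k149 k213
  k193 7 13))))))] (.c k130 (.l (.s k190 k60 8 (.s k149 k193 13 (.s k21 k213 7 (.s k1 k41 5 (.d k253
  k189 k169 7 13)))))) (.c k190 (.q k130 [(.s k149 k193 13 (.s k21 k213 7 (.s k1 k41 5 (.d k253 k189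
  k169 7 13)))), (.s k253 k189 7 (.s k252 k254 0 (.s k84 k168 13 (.s k86 k87 0 (.d k169 k1 k3 13
  14))))), (.s k149 k193 13 (.s k213 k21 7 (.s k192 k234 6 (.s k64 k128 7 (.d k106 k127 k63 6
  14)))))] (.c k1 (.l (.s k189 k253 7 (.s k149 k193 13 (.s k129 k169 5 (.s k213 k21 7 (.s k192 k234
  6 (.d k128 k131 k64 0 7))))))) .n)) (.c k193 (.l (.s k253 k189 7 (.s k1 k169 13 (.s k3 k2 0 (.s
  k41 k21 5 (.d k60 k22 k190 6 8)))))) .n))))) (.c k190 (.l (.s k65 k125 5 (.s k195 k130 8 (.s k150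
  k60 14 (.d k215 k235 k20 5 8))))) (.c k195 (.f k65 k125 5 (.q k1 [(.s k3 k2 0 (.s k87 k171 13 (.s
  k86 k84 0 (.d k169 k253 k252 13 14)))), (.s k193 k129 7 (.s k149 k61 13 (.s k21 k213 7 (.s k63 k42
  6 (.s k106 k192 14 (.d k127 k64 k191 6 7))))))] (.c k3 (.l (.s k169 k253 13 (.s k41 k233 7 (.s k61
  k21 5 (.d k193 k129 k149 7 13))))) (.c k211 (.q k227 [(.s k3 k2 0 (.s k87 k171 13 (.s k86 k84 0
  (.d k169 k253 k252 13 14)))), (.s k193 k129 7 (.s k149 k61 13 (.s k21 k213 7 (.s k63 k42 6 (.s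
  k106 k192 14 (.d k127 k64 k191 6 7))))))] (.c k3 (.l (.s k169 k253 13 (.s k41 k233 7 (.s k61 k21 5
  (.d k193 k129 k149 7 13))))) (.c k253 (.l (.s k3 k2 0 (.s k87 k171 13 (.s k86 k84 0 (.s k67 k124 6
  (.s k64 k66 0 (.d k127 k107 k106 5 6))))))) .n))) (.c k227 (.q k211 [(.s k3 k2 0 (.s k87 k171 13
  (.s k86 k84 0 (.d k169 k253 k252 13 14)))), (.s k193 k129 7 (.s k149 k61 13 (.s k21 k213 7 (.s k63
  k42 6 (.s k106 k192 14 (.d k127 k64 k191 6 7))))))] (.c k3 (.l (.s k169 k253 13 (.s k41 k233 7 (.s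
  k61 k21 5 (.d k193 k129 k149 7 13))))) (.c k253 (.l (.s k3 k2 0 (.s k87 k171 13 (.s k86 k84 0 (.s
  k67 k124 6 (.s k64 k66 0 (.d k127 k107 k106 5 6))))))) .n))) (.c k253 (.l (.s k3 k2 0 (.s k87 k171
  13 (.s k86 k84 0 (.s k67 k124 6 (.s k64 k66 0 (.d k127 k107 k106 5 6))))))) .n)))))) (.c k215 (.q
  k1 [(.s k3 k2 0 (.s k87 k171 13 (.s k86 k84 0 (.d k169 k253 k252 13 14)))), (.s k65 k125 5 (.s
  k169 k253 13 (.s k41 k233 7 (.s k61 k21 5 (.d k193 k129 k149 7 13))))), (.s k3 k2 0 (.s k65 k125 5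
  (.s k129 k193 7 (.s k66 k192 8 (.s k67 k64 0 (.d k195 k131 k130 7 8))))))] .n) (.c k235 (.l (.s
  k125 k65 5 (.s k60 k190 8 (.s k20 k40 5 (.d k150 k215 k195 8 14))))) .n))))))))))))

def t7_244 : T TT 256 :=
  (.q k86 [(.s k87 k84 0 (.s k255 k170 14 (.s k3 k171 13 (.s k1 k2 0 (.d k169 k253 k252 13 14))))),
  (.s k84 k87 0 (.s k252 k168 13 (.s k169 k3 14 (.s k253 k1 13 (.d k255 k254 k170 0 14)))))] (.c k1
  (.q k4 [(.s k12 k8 1 (.s k255 k170 14 (.s k93 k174 12 (.s k89 k81 1 (.d k166 k247 k243 12 14))))),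
  (.s k12 k8 1 (.s k84 k87 0 (.s k252 k168 13 (.s k169 k3 14 (.s k172 k92 11 (.d k166 k247 k163 12
  2)))))), (.s k166 k247 12 (.s k170 k255 14 (.s k174 k162 1 (.s k246 k6 11 (.s k254 k2 13 (.s k14
  k94 11 (.d k242 k250 k90 1 13)))))))] (.c k166 (.l (.s k8 k12 1 (.s k84 k87 0 (.s k168 k252 13 (.s
  k170 k255 14 (.s k89 k251 12 (.s k92 k83 2 (.d k88 k248 k80 11 1)))))))) (.c k247 (.l (.s k12 k8 1
  (.s k255 k170 14 (.s k93 k174 12 (.s k89 k81 1 (.s k92 k83 2 (.s k252 k172 11 (.d k84 k87 k168 0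
  13)))))))) (.c k255 (.l (.s k12 k8 1 (.s k84 k87 0 (.s k252 k168 13 (.s k3 k169 14 (.s k6 k9 2 (.d
  k166 k247 k246 12 11))))))) .n)))) (.c k3 (.f k255 k170 14 (.q k15 [(.s k5 k10 2 (.s k95 k175 11
  (.s k90 k80 2 (.d k165 k245 k240 11 14)))), (.s k84 k87 0 (.s k95 k175 11 (.s k252 k168 13 (.s k94
  k173 12 (.s k93 k92 0 (.s k174 k12 12 (.d k254 k253 k14 0 11))))))), (.s k5 k10 2 (.s k84 k87 0
  (.s k165 k245 11 (.s k90 k240 14 (.s k252 k168 13 (.d k94 k82 k173 1 12))))))] (.c k165 (.l (.s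
  k84 k87 0 (.s k252 k168 13 (.s k94 k173 12 (.s k90 k82 1 (.d k95 k80 k175 2 11)))))) .n))) (.c k84
  (.f k170 k255 14 (.f k2 k254 13 (.f k3 k1 0 (.f k252 k169 14 (.q k4 [(.s k12 k8 1 (.s k92 k172 11
  (.s k89 k83 2 (.d k166 k247 k243 12 14)))), (.s k12 k8 1 (.s k6 k9 2 (.s k10 k14 1 (.s k90 k250 11
  (.s k94 k82 1 (.d k15 k5 k173 2 12)))))), (.s k166 k247 12 (.s k162 k174 1 (.s k243 k81 12 (.d
  k246 k249 k6 2 11))))] (.c k12 (.l (.s k166 k247 12 (.s k246 k6 11 (.s k243 k249 2 (.d k162 k174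
  k81 1 12))))) .n)))))) (.c k87 (.q k60 [(.s k20 k40 5 (.s k255 k170 14 (.s k125 k190 8 (.s k105
  k65 5 (.d k150 k215 k195 8 14))))), (.s k20 k40 5 (.s k150 k215 8 (.s k22 k214 7 (.s k3 k41 6 (.s
  k1 k2 0 (.d k169 k253 k252 13 14)))))), (.s k170 k255 14 (.s k2 k254 13 (.s k3 k1 0 (.s k22 k41 6
  (.s k150 k214 7 (.s k130 k190 5 (.d k195 k65 k105 8 14)))))))] (.c k150 (.l (.s k20 k40 5 (.s k170
  k255 14 (.s k2 k254 13 (.s k3 k1 0 (.s k22 k41 6 (.s k21 k23 0 (.d k42 k62 k63 5 6)))))))) (.c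
  k167 (.q k247 [(.s k20 k40 5 (.s k255 k170 14 (.s k125 k190 8 (.s k105 k65 5 (.d k150 k215 k195 8
  14))))), (.s k166 k4 12 (.s k255 k170 14 (.s k243 k251 1 (.s k81 k162 12 (.d k89 k93 k12 1
  14))))), (.s k4 k166 12 (.s k12 k8 1 (.s k20 k40 5 (.s k28 k44 3 (.s k24 k16 1 (.d k36 k52 k48 3
  5))))))] .n) (.c k247 (.q k167 [(.s k20 k40 5 (.s k255 k170 14 (.s k125 k190 8 (.s k105 k65 5 (.d
  k150 k215 k195 8 14))))), (.s k20 k40 5 (.s k150 k215 8 (.s k22 k214 7 (.s k3 k41 6 (.s k1 k2 0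
  (.d k169 k253 k252 13 14)))))), (.s k170 k255 14 (.s k2 k254 13 (.s k3 k1 0 (.s k22 k41 6 (.s k150
  k214 7 (.s k130 k190 5 (.d k195 k65 k105 8 14)))))))] (.c k150 (.l (.s k20 k40 5 (.s k170 k255 14
  (.s k2 k254 13 (.s k3 k1 0 (.s k22 k41 6 (.s k21 k23 0 (.d k42 k62 k63 5 6)))))))) (.c k245 (.q
  k246 [(.s k20 k40 5 (.s k255 k170 14 (.s k125 k190 8 (.s k105 k65 5 (.d k150 k215 k195 8 14))))),
  (.s k166 k6 11 (.s k170 k255 14 (.s k174 k162 1 (.s k254 k2 13 (.s k14 k94 11 (.d k242 k250 k90 1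
  13)))))), (.s k20 k40 5 (.s k150 k215 8 (.s k22 k214 7 (.s k3 k41 6 (.s k1 k2 0 (.d k169 k253 k252
  13 14))))))] .n) (.c k246 (.q k245 [(.s k20 k40 5 (.s k255 k170 14 (.s k125 k190 8 (.s k105 k65 5
  (.d k150 k215 k195 8 14))))), (.s k165 k5 11 (.s k255 k170 14 (.s k240 k250 2 (.s k80 k160 11 (.d
  k90 k95 k15 2 14))))), (.s k20 k40 5 (.s k150 k215 8 (.s k22 k214 7 (.s k3 k41 6 (.s k1 k2 0 (.d
  k169 k253 k252 13 14))))))] .n) .n)))) .n)))) (.c k168 (.l (.s k87 k84 0 (.s k255 k170 14 (.s k3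
  k171 13 (.s k169 k252 14 (.d k1 k2 k253 0 13)))))) (.c k169 (.q k4 [(.s k12 k8 1 (.s k255 k170 14
  (.s k93 k174 12 (.s k89 k81 1 (.d k166 k247 k243 12 14))))), (.s k12 k8 1 (.s k170 k255 14 (.s k2
  k254 13 (.s k3 k1 0 (.s k6 k9 2 (.d k166 k246 k247 11 12)))))), (.s k166 k247 12 (.s k170 k255 14
  (.s k174 k162 1 (.s k246 k6 11 (.s k254 k2 13 (.s k14 k94 11 (.d k242 k250 k90 1 13)))))))] (.c
  k166 (.l (.s k8 k12 1 (.s k84 k87 0 (.s k168 k252 13 (.s k170 k255 14 (.s k89 k251 12 (.s k92 k83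
  2 (.d k88 k248 k80 11 1)))))))) (.c k170 (.l (.s k12 k8 1 (.s k166 k247 12 (.s k89 k243 14 (.s k92
  k83 2 (.s k252 k172 11 (.d k84 k87 k168 0 13))))))) (.c k247 (.l (.s k12 k8 1 (.s k255 k170 14 (.s
  k93 k174 12 (.s k89 k81 1 (.s k92 k83 2 (.s k252 k172 11 (.d k84 k168 k87 13 0)))))))) (.c k255
  (.l (.s k12 k8 1 (.s k84 k87 0 (.s k252 k168 13 (.s k92 k172 11 (.s k89 k83 2 (.d k166 k247 k243
  12 14))))))) .n))))) (.c k170 (.q k16 [(.s k84 k87 0 (.s k220 k152 9 (.s k153 k19 10 (.s k221 k17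
  9 (.d k223 k222 k154 0 10))))), (.s k48 k32 3 (.s k154 k223 10 (.s k18 k222 9 (.s k3 k33 4 (.s k1
  k2 0 (.d k169 k253 k252 13 14)))))), (.s k48 k32 3 (.s k84 k87 0 (.s k152 k220 9 (.s k100 k204 13
  (.s k116 k68 3 (.d k252 k184 k168 9 13))))))] (.c k220 (.l (.s k48 k32 3 (.s k84 k87 0 (.s k154
  k223 10 (.s k101 k207 14 (.s k116 k71 4 (.d k252 k184 k168 9 13))))))) .n)) (.c k171 (.l (.s k84
  k87 0 (.s k252 k168 13 (.s k3 k169 14 (.s k170 k255 14 (.d k2 k1 k254 0 13)))))) (.c k252 (.f k255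
  k170 14 (.q k240 [(.s k80 k160 11 (.s k90 k95 2 (.s k245 k250 2 (.d k165 k5 k15 11 14)))), (.s k80
  k160 11 (.s k87 k84 0 (.s k3 k171 13 (.s k2 k1 0 (.s k82 k161 12 (.s k81 k83 0 (.d k162 k242 k243
  11 12))))))), (.s k87 k84 0 (.s k3 k171 13 (.s k82 k161 12 (.s k90 k94 1 (.s k245 k250 2 (.d k165
  k15 k5 14 11))))))] (.c k165 (.l (.s k87 k84 0 (.s k3 k171 13 (.s k82 k161 12 (.s k90 k94 1 (.d
  k80 k95 k160 2 11)))))) .n))) (.c k253 (.l (.s k84 k87 0 (.s k170 k255 14 (.s k2 k254 13 (.s k252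
  k168 13 (.d k3 k1 k169 0 14)))))) (.c k255 (.q k16 [(.s k87 k84 0 (.s k223 k154 10 (.s k19 k155 9
  (.s k17 k18 0 (.d k153 k221 k220 9 10))))), (.s k48 k32 3 (.s k84 k87 0 (.s k152 k220 9 (.s k100
  k204 13 (.s k116 k68 3 (.d k252 k184 k168 9 13)))))), (.s k48 k32 3 (.s k154 k223 10 (.s k18 k222
  9 (.s k3 k33 4 (.s k1 k2 0 (.d k169 k253 k252 13 14)))))), (.s k48 k32 3 (.s k84 k87 0 (.s k154
  k223 10 (.s k207 k101 14 (.s k222 k18 9 (.d k252 k237 k168 4 13))))))] .n) .n))))))))))))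

def t7_245 : T TT 256 :=
  (.f k255 k170 14 (.q k106 [(.s k64 k127 6 (.s k192 k128 7 (.s k149 k63 14 (.d k213 k234 k21 6
  7))))] (.c k21 (.q k1 [(.s k3 k2 0 (.s k87 k171 13 (.s k86 k84 0 (.d k169 k253 k252 13 14)))), (.s
  k64 k127 6 (.s k169 k253 13 (.s k192 k128 7 (.s k149 k63 14 (.s k129 k189 5 (.s k65 k193 7 (.d k66
  k67 k3 0 8))))))), (.s k3 k2 0 (.s k64 k127 6 (.s k192 k128 7 (.s k66 k129 8 (.s k86 k126 5 (.d
  k87 k84 k171 0 13))))))] (.c k3 (.l (.s k64 k127 6 (.s k192 k128 7 (.s k213 k234 6 (.s k253 k169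
  13 (.s k193 k233 5 (.s k65 k129 7 (.d k195 k130 k194 8 0)))))))) .n)) (.c k63 (.q k1 [(.s k3 k2 0
  (.s k87 k171 13 (.s k86 k84 0 (.d k169 k253 k252 13 14)))), (.s k64 k127 6 (.s k192 k128 7 (.s
  k213 k234 6 (.s k253 k169 13 (.s k193 k233 5 (.s k65 k129 7 (.d k195 k130 k194 8 0))))))), (.s k3
  k2 0 (.s k64 k127 6 (.s k192 k128 7 (.s k66 k129 8 (.s k86 k126 5 (.d k87 k84 k171 0 13))))))] (.c
  k171 (.l (.s k3 k2 0 (.s k64 k127 6 (.s k169 k253 13 (.s k86 k252 14 (.s k192 k128 7 (.d k66 k126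
  k129 5 8))))))) .n)) (.c k64 (.q k60 [(.s k20 k40 5 (.s k125 k190 8 (.s k150 k215 8 (.d k105 k65
  k195 5 14)))), (.s k20 k40 5 (.s k150 k215 8 (.s k62 k194 13 (.s k63 k61 0 (.s k21 k42 6 (.d k149
  k213 k192 7 14)))))), (.s k125 k190 8 (.s k105 k65 5 (.s k104 k107 0 (.s k192 k148 13 (.s k149 k63
  14 (.d k213 k234 k21 6 7))))))] (.c k105 (.q k104 [(.s k192 k148 13 (.s k149 k63 14 (.d k213 k234
  k21 6 7))), (.s k40 k20 5 (.s k232 k168 7 (.s k169 k43 8 (.s k1 k253 13 (.s k3 k2 0 (.s k86 k252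
  14 (.d k87 k171 k84 13 0)))))))] (.c k40 (.q k235 [(.s k192 k148 13 (.s k149 k63 14 (.d k213 k234
  k21 6 7))), (.s k192 k148 13 (.s k63 k149 14 (.s k215 k195 5 (.s k150 k20 8 (.d k62 k61 k194 0
  13))))), (.s k192 k148 13 (.s k195 k215 5 (.s k234 k213 6 (.s k233 k232 0 (.s k214 k252 6 (.d k194
  k193 k254 0 5))))))] (.c k148 (.l (.s k215 k195 5 (.s k150 k20 8 (.s k62 k194 13 (.s k63 k61 0 (.s
  k21 k42 6 (.d k149 k192 k213 14 7))))))) (.c k192 (.q k1 [(.s k3 k2 0 (.s k87 k171 13 (.s k86 k84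
  0 (.d k169 k253 k252 13 14)))), (.s k125 k190 8 (.s k253 k169 13 (.s k61 k189 7 (.s k63 k62 0 (.d
  k21 k41 k42 5 6))))), (.s k3 k2 0 (.s k41 k22 6 (.s k21 k61 5 (.s k171 k87 13 (.s k43 k107 7 (.d
  k63 k42 k23 6 5))))))] (.c k171 (.l (.s k3 k2 0 (.s k41 k22 6 (.s k61 k21 5 (.s k125 k190 8 (.d
  k253 k189 k169 7 13)))))) (.c k254 (.l (.s k169 k253 13 (.s k3 k2 0 (.s k86 k252 14 (.d k87 k84
  k171 0 13))))) .n))) .n))) (.c k235 (.l (.s k40 k20 5 (.s k192 k148 13 (.s k149 k63 14 (.d k213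
  k234 k21 6 7))))) .n))) (.c k150 (.q k148 [(.s k104 k192 13 (.s k105 k107 0 (.d k125 k190 k65 8
  5))), (.s k192 k104 13 (.s k149 k63 14 (.d k213 k234 k21 6 7))), (.s k20 k40 5 (.s k84 k212 7 (.s
  k86 k87 0 (.s k126 k66 5 (.s k190 k125 8 (.s k254 k62 7 (.d k252 k253 k168 0 13)))))))] (.c k130
  (.l (.s k190 k125 8 (.s k192 k104 13 (.s k149 k63 14 (.d k213 k234 k21 6 7))))) (.c k190 (.q k130
  [(.s k65 k195 8 (.s k105 k125 5 (.d k104 k107 k192 0 13))), (.s k192 k104 13 (.s k149 k63 14 (.d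
  k213 k234 k21 6 7))), (.s k20 k40 5 (.s k65 k195 8 (.s k84 k212 7 (.s k86 k87 0 (.s k105 k125 5
  (.s k124 k67 6 (.d k252 k188 k168 7 13)))))))] .n) .n))) .n))) (.c k127 (.q k12 [(.s k4 k8 1 (.s
  k93 k174 12 (.s k89 k81 1 (.d k166 k247 k243 12 14)))), (.s k4 k8 1 (.s k166 k247 12 (.s k46 k226
  9 (.s k63 k29 4 (.s k21 k42 6 (.d k149 k213 k192 7 14)))))), (.s k93 k174 12 (.s k89 k81 1 (.s k72
  k123 4 (.s k192 k132 9 (.s k149 k63 14 (.d k213 k234 k21 6 7))))))] (.c k89 (.q k117 [(.s k101 k69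
  3 (.s k48 k186 10 (.s k154 k207 14 (.d k16 k32 k223 3 10)))), (.s k48 k186 10 (.s k36 k24 5 (.s
  k101 k69 3 (.s k166 k231 8 (.d k4 k8 k247 1 12))))), (.s k8 k4 1 (.s k48 k186 10 (.s k24 k36 5 (.s
  k40 k56 3 (.s k20 k60 5 (.d k16 k28 k32 1 3))))))] (.c k8 (.q k251 [(.s k101 k69 3 (.s k48 k186 10
  (.s k154 k207 14 (.d k16 k32 k223 3 10)))), (.s k101 k69 3 (.s k247 k243 1 (.s k4 k166 12 (.s k52
  k182 8 (.s k20 k36 3 (.d k150 k215 k199 8 12)))))), (.s k48 k186 10 (.s k36 k24 5 (.s k247 k243 1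
  (.s k4 k166 12 (.d k52 k20 k182 3 8)))))] .n) (.c k48 (.l (.s k69 k101 3 (.s k93 k174 12 (.s k207
  k138 10 (.s k77 k142 8 (.s k65 k73 1 (.d k125 k105 k109 5 3))))))) (.c k138 (.l (.s k101 k69 3 (.s
  k48 k186 10 (.s k154 k207 14 (.d k16 k32 k223 3 10))))) (.c k154 (.l (.s k8 k4 1 (.s k69 k101 3
  (.s k48 k186 10 (.s k138 k207 10 (.s k73 k203 8 (.s k195 k134 10 (.d k65 k77 k130 1 8)))))))) (.c
  k186 (.l (.s k8 k4 1 (.s k69 k101 3 (.s k138 k207 10 (.s k73 k203 8 (.s k195 k134 10 (.d k65 k77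
  k130 1 8))))))) (.c k251 (.l (.s k8 k4 1 (.s k48 k186 10 (.s k16 k32 3 (.s k101 k69 3 (.d k154
  k223 k207 10 14)))))) .n))))))) (.c k166 (.q k72 [(.s k89 k123 4 (.d k93 k174 k81 12 1)), (.s k192
  k132 9 (.s k149 k63 14 (.d k213 k234 k21 6 7)))] (.c k162 (.l (.s k174 k93 12 (.s k192 k132 9 (.s
  k149 k63 14 (.d k213 k234 k21 6 7))))) (.c k174 (.q k162 [(.s k81 k243 12 (.d k89 k93 k123 1 4)),
  (.s k192 k132 9 (.s k149 k63 14 (.d k213 k234 k21 6 7)))] .n) .n))) .n))) (.c k128 (.l (.s k127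
  k64 6 (.s k63 k191 7 (.s k149 k192 14 (.d k21 k42 k213 6 7))))) (.c k149 (.f k64 k127 6 (.q k72
  [(.s k76 k68 1 (.s k89 k123 4 (.s k81 k93 1 (.d k115 k98 k102 4 6)))), (.s k68 k76 1 (.s k136 k204
  9 (.s k8 k200 7 (.s k12 k4 1 (.d k192 k128 k132 7 9))))), (.s k89 k123 4 (.s k93 k81 1 (.s k12
  k174 12 (.d k192 k128 k132 7 9))))] (.c k93 (.l (.s k76 k68 1 (.s k89 k123 4 (.s k115 k102 6 (.s
  k81 k98 4 (.s k243 k162 12 (.s k166 k12 14 (.d k247 k251 k4 1 12)))))))) (.c k128 (.q k191 [(.s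
  k76 k68 1 (.s k89 k123 4 (.s k81 k93 1 (.d k115 k98 k102 4 6)))), (.s k68 k76 1 (.s k204 k136 9
  (.s k221 k238 4 (.s k153 k17 9 (.d k102 k119 k51 4 14))))), (.s k89 k123 4 (.s k93 k81 1 (.s k12
  k174 12 (.s k4 k8 1 (.d k166 k247 k243 12 14)))))] (.c k93 (.l (.s k76 k68 1 (.s k89 k123 4 (.s
  k115 k102 6 (.s k81 k98 4 (.s k243 k162 12 (.s k166 k12 14 (.d k247 k251 k4 1 12)))))))) (.c k119
  (.l (.s k76 k68 1 (.s k89 k123 4 (.s k115 k102 6 (.d k81 k93 k98 1 4))))) .n))) (.c k191 (.l (.s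
  k128 k192 7 (.s k76 k68 1 (.s k89 k123 4 (.s k81 k93 1 (.d k115 k98 k102 4 6)))))) .n))))) (.c
  k191 (.l (.s k64 k127 6 (.s k192 k128 7 (.s k149 k63 14 (.d k213 k234 k21 6 7))))) (.c k192 (.q k1
  [(.s k3 k2 0 (.s k87 k171 13 (.s k86 k84 0 (.d k169 k253 k252 13 14)))), (.s k127 k64 6 (.s k63
  k191 7 (.s k21 k42 6 (.s k61 k41 5 (.s k253 k169 13 (.s k125 k189 7 (.d k60 k190 k62 8 0))))))),
  (.s k3 k2 0 (.s k127 k64 6 (.s k63 k191 7 (.s k21 k42 6 (.s k23 k43 5 (.s k22 k20 0 (.d k41 k61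
  k60 5 6)))))))] .n) (.c k213 (.f k64 k127 6 (.f k192 k128 7 (.f k149 k63 14 (.q k197 [(.s k101 k53
  11 (.s k207 k202 2 (.d k69 k117 k138 3 10))), (.s k207 k202 2 (.s k69 k138 10 (.s k74 k79 2 (.d
  k133 k5 k15 7 10)))), (.s k101 k53 11 (.s k96 k111 2 (.s k48 k144 11 (.d k207 k202 k154 2 14)))),
  (.s k101 k53 11 (.s k117 k69 3 (.s k48 k186 10 (.d k96 k111 k144 2 11))))] .n)))) (.c k234 (.l (.s
  k127 k64 6 (.s k63 k191 7 (.s k21 k42 6 (.d k149 k213 k192 7 14))))) .n))))))))))))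

def t7_246 : T TT 256 :=
  (.f k255 k170 14 (.q k106 [(.s k64 k127 6 (.s k192 k128 7 (.s k149 k63 14 (.d k213 k234 k21 6
  7))))] (.c k21 (.q k1 [(.s k3 k2 0 (.s k87 k171 13 (.s k86 k84 0 (.d k169 k253 k252 13 14)))), (.s
  k64 k127 6 (.s k169 k253 13 (.s k192 k128 7 (.s k149 k63 14 (.s k129 k189 5 (.s k65 k193 7 (.d k66
  k67 k3 0 8))))))), (.s k3 k2 0 (.s k64 k127 6 (.s k192 k128 7 (.s k66 k129 8 (.s k86 k126 5 (.d
  k87 k84 k171 0 13))))))] (.c k3 (.l (.s k64 k127 6 (.s k192 k128 7 (.s k213 k234 6 (.s k253 k169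
  13 (.s k193 k233 5 (.s k65 k129 7 (.d k195 k130 k194 8 0)))))))) .n)) (.c k63 (.q k1 [(.s k3 k2 0
  (.s k87 k171 13 (.s k86 k84 0 (.d k169 k253 k252 13 14)))), (.s k64 k127 6 (.s k192 k128 7 (.s
  k213 k234 6 (.s k253 k169 13 (.s k193 k233 5 (.s k65 k129 7 (.d k195 k130 k194 8 0))))))), (.s k3
  k2 0 (.s k64 k127 6 (.s k192 k128 7 (.s k66 k129 8 (.s k86 k126 5 (.d k87 k84 k171 0 13))))))] (.c
  k171 (.l (.s k3 k2 0 (.s k64 k127 6 (.s k169 k253 13 (.s k86 k252 14 (.s k192 k128 7 (.d k66 k126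
  k129 5 8))))))) .n)) (.c k64 (.q k60 [(.s k20 k40 5 (.s k125 k190 8 (.s k150 k215 8 (.d k105 k65
  k195 5 14)))), (.s k20 k40 5 (.s k150 k215 8 (.s k62 k194 13 (.s k63 k61 0 (.s k21 k42 6 (.d k149
  k213 k192 7 14)))))), (.s k125 k190 8 (.s k105 k65 5 (.s k104 k107 0 (.s k192 k148 13 (.s k149 k63
  14 (.d k213 k234 k21 6 7))))))] (.c k105 (.q k87 [(.s k3 k171 13 (.s k1 k2 0 (.s k169 k253 13 (.d
  k86 k84 k252 0 14)))), (.s k86 k84 0 (.s k126 k66 5 (.s k190 k125 8 (.s k62 k254 7 (.s k150 k194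
  13 (.d k20 k40 k215 5 8)))))), (.s k3 k171 13 (.s k2 k1 0 (.s k22 k41 6 (.s k42 k62 5 (.s k21 k63
  6 (.d k20 k40 k23 5 0))))))] (.c k2 (.l (.s k3 k171 13 (.s k22 k41 6 (.s k86 k84 0 (.s k150 k214 7
  (.d k20 k40 k215 5 8)))))) (.c k40 (.q k235 [(.s k3 k171 13 (.s k1 k2 0 (.s k169 k253 13 (.d k86
  k84 k252 0 14)))), (.s k86 k84 0 (.s k126 k66 5 (.s k190 k125 8 (.s k62 k254 7 (.s k150 k194 13
  (.d k215 k195 k20 5 8)))))), (.s k3 k171 13 (.s k22 k41 6 (.s k215 k195 5 (.s k20 k150 8 (.d k23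
  k21 k151 0 7)))))] .n) (.c k235 (.l (.s k40 k20 5 (.s k3 k171 13 (.s k1 k2 0 (.s k86 k84 0 (.d
  k169 k253 k252 13 14)))))) .n)))) (.c k150 (.q k69 [(.s k101 k117 3 (.s k207 k138 10 (.s k154 k48
  14 (.d k223 k239 k16 3 10)))), (.s k101 k117 3 (.s k207 k138 10 (.s k109 k158 12 (.s k105 k97 1
  (.d k125 k190 k65 8 5))))), (.s k190 k125 8 (.s k207 k138 10 (.s k158 k109 12 (.s k174 k142 3 (.s
  k93 k12 12 (.d k223 k239 k28 3 8))))))] (.c k130 (.l (.s k190 k125 8 (.s k101 k117 3 (.s k207 k138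
  10 (.s k154 k48 14 (.d k223 k239 k16 3 10)))))) (.c k138 (.l (.s k117 k101 3 (.s k186 k48 10 (.s
  k190 k125 8 (.s k182 k178 1 (.s k243 k121 10 (.d k247 k52 k251 8 1))))))) (.c k154 (.l (.s k20 k40
  5 (.s k117 k101 3 (.s k48 k186 10 (.s k138 k207 10 (.s k52 k56 1 (.s k4 k36 3 (.d k247 k166 k182
  12 8)))))))) (.c k186 (.l (.s k101 k117 3 (.s k207 k138 10 (.s k154 k48 14 (.d k223 k239 k16 3
  10))))) (.c k190 (.q k130 [(.s k101 k117 3 (.s k207 k138 10 (.s k154 k48 14 (.d k223 k239 k16 3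
  10)))), (.s k65 k195 8 (.s k77 k73 1 (.s k125 k105 5 (.s k109 k93 3 (.d k207 k138 k158 10 12))))),
  (.s k65 k195 8 (.s k77 k73 1 (.s k101 k117 3 (.s k89 k113 5 (.s k93 k81 1 (.d k125 k109 k105 3
  5))))))] .n) (.c k207 (.l (.s k20 k40 5 (.s k117 k101 3 (.s k48 k186 10 (.s k52 k56 1 (.s k4 k36 3
  (.d k247 k166 k182 12 8))))))) .n))))))) .n))) (.c k127 (.q k195 [(.s k65 k130 8 (.s k215 k235 5
  (.s k150 k20 8 (.d k105 k125 k60 5 14)))), (.s k65 k130 8 (.s k105 k125 5 (.s k107 k104 0 (.s k63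
  k151 13 (.s k21 k42 6 (.d k149 k213 k192 7 14)))))), (.s k215 k235 5 (.s k150 k20 8 (.s k194 k62
  13 (.s k192 k193 0 (.s k149 k63 14 (.d k213 k234 k21 6 7))))))] (.c k105 (.q k149 [(.s k21 k213 7
  (.d k63 k42 k192 6 14)), (.s k63 k192 14 (.s k151 k107 13 (.s k150 k148 0 (.d k215 k235 k20 5
  8))))] (.c k40 (.l (.s k235 k215 5 (.s k21 k213 7 (.d k63 k42 k192 6 14)))) (.c k63 (.l (.s k213
  k21 7 (.s k192 k234 6 (.s k194 k193 0 (.s k150 k62 13 (.d k215 k235 k20 5 8)))))) (.c k192 (.l (.s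
  k21 k213 7 (.s k63 k42 6 (.s k151 k107 13 (.s k150 k148 0 (.d k215 k235 k20 5 8)))))) (.c k235 (.q
  k40 [(.s k21 k213 7 (.d k63 k42 k192 6 14)), (.s k20 k60 5 (.s k63 k192 14 (.s k150 k215 8 (.d
  k151 k148 k107 0 13))))] (.c k63 (.l (.s k20 k60 5 (.s k150 k215 8 (.s k213 k21 7 (.s k192 k234 6
  (.d k194 k62 k193 13 0)))))) (.c k192 (.l (.s k20 k60 5 (.s k21 k213 7 (.s k63 k42 6 (.s k150 k215
  8 (.d k151 k148 k107 0 13)))))) .n))) .n))))) (.c k150 (.q k149 [(.s k21 k213 7 (.d k63 k42 k192 6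
  14)), (.s k63 k192 14 (.s k107 k151 13 (.s k105 k104 0 (.d k65 k130 k125 8 5))))] (.c k63 (.l (.s
  k213 k21 7 (.s k192 k234 6 (.s k193 k194 0 (.s k105 k61 13 (.d k65 k125 k130 5 8)))))) (.c k130
  (.q k190 [(.s k21 k213 7 (.d k63 k42 k192 6 14)), (.s k63 k192 14 (.s k107 k151 13 (.s k105 k104 0
  (.d k125 k60 k65 8 5))))] (.c k63 (.l (.s k125 k60 8 (.s k105 k65 5 (.s k213 k21 7 (.s k192 k234 6
  (.d k193 k61 k194 13 0)))))) (.c k192 (.l (.s k21 k213 7 (.s k63 k42 6 (.s k107 k151 13 (.s k105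
  k104 0 (.d k125 k60 k65 8 5)))))) .n))) (.c k190 (.l (.s k130 k65 8 (.s k21 k213 7 (.d k63 k42
  k192 6 14)))) (.c k192 (.l (.s k21 k213 7 (.s k63 k42 6 (.s k107 k151 13 (.s k105 k104 0 (.d k65
  k125 k130 5 8)))))) .n))))) .n))) (.c k128 (.l (.s k127 k64 6 (.s k63 k191 7 (.s k149 k192 14 (.d
  k21 k42 k213 6 7))))) (.c k149 (.f k64 k127 6 (.q k72 [(.s k76 k68 1 (.s k89 k123 4 (.s k81 k93 1
  (.d k115 k98 k102 4 6)))), (.s k68 k76 1 (.s k136 k204 9 (.s k8 k200 7 (.s k12 k4 1 (.d k192 k128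
  k132 7 9))))), (.s k89 k123 4 (.s k93 k81 1 (.s k12 k174 12 (.d k192 k128 k132 7 9))))] (.c k93
  (.l (.s k76 k68 1 (.s k89 k123 4 (.s k115 k102 6 (.s k81 k98 4 (.s k243 k162 12 (.s k166 k12 14
  (.d k247 k251 k4 1 12)))))))) (.c k128 (.q k191 [(.s k76 k68 1 (.s k89 k123 4 (.s k81 k93 1 (.d
  k115 k98 k102 4 6)))), (.s k68 k76 1 (.s k204 k136 9 (.s k221 k238 4 (.s k153 k17 9 (.d k102 k119
  k51 4 14))))), (.s k89 k123 4 (.s k93 k81 1 (.s k12 k174 12 (.s k4 k8 1 (.d k166 k247 k243 12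
  14)))))] (.c k93 (.l (.s k76 k68 1 (.s k89 k123 4 (.s k115 k102 6 (.s k81 k98 4 (.s k243 k162 12
  (.s k166 k12 14 (.d k247 k251 k4 1 12)))))))) (.c k119 (.l (.s k76 k68 1 (.s k89 k123 4 (.s k115
  k102 6 (.d k81 k93 k98 1 4))))) .n))) (.c k191 (.l (.s k128 k192 7 (.s k76 k68 1 (.s k89 k123 4
  (.s k81 k93 1 (.d k115 k98 k102 4 6)))))) .n))))) (.c k191 (.l (.s k64 k127 6 (.s k192 k128 7 (.s
  k149 k63 14 (.d k213 k234 k21 6 7))))) (.c k192 (.q k1 [(.s k3 k2 0 (.s k87 k171 13 (.s k86 k84 0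
  (.d k169 k253 k252 13 14)))), (.s k127 k64 6 (.s k63 k191 7 (.s k21 k42 6 (.s k61 k41 5 (.s k253
  k169 13 (.s k125 k189 7 (.d k60 k190 k62 8 0))))))), (.s k3 k2 0 (.s k127 k64 6 (.s k63 k191 7 (.s
  k21 k42 6 (.s k23 k43 5 (.s k22 k20 0 (.d k41 k61 k60 5 6)))))))] .n) (.c k213 (.q k1 [(.s k3 k2 0
  (.s k87 k171 13 (.s k86 k84 0 (.d k169 k253 k252 13 14)))), (.s k64 k127 6 (.s k169 k253 13 (.s
  k192 k128 7 (.s k149 k63 14 (.s k129 k189 5 (.s k66 k3 8 (.d k65 k193 k67 7 0))))))), (.s k3 k2 0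
  (.s k64 k127 6 (.s k192 k128 7 (.s k66 k129 8 (.s k86 k126 5 (.d k87 k84 k171 0 13))))))] (.c k3
  (.l (.s k127 k64 6 (.s k63 k191 7 (.s k21 k42 6 (.s k61 k41 5 (.s k60 k62 0 (.s k125 k190 8 (.d
  k253 k189 k169 7 13)))))))) .n)) (.c k234 (.l (.s k127 k64 6 (.s k63 k191 7 (.s k21 k42 6 (.d k149
  k213 k192 7 14))))) .n))))))))))))

def t7_247 : T TT 256 :=
  (.f k255 k170 14 (.q k87 [(.s k86 k84 0 (.s k3 k171 13 (.s k169 k252 14 (.d k1 k2 k253 0 13))))]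
  (.c k1 (.q k16 [(.s k154 k223 10 (.s k48 k32 3 (.s k101 k207 14 (.d k117 k69 k186 3 10)))), (.s k3
  k171 13 (.s k223 k154 10 (.s k19 k155 9 (.s k17 k18 0 (.d k51 k35 k34 3 4))))), (.s k48 k32 3 (.s
  k84 k86 0 (.s k152 k220 9 (.s k100 k204 13 (.s k116 k68 3 (.d k252 k184 k168 9 13))))))] .n) (.c
  k2 (.f k86 k84 0 (.q k5 [(.s k165 k245 11 (.s k15 k10 2 (.s k90 k240 14 (.d k95 k80 k175 2 11)))),
  (.s k3 k171 13 (.s k10 k15 2 (.s k169 k252 14 (.s k1 k253 13 (.s k9 k13 1 (.s k8 k11 0 (.d k12 k4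
  k6 1 2))))))), (.s k3 k171 13 (.s k165 k245 11 (.s k169 k252 14 (.s k1 k253 13 (.s k13 k9 1 (.s
  k161 k173 1 (.d k241 k81 k89 11 13)))))))] (.c k15 (.l (.s k3 k171 13 (.s k245 k165 11 (.s k240
  k250 2 (.s k82 k161 12 (.s k90 k94 1 (.d k80 k160 k95 11 2))))))) .n))) (.c k3 (.q k15 [(.s k5 k10
  2 (.s k95 k175 11 (.s k90 k80 2 (.d k165 k245 k240 11 14)))), (.s k84 k86 0 (.s k95 k175 11 (.s
  k252 k168 13 (.s k94 k173 12 (.s k93 k92 0 (.s k174 k12 12 (.d k254 k253 k14 0 11))))))), (.s k5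
  k10 2 (.s k84 k86 0 (.s k165 k245 11 (.s k252 k168 13 (.s k173 k94 12 (.s k169 k161 1 (.d k253
  k254 k1 0 13)))))))] (.c k165 (.f k86 k84 0 (.q k71 [(.s k119 k103 3 (.s k51 k187 9 (.s k17 k34 4
  (.s k153 k221 9 (.d k102 k68 k204 4 14))))), (.s k101 k116 4 (.s k117 k69 3 (.s k48 k186 10 (.s
  k16 k32 3 (.d k154 k223 k207 10 14)))))] (.c k68 (.l (.s k103 k119 3 (.s k101 k116 4 (.s k100 k102
  0 (.s k117 k69 3 (.s k48 k186 10 (.s k16 k32 3 (.d k154 k223 k207 10 14)))))))) (.c k160 (.l (.s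
  k175 k95 11 (.s k101 k116 4 (.s k69 k117 3 (.s k68 k70 0 (.d k119 k103 k102 3 4)))))) (.c k175 (.q
  k160 [(.s k101 k116 4 (.s k69 k117 3 (.s k119 k103 3 (.d k68 k70 k102 0 4)))), (.s k80 k240 11 (.s
  k95 k90 2 (.s k83 k91 1 (.s k89 k92 2 (.d k81 k82 k93 0 1)))))] .n) .n))))) .n)) (.c k84 (.q k5
  [(.s k165 k245 11 (.s k15 k10 2 (.s k90 k240 14 (.d k95 k80 k175 2 11)))), (.s k3 k171 13 (.s k1
  k2 0 (.s k9 k13 1 (.s k169 k253 13 (.s k89 k249 11 (.s k93 k81 1 (.d k12 k6 k174 2 12)))))))] (.c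
  k245 (.l (.s k3 k171 13 (.s k1 k2 0 (.s k9 k13 1 (.s k10 k15 2 (.s k8 k11 0 (.d k12 k4 k6 1
  2))))))) .n)) (.c k86 (.q k195 [(.s k65 k130 8 (.s k105 k125 5 (.s k150 k60 14 (.d k215 k235 k20 5
  8)))), (.s k3 k171 13 (.s k67 k131 7 (.s k107 k127 5 (.s k151 k63 13 (.d k215 k235 k23 5 7))))),
  (.s k3 k171 13 (.s k65 k130 8 (.s k67 k131 7 (.s k64 k66 0 (.d k127 k106 k107 6 5)))))] (.c k2 (.q
  k254 [(.s k215 k235 5 (.s k150 k20 8 (.s k105 k60 14 (.d k65 k125 k130 5 8)))), (.s k3 k171 13 (.s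
  k67 k131 7 (.s k107 k127 5 (.s k151 k63 13 (.d k215 k235 k23 5 7))))), (.s k3 k171 13 (.s k65 k130
  8 (.s k67 k131 7 (.s k66 k64 0 (.s k129 k192 8 (.s k1 k193 7 (.d k253 k169 k252 13 0)))))))] (.c
  k165 (.q k244 [(.s k215 k235 5 (.s k150 k20 8 (.s k105 k60 14 (.d k65 k125 k130 5 8)))), (.s k252
  k253 0 (.s k84 k168 13 (.s k164 k4 11 (.s k240 k248 1 (.s k88 k12 13 (.d k80 k160 k92 11 1))))))]
  (.c k160 (.q k175 [(.s k215 k235 5 (.s k150 k20 8 (.s k105 k60 14 (.d k65 k125 k130 5 8)))), (.s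
  k3 k171 13 (.s k67 k131 7 (.s k107 k127 5 (.s k151 k63 13 (.d k215 k235 k23 5 7)))))] (.c k215 (.l
  (.s k3 k171 13 (.s k65 k130 8 (.s k67 k131 7 (.s k127 k107 5 (.d k64 k66 k106 0 6)))))) (.c k235
  (.l (.s k252 k253 0 (.s k214 k233 6 (.s k229 k199 4 (.s k240 k248 1 (.s k210 k225 4 (.d k218 k222
  k207 1 6))))))) .n))) (.c k175 (.q k160 [(.s k240 k80 11 (.d k252 k253 k248 0 1)), (.s k65 k130 8
  (.s k105 k125 5 (.s k150 k60 14 (.d k215 k235 k20 5 8))))] .n) .n))) (.c k244 (.q k165 [(.s k215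
  k235 5 (.s k150 k20 8 (.s k105 k60 14 (.d k65 k125 k130 5 8)))), (.s k245 k5 11 (.s k240 k250 2
  (.s k80 k160 11 (.d k90 k95 k15 2 14))))] (.c k245 (.q k246 [(.s k215 k235 5 (.s k150 k20 8 (.s
  k105 k60 14 (.d k65 k125 k130 5 8)))), (.s k3 k171 13 (.s k67 k131 7 (.s k107 k127 5 (.s k151 k63
  13 (.d k215 k235 k23 5 7))))), (.s k65 k130 8 (.s k105 k125 5 (.s k225 k45 9 (.s k240 k210 4 (.s
  k80 k160 11 (.d k90 k95 k15 2 14))))))] .n) (.c k246 (.l (.s k245 k5 11 (.s k240 k250 2 (.s k80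
  k160 11 (.d k90 k95 k15 2 14))))) .n))) .n))) (.c k165 (.q k244 [(.s k65 k130 8 (.s k105 k125 5
  (.s k150 k60 14 (.d k215 k235 k20 5 8)))), (.s k3 k171 13 (.s k67 k131 7 (.s k107 k127 5 (.s k151
  k63 13 (.d k215 k235 k23 5 7))))), (.s k3 k171 13 (.s k65 k130 8 (.s k67 k131 7 (.s k64 k66 0 (.d
  k127 k106 k107 6 5)))))] (.c k2 (.q k254 [(.s k215 k235 5 (.s k150 k20 8 (.s k105 k60 14 (.d k65
  k125 k130 5 8)))), (.s k252 k253 0 (.s k84 k168 13 (.s k164 k4 11 (.s k240 k248 1 (.s k88 k12 13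
  (.d k80 k160 k92 11 1))))))] (.c k160 (.q k175 [(.s k215 k235 5 (.s k150 k20 8 (.s k105 k60 14 (.d
  k65 k125 k130 5 8)))), (.s k3 k171 13 (.s k67 k131 7 (.s k107 k127 5 (.s k151 k63 13 (.d k215 k235
  k23 5 7)))))] (.c k215 (.l (.s k3 k171 13 (.s k65 k130 8 (.s k67 k131 7 (.s k127 k107 5 (.d k64
  k66 k106 0 6)))))) (.c k235 (.l (.s k252 k253 0 (.s k214 k233 6 (.s k229 k199 4 (.s k240 k248 1
  (.s k210 k225 4 (.d k218 k222 k207 1 6))))))) .n))) (.c k175 (.q k160 [(.s k240 k80 11 (.d k252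
  k253 k248 0 1)), (.s k65 k130 8 (.s k105 k125 5 (.s k150 k60 14 (.d k215 k235 k20 5 8))))] .n)
  .n))) (.c k160 (.q k175 [(.s k65 k130 8 (.s k105 k125 5 (.s k150 k60 14 (.d k215 k235 k20 5 8)))),
  (.s k3 k171 13 (.s k67 k131 7 (.s k107 k127 5 (.s k151 k63 13 (.d k215 k235 k23 5 7))))), (.s k3
  k171 13 (.s k65 k130 8 (.s k67 k131 7 (.s k64 k66 0 (.d k127 k106 k107 6 5)))))] (.c k2 (.q k254
  [(.s k215 k235 5 (.s k150 k20 8 (.s k105 k60 14 (.d k65 k125 k130 5 8)))), (.s k3 k171 13 (.s k67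
  k131 7 (.s k107 k127 5 (.s k151 k63 13 (.d k215 k235 k23 5 7)))))] (.c k215 (.l (.s k3 k171 13 (.s
  k65 k130 8 (.s k67 k131 7 (.s k127 k107 5 (.d k64 k66 k106 0 6)))))) (.c k235 (.l (.s k252 k253 0
  (.s k214 k233 6 (.s k229 k199 4 (.s k240 k248 1 (.s k210 k225 4 (.d k218 k222 k207 1 6)))))))
  .n))) (.c k254 (.q k2 [(.d k3 k1 k171 0 13), (.s k65 k130 8 (.s k105 k125 5 (.s k150 k60 14 (.d
  k215 k235 k20 5 8))))] .n) .n))) (.c k175 (.q k160 [(.s k65 k130 8 (.s k105 k125 5 (.s k150 k60 14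
  (.d k215 k235 k20 5 8)))), (.s k3 k171 13 (.s k67 k131 7 (.s k107 k127 5 (.s k151 k63 13 (.d k215
  k235 k23 5 7))))), (.s k3 k171 13 (.s k65 k130 8 (.s k67 k131 7 (.s k64 k66 0 (.d k127 k106 k107 6
  5)))))] (.c k2 (.q k254 [(.s k240 k80 11 (.d k252 k253 k248 0 1)), (.s k65 k130 8 (.s k105 k125 5
  (.s k150 k60 14 (.d k215 k235 k20 5 8))))] .n) (.c k254 (.q k2 [(.d k3 k1 k171 0 13), (.s k65 k130
  8 (.s k105 k125 5 (.s k150 k60 14 (.d k215 k235 k20 5 8))))] .n) .n))) (.c k254 (.q k2 [(.d k3 k1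
  k171 0 13), (.s k65 k130 8 (.s k105 k125 5 (.s k150 k60 14 (.d k215 k235 k20 5 8))))] (.c k160 (.q
  k175 [(.d k3 k1 k171 0 13), (.s k65 k130 8 (.s k105 k125 5 (.s k150 k60 14 (.d k215 k235 k20 5
  8))))] .n) (.c k175 (.q k160 [(.d k3 k1 k171 0 13), (.s k65 k130 8 (.s k105 k125 5 (.s k150 k60 14
  (.d k215 k235 k20 5 8))))] .n) .n))) .n))))) (.c k244 (.q k165 [(.s k65 k130 8 (.s k105 k125 5 (.s
  k150 k60 14 (.d k215 k235 k20 5 8)))), (.s k245 k5 11 (.s k240 k250 2 (.s k80 k160 11 (.d k90 k95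
  k15 2 14))))] (.c k2 (.q k254 [(.s k215 k235 5 (.s k150 k20 8 (.s k105 k60 14 (.d k65 k125 k130 5
  8)))), (.s k245 k5 11 (.s k240 k250 2 (.s k80 k160 11 (.d k90 k95 k15 2 14))))] (.c k245 (.q k246
  [(.s k215 k235 5 (.s k150 k20 8 (.s k105 k60 14 (.d k65 k125 k130 5 8)))), (.s k3 k171 13 (.s k67
  k131 7 (.s k107 k127 5 (.s k151 k63 13 (.d k215 k235 k23 5 7))))), (.s k65 k130 8 (.s k105 k125 5
  (.s k225 k45 9 (.s k240 k210 4 (.s k80 k160 11 (.d k90 k95 k15 2 14))))))] .n) (.c k246 (.l (.s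
  k245 k5 11 (.s k240 k250 2 (.s k80 k160 11 (.d k90 k95 k15 2 14))))) .n))) (.c k245 (.q k246 [(.s
  k65 k130 8 (.s k105 k125 5 (.s k150 k60 14 (.d k215 k235 k20 5 8)))), (.s k3 k171 13 (.s k67 k131
  7 (.s k107 k127 5 (.s k151 k63 13 (.d k215 k235 k23 5 7))))), (.s k3 k171 13 (.s k65 k130 8 (.s
  k67 k131 7 (.s k64 k66 0 (.d k127 k106 k107 6 5)))))] (.c k2 (.q k254 [(.s k215 k235 5 (.s k150
  k20 8 (.s k105 k60 14 (.d k65 k125 k130 5 8)))), (.s k3 k171 13 (.s k67 k131 7 (.s k107 k127 5 (.s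
  k151 k63 13 (.d k215 k235 k23 5 7))))), (.s k65 k130 8 (.s k105 k125 5 (.s k225 k45 9 (.s k240
  k210 4 (.s k80 k160 11 (.d k90 k95 k15 2 14))))))] .n) (.c k254 (.q k2 [(.d k3 k1 k171 0 13), (.s
  k65 k130 8 (.s k105 k125 5 (.s k150 k60 14 (.d k215 k235 k20 5 8))))] .n) .n))) (.c k246 (.l (.s
  k245 k5 11 (.s k240 k250 2 (.s k80 k160 11 (.d k90 k95 k15 2 14))))) (.c k254 (.q k2 [(.d k3 k1
  k171 0 13), (.s k65 k130 8 (.s k105 k125 5 (.s k150 k60 14 (.d k215 k235 k20 5 8))))] (.c k245 (.q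
  k246 [(.d k3 k1 k171 0 13), (.s k65 k130 8 (.s k105 k125 5 (.s k150 k60 14 (.d k215 k235 k20 5
  8))))] .n) (.c k246 (.l (.s k245 k5 11 (.d k3 k1 k171 0 13))) .n))) .n))))) (.c k254 (.q k2 [(.d
  k3 k1 k171 0 13), (.s k65 k130 8 (.s k105 k125 5 (.s k150 k60 14 (.d k215 k235 k20 5 8))))] (.c
  k165 (.q k244 [(.d k3 k1 k171 0 13), (.s k65 k130 8 (.s k105 k125 5 (.s k150 k60 14 (.d k215 k235
  k20 5 8))))] (.c k160 (.q k175 [(.d k3 k1 k171 0 13), (.s k65 k130 8 (.s k105 k125 5 (.s k150 k60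
  14 (.d k215 k235 k20 5 8))))] .n) (.c k175 (.q k160 [(.d k3 k1 k171 0 13), (.s k65 k130 8 (.s k105
  k125 5 (.s k150 k60 14 (.d k215 k235 k20 5 8))))] .n) .n))) (.c k244 (.q k165 [(.d k3 k1 k171 0
  13), (.s k65 k130 8 (.s k105 k125 5 (.s k150 k60 14 (.d k215 k235 k20 5 8))))] (.c k245 (.q k246
  [(.d k3 k1 k171 0 13), (.s k65 k130 8 (.s k105 k125 5 (.s k150 k60 14 (.d k215 k235 k20 5 8))))]
  .n) (.c k246 (.l (.s k245 k5 11 (.d k3 k1 k171 0 13))) .n))) .n))) .n))))) (.c k168 (.l (.s k86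
  k84 0 (.s k3 k171 13 (.s k169 k252 14 (.d k1 k2 k253 0 13))))) (.c k169 (.q k80 [(.s k90 k95 2 (.s
  k240 k160 11 (.s k245 k250 2 (.d k165 k5 k15 11 14)))), (.s k86 k84 0 (.s k95 k90 2 (.s k83 k91 1
  (.s k81 k82 0 (.d k89 k93 k92 1 2))))), (.s k84 k86 0 (.s k88 k92 1 (.s k240 k160 11 (.s k12 k164
  13 (.s k8 k4 1 (.d k168 k252 k248 13 11))))))] (.c k168 (.l (.s k171 k3 13 (.s k90 k95 2 (.s k240
  k160 11 (.s k245 k250 2 (.d k165 k15 k5 14 11)))))) (.c k171 (.q k168 [(.d k84 k86 k252 0 13), (.s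
  k90 k95 2 (.s k240 k160 11 (.s k165 k15 14 (.d k245 k250 k5 2 11))))] .n) .n))) (.c k171 (.q k80
  [(.s k90 k95 2 (.s k240 k160 11 (.s k245 k250 2 (.d k165 k5 k15 11 14)))), (.s k86 k84 0 (.s k95
  k90 2 (.s k83 k91 1 (.s k81 k82 0 (.d k89 k93 k92 1 2))))), (.s k84 k86 0 (.s k88 k92 1 (.s k168
  k252 13 (.s k8 k248 11 (.s k12 k4 1 (.d k240 k160 k164 11 13))))))] (.c k168 (.q k169 [(.s k1 k253
  13 (.s k3 k2 0 (.d k86 k84 k252 0 14))), (.s k90 k95 2 (.s k240 k160 11 (.s k245 k250 2 (.d k165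
  k5 k15 11 14))))] .n) (.c k169 (.q k168 [(.d k84 k86 k252 0 13), (.s k90 k95 2 (.s k240 k160 11
  (.s k165 k15 14 (.d k245 k250 k5 2 11))))] .n) .n))) (.c k252 (.q k5 [(.s k15 k10 2 (.s k95 k175
  11 (.s k90 k80 2 (.d k165 k245 k240 11 14)))), (.s k3 k171 13 (.s k1 k2 0 (.s k9 k13 1 (.s k169
  k253 13 (.s k89 k249 11 (.s k93 k81 1 (.d k12 k6 k174 2 12)))))))] (.c k245 (.l (.s k3 k171 13 (.s
  k1 k2 0 (.s k9 k13 1 (.s k10 k15 2 (.s k8 k11 0 (.d k12 k4 k6 1 2))))))) .n)) (.c k253 (.q k16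
  [(.s k154 k223 10 (.s k48 k32 3 (.s k101 k207 14 (.d k117 k69 k186 3 10)))), (.s k3 k171 13 (.s
  k223 k154 10 (.s k19 k155 9 (.s k17 k18 0 (.d k51 k35 k34 3 4))))), (.s k3 k171 13 (.s k2 k1 0 (.s
  k48 k32 3 (.s k18 k33 4 (.s k17 k19 0 (.d k34 k50 k51 3 4))))))] .n) .n))))))))))))

def t7_248 : T TT 256 :=
  (.f k255 k170 14 (.q k106 [(.s k64 k127 6 (.s k192 k128 7 (.s k149 k63 14 (.d k213 k234 k21 6
  7))))] (.c k21 (.q k1 [(.s k3 k2 0 (.s k87 k171 13 (.s k86 k84 0 (.d k169 k253 k252 13 14)))), (.s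
  k64 k127 6 (.s k169 k253 13 (.s k192 k128 7 (.s k149 k63 14 (.s k129 k189 5 (.s k65 k193 7 (.d k66
  k67 k3 0 8))))))), (.s k3 k2 0 (.s k64 k127 6 (.s k192 k128 7 (.s k66 k129 8 (.s k86 k126 5 (.d
  k87 k84 k171 0 13))))))] (.c k3 (.l (.s k64 k127 6 (.s k192 k128 7 (.s k213 k234 6 (.s k253 k169
  13 (.s k193 k233 5 (.s k65 k129 7 (.d k195 k130 k194 8 0)))))))) .n)) (.c k63 (.q k1 [(.s k3 k2 0
  (.s k87 k171 13 (.s k86 k84 0 (.d k169 k253 k252 13 14)))), (.s k64 k127 6 (.s k192 k128 7 (.s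
  k213 k234 6 (.s k253 k169 13 (.s k193 k233 5 (.s k65 k129 7 (.d k195 k130 k194 8 0))))))), (.s k3
  k2 0 (.s k64 k127 6 (.s k192 k128 7 (.s k66 k129 8 (.s k86 k126 5 (.d k87 k84 k171 0 13))))))] (.c
  k171 (.l (.s k3 k2 0 (.s k64 k127 6 (.s k169 k253 13 (.s k86 k252 14 (.s k192 k128 7 (.d k66 k126
  k129 5 8))))))) .n)) (.c k64 (.q k60 [(.s k20 k40 5 (.s k125 k190 8 (.s k150 k215 8 (.d k105 k65
  k195 5 14)))), (.s k20 k40 5 (.s k150 k215 8 (.s k62 k194 13 (.s k63 k61 0 (.s k21 k42 6 (.d k149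
  k213 k192 7 14)))))), (.s k125 k190 8 (.s k105 k65 5 (.s k104 k107 0 (.s k192 k148 13 (.s k149 k63
  14 (.d k213 k234 k21 6 7))))))] (.c k105 (.q k87 [(.s k3 k171 13 (.s k1 k2 0 (.s k169 k253 13 (.d
  k86 k84 k252 0 14)))), (.s k86 k84 0 (.s k126 k66 5 (.s k190 k125 8 (.s k62 k254 7 (.s k150 k194
  13 (.d k20 k40 k215 5 8)))))), (.s k3 k171 13 (.s k2 k1 0 (.s k22 k41 6 (.s k42 k62 5 (.s k21 k63
  6 (.d k20 k40 k23 5 0))))))] (.c k2 (.l (.s k3 k171 13 (.s k22 k41 6 (.s k86 k84 0 (.s k150 k214 7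
  (.d k20 k40 k215 5 8)))))) (.c k40 (.q k235 [(.s k3 k171 13 (.s k1 k2 0 (.s k169 k253 13 (.d k86
  k84 k252 0 14)))), (.s k86 k84 0 (.s k126 k66 5 (.s k190 k125 8 (.s k62 k254 7 (.s k150 k194 13
  (.d k215 k195 k20 5 8)))))), (.s k3 k171 13 (.s k22 k41 6 (.s k215 k195 5 (.s k20 k150 8 (.d k23
  k21 k151 0 7)))))] .n) (.c k235 (.l (.s k40 k20 5 (.s k3 k171 13 (.s k1 k2 0 (.s k86 k84 0 (.d
  k169 k253 k252 13 14)))))) .n)))) (.c k150 (.q k69 [(.s k101 k117 3 (.s k207 k138 10 (.s k154 k48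
  14 (.d k223 k239 k16 3 10)))), (.s k101 k117 3 (.s k207 k138 10 (.s k109 k158 12 (.s k105 k97 1
  (.d k125 k190 k65 8 5))))), (.s k190 k125 8 (.s k207 k138 10 (.s k158 k109 12 (.s k174 k142 3 (.s
  k93 k12 12 (.d k223 k239 k28 3 8))))))] (.c k130 (.l (.s k190 k125 8 (.s k101 k117 3 (.s k207 k138
  10 (.s k154 k48 14 (.d k223 k239 k16 3 10)))))) (.c k138 (.l (.s k117 k101 3 (.s k186 k48 10 (.s
  k190 k125 8 (.s k182 k178 1 (.s k243 k121 10 (.d k247 k52 k251 8 1))))))) (.c k154 (.l (.s k20 k40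
  5 (.s k117 k101 3 (.s k48 k186 10 (.s k138 k207 10 (.s k52 k56 1 (.s k4 k36 3 (.d k247 k166 k182
  12 8)))))))) (.c k186 (.l (.s k101 k117 3 (.s k207 k138 10 (.s k154 k48 14 (.d k223 k239 k16 3
  10))))) (.c k190 (.q k130 [(.s k101 k117 3 (.s k207 k138 10 (.s k154 k48 14 (.d k223 k239 k16 3
  10)))), (.s k65 k195 8 (.s k77 k73 1 (.s k125 k105 5 (.s k109 k93 3 (.d k207 k138 k158 10 12))))),
  (.s k65 k195 8 (.s k77 k73 1 (.s k101 k117 3 (.s k89 k113 5 (.s k93 k81 1 (.d k125 k109 k105 3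
  5))))))] .n) (.c k207 (.l (.s k20 k40 5 (.s k117 k101 3 (.s k48 k186 10 (.s k52 k56 1 (.s k4 k36 3
  (.d k247 k166 k182 12 8))))))) .n))))))) .n))) (.c k127 (.q k195 [(.s k65 k130 8 (.s k215 k235 5
  (.s k150 k20 8 (.d k105 k125 k60 5 14)))), (.s k65 k130 8 (.s k105 k125 5 (.s k107 k104 0 (.s k63
  k151 13 (.s k21 k42 6 (.d k149 k213 k192 7 14)))))), (.s k215 k235 5 (.s k150 k20 8 (.s k194 k62
  13 (.s k192 k193 0 (.s k149 k63 14 (.d k213 k234 k21 6 7))))))] (.c k105 (.q k149 [(.s k21 k213 7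
  (.d k63 k42 k192 6 14)), (.s k63 k192 14 (.s k151 k107 13 (.s k150 k148 0 (.d k215 k235 k20 5
  8))))] (.c k40 (.l (.s k235 k215 5 (.s k21 k213 7 (.d k63 k42 k192 6 14)))) (.c k63 (.l (.s k213
  k21 7 (.s k192 k234 6 (.s k194 k193 0 (.s k150 k62 13 (.d k215 k235 k20 5 8)))))) (.c k192 (.l (.s
  k21 k213 7 (.s k63 k42 6 (.s k151 k107 13 (.s k150 k148 0 (.d k215 k235 k20 5 8)))))) (.c k235 (.q
  k40 [(.s k21 k213 7 (.d k63 k42 k192 6 14)), (.s k20 k60 5 (.s k63 k192 14 (.s k150 k215 8 (.d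
  k151 k148 k107 0 13))))] (.c k63 (.l (.s k20 k60 5 (.s k150 k215 8 (.s k213 k21 7 (.s k192 k234 6
  (.d k194 k62 k193 13 0)))))) (.c k192 (.l (.s k20 k60 5 (.s k21 k213 7 (.s k63 k42 6 (.s k150 k215
  8 (.d k151 k148 k107 0 13)))))) .n))) .n))))) (.c k150 (.q k149 [(.s k21 k213 7 (.d k63 k42 k192 6
  14)), (.s k63 k192 14 (.s k107 k151 13 (.s k105 k104 0 (.d k65 k130 k125 8 5))))] (.c k63 (.l (.s
  k213 k21 7 (.s k192 k234 6 (.s k193 k194 0 (.s k105 k61 13 (.d k65 k125 k130 5 8)))))) (.c k130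
  (.q k190 [(.s k21 k213 7 (.d k63 k42 k192 6 14)), (.s k63 k192 14 (.s k107 k151 13 (.s k105 k104 0
  (.d k125 k60 k65 8 5))))] (.c k63 (.l (.s k125 k60 8 (.s k105 k65 5 (.s k213 k21 7 (.s k192 k234 6
  (.d k193 k61 k194 13 0)))))) (.c k192 (.l (.s k21 k213 7 (.s k63 k42 6 (.s k107 k151 13 (.s k105
  k104 0 (.d k125 k60 k65 8 5)))))) .n))) (.c k190 (.l (.s k130 k65 8 (.s k21 k213 7 (.d k63 k42
  k192 6 14)))) (.c k192 (.l (.s k21 k213 7 (.s k63 k42 6 (.s k107 k151 13 (.s k105 k104 0 (.d k65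
  k125 k130 5 8)))))) .n))))) .n))) (.c k128 (.l (.s k127 k64 6 (.s k63 k191 7 (.s k149 k192 14 (.d
  k21 k42 k213 6 7))))) (.c k149 (.f k64 k127 6 (.q k69 [(.s k79 k74 2 (.s k101 k117 3 (.s k96 k111
  2 (.d k112 k80 k90 3 6)))), (.s k207 k138 10 (.s k223 k239 3 (.s k154 k16 10 (.d k101 k117 k48 3
  14)))), (.s k74 k79 2 (.s k138 k207 10 (.s k10 k202 7 (.s k15 k5 2 (.d k192 k128 k133 7 10)))))]
  (.c k128 (.q k191 [(.s k79 k74 2 (.s k101 k117 3 (.s k96 k111 2 (.d k112 k80 k90 3 6)))), (.s k207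
  k138 10 (.s k223 k239 3 (.s k154 k16 10 (.d k101 k117 k48 3 14)))), (.s k74 k79 2 (.s k138 k207 10
  (.s k10 k202 7 (.s k15 k5 2 (.s k95 k175 11 (.d k90 k80 k122 2 3))))))] .n) (.c k191 (.l (.s k128
  k192 7 (.s k79 k74 2 (.s k101 k117 3 (.s k96 k111 2 (.d k112 k80 k90 3 6)))))) .n)))) (.c k191 (.l
  (.s k64 k127 6 (.s k192 k128 7 (.s k149 k63 14 (.d k213 k234 k21 6 7))))) (.c k192 (.q k1 [(.s k3
  k2 0 (.s k87 k171 13 (.s k86 k84 0 (.d k169 k253 k252 13 14)))), (.s k127 k64 6 (.s k63 k191 7 (.s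
  k21 k42 6 (.s k61 k41 5 (.s k253 k169 13 (.s k125 k189 7 (.d k60 k190 k62 8 0))))))), (.s k3 k2 0
  (.s k127 k64 6 (.s k63 k191 7 (.s k21 k42 6 (.s k23 k43 5 (.s k22 k20 0 (.d k41 k61 k60 5
  6)))))))] .n) (.c k213 (.q k1 [(.s k3 k2 0 (.s k87 k171 13 (.s k86 k84 0 (.d k169 k253 k252 13
  14)))), (.s k64 k127 6 (.s k169 k253 13 (.s k192 k128 7 (.s k149 k63 14 (.s k129 k189 5 (.s k66 k3
  8 (.d k65 k193 k67 7 0))))))), (.s k3 k2 0 (.s k64 k127 6 (.s k192 k128 7 (.s k66 k129 8 (.s k86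
  k126 5 (.d k87 k84 k171 0 13))))))] (.c k3 (.l (.s k127 k64 6 (.s k63 k191 7 (.s k21 k42 6 (.s k61
  k41 5 (.s k60 k62 0 (.s k125 k190 8 (.d k253 k189 k169 7 13)))))))) .n)) (.c k234 (.l (.s k127 k64
  6 (.s k63 k191 7 (.s k21 k42 6 (.d k149 k213 k192 7 14))))) .n))))))))))))

def t7_249 : T TT 256 :=
  (.f k255 k170 14 (.q k106 [(.s k64 k127 6 (.s k192 k128 7 (.s k149 k63 14 (.d k213 k234 k21 6
  7))))] (.c k21 (.q k1 [(.s k3 k2 0 (.s k87 k171 13 (.s k86 k84 0 (.d k169 k253 k252 13 14)))), (.s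
  k64 k127 6 (.s k169 k253 13 (.s k192 k128 7 (.s k149 k63 14 (.s k129 k189 5 (.s k65 k193 7 (.d k66
  k67 k3 0 8))))))), (.s k3 k2 0 (.s k64 k127 6 (.s k192 k128 7 (.s k66 k129 8 (.s k86 k126 5 (.d
  k87 k84 k171 0 13))))))] (.c k3 (.l (.s k64 k127 6 (.s k192 k128 7 (.s k213 k234 6 (.s k253 k169
  13 (.s k193 k233 5 (.s k65 k129 7 (.d k195 k130 k194 8 0)))))))) .n)) (.c k63 (.q k1 [(.s k3 k2 0
  (.s k87 k171 13 (.s k86 k84 0 (.d k169 k253 k252 13 14)))), (.s k64 k127 6 (.s k192 k128 7 (.s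
  k213 k234 6 (.s k253 k169 13 (.s k193 k233 5 (.s k65 k129 7 (.d k195 k130 k194 8 0))))))), (.s k3
  k2 0 (.s k64 k127 6 (.s k192 k128 7 (.s k66 k129 8 (.s k86 k126 5 (.d k87 k84 k171 0 13))))))] (.c
  k171 (.l (.s k3 k2 0 (.s k64 k127 6 (.s k169 k253 13 (.s k86 k252 14 (.s k192 k128 7 (.d k66 k126
  k129 5 8))))))) .n)) (.c k64 (.q k60 [(.s k20 k40 5 (.s k125 k190 8 (.s k150 k215 8 (.d k105 k65
  k195 5 14)))), (.s k20 k40 5 (.s k150 k215 8 (.s k62 k194 13 (.s k63 k61 0 (.s k21 k42 6 (.d k149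
  k213 k192 7 14)))))), (.s k125 k190 8 (.s k105 k65 5 (.s k104 k107 0 (.s k192 k148 13 (.s k149 k63
  14 (.d k213 k234 k21 6 7))))))] (.c k105 (.q k87 [(.s k3 k171 13 (.s k1 k2 0 (.s k86 k84 0 (.d
  k169 k253 k252 13 14)))), (.s k86 k84 0 (.s k126 k66 5 (.s k190 k125 8 (.s k62 k254 7 (.s k150
  k194 13 (.d k20 k40 k215 5 8)))))), (.s k3 k171 13 (.s k2 k1 0 (.s k22 k41 6 (.s k42 k62 5 (.s k21
  k63 6 (.d k20 k40 k23 5 0))))))] (.c k2 (.l (.s k3 k171 13 (.s k22 k41 6 (.s k86 k84 0 (.s k150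
  k214 7 (.d k20 k40 k215 5 8)))))) (.c k40 (.q k235 [(.s k3 k171 13 (.s k1 k2 0 (.s k86 k84 0 (.d
  k169 k253 k252 13 14)))), (.s k3 k171 13 (.s k22 k41 6 (.s k215 k195 5 (.s k20 k150 8 (.d k23 k21
  k151 0 7))))), (.s k86 k84 0 (.s k126 k66 5 (.s k190 k125 8 (.s k62 k254 7 (.s k150 k194 13 (.d
  k215 k195 k20 5 8))))))] .n) (.c k235 (.l (.s k40 k20 5 (.s k3 k171 13 (.s k1 k2 0 (.s k86 k84 0
  (.d k169 k253 k252 13 14)))))) .n)))) (.c k150 (.q k69 [(.s k101 k117 3 (.s k207 k138 10 (.s k154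
  k48 14 (.d k223 k239 k16 3 10)))), (.s k101 k117 3 (.s k207 k138 10 (.s k109 k158 12 (.s k105 k97
  1 (.d k125 k190 k65 8 5))))), (.s k190 k125 8 (.s k207 k138 10 (.s k158 k109 12 (.s k174 k142 3
  (.s k93 k12 12 (.d k223 k239 k28 3 8))))))] (.c k130 (.l (.s k190 k125 8 (.s k101 k117 3 (.s k207
  k138 10 (.s k154 k48 14 (.d k223 k239 k16 3 10)))))) (.c k138 (.l (.s k117 k101 3 (.s k186 k48 10
  (.s k190 k125 8 (.s k182 k178 1 (.s k243 k121 10 (.d k247 k52 k251 8 1))))))) (.c k154 (.l (.s k20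
  k40 5 (.s k117 k101 3 (.s k48 k186 10 (.s k138 k207 10 (.s k52 k56 1 (.s k4 k36 3 (.d k247 k166
  k182 12 8)))))))) (.c k186 (.l (.s k101 k117 3 (.s k207 k138 10 (.s k154 k48 14 (.d k223 k239 k16
  3 10))))) (.c k190 (.q k130 [(.s k101 k117 3 (.s k207 k138 10 (.s k154 k48 14 (.d k223 k239 k16 3
  10)))), (.s k65 k195 8 (.s k77 k73 1 (.s k125 k105 5 (.s k109 k93 3 (.d k207 k138 k158 10 12))))),
  (.s k65 k195 8 (.s k77 k73 1 (.s k101 k117 3 (.s k89 k113 5 (.s k93 k81 1 (.d k125 k109 k105 3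
  5))))))] .n) (.c k207 (.l (.s k20 k40 5 (.s k117 k101 3 (.s k48 k186 10 (.s k52 k56 1 (.s k4 k36 3
  (.d k247 k166 k182 12 8))))))) .n))))))) .n))) (.c k127 (.q k195 [(.s k65 k130 8 (.s k215 k235 5
  (.s k150 k20 8 (.d k105 k125 k60 5 14)))), (.s k65 k130 8 (.s k105 k125 5 (.s k107 k104 0 (.s k63
  k151 13 (.s k21 k42 6 (.d k149 k213 k192 7 14)))))), (.s k215 k235 5 (.s k150 k20 8 (.s k194 k62
  13 (.s k192 k193 0 (.s k149 k63 14 (.d k213 k234 k21 6 7))))))] (.c k105 (.q k149 [(.s k21 k213 7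
  (.d k63 k42 k192 6 14)), (.s k63 k192 14 (.s k151 k107 13 (.s k150 k148 0 (.d k215 k235 k20 5
  8))))] (.c k40 (.l (.s k235 k215 5 (.s k21 k213 7 (.d k63 k42 k192 6 14)))) (.c k63 (.l (.s k213
  k21 7 (.s k192 k234 6 (.s k194 k193 0 (.s k150 k62 13 (.d k215 k235 k20 5 8)))))) (.c k192 (.l (.s
  k21 k213 7 (.s k63 k42 6 (.s k151 k107 13 (.s k150 k148 0 (.d k215 k235 k20 5 8)))))) (.c k235 (.q
  k40 [(.s k21 k213 7 (.d k63 k42 k192 6 14)), (.s k20 k60 5 (.s k63 k192 14 (.s k150 k215 8 (.d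
  k151 k148 k107 0 13))))] (.c k63 (.l (.s k20 k60 5 (.s k150 k215 8 (.s k213 k21 7 (.s k192 k234 6
  (.d k194 k62 k193 13 0)))))) (.c k192 (.l (.s k20 k60 5 (.s k21 k213 7 (.s k63 k42 6 (.s k150 k215
  8 (.d k151 k148 k107 0 13)))))) .n))) .n))))) (.c k150 (.q k149 [(.s k21 k213 7 (.d k63 k42 k192 6
  14)), (.s k63 k192 14 (.s k107 k151 13 (.s k105 k104 0 (.d k65 k130 k125 8 5))))] (.c k63 (.l (.s
  k213 k21 7 (.s k192 k234 6 (.s k193 k194 0 (.s k105 k61 13 (.d k65 k125 k130 5 8)))))) (.c k130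
  (.q k190 [(.s k21 k213 7 (.d k63 k42 k192 6 14)), (.s k63 k192 14 (.s k107 k151 13 (.s k105 k104 0
  (.d k125 k60 k65 8 5))))] (.c k63 (.l (.s k125 k60 8 (.s k105 k65 5 (.s k213 k21 7 (.s k192 k234 6
  (.d k193 k61 k194 13 0)))))) (.c k192 (.l (.s k21 k213 7 (.s k63 k42 6 (.s k107 k151 13 (.s k105
  k104 0 (.d k125 k60 k65 8 5)))))) .n))) (.c k190 (.l (.s k130 k65 8 (.s k21 k213 7 (.d k63 k42
  k192 6 14)))) (.c k192 (.l (.s k21 k213 7 (.s k63 k42 6 (.s k107 k151 13 (.s k105 k104 0 (.d k65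
  k125 k130 5 8)))))) .n))))) .n))) (.c k128 (.l (.s k127 k64 6 (.s k63 k191 7 (.s k149 k192 14 (.d
  k21 k42 k213 6 7))))) (.c k149 (.f k64 k127 6 (.q k69 [(.s k79 k74 2 (.s k101 k117 3 (.s k96 k111
  2 (.d k112 k80 k90 3 6)))), (.s k207 k138 10 (.s k223 k239 3 (.s k154 k16 10 (.d k101 k117 k48 3
  14)))), (.s k74 k79 2 (.s k138 k207 10 (.s k10 k202 7 (.s k15 k5 2 (.d k192 k128 k133 7 10)))))]
  (.c k128 (.q k191 [(.s k79 k74 2 (.s k101 k117 3 (.s k96 k111 2 (.d k112 k80 k90 3 6)))), (.s k207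
  k138 10 (.s k223 k239 3 (.s k154 k16 10 (.d k101 k117 k48 3 14)))), (.s k74 k79 2 (.s k138 k207 10
  (.s k10 k202 7 (.s k15 k5 2 (.s k95 k175 11 (.d k90 k80 k122 2 3))))))] .n) (.c k191 (.l (.s k128
  k192 7 (.s k79 k74 2 (.s k101 k117 3 (.s k96 k111 2 (.d k112 k80 k90 3 6)))))) .n)))) (.c k191 (.l
  (.s k64 k127 6 (.s k192 k128 7 (.s k149 k63 14 (.d k213 k234 k21 6 7))))) (.c k192 (.q k1 [(.s k3
  k2 0 (.s k87 k171 13 (.s k86 k84 0 (.d k169 k253 k252 13 14)))), (.s k127 k64 6 (.s k63 k191 7 (.s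
  k21 k42 6 (.s k61 k41 5 (.s k253 k169 13 (.s k125 k189 7 (.d k60 k190 k62 8 0))))))), (.s k3 k2 0
  (.s k127 k64 6 (.s k63 k191 7 (.s k21 k42 6 (.s k23 k43 5 (.s k22 k20 0 (.d k41 k61 k60 5
  6)))))))] .n) (.c k213 (.q k1 [(.s k3 k2 0 (.s k87 k171 13 (.s k86 k84 0 (.d k169 k253 k252 13
  14)))), (.s k64 k127 6 (.s k169 k253 13 (.s k192 k128 7 (.s k149 k63 14 (.s k129 k189 5 (.s k66 k3
  8 (.d k65 k193 k67 7 0))))))), (.s k3 k2 0 (.s k64 k127 6 (.s k192 k128 7 (.s k66 k129 8 (.s k86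
  k126 5 (.d k87 k84 k171 0 13))))))] (.c k3 (.l (.s k127 k64 6 (.s k63 k191 7 (.s k21 k42 6 (.s k61
  k41 5 (.s k60 k62 0 (.s k125 k190 8 (.d k253 k189 k169 7 13)))))))) .n)) (.c k234 (.l (.s k127 k64
  6 (.s k63 k191 7 (.s k21 k42 6 (.d k149 k213 k192 7 14))))) .n))))))))))))

def t7_250 : T TT 256 :=
  (.q k86 [(.s k87 k84 0 (.s k255 k170 14 (.s k3 k171 13 (.s k1 k2 0 (.d k169 k253 k252 13 14))))),
  (.s k84 k87 0 (.s k252 k168 13 (.s k169 k3 14 (.s k253 k1 13 (.d k255 k254 k170 0 14)))))] (.c k1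
  (.q k4 [(.s k12 k8 1 (.s k166 k247 12 (.s k89 k243 14 (.s k93 k81 1 (.d k255 k174 k170 12 14))))),
  (.s k12 k8 1 (.s k84 k87 0 (.s k164 k244 11 (.s k168 k252 13 (.s k160 k172 1 (.d k240 k80 k88 11
  13)))))), (.s k84 k87 0 (.s k244 k164 11 (.s k247 k166 12 (.s k246 k245 0 (.s k252 k168 13 (.s
  k243 k249 2 (.d k255 k251 k170 1 14))))))), (.s k12 k8 1 (.s k255 k170 14 (.s k93 k174 12 (.s k89
  k81 1 (.d k166 k247 k243 12 14)))))] (.c k247 (.l (.s k12 k8 1 (.s k255 k170 14 (.s k93 k174 12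
  (.s k89 k81 1 (.s k92 k83 2 (.s k252 k172 11 (.d k84 k87 k168 0 13)))))))) .n)) (.c k3 (.f k255
  k170 14 (.q k90 [(.s k95 k80 2 (.s k15 k175 11 (.s k5 k10 2 (.d k165 k245 k240 11 14)))), (.s k80
  k95 2 (.s k82 k94 1 (.s k83 k81 0 (.s k84 k87 0 (.d k92 k88 k89 1 2))))), (.s k84 k87 0 (.s k94
  k82 1 (.s k252 k168 13 (.s k15 k173 12 (.s k5 k10 2 (.d k165 k240 k245 14 11))))))] (.c k11 (.q
  k15 [(.d k95 k80 k175 2 11), (.s k5 k10 2 (.d k165 k245 k240 11 14))] .n) (.c k15 (.q k11 [(.s k84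
  k87 0 (.s k169 k248 12 (.s k253 k1 13 (.d k252 k254 k168 0 13)))), (.s k80 k95 2 (.s k82 k94 1 (.s
  k83 k81 0 (.s k84 k87 0 (.d k92 k88 k89 1 2))))), (.s k94 k82 1 (.s k95 k80 2 (.s k93 k92 0 (.s
  k169 k248 12 (.s k174 k12 12 (.s k253 k1 13 (.d k254 k252 k14 0 11)))))))] (.c k84 (.l (.s k80 k95
  2 (.s k82 k94 1 (.s k81 k83 0 (.s k243 k162 12 (.s k247 k251 1 (.s k166 k4 12 (.d k89 k93 k12 1
  14)))))))) (.c k252 (.l (.s k80 k95 2 (.s k84 k87 0 (.s k92 k88 1 (.s k83 k89 2 (.d k82 k81 k94 0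
  1)))))) .n))) .n)))) (.c k84 (.q k12 [(.s k4 k8 1 (.s k166 k247 12 (.s k89 k243 14 (.s k93 k81 1
  (.d k255 k174 k170 12 14))))), (.s k4 k8 1 (.s k166 k247 12 (.s k6 k246 11 (.s k3 k9 2 (.s k1 k2 0
  (.d k169 k253 k252 13 14)))))), (.s k255 k170 14 (.s k93 k174 12 (.s k89 k81 1 (.s k92 k83 2 (.s
  k252 k172 11 (.s k169 k3 14 (.d k253 k254 k1 0 13)))))))] (.c k166 (.l (.s k8 k4 1 (.s k170 k255
  14 (.s k2 k254 13 (.s k3 k1 0 (.s k89 k251 12 (.s k92 k83 2 (.d k252 k172 k169 11 14)))))))) .n))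
  (.c k87 (.q k22 [(.s k150 k214 7 (.s k20 k215 8 (.s k60 k40 5 (.s k3 k41 6 (.s k1 k2 0 (.d k169
  k253 k252 13 14)))))), (.s k150 k214 7 (.s k170 k255 14 (.s k2 k254 13 (.s k62 k42 5 (.s k130 k190
  5 (.d k194 k66 k106 7 13)))))), (.s k150 k214 7 (.s k20 k215 8 (.s k60 k40 5 (.s k105 k195 14 (.s
  k125 k65 5 (.d k255 k190 k170 8 14)))))), (.s k170 k255 14 (.s k2 k254 13 (.s k42 k62 5 (.s k21
  k63 6 (.s k23 k20 0 (.d k149 k213 k212 7 8))))))] (.c k60 (.l (.s k150 k214 7 (.s k20 k215 8 (.s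
  k170 k255 14 (.s k2 k254 13 (.s k42 k62 5 (.d k21 k23 k63 0 6))))))) (.c k167 (.q k247 [(.s k255
  k170 14 (.s k243 k251 1 (.s k81 k162 12 (.s k89 k93 1 (.d k166 k4 k12 12 14))))), (.s k150 k214 7
  (.s k20 k215 8 (.s k60 k40 5 (.s k3 k41 6 (.s k1 k2 0 (.d k169 k253 k252 13 14))))))] .n) (.c k247
  (.q k167 [(.s k150 k214 7 (.s k20 k215 8 (.s k60 k40 5 (.s k3 k41 6 (.s k1 k2 0 (.d k169 k253 k252
  13 14)))))), (.s k150 k214 7 (.s k170 k255 14 (.s k2 k254 13 (.s k62 k42 5 (.s k130 k190 5 (.d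
  k194 k66 k106 7 13)))))), (.s k150 k214 7 (.s k20 k215 8 (.s k60 k40 5 (.s k105 k195 14 (.s k125
  k65 5 (.d k255 k190 k170 8 14)))))), (.s k170 k255 14 (.s k2 k254 13 (.s k42 k62 5 (.s k21 k63 6
  (.s k23 k20 0 (.d k149 k213 k212 7 8))))))] (.c k60 (.l (.s k150 k214 7 (.s k20 k215 8 (.s k170
  k255 14 (.s k2 k254 13 (.s k42 k62 5 (.d k21 k23 k63 0 6))))))) (.c k252 (.l (.s k150 k214 7 (.s
  k20 k215 8 (.s k60 k40 5 (.s k3 k41 6 (.s k2 k1 0 (.d k170 k254 k255 13 14))))))) .n))) (.c k252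
  (.l (.s k150 k214 7 (.s k20 k215 8 (.s k60 k40 5 (.s k3 k41 6 (.s k2 k1 0 (.d k170 k254 k255 13
  14))))))) .n))))) (.c k168 (.l (.s k87 k84 0 (.s k255 k170 14 (.s k3 k171 13 (.s k169 k252 14 (.d
  k1 k2 k253 0 13)))))) (.c k169 (.q k4 [(.s k12 k8 1 (.s k166 k247 12 (.s k89 k243 14 (.s k93 k81 1
  (.d k255 k174 k170 12 14))))), (.s k12 k8 1 (.s k84 k87 0 (.s k164 k244 11 (.s k88 k240 13 (.s k92
  k80 1 (.d k252 k172 k168 11 13)))))), (.s k84 k87 0 (.s k244 k164 11 (.s k247 k166 12 (.s k246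
  k245 0 (.s k252 k168 13 (.s k243 k249 2 (.d k255 k251 k170 1 14))))))), (.s k12 k8 1 (.s k255 k170
  14 (.s k93 k174 12 (.s k89 k81 1 (.d k166 k247 k243 12 14)))))] (.c k247 (.l (.s k12 k8 1 (.s k255
  k170 14 (.s k93 k174 12 (.s k89 k81 1 (.s k92 k83 2 (.s k252 k172 11 (.d k84 k168 k87 13 0))))))))
  (.c k255 (.l (.s k12 k8 1 (.s k84 k87 0 (.s k164 k244 11 (.s k168 k252 13 (.s k160 k172 1 (.d k240
  k80 k88 11 13))))))) .n))) (.c k170 (.q k90 [(.s k87 k84 0 (.s k94 k82 1 (.s k95 k80 2 (.s k83 k91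
  1 (.d k92 k93 k89 0 2))))), (.s k84 k87 0 (.s k94 k82 1 (.s k252 k168 13 (.s k15 k173 12 (.s k5
  k10 2 (.d k165 k245 k240 11 14)))))), (.s k80 k95 2 (.s k84 k87 0 (.s k240 k160 11 (.s k252 k168
  13 (.s k169 k3 14 (.d k248 k11 k244 12 1)))))), (.s k80 k95 2 (.s k82 k94 1 (.s k240 k160 11 (.s
  k3 k161 12 (.s k1 k2 0 (.d k169 k253 k252 13 14))))))] .n) (.c k171 (.l (.s k84 k87 0 (.s k252
  k168 13 (.s k3 k169 14 (.s k170 k255 14 (.d k2 k1 k254 0 13)))))) (.c k252 (.q k17 [(.s k51 k34 4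
  (.s k153 k221 9 (.s k102 k204 14 (.s k119 k68 4 (.d k255 k187 k170 9 14))))), (.s k87 k84 0 (.s
  k153 k221 9 (.s k19 k220 10 (.s k16 k18 0 (.d k223 k155 k154 9 10))))), (.s k51 k34 4 (.s k87 k84
  0 (.s k255 k170 14 (.s k3 k171 13 (.s k19 k35 3 (.s k16 k18 0 (.d k223 k155 k154 9 10)))))))] .n)
  (.c k253 (.l (.s k84 k87 0 (.s k170 k255 14 (.s k2 k254 13 (.s k252 k168 13 (.d k3 k1 k169 0
  14)))))) (.c k255 (.q k101 [(.s k71 k116 4 (.s k87 k84 0 (.s k119 k103 3 (.s k68 k102 4 (.d k69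
  k70 k117 0 3))))), (.s k69 k117 3 (.s k84 k87 0 (.s k207 k138 10 (.s k252 k168 13 (.s k222 k237 4
  (.d k154 k48 k18 14 9)))))), (.s k84 k87 0 (.s k116 k71 4 (.s k252 k168 13 (.s k48 k184 9 (.s k16
  k32 3 (.d k154 k223 k207 10 14)))))), (.s k69 k117 3 (.s k71 k116 4 (.s k207 k138 10 (.s k3 k139 9
  (.s k1 k2 0 (.d k169 k253 k252 13 14))))))] (.c k240 (.q k245 [(.s k69 k117 3 (.s k71 k116 4 (.s
  k68 k70 0 (.s k87 k84 0 (.d k119 k103 k102 3 4))))), (.s k5 k165 11 (.s k117 k69 3 (.s k53 k181 7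
  (.s k21 k37 3 (.d k149 k213 k197 7 11))))), (.s k84 k87 0 (.s k116 k71 4 (.s k252 k168 13 (.s k48
  k184 9 (.s k16 k32 3 (.d k154 k223 k207 10 14))))))] .n) (.c k245 (.q k240 [(.s k71 k116 4 (.s k87
  k84 0 (.s k119 k103 3 (.s k68 k102 4 (.d k69 k70 k117 0 3))))), (.s k80 k160 11 (.s k84 k87 0 (.s
  k88 k92 1 (.s k12 k164 13 (.s k8 k4 1 (.d k168 k248 k252 11 13)))))), (.s k69 k117 3 (.s k80 k160
  11 (.s k90 k95 2 (.s k15 k165 14 (.s k79 k112 6 (.d k207 k143 k138 7 10))))))] .n) .n)))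
  .n))))))))))))

def t7_251 : T TT 256 :=
  (.q k86 [(.s k84 k87 0 (.s k252 k168 13 (.s k3 k169 14 (.s k2 k1 0 (.d k170 k254 k255 13 14))))),
  (.s k87 k84 0 (.s k255 k170 14 (.s k3 k171 13 (.s k1 k2 0 (.d k169 k253 k252 13 14)))))] (.c k1
  (.q k12 [(.s k4 k8 1 (.s k166 k247 12 (.s k89 k243 14 (.s k255 k170 14 (.d k93 k81 k174 1 12))))),
  (.s k8 k4 1 (.s k84 k87 0 (.s k168 k252 13 (.s k88 k248 11 (.s k80 k92 1 (.d k240 k160 k164 11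
  13)))))), (.s k255 k170 14 (.s k93 k174 12 (.s k89 k81 1 (.s k92 k83 2 (.s k252 k172 11 (.d k84
  k87 k168 0 13))))))] (.c k8 (.l (.s k84 k87 0 (.s k252 k168 13 (.s k92 k172 11 (.s k89 k83 2 (.s
  k81 k93 1 (.d k243 k162 k166 12 14))))))) (.c k87 (.l (.s k255 k170 14 (.s k93 k174 12 (.s k4 k8 1
  (.s k89 k81 1 (.d k166 k247 k243 12 14)))))) .n))) (.c k2 (.l (.s k84 k87 0 (.s k252 k168 13 (.s
  k169 k3 14 (.s k253 k1 13 (.d k255 k254 k170 0 14)))))) (.c k3 (.f k255 k170 14 (.q k15 [(.s k5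
  k10 2 (.s k95 k175 11 (.s k90 k80 2 (.d k165 k245 k240 11 14)))), (.s k84 k87 0 (.s k95 k175 11
  (.s k252 k168 13 (.s k94 k173 12 (.s k93 k92 0 (.s k174 k12 12 (.d k254 k253 k14 0 11))))))), (.s
  k5 k10 2 (.s k84 k87 0 (.s k165 k245 11 (.s k90 k240 14 (.s k252 k168 13 (.d k94 k82 k173 1
  12))))))] (.c k8 (.q k89 [(.s k83 k92 2 (.s k87 k84 0 (.d k95 k91 k175 1 11))), (.s k5 k10 2 (.s
  k93 k81 1 (.s k12 k174 12 (.s k13 k14 0 (.d k165 k245 k241 11 13)))))] .n) (.c k89 (.q k8 [(.s k5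
  k10 2 (.s k95 k175 11 (.s k90 k80 2 (.d k165 k245 k240 11 14)))), (.s k12 k4 1 (.s k13 k14 0 (.s
  k84 k87 0 (.s k93 k174 12 (.s k173 k253 11 (.d k252 k94 k168 12 13))))))] (.c k5 (.l (.s k84 k87 0
  (.s k95 k175 11 (.s k80 k90 2 (.s k88 k92 1 (.d k168 k248 k252 11 13)))))) .n)) (.c k165 (.l (.s
  k84 k87 0 (.s k252 k168 13 (.s k94 k173 12 (.s k90 k82 1 (.d k95 k80 k175 2 11)))))) .n))))) (.c
  k84 (.q k16 [(.s k48 k32 3 (.s k154 k223 10 (.s k101 k207 14 (.s k117 k69 3 (.d k255 k186 k170 10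
  14))))), (.s k48 k32 3 (.s k154 k223 10 (.s k18 k222 9 (.s k3 k33 4 (.s k1 k2 0 (.d k169 k253 k252
  13 14)))))), (.s k154 k223 10 (.s k18 k222 9 (.s k17 k19 0 (.s k34 k51 4 (.s k170 k255 14 (.d k2
  k50 k254 3 13)))))), (.s k48 k32 3 (.s k170 k255 14 (.s k2 k254 13 (.s k3 k1 0 (.s k18 k33 4 (.s
  k17 k19 0 (.d k34 k50 k51 3 4)))))))] .n) (.c k87 (.q k90 [(.s k95 k80 2 (.s k255 k170 14 (.s k15
  k175 11 (.s k5 k10 2 (.d k165 k245 k240 11 14))))), (.s k80 k95 2 (.s k82 k94 1 (.s k240 k160 11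
  (.s k3 k161 12 (.s k1 k2 0 (.d k169 k253 k252 13 14)))))), (.s k82 k94 1 (.s k170 k255 14 (.s k2
  k254 13 (.s k10 k250 11 (.s k14 k6 1 (.d k242 k162 k166 11 13))))))] (.c k167 (.q k247 [(.s k80
  k95 2 (.s k240 k160 11 (.s k15 k165 14 (.s k10 k5 2 (.d k170 k250 k255 11 14))))), (.s k82 k94 1
  (.s k170 k255 14 (.s k2 k254 13 (.s k162 k242 11 (.d k166 k174 k4 1 12))))), (.s k80 k95 2 (.s k82
  k94 1 (.s k166 k4 12 (.s k242 k14 13 (.s k162 k2 11 (.d k81 k83 k243 0 12)))))), (.s k80 k95 2 (.s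
  k170 k255 14 (.s k10 k250 11 (.s k240 k160 11 (.d k15 k5 k165 2 14)))))] .n) (.c k240 (.l (.s k80
  k95 2 (.s k82 k94 1 (.s k170 k255 14 (.s k2 k254 13 (.s k162 k242 11 (.d k81 k83 k243 0 12)))))))
  (.c k247 (.q k167 [(.s k95 k80 2 (.s k255 k170 14 (.s k15 k175 11 (.s k5 k10 2 (.d k165 k245 k240
  11 14))))), (.s k80 k95 2 (.s k82 k94 1 (.s k240 k160 11 (.s k3 k161 12 (.s k1 k2 0 (.d k169 k253
  k252 13 14))))))] (.c k80 (.q k15 [(.s k5 k10 2 (.d k165 k245 k240 11 14)), (.s k82 k94 1 (.s k170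
  k255 14 (.s k243 k91 13 (.s k2 k254 13 (.d k162 k242 k81 11 12)))))] (.c k243 (.l (.s k255 k170 14
  (.s k5 k10 2 (.d k165 k245 k240 11 14)))) (.c k255 (.l (.s k243 k91 13 (.s k5 k10 2 (.d k165 k245
  k240 11 14)))) .n))) (.c k95 (.f k255 k170 14 (.q k89 [(.s k81 k93 1 (.s k91 k88 0 (.d k243 k162
  k15 12 13))), (.s k91 k88 0 (.s k15 k243 13 (.s k5 k10 2 (.d k165 k245 k240 11 14)))), (.s k83 k92
  2 (.s k81 k93 1 (.s k94 k82 1 (.s k243 k162 12 (.s k3 k163 11 (.s k169 k252 14 (.d k1 k2 k253 0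
  13)))))))] (.c k83 (.l (.s k91 k88 0 (.s k81 k93 1 (.d k243 k162 k15 12 13)))) (.c k91 (.l (.s k83
  k92 2 (.s k81 k93 1 (.s k94 k82 1 (.s k243 k162 12 (.s k3 k163 11 (.s k169 k252 14 (.d k1 k2 k253
  0 13)))))))) (.c k243 (.l (.s k83 k92 2 (.s k88 k91 0 (.s k93 k81 1 (.s k12 k174 12 (.s k240 k164
  13 (.s k165 k15 14 (.d k245 k250 k5 2 11)))))))) .n))))) (.c k160 (.l (.s k95 k80 2 (.s k255 k170
  14 (.s k15 k175 11 (.s k165 k240 14 (.d k5 k10 k245 2 11)))))) (.c k240 (.l (.s k94 k82 1 (.s k95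
  k80 2 (.s k92 k93 0 (.s k255 k170 14 (.s k15 k175 11 (.s k91 k243 13 (.d k89 k83 k88 2 0))))))))
  (.c k243 (.l (.s k255 k170 14 (.s k80 k95 2 (.s k240 k160 11 (.s k165 k15 14 (.d k245 k250 k5 2
  11)))))) (.c k255 (.q k243 [(.s k81 k162 12 (.s k82 k94 1 (.d k80 k83 k95 0 2))), (.s k15 k91 13
  (.s k5 k10 2 (.d k165 k245 k240 11 14))), (.s k81 k162 12 (.s k89 k93 1 (.d k91 k88 k15 0 13)))]
  (.c k3 (.q k171 [(.s k15 k91 13 (.s k240 k165 14 (.d k80 k95 k160 2 11))), (.s k81 k162 12 (.s k89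
  k93 1 (.d k91 k15 k88 13 0)))] (.c k11 (.l (.s k15 k91 13 (.s k5 k10 2 (.d k165 k245 k240 11
  14)))) (.c k15 (.q k11 [(.s k81 k162 12 (.s k82 k94 1 (.d k80 k95 k83 2 0))), (.s k80 k95 2 (.s
  k175 k163 1 (.s k169 k248 12 (.s k170 k168 0 (.d k160 k165 k240 2 11))))), (.s k82 k94 1 (.s k162
  k81 12 (.s k2 k242 11 (.s k169 k248 12 (.d k170 k168 k254 0 13)))))] (.c k95 (.l (.s k175 k163 1
  (.s k81 k162 12 (.s k82 k94 1 (.s k83 k80 0 (.d k89 k93 k92 1 2)))))) (.c k175 (.l (.s k95 k80 2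
  (.s k81 k162 12 (.s k93 k89 1 (.d k94 k92 k82 0 1))))) .n))) (.c k91 (.l (.s k81 k162 12 (.s k82
  k94 1 (.d k80 k83 k95 0 2)))) .n)))) (.c k171 (.q k3 [(.s k1 k2 0 (.d k169 k253 k252 13 14)), (.s
  k80 k95 2 (.s k81 k162 12 (.d k82 k83 k94 0 1)))] (.c k11 (.l (.s k91 k15 13 (.s k1 k2 0 (.d k169
  k253 k252 13 14)))) (.c k91 (.q k11 [(.d k169 k248 k252 12 14), (.s k2 k1 0 (.s k82 k94 1 (.d k162
  k242 k81 11 12)))] (.c k83 (.l (.s k95 k80 2 (.d k169 k248 k252 12 14))) (.c k95 (.l (.s k83 k163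
  11 (.d k169 k248 k252 12 14))) .n))) .n))) .n))) .n))))))) .n)))) (.c k168 (.l (.s k87 k84 0 (.s
  k255 k170 14 (.s k3 k171 13 (.s k169 k252 14 (.d k1 k2 k253 0 13)))))) (.c k169 (.q k12 [(.s k255
  k170 14 (.s k93 k174 12 (.s k4 k8 1 (.s k89 k81 1 (.d k166 k247 k243 12 14))))), (.s k8 k4 1 (.s
  k84 k87 0 (.s k168 k252 13 (.s k88 k248 11 (.s k80 k92 1 (.d k240 k160 k164 11 13)))))), (.s k84
  k87 0 (.s k252 k168 13 (.s k92 k172 11 (.s k89 k83 2 (.s k81 k93 1 (.d k243 k166 k162 14 12))))))]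
  (.c k168 (.l (.s k4 k8 1 (.s k166 k247 12 (.s k170 k255 14 (.s k243 k89 14 (.d k162 k174 k81 1
  12)))))) (.c k247 (.l (.s k255 k170 14 (.s k93 k174 12 (.s k89 k81 1 (.s k92 k83 2 (.s k252 k172
  11 (.d k84 k168 k87 13 0))))))) .n))) (.c k170 (.q k89 [(.s k81 k93 1 (.s k83 k92 2 (.s k80 k82 0
  (.s k87 k84 0 (.d k95 k91 k90 1 2))))), (.s k81 k93 1 (.s k84 k87 0 (.s k243 k162 12 (.s k166 k12
  14 (.s k246 k6 11 (.d k252 k249 k168 2 13)))))), (.s k84 k87 0 (.s k92 k83 2 (.s k252 k168 13 (.s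
  k12 k172 11 (.s k4 k8 1 (.d k166 k247 k243 12 14)))))), (.s k81 k93 1 (.s k83 k92 2 (.s k243 k162
  12 (.s k3 k163 11 (.s k1 k2 0 (.d k169 k253 k252 13 14))))))] .n) (.c k171 (.l (.s k84 k87 0 (.s
  k252 k168 13 (.s k3 k169 14 (.s k170 k255 14 (.d k2 k1 k254 0 13)))))) (.c k252 (.q k17 [(.s k51
  k34 4 (.s k153 k221 9 (.s k102 k204 14 (.s k119 k68 4 (.d k255 k187 k170 9 14))))), (.s k87 k84 0
  (.s k153 k221 9 (.s k19 k220 10 (.s k16 k18 0 (.d k223 k155 k154 9 10))))), (.s k51 k34 4 (.s k87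
  k84 0 (.s k255 k170 14 (.s k3 k171 13 (.s k19 k35 3 (.s k16 k18 0 (.d k223 k155 k154 9 10)))))))]
  .n) (.c k255 (.q k243 [(.s k81 k162 12 (.s k87 k84 0 (.s k89 k93 1 (.s k83 k92 2 (.s k80 k82 0 (.d
  k95 k91 k90 1 2)))))), (.s k84 k87 0 (.s k252 k168 13 (.s k246 k249 2 (.s k166 k6 11 (.s k12 k89
  14 (.d k4 k8 k247 1 12)))))), (.s k81 k162 12 (.s k89 k93 1 (.s k83 k92 2 (.s k3 k163 11 (.s k1 k2
  0 (.d k169 k253 k252 13 14))))))] (.c k12 (.l (.s k81 k162 12 (.s k84 k87 0 (.s k252 k168 13 (.s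
  k3 k169 14 (.s k83 k163 11 (.d k89 k93 k92 1 2))))))) (.c k89 (.f k81 k162 12 (.l (.s k84 k87 0
  (.s k252 k168 13 (.s k3 k169 14 (.s k1 k2 0 (.s k83 k163 11 (.s k82 k80 0 (.d k161 k241 k240 11
  12))))))))) .n))) .n))))))))))))

def t7_252 : T TT 256 :=
  (.f k255 k170 14 (.q k102 [(.s k68 k119 4 (.s k204 k136 9 (.s k221 k238 4 (.d k153 k17 k51 9
  14))))] (.c k17 (.q k4 [(.s k12 k8 1 (.s k93 k174 12 (.s k89 k81 1 (.d k166 k247 k243 12 14)))),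
  (.s k68 k119 4 (.s k166 k247 12 (.s k38 k230 7 (.s k55 k21 4 (.d k196 k132 k149 7 12))))), (.s k12
  k8 1 (.s k68 k119 4 (.s k132 k196 7 (.s k72 k192 9 (.s k76 k64 1 (.d k204 k140 k136 7 9))))))] .n)
  (.c k51 (.f k68 k119 4 (.q k69 [(.s k207 k138 10 (.s k223 k239 3 (.s k154 k16 10 (.d k101 k117 k48
  3 14)))), (.s k70 k71 0 (.s k138 k207 10 (.s k2 k206 9 (.s k3 k1 0 (.d k204 k136 k137 9 10))))),
  (.s k71 k70 0 (.s k101 k117 3 (.s k116 k86 4 (.d k100 k103 k84 0 3))))] (.c k118 (.q k185 [(.s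
  k207 k138 10 (.s k223 k239 3 (.s k154 k16 10 (.d k101 k117 k48 3 14)))), (.s k71 k70 0 (.s k101
  k117 3 (.s k116 k86 4 (.d k100 k103 k84 0 3))))] (.c k101 (.l (.s k70 k71 0 (.s k138 k207 10 (.s
  k2 k206 9 (.s k3 k1 0 (.d k204 k136 k137 9 10)))))) (.c k116 (.l (.s k117 k101 3 (.s k71 k70 0 (.s
  k207 k138 10 (.s k3 k139 9 (.s k253 k49 9 (.d k1 k2 k169 0 13))))))) (.c k117 (.q k116 [(.s k71
  k70 0 (.s k84 k100 3 (.d k86 k87 k101 0 4))), (.s k100 k84 3 (.s k204 k136 9 (.s k48 k152 13 (.s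
  k207 k138 10 (.d k101 k154 k103 14 0))))), (.s k70 k71 0 (.s k138 k207 10 (.s k2 k206 9 (.s k3 k1
  0 (.d k204 k136 k137 9 10)))))] .n) .n)))) (.c k185 (.q k118 [(.d k70 k71 k86 0 3), (.s k101 k117
  3 (.s k207 k138 10 (.s k154 k48 14 (.d k223 k239 k16 3 10))))] .n) .n)))) (.c k68 (.q k4 [(.s k12
  k8 1 (.s k93 k174 12 (.s k89 k81 1 (.d k166 k247 k243 12 14)))), (.s k166 k247 12 (.s k38 k230 7
  (.s k21 k55 4 (.s k63 k42 6 (.s k127 k191 7 (.s k106 k64 6 (.d k149 k213 k192 7 14)))))))] (.c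
  k166 (.f k12 k8 1 (.q k89 [(.d k93 k174 k81 12 1), (.s k76 k115 6 (.s k204 k140 7 (.s k153 k51 14
  (.d k221 k238 k17 4 9))))] (.c k162 (.l (.s k174 k93 12 (.s k76 k115 6 (.s k204 k140 7 (.s k153
  k51 14 (.d k221 k238 k17 4 9)))))) (.c k174 (.q k162 [(.d k81 k93 k243 1 12), (.s k76 k115 6 (.s
  k204 k140 7 (.s k221 k238 4 (.d k153 k17 k51 9 14))))] .n) .n)))) (.c k247 (.l (.s k12 k8 1 (.s
  k93 k174 12 (.s k89 k81 1 (.s k76 k115 6 (.s k204 k140 7 (.s k153 k51 14 (.d k221 k238 k17 4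
  9)))))))) .n))) (.c k119 (.q k247 [(.s k243 k251 1 (.s k81 k162 12 (.s k89 k93 1 (.d k166 k4 k12
  12 14)))), (.s k166 k4 12 (.s k230 k38 7 (.s k213 k196 4 (.s k192 k234 6 (.s k64 k128 7 (.s k106
  k127 6 (.d k149 k21 k63 7 14)))))))] (.c k4 (.l (.s k243 k251 1 (.s k81 k162 12 (.s k89 k93 1 (.s
  k115 k76 6 (.s k51 k179 7 (.s k17 k34 4 (.d k153 k221 k204 9 14)))))))) (.c k166 (.f k243 k251 1
  (.q k89 [(.d k81 k162 k93 12 1), (.s k115 k76 6 (.s k51 k179 7 (.s k17 k34 4 (.d k153 k221 k204 9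
  14))))] (.c k162 (.q k174 [(.d k93 k81 k12 1 12), (.s k115 k76 6 (.s k51 k179 7 (.s k17 k34 4 (.d
  k153 k221 k204 9 14))))] .n) (.c k174 (.l (.s k162 k81 12 (.s k115 k76 6 (.s k51 k179 7 (.s k17
  k34 4 (.d k153 k221 k204 9 14)))))) .n)))) .n))) (.c k136 (.l (.s k119 k68 4 (.s k51 k187 9 (.s
  k153 k204 14 (.d k17 k34 k221 4 9))))) (.c k153 (.f k119 k68 4 (.q k127 [(.s k106 k64 6 (.s k110
  k98 1 (.s k76 k93 4 (.d k115 k123 k89 1 6)))), (.s k63 k191 7 (.s k21 k42 6 (.s k149 k213 7 (.s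
  k55 k196 12 (.d k51 k187 k59 9 1)))))] (.c k106 (.l (.s k63 k191 7 (.s k123 k115 1 (.s k183 k243 9
  (.s k55 k247 7 (.d k51 k59 k187 1 9)))))) (.c k136 (.l (.s k187 k51 9 (.s k63 k191 7 (.s k21 k42 6
  (.s k106 k64 6 (.d k149 k213 k192 7 14)))))) (.c k187 (.q k136 [(.s k106 k64 6 (.s k110 k98 1 (.s
  k76 k93 4 (.d k115 k123 k89 1 6)))), (.s k63 k191 7 (.s k21 k42 6 (.s k149 k213 7 (.d k106 k64
  k192 6 14)))), (.s k63 k191 7 (.s k123 k115 1 (.s k183 k243 9 (.s k55 k247 7 (.s k149 k196 12 (.d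
  k21 k213 k42 7 6))))))] .n) .n))))) (.c k187 (.l (.s k68 k119 4 (.s k204 k136 9 (.s k153 k51 14
  (.d k221 k238 k17 4 9))))) (.c k204 (.f k68 k119 4 (.q k4 [(.s k12 k8 1 (.s k93 k174 12 (.s k89
  k81 1 (.d k166 k247 k243 12 14)))), (.s k196 k132 7 (.s k149 k55 12 (.s k21 k213 7 (.s k63 k42 6
  (.s k106 k192 14 (.d k127 k64 k191 6 7))))))] (.c k12 (.l (.s k166 k247 12 (.s k38 k230 7 (.s k55
  k21 4 (.d k196 k132 k149 7 12))))) (.c k220 (.q k236 [(.s k12 k8 1 (.s k93 k174 12 (.s k89 k81 1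
  (.d k166 k247 k243 12 14)))), (.s k196 k132 7 (.s k149 k55 12 (.s k21 k213 7 (.s k63 k42 6 (.s
  k106 k192 14 (.d k127 k64 k191 6 7))))))] (.c k12 (.l (.s k166 k247 12 (.s k38 k230 7 (.s k55 k21
  4 (.d k196 k132 k149 7 12))))) (.c k247 (.l (.s k12 k8 1 (.s k93 k174 12 (.s k89 k81 1 (.s k76
  k115 6 (.s k64 k72 1 (.d k127 k110 k106 4 6))))))) .n))) (.c k236 (.q k220 [(.s k12 k8 1 (.s k93
  k174 12 (.s k89 k81 1 (.d k166 k247 k243 12 14)))), (.s k196 k132 7 (.s k149 k55 12 (.s k21 k213 7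
  (.s k63 k42 6 (.s k106 k192 14 (.d k127 k64 k191 6 7))))))] (.c k12 (.l (.s k166 k247 12 (.s k38
  k230 7 (.s k55 k21 4 (.d k196 k132 k149 7 12))))) (.c k247 (.l (.s k12 k8 1 (.s k93 k174 12 (.s
  k89 k81 1 (.s k76 k115 6 (.s k64 k72 1 (.d k127 k110 k106 4 6))))))) .n))) (.c k247 (.l (.s k12 k8
  1 (.s k93 k174 12 (.s k89 k81 1 (.s k76 k115 6 (.s k64 k72 1 (.d k127 k110 k106 4 6)))))))
  .n)))))) (.c k221 (.q k4 [(.s k12 k8 1 (.s k93 k174 12 (.s k89 k81 1 (.d k166 k247 k243 12 14)))),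
  (.s k68 k119 4 (.s k166 k247 12 (.s k38 k230 7 (.s k55 k21 4 (.d k196 k132 k149 7 12))))), (.s k12
  k8 1 (.s k68 k119 4 (.s k132 k196 7 (.s k72 k192 9 (.s k76 k64 1 (.d k204 k140 k136 7 9))))))] .n)
  (.c k238 (.l (.s k119 k68 4 (.s k51 k187 9 (.s k17 k34 4 (.d k153 k221 k204 9 14)))))
  .n))))))))))))

def t7_253 : T TT 256 :=
  (.f k255 k170 14 (.q k106 [(.s k64 k127 6 (.s k192 k128 7 (.s k149 k63 14 (.d k213 k234 k21 6
  7))))] (.c k21 (.q k3 [(.s k64 k127 6 (.s k87 k171 13 (.s k86 k84 0 (.s k66 k126 5 (.d k192 k128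
  k129 7 8))))), (.s k2 k1 0 (.s k64 k127 6 (.s k192 k128 7 (.s k66 k129 8 (.s k130 k194 7 (.d k65
  k67 k195 0 8)))))), (.s k87 k171 13 (.s k86 k84 0 (.s k66 k126 5 (.s k169 k252 14 (.s k43 k232 8
  (.s k63 k23 5 (.d k192 k129 k149 8 14))))))), (.s k87 k171 13 (.s k86 k84 0 (.s k127 k64 6 (.s k63
  k191 7 (.s k23 k43 5 (.d k149 k212 k192 8 14))))))] (.c k192 (.l (.s k87 k171 13 (.s k86 k84 0 (.s
  k126 k66 5 (.s k127 k64 6 (.s k63 k191 7 (.d k252 k169 k189 14 8))))))) .n)) (.c k63 (.q k4 [(.s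
  k12 k8 1 (.s k93 k174 12 (.s k89 k81 1 (.d k166 k247 k243 12 14)))), (.s k64 k127 6 (.s k192 k128
  7 (.s k213 k234 6 (.s k247 k166 12 (.s k196 k230 4 (.s k68 k132 7 (.d k204 k136 k200 9 1))))))),
  (.s k12 k8 1 (.s k64 k127 6 (.s k192 k128 7 (.s k72 k132 9 (.s k89 k123 4 (.d k93 k81 k174 1
  12))))))] (.c k174 (.l (.s k12 k8 1 (.s k64 k127 6 (.s k166 k247 12 (.s k89 k243 14 (.s k192 k128
  7 (.d k72 k123 k132 4 9))))))) .n)) (.c k64 (.q k12 [(.s k4 k8 1 (.s k93 k174 12 (.s k89 k81 1 (.d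
  k166 k247 k243 12 14)))), (.s k4 k8 1 (.s k166 k247 12 (.s k46 k226 9 (.s k63 k29 4 (.s k21 k42 6
  (.d k149 k213 k192 7 14)))))), (.s k93 k174 12 (.s k89 k81 1 (.s k72 k123 4 (.s k192 k132 9 (.s
  k149 k63 14 (.d k213 k234 k21 6 7))))))] (.c k89 (.q k204 [(.s k68 k136 9 (.s k102 k119 4 (.s k153
  k51 14 (.d k221 k238 k17 4 9)))), (.s k8 k4 1 (.s k136 k68 9 (.s k72 k200 7 (.s k132 k192 9 (.d
  k140 k76 k128 7 1))))), (.s k76 k140 7 (.s k93 k174 12 (.s k110 k127 4 (.s k157 k63 12 (.d k221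
  k238 k29 4 7)))))] (.c k8 (.q k251 [(.s k221 k238 4 (.s k153 k17 9 (.s k102 k51 14 (.d k68 k119
  k136 4 9)))), (.s k76 k140 7 (.s k93 k174 12 (.s k110 k127 4 (.s k157 k63 12 (.d k221 k238 k29 4
  7))))), (.s k68 k136 9 (.s k76 k140 7 (.s k93 k174 12 (.s k102 k119 4 (.d k110 k98 k127 1 4)))))]
  .n) (.c k251 (.l (.s k8 k4 1 (.s k68 k136 9 (.s k102 k119 4 (.s k153 k51 14 (.d k221 k238 k17 4
  9)))))) .n))) (.c k166 (.q k72 [(.s k89 k123 4 (.d k93 k174 k81 12 1)), (.s k192 k132 9 (.s k149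
  k63 14 (.d k213 k234 k21 6 7)))] (.c k162 (.l (.s k174 k93 12 (.s k192 k132 9 (.s k149 k63 14 (.d
  k213 k234 k21 6 7))))) (.c k174 (.q k162 [(.s k81 k243 12 (.d k89 k93 k123 1 4)), (.s k192 k132 9
  (.s k149 k63 14 (.d k213 k234 k21 6 7)))] .n) .n))) .n))) (.c k127 (.q k12 [(.s k4 k8 1 (.s k93
  k174 12 (.s k89 k81 1 (.d k166 k247 k243 12 14)))), (.s k4 k8 1 (.s k166 k247 12 (.s k46 k226 9
  (.s k63 k29 4 (.s k21 k42 6 (.d k149 k213 k192 7 14)))))), (.s k93 k174 12 (.s k89 k81 1 (.s k72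
  k123 4 (.s k192 k132 9 (.s k149 k63 14 (.d k213 k234 k21 6 7))))))] (.c k89 (.q k65 [(.s k195 k130
  8 (.s k215 k235 5 (.s k150 k20 8 (.d k105 k125 k60 5 14)))), (.s k8 k4 1 (.s k195 k130 8 (.s k73
  k134 10 (.s k69 k77 1 (.d k138 k203 k207 8 10))))), (.s k93 k174 12 (.s k125 k105 5 (.s k77 k109 3
  (.s k207 k142 8 (.d k69 k73 k138 1 10)))))] (.c k8 (.q k251 [(.s k195 k130 8 (.s k215 k235 5 (.s
  k150 k20 8 (.d k105 k125 k60 5 14)))), (.s k93 k174 12 (.s k125 k105 5 (.s k77 k109 3 (.s k207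
  k142 8 (.d k69 k73 k138 1 10))))), (.s k195 k130 8 (.s k73 k134 10 (.s k69 k77 1 (.s k235 k215 5
  (.s k203 k219 3 (.d k207 k138 k199 10 1))))))] (.c k190 (.l (.s k105 k125 5 (.s k195 k130 8 (.s
  k150 k60 14 (.d k215 k235 k20 5 8))))) (.c k235 (.l (.s k93 k174 12 (.s k195 k130 8 (.s k73 k134
  10 (.s k77 k69 1 (.d k125 k109 k105 3 5)))))) .n))) (.c k190 (.l (.s k105 k125 5 (.s k195 k130 8
  (.s k150 k60 14 (.d k215 k235 k20 5 8))))) (.c k251 (.l (.s k8 k4 1 (.s k105 k125 5 (.s k195 k130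
  8 (.s k150 k60 14 (.d k215 k235 k20 5 8)))))) .n)))) (.c k166 (.q k72 [(.s k89 k123 4 (.d k93 k174
  k81 12 1)), (.s k192 k132 9 (.s k149 k63 14 (.d k213 k234 k21 6 7)))] (.c k162 (.l (.s k174 k93 12
  (.s k192 k132 9 (.s k149 k63 14 (.d k213 k234 k21 6 7))))) (.c k174 (.q k162 [(.s k81 k243 12 (.d
  k89 k93 k123 1 4)), (.s k192 k132 9 (.s k149 k63 14 (.d k213 k234 k21 6 7)))] .n) .n))) .n))) (.c
  k128 (.l (.s k127 k64 6 (.s k63 k191 7 (.s k149 k192 14 (.d k21 k42 k213 6 7))))) (.c k149 (.f k64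
  k127 6 (.q k98 [(.s k102 k110 1 (.s k68 k119 4 (.s k76 k72 1 (.d k115 k81 k89 4 6)))), (.s k81
  k115 4 (.s k162 k243 12 (.s k34 k226 7 (.s k51 k17 4 (.d k192 k128 k145 7 12))))), (.s k102 k110 1
  (.s k119 k68 4 (.s k51 k187 9 (.d k192 k128 k145 7 12))))] (.c k119 (.l (.s k102 k110 1 (.s k115
  k81 4 (.s k76 k89 6 (.s k68 k72 1 (.s k204 k136 9 (.s k153 k51 14 (.d k221 k238 k17 4 9))))))))
  (.c k128 (.q k191 [(.s k102 k110 1 (.s k68 k119 4 (.s k76 k72 1 (.d k115 k81 k89 4 6)))), (.s k81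
  k115 4 (.s k243 k162 12 (.s k247 k251 1 (.s k166 k4 12 (.d k89 k93 k12 1 14))))), (.s k102 k110 1
  (.s k119 k68 4 (.s k51 k187 9 (.s k17 k34 4 (.d k153 k221 k204 9 14)))))] (.c k93 (.l (.s k115 k81
  4 (.s k102 k110 1 (.s k76 k89 6 (.d k68 k72 k119 1 4))))) (.c k119 (.l (.s k102 k110 1 (.s k115
  k81 4 (.s k76 k89 6 (.s k68 k72 1 (.s k204 k136 9 (.s k153 k51 14 (.d k221 k238 k17 4 9))))))))
  .n))) (.c k191 (.l (.s k128 k192 7 (.s k102 k110 1 (.s k68 k119 4 (.s k76 k72 1 (.d k115 k81 k89 4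
  6)))))) .n))))) (.c k191 (.l (.s k64 k127 6 (.s k192 k128 7 (.s k149 k63 14 (.d k213 k234 k21 6
  7))))) (.c k192 (.q k4 [(.s k12 k8 1 (.s k93 k174 12 (.s k89 k81 1 (.d k166 k247 k243 12 14)))),
  (.s k127 k64 6 (.s k63 k191 7 (.s k21 k42 6 (.s k55 k38 4 (.s k247 k166 12 (.s k119 k183 7 (.d k51
  k187 k59 9 1))))))), (.s k12 k8 1 (.s k127 k64 6 (.s k63 k191 7 (.s k21 k42 6 (.s k29 k46 4 (.s
  k25 k17 1 (.d k38 k55 k51 4 6)))))))] .n) (.c k213 (.f k64 k127 6 (.f k192 k128 7 (.f k149 k63 14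
  (.q k193 [(.s k105 k61 13 (.s k195 k194 0 (.d k65 k125 k130 5 8))), (.s k195 k194 0 (.s k65 k130 8
  (.s k66 k67 0 (.d k129 k1 k3 7 8)))), (.s k105 k61 13 (.s k104 k107 0 (.s k60 k148 13 (.d k195
  k194 k150 0 14)))), (.s k105 k61 13 (.s k125 k65 5 (.s k60 k190 8 (.d k104 k107 k148 0 13))))]
  .n)))) (.c k234 (.l (.s k127 k64 6 (.s k63 k191 7 (.s k21 k42 6 (.d k149 k213 k192 7 14)))))
  .n))))))))))))

def t7_254 : T TT 256 :=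
  (.q k89 [(.s k81 k93 1 (.s k243 k162 12 (.s k166 k12 14 (.s k247 k4 12 (.d k255 k251 k170 1
  14))))), (.s k93 k81 1 (.s k255 k170 14 (.s k12 k174 12 (.s k166 k243 14 (.d k4 k8 k247 1 12)))))]
  (.c k4 (.q k5 [(.s k15 k10 2 (.s k165 k245 11 (.s k90 k240 14 (.s k95 k80 2 (.d k255 k175 k170 11
  14))))), (.s k93 k81 1 (.s k165 k245 11 (.s k13 k241 13 (.s k1 k9 1 (.d k253 k173 k169 11 13)))))]
  (.c k165 (.l (.s k10 k15 2 (.s k170 k255 14 (.s k8 k251 12 (.s k11 k9 0 (.s k90 k250 11 (.s k88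
  k91 0 (.d k248 k168 k169 11 12)))))))) (.c k245 (.l (.s k15 k10 2 (.s k81 k93 1 (.s k243 k162 12
  (.s k12 k166 14 (.s k13 k14 0 (.s k1 k9 1 (.d k241 k161 k165 11 13)))))))) .n))) (.c k12 (.q k1
  [(.s k3 k2 0 (.s k169 k253 13 (.s k86 k252 14 (.s k255 k170 14 (.d k87 k84 k171 0 13))))), (.s k93
  k81 1 (.s k253 k169 13 (.s k13 k173 11 (.s k5 k9 1 (.d k165 k245 k241 11 13))))), (.s k3 k2 0 (.s
  k81 k93 1 (.s k161 k241 11 (.s k82 k240 12 (.s k83 k80 0 (.d k243 k163 k162 11 12))))))] (.c k3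
  (.l (.s k81 k93 1 (.s k169 k253 13 (.s k9 k249 11 (.s k13 k5 1 (.d k241 k161 k165 11 13)))))) .n))
  (.c k81 (.q k15 [(.s k5 k10 2 (.s k165 k245 11 (.s k90 k240 14 (.s k95 k80 2 (.d k255 k175 k170 11
  14))))), (.s k5 k10 2 (.s k165 k245 11 (.s k13 k241 13 (.s k12 k14 0 (.s k4 k8 1 (.d k166 k247
  k243 12 14)))))), (.s k255 k170 14 (.s k95 k175 11 (.s k90 k80 2 (.s k91 k88 0 (.s k243 k167 13
  (.s k166 k12 14 (.d k247 k251 k4 1 12)))))))] (.c k165 (.l (.s k10 k5 2 (.s k170 k255 14 (.s k8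
  k251 12 (.s k9 k11 0 (.s k12 k4 1 (.s k6 k3 2 (.d k14 k13 k2 0 1)))))))) .n)) (.c k93 (.q k15 [(.s
  k5 k10 2 (.s k165 k245 11 (.s k90 k240 14 (.s k95 k80 2 (.d k255 k175 k170 11 14))))), (.s k5 k10
  2 (.s k165 k245 11 (.s k13 k241 13 (.s k12 k14 0 (.s k4 k8 1 (.d k166 k247 k243 12 14)))))), (.s
  k255 k170 14 (.s k95 k175 11 (.s k90 k80 2 (.s k91 k88 0 (.s k243 k167 13 (.s k166 k12 14 (.d k247
  k251 k4 1 12)))))))] (.c k165 (.l (.s k10 k5 2 (.s k170 k255 14 (.s k8 k251 12 (.s k9 k11 0 (.s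
  k12 k4 1 (.s k6 k3 2 (.d k14 k13 k2 0 1)))))))) .n)) (.c k162 (.l (.s k93 k81 1 (.s k255 k170 14
  (.s k12 k174 12 (.s k166 k243 14 (.d k4 k8 k247 1 12)))))) (.c k166 (.q k1 [(.s k3 k2 0 (.s k169
  k253 13 (.s k86 k252 14 (.s k255 k170 14 (.d k87 k84 k171 0 13))))), (.s k81 k93 1 (.s k241 k161
  11 (.s k13 k165 13 (.s k9 k5 1 (.d k169 k249 k253 11 13))))), (.s k3 k2 0 (.s k81 k93 1 (.s k161
  k241 11 (.s k82 k240 12 (.s k83 k80 0 (.d k243 k163 k162 11 12))))))] (.c k86 (.l (.s k81 k93 1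
  (.s k169 k253 13 (.s k9 k249 11 (.s k13 k5 1 (.d k241 k161 k165 11 13)))))) .n)) (.c k170 (.q k86
  [(.s k81 k93 1 (.s k83 k92 2 (.s k80 k82 0 (.s k87 k84 0 (.d k95 k91 k90 1 2))))), (.s k81 k93 1
  (.s k84 k87 0 (.s k243 k162 12 (.s k166 k12 14 (.s k246 k6 11 (.d k252 k249 k168 2 13)))))), (.s
  k84 k87 0 (.s k92 k83 2 (.s k252 k168 13 (.s k12 k172 11 (.s k4 k8 1 (.d k166 k247 k243 12
  14)))))), (.s k81 k93 1 (.s k83 k92 2 (.s k243 k162 12 (.s k3 k163 11 (.s k1 k2 0 (.d k169 k253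
  k252 13 14))))))] .n) (.c k174 (.l (.s k81 k93 1 (.s k243 k162 12 (.s k12 k166 14 (.s k170 k255 14
  (.d k8 k4 k251 1 12)))))) (.c k243 (.q k13 [(.s k93 k81 1 (.s k241 k165 13 (.s k253 k173 11 (.s
  k169 k1 13 (.d k249 k245 k9 1 11))))), (.s k165 k241 13 (.s k245 k5 11 (.s k255 k170 14 (.s k240
  k250 2 (.s k80 k160 11 (.d k90 k95 k15 2 14)))))), (.s k93 k81 1 (.s k173 k253 11 (.s k255 k170 14
  (.s k12 k174 12 (.s k15 k14 0 (.s k94 k252 12 (.d k95 k92 k175 0 11)))))))] (.c k86 (.l (.s k93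
  k81 1 (.s k165 k241 13 (.s k5 k245 11 (.s k1 k9 1 (.d k253 k173 k169 11 13)))))) .n)) (.c k247 (.l
  (.s k81 k93 1 (.s k170 k255 14 (.s k8 k251 12 (.s k243 k162 12 (.d k12 k4 k166 1 14)))))) (.c k255
  (.q k252 [(.s k81 k93 1 (.s k84 k168 13 (.s k86 k87 0 (.s k243 k162 12 (.s k246 k249 2 (.d k166
  k12 k6 14 11)))))), (.s k81 k93 1 (.s k243 k162 12 (.s k249 k246 2 (.s k169 k9 11 (.s k1 k253 13
  (.d k3 k2 k86 0 14)))))), (.s k84 k168 13 (.s k86 k87 0 (.s k92 k83 2 (.s k12 k172 11 (.s k4 k8 1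
  (.d k166 k247 k243 12 14)))))), (.s k84 k168 13 (.s k86 k87 0 (.s k92 k83 2 (.s k80 k88 1 (.s k93
  k81 1 (.d k95 k94 k90 0 2))))))] (.c k3 (.l (.s k81 k93 1 (.s k84 k168 13 (.s k243 k162 12 (.s k12
  k166 14 (.s k92 k172 11 (.d k86 k87 k83 0 2))))))) (.c k86 (.f k81 k93 1 (.l (.s k84 k168 13 (.s
  k243 k162 12 (.s k12 k166 14 (.s k4 k8 1 (.s k92 k172 11 (.s k88 k80 1 (.d k164 k244 k240 11
  13))))))))) .n))) .n))))))))))))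

def t10_11 : T TT 256 :=
  (.q k89 [(.s k81 k93 1 (.s k170 k255 14 (.s k243 k162 12 (.s k12 k166 14 (.d k8 k4 k251 1 12)))))]
  (.c k4 (.f k170 k255 14 (.q k9 [(.s k169 k249 11 (.s k168 k171 0 (.s k252 k84 13 (.s k3 k86 14 (.d
  k1 k2 k253 0 13))))), (.s k81 k93 1 (.s k169 k249 11 (.s k1 k253 13 (.s k13 k5 1 (.d k241 k161
  k165 11 13))))), (.s k81 k93 1 (.s k243 k162 12 (.s k12 k166 14 (.s k3 k6 2 (.s k2 k1 0 (.s k83
  k163 11 (.d k86 k92 k254 2 13)))))))] (.c k1 (.l (.s k81 k93 1 (.s k169 k249 11 (.s k168 k171 0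
  (.s k243 k162 12 (.s k12 k166 14 (.s k3 k6 2 (.d k252 k86 k84 14 13)))))))) (.c k169 (.l (.s k81
  k93 1 (.s k243 k162 12 (.s k12 k166 14 (.s k3 k6 2 (.s k2 k1 0 (.s k86 k254 13 (.d k83 k163 k92 11
  2)))))))) .n)))) (.c k8 (.q k9 [(.s k81 k93 1 (.s k243 k162 12 (.s k166 k12 14 (.s k247 k4 12 (.d
  k255 k251 k170 1 14))))), (.s k81 k93 1 (.s k169 k249 11 (.s k1 k253 13 (.s k13 k5 1 (.d k241 k161
  k165 11 13))))), (.s k169 k249 11 (.s k1 k253 13 (.s k3 k2 0 (.s k86 k252 14 (.s k87 k84 0 (.d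
  k255 k171 k170 13 14))))))] .n) (.c k9 (.q k8 [(.d k170 k251 k255 12 14), (.s k12 k4 1 (.s k81 k93
  1 (.d k243 k162 k166 12 14)))] .n) (.c k12 (.f k170 k255 14 (.f k93 k81 1 (.q k69 [(.s k207 k138
  10 (.s k101 k117 3 (.s k48 k154 14 (.d k32 k16 k239 3 10)))), (.s k101 k117 3 (.s k77 k113 5 (.s
  k65 k73 1 (.d k125 k109 k105 3 5)))), (.s k8 k251 12 (.s k138 k207 10 (.s k73 k203 8 (.s k105 k121
  3 (.d k65 k77 k125 1 5)))))] (.c k8 (.q k9 [(.s k101 k117 3 (.s k32 k239 10 (.s k48 k16 3 (.d k207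
  k138 k154 10 14)))), (.s k169 k249 11 (.s k1 k253 13 (.s k3 k2 0 (.s k168 k171 0 (.d k252 k84 k86
  13 14)))))] .n) (.c k9 (.l (.s k8 k251 12 (.s k101 k117 3 (.s k32 k239 10 (.s k48 k16 3 (.d k207
  k138 k154 10 14)))))) (.c k186 (.l (.s k207 k138 10 (.s k101 k117 3 (.s k48 k154 14 (.d k32 k16
  k239 3 10))))) .n)))))) (.c k81 (.f k170 k255 14 (.q k169 [(.s k1 k253 13 (.s k3 k2 0 (.s k252 k86
  14 (.d k168 k171 k84 0 13)))), (.s k8 k251 12 (.s k12 k4 1 (.s k243 k166 14 (.s k249 k9 11 (.s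
  k252 k246 2 (.d k168 k171 k84 0 13)))))), (.s k1 k253 13 (.s k3 k2 0 (.s k9 k249 11 (.s k13 k5 1
  (.s k12 k6 2 (.s k14 k15 0 (.d k8 k4 k251 1 12)))))))] (.c k6 (.l (.s k1 k253 13 (.s k168 k171 0
  (.s k252 k84 13 (.d k3 k2 k86 0 14))))) (.c k8 (.l (.s k9 k249 11 (.s k1 k253 13 (.s k3 k2 0 (.s
  k168 k171 0 (.d k252 k84 k86 13 14)))))) (.c k9 (.l (.s k8 k251 12 (.s k1 k253 13 (.s k3 k2 0 (.s
  k252 k86 14 (.d k168 k171 k84 0 13)))))) (.c k252 (.l (.s k8 k251 12 (.s k9 k249 11 (.s k12 k4 1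
  (.s k3 k6 2 (.d k1 k2 k253 0 13)))))) .n)))))) (.c k93 (.f k170 k255 14 (.q k169 [(.s k168 k171 0
  (.s k252 k84 13 (.s k3 k86 14 (.d k1 k2 k253 0 13)))), (.s k1 k253 13 (.s k3 k2 0 (.s k9 k249 11
  (.s k13 k5 1 (.s k12 k6 2 (.s k14 k15 0 (.d k8 k4 k251 1 12))))))), (.s k8 k251 12 (.s k12 k4 1
  (.s k243 k166 14 (.s k249 k9 11 (.s k252 k246 2 (.d k168 k171 k84 0 13))))))] (.c k8 (.l (.s k9
  k249 11 (.s k1 k253 13 (.s k3 k2 0 (.s k168 k171 0 (.d k252 k84 k86 13 14)))))) (.c k9 (.l (.s k8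
  k251 12 (.s k1 k253 13 (.s k3 k2 0 (.s k252 k86 14 (.d k168 k171 k84 0 13)))))) (.c k12 (.q k174
  [(.s k168 k171 0 (.s k252 k84 13 (.s k3 k86 14 (.d k1 k2 k253 0 13)))), (.s k166 k162 1 (.s k172
  k163 2 (.s k175 k173 0 (.s k160 k165 2 (.d k168 k171 k164 0 1))))), (.s k1 k253 13 (.s k3 k2 0 (.s
  k162 k166 1 (.s k243 k81 12 (.s k83 k163 11 (.d k86 k252 k92 14 2))))))] (.c k8 (.l (.s k9 k249 11
  (.s k1 k253 13 (.s k3 k2 0 (.s k168 k171 0 (.d k252 k84 k86 13 14)))))) (.c k9 (.l (.s k8 k251 12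
  (.s k1 k253 13 (.s k3 k2 0 (.s k252 k86 14 (.d k168 k171 k84 0 13)))))) (.c k253 (.l (.s k162 k166
  1 (.s k168 k171 0 (.s k243 k81 12 (.s k252 k84 13 (.d k249 k246 k9 2 11)))))) .n)))) (.c k174 (.q
  k12 [(.d k8 k4 k251 1 12), (.s k1 k253 13 (.s k3 k2 0 (.d k9 k6 k249 2 11)))] (.c k8 (.l (.s k9
  k249 11 (.s k1 k253 13 (.d k3 k2 k6 0 2)))) (.c k9 (.l (.d k8 k4 k251 1 12)) .n))) (.c k251 (.l
  (.s k1 k253 13 (.s k3 k2 0 (.s k252 k86 14 (.d k168 k171 k84 0 13))))) (.c k252 (.l (.s k8 k251 12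
  (.s k9 k249 11 (.s k12 k4 1 (.s k3 k6 2 (.d k1 k2 k253 0 13)))))) .n)))))))) (.c k162 (.l (.s k93
  k81 1 (.s k255 k170 14 (.s k12 k174 12 (.s k166 k243 14 (.d k4 k8 k247 1 12)))))) (.c k166 (.f
  k170 k255 14 (.q k169 [(.s k1 k253 13 (.s k168 k171 0 (.s k252 k84 13 (.d k3 k2 k86 0 14)))), (.s
  k1 k253 13 (.s k9 k249 11 (.s k13 k5 1 (.s k81 k93 1 (.d k241 k161 k165 11 13))))), (.s k81 k93 1
  (.s k168 k171 0 (.s k243 k162 12 (.s k252 k84 13 (.d k249 k9 k246 11 2)))))] (.c k8 (.l (.s k9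
  k249 11 (.s k1 k253 13 (.s k3 k2 0 (.s k168 k171 0 (.d k252 k84 k86 13 14)))))) (.c k9 (.l (.s k8
  k251 12 (.s k1 k253 13 (.s k3 k2 0 (.s k252 k86 14 (.d k168 k171 k84 0 13)))))) (.c k252 (.l (.s
  k8 k251 12 (.s k9 k249 11 (.s k12 k4 1 (.s k3 k6 2 (.d k1 k2 k253 0 13)))))) .n))))) (.c k170 (.f
  k81 k93 1 (.q k90 [(.s k80 k95 2 (.s k83 k82 0 (.s k88 k91 0 (.d k92 k84 k86 1 2)))), (.s k91 k88
  0 (.s k243 k162 12 (.s k15 k167 13 (.s k165 k240 14 (.s k13 k241 13 (.d k12 k166 k14 14 0)))))),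
  (.s k80 k95 2 (.s k240 k160 11 (.s k165 k15 14 (.s k241 k13 13 (.d k243 k242 k162 0 12)))))] (.c
  k8 (.q k9 [(.s k169 k249 11 (.s k1 k253 13 (.s k13 k5 1 (.d k241 k161 k165 11 13)))), (.s k80 k95
  2 (.s k83 k82 0 (.s k88 k91 0 (.d k92 k84 k86 1 2))))] .n) (.c k9 (.q k8 [(.s k12 k4 1 (.d k243
  k162 k166 12 14)), (.s k80 k95 2 (.s k83 k82 0 (.s k88 k91 0 (.d k92 k84 k86 1 2))))] .n) .n))))
  (.c k174 (.l (.s k81 k93 1 (.s k243 k162 12 (.s k12 k166 14 (.s k170 k255 14 (.d k8 k4 k251 1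
  12)))))) (.c k243 (.f k81 k93 1 (.q k169 [(.s k1 k253 13 (.s k241 k161 11 (.s k13 k165 13 (.d k9
  k5 k249 1 11)))), (.s k9 k249 11 (.s k170 k255 14 (.s k168 k171 0 (.s k252 k84 13 (.s k3 k86 14
  (.s k12 k6 2 (.d k8 k251 k4 12 1)))))))] (.c k8 (.l (.s k9 k249 11 (.s k1 k253 13 (.s k13 k5 1 (.d
  k241 k161 k165 11 13))))) (.c k9 (.q k8 [(.d k170 k251 k255 12 14), (.s k1 k253 13 (.s k3 k2 0 (.s
  k86 k252 14 (.s k83 k92 2 (.s k82 k80 0 (.d k161 k241 k240 11 12))))))] (.c k255 (.l (.s k1 k253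
  13 (.s k3 k2 0 (.s k252 k86 14 (.s k168 k84 13 (.d k170 k171 k251 0 12)))))) .n)) (.c k249 (.l (.s
  k1 k253 13 (.s k3 k2 0 (.s k170 k255 14 (.s k168 k171 0 (.d k252 k84 k86 13 14)))))) .n))))) (.c
  k251 (.l (.s k93 k81 1 (.s k255 k170 14 (.s k12 k174 12 (.s k166 k243 14 (.d k4 k8 k247 1 12))))))
  (.c k255 (.q k72 [(.s k106 k123 4 (.s k64 k127 6 (.s k76 k68 1 (.s k115 k102 6 (.d k81 k93 k98 1
  4))))), (.s k81 k93 1 (.s k106 k123 4 (.s k243 k162 12 (.s k12 k166 14 (.s k192 k132 9 (.d k64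
  k127 k128 6 7)))))), (.s k81 k93 1 (.s k243 k162 12 (.s k12 k166 14 (.s k192 k132 9 (.s k64 k128 7
  (.s k76 k68 1 (.d k115 k98 k102 4 6))))))), (.s k106 k123 4 (.s k64 k127 6 (.s k192 k128 7 (.s k12
  k132 9 (.s k166 k243 14 (.d k4 k8 k247 1 12))))))] (.c k8 (.q k9 [(.s k106 k123 4 (.s k64 k127 6
  (.s k76 k68 1 (.s k115 k102 6 (.d k81 k93 k98 1 4))))), (.s k81 k93 1 (.s k169 k249 11 (.s k1 k253
  13 (.s k13 k5 1 (.d k241 k161 k165 11 13))))), (.s k106 k123 4 (.s k64 k127 6 (.s k169 k249 11 (.s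
  k1 k253 13 (.s k3 k2 0 (.s k192 k128 7 (.d k12 k6 k132 2 9)))))))] .n) (.c k9 (.q k8 [(.s k12 k4 1
  (.s k81 k93 1 (.d k243 k162 k166 12 14))), (.s k106 k123 4 (.s k64 k127 6 (.s k68 k76 1 (.d k136
  k200 k204 7 9))))] (.c k93 (.l (.s k12 k4 1 (.s k106 k123 4 (.s k64 k127 6 (.d k192 k128 k132 7
  9))))) .n)) (.c k64 (.l (.s k81 k93 1 (.s k106 k123 4 (.s k243 k162 12 (.s k12 k166 14 (.s k192
  k132 9 (.s k149 k63 14 (.d k209 k226 k29 4 9)))))))) .n)))) .n))))))))))))))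

def t10_15 : T TT 256 :=
  (.q k86 [(.s k84 k87 0 (.s k252 k168 13 (.s k3 k169 14 (.s k2 k1 0 (.d k170 k254 k255 13 14)))))]
  (.c k1 (.q k4 [(.s k84 k87 0 (.s k166 k247 12 (.s k6 k246 11 (.s k244 k164 11 (.d k7 k5 k165 0
  12))))), (.s k12 k8 1 (.s k166 k247 12 (.s k170 k255 14 (.s k162 k174 1 (.d k243 k81 k89 12
  14))))), (.s k12 k8 1 (.s k84 k87 0 (.s k164 k244 11 (.s k88 k240 13 (.s k92 k80 1 (.d k252 k172
  k168 11 13))))))] .n) (.c k2 (.l (.s k84 k87 0 (.s k252 k168 13 (.s k169 k3 14 (.s k253 k1 13 (.d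
  k255 k254 k170 0 14)))))) (.c k3 (.f k87 k84 0 (.q k166 [(.s k247 k4 12 (.s k7 k167 11 (.s k244
  k165 12 (.d k246 k245 k6 0 11)))), (.s k170 k255 14 (.s k174 k162 1 (.s k246 k6 11 (.s k254 k2 13
  (.s k14 k94 11 (.d k242 k250 k90 1 13)))))), (.s k4 k247 12 (.s k12 k8 1 (.s k89 k243 14 (.s k93
  k81 1 (.d k255 k174 k170 12 14)))))] (.c k7 (.q k11 [(.s k4 k247 12 (.s k12 k8 1 (.s k170 k255 14
  (.s k162 k174 1 (.d k243 k81 k89 12 14))))), (.s k170 k255 14 (.s k174 k162 1 (.s k254 k2 13 (.s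
  k14 k94 11 (.s k242 k90 13 (.d k246 k6 k250 11 1)))))), (.s k4 k247 12 (.s k12 k8 1 (.s k89 k243
  14 (.s k81 k93 1 (.s k83 k92 2 (.s k80 k82 0 (.d k95 k91 k90 1 2)))))))] (.c k95 (.l (.s k4 k247
  12 (.s k12 k8 1 (.s k89 k243 14 (.s k93 k81 1 (.d k255 k174 k170 12 14)))))) (.c k255 (.q k95 [(.s
  k4 k247 12 (.s k12 k8 1 (.s k83 k91 1 (.d k89 k243 k92 14 2)))), (.s k90 k80 2 (.s k82 k94 1 (.s
  k242 k14 13 (.s k2 k162 11 (.s k246 k6 11 (.d k254 k250 k170 1 13)))))), (.s k80 k90 2 (.s k83 k91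
  1 (.s k81 k82 0 (.d k89 k93 k92 1 2))))] (.c k92 (.l (.s k80 k90 2 (.s k83 k91 1 (.s k81 k82 0 (.s
  k89 k93 1 (.d k243 k12 k162 14 12)))))) .n)) .n))) (.c k11 (.q k7 [(.d k247 k167 k4 11 12), (.s k6
  k246 11 (.s k5 k4 0 (.d k165 k244 k245 12 11)))] (.c k4 (.l (.s k167 k247 11 (.d k165 k164 k244 0
  12))) (.c k8 (.q k9 [(.d k247 k167 k4 11 12), (.s k6 k246 11 (.s k5 k4 0 (.d k165 k244 k245 12
  11)))] (.c k4 (.l (.s k167 k247 11 (.d k165 k164 k244 0 12))) .n)) (.c k9 (.q k8 [(.d k4 k12 k247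
  1 12)] (.c k4 (.l (.s k167 k247 11 (.d k165 k164 k244 0 12))) (.c k6 (.l (.s k12 k4 1 (.s k89 k243
  14 (.d k170 k251 k255 12 14)))) (.c k12 (.l (.s k6 k246 11 (.d k4 k5 k247 0 12))) (.c k247 (.l (.s
  k4 k12 1 (.d k6 k5 k246 0 11))) .n))))) .n)))) .n)))) (.c k84 (.q k12 [(.s k4 k8 1 (.s k166 k247
  12 (.s k89 k243 14 (.s k93 k81 1 (.d k255 k174 k170 12 14))))), (.s k170 k255 14 (.s k2 k254 13
  (.s k3 k1 0 (.s k6 k9 2 (.s k166 k246 11 (.d k4 k8 k247 1 12)))))), (.s k255 k170 14 (.s k93 k174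
  12 (.s k89 k81 1 (.s k92 k83 2 (.s k252 k172 11 (.s k169 k3 14 (.d k253 k254 k1 0 13))))))), (.s
  k8 k4 1 (.s k170 k255 14 (.s k2 k254 13 (.s k3 k1 0 (.s k9 k6 2 (.s k89 k251 12 (.d k169 k252 k249
  14 11)))))))] (.c k170 (.l (.s k4 k8 1 (.s k166 k247 12 (.s k6 k246 11 (.s k89 k243 14 (.s k92 k83
  2 (.s k252 k172 11 (.d k3 k9 k169 2 14)))))))) (.c k255 (.l (.s k4 k8 1 (.s k166 k247 12 (.s k243
  k89 14 (.s k246 k6 11 (.s k252 k249 2 (.s k169 k3 14 (.d k172 k163 k92 2 11)))))))) .n))) (.c k87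
  (.q k12 [(.s k8 k4 1 (.s k170 k255 14 (.s k89 k251 12 (.s k81 k93 1 (.d k243 k162 k166 12 14))))),
  (.s k4 k8 1 (.s k166 k247 12 (.s k243 k89 14 (.s k246 k6 11 (.s k252 k249 2 (.s k172 k92 11 (.d
  k169 k163 k3 2 14))))))), (.s k255 k170 14 (.s k93 k174 12 (.s k89 k81 1 (.s k92 k83 2 (.s k252
  k172 11 (.s k169 k3 14 (.d k253 k254 k1 0 13))))))), (.s k170 k255 14 (.s k2 k254 13 (.s k3 k1 0
  (.s k6 k9 2 (.s k166 k246 11 (.d k4 k8 k247 1 12))))))] (.c k3 (.l (.s k4 k8 1 (.s k166 k247 12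
  (.s k89 k243 14 (.s k93 k81 1 (.d k255 k174 k170 12 14)))))) (.c k166 (.l (.s k8 k4 1 (.s k170
  k255 14 (.s k2 k254 13 (.s k3 k1 0 (.s k9 k6 2 (.s k89 k251 12 (.d k169 k252 k249 14 11))))))))
  (.c k170 (.l (.s k4 k8 1 (.s k166 k247 12 (.s k6 k246 11 (.s k89 k243 14 (.s k92 k83 2 (.s k252
  k172 11 (.d k3 k9 k169 2 14)))))))) .n)))) (.c k168 (.l (.s k87 k84 0 (.s k255 k170 14 (.s k3 k171
  13 (.s k169 k252 14 (.d k1 k2 k253 0 13)))))) (.c k169 (.q k4 [(.s k84 k87 0 (.s k166 k247 12 (.s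
  k6 k246 11 (.s k7 k5 0 (.d k244 k164 k165 11 12))))), (.s k12 k8 1 (.s k166 k247 12 (.s k170 k255
  14 (.s k162 k174 1 (.d k243 k81 k89 12 14))))), (.s k12 k8 1 (.s k84 k87 0 (.s k164 k244 11 (.s
  k88 k240 13 (.s k92 k80 1 (.d k252 k172 k168 11 13))))))] .n) (.c k170 (.f k84 k87 0 (.q k80 [(.s
  k92 k88 1 (.s k89 k83 2 (.s k93 k81 1 (.d k95 k90 k94 2 0)))), (.s k88 k92 1 (.s k240 k160 11 (.s
  k12 k164 13 (.s k8 k4 1 (.d k168 k248 k252 11 13))))), (.s k90 k95 2 (.s k240 k160 11 (.s k252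
  k168 13 (.s k169 k3 14 (.d k248 k11 k244 12 1)))))] (.c k90 (.q k250 [(.s k88 k92 1 (.s k240 k160
  11 (.s k12 k164 13 (.s k8 k4 1 (.d k168 k248 k252 11 13))))), (.s k240 k160 11 (.s k245 k255 2 (.s
  k165 k5 11 (.s k244 k7 12 (.d k252 k248 k168 1 13))))), (.s k92 k88 1 (.s k89 k83 2 (.s k81 k93 1
  (.s k243 k162 12 (.s k252 k168 13 (.d k12 k166 k172 14 11)))))), (.s k88 k92 1 (.s k240 k160 11
  (.s k245 k255 2 (.s k165 k5 11 (.s k244 k7 12 (.d k164 k4 k12 11 13))))))] (.c k165 (.f k240 k160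
  11 (.q k175 [(.s k88 k92 1 (.s k12 k164 13 (.s k8 k4 1 (.d k168 k248 k252 11 13)))), (.s k252 k168
  13 (.s k169 k3 14 (.s k253 k1 13 (.d k255 k254 k245 0 2))))] (.c k164 (.l (.s k92 k88 1 (.s k89
  k83 2 (.s k93 k81 1 (.s k255 k245 2 (.s k12 k174 12 (.d k252 k172 k168 11 13))))))) (.c k168 (.l
  (.s k88 k92 1 (.s k164 k12 13 (.s k244 k4 11 (.s k252 k248 1 (.s k169 k3 14 (.s k253 k1 13 (.d
  k255 k254 k245 0 2)))))))) (.c k172 (.l (.s k88 k92 1 (.s k12 k164 13 (.s k168 k252 13 (.d k8 k4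
  k248 1 11))))) (.c k252 (.l (.s k88 k92 1 (.s k12 k164 13 (.s k4 k8 1 (.s k166 k247 12 (.s k89
  k243 14 (.s k93 k81 1 (.d k255 k245 k174 2 12)))))))) .n)))))) (.c k240 (.q k165 [(.s k244 k7 12
  (.s k245 k5 11 (.s k247 k246 0 (.d k4 k164 k166 11 12)))), (.s k92 k88 1 (.s k89 k83 2 (.s k81 k93
  1 (.s k243 k162 12 (.s k252 k168 13 (.d k12 k166 k172 14 11)))))), (.s k5 k245 11 (.s k7 k244 12
  (.s k4 k6 0 (.s k12 k8 1 (.s k92 k88 1 (.d k252 k168 k172 13 11))))))] .n) .n))) (.c k250 (.l (.s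
  k90 k95 2 (.s k82 k94 1 (.s k83 k81 0 (.d k92 k88 k89 1 2))))) .n)))) (.c k171 (.l (.s k84 k87 0
  (.s k252 k168 13 (.s k3 k169 14 (.s k170 k255 14 (.d k2 k1 k254 0 13)))))) (.c k252 (.f k84 k87 0
  (.q k48 [(.s k16 k32 3 (.s k220 k152 9 (.s k19 k153 10 (.s k154 k223 10 (.d k18 k17 k222 0 9))))),
  (.s k255 k170 14 (.s k117 k186 10 (.s k101 k69 3 (.s k116 k71 4 (.s k68 k100 3 (.d k119 k118 k102
  0 4))))))] (.c k94 (.q k173 [(.s k16 k32 3 (.s k220 k152 9 (.s k19 k153 10 (.s k154 k223 10 (.d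
  k18 k17 k222 0 9))))), (.s k255 k170 14 (.s k117 k186 10 (.s k101 k69 3 (.s k116 k71 4 (.s k68
  k100 3 (.d k119 k118 k102 0 4))))))] (.c k154 (.l (.s k32 k16 3 (.s k170 k255 14 (.s k101 k239 10
  (.s k116 k71 4 (.s k68 k100 3 (.s k117 k69 3 (.d k119 k118 k102 0 4)))))))) .n)) (.c k154 (.l (.s
  k32 k16 3 (.s k170 k255 14 (.s k101 k239 10 (.s k116 k71 4 (.s k68 k100 3 (.s k117 k69 3 (.d k119
  k118 k102 0 4)))))))) (.c k173 (.q k94 [(.s k16 k32 3 (.s k220 k152 9 (.s k19 k153 10 (.s k154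
  k223 10 (.d k18 k17 k222 0 9))))), (.s k255 k170 14 (.s k117 k186 10 (.s k101 k69 3 (.s k116 k71 4
  (.s k68 k100 3 (.d k119 k118 k102 0 4))))))] (.c k154 (.l (.s k16 k32 3 (.s k90 k82 1 (.s k80 k95
  2 (.s k208 k144 7 (.s k220 k152 9 (.d k31 k149 k157 10 8))))))) .n)) .n))))) (.c k254 (.l (.s k87
  k84 0 (.s k255 k170 14 (.s k3 k171 13 (.s k1 k2 0 (.d k169 k253 k252 13 14)))))) (.c k255 (.q k246
  [(.s k84 k87 0 (.s k252 k168 13 (.s k243 k249 2 (.s k81 k162 12 (.s k89 k93 1 (.d k166 k12 k6 14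
  11)))))), (.s k87 k84 0 (.s k166 k6 11 (.s k247 k4 12 (.s k244 k245 0 (.d k7 k167 k165 11 12))))),
  (.s k166 k6 11 (.s k4 k247 12 (.s k12 k8 1 (.s k243 k89 14 (.s k252 k249 2 (.s k172 k92 11 (.d
  k169 k163 k3 2 14))))))), (.s k84 k87 0 (.s k252 k168 13 (.s k3 k169 14 (.s k243 k249 2 (.s k81
  k162 12 (.s k89 k93 1 (.d k83 k92 k163 2 11)))))))] (.c k95 (.q k175 [(.s k87 k84 0 (.s k166 k6 11
  (.s k247 k4 12 (.s k7 k167 11 (.d k244 k245 k165 0 12))))), (.s k84 k87 0 (.s k252 k168 13 (.s k3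
  k169 14 (.s k243 k249 2 (.s k81 k162 12 (.s k89 k93 1 (.d k83 k92 k163 2 11))))))), (.s k166 k6 11
  (.s k4 k247 12 (.s k12 k8 1 (.s k243 k89 14 (.s k252 k249 2 (.s k172 k92 11 (.d k169 k163 k3 2
  14)))))))] (.c k243 (.l (.s k87 k84 0 (.s k166 k6 11 (.s k247 k4 12 (.s k244 k245 0 (.d k7 k167
  k165 11 12)))))) .n)) (.c k175 (.q k95 [(.s k87 k84 0 (.s k83 k91 1 (.s k90 k80 2 (.s k92 k89 2
  (.d k94 k93 k82 0 1))))), (.s k90 k80 2 (.s k82 k94 1 (.s k166 k6 11 (.s k242 k14 13 (.s k2 k162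
  11 (.d k254 k250 k170 1 13)))))), (.s k87 k84 0 (.s k166 k6 11 (.s k247 k4 12 (.s k7 k167 11 (.d
  k244 k245 k165 0 12)))))] .n) .n))) .n)))))))))))))

def t10_26 : T TT 256 :=
  (.f k170 k255 14 (.q k106 [(.s k42 k234 7 (.s k64 k127 6 (.s k192 k128 7 (.d k63 k21 k149 6
  14))))] (.c k21 (.q k16 [(.s k48 k32 3 (.s k154 k223 10 (.s k138 k186 3 (.d k207 k69 k101 10
  14)))), (.s k48 k32 3 (.s k64 k127 6 (.s k192 k128 7 (.s k63 k149 14 (.s k58 k53 2 (.d k154 k223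
  k202 10 11)))))), (.s k42 k234 7 (.s k64 k127 6 (.s k154 k223 10 (.s k192 k128 7 (.s k202 k58 11
  (.s k207 k197 2 (.d k138 k186 k69 3 10)))))))] (.c k42 (.q k58 [(.d k154 k223 k202 10 11), (.s k48
  k32 3 (.s k63 k53 2 (.s k64 k127 6 (.d k192 k128 k149 7 14))))] .n) (.c k58 (.l (.s k42 k234 7 (.s
  k48 k32 3 (.s k154 k223 10 (.s k138 k186 3 (.d k207 k69 k101 10 14)))))) (.c k154 (.l (.s k32 k48
  3 (.s k42 k234 7 (.s k101 k239 10 (.s k96 k111 2 (.s k224 k160 7 (.d k47 k37 k165 2 10))))))) (.c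
  k223 (.l (.s k48 k32 3 (.s k64 k127 6 (.s k192 k128 7 (.s k96 k144 11 (.s k101 k111 2 (.s k69 k117
  3 (.d k207 k138 k154 10 14)))))))) .n))))) (.c k42 (.q k58 [(.s k154 k202 11 (.s k16 k223 10 (.s
  k138 k186 3 (.s k207 k69 10 (.d k48 k32 k101 3 14))))), (.s k64 k127 6 (.s k192 k128 7 (.s k63
  k149 14 (.s k48 k53 2 (.s k32 k16 3 (.s k96 k144 11 (.d k101 k111 k239 2 10))))))), (.s k64 k127 6
  (.s k154 k202 11 (.s k138 k186 3 (.s k192 k128 7 (.s k63 k149 14 (.s k48 k53 2 (.d k207 k101 k69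
  14 10)))))))] (.c k48 (.q k117 [(.s k69 k101 3 (.s k154 k202 11 (.d k138 k207 k186 10 3))), (.s
  k101 k69 3 (.s k111 k96 2 (.s k127 k64 6 (.s k79 k95 3 (.d k112 k122 k90 2 6))))), (.s k127 k64 6
  (.s k122 k112 2 (.s k154 k202 11 (.d k186 k138 k250 3 7))))] (.c k15 (.q k37 [(.s k69 k101 3 (.s
  k154 k202 11 (.d k138 k207 k186 10 3))), (.s k101 k69 3 (.s k32 k239 10 (.s k96 k111 2 (.s k160
  k224 7 (.d k165 k175 k229 2 7))))), (.s k127 k64 6 (.s k122 k112 2 (.s k154 k202 11 (.d k186 k138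
  k250 3 7))))] (.c k95 (.q k175 [(.s k101 k69 3 (.d k165 k160 k229 2 7)), (.s k127 k64 6 (.s k122
  k112 2 (.s k154 k202 11 (.d k186 k138 k250 3 7))))] .n) (.c k175 (.q k95 [(.s k69 k101 3 (.s k154
  k202 11 (.d k138 k207 k186 10 3))), (.s k90 k80 2 (.s k127 k64 6 (.d k122 k112 k74 2 3)))] (.c k74
  (.l (.s k69 k101 3 (.s k138 k207 10 (.d k154 k186 k202 3 11)))) .n)) .n))) (.c k37 (.q k15 [(.s
  k154 k202 11 (.s k138 k186 3 (.d k69 k101 k207 3 10))), (.s k64 k127 6 (.s k192 k128 7 (.s k74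
  k133 10 (.d k69 k79 k101 2 3)))), (.s k127 k64 6 (.s k122 k112 2 (.s k154 k202 11 (.d k186 k138
  k250 3 7))))] (.c k32 (.q k47 [(.s k64 k127 6 (.s k192 k128 7 (.d k63 k31 k149 3 14))), (.s k69
  k101 3 (.s k138 k207 10 (.d k154 k186 k202 3 11)))] .n) (.c k47 (.q k32 [(.d k101 k69 k239 3 10),
  (.s k127 k64 6 (.s k122 k112 2 (.s k154 k202 11 (.d k186 k138 k250 3 7))))] .n) (.c k74 (.l (.s
  k69 k101 3 (.s k138 k207 10 (.d k154 k186 k202 3 11)))) (.c k138 (.l (.s k64 k127 6 (.s k69 k101 3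
  (.s k74 k79 2 (.d k192 k128 k133 7 10))))) .n))))) (.c k74 (.l (.s k69 k101 3 (.s k138 k207 10 (.d
  k154 k186 k202 3 11)))) .n)))) (.c k101 (.l (.s k64 k127 6 (.s k154 k202 11 (.s k16 k223 10 (.s
  k48 k32 3 (.s k63 k53 2 (.d k192 k149 k128 14 7))))))) (.c k154 (.l (.s k64 k127 6 (.s k192 k128 7
  (.s k63 k149 14 (.s k48 k53 2 (.s k32 k16 3 (.s k101 k239 10 (.d k96 k144 k111 11 2)))))))) .n))))
  (.c k58 (.l (.s k42 k234 7 (.s k63 k21 6 (.s k64 k127 6 (.d k192 k128 k149 7 14))))) (.c k63 (.f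
  k127 k64 6 (.q k86 [(.s k2 k254 13 (.s k3 k1 0 (.s k84 k87 0 (.d k252 k168 k169 13 14)))), (.s k87
  k84 0 (.s k67 k107 5 (.s k124 k105 6 (.d k126 k125 k66 0 5)))), (.s k2 k254 13 (.s k42 k234 7 (.s
  k62 k22 5 (.s k66 k126 5 (.d k194 k130 k150 7 13)))))] (.c k42 (.q k58 [(.s k2 k254 13 (.s k3 k1 0
  (.s k84 k87 0 (.d k252 k168 k169 13 14)))), (.s k154 k202 11 (.s k16 k223 10 (.s k48 k32 3 (.s
  k138 k186 3 (.d k207 k69 k101 10 14)))))] .n) (.c k58 (.l (.s k42 k234 7 (.s k2 k254 13 (.s k3 k1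
  0 (.s k84 k87 0 (.d k252 k168 k169 13 14)))))) .n)))) (.c k64 (.q k154 [(.s k16 k223 10 (.s k48
  k32 3 (.s k138 k186 3 (.d k207 k69 k101 10 14)))), (.s k42 k234 7 (.s k58 k202 11 (.s k63 k21 6
  (.s k48 k53 2 (.d k16 k32 k223 3 10))))), (.s k42 k234 7 (.s k58 k202 11 (.s k138 k186 3 (.s k207
  k69 10 (.s k48 k101 14 (.d k63 k53 k21 2 6))))))] (.c k42 (.l (.s k58 k202 11 (.s k16 k223 10 (.s
  k48 k32 3 (.s k138 k186 3 (.d k207 k69 k101 10 14)))))) (.c k48 (.l (.s k42 k234 7 (.s k63 k21 6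
  (.s k192 k149 14 (.s k202 k58 11 (.s k207 k197 2 (.d k138 k186 k69 3 10))))))) (.c k58 (.l (.s k42
  k234 7 (.s k16 k223 10 (.s k48 k32 3 (.s k138 k186 3 (.d k207 k69 k101 10 14)))))) (.c k138 (.l
  (.s k16 k223 10 (.s k42 k234 7 (.s k48 k32 3 (.s k63 k21 6 (.d k58 k53 k202 2 11)))))) .n))))) (.c
  k127 (.f k42 k234 7 (.f k63 k21 6 (.f k192 k149 14 (.q k16 [(.s k48 k32 3 (.s k154 k223 10 (.d k58
  k53 k202 2 11))), (.s k48 k32 3 (.s k96 k144 11 (.s k101 k111 2 (.d k154 k223 k207 10 14)))), (.s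
  k154 k223 10 (.s k202 k58 11 (.s k207 k197 2 (.d k138 k186 k69 3 10))))] (.c k154 (.l (.s k32 k48
  3 (.s k101 k239 10 (.s k96 k111 2 (.s k224 k160 7 (.d k47 k37 k165 2 10)))))) (.c k207 (.l (.s k48
  k32 3 (.s k58 k53 2 (.d k154 k223 k202 10 11)))) (.c k223 (.l (.s k48 k32 3 (.s k58 k53 2 (.s k96
  k144 11 (.s k101 k111 2 (.d k154 k202 k207 11 14)))))) .n))))))) (.c k128 (.q k154 [(.s k16 k223
  10 (.s k48 k32 3 (.s k138 k186 3 (.d k207 k69 k101 10 14)))), (.s k42 k234 7 (.s k58 k202 11 (.s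
  k63 k21 6 (.s k48 k53 2 (.d k16 k32 k223 3 10))))), (.s k42 k234 7 (.s k58 k202 11 (.s k138 k186 3
  (.s k207 k69 10 (.s k48 k101 14 (.d k63 k53 k21 2 6))))))] (.c k42 (.l (.s k58 k202 11 (.s k16
  k223 10 (.s k48 k32 3 (.s k138 k186 3 (.d k207 k69 k101 10 14)))))) (.c k48 (.l (.s k42 k234 7 (.s
  k63 k21 6 (.s k192 k149 14 (.s k202 k58 11 (.s k207 k197 2 (.d k138 k186 k69 3 10))))))) (.c k58
  (.l (.s k42 k234 7 (.s k16 k223 10 (.s k48 k32 3 (.s k138 k186 3 (.d k207 k69 k101 10 14)))))) (.c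
  k138 (.l (.s k16 k223 10 (.s k42 k234 7 (.s k48 k32 3 (.s k63 k21 6 (.d k58 k53 k202 2 11))))))
  .n))))) (.c k149 (.q k154 [(.s k16 k223 10 (.s k48 k32 3 (.s k138 k186 3 (.d k207 k69 k101 10
  14)))), (.s k64 k127 6 (.s k138 k186 3 (.s k192 k128 7 (.s k207 k69 10 (.d k202 k58 k197 11
  2))))), (.s k16 k223 10 (.s k42 k234 7 (.s k48 k32 3 (.s k63 k21 6 (.d k58 k53 k202 2 11)))))] (.c
  k42 (.l (.s k58 k202 11 (.s k16 k223 10 (.s k48 k32 3 (.s k138 k186 3 (.d k207 k69 k101 10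
  14)))))) (.c k48 (.l (.s k42 k234 7 (.s k64 k127 6 (.s k192 k128 7 (.s k202 k58 11 (.s k207 k197 2
  (.d k138 k186 k69 3 10))))))) (.c k58 (.l (.s k42 k234 7 (.s k16 k223 10 (.s k48 k32 3 (.s k138
  k186 3 (.d k207 k69 k101 10 14)))))) (.c k207 (.l (.s k42 k234 7 (.s k58 k202 11 (.s k63 k21 6 (.s
  k48 k53 2 (.d k16 k32 k223 3 10)))))) .n))))) (.c k191 (.l (.s k42 k234 7 (.s k63 k21 6 (.s k64
  k127 6 (.d k192 k128 k149 7 14))))) (.c k192 (.f k42 k234 7 (.q k213 [(.d k21 k63 k149 6 7)] (.c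
  k21 (.q k104 [(.s k105 k107 0 (.s k40 k235 8 (.s k232 k168 7 (.d k43 k41 k169 0 8)))), (.s k64
  k127 6 (.s k105 k107 0 (.s k65 k125 5 (.s k67 k66 0 (.d k124 k84 k86 5 6))))), (.s k64 k127 6 (.s
  k84 k124 5 (.s k168 k252 13 (.s k169 k171 0 (.d k232 k40 k43 7 8)))))] (.c k16 (.q k31 [(.s k105
  k107 0 (.s k40 k235 8 (.s k232 k168 7 (.d k43 k41 k169 0 8)))), (.s k64 k127 6 (.s k105 k107 0 (.s
  k65 k125 5 (.s k67 k66 0 (.d k124 k84 k86 5 6))))), (.s k64 k127 6 (.s k84 k124 5 (.s k168 k252 13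
  (.s k169 k171 0 (.d k232 k40 k43 7 8)))))] .n) (.c k31 (.q k16 [(.s k48 k32 3 (.s k154 k223 10 (.s
  k138 k186 3 (.d k207 k69 k101 10 14)))), (.s k105 k107 0 (.s k40 k235 8 (.s k43 k41 0 (.d k232
  k168 k169 7 8))))] .n) .n))) (.c k63 (.q k84 [(.s k252 k168 13 (.s k86 k87 0 (.s k3 k169 14 (.d k2
  k1 k254 0 13)))), (.s k86 k87 0 (.s k149 k21 7 (.s k212 k23 8 (.s k20 k148 7 (.d k215 k214 k150 0
  8))))), (.s k127 k64 6 (.s k149 k21 7 (.s k128 k191 6 (.s k168 k252 13 (.s k148 k188 5 (.s k150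
  k151 0 (.d k20 k212 k215 7 8)))))))] (.c k127 (.q k191 [(.d k149 k128 k21 6 7), (.s k86 k87 0 (.s
  k2 k254 13 (.s k3 k1 0 (.d k252 k168 k169 13 14))))] .n) (.c k171 (.l (.s k252 k168 13 (.s k86 k87
  0 (.s k3 k169 14 (.d k2 k1 k254 0 13))))) (.c k191 (.l (.s k127 k64 6 (.s k86 k87 0 (.s k2 k254 13
  (.s k3 k1 0 (.d k252 k168 k169 13 14)))))) .n)))) (.c k149 (.q k1 [(.s k3 k2 0 (.s k169 k253 13
  (.s k168 k171 0 (.d k252 k84 k86 13 14)))), (.s k21 k63 6 (.s k41 k61 5 (.s k43 k40 0 (.d k169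
  k232 k253 8 13)))), (.s k2 k3 0 (.s k62 k22 5 (.s k150 k194 13 (.s k190 k130 5 (.d k254 k126 k86 7
  13)))))] .n) .n))))) (.c k213 (.l (.s k64 k127 6 (.s k42 k234 7 (.s k192 k128 7 (.d k63 k21 k149 6
  14))))) (.c k234 (.f k64 k127 6 (.f k192 k128 7 (.f k63 k149 14 (.q k48 [(.s k16 k32 3 (.s k58 k53
  2 (.d k154 k223 k202 10 11))), (.s k32 k16 3 (.s k96 k144 11 (.d k101 k111 k239 2 10))), (.s k58
  k53 2 (.s k96 k144 11 (.s k101 k111 2 (.d k154 k202 k207 11 14))))] (.c k42 (.l (.s k58 k53 2 (.s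
  k16 k32 3 (.d k154 k223 k202 10 11)))) (.c k58 (.l (.s k42 k21 6 (.s k96 k144 11 (.s k101 k111 2
  (.d k32 k16 k239 3 10))))) (.c k101 (.l (.s k16 k32 3 (.s k154 k223 10 (.d k58 k53 k202 2 11))))
  (.c k154 (.l (.s k32 k16 3 (.s k101 k239 10 (.d k96 k111 k144 2 11)))) .n)))))))) .n))))))))))))))

def t10_27 : T TT 256 :=
  (.f k170 k255 14 (.q k252 [(.s k84 k168 13 (.s k86 k87 0 (.s k2 k254 13 (.d k3 k1 k169 0 14))))]
  (.c k1 (.q k4 [(.s k12 k8 1 (.s k166 k247 12 (.s k162 k174 1 (.d k243 k81 k89 12 14)))), (.s k12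
  k8 1 (.s k84 k168 13 (.s k92 k172 11 (.s k88 k80 1 (.d k164 k244 k240 11 13))))), (.s k84 k168 13
  (.s k86 k87 0 (.s k166 k247 12 (.s k6 k246 11 (.s k7 k5 0 (.d k244 k164 k165 11 12))))))] (.c k9
  (.l (.s k166 k247 12 (.s k162 k174 1 (.s k243 k81 12 (.d k12 k8 k89 1 14))))) .n)) (.c k2 (.f k84
  k168 13 (.f k86 k87 0 (.f k3 k169 14 (.q k6 [(.s k12 k9 2 (.s k166 k246 11 (.d k4 k8 k247 1 12))),
  (.s k166 k246 11 (.s k4 k247 12 (.s k7 k5 0 (.d k244 k164 k165 11 12)))), (.s k12 k9 2 (.s k92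
  k172 11 (.s k89 k83 2 (.d k166 k246 k243 11 14)))), (.s k12 k9 2 (.s k8 k4 1 (.s k89 k251 12 (.d
  k92 k83 k172 2 11))))] .n)))) (.c k3 (.f k168 k84 13 (.q k192 [(.s k64 k128 7 (.s k106 k127 6 (.s
  k42 k234 7 (.d k63 k21 k149 6 14)))), (.s k232 k212 5 (.s k40 k104 7 (.s k105 k235 8 (.s k65 k125
  5 (.s k195 k130 8 (.d k60 k20 k150 5 14))))))] (.c k64 (.l (.s k232 k212 5 (.s k104 k40 7 (.s k148
  k60 13 (.s k128 k188 5 (.s k149 k191 6 (.s k21 k213 7 (.d k63 k42 k106 6 14)))))))) (.c k87 (.l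
  (.s k171 k169 0 (.s k64 k128 7 (.s k106 k127 6 (.s k42 k234 7 (.d k63 k21 k149 6 14)))))) (.c k171
  (.q k87 [(.s k64 k128 7 (.s k106 k127 6 (.s k42 k234 7 (.d k63 k21 k149 6 14)))), (.s k232 k212 5
  (.s k40 k104 7 (.s k105 k235 8 (.s k65 k125 5 (.s k195 k130 8 (.d k60 k20 k150 5 14))))))] (.c k64
  (.l (.s k232 k212 5 (.s k104 k40 7 (.s k148 k60 13 (.s k128 k188 5 (.s k149 k191 6 (.s k21 k213 7
  (.d k63 k42 k106 6 14)))))))) .n)) .n))))) (.c k84 (.q k150 [(.s k20 k215 8 (.s k60 k40 5 (.s k130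
  k190 5 (.d k195 k65 k105 8 14)))), (.s k130 k190 5 (.s k195 k65 8 (.s k214 k233 6 (.s k86 k22 7
  (.s k2 k254 13 (.d k3 k1 k169 0 14)))))), (.s k20 k215 8 (.s k60 k40 5 (.s k188 k124 7 (.s k169
  k131 6 (.s k1 k253 13 (.d k3 k2 k86 0 14))))))] (.c k60 (.q k166 [(.s k4 k247 12 (.s k162 k174 1
  (.s k243 k81 12 (.d k12 k8 k89 1 14)))), (.s k174 k162 1 (.s k182 k134 3 (.s k190 k130 5 (.s k142
  k158 3 (.d k178 k186 k154 1 5))))), (.s k4 k247 12 (.s k20 k215 8 (.s k52 k36 3 (.s k134 k182 3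
  (.d k199 k69 k101 8 12)))))] (.c k125 (.l (.s k190 k130 5 (.s k4 k247 12 (.s k12 k8 1 (.s k162
  k174 1 (.d k243 k81 k89 12 14)))))) (.c k190 (.q k125 [(.s k4 k247 12 (.s k12 k8 1 (.s k243 k89 14
  (.d k162 k174 k81 1 12)))), (.s k182 k134 3 (.s k215 k20 8 (.s k247 k4 12 (.s k52 k117 8 (.d k199
  k231 k101 3 12))))), (.s k65 k105 5 (.s k130 k195 8 (.s k134 k182 3 (.s k142 k138 1 (.s k162 k174
  1 (.d k178 k146 k154 3 5))))))] .n) .n))) (.c k195 (.q k1 [(.s k169 k253 13 (.d k3 k2 k86 0 14)),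
  (.s k130 k190 5 (.s k169 k253 13 (.s k131 k188 6 (.s k128 k129 0 (.s k171 k168 0 (.d k191 k151
  k149 5 6)))))), (.s k2 k3 0 (.s k86 k254 13 (.s k22 k214 7 (.s k42 k62 5 (.s k21 k63 6 (.d k20 k23
  k215 0 8))))))] (.c k215 (.q k235 [(.s k169 k253 13 (.d k3 k2 k86 0 14)), (.s k40 k105 8 (.s k60
  k20 5 (.s k169 k253 13 (.d k188 k131 k124 6 7)))), (.s k2 k3 0 (.s k86 k254 13 (.s k22 k214 7 (.s
  k62 k42 5 (.s k130 k190 5 (.d k194 k66 k106 7 13))))))] .n) (.c k235 (.l (.s k215 k20 8 (.s k3 k2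
  0 (.d k169 k253 k86 13 14)))) .n))) .n))) (.c k86 (.q k4 [(.s k166 k247 12 (.s k162 k174 1 (.s
  k243 k81 12 (.d k12 k8 k89 1 14)))), (.s k12 k8 1 (.s k84 k168 13 (.s k92 k172 11 (.s k88 k80 1
  (.d k164 k244 k240 11 13)))))] (.c k8 (.l (.s k166 k247 12 (.s k162 k174 1 (.s k168 k84 13 (.s
  k169 k171 0 (.s k172 k163 2 (.s k12 k92 11 (.d k243 k89 k81 14 12)))))))) (.c k12 (.l (.s k84 k168
  13 (.s k244 k164 11 (.s k240 k248 1 (.s k160 k80 11 (.s k165 k175 2 (.s k245 k5 11 (.d k247 k246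
  k166 0 12)))))))) .n))) (.c k87 (.l (.s k168 k84 13 (.s k169 k171 0 (.s k3 k86 14 (.d k1 k2 k253 0
  13))))) (.c k168 (.q k149 [(.s k21 k213 7 (.s k128 k191 6 (.s k192 k64 7 (.d k63 k42 k106 6
  14)))), (.s k128 k191 6 (.s k192 k64 7 (.s k212 k232 5 (.s k86 k23 8 (.s k2 k254 13 (.d k3 k1 k169
  0 14)))))), (.s k21 k213 7 (.s k63 k42 6 (.s k189 k126 8 (.s k169 k129 5 (.s k1 k253 13 (.d k3 k2
  k86 0 14))))))] (.c k63 (.q k212 [(.s k192 k232 5 (.d k128 k191 k64 6 7)), (.s k86 k23 8 (.s k2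
  k254 13 (.d k3 k1 k169 0 14)))] (.c k127 (.l (.s k191 k128 6 (.s k86 k23 8 (.s k2 k254 13 (.d k3
  k1 k169 0 14))))) (.c k191 (.q k127 [(.s k64 k106 6 (.d k192 k232 k128 5 7)), (.s k86 k23 8 (.s k2
  k254 13 (.d k3 k1 k169 0 14)))] .n) .n))) (.c k192 (.q k132 [(.s k128 k191 6 (.s k140 k136 1 (.s
  k166 k183 4 (.s k162 k174 1 (.d k179 k145 k153 4 6))))), (.s k166 k183 4 (.s k4 k247 12 (.s k12 k8
  1 (.s k162 k174 1 (.d k243 k81 k89 12 14))))), (.s k128 k191 6 (.s k136 k140 1 (.s k68 k204 9 (.s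
  k102 k119 4 (.d k196 k4 k55 7 12))))), (.s k128 k191 6 (.s k166 k183 4 (.s k4 k247 12 (.s k68 k196
  7 (.d k136 k204 k140 9 1)))))] (.c k213 (.q k234 [(.s k128 k191 6 (.s k140 k136 1 (.s k166 k183 4
  (.s k162 k174 1 (.d k179 k145 k153 4 6))))), (.s k166 k183 4 (.s k4 k247 12 (.s k12 k8 1 (.s k162
  k174 1 (.d k243 k81 k89 12 14))))), (.s k128 k191 6 (.s k136 k140 1 (.s k68 k204 9 (.s k102 k119 4
  (.d k196 k4 k55 7 12))))), (.s k42 k106 7 (.s k21 k63 6 (.s k166 k183 4 (.s k4 k247 12 (.s k55 k38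
  4 (.d k196 k68 k102 7 12))))))] .n) (.c k234 (.l (.s k213 k21 7 (.s k128 k191 6 (.s k136 k140 1
  (.s k68 k204 9 (.s k102 k119 4 (.d k196 k4 k55 7 12))))))) .n))) .n))) (.c k169 (.q k4 [(.s k166
  k247 12 (.s k162 k174 1 (.s k243 k81 12 (.d k12 k8 k89 1 14)))), (.s k12 k8 1 (.s k84 k168 13 (.s
  k164 k244 11 (.s k88 k240 13 (.d k92 k80 k172 1 11))))), (.s k84 k168 13 (.s k86 k87 0 (.s k166
  k247 12 (.s k6 k246 11 (.s k7 k5 0 (.d k244 k164 k165 11 12))))))] .n) (.c k171 (.l (.s k84 k168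
  13 (.s k86 k87 0 (.s k3 k169 14 (.d k2 k1 k254 0 13))))) (.c k254 (.l (.s k168 k84 13 (.s k169
  k171 0 (.s k1 k253 13 (.d k3 k2 k86 0 14))))) .n))))))))))))

def t10_31 : T TT 256 :=
  (.f k170 k255 14 (.q k252 [(.s k84 k168 13 (.s k86 k87 0 (.s k2 k254 13 (.d k3 k1 k169 0 14))))]
  (.c k1 (.q k4 [(.s k12 k8 1 (.s k166 k247 12 (.s k162 k174 1 (.d k243 k81 k89 12 14)))), (.s k12
  k8 1 (.s k84 k168 13 (.s k92 k172 11 (.s k88 k80 1 (.d k164 k244 k240 11 13))))), (.s k84 k168 13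
  (.s k86 k87 0 (.s k166 k247 12 (.s k6 k246 11 (.s k7 k5 0 (.d k244 k164 k165 11 12))))))] (.c k9
  (.l (.s k166 k247 12 (.s k162 k174 1 (.s k243 k81 12 (.d k12 k8 k89 1 14))))) .n)) (.c k2 (.f k84
  k168 13 (.f k86 k87 0 (.f k3 k169 14 (.q k6 [(.s k12 k9 2 (.s k166 k246 11 (.d k4 k8 k247 1 12))),
  (.s k166 k246 11 (.s k4 k247 12 (.s k7 k5 0 (.d k244 k164 k165 11 12)))), (.s k12 k9 2 (.s k92
  k172 11 (.s k89 k83 2 (.d k166 k246 k243 11 14)))), (.s k12 k9 2 (.s k8 k4 1 (.s k89 k251 12 (.d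
  k92 k83 k172 2 11))))] .n)))) (.c k3 (.f k84 k168 13 (.q k204 [(.s k68 k136 9 (.s k100 k116 3 (.s
  k220 k236 3 (.d k152 k16 k48 9 13)))), (.s k136 k68 9 (.s k153 k187 4 (.s k17 k221 9 (.d k51 k34
  k102 4 14))))] (.c k68 (.l (.s k220 k236 3 (.s k16 k152 9 (.s k154 k223 10 (.s k138 k186 3 (.s
  k207 k69 10 (.d k48 k32 k101 3 14))))))) (.c k87 (.q k171 [(.s k68 k136 9 (.s k100 k116 3 (.s k220
  k236 3 (.d k152 k16 k48 9 13)))), (.s k136 k68 9 (.s k153 k187 4 (.s k17 k221 9 (.d k51 k34 k102 4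
  14))))] (.c k68 (.l (.s k220 k236 3 (.s k16 k152 9 (.s k154 k223 10 (.s k138 k186 3 (.s k207 k69
  10 (.d k48 k32 k101 3 14))))))) (.c k136 (.l (.s k220 k236 3 (.s k152 k16 9 (.s k100 k48 13 (.s
  k68 k116 3 (.s k102 k119 4 (.s k34 k238 9 (.d k51 k17 k153 4 14)))))))) .n))) (.c k136 (.l (.s
  k220 k236 3 (.s k152 k16 9 (.s k100 k48 13 (.s k68 k116 3 (.s k102 k119 4 (.s k34 k238 9 (.d k51
  k17 k153 4 14)))))))) (.c k171 (.l (.s k87 k86 0 (.s k68 k136 9 (.s k100 k116 3 (.s k152 k48 13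
  (.d k220 k236 k16 3 9)))))) .n)))))) (.c k84 (.q k150 [(.s k20 k215 8 (.s k60 k40 5 (.s k130 k190
  5 (.d k195 k65 k105 8 14)))), (.s k130 k190 5 (.s k195 k65 8 (.s k214 k233 6 (.s k86 k22 7 (.s k2
  k254 13 (.d k3 k1 k169 0 14)))))), (.s k20 k215 8 (.s k60 k40 5 (.s k188 k124 7 (.s k169 k131 6
  (.s k1 k253 13 (.d k3 k2 k86 0 14))))))] (.c k60 (.q k166 [(.s k4 k247 12 (.s k162 k174 1 (.s k243
  k81 12 (.d k12 k8 k89 1 14)))), (.s k174 k162 1 (.s k182 k134 3 (.s k190 k130 5 (.s k142 k158 3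
  (.d k178 k186 k154 1 5))))), (.s k4 k247 12 (.s k20 k215 8 (.s k52 k36 3 (.s k134 k182 3 (.d k199
  k69 k101 8 12)))))] (.c k125 (.l (.s k190 k130 5 (.s k4 k247 12 (.s k12 k8 1 (.s k162 k174 1 (.d
  k243 k81 k89 12 14)))))) (.c k190 (.q k125 [(.s k4 k247 12 (.s k12 k8 1 (.s k243 k89 14 (.d k162
  k174 k81 1 12)))), (.s k182 k134 3 (.s k215 k20 8 (.s k247 k4 12 (.s k52 k117 8 (.d k199 k231 k101
  3 12))))), (.s k65 k105 5 (.s k130 k195 8 (.s k134 k182 3 (.s k142 k138 1 (.s k162 k174 1 (.d k178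
  k146 k154 3 5))))))] .n) .n))) (.c k195 (.q k1 [(.s k169 k253 13 (.d k3 k2 k86 0 14)), (.s k130
  k190 5 (.s k169 k253 13 (.s k131 k188 6 (.s k128 k129 0 (.s k171 k168 0 (.d k191 k151 k149 5
  6)))))), (.s k2 k3 0 (.s k86 k254 13 (.s k22 k214 7 (.s k42 k62 5 (.s k21 k63 6 (.d k20 k23 k215 0
  8))))))] (.c k215 (.q k235 [(.s k169 k253 13 (.d k3 k2 k86 0 14)), (.s k40 k105 8 (.s k60 k20 5
  (.s k169 k253 13 (.d k188 k131 k124 6 7)))), (.s k2 k3 0 (.s k86 k254 13 (.s k22 k214 7 (.s k62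
  k42 5 (.s k130 k190 5 (.d k194 k66 k106 7 13))))))] .n) (.c k235 (.l (.s k215 k20 8 (.s k3 k2 0
  (.d k169 k253 k86 13 14)))) .n))) .n))) (.c k86 (.q k4 [(.s k166 k247 12 (.s k162 k174 1 (.s k243
  k81 12 (.d k12 k8 k89 1 14)))), (.s k12 k8 1 (.s k84 k168 13 (.s k92 k172 11 (.s k88 k80 1 (.d
  k164 k244 k240 11 13)))))] (.c k8 (.l (.s k166 k247 12 (.s k162 k174 1 (.s k168 k84 13 (.s k169
  k171 0 (.s k172 k163 2 (.s k12 k92 11 (.d k243 k89 k81 14 12)))))))) (.c k12 (.l (.s k84 k168 13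
  (.s k244 k164 11 (.s k240 k248 1 (.s k160 k80 11 (.s k165 k175 2 (.s k245 k5 11 (.d k247 k246 k166
  0 12)))))))) .n))) (.c k87 (.l (.s k168 k84 13 (.s k169 k171 0 (.s k3 k86 14 (.d k1 k2 k253 0
  13))))) (.c k168 (.q k154 [(.s k138 k186 3 (.s k207 k69 10 (.s k48 k101 14 (.d k16 k32 k223 3
  10)))), (.s k16 k223 10 (.s k48 k32 3 (.s k184 k116 9 (.s k169 k139 4 (.s k1 k253 13 (.d k3 k2 k86
  0 14)))))), (.s k138 k186 3 (.s k207 k69 10 (.s k222 k237 4 (.s k86 k18 9 (.s k2 k254 13 (.d k3 k1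
  k169 0 14))))))] (.c k48 (.q k153 [(.s k17 k221 9 (.s k51 k34 4 (.s k136 k187 4 (.d k204 k68 k102
  9 14)))), (.s k16 k223 10 (.s k152 k155 0 (.s k220 k84 9 (.s k19 k86 10 (.d k17 k18 k221 0 9))))),
  (.s k16 k223 10 (.s k136 k187 4 (.s k152 k155 0 (.s k204 k68 9 (.d k220 k236 k84 3 9)))))] (.c
  k117 (.l (.s k186 k138 3 (.s k17 k221 9 (.s k51 k34 4 (.s k136 k187 4 (.d k204 k68 k102 9 14))))))
  (.c k186 (.q k117 [(.s k17 k221 9 (.s k51 k34 4 (.s k204 k102 14 (.d k136 k187 k68 4 9)))), (.s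
  k16 k223 10 (.s k152 k155 0 (.s k220 k84 9 (.s k19 k86 10 (.d k17 k18 k221 0 9))))), (.s k16 k223
  10 (.s k136 k187 4 (.s k152 k155 0 (.s k204 k68 9 (.d k220 k236 k84 3 9)))))] .n) .n))) (.c k207
  (.f k223 k16 10 (.q k149 [(.s k21 k213 7 (.s k63 k42 6 (.s k128 k191 6 (.d k192 k64 k106 7 14)))),
  (.s k159 k144 2 (.s k186 k138 3 (.s k191 k128 6 (.s k143 k175 3 (.d k176 k181 k165 2 6))))), (.s
  k21 k213 7 (.s k63 k42 6 (.s k189 k126 8 (.s k169 k129 5 (.s k1 k253 13 (.d k3 k2 k86 0 14))))))]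
  (.c k21 (.q k26 [(.s k128 k191 6 (.s k138 k186 3 (.s k143 k133 2 (.s k176 k165 6 (.d k144 k159
  k160 2 3))))), (.s k90 k218 7 (.s k80 k95 2 (.s k240 k160 11 (.s k248 k244 1 (.s k169 k11 12 (.s
  k1 k253 13 (.d k3 k2 k86 0 14)))))))] (.c k160 (.l (.s k159 k144 2 (.s k186 k138 3 (.s k191 k128 6
  (.s k176 k181 2 (.d k143 k175 k165 3 6)))))) .n)) (.c k26 (.l (.s k21 k213 7 (.s k128 k191 6 (.s
  k192 k64 7 (.d k63 k42 k106 6 14))))) .n)))) .n))) (.c k169 (.q k4 [(.s k166 k247 12 (.s k162 k174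
  1 (.s k243 k81 12 (.d k12 k8 k89 1 14)))), (.s k12 k8 1 (.s k84 k168 13 (.s k164 k244 11 (.s k88
  k240 13 (.d k92 k80 k172 1 11))))), (.s k84 k168 13 (.s k86 k87 0 (.s k166 k247 12 (.s k6 k246 11
  (.s k7 k5 0 (.d k244 k164 k165 11 12))))))] .n) (.c k171 (.l (.s k84 k168 13 (.s k86 k87 0 (.s k3
  k169 14 (.d k2 k1 k254 0 13))))) (.c k254 (.l (.s k168 k84 13 (.s k169 k171 0 (.s k1 k253 13 (.d
  k3 k2 k86 0 14))))) .n))))))))))))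

def t10_34 : T TT 256 :=
  (.f k170 k255 14 (.q k252 [(.s k84 k168 13 (.s k86 k87 0 (.s k2 k254 13 (.d k3 k1 k169 0 14))))]
  (.c k1 (.q k4 [(.s k12 k8 1 (.s k166 k247 12 (.s k162 k174 1 (.d k243 k81 k89 12 14)))), (.s k12
  k8 1 (.s k84 k168 13 (.s k92 k172 11 (.s k88 k80 1 (.d k164 k244 k240 11 13))))), (.s k84 k168 13
  (.s k86 k87 0 (.s k166 k247 12 (.s k6 k246 11 (.s k7 k5 0 (.d k244 k164 k165 11 12))))))] (.c k9
  (.l (.s k166 k247 12 (.s k162 k174 1 (.s k243 k81 12 (.d k12 k8 k89 1 14))))) .n)) (.c k2 (.f k84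
  k168 13 (.f k86 k87 0 (.f k3 k169 14 (.q k6 [(.s k12 k9 2 (.s k166 k246 11 (.d k4 k8 k247 1 12))),
  (.s k166 k246 11 (.s k4 k247 12 (.s k7 k5 0 (.d k244 k164 k165 11 12)))), (.s k12 k9 2 (.s k92
  k172 11 (.s k89 k83 2 (.d k166 k246 k243 11 14)))), (.s k12 k9 2 (.s k8 k4 1 (.s k89 k251 12 (.d
  k92 k83 k172 2 11))))] (.c k18 (.q k50 [(.s k12 k9 2 (.s k166 k246 11 (.d k4 k8 k247 1 12))), (.s
  k166 k246 11 (.s k4 k247 12 (.s k7 k5 0 (.d k244 k164 k165 11 12)))), (.s k12 k9 2 (.s k92 k172 11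
  (.s k89 k83 2 (.d k166 k246 k243 11 14)))), (.s k12 k9 2 (.s k8 k4 1 (.s k89 k251 12 (.d k92 k83
  k172 2 11))))] .n) (.c k50 (.q k18 [(.s k12 k9 2 (.s k166 k246 11 (.d k4 k8 k247 1 12))), (.s k48
  k33 4 (.s k154 k222 9 (.d k16 k32 k223 3 10)))] .n) .n)))))) (.c k3 (.f k84 k168 13 (.q k4 [(.s
  k166 k247 12 (.s k162 k174 1 (.s k243 k81 12 (.d k12 k8 k89 1 14)))), (.s k244 k164 11 (.s k240
  k248 1 (.s k160 k80 11 (.s k165 k175 2 (.d k86 k87 k7 0 12)))))] (.c k8 (.l (.s k166 k247 12 (.s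
  k162 k174 1 (.s k243 k81 12 (.s k246 k249 2 (.d k86 k87 k6 0 11)))))) (.c k87 (.q k171 [(.s k12 k8
  1 (.s k92 k172 11 (.s k88 k80 1 (.d k164 k244 k240 11 13)))), (.s k166 k247 12 (.s k162 k174 1 (.s
  k243 k81 12 (.d k12 k8 k89 1 14)))), (.s k244 k164 11 (.s k247 k166 12 (.s k245 k246 0 (.s k165 k5
  11 (.s k160 k175 2 (.d k240 k248 k80 1 11))))))] .n) (.c k171 (.l (.s k87 k86 0 (.s k12 k8 1 (.s
  k92 k172 11 (.s k88 k80 1 (.d k164 k244 k240 11 13)))))) .n))))) (.c k84 (.q k101 [(.s k32 k239 10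
  (.s k48 k16 3 (.s k69 k117 3 (.d k207 k138 k154 10 14)))), (.s k69 k117 3 (.s k207 k138 10 (.s
  k237 k222 4 (.s k169 k33 9 (.s k1 k253 13 (.d k3 k2 k86 0 14)))))), (.s k32 k239 10 (.s k48 k16 3
  (.s k116 k184 9 (.s k86 k71 4 (.s k2 k254 13 (.d k3 k1 k169 0 14))))))] (.c k32 (.l (.s k69 k117 3
  (.s k207 k138 10 (.s k48 k154 14 (.s k116 k184 9 (.s k86 k71 4 (.s k2 k254 13 (.d k3 k169 k1 14
  0)))))))) (.c k48 (.q k80 [(.s k90 k95 2 (.s k112 k79 6 (.s k64 k96 3 (.s k117 k69 3 (.d k127 k122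
  k106 2 6))))), (.s k90 k95 2 (.s k240 k160 11 (.s k248 k244 1 (.s k169 k11 12 (.s k1 k253 13 (.d
  k3 k2 k86 0 14)))))), (.s k32 k239 10 (.s k160 k240 11 (.s k96 k224 7 (.s k106 k111 2 (.d k64 k112
  k127 3 6)))))] (.c k117 (.q k186 [(.s k90 k95 2 (.s k138 k154 3 (.s k207 k69 10 (.s k240 k160 11
  (.s k229 k218 6 (.d k165 k15 k37 14 7)))))), (.s k32 k239 10 (.s k160 k240 11 (.s k96 k224 7 (.s
  k106 k111 2 (.d k64 k112 k127 3 6))))), (.s k90 k95 2 (.s k154 k138 3 (.s k16 k223 10 (.s k26 k218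
  7 (.s k31 k21 2 (.d k208 k144 k149 7 10))))))] (.c k175 (.l (.s k32 k239 10 (.s k160 k240 11 (.s
  k96 k224 7 (.s k112 k64 3 (.d k90 k95 k79 2 6)))))) (.c k207 (.l (.s k90 k95 2 (.s k112 k79 6 (.s
  k96 k64 3 (.s k160 k240 11 (.d k32 k224 k239 7 10)))))) .n))) (.c k175 (.l (.s k32 k239 10 (.s
  k160 k240 11 (.s k96 k224 7 (.s k112 k64 3 (.d k90 k95 k79 2 6)))))) (.c k186 (.l (.s k117 k69 3
  (.s k90 k95 2 (.s k112 k79 6 (.s k64 k96 3 (.d k127 k122 k106 2 6)))))) .n)))) (.c k207 (.q k105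
  [(.s k40 k235 8 (.s k65 k125 5 (.s k195 k130 8 (.d k60 k20 k150 5 14)))), (.s k109 k97 1 (.s k117
  k69 3 (.s k125 k65 5 (.s k77 k93 3 (.d k113 k121 k89 1 5))))), (.s k109 k97 1 (.s k235 k40 8 (.s
  k239 k32 10 (.s k44 k174 8 (.d k227 k231 k166 1 10)))))] (.c k223 (.l (.s k239 k32 10 (.s k40 k235
  8 (.s k60 k20 5 (.s k65 k125 5 (.d k195 k130 k150 8 14)))))) (.c k239 (.q k223 [(.s k65 k125 5 (.s
  k195 k130 8 (.s k60 k150 14 (.d k40 k20 k235 5 8)))), (.s k109 k97 1 (.s k117 k69 3 (.s k125 k65 5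
  (.s k77 k93 3 (.d k113 k121 k89 1 5))))), (.s k16 k154 10 (.s k32 k48 3 (.s k40 k235 8 (.s k44 k36
  1 (.s k97 k109 1 (.d k227 k162 k166 8 10))))))] .n) .n))) .n)))) (.c k86 (.q k4 [(.s k166 k247 12
  (.s k162 k174 1 (.s k243 k81 12 (.d k12 k8 k89 1 14)))), (.s k12 k8 1 (.s k84 k168 13 (.s k92 k172
  11 (.s k88 k80 1 (.d k164 k244 k240 11 13)))))] (.c k8 (.l (.s k166 k247 12 (.s k162 k174 1 (.s
  k168 k84 13 (.s k169 k171 0 (.s k172 k163 2 (.s k12 k92 11 (.d k243 k89 k81 14 12)))))))) (.c k12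
  (.l (.s k84 k168 13 (.s k244 k164 11 (.s k240 k248 1 (.s k160 k80 11 (.s k165 k175 2 (.s k245 k5
  11 (.d k247 k246 k166 0 12)))))))) .n))) (.c k87 (.l (.s k168 k84 13 (.s k169 k171 0 (.s k3 k86 14
  (.d k1 k2 k253 0 13))))) (.c k168 (.q k149 [(.s k21 k213 7 (.s k128 k191 6 (.s k192 k64 7 (.d k63
  k42 k106 6 14)))), (.s k128 k191 6 (.s k192 k64 7 (.s k212 k232 5 (.s k86 k23 8 (.s k2 k254 13 (.d
  k3 k1 k169 0 14)))))), (.s k21 k213 7 (.s k63 k42 6 (.s k189 k126 8 (.s k169 k129 5 (.s k1 k253 13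
  (.d k3 k2 k86 0 14))))))] (.c k63 (.q k169 [(.s k1 k253 13 (.d k3 k2 k86 0 14)), (.s k3 k86 14 (.s
  k129 k189 5 (.s k192 k66 8 (.d k128 k191 k64 6 7)))), (.s k1 k253 13 (.s k21 k213 7 (.s k61 k41 5
  (.s k129 k189 5 (.d k193 k65 k105 7 13)))))] (.c k127 (.l (.s k191 k128 6 (.s k1 k253 13 (.d k3 k2
  k86 0 14)))) (.c k191 (.q k127 [(.s k1 k253 13 (.d k3 k2 k86 0 14)), (.s k3 k86 14 (.s k64 k106 6
  (.s k129 k189 5 (.d k192 k66 k128 8 7)))), (.s k1 k253 13 (.s k21 k213 7 (.s k61 k41 5 (.s k129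
  k189 5 (.d k193 k65 k105 7 13)))))] .n) .n))) (.c k192 (.q k153 [(.s k17 k221 9 (.s k145 k157 1
  (.s k209 k81 7 (.s k29 k89 9 (.d k21 k213 k25 7 1))))), (.s k136 k187 4 (.s k204 k68 9 (.s k220
  k236 3 (.s k86 k19 10 (.s k2 k254 13 (.d k3 k1 k169 0 14))))))] (.c k204 (.l (.s k128 k191 6 (.s
  k136 k187 4 (.s k140 k132 1 (.s k145 k157 1 (.d k179 k162 k166 4 6)))))) (.c k213 (.q k234 [(.s
  k42 k106 7 (.s k63 k21 6 (.s k136 k187 4 (.s k157 k145 1 (.d k204 k68 k110 9 12))))), (.s k17 k221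
  9 (.s k128 k191 6 (.s k145 k157 1 (.s k162 k179 4 (.d k81 k209 k243 7 12))))), (.s k106 k42 7 (.s
  k136 k187 4 (.s k200 k59 12 (.s k8 k72 7 (.d k251 k217 k89 4 12)))))] (.c k187 (.l (.s k17 k221 9
  (.s k42 k106 7 (.s k21 k63 6 (.s k25 k29 1 (.s k8 k59 4 (.d k89 k217 k251 7 12))))))) .n)) (.c
  k234 (.l (.s k213 k21 7 (.s k157 k145 1 (.s k221 k17 9 (.s k29 k93 7 (.d k209 k217 k89 1 9))))))
  .n)))) .n))) (.c k169 (.q k4 [(.s k166 k247 12 (.s k162 k174 1 (.s k243 k81 12 (.d k12 k8 k89 1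
  14)))), (.s k12 k8 1 (.s k84 k168 13 (.s k164 k244 11 (.s k88 k240 13 (.d k92 k80 k172 1 11))))),
  (.s k84 k168 13 (.s k86 k87 0 (.s k166 k247 12 (.s k6 k246 11 (.s k7 k5 0 (.d k244 k164 k165 11
  12))))))] .n) (.c k171 (.l (.s k84 k168 13 (.s k86 k87 0 (.s k3 k169 14 (.d k2 k1 k254 0 13)))))
  (.c k254 (.l (.s k168 k84 13 (.s k169 k171 0 (.s k1 k253 13 (.d k3 k2 k86 0 14))))) .n))))))))))))

def t10_35 : T TT 256 :=
  (.f k170 k255 14 (.q k243 [(.s k81 k162 12 (.s k89 k93 1 (.s k8 k251 12 (.d k12 k4 k166 1 14))))]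
  (.c k4 (.q k1 [(.s k3 k2 0 (.s k169 k253 13 (.s k252 k86 14 (.d k168 k171 k84 0 13)))), (.s k3 k2
  0 (.s k81 k162 12 (.s k83 k163 11 (.s k82 k80 0 (.d k161 k241 k240 11 12))))), (.s k81 k162 12 (.s
  k89 k93 1 (.s k169 k253 13 (.s k9 k249 11 (.s k13 k5 1 (.d k241 k161 k165 11 13))))))] (.c k6 (.l
  (.s k169 k253 13 (.s k168 k171 0 (.s k252 k84 13 (.d k3 k2 k86 0 14))))) .n)) (.c k8 (.f k81 k162
  12 (.f k89 k93 1 (.f k12 k166 14 (.q k9 [(.s k3 k6 2 (.s k169 k249 11 (.d k1 k2 k253 0 13))), (.s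
  k169 k249 11 (.s k1 k253 13 (.s k13 k5 1 (.d k241 k161 k165 11 13)))), (.s k3 k6 2 (.s k83 k163 11
  (.s k86 k92 2 (.d k169 k249 k252 11 14)))), (.s k3 k6 2 (.s k2 k1 0 (.s k86 k254 13 (.d k83 k92
  k163 2 11))))] .n)))) (.c k12 (.f k81 k162 12 (.q k48 [(.s k32 k16 3 (.s k101 k239 10 (.s k69 k117
  3 (.d k207 k138 k154 10 14)))), (.s k113 k178 8 (.s k65 k97 3 (.s k105 k125 5 (.s k40 k235 8 (.s
  k60 k20 5 (.d k195 k130 k150 8 14))))))] (.c k32 (.l (.s k113 k178 8 (.s k97 k65 3 (.s k146 k195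
  12 (.s k16 k211 8 (.s k154 k223 10 (.s k138 k186 3 (.d k207 k69 k101 10 14)))))))) (.c k93 (.q
  k174 [(.s k32 k16 3 (.s k101 k239 10 (.s k69 k117 3 (.d k207 k138 k154 10 14)))), (.s k113 k178 8
  (.s k65 k97 3 (.s k105 k125 5 (.s k40 k235 8 (.s k60 k20 5 (.d k195 k130 k150 8 14))))))] (.c k32
  (.l (.s k113 k178 8 (.s k97 k65 3 (.s k146 k195 12 (.s k16 k211 8 (.s k154 k223 10 (.s k138 k186 3
  (.d k207 k69 k101 10 14)))))))) .n)) (.c k174 (.l (.s k93 k89 1 (.s k16 k32 3 (.s k113 k178 8 (.s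
  k97 k65 3 (.d k146 k211 k195 8 12)))))) .n))))) (.c k81 (.q k86 [(.s k2 k254 13 (.s k84 k87 0 (.s
  k252 k168 13 (.d k3 k1 k169 0 14)))), (.s k2 k254 13 (.s k3 k1 0 (.s k83 k163 11 (.s k89 k92 2 (.s
  k8 k251 12 (.d k12 k4 k166 1 14)))))), (.s k84 k87 0 (.s k252 k168 13 (.s k3 k169 14 (.s k83 k163
  11 (.s k89 k92 2 (.s k8 k251 12 (.d k12 k166 k4 14 1)))))))] (.c k3 (.f k87 k84 0 (.q k19 [(.s
  k153 k220 10 (.s k223 k155 9 (.s k16 k154 10 (.d k17 k18 k221 0 9)))), (.s k153 k220 10 (.s k136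
  k187 4 (.s k204 k68 9 (.s k51 k102 14 (.d k17 k34 k221 4 9))))), (.s k2 k254 13 (.s k223 k155 9
  (.s k154 k16 10 (.s k18 k222 9 (.s k50 k34 3 (.s k138 k186 3 (.d k206 k70 k102 9 13)))))))] (.c
  k16 (.l (.s k155 k223 9 (.s k153 k220 10 (.s k152 k154 0 (.s k136 k187 4 (.s k204 k68 9 (.s k51
  k102 14 (.d k17 k221 k34 9 4)))))))) (.c k152 (.l (.s k220 k153 10 (.s k223 k155 9 (.s k154 k16 10
  (.d k222 k221 k18 0 9))))) (.c k220 (.l (.s k223 k155 9 (.s k16 k154 10 (.s k17 k18 0 (.s k51 k34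
  4 (.s k153 k221 9 (.s k136 k187 4 (.d k204 k68 k102 9 14)))))))) .n))))) (.c k252 (.q k128 [(.s
  k192 k64 7 (.s k149 k191 6 (.s k63 k106 14 (.d k21 k42 k213 6 7)))), (.s k64 k192 7 (.s k84 k87 0
  (.s k124 k104 5 (.s k67 k105 6 (.s k66 k65 0 (.d k106 k126 k127 5 6)))))), (.s k84 k87 0 (.s k149
  k191 6 (.s k212 k23 8 (.s k20 k148 7 (.s k213 k21 7 (.d k215 k214 k150 0 8))))))] (.c k127 (.l (.s
  k192 k64 7 (.s k149 k191 6 (.s k63 k106 14 (.d k21 k42 k213 6 7))))) (.c k213 (.l (.s k149 k191 6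
  (.s k23 k212 8 (.s k192 k64 7 (.s k63 k106 14 (.s k3 k43 5 (.d k2 k1 k254 0 13))))))) (.c k253 (.l
  (.s k254 k2 13 (.s k149 k191 6 (.s k21 k213 7 (.s k63 k42 6 (.d k192 k64 k106 7 14)))))) (.c k254
  (.q k253 [(.s k192 k64 7 (.s k149 k191 6 (.s k63 k106 14 (.d k21 k42 k213 6 7)))), (.s k1 k169 13
  (.s k3 k2 0 (.s k83 k163 11 (.s k89 k92 2 (.s k8 k251 12 (.d k12 k166 k4 14 1))))))] .n) .n)))))
  .n))) (.c k89 (.q k1 [(.s k169 k253 13 (.s k168 k171 0 (.s k252 k84 13 (.d k3 k2 k86 0 14)))), (.s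
  k3 k2 0 (.s k81 k162 12 (.s k83 k163 11 (.s k82 k80 0 (.d k161 k241 k240 11 12)))))] (.c k2 (.l
  (.s k162 k81 12 (.s k166 k174 1 (.s k169 k253 13 (.s k163 k172 2 (.s k3 k83 11 (.s k168 k171 0 (.d
  k252 k86 k84 14 13)))))))) (.c k3 (.l (.s k81 k162 12 (.s k241 k161 11 (.s k240 k242 0 (.s k160
  k80 11 (.s k165 k175 2 (.s k245 k5 11 (.d k253 k249 k169 1 13)))))))) .n))) (.c k93 (.l (.s k162
  k81 12 (.s k166 k174 1 (.s k12 k89 14 (.d k4 k8 k247 1 12))))) (.c k162 (.q k86 [(.s k2 k254 13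
  (.s k3 k1 0 (.s k84 k87 0 (.d k252 k168 k169 13 14)))), (.s k84 k87 0 (.s k252 k168 13 (.s k246
  k249 2 (.s k166 k6 11 (.s k4 k247 12 (.d k12 k8 k89 1 14)))))), (.s k2 k254 13 (.s k3 k1 0 (.s k83
  k163 11 (.s k89 k92 2 (.s k8 k251 12 (.d k12 k4 k166 1 14))))))] (.c k2 (.l (.s k84 k87 0 (.s k252
  k168 13 (.s k3 k169 14 (.s k83 k163 11 (.s k89 k92 2 (.s k8 k251 12 (.d k12 k166 k4 14 1))))))))
  (.c k3 (.f k87 k84 0 (.q k19 [(.s k220 k153 10 (.s k223 k155 9 (.s k154 k16 10 (.d k222 k221 k18 0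
  9)))), (.s k153 k220 10 (.s k136 k187 4 (.s k204 k68 9 (.s k51 k102 14 (.d k17 k34 k221 4 9))))),
  (.s k2 k254 13 (.s k223 k155 9 (.s k154 k16 10 (.s k18 k222 9 (.s k50 k34 3 (.s k138 k186 3 (.d
  k206 k70 k102 9 13)))))))] (.c k16 (.l (.s k155 k223 9 (.s k153 k220 10 (.s k152 k154 0 (.s k136
  k187 4 (.s k204 k68 9 (.s k51 k102 14 (.d k17 k221 k34 9 4)))))))) (.c k152 (.l (.s k220 k153 10
  (.s k223 k155 9 (.s k154 k16 10 (.d k222 k221 k18 0 9))))) (.c k220 (.l (.s k223 k155 9 (.s k16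
  k154 10 (.s k17 k18 0 (.s k51 k34 4 (.s k153 k221 9 (.s k136 k187 4 (.d k204 k68 k102 9 14))))))))
  .n))))) (.c k252 (.q k106 [(.s k42 k234 7 (.s k63 k21 6 (.s k64 k127 6 (.d k192 k128 k149 7
  14)))), (.s k87 k84 0 (.s k126 k66 5 (.s k127 k64 6 (.s k67 k107 5 (.d k124 k125 k105 0 6))))),
  (.s k126 k66 5 (.s k234 k42 7 (.s k254 k2 13 (.s k62 k190 7 (.d k194 k214 k150 5 13)))))] (.c k253
  (.l (.s k254 k2 13 (.s k42 k234 7 (.s k63 k21 6 (.s k64 k127 6 (.d k192 k128 k149 7 14)))))) (.c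
  k254 (.q k253 [(.s k42 k234 7 (.s k63 k21 6 (.s k64 k127 6 (.d k192 k128 k149 7 14)))), (.s k87
  k84 0 (.s k126 k66 5 (.s k127 k64 6 (.s k67 k107 5 (.d k124 k125 k105 0 6))))), (.s k1 k169 13 (.s
  k2 k3 0 (.s k42 k234 7 (.s k62 k22 5 (.s k66 k126 5 (.d k194 k130 k150 7 13))))))] .n) .n)))
  .n)))) (.c k166 (.q k1 [(.s k169 k253 13 (.s k168 k171 0 (.s k252 k84 13 (.d k3 k2 k86 0 14)))),
  (.s k3 k2 0 (.s k81 k162 12 (.s k161 k241 11 (.s k82 k240 12 (.d k83 k80 k163 0 11))))), (.s k81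
  k162 12 (.s k89 k93 1 (.s k169 k253 13 (.s k9 k249 11 (.s k13 k5 1 (.d k241 k161 k165 11 13))))))]
  .n) (.c k174 (.l (.s k81 k162 12 (.s k89 k93 1 (.s k12 k166 14 (.d k8 k4 k251 1 12))))) (.c k251
  (.l (.s k162 k81 12 (.s k166 k174 1 (.s k4 k247 12 (.d k12 k8 k89 1 14))))) .n))))))))))))

def t10_38 : T TT 256 :=
  (.f k170 k255 14 (.q k252 [(.s k84 k168 13 (.s k86 k87 0 (.s k2 k254 13 (.d k3 k1 k169 0 14))))]
  (.c k1 (.q k4 [(.s k12 k8 1 (.s k166 k247 12 (.s k162 k174 1 (.d k243 k81 k89 12 14)))), (.s k12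
  k8 1 (.s k84 k168 13 (.s k92 k172 11 (.s k88 k80 1 (.d k164 k244 k240 11 13))))), (.s k84 k168 13
  (.s k86 k87 0 (.s k166 k247 12 (.s k6 k246 11 (.s k7 k5 0 (.d k244 k164 k165 11 12))))))] (.c k9
  (.l (.s k166 k247 12 (.s k162 k174 1 (.s k243 k81 12 (.d k12 k8 k89 1 14))))) .n)) (.c k2 (.f k84
  k168 13 (.f k86 k87 0 (.f k3 k169 14 (.q k6 [(.s k12 k9 2 (.s k166 k246 11 (.d k4 k8 k247 1 12))),
  (.s k166 k246 11 (.s k4 k247 12 (.s k7 k5 0 (.d k244 k164 k165 11 12)))), (.s k12 k9 2 (.s k92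
  k172 11 (.s k89 k83 2 (.d k166 k246 k243 11 14)))), (.s k12 k9 2 (.s k8 k4 1 (.s k89 k251 12 (.d
  k92 k83 k172 2 11))))] .n)))) (.c k3 (.f k168 k84 13 (.q k192 [(.s k64 k128 7 (.s k106 k127 6 (.s
  k42 k234 7 (.d k63 k21 k149 6 14)))), (.s k232 k212 5 (.s k40 k104 7 (.s k105 k235 8 (.s k65 k125
  5 (.s k195 k130 8 (.d k60 k20 k150 5 14))))))] (.c k64 (.l (.s k232 k212 5 (.s k104 k40 7 (.s k148
  k60 13 (.s k128 k188 5 (.s k149 k191 6 (.s k21 k213 7 (.d k63 k42 k106 6 14)))))))) (.c k87 (.l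
  (.s k171 k169 0 (.s k64 k128 7 (.s k106 k127 6 (.s k42 k234 7 (.d k63 k21 k149 6 14)))))) (.c k171
  (.q k87 [(.s k64 k128 7 (.s k106 k127 6 (.s k42 k234 7 (.d k63 k21 k149 6 14)))), (.s k232 k212 5
  (.s k40 k104 7 (.s k105 k235 8 (.s k65 k125 5 (.s k195 k130 8 (.d k60 k20 k150 5 14))))))] (.c k64
  (.l (.s k232 k212 5 (.s k104 k40 7 (.s k148 k60 13 (.s k128 k188 5 (.s k149 k191 6 (.s k21 k213 7
  (.d k63 k42 k106 6 14)))))))) .n)) .n))))) (.c k84 (.q k153 [(.s k17 k221 9 (.s k51 k34 4 (.s k136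
  k187 4 (.d k204 k68 k102 9 14)))), (.s k136 k187 4 (.s k204 k68 9 (.s k220 k236 3 (.s k86 k19 10
  (.s k2 k254 13 (.d k3 k1 k169 0 14)))))), (.s k17 k221 9 (.s k51 k34 4 (.s k185 k118 10 (.s k169
  k137 3 (.s k1 k253 13 (.d k3 k2 k86 0 14))))))] (.c k51 (.f k187 k136 4 (.q k25 [(.s k89 k217 7
  (.s k8 k251 12 (.s k81 k93 1 (.s k243 k162 12 (.d k12 k4 k166 1 14))))), (.s k17 k221 9 (.s k21
  k29 1 (.s k42 k63 6 (.s k59 k8 4 (.d k106 k200 k234 12 7))))), (.s k17 k221 9 (.s k29 k21 1 (.s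
  k89 k217 7 (.s k81 k93 1 (.d k209 k145 k149 7 9))))), (.s k17 k221 9 (.s k89 k217 7 (.s k8 k251 12
  (.s k42 k59 4 (.d k21 k63 k29 6 1)))))] .n)) (.c k204 (.q k169 [(.s k1 k253 13 (.d k3 k2 k86 0
  14)), (.s k185 k137 3 (.s k51 k118 10 (.d k17 k221 k34 9 4)))] (.c k3 (.l (.s k1 k253 13 (.s k136
  k187 4 (.s k137 k185 3 (.s k69 k205 9 (.d k138 k207 k139 10 0)))))) (.c k221 (.q k238 [(.s k3 k86
  14 (.d k1 k2 k253 0 13)), (.s k34 k102 9 (.s k51 k17 4 (.d k185 k137 k118 3 10)))] .n) (.c k238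
  (.l (.s k221 k17 9 (.s k1 k253 13 (.d k3 k2 k86 0 14)))) .n)))) .n))) (.c k86 (.q k4 [(.s k166
  k247 12 (.s k162 k174 1 (.s k243 k81 12 (.d k12 k8 k89 1 14)))), (.s k12 k8 1 (.s k84 k168 13 (.s
  k92 k172 11 (.s k88 k80 1 (.d k164 k244 k240 11 13)))))] (.c k8 (.l (.s k166 k247 12 (.s k162 k174
  1 (.s k168 k84 13 (.s k169 k171 0 (.s k172 k163 2 (.s k12 k92 11 (.d k243 k89 k81 14 12))))))))
  (.c k12 (.l (.s k84 k168 13 (.s k244 k164 11 (.s k240 k248 1 (.s k160 k80 11 (.s k165 k175 2 (.s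
  k245 k5 11 (.d k247 k246 k166 0 12)))))))) .n))) (.c k87 (.l (.s k168 k84 13 (.s k169 k171 0 (.s
  k3 k86 14 (.d k1 k2 k253 0 13))))) (.c k168 (.q k149 [(.s k21 k213 7 (.s k128 k191 6 (.s k192 k64
  7 (.d k63 k42 k106 6 14)))), (.s k128 k191 6 (.s k192 k64 7 (.s k212 k232 5 (.s k86 k23 8 (.s k2
  k254 13 (.d k3 k1 k169 0 14)))))), (.s k21 k213 7 (.s k63 k42 6 (.s k189 k126 8 (.s k169 k129 5
  (.s k1 k253 13 (.d k3 k2 k86 0 14))))))] (.c k63 (.q k150 [(.s k151 k148 0 (.s k190 k130 5 (.s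
  k191 k128 6 (.s k188 k189 0 (.d k131 k171 k169 5 6))))), (.s k20 k215 8 (.s k60 k40 5 (.s k130
  k190 5 (.d k195 k65 k105 8 14)))), (.s k20 k215 8 (.s k21 k213 7 (.s k23 k22 0 (.s k148 k151 0 (.d
  k212 k84 k86 7 8)))))] (.c k127 (.l (.s k191 k128 6 (.s k20 k215 8 (.s k60 k40 5 (.s k130 k190 5
  (.d k195 k65 k105 8 14)))))) (.c k191 (.q k127 [(.s k20 k215 8 (.s k60 k40 5 (.s k195 k105 14 (.d
  k130 k190 k65 5 8)))), (.s k20 k215 8 (.s k21 k213 7 (.s k23 k22 0 (.s k148 k151 0 (.d k212 k84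
  k86 7 8))))), (.s k64 k106 6 (.s k130 k190 5 (.s k148 k151 0 (.s k192 k128 7 (.s k60 k104 13 (.d
  k195 k105 k65 14 8))))))] (.c k195 (.l (.s k64 k106 6 (.s k192 k128 7 (.s k212 k232 5 (.s k213 k21
  7 (.d k215 k214 k20 0 8)))))) .n)) .n))) (.c k192 (.q k132 [(.s k128 k191 6 (.s k140 k136 1 (.s
  k166 k183 4 (.s k162 k174 1 (.d k179 k145 k153 4 6))))), (.s k166 k183 4 (.s k4 k247 12 (.s k12 k8
  1 (.s k162 k174 1 (.d k243 k81 k89 12 14))))), (.s k128 k191 6 (.s k136 k140 1 (.s k68 k204 9 (.s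
  k102 k119 4 (.d k196 k4 k55 7 12))))), (.s k128 k191 6 (.s k166 k183 4 (.s k4 k247 12 (.s k68 k196
  7 (.d k136 k204 k140 9 1)))))] (.c k213 (.q k234 [(.s k128 k191 6 (.s k140 k136 1 (.s k166 k183 4
  (.s k162 k174 1 (.d k179 k145 k153 4 6))))), (.s k42 k106 7 (.s k63 k21 6 (.s k189 k126 8 (.s k169
  k129 5 (.s k1 k253 13 (.d k3 k86 k2 14 0))))))] (.c k63 (.l (.s k166 k183 4 (.s k4 k247 12 (.s k12
  k8 1 (.s k162 k174 1 (.d k243 k81 k89 12 14)))))) .n)) (.c k234 (.l (.s k213 k21 7 (.s k128 k191 6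
  (.s k136 k140 1 (.s k68 k204 9 (.s k102 k119 4 (.d k196 k4 k55 7 12))))))) .n))) .n))) (.c k169
  (.q k4 [(.s k166 k247 12 (.s k162 k174 1 (.s k243 k81 12 (.d k12 k8 k89 1 14)))), (.s k12 k8 1 (.s
  k84 k168 13 (.s k164 k244 11 (.s k88 k240 13 (.d k92 k80 k172 1 11))))), (.s k84 k168 13 (.s k86
  k87 0 (.s k166 k247 12 (.s k6 k246 11 (.s k7 k5 0 (.d k244 k164 k165 11 12))))))] .n) (.c k171 (.l
  (.s k84 k168 13 (.s k86 k87 0 (.s k3 k169 14 (.d k2 k1 k254 0 13))))) (.c k254 (.l (.s k168 k84 13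
  (.s k169 k171 0 (.s k1 k253 13 (.d k3 k2 k86 0 14))))) .n))))))))))))

def t10_39 : T TT 256 :=
  (.f k170 k255 14 (.q k252 [(.s k84 k168 13 (.s k86 k87 0 (.s k2 k254 13 (.d k3 k1 k169 0 14))))]
  (.c k1 (.q k4 [(.s k12 k8 1 (.s k166 k247 12 (.s k162 k174 1 (.d k243 k81 k89 12 14)))), (.s k12
  k8 1 (.s k84 k168 13 (.s k92 k172 11 (.s k88 k80 1 (.d k164 k244 k240 11 13))))), (.s k84 k168 13
  (.s k86 k87 0 (.s k166 k247 12 (.s k6 k246 11 (.s k7 k5 0 (.d k244 k164 k165 11 12))))))] (.c k9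
  (.l (.s k166 k247 12 (.s k162 k174 1 (.s k243 k81 12 (.d k12 k8 k89 1 14))))) .n)) (.c k2 (.f k84
  k168 13 (.f k86 k87 0 (.f k3 k169 14 (.q k6 [(.s k12 k9 2 (.s k166 k246 11 (.d k4 k8 k247 1 12))),
  (.s k166 k246 11 (.s k4 k247 12 (.s k7 k5 0 (.d k244 k164 k165 11 12)))), (.s k12 k9 2 (.s k92
  k172 11 (.s k89 k83 2 (.d k166 k246 k243 11 14)))), (.s k12 k9 2 (.s k8 k4 1 (.s k89 k251 12 (.d
  k92 k83 k172 2 11))))] .n)))) (.c k3 (.f k168 k84 13 (.q k192 [(.s k64 k128 7 (.s k106 k127 6 (.s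
  k42 k234 7 (.d k63 k21 k149 6 14)))), (.s k232 k212 5 (.s k40 k104 7 (.s k105 k235 8 (.s k65 k125
  5 (.s k195 k130 8 (.d k60 k20 k150 5 14))))))] (.c k64 (.l (.s k232 k212 5 (.s k104 k40 7 (.s k148
  k60 13 (.s k128 k188 5 (.s k149 k191 6 (.s k21 k213 7 (.d k63 k42 k106 6 14)))))))) (.c k87 (.l
  (.s k171 k169 0 (.s k64 k128 7 (.s k106 k127 6 (.s k42 k234 7 (.d k63 k21 k149 6 14)))))) (.c k171
  (.q k87 [(.s k64 k128 7 (.s k106 k127 6 (.s k42 k234 7 (.d k63 k21 k149 6 14)))), (.s k232 k212 5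
  (.s k40 k104 7 (.s k105 k235 8 (.s k65 k125 5 (.s k195 k130 8 (.d k60 k20 k150 5 14))))))] (.c k64
  (.l (.s k232 k212 5 (.s k104 k40 7 (.s k148 k60 13 (.s k128 k188 5 (.s k149 k191 6 (.s k21 k213 7
  (.d k63 k42 k106 6 14)))))))) .n)) .n))))) (.c k84 (.q k150 [(.s k20 k215 8 (.s k60 k40 5 (.s k130
  k190 5 (.d k195 k65 k105 8 14)))), (.s k130 k190 5 (.s k195 k65 8 (.s k214 k233 6 (.s k86 k22 7
  (.s k2 k254 13 (.d k3 k1 k169 0 14)))))), (.s k20 k215 8 (.s k60 k40 5 (.s k188 k124 7 (.s k169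
  k131 6 (.s k1 k253 13 (.d k3 k2 k86 0 14))))))] (.c k60 (.q k166 [(.s k4 k247 12 (.s k162 k174 1
  (.s k243 k81 12 (.d k12 k8 k89 1 14)))), (.s k174 k162 1 (.s k182 k134 3 (.s k190 k130 5 (.s k142
  k158 3 (.d k178 k186 k154 1 5))))), (.s k4 k247 12 (.s k20 k215 8 (.s k52 k36 3 (.s k134 k182 3
  (.d k199 k69 k101 8 12)))))] (.c k125 (.l (.s k190 k130 5 (.s k4 k247 12 (.s k12 k8 1 (.s k162
  k174 1 (.d k243 k81 k89 12 14)))))) (.c k190 (.q k125 [(.s k4 k247 12 (.s k12 k8 1 (.s k243 k89 14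
  (.d k162 k174 k81 1 12)))), (.s k182 k134 3 (.s k215 k20 8 (.s k247 k4 12 (.s k52 k117 8 (.d k199
  k231 k101 3 12))))), (.s k65 k105 5 (.s k130 k195 8 (.s k134 k182 3 (.s k142 k138 1 (.s k162 k174
  1 (.d k178 k146 k154 3 5))))))] .n) .n))) (.c k195 (.q k1 [(.s k169 k253 13 (.d k3 k2 k86 0 14)),
  (.s k130 k190 5 (.s k169 k253 13 (.s k131 k188 6 (.s k128 k129 0 (.s k171 k168 0 (.d k191 k151
  k149 5 6)))))), (.s k2 k3 0 (.s k86 k254 13 (.s k22 k214 7 (.s k42 k62 5 (.s k21 k63 6 (.d k20 k23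
  k215 0 8))))))] (.c k215 (.q k235 [(.s k169 k253 13 (.d k3 k2 k86 0 14)), (.s k40 k105 8 (.s k60
  k20 5 (.s k169 k253 13 (.d k188 k131 k124 6 7)))), (.s k2 k3 0 (.s k86 k254 13 (.s k22 k214 7 (.s
  k62 k42 5 (.s k130 k190 5 (.d k194 k66 k106 7 13))))))] .n) (.c k235 (.l (.s k215 k20 8 (.s k3 k2
  0 (.d k169 k253 k86 13 14)))) .n))) .n))) (.c k86 (.q k4 [(.s k166 k247 12 (.s k162 k174 1 (.s
  k243 k81 12 (.d k12 k8 k89 1 14)))), (.s k12 k8 1 (.s k84 k168 13 (.s k92 k172 11 (.s k88 k80 1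
  (.d k164 k244 k240 11 13)))))] (.c k8 (.l (.s k166 k247 12 (.s k162 k174 1 (.s k168 k84 13 (.s
  k169 k171 0 (.s k172 k163 2 (.s k12 k92 11 (.d k243 k89 k81 14 12)))))))) (.c k12 (.l (.s k84 k168
  13 (.s k244 k164 11 (.s k240 k248 1 (.s k160 k80 11 (.s k165 k175 2 (.s k245 k5 11 (.d k247 k246
  k166 0 12)))))))) .n))) (.c k87 (.l (.s k168 k84 13 (.s k169 k171 0 (.s k3 k86 14 (.d k1 k2 k253 0
  13))))) (.c k168 (.q k149 [(.s k21 k213 7 (.s k128 k191 6 (.s k192 k64 7 (.d k63 k42 k106 6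
  14)))), (.s k128 k191 6 (.s k192 k64 7 (.s k212 k232 5 (.s k86 k23 8 (.s k2 k254 13 (.d k3 k1 k169
  0 14)))))), (.s k21 k213 7 (.s k63 k42 6 (.s k189 k126 8 (.s k169 k129 5 (.s k1 k253 13 (.d k3 k2
  k86 0 14))))))] (.c k63 (.q k212 [(.s k192 k232 5 (.d k128 k191 k64 6 7)), (.s k86 k23 8 (.s k2
  k254 13 (.d k3 k1 k169 0 14)))] (.c k127 (.l (.s k191 k128 6 (.s k86 k23 8 (.s k2 k254 13 (.d k3
  k1 k169 0 14))))) (.c k191 (.q k127 [(.s k64 k106 6 (.d k192 k232 k128 5 7)), (.s k86 k23 8 (.s k2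
  k254 13 (.d k3 k1 k169 0 14)))] .n) .n))) (.c k192 (.q k132 [(.s k128 k191 6 (.s k140 k136 1 (.s
  k166 k183 4 (.s k162 k174 1 (.d k179 k145 k153 4 6))))), (.s k166 k183 4 (.s k4 k247 12 (.s k12 k8
  1 (.s k162 k174 1 (.d k243 k81 k89 12 14))))), (.s k128 k191 6 (.s k136 k140 1 (.s k68 k204 9 (.s
  k102 k119 4 (.d k196 k4 k55 7 12))))), (.s k128 k191 6 (.s k166 k183 4 (.s k4 k247 12 (.s k68 k196
  7 (.d k136 k204 k140 9 1)))))] (.c k213 (.q k234 [(.s k128 k191 6 (.s k140 k136 1 (.s k166 k183 4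
  (.s k162 k174 1 (.d k179 k145 k153 4 6))))), (.s k166 k183 4 (.s k4 k247 12 (.s k12 k8 1 (.s k162
  k174 1 (.d k243 k81 k89 12 14))))), (.s k128 k191 6 (.s k136 k140 1 (.s k68 k204 9 (.s k102 k119 4
  (.d k196 k4 k55 7 12))))), (.s k42 k106 7 (.s k21 k63 6 (.s k166 k183 4 (.s k4 k247 12 (.s k55 k38
  4 (.d k196 k68 k102 7 12))))))] .n) (.c k234 (.l (.s k213 k21 7 (.s k128 k191 6 (.s k136 k140 1
  (.s k68 k204 9 (.s k102 k119 4 (.d k196 k4 k55 7 12))))))) .n))) .n))) (.c k169 (.q k4 [(.s k166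
  k247 12 (.s k162 k174 1 (.s k243 k81 12 (.d k12 k8 k89 1 14)))), (.s k12 k8 1 (.s k84 k168 13 (.s
  k164 k244 11 (.s k88 k240 13 (.d k92 k80 k172 1 11))))), (.s k84 k168 13 (.s k86 k87 0 (.s k166
  k247 12 (.s k6 k246 11 (.s k7 k5 0 (.d k244 k164 k165 11 12))))))] .n) (.c k171 (.l (.s k84 k168
  13 (.s k86 k87 0 (.s k3 k169 14 (.d k2 k1 k254 0 13))))) (.c k254 (.l (.s k168 k84 13 (.s k169
  k171 0 (.s k1 k253 13 (.d k3 k2 k86 0 14))))) .n))))))))))))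

def t10_42 : T TT 256 :=
  (.q k154 [(.s k16 k223 10 (.s k170 k255 14 (.s k138 k186 3 (.s k207 k69 10 (.d k48 k32 k101 3
  14)))))] (.c k16 (.f k170 k255 14 (.q k149 [(.s k128 k191 6 (.s k144 k159 2 (.s k176 k160 3 (.s
  k143 k165 6 (.d k138 k133 k186 2 3))))), (.s k138 k186 3 (.s k144 k159 2 (.s k207 k69 10 (.s k48
  k101 14 (.s k192 k96 11 (.s k106 k63 14 (.d k202 k58 k197 11 2))))))), (.s k159 k144 2 (.s k186
  k138 3 (.s k191 k128 6 (.s k143 k175 3 (.d k176 k181 k165 2 6))))), (.s k128 k191 6 (.s k138 k186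
  3 (.s k192 k64 7 (.s k207 k69 10 (.s k197 k202 2 (.d k101 k48 k53 14 11)))))), (.s k128 k191 6 (.s
  k144 k159 2 (.s k192 k64 7 (.s k48 k96 11 (.s k63 k106 14 (.s k101 k207 14 (.d k53 k58 k197 2
  11)))))))] (.c k26 (.q k58 [(.s k106 k202 11 (.s k64 k127 6 (.d k128 k191 k192 6 7))), (.s k128
  k191 6 (.s k138 k186 3 (.s k143 k133 2 (.s k144 k159 2 (.d k176 k160 k165 3 6))))), (.s k106 k202
  11 (.s k63 k192 14 (.s k48 k53 2 (.s k138 k186 3 (.d k207 k69 k101 10 14)))))] (.c k21 (.q k31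
  [(.s k159 k144 2 (.s k95 k223 7 (.d k90 k80 k208 2 10))), (.s k106 k202 11 (.s k64 k127 6 (.d k128
  k191 k192 6 7)))] .n) (.c k31 (.l (.s k21 k213 7 (.s k106 k202 11 (.s k64 k127 6 (.d k128 k191
  k192 6 7))))) (.c k63 (.l (.s k138 k186 3 (.s k202 k106 11 (.s k207 k69 10 (.s k192 k197 2 (.d
  k128 k191 k64 6 7)))))) (.c k138 (.l (.s k128 k191 6 (.s k64 k192 7 (.d k106 k127 k202 6 11))))
  .n))))) (.c k58 (.q k26 [(.s k90 k218 7 (.s k128 k191 6 (.s k144 k159 2 (.s k160 k176 3 (.d k80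
  k95 k240 2 11))))), (.s k90 k218 7 (.s k80 k95 2 (.s k138 k186 3 (.s k207 k69 10 (.s k48 k101 14
  (.s k15 k37 6 (.d k240 k165 k160 14 11))))))), (.s k128 k191 6 (.s k138 k186 3 (.s k143 k133 2 (.s
  k144 k159 2 (.d k176 k160 k165 3 6)))))] (.c k160 (.l (.s k159 k144 2 (.s k186 k138 3 (.s k191
  k128 6 (.s k176 k181 2 (.d k143 k175 k165 3 6)))))) (.c k186 (.l (.s k90 k218 7 (.s k80 k95 2 (.s
  k128 k191 6 (.s k144 k159 2 (.d k160 k176 k240 3 11)))))) .n))) (.c k191 (.l (.s k138 k186 3 (.s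
  k144 k159 2 (.s k207 k69 10 (.s k48 k101 14 (.s k192 k96 11 (.s k64 k128 7 (.d k106 k127 k63 6
  14)))))))) .n))))) (.c k26 (.q k58 [(.s k16 k223 10 (.s k170 k255 14 (.s k138 k186 3 (.s k207 k69
  10 (.d k48 k32 k101 3 14))))), (.s k106 k202 11 (.s k64 k127 6 (.s k192 k128 7 (.s k149 k63 14 (.s
  k255 k170 14 (.d k213 k234 k21 6 7)))))), (.s k16 k223 10 (.s k48 k32 3 (.s k63 k53 2 (.s k106
  k202 11 (.s k64 k127 6 (.d k192 k128 k149 7 14))))))] (.c k138 (.l (.s k16 k223 10 (.s k48 k32 3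
  (.s k101 k207 14 (.s k117 k69 3 (.d k255 k186 k170 10 14)))))) .n)) (.c k32 (.l (.s k223 k16 10
  (.s k255 k170 14 (.s k207 k239 3 (.s k101 k48 14 (.d k69 k117 k138 3 10)))))) (.c k48 (.f k16 k223
  10 (.q k146 [(.s k211 k81 8 (.s k150 k158 1 (.s k28 k89 10 (.d k20 k24 k215 1 8)))), (.s k81 k211
  8 (.s k162 k243 12 (.s k170 k255 14 (.s k166 k174 1 (.d k178 k130 k142 3 5))))), (.s k150 k158 1
  (.s k170 k255 14 (.s k130 k190 5 (.s k178 k162 3 (.s k142 k166 5 (.d k138 k186 k134 3 1))))))] (.c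
  k26 (.q k58 [(.s k211 k81 8 (.s k150 k158 1 (.s k28 k89 10 (.d k20 k24 k215 1 8)))), (.s k106 k202
  11 (.s k64 k127 6 (.s k192 k128 7 (.s k149 k63 14 (.s k213 k21 7 (.d k255 k234 k170 6 14))))))]
  (.c k15 (.q k37 [(.s k211 k81 8 (.s k150 k158 1 (.s k28 k89 10 (.d k20 k24 k215 1 8)))), (.s k106
  k202 11 (.s k64 k127 6 (.s k192 k128 7 (.s k149 k63 14 (.s k213 k21 7 (.d k255 k234 k170 6
  14))))))] .n) (.c k37 (.q k15 [(.s k211 k81 8 (.s k150 k158 1 (.s k28 k89 10 (.d k20 k24 k215 1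
  8)))), (.s k106 k202 11 (.s k64 k127 6 (.s k192 k128 7 (.s k149 k63 14 (.s k213 k21 7 (.d k255
  k234 k170 6 14))))))] (.c k32 (.q k47 [(.s k106 k202 11 (.s k64 k127 6 (.s k192 k128 7 (.d k63 k31
  k149 3 14)))), (.s k150 k158 1 (.s k20 k215 8 (.s k28 k24 1 (.d k211 k81 k89 8 10))))] .n) (.c k47
  (.q k32 [(.s k211 k81 8 (.s k150 k158 1 (.s k28 k89 10 (.d k20 k24 k215 1 8)))), (.s k106 k202 11
  (.s k64 k127 6 (.s k192 k128 7 (.s k149 k63 14 (.s k213 k21 7 (.d k255 k234 k170 6 14))))))] .n)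
  .n))) .n))) (.c k58 (.q k26 [(.s k31 k21 2 (.s k90 k218 7 (.s k80 k95 2 (.d k208 k144 k149 7
  10)))), (.s k150 k158 1 (.s k20 k215 8 (.s k28 k24 1 (.d k211 k81 k89 8 10))))] (.c k53 (.q k63
  [(.s k31 k21 2 (.s k90 k218 7 (.s k80 k95 2 (.d k208 k144 k149 7 10)))), (.s k150 k158 1 (.s k20
  k215 8 (.s k28 k24 1 (.d k211 k81 k89 8 10))))] .n) (.c k63 (.q k53 [(.s k31 k21 2 (.s k90 k218 7
  (.s k80 k95 2 (.d k208 k144 k149 7 10)))), (.s k150 k158 1 (.s k20 k215 8 (.s k28 k24 1 (.d k211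
  k81 k89 8 10))))] .n) .n))) (.c k93 (.l (.s k211 k81 8 (.s k150 k158 1 (.s k28 k89 10 (.d k20 k24
  k215 1 8))))) .n))))) (.c k58 (.q k26 [(.s k16 k223 10 (.s k31 k21 2 (.s k90 k218 7 (.s k80 k95 2
  (.d k208 k144 k149 7 10))))), (.s k16 k223 10 (.s k48 k32 3 (.s k101 k207 14 (.s k117 k69 3 (.d
  k255 k186 k170 10 14))))), (.s k90 k218 7 (.s k80 k95 2 (.s k240 k160 11 (.s k165 k15 14 (.s k245
  k5 11 (.d k255 k250 k170 2 14))))))] .n) (.c k69 (.q k26 [(.s k16 k223 10 (.s k31 k21 2 (.s k90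
  k218 7 (.s k80 k95 2 (.d k208 k144 k149 7 10))))), (.s k90 k218 7 (.s k80 k95 2 (.s k240 k160 11
  (.s k165 k15 14 (.s k245 k5 11 (.d k255 k250 k170 2 14)))))), (.s k16 k223 10 (.s k21 k31 2 (.s
  k48 k32 3 (.s k37 k15 6 (.s k5 k53 3 (.s k101 k207 14 (.d k165 k229 k245 7 11)))))))] (.c k95 (.l
  (.s k16 k223 10 (.s k48 k32 3 (.s k37 k15 6 (.s k101 k207 14 (.s k165 k229 7 (.s k5 k245 11 (.d
  k21 k31 k53 2 3)))))))) .n)) (.c k101 (.f k16 k223 10 (.q k26 [(.s k31 k21 2 (.s k90 k218 7 (.s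
  k80 k95 2 (.d k208 k144 k149 7 10)))), (.s k90 k218 7 (.s k95 k80 2 (.s k255 k170 14 (.s k15 k175
  11 (.d k48 k32 k37 3 6))))), (.s k21 k31 2 (.s k48 k32 3 (.s k149 k213 7 (.s k170 k255 14 (.s k128
  k191 6 (.s k192 k64 7 (.d k144 k159 k96 2 11)))))))] (.c k95 (.l (.s k31 k21 2 (.s k48 k32 3 (.s
  k90 k218 7 (.s k208 k149 10 (.s k80 k144 7 (.s k240 k160 11 (.d k15 k37 k165 6 14)))))))) (.c k208
  (.l (.s k21 k31 2 (.s k90 k218 7 (.s k213 k149 7 (.s k95 k80 2 (.s k255 k170 14 (.s k15 k175 11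
  (.d k48 k32 k37 3 6)))))))) (.c k213 (.l (.s k31 k21 2 (.s k90 k218 7 (.s k208 k149 10 (.d k80 k95
  k144 2 7))))) (.c k218 (.q k208 [(.s k31 k21 2 (.s k144 k80 7 (.d k149 k159 k90 2 10))), (.s k48
  k32 3 (.s k80 k144 7 (.s k240 k160 11 (.s k176 k112 7 (.s k165 k143 6 (.d k15 k37 k90 6 14))))))]
  (.c k80 (.l (.s k21 k31 2 (.s k48 k32 3 (.s k149 k213 7 (.s k170 k255 14 (.s k128 k191 6 (.s k192
  k64 7 (.d k144 k159 k96 2 11)))))))) (.c k90 (.l (.s k21 k31 2 (.s k144 k80 7 (.d k149 k159 k213 2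
  7)))) (.c k144 (.l (.s k31 k21 2 (.s k48 k32 3 (.s k90 k149 10 (.s k80 k95 2 (.s k240 k160 11 (.d
  k15 k37 k165 6 14))))))) .n)))) .n)))))) (.c k117 (.l (.s k16 k223 10 (.s k48 k32 3 (.s k170 k255
  14 (.s k138 k186 3 (.d k207 k69 k101 10 14)))))) (.c k138 (.l (.s k16 k223 10 (.s k48 k32 3 (.s
  k101 k207 14 (.s k117 k69 3 (.d k255 k186 k170 10 14)))))) (.c k170 (.f k16 k223 10 (.q k106 [(.s
  k48 k32 3 (.s k58 k202 11 (.s k63 k53 2 (.s k64 k127 6 (.d k192 k128 k149 7 14))))), (.s k64 k127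
  6 (.s k192 k128 7 (.s k149 k63 14 (.s k21 k213 7 (.s k144 k159 2 (.s k208 k80 7 (.d k31 k26 k90 2
  10))))))), (.s k48 k32 3 (.s k58 k202 11 (.s k63 k53 2 (.s k101 k207 14 (.s k96 k111 2 (.d k192
  k144 k149 11 14))))))] (.c k26 (.l (.s k58 k202 11 (.s k48 k32 3 (.s k63 k53 2 (.s k64 k127 6 (.d
  k192 k128 k149 7 14)))))) (.c k58 (.q k26 [(.s k31 k21 2 (.s k90 k218 7 (.s k80 k95 2 (.d k208
  k144 k149 7 10)))), (.s k48 k32 3 (.s k64 k127 6 (.s k101 k207 14 (.s k96 k111 2 (.d k192 k128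
  k144 7 11))))), (.s k64 k127 6 (.s k192 k128 7 (.s k149 k63 14 (.d k21 k31 k213 2 7))))] (.c k90
  (.q k250 [(.s k21 k31 2 (.s k64 k127 6 (.s k149 k213 7 (.d k192 k128 k63 7 14)))), (.s k48 k32 3
  (.s k64 k127 6 (.s k101 k207 14 (.s k192 k128 7 (.d k96 k111 k144 2 11))))), (.s k21 k31 2 (.s k48
  k32 3 (.s k37 k15 6 (.s k5 k53 3 (.s k101 k207 14 (.d k165 k229 k245 7 11))))))] (.c k149 (.l (.s
  k48 k32 3 (.s k64 k127 6 (.s k101 k207 14 (.s k96 k111 2 (.d k192 k128 k144 7 11)))))) .n)) (.c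
  k250 (.l (.s k90 k218 7 (.s k31 k21 2 (.s k80 k95 2 (.d k208 k144 k149 7 10))))) .n))) (.c k63 (.l
  (.s k48 k32 3 (.s k64 k127 6 (.s k101 k207 14 (.s k192 k128 7 (.d k96 k111 k144 2 11)))))) (.c k90
  (.q k250 [(.s k48 k32 3 (.s k58 k202 11 (.s k186 k122 7 (.s k117 k255 10 (.d k101 k207 k69 14
  3))))), (.s k64 k127 6 (.s k192 k128 7 (.s k149 k63 14 (.s k144 k159 2 (.s k80 k208 7 (.d k96 k112
  k48 3 11)))))), (.s k48 k32 3 (.s k58 k202 11 (.s k63 k53 2 (.s k64 k127 6 (.d k192 k128 k149 7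
  14)))))] (.c k26 (.l (.s k58 k202 11 (.s k48 k32 3 (.s k63 k53 2 (.s k64 k127 6 (.d k192 k128 k149
  7 14)))))) (.c k48 (.f k64 k127 6 (.l (.s k192 k128 7 (.s k149 k63 14 (.s k144 k159 2 (.s k80 k208
  7 (.s k213 k21 7 (.s k240 k160 11 (.d k255 k245 k234 2 6))))))))) (.c k58 (.q k26 [(.s k21 k31 2
  (.s k64 k127 6 (.s k149 k213 7 (.d k192 k128 k63 7 14)))), (.s k48 k32 3 (.s k64 k127 6 (.s k101
  k207 14 (.s k192 k128 7 (.d k96 k111 k144 2 11))))), (.s k21 k31 2 (.s k48 k32 3 (.s k37 k15 6 (.s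
  k5 k53 3 (.s k101 k207 14 (.d k165 k229 k245 7 11))))))] (.c k149 (.l (.s k48 k32 3 (.s k64 k127 6
  (.s k101 k207 14 (.s k96 k111 2 (.d k192 k128 k144 7 11)))))) .n)) .n)))) (.c k149 (.l (.s k48 k32
  3 (.s k64 k127 6 (.s k101 k207 14 (.s k96 k111 2 (.d k192 k128 k144 7 11)))))) (.c k192 (.l (.s
  k48 k32 3 (.s k58 k202 11 (.s k63 k53 2 (.s k127 k64 6 (.s k255 k191 7 (.s k117 k186 10 (.d k101
  k207 k69 14 3)))))))) (.c k250 (.q k90 [(.s k26 k218 7 (.s k31 k21 2 (.s k80 k95 2 (.d k208 k144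
  k149 7 10)))), (.s k32 k48 3 (.s k64 k127 6 (.s k80 k95 2 (.s k96 k112 3 (.d k160 k240 k224 11
  7))))), (.s k58 k202 11 (.s k48 k32 3 (.s k63 k53 2 (.s k64 k127 6 (.d k192 k128 k149 7 14)))))]
  (.c k26 (.l (.s k58 k202 11 (.s k48 k32 3 (.s k63 k53 2 (.s k64 k127 6 (.d k192 k128 k149 7
  14)))))) (.c k58 (.l (.s k26 k218 7 (.s k31 k21 2 (.s k80 k95 2 (.d k208 k144 k149 7 10))))) .n)))
  .n))))))))) (.c k186 (.l (.s k223 k16 10 (.s k255 k170 14 (.s k207 k239 3 (.s k69 k138 10 (.d k101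
  k117 k48 3 14)))))) (.c k207 (.f k170 k255 14 (.f k223 k16 10 (.q k149 [(.s k159 k144 2 (.s k31
  k95 7 (.s k208 k90 10 (.d k213 k218 k21 2 7)))), (.s k128 k191 6 (.s k138 k186 3 (.s k143 k133 2
  (.s k144 k159 2 (.d k176 k160 k165 3 6))))), (.s k128 k191 6 (.s k192 k64 7 (.s k213 k21 7 (.s
  k208 k218 2 (.s k240 k224 3 (.s k80 k160 11 (.d k90 k31 k95 10 2)))))))] (.c k26 (.q k58 [(.s k159
  k144 2 (.s k31 k95 7 (.s k208 k90 10 (.d k213 k21 k218 7 2)))), (.s k106 k202 11 (.s k64 k127 6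
  (.d k128 k191 k192 6 7)))] (.c k21 (.q k31 [(.d k159 k144 k95 2 7), (.s k106 k202 11 (.s k64 k127
  6 (.d k128 k191 k192 6 7)))] .n) (.c k31 (.l (.s k21 k213 7 (.s k106 k202 11 (.s k64 k127 6 (.d
  k128 k191 k192 6 7))))) .n))) (.c k58 (.q k26 [(.s k213 k21 7 (.d k218 k208 k90 2 7)), (.s k128
  k191 6 (.s k138 k186 3 (.s k143 k133 2 (.s k144 k159 2 (.d k176 k160 k165 3 6)))))] .n) .n)))))
  (.c k223 (.f k170 k255 14 (.f k138 k186 3 (.f k207 k69 10 (.f k48 k101 14 (.q k26 [(.s k90 k218 7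
  (.s k80 k95 2 (.s k240 k160 11 (.d k15 k37 k165 6 14)))), (.s k15 k37 6 (.s k143 k79 7 (.s k165
  k176 6 (.d k90 k218 k240 7 14)))), (.s k16 k32 3 (.s k31 k21 2 (.s k90 k218 7 (.s k208 k149 10 (.d
  k80 k95 k144 2 7)))))] (.c k37 (.l (.s k90 k218 7 (.s k80 k95 2 (.s k240 k160 11 (.s k176 k112 7
  (.d k165 k15 k143 14 6)))))) (.c k90 (.l (.s k16 k32 3 (.s k21 k31 2 (.s k149 k213 7 (.s k128 k191
  6 (.s k143 k133 2 (.d k15 k37 k79 6 7))))))) (.c k218 (.l (.s k15 k37 6 (.s k143 k79 7 (.s k165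
  k176 6 (.s k160 k175 2 (.d k240 k90 k80 14 11)))))) .n)))))))) (.c k239 (.l (.s k16 k223 10 (.s
  k48 k32 3 (.s k101 k207 14 (.s k255 k170 14 (.d k117 k69 k186 3 10)))))) (.c k255 (.q k26 [(.s k16
  k223 10 (.s k31 k21 2 (.s k90 k218 7 (.s k208 k149 10 (.d k80 k95 k144 2 7))))), (.s k90 k218 7
  (.s k80 k95 2 (.s k240 k160 11 (.s k15 k165 14 (.s k48 k37 6 (.d k16 k32 k223 3 10)))))), (.s k16
  k223 10 (.s k21 k31 2 (.s k48 k32 3 (.s k37 k15 6 (.s k5 k53 3 (.s k165 k245 11 (.d k101 k207 k229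
  14 7))))))), (.s k90 k218 7 (.s k80 k95 2 (.s k240 k160 11 (.s k15 k165 14 (.s k48 k37 6 (.s k112
  k176 7 (.d k101 k79 k207 6 14)))))))] (.c k95 (.q k15 [(.s k48 k37 6 (.d k16 k32 k223 3 10)), (.s
  k90 k218 7 (.s k165 k240 14 (.s k143 k176 6 (.s k207 k79 7 (.d k48 k37 k101 6 14))))), (.s k16
  k223 10 (.s k31 k21 2 (.s k90 k218 7 (.s k208 k149 10 (.s k80 k144 7 (.d k240 k160 k165 11
  14))))))] .n) .n)) .n))))))))))))))))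

def t10_43 : T TT 256 :=
  (.f k170 k255 14 (.q k243 [(.s k81 k162 12 (.s k89 k93 1 (.s k8 k251 12 (.d k12 k4 k166 1 14))))]
  (.c k4 (.q k1 [(.s k3 k2 0 (.s k169 k253 13 (.s k252 k86 14 (.d k168 k171 k84 0 13)))), (.s k3 k2
  0 (.s k81 k162 12 (.s k83 k163 11 (.s k82 k80 0 (.d k161 k241 k240 11 12))))), (.s k81 k162 12 (.s
  k89 k93 1 (.s k169 k253 13 (.s k9 k249 11 (.s k13 k5 1 (.d k241 k161 k165 11 13))))))] (.c k6 (.l
  (.s k169 k253 13 (.s k168 k171 0 (.s k252 k84 13 (.d k3 k2 k86 0 14))))) .n)) (.c k8 (.f k81 k162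
  12 (.f k89 k93 1 (.f k12 k166 14 (.q k9 [(.s k3 k6 2 (.s k169 k249 11 (.d k1 k2 k253 0 13))), (.s
  k169 k249 11 (.s k1 k253 13 (.s k13 k5 1 (.d k241 k161 k165 11 13)))), (.s k3 k6 2 (.s k83 k163 11
  (.s k86 k92 2 (.d k169 k249 k252 11 14)))), (.s k3 k6 2 (.s k2 k1 0 (.s k86 k254 13 (.d k83 k92
  k163 2 11))))] .n)))) (.c k12 (.f k81 k162 12 (.q k115 [(.s k51 k179 7 (.s k17 k34 4 (.s k98 k64 4
  (.d k145 k209 k192 7 12)))), (.s k64 k98 4 (.s k106 k127 6 (.s k42 k234 7 (.s k63 k21 6 (.d k192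
  k128 k149 7 14))))), (.s k51 k179 7 (.s k34 k17 4 (.s k102 k238 9 (.d k89 k93 k76 1 6))))] (.c k34
  (.l (.s k51 k179 7 (.s k98 k64 4 (.s k145 k192 12 (.s k17 k209 7 (.s k153 k221 9 (.s k136 k187 4
  (.d k204 k68 k102 9 14)))))))) (.c k93 (.q k174 [(.s k51 k179 7 (.s k17 k34 4 (.s k98 k64 4 (.d
  k145 k209 k192 7 12)))), (.s k64 k98 4 (.s k106 k127 6 (.s k42 k234 7 (.s k63 k21 6 (.d k192 k128
  k149 7 14))))), (.s k51 k179 7 (.s k34 k17 4 (.s k102 k238 9 (.s k68 k119 4 (.d k204 k136 k153 9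
  14)))))] (.c k34 (.l (.s k51 k179 7 (.s k98 k64 4 (.s k145 k192 12 (.s k17 k209 7 (.s k153 k221 9
  (.s k136 k187 4 (.d k204 k68 k102 9 14)))))))) (.c k128 (.l (.s k98 k64 4 (.s k51 k179 7 (.s k145
  k192 12 (.d k17 k34 k209 4 7))))) .n))) (.c k128 (.l (.s k98 k64 4 (.s k51 k179 7 (.s k145 k192 12
  (.d k17 k34 k209 4 7))))) (.c k174 (.l (.s k93 k89 1 (.s k51 k179 7 (.s k17 k34 4 (.s k98 k64 4
  (.d k145 k209 k192 7 12)))))) .n)))))) (.c k81 (.q k86 [(.s k2 k254 13 (.s k84 k87 0 (.s k252 k168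
  13 (.d k3 k1 k169 0 14)))), (.s k2 k254 13 (.s k3 k1 0 (.s k83 k163 11 (.s k89 k92 2 (.s k8 k251
  12 (.d k12 k4 k166 1 14)))))), (.s k84 k87 0 (.s k252 k168 13 (.s k3 k169 14 (.s k83 k163 11 (.s
  k89 k92 2 (.s k8 k251 12 (.d k12 k166 k4 14 1)))))))] (.c k3 (.f k87 k84 0 (.q k23 [(.s k212 k149
  8 (.s k215 k151 7 (.s k150 k20 8 (.d k214 k213 k22 0 7)))), (.s k149 k212 8 (.s k128 k191 6 (.s
  k192 k64 7 (.s k63 k106 14 (.d k21 k42 k213 6 7))))), (.s k2 k254 13 (.s k215 k151 7 (.s k150 k20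
  8 (.s k22 k214 7 (.s k62 k42 5 (.s k130 k190 5 (.d k194 k66 k106 7 13)))))))] (.c k20 (.l (.s k151
  k215 7 (.s k149 k212 8 (.s k148 k150 0 (.s k128 k191 6 (.s k192 k64 7 (.s k63 k106 14 (.d k21 k213
  k42 7 6)))))))) (.c k148 (.l (.s k212 k149 8 (.s k215 k151 7 (.s k150 k20 8 (.d k214 k213 k22 0
  7))))) (.c k212 (.l (.s k215 k151 7 (.s k20 k150 8 (.s k21 k22 0 (.s k63 k42 6 (.s k149 k213 7 (.s
  k128 k191 6 (.d k192 k64 k106 7 14)))))))) .n))))) (.c k252 (.q k128 [(.s k149 k191 6 (.s k21 k213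
  7 (.s k192 k64 7 (.d k63 k42 k106 6 14)))), (.s k64 k192 7 (.s k84 k87 0 (.s k124 k104 5 (.s k67
  k105 6 (.s k66 k65 0 (.d k106 k126 k127 5 6)))))), (.s k84 k87 0 (.s k149 k191 6 (.s k212 k23 8
  (.s k20 k148 7 (.s k213 k21 7 (.d k215 k214 k150 0 8))))))] (.c k127 (.l (.s k192 k64 7 (.s k149
  k191 6 (.s k63 k106 14 (.d k21 k42 k213 6 7))))) (.c k213 (.l (.s k149 k191 6 (.s k192 k64 7 (.s
  k209 k226 4 (.s k89 k29 9 (.s k8 k251 12 (.d k12 k4 k166 1 14))))))) (.c k253 (.l (.s k254 k2 13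
  (.s k149 k191 6 (.s k21 k213 7 (.s k63 k42 6 (.d k192 k64 k106 7 14)))))) (.c k254 (.q k253 [(.s
  k149 k191 6 (.s k21 k213 7 (.s k192 k64 7 (.d k63 k42 k106 6 14)))), (.s k1 k169 13 (.s k3 k2 0
  (.s k83 k163 11 (.s k89 k92 2 (.s k8 k251 12 (.d k12 k166 k4 14 1))))))] (.c k106 (.l (.s k84 k87
  0 (.s k149 k191 6 (.s k169 k1 13 (.s k212 k23 8 (.s k148 k20 7 (.d k168 k171 k188 0 5))))))) .n))
  .n))))) .n))) (.c k89 (.q k1 [(.s k169 k253 13 (.s k168 k171 0 (.s k252 k84 13 (.d k3 k2 k86 0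
  14)))), (.s k3 k2 0 (.s k81 k162 12 (.s k83 k163 11 (.s k82 k80 0 (.d k161 k241 k240 11 12)))))]
  (.c k2 (.l (.s k162 k81 12 (.s k166 k174 1 (.s k169 k253 13 (.s k163 k172 2 (.s k3 k83 11 (.s k168
  k171 0 (.d k252 k86 k84 14 13)))))))) (.c k3 (.l (.s k81 k162 12 (.s k241 k161 11 (.s k240 k242 0
  (.s k160 k80 11 (.s k165 k175 2 (.s k245 k5 11 (.d k253 k249 k169 1 13)))))))) .n))) (.c k93 (.l
  (.s k162 k81 12 (.s k166 k174 1 (.s k12 k89 14 (.d k4 k8 k247 1 12))))) (.c k162 (.q k86 [(.s k2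
  k254 13 (.s k3 k1 0 (.s k84 k87 0 (.d k252 k168 k169 13 14)))), (.s k84 k87 0 (.s k252 k168 13 (.s
  k246 k249 2 (.s k166 k6 11 (.s k4 k247 12 (.d k12 k8 k89 1 14)))))), (.s k2 k254 13 (.s k3 k1 0
  (.s k83 k163 11 (.s k89 k92 2 (.s k8 k251 12 (.d k12 k4 k166 1 14))))))] (.c k2 (.l (.s k84 k87 0
  (.s k252 k168 13 (.s k3 k169 14 (.s k83 k163 11 (.s k89 k92 2 (.s k8 k251 12 (.d k12 k166 k4 14
  1)))))))) (.c k3 (.f k87 k84 0 (.q k23 [(.s k212 k149 8 (.s k215 k151 7 (.s k150 k20 8 (.d k214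
  k213 k22 0 7)))), (.s k149 k212 8 (.s k128 k191 6 (.s k192 k64 7 (.s k63 k106 14 (.d k21 k42 k213
  6 7))))), (.s k2 k254 13 (.s k215 k151 7 (.s k150 k20 8 (.s k22 k214 7 (.s k62 k42 5 (.s k130 k190
  5 (.d k194 k66 k106 7 13)))))))] (.c k20 (.l (.s k151 k215 7 (.s k149 k212 8 (.s k148 k150 0 (.s
  k128 k191 6 (.s k192 k64 7 (.s k63 k106 14 (.d k21 k213 k42 7 6)))))))) (.c k148 (.l (.s k212 k149
  8 (.s k215 k151 7 (.s k150 k20 8 (.d k214 k213 k22 0 7))))) (.c k212 (.l (.s k215 k151 7 (.s k20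
  k150 8 (.s k21 k22 0 (.s k63 k42 6 (.s k149 k213 7 (.s k128 k191 6 (.d k192 k64 k106 7 14))))))))
  .n))))) (.c k252 (.q k106 [(.s k42 k234 7 (.s k63 k21 6 (.s k64 k127 6 (.d k192 k128 k149 7
  14)))), (.s k87 k84 0 (.s k126 k66 5 (.s k127 k64 6 (.s k67 k107 5 (.d k124 k125 k105 0 6))))),
  (.s k126 k66 5 (.s k234 k42 7 (.s k254 k2 13 (.s k62 k190 7 (.d k194 k214 k150 5 13)))))] (.c k253
  (.l (.s k254 k2 13 (.s k42 k234 7 (.s k63 k21 6 (.s k64 k127 6 (.d k192 k128 k149 7 14)))))) (.c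
  k254 (.q k253 [(.s k42 k234 7 (.s k63 k21 6 (.s k64 k127 6 (.d k192 k128 k149 7 14)))), (.s k87
  k84 0 (.s k126 k66 5 (.s k127 k64 6 (.s k67 k107 5 (.d k124 k125 k105 0 6))))), (.s k1 k169 13 (.s
  k2 k3 0 (.s k42 k234 7 (.s k62 k22 5 (.s k66 k126 5 (.d k194 k130 k150 7 13))))))] .n) .n)))
  .n)))) (.c k166 (.q k1 [(.s k169 k253 13 (.s k168 k171 0 (.s k252 k84 13 (.d k3 k2 k86 0 14)))),
  (.s k3 k2 0 (.s k81 k162 12 (.s k161 k241 11 (.s k82 k240 12 (.d k83 k80 k163 0 11))))), (.s k81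
  k162 12 (.s k89 k93 1 (.s k169 k253 13 (.s k9 k249 11 (.s k13 k5 1 (.d k241 k161 k165 11 13))))))]
  .n) (.c k174 (.l (.s k81 k162 12 (.s k89 k93 1 (.s k12 k166 14 (.d k8 k4 k251 1 12))))) (.c k251
  (.l (.s k162 k81 12 (.s k166 k174 1 (.s k4 k247 12 (.d k12 k8 k89 1 14))))) .n))))))))))))

def t10_47 : T TT 256 :=
  (.f k170 k255 14 (.q k252 [(.s k84 k168 13 (.s k86 k87 0 (.s k2 k254 13 (.d k3 k1 k169 0 14))))]
  (.c k1 (.q k4 [(.s k12 k8 1 (.s k166 k247 12 (.s k162 k174 1 (.d k243 k81 k89 12 14)))), (.s k12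
  k8 1 (.s k84 k168 13 (.s k92 k172 11 (.s k88 k80 1 (.d k164 k244 k240 11 13))))), (.s k84 k168 13
  (.s k86 k87 0 (.s k166 k247 12 (.s k6 k246 11 (.s k7 k5 0 (.d k244 k164 k165 11 12))))))] (.c k9
  (.l (.s k166 k247 12 (.s k162 k174 1 (.s k243 k81 12 (.d k12 k8 k89 1 14))))) .n)) (.c k2 (.f k84
  k168 13 (.f k86 k87 0 (.f k3 k169 14 (.q k6 [(.s k12 k9 2 (.s k166 k246 11 (.d k4 k8 k247 1 12))),
  (.s k166 k246 11 (.s k4 k247 12 (.s k7 k5 0 (.d k244 k164 k165 11 12)))), (.s k12 k9 2 (.s k92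
  k172 11 (.s k89 k83 2 (.d k166 k246 k243 11 14)))), (.s k12 k9 2 (.s k8 k4 1 (.s k89 k251 12 (.d
  k92 k83 k172 2 11))))] .n)))) (.c k3 (.f k84 k168 13 (.q k204 [(.s k136 k68 9 (.s k153 k187 4 (.s
  k17 k221 9 (.d k51 k34 k102 4 14)))), (.s k220 k236 3 (.s k16 k152 9 (.s k154 k223 10 (.s k138
  k186 3 (.s k207 k69 10 (.d k48 k32 k101 3 14))))))] (.c k87 (.q k171 [(.s k136 k68 9 (.s k153 k187
  4 (.s k17 k221 9 (.d k51 k34 k102 4 14)))), (.s k220 k236 3 (.s k16 k152 9 (.s k154 k223 10 (.s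
  k138 k186 3 (.s k207 k69 10 (.d k48 k32 k101 3 14))))))] (.c k136 (.l (.s k220 k236 3 (.s k152 k16
  9 (.s k100 k48 13 (.s k68 k116 3 (.s k102 k119 4 (.s k34 k238 9 (.d k51 k17 k153 4 14)))))))) .n))
  (.c k136 (.l (.s k220 k236 3 (.s k152 k16 9 (.s k100 k48 13 (.s k68 k116 3 (.s k102 k119 4 (.s k34
  k238 9 (.d k51 k17 k153 4 14)))))))) (.c k171 (.l (.s k87 k86 0 (.s k68 k136 9 (.s k100 k116 3 (.s
  k152 k48 13 (.d k220 k236 k16 3 9)))))) .n))))) (.c k84 (.q k150 [(.s k20 k215 8 (.s k60 k40 5 (.s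
  k130 k190 5 (.d k195 k65 k105 8 14)))), (.s k130 k190 5 (.s k195 k65 8 (.s k214 k233 6 (.s k86 k22
  7 (.s k2 k254 13 (.d k3 k1 k169 0 14)))))), (.s k20 k215 8 (.s k60 k40 5 (.s k188 k124 7 (.s k169
  k131 6 (.s k1 k253 13 (.d k3 k2 k86 0 14))))))] (.c k60 (.q k166 [(.s k4 k247 12 (.s k162 k174 1
  (.s k243 k81 12 (.d k12 k8 k89 1 14)))), (.s k174 k162 1 (.s k182 k134 3 (.s k190 k130 5 (.s k142
  k158 3 (.d k178 k186 k154 1 5))))), (.s k4 k247 12 (.s k20 k215 8 (.s k52 k36 3 (.s k134 k182 3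
  (.d k199 k69 k101 8 12)))))] (.c k125 (.l (.s k190 k130 5 (.s k4 k247 12 (.s k12 k8 1 (.s k162
  k174 1 (.d k243 k81 k89 12 14)))))) (.c k190 (.q k125 [(.s k4 k247 12 (.s k12 k8 1 (.s k243 k89 14
  (.d k162 k174 k81 1 12)))), (.s k182 k134 3 (.s k215 k20 8 (.s k247 k4 12 (.s k52 k117 8 (.d k199
  k231 k101 3 12))))), (.s k65 k105 5 (.s k130 k195 8 (.s k134 k182 3 (.s k142 k138 1 (.s k162 k174
  1 (.d k178 k146 k154 3 5))))))] .n) .n))) (.c k195 (.q k1 [(.s k169 k253 13 (.d k3 k2 k86 0 14)),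
  (.s k130 k190 5 (.s k169 k253 13 (.s k131 k188 6 (.s k128 k129 0 (.s k171 k168 0 (.d k191 k151
  k149 5 6)))))), (.s k2 k3 0 (.s k86 k254 13 (.s k22 k214 7 (.s k42 k62 5 (.s k21 k63 6 (.d k20 k23
  k215 0 8))))))] (.c k215 (.q k235 [(.s k169 k253 13 (.d k3 k2 k86 0 14)), (.s k40 k105 8 (.s k60
  k20 5 (.s k169 k253 13 (.d k188 k131 k124 6 7)))), (.s k2 k3 0 (.s k86 k254 13 (.s k22 k214 7 (.s
  k62 k42 5 (.s k130 k190 5 (.d k194 k66 k106 7 13))))))] .n) (.c k235 (.l (.s k215 k20 8 (.s k3 k2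
  0 (.d k169 k253 k86 13 14)))) .n))) .n))) (.c k86 (.q k4 [(.s k166 k247 12 (.s k162 k174 1 (.s
  k243 k81 12 (.d k12 k8 k89 1 14)))), (.s k12 k8 1 (.s k84 k168 13 (.s k92 k172 11 (.s k88 k80 1
  (.d k164 k244 k240 11 13)))))] (.c k8 (.l (.s k166 k247 12 (.s k162 k174 1 (.s k168 k84 13 (.s
  k169 k171 0 (.s k172 k163 2 (.s k12 k92 11 (.d k243 k89 k81 14 12)))))))) (.c k12 (.l (.s k84 k168
  13 (.s k244 k164 11 (.s k240 k248 1 (.s k160 k80 11 (.s k165 k175 2 (.s k245 k5 11 (.d k247 k246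
  k166 0 12)))))))) .n))) (.c k87 (.l (.s k168 k84 13 (.s k169 k171 0 (.s k3 k86 14 (.d k1 k2 k253 0
  13))))) (.c k168 (.q k166 [(.s k4 k247 12 (.s k162 k174 1 (.s k243 k81 12 (.d k12 k8 k89 1 14)))),
  (.s k162 k174 1 (.s k243 k81 12 (.s k246 k249 2 (.s k86 k6 11 (.s k2 k254 13 (.d k3 k1 k169 0
  14)))))), (.s k4 k247 12 (.s k12 k8 1 (.s k172 k92 11 (.s k169 k163 2 (.s k1 k253 13 (.d k3 k2 k86
  0 14))))))] (.c k12 (.q k153 [(.s k17 k221 9 (.s k51 k34 4 (.s k136 k187 4 (.d k204 k68 k102 9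
  14)))), (.s k140 k179 6 (.s k174 k162 1 (.s k191 k157 4 (.s k128 k149 6 (.d k136 k132 k187 1
  4))))), (.s k17 k221 9 (.s k51 k34 4 (.s k179 k140 6 (.s k243 k115 7 (.d k162 k174 k81 1 12)))))]
  (.c k93 (.l (.s k174 k162 1 (.s k17 k221 9 (.s k51 k34 4 (.s k136 k187 4 (.d k204 k68 k102 9
  14)))))) (.c k174 (.q k93 [(.s k17 k221 9 (.s k51 k34 4 (.s k136 k187 4 (.d k204 k68 k102 9
  14)))), (.s k89 k81 1 (.s k217 k25 7 (.s k221 k17 9 (.s k29 k157 7 (.d k209 k213 k149 1 9))))),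
  (.s k4 k247 12 (.s k136 k187 4 (.s k140 k179 6 (.s k132 k128 1 (.d k68 k196 k204 7 9)))))] (.c k51
  (.l (.s k17 k221 9 (.s k81 k89 1 (.s k145 k209 7 (.s k162 k243 12 (.d k179 k128 k140 4 6))))))
  .n)) .n))) (.c k243 (.q k169 [(.s k1 k253 13 (.d k3 k2 k86 0 14)), (.s k162 k174 1 (.s k163 k172 2
  (.s k160 k161 0 (.s k240 k80 11 (.s k248 k244 1 (.s k90 k11 12 (.d k165 k175 k15 2 14)))))))] (.c
  k247 (.q k251 [(.s k1 k253 13 (.d k3 k2 k86 0 14)), (.s k8 k89 12 (.s k12 k4 1 (.d k172 k163 k92 2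
  11)))] .n) (.c k251 (.l (.s k247 k4 12 (.s k1 k253 13 (.d k3 k2 k86 0 14)))) .n))) .n))) (.c k169
  (.q k4 [(.s k166 k247 12 (.s k162 k174 1 (.s k243 k81 12 (.d k12 k8 k89 1 14)))), (.s k12 k8 1 (.s
  k84 k168 13 (.s k164 k244 11 (.s k88 k240 13 (.d k92 k80 k172 1 11))))), (.s k84 k168 13 (.s k86
  k87 0 (.s k166 k247 12 (.s k6 k246 11 (.s k7 k5 0 (.d k244 k164 k165 11 12))))))] .n) (.c k171 (.l
  (.s k84 k168 13 (.s k86 k87 0 (.s k3 k169 14 (.d k2 k1 k254 0 13))))) (.c k254 (.l (.s k168 k84 13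
  (.s k169 k171 0 (.s k1 k253 13 (.d k3 k2 k86 0 14))))) .n))))))))))))

def t10_50 : T TT 256 :=
  (.f k170 k255 14 (.q k252 [(.s k168 k84 13 (.s k169 k171 0 (.s k3 k86 14 (.d k1 k2 k253 0 13))))]
  (.c k1 (.q k4 [(.s k12 k8 1 (.s k166 k247 12 (.s k162 k174 1 (.d k243 k81 k89 12 14)))), (.s k12
  k8 1 (.s k84 k168 13 (.s k92 k172 11 (.s k88 k80 1 (.d k164 k244 k240 11 13))))), (.s k84 k168 13
  (.s k86 k87 0 (.s k166 k247 12 (.s k6 k246 11 (.s k7 k5 0 (.d k244 k164 k165 11 12))))))] (.c k9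
  (.l (.s k166 k247 12 (.s k162 k174 1 (.s k243 k81 12 (.d k12 k8 k89 1 14))))) .n)) (.c k2 (.q k42
  [(.s k63 k21 6 (.s k106 k234 7 (.s k64 k127 6 (.d k192 k128 k149 7 14)))), (.s k21 k63 6 (.s k168
  k84 13 (.s k169 k171 0 (.s k1 k253 13 (.s k41 k61 5 (.s k40 k43 0 (.d k105 k235 k233 8 7))))))),
  (.s k106 k234 7 (.s k168 k84 13 (.s k169 k171 0 (.s k232 k43 8 (.s k192 k212 5 (.d k64 k127 k128 6
  7))))))] (.c k6 (.q k14 [(.s k63 k21 6 (.s k106 k234 7 (.s k64 k127 6 (.d k192 k128 k149 7 14)))),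
  (.s k21 k63 6 (.s k168 k84 13 (.s k169 k171 0 (.s k1 k253 13 (.s k41 k61 5 (.s k40 k43 0 (.d k105
  k235 k233 8 7))))))), (.s k106 k234 7 (.s k168 k84 13 (.s k169 k171 0 (.s k232 k43 8 (.s k192 k212
  5 (.d k64 k127 k128 6 7))))))] (.c k18 (.q k34 [(.s k63 k21 6 (.s k106 k234 7 (.s k64 k127 6 (.d
  k192 k128 k149 7 14)))), (.s k51 k17 4 (.s k102 k238 9 (.s k68 k119 4 (.d k204 k136 k153 9 14))))]
  .n) (.c k34 (.q k18 [(.s k63 k21 6 (.s k106 k234 7 (.s k64 k127 6 (.d k192 k128 k149 7 14)))), (.s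
  k84 k168 13 (.s k86 k87 0 (.s k3 k169 14 (.s k48 k33 4 (.s k154 k222 9 (.d k16 k32 k223 3
  10))))))] .n) (.c k127 (.l (.s k63 k21 6 (.s k84 k168 13 (.s k86 k87 0 (.s k106 k234 7 (.d k126
  k66 k189 5 8)))))) .n)))) (.c k14 (.q k6 [(.s k63 k21 6 (.s k106 k234 7 (.s k64 k127 6 (.d k192
  k128 k149 7 14)))), (.s k84 k168 13 (.s k86 k87 0 (.s k3 k169 14 (.s k12 k9 2 (.s k166 k246 11 (.d
  k4 k8 k247 1 12))))))] (.c k18 (.q k34 [(.s k63 k21 6 (.s k106 k234 7 (.s k64 k127 6 (.d k192 k128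
  k149 7 14)))), (.s k51 k17 4 (.s k102 k238 9 (.s k68 k119 4 (.d k204 k136 k153 9 14))))] (.c k26
  (.l (.s k38 k46 1 (.s k21 k63 6 (.s k4 k55 4 (.s k12 k8 1 (.d k51 k17 k25 4 6)))))) (.c k38 (.q
  k26 [(.s k51 k17 4 (.s k102 k238 9 (.s k68 k119 4 (.d k204 k136 k153 9 14)))), (.s k63 k21 6 (.s
  k106 k234 7 (.s k64 k127 6 (.d k192 k128 k149 7 14))))] .n) .n))) (.c k26 (.q k38 [(.s k106 k234 7
  (.s k64 k127 6 (.s k192 k128 7 (.d k63 k21 k149 6 14)))), (.s k34 k46 1 (.s k51 k17 4 (.s k102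
  k238 9 (.s k68 k119 4 (.d k204 k136 k153 9 14)))))] (.c k18 (.l (.s k34 k46 1 (.s k21 k63 6 (.s k4
  k55 4 (.s k12 k8 1 (.d k51 k17 k25 4 6)))))) (.c k34 (.q k18 [(.s k106 k234 7 (.s k64 k127 6 (.s
  k192 k128 7 (.d k63 k21 k149 6 14)))), (.s k84 k168 13 (.s k86 k87 0 (.s k3 k169 14 (.s k12 k9 2
  (.s k8 k4 1 (.d k25 k59 k51 4 6))))))] .n) .n))) (.c k34 (.q k18 [(.s k63 k21 6 (.s k106 k234 7
  (.s k64 k127 6 (.d k192 k128 k149 7 14)))), (.s k84 k168 13 (.s k86 k87 0 (.s k3 k169 14 (.s k12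
  k9 2 (.s k166 k246 11 (.d k4 k8 k247 1 12))))))] (.c k26 (.q k38 [(.s k106 k234 7 (.s k64 k127 6
  (.s k192 k128 7 (.d k63 k21 k149 6 14)))), (.s k84 k168 13 (.s k86 k87 0 (.s k3 k169 14 (.s k12 k9
  2 (.s k8 k4 1 (.d k25 k59 k51 4 6))))))] .n) (.c k38 (.q k26 [(.s k106 k234 7 (.s k64 k127 6 (.s
  k192 k128 7 (.d k63 k21 k149 6 14)))), (.s k84 k168 13 (.s k86 k87 0 (.s k3 k169 14 (.s k12 k9 2
  (.s k166 k246 11 (.d k4 k8 k247 1 12))))))] .n) .n))) (.c k38 (.q k26 [(.s k106 k234 7 (.s k64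
  k127 6 (.s k192 k128 7 (.d k63 k21 k149 6 14)))), (.s k84 k168 13 (.s k86 k87 0 (.s k3 k169 14 (.s
  k12 k9 2 (.s k166 k246 11 (.d k4 k8 k247 1 12))))))] (.c k18 (.q k34 [(.s k51 k17 4 (.s k102 k238
  9 (.s k68 k119 4 (.d k204 k136 k153 9 14)))), (.s k63 k21 6 (.s k106 k234 7 (.s k64 k127 6 (.d
  k192 k128 k149 7 14))))] .n) (.c k34 (.q k18 [(.s k106 k234 7 (.s k64 k127 6 (.s k192 k128 7 (.d
  k63 k21 k149 6 14)))), (.s k84 k168 13 (.s k86 k87 0 (.s k3 k169 14 (.s k12 k9 2 (.s k166 k246 11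
  (.d k4 k8 k247 1 12))))))] .n) .n))) .n))))) (.c k18 (.q k34 [(.s k63 k21 6 (.s k106 k234 7 (.s
  k64 k127 6 (.d k192 k128 k149 7 14)))), (.s k51 k17 4 (.s k102 k238 9 (.s k68 k119 4 (.d k204 k136
  k153 9 14))))] (.c k6 (.q k14 [(.s k63 k21 6 (.s k106 k234 7 (.s k64 k127 6 (.d k192 k128 k149 7
  14)))), (.s k51 k17 4 (.s k102 k238 9 (.s k68 k119 4 (.d k204 k136 k153 9 14))))] .n) (.c k14 (.q
  k6 [(.s k63 k21 6 (.s k106 k234 7 (.s k64 k127 6 (.d k192 k128 k149 7 14)))), (.s k51 k17 4 (.s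
  k102 k238 9 (.s k68 k119 4 (.d k204 k136 k153 9 14))))] (.c k26 (.l (.s k38 k46 1 (.s k21 k63 6
  (.s k4 k55 4 (.s k12 k8 1 (.d k51 k17 k25 4 6)))))) (.c k38 (.q k26 [(.s k51 k17 4 (.s k102 k238 9
  (.s k68 k119 4 (.d k204 k136 k153 9 14)))), (.s k63 k21 6 (.s k106 k234 7 (.s k64 k127 6 (.d k192
  k128 k149 7 14))))] .n) .n))) .n))) (.c k34 (.q k18 [(.s k63 k21 6 (.s k106 k234 7 (.s k64 k127 6
  (.d k192 k128 k149 7 14)))), (.s k84 k168 13 (.s k86 k87 0 (.s k3 k169 14 (.s k48 k33 4 (.s k154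
  k222 9 (.d k16 k32 k223 3 10))))))] (.c k6 (.q k14 [(.s k63 k21 6 (.s k106 k234 7 (.s k64 k127 6
  (.d k192 k128 k149 7 14)))), (.s k84 k168 13 (.s k86 k87 0 (.s k3 k169 14 (.s k48 k33 4 (.s k154
  k222 9 (.d k16 k32 k223 3 10))))))] .n) (.c k14 (.q k6 [(.s k63 k21 6 (.s k106 k234 7 (.s k64 k127
  6 (.d k192 k128 k149 7 14)))), (.s k84 k168 13 (.s k86 k87 0 (.s k3 k169 14 (.s k12 k9 2 (.s k166
  k246 11 (.d k4 k8 k247 1 12))))))] (.c k26 (.q k38 [(.s k106 k234 7 (.s k64 k127 6 (.s k192 k128 7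
  (.d k63 k21 k149 6 14)))), (.s k84 k168 13 (.s k86 k87 0 (.s k3 k169 14 (.s k12 k9 2 (.s k8 k4 1
  (.d k25 k59 k51 4 6))))))] .n) (.c k38 (.q k26 [(.s k106 k234 7 (.s k64 k127 6 (.s k192 k128 7 (.d
  k63 k21 k149 6 14)))), (.s k84 k168 13 (.s k86 k87 0 (.s k3 k169 14 (.s k12 k9 2 (.s k166 k246 11
  (.d k4 k8 k247 1 12))))))] .n) .n))) .n))) (.c k127 (.l (.s k63 k21 6 (.s k84 k168 13 (.s k86 k87
  0 (.s k106 k234 7 (.d k126 k66 k189 5 8)))))) .n)))))) (.c k3 (.f k168 k84 13 (.q k192 [(.s k64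
  k128 7 (.s k106 k127 6 (.s k42 k234 7 (.d k63 k21 k149 6 14)))), (.s k232 k212 5 (.s k40 k104 7
  (.s k105 k235 8 (.s k65 k125 5 (.s k195 k130 8 (.d k60 k20 k150 5 14))))))] (.c k64 (.l (.s k232
  k212 5 (.s k104 k40 7 (.s k148 k60 13 (.s k128 k188 5 (.s k149 k191 6 (.s k21 k213 7 (.d k63 k42
  k106 6 14)))))))) (.c k87 (.l (.s k171 k169 0 (.s k64 k128 7 (.s k106 k127 6 (.s k42 k234 7 (.d
  k63 k21 k149 6 14)))))) (.c k171 (.q k87 [(.s k64 k128 7 (.s k106 k127 6 (.s k42 k234 7 (.d k63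
  k21 k149 6 14)))), (.s k232 k212 5 (.s k40 k104 7 (.s k105 k235 8 (.s k65 k125 5 (.s k195 k130 8
  (.d k60 k20 k150 5 14))))))] (.c k64 (.l (.s k232 k212 5 (.s k104 k40 7 (.s k148 k60 13 (.s k128
  k188 5 (.s k149 k191 6 (.s k21 k213 7 (.d k63 k42 k106 6 14)))))))) .n)) .n))))) (.c k84 (.q k150
  [(.s k20 k215 8 (.s k60 k40 5 (.s k130 k190 5 (.d k195 k65 k105 8 14)))), (.s k130 k190 5 (.s k195
  k65 8 (.s k214 k233 6 (.s k86 k22 7 (.s k2 k254 13 (.d k3 k1 k169 0 14)))))), (.s k20 k215 8 (.s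
  k60 k40 5 (.s k188 k124 7 (.s k169 k131 6 (.s k1 k253 13 (.d k3 k2 k86 0 14))))))] (.c k60 (.q
  k166 [(.s k4 k247 12 (.s k162 k174 1 (.s k243 k81 12 (.d k12 k8 k89 1 14)))), (.s k174 k162 1 (.s
  k182 k134 3 (.s k190 k130 5 (.s k142 k158 3 (.d k178 k186 k154 1 5))))), (.s k4 k247 12 (.s k20
  k215 8 (.s k52 k36 3 (.s k134 k182 3 (.d k199 k69 k101 8 12)))))] (.c k125 (.l (.s k190 k130 5 (.s
  k4 k247 12 (.s k12 k8 1 (.s k162 k174 1 (.d k243 k81 k89 12 14)))))) (.c k190 (.q k125 [(.s k4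
  k247 12 (.s k12 k8 1 (.s k243 k89 14 (.d k162 k174 k81 1 12)))), (.s k182 k134 3 (.s k215 k20 8
  (.s k247 k4 12 (.s k52 k117 8 (.d k199 k231 k101 3 12))))), (.s k65 k105 5 (.s k130 k195 8 (.s
  k134 k182 3 (.s k142 k138 1 (.s k162 k174 1 (.d k178 k146 k154 3 5))))))] .n) .n))) (.c k195 (.q
  k1 [(.s k169 k253 13 (.d k3 k2 k86 0 14)), (.s k130 k190 5 (.s k169 k253 13 (.s k131 k188 6 (.s
  k128 k129 0 (.s k171 k168 0 (.d k191 k151 k149 5 6)))))), (.s k2 k3 0 (.s k86 k254 13 (.s k22 k214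
  7 (.s k42 k62 5 (.s k21 k63 6 (.d k20 k23 k215 0 8))))))] (.c k215 (.q k235 [(.s k169 k253 13 (.d
  k3 k2 k86 0 14)), (.s k40 k105 8 (.s k60 k20 5 (.s k169 k253 13 (.d k188 k131 k124 6 7)))), (.s k2
  k3 0 (.s k86 k254 13 (.s k22 k214 7 (.s k62 k42 5 (.s k130 k190 5 (.d k194 k66 k106 7 13))))))]
  .n) (.c k235 (.l (.s k215 k20 8 (.s k3 k2 0 (.d k169 k253 k86 13 14)))) .n))) .n))) (.c k86 (.q k4
  [(.s k166 k247 12 (.s k162 k174 1 (.s k243 k81 12 (.d k12 k8 k89 1 14)))), (.s k12 k8 1 (.s k84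
  k168 13 (.s k92 k172 11 (.s k88 k80 1 (.d k164 k244 k240 11 13)))))] (.c k8 (.l (.s k166 k247 12
  (.s k162 k174 1 (.s k168 k84 13 (.s k169 k171 0 (.s k172 k163 2 (.s k12 k92 11 (.d k243 k89 k81 14
  12)))))))) (.c k12 (.l (.s k84 k168 13 (.s k244 k164 11 (.s k240 k248 1 (.s k160 k80 11 (.s k165
  k175 2 (.s k245 k5 11 (.d k247 k246 k166 0 12)))))))) .n))) (.c k87 (.l (.s k168 k84 13 (.s k169
  k171 0 (.s k3 k86 14 (.d k1 k2 k253 0 13))))) (.c k168 (.q k102 [(.s k34 k238 9 (.s k51 k17 4 (.s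
  k68 k119 4 (.d k204 k136 k153 9 14)))), (.s k68 k119 4 (.s k204 k136 9 (.s k236 k220 3 (.s k169
  k35 10 (.s k1 k253 13 (.d k3 k2 k86 0 14)))))), (.s k34 k238 9 (.s k51 k17 4 (.s k118 k185 10 (.s
  k86 k70 3 (.s k2 k254 13 (.d k3 k1 k169 0 14))))))] (.c k51 (.q k48 [(.s k32 k16 3 (.s k101 k239
  10 (.s k69 k117 3 (.d k207 k138 k154 10 14)))), (.s k116 k184 9 (.s k119 k68 4 (.s k117 k118 0 (.s
  k101 k69 3 (.s k71 k86 4 (.d k103 k100 k87 0 3)))))), (.s k16 k32 3 (.s k154 k223 10 (.s k184 k116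
  9 (.s k169 k139 4 (.s k1 k253 13 (.d k3 k2 k86 0 14))))))] (.c k119 (.q k187 [(.s k32 k16 3 (.s
  k101 k239 10 (.s k207 k154 14 (.d k69 k117 k138 3 10)))), (.s k136 k153 4 (.s k204 k68 9 (.s k100
  k152 13 (.s k101 k103 0 (.s k69 k117 3 (.d k207 k154 k138 14 10)))))), (.s k32 k16 3 (.s k101 k239
  10 (.s k100 k103 0 (.s k136 k153 4 (.d k204 k68 k152 9 13))))), (.s k16 k32 3 (.s k184 k116 9 (.s
  k186 k185 0 (.d k154 k138 k223 3 10))))] .n) (.c k187 (.l (.s k119 k68 4 (.s k16 k32 3 (.s k154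
  k223 10 (.s k138 k186 3 (.d k207 k69 k101 10 14)))))) .n))) (.c k204 (.q k166 [(.s k4 k247 12 (.s
  k162 k174 1 (.s k243 k81 12 (.d k12 k8 k89 1 14)))), (.s k174 k162 1 (.s k230 k38 7 (.s k238 k34 9
  (.s k46 k110 7 (.d k226 k234 k106 1 9))))), (.s k4 k247 12 (.s k38 k230 7 (.s k21 k55 4 (.s k42
  k63 6 (.d k34 k238 k46 9 1)))))] (.c k221 (.l (.s k238 k34 9 (.s k4 k247 12 (.s k12 k8 1 (.s k162
  k174 1 (.d k243 k81 k89 12 14)))))) (.c k238 (.q k221 [(.s k4 k247 12 (.s k162 k174 1 (.s k243 k81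
  12 (.d k12 k8 k89 1 14)))), (.s k119 k68 4 (.s k230 k38 7 (.s k247 k4 12 (.s k55 k183 7 (.d k196
  k213 k149 4 12))))), (.s k17 k153 9 (.s k34 k51 4 (.s k38 k230 7 (.s k46 k42 1 (.s k162 k174 1 (.d
  k226 k98 k106 7 9))))))] .n) .n))) .n))) (.c k169 (.q k4 [(.s k166 k247 12 (.s k162 k174 1 (.s
  k243 k81 12 (.d k12 k8 k89 1 14)))), (.s k12 k8 1 (.s k84 k168 13 (.s k164 k244 11 (.s k88 k240 13
  (.d k92 k80 k172 1 11))))), (.s k84 k168 13 (.s k86 k87 0 (.s k166 k247 12 (.s k6 k246 11 (.s k7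
  k5 0 (.d k244 k164 k165 11 12))))))] .n) (.c k171 (.l (.s k84 k168 13 (.s k86 k87 0 (.s k3 k169 14
  (.d k2 k1 k254 0 13))))) (.c k253 (.l (.s k84 k168 13 (.s k86 k87 0 (.s k2 k254 13 (.d k3 k1 k169
  0 14))))) .n))))))))))))

def t10_51 : T TT 256 :=
  (.q k86 [(.s k84 k87 0 (.s k252 k168 13 (.s k3 k169 14 (.s k2 k1 0 (.d k170 k254 k255 13 14)))))]
  (.c k1 (.q k4 [(.s k84 k87 0 (.s k166 k247 12 (.s k6 k246 11 (.s k244 k164 11 (.d k7 k5 k165 0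
  12))))), (.s k12 k8 1 (.s k166 k247 12 (.s k89 k243 14 (.s k93 k81 1 (.d k255 k174 k170 12
  14))))), (.s k12 k8 1 (.s k84 k87 0 (.s k164 k244 11 (.s k88 k240 13 (.s k92 k80 1 (.d k252 k172
  k168 11 13))))))] .n) (.c k2 (.l (.s k84 k87 0 (.s k252 k168 13 (.s k169 k3 14 (.s k253 k1 13 (.d
  k255 k254 k170 0 14)))))) (.c k3 (.f k87 k84 0 (.q k149 [(.s k21 k213 7 (.s k23 k212 8 (.s k215
  k151 7 (.d k20 k22 k150 0 8)))), (.s k21 k213 7 (.s k63 k42 6 (.s k106 k192 14 (.s k127 k64 6 (.d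
  k255 k191 k170 7 14))))), (.s k23 k212 8 (.s k215 k151 7 (.s k255 k170 14 (.s k195 k235 5 (.s k65
  k130 8 (.s k105 k125 5 (.d k150 k20 k60 8 14)))))))] (.c k19 (.q k35 [(.s k21 k213 7 (.s k23 k212
  8 (.s k215 k151 7 (.d k20 k22 k150 0 8)))), (.s k21 k213 7 (.s k63 k42 6 (.s k106 k192 14 (.s k127
  k64 6 (.d k255 k191 k170 7 14))))), (.s k23 k212 8 (.s k215 k151 7 (.s k255 k170 14 (.s k195 k235
  5 (.s k65 k130 8 (.s k105 k125 5 (.d k150 k20 k60 8 14)))))))] .n) (.c k35 (.q k19 [(.s k21 k213 7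
  (.s k23 k212 8 (.s k215 k151 7 (.d k20 k22 k150 0 8)))), (.s k153 k220 10 (.s k17 k221 9 (.s k16
  k18 0 (.d k223 k155 k154 9 10))))] .n) .n)))) (.c k84 (.q k12 [(.s k4 k8 1 (.s k166 k247 12 (.s
  k89 k243 14 (.s k93 k81 1 (.d k255 k174 k170 12 14))))), (.s k255 k170 14 (.s k93 k174 12 (.s k89
  k81 1 (.s k92 k83 2 (.s k252 k172 11 (.s k169 k3 14 (.d k253 k254 k1 0 13))))))), (.s k170 k255 14
  (.s k2 k254 13 (.s k3 k1 0 (.s k6 k9 2 (.s k166 k246 11 (.d k4 k8 k247 1 12))))))] (.c k166 (.l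
  (.s k8 k4 1 (.s k170 k255 14 (.s k2 k254 13 (.s k3 k1 0 (.s k9 k6 2 (.s k89 k251 12 (.d k169 k252
  k249 14 11)))))))) (.c k170 (.l (.s k4 k8 1 (.s k166 k247 12 (.s k6 k246 11 (.s k89 k243 14 (.s
  k92 k83 2 (.s k252 k172 11 (.d k3 k9 k169 2 14)))))))) (.c k255 (.l (.s k4 k8 1 (.s k166 k247 12
  (.s k243 k89 14 (.s k246 k6 11 (.s k252 k249 2 (.s k169 k3 14 (.d k172 k163 k92 2 11))))))))
  .n)))) (.c k87 (.q k12 [(.s k8 k4 1 (.s k170 k255 14 (.s k89 k251 12 (.s k81 k93 1 (.d k243 k162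
  k166 12 14))))), (.s k255 k170 14 (.s k93 k174 12 (.s k89 k81 1 (.s k92 k83 2 (.s k252 k172 11 (.s
  k169 k3 14 (.d k253 k254 k1 0 13))))))), (.s k170 k255 14 (.s k2 k254 13 (.s k3 k1 0 (.s k6 k9 2
  (.s k166 k246 11 (.d k4 k8 k247 1 12))))))] (.c k3 (.l (.s k4 k8 1 (.s k166 k247 12 (.s k89 k243
  14 (.s k93 k81 1 (.d k255 k174 k170 12 14)))))) (.c k166 (.l (.s k8 k4 1 (.s k170 k255 14 (.s k2
  k254 13 (.s k3 k1 0 (.s k9 k6 2 (.s k89 k251 12 (.d k169 k252 k249 14 11)))))))) (.c k170 (.l (.s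
  k4 k8 1 (.s k166 k247 12 (.s k6 k246 11 (.s k89 k243 14 (.s k92 k83 2 (.s k252 k172 11 (.d k3 k9
  k169 2 14)))))))) (.c k255 (.l (.s k4 k8 1 (.s k166 k247 12 (.s k243 k89 14 (.s k246 k6 11 (.s
  k252 k249 2 (.s k172 k92 11 (.d k169 k163 k3 2 14)))))))) .n))))) (.c k168 (.l (.s k87 k84 0 (.s
  k255 k170 14 (.s k3 k171 13 (.s k169 k252 14 (.d k1 k2 k253 0 13)))))) (.c k169 (.q k4 [(.s k84
  k87 0 (.s k166 k247 12 (.s k6 k246 11 (.s k7 k5 0 (.d k244 k164 k165 11 12))))), (.s k12 k8 1 (.s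
  k166 k247 12 (.s k89 k243 14 (.s k93 k81 1 (.d k255 k174 k170 12 14))))), (.s k12 k8 1 (.s k84 k87
  0 (.s k164 k244 11 (.s k88 k240 13 (.s k92 k80 1 (.d k252 k172 k168 11 13))))))] .n) (.c k170 (.q
  k90 [(.s k80 k95 2 (.s k82 k94 1 (.s k83 k81 0 (.s k84 k87 0 (.d k92 k88 k89 1 2))))), (.s k84 k87
  0 (.s k94 k82 1 (.s k252 k168 13 (.s k15 k173 12 (.s k165 k240 14 (.s k7 k244 12 (.d k3 k169 k11
  14 1))))))), (.s k80 k95 2 (.s k84 k87 0 (.s k240 k160 11 (.s k165 k15 14 (.s k244 k7 12 (.d k252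
  k248 k168 1 13)))))), (.s k80 k95 2 (.s k82 k94 1 (.s k240 k160 11 (.s k3 k161 12 (.s k1 k2 0 (.d
  k169 k253 k252 13 14))))))] .n) (.c k171 (.l (.s k84 k87 0 (.s k252 k168 13 (.s k3 k169 14 (.s
  k170 k255 14 (.d k2 k1 k254 0 13)))))) (.c k252 (.f k255 k170 14 (.f k87 k84 0 (.q k90 [(.s k80
  k95 2 (.s k240 k160 11 (.s k245 k250 2 (.d k165 k5 k15 11 14)))), (.s k94 k82 1 (.s k95 k80 2 (.s
  k83 k91 1 (.d k92 k93 k89 0 2)))), (.s k3 k171 13 (.s k82 k94 1 (.s k240 k161 12 (.s k245 k250 2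
  (.d k165 k15 k5 14 11)))))] (.c k118 (.q k185 [(.s k80 k95 2 (.s k240 k160 11 (.s k245 k250 2 (.d
  k165 k5 k15 11 14)))), (.s k94 k82 1 (.s k95 k80 2 (.s k83 k91 1 (.d k92 k93 k89 0 2)))), (.s k3
  k171 13 (.s k82 k94 1 (.s k240 k161 12 (.s k245 k250 2 (.d k165 k15 k5 14 11)))))] .n) (.c k185
  (.q k118 [(.s k80 k95 2 (.s k240 k160 11 (.s k245 k250 2 (.d k165 k5 k15 11 14)))), (.s k102 k70 3
  (.s k119 k68 4 (.s k71 k103 3 (.d k116 k117 k101 0 4))))] .n) .n))))) (.c k254 (.l (.s k87 k84 0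
  (.s k255 k170 14 (.s k3 k171 13 (.s k1 k2 0 (.d k169 k253 k252 13 14)))))) (.c k255 (.q k212 [(.s
  k23 k149 8 (.s k87 k84 0 (.s k215 k151 7 (.s k150 k20 8 (.d k214 k213 k22 0 7))))), (.s k149 k23 8
  (.s k21 k213 7 (.s k63 k42 6 (.s k192 k106 14 (.s k252 k232 5 (.s k189 k126 8 (.d k169 k129 k3 5
  14))))))), (.s k84 k87 0 (.s k148 k20 7 (.s k252 k168 13 (.s k192 k232 5 (.s k64 k128 7 (.d k104
  k124 k60 5 13))))))] (.c k119 (.q k187 [(.s k23 k149 8 (.s k87 k84 0 (.s k215 k151 7 (.s k150 k20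
  8 (.d k214 k213 k22 0 7))))), (.s k149 k23 8 (.s k21 k213 7 (.s k63 k42 6 (.s k192 k106 14 (.s
  k252 k232 5 (.s k189 k126 8 (.d k169 k129 k3 5 14))))))), (.s k84 k87 0 (.s k148 k20 7 (.s k252
  k168 13 (.s k192 k232 5 (.s k64 k128 7 (.d k104 k124 k60 5 13))))))] .n) (.c k187 (.q k119 [(.s
  k23 k149 8 (.s k87 k84 0 (.s k215 k151 7 (.s k150 k20 8 (.d k214 k213 k22 0 7))))), (.s k68 k102 4
  (.s k84 k87 0 (.s k116 k100 3 (.s k101 k71 4 (.d k117 k118 k69 0 3))))), (.s k102 k68 4 (.s k70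
  k118 3 (.s k149 k23 8 (.s k196 k55 12 (.s k7 k133 8 (.d k244 k228 k165 3 12))))))] .n) .n)))
  .n)))))))))))))

def t10_54 : T TT 256 :=
  (.f k170 k255 14 (.q k252 [(.s k84 k168 13 (.s k86 k87 0 (.s k2 k254 13 (.d k3 k1 k169 0 14))))]
  (.c k1 (.q k4 [(.s k12 k8 1 (.s k166 k247 12 (.s k162 k174 1 (.d k243 k81 k89 12 14)))), (.s k12
  k8 1 (.s k84 k168 13 (.s k92 k172 11 (.s k88 k80 1 (.d k164 k244 k240 11 13))))), (.s k84 k168 13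
  (.s k86 k87 0 (.s k166 k247 12 (.s k6 k246 11 (.s k7 k5 0 (.d k244 k164 k165 11 12))))))] (.c k9
  (.l (.s k166 k247 12 (.s k162 k174 1 (.s k243 k81 12 (.d k12 k8 k89 1 14))))) .n)) (.c k2 (.f k84
  k168 13 (.f k86 k87 0 (.f k3 k169 14 (.q k6 [(.s k12 k9 2 (.s k166 k246 11 (.d k4 k8 k247 1 12))),
  (.s k166 k246 11 (.s k4 k247 12 (.s k7 k5 0 (.d k244 k164 k165 11 12)))), (.s k12 k9 2 (.s k92
  k172 11 (.s k89 k83 2 (.d k166 k246 k243 11 14)))), (.s k12 k9 2 (.s k8 k4 1 (.s k89 k251 12 (.d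
  k92 k83 k172 2 11))))] .n)))) (.c k3 (.f k168 k84 13 (.q k192 [(.s k64 k128 7 (.s k106 k127 6 (.s
  k42 k234 7 (.d k63 k21 k149 6 14)))), (.s k232 k212 5 (.s k40 k104 7 (.s k105 k235 8 (.s k65 k125
  5 (.s k195 k130 8 (.d k60 k20 k150 5 14))))))] (.c k64 (.l (.s k232 k212 5 (.s k104 k40 7 (.s k148
  k60 13 (.s k128 k188 5 (.s k149 k191 6 (.s k21 k213 7 (.d k63 k42 k106 6 14)))))))) (.c k87 (.l
  (.s k171 k169 0 (.s k64 k128 7 (.s k106 k127 6 (.s k42 k234 7 (.d k63 k21 k149 6 14)))))) (.c k171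
  (.q k87 [(.s k64 k128 7 (.s k106 k127 6 (.s k42 k234 7 (.d k63 k21 k149 6 14)))), (.s k232 k212 5
  (.s k40 k104 7 (.s k105 k235 8 (.s k65 k125 5 (.s k195 k130 8 (.d k60 k20 k150 5 14))))))] (.c k64
  (.l (.s k232 k212 5 (.s k104 k40 7 (.s k148 k60 13 (.s k128 k188 5 (.s k149 k191 6 (.s k21 k213 7
  (.d k63 k42 k106 6 14)))))))) .n)) .n))))) (.c k84 (.q k149 [(.s k21 k213 7 (.s k63 k42 6 (.s k128
  k191 6 (.d k192 k64 k106 7 14)))), (.s k128 k191 6 (.s k192 k64 7 (.s k212 k232 5 (.s k86 k23 8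
  (.s k2 k254 13 (.d k3 k1 k169 0 14)))))), (.s k21 k213 7 (.s k63 k42 6 (.s k189 k126 8 (.s k169
  k129 5 (.s k1 k253 13 (.d k3 k2 k86 0 14))))))] (.c k63 (.q k188 [(.s k191 k128 6 (.s k190 k189 0
  (.s k150 k130 5 (.s k131 k169 6 (.d k151 k148 k171 0 5))))), (.s k60 k124 7 (.s k20 k40 5 (.s k150
  k215 8 (.s k130 k190 5 (.d k195 k65 k105 8 14))))), (.s k60 k124 7 (.s k20 k40 5 (.s k150 k215 8
  (.s k148 k151 0 (.d k128 k191 k168 6 5)))))] (.c k127 (.l (.s k191 k128 6 (.s k60 k124 7 (.s k20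
  k40 5 (.s k150 k215 8 (.d k190 k189 k130 0 5)))))) (.c k150 (.l (.s k191 k128 6 (.s k189 k190 0
  (.s k169 k129 5 (.s k1 k253 13 (.d k3 k2 k86 0 14)))))) (.c k191 (.q k127 [(.s k60 k124 7 (.s k20
  k40 5 (.s k150 k215 8 (.s k130 k190 5 (.d k195 k65 k105 8 14))))), (.s k64 k106 6 (.s k128 k192 7
  (.s k168 k148 5 (.s k169 k171 0 (.s k1 k253 13 (.d k3 k2 k86 0 14)))))), (.s k64 k106 6 (.s k128
  k192 7 (.s k148 k168 5 (.s k150 k151 0 (.s k131 k169 6 (.d k130 k129 k190 0 5))))))] (.c k64 (.l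
  (.s k21 k213 7 (.s k124 k60 7 (.s k125 k126 0 (.s k105 k65 5 (.s k61 k193 13 (.s k1 k41 5 (.d k253
  k189 k169 7 13)))))))) .n)) .n)))) (.c k192 (.q k129 [(.s k189 k169 5 (.s k63 k126 8 (.d k21 k213
  k42 7 6))), (.s k128 k191 6 (.s k130 k131 0 (.s k65 k195 8 (.s k105 k125 5 (.d k193 k1 k61 7
  13)))))] (.c k63 (.l (.s k169 k189 5 (.s k1 k253 13 (.d k3 k2 k86 0 14)))) (.c k213 (.q k234 [(.s
  k42 k106 7 (.s k63 k21 6 (.d k189 k169 k126 5 8))), (.s k128 k191 6 (.s k130 k131 0 (.s k65 k195 8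
  (.s k105 k125 5 (.d k193 k1 k61 7 13)))))] (.c k63 (.l (.s k169 k189 5 (.s k1 k253 13 (.d k3 k2
  k86 0 14)))) .n)) (.c k234 (.l (.s k213 k21 7 (.s k169 k189 5 (.s k1 k253 13 (.d k3 k2 k86 0
  14))))) .n)))) .n))) (.c k86 (.q k4 [(.s k166 k247 12 (.s k162 k174 1 (.s k243 k81 12 (.d k12 k8
  k89 1 14)))), (.s k12 k8 1 (.s k84 k168 13 (.s k92 k172 11 (.s k88 k80 1 (.d k164 k244 k240 11
  13)))))] (.c k8 (.l (.s k166 k247 12 (.s k162 k174 1 (.s k168 k84 13 (.s k169 k171 0 (.s k172 k163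
  2 (.s k12 k92 11 (.d k243 k89 k81 14 12)))))))) (.c k12 (.l (.s k84 k168 13 (.s k244 k164 11 (.s
  k240 k248 1 (.s k160 k80 11 (.s k165 k175 2 (.s k245 k5 11 (.d k247 k246 k166 0 12)))))))) .n)))
  (.c k87 (.l (.s k168 k84 13 (.s k169 k171 0 (.s k3 k86 14 (.d k1 k2 k253 0 13))))) (.c k168 (.q
  k149 [(.s k21 k213 7 (.s k128 k191 6 (.s k192 k64 7 (.d k63 k42 k106 6 14)))), (.s k128 k191 6 (.s
  k192 k64 7 (.s k212 k232 5 (.s k86 k23 8 (.s k2 k254 13 (.d k3 k1 k169 0 14)))))), (.s k21 k213 7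
  (.s k63 k42 6 (.s k189 k126 8 (.s k169 k129 5 (.s k1 k253 13 (.d k3 k2 k86 0 14))))))] (.c k63 (.q
  k212 [(.s k192 k232 5 (.d k128 k191 k64 6 7)), (.s k86 k23 8 (.s k2 k254 13 (.d k3 k1 k169 0
  14)))] (.c k127 (.l (.s k191 k128 6 (.s k86 k23 8 (.s k2 k254 13 (.d k3 k1 k169 0 14))))) (.c k191
  (.q k127 [(.s k64 k106 6 (.d k192 k232 k128 5 7)), (.s k86 k23 8 (.s k2 k254 13 (.d k3 k1 k169 0
  14)))] .n) .n))) (.c k192 (.q k132 [(.s k128 k191 6 (.s k140 k136 1 (.s k166 k183 4 (.s k162 k174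
  1 (.d k179 k145 k153 4 6))))), (.s k166 k183 4 (.s k4 k247 12 (.s k12 k8 1 (.s k162 k174 1 (.d
  k243 k81 k89 12 14))))), (.s k128 k191 6 (.s k136 k140 1 (.s k68 k204 9 (.s k102 k119 4 (.d k196
  k4 k55 7 12))))), (.s k128 k191 6 (.s k166 k183 4 (.s k4 k247 12 (.s k68 k196 7 (.d k136 k204 k140
  9 1)))))] (.c k213 (.q k234 [(.s k128 k191 6 (.s k140 k136 1 (.s k166 k183 4 (.s k162 k174 1 (.d
  k179 k145 k153 4 6))))), (.s k166 k183 4 (.s k4 k247 12 (.s k12 k8 1 (.s k162 k174 1 (.d k243 k81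
  k89 12 14))))), (.s k128 k191 6 (.s k136 k140 1 (.s k68 k204 9 (.s k102 k119 4 (.d k196 k4 k55 7
  12))))), (.s k42 k106 7 (.s k21 k63 6 (.s k166 k183 4 (.s k4 k247 12 (.s k55 k38 4 (.d k196 k68
  k102 7 12))))))] .n) (.c k234 (.l (.s k213 k21 7 (.s k128 k191 6 (.s k136 k140 1 (.s k68 k204 9
  (.s k102 k119 4 (.d k196 k4 k55 7 12))))))) .n))) .n))) (.c k169 (.q k4 [(.s k166 k247 12 (.s k162
  k174 1 (.s k243 k81 12 (.d k12 k8 k89 1 14)))), (.s k12 k8 1 (.s k84 k168 13 (.s k164 k244 11 (.s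
  k88 k240 13 (.d k92 k80 k172 1 11))))), (.s k84 k168 13 (.s k86 k87 0 (.s k166 k247 12 (.s k6 k246
  11 (.s k7 k5 0 (.d k244 k164 k165 11 12))))))] .n) (.c k171 (.l (.s k84 k168 13 (.s k86 k87 0 (.s
  k3 k169 14 (.d k2 k1 k254 0 13))))) (.c k254 (.l (.s k168 k84 13 (.s k169 k171 0 (.s k1 k253 13
  (.d k3 k2 k86 0 14))))) .n))))))))))))

def t10_55 : T TT 256 :=
  (.f k170 k255 14 (.q k252 [(.s k84 k168 13 (.s k86 k87 0 (.s k2 k254 13 (.d k3 k1 k169 0 14))))]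
  (.c k1 (.q k4 [(.s k12 k8 1 (.s k166 k247 12 (.s k162 k174 1 (.d k243 k81 k89 12 14)))), (.s k12
  k8 1 (.s k84 k168 13 (.s k92 k172 11 (.s k88 k80 1 (.d k164 k244 k240 11 13))))), (.s k84 k168 13
  (.s k86 k87 0 (.s k166 k247 12 (.s k6 k246 11 (.s k7 k5 0 (.d k244 k164 k165 11 12))))))] (.c k9
  (.l (.s k166 k247 12 (.s k162 k174 1 (.s k243 k81 12 (.d k12 k8 k89 1 14))))) .n)) (.c k2 (.f k84
  k168 13 (.f k86 k87 0 (.f k3 k169 14 (.q k6 [(.s k12 k9 2 (.s k166 k246 11 (.d k4 k8 k247 1 12))),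
  (.s k166 k246 11 (.s k4 k247 12 (.s k7 k5 0 (.d k244 k164 k165 11 12)))), (.s k12 k9 2 (.s k92
  k172 11 (.s k89 k83 2 (.d k166 k246 k243 11 14)))), (.s k12 k9 2 (.s k8 k4 1 (.s k89 k251 12 (.d
  k92 k83 k172 2 11))))] .n)))) (.c k3 (.f k168 k84 13 (.q k192 [(.s k64 k128 7 (.s k106 k127 6 (.s
  k42 k234 7 (.d k63 k21 k149 6 14)))), (.s k232 k212 5 (.s k40 k104 7 (.s k105 k235 8 (.s k65 k125
  5 (.s k195 k130 8 (.d k60 k20 k150 5 14))))))] (.c k64 (.l (.s k232 k212 5 (.s k104 k40 7 (.s k148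
  k60 13 (.s k128 k188 5 (.s k149 k191 6 (.s k21 k213 7 (.d k63 k42 k106 6 14)))))))) (.c k87 (.l
  (.s k171 k169 0 (.s k64 k128 7 (.s k106 k127 6 (.s k42 k234 7 (.d k63 k21 k149 6 14)))))) (.c k171
  (.q k87 [(.s k64 k128 7 (.s k106 k127 6 (.s k42 k234 7 (.d k63 k21 k149 6 14)))), (.s k232 k212 5
  (.s k40 k104 7 (.s k105 k235 8 (.s k65 k125 5 (.s k195 k130 8 (.d k60 k20 k150 5 14))))))] (.c k64
  (.l (.s k232 k212 5 (.s k104 k40 7 (.s k148 k60 13 (.s k128 k188 5 (.s k149 k191 6 (.s k21 k213 7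
  (.d k63 k42 k106 6 14)))))))) .n)) .n))))) (.c k84 (.q k149 [(.s k21 k213 7 (.s k63 k42 6 (.s k128
  k191 6 (.d k192 k64 k106 7 14)))), (.s k128 k191 6 (.s k192 k64 7 (.s k212 k232 5 (.s k86 k23 8
  (.s k2 k254 13 (.d k3 k1 k169 0 14)))))), (.s k21 k213 7 (.s k63 k42 6 (.s k189 k126 8 (.s k169
  k129 5 (.s k1 k253 13 (.d k3 k2 k86 0 14))))))] (.c k63 (.f k191 k128 6 (.q k51 [(.s k17 k34 4 (.s
  k153 k221 9 (.s k136 k187 4 (.d k204 k68 k102 9 14)))), (.s k17 k34 4 (.s k21 k213 7 (.s k29 k25 1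
  (.s k89 k209 9 (.s k93 k81 1 (.d k221 k157 k153 7 9))))))] (.c k17 (.q k1 [(.s k169 k253 13 (.d k3
  k2 k86 0 14)), (.s k21 k213 7 (.s k61 k41 5 (.s k105 k193 13 (.s k125 k65 5 (.d k253 k189 k169 7
  13))))), (.s k2 k3 0 (.s k86 k254 13 (.s k118 k185 10 (.s k102 k70 3 (.s k68 k119 4 (.d k204 k136
  k153 9 14))))))] .n) (.c k34 (.q k1 [(.s k169 k253 13 (.d k3 k2 k86 0 14)), (.s k21 k213 7 (.s k61
  k41 5 (.s k105 k193 13 (.s k125 k65 5 (.d k253 k189 k169 7 13))))), (.s k2 k3 0 (.s k86 k254 13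
  (.s k118 k185 10 (.s k102 k70 3 (.s k68 k119 4 (.d k204 k136 k153 9 14))))))] .n) (.c k153 (.l (.s
  k34 k17 4 (.s k102 k238 9 (.s k118 k185 10 (.s k86 k70 3 (.s k2 k254 13 (.d k3 k169 k1 14 0)))))))
  (.c k221 (.l (.s k34 k17 4 (.s k102 k238 9 (.s k204 k153 14 (.d k68 k119 k136 4 9))))) .n))))))
  (.c k192 (.q k160 [(.s k165 k175 2 (.s k181 k133 3 (.s k240 k80 11 (.s k63 k122 10 (.d k21 k213
  k42 7 6))))), (.s k80 k240 11 (.s k128 k191 6 (.s k144 k176 3 (.s k154 k159 2 (.d k16 k208 k223 7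
  10))))), (.s k128 k191 6 (.s k165 k175 2 (.s k133 k181 3 (.s k143 k138 2 (.d k176 k144 k154 3
  6))))), (.s k80 k240 11 (.s k90 k95 2 (.s k208 k31 10 (.s k144 k16 7 (.d k128 k176 k191 3 6)))))]
  (.c k175 (.l (.s k80 k240 11 (.s k128 k191 6 (.s k144 k176 3 (.s k208 k16 7 (.d k90 k95 k31 2
  10)))))) (.c k213 (.q k234 [(.s k42 k106 7 (.s k63 k21 6 (.s k165 k175 2 (.s k181 k133 3 (.d k240
  k122 k80 10 11))))), (.s k80 k240 11 (.s k128 k191 6 (.s k144 k176 3 (.s k208 k16 7 (.d k90 k95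
  k31 2 10))))), (.s k106 k42 7 (.s k165 k175 2 (.s k224 k47 10 (.s k32 k96 7 (.d k239 k229 k101 2
  10)))))] (.c k95 (.l (.s k42 k106 7 (.s k63 k21 6 (.s k240 k80 11 (.s k181 k122 10 (.d k165 k175
  k133 2 3)))))) .n)) (.c k234 (.l (.s k213 k21 7 (.s k80 k240 11 (.s k90 k95 2 (.s k128 k191 6 (.s
  k144 k176 3 (.d k208 k16 k31 7 10))))))) .n)))) .n))) (.c k86 (.q k4 [(.s k166 k247 12 (.s k162
  k174 1 (.s k243 k81 12 (.d k12 k8 k89 1 14)))), (.s k12 k8 1 (.s k84 k168 13 (.s k92 k172 11 (.s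
  k88 k80 1 (.d k164 k244 k240 11 13)))))] (.c k8 (.l (.s k166 k247 12 (.s k162 k174 1 (.s k168 k84
  13 (.s k169 k171 0 (.s k172 k163 2 (.s k12 k92 11 (.d k243 k89 k81 14 12)))))))) (.c k12 (.l (.s
  k84 k168 13 (.s k244 k164 11 (.s k240 k248 1 (.s k160 k80 11 (.s k165 k175 2 (.s k245 k5 11 (.d
  k247 k246 k166 0 12)))))))) .n))) (.c k87 (.l (.s k168 k84 13 (.s k169 k171 0 (.s k3 k86 14 (.d k1
  k2 k253 0 13))))) (.c k168 (.q k150 [(.s k20 k215 8 (.s k130 k190 5 (.s k195 k65 8 (.d k60 k40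
  k105 5 14)))), (.s k130 k190 5 (.s k195 k65 8 (.s k214 k233 6 (.s k86 k22 7 (.s k2 k254 13 (.d k3
  k1 k169 0 14)))))), (.s k20 k215 8 (.s k60 k40 5 (.s k188 k124 7 (.s k169 k131 6 (.s k1 k253 13
  (.d k3 k2 k86 0 14))))))] (.c k60 (.q k154 [(.s k16 k223 10 (.s k138 k186 3 (.s k207 k69 10 (.d
  k48 k32 k101 3 14)))), (.s k158 k146 1 (.s k186 k138 3 (.s k190 k130 5 (.s k142 k174 3 (.d k178
  k182 k166 1 5))))), (.s k16 k223 10 (.s k20 k215 8 (.s k28 k24 1 (.s k146 k158 1 (.d k211 k81 k89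
  8 10)))))] (.c k125 (.l (.s k190 k130 5 (.s k16 k223 10 (.s k48 k32 3 (.s k138 k186 3 (.d k207 k69
  k101 10 14)))))) (.c k190 (.q k125 [(.s k16 k223 10 (.s k48 k32 3 (.s k207 k101 14 (.d k138 k186
  k69 3 10)))), (.s k158 k146 1 (.s k215 k20 8 (.s k223 k16 10 (.s k28 k93 8 (.d k211 k219 k89 1
  10))))), (.s k65 k105 5 (.s k130 k195 8 (.s k138 k186 3 (.s k142 k134 1 (.s k146 k158 1 (.d k178
  k162 k166 3 5))))))] .n) .n))) (.c k195 (.q k154 [(.s k16 k223 10 (.s k138 k186 3 (.s k207 k69 10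
  (.d k48 k32 k101 3 14)))), (.s k130 k190 5 (.s k138 k186 3 (.s k142 k134 1 (.s k146 k158 1 (.d
  k178 k162 k166 3 5))))), (.s k16 k223 10 (.s k130 k190 5 (.s k146 k158 1 (.s k81 k211 8 (.d k162
  k243 k178 12 3)))))] (.c k215 (.q k235 [(.s k138 k186 3 (.s k207 k69 10 (.s k48 k101 14 (.d k16
  k32 k223 3 10)))), (.s k16 k223 10 (.s k130 k190 5 (.s k146 k158 1 (.s k162 k178 3 (.d k81 k211
  k243 8 12))))), (.s k105 k40 8 (.s k138 k186 3 (.s k203 k56 12 (.s k8 k73 8 (.d k251 k219 k89 3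
  12)))))] (.c k186 (.l (.s k16 k223 10 (.s k40 k105 8 (.s k20 k60 5 (.s k24 k28 1 (.s k8 k56 3 (.d
  k89 k219 k251 8 12))))))) .n)) (.c k235 (.l (.s k215 k20 8 (.s k16 k223 10 (.s k48 k32 3 (.s k138
  k186 3 (.d k207 k69 k101 10 14)))))) .n))) .n))) (.c k169 (.q k4 [(.s k166 k247 12 (.s k162 k174 1
  (.s k243 k81 12 (.d k12 k8 k89 1 14)))), (.s k12 k8 1 (.s k84 k168 13 (.s k164 k244 11 (.s k88
  k240 13 (.d k92 k80 k172 1 11))))), (.s k84 k168 13 (.s k86 k87 0 (.s k166 k247 12 (.s k6 k246 11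
  (.s k7 k5 0 (.d k244 k164 k165 11 12))))))] .n) (.c k171 (.l (.s k84 k168 13 (.s k86 k87 0 (.s k3
  k169 14 (.d k2 k1 k254 0 13))))) (.c k254 (.l (.s k168 k84 13 (.s k169 k171 0 (.s k1 k253 13 (.d
  k3 k2 k86 0 14))))) .n))))))))))))

def t10_58 : T TT 256 :=
  (.f k170 k255 14 (.q k42 [(.s k63 k21 6 (.s k106 k234 7 (.s k64 k127 6 (.d k192 k128 k149 7
  14))))] (.c k21 (.q k1 [(.s k169 k253 13 (.s k168 k171 0 (.s k252 k84 13 (.d k3 k2 k86 0 14)))),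
  (.s k106 k234 7 (.s k169 k253 13 (.s k43 k232 8 (.s k40 k41 0 (.s k171 k168 0 (.d k235 k107 k105 7
  8)))))), (.s k2 k3 0 (.s k62 k22 5 (.s k106 k234 7 (.s k150 k194 13 (.s k190 k130 5 (.d k254 k126
  k86 7 13))))))] (.c k171 (.l (.s k3 k2 0 (.s k106 k234 7 (.s k64 k127 6 (.s k169 k253 13 (.s k43
  k232 8 (.s k63 k23 5 (.d k192 k128 k149 7 14)))))))) (.c k254 (.l (.s k3 k2 0 (.s k169 k253 13 (.s
  k252 k86 14 (.d k168 k171 k84 0 13))))) .n))) (.c k63 (.q k48 [(.s k16 k32 3 (.s k154 k223 10 (.s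
  k207 k101 14 (.d k138 k186 k69 3 10)))), (.s k32 k16 3 (.s k47 k37 2 (.s k106 k234 7 (.s k165 k224
  10 (.s k175 k160 2 (.d k239 k111 k101 7 10))))))] (.c k16 (.f k106 k234 7 (.q k192 [(.d k64 k127
  k128 6 7), (.s k96 k144 11 (.s k101 k111 2 (.s k69 k117 3 (.d k207 k138 k154 10 14))))] (.c k127
  (.q k191 [(.d k128 k149 k64 6 7), (.s k96 k144 11 (.s k101 k111 2 (.s k69 k117 3 (.d k207 k138
  k154 10 14))))] .n) (.c k191 (.l (.s k127 k64 6 (.s k96 k144 11 (.s k101 k111 2 (.s k69 k117 3 (.d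
  k207 k138 k154 10 14)))))) .n)))) (.c k32 (.f k106 k234 7 (.q k192 [(.d k64 k127 k128 6 7), (.s
  k96 k144 11 (.s k101 k111 2 (.s k69 k117 3 (.d k207 k138 k154 10 14))))] (.c k127 (.q k191 [(.d
  k128 k149 k64 6 7), (.s k96 k144 11 (.s k101 k111 2 (.s k69 k117 3 (.d k207 k138 k154 10 14))))]
  .n) (.c k191 (.l (.s k127 k64 6 (.s k96 k144 11 (.s k101 k111 2 (.s k69 k117 3 (.d k207 k138 k154
  10 14)))))) .n)))) (.c k101 (.q k191 [(.s k106 k234 7 (.s k64 k127 6 (.d k128 k192 k149 7 6))),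
  (.s k16 k32 3 (.s k154 k223 10 (.s k186 k138 3 (.s k176 k181 2 (.s k240 k112 7 (.s k160 k80 11 (.d
  k165 k175 k143 2 6)))))))] (.c k64 (.l (.s k16 k32 3 (.s k128 k149 6 (.s k154 k223 10 (.s k138
  k186 3 (.s k143 k133 2 (.s k165 k176 6 (.d k175 k160 k159 2 3)))))))) .n)) (.c k127 (.q k191 [(.s
  k16 k32 3 (.s k154 k223 10 (.s k207 k101 14 (.d k138 k186 k69 3 10)))), (.s k16 k32 3 (.s k128
  k149 6 (.s k192 k64 7 (.s k144 k96 11 (.s k80 k208 7 (.d k160 k176 k240 3 11)))))), (.s k106 k234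
  7 (.s k128 k149 6 (.s k192 k64 7 (.s k96 k144 11 (.s k101 k111 2 (.s k69 k117 3 (.d k207 k154 k138
  14 10)))))))] .n) (.c k191 (.q k127 [(.d k106 k64 k234 6 7), (.s k16 k32 3 (.s k154 k223 10 (.s
  k138 k186 3 (.d k207 k69 k101 10 14))))] .n) (.c k239 (.l (.s k16 k32 3 (.s k154 k223 10 (.s k207
  k101 14 (.d k138 k186 k69 3 10))))) .n))))))) (.c k64 (.q k1 [(.s k3 k2 0 (.s k169 k253 13 (.s
  k168 k171 0 (.d k252 k84 k86 13 14)))), (.s k21 k63 6 (.s k41 k61 5 (.s k43 k40 0 (.s k106 k234 7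
  (.d k169 k232 k253 8 13))))), (.s k3 k2 0 (.s k21 k63 6 (.s k41 k61 5 (.s k40 k43 0 (.d k60 k20
  k22 5 6)))))] .n) (.c k106 (.f k63 k21 6 (.q k2 [(.s k86 k254 13 (.s k84 k87 0 (.s k252 k168 13
  (.d k3 k1 k169 0 14)))), (.s k62 k22 5 (.s k60 k61 0 (.s k20 k40 5 (.s k150 k215 8 (.s k130 k190 5
  (.d k195 k65 k105 8 14))))))] (.c k1 (.l (.s k22 k62 5 (.s k86 k254 13 (.s k84 k87 0 (.s k252 k168
  13 (.s k3 k169 14 (.s k41 k60 6 (.d k43 k40 k23 0 5)))))))) (.c k154 (.q k202 [(.s k86 k254 13 (.s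
  k84 k87 0 (.s k252 k168 13 (.d k3 k1 k169 0 14)))), (.s k62 k22 5 (.s k60 k61 0 (.s k20 k40 5 (.s
  k150 k215 8 (.s k130 k190 5 (.d k195 k65 k105 8 14))))))] (.c k1 (.l (.s k22 k62 5 (.s k86 k254 13
  (.s k84 k87 0 (.s k252 k168 13 (.s k3 k169 14 (.s k41 k60 6 (.d k43 k40 k23 0 5)))))))) .n)) (.c
  k202 (.q k154 [(.s k16 k223 10 (.s k48 k32 3 (.s k138 k186 3 (.d k207 k69 k101 10 14)))), (.s k3
  k1 0 (.s k22 k62 5 (.s k41 k60 6 (.d k43 k40 k23 0 5))))] (.c k74 (.l (.s k138 k186 3 (.s k16 k223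
  10 (.s k48 k32 3 (.d k207 k69 k101 10 14))))) (.c k138 (.q k74 [(.s k86 k254 13 (.s k84 k87 0 (.s
  k252 k168 13 (.d k3 k1 k169 0 14)))), (.s k3 k1 0 (.s k22 k62 5 (.s k41 k60 6 (.d k43 k40 k23 0
  5)))), (.s k16 k223 10 (.s k86 k254 13 (.s k18 k222 9 (.s k17 k19 0 (.d k34 k50 k51 3 4)))))] .n)
  .n))) .n))))) (.c k127 (.q k48 [(.s k16 k32 3 (.s k154 k223 10 (.s k207 k101 14 (.d k138 k186 k69
  3 10)))), (.s k32 k16 3 (.s k47 k37 2 (.s k63 k21 6 (.s k106 k234 7 (.s k192 k149 14 (.s k96 k144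
  11 (.d k224 k160 k165 7 10))))))), (.s k63 k21 6 (.s k106 k234 7 (.s k192 k149 14 (.s k96 k144 11
  (.s k101 k111 2 (.s k69 k117 3 (.d k207 k154 k138 14 10)))))))] (.c k63 (.q k191 [(.s k16 k32 3
  (.s k154 k223 10 (.s k207 k101 14 (.d k138 k186 k69 3 10)))), (.s k16 k32 3 (.s k128 k149 6 (.s
  k192 k64 7 (.s k144 k96 11 (.s k80 k208 7 (.d k160 k176 k240 3 11)))))), (.s k106 k234 7 (.s k128
  k149 6 (.s k192 k64 7 (.s k96 k144 11 (.s k101 k111 2 (.s k69 k117 3 (.d k207 k154 k138 14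
  10)))))))] .n) (.c k154 (.l (.s k32 k16 3 (.s k37 k47 2 (.s k101 k239 10 (.s k165 k229 7 (.s k5
  k245 11 (.d k21 k53 k63 3 6))))))) (.c k191 (.l (.s k63 k21 6 (.s k16 k32 3 (.s k154 k223 10 (.s
  k138 k186 3 (.d k207 k69 k101 10 14)))))) .n)))) (.c k128 (.q k1 [(.s k169 k253 13 (.s k168 k171 0
  (.s k252 k84 13 (.d k3 k2 k86 0 14)))), (.s k21 k63 6 (.s k41 k61 5 (.s k43 k40 0 (.s k106 k234 7
  (.d k169 k232 k253 8 13))))), (.s k3 k2 0 (.s k21 k63 6 (.s k41 k61 5 (.s k40 k43 0 (.d k60 k20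
  k22 5 6)))))] .n) (.c k149 (.q k1 [(.s k169 k253 13 (.s k168 k171 0 (.s k252 k84 13 (.d k3 k2 k86
  0 14)))), (.s k21 k63 6 (.s k41 k61 5 (.s k43 k40 0 (.s k106 k234 7 (.d k169 k232 k253 8 13))))),
  (.s k3 k2 0 (.s k21 k63 6 (.s k41 k61 5 (.s k40 k43 0 (.d k60 k20 k22 5 6)))))] .n) (.c k192 (.q
  k2 [(.s k3 k1 0 (.s k86 k254 13 (.s k84 k87 0 (.d k252 k168 k169 13 14)))), (.s k3 k1 0 (.s k21
  k63 6 (.s k22 k62 5 (.s k20 k23 0 (.d k60 k40 k41 5 6))))), (.s k21 k63 6 (.s k22 k62 5 (.s k23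
  k20 0 (.s k86 k254 13 (.d k149 k213 k212 7 8)))))] (.c k213 (.l (.s k234 k106 7 (.s k3 k1 0 (.s
  k86 k254 13 (.s k84 k87 0 (.d k252 k168 k169 13 14)))))) (.c k234 (.q k213 [(.d k21 k63 k149 6 7),
  (.s k3 k1 0 (.s k86 k254 13 (.s k84 k87 0 (.d k252 k168 k169 13 14))))] .n) .n))) (.c k213 (.l (.s
  k63 k21 6 (.s k106 k234 7 (.s k192 k149 14 (.d k64 k127 k128 6 7))))) (.c k234 (.q k2 [(.s k3 k1 0
  (.s k86 k254 13 (.s k84 k87 0 (.d k252 k168 k169 13 14)))), (.s k3 k1 0 (.s k21 k63 6 (.s k22 k62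
  5 (.s k20 k23 0 (.d k60 k40 k41 5 6))))), (.s k21 k63 6 (.s k22 k62 5 (.s k23 k20 0 (.s k86 k254
  13 (.d k149 k213 k212 7 8)))))] (.c k192 (.q k213 [(.d k21 k63 k149 6 7), (.s k3 k1 0 (.s k86 k254
  13 (.s k84 k87 0 (.d k252 k168 k169 13 14))))] .n) (.c k213 (.q k192 [(.s k63 k21 6 (.s k64 k128 7
  (.d k106 k127 k149 6 14))), (.s k3 k1 0 (.s k86 k254 13 (.s k84 k87 0 (.d k252 k168 k169 13
  14))))] .n) .n))) .n))))))))))))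

/-- roots with certificates -/
def certs : List (Cell TT 256 × Cell TT 256 × T TT 256) :=
  [(k7, k169, t7_169), (k7, k171, t7_171), (k7, k172, t7_172), (k7, k173, t7_173), (k7, k174,
  t7_174), (k7, k175, t7_175), (k7, k176, t7_176), (k7, k177, t7_177), (k7, k178, t7_178), (k7,
  k179, t7_179), (k7, k180, t7_180), (k7, k181, t7_181), (k7, k182, t7_182), (k7, k183, t7_183),
  (k7, k184, t7_184), (k7, k185, t7_185), (k7, k186, t7_186), (k7, k187, t7_187), (k7, k188,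
  t7_188), (k7, k189, t7_189), (k7, k190, t7_190), (k7, k191, t7_191), (k7, k240, t7_240), (k7,
  k241, t7_241), (k7, k242, t7_242), (k7, k243, t7_243), (k7, k244, t7_244), (k7, k245, t7_245),
  (k7, k246, t7_246), (k7, k247, t7_247), (k7, k248, t7_248), (k7, k249, t7_249), (k7, k250,
  t7_250), (k7, k251, t7_251), (k7, k252, t7_252), (k7, k253, t7_253), (k7, k254, t7_254), (k10,
  k11, t10_11), (k10, k15, t10_15), (k10, k26, t10_26), (k10, k27, t10_27), (k10, k31, t10_31),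
  (k10, k34, t10_34), (k10, k35, t10_35), (k10, k38, t10_38), (k10, k39, t10_39), (k10, k42,
  t10_42), (k10, k43, t10_43), (k10, k47, t10_47), (k10, k50, t10_50), (k10, k51, t10_51), (k10,
  k54, t10_54), (k10, k55, t10_55), (k10, k58, t10_58)]

theorem c7_169 : rootOK k7 k169 t7_169 = true := by decide +kernel

theorem c7_171 : rootOK k7 k171 t7_171 = true := by decide +kernel

theorem c7_172 : rootOK k7 k172 t7_172 = true := by decide +kernel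

theorem c7_173 : rootOK k7 k173 t7_173 = true := by decide +kernel

theorem c7_174 : rootOK k7 k174 t7_174 = true := by decide +kernel

theorem c7_175 : rootOK k7 k175 t7_175 = true := by decide +kernel

theorem c7_176 : rootOK k7 k176 t7_176 = true := by decide +kernel

theorem c7_177 : rootOK k7 k177 t7_177 = true := by decide +kernel

theorem c7_178 : rootOK k7 k178 t7_178 = true := by decide +kernel

theorem c7_179 : rootOK k7 k179 t7_179 = true := by decide +kernel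

theorem c7_180 : rootOK k7 k180 t7_180 = true := by decide +kernel

theorem c7_181 : rootOK k7 k181 t7_181 = true := by decide +kernel

theorem c7_182 : rootOK k7 k182 t7_182 = true := by decide +kernel

theorem c7_183 : rootOK k7 k183 t7_183 = true := by decide +kernel

theorem c7_184 : rootOK k7 k184 t7_184 = true := by decide +kernel

theorem c7_185 : rootOK k7 k185 t7_185 = true := by decide +kernel

theorem c7_186 : rootOK k7 k186 t7_186 = true := by decide +kernel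

theorem c7_187 : rootOK k7 k187 t7_187 = true := by decide +kernel

theorem c7_188 : rootOK k7 k188 t7_188 = true := by decide +kernel

theorem c7_189 : rootOK k7 k189 t7_189 = true := by decide +kernel

theorem c7_190 : rootOK k7 k190 t7_190 = true := by decide +kernel

theorem c7_191 : rootOK k7 k191 t7_191 = true := by decide +kernel

theorem c7_240 : rootOK k7 k240 t7_240 = true := by decide +kernel

theorem c7_241 : rootOK k7 k241 t7_241 = true := by decide +kernel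

theorem c7_242 : rootOK k7 k242 t7_242 = true := by decide +kernel

theorem c7_243 : rootOK k7 k243 t7_243 = true := by decide +kernel

theorem c7_244 : rootOK k7 k244 t7_244 = true := by decide +kernel

theorem c7_245 : rootOK k7 k245 t7_245 = true := by decide +kernel

theorem c7_246 : rootOK k7 k246 t7_246 = true := by decide +kernel

theorem c7_247 : rootOK k7 k247 t7_247 = true := by decide +kernel

theorem c7_248 : rootOK k7 k248 t7_248 = true := by decide +kernel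

theorem c7_249 : rootOK k7 k249 t7_249 = true := by decide +kernel

theorem c7_250 : rootOK k7 k250 t7_250 = true := by decide +kernel

theorem c7_251 : rootOK k7 k251 t7_251 = true := by decide +kernel

theorem c7_252 : rootOK k7 k252 t7_252 = true := by decide +kernel

theorem c7_253 : rootOK k7 k253 t7_253 = true := by decide +kernel

theorem c7_254 : rootOK k7 k254 t7_254 = true := by decide +kernel

theorem c10_11 : rootOK k10 k11 t10_11 = true := by decide +kernel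

theorem c10_15 : rootOK k10 k15 t10_15 = true := by decide +kernel

theorem c10_26 : rootOK k10 k26 t10_26 = true := by decide +kernel

theorem c10_27 : rootOK k10 k27 t10_27 = true := by decide +kernel

theorem c10_31 : rootOK k10 k31 t10_31 = true := by decide +kernel

theorem c10_34 : rootOK k10 k34 t10_34 = true := by decide +kernel

theorem c10_35 : rootOK k10 k35 t10_35 = true := by decide +kernel

theorem c10_38 : rootOK k10 k38 t10_38 = true := by decide +kernel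

theorem c10_39 : rootOK k10 k39 t10_39 = true := by decide +kernel

theorem c10_42 : rootOK k10 k42 t10_42 = true := by decide +kernel

theorem c10_43 : rootOK k10 k43 t10_43 = true := by decide +kernel

theorem c10_47 : rootOK k10 k47 t10_47 = true := by decide +kernel

theorem c10_50 : rootOK k10 k50 t10_50 = true := by decide +kernel

theorem c10_51 : rootOK k10 k51 t10_51 = true := by decide +kernel

theorem c10_54 : rootOK k10 k54 t10_54 = true := by decide +kernel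

theorem c10_55 : rootOK k10 k55 t10_55 = true := by decide +kernel

theorem c10_58 : rootOK k10 k58 t10_58 = true := by decide +kernel

theorem ok : certsOK certs = true :=
  certsOK_cons c7_169 (certsOK_cons c7_171 (certsOK_cons c7_172 (certsOK_cons c7_173 (
  certsOK_cons c7_174 (certsOK_cons c7_175 (certsOK_cons c7_176 (certsOK_cons c7_177 (
  certsOK_cons c7_178 (certsOK_cons c7_179 (certsOK_cons c7_180 (certsOK_cons c7_181 (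
  certsOK_cons c7_182 (certsOK_cons c7_183 (certsOK_cons c7_184 (certsOK_cons c7_185 (
  certsOK_cons c7_186 (certsOK_cons c7_187 (certsOK_cons c7_188 (certsOK_cons c7_189 (
  certsOK_cons c7_190 (certsOK_cons c7_191 (certsOK_cons c7_240 (certsOK_cons c7_241 (
  certsOK_cons c7_242 (certsOK_cons c7_243 (certsOK_cons c7_244 (certsOK_cons c7_245 (
  certsOK_cons c7_246 (certsOK_cons c7_247 (certsOK_cons c7_248 (certsOK_cons c7_249 (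
  certsOK_cons c7_250 (certsOK_cons c7_251 (certsOK_cons c7_252 (certsOK_cons c7_253 (
  certsOK_cons c7_254 (certsOK_cons c10_11 (certsOK_cons c10_15 (certsOK_cons c10_26 (
  certsOK_cons c10_27 (certsOK_cons c10_31 (certsOK_cons c10_34 (certsOK_cons c10_35 (
  certsOK_cons c10_38 (certsOK_cons c10_39 (certsOK_cons c10_42 (certsOK_cons c10_43 (
  certsOK_cons c10_47 (certsOK_cons c10_50 (certsOK_cons c10_51 (certsOK_cons c10_54 (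
  certsOK_cons c10_55 (certsOK_cons c10_58 (certsOK_nil))))))))))))))))))))))))))))))))))))))))))
  ))))))))))))

theorem sound (k : Nat) (hk : (bits certs).testBit k = true) : PI k :=
  certs_sound certs ok k hk

end Pool.Agent.TTT.A10
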