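import Pool.Agent.TTT.Sym

set_option autoImplicit false
set_option maxRecDepth 100000

namespace Pool.Agent.TTT.A11

def t10_59 : T TT 256 :=
  (.f k170 k255 14 (.q k252 [(.s k84 k168 13 (.s k86 k87 0 (.s k2 k254 13 (.d k3 k1 k169 0 14))))]
  (.c k1 (.q k4 [(.s k166 k247 12 (.s k162 k174 1 (.s k243 k81 12 (.d k12 k8 k89 1 14)))), (.s k12
  k8 1 (.s k84 k168 13 (.s k92 k172 11 (.s k88 k80 1 (.d k164 k244 k240 11 13))))), (.s k84 k168 13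
  (.s k86 k87 0 (.s k166 k247 12 (.s k6 k246 11 (.s k7 k5 0 (.d k244 k164 k165 11 12))))))] .n) (.c
  k2 (.f k84 k168 13 (.f k86 k87 0 (.f k3 k169 14 (.q k6 [(.s k12 k9 2 (.s k166 k246 11 (.d k4 k8
  k247 1 12))), (.s k166 k246 11 (.s k4 k247 12 (.s k7 k5 0 (.d k244 k164 k165 11 12)))), (.s k12 k9
  2 (.s k92 k172 11 (.s k89 k83 2 (.d k166 k246 k243 11 14)))), (.s k12 k9 2 (.s k8 k4 1 (.s k89
  k251 12 (.d k92 k83 k172 2 11))))] .n)))) (.c k3 (.f k168 k84 13 (.q k192 [(.s k64 k128 7 (.s k106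
  k127 6 (.s k42 k234 7 (.d k63 k21 k149 6 14)))), (.s k232 k212 5 (.s k40 k104 7 (.s k105 k235 8
  (.s k65 k125 5 (.s k195 k130 8 (.d k60 k20 k150 5 14))))))] (.c k64 (.l (.s k232 k212 5 (.s k104
  k40 7 (.s k148 k60 13 (.s k128 k188 5 (.s k149 k191 6 (.s k21 k213 7 (.d k63 k42 k106 6 14))))))))
  (.c k87 (.l (.s k171 k169 0 (.s k64 k128 7 (.s k106 k127 6 (.s k42 k234 7 (.d k63 k21 k149 6
  14)))))) (.c k171 (.q k87 [(.s k64 k128 7 (.s k106 k127 6 (.s k42 k234 7 (.d k63 k21 k149 6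
  14)))), (.s k232 k212 5 (.s k40 k104 7 (.s k105 k235 8 (.s k65 k125 5 (.s k195 k130 8 (.d k60 k20
  k150 5 14))))))] (.c k64 (.l (.s k232 k212 5 (.s k104 k40 7 (.s k148 k60 13 (.s k128 k188 5 (.s
  k149 k191 6 (.s k21 k213 7 (.d k63 k42 k106 6 14)))))))) .n)) .n))))) (.c k84 (.q k149 [(.s k21
  k213 7 (.s k128 k191 6 (.s k192 k64 7 (.d k63 k42 k106 6 14)))), (.s k21 k213 7 (.s k63 k42 6 (.s
  k189 k126 8 (.s k169 k129 5 (.s k1 k253 13 (.d k3 k2 k86 0 14)))))), (.s k128 k191 6 (.s k192 k64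
  7 (.s k212 k232 5 (.s k86 k23 8 (.s k2 k254 13 (.d k3 k1 k169 0 14))))))] (.c k63 (.f k191 k128 6
  (.q k55 [(.s k102 k196 12 (.s k34 k238 9 (.s k51 k17 4 (.s k68 k119 4 (.d k204 k136 k153 9
  14))))), (.s k21 k213 7 (.s k4 k38 4 (.s k12 k8 1 (.s k166 k247 12 (.s k162 k174 1 (.d k243 k81
  k89 12 14))))))] (.c k196 (.q k1 [(.s k169 k253 13 (.d k3 k2 k86 0 14)), (.s k21 k213 7 (.s k61
  k41 5 (.s k105 k193 13 (.s k40 k235 8 (.s k60 k20 5 (.s k65 k125 5 (.d k195 k130 k150 8 14)))))))]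
  (.c k253 (.l (.s k3 k2 0 (.s k21 k213 7 (.s k41 k61 5 (.s k86 k169 14 (.s k23 k212 8 (.d k22 k20
  k60 0 6))))))) .n)) .n))) (.c k192 (.q k129 [(.s k189 k169 5 (.s k63 k126 8 (.d k21 k213 k42 7
  6))), (.s k128 k191 6 (.s k130 k131 0 (.s k65 k195 8 (.s k105 k125 5 (.d k193 k1 k61 7 13)))))]
  (.c k63 (.l (.s k169 k189 5 (.s k1 k253 13 (.d k3 k2 k86 0 14)))) (.c k213 (.q k234 [(.s k42 k106
  7 (.s k63 k21 6 (.d k189 k169 k126 5 8))), (.s k128 k191 6 (.s k130 k131 0 (.s k65 k195 8 (.s k105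
  k125 5 (.d k193 k1 k61 7 13)))))] (.c k63 (.l (.s k169 k189 5 (.s k1 k253 13 (.d k3 k2 k86 0
  14)))) .n)) (.c k234 (.l (.s k213 k21 7 (.s k169 k189 5 (.s k1 k253 13 (.d k3 k2 k86 0 14)))))
  .n)))) .n))) (.c k86 (.q k4 [(.s k166 k247 12 (.s k162 k174 1 (.s k243 k81 12 (.d k12 k8 k89 1
  14)))), (.s k12 k8 1 (.s k84 k168 13 (.s k92 k172 11 (.s k88 k80 1 (.d k164 k244 k240 11 13)))))]
  (.c k8 (.l (.s k166 k247 12 (.s k162 k174 1 (.s k168 k84 13 (.s k169 k171 0 (.s k172 k163 2 (.s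
  k12 k92 11 (.d k243 k89 k81 14 12)))))))) (.c k12 (.l (.s k84 k168 13 (.s k244 k164 11 (.s k240
  k248 1 (.s k160 k80 11 (.s k165 k175 2 (.s k245 k5 11 (.d k247 k246 k166 0 12)))))))) .n))) (.c
  k87 (.l (.s k168 k84 13 (.s k169 k171 0 (.s k3 k86 14 (.d k1 k2 k253 0 13))))) (.c k168 (.q k149
  [(.s k21 k213 7 (.s k128 k191 6 (.s k192 k64 7 (.d k63 k42 k106 6 14)))), (.s k128 k191 6 (.s k192
  k64 7 (.s k212 k232 5 (.s k86 k23 8 (.s k2 k254 13 (.d k3 k1 k169 0 14)))))), (.s k21 k213 7 (.s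
  k63 k42 6 (.s k189 k126 8 (.s k169 k129 5 (.s k1 k253 13 (.d k3 k2 k86 0 14))))))] (.c k63 (.q k55
  [(.s k102 k196 12 (.s k34 k238 9 (.s k51 k17 4 (.s k68 k119 4 (.d k204 k136 k153 9 14))))), (.s
  k21 k213 7 (.s k4 k38 4 (.s k12 k8 1 (.s k166 k247 12 (.s k162 k174 1 (.d k243 k81 k89 12
  14))))))] (.c k127 (.l (.s k191 k128 6 (.s k21 k213 7 (.s k4 k38 4 (.s k102 k196 12 (.s k119 k68 4
  (.d k247 k183 k166 7 12))))))) (.c k191 (.q k127 [(.s k102 k196 12 (.s k34 k238 9 (.s k51 k17 4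
  (.s k68 k119 4 (.d k204 k136 k153 9 14))))), (.s k21 k213 7 (.s k4 k38 4 (.s k12 k8 1 (.s k166
  k247 12 (.s k162 k174 1 (.d k243 k81 k89 12 14))))))] (.c k196 (.l (.s k64 k106 6 (.s k192 k128 7
  (.s k212 k232 5 (.s k86 k23 8 (.s k2 k254 13 (.d k3 k169 k1 14 0))))))) .n)) (.c k196 (.f k21 k213
  7 (.l (.s k4 k38 4 (.s k8 k12 1 (.s k89 k251 12 (.s k29 k209 9 (.s k93 k81 1 (.s k221 k157 7 (.d
  k17 k25 k153 1 9))))))))) .n)))) (.c k192 (.q k132 [(.s k128 k191 6 (.s k140 k136 1 (.s k166 k183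
  4 (.s k162 k174 1 (.d k179 k145 k153 4 6))))), (.s k166 k183 4 (.s k4 k247 12 (.s k12 k8 1 (.s
  k162 k174 1 (.d k243 k81 k89 12 14))))), (.s k128 k191 6 (.s k136 k140 1 (.s k68 k204 9 (.s k102
  k119 4 (.d k196 k4 k55 7 12))))), (.s k128 k191 6 (.s k166 k183 4 (.s k4 k247 12 (.s k68 k196 7
  (.d k136 k204 k140 9 1)))))] (.c k213 (.q k234 [(.s k128 k191 6 (.s k140 k136 1 (.s k166 k183 4
  (.s k162 k174 1 (.d k179 k145 k153 4 6))))), (.s k166 k183 4 (.s k4 k247 12 (.s k12 k8 1 (.s k162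
  k174 1 (.d k243 k81 k89 12 14))))), (.s k128 k191 6 (.s k136 k140 1 (.s k68 k204 9 (.s k102 k119 4
  (.d k196 k4 k55 7 12))))), (.s k42 k106 7 (.s k21 k63 6 (.s k166 k183 4 (.s k4 k247 12 (.s k55 k38
  4 (.d k196 k68 k102 7 12))))))] .n) (.c k234 (.l (.s k213 k21 7 (.s k128 k191 6 (.s k136 k140 1
  (.s k68 k204 9 (.s k102 k119 4 (.d k196 k4 k55 7 12))))))) .n))) .n))) (.c k169 (.q k4 [(.s k166
  k247 12 (.s k162 k174 1 (.s k243 k81 12 (.d k12 k8 k89 1 14)))), (.s k12 k8 1 (.s k84 k168 13 (.s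
  k164 k244 11 (.s k88 k240 13 (.d k92 k80 k172 1 11))))), (.s k84 k168 13 (.s k86 k87 0 (.s k166
  k247 12 (.s k6 k246 11 (.s k7 k5 0 (.d k244 k164 k165 11 12))))))] .n) (.c k171 (.l (.s k84 k168
  13 (.s k86 k87 0 (.s k3 k169 14 (.d k2 k1 k254 0 13))))) (.c k254 (.l (.s k168 k84 13 (.s k169
  k171 0 (.s k1 k253 13 (.d k3 k2 k86 0 14))))) .n))))))))))))

def t10_63 : T TT 256 :=
  (.q k86 [(.s k84 k87 0 (.s k252 k168 13 (.s k3 k169 14 (.s k2 k1 0 (.d k170 k254 k255 13 14)))))]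
  (.c k1 (.q k4 [(.s k84 k87 0 (.s k166 k247 12 (.s k6 k246 11 (.s k244 k164 11 (.d k7 k5 k165 0
  12))))), (.s k12 k8 1 (.s k166 k247 12 (.s k89 k243 14 (.s k93 k81 1 (.d k255 k174 k170 12
  14))))), (.s k12 k8 1 (.s k84 k87 0 (.s k164 k244 11 (.s k88 k240 13 (.s k92 k80 1 (.d k252 k172
  k168 11 13))))))] .n) (.c k2 (.l (.s k84 k87 0 (.s k252 k168 13 (.s k169 k3 14 (.s k253 k1 13 (.d
  k255 k254 k170 0 14)))))) (.c k3 (.f k87 k84 0 (.q k150 [(.s k214 k22 7 (.s k215 k20 8 (.s k212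
  k213 0 (.d k23 k151 k149 7 8)))), (.s k22 k214 7 (.s k170 k255 14 (.s k2 k254 13 (.s k62 k42 5 (.s
  k130 k190 5 (.d k194 k66 k106 7 13)))))), (.s k20 k215 8 (.s k60 k40 5 (.s k105 k195 14 (.s k125
  k65 5 (.d k255 k190 k170 8 14)))))] (.c k23 (.q k43 [(.s k20 k215 8 (.s k60 k40 5 (.s k170 k255 14
  (.s k130 k190 5 (.d k195 k65 k105 8 14))))), (.s k22 k214 7 (.s k170 k255 14 (.s k2 k254 13 (.s
  k62 k42 5 (.s k194 k106 13 (.d k130 k190 k66 5 7)))))), (.s k20 k215 8 (.s k60 k40 5 (.s k105 k195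
  14 (.s k65 k125 5 (.s k67 k124 6 (.s k64 k66 0 (.d k127 k107 k106 5 6)))))))] (.c k127 (.l (.s k20
  k215 8 (.s k60 k40 5 (.s k105 k195 14 (.s k125 k65 5 (.d k255 k190 k170 8 14)))))) (.c k255 (.q
  k127 [(.s k20 k215 8 (.s k60 k40 5 (.s k67 k107 5 (.d k105 k195 k124 14 6)))), (.s k106 k64 6 (.s
  k126 k66 5 (.s k124 k125 0 (.d k67 k107 k105 5 6)))), (.s k20 k215 8 (.s k22 k214 7 (.s k40 k60 5
  (.s k42 k41 0 (.s k62 k2 5 (.d k106 k64 k194 6 13))))))] (.c k60 (.l (.s k64 k106 6 (.s k67 k107 5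
  (.s k65 k66 0 (.d k105 k125 k124 5 6))))) .n)) .n))) (.c k43 (.q k23 [(.d k215 k151 k20 7 8), (.s
  k22 k214 7 (.s k21 k20 0 (.d k149 k212 k213 8 7)))] (.c k20 (.l (.s k151 k215 7 (.d k149 k148 k212
  0 8))) .n)) (.c k60 (.l (.s k215 k20 8 (.s k23 k151 7 (.s k212 k149 8 (.d k214 k213 k22 0 7)))))
  .n))))) (.c k84 (.q k12 [(.s k4 k8 1 (.s k166 k247 12 (.s k89 k243 14 (.s k93 k81 1 (.d k255 k174
  k170 12 14))))), (.s k255 k170 14 (.s k93 k174 12 (.s k89 k81 1 (.s k92 k83 2 (.s k252 k172 11 (.s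
  k169 k3 14 (.d k253 k254 k1 0 13))))))), (.s k170 k255 14 (.s k2 k254 13 (.s k3 k1 0 (.s k6 k9 2
  (.s k166 k246 11 (.d k4 k8 k247 1 12))))))] (.c k166 (.l (.s k8 k4 1 (.s k170 k255 14 (.s k2 k254
  13 (.s k3 k1 0 (.s k9 k6 2 (.s k89 k251 12 (.d k169 k252 k249 14 11)))))))) (.c k170 (.l (.s k4 k8
  1 (.s k166 k247 12 (.s k6 k246 11 (.s k89 k243 14 (.s k92 k83 2 (.s k252 k172 11 (.d k3 k9 k169 2
  14)))))))) (.c k255 (.l (.s k4 k8 1 (.s k166 k247 12 (.s k243 k89 14 (.s k246 k6 11 (.s k252 k249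
  2 (.s k169 k3 14 (.d k172 k163 k92 2 11)))))))) .n)))) (.c k87 (.q k12 [(.s k8 k4 1 (.s k170 k255
  14 (.s k89 k251 12 (.s k81 k93 1 (.d k243 k162 k166 12 14))))), (.s k255 k170 14 (.s k93 k174 12
  (.s k89 k81 1 (.s k92 k83 2 (.s k252 k172 11 (.s k169 k3 14 (.d k253 k254 k1 0 13))))))), (.s k170
  k255 14 (.s k2 k254 13 (.s k3 k1 0 (.s k6 k9 2 (.s k166 k246 11 (.d k4 k8 k247 1 12))))))] (.c k3
  (.l (.s k4 k8 1 (.s k166 k247 12 (.s k89 k243 14 (.s k93 k81 1 (.d k255 k174 k170 12 14)))))) (.c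
  k166 (.l (.s k8 k4 1 (.s k170 k255 14 (.s k2 k254 13 (.s k3 k1 0 (.s k9 k6 2 (.s k89 k251 12 (.d
  k169 k252 k249 14 11)))))))) (.c k170 (.l (.s k4 k8 1 (.s k166 k247 12 (.s k6 k246 11 (.s k89 k243
  14 (.s k92 k83 2 (.s k252 k172 11 (.d k3 k9 k169 2 14)))))))) (.c k255 (.l (.s k4 k8 1 (.s k166
  k247 12 (.s k243 k89 14 (.s k246 k6 11 (.s k252 k249 2 (.s k172 k92 11 (.d k169 k163 k3 2
  14)))))))) .n))))) (.c k168 (.l (.s k87 k84 0 (.s k255 k170 14 (.s k3 k171 13 (.s k169 k252 14 (.d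
  k1 k2 k253 0 13)))))) (.c k169 (.q k4 [(.s k84 k87 0 (.s k166 k247 12 (.s k6 k246 11 (.s k7 k5 0
  (.d k244 k164 k165 11 12))))), (.s k12 k8 1 (.s k166 k247 12 (.s k89 k243 14 (.s k93 k81 1 (.d
  k255 k174 k170 12 14))))), (.s k12 k8 1 (.s k84 k87 0 (.s k164 k244 11 (.s k88 k240 13 (.s k92 k80
  1 (.d k252 k172 k168 11 13))))))] .n) (.c k170 (.q k90 [(.s k80 k95 2 (.s k82 k94 1 (.s k83 k81 0
  (.s k84 k87 0 (.d k92 k88 k89 1 2))))), (.s k84 k87 0 (.s k94 k82 1 (.s k252 k168 13 (.s k15 k173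
  12 (.s k165 k240 14 (.s k7 k244 12 (.d k3 k169 k11 14 1))))))), (.s k80 k95 2 (.s k84 k87 0 (.s
  k240 k160 11 (.s k165 k15 14 (.s k244 k7 12 (.d k252 k248 k168 1 13)))))), (.s k80 k95 2 (.s k82
  k94 1 (.s k240 k160 11 (.s k3 k161 12 (.s k1 k2 0 (.d k169 k253 k252 13 14))))))] .n) (.c k171 (.l
  (.s k84 k87 0 (.s k252 k168 13 (.s k3 k169 14 (.s k170 k255 14 (.d k2 k1 k254 0 13)))))) (.c k252
  (.f k84 k87 0 (.q k102 [(.s k68 k119 4 (.s k116 k100 3 (.s k71 k101 4 (.d k70 k69 k118 0 3)))),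
  (.s k118 k70 3 (.s k170 k255 14 (.s k238 k34 9 (.s k254 k2 13 (.s k50 k186 9 (.d k206 k222 k154 3
  13)))))), (.s k68 k119 4 (.s k170 k255 14 (.s k34 k238 9 (.s k51 k17 4 (.d k204 k136 k153 9
  14)))))] (.c k126 (.q k189 [(.s k68 k119 4 (.s k116 k100 3 (.s k71 k101 4 (.d k70 k69 k118 0
  3)))), (.s k118 k70 3 (.s k170 k255 14 (.s k238 k34 9 (.s k254 k2 13 (.s k50 k186 9 (.d k206 k222
  k154 3 13)))))), (.s k68 k119 4 (.s k170 k255 14 (.s k34 k238 9 (.s k51 k17 4 (.d k204 k136 k153 9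
  14)))))] .n) (.c k189 (.q k126 [(.s k68 k119 4 (.s k116 k100 3 (.s k71 k101 4 (.d k70 k69 k118 0
  3)))), (.s k66 k106 5 (.s k70 k118 3 (.s k78 k74 1 (.s k90 k114 5 (.d k94 k82 k110 1 3))))), (.s
  k68 k119 4 (.s k170 k255 14 (.s k34 k238 9 (.s k51 k17 4 (.d k204 k136 k153 9 14)))))] .n) .n))))
  (.c k254 (.l (.s k87 k84 0 (.s k255 k170 14 (.s k3 k171 13 (.s k1 k2 0 (.d k169 k253 k252 13
  14)))))) (.c k255 (.q k240 [(.s k80 k160 11 (.s k84 k87 0 (.s k88 k92 1 (.s k12 k164 13 (.s k8 k4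
  1 (.d k168 k248 k252 11 13)))))), (.s k80 k160 11 (.s k90 k95 2 (.s k82 k94 1 (.s k3 k161 12 (.s
  k1 k2 0 (.d k169 k253 k252 13 14)))))), (.s k84 k87 0 (.s k252 k168 13 (.s k3 k169 14 (.s k82 k161
  12 (.s k90 k94 1 (.s k165 k15 14 (.d k244 k248 k7 1 12))))))), (.s k80 k160 11 (.s k87 k84 0 (.s
  k95 k90 2 (.s k83 k91 1 (.s k81 k82 0 (.d k89 k93 k92 1 2))))))] (.c k127 (.q k191 [(.s k80 k160
  11 (.s k87 k84 0 (.s k95 k90 2 (.s k83 k91 1 (.s k81 k82 0 (.d k89 k93 k92 1 2)))))), (.s k80 k160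
  11 (.s k84 k87 0 (.s k88 k92 1 (.s k12 k164 13 (.s k8 k4 1 (.d k168 k248 k252 11 13)))))), (.s k84
  k87 0 (.s k252 k168 13 (.s k3 k169 14 (.s k82 k161 12 (.s k90 k94 1 (.s k165 k15 14 (.d k244 k248
  k7 1 12))))))), (.s k80 k160 11 (.s k90 k95 2 (.s k82 k94 1 (.s k3 k161 12 (.s k1 k2 0 (.d k169
  k253 k252 13 14))))))] .n) (.c k191 (.q k127 [(.s k87 k84 0 (.s k67 k107 5 (.s k106 k64 6 (.s k124
  k105 6 (.d k126 k125 k66 0 5))))), (.s k80 k160 11 (.s k84 k87 0 (.s k88 k92 1 (.s k12 k164 13 (.s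
  k8 k4 1 (.d k168 k248 k252 11 13)))))), (.s k64 k106 6 (.s k80 k160 11 (.s k90 k95 2 (.s k112 k96
  3 (.s k101 k79 6 (.d k117 k122 k69 2 3))))))] .n) .n))) .n)))))))))))))

def t10_90 : T TT 256 :=
  (.f k170 k255 14 (.q k204 [(.s k68 k136 9 (.s k102 k119 4 (.s k34 k238 9 (.d k51 k17 k153 4
  14))))] (.c k17 (.q k1 [(.s k169 k253 13 (.s k168 k171 0 (.s k252 k84 13 (.d k3 k2 k86 0 14)))),
  (.s k3 k2 0 (.s k136 k68 9 (.s k137 k70 10 (.s k69 k205 9 (.d k138 k139 k207 0 10))))), (.s k68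
  k136 9 (.s k102 k119 4 (.s k169 k253 13 (.s k236 k35 10 (.s k252 k220 3 (.d k168 k171 k84 0
  13))))))] .n) (.c k34 (.q k1 [(.s k169 k253 13 (.s k168 k171 0 (.s k252 k84 13 (.d k3 k2 k86 0
  14)))), (.s k3 k2 0 (.s k136 k68 9 (.s k137 k70 10 (.s k69 k205 9 (.d k138 k139 k207 0 10))))),
  (.s k68 k136 9 (.s k102 k119 4 (.s k169 k253 13 (.s k236 k35 10 (.s k252 k220 3 (.d k168 k171 k84
  0 13))))))] .n) (.c k51 (.f k68 k136 9 (.q k84 [(.s k100 k116 3 (.s k48 k152 13 (.s k32 k16 3 (.d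
  k168 k236 k252 9 13)))), (.s k86 k87 0 (.s k2 k254 13 (.s k3 k1 0 (.s k70 k137 10 (.d k102 k119
  k118 4 3)))))] (.c k119 (.q k187 [(.s k100 k116 3 (.s k48 k152 13 (.s k32 k16 3 (.d k168 k236 k252
  9 13)))), (.s k86 k87 0 (.s k2 k254 13 (.s k3 k1 0 (.d k252 k168 k169 13 14)))), (.s k86 k87 0 (.s
  k116 k100 3 (.s k71 k101 4 (.s k70 k69 0 (.s k3 k137 10 (.d k2 k1 k254 0 13))))))] .n) (.c k187
  (.l (.s k119 k102 4 (.s k86 k87 0 (.s k2 k254 13 (.s k3 k1 0 (.d k252 k168 k169 13 14)))))) (.c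
  k252 (.l (.s k86 k87 0 (.s k116 k100 3 (.s k71 k101 4 (.s k70 k69 0 (.d k102 k118 k119 3 4))))))
  .n))))) (.c k68 (.q k2 [(.s k3 k1 0 (.s k86 k254 13 (.s k84 k87 0 (.d k252 k168 k169 13 14)))),
  (.s k3 k1 0 (.s k70 k137 10 (.s k138 k206 9 (.s k154 k186 3 (.s k16 k223 10 (.s k48 k32 3 (.d k207
  k69 k101 10 14)))))))] (.c k1 (.l (.s k86 k254 13 (.s k84 k87 0 (.s k252 k168 13 (.s k220 k236 3
  (.s k153 k19 10 (.s k17 k221 9 (.d k51 k34 k102 4 14)))))))) (.c k3 (.f k86 k254 13 (.q k252 [(.d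
  k84 k87 k168 0 13), (.s k220 k236 3 (.s k153 k19 10 (.s k17 k221 9 (.d k51 k34 k102 4 14))))] (.c
  k87 (.q k171 [(.d k168 k169 k84 0 13), (.s k220 k236 3 (.s k153 k19 10 (.s k17 k221 9 (.d k51 k34
  k102 4 14))))] .n) (.c k171 (.l (.s k87 k84 0 (.s k220 k236 3 (.s k153 k19 10 (.s k17 k221 9 (.d
  k51 k34 k102 4 14)))))) .n)))) .n))) (.c k102 (.f k68 k136 9 (.q k3 [(.s k2 k1 0 (.s k70 k137 10
  (.s k69 k71 0 (.d k138 k206 k207 9 10)))), (.s k1 k2 0 (.s k169 k253 13 (.s k168 k171 0 (.d k252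
  k84 k86 13 14)))), (.s k70 k137 10 (.s k69 k71 0 (.s k101 k117 3 (.s k32 k239 10 (.s k48 k16 3 (.d
  k207 k138 k154 10 14))))))] (.c k78 (.q k114 [(.s k2 k1 0 (.s k70 k137 10 (.s k69 k71 0 (.d k138
  k206 k207 9 10)))), (.s k1 k2 0 (.s k169 k253 13 (.s k168 k171 0 (.d k252 k84 k86 13 14)))), (.s
  k70 k137 10 (.s k69 k71 0 (.s k101 k117 3 (.s k32 k239 10 (.s k48 k16 3 (.d k207 k138 k154 10
  14))))))] .n) (.c k114 (.q k78 [(.s k2 k1 0 (.s k70 k137 10 (.s k69 k71 0 (.d k138 k206 k207 9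
  10)))), (.s k1 k2 0 (.s k169 k253 13 (.s k168 k171 0 (.d k252 k84 k86 13 14)))), (.s k15 k141 8
  (.s k7 k11 1 (.s k70 k137 10 (.s k74 k66 1 (.d k133 k196 k192 8 10)))))] .n) .n)))) (.c k119 (.l
  (.s k136 k68 9 (.s k153 k187 4 (.s k51 k102 14 (.d k17 k34 k221 4 9))))) (.c k136 (.q k2 [(.s k3
  k1 0 (.s k86 k254 13 (.s k84 k87 0 (.d k252 k168 k169 13 14)))), (.s k3 k1 0 (.s k70 k137 10 (.s
  k138 k206 9 (.s k154 k186 3 (.s k16 k223 10 (.s k48 k32 3 (.d k207 k69 k101 10 14)))))))] (.c k1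
  (.l (.s k86 k254 13 (.s k84 k87 0 (.s k252 k168 13 (.s k220 k236 3 (.s k153 k19 10 (.s k17 k221 9
  (.d k51 k34 k102 4 14)))))))) (.c k3 (.f k86 k254 13 (.q k252 [(.d k84 k87 k168 0 13), (.s k220
  k236 3 (.s k153 k19 10 (.s k17 k221 9 (.d k51 k34 k102 4 14))))] (.c k87 (.q k171 [(.d k168 k169
  k84 0 13), (.s k220 k236 3 (.s k153 k19 10 (.s k17 k221 9 (.d k51 k34 k102 4 14))))] .n) (.c k171
  (.l (.s k87 k84 0 (.s k220 k236 3 (.s k153 k19 10 (.s k17 k221 9 (.d k51 k34 k102 4 14))))))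
  .n)))) .n))) (.c k153 (.f k68 k136 9 (.q k105 [(.s k40 k235 8 (.s k60 k20 5 (.s k65 k125 5 (.d
  k195 k130 k150 8 14)))), (.s k102 k119 4 (.s k34 k238 9 (.s k51 k17 4 (.s k99 k108 2 (.s k195 k147
  11 (.d k65 k125 k130 5 8)))))), (.s k40 k235 8 (.s k60 k20 5 (.s k102 k119 4 (.d k108 k99 k156 2
  11))))] (.c k27 (.q k216 [(.s k40 k235 8 (.s k60 k20 5 (.s k65 k125 5 (.d k195 k130 k150 8 14)))),
  (.s k102 k119 4 (.s k34 k238 9 (.s k51 k17 4 (.s k99 k108 2 (.s k195 k147 11 (.d k65 k125 k130 5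
  8)))))), (.s k40 k235 8 (.s k60 k20 5 (.s k102 k119 4 (.d k108 k99 k156 2 11))))] (.c k195 (.l (.s
  k102 k119 4 (.s k108 k99 2 (.s k60 k156 11 (.d k40 k20 k235 5 8))))) .n)) (.c k195 (.l (.s k102
  k119 4 (.s k108 k99 2 (.s k60 k156 11 (.d k40 k20 k235 5 8))))) (.c k216 (.q k27 [(.s k40 k235 8
  (.s k60 k20 5 (.s k65 k125 5 (.d k195 k130 k150 8 14)))), (.s k102 k119 4 (.s k34 k238 9 (.s k51
  k17 4 (.s k99 k108 2 (.s k195 k147 11 (.d k65 k125 k130 5 8)))))), (.s k40 k235 8 (.s k60 k20 5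
  (.s k102 k119 4 (.d k108 k99 k156 2 11))))] (.c k195 (.l (.s k102 k119 4 (.s k108 k99 2 (.s k60
  k156 11 (.d k40 k20 k235 5 8))))) .n)) .n))))) (.c k187 (.l (.s k68 k136 9 (.s k102 k119 4 (.s k51
  k153 14 (.d k34 k17 k238 4 9))))) (.c k238 (.l (.s k136 k68 9 (.s k153 k187 4 (.s k17 k221 9 (.d
  k51 k34 k102 4 14))))) .n))))))))))))

def t10_91 : T TT 256 :=
  (.f k170 k255 14 (.q k252 [(.s k84 k168 13 (.s k86 k87 0 (.s k2 k254 13 (.d k3 k1 k169 0 14)))),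
  (.s k168 k84 13 (.s k169 k171 0 (.s k1 k253 13 (.d k3 k2 k86 0 14))))] (.c k1 (.q k4 [(.s k12 k8 1
  (.s k166 k247 12 (.s k162 k174 1 (.d k243 k81 k89 12 14)))), (.s k12 k8 1 (.s k84 k168 13 (.s k92
  k172 11 (.s k88 k80 1 (.d k164 k244 k240 11 13))))), (.s k84 k168 13 (.s k86 k87 0 (.s k166 k247
  12 (.s k6 k246 11 (.s k7 k5 0 (.d k244 k164 k165 11 12))))))] (.c k9 (.l (.s k166 k247 12 (.s k162
  k174 1 (.s k243 k81 12 (.d k12 k8 k89 1 14))))) .n)) (.c k2 (.f k84 k168 13 (.q k102 [(.s k34 k238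
  9 (.s k51 k17 4 (.s k68 k119 4 (.d k204 k136 k153 9 14)))), (.s k86 k87 0 (.s k118 k70 3 (.s k51
  k185 10 (.d k34 k17 k238 4 9)))), (.s k86 k87 0 (.s k3 k169 14 (.s k70 k118 3 (.s k204 k137 10 (.d
  k68 k119 k136 4 9)))))] (.c k6 (.q k14 [(.s k34 k238 9 (.s k51 k17 4 (.s k68 k119 4 (.d k204 k136
  k153 9 14)))), (.s k86 k87 0 (.s k118 k70 3 (.s k51 k185 10 (.d k34 k17 k238 4 9)))), (.s k86 k87
  0 (.s k3 k169 14 (.s k70 k118 3 (.s k204 k137 10 (.d k68 k119 k136 4 9)))))] .n) (.c k14 (.q k6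
  [(.s k34 k238 9 (.s k51 k17 4 (.s k68 k119 4 (.d k204 k136 k153 9 14)))), (.s k86 k87 0 (.s k3
  k169 14 (.s k12 k9 2 (.s k166 k246 11 (.d k4 k8 k247 1 12)))))] .n) .n)))) (.c k3 (.f k84 k168 13
  (.f k87 k86 0 (.q k4 [(.s k166 k247 12 (.s k162 k174 1 (.s k243 k81 12 (.d k12 k8 k89 1 14)))),
  (.s k12 k8 1 (.s k92 k172 11 (.s k88 k80 1 (.d k164 k244 k240 11 13))))] (.c k8 (.l (.s k164 k244
  11 (.s k166 k247 12 (.s k162 k174 1 (.s k243 k81 12 (.s k12 k89 14 (.s k88 k240 13 (.d k92 k80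
  k172 1 11)))))))) (.c k12 (.l (.s k244 k164 11 (.s k240 k248 1 (.s k160 k80 11 (.s k165 k175 2 (.s
  k245 k5 11 (.d k247 k246 k166 0 12))))))) .n))))) (.c k84 (.q k150 [(.s k20 k215 8 (.s k60 k40 5
  (.s k130 k190 5 (.d k195 k65 k105 8 14)))), (.s k130 k190 5 (.s k195 k65 8 (.s k214 k233 6 (.s k86
  k22 7 (.s k2 k254 13 (.d k3 k1 k169 0 14)))))), (.s k20 k215 8 (.s k60 k40 5 (.s k188 k124 7 (.s
  k169 k131 6 (.s k1 k253 13 (.d k3 k2 k86 0 14))))))] (.c k60 (.q k166 [(.s k4 k247 12 (.s k162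
  k174 1 (.s k243 k81 12 (.d k12 k8 k89 1 14)))), (.s k174 k162 1 (.s k182 k134 3 (.s k190 k130 5
  (.s k142 k158 3 (.d k178 k186 k154 1 5))))), (.s k4 k247 12 (.s k20 k215 8 (.s k52 k36 3 (.s k134
  k182 3 (.d k199 k69 k101 8 12)))))] (.c k125 (.l (.s k190 k130 5 (.s k4 k247 12 (.s k12 k8 1 (.s
  k162 k174 1 (.d k243 k81 k89 12 14)))))) (.c k190 (.q k125 [(.s k4 k247 12 (.s k162 k174 1 (.s
  k243 k81 12 (.d k12 k8 k89 1 14)))), (.s k182 k134 3 (.s k215 k20 8 (.s k247 k4 12 (.s k52 k117 8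
  (.d k199 k231 k101 3 12))))), (.s k65 k105 5 (.s k130 k195 8 (.s k134 k182 3 (.s k142 k138 1 (.s
  k162 k174 1 (.d k178 k146 k154 3 5))))))] .n) .n))) (.c k195 (.q k1 [(.s k169 k253 13 (.d k3 k2
  k86 0 14)), (.s k130 k190 5 (.s k169 k253 13 (.s k131 k188 6 (.s k128 k129 0 (.s k171 k168 0 (.d
  k191 k151 k149 5 6)))))), (.s k2 k3 0 (.s k86 k254 13 (.s k22 k214 7 (.s k42 k62 5 (.s k21 k63 6
  (.d k20 k23 k215 0 8))))))] (.c k215 (.q k235 [(.s k169 k253 13 (.d k3 k2 k86 0 14)), (.s k40 k105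
  8 (.s k60 k20 5 (.s k169 k253 13 (.d k188 k131 k124 6 7)))), (.s k2 k3 0 (.s k86 k254 13 (.s k22
  k214 7 (.s k62 k42 5 (.s k130 k190 5 (.d k194 k66 k106 7 13))))))] .n) (.c k235 (.l (.s k215 k20 8
  (.s k3 k2 0 (.d k169 k253 k86 13 14)))) .n))) .n))) (.c k86 (.q k4 [(.s k166 k247 12 (.s k162 k174
  1 (.s k243 k81 12 (.d k12 k8 k89 1 14)))), (.s k12 k8 1 (.s k84 k168 13 (.s k92 k172 11 (.s k88
  k80 1 (.d k164 k244 k240 11 13)))))] (.c k8 (.l (.s k166 k247 12 (.s k162 k174 1 (.s k168 k84 13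
  (.s k169 k171 0 (.s k172 k163 2 (.s k12 k92 11 (.d k243 k89 k81 14 12)))))))) (.c k12 (.l (.s k84
  k168 13 (.s k244 k164 11 (.s k240 k248 1 (.s k160 k80 11 (.s k165 k175 2 (.s k245 k5 11 (.d k247
  k246 k166 0 12)))))))) .n))) (.c k87 (.l (.s k168 k84 13 (.s k169 k171 0 (.s k3 k86 14 (.d k1 k2
  k253 0 13))))) (.c k168 (.q k166 [(.s k4 k247 12 (.s k162 k174 1 (.s k243 k81 12 (.d k12 k8 k89 1
  14)))), (.s k162 k174 1 (.s k243 k81 12 (.s k246 k249 2 (.s k86 k6 11 (.s k2 k254 13 (.d k3 k1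
  k169 0 14)))))), (.s k4 k247 12 (.s k12 k8 1 (.s k172 k92 11 (.s k169 k163 2 (.s k1 k253 13 (.d k3
  k2 k86 0 14))))))] (.c k12 (.q k153 [(.s k17 k221 9 (.s k51 k34 4 (.s k136 k187 4 (.d k204 k68
  k102 9 14)))), (.s k140 k179 6 (.s k174 k162 1 (.s k191 k157 4 (.s k128 k149 6 (.d k136 k132 k187
  1 4))))), (.s k17 k221 9 (.s k51 k34 4 (.s k179 k140 6 (.s k243 k115 7 (.d k162 k174 k81 1
  12)))))] (.c k93 (.l (.s k174 k162 1 (.s k17 k221 9 (.s k51 k34 4 (.s k136 k187 4 (.d k204 k68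
  k102 9 14)))))) (.c k174 (.q k93 [(.s k17 k221 9 (.s k51 k34 4 (.s k136 k187 4 (.d k204 k68 k102 9
  14)))), (.s k89 k81 1 (.s k217 k25 7 (.s k221 k17 9 (.s k29 k157 7 (.d k209 k213 k149 1 9))))),
  (.s k4 k247 12 (.s k136 k187 4 (.s k140 k179 6 (.s k132 k128 1 (.d k68 k196 k204 7 9)))))] (.c k51
  (.l (.s k17 k221 9 (.s k81 k89 1 (.s k145 k209 7 (.s k162 k243 12 (.d k179 k128 k140 4 6))))))
  .n)) .n))) (.c k243 (.f k247 k4 12 (.q k165 [(.s k245 k5 11 (.s k244 k246 0 (.s k7 k86 12 (.d k167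
  k164 k87 0 11)))), (.s k174 k162 1 (.s k175 k160 2 (.s k172 k173 0 (.s k163 k169 2 (.d k167 k164
  k171 0 1)))))] (.c k15 (.l (.s k167 k164 0 (.s k7 k87 11 (.s k244 k86 12 (.d k245 k246 k5 0
  11))))) (.c k164 (.l (.s k160 k175 2 (.s k240 k80 11 (.s k244 k248 1 (.d k245 k246 k5 0 11)))))
  (.c k167 (.q k15 [(.s k160 k175 2 (.d k240 k80 k90 11 14)), (.s k173 k94 12 (.s k174 k162 1 (.d
  k175 k172 k160 0 2))), (.s k240 k90 14 (.s k244 k248 1 (.d k245 k246 k5 0 11)))] .n) .n))))) .n)))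
  (.c k169 (.q k4 [(.s k166 k247 12 (.s k162 k174 1 (.s k243 k81 12 (.d k12 k8 k89 1 14)))), (.s k12
  k8 1 (.s k84 k168 13 (.s k164 k244 11 (.s k88 k240 13 (.d k92 k80 k172 1 11))))), (.s k84 k168 13
  (.s k86 k87 0 (.s k166 k247 12 (.s k6 k246 11 (.s k7 k5 0 (.d k244 k164 k165 11 12))))))] .n) (.c
  k171 (.l (.s k84 k168 13 (.s k86 k87 0 (.s k3 k169 14 (.d k2 k1 k254 0 13))))) .n)))))))))))

def t10_95 : T TT 256 :=
  (.q k86 [(.s k84 k87 0 (.s k252 k168 13 (.s k169 k3 14 (.s k253 k1 13 (.d k255 k254 k170 0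
  14))))), (.s k87 k84 0 (.s k255 k170 14 (.s k3 k171 13 (.s k1 k2 0 (.d k169 k253 k252 13 14)))))]
  (.c k1 (.q k4 [(.s k84 k87 0 (.s k166 k247 12 (.s k6 k246 11 (.s k244 k164 11 (.d k7 k5 k165 0
  12))))), (.s k12 k8 1 (.s k166 k247 12 (.s k89 k243 14 (.s k93 k81 1 (.d k255 k174 k170 12
  14))))), (.s k12 k8 1 (.s k84 k87 0 (.s k164 k244 11 (.s k88 k240 13 (.s k92 k80 1 (.d k252 k172
  k168 11 13))))))] .n) (.c k3 (.q k4 [(.s k12 k8 1 (.s k166 k247 12 (.s k89 k243 14 (.s k93 k81 1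
  (.d k255 k174 k170 12 14))))), (.s k84 k87 0 (.s k166 k247 12 (.s k6 k246 11 (.s k7 k5 0 (.d k244
  k164 k165 11 12))))), (.s k12 k8 1 (.s k84 k87 0 (.s k164 k244 11 (.s k88 k240 13 (.s k92 k80 1
  (.d k252 k172 k168 11 13)))))), (.s k87 k84 0 (.s k247 k166 12 (.s k7 k167 11 (.s k5 k6 0 (.d k165
  k245 k244 11 12)))))] .n) (.c k84 (.q k12 [(.s k4 k8 1 (.s k166 k247 12 (.s k89 k243 14 (.s k93
  k81 1 (.d k255 k174 k170 12 14))))), (.s k255 k170 14 (.s k93 k174 12 (.s k89 k81 1 (.s k92 k83 2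
  (.s k252 k172 11 (.s k169 k3 14 (.d k253 k254 k1 0 13))))))), (.s k170 k255 14 (.s k2 k254 13 (.s
  k3 k1 0 (.s k6 k9 2 (.s k166 k246 11 (.d k4 k8 k247 1 12))))))] (.c k166 (.l (.s k8 k4 1 (.s k170
  k255 14 (.s k2 k254 13 (.s k3 k1 0 (.s k9 k6 2 (.s k89 k251 12 (.d k169 k252 k249 14 11))))))))
  (.c k170 (.l (.s k4 k8 1 (.s k166 k247 12 (.s k6 k246 11 (.s k89 k243 14 (.s k92 k83 2 (.s k252
  k172 11 (.d k3 k9 k169 2 14)))))))) (.c k255 (.l (.s k4 k8 1 (.s k166 k247 12 (.s k243 k89 14 (.s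
  k246 k6 11 (.s k252 k249 2 (.s k169 k3 14 (.d k172 k163 k92 2 11)))))))) .n)))) (.c k87 (.q k207
  [(.s k69 k138 10 (.s k101 k117 3 (.s k48 k154 14 (.s k32 k16 3 (.d k170 k239 k255 10 14))))), (.s
  k138 k69 10 (.s k170 k255 14 (.s k2 k254 13 (.s k3 k1 0 (.s k70 k206 9 (.s k137 k204 10 (.d k139
  k136 k71 0 9))))))), (.s k69 k138 10 (.s k101 k117 3 (.s k71 k116 4 (.s k3 k139 9 (.s k1 k2 0 (.d
  k169 k253 k252 13 14)))))), (.s k170 k255 14 (.s k2 k254 13 (.s k3 k1 0 (.s k71 k139 9 (.s k101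
  k116 4 (.s k32 k239 10 (.d k48 k16 k154 3 14)))))))] (.c k83 (.q k91 [(.s k69 k138 10 (.s k101
  k117 3 (.s k48 k154 14 (.s k32 k16 3 (.d k170 k239 k255 10 14))))), (.s k138 k69 10 (.s k170 k255
  14 (.s k2 k254 13 (.s k3 k1 0 (.s k70 k206 9 (.s k137 k204 10 (.d k139 k136 k71 0 9))))))), (.s
  k69 k138 10 (.s k101 k117 3 (.s k71 k116 4 (.s k3 k139 9 (.s k1 k2 0 (.d k169 k253 k252 13
  14)))))), (.s k170 k255 14 (.s k2 k254 13 (.s k3 k1 0 (.s k71 k139 9 (.s k101 k116 4 (.s k32 k239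
  10 (.d k48 k16 k154 3 14)))))))] .n) (.c k91 (.q k83 [(.s k69 k138 10 (.s k101 k117 3 (.s k48 k154
  14 (.s k32 k16 3 (.d k170 k239 k255 10 14))))), (.s k89 k92 2 (.s k93 k81 1 (.s k255 k170 14 (.s
  k12 k174 12 (.s k4 k8 1 (.d k166 k247 k243 12 14)))))), (.s k69 k138 10 (.s k101 k117 3 (.s k71
  k116 4 (.s k3 k139 9 (.s k1 k2 0 (.d k169 k253 k252 13 14))))))] .n) .n))) (.c k168 (.l (.s k87
  k84 0 (.s k255 k170 14 (.s k3 k171 13 (.s k169 k252 14 (.d k1 k2 k253 0 13)))))) (.c k169 (.q k4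
  [(.s k12 k8 1 (.s k166 k247 12 (.s k89 k243 14 (.s k93 k81 1 (.d k255 k174 k170 12 14))))), (.s
  k84 k87 0 (.s k166 k247 12 (.s k6 k246 11 (.s k7 k5 0 (.d k244 k164 k165 11 12))))), (.s k12 k8 1
  (.s k84 k87 0 (.s k164 k244 11 (.s k88 k240 13 (.s k92 k80 1 (.d k252 k172 k168 11 13))))))] .n)
  (.c k170 (.q k60 [(.s k40 k20 5 (.s k84 k87 0 (.s k168 k252 13 (.s k104 k232 7 (.s k64 k124 5 (.d
  k192 k128 k148 7 13)))))), (.s k20 k40 5 (.s k150 k215 8 (.s k22 k214 7 (.s k3 k41 6 (.s k1 k2 0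
  (.d k169 k253 k252 13 14)))))), (.s k84 k87 0 (.s k252 k168 13 (.s k124 k188 7 (.s k105 k67 6 (.s
  k65 k125 5 (.d k195 k130 k150 8 14))))))] (.c k90 (.q k250 [(.s k40 k20 5 (.s k84 k87 0 (.s k168
  k252 13 (.s k104 k232 7 (.s k64 k124 5 (.d k192 k128 k148 7 13)))))), (.s k20 k40 5 (.s k150 k215
  8 (.s k22 k214 7 (.s k3 k41 6 (.s k1 k2 0 (.d k169 k253 k252 13 14)))))), (.s k84 k87 0 (.s k252
  k168 13 (.s k124 k188 7 (.s k105 k67 6 (.s k65 k125 5 (.d k195 k130 k150 8 14))))))] (.c k252 (.l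
  (.s k20 k40 5 (.s k84 k87 0 (.s k150 k215 8 (.s k22 k214 7 (.s k23 k21 0 (.d k212 k148 k149 7
  8))))))) .n)) (.c k250 (.q k90 [(.s k40 k20 5 (.s k84 k87 0 (.s k168 k252 13 (.s k104 k232 7 (.s
  k64 k124 5 (.d k192 k128 k148 7 13)))))), (.s k20 k40 5 (.s k150 k215 8 (.s k22 k214 7 (.s k3 k41
  6 (.s k1 k2 0 (.d k169 k253 k252 13 14)))))), (.s k84 k87 0 (.s k252 k168 13 (.s k124 k188 7 (.s
  k105 k67 6 (.s k65 k125 5 (.d k195 k130 k150 8 14))))))] (.c k252 (.l (.s k20 k40 5 (.s k84 k87 0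
  (.s k150 k215 8 (.s k22 k214 7 (.s k23 k21 0 (.d k212 k148 k149 7 8))))))) .n)) (.c k252 (.l (.s
  k20 k40 5 (.s k84 k87 0 (.s k150 k215 8 (.s k22 k214 7 (.s k23 k21 0 (.d k212 k148 k149 7 8)))))))
  .n)))) (.c k171 (.l (.s k84 k87 0 (.s k252 k168 13 (.s k3 k169 14 (.s k170 k255 14 (.d k2 k1 k254
  0 13)))))) (.c k252 (.q k17 [(.s k51 k34 4 (.s k153 k221 9 (.s k102 k204 14 (.s k119 k68 4 (.d
  k255 k187 k170 9 14))))), (.s k87 k84 0 (.s k153 k221 9 (.s k19 k220 10 (.s k16 k18 0 (.d k223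
  k155 k154 9 10))))), (.s k51 k34 4 (.s k87 k84 0 (.s k255 k170 14 (.s k3 k171 13 (.s k19 k35 3 (.s
  k16 k18 0 (.d k223 k155 k154 9 10)))))))] .n) (.c k253 (.l (.s k84 k87 0 (.s k170 k255 14 (.s k2
  k254 13 (.s k252 k168 13 (.d k3 k1 k169 0 14)))))) (.c k255 (.q k101 [(.s k71 k116 4 (.s k87 k84 0
  (.s k119 k103 3 (.s k68 k102 4 (.d k69 k70 k117 0 3))))), (.s k69 k117 3 (.s k84 k87 0 (.s k207
  k138 10 (.s k252 k168 13 (.s k222 k237 4 (.d k154 k48 k18 14 9)))))), (.s k84 k87 0 (.s k116 k71 4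
  (.s k252 k168 13 (.s k48 k184 9 (.s k16 k32 3 (.d k154 k223 k207 10 14)))))), (.s k69 k117 3 (.s
  k71 k116 4 (.s k207 k138 10 (.s k3 k139 9 (.s k1 k2 0 (.d k169 k253 k252 13 14))))))] (.c k15 (.q
  k175 [(.s k71 k116 4 (.s k87 k84 0 (.s k119 k103 3 (.s k68 k102 4 (.d k69 k70 k117 0 3))))), (.s
  k69 k117 3 (.s k84 k87 0 (.s k207 k138 10 (.s k252 k168 13 (.s k222 k237 4 (.d k154 k48 k18 14
  9)))))), (.s k84 k87 0 (.s k116 k71 4 (.s k252 k168 13 (.s k48 k184 9 (.s k16 k32 3 (.d k154 k223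
  k207 10 14)))))), (.s k69 k117 3 (.s k71 k116 4 (.s k207 k138 10 (.s k3 k139 9 (.s k1 k2 0 (.d
  k169 k253 k252 13 14))))))] .n) (.c k175 (.q k15 [(.s k71 k116 4 (.s k87 k84 0 (.s k119 k103 3 (.s
  k68 k102 4 (.d k69 k70 k117 0 3))))), (.s k69 k117 3 (.s k84 k87 0 (.s k207 k138 10 (.s k252 k168
  13 (.s k222 k237 4 (.d k154 k48 k18 14 9)))))), (.s k84 k87 0 (.s k116 k71 4 (.s k252 k168 13 (.s
  k48 k184 9 (.s k16 k32 3 (.d k154 k223 k207 10 14)))))), (.s k69 k117 3 (.s k71 k116 4 (.s k207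
  k138 10 (.s k3 k139 9 (.s k1 k2 0 (.d k169 k253 k252 13 14))))))] .n) .n))) .n))))))))))))

def t10_98 : T TT 256 :=
  (.f k170 k255 14 (.q k252 [(.s k84 k168 13 (.s k86 k87 0 (.s k2 k254 13 (.d k3 k1 k169 0 14))))]
  (.c k1 (.q k4 [(.s k12 k8 1 (.s k166 k247 12 (.s k162 k174 1 (.d k243 k81 k89 12 14)))), (.s k12
  k8 1 (.s k84 k168 13 (.s k92 k172 11 (.s k88 k80 1 (.d k164 k244 k240 11 13))))), (.s k84 k168 13
  (.s k86 k87 0 (.s k166 k247 12 (.s k6 k246 11 (.s k7 k5 0 (.d k244 k164 k165 11 12))))))] (.c k9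
  (.l (.s k166 k247 12 (.s k162 k174 1 (.s k243 k81 12 (.d k12 k8 k89 1 14))))) .n)) (.c k2 (.f k84
  k168 13 (.f k86 k87 0 (.f k3 k169 14 (.q k6 [(.s k12 k9 2 (.s k166 k246 11 (.d k4 k8 k247 1 12))),
  (.s k166 k246 11 (.s k4 k247 12 (.s k7 k5 0 (.d k244 k164 k165 11 12)))), (.s k12 k9 2 (.s k92
  k172 11 (.s k89 k83 2 (.d k166 k246 k243 11 14)))), (.s k12 k9 2 (.s k8 k4 1 (.s k89 k251 12 (.d
  k92 k83 k172 2 11))))] .n)))) (.c k3 (.f k168 k84 13 (.q k192 [(.s k64 k128 7 (.s k106 k127 6 (.s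
  k42 k234 7 (.d k63 k21 k149 6 14)))), (.s k232 k212 5 (.s k40 k104 7 (.s k105 k235 8 (.s k65 k125
  5 (.s k195 k130 8 (.d k60 k20 k150 5 14))))))] (.c k64 (.l (.s k232 k212 5 (.s k104 k40 7 (.s k148
  k60 13 (.s k128 k188 5 (.s k149 k191 6 (.s k21 k213 7 (.d k63 k42 k106 6 14)))))))) (.c k87 (.l
  (.s k171 k169 0 (.s k64 k128 7 (.s k106 k127 6 (.s k42 k234 7 (.d k63 k21 k149 6 14)))))) (.c k171
  (.q k87 [(.s k64 k128 7 (.s k106 k127 6 (.s k42 k234 7 (.d k63 k21 k149 6 14)))), (.s k232 k212 5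
  (.s k40 k104 7 (.s k105 k235 8 (.s k65 k125 5 (.s k195 k130 8 (.d k60 k20 k150 5 14))))))] (.c k64
  (.l (.s k232 k212 5 (.s k104 k40 7 (.s k148 k60 13 (.s k128 k188 5 (.s k149 k191 6 (.s k21 k213 7
  (.d k63 k42 k106 6 14)))))))) .n)) .n))))) (.c k84 (.q k153 [(.s k17 k221 9 (.s k51 k34 4 (.s k136
  k187 4 (.d k204 k68 k102 9 14)))), (.s k136 k187 4 (.s k204 k68 9 (.s k220 k236 3 (.s k86 k19 10
  (.s k2 k254 13 (.d k3 k1 k169 0 14)))))), (.s k17 k221 9 (.s k51 k34 4 (.s k185 k118 10 (.s k169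
  k137 3 (.s k1 k253 13 (.d k3 k2 k86 0 14))))))] (.c k51 (.q k145 [(.s k149 k157 1 (.s k21 k213 7
  (.s k63 k42 6 (.s k128 k191 6 (.d k192 k64 k106 7 14))))), (.s k17 k221 9 (.s k81 k209 7 (.s k162
  k243 12 (.s k166 k174 1 (.d k179 k128 k140 4 6))))), (.s k17 k221 9 (.s k149 k157 1 (.s k21 k213 7
  (.s k29 k25 1 (.d k209 k81 k89 7 9))))), (.s k17 k221 9 (.s k149 k157 1 (.s k128 k191 6 (.s k162
  k179 4 (.d k81 k243 k209 12 7)))))] (.c k119 (.l (.s k187 k136 4 (.s k17 k221 9 (.s k81 k209 7 (.s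
  k149 k157 1 (.s k128 k191 6 (.d k162 k179 k243 4 12))))))) (.c k187 (.q k119 [(.s k149 k157 1 (.s
  k21 k213 7 (.s k63 k42 6 (.s k128 k191 6 (.d k192 k64 k106 7 14))))), (.s k17 k221 9 (.s k81 k209
  7 (.s k162 k243 12 (.s k166 k174 1 (.d k179 k128 k140 4 6))))), (.s k17 k221 9 (.s k149 k157 1 (.s
  k21 k213 7 (.s k29 k25 1 (.d k209 k81 k89 7 9))))), (.s k68 k102 4 (.s k136 k204 9 (.s k149 k157 1
  (.s k128 k191 6 (.s k140 k132 1 (.d k179 k162 k166 4 6))))))] .n) .n))) (.c k204 (.q k69 [(.s k207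
  k138 10 (.s k101 k117 3 (.s k48 k154 14 (.d k32 k16 k239 3 10)))), (.s k136 k187 4 (.s k138 k207
  10 (.s k137 k139 0 (.s k169 k185 3 (.d k1 k205 k253 9 13))))), (.s k101 k117 3 (.s k205 k49 13 (.s
  k1 k137 9 (.s k3 k2 0 (.d k169 k253 k86 13 14)))))] (.c k186 (.l (.s k207 k138 10 (.s k101 k117 3
  (.s k48 k154 14 (.d k32 k16 k239 3 10))))) (.c k221 (.q k238 [(.s k207 k138 10 (.s k101 k117 3 (.s
  k48 k154 14 (.d k32 k16 k239 3 10)))), (.s k136 k187 4 (.s k138 k207 10 (.s k137 k139 0 (.s k169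
  k185 3 (.d k1 k205 k253 9 13))))), (.s k101 k117 3 (.s k205 k49 13 (.s k1 k137 9 (.s k3 k2 0 (.d
  k169 k253 k86 13 14)))))] (.c k186 (.l (.s k207 k138 10 (.s k101 k117 3 (.s k48 k154 14 (.d k32
  k16 k239 3 10))))) .n)) (.c k238 (.l (.s k221 k17 9 (.s k101 k117 3 (.s k32 k239 10 (.s k48 k16 3
  (.d k207 k138 k154 10 14)))))) .n)))) .n))) (.c k86 (.q k4 [(.s k12 k8 1 (.s k166 k247 12 (.s k162
  k174 1 (.d k243 k81 k89 12 14)))), (.s k84 k168 13 (.s k244 k164 11 (.s k240 k248 1 (.s k160 k80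
  11 (.s k165 k175 2 (.s k245 k5 11 (.d k247 k246 k166 0 12))))))), (.s k12 k8 1 (.s k84 k168 13 (.s
  k92 k172 11 (.s k88 k80 1 (.d k164 k244 k240 11 13)))))] (.c k8 (.l (.s k166 k247 12 (.s k162 k174
  1 (.s k168 k84 13 (.s k169 k171 0 (.s k172 k163 2 (.s k12 k92 11 (.d k243 k89 k81 14 12))))))))
  .n)) (.c k87 (.l (.s k168 k84 13 (.s k169 k171 0 (.s k3 k86 14 (.d k1 k2 k253 0 13))))) (.c k168
  (.q k149 [(.s k21 k213 7 (.s k63 k42 6 (.s k128 k191 6 (.d k192 k64 k106 7 14)))), (.s k128 k191 6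
  (.s k192 k64 7 (.s k212 k232 5 (.s k86 k23 8 (.s k2 k254 13 (.d k3 k1 k169 0 14)))))), (.s k21
  k213 7 (.s k63 k42 6 (.s k189 k126 8 (.s k169 k129 5 (.s k1 k253 13 (.d k3 k2 k86 0 14))))))] (.c
  k63 (.q k212 [(.s k192 k232 5 (.d k128 k191 k64 6 7)), (.s k86 k23 8 (.s k2 k254 13 (.d k3 k1 k169
  0 14)))] (.c k127 (.l (.s k191 k128 6 (.s k86 k23 8 (.s k2 k254 13 (.d k3 k1 k169 0 14))))) (.c
  k191 (.q k127 [(.s k64 k106 6 (.d k192 k232 k128 5 7)), (.s k86 k23 8 (.s k2 k254 13 (.d k3 k1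
  k169 0 14)))] .n) .n))) (.c k192 (.f k213 k21 7 (.q k145 [(.s k153 k157 1 (.s k17 k221 9 (.s k136
  k187 4 (.s k204 k68 9 (.d k51 k34 k102 4 14))))), (.s k128 k191 6 (.s k162 k179 4 (.s k81 k243 12
  (.s k89 k93 1 (.d k209 k17 k29 7 9))))), (.s k128 k191 6 (.s k153 k157 1 (.s k136 k187 4 (.s k140
  k132 1 (.d k179 k162 k166 4 6))))), (.s k128 k191 6 (.s k153 k157 1 (.s k17 k221 9 (.s k81 k209 7
  (.d k162 k243 k179 12 4)))))] .n)) .n))) (.c k169 (.q k4 [(.s k12 k8 1 (.s k166 k247 12 (.s k162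
  k174 1 (.d k243 k81 k89 12 14)))), (.s k84 k168 13 (.s k86 k87 0 (.s k166 k247 12 (.s k6 k246 11
  (.s k7 k5 0 (.d k244 k164 k165 11 12)))))), (.s k12 k8 1 (.s k84 k168 13 (.s k164 k244 11 (.s k88
  k240 13 (.d k92 k80 k172 1 11)))))] .n) (.c k171 (.l (.s k84 k168 13 (.s k86 k87 0 (.s k3 k169 14
  (.d k2 k1 k254 0 13))))) (.c k254 (.l (.s k168 k84 13 (.s k169 k171 0 (.s k1 k253 13 (.d k3 k2 k86
  0 14))))) .n))))))))))))

def t10_99 : T TT 256 :=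
  (.f k170 k255 14 (.q k252 [(.s k84 k168 13 (.s k86 k87 0 (.s k2 k254 13 (.d k3 k1 k169 0 14))))]
  (.c k1 (.q k4 [(.s k12 k8 1 (.s k166 k247 12 (.s k162 k174 1 (.d k243 k81 k89 12 14)))), (.s k12
  k8 1 (.s k84 k168 13 (.s k92 k172 11 (.s k88 k80 1 (.d k164 k244 k240 11 13))))), (.s k84 k168 13
  (.s k86 k87 0 (.s k166 k247 12 (.s k6 k246 11 (.s k7 k5 0 (.d k244 k164 k165 11 12))))))] (.c k9
  (.l (.s k166 k247 12 (.s k162 k174 1 (.s k243 k81 12 (.d k12 k8 k89 1 14))))) .n)) (.c k2 (.f k84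
  k168 13 (.f k86 k87 0 (.f k3 k169 14 (.q k6 [(.s k12 k9 2 (.s k166 k246 11 (.d k4 k8 k247 1 12))),
  (.s k166 k246 11 (.s k4 k247 12 (.s k7 k5 0 (.d k244 k164 k165 11 12)))), (.s k12 k9 2 (.s k92
  k172 11 (.s k89 k83 2 (.d k166 k246 k243 11 14)))), (.s k12 k9 2 (.s k8 k4 1 (.s k89 k251 12 (.d
  k92 k83 k172 2 11))))] .n)))) (.c k3 (.f k168 k84 13 (.q k192 [(.s k64 k128 7 (.s k106 k127 6 (.s
  k42 k234 7 (.d k63 k21 k149 6 14)))), (.s k232 k212 5 (.s k40 k104 7 (.s k105 k235 8 (.s k65 k125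
  5 (.s k195 k130 8 (.d k60 k20 k150 5 14))))))] (.c k64 (.l (.s k232 k212 5 (.s k104 k40 7 (.s k148
  k60 13 (.s k128 k188 5 (.s k149 k191 6 (.s k21 k213 7 (.d k63 k42 k106 6 14)))))))) (.c k87 (.l
  (.s k171 k169 0 (.s k64 k128 7 (.s k106 k127 6 (.s k42 k234 7 (.d k63 k21 k149 6 14)))))) (.c k171
  (.q k87 [(.s k64 k128 7 (.s k106 k127 6 (.s k42 k234 7 (.d k63 k21 k149 6 14)))), (.s k232 k212 5
  (.s k40 k104 7 (.s k105 k235 8 (.s k65 k125 5 (.s k195 k130 8 (.d k60 k20 k150 5 14))))))] (.c k64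
  (.l (.s k232 k212 5 (.s k104 k40 7 (.s k148 k60 13 (.s k128 k188 5 (.s k149 k191 6 (.s k21 k213 7
  (.d k63 k42 k106 6 14)))))))) .n)) .n))))) (.c k84 (.q k149 [(.s k21 k213 7 (.s k63 k42 6 (.s k128
  k191 6 (.d k192 k64 k106 7 14)))), (.s k128 k191 6 (.s k192 k64 7 (.s k212 k232 5 (.s k86 k23 8
  (.s k2 k254 13 (.d k3 k1 k169 0 14)))))), (.s k21 k213 7 (.s k63 k42 6 (.s k189 k126 8 (.s k169
  k129 5 (.s k1 k253 13 (.d k3 k2 k86 0 14))))))] (.c k63 (.q k188 [(.s k191 k128 6 (.s k190 k189 0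
  (.s k150 k130 5 (.s k131 k169 6 (.d k151 k148 k171 0 5))))), (.s k60 k124 7 (.s k20 k40 5 (.s k150
  k215 8 (.s k130 k190 5 (.d k195 k65 k105 8 14))))), (.s k60 k124 7 (.s k20 k40 5 (.s k150 k215 8
  (.s k148 k151 0 (.d k128 k191 k168 6 5)))))] (.c k127 (.l (.s k191 k128 6 (.s k60 k124 7 (.s k20
  k40 5 (.s k150 k215 8 (.d k190 k189 k130 0 5)))))) (.c k150 (.l (.s k191 k128 6 (.s k189 k190 0
  (.s k169 k129 5 (.s k1 k253 13 (.d k3 k2 k86 0 14)))))) (.c k191 (.q k127 [(.s k60 k124 7 (.s k20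
  k40 5 (.s k150 k215 8 (.s k130 k190 5 (.d k195 k65 k105 8 14))))), (.s k64 k106 6 (.s k128 k192 7
  (.s k168 k148 5 (.s k169 k171 0 (.s k1 k253 13 (.d k3 k2 k86 0 14)))))), (.s k64 k106 6 (.s k128
  k192 7 (.s k148 k168 5 (.s k150 k151 0 (.s k131 k169 6 (.d k130 k129 k190 0 5))))))] (.c k64 (.l
  (.s k21 k213 7 (.s k124 k60 7 (.s k125 k126 0 (.s k105 k65 5 (.s k61 k193 13 (.s k1 k41 5 (.d k253
  k189 k169 7 13)))))))) .n)) .n)))) (.c k192 (.q k129 [(.s k189 k169 5 (.s k63 k126 8 (.d k21 k213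
  k42 7 6))), (.s k128 k191 6 (.s k130 k131 0 (.s k65 k195 8 (.s k105 k125 5 (.d k193 k1 k61 7
  13)))))] (.c k63 (.l (.s k169 k189 5 (.s k1 k253 13 (.d k3 k2 k86 0 14)))) (.c k213 (.q k234 [(.s
  k42 k106 7 (.s k63 k21 6 (.d k189 k169 k126 5 8))), (.s k128 k191 6 (.s k130 k131 0 (.s k65 k195 8
  (.s k105 k125 5 (.d k193 k1 k61 7 13)))))] (.c k63 (.l (.s k169 k189 5 (.s k1 k253 13 (.d k3 k2
  k86 0 14)))) .n)) (.c k234 (.l (.s k213 k21 7 (.s k169 k189 5 (.s k1 k253 13 (.d k3 k2 k86 0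
  14))))) .n)))) .n))) (.c k86 (.q k4 [(.s k166 k247 12 (.s k162 k174 1 (.s k243 k81 12 (.d k12 k8
  k89 1 14)))), (.s k12 k8 1 (.s k84 k168 13 (.s k92 k172 11 (.s k88 k80 1 (.d k164 k244 k240 11
  13)))))] (.c k8 (.l (.s k166 k247 12 (.s k162 k174 1 (.s k168 k84 13 (.s k169 k171 0 (.s k172 k163
  2 (.s k12 k92 11 (.d k243 k89 k81 14 12)))))))) (.c k12 (.l (.s k84 k168 13 (.s k244 k164 11 (.s
  k240 k248 1 (.s k160 k80 11 (.s k165 k175 2 (.s k245 k5 11 (.d k247 k246 k166 0 12)))))))) .n)))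
  (.c k87 (.l (.s k168 k84 13 (.s k169 k171 0 (.s k3 k86 14 (.d k1 k2 k253 0 13))))) (.c k168 (.q
  k149 [(.s k21 k213 7 (.s k128 k191 6 (.s k192 k64 7 (.d k63 k42 k106 6 14)))), (.s k128 k191 6 (.s
  k192 k64 7 (.s k212 k232 5 (.s k86 k23 8 (.s k2 k254 13 (.d k3 k1 k169 0 14)))))), (.s k21 k213 7
  (.s k63 k42 6 (.s k189 k126 8 (.s k169 k129 5 (.s k1 k253 13 (.d k3 k2 k86 0 14))))))] (.c k63 (.q
  k212 [(.s k192 k232 5 (.d k128 k191 k64 6 7)), (.s k86 k23 8 (.s k2 k254 13 (.d k3 k1 k169 0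
  14)))] (.c k127 (.l (.s k191 k128 6 (.s k86 k23 8 (.s k2 k254 13 (.d k3 k1 k169 0 14))))) (.c k191
  (.q k127 [(.s k64 k106 6 (.d k192 k232 k128 5 7)), (.s k86 k23 8 (.s k2 k254 13 (.d k3 k1 k169 0
  14)))] .n) .n))) (.c k192 (.q k132 [(.s k128 k191 6 (.s k140 k136 1 (.s k166 k183 4 (.s k162 k174
  1 (.d k179 k145 k153 4 6))))), (.s k166 k183 4 (.s k4 k247 12 (.s k12 k8 1 (.s k162 k174 1 (.d
  k243 k81 k89 12 14))))), (.s k128 k191 6 (.s k136 k140 1 (.s k68 k204 9 (.s k102 k119 4 (.d k196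
  k4 k55 7 12))))), (.s k128 k191 6 (.s k166 k183 4 (.s k4 k247 12 (.s k68 k196 7 (.d k136 k204 k140
  9 1)))))] (.c k213 (.q k234 [(.s k128 k191 6 (.s k140 k136 1 (.s k166 k183 4 (.s k162 k174 1 (.d
  k179 k145 k153 4 6))))), (.s k166 k183 4 (.s k4 k247 12 (.s k12 k8 1 (.s k162 k174 1 (.d k243 k81
  k89 12 14))))), (.s k128 k191 6 (.s k136 k140 1 (.s k68 k204 9 (.s k102 k119 4 (.d k196 k4 k55 7
  12))))), (.s k42 k106 7 (.s k21 k63 6 (.s k166 k183 4 (.s k4 k247 12 (.s k55 k38 4 (.d k196 k68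
  k102 7 12))))))] .n) (.c k234 (.l (.s k213 k21 7 (.s k128 k191 6 (.s k136 k140 1 (.s k68 k204 9
  (.s k102 k119 4 (.d k196 k4 k55 7 12))))))) .n))) .n))) (.c k169 (.q k4 [(.s k166 k247 12 (.s k162
  k174 1 (.s k243 k81 12 (.d k12 k8 k89 1 14)))), (.s k12 k8 1 (.s k84 k168 13 (.s k164 k244 11 (.s
  k88 k240 13 (.d k92 k80 k172 1 11))))), (.s k84 k168 13 (.s k86 k87 0 (.s k166 k247 12 (.s k6 k246
  11 (.s k7 k5 0 (.d k244 k164 k165 11 12))))))] .n) (.c k171 (.l (.s k84 k168 13 (.s k86 k87 0 (.s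
  k3 k169 14 (.d k2 k1 k254 0 13))))) (.c k254 (.l (.s k168 k84 13 (.s k169 k171 0 (.s k1 k253 13
  (.d k3 k2 k86 0 14))))) .n))))))))))))

def t10_102 : T TT 256 :=
  (.f k170 k255 14 (.q k195 [(.s k65 k130 8 (.s k105 k125 5 (.s k40 k235 8 (.d k60 k20 k150 5
  14))))] (.c k20 (.q k1 [(.s k3 k2 0 (.s k169 k253 13 (.s k168 k171 0 (.d k252 k84 k86 13 14)))),
  (.s k65 k130 8 (.s k105 k125 5 (.s k169 k253 13 (.s k41 k233 7 (.s k61 k21 5 (.d k193 k129 k149 7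
  13)))))), (.s k3 k2 0 (.s k65 k130 8 (.s k67 k131 7 (.s k66 k64 0 (.d k129 k193 k192 7 8)))))] .n)
  (.c k40 (.q k1 [(.s k169 k253 13 (.s k168 k171 0 (.s k252 k84 13 (.d k3 k2 k86 0 14)))), (.s k3 k2
  0 (.s k65 k130 8 (.s k67 k131 7 (.s k66 k64 0 (.d k129 k193 k192 7 8))))), (.s k65 k130 8 (.s k105
  k125 5 (.s k169 k253 13 (.s k41 k233 7 (.s k61 k21 5 (.d k193 k129 k149 7 13))))))] .n) (.c k60
  (.f k65 k130 8 (.q k64 [(.s k66 k67 0 (.s k192 k128 7 (.s k193 k194 0 (.d k129 k1 k3 7 8)))), (.s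
  k106 k127 6 (.s k42 k234 7 (.s k63 k21 6 (.d k192 k128 k149 7 14)))), (.s k67 k66 0 (.s k127 k106
  6 (.s k87 k107 5 (.s k86 k84 0 (.d k105 k125 k124 5 6)))))] (.c k125 (.q k190 [(.s k66 k67 0 (.s
  k192 k128 7 (.s k193 k194 0 (.d k129 k1 k3 7 8)))), (.s k106 k127 6 (.s k42 k234 7 (.s k63 k21 6
  (.d k192 k128 k149 7 14)))), (.s k67 k66 0 (.s k127 k106 6 (.s k87 k107 5 (.s k86 k84 0 (.s k2
  k254 13 (.d k3 k1 k131 0 7))))))] .n) (.c k190 (.l (.s k125 k105 5 (.s k66 k67 0 (.s k192 k128 7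
  (.s k129 k3 8 (.d k193 k194 k1 0 7)))))) .n)))) (.c k65 (.q k4 [(.s k12 k8 1 (.s k166 k247 12 (.s
  k162 k174 1 (.d k243 k81 k89 12 14)))), (.s k12 k8 1 (.s k134 k73 10 (.s k69 k199 8 (.s k101 k117
  3 (.s k32 k239 10 (.s k48 k16 3 (.d k207 k138 k154 10 14))))))), (.s k166 k247 12 (.s k162 k174 1
  (.s k243 k81 12 (.s k227 k211 3 (.s k105 k44 10 (.s k40 k235 8 (.d k60 k20 k150 5 14)))))))] (.c
  k12 (.f k166 k247 12 (.q k243 [(.d k162 k174 k81 1 12), (.s k227 k211 3 (.s k105 k44 10 (.s k40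
  k235 8 (.d k60 k20 k150 5 14))))] (.c k93 (.l (.s k174 k162 1 (.s k227 k211 3 (.s k105 k44 10 (.s
  k40 k235 8 (.d k60 k20 k150 5 14)))))) (.c k174 (.q k93 [(.d k81 k89 k162 1 12), (.s k227 k211 3
  (.s k105 k44 10 (.s k40 k235 8 (.d k60 k20 k150 5 14))))] .n) .n)))) .n)) (.c k105 (.f k65 k130 8
  (.q k1 [(.s k169 k253 13 (.s k168 k171 0 (.s k252 k84 13 (.d k3 k2 k86 0 14)))), (.s k193 k129 7
  (.s k192 k194 0 (.s k128 k64 7 (.s k149 k191 6 (.s k21 k213 7 (.d k63 k42 k106 6 14))))))] (.c k2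
  (.l (.s k129 k193 7 (.s k169 k253 13 (.s k149 k189 5 (.s k128 k191 6 (.s k192 k64 7 (.s k63 k106
  14 (.d k21 k213 k42 7 6)))))))) (.c k99 (.q k108 [(.s k169 k253 13 (.s k168 k171 0 (.s k252 k84 13
  (.d k3 k2 k86 0 14)))), (.s k193 k129 7 (.s k192 k194 0 (.s k128 k64 7 (.s k149 k191 6 (.s k21
  k213 7 (.d k63 k42 k106 6 14))))))] (.c k2 (.l (.s k129 k193 7 (.s k169 k253 13 (.s k149 k189 5
  (.s k128 k191 6 (.s k192 k64 7 (.s k63 k106 14 (.d k21 k213 k42 7 6)))))))) .n)) (.c k108 (.q k99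
  [(.s k169 k253 13 (.s k168 k171 0 (.s k252 k84 13 (.d k3 k2 k86 0 14)))), (.s k51 k147 11 (.s k17
  k34 4 (.s k49 k33 3 (.s k193 k129 7 (.s k97 k145 11 (.d k48 k146 k50 12 0))))))] .n) .n))))) (.c
  k125 (.l (.s k130 k65 8 (.s k150 k190 5 (.s k60 k105 14 (.d k20 k40 k215 5 8))))) (.c k130 (.q k4
  [(.s k166 k247 12 (.s k162 k174 1 (.s k243 k81 12 (.d k12 k8 k89 1 14)))), (.s k12 k8 1 (.s k134
  k73 10 (.s k69 k199 8 (.s k101 k117 3 (.s k32 k239 10 (.s k48 k16 3 (.d k207 k138 k154 10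
  14)))))))] (.c k8 (.l (.s k166 k247 12 (.s k162 k174 1 (.s k243 k81 12 (.s k227 k211 3 (.s k105
  k44 10 (.s k40 k235 8 (.d k60 k20 k150 5 14)))))))) (.c k12 (.f k166 k247 12 (.q k243 [(.d k162
  k174 k81 1 12), (.s k227 k211 3 (.s k105 k44 10 (.s k40 k235 8 (.d k60 k20 k150 5 14))))] (.c k93
  (.l (.s k174 k162 1 (.s k227 k211 3 (.s k105 k44 10 (.s k40 k235 8 (.d k60 k20 k150 5 14)))))) (.c
  k174 (.q k93 [(.d k81 k89 k162 1 12), (.s k227 k211 3 (.s k105 k44 10 (.s k40 k235 8 (.d k60 k20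
  k150 5 14))))] .n) .n)))) .n))) (.c k150 (.f k130 k65 8 (.q k2 [(.s k86 k254 13 (.s k84 k87 0 (.s
  k252 k168 13 (.d k3 k1 k169 0 14)))), (.s k194 k66 7 (.s k192 k193 0 (.s k64 k128 7 (.s k106 k127
  6 (.s k42 k234 7 (.d k63 k21 k149 6 14))))))] (.c k1 (.l (.s k66 k194 7 (.s k86 k254 13 (.s k84
  k87 0 (.s k252 k168 13 (.s k3 k169 14 (.s k129 k192 8 (.d k131 k128 k67 0 7)))))))) (.c k54 (.q
  k198 [(.s k86 k254 13 (.s k84 k87 0 (.s k252 k168 13 (.d k3 k1 k169 0 14)))), (.s k194 k66 7 (.s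
  k204 k201 2 (.s k206 k202 1 (.s k138 k70 9 (.d k207 k205 k69 0 10)))))] (.c k86 (.l (.s k3 k1 0
  (.s k66 k194 7 (.s k129 k192 8 (.d k131 k128 k67 0 7))))) .n)) (.c k198 (.q k54 [(.s k86 k254 13
  (.s k84 k87 0 (.s k252 k168 13 (.d k3 k1 k169 0 14)))), (.s k194 k66 7 (.s k192 k193 0 (.s k64
  k128 7 (.s k106 k127 6 (.s k42 k234 7 (.d k63 k21 k149 6 14))))))] (.c k1 (.l (.s k66 k194 7 (.s
  k86 k254 13 (.s k84 k87 0 (.s k252 k168 13 (.s k3 k169 14 (.s k129 k192 8 (.d k131 k128 k67 0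
  7)))))))) .n)) .n))))) (.c k190 (.l (.s k65 k130 8 (.s k105 k125 5 (.s k60 k150 14 (.d k40 k20
  k235 5 8))))) (.c k235 (.l (.s k130 k65 8 (.s k150 k190 5 (.s k20 k215 8 (.d k60 k40 k105 5
  14))))) .n))))))))))))

def t10_103 : T TT 256 :=
  (.f k170 k255 14 (.q k252 [(.s k84 k168 13 (.s k86 k87 0 (.s k2 k254 13 (.d k3 k1 k169 0 14)))),
  (.s k168 k84 13 (.s k169 k171 0 (.s k1 k253 13 (.d k3 k2 k86 0 14))))] (.c k1 (.q k4 [(.s k12 k8 1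
  (.s k166 k247 12 (.s k162 k174 1 (.d k243 k81 k89 12 14)))), (.s k12 k8 1 (.s k84 k168 13 (.s k92
  k172 11 (.s k88 k80 1 (.d k164 k244 k240 11 13))))), (.s k84 k168 13 (.s k86 k87 0 (.s k166 k247
  12 (.s k6 k246 11 (.s k7 k5 0 (.d k244 k164 k165 11 12))))))] (.c k9 (.l (.s k166 k247 12 (.s k162
  k174 1 (.s k243 k81 12 (.d k12 k8 k89 1 14))))) .n)) (.c k2 (.f k84 k168 13 (.q k101 [(.s k32 k239
  10 (.s k48 k16 3 (.s k69 k117 3 (.d k207 k138 k154 10 14)))), (.s k86 k87 0 (.s k117 k69 3 (.s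
  k116 k71 4 (.s k119 k118 0 (.d k68 k100 k102 3 4))))), (.s k32 k239 10 (.s k48 k16 3 (.s k86 k87 0
  (.d k116 k71 k184 4 9))))] (.c k6 (.q k14 [(.s k32 k239 10 (.s k48 k16 3 (.s k69 k117 3 (.d k207
  k138 k154 10 14)))), (.s k86 k87 0 (.s k117 k69 3 (.s k116 k71 4 (.s k119 k118 0 (.d k68 k100 k102
  3 4))))), (.s k32 k239 10 (.s k48 k16 3 (.s k86 k87 0 (.d k116 k71 k184 4 9))))] (.c k171 (.l (.s
  k69 k117 3 (.s k207 k138 10 (.s k48 k154 14 (.d k32 k16 k239 3 10))))) .n)) (.c k14 (.q k6 [(.s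
  k32 k239 10 (.s k48 k16 3 (.s k69 k117 3 (.d k207 k138 k154 10 14)))), (.s k86 k87 0 (.s k3 k169
  14 (.s k12 k9 2 (.s k166 k246 11 (.d k4 k8 k247 1 12)))))] (.c k171 (.l (.s k69 k117 3 (.s k207
  k138 10 (.s k48 k154 14 (.d k32 k16 k239 3 10))))) .n)) (.c k171 (.l (.s k69 k117 3 (.s k207 k138
  10 (.s k48 k154 14 (.d k32 k16 k239 3 10))))) .n))))) (.c k3 (.f k84 k168 13 (.f k87 k86 0 (.q k4
  [(.s k166 k247 12 (.s k162 k174 1 (.s k243 k81 12 (.d k12 k8 k89 1 14)))), (.s k12 k8 1 (.s k92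
  k172 11 (.s k88 k80 1 (.d k164 k244 k240 11 13))))] (.c k8 (.l (.s k164 k244 11 (.s k166 k247 12
  (.s k162 k174 1 (.s k243 k81 12 (.s k12 k89 14 (.s k88 k240 13 (.d k92 k80 k172 1 11)))))))) (.c
  k12 (.l (.s k244 k164 11 (.s k240 k248 1 (.s k160 k80 11 (.s k165 k175 2 (.s k245 k5 11 (.d k247
  k246 k166 0 12))))))) .n))))) (.c k84 (.q k149 [(.s k21 k213 7 (.s k63 k42 6 (.s k128 k191 6 (.d
  k192 k64 k106 7 14)))), (.s k128 k191 6 (.s k192 k64 7 (.s k212 k232 5 (.s k86 k23 8 (.s k2 k254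
  13 (.d k3 k1 k169 0 14)))))), (.s k21 k213 7 (.s k63 k42 6 (.s k189 k126 8 (.s k169 k129 5 (.s k1
  k253 13 (.d k3 k2 k86 0 14))))))] (.c k63 (.q k188 [(.s k191 k128 6 (.s k190 k189 0 (.s k150 k130
  5 (.s k131 k169 6 (.d k151 k148 k171 0 5))))), (.s k60 k124 7 (.s k20 k40 5 (.s k150 k215 8 (.s
  k130 k190 5 (.d k195 k65 k105 8 14))))), (.s k60 k124 7 (.s k20 k40 5 (.s k150 k215 8 (.s k148
  k151 0 (.d k128 k191 k168 6 5)))))] (.c k127 (.l (.s k191 k128 6 (.s k60 k124 7 (.s k20 k40 5 (.s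
  k150 k215 8 (.d k190 k189 k130 0 5)))))) (.c k150 (.l (.s k191 k128 6 (.s k189 k190 0 (.s k169
  k129 5 (.s k1 k253 13 (.d k3 k2 k86 0 14)))))) (.c k191 (.q k127 [(.s k60 k124 7 (.s k20 k40 5 (.s
  k150 k215 8 (.s k130 k190 5 (.d k195 k65 k105 8 14))))), (.s k64 k106 6 (.s k128 k192 7 (.s k168
  k148 5 (.s k169 k171 0 (.s k1 k253 13 (.d k3 k2 k86 0 14)))))), (.s k64 k106 6 (.s k128 k192 7 (.s
  k148 k168 5 (.s k150 k151 0 (.s k131 k169 6 (.d k130 k129 k190 0 5))))))] (.c k64 (.l (.s k21 k213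
  7 (.s k124 k60 7 (.s k125 k126 0 (.s k105 k65 5 (.s k61 k193 13 (.s k1 k41 5 (.d k253 k189 k169 7
  13)))))))) .n)) .n)))) (.c k192 (.q k129 [(.s k189 k169 5 (.s k63 k126 8 (.d k21 k213 k42 7 6))),
  (.s k128 k191 6 (.s k130 k131 0 (.s k65 k195 8 (.s k105 k125 5 (.d k193 k1 k61 7 13)))))] (.c k63
  (.l (.s k169 k189 5 (.s k1 k253 13 (.d k3 k2 k86 0 14)))) (.c k213 (.q k234 [(.s k42 k106 7 (.s
  k63 k21 6 (.d k189 k169 k126 5 8))), (.s k128 k191 6 (.s k130 k131 0 (.s k65 k195 8 (.s k105 k125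
  5 (.d k193 k1 k61 7 13)))))] (.c k63 (.l (.s k169 k189 5 (.s k1 k253 13 (.d k3 k2 k86 0 14))))
  .n)) (.c k234 (.l (.s k213 k21 7 (.s k169 k189 5 (.s k1 k253 13 (.d k3 k2 k86 0 14))))) .n))))
  .n))) (.c k86 (.q k4 [(.s k166 k247 12 (.s k162 k174 1 (.s k243 k81 12 (.d k12 k8 k89 1 14)))),
  (.s k12 k8 1 (.s k84 k168 13 (.s k92 k172 11 (.s k88 k80 1 (.d k164 k244 k240 11 13)))))] (.c k8
  (.l (.s k166 k247 12 (.s k162 k174 1 (.s k168 k84 13 (.s k169 k171 0 (.s k172 k163 2 (.s k12 k92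
  11 (.d k243 k89 k81 14 12)))))))) (.c k12 (.l (.s k84 k168 13 (.s k244 k164 11 (.s k240 k248 1 (.s
  k160 k80 11 (.s k165 k175 2 (.s k245 k5 11 (.d k247 k246 k166 0 12)))))))) .n))) (.c k87 (.l (.s
  k168 k84 13 (.s k169 k171 0 (.s k3 k86 14 (.d k1 k2 k253 0 13))))) (.c k168 (.q k149 [(.s k21 k213
  7 (.s k128 k191 6 (.s k192 k64 7 (.d k63 k42 k106 6 14)))), (.s k128 k191 6 (.s k192 k64 7 (.s
  k212 k232 5 (.s k86 k23 8 (.s k2 k254 13 (.d k3 k1 k169 0 14)))))), (.s k21 k213 7 (.s k63 k42 6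
  (.s k189 k126 8 (.s k169 k129 5 (.s k1 k253 13 (.d k3 k2 k86 0 14))))))] (.c k63 (.q k212 [(.s
  k192 k232 5 (.d k128 k191 k64 6 7)), (.s k86 k23 8 (.s k2 k254 13 (.d k3 k1 k169 0 14)))] (.c k127
  (.l (.s k191 k128 6 (.s k86 k23 8 (.s k2 k254 13 (.d k3 k1 k169 0 14))))) (.c k191 (.q k127 [(.s
  k64 k106 6 (.d k192 k232 k128 5 7)), (.s k86 k23 8 (.s k2 k254 13 (.d k3 k1 k169 0 14)))] .n)
  .n))) (.c k192 (.q k132 [(.s k128 k191 6 (.s k140 k136 1 (.s k166 k183 4 (.s k162 k174 1 (.d k179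
  k145 k153 4 6))))), (.s k166 k183 4 (.s k4 k247 12 (.s k12 k8 1 (.s k162 k174 1 (.d k243 k81 k89
  12 14))))), (.s k128 k191 6 (.s k136 k140 1 (.s k68 k204 9 (.s k102 k119 4 (.d k196 k4 k55 7
  12))))), (.s k128 k191 6 (.s k166 k183 4 (.s k4 k247 12 (.s k68 k196 7 (.d k136 k204 k140 9
  1)))))] (.c k213 (.q k234 [(.s k128 k191 6 (.s k140 k136 1 (.s k166 k183 4 (.s k162 k174 1 (.d
  k179 k145 k153 4 6))))), (.s k166 k183 4 (.s k4 k247 12 (.s k12 k8 1 (.s k162 k174 1 (.d k243 k81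
  k89 12 14))))), (.s k128 k191 6 (.s k136 k140 1 (.s k68 k204 9 (.s k102 k119 4 (.d k196 k4 k55 7
  12))))), (.s k42 k106 7 (.s k21 k63 6 (.s k166 k183 4 (.s k4 k247 12 (.s k55 k38 4 (.d k196 k68
  k102 7 12))))))] .n) (.c k234 (.l (.s k213 k21 7 (.s k128 k191 6 (.s k136 k140 1 (.s k68 k204 9
  (.s k102 k119 4 (.d k196 k4 k55 7 12))))))) .n))) .n))) (.c k169 (.q k4 [(.s k166 k247 12 (.s k162
  k174 1 (.s k243 k81 12 (.d k12 k8 k89 1 14)))), (.s k12 k8 1 (.s k84 k168 13 (.s k164 k244 11 (.s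
  k88 k240 13 (.d k92 k80 k172 1 11))))), (.s k84 k168 13 (.s k86 k87 0 (.s k166 k247 12 (.s k6 k246
  11 (.s k7 k5 0 (.d k244 k164 k165 11 12))))))] .n) (.c k171 (.l (.s k84 k168 13 (.s k86 k87 0 (.s
  k3 k169 14 (.d k2 k1 k254 0 13))))) .n)))))))))))

def t10_106 : T TT 256 :=
  (.f k170 k255 14 (.q k204 [(.s k68 k136 9 (.s k102 k119 4 (.s k34 k238 9 (.d k51 k17 k153 4
  14))))] (.c k17 (.q k1 [(.s k169 k253 13 (.s k168 k171 0 (.s k252 k84 13 (.d k3 k2 k86 0 14)))),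
  (.s k3 k2 0 (.s k136 k68 9 (.s k137 k70 10 (.s k69 k205 9 (.d k138 k139 k207 0 10))))), (.s k68
  k136 9 (.s k102 k119 4 (.s k169 k253 13 (.s k236 k35 10 (.s k252 k220 3 (.d k168 k171 k84 0
  13))))))] .n) (.c k34 (.q k1 [(.s k169 k253 13 (.s k168 k171 0 (.s k252 k84 13 (.d k3 k2 k86 0
  14)))), (.s k3 k2 0 (.s k136 k68 9 (.s k137 k70 10 (.s k69 k205 9 (.d k138 k139 k207 0 10))))),
  (.s k68 k136 9 (.s k102 k119 4 (.s k169 k253 13 (.s k236 k35 10 (.s k252 k220 3 (.d k168 k171 k84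
  0 13))))))] .n) (.c k51 (.f k68 k136 9 (.q k84 [(.s k100 k116 3 (.s k48 k152 13 (.s k32 k16 3 (.d
  k168 k236 k252 9 13)))), (.s k86 k87 0 (.s k2 k254 13 (.s k3 k1 0 (.s k70 k137 10 (.d k102 k119
  k118 4 3)))))] (.c k119 (.q k187 [(.s k100 k116 3 (.s k48 k152 13 (.s k32 k16 3 (.d k168 k236 k252
  9 13)))), (.s k86 k87 0 (.s k2 k254 13 (.s k3 k1 0 (.d k252 k168 k169 13 14)))), (.s k86 k87 0 (.s
  k116 k100 3 (.s k71 k101 4 (.s k70 k69 0 (.s k3 k137 10 (.d k2 k1 k254 0 13))))))] .n) (.c k187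
  (.l (.s k119 k102 4 (.s k86 k87 0 (.s k2 k254 13 (.s k3 k1 0 (.d k252 k168 k169 13 14)))))) (.c
  k252 (.l (.s k86 k87 0 (.s k116 k100 3 (.s k71 k101 4 (.s k70 k69 0 (.d k102 k118 k119 3 4))))))
  .n))))) (.c k68 (.q k2 [(.s k3 k1 0 (.s k86 k254 13 (.s k84 k87 0 (.d k252 k168 k169 13 14)))),
  (.s k3 k1 0 (.s k70 k137 10 (.s k138 k206 9 (.s k154 k186 3 (.s k16 k223 10 (.s k48 k32 3 (.d k207
  k69 k101 10 14)))))))] (.c k1 (.l (.s k86 k254 13 (.s k84 k87 0 (.s k252 k168 13 (.s k220 k236 3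
  (.s k153 k19 10 (.s k17 k221 9 (.d k51 k34 k102 4 14)))))))) (.c k3 (.f k86 k254 13 (.q k252 [(.d
  k84 k87 k168 0 13), (.s k220 k236 3 (.s k153 k19 10 (.s k17 k221 9 (.d k51 k34 k102 4 14))))] (.c
  k87 (.q k171 [(.d k168 k169 k84 0 13), (.s k220 k236 3 (.s k153 k19 10 (.s k17 k221 9 (.d k51 k34
  k102 4 14))))] .n) (.c k171 (.l (.s k87 k84 0 (.s k220 k236 3 (.s k153 k19 10 (.s k17 k221 9 (.d
  k51 k34 k102 4 14)))))) .n)))) .n))) (.c k102 (.f k136 k68 9 (.q k138 [(.s k154 k186 3 (.s k16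
  k223 10 (.s k48 k32 3 (.d k207 k69 k101 10 14)))), (.s k137 k139 0 (.s k3 k70 10 (.s k1 k2 0 (.s
  k153 k187 4 (.d k169 k185 k253 3 13)))))] (.c k69 (.l (.s k137 k139 0 (.s k153 k187 4 (.s k169
  k185 3 (.s k1 k253 13 (.d k3 k2 k70 0 10)))))) (.c k98 (.q k110 [(.s k154 k186 3 (.s k16 k223 10
  (.s k48 k32 3 (.d k207 k69 k101 10 14)))), (.s k137 k139 0 (.s k3 k70 10 (.s k1 k2 0 (.s k153 k187
  4 (.d k169 k185 k253 3 13)))))] (.c k69 (.l (.s k137 k139 0 (.s k153 k187 4 (.s k169 k185 3 (.s k1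
  k253 13 (.d k3 k2 k70 0 10)))))) .n)) (.c k110 (.q k98 [(.s k154 k186 3 (.s k16 k223 10 (.s k48
  k32 3 (.d k207 k69 k101 10 14)))), (.s k137 k139 0 (.s k3 k70 10 (.s k1 k2 0 (.s k153 k187 4 (.d
  k169 k185 k253 3 13)))))] (.c k69 (.l (.s k137 k139 0 (.s k153 k187 4 (.s k169 k185 3 (.s k1 k253
  13 (.d k3 k2 k70 0 10)))))) .n)) .n))))) (.c k119 (.l (.s k136 k68 9 (.s k153 k187 4 (.s k51 k102
  14 (.d k17 k34 k221 4 9))))) (.c k136 (.q k2 [(.s k3 k1 0 (.s k86 k254 13 (.s k84 k87 0 (.d k252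
  k168 k169 13 14)))), (.s k3 k1 0 (.s k70 k137 10 (.s k138 k206 9 (.s k154 k186 3 (.s k16 k223 10
  (.s k48 k32 3 (.d k207 k69 k101 10 14)))))))] (.c k1 (.l (.s k86 k254 13 (.s k84 k87 0 (.s k252
  k168 13 (.s k220 k236 3 (.s k153 k19 10 (.s k17 k221 9 (.d k51 k34 k102 4 14)))))))) (.c k3 (.f
  k86 k254 13 (.q k252 [(.d k84 k87 k168 0 13), (.s k220 k236 3 (.s k153 k19 10 (.s k17 k221 9 (.d
  k51 k34 k102 4 14))))] (.c k87 (.q k171 [(.d k168 k169 k84 0 13), (.s k220 k236 3 (.s k153 k19 10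
  (.s k17 k221 9 (.d k51 k34 k102 4 14))))] .n) (.c k171 (.l (.s k87 k84 0 (.s k220 k236 3 (.s k153
  k19 10 (.s k17 k221 9 (.d k51 k34 k102 4 14)))))) .n)))) .n))) (.c k153 (.f k136 k68 9 (.q k138
  [(.s k154 k186 3 (.s k16 k223 10 (.s k48 k32 3 (.d k207 k69 k101 10 14)))), (.s k137 k139 0 (.s k3
  k70 10 (.s k1 k2 0 (.s k169 k253 13 (.s k168 k171 0 (.d k252 k84 k86 13 14))))))] (.c k59 (.q k200
  [(.s k69 k207 10 (.s k137 k139 0 (.s k3 k70 10 (.d k1 k2 k205 0 9)))), (.s k72 k8 7 (.s k192 k196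
  1 (.s k128 k64 7 (.d k132 k140 k12 1 9))))] .n) (.c k69 (.l (.s k139 k137 0 (.s k154 k186 3 (.s
  k16 k223 10 (.s k48 k32 3 (.s k152 k100 13 (.d k184 k168 k169 3 4))))))) (.c k200 (.q k59 [(.s
  k154 k186 3 (.s k16 k223 10 (.s k48 k32 3 (.d k207 k69 k101 10 14)))), (.s k137 k139 0 (.s k3 k70
  10 (.s k1 k2 0 (.s k169 k253 13 (.s k168 k171 0 (.d k252 k84 k86 13 14))))))] (.c k69 (.l (.s k139
  k137 0 (.s k154 k186 3 (.s k16 k223 10 (.s k48 k32 3 (.s k152 k100 13 (.d k184 k168 k169 3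
  4))))))) .n)) .n))))) (.c k187 (.l (.s k68 k136 9 (.s k102 k119 4 (.s k51 k153 14 (.d k34 k17 k238
  4 9))))) (.c k238 (.l (.s k136 k68 9 (.s k153 k187 4 (.s k17 k221 9 (.d k51 k34 k102 4 14)))))
  .n))))))))))))

def t10_107 : T TT 256 :=
  (.f k170 k255 14 (.q k252 [(.s k84 k168 13 (.s k86 k87 0 (.s k2 k254 13 (.d k3 k1 k169 0 14)))),
  (.s k168 k84 13 (.s k169 k171 0 (.s k1 k253 13 (.d k3 k2 k86 0 14))))] (.c k1 (.q k4 [(.s k12 k8 1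
  (.s k166 k247 12 (.s k162 k174 1 (.d k243 k81 k89 12 14)))), (.s k12 k8 1 (.s k84 k168 13 (.s k92
  k172 11 (.s k88 k80 1 (.d k164 k244 k240 11 13))))), (.s k84 k168 13 (.s k86 k87 0 (.s k166 k247
  12 (.s k6 k246 11 (.s k7 k5 0 (.d k244 k164 k165 11 12))))))] (.c k9 (.l (.s k166 k247 12 (.s k162
  k174 1 (.s k243 k81 12 (.d k12 k8 k89 1 14))))) .n)) (.c k2 (.f k84 k168 13 (.q k153 [(.s k17 k221
  9 (.s k136 k187 4 (.s k204 k68 9 (.d k51 k34 k102 4 14)))), (.s k86 k87 0 (.s k220 k19 10 (.s k204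
  k236 3 (.d k136 k187 k68 4 9)))), (.s k86 k87 0 (.s k3 k169 14 (.s k19 k220 10 (.s k51 k35 3 (.d
  k17 k34 k221 4 9)))))] (.c k6 (.q k14 [(.s k17 k221 9 (.s k136 k187 4 (.s k204 k68 9 (.d k51 k34
  k102 4 14)))), (.s k86 k87 0 (.s k220 k19 10 (.s k204 k236 3 (.d k136 k187 k68 4 9)))), (.s k86
  k87 0 (.s k3 k169 14 (.s k19 k220 10 (.s k51 k35 3 (.d k17 k34 k221 4 9)))))] .n) (.c k14 (.q k6
  [(.s k17 k221 9 (.s k136 k187 4 (.s k204 k68 9 (.d k51 k34 k102 4 14)))), (.s k86 k87 0 (.s k3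
  k169 14 (.s k12 k9 2 (.s k166 k246 11 (.d k4 k8 k247 1 12)))))] .n) .n)))) (.c k3 (.f k84 k168 13
  (.f k87 k86 0 (.q k4 [(.s k166 k247 12 (.s k162 k174 1 (.s k243 k81 12 (.d k12 k8 k89 1 14)))),
  (.s k12 k8 1 (.s k92 k172 11 (.s k88 k80 1 (.d k164 k244 k240 11 13))))] (.c k8 (.l (.s k164 k244
  11 (.s k166 k247 12 (.s k162 k174 1 (.s k243 k81 12 (.s k12 k89 14 (.s k88 k240 13 (.d k92 k80
  k172 1 11)))))))) (.c k12 (.l (.s k244 k164 11 (.s k240 k248 1 (.s k160 k80 11 (.s k165 k175 2 (.s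
  k245 k5 11 (.d k247 k246 k166 0 12))))))) .n))))) (.c k84 (.q k149 [(.s k21 k213 7 (.s k63 k42 6
  (.s k128 k191 6 (.d k192 k64 k106 7 14)))), (.s k128 k191 6 (.s k192 k64 7 (.s k212 k232 5 (.s k86
  k23 8 (.s k2 k254 13 (.d k3 k1 k169 0 14)))))), (.s k21 k213 7 (.s k63 k42 6 (.s k189 k126 8 (.s
  k169 k129 5 (.s k1 k253 13 (.d k3 k2 k86 0 14))))))] (.c k63 (.q k195 [(.s k65 k130 8 (.s k105
  k125 5 (.s k60 k150 14 (.d k40 k20 k235 5 8)))), (.s k213 k21 7 (.s k214 k233 6 (.s k212 k215 0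
  (.s k192 k232 5 (.d k128 k191 k64 6 7)))))] (.c k127 (.l (.s k191 k128 6 (.s k65 k130 8 (.s k105
  k125 5 (.s k40 k235 8 (.d k60 k20 k150 5 14)))))) (.c k191 (.q k127 [(.s k65 k130 8 (.s k105 k125
  5 (.s k60 k150 14 (.d k40 k20 k235 5 8)))), (.s k64 k106 6 (.s k192 k128 7 (.s k193 k194 0 (.s
  k213 k21 7 (.d k233 k253 k214 5 6)))))] (.c k105 (.l (.s k130 k65 8 (.s k150 k190 5 (.s k213 k21 7
  (.s k214 k233 6 (.d k215 k212 k20 0 8)))))) (.c k150 (.l (.s k64 k106 6 (.s k65 k130 8 (.s k105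
  k125 5 (.s k192 k128 7 (.d k193 k194 k61 0 13)))))) .n))) (.c k235 (.l (.s k130 k65 8 (.s k150
  k190 5 (.s k20 k215 8 (.d k60 k40 k105 5 14))))) .n)))) (.c k192 (.q k129 [(.s k189 k169 5 (.s k63
  k126 8 (.d k21 k213 k42 7 6))), (.s k128 k191 6 (.s k130 k131 0 (.s k65 k195 8 (.s k105 k125 5 (.d
  k193 k1 k61 7 13)))))] (.c k63 (.l (.s k169 k189 5 (.s k1 k253 13 (.d k3 k2 k86 0 14)))) (.c k213
  (.q k234 [(.s k42 k106 7 (.s k63 k21 6 (.d k189 k169 k126 5 8))), (.s k169 k189 5 (.s k1 k253 13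
  (.d k3 k2 k86 0 14))), (.s k128 k191 6 (.s k130 k131 0 (.s k65 k195 8 (.s k105 k125 5 (.d k193 k1
  k61 7 13)))))] .n) (.c k234 (.l (.s k213 k21 7 (.s k169 k189 5 (.s k1 k253 13 (.d k3 k2 k86 0
  14))))) .n)))) .n))) (.c k86 (.q k4 [(.s k166 k247 12 (.s k162 k174 1 (.s k243 k81 12 (.d k12 k8
  k89 1 14)))), (.s k12 k8 1 (.s k84 k168 13 (.s k92 k172 11 (.s k88 k80 1 (.d k164 k244 k240 11
  13)))))] (.c k8 (.l (.s k166 k247 12 (.s k162 k174 1 (.s k168 k84 13 (.s k169 k171 0 (.s k172 k163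
  2 (.s k12 k92 11 (.d k243 k89 k81 14 12)))))))) (.c k12 (.l (.s k84 k168 13 (.s k244 k164 11 (.s
  k240 k248 1 (.s k160 k80 11 (.s k165 k175 2 (.s k245 k5 11 (.d k247 k246 k166 0 12)))))))) .n)))
  (.c k87 (.l (.s k168 k84 13 (.s k169 k171 0 (.s k3 k86 14 (.d k1 k2 k253 0 13))))) (.c k168 (.q
  k89 [(.s k8 k251 12 (.s k12 k4 1 (.s k81 k93 1 (.d k243 k162 k166 12 14)))), (.s k81 k93 1 (.s
  k243 k162 12 (.s k249 k246 2 (.s k169 k9 11 (.s k1 k253 13 (.d k3 k2 k86 0 14)))))), (.s k8 k251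
  12 (.s k12 k4 1 (.s k92 k172 11 (.s k86 k83 2 (.s k2 k254 13 (.d k3 k1 k169 0 14))))))] (.c k8 (.l
  (.s k81 k93 1 (.s k243 k162 12 (.s k12 k166 14 (.s k92 k172 11 (.s k86 k83 2 (.s k2 k254 13 (.d k3
  k169 k1 14 0)))))))) (.c k12 (.q k80 [(.s k93 k81 1 (.s k95 k90 2 (.s k92 k94 0 (.s k86 k83 2 (.d
  k84 k87 k88 0 1))))), (.s k240 k160 11 (.s k248 k244 1 (.s k251 k8 12 (.s k249 k250 0 (.s k243
  k246 2 (.d k81 k93 k162 1 12))))))] (.c k81 (.l (.s k90 k95 2 (.s k91 k88 0 (.s k240 k160 11 (.s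
  k248 k244 1 (.s k11 k169 12 (.d k251 k8 k171 12 11))))))) (.c k93 (.q k174 [(.s k95 k90 2 (.s k162
  k166 1 (.s k81 k243 12 (.s k83 k82 0 (.s k86 k92 2 (.d k87 k84 k91 0 1)))))), (.s k90 k95 2 (.s
  k91 k88 0 (.s k240 k160 11 (.s k248 k244 1 (.s k11 k169 12 (.d k251 k8 k171 12 11)))))), (.s k160
  k240 11 (.s k162 k166 1 (.s k81 k243 12 (.s k161 k163 0 (.s k241 k1 11 (.d k165 k175 k13 2
  13))))))] (.c k251 (.l (.s k90 k95 2 (.s k88 k91 0 (.s k92 k84 1 (.s k83 k86 2 (.s k81 k82 0 (.d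
  k162 k166 k243 1 12))))))) .n)) (.c k174 (.l (.s k93 k81 1 (.s k95 k90 2 (.s k92 k94 0 (.s k84 k88
  1 (.d k86 k87 k83 0 2)))))) .n)))) (.c k243 (.q k65 [(.s k105 k125 5 (.s k195 k130 8 (.s k60 k150
  14 (.d k40 k20 k235 5 8)))), (.s k81 k93 1 (.s k113 k97 3 (.s k101 k77 5 (.s k32 k239 10 (.s k48
  k16 3 (.s k69 k117 3 (.d k207 k138 k154 10 14)))))))] (.c k125 (.l (.s k81 k93 1 (.s k113 k97 3
  (.s k77 k101 5 (.s k69 k73 1 (.s k207 k138 10 (.s k12 k142 8 (.d k8 k4 k251 1 12)))))))) (.c k247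
  (.l (.s k251 k8 12 (.s k105 k125 5 (.s k40 k235 8 (.s k60 k20 5 (.d k195 k130 k150 8 14)))))) (.c
  k251 (.q k247 [(.s k105 k125 5 (.s k195 k130 8 (.s k60 k150 14 (.d k40 k20 k235 5 8)))), (.s k4
  k166 12 (.s k12 k8 1 (.s k92 k172 11 (.s k86 k83 2 (.s k2 k254 13 (.d k3 k169 k1 14 0))))))] .n)
  .n)))) .n)))) (.c k169 (.q k4 [(.s k166 k247 12 (.s k162 k174 1 (.s k243 k81 12 (.d k12 k8 k89 1
  14)))), (.s k12 k8 1 (.s k84 k168 13 (.s k164 k244 11 (.s k88 k240 13 (.d k92 k80 k172 1 11))))),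
  (.s k84 k168 13 (.s k86 k87 0 (.s k166 k247 12 (.s k6 k246 11 (.s k7 k5 0 (.d k244 k164 k165 11
  12))))))] .n) (.c k171 (.l (.s k84 k168 13 (.s k86 k87 0 (.s k3 k169 14 (.d k2 k1 k254 0 13)))))
  .n)))))))))))

def t10_111 : T TT 256 :=
  (.f k170 k255 14 (.q k252 [(.s k84 k168 13 (.s k86 k87 0 (.s k2 k254 13 (.d k3 k1 k169 0 14))))]
  (.c k1 (.q k4 [(.s k12 k8 1 (.s k166 k247 12 (.s k162 k174 1 (.d k243 k81 k89 12 14)))), (.s k12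
  k8 1 (.s k84 k168 13 (.s k92 k172 11 (.s k88 k80 1 (.d k164 k244 k240 11 13))))), (.s k84 k168 13
  (.s k86 k87 0 (.s k166 k247 12 (.s k6 k246 11 (.s k7 k5 0 (.d k244 k164 k165 11 12))))))] (.c k9
  (.l (.s k166 k247 12 (.s k162 k174 1 (.s k243 k81 12 (.d k12 k8 k89 1 14))))) .n)) (.c k2 (.f k84
  k168 13 (.f k86 k87 0 (.f k3 k169 14 (.q k6 [(.s k12 k9 2 (.s k166 k246 11 (.d k4 k8 k247 1 12))),
  (.s k166 k246 11 (.s k4 k247 12 (.s k7 k5 0 (.d k244 k164 k165 11 12)))), (.s k12 k9 2 (.s k92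
  k172 11 (.s k89 k83 2 (.d k166 k246 k243 11 14)))), (.s k12 k9 2 (.s k8 k4 1 (.s k89 k251 12 (.d
  k92 k83 k172 2 11))))] .n)))) (.c k3 (.f k84 k168 13 (.q k204 [(.s k68 k136 9 (.s k100 k116 3 (.s
  k220 k236 3 (.d k152 k16 k48 9 13)))), (.s k136 k68 9 (.s k153 k187 4 (.s k17 k221 9 (.d k51 k34
  k102 4 14))))] (.c k68 (.l (.s k220 k236 3 (.s k16 k152 9 (.s k154 k223 10 (.s k138 k186 3 (.s
  k207 k69 10 (.d k48 k32 k101 3 14))))))) (.c k87 (.q k171 [(.s k68 k136 9 (.s k100 k116 3 (.s k220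
  k236 3 (.d k152 k16 k48 9 13)))), (.s k136 k68 9 (.s k153 k187 4 (.s k17 k221 9 (.d k51 k34 k102 4
  14))))] (.c k68 (.l (.s k220 k236 3 (.s k16 k152 9 (.s k154 k223 10 (.s k138 k186 3 (.s k207 k69
  10 (.d k48 k32 k101 3 14))))))) (.c k136 (.l (.s k220 k236 3 (.s k152 k16 9 (.s k100 k48 13 (.s
  k68 k116 3 (.s k102 k119 4 (.s k34 k238 9 (.d k51 k17 k153 4 14)))))))) .n))) (.c k136 (.l (.s
  k220 k236 3 (.s k152 k16 9 (.s k100 k48 13 (.s k68 k116 3 (.s k102 k119 4 (.s k34 k238 9 (.d k51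
  k17 k153 4 14)))))))) (.c k171 (.l (.s k87 k86 0 (.s k68 k136 9 (.s k100 k116 3 (.s k152 k48 13
  (.d k220 k236 k16 3 9)))))) .n)))))) (.c k84 (.q k149 [(.s k21 k213 7 (.s k63 k42 6 (.s k128 k191
  6 (.d k192 k64 k106 7 14)))), (.s k128 k191 6 (.s k192 k64 7 (.s k212 k232 5 (.s k86 k23 8 (.s k2
  k254 13 (.d k3 k1 k169 0 14)))))), (.s k21 k213 7 (.s k63 k42 6 (.s k189 k126 8 (.s k169 k129 5
  (.s k1 k253 13 (.d k3 k2 k86 0 14))))))] (.c k63 (.f k191 k128 6 (.q k154 [(.s k16 k223 10 (.s k48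
  k32 3 (.s k138 k186 3 (.d k207 k69 k101 10 14)))), (.s k159 k144 2 (.s k143 k175 3 (.s k176 k165 6
  (.d k186 k181 k138 2 3)))), (.s k16 k223 10 (.s k21 k213 7 (.s k31 k26 2 (.s k208 k90 10 (.d k144
  k159 k80 2 7)))))] (.c k159 (.q k207 [(.d k138 k186 k69 3 10), (.s k16 k223 10 (.d k48 k32 k101 3
  14))] .n) (.c k207 (.l (.s k159 k144 2 (.s k143 k175 3 (.s k176 k165 6 (.d k186 k181 k138 2 3)))))
  (.c k239 (.l (.s k138 k186 3 (.s k16 k223 10 (.s k207 k69 10 (.d k48 k32 k101 3 14))))) .n)))))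
  (.c k192 (.q k129 [(.s k189 k169 5 (.s k63 k126 8 (.d k21 k213 k42 7 6))), (.s k128 k191 6 (.s
  k130 k131 0 (.s k65 k195 8 (.s k105 k125 5 (.d k193 k1 k61 7 13)))))] (.c k63 (.l (.s k169 k189 5
  (.s k1 k253 13 (.d k3 k2 k86 0 14)))) (.c k213 (.q k234 [(.s k42 k106 7 (.s k63 k21 6 (.d k189
  k169 k126 5 8))), (.s k128 k191 6 (.s k130 k131 0 (.s k65 k195 8 (.s k105 k125 5 (.d k193 k1 k61 7
  13)))))] (.c k63 (.l (.s k169 k189 5 (.s k1 k253 13 (.d k3 k2 k86 0 14)))) .n)) (.c k234 (.l (.s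
  k213 k21 7 (.s k169 k189 5 (.s k1 k253 13 (.d k3 k2 k86 0 14))))) .n)))) .n))) (.c k86 (.q k4 [(.s
  k166 k247 12 (.s k162 k174 1 (.s k243 k81 12 (.d k12 k8 k89 1 14)))), (.s k12 k8 1 (.s k84 k168 13
  (.s k92 k172 11 (.s k88 k80 1 (.d k164 k244 k240 11 13)))))] (.c k8 (.l (.s k166 k247 12 (.s k162
  k174 1 (.s k168 k84 13 (.s k169 k171 0 (.s k172 k163 2 (.s k12 k92 11 (.d k243 k89 k81 14
  12)))))))) (.c k12 (.l (.s k84 k168 13 (.s k244 k164 11 (.s k240 k248 1 (.s k160 k80 11 (.s k165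
  k175 2 (.s k245 k5 11 (.d k247 k246 k166 0 12)))))))) .n))) (.c k87 (.l (.s k168 k84 13 (.s k169
  k171 0 (.s k3 k86 14 (.d k1 k2 k253 0 13))))) (.c k168 (.q k89 [(.s k8 k251 12 (.s k12 k4 1 (.s
  k81 k93 1 (.d k243 k162 k166 12 14)))), (.s k81 k93 1 (.s k243 k162 12 (.s k249 k246 2 (.s k169 k9
  11 (.s k1 k253 13 (.d k3 k2 k86 0 14)))))), (.s k8 k251 12 (.s k12 k4 1 (.s k92 k172 11 (.s k86
  k83 2 (.s k2 k254 13 (.d k3 k1 k169 0 14))))))] (.c k8 (.l (.s k81 k93 1 (.s k243 k162 12 (.s k12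
  k166 14 (.s k92 k172 11 (.s k86 k83 2 (.s k2 k254 13 (.d k3 k169 k1 14 0)))))))) (.c k12 (.q k106
  [(.s k42 k234 7 (.s k63 k21 6 (.s k192 k149 14 (.d k64 k127 k128 6 7)))), (.s k8 k251 12 (.s k64
  k127 6 (.s k72 k123 4 (.s k68 k76 1 (.d k136 k204 k200 9 7))))), (.s k8 k251 12 (.s k42 k234 7 (.s
  k59 k25 4 (.s k72 k123 4 (.d k200 k136 k153 7 12)))))] (.c k93 (.q k174 [(.s k42 k234 7 (.s k63
  k21 6 (.s k192 k149 14 (.d k64 k127 k128 6 7)))), (.s k64 k127 6 (.s k72 k123 4 (.s k76 k68 1 (.s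
  k115 k102 6 (.s k81 k98 4 (.d k162 k166 k243 1 12)))))), (.s k8 k251 12 (.s k42 k234 7 (.s k59 k25
  4 (.s k72 k123 4 (.d k200 k136 k153 7 12)))))] .n) (.c k174 (.l (.s k93 k81 1 (.s k42 k234 7 (.s
  k63 k21 6 (.s k64 k127 6 (.d k192 k128 k149 7 14)))))) .n))) (.c k243 (.q k240 [(.s k248 k244 1
  (.s k251 k8 12 (.s k249 k250 0 (.s k169 k9 11 (.s k11 k90 12 (.s k1 k253 13 (.d k3 k2 k86 0
  14))))))), (.s k80 k160 11 (.s k90 k95 2 (.s k88 k91 0 (.s k92 k84 1 (.d k12 k172 k164 11 13)))))]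
  (.c k90 (.l (.s k80 k160 11 (.s k81 k93 1 (.s k82 k83 0 (.s k3 k161 12 (.s k1 k2 0 (.d k169 k253
  k86 13 14))))))) (.c k247 (.l (.s k251 k8 12 (.s k80 k160 11 (.s k90 k95 2 (.s k88 k91 0 (.s k92
  k84 1 (.d k12 k172 k164 11 13))))))) (.c k251 (.q k247 [(.s k4 k166 12 (.s k244 k248 1 (.s k164
  k84 11 (.d k12 k8 k88 1 13)))), (.s k160 k80 11 (.s k165 k175 2 (.s k245 k5 11 (.d k244 k246 k248
  0 1))))] (.c k244 (.l (.s k4 k166 12 (.s k12 k8 1 (.s k80 k160 11 (.s k90 k95 2 (.d k88 k164 k91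
  13 0)))))) (.c k248 (.l (.s k4 k166 12 (.s k12 k8 1 (.s k88 k164 13 (.s k90 k91 0 (.d k80 k160 k95
  11 2)))))) .n))) .n)))) .n)))) (.c k169 (.q k4 [(.s k166 k247 12 (.s k162 k174 1 (.s k243 k81 12
  (.d k12 k8 k89 1 14)))), (.s k12 k8 1 (.s k84 k168 13 (.s k164 k244 11 (.s k88 k240 13 (.d k92 k80
  k172 1 11))))), (.s k84 k168 13 (.s k86 k87 0 (.s k166 k247 12 (.s k6 k246 11 (.s k7 k5 0 (.d k244
  k164 k165 11 12))))))] .n) (.c k171 (.l (.s k84 k168 13 (.s k86 k87 0 (.s k3 k169 14 (.d k2 k1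
  k254 0 13))))) (.c k254 (.l (.s k168 k84 13 (.s k169 k171 0 (.s k1 k253 13 (.d k3 k2 k86 0 14)))))
  .n))))))))))))

def t10_114 : T TT 256 :=
  (.f k170 k255 14 (.q k252 [(.s k84 k168 13 (.s k86 k87 0 (.s k2 k254 13 (.d k3 k1 k169 0 14))))]
  (.c k1 (.q k4 [(.s k12 k8 1 (.s k166 k247 12 (.s k162 k174 1 (.d k243 k81 k89 12 14)))), (.s k12
  k8 1 (.s k84 k168 13 (.s k92 k172 11 (.s k88 k80 1 (.d k164 k244 k240 11 13))))), (.s k84 k168 13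
  (.s k86 k87 0 (.s k166 k247 12 (.s k6 k246 11 (.s k7 k5 0 (.d k244 k164 k165 11 12))))))] (.c k9
  (.l (.s k166 k247 12 (.s k162 k174 1 (.s k243 k81 12 (.d k12 k8 k89 1 14))))) .n)) (.c k2 (.f k84
  k168 13 (.f k86 k87 0 (.f k3 k169 14 (.q k6 [(.s k12 k9 2 (.s k166 k246 11 (.d k4 k8 k247 1 12))),
  (.s k166 k246 11 (.s k4 k247 12 (.s k7 k5 0 (.d k244 k164 k165 11 12)))), (.s k12 k9 2 (.s k92
  k172 11 (.s k89 k83 2 (.d k166 k246 k243 11 14)))), (.s k12 k9 2 (.s k8 k4 1 (.s k89 k251 12 (.d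
  k92 k83 k172 2 11))))] .n)))) (.c k3 (.f k168 k84 13 (.q k192 [(.s k64 k128 7 (.s k106 k127 6 (.s
  k42 k234 7 (.d k63 k21 k149 6 14)))), (.s k232 k212 5 (.s k40 k104 7 (.s k105 k235 8 (.s k65 k125
  5 (.s k195 k130 8 (.d k60 k20 k150 5 14))))))] (.c k64 (.l (.s k232 k212 5 (.s k104 k40 7 (.s k148
  k60 13 (.s k128 k188 5 (.s k149 k191 6 (.s k21 k213 7 (.d k63 k42 k106 6 14)))))))) (.c k87 (.l
  (.s k171 k169 0 (.s k64 k128 7 (.s k106 k127 6 (.s k42 k234 7 (.d k63 k21 k149 6 14)))))) (.c k171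
  (.q k87 [(.s k64 k128 7 (.s k106 k127 6 (.s k42 k234 7 (.d k63 k21 k149 6 14)))), (.s k232 k212 5
  (.s k40 k104 7 (.s k105 k235 8 (.s k65 k125 5 (.s k195 k130 8 (.d k60 k20 k150 5 14))))))] (.c k64
  (.l (.s k232 k212 5 (.s k104 k40 7 (.s k148 k60 13 (.s k128 k188 5 (.s k149 k191 6 (.s k21 k213 7
  (.d k63 k42 k106 6 14)))))))) .n)) .n))))) (.c k84 (.q k150 [(.s k20 k215 8 (.s k60 k40 5 (.s k130
  k190 5 (.d k195 k65 k105 8 14)))), (.s k130 k190 5 (.s k195 k65 8 (.s k214 k233 6 (.s k86 k22 7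
  (.s k2 k254 13 (.d k3 k1 k169 0 14)))))), (.s k20 k215 8 (.s k60 k40 5 (.s k188 k124 7 (.s k169
  k131 6 (.s k1 k253 13 (.d k3 k2 k86 0 14))))))] (.c k60 (.q k166 [(.s k4 k247 12 (.s k162 k174 1
  (.s k243 k81 12 (.d k12 k8 k89 1 14)))), (.s k174 k162 1 (.s k182 k134 3 (.s k190 k130 5 (.s k142
  k158 3 (.d k178 k186 k154 1 5))))), (.s k4 k247 12 (.s k20 k215 8 (.s k52 k36 3 (.s k134 k182 3
  (.d k199 k69 k101 8 12)))))] (.c k125 (.l (.s k190 k130 5 (.s k4 k247 12 (.s k12 k8 1 (.s k162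
  k174 1 (.d k243 k81 k89 12 14)))))) (.c k190 (.q k125 [(.s k4 k247 12 (.s k12 k8 1 (.s k243 k89 14
  (.d k162 k174 k81 1 12)))), (.s k182 k134 3 (.s k215 k20 8 (.s k247 k4 12 (.s k52 k117 8 (.d k199
  k231 k101 3 12))))), (.s k65 k105 5 (.s k130 k195 8 (.s k134 k182 3 (.s k142 k138 1 (.s k162 k174
  1 (.d k178 k146 k154 3 5))))))] .n) .n))) (.c k195 (.q k1 [(.s k169 k253 13 (.d k3 k2 k86 0 14)),
  (.s k130 k190 5 (.s k169 k253 13 (.s k131 k188 6 (.s k128 k129 0 (.s k171 k168 0 (.d k191 k151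
  k149 5 6)))))), (.s k2 k3 0 (.s k86 k254 13 (.s k22 k214 7 (.s k42 k62 5 (.s k21 k63 6 (.d k20 k23
  k215 0 8))))))] (.c k215 (.q k235 [(.s k169 k253 13 (.d k3 k2 k86 0 14)), (.s k40 k105 8 (.s k60
  k20 5 (.s k169 k253 13 (.d k188 k131 k124 6 7)))), (.s k2 k3 0 (.s k86 k254 13 (.s k22 k214 7 (.s
  k62 k42 5 (.s k130 k190 5 (.d k194 k66 k106 7 13))))))] .n) (.c k235 (.l (.s k215 k20 8 (.s k3 k2
  0 (.d k169 k253 k86 13 14)))) .n))) .n))) (.c k86 (.q k4 [(.s k166 k247 12 (.s k162 k174 1 (.s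
  k243 k81 12 (.d k12 k8 k89 1 14)))), (.s k12 k8 1 (.s k84 k168 13 (.s k92 k172 11 (.s k88 k80 1
  (.d k164 k244 k240 11 13)))))] (.c k8 (.l (.s k166 k247 12 (.s k162 k174 1 (.s k168 k84 13 (.s
  k169 k171 0 (.s k172 k163 2 (.s k12 k92 11 (.d k243 k89 k81 14 12)))))))) (.c k12 (.l (.s k84 k168
  13 (.s k244 k164 11 (.s k240 k248 1 (.s k160 k80 11 (.s k165 k175 2 (.s k245 k5 11 (.d k247 k246
  k166 0 12)))))))) .n))) (.c k87 (.l (.s k168 k84 13 (.s k169 k171 0 (.s k3 k86 14 (.d k1 k2 k253 0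
  13))))) (.c k168 (.q k166 [(.s k4 k247 12 (.s k162 k174 1 (.s k243 k81 12 (.d k12 k8 k89 1 14)))),
  (.s k162 k174 1 (.s k243 k81 12 (.s k246 k249 2 (.s k86 k6 11 (.s k2 k254 13 (.d k3 k1 k169 0
  14)))))), (.s k4 k247 12 (.s k12 k8 1 (.s k172 k92 11 (.s k169 k163 2 (.s k1 k253 13 (.d k3 k2 k86
  0 14))))))] (.c k12 (.q k153 [(.s k17 k221 9 (.s k51 k34 4 (.s k136 k187 4 (.d k204 k68 k102 9
  14)))), (.s k140 k179 6 (.s k174 k162 1 (.s k191 k157 4 (.s k128 k149 6 (.d k136 k132 k187 1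
  4))))), (.s k17 k221 9 (.s k51 k34 4 (.s k179 k140 6 (.s k243 k115 7 (.d k162 k174 k81 1 12)))))]
  (.c k93 (.l (.s k174 k162 1 (.s k17 k221 9 (.s k51 k34 4 (.s k136 k187 4 (.d k204 k68 k102 9
  14)))))) (.c k174 (.q k93 [(.s k17 k221 9 (.s k51 k34 4 (.s k136 k187 4 (.d k204 k68 k102 9
  14)))), (.s k89 k81 1 (.s k217 k25 7 (.s k221 k17 9 (.s k29 k157 7 (.d k209 k213 k149 1 9))))),
  (.s k4 k247 12 (.s k136 k187 4 (.s k140 k179 6 (.s k132 k128 1 (.d k68 k196 k204 7 9)))))] (.c k51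
  (.l (.s k17 k221 9 (.s k81 k89 1 (.s k145 k209 7 (.s k162 k243 12 (.d k179 k128 k140 4 6))))))
  .n)) .n))) (.c k243 (.q k169 [(.s k1 k253 13 (.d k3 k2 k86 0 14)), (.s k162 k174 1 (.s k163 k172 2
  (.s k160 k161 0 (.s k240 k80 11 (.s k248 k244 1 (.s k90 k11 12 (.d k165 k175 k15 2 14)))))))] (.c
  k247 (.q k251 [(.s k1 k253 13 (.d k3 k2 k86 0 14)), (.s k8 k89 12 (.s k12 k4 1 (.d k172 k163 k92 2
  11)))] .n) (.c k251 (.l (.s k247 k4 12 (.s k1 k253 13 (.d k3 k2 k86 0 14)))) .n))) .n))) (.c k169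
  (.q k4 [(.s k166 k247 12 (.s k162 k174 1 (.s k243 k81 12 (.d k12 k8 k89 1 14)))), (.s k12 k8 1 (.s
  k84 k168 13 (.s k164 k244 11 (.s k88 k240 13 (.d k92 k80 k172 1 11))))), (.s k84 k168 13 (.s k86
  k87 0 (.s k166 k247 12 (.s k6 k246 11 (.s k7 k5 0 (.d k244 k164 k165 11 12))))))] .n) (.c k171 (.l
  (.s k84 k168 13 (.s k86 k87 0 (.s k3 k169 14 (.d k2 k1 k254 0 13))))) (.c k254 (.l (.s k168 k84 13
  (.s k169 k171 0 (.s k1 k253 13 (.d k3 k2 k86 0 14))))) .n))))))))))))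

def t10_115 : T TT 256 :=
  (.f k170 k255 14 (.q k252 [(.s k84 k168 13 (.s k86 k87 0 (.s k2 k254 13 (.d k3 k1 k169 0 14))))]
  (.c k1 (.q k4 [(.s k12 k8 1 (.s k166 k247 12 (.s k162 k174 1 (.d k243 k81 k89 12 14)))), (.s k12
  k8 1 (.s k84 k168 13 (.s k92 k172 11 (.s k88 k80 1 (.d k164 k244 k240 11 13))))), (.s k84 k168 13
  (.s k86 k87 0 (.s k166 k247 12 (.s k6 k246 11 (.s k7 k5 0 (.d k244 k164 k165 11 12))))))] (.c k9
  (.l (.s k166 k247 12 (.s k162 k174 1 (.s k243 k81 12 (.d k12 k8 k89 1 14))))) .n)) (.c k2 (.f k84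
  k168 13 (.f k86 k87 0 (.f k3 k169 14 (.q k6 [(.s k12 k9 2 (.s k166 k246 11 (.d k4 k8 k247 1 12))),
  (.s k166 k246 11 (.s k4 k247 12 (.s k7 k5 0 (.d k244 k164 k165 11 12)))), (.s k12 k9 2 (.s k92
  k172 11 (.s k89 k83 2 (.d k166 k246 k243 11 14)))), (.s k12 k9 2 (.s k8 k4 1 (.s k89 k251 12 (.d
  k92 k83 k172 2 11))))] .n)))) (.c k3 (.f k168 k84 13 (.q k188 [(.s k60 k124 7 (.s k40 k20 5 (.s
  k104 k232 7 (.d k148 k128 k192 5 13)))), (.s k128 k148 5 (.s k149 k191 6 (.s k21 k213 7 (.s k63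
  k42 6 (.d k192 k64 k106 7 14))))), (.s k60 k124 7 (.s k20 k40 5 (.s k150 k215 8 (.d k169 k171 k131
  0 6))))] (.c k20 (.l (.s k60 k124 7 (.s k148 k128 5 (.s k104 k192 13 (.s k40 k232 7 (.s k105 k235
  8 (.s k65 k125 5 (.d k195 k130 k150 8 14)))))))) (.c k64 (.l (.s k148 k128 5 (.s k60 k124 7 (.s
  k104 k192 13 (.d k40 k20 k232 5 7))))) (.c k87 (.l (.s k171 k169 0 (.s k60 k124 7 (.s k40 k20 5
  (.s k104 k232 7 (.d k148 k128 k192 5 13)))))) (.c k171 (.q k87 [(.s k60 k124 7 (.s k40 k20 5 (.s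
  k104 k232 7 (.d k148 k128 k192 5 13)))), (.s k128 k148 5 (.s k149 k191 6 (.s k21 k213 7 (.s k63
  k42 6 (.d k192 k64 k106 7 14))))), (.s k60 k124 7 (.s k20 k40 5 (.s k150 k215 8 (.s k130 k190 5
  (.d k195 k65 k105 8 14)))))] (.c k20 (.l (.s k60 k124 7 (.s k148 k128 5 (.s k104 k192 13 (.s k40
  k232 7 (.s k105 k235 8 (.s k65 k125 5 (.d k195 k130 k150 8 14)))))))) (.c k64 (.l (.s k148 k128 5
  (.s k60 k124 7 (.s k104 k192 13 (.d k40 k20 k232 5 7))))) .n))) .n)))))) (.c k84 (.q k149 [(.s k21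
  k213 7 (.s k63 k42 6 (.s k128 k191 6 (.d k192 k64 k106 7 14)))), (.s k128 k191 6 (.s k192 k64 7
  (.s k212 k232 5 (.s k86 k23 8 (.s k2 k254 13 (.d k3 k1 k169 0 14)))))), (.s k21 k213 7 (.s k63 k42
  6 (.s k189 k126 8 (.s k169 k129 5 (.s k1 k253 13 (.d k3 k2 k86 0 14))))))] (.c k63 (.q k188 [(.s
  k191 k128 6 (.s k190 k189 0 (.s k150 k130 5 (.s k131 k169 6 (.d k151 k148 k171 0 5))))), (.s k60
  k124 7 (.s k20 k40 5 (.s k150 k215 8 (.s k130 k190 5 (.d k195 k65 k105 8 14))))), (.s k60 k124 7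
  (.s k20 k40 5 (.s k150 k215 8 (.s k148 k151 0 (.d k128 k191 k168 6 5)))))] (.c k127 (.l (.s k191
  k128 6 (.s k60 k124 7 (.s k20 k40 5 (.s k150 k215 8 (.d k190 k189 k130 0 5)))))) (.c k150 (.l (.s
  k191 k128 6 (.s k189 k190 0 (.s k169 k129 5 (.s k1 k253 13 (.d k3 k2 k86 0 14)))))) (.c k191 (.q
  k127 [(.s k60 k124 7 (.s k20 k40 5 (.s k150 k215 8 (.s k130 k190 5 (.d k195 k65 k105 8 14))))),
  (.s k64 k106 6 (.s k128 k192 7 (.s k168 k148 5 (.s k169 k171 0 (.s k1 k253 13 (.d k3 k2 k86 0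
  14)))))), (.s k64 k106 6 (.s k128 k192 7 (.s k148 k168 5 (.s k150 k151 0 (.s k131 k169 6 (.d k130
  k129 k190 0 5))))))] (.c k64 (.l (.s k21 k213 7 (.s k124 k60 7 (.s k125 k126 0 (.s k105 k65 5 (.s
  k61 k193 13 (.s k1 k41 5 (.d k253 k189 k169 7 13)))))))) .n)) .n)))) (.c k192 (.f k128 k191 6 (.q
  k63 [(.d k21 k213 k42 7 6), (.s k189 k126 8 (.s k169 k129 5 (.s k1 k253 13 (.d k3 k2 k86 0 14))))]
  (.c k213 (.q k234 [(.d k42 k21 k106 6 7), (.s k189 k126 8 (.s k169 k129 5 (.s k1 k253 13 (.d k3 k2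
  k86 0 14))))] .n) (.c k234 (.l (.s k213 k21 7 (.s k189 k126 8 (.s k169 k129 5 (.s k1 k253 13 (.d
  k3 k2 k86 0 14)))))) .n)))) .n))) (.c k86 (.q k4 [(.s k12 k8 1 (.s k166 k247 12 (.s k162 k174 1
  (.d k243 k81 k89 12 14)))), (.s k84 k168 13 (.s k244 k164 11 (.s k240 k248 1 (.s k160 k80 11 (.s
  k165 k175 2 (.s k245 k5 11 (.d k247 k246 k166 0 12))))))), (.s k12 k8 1 (.s k84 k168 13 (.s k92
  k172 11 (.s k88 k80 1 (.d k164 k244 k240 11 13)))))] (.c k8 (.l (.s k166 k247 12 (.s k162 k174 1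
  (.s k168 k84 13 (.s k169 k171 0 (.s k172 k163 2 (.s k12 k92 11 (.d k243 k89 k81 14 12)))))))) .n))
  (.c k87 (.l (.s k168 k84 13 (.s k169 k171 0 (.s k3 k86 14 (.d k1 k2 k253 0 13))))) (.c k168 (.q
  k153 [(.s k17 k221 9 (.s k51 k34 4 (.s k136 k187 4 (.d k204 k68 k102 9 14)))), (.s k136 k187 4 (.s
  k204 k68 9 (.s k220 k236 3 (.s k86 k19 10 (.s k2 k254 13 (.d k3 k1 k169 0 14)))))), (.s k17 k221 9
  (.s k51 k34 4 (.s k185 k118 10 (.s k169 k137 3 (.s k1 k253 13 (.d k3 k2 k86 0 14))))))] (.c k51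
  (.f k187 k136 4 (.q k179 [(.s k140 k166 6 (.s k191 k183 1 (.s k149 k128 6 (.d k157 k145 k174 1
  4)))), (.s k166 k140 6 (.s k4 k247 12 (.s k12 k8 1 (.s k243 k89 14 (.d k162 k174 k81 1 12))))),
  (.s k17 k221 9 (.s k191 k183 1 (.s k149 k128 6 (.s k21 k213 7 (.s k29 k25 1 (.s k145 k157 1 (.d
  k209 k81 k89 7 9)))))))] (.c k128 (.l (.s k183 k191 1 (.s k166 k140 6 (.s k132 k149 4 (.s k4 k247
  12 (.s k12 k8 1 (.s k243 k89 14 (.d k162 k174 k81 1 12)))))))) (.c k132 (.l (.s k140 k166 6 (.s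
  k191 k183 1 (.s k149 k128 6 (.d k157 k145 k174 1 4))))) (.c k140 (.l (.s k191 k183 1 (.s k128 k149
  6 (.s k162 k145 4 (.s k166 k174 1 (.s k4 k247 12 (.s k12 k8 1 (.d k243 k81 k89 12 14)))))))) (.c
  k152 (.q k184 [(.s k48 k116 9 (.s k16 k32 3 (.s k186 k185 0 (.d k154 k138 k223 3 10)))), (.s k140
  k166 6 (.s k191 k183 1 (.s k149 k128 6 (.d k157 k145 k174 1 4))))] .n) (.c k184 (.q k152 [(.s k140
  k166 6 (.s k191 k183 1 (.s k149 k128 6 (.d k157 k145 k174 1 4)))), (.s k17 k221 9 (.s k154 k155 0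
  (.s k16 k223 10 (.s k19 k18 0 (.d k220 k84 k86 9 10)))))] .n) .n))))))) (.c k204 (.q k169 [(.s k1
  k253 13 (.d k3 k2 k86 0 14)), (.s k185 k137 3 (.s k51 k118 10 (.d k17 k221 k34 9 4)))] (.c k3 (.l
  (.s k1 k253 13 (.s k136 k187 4 (.s k137 k185 3 (.s k69 k205 9 (.d k138 k207 k139 10 0)))))) (.c
  k221 (.q k238 [(.s k3 k86 14 (.d k1 k2 k253 0 13)), (.s k34 k102 9 (.s k51 k17 4 (.d k185 k137
  k118 3 10)))] .n) (.c k238 (.l (.s k221 k17 9 (.s k1 k253 13 (.d k3 k2 k86 0 14)))) .n)))) .n)))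
  (.c k169 (.q k4 [(.s k12 k8 1 (.s k166 k247 12 (.s k162 k174 1 (.d k243 k81 k89 12 14)))), (.s k84
  k168 13 (.s k86 k87 0 (.s k166 k247 12 (.s k6 k246 11 (.s k7 k5 0 (.d k244 k164 k165 11 12)))))),
  (.s k12 k8 1 (.s k84 k168 13 (.s k164 k244 11 (.s k88 k240 13 (.d k92 k80 k172 1 11)))))] .n) (.c
  k171 (.l (.s k84 k168 13 (.s k86 k87 0 (.s k3 k169 14 (.d k2 k1 k254 0 13))))) (.c k254 (.l (.s
  k168 k84 13 (.s k169 k171 0 (.s k1 k253 13 (.d k3 k2 k86 0 14))))) .n))))))))))))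

def t10_118 : T TT 256 :=
  (.f k170 k255 14 (.q k252 [(.s k84 k168 13 (.s k86 k87 0 (.s k3 k169 14 (.d k2 k1 k254 0 13))))]
  (.c k1 (.q k4 [(.s k12 k8 1 (.s k166 k247 12 (.s k162 k174 1 (.d k243 k81 k89 12 14)))), (.s k12
  k8 1 (.s k84 k168 13 (.s k92 k172 11 (.s k88 k80 1 (.d k164 k244 k240 11 13))))), (.s k84 k168 13
  (.s k86 k87 0 (.s k166 k247 12 (.s k6 k246 11 (.s k7 k5 0 (.d k244 k164 k165 11 12))))))] (.c k9
  (.l (.s k166 k247 12 (.s k162 k174 1 (.s k243 k81 12 (.d k12 k8 k89 1 14))))) .n)) (.c k2 (.f k84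
  k168 13 (.f k86 k87 0 (.f k3 k169 14 (.q k6 [(.s k12 k9 2 (.s k166 k246 11 (.d k4 k8 k247 1 12))),
  (.s k166 k246 11 (.s k4 k247 12 (.s k7 k5 0 (.d k244 k164 k165 11 12)))), (.s k12 k9 2 (.s k92
  k172 11 (.s k89 k83 2 (.d k166 k246 k243 11 14)))), (.s k12 k9 2 (.s k8 k4 1 (.s k89 k251 12 (.d
  k92 k83 k172 2 11))))] .n)))) (.c k3 (.f k168 k84 13 (.q k188 [(.s k60 k124 7 (.s k40 k20 5 (.s
  k104 k232 7 (.d k148 k128 k192 5 13)))), (.s k128 k148 5 (.s k149 k191 6 (.s k21 k213 7 (.s k63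
  k42 6 (.d k192 k64 k106 7 14))))), (.s k60 k124 7 (.s k20 k40 5 (.s k150 k215 8 (.d k169 k171 k131
  0 6))))] (.c k20 (.l (.s k60 k124 7 (.s k148 k128 5 (.s k104 k192 13 (.s k40 k232 7 (.s k105 k235
  8 (.s k65 k125 5 (.d k195 k130 k150 8 14)))))))) (.c k64 (.l (.s k148 k128 5 (.s k60 k124 7 (.s
  k104 k192 13 (.d k40 k20 k232 5 7))))) (.c k87 (.l (.s k171 k169 0 (.s k60 k124 7 (.s k40 k20 5
  (.s k104 k232 7 (.d k148 k128 k192 5 13)))))) (.c k171 (.q k87 [(.s k60 k124 7 (.s k40 k20 5 (.s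
  k104 k232 7 (.d k148 k128 k192 5 13)))), (.s k128 k148 5 (.s k149 k191 6 (.s k21 k213 7 (.s k63
  k42 6 (.d k192 k64 k106 7 14))))), (.s k60 k124 7 (.s k20 k40 5 (.s k150 k215 8 (.s k130 k190 5
  (.d k195 k65 k105 8 14)))))] (.c k20 (.l (.s k60 k124 7 (.s k148 k128 5 (.s k104 k192 13 (.s k40
  k232 7 (.s k105 k235 8 (.s k65 k125 5 (.d k195 k130 k150 8 14)))))))) (.c k64 (.l (.s k148 k128 5
  (.s k60 k124 7 (.s k104 k192 13 (.d k40 k20 k232 5 7))))) .n))) .n)))))) (.c k84 (.q k149 [(.s k21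
  k213 7 (.s k63 k42 6 (.s k128 k191 6 (.d k192 k64 k106 7 14)))), (.s k128 k191 6 (.s k192 k64 7
  (.s k212 k232 5 (.s k86 k23 8 (.s k2 k254 13 (.d k3 k1 k169 0 14)))))), (.s k21 k213 7 (.s k63 k42
  6 (.s k189 k126 8 (.s k169 k129 5 (.s k1 k253 13 (.d k3 k2 k86 0 14))))))] (.c k63 (.q k188 [(.s
  k191 k128 6 (.s k190 k189 0 (.s k150 k130 5 (.s k131 k169 6 (.d k151 k148 k171 0 5))))), (.s k60
  k124 7 (.s k20 k40 5 (.s k150 k215 8 (.s k130 k190 5 (.d k195 k65 k105 8 14))))), (.s k60 k124 7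
  (.s k20 k40 5 (.s k150 k215 8 (.s k148 k151 0 (.d k128 k191 k168 6 5)))))] (.c k127 (.l (.s k191
  k128 6 (.s k60 k124 7 (.s k20 k40 5 (.s k150 k215 8 (.d k190 k189 k130 0 5)))))) (.c k150 (.l (.s
  k191 k128 6 (.s k189 k190 0 (.s k169 k129 5 (.s k1 k253 13 (.d k3 k2 k86 0 14)))))) (.c k191 (.q
  k127 [(.s k60 k124 7 (.s k20 k40 5 (.s k150 k215 8 (.s k130 k190 5 (.d k195 k65 k105 8 14))))),
  (.s k64 k106 6 (.s k128 k192 7 (.s k168 k148 5 (.s k169 k171 0 (.s k1 k253 13 (.d k3 k2 k86 0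
  14)))))), (.s k64 k106 6 (.s k128 k192 7 (.s k148 k168 5 (.s k150 k151 0 (.s k131 k169 6 (.d k130
  k129 k190 0 5))))))] (.c k64 (.l (.s k21 k213 7 (.s k124 k60 7 (.s k125 k126 0 (.s k105 k65 5 (.s
  k61 k193 13 (.s k1 k41 5 (.d k253 k189 k169 7 13)))))))) .n)) .n)))) (.c k192 (.q k130 [(.s k195
  k65 8 (.s k150 k190 5 (.s k60 k105 14 (.d k20 k40 k215 5 8)))), (.s k128 k191 6 (.s k129 k131 0
  (.s k169 k189 5 (.s k1 k253 13 (.d k3 k2 k86 0 14)))))] (.c k125 (.l (.s k195 k65 8 (.s k150 k190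
  5 (.s k60 k105 14 (.d k20 k40 k215 5 8))))) (.c k190 (.l (.s k65 k195 8 (.s k128 k191 6 (.s k129
  k131 0 (.s k193 k1 7 (.d k105 k125 k61 5 13)))))) (.c k213 (.q k234 [(.s k195 k65 8 (.s k150 k190
  5 (.s k60 k105 14 (.d k20 k40 k215 5 8)))), (.s k42 k106 7 (.s k63 k21 6 (.s k128 k191 6 (.s k129
  k131 0 (.d k189 k169 k126 5 8)))))] .n) (.c k234 (.l (.s k213 k21 7 (.s k150 k190 5 (.s k20 k215 8
  (.s k60 k40 5 (.d k195 k65 k105 8 14)))))) .n))))) .n))) (.c k86 (.q k102 [(.s k34 k238 9 (.s k51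
  k17 4 (.s k68 k119 4 (.d k204 k136 k153 9 14)))), (.s k168 k84 13 (.s k169 k171 0 (.s k236 k35 10
  (.s k32 k100 9 (.s k238 k34 9 (.d k239 k237 k101 0 10)))))), (.s k168 k84 13 (.s k169 k171 0 (.s
  k236 k35 10 (.s k204 k220 3 (.d k68 k119 k136 4 9)))))] (.c k68 (.l (.s k34 k238 9 (.s k51 k17 4
  (.s k168 k84 13 (.s k169 k171 0 (.s k204 k153 14 (.d k236 k220 k35 3 10))))))) .n)) (.c k87 (.l
  (.s k168 k84 13 (.s k169 k171 0 (.s k3 k86 14 (.d k1 k2 k253 0 13))))) (.c k168 (.q k166 [(.s k4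
  k247 12 (.s k162 k174 1 (.s k243 k81 12 (.d k12 k8 k89 1 14)))), (.s k162 k174 1 (.s k243 k81 12
  (.s k246 k249 2 (.s k86 k6 11 (.s k2 k254 13 (.d k3 k1 k169 0 14)))))), (.s k4 k247 12 (.s k12 k8
  1 (.s k172 k92 11 (.s k169 k163 2 (.s k1 k253 13 (.d k3 k2 k86 0 14))))))] (.c k12 (.q k153 [(.s
  k17 k221 9 (.s k51 k34 4 (.s k136 k187 4 (.d k204 k68 k102 9 14)))), (.s k140 k179 6 (.s k174 k162
  1 (.s k191 k157 4 (.s k128 k149 6 (.d k136 k132 k187 1 4))))), (.s k17 k221 9 (.s k51 k34 4 (.s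
  k179 k140 6 (.s k243 k115 7 (.d k162 k174 k81 1 12)))))] (.c k93 (.l (.s k174 k162 1 (.s k17 k221
  9 (.s k51 k34 4 (.s k136 k187 4 (.d k204 k68 k102 9 14)))))) (.c k174 (.q k93 [(.s k17 k221 9 (.s
  k51 k34 4 (.s k136 k187 4 (.d k204 k68 k102 9 14)))), (.s k89 k81 1 (.s k217 k25 7 (.s k221 k17 9
  (.s k29 k157 7 (.d k209 k213 k149 1 9))))), (.s k4 k247 12 (.s k136 k187 4 (.s k140 k179 6 (.s
  k132 k128 1 (.d k68 k196 k204 7 9)))))] (.c k51 (.l (.s k17 k221 9 (.s k81 k89 1 (.s k145 k209 7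
  (.s k162 k243 12 (.d k179 k128 k140 4 6)))))) .n)) .n))) (.c k243 (.q k169 [(.s k1 k253 13 (.d k3
  k2 k86 0 14)), (.s k162 k174 1 (.s k163 k172 2 (.s k160 k161 0 (.s k240 k80 11 (.s k248 k244 1 (.s
  k90 k11 12 (.d k165 k175 k15 2 14)))))))] (.c k247 (.q k251 [(.s k1 k253 13 (.d k3 k2 k86 0 14)),
  (.s k8 k89 12 (.s k12 k4 1 (.d k172 k163 k92 2 11)))] .n) (.c k251 (.l (.s k247 k4 12 (.s k1 k253
  13 (.d k3 k2 k86 0 14)))) .n))) .n))) (.c k169 (.q k4 [(.s k166 k247 12 (.s k162 k174 1 (.s k243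
  k81 12 (.d k12 k8 k89 1 14)))), (.s k12 k8 1 (.s k84 k168 13 (.s k164 k244 11 (.s k88 k240 13 (.d
  k92 k80 k172 1 11))))), (.s k84 k168 13 (.s k86 k87 0 (.s k166 k247 12 (.s k6 k246 11 (.s k7 k5 0
  (.d k244 k164 k165 11 12))))))] .n) (.c k171 (.l (.s k84 k168 13 (.s k86 k87 0 (.s k3 k169 14 (.d
  k2 k1 k254 0 13))))) (.c k254 (.l (.s k168 k84 13 (.s k169 k171 0 (.s k1 k253 13 (.d k3 k2 k86 0
  14))))) .n))))))))))))

def t10_119 : T TT 256 :=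
  (.q k48 [(.s k16 k32 3 (.s k154 k223 10 (.s k101 k207 14 (.s k117 k69 3 (.d k255 k186 k170 10
  14)))))] (.c k16 (.q k3 [(.s k2 k1 0 (.s k170 k255 14 (.s k86 k254 13 (.s k252 k169 14 (.d k84 k87
  k168 0 13))))), (.s k1 k2 0 (.s k33 k18 4 (.s k169 k253 13 (.s k101 k237 9 (.s k69 k117 3 (.d k207
  k138 k154 10 14)))))), (.s k18 k33 4 (.s k255 k170 14 (.s k87 k171 13 (.s k86 k84 0 (.s k117 k186
  10 (.s k101 k69 3 (.d k154 k222 k207 9 14)))))))] (.c k169 (.l (.s k2 k1 0 (.s k18 k33 4 (.s k170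
  k255 14 (.s k86 k254 13 (.s k154 k222 9 (.s k138 k186 3 (.d k207 k101 k69 14 10)))))))) .n)) (.c
  k32 (.q k3 [(.s k1 k2 0 (.s k169 k253 13 (.s k86 k252 14 (.s k87 k84 0 (.d k255 k171 k170 13
  14))))), (.s k1 k2 0 (.s k33 k18 4 (.s k169 k253 13 (.s k101 k237 9 (.s k69 k117 3 (.d k207 k138
  k154 10 14)))))), (.s k18 k33 4 (.s k255 k170 14 (.s k87 k171 13 (.s k86 k84 0 (.s k117 k186 10
  (.s k101 k69 3 (.d k154 k222 k207 9 14)))))))] (.c k169 (.l (.s k2 k1 0 (.s k18 k33 4 (.s k170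
  k255 14 (.s k86 k254 13 (.s k154 k222 9 (.s k138 k186 3 (.d k207 k101 k69 14 10)))))))) .n)) (.c
  k69 (.q k1 [(.s k3 k2 0 (.s k169 k253 13 (.s k86 k252 14 (.s k87 k84 0 (.d k255 k171 k170 13
  14))))), (.s k3 k2 0 (.s k32 k16 3 (.s k33 k18 4 (.s k17 k49 3 (.d k34 k35 k51 0 4))))), (.s k253
  k169 13 (.s k255 k170 14 (.s k117 k186 10 (.s k49 k185 9 (.s k17 k33 3 (.d k51 k50 k34 0 4))))))]
  .n) (.c k101 (.q k1 [(.s k3 k2 0 (.s k169 k253 13 (.s k86 k252 14 (.s k87 k84 0 (.d k255 k171 k170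
  13 14))))), (.s k3 k2 0 (.s k32 k16 3 (.s k33 k18 4 (.s k17 k49 3 (.d k34 k35 k51 0 4))))), (.s
  k253 k169 13 (.s k255 k170 14 (.s k117 k186 10 (.s k49 k185 9 (.s k51 k50 0 (.d k17 k33 k34 3
  4))))))] .n) (.c k117 (.l (.s k16 k32 3 (.s k154 k223 10 (.s k170 k255 14 (.s k138 k186 3 (.d k207
  k69 k101 10 14)))))) (.c k154 (.q k1 [(.s k3 k2 0 (.s k169 k253 13 (.s k86 k252 14 (.s k87 k84 0
  (.d k255 k171 k170 13 14))))), (.s k3 k2 0 (.s k32 k16 3 (.s k33 k18 4 (.s k17 k49 3 (.d k34 k35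
  k51 0 4))))), (.s k32 k16 3 (.s k169 k253 13 (.s k170 k255 14 (.s k101 k239 10 (.s k33 k237 9 (.s
  k17 k49 3 (.d k34 k51 k35 4 0)))))))] .n) (.c k170 (.q k90 [(.s k32 k16 3 (.s k80 k95 2 (.s k160
  k240 11 (.s k96 k224 7 (.s k64 k112 3 (.d k192 k128 k144 7 11)))))), (.s k16 k32 3 (.s k154 k223
  10 (.s k26 k218 7 (.s k15 k37 6 (.s k101 k207 14 (.s k112 k79 6 (.d k240 k176 k165 7 14))))))),
  (.s k80 k95 2 (.s k240 k160 11 (.s k112 k176 7 (.s k101 k79 6 (.s k69 k117 3 (.d k207 k138 k154 10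
  14)))))), (.s k16 k32 3 (.s k80 k95 2 (.s k154 k223 10 (.s k26 k218 7 (.s k31 k21 2 (.d k208 k144
  k149 7 10))))))] .n) (.c k186 (.l (.s k32 k16 3 (.s k170 k255 14 (.s k101 k239 10 (.s k69 k117 3
  (.d k207 k138 k154 10 14)))))) (.c k207 (.q k1 [(.s k3 k2 0 (.s k32 k16 3 (.s k33 k18 4 (.s k17
  k49 3 (.d k34 k35 k51 0 4))))), (.s k169 k253 13 (.s k170 k255 14 (.s k168 k171 0 (.s k252 k84 13
  (.d k3 k2 k86 0 14))))), (.s k253 k169 13 (.s k255 k170 14 (.s k117 k186 10 (.s k49 k185 9 (.s k17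
  k33 3 (.d k51 k50 k34 0 4))))))] (.c k51 (.l (.s k3 k2 0 (.s k169 k253 13 (.s k86 k252 14 (.s k87
  k84 0 (.d k255 k171 k170 13 14)))))) .n)) (.c k223 (.l (.s k32 k16 3 (.s k170 k255 14 (.s k101
  k239 10 (.s k207 k154 14 (.d k69 k117 k138 3 10)))))) (.c k239 (.l (.s k16 k32 3 (.s k154 k223 10
  (.s k101 k207 14 (.s k255 k170 14 (.d k117 k69 k186 3 10)))))) (.c k255 (.q k51 [(.s k16 k32 3 (.s
  k17 k34 4 (.s k18 k19 0 (.s k49 k50 0 (.d k33 k1 k3 3 4))))), (.s k16 k32 3 (.s k50 k49 0 (.s k154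
  k223 10 (.s k102 k206 13 (.s k153 k204 14 (.s k155 k152 0 (.d k207 k103 k101 13 14))))))), (.s k17
  k34 4 (.s k49 k50 0 (.s k153 k221 9 (.s k101 k205 13 (.s k69 k117 3 (.d k207 k138 k154 10
  14)))))), (.s k16 k32 3 (.s k17 k34 4 (.s k153 k221 9 (.s k154 k223 10 (.s k152 k155 0 (.d k204
  k100 k102 13 14))))))] .n) .n)))))))))))))

def t10_122 : T TT 256 :=
  (.f k170 k255 14 (.q k252 [(.s k84 k168 13 (.s k86 k87 0 (.s k2 k254 13 (.d k3 k1 k169 0 14))))]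
  (.c k1 (.q k4 [(.s k12 k8 1 (.s k166 k247 12 (.s k162 k174 1 (.d k243 k81 k89 12 14)))), (.s k12
  k8 1 (.s k84 k168 13 (.s k92 k172 11 (.s k88 k80 1 (.d k164 k244 k240 11 13))))), (.s k84 k168 13
  (.s k86 k87 0 (.s k166 k247 12 (.s k6 k246 11 (.s k7 k5 0 (.d k244 k164 k165 11 12))))))] (.c k9
  (.l (.s k166 k247 12 (.s k162 k174 1 (.s k243 k81 12 (.d k12 k8 k89 1 14))))) .n)) (.c k2 (.f k84
  k168 13 (.f k86 k87 0 (.f k3 k169 14 (.q k6 [(.s k12 k9 2 (.s k166 k246 11 (.d k4 k8 k247 1 12))),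
  (.s k166 k246 11 (.s k4 k247 12 (.s k7 k5 0 (.d k244 k164 k165 11 12)))), (.s k12 k9 2 (.s k92
  k172 11 (.s k89 k83 2 (.d k166 k246 k243 11 14)))), (.s k12 k9 2 (.s k8 k4 1 (.s k89 k251 12 (.d
  k92 k83 k172 2 11))))] .n)))) (.c k3 (.f k168 k84 13 (.q k192 [(.s k64 k128 7 (.s k106 k127 6 (.s
  k42 k234 7 (.d k63 k21 k149 6 14)))), (.s k232 k212 5 (.s k40 k104 7 (.s k105 k235 8 (.s k65 k125
  5 (.s k195 k130 8 (.d k60 k20 k150 5 14))))))] (.c k64 (.l (.s k232 k212 5 (.s k104 k40 7 (.s k148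
  k60 13 (.s k128 k188 5 (.s k149 k191 6 (.s k21 k213 7 (.d k63 k42 k106 6 14)))))))) (.c k87 (.l
  (.s k171 k169 0 (.s k64 k128 7 (.s k106 k127 6 (.s k42 k234 7 (.d k63 k21 k149 6 14)))))) (.c k171
  (.q k87 [(.s k64 k128 7 (.s k106 k127 6 (.s k42 k234 7 (.d k63 k21 k149 6 14)))), (.s k232 k212 5
  (.s k40 k104 7 (.s k105 k235 8 (.s k65 k125 5 (.s k195 k130 8 (.d k60 k20 k150 5 14))))))] (.c k64
  (.l (.s k232 k212 5 (.s k104 k40 7 (.s k148 k60 13 (.s k128 k188 5 (.s k149 k191 6 (.s k21 k213 7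
  (.d k63 k42 k106 6 14)))))))) .n)) .n))))) (.c k84 (.q k149 [(.s k21 k213 7 (.s k63 k42 6 (.s k128
  k191 6 (.d k192 k64 k106 7 14)))), (.s k128 k191 6 (.s k192 k64 7 (.s k212 k232 5 (.s k86 k23 8
  (.s k2 k254 13 (.d k3 k1 k169 0 14)))))), (.s k21 k213 7 (.s k63 k42 6 (.s k189 k126 8 (.s k169
  k129 5 (.s k1 k253 13 (.d k3 k2 k86 0 14))))))] (.c k63 (.f k191 k128 6 (.q k165 [(.s k175 k160 2
  (.s k143 k159 3 (.s k176 k154 6 (.d k181 k186 k133 2 3)))), (.s k5 k245 11 (.s k21 k213 7 (.s k53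
  k37 3 (.s k197 k101 11 (.d k133 k181 k69 3 7)))))] (.c k133 (.l (.s k160 k175 2 (.s k240 k80 11
  (.s k244 k248 1 (.s k86 k7 12 (.s k2 k254 13 (.d k3 k1 k169 0 14))))))) (.c k181 (.q k240 [(.d
  k160 k175 k80 2 11), (.s k244 k248 1 (.s k86 k7 12 (.s k2 k254 13 (.d k3 k1 k169 0 14))))] .n) (.c
  k240 (.l (.s k181 k133 3 (.s k175 k160 2 (.s k143 k159 3 (.d k176 k186 k154 2 6))))) .n))))) (.c
  k192 (.q k129 [(.s k169 k189 5 (.s k3 k86 14 (.d k1 k2 k253 0 13))), (.s k189 k169 5 (.s k63 k126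
  8 (.d k21 k213 k42 7 6))), (.s k128 k191 6 (.s k130 k131 0 (.s k65 k195 8 (.s k105 k125 5 (.d k193
  k1 k61 7 13)))))] (.c k213 (.q k234 [(.s k42 k106 7 (.s k63 k21 6 (.d k189 k169 k126 5 8))), (.s
  k128 k191 6 (.s k130 k131 0 (.s k65 k195 8 (.s k105 k125 5 (.d k193 k1 k61 7 13)))))] (.c k63 (.l
  (.s k169 k189 5 (.s k1 k253 13 (.d k3 k2 k86 0 14)))) .n)) (.c k234 (.l (.s k213 k21 7 (.s k169
  k189 5 (.s k1 k253 13 (.d k3 k2 k86 0 14))))) .n))) .n))) (.c k86 (.q k4 [(.s k166 k247 12 (.s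
  k162 k174 1 (.s k243 k81 12 (.d k12 k8 k89 1 14)))), (.s k12 k8 1 (.s k84 k168 13 (.s k92 k172 11
  (.s k88 k80 1 (.d k164 k244 k240 11 13)))))] (.c k8 (.l (.s k166 k247 12 (.s k162 k174 1 (.s k168
  k84 13 (.s k169 k171 0 (.s k172 k163 2 (.s k12 k92 11 (.d k243 k89 k81 14 12)))))))) (.c k12 (.l
  (.s k84 k168 13 (.s k244 k164 11 (.s k240 k248 1 (.s k160 k80 11 (.s k165 k175 2 (.s k245 k5 11
  (.d k247 k246 k166 0 12)))))))) .n))) (.c k87 (.l (.s k168 k84 13 (.s k169 k171 0 (.s k3 k86 14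
  (.d k1 k2 k253 0 13))))) (.c k168 (.q k150 [(.s k20 k215 8 (.s k130 k190 5 (.s k195 k65 8 (.d k60
  k40 k105 5 14)))), (.s k130 k190 5 (.s k195 k65 8 (.s k214 k233 6 (.s k86 k22 7 (.s k2 k254 13 (.d
  k3 k1 k169 0 14)))))), (.s k20 k215 8 (.s k60 k40 5 (.s k188 k124 7 (.s k169 k131 6 (.s k1 k253 13
  (.d k3 k2 k86 0 14))))))] (.c k60 (.q k154 [(.s k16 k223 10 (.s k48 k32 3 (.s k207 k101 14 (.d
  k138 k186 k69 3 10)))), (.s k158 k146 1 (.s k186 k138 3 (.s k190 k130 5 (.s k142 k174 3 (.d k178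
  k182 k166 1 5))))), (.s k16 k223 10 (.s k20 k215 8 (.s k28 k24 1 (.s k146 k158 1 (.d k211 k81 k89
  8 10)))))] (.c k125 (.l (.s k190 k130 5 (.s k16 k223 10 (.s k48 k32 3 (.s k138 k186 3 (.d k207 k69
  k101 10 14)))))) (.c k190 (.q k125 [(.s k16 k223 10 (.s k48 k32 3 (.s k207 k101 14 (.d k138 k186
  k69 3 10)))), (.s k158 k146 1 (.s k215 k20 8 (.s k223 k16 10 (.s k28 k93 8 (.d k211 k219 k89 1
  10))))), (.s k65 k105 5 (.s k130 k195 8 (.s k138 k186 3 (.s k142 k134 1 (.s k146 k158 1 (.d k178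
  k162 k166 3 5))))))] .n) .n))) (.c k195 (.q k154 [(.s k16 k223 10 (.s k48 k32 3 (.s k207 k101 14
  (.d k138 k186 k69 3 10)))), (.s k130 k190 5 (.s k138 k186 3 (.s k142 k134 1 (.s k146 k158 1 (.d
  k178 k162 k166 3 5))))), (.s k16 k223 10 (.s k130 k190 5 (.s k146 k158 1 (.s k81 k211 8 (.d k162
  k243 k178 12 3)))))] (.c k215 (.q k235 [(.s k138 k186 3 (.s k207 k69 10 (.s k48 k101 14 (.d k16
  k32 k223 3 10)))), (.s k16 k223 10 (.s k130 k190 5 (.s k146 k158 1 (.s k162 k178 3 (.d k81 k211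
  k243 8 12))))), (.s k105 k40 8 (.s k138 k186 3 (.s k203 k56 12 (.s k8 k73 8 (.d k251 k219 k89 3
  12)))))] (.c k186 (.l (.s k16 k223 10 (.s k40 k105 8 (.s k20 k60 5 (.s k24 k28 1 (.s k8 k56 3 (.d
  k89 k219 k251 8 12))))))) .n)) (.c k235 (.l (.s k215 k20 8 (.s k16 k223 10 (.s k48 k32 3 (.s k138
  k186 3 (.d k207 k69 k101 10 14)))))) .n))) .n))) (.c k169 (.q k4 [(.s k166 k247 12 (.s k162 k174 1
  (.s k243 k81 12 (.d k12 k8 k89 1 14)))), (.s k12 k8 1 (.s k84 k168 13 (.s k164 k244 11 (.s k88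
  k240 13 (.d k92 k80 k172 1 11))))), (.s k84 k168 13 (.s k86 k87 0 (.s k166 k247 12 (.s k6 k246 11
  (.s k7 k5 0 (.d k244 k164 k165 11 12))))))] .n) (.c k171 (.l (.s k84 k168 13 (.s k86 k87 0 (.s k3
  k169 14 (.d k2 k1 k254 0 13))))) (.c k254 (.l (.s k168 k84 13 (.s k169 k171 0 (.s k1 k253 13 (.d
  k3 k2 k86 0 14))))) .n))))))))))))

def t10_123 : T TT 256 :=
  (.f k170 k255 14 (.q k252 [(.s k84 k168 13 (.s k86 k87 0 (.s k2 k254 13 (.d k3 k1 k169 0 14))))]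
  (.c k1 (.q k4 [(.s k12 k8 1 (.s k166 k247 12 (.s k162 k174 1 (.d k243 k81 k89 12 14)))), (.s k12
  k8 1 (.s k84 k168 13 (.s k92 k172 11 (.s k88 k80 1 (.d k164 k244 k240 11 13))))), (.s k84 k168 13
  (.s k86 k87 0 (.s k166 k247 12 (.s k6 k246 11 (.s k7 k5 0 (.d k244 k164 k165 11 12))))))] (.c k9
  (.l (.s k166 k247 12 (.s k162 k174 1 (.s k243 k81 12 (.d k12 k8 k89 1 14))))) .n)) (.c k2 (.f k84
  k168 13 (.f k86 k87 0 (.f k3 k169 14 (.q k6 [(.s k12 k9 2 (.s k166 k246 11 (.d k4 k8 k247 1 12))),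
  (.s k166 k246 11 (.s k4 k247 12 (.s k7 k5 0 (.d k244 k164 k165 11 12)))), (.s k12 k9 2 (.s k92
  k172 11 (.s k89 k83 2 (.d k166 k246 k243 11 14)))), (.s k12 k9 2 (.s k8 k4 1 (.s k89 k251 12 (.d
  k92 k83 k172 2 11))))] .n)))) (.c k3 (.f k168 k84 13 (.q k192 [(.s k64 k128 7 (.s k106 k127 6 (.s
  k42 k234 7 (.d k63 k21 k149 6 14)))), (.s k232 k212 5 (.s k40 k104 7 (.s k105 k235 8 (.s k65 k125
  5 (.s k195 k130 8 (.d k60 k20 k150 5 14))))))] (.c k64 (.l (.s k232 k212 5 (.s k104 k40 7 (.s k148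
  k60 13 (.s k128 k188 5 (.s k149 k191 6 (.s k21 k213 7 (.d k63 k42 k106 6 14)))))))) (.c k87 (.l
  (.s k171 k169 0 (.s k64 k128 7 (.s k106 k127 6 (.s k42 k234 7 (.d k63 k21 k149 6 14)))))) (.c k171
  (.q k87 [(.s k64 k128 7 (.s k106 k127 6 (.s k42 k234 7 (.d k63 k21 k149 6 14)))), (.s k232 k212 5
  (.s k40 k104 7 (.s k105 k235 8 (.s k65 k125 5 (.s k195 k130 8 (.d k60 k20 k150 5 14))))))] (.c k64
  (.l (.s k232 k212 5 (.s k104 k40 7 (.s k148 k60 13 (.s k128 k188 5 (.s k149 k191 6 (.s k21 k213 7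
  (.d k63 k42 k106 6 14)))))))) .n)) .n))))) (.c k84 (.q k102 [(.s k34 k238 9 (.s k51 k17 4 (.s k204
  k153 14 (.d k68 k119 k136 4 9)))), (.s k68 k119 4 (.s k204 k136 9 (.s k236 k220 3 (.s k169 k35 10
  (.s k1 k253 13 (.d k3 k2 k86 0 14)))))), (.s k34 k238 9 (.s k51 k17 4 (.s k118 k185 10 (.s k86 k70
  3 (.s k2 k254 13 (.d k3 k1 k169 0 14))))))] (.c k51 (.f k119 k68 4 (.q k116 [(.s k117 k118 0 (.s
  k101 k69 3 (.s k71 k86 4 (.d k103 k100 k87 0 3)))), (.s k48 k184 9 (.s k16 k32 3 (.s k154 k223 10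
  (.s k138 k186 3 (.d k207 k69 k101 10 14)))))] (.c k69 (.l (.s k48 k184 9 (.s k32 k16 3 (.s k101
  k239 10 (.s k71 k86 4 (.d k103 k100 k87 0 3)))))) (.c k101 (.l (.s k118 k117 0 (.s k86 k70 3 (.s
  k2 k254 13 (.d k3 k1 k169 0 14))))) .n)))) (.c k204 (.q k128 [(.s k149 k191 6 (.s k21 k213 7 (.s
  k63 k42 6 (.d k192 k64 k106 7 14)))), (.s k68 k119 4 (.s k149 k191 6 (.s k196 k55 12 (.s k4 k132 7
  (.s k213 k21 7 (.d k247 k230 k166 4 12)))))), (.s k64 k192 7 (.s k68 k119 4 (.s k76 k72 1 (.s k89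
  k115 6 (.s k127 k106 6 (.d k93 k81 k110 1 4))))))] (.c k63 (.l (.s k64 k192 7 (.s k68 k119 4 (.s
  k76 k72 1 (.s k89 k115 6 (.s k127 k106 6 (.s k149 k191 6 (.d k93 k81 k110 1 4)))))))) (.c k127 (.l
  (.s k192 k64 7 (.s k149 k191 6 (.s k63 k106 14 (.d k21 k42 k213 6 7))))) (.c k149 (.l (.s k64 k192
  7 (.s k68 k119 4 (.s k76 k72 1 (.s k106 k127 6 (.s k115 k89 6 (.d k98 k110 k81 1 4))))))) (.c k213
  (.l (.s k149 k191 6 (.s k55 k196 12 (.s k192 k64 7 (.s k63 k106 14 (.s k51 k59 1 (.d k34 k17 k238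
  4 9))))))) (.c k221 (.l (.s k238 k34 9 (.s k149 k191 6 (.s k21 k213 7 (.s k63 k42 6 (.d k192 k64
  k106 7 14)))))) (.c k238 (.q k221 [(.s k149 k191 6 (.s k21 k213 7 (.s k63 k42 6 (.d k192 k64 k106
  7 14)))), (.s k17 k153 9 (.s k51 k34 4 (.s k118 k185 10 (.s k86 k70 3 (.s k2 k254 13 (.d k3 k169
  k1 14 0))))))] .n) .n))))))) .n))) (.c k86 (.q k4 [(.s k166 k247 12 (.s k162 k174 1 (.s k243 k81
  12 (.d k12 k8 k89 1 14)))), (.s k12 k8 1 (.s k84 k168 13 (.s k92 k172 11 (.s k88 k80 1 (.d k164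
  k244 k240 11 13)))))] (.c k8 (.l (.s k166 k247 12 (.s k162 k174 1 (.s k168 k84 13 (.s k169 k171 0
  (.s k172 k163 2 (.s k12 k92 11 (.d k243 k89 k81 14 12)))))))) (.c k12 (.l (.s k84 k168 13 (.s k244
  k164 11 (.s k240 k248 1 (.s k160 k80 11 (.s k165 k175 2 (.s k245 k5 11 (.d k247 k246 k166 0
  12)))))))) .n))) (.c k87 (.l (.s k168 k84 13 (.s k169 k171 0 (.s k3 k86 14 (.d k1 k2 k253 0
  13))))) (.c k168 (.q k153 [(.s k17 k221 9 (.s k51 k34 4 (.s k204 k102 14 (.d k136 k187 k68 4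
  9)))), (.s k136 k187 4 (.s k204 k68 9 (.s k220 k236 3 (.s k86 k19 10 (.s k2 k254 13 (.d k3 k1 k169
  0 14)))))), (.s k17 k221 9 (.s k51 k34 4 (.s k185 k118 10 (.s k169 k137 3 (.s k1 k253 13 (.d k3 k2
  k86 0 14))))))] (.c k51 (.f k187 k136 4 (.q k184 [(.s k48 k116 9 (.s k16 k32 3 (.s k186 k185 0 (.d
  k154 k138 k223 3 10)))), (.s k185 k186 0 (.s k169 k137 3 (.s k1 k253 13 (.d k3 k2 k86 0 14)))),
  (.s k48 k116 9 (.s k16 k32 3 (.s k154 k223 10 (.s k139 k169 4 (.d k155 k152 k171 0 3)))))] (.c k48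
  (.l (.s k186 k185 0 (.s k154 k138 3 (.s k139 k169 4 (.d k155 k152 k171 0 3))))) .n))) (.c k204 (.q
  k149 [(.s k21 k213 7 (.s k128 k191 6 (.s k192 k64 7 (.d k63 k42 k106 6 14)))), (.s k157 k145 1 (.s
  k187 k136 4 (.s k191 k128 6 (.s k140 k174 4 (.d k179 k183 k166 1 6))))), (.s k157 k145 1 (.s k213
  k21 7 (.s k221 k17 9 (.s k29 k93 7 (.d k209 k217 k89 1 9)))))] (.c k221 (.q k238 [(.s k128 k191 6
  (.s k192 k64 7 (.s k63 k106 14 (.d k21 k42 k213 6 7)))), (.s k157 k145 1 (.s k187 k136 4 (.s k191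
  k128 6 (.s k140 k174 4 (.d k179 k183 k166 1 6))))), (.s k21 k213 7 (.s k34 k102 9 (.s k17 k51 4
  (.s k29 k25 1 (.s k145 k157 1 (.d k209 k81 k89 7 9))))))] .n) (.c k238 (.l (.s k221 k17 9 (.s k21
  k213 7 (.s k63 k42 6 (.s k128 k191 6 (.d k192 k64 k106 7 14)))))) .n))) .n))) (.c k169 (.q k4 [(.s
  k166 k247 12 (.s k162 k174 1 (.s k243 k81 12 (.d k12 k8 k89 1 14)))), (.s k12 k8 1 (.s k84 k168 13
  (.s k164 k244 11 (.s k88 k240 13 (.d k92 k80 k172 1 11))))), (.s k84 k168 13 (.s k86 k87 0 (.s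
  k166 k247 12 (.s k6 k246 11 (.s k7 k5 0 (.d k244 k164 k165 11 12))))))] .n) (.c k171 (.l (.s k84
  k168 13 (.s k86 k87 0 (.s k3 k169 14 (.d k2 k1 k254 0 13))))) (.c k254 (.l (.s k168 k84 13 (.s
  k169 k171 0 (.s k1 k253 13 (.d k3 k2 k86 0 14))))) .n))))))))))))

def t10_127 : T TT 256 :=
  (.q k86 [(.s k84 k87 0 (.s k252 k168 13 (.s k169 k3 14 (.s k253 k1 13 (.d k255 k254 k170 0
  14))))), (.s k87 k84 0 (.s k255 k170 14 (.s k3 k171 13 (.s k1 k2 0 (.d k169 k253 k252 13 14)))))]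
  (.c k1 (.q k4 [(.s k84 k87 0 (.s k166 k247 12 (.s k6 k246 11 (.s k244 k164 11 (.d k7 k5 k165 0
  12))))), (.s k12 k8 1 (.s k166 k247 12 (.s k89 k243 14 (.s k93 k81 1 (.d k255 k174 k170 12
  14))))), (.s k12 k8 1 (.s k84 k87 0 (.s k164 k244 11 (.s k88 k240 13 (.s k92 k80 1 (.d k252 k172
  k168 11 13))))))] .n) (.c k3 (.q k4 [(.s k12 k8 1 (.s k166 k247 12 (.s k89 k243 14 (.s k93 k81 1
  (.d k255 k174 k170 12 14))))), (.s k84 k87 0 (.s k166 k247 12 (.s k6 k246 11 (.s k7 k5 0 (.d k244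
  k164 k165 11 12))))), (.s k12 k8 1 (.s k84 k87 0 (.s k164 k244 11 (.s k88 k240 13 (.s k92 k80 1
  (.d k252 k172 k168 11 13))))))] (.c k255 (.l (.s k87 k84 0 (.s k247 k166 12 (.s k7 k167 11 (.s k5
  k6 0 (.d k165 k245 k244 11 12)))))) .n)) (.c k84 (.q k12 [(.s k4 k8 1 (.s k166 k247 12 (.s k89
  k243 14 (.s k93 k81 1 (.d k255 k174 k170 12 14))))), (.s k255 k170 14 (.s k93 k174 12 (.s k89 k81
  1 (.s k92 k83 2 (.s k252 k172 11 (.s k169 k3 14 (.d k253 k254 k1 0 13))))))), (.s k170 k255 14 (.s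
  k2 k254 13 (.s k3 k1 0 (.s k6 k9 2 (.s k166 k246 11 (.d k4 k8 k247 1 12))))))] (.c k166 (.l (.s k8
  k4 1 (.s k170 k255 14 (.s k2 k254 13 (.s k3 k1 0 (.s k9 k6 2 (.s k89 k251 12 (.d k169 k252 k249 14
  11)))))))) (.c k170 (.l (.s k4 k8 1 (.s k166 k247 12 (.s k6 k246 11 (.s k89 k243 14 (.s k92 k83 2
  (.s k252 k172 11 (.d k3 k9 k169 2 14)))))))) (.c k255 (.l (.s k4 k8 1 (.s k166 k247 12 (.s k243
  k89 14 (.s k246 k6 11 (.s k252 k249 2 (.s k169 k3 14 (.d k172 k163 k92 2 11)))))))) .n)))) (.c k87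
  (.q k207 [(.s k69 k138 10 (.s k101 k117 3 (.s k48 k154 14 (.s k32 k16 3 (.d k170 k239 k255 10
  14))))), (.s k138 k69 10 (.s k170 k255 14 (.s k2 k254 13 (.s k3 k1 0 (.s k70 k206 9 (.s k137 k204
  10 (.d k139 k136 k71 0 9))))))), (.s k69 k138 10 (.s k101 k117 3 (.s k71 k116 4 (.s k3 k139 9 (.s
  k1 k2 0 (.d k169 k253 k252 13 14)))))), (.s k170 k255 14 (.s k2 k254 13 (.s k3 k1 0 (.s k71 k139 9
  (.s k101 k116 4 (.s k32 k239 10 (.d k48 k16 k154 3 14)))))))] (.c k67 (.q k107 [(.s k69 k138 10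
  (.s k101 k117 3 (.s k48 k154 14 (.s k32 k16 3 (.d k170 k239 k255 10 14))))), (.s k138 k69 10 (.s
  k170 k255 14 (.s k2 k254 13 (.s k3 k1 0 (.s k70 k206 9 (.s k137 k204 10 (.d k139 k136 k71 0
  9))))))), (.s k69 k138 10 (.s k101 k117 3 (.s k71 k116 4 (.s k3 k139 9 (.s k1 k2 0 (.d k169 k253
  k252 13 14)))))), (.s k170 k255 14 (.s k2 k254 13 (.s k3 k1 0 (.s k71 k139 9 (.s k101 k116 4 (.s
  k32 k239 10 (.d k48 k16 k154 3 14)))))))] .n) (.c k107 (.q k67 [(.s k69 k138 10 (.s k101 k117 3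
  (.s k48 k154 14 (.s k32 k16 3 (.d k170 k239 k255 10 14))))), (.s k105 k124 6 (.s k125 k65 5 (.s
  k255 k170 14 (.s k60 k190 8 (.s k20 k40 5 (.d k150 k215 k195 8 14)))))), (.s k69 k138 10 (.s k101
  k117 3 (.s k71 k116 4 (.s k3 k139 9 (.s k1 k2 0 (.d k169 k253 k252 13 14))))))] .n) .n))) (.c k168
  (.l (.s k87 k84 0 (.s k255 k170 14 (.s k3 k171 13 (.s k169 k252 14 (.d k1 k2 k253 0 13)))))) (.c
  k169 (.q k4 [(.s k12 k8 1 (.s k166 k247 12 (.s k89 k243 14 (.s k93 k81 1 (.d k255 k174 k170 12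
  14))))), (.s k84 k87 0 (.s k166 k247 12 (.s k6 k246 11 (.s k7 k5 0 (.d k244 k164 k165 11 12))))),
  (.s k12 k8 1 (.s k84 k87 0 (.s k164 k244 11 (.s k88 k240 13 (.s k92 k80 1 (.d k252 k172 k168 11
  13))))))] .n) (.c k170 (.q k90 [(.s k87 k84 0 (.s k94 k82 1 (.s k95 k80 2 (.s k83 k91 1 (.d k92
  k93 k89 0 2))))), (.s k84 k87 0 (.s k94 k82 1 (.s k252 k168 13 (.s k15 k173 12 (.s k165 k240 14
  (.s k7 k244 12 (.d k3 k169 k11 14 1))))))), (.s k80 k95 2 (.s k84 k87 0 (.s k240 k160 11 (.s k165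
  k15 14 (.s k244 k7 12 (.d k252 k248 k168 1 13)))))), (.s k80 k95 2 (.s k82 k94 1 (.s k240 k160 11
  (.s k3 k161 12 (.s k1 k2 0 (.d k169 k253 k252 13 14))))))] .n) (.c k171 (.l (.s k84 k87 0 (.s k252
  k168 13 (.s k3 k169 14 (.s k170 k255 14 (.d k2 k1 k254 0 13)))))) (.c k252 (.q k7 [(.s k87 k84 0
  (.s k244 k165 12 (.s k247 k167 11 (.s k166 k4 12 (.d k246 k245 k6 0 11))))), (.s k165 k244 12 (.s
  k245 k5 11 (.s k255 k170 14 (.s k240 k250 2 (.s k90 k15 14 (.d k80 k95 k160 2 11)))))), (.s k87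
  k84 0 (.s k167 k247 11 (.s k255 k170 14 (.s k3 k171 13 (.s k15 k11 1 (.s k91 k243 13 (.d k95 k83
  k175 1 11)))))))] .n) (.c k253 (.l (.s k84 k87 0 (.s k170 k255 14 (.s k2 k254 13 (.s k252 k168 13
  (.d k3 k1 k169 0 14)))))) (.c k255 (.q k63 [(.s k84 k87 0 (.s k252 k168 13 (.s k3 k169 14 (.s k23
  k43 5 (.s k149 k212 8 (.d k21 k42 k213 6 7)))))), (.s k21 k42 6 (.s k87 k84 0 (.s k149 k213 7 (.s
  k23 k212 8 (.s k20 k22 0 (.d k215 k151 k150 7 8)))))), (.s k84 k87 0 (.s k252 k168 13 (.s k3 k169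
  14 (.s k23 k43 5 (.s k126 k189 8 (.s k106 k66 5 (.d k149 k212 k192 8 14))))))), (.s k21 k42 6 (.s
  k84 k87 0 (.s k149 k213 7 (.s k252 k168 13 (.s k126 k189 8 (.d k106 k192 k66 14 5)))))), (.s k21
  k42 6 (.s k149 k213 7 (.s k23 k212 8 (.s k3 k43 5 (.s k1 k2 0 (.d k169 k253 k252 13 14))))))] (.c
  k149 (.q k2 [(.s k3 k1 0 (.s k84 k87 0 (.d k252 k168 k169 13 14))), (.s k42 k21 6 (.s k62 k22 5
  (.s k170 k254 13 (.s k106 k234 7 (.s k66 k126 5 (.d k194 k130 k150 7 13))))))] (.c k252 (.l (.s k3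
  k1 0 (.s k42 k21 6 (.s k22 k62 5 (.s k41 k60 6 (.d k43 k40 k23 0 5)))))) .n)) .n)) .n))))))))))))

def t10_160 : T TT 256 :=
  (.f k170 k255 14 (.q k204 [(.s k68 k136 9 (.s k102 k119 4 (.s k34 k238 9 (.d k51 k17 k153 4
  14))))] (.c k17 (.q k1 [(.s k169 k253 13 (.s k168 k171 0 (.s k252 k84 13 (.d k3 k2 k86 0 14)))),
  (.s k3 k2 0 (.s k136 k68 9 (.s k137 k70 10 (.s k69 k205 9 (.d k138 k139 k207 0 10))))), (.s k68
  k136 9 (.s k102 k119 4 (.s k169 k253 13 (.s k236 k35 10 (.s k252 k220 3 (.d k168 k171 k84 0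
  13))))))] .n) (.c k34 (.q k1 [(.s k169 k253 13 (.s k168 k171 0 (.s k252 k84 13 (.d k3 k2 k86 0
  14)))), (.s k3 k2 0 (.s k136 k68 9 (.s k137 k70 10 (.s k69 k205 9 (.d k138 k139 k207 0 10))))),
  (.s k68 k136 9 (.s k102 k119 4 (.s k169 k253 13 (.s k236 k35 10 (.s k252 k220 3 (.d k168 k171 k84
  0 13))))))] .n) (.c k51 (.f k68 k136 9 (.q k84 [(.s k100 k116 3 (.s k48 k152 13 (.s k32 k16 3 (.d
  k168 k236 k252 9 13)))), (.s k86 k87 0 (.s k2 k254 13 (.s k3 k1 0 (.s k70 k137 10 (.d k102 k119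
  k118 4 3)))))] (.c k119 (.q k187 [(.s k100 k116 3 (.s k48 k152 13 (.s k32 k16 3 (.d k168 k236 k252
  9 13)))), (.s k86 k87 0 (.s k2 k254 13 (.s k3 k1 0 (.d k252 k168 k169 13 14)))), (.s k86 k87 0 (.s
  k116 k100 3 (.s k71 k101 4 (.s k70 k69 0 (.s k3 k137 10 (.d k2 k1 k254 0 13))))))] .n) (.c k187
  (.l (.s k119 k102 4 (.s k86 k87 0 (.s k2 k254 13 (.s k3 k1 0 (.d k252 k168 k169 13 14)))))) (.c
  k252 (.l (.s k86 k87 0 (.s k116 k100 3 (.s k71 k101 4 (.s k70 k69 0 (.d k102 k118 k119 3 4))))))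
  .n))))) (.c k68 (.q k2 [(.s k3 k1 0 (.s k86 k254 13 (.s k84 k87 0 (.d k252 k168 k169 13 14)))),
  (.s k3 k1 0 (.s k70 k137 10 (.s k138 k206 9 (.s k154 k186 3 (.s k16 k223 10 (.s k48 k32 3 (.d k207
  k69 k101 10 14)))))))] (.c k1 (.l (.s k86 k254 13 (.s k84 k87 0 (.s k252 k168 13 (.s k220 k236 3
  (.s k153 k19 10 (.s k17 k221 9 (.d k51 k34 k102 4 14)))))))) (.c k3 (.f k86 k254 13 (.q k252 [(.d
  k84 k87 k168 0 13), (.s k220 k236 3 (.s k153 k19 10 (.s k17 k221 9 (.d k51 k34 k102 4 14))))] (.c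
  k87 (.q k171 [(.d k168 k169 k84 0 13), (.s k220 k236 3 (.s k153 k19 10 (.s k17 k221 9 (.d k51 k34
  k102 4 14))))] .n) (.c k171 (.l (.s k87 k84 0 (.s k220 k236 3 (.s k153 k19 10 (.s k17 k221 9 (.d
  k51 k34 k102 4 14)))))) .n)))) .n))) (.c k102 (.q k1 [(.s k169 k253 13 (.s k168 k171 0 (.s k252
  k84 13 (.d k3 k2 k86 0 14)))), (.s k3 k2 0 (.s k136 k68 9 (.s k137 k70 10 (.s k69 k205 9 (.d k138
  k139 k207 0 10))))), (.s k136 k68 9 (.s k153 k187 4 (.s k169 k253 13 (.s k137 k185 3 (.s k69 k205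
  9 (.d k138 k139 k207 0 10))))))] .n) (.c k119 (.l (.s k136 k68 9 (.s k153 k187 4 (.s k51 k102 14
  (.d k17 k34 k221 4 9))))) (.c k136 (.q k2 [(.s k3 k1 0 (.s k86 k254 13 (.s k84 k87 0 (.d k252 k168
  k169 13 14)))), (.s k3 k1 0 (.s k70 k137 10 (.s k138 k206 9 (.s k154 k186 3 (.s k16 k223 10 (.s
  k48 k32 3 (.d k207 k69 k101 10 14)))))))] (.c k1 (.l (.s k86 k254 13 (.s k84 k87 0 (.s k252 k168
  13 (.s k220 k236 3 (.s k153 k19 10 (.s k17 k221 9 (.d k51 k34 k102 4 14)))))))) (.c k3 (.f k86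
  k254 13 (.q k252 [(.d k84 k87 k168 0 13), (.s k220 k236 3 (.s k153 k19 10 (.s k17 k221 9 (.d k51
  k34 k102 4 14))))] (.c k87 (.q k171 [(.d k168 k169 k84 0 13), (.s k220 k236 3 (.s k153 k19 10 (.s
  k17 k221 9 (.d k51 k34 k102 4 14))))] .n) (.c k171 (.l (.s k87 k84 0 (.s k220 k236 3 (.s k153 k19
  10 (.s k17 k221 9 (.d k51 k34 k102 4 14)))))) .n)))) .n))) (.c k153 (.q k1 [(.s k169 k253 13 (.s
  k168 k171 0 (.s k252 k84 13 (.d k3 k2 k86 0 14)))), (.s k3 k2 0 (.s k136 k68 9 (.s k137 k70 10 (.s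
  k69 k205 9 (.d k138 k139 k207 0 10))))), (.s k68 k136 9 (.s k102 k119 4 (.s k169 k253 13 (.s k236
  k35 10 (.s k252 k220 3 (.d k168 k171 k84 0 13))))))] .n) (.c k187 (.l (.s k68 k136 9 (.s k102 k119
  4 (.s k51 k153 14 (.d k34 k17 k238 4 9))))) (.c k238 (.l (.s k136 k68 9 (.s k153 k187 4 (.s k17
  k221 9 (.d k51 k34 k102 4 14))))) .n))))))))))))

def t10_161 : T TT 256 :=
  (.f k170 k255 14 (.q k252 [(.s k84 k168 13 (.s k86 k87 0 (.s k2 k254 13 (.d k3 k1 k169 0 14))))]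
  (.c k1 (.q k81 [(.s k89 k93 1 (.s k8 k251 12 (.s k12 k4 1 (.d k243 k162 k166 12 14)))), (.s k168
  k84 13 (.s k169 k171 0 (.s k243 k162 12 (.s k249 k246 2 (.d k89 k93 k9 1 11))))), (.s k84 k168 13
  (.s k86 k87 0 (.s k2 k254 13 (.s k162 k243 12 (.s k82 k242 11 (.s k80 k83 0 (.d k90 k95 k94 2
  1))))))), (.s k84 k168 13 (.s k86 k87 0 (.s k89 k93 1 (.s k92 k83 2 (.s k12 k172 11 (.d k8 k4 k251
  1 12))))))] .n) (.c k2 (.f k168 k84 13 (.q k153 [(.s k169 k171 0 (.s k185 k137 3 (.s k51 k118 10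
  (.d k17 k34 k221 4 9)))), (.s k136 k187 4 (.s k152 k184 3 (.s k204 k68 9 (.s k100 k48 13 (.d k236
  k220 k32 3 9)))))] (.c k6 (.q k14 [(.s k169 k171 0 (.s k185 k137 3 (.s k51 k118 10 (.d k17 k34
  k221 4 9)))), (.s k136 k187 4 (.s k152 k184 3 (.s k204 k68 9 (.s k100 k48 13 (.d k236 k220 k32 3
  9)))))] (.c k51 (.l (.s k169 k171 0 (.s k3 k86 14 (.s k137 k185 3 (.s k204 k70 10 (.d k136 k187
  k68 4 9)))))) (.c k185 (.l (.s k17 k221 9 (.s k51 k34 4 (.s k136 k187 4 (.d k204 k68 k102 9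
  14))))) .n))) (.c k14 (.q k6 [(.s k169 k171 0 (.s k185 k137 3 (.s k51 k118 10 (.d k17 k34 k221 4
  9)))), (.s k136 k187 4 (.s k152 k184 3 (.s k204 k68 9 (.s k100 k48 13 (.d k236 k220 k32 3 9)))))]
  (.c k51 (.l (.s k169 k171 0 (.s k3 k86 14 (.s k137 k185 3 (.s k204 k70 10 (.d k136 k187 k68 4
  9)))))) (.c k185 (.l (.s k17 k221 9 (.s k51 k34 4 (.s k136 k187 4 (.d k204 k68 k102 9 14)))))
  .n))) (.c k51 (.l (.s k169 k171 0 (.s k3 k86 14 (.s k137 k185 3 (.s k204 k70 10 (.d k136 k187 k68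
  4 9)))))) (.c k185 (.l (.s k17 k221 9 (.s k51 k34 4 (.s k136 k187 4 (.d k204 k68 k102 9 14)))))
  .n)))))) (.c k3 (.q k48 [(.s k16 k32 3 (.s k154 k223 10 (.s k138 k186 3 (.d k207 k69 k101 10
  14)))), (.s k84 k168 13 (.s k116 k184 9 (.s k68 k100 3 (.s k102 k119 4 (.s k34 k238 9 (.s k51 k17
  4 (.d k204 k136 k153 9 14)))))))] (.c k32 (.l (.s k168 k84 13 (.s k184 k116 9 (.s k136 k152 3 (.s
  k153 k187 4 (.s k17 k221 9 (.s k51 k34 4 (.d k204 k68 k102 9 14)))))))) (.c k82 (.q k240 [(.s k16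
  k32 3 (.s k154 k223 10 (.s k138 k186 3 (.d k207 k69 k101 10 14)))), (.s k80 k160 11 (.s k84 k168
  13 (.s k88 k92 1 (.s k164 k12 13 (.d k244 k248 k4 1 11)))))] (.c k87 (.q k171 [(.d k168 k169 k84 0
  13), (.s k16 k32 3 (.s k154 k223 10 (.s k138 k186 3 (.d k207 k69 k101 10 14))))] .n) (.c k171 (.q
  k87 [(.d k84 k86 k168 0 13), (.s k16 k32 3 (.s k154 k223 10 (.s k138 k186 3 (.d k207 k69 k101 10
  14))))] .n) .n))) (.c k87 (.q k171 [(.d k168 k169 k84 0 13), (.s k16 k32 3 (.s k154 k223 10 (.s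
  k138 k186 3 (.d k207 k69 k101 10 14))))] (.c k82 (.q k240 [(.d k168 k169 k84 0 13), (.s k16 k32 3
  (.s k154 k223 10 (.s k138 k186 3 (.d k207 k69 k101 10 14))))] .n) (.c k240 (.q k82 [(.d k168 k169
  k84 0 13), (.s k16 k32 3 (.s k154 k223 10 (.s k138 k186 3 (.d k207 k69 k101 10 14))))] (.c k245
  (.q k250 [(.d k168 k169 k84 0 13), (.s k16 k32 3 (.s k154 k223 10 (.s k138 k186 3 (.d k207 k69
  k101 10 14))))] .n) (.c k250 (.q k245 [(.d k168 k169 k84 0 13), (.s k16 k32 3 (.s k154 k223 10 (.s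
  k138 k186 3 (.d k207 k69 k101 10 14))))] .n) .n))) .n))) (.c k171 (.q k87 [(.d k84 k86 k168 0 13),
  (.s k16 k32 3 (.s k154 k223 10 (.s k138 k186 3 (.d k207 k69 k101 10 14))))] (.c k82 (.q k240 [(.d
  k84 k86 k168 0 13), (.s k16 k32 3 (.s k154 k223 10 (.s k138 k186 3 (.d k207 k69 k101 10 14))))]
  .n) (.c k240 (.q k82 [(.d k84 k86 k168 0 13), (.s k16 k32 3 (.s k154 k223 10 (.s k138 k186 3 (.d
  k207 k69 k101 10 14))))] (.c k245 (.q k250 [(.d k84 k86 k168 0 13), (.s k16 k32 3 (.s k154 k223 10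
  (.s k138 k186 3 (.d k207 k69 k101 10 14))))] .n) (.c k250 (.q k245 [(.d k84 k86 k168 0 13), (.s
  k16 k32 3 (.s k154 k223 10 (.s k138 k186 3 (.d k207 k69 k101 10 14))))] .n) .n))) .n))) (.c k240
  (.q k82 [(.s k16 k32 3 (.s k154 k223 10 (.s k138 k186 3 (.d k207 k69 k101 10 14)))), (.s k84 k168
  13 (.s k116 k184 9 (.s k68 k100 3 (.s k102 k119 4 (.s k34 k238 9 (.s k51 k17 4 (.d k204 k136 k153
  9 14)))))))] (.c k32 (.l (.s k168 k84 13 (.s k184 k116 9 (.s k136 k152 3 (.s k153 k187 4 (.s k17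
  k221 9 (.s k51 k34 4 (.d k204 k68 k102 9 14)))))))) (.c k87 (.q k171 [(.d k168 k169 k84 0 13), (.s
  k16 k32 3 (.s k154 k223 10 (.s k138 k186 3 (.d k207 k69 k101 10 14))))] (.c k245 (.q k250 [(.d
  k168 k169 k84 0 13), (.s k16 k32 3 (.s k154 k223 10 (.s k138 k186 3 (.d k207 k69 k101 10 14))))]
  .n) (.c k250 (.q k245 [(.d k168 k169 k84 0 13), (.s k16 k32 3 (.s k154 k223 10 (.s k138 k186 3 (.d
  k207 k69 k101 10 14))))] .n) .n))) (.c k171 (.q k87 [(.d k84 k86 k168 0 13), (.s k16 k32 3 (.s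
  k154 k223 10 (.s k138 k186 3 (.d k207 k69 k101 10 14))))] (.c k245 (.q k250 [(.d k84 k86 k168 0
  13), (.s k16 k32 3 (.s k154 k223 10 (.s k138 k186 3 (.d k207 k69 k101 10 14))))] .n) (.c k250 (.q
  k245 [(.d k84 k86 k168 0 13), (.s k16 k32 3 (.s k154 k223 10 (.s k138 k186 3 (.d k207 k69 k101 10
  14))))] .n) .n))) (.c k245 (.q k250 [(.s k16 k32 3 (.s k154 k223 10 (.s k138 k186 3 (.d k207 k69
  k101 10 14)))), (.s k84 k168 13 (.s k116 k184 9 (.s k68 k100 3 (.s k102 k119 4 (.s k34 k238 9 (.s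
  k51 k17 4 (.d k204 k136 k153 9 14)))))))] (.c k32 (.l (.s k168 k84 13 (.s k184 k116 9 (.s k136
  k152 3 (.s k153 k187 4 (.s k17 k221 9 (.s k51 k34 4 (.d k204 k68 k102 9 14)))))))) (.c k87 (.q
  k171 [(.d k168 k169 k84 0 13), (.s k16 k32 3 (.s k154 k223 10 (.s k138 k186 3 (.d k207 k69 k101 10
  14))))] .n) (.c k171 (.q k87 [(.d k84 k86 k168 0 13), (.s k16 k32 3 (.s k154 k223 10 (.s k138 k186
  3 (.d k207 k69 k101 10 14))))] .n) .n)))) (.c k250 (.q k245 [(.s k16 k32 3 (.s k154 k223 10 (.s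
  k207 k101 14 (.d k138 k186 k69 3 10)))), (.s k84 k168 13 (.s k116 k184 9 (.s k68 k100 3 (.s k102
  k119 4 (.s k34 k238 9 (.s k51 k17 4 (.d k204 k136 k153 9 14)))))))] (.c k32 (.l (.s k168 k84 13
  (.s k184 k116 9 (.s k136 k152 3 (.s k153 k187 4 (.s k17 k221 9 (.s k51 k34 4 (.d k204 k68 k102 9
  14)))))))) (.c k87 (.q k171 [(.d k168 k169 k84 0 13), (.s k16 k32 3 (.s k154 k223 10 (.s k138 k186
  3 (.d k207 k69 k101 10 14))))] .n) (.c k171 (.q k87 [(.d k84 k86 k168 0 13), (.s k16 k32 3 (.s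
  k154 k223 10 (.s k138 k186 3 (.d k207 k69 k101 10 14))))] .n) .n)))) .n)))))) .n)))))) (.c k84 (.q
  k89 [(.s k8 k251 12 (.s k12 k4 1 (.s k81 k93 1 (.d k243 k162 k166 12 14)))), (.s k81 k93 1 (.s
  k243 k162 12 (.s k249 k246 2 (.s k169 k9 11 (.s k1 k253 13 (.d k3 k2 k86 0 14)))))), (.s k8 k251
  12 (.s k12 k4 1 (.s k92 k172 11 (.s k86 k83 2 (.s k2 k254 13 (.d k3 k1 k169 0 14))))))] (.c k8 (.l
  (.s k81 k93 1 (.s k243 k162 12 (.s k12 k166 14 (.s k92 k172 11 (.s k86 k83 2 (.s k2 k254 13 (.d k3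
  k169 k1 14 0)))))))) (.c k12 (.q k138 [(.s k207 k69 10 (.s k154 k186 3 (.s k48 k101 14 (.d k16 k32
  k223 3 10)))), (.s k8 k251 12 (.s k154 k186 3 (.s k24 k219 8 (.s k56 k40 3 (.d k203 k73 k105 8
  12))))), (.s k8 k251 12 (.s k69 k207 10 (.s k73 k203 8 (.s k77 k65 1 (.d k101 k117 k113 3 5)))))]
  (.c k93 (.q k174 [(.s k154 k186 3 (.s k207 k69 10 (.s k48 k101 14 (.d k16 k32 k223 3 10)))), (.s
  k8 k251 12 (.s k154 k186 3 (.s k24 k219 8 (.s k56 k40 3 (.d k203 k73 k105 8 12))))), (.s k8 k251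
  12 (.s k69 k207 10 (.s k73 k203 8 (.s k77 k65 1 (.d k101 k117 k113 3 5)))))] (.c k117 (.l (.s k207
  k69 10 (.s k154 k186 3 (.s k48 k101 14 (.d k16 k32 k223 3 10))))) .n)) (.c k117 (.l (.s k207 k69
  10 (.s k154 k186 3 (.s k48 k101 14 (.d k16 k32 k223 3 10))))) (.c k174 (.l (.s k93 k81 1 (.s k154
  k186 3 (.s k16 k223 10 (.s k48 k32 3 (.d k207 k69 k101 10 14)))))) .n)))) (.c k243 (.q k106 [(.s
  k42 k234 7 (.s k63 k21 6 (.s k64 k127 6 (.d k192 k128 k149 7 14)))), (.s k93 k81 1 (.s k123 k72 4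
  (.s k127 k64 6 (.s k76 k110 4 (.d k115 k119 k102 1 6))))), (.s k123 k72 4 (.s k234 k42 7 (.s k251
  k8 12 (.s k59 k187 7 (.d k200 k217 k153 4 12)))))] (.c k247 (.l (.s k251 k8 12 (.s k42 k234 7 (.s
  k63 k21 6 (.s k64 k127 6 (.d k192 k128 k149 7 14)))))) (.c k251 (.q k247 [(.s k64 k127 6 (.s k192
  k128 7 (.s k63 k149 14 (.d k42 k21 k234 6 7)))), (.s k93 k81 1 (.s k123 k72 4 (.s k127 k64 6 (.s
  k76 k110 4 (.d k115 k119 k102 1 6))))), (.s k4 k166 12 (.s k8 k12 1 (.s k42 k234 7 (.s k59 k25 4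
  (.s k72 k123 4 (.d k200 k136 k153 7 12))))))] .n) .n))) .n)))) (.c k86 (.q k4 [(.s k12 k8 1 (.s
  k166 k247 12 (.s k162 k174 1 (.d k243 k81 k89 12 14)))), (.s k84 k168 13 (.s k244 k164 11 (.s k240
  k248 1 (.s k160 k80 11 (.s k165 k175 2 (.s k245 k5 11 (.d k247 k246 k166 0 12))))))), (.s k12 k8 1
  (.s k84 k168 13 (.s k92 k172 11 (.s k88 k80 1 (.d k164 k244 k240 11 13)))))] (.c k8 (.l (.s k166
  k247 12 (.s k162 k174 1 (.s k168 k84 13 (.s k169 k171 0 (.s k172 k163 2 (.s k12 k92 11 (.d k243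
  k89 k81 14 12)))))))) .n)) (.c k87 (.l (.s k168 k84 13 (.s k169 k171 0 (.s k3 k86 14 (.d k1 k2
  k253 0 13))))) (.c k168 (.q k166 [(.s k4 k247 12 (.s k162 k174 1 (.s k243 k81 12 (.d k12 k8 k89 1
  14)))), (.s k4 k247 12 (.s k12 k8 1 (.s k172 k92 11 (.s k243 k89 14 (.s k246 k249 2 (.s k86 k6 11
  (.d k169 k163 k3 2 14))))))), (.s k162 k174 1 (.s k243 k81 12 (.s k246 k249 2 (.s k86 k6 11 (.s k2
  k254 13 (.d k3 k1 k169 0 14))))))] (.c k12 (.q k101 [(.s k32 k239 10 (.s k48 k16 3 (.s k69 k117 3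
  (.d k207 k138 k154 10 14)))), (.s k4 k247 12 (.s k36 k231 8 (.s k52 k20 3 (.s k69 k117 3 (.d k199
  k134 k150 8 12))))), (.s k4 k247 12 (.s k32 k239 10 (.s k36 k231 8 (.s k40 k44 1 (.d k20 k60 k52 5
  3)))))] (.c k93 (.l (.s k174 k162 1 (.s k32 k239 10 (.s k48 k16 3 (.s k69 k117 3 (.d k207 k138
  k154 10 14)))))) (.c k174 (.q k93 [(.s k32 k239 10 (.s k48 k16 3 (.s k69 k117 3 (.d k207 k138 k154
  10 14)))), (.s k4 k247 12 (.s k36 k231 8 (.s k52 k20 3 (.s k69 k117 3 (.d k199 k134 k150 8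
  12))))), (.s k32 k239 10 (.s k36 k231 8 (.s k44 k40 1 (.s k81 k89 1 (.s k162 k243 12 (.d k227 k97
  k105 8 10))))))] .n) .n))) (.c k243 (.q k64 [(.s k106 k127 6 (.s k42 k234 7 (.s k63 k21 6 (.d k192
  k128 k149 7 14)))), (.s k128 k192 7 (.s k162 k174 1 (.s k179 k145 4 (.s k140 k153 6 (.s k132 k136
  1 (.d k149 k183 k191 4 6)))))), (.s k106 k127 6 (.s k162 k174 1 (.s k226 k46 9 (.s k34 k98 7 (.s
  k234 k42 7 (.d k238 k230 k102 1 9))))))] (.c k191 (.l (.s k192 k128 7 (.s k106 k127 6 (.s k63 k149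
  14 (.d k42 k21 k234 6 7))))) (.c k234 (.l (.s k106 k127 6 (.s k46 k226 9 (.s k192 k128 7 (.s k63
  k149 14 (.s k12 k29 4 (.d k4 k8 k247 1 12))))))) (.c k247 (.q k251 [(.s k106 k127 6 (.s k42 k234 7
  (.s k63 k21 6 (.d k192 k128 k149 7 14)))), (.s k8 k89 12 (.s k12 k4 1 (.s k172 k92 11 (.s k169
  k163 2 (.s k1 k253 13 (.d k3 k86 k2 14 0))))))] .n) (.c k251 (.l (.s k247 k4 12 (.s k106 k127 6
  (.s k42 k234 7 (.s k63 k21 6 (.d k192 k128 k149 7 14)))))) .n))))) .n))) (.c k169 (.f k84 k168 13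
  (.q k165 [(.s k86 k87 0 (.s k160 k175 2 (.s k240 k80 11 (.d k244 k248 k7 1 12)))), (.s k86 k87 0
  (.s k244 k7 12 (.s k245 k5 11 (.s k247 k246 0 (.d k4 k164 k166 11 12))))), (.s k160 k175 2 (.s
  k240 k80 11 (.s k244 k248 1 (.s k4 k164 11 (.s k245 k5 11 (.d k247 k246 k166 0 12))))))] (.c k244
  (.l (.s k86 k87 0 (.s k160 k175 2 (.s k80 k240 11 (.s k92 k88 1 (.s k12 k172 11 (.s k8 k4 1 (.d
  k89 k83 k251 2 12)))))))) .n))) (.c k171 (.l (.s k84 k168 13 (.s k86 k87 0 (.s k3 k169 14 (.d k2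
  k1 k254 0 13))))) (.c k254 (.l (.s k168 k84 13 (.s k169 k171 0 (.s k1 k253 13 (.d k3 k2 k86 0
  14))))) .n))))))))))))

def t10_162 : T TT 256 :=
  (.f k170 k255 14 (.q k252 [(.s k84 k168 13 (.s k86 k87 0 (.s k2 k254 13 (.d k3 k1 k169 0 14))))]
  (.c k1 (.q k4 [(.s k12 k8 1 (.s k84 k168 13 (.s k92 k172 11 (.s k88 k80 1 (.d k164 k244 k240 11
  13))))), (.s k84 k168 13 (.s k86 k87 0 (.s k166 k247 12 (.s k6 k246 11 (.s k7 k5 0 (.d k244 k164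
  k165 11 12)))))), (.s k12 k8 1 (.s k166 k247 12 (.s k172 k92 11 (.s k169 k163 2 (.s k3 k86 14 (.s
  k9 k6 2 (.d k89 k243 k249 14 11)))))))] (.c k9 (.l (.s k166 k247 12 (.s k168 k84 13 (.s k169 k171
  0 (.s k172 k163 2 (.d k12 k8 k92 1 11)))))) .n)) (.c k2 (.f k84 k168 13 (.q k166 [(.s k86 k87 0
  (.s k3 k169 14 (.s k6 k246 11 (.s k12 k9 2 (.d k4 k8 k247 1 12))))), (.s k4 k247 12 (.s k12 k8 1
  (.s k92 k172 11 (.s k88 k80 1 (.d k164 k244 k240 11 13))))), (.s k4 k247 12 (.s k86 k87 0 (.s k6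
  k246 11 (.s k7 k5 0 (.d k244 k164 k165 11 12)))))] (.c k4 (.l (.s k86 k87 0 (.s k3 k169 14 (.s k6
  k246 11 (.s k12 k9 2 (.s k89 k243 14 (.d k92 k83 k172 2 11))))))) (.c k6 (.q k14 [(.s k4 k247 12
  (.s k12 k8 1 (.s k92 k172 11 (.s k88 k80 1 (.d k164 k244 k240 11 13))))), (.s k86 k87 0 (.s k3
  k169 14 (.s k90 k242 13 (.s k82 k94 1 (.s k80 k95 2 (.d k240 k160 k161 11 12)))))), (.s k4 k247 12
  (.s k12 k8 1 (.s k13 k15 0 (.s k164 k244 11 (.s k165 k167 0 (.d k89 k243 k241 14 13))))))] (.c k82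
  (.l (.s k242 k90 13 (.s k4 k247 12 (.s k12 k8 1 (.s k86 k87 0 (.s k92 k172 11 (.d k89 k243 k83 14
  2))))))) (.c k242 (.q k82 [(.s k4 k247 12 (.s k12 k8 1 (.s k92 k172 11 (.s k88 k80 1 (.d k164 k244
  k240 11 13))))), (.s k86 k87 0 (.s k3 k169 14 (.s k90 k94 1 (.s k80 k95 2 (.d k240 k160 k161 11
  12))))), (.s k4 k247 12 (.s k12 k8 1 (.s k15 k13 0 (.s k86 k87 0 (.d k94 k90 k173 1 12)))))] .n)
  .n))) (.c k14 (.q k6 [(.d k86 k87 k246 0 11)] (.c k82 (.q k242 [(.d k86 k87 k246 0 11)] (.c k86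
  (.l (.s k4 k247 12 (.s k5 k7 0 (.s k164 k244 11 (.d k165 k167 k245 0 11))))) (.c k87 (.l (.s k4
  k247 12 (.s k7 k5 0 (.s k86 k246 11 (.d k244 k164 k165 11 12))))) (.c k246 (.l (.s k4 k247 12 (.s
  k7 k5 0 (.s k86 k87 0 (.d k244 k164 k165 11 12))))) .n)))) (.c k86 (.l (.s k4 k247 12 (.s k5 k7 0
  (.s k164 k244 11 (.d k165 k167 k245 0 11))))) (.c k87 (.l (.s k4 k247 12 (.s k7 k5 0 (.s k86 k246
  11 (.d k244 k164 k165 11 12))))) (.c k242 (.q k82 [(.d k86 k87 k246 0 11)] (.c k86 (.l (.s k4 k247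
  12 (.s k5 k7 0 (.s k164 k244 11 (.d k165 k167 k245 0 11))))) (.c k87 (.l (.s k4 k247 12 (.s k7 k5
  0 (.s k86 k246 11 (.d k244 k164 k165 11 12))))) (.c k246 (.l (.s k4 k247 12 (.s k7 k5 0 (.s k86
  k87 0 (.d k244 k164 k165 11 12))))) .n)))) (.c k246 (.l (.s k4 k247 12 (.s k7 k5 0 (.s k86 k87 0
  (.d k244 k164 k165 11 12))))) .n)))))) (.c k82 (.q k242 [(.s k86 k87 0 (.s k3 k169 14 (.s k6 k246
  11 (.s k12 k9 2 (.d k4 k8 k247 1 12))))), (.s k4 k247 12 (.s k12 k8 1 (.s k92 k172 11 (.s k88 k80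
  1 (.d k164 k244 k240 11 13))))), (.s k4 k247 12 (.s k86 k87 0 (.s k6 k246 11 (.s k7 k5 0 (.d k244
  k164 k165 11 12)))))] (.c k4 (.l (.s k86 k87 0 (.s k3 k169 14 (.s k6 k246 11 (.s k12 k9 2 (.s k89
  k243 14 (.d k92 k83 k172 2 11))))))) (.c k6 (.l (.s k14 k90 13 (.s k4 k247 12 (.s k12 k8 1 (.s k86
  k87 0 (.s k92 k172 11 (.d k89 k243 k83 14 2))))))) (.c k14 (.q k6 [(.d k86 k87 k246 0 11)] (.c k86
  (.l (.s k4 k247 12 (.s k5 k7 0 (.s k164 k244 11 (.d k165 k167 k245 0 11))))) (.c k87 (.l (.s k4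
  k247 12 (.s k7 k5 0 (.s k86 k246 11 (.d k244 k164 k165 11 12))))) (.c k246 (.l (.s k4 k247 12 (.s
  k7 k5 0 (.s k86 k87 0 (.d k244 k164 k165 11 12))))) .n)))) (.c k247 (.l (.s k86 k87 0 (.s k3 k169
  14 (.s k6 k246 11 (.s k12 k9 2 (.s k8 k4 1 (.d k89 k251 k243 12 14))))))) .n))))) (.c k242 (.q k82
  [(.s k86 k87 0 (.s k3 k169 14 (.s k6 k246 11 (.s k12 k9 2 (.d k4 k8 k247 1 12))))), (.s k86 k87 0
  (.s k3 k169 14 (.s k90 k94 1 (.s k80 k95 2 (.d k240 k160 k161 11 12))))), (.s k4 k247 12 (.s k12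
  k8 1 (.s k92 k172 11 (.s k88 k80 1 (.d k164 k244 k240 11 13)))))] (.c k6 (.q k14 [(.s k4 k247 12
  (.s k12 k8 1 (.s k92 k172 11 (.s k88 k80 1 (.d k164 k244 k240 11 13))))), (.s k86 k87 0 (.s k3
  k169 14 (.s k90 k94 1 (.s k80 k95 2 (.d k240 k160 k161 11 12))))), (.s k4 k247 12 (.s k12 k8 1 (.s
  k15 k13 0 (.s k86 k87 0 (.d k94 k90 k173 1 12)))))] .n) (.c k14 (.q k6 [(.d k86 k87 k246 0 11)]
  (.c k86 (.l (.s k4 k247 12 (.s k5 k7 0 (.s k164 k244 11 (.d k165 k167 k245 0 11))))) (.c k87 (.l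
  (.s k4 k247 12 (.s k7 k5 0 (.s k86 k246 11 (.d k244 k164 k165 11 12))))) (.c k246 (.l (.s k4 k247
  12 (.s k7 k5 0 (.s k86 k87 0 (.d k244 k164 k165 11 12))))) .n)))) .n))) (.c k247 (.l (.s k86 k87 0
  (.s k3 k169 14 (.s k6 k246 11 (.s k12 k9 2 (.s k8 k4 1 (.d k89 k251 k243 12 14))))))) .n))))))))
  (.c k3 (.f k84 k168 13 (.q k124 [(.s k60 k188 7 (.s k20 k40 5 (.s k104 k64 5 (.d k148 k212 k192 7
  13)))), (.s k64 k104 5 (.s k106 k127 6 (.s k42 k234 7 (.s k63 k21 6 (.d k192 k128 k149 7 14))))),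
  (.s k60 k188 7 (.s k40 k20 5 (.s k105 k235 8 (.d k86 k87 k67 0 6))))] (.c k40 (.l (.s k60 k188 7
  (.s k104 k64 5 (.s k148 k192 13 (.s k20 k212 7 (.s k150 k215 8 (.s k130 k190 5 (.d k195 k65 k105 8
  14)))))))) (.c k87 (.q k171 [(.s k60 k188 7 (.s k20 k40 5 (.s k104 k64 5 (.d k148 k212 k192 7
  13)))), (.s k64 k104 5 (.s k106 k127 6 (.s k42 k234 7 (.s k63 k21 6 (.d k192 k128 k149 7 14))))),
  (.s k60 k188 7 (.s k40 k20 5 (.s k105 k235 8 (.s k65 k125 5 (.d k195 k130 k150 8 14)))))] (.c k40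
  (.l (.s k60 k188 7 (.s k104 k64 5 (.s k148 k192 13 (.s k20 k212 7 (.s k150 k215 8 (.s k130 k190 5
  (.d k195 k65 k105 8 14)))))))) (.c k128 (.l (.s k104 k64 5 (.s k60 k188 7 (.s k148 k192 13 (.d k20
  k40 k212 5 7))))) .n))) (.c k128 (.l (.s k104 k64 5 (.s k60 k188 7 (.s k148 k192 13 (.d k20 k40
  k212 5 7))))) (.c k171 (.l (.s k87 k86 0 (.s k60 k188 7 (.s k20 k40 5 (.s k104 k64 5 (.d k148 k212
  k192 7 13)))))) .n)))))) (.c k84 (.q k154 [(.s k16 k223 10 (.s k138 k186 3 (.s k207 k69 10 (.d k48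
  k32 k101 3 14)))), (.s k138 k186 3 (.s k207 k69 10 (.s k222 k237 4 (.s k86 k18 9 (.s k2 k254 13
  (.d k3 k1 k169 0 14)))))), (.s k16 k223 10 (.s k48 k32 3 (.s k184 k116 9 (.s k169 k139 4 (.s k1
  k253 13 (.d k3 k2 k86 0 14))))))] (.c k48 (.q k153 [(.s k17 k221 9 (.s k51 k34 4 (.s k136 k187 4
  (.d k204 k68 k102 9 14)))), (.s k136 k187 4 (.s k152 k155 0 (.s k184 k168 3 (.s k139 k169 4 (.d
  k138 k186 k137 3 0))))), (.s k17 k221 9 (.s k51 k34 4 (.s k155 k152 0 (.s k207 k103 13 (.d k138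
  k186 k69 3 10)))))] (.c k51 (.l (.s k155 k152 0 (.s k186 k138 3 (.s k187 k136 4 (.s k139 k171 3
  (.d k184 k185 k169 0 4)))))) (.c k117 (.l (.s k186 k138 3 (.s k17 k221 9 (.s k51 k34 4 (.s k136
  k187 4 (.d k204 k68 k102 9 14)))))) (.c k186 (.q k117 [(.s k17 k221 9 (.s k51 k34 4 (.s k204 k102
  14 (.d k136 k187 k68 4 9)))), (.s k69 k101 3 (.s k207 k138 10 (.s k221 k17 9 (.s k222 k237 4 (.d
  k223 k220 k16 0 10))))), (.s k69 k101 3 (.s k136 k187 4 (.s k138 k207 10 (.s k137 k139 0 (.s k1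
  k205 9 (.d k169 k185 k253 3 13))))))] .n) .n)))) (.c k207 (.q k153 [(.s k155 k152 0 (.s k221 k17 9
  (.s k223 k16 10 (.s k220 k222 0 (.d k19 k87 k86 9 10))))), (.s k17 k221 9 (.s k51 k34 4 (.s k136
  k187 4 (.d k204 k68 k102 9 14)))), (.s k136 k187 4 (.s k138 k186 3 (.s k139 k137 0 (.s k152 k155 0
  (.d k184 k168 k169 3 4)))))] (.c k223 (.q k239 [(.s k136 k187 4 (.s k204 k68 9 (.s k51 k102 14 (.d
  k17 k34 k221 4 9)))), (.s k32 k101 10 (.s k48 k16 3 (.s k136 k187 4 (.s k152 k155 0 (.d k184 k168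
  k116 3 9))))), (.s k17 k221 9 (.s k32 k101 10 (.s k48 k16 3 (.s k51 k34 4 (.s k50 k49 0 (.d k102
  k204 k206 14 13))))))] (.c k51 (.l (.s k32 k101 10 (.s k48 k16 3 (.s k184 k116 9 (.s k186 k138 3
  (.d k187 k185 k136 0 4)))))) .n)) (.c k239 (.l (.s k223 k16 10 (.s k17 k221 9 (.s k51 k34 4 (.s
  k136 k187 4 (.d k204 k68 k102 9 14)))))) .n))) .n))) (.c k86 (.q k16 [(.s k154 k223 10 (.s k138
  k186 3 (.s k207 k69 10 (.d k48 k32 k101 3 14)))), (.s k84 k168 13 (.s k220 k152 9 (.s k204 k236 3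
  (.s k136 k68 9 (.s k153 k187 4 (.s k17 k221 9 (.d k51 k34 k102 4 14)))))))] (.c k32 (.l (.s k154
  k223 10 (.s k138 k186 3 (.s k168 k84 13 (.s k169 k171 0 (.s k184 k139 4 (.s k48 k116 9 (.d k207
  k101 k69 14 10)))))))) .n)) (.c k87 (.l (.s k168 k84 13 (.s k169 k171 0 (.s k3 k86 14 (.d k1 k2
  k253 0 13))))) (.c k168 (.q k106 [(.s k42 k234 7 (.s k63 k21 6 (.s k64 k127 6 (.d k192 k128 k149 7
  14)))), (.s k64 k127 6 (.s k192 k128 7 (.s k232 k212 5 (.s k169 k43 8 (.s k1 k253 13 (.d k3 k2 k86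
  0 14)))))), (.s k42 k234 7 (.s k63 k21 6 (.s k126 k189 8 (.s k86 k66 5 (.s k2 k254 13 (.d k3 k1
  k169 0 14))))))] (.c k63 (.q k130 [(.s k195 k65 8 (.s k150 k190 5 (.s k60 k105 14 (.d k20 k40 k215
  5 8)))), (.s k195 k65 8 (.s k214 k233 6 (.s k234 k42 7 (.s k194 k254 5 (.s k192 k193 0 (.d k64
  k127 k128 6 7)))))), (.s k150 k190 5 (.s k194 k62 13 (.s k2 k66 7 (.s k3 k1 0 (.d k86 k254 k169 13
  14)))))] (.c k127 (.q k191 [(.s k195 k65 8 (.s k150 k190 5 (.s k60 k105 14 (.d k20 k40 k215 5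
  8)))), (.s k150 k190 5 (.s k194 k62 13 (.s k2 k66 7 (.s k3 k1 0 (.d k86 k254 k169 13 14))))), (.s
  k65 k195 8 (.s k128 k149 6 (.s k64 k192 7 (.s k66 k67 0 (.s k86 k126 5 (.d k2 k194 k254 7
  13))))))] (.c k125 (.l (.s k195 k65 8 (.s k150 k190 5 (.s k60 k105 14 (.d k20 k40 k215 5 8)))))
  .n)) (.c k191 (.l (.s k127 k64 6 (.s k150 k190 5 (.s k20 k215 8 (.s k60 k40 5 (.d k195 k65 k105 8
  14)))))) .n))) (.c k192 (.q k1 [(.s k169 k253 13 (.d k3 k2 k86 0 14)), (.s k169 k253 13 (.s k232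
  k43 8 (.s k234 k42 7 (.s k233 k235 0 (.s k195 k214 6 (.s k65 k130 8 (.d k105 k41 k125 7 5))))))),
  (.s k2 k3 0 (.s k64 k127 6 (.s k86 k254 13 (.s k66 k126 5 (.s k65 k67 0 (.d k130 k195 k194 8
  7))))))] (.c k213 (.l (.s k234 k42 7 (.s k3 k2 0 (.d k169 k253 k86 13 14)))) (.c k234 (.q k213
  [(.s k169 k253 13 (.d k3 k2 k86 0 14)), (.s k21 k149 7 (.s k41 k61 5 (.s k42 k63 6 (.s k43 k40 0
  (.d k169 k232 k253 8 13))))), (.s k2 k3 0 (.s k21 k149 7 (.s k63 k42 6 (.s k86 k254 13 (.d k126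
  k66 k189 5 8)))))] .n) .n))) .n))) (.c k169 (.q k16 [(.s k154 k223 10 (.s k138 k186 3 (.s k207 k69
  10 (.d k48 k32 k101 3 14)))), (.s k48 k32 3 (.s k84 k168 13 (.s k152 k220 9 (.s k100 k204 13 (.d
  k116 k68 k184 3 9))))), (.s k84 k168 13 (.s k86 k87 0 (.s k154 k223 10 (.s k18 k222 9 (.s k19 k17
  0 (.d k220 k152 k153 9 10))))))] .n) (.c k171 (.l (.s k84 k168 13 (.s k86 k87 0 (.s k3 k169 14 (.d
  k2 k1 k254 0 13))))) (.c k254 (.l (.s k168 k84 13 (.s k169 k171 0 (.s k1 k253 13 (.d k3 k2 k86 0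
  14))))) .n))))))))))))

def t10_163 : T TT 256 :=
  (.f k170 k255 14 (.q k204 [(.s k68 k136 9 (.s k102 k119 4 (.s k34 k238 9 (.d k51 k17 k153 4
  14))))] (.c k17 (.q k1 [(.s k3 k2 0 (.s k169 k253 13 (.s k252 k86 14 (.d k168 k171 k84 0 13)))),
  (.s k3 k2 0 (.s k136 k68 9 (.s k137 k70 10 (.s k69 k205 9 (.d k138 k139 k207 0 10))))), (.s k68
  k136 9 (.s k102 k119 4 (.s k169 k253 13 (.s k236 k35 10 (.s k252 k220 3 (.d k168 k171 k84 0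
  13))))))] .n) (.c k34 (.q k1 [(.s k169 k253 13 (.s k168 k171 0 (.s k252 k84 13 (.d k3 k2 k86 0
  14)))), (.s k3 k2 0 (.s k136 k68 9 (.s k137 k70 10 (.s k69 k205 9 (.d k138 k139 k207 0 10))))),
  (.s k68 k136 9 (.s k102 k119 4 (.s k169 k253 13 (.s k236 k35 10 (.s k252 k220 3 (.d k168 k171 k84
  0 13))))))] .n) (.c k51 (.f k136 k68 9 (.q k128 [(.s k132 k140 1 (.s k192 k64 7 (.s k200 k196 1
  (.d k72 k8 k12 7 9)))), (.s k149 k191 6 (.s k21 k213 7 (.s k63 k42 6 (.d k192 k64 k106 7 14)))),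
  (.s k140 k132 1 (.s k191 k149 6 (.s k174 k157 4 (.s k166 k162 1 (.d k153 k187 k179 4 6)))))] (.c
  k119 (.l (.s k187 k153 4 (.s k132 k140 1 (.s k192 k64 7 (.s k72 k12 9 (.d k200 k196 k8 1 7))))))
  (.c k187 (.q k119 [(.s k132 k140 1 (.s k192 k64 7 (.s k200 k196 1 (.d k72 k8 k12 7 9)))), (.s k149
  k191 6 (.s k21 k213 7 (.s k63 k42 6 (.d k192 k64 k106 7 14)))), (.s k140 k132 1 (.s k191 k149 6
  (.s k174 k157 4 (.s k166 k162 1 (.s k4 k247 12 (.d k12 k8 k76 1 7))))))] .n) .n)))) (.c k68 (.q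
  k69 [(.s k101 k117 3 (.s k32 k239 10 (.s k48 k16 3 (.d k207 k138 k154 10 14)))), (.s k207 k138 10
  (.s k205 k206 0 (.s k1 k137 9 (.s k169 k253 13 (.s k168 k171 0 (.s k252 k84 13 (.d k3 k2 k86 0
  14)))))))] (.c k138 (.l (.s k101 k117 3 (.s k32 k239 10 (.s k48 k16 3 (.s k100 k152 13 (.s k102
  k103 0 (.s k34 k238 9 (.d k51 k17 k153 4 14)))))))) (.c k207 (.f k101 k117 3 (.q k48 [(.d k32 k239
  k16 10 3), (.s k100 k152 13 (.s k102 k103 0 (.s k34 k238 9 (.d k51 k17 k153 4 14))))] (.c k223 (.l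
  (.s k239 k32 10 (.s k100 k152 13 (.s k102 k103 0 (.s k34 k238 9 (.d k51 k17 k153 4 14)))))) (.c
  k239 (.q k223 [(.d k16 k32 k154 3 10), (.s k100 k152 13 (.s k102 k103 0 (.s k34 k238 9 (.d k51 k17
  k153 4 14))))] .n) .n)))) .n))) (.c k102 (.q k1 [(.s k169 k253 13 (.s k168 k171 0 (.s k252 k84 13
  (.d k3 k2 k86 0 14)))), (.s k3 k2 0 (.s k136 k68 9 (.s k137 k70 10 (.s k69 k205 9 (.d k138 k139
  k207 0 10))))), (.s k136 k68 9 (.s k153 k187 4 (.s k169 k253 13 (.s k137 k185 3 (.s k69 k205 9 (.d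
  k138 k139 k207 0 10))))))] .n) (.c k119 (.l (.s k136 k68 9 (.s k153 k187 4 (.s k51 k102 14 (.d k17
  k34 k221 4 9))))) (.c k136 (.q k16 [(.s k48 k32 3 (.s k154 k223 10 (.s k138 k186 3 (.d k207 k69
  k101 10 14)))), (.s k48 k32 3 (.s k152 k100 13 (.s k84 k220 9 (.s k86 k87 0 (.s k2 k254 13 (.s k3
  k1 0 (.d k252 k168 k169 13 14)))))))] (.c k32 (.l (.s k154 k223 10 (.s k138 k186 3 (.s k207 k69 10
  (.s k206 k205 0 (.s k102 k50 13 (.s k34 k238 9 (.d k51 k17 k153 4 14)))))))) (.c k48 (.f k154 k223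
  10 (.q k207 [(.d k138 k186 k69 3 10), (.s k206 k205 0 (.s k102 k50 13 (.s k34 k238 9 (.d k51 k17
  k153 4 14))))] (.c k117 (.l (.s k186 k138 3 (.s k206 k205 0 (.s k102 k50 13 (.s k34 k238 9 (.d k51
  k17 k153 4 14)))))) (.c k186 (.q k117 [(.d k69 k101 k138 3 10), (.s k206 k205 0 (.s k102 k50 13
  (.s k34 k238 9 (.d k51 k17 k153 4 14))))] .n) .n)))) .n))) (.c k153 (.q k1 [(.s k169 k253 13 (.s
  k168 k171 0 (.s k252 k84 13 (.d k3 k2 k86 0 14)))), (.s k3 k2 0 (.s k136 k68 9 (.s k137 k70 10 (.s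
  k69 k205 9 (.d k138 k139 k207 0 10))))), (.s k68 k136 9 (.s k102 k119 4 (.s k169 k253 13 (.s k236
  k35 10 (.s k252 k220 3 (.d k168 k171 k84 0 13))))))] .n) (.c k187 (.l (.s k68 k136 9 (.s k102 k119
  4 (.s k51 k153 14 (.d k34 k17 k238 4 9))))) (.c k238 (.l (.s k136 k68 9 (.s k153 k187 4 (.s k17
  k221 9 (.d k51 k34 k102 4 14))))) .n))))))))))))

def t10_165 : T TT 256 :=
  (.f k170 k255 14 (.q k204 [(.s k68 k136 9 (.s k102 k119 4 (.s k34 k238 9 (.d k51 k17 k153 4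
  14))))] (.c k17 (.q k1 [(.s k169 k253 13 (.s k168 k171 0 (.s k252 k84 13 (.d k3 k2 k86 0 14)))),
  (.s k3 k2 0 (.s k136 k68 9 (.s k137 k70 10 (.s k69 k205 9 (.d k138 k139 k207 0 10))))), (.s k68
  k136 9 (.s k102 k119 4 (.s k169 k253 13 (.s k236 k35 10 (.s k252 k220 3 (.d k168 k171 k84 0
  13))))))] .n) (.c k34 (.q k1 [(.s k169 k253 13 (.s k168 k171 0 (.s k252 k84 13 (.d k3 k2 k86 0
  14)))), (.s k3 k2 0 (.s k136 k68 9 (.s k137 k70 10 (.s k69 k205 9 (.d k138 k139 k207 0 10))))),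
  (.s k68 k136 9 (.s k102 k119 4 (.s k169 k253 13 (.s k236 k35 10 (.s k252 k220 3 (.d k168 k171 k84
  0 13))))))] .n) (.c k51 (.f k68 k136 9 (.q k84 [(.s k100 k116 3 (.s k48 k152 13 (.s k32 k16 3 (.d
  k168 k236 k252 9 13)))), (.s k86 k87 0 (.s k2 k254 13 (.s k3 k1 0 (.s k70 k137 10 (.d k102 k119
  k118 4 3)))))] (.c k119 (.q k187 [(.s k100 k116 3 (.s k48 k152 13 (.s k32 k16 3 (.d k168 k236 k252
  9 13)))), (.s k86 k87 0 (.s k2 k254 13 (.s k3 k1 0 (.d k252 k168 k169 13 14)))), (.s k86 k87 0 (.s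
  k116 k100 3 (.s k71 k101 4 (.s k70 k69 0 (.s k3 k137 10 (.d k2 k1 k254 0 13))))))] .n) (.c k187
  (.l (.s k119 k102 4 (.s k86 k87 0 (.s k2 k254 13 (.s k3 k1 0 (.d k252 k168 k169 13 14)))))) (.c
  k252 (.l (.s k86 k87 0 (.s k116 k100 3 (.s k71 k101 4 (.s k70 k69 0 (.d k102 k118 k119 3 4))))))
  .n))))) (.c k68 (.q k2 [(.s k3 k1 0 (.s k86 k254 13 (.s k84 k87 0 (.d k252 k168 k169 13 14)))),
  (.s k3 k1 0 (.s k70 k137 10 (.s k138 k206 9 (.s k154 k186 3 (.s k16 k223 10 (.s k48 k32 3 (.d k207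
  k69 k101 10 14)))))))] (.c k1 (.l (.s k86 k254 13 (.s k84 k87 0 (.s k252 k168 13 (.s k220 k236 3
  (.s k153 k19 10 (.s k17 k221 9 (.d k51 k34 k102 4 14)))))))) (.c k3 (.f k86 k254 13 (.q k252 [(.d
  k84 k87 k168 0 13), (.s k220 k236 3 (.s k153 k19 10 (.s k17 k221 9 (.d k51 k34 k102 4 14))))] (.c
  k87 (.q k171 [(.d k168 k169 k84 0 13), (.s k220 k236 3 (.s k153 k19 10 (.s k17 k221 9 (.d k51 k34
  k102 4 14))))] .n) (.c k171 (.l (.s k87 k84 0 (.s k220 k236 3 (.s k153 k19 10 (.s k17 k221 9 (.d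
  k51 k34 k102 4 14)))))) .n)))) .n))) (.c k102 (.f k68 k136 9 (.q k3 [(.s k2 k1 0 (.s k70 k137 10
  (.s k69 k71 0 (.d k138 k206 k207 9 10)))), (.s k1 k2 0 (.s k169 k253 13 (.s k168 k171 0 (.d k252
  k84 k86 13 14)))), (.s k70 k137 10 (.s k69 k71 0 (.s k101 k117 3 (.s k32 k239 10 (.s k48 k16 3 (.d
  k207 k138 k154 10 14))))))] (.c k39 (.q k228 [(.s k2 k1 0 (.s k70 k137 10 (.s k69 k71 0 (.d k138
  k206 k207 9 10)))), (.s k1 k2 0 (.s k169 k253 13 (.s k168 k171 0 (.d k252 k84 k86 13 14)))), (.s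
  k70 k137 10 (.s k69 k71 0 (.s k101 k117 3 (.s k32 k239 10 (.s k48 k16 3 (.d k207 k138 k154 10
  14))))))] .n) (.c k228 (.q k39 [(.s k2 k1 0 (.s k70 k137 10 (.s k69 k71 0 (.d k138 k206 k207 9
  10)))), (.s k1 k2 0 (.s k169 k253 13 (.s k168 k171 0 (.d k252 k84 k86 13 14)))), (.s k70 k137 10
  (.s k69 k71 0 (.s k101 k117 3 (.s k32 k239 10 (.s k48 k16 3 (.d k207 k138 k154 10 14))))))] .n)
  .n)))) (.c k119 (.l (.s k136 k68 9 (.s k153 k187 4 (.s k51 k102 14 (.d k17 k34 k221 4 9))))) (.c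
  k136 (.q k2 [(.s k3 k1 0 (.s k86 k254 13 (.s k84 k87 0 (.d k252 k168 k169 13 14)))), (.s k3 k1 0
  (.s k70 k137 10 (.s k138 k206 9 (.s k154 k186 3 (.s k16 k223 10 (.s k48 k32 3 (.d k207 k69 k101 10
  14)))))))] (.c k1 (.l (.s k86 k254 13 (.s k84 k87 0 (.s k252 k168 13 (.s k220 k236 3 (.s k153 k19
  10 (.s k17 k221 9 (.d k51 k34 k102 4 14)))))))) (.c k3 (.f k86 k254 13 (.q k252 [(.d k84 k87 k168
  0 13), (.s k220 k236 3 (.s k153 k19 10 (.s k17 k221 9 (.d k51 k34 k102 4 14))))] (.c k87 (.q k171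
  [(.d k168 k169 k84 0 13), (.s k220 k236 3 (.s k153 k19 10 (.s k17 k221 9 (.d k51 k34 k102 4
  14))))] .n) (.c k171 (.l (.s k87 k84 0 (.s k220 k236 3 (.s k153 k19 10 (.s k17 k221 9 (.d k51 k34
  k102 4 14)))))) .n)))) .n))) (.c k153 (.f k68 k136 9 (.q k105 [(.s k40 k235 8 (.s k60 k20 5 (.s
  k65 k125 5 (.d k195 k130 k150 8 14)))), (.s k102 k119 4 (.s k34 k238 9 (.s k51 k17 4 (.s k99 k108
  2 (.s k195 k147 11 (.d k65 k125 k130 5 8)))))), (.s k40 k235 8 (.s k60 k20 5 (.s k102 k119 4 (.d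
  k108 k99 k156 2 11))))] (.c k141 (.q k177 [(.s k40 k235 8 (.s k60 k20 5 (.s k65 k125 5 (.d k195
  k130 k150 8 14)))), (.s k102 k119 4 (.s k34 k238 9 (.s k51 k17 4 (.s k99 k108 2 (.s k195 k147 11
  (.d k65 k125 k130 5 8)))))), (.s k40 k235 8 (.s k60 k20 5 (.s k102 k119 4 (.d k108 k99 k156 2
  11))))] (.c k195 (.l (.s k102 k119 4 (.s k108 k99 2 (.s k60 k156 11 (.d k40 k20 k235 5 8))))) .n))
  (.c k177 (.q k141 [(.s k40 k235 8 (.s k60 k20 5 (.s k65 k125 5 (.d k195 k130 k150 8 14)))), (.s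
  k102 k119 4 (.s k34 k238 9 (.s k51 k17 4 (.s k99 k108 2 (.s k195 k147 11 (.d k65 k125 k130 5
  8)))))), (.s k40 k235 8 (.s k60 k20 5 (.s k102 k119 4 (.d k108 k99 k156 2 11))))] (.c k195 (.l (.s
  k102 k119 4 (.s k108 k99 2 (.s k60 k156 11 (.d k40 k20 k235 5 8))))) .n)) (.c k195 (.l (.s k102
  k119 4 (.s k108 k99 2 (.s k60 k156 11 (.d k40 k20 k235 5 8))))) .n))))) (.c k187 (.l (.s k68 k136
  9 (.s k102 k119 4 (.s k51 k153 14 (.d k34 k17 k238 4 9))))) (.c k238 (.l (.s k136 k68 9 (.s k153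
  k187 4 (.s k17 k221 9 (.d k51 k34 k102 4 14))))) .n))))))))))))

def t10_166 : T TT 256 :=
  (.f k170 k255 14 (.q k60 [(.s k20 k40 5 (.s k150 k215 8 (.s k130 k190 5 (.d k195 k65 k105 8
  14))))] (.c k20 (.q k2 [(.s k3 k1 0 (.s k86 k254 13 (.s k84 k87 0 (.d k252 k168 k169 13 14)))),
  (.s k3 k1 0 (.s k22 k41 6 (.s k42 k62 5 (.s k106 k234 7 (.s k64 k127 6 (.s k192 k128 7 (.d k63 k21
  k149 6 14)))))))] (.c k1 (.l (.s k86 k254 13 (.s k84 k87 0 (.s k252 k168 13 (.s k124 k188 7 (.s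
  k105 k67 6 (.s k65 k125 5 (.d k195 k130 k150 8 14)))))))) (.c k3 (.f k86 k254 13 (.q k252 [(.d k84
  k87 k168 0 13), (.s k124 k188 7 (.s k105 k67 6 (.s k65 k125 5 (.d k195 k130 k150 8 14))))] (.c k87
  (.q k171 [(.d k168 k169 k84 0 13), (.s k124 k188 7 (.s k105 k67 6 (.s k65 k125 5 (.d k195 k130
  k150 8 14))))] .n) (.c k171 (.l (.s k87 k84 0 (.s k124 k188 7 (.s k105 k67 6 (.s k65 k125 5 (.d
  k195 k130 k150 8 14)))))) .n)))) .n))) (.c k40 (.q k2 [(.s k3 k1 0 (.s k86 k254 13 (.s k84 k87 0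
  (.d k252 k168 k169 13 14)))), (.s k3 k1 0 (.s k22 k41 6 (.s k42 k62 5 (.s k106 k234 7 (.s k64 k127
  6 (.s k192 k128 7 (.d k63 k21 k149 6 14)))))))] (.c k1 (.l (.s k86 k254 13 (.s k84 k87 0 (.s k252
  k168 13 (.s k124 k188 7 (.s k105 k67 6 (.s k65 k125 5 (.d k195 k130 k150 8 14)))))))) (.c k3 (.f
  k86 k254 13 (.q k252 [(.d k84 k87 k168 0 13), (.s k124 k188 7 (.s k105 k67 6 (.s k65 k125 5 (.d
  k195 k130 k150 8 14))))] (.c k87 (.q k171 [(.d k168 k169 k84 0 13), (.s k124 k188 7 (.s k105 k67 6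
  (.s k65 k125 5 (.d k195 k130 k150 8 14))))] .n) (.c k171 (.l (.s k87 k84 0 (.s k124 k188 7 (.s
  k105 k67 6 (.s k65 k125 5 (.d k195 k130 k150 8 14)))))) .n)))) .n))) (.c k65 (.q k1 [(.s k169 k253
  13 (.s k168 k171 0 (.s k252 k84 13 (.d k3 k2 k86 0 14)))), (.s k3 k2 0 (.s k40 k20 5 (.s k41 k22 6
  (.s k21 k61 5 (.d k42 k43 k63 0 6))))), (.s k20 k40 5 (.s k150 k215 8 (.s k169 k253 13 (.s k188
  k131 6 (.s k252 k124 7 (.d k168 k171 k84 0 13))))))] .n) (.c k105 (.f k40 k20 5 (.q k3 [(.s k2 k1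
  0 (.s k86 k254 13 (.s k84 k87 0 (.d k252 k168 k169 13 14)))), (.s k41 k22 6 (.s k42 k43 0 (.s k106
  k234 7 (.s k64 k127 6 (.s k192 k128 7 (.d k63 k21 k149 6 14))))))] (.c k44 (.q k227 [(.s k2 k1 0
  (.s k86 k254 13 (.s k84 k87 0 (.d k252 k168 k169 13 14)))), (.s k41 k22 6 (.s k42 k43 0 (.s k106
  k234 7 (.s k64 k127 6 (.s k192 k128 7 (.d k63 k21 k149 6 14))))))] .n) (.c k227 (.q k44 [(.s k2 k1
  0 (.s k86 k254 13 (.s k84 k87 0 (.d k252 k168 k169 13 14)))), (.s k12 k28 3 (.s k8 k4 1 (.s k24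
  k56 3 (.d k36 k32 k48 1 5))))] .n) .n)))) (.c k130 (.q k1 [(.s k169 k253 13 (.s k168 k171 0 (.s
  k252 k84 13 (.d k3 k2 k86 0 14)))), (.s k3 k2 0 (.s k40 k20 5 (.s k41 k22 6 (.s k21 k61 5 (.d k42
  k43 k63 0 6))))), (.s k20 k40 5 (.s k150 k215 8 (.s k169 k253 13 (.s k188 k131 6 (.s k252 k124 7
  (.d k168 k171 k84 0 13))))))] .n) (.c k150 (.f k20 k40 5 (.q k192 [(.s k64 k128 7 (.s k106 k127 6
  (.s k42 k234 7 (.d k63 k21 k149 6 14)))), (.s k148 k104 13 (.s k84 k212 7 (.s k86 k87 0 (.s k2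
  k254 13 (.s k3 k1 0 (.d k252 k168 k169 13 14))))))] (.c k134 (.q k182 [(.s k64 k128 7 (.s k106
  k127 6 (.s k42 k234 7 (.d k63 k21 k149 6 14)))), (.s k148 k104 13 (.s k84 k212 7 (.s k86 k87 0 (.s
  k2 k254 13 (.s k3 k1 0 (.d k252 k168 k169 13 14))))))] .n) (.c k182 (.q k134 [(.s k64 k128 7 (.s
  k106 k127 6 (.s k42 k234 7 (.d k63 k21 k149 6 14)))), (.s k148 k104 13 (.s k84 k212 7 (.s k86 k87
  0 (.s k2 k254 13 (.s k3 k1 0 (.d k252 k168 k169 13 14))))))] .n) .n)))) (.c k190 (.l (.s k40 k20 5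
  (.s k105 k235 8 (.s k65 k125 5 (.d k195 k130 k150 8 14))))) (.c k195 (.f k40 k20 5 (.q k56 [(.s
  k24 k8 3 (.s k48 k52 1 (.s k32 k16 3 (.d k36 k44 k12 1 5)))), (.s k8 k24 3 (.s k251 k89 12 (.s
  k186 k121 8 (.s k154 k138 3 (.d k105 k235 k203 8 12))))), (.s k48 k52 1 (.s k16 k32 3 (.s k154
  k223 10 (.d k105 k235 k203 8 12))))] (.c k16 (.l (.s k24 k8 3 (.s k48 k52 1 (.s k36 k12 5 (.s k32
  k44 1 (.s k101 k239 10 (.s k69 k117 3 (.d k207 k138 k154 10 14)))))))) (.c k215 (.l (.s k235 k105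
  8 (.s k24 k8 3 (.s k48 k52 1 (.s k32 k16 3 (.d k36 k44 k12 1 5)))))) (.c k235 (.q k215 [(.s k24 k8
  3 (.s k48 k52 1 (.s k32 k16 3 (.d k36 k44 k12 1 5)))), (.s k48 k52 1 (.s k16 k32 3 (.s k154 k223
  10 (.s k138 k186 3 (.d k207 k69 k101 10 14))))), (.s k8 k24 3 (.s k12 k4 1 (.s k28 k44 3 (.s k89
  k251 12 (.s k93 k81 1 (.s k211 k150 10 (.d k223 k219 k158 1 8))))))), (.s k8 k24 3 (.s k251 k89 12
  (.s k186 k121 8 (.s k154 k138 3 (.s k16 k223 10 (.d k48 k52 k32 1 3))))))] (.c k16 (.l (.s k24 k8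
  3 (.s k48 k52 1 (.s k36 k12 5 (.s k32 k44 1 (.s k101 k239 10 (.s k69 k117 3 (.d k207 k138 k154 10
  14)))))))) (.c k52 (.q k36 [(.s k8 k24 3 (.s k12 k4 1 (.d k44 k28 k32 3 1))), (.s k32 k44 1 (.s
  k101 k239 10 (.s k69 k117 3 (.s k207 k138 10 (.d k48 k16 k154 3 14)))))] (.c k16 (.l (.s k24 k8 3
  (.s k12 k48 5 (.d k44 k32 k28 1 3)))) (.c k32 (.l (.s k8 k24 3 (.s k12 k4 1 (.s k28 k44 3 (.s k89
  k251 12 (.s k93 k81 1 (.s k211 k150 10 (.d k223 k219 k158 1 8)))))))) (.c k44 (.l (.s k24 k8 3 (.s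
  k48 k12 5 (.s k16 k32 3 (.s k154 k223 10 (.s k138 k186 3 (.d k207 k69 k101 10 14))))))) .n))))
  .n))) .n))))) (.c k215 (.l (.s k40 k20 5 (.s k105 k235 8 (.s k195 k150 14 (.d k65 k125 k130 5
  8))))) (.c k235 (.l (.s k20 k40 5 (.s k150 k215 8 (.s k195 k105 14 (.d k130 k190 k65 5 8)))))
  .n))))))))))))

def t10_167 : T TT 256 :=
  (.f k170 k255 14 (.q k252 [(.s k84 k168 13 (.s k86 k87 0 (.s k2 k254 13 (.d k3 k1 k169 0 14)))),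
  (.s k168 k84 13 (.s k169 k171 0 (.s k1 k253 13 (.d k3 k2 k86 0 14))))] (.c k1 (.q k4 [(.s k12 k8 1
  (.s k166 k247 12 (.s k162 k174 1 (.d k243 k81 k89 12 14)))), (.s k12 k8 1 (.s k84 k168 13 (.s k92
  k172 11 (.s k88 k80 1 (.d k164 k244 k240 11 13))))), (.s k84 k168 13 (.s k86 k87 0 (.s k244 k164
  11 (.s k7 k165 12 (.s k166 k247 12 (.d k6 k5 k246 0 11))))))] .n) (.c k2 (.f k168 k84 13 (.f k171
  k169 0 (.q k192 [(.s k64 k128 7 (.s k106 k127 6 (.s k42 k234 7 (.d k63 k21 k149 6 14)))), (.s k232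
  k212 5 (.s k40 k104 7 (.s k105 k235 8 (.s k65 k125 5 (.s k195 k130 8 (.d k60 k20 k150 5 14))))))]
  (.c k6 (.q k14 [(.s k64 k128 7 (.s k106 k127 6 (.s k42 k234 7 (.d k63 k21 k149 6 14)))), (.s k232
  k212 5 (.s k40 k104 7 (.s k105 k235 8 (.s k65 k125 5 (.s k195 k130 8 (.d k60 k20 k150 5 14))))))]
  (.c k64 (.l (.s k232 k212 5 (.s k104 k40 7 (.s k148 k60 13 (.s k128 k188 5 (.s k149 k191 6 (.s k21
  k213 7 (.d k63 k42 k106 6 14)))))))) .n)) (.c k14 (.q k6 [(.s k64 k128 7 (.s k106 k127 6 (.s k42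
  k234 7 (.d k63 k21 k149 6 14)))), (.s k232 k212 5 (.s k40 k104 7 (.s k105 k235 8 (.s k65 k125 5
  (.s k195 k130 8 (.d k60 k20 k150 5 14))))))] (.c k64 (.l (.s k232 k212 5 (.s k104 k40 7 (.s k148
  k60 13 (.s k128 k188 5 (.s k149 k191 6 (.s k21 k213 7 (.d k63 k42 k106 6 14)))))))) .n)) (.c k64
  (.l (.s k232 k212 5 (.s k104 k40 7 (.s k148 k60 13 (.s k128 k188 5 (.s k149 k191 6 (.s k21 k213 7
  (.d k63 k42 k106 6 14)))))))) .n)))))) (.c k3 (.f k84 k168 13 (.f k87 k86 0 (.q k4 [(.s k166 k247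
  12 (.s k162 k174 1 (.s k243 k81 12 (.d k12 k8 k89 1 14)))), (.s k12 k8 1 (.s k92 k172 11 (.s k88
  k80 1 (.d k164 k244 k240 11 13))))] (.c k8 (.l (.s k164 k244 11 (.s k166 k247 12 (.s k162 k174 1
  (.s k243 k81 12 (.s k12 k89 14 (.s k88 k240 13 (.d k92 k80 k172 1 11)))))))) (.c k12 (.l (.s k244
  k164 11 (.s k240 k248 1 (.s k160 k80 11 (.s k165 k175 2 (.s k245 k5 11 (.d k247 k166 k246 12
  0))))))) .n))))) (.c k84 (.q k150 [(.s k20 k215 8 (.s k60 k40 5 (.s k130 k190 5 (.d k195 k65 k105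
  8 14)))), (.s k130 k190 5 (.s k195 k65 8 (.s k214 k233 6 (.s k86 k22 7 (.s k2 k254 13 (.d k3 k1
  k169 0 14)))))), (.s k20 k215 8 (.s k60 k40 5 (.s k188 k124 7 (.s k169 k131 6 (.s k1 k253 13 (.d
  k3 k2 k86 0 14))))))] (.c k60 (.q k166 [(.s k162 k174 1 (.s k243 k81 12 (.s k12 k89 14 (.d k4 k8
  k247 1 12)))), (.s k174 k162 1 (.s k182 k134 3 (.s k190 k130 5 (.s k142 k158 3 (.d k178 k186 k154
  1 5))))), (.s k4 k247 12 (.s k20 k215 8 (.s k52 k36 3 (.s k134 k182 3 (.d k199 k69 k101 8 12)))))]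
  (.c k125 (.l (.s k190 k130 5 (.s k4 k247 12 (.s k12 k8 1 (.s k162 k174 1 (.d k243 k81 k89 12
  14)))))) (.c k190 (.q k125 [(.s k162 k174 1 (.s k243 k81 12 (.s k12 k89 14 (.d k4 k8 k247 1
  12)))), (.s k182 k134 3 (.s k215 k20 8 (.s k247 k4 12 (.s k52 k117 8 (.d k199 k231 k101 3 12))))),
  (.s k65 k105 5 (.s k130 k195 8 (.s k134 k182 3 (.s k142 k138 1 (.s k162 k174 1 (.d k178 k146 k154
  3 5))))))] .n) .n))) (.c k195 (.q k1 [(.s k169 k253 13 (.d k3 k2 k86 0 14)), (.s k130 k190 5 (.s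
  k169 k253 13 (.s k131 k188 6 (.s k128 k129 0 (.s k171 k168 0 (.d k191 k151 k149 5 6)))))), (.s k2
  k3 0 (.s k86 k254 13 (.s k22 k214 7 (.s k42 k62 5 (.s k21 k63 6 (.d k20 k23 k215 0 8))))))] (.c
  k215 (.q k235 [(.s k169 k253 13 (.d k3 k2 k86 0 14)), (.s k40 k105 8 (.s k60 k20 5 (.s k169 k253
  13 (.d k188 k131 k124 6 7)))), (.s k2 k3 0 (.s k86 k254 13 (.s k22 k214 7 (.s k62 k42 5 (.s k130
  k190 5 (.d k194 k66 k106 7 13))))))] .n) (.c k235 (.l (.s k215 k20 8 (.s k3 k2 0 (.d k169 k253 k86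
  13 14)))) .n))) .n))) (.c k86 (.q k4 [(.s k166 k247 12 (.s k162 k174 1 (.s k243 k81 12 (.d k12 k8
  k89 1 14)))), (.s k12 k8 1 (.s k84 k168 13 (.s k92 k172 11 (.s k88 k80 1 (.d k164 k244 k240 11
  13)))))] (.c k8 (.l (.s k166 k247 12 (.s k162 k174 1 (.s k168 k84 13 (.s k169 k171 0 (.s k243 k81
  12 (.s k12 k89 14 (.d k172 k163 k92 2 11)))))))) (.c k12 (.l (.s k84 k168 13 (.s k244 k164 11 (.s
  k240 k248 1 (.s k160 k80 11 (.s k165 k175 2 (.s k245 k5 11 (.d k247 k166 k246 12 0)))))))) .n)))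
  (.c k87 (.l (.s k168 k84 13 (.s k169 k171 0 (.s k3 k86 14 (.d k1 k2 k253 0 13))))) (.c k168 (.q
  k101 [(.s k32 k239 10 (.s k48 k16 3 (.s k69 k117 3 (.d k207 k138 k154 10 14)))), (.s k69 k117 3
  (.s k207 k138 10 (.s k237 k222 4 (.s k169 k33 9 (.s k1 k253 13 (.d k3 k2 k86 0 14)))))), (.s k32
  k239 10 (.s k48 k16 3 (.s k116 k184 9 (.s k86 k71 4 (.s k2 k254 13 (.d k3 k1 k169 0 14))))))] (.c
  k48 (.q k116 [(.s k86 k71 4 (.s k2 k254 13 (.d k3 k1 k169 0 14))), (.s k117 k69 3 (.s k118 k119 0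
  (.s k51 k185 10 (.s k17 k34 4 (.s k153 k221 9 (.s k136 k187 4 (.d k204 k68 k102 9 14)))))))] (.c
  k117 (.q k186 [(.s k86 k71 4 (.s k2 k254 13 (.d k3 k1 k169 0 14))), (.s k71 k86 4 (.s k138 k154 3
  (.s k69 k207 10 (.s k68 k70 0 (.s k100 k84 3 (.d k102 k103 k119 0 4))))))] (.c k71 (.l (.s k138
  k154 3 (.s k207 k69 10 (.s k237 k222 4 (.s k169 k33 9 (.s k1 k253 13 (.d k3 k86 k2 14 0))))))) (.c
  k86 (.q k1 [(.s k138 k154 3 (.s k169 k253 13 (.s k207 k69 10 (.d k237 k222 k33 4 9)))), (.s k3 k2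
  0 (.s k138 k154 3 (.s k69 k207 10 (.s k137 k205 9 (.s k204 k70 10 (.d k136 k139 k68 0 9)))))), (.s
  k32 k239 10 (.s k169 k253 13 (.s k33 k237 9 (.s k34 k35 0 (.d k17 k49 k51 3 4)))))] (.c k207 (.l
  (.s k154 k138 3 (.s k32 k239 10 (.s k223 k16 10 (.s k169 k253 13 (.s k33 k237 9 (.s k34 k35 0 (.d
  k17 k49 k51 3 4)))))))) .n)) .n))) (.c k186 (.l (.s k117 k69 3 (.s k86 k71 4 (.s k2 k254 13 (.d k3
  k1 k169 0 14))))) .n))) (.c k207 (.q k71 [(.s k86 k116 4 (.s k2 k254 13 (.d k3 k1 k169 0 14))),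
  (.s k69 k117 3 (.s k68 k70 0 (.s k102 k119 4 (.s k34 k238 9 (.s k51 k17 4 (.d k204 k136 k153 9
  14))))))] (.c k116 (.l (.s k69 k117 3 (.s k68 k70 0 (.s k119 k102 4 (.s k87 k103 3 (.s k86 k84 0
  (.s k2 k254 13 (.d k3 k1 k169 0 14)))))))) (.c k223 (.l (.s k239 k32 10 (.s k86 k116 4 (.s k2 k254
  13 (.d k3 k1 k169 0 14))))) (.c k239 (.q k223 [(.s k86 k116 4 (.s k2 k254 13 (.d k3 k1 k169 0
  14))), (.s k16 k154 10 (.s k69 k117 3 (.s k68 k70 0 (.s k204 k136 9 (.s k220 k236 3 (.s k152 k84 9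
  (.d k48 k32 k100 3 13)))))))] .n) .n)))) .n))) (.c k169 (.q k4 [(.s k166 k247 12 (.s k162 k174 1
  (.s k243 k81 12 (.d k12 k8 k89 1 14)))), (.s k12 k8 1 (.s k84 k168 13 (.s k164 k244 11 (.s k88
  k240 13 (.d k92 k80 k172 1 11))))), (.s k84 k168 13 (.s k86 k87 0 (.s k244 k164 11 (.s k7 k165 12
  (.s k166 k247 12 (.d k6 k5 k246 0 11))))))] .n) (.c k171 (.l (.s k84 k168 13 (.s k86 k87 0 (.s k3
  k169 14 (.d k2 k1 k254 0 13))))) .n)))))))))))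

def t10_171 : T TT 256 :=
  (.q k89 [(.s k81 k93 1 (.s k243 k162 12 (.s k12 k166 14 (.s k8 k4 1 (.d k170 k251 k255 12 14)))))]
  (.c k4 (.q k1 [(.s k81 k93 1 (.s k241 k161 11 (.s k13 k165 13 (.s k169 k253 13 (.d k9 k5 k249 1
  11))))), (.s k3 k2 0 (.s k81 k93 1 (.s k161 k241 11 (.s k82 k240 12 (.s k83 k80 0 (.d k243 k163
  k162 11 12)))))), (.s k3 k2 0 (.s k169 k253 13 (.s k9 k249 11 (.s k86 k252 14 (.s k83 k92 2 (.s
  k243 k163 11 (.d k12 k6 k166 2 14)))))))] (.c k241 (.l (.s k3 k2 0 (.s k81 k93 1 (.s k169 k253 13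
  (.s k86 k252 14 (.s k83 k92 2 (.d k243 k163 k162 11 12))))))) .n)) (.c k8 (.l (.s k81 k93 1 (.s
  k243 k162 12 (.s k166 k12 14 (.s k247 k4 12 (.d k255 k251 k170 1 14)))))) (.c k12 (.q k16 [(.s k48
  k32 3 (.s k154 k223 10 (.s k101 k207 14 (.s k117 k69 3 (.d k255 k186 k170 10 14))))), (.s k81 k93
  1 (.s k154 k223 10 (.s k24 k219 8 (.s k28 k20 1 (.d k211 k146 k150 8 10))))), (.s k48 k32 3 (.s
  k81 k93 1 (.s k146 k211 8 (.s k97 k195 12 (.s k113 k65 3 (.d k243 k178 k162 8 12))))))] (.c k255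
  (.l (.s k93 k81 1 (.s k223 k154 10 (.s k28 k158 8 (.s k20 k24 1 (.d k150 k215 k211 8 10)))))) .n))
  (.c k81 (.q k16 [(.s k48 k32 3 (.s k154 k223 10 (.s k101 k207 14 (.s k117 k69 3 (.d k255 k186 k170
  10 14))))), (.s k48 k32 3 (.s k154 k223 10 (.s k24 k219 8 (.s k12 k36 5 (.s k4 k8 1 (.d k166 k247
  k243 12 14)))))), (.s k154 k223 10 (.s k24 k219 8 (.s k20 k28 1 (.s k40 k60 5 (.s k170 k255 14 (.d
  k8 k56 k251 3 12)))))), (.s k48 k32 3 (.s k170 k255 14 (.s k8 k251 12 (.s k12 k4 1 (.s k24 k36 5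
  (.s k20 k28 1 (.d k40 k56 k60 3 5)))))))] .n) (.c k93 (.q k16 [(.s k48 k32 3 (.s k154 k223 10 (.s
  k101 k207 14 (.s k117 k69 3 (.d k255 k186 k170 10 14))))), (.s k48 k32 3 (.s k154 k223 10 (.s k24
  k219 8 (.s k12 k36 5 (.s k4 k8 1 (.d k166 k247 k243 12 14)))))), (.s k48 k32 3 (.s k170 k255 14
  (.s k8 k251 12 (.s k12 k4 1 (.s k24 k36 5 (.s k40 k56 3 (.d k20 k28 k60 1 5))))))), (.s k154 k223
  10 (.s k24 k219 8 (.s k170 k255 14 (.s k8 k251 12 (.s k40 k56 3 (.d k20 k28 k60 1 5))))))] (.c k28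
  (.l (.s k48 k32 3 (.s k255 k170 14 (.s k117 k186 10 (.s k101 k69 3 (.d k154 k223 k207 10 14))))))
  .n)) (.c k162 (.l (.s k93 k81 1 (.s k255 k170 14 (.s k12 k174 12 (.s k166 k243 14 (.d k4 k8 k247 1
  12)))))) (.c k166 (.q k1 [(.s k81 k93 1 (.s k241 k161 11 (.s k165 k13 13 (.s k245 k5 11 (.d k253
  k249 k169 1 13))))), (.s k3 k2 0 (.s k81 k93 1 (.s k161 k241 11 (.s k82 k240 12 (.s k83 k80 0 (.d
  k243 k163 k162 11 12)))))), (.s k3 k2 0 (.s k169 k253 13 (.s k9 k249 11 (.s k170 k255 14 (.s k8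
  k251 12 (.d k12 k6 k4 2 1))))))] (.c k241 (.l (.s k3 k2 0 (.s k81 k93 1 (.s k169 k253 13 (.s k86
  k252 14 (.s k83 k92 2 (.d k243 k163 k162 11 12))))))) .n)) (.c k170 (.f k81 k93 1 (.q k90 [(.s k80
  k95 2 (.s k83 k82 0 (.s k88 k91 0 (.d k92 k84 k86 1 2)))), (.s k91 k88 0 (.s k243 k162 12 (.s k15
  k167 13 (.s k165 k240 14 (.s k13 k241 13 (.d k12 k166 k14 14 0)))))), (.s k80 k95 2 (.s k240 k160
  11 (.s k165 k15 14 (.s k241 k13 13 (.d k243 k242 k162 0 12)))))] (.c k168 (.q k169 [(.s k1 k253 13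
  (.s k9 k249 11 (.s k13 k5 1 (.d k241 k161 k165 11 13)))), (.s k80 k95 2 (.s k83 k82 0 (.s k88 k91
  0 (.d k92 k84 k86 1 2))))] .n) (.c k169 (.q k168 [(.s k80 k95 2 (.s k84 k252 13 (.d k88 k92 k91 1
  0))), (.s k88 k91 0 (.s k8 k248 11 (.s k12 k4 1 (.d k243 k162 k166 12 14)))), (.s k80 k95 2 (.s
  k83 k82 0 (.s k84 k252 13 (.d k86 k92 k87 2 0))))] .n) .n)))) (.c k174 (.l (.s k81 k93 1 (.s k243
  k162 12 (.s k12 k166 14 (.s k170 k255 14 (.d k8 k4 k251 1 12)))))) (.c k243 (.q k13 [(.s k81 k93 1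
  (.s k241 k165 13 (.s k1 k161 11 (.s k9 k5 1 (.d k169 k249 k253 11 13))))), (.s k165 k241 13 (.s
  k170 k255 14 (.s k160 k175 2 (.s k240 k80 11 (.s k15 k90 14 (.s k12 k14 0 (.d k8 k251 k4 12
  1))))))), (.s k93 k81 1 (.s k173 k253 11 (.s k255 k170 14 (.s k12 k174 12 (.s k15 k14 0 (.s k94
  k252 12 (.d k95 k92 k175 0 11)))))))] .n) (.c k251 (.l (.s k93 k81 1 (.s k255 k170 14 (.s k12 k174
  12 (.s k4 k8 1 (.d k166 k247 k243 12 14)))))) (.c k255 (.q k3 [(.s k2 k1 0 (.s k81 k93 1 (.s k162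
  k243 12 (.s k82 k242 11 (.s k80 k83 0 (.d k240 k160 k161 11 12)))))), (.s k1 k2 0 (.s k169 k253 13
  (.s k249 k9 11 (.s k252 k86 14 (.s k243 k246 2 (.s k163 k83 11 (.d k166 k172 k12 2 14))))))), (.s
  k1 k2 0 (.s k93 k81 1 (.s k253 k169 13 (.s k13 k173 11 (.s k5 k9 1 (.d k165 k245 k241 11 13)))))),
  (.s k81 k93 1 (.s k243 k162 12 (.s k83 k163 11 (.s k86 k92 2 (.s k84 k87 0 (.d k252 k168 k169 13
  14))))))] .n) .n)))))))))))))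

def t10_175 : T TT 256 :=
  (.q k86 [(.s k84 k87 0 (.s k252 k168 13 (.s k169 k3 14 (.s k253 k1 13 (.d k255 k254 k170 0
  14)))))] (.c k1 (.q k4 [(.s k84 k87 0 (.s k166 k247 12 (.s k6 k246 11 (.s k244 k164 11 (.d k7 k5
  k165 0 12))))), (.s k12 k8 1 (.s k166 k247 12 (.s k89 k243 14 (.s k93 k81 1 (.d k255 k174 k170 12
  14))))), (.s k12 k8 1 (.s k84 k87 0 (.s k164 k244 11 (.s k88 k240 13 (.s k92 k80 1 (.d k252 k172
  k168 11 13))))))] .n) (.c k3 (.q k4 [(.s k84 k87 0 (.s k166 k247 12 (.s k6 k246 11 (.s k7 k5 0 (.d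
  k244 k164 k165 11 12))))), (.s k12 k8 1 (.s k166 k247 12 (.s k89 k243 14 (.s k93 k81 1 (.d k255
  k174 k170 12 14))))), (.s k12 k8 1 (.s k84 k87 0 (.s k164 k244 11 (.s k88 k240 13 (.s k92 k80 1
  (.d k252 k172 k168 11 13))))))] (.c k255 (.l (.s k87 k84 0 (.s k247 k166 12 (.s k7 k167 11 (.s k5
  k6 0 (.d k165 k245 k244 11 12)))))) .n)) (.c k84 (.q k16 [(.s k48 k32 3 (.s k154 k223 10 (.s k101
  k207 14 (.s k117 k69 3 (.d k255 k186 k170 10 14))))), (.s k48 k32 3 (.s k154 k223 10 (.s k18 k222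
  9 (.s k3 k33 4 (.s k1 k2 0 (.d k169 k253 k252 13 14)))))), (.s k154 k223 10 (.s k18 k222 9 (.s k17
  k19 0 (.s k34 k51 4 (.s k170 k255 14 (.d k2 k50 k254 3 13)))))), (.s k48 k32 3 (.s k170 k255 14
  (.s k2 k254 13 (.s k3 k1 0 (.s k18 k33 4 (.s k17 k19 0 (.d k34 k50 k51 3 4)))))))] .n) (.c k87 (.q
  k16 [(.s k48 k32 3 (.s k154 k223 10 (.s k101 k207 14 (.s k117 k69 3 (.d k255 k186 k170 10 14))))),
  (.s k48 k32 3 (.s k154 k223 10 (.s k18 k222 9 (.s k3 k33 4 (.s k1 k2 0 (.d k169 k253 k252 13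
  14)))))), (.s k48 k32 3 (.s k170 k255 14 (.s k2 k254 13 (.s k3 k1 0 (.s k18 k33 4 (.s k34 k50 3
  (.d k17 k19 k51 0 4))))))), (.s k154 k223 10 (.s k18 k222 9 (.s k170 k255 14 (.s k2 k254 13 (.s
  k34 k50 3 (.d k17 k19 k51 0 4))))))] (.c k19 (.l (.s k48 k32 3 (.s k255 k170 14 (.s k117 k186 10
  (.s k101 k69 3 (.d k154 k223 k207 10 14)))))) .n)) (.c k168 (.l (.s k87 k84 0 (.s k255 k170 14 (.s
  k3 k171 13 (.s k169 k252 14 (.d k1 k2 k253 0 13)))))) (.c k169 (.q k4 [(.s k84 k87 0 (.s k166 k247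
  12 (.s k6 k246 11 (.s k7 k5 0 (.d k244 k164 k165 11 12))))), (.s k12 k8 1 (.s k166 k247 12 (.s k89
  k243 14 (.s k93 k81 1 (.d k255 k174 k170 12 14))))), (.s k12 k8 1 (.s k84 k87 0 (.s k164 k244 11
  (.s k88 k240 13 (.s k92 k80 1 (.d k252 k172 k168 11 13))))))] .n) (.c k170 (.f k84 k87 0 (.q k165
  [(.s k244 k7 12 (.s k4 k164 11 (.s k245 k5 11 (.d k247 k246 k166 0 12)))), (.s k5 k245 11 (.s k252
  k168 13 (.s k169 k3 14 (.s k1 k253 13 (.s k13 k9 1 (.s k161 k173 1 (.d k241 k81 k89 11 13))))))),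
  (.s k244 k7 12 (.s k252 k168 13 (.s k240 k248 1 (.s k80 k160 11 (.d k90 k95 k15 2 14)))))] (.c k90
  (.q k250 [(.s k244 k7 12 (.s k4 k164 11 (.s k245 k5 11 (.d k247 k246 k166 0 12)))), (.s k245 k5 11
  (.s k252 k168 13 (.s k169 k3 14 (.s k253 k1 13 (.d k255 k254 k240 0 2)))))] (.c k5 (.l (.s k244 k7
  12 (.s k4 k164 11 (.s k247 k166 12 (.s k245 k246 0 (.s k240 k255 2 (.d k252 k248 k168 1 13)))))))
  (.c k245 (.l (.s k244 k7 12 (.s k164 k4 11 (.s k252 k168 13 (.s k240 k248 1 (.s k80 k160 11 (.d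
  k88 k92 k12 1 13))))))) .n))) (.c k250 (.q k90 [(.s k240 k15 14 (.d k80 k95 k160 2 11)), (.s k244
  k7 12 (.s k4 k164 11 (.s k245 k5 11 (.d k247 k246 k166 0 12))))] .n) .n)))) (.c k171 (.l (.s k84
  k87 0 (.s k252 k168 13 (.s k3 k169 14 (.s k170 k255 14 (.d k2 k1 k254 0 13)))))) (.c k252 (.q k8
  [(.s k12 k4 1 (.s k170 k255 14 (.s k89 k251 12 (.s k81 k93 1 (.d k243 k162 k166 12 14))))), (.s k4
  k12 1 (.s k84 k87 0 (.s k166 k247 12 (.s k6 k246 11 (.s k7 k5 0 (.d k244 k164 k165 11 12)))))),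
  (.s k84 k87 0 (.s k170 k255 14 (.s k89 k251 12 (.s k92 k83 2 (.s k80 k88 1 (.s k93 k81 1 (.d k95
  k94 k90 0 2)))))))] (.c k243 (.l (.s k4 k12 1 (.s k84 k87 0 (.s k166 k247 12 (.s k244 k164 11 (.s
  k7 k165 12 (.d k6 k5 k246 0 11))))))) (.c k247 (.l (.s k12 k4 1 (.s k170 k255 14 (.s k89 k251 12
  (.s k243 k166 14 (.d k81 k93 k162 1 12)))))) .n))) (.c k253 (.l (.s k84 k87 0 (.s k170 k255 14 (.s
  k2 k254 13 (.s k252 k168 13 (.d k3 k1 k169 0 14)))))) (.c k254 (.l (.s k87 k84 0 (.s k255 k170 14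
  (.s k3 k171 13 (.s k1 k2 0 (.d k169 k253 k252 13 14)))))) (.c k255 (.q k126 [(.s k87 k84 0 (.s
  k106 k66 5 (.s k127 k64 6 (.s k67 k107 5 (.d k124 k125 k105 0 6))))), (.s k84 k87 0 (.s k252 k168
  13 (.s k3 k169 14 (.s k63 k189 8 (.s k21 k42 6 (.s k149 k213 7 (.d k23 k43 k212 5 8))))))), (.s
  k106 k66 5 (.s k64 k127 6 (.s k192 k128 7 (.s k63 k149 14 (.s k252 k189 8 (.s k232 k212 5 (.d k169
  k43 k3 8 14)))))))] (.c k15 (.q k95 [(.s k87 k84 0 (.s k106 k66 5 (.s k127 k64 6 (.s k67 k107 5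
  (.d k124 k125 k105 0 6))))), (.s k80 k90 2 (.s k84 k87 0 (.s k92 k88 1 (.s k89 k83 2 (.d k93 k94
  k81 0 1))))), (.s k66 k106 5 (.s k90 k80 2 (.s k82 k94 1 (.s k114 k98 3 (.s k102 k78 5 (.d k118
  k122 k70 1 3))))))] .n) (.c k95 (.q k15 [(.s k87 k84 0 (.s k106 k66 5 (.s k127 k64 6 (.s k67 k107
  5 (.d k124 k125 k105 0 6))))), (.s k84 k87 0 (.s k252 k168 13 (.s k3 k169 14 (.s k7 k11 1 (.s k94
  k173 12 (.s k90 k82 1 (.d k165 k244 k240 12 14))))))), (.s k106 k66 5 (.s k64 k127 6 (.s k192 k128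
  7 (.s k63 k149 14 (.s k252 k189 8 (.s k232 k212 5 (.d k169 k43 k3 8 14)))))))] .n) .n)))
  .n)))))))))))))

def t10_176 : T TT 256 :=
  (.f k170 k255 14 (.q k252 [(.s k84 k168 13 (.s k86 k87 0 (.s k2 k254 13 (.d k3 k1 k169 0 14))))]
  (.c k1 (.q k4 [(.s k12 k8 1 (.s k166 k247 12 (.s k162 k174 1 (.d k243 k81 k89 12 14)))), (.s k12
  k8 1 (.s k84 k168 13 (.s k92 k172 11 (.s k88 k80 1 (.d k164 k244 k240 11 13))))), (.s k84 k168 13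
  (.s k86 k87 0 (.s k166 k247 12 (.s k6 k246 11 (.s k7 k5 0 (.d k244 k164 k165 11 12))))))] (.c k9
  (.l (.s k166 k247 12 (.s k162 k174 1 (.s k243 k81 12 (.d k12 k8 k89 1 14))))) .n)) (.c k2 (.f k84
  k168 13 (.f k86 k87 0 (.f k3 k169 14 (.q k6 [(.s k12 k9 2 (.s k166 k246 11 (.d k4 k8 k247 1 12))),
  (.s k166 k246 11 (.s k4 k247 12 (.s k7 k5 0 (.d k244 k164 k165 11 12)))), (.s k12 k9 2 (.s k92
  k172 11 (.s k89 k83 2 (.d k166 k246 k243 11 14)))), (.s k12 k9 2 (.s k8 k4 1 (.s k89 k251 12 (.d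
  k92 k83 k172 2 11))))] .n)))) (.c k3 (.f k168 k84 13 (.q k192 [(.s k64 k128 7 (.s k106 k127 6 (.s
  k42 k234 7 (.d k63 k21 k149 6 14)))), (.s k232 k212 5 (.s k40 k104 7 (.s k105 k235 8 (.s k65 k125
  5 (.s k195 k130 8 (.d k60 k20 k150 5 14))))))] (.c k64 (.l (.s k232 k212 5 (.s k104 k40 7 (.s k148
  k60 13 (.s k128 k188 5 (.s k149 k191 6 (.s k21 k213 7 (.d k63 k42 k106 6 14)))))))) (.c k87 (.l
  (.s k171 k169 0 (.s k64 k128 7 (.s k106 k127 6 (.s k42 k234 7 (.d k63 k21 k149 6 14)))))) (.c k171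
  (.q k87 [(.s k64 k128 7 (.s k106 k127 6 (.s k42 k234 7 (.d k63 k21 k149 6 14)))), (.s k232 k212 5
  (.s k40 k104 7 (.s k105 k235 8 (.s k65 k125 5 (.s k195 k130 8 (.d k60 k20 k150 5 14))))))] (.c k64
  (.l (.s k232 k212 5 (.s k104 k40 7 (.s k148 k60 13 (.s k128 k188 5 (.s k149 k191 6 (.s k21 k213 7
  (.d k63 k42 k106 6 14)))))))) .n)) .n))))) (.c k84 (.q k105 [(.s k40 k235 8 (.s k65 k125 5 (.s
  k195 k130 8 (.d k60 k20 k150 5 14)))), (.s k65 k125 5 (.s k195 k130 8 (.s k233 k214 6 (.s k169 k41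
  7 (.s k1 k253 13 (.d k3 k2 k86 0 14)))))), (.s k40 k235 8 (.s k60 k20 5 (.s k124 k188 7 (.s k86
  k67 6 (.s k2 k254 13 (.d k3 k1 k169 0 14))))))] (.c k60 (.q k149 [(.s k21 k213 7 (.s k63 k42 6 (.s
  k192 k106 14 (.d k128 k191 k64 6 7)))), (.s k21 k213 7 (.s k61 k193 13 (.s k1 k41 5 (.s k3 k2 0
  (.d k169 k253 k86 13 14))))), (.s k128 k191 6 (.s k192 k64 7 (.s k193 k61 13 (.s k195 k194 0 (.d
  k65 k125 k130 5 8)))))] (.c k125 (.q k190 [(.s k21 k213 7 (.s k63 k42 6 (.s k128 k191 6 (.d k192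
  k64 k106 7 14)))), (.s k21 k213 7 (.s k61 k193 13 (.s k1 k41 5 (.s k3 k2 0 (.d k169 k253 k86 13
  14))))), (.s k128 k191 6 (.s k130 k150 5 (.s k65 k195 8 (.s k129 k131 0 (.d k193 k1 k61 7 13)))))]
  .n) (.c k190 (.l (.s k125 k65 5 (.s k21 k213 7 (.s k61 k193 13 (.s k1 k41 5 (.d k253 k189 k169 7
  13)))))) (.c k192 (.l (.s k61 k193 13 (.s k125 k65 5 (.s k189 k253 7 (.s k63 k126 8 (.d k21 k213
  k42 7 6)))))) .n)))) (.c k195 (.q k128 [(.s k192 k64 7 (.s k149 k191 6 (.s k63 k106 14 (.d k21 k42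
  k213 6 7)))), (.s k64 k192 7 (.s k65 k125 5 (.s k67 k66 0 (.s k86 k124 6 (.s k2 k254 13 (.d k3 k1
  k169 0 14)))))), (.s k65 k125 5 (.s k149 k191 6 (.s k193 k61 13 (.s k1 k129 7 (.s k3 k2 0 (.d k169
  k253 k86 13 14))))))] (.c k127 (.l (.s k192 k64 7 (.s k149 k191 6 (.s k63 k106 14 (.d k21 k42 k213
  6 7))))) (.c k215 (.l (.s k235 k40 8 (.s k149 k191 6 (.s k21 k213 7 (.s k63 k42 6 (.d k192 k64
  k106 7 14)))))) (.c k235 (.q k215 [(.s k20 k150 8 (.s k60 k40 5 (.s k188 k124 7 (.s k148 k168 5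
  (.d k192 k64 k104 7 13))))), (.s k149 k191 6 (.s k21 k213 7 (.s k63 k42 6 (.d k192 k64 k106 7
  14)))), (.s k20 k150 8 (.s k60 k40 5 (.s k124 k188 7 (.s k86 k67 6 (.s k2 k254 13 (.d k3 k169 k1
  14 0))))))] .n) .n)))) .n))) (.c k86 (.q k4 [(.s k166 k247 12 (.s k162 k174 1 (.s k243 k81 12 (.d
  k12 k8 k89 1 14)))), (.s k12 k8 1 (.s k84 k168 13 (.s k92 k172 11 (.s k88 k80 1 (.d k164 k244 k240
  11 13)))))] (.c k8 (.l (.s k166 k247 12 (.s k162 k174 1 (.s k168 k84 13 (.s k169 k171 0 (.s k172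
  k163 2 (.s k12 k92 11 (.d k243 k89 k81 14 12)))))))) (.c k12 (.l (.s k84 k168 13 (.s k244 k164 11
  (.s k240 k248 1 (.s k160 k80 11 (.s k165 k175 2 (.s k245 k5 11 (.d k247 k246 k166 0 12))))))))
  .n))) (.c k87 (.l (.s k168 k84 13 (.s k169 k171 0 (.s k3 k86 14 (.d k1 k2 k253 0 13))))) (.c k168
  (.q k102 [(.s k34 k238 9 (.s k51 k17 4 (.s k68 k119 4 (.d k204 k136 k153 9 14)))), (.s k68 k119 4
  (.s k204 k136 9 (.s k236 k220 3 (.s k169 k35 10 (.s k1 k253 13 (.d k3 k2 k86 0 14)))))), (.s k34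
  k238 9 (.s k51 k17 4 (.s k118 k185 10 (.s k86 k70 3 (.s k2 k254 13 (.d k3 k1 k169 0 14))))))] (.c
  k51 (.q k149 [(.s k55 k196 12 (.s k119 k68 4 (.s k247 k183 7 (.s k4 k166 12 (.d k21 k38 k213 4
  7))))), (.s k21 k213 7 (.s k63 k42 6 (.s k128 k191 6 (.d k192 k64 k106 7 14)))), (.s k128 k191 6
  (.s k192 k64 7 (.s k196 k55 12 (.s k204 k200 1 (.d k68 k119 k136 4 9)))))] (.c k119 (.q k187 [(.s
  k21 k213 7 (.s k63 k42 6 (.s k192 k106 14 (.d k128 k191 k64 6 7)))), (.s k128 k191 6 (.s k136 k153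
  4 (.s k68 k204 9 (.s k132 k140 1 (.d k196 k4 k55 7 12))))), (.s k21 k213 7 (.s k34 k238 9 (.s k55
  k196 12 (.s k38 k4 4 (.d k42 k46 k63 1 6)))))] (.c k63 (.l (.s k153 k136 4 (.s k157 k145 1 (.s
  k191 k128 6 (.s k140 k174 4 (.d k179 k183 k166 1 6)))))) .n)) (.c k187 (.l (.s k119 k68 4 (.s k21
  k213 7 (.s k55 k196 12 (.s k4 k38 4 (.d k247 k183 k166 7 12)))))) .n))) (.c k204 (.f k119 k68 4
  (.q k48 [(.s k32 k16 3 (.s k101 k239 10 (.s k69 k117 3 (.d k207 k138 k154 10 14)))), (.s k116 k184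
  9 (.s k118 k117 0 (.s k51 k185 10 (.d k34 k238 k17 9 4))))] (.c k117 (.l (.s k16 k32 3 (.s k154
  k223 10 (.s k138 k186 3 (.d k207 k69 k101 10 14))))) (.c k221 (.l (.s k238 k34 9 (.s k16 k32 3 (.s
  k154 k223 10 (.s k138 k186 3 (.d k207 k69 k101 10 14)))))) (.c k238 (.q k221 [(.s k16 k32 3 (.s
  k154 k223 10 (.s k207 k101 14 (.d k138 k186 k69 3 10)))), (.s k17 k153 9 (.s k51 k34 4 (.s k116
  k184 9 (.d k118 k117 k185 0 10))))] .n) .n))))) .n))) (.c k169 (.q k4 [(.s k166 k247 12 (.s k162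
  k174 1 (.s k243 k81 12 (.d k12 k8 k89 1 14)))), (.s k12 k8 1 (.s k84 k168 13 (.s k164 k244 11 (.s
  k88 k240 13 (.d k92 k80 k172 1 11))))), (.s k84 k168 13 (.s k86 k87 0 (.s k166 k247 12 (.s k6 k246
  11 (.s k7 k5 0 (.d k244 k164 k165 11 12))))))] .n) (.c k171 (.l (.s k84 k168 13 (.s k86 k87 0 (.s
  k3 k169 14 (.d k2 k1 k254 0 13))))) (.c k254 (.l (.s k168 k84 13 (.s k169 k171 0 (.s k1 k253 13
  (.d k3 k2 k86 0 14))))) .n))))))))))))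

def t10_177 : T TT 256 :=
  (.f k170 k255 14 (.q k252 [(.s k84 k168 13 (.s k86 k87 0 (.s k2 k254 13 (.d k3 k1 k169 0 14))))]
  (.c k1 (.q k4 [(.s k12 k8 1 (.s k166 k247 12 (.s k162 k174 1 (.d k243 k81 k89 12 14)))), (.s k12
  k8 1 (.s k84 k168 13 (.s k92 k172 11 (.s k88 k80 1 (.d k164 k244 k240 11 13))))), (.s k84 k168 13
  (.s k86 k87 0 (.s k166 k247 12 (.s k6 k246 11 (.s k7 k5 0 (.d k244 k164 k165 11 12))))))] (.c k9
  (.l (.s k166 k247 12 (.s k162 k174 1 (.s k243 k81 12 (.d k12 k8 k89 1 14))))) .n)) (.c k2 (.f k84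
  k168 13 (.f k86 k87 0 (.f k3 k169 14 (.q k6 [(.s k12 k9 2 (.s k166 k246 11 (.d k4 k8 k247 1 12))),
  (.s k166 k246 11 (.s k4 k247 12 (.s k7 k5 0 (.d k244 k164 k165 11 12)))), (.s k12 k9 2 (.s k92
  k172 11 (.s k89 k83 2 (.d k166 k246 k243 11 14)))), (.s k12 k9 2 (.s k8 k4 1 (.s k89 k251 12 (.d
  k92 k83 k172 2 11))))] .n)))) (.c k3 (.f k168 k84 13 (.q k192 [(.s k64 k128 7 (.s k106 k127 6 (.s
  k42 k234 7 (.d k63 k21 k149 6 14)))), (.s k232 k212 5 (.s k40 k104 7 (.s k105 k235 8 (.s k65 k125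
  5 (.s k195 k130 8 (.d k60 k20 k150 5 14))))))] (.c k64 (.l (.s k232 k212 5 (.s k104 k40 7 (.s k148
  k60 13 (.s k128 k188 5 (.s k149 k191 6 (.s k21 k213 7 (.d k63 k42 k106 6 14)))))))) (.c k87 (.l
  (.s k171 k169 0 (.s k64 k128 7 (.s k106 k127 6 (.s k42 k234 7 (.d k63 k21 k149 6 14)))))) (.c k171
  (.q k87 [(.s k64 k128 7 (.s k106 k127 6 (.s k42 k234 7 (.d k63 k21 k149 6 14)))), (.s k232 k212 5
  (.s k40 k104 7 (.s k105 k235 8 (.s k65 k125 5 (.s k195 k130 8 (.d k60 k20 k150 5 14))))))] (.c k64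
  (.l (.s k232 k212 5 (.s k104 k40 7 (.s k148 k60 13 (.s k128 k188 5 (.s k149 k191 6 (.s k21 k213 7
  (.d k63 k42 k106 6 14)))))))) .n)) .n))))) (.c k84 (.q k150 [(.s k20 k215 8 (.s k60 k40 5 (.s k130
  k190 5 (.d k195 k65 k105 8 14)))), (.s k130 k190 5 (.s k195 k65 8 (.s k214 k233 6 (.s k86 k22 7
  (.s k2 k254 13 (.d k3 k1 k169 0 14)))))), (.s k20 k215 8 (.s k60 k40 5 (.s k188 k124 7 (.s k169
  k131 6 (.s k1 k253 13 (.d k3 k2 k86 0 14))))))] (.c k60 (.q k166 [(.s k4 k247 12 (.s k162 k174 1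
  (.s k243 k81 12 (.d k12 k8 k89 1 14)))), (.s k174 k162 1 (.s k182 k134 3 (.s k190 k130 5 (.s k142
  k158 3 (.d k178 k186 k154 1 5))))), (.s k4 k247 12 (.s k20 k215 8 (.s k52 k36 3 (.s k134 k182 3
  (.d k199 k69 k101 8 12)))))] (.c k125 (.l (.s k190 k130 5 (.s k4 k247 12 (.s k12 k8 1 (.s k162
  k174 1 (.d k243 k81 k89 12 14)))))) (.c k190 (.q k125 [(.s k4 k247 12 (.s k12 k8 1 (.s k243 k89 14
  (.d k162 k174 k81 1 12)))), (.s k182 k134 3 (.s k215 k20 8 (.s k247 k4 12 (.s k52 k117 8 (.d k199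
  k231 k101 3 12))))), (.s k65 k105 5 (.s k130 k195 8 (.s k134 k182 3 (.s k142 k138 1 (.s k162 k174
  1 (.d k178 k146 k154 3 5))))))] .n) .n))) (.c k195 (.q k1 [(.s k169 k253 13 (.d k3 k2 k86 0 14)),
  (.s k130 k190 5 (.s k169 k253 13 (.s k131 k188 6 (.s k128 k129 0 (.s k171 k168 0 (.d k191 k151
  k149 5 6)))))), (.s k2 k3 0 (.s k86 k254 13 (.s k22 k214 7 (.s k42 k62 5 (.s k21 k63 6 (.d k20 k23
  k215 0 8))))))] (.c k215 (.q k235 [(.s k169 k253 13 (.d k3 k2 k86 0 14)), (.s k40 k105 8 (.s k60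
  k20 5 (.s k169 k253 13 (.d k188 k131 k124 6 7)))), (.s k2 k3 0 (.s k86 k254 13 (.s k22 k214 7 (.s
  k62 k42 5 (.s k130 k190 5 (.d k194 k66 k106 7 13))))))] .n) (.c k235 (.l (.s k215 k20 8 (.s k3 k2
  0 (.d k169 k253 k86 13 14)))) .n))) .n))) (.c k86 (.q k4 [(.s k166 k247 12 (.s k162 k174 1 (.s
  k243 k81 12 (.d k12 k8 k89 1 14)))), (.s k12 k8 1 (.s k84 k168 13 (.s k92 k172 11 (.s k88 k80 1
  (.d k164 k244 k240 11 13)))))] (.c k8 (.l (.s k166 k247 12 (.s k162 k174 1 (.s k168 k84 13 (.s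
  k169 k171 0 (.s k172 k163 2 (.s k12 k92 11 (.d k243 k89 k81 14 12)))))))) (.c k12 (.l (.s k84 k168
  13 (.s k244 k164 11 (.s k240 k248 1 (.s k160 k80 11 (.s k165 k175 2 (.s k245 k5 11 (.d k247 k246
  k166 0 12)))))))) .n))) (.c k87 (.l (.s k168 k84 13 (.s k169 k171 0 (.s k3 k86 14 (.d k1 k2 k253 0
  13))))) (.c k168 (.q k149 [(.s k21 k213 7 (.s k128 k191 6 (.s k192 k64 7 (.d k63 k42 k106 6
  14)))), (.s k128 k191 6 (.s k192 k64 7 (.s k212 k232 5 (.s k86 k23 8 (.s k2 k254 13 (.d k3 k1 k169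
  0 14)))))), (.s k21 k213 7 (.s k63 k42 6 (.s k189 k126 8 (.s k169 k129 5 (.s k1 k253 13 (.d k3 k2
  k86 0 14))))))] (.c k63 (.q k212 [(.s k192 k232 5 (.d k128 k191 k64 6 7)), (.s k86 k23 8 (.s k2
  k254 13 (.d k3 k1 k169 0 14)))] (.c k127 (.l (.s k191 k128 6 (.s k86 k23 8 (.s k2 k254 13 (.d k3
  k1 k169 0 14))))) (.c k191 (.q k127 [(.s k64 k106 6 (.d k192 k232 k128 5 7)), (.s k86 k23 8 (.s k2
  k254 13 (.d k3 k1 k169 0 14)))] .n) .n))) (.c k192 (.q k132 [(.s k128 k191 6 (.s k140 k136 1 (.s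
  k166 k183 4 (.s k162 k174 1 (.d k179 k145 k153 4 6))))), (.s k166 k183 4 (.s k4 k247 12 (.s k12 k8
  1 (.s k162 k174 1 (.d k243 k81 k89 12 14))))), (.s k128 k191 6 (.s k136 k140 1 (.s k68 k204 9 (.s
  k102 k119 4 (.d k196 k4 k55 7 12))))), (.s k128 k191 6 (.s k166 k183 4 (.s k4 k247 12 (.s k68 k196
  7 (.d k136 k204 k140 9 1)))))] (.c k213 (.q k234 [(.s k128 k191 6 (.s k140 k136 1 (.s k166 k183 4
  (.s k162 k174 1 (.d k179 k145 k153 4 6))))), (.s k166 k183 4 (.s k4 k247 12 (.s k12 k8 1 (.s k162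
  k174 1 (.d k243 k81 k89 12 14))))), (.s k128 k191 6 (.s k136 k140 1 (.s k68 k204 9 (.s k102 k119 4
  (.d k196 k4 k55 7 12))))), (.s k42 k106 7 (.s k21 k63 6 (.s k166 k183 4 (.s k4 k247 12 (.s k55 k38
  4 (.d k196 k68 k102 7 12))))))] .n) (.c k234 (.l (.s k213 k21 7 (.s k128 k191 6 (.s k136 k140 1
  (.s k68 k204 9 (.s k102 k119 4 (.d k196 k4 k55 7 12))))))) .n))) .n))) (.c k169 (.q k4 [(.s k166
  k247 12 (.s k162 k174 1 (.s k243 k81 12 (.d k12 k8 k89 1 14)))), (.s k12 k8 1 (.s k84 k168 13 (.s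
  k164 k244 11 (.s k88 k240 13 (.d k92 k80 k172 1 11))))), (.s k84 k168 13 (.s k86 k87 0 (.s k166
  k247 12 (.s k6 k246 11 (.s k7 k5 0 (.d k244 k164 k165 11 12))))))] .n) (.c k171 (.l (.s k84 k168
  13 (.s k86 k87 0 (.s k3 k169 14 (.d k2 k1 k254 0 13))))) (.c k254 (.l (.s k168 k84 13 (.s k169
  k171 0 (.s k1 k253 13 (.d k3 k2 k86 0 14))))) .n))))))))))))

def t10_178 : T TT 256 :=
  (.f k170 k255 14 (.q k252 [(.s k84 k168 13 (.s k86 k87 0 (.s k2 k254 13 (.d k3 k1 k169 0 14))))]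
  (.c k1 (.q k4 [(.s k12 k8 1 (.s k166 k247 12 (.s k162 k174 1 (.d k243 k81 k89 12 14)))), (.s k12
  k8 1 (.s k84 k168 13 (.s k92 k172 11 (.s k88 k80 1 (.d k164 k244 k240 11 13))))), (.s k84 k168 13
  (.s k86 k87 0 (.s k166 k247 12 (.s k6 k246 11 (.s k7 k5 0 (.d k244 k164 k165 11 12))))))] (.c k9
  (.l (.s k166 k247 12 (.s k162 k174 1 (.s k243 k81 12 (.d k12 k8 k89 1 14))))) .n)) (.c k2 (.f k84
  k168 13 (.f k86 k87 0 (.f k3 k169 14 (.q k6 [(.s k12 k9 2 (.s k166 k246 11 (.d k4 k8 k247 1 12))),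
  (.s k166 k246 11 (.s k4 k247 12 (.s k7 k5 0 (.d k244 k164 k165 11 12)))), (.s k12 k9 2 (.s k92
  k172 11 (.s k89 k83 2 (.d k166 k246 k243 11 14)))), (.s k12 k9 2 (.s k8 k4 1 (.s k89 k251 12 (.d
  k92 k83 k172 2 11))))] .n)))) (.c k3 (.f k168 k84 13 (.q k192 [(.s k64 k128 7 (.s k106 k127 6 (.s
  k42 k234 7 (.d k63 k21 k149 6 14)))), (.s k232 k212 5 (.s k40 k104 7 (.s k105 k235 8 (.s k65 k125
  5 (.s k195 k130 8 (.d k60 k20 k150 5 14))))))] (.c k64 (.l (.s k232 k212 5 (.s k104 k40 7 (.s k148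
  k60 13 (.s k128 k188 5 (.s k149 k191 6 (.s k21 k213 7 (.d k63 k42 k106 6 14)))))))) (.c k87 (.l
  (.s k171 k169 0 (.s k64 k128 7 (.s k106 k127 6 (.s k42 k234 7 (.d k63 k21 k149 6 14)))))) (.c k171
  (.q k87 [(.s k64 k128 7 (.s k106 k127 6 (.s k42 k234 7 (.d k63 k21 k149 6 14)))), (.s k232 k212 5
  (.s k40 k104 7 (.s k105 k235 8 (.s k65 k125 5 (.s k195 k130 8 (.d k60 k20 k150 5 14))))))] (.c k64
  (.l (.s k232 k212 5 (.s k104 k40 7 (.s k148 k60 13 (.s k128 k188 5 (.s k149 k191 6 (.s k21 k213 7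
  (.d k63 k42 k106 6 14)))))))) .n)) .n))))) (.c k84 (.q k105 [(.s k40 k235 8 (.s k60 k20 5 (.s k65
  k125 5 (.d k195 k130 k150 8 14)))), (.s k65 k125 5 (.s k195 k130 8 (.s k233 k214 6 (.s k169 k41 7
  (.s k1 k253 13 (.d k3 k2 k86 0 14)))))), (.s k40 k235 8 (.s k60 k20 5 (.s k124 k188 7 (.s k86 k67
  6 (.s k2 k254 13 (.d k3 k1 k169 0 14))))))] (.c k60 (.q k149 [(.s k21 k213 7 (.s k63 k42 6 (.s
  k128 k191 6 (.d k192 k64 k106 7 14)))), (.s k21 k213 7 (.s k61 k193 13 (.s k1 k41 5 (.s k3 k2 0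
  (.d k169 k253 k86 13 14))))), (.s k128 k191 6 (.s k192 k64 7 (.s k193 k61 13 (.s k195 k194 0 (.d
  k65 k125 k130 5 8)))))] (.c k125 (.q k190 [(.s k21 k213 7 (.s k63 k42 6 (.s k128 k191 6 (.d k192
  k64 k106 7 14)))), (.s k128 k191 6 (.s k130 k150 5 (.s k65 k195 8 (.s k129 k131 0 (.d k193 k1 k61
  7 13))))), (.s k21 k213 7 (.s k61 k193 13 (.s k1 k41 5 (.s k3 k2 0 (.d k169 k253 k86 13 14)))))]
  .n) (.c k190 (.l (.s k125 k65 5 (.s k21 k213 7 (.s k61 k193 13 (.s k1 k41 5 (.d k253 k189 k169 7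
  13)))))) (.c k192 (.l (.s k61 k193 13 (.s k125 k65 5 (.s k189 k253 7 (.s k63 k126 8 (.d k21 k213
  k42 7 6)))))) .n)))) (.c k195 (.q k69 [(.s k101 k117 3 (.s k32 k239 10 (.s k48 k16 3 (.d k207 k138
  k154 10 14)))), (.s k65 k125 5 (.s k73 k77 1 (.s k89 k121 3 (.s k8 k251 12 (.d k138 k203 k207 8
  10))))), (.s k65 k125 5 (.s k77 k73 1 (.s k101 k117 3 (.s k97 k109 1 (.d k113 k81 k89 3 5)))))]
  (.c k117 (.l (.s k65 k125 5 (.s k73 k77 1 (.s k138 k207 10 (.s k203 k8 8 (.d k154 k186 k56 3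
  12)))))) (.c k186 (.l (.s k207 k138 10 (.s k101 k117 3 (.s k48 k154 14 (.d k32 k16 k239 3 10)))))
  (.c k215 (.l (.s k235 k40 8 (.s k101 k117 3 (.s k32 k239 10 (.s k48 k16 3 (.d k207 k138 k154 10
  14)))))) (.c k235 (.q k215 [(.s k20 k150 8 (.s k60 k40 5 (.s k101 k117 3 (.s k109 k97 1 (.d k207
  k138 k158 10 12))))), (.s k65 k125 5 (.s k73 k77 1 (.s k138 k207 10 (.s k203 k8 8 (.d k154 k186
  k56 3 12))))), (.s k101 k117 3 (.s k32 k239 10 (.s k48 k16 3 (.d k207 k138 k154 10 14)))), (.s k65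
  k125 5 (.s k77 k73 1 (.s k101 k117 3 (.s k97 k109 1 (.d k113 k81 k89 3 5)))))] (.c k186 (.l (.s
  k207 k138 10 (.s k101 k117 3 (.s k48 k154 14 (.d k32 k16 k239 3 10))))) .n)) .n))))) .n))) (.c k86
  (.q k4 [(.s k166 k247 12 (.s k162 k174 1 (.s k243 k81 12 (.d k12 k8 k89 1 14)))), (.s k12 k8 1 (.s
  k84 k168 13 (.s k92 k172 11 (.s k88 k80 1 (.d k164 k244 k240 11 13)))))] (.c k8 (.l (.s k166 k247
  12 (.s k162 k174 1 (.s k168 k84 13 (.s k169 k171 0 (.s k172 k163 2 (.s k12 k92 11 (.d k243 k89 k81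
  14 12)))))))) (.c k12 (.l (.s k84 k168 13 (.s k244 k164 11 (.s k240 k248 1 (.s k160 k80 11 (.s
  k165 k175 2 (.s k245 k5 11 (.d k247 k246 k166 0 12)))))))) .n))) (.c k87 (.l (.s k168 k84 13 (.s
  k169 k171 0 (.s k3 k86 14 (.d k1 k2 k253 0 13))))) (.c k168 (.q k102 [(.s k34 k238 9 (.s k51 k17 4
  (.s k68 k119 4 (.d k204 k136 k153 9 14)))), (.s k68 k119 4 (.s k204 k136 9 (.s k236 k220 3 (.s
  k169 k35 10 (.s k1 k253 13 (.d k3 k2 k86 0 14)))))), (.s k34 k238 9 (.s k51 k17 4 (.s k118 k185 10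
  (.s k86 k70 3 (.s k2 k254 13 (.d k3 k1 k169 0 14))))))] (.c k51 (.q k149 [(.s k21 k213 7 (.s k128
  k191 6 (.s k192 k64 7 (.d k63 k42 k106 6 14)))), (.s k55 k196 12 (.s k119 k68 4 (.s k247 k183 7
  (.s k4 k166 12 (.d k21 k38 k213 4 7))))), (.s k128 k191 6 (.s k192 k64 7 (.s k196 k55 12 (.s k204
  k200 1 (.d k68 k119 k136 4 9)))))] (.c k119 (.q k187 [(.s k21 k213 7 (.s k128 k191 6 (.s k192 k64
  7 (.d k63 k42 k106 6 14)))), (.s k153 k136 4 (.s k157 k145 1 (.s k191 k128 6 (.s k140 k174 4 (.d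
  k179 k183 k166 1 6))))), (.s k21 k213 7 (.s k34 k238 9 (.s k55 k196 12 (.s k38 k4 4 (.d k42 k46
  k63 1 6)))))] (.c k192 (.l (.s k128 k191 6 (.s k136 k153 4 (.s k68 k204 9 (.s k132 k140 1 (.d k196
  k4 k55 7 12)))))) .n)) (.c k187 (.l (.s k119 k68 4 (.s k21 k213 7 (.s k55 k196 12 (.s k4 k38 4 (.d
  k247 k183 k166 7 12)))))) .n))) (.c k204 (.f k119 k68 4 (.q k48 [(.s k32 k16 3 (.s k101 k239 10
  (.s k69 k117 3 (.d k207 k138 k154 10 14)))), (.s k116 k184 9 (.s k118 k117 0 (.s k51 k185 10 (.d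
  k34 k238 k17 9 4))))] (.c k117 (.l (.s k16 k32 3 (.s k154 k223 10 (.s k138 k186 3 (.d k207 k69
  k101 10 14))))) (.c k221 (.l (.s k238 k34 9 (.s k16 k32 3 (.s k154 k223 10 (.s k138 k186 3 (.d
  k207 k69 k101 10 14)))))) (.c k238 (.q k221 [(.s k17 k153 9 (.s k51 k34 4 (.s k116 k184 9 (.d k118
  k117 k185 0 10)))), (.s k16 k32 3 (.s k154 k223 10 (.s k138 k186 3 (.d k207 k69 k101 10 14))))]
  .n) .n))))) .n))) (.c k169 (.q k4 [(.s k166 k247 12 (.s k162 k174 1 (.s k243 k81 12 (.d k12 k8 k89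
  1 14)))), (.s k12 k8 1 (.s k84 k168 13 (.s k164 k244 11 (.s k88 k240 13 (.d k92 k80 k172 1
  11))))), (.s k84 k168 13 (.s k86 k87 0 (.s k166 k247 12 (.s k6 k246 11 (.s k7 k5 0 (.d k244 k164
  k165 11 12))))))] .n) (.c k171 (.l (.s k84 k168 13 (.s k86 k87 0 (.s k3 k169 14 (.d k2 k1 k254 0
  13))))) (.c k254 (.l (.s k168 k84 13 (.s k169 k171 0 (.s k1 k253 13 (.d k3 k2 k86 0 14)))))
  .n))))))))))))

def t10_179 : T TT 256 :=
  (.f k170 k255 14 (.q k252 [(.s k84 k168 13 (.s k86 k87 0 (.s k2 k254 13 (.d k3 k1 k169 0 14))))]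
  (.c k1 (.q k4 [(.s k12 k8 1 (.s k166 k247 12 (.s k162 k174 1 (.d k243 k81 k89 12 14)))), (.s k12
  k8 1 (.s k84 k168 13 (.s k92 k172 11 (.s k88 k80 1 (.d k164 k244 k240 11 13))))), (.s k84 k168 13
  (.s k86 k87 0 (.s k166 k247 12 (.s k6 k246 11 (.s k7 k5 0 (.d k244 k164 k165 11 12))))))] (.c k9
  (.l (.s k166 k247 12 (.s k162 k174 1 (.s k243 k81 12 (.d k12 k8 k89 1 14))))) .n)) (.c k2 (.f k84
  k168 13 (.f k86 k87 0 (.f k3 k169 14 (.q k6 [(.s k12 k9 2 (.s k166 k246 11 (.d k4 k8 k247 1 12))),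
  (.s k166 k246 11 (.s k4 k247 12 (.s k7 k5 0 (.d k244 k164 k165 11 12)))), (.s k12 k9 2 (.s k92
  k172 11 (.s k89 k83 2 (.d k166 k246 k243 11 14)))), (.s k12 k9 2 (.s k8 k4 1 (.s k89 k251 12 (.d
  k92 k83 k172 2 11))))] .n)))) (.c k3 (.f k168 k84 13 (.q k192 [(.s k64 k128 7 (.s k106 k127 6 (.s
  k42 k234 7 (.d k63 k21 k149 6 14)))), (.s k232 k212 5 (.s k40 k104 7 (.s k105 k235 8 (.s k65 k125
  5 (.s k195 k130 8 (.d k60 k20 k150 5 14))))))] (.c k64 (.l (.s k232 k212 5 (.s k104 k40 7 (.s k148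
  k60 13 (.s k128 k188 5 (.s k149 k191 6 (.s k21 k213 7 (.d k63 k42 k106 6 14)))))))) (.c k87 (.l
  (.s k171 k169 0 (.s k64 k128 7 (.s k106 k127 6 (.s k42 k234 7 (.d k63 k21 k149 6 14)))))) (.c k171
  (.q k87 [(.s k64 k128 7 (.s k106 k127 6 (.s k42 k234 7 (.d k63 k21 k149 6 14)))), (.s k232 k212 5
  (.s k40 k104 7 (.s k105 k235 8 (.s k65 k125 5 (.s k195 k130 8 (.d k60 k20 k150 5 14))))))] (.c k64
  (.l (.s k232 k212 5 (.s k104 k40 7 (.s k148 k60 13 (.s k128 k188 5 (.s k149 k191 6 (.s k21 k213 7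
  (.d k63 k42 k106 6 14)))))))) .n)) .n))))) (.c k84 (.q k149 [(.s k21 k213 7 (.s k63 k42 6 (.s k192
  k106 14 (.d k128 k191 k64 6 7)))), (.s k128 k191 6 (.s k192 k64 7 (.s k212 k232 5 (.s k86 k23 8
  (.s k2 k254 13 (.d k3 k1 k169 0 14)))))), (.s k21 k213 7 (.s k63 k42 6 (.s k189 k126 8 (.s k169
  k129 5 (.s k1 k253 13 (.d k3 k2 k86 0 14))))))] (.c k63 (.f k191 k128 6 (.q k153 [(.s k17 k221 9
  (.s k51 k34 4 (.s k136 k187 4 (.d k204 k68 k102 9 14)))), (.s k213 k21 7 (.s k221 k17 9 (.s k209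
  k217 1 (.s k29 k89 9 (.d k157 k145 k93 1 7))))), (.s k136 k187 4 (.s k204 k68 9 (.s k220 k236 3
  (.s k86 k19 10 (.s k2 k254 13 (.d k3 k1 k169 0 14))))))] (.c k145 (.q k162 [(.s k17 k221 9 (.s k51
  k34 4 (.s k136 k187 4 (.d k204 k68 k102 9 14)))), (.s k166 k174 1 (.s k4 k247 12 (.s k12 k8 1 (.d
  k243 k81 k89 12 14))))] .n) (.c k162 (.l (.s k145 k157 1 (.s k17 k221 9 (.s k21 k213 7 (.s k29 k25
  1 (.d k209 k81 k89 7 9)))))) .n)))) (.c k192 (.q k165 [(.s k5 k245 11 (.s k133 k181 3 (.s k197 k69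
  7 (.s k53 k101 11 (.d k21 k213 k37 7 3))))), (.s k160 k175 2 (.s k240 k80 11 (.s k244 k248 1 (.s
  k86 k7 12 (.s k2 k254 13 (.d k3 k1 k169 0 14))))))] (.c k213 (.q k234 [(.s k42 k106 7 (.s k63 k21
  6 (.s k160 k175 2 (.s k181 k133 3 (.d k240 k122 k80 10 11))))), (.s k5 k245 11 (.s k128 k191 6 (.s
  k133 k181 3 (.s k138 k143 2 (.d k69 k197 k207 7 10))))), (.s k106 k42 7 (.s k160 k175 2 (.s k224
  k47 10 (.s k32 k96 7 (.d k239 k229 k101 2 10)))))] (.c k175 (.l (.s k5 k245 11 (.s k42 k106 7 (.s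
  k21 k63 6 (.s k37 k53 3 (.s k32 k47 2 (.d k101 k229 k239 7 10))))))) .n)) (.c k234 (.l (.s k213
  k21 7 (.s k181 k133 3 (.s k245 k5 11 (.s k53 k117 7 (.d k197 k229 k101 3 11)))))) (.c k240 (.l (.s
  k128 k191 6 (.s k133 k181 3 (.s k138 k143 2 (.s k69 k207 10 (.d k5 k197 k245 7 11)))))) .n))))
  .n))) (.c k86 (.q k4 [(.s k166 k247 12 (.s k162 k174 1 (.s k243 k81 12 (.d k12 k8 k89 1 14)))),
  (.s k12 k8 1 (.s k84 k168 13 (.s k92 k172 11 (.s k88 k80 1 (.d k164 k244 k240 11 13)))))] (.c k8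
  (.l (.s k166 k247 12 (.s k162 k174 1 (.s k168 k84 13 (.s k169 k171 0 (.s k172 k163 2 (.s k12 k92
  11 (.d k243 k89 k81 14 12)))))))) (.c k12 (.l (.s k84 k168 13 (.s k244 k164 11 (.s k240 k248 1 (.s
  k160 k80 11 (.s k165 k175 2 (.s k245 k5 11 (.d k247 k246 k166 0 12)))))))) .n))) (.c k87 (.l (.s
  k168 k84 13 (.s k169 k171 0 (.s k3 k86 14 (.d k1 k2 k253 0 13))))) (.c k168 (.q k149 [(.s k21 k213
  7 (.s k63 k42 6 (.s k192 k106 14 (.d k128 k191 k64 6 7)))), (.s k128 k191 6 (.s k192 k64 7 (.s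
  k212 k232 5 (.s k86 k23 8 (.s k2 k254 13 (.d k3 k1 k169 0 14)))))), (.s k21 k213 7 (.s k63 k42 6
  (.s k189 k126 8 (.s k169 k129 5 (.s k1 k253 13 (.d k3 k2 k86 0 14))))))] (.c k63 (.f k191 k128 6
  (.q k188 [(.s k190 k189 0 (.s k150 k130 5 (.s k131 k169 6 (.d k151 k148 k171 0 5)))), (.s k60 k124
  7 (.s k20 k40 5 (.s k150 k215 8 (.s k130 k190 5 (.d k195 k65 k105 8 14))))), (.s k60 k124 7 (.s
  k20 k40 5 (.s k150 k215 8 (.s k131 k169 6 (.d k151 k148 k171 0 5)))))] (.c k145 (.q k162 [(.s k60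
  k124 7 (.s k190 k189 0 (.s k150 k130 5 (.d k20 k40 k215 5 8)))), (.s k166 k174 1 (.s k4 k247 12
  (.s k12 k8 1 (.d k243 k81 k89 12 14))))] .n) (.c k150 (.l (.s k189 k190 0 (.s k169 k129 5 (.s k1
  k253 13 (.d k3 k2 k86 0 14))))) (.c k162 (.q k145 [(.s k60 k124 7 (.s k20 k40 5 (.s k190 k189 0
  (.d k150 k130 k215 5 8)))), (.s k21 k213 7 (.s k153 k157 1 (.s k17 k221 9 (.s k29 k25 1 (.d k209
  k81 k89 7 9)))))] .n) .n))))) (.c k192 (.q k68 [(.s k102 k119 4 (.s k34 k238 9 (.s k51 k17 4 (.d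
  k204 k136 k153 9 14)))), (.s k102 k119 4 (.s k196 k55 12 (.s k4 k132 7 (.s k213 k21 7 (.d k247
  k230 k166 4 12)))))] (.c k51 (.l (.s k128 k191 6 (.s k136 k204 9 (.s k132 k140 1 (.s k196 k4 7 (.d
  k102 k119 k55 4 12)))))) (.c k102 (.l (.s k136 k204 9 (.s k153 k187 4 (.s k157 k145 1 (.s k213 k21
  7 (.s k221 k17 9 (.s k29 k93 7 (.d k209 k217 k89 1 9)))))))) (.c k119 (.l (.s k128 k191 6 (.s k136
  k204 9 (.s k132 k140 1 (.s k166 k183 4 (.s k187 k153 4 (.d k4 k196 k247 7 12))))))) (.c k187 (.l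
  (.s k204 k136 9 (.s k102 k119 4 (.s k51 k153 14 (.d k34 k17 k238 4 9))))) (.c k213 (.q k234 [(.s
  k102 k119 4 (.s k34 k238 9 (.s k51 k17 4 (.d k204 k136 k153 9 14)))), (.s k42 k106 7 (.s k63 k21 6
  (.s k189 k126 8 (.s k169 k129 5 (.s k1 k253 13 (.d k3 k86 k2 14 0))))))] .n) (.c k234 (.l (.s k213
  k21 7 (.s k102 k119 4 (.s k34 k238 9 (.s k51 k17 4 (.d k204 k136 k153 9 14)))))) .n))))))) .n)))
  (.c k169 (.q k4 [(.s k166 k247 12 (.s k162 k174 1 (.s k243 k81 12 (.d k12 k8 k89 1 14)))), (.s k12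
  k8 1 (.s k84 k168 13 (.s k164 k244 11 (.s k88 k240 13 (.d k92 k80 k172 1 11))))), (.s k84 k168 13
  (.s k86 k87 0 (.s k166 k247 12 (.s k6 k246 11 (.s k7 k5 0 (.d k244 k164 k165 11 12))))))] .n) (.c
  k171 (.l (.s k84 k168 13 (.s k86 k87 0 (.s k3 k169 14 (.d k2 k1 k254 0 13))))) (.c k254 (.l (.s
  k168 k84 13 (.s k169 k171 0 (.s k1 k253 13 (.d k3 k2 k86 0 14))))) .n))))))))))))

def t10_181 : T TT 256 :=
  (.f k170 k255 14 (.q k252 [(.s k84 k168 13 (.s k86 k87 0 (.s k2 k254 13 (.d k3 k1 k169 0 14))))]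
  (.c k1 (.q k4 [(.s k12 k8 1 (.s k166 k247 12 (.s k162 k174 1 (.d k243 k81 k89 12 14)))), (.s k12
  k8 1 (.s k84 k168 13 (.s k92 k172 11 (.s k88 k80 1 (.d k164 k244 k240 11 13))))), (.s k84 k168 13
  (.s k86 k87 0 (.s k166 k247 12 (.s k6 k246 11 (.s k7 k5 0 (.d k244 k164 k165 11 12))))))] (.c k9
  (.l (.s k166 k247 12 (.s k162 k174 1 (.s k243 k81 12 (.d k12 k8 k89 1 14))))) .n)) (.c k2 (.f k84
  k168 13 (.f k86 k87 0 (.f k3 k169 14 (.q k6 [(.s k12 k9 2 (.s k166 k246 11 (.d k4 k8 k247 1 12))),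
  (.s k166 k246 11 (.s k4 k247 12 (.s k7 k5 0 (.d k244 k164 k165 11 12)))), (.s k12 k9 2 (.s k92
  k172 11 (.s k89 k83 2 (.d k166 k246 k243 11 14)))), (.s k12 k9 2 (.s k8 k4 1 (.s k89 k251 12 (.d
  k92 k83 k172 2 11))))] .n)))) (.c k3 (.f k84 k168 13 (.q k204 [(.s k68 k136 9 (.s k100 k116 3 (.s
  k220 k236 3 (.d k152 k16 k48 9 13)))), (.s k136 k68 9 (.s k153 k187 4 (.s k17 k221 9 (.d k51 k34
  k102 4 14))))] (.c k68 (.l (.s k220 k236 3 (.s k16 k152 9 (.s k154 k223 10 (.s k138 k186 3 (.s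
  k207 k69 10 (.d k48 k32 k101 3 14))))))) (.c k87 (.q k171 [(.s k68 k136 9 (.s k100 k116 3 (.s k220
  k236 3 (.d k152 k16 k48 9 13)))), (.s k136 k68 9 (.s k153 k187 4 (.s k17 k221 9 (.d k51 k34 k102 4
  14))))] (.c k68 (.l (.s k220 k236 3 (.s k16 k152 9 (.s k154 k223 10 (.s k138 k186 3 (.s k207 k69
  10 (.d k48 k32 k101 3 14))))))) (.c k136 (.l (.s k220 k236 3 (.s k152 k16 9 (.s k100 k48 13 (.s
  k68 k116 3 (.s k102 k119 4 (.s k34 k238 9 (.d k51 k17 k153 4 14)))))))) .n))) (.c k136 (.l (.s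
  k220 k236 3 (.s k152 k16 9 (.s k100 k48 13 (.s k68 k116 3 (.s k102 k119 4 (.s k34 k238 9 (.d k51
  k17 k153 4 14)))))))) (.c k171 (.l (.s k87 k86 0 (.s k68 k136 9 (.s k100 k116 3 (.s k152 k48 13
  (.d k220 k236 k16 3 9)))))) .n)))))) (.c k84 (.q k150 [(.s k20 k215 8 (.s k60 k40 5 (.s k130 k190
  5 (.d k195 k65 k105 8 14)))), (.s k130 k190 5 (.s k195 k65 8 (.s k214 k233 6 (.s k86 k22 7 (.s k2
  k254 13 (.d k3 k1 k169 0 14)))))), (.s k20 k215 8 (.s k60 k40 5 (.s k188 k124 7 (.s k169 k131 6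
  (.s k1 k253 13 (.d k3 k2 k86 0 14))))))] (.c k60 (.q k166 [(.s k4 k247 12 (.s k162 k174 1 (.s k243
  k81 12 (.d k12 k8 k89 1 14)))), (.s k174 k162 1 (.s k182 k134 3 (.s k190 k130 5 (.s k142 k158 3
  (.d k178 k186 k154 1 5))))), (.s k4 k247 12 (.s k20 k215 8 (.s k52 k36 3 (.s k134 k182 3 (.d k199
  k69 k101 8 12)))))] (.c k125 (.l (.s k190 k130 5 (.s k4 k247 12 (.s k12 k8 1 (.s k162 k174 1 (.d
  k243 k81 k89 12 14)))))) (.c k190 (.q k125 [(.s k4 k247 12 (.s k12 k8 1 (.s k243 k89 14 (.d k162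
  k174 k81 1 12)))), (.s k182 k134 3 (.s k215 k20 8 (.s k247 k4 12 (.s k52 k117 8 (.d k199 k231 k101
  3 12))))), (.s k65 k105 5 (.s k130 k195 8 (.s k134 k182 3 (.s k142 k138 1 (.s k162 k174 1 (.d k178
  k146 k154 3 5))))))] .n) .n))) (.c k195 (.q k149 [(.s k151 k148 0 (.s k213 k21 7 (.s k215 k20 8
  (.s k212 k214 0 (.d k23 k87 k86 7 8))))), (.s k21 k213 7 (.s k63 k42 6 (.s k128 k191 6 (.d k192
  k64 k106 7 14)))), (.s k128 k191 6 (.s k130 k190 5 (.s k131 k129 0 (.s k148 k151 0 (.d k188 k168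
  k169 5 6)))))] (.c k215 (.q k235 [(.s k21 k213 7 (.s k63 k42 6 (.s k192 k106 14 (.d k128 k191 k64
  6 7)))), (.s k40 k105 8 (.s k60 k20 5 (.s k128 k191 6 (.s k148 k151 0 (.d k188 k168 k124 5 7))))),
  (.s k21 k213 7 (.s k40 k105 8 (.s k60 k20 5 (.s k63 k42 6 (.s k62 k61 0 (.d k106 k192 k194 14
  13))))))] (.c k63 (.l (.s k40 k105 8 (.s k60 k20 5 (.s k188 k124 7 (.s k190 k130 5 (.d k191 k189
  k128 0 6)))))) (.c k212 (.l (.s k128 k191 6 (.s k192 k64 7 (.s k63 k106 14 (.d k21 k42 k213 6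
  7))))) .n))) (.c k235 (.l (.s k215 k20 8 (.s k21 k213 7 (.s k63 k42 6 (.s k128 k191 6 (.d k192 k64
  k106 7 14)))))) .n))) .n))) (.c k86 (.q k4 [(.s k166 k247 12 (.s k162 k174 1 (.s k243 k81 12 (.d
  k12 k8 k89 1 14)))), (.s k12 k8 1 (.s k84 k168 13 (.s k92 k172 11 (.s k88 k80 1 (.d k164 k244 k240
  11 13)))))] (.c k8 (.l (.s k166 k247 12 (.s k162 k174 1 (.s k168 k84 13 (.s k169 k171 0 (.s k172
  k163 2 (.s k12 k92 11 (.d k243 k89 k81 14 12)))))))) (.c k12 (.l (.s k84 k168 13 (.s k244 k164 11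
  (.s k240 k248 1 (.s k160 k80 11 (.s k165 k175 2 (.s k245 k5 11 (.d k247 k246 k166 0 12))))))))
  .n))) (.c k87 (.l (.s k168 k84 13 (.s k169 k171 0 (.s k3 k86 14 (.d k1 k2 k253 0 13))))) (.c k168
  (.q k153 [(.s k17 k221 9 (.s k51 k34 4 (.s k136 k187 4 (.d k204 k68 k102 9 14)))), (.s k136 k187 4
  (.s k204 k68 9 (.s k220 k236 3 (.s k86 k19 10 (.s k2 k254 13 (.d k3 k1 k169 0 14)))))), (.s k17
  k221 9 (.s k51 k34 4 (.s k185 k118 10 (.s k169 k137 3 (.s k1 k253 13 (.d k3 k2 k86 0 14))))))] (.c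
  k51 (.q k166 [(.s k4 k247 12 (.s k162 k174 1 (.s k243 k81 12 (.d k12 k8 k89 1 14)))), (.s k140
  k179 6 (.s k174 k162 1 (.s k191 k157 4 (.s k128 k149 6 (.d k136 k187 k132 4 1))))), (.s k4 k247 12
  (.s k12 k8 1 (.s k140 k179 6 (.s k204 k76 7 (.d k136 k187 k68 4 9)))))] (.c k119 (.l (.s k187 k136
  4 (.s k4 k247 12 (.s k12 k8 1 (.s k162 k174 1 (.d k243 k81 k89 12 14)))))) (.c k187 (.q k119 [(.s
  k4 k247 12 (.s k162 k174 1 (.s k243 k81 12 (.d k12 k8 k89 1 14)))), (.s k102 k68 4 (.s k230 k38 7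
  (.s k247 k4 12 (.s k55 k183 7 (.d k196 k213 k149 4 12))))), (.s k17 k221 9 (.s k162 k174 1 (.s
  k179 k140 6 (.s k145 k128 4 (.d k81 k209 k243 7 12)))))] (.c k12 (.l (.s k4 k247 12 (.s k68 k102 4
  (.s k132 k196 7 (.s k136 k204 9 (.d k140 k128 k179 1 6)))))) .n)) (.c k243 (.l (.s k162 k174 1 (.s
  k179 k140 6 (.s k128 k145 4 (.s k187 k136 4 (.d k191 k183 k149 1 6)))))) .n)))) (.c k204 (.q k169
  [(.s k1 k253 13 (.d k3 k2 k86 0 14)), (.s k185 k137 3 (.s k51 k118 10 (.d k17 k221 k34 9 4)))] (.c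
  k3 (.l (.s k1 k253 13 (.s k136 k187 4 (.s k137 k185 3 (.s k69 k205 9 (.d k138 k207 k139 10 0))))))
  (.c k221 (.q k238 [(.s k3 k86 14 (.d k1 k2 k253 0 13)), (.s k34 k102 9 (.s k51 k17 4 (.d k185 k137
  k118 3 10)))] .n) (.c k238 (.l (.s k221 k17 9 (.s k1 k253 13 (.d k3 k2 k86 0 14)))) .n)))) .n)))
  (.c k169 (.q k4 [(.s k166 k247 12 (.s k162 k174 1 (.s k243 k81 12 (.d k12 k8 k89 1 14)))), (.s k12
  k8 1 (.s k84 k168 13 (.s k164 k244 11 (.s k88 k240 13 (.d k92 k80 k172 1 11))))), (.s k84 k168 13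
  (.s k86 k87 0 (.s k166 k247 12 (.s k6 k246 11 (.s k7 k5 0 (.d k244 k164 k165 11 12))))))] .n) (.c
  k171 (.l (.s k84 k168 13 (.s k86 k87 0 (.s k3 k169 14 (.d k2 k1 k254 0 13))))) (.c k254 (.l (.s
  k168 k84 13 (.s k169 k171 0 (.s k1 k253 13 (.d k3 k2 k86 0 14))))) .n))))))))))))

def t10_182 : T TT 256 :=
  (.f k170 k255 14 (.q k252 [(.s k84 k168 13 (.s k86 k87 0 (.s k2 k254 13 (.d k3 k1 k169 0 14))))]
  (.c k1 (.q k4 [(.s k12 k8 1 (.s k166 k247 12 (.s k162 k174 1 (.d k243 k81 k89 12 14)))), (.s k12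
  k8 1 (.s k84 k168 13 (.s k92 k172 11 (.s k88 k80 1 (.d k164 k244 k240 11 13))))), (.s k84 k168 13
  (.s k86 k87 0 (.s k166 k247 12 (.s k6 k246 11 (.s k7 k5 0 (.d k244 k164 k165 11 12))))))] (.c k9
  (.l (.s k166 k247 12 (.s k162 k174 1 (.s k243 k81 12 (.d k12 k8 k89 1 14))))) .n)) (.c k2 (.f k84
  k168 13 (.f k86 k87 0 (.f k3 k169 14 (.q k6 [(.s k12 k9 2 (.s k166 k246 11 (.d k4 k8 k247 1 12))),
  (.s k166 k246 11 (.s k4 k247 12 (.s k7 k5 0 (.d k244 k164 k165 11 12)))), (.s k12 k9 2 (.s k92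
  k172 11 (.s k89 k83 2 (.d k166 k246 k243 11 14)))), (.s k12 k9 2 (.s k8 k4 1 (.s k89 k251 12 (.d
  k92 k83 k172 2 11))))] .n)))) (.c k3 (.f k168 k84 13 (.q k192 [(.s k64 k128 7 (.s k106 k127 6 (.s
  k42 k234 7 (.d k63 k21 k149 6 14)))), (.s k232 k212 5 (.s k40 k104 7 (.s k105 k235 8 (.s k65 k125
  5 (.s k195 k130 8 (.d k60 k20 k150 5 14))))))] (.c k64 (.l (.s k232 k212 5 (.s k104 k40 7 (.s k148
  k60 13 (.s k128 k188 5 (.s k149 k191 6 (.s k21 k213 7 (.d k63 k42 k106 6 14)))))))) (.c k87 (.l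
  (.s k171 k169 0 (.s k64 k128 7 (.s k106 k127 6 (.s k42 k234 7 (.d k63 k21 k149 6 14)))))) (.c k171
  (.q k87 [(.s k64 k128 7 (.s k106 k127 6 (.s k42 k234 7 (.d k63 k21 k149 6 14)))), (.s k232 k212 5
  (.s k40 k104 7 (.s k105 k235 8 (.s k65 k125 5 (.s k195 k130 8 (.d k60 k20 k150 5 14))))))] (.c k64
  (.l (.s k232 k212 5 (.s k104 k40 7 (.s k148 k60 13 (.s k128 k188 5 (.s k149 k191 6 (.s k21 k213 7
  (.d k63 k42 k106 6 14)))))))) .n)) .n))))) (.c k84 (.q k149 [(.s k21 k213 7 (.s k63 k42 6 (.s k128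
  k191 6 (.d k192 k64 k106 7 14)))), (.s k128 k191 6 (.s k192 k64 7 (.s k212 k232 5 (.s k86 k23 8
  (.s k2 k254 13 (.d k3 k1 k169 0 14)))))), (.s k21 k213 7 (.s k63 k42 6 (.s k189 k126 8 (.s k169
  k129 5 (.s k1 k253 13 (.d k3 k2 k86 0 14))))))] (.c k63 (.q k188 [(.s k191 k128 6 (.s k190 k189 0
  (.s k150 k130 5 (.s k131 k169 6 (.d k151 k148 k171 0 5))))), (.s k60 k124 7 (.s k20 k40 5 (.s k150
  k215 8 (.s k130 k190 5 (.d k195 k65 k105 8 14))))), (.s k60 k124 7 (.s k20 k40 5 (.s k150 k215 8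
  (.s k148 k151 0 (.d k128 k191 k168 6 5)))))] (.c k127 (.l (.s k191 k128 6 (.s k60 k124 7 (.s k20
  k40 5 (.s k150 k215 8 (.d k190 k189 k130 0 5)))))) (.c k150 (.l (.s k191 k128 6 (.s k189 k190 0
  (.s k169 k129 5 (.s k1 k253 13 (.d k3 k2 k86 0 14)))))) (.c k191 (.q k127 [(.s k60 k124 7 (.s k20
  k40 5 (.s k150 k215 8 (.s k130 k190 5 (.d k195 k65 k105 8 14))))), (.s k64 k106 6 (.s k128 k192 7
  (.s k168 k148 5 (.s k169 k171 0 (.s k1 k253 13 (.d k3 k2 k86 0 14)))))), (.s k64 k106 6 (.s k128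
  k192 7 (.s k148 k168 5 (.s k150 k151 0 (.s k131 k169 6 (.d k130 k129 k190 0 5))))))] (.c k64 (.l
  (.s k21 k213 7 (.s k124 k60 7 (.s k125 k126 0 (.s k105 k65 5 (.s k61 k193 13 (.s k1 k41 5 (.d k253
  k189 k169 7 13)))))))) .n)) .n)))) (.c k192 (.q k129 [(.s k189 k169 5 (.s k63 k126 8 (.d k21 k213
  k42 7 6))), (.s k128 k191 6 (.s k130 k131 0 (.s k65 k195 8 (.s k105 k125 5 (.d k193 k1 k61 7
  13)))))] (.c k63 (.l (.s k169 k189 5 (.s k1 k253 13 (.d k3 k2 k86 0 14)))) (.c k213 (.q k234 [(.s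
  k42 k106 7 (.s k63 k21 6 (.d k189 k169 k126 5 8))), (.s k128 k191 6 (.s k130 k131 0 (.s k65 k195 8
  (.s k105 k125 5 (.d k193 k1 k61 7 13)))))] (.c k63 (.l (.s k169 k189 5 (.s k1 k253 13 (.d k3 k2
  k86 0 14)))) .n)) (.c k234 (.l (.s k213 k21 7 (.s k169 k189 5 (.s k1 k253 13 (.d k3 k2 k86 0
  14))))) .n)))) .n))) (.c k86 (.q k4 [(.s k166 k247 12 (.s k162 k174 1 (.s k243 k81 12 (.d k12 k8
  k89 1 14)))), (.s k12 k8 1 (.s k84 k168 13 (.s k92 k172 11 (.s k88 k80 1 (.d k164 k244 k240 11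
  13)))))] (.c k8 (.l (.s k166 k247 12 (.s k162 k174 1 (.s k168 k84 13 (.s k169 k171 0 (.s k172 k163
  2 (.s k12 k92 11 (.d k243 k89 k81 14 12)))))))) (.c k12 (.l (.s k84 k168 13 (.s k244 k164 11 (.s
  k240 k248 1 (.s k160 k80 11 (.s k165 k175 2 (.s k245 k5 11 (.d k247 k246 k166 0 12)))))))) .n)))
  (.c k87 (.l (.s k168 k84 13 (.s k169 k171 0 (.s k3 k86 14 (.d k1 k2 k253 0 13))))) (.c k168 (.q
  k149 [(.s k21 k213 7 (.s k128 k191 6 (.s k192 k64 7 (.d k63 k42 k106 6 14)))), (.s k128 k191 6 (.s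
  k192 k64 7 (.s k212 k232 5 (.s k86 k23 8 (.s k2 k254 13 (.d k3 k1 k169 0 14)))))), (.s k21 k213 7
  (.s k63 k42 6 (.s k189 k126 8 (.s k169 k129 5 (.s k1 k253 13 (.d k3 k2 k86 0 14))))))] (.c k63 (.q
  k212 [(.s k192 k232 5 (.d k128 k191 k64 6 7)), (.s k86 k23 8 (.s k2 k254 13 (.d k3 k1 k169 0
  14)))] (.c k127 (.l (.s k191 k128 6 (.s k86 k23 8 (.s k2 k254 13 (.d k3 k1 k169 0 14))))) (.c k191
  (.q k127 [(.s k64 k106 6 (.d k192 k232 k128 5 7)), (.s k86 k23 8 (.s k2 k254 13 (.d k3 k1 k169 0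
  14)))] .n) .n))) (.c k192 (.q k132 [(.s k128 k191 6 (.s k140 k136 1 (.s k166 k183 4 (.s k162 k174
  1 (.d k179 k145 k153 4 6))))), (.s k166 k183 4 (.s k4 k247 12 (.s k12 k8 1 (.s k162 k174 1 (.d
  k243 k81 k89 12 14))))), (.s k128 k191 6 (.s k136 k140 1 (.s k68 k204 9 (.s k102 k119 4 (.d k196
  k4 k55 7 12))))), (.s k128 k191 6 (.s k166 k183 4 (.s k4 k247 12 (.s k68 k196 7 (.d k136 k204 k140
  9 1)))))] (.c k213 (.q k234 [(.s k128 k191 6 (.s k140 k136 1 (.s k166 k183 4 (.s k162 k174 1 (.d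
  k179 k145 k153 4 6))))), (.s k166 k183 4 (.s k4 k247 12 (.s k12 k8 1 (.s k162 k174 1 (.d k243 k81
  k89 12 14))))), (.s k128 k191 6 (.s k136 k140 1 (.s k68 k204 9 (.s k102 k119 4 (.d k196 k4 k55 7
  12))))), (.s k42 k106 7 (.s k21 k63 6 (.s k166 k183 4 (.s k4 k247 12 (.s k55 k38 4 (.d k196 k68
  k102 7 12))))))] .n) (.c k234 (.l (.s k213 k21 7 (.s k128 k191 6 (.s k136 k140 1 (.s k68 k204 9
  (.s k102 k119 4 (.d k196 k4 k55 7 12))))))) .n))) .n))) (.c k169 (.q k4 [(.s k166 k247 12 (.s k162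
  k174 1 (.s k243 k81 12 (.d k12 k8 k89 1 14)))), (.s k12 k8 1 (.s k84 k168 13 (.s k164 k244 11 (.s
  k88 k240 13 (.d k92 k80 k172 1 11))))), (.s k84 k168 13 (.s k86 k87 0 (.s k166 k247 12 (.s k6 k246
  11 (.s k7 k5 0 (.d k244 k164 k165 11 12))))))] .n) (.c k171 (.l (.s k84 k168 13 (.s k86 k87 0 (.s
  k3 k169 14 (.d k2 k1 k254 0 13))))) (.c k254 (.l (.s k168 k84 13 (.s k169 k171 0 (.s k1 k253 13
  (.d k3 k2 k86 0 14))))) .n))))))))))))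

def t10_183 : T TT 256 :=
  (.f k170 k255 14 (.q k252 [(.s k84 k168 13 (.s k86 k87 0 (.s k2 k254 13 (.d k3 k1 k169 0 14))))]
  (.c k1 (.q k4 [(.s k12 k8 1 (.s k166 k247 12 (.s k162 k174 1 (.d k243 k81 k89 12 14)))), (.s k12
  k8 1 (.s k84 k168 13 (.s k92 k172 11 (.s k88 k80 1 (.d k164 k244 k240 11 13))))), (.s k84 k168 13
  (.s k86 k87 0 (.s k166 k247 12 (.s k6 k246 11 (.s k7 k5 0 (.d k244 k164 k165 11 12))))))] (.c k9
  (.l (.s k166 k247 12 (.s k162 k174 1 (.s k243 k81 12 (.d k12 k8 k89 1 14))))) .n)) (.c k2 (.f k84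
  k168 13 (.f k86 k87 0 (.f k3 k169 14 (.q k6 [(.s k12 k9 2 (.s k166 k246 11 (.d k4 k8 k247 1 12))),
  (.s k166 k246 11 (.s k4 k247 12 (.s k7 k5 0 (.d k244 k164 k165 11 12)))), (.s k12 k9 2 (.s k92
  k172 11 (.s k89 k83 2 (.d k166 k246 k243 11 14)))), (.s k12 k9 2 (.s k8 k4 1 (.s k89 k251 12 (.d
  k92 k83 k172 2 11))))] .n)))) (.c k3 (.f k168 k84 13 (.q k192 [(.s k64 k128 7 (.s k106 k127 6 (.s
  k42 k234 7 (.d k63 k21 k149 6 14)))), (.s k232 k212 5 (.s k40 k104 7 (.s k105 k235 8 (.s k65 k125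
  5 (.s k195 k130 8 (.d k60 k20 k150 5 14))))))] (.c k64 (.l (.s k232 k212 5 (.s k104 k40 7 (.s k148
  k60 13 (.s k128 k188 5 (.s k149 k191 6 (.s k21 k213 7 (.d k63 k42 k106 6 14)))))))) (.c k87 (.l
  (.s k171 k169 0 (.s k64 k128 7 (.s k106 k127 6 (.s k42 k234 7 (.d k63 k21 k149 6 14)))))) (.c k171
  (.q k87 [(.s k64 k128 7 (.s k106 k127 6 (.s k42 k234 7 (.d k63 k21 k149 6 14)))), (.s k232 k212 5
  (.s k40 k104 7 (.s k105 k235 8 (.s k65 k125 5 (.s k195 k130 8 (.d k60 k20 k150 5 14))))))] (.c k64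
  (.l (.s k232 k212 5 (.s k104 k40 7 (.s k148 k60 13 (.s k128 k188 5 (.s k149 k191 6 (.s k21 k213 7
  (.d k63 k42 k106 6 14)))))))) .n)) .n))))) (.c k84 (.q k150 [(.s k20 k215 8 (.s k60 k40 5 (.s k130
  k190 5 (.d k195 k65 k105 8 14)))), (.s k130 k190 5 (.s k195 k65 8 (.s k214 k233 6 (.s k86 k22 7
  (.s k2 k254 13 (.d k3 k1 k169 0 14)))))), (.s k20 k215 8 (.s k60 k40 5 (.s k188 k124 7 (.s k169
  k131 6 (.s k1 k253 13 (.d k3 k2 k86 0 14))))))] (.c k60 (.q k166 [(.s k162 k174 1 (.s k243 k81 12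
  (.s k12 k89 14 (.d k4 k8 k247 1 12)))), (.s k174 k162 1 (.s k182 k134 3 (.s k190 k130 5 (.s k142
  k158 3 (.d k178 k186 k154 1 5))))), (.s k4 k247 12 (.s k20 k215 8 (.s k52 k36 3 (.s k134 k182 3
  (.d k199 k69 k101 8 12)))))] (.c k125 (.l (.s k190 k130 5 (.s k4 k247 12 (.s k12 k8 1 (.s k162
  k174 1 (.d k243 k81 k89 12 14)))))) (.c k190 (.q k125 [(.s k162 k174 1 (.s k243 k81 12 (.s k12 k89
  14 (.d k4 k8 k247 1 12)))), (.s k182 k134 3 (.s k215 k20 8 (.s k247 k4 12 (.s k52 k117 8 (.d k199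
  k231 k101 3 12))))), (.s k65 k105 5 (.s k130 k195 8 (.s k134 k182 3 (.s k142 k138 1 (.s k162 k174
  1 (.d k178 k146 k154 3 5))))))] .n) .n))) (.c k195 (.q k1 [(.s k169 k253 13 (.d k3 k2 k86 0 14)),
  (.s k130 k190 5 (.s k169 k253 13 (.s k131 k188 6 (.s k128 k129 0 (.s k171 k168 0 (.d k191 k151
  k149 5 6)))))), (.s k2 k3 0 (.s k86 k254 13 (.s k22 k214 7 (.s k42 k62 5 (.s k21 k63 6 (.d k20 k23
  k215 0 8))))))] (.c k215 (.q k235 [(.s k169 k253 13 (.d k3 k2 k86 0 14)), (.s k40 k105 8 (.s k60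
  k20 5 (.s k169 k253 13 (.d k188 k131 k124 6 7)))), (.s k2 k3 0 (.s k86 k254 13 (.s k22 k214 7 (.s
  k62 k42 5 (.s k130 k190 5 (.d k194 k66 k106 7 13))))))] .n) (.c k235 (.l (.s k215 k20 8 (.s k3 k2
  0 (.d k169 k253 k86 13 14)))) .n))) .n))) (.c k86 (.q k4 [(.s k166 k247 12 (.s k162 k174 1 (.s
  k243 k81 12 (.d k12 k8 k89 1 14)))), (.s k12 k8 1 (.s k84 k168 13 (.s k92 k172 11 (.s k88 k80 1
  (.d k164 k244 k240 11 13)))))] (.c k8 (.l (.s k166 k247 12 (.s k162 k174 1 (.s k168 k84 13 (.s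
  k169 k171 0 (.s k172 k163 2 (.s k12 k92 11 (.d k243 k89 k81 14 12)))))))) (.c k12 (.l (.s k84 k168
  13 (.s k244 k164 11 (.s k240 k248 1 (.s k160 k80 11 (.s k165 k175 2 (.s k245 k5 11 (.d k247 k246
  k166 0 12)))))))) .n))) (.c k87 (.l (.s k168 k84 13 (.s k169 k171 0 (.s k3 k86 14 (.d k1 k2 k253 0
  13))))) (.c k168 (.q k153 [(.s k17 k221 9 (.s k51 k34 4 (.s k204 k102 14 (.d k136 k187 k68 4
  9)))), (.s k136 k187 4 (.s k204 k68 9 (.s k220 k236 3 (.s k86 k19 10 (.s k2 k254 13 (.d k3 k1 k169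
  0 14)))))), (.s k17 k221 9 (.s k51 k34 4 (.s k185 k118 10 (.s k169 k137 3 (.s k1 k253 13 (.d k3 k2
  k86 0 14))))))] (.c k51 (.f k187 k136 4 (.q k184 [(.s k48 k116 9 (.s k16 k32 3 (.s k186 k185 0 (.d
  k154 k138 k223 3 10)))), (.s k185 k186 0 (.s k169 k137 3 (.s k1 k253 13 (.d k3 k2 k86 0 14)))),
  (.s k48 k116 9 (.s k16 k32 3 (.s k154 k223 10 (.s k139 k169 4 (.d k155 k152 k171 0 3)))))] (.c k48
  (.l (.s k186 k185 0 (.s k154 k138 3 (.s k139 k169 4 (.d k155 k152 k171 0 3))))) .n))) (.c k204 (.q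
  k154 [(.s k16 k223 10 (.s k138 k186 3 (.s k207 k69 10 (.d k48 k32 k101 3 14)))), (.s k155 k152 0
  (.s k186 k138 3 (.s k187 k136 4 (.s k184 k185 0 (.d k139 k171 k169 3 4))))), (.s k16 k223 10 (.s
  k152 k155 0 (.s k220 k84 9 (.s k19 k86 10 (.d k17 k221 k18 9 0)))))] (.c k221 (.q k238 [(.s k138
  k186 3 (.s k207 k69 10 (.s k48 k101 14 (.d k16 k32 k223 3 10)))), (.s k34 k102 9 (.s k51 k17 4 (.s
  k185 k118 10 (.s k186 k138 3 (.d k187 k184 k136 0 4))))), (.s k16 k223 10 (.s k34 k102 9 (.s k17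
  k51 4 (.s k18 k19 0 (.s k2 k50 3 (.d k86 k222 k254 9 13))))))] .n) (.c k238 (.l (.s k221 k17 9 (.s
  k16 k223 10 (.s k48 k32 3 (.s k138 k186 3 (.d k207 k69 k101 10 14)))))) .n))) .n))) (.c k169 (.q
  k4 [(.s k166 k247 12 (.s k162 k174 1 (.s k243 k81 12 (.d k12 k8 k89 1 14)))), (.s k12 k8 1 (.s k84
  k168 13 (.s k164 k244 11 (.s k88 k240 13 (.d k92 k80 k172 1 11))))), (.s k84 k168 13 (.s k86 k87 0
  (.s k166 k247 12 (.s k6 k246 11 (.s k7 k5 0 (.d k244 k164 k165 11 12))))))] .n) (.c k171 (.l (.s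
  k84 k168 13 (.s k86 k87 0 (.s k3 k169 14 (.d k2 k1 k254 0 13))))) (.c k254 (.l (.s k168 k84 13 (.s
  k169 k171 0 (.s k1 k253 13 (.d k3 k2 k86 0 14))))) .n))))))))))))

def t10_186 : T TT 256 :=
  (.q k86 [(.s k84 k87 0 (.s k252 k168 13 (.s k169 k3 14 (.s k253 k1 13 (.d k255 k254 k170 0
  14)))))] (.c k1 (.q k4 [(.s k84 k87 0 (.s k166 k247 12 (.s k6 k246 11 (.s k244 k164 11 (.d k7 k5
  k165 0 12))))), (.s k12 k8 1 (.s k166 k247 12 (.s k89 k243 14 (.s k93 k81 1 (.d k255 k174 k170 12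
  14))))), (.s k12 k8 1 (.s k84 k87 0 (.s k164 k244 11 (.s k88 k240 13 (.s k92 k80 1 (.d k252 k172
  k168 11 13))))))] .n) (.c k3 (.q k4 [(.s k84 k87 0 (.s k166 k247 12 (.s k6 k246 11 (.s k7 k5 0 (.d
  k244 k164 k165 11 12))))), (.s k12 k8 1 (.s k166 k247 12 (.s k89 k243 14 (.s k93 k81 1 (.d k255
  k174 k170 12 14))))), (.s k12 k8 1 (.s k84 k87 0 (.s k164 k244 11 (.s k88 k240 13 (.s k92 k80 1
  (.d k252 k172 k168 11 13))))))] (.c k255 (.l (.s k87 k84 0 (.s k247 k166 12 (.s k7 k167 11 (.s k5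
  k6 0 (.d k165 k245 k244 11 12)))))) .n)) (.c k84 (.q k12 [(.s k4 k8 1 (.s k166 k247 12 (.s k89
  k243 14 (.s k93 k81 1 (.d k255 k174 k170 12 14))))), (.s k255 k170 14 (.s k93 k174 12 (.s k89 k81
  1 (.s k92 k83 2 (.s k252 k172 11 (.s k169 k3 14 (.d k253 k254 k1 0 13))))))), (.s k170 k255 14 (.s
  k2 k254 13 (.s k3 k1 0 (.s k6 k9 2 (.s k166 k246 11 (.d k4 k8 k247 1 12))))))] (.c k166 (.l (.s k8
  k4 1 (.s k170 k255 14 (.s k2 k254 13 (.s k3 k1 0 (.s k9 k6 2 (.s k89 k251 12 (.d k169 k252 k249 14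
  11)))))))) (.c k170 (.l (.s k4 k8 1 (.s k166 k247 12 (.s k6 k246 11 (.s k89 k243 14 (.s k92 k83 2
  (.s k252 k172 11 (.d k3 k9 k169 2 14)))))))) (.c k255 (.l (.s k4 k8 1 (.s k166 k247 12 (.s k243
  k89 14 (.s k246 k6 11 (.s k252 k249 2 (.s k169 k3 14 (.d k172 k163 k92 2 11)))))))) .n)))) (.c k87
  (.q k12 [(.s k4 k8 1 (.s k166 k247 12 (.s k89 k243 14 (.s k93 k81 1 (.d k255 k174 k170 12 14))))),
  (.s k255 k170 14 (.s k93 k174 12 (.s k89 k81 1 (.s k92 k83 2 (.s k252 k172 11 (.s k169 k3 14 (.d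
  k253 k254 k1 0 13))))))), (.s k170 k255 14 (.s k2 k254 13 (.s k3 k1 0 (.s k6 k9 2 (.s k166 k246 11
  (.d k4 k8 k247 1 12))))))] (.c k166 (.l (.s k8 k4 1 (.s k170 k255 14 (.s k2 k254 13 (.s k3 k1 0
  (.s k9 k6 2 (.s k89 k251 12 (.d k169 k252 k249 14 11)))))))) (.c k170 (.l (.s k4 k8 1 (.s k166
  k247 12 (.s k6 k246 11 (.s k89 k243 14 (.s k92 k83 2 (.s k252 k172 11 (.d k3 k9 k169 2 14))))))))
  (.c k255 (.l (.s k4 k8 1 (.s k166 k247 12 (.s k243 k89 14 (.s k246 k6 11 (.s k252 k249 2 (.s k172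
  k92 11 (.d k169 k163 k3 2 14)))))))) .n)))) (.c k168 (.l (.s k87 k84 0 (.s k255 k170 14 (.s k3
  k171 13 (.s k169 k252 14 (.d k1 k2 k253 0 13)))))) (.c k169 (.q k4 [(.s k84 k87 0 (.s k166 k247 12
  (.s k6 k246 11 (.s k7 k5 0 (.d k244 k164 k165 11 12))))), (.s k12 k8 1 (.s k166 k247 12 (.s k89
  k243 14 (.s k93 k81 1 (.d k255 k174 k170 12 14))))), (.s k12 k8 1 (.s k84 k87 0 (.s k164 k244 11
  (.s k88 k240 13 (.s k92 k80 1 (.d k252 k172 k168 11 13))))))] .n) (.c k170 (.f k84 k87 0 (.q k154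
  [(.s k16 k223 10 (.s k18 k222 9 (.s k19 k17 0 (.d k220 k152 k153 9 10)))), (.s k222 k18 9 (.s k252
  k168 13 (.s k207 k237 4 (.s k69 k138 10 (.d k101 k117 k48 3 14))))), (.s k16 k223 10 (.s k48 k32 3
  (.s k101 k207 14 (.s k116 k71 4 (.d k252 k184 k168 9 13)))))] (.c k90 (.q k250 [(.s k16 k223 10
  (.s k18 k222 9 (.s k19 k17 0 (.d k220 k152 k153 9 10)))), (.s k222 k18 9 (.s k252 k168 13 (.s k207
  k237 4 (.s k69 k138 10 (.d k101 k117 k48 3 14))))), (.s k16 k223 10 (.s k48 k32 3 (.s k101 k207 14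
  (.s k116 k71 4 (.d k252 k184 k168 9 13)))))] .n) (.c k250 (.q k90 [(.s k16 k223 10 (.s k18 k222 9
  (.s k19 k17 0 (.d k220 k152 k153 9 10)))), (.s k80 k95 2 (.s k82 k94 1 (.s k83 k81 0 (.d k92 k88
  k89 1 2))))] (.c k58 (.q k122 [(.s k16 k223 10 (.s k18 k222 9 (.s k19 k17 0 (.d k220 k152 k153 9
  10)))), (.s k80 k95 2 (.s k82 k94 1 (.s k83 k81 0 (.d k92 k88 k89 1 2))))] (.c k26 (.q k42 [(.s
  k63 k21 6 (.s k80 k95 2 (.d k240 k181 k160 10 11))), (.s k16 k223 10 (.s k18 k222 9 (.s k19 k17 0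
  (.d k220 k152 k153 9 10))))] (.c k16 (.l (.s k80 k95 2 (.s k240 k160 11 (.d k63 k21 k181 6 10))))
  .n)) (.c k42 (.l (.s k26 k218 7 (.s k16 k223 10 (.s k18 k222 9 (.s k19 k17 0 (.d k220 k152 k153 9
  10)))))) .n))) (.c k122 (.q k58 [(.s k16 k223 10 (.s k18 k222 9 (.s k19 k17 0 (.d k220 k152 k153 9
  10)))), (.s k80 k95 2 (.s k82 k94 1 (.s k83 k81 0 (.d k92 k88 k89 1 2))))] .n) .n))) .n)))) (.c
  k171 (.l (.s k84 k87 0 (.s k252 k168 13 (.s k3 k169 14 (.s k170 k255 14 (.d k2 k1 k254 0 13))))))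
  (.c k252 (.q k7 [(.s k84 k87 0 (.s k244 k165 12 (.s k4 k164 11 (.s k6 k5 0 (.d k166 k246 k247 11
  12))))), (.s k165 k244 12 (.s k245 k5 11 (.s k255 k170 14 (.s k240 k250 2 (.s k90 k15 14 (.d k80
  k95 k160 2 11)))))), (.s k87 k84 0 (.s k167 k247 11 (.s k255 k170 14 (.s k3 k171 13 (.s k15 k11 1
  (.s k91 k243 13 (.d k95 k83 k175 1 11)))))))] .n) (.c k253 (.l (.s k84 k87 0 (.s k170 k255 14 (.s
  k2 k254 13 (.s k252 k168 13 (.d k3 k1 k169 0 14)))))) (.c k254 (.l (.s k87 k84 0 (.s k255 k170 14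
  (.s k3 k171 13 (.s k1 k2 0 (.d k169 k253 k252 13 14)))))) (.c k255 (.q k48 [(.s k16 k32 3 (.s k87
  k84 0 (.s k223 k154 10 (.s k19 k155 9 (.s k17 k18 0 (.d k153 k221 k220 9 10)))))), (.s k84 k87 0
  (.s k252 k168 13 (.s k116 k184 9 (.s k101 k71 4 (.s k69 k117 3 (.d k207 k138 k154 10 14)))))), (.s
  k16 k32 3 (.s k154 k223 10 (.s k18 k222 9 (.s k3 k33 4 (.s k1 k2 0 (.d k169 k253 k252 13 14))))))]
  (.c k154 (.l (.s k16 k32 3 (.s k84 k87 0 (.s k152 k220 9 (.s k100 k204 13 (.s k116 k68 3 (.d k252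
  k184 k168 9 13))))))) .n)) .n)))))))))))))

def t10_187 : T TT 256 :=
  (.q k166 [(.s k4 k247 12 (.s k12 k8 1 (.s k89 k243 14 (.s k93 k81 1 (.d k255 k174 k170 12 14))))),
  (.s k247 k4 12 (.s k255 k170 14 (.s k243 k251 1 (.s k89 k12 14 (.d k81 k93 k162 1 12)))))] (.c k4
  (.q k1 [(.s k3 k2 0 (.s k169 k253 13 (.s k86 k252 14 (.s k87 k84 0 (.d k255 k171 k170 13 14))))),
  (.s k169 k253 13 (.s k163 k172 2 (.s k170 k255 14 (.s k162 k174 1 (.s k81 k243 12 (.d k161 k160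
  k241 0 11)))))), (.s k3 k2 0 (.s k170 k255 14 (.s k162 k174 1 (.s k81 k243 12 (.s k161 k241 11 (.s
  k160 k163 0 (.d k240 k80 k82 11 12))))))), (.s k3 k2 0 (.s k169 k253 13 (.s k163 k172 2 (.s k243
  k83 11 (.s k81 k162 12 (.d k89 k93 k12 1 14))))))] .n) (.c k8 (.l (.s k247 k4 12 (.s k255 k170 14
  (.s k243 k251 1 (.s k89 k12 14 (.d k81 k93 k162 1 12)))))) (.c k12 (.q k20 [(.s k4 k247 12 (.s
  k150 k215 8 (.s k134 k182 3 (.s k199 k69 8 (.d k52 k36 k101 3 12))))), (.s k60 k40 5 (.s k150 k215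
  8 (.s k170 k255 14 (.s k130 k190 5 (.d k195 k65 k105 8 14))))), (.s k4 k247 12 (.s k36 k52 3 (.s
  k40 k60 5 (.s k44 k32 1 (.s k105 k227 10 (.d k170 k235 k255 8 14))))))] .n) (.c k81 (.q k3 [(.s k1
  k2 0 (.s k169 k253 13 (.s k86 k252 14 (.s k87 k84 0 (.d k255 k171 k170 13 14))))), (.s k1 k2 0 (.s
  k4 k247 12 (.s k12 k8 1 (.s k169 k253 13 (.s k163 k172 2 (.d k243 k83 k89 11 14)))))), (.s k4 k247
  12 (.s k12 k8 1 (.s k255 k170 14 (.s k87 k171 13 (.s k86 k84 0 (.d k6 k9 k246 2 11))))))] (.c k6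
  (.l (.s k2 k1 0 (.s k170 k255 14 (.s k86 k254 13 (.s k84 k87 0 (.d k252 k168 k169 13 14)))))) (.c
  k169 (.l (.s k2 k1 0 (.s k4 k247 12 (.s k12 k8 1 (.s k170 k255 14 (.s k86 k254 13 (.d k6 k9 k246 2
  11))))))) .n))) (.c k89 (.q k1 [(.s k3 k2 0 (.s k169 k253 13 (.s k86 k252 14 (.s k87 k84 0 (.d
  k255 k171 k170 13 14))))), (.s k169 k253 13 (.s k163 k172 2 (.s k170 k255 14 (.s k162 k174 1 (.s
  k81 k243 12 (.d k161 k160 k241 0 11)))))), (.s k3 k2 0 (.s k170 k255 14 (.s k162 k174 1 (.s k81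
  k243 12 (.s k161 k241 11 (.s k160 k163 0 (.d k240 k80 k82 11 12)))))))] (.c k170 (.l (.s k3 k2 0
  (.s k4 k247 12 (.s k169 k253 13 (.s k86 k252 14 (.s k6 k246 11 (.d k12 k8 k9 1 2))))))) (.c k255
  (.l (.s k3 k2 0 (.s k4 k247 12 (.s k12 k8 1 (.s k169 k253 13 (.s k172 k163 2 (.d k252 k92 k86 11
  14))))))) .n))) (.c k93 (.l (.s k4 k247 12 (.s k12 k8 1 (.s k170 k255 14 (.s k162 k174 1 (.d k243
  k81 k89 12 14)))))) (.c k170 (.f k4 k247 12 (.q k153 [(.s k17 k221 9 (.s k51 k34 4 (.s k102 k204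
  14 (.s k38 k230 7 (.d k12 k8 k25 1 6))))), (.s k12 k8 1 (.s k140 k179 6 (.s k204 k76 7 (.s k68
  k136 9 (.d k102 k119 k51 4 14))))), (.s k17 k221 9 (.s k51 k34 4 (.s k102 k204 14 (.s k38 k230 7
  (.s k55 k21 4 (.s k68 k119 4 (.d k196 k132 k149 7 12))))))), (.s k12 k8 1 (.s k17 k221 9 (.s k89
  k243 14 (.s k25 k217 7 (.s k29 k21 1 (.s k81 k93 1 (.d k209 k145 k149 7 9)))))))] (.c k90 (.q k250
  [(.s k17 k221 9 (.s k51 k34 4 (.s k102 k204 14 (.s k38 k230 7 (.d k12 k8 k25 1 6))))), (.s k12 k8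
  1 (.s k140 k179 6 (.s k204 k76 7 (.s k68 k136 9 (.d k102 k119 k51 4 14))))), (.s k17 k221 9 (.s
  k51 k34 4 (.s k102 k204 14 (.s k38 k230 7 (.s k55 k21 4 (.s k68 k119 4 (.d k196 k132 k149 7
  12))))))), (.s k12 k8 1 (.s k17 k221 9 (.s k89 k243 14 (.s k25 k217 7 (.s k29 k21 1 (.s k81 k93 1
  (.d k209 k145 k149 7 9)))))))] (.c k204 (.l (.s k12 k8 1 (.s k17 k221 9 (.s k51 k34 4 (.s k25 k38
  6 (.d k89 k217 k243 7 14)))))) .n)) (.c k204 (.l (.s k12 k8 1 (.s k17 k221 9 (.s k51 k34 4 (.s k25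
  k38 6 (.d k89 k217 k243 7 14)))))) (.c k250 (.q k90 [(.s k17 k221 9 (.s k27 k216 8 (.s k51 k34 4
  (.s k15 k39 5 (.s k80 k95 2 (.d k240 k160 k165 11 14)))))), (.s k12 k8 1 (.s k14 k242 13 (.s k15
  k13 0 (.s k80 k95 2 (.d k240 k160 k165 11 14))))), (.s k17 k221 9 (.s k51 k34 4 (.s k102 k204 14
  (.s k38 k230 7 (.d k12 k8 k25 1 6)))))] .n) .n))))) (.c k243 (.q k16 [(.s k48 k32 3 (.s k154 k223
  10 (.s k101 k207 14 (.s k117 k69 3 (.d k255 k186 k170 10 14))))), (.s k154 k223 10 (.s k170 k255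
  14 (.s k162 k174 1 (.s k178 k142 5 (.s k130 k146 3 (.s k186 k138 3 (.d k190 k182 k150 1 5))))))),
  (.s k4 k247 12 (.s k12 k8 1 (.s k48 k32 3 (.s k36 k24 5 (.s k101 k231 8 (.s k69 k117 3 (.d k207
  k138 k154 10 14)))))))] (.c k154 (.l (.s k4 k247 12 (.s k12 k8 1 (.s k48 k32 3 (.s k36 k24 5 (.s
  k101 k231 8 (.s k117 k69 3 (.d k255 k186 k170 10 14)))))))) (.c k207 (.l (.s k4 k247 12 (.s k12 k8
  1 (.s k48 k32 3 (.s k36 k24 5 (.s k255 k170 14 (.s k117 k186 10 (.d k101 k69 k231 3 8)))))))) (.c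
  k255 (.l (.s k48 k32 3 (.s k154 k223 10 (.s k142 k178 5 (.s k207 k101 14 (.s k12 k77 8 (.d k4 k8
  k247 1 12))))))) .n)))) (.c k247 (.q k3 [(.s k1 k2 0 (.s k169 k253 13 (.s k86 k252 14 (.s k87 k84
  0 (.d k255 k171 k170 13 14))))), (.s k1 k2 0 (.s k169 k253 13 (.s k163 k172 2 (.s k243 k83 11 (.s
  k81 k162 12 (.d k89 k93 k12 1 14)))))), (.s k170 k255 14 (.s k162 k174 1 (.s k243 k81 12 (.s k163
  k83 11 (.s k169 k172 2 (.s k168 k171 0 (.d k252 k84 k86 13 14)))))))] (.c k169 (.l (.s k2 k1 0 (.s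
  k170 k255 14 (.s k86 k254 13 (.s k6 k246 11 (.s k12 k9 2 (.s k8 k4 1 (.d k89 k251 k243 12
  14)))))))) .n)) (.c k251 (.l (.s k4 k247 12 (.s k12 k8 1 (.s k89 k243 14 (.s k255 k170 14 (.d k93
  k81 k174 1 12)))))) (.c k255 (.q k51 [(.s k17 k34 4 (.s k153 k221 9 (.s k179 k140 6 (.s k243 k115
  7 (.s k81 k162 12 (.d k89 k93 k12 1 14)))))), (.s k4 k247 12 (.s k12 k8 1 (.s k38 k25 6 (.s k102
  k230 7 (.s k68 k119 4 (.d k204 k136 k153 9 14)))))), (.s k4 k247 12 (.s k12 k8 1 (.s k34 k17 4 (.s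
  k38 k25 6 (.s k21 k55 4 (.d k42 k46 k63 1 6))))))] (.c k12 (.f k17 k34 4 (.l (.s k153 k221 9 (.s
  k179 k140 6 (.s k204 k102 14 (.s k243 k115 7 (.s k81 k162 12 (.s k217 k230 6 (.d k89 k93 k25 1
  7))))))))) (.c k243 (.l (.s k17 k34 4 (.s k153 k221 9 (.s k140 k179 6 (.s k204 k102 14 (.s k12 k76
  7 (.d k4 k8 k247 1 12))))))) .n))) .n))))))))))))

def t10_191 : T TT 256 :=
  (.q k89 [(.s k81 k93 1 (.s k243 k162 12 (.s k166 k12 14 (.s k247 k4 12 (.d k255 k251 k170 1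
  14)))))] (.c k4 (.q k1 [(.s k81 k93 1 (.s k169 k253 13 (.s k9 k249 11 (.s k241 k161 11 (.d k13 k5
  k165 1 13))))), (.s k3 k2 0 (.s k169 k253 13 (.s k86 k252 14 (.s k87 k84 0 (.d k255 k171 k170 13
  14))))), (.s k3 k2 0 (.s k81 k93 1 (.s k161 k241 11 (.s k82 k240 12 (.s k83 k80 0 (.d k243 k163
  k162 11 12))))))] .n) (.c k12 (.q k1 [(.s k81 k93 1 (.s k169 k253 13 (.s k9 k249 11 (.s k13 k5 1
  (.d k241 k161 k165 11 13))))), (.s k3 k2 0 (.s k169 k253 13 (.s k86 k252 14 (.s k87 k84 0 (.d k255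
  k171 k170 13 14))))), (.s k3 k2 0 (.s k81 k93 1 (.s k161 k241 11 (.s k82 k240 12 (.s k83 k80 0 (.d
  k243 k163 k162 11 12))))))] (.c k255 (.l (.s k93 k81 1 (.s k253 k169 13 (.s k13 k173 11 (.s k5 k9
  1 (.d k165 k245 k241 11 13)))))) .n)) (.c k81 (.q k3 [(.s k1 k2 0 (.s k169 k253 13 (.s k86 k252 14
  (.s k87 k84 0 (.d k255 k171 k170 13 14))))), (.s k255 k170 14 (.s k87 k171 13 (.s k86 k84 0 (.s
  k83 k92 2 (.s k243 k163 11 (.s k166 k12 14 (.d k247 k251 k4 1 12))))))), (.s k170 k255 14 (.s k8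
  k251 12 (.s k12 k4 1 (.s k9 k6 2 (.s k169 k249 11 (.d k1 k2 k253 0 13))))))] (.c k169 (.l (.s k2
  k1 0 (.s k170 k255 14 (.s k8 k251 12 (.s k12 k4 1 (.s k6 k9 2 (.s k86 k254 13 (.d k166 k243 k246
  14 11)))))))) (.c k170 (.l (.s k1 k2 0 (.s k169 k253 13 (.s k9 k249 11 (.s k86 k252 14 (.s k83 k92
  2 (.s k243 k163 11 (.d k12 k6 k166 2 14)))))))) (.c k255 (.l (.s k1 k2 0 (.s k169 k253 13 (.s k249
  k9 11 (.s k252 k86 14 (.s k243 k246 2 (.s k163 k83 11 (.d k166 k172 k12 2 14)))))))) .n)))) (.c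
  k93 (.q k3 [(.s k1 k2 0 (.s k169 k253 13 (.s k86 k252 14 (.s k87 k84 0 (.d k255 k171 k170 13
  14))))), (.s k255 k170 14 (.s k87 k171 13 (.s k86 k84 0 (.s k83 k92 2 (.s k243 k163 11 (.s k166
  k12 14 (.d k247 k251 k4 1 12))))))), (.s k170 k255 14 (.s k8 k251 12 (.s k12 k4 1 (.s k9 k6 2 (.s
  k169 k249 11 (.d k1 k2 k253 0 13))))))] (.c k169 (.l (.s k2 k1 0 (.s k170 k255 14 (.s k8 k251 12
  (.s k12 k4 1 (.s k6 k9 2 (.s k86 k254 13 (.d k166 k243 k246 14 11)))))))) (.c k170 (.l (.s k1 k2 0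
  (.s k169 k253 13 (.s k9 k249 11 (.s k86 k252 14 (.s k83 k92 2 (.s k243 k163 11 (.d k12 k6 k166 2
  14)))))))) (.c k255 (.l (.s k1 k2 0 (.s k169 k253 13 (.s k249 k9 11 (.s k252 k86 14 (.s k243 k246
  2 (.s k163 k83 11 (.d k166 k172 k12 2 14)))))))) .n)))) (.c k162 (.l (.s k93 k81 1 (.s k255 k170
  14 (.s k12 k174 12 (.s k166 k243 14 (.d k4 k8 k247 1 12)))))) (.c k166 (.q k1 [(.s k81 k93 1 (.s
  k169 k253 13 (.s k9 k249 11 (.s k13 k5 1 (.d k241 k161 k165 11 13))))), (.s k3 k2 0 (.s k169 k253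
  13 (.s k86 k252 14 (.s k87 k84 0 (.d k255 k171 k170 13 14))))), (.s k3 k2 0 (.s k81 k93 1 (.s k161
  k241 11 (.s k82 k240 12 (.s k83 k80 0 (.d k243 k163 k162 11 12))))))] .n) (.c k170 (.f k81 k93 1
  (.q k149 [(.s k209 k29 9 (.s k17 k145 7 (.s k213 k21 7 (.d k221 k217 k153 1 9)))), (.s k21 k213 7
  (.s k63 k42 6 (.s k106 k192 14 (.s k123 k72 4 (.d k243 k183 k162 9 12))))), (.s k209 k29 9 (.s
  k243 k162 12 (.s k192 k226 4 (.s k64 k128 7 (.d k106 k127 k63 6 14)))))] (.c k90 (.q k250 [(.s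
  k209 k29 9 (.s k17 k145 7 (.s k213 k21 7 (.d k221 k217 k153 1 9)))), (.s k21 k213 7 (.s k63 k42 6
  (.s k106 k192 14 (.s k123 k72 4 (.d k243 k183 k162 9 12))))), (.s k209 k29 9 (.s k243 k162 12 (.s
  k192 k226 4 (.s k64 k128 7 (.d k106 k127 k63 6 14)))))] .n) (.c k250 (.q k90 [(.s k80 k95 2 (.s
  k83 k82 0 (.s k88 k91 0 (.d k92 k84 k86 1 2)))), (.s k209 k29 9 (.s k17 k145 7 (.s k213 k21 7 (.d
  k221 k217 k153 1 9))))] .n) .n)))) (.c k174 (.l (.s k81 k93 1 (.s k243 k162 12 (.s k12 k166 14 (.s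
  k170 k255 14 (.d k8 k4 k251 1 12)))))) (.c k243 (.q k2 [(.s k3 k1 0 (.s k170 k255 14 (.s k86 k254
  13 (.s k84 k87 0 (.d k252 k168 k169 13 14))))), (.s k1 k3 0 (.s k81 k93 1 (.s k169 k253 13 (.s
  k241 k161 11 (.s k13 k165 13 (.d k9 k5 k249 1 11)))))), (.s k81 k93 1 (.s k170 k255 14 (.s k86
  k254 13 (.s k83 k92 2 (.s k80 k82 0 (.s k87 k84 0 (.d k95 k91 k90 1 2)))))))] (.c k253 (.l (.s k3
  k1 0 (.s k170 k255 14 (.s k86 k254 13 (.s k252 k169 14 (.d k84 k87 k168 0 13)))))) .n)) (.c k247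
  (.l (.s k81 k93 1 (.s k170 k255 14 (.s k8 k251 12 (.s k243 k162 12 (.d k12 k4 k166 1 14)))))) (.c
  k251 (.l (.s k93 k81 1 (.s k255 k170 14 (.s k12 k174 12 (.s k4 k8 1 (.d k166 k247 k243 12 14))))))
  (.c k255 (.q k63 [(.s k81 k93 1 (.s k243 k162 12 (.s k12 k166 14 (.s k29 k46 4 (.s k149 k209 9 (.d
  k21 k42 k213 6 7)))))), (.s k21 k42 6 (.s k93 k81 1 (.s k149 k213 7 (.s k29 k209 9 (.s k17 k25 1
  (.d k221 k157 k153 7 9)))))), (.s k81 k93 1 (.s k243 k162 12 (.s k123 k183 9 (.s k106 k72 4 (.s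
  k64 k127 6 (.d k192 k128 k149 7 14)))))), (.s k21 k42 6 (.s k149 k213 7 (.s k29 k209 9 (.s k12 k46
  4 (.s k4 k8 1 (.d k166 k247 k243 12 14))))))] (.c k149 (.f k21 k42 6 (.l (.s k81 k93 1 (.s k243
  k162 12 (.s k12 k166 14 (.s k4 k8 1 (.s k29 k46 4 (.s k25 k17 1 (.d k38 k55 k51 4 6))))))))) .n))
  .n)))))))))))))

def t10_240 : T TT 256 :=
  (.q k86 [(.s k84 k87 0 (.s k252 k168 13 (.s k3 k169 14 (.s k2 k1 0 (.d k170 k254 k255 13 14)))))]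
  (.c k1 (.q k4 [(.s k84 k87 0 (.s k166 k247 12 (.s k6 k246 11 (.s k7 k5 0 (.d k244 k164 k165 11
  12))))), (.s k12 k8 1 (.s k166 k247 12 (.s k89 k243 14 (.s k93 k81 1 (.d k255 k174 k170 12
  14))))), (.s k8 k12 1 (.s k84 k87 0 (.s k168 k252 13 (.s k170 k255 14 (.s k89 k251 12 (.s k92 k83
  2 (.d k88 k248 k80 11 1)))))))] (.c k247 (.l (.s k12 k8 1 (.s k84 k87 0 (.s k244 k164 11 (.s k7
  k165 12 (.s k6 k5 0 (.s k252 k168 13 (.d k3 k9 k169 2 14)))))))) .n)) (.c k2 (.l (.s k84 k87 0 (.s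
  k252 k168 13 (.s k169 k3 14 (.s k253 k1 13 (.d k255 k254 k170 0 14)))))) (.c k3 (.f k87 k84 0 (.q
  k69 [(.s k101 k117 3 (.s k71 k116 4 (.s k119 k103 3 (.d k68 k70 k102 0 4)))), (.s k101 k117 3 (.s
  k170 k255 14 (.s k32 k239 10 (.s k48 k16 3 (.d k207 k138 k154 10 14))))), (.s k138 k207 10 (.s
  k170 k255 14 (.s k2 k254 13 (.s k70 k206 9 (.s k102 k118 3 (.d k68 k71 k119 0 4))))))] (.c k82 (.q
  k161 [(.s k101 k117 3 (.s k71 k116 4 (.s k119 k103 3 (.d k68 k70 k102 0 4)))), (.s k101 k117 3 (.s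
  k170 k255 14 (.s k32 k239 10 (.s k48 k16 3 (.d k207 k138 k154 10 14))))), (.s k138 k207 10 (.s
  k170 k255 14 (.s k2 k254 13 (.s k70 k206 9 (.s k102 k118 3 (.d k68 k71 k119 0 4))))))] .n) (.c
  k161 (.q k82 [(.s k101 k117 3 (.s k71 k116 4 (.s k119 k103 3 (.d k68 k70 k102 0 4)))), (.s k90 k94
  1 (.s k80 k95 2 (.s k81 k83 0 (.s k170 k255 14 (.s k2 k254 13 (.d k162 k243 k242 12 11))))))] .n)
  .n)))) (.c k84 (.q k12 [(.s k4 k8 1 (.s k166 k247 12 (.s k89 k243 14 (.s k93 k81 1 (.d k255 k174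
  k170 12 14))))), (.s k255 k170 14 (.s k93 k174 12 (.s k89 k81 1 (.s k92 k83 2 (.s k252 k172 11 (.s
  k169 k3 14 (.d k253 k254 k1 0 13))))))), (.s k170 k255 14 (.s k2 k254 13 (.s k3 k1 0 (.s k6 k9 2
  (.s k166 k246 11 (.d k4 k8 k247 1 12))))))] (.c k166 (.l (.s k8 k4 1 (.s k170 k255 14 (.s k2 k254
  13 (.s k3 k1 0 (.s k9 k6 2 (.s k89 k251 12 (.d k169 k252 k249 14 11)))))))) (.c k170 (.l (.s k4 k8
  1 (.s k166 k247 12 (.s k6 k246 11 (.s k89 k243 14 (.s k92 k83 2 (.s k252 k172 11 (.d k3 k9 k169 2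
  14)))))))) (.c k255 (.l (.s k4 k8 1 (.s k166 k247 12 (.s k243 k89 14 (.s k246 k6 11 (.s k252 k249
  2 (.s k169 k3 14 (.d k172 k163 k92 2 11)))))))) .n)))) (.c k87 (.q k12 [(.s k8 k4 1 (.s k170 k255
  14 (.s k89 k251 12 (.s k81 k93 1 (.d k243 k162 k166 12 14))))), (.s k4 k8 1 (.s k166 k247 12 (.s
  k243 k89 14 (.s k246 k6 11 (.s k252 k249 2 (.s k172 k92 11 (.d k169 k163 k3 2 14))))))), (.s k255
  k170 14 (.s k93 k174 12 (.s k89 k81 1 (.s k92 k83 2 (.s k252 k172 11 (.s k169 k3 14 (.d k253 k254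
  k1 0 13))))))), (.s k170 k255 14 (.s k2 k254 13 (.s k3 k1 0 (.s k6 k9 2 (.s k166 k246 11 (.d k4 k8
  k247 1 12))))))] (.c k3 (.l (.s k4 k8 1 (.s k166 k247 12 (.s k89 k243 14 (.s k93 k81 1 (.d k255
  k174 k170 12 14)))))) (.c k166 (.l (.s k8 k4 1 (.s k170 k255 14 (.s k2 k254 13 (.s k3 k1 0 (.s k9
  k6 2 (.s k89 k251 12 (.d k169 k252 k249 14 11)))))))) (.c k170 (.l (.s k4 k8 1 (.s k166 k247 12
  (.s k6 k246 11 (.s k89 k243 14 (.s k92 k83 2 (.s k252 k172 11 (.d k3 k9 k169 2 14)))))))) .n))))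
  (.c k168 (.l (.s k87 k84 0 (.s k255 k170 14 (.s k3 k171 13 (.s k169 k252 14 (.d k1 k2 k253 0
  13)))))) (.c k169 (.q k4 [(.s k84 k87 0 (.s k166 k247 12 (.s k6 k246 11 (.s k7 k5 0 (.d k244 k164
  k165 11 12))))), (.s k12 k8 1 (.s k166 k247 12 (.s k89 k243 14 (.s k93 k81 1 (.d k255 k174 k170 12
  14)))))] (.c k166 (.l (.s k8 k12 1 (.s k84 k87 0 (.s k168 k252 13 (.s k170 k255 14 (.s k89 k251 12
  (.s k92 k83 2 (.d k88 k248 k80 11 1)))))))) (.c k247 (.l (.s k12 k8 1 (.s k84 k87 0 (.s k252 k168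
  13 (.s k92 k172 11 (.s k89 k83 2 (.s k81 k93 1 (.d k243 k166 k162 14 12)))))))) .n))) (.c k170 (.f
  k84 k87 0 (.q k165 [(.s k244 k7 12 (.s k245 k5 11 (.s k247 k246 0 (.d k4 k164 k166 11 12)))), (.s
  k5 k245 11 (.s k252 k168 13 (.s k169 k3 14 (.s k1 k253 13 (.s k13 k9 1 (.s k161 k173 1 (.d k241
  k81 k89 11 13))))))), (.s k244 k7 12 (.s k4 k164 11 (.s k12 k8 1 (.s k252 k168 13 (.s k169 k3 14
  (.s k172 k92 11 (.d k166 k247 k163 12 2)))))))] (.c k90 (.q k250 [(.s k244 k7 12 (.s k245 k5 11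
  (.s k247 k246 0 (.d k4 k164 k166 11 12)))), (.s k5 k245 11 (.s k252 k168 13 (.s k169 k3 14 (.s k1
  k253 13 (.s k13 k9 1 (.s k161 k173 1 (.d k241 k81 k89 11 13))))))), (.s k244 k7 12 (.s k4 k164 11
  (.s k12 k8 1 (.s k252 k168 13 (.s k169 k3 14 (.s k172 k92 11 (.d k166 k247 k163 12 2)))))))] .n)
  (.c k250 (.q k90 [(.s k94 k82 1 (.s k252 k168 13 (.s k173 k15 12 (.d k169 k161 k3 1 14)))), (.s
  k244 k7 12 (.s k4 k164 11 (.s k245 k5 11 (.d k247 k246 k166 0 12))))] (.c k245 (.q k255 [(.s k252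
  k168 13 (.s k169 k3 14 (.d k253 k254 k1 0 13))), (.s k80 k95 2 (.s k82 k94 1 (.s k83 k81 0 (.d k92
  k88 k89 1 2))))] (.c k82 (.l (.s k252 k168 13 (.s k253 k254 0 (.d k169 k1 k3 13 14)))) .n)) (.c
  k255 (.l (.s k245 k5 11 (.s k244 k7 12 (.s k4 k164 11 (.d k247 k246 k166 0 12))))) .n))) .n))))
  (.c k171 (.l (.s k84 k87 0 (.s k252 k168 13 (.s k3 k169 14 (.s k170 k255 14 (.d k2 k1 k254 0
  13)))))) (.c k252 (.f k84 k87 0 (.q k60 [(.s k20 k40 5 (.s k212 k148 7 (.s k23 k149 8 (.s k150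
  k215 8 (.d k22 k21 k214 0 7))))), (.s k255 k170 14 (.s k125 k190 8 (.s k105 k65 5 (.s k124 k67 6
  (.s k64 k104 5 (.d k127 k126 k106 0 6))))))] (.c k150 (.l (.s k40 k20 5 (.s k170 k255 14 (.s k105
  k235 8 (.s k124 k67 6 (.s k64 k104 5 (.s k125 k65 5 (.d k127 k126 k106 0 6)))))))) (.c k244 (.q
  k248 [(.s k20 k40 5 (.s k212 k148 7 (.s k23 k149 8 (.s k150 k215 8 (.d k22 k21 k214 0 7))))), (.s
  k255 k170 14 (.s k125 k190 8 (.s k105 k65 5 (.s k124 k67 6 (.s k64 k104 5 (.d k127 k126 k106 0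
  6))))))] (.c k150 (.l (.s k40 k20 5 (.s k170 k255 14 (.s k105 k235 8 (.s k124 k67 6 (.s k64 k104 5
  (.s k125 k65 5 (.d k127 k126 k106 0 6)))))))) .n)) (.c k248 (.q k244 [(.s k4 k164 11 (.s k165 k7
  12 (.s k245 k5 11 (.d k247 k246 k166 0 12)))), (.s k20 k40 5 (.s k150 k215 8 (.s k22 k214 7 (.s
  k23 k21 0 (.d k212 k148 k149 7 8)))))] .n) .n))))) (.c k254 (.l (.s k87 k84 0 (.s k255 k170 14 (.s
  k3 k171 13 (.s k1 k2 0 (.d k169 k253 k252 13 14)))))) (.c k255 (.q k89 [(.s k81 k93 1 (.s k83 k92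
  2 (.s k87 k84 0 (.s k95 k91 1 (.d k80 k82 k90 0 2))))), (.s k81 k93 1 (.s k84 k87 0 (.s k243 k162
  12 (.s k252 k168 13 (.s k246 k249 2 (.d k166 k12 k6 14 11)))))), (.s k84 k87 0 (.s k92 k83 2 (.s
  k252 k168 13 (.s k12 k172 11 (.s k4 k8 1 (.d k166 k247 k243 12 14)))))), (.s k81 k93 1 (.s k83 k92
  2 (.s k243 k162 12 (.s k3 k163 11 (.s k1 k2 0 (.d k169 k253 k252 13 14))))))] (.c k12 (.l (.s k83
  k92 2 (.s k87 k84 0 (.s k95 k91 1 (.s k80 k90 2 (.d k81 k82 k93 0 1)))))) (.c k245 (.q k250 [(.s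
  k83 k92 2 (.s k87 k84 0 (.s k95 k91 1 (.s k80 k90 2 (.d k81 k82 k93 0 1))))), (.s k81 k93 1 (.s
  k84 k87 0 (.s k243 k162 12 (.s k252 k168 13 (.s k246 k249 2 (.d k166 k12 k6 14 11)))))), (.s k84
  k87 0 (.s k92 k83 2 (.s k252 k168 13 (.s k12 k172 11 (.s k4 k8 1 (.d k166 k247 k243 12 14)))))),
  (.s k81 k93 1 (.s k83 k92 2 (.s k243 k162 12 (.s k3 k163 11 (.s k1 k2 0 (.d k169 k253 k252 13
  14))))))] .n) (.c k250 (.q k245 [(.s k81 k93 1 (.s k83 k92 2 (.s k87 k84 0 (.s k95 k91 1 (.d k80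
  k90 k82 2 0))))), (.s k84 k87 0 (.s k165 k5 11 (.s k244 k7 12 (.s k4 k164 11 (.d k247 k246 k166 0
  12))))), (.s k81 k93 1 (.s k165 k5 11 (.s k241 k13 13 (.s k1 k161 11 (.d k253 k249 k169 1 13)))))]
  (.c k12 (.l (.s k84 k87 0 (.s k92 k83 2 (.s k93 k81 1 (.s k95 k94 0 (.d k80 k88 k90 1 2)))))) (.c
  k90 (.q k170 [(.s k2 k254 13 (.s k3 k1 0 (.s k84 k87 0 (.d k252 k168 k169 13 14)))), (.s k8 k251
  12 (.s k12 k4 1 (.s k81 k93 1 (.d k243 k162 k166 12 14))))] (.c k15 (.l (.s k165 k5 11 (.s k2 k254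
  13 (.s k1 k3 0 (.s k81 k93 1 (.d k241 k161 k13 11 13)))))) (.c k165 (.q k15 [(.s k2 k254 13 (.s k3
  k1 0 (.s k84 k87 0 (.d k252 k168 k169 13 14)))), (.s k8 k251 12 (.s k12 k4 1 (.s k81 k93 1 (.d
  k243 k162 k166 12 14))))] .n) .n))) (.c k170 (.q k90 [(.s k80 k95 2 (.s k82 k94 1 (.d k81 k93 k83
  1 0))), (.s k81 k93 1 (.s k165 k5 11 (.s k241 k13 13 (.s k1 k161 11 (.d k253 k249 k169 1 13))))),
  (.s k80 k95 2 (.s k84 k87 0 (.d k88 k91 k92 0 1)))] .n) .n)))) .n)))) .n)))))))))))))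

def t10_241 : T TT 256 :=
  (.f k170 k255 14 (.q k252 [(.s k84 k168 13 (.s k86 k87 0 (.s k2 k254 13 (.d k3 k1 k169 0 14))))]
  (.c k1 (.q k81 [(.s k243 k162 12 (.s k89 k93 1 (.s k12 k166 14 (.d k8 k4 k251 1 12)))), (.s k168
  k84 13 (.s k169 k171 0 (.s k243 k162 12 (.s k249 k246 2 (.d k89 k93 k9 1 11))))), (.s k84 k168 13
  (.s k86 k87 0 (.s k89 k93 1 (.s k92 k83 2 (.s k12 k172 11 (.d k8 k4 k251 1 12))))))] (.c k89 (.l
  (.s k162 k243 12 (.s k166 k174 1 (.s k168 k84 13 (.s k169 k171 0 (.s k172 k163 2 (.s k12 k92 11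
  (.d k4 k247 k8 12 1)))))))) (.c k93 (.l (.s k84 k168 13 (.s k86 k87 0 (.s k3 k169 14 (.s k243 k162
  12 (.s k83 k163 11 (.s k80 k82 0 (.d k92 k88 k89 1 2)))))))) .n))) (.c k2 (.f k84 k168 13 (.f k86
  k87 0 (.f k3 k169 14 (.q k6 [(.s k12 k9 2 (.s k166 k246 11 (.d k4 k8 k247 1 12))), (.s k166 k246
  11 (.s k4 k247 12 (.s k7 k5 0 (.d k244 k164 k165 11 12)))), (.s k12 k9 2 (.s k92 k172 11 (.s k89
  k83 2 (.d k166 k246 k243 11 14)))), (.s k12 k9 2 (.s k8 k4 1 (.s k89 k251 12 (.d k92 k83 k172 2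
  11))))] .n)))) (.c k3 (.f k84 k168 13 (.q k204 [(.s k68 k136 9 (.s k100 k116 3 (.s k220 k236 3 (.d
  k152 k16 k48 9 13)))), (.s k136 k68 9 (.s k153 k187 4 (.s k17 k221 9 (.d k51 k34 k102 4 14))))]
  (.c k68 (.l (.s k220 k236 3 (.s k16 k152 9 (.s k154 k223 10 (.s k138 k186 3 (.s k207 k69 10 (.d
  k48 k32 k101 3 14))))))) (.c k87 (.q k171 [(.s k68 k136 9 (.s k100 k116 3 (.s k220 k236 3 (.d k152
  k16 k48 9 13)))), (.s k136 k68 9 (.s k153 k187 4 (.s k17 k221 9 (.d k51 k34 k102 4 14))))] (.c k68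
  (.l (.s k220 k236 3 (.s k16 k152 9 (.s k154 k223 10 (.s k138 k186 3 (.s k207 k69 10 (.d k48 k32
  k101 3 14))))))) (.c k136 (.l (.s k220 k236 3 (.s k152 k16 9 (.s k100 k48 13 (.s k68 k116 3 (.s
  k102 k119 4 (.s k34 k238 9 (.d k51 k17 k153 4 14)))))))) .n))) (.c k136 (.l (.s k220 k236 3 (.s
  k152 k16 9 (.s k100 k48 13 (.s k68 k116 3 (.s k102 k119 4 (.s k34 k238 9 (.d k51 k17 k153 4
  14)))))))) (.c k171 (.l (.s k87 k86 0 (.s k68 k136 9 (.s k100 k116 3 (.s k152 k48 13 (.d k220 k236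
  k16 3 9)))))) .n)))))) (.c k84 (.q k153 [(.s k17 k221 9 (.s k51 k34 4 (.s k136 k187 4 (.d k204 k68
  k102 9 14)))), (.s k136 k187 4 (.s k204 k68 9 (.s k220 k236 3 (.s k86 k19 10 (.s k2 k254 13 (.d k3
  k1 k169 0 14)))))), (.s k17 k221 9 (.s k51 k34 4 (.s k185 k118 10 (.s k169 k137 3 (.s k1 k253 13
  (.d k3 k2 k86 0 14))))))] (.c k51 (.q k101 [(.s k32 k239 10 (.s k48 k16 3 (.s k69 k117 3 (.d k207
  k138 k154 10 14)))), (.s k17 k221 9 (.s k49 k205 13 (.s k1 k33 3 (.s k3 k2 0 (.d k169 k253 k86 13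
  14)))))] (.c k119 (.l (.s k187 k136 4 (.s k32 k239 10 (.s k48 k16 3 (.s k69 k117 3 (.d k207 k138
  k154 10 14)))))) (.c k187 (.q k119 [(.s k117 k69 3 (.s k116 k118 0 (.s k48 k184 9 (.d k32 k16 k239
  3 10)))), (.s k17 k221 9 (.s k49 k205 13 (.s k1 k33 3 (.s k3 k2 0 (.d k169 k253 k86 13 14)))))]
  .n) .n))) (.c k204 (.q k154 [(.s k16 k223 10 (.s k48 k32 3 (.s k138 k186 3 (.d k207 k69 k101 10
  14)))), (.s k136 k187 4 (.s k152 k155 0 (.s k184 k168 3 (.s k139 k169 4 (.d k138 k137 k186 0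
  3))))), (.s k16 k223 10 (.s k48 k32 3 (.s k136 k187 4 (.s k152 k155 0 (.d k184 k168 k116 3 9)))))]
  (.c k221 (.q k238 [(.s k138 k186 3 (.s k207 k69 10 (.s k48 k101 14 (.d k16 k32 k223 3 10)))), (.s
  k34 k102 9 (.s k51 k17 4 (.s k185 k118 10 (.s k186 k138 3 (.d k187 k184 k136 0 4))))), (.s k16
  k223 10 (.s k48 k32 3 (.s k136 k187 4 (.s k152 k155 0 (.d k184 k168 k116 3 9)))))] .n) (.c k238
  (.l (.s k221 k17 9 (.s k16 k223 10 (.s k48 k32 3 (.s k138 k186 3 (.d k207 k69 k101 10 14))))))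
  .n))) .n))) (.c k86 (.q k4 [(.s k12 k8 1 (.s k166 k247 12 (.s k162 k174 1 (.d k243 k81 k89 12
  14)))), (.s k84 k168 13 (.s k244 k164 11 (.s k240 k248 1 (.s k160 k80 11 (.s k165 k175 2 (.s k245
  k5 11 (.d k247 k246 k166 0 12))))))), (.s k12 k8 1 (.s k84 k168 13 (.s k92 k172 11 (.s k88 k80 1
  (.d k164 k244 k240 11 13)))))] (.c k8 (.l (.s k166 k247 12 (.s k162 k174 1 (.s k168 k84 13 (.s
  k169 k171 0 (.s k172 k163 2 (.s k12 k92 11 (.d k243 k89 k81 14 12)))))))) .n)) (.c k87 (.l (.s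
  k168 k84 13 (.s k169 k171 0 (.s k3 k86 14 (.d k1 k2 k253 0 13))))) (.c k168 (.q k149 [(.s k21 k213
  7 (.s k128 k191 6 (.s k192 k64 7 (.d k63 k42 k106 6 14)))), (.s k128 k191 6 (.s k192 k64 7 (.s
  k212 k232 5 (.s k86 k23 8 (.s k2 k254 13 (.d k3 k1 k169 0 14)))))), (.s k21 k213 7 (.s k63 k42 6
  (.s k189 k126 8 (.s k169 k129 5 (.s k1 k253 13 (.d k3 k2 k86 0 14))))))] (.c k63 (.q k212 [(.s
  k192 k232 5 (.d k128 k191 k64 6 7)), (.s k86 k23 8 (.s k2 k254 13 (.d k3 k1 k169 0 14)))] (.c k127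
  (.l (.s k191 k128 6 (.s k86 k23 8 (.s k2 k254 13 (.d k3 k1 k169 0 14))))) (.c k191 (.q k127 [(.s
  k64 k106 6 (.d k192 k232 k128 5 7)), (.s k86 k23 8 (.s k2 k254 13 (.d k3 k1 k169 0 14)))] .n)
  .n))) (.c k192 (.q k132 [(.s k128 k191 6 (.s k140 k136 1 (.s k166 k183 4 (.s k162 k174 1 (.d k179
  k145 k153 4 6))))), (.s k166 k183 4 (.s k4 k247 12 (.s k12 k8 1 (.s k162 k174 1 (.d k243 k81 k89
  12 14))))), (.s k128 k191 6 (.s k136 k140 1 (.s k68 k204 9 (.s k102 k119 4 (.d k196 k4 k55 7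
  12))))), (.s k128 k191 6 (.s k166 k183 4 (.s k4 k247 12 (.s k68 k196 7 (.d k136 k204 k140 9
  1)))))] (.c k213 (.q k234 [(.s k128 k191 6 (.s k140 k136 1 (.s k166 k183 4 (.s k162 k174 1 (.d
  k179 k145 k153 4 6))))), (.s k166 k183 4 (.s k4 k247 12 (.s k12 k8 1 (.s k162 k174 1 (.d k243 k81
  k89 12 14))))), (.s k128 k191 6 (.s k136 k140 1 (.s k68 k204 9 (.s k102 k119 4 (.d k196 k4 k55 7
  12))))), (.s k42 k106 7 (.s k21 k63 6 (.s k166 k183 4 (.s k4 k247 12 (.s k55 k38 4 (.d k196 k68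
  k102 7 12))))))] .n) (.c k234 (.l (.s k213 k21 7 (.s k128 k191 6 (.s k136 k140 1 (.s k68 k204 9
  (.s k102 k119 4 (.d k196 k4 k55 7 12))))))) .n))) .n))) (.c k169 (.q k4 [(.s k12 k8 1 (.s k166
  k247 12 (.s k162 k174 1 (.d k243 k81 k89 12 14)))), (.s k84 k168 13 (.s k86 k87 0 (.s k166 k247 12
  (.s k6 k246 11 (.s k7 k5 0 (.d k244 k164 k165 11 12)))))), (.s k12 k8 1 (.s k84 k168 13 (.s k92
  k172 11 (.s k88 k80 1 (.d k164 k244 k240 11 13)))))] (.c k166 (.l (.s k12 k8 1 (.s k84 k168 13 (.s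
  k164 k244 11 (.s k88 k240 13 (.d k92 k80 k172 1 11)))))) .n)) (.c k171 (.l (.s k84 k168 13 (.s k86
  k87 0 (.s k3 k169 14 (.d k2 k1 k254 0 13))))) (.c k254 (.l (.s k168 k84 13 (.s k169 k171 0 (.s k1
  k253 13 (.d k3 k2 k86 0 14))))) .n))))))))))))

def t10_242 : T TT 256 :=
  (.f k170 k255 14 (.q k252 [(.s k168 k84 13 (.s k169 k171 0 (.s k3 k86 14 (.d k1 k2 k253 0 13))))]
  (.c k1 (.q k4 [(.s k12 k8 1 (.s k166 k247 12 (.s k162 k174 1 (.d k243 k81 k89 12 14)))), (.s k12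
  k8 1 (.s k84 k168 13 (.s k92 k172 11 (.s k88 k80 1 (.d k164 k244 k240 11 13))))), (.s k84 k168 13
  (.s k86 k87 0 (.s k166 k247 12 (.s k6 k246 11 (.s k7 k5 0 (.d k244 k164 k165 11 12))))))] (.c k9
  (.l (.s k166 k247 12 (.s k162 k174 1 (.s k243 k81 12 (.d k12 k8 k89 1 14))))) .n)) (.c k2 (.f k84
  k168 13 (.q k162 [(.s k86 k87 0 (.s k243 k81 12 (.s k246 k249 2 (.d k166 k6 k174 11 1)))), (.s
  k166 k174 1 (.s k4 k247 12 (.s k12 k8 1 (.d k243 k81 k89 12 14)))), (.s k86 k87 0 (.s k3 k169 14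
  (.s k166 k174 1 (.s k6 k246 11 (.s k12 k9 2 (.d k4 k8 k247 1 12))))))] (.c k6 (.q k14 [(.s k243
  k81 12 (.s k166 k174 1 (.s k12 k89 14 (.d k4 k8 k247 1 12)))), (.s k86 k87 0 (.s k174 k166 1 (.s
  k94 k254 11 (.s k15 k173 12 (.s k90 k82 1 (.s k80 k95 2 (.d k240 k160 k165 11 14)))))))] (.c k166
  (.l (.s k81 k243 12 (.s k86 k87 0 (.s k89 k93 1 (.s k92 k83 2 (.s k12 k172 11 (.d k8 k251 k4 12
  1))))))) (.c k174 (.l (.s k86 k87 0 (.s k3 k169 14 (.s k243 k81 12 (.s k83 k163 11 (.s k89 k92 2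
  (.s k8 k251 12 (.d k12 k166 k4 14 1)))))))) .n))) (.c k14 (.q k6 [(.s k86 k87 0 (.d k166 k174 k246
  1 11)), (.s k166 k174 1 (.s k4 k247 12 (.s k12 k8 1 (.d k243 k81 k89 12 14))))] (.c k90 (.l (.s
  k166 k174 1 (.d k86 k87 k246 0 11))) (.c k166 (.q k90 [(.s k80 k95 2 (.s k81 k243 12 (.s k88 k92 1
  (.d k89 k93 k91 1 0)))), (.s k81 k243 12 (.s k86 k87 0 (.s k3 k169 14 (.s k12 k9 2 (.s k8 k4 1 (.d
  k89 k251 k93 12 1)))))), (.s k80 k95 2 (.s k86 k87 0 (.s k3 k169 14 (.s k12 k9 2 (.d k92 k172 k88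
  11 1))))), (.s k80 k95 2 (.s k86 k87 0 (.s k82 k94 1 (.d k81 k83 k243 0 12))))] .n) (.c k174 (.l
  (.s k86 k87 0 (.s k243 k81 12 (.d k246 k249 k166 2 11)))) .n)))) (.c k166 (.l (.s k81 k243 12 (.s
  k86 k87 0 (.s k89 k93 1 (.s k92 k83 2 (.s k12 k172 11 (.d k8 k251 k4 12 1))))))) (.c k174 (.l (.s
  k86 k87 0 (.s k3 k169 14 (.s k243 k81 12 (.s k83 k163 11 (.s k89 k92 2 (.s k8 k251 12 (.d k12 k166
  k4 14 1)))))))) .n)))))) (.c k3 (.f k168 k84 13 (.q k192 [(.s k64 k128 7 (.s k106 k127 6 (.s k42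
  k234 7 (.d k63 k21 k149 6 14)))), (.s k232 k212 5 (.s k40 k104 7 (.s k105 k235 8 (.s k65 k125 5
  (.s k195 k130 8 (.d k60 k20 k150 5 14))))))] (.c k64 (.l (.s k232 k212 5 (.s k104 k40 7 (.s k148
  k60 13 (.s k128 k188 5 (.s k149 k191 6 (.s k21 k213 7 (.d k63 k42 k106 6 14)))))))) (.c k87 (.l
  (.s k171 k169 0 (.s k64 k128 7 (.s k106 k127 6 (.s k42 k234 7 (.d k63 k21 k149 6 14)))))) (.c k171
  (.q k87 [(.s k64 k128 7 (.s k106 k127 6 (.s k42 k234 7 (.d k63 k21 k149 6 14)))), (.s k232 k212 5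
  (.s k40 k104 7 (.s k105 k235 8 (.s k65 k125 5 (.s k195 k130 8 (.d k60 k20 k150 5 14))))))] (.c k64
  (.l (.s k232 k212 5 (.s k104 k40 7 (.s k148 k60 13 (.s k128 k188 5 (.s k149 k191 6 (.s k21 k213 7
  (.d k63 k42 k106 6 14)))))))) .n)) .n))))) (.c k84 (.q k153 [(.s k17 k221 9 (.s k51 k34 4 (.s k136
  k187 4 (.d k204 k68 k102 9 14)))), (.s k136 k187 4 (.s k204 k68 9 (.s k220 k236 3 (.s k86 k19 10
  (.s k2 k254 13 (.d k3 k1 k169 0 14)))))), (.s k17 k221 9 (.s k51 k34 4 (.s k185 k118 10 (.s k169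
  k137 3 (.s k1 k253 13 (.d k3 k2 k86 0 14))))))] (.c k51 (.q k185 [(.s k169 k137 3 (.s k1 k253 13
  (.d k3 k2 k86 0 14))), (.s k187 k136 4 (.s k184 k186 0 (.s k48 k116 9 (.s k16 k32 3 (.s k154 k223
  10 (.s k139 k169 4 (.d k155 k152 k171 0 3)))))))] (.c k119 (.l (.s k187 k136 4 (.s k169 k137 3 (.s
  k1 k253 13 (.d k3 k2 k86 0 14))))) (.c k169 (.l (.s k187 k136 4 (.s k184 k186 0 (.s k48 k116 9 (.s
  k32 k16 3 (.s k101 k239 10 (.s k49 k205 13 (.d k117 k69 k253 3 9)))))))) (.c k187 (.q k119 [(.s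
  k169 k137 3 (.s k1 k253 13 (.d k3 k2 k86 0 14))), (.s k68 k102 4 (.s k169 k137 3 (.s k86 k3 14 (.s
  k204 k136 9 (.d k220 k19 k236 10 3))))), (.s k169 k137 3 (.s k221 k17 9 (.s k253 k1 13 (.s k49
  k117 9 (.d k205 k237 k101 3 13)))))] (.c k137 (.l (.s k68 k102 4 (.s k204 k136 9 (.s k220 k236 3
  (.s k86 k19 10 (.s k2 k254 13 (.d k3 k169 k1 14 0))))))) (.c k169 (.q k1 [(.s k17 k221 9 (.s k49
  k33 3 (.s k101 k205 13 (.d k117 k253 k69 9 3)))), (.s k2 k3 0 (.s k68 k102 4 (.s k86 k254 13 (.s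
  k204 k136 9 (.d k220 k236 k19 3 10)))))] (.c k204 (.l (.s k102 k68 4 (.s k17 k221 9 (.s k238 k34 9
  (.s k49 k33 3 (.s k101 k205 13 (.d k117 k253 k69 9 3))))))) .n)) .n))) .n)))) (.c k204 (.q k69
  [(.s k207 k138 10 (.s k101 k117 3 (.s k48 k154 14 (.d k32 k16 k239 3 10)))), (.s k136 k187 4 (.s
  k138 k207 10 (.s k137 k139 0 (.s k169 k185 3 (.d k1 k205 k253 9 13))))), (.s k101 k117 3 (.s k205
  k49 13 (.s k1 k137 9 (.s k3 k2 0 (.d k169 k253 k86 13 14)))))] (.c k186 (.l (.s k207 k138 10 (.s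
  k101 k117 3 (.s k48 k154 14 (.d k32 k16 k239 3 10))))) (.c k221 (.q k238 [(.s k207 k138 10 (.s
  k101 k117 3 (.s k48 k154 14 (.d k32 k16 k239 3 10)))), (.s k136 k187 4 (.s k138 k207 10 (.s k137
  k139 0 (.s k169 k185 3 (.d k1 k205 k253 9 13))))), (.s k101 k117 3 (.s k205 k49 13 (.s k1 k137 9
  (.s k3 k2 0 (.d k169 k253 k86 13 14)))))] (.c k186 (.l (.s k207 k138 10 (.s k101 k117 3 (.s k48
  k154 14 (.d k32 k16 k239 3 10))))) .n)) (.c k238 (.l (.s k221 k17 9 (.s k101 k117 3 (.s k32 k239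
  10 (.s k48 k16 3 (.d k207 k138 k154 10 14)))))) .n)))) .n))) (.c k86 (.q k4 [(.s k166 k247 12 (.s
  k162 k174 1 (.s k243 k81 12 (.d k12 k8 k89 1 14)))), (.s k12 k8 1 (.s k84 k168 13 (.s k92 k172 11
  (.s k88 k80 1 (.d k164 k244 k240 11 13)))))] (.c k8 (.l (.s k166 k247 12 (.s k162 k174 1 (.s k168
  k84 13 (.s k169 k171 0 (.s k172 k163 2 (.s k12 k92 11 (.d k243 k89 k81 14 12)))))))) (.c k12 (.l
  (.s k84 k168 13 (.s k244 k164 11 (.s k240 k248 1 (.s k160 k80 11 (.s k165 k175 2 (.s k245 k5 11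
  (.d k247 k246 k166 0 12)))))))) .n))) (.c k87 (.l (.s k168 k84 13 (.s k169 k171 0 (.s k3 k86 14
  (.d k1 k2 k253 0 13))))) (.c k168 (.q k149 [(.s k21 k213 7 (.s k128 k191 6 (.s k192 k64 7 (.d k63
  k42 k106 6 14)))), (.s k128 k191 6 (.s k192 k64 7 (.s k212 k232 5 (.s k86 k23 8 (.s k2 k254 13 (.d
  k3 k1 k169 0 14)))))), (.s k21 k213 7 (.s k63 k42 6 (.s k189 k126 8 (.s k169 k129 5 (.s k1 k253 13
  (.d k3 k2 k86 0 14))))))] (.c k63 (.q k212 [(.s k192 k232 5 (.d k128 k191 k64 6 7)), (.s k86 k23 8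
  (.s k2 k254 13 (.d k3 k1 k169 0 14)))] (.c k127 (.l (.s k191 k128 6 (.s k86 k23 8 (.s k2 k254 13
  (.d k3 k1 k169 0 14))))) (.c k191 (.q k127 [(.s k64 k106 6 (.d k192 k232 k128 5 7)), (.s k86 k23 8
  (.s k2 k254 13 (.d k3 k1 k169 0 14)))] .n) .n))) (.c k192 (.q k132 [(.s k128 k191 6 (.s k140 k136
  1 (.s k166 k183 4 (.s k162 k174 1 (.d k179 k145 k153 4 6))))), (.s k166 k183 4 (.s k4 k247 12 (.s
  k12 k8 1 (.s k162 k174 1 (.d k243 k81 k89 12 14))))), (.s k128 k191 6 (.s k136 k140 1 (.s k68 k204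
  9 (.s k102 k119 4 (.d k196 k4 k55 7 12))))), (.s k128 k191 6 (.s k166 k183 4 (.s k4 k247 12 (.s
  k68 k196 7 (.d k136 k204 k140 9 1)))))] (.c k213 (.q k234 [(.s k128 k191 6 (.s k140 k136 1 (.s
  k166 k183 4 (.s k162 k174 1 (.d k179 k145 k153 4 6))))), (.s k166 k183 4 (.s k4 k247 12 (.s k12 k8
  1 (.s k162 k174 1 (.d k243 k81 k89 12 14))))), (.s k128 k191 6 (.s k136 k140 1 (.s k68 k204 9 (.s
  k102 k119 4 (.d k196 k4 k55 7 12))))), (.s k42 k106 7 (.s k21 k63 6 (.s k166 k183 4 (.s k4 k247 12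
  (.s k55 k38 4 (.d k196 k68 k102 7 12))))))] .n) (.c k234 (.l (.s k213 k21 7 (.s k128 k191 6 (.s
  k136 k140 1 (.s k68 k204 9 (.s k102 k119 4 (.d k196 k4 k55 7 12))))))) .n))) .n))) (.c k169 (.q k4
  [(.s k166 k247 12 (.s k162 k174 1 (.s k243 k81 12 (.d k12 k8 k89 1 14)))), (.s k12 k8 1 (.s k84
  k168 13 (.s k92 k172 11 (.s k88 k80 1 (.d k164 k244 k240 11 13))))), (.s k84 k168 13 (.s k86 k87 0
  (.s k166 k247 12 (.s k6 k246 11 (.s k7 k5 0 (.d k244 k164 k165 11 12))))))] (.c k166 (.l (.s k12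
  k8 1 (.s k84 k168 13 (.s k164 k244 11 (.s k88 k240 13 (.d k92 k80 k172 1 11)))))) .n)) (.c k171
  (.l (.s k84 k168 13 (.s k86 k87 0 (.s k3 k169 14 (.d k2 k1 k254 0 13))))) (.c k253 (.l (.s k84
  k168 13 (.s k86 k87 0 (.s k2 k254 13 (.d k3 k1 k169 0 14))))) .n))))))))))))

def t10_243 : T TT 256 :=
  (.q k169 [(.s k253 k1 13 (.s k255 k170 14 (.s k252 k254 0 (.s k84 k168 13 (.d k86 k87 k3 0
  14))))), (.s k1 k253 13 (.s k3 k2 0 (.s k86 k252 14 (.s k87 k84 0 (.d k255 k171 k170 13 14)))))]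
  (.c k1 (.q k16 [(.s k48 k32 3 (.s k154 k223 10 (.s k170 k255 14 (.s k138 k186 3 (.d k207 k69 k101
  10 14))))), (.s k48 k32 3 (.s k154 k223 10 (.s k184 k139 4 (.s k252 k116 9 (.s k84 k168 13 (.d k86
  k87 k3 0 14)))))), (.s k154 k223 10 (.s k170 k255 14 (.s k168 k171 0 (.s k84 k252 13 (.s k152 k220
  9 (.d k184 k136 k139 3 4)))))), (.s k32 k48 3 (.s k170 k255 14 (.s k168 k171 0 (.s k236 k100 9 (.s
  k35 k102 10 (.s k33 k34 0 (.d k101 k237 k239 9 10)))))))] .n) (.c k2 (.l (.s k253 k1 13 (.s k255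
  k170 14 (.s k252 k254 0 (.s k86 k3 14 (.d k84 k87 k168 0 13)))))) (.c k3 (.f k1 k253 13 (.q k138
  [(.s k69 k207 10 (.s k101 k117 3 (.s k205 k137 9 (.s k49 k153 13 (.d k33 k17 k237 3 9))))), (.s
  k170 k255 14 (.s k154 k186 3 (.s k16 k223 10 (.s k48 k32 3 (.d k207 k69 k101 10 14))))), (.s k170
  k255 14 (.s k154 k186 3 (.s k139 k184 4 (.s k136 k137 0 (.s k171 k168 0 (.d k187 k155 k153 3
  4))))))] (.c k83 (.q k163 [(.s k69 k207 10 (.s k101 k117 3 (.s k205 k137 9 (.s k49 k153 13 (.d k33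
  k17 k237 3 9))))), (.s k166 k172 2 (.s k170 k255 14 (.s k162 k174 1 (.s k160 k161 0 (.s k171 k168
  0 (.d k175 k167 k165 1 2))))))] .n) (.c k117 (.l (.s k69 k207 10 (.s k137 k205 9 (.s k139 k136 0
  (.s k154 k184 4 (.d k170 k186 k255 3 14)))))) (.c k163 (.q k83 [(.s k69 k207 10 (.s k101 k117 3
  (.s k205 k137 9 (.s k49 k153 13 (.d k33 k17 k237 3 9))))), (.s k170 k255 14 (.s k154 k186 3 (.s
  k16 k223 10 (.s k48 k32 3 (.d k207 k69 k101 10 14))))), (.s k170 k255 14 (.s k154 k186 3 (.s k139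
  k184 4 (.s k136 k137 0 (.s k171 k168 0 (.d k187 k155 k153 3 4))))))] (.c k117 (.l (.s k69 k207 10
  (.s k137 k205 9 (.s k139 k136 0 (.s k154 k184 4 (.d k170 k186 k255 3 14)))))) .n)) .n))))) (.c k84
  (.q k16 [(.s k48 k32 3 (.s k154 k223 10 (.s k101 k207 14 (.s k117 k69 3 (.d k255 k186 k170 10
  14))))), (.s k1 k253 13 (.s k3 k2 0 (.s k48 k32 3 (.s k18 k33 4 (.s k154 k223 10 (.d k86 k222 k252
  9 14)))))), (.s k1 k253 13 (.s k3 k2 0 (.s k154 k223 10 (.s k139 k184 4 (.s k170 k255 14 (.s k207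
  k71 9 (.d k138 k186 k69 3 10))))))), (.s k1 k253 13 (.s k3 k2 0 (.s k48 k32 3 (.s k33 k18 4 (.s
  k101 k237 9 (.s k117 k69 3 (.d k255 k186 k170 10 14)))))))] .n) (.c k86 (.q k16 [(.s k48 k32 3 (.s
  k154 k223 10 (.s k101 k207 14 (.s k117 k69 3 (.d k255 k186 k170 10 14))))), (.s k154 k223 10 (.s
  k170 k255 14 (.s k168 k171 0 (.s k84 k252 13 (.s k152 k220 9 (.d k184 k136 k139 3 4)))))), (.s k1
  k253 13 (.s k3 k2 0 (.s k48 k32 3 (.s k33 k18 4 (.s k101 k237 9 (.s k69 k117 3 (.d k207 k154 k138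
  14 10)))))))] (.c k154 (.l (.s k1 k253 13 (.s k32 k48 3 (.s k170 k255 14 (.s k101 k239 10 (.s k33
  k237 9 (.s k17 k49 3 (.d k34 k51 k35 4 0)))))))) (.c k170 (.l (.s k1 k253 13 (.s k48 k32 3 (.s
  k154 k223 10 (.s k101 k207 14 (.s k33 k237 9 (.d k3 k2 k18 0 4))))))) (.c k207 (.l (.s k48 k32 3
  (.s k154 k223 10 (.s k184 k139 4 (.s k252 k116 9 (.s k168 k84 13 (.d k170 k255 k171 14 0)))))))
  .n)))) (.c k87 (.l (.s k1 k253 13 (.s k3 k2 0 (.s k170 k255 14 (.s k168 k171 0 (.d k252 k84 k86 13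
  14)))))) (.c k170 (.f k1 k253 13 (.q k90 [(.s k3 k2 0 (.s k11 k248 12 (.s k15 k7 1 (.s k80 k95 2
  (.d k240 k160 k165 11 14))))), (.s k80 k95 2 (.s k240 k160 11 (.s k165 k15 14 (.s k161 k173 1 (.s
  k81 k241 11 (.d k82 k83 k3 0 12)))))), (.s k3 k2 0 (.s k11 k248 12 (.s k15 k7 1 (.s k86 k252 14
  (.s k82 k94 1 (.d k240 k161 k165 12 14))))))] (.c k3 (.l (.s k80 k95 2 (.s k240 k160 11 (.s k165
  k15 14 (.s k5 k245 11 (.s k13 k9 1 (.s k161 k173 1 (.d k241 k81 k89 11 13)))))))) (.c k15 (.l (.s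
  k3 k2 0 (.s k80 k95 2 (.s k86 k252 14 (.s k240 k160 11 (.d k82 k94 k161 1 12)))))) (.c k165 (.l
  (.s k3 k2 0 (.s k80 k95 2 (.s k86 k252 14 (.s k82 k94 1 (.d k240 k160 k161 11 12)))))) (.c k240
  (.l (.s k3 k2 0 (.s k11 k248 12 (.s k15 k7 1 (.s k95 k80 2 (.s k255 k175 11 (.s k87 k171 13 (.d
  k86 k252 k84 14 0)))))))) .n)))))) (.c k252 (.f k253 k1 13 (.q k249 [(.s k241 k245 1 (.s k89 k9 11
  (.s k13 k165 13 (.d k93 k81 k173 1 11)))), (.s k89 k9 11 (.s k170 k255 14 (.s k171 k168 0 (.s k251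
  k8 12 (.s k11 k91 11 (.d k248 k250 k90 0 12)))))), (.s k245 k241 1 (.s k165 k5 11 (.s k255 k170 14
  (.s k240 k250 2 (.s k90 k15 14 (.d k80 k95 k160 2 11))))))] (.c k5 (.l (.s k241 k245 1 (.s k89 k9
  11 (.s k13 k165 13 (.d k93 k81 k173 1 11))))) (.c k9 (.f k241 k245 1 (.q k13 [(.s k89 k165 13 (.d
  k93 k81 k173 1 11)), (.s k89 k165 13 (.s k170 k255 14 (.s k171 k168 0 (.s k251 k8 12 (.s k11 k91
  11 (.d k248 k250 k90 0 12))))))] (.c k8 (.q k11 [(.s k89 k165 13 (.d k93 k81 k173 1 11)), (.s k170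
  k255 14 (.s k171 k168 0 (.s k248 k90 12 (.d k251 k250 k91 0 11))))] .n) (.c k11 (.q k8 [(.s k89
  k165 13 (.d k93 k81 k173 1 11)), (.s k89 k165 13 (.d k170 k251 k255 12 14)), (.s k12 k4 1 (.s k93
  k173 11 (.d k255 k174 k170 12 14)))] .n) (.c k89 (.l (.s k170 k255 14 (.s k171 k168 0 (.s k173 k93
  11 (.s k165 k161 1 (.s k175 k160 2 (.s k163 k167 1 (.d k172 k174 k166 0 2)))))))) (.c k165 (.l (.s
  k93 k173 11 (.s k89 k81 1 (.s k170 k255 14 (.s k171 k168 0 (.s k251 k8 12 (.s k11 k91 11 (.d k248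
  k250 k90 0 12)))))))) .n)))))) (.c k13 (.l (.s k9 k89 11 (.s k245 k241 1 (.s k165 k5 11 (.s k255
  k170 14 (.s k240 k250 2 (.s k90 k15 14 (.d k80 k95 k160 2 11)))))))) .n))))) (.c k253 (.q k16 [(.s
  k48 k32 3 (.s k154 k223 10 (.s k101 k207 14 (.s k117 k69 3 (.d k255 k186 k170 10 14))))), (.s k48
  k32 3 (.s k154 k223 10 (.s k184 k139 4 (.s k252 k116 9 (.s k84 k168 13 (.d k86 k87 k3 0 14)))))),
  (.s k154 k223 10 (.s k170 k255 14 (.s k168 k171 0 (.s k184 k139 4 (.s k152 k136 3 (.d k84 k252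
  k220 13 9)))))), (.s k32 k48 3 (.s k170 k255 14 (.s k168 k171 0 (.s k236 k100 9 (.s k35 k102 10
  (.s k33 k34 0 (.d k101 k237 k239 9 10)))))))] .n) (.c k254 (.l (.s k1 k253 13 (.s k3 k2 0 (.s k86
  k252 14 (.s k255 k170 14 (.d k87 k84 k171 0 13)))))) (.c k255 (.q k101 [(.s k117 k69 3 (.s k237
  k33 9 (.s k253 k1 13 (.s k49 k185 9 (.d k205 k221 k153 3 13))))), (.s k69 k117 3 (.s k207 k138 10
  (.s k237 k33 9 (.s k252 k222 4 (.s k84 k168 13 (.d k86 k87 k3 0 14)))))), (.s k1 k253 13 (.s k3 k2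
  0 (.s k69 k117 3 (.s k207 k138 10 (.s k71 k139 9 (.d k86 k252 k116 14 4)))))), (.s k1 k253 13 (.s
  k3 k2 0 (.s k33 k237 9 (.s k48 k18 4 (.s k16 k32 3 (.d k154 k223 k207 10 14))))))] (.c k247 (.q
  k251 [(.s k117 k69 3 (.s k237 k33 9 (.s k253 k1 13 (.s k49 k185 9 (.d k205 k221 k153 3 13))))),
  (.s k69 k117 3 (.s k207 k138 10 (.s k237 k33 9 (.s k252 k222 4 (.s k84 k168 13 (.d k86 k87 k3 0
  14)))))), (.s k1 k253 13 (.s k3 k2 0 (.s k69 k117 3 (.s k207 k138 10 (.s k71 k139 9 (.d k86 k252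
  k116 14 4)))))), (.s k1 k253 13 (.s k3 k2 0 (.s k33 k237 9 (.s k48 k18 4 (.s k16 k32 3 (.d k154
  k223 k207 10 14))))))] .n) (.c k251 (.q k247 [(.s k1 k253 13 (.s k33 k237 9 (.s k49 k17 3 (.s k205
  k153 13 (.d k69 k117 k137 3 9))))), (.s k4 k166 12 (.s k69 k117 3 (.s k199 k134 8 (.s k150 k52 12
  (.d k215 k231 k20 3 8))))), (.s k1 k253 13 (.s k3 k2 0 (.s k33 k237 9 (.s k48 k18 4 (.s k16 k32 3
  (.d k154 k223 k207 10 14))))))] .n) .n))) .n))))))))))))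

def t10_245 : T TT 256 :=
  (.q k86 [(.s k84 k87 0 (.s k252 k168 13 (.s k169 k3 14 (.s k253 k1 13 (.d k255 k254 k170 0
  14)))))] (.c k1 (.q k4 [(.s k84 k87 0 (.s k166 k247 12 (.s k6 k246 11 (.s k244 k164 11 (.d k7 k5
  k165 0 12))))), (.s k12 k8 1 (.s k255 k170 14 (.s k93 k174 12 (.s k89 k81 1 (.d k166 k247 k243 12
  14))))), (.s k12 k8 1 (.s k84 k87 0 (.s k252 k168 13 (.s k92 k172 11 (.s k88 k80 1 (.d k164 k244
  k240 11 13))))))] .n) (.c k3 (.q k4 [(.s k84 k87 0 (.s k166 k247 12 (.s k6 k246 11 (.s k244 k164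
  11 (.d k7 k5 k165 0 12))))), (.s k12 k8 1 (.s k255 k170 14 (.s k93 k174 12 (.s k89 k81 1 (.d k166
  k247 k243 12 14))))), (.s k12 k8 1 (.s k84 k87 0 (.s k252 k168 13 (.s k92 k172 11 (.s k88 k80 1
  (.d k164 k244 k240 11 13))))))] (.c k255 (.l (.s k12 k8 1 (.s k166 k247 12 (.s k243 k89 14 (.s
  k246 k6 11 (.s k252 k249 2 (.d k84 k87 k168 0 13))))))) .n)) (.c k84 (.q k12 [(.s k4 k8 1 (.s k166
  k247 12 (.s k89 k243 14 (.s k93 k81 1 (.d k255 k174 k170 12 14))))), (.s k255 k170 14 (.s k93 k174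
  12 (.s k89 k81 1 (.s k92 k83 2 (.s k252 k172 11 (.s k169 k3 14 (.d k253 k254 k1 0 13))))))), (.s
  k170 k255 14 (.s k2 k254 13 (.s k3 k1 0 (.s k6 k9 2 (.s k166 k246 11 (.d k4 k8 k247 1 12))))))]
  (.c k166 (.l (.s k8 k4 1 (.s k170 k255 14 (.s k2 k254 13 (.s k3 k1 0 (.s k9 k6 2 (.s k89 k251 12
  (.d k169 k252 k249 14 11)))))))) (.c k170 (.l (.s k4 k8 1 (.s k166 k247 12 (.s k89 k243 14 (.s k92
  k83 2 (.s k252 k172 11 (.s k3 k169 14 (.d k6 k9 k246 2 11)))))))) (.c k255 (.l (.s k4 k8 1 (.s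
  k166 k247 12 (.s k243 k89 14 (.s k246 k6 11 (.s k252 k249 2 (.s k169 k3 14 (.d k172 k163 k92 2
  11)))))))) .n)))) (.c k87 (.q k12 [(.s k8 k4 1 (.s k170 k255 14 (.s k89 k251 12 (.s k81 k93 1 (.d
  k243 k162 k166 12 14))))), (.s k4 k8 1 (.s k166 k247 12 (.s k89 k243 14 (.s k92 k83 2 (.s k252
  k172 11 (.s k3 k169 14 (.d k6 k9 k246 2 11))))))), (.s k255 k170 14 (.s k93 k174 12 (.s k89 k81 1
  (.s k92 k83 2 (.s k252 k172 11 (.s k169 k3 14 (.d k253 k254 k1 0 13))))))), (.s k170 k255 14 (.s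
  k2 k254 13 (.s k3 k1 0 (.s k6 k9 2 (.s k166 k246 11 (.d k4 k8 k247 1 12))))))] (.c k3 (.l (.s k4
  k8 1 (.s k166 k247 12 (.s k89 k243 14 (.s k93 k81 1 (.d k255 k174 k170 12 14)))))) (.c k166 (.l
  (.s k8 k4 1 (.s k170 k255 14 (.s k2 k254 13 (.s k3 k1 0 (.s k9 k6 2 (.s k89 k251 12 (.d k169 k252
  k249 14 11)))))))) (.c k255 (.l (.s k4 k8 1 (.s k166 k247 12 (.s k243 k89 14 (.s k246 k6 11 (.s
  k252 k249 2 (.s k172 k92 11 (.d k169 k163 k3 2 14)))))))) .n)))) (.c k168 (.l (.s k87 k84 0 (.s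
  k255 k170 14 (.s k3 k171 13 (.s k169 k252 14 (.d k1 k2 k253 0 13)))))) (.c k169 (.q k4 [(.s k84
  k87 0 (.s k166 k247 12 (.s k6 k246 11 (.s k244 k164 11 (.d k7 k5 k165 0 12))))), (.s k12 k8 1 (.s
  k255 k170 14 (.s k93 k174 12 (.s k89 k81 1 (.d k166 k247 k243 12 14)))))] (.c k166 (.l (.s k12 k8
  1 (.s k84 k87 0 (.s k164 k244 11 (.s k88 k240 13 (.s k92 k80 1 (.d k252 k172 k168 11 13))))))) (.c
  k247 (.l (.s k12 k8 1 (.s k84 k87 0 (.s k252 k168 13 (.s k92 k172 11 (.s k88 k80 1 (.d k164 k244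
  k240 11 13))))))) .n))) (.c k170 (.q k90 [(.s k80 k95 2 (.s k82 k94 1 (.s k83 k81 0 (.s k84 k87 0
  (.d k92 k88 k89 1 2))))), (.s k84 k87 0 (.s k94 k82 1 (.s k252 k168 13 (.s k15 k173 12 (.s k165
  k240 14 (.s k7 k244 12 (.d k3 k169 k11 14 1))))))), (.s k80 k95 2 (.s k84 k87 0 (.s k240 k160 11
  (.s k165 k15 14 (.s k244 k7 12 (.d k252 k248 k168 1 13)))))), (.s k80 k95 2 (.s k82 k94 1 (.s k240
  k160 11 (.s k3 k161 12 (.s k1 k2 0 (.d k169 k253 k252 13 14))))))] .n) (.c k171 (.l (.s k84 k87 0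
  (.s k252 k168 13 (.s k3 k169 14 (.s k170 k255 14 (.d k2 k1 k254 0 13)))))) (.c k252 (.q k7 [(.s
  k84 k87 0 (.s k244 k165 12 (.s k4 k164 11 (.s k6 k5 0 (.d k166 k246 k247 11 12))))), (.s k165 k244
  12 (.s k170 k255 14 (.s k160 k175 2 (.s k240 k80 11 (.s k15 k90 14 (.s k3 k11 1 (.d k2 k254 k1 13
  0))))))), (.s k87 k84 0 (.s k247 k167 11 (.s k4 k166 12 (.s k6 k5 0 (.s k12 k8 1 (.s k255 k170 14
  (.d k3 k9 k171 2 13)))))))] (.c k165 (.l (.s k87 k84 0 (.s k167 k247 11 (.s k255 k170 14 (.s k3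
  k171 13 (.s k15 k11 1 (.s k91 k243 13 (.d k95 k175 k83 11 1)))))))) (.c k247 (.l (.s k87 k84 0 (.s
  k255 k170 14 (.s k3 k171 13 (.s k15 k11 1 (.s k95 k175 11 (.s k90 k80 2 (.d k165 k244 k240 12
  14)))))))) .n))) (.c k253 (.l (.s k84 k87 0 (.s k170 k255 14 (.s k2 k254 13 (.s k252 k168 13 (.d
  k3 k1 k169 0 14)))))) (.c k254 (.l (.s k87 k84 0 (.s k255 k170 14 (.s k3 k171 13 (.s k1 k2 0 (.d
  k169 k253 k252 13 14)))))) (.c k255 (.q k240 [(.s k80 k160 11 (.s k84 k87 0 (.s k88 k92 1 (.s k12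
  k164 13 (.s k8 k4 1 (.d k168 k248 k252 11 13)))))), (.s k80 k160 11 (.s k90 k95 2 (.s k82 k94 1
  (.s k3 k161 12 (.s k1 k2 0 (.d k169 k253 k252 13 14)))))), (.s k84 k87 0 (.s k252 k168 13 (.s k3
  k169 14 (.s k82 k161 12 (.s k90 k94 1 (.s k165 k15 14 (.d k244 k248 k7 1 12))))))), (.s k80 k160
  11 (.s k87 k84 0 (.s k95 k90 2 (.s k83 k91 1 (.s k81 k82 0 (.d k89 k93 k92 1 2))))))] .n)
  .n)))))))))))))

def t10_246 : T TT 256 :=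
  (.f k170 k255 14 (.q k252 [(.s k84 k168 13 (.s k86 k87 0 (.s k3 k169 14 (.d k2 k1 k254 0 13))))]
  (.c k1 (.q k4 [(.s k12 k8 1 (.s k166 k247 12 (.s k162 k174 1 (.d k243 k81 k89 12 14)))), (.s k84
  k168 13 (.s k86 k87 0 (.s k244 k164 11 (.s k165 k7 12 (.s k160 k175 2 (.d k240 k248 k80 1
  11))))))] (.c k244 (.l (.s k12 k8 1 (.s k168 k84 13 (.s k169 k171 0 (.s k172 k92 11 (.d k166 k163
  k247 2 12)))))) (.c k247 (.l (.s k12 k8 1 (.s k84 k168 13 (.s k92 k172 11 (.s k88 k80 1 (.d k164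
  k244 k240 11 13)))))) .n))) (.c k2 (.f k168 k84 13 (.q k162 [(.s k243 k81 12 (.s k166 k174 1 (.s
  k12 k89 14 (.d k4 k8 k247 1 12)))), (.s k81 k243 12 (.s k169 k171 0 (.s k1 k253 13 (.s k161 k241
  11 (.s k160 k163 0 (.d k165 k175 k173 2 1)))))), (.s k166 k174 1 (.s k169 k171 0 (.s k172 k163 2
  (.s k12 k92 11 (.d k4 k8 k247 1 12)))))] (.c k6 (.q k14 [(.s k243 k81 12 (.s k166 k174 1 (.s k12
  k89 14 (.d k4 k8 k247 1 12)))), (.s k81 k243 12 (.s k169 k171 0 (.s k1 k253 13 (.s k161 k241 11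
  (.s k160 k163 0 (.d k165 k175 k173 2 1)))))), (.s k166 k174 1 (.s k169 k171 0 (.s k172 k163 2 (.s
  k12 k92 11 (.d k4 k8 k247 1 12)))))] (.c k86 (.l (.s k166 k174 1 (.s k4 k247 12 (.s k12 k8 1 (.d
  k243 k81 k89 12 14))))) (.c k166 (.q k86 [(.d k169 k171 k3 0 14), (.s k81 k243 12 (.s k89 k93 1
  (.s k83 k92 2 (.s k80 k82 0 (.s k240 k160 11 (.s k248 k244 1 (.d k8 k88 k251 11 12)))))))] .n) (.c
  k247 (.l (.s k166 k174 1 (.s k169 k171 0 (.s k3 k86 14 (.s k163 k172 2 (.d k243 k83 k81 11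
  12)))))) .n)))) (.c k14 (.q k6 [(.s k243 k81 12 (.s k166 k174 1 (.s k12 k89 14 (.d k4 k8 k247 1
  12)))), (.s k81 k243 12 (.s k169 k171 0 (.s k1 k253 13 (.s k161 k241 11 (.s k160 k163 0 (.d k165
  k175 k173 2 1)))))), (.s k166 k174 1 (.s k169 k171 0 (.s k3 k86 14 (.s k12 k9 2 (.d k172 k163 k92
  2 11)))))] .n) (.c k247 (.l (.s k166 k174 1 (.s k169 k171 0 (.s k3 k86 14 (.s k163 k172 2 (.d k243
  k83 k81 11 12)))))) .n))))) (.c k3 (.f k84 k168 13 (.q k220 [(.s k152 k16 9 (.s k204 k236 3 (.s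
  k68 k136 9 (.d k100 k116 k48 3 13)))), (.s k16 k152 9 (.s k154 k223 10 (.s k138 k186 3 (.s k207
  k69 10 (.d k48 k32 k101 3 14))))), (.s k204 k236 3 (.s k136 k68 9 (.s k153 k187 4 (.d k86 k87 k19
  0 10))))] (.c k32 (.l (.s k152 k16 9 (.s k204 k236 3 (.s k100 k48 13 (.d k68 k116 k136 3 9)))))
  (.c k87 (.q k171 [(.s k152 k16 9 (.s k204 k236 3 (.s k68 k136 9 (.d k100 k116 k48 3 13)))), (.s
  k16 k152 9 (.s k154 k223 10 (.s k138 k186 3 (.s k207 k69 10 (.d k48 k32 k101 3 14))))), (.s k204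
  k236 3 (.s k136 k68 9 (.s k153 k187 4 (.s k17 k221 9 (.d k51 k34 k102 4 14)))))] (.c k32 (.l (.s
  k152 k16 9 (.s k204 k236 3 (.s k100 k48 13 (.d k68 k116 k136 3 9))))) (.c k136 (.l (.s k152 k16 9
  (.s k204 k236 3 (.s k100 k48 13 (.s k68 k116 3 (.s k102 k119 4 (.s k34 k238 9 (.d k51 k17 k153 4
  14)))))))) .n))) (.c k136 (.l (.s k152 k16 9 (.s k204 k236 3 (.s k100 k48 13 (.s k68 k116 3 (.s
  k102 k119 4 (.s k34 k238 9 (.d k51 k17 k153 4 14)))))))) (.c k171 (.l (.s k87 k86 0 (.s k152 k16 9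
  (.s k204 k236 3 (.s k68 k136 9 (.d k100 k116 k48 3 13)))))) .n)))))) (.c k84 (.q k166 [(.s k162
  k174 1 (.s k243 k81 12 (.s k12 k89 14 (.d k4 k8 k247 1 12)))), (.s k4 k247 12 (.s k12 k8 1 (.s
  k172 k92 11 (.s k169 k163 2 (.s k1 k253 13 (.d k3 k2 k86 0 14)))))), (.s k162 k174 1 (.s k243 k81
  12 (.s k12 k89 14 (.s k172 k92 11 (.s k169 k163 2 (.s k1 k253 13 (.d k3 k86 k2 14 0)))))))] (.c
  k12 (.q k138 [(.s k207 k69 10 (.s k154 k186 3 (.s k48 k101 14 (.d k16 k32 k223 3 10)))), (.s k154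
  k186 3 (.s k142 k178 5 (.s k130 k134 1 (.s k174 k162 1 (.d k190 k158 k150 3 5))))), (.s k4 k247 12
  (.s k69 k207 10 (.s k134 k199 8 (.s k150 k182 3 (.d k130 k142 k190 1 5)))))] (.c k93 (.l (.s k174
  k162 1 (.s k154 k186 3 (.s k16 k223 10 (.s k48 k32 3 (.d k207 k69 k101 10 14)))))) (.c k117 (.l
  (.s k207 k69 10 (.s k154 k186 3 (.s k48 k101 14 (.d k16 k32 k223 3 10))))) (.c k174 (.q k93 [(.s
  k207 k69 10 (.s k154 k186 3 (.s k48 k101 14 (.d k16 k32 k223 3 10)))), (.s k4 k247 12 (.s k69 k207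
  10 (.s k134 k199 8 (.s k150 k182 3 (.d k130 k142 k190 1 5))))), (.s k89 k81 1 (.s k8 k251 12 (.s
  k154 k186 3 (.s k24 k219 8 (.s k56 k40 3 (.d k203 k73 k105 8 12))))))] (.c k117 (.l (.s k207 k69
  10 (.s k154 k186 3 (.s k48 k101 14 (.d k16 k32 k223 3 10))))) .n)) .n)))) (.c k243 (.f k247 k4 12
  (.q k149 [(.s k21 k213 7 (.s k63 k42 6 (.s k128 k191 6 (.d k192 k64 k106 7 14)))), (.s k183 k132 4
  (.s k55 k119 7 (.s k196 k102 12 (.d k213 k230 k21 4 7)))), (.s k128 k191 6 (.s k132 k183 4 (.s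
  k140 k136 1 (.s k162 k174 1 (.d k179 k145 k153 4 6)))))] (.c k164 (.q k244 [(.s k21 k213 7 (.s k63
  k42 6 (.s k128 k191 6 (.d k192 k64 k106 7 14)))), (.s k183 k132 4 (.s k55 k119 7 (.s k196 k102 12
  (.d k213 k230 k21 4 7)))), (.s k128 k191 6 (.s k132 k183 4 (.s k140 k136 1 (.s k162 k174 1 (.d
  k179 k145 k153 4 6)))))] .n) (.c k244 (.q k164 [(.s k21 k213 7 (.s k63 k42 6 (.s k128 k191 6 (.d
  k192 k64 k106 7 14)))), (.s k183 k132 4 (.s k55 k119 7 (.s k196 k102 12 (.d k213 k230 k21 4 7)))),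
  (.s k128 k191 6 (.s k132 k183 4 (.s k140 k136 1 (.s k162 k174 1 (.d k179 k145 k153 4 6)))))] .n)
  .n)))) .n))) (.c k86 (.q k166 [(.s k162 k174 1 (.s k243 k81 12 (.s k12 k89 14 (.d k4 k8 k247 1
  12)))), (.s k168 k84 13 (.s k169 k171 0 (.s k172 k163 2 (.s k160 k164 1 (.s k174 k162 1 (.d k175
  k173 k165 0 2)))))), (.s k4 k247 12 (.s k12 k8 1 (.s k168 k84 13 (.s k169 k171 0 (.d k172 k163 k92
  2 11)))))] (.c k4 (.l (.s k162 k174 1 (.s k168 k84 13 (.s k169 k171 0 (.s k172 k163 2 (.s k12 k92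
  11 (.d k243 k89 k81 14 12))))))) .n)) (.c k87 (.l (.s k168 k84 13 (.s k169 k171 0 (.s k3 k86 14
  (.d k1 k2 k253 0 13))))) (.c k168 (.q k89 [(.s k8 k251 12 (.s k12 k4 1 (.s k81 k93 1 (.d k243 k162
  k166 12 14)))), (.s k81 k93 1 (.s k243 k162 12 (.s k12 k166 14 (.s k92 k172 11 (.s k86 k83 2 (.s
  k2 k254 13 (.d k3 k169 k1 14 0))))))), (.s k8 k251 12 (.s k12 k4 1 (.s k92 k172 11 (.s k86 k83 2
  (.s k2 k254 13 (.d k3 k1 k169 0 14))))))] (.c k12 (.q k240 [(.s k160 k80 11 (.s k165 k175 2 (.s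
  k241 k13 13 (.s k243 k242 0 (.d k81 k93 k162 1 12))))), (.s k248 k244 1 (.s k251 k8 12 (.s k249
  k250 0 (.s k169 k9 11 (.s k11 k90 12 (.s k1 k253 13 (.d k3 k2 k86 0 14))))))), (.s k80 k160 11 (.s
  k90 k95 2 (.s k15 k165 14 (.s k91 k88 0 (.s k243 k167 13 (.d k81 k93 k162 1 12))))))] (.c k93 (.q
  k174 [(.s k160 k80 11 (.s k162 k166 1 (.s k165 k175 2 (.s k243 k81 12 (.d k241 k242 k13 0 13))))),
  (.s k80 k160 11 (.s k90 k95 2 (.s k91 k88 0 (.s k248 k244 1 (.s k11 k169 12 (.d k251 k8 k171 12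
  11)))))), (.s k166 k162 1 (.s k4 k247 12 (.s k244 k248 1 (.s k84 k164 11 (.s k86 k87 0 (.s k2 k254
  13 (.d k3 k1 k169 0 14)))))))] (.c k160 (.l (.s k162 k166 1 (.s k243 k81 12 (.s k242 k241 0 (.s k2
  k82 11 (.s k86 k254 13 (.d k3 k1 k169 0 14))))))) .n)) (.c k174 (.l (.s k93 k81 1 (.s k80 k160 11
  (.s k95 k90 2 (.s k92 k94 0 (.s k84 k88 1 (.d k86 k87 k83 0 2))))))) .n))) (.c k243 (.q k102 [(.s
  k34 k238 9 (.s k51 k17 4 (.s k68 k119 4 (.d k204 k136 k153 9 14)))), (.s k81 k93 1 (.s k115 k76 6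
  (.s k64 k98 4 (.s k119 k68 4 (.d k127 k123 k106 1 6))))), (.s k34 k238 9 (.s k51 k17 4 (.s k76
  k115 6 (.s k204 k153 14 (.s k12 k140 7 (.d k8 k251 k4 12 1))))))] (.c k247 (.l (.s k251 k8 12 (.s
  k34 k238 9 (.s k51 k17 4 (.s k68 k119 4 (.d k204 k136 k153 9 14)))))) (.c k251 (.q k247 [(.s k34
  k238 9 (.s k51 k17 4 (.s k68 k119 4 (.d k204 k136 k153 9 14)))), (.s k4 k166 12 (.s k119 k68 4 (.s
  k55 k183 7 (.s k21 k38 4 (.d k149 k213 k196 7 12))))), (.s k4 k166 12 (.s k12 k8 1 (.s k34 k238 9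
  (.s k51 k17 4 (.s k25 k38 6 (.d k153 k204 k217 14 7))))))] .n) .n))) .n))) (.c k169 (.q k4 [(.s
  k166 k247 12 (.s k162 k174 1 (.s k243 k81 12 (.d k12 k8 k89 1 14)))), (.s k84 k168 13 (.s k86 k87
  0 (.s k244 k164 11 (.s k165 k7 12 (.s k160 k175 2 (.d k240 k248 k80 1 11))))))] (.c k244 (.l (.s
  k12 k8 1 (.s k84 k168 13 (.s k86 k87 0 (.s k92 k172 11 (.s k89 k83 2 (.d k166 k247 k243 12
  14))))))) (.c k247 (.l (.s k12 k8 1 (.s k84 k168 13 (.s k92 k172 11 (.s k88 k80 1 (.d k164 k244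
  k240 11 13)))))) .n))) (.c k171 (.l (.s k84 k168 13 (.s k86 k87 0 (.s k3 k169 14 (.d k2 k1 k254 0
  13))))) (.c k254 (.l (.s k168 k84 13 (.s k169 k171 0 (.s k1 k253 13 (.d k3 k2 k86 0 14)))))
  .n))))))))))))

def t10_247 : T TT 256 :=
  (.q k86 [(.s k84 k87 0 (.s k252 k168 13 (.s k169 k3 14 (.s k253 k1 13 (.d k255 k254 k170 0
  14))))), (.s k87 k84 0 (.s k255 k170 14 (.s k3 k171 13 (.s k1 k2 0 (.d k169 k253 k252 13 14)))))]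
  (.c k1 (.q k8 [(.s k12 k4 1 (.s k170 k255 14 (.s k89 k251 12 (.s k243 k166 14 (.d k81 k93 k162 1
  12))))), (.s k12 k4 1 (.s k84 k87 0 (.s k168 k252 13 (.s k88 k248 11 (.s k80 k92 1 (.d k240 k160
  k164 11 13)))))), (.s k84 k87 0 (.s k168 k252 13 (.s k88 k248 11 (.s k92 k80 1 (.s k89 k83 2 (.d
  k170 k251 k255 12 14))))))] .n) (.c k3 (.q k16 [(.s k48 k32 3 (.s k154 k223 10 (.s k101 k207 14
  (.s k117 k69 3 (.d k255 k186 k170 10 14))))), (.s k84 k87 0 (.s k154 k223 10 (.s k18 k222 9 (.s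
  k19 k17 0 (.d k220 k152 k153 9 10))))), (.s k48 k32 3 (.s k84 k87 0 (.s k152 k220 9 (.s k100 k204
  13 (.s k116 k68 3 (.d k252 k184 k168 9 13))))))] (.c k255 (.l (.s k87 k84 0 (.s k223 k154 10 (.s
  k19 k155 9 (.s k17 k18 0 (.d k153 k221 k220 9 10)))))) .n)) (.c k84 (.q k16 [(.s k48 k32 3 (.s
  k154 k223 10 (.s k101 k207 14 (.s k117 k69 3 (.d k255 k186 k170 10 14))))), (.s k48 k32 3 (.s k154
  k223 10 (.s k18 k222 9 (.s k3 k33 4 (.s k1 k2 0 (.d k169 k253 k252 13 14)))))), (.s k154 k223 10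
  (.s k18 k222 9 (.s k17 k19 0 (.s k34 k51 4 (.s k170 k255 14 (.d k2 k50 k254 3 13)))))), (.s k48
  k32 3 (.s k170 k255 14 (.s k2 k254 13 (.s k3 k1 0 (.s k18 k33 4 (.s k17 k19 0 (.d k34 k50 k51 3
  4)))))))] .n) (.c k87 (.q k51 [(.s k17 k34 4 (.s k153 k221 9 (.s k102 k204 14 (.s k119 k68 4 (.d
  k255 k187 k170 9 14))))), (.s k17 k34 4 (.s k153 k221 9 (.s k19 k220 10 (.s k3 k35 3 (.s k1 k2 0
  (.d k169 k253 k252 13 14)))))), (.s k170 k255 14 (.s k2 k254 13 (.s k3 k1 0 (.s k19 k35 3 (.s k153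
  k220 10 (.s k136 k187 4 (.d k204 k68 k102 9 14)))))))] (.c k7 (.q k167 [(.s k17 k34 4 (.s k153
  k221 9 (.s k102 k204 14 (.s k119 k68 4 (.d k255 k187 k170 9 14))))), (.s k17 k34 4 (.s k153 k221 9
  (.s k19 k220 10 (.s k3 k35 3 (.s k1 k2 0 (.d k169 k253 k252 13 14)))))), (.s k170 k255 14 (.s k2
  k254 13 (.s k3 k1 0 (.s k19 k35 3 (.s k153 k220 10 (.s k136 k187 4 (.d k204 k68 k102 9 14)))))))]
  (.c k153 (.l (.s k34 k17 4 (.s k170 k255 14 (.s k2 k254 13 (.s k3 k1 0 (.s k18 k50 3 (.s k33 k48 4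
  (.d k35 k32 k19 0 3)))))))) .n)) (.c k153 (.l (.s k34 k17 4 (.s k170 k255 14 (.s k2 k254 13 (.s k3
  k1 0 (.s k18 k50 3 (.s k33 k48 4 (.d k35 k32 k19 0 3)))))))) (.c k167 (.q k7 [(.s k17 k34 4 (.s
  k153 k221 9 (.s k102 k204 14 (.s k119 k68 4 (.d k255 k187 k170 9 14))))), (.s k165 k244 12 (.s
  k245 k5 11 (.s k255 k170 14 (.s k240 k250 2 (.s k90 k15 14 (.d k80 k95 k160 2 11)))))), (.s k17
  k34 4 (.s k153 k221 9 (.s k19 k220 10 (.s k3 k35 3 (.s k1 k2 0 (.d k169 k253 k252 13 14))))))] .n)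
  .n)))) (.c k168 (.l (.s k87 k84 0 (.s k255 k170 14 (.s k3 k171 13 (.s k169 k252 14 (.d k1 k2 k253
  0 13)))))) (.c k169 (.q k8 [(.s k12 k4 1 (.s k170 k255 14 (.s k89 k251 12 (.s k243 k166 14 (.d k81
  k93 k162 1 12))))), (.s k12 k4 1 (.s k84 k87 0 (.s k168 k252 13 (.s k88 k248 11 (.s k80 k92 1 (.d
  k240 k160 k164 11 13)))))), (.s k84 k87 0 (.s k168 k252 13 (.s k88 k248 11 (.s k92 k80 1 (.s k89
  k83 2 (.d k170 k251 k255 12 14))))))] .n) (.c k170 (.q k90 [(.s k87 k84 0 (.s k94 k82 1 (.s k95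
  k80 2 (.s k83 k91 1 (.d k92 k93 k89 0 2))))), (.s k84 k87 0 (.s k94 k82 1 (.s k252 k168 13 (.s k15
  k173 12 (.s k165 k240 14 (.s k7 k244 12 (.d k3 k169 k11 14 1))))))), (.s k80 k95 2 (.s k84 k87 0
  (.s k240 k160 11 (.s k165 k15 14 (.s k252 k168 13 (.d k244 k7 k248 12 1)))))), (.s k80 k95 2 (.s
  k82 k94 1 (.s k240 k160 11 (.s k3 k161 12 (.s k1 k2 0 (.d k169 k253 k252 13 14))))))] .n) (.c k171
  (.l (.s k84 k87 0 (.s k252 k168 13 (.s k3 k169 14 (.s k170 k255 14 (.d k2 k1 k254 0 13)))))) (.c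
  k252 (.q k17 [(.s k51 k34 4 (.s k153 k221 9 (.s k102 k204 14 (.s k119 k68 4 (.d k255 k187 k170 9
  14))))), (.s k87 k84 0 (.s k153 k221 9 (.s k19 k220 10 (.s k16 k18 0 (.d k223 k155 k154 9 10))))),
  (.s k51 k34 4 (.s k87 k84 0 (.s k255 k170 14 (.s k3 k171 13 (.s k19 k35 3 (.s k16 k18 0 (.d k223
  k155 k154 9 10)))))))] .n) (.c k253 (.l (.s k84 k87 0 (.s k170 k255 14 (.s k2 k254 13 (.s k252
  k168 13 (.d k3 k1 k169 0 14)))))) (.c k255 (.q k243 [(.s k81 k162 12 (.s k84 k87 0 (.s k89 k93 1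
  (.s k252 k168 13 (.s k246 k249 2 (.d k166 k12 k6 14 11)))))), (.s k81 k162 12 (.s k87 k84 0 (.s
  k89 k93 1 (.s k83 k92 2 (.s k80 k82 0 (.d k95 k91 k90 1 2)))))), (.s k81 k162 12 (.s k84 k87 0 (.s
  k252 k168 13 (.s k3 k169 14 (.s k83 k163 11 (.s k80 k82 0 (.d k92 k88 k89 1 2))))))), (.s k84 k87
  0 (.s k252 k168 13 (.s k3 k169 14 (.s k83 k163 11 (.s k89 k92 2 (.s k166 k12 14 (.d k246 k249 k6 2
  11))))))), (.s k81 k162 12 (.s k89 k93 1 (.s k83 k92 2 (.s k3 k163 11 (.s k1 k2 0 (.d k169 k253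
  k252 13 14))))))] (.c k89 (.q k2 [(.s k3 k1 0 (.s k84 k87 0 (.d k252 k168 k169 13 14))), (.s k3 k1
  0 (.s k162 k81 12 (.s k82 k242 11 (.s k161 k240 12 (.d k163 k160 k83 0 11))))), (.s k162 k81 12
  (.s k170 k254 13 (.s k166 k174 1 (.s k246 k6 11 (.s k252 k249 2 (.d k84 k87 k168 0 13))))))] .n)
  .n)) .n))))))))))))

def t10_250 : T TT 256 :=
  (.q k3 [(.s k1 k2 0 (.s k169 k253 13 (.s k86 k252 14 (.s k87 k84 0 (.d k255 k170 k171 14 13))))),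
  (.s k2 k1 0 (.s k170 k255 14 (.s k86 k254 13 (.s k84 k87 0 (.d k252 k168 k169 13 14)))))] (.c k1
  (.f k255 k170 14 (.q k90 [(.s k80 k95 2 (.s k87 k171 13 (.s k86 k84 0 (.s k82 k94 1 (.d k240 k160
  k161 11 12))))), (.s k87 k171 13 (.s k95 k80 2 (.s k15 k175 11 (.s k7 k11 1 (.s k91 k83 1 (.d k167
  k247 k243 11 13)))))), (.s k87 k171 13 (.s k86 k84 0 (.s k82 k94 1 (.s k169 k252 14 (.s k11 k248
  12 (.s k15 k7 1 (.d k240 k161 k165 12 14))))))), (.s k80 k95 2 (.s k240 k160 11 (.s k82 k161 12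
  (.s k86 k94 1 (.s k165 k15 14 (.s k244 k7 12 (.d k252 k248 k169 1 14)))))))] (.c k82 (.l (.s k87
  k171 13 (.s k86 k84 0 (.s k95 k80 2 (.s k15 k175 11 (.s k7 k11 1 (.d k165 k244 k240 12 14)))))))
  (.c k169 (.l (.s k80 k95 2 (.s k240 k160 11 (.s k82 k161 12 (.s k86 k94 1 (.d k87 k84 k171 0
  13)))))) .n)))) (.c k2 (.f k170 k255 14 (.q k240 [(.s k80 k160 11 (.s k90 k95 2 (.s k15 k165 14
  (.s k11 k7 1 (.s k169 k248 12 (.s k168 k171 0 (.d k252 k86 k84 14 13))))))), (.s k80 k160 11 (.s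
  k82 k161 12 (.s k81 k83 0 (.s k89 k93 1 (.s k8 k251 12 (.s k12 k4 1 (.d k243 k162 k166 12
  14))))))), (.s k80 k160 11 (.s k82 k161 12 (.s k90 k95 2 (.s k86 k94 1 (.s k84 k87 0 (.d k252 k168
  k169 13 14))))))] (.c k6 (.q k14 [(.s k80 k160 11 (.s k82 k161 12 (.s k81 k83 0 (.s k162 k243 12
  (.s k166 k174 1 (.d k90 k95 k242 2 13)))))), (.s k80 k160 11 (.s k90 k95 2 (.s k15 k165 14 (.s k12
  k13 0 (.s k4 k8 1 (.d k166 k247 k242 12 13)))))), (.s k80 k160 11 (.s k82 k161 12 (.s k90 k95 2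
  (.s k86 k94 1 (.s k84 k87 0 (.d k252 k168 k169 13 14))))))] (.c k80 (.q k1 [(.s k169 k253 13 (.s
  k168 k171 0 (.d k252 k84 k86 13 14))), (.s k161 k82 12 (.s k81 k241 11 (.s k89 k93 1 (.s k8 k251
  12 (.s k12 k4 1 (.d k243 k162 k166 12 14))))))] .n) (.c k90 (.l (.s k160 k80 11 (.s k161 k82 12
  (.s k165 k175 2 (.s k169 k173 1 (.s k168 k171 0 (.d k252 k86 k84 14 13))))))) (.c k95 (.l (.s k160
  k80 11 (.s k161 k82 12 (.s k162 k163 0 (.s k166 k174 1 (.s k90 k242 13 (.d k165 k175 k15 2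
  14))))))) (.c k160 (.q k1 [(.s k169 k253 13 (.s k168 k171 0 (.d k252 k84 k86 13 14))), (.s k161
  k82 12 (.s k81 k241 11 (.s k89 k93 1 (.s k8 k251 12 (.s k12 k4 1 (.d k243 k162 k166 12 14))))))]
  .n) .n))))) (.c k14 (.q k6 [(.s k160 k80 11 (.s k165 k175 2 (.s k5 k245 11 (.s k7 k4 0 (.d k15 k11
  k90 1 14))))), (.s k12 k9 2 (.s k8 k4 1 (.s k89 k251 12 (.s k81 k93 1 (.d k243 k162 k166 12
  14)))))] (.c k4 (.l (.s k12 k9 2 (.s k80 k160 11 (.s k82 k161 12 (.s k81 k83 0 (.s k89 k93 1 (.d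
  k243 k162 k166 12 14))))))) (.c k11 (.l (.s k12 k9 2 (.s k8 k4 1 (.s k89 k251 12 (.s k81 k93 1 (.d
  k243 k162 k166 12 14)))))) .n))) (.c k80 (.f k82 k161 12 (.q k252 [(.s k84 k168 13 (.d k86 k87
  k169 0 14)), (.s k86 k169 14 (.s k90 k94 1 (.s k165 k15 14 (.d k244 k248 k7 1 12)))), (.s k84 k168
  13 (.s k244 k248 1 (.s k4 k164 11 (.s k166 k247 12 (.s k162 k174 1 (.s k243 k81 12 (.d k12 k8 k89
  1 14)))))))] (.c k6 (.q k14 [(.s k84 k168 13 (.d k86 k87 k169 0 14)), (.s k86 k169 14 (.s k90 k94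
  1 (.s k165 k15 14 (.d k244 k248 k7 1 12))))] (.c k86 (.l (.s k84 k168 13 (.s k244 k248 1 (.s k4
  k164 11 (.s k166 k247 12 (.s k90 k242 13 (.s k15 k165 14 (.d k12 k8 k13 1 0)))))))) (.c k169 (.l
  (.s k84 k168 13 (.s k86 k87 0 (.s k90 k94 1 (.s k165 k15 14 (.d k244 k248 k7 1 12)))))) .n))) (.c
  k14 (.q k6 [(.s k84 k168 13 (.d k86 k87 k169 0 14)), (.s k12 k9 2 (.s k86 k169 14 (.s k166 k246 11
  (.d k4 k8 k247 1 12)))), (.s k12 k9 2 (.s k8 k4 1 (.s k88 k164 13 (.d k168 k84 k248 13 11))))] .n)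
  .n)))) (.c k160 (.q k1 [(.s k169 k253 13 (.s k168 k171 0 (.d k252 k84 k86 13 14))), (.s k161 k82
  12 (.s k81 k241 11 (.s k89 k93 1 (.s k8 k251 12 (.s k12 k4 1 (.d k243 k162 k166 12 14))))))] (.c
  k6 (.q k14 [(.s k169 k253 13 (.s k168 k171 0 (.d k252 k84 k86 13 14))), (.s k161 k82 12 (.s k81
  k241 11 (.s k89 k93 1 (.s k8 k251 12 (.s k12 k4 1 (.d k243 k162 k166 12 14))))))] .n) (.c k14 (.q
  k6 [(.s k169 k253 13 (.s k168 k171 0 (.d k252 k84 k86 13 14))), (.s k12 k9 2 (.s k8 k4 1 (.s k89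
  k251 12 (.s k81 k93 1 (.d k161 k241 k82 11 12)))))] .n) .n))) .n)))))) (.c k84 (.q k90 [(.s k1 k2
  0 (.s k80 k95 2 (.s k169 k253 13 (.s k11 k248 12 (.s k15 k7 1 (.d k240 k160 k165 11 14)))))), (.s
  k2 k1 0 (.s k80 k95 2 (.s k170 k255 14 (.s k240 k160 11 (.s k82 k161 12 (.d k86 k94 k254 1
  13)))))), (.s k1 k2 0 (.s k169 k253 13 (.s k11 k248 12 (.s k15 k7 1 (.s k86 k252 14 (.s k82 k94 1
  (.d k240 k161 k165 12 14))))))), (.s k80 k95 2 (.s k240 k160 11 (.s k15 k165 14 (.s k11 k7 1 (.s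
  k82 k161 12 (.s k86 k94 1 (.d k169 k248 k252 12 14)))))))] (.c k15 (.l (.s k1 k2 0 (.s k80 k95 2
  (.s k169 k253 13 (.s k86 k252 14 (.s k240 k160 11 (.d k82 k94 k161 1 12))))))) (.c k240 (.l (.s k1
  k2 0 (.s k95 k80 2 (.s k169 k253 13 (.s k11 k248 12 (.s k15 k7 1 (.d k255 k175 k170 11 14)))))))
  .n))) (.c k86 (.f k170 k255 14 (.q k240 [(.s k2 k1 0 (.s k80 k160 11 (.s k82 k161 12 (.s k81 k83 0
  (.d k162 k242 k243 11 12))))), (.s k1 k2 0 (.s k80 k160 11 (.s k90 k95 2 (.s k15 k165 14 (.s k169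
  k253 13 (.d k11 k7 k248 1 12)))))), (.s k80 k160 11 (.s k82 k161 12 (.s k81 k83 0 (.s k89 k93 1
  (.s k8 k251 12 (.s k12 k4 1 (.d k243 k162 k166 12 14))))))), (.s k1 k2 0 (.s k161 k82 12 (.s k81
  k241 11 (.s k89 k93 1 (.s k8 k251 12 (.s k12 k4 1 (.d k243 k162 k166 12 14)))))))] .n)) (.c k87
  (.l (.s k1 k2 0 (.s k169 k253 13 (.s k170 k255 14 (.s k168 k171 0 (.d k252 k84 k86 13 14)))))) (.c
  k90 (.l (.s k170 k255 14 (.s k1 k2 0 (.s k169 k253 13 (.s k168 k171 0 (.d k252 k84 k86 13 14))))))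
  (.c k169 (.f k170 k255 14 (.q k240 [(.s k1 k2 0 (.s k160 k80 11 (.s k161 k82 12 (.s k81 k241 11
  (.d k162 k163 k243 0 12))))), (.s k2 k1 0 (.s k86 k254 13 (.s k160 k80 11 (.s k165 k175 2 (.s k7
  k244 12 (.d k15 k11 k90 1 14)))))), (.s k80 k160 11 (.s k82 k161 12 (.s k81 k83 0 (.s k89 k93 1
  (.s k8 k251 12 (.s k12 k4 1 (.d k243 k162 k166 12 14))))))), (.s k1 k2 0 (.s k161 k82 12 (.s k81
  k241 11 (.s k89 k93 1 (.s k8 k251 12 (.s k12 k4 1 (.d k243 k162 k166 12 14)))))))] .n)) (.c k170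
  (.q k90 [(.s k1 k2 0 (.s k80 k95 2 (.s k169 k253 13 (.s k11 k248 12 (.s k15 k7 1 (.d k240 k160
  k165 11 14)))))), (.s k80 k95 2 (.s k240 k160 11 (.s k82 k161 12 (.s k86 k94 1 (.s k84 k87 0 (.d
  k252 k168 k169 13 14)))))), (.s k1 k2 0 (.s k169 k253 13 (.s k11 k248 12 (.s k15 k7 1 (.s k86 k252
  14 (.s k82 k94 1 (.d k240 k161 k165 12 14))))))), (.s k2 k1 0 (.s k80 k95 2 (.s k240 k160 11 (.s
  k82 k161 12 (.s k81 k83 0 (.d k162 k242 k243 11 12))))))] (.c k165 (.l (.s k1 k2 0 (.s k80 k95 2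
  (.s k169 k253 13 (.s k86 k252 14 (.s k82 k94 1 (.d k240 k160 k161 11 12))))))) (.c k240 (.f k1 k2
  0 (.l (.s k80 k95 2 (.s k169 k253 13 (.s k86 k252 14 (.s k82 k94 1 (.s k83 k81 0 (.s k84 k87 0 (.d
  k92 k88 k89 1 2))))))))) .n))) (.c k252 (.q k137 [(.s k2 k1 0 (.s k70 k204 10 (.s k138 k206 9 (.s
  k139 k136 0 (.d k207 k71 k69 9 10))))), (.s k170 k255 14 (.s k204 k70 10 (.s k68 k136 9 (.s k102
  k119 4 (.s k34 k238 9 (.d k51 k17 k153 4 14)))))), (.s k1 k2 0 (.s k169 k253 13 (.s k153 k185 3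
  (.s k17 k221 9 (.s k49 k33 3 (.d k205 k69 k101 9 13))))))] (.c k90 (.l (.s k170 k255 14 (.s k1 k2
  0 (.s k69 k205 9 (.s k70 k204 10 (.s k71 k68 0 (.d k207 k139 k138 9 10))))))) (.c k170 (.q k90
  [(.s k2 k1 0 (.s k70 k204 10 (.s k138 k206 9 (.s k207 k69 10 (.d k139 k136 k71 0 9))))), (.s k1 k2
  0 (.s k80 k95 2 (.s k169 k253 13 (.s k11 k248 12 (.s k15 k7 1 (.d k240 k160 k165 11 14)))))), (.s
  k80 k95 2 (.s k204 k70 10 (.s k68 k136 9 (.s k102 k119 4 (.s k78 k114 5 (.s k15 k141 8 (.d k240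
  k160 k165 11 14)))))))] .n) .n))) (.c k253 (.l (.s k2 k1 0 (.s k170 k255 14 (.s k86 k254 13 (.s
  k252 k169 14 (.d k84 k87 k168 0 13)))))) (.c k254 (.l (.s k1 k2 0 (.s k169 k253 13 (.s k170 k255
  14 (.s k252 k86 14 (.d k168 k171 k84 0 13)))))) (.c k255 (.q k240 [(.s k2 k1 0 (.s k80 k160 11 (.s
  k82 k161 12 (.s k81 k83 0 (.d k162 k242 k243 11 12))))), (.s k1 k2 0 (.s k80 k160 11 (.s k90 k95 2
  (.s k15 k165 14 (.s k11 k7 1 (.d k169 k248 k253 12 13)))))), (.s k80 k160 11 (.s k82 k161 12 (.s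
  k90 k95 2 (.s k86 k94 1 (.s k84 k87 0 (.d k252 k168 k169 13 14)))))), (.s k1 k2 0 (.s k161 k82 12
  (.s k169 k253 13 (.s k165 k173 1 (.s k5 k245 11 (.s k13 k9 1 (.d k241 k81 k89 11 13)))))))] (.c
  k90 (.q k170 [(.s k1 k2 0 (.s k169 k253 13 (.s k168 k171 0 (.d k252 k84 k86 13 14)))), (.s k1 k2 0
  (.s k160 k80 11 (.s k161 k82 12 (.s k81 k241 11 (.d k162 k163 k243 0 12))))), (.s k160 k80 11 (.s
  k161 k82 12 (.s k165 k175 2 (.s k169 k173 1 (.s k168 k171 0 (.d k252 k86 k84 14 13))))))] (.c k86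
  (.l (.s k1 k2 0 (.s k160 k80 11 (.s k165 k175 2 (.s k169 k253 13 (.d k161 k173 k82 1 12)))))) .n))
  (.c k170 (.q k90 [(.d k80 k95 k160 2 11), (.s k1 k2 0 (.s k82 k161 12 (.s k86 k94 1 (.d k169 k253
  k252 13 14))))] .n) .n))) .n)))))))))))))

def t10_251 : T TT 256 :=
  (.q k204 [(.s k68 k136 9 (.s k102 k119 4 (.s k51 k153 14 (.s k34 k17 4 (.d k170 k238 k255 9
  14)))))] (.c k17 (.q k1 [(.s k3 k2 0 (.s k169 k253 13 (.s k86 k252 14 (.s k87 k84 0 (.d k255 k171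
  k170 13 14))))), (.s k3 k2 0 (.s k136 k68 9 (.s k137 k70 10 (.s k69 k205 9 (.d k138 k139 k207 0
  10))))), (.s k253 k169 13 (.s k255 k170 14 (.s k221 k238 4 (.s k205 k237 3 (.s k69 k137 9 (.d k207
  k206 k138 0 10))))))] .n) (.c k34 (.l (.s k68 k136 9 (.s k102 k119 4 (.s k153 k51 14 (.s k221 k17
  9 (.d k255 k238 k170 4 14)))))) (.c k51 (.q k1 [(.s k3 k2 0 (.s k136 k68 9 (.s k137 k70 10 (.s k69
  k205 9 (.d k138 k139 k207 0 10))))), (.s k169 k253 13 (.s k170 k255 14 (.s k168 k171 0 (.s k252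
  k84 13 (.d k3 k2 k86 0 14))))), (.s k253 k169 13 (.s k255 k170 14 (.s k221 k238 4 (.s k205 k237 3
  (.s k69 k137 9 (.d k207 k206 k138 0 10))))))] .n) (.c k68 (.q k3 [(.s k2 k1 0 (.s k170 k255 14 (.s
  k86 k254 13 (.s k84 k87 0 (.d k252 k168 k169 13 14))))), (.s k1 k2 0 (.s k137 k70 10 (.s k169 k253
  13 (.s k153 k185 3 (.s k17 k221 9 (.d k51 k34 k102 4 14)))))), (.s k70 k137 10 (.s k255 k170 14
  (.s k87 k171 13 (.s k86 k84 0 (.s k102 k118 3 (.s k153 k51 14 (.d k221 k238 k17 4 9)))))))] (.c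
  k169 (.l (.s k2 k1 0 (.s k70 k137 10 (.s k170 k255 14 (.s k86 k254 13 (.s k102 k118 3 (.s k34 k238
  9 (.d k51 k153 k17 14 4)))))))) .n)) (.c k102 (.q k1 [(.s k3 k2 0 (.s k169 k253 13 (.s k86 k252 14
  (.s k87 k84 0 (.d k255 k171 k170 13 14))))), (.s k3 k2 0 (.s k136 k68 9 (.s k137 k70 10 (.s k69
  k205 9 (.d k138 k139 k207 0 10))))), (.s k136 k68 9 (.s k169 k253 13 (.s k170 k255 14 (.s k153
  k187 4 (.s k137 k185 3 (.s k69 k205 9 (.d k138 k139 k207 0 10)))))))] .n) (.c k119 (.l (.s k136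
  k68 9 (.s k170 k255 14 (.s k153 k187 4 (.s k51 k102 14 (.d k17 k34 k221 4 9)))))) (.c k136 (.q k3
  [(.s k1 k2 0 (.s k169 k253 13 (.s k86 k252 14 (.s k87 k84 0 (.d k255 k171 k170 13 14))))), (.s k1
  k2 0 (.s k137 k70 10 (.s k169 k253 13 (.s k153 k185 3 (.s k17 k221 9 (.d k51 k34 k102 4 14)))))),
  (.s k70 k137 10 (.s k255 k170 14 (.s k87 k171 13 (.s k86 k84 0 (.s k102 k118 3 (.s k119 k68 4 (.d
  k51 k187 k153 9 14)))))))] (.c k169 (.l (.s k2 k1 0 (.s k70 k137 10 (.s k170 k255 14 (.s k86 k254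
  13 (.s k102 k118 3 (.s k34 k238 9 (.d k51 k153 k17 14 4)))))))) .n)) (.c k153 (.q k1 [(.s k3 k2 0
  (.s k169 k253 13 (.s k86 k252 14 (.s k87 k84 0 (.d k255 k171 k170 13 14))))), (.s k3 k2 0 (.s k136
  k68 9 (.s k137 k70 10 (.s k69 k205 9 (.d k138 k139 k207 0 10))))), (.s k253 k169 13 (.s k255 k170
  14 (.s k221 k238 4 (.s k205 k237 3 (.s k207 k206 0 (.d k69 k137 k138 9 10))))))] .n) (.c k170 (.q
  k89 [(.s k81 k93 1 (.s k243 k162 12 (.s k217 k230 6 (.s k153 k25 7 (.s k17 k221 9 (.d k51 k34 k102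
  4 14)))))), (.s k68 k136 9 (.s k102 k119 4 (.s k76 k115 6 (.s k12 k140 7 (.s k4 k8 1 (.d k166 k247
  k243 12 14)))))), (.s k68 k136 9 (.s k93 k81 1 (.s k102 k119 4 (.s k76 k115 6 (.s k64 k72 1 (.d
  k127 k110 k106 4 6))))))] (.c k90 (.q k250 [(.s k81 k93 1 (.s k243 k162 12 (.s k217 k230 6 (.s
  k153 k25 7 (.s k17 k221 9 (.d k51 k34 k102 4 14)))))), (.s k68 k136 9 (.s k102 k119 4 (.s k76 k115
  6 (.s k12 k140 7 (.s k4 k8 1 (.d k166 k247 k243 12 14)))))), (.s k68 k136 9 (.s k93 k81 1 (.s k102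
  k119 4 (.s k76 k115 6 (.s k64 k72 1 (.d k127 k110 k106 4 6))))))] (.c k102 (.f k81 k93 1 (.l (.s
  k243 k162 12 (.s k166 k12 14 (.s k217 k230 6 (.s k153 k25 7 (.s k17 k221 9 (.s k179 k140 6 (.d k51
  k34 k115 4 7))))))))) (.c k153 (.l (.s k81 k93 1 (.s k243 k162 12 (.s k166 k12 14 (.s k230 k217 6
  (.s k102 k38 7 (.d k68 k119 k136 4 9))))))) .n))) (.c k102 (.f k81 k93 1 (.l (.s k243 k162 12 (.s
  k166 k12 14 (.s k217 k230 6 (.s k153 k25 7 (.s k17 k221 9 (.s k179 k140 6 (.d k51 k34 k115 4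
  7))))))))) (.c k153 (.l (.s k81 k93 1 (.s k243 k162 12 (.s k166 k12 14 (.s k230 k217 6 (.s k102
  k38 7 (.d k68 k119 k136 4 9))))))) (.c k250 (.q k90 [(.s k91 k88 0 (.s k93 k81 1 (.s k95 k80 2 (.s
  k83 k87 1 (.d k92 k94 k86 0 2))))), (.s k68 k136 9 (.s k81 k93 1 (.s k102 k119 4 (.s k76 k115 6
  (.s k12 k140 7 (.d k243 k162 k166 12 14)))))), (.s k68 k136 9 (.s k80 k95 2 (.s k102 k119 4 (.s
  k78 k114 5 (.s k15 k141 8 (.d k240 k160 k165 11 14))))))] (.c k248 (.q k249 [(.s k80 k95 2 (.s k81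
  k93 1 (.s k83 k82 0 (.s k88 k91 0 (.d k92 k84 k86 1 2))))), (.s k80 k95 2 (.s k240 k160 11 (.s
  k165 k15 14 (.s k241 k13 13 (.d k245 k253 k5 1 11))))), (.s k93 k81 1 (.s k169 k9 11 (.s k253 k1
  13 (.s k13 k173 11 (.d k241 k245 k165 1 13)))))] .n) (.c k249 (.q k248 [(.s k80 k95 2 (.s k81 k93
  1 (.s k83 k82 0 (.s k88 k91 0 (.d k92 k84 k86 1 2))))), (.s k68 k136 9 (.s k80 k95 2 (.s k102 k119
  4 (.s k78 k114 5 (.s k15 k141 8 (.d k240 k160 k165 11 14)))))), (.s k81 k93 1 (.s k88 k91 0 (.s k8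
  k168 11 (.s k12 k4 1 (.d k243 k162 k166 12 14)))))] .n) .n))) .n))))) (.c k187 (.l (.s k68 k136 9
  (.s k102 k119 4 (.s k51 k153 14 (.s k170 k255 14 (.d k34 k17 k238 4 9)))))) (.c k238 (.l (.s k136
  k68 9 (.s k170 k255 14 (.s k153 k187 4 (.s k17 k221 9 (.d k51 k34 k102 4 14)))))) (.c k255 (.f k68
  k136 9 (.q k243 [(.s k81 k162 12 (.s k89 k93 1 (.s k102 k119 4 (.s k217 k230 6 (.d k153 k51 k25 14
  7))))), (.s k81 k162 12 (.s k102 k119 4 (.s k51 k153 14 (.s k17 k34 4 (.s k115 k179 7 (.s k98 k64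
  4 (.d k145 k209 k192 7 12))))))), (.s k81 k162 12 (.s k89 k93 1 (.s k12 k166 14 (.s k4 k8 1 (.s
  k76 k140 7 (.s k72 k64 1 (.d k132 k196 k192 7 9))))))), (.s k102 k119 4 (.s k230 k217 6 (.s k166
  k38 7 (.s k4 k247 12 (.d k12 k8 k89 1 14)))))] .n)) .n)))))))))))))

def t11_14 : T TT 256 :=
  (.f k255 k170 14 (.q k106 [(.s k64 k127 6 (.s k192 k128 7 (.s k149 k63 14 (.d k213 k234 k21 6
  7))))] (.c k21 (.q k1 [(.s k3 k2 0 (.s k169 k253 13 (.s k86 k252 14 (.d k87 k84 k171 0 13)))), (.s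
  k64 k127 6 (.s k192 k128 7 (.s k213 k234 6 (.s k253 k169 13 (.s k193 k233 5 (.s k65 k129 7 (.d
  k195 k130 k194 8 0))))))), (.s k3 k2 0 (.s k64 k127 6 (.s k192 k128 7 (.s k66 k129 8 (.s k86 k126
  5 (.d k87 k84 k171 0 13))))))] (.c k171 (.l (.s k3 k2 0 (.s k127 k64 6 (.s k63 k191 7 (.s k43 k23
  5 (.d k169 k232 k253 8 13)))))) .n)) (.c k63 (.q k1 [(.s k3 k2 0 (.s k169 k253 13 (.s k86 k252 14
  (.d k87 k84 k171 0 13)))), (.s k64 k127 6 (.s k192 k128 7 (.s k213 k234 6 (.s k253 k169 13 (.s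
  k193 k233 5 (.s k65 k129 7 (.d k195 k130 k194 8 0))))))), (.s k64 k127 6 (.s k169 k253 13 (.s k192
  k128 7 (.s k232 k43 8 (.s k252 k212 5 (.s k84 k168 13 (.d k86 k3 k87 14 0))))))), (.s k3 k2 0 (.s
  k64 k127 6 (.s k192 k128 7 (.s k66 k129 8 (.s k86 k126 5 (.d k87 k84 k171 0 13))))))] .n) (.c k64
  (.q k207 [(.s k69 k138 10 (.s k101 k117 3 (.s k154 k48 14 (.d k223 k239 k16 3 10)))), (.s k69 k138
  10 (.s k101 k117 3 (.s k111 k96 2 (.s k63 k159 11 (.s k21 k42 6 (.d k149 k213 k192 7 14)))))), (.s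
  k223 k239 3 (.s k154 k16 10 (.s k202 k58 11 (.s k192 k197 2 (.s k149 k63 14 (.d k213 k234 k21 6
  7))))))] (.c k101 (.q k81 [(.s k89 k93 1 (.s k243 k162 12 (.s k166 k12 14 (.d k247 k251 k4 1
  12)))), (.s k89 k93 1 (.s k243 k162 12 (.s k219 k231 5 (.s k154 k24 8 (.d k223 k239 k16 3 10))))),
  (.s k239 k223 3 (.s k243 k162 12 (.s k231 k219 5 (.s k235 k227 1 (.s k215 k195 5 (.d k247 k251
  k199 1 3))))))] (.c k32 (.l (.s k239 k223 3 (.s k89 k93 1 (.s k243 k162 12 (.s k166 k12 14 (.d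
  k247 k251 k4 1 12)))))) (.c k162 (.l (.s k93 k89 1 (.s k174 k12 12 (.s k239 k223 3 (.s k109 k44 8
  (.s k60 k158 12 (.d k125 k77 k190 3 8))))))) (.c k166 (.l (.s k69 k138 10 (.s k93 k89 1 (.s k12
  k174 12 (.s k162 k243 12 (.s k77 k142 8 (.s k65 k73 1 (.d k125 k105 k109 5 3)))))))) (.c k174 (.l
  (.s k89 k93 1 (.s k243 k162 12 (.s k166 k12 14 (.d k247 k251 k4 1 12))))) (.c k239 (.q k32 [(.s
  k89 k93 1 (.s k243 k162 12 (.s k166 k12 14 (.d k247 k251 k4 1 12)))), (.s k16 k48 3 (.s k211 k146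
  8 (.s k223 k154 10 (.s k219 k215 1 (.d k243 k231 k162 5 12))))), (.s k16 k48 3 (.s k89 k93 1 (.s
  k154 k223 10 (.s k24 k219 8 (.s k28 k20 1 (.d k211 k146 k150 8 10))))))] .n) (.c k243 (.l (.s k69
  k138 10 (.s k93 k89 1 (.s k12 k174 12 (.s k77 k142 8 (.s k65 k73 1 (.d k125 k105 k109 5 3)))))))
  .n))))))) (.c k154 (.q k81 [(.s k89 k93 1 (.s k243 k162 12 (.s k166 k12 14 (.d k247 k251 k4 1
  12)))), (.s k93 k89 1 (.s k223 k239 3 (.s k158 k28 8 (.s k60 k109 12 (.s k190 k125 8 (.d k174 k142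
  k12 3 12)))))), (.s k223 k239 3 (.s k243 k162 12 (.s k219 k231 5 (.s k215 k211 1 (.s k235 k195 5
  (.d k251 k247 k203 1 3))))))] (.c k138 (.q k186 [(.s k89 k93 1 (.s k243 k162 12 (.s k166 k12 14
  (.d k247 k251 k4 1 12)))), (.s k48 k117 10 (.s k16 k32 3 (.s k146 k211 8 (.s k97 k195 12 (.s k113
  k65 3 (.d k243 k178 k162 8 12)))))), (.s k89 k93 1 (.s k117 k48 10 (.s k101 k69 3 (.s k113 k77 5
  (.s k65 k97 3 (.d k125 k121 k105 1 5))))))] .n) (.c k174 (.l (.s k89 k93 1 (.s k243 k162 12 (.s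
  k166 k12 14 (.d k247 k251 k4 1 12))))) (.c k186 (.l (.s k138 k69 10 (.s k89 k93 1 (.s k243 k162 12
  (.s k166 k12 14 (.d k247 k251 k4 1 12)))))) (.c k251 (.l (.s k89 k93 1 (.s k123 k72 4 (.s k243
  k162 12 (.s k63 k183 9 (.s k21 k42 6 (.d k149 k213 k192 7 14))))))) .n))))) .n))) (.c k127 (.q
  k195 [(.s k65 k130 8 (.s k215 k235 5 (.s k150 k20 8 (.d k105 k125 k60 5 14)))), (.s k65 k130 8 (.s
  k105 k125 5 (.s k107 k104 0 (.s k63 k151 13 (.s k21 k42 6 (.d k149 k213 k192 7 14)))))), (.s k215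
  k235 5 (.s k150 k20 8 (.s k194 k62 13 (.s k192 k193 0 (.s k149 k63 14 (.d k213 k234 k21 6 7))))))]
  (.c k105 (.q k81 [(.s k243 k162 12 (.s k247 k251 1 (.s k166 k4 12 (.d k89 k93 k12 1 14)))), (.s
  k65 k130 8 (.s k97 k113 3 (.s k48 k146 12 (.s k32 k16 3 (.d k162 k227 k243 8 12)))))] (.c k40 (.l
  (.s k235 k215 5 (.s k89 k93 1 (.s k243 k162 12 (.s k166 k12 14 (.d k247 k251 k4 1 12)))))) (.c
  k162 (.l (.s k65 k130 8 (.s k89 k93 1 (.s k97 k113 3 (.s k146 k48 12 (.s k211 k16 8 (.s k150 k28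
  10 (.d k215 k20 k235 8 5)))))))) (.c k235 (.q k40 [(.s k89 k93 1 (.s k243 k162 12 (.s k166 k12 14
  (.d k247 k251 k4 1 12)))), (.s k20 k60 5 (.s k150 k215 8 (.s k194 k62 13 (.s k192 k193 0 (.s k213
  k234 6 (.d k149 k63 k21 14 7))))))] .n) (.c k243 (.l (.s k65 k130 8 (.s k93 k89 1 (.s k12 k174 12
  (.s k8 k4 1 (.s k73 k134 10 (.s k69 k77 1 (.d k138 k203 k207 8 10)))))))) .n))))) (.c k150 (.q
  k199 [(.s k207 k203 1 (.s k69 k138 10 (.s k101 k117 3 (.s k154 k48 14 (.d k223 k239 k16 3 10))))),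
  (.s k215 k235 5 (.s k247 k231 3 (.s k4 k166 12 (.s k12 k8 1 (.d k134 k69 k73 8 10))))), (.s k207
  k203 1 (.s k215 k235 5 (.s k223 k239 3 (.s k219 k211 1 (.d k231 k247 k243 3 5))))), (.s k207 k203
  1 (.s k69 k138 10 (.s k4 k134 8 (.s k215 k235 5 (.d k247 k166 k231 12 3)))))] (.c k130 (.q k190
  [(.s k207 k203 1 (.s k69 k138 10 (.s k101 k117 3 (.s k154 k48 14 (.d k223 k239 k16 3 10))))), (.s
  k215 k235 5 (.s k247 k231 3 (.s k4 k166 12 (.s k12 k8 1 (.d k134 k69 k73 8 10))))), (.s k207 k203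
  1 (.s k215 k235 5 (.s k223 k239 3 (.s k219 k211 1 (.d k231 k247 k243 3 5))))), (.s k125 k60 8 (.s
  k65 k105 5 (.s k207 k203 1 (.s k69 k138 10 (.s k73 k77 1 (.d k134 k4 k12 8 10))))))] .n) (.c k190
  (.l (.s k130 k65 8 (.s k207 k203 1 (.s k69 k138 10 (.s k4 k134 8 (.s k215 k235 5 (.d k247 k166
  k231 12 3))))))) .n))) .n))) (.c k128 (.l (.s k127 k64 6 (.s k63 k191 7 (.s k149 k192 14 (.d k21
  k42 k213 6 7))))) (.c k149 (.f k127 k64 6 (.q k102 [(.s k68 k119 4 (.s k204 k136 9 (.s k153 k51 14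
  (.d k221 k238 k17 4 9)))), (.s k110 k98 1 (.s k93 k76 4 (.s k12 k174 12 (.s k4 k8 1 (.s k166 k247
  12 (.d k89 k81 k243 1 14))))))] (.c k68 (.l (.s k110 k98 1 (.s k76 k93 4 (.s k115 k89 6 (.s k119
  k123 1 (.s k51 k187 9 (.s k17 k34 4 (.d k153 k221 k204 9 14)))))))) (.c k128 (.l (.s k191 k63 7
  (.s k68 k119 4 (.s k204 k136 9 (.s k153 k51 14 (.d k221 k238 k17 4 9)))))) (.c k191 (.q k128 [(.s
  k68 k119 4 (.s k204 k136 9 (.s k153 k51 14 (.d k221 k238 k17 4 9)))), (.s k110 k98 1 (.s k93 k76 4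
  (.s k12 k174 12 (.s k4 k8 1 (.s k166 k247 12 (.d k89 k81 k243 1 14))))))] (.c k68 (.l (.s k110 k98
  1 (.s k76 k93 4 (.s k115 k89 6 (.s k119 k123 1 (.s k51 k187 9 (.s k17 k34 4 (.d k153 k221 k204 9
  14)))))))) .n)) .n))))) (.c k191 (.l (.s k64 k127 6 (.s k192 k128 7 (.s k149 k63 14 (.d k213 k234
  k21 6 7))))) (.c k192 (.q k1 [(.s k3 k2 0 (.s k169 k253 13 (.s k86 k252 14 (.d k87 k84 k171 0
  13)))), (.s k127 k64 6 (.s k63 k191 7 (.s k21 k42 6 (.s k61 k41 5 (.s k253 k169 13 (.s k125 k189 7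
  (.d k60 k190 k62 8 0))))))), (.s k3 k2 0 (.s k127 k64 6 (.s k63 k191 7 (.s k21 k42 6 (.s k23 k43 5
  (.s k22 k20 0 (.d k41 k61 k60 5 6)))))))] .n) (.c k213 (.q k1 [(.s k3 k2 0 (.s k169 k253 13 (.s
  k86 k252 14 (.d k87 k84 k171 0 13)))), (.s k127 k64 6 (.s k63 k191 7 (.s k21 k42 6 (.s k61 k41 5
  (.s k60 k62 0 (.s k125 k190 8 (.d k253 k189 k169 7 13))))))), (.s k64 k127 6 (.s k169 k253 13 (.s
  k192 k128 7 (.s k149 k63 14 (.s k129 k189 5 (.s k66 k3 8 (.d k65 k193 k67 7 0))))))), (.s k3 k2 0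
  (.s k64 k127 6 (.s k192 k128 7 (.s k66 k129 8 (.s k86 k126 5 (.d k87 k84 k171 0 13))))))] .n) (.c
  k234 (.l (.s k127 k64 6 (.s k63 k191 7 (.s k21 k42 6 (.d k149 k213 k192 7 14))))) .n))))))))))))

def t11_15 : T TT 256 :=
  (.q k3 [(.s k1 k2 0 (.s k169 k253 13 (.s k86 k252 14 (.s k87 k84 0 (.d k255 k171 k170 13 14))))),
  (.s k1 k2 0 (.s k169 k253 13 (.s k170 k255 14 (.s k168 k171 0 (.d k252 k84 k86 13 14)))))] (.c k1
  (.q k12 [(.s k8 k4 1 (.s k170 k255 14 (.s k89 k251 12 (.s k81 k93 1 (.d k243 k162 k166 12 14))))),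
  (.s k4 k8 1 (.s k166 k247 12 (.s k243 k89 14 (.s k163 k83 11 (.s k169 k172 2 (.s k86 k252 14 (.d
  k6 k9 k246 2 11))))))), (.s k9 k6 2 (.s k255 k170 14 (.s k87 k171 13 (.s k86 k84 0 (.s k93 k174 12
  (.s k89 k81 1 (.d k169 k249 k252 11 14)))))))] (.c k89 (.l (.s k6 k9 2 (.s k255 k170 14 (.s k87
  k171 13 (.s k86 k84 0 (.s k166 k246 11 (.d k4 k8 k247 1 12))))))) (.c k166 (.l (.s k9 k6 2 (.s
  k255 k170 14 (.s k87 k171 13 (.s k86 k84 0 (.s k169 k252 14 (.s k89 k249 11 (.d k93 k174 k81 12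
  1)))))))) (.c k170 (.l (.s k4 k8 1 (.s k9 k6 2 (.s k166 k247 12 (.s k89 k243 14 (.s k169 k249 11
  (.s k172 k163 2 (.d k252 k92 k86 11 14)))))))) (.c k251 (.l (.s k4 k8 1 (.s k166 k247 12 (.s k89
  k243 14 (.s k255 k170 14 (.d k93 k81 k174 1 12)))))) .n))))) (.c k2 (.q k12 [(.s k4 k8 1 (.s k166
  k247 12 (.s k89 k243 14 (.s k93 k81 1 (.d k255 k174 k170 12 14))))), (.s k6 k9 2 (.s k255 k170 14
  (.s k87 k171 13 (.s k86 k84 0 (.s k166 k246 11 (.d k4 k8 k247 1 12)))))), (.s k9 k6 2 (.s k255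
  k170 14 (.s k87 k171 13 (.s k86 k84 0 (.s k169 k252 14 (.s k89 k249 11 (.d k93 k81 k174 1
  12))))))), (.s k8 k4 1 (.s k170 k255 14 (.s k89 k251 12 (.s k81 k93 1 (.d k243 k162 k166 12
  14))))), (.s k4 k8 1 (.s k166 k247 12 (.s k243 k89 14 (.s k163 k83 11 (.s k169 k172 2 (.s k86 k252
  14 (.d k6 k9 k246 2 11)))))))] (.c k170 (.l (.s k4 k8 1 (.s k9 k6 2 (.s k166 k247 12 (.s k89 k243
  14 (.s k169 k249 11 (.s k172 k163 2 (.d k252 k92 k86 11 14)))))))) (.c k251 (.l (.s k4 k8 1 (.s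
  k166 k247 12 (.s k89 k243 14 (.s k255 k170 14 (.d k93 k81 k174 1 12)))))) .n))) (.c k84 (.q k4
  [(.s k166 k247 12 (.s k170 k255 14 (.s k162 k174 1 (.s k243 k81 12 (.d k12 k8 k89 1 14))))), (.s
  k1 k2 0 (.s k166 k247 12 (.s k169 k253 13 (.s k86 k252 14 (.s k6 k246 11 (.s k5 k7 0 (.d k9 k13
  k12 1 2))))))), (.s k1 k2 0 (.s k12 k8 1 (.s k9 k6 2 (.s k13 k5 1 (.s k253 k169 13 (.s k93 k173 11
  (.d k255 k174 k170 12 14)))))))] (.c k12 (.l (.s k1 k2 0 (.s k166 k247 12 (.s k169 k253 13 (.s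
  k163 k172 2 (.s k170 k255 14 (.s k243 k83 11 (.d k162 k174 k81 1 12)))))))) (.c k255 (.l (.s k1 k2
  0 (.s k12 k8 1 (.s k9 k6 2 (.s k166 k247 12 (.s k169 k253 13 (.d k89 k243 k249 14 11))))))) .n)))
  (.c k86 (.q k9 [(.s k1 k2 0 (.s k13 k5 1 (.s k169 k253 13 (.s k89 k249 11 (.s k81 k93 1 (.d k241
  k161 k165 11 13)))))), (.s k12 k6 2 (.s k4 k8 1 (.s k166 k247 12 (.s k89 k243 14 (.s k93 k81 1 (.d
  k255 k174 k170 12 14)))))), (.s k12 k6 2 (.s k4 k8 1 (.s k166 k247 12 (.s k89 k243 14 (.s k169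
  k249 11 (.d k1 k2 k253 0 13))))))] (.c k89 (.l (.s k1 k2 0 (.s k12 k6 2 (.s k13 k5 1 (.s k253 k169
  13 (.s k93 k173 11 (.d k255 k170 k174 14 12))))))) .n)) (.c k169 (.f k2 k1 0 (.f k170 k255 14 (.q
  k90 [(.s k10 k250 11 (.s k14 k6 1 (.s k166 k242 13 (.s k174 k162 1 (.d k254 k94 k86 11 13))))),
  (.s k86 k254 13 (.s k87 k84 0 (.s k94 k82 1 (.s k95 k80 2 (.s k83 k91 1 (.d k92 k93 k89 0 2)))))),
  (.s k10 k250 11 (.s k14 k6 1 (.s k242 k166 13 (.s k82 k162 11 (.s k240 k161 12 (.d k80 k95 k160 2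
  11))))))] (.c k86 (.l (.s k10 k250 11 (.s k6 k14 1 (.s k12 k9 2 (.s k4 k8 1 (.s k166 k247 12 (.s
  k162 k174 1 (.d k243 k89 k81 14 12)))))))) (.c k95 (.q k175 [(.s k86 k254 13 (.s k160 k165 2 (.s
  k240 k80 11 (.d k82 k161 k94 12 1)))), (.s k10 k250 11 (.s k6 k14 1 (.s k12 k9 2 (.s k4 k8 1 (.s
  k5 k7 0 (.d k165 k245 k160 11 2)))))), (.s k250 k10 11 (.s k254 k86 13 (.s k242 k246 1 (.s k162
  k82 11 (.d k166 k174 k14 1 13)))))] .n) (.c k175 (.l (.s k95 k80 2 (.s k10 k250 11 (.s k14 k6 1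
  (.s k86 k254 13 (.s k82 k94 1 (.d k242 k162 k166 11 13))))))) .n)))))) (.c k170 (.q k17 [(.s k2 k1
  0 (.s k34 k51 4 (.s k18 k50 3 (.s k16 k19 0 (.d k48 k32 k33 3 4))))), (.s k1 k2 0 (.s k49 k33 3
  (.s k153 k221 9 (.s k101 k205 13 (.s k117 k69 3 (.d k253 k185 k169 9 13)))))), (.s k51 k34 4 (.s
  k19 k35 3 (.s k153 k221 9 (.s k86 k220 10 (.s k84 k87 0 (.d k252 k168 k169 13 14))))))] (.c k33
  (.l (.s k1 k2 0 (.s k51 k34 4 (.s k35 k19 3 (.s k153 k221 9 (.s k102 k204 14 (.d k169 k236 k253 10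
  13))))))) .n)) (.c k171 (.l (.s k2 k1 0 (.s k170 k255 14 (.s k86 k254 13 (.s k84 k87 0 (.d k252
  k168 k169 13 14)))))) (.c k252 (.f k2 k1 0 (.f k255 k170 14 (.f k171 k87 13 (.q k34 [(.s k17 k51 4
  (.s k18 k50 3 (.s k48 k33 4 (.d k16 k19 k32 0 3)))), (.s k51 k17 4 (.s k187 k119 9 (.s k155 k139 3
  (.s k103 k207 13 (.d k35 k19 k239 3 9))))), (.s k18 k50 3 (.s k48 k33 4 (.s k16 k32 3 (.s k117
  k186 10 (.s k101 k69 3 (.d k154 k223 k207 10 14))))))] (.c k17 (.l (.s k18 k50 3 (.s k33 k48 4 (.s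
  k35 k32 0 (.s k51 k19 3 (.s k187 k119 9 (.s k155 k139 3 (.d k103 k239 k207 9 13)))))))) (.c k33
  (.l (.s k17 k51 4 (.s k18 k50 3 (.s k16 k19 0 (.s k48 k32 3 (.s k117 k186 10 (.s k101 k69 3 (.d
  k154 k223 k207 10 14)))))))) (.c k49 (.l (.s k17 k51 4 (.s k18 k50 3 (.s k48 k33 4 (.d k16 k19 k32
  0 3))))) (.c k94 (.q k173 [(.s k17 k51 4 (.s k18 k50 3 (.s k48 k33 4 (.d k16 k19 k32 0 3)))), (.s
  k51 k17 4 (.s k187 k119 9 (.s k155 k139 3 (.s k103 k207 13 (.d k35 k19 k239 3 9))))), (.s k18 k50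
  3 (.s k48 k33 4 (.s k16 k32 3 (.s k117 k186 10 (.s k101 k69 3 (.d k154 k223 k207 10 14))))))] (.c
  k17 (.l (.s k18 k50 3 (.s k33 k48 4 (.s k35 k32 0 (.s k51 k19 3 (.s k187 k119 9 (.s k155 k139 3
  (.d k103 k239 k207 9 13)))))))) (.c k33 (.l (.s k17 k51 4 (.s k18 k50 3 (.s k16 k19 0 (.s k48 k32
  3 (.s k117 k186 10 (.s k101 k69 3 (.d k154 k223 k207 10 14)))))))) (.c k49 (.l (.s k17 k51 4 (.s
  k18 k50 3 (.s k48 k33 4 (.d k16 k19 k32 0 3))))) .n)))) (.c k173 (.q k94 [(.s k17 k51 4 (.s k18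
  k50 3 (.s k48 k33 4 (.d k16 k19 k32 0 3)))), (.s k51 k17 4 (.s k187 k119 9 (.s k155 k139 3 (.s
  k103 k207 13 (.d k35 k19 k239 3 9))))), (.s k18 k50 3 (.s k48 k33 4 (.s k16 k32 3 (.s k117 k186 10
  (.s k101 k69 3 (.d k154 k223 k207 10 14))))))] (.c k17 (.l (.s k18 k50 3 (.s k33 k48 4 (.s k35 k32
  0 (.s k51 k19 3 (.s k187 k119 9 (.s k155 k139 3 (.d k103 k239 k207 9 13)))))))) (.c k33 (.l (.s
  k17 k51 4 (.s k18 k50 3 (.s k16 k19 0 (.s k48 k32 3 (.s k117 k186 10 (.s k101 k69 3 (.d k154 k223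
  k207 10 14)))))))) (.c k49 (.l (.s k17 k51 4 (.s k18 k50 3 (.s k48 k33 4 (.d k16 k19 k32 0 3)))))
  .n)))) .n))))))))) (.c k253 (.l (.s k2 k1 0 (.s k170 k255 14 (.s k86 k254 13 (.s k252 k169 14 (.d
  k84 k87 k168 0 13)))))) (.c k254 (.l (.s k1 k2 0 (.s k169 k253 13 (.s k86 k252 14 (.s k255 k170 14
  (.d k87 k84 k171 0 13)))))) (.c k255 (.f k1 k2 0 (.q k163 [(.s k169 k253 13 (.s k166 k172 2 (.s k4
  k247 12 (.s k243 k83 11 (.d k12 k8 k89 1 14))))), (.s k243 k83 11 (.s k81 k162 12 (.s k89 k93 1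
  (.s k12 k166 14 (.s k9 k6 2 (.s k13 k5 1 (.d k241 k161 k165 11 13))))))), (.s k169 k253 13 (.s
  k172 k166 2 (.s k252 k86 14 (.s k168 k84 13 (.s k160 k164 1 (.s k161 k162 0 (.d k240 k82 k80 12
  11))))))), (.s k169 k253 13 (.s k243 k83 11 (.s k81 k162 12 (.s k89 k93 1 (.s k249 k9 11 (.d k252
  k246 k86 2 14))))))] (.c k95 (.q k175 [(.s k169 k253 13 (.s k252 k86 14 (.s k168 k84 13 (.d k171
  k170 k167 0 1)))), (.s k167 k171 1 (.s k243 k83 11 (.s k81 k162 12 (.s k89 k93 1 (.s k241 k161 11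
  (.s k165 k13 13 (.d k166 k12 k164 14 0))))))), (.s k169 k253 13 (.s k166 k172 2 (.s k4 k247 12 (.s
  k12 k8 1 (.d k243 k83 k89 11 14)))))] (.c k253 (.l (.s k171 k167 1 (.s k243 k83 11 (.s k162 k81 12
  (.s k160 k161 0 (.s k170 k165 2 (.s k166 k174 1 (.d k169 k168 k172 0 2)))))))) .n)) (.c k175 (.q
  k95 [(.s k243 k83 11 (.s k162 k81 12 (.s k160 k161 0 (.d k80 k90 k240 2 11)))), (.s k169 k253 13
  (.s k166 k172 2 (.s k4 k247 12 (.s k12 k8 1 (.d k243 k83 k89 11 14))))), (.s k80 k90 2 (.s k169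
  k253 13 (.s k172 k166 2 (.s k252 k86 14 (.s k84 k168 13 (.d k92 k88 k12 1 11))))))] .n) .n))))
  .n))))))))))))

def t11_26 : T TT 256 :=
  (.q k105 [(.s k65 k125 5 (.s k195 k130 8 (.s k150 k60 14 (.s k215 k20 8 (.d k255 k235 k170 5
  14)))))] (.c k20 (.q k41 [(.s k65 k125 5 (.s k169 k233 7 (.s k1 k253 13 (.s k193 k129 7 (.d k61
  k21 k149 5 13))))), (.s k169 k233 7 (.s k170 k255 14 (.s k40 k235 8 (.s k43 k42 0 (.s k168 k171 0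
  (.d k232 k104 k106 7 8)))))), (.s k170 k255 14 (.s k40 k235 8 (.s k42 k43 0 (.s k21 k63 6 (.s k61
  k1 5 (.d k149 k213 k193 7 13))))))] .n) (.c k41 (.q k56 [(.s k125 k65 5 (.s k255 k170 14 (.s k60
  k190 8 (.s k150 k195 14 (.d k20 k40 k215 5 8))))), (.s k154 k203 12 (.s k16 k223 10 (.s k48 k32 3
  (.s k101 k207 14 (.s k117 k69 3 (.d k255 k186 k170 10 14)))))), (.s k65 k125 5 (.s k154 k203 12
  (.s k16 k223 10 (.s k48 k32 3 (.s k60 k52 1 (.d k195 k130 k150 8 14))))))] (.c k195 (.l (.s k125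
  k65 5 (.s k154 k203 12 (.s k16 k223 10 (.s k48 k32 3 (.s k60 k52 1 (.d k255 k190 k170 8 14)))))))
  .n)) (.c k56 (.q k41 [(.s k65 k125 5 (.s k170 k255 14 (.s k40 k235 8 (.s k60 k20 5 (.d k195 k130
  k150 8 14))))), (.s k65 k125 5 (.s k169 k233 7 (.s k1 k253 13 (.s k61 k21 5 (.d k193 k129 k149 7
  13))))), (.s k169 k233 7 (.s k1 k253 13 (.s k3 k2 0 (.s k60 k22 6 (.s k20 k40 5 (.d k150 k215 k195
  8 14))))))] .n) (.c k60 (.q k41 [(.s k169 k233 7 (.s k1 k253 13 (.s k61 k21 5 (.s k193 k149 13 (.d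
  k65 k125 k129 5 7))))), (.s k169 k233 7 (.s k170 k255 14 (.s k40 k235 8 (.s k43 k42 0 (.s k168
  k171 0 (.d k232 k104 k106 7 8)))))), (.s k170 k255 14 (.s k40 k235 8 (.s k42 k43 0 (.s k21 k63 6
  (.s k61 k1 5 (.d k149 k213 k193 7 13))))))] (.c k125 (.l (.s k169 k233 7 (.s k1 k253 13 (.s k3 k2
  0 (.s k86 k252 14 (.s k87 k84 0 (.d k255 k171 k170 13 14))))))) .n)) (.c k65 (.q k41 [(.s k169
  k233 7 (.s k1 k253 13 (.s k3 k2 0 (.s k86 k252 14 (.s k87 k84 0 (.d k255 k171 k170 13 14)))))),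
  (.s k169 k233 7 (.s k170 k255 14 (.s k40 k235 8 (.s k43 k42 0 (.s k168 k171 0 (.d k232 k104 k106 7
  8)))))), (.s k169 k233 7 (.s k1 k253 13 (.s k3 k2 0 (.s k60 k22 6 (.s k20 k40 5 (.d k150 k215 k195
  8 14)))))), (.s k169 k233 7 (.s k1 k253 13 (.s k21 k61 5 (.s k42 k63 6 (.s k170 k255 14 (.d k40
  k43 k235 0 8)))))), (.s k170 k255 14 (.s k40 k235 8 (.s k42 k43 0 (.s k21 k63 6 (.s k61 k1 5 (.d
  k149 k193 k213 13 7))))))] .n) (.c k125 (.q k41 [(.s k169 k233 7 (.s k1 k253 13 (.s k3 k2 0 (.s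
  k86 k252 14 (.s k87 k84 0 (.d k255 k171 k170 13 14)))))), (.s k169 k233 7 (.s k170 k255 14 (.s k40
  k235 8 (.s k43 k42 0 (.s k168 k171 0 (.d k232 k104 k106 7 8)))))), (.s k169 k233 7 (.s k1 k253 13
  (.s k3 k2 0 (.s k60 k22 6 (.s k20 k40 5 (.d k150 k215 k195 8 14)))))), (.s k170 k255 14 (.s k40
  k235 8 (.s k42 k43 0 (.s k21 k63 6 (.s k61 k1 5 (.d k149 k213 k193 7 13))))))] (.c k3 (.l (.s k169
  k233 7 (.s k1 k253 13 (.s k170 k255 14 (.s k40 k235 8 (.s k42 k43 0 (.d k21 k61 k63 5 6))))))) (.c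
  k195 (.l (.s k169 k233 7 (.s k1 k253 13 (.s k3 k2 0 (.s k60 k22 6 (.s k40 k20 5 (.d k170 k235 k255
  8 14))))))) .n))) (.c k130 (.l (.s k125 k65 5 (.s k255 k170 14 (.s k60 k190 8 (.s k150 k195 14 (.d
  k20 k40 k215 5 8)))))) (.c k150 (.q k41 [(.s k65 k125 5 (.s k169 k233 7 (.s k1 k253 13 (.s k193
  k129 7 (.d k61 k21 k149 5 13))))), (.s k169 k233 7 (.s k170 k255 14 (.s k40 k235 8 (.s k43 k42 0
  (.s k168 k171 0 (.d k232 k104 k106 7 8)))))), (.s k170 k255 14 (.s k40 k235 8 (.s k42 k43 0 (.s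
  k21 k63 6 (.s k61 k1 5 (.d k149 k213 k193 7 13))))))] .n) (.c k170 (.q k169 [(.s k1 k253 13 (.s
  k41 k233 7 (.s k65 k125 5 (.s k193 k129 7 (.d k61 k21 k149 5 13))))), (.s k65 k125 5 (.s k195 k130
  8 (.s k150 k60 14 (.s k131 k188 6 (.s k3 k67 7 (.s k252 k86 14 (.d k233 k41 k214 7 6))))))), (.s
  k1 k253 13 (.s k3 k2 0 (.s k41 k233 7 (.s k60 k22 6 (.s k20 k40 5 (.d k150 k215 k195 8 14))))))]
  (.c k41 (.q k56 [(.s k65 k125 5 (.s k154 k203 12 (.s k16 k223 10 (.s k48 k32 3 (.s k60 k52 1 (.d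
  k195 k130 k150 8 14)))))), (.s k1 k253 13 (.s k3 k2 0 (.s k65 k125 5 (.s k86 k252 14 (.s k67 k124
  6 (.s k66 k64 0 (.d k129 k193 k192 7 8))))))), (.s k154 k203 12 (.s k16 k223 10 (.s k48 k32 3 (.s
  k60 k52 1 (.s k20 k40 5 (.d k150 k215 k195 8 14))))))] (.c k60 (.l (.s k1 k253 13 (.s k3 k2 0 (.s
  k65 k125 5 (.s k86 k252 14 (.s k195 k130 8 (.d k67 k124 k131 6 7))))))) .n)) (.c k56 (.l (.s k41
  k233 7 (.s k1 k253 13 (.s k61 k21 5 (.s k65 k125 5 (.d k193 k129 k149 7 13)))))) (.c k233 (.l (.s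
  k1 k253 13 (.s k3 k2 0 (.s k65 k125 5 (.s k86 k252 14 (.s k67 k124 6 (.d k195 k131 k130 7 8)))))))
  .n)))) (.c k190 (.l (.s k65 k125 5 (.s k195 k130 8 (.s k60 k150 14 (.s k170 k255 14 (.d k40 k20
  k235 5 8)))))) (.c k195 (.f k255 k170 14 (.q k41 [(.s k65 k125 5 (.s k169 k233 7 (.s k1 k253 13
  (.s k193 k129 7 (.d k61 k21 k149 5 13))))), (.s k125 k65 5 (.s k60 k190 8 (.s k3 k22 6 (.s k87
  k171 13 (.s k86 k84 0 (.d k169 k233 k252 7 14)))))), (.s k125 k65 5 (.s k60 k190 8 (.s k3 k22 6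
  (.s k1 k2 0 (.s k21 k61 5 (.s k40 k20 5 (.d k42 k43 k63 0 6))))))), (.s k169 k233 7 (.s k1 k253 13
  (.s k3 k2 0 (.s k87 k171 13 (.d k86 k252 k84 14 0)))))] .n)) (.c k215 (.l (.s k65 k125 5 (.s k170
  k255 14 (.s k40 k235 8 (.s k195 k130 8 (.d k60 k20 k150 5 14)))))) (.c k235 (.l (.s k125 k65 5 (.s
  k255 k170 14 (.s k60 k190 8 (.s k20 k40 5 (.d k150 k215 k195 8 14)))))) (.c k255 (.q k41 [(.s k169
  k233 7 (.s k1 k253 13 (.s k61 k21 5 (.s k193 k149 13 (.d k65 k125 k129 5 7))))), (.s k65 k125 5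
  (.s k169 k233 7 (.s k195 k130 8 (.s k60 k150 14 (.s k3 k22 6 (.s k67 k131 7 (.d k86 k124 k252 6
  14))))))), (.s k169 k233 7 (.s k1 k253 13 (.s k3 k2 0 (.s k60 k22 6 (.s k20 k40 5 (.d k150 k215
  k195 8 14)))))), (.s k65 k125 5 (.s k195 k130 8 (.s k60 k150 14 (.s k3 k22 6 (.s k1 k2 0 (.s k61
  k21 5 (.d k193 k129 k149 7 13)))))))] .n) .n)))))))))))))))

def t11_27 : T TT 256 :=
  (.q k106 [(.s k64 k127 6 (.s k192 k128 7 (.s k149 k63 14 (.s k213 k21 7 (.d k255 k234 k170 6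
  14)))))] (.c k21 (.f k255 k170 14 (.q k169 [(.s k1 k253 13 (.s k3 k2 0 (.s k86 k252 14 (.d k87 k84
  k171 0 13)))), (.s k1 k253 13 (.s k43 k232 8 (.s k127 k64 6 (.s k63 k191 7 (.d k3 k2 k23 0 5))))),
  (.s k43 k232 8 (.s k127 k64 6 (.s k63 k191 7 (.s k3 k23 5 (.s k86 k252 14 (.d k87 k84 k171 0
  13))))))] (.c k3 (.l (.s k64 k127 6 (.s k192 k128 7 (.s k253 k1 13 (.s k252 k254 0 (.d k232 k212
  k43 5 8)))))) (.c k43 (.q k59 [(.s k1 k253 13 (.s k3 k2 0 (.s k86 k252 14 (.d k87 k84 k171 0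
  13)))), (.s k127 k64 6 (.s k63 k191 7 (.s k51 k55 1 (.s k17 k34 4 (.d k153 k221 k200 9 12)))))]
  .n) (.c k59 (.l (.s k43 k232 8 (.s k1 k253 13 (.s k3 k2 0 (.s k63 k23 5 (.d k127 k64 k191 6
  7)))))) .n))))) (.c k43 (.q k59 [(.s k127 k64 6 (.s k255 k170 14 (.s k63 k191 7 (.s k149 k192 14
  (.d k21 k42 k213 6 7))))), (.s k153 k200 12 (.s k17 k221 9 (.s k51 k34 4 (.s k102 k204 14 (.s k119
  k68 4 (.d k255 k187 k170 9 14)))))), (.s k64 k127 6 (.s k153 k200 12 (.s k17 k221 9 (.s k51 k34 4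
  (.s k63 k55 1 (.d k192 k128 k149 7 14))))))] (.c k192 (.l (.s k127 k64 6 (.s k153 k200 12 (.s k17
  k221 9 (.s k51 k34 4 (.s k63 k55 1 (.d k255 k191 k170 7 14))))))) .n)) (.c k59 (.q k43 [(.s k127
  k64 6 (.s k255 k170 14 (.s k63 k191 7 (.s k149 k192 14 (.d k21 k42 k213 6 7))))), (.s k169 k232 8
  (.s k1 k253 13 (.s k3 k2 0 (.s k86 k252 14 (.s k87 k84 0 (.d k255 k171 k170 13 14)))))), (.s k64
  k127 6 (.s k169 k232 8 (.s k1 k253 13 (.s k3 k2 0 (.s k63 k23 5 (.d k192 k128 k149 7 14))))))] (.c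
  k192 (.l (.s k127 k64 6 (.s k169 k232 8 (.s k1 k253 13 (.s k3 k2 0 (.s k63 k23 5 (.d k255 k191
  k170 7 14))))))) .n)) (.c k63 (.f k127 k64 6 (.f k170 k255 14 (.q k43 [(.s k169 k232 8 (.s k1 k253
  13 (.s k3 k2 0 (.s k168 k171 0 (.d k252 k84 k86 13 14))))), (.s k42 k234 7 (.s k40 k41 0 (.s k60
  k20 5 (.s k105 k235 8 (.s k65 k125 5 (.d k195 k130 k150 8 14))))))] (.c k232 (.q k1 [(.s k3 k2 0
  (.s k169 k253 13 (.s k252 k86 14 (.d k168 k171 k84 0 13)))), (.s k42 k234 7 (.s k40 k41 0 (.s k20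
  k60 5 (.s k150 k215 8 (.s k62 k194 13 (.d k2 k3 k22 0 5)))))), (.s k42 k234 7 (.s k40 k41 0 (.s
  k235 k105 8 (.s k171 k107 7 (.d k169 k168 k253 0 13)))))] .n) .n)))) (.c k64 (.q k43 [(.s k169
  k232 8 (.s k1 k253 13 (.s k3 k2 0 (.s k63 k23 5 (.s k21 k42 6 (.d k149 k213 k192 7 14)))))), (.s
  k170 k255 14 (.s k42 k234 7 (.s k40 k41 0 (.s k60 k20 5 (.s k105 k235 8 (.s k65 k125 5 (.d k195
  k130 k150 8 14))))))), (.s k169 k232 8 (.s k1 k253 13 (.s k3 k2 0 (.s k86 k252 14 (.s k87 k84 0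
  (.d k255 k171 k170 13 14))))))] (.c k192 (.l (.s k169 k232 8 (.s k1 k253 13 (.s k3 k2 0 (.s k63
  k23 5 (.s k42 k21 6 (.d k170 k234 k255 7 14))))))) (.c k232 (.l (.s k170 k255 14 (.s k42 k234 7
  (.s k41 k40 0 (.s k63 k21 6 (.s k3 k23 5 (.s k2 k1 0 (.d k22 k62 k60 5 6)))))))) .n))) (.c k127
  (.q k43 [(.s k169 k232 8 (.s k1 k253 13 (.s k3 k2 0 (.s k86 k252 14 (.s k87 k84 0 (.d k255 k171
  k170 13 14)))))), (.s k170 k255 14 (.s k42 k234 7 (.s k40 k41 0 (.s k60 k20 5 (.s k105 k235 8 (.s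
  k65 k125 5 (.d k195 k130 k150 8 14))))))), (.s k169 k232 8 (.s k1 k253 13 (.s k3 k2 0 (.s k63 k23
  5 (.s k21 k42 6 (.d k149 k213 k192 7 14))))))] (.c k192 (.l (.s k169 k232 8 (.s k1 k253 13 (.s k3
  k2 0 (.s k63 k23 5 (.s k42 k21 6 (.d k170 k234 k255 7 14))))))) (.c k232 (.l (.s k170 k255 14 (.s
  k42 k234 7 (.s k41 k40 0 (.s k63 k21 6 (.s k3 k23 5 (.s k2 k1 0 (.d k22 k62 k60 5 6)))))))) .n)))
  (.c k128 (.l (.s k127 k64 6 (.s k255 k170 14 (.s k63 k191 7 (.s k149 k192 14 (.d k21 k42 k213 6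
  7)))))) (.c k149 (.q k43 [(.s k127 k64 6 (.s k169 k232 8 (.s k1 k253 13 (.s k3 k2 0 (.s k255 k170
  14 (.d k63 k191 k23 7 5)))))), (.s k170 k255 14 (.s k42 k234 7 (.s k40 k41 0 (.s k60 k20 5 (.s
  k105 k235 8 (.s k65 k125 5 (.d k195 k130 k150 8 14)))))))] (.c k170 (.l (.s k64 k127 6 (.s k169
  k232 8 (.s k1 k253 13 (.s k3 k2 0 (.s k86 k252 14 (.s k66 k126 5 (.d k192 k128 k129 7 8))))))))
  (.c k232 (.l (.s k170 k255 14 (.s k42 k234 7 (.s k41 k40 0 (.s k63 k21 6 (.s k3 k23 5 (.s k2 k1 0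
  (.d k22 k62 k60 5 6)))))))) (.c k255 (.l (.s k64 k127 6 (.s k169 k232 8 (.s k1 k253 13 (.s k3 k2 0
  (.s k192 k128 7 (.s k66 k129 8 (.d k86 k252 k126 14 5)))))))) .n)))) (.c k170 (.f k64 k127 6 (.q
  k169 [(.s k1 k253 13 (.s k3 k2 0 (.s k43 k232 8 (.s k192 k128 7 (.d k63 k149 k23 14 5))))), (.s k1
  k253 13 (.s k192 k128 7 (.s k149 k63 14 (.s k21 k213 7 (.s k61 k41 5 (.s k129 k189 5 (.d k193 k65
  k105 7 13))))))), (.s k1 k253 13 (.s k3 k2 0 (.s k86 k252 14 (.s k66 k126 5 (.s k67 k65 0 (.s k84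
  k87 0 (.d k124 k104 k105 5 6))))))), (.s k192 k128 7 (.s k149 k63 14 (.s k129 k189 5 (.s k3 k66 8
  (.s k252 k86 14 (.d k232 k43 k212 8 5))))))] (.c k43 (.q k59 [(.s k153 k200 12 (.s k17 k221 9 (.s
  k51 k34 4 (.s k63 k55 1 (.d k192 k128 k149 7 14))))), (.s k1 k253 13 (.s k3 k2 0 (.s k86 k252 14
  (.s k66 k126 5 (.s k65 k67 0 (.d k129 k193 k192 7 8)))))), (.s k1 k253 13 (.s k153 k200 12 (.s k17
  k221 9 (.s k49 k33 3 (.s k137 k185 3 (.d k205 k69 k101 9 13))))))] .n) (.c k59 (.l (.s k43 k232 8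
  (.s k1 k253 13 (.s k3 k2 0 (.s k63 k23 5 (.d k192 k128 k149 7 14)))))) (.c k63 (.l (.s k1 k253 13
  (.s k3 k2 0 (.s k86 k252 14 (.s k192 k128 7 (.d k66 k126 k129 5 8)))))) .n))))) (.c k191 (.l (.s
  k64 k127 6 (.s k192 k128 7 (.s k63 k149 14 (.s k170 k255 14 (.d k42 k21 k234 6 7)))))) (.c k192
  (.f k255 k170 14 (.f k127 k64 6 (.q k43 [(.s k63 k191 7 (.s k169 k232 8 (.s k1 k253 13 (.d k3 k2
  k23 0 5)))), (.s k169 k232 8 (.s k1 k253 13 (.s k3 k2 0 (.s k87 k171 13 (.d k86 k252 k84 14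
  0))))), (.s k63 k191 7 (.s k3 k23 5 (.s k2 k1 0 (.s k42 k21 6 (.s k22 k62 5 (.d k41 k40 k60 0
  6)))))), (.s k63 k191 7 (.s k3 k23 5 (.s k87 k171 13 (.s k86 k84 0 (.d k169 k232 k252 8 14)))))]
  (.c k3 (.l (.s k63 k191 7 (.s k21 k42 6 (.s k149 k213 7 (.s k169 k232 8 (.s k253 k1 13 (.s k252
  k254 0 (.d k189 k129 k126 5 8)))))))) .n)))) (.c k213 (.l (.s k64 k127 6 (.s k170 k255 14 (.s k42
  k234 7 (.s k192 k128 7 (.d k63 k21 k149 6 14)))))) (.c k234 (.l (.s k127 k64 6 (.s k255 k170 14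
  (.s k63 k191 7 (.s k21 k42 6 (.d k149 k213 k192 7 14)))))) (.c k255 (.f k64 k127 6 (.f k192 k128 7
  (.f k63 k149 14 (.q k59 [(.s k51 k55 1 (.s k17 k34 4 (.d k153 k221 k200 9 12))), (.s k42 k21 6 (.s
  k8 k25 4 (.s k200 k153 12 (.s k72 k136 7 (.d k12 k132 k4 9 1))))), (.s k42 k21 6 (.s k25 k8 4 (.s
  k51 k55 1 (.s k34 k17 4 (.d k38 k46 k12 1 6)))))] (.c k17 (.l (.s k51 k55 1 (.s k98 k145 12 (.s
  k102 k110 1 (.d k153 k200 k204 12 14))))) (.c k170 (.q k191 [(.s k51 k55 1 (.s k17 k34 4 (.d k153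
  k221 k200 9 12))), (.s k42 k21 6 (.s k8 k25 4 (.s k200 k153 12 (.s k136 k72 7 (.d k204 k196 k68 1
  9))))), (.s k42 k21 6 (.s k25 k8 4 (.s k51 k55 1 (.s k34 k17 4 (.d k38 k46 k12 1 6)))))] (.c k17
  (.l (.s k51 k55 1 (.s k98 k145 12 (.s k102 k110 1 (.d k153 k200 k204 12 14))))) (.c k196 (.l (.s
  k153 k200 12 (.s k17 k221 9 (.d k51 k55 k34 1 4)))) .n))) (.c k191 (.q k170 [(.d k42 k21 k234 6
  7), (.s k51 k55 1 (.s k17 k34 4 (.d k153 k221 k200 9 12)))] .n) .n))))))) .n)))))))))))))))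

def t11_30 : T TT 256 :=
  (.f k255 k170 14 (.q k106 [(.s k64 k127 6 (.s k192 k128 7 (.s k149 k63 14 (.d k213 k234 k21 6
  7))))] (.c k21 (.q k1 [(.s k3 k2 0 (.s k169 k253 13 (.s k86 k252 14 (.d k87 k84 k171 0 13)))), (.s
  k64 k127 6 (.s k192 k128 7 (.s k213 k234 6 (.s k253 k169 13 (.s k193 k233 5 (.s k65 k129 7 (.d
  k195 k130 k194 8 0))))))), (.s k3 k2 0 (.s k64 k127 6 (.s k192 k128 7 (.s k66 k129 8 (.s k86 k126
  5 (.d k87 k84 k171 0 13))))))] (.c k171 (.l (.s k3 k2 0 (.s k127 k64 6 (.s k63 k191 7 (.s k43 k23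
  5 (.d k169 k232 k253 8 13)))))) .n)) (.c k63 (.q k1 [(.s k3 k2 0 (.s k169 k253 13 (.s k86 k252 14
  (.d k87 k84 k171 0 13)))), (.s k64 k127 6 (.s k192 k128 7 (.s k213 k234 6 (.s k253 k169 13 (.s
  k193 k233 5 (.s k65 k129 7 (.d k195 k130 k194 8 0))))))), (.s k64 k127 6 (.s k169 k253 13 (.s k192
  k128 7 (.s k232 k43 8 (.s k252 k212 5 (.s k84 k168 13 (.d k86 k3 k87 14 0))))))), (.s k3 k2 0 (.s
  k64 k127 6 (.s k192 k128 7 (.s k66 k129 8 (.s k86 k126 5 (.d k87 k84 k171 0 13))))))] .n) (.c k64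
  (.q k204 [(.s k68 k136 9 (.s k102 k119 4 (.s k153 k51 14 (.d k221 k238 k17 4 9)))), (.s k68 k136 9
  (.s k102 k119 4 (.s k110 k98 1 (.s k63 k157 12 (.s k21 k42 6 (.d k149 k213 k192 7 14)))))), (.s
  k221 k238 4 (.s k153 k17 9 (.s k200 k59 12 (.s k192 k196 1 (.s k149 k63 14 (.d k213 k234 k21 6
  7))))))] (.c k102 (.q k72 [(.s k89 k123 4 (.s k81 k93 1 (.s k243 k162 12 (.s k166 k12 14 (.d k247
  k251 k4 1 12))))), (.s k136 k68 9 (.s k200 k8 7 (.s k153 k59 12 (.d k221 k238 k17 4 9)))), (.s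
  k136 k68 9 (.s k8 k200 7 (.s k12 k4 1 (.s k132 k192 9 (.d k140 k128 k76 1 7)))))] (.c k34 (.l (.s
  k238 k221 4 (.s k89 k123 4 (.s k81 k93 1 (.s k243 k162 12 (.s k166 k12 14 (.d k247 k251 k4 1
  12))))))) (.c k238 (.q k34 [(.s k17 k51 4 (.s k136 k68 9 (.s k153 k221 9 (.d k200 k8 k59 7 12)))),
  (.s k89 k123 4 (.s k81 k93 1 (.s k243 k162 12 (.s k166 k12 14 (.d k247 k251 k4 1 12)))))] .n)
  .n))) (.c k153 (.q k93 [(.s k12 k174 12 (.s k89 k81 1 (.s k166 k243 14 (.d k4 k8 k247 1 12)))),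
  (.s k221 k238 4 (.s k157 k29 7 (.s k63 k110 12 (.s k21 k42 6 (.d k149 k213 k192 7 14)))))] (.c
  k136 (.q k187 [(.s k12 k174 12 (.s k89 k81 1 (.s k166 k243 14 (.d k4 k8 k247 1 12)))), (.s k89 k81
  1 (.s k119 k51 9 (.s k123 k72 4 (.s k115 k127 1 (.d k102 k68 k76 4 6))))), (.s k12 k174 12 (.s k76
  k140 7 (.s k110 k127 4 (.s k119 k51 9 (.d k102 k98 k68 1 4)))))] (.c k98 (.l (.s k12 k174 12 (.s
  k4 k8 1 (.s k166 k247 12 (.d k89 k81 k243 1 14))))) .n)) (.c k174 (.l (.s k221 k238 4 (.s k157 k29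
  7 (.s k110 k63 12 (.s k102 k98 1 (.d k68 k119 k136 4 9)))))) (.c k187 (.l (.s k136 k68 9 (.s k12
  k174 12 (.s k4 k8 1 (.s k89 k81 1 (.d k166 k247 k243 12 14)))))) .n)))) .n))) (.c k127 (.q k51
  [(.s k17 k34 4 (.s k119 k187 9 (.s k102 k68 4 (.d k153 k221 k204 9 14)))), (.s k17 k34 4 (.s k153
  k221 9 (.s k59 k200 12 (.s k63 k55 1 (.s k21 k42 6 (.d k149 k213 k192 7 14)))))), (.s k119 k187 9
  (.s k102 k68 4 (.s k98 k110 1 (.s k192 k145 12 (.s k149 k63 14 (.d k213 k234 k21 6 7))))))] (.c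
  k102 (.q k207 [(.s k69 k138 10 (.s k223 k239 3 (.s k154 k16 10 (.d k101 k117 k48 3 14)))), (.s
  k103 k155 13 (.s k119 k187 9 (.s k87 k71 3 (.s k171 k3 13 (.d k239 k223 k35 3 9))))), (.s k69 k138
  10 (.s k101 k117 3 (.s k111 k96 2 (.s k63 k159 11 (.s k21 k42 6 (.d k149 k213 k192 7 14))))))] (.c
  k34 (.q k238 [(.s k69 k138 10 (.s k223 k239 3 (.s k154 k16 10 (.d k101 k117 k48 3 14)))), (.s k103
  k155 13 (.s k119 k187 9 (.s k87 k71 3 (.s k171 k3 13 (.d k239 k223 k35 3 9))))), (.s k69 k138 10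
  (.s k101 k117 3 (.s k111 k96 2 (.s k63 k159 11 (.s k21 k42 6 (.d k149 k213 k192 7 14))))))] .n)
  (.c k238 (.l (.s k34 k17 4 (.s k69 k138 10 (.s k101 k117 3 (.s k154 k48 14 (.d k223 k239 k16 3
  10)))))) .n))) (.c k153 (.q k89 [(.s k93 k81 1 (.s k12 k174 12 (.s k166 k243 14 (.d k4 k8 k247 1
  12)))), (.s k123 k72 4 (.s k187 k119 9 (.s k59 k251 7 (.s k63 k55 1 (.s k21 k42 6 (.d k149 k213
  k192 7 14))))))] (.c k136 (.l (.s k187 k119 9 (.s k81 k93 1 (.s k123 k72 4 (.s k243 k162 12 (.d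
  k251 k247 k59 1 7)))))) (.c k187 (.q k136 [(.s k68 k204 9 (.s k72 k123 4 (.s k76 k64 1 (.d k102
  k119 k115 4 6)))), (.s k93 k81 1 (.s k12 k174 12 (.s k4 k8 1 (.d k166 k247 k243 12 14))))] .n) (.c
  k247 (.l (.s k81 k93 1 (.s k243 k162 12 (.s k115 k179 7 (.s k98 k64 4 (.d k102 k110 k76 1 6))))))
  .n)))) .n))) (.c k128 (.l (.s k127 k64 6 (.s k63 k191 7 (.s k149 k192 14 (.d k21 k42 k213 6 7)))))
  (.c k149 (.f k127 k64 6 (.q k90 [(.s k95 k80 2 (.s k15 k175 11 (.s k165 k240 14 (.d k5 k10 k245 2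
  11)))), (.s k122 k74 3 (.s k117 k112 2 (.s k48 k186 10 (.s k16 k32 3 (.s k154 k223 10 (.d k101 k69
  k207 3 14)))))), (.s k80 k95 2 (.s k122 k74 3 (.s k240 k160 11 (.d k63 k191 k181 7 10))))] (.c k80
  (.l (.s k122 k74 3 (.s k112 k117 2 (.s k79 k101 6 (.s k95 k111 3 (.s k15 k175 11 (.s k5 k10 2 (.d
  k165 k245 k240 11 14)))))))) (.c k128 (.l (.s k191 k63 7 (.s k80 k95 2 (.s k240 k160 11 (.s k165
  k15 14 (.d k245 k250 k5 2 11)))))) (.c k191 (.q k128 [(.s k80 k95 2 (.s k240 k160 11 (.s k245 k250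
  2 (.d k165 k5 k15 11 14)))), (.s k122 k74 3 (.s k117 k112 2 (.s k48 k186 10 (.s k16 k32 3 (.s k154
  k223 10 (.d k101 k69 k207 3 14))))))] (.c k80 (.l (.s k122 k74 3 (.s k112 k117 2 (.s k79 k101 6
  (.s k95 k111 3 (.s k15 k175 11 (.s k5 k10 2 (.d k165 k245 k240 11 14)))))))) .n)) .n))))) (.c k191
  (.l (.s k64 k127 6 (.s k192 k128 7 (.s k149 k63 14 (.d k213 k234 k21 6 7))))) (.c k192 (.q k1 [(.s
  k3 k2 0 (.s k169 k253 13 (.s k86 k252 14 (.d k87 k84 k171 0 13)))), (.s k127 k64 6 (.s k63 k191 7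
  (.s k21 k42 6 (.s k61 k41 5 (.s k253 k169 13 (.s k125 k189 7 (.d k60 k190 k62 8 0))))))), (.s k3
  k2 0 (.s k127 k64 6 (.s k63 k191 7 (.s k21 k42 6 (.s k23 k43 5 (.s k22 k20 0 (.d k41 k61 k60 5
  6)))))))] .n) (.c k213 (.q k1 [(.s k3 k2 0 (.s k169 k253 13 (.s k86 k252 14 (.d k87 k84 k171 0
  13)))), (.s k127 k64 6 (.s k63 k191 7 (.s k21 k42 6 (.s k61 k41 5 (.s k60 k62 0 (.s k125 k190 8
  (.d k253 k189 k169 7 13))))))), (.s k64 k127 6 (.s k169 k253 13 (.s k192 k128 7 (.s k149 k63 14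
  (.s k129 k189 5 (.s k66 k3 8 (.d k65 k193 k67 7 0))))))), (.s k3 k2 0 (.s k64 k127 6 (.s k192 k128
  7 (.s k66 k129 8 (.s k86 k126 5 (.d k87 k84 k171 0 13))))))] .n) (.c k234 (.l (.s k127 k64 6 (.s
  k63 k191 7 (.s k21 k42 6 (.d k149 k213 k192 7 14))))) .n))))))))))))

def t11_31 : T TT 256 :=
  (.f k255 k170 14 (.q k106 [(.s k64 k127 6 (.s k192 k128 7 (.s k213 k234 6 (.d k149 k21 k63 7
  14))))] (.c k21 (.q k16 [(.s k48 k32 3 (.s k117 k186 10 (.s k101 k69 3 (.d k154 k223 k207 10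
  14)))), (.s k64 k127 6 (.s k192 k128 7 (.s k213 k234 6 (.s k223 k154 10 (.s k208 k218 2 (.s k80
  k144 7 (.d k240 k160 k224 11 3))))))), (.s k48 k32 3 (.s k64 k127 6 (.s k192 k128 7 (.s k96 k144
  11 (.s k101 k111 2 (.d k117 k69 k186 3 10))))))] (.c k186 (.l (.s k48 k32 3 (.s k127 k64 6 (.s k63
  k191 7 (.s k58 k53 2 (.d k154 k223 k202 10 11)))))) .n)) (.c k63 (.q k15 [(.s k95 k175 11 (.s k90
  k80 2 (.s k165 k240 14 (.d k5 k10 k245 2 11)))), (.s k10 k5 2 (.s k64 k127 6 (.s k192 k128 7 (.s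
  k74 k133 10 (.s k69 k79 2 (.d k138 k202 k207 7 10)))))), (.s k64 k127 6 (.s k95 k175 11 (.s k90
  k80 2 (.s k74 k122 3 (.d k192 k128 k133 7 10)))))] (.c k95 (.l (.s k5 k10 2 (.s k64 k127 6 (.s
  k165 k245 11 (.s k90 k240 14 (.s k192 k128 7 (.d k74 k122 k133 3 10))))))) .n)) (.c k64 (.q k60
  [(.s k20 k40 5 (.s k125 k190 8 (.s k150 k215 8 (.d k105 k65 k195 5 14)))), (.s k20 k40 5 (.s k150
  k215 8 (.s k62 k194 13 (.s k63 k61 0 (.s k21 k42 6 (.d k149 k213 k192 7 14)))))), (.s k125 k190 8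
  (.s k105 k65 5 (.s k104 k107 0 (.s k192 k148 13 (.s k149 k63 14 (.d k213 k234 k21 6 7))))))] (.c
  k105 (.q k87 [(.s k3 k171 13 (.s k1 k2 0 (.s k169 k253 13 (.d k86 k84 k252 0 14)))), (.s k86 k84 0
  (.s k126 k66 5 (.s k190 k125 8 (.s k62 k254 7 (.s k150 k194 13 (.d k20 k40 k215 5 8)))))), (.s k3
  k171 13 (.s k2 k1 0 (.s k22 k41 6 (.s k42 k62 5 (.s k21 k63 6 (.d k20 k40 k23 5 0))))))] (.c k2
  (.l (.s k3 k171 13 (.s k22 k41 6 (.s k86 k84 0 (.s k150 k214 7 (.d k20 k40 k215 5 8)))))) (.c k40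
  (.q k235 [(.s k3 k171 13 (.s k1 k2 0 (.s k169 k253 13 (.d k86 k84 k252 0 14)))), (.s k86 k84 0 (.s
  k126 k66 5 (.s k190 k125 8 (.s k62 k254 7 (.s k150 k194 13 (.d k215 k195 k20 5 8)))))), (.s k3
  k171 13 (.s k22 k41 6 (.s k215 k195 5 (.s k20 k150 8 (.d k23 k21 k151 0 7)))))] .n) (.c k235 (.l
  (.s k40 k20 5 (.s k3 k171 13 (.s k1 k2 0 (.s k86 k84 0 (.d k169 k253 k252 13 14)))))) .n)))) (.c
  k150 (.q k69 [(.s k101 k117 3 (.s k207 k138 10 (.s k154 k48 14 (.d k223 k239 k16 3 10)))), (.s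
  k101 k117 3 (.s k207 k138 10 (.s k109 k158 12 (.s k105 k97 1 (.d k125 k190 k65 8 5))))), (.s k190
  k125 8 (.s k207 k138 10 (.s k158 k109 12 (.s k174 k142 3 (.s k93 k12 12 (.d k223 k239 k28 3
  8))))))] (.c k130 (.l (.s k190 k125 8 (.s k101 k117 3 (.s k207 k138 10 (.s k154 k48 14 (.d k223
  k239 k16 3 10)))))) (.c k138 (.l (.s k117 k101 3 (.s k186 k48 10 (.s k190 k125 8 (.s k182 k178 1
  (.s k243 k121 10 (.d k247 k52 k251 8 1))))))) (.c k154 (.l (.s k20 k40 5 (.s k117 k101 3 (.s k48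
  k186 10 (.s k138 k207 10 (.s k52 k56 1 (.s k4 k36 3 (.d k247 k166 k182 12 8)))))))) (.c k186 (.l
  (.s k101 k117 3 (.s k207 k138 10 (.s k154 k48 14 (.d k223 k239 k16 3 10))))) (.c k190 (.q k130
  [(.s k101 k117 3 (.s k207 k138 10 (.s k154 k48 14 (.d k223 k239 k16 3 10)))), (.s k65 k195 8 (.s
  k77 k73 1 (.s k125 k105 5 (.s k109 k93 3 (.d k207 k138 k158 10 12))))), (.s k65 k195 8 (.s k77 k73
  1 (.s k101 k117 3 (.s k89 k113 5 (.s k93 k81 1 (.d k125 k109 k105 3 5))))))] .n) (.c k207 (.l (.s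
  k20 k40 5 (.s k117 k101 3 (.s k48 k186 10 (.s k52 k56 1 (.s k4 k36 3 (.d k247 k166 k182 12
  8))))))) .n))))))) .n))) (.c k127 (.q k195 [(.s k65 k130 8 (.s k215 k235 5 (.s k150 k20 8 (.d k105
  k125 k60 5 14)))), (.s k65 k130 8 (.s k105 k125 5 (.s k107 k104 0 (.s k63 k151 13 (.s k21 k42 6
  (.d k149 k213 k192 7 14)))))), (.s k215 k235 5 (.s k150 k20 8 (.s k194 k62 13 (.s k192 k193 0 (.s
  k149 k63 14 (.d k213 k234 k21 6 7))))))] (.c k105 (.q k81 [(.s k89 k93 1 (.s k243 k162 12 (.s k166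
  k12 14 (.d k247 k251 k4 1 12)))), (.s k65 k130 8 (.s k97 k113 3 (.s k48 k146 12 (.s k32 k16 3 (.d
  k162 k227 k243 8 12)))))] (.c k40 (.l (.s k235 k215 5 (.s k89 k93 1 (.s k243 k162 12 (.s k166 k12
  14 (.d k247 k251 k4 1 12)))))) (.c k162 (.l (.s k65 k130 8 (.s k89 k93 1 (.s k97 k113 3 (.s k146
  k48 12 (.s k211 k16 8 (.s k150 k28 10 (.d k215 k20 k235 8 5)))))))) (.c k235 (.q k40 [(.s k89 k93
  1 (.s k243 k162 12 (.s k166 k12 14 (.d k247 k251 k4 1 12)))), (.s k20 k60 5 (.s k150 k215 8 (.s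
  k194 k62 13 (.s k192 k193 0 (.s k213 k234 6 (.d k149 k63 k21 14 7))))))] .n) (.c k243 (.l (.s k65
  k130 8 (.s k93 k89 1 (.s k12 k174 12 (.s k8 k4 1 (.s k73 k134 10 (.s k69 k77 1 (.d k138 k203 k207
  8 10)))))))) .n))))) (.c k150 (.q k199 [(.s k207 k203 1 (.s k69 k138 10 (.s k101 k117 3 (.s k154
  k48 14 (.d k223 k239 k16 3 10))))), (.s k215 k235 5 (.s k247 k231 3 (.s k4 k166 12 (.s k12 k8 1
  (.d k134 k69 k73 8 10))))), (.s k207 k203 1 (.s k215 k235 5 (.s k223 k239 3 (.s k219 k211 1 (.d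
  k231 k247 k243 3 5))))), (.s k207 k203 1 (.s k69 k138 10 (.s k4 k134 8 (.s k215 k235 5 (.d k247
  k166 k231 12 3)))))] (.c k130 (.q k190 [(.s k207 k203 1 (.s k69 k138 10 (.s k101 k117 3 (.s k154
  k48 14 (.d k223 k239 k16 3 10))))), (.s k215 k235 5 (.s k247 k231 3 (.s k4 k166 12 (.s k12 k8 1
  (.d k134 k69 k73 8 10))))), (.s k207 k203 1 (.s k215 k235 5 (.s k223 k239 3 (.s k219 k211 1 (.d
  k231 k247 k243 3 5))))), (.s k125 k60 8 (.s k65 k105 5 (.s k207 k203 1 (.s k69 k138 10 (.s k73 k77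
  1 (.d k134 k4 k12 8 10))))))] .n) (.c k190 (.l (.s k130 k65 8 (.s k207 k203 1 (.s k69 k138 10 (.s
  k4 k134 8 (.s k215 k235 5 (.d k247 k166 k231 12 3))))))) .n))) .n))) (.c k128 (.l (.s k127 k64 6
  (.s k63 k191 7 (.s k149 k192 14 (.d k21 k42 k213 6 7))))) (.c k149 (.f k64 k127 6 (.q k90 [(.s k74
  k122 3 (.s k79 k69 2 (.s k80 k95 2 (.d k112 k96 k101 3 6)))), (.s k80 k95 2 (.s k240 k160 11 (.s
  k165 k15 14 (.d k245 k250 k5 2 11)))), (.s k74 k122 3 (.s k95 k80 2 (.s k15 k175 11 (.d k192 k128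
  k133 7 10))))] (.c k80 (.l (.s k74 k122 3 (.s k69 k79 2 (.s k138 k207 10 (.s k10 k202 7 (.s k15 k5
  2 (.d k192 k128 k133 7 10))))))) (.c k95 (.l (.s k74 k122 3 (.s k79 k69 2 (.s k112 k101 6 (.s k80
  k96 3 (.s k240 k160 11 (.s k165 k15 14 (.d k245 k250 k5 2 11)))))))) (.c k128 (.q k191 [(.s k74
  k122 3 (.s k79 k69 2 (.s k80 k95 2 (.d k112 k96 k101 3 6)))), (.s k95 k80 2 (.s k15 k175 11 (.s k5
  k10 2 (.d k165 k245 k240 11 14))))] (.c k80 (.l (.s k74 k122 3 (.s k69 k79 2 (.s k207 k138 10 (.s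
  k223 k239 3 (.s k154 k16 10 (.d k101 k117 k48 3 14))))))) (.c k95 (.l (.s k74 k122 3 (.s k79 k69 2
  (.s k112 k101 6 (.s k80 k96 3 (.s k240 k160 11 (.s k165 k15 14 (.d k245 k250 k5 2 11)))))))) .n)))
  (.c k191 (.l (.s k128 k192 7 (.s k74 k122 3 (.s k79 k69 2 (.s k80 k95 2 (.d k112 k96 k101 3
  6)))))) .n)))))) (.c k191 (.l (.s k64 k127 6 (.s k192 k128 7 (.s k149 k63 14 (.d k213 k234 k21 6
  7))))) (.c k192 (.q k1 [(.s k3 k2 0 (.s k169 k253 13 (.s k86 k252 14 (.d k87 k84 k171 0 13)))),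
  (.s k127 k64 6 (.s k63 k191 7 (.s k21 k42 6 (.s k61 k41 5 (.s k253 k169 13 (.s k125 k189 7 (.d k60
  k190 k62 8 0))))))), (.s k3 k2 0 (.s k127 k64 6 (.s k63 k191 7 (.s k21 k42 6 (.s k23 k43 5 (.s k22
  k20 0 (.d k41 k61 k60 5 6)))))))] .n) (.c k213 (.q k1 [(.s k3 k2 0 (.s k169 k253 13 (.s k86 k252
  14 (.d k87 k84 k171 0 13)))), (.s k127 k64 6 (.s k63 k191 7 (.s k21 k42 6 (.s k61 k41 5 (.s k60
  k62 0 (.s k125 k190 8 (.d k253 k189 k169 7 13))))))), (.s k64 k127 6 (.s k169 k253 13 (.s k192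
  k128 7 (.s k149 k63 14 (.s k129 k189 5 (.s k66 k3 8 (.d k65 k193 k67 7 0))))))), (.s k3 k2 0 (.s
  k64 k127 6 (.s k192 k128 7 (.s k66 k129 8 (.s k86 k126 5 (.d k87 k84 k171 0 13))))))] .n) (.c k234
  (.l (.s k127 k64 6 (.s k63 k191 7 (.s k21 k42 6 (.d k149 k213 k192 7 14))))) .n))))))))))))

def t11_35 : T TT 256 :=
  (.f k255 k170 14 (.q k106 [(.s k64 k127 6 (.s k192 k128 7 (.s k149 k63 14 (.d k213 k234 k21 6
  7))))] (.c k21 (.q k1 [(.s k3 k2 0 (.s k169 k253 13 (.s k86 k252 14 (.d k87 k84 k171 0 13)))), (.s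
  k64 k127 6 (.s k192 k128 7 (.s k213 k234 6 (.s k253 k169 13 (.s k193 k233 5 (.s k65 k129 7 (.d
  k195 k130 k194 8 0))))))), (.s k3 k2 0 (.s k64 k127 6 (.s k192 k128 7 (.s k66 k129 8 (.s k86 k126
  5 (.d k87 k84 k171 0 13))))))] (.c k171 (.l (.s k3 k2 0 (.s k127 k64 6 (.s k63 k191 7 (.s k43 k23
  5 (.d k169 k232 k253 8 13)))))) .n)) (.c k63 (.q k1 [(.s k3 k2 0 (.s k169 k253 13 (.s k86 k252 14
  (.d k87 k84 k171 0 13)))), (.s k64 k127 6 (.s k192 k128 7 (.s k213 k234 6 (.s k253 k169 13 (.s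
  k193 k233 5 (.s k65 k129 7 (.d k195 k130 k194 8 0))))))), (.s k64 k127 6 (.s k169 k253 13 (.s k192
  k128 7 (.s k232 k43 8 (.s k252 k212 5 (.s k84 k168 13 (.d k86 k3 k87 14 0))))))), (.s k3 k2 0 (.s
  k64 k127 6 (.s k192 k128 7 (.s k66 k129 8 (.s k86 k126 5 (.d k87 k84 k171 0 13))))))] .n) (.c k64
  (.q k60 [(.s k20 k40 5 (.s k125 k190 8 (.s k150 k215 8 (.d k105 k65 k195 5 14)))), (.s k20 k40 5
  (.s k150 k215 8 (.s k62 k194 13 (.s k63 k61 0 (.s k21 k42 6 (.d k149 k213 k192 7 14)))))), (.s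
  k125 k190 8 (.s k105 k65 5 (.s k104 k107 0 (.s k192 k148 13 (.s k149 k63 14 (.d k213 k234 k21 6
  7))))))] (.c k105 (.q k87 [(.s k3 k171 13 (.s k1 k2 0 (.s k169 k253 13 (.d k86 k84 k252 0 14)))),
  (.s k86 k84 0 (.s k126 k66 5 (.s k190 k125 8 (.s k62 k254 7 (.s k150 k194 13 (.d k20 k40 k215 5
  8)))))), (.s k3 k171 13 (.s k2 k1 0 (.s k22 k41 6 (.s k42 k62 5 (.s k21 k63 6 (.d k20 k40 k23 5
  0))))))] (.c k2 (.l (.s k3 k171 13 (.s k22 k41 6 (.s k86 k84 0 (.s k150 k214 7 (.d k20 k40 k215 5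
  8)))))) (.c k40 (.q k235 [(.s k3 k171 13 (.s k1 k2 0 (.s k169 k253 13 (.d k86 k84 k252 0 14)))),
  (.s k86 k84 0 (.s k126 k66 5 (.s k190 k125 8 (.s k62 k254 7 (.s k150 k194 13 (.d k215 k195 k20 5
  8)))))), (.s k3 k171 13 (.s k22 k41 6 (.s k215 k195 5 (.s k20 k150 8 (.d k23 k21 k151 0 7)))))]
  .n) (.c k235 (.l (.s k40 k20 5 (.s k3 k171 13 (.s k1 k2 0 (.s k86 k84 0 (.d k169 k253 k252 13
  14)))))) .n)))) (.c k150 (.q k149 [(.s k21 k213 7 (.d k63 k42 k192 6 14)), (.s k63 k192 14 (.s k61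
  k62 0 (.s k105 k193 13 (.d k125 k190 k65 8 5))))] (.c k63 (.l (.s k213 k21 7 (.s k192 k234 6 (.s
  k104 k148 13 (.s k105 k107 0 (.d k125 k65 k190 5 8)))))) (.c k130 (.l (.s k190 k125 8 (.s k21 k213
  7 (.d k63 k42 k192 6 14)))) (.c k190 (.q k130 [(.s k21 k213 7 (.d k63 k42 k192 6 14)), (.s k63
  k192 14 (.s k61 k62 0 (.s k65 k195 8 (.d k105 k193 k125 13 5))))] (.c k63 (.l (.s k65 k195 8 (.s
  k105 k125 5 (.s k213 k21 7 (.s k192 k234 6 (.d k104 k107 k148 0 13)))))) (.c k192 (.l (.s k21 k213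
  7 (.s k63 k42 6 (.s k61 k62 0 (.s k65 k195 8 (.d k105 k193 k125 13 5)))))) .n))) (.c k192 (.l (.s
  k21 k213 7 (.s k63 k42 6 (.s k61 k62 0 (.s k105 k193 13 (.d k125 k65 k190 5 8)))))) .n))))) .n)))
  (.c k127 (.q k195 [(.s k65 k130 8 (.s k215 k235 5 (.s k150 k20 8 (.d k105 k125 k60 5 14)))), (.s
  k65 k130 8 (.s k105 k125 5 (.s k107 k104 0 (.s k63 k151 13 (.s k21 k42 6 (.d k149 k213 k192 7
  14)))))), (.s k215 k235 5 (.s k150 k20 8 (.s k194 k62 13 (.s k192 k193 0 (.s k149 k63 14 (.d k213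
  k234 k21 6 7))))))] (.c k105 (.q k149 [(.s k21 k213 7 (.d k63 k42 k192 6 14)), (.s k63 k192 14 (.s
  k151 k107 13 (.s k150 k148 0 (.d k215 k235 k20 5 8))))] (.c k40 (.l (.s k235 k215 5 (.s k21 k213 7
  (.d k63 k42 k192 6 14)))) (.c k63 (.l (.s k213 k21 7 (.s k192 k234 6 (.s k194 k193 0 (.s k150 k62
  13 (.d k215 k235 k20 5 8)))))) (.c k192 (.l (.s k21 k213 7 (.s k63 k42 6 (.s k151 k107 13 (.s k150
  k148 0 (.d k215 k235 k20 5 8)))))) (.c k235 (.q k40 [(.s k21 k213 7 (.d k63 k42 k192 6 14)), (.s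
  k20 k60 5 (.s k63 k192 14 (.s k150 k215 8 (.d k151 k148 k107 0 13))))] (.c k63 (.l (.s k20 k60 5
  (.s k150 k215 8 (.s k213 k21 7 (.s k192 k234 6 (.d k194 k62 k193 13 0)))))) (.c k192 (.l (.s k20
  k60 5 (.s k21 k213 7 (.s k63 k42 6 (.s k150 k215 8 (.d k151 k148 k107 0 13)))))) .n))) .n))))) (.c
  k150 (.q k149 [(.s k21 k213 7 (.d k63 k42 k192 6 14)), (.s k63 k192 14 (.s k107 k151 13 (.s k105
  k104 0 (.d k65 k130 k125 8 5))))] (.c k63 (.l (.s k213 k21 7 (.s k192 k234 6 (.s k193 k194 0 (.s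
  k105 k61 13 (.d k65 k125 k130 5 8)))))) (.c k130 (.q k190 [(.s k21 k213 7 (.d k63 k42 k192 6 14)),
  (.s k63 k192 14 (.s k107 k151 13 (.s k105 k104 0 (.d k125 k60 k65 8 5))))] (.c k63 (.l (.s k125
  k60 8 (.s k105 k65 5 (.s k213 k21 7 (.s k192 k234 6 (.d k193 k61 k194 13 0)))))) (.c k192 (.l (.s
  k21 k213 7 (.s k63 k42 6 (.s k107 k151 13 (.s k105 k104 0 (.d k125 k60 k65 8 5)))))) .n))) (.c
  k190 (.l (.s k130 k65 8 (.s k21 k213 7 (.d k63 k42 k192 6 14)))) (.c k192 (.l (.s k21 k213 7 (.s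
  k63 k42 6 (.s k107 k151 13 (.s k105 k104 0 (.d k65 k125 k130 5 8)))))) .n))))) .n))) (.c k128 (.l
  (.s k127 k64 6 (.s k63 k191 7 (.s k149 k192 14 (.d k21 k42 k213 6 7))))) (.c k149 (.f k127 k64 6
  (.q k90 [(.s k80 k95 2 (.s k240 k160 11 (.s k165 k15 14 (.d k245 k250 k5 2 11)))), (.s k122 k74 3
  (.s k117 k112 2 (.s k48 k186 10 (.s k16 k32 3 (.s k154 k223 10 (.d k101 k69 k207 3 14))))))] (.c
  k80 (.l (.s k122 k74 3 (.s k112 k117 2 (.s k79 k101 6 (.s k95 k111 3 (.s k15 k175 11 (.s k5 k10 2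
  (.d k165 k245 k240 11 14)))))))) (.c k128 (.l (.s k191 k63 7 (.s k80 k95 2 (.s k240 k160 11 (.s
  k165 k15 14 (.d k245 k250 k5 2 11)))))) (.c k191 (.q k128 [(.s k80 k95 2 (.s k240 k160 11 (.s k245
  k250 2 (.d k165 k5 k15 11 14)))), (.s k122 k74 3 (.s k117 k112 2 (.s k48 k186 10 (.s k16 k32 3 (.s
  k154 k223 10 (.d k101 k69 k207 3 14))))))] (.c k80 (.l (.s k122 k74 3 (.s k112 k117 2 (.s k79 k101
  6 (.s k95 k111 3 (.s k15 k175 11 (.s k5 k10 2 (.d k165 k245 k240 11 14)))))))) .n)) .n))))) (.c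
  k191 (.l (.s k64 k127 6 (.s k192 k128 7 (.s k149 k63 14 (.d k213 k234 k21 6 7))))) (.c k192 (.q k1
  [(.s k3 k2 0 (.s k169 k253 13 (.s k86 k252 14 (.d k87 k84 k171 0 13)))), (.s k127 k64 6 (.s k63
  k191 7 (.s k21 k42 6 (.s k61 k41 5 (.s k253 k169 13 (.s k125 k189 7 (.d k60 k190 k62 8 0))))))),
  (.s k3 k2 0 (.s k127 k64 6 (.s k63 k191 7 (.s k21 k42 6 (.s k23 k43 5 (.s k22 k20 0 (.d k41 k61
  k60 5 6)))))))] .n) (.c k213 (.q k1 [(.s k3 k2 0 (.s k169 k253 13 (.s k86 k252 14 (.d k87 k84 k171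
  0 13)))), (.s k127 k64 6 (.s k63 k191 7 (.s k21 k42 6 (.s k61 k41 5 (.s k60 k62 0 (.s k125 k190 8
  (.d k253 k189 k169 7 13))))))), (.s k64 k127 6 (.s k169 k253 13 (.s k192 k128 7 (.s k149 k63 14
  (.s k129 k189 5 (.s k66 k3 8 (.d k65 k193 k67 7 0))))))), (.s k3 k2 0 (.s k64 k127 6 (.s k192 k128
  7 (.s k66 k129 8 (.s k86 k126 5 (.d k87 k84 k171 0 13))))))] .n) (.c k234 (.l (.s k127 k64 6 (.s
  k63 k191 7 (.s k21 k42 6 (.d k149 k213 k192 7 14))))) .n))))))))))))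

def t11_38 : T TT 256 :=
  (.f k255 k170 14 (.q k106 [(.s k64 k127 6 (.s k192 k128 7 (.s k149 k63 14 (.d k213 k234 k21 6
  7))))] (.c k21 (.q k4 [(.s k166 k247 12 (.s k12 k8 1 (.s k89 k243 14 (.d k93 k81 k174 1 12)))),
  (.s k64 k127 6 (.s k166 k247 12 (.s k192 k128 7 (.s k149 k63 14 (.s k132 k183 4 (.s k68 k196 7 (.d
  k72 k76 k12 1 9))))))), (.s k12 k8 1 (.s k64 k127 6 (.s k192 k128 7 (.s k72 k132 9 (.s k89 k123 4
  (.d k93 k81 k174 1 12))))))] (.c k12 (.l (.s k127 k64 6 (.s k63 k191 7 (.s k247 k166 12 (.s k243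
  k251 1 (.s k123 k183 9 (.s k89 k72 4 (.d k81 k162 k93 12 1)))))))) .n)) (.c k63 (.q k1 [(.s k3 k2
  0 (.s k169 k253 13 (.s k86 k252 14 (.d k87 k84 k171 0 13)))), (.s k64 k127 6 (.s k192 k128 7 (.s
  k213 k234 6 (.s k253 k169 13 (.s k193 k233 5 (.s k65 k129 7 (.d k195 k130 k194 8 0))))))), (.s k64
  k127 6 (.s k169 k253 13 (.s k192 k128 7 (.s k232 k43 8 (.s k252 k212 5 (.s k84 k168 13 (.d k86 k3
  k87 14 0))))))), (.s k3 k2 0 (.s k64 k127 6 (.s k192 k128 7 (.s k66 k129 8 (.s k86 k126 5 (.d k87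
  k84 k171 0 13))))))] .n) (.c k64 (.q k60 [(.s k20 k40 5 (.s k125 k190 8 (.s k150 k215 8 (.d k105
  k65 k195 5 14)))), (.s k20 k40 5 (.s k150 k215 8 (.s k62 k194 13 (.s k63 k61 0 (.s k21 k42 6 (.d
  k149 k213 k192 7 14)))))), (.s k125 k190 8 (.s k105 k65 5 (.s k104 k107 0 (.s k192 k148 13 (.s
  k149 k63 14 (.d k213 k234 k21 6 7))))))] (.c k105 (.q k87 [(.s k3 k171 13 (.s k1 k2 0 (.s k169
  k253 13 (.d k86 k84 k252 0 14)))), (.s k86 k84 0 (.s k126 k66 5 (.s k190 k125 8 (.s k62 k254 7 (.s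
  k150 k194 13 (.d k20 k40 k215 5 8)))))), (.s k3 k171 13 (.s k2 k1 0 (.s k22 k41 6 (.s k42 k62 5
  (.s k21 k63 6 (.d k20 k40 k23 5 0))))))] (.c k2 (.l (.s k3 k171 13 (.s k22 k41 6 (.s k86 k84 0 (.s
  k150 k214 7 (.d k20 k40 k215 5 8)))))) (.c k40 (.q k235 [(.s k3 k171 13 (.s k1 k2 0 (.s k169 k253
  13 (.d k86 k84 k252 0 14)))), (.s k86 k84 0 (.s k126 k66 5 (.s k190 k125 8 (.s k62 k254 7 (.s k150
  k194 13 (.d k215 k195 k20 5 8)))))), (.s k3 k171 13 (.s k22 k41 6 (.s k215 k195 5 (.s k20 k150 8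
  (.d k23 k21 k151 0 7)))))] .n) (.c k235 (.l (.s k40 k20 5 (.s k3 k171 13 (.s k1 k2 0 (.s k86 k84 0
  (.d k169 k253 k252 13 14)))))) .n)))) (.c k150 (.q k149 [(.s k21 k213 7 (.d k63 k42 k192 6 14)),
  (.s k63 k192 14 (.s k61 k62 0 (.s k105 k193 13 (.d k125 k190 k65 8 5))))] (.c k63 (.l (.s k213 k21
  7 (.s k192 k234 6 (.s k104 k148 13 (.s k105 k107 0 (.d k125 k65 k190 5 8)))))) (.c k130 (.l (.s
  k190 k125 8 (.s k21 k213 7 (.d k63 k42 k192 6 14)))) (.c k190 (.q k130 [(.s k21 k213 7 (.d k63 k42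
  k192 6 14)), (.s k63 k192 14 (.s k61 k62 0 (.s k65 k195 8 (.d k105 k193 k125 13 5))))] (.c k63 (.l
  (.s k65 k195 8 (.s k105 k125 5 (.s k213 k21 7 (.s k192 k234 6 (.d k104 k107 k148 0 13)))))) (.c
  k192 (.l (.s k21 k213 7 (.s k63 k42 6 (.s k61 k62 0 (.s k65 k195 8 (.d k105 k193 k125 13 5))))))
  .n))) (.c k192 (.l (.s k21 k213 7 (.s k63 k42 6 (.s k61 k62 0 (.s k105 k193 13 (.d k125 k65 k190 5
  8)))))) .n))))) .n))) (.c k127 (.q k195 [(.s k65 k130 8 (.s k215 k235 5 (.s k150 k20 8 (.d k105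
  k125 k60 5 14)))), (.s k65 k130 8 (.s k105 k125 5 (.s k107 k104 0 (.s k63 k151 13 (.s k21 k42 6
  (.d k149 k213 k192 7 14)))))), (.s k215 k235 5 (.s k150 k20 8 (.s k194 k62 13 (.s k192 k193 0 (.s
  k149 k63 14 (.d k213 k234 k21 6 7))))))] (.c k105 (.q k149 [(.s k21 k213 7 (.d k63 k42 k192 6
  14)), (.s k63 k192 14 (.s k151 k107 13 (.s k150 k148 0 (.d k215 k235 k20 5 8))))] (.c k40 (.l (.s
  k235 k215 5 (.s k21 k213 7 (.d k63 k42 k192 6 14)))) (.c k63 (.l (.s k213 k21 7 (.s k192 k234 6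
  (.s k194 k193 0 (.s k150 k62 13 (.d k215 k235 k20 5 8)))))) (.c k192 (.l (.s k21 k213 7 (.s k63
  k42 6 (.s k151 k107 13 (.s k150 k148 0 (.d k215 k235 k20 5 8)))))) (.c k235 (.q k40 [(.s k21 k213
  7 (.d k63 k42 k192 6 14)), (.s k20 k60 5 (.s k63 k192 14 (.s k150 k215 8 (.d k151 k148 k107 0
  13))))] (.c k63 (.l (.s k20 k60 5 (.s k150 k215 8 (.s k213 k21 7 (.s k192 k234 6 (.d k194 k62 k193
  13 0)))))) (.c k192 (.l (.s k20 k60 5 (.s k21 k213 7 (.s k63 k42 6 (.s k150 k215 8 (.d k151 k148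
  k107 0 13)))))) .n))) .n))))) (.c k150 (.q k199 [(.s k207 k203 1 (.s k69 k138 10 (.s k101 k117 3
  (.s k154 k48 14 (.d k223 k239 k16 3 10))))), (.s k215 k235 5 (.s k247 k231 3 (.s k4 k166 12 (.s
  k12 k8 1 (.d k134 k69 k73 8 10))))), (.s k207 k203 1 (.s k215 k235 5 (.s k223 k239 3 (.s k219 k211
  1 (.d k231 k247 k243 3 5))))), (.s k207 k203 1 (.s k69 k138 10 (.s k4 k134 8 (.s k215 k235 5 (.d
  k247 k166 k231 12 3)))))] (.c k130 (.q k190 [(.s k207 k203 1 (.s k69 k138 10 (.s k101 k117 3 (.s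
  k154 k48 14 (.d k223 k239 k16 3 10))))), (.s k215 k235 5 (.s k247 k231 3 (.s k4 k166 12 (.s k12 k8
  1 (.d k134 k69 k73 8 10))))), (.s k207 k203 1 (.s k215 k235 5 (.s k223 k239 3 (.s k219 k211 1 (.d
  k231 k247 k243 3 5))))), (.s k125 k60 8 (.s k65 k105 5 (.s k207 k203 1 (.s k69 k138 10 (.s k73 k77
  1 (.d k134 k4 k12 8 10))))))] .n) (.c k190 (.l (.s k130 k65 8 (.s k207 k203 1 (.s k69 k138 10 (.s
  k4 k134 8 (.s k215 k235 5 (.d k247 k166 k231 12 3))))))) .n))) .n))) (.c k128 (.l (.s k127 k64 6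
  (.s k63 k191 7 (.s k149 k192 14 (.d k21 k42 k213 6 7))))) (.c k149 (.f k127 k64 6 (.q k90 [(.s k80
  k95 2 (.s k240 k160 11 (.s k165 k15 14 (.d k245 k250 k5 2 11)))), (.s k122 k74 3 (.s k117 k112 2
  (.s k48 k186 10 (.s k16 k32 3 (.s k154 k223 10 (.d k101 k69 k207 3 14))))))] (.c k80 (.l (.s k122
  k74 3 (.s k112 k117 2 (.s k79 k101 6 (.s k95 k111 3 (.s k15 k175 11 (.s k5 k10 2 (.d k165 k245
  k240 11 14)))))))) (.c k128 (.l (.s k191 k63 7 (.s k80 k95 2 (.s k240 k160 11 (.s k165 k15 14 (.d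
  k245 k250 k5 2 11)))))) (.c k191 (.q k128 [(.s k80 k95 2 (.s k240 k160 11 (.s k245 k250 2 (.d k165
  k5 k15 11 14)))), (.s k122 k74 3 (.s k117 k112 2 (.s k48 k186 10 (.s k16 k32 3 (.s k154 k223 10
  (.d k101 k69 k207 3 14))))))] (.c k80 (.l (.s k122 k74 3 (.s k112 k117 2 (.s k79 k101 6 (.s k95
  k111 3 (.s k15 k175 11 (.s k5 k10 2 (.d k165 k245 k240 11 14)))))))) .n)) .n))))) (.c k191 (.l (.s
  k64 k127 6 (.s k192 k128 7 (.s k149 k63 14 (.d k213 k234 k21 6 7))))) (.c k192 (.q k1 [(.s k3 k2 0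
  (.s k169 k253 13 (.s k86 k252 14 (.d k87 k84 k171 0 13)))), (.s k127 k64 6 (.s k63 k191 7 (.s k21
  k42 6 (.s k61 k41 5 (.s k253 k169 13 (.s k125 k189 7 (.d k60 k190 k62 8 0))))))), (.s k3 k2 0 (.s
  k127 k64 6 (.s k63 k191 7 (.s k21 k42 6 (.s k23 k43 5 (.s k22 k20 0 (.d k41 k61 k60 5 6)))))))]
  .n) (.c k213 (.q k1 [(.s k3 k2 0 (.s k169 k253 13 (.s k86 k252 14 (.d k87 k84 k171 0 13)))), (.s
  k127 k64 6 (.s k63 k191 7 (.s k21 k42 6 (.s k61 k41 5 (.s k60 k62 0 (.s k125 k190 8 (.d k253 k189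
  k169 7 13))))))), (.s k64 k127 6 (.s k169 k253 13 (.s k192 k128 7 (.s k149 k63 14 (.s k129 k189 5
  (.s k66 k3 8 (.d k65 k193 k67 7 0))))))), (.s k3 k2 0 (.s k64 k127 6 (.s k192 k128 7 (.s k66 k129
  8 (.s k86 k126 5 (.d k87 k84 k171 0 13))))))] .n) (.c k234 (.l (.s k127 k64 6 (.s k63 k191 7 (.s
  k21 k42 6 (.d k149 k213 k192 7 14))))) .n))))))))))))

def t11_39 : T TT 256 :=
  (.f k255 k170 14 (.q k106 [(.s k64 k127 6 (.s k192 k128 7 (.s k149 k63 14 (.d k213 k234 k21 6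
  7))))] (.c k21 (.q k1 [(.s k3 k2 0 (.s k169 k253 13 (.s k86 k252 14 (.d k87 k84 k171 0 13)))), (.s
  k64 k127 6 (.s k192 k128 7 (.s k213 k234 6 (.s k253 k169 13 (.s k193 k233 5 (.s k65 k129 7 (.d
  k195 k130 k194 8 0))))))), (.s k3 k2 0 (.s k64 k127 6 (.s k192 k128 7 (.s k66 k129 8 (.s k86 k126
  5 (.d k87 k84 k171 0 13))))))] (.c k171 (.l (.s k3 k2 0 (.s k127 k64 6 (.s k63 k191 7 (.s k43 k23
  5 (.d k169 k232 k253 8 13)))))) .n)) (.c k63 (.q k1 [(.s k3 k2 0 (.s k169 k253 13 (.s k86 k252 14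
  (.d k87 k84 k171 0 13)))), (.s k64 k127 6 (.s k192 k128 7 (.s k213 k234 6 (.s k253 k169 13 (.s
  k193 k233 5 (.s k65 k129 7 (.d k195 k130 k194 8 0))))))), (.s k64 k127 6 (.s k169 k253 13 (.s k192
  k128 7 (.s k232 k43 8 (.s k252 k212 5 (.s k84 k168 13 (.d k86 k3 k87 14 0))))))), (.s k3 k2 0 (.s
  k64 k127 6 (.s k192 k128 7 (.s k66 k129 8 (.s k86 k126 5 (.d k87 k84 k171 0 13))))))] .n) (.c k64
  (.q k60 [(.s k20 k40 5 (.s k125 k190 8 (.s k150 k215 8 (.d k105 k65 k195 5 14)))), (.s k20 k40 5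
  (.s k150 k215 8 (.s k62 k194 13 (.s k63 k61 0 (.s k21 k42 6 (.d k149 k213 k192 7 14)))))), (.s
  k125 k190 8 (.s k105 k65 5 (.s k104 k107 0 (.s k192 k148 13 (.s k149 k63 14 (.d k213 k234 k21 6
  7))))))] (.c k105 (.q k87 [(.s k3 k171 13 (.s k1 k2 0 (.s k169 k253 13 (.d k86 k84 k252 0 14)))),
  (.s k86 k84 0 (.s k126 k66 5 (.s k190 k125 8 (.s k62 k254 7 (.s k150 k194 13 (.d k20 k40 k215 5
  8)))))), (.s k3 k171 13 (.s k2 k1 0 (.s k22 k41 6 (.s k42 k62 5 (.s k21 k63 6 (.d k20 k40 k23 5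
  0))))))] (.c k2 (.l (.s k3 k171 13 (.s k22 k41 6 (.s k86 k84 0 (.s k150 k214 7 (.d k20 k40 k215 5
  8)))))) (.c k40 (.q k235 [(.s k3 k171 13 (.s k1 k2 0 (.s k169 k253 13 (.d k86 k84 k252 0 14)))),
  (.s k86 k84 0 (.s k126 k66 5 (.s k190 k125 8 (.s k62 k254 7 (.s k150 k194 13 (.d k215 k195 k20 5
  8)))))), (.s k3 k171 13 (.s k22 k41 6 (.s k215 k195 5 (.s k20 k150 8 (.d k23 k21 k151 0 7)))))]
  .n) (.c k235 (.l (.s k40 k20 5 (.s k3 k171 13 (.s k1 k2 0 (.s k86 k84 0 (.d k169 k253 k252 13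
  14)))))) .n)))) (.c k150 (.q k149 [(.s k21 k213 7 (.d k63 k42 k192 6 14)), (.s k63 k192 14 (.s k61
  k62 0 (.s k105 k193 13 (.d k125 k190 k65 8 5))))] (.c k63 (.l (.s k213 k21 7 (.s k192 k234 6 (.s
  k104 k148 13 (.s k105 k107 0 (.d k125 k65 k190 5 8)))))) (.c k130 (.l (.s k190 k125 8 (.s k21 k213
  7 (.d k63 k42 k192 6 14)))) (.c k190 (.q k130 [(.s k21 k213 7 (.d k63 k42 k192 6 14)), (.s k63
  k192 14 (.s k61 k62 0 (.s k65 k195 8 (.d k105 k193 k125 13 5))))] (.c k63 (.l (.s k65 k195 8 (.s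
  k105 k125 5 (.s k213 k21 7 (.s k192 k234 6 (.d k104 k107 k148 0 13)))))) (.c k192 (.l (.s k21 k213
  7 (.s k63 k42 6 (.s k61 k62 0 (.s k65 k195 8 (.d k105 k193 k125 13 5)))))) .n))) (.c k192 (.l (.s
  k21 k213 7 (.s k63 k42 6 (.s k61 k62 0 (.s k105 k193 13 (.d k125 k65 k190 5 8)))))) .n))))) .n)))
  (.c k127 (.q k195 [(.s k65 k130 8 (.s k215 k235 5 (.s k150 k20 8 (.d k105 k125 k60 5 14)))), (.s
  k65 k130 8 (.s k105 k125 5 (.s k107 k104 0 (.s k63 k151 13 (.s k21 k42 6 (.d k149 k213 k192 7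
  14)))))), (.s k215 k235 5 (.s k150 k20 8 (.s k194 k62 13 (.s k192 k193 0 (.s k149 k63 14 (.d k213
  k234 k21 6 7))))))] (.c k105 (.q k149 [(.s k21 k213 7 (.d k63 k42 k192 6 14)), (.s k63 k192 14 (.s
  k151 k107 13 (.s k150 k148 0 (.d k215 k235 k20 5 8))))] (.c k40 (.l (.s k235 k215 5 (.s k21 k213 7
  (.d k63 k42 k192 6 14)))) (.c k63 (.l (.s k213 k21 7 (.s k192 k234 6 (.s k194 k193 0 (.s k150 k62
  13 (.d k215 k235 k20 5 8)))))) (.c k192 (.l (.s k21 k213 7 (.s k63 k42 6 (.s k151 k107 13 (.s k150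
  k148 0 (.d k215 k235 k20 5 8)))))) (.c k235 (.q k40 [(.s k21 k213 7 (.d k63 k42 k192 6 14)), (.s
  k20 k60 5 (.s k63 k192 14 (.s k150 k215 8 (.d k151 k148 k107 0 13))))] (.c k63 (.l (.s k20 k60 5
  (.s k150 k215 8 (.s k213 k21 7 (.s k192 k234 6 (.d k194 k62 k193 13 0)))))) (.c k192 (.l (.s k20
  k60 5 (.s k21 k213 7 (.s k63 k42 6 (.s k150 k215 8 (.d k151 k148 k107 0 13)))))) .n))) .n))))) (.c
  k150 (.q k149 [(.s k21 k213 7 (.d k63 k42 k192 6 14)), (.s k63 k192 14 (.s k107 k151 13 (.s k105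
  k104 0 (.d k65 k130 k125 8 5))))] (.c k63 (.l (.s k213 k21 7 (.s k192 k234 6 (.s k193 k194 0 (.s
  k105 k61 13 (.d k65 k125 k130 5 8)))))) (.c k130 (.q k190 [(.s k21 k213 7 (.d k63 k42 k192 6 14)),
  (.s k63 k192 14 (.s k107 k151 13 (.s k105 k104 0 (.d k125 k60 k65 8 5))))] (.c k63 (.l (.s k125
  k60 8 (.s k105 k65 5 (.s k213 k21 7 (.s k192 k234 6 (.d k193 k61 k194 13 0)))))) (.c k192 (.l (.s
  k21 k213 7 (.s k63 k42 6 (.s k107 k151 13 (.s k105 k104 0 (.d k125 k60 k65 8 5)))))) .n))) (.c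
  k190 (.l (.s k130 k65 8 (.s k21 k213 7 (.d k63 k42 k192 6 14)))) (.c k192 (.l (.s k21 k213 7 (.s
  k63 k42 6 (.s k107 k151 13 (.s k105 k104 0 (.d k65 k125 k130 5 8)))))) .n))))) .n))) (.c k128 (.l
  (.s k127 k64 6 (.s k63 k191 7 (.s k149 k192 14 (.d k21 k42 k213 6 7))))) (.c k149 (.f k127 k64 6
  (.q k90 [(.s k95 k80 2 (.s k15 k175 11 (.s k165 k240 14 (.d k5 k10 k245 2 11)))), (.s k122 k74 3
  (.s k117 k112 2 (.s k48 k186 10 (.s k16 k32 3 (.s k154 k223 10 (.d k101 k69 k207 3 14)))))), (.s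
  k80 k95 2 (.s k122 k74 3 (.s k240 k160 11 (.d k63 k191 k181 7 10))))] (.c k80 (.l (.s k122 k74 3
  (.s k112 k117 2 (.s k79 k101 6 (.s k95 k111 3 (.s k15 k175 11 (.s k5 k10 2 (.d k165 k245 k240 11
  14)))))))) (.c k128 (.l (.s k191 k63 7 (.s k80 k95 2 (.s k240 k160 11 (.s k165 k15 14 (.d k245
  k250 k5 2 11)))))) (.c k191 (.q k128 [(.s k80 k95 2 (.s k240 k160 11 (.s k245 k250 2 (.d k165 k5
  k15 11 14)))), (.s k122 k74 3 (.s k117 k112 2 (.s k48 k186 10 (.s k16 k32 3 (.s k154 k223 10 (.d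
  k101 k69 k207 3 14))))))] (.c k80 (.l (.s k122 k74 3 (.s k112 k117 2 (.s k79 k101 6 (.s k95 k111 3
  (.s k15 k175 11 (.s k5 k10 2 (.d k165 k245 k240 11 14)))))))) .n)) .n))))) (.c k191 (.l (.s k64
  k127 6 (.s k192 k128 7 (.s k149 k63 14 (.d k213 k234 k21 6 7))))) (.c k192 (.q k1 [(.s k3 k2 0 (.s
  k169 k253 13 (.s k86 k252 14 (.d k87 k84 k171 0 13)))), (.s k127 k64 6 (.s k63 k191 7 (.s k21 k42
  6 (.s k61 k41 5 (.s k253 k169 13 (.s k125 k189 7 (.d k60 k190 k62 8 0))))))), (.s k3 k2 0 (.s k127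
  k64 6 (.s k63 k191 7 (.s k21 k42 6 (.s k23 k43 5 (.s k22 k20 0 (.d k41 k61 k60 5 6)))))))] .n) (.c
  k213 (.q k1 [(.s k3 k2 0 (.s k169 k253 13 (.s k86 k252 14 (.d k87 k84 k171 0 13)))), (.s k127 k64
  6 (.s k63 k191 7 (.s k21 k42 6 (.s k61 k41 5 (.s k60 k62 0 (.s k125 k190 8 (.d k253 k189 k169 7
  13))))))), (.s k64 k127 6 (.s k169 k253 13 (.s k192 k128 7 (.s k149 k63 14 (.s k129 k189 5 (.s k66
  k3 8 (.d k65 k193 k67 7 0))))))), (.s k3 k2 0 (.s k64 k127 6 (.s k192 k128 7 (.s k66 k129 8 (.s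
  k86 k126 5 (.d k87 k84 k171 0 13))))))] .n) (.c k234 (.l (.s k127 k64 6 (.s k63 k191 7 (.s k21 k42
  6 (.d k149 k213 k192 7 14))))) .n))))))))))))

def t11_41 : T TT 256 :=
  (.q k154 [(.s k16 k223 10 (.s k48 k32 3 (.s k101 k207 14 (.s k117 k69 3 (.d k255 k186 k170 10
  14)))))] (.c k16 (.f k170 k255 14 (.q k26 [(.s k90 k218 7 (.s k80 k95 2 (.s k240 k160 11 (.s k15
  k165 14 (.d k10 k5 k250 2 11))))), (.s k90 k218 7 (.s k10 k250 11 (.s k58 k42 3 (.s k138 k186 3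
  (.d k202 k74 k106 7 11))))), (.s k138 k186 3 (.s k207 k69 10 (.s k48 k101 14 (.s k15 k37 6 (.s k5
  k10 2 (.s k143 k79 7 (.d k165 k176 k245 6 11)))))))] (.c k10 (.l (.s k90 k218 7 (.s k80 k95 2 (.s
  k138 k186 3 (.s k207 k69 10 (.s k48 k101 14 (.s k15 k37 6 (.d k240 k165 k160 14 11)))))))) (.c k90
  (.l (.s k138 k186 3 (.s k207 k69 10 (.s k48 k101 14 (.s k15 k37 6 (.s k5 k10 2 (.s k165 k245 11
  (.d k143 k79 k176 7 6)))))))) .n)))) (.c k26 (.q k56 [(.s k16 k223 10 (.s k48 k32 3 (.s k101 k207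
  14 (.s k117 k69 3 (.d k255 k186 k170 10 14))))), (.s k105 k203 12 (.s k65 k125 5 (.s k170 k255 14
  (.s k40 k235 8 (.s k60 k20 5 (.d k195 k130 k150 8 14)))))), (.s k16 k223 10 (.s k48 k32 3 (.s k60
  k52 1 (.s k20 k40 5 (.s k105 k203 12 (.d k150 k215 k195 8 14))))))] .n) (.c k32 (.l (.s k223 k16
  10 (.s k255 k170 14 (.s k207 k239 3 (.s k101 k48 14 (.d k69 k117 k138 3 10)))))) (.c k48 (.q k26
  [(.s k16 k223 10 (.s k31 k21 2 (.s k90 k218 7 (.s k80 k95 2 (.d k208 k144 k149 7 10))))), (.s k90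
  k218 7 (.s k80 k95 2 (.s k170 k255 14 (.s k10 k250 11 (.s k15 k5 2 (.d k240 k160 k165 11 14)))))),
  (.s k16 k223 10 (.s k21 k31 2 (.s k42 k63 6 (.s k58 k10 3 (.s k106 k202 11 (.d k170 k234 k255 7
  14))))))] (.c k95 (.l (.s k16 k223 10 (.s k90 k218 7 (.s k170 k255 14 (.s k10 k250 11 (.s k42 k58
  3 (.d k21 k31 k63 2 6))))))) .n)) (.c k56 (.q k26 [(.s k16 k223 10 (.s k48 k32 3 (.s k101 k207 14
  (.s k117 k69 3 (.d k255 k186 k170 10 14))))), (.s k16 k223 10 (.s k31 k21 2 (.s k90 k218 7 (.s k80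
  k95 2 (.d k208 k144 k149 7 10))))), (.s k90 k218 7 (.s k80 k95 2 (.s k170 k255 14 (.s k10 k250 11
  (.s k15 k5 2 (.d k240 k160 k165 11 14))))))] .n) (.c k69 (.q k26 [(.s k16 k223 10 (.s k90 k218 7
  (.s k80 k95 2 (.s k208 k144 7 (.d k31 k21 k149 2 10))))), (.s k90 k218 7 (.s k80 k95 2 (.s k170
  k255 14 (.s k10 k250 11 (.s k15 k5 2 (.d k240 k160 k165 11 14)))))), (.s k16 k223 10 (.s k21 k31 2
  (.s k42 k63 6 (.s k10 k58 3 (.s k15 k5 2 (.d k48 k32 k37 3 6))))))] (.c k95 (.l (.s k16 k223 10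
  (.s k48 k32 3 (.s k15 k37 6 (.s k5 k10 2 (.s k90 k218 7 (.d k165 k245 k240 11 14))))))) .n)) (.c
  k101 (.q k26 [(.s k16 k223 10 (.s k90 k218 7 (.s k80 k95 2 (.s k208 k144 7 (.d k31 k21 k149 2
  10))))), (.s k90 k218 7 (.s k80 k95 2 (.s k170 k255 14 (.s k10 k250 11 (.s k15 k5 2 (.d k240 k160
  k165 11 14)))))), (.s k16 k223 10 (.s k21 k31 2 (.s k42 k63 6 (.s k10 k58 3 (.s k15 k5 2 (.d k48
  k32 k37 3 6))))))] (.c k95 (.l (.s k16 k223 10 (.s k48 k32 3 (.s k15 k37 6 (.s k5 k10 2 (.s k90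
  k218 7 (.d k165 k245 k240 11 14))))))) .n)) (.c k117 (.l (.s k16 k223 10 (.s k48 k32 3 (.s k170
  k255 14 (.s k138 k186 3 (.d k207 k69 k101 10 14)))))) (.c k170 (.f k16 k223 10 (.q k26 [(.s k90
  k218 7 (.s k80 k95 2 (.s k208 k144 7 (.d k31 k21 k149 2 10)))), (.s k48 k32 3 (.s k15 k37 6 (.s k5
  k10 2 (.s k90 k218 7 (.d k165 k245 k240 11 14))))), (.s k21 k31 2 (.s k42 k63 6 (.s k10 k58 3 (.s
  k15 k5 2 (.d k48 k32 k37 3 6)))))] .n)) (.c k186 (.l (.s k223 k16 10 (.s k255 k170 14 (.s k207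
  k239 3 (.s k69 k138 10 (.d k101 k117 k48 3 14)))))) (.c k207 (.q k26 [(.s k90 k218 7 (.s k80 k95 2
  (.s k240 k160 11 (.s k15 k165 14 (.s k10 k5 2 (.d k170 k250 k255 11 14)))))), (.s k16 k223 10 (.s
  k21 k31 2 (.s k42 k63 6 (.s k10 k58 3 (.s k15 k5 2 (.d k48 k32 k37 3 6)))))), (.s k16 k223 10 (.s
  k31 k21 2 (.s k90 k218 7 (.s k80 k95 2 (.d k208 k144 k149 7 10)))))] (.c k95 (.l (.s k16 k223 10
  (.s k48 k32 3 (.s k15 k37 6 (.s k5 k10 2 (.s k90 k218 7 (.d k165 k240 k245 14 11))))))) (.c k255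
  (.l (.s k90 k218 7 (.s k80 k95 2 (.s k240 k160 11 (.s k15 k165 14 (.s k48 k37 6 (.d k16 k32 k223 3
  10))))))) .n))) (.c k223 (.q k90 [(.s k95 k80 2 (.s k255 k170 14 (.s k15 k175 11 (.s k165 k240 14
  (.d k5 k10 k245 2 11))))), (.s k170 k255 14 (.s k186 k138 3 (.s k250 k10 11 (.s k58 k122 7 (.s
  k202 k106 11 (.d k218 k26 k234 7 3)))))), (.s k80 k95 2 (.s k240 k160 11 (.s k165 k15 14 (.s k176
  k143 6 (.s k48 k112 7 (.s k207 k101 14 (.d k218 k26 k229 7 6)))))))] (.c k26 (.q k56 [(.s k95 k80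
  2 (.s k255 k170 14 (.s k15 k175 11 (.s k165 k240 14 (.d k5 k10 k245 2 11))))), (.s k105 k203 12
  (.s k65 k125 5 (.s k170 k255 14 (.s k40 k235 8 (.s k60 k20 5 (.d k195 k130 k150 8 14)))))), (.s
  k80 k95 2 (.s k105 k203 12 (.s k65 k125 5 (.s k75 k120 4 (.s k195 k130 8 (.s k15 k135 9 (.d k240
  k160 k165 11 14)))))))] .n) (.c k56 (.l (.s k26 k218 7 (.s k80 k95 2 (.s k170 k255 14 (.s k10 k250
  11 (.s k15 k5 2 (.d k240 k160 k165 11 14))))))) (.c k255 (.l (.s k26 k218 7 (.s k80 k95 2 (.s k240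
  k160 11 (.s k15 k165 14 (.s k48 k37 6 (.s k112 k176 7 (.d k101 k79 k207 6 14)))))))) .n)))) (.c
  k239 (.l (.s k16 k223 10 (.s k48 k32 3 (.s k101 k207 14 (.s k255 k170 14 (.d k117 k69 k186 3
  10)))))) (.c k255 (.q k26 [(.s k16 k223 10 (.s k31 k21 2 (.s k90 k218 7 (.s k208 k149 10 (.d k80
  k95 k144 2 7))))), (.s k90 k218 7 (.s k80 k95 2 (.s k240 k160 11 (.s k15 k165 14 (.s k48 k37 6 (.d
  k16 k32 k223 3 10)))))), (.s k16 k223 10 (.s k21 k31 2 (.s k42 k63 6 (.s k10 k58 3 (.s k15 k5 2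
  (.d k48 k32 k37 3 6)))))), (.s k90 k218 7 (.s k80 k95 2 (.s k240 k160 11 (.s k15 k165 14 (.s k48
  k37 6 (.s k112 k176 7 (.d k101 k79 k207 6 14)))))))] (.c k95 (.l (.s k16 k223 10 (.s k48 k32 3 (.s
  k15 k37 6 (.s k5 k10 2 (.s k90 k218 7 (.d k165 k245 k240 11 14))))))) .n)) .n)))))))))))))))

def t11_42 : T TT 256 :=
  (.f k170 k255 14 (.q k252 [(.s k84 k168 13 (.s k86 k87 0 (.s k2 k254 13 (.d k3 k1 k169 0 14))))]
  (.c k1 (.q k4 [(.s k166 k247 12 (.s k162 k174 1 (.s k243 k81 12 (.d k12 k8 k89 1 14)))), (.s k12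
  k8 1 (.s k84 k168 13 (.s k92 k172 11 (.s k88 k80 1 (.d k164 k244 k240 11 13))))), (.s k84 k168 13
  (.s k86 k87 0 (.s k166 k247 12 (.s k6 k246 11 (.s k7 k5 0 (.d k244 k164 k165 11 12))))))] .n) (.c
  k2 (.f k168 k84 13 (.f k171 k169 0 (.q k248 [(.s k240 k244 1 (.s k160 k80 11 (.s k164 k172 1 (.d
  k88 k8 k12 11 13)))), (.s k240 k244 1 (.s k80 k160 11 (.s k90 k95 2 (.s k10 k250 11 (.d k15 k5
  k165 2 14))))), (.s k8 k88 11 (.s k89 k251 12 (.s k81 k93 1 (.s k243 k162 12 (.d k12 k4 k166 1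
  14)))))] (.c k4 (.l (.s k88 k8 11 (.s k240 k244 1 (.s k164 k12 13 (.d k160 k172 k80 1 11))))) (.c
  k22 (.q k62 [(.s k240 k244 1 (.s k160 k80 11 (.s k164 k172 1 (.d k88 k8 k12 11 13)))), (.s k240
  k244 1 (.s k80 k160 11 (.s k90 k95 2 (.s k10 k250 11 (.d k15 k5 k165 2 14))))), (.s k8 k88 11 (.s
  k89 k251 12 (.s k81 k93 1 (.s k243 k162 12 (.d k12 k4 k166 1 14)))))] (.c k4 (.l (.s k88 k8 11 (.s
  k240 k244 1 (.s k164 k12 13 (.d k160 k172 k80 1 11))))) (.c k80 (.l (.s k88 k8 11 (.s k240 k244 1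
  (.s k164 k12 13 (.s k160 k172 1 (.s k165 k175 2 (.s k5 k245 11 (.d k15 k10 k90 2 14)))))))) .n)))
  (.c k62 (.q k22 [(.s k240 k244 1 (.s k160 k80 11 (.s k164 k172 1 (.d k88 k8 k12 11 13)))), (.s
  k240 k244 1 (.s k80 k160 11 (.s k90 k95 2 (.s k10 k250 11 (.d k15 k5 k165 2 14))))), (.s k8 k88 11
  (.s k89 k251 12 (.s k81 k93 1 (.s k243 k162 12 (.d k12 k4 k166 1 14)))))] (.c k4 (.l (.s k88 k8 11
  (.s k240 k244 1 (.s k164 k12 13 (.d k160 k172 k80 1 11))))) (.c k80 (.l (.s k88 k8 11 (.s k240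
  k244 1 (.s k164 k12 13 (.s k160 k172 1 (.s k165 k175 2 (.s k5 k245 11 (.d k15 k10 k90 2 14))))))))
  .n))) (.c k80 (.l (.s k88 k8 11 (.s k240 k244 1 (.s k164 k12 13 (.s k160 k172 1 (.s k165 k175 2
  (.s k5 k245 11 (.d k15 k10 k90 2 14)))))))) .n))))))) (.c k3 (.f k84 k168 13 (.f k87 k86 0 (.q k4
  [(.s k166 k247 12 (.s k162 k174 1 (.s k243 k81 12 (.d k12 k8 k89 1 14)))), (.s k244 k164 11 (.s
  k240 k248 1 (.s k160 k80 11 (.s k165 k175 2 (.s k5 k245 11 (.d k15 k90 k10 14 2))))))] (.c k7 (.q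
  k15 [(.s k10 k5 2 (.s k90 k250 11 (.s k240 k165 14 (.d k244 k248 k164 1 11)))), (.s k166 k247 12
  (.s k162 k174 1 (.s k243 k81 12 (.d k12 k8 k89 1 14))))] (.c k165 (.l (.s k244 k164 11 (.s k10 k5
  2 (.s k90 k250 11 (.s k80 k95 2 (.d k240 k160 k248 11 1)))))) (.c k244 (.q k165 [(.d k5 k10 k245 2
  11), (.s k160 k175 2 (.d k240 k80 k90 11 14))] .n) .n))) (.c k8 (.l (.s k164 k244 11 (.s k166 k247
  12 (.s k162 k174 1 (.s k243 k81 12 (.s k12 k89 14 (.s k88 k240 13 (.d k92 k80 k172 1 11))))))))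
  (.c k15 (.q k7 [(.d k247 k167 k166 11 12), (.s k12 k8 1 (.s k92 k172 11 (.s k88 k80 1 (.d k164
  k244 k240 11 13))))] (.c k95 (.q k175 [(.d k247 k167 k166 11 12), (.s k165 k160 2 (.d k5 k6 k245 0
  11))] .n) (.c k175 (.q k95 [(.d k247 k167 k166 11 12), (.s k12 k8 1 (.s k80 k90 2 (.d k92 k88 k172
  1 11)))] .n) .n))) .n)))))) (.c k84 (.q k150 [(.s k20 k215 8 (.s k130 k190 5 (.s k195 k65 8 (.d
  k60 k40 k105 5 14)))), (.s k130 k190 5 (.s k195 k65 8 (.s k214 k233 6 (.s k86 k22 7 (.s k2 k254 13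
  (.d k3 k1 k169 0 14)))))), (.s k20 k215 8 (.s k60 k40 5 (.s k188 k124 7 (.s k169 k131 6 (.s k1
  k253 13 (.d k3 k2 k86 0 14))))))] (.c k60 (.q k192 [(.s k128 k64 7 (.s k212 k232 5 (.s k215 k20 8
  (.s k213 k214 0 (.d k149 k191 k21 6 7))))), (.s k64 k128 7 (.s k106 k127 6 (.s k194 k62 13 (.s
  k195 k193 0 (.d k130 k190 k65 5 8))))), (.s k212 k232 5 (.s k215 k20 8 (.s k214 k213 0 (.s k195
  k233 6 (.d k130 k190 k65 5 8)))))] (.c k125 (.l (.s k190 k130 5 (.s k64 k128 7 (.s k106 k127 6 (.s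
  k62 k194 13 (.s k63 k149 14 (.d k126 k254 k189 7 8))))))) (.c k190 (.q k125 [(.s k64 k128 7 (.s
  k65 k105 5 (.s k106 k127 6 (.s k195 k130 8 (.d k194 k193 k62 0 13))))), (.s k65 k105 5 (.s k195
  k130 8 (.s k212 k232 5 (.s k214 k233 6 (.d k215 k213 k20 0 8))))), (.s k128 k64 7 (.s k149 k191 6
  (.s k212 k232 5 (.s k213 k21 7 (.d k215 k214 k20 0 8)))))] .n) .n))) (.c k195 (.q k162 [(.s k243
  k81 12 (.s k166 k174 1 (.s k12 k89 14 (.d k4 k8 k247 1 12)))), (.s k81 k243 12 (.s k130 k190 5 (.s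
  k146 k178 3 (.s k154 k158 1 (.d k16 k211 k223 8 10))))), (.s k130 k190 5 (.s k166 k174 1 (.s k134
  k182 3 (.s k142 k138 1 (.d k178 k146 k154 3 5)))))] (.c k174 (.l (.s k81 k243 12 (.s k130 k190 5
  (.s k146 k178 3 (.s k211 k16 8 (.d k89 k93 k28 1 10)))))) (.c k215 (.q k235 [(.s k243 k81 12 (.s
  k166 k174 1 (.s k12 k89 14 (.d k4 k8 k247 1 12)))), (.s k105 k40 8 (.s k166 k174 1 (.s k227 k44 10
  (.s k32 k97 8 (.d k239 k231 k101 1 10))))), (.s k81 k243 12 (.s k130 k190 5 (.s k146 k178 3 (.s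
  k211 k16 8 (.d k89 k93 k28 1 10)))))] (.c k93 (.l (.s k243 k81 12 (.s k166 k174 1 (.s k12 k89 14
  (.d k4 k8 k247 1 12))))) .n)) (.c k235 (.l (.s k215 k20 8 (.s k166 k174 1 (.s k4 k247 12 (.s k12
  k8 1 (.d k243 k81 k89 12 14)))))) .n)))) .n))) (.c k86 (.q k4 [(.s k166 k247 12 (.s k162 k174 1
  (.s k243 k81 12 (.d k12 k8 k89 1 14)))), (.s k84 k168 13 (.s k244 k164 11 (.s k240 k248 1 (.s k160
  k80 11 (.s k165 k175 2 (.s k5 k245 11 (.d k15 k90 k10 14 2)))))))] (.c k8 (.l (.s k166 k247 12 (.s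
  k162 k174 1 (.s k168 k84 13 (.s k169 k171 0 (.s k172 k163 2 (.s k12 k92 11 (.d k243 k89 k81 14
  12)))))))) .n)) (.c k87 (.l (.s k168 k84 13 (.s k169 k171 0 (.s k3 k86 14 (.d k1 k2 k253 0 13)))))
  (.c k168 (.q k154 [(.s k16 k223 10 (.s k138 k186 3 (.s k207 k69 10 (.d k48 k32 k101 3 14)))), (.s
  k138 k186 3 (.s k207 k69 10 (.s k222 k237 4 (.s k86 k18 9 (.s k2 k254 13 (.d k3 k1 k169 0
  14)))))), (.s k16 k223 10 (.s k48 k32 3 (.s k184 k116 9 (.s k169 k139 4 (.s k1 k253 13 (.d k3 k2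
  k86 0 14))))))] (.c k48 (.q k153 [(.s k17 k221 9 (.s k136 k187 4 (.s k204 k68 9 (.d k51 k34 k102 4
  14)))), (.s k16 k223 10 (.s k152 k155 0 (.s k220 k84 9 (.s k19 k86 10 (.d k17 k18 k221 0 9))))),
  (.s k16 k223 10 (.s k136 k187 4 (.s k152 k155 0 (.s k204 k68 9 (.d k220 k236 k84 3 9)))))] (.c
  k117 (.l (.s k186 k138 3 (.s k17 k221 9 (.s k51 k34 4 (.s k136 k187 4 (.d k204 k68 k102 9 14))))))
  (.c k186 (.q k117 [(.s k17 k221 9 (.s k51 k34 4 (.s k204 k102 14 (.d k136 k187 k68 4 9)))), (.s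
  k16 k223 10 (.s k152 k155 0 (.s k220 k84 9 (.s k19 k86 10 (.d k17 k18 k221 0 9))))), (.s k16 k223
  10 (.s k136 k187 4 (.s k152 k155 0 (.s k204 k68 9 (.d k220 k236 k84 3 9)))))] .n) .n))) (.c k207
  (.q k153 [(.s k17 k221 9 (.s k136 k187 4 (.s k204 k68 9 (.d k51 k34 k102 4 14)))), (.s k155 k152 0
  (.s k186 k138 3 (.s k187 k136 4 (.s k184 k185 0 (.d k139 k171 k169 3 4))))), (.s k221 k17 9 (.s
  k223 k16 10 (.s k220 k222 0 (.s k19 k86 10 (.d k155 k152 k87 0 9)))))] (.c k223 (.q k239 [(.s k136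
  k187 4 (.s k204 k68 9 (.s k51 k102 14 (.d k17 k34 k221 4 9)))), (.s k32 k101 10 (.s k48 k16 3 (.s
  k184 k116 9 (.s k186 k138 3 (.d k187 k185 k136 0 4))))), (.s k17 k221 9 (.s k32 k101 10 (.s k16
  k48 3 (.s k19 k18 0 (.s k152 k155 0 (.d k220 k84 k86 9 10))))))] .n) (.c k239 (.l (.s k223 k16 10
  (.s k17 k221 9 (.s k51 k34 4 (.s k136 k187 4 (.d k204 k68 k102 9 14)))))) .n))) .n))) (.c k169 (.q
  k90 [(.s k10 k250 11 (.s k15 k5 2 (.s k80 k95 2 (.d k240 k160 k165 11 14)))), (.s k80 k95 2 (.s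
  k84 k168 13 (.s k86 k87 0 (.s k82 k94 1 (.s k83 k81 0 (.d k92 k88 k89 1 2)))))), (.s k10 k250 11
  (.s k84 k168 13 (.s k86 k87 0 (.s k2 k254 13 (.s k14 k6 1 (.s k82 k94 1 (.d k242 k162 k166 11
  13)))))))] .n) (.c k171 (.l (.s k84 k168 13 (.s k86 k87 0 (.s k3 k169 14 (.d k2 k1 k254 0 13)))))
  (.c k254 (.l (.s k168 k84 13 (.s k169 k171 0 (.s k1 k253 13 (.d k3 k2 k86 0 14))))) .n))))))))))))

/-- roots with certificates -/
def certs : List (Cell TT 256 × Cell TT 256 × T TT 256) :=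
  [(k10, k59, t10_59), (k10, k63, t10_63), (k10, k90, t10_90), (k10, k91, t10_91), (k10, k95,
  t10_95), (k10, k98, t10_98), (k10, k99, t10_99), (k10, k102, t10_102), (k10, k103, t10_103), (k10,
  k106, t10_106), (k10, k107, t10_107), (k10, k111, t10_111), (k10, k114, t10_114), (k10, k115,
  t10_115), (k10, k118, t10_118), (k10, k119, t10_119), (k10, k122, t10_122), (k10, k123, t10_123),
  (k10, k127, t10_127), (k10, k160, t10_160), (k10, k161, t10_161), (k10, k162, t10_162), (k10,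
  k163, t10_163), (k10, k165, t10_165), (k10, k166, t10_166), (k10, k167, t10_167), (k10, k171,
  t10_171), (k10, k175, t10_175), (k10, k176, t10_176), (k10, k177, t10_177), (k10, k178, t10_178),
  (k10, k179, t10_179), (k10, k181, t10_181), (k10, k182, t10_182), (k10, k183, t10_183), (k10,
  k186, t10_186), (k10, k187, t10_187), (k10, k191, t10_191), (k10, k240, t10_240), (k10, k241,
  t10_241), (k10, k242, t10_242), (k10, k243, t10_243), (k10, k245, t10_245), (k10, k246, t10_246),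
  (k10, k247, t10_247), (k10, k250, t10_250), (k10, k251, t10_251), (k11, k14, t11_14), (k11, k15,
  t11_15), (k11, k26, t11_26), (k11, k27, t11_27), (k11, k30, t11_30), (k11, k31, t11_31), (k11,
  k35, t11_35), (k11, k38, t11_38), (k11, k39, t11_39), (k11, k41, t11_41), (k11, k42, t11_42)]

theorem c10_59 : rootOK k10 k59 t10_59 = true := by decide +kernel

theorem c10_63 : rootOK k10 k63 t10_63 = true := by decide +kernel

theorem c10_90 : rootOK k10 k90 t10_90 = true := by decide +kernel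

theorem c10_91 : rootOK k10 k91 t10_91 = true := by decide +kernel

theorem c10_95 : rootOK k10 k95 t10_95 = true := by decide +kernel

theorem c10_98 : rootOK k10 k98 t10_98 = true := by decide +kernel

theorem c10_99 : rootOK k10 k99 t10_99 = true := by decide +kernel

theorem c10_102 : rootOK k10 k102 t10_102 = true := by decide +kernel

theorem c10_103 : rootOK k10 k103 t10_103 = true := by decide +kernel

theorem c10_106 : rootOK k10 k106 t10_106 = true := by decide +kernel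

theorem c10_107 : rootOK k10 k107 t10_107 = true := by decide +kernel

theorem c10_111 : rootOK k10 k111 t10_111 = true := by decide +kernel

theorem c10_114 : rootOK k10 k114 t10_114 = true := by decide +kernel

theorem c10_115 : rootOK k10 k115 t10_115 = true := by decide +kernel

theorem c10_118 : rootOK k10 k118 t10_118 = true := by decide +kernel

theorem c10_119 : rootOK k10 k119 t10_119 = true := by decide +kernel

theorem c10_122 : rootOK k10 k122 t10_122 = true := by decide +kernel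

theorem c10_123 : rootOK k10 k123 t10_123 = true := by decide +kernel

theorem c10_127 : rootOK k10 k127 t10_127 = true := by decide +kernel

theorem c10_160 : rootOK k10 k160 t10_160 = true := by decide +kernel

theorem c10_161 : rootOK k10 k161 t10_161 = true := by decide +kernel

theorem c10_162 : rootOK k10 k162 t10_162 = true := by decide +kernel

theorem c10_163 : rootOK k10 k163 t10_163 = true := by decide +kernel

theorem c10_165 : rootOK k10 k165 t10_165 = true := by decide +kernel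

theorem c10_166 : rootOK k10 k166 t10_166 = true := by decide +kernel

theorem c10_167 : rootOK k10 k167 t10_167 = true := by decide +kernel

theorem c10_171 : rootOK k10 k171 t10_171 = true := by decide +kernel

theorem c10_175 : rootOK k10 k175 t10_175 = true := by decide +kernel

theorem c10_176 : rootOK k10 k176 t10_176 = true := by decide +kernel

theorem c10_177 : rootOK k10 k177 t10_177 = true := by decide +kernel

theorem c10_178 : rootOK k10 k178 t10_178 = true := by decide +kernel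

theorem c10_179 : rootOK k10 k179 t10_179 = true := by decide +kernel

theorem c10_181 : rootOK k10 k181 t10_181 = true := by decide +kernel

theorem c10_182 : rootOK k10 k182 t10_182 = true := by decide +kernel

theorem c10_183 : rootOK k10 k183 t10_183 = true := by decide +kernel

theorem c10_186 : rootOK k10 k186 t10_186 = true := by decide +kernel

theorem c10_187 : rootOK k10 k187 t10_187 = true := by decide +kernel

theorem c10_191 : rootOK k10 k191 t10_191 = true := by decide +kernel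

theorem c10_240 : rootOK k10 k240 t10_240 = true := by decide +kernel

theorem c10_241 : rootOK k10 k241 t10_241 = true := by decide +kernel

theorem c10_242 : rootOK k10 k242 t10_242 = true := by decide +kernel

theorem c10_243 : rootOK k10 k243 t10_243 = true := by decide +kernel

theorem c10_245 : rootOK k10 k245 t10_245 = true := by decide +kernel

theorem c10_246 : rootOK k10 k246 t10_246 = true := by decide +kernel

theorem c10_247 : rootOK k10 k247 t10_247 = true := by decide +kernel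

theorem c10_250 : rootOK k10 k250 t10_250 = true := by decide +kernel

theorem c10_251 : rootOK k10 k251 t10_251 = true := by decide +kernel

theorem c11_14 : rootOK k11 k14 t11_14 = true := by decide +kernel

theorem c11_15 : rootOK k11 k15 t11_15 = true := by decide +kernel

theorem c11_26 : rootOK k11 k26 t11_26 = true := by decide +kernel

theorem c11_27 : rootOK k11 k27 t11_27 = true := by decide +kernel

theorem c11_30 : rootOK k11 k30 t11_30 = true := by decide +kernel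

theorem c11_31 : rootOK k11 k31 t11_31 = true := by decide +kernel

theorem c11_35 : rootOK k11 k35 t11_35 = true := by decide +kernel

theorem c11_38 : rootOK k11 k38 t11_38 = true := by decide +kernel

theorem c11_39 : rootOK k11 k39 t11_39 = true := by decide +kernel

theorem c11_41 : rootOK k11 k41 t11_41 = true := by decide +kernel

theorem c11_42 : rootOK k11 k42 t11_42 = true := by decide +kernel

theorem ok : certsOK certs = true :=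
  certsOK_cons c10_59 (certsOK_cons c10_63 (certsOK_cons c10_90 (certsOK_cons c10_91 (
  certsOK_cons c10_95 (certsOK_cons c10_98 (certsOK_cons c10_99 (certsOK_cons c10_102 (
  certsOK_cons c10_103 (certsOK_cons c10_106 (certsOK_cons c10_107 (certsOK_cons c10_111 (
  certsOK_cons c10_114 (certsOK_cons c10_115 (certsOK_cons c10_118 (certsOK_cons c10_119 (
  certsOK_cons c10_122 (certsOK_cons c10_123 (certsOK_cons c10_127 (certsOK_cons c10_160 (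
  certsOK_cons c10_161 (certsOK_cons c10_162 (certsOK_cons c10_163 (certsOK_cons c10_165 (
  certsOK_cons c10_166 (certsOK_cons c10_167 (certsOK_cons c10_171 (certsOK_cons c10_175 (
  certsOK_cons c10_176 (certsOK_cons c10_177 (certsOK_cons c10_178 (certsOK_cons c10_179 (
  certsOK_cons c10_181 (certsOK_cons c10_182 (certsOK_cons c10_183 (certsOK_cons c10_186 (
  certsOK_cons c10_187 (certsOK_cons c10_191 (certsOK_cons c10_240 (certsOK_cons c10_241 (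
  certsOK_cons c10_242 (certsOK_cons c10_243 (certsOK_cons c10_245 (certsOK_cons c10_246 (
  certsOK_cons c10_247 (certsOK_cons c10_250 (certsOK_cons c10_251 (certsOK_cons c11_14 (
  certsOK_cons c11_15 (certsOK_cons c11_26 (certsOK_cons c11_27 (certsOK_cons c11_30 (
  certsOK_cons c11_31 (certsOK_cons c11_35 (certsOK_cons c11_38 (certsOK_cons c11_39 (
  certsOK_cons c11_41 (certsOK_cons c11_42 (certsOK_nil))))))))))))))))))))))))))))))))))))))))))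
  ))))))))))))))))

theorem sound (k : Nat) (hk : (bits certs).testBit k = true) : PI k :=
  certs_sound certs ok k hk

end Pool.Agent.TTT.A11
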