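import Pool.Agent.TTT.Sym

set_option autoImplicit false
set_option maxRecDepth 100000

namespace Pool.Agent.TTT.A12

def t11_43 : T TT 256 :=
  (.q k153 [(.s k17 k221 9 (.s k51 k34 4 (.s k102 k204 14 (.s k119 k68 4 (.d k255 k187 k170 9
  14)))))] (.c k17 (.q k106 [(.s k127 k64 6 (.s k255 k170 14 (.s k63 k191 7 (.s k149 k192 14 (.d k21
  k42 k213 6 7))))), (.s k59 k200 12 (.s k170 k255 14 (.s k187 k136 4 (.s k251 k123 7 (.s k8 k89 12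
  (.d k42 k25 k234 4 7)))))), (.s k64 k127 6 (.s k192 k128 7 (.s k149 k63 14 (.s k145 k157 1 (.s k51
  k98 12 (.s k204 k102 14 (.d k200 k59 k196 12 1)))))))] (.c k27 (.l (.s k59 k200 12 (.s k64 k127 6
  (.s k170 k255 14 (.s k42 k234 7 (.s k63 k21 6 (.d k192 k128 k149 7 14))))))) (.c k59 (.q k27 [(.s
  k127 k64 6 (.s k255 k170 14 (.s k63 k191 7 (.s k149 k192 14 (.d k21 k42 k213 6 7))))), (.s k64
  k127 6 (.s k90 k216 8 (.s k74 k122 3 (.s k79 k69 2 (.s k80 k95 2 (.d k112 k96 k101 3 6)))))), (.s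
  k90 k216 8 (.s k80 k95 2 (.s k170 k255 14 (.s k10 k250 11 (.s k15 k5 2 (.d k240 k160 k165 11
  14))))))] .n) (.c k255 (.l (.s k59 k200 12 (.s k64 k127 6 (.s k192 k128 7 (.s k63 k149 14 (.s k51
  k55 1 (.s k98 k145 12 (.d k102 k110 k204 1 14)))))))) .n)))) (.c k27 (.q k59 [(.s k17 k221 9 (.s
  k51 k34 4 (.s k102 k204 14 (.s k119 k68 4 (.d k255 k187 k170 9 14))))), (.s k106 k200 12 (.s k64
  k127 6 (.s k170 k255 14 (.s k42 k234 7 (.s k63 k21 6 (.d k192 k128 k149 7 14)))))), (.s k17 k221 9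
  (.s k51 k34 4 (.s k63 k55 1 (.s k21 k42 6 (.s k106 k200 12 (.d k149 k213 k192 7 14))))))] .n) (.c
  k34 (.l (.s k221 k17 9 (.s k255 k170 14 (.s k204 k238 4 (.s k102 k51 14 (.d k68 k119 k136 4
  9)))))) (.c k51 (.f k170 k255 14 (.f k221 k17 9 (.f k187 k136 4 (.q k59 [(.s k106 k200 12 (.s k251
  k123 7 (.s k8 k89 12 (.d k42 k25 k234 4 7)))), (.s k251 k123 7 (.s k89 k8 12 (.s k93 k81 1 (.s k29
  k157 7 (.s k209 k149 9 (.d k217 k213 k25 1 7)))))), (.s k106 k200 12 (.s k64 k127 6 (.s k192 k128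
  7 (.s k63 k149 14 (.d k42 k21 k234 6 7)))))] (.c k8 (.l (.s k123 k251 7 (.s k106 k200 12 (.s k72
  k89 4 (.s k64 k127 6 (.s k192 k128 7 (.s k63 k149 14 (.d k42 k234 k21 7 6)))))))) (.c k72 (.l (.s
  k200 k106 12 (.s k251 k123 7 (.s k89 k8 12 (.d k217 k234 k25 4 7))))) (.c k200 (.l (.s k251 k123 7
  (.s k8 k89 12 (.s k42 k25 4 (.s k106 k234 7 (.s k64 k127 6 (.s k192 k128 7 (.d k63 k21 k149 6
  14)))))))) .n))))))) (.c k59 (.q k27 [(.s k17 k221 9 (.s k51 k34 4 (.s k102 k204 14 (.s k119 k68 4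
  (.d k255 k187 k170 9 14))))), (.s k90 k216 8 (.s k80 k95 2 (.s k170 k255 14 (.s k10 k250 11 (.s
  k15 k5 2 (.d k240 k160 k165 11 14)))))), (.s k17 k221 9 (.s k51 k34 4 (.s k15 k39 5 (.s k5 k10 2
  (.s k90 k216 8 (.d k165 k245 k240 11 14))))))] .n) (.c k68 (.q k27 [(.s k17 k221 9 (.s k51 k34 4
  (.s k90 k216 8 (.s k80 k95 2 (.s k240 k160 11 (.d k15 k39 k165 5 14)))))), (.s k17 k221 9 (.s k51
  k34 4 (.s k15 k39 5 (.s k5 k10 2 (.s k165 k245 11 (.s k141 k177 5 (.d k204 k78 k102 8 14))))))),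
  (.s k90 k216 8 (.s k80 k95 2 (.s k170 k255 14 (.s k10 k250 11 (.s k15 k5 2 (.d k240 k160 k165 11
  14)))))), (.s k17 k221 9 (.s k51 k34 4 (.s k90 k216 8 (.s k80 k95 2 (.s k102 k204 14 (.s k240 k160
  11 (.d k114 k78 k177 5 8)))))))] .n) (.c k102 (.f k170 k255 14 (.q k59 [(.s k106 k200 12 (.s k42
  k234 7 (.s k8 k25 4 (.s k187 k136 4 (.d k251 k123 k89 7 12))))), (.s k17 k221 9 (.s k51 k34 4 (.s
  k63 k55 1 (.s k42 k21 6 (.d k106 k234 k200 7 12))))), (.s k17 k221 9 (.s k51 k34 4 (.s k63 k55 1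
  (.s k42 k21 6 (.s k8 k25 4 (.s k187 k136 4 (.d k251 k123 k89 7 12)))))))] (.c k42 (.l (.s k187
  k136 4 (.s k200 k106 12 (.s k251 k123 7 (.s k89 k8 12 (.d k217 k234 k25 4 7)))))) .n))) (.c k119
  (.l (.s k17 k221 9 (.s k51 k34 4 (.s k170 k255 14 (.s k136 k187 4 (.d k204 k68 k102 9 14)))))) (.c
  k170 (.f k17 k221 9 (.q k106 [(.s k51 k34 4 (.s k59 k200 12 (.s k63 k55 1 (.s k64 k127 6 (.d k192
  k128 k149 7 14))))), (.s k64 k127 6 (.s k192 k128 7 (.s k149 k63 14 (.s k21 k213 7 (.s k29 k25 1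
  (.s k145 k157 1 (.d k209 k81 k89 7 9))))))), (.s k51 k34 4 (.s k59 k200 12 (.s k63 k55 1 (.s k21
  k42 6 (.s k149 k213 7 (.s k157 k145 1 (.d k204 k102 k110 14 12)))))))] (.c k27 (.l (.s k59 k200 12
  (.s k51 k34 4 (.s k63 k55 1 (.s k21 k42 6 (.d k149 k213 k192 7 14)))))) (.c k59 (.q k27 [(.s k51
  k34 4 (.s k15 k39 5 (.s k90 k216 8 (.s k80 k95 2 (.d k240 k160 k165 11 14))))), (.s k64 k127 6 (.s
  k192 k128 7 (.s k149 k63 14 (.s k145 k157 1 (.d k51 k34 k98 4 12))))), (.s k64 k127 6 (.s k90 k216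
  8 (.s k74 k122 3 (.s k79 k69 2 (.s k80 k95 2 (.d k112 k96 k101 3 6))))))] .n) (.c k63 (.l (.s k51
  k34 4 (.s k64 k127 6 (.s k102 k204 14 (.s k192 k128 7 (.d k98 k110 k145 1 12)))))) (.c k149 (.l
  (.s k51 k34 4 (.s k64 k127 6 (.s k102 k204 14 (.s k98 k110 1 (.d k192 k128 k145 7 12))))))
  .n)))))) (.c k187 (.l (.s k221 k17 9 (.s k255 k170 14 (.s k204 k238 4 (.s k68 k136 9 (.d k102 k119
  k51 4 14)))))) (.c k204 (.q k106 [(.s k64 k127 6 (.s k192 k128 7 (.s k63 k149 14 (.s k42 k21 6 (.d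
  k170 k234 k255 7 14))))), (.s k59 k200 12 (.s k170 k255 14 (.s k42 k234 7 (.s k8 k25 4 (.s k187
  k136 4 (.d k251 k123 k89 7 12)))))), (.s k17 k221 9 (.s k51 k34 4 (.s k59 k200 12 (.s k63 k55 1
  (.s k64 k127 6 (.d k192 k128 k149 7 14))))))] (.c k27 (.l (.s k59 k200 12 (.s k17 k221 9 (.s k51
  k34 4 (.s k63 k55 1 (.s k21 k42 6 (.d k149 k192 k213 14 7))))))) (.c k59 (.q k27 [(.s k64 k127 6
  (.s k192 k128 7 (.s k63 k149 14 (.s k42 k21 6 (.d k170 k234 k255 7 14))))), (.s k17 k221 9 (.s k51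
  k34 4 (.s k15 k39 5 (.s k5 k10 2 (.s k90 k216 8 (.d k165 k240 k245 14 11))))))] (.c k255 (.l (.s
  k64 k127 6 (.s k90 k216 8 (.s k74 k122 3 (.s k79 k69 2 (.s k80 k95 2 (.d k112 k96 k101 3 6)))))))
  .n)) (.c k192 (.l (.s k17 k221 9 (.s k51 k34 4 (.s k127 k64 6 (.s k255 k170 14 (.s k63 k191 7 (.d
  k59 k55 k200 1 12))))))) (.c k255 (.l (.s k59 k200 12 (.s k64 k127 6 (.s k192 k128 7 (.s k63 k149
  14 (.s k51 k55 1 (.d k17 k34 k221 4 9))))))) .n))))) (.c k221 (.q k106 [(.s k127 k64 6 (.s k255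
  k170 14 (.s k63 k191 7 (.s k149 k192 14 (.d k21 k42 k213 6 7))))), (.s k59 k200 12 (.s k170 k255
  14 (.s k187 k136 4 (.s k251 k123 7 (.s k8 k89 12 (.d k42 k25 k234 4 7)))))), (.s k64 k127 6 (.s
  k192 k128 7 (.s k149 k63 14 (.s k145 k157 1 (.s k51 k98 12 (.s k204 k102 14 (.d k200 k59 k196 12
  1)))))))] (.c k27 (.l (.s k59 k200 12 (.s k64 k127 6 (.s k170 k255 14 (.s k42 k234 7 (.s k63 k21 6
  (.d k192 k128 k149 7 14))))))) (.c k59 (.q k27 [(.s k127 k64 6 (.s k255 k170 14 (.s k63 k191 7 (.s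
  k149 k192 14 (.d k21 k42 k213 6 7))))), (.s k64 k127 6 (.s k90 k216 8 (.s k74 k122 3 (.s k79 k69 2
  (.s k80 k95 2 (.d k112 k96 k101 3 6)))))), (.s k90 k216 8 (.s k80 k95 2 (.s k170 k255 14 (.s k10
  k250 11 (.s k15 k5 2 (.d k240 k160 k165 11 14))))))] .n) (.c k255 (.l (.s k59 k200 12 (.s k64 k127
  6 (.s k192 k128 7 (.s k63 k149 14 (.s k51 k55 1 (.s k98 k145 12 (.d k102 k110 k204 1 14))))))))
  .n)))) (.c k238 (.l (.s k17 k221 9 (.s k51 k34 4 (.s k102 k204 14 (.s k255 k170 14 (.d k119 k68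
  k187 4 9)))))) (.c k255 (.f k17 k221 9 (.f k51 k34 4 (.f k204 k102 14 (.q k59 [(.s k63 k55 1 (.s
  k106 k200 12 (.s k64 k127 6 (.d k192 k149 k128 14 7)))), (.s k136 k68 9 (.s k200 k106 12 (.s k8
  k72 7 (.s k12 k4 1 (.d k25 k42 k38 4 6))))), (.s k63 k55 1 (.s k21 k42 6 (.s k149 k213 7 (.d k157
  k145 k110 1 12))))] (.c k170 (.q k238 [(.s k63 k55 1 (.s k106 k200 12 (.s k64 k127 6 (.d k192 k149
  k128 14 7)))), (.s k136 k68 9 (.s k200 k106 12 (.s k8 k72 7 (.s k12 k4 1 (.d k25 k42 k38 4 6))))),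
  (.s k63 k55 1 (.s k42 k21 6 (.s k8 k25 4 (.s k110 k157 12 (.s k46 k174 7 (.d k12 k4 k29 1 4))))))]
  (.c k196 (.l (.s k106 k200 12 (.s k63 k55 1 (.s k149 k192 14 (.d k21 k213 k42 7 6))))) .n)) (.c
  k196 (.l (.s k106 k200 12 (.s k63 k55 1 (.s k149 k192 14 (.d k21 k213 k42 7 6))))) (.c k238 (.q
  k170 [(.d k136 k187 k68 4 9), (.s k63 k55 1 (.s k42 k21 6 (.d k106 k234 k200 7 12)))] .n)
  .n))))))) .n)))))))))))))))

def t11_44 : T TT 256 :=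
  (.f k255 k170 14 (.q k106 [(.s k64 k127 6 (.s k192 k128 7 (.s k149 k63 14 (.d k213 k234 k21 6
  7))))] (.c k21 (.q k1 [(.s k3 k2 0 (.s k169 k253 13 (.s k86 k252 14 (.d k87 k84 k171 0 13)))), (.s
  k64 k127 6 (.s k192 k128 7 (.s k213 k234 6 (.s k253 k169 13 (.s k193 k233 5 (.s k65 k129 7 (.d
  k195 k130 k194 8 0))))))), (.s k3 k2 0 (.s k64 k127 6 (.s k192 k128 7 (.s k66 k129 8 (.s k86 k126
  5 (.d k87 k84 k171 0 13))))))] (.c k171 (.l (.s k3 k2 0 (.s k127 k64 6 (.s k63 k191 7 (.s k43 k23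
  5 (.d k169 k232 k253 8 13)))))) .n)) (.c k63 (.q k1 [(.s k3 k2 0 (.s k169 k253 13 (.s k86 k252 14
  (.d k87 k84 k171 0 13)))), (.s k64 k127 6 (.s k192 k128 7 (.s k213 k234 6 (.s k253 k169 13 (.s
  k193 k233 5 (.s k65 k129 7 (.d k195 k130 k194 8 0))))))), (.s k64 k127 6 (.s k169 k253 13 (.s k192
  k128 7 (.s k232 k43 8 (.s k252 k212 5 (.s k84 k168 13 (.d k86 k3 k87 14 0))))))), (.s k3 k2 0 (.s
  k64 k127 6 (.s k192 k128 7 (.s k66 k129 8 (.s k86 k126 5 (.d k87 k84 k171 0 13))))))] .n) (.c k64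
  (.q k195 [(.s k65 k130 8 (.s k105 k125 5 (.s k215 k235 5 (.d k150 k20 k60 8 14)))), (.s k65 k130 8
  (.s k105 k125 5 (.s k107 k104 0 (.s k63 k151 13 (.s k21 k42 6 (.d k149 k213 k192 7 14)))))), (.s
  k215 k235 5 (.s k150 k20 8 (.s k194 k62 13 (.s k192 k193 0 (.s k149 k63 14 (.d k213 k234 k21 6
  7))))))] (.c k105 (.f k235 k215 5 (.q k243 [(.s k81 k162 12 (.s k89 k93 1 (.s k166 k12 14 (.d k247
  k251 k4 1 12)))), (.s k227 k211 3 (.s k251 k247 1 (.s k219 k203 3 (.d k231 k239 k207 1 5)))), (.s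
  k65 k130 8 (.s k81 k162 12 (.s k97 k113 3 (.s k146 k48 12 (.d k211 k227 k16 3 8)))))] (.c k166 (.l
  (.s k227 k211 3 (.s k231 k239 1 (.s k219 k207 5 (.d k251 k247 k203 1 3))))) (.c k227 (.q k166 [(.d
  k247 k251 k4 1 12), (.s k81 k162 12 (.d k89 k93 k12 1 14))] .n) .n)))) (.c k150 (.q k207 [(.s k69
  k138 10 (.s k101 k117 3 (.s k154 k48 14 (.d k223 k239 k16 3 10)))), (.s k130 k65 8 (.s k138 k69 10
  (.s k134 k142 1 (.s k73 k12 10 (.d k203 k199 k8 1 8))))), (.s k199 k203 1 (.s k215 k235 5 (.s k223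
  k239 3 (.s k219 k211 1 (.d k231 k247 k243 3 5)))))] (.c k130 (.q k190 [(.s k69 k138 10 (.s k101
  k117 3 (.s k154 k48 14 (.d k223 k239 k16 3 10)))), (.s k60 k125 8 (.s k158 k109 12 (.s k174 k142 3
  (.s k93 k12 12 (.d k223 k239 k28 3 8))))), (.s k125 k60 8 (.s k105 k65 5 (.s k203 k199 1 (.s k154
  k56 12 (.d k223 k239 k16 3 10))))), (.s k60 k125 8 (.s k69 k138 10 (.s k101 k117 3 (.s k109 k158
  12 (.s k97 k105 1 (.d k48 k146 k154 12 14))))))] .n) (.c k190 (.l (.s k130 k65 8 (.s k69 k138 10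
  (.s k101 k117 3 (.s k154 k48 14 (.d k223 k239 k16 3 10)))))) .n))) .n))) (.c k127 (.q k195 [(.s
  k65 k130 8 (.s k215 k235 5 (.s k150 k20 8 (.d k105 k125 k60 5 14)))), (.s k65 k130 8 (.s k105 k125
  5 (.s k107 k104 0 (.s k63 k151 13 (.s k21 k42 6 (.d k149 k213 k192 7 14)))))), (.s k215 k235 5 (.s
  k150 k20 8 (.s k194 k62 13 (.s k192 k193 0 (.s k149 k63 14 (.d k213 k234 k21 6 7))))))] (.c k105
  (.f k235 k215 5 (.q k243 [(.s k81 k162 12 (.s k247 k251 1 (.s k166 k4 12 (.d k89 k93 k12 1 14)))),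
  (.s k227 k211 3 (.s k251 k247 1 (.s k219 k203 3 (.d k231 k239 k207 1 5)))), (.s k65 k130 8 (.s k81
  k162 12 (.s k97 k113 3 (.s k146 k48 12 (.d k211 k227 k16 3 8)))))] (.c k166 (.l (.s k227 k211 3
  (.s k231 k239 1 (.s k219 k207 5 (.d k251 k247 k203 1 3))))) (.c k227 (.q k166 [(.d k247 k251 k4 1
  12), (.s k81 k162 12 (.d k89 k93 k12 1 14))] .n) .n)))) (.c k150 (.q k149 [(.s k21 k213 7 (.d k63
  k42 k192 6 14)), (.s k63 k192 14 (.s k107 k151 13 (.s k105 k104 0 (.d k65 k130 k125 8 5))))] (.c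
  k63 (.l (.s k213 k21 7 (.s k192 k234 6 (.s k193 k194 0 (.s k105 k61 13 (.d k65 k125 k130 5 8))))))
  (.c k130 (.q k190 [(.s k21 k213 7 (.d k63 k42 k192 6 14)), (.s k63 k192 14 (.s k107 k151 13 (.s
  k105 k104 0 (.d k125 k60 k65 8 5))))] (.c k63 (.l (.s k125 k60 8 (.s k105 k65 5 (.s k213 k21 7 (.s
  k192 k234 6 (.d k193 k61 k194 13 0)))))) (.c k192 (.l (.s k21 k213 7 (.s k63 k42 6 (.s k107 k151
  13 (.s k105 k104 0 (.d k125 k60 k65 8 5)))))) .n))) (.c k190 (.l (.s k130 k65 8 (.s k21 k213 7 (.d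
  k63 k42 k192 6 14)))) (.c k192 (.l (.s k21 k213 7 (.s k63 k42 6 (.s k107 k151 13 (.s k105 k104 0
  (.d k65 k125 k130 5 8)))))) .n))))) .n))) (.c k128 (.l (.s k127 k64 6 (.s k63 k191 7 (.s k149 k192
  14 (.d k21 k42 k213 6 7))))) (.c k149 (.f k127 k64 6 (.q k87 [(.s k3 k171 13 (.s k1 k2 0 (.s k169
  k253 13 (.d k86 k84 k252 0 14)))), (.s k107 k67 5 (.s k105 k104 0 (.s k65 k125 5 (.s k195 k130 8
  (.d k63 k191 k151 7 13)))))] (.c k84 (.l (.s k3 k171 13 (.s k1 k2 0 (.s k169 k253 13 (.s k43 k232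
  8 (.d k63 k23 k191 5 7)))))) (.c k128 (.l (.s k191 k63 7 (.s k3 k171 13 (.s k1 k2 0 (.s k86 k84 0
  (.d k169 k253 k252 13 14)))))) (.c k191 (.q k128 [(.s k3 k171 13 (.s k1 k2 0 (.s k169 k253 13 (.d
  k86 k84 k252 0 14)))), (.s k67 k107 5 (.s k86 k84 0 (.s k124 k105 6 (.d k126 k125 k66 0 5)))), (.s
  k107 k67 5 (.s k171 k3 13 (.s k235 k43 7 (.s k195 k215 5 (.s k65 k130 8 (.d k105 k104 k125 0
  5))))))] .n) .n))))) (.c k191 (.l (.s k64 k127 6 (.s k192 k128 7 (.s k149 k63 14 (.d k213 k234 k21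
  6 7))))) (.c k192 (.q k1 [(.s k3 k2 0 (.s k169 k253 13 (.s k86 k252 14 (.d k87 k84 k171 0 13)))),
  (.s k127 k64 6 (.s k63 k191 7 (.s k21 k42 6 (.s k61 k41 5 (.s k253 k169 13 (.s k125 k189 7 (.d k60
  k190 k62 8 0))))))), (.s k3 k2 0 (.s k127 k64 6 (.s k63 k191 7 (.s k21 k42 6 (.s k23 k43 5 (.s k22
  k20 0 (.d k41 k61 k60 5 6)))))))] .n) (.c k213 (.q k1 [(.s k3 k2 0 (.s k169 k253 13 (.s k86 k252
  14 (.d k87 k84 k171 0 13)))), (.s k127 k64 6 (.s k63 k191 7 (.s k21 k42 6 (.s k61 k41 5 (.s k60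
  k62 0 (.s k125 k190 8 (.d k253 k189 k169 7 13))))))), (.s k64 k127 6 (.s k169 k253 13 (.s k192
  k128 7 (.s k149 k63 14 (.s k129 k189 5 (.s k66 k3 8 (.d k65 k193 k67 7 0))))))), (.s k3 k2 0 (.s
  k64 k127 6 (.s k192 k128 7 (.s k66 k129 8 (.s k86 k126 5 (.d k87 k84 k171 0 13))))))] .n) (.c k234
  (.l (.s k127 k64 6 (.s k63 k191 7 (.s k21 k42 6 (.d k149 k213 k192 7 14))))) .n))))))))))))

def t11_45 : T TT 256 :=
  (.f k255 k170 14 (.q k106 [(.s k64 k127 6 (.s k192 k128 7 (.s k149 k63 14 (.d k213 k234 k21 6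
  7))))] (.c k21 (.q k1 [(.s k3 k2 0 (.s k169 k253 13 (.s k86 k252 14 (.d k87 k84 k171 0 13)))), (.s
  k64 k127 6 (.s k192 k128 7 (.s k213 k234 6 (.s k253 k169 13 (.s k193 k233 5 (.s k65 k129 7 (.d
  k195 k130 k194 8 0))))))), (.s k3 k2 0 (.s k64 k127 6 (.s k192 k128 7 (.s k66 k129 8 (.s k86 k126
  5 (.d k87 k84 k171 0 13))))))] (.c k171 (.l (.s k3 k2 0 (.s k127 k64 6 (.s k63 k191 7 (.s k43 k23
  5 (.d k169 k232 k253 8 13)))))) .n)) (.c k63 (.q k1 [(.s k3 k2 0 (.s k169 k253 13 (.s k86 k252 14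
  (.d k87 k84 k171 0 13)))), (.s k64 k127 6 (.s k192 k128 7 (.s k213 k234 6 (.s k253 k169 13 (.s
  k193 k233 5 (.s k65 k129 7 (.d k195 k130 k194 8 0))))))), (.s k64 k127 6 (.s k169 k253 13 (.s k192
  k128 7 (.s k232 k43 8 (.s k252 k212 5 (.s k84 k168 13 (.d k86 k3 k87 14 0))))))), (.s k3 k2 0 (.s
  k64 k127 6 (.s k192 k128 7 (.s k66 k129 8 (.s k86 k126 5 (.d k87 k84 k171 0 13))))))] .n) (.c k64
  (.q k204 [(.s k68 k136 9 (.s k102 k119 4 (.s k153 k51 14 (.d k221 k238 k17 4 9)))), (.s k68 k136 9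
  (.s k102 k119 4 (.s k110 k98 1 (.s k63 k157 12 (.s k21 k42 6 (.d k149 k213 k192 7 14)))))), (.s
  k221 k238 4 (.s k153 k17 9 (.s k200 k59 12 (.s k192 k196 1 (.s k149 k63 14 (.d k213 k234 k21 6
  7))))))] (.c k102 (.q k72 [(.s k89 k123 4 (.s k81 k93 1 (.s k243 k162 12 (.s k166 k12 14 (.d k247
  k251 k4 1 12))))), (.s k136 k68 9 (.s k200 k8 7 (.s k153 k59 12 (.d k221 k238 k17 4 9)))), (.s
  k136 k68 9 (.s k8 k200 7 (.s k12 k4 1 (.s k132 k192 9 (.d k140 k128 k76 1 7)))))] (.c k34 (.l (.s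
  k238 k221 4 (.s k89 k123 4 (.s k81 k93 1 (.s k243 k162 12 (.s k166 k12 14 (.d k247 k251 k4 1
  12))))))) (.c k238 (.q k34 [(.s k17 k51 4 (.s k136 k68 9 (.s k153 k221 9 (.d k200 k8 k59 7 12)))),
  (.s k89 k123 4 (.s k81 k93 1 (.s k243 k162 12 (.s k166 k12 14 (.d k247 k251 k4 1 12)))))] .n)
  .n))) (.c k153 (.q k93 [(.s k12 k174 12 (.s k89 k81 1 (.s k166 k243 14 (.d k4 k8 k247 1 12)))),
  (.s k221 k238 4 (.s k157 k29 7 (.s k63 k110 12 (.s k21 k42 6 (.d k149 k213 k192 7 14)))))] (.c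
  k136 (.q k187 [(.s k12 k174 12 (.s k89 k81 1 (.s k166 k243 14 (.d k4 k8 k247 1 12)))), (.s k89 k81
  1 (.s k119 k51 9 (.s k123 k72 4 (.s k115 k127 1 (.d k102 k68 k76 4 6))))), (.s k12 k174 12 (.s k76
  k140 7 (.s k110 k127 4 (.s k119 k51 9 (.d k102 k98 k68 1 4)))))] (.c k98 (.l (.s k12 k174 12 (.s
  k4 k8 1 (.s k166 k247 12 (.d k89 k81 k243 1 14))))) .n)) (.c k174 (.l (.s k221 k238 4 (.s k157 k29
  7 (.s k110 k63 12 (.s k102 k98 1 (.d k68 k119 k136 4 9)))))) (.c k187 (.l (.s k136 k68 9 (.s k12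
  k174 12 (.s k4 k8 1 (.s k89 k81 1 (.d k166 k247 k243 12 14)))))) .n)))) .n))) (.c k127 (.q k51
  [(.s k17 k34 4 (.s k119 k187 9 (.s k102 k68 4 (.d k153 k221 k204 9 14)))), (.s k17 k34 4 (.s k153
  k221 9 (.s k59 k200 12 (.s k63 k55 1 (.s k21 k42 6 (.d k149 k213 k192 7 14)))))), (.s k119 k187 9
  (.s k102 k68 4 (.s k98 k110 1 (.s k192 k145 12 (.s k149 k63 14 (.d k213 k234 k21 6 7))))))] (.c
  k102 (.q k207 [(.s k69 k138 10 (.s k223 k239 3 (.s k154 k16 10 (.d k101 k117 k48 3 14)))), (.s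
  k103 k155 13 (.s k119 k187 9 (.s k87 k71 3 (.s k171 k3 13 (.d k239 k223 k35 3 9))))), (.s k69 k138
  10 (.s k101 k117 3 (.s k111 k96 2 (.s k63 k159 11 (.s k21 k42 6 (.d k149 k213 k192 7 14))))))] (.c
  k34 (.q k238 [(.s k69 k138 10 (.s k223 k239 3 (.s k154 k16 10 (.d k101 k117 k48 3 14)))), (.s k103
  k155 13 (.s k119 k187 9 (.s k87 k71 3 (.s k171 k3 13 (.d k239 k223 k35 3 9))))), (.s k69 k138 10
  (.s k101 k117 3 (.s k111 k96 2 (.s k63 k159 11 (.s k21 k42 6 (.d k149 k213 k192 7 14))))))] .n)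
  (.c k238 (.l (.s k34 k17 4 (.s k69 k138 10 (.s k101 k117 3 (.s k154 k48 14 (.d k223 k239 k16 3
  10)))))) .n))) (.c k153 (.q k89 [(.s k93 k81 1 (.s k12 k174 12 (.s k166 k243 14 (.d k4 k8 k247 1
  12)))), (.s k123 k72 4 (.s k187 k119 9 (.s k59 k251 7 (.s k63 k55 1 (.s k21 k42 6 (.d k149 k213
  k192 7 14))))))] (.c k136 (.l (.s k187 k119 9 (.s k81 k93 1 (.s k123 k72 4 (.s k243 k162 12 (.d
  k251 k247 k59 1 7)))))) (.c k187 (.q k136 [(.s k68 k204 9 (.s k72 k123 4 (.s k76 k64 1 (.d k102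
  k119 k115 4 6)))), (.s k93 k81 1 (.s k12 k174 12 (.s k4 k8 1 (.d k166 k247 k243 12 14))))] .n) (.c
  k247 (.l (.s k81 k93 1 (.s k243 k162 12 (.s k115 k179 7 (.s k98 k64 4 (.d k102 k110 k76 1 6))))))
  .n)))) .n))) (.c k128 (.l (.s k127 k64 6 (.s k63 k191 7 (.s k149 k192 14 (.d k21 k42 k213 6 7)))))
  (.c k149 (.f k127 k64 6 (.q k90 [(.s k95 k80 2 (.s k15 k175 11 (.s k165 k240 14 (.d k5 k10 k245 2
  11)))), (.s k122 k74 3 (.s k117 k112 2 (.s k48 k186 10 (.s k16 k32 3 (.s k154 k223 10 (.d k101 k69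
  k207 3 14)))))), (.s k80 k95 2 (.s k122 k74 3 (.s k240 k160 11 (.d k63 k191 k181 7 10))))] (.c k80
  (.l (.s k122 k74 3 (.s k112 k117 2 (.s k79 k101 6 (.s k95 k111 3 (.s k15 k175 11 (.s k5 k10 2 (.d
  k165 k245 k240 11 14)))))))) (.c k128 (.l (.s k191 k63 7 (.s k80 k95 2 (.s k240 k160 11 (.s k165
  k15 14 (.d k245 k250 k5 2 11)))))) (.c k191 (.q k128 [(.s k80 k95 2 (.s k240 k160 11 (.s k245 k250
  2 (.d k165 k5 k15 11 14)))), (.s k122 k74 3 (.s k117 k112 2 (.s k48 k186 10 (.s k16 k32 3 (.s k154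
  k223 10 (.d k101 k69 k207 3 14))))))] (.c k80 (.l (.s k122 k74 3 (.s k112 k117 2 (.s k79 k101 6
  (.s k95 k111 3 (.s k15 k175 11 (.s k5 k10 2 (.d k165 k245 k240 11 14)))))))) .n)) .n))))) (.c k191
  (.l (.s k64 k127 6 (.s k192 k128 7 (.s k149 k63 14 (.d k213 k234 k21 6 7))))) (.c k192 (.q k1 [(.s
  k3 k2 0 (.s k169 k253 13 (.s k86 k252 14 (.d k87 k84 k171 0 13)))), (.s k127 k64 6 (.s k63 k191 7
  (.s k21 k42 6 (.s k61 k41 5 (.s k253 k169 13 (.s k125 k189 7 (.d k60 k190 k62 8 0))))))), (.s k3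
  k2 0 (.s k127 k64 6 (.s k63 k191 7 (.s k21 k42 6 (.s k23 k43 5 (.s k22 k20 0 (.d k41 k61 k60 5
  6)))))))] .n) (.c k213 (.q k1 [(.s k3 k2 0 (.s k169 k253 13 (.s k86 k252 14 (.d k87 k84 k171 0
  13)))), (.s k127 k64 6 (.s k63 k191 7 (.s k21 k42 6 (.s k61 k41 5 (.s k60 k62 0 (.s k125 k190 8
  (.d k253 k189 k169 7 13))))))), (.s k64 k127 6 (.s k169 k253 13 (.s k192 k128 7 (.s k149 k63 14
  (.s k129 k189 5 (.s k66 k3 8 (.d k65 k193 k67 7 0))))))), (.s k3 k2 0 (.s k64 k127 6 (.s k192 k128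
  7 (.s k66 k129 8 (.s k86 k126 5 (.d k87 k84 k171 0 13))))))] .n) (.c k234 (.l (.s k127 k64 6 (.s
  k63 k191 7 (.s k21 k42 6 (.d k149 k213 k192 7 14))))) .n))))))))))))

def t11_46 : T TT 256 :=
  (.f k255 k170 14 (.q k106 [(.s k64 k127 6 (.s k192 k128 7 (.s k213 k234 6 (.d k149 k21 k63 7
  14))))] (.c k21 (.q k1 [(.s k3 k2 0 (.s k169 k253 13 (.s k86 k252 14 (.d k87 k84 k171 0 13)))),
  (.s k64 k127 6 (.s k192 k128 7 (.s k213 k234 6 (.s k253 k169 13 (.s k193 k233 5 (.s k65 k129 7 (.d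
  k195 k130 k194 8 0))))))), (.s k3 k2 0 (.s k64 k127 6 (.s k192 k128 7 (.s k66 k129 8 (.s k86 k126
  5 (.d k87 k84 k171 0 13))))))] (.c k171 (.l (.s k3 k2 0 (.s k127 k64 6 (.s k63 k191 7 (.s k43 k23
  5 (.d k169 k232 k253 8 13)))))) .n)) (.c k63 (.q k12 [(.s k93 k174 12 (.s k89 k81 1 (.s k166 k243
  14 (.d k4 k8 k247 1 12)))), (.s k8 k4 1 (.s k64 k127 6 (.s k192 k128 7 (.s k72 k132 9 (.s k68 k76
  1 (.d k136 k200 k204 7 9)))))), (.s k64 k127 6 (.s k192 k128 7 (.s k72 k132 9 (.s k89 k123 4 (.d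
  k93 k81 k174 1 12)))))] (.c k93 (.l (.s k4 k8 1 (.s k64 k127 6 (.s k166 k247 12 (.s k89 k243 14
  (.s k192 k128 7 (.d k72 k123 k132 4 9))))))) .n)) (.c k64 (.q k60 [(.s k20 k40 5 (.s k125 k190 8
  (.s k150 k215 8 (.d k105 k65 k195 5 14)))), (.s k20 k40 5 (.s k150 k215 8 (.s k62 k194 13 (.s k63
  k61 0 (.s k21 k42 6 (.d k149 k213 k192 7 14)))))), (.s k125 k190 8 (.s k105 k65 5 (.s k104 k107 0
  (.s k192 k148 13 (.s k149 k63 14 (.d k213 k234 k21 6 7))))))] (.c k105 (.q k87 [(.s k3 k171 13 (.s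
  k1 k2 0 (.s k169 k253 13 (.d k86 k84 k252 0 14)))), (.s k86 k84 0 (.s k126 k66 5 (.s k190 k125 8
  (.s k62 k254 7 (.s k150 k194 13 (.d k20 k40 k215 5 8)))))), (.s k3 k171 13 (.s k2 k1 0 (.s k22 k41
  6 (.s k42 k62 5 (.s k21 k63 6 (.d k20 k40 k23 5 0))))))] (.c k2 (.l (.s k3 k171 13 (.s k22 k41 6
  (.s k86 k84 0 (.s k150 k214 7 (.d k20 k40 k215 5 8)))))) (.c k40 (.q k235 [(.s k3 k171 13 (.s k1
  k2 0 (.s k169 k253 13 (.d k86 k84 k252 0 14)))), (.s k86 k84 0 (.s k126 k66 5 (.s k190 k125 8 (.s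
  k62 k254 7 (.s k150 k194 13 (.d k215 k195 k20 5 8)))))), (.s k3 k171 13 (.s k22 k41 6 (.s k215
  k195 5 (.s k20 k150 8 (.d k23 k21 k151 0 7)))))] .n) (.c k235 (.l (.s k40 k20 5 (.s k3 k171 13 (.s
  k1 k2 0 (.s k86 k84 0 (.d k169 k253 k252 13 14)))))) .n)))) (.c k150 (.q k149 [(.s k21 k213 7 (.d
  k63 k42 k192 6 14)), (.s k63 k192 14 (.s k61 k62 0 (.s k105 k193 13 (.d k125 k190 k65 8 5))))] (.c
  k63 (.l (.s k213 k21 7 (.s k192 k234 6 (.s k104 k148 13 (.s k105 k107 0 (.d k125 k65 k190 5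
  8)))))) (.c k130 (.l (.s k190 k125 8 (.s k21 k213 7 (.d k63 k42 k192 6 14)))) (.c k190 (.q k130
  [(.s k21 k213 7 (.d k63 k42 k192 6 14)), (.s k63 k192 14 (.s k61 k62 0 (.s k65 k195 8 (.d k105
  k193 k125 13 5))))] (.c k63 (.l (.s k65 k195 8 (.s k105 k125 5 (.s k213 k21 7 (.s k192 k234 6 (.d
  k104 k107 k148 0 13)))))) (.c k192 (.l (.s k21 k213 7 (.s k63 k42 6 (.s k61 k62 0 (.s k65 k195 8
  (.d k105 k193 k125 13 5)))))) .n))) (.c k192 (.l (.s k21 k213 7 (.s k63 k42 6 (.s k61 k62 0 (.s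
  k105 k193 13 (.d k125 k65 k190 5 8)))))) .n))))) .n))) (.c k127 (.q k204 [(.s k68 k136 9 (.s k102
  k119 4 (.s k153 k51 14 (.d k221 k238 k17 4 9)))), (.s k221 k238 4 (.s k153 k17 9 (.s k200 k59 12
  (.s k192 k196 1 (.s k149 k63 14 (.d k213 k234 k21 6 7)))))), (.s k68 k136 9 (.s k102 k119 4 (.s
  k110 k98 1 (.s k63 k157 12 (.s k21 k42 6 (.d k149 k213 k192 7 14))))))] (.c k102 (.f k136 k68 9
  (.f k238 k221 4 (.q k8 [(.s k12 k4 1 (.s k72 k200 7 (.s k132 k192 9 (.d k140 k128 k76 1 7)))), (.s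
  k200 k72 7 (.s k59 k153 12 (.s k42 k25 4 (.s k63 k21 6 (.d k192 k196 k149 1 14))))), (.s k72 k200
  7 (.s k89 k123 4 (.s k93 k81 1 (.d k12 k4 k174 1 12))))] (.c k72 (.l (.s k4 k12 1 (.s k247 k166 12
  (.s k243 k251 1 (.s k230 k217 6 (.s k213 k196 4 (.d k234 k192 k226 6 1))))))) (.c k200 (.l (.s k4
  k12 1 (.s k247 k166 12 (.s k243 k251 1 (.s k230 k217 6 (.s k234 k226 1 (.d k213 k196 k192 4
  6))))))) .n))))) (.c k153 (.q k72 [(.s k136 k68 9 (.s k8 k200 7 (.s k12 k4 1 (.s k132 k192 9 (.d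
  k140 k128 k76 1 7))))), (.s k89 k123 4 (.s k81 k93 1 (.s k243 k162 12 (.s k166 k12 14 (.d k247
  k251 k4 1 12))))), (.s k136 k68 9 (.s k200 k8 7 (.s k192 k196 1 (.s k213 k234 6 (.d k149 k21 k63 7
  14)))))] (.c k4 (.l (.s k89 k123 4 (.s k93 k81 1 (.s k12 k174 12 (.s k76 k140 7 (.d k68 k64 k136 1
  9)))))) (.c k136 (.q k187 [(.s k89 k123 4 (.s k81 k93 1 (.s k243 k162 12 (.s k166 k12 14 (.d k247
  k251 k4 1 12))))), (.s k119 k51 9 (.s k68 k102 4 (.s k76 k64 1 (.s k12 k140 7 (.s k132 k192 9 (.d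
  k4 k8 k196 1 7)))))), (.s k123 k89 4 (.s k221 k238 4 (.s k251 k59 7 (.s k243 k247 1 (.s k217 k230
  6 (.s k213 k209 1 (.d k234 k200 k192 4 6)))))))] .n) (.c k187 (.l (.s k136 k68 9 (.s k8 k200 7 (.s
  k12 k4 1 (.s k89 k123 4 (.d k93 k81 k174 1 12)))))) .n)))) .n))) (.c k128 (.l (.s k127 k64 6 (.s
  k63 k191 7 (.s k149 k192 14 (.d k21 k42 k213 6 7))))) (.c k149 (.f k64 k127 6 (.q k101 [(.s k96
  k111 2 (.s k69 k117 3 (.s k112 k80 3 (.d k79 k74 k90 2 6)))), (.s k69 k117 3 (.s k207 k138 10 (.s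
  k154 k48 14 (.d k223 k239 k16 3 10)))), (.s k96 k111 2 (.s k117 k69 3 (.s k48 k186 10 (.d k192
  k128 k144 7 11))))] (.c k69 (.l (.s k96 k111 2 (.s k80 k112 3 (.s k160 k240 11 (.s k32 k224 7 (.s
  k48 k16 3 (.d k192 k128 k144 7 11))))))) (.c k117 (.l (.s k96 k111 2 (.s k112 k80 3 (.s k79 k90 6
  (.s k69 k74 2 (.s k207 k138 10 (.s k154 k48 14 (.d k223 k239 k16 3 10)))))))) (.c k128 (.q k191
  [(.s k117 k69 3 (.s k48 k186 10 (.s k16 k32 3 (.d k154 k223 k207 10 14)))), (.s k96 k111 2 (.s k80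
  k112 3 (.s k240 k160 11 (.s k245 k250 2 (.s k165 k5 11 (.d k90 k95 k15 2 14))))))] (.c k117 (.l
  (.s k96 k111 2 (.s k112 k80 3 (.s k79 k90 6 (.s k69 k74 2 (.s k207 k138 10 (.s k154 k48 14 (.d
  k223 k239 k16 3 10)))))))) .n)) (.c k191 (.l (.s k128 k192 7 (.s k69 k117 3 (.s k79 k74 2 (.s k96
  k111 2 (.d k112 k80 k90 3 6)))))) .n)))))) (.c k191 (.l (.s k64 k127 6 (.s k192 k128 7 (.s k149
  k63 14 (.d k213 k234 k21 6 7))))) (.c k192 (.q k1 [(.s k3 k2 0 (.s k169 k253 13 (.s k86 k252 14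
  (.d k87 k84 k171 0 13)))), (.s k127 k64 6 (.s k63 k191 7 (.s k21 k42 6 (.s k61 k41 5 (.s k253 k169
  13 (.s k125 k189 7 (.d k60 k190 k62 8 0))))))), (.s k3 k2 0 (.s k127 k64 6 (.s k63 k191 7 (.s k21
  k42 6 (.s k23 k43 5 (.s k22 k20 0 (.d k41 k61 k60 5 6)))))))] .n) (.c k213 (.q k1 [(.s k3 k2 0 (.s
  k169 k253 13 (.s k86 k252 14 (.d k87 k84 k171 0 13)))), (.s k127 k64 6 (.s k63 k191 7 (.s k21 k42
  6 (.s k61 k41 5 (.s k60 k62 0 (.s k125 k190 8 (.d k253 k189 k169 7 13))))))), (.s k64 k127 6 (.s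
  k169 k253 13 (.s k192 k128 7 (.s k149 k63 14 (.s k129 k189 5 (.s k66 k3 8 (.d k65 k193 k67 7
  0))))))), (.s k3 k2 0 (.s k64 k127 6 (.s k192 k128 7 (.s k66 k129 8 (.s k86 k126 5 (.d k87 k84
  k171 0 13))))))] .n) (.c k234 (.l (.s k127 k64 6 (.s k63 k191 7 (.s k21 k42 6 (.d k149 k213 k192 7
  14))))) .n))))))))))))

def t11_47 : T TT 256 :=
  (.f k255 k170 14 (.q k106 [(.s k64 k127 6 (.s k192 k128 7 (.s k213 k234 6 (.d k149 k21 k63 7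
  14))))] (.c k21 (.q k1 [(.s k3 k2 0 (.s k169 k253 13 (.s k86 k252 14 (.d k87 k84 k171 0 13)))),
  (.s k64 k127 6 (.s k192 k128 7 (.s k213 k234 6 (.s k253 k169 13 (.s k193 k233 5 (.s k65 k129 7 (.d
  k195 k130 k194 8 0))))))), (.s k3 k2 0 (.s k64 k127 6 (.s k192 k128 7 (.s k66 k129 8 (.s k86 k126
  5 (.d k87 k84 k171 0 13))))))] (.c k171 (.l (.s k3 k2 0 (.s k127 k64 6 (.s k63 k191 7 (.s k43 k23
  5 (.d k169 k232 k253 8 13)))))) .n)) (.c k63 (.q k15 [(.s k95 k175 11 (.s k90 k80 2 (.s k165 k240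
  14 (.d k5 k10 k245 2 11)))), (.s k10 k5 2 (.s k64 k127 6 (.s k192 k128 7 (.s k74 k133 10 (.s k69
  k79 2 (.d k138 k202 k207 7 10)))))), (.s k64 k127 6 (.s k192 k128 7 (.s k74 k133 10 (.s k90 k122 3
  (.d k95 k80 k175 2 11)))))] (.c k95 (.l (.s k5 k10 2 (.s k64 k127 6 (.s k165 k245 11 (.s k90 k240
  14 (.s k192 k128 7 (.d k74 k122 k133 3 10))))))) .n)) (.c k64 (.q k60 [(.s k20 k40 5 (.s k125 k190
  8 (.s k150 k215 8 (.d k105 k65 k195 5 14)))), (.s k20 k40 5 (.s k150 k215 8 (.s k62 k194 13 (.s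
  k63 k61 0 (.s k21 k42 6 (.d k149 k213 k192 7 14)))))), (.s k125 k190 8 (.s k105 k65 5 (.s k104
  k107 0 (.s k192 k148 13 (.s k149 k63 14 (.d k213 k234 k21 6 7))))))] (.c k105 (.q k86 [(.s k84 k87
  0 (.s k252 k168 13 (.s k253 k254 0 (.d k169 k1 k3 13 14)))), (.s k126 k66 5 (.s k190 k125 8 (.s
  k62 k254 7 (.s k150 k194 13 (.d k20 k40 k215 5 8)))))] (.c k40 (.q k235 [(.s k84 k87 0 (.s k252
  k168 13 (.s k253 k254 0 (.d k169 k1 k3 13 14)))), (.s k126 k66 5 (.s k190 k125 8 (.s k62 k254 7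
  (.s k150 k194 13 (.d k215 k195 k20 5 8)))))] (.c k254 (.l (.s k87 k84 0 (.s k3 k171 13 (.s k1 k2 0
  (.d k169 k253 k252 13 14))))) .n)) (.c k235 (.l (.s k40 k20 5 (.s k84 k87 0 (.s k252 k168 13 (.s
  k169 k3 14 (.d k253 k254 k1 0 13)))))) (.c k254 (.l (.s k87 k84 0 (.s k3 k171 13 (.s k1 k2 0 (.d
  k169 k253 k252 13 14))))) .n)))) (.c k150 (.q k69 [(.s k101 k117 3 (.s k207 k138 10 (.s k154 k48
  14 (.d k223 k239 k16 3 10)))), (.s k101 k117 3 (.s k207 k138 10 (.s k109 k158 12 (.s k105 k97 1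
  (.d k125 k190 k65 8 5))))), (.s k190 k125 8 (.s k207 k138 10 (.s k158 k109 12 (.s k174 k142 3 (.s
  k93 k12 12 (.d k223 k239 k28 3 8))))))] (.c k130 (.l (.s k190 k125 8 (.s k101 k117 3 (.s k207 k138
  10 (.s k154 k48 14 (.d k223 k239 k16 3 10)))))) (.c k138 (.l (.s k117 k101 3 (.s k186 k48 10 (.s
  k190 k125 8 (.s k182 k178 1 (.s k243 k121 10 (.d k247 k52 k251 8 1))))))) (.c k154 (.l (.s k20 k40
  5 (.s k117 k101 3 (.s k48 k186 10 (.s k138 k207 10 (.s k52 k56 1 (.s k4 k36 3 (.d k247 k166 k182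
  12 8)))))))) (.c k186 (.l (.s k101 k117 3 (.s k207 k138 10 (.s k154 k48 14 (.d k223 k239 k16 3
  10))))) (.c k190 (.q k130 [(.s k101 k117 3 (.s k207 k138 10 (.s k154 k48 14 (.d k223 k239 k16 3
  10)))), (.s k65 k195 8 (.s k77 k73 1 (.s k125 k105 5 (.s k109 k93 3 (.d k207 k138 k158 10 12))))),
  (.s k65 k195 8 (.s k77 k73 1 (.s k101 k117 3 (.s k89 k113 5 (.s k93 k81 1 (.d k125 k109 k105 3
  5))))))] .n) (.c k207 (.l (.s k20 k40 5 (.s k117 k101 3 (.s k48 k186 10 (.s k52 k56 1 (.s k4 k36 3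
  (.d k247 k166 k182 12 8))))))) .n))))))) .n))) (.c k127 (.q k204 [(.s k68 k136 9 (.s k221 k238 4
  (.s k153 k17 9 (.d k102 k119 k51 4 14)))), (.s k68 k136 9 (.s k102 k119 4 (.s k110 k98 1 (.s k63
  k157 12 (.s k21 k42 6 (.d k149 k213 k192 7 14)))))), (.s k221 k238 4 (.s k153 k17 9 (.s k200 k59
  12 (.s k192 k196 1 (.s k149 k63 14 (.d k213 k234 k21 6 7))))))] (.c k102 (.q k200 [(.s k153 k59 12
  (.d k221 k238 k17 4 9)), (.s k192 k196 1 (.s k149 k63 14 (.d k213 k234 k21 6 7)))] (.c k34 (.l (.s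
  k238 k221 4 (.s k192 k196 1 (.s k149 k63 14 (.d k213 k234 k21 6 7))))) (.c k238 (.q k34 [(.s k17
  k51 4 (.d k153 k221 k59 9 12)), (.s k192 k196 1 (.s k149 k63 14 (.d k213 k234 k21 6 7)))] .n)
  .n))) (.c k153 (.q k213 [(.s k149 k21 7 (.d k192 k234 k63 6 14)), (.s k221 k238 4 (.s k217 k209 1
  (.s k243 k230 6 (.s k81 k162 12 (.s k89 k93 1 (.s k166 k12 14 (.d k247 k251 k4 1 12)))))))] (.c
  k136 (.q k187 [(.s k149 k21 7 (.d k192 k234 k63 6 14)), (.s k192 k234 6 (.s k196 k200 1 (.s k221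
  k238 4 (.s k217 k209 1 (.d k230 k247 k243 4 6))))), (.s k21 k149 7 (.s k63 k42 6 (.s k119 k51 9
  (.s k102 k68 4 (.d k110 k157 k98 12 1)))))] .n) (.c k187 (.l (.s k136 k68 9 (.s k149 k21 7 (.d
  k192 k234 k63 6 14)))) (.c k234 (.l (.s k149 k21 7 (.s k63 k192 14 (.s k110 k157 12 (.s k102 k98 1
  (.d k68 k119 k136 4 9)))))) .n)))) .n))) (.c k128 (.l (.s k127 k64 6 (.s k63 k191 7 (.s k149 k192
  14 (.d k21 k42 k213 6 7))))) (.c k149 (.f k64 k127 6 (.f k128 k192 7 (.q k65 [(.s k195 k130 8 (.s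
  k215 k235 5 (.s k150 k20 8 (.d k105 k125 k60 5 14)))), (.s k66 k67 0 (.s k86 k126 5 (.s k87 k84 0
  (.s k3 k171 13 (.s k1 k2 0 (.d k169 k253 k252 13 14))))))] (.c k125 (.l (.s k67 k66 0 (.s k195
  k130 8 (.s k3 k131 7 (.s k87 k171 13 (.s k86 k84 0 (.s k169 k252 14 (.d k1 k2 k253 0 13))))))))
  .n)))) (.c k191 (.l (.s k64 k127 6 (.s k192 k128 7 (.s k149 k63 14 (.d k213 k234 k21 6 7))))) (.c
  k192 (.q k1 [(.s k3 k2 0 (.s k169 k253 13 (.s k86 k252 14 (.d k87 k84 k171 0 13)))), (.s k127 k64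
  6 (.s k63 k191 7 (.s k21 k42 6 (.s k61 k41 5 (.s k253 k169 13 (.s k125 k189 7 (.d k60 k190 k62 8
  0))))))), (.s k3 k2 0 (.s k127 k64 6 (.s k63 k191 7 (.s k21 k42 6 (.s k23 k43 5 (.s k22 k20 0 (.d
  k41 k61 k60 5 6)))))))] .n) (.c k213 (.q k1 [(.s k3 k2 0 (.s k169 k253 13 (.s k86 k252 14 (.d k87
  k84 k171 0 13)))), (.s k127 k64 6 (.s k63 k191 7 (.s k21 k42 6 (.s k61 k41 5 (.s k60 k62 0 (.s
  k125 k190 8 (.d k253 k189 k169 7 13))))))), (.s k64 k127 6 (.s k169 k253 13 (.s k192 k128 7 (.s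
  k149 k63 14 (.s k129 k189 5 (.s k66 k3 8 (.d k65 k193 k67 7 0))))))), (.s k3 k2 0 (.s k64 k127 6
  (.s k192 k128 7 (.s k66 k129 8 (.s k86 k126 5 (.d k87 k84 k171 0 13))))))] .n) (.c k234 (.l (.s
  k127 k64 6 (.s k63 k191 7 (.s k21 k42 6 (.d k149 k213 k192 7 14))))) .n))))))))))))

def t11_51 : T TT 256 :=
  (.f k255 k170 14 (.q k105 [(.s k65 k125 5 (.s k195 k130 8 (.s k215 k235 5 (.d k150 k20 k60 8
  14))))] (.c k20 (.q k1 [(.s k3 k2 0 (.s k169 k253 13 (.s k86 k252 14 (.d k87 k84 k171 0 13)))),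
  (.s k65 k125 5 (.s k169 k253 13 (.s k41 k233 7 (.s k61 k21 5 (.d k193 k129 k149 7 13))))), (.s k3
  k2 0 (.s k65 k125 5 (.s k129 k193 7 (.s k66 k192 8 (.s k67 k64 0 (.d k195 k131 k130 7 8))))))] .n)
  (.c k60 (.f k65 k125 5 (.q k171 [(.s k3 k87 13 (.s k1 k2 0 (.s k169 k253 13 (.s k41 k233 7 (.s k61
  k21 5 (.d k193 k129 k149 7 13)))))), (.s k195 k130 8 (.s k235 k215 5 (.s k107 k43 7 (.s k106 k104
  0 (.s k127 k64 6 (.d k63 k191 k151 7 13))))))] (.c k54 (.q k57 [(.s k3 k87 13 (.s k1 k2 0 (.s k169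
  k253 13 (.s k41 k233 7 (.s k61 k21 5 (.d k193 k129 k149 7 13)))))), (.s k195 k130 8 (.s k235 k215
  5 (.s k107 k43 7 (.s k106 k104 0 (.s k127 k64 6 (.d k63 k191 k151 7 13))))))] .n) (.c k57 (.q k54
  [(.s k3 k87 13 (.s k1 k2 0 (.s k169 k253 13 (.s k41 k233 7 (.s k61 k21 5 (.d k193 k129 k149 7
  13)))))), (.s k195 k130 8 (.s k235 k215 5 (.s k107 k43 7 (.s k106 k104 0 (.s k127 k64 6 (.d k63
  k191 k151 7 13))))))] .n) .n)))) (.c k65 (.q k213 [(.s k149 k21 7 (.s k192 k234 6 (.s k64 k128 7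
  (.d k106 k127 k63 6 14)))), (.s k149 k21 7 (.s k193 k61 13 (.s k253 k233 5 (.s k252 k254 0 (.s k84
  k168 13 (.s k86 k87 0 (.d k169 k1 k3 13 14)))))))] (.c k21 (.l (.s k192 k234 6 (.s k64 k128 7 (.s
  k106 k127 6 (.s k104 k107 0 (.s k60 k148 13 (.s k20 k40 5 (.d k150 k215 k195 8 14)))))))) (.c k149
  (.f k192 k234 6 (.q k106 [(.d k64 k128 k127 7 6), (.s k104 k107 0 (.s k60 k148 13 (.s k20 k40 5
  (.d k150 k215 k195 8 14))))] (.c k128 (.q k191 [(.d k127 k64 k63 6 7), (.s k104 k107 0 (.s k60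
  k148 13 (.s k20 k40 5 (.d k150 k215 k195 8 14))))] .n) (.c k191 (.l (.s k128 k64 7 (.s k104 k107 0
  (.s k60 k148 13 (.s k20 k40 5 (.d k150 k215 k195 8 14)))))) .n)))) .n))) (.c k125 (.q k213 [(.s
  k149 k21 7 (.s k192 k234 6 (.s k64 k128 7 (.d k106 k127 k63 6 14)))), (.s k149 k21 7 (.s k193 k61
  13 (.s k253 k233 5 (.s k252 k254 0 (.s k84 k168 13 (.s k86 k87 0 (.d k169 k1 k3 13 14)))))))] (.c
  k21 (.l (.s k192 k234 6 (.s k64 k128 7 (.s k106 k127 6 (.s k104 k107 0 (.s k60 k148 13 (.s k20 k40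
  5 (.d k150 k215 k195 8 14)))))))) (.c k149 (.f k192 k234 6 (.q k106 [(.d k64 k128 k127 7 6), (.s
  k104 k107 0 (.s k60 k148 13 (.s k20 k40 5 (.d k150 k215 k195 8 14))))] (.c k128 (.q k191 [(.d k127
  k64 k63 6 7), (.s k104 k107 0 (.s k60 k148 13 (.s k20 k40 5 (.d k150 k215 k195 8 14))))] .n) (.c
  k191 (.l (.s k128 k64 7 (.s k104 k107 0 (.s k60 k148 13 (.s k20 k40 5 (.d k150 k215 k195 8
  14)))))) .n)))) .n))) (.c k130 (.l (.s k125 k65 5 (.s k60 k190 8 (.s k150 k195 14 (.d k20 k40 k215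
  5 8))))) (.c k150 (.f k65 k125 5 (.q k193 [(.s k1 k129 7 (.s k149 k61 13 (.s k213 k21 7 (.d k253
  k233 k169 5 13)))), (.s k1 k129 7 (.s k3 k2 0 (.s k87 k171 13 (.s k86 k84 0 (.s k67 k124 6 (.d
  k195 k130 k131 8 7)))))), (.s k149 k61 13 (.s k21 k213 7 (.s k63 k42 6 (.s k106 k192 14 (.d k127
  k64 k191 6 7)))))] (.c k130 (.q k190 [(.s k149 k61 13 (.s k213 k21 7 (.s k253 k233 5 (.d k1 k129
  k169 7 13)))), (.s k1 k129 7 (.s k3 k2 0 (.s k87 k171 13 (.s k86 k84 0 (.d k169 k253 k252 13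
  14))))), (.s k149 k61 13 (.s k21 k213 7 (.s k63 k42 6 (.s k106 k192 14 (.d k127 k64 k191 6 7)))))]
  (.c k253 (.l (.s k129 k1 7 (.s k149 k61 13 (.s k189 k169 5 (.s k21 k213 7 (.s k63 k42 6 (.d k191
  k188 k127 0 7))))))) .n)) (.c k190 (.l (.s k130 k195 8 (.s k1 k129 7 (.s k61 k149 13 (.s k41 k21 5
  (.d k169 k233 k253 7 13)))))) .n)))) (.c k190 (.l (.s k65 k125 5 (.s k195 k130 8 (.s k150 k60 14
  (.d k215 k235 k20 5 8))))) (.c k195 (.f k65 k125 5 (.q k1 [(.s k169 k253 13 (.s k193 k129 7 (.s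
  k61 k149 13 (.d k41 k21 k233 5 7)))), (.s k3 k2 0 (.s k87 k171 13 (.s k86 k84 0 (.s k67 k124 6 (.s
  k64 k66 0 (.d k127 k107 k106 5 6))))))] (.c k99 (.q k147 [(.s k169 k253 13 (.s k193 k129 7 (.s k61
  k149 13 (.d k41 k21 k233 5 7)))), (.s k3 k2 0 (.s k87 k171 13 (.s k86 k84 0 (.s k67 k124 6 (.s k64
  k66 0 (.d k127 k107 k106 5 6))))))] (.c k169 (.l (.s k193 k129 7 (.s k149 k61 13 (.s k21 k213 7
  (.s k63 k42 6 (.s k106 k192 14 (.d k127 k64 k191 6 7))))))) .n)) (.c k147 (.q k99 [(.s k169 k253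
  13 (.s k193 k129 7 (.s k61 k149 13 (.d k41 k21 k233 5 7)))), (.s k3 k2 0 (.s k87 k171 13 (.s k86
  k84 0 (.s k67 k124 6 (.s k64 k66 0 (.d k127 k107 k106 5 6))))))] (.c k169 (.l (.s k193 k129 7 (.s
  k149 k61 13 (.s k21 k213 7 (.s k63 k42 6 (.s k106 k192 14 (.d k127 k64 k191 6 7))))))) .n)) (.c
  k169 (.l (.s k193 k129 7 (.s k149 k61 13 (.s k21 k213 7 (.s k63 k42 6 (.s k106 k192 14 (.d k127
  k64 k191 6 7))))))) .n))))) (.c k215 (.q k1 [(.s k3 k2 0 (.s k169 k253 13 (.s k86 k252 14 (.d k87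
  k84 k171 0 13)))), (.s k65 k125 5 (.s k169 k253 13 (.s k41 k233 7 (.s k61 k21 5 (.d k193 k129 k149
  7 13))))), (.s k3 k2 0 (.s k65 k125 5 (.s k129 k193 7 (.s k66 k192 8 (.s k67 k64 0 (.d k195 k131
  k130 7 8))))))] .n) (.c k235 (.l (.s k125 k65 5 (.s k60 k190 8 (.s k20 k40 5 (.d k150 k215 k195 8
  14))))) .n))))))))))))

def t11_54 : T TT 256 :=
  (.f k255 k170 14 (.q k106 [(.s k64 k127 6 (.s k192 k128 7 (.s k149 k63 14 (.d k213 k234 k21 6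
  7))))] (.c k21 (.q k1 [(.s k3 k2 0 (.s k169 k253 13 (.s k86 k252 14 (.d k87 k84 k171 0 13)))), (.s
  k64 k127 6 (.s k192 k128 7 (.s k213 k234 6 (.s k253 k169 13 (.s k193 k233 5 (.s k65 k129 7 (.d
  k195 k130 k194 8 0))))))), (.s k3 k2 0 (.s k64 k127 6 (.s k192 k128 7 (.s k66 k129 8 (.s k86 k126
  5 (.d k87 k84 k171 0 13))))))] (.c k171 (.l (.s k3 k2 0 (.s k127 k64 6 (.s k63 k191 7 (.s k43 k23
  5 (.d k169 k232 k253 8 13)))))) .n)) (.c k63 (.q k1 [(.s k3 k2 0 (.s k169 k253 13 (.s k86 k252 14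
  (.d k87 k84 k171 0 13)))), (.s k64 k127 6 (.s k192 k128 7 (.s k213 k234 6 (.s k253 k169 13 (.s
  k193 k233 5 (.s k65 k129 7 (.d k195 k130 k194 8 0))))))), (.s k64 k127 6 (.s k169 k253 13 (.s k192
  k128 7 (.s k232 k43 8 (.s k252 k212 5 (.s k84 k168 13 (.d k86 k3 k87 14 0))))))), (.s k3 k2 0 (.s
  k64 k127 6 (.s k192 k128 7 (.s k66 k129 8 (.s k86 k126 5 (.d k87 k84 k171 0 13))))))] .n) (.c k64
  (.q k48 [(.s k16 k32 3 (.s k117 k186 10 (.s k154 k223 10 (.d k101 k69 k207 3 14)))), (.s k16 k32 3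
  (.s k154 k223 10 (.s k58 k202 11 (.s k63 k53 2 (.s k21 k42 6 (.d k149 k213 k192 7 14)))))), (.s
  k117 k186 10 (.s k101 k69 3 (.s k96 k111 2 (.s k192 k144 11 (.s k149 k63 14 (.d k213 k234 k21 6
  7))))))] (.c k101 (.q k87 [(.s k3 k171 13 (.s k1 k2 0 (.s k169 k253 13 (.d k86 k84 k252 0 14)))),
  (.s k3 k171 13 (.s k18 k33 4 (.s k86 k84 0 (.s k154 k222 9 (.d k16 k32 k223 3 10))))), (.s k84 k86
  0 (.s k117 k186 10 (.s k252 k168 13 (.s k116 k184 9 (.s k68 k100 3 (.d k119 k102 k118 4 0)))))),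
  (.s k3 k171 13 (.s k2 k1 0 (.s k18 k33 4 (.s k34 k50 3 (.s k17 k51 4 (.d k16 k32 k19 3 0))))))]
  (.c k32 (.q k239 [(.s k3 k171 13 (.s k1 k2 0 (.s k169 k253 13 (.d k86 k84 k252 0 14)))), (.s k86
  k84 0 (.s k223 k207 3 (.s k16 k154 10 (.s k19 k155 9 (.s k17 k18 0 (.d k153 k221 k220 9 10)))))),
  (.s k3 k171 13 (.s k18 k33 4 (.s k223 k207 3 (.s k16 k154 10 (.d k19 k17 k155 0 9)))))] .n) (.c
  k168 (.l (.s k86 k84 0 (.s k3 k171 13 (.s k169 k252 14 (.d k1 k2 k253 0 13))))) (.c k169 (.l (.s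
  k32 k16 3 (.s k84 k86 0 (.s k3 k171 13 (.s k168 k252 13 (.s k100 k236 9 (.s k204 k152 13 (.d k68
  k116 k136 3 9)))))))) (.c k171 (.l (.s k32 k16 3 (.s k84 k86 0 (.s k168 k252 13 (.s k100 k236 9
  (.s k204 k152 13 (.d k68 k116 k136 3 9))))))) (.c k239 (.l (.s k32 k16 3 (.s k3 k171 13 (.s k1 k2
  0 (.s k86 k84 0 (.d k169 k253 k252 13 14)))))) .n)))))) (.c k154 (.q k84 [(.s k86 k87 0 (.s k252
  k168 13 (.s k253 k254 0 (.d k169 k1 k3 13 14)))), (.s k16 k32 3 (.s k152 k220 9 (.s k100 k204 13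
  (.s k116 k68 3 (.d k252 k184 k168 9 13)))))] (.c k138 (.l (.s k186 k117 10 (.s k86 k87 0 (.s k252
  k168 13 (.s k169 k3 14 (.d k253 k254 k1 0 13)))))) (.c k168 (.l (.s k16 k32 3 (.s k86 k87 0 (.s
  k152 k220 9 (.s k100 k204 13 (.s k116 k68 3 (.s k101 k71 4 (.d k117 k69 k186 3 10)))))))) (.c k186
  (.q k138 [(.s k86 k87 0 (.s k252 k168 13 (.s k169 k3 14 (.d k253 k254 k1 0 13)))), (.s k69 k207 10
  (.s k101 k117 3 (.s k96 k111 2 (.s k192 k144 11 (.s k213 k234 6 (.d k149 k63 k21 14 7))))))] .n)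
  (.c k252 (.l (.s k16 k32 3 (.s k87 k86 0 (.s k3 k171 13 (.s k2 k1 0 (.s k18 k33 4 (.s k17 k19 0
  (.d k34 k50 k51 3 4)))))))) .n))))) .n))) (.c k127 (.q k48 [(.s k16 k32 3 (.s k117 k186 10 (.s
  k101 k69 3 (.d k154 k223 k207 10 14)))), (.s k16 k32 3 (.s k154 k223 10 (.s k58 k202 11 (.s k63
  k53 2 (.s k21 k42 6 (.d k149 k213 k192 7 14)))))), (.s k117 k186 10 (.s k101 k69 3 (.s k96 k111 2
  (.s k192 k144 11 (.s k149 k63 14 (.d k213 k234 k21 6 7))))))] (.c k101 (.q k149 [(.s k21 k213 7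
  (.d k63 k42 k192 6 14)), (.s k63 k192 14 (.s k58 k53 2 (.s k154 k202 11 (.d k16 k32 k223 3 10))))]
  (.c k32 (.q k239 [(.s k21 k213 7 (.d k63 k42 k192 6 14)), (.s k63 k192 14 (.s k58 k53 2 (.s k154
  k202 11 (.d k223 k207 k16 3 10))))] (.c k63 (.l (.s k213 k21 7 (.s k192 k234 6 (.s k144 k96 11 (.s
  k154 k159 2 (.d k223 k207 k16 3 10)))))) (.c k192 (.l (.s k21 k213 7 (.s k63 k42 6 (.s k58 k53 2
  (.s k154 k202 11 (.d k223 k207 k16 3 10)))))) .n))) (.c k63 (.l (.s k213 k21 7 (.s k192 k234 6 (.s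
  k144 k96 11 (.s k154 k159 2 (.d k16 k32 k223 3 10)))))) (.c k192 (.l (.s k21 k213 7 (.s k63 k42 6
  (.s k58 k53 2 (.s k154 k202 11 (.d k16 k32 k223 3 10)))))) (.c k239 (.l (.s k32 k16 3 (.s k21 k213
  7 (.d k63 k42 k192 6 14)))) .n))))) (.c k154 (.q k84 [(.s k252 k168 13 (.s k253 k254 0 (.s k169 k1
  13 (.d k86 k87 k3 0 14)))), (.s k16 k32 3 (.s k152 k220 9 (.s k100 k204 13 (.s k116 k68 3 (.d k252
  k184 k168 9 13)))))] (.c k138 (.l (.s k186 k117 10 (.s k86 k87 0 (.s k252 k168 13 (.s k169 k3 14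
  (.d k253 k254 k1 0 13)))))) (.c k168 (.l (.s k16 k32 3 (.s k86 k87 0 (.s k152 k220 9 (.s k100 k204
  13 (.s k116 k68 3 (.s k101 k71 4 (.d k117 k69 k186 3 10)))))))) (.c k186 (.q k138 [(.s k252 k168
  13 (.s k253 k254 0 (.s k169 k1 13 (.d k86 k87 k3 0 14)))), (.s k69 k207 10 (.s k101 k117 3 (.s k96
  k111 2 (.s k192 k144 11 (.s k213 k234 6 (.d k149 k63 k21 14 7))))))] .n) (.c k252 (.l (.s k16 k32
  3 (.s k87 k86 0 (.s k3 k171 13 (.s k2 k1 0 (.s k18 k33 4 (.s k17 k19 0 (.d k34 k50 k51 3 4))))))))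
  .n))))) .n))) (.c k128 (.l (.s k127 k64 6 (.s k63 k191 7 (.s k149 k192 14 (.d k21 k42 k213 6
  7))))) (.c k149 (.f k127 k64 6 (.q k90 [(.s k80 k95 2 (.s k240 k160 11 (.s k165 k15 14 (.d k245
  k250 k5 2 11)))), (.s k122 k74 3 (.s k117 k112 2 (.s k48 k186 10 (.s k16 k32 3 (.s k154 k223 10
  (.d k101 k69 k207 3 14))))))] (.c k80 (.l (.s k122 k74 3 (.s k112 k117 2 (.s k79 k101 6 (.s k95
  k111 3 (.s k15 k175 11 (.s k5 k10 2 (.d k165 k245 k240 11 14)))))))) (.c k128 (.l (.s k191 k63 7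
  (.s k80 k95 2 (.s k240 k160 11 (.s k165 k15 14 (.d k245 k250 k5 2 11)))))) (.c k191 (.q k128 [(.s
  k80 k95 2 (.s k240 k160 11 (.s k245 k250 2 (.d k165 k5 k15 11 14)))), (.s k122 k74 3 (.s k117 k112
  2 (.s k48 k186 10 (.s k16 k32 3 (.s k154 k223 10 (.d k101 k69 k207 3 14))))))] (.c k80 (.l (.s
  k122 k74 3 (.s k112 k117 2 (.s k79 k101 6 (.s k95 k111 3 (.s k15 k175 11 (.s k5 k10 2 (.d k165
  k245 k240 11 14)))))))) .n)) .n))))) (.c k191 (.l (.s k64 k127 6 (.s k192 k128 7 (.s k149 k63 14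
  (.d k213 k234 k21 6 7))))) (.c k192 (.q k1 [(.s k3 k2 0 (.s k169 k253 13 (.s k86 k252 14 (.d k87
  k84 k171 0 13)))), (.s k127 k64 6 (.s k63 k191 7 (.s k21 k42 6 (.s k61 k41 5 (.s k253 k169 13 (.s
  k125 k189 7 (.d k60 k190 k62 8 0))))))), (.s k3 k2 0 (.s k127 k64 6 (.s k63 k191 7 (.s k21 k42 6
  (.s k23 k43 5 (.s k22 k20 0 (.d k41 k61 k60 5 6)))))))] .n) (.c k213 (.q k1 [(.s k3 k2 0 (.s k169
  k253 13 (.s k86 k252 14 (.d k87 k84 k171 0 13)))), (.s k127 k64 6 (.s k63 k191 7 (.s k21 k42 6 (.s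
  k61 k41 5 (.s k60 k62 0 (.s k125 k190 8 (.d k253 k189 k169 7 13))))))), (.s k64 k127 6 (.s k169
  k253 13 (.s k192 k128 7 (.s k149 k63 14 (.s k129 k189 5 (.s k66 k3 8 (.d k65 k193 k67 7 0))))))),
  (.s k3 k2 0 (.s k64 k127 6 (.s k192 k128 7 (.s k66 k129 8 (.s k86 k126 5 (.d k87 k84 k171 0
  13))))))] .n) (.c k234 (.l (.s k127 k64 6 (.s k63 k191 7 (.s k21 k42 6 (.d k149 k213 k192 7
  14))))) .n))))))))))))

def t11_55 : T TT 256 :=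
  (.f k255 k170 14 (.q k106 [(.s k64 k127 6 (.s k192 k128 7 (.s k213 k234 6 (.d k149 k21 k63 7
  14))))] (.c k21 (.q k4 [(.s k12 k8 1 (.s k93 k174 12 (.s k89 k81 1 (.d k166 k247 k243 12 14)))),
  (.s k127 k64 6 (.s k63 k191 7 (.s k166 k247 12 (.s k46 k226 9 (.d k12 k8 k29 1 4))))), (.s k64
  k127 6 (.s k192 k128 7 (.s k213 k234 6 (.s k247 k166 12 (.s k196 k230 4 (.s k68 k132 7 (.d k204
  k136 k200 9 1))))))), (.s k12 k8 1 (.s k64 k127 6 (.s k192 k128 7 (.s k72 k132 9 (.s k89 k123 4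
  (.d k93 k81 k174 1 12))))))] .n) (.c k63 (.q k51 [(.s k17 k34 4 (.s k119 k187 9 (.s k102 k68 4 (.d
  k153 k221 k204 9 14)))), (.s k34 k17 4 (.s k64 k127 6 (.s k192 k128 7 (.s k98 k145 12 (.s k81 k115
  4 (.d k162 k226 k243 7 12)))))), (.s k64 k127 6 (.s k119 k187 9 (.s k102 k68 4 (.s k98 k110 1 (.d
  k192 k128 k145 7 12)))))] (.c k119 (.l (.s k17 k34 4 (.s k64 k127 6 (.s k153 k221 9 (.s k102 k204
  14 (.s k192 k128 7 (.d k98 k110 k145 1 12))))))) .n)) (.c k64 (.q k60 [(.s k20 k40 5 (.s k125 k190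
  8 (.s k150 k215 8 (.d k105 k65 k195 5 14)))), (.s k20 k40 5 (.s k150 k215 8 (.s k62 k194 13 (.s
  k63 k61 0 (.s k21 k42 6 (.d k149 k213 k192 7 14)))))), (.s k125 k190 8 (.s k105 k65 5 (.s k104
  k107 0 (.s k192 k148 13 (.s k149 k63 14 (.d k213 k234 k21 6 7))))))] (.c k105 (.q k87 [(.s k3 k171
  13 (.s k1 k2 0 (.s k169 k253 13 (.d k86 k84 k252 0 14)))), (.s k86 k84 0 (.s k126 k66 5 (.s k190
  k125 8 (.s k62 k254 7 (.s k150 k194 13 (.d k20 k40 k215 5 8)))))), (.s k3 k171 13 (.s k2 k1 0 (.s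
  k22 k41 6 (.s k42 k62 5 (.s k21 k63 6 (.d k20 k40 k23 5 0))))))] (.c k2 (.l (.s k3 k171 13 (.s k22
  k41 6 (.s k86 k84 0 (.s k150 k214 7 (.d k20 k40 k215 5 8)))))) (.c k40 (.q k235 [(.s k3 k171 13
  (.s k1 k2 0 (.s k169 k253 13 (.d k86 k84 k252 0 14)))), (.s k86 k84 0 (.s k126 k66 5 (.s k190 k125
  8 (.s k62 k254 7 (.s k150 k194 13 (.d k215 k195 k20 5 8)))))), (.s k3 k171 13 (.s k22 k41 6 (.s
  k215 k195 5 (.s k20 k150 8 (.d k23 k21 k151 0 7)))))] .n) (.c k235 (.l (.s k40 k20 5 (.s k3 k171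
  13 (.s k1 k2 0 (.s k86 k84 0 (.d k169 k253 k252 13 14)))))) .n)))) (.c k150 (.q k69 [(.s k101 k117
  3 (.s k207 k138 10 (.s k154 k48 14 (.d k223 k239 k16 3 10)))), (.s k101 k117 3 (.s k207 k138 10
  (.s k109 k158 12 (.s k105 k97 1 (.d k125 k190 k65 8 5))))), (.s k190 k125 8 (.s k207 k138 10 (.s
  k158 k109 12 (.s k174 k142 3 (.s k93 k12 12 (.d k223 k239 k28 3 8))))))] (.c k130 (.l (.s k190
  k125 8 (.s k101 k117 3 (.s k207 k138 10 (.s k154 k48 14 (.d k223 k239 k16 3 10)))))) (.c k138 (.l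
  (.s k117 k101 3 (.s k186 k48 10 (.s k190 k125 8 (.s k182 k178 1 (.s k243 k121 10 (.d k247 k52 k251
  8 1))))))) (.c k154 (.l (.s k20 k40 5 (.s k117 k101 3 (.s k48 k186 10 (.s k138 k207 10 (.s k52 k56
  1 (.s k4 k36 3 (.d k247 k166 k182 12 8)))))))) (.c k186 (.l (.s k101 k117 3 (.s k207 k138 10 (.s
  k154 k48 14 (.d k223 k239 k16 3 10))))) (.c k190 (.q k130 [(.s k101 k117 3 (.s k207 k138 10 (.s
  k154 k48 14 (.d k223 k239 k16 3 10)))), (.s k65 k195 8 (.s k77 k73 1 (.s k125 k105 5 (.s k109 k93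
  3 (.d k207 k138 k158 10 12))))), (.s k65 k195 8 (.s k77 k73 1 (.s k101 k117 3 (.s k89 k113 5 (.s
  k93 k81 1 (.d k125 k109 k105 3 5))))))] .n) (.c k207 (.l (.s k20 k40 5 (.s k117 k101 3 (.s k48
  k186 10 (.s k52 k56 1 (.s k4 k36 3 (.d k247 k166 k182 12 8))))))) .n))))))) .n))) (.c k127 (.q
  k195 [(.s k65 k130 8 (.s k215 k235 5 (.s k150 k20 8 (.d k105 k125 k60 5 14)))), (.s k65 k130 8 (.s
  k105 k125 5 (.s k107 k104 0 (.s k63 k151 13 (.s k21 k42 6 (.d k149 k213 k192 7 14)))))), (.s k215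
  k235 5 (.s k150 k20 8 (.s k194 k62 13 (.s k192 k193 0 (.s k149 k63 14 (.d k213 k234 k21 6 7))))))]
  (.c k105 (.q k81 [(.s k89 k93 1 (.s k243 k162 12 (.s k166 k12 14 (.d k247 k251 k4 1 12)))), (.s
  k65 k130 8 (.s k97 k113 3 (.s k48 k146 12 (.s k32 k16 3 (.d k162 k227 k243 8 12)))))] (.c k40 (.l
  (.s k235 k215 5 (.s k89 k93 1 (.s k243 k162 12 (.s k166 k12 14 (.d k247 k251 k4 1 12)))))) (.c
  k162 (.l (.s k65 k130 8 (.s k89 k93 1 (.s k97 k113 3 (.s k146 k48 12 (.s k211 k16 8 (.s k150 k28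
  10 (.d k215 k20 k235 8 5)))))))) (.c k235 (.q k40 [(.s k89 k93 1 (.s k243 k162 12 (.s k166 k12 14
  (.d k247 k251 k4 1 12)))), (.s k20 k60 5 (.s k150 k215 8 (.s k194 k62 13 (.s k192 k193 0 (.s k213
  k234 6 (.d k149 k63 k21 14 7))))))] .n) (.c k243 (.l (.s k65 k130 8 (.s k93 k89 1 (.s k12 k174 12
  (.s k8 k4 1 (.s k73 k134 10 (.s k69 k77 1 (.d k138 k203 k207 8 10)))))))) .n))))) (.c k150 (.q
  k199 [(.s k207 k203 1 (.s k69 k138 10 (.s k101 k117 3 (.s k154 k48 14 (.d k223 k239 k16 3 10))))),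
  (.s k215 k235 5 (.s k247 k231 3 (.s k4 k166 12 (.s k12 k8 1 (.d k134 k69 k73 8 10))))), (.s k207
  k203 1 (.s k215 k235 5 (.s k223 k239 3 (.s k219 k211 1 (.d k231 k247 k243 3 5))))), (.s k207 k203
  1 (.s k69 k138 10 (.s k4 k134 8 (.s k215 k235 5 (.d k247 k166 k231 12 3)))))] (.c k130 (.q k190
  [(.s k207 k203 1 (.s k69 k138 10 (.s k101 k117 3 (.s k154 k48 14 (.d k223 k239 k16 3 10))))), (.s
  k215 k235 5 (.s k247 k231 3 (.s k4 k166 12 (.s k12 k8 1 (.d k134 k69 k73 8 10))))), (.s k207 k203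
  1 (.s k215 k235 5 (.s k223 k239 3 (.s k219 k211 1 (.d k231 k247 k243 3 5))))), (.s k125 k60 8 (.s
  k65 k105 5 (.s k207 k203 1 (.s k69 k138 10 (.s k73 k77 1 (.d k134 k4 k12 8 10))))))] .n) (.c k190
  (.l (.s k130 k65 8 (.s k207 k203 1 (.s k69 k138 10 (.s k4 k134 8 (.s k215 k235 5 (.d k247 k166
  k231 12 3))))))) .n))) .n))) (.c k128 (.l (.s k127 k64 6 (.s k63 k191 7 (.s k149 k192 14 (.d k21
  k42 k213 6 7))))) (.c k149 (.f k64 k127 6 (.q k102 [(.s k68 k119 4 (.s k76 k72 1 (.s k98 k110 1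
  (.d k115 k81 k89 4 6)))), (.s k98 k110 1 (.s k119 k68 4 (.s k51 k187 9 (.d k192 k128 k145 7
  12)))), (.s k68 k119 4 (.s k204 k136 9 (.s k153 k51 14 (.d k221 k238 k17 4 9))))] (.c k68 (.l (.s
  k98 k110 1 (.s k81 k115 4 (.s k162 k243 12 (.s k34 k226 7 (.s k51 k17 4 (.d k192 k128 k145 7
  12))))))) (.c k119 (.l (.s k98 k110 1 (.s k115 k81 4 (.s k76 k89 6 (.s k68 k72 1 (.s k204 k136 9
  (.s k153 k51 14 (.d k221 k238 k17 4 9)))))))) (.c k128 (.q k191 [(.s k119 k68 4 (.s k51 k187 9 (.s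
  k17 k34 4 (.d k153 k221 k204 9 14)))), (.s k98 k110 1 (.s k81 k115 4 (.s k243 k162 12 (.s k247
  k251 1 (.s k166 k4 12 (.d k89 k93 k12 1 14))))))] (.c k119 (.l (.s k98 k110 1 (.s k115 k81 4 (.s
  k76 k89 6 (.s k68 k72 1 (.s k204 k136 9 (.s k153 k51 14 (.d k221 k238 k17 4 9)))))))) .n)) (.c
  k191 (.l (.s k128 k192 7 (.s k68 k119 4 (.s k76 k72 1 (.s k98 k110 1 (.d k115 k81 k89 4 6))))))
  .n)))))) (.c k191 (.l (.s k64 k127 6 (.s k192 k128 7 (.s k149 k63 14 (.d k213 k234 k21 6 7)))))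
  (.c k192 (.q k1 [(.s k3 k2 0 (.s k169 k253 13 (.s k86 k252 14 (.d k87 k84 k171 0 13)))), (.s k127
  k64 6 (.s k63 k191 7 (.s k21 k42 6 (.s k61 k41 5 (.s k253 k169 13 (.s k125 k189 7 (.d k60 k190 k62
  8 0))))))), (.s k3 k2 0 (.s k127 k64 6 (.s k63 k191 7 (.s k21 k42 6 (.s k23 k43 5 (.s k22 k20 0
  (.d k41 k61 k60 5 6)))))))] .n) (.c k213 (.q k1 [(.s k3 k2 0 (.s k169 k253 13 (.s k86 k252 14 (.d
  k87 k84 k171 0 13)))), (.s k127 k64 6 (.s k63 k191 7 (.s k21 k42 6 (.s k61 k41 5 (.s k60 k62 0 (.s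
  k125 k190 8 (.d k253 k189 k169 7 13))))))), (.s k64 k127 6 (.s k169 k253 13 (.s k192 k128 7 (.s
  k149 k63 14 (.s k129 k189 5 (.s k66 k3 8 (.d k65 k193 k67 7 0))))))), (.s k3 k2 0 (.s k64 k127 6
  (.s k192 k128 7 (.s k66 k129 8 (.s k86 k126 5 (.d k87 k84 k171 0 13))))))] .n) (.c k234 (.l (.s
  k127 k64 6 (.s k63 k191 7 (.s k21 k42 6 (.d k149 k213 k192 7 14))))) .n))))))))))))

def t11_56 : T TT 256 :=
  (.f k255 k170 14 (.q k21 [(.s k149 k213 7 (.s k63 k42 6 (.s k106 k192 14 (.d k127 k64 k191 6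
  7))))] (.c k26 (.q k41 [(.s k149 k213 7 (.s k63 k42 6 (.s k106 k192 14 (.d k127 k64 k191 6 7)))),
  (.s k1 k61 5 (.s k3 k2 0 (.s k87 k171 13 (.s k86 k84 0 (.d k169 k253 k252 13 14)))))] .n) (.c k41
  (.q k26 [(.s k149 k213 7 (.s k63 k42 6 (.s k106 k192 14 (.d k127 k64 k191 6 7)))), (.s k16 k31 2
  (.s k48 k32 3 (.s k117 k186 10 (.s k101 k69 3 (.d k154 k223 k207 10 14)))))] .n) (.c k42 (.q k41
  [(.s k1 k61 5 (.s k3 k2 0 (.s k169 k253 13 (.s k86 k252 14 (.d k87 k84 k171 0 13))))), (.s k1 k61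
  5 (.s k169 k253 13 (.s k105 k233 7 (.s k125 k65 5 (.s k60 k190 8 (.s k20 k40 5 (.d k150 k215 k195
  8 14))))))), (.s k1 k61 5 (.s k3 k2 0 (.s k22 k60 6 (.s k20 k23 0 (.s k150 k215 8 (.s k86 k214 7
  (.d k87 k84 k171 0 13)))))))] (.c k1 (.f k149 k213 7 (.q k4 [(.s k55 k38 4 (.s k102 k196 12 (.s
  k119 k68 4 (.d k247 k183 k166 7 12)))), (.s k12 k8 1 (.s k93 k174 12 (.s k89 k81 1 (.d k166 k247
  k243 12 14)))), (.s k12 k8 1 (.s k38 k55 4 (.s k25 k51 6 (.s k29 k17 1 (.s k89 k209 9 (.d k93 k81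
  k174 1 12))))))] (.c k106 (.q k234 [(.s k55 k38 4 (.s k102 k196 12 (.s k119 k68 4 (.d k247 k183
  k166 7 12)))), (.s k12 k8 1 (.s k93 k174 12 (.s k89 k81 1 (.d k166 k247 k243 12 14)))), (.s k12 k8
  1 (.s k38 k55 4 (.s k25 k51 6 (.s k29 k17 1 (.s k89 k209 9 (.d k93 k81 k174 1 12))))))] .n) (.c
  k234 (.q k106 [(.s k63 k192 14 (.d k127 k64 k191 6 7)), (.s k12 k8 1 (.s k93 k174 12 (.s k89 k81 1
  (.d k166 k247 k243 12 14))))] .n) .n)))) (.c k61 (.f k149 k213 7 (.q k101 [(.s k53 k197 11 (.s k5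
  k37 3 (.s k117 k69 3 (.d k245 k181 k165 7 11)))), (.s k69 k117 3 (.s k207 k138 10 (.s k154 k48 14
  (.d k223 k239 k16 3 10)))), (.s k53 k197 11 (.s k5 k37 3 (.s k15 k10 2 (.s k95 k175 11 (.s k90 k80
  2 (.d k165 k245 k240 11 14))))))] (.c k106 (.q k234 [(.s k53 k197 11 (.s k5 k37 3 (.s k117 k69 3
  (.d k245 k181 k165 7 11)))), (.s k69 k117 3 (.s k207 k138 10 (.s k154 k48 14 (.d k223 k239 k16 3
  10)))), (.s k53 k197 11 (.s k5 k37 3 (.s k15 k10 2 (.s k95 k175 11 (.s k90 k80 2 (.d k165 k245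
  k240 11 14))))))] .n) (.c k234 (.q k106 [(.s k63 k192 14 (.d k127 k64 k191 6 7)), (.s k53 k197 11
  (.s k5 k37 3 (.s k117 k69 3 (.d k245 k181 k165 7 11))))] .n) .n)))) (.c k106 (.q k234 [(.d k213
  k192 k149 6 7), (.s k1 k61 5 (.s k3 k2 0 (.s k87 k171 13 (.s k86 k84 0 (.d k169 k253 k252 13
  14)))))] .n) (.c k234 (.q k106 [(.s k64 k127 6 (.s k149 k213 7 (.d k192 k128 k63 7 14))), (.s k1
  k61 5 (.s k3 k2 0 (.s k87 k171 13 (.s k86 k84 0 (.d k169 k253 k252 13 14)))))] .n) .n))))) (.c k63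
  (.q k1 [(.s k3 k2 0 (.s k169 k253 13 (.s k86 k252 14 (.d k87 k84 k171 0 13)))), (.s k3 k2 0 (.s
  k41 k61 5 (.s k60 k22 6 (.s k20 k40 5 (.s k125 k190 8 (.s k105 k65 5 (.d k150 k215 k195 8
  14))))))), (.s k149 k213 7 (.s k169 k253 13 (.s k129 k189 5 (.s k193 k65 7 (.d k61 k41 k105 5
  13)))))] (.c k26 (.l (.s k41 k61 5 (.s k3 k2 0 (.s k87 k171 13 (.s k86 k84 0 (.d k169 k253 k252 13
  14)))))) (.c k41 (.q k26 [(.s k3 k2 0 (.s k169 k253 13 (.s k86 k252 14 (.d k87 k84 k171 0 13)))),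
  (.s k16 k31 2 (.s k48 k32 3 (.s k117 k186 10 (.s k101 k69 3 (.d k154 k223 k207 10 14)))))] .n)
  .n))) (.c k64 (.q k1 [(.s k3 k2 0 (.s k169 k253 13 (.s k86 k252 14 (.d k87 k84 k171 0 13)))), (.s
  k149 k213 7 (.s k169 k253 13 (.s k129 k189 5 (.s k193 k65 7 (.d k61 k41 k105 5 13))))), (.s k41
  k61 5 (.s k3 k2 0 (.s k22 k60 6 (.s k23 k20 0 (.d k63 k43 k42 5 6)))))] (.c k26 (.l (.s k41 k61 5
  (.s k3 k2 0 (.s k22 k60 6 (.s k23 k20 0 (.d k63 k43 k42 5 6)))))) (.c k41 (.q k26 [(.s k3 k2 0 (.s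
  k169 k253 13 (.s k86 k252 14 (.d k87 k84 k171 0 13)))), (.s k16 k31 2 (.s k42 k63 6 (.s k10 k58 3
  (.s k15 k5 2 (.d k48 k32 k37 3 6)))))] .n) .n))) (.c k106 (.f k42 k63 6 (.f k149 k213 7 (.q k1
  [(.s k3 k2 0 (.s k41 k61 5 (.s k60 k22 6 (.d k40 k43 k20 0 5)))), (.s k169 k253 13 (.s k129 k189 5
  (.s k193 k65 7 (.d k61 k41 k105 5 13))))] (.c k26 (.l (.s k41 k61 5 (.s k3 k2 0 (.s k40 k43 0 (.d
  k60 k20 k22 5 6))))) (.c k41 (.q k26 [(.s k3 k2 0 (.s k87 k171 13 (.s k86 k84 0 (.d k169 k253 k252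
  13 14)))), (.s k10 k58 3 (.s k15 k5 2 (.s k16 k31 2 (.d k48 k32 k37 3 6))))] .n) (.c k61 (.l (.s
  k3 k2 0 (.s k87 k171 13 (.s k86 k84 0 (.d k169 k253 k252 13 14))))) .n)))))) (.c k127 (.q k61 [(.s
  k149 k213 7 (.s k105 k193 13 (.s k125 k65 5 (.s k253 k189 7 (.d k1 k41 k169 5 13))))), (.s k41 k1
  5 (.s k63 k42 6 (.s k60 k62 0 (.s k22 k3 6 (.d k20 k23 k40 0 5)))))] (.c k1 (.l (.s k63 k42 6 (.s
  k60 k62 0 (.s k125 k190 8 (.s k105 k65 5 (.d k149 k193 k213 13 7)))))) (.c k26 (.l (.s k41 k1 5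
  (.s k63 k42 6 (.s k60 k62 0 (.s k20 k40 5 (.d k22 k23 k3 0 6)))))) (.c k41 (.q k26 [(.s k16 k31 2
  (.s k42 k63 6 (.s k10 k58 3 (.s k15 k5 2 (.d k48 k32 k37 3 6))))), (.s k63 k42 6 (.s k60 k62 0 (.s
  k125 k190 8 (.s k105 k65 5 (.d k149 k213 k193 7 13))))), (.s k16 k31 2 (.s k48 k32 3 (.s k117 k186
  10 (.s k101 k69 3 (.d k154 k223 k207 10 14)))))] .n) .n)))) (.c k149 (.q k1 [(.s k3 k2 0 (.s k169
  k253 13 (.s k86 k252 14 (.d k87 k84 k171 0 13)))), (.s k41 k61 5 (.s k42 k63 6 (.s k40 k43 0 (.s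
  k60 k20 5 (.d k3 k2 k22 0 6)))))] (.c k2 (.l (.s k41 k61 5 (.s k42 k63 6 (.s k40 k43 0 (.s k60 k20
  5 (.s k125 k190 8 (.s k105 k65 5 (.d k169 k233 k253 7 13)))))))) (.c k3 (.l (.s k63 k42 6 (.s k253
  k169 13 (.s k252 k254 0 (.s k189 k126 8 (.d k61 k41 k125 5 7)))))) (.c k26 (.l (.s k41 k61 5 (.s
  k3 k2 0 (.s k22 k60 6 (.s k23 k20 0 (.d k63 k43 k42 5 6)))))) (.c k41 (.q k26 [(.s k3 k2 0 (.s
  k169 k253 13 (.s k86 k252 14 (.d k87 k84 k171 0 13)))), (.s k16 k31 2 (.s k42 k63 6 (.s k10 k58 3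
  (.s k15 k5 2 (.d k48 k32 k37 3 6)))))] (.c k128 (.q k191 [(.d k63 k42 k127 6 7), (.s k3 k2 0 (.s
  k87 k171 13 (.s k86 k84 0 (.d k169 k253 k252 13 14))))] .n) (.c k191 (.q k128 [(.s k3 k2 0 (.s
  k169 k253 13 (.s k86 k252 14 (.d k87 k84 k171 0 13)))), (.s k16 k31 2 (.s k42 k63 6 (.s k10 k58 3
  (.s k15 k5 2 (.d k48 k32 k37 3 6)))))] .n) .n))) (.c k128 (.q k191 [(.d k63 k42 k127 6 7), (.s k3
  k2 0 (.s k87 k171 13 (.s k86 k84 0 (.d k169 k253 k252 13 14))))] (.c k26 (.l (.s k41 k61 5 (.d k63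
  k42 k127 6 7))) (.c k41 (.q k26 [(.d k63 k42 k127 6 7), (.s k3 k2 0 (.s k87 k171 13 (.s k86 k84 0
  (.d k169 k253 k252 13 14))))] .n) .n))) (.c k191 (.q k128 [(.s k3 k2 0 (.s k169 k253 13 (.s k86
  k252 14 (.d k87 k84 k171 0 13)))), (.s k41 k61 5 (.s k42 k63 6 (.s k43 k40 0 (.s k64 k192 7 (.s
  k106 k127 6 (.d k169 k232 k253 8 13)))))), (.s k41 k61 5 (.s k3 k2 0 (.s k22 k60 6 (.s k23 k20 0
  (.d k63 k43 k42 5 6)))))] (.c k26 (.l (.s k41 k61 5 (.s k3 k2 0 (.s k22 k60 6 (.s k23 k20 0 (.d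
  k63 k43 k42 5 6)))))) (.c k41 (.q k26 [(.s k3 k2 0 (.s k169 k253 13 (.s k86 k252 14 (.d k87 k84
  k171 0 13)))), (.s k16 k31 2 (.s k42 k63 6 (.s k10 k58 3 (.s k15 k5 2 (.d k48 k32 k37 3 6)))))]
  .n) .n))) .n))))))) (.c k191 (.f k149 k213 7 (.q k1 [(.s k169 k253 13 (.s k129 k189 5 (.s k193 k65
  7 (.d k61 k41 k105 5 13)))), (.s k41 k61 5 (.s k3 k2 0 (.s k22 k60 6 (.s k23 k20 0 (.d k63 k43 k42
  5 6)))))] (.c k26 (.l (.s k41 k61 5 (.s k3 k2 0 (.s k22 k60 6 (.s k23 k20 0 (.d k63 k43 k42 5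
  6)))))) (.c k41 (.q k26 [(.s k3 k2 0 (.s k169 k253 13 (.s k86 k252 14 (.d k87 k84 k171 0 13)))),
  (.s k16 k31 2 (.s k42 k63 6 (.s k10 k58 3 (.s k15 k5 2 (.d k48 k32 k37 3 6)))))] .n) (.c k61 (.l
  (.s k3 k2 0 (.s k87 k171 13 (.s k86 k84 0 (.d k169 k253 k252 13 14))))) .n))))) (.c k192 (.q k1
  [(.s k149 k213 7 (.s k169 k253 13 (.s k129 k189 5 (.s k193 k65 7 (.d k61 k41 k105 5 13))))), (.s
  k41 k61 5 (.s k3 k2 0 (.s k22 k60 6 (.s k23 k20 0 (.d k63 k43 k42 5 6)))))] (.c k26 (.l (.s k41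
  k61 5 (.s k3 k2 0 (.s k22 k60 6 (.s k23 k20 0 (.d k63 k43 k42 5 6)))))) (.c k41 (.q k26 [(.s k3 k2
  0 (.s k169 k253 13 (.s k86 k252 14 (.d k87 k84 k171 0 13)))), (.s k16 k31 2 (.s k42 k63 6 (.s k10
  k58 3 (.s k15 k5 2 (.d k48 k32 k37 3 6)))))] .n) (.c k61 (.l (.s k3 k2 0 (.s k87 k171 13 (.s k86
  k84 0 (.d k169 k253 k252 13 14))))) .n)))) (.c k213 (.q k1 [(.s k3 k2 0 (.s k169 k253 13 (.s k86
  k252 14 (.d k87 k84 k171 0 13)))), (.s k41 k61 5 (.s k42 k63 6 (.s k40 k43 0 (.s k60 k20 5 (.d k3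
  k2 k22 0 6)))))] (.c k2 (.l (.s k41 k61 5 (.s k42 k63 6 (.s k40 k43 0 (.s k60 k20 5 (.s k125 k190
  8 (.s k105 k65 5 (.d k169 k233 k253 7 13)))))))) (.c k3 (.l (.s k63 k42 6 (.s k253 k169 13 (.s
  k252 k254 0 (.s k189 k126 8 (.d k61 k41 k125 5 7)))))) (.c k26 (.l (.s k41 k61 5 (.s k3 k2 0 (.s
  k22 k60 6 (.s k23 k20 0 (.d k63 k43 k42 5 6)))))) (.c k41 (.q k26 [(.s k3 k2 0 (.s k169 k253 13
  (.s k86 k252 14 (.d k87 k84 k171 0 13)))), (.s k16 k31 2 (.s k42 k63 6 (.s k10 k58 3 (.s k15 k5 2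
  (.d k48 k32 k37 3 6)))))] .n) .n))))) (.c k234 (.l (.s k149 k213 7 (.s k63 k42 6 (.s k106 k192 14
  (.d k127 k64 k191 6 7))))) .n))))))))))))))

def t11_57 : T TT 256 :=
  (.f k255 k170 14 (.q k106 [(.s k64 k127 6 (.s k192 k128 7 (.s k149 k63 14 (.d k213 k234 k21 6
  7))))] (.c k21 (.q k1 [(.s k3 k2 0 (.s k169 k253 13 (.s k86 k252 14 (.d k87 k84 k171 0 13)))), (.s
  k64 k127 6 (.s k192 k128 7 (.s k213 k234 6 (.s k253 k169 13 (.s k193 k233 5 (.s k65 k129 7 (.d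
  k195 k130 k194 8 0))))))), (.s k3 k2 0 (.s k64 k127 6 (.s k192 k128 7 (.s k66 k129 8 (.s k86 k126
  5 (.d k87 k84 k171 0 13))))))] (.c k171 (.l (.s k3 k2 0 (.s k127 k64 6 (.s k63 k191 7 (.s k43 k23
  5 (.d k169 k232 k253 8 13)))))) .n)) (.c k63 (.q k1 [(.s k3 k2 0 (.s k169 k253 13 (.s k86 k252 14
  (.d k87 k84 k171 0 13)))), (.s k64 k127 6 (.s k192 k128 7 (.s k213 k234 6 (.s k253 k169 13 (.s
  k193 k233 5 (.s k65 k129 7 (.d k195 k130 k194 8 0))))))), (.s k64 k127 6 (.s k169 k253 13 (.s k192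
  k128 7 (.s k232 k43 8 (.s k252 k212 5 (.s k84 k168 13 (.d k86 k3 k87 14 0))))))), (.s k3 k2 0 (.s
  k64 k127 6 (.s k192 k128 7 (.s k66 k129 8 (.s k86 k126 5 (.d k87 k84 k171 0 13))))))] .n) (.c k64
  (.q k48 [(.s k16 k32 3 (.s k117 k186 10 (.s k154 k223 10 (.d k101 k69 k207 3 14)))), (.s k16 k32 3
  (.s k154 k223 10 (.s k58 k202 11 (.s k63 k53 2 (.s k21 k42 6 (.d k149 k213 k192 7 14)))))), (.s
  k117 k186 10 (.s k101 k69 3 (.s k96 k111 2 (.s k192 k144 11 (.s k149 k63 14 (.d k213 k234 k21 6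
  7))))))] (.c k101 (.q k87 [(.s k3 k171 13 (.s k1 k2 0 (.s k169 k253 13 (.d k86 k84 k252 0 14)))),
  (.s k3 k171 13 (.s k18 k33 4 (.s k86 k84 0 (.s k154 k222 9 (.d k16 k32 k223 3 10))))), (.s k84 k86
  0 (.s k117 k186 10 (.s k252 k168 13 (.s k116 k184 9 (.s k68 k100 3 (.d k119 k102 k118 4 0)))))),
  (.s k3 k171 13 (.s k2 k1 0 (.s k18 k33 4 (.s k34 k50 3 (.s k17 k51 4 (.d k16 k32 k19 3 0))))))]
  (.c k32 (.q k239 [(.s k3 k171 13 (.s k1 k2 0 (.s k169 k253 13 (.d k86 k84 k252 0 14)))), (.s k86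
  k84 0 (.s k223 k207 3 (.s k16 k154 10 (.s k19 k155 9 (.s k17 k18 0 (.d k153 k221 k220 9 10)))))),
  (.s k3 k171 13 (.s k18 k33 4 (.s k223 k207 3 (.s k16 k154 10 (.d k19 k17 k155 0 9)))))] .n) (.c
  k168 (.l (.s k86 k84 0 (.s k3 k171 13 (.s k169 k252 14 (.d k1 k2 k253 0 13))))) (.c k169 (.l (.s
  k32 k16 3 (.s k84 k86 0 (.s k3 k171 13 (.s k168 k252 13 (.s k100 k236 9 (.s k204 k152 13 (.d k68
  k116 k136 3 9)))))))) (.c k171 (.l (.s k32 k16 3 (.s k84 k86 0 (.s k168 k252 13 (.s k100 k236 9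
  (.s k204 k152 13 (.d k68 k116 k136 3 9))))))) (.c k239 (.l (.s k32 k16 3 (.s k3 k171 13 (.s k1 k2
  0 (.s k86 k84 0 (.d k169 k253 k252 13 14)))))) .n)))))) (.c k154 (.q k84 [(.s k86 k87 0 (.s k252
  k168 13 (.s k253 k254 0 (.d k169 k1 k3 13 14)))), (.s k16 k32 3 (.s k152 k220 9 (.s k100 k204 13
  (.s k116 k68 3 (.d k252 k184 k168 9 13)))))] (.c k138 (.l (.s k186 k117 10 (.s k86 k87 0 (.s k252
  k168 13 (.s k169 k3 14 (.d k253 k254 k1 0 13)))))) (.c k168 (.l (.s k16 k32 3 (.s k86 k87 0 (.s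
  k152 k220 9 (.s k100 k204 13 (.s k116 k68 3 (.s k101 k71 4 (.d k117 k69 k186 3 10)))))))) (.c k186
  (.q k138 [(.s k86 k87 0 (.s k252 k168 13 (.s k169 k3 14 (.d k253 k254 k1 0 13)))), (.s k69 k207 10
  (.s k101 k117 3 (.s k96 k111 2 (.s k192 k144 11 (.s k213 k234 6 (.d k149 k63 k21 14 7))))))] .n)
  (.c k252 (.l (.s k16 k32 3 (.s k87 k86 0 (.s k3 k171 13 (.s k2 k1 0 (.s k18 k33 4 (.s k17 k19 0
  (.d k34 k50 k51 3 4)))))))) .n))))) .n))) (.c k127 (.q k48 [(.s k16 k32 3 (.s k117 k186 10 (.s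
  k101 k69 3 (.d k154 k223 k207 10 14)))), (.s k16 k32 3 (.s k154 k223 10 (.s k58 k202 11 (.s k63
  k53 2 (.s k21 k42 6 (.d k149 k213 k192 7 14)))))), (.s k117 k186 10 (.s k101 k69 3 (.s k96 k111 2
  (.s k192 k144 11 (.s k149 k63 14 (.d k213 k234 k21 6 7))))))] (.c k101 (.q k149 [(.s k21 k213 7
  (.d k63 k42 k192 6 14)), (.s k63 k192 14 (.s k58 k53 2 (.s k154 k202 11 (.d k16 k32 k223 3 10))))]
  (.c k32 (.q k239 [(.s k21 k213 7 (.d k63 k42 k192 6 14)), (.s k63 k192 14 (.s k58 k53 2 (.s k154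
  k202 11 (.d k223 k207 k16 3 10))))] (.c k63 (.l (.s k213 k21 7 (.s k192 k234 6 (.s k144 k96 11 (.s
  k154 k159 2 (.d k223 k207 k16 3 10)))))) (.c k192 (.l (.s k21 k213 7 (.s k63 k42 6 (.s k58 k53 2
  (.s k154 k202 11 (.d k223 k207 k16 3 10)))))) .n))) (.c k63 (.l (.s k213 k21 7 (.s k192 k234 6 (.s
  k144 k96 11 (.s k154 k159 2 (.d k16 k32 k223 3 10)))))) (.c k192 (.l (.s k21 k213 7 (.s k63 k42 6
  (.s k58 k53 2 (.s k154 k202 11 (.d k16 k32 k223 3 10)))))) (.c k239 (.l (.s k32 k16 3 (.s k21 k213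
  7 (.d k63 k42 k192 6 14)))) .n))))) (.c k154 (.q k84 [(.s k252 k168 13 (.s k253 k254 0 (.s k169 k1
  13 (.d k86 k87 k3 0 14)))), (.s k16 k32 3 (.s k152 k220 9 (.s k100 k204 13 (.s k116 k68 3 (.d k252
  k184 k168 9 13)))))] (.c k138 (.l (.s k186 k117 10 (.s k86 k87 0 (.s k252 k168 13 (.s k169 k3 14
  (.d k253 k254 k1 0 13)))))) (.c k168 (.l (.s k16 k32 3 (.s k86 k87 0 (.s k152 k220 9 (.s k100 k204
  13 (.s k116 k68 3 (.s k101 k71 4 (.d k117 k69 k186 3 10)))))))) (.c k186 (.q k138 [(.s k252 k168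
  13 (.s k253 k254 0 (.s k169 k1 13 (.d k86 k87 k3 0 14)))), (.s k69 k207 10 (.s k101 k117 3 (.s k96
  k111 2 (.s k192 k144 11 (.s k213 k234 6 (.d k149 k63 k21 14 7))))))] .n) (.c k252 (.l (.s k16 k32
  3 (.s k87 k86 0 (.s k3 k171 13 (.s k2 k1 0 (.s k18 k33 4 (.s k17 k19 0 (.d k34 k50 k51 3 4))))))))
  .n))))) .n))) (.c k128 (.l (.s k127 k64 6 (.s k63 k191 7 (.s k149 k192 14 (.d k21 k42 k213 6
  7))))) (.c k149 (.f k127 k64 6 (.q k90 [(.s k80 k95 2 (.s k240 k160 11 (.s k165 k15 14 (.d k245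
  k250 k5 2 11)))), (.s k122 k74 3 (.s k117 k112 2 (.s k48 k186 10 (.s k16 k32 3 (.s k154 k223 10
  (.d k101 k69 k207 3 14))))))] (.c k80 (.l (.s k122 k74 3 (.s k112 k117 2 (.s k79 k101 6 (.s k95
  k111 3 (.s k15 k175 11 (.s k5 k10 2 (.d k165 k245 k240 11 14)))))))) (.c k128 (.l (.s k191 k63 7
  (.s k80 k95 2 (.s k240 k160 11 (.s k165 k15 14 (.d k245 k250 k5 2 11)))))) (.c k191 (.q k128 [(.s
  k80 k95 2 (.s k240 k160 11 (.s k245 k250 2 (.d k165 k5 k15 11 14)))), (.s k122 k74 3 (.s k117 k112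
  2 (.s k48 k186 10 (.s k16 k32 3 (.s k154 k223 10 (.d k101 k69 k207 3 14))))))] (.c k80 (.l (.s
  k122 k74 3 (.s k112 k117 2 (.s k79 k101 6 (.s k95 k111 3 (.s k15 k175 11 (.s k5 k10 2 (.d k165
  k245 k240 11 14)))))))) .n)) .n))))) (.c k191 (.l (.s k64 k127 6 (.s k192 k128 7 (.s k149 k63 14
  (.d k213 k234 k21 6 7))))) (.c k192 (.q k1 [(.s k3 k2 0 (.s k169 k253 13 (.s k86 k252 14 (.d k87
  k84 k171 0 13)))), (.s k127 k64 6 (.s k63 k191 7 (.s k21 k42 6 (.s k61 k41 5 (.s k253 k169 13 (.s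
  k125 k189 7 (.d k60 k190 k62 8 0))))))), (.s k3 k2 0 (.s k127 k64 6 (.s k63 k191 7 (.s k21 k42 6
  (.s k23 k43 5 (.s k22 k20 0 (.d k41 k61 k60 5 6)))))))] .n) (.c k213 (.q k1 [(.s k3 k2 0 (.s k169
  k253 13 (.s k86 k252 14 (.d k87 k84 k171 0 13)))), (.s k127 k64 6 (.s k63 k191 7 (.s k21 k42 6 (.s
  k61 k41 5 (.s k60 k62 0 (.s k125 k190 8 (.d k253 k189 k169 7 13))))))), (.s k64 k127 6 (.s k169
  k253 13 (.s k192 k128 7 (.s k149 k63 14 (.s k129 k189 5 (.s k66 k3 8 (.d k65 k193 k67 7 0))))))),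
  (.s k3 k2 0 (.s k64 k127 6 (.s k192 k128 7 (.s k66 k129 8 (.s k86 k126 5 (.d k87 k84 k171 0
  13))))))] .n) (.c k234 (.l (.s k127 k64 6 (.s k63 k191 7 (.s k21 k42 6 (.d k149 k213 k192 7
  14))))) .n))))))))))))

def t11_58 : T TT 256 :=
  (.f k255 k170 14 (.q k105 [(.s k65 k125 5 (.s k195 k130 8 (.s k150 k60 14 (.d k215 k235 k20 5
  8))))] (.c k20 (.q k1 [(.s k3 k2 0 (.s k169 k253 13 (.s k86 k252 14 (.d k87 k84 k171 0 13)))), (.s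
  k65 k125 5 (.s k169 k253 13 (.s k41 k233 7 (.s k61 k21 5 (.d k193 k129 k149 7 13))))), (.s k3 k2 0
  (.s k65 k125 5 (.s k129 k193 7 (.s k66 k192 8 (.s k67 k64 0 (.d k195 k131 k130 7 8))))))] .n) (.c
  k60 (.q k1 [(.s k3 k2 0 (.s k169 k253 13 (.s k86 k252 14 (.d k87 k84 k171 0 13)))), (.s k65 k125 5
  (.s k169 k253 13 (.s k41 k233 7 (.s k61 k21 5 (.d k193 k129 k149 7 13))))), (.s k3 k2 0 (.s k65
  k125 5 (.s k129 k193 7 (.s k66 k192 8 (.s k67 k64 0 (.d k195 k131 k130 7 8))))))] .n) (.c k65 (.q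
  k84 [(.s k86 k87 0 (.s k252 k168 13 (.s k253 k254 0 (.d k169 k1 k3 13 14)))), (.s k86 k87 0 (.s
  k124 k67 6 (.s k64 k104 5 (.s k192 k128 7 (.s k213 k234 6 (.s k149 k21 7 (.d k106 k127 k63 6
  14)))))))] (.c k86 (.f k252 k168 13 (.q k169 [(.d k253 k254 k1 0 13), (.s k233 k41 7 (.s k195 k214
  6 (.s k150 k60 14 (.d k215 k235 k20 5 8))))] (.c k2 (.l (.s k254 k253 0 (.s k233 k41 7 (.s k195
  k214 6 (.s k150 k60 14 (.d k215 k235 k20 5 8)))))) (.c k254 (.q k2 [(.d k1 k3 k253 0 13), (.s k233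
  k41 7 (.s k195 k214 6 (.s k215 k235 5 (.d k150 k20 k60 8 14))))] .n) .n)))) (.c k87 (.l (.s k252
  k168 13 (.s k253 k254 0 (.s k169 k1 13 (.s k233 k41 7 (.s k195 k214 6 (.s k150 k60 14 (.d k215
  k235 k20 5 8)))))))) .n))) (.c k125 (.q k84 [(.s k86 k87 0 (.s k252 k168 13 (.s k253 k254 0 (.d
  k169 k1 k3 13 14)))), (.s k86 k87 0 (.s k124 k67 6 (.s k64 k104 5 (.s k192 k128 7 (.s k213 k234 6
  (.s k149 k21 7 (.d k106 k127 k63 6 14)))))))] (.c k86 (.f k252 k168 13 (.q k169 [(.d k253 k254 k1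
  0 13), (.s k233 k41 7 (.s k195 k214 6 (.s k150 k60 14 (.d k215 k235 k20 5 8))))] (.c k2 (.l (.s
  k254 k253 0 (.s k233 k41 7 (.s k195 k214 6 (.s k150 k60 14 (.d k215 k235 k20 5 8)))))) (.c k254
  (.q k2 [(.d k1 k3 k253 0 13), (.s k233 k41 7 (.s k195 k214 6 (.s k215 k235 5 (.d k150 k20 k60 8
  14))))] .n) .n)))) (.c k87 (.l (.s k252 k168 13 (.s k253 k254 0 (.s k169 k1 13 (.s k233 k41 7 (.s
  k195 k214 6 (.s k150 k60 14 (.d k215 k235 k20 5 8)))))))) .n))) (.c k130 (.l (.s k125 k65 5 (.s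
  k60 k190 8 (.s k150 k195 14 (.d k20 k40 k215 5 8))))) (.c k150 (.f k125 k65 5 (.q k86 [(.s k84 k87
  0 (.s k124 k67 6 (.s k64 k104 5 (.d k127 k126 k106 0 6)))), (.s k84 k87 0 (.s k252 k168 13 (.s
  k169 k3 14 (.d k253 k254 k1 0 13)))), (.s k124 k67 6 (.s k127 k126 0 (.s k63 k191 7 (.s k21 k42 6
  (.s k149 k213 7 (.d k106 k64 k192 6 14))))))] (.c k130 (.l (.s k190 k60 8 (.s k84 k87 0 (.s k124
  k67 6 (.s k64 k104 5 (.d k127 k126 k106 0 6)))))) (.c k190 (.q k130 [(.s k84 k87 0 (.s k124 k67 6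
  (.s k64 k104 5 (.d k127 k126 k106 0 6)))), (.s k84 k87 0 (.s k252 k168 13 (.s k169 k3 14 (.d k253
  k254 k1 0 13)))), (.s k124 k67 6 (.s k127 k126 0 (.s k63 k191 7 (.s k21 k42 6 (.s k149 k213 7 (.d
  k106 k64 k192 6 14))))))] .n) .n)))) (.c k190 (.l (.s k65 k125 5 (.s k195 k130 8 (.s k150 k60 14
  (.d k215 k235 k20 5 8))))) (.c k195 (.q k1 [(.s k3 k2 0 (.s k169 k253 13 (.s k86 k252 14 (.d k87
  k84 k171 0 13)))), (.s k3 k2 0 (.s k125 k65 5 (.s k60 k190 8 (.s k40 k20 5 (.s k41 k22 6 (.s k21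
  k61 5 (.d k42 k43 k63 0 6))))))), (.s k65 k125 5 (.s k169 k253 13 (.s k41 k233 7 (.s k61 k21 5 (.d
  k193 k129 k149 7 13)))))] .n) (.c k215 (.q k1 [(.s k3 k2 0 (.s k169 k253 13 (.s k86 k252 14 (.d
  k87 k84 k171 0 13)))), (.s k65 k125 5 (.s k169 k253 13 (.s k41 k233 7 (.s k61 k21 5 (.d k193 k129
  k149 7 13))))), (.s k3 k2 0 (.s k65 k125 5 (.s k129 k193 7 (.s k66 k192 8 (.s k67 k64 0 (.d k195
  k131 k130 7 8))))))] .n) (.c k235 (.l (.s k125 k65 5 (.s k60 k190 8 (.s k20 k40 5 (.d k150 k215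
  k195 8 14))))) .n))))))))))))

def t11_59 : T TT 256 :=
  (.f k255 k170 14 (.q k106 [(.s k64 k127 6 (.s k192 k128 7 (.s k213 k234 6 (.d k149 k21 k63 7
  14))))] (.c k21 (.q k43 [(.s k127 k64 6 (.s k63 k191 7 (.s k169 k232 8 (.s k1 k253 13 (.d k3 k2
  k23 0 5))))), (.s k169 k232 8 (.s k253 k1 13 (.s k252 k254 0 (.s k86 k3 14 (.d k84 k87 k168 0
  13))))), (.s k127 k64 6 (.s k63 k191 7 (.s k3 k23 5 (.s k87 k171 13 (.s k86 k84 0 (.d k169 k232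
  k252 8 14))))))] (.c k3 (.l (.s k127 k64 6 (.s k63 k191 7 (.s k149 k192 14 (.s k169 k232 8 (.s
  k253 k1 13 (.s k252 k254 0 (.d k189 k129 k126 5 8)))))))) (.c k169 (.f k127 k64 6 (.l (.s k63 k191
  7 (.s k3 k23 5 (.s k171 k87 13 (.s k107 k235 7 (.s k105 k104 0 (.s k65 k125 5 (.d k195 k151 k130
  13 8))))))))) (.c k232 (.l (.s k127 k64 6 (.s k63 k191 7 (.s k3 k23 5 (.s k1 k2 0 (.s k87 k171 13
  (.s k86 k84 0 (.d k169 k253 k252 13 14)))))))) .n)))) (.c k27 (.q k43 [(.s k64 k127 6 (.s k192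
  k128 7 (.s k213 k234 6 (.d k149 k21 k63 7 14)))), (.s k169 k232 8 (.s k1 k253 13 (.s k3 k2 0 (.s
  k86 k252 14 (.d k87 k84 k171 0 13)))))] (.c k192 (.l (.s k127 k64 6 (.s k63 k191 7 (.s k3 k23 5
  (.s k1 k2 0 (.d k169 k232 k253 8 13)))))) .n)) (.c k43 (.q k27 [(.s k64 k127 6 (.s k192 k128 7 (.s
  k213 k234 6 (.d k149 k21 k63 7 14))))] (.c k21 (.q k1 [(.s k3 k2 0 (.s k169 k253 13 (.s k86 k252
  14 (.d k87 k84 k171 0 13)))), (.s k64 k127 6 (.s k192 k128 7 (.s k213 k234 6 (.s k253 k169 13 (.s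
  k193 k233 5 (.s k65 k129 7 (.d k195 k130 k194 8 0))))))), (.s k3 k2 0 (.s k64 k127 6 (.s k192 k128
  7 (.s k66 k129 8 (.s k86 k126 5 (.d k87 k84 k171 0 13))))))] (.c k171 (.l (.s k3 k2 0 (.s k64 k127
  6 (.s k169 k253 13 (.s k86 k252 14 (.s k66 k126 5 (.d k192 k128 k129 7 8))))))) .n)) (.c k63 (.f
  k64 k127 6 (.q k3 [(.s k1 k2 0 (.s k169 k253 13 (.s k86 k252 14 (.d k87 k84 k171 0 13)))), (.s k2
  k1 0 (.s k192 k128 7 (.s k66 k129 8 (.s k65 k67 0 (.d k130 k194 k195 7 8))))), (.s k87 k171 13 (.s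
  k86 k84 0 (.s k66 k126 5 (.d k192 k128 k129 7 8))))] (.c k51 (.q k55 [(.s k1 k2 0 (.s k169 k253 13
  (.s k86 k252 14 (.d k87 k84 k171 0 13)))), (.s k2 k1 0 (.s k192 k128 7 (.s k66 k129 8 (.s k65 k67
  0 (.d k130 k194 k195 7 8))))), (.s k87 k171 13 (.s k86 k84 0 (.s k66 k126 5 (.d k192 k128 k129 7
  8))))] (.c k87 (.l (.s k1 k2 0 (.s k169 k253 13 (.s k86 k252 14 (.s k192 k128 7 (.d k66 k126 k129
  5 8)))))) .n)) (.c k55 (.q k51 [(.s k1 k2 0 (.s k169 k253 13 (.s k86 k252 14 (.d k87 k84 k171 0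
  13)))), (.s k17 k34 4 (.s k119 k187 9 (.s k102 k68 4 (.d k153 k221 k204 9 14))))] .n) (.c k87 (.l
  (.s k1 k2 0 (.s k169 k253 13 (.s k86 k252 14 (.s k192 k128 7 (.d k66 k126 k129 5 8)))))) .n)))))
  (.c k64 (.q k15 [(.s k95 k175 11 (.s k90 k80 2 (.s k165 k240 14 (.d k5 k10 k245 2 11)))), (.s k51
  k39 5 (.s k17 k34 4 (.s k119 k187 9 (.s k102 k68 4 (.d k153 k221 k204 9 14)))))] .n) (.c k127 (.q
  k15 [(.s k95 k175 11 (.s k90 k80 2 (.s k165 k240 14 (.d k5 k10 k245 2 11)))), (.s k51 k39 5 (.s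
  k17 k34 4 (.s k119 k187 9 (.s k102 k68 4 (.d k153 k221 k204 9 14)))))] .n) (.c k128 (.l (.s k127
  k64 6 (.s k63 k191 7 (.s k149 k192 14 (.d k21 k42 k213 6 7))))) (.c k149 (.f k64 k127 6 (.q k153
  [(.s k17 k221 9 (.s k51 k34 4 (.s k102 k204 14 (.d k119 k68 k187 4 9)))), (.s k90 k216 8 (.s k74
  k122 3 (.s k79 k69 2 (.s k80 k95 2 (.d k112 k96 k101 3 6)))))] (.c k128 (.q k191 [(.s k17 k221 9
  (.s k51 k34 4 (.s k102 k204 14 (.d k119 k68 k187 4 9)))), (.s k90 k216 8 (.s k74 k122 3 (.s k79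
  k69 2 (.s k80 k95 2 (.d k112 k96 k101 3 6)))))] .n) (.c k191 (.l (.s k128 k192 7 (.s k17 k221 9
  (.s k51 k34 4 (.s k102 k204 14 (.d k119 k68 k187 4 9)))))) .n)))) (.c k191 (.l (.s k64 k127 6 (.s
  k192 k128 7 (.s k149 k63 14 (.d k213 k234 k21 6 7))))) (.c k192 (.q k4 [(.s k12 k8 1 (.s k93 k174
  12 (.s k89 k81 1 (.d k166 k247 k243 12 14)))), (.s k127 k64 6 (.s k63 k191 7 (.s k166 k247 12 (.s
  k46 k226 9 (.d k12 k8 k29 1 4))))), (.s k12 k8 1 (.s k127 k64 6 (.s k63 k191 7 (.s k29 k46 4 (.s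
  k21 k42 6 (.s k25 k17 1 (.d k38 k55 k51 4 6)))))))] (.c k8 (.l (.s k127 k64 6 (.s k63 k191 7 (.s
  k166 k247 12 (.s k46 k226 9 (.s k12 k29 4 (.s k93 k174 12 (.d k89 k243 k81 14 1)))))))) (.c k12
  (.l (.s k127 k64 6 (.s k63 k191 7 (.s k21 k42 6 (.s k55 k38 4 (.s k247 k166 12 (.s k183 k119 7 (.d
  k243 k251 k123 1 9)))))))) .n))) (.c k213 (.q k3 [(.s k1 k2 0 (.s k169 k253 13 (.s k86 k252 14 (.d
  k87 k84 k171 0 13)))), (.s k2 k1 0 (.s k64 k127 6 (.s k192 k128 7 (.s k66 k129 8 (.s k65 k67 0 (.d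
  k130 k194 k195 7 8)))))), (.s k64 k127 6 (.s k87 k171 13 (.s k86 k84 0 (.s k66 k126 5 (.d k192
  k128 k129 7 8)))))] (.c k87 (.l (.s k1 k2 0 (.s k64 k127 6 (.s k169 k253 13 (.s k86 k252 14 (.s
  k66 k126 5 (.d k192 k128 k129 7 8))))))) .n)) (.c k234 (.l (.s k127 k64 6 (.s k63 k191 7 (.s k21
  k42 6 (.d k149 k213 k192 7 14))))) .n))))))))))) (.c k63 (.q k51 [(.s k17 k34 4 (.s k153 k221 9
  (.s k102 k204 14 (.d k119 k68 k187 4 9)))), (.s k34 k17 4 (.s k64 k127 6 (.s k192 k128 7 (.s k98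
  k145 12 (.s k81 k115 4 (.d k162 k226 k243 7 12)))))), (.s k64 k127 6 (.s k119 k187 9 (.s k102 k68
  4 (.s k98 k110 1 (.d k192 k128 k145 7 12)))))] (.c k27 (.q k43 [(.s k17 k34 4 (.s k153 k221 9 (.s
  k102 k204 14 (.d k119 k68 k187 4 9)))), (.s k169 k232 8 (.s k1 k253 13 (.s k3 k2 0 (.s k86 k252 14
  (.d k87 k84 k171 0 13)))))] .n) (.c k43 (.q k27 [(.s k17 k34 4 (.s k153 k221 9 (.s k102 k204 14
  (.d k119 k68 k187 4 9)))), (.s k15 k39 5 (.s k5 k10 2 (.s k95 k175 11 (.s k90 k80 2 (.d k165 k245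
  k240 11 14)))))] (.c k3 (.q k23 [(.s k17 k34 4 (.s k119 k187 9 (.s k102 k68 4 (.d k153 k221 k204 9
  14)))), (.s k15 k39 5 (.s k5 k10 2 (.s k95 k175 11 (.s k90 k80 2 (.d k165 k245 k240 11 14)))))]
  (.c k7 (.l (.s k15 k39 5 (.s k5 k10 2 (.s k95 k175 11 (.s k90 k80 2 (.d k165 k245 k240 11 14))))))
  (.c k15 (.q k7 [(.s k17 k34 4 (.s k119 k187 9 (.s k102 k68 4 (.d k153 k221 k204 9 14)))), (.s k34
  k17 4 (.s k64 k127 6 (.s k192 k128 7 (.s k98 k145 12 (.s k81 k115 4 (.d k162 k226 k243 7 12)))))),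
  (.s k64 k127 6 (.s k192 k128 7 (.s k98 k145 12 (.s k102 k110 1 (.d k119 k68 k187 4 9)))))] (.c k31
  (.q k47 [(.s k39 k55 3 (.s k165 k224 10 (.s k102 k228 8 (.d k119 k68 k187 4 9)))), (.s k34 k17 4
  (.s k64 k127 6 (.s k192 k128 7 (.s k98 k145 12 (.s k81 k115 4 (.d k162 k226 k243 7 12))))))] (.c
  k119 (.l (.s k17 k34 4 (.s k39 k55 3 (.s k153 k221 9 (.s k102 k204 14 (.d k165 k228 k224 8
  10)))))) .n)) (.c k47 (.l (.s k31 k19 1 (.s k17 k34 4 (.s k119 k187 9 (.s k102 k68 4 (.d k153 k221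
  k204 9 14)))))) (.c k119 (.l (.s k17 k34 4 (.s k64 k127 6 (.s k153 k221 9 (.s k102 k204 14 (.s
  k192 k128 7 (.d k98 k110 k145 1 12))))))) .n)))) .n))) (.c k23 (.q k3 [(.s k1 k2 0 (.s k169 k253
  13 (.s k86 k252 14 (.d k87 k84 k171 0 13)))), (.s k17 k34 4 (.s k119 k187 9 (.s k102 k68 4 (.d
  k153 k221 k204 9 14))))] .n) .n))) (.c k119 (.l (.s k17 k34 4 (.s k64 k127 6 (.s k153 k221 9 (.s
  k102 k204 14 (.s k192 k128 7 (.d k98 k110 k145 1 12))))))) .n)))) (.c k64 (.q k195 [(.s k65 k130 8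
  (.s k105 k125 5 (.s k150 k60 14 (.d k215 k235 k20 5 8)))), (.s k65 k130 8 (.s k105 k125 5 (.s k107
  k104 0 (.s k63 k151 13 (.s k21 k42 6 (.d k149 k213 k192 7 14)))))), (.s k215 k235 5 (.s k150 k20 8
  (.s k194 k62 13 (.s k192 k193 0 (.s k149 k63 14 (.d k213 k234 k21 6 7))))))] (.c k27 (.q k43 [(.s
  k65 k130 8 (.s k105 k125 5 (.s k150 k60 14 (.d k215 k235 k20 5 8)))), (.s k169 k232 8 (.s k1 k253
  13 (.s k3 k2 0 (.s k86 k252 14 (.d k87 k84 k171 0 13)))))] .n) (.c k43 (.q k27 [(.s k65 k130 8 (.s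
  k105 k125 5 (.s k150 k60 14 (.d k215 k235 k20 5 8)))), (.s k65 k130 8 (.s k105 k125 5 (.s k107
  k104 0 (.s k63 k151 13 (.s k21 k42 6 (.d k149 k213 k192 7 14)))))), (.s k215 k235 5 (.s k150 k20 8
  (.s k194 k62 13 (.s k192 k193 0 (.s k149 k63 14 (.d k213 k234 k21 6 7))))))] (.c k105 (.f k130 k65
  8 (.f k235 k215 5 (.q k66 [(.s k2 k194 7 (.s k3 k1 0 (.s k129 k192 8 (.d k131 k128 k67 0 7)))),
  (.s k86 k126 5 (.s k84 k87 0 (.s k252 k168 13 (.s k169 k3 14 (.d k253 k254 k1 0 13)))))] (.c k1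
  (.l (.s k86 k126 5 (.s k87 k84 0 (.s k3 k171 13 (.s k129 k192 8 (.d k131 k128 k67 0 7)))))) (.c k3
  (.l (.s k194 k2 7 (.s k192 k193 0 (.s k213 k234 6 (.d k149 k21 k63 7 14))))) .n))))) (.c k150 (.q
  k214 [(.s k233 k252 6 (.s k235 k215 5 (.s k234 k232 0 (.s k192 k213 6 (.d k194 k193 k254 0 5))))),
  (.s k252 k233 6 (.s k84 k168 13 (.s k86 k87 0 (.s k169 k3 14 (.d k253 k254 k1 0 13))))), (.s k215
  k235 5 (.s k213 k212 0 (.s k149 k21 7 (.d k192 k234 k63 6 14))))] (.c k130 (.q k190 [(.s k233 k252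
  6 (.s k235 k215 5 (.s k234 k232 0 (.s k192 k213 6 (.d k194 k193 k254 0 5))))), (.s k252 k233 6 (.s
  k84 k168 13 (.s k86 k87 0 (.s k126 k66 5 (.d k254 k253 k62 0 7))))), (.s k215 k235 5 (.s k213 k212
  0 (.s k149 k21 7 (.d k192 k234 k63 6 14))))] .n) (.c k190 (.l (.s k130 k65 8 (.s k215 k235 5 (.s
  k213 k212 0 (.s k149 k21 7 (.d k192 k234 k63 6 14)))))) .n))) .n))) (.c k105 (.f k235 k215 5 (.q
  k43 [(.s k169 k232 8 (.s k1 k253 13 (.s k3 k2 0 (.d k171 k107 k87 7 13)))), (.s k107 k171 7 (.s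
  k63 k151 13 (.s k21 k42 6 (.d k149 k213 k192 7 14)))), (.s k169 k232 8 (.s k253 k1 13 (.s k252
  k254 0 (.s k84 k168 13 (.d k86 k87 k3 0 14)))))] (.c k87 (.l (.s k107 k171 7 (.s k63 k151 13 (.s
  k23 k3 5 (.s k21 k42 6 (.d k149 k213 k192 7 14)))))) (.c k169 (.l (.s k130 k65 8 (.s k171 k107 7
  (.s k3 k87 13 (.s k2 k1 0 (.s k66 k194 7 (.s k129 k192 8 (.d k131 k67 k128 7 0)))))))) .n)))) (.c
  k150 (.f k235 k215 5 (.q k43 [(.s k169 k232 8 (.s k1 k253 13 (.s k3 k2 0 (.d k171 k107 k87 7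
  13)))), (.s k107 k171 7 (.s k105 k104 0 (.d k65 k130 k125 8 5))), (.s k169 k232 8 (.s k253 k1 13
  (.s k252 k254 0 (.s k84 k168 13 (.d k86 k87 k3 0 14)))))] (.c k130 (.q k190 [(.s k125 k60 8 (.s
  k105 k65 5 (.d k107 k104 k171 0 7))), (.s k169 k232 8 (.s k253 k1 13 (.s k252 k254 0 (.s k84 k168
  13 (.d k86 k87 k3 0 14)))))] (.c k104 (.l (.s k107 k171 7 (.s k63 k151 13 (.s k21 k42 6 (.d k149
  k213 k192 7 14))))) .n)) (.c k169 (.l (.s k130 k65 8 (.s k171 k107 7 (.s k3 k87 13 (.s k2 k1 0 (.s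
  k66 k194 7 (.s k129 k192 8 (.d k131 k67 k128 7 0)))))))) (.c k190 (.l (.s k130 k65 8 (.s k107 k171
  7 (.s k63 k151 13 (.s k21 k42 6 (.d k149 k213 k192 7 14)))))) .n))))) .n))))) (.c k127 (.q k195
  [(.s k65 k130 8 (.s k215 k235 5 (.s k150 k20 8 (.d k105 k125 k60 5 14)))), (.s k65 k130 8 (.s k105
  k125 5 (.s k107 k104 0 (.s k63 k151 13 (.s k21 k42 6 (.d k149 k213 k192 7 14)))))), (.s k215 k235
  5 (.s k150 k20 8 (.s k194 k62 13 (.s k192 k193 0 (.s k149 k63 14 (.d k213 k234 k21 6 7))))))] (.c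
  k27 (.q k43 [(.s k65 k130 8 (.s k215 k235 5 (.s k150 k20 8 (.d k105 k125 k60 5 14)))), (.s k169
  k232 8 (.s k1 k253 13 (.s k3 k2 0 (.s k86 k252 14 (.d k87 k84 k171 0 13)))))] .n) (.c k43 (.q k27
  [(.s k65 k130 8 (.s k105 k125 5 (.s k150 k60 14 (.d k215 k235 k20 5 8)))), (.s k215 k235 5 (.s
  k150 k20 8 (.s k194 k62 13 (.s k192 k193 0 (.s k149 k63 14 (.d k213 k234 k21 6 7)))))), (.s k65
  k130 8 (.s k105 k125 5 (.s k107 k104 0 (.s k63 k151 13 (.s k21 k42 6 (.d k149 k213 k192 7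
  14))))))] (.c k105 (.f k130 k65 8 (.f k235 k215 5 (.q k2 [(.s k3 k1 0 (.s k66 k194 7 (.s k129 k192
  8 (.d k131 k128 k67 0 7)))), (.s k66 k194 7 (.s k86 k126 5 (.s k87 k84 0 (.d k3 k1 k171 0 13)))),
  (.s k194 k66 7 (.s k62 k150 13 (.s k42 k22 5 (.s k63 k21 6 (.d k192 k193 k149 0 14)))))] (.c k66
  (.l (.s k1 k3 0 (.s k253 k169 13 (.s k252 k254 0 (.s k233 k214 6 (.s k213 k193 5 (.d k234 k192
  k232 6 0))))))) (.c k194 (.l (.s k1 k3 0 (.s k253 k169 13 (.s k252 k254 0 (.s k233 k214 6 (.s k234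
  k232 0 (.d k213 k193 k192 5 6))))))) .n))))) (.c k150 (.q k192 [(.s k213 k234 6 (.d k149 k21 k63 7
  14)), (.s k128 k64 7 (.s k130 k65 8 (.s k129 k131 0 (.s k194 k193 0 (.d k66 k2 k3 7 8)))))] (.c
  k130 (.q k190 [(.s k213 k234 6 (.d k149 k21 k63 7 14)), (.s k60 k125 8 (.s k104 k148 13 (.s k107
  k105 0 (.d k63 k151 k149 13 14)))), (.s k193 k194 0 (.s k213 k234 6 (.s k215 k235 5 (.s k214 k212
  0 (.d k233 k253 k252 5 6)))))] .n) (.c k190 (.l (.s k130 k65 8 (.s k149 k63 14 (.d k213 k234 k21 6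
  7)))) .n))) .n))) (.c k105 (.f k235 k215 5 (.q k43 [(.s k169 k232 8 (.s k1 k253 13 (.s k3 k2 0 (.d
  k171 k107 k87 7 13)))), (.s k107 k171 7 (.s k63 k151 13 (.s k21 k42 6 (.d k149 k213 k192 7 14)))),
  (.s k169 k232 8 (.s k253 k1 13 (.s k252 k254 0 (.s k84 k168 13 (.d k86 k87 k3 0 14)))))] (.c k87
  (.l (.s k107 k171 7 (.s k63 k151 13 (.s k23 k3 5 (.s k21 k42 6 (.d k149 k213 k192 7 14)))))) (.c
  k169 (.l (.s k65 k130 8 (.s k171 k107 7 (.s k3 k87 13 (.s k67 k131 7 (.s k1 k2 0 (.s k66 k64 0 (.d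
  k129 k193 k192 7 8)))))))) .n)))) (.c k150 (.f k130 k65 8 (.q k43 [(.s k169 k232 8 (.s k1 k253 13
  (.s k3 k2 0 (.s k86 k252 14 (.d k87 k84 k171 0 13))))), (.s k235 k215 5 (.s k107 k171 7 (.s k63
  k151 13 (.s k21 k42 6 (.d k149 k213 k192 7 14))))), (.s k169 k232 8 (.s k253 k1 13 (.s k252 k254 0
  (.s k86 k3 14 (.d k84 k87 k168 0 13)))))] (.c k87 (.l (.s k169 k232 8 (.s k1 k253 13 (.s k3 k2 0
  (.s k63 k23 5 (.s k21 k42 6 (.d k149 k213 k192 7 14))))))) (.c k169 (.f k235 k215 5 (.f k171 k107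
  7 (.l (.s k87 k3 13 (.s k86 k84 0 (.s k66 k126 5 (.s k194 k2 7 (.s k192 k193 0 (.s k149 k63 14 (.d
  k213 k234 k21 6 7)))))))))) .n)))) .n))))) (.c k128 (.l (.s k127 k64 6 (.s k63 k191 7 (.s k149
  k192 14 (.d k21 k42 k213 6 7))))) (.c k149 (.f k64 k127 6 (.f k128 k192 7 (.q k102 [(.s k68 k119 4
  (.s k98 k110 1 (.s k115 k81 4 (.d k76 k72 k89 1 6)))), (.s k119 k68 4 (.s k51 k187 9 (.s k17 k34 4
  (.d k153 k221 k204 9 14)))), (.s k98 k110 1 (.s k115 k81 4 (.s k76 k89 6 (.s k68 k72 1 (.s k204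
  k136 9 (.s k153 k51 14 (.d k221 k238 k17 4 9)))))))] (.c k27 (.q k43 [(.s k68 k119 4 (.s k98 k110
  1 (.s k115 k81 4 (.d k76 k72 k89 1 6)))), (.s k119 k68 4 (.s k51 k187 9 (.s k17 k34 4 (.d k153
  k221 k204 9 14)))), (.s k98 k110 1 (.s k169 k232 8 (.s k35 k236 10 (.s k47 k39 1 (.d k224 k161
  k165 8 10)))))] .n) (.c k43 (.q k27 [(.s k68 k119 4 (.s k98 k110 1 (.s k115 k81 4 (.d k76 k72 k89
  1 6)))), (.s k119 k68 4 (.s k51 k187 9 (.s k17 k34 4 (.d k153 k221 k204 9 14)))), (.s k98 k110 1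
  (.s k115 k81 4 (.s k76 k89 6 (.s k68 k72 1 (.s k204 k136 9 (.s k153 k51 14 (.d k221 k238 k17 4
  9)))))))] (.c k68 (.l (.s k98 k110 1 (.s k81 k115 4 (.s k243 k162 12 (.s k247 k251 1 (.s k166 k4
  12 (.d k89 k93 k12 1 14))))))) .n)) (.c k68 (.l (.s k98 k110 1 (.s k81 k115 4 (.s k243 k162 12 (.s
  k247 k251 1 (.s k166 k4 12 (.d k89 k93 k12 1 14))))))) .n)))))) (.c k191 (.l (.s k64 k127 6 (.s
  k192 k128 7 (.s k149 k63 14 (.d k213 k234 k21 6 7))))) (.c k192 (.f k127 k64 6 (.q k43 [(.s k63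
  k191 7 (.s k3 k23 5 (.s k1 k2 0 (.d k169 k232 k253 8 13)))), (.s k169 k232 8 (.s k1 k253 13 (.s k3
  k2 0 (.s k87 k171 13 (.d k86 k252 k84 14 0))))), (.s k63 k191 7 (.s k3 k23 5 (.s k2 k1 0 (.s k42
  k21 6 (.s k22 k62 5 (.d k41 k40 k60 0 6)))))), (.s k63 k191 7 (.s k3 k23 5 (.s k87 k171 13 (.s k86
  k84 0 (.d k169 k232 k252 8 14)))))] (.c k3 (.l (.s k63 k191 7 (.s k21 k42 6 (.s k149 k213 7 (.s
  k169 k232 8 (.s k253 k1 13 (.s k252 k254 0 (.d k189 k129 k126 5 8)))))))) .n))) (.c k213 (.q k43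
  [(.s k127 k64 6 (.s k63 k191 7 (.s k3 k23 5 (.s k169 k232 8 (.d k1 k2 k253 0 13))))), (.s k169
  k232 8 (.s k253 k1 13 (.s k252 k254 0 (.s k86 k3 14 (.d k84 k87 k168 0 13))))), (.s k127 k64 6 (.s
  k63 k191 7 (.s k3 k23 5 (.s k87 k171 13 (.s k86 k84 0 (.d k169 k232 k252 8 14)))))), (.s k127 k64
  6 (.s k63 k191 7 (.s k3 k23 5 (.s k2 k1 0 (.s k42 k21 6 (.s k22 k62 5 (.d k41 k40 k60 0 6)))))))]
  (.c k3 (.l (.s k127 k64 6 (.s k63 k191 7 (.s k149 k192 14 (.s k169 k232 8 (.s k253 k1 13 (.s k252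
  k254 0 (.d k189 k129 k126 5 8)))))))) .n)) (.c k234 (.l (.s k127 k64 6 (.s k63 k191 7 (.s k21 k42
  6 (.d k149 k213 k192 7 14))))) .n))))))))))))))

def t11_60 : T TT 256 :=
  (.f k255 k170 14 (.q k102 [(.s k68 k119 4 (.s k204 k136 9 (.s k221 k238 4 (.d k153 k17 k51 9
  14))))] (.c k17 (.q k1 [(.s k3 k2 0 (.s k169 k253 13 (.s k86 k252 14 (.d k87 k84 k171 0 13)))),
  (.s k68 k119 4 (.s k204 k136 9 (.s k221 k238 4 (.s k253 k169 13 (.s k205 k237 3 (.s k69 k137 9 (.d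
  k207 k138 k206 10 0))))))), (.s k3 k2 0 (.s k68 k119 4 (.s k204 k136 9 (.s k70 k137 10 (.s k86
  k118 3 (.d k87 k84 k171 0 13))))))] (.c k171 (.l (.s k3 k2 0 (.s k119 k68 4 (.s k51 k187 9 (.s k35
  k19 3 (.d k169 k236 k253 10 13)))))) .n)) (.c k51 (.f k68 k119 4 (.q k117 [(.s k48 k186 10 (.s k16
  k32 3 (.s k101 k69 3 (.d k154 k223 k207 10 14)))), (.s k69 k101 3 (.s k70 k71 0 (.s k86 k118 3 (.s
  k87 k84 0 (.s k3 k171 13 (.d k204 k136 k137 9 10)))))), (.s k48 k186 10 (.s k32 k16 3 (.s k204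
  k136 9 (.s k100 k152 13 (.s k84 k116 3 (.d k168 k236 k252 9 13))))))] (.c k32 (.l (.s k48 k186 10
  (.s k101 k69 3 (.s k100 k103 0 (.d k204 k136 k152 9 13))))) (.c k54 (.q k57 [(.s k48 k186 10 (.s
  k16 k32 3 (.s k101 k69 3 (.d k154 k223 k207 10 14)))), (.s k69 k101 3 (.s k70 k71 0 (.s k86 k118 3
  (.s k87 k84 0 (.s k3 k171 13 (.d k204 k136 k137 9 10)))))), (.s k48 k186 10 (.s k32 k16 3 (.s k204
  k136 9 (.s k100 k152 13 (.s k84 k116 3 (.d k168 k236 k252 9 13))))))] (.c k32 (.l (.s k48 k186 10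
  (.s k101 k69 3 (.s k100 k103 0 (.d k204 k136 k152 9 13))))) .n)) (.c k57 (.q k54 [(.s k48 k186 10
  (.s k16 k32 3 (.s k101 k69 3 (.d k154 k223 k207 10 14)))), (.s k69 k101 3 (.s k70 k71 0 (.s k86
  k118 3 (.s k87 k84 0 (.s k3 k171 13 (.d k204 k136 k137 9 10)))))), (.s k48 k186 10 (.s k32 k16 3
  (.s k204 k136 9 (.s k100 k152 13 (.s k84 k116 3 (.d k168 k236 k252 9 13))))))] (.c k32 (.l (.s k48
  k186 10 (.s k101 k69 3 (.s k100 k103 0 (.d k204 k136 k152 9 13))))) .n)) .n))))) (.c k68 (.q k21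
  [(.s k63 k42 6 (.s k127 k191 7 (.s k149 k213 7 (.d k106 k64 k192 6 14)))), (.s k149 k213 7 (.s k55
  k196 12 (.s k4 k38 4 (.s k12 k8 1 (.s k93 k174 12 (.s k89 k81 1 (.d k166 k247 k243 12 14)))))))]
  (.c k149 (.f k63 k42 6 (.q k106 [(.d k127 k191 k64 7 6), (.s k110 k98 1 (.s k204 k157 12 (.s k153
  k51 14 (.d k221 k238 k17 4 9))))] (.c k128 (.l (.s k191 k127 7 (.s k110 k98 1 (.s k204 k157 12 (.s
  k153 k51 14 (.d k221 k238 k17 4 9)))))) (.c k191 (.q k128 [(.d k64 k127 k192 6 7), (.s k110 k98 1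
  (.s k204 k157 12 (.s k221 k238 4 (.d k153 k17 k51 9 14))))] .n) .n)))) (.c k213 (.l (.s k63 k42 6
  (.s k127 k191 7 (.s k106 k64 6 (.s k110 k98 1 (.s k204 k157 12 (.s k153 k51 14 (.d k221 k238 k17 4
  9)))))))) .n))) (.c k119 (.q k127 [(.s k63 k191 7 (.s k21 k42 6 (.s k106 k64 6 (.d k149 k213 k192
  7 14)))), (.s k106 k64 6 (.s k110 k98 1 (.s k93 k76 4 (.s k12 k174 12 (.s k4 k8 1 (.s k166 k247 12
  (.d k89 k81 k243 1 14)))))))] (.c k64 (.l (.s k63 k191 7 (.s k21 k42 6 (.s k149 k213 7 (.s k55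
  k196 12 (.s k51 k59 1 (.s k17 k34 4 (.d k153 k221 k204 9 14)))))))) (.c k106 (.f k63 k191 7 (.q
  k149 [(.d k21 k42 k213 6 7), (.s k55 k196 12 (.s k51 k59 1 (.s k17 k34 4 (.d k153 k221 k204 9
  14))))] (.c k42 (.q k234 [(.d k213 k192 k21 6 7), (.s k55 k196 12 (.s k51 k59 1 (.s k17 k34 4 (.d
  k153 k221 k204 9 14))))] .n) (.c k234 (.l (.s k42 k21 6 (.s k55 k196 12 (.s k51 k59 1 (.s k17 k34
  4 (.d k153 k221 k204 9 14)))))) .n)))) .n))) (.c k136 (.l (.s k119 k68 4 (.s k51 k187 9 (.s k153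
  k204 14 (.d k17 k34 k221 4 9))))) (.c k153 (.f k119 k68 4 (.q k149 [(.s k21 k213 7 (.s k55 k196 12
  (.s k4 k38 4 (.d k247 k183 k166 7 12)))), (.s k21 k213 7 (.s k63 k42 6 (.s k106 k192 14 (.d k127
  k64 k191 6 7)))), (.s k55 k196 12 (.s k247 k183 7 (.s k243 k251 1 (.s k81 k162 12 (.s k89 k93 1
  (.d k166 k4 k12 12 14))))))] (.c k136 (.l (.s k187 k51 9 (.s k21 k213 7 (.s k55 k196 12 (.s k4 k38
  4 (.d k247 k183 k166 7 12)))))) (.c k187 (.q k136 [(.s k21 k213 7 (.s k55 k196 12 (.s k4 k38 4 (.d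
  k247 k183 k166 7 12)))), (.s k21 k213 7 (.s k63 k42 6 (.s k106 k192 14 (.d k127 k64 k191 6 7)))),
  (.s k55 k196 12 (.s k247 k183 7 (.s k243 k251 1 (.s k81 k162 12 (.s k89 k93 1 (.d k166 k4 k12 12
  14))))))] .n) .n)))) (.c k187 (.l (.s k68 k119 4 (.s k204 k136 9 (.s k153 k51 14 (.d k221 k238 k17
  4 9))))) (.c k204 (.f k68 k119 4 (.q k149 [(.s k196 k55 12 (.s k4 k132 7 (.s k213 k21 7 (.d k247
  k230 k166 4 12)))), (.s k21 k213 7 (.s k63 k42 6 (.s k127 k191 7 (.d k106 k64 k192 6 14)))), (.s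
  k196 k55 12 (.s k4 k132 7 (.s k12 k8 1 (.s k93 k174 12 (.s k89 k81 1 (.d k166 k247 k243 12
  14))))))] (.c k108 (.q k156 [(.s k196 k55 12 (.s k4 k132 7 (.s k213 k21 7 (.d k247 k230 k166 4
  12)))), (.s k21 k213 7 (.s k63 k42 6 (.s k127 k191 7 (.d k106 k64 k192 6 14)))), (.s k196 k55 12
  (.s k4 k132 7 (.s k12 k8 1 (.s k93 k174 12 (.s k89 k81 1 (.d k166 k247 k243 12 14))))))] .n) (.c
  k156 (.q k108 [(.s k196 k55 12 (.s k4 k132 7 (.s k213 k21 7 (.d k247 k230 k166 4 12)))), (.s k21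
  k213 7 (.s k63 k42 6 (.s k127 k191 7 (.d k106 k64 k192 6 14)))), (.s k196 k55 12 (.s k4 k132 7 (.s
  k12 k8 1 (.s k93 k174 12 (.s k89 k81 1 (.d k166 k247 k243 12 14))))))] .n) .n)))) (.c k221 (.q k1
  [(.s k3 k2 0 (.s k87 k171 13 (.s k86 k84 0 (.d k169 k253 k252 13 14)))), (.s k68 k119 4 (.s k169
  k253 13 (.s k204 k136 9 (.s k153 k51 14 (.s k137 k185 3 (.s k70 k3 10 (.d k69 k205 k71 9 0))))))),
  (.s k3 k2 0 (.s k68 k119 4 (.s k204 k136 9 (.s k70 k137 10 (.s k86 k118 3 (.d k87 k84 k171 0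
  13))))))] (.c k3 (.l (.s k119 k68 4 (.s k51 k187 9 (.s k17 k34 4 (.s k49 k33 3 (.s k48 k50 0 (.s
  k117 k186 10 (.d k253 k185 k169 9 13)))))))) .n)) (.c k238 (.l (.s k119 k68 4 (.s k51 k187 9 (.s
  k17 k34 4 (.d k153 k221 k204 9 14))))) .n))))))))))))

def t11_61 : T TT 256 :=
  (.f k255 k170 14 (.q k106 [(.s k64 k127 6 (.s k192 k128 7 (.s k213 k234 6 (.d k149 k21 k63 7
  14))))] (.c k21 (.q k1 [(.s k3 k2 0 (.s k169 k253 13 (.s k86 k252 14 (.d k87 k84 k171 0 13)))),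
  (.s k64 k127 6 (.s k192 k128 7 (.s k213 k234 6 (.s k253 k169 13 (.s k193 k233 5 (.s k65 k129 7 (.d
  k195 k130 k194 8 0))))))), (.s k3 k2 0 (.s k64 k127 6 (.s k192 k128 7 (.s k66 k129 8 (.s k86 k126
  5 (.d k87 k84 k171 0 13))))))] (.c k171 (.l (.s k3 k2 0 (.s k127 k64 6 (.s k63 k191 7 (.s k43 k23
  5 (.d k169 k232 k253 8 13)))))) .n)) (.c k63 (.q k60 [(.s k20 k40 5 (.s k125 k190 8 (.s k105 k65 5
  (.d k150 k215 k195 8 14)))), (.s k40 k20 5 (.s k64 k127 6 (.s k192 k128 7 (.s k104 k148 13 (.s k84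
  k124 5 (.d k168 k232 k252 7 13)))))), (.s k64 k127 6 (.s k125 k190 8 (.s k105 k65 5 (.s k104 k107
  0 (.d k192 k128 k148 7 13)))))] (.c k125 (.l (.s k20 k40 5 (.s k64 k127 6 (.s k150 k215 8 (.s k105
  k195 14 (.s k192 k128 7 (.d k104 k107 k148 0 13))))))) .n)) (.c k64 (.q k60 [(.s k20 k40 5 (.s
  k125 k190 8 (.s k150 k215 8 (.d k105 k65 k195 5 14)))), (.s k125 k190 8 (.s k105 k65 5 (.s k104
  k107 0 (.s k192 k148 13 (.s k213 k234 6 (.d k149 k21 k63 7 14)))))), (.s k20 k40 5 (.s k150 k215 8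
  (.s k105 k195 14 (.s k104 k107 0 (.s k192 k148 13 (.s k213 k234 6 (.d k149 k63 k21 14 7)))))))]
  (.c k105 (.f k40 k20 5 (.q k149 [(.s k21 k213 7 (.d k63 k42 k192 6 14)), (.s k63 k192 14 (.s k125
  k190 8 (.s k127 k191 7 (.s k126 k124 0 (.s k86 k66 5 (.s k84 k87 0 (.d k252 k189 k168 8 13)))))))]
  (.c k63 (.q k1 [(.s k169 k253 13 (.s k43 k232 8 (.s k41 k42 0 (.d k3 k2 k22 0 6)))), (.s k3 k2 0
  (.s k87 k171 13 (.s k86 k84 0 (.d k169 k253 k252 13 14)))), (.s k169 k253 13 (.s k213 k21 7 (.s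
  k192 k234 6 (.s k104 k148 13 (.d k232 k168 k43 7 8))))), (.s k3 k2 0 (.s k213 k21 7 (.s k192 k234
  6 (.s k66 k129 8 (.s k86 k126 5 (.d k87 k84 k171 0 13))))))] .n) (.c k192 (.q k1 [(.s k3 k2 0 (.s
  k21 k213 7 (.s k41 k22 6 (.d k42 k43 k63 0 6)))), (.s k3 k2 0 (.s k87 k171 13 (.s k86 k84 0 (.d
  k169 k253 k252 13 14)))), (.s k21 k213 7 (.s k42 k63 6 (.s k43 k41 0 (.d k169 k232 k253 8 13))))]
  .n) .n)))) (.c k150 (.f k190 k125 8 (.q k253 [(.s k252 k254 0 (.s k84 k168 13 (.s k86 k87 0 (.d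
  k169 k1 k3 13 14)))), (.s k40 k20 5 (.s k252 k254 0 (.s k168 k84 13 (.s k104 k232 7 (.s k148 k192
  13 (.d k188 k124 k128 7 5)))))), (.s k40 k20 5 (.s k169 k1 13 (.s k232 k43 8 (.s k168 k104 7 (.d
  k252 k84 k254 13 0))))), (.s k40 k20 5 (.s k169 k1 13 (.s k43 k232 8 (.s k41 k42 0 (.s k3 k22 6
  (.d k252 k86 k254 14 0))))))] (.c k252 (.l (.s k1 k169 13 (.s k3 k2 0 (.s k20 k40 5 (.s k22 k41 6
  (.s k21 k23 0 (.s k149 k213 7 (.d k63 k42 k192 6 14)))))))) (.c k254 (.l (.s k40 k20 5 (.s k169 k1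
  13 (.s k43 k232 8 (.s k41 k42 0 (.s k3 k22 6 (.s k86 k252 14 (.d k87 k84 k171 0 13)))))))) .n))))
  .n))) (.c k127 (.q k195 [(.s k65 k130 8 (.s k215 k235 5 (.s k150 k20 8 (.d k105 k125 k60 5 14)))),
  (.s k65 k130 8 (.s k105 k125 5 (.s k107 k104 0 (.s k63 k151 13 (.s k21 k42 6 (.d k149 k213 k192 7
  14)))))), (.s k215 k235 5 (.s k150 k20 8 (.s k194 k62 13 (.s k192 k193 0 (.s k213 k234 6 (.d k149
  k63 k21 14 7))))))] (.c k105 (.f k130 k65 8 (.q k149 [(.s k21 k213 7 (.d k63 k42 k192 6 14)), (.s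
  k63 k192 14 (.s k151 k107 13 (.s k150 k148 0 (.d k215 k235 k20 5 8))))] (.c k40 (.l (.s k235 k215
  5 (.s k21 k213 7 (.d k63 k42 k192 6 14)))) (.c k63 (.l (.s k213 k21 7 (.s k192 k234 6 (.s k128 k64
  7 (.s k129 k131 0 (.s k66 k3 8 (.d k194 k193 k2 0 7))))))) (.c k192 (.l (.s k21 k213 7 (.s k63 k42
  6 (.s k151 k107 13 (.s k150 k148 0 (.d k215 k235 k20 5 8)))))) (.c k235 (.q k40 [(.s k21 k213 7
  (.d k63 k42 k192 6 14)), (.s k20 k60 5 (.s k63 k192 14 (.s k150 k215 8 (.d k151 k148 k107 0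
  13))))] (.c k63 (.l (.s k60 k20 5 (.s k213 k21 7 (.s k192 k234 6 (.s k148 k104 13 (.s k150 k151 0
  (.d k194 k193 k62 0 13))))))) (.c k192 (.l (.s k20 k60 5 (.s k21 k213 7 (.s k63 k42 6 (.s k150
  k215 8 (.d k151 k148 k107 0 13)))))) .n))) .n)))))) (.c k150 (.q k149 [(.s k21 k213 7 (.d k63 k42
  k192 6 14)), (.s k63 k192 14 (.s k107 k151 13 (.s k105 k104 0 (.d k65 k130 k125 8 5))))] (.c k63
  (.l (.s k213 k21 7 (.s k192 k234 6 (.s k193 k194 0 (.s k215 k235 5 (.s k214 k212 0 (.d k233 k253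
  k252 5 6))))))) (.c k130 (.q k190 [(.s k21 k213 7 (.d k63 k42 k192 6 14)), (.s k63 k192 14 (.s
  k107 k151 13 (.s k105 k104 0 (.d k125 k60 k65 8 5))))] (.c k63 (.l (.s k213 k21 7 (.s k192 k234 6
  (.s k193 k194 0 (.s k215 k235 5 (.s k214 k212 0 (.d k233 k253 k252 5 6))))))) (.c k192 (.l (.s k21
  k213 7 (.s k63 k42 6 (.s k107 k151 13 (.s k105 k104 0 (.d k125 k60 k65 8 5)))))) .n))) (.c k190
  (.l (.s k130 k65 8 (.s k21 k213 7 (.d k63 k42 k192 6 14)))) (.c k192 (.l (.s k21 k213 7 (.s k63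
  k42 6 (.s k107 k151 13 (.s k105 k104 0 (.d k65 k125 k130 5 8)))))) .n))))) .n))) (.c k128 (.l (.s
  k127 k64 6 (.s k63 k191 7 (.s k149 k192 14 (.d k21 k42 k213 6 7))))) (.c k149 (.f k64 k127 6 (.q
  k105 [(.s k65 k125 5 (.s k67 k66 0 (.s k104 k107 0 (.d k124 k84 k86 5 6)))), (.s k104 k107 0 (.s
  k125 k65 5 (.s k60 k190 8 (.d k192 k128 k148 7 13)))), (.s k65 k125 5 (.s k195 k130 8 (.s k150 k60
  14 (.d k215 k235 k20 5 8))))] (.c k65 (.l (.s k104 k107 0 (.s k84 k124 5 (.s k168 k252 13 (.s k40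
  k232 7 (.s k60 k20 5 (.d k192 k128 k148 7 13))))))) (.c k125 (.l (.s k104 k107 0 (.s k124 k84 5
  (.s k67 k86 6 (.s k65 k66 0 (.s k195 k130 8 (.s k150 k60 14 (.d k215 k235 k20 5 8)))))))) (.c k128
  (.q k191 [(.s k125 k65 5 (.s k60 k190 8 (.s k20 k40 5 (.d k150 k215 k195 8 14)))), (.s k104 k107 0
  (.s k84 k124 5 (.s k252 k168 13 (.s k253 k254 0 (.s k169 k1 13 (.d k86 k87 k3 0 14))))))] (.c k125
  (.l (.s k104 k107 0 (.s k124 k84 5 (.s k67 k86 6 (.s k65 k66 0 (.s k195 k130 8 (.s k150 k60 14 (.d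
  k215 k235 k20 5 8)))))))) .n)) (.c k191 (.l (.s k128 k192 7 (.s k65 k125 5 (.s k67 k66 0 (.s k104
  k107 0 (.d k124 k84 k86 5 6)))))) .n)))))) (.c k191 (.l (.s k64 k127 6 (.s k192 k128 7 (.s k149
  k63 14 (.d k213 k234 k21 6 7))))) (.c k192 (.q k3 [(.s k1 k2 0 (.s k87 k171 13 (.s k86 k84 0 (.d
  k169 k253 k252 13 14)))), (.s k2 k1 0 (.s k127 k64 6 (.s k63 k191 7 (.s k43 k23 5 (.s k42 k21 6
  (.s k41 k40 0 (.d k22 k62 k60 5 6))))))), (.s k87 k171 13 (.s k86 k84 0 (.s k126 k66 5 (.s k127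
  k64 6 (.s k63 k191 7 (.d k252 k169 k189 14 8))))))] .n) (.c k213 (.q k1 [(.s k3 k2 0 (.s k87 k171
  13 (.s k86 k84 0 (.d k169 k253 k252 13 14)))), (.s k127 k64 6 (.s k63 k191 7 (.s k169 k253 13 (.s
  k43 k232 8 (.d k3 k2 k23 0 5))))), (.s k3 k2 0 (.s k64 k127 6 (.s k192 k128 7 (.s k66 k129 8 (.s
  k86 k126 5 (.d k87 k84 k171 0 13))))))] (.c k2 (.l (.s k64 k127 6 (.s k169 k253 13 (.s k192 k128 7
  (.s k232 k43 8 (.s k252 k212 5 (.s k84 k168 13 (.d k86 k87 k3 0 14)))))))) (.c k3 (.l (.s k127 k64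
  6 (.s k63 k191 7 (.s k253 k169 13 (.s k252 k254 0 (.s k126 k189 8 (.s k86 k66 5 (.d k84 k168 k87
  13 0)))))))) .n))) (.c k234 (.l (.s k127 k64 6 (.s k63 k191 7 (.s k21 k42 6 (.d k149 k213 k192 7
  14))))) .n))))))))))))

def t11_62 : T TT 256 :=
  (.f k255 k170 14 (.q k102 [(.s k68 k119 4 (.s k204 k136 9 (.s k153 k51 14 (.d k221 k238 k17 4
  9))))] (.c k17 (.q k1 [(.s k3 k2 0 (.s k169 k253 13 (.s k86 k252 14 (.d k87 k84 k171 0 13)))), (.s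
  k68 k119 4 (.s k204 k136 9 (.s k221 k238 4 (.s k253 k169 13 (.s k205 k237 3 (.s k69 k137 9 (.d
  k207 k138 k206 10 0))))))), (.s k3 k2 0 (.s k68 k119 4 (.s k204 k136 9 (.s k70 k137 10 (.s k86
  k118 3 (.d k87 k84 k171 0 13))))))] (.c k171 (.l (.s k3 k2 0 (.s k119 k68 4 (.s k51 k187 9 (.s k35
  k19 3 (.d k169 k236 k253 10 13)))))) .n)) (.c k51 (.q k1 [(.s k3 k2 0 (.s k169 k253 13 (.s k86
  k252 14 (.d k87 k84 k171 0 13)))), (.s k68 k119 4 (.s k204 k136 9 (.s k221 k238 4 (.s k253 k169 13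
  (.s k205 k237 3 (.s k69 k137 9 (.d k207 k138 k206 10 0))))))), (.s k68 k119 4 (.s k169 k253 13 (.s
  k204 k136 9 (.s k236 k35 10 (.s k252 k220 3 (.s k84 k168 13 (.d k86 k3 k87 14 0))))))), (.s k3 k2
  0 (.s k68 k119 4 (.s k204 k136 9 (.s k70 k137 10 (.s k86 k118 3 (.d k87 k84 k171 0 13))))))] .n)
  (.c k68 (.q k213 [(.s k149 k21 7 (.s k192 k234 6 (.s k64 k128 7 (.d k106 k127 k63 6 14)))), (.s
  k149 k21 7 (.s k196 k55 12 (.s k247 k230 4 (.s k243 k251 1 (.s k81 k162 12 (.s k89 k93 1 (.d k166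
  k4 k12 12 14)))))))] (.c k21 (.l (.s k192 k234 6 (.s k64 k128 7 (.s k106 k127 6 (.s k98 k110 1 (.s
  k51 k145 12 (.s k17 k34 4 (.d k153 k221 k204 9 14)))))))) (.c k149 (.f k192 k234 6 (.q k106 [(.d
  k64 k128 k127 7 6), (.s k98 k110 1 (.s k51 k145 12 (.s k17 k34 4 (.d k153 k221 k204 9 14))))] (.c
  k128 (.q k191 [(.d k127 k64 k63 6 7), (.s k98 k110 1 (.s k51 k145 12 (.s k17 k34 4 (.d k153 k221
  k204 9 14))))] .n) (.c k191 (.l (.s k128 k64 7 (.s k98 k110 1 (.s k51 k145 12 (.s k17 k34 4 (.d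
  k153 k221 k204 9 14)))))) .n)))) .n))) (.c k119 (.q k213 [(.s k149 k21 7 (.s k192 k234 6 (.s k64
  k128 7 (.d k106 k127 k63 6 14)))), (.s k149 k21 7 (.s k196 k55 12 (.s k247 k230 4 (.s k243 k251 1
  (.s k81 k162 12 (.s k89 k93 1 (.d k166 k4 k12 12 14)))))))] (.c k21 (.l (.s k192 k234 6 (.s k64
  k128 7 (.s k106 k127 6 (.s k98 k110 1 (.s k51 k145 12 (.s k17 k34 4 (.d k153 k221 k204 9
  14)))))))) (.c k149 (.f k192 k234 6 (.q k106 [(.d k64 k128 k127 7 6), (.s k98 k110 1 (.s k51 k145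
  12 (.s k17 k34 4 (.d k153 k221 k204 9 14))))] (.c k128 (.q k191 [(.d k127 k64 k63 6 7), (.s k98
  k110 1 (.s k51 k145 12 (.s k17 k34 4 (.d k153 k221 k204 9 14))))] .n) (.c k191 (.l (.s k128 k64 7
  (.s k98 k110 1 (.s k51 k145 12 (.s k17 k34 4 (.d k153 k221 k204 9 14)))))) .n)))) .n))) (.c k136
  (.l (.s k119 k68 4 (.s k51 k187 9 (.s k153 k204 14 (.d k17 k34 k221 4 9))))) (.c k153 (.f k119 k68
  4 (.q k115 [(.s k89 k76 6 (.s k81 k93 1 (.s k64 k98 4 (.d k127 k123 k106 1 6)))), (.s k127 k123 1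
  (.s k63 k191 7 (.s k21 k42 6 (.s k149 k213 7 (.d k106 k64 k192 6 14))))), (.s k89 k76 6 (.s k93
  k81 1 (.s k12 k174 12 (.s k4 k8 1 (.d k166 k247 k243 12 14)))))] (.c k64 (.l (.s k123 k127 1 (.s
  k187 k51 9 (.s k251 k59 7 (.s k243 k247 1 (.s k81 k162 12 (.d k89 k93 k76 1 6))))))) (.c k136 (.l
  (.s k187 k51 9 (.s k76 k89 6 (.s k127 k123 1 (.s k106 k64 6 (.d k110 k98 k93 1 4)))))) (.c k187
  (.q k136 [(.s k89 k76 6 (.s k81 k93 1 (.s k64 k98 4 (.d k127 k123 k106 1 6)))), (.s k127 k123 1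
  (.s k63 k191 7 (.s k21 k42 6 (.s k149 k213 7 (.d k106 k64 k192 6 14))))), (.s k89 k76 6 (.s k93
  k81 1 (.s k12 k174 12 (.s k4 k8 1 (.d k166 k247 k243 12 14)))))] (.c k64 (.l (.s k123 k127 1 (.s
  k89 k76 6 (.s k72 k106 4 (.s k93 k81 1 (.s k12 k174 12 (.d k8 k200 k4 7 1))))))) .n)) .n))))) (.c
  k187 (.l (.s k68 k119 4 (.s k204 k136 9 (.s k153 k51 14 (.d k221 k238 k17 4 9))))) (.c k204 (.q k1
  [(.s k3 k2 0 (.s k169 k253 13 (.s k86 k252 14 (.d k87 k84 k171 0 13)))), (.s k119 k68 4 (.s k51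
  k187 9 (.s k17 k34 4 (.s k49 k33 3 (.s k253 k169 13 (.s k117 k185 9 (.d k48 k186 k50 10 0))))))),
  (.s k3 k2 0 (.s k119 k68 4 (.s k51 k187 9 (.s k17 k34 4 (.s k19 k35 3 (.s k18 k16 0 (.d k33 k49
  k48 3 4)))))))] .n) (.c k221 (.q k1 [(.s k3 k2 0 (.s k169 k253 13 (.s k86 k252 14 (.d k87 k84 k171
  0 13)))), (.s k119 k68 4 (.s k51 k187 9 (.s k17 k34 4 (.s k49 k33 3 (.s k48 k50 0 (.s k117 k186 10
  (.d k253 k185 k169 9 13))))))), (.s k68 k119 4 (.s k169 k253 13 (.s k204 k136 9 (.s k153 k51 14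
  (.s k137 k185 3 (.s k70 k3 10 (.d k69 k205 k71 9 0))))))), (.s k3 k2 0 (.s k68 k119 4 (.s k204
  k136 9 (.s k70 k137 10 (.s k86 k118 3 (.d k87 k84 k171 0 13))))))] .n) (.c k238 (.l (.s k119 k68 4
  (.s k51 k187 9 (.s k17 k34 4 (.d k153 k221 k204 9 14))))) .n))))))))))))

def t11_63 : T TT 256 :=
  (.f k255 k170 14 (.q k101 [(.s k69 k117 3 (.s k207 k138 10 (.s k223 k239 3 (.d k154 k16 k48 10
  14))))] (.c k16 (.q k1 [(.s k3 k2 0 (.s k169 k253 13 (.s k86 k252 14 (.d k87 k84 k171 0 13)))),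
  (.s k69 k117 3 (.s k169 k253 13 (.s k33 k237 9 (.s k49 k17 3 (.d k205 k137 k153 9 13))))), (.s k3
  k2 0 (.s k69 k117 3 (.s k137 k205 9 (.s k70 k204 10 (.s k71 k68 0 (.d k207 k139 k138 9 10))))))]
  .n) (.c k48 (.q k53 [(.s k117 k69 3 (.s k149 k197 11 (.s k21 k213 7 (.s k5 k37 3 (.d k245 k181
  k165 7 11))))), (.s k117 k69 3 (.s k245 k181 7 (.s k240 k250 2 (.s k80 k160 11 (.s k90 k95 2 (.d
  k165 k5 k15 11 14)))))), (.s k149 k197 11 (.s k21 k213 7 (.s k5 k37 3 (.s k15 k10 2 (.s k95 k175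
  11 (.s k90 k80 2 (.d k165 k245 k240 11 14))))))), (.s k69 k117 3 (.s k197 k149 11 (.s k133 k5 7
  (.s k207 k138 10 (.s k192 k202 2 (.s k74 k15 10 (.d k64 k128 k79 7 2)))))))] (.c k5 (.q k1 [(.s k3
  k2 0 (.s k87 k171 13 (.s k86 k84 0 (.d k169 k253 k252 13 14)))), (.s k69 k117 3 (.s k169 k253 13
  (.s k33 k237 9 (.s k49 k17 3 (.d k205 k137 k153 9 13))))), (.s k3 k2 0 (.s k69 k117 3 (.s k137
  k205 9 (.s k70 k204 10 (.s k71 k68 0 (.d k207 k139 k138 9 10))))))] .n) (.c k15 (.l (.s k69 k117 3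
  (.s k197 k149 11 (.s k5 k133 7 (.s k37 k21 3 (.d k165 k229 k245 7 11)))))) .n))) (.c k69 (.q k84
  [(.s k86 k87 0 (.s k252 k168 13 (.s k253 k254 0 (.d k169 k1 k3 13 14)))), (.s k86 k87 0 (.s k116
  k71 4 (.s k68 k100 3 (.s k204 k136 9 (.s k221 k238 4 (.s k153 k17 9 (.d k102 k119 k51 4 14)))))))]
  (.c k86 (.f k252 k168 13 (.q k169 [(.d k253 k254 k1 0 13), (.s k237 k33 9 (.s k207 k222 4 (.s k154
  k48 14 (.d k223 k239 k16 3 10))))] (.c k2 (.l (.s k254 k253 0 (.s k237 k33 9 (.s k207 k222 4 (.s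
  k154 k48 14 (.d k223 k239 k16 3 10)))))) (.c k254 (.q k2 [(.d k1 k3 k253 0 13), (.s k237 k33 9 (.s
  k207 k222 4 (.s k223 k239 3 (.d k154 k16 k48 10 14))))] .n) .n)))) (.c k87 (.l (.s k252 k168 13
  (.s k253 k254 0 (.s k169 k1 13 (.s k237 k33 9 (.s k207 k222 4 (.s k154 k48 14 (.d k223 k239 k16 3
  10)))))))) .n))) (.c k117 (.q k84 [(.s k86 k87 0 (.s k252 k168 13 (.s k253 k254 0 (.d k169 k1 k3
  13 14)))), (.s k86 k87 0 (.s k116 k71 4 (.s k68 k100 3 (.s k204 k136 9 (.s k221 k238 4 (.s k153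
  k17 9 (.d k102 k119 k51 4 14)))))))] (.c k86 (.f k252 k168 13 (.q k169 [(.d k253 k254 k1 0 13),
  (.s k237 k33 9 (.s k207 k222 4 (.s k154 k48 14 (.d k223 k239 k16 3 10))))] (.c k2 (.l (.s k254
  k253 0 (.s k237 k33 9 (.s k207 k222 4 (.s k154 k48 14 (.d k223 k239 k16 3 10)))))) (.c k254 (.q k2
  [(.d k1 k3 k253 0 13), (.s k237 k33 9 (.s k207 k222 4 (.s k223 k239 3 (.d k154 k16 k48 10 14))))]
  .n) .n)))) (.c k87 (.l (.s k252 k168 13 (.s k253 k254 0 (.s k169 k1 13 (.s k237 k33 9 (.s k207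
  k222 4 (.s k154 k48 14 (.d k223 k239 k16 3 10)))))))) .n))) (.c k138 (.l (.s k117 k69 3 (.s k48
  k186 10 (.s k154 k207 14 (.d k16 k32 k223 3 10))))) (.c k154 (.f k69 k117 3 (.q k153 [(.s k17 k221
  9 (.s k51 k34 4 (.s k119 k187 9 (.d k102 k68 k204 4 14)))), (.s k205 k49 13 (.s k1 k137 9 (.s k3
  k2 0 (.s k87 k171 13 (.s k86 k84 0 (.d k169 k253 k252 13 14))))))] (.c k138 (.q k186 [(.s k17 k221
  9 (.s k51 k34 4 (.s k119 k187 9 (.d k102 k68 k204 4 14)))), (.s k205 k49 13 (.s k1 k137 9 (.s k3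
  k2 0 (.s k87 k171 13 (.s k86 k84 0 (.d k169 k253 k252 13 14))))))] .n) (.c k186 (.l (.s k138 k207
  10 (.s k17 k221 9 (.s k51 k34 4 (.s k102 k204 14 (.d k119 k68 k187 4 9)))))) .n)))) (.c k186 (.l
  (.s k69 k117 3 (.s k207 k138 10 (.s k154 k48 14 (.d k223 k239 k16 3 10))))) (.c k207 (.f k117 k69
  3 (.q k93 [(.s k12 k174 12 (.s k4 k8 1 (.s k89 k81 1 (.d k166 k247 k243 12 14)))), (.s k48 k186 10
  (.s k16 k32 3 (.s k89 k81 1 (.s k154 k223 10 (.s k24 k219 8 (.d k12 k36 k174 5 12)))))), (.s k12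
  k174 12 (.s k4 k8 1 (.s k48 k186 10 (.s k36 k24 5 (.d k166 k231 k247 8 12)))))] (.c k12 (.l (.s
  k48 k186 10 (.s k81 k89 1 (.s k243 k162 12 (.s k113 k178 8 (.s k65 k97 3 (.d k125 k121 k105 1
  5))))))) (.c k89 (.l (.s k12 k174 12 (.s k48 k186 10 (.s k36 k24 5 (.s k166 k231 8 (.d k4 k8 k247
  1 12)))))) (.c k111 (.q k159 [(.s k12 k174 12 (.s k4 k8 1 (.s k89 k81 1 (.d k166 k247 k243 12
  14)))), (.s k48 k186 10 (.s k16 k32 3 (.s k89 k81 1 (.s k154 k223 10 (.s k24 k219 8 (.d k12 k36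
  k174 5 12)))))), (.s k12 k174 12 (.s k4 k8 1 (.s k48 k186 10 (.s k36 k24 5 (.d k166 k231 k247 8
  12)))))] (.c k12 (.l (.s k48 k186 10 (.s k81 k89 1 (.s k243 k162 12 (.s k113 k178 8 (.s k65 k97 3
  (.d k125 k121 k105 1 5))))))) (.c k89 (.l (.s k12 k174 12 (.s k48 k186 10 (.s k36 k24 5 (.s k166
  k231 8 (.d k4 k8 k247 1 12)))))) (.c k174 (.l (.s k48 k186 10 (.s k89 k81 1 (.s k113 k77 5 (.s
  k243 k178 8 (.s k247 k251 1 (.d k166 k12 k4 14 12))))))) .n)))) (.c k159 (.q k111 [(.s k12 k174 12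
  (.s k4 k8 1 (.s k89 k81 1 (.d k166 k247 k243 12 14)))), (.s k106 k96 2 (.s k127 k64 6 (.s k79 k95
  3 (.d k112 k122 k90 2 6))))] .n) (.c k174 (.l (.s k48 k186 10 (.s k89 k81 1 (.s k113 k77 5 (.s
  k243 k178 8 (.s k247 k251 1 (.d k166 k12 k4 14 12))))))) .n))))))) (.c k223 (.q k1 [(.s k3 k2 0
  (.s k169 k253 13 (.s k86 k252 14 (.d k87 k84 k171 0 13)))), (.s k69 k117 3 (.s k169 k253 13 (.s
  k33 k237 9 (.s k49 k17 3 (.d k205 k137 k153 9 13))))), (.s k3 k2 0 (.s k69 k117 3 (.s k137 k205 9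
  (.s k70 k204 10 (.s k71 k68 0 (.d k207 k139 k138 9 10))))))] .n) (.c k239 (.l (.s k117 k69 3 (.s
  k48 k186 10 (.s k16 k32 3 (.d k154 k223 k207 10 14))))) .n))))))))))))

def t11_90 : T TT 256 :=
  (.q k169 [(.s k1 k253 13 (.s k3 k2 0 (.s k86 k252 14 (.s k87 k84 0 (.d k255 k171 k170 13 14)))))]
  (.c k1 (.q k4 [(.s k12 k8 1 (.s k166 k247 12 (.s k170 k255 14 (.s k162 k174 1 (.d k243 k81 k89 12
  14))))), (.s k166 k247 12 (.s k170 k255 14 (.s k168 k171 0 (.s k84 k252 13 (.s k164 k244 11 (.d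
  k172 k160 k163 1 2)))))), (.s k12 k8 1 (.s k166 k247 12 (.s k172 k163 2 (.s k252 k92 11 (.s k84
  k168 13 (.d k86 k87 k3 0 14)))))), (.s k12 k8 1 (.s k170 k255 14 (.s k168 k171 0 (.s k84 k252 13
  (.s k164 k244 11 (.s k160 k172 1 (.d k240 k80 k88 11 13)))))))] .n) (.c k2 (.l (.s k253 k1 13 (.s
  k255 k170 14 (.s k252 k254 0 (.s k86 k3 14 (.d k84 k87 k168 0 13)))))) (.c k3 (.f k253 k1 13 (.q
  k81 [(.s k89 k93 1 (.s k243 k162 12 (.s k166 k12 14 (.s k247 k4 12 (.d k255 k251 k170 1 14))))),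
  (.s k93 k89 1 (.s k173 k13 11 (.s k165 k161 1 (.s k5 k245 11 (.s k15 k10 2 (.s k252 k94 12 (.d
  k255 k170 k254 14 0))))))), (.s k162 k243 12 (.s k170 k255 14 (.s k166 k174 1 (.s k163 k172 2 (.s
  k160 k161 0 (.s k171 k168 0 (.d k175 k167 k165 1 2))))))), (.s k89 k93 1 (.s k243 k162 12 (.s k249
  k9 11 (.s k245 k241 1 (.s k246 k252 2 (.s k247 k244 0 (.d k166 k12 k4 14 12)))))))] (.c k7 (.q k15
  [(.s k93 k89 1 (.s k13 k173 11 (.s k12 k14 0 (.d k255 k174 k170 12 14)))), (.s k5 k10 2 (.s k89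
  k93 1 (.s k245 k165 11 (.d k249 k9 k241 11 1)))), (.s k5 k10 2 (.s k165 k245 11 (.s k173 k161 1
  (.s k252 k94 12 (.d k255 k170 k254 14 0)))))] (.c k170 (.l (.s k89 k93 1 (.s k249 k9 11 (.s k245
  k241 1 (.d k5 k10 k165 2 11))))) .n)) (.c k15 (.q k7 [(.s k89 k93 1 (.s k243 k162 12 (.s k12 k166
  14 (.s k8 k4 1 (.d k170 k251 k255 12 14))))), (.s k89 k93 1 (.s k243 k162 12 (.s k249 k9 11 (.s
  k245 k241 1 (.s k246 k252 2 (.s k244 k247 0 (.d k165 k5 k86 11 12))))))), (.s k89 k93 1 (.s k243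
  k162 12 (.s k255 k170 14 (.s k252 k254 0 (.d k249 k246 k9 2 11))))), (.s k93 k89 1 (.s k173 k13 11
  (.s k165 k161 1 (.s k5 k245 11 (.s k4 k6 0 (.s k12 k8 1 (.d k255 k170 k174 14 12)))))))] (.c k89
  (.l (.s k162 k243 12 (.s k170 k255 14 (.s k166 k174 1 (.s k163 k172 2 (.s k160 k161 0 (.s k171
  k168 0 (.d k175 k167 k165 1 2)))))))) (.c k93 (.l (.s k243 k162 12 (.s k255 k170 14 (.s k247 k251
  1 (.s k87 k167 11 (.s k84 k86 0 (.d k252 k254 k168 0 13))))))) (.c k165 (.q k240 [(.s k89 k93 1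
  (.s k243 k162 12 (.s k241 k242 0 (.d k249 k245 k9 1 11)))), (.s k89 k93 1 (.s k170 k255 14 (.s k8
  k251 12 (.s k12 k4 1 (.d k243 k162 k166 12 14))))), (.s k89 k93 1 (.s k249 k9 11 (.s k245 k241 1
  (.d k255 k250 k170 2 14)))), (.s k243 k162 12 (.s k241 k242 0 (.s k245 k249 1 (.d k255 k250 k170 2
  14))))] .n) (.c k240 (.q k165 [(.s k93 k89 1 (.d k173 k161 k13 1 11)), (.s k86 k244 12 (.s k84 k87
  0 (.s k252 k168 13 (.d k255 k254 k170 0 14))))] (.c k82 (.l (.s k161 k173 1 (.s k89 k93 1 (.s k241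
  k13 13 (.d k245 k5 k249 11 1))))) (.c k161 (.q k82 [(.s k83 k80 0 (.s k89 k93 1 (.d k86 k92 k244 2
  12))), (.s k89 k93 1 (.s k241 k13 13 (.d k245 k5 k249 11 1))), (.s k86 k244 12 (.s k84 k87 0 (.s
  k252 k168 13 (.d k255 k254 k170 0 14))))] .n) .n))) .n))))) (.c k93 (.l (.s k243 k162 12 (.s k255
  k170 14 (.s k247 k251 1 (.s k166 k4 12 (.s k89 k12 14 (.s k252 k254 0 (.d k249 k9 k246 11
  2)))))))) .n))))) (.c k84 (.q k4 [(.s k166 k247 12 (.s k170 k255 14 (.s k162 k174 1 (.s k243 k81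
  12 (.d k12 k8 k89 1 14))))), (.s k1 k253 13 (.s k3 k2 0 (.s k86 k252 14 (.s k166 k247 12 (.s k6
  k246 11 (.s k5 k7 0 (.d k9 k13 k12 1 2))))))), (.s k1 k253 13 (.s k3 k2 0 (.s k12 k8 1 (.s k9 k6 2
  (.s k89 k249 11 (.s k93 k81 1 (.d k255 k174 k170 12 14)))))))] (.c k12 (.l (.s k1 k253 13 (.s k3
  k2 0 (.s k166 k247 12 (.s k163 k172 2 (.s k170 k255 14 (.s k243 k83 11 (.d k162 k174 k81 1
  12)))))))) (.c k255 (.l (.s k1 k253 13 (.s k3 k2 0 (.s k12 k8 1 (.s k9 k6 2 (.s k89 k249 11 (.d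
  k166 k247 k243 12 14))))))) .n))) (.c k86 (.f k170 k255 14 (.f k171 k168 0 (.f k253 k1 13 (.q k153
  [(.s k17 k221 9 (.s k51 k34 4 (.s k136 k187 4 (.d k204 k68 k102 9 14)))), (.s k185 k137 3 (.s k187
  k136 4 (.s k139 k155 3 (.d k184 k186 k154 0 4)))), (.s k185 k137 3 (.s k49 k117 9 (.s k205 k101 13
  (.d k221 k237 k17 3 9))))] (.c k82 (.q k94 [(.s k17 k221 9 (.s k51 k34 4 (.s k136 k187 4 (.d k204
  k68 k102 9 14)))), (.s k185 k137 3 (.s k187 k136 4 (.s k139 k155 3 (.d k184 k186 k154 0 4)))), (.s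
  k185 k137 3 (.s k49 k117 9 (.s k205 k101 13 (.d k221 k237 k17 3 9))))] .n) (.c k94 (.q k82 [(.s
  k17 k221 9 (.s k51 k34 4 (.s k136 k187 4 (.d k204 k68 k102 9 14)))), (.s k185 k137 3 (.s k187 k136
  4 (.s k139 k155 3 (.d k184 k186 k154 0 4)))), (.s k185 k137 3 (.s k49 k117 9 (.s k205 k101 13 (.d
  k221 k237 k17 3 9))))] .n) .n)))))) (.c k87 (.l (.s k1 k253 13 (.s k3 k2 0 (.s k170 k255 14 (.s
  k168 k171 0 (.d k252 k84 k86 13 14)))))) (.c k170 (.f k1 k253 13 (.q k89 [(.s k9 k249 11 (.s k13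
  k5 1 (.s k81 k93 1 (.d k241 k161 k165 11 13)))), (.s k3 k2 0 (.s k81 k93 1 (.s k86 k252 14 (.s k83
  k92 2 (.d k243 k163 k162 11 12))))), (.s k3 k2 0 (.s k9 k249 11 (.s k12 k6 2 (.s k4 k8 1 (.d k166
  k247 k243 12 14)))))] (.c k10 (.q k250 [(.s k9 k249 11 (.s k13 k5 1 (.s k81 k93 1 (.d k241 k161
  k165 11 13)))), (.s k3 k2 0 (.s k86 k252 14 (.s k83 k92 2 (.s k243 k163 11 (.d k81 k93 k162 1
  12))))), (.s k3 k2 0 (.s k9 k249 11 (.s k86 k252 14 (.s k83 k92 2 (.s k243 k163 11 (.d k12 k6 k166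
  2 14))))))] (.c k8 (.l (.s k9 k249 11 (.s k13 k5 1 (.s k81 k93 1 (.d k241 k161 k165 11 13))))) (.c
  k9 (.q k8 [(.s k12 k4 1 (.s k81 k93 1 (.d k243 k162 k166 12 14))), (.s k3 k2 0 (.s k12 k4 1 (.s
  k86 k252 14 (.s k83 k92 2 (.d k243 k163 k166 11 14))))), (.s k3 k2 0 (.s k81 k93 1 (.s k86 k252 14
  (.s k83 k92 2 (.d k243 k163 k162 11 12)))))] (.c k12 (.l (.s k3 k2 0 (.s k81 k93 1 (.s k86 k252 14
  (.s k243 k162 12 (.d k83 k92 k163 2 11)))))) (.c k243 (.l (.s k3 k2 0 (.s k12 k4 1 (.s k86 k252 14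
  (.s k87 k84 0 (.s k93 k81 1 (.d k255 k174 k171 12 13))))))) .n))) .n))) (.c k250 (.q k10 [(.s k5
  k15 2 (.d k9 k13 k249 1 11)), (.s k3 k2 0 (.s k9 k249 11 (.s k12 k6 2 (.s k4 k8 1 (.d k166 k247
  k243 12 14)))))] (.c k3 (.l (.s k9 k249 11 (.d k5 k13 k15 1 2))) (.c k9 (.l (.s k5 k15 2 (.s k81
  k93 1 (.s k161 k241 11 (.d k165 k173 k245 1 11))))) (.c k249 (.l (.s k5 k15 2 (.s k13 k9 1 (.d
  k165 k245 k241 11 13)))) .n)))) .n)))) (.c k171 (.l (.s k253 k1 13 (.s k255 k170 14 (.s k252 k254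
  0 (.s k84 k168 13 (.d k86 k87 k3 0 14)))))) (.c k252 (.q k4 [(.s k166 k247 12 (.s k170 k255 14 (.s
  k162 k174 1 (.s k243 k81 12 (.d k12 k8 k89 1 14))))), (.s k1 k253 13 (.s k3 k2 0 (.s k12 k8 1 (.s
  k9 k6 2 (.s k89 k249 11 (.d k166 k243 k247 14 12)))))), (.s k166 k247 12 (.s k170 k255 14 (.s k168
  k171 0 (.s k172 k163 2 (.s k160 k164 1 (.s k174 k162 1 (.d k175 k173 k165 0 2))))))), (.s k12 k8 1
  (.s k166 k247 12 (.s k89 k243 14 (.s k93 k81 1 (.d k255 k174 k170 12 14))))), (.s k1 k253 13 (.s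
  k3 k2 0 (.s k12 k8 1 (.s k9 k6 2 (.s k89 k249 11 (.s k93 k81 1 (.d k255 k174 k170 12 14)))))))]
  (.c k243 (.l (.s k1 k253 13 (.s k3 k2 0 (.s k12 k8 1 (.s k9 k6 2 (.s k255 k170 14 (.s k93 k174 12
  (.d k89 k81 k249 1 11)))))))) (.c k255 (.l (.s k12 k8 1 (.s k166 k247 12 (.s k163 k172 2 (.s k243
  k89 14 (.s k3 k83 11 (.d k1 k2 k253 0 13))))))) .n))) (.c k253 (.q k12 [(.s k4 k8 1 (.s k166 k247
  12 (.s k89 k243 14 (.s k93 k81 1 (.d k255 k174 k170 12 14))))), (.s k4 k8 1 (.s k166 k247 12 (.s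
  k172 k163 2 (.s k252 k92 11 (.s k84 k168 13 (.d k86 k87 k3 0 14)))))), (.s k170 k255 14 (.s k168
  k171 0 (.s k252 k84 13 (.s k172 k92 11 (.s k166 k163 2 (.s k162 k174 1 (.d k243 k81 k89 12
  14)))))))] (.c k166 (.l (.s k8 k4 1 (.s k170 k255 14 (.s k89 k251 12 (.s k9 k249 11 (.s k3 k6 2
  (.s k2 k1 0 (.d k86 k254 k252 13 14)))))))) .n)) (.c k254 (.l (.s k1 k253 13 (.s k3 k2 0 (.s k86
  k252 14 (.s k255 k170 14 (.d k87 k84 k171 0 13)))))) (.c k255 (.q k9 [(.s k1 k253 13 (.s k13 k5 1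
  (.s k89 k249 11 (.s k81 k93 1 (.d k241 k161 k165 11 13))))), (.s k1 k253 13 (.s k3 k2 0 (.s k12 k6
  2 (.s k4 k8 1 (.s k166 k247 12 (.d k89 k243 k249 14 11)))))), (.s k89 k249 11 (.s k81 k93 1 (.s
  k243 k162 12 (.s k12 k166 14 (.s k3 k6 2 (.s k83 k163 11 (.d k86 k92 k252 2 14))))))), (.s k1 k253
  13 (.s k3 k2 0 (.s k5 k13 1 (.s k6 k12 2 (.s k4 k7 0 (.s k166 k247 12 (.d k86 k252 k246 14
  11)))))))] (.c k12 (.l (.s k1 k253 13 (.s k13 k5 1 (.s k89 k249 11 (.s k241 k165 13 (.d k81 k93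
  k161 1 11)))))) (.c k252 (.l (.s k89 k249 11 (.s k81 k93 1 (.s k243 k162 12 (.s k12 k166 14 (.s k3
  k6 2 (.d k1 k2 k253 0 13))))))) .n))) .n)))))))))))))

def t11_91 : T TT 256 :=
  (.q k105 [(.s k65 k125 5 (.s k195 k130 8 (.s k150 k60 14 (.s k215 k20 8 (.d k255 k235 k170 5
  14)))))] (.c k20 (.f k170 k255 14 (.q k171 [(.s k169 k168 0 (.s k235 k40 8 (.s k43 k107 7 (.s k232
  k106 8 (.d k233 k234 k41 0 7))))), (.s k65 k125 5 (.s k169 k168 0 (.s k1 k253 13 (.s k41 k233 7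
  (.s k61 k21 5 (.d k193 k129 k149 7 13)))))), (.s k65 k125 5 (.s k195 k130 8 (.s k235 k40 8 (.s
  k107 k43 7 (.s k63 k151 13 (.s k42 k21 6 (.d k106 k104 k234 0 7)))))))] (.c k41 (.l (.s k40 k235 8
  (.s k168 k169 0 (.s k84 k252 13 (.s k86 k87 0 (.s k104 k232 7 (.d k124 k64 k67 5 6))))))) .n)))
  (.c k60 (.f k125 k65 5 (.f k170 k255 14 (.q k251 [(.s k89 k8 12 (.s k93 k81 1 (.s k77 k109 3 (.s
  k113 k101 5 (.d k121 k117 k73 1 3))))), (.s k8 k89 12 (.s k40 k235 8 (.s k56 k24 3 (.s k154 k203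
  12 (.d k186 k138 k121 3 8))))), (.s k235 k40 8 (.s k203 k219 3 (.s k154 k56 12 (.s k16 k223 10 (.s
  k48 k32 3 (.s k138 k186 3 (.d k207 k69 k101 10 14)))))))] (.c k8 (.f k235 k40 8 (.l (.s k203 k219
  3 (.s k56 k154 12 (.s k121 k186 8 (.s k89 k73 3 (.s k93 k81 1 (.s k77 k109 3 (.d k113 k117 k101 1
  5))))))))) .n)))) (.c k65 (.f k170 k255 14 (.f k235 k40 8 (.q k251 [(.s k8 k89 12 (.s k203 k219 3
  (.s k138 k73 8 (.d k154 k186 k56 3 12)))), (.s k8 k89 12 (.s k4 k12 1 (.s k166 k247 12 (.s k227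
  k44 10 (.s k239 k231 1 (.s k32 k101 10 (.d k162 k174 k97 1 8))))))), (.s k203 k219 3 (.s k154 k56
  12 (.s k16 k223 10 (.s k48 k32 3 (.s k138 k186 3 (.d k207 k69 k101 10 14))))))] (.c k8 (.f k203
  k219 3 (.f k56 k154 12 (.f k121 k186 8 (.l (.s k89 k73 3 (.s k81 k93 1 (.s k243 k162 12 (.s k12
  k166 14 (.s k60 k182 10 (.s k28 k44 3 (.d k150 k211 k195 10 14))))))))))) .n)))) (.c k125 (.f k170
  k255 14 (.f k40 k235 8 (.f k60 k20 5 (.f k195 k150 14 (.q k171 [(.s k169 k168 0 (.s k1 k253 13 (.s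
  k3 k2 0 (.d k41 k22 k233 6 7)))), (.s k168 k169 0 (.s k104 k232 7 (.s k106 k107 0 (.s k64 k127 6
  (.d k84 k124 k252 5 13)))))] (.c k168 (.q k1 [(.s k3 k2 0 (.s k169 k253 13 (.d k41 k22 k233 6
  7))), (.s k3 k2 0 (.s k67 k131 7 (.s k86 k124 6 (.d k169 k253 k252 13 14)))), (.s k3 k2 0 (.s k41
  k22 6 (.s k42 k43 0 (.d k21 k61 k63 5 6)))), (.s k169 k253 13 (.s k41 k233 7 (.s k42 k43 0 (.d k21
  k61 k63 5 6))))] .n) (.c k169 (.q k90 [(.s k10 k250 11 (.s k15 k5 2 (.d k75 k120 k135 4 9))), (.s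
  k80 k95 2 (.s k120 k75 4 (.d k240 k180 k160 9 11))), (.s k10 k250 11 (.s k15 k5 2 (.s k45 k30 4
  (.d k165 k240 k225 14 9))))] (.c k15 (.l (.s k120 k75 4 (.s k240 k180 9 (.d k80 k95 k160 2 11))))
  (.c k131 (.q k188 [(.s k10 k250 11 (.s k15 k5 2 (.d k75 k120 k135 4 9))), (.s k80 k95 2 (.s k120
  k75 4 (.d k240 k180 k160 9 11))), (.s k10 k250 11 (.s k15 k5 2 (.s k45 k30 4 (.d k165 k240 k225 14
  9))))] (.c k15 (.l (.s k120 k75 4 (.s k240 k180 9 (.d k80 k95 k160 2 11)))) (.c k240 (.l (.s k75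
  k120 4 (.s k15 k135 9 (.d k10 k5 k250 2 11)))) .n))) (.c k188 (.q k131 [(.s k10 k250 11 (.s k15 k5
  2 (.d k75 k120 k135 4 9))), (.s k130 k65 8 (.s k128 k129 0 (.d k191 k149 k151 6 5)))] .n) (.c k240
  (.l (.s k75 k120 4 (.s k15 k135 9 (.d k10 k5 k250 2 11)))) .n))))) (.c k233 (.l (.s k168 k169 0
  (.s k84 k252 13 (.s k86 k87 0 (.s k124 k67 6 (.d k104 k64 k232 5 7)))))) (.c k252 (.l (.s k169
  k168 0 (.s k41 k233 7 (.s k3 k22 6 (.d k1 k2 k253 0 13))))) .n))))))))) (.c k130 (.l (.s k125 k65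
  5 (.s k255 k170 14 (.s k60 k190 8 (.s k150 k195 14 (.d k20 k40 k215 5 8)))))) (.c k150 (.f k170
  k255 14 (.q k171 [(.s k169 k168 0 (.s k235 k40 8 (.s k43 k107 7 (.s k232 k106 8 (.d k233 k234 k41
  0 7))))), (.s k65 k125 5 (.s k169 k168 0 (.s k1 k253 13 (.s k41 k233 7 (.s k61 k21 5 (.d k193 k129
  k149 7 13)))))), (.s k65 k125 5 (.s k195 k130 8 (.s k235 k40 8 (.s k107 k43 7 (.s k63 k151 13 (.s
  k42 k21 6 (.d k106 k104 k234 0 7)))))))] (.c k41 (.l (.s k40 k235 8 (.s k168 k169 0 (.s k84 k252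
  13 (.s k86 k87 0 (.s k104 k232 7 (.d k124 k64 k67 5 6))))))) .n))) (.c k170 (.f k65 k125 5 (.q
  k169 [(.s k1 k253 13 (.s k41 k233 7 (.s k61 k21 5 (.d k193 k129 k149 7 13)))), (.s k195 k130 8 (.s
  k233 k41 7 (.s k252 k214 6 (.s k84 k168 13 (.d k86 k87 k3 0 14))))), (.s k1 k253 13 (.s k3 k2 0
  (.s k86 k252 14 (.s k67 k124 6 (.d k195 k131 k130 7 8)))))] (.c k171 (.q k251 [(.s k1 k253 13 (.s
  k41 k233 7 (.s k61 k21 5 (.d k193 k129 k149 7 13)))), (.s k195 k130 8 (.s k233 k41 7 (.s k252 k214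
  6 (.s k84 k168 13 (.d k86 k87 k3 0 14))))), (.s k1 k253 13 (.s k3 k2 0 (.s k86 k252 14 (.s k67
  k124 6 (.d k195 k131 k130 7 8)))))] .n) (.c k251 (.q k171 [(.s k1 k253 13 (.s k41 k233 7 (.s k61
  k21 5 (.d k193 k129 k149 7 13)))), (.s k195 k130 8 (.s k233 k41 7 (.s k252 k214 6 (.s k84 k168 13
  (.d k86 k87 k3 0 14))))), (.s k1 k253 13 (.s k3 k2 0 (.s k86 k252 14 (.d k87 k255 k84 13 0))))]
  (.c k8 (.q k89 [(.s k1 k253 13 (.s k41 k233 7 (.s k61 k21 5 (.d k193 k129 k149 7 13)))), (.s k73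
  k121 3 (.s k77 k69 1 (.s k81 k93 1 (.d k113 k97 k101 3 5))))] (.c k9 (.q k10 [(.s k1 k253 13 (.s
  k41 k233 7 (.s k61 k21 5 (.d k193 k129 k149 7 13)))), (.s k73 k121 3 (.s k77 k69 1 (.s k81 k93 1
  (.d k113 k97 k101 3 5))))] .n) (.c k10 (.l (.s k9 k249 11 (.s k1 k253 13 (.s k3 k2 0 (.s k86 k252
  14 (.d k87 k255 k84 13 0)))))) .n))) (.c k89 (.q k8 [(.s k1 k253 13 (.s k41 k233 7 (.s k61 k21 5
  (.d k193 k129 k149 7 13)))), (.s k12 k4 1 (.s k195 k130 8 (.s k73 k134 10 (.s k69 k77 1 (.d k138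
  k203 k207 8 10)))))] (.c k88 (.q k90 [(.s k1 k253 13 (.s k41 k233 7 (.s k61 k21 5 (.d k193 k129
  k149 7 13)))), (.s k12 k4 1 (.s k195 k130 8 (.s k73 k134 10 (.s k69 k77 1 (.d k138 k203 k207 8
  10)))))] .n) (.c k90 (.q k88 [(.s k1 k253 13 (.s k41 k233 7 (.s k61 k21 5 (.d k193 k129 k149 7
  13)))), (.s k168 k248 11 (.s k195 k130 8 (.s k233 k41 7 (.d k252 k214 k84 6 13)))), (.s k1 k253 13
  (.s k3 k2 0 (.s k86 k252 14 (.d k87 k255 k84 13 0))))] (.c k10 (.q k250 [(.s k1 k253 13 (.s k41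
  k233 7 (.s k61 k21 5 (.d k193 k129 k149 7 13)))), (.s k168 k248 11 (.s k195 k130 8 (.s k233 k41 7
  (.d k252 k214 k84 6 13)))), (.s k1 k253 13 (.s k3 k2 0 (.s k86 k252 14 (.d k87 k255 k84 13 0))))]
  .n) (.c k250 (.q k10 [(.s k1 k253 13 (.s k41 k233 7 (.s k61 k21 5 (.d k193 k129 k149 7 13)))), (.s
  k195 k130 8 (.s k233 k41 7 (.s k252 k214 6 (.d k168 k248 k84 11 13)))), (.s k1 k253 13 (.s k3 k2 0
  (.s k86 k252 14 (.d k87 k255 k84 13 0))))] (.c k248 (.q k249 [(.s k253 k1 13 (.s k245 k241 1 (.d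
  k5 k165 k15 11 2))), (.s k12 k4 1 (.s k195 k130 8 (.s k73 k134 10 (.s k69 k77 1 (.d k138 k203 k207
  8 10)))))] .n) (.c k249 (.l (.s k248 k168 11 (.s k1 k253 13 (.s k3 k2 0 (.s k86 k252 14 (.d k87
  k255 k84 13 0)))))) .n))) .n))) .n))) .n))) .n)))) (.c k171 (.q k251 [(.s k65 k125 5 (.s k195 k130
  8 (.s k60 k150 14 (.s k40 k20 5 (.d k170 k235 k255 8 14))))), (.s k170 k255 14 (.s k8 k89 12 (.s
  k235 k40 8 (.s k203 k219 3 (.s k138 k73 8 (.d k154 k186 k56 3 12))))))] (.c k40 (.l (.s k65 k125 5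
  (.s k195 k130 8 (.s k150 k60 14 (.s k215 k20 8 (.d k255 k235 k170 5 14)))))) (.c k170 (.q k169
  [(.s k1 k253 13 (.s k41 k233 7 (.s k61 k21 5 (.s k65 k125 5 (.d k193 k129 k149 7 13))))), (.s k65
  k125 5 (.s k195 k130 8 (.s k233 k41 7 (.s k252 k214 6 (.s k84 k168 13 (.d k86 k87 k3 0 14)))))),
  (.s k1 k253 13 (.s k3 k2 0 (.s k65 k125 5 (.s k86 k252 14 (.s k67 k124 6 (.d k195 k131 k130 7
  8)))))), (.s k1 k253 13 (.s k3 k2 0 (.s k41 k233 7 (.s k60 k22 6 (.s k20 k40 5 (.d k150 k215 k195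
  8 14))))))] .n) (.c k235 (.l (.s k125 k65 5 (.s k255 k170 14 (.s k60 k190 8 (.s k20 k40 5 (.d k150
  k215 k195 8 14)))))) (.c k255 (.q k3 [(.s k1 k2 0 (.s k65 k125 5 (.s k129 k193 7 (.s k66 k192 8
  (.s k67 k64 0 (.d k195 k131 k130 7 8)))))), (.s k1 k2 0 (.s k169 k253 13 (.s k41 k233 7 (.s k60
  k22 6 (.s k20 k40 5 (.d k150 k215 k195 8 14)))))), (.s k65 k125 5 (.s k195 k130 8 (.s k67 k131 7
  (.s k86 k124 6 (.s k84 k87 0 (.d k252 k168 k169 13 14)))))), (.s k1 k2 0 (.s k125 k65 5 (.s k253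
  k169 13 (.s k61 k189 7 (.s k21 k41 5 (.d k149 k213 k193 7 13))))))] .n) .n))))) (.c k190 (.l (.s
  k65 k125 5 (.s k195 k130 8 (.s k60 k150 14 (.s k170 k255 14 (.d k40 k20 k235 5 8)))))) (.c k195
  (.f k125 k65 5 (.f k170 k255 14 (.f k235 k40 8 (.q k251 [(.s k8 k89 12 (.s k203 k219 3 (.s k154
  k56 12 (.d k138 k186 k73 3 8)))), (.s k8 k89 12 (.s k4 k12 1 (.s k166 k247 12 (.s k227 k44 10 (.s
  k239 k231 1 (.s k32 k101 10 (.d k162 k174 k97 1 8))))))), (.s k203 k219 3 (.s k154 k56 12 (.s k16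
  k223 10 (.s k48 k32 3 (.s k138 k186 3 (.d k207 k69 k101 10 14))))))] (.c k8 (.l (.s k203 k219 3
  (.s k56 k154 12 (.s k121 k186 8 (.s k89 k73 3 (.s k93 k81 1 (.s k77 k109 3 (.d k113 k117 k101 1
  5)))))))) .n))))) (.c k215 (.l (.s k65 k125 5 (.s k170 k255 14 (.s k40 k235 8 (.s k195 k130 8 (.d
  k60 k20 k150 5 14)))))) (.c k235 (.l (.s k125 k65 5 (.s k255 k170 14 (.s k60 k190 8 (.s k20 k40 5
  (.d k150 k215 k195 8 14)))))) (.c k251 (.q k171 [(.s k65 k125 5 (.s k195 k130 8 (.s k150 k60 14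
  (.s k215 k20 8 (.d k255 k235 k170 5 14))))), (.s k170 k255 14 (.s k169 k168 0 (.s k233 k41 7 (.s
  k235 k40 8 (.s k43 k107 7 (.d k232 k234 k106 0 8))))))] (.c k170 (.q k89 [(.s k93 k81 1 (.s k121
  k73 3 (.s k125 k65 5 (.s k77 k109 3 (.d k113 k117 k101 1 5))))), (.s k81 k93 1 (.s k121 k73 3 (.s
  k243 k162 12 (.s k60 k182 10 (.s k20 k40 5 (.d k150 k215 k195 8 14)))))), (.s k65 k125 5 (.s k81
  k93 1 (.s k195 k130 8 (.s k150 k60 14 (.s k211 k28 10 (.d k243 k227 k162 3 12)))))), (.s k65 k125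
  5 (.s k73 k121 3 (.s k195 k130 8 (.s k12 k134 10 (.s k4 k8 1 (.d k166 k247 k243 12 14))))))] .n)
  (.c k235 (.l (.s k125 k65 5 (.s k255 k170 14 (.s k60 k190 8 (.s k20 k40 5 (.d k150 k215 k195 8
  14)))))) (.c k255 (.q k243 [(.s k81 k162 12 (.s k89 k93 1 (.s k121 k73 3 (.s k60 k182 10 (.s k20
  k40 5 (.d k150 k215 k195 8 14)))))), (.s k65 k125 5 (.s k195 k130 8 (.s k227 k211 3 (.s k166 k44
  10 (.s k4 k247 12 (.d k12 k8 k89 1 14)))))), (.s k65 k125 5 (.s k81 k162 12 (.s k97 k113 3 (.s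
  k195 k130 8 (.s k146 k48 12 (.d k211 k227 k16 3 8))))))] (.c k60 (.l (.s k81 k162 12 (.s k89 k93 1
  (.s k12 k166 14 (.s k73 k121 3 (.s k195 k134 10 (.d k65 k125 k130 5 8))))))) (.c k195 (.l (.s k65
  k125 5 (.s k81 k162 12 (.s k89 k93 1 (.s k73 k121 3 (.s k77 k69 1 (.d k113 k97 k101 3 5)))))))
  .n))) .n)))) (.c k255 (.q k3 [(.s k1 k2 0 (.s k65 k125 5 (.s k129 k193 7 (.s k66 k192 8 (.s k67
  k64 0 (.d k195 k131 k130 7 8)))))), (.s k1 k2 0 (.s k169 k253 13 (.s k41 k233 7 (.s k60 k22 6 (.s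
  k20 k40 5 (.d k150 k215 k195 8 14)))))), (.s k65 k125 5 (.s k195 k130 8 (.s k67 k131 7 (.s k86
  k124 6 (.s k84 k87 0 (.d k252 k168 k169 13 14)))))), (.s k1 k2 0 (.s k125 k65 5 (.s k253 k169 13
  (.s k61 k189 7 (.s k21 k41 5 (.d k149 k213 k193 7 13))))))] (.c k171 (.q k251 [(.s k1 k2 0 (.s k65
  k125 5 (.s k129 k193 7 (.s k66 k192 8 (.s k67 k64 0 (.d k195 k131 k130 7 8)))))), (.s k1 k2 0 (.s
  k169 k253 13 (.s k41 k233 7 (.s k60 k22 6 (.s k20 k40 5 (.d k150 k215 k195 8 14)))))), (.s k65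
  k125 5 (.s k195 k130 8 (.s k67 k131 7 (.s k86 k124 6 (.s k84 k87 0 (.d k252 k168 k169 13 14)))))),
  (.s k1 k2 0 (.s k125 k65 5 (.s k253 k169 13 (.s k61 k189 7 (.s k21 k41 5 (.d k149 k213 k193 7
  13))))))] .n) (.c k251 (.q k171 [(.s k1 k2 0 (.s k169 k253 13 (.s k252 k86 14 (.d k168 k170 k84 0
  13)))), (.s k1 k2 0 (.s k65 k125 5 (.s k129 k193 7 (.s k66 k192 8 (.s k67 k64 0 (.d k195 k131 k130
  7 8)))))), (.s k65 k125 5 (.s k195 k130 8 (.s k67 k131 7 (.s k86 k124 6 (.s k84 k87 0 (.d k252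
  k168 k169 13 14))))))] (.c k243 (.q k247 [(.s k1 k2 0 (.s k169 k253 13 (.s k252 k86 14 (.d k168
  k170 k84 0 13)))), (.s k1 k2 0 (.s k65 k125 5 (.s k129 k193 7 (.s k66 k192 8 (.s k67 k64 0 (.d
  k195 k131 k130 7 8)))))), (.s k65 k125 5 (.s k195 k130 8 (.s k67 k131 7 (.s k86 k124 6 (.s k84 k87
  0 (.d k252 k168 k169 13 14))))))] (.c k15 (.q k167 [(.s k1 k2 0 (.s k87 k7 11 (.s k86 k84 0 (.d
  k169 k253 k252 13 14)))), (.s k4 k166 12 (.s k7 k87 11 (.s k6 k5 0 (.d k12 k8 k9 1 2)))), (.s k1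
  k2 0 (.s k166 k4 12 (.s k169 k253 13 (.d k163 k175 k172 1 2))))] (.c k95 (.l (.s k175 k163 1 (.s
  k1 k2 0 (.s k87 k7 11 (.s k86 k84 0 (.d k169 k253 k252 13 14)))))) (.c k175 (.q k95 [(.s k1 k2 0
  (.s k87 k7 11 (.s k86 k84 0 (.d k169 k253 k252 13 14)))), (.s k4 k166 12 (.s k7 k87 11 (.s k6 k5 0
  (.d k12 k8 k9 1 2)))), (.s k1 k2 0 (.s k169 k253 13 (.s k168 k170 0 (.d k252 k86 k84 14 13))))]
  .n) .n))) (.c k167 (.q k15 [(.s k1 k2 0 (.s k169 k253 13 (.s k252 k86 14 (.d k168 k170 k84 0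
  13)))), (.s k4 k166 12 (.s k5 k10 2 (.s k6 k7 0 (.d k12 k8 k9 1 2))))] .n) .n))) (.c k247 (.q k243
  [(.s k1 k2 0 (.s k169 k253 13 (.s k252 k86 14 (.d k168 k170 k84 0 13)))), (.s k65 k125 5 (.s k81
  k162 12 (.s k89 k93 1 (.s k12 k166 14 (.s k73 k121 3 (.d k195 k130 k134 8 10))))))] (.c k170 (.l
  (.s k1 k2 0 (.s k81 k162 12 (.s k83 k163 11 (.s k82 k80 0 (.d k161 k241 k240 11 12)))))) .n))
  .n))) .n))) .n)))))))))))))))

def t11_94 : T TT 256 :=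
  (.f k255 k170 14 (.q k106 [(.s k64 k127 6 (.s k192 k128 7 (.s k149 k63 14 (.d k213 k234 k21 6
  7))))] (.c k21 (.q k1 [(.s k3 k2 0 (.s k169 k253 13 (.s k86 k252 14 (.d k87 k84 k171 0 13)))), (.s
  k64 k127 6 (.s k192 k128 7 (.s k213 k234 6 (.s k253 k169 13 (.s k193 k233 5 (.s k65 k129 7 (.d
  k195 k130 k194 8 0))))))), (.s k3 k2 0 (.s k64 k127 6 (.s k192 k128 7 (.s k66 k129 8 (.s k86 k126
  5 (.d k87 k84 k171 0 13))))))] (.c k171 (.l (.s k3 k2 0 (.s k127 k64 6 (.s k63 k191 7 (.s k43 k23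
  5 (.d k169 k232 k253 8 13)))))) .n)) (.c k63 (.q k1 [(.s k3 k2 0 (.s k87 k171 13 (.s k86 k84 0 (.d
  k169 k253 k252 13 14)))), (.s k64 k127 6 (.s k192 k128 7 (.s k213 k234 6 (.s k253 k169 13 (.s k193
  k233 5 (.s k65 k129 7 (.d k195 k130 k194 8 0))))))), (.s k3 k2 0 (.s k64 k127 6 (.s k192 k128 7
  (.s k66 k129 8 (.s k86 k126 5 (.d k87 k84 k171 0 13))))))] (.c k171 (.l (.s k3 k2 0 (.s k64 k127 6
  (.s k169 k253 13 (.s k86 k252 14 (.s k192 k128 7 (.d k66 k126 k129 5 8))))))) .n)) (.c k64 (.q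
  k207 [(.s k69 k138 10 (.s k101 k117 3 (.s k154 k48 14 (.d k223 k239 k16 3 10)))), (.s k69 k138 10
  (.s k101 k117 3 (.s k111 k96 2 (.s k63 k159 11 (.s k21 k42 6 (.d k149 k213 k192 7 14)))))), (.s
  k223 k239 3 (.s k154 k16 10 (.s k202 k58 11 (.s k192 k197 2 (.s k149 k63 14 (.d k213 k234 k21 6
  7))))))] (.c k101 (.q k81 [(.s k89 k93 1 (.s k243 k162 12 (.s k166 k12 14 (.d k247 k251 k4 1
  12)))), (.s k239 k223 3 (.s k243 k162 12 (.s k231 k219 5 (.s k235 k227 1 (.s k215 k195 5 (.d k247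
  k251 k199 1 3)))))), (.s k89 k93 1 (.s k243 k162 12 (.s k219 k231 5 (.s k154 k24 8 (.d k223 k239
  k16 3 10)))))] (.c k32 (.l (.s k239 k223 3 (.s k89 k93 1 (.s k243 k162 12 (.s k166 k12 14 (.d k247
  k251 k4 1 12)))))) (.c k162 (.l (.s k93 k89 1 (.s k174 k12 12 (.s k239 k223 3 (.s k109 k44 8 (.s
  k60 k158 12 (.d k125 k77 k190 3 8))))))) (.c k166 (.l (.s k69 k138 10 (.s k93 k89 1 (.s k12 k174
  12 (.s k162 k243 12 (.s k77 k142 8 (.s k65 k73 1 (.d k125 k105 k109 5 3)))))))) (.c k174 (.l (.s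
  k89 k93 1 (.s k243 k162 12 (.s k166 k12 14 (.d k247 k251 k4 1 12))))) (.c k239 (.q k32 [(.s k89
  k93 1 (.s k243 k162 12 (.s k166 k12 14 (.d k247 k251 k4 1 12)))), (.s k16 k48 3 (.s k211 k146 8
  (.s k223 k154 10 (.s k219 k215 1 (.d k243 k231 k162 5 12))))), (.s k16 k48 3 (.s k89 k93 1 (.s
  k154 k223 10 (.s k24 k219 8 (.s k28 k20 1 (.d k211 k146 k150 8 10))))))] .n) (.c k243 (.l (.s k69
  k138 10 (.s k93 k89 1 (.s k12 k174 12 (.s k77 k142 8 (.s k65 k73 1 (.d k125 k105 k109 5 3)))))))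
  .n))))))) (.c k154 (.q k81 [(.s k89 k93 1 (.s k243 k162 12 (.s k166 k12 14 (.d k247 k251 k4 1
  12)))), (.s k93 k89 1 (.s k223 k239 3 (.s k158 k28 8 (.s k60 k109 12 (.s k190 k125 8 (.d k174 k142
  k12 3 12)))))), (.s k223 k239 3 (.s k243 k162 12 (.s k219 k231 5 (.s k215 k211 1 (.s k235 k195 5
  (.d k251 k247 k203 1 3))))))] (.c k138 (.q k186 [(.s k89 k93 1 (.s k243 k162 12 (.s k166 k12 14
  (.d k247 k251 k4 1 12)))), (.s k48 k117 10 (.s k16 k32 3 (.s k146 k211 8 (.s k97 k195 12 (.s k113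
  k65 3 (.d k243 k178 k162 8 12)))))), (.s k89 k93 1 (.s k117 k48 10 (.s k101 k69 3 (.s k113 k77 5
  (.s k65 k97 3 (.d k125 k121 k105 1 5))))))] .n) (.c k174 (.l (.s k89 k93 1 (.s k243 k162 12 (.s
  k166 k12 14 (.d k247 k251 k4 1 12))))) (.c k186 (.l (.s k138 k69 10 (.s k89 k93 1 (.s k243 k162 12
  (.s k166 k12 14 (.d k247 k251 k4 1 12)))))) (.c k251 (.l (.s k89 k93 1 (.s k123 k72 4 (.s k243
  k162 12 (.s k63 k183 9 (.s k21 k42 6 (.d k149 k213 k192 7 14))))))) .n))))) .n))) (.c k127 (.q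
  k195 [(.s k65 k130 8 (.s k215 k235 5 (.s k150 k20 8 (.d k105 k125 k60 5 14)))), (.s k65 k130 8 (.s
  k105 k125 5 (.s k107 k104 0 (.s k63 k151 13 (.s k21 k42 6 (.d k149 k213 k192 7 14)))))), (.s k215
  k235 5 (.s k150 k20 8 (.s k194 k62 13 (.s k192 k193 0 (.s k149 k63 14 (.d k213 k234 k21 6 7))))))]
  (.c k105 (.q k81 [(.s k243 k162 12 (.s k247 k251 1 (.s k166 k4 12 (.d k89 k93 k12 1 14)))), (.s
  k65 k130 8 (.s k97 k113 3 (.s k48 k146 12 (.s k32 k16 3 (.d k162 k227 k243 8 12)))))] (.c k40 (.l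
  (.s k235 k215 5 (.s k89 k93 1 (.s k243 k162 12 (.s k166 k12 14 (.d k247 k251 k4 1 12)))))) (.c
  k162 (.l (.s k65 k130 8 (.s k89 k93 1 (.s k97 k113 3 (.s k146 k48 12 (.s k211 k16 8 (.s k150 k28
  10 (.d k215 k20 k235 8 5)))))))) (.c k235 (.q k40 [(.s k89 k93 1 (.s k243 k162 12 (.s k166 k12 14
  (.d k247 k251 k4 1 12)))), (.s k20 k60 5 (.s k150 k215 8 (.s k194 k62 13 (.s k192 k193 0 (.s k213
  k234 6 (.d k149 k63 k21 14 7))))))] .n) (.c k243 (.l (.s k65 k130 8 (.s k93 k89 1 (.s k12 k174 12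
  (.s k8 k4 1 (.s k73 k134 10 (.s k69 k77 1 (.d k138 k203 k207 8 10)))))))) .n))))) (.c k150 (.q
  k199 [(.s k207 k203 1 (.s k69 k138 10 (.s k101 k117 3 (.s k154 k48 14 (.d k223 k239 k16 3 10))))),
  (.s k215 k235 5 (.s k247 k231 3 (.s k4 k166 12 (.s k12 k8 1 (.d k134 k69 k73 8 10))))), (.s k207
  k203 1 (.s k215 k235 5 (.s k223 k239 3 (.s k219 k211 1 (.d k231 k247 k243 3 5))))), (.s k207 k203
  1 (.s k69 k138 10 (.s k4 k134 8 (.s k215 k235 5 (.d k247 k166 k231 12 3)))))] (.c k130 (.q k190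
  [(.s k207 k203 1 (.s k69 k138 10 (.s k101 k117 3 (.s k154 k48 14 (.d k223 k239 k16 3 10))))), (.s
  k215 k235 5 (.s k247 k231 3 (.s k4 k166 12 (.s k12 k8 1 (.d k134 k69 k73 8 10))))), (.s k207 k203
  1 (.s k215 k235 5 (.s k223 k239 3 (.s k219 k211 1 (.d k231 k247 k243 3 5))))), (.s k125 k60 8 (.s
  k65 k105 5 (.s k207 k203 1 (.s k69 k138 10 (.s k73 k77 1 (.d k134 k4 k12 8 10))))))] .n) (.c k190
  (.l (.s k130 k65 8 (.s k207 k203 1 (.s k69 k138 10 (.s k4 k134 8 (.s k215 k235 5 (.d k247 k166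
  k231 12 3))))))) .n))) .n))) (.c k128 (.l (.s k127 k64 6 (.s k63 k191 7 (.s k149 k192 14 (.d k21
  k42 k213 6 7))))) (.c k149 (.f k64 k127 6 (.q k80 [(.s k240 k160 11 (.s k245 k250 2 (.s k165 k5 11
  (.d k90 k95 k15 2 14)))), (.s k96 k112 3 (.s k101 k111 2 (.s k117 k69 3 (.s k48 k186 10 (.d k192
  k128 k144 7 11)))))] (.c k95 (.l (.s k96 k112 3 (.s k160 k240 11 (.s k32 k224 7 (.s k48 k16 3 (.d
  k192 k128 k144 7 11)))))) (.c k128 (.q k191 [(.s k90 k95 2 (.s k74 k122 3 (.s k79 k69 2 (.d k112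
  k96 k101 3 6)))), (.s k240 k160 11 (.s k245 k250 2 (.s k165 k5 11 (.d k90 k95 k15 2 14)))), (.s
  k96 k112 3 (.s k160 k240 11 (.s k32 k224 7 (.s k48 k16 3 (.s k117 k186 10 (.d k101 k111 k69 2
  3))))))] .n) (.c k191 (.l (.s k128 k192 7 (.s k90 k95 2 (.s k74 k122 3 (.s k79 k69 2 (.d k112 k96
  k101 3 6)))))) .n))))) (.c k191 (.l (.s k64 k127 6 (.s k192 k128 7 (.s k149 k63 14 (.d k213 k234
  k21 6 7))))) (.c k192 (.q k1 [(.s k3 k2 0 (.s k87 k171 13 (.s k86 k84 0 (.d k169 k253 k252 13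
  14)))), (.s k127 k64 6 (.s k63 k191 7 (.s k21 k42 6 (.s k61 k41 5 (.s k253 k169 13 (.s k125 k189 7
  (.d k60 k190 k62 8 0))))))), (.s k3 k2 0 (.s k127 k64 6 (.s k63 k191 7 (.s k21 k42 6 (.s k23 k43 5
  (.s k22 k20 0 (.d k41 k61 k60 5 6)))))))] .n) (.c k213 (.q k1 [(.s k3 k2 0 (.s k87 k171 13 (.s k86
  k84 0 (.d k169 k253 k252 13 14)))), (.s k64 k127 6 (.s k169 k253 13 (.s k192 k128 7 (.s k149 k63
  14 (.s k129 k189 5 (.s k66 k3 8 (.d k65 k193 k67 7 0))))))), (.s k3 k2 0 (.s k64 k127 6 (.s k192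
  k128 7 (.s k66 k129 8 (.s k86 k126 5 (.d k87 k84 k171 0 13))))))] (.c k3 (.l (.s k127 k64 6 (.s
  k63 k191 7 (.s k21 k42 6 (.s k61 k41 5 (.s k60 k62 0 (.s k125 k190 8 (.d k253 k189 k169 7
  13)))))))) .n)) (.c k234 (.l (.s k127 k64 6 (.s k63 k191 7 (.s k21 k42 6 (.d k149 k213 k192 7
  14))))) .n))))))))))))

def t11_98 : T TT 256 :=
  (.f k255 k170 14 (.q k105 [(.s k65 k125 5 (.s k195 k130 8 (.s k150 k60 14 (.d k215 k235 k20 5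
  8))))] (.c k20 (.q k1 [(.s k3 k2 0 (.s k169 k253 13 (.s k86 k252 14 (.d k87 k84 k171 0 13)))), (.s
  k65 k125 5 (.s k169 k253 13 (.s k41 k233 7 (.s k61 k21 5 (.d k193 k129 k149 7 13))))), (.s k3 k2 0
  (.s k65 k125 5 (.s k129 k193 7 (.s k66 k192 8 (.s k67 k64 0 (.d k195 k131 k130 7 8))))))] .n) (.c
  k60 (.q k1 [(.s k3 k2 0 (.s k169 k253 13 (.s k86 k252 14 (.d k87 k84 k171 0 13)))), (.s k65 k125 5
  (.s k169 k253 13 (.s k41 k233 7 (.s k61 k21 5 (.d k193 k129 k149 7 13))))), (.s k3 k2 0 (.s k65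
  k125 5 (.s k129 k193 7 (.s k66 k192 8 (.s k67 k64 0 (.d k195 k131 k130 7 8))))))] .n) (.c k65 (.q
  k84 [(.s k86 k87 0 (.s k252 k168 13 (.s k253 k254 0 (.d k169 k1 k3 13 14)))), (.s k86 k87 0 (.s
  k124 k67 6 (.s k64 k104 5 (.s k192 k128 7 (.s k213 k234 6 (.s k149 k21 7 (.d k106 k127 k63 6
  14)))))))] (.c k86 (.f k252 k168 13 (.q k169 [(.d k253 k254 k1 0 13), (.s k233 k41 7 (.s k195 k214
  6 (.s k150 k60 14 (.d k215 k235 k20 5 8))))] (.c k2 (.l (.s k254 k253 0 (.s k233 k41 7 (.s k195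
  k214 6 (.s k150 k60 14 (.d k215 k235 k20 5 8)))))) (.c k254 (.q k2 [(.d k1 k3 k253 0 13), (.s k233
  k41 7 (.s k195 k214 6 (.s k215 k235 5 (.d k150 k20 k60 8 14))))] .n) .n)))) (.c k87 (.l (.s k252
  k168 13 (.s k253 k254 0 (.s k169 k1 13 (.s k233 k41 7 (.s k195 k214 6 (.s k150 k60 14 (.d k215
  k235 k20 5 8)))))))) .n))) (.c k125 (.q k84 [(.s k86 k87 0 (.s k252 k168 13 (.s k253 k254 0 (.d
  k169 k1 k3 13 14)))), (.s k86 k87 0 (.s k124 k67 6 (.s k64 k104 5 (.s k192 k128 7 (.s k213 k234 6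
  (.s k149 k21 7 (.d k106 k127 k63 6 14)))))))] (.c k86 (.f k252 k168 13 (.q k169 [(.d k253 k254 k1
  0 13), (.s k233 k41 7 (.s k195 k214 6 (.s k150 k60 14 (.d k215 k235 k20 5 8))))] (.c k2 (.l (.s
  k254 k253 0 (.s k233 k41 7 (.s k195 k214 6 (.s k150 k60 14 (.d k215 k235 k20 5 8)))))) (.c k254
  (.q k2 [(.d k1 k3 k253 0 13), (.s k233 k41 7 (.s k195 k214 6 (.s k215 k235 5 (.d k150 k20 k60 8
  14))))] .n) .n)))) (.c k87 (.l (.s k252 k168 13 (.s k253 k254 0 (.s k169 k1 13 (.s k233 k41 7 (.s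
  k195 k214 6 (.s k150 k60 14 (.d k215 k235 k20 5 8)))))))) .n))) (.c k130 (.l (.s k125 k65 5 (.s
  k60 k190 8 (.s k150 k195 14 (.d k20 k40 k215 5 8))))) (.c k150 (.f k125 k65 5 (.f k190 k60 8 (.q
  k21 [(.s k63 k42 6 (.s k127 k191 7 (.s k149 k213 7 (.d k106 k64 k192 6 14)))), (.s k149 k213 7 (.s
  k61 k193 13 (.s k1 k41 5 (.d k253 k189 k169 7 13)))), (.s k63 k42 6 (.s k191 k127 7 (.s k189 k188
  0 (.s k252 k126 8 (.d k253 k254 k61 0 7)))))] .n))) (.c k190 (.l (.s k65 k125 5 (.s k195 k130 8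
  (.s k150 k60 14 (.d k215 k235 k20 5 8))))) (.c k195 (.q k1 [(.s k3 k2 0 (.s k169 k253 13 (.s k86
  k252 14 (.d k87 k84 k171 0 13)))), (.s k3 k2 0 (.s k125 k65 5 (.s k60 k190 8 (.s k40 k20 5 (.s k41
  k22 6 (.s k21 k61 5 (.d k42 k43 k63 0 6))))))), (.s k65 k125 5 (.s k169 k253 13 (.s k41 k233 7 (.s
  k61 k21 5 (.d k193 k129 k149 7 13)))))] .n) (.c k215 (.q k1 [(.s k3 k2 0 (.s k169 k253 13 (.s k86
  k252 14 (.d k87 k84 k171 0 13)))), (.s k65 k125 5 (.s k169 k253 13 (.s k41 k233 7 (.s k61 k21 5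
  (.d k193 k129 k149 7 13))))), (.s k3 k2 0 (.s k65 k125 5 (.s k129 k193 7 (.s k66 k192 8 (.s k67
  k64 0 (.d k195 k131 k130 7 8))))))] .n) (.c k235 (.l (.s k125 k65 5 (.s k60 k190 8 (.s k20 k40 5
  (.d k150 k215 k195 8 14))))) .n))))))))))))

def t11_99 : T TT 256 :=
  (.f k255 k170 14 (.q k106 [(.s k64 k127 6 (.s k192 k128 7 (.s k149 k63 14 (.d k213 k234 k21 6
  7))))] (.c k21 (.q k1 [(.s k3 k2 0 (.s k169 k253 13 (.s k86 k252 14 (.d k87 k84 k171 0 13)))), (.s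
  k64 k127 6 (.s k192 k128 7 (.s k213 k234 6 (.s k253 k169 13 (.s k193 k233 5 (.s k65 k129 7 (.d
  k195 k130 k194 8 0))))))), (.s k3 k2 0 (.s k64 k127 6 (.s k192 k128 7 (.s k66 k129 8 (.s k86 k126
  5 (.d k87 k84 k171 0 13))))))] (.c k171 (.l (.s k3 k2 0 (.s k127 k64 6 (.s k63 k191 7 (.s k43 k23
  5 (.d k169 k232 k253 8 13)))))) .n)) (.c k63 (.q k1 [(.s k3 k2 0 (.s k169 k253 13 (.s k86 k252 14
  (.d k87 k84 k171 0 13)))), (.s k64 k127 6 (.s k192 k128 7 (.s k213 k234 6 (.s k253 k169 13 (.s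
  k193 k233 5 (.s k65 k129 7 (.d k195 k130 k194 8 0))))))), (.s k64 k127 6 (.s k169 k253 13 (.s k192
  k128 7 (.s k232 k43 8 (.s k252 k212 5 (.s k84 k168 13 (.d k86 k3 k87 14 0))))))), (.s k3 k2 0 (.s
  k64 k127 6 (.s k192 k128 7 (.s k66 k129 8 (.s k86 k126 5 (.d k87 k84 k171 0 13))))))] .n) (.c k64
  (.q k48 [(.s k16 k32 3 (.s k117 k186 10 (.s k154 k223 10 (.d k101 k69 k207 3 14)))), (.s k16 k32 3
  (.s k154 k223 10 (.s k58 k202 11 (.s k63 k53 2 (.s k21 k42 6 (.d k149 k213 k192 7 14)))))), (.s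
  k117 k186 10 (.s k101 k69 3 (.s k96 k111 2 (.s k192 k144 11 (.s k149 k63 14 (.d k213 k234 k21 6
  7))))))] (.c k101 (.q k87 [(.s k3 k171 13 (.s k1 k2 0 (.s k169 k253 13 (.d k86 k84 k252 0 14)))),
  (.s k3 k171 13 (.s k18 k33 4 (.s k86 k84 0 (.s k154 k222 9 (.d k16 k32 k223 3 10))))), (.s k84 k86
  0 (.s k117 k186 10 (.s k252 k168 13 (.s k116 k184 9 (.s k68 k100 3 (.d k119 k102 k118 4 0)))))),
  (.s k3 k171 13 (.s k2 k1 0 (.s k18 k33 4 (.s k34 k50 3 (.s k17 k51 4 (.d k16 k32 k19 3 0))))))]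
  (.c k32 (.q k239 [(.s k3 k171 13 (.s k1 k2 0 (.s k169 k253 13 (.d k86 k84 k252 0 14)))), (.s k86
  k84 0 (.s k223 k207 3 (.s k16 k154 10 (.s k19 k155 9 (.s k17 k18 0 (.d k153 k221 k220 9 10)))))),
  (.s k3 k171 13 (.s k18 k33 4 (.s k223 k207 3 (.s k16 k154 10 (.d k19 k17 k155 0 9)))))] .n) (.c
  k168 (.l (.s k86 k84 0 (.s k3 k171 13 (.s k169 k252 14 (.d k1 k2 k253 0 13))))) (.c k169 (.l (.s
  k32 k16 3 (.s k84 k86 0 (.s k3 k171 13 (.s k168 k252 13 (.s k100 k236 9 (.s k204 k152 13 (.d k68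
  k116 k136 3 9)))))))) (.c k171 (.l (.s k32 k16 3 (.s k84 k86 0 (.s k168 k252 13 (.s k100 k236 9
  (.s k204 k152 13 (.d k68 k116 k136 3 9))))))) (.c k239 (.l (.s k32 k16 3 (.s k3 k171 13 (.s k1 k2
  0 (.s k86 k84 0 (.d k169 k253 k252 13 14)))))) .n)))))) (.c k154 (.q k84 [(.s k86 k87 0 (.s k252
  k168 13 (.s k253 k254 0 (.d k169 k1 k3 13 14)))), (.s k16 k32 3 (.s k152 k220 9 (.s k100 k204 13
  (.s k116 k68 3 (.d k252 k184 k168 9 13)))))] (.c k138 (.l (.s k186 k117 10 (.s k86 k87 0 (.s k252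
  k168 13 (.s k169 k3 14 (.d k253 k254 k1 0 13)))))) (.c k168 (.l (.s k16 k32 3 (.s k86 k87 0 (.s
  k152 k220 9 (.s k100 k204 13 (.s k116 k68 3 (.s k101 k71 4 (.d k117 k69 k186 3 10)))))))) (.c k186
  (.q k138 [(.s k86 k87 0 (.s k252 k168 13 (.s k169 k3 14 (.d k253 k254 k1 0 13)))), (.s k69 k207 10
  (.s k101 k117 3 (.s k96 k111 2 (.s k192 k144 11 (.s k213 k234 6 (.d k149 k63 k21 14 7))))))] .n)
  (.c k252 (.l (.s k16 k32 3 (.s k87 k86 0 (.s k3 k171 13 (.s k2 k1 0 (.s k18 k33 4 (.s k17 k19 0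
  (.d k34 k50 k51 3 4)))))))) .n))))) .n))) (.c k127 (.q k48 [(.s k16 k32 3 (.s k117 k186 10 (.s
  k101 k69 3 (.d k154 k223 k207 10 14)))), (.s k16 k32 3 (.s k154 k223 10 (.s k58 k202 11 (.s k63
  k53 2 (.s k21 k42 6 (.d k149 k213 k192 7 14)))))), (.s k117 k186 10 (.s k101 k69 3 (.s k96 k111 2
  (.s k192 k144 11 (.s k149 k63 14 (.d k213 k234 k21 6 7))))))] (.c k101 (.q k149 [(.s k21 k213 7
  (.d k63 k42 k192 6 14)), (.s k63 k192 14 (.s k58 k53 2 (.s k154 k202 11 (.d k16 k32 k223 3 10))))]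
  (.c k32 (.q k239 [(.s k21 k213 7 (.d k63 k42 k192 6 14)), (.s k63 k192 14 (.s k58 k53 2 (.s k154
  k202 11 (.d k223 k207 k16 3 10))))] (.c k63 (.l (.s k213 k21 7 (.s k192 k234 6 (.s k144 k96 11 (.s
  k154 k159 2 (.d k223 k207 k16 3 10)))))) (.c k192 (.l (.s k21 k213 7 (.s k63 k42 6 (.s k58 k53 2
  (.s k154 k202 11 (.d k223 k207 k16 3 10)))))) .n))) (.c k63 (.l (.s k213 k21 7 (.s k192 k234 6 (.s
  k144 k96 11 (.s k154 k159 2 (.d k16 k32 k223 3 10)))))) (.c k192 (.l (.s k21 k213 7 (.s k63 k42 6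
  (.s k58 k53 2 (.s k154 k202 11 (.d k16 k32 k223 3 10)))))) (.c k239 (.l (.s k32 k16 3 (.s k21 k213
  7 (.d k63 k42 k192 6 14)))) .n))))) (.c k154 (.q k84 [(.s k252 k168 13 (.s k253 k254 0 (.s k169 k1
  13 (.d k86 k87 k3 0 14)))), (.s k16 k32 3 (.s k152 k220 9 (.s k100 k204 13 (.s k116 k68 3 (.d k252
  k184 k168 9 13)))))] (.c k138 (.l (.s k186 k117 10 (.s k86 k87 0 (.s k252 k168 13 (.s k169 k3 14
  (.d k253 k254 k1 0 13)))))) (.c k168 (.l (.s k16 k32 3 (.s k86 k87 0 (.s k152 k220 9 (.s k100 k204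
  13 (.s k116 k68 3 (.s k101 k71 4 (.d k117 k69 k186 3 10)))))))) (.c k186 (.q k138 [(.s k252 k168
  13 (.s k253 k254 0 (.s k169 k1 13 (.d k86 k87 k3 0 14)))), (.s k69 k207 10 (.s k101 k117 3 (.s k96
  k111 2 (.s k192 k144 11 (.s k213 k234 6 (.d k149 k63 k21 14 7))))))] .n) (.c k252 (.l (.s k16 k32
  3 (.s k87 k86 0 (.s k3 k171 13 (.s k2 k1 0 (.s k18 k33 4 (.s k17 k19 0 (.d k34 k50 k51 3 4))))))))
  .n))))) .n))) (.c k128 (.l (.s k127 k64 6 (.s k63 k191 7 (.s k149 k192 14 (.d k21 k42 k213 6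
  7))))) (.c k149 (.f k127 k64 6 (.q k90 [(.s k80 k95 2 (.s k240 k160 11 (.s k165 k15 14 (.d k245
  k250 k5 2 11)))), (.s k122 k74 3 (.s k117 k112 2 (.s k48 k186 10 (.s k16 k32 3 (.s k154 k223 10
  (.d k101 k69 k207 3 14))))))] (.c k80 (.l (.s k122 k74 3 (.s k112 k117 2 (.s k79 k101 6 (.s k95
  k111 3 (.s k15 k175 11 (.s k5 k10 2 (.d k165 k245 k240 11 14)))))))) (.c k128 (.l (.s k191 k63 7
  (.s k80 k95 2 (.s k240 k160 11 (.s k165 k15 14 (.d k245 k250 k5 2 11)))))) (.c k191 (.q k128 [(.s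
  k80 k95 2 (.s k240 k160 11 (.s k245 k250 2 (.d k165 k5 k15 11 14)))), (.s k122 k74 3 (.s k117 k112
  2 (.s k48 k186 10 (.s k16 k32 3 (.s k154 k223 10 (.d k101 k69 k207 3 14))))))] (.c k80 (.l (.s
  k122 k74 3 (.s k112 k117 2 (.s k79 k101 6 (.s k95 k111 3 (.s k15 k175 11 (.s k5 k10 2 (.d k165
  k245 k240 11 14)))))))) .n)) .n))))) (.c k191 (.l (.s k64 k127 6 (.s k192 k128 7 (.s k149 k63 14
  (.d k213 k234 k21 6 7))))) (.c k192 (.q k1 [(.s k3 k2 0 (.s k169 k253 13 (.s k86 k252 14 (.d k87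
  k84 k171 0 13)))), (.s k127 k64 6 (.s k63 k191 7 (.s k21 k42 6 (.s k61 k41 5 (.s k253 k169 13 (.s
  k125 k189 7 (.d k60 k190 k62 8 0))))))), (.s k3 k2 0 (.s k127 k64 6 (.s k63 k191 7 (.s k21 k42 6
  (.s k23 k43 5 (.s k22 k20 0 (.d k41 k61 k60 5 6)))))))] .n) (.c k213 (.q k1 [(.s k3 k2 0 (.s k169
  k253 13 (.s k86 k252 14 (.d k87 k84 k171 0 13)))), (.s k127 k64 6 (.s k63 k191 7 (.s k21 k42 6 (.s
  k61 k41 5 (.s k60 k62 0 (.s k125 k190 8 (.d k253 k189 k169 7 13))))))), (.s k64 k127 6 (.s k169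
  k253 13 (.s k192 k128 7 (.s k149 k63 14 (.s k129 k189 5 (.s k66 k3 8 (.d k65 k193 k67 7 0))))))),
  (.s k3 k2 0 (.s k64 k127 6 (.s k192 k128 7 (.s k66 k129 8 (.s k86 k126 5 (.d k87 k84 k171 0
  13))))))] .n) (.c k234 (.l (.s k127 k64 6 (.s k63 k191 7 (.s k21 k42 6 (.d k149 k213 k192 7
  14))))) .n))))))))))))

def t11_102 : T TT 256 :=
  (.f k170 k255 14 (.q k252 [(.s k84 k168 13 (.s k86 k87 0 (.s k2 k254 13 (.d k3 k1 k169 0 14))))]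
  (.c k1 (.q k4 [(.s k12 k8 1 (.s k166 k247 12 (.s k162 k174 1 (.d k243 k81 k89 12 14)))), (.s k12
  k8 1 (.s k84 k168 13 (.s k92 k172 11 (.s k88 k80 1 (.d k164 k244 k240 11 13))))), (.s k84 k168 13
  (.s k86 k87 0 (.s k166 k247 12 (.s k6 k246 11 (.s k7 k5 0 (.d k244 k164 k165 11 12))))))] (.c k9
  (.l (.s k166 k247 12 (.s k162 k174 1 (.s k243 k81 12 (.d k12 k8 k89 1 14))))) .n)) (.c k2 (.q k4
  [(.s k166 k247 12 (.s k162 k174 1 (.s k243 k81 12 (.d k12 k8 k89 1 14)))), (.s k12 k8 1 (.s k84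
  k168 13 (.s k92 k172 11 (.s k88 k80 1 (.d k164 k244 k240 11 13))))), (.s k84 k168 13 (.s k86 k87 0
  (.s k166 k247 12 (.s k6 k246 11 (.s k7 k5 0 (.d k244 k164 k165 11 12))))))] .n) (.c k3 (.q k15
  [(.s k10 k5 2 (.s k90 k250 11 (.s k80 k95 2 (.d k240 k160 k165 11 14)))), (.s k5 k10 2 (.s k165
  k245 11 (.s k168 k84 13 (.s k173 k94 12 (.d k169 k171 k161 0 1)))))] (.c k5 (.f k168 k84 13 (.f
  k173 k94 12 (.q k243 [(.s k81 k162 12 (.s k89 k93 1 (.s k249 k246 2 (.d k169 k171 k9 0 11)))), (.s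
  k167 k91 13 (.s k171 k169 0 (.s k175 k163 1 (.s k160 k165 2 (.d k172 k174 k164 0 1)))))] (.c k87
  (.l (.s k171 k169 0 (.s k81 k162 12 (.s k89 k93 1 (.s k8 k251 12 (.d k12 k4 k166 1 14)))))) (.c
  k169 (.l (.s k81 k162 12 (.s k89 k93 1 (.s k8 k251 12 (.d k12 k4 k166 1 14))))) (.c k171 (.q k87
  [(.s k162 k81 12 (.s k166 k174 1 (.s k4 k247 12 (.d k12 k8 k89 1 14)))), (.s k81 k162 12 (.s k91
  k167 13 (.s k95 k83 1 (.s k90 k80 2 (.d k89 k88 k93 0 1))))), (.s k91 k167 13 (.s k95 k83 1 (.s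
  k80 k90 2 (.s k160 k240 11 (.s k172 k164 1 (.d k175 k165 k174 2 0))))))] (.c k91 (.q k251 [(.s k81
  k162 12 (.d k89 k93 k8 1 12)), (.s k249 k246 2 (.s k248 k250 0 (.s k240 k244 1 (.s k80 k160 11 (.d
  k90 k95 k165 2 14)))))] .n) (.c k251 (.l (.s k91 k167 13 (.s k81 k162 12 (.s k89 k93 1 (.s k90 k88
  0 (.d k95 k80 k83 2 1)))))) .n))) (.c k174 (.l (.s k81 k162 12 (.s k89 k93 1 (.s k12 k166 14 (.d
  k8 k4 k251 1 12))))) .n))))))) (.c k10 (.f k84 k168 13 (.q k8 [(.s k12 k4 1 (.s k89 k251 12 (.s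
  k81 k93 1 (.d k243 k162 k166 12 14)))), (.s k4 k12 1 (.s k244 k164 11 (.s k240 k248 1 (.s k90 k165
  14 (.d k80 k160 k95 11 2))))), (.s k89 k251 12 (.s k93 k81 1 (.s k94 k173 12 (.s k92 k95 0 (.d k86
  k87 k83 0 2)))))] (.c k87 (.q k171 [(.s k12 k4 1 (.s k89 k251 12 (.s k81 k93 1 (.d k243 k162 k166
  12 14)))), (.s k12 k4 1 (.s k92 k172 11 (.s k80 k88 1 (.s k90 k95 2 (.d k240 k160 k165 11 14))))),
  (.s k89 k251 12 (.s k93 k81 1 (.s k173 k94 12 (.s k13 k253 11 (.s k165 k241 13 (.s k160 k175 2 (.d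
  k240 k80 k90 11 14)))))))] .n) (.c k93 (.l (.s k12 k4 1 (.s k89 k251 12 (.s k92 k172 11 (.d k86
  k87 k83 0 2))))) (.c k171 (.l (.s k87 k86 0 (.s k4 k12 1 (.s k244 k164 11 (.s k240 k248 1 (.s k90
  k165 14 (.d k80 k160 k95 11 2))))))) .n))))) (.c k87 (.q k171 [(.d k168 k169 k84 0 13), (.s k5 k10
  2 (.s k165 k245 11 (.s k160 k175 2 (.d k240 k80 k90 11 14))))] .n) (.c k165 (.l (.s k10 k5 2 (.s
  k84 k168 13 (.s k90 k250 11 (.s k94 k173 12 (.d k86 k87 k82 0 1)))))) (.c k171 (.q k87 [(.d k84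
  k86 k168 0 13), (.s k5 k10 2 (.s k165 k245 11 (.s k160 k175 2 (.d k240 k80 k90 11 14))))] (.c k91
  (.q k251 [(.d k84 k86 k168 0 13), (.s k5 k10 2 (.s k165 k245 11 (.s k160 k175 2 (.d k240 k80 k90
  11 14))))] .n) (.c k251 (.q k91 [(.d k84 k86 k168 0 13), (.s k10 k5 2 (.s k90 k250 11 (.d k95 k83
  k80 1 2)))] (.c k243 (.q k247 [(.d k84 k86 k168 0 13), (.s k4 k166 12 (.s k5 k10 2 (.d k7 k6 k167
  0 11)))] (.c k83 (.q k163 [(.d k84 k86 k168 0 13), (.s k4 k166 12 (.s k5 k10 2 (.d k7 k6 k167 0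
  11)))] .n) (.c k163 (.l (.s k83 k95 1 (.d k84 k86 k168 0 13))) .n))) (.c k247 (.l (.s k243 k167 13
  (.d k84 k86 k168 0 13))) .n))) .n))) (.c k240 (.f k84 k168 13 (.f k86 k87 0 (.q k171 [(.s k10 k5 2
  (.s k94 k173 12 (.d k90 k82 k250 1 11))), (.s k2 k254 13 (.s k10 k5 2 (.s k14 k6 1 (.s k12 k13 0
  (.s k92 k172 11 (.s k89 k83 2 (.d k8 k4 k251 1 12))))))), (.s k2 k254 13 (.s k94 k173 12 (.s k82
  k90 1 (.s k162 k242 11 (.s k166 k174 1 (.s k243 k81 12 (.d k246 k249 k6 2 11)))))))] (.c k82 (.q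
  k161 [(.s k5 k10 2 (.s k173 k94 12 (.d k165 k245 k169 11 1))), (.s k173 k94 12 (.s k165 k169 1 (.s
  k175 k160 2 (.s k167 k163 1 (.s k244 k7 12 (.d k164 k166 k4 0 11)))))), (.s k2 k254 13 (.s k10 k5
  2 (.s k14 k6 1 (.s k12 k13 0 (.s k4 k8 1 (.s k166 k247 12 (.d k90 k250 k242 11 13)))))))] (.c k245
  (.q k250 [(.d k10 k5 k90 2 11), (.s k173 k94 12 (.s k165 k169 1 (.s k175 k160 2 (.s k167 k163 1
  (.s k244 k7 12 (.d k164 k166 k4 0 11))))))] (.c k90 (.l (.s k2 k254 13 (.s k10 k5 2 (.s k14 k6 1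
  (.s k12 k13 0 (.s k92 k172 11 (.s k89 k83 2 (.d k8 k4 k251 1 12)))))))) .n)) (.c k250 (.q k245
  [(.d k5 k10 k165 2 11), (.s k173 k94 12 (.s k165 k169 1 (.s k244 k7 12 (.s k4 k164 11 (.d k247
  k246 k166 0 12)))))] (.c k165 (.l (.s k2 k254 13 (.s k10 k5 2 (.s k14 k6 1 (.s k12 k13 0 (.s k4 k8
  1 (.s k244 k164 11 (.d k247 k246 k166 0 12)))))))) .n)) .n))) (.c k161 (.q k82 [(.d k94 k90 k173 1
  12)] (.c k90 (.l (.s k2 k254 13 (.s k10 k5 2 (.s k6 k14 1 (.s k162 k242 11 (.d k166 k174 k246 1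
  11)))))) (.c k94 (.l (.s k2 k254 13 (.s k10 k5 2 (.s k14 k6 1 (.s k242 k162 11 (.d k90 k250 k166
  11 13)))))) (.c k173 (.l (.s k10 k5 2 (.d k90 k94 k250 1 11))) (.c k245 (.q k250 [(.d k10 k5 k90 2
  11), (.d k94 k90 k173 1 12)] (.c k90 (.l (.s k2 k254 13 (.s k10 k5 2 (.s k6 k14 1 (.s k162 k242 11
  (.d k166 k174 k246 1 11)))))) .n)) (.c k250 (.q k245 [(.d k5 k10 k165 2 11), (.d k94 k90 k173 1
  12)] .n) .n)))))) (.c k245 (.q k250 [(.d k10 k5 k90 2 11), (.s k94 k173 12 (.s k254 k2 13 (.s k174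
  k14 11 (.s k166 k162 1 (.d k246 k242 k6 1 11)))))] (.c k10 (.l (.s k94 k173 12 (.s k254 k2 13 (.s
  k14 k174 11 (.s k242 k246 1 (.d k90 k82 k166 1 13)))))) (.c k82 (.q k161 [(.d k10 k5 k90 2 11),
  (.s k173 k94 12 (.s k165 k169 1 (.s k175 k160 2 (.s k167 k163 1 (.s k244 k7 12 (.d k164 k166 k4 0
  11))))))] (.c k90 (.l (.s k2 k254 13 (.s k10 k5 2 (.s k14 k6 1 (.s k12 k13 0 (.s k92 k172 11 (.s
  k89 k83 2 (.d k8 k4 k251 1 12)))))))) .n)) (.c k161 (.q k82 [(.d k10 k5 k90 2 11), (.d k94 k90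
  k173 1 12)] (.c k90 (.l (.s k2 k254 13 (.s k10 k5 2 (.s k6 k14 1 (.s k162 k242 11 (.d k166 k174
  k246 1 11)))))) .n)) .n)))) (.c k250 (.q k245 [(.d k5 k10 k165 2 11), (.s k94 k173 12 (.s k254 k2
  13 (.s k174 k14 11 (.s k166 k162 1 (.s k247 k4 12 (.d k246 k6 k244 11 0))))))] (.c k10 (.l (.s
  k165 k5 11 (.s k244 k7 12 (.s k4 k164 11 (.d k247 k246 k166 0 12))))) (.c k82 (.q k161 [(.d k5 k10
  k165 2 11), (.s k173 k94 12 (.s k165 k169 1 (.s k244 k7 12 (.s k4 k164 11 (.d k247 k246 k166 0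
  12)))))] (.c k165 (.l (.s k2 k254 13 (.s k10 k5 2 (.s k14 k6 1 (.s k12 k13 0 (.s k4 k8 1 (.s k244
  k164 11 (.d k247 k246 k166 0 12)))))))) .n)) (.c k161 (.q k82 [(.d k5 k10 k165 2 11), (.d k94 k90
  k173 1 12)] .n) .n)))) .n))))))) (.c k245 (.l (.s k10 k5 2 (.s k90 k250 11 (.s k240 k165 14 (.d
  k80 k95 k160 2 11))))) (.c k250 (.l (.s k5 k10 2 (.s k165 k245 11 (.s k240 k90 14 (.d k160 k175
  k80 2 11))))) .n))))))))) (.c k84 (.q k106 [(.s k42 k234 7 (.s k63 k21 6 (.s k64 k127 6 (.d k192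
  k128 k149 7 14)))), (.s k64 k127 6 (.s k192 k128 7 (.s k232 k212 5 (.s k169 k43 8 (.s k1 k253 13
  (.d k3 k2 k86 0 14)))))), (.s k42 k234 7 (.s k63 k21 6 (.s k126 k189 8 (.s k86 k66 5 (.s k2 k254
  13 (.d k3 k1 k169 0 14))))))] (.c k63 (.q k150 [(.s k20 k215 8 (.s k60 k40 5 (.s k130 k190 5 (.d
  k195 k65 k105 8 14)))), (.s k42 k234 7 (.s k62 k194 13 (.s k2 k22 5 (.s k3 k1 0 (.d k86 k254 k169
  13 14)))))] (.c k127 (.q k191 [(.s k20 k215 8 (.s k60 k40 5 (.s k130 k190 5 (.d k195 k65 k105 8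
  14)))), (.s k42 k234 7 (.s k62 k194 13 (.s k2 k22 5 (.s k3 k1 0 (.d k86 k254 k169 13 14)))))] .n)
  (.c k191 (.l (.s k127 k64 6 (.s k20 k215 8 (.s k60 k40 5 (.s k130 k190 5 (.d k195 k65 k105 8
  14)))))) .n))) (.c k192 (.f k127 k64 6 (.f k234 k42 7 (.q k124 [(.s k60 k188 7 (.s k125 k126 0 (.s
  k105 k65 5 (.d k40 k20 k235 5 8)))), (.s k125 k126 0 (.s k105 k65 5 (.s k67 k86 6 (.d k107 k104
  k87 0 5)))), (.s k60 k188 7 (.s k40 k20 5 (.s k105 k235 8 (.s k67 k86 6 (.d k107 k104 k87 0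
  5)))))] (.c k67 (.l (.s k60 k188 7 (.s k40 k20 5 (.s k105 k235 8 (.d k125 k126 k65 0 5))))) (.c
  k105 (.l (.s k126 k125 0 (.s k86 k66 5 (.s k2 k254 13 (.d k3 k1 k169 0 14))))) .n))))) .n))) (.c
  k86 (.f k168 k84 13 (.q k207 [(.s k69 k138 10 (.s k101 k117 3 (.s k32 k239 10 (.d k48 k16 k154 3
  14)))), (.s k69 k138 10 (.s k169 k171 0 (.s k237 k222 4 (.d k101 k117 k33 3 9)))), (.s k169 k171 0
  (.s k237 k222 4 (.s k101 k33 9 (.s k32 k239 10 (.d k48 k154 k16 14 3)))))] (.c k70 (.q k118 [(.s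
  k69 k138 10 (.s k101 k117 3 (.s k32 k239 10 (.d k48 k16 k154 3 14)))), (.s k69 k138 10 (.s k169
  k171 0 (.s k1 k253 13 (.s k137 k205 9 (.d k185 k153 k51 3 10))))), (.s k169 k171 0 (.s k237 k222 4
  (.s k101 k33 9 (.s k32 k239 10 (.d k48 k154 k16 14 3)))))] .n) (.c k101 (.l (.s k138 k69 10 (.s
  k154 k186 3 (.s k16 k223 10 (.s k48 k32 3 (.s k169 k171 0 (.d k184 k139 k116 4 9))))))) (.c k118
  (.q k70 [(.s k69 k138 10 (.s k101 k117 3 (.s k32 k239 10 (.d k48 k16 k154 3 14)))), (.s k138 k69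
  10 (.s k2 k206 9 (.s k1 k3 0 (.d k169 k171 k253 0 13)))), (.s k169 k171 0 (.s k237 k222 4 (.s k101
  k33 9 (.s k32 k239 10 (.d k48 k154 k16 14 3)))))] (.c k154 (.l (.s k69 k138 10 (.s k101 k117 3 (.s
  k169 k171 0 (.d k237 k222 k33 4 9))))) .n)) (.c k154 (.l (.s k69 k138 10 (.s k101 k117 3 (.s k169
  k171 0 (.d k237 k222 k33 4 9))))) .n)))))) (.c k87 (.l (.s k168 k84 13 (.s k169 k171 0 (.s k3 k86
  14 (.d k1 k2 k253 0 13))))) (.c k168 (.q k150 [(.s k20 k215 8 (.s k130 k190 5 (.s k195 k65 8 (.d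
  k60 k40 k105 5 14)))), (.s k130 k190 5 (.s k195 k65 8 (.s k214 k233 6 (.s k86 k22 7 (.s k2 k254 13
  (.d k3 k1 k169 0 14)))))), (.s k20 k215 8 (.s k60 k40 5 (.s k188 k124 7 (.s k169 k131 6 (.s k1
  k253 13 (.d k3 k2 k86 0 14))))))] (.c k60 (.q k154 [(.s k16 k223 10 (.s k138 k186 3 (.s k207 k69
  10 (.d k48 k32 k101 3 14)))), (.s k158 k146 1 (.s k186 k138 3 (.s k190 k130 5 (.s k142 k174 3 (.d
  k178 k182 k166 1 5))))), (.s k16 k223 10 (.s k20 k215 8 (.s k28 k24 1 (.s k146 k158 1 (.d k211 k81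
  k89 8 10)))))] (.c k125 (.l (.s k190 k130 5 (.s k16 k223 10 (.s k48 k32 3 (.s k138 k186 3 (.d k207
  k69 k101 10 14)))))) (.c k190 (.q k125 [(.s k16 k223 10 (.s k138 k186 3 (.s k207 k69 10 (.d k48
  k32 k101 3 14)))), (.s k158 k146 1 (.s k215 k20 8 (.s k223 k16 10 (.s k28 k93 8 (.d k211 k219 k89
  1 10))))), (.s k65 k105 5 (.s k130 k195 8 (.s k138 k186 3 (.s k142 k134 1 (.s k146 k158 1 (.d k178
  k162 k166 3 5))))))] .n) .n))) (.c k195 (.q k154 [(.s k16 k223 10 (.s k138 k186 3 (.s k207 k69 10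
  (.d k48 k32 k101 3 14)))), (.s k130 k190 5 (.s k138 k186 3 (.s k142 k134 1 (.s k146 k158 1 (.d
  k178 k162 k166 3 5))))), (.s k16 k223 10 (.s k130 k190 5 (.s k146 k158 1 (.s k81 k211 8 (.d k162
  k243 k178 12 3)))))] (.c k215 (.q k235 [(.s k138 k186 3 (.s k207 k69 10 (.s k48 k101 14 (.d k16
  k32 k223 3 10)))), (.s k16 k223 10 (.s k130 k190 5 (.s k146 k158 1 (.s k162 k178 3 (.d k81 k211
  k243 8 12))))), (.s k105 k40 8 (.s k138 k186 3 (.s k203 k56 12 (.s k8 k73 8 (.d k251 k219 k89 3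
  12)))))] (.c k186 (.l (.s k16 k223 10 (.s k40 k105 8 (.s k20 k60 5 (.s k24 k28 1 (.s k8 k56 3 (.d
  k89 k219 k251 8 12))))))) .n)) (.c k235 (.l (.s k215 k20 8 (.s k16 k223 10 (.s k48 k32 3 (.s k138
  k186 3 (.d k207 k69 k101 10 14)))))) .n))) .n))) (.c k169 (.f k84 k168 13 (.q k90 [(.s k10 k250 11
  (.s k15 k5 2 (.s k80 k95 2 (.d k240 k160 k165 11 14)))), (.s k80 k95 2 (.s k86 k87 0 (.s k82 k94 1
  (.s k83 k81 0 (.d k92 k88 k89 1 2))))), (.s k10 k250 11 (.s k86 k87 0 (.s k2 k254 13 (.s k14 k6 1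
  (.s k82 k94 1 (.d k242 k162 k166 11 13))))))] (.c k35 (.q k236 [(.s k10 k250 11 (.s k15 k5 2 (.s
  k80 k95 2 (.d k240 k160 k165 11 14)))), (.s k80 k95 2 (.s k86 k87 0 (.s k82 k94 1 (.s k83 k81 0
  (.d k92 k88 k89 1 2))))), (.s k10 k250 11 (.s k86 k87 0 (.s k2 k254 13 (.s k14 k6 1 (.s k82 k94 1
  (.d k242 k162 k166 11 13))))))] .n) (.c k236 (.q k35 [(.s k10 k250 11 (.s k15 k5 2 (.s k80 k95 2
  (.d k240 k160 k165 11 14)))), (.s k80 k95 2 (.s k86 k87 0 (.s k82 k94 1 (.s k83 k81 0 (.d k92 k88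
  k89 1 2))))), (.s k10 k250 11 (.s k86 k87 0 (.s k2 k254 13 (.s k14 k6 1 (.s k82 k94 1 (.d k242
  k162 k166 11 13))))))] (.c k32 (.q k100 [(.s k10 k250 11 (.s k15 k5 2 (.s k80 k95 2 (.d k240 k160
  k165 11 14)))), (.s k80 k95 2 (.s k86 k87 0 (.s k82 k94 1 (.s k83 k81 0 (.d k92 k88 k89 1 2))))),
  (.s k10 k250 11 (.s k86 k87 0 (.s k2 k254 13 (.s k14 k6 1 (.s k82 k94 1 (.d k242 k162 k166 11
  13))))))] .n) (.c k100 (.q k32 [(.s k10 k250 11 (.s k15 k5 2 (.s k80 k95 2 (.d k240 k160 k165 11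
  14)))), (.s k48 k16 3 (.s k86 k87 0 (.s k101 k239 10 (.d k116 k71 k184 4 9))))] (.c k101 (.q k103
  [(.s k10 k250 11 (.s k15 k5 2 (.s k80 k95 2 (.d k240 k160 k165 11 14)))), (.s k33 k34 0 (.s k48
  k16 3 (.s k3 k18 4 (.s k2 k1 0 (.d k86 k87 k254 0 13)))))] (.c k33 (.q k237 [(.s k10 k250 11 (.s
  k15 k5 2 (.s k80 k95 2 (.d k240 k160 k165 11 14)))), (.s k16 k48 3 (.s k86 k87 0 (.s k154 k223 10
  (.d k222 k207 k18 4 9))))] .n) (.c k237 (.l (.s k33 k34 0 (.s k10 k250 11 (.s k15 k5 2 (.s k80 k95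
  2 (.d k240 k160 k165 11 14)))))) .n))) (.c k103 (.l (.s k101 k239 10 (.s k48 k16 3 (.s k69 k117 3
  (.d k207 k138 k154 10 14))))) .n))) .n))) .n)))) (.c k171 (.l (.s k84 k168 13 (.s k86 k87 0 (.s k3
  k169 14 (.d k2 k1 k254 0 13))))) (.c k254 (.l (.s k168 k84 13 (.s k169 k171 0 (.s k1 k253 13 (.d
  k3 k2 k86 0 14))))) .n))))))))))))

def t11_103 : T TT 256 :=
  (.f k255 k170 14 (.q k106 [(.s k64 k127 6 (.s k192 k128 7 (.s k149 k63 14 (.d k213 k234 k21 6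
  7))))] (.c k21 (.q k1 [(.s k3 k2 0 (.s k169 k253 13 (.s k86 k252 14 (.d k87 k84 k171 0 13)))), (.s
  k64 k127 6 (.s k192 k128 7 (.s k213 k234 6 (.s k253 k169 13 (.s k193 k233 5 (.s k65 k129 7 (.d
  k195 k130 k194 8 0))))))), (.s k3 k2 0 (.s k64 k127 6 (.s k192 k128 7 (.s k66 k129 8 (.s k86 k126
  5 (.d k87 k84 k171 0 13))))))] (.c k171 (.l (.s k3 k2 0 (.s k127 k64 6 (.s k63 k191 7 (.s k43 k23
  5 (.d k169 k232 k253 8 13)))))) .n)) (.c k63 (.q k1 [(.s k3 k2 0 (.s k169 k253 13 (.s k86 k252 14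
  (.d k87 k84 k171 0 13)))), (.s k64 k127 6 (.s k192 k128 7 (.s k213 k234 6 (.s k253 k169 13 (.s
  k193 k233 5 (.s k65 k129 7 (.d k195 k130 k194 8 0))))))), (.s k64 k127 6 (.s k169 k253 13 (.s k192
  k128 7 (.s k232 k43 8 (.s k252 k212 5 (.s k84 k168 13 (.d k86 k3 k87 14 0))))))), (.s k3 k2 0 (.s
  k64 k127 6 (.s k192 k128 7 (.s k66 k129 8 (.s k86 k126 5 (.d k87 k84 k171 0 13))))))] .n) (.c k64
  (.q k60 [(.s k20 k40 5 (.s k125 k190 8 (.s k150 k215 8 (.d k105 k65 k195 5 14)))), (.s k20 k40 5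
  (.s k150 k215 8 (.s k62 k194 13 (.s k63 k61 0 (.s k21 k42 6 (.d k149 k213 k192 7 14)))))), (.s
  k125 k190 8 (.s k105 k65 5 (.s k104 k107 0 (.s k192 k148 13 (.s k149 k63 14 (.d k213 k234 k21 6
  7))))))] (.c k105 (.q k87 [(.s k3 k171 13 (.s k1 k2 0 (.s k169 k253 13 (.d k86 k84 k252 0 14)))),
  (.s k86 k84 0 (.s k126 k66 5 (.s k190 k125 8 (.s k62 k254 7 (.s k150 k194 13 (.d k20 k40 k215 5
  8)))))), (.s k3 k171 13 (.s k2 k1 0 (.s k22 k41 6 (.s k42 k62 5 (.s k21 k63 6 (.d k20 k40 k23 5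
  0))))))] (.c k2 (.l (.s k3 k171 13 (.s k22 k41 6 (.s k86 k84 0 (.s k150 k214 7 (.d k20 k40 k215 5
  8)))))) (.c k40 (.q k235 [(.s k3 k171 13 (.s k1 k2 0 (.s k169 k253 13 (.d k86 k84 k252 0 14)))),
  (.s k86 k84 0 (.s k126 k66 5 (.s k190 k125 8 (.s k62 k254 7 (.s k150 k194 13 (.d k215 k195 k20 5
  8)))))), (.s k3 k171 13 (.s k22 k41 6 (.s k215 k195 5 (.s k20 k150 8 (.d k23 k21 k151 0 7)))))]
  .n) (.c k235 (.l (.s k40 k20 5 (.s k3 k171 13 (.s k1 k2 0 (.s k86 k84 0 (.d k169 k253 k252 13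
  14)))))) .n)))) (.c k150 (.q k149 [(.s k21 k213 7 (.d k63 k42 k192 6 14)), (.s k63 k192 14 (.s k61
  k62 0 (.s k105 k193 13 (.d k125 k190 k65 8 5))))] (.c k63 (.l (.s k213 k21 7 (.s k192 k234 6 (.s
  k104 k148 13 (.s k105 k107 0 (.d k125 k65 k190 5 8)))))) (.c k130 (.l (.s k190 k125 8 (.s k21 k213
  7 (.d k63 k42 k192 6 14)))) (.c k190 (.q k130 [(.s k21 k213 7 (.d k63 k42 k192 6 14)), (.s k63
  k192 14 (.s k61 k62 0 (.s k65 k195 8 (.d k105 k193 k125 13 5))))] (.c k63 (.l (.s k65 k195 8 (.s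
  k105 k125 5 (.s k213 k21 7 (.s k192 k234 6 (.d k104 k107 k148 0 13)))))) (.c k192 (.l (.s k21 k213
  7 (.s k63 k42 6 (.s k61 k62 0 (.s k65 k195 8 (.d k105 k193 k125 13 5)))))) .n))) (.c k192 (.l (.s
  k21 k213 7 (.s k63 k42 6 (.s k61 k62 0 (.s k105 k193 13 (.d k125 k65 k190 5 8)))))) .n))))) .n)))
  (.c k127 (.q k195 [(.s k65 k130 8 (.s k215 k235 5 (.s k150 k20 8 (.d k105 k125 k60 5 14)))), (.s
  k65 k130 8 (.s k105 k125 5 (.s k107 k104 0 (.s k63 k151 13 (.s k21 k42 6 (.d k149 k213 k192 7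
  14)))))), (.s k215 k235 5 (.s k150 k20 8 (.s k194 k62 13 (.s k192 k193 0 (.s k149 k63 14 (.d k213
  k234 k21 6 7))))))] (.c k105 (.q k149 [(.s k21 k213 7 (.d k63 k42 k192 6 14)), (.s k63 k192 14 (.s
  k151 k107 13 (.s k150 k148 0 (.d k215 k235 k20 5 8))))] (.c k40 (.l (.s k235 k215 5 (.s k21 k213 7
  (.d k63 k42 k192 6 14)))) (.c k63 (.l (.s k213 k21 7 (.s k192 k234 6 (.s k194 k193 0 (.s k150 k62
  13 (.d k215 k235 k20 5 8)))))) (.c k192 (.l (.s k21 k213 7 (.s k63 k42 6 (.s k151 k107 13 (.s k150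
  k148 0 (.d k215 k235 k20 5 8)))))) (.c k235 (.q k40 [(.s k21 k213 7 (.d k63 k42 k192 6 14)), (.s
  k20 k60 5 (.s k63 k192 14 (.s k150 k215 8 (.d k151 k148 k107 0 13))))] (.c k63 (.l (.s k20 k60 5
  (.s k150 k215 8 (.s k213 k21 7 (.s k192 k234 6 (.d k194 k62 k193 13 0)))))) (.c k192 (.l (.s k20
  k60 5 (.s k21 k213 7 (.s k63 k42 6 (.s k150 k215 8 (.d k151 k148 k107 0 13)))))) .n))) .n))))) (.c
  k150 (.q k149 [(.s k21 k213 7 (.d k63 k42 k192 6 14)), (.s k63 k192 14 (.s k107 k151 13 (.s k105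
  k104 0 (.d k65 k130 k125 8 5))))] (.c k63 (.l (.s k213 k21 7 (.s k192 k234 6 (.s k193 k194 0 (.s
  k105 k61 13 (.d k65 k125 k130 5 8)))))) (.c k130 (.q k190 [(.s k21 k213 7 (.d k63 k42 k192 6 14)),
  (.s k63 k192 14 (.s k107 k151 13 (.s k105 k104 0 (.d k125 k60 k65 8 5))))] (.c k63 (.l (.s k125
  k60 8 (.s k105 k65 5 (.s k213 k21 7 (.s k192 k234 6 (.d k193 k61 k194 13 0)))))) (.c k192 (.l (.s
  k21 k213 7 (.s k63 k42 6 (.s k107 k151 13 (.s k105 k104 0 (.d k125 k60 k65 8 5)))))) .n))) (.c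
  k190 (.l (.s k130 k65 8 (.s k21 k213 7 (.d k63 k42 k192 6 14)))) (.c k192 (.l (.s k21 k213 7 (.s
  k63 k42 6 (.s k107 k151 13 (.s k105 k104 0 (.d k65 k125 k130 5 8)))))) .n))))) .n))) (.c k128 (.l
  (.s k127 k64 6 (.s k63 k191 7 (.s k149 k192 14 (.d k21 k42 k213 6 7))))) (.c k149 (.f k127 k64 6
  (.q k93 [(.s k12 k174 12 (.s k89 k81 1 (.s k166 k243 14 (.d k4 k8 k247 1 12)))), (.s k110 k76 4
  (.s k102 k98 1 (.s k68 k119 4 (.s k204 k136 9 (.d k63 k191 k157 7 12))))), (.s k12 k174 12 (.s k4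
  k8 1 (.s k166 k247 12 (.s k46 k226 9 (.d k63 k191 k29 7 4)))))] (.c k128 (.l (.s k191 k63 7 (.s
  k12 k174 12 (.s k4 k8 1 (.s k89 k81 1 (.d k166 k247 k243 12 14)))))) (.c k191 (.q k128 [(.s k12
  k174 12 (.s k89 k81 1 (.s k166 k243 14 (.d k4 k8 k247 1 12)))), (.s k76 k110 4 (.s k89 k81 1 (.s
  k115 k102 6 (.d k123 k119 k72 1 4)))), (.s k110 k76 4 (.s k174 k12 12 (.s k238 k46 7 (.s k204 k221
  4 (.s k68 k136 9 (.d k102 k98 k119 1 4))))))] (.c k98 (.l (.s k12 k174 12 (.s k4 k8 1 (.s k166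
  k247 12 (.d k89 k81 k243 1 14))))) .n)) .n)))) (.c k191 (.l (.s k64 k127 6 (.s k192 k128 7 (.s
  k149 k63 14 (.d k213 k234 k21 6 7))))) (.c k192 (.q k1 [(.s k3 k2 0 (.s k169 k253 13 (.s k86 k252
  14 (.d k87 k84 k171 0 13)))), (.s k127 k64 6 (.s k63 k191 7 (.s k21 k42 6 (.s k61 k41 5 (.s k253
  k169 13 (.s k125 k189 7 (.d k60 k190 k62 8 0))))))), (.s k3 k2 0 (.s k127 k64 6 (.s k63 k191 7 (.s
  k21 k42 6 (.s k23 k43 5 (.s k22 k20 0 (.d k41 k61 k60 5 6)))))))] .n) (.c k213 (.q k1 [(.s k3 k2 0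
  (.s k169 k253 13 (.s k86 k252 14 (.d k87 k84 k171 0 13)))), (.s k127 k64 6 (.s k63 k191 7 (.s k21
  k42 6 (.s k61 k41 5 (.s k60 k62 0 (.s k125 k190 8 (.d k253 k189 k169 7 13))))))), (.s k64 k127 6
  (.s k169 k253 13 (.s k192 k128 7 (.s k149 k63 14 (.s k129 k189 5 (.s k66 k3 8 (.d k65 k193 k67 7
  0))))))), (.s k3 k2 0 (.s k64 k127 6 (.s k192 k128 7 (.s k66 k129 8 (.s k86 k126 5 (.d k87 k84
  k171 0 13))))))] .n) (.c k234 (.l (.s k127 k64 6 (.s k63 k191 7 (.s k21 k42 6 (.d k149 k213 k192 7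
  14))))) .n))))))))))))

def t11_104 : T TT 256 :=
  (.f k255 k170 14 (.q k105 [(.s k125 k65 5 (.s k60 k190 8 (.s k150 k195 14 (.d k20 k40 k215 5
  8))))] (.c k20 (.q k1 [(.s k3 k2 0 (.s k169 k253 13 (.s k86 k252 14 (.d k87 k84 k171 0 13)))), (.s
  k65 k125 5 (.s k169 k253 13 (.s k41 k233 7 (.s k61 k21 5 (.d k193 k129 k149 7 13))))), (.s k3 k2 0
  (.s k65 k125 5 (.s k129 k193 7 (.s k66 k192 8 (.s k67 k64 0 (.d k195 k131 k130 7 8))))))] .n) (.c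
  k40 (.l (.s k65 k125 5 (.s k195 k130 8 (.s k150 k60 14 (.d k215 k235 k20 5 8))))) (.c k60 (.q k192
  [(.s k64 k128 7 (.s k106 k127 6 (.s k213 k234 6 (.d k149 k21 k63 7 14)))), (.s k65 k125 5 (.s k128
  k64 7 (.s k130 k195 8 (.s k129 k131 0 (.s k1 k193 7 (.d k3 k2 k66 0 8)))))), (.s k65 k125 5 (.s
  k195 k130 8 (.s k193 k194 0 (.s k213 k234 6 (.d k149 k21 k61 7 13)))))] .n) (.c k65 (.q k149 [(.s
  k213 k21 7 (.s k192 k234 6 (.s k106 k63 14 (.d k64 k127 k128 6 7)))), (.s k21 k213 7 (.s k61 k193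
  13 (.s k1 k41 5 (.s k3 k2 0 (.s k87 k171 13 (.s k86 k84 0 (.d k169 k253 k252 13 14)))))))] (.c k21
  (.q k20 [(.s k150 k215 8 (.d k60 k40 k195 5 14)), (.s k60 k40 5 (.s k61 k193 13 (.s k63 k62 0 (.s
  k127 k191 7 (.d k106 k64 k192 6 14))))), (.s k193 k61 13 (.s k215 k150 8 (.s k195 k235 5 (.s k192
  k194 0 (.s k64 k128 7 (.d k106 k127 k63 6 14))))))] .n) (.c k64 (.l (.s k21 k213 7 (.s k61 k193 13
  (.s k63 k42 6 (.s k60 k62 0 (.s k20 k40 5 (.d k150 k215 k195 8 14))))))) (.c k213 (.q k1 [(.s k61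
  k193 13 (.s k41 k21 5 (.d k169 k233 k253 7 13))), (.s k3 k2 0 (.s k87 k171 13 (.s k86 k84 0 (.d
  k169 k253 k252 13 14))))] (.c k169 (.l (.s k61 k193 13 (.s k21 k41 5 (.s k63 k42 6 (.s k106 k192
  14 (.d k127 k64 k191 6 7)))))) (.c k253 (.l (.s k3 k2 0 (.s k87 k171 13 (.s k86 k84 0 (.s k23 k212
  8 (.s k63 k43 5 (.s k21 k42 6 (.d k61 k41 k193 5 13)))))))) .n))) .n)))) (.c k125 (.q k243 [(.s
  k81 k162 12 (.s k89 k93 1 (.s k166 k12 14 (.d k247 k251 k4 1 12)))), (.s k247 k251 1 (.s k166 k4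
  12 (.s k227 k44 10 (.s k195 k211 3 (.s k150 k60 14 (.d k215 k235 k20 5 8)))))), (.s k81 k162 12
  (.s k89 k93 1 (.s k121 k73 3 (.s k60 k182 10 (.s k20 k40 5 (.d k150 k215 k195 8 14))))))] (.c k89
  (.f k162 k81 12 (.f k251 k247 1 (.q k3 [(.s k2 k1 0 (.s k82 k242 11 (.s k161 k240 12 (.d k163 k160
  k83 0 11)))), (.s k87 k171 13 (.s k86 k84 0 (.s k169 k252 14 (.s k41 k233 7 (.s k60 k22 6 (.s k20
  k40 5 (.d k150 k195 k215 14 8)))))))] .n))) (.c k166 (.q k101 [(.s k117 k69 3 (.s k48 k186 10 (.s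
  k16 k32 3 (.d k154 k223 k207 10 14)))), (.s k97 k109 1 (.s k162 k81 12 (.s k32 k227 8 (.s k48 k16
  3 (.s k146 k195 12 (.d k178 k130 k113 3 8)))))), (.s k69 k117 3 (.s k109 k97 1 (.s k207 k138 10
  (.s k60 k158 12 (.s k20 k40 5 (.d k150 k215 k195 8 14))))))] (.c k162 (.q k174 [(.s k117 k69 3 (.s
  k48 k186 10 (.s k154 k207 14 (.d k16 k32 k223 3 10)))), (.s k12 k93 12 (.s k109 k97 1 (.s k44 k239
  8 (.s k60 k28 3 (.s k20 k40 5 (.d k150 k215 k195 8 14)))))), (.s k93 k12 12 (.s k89 k81 1 (.s k117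
  k69 3 (.s k48 k186 10 (.d k113 k77 k178 5 8)))))] .n) (.c k174 (.l (.s k162 k81 12 (.s k69 k117 3
  (.s k207 k138 10 (.s k154 k48 14 (.d k223 k239 k16 3 10)))))) .n))) .n))) (.c k130 (.l (.s k125
  k65 5 (.s k60 k190 8 (.s k150 k195 14 (.d k20 k40 k215 5 8))))) (.c k150 (.f k125 k65 5 (.q k127
  [(.s k63 k191 7 (.s k21 k42 6 (.s k149 k213 7 (.d k106 k64 k192 6 14)))), (.s k124 k126 0 (.s k86
  k67 6 (.s k84 k87 0 (.s k252 k168 13 (.d k60 k190 k188 8 7)))))] (.c k64 (.l (.s k63 k191 7 (.s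
  k21 k42 6 (.s k149 k213 7 (.s k61 k193 13 (.d k60 k62 k190 0 8)))))) (.c k130 (.l (.s k190 k60 8
  (.s k63 k191 7 (.s k21 k42 6 (.s k106 k64 6 (.d k149 k192 k213 14 7)))))) (.c k190 (.q k130 [(.s
  k63 k191 7 (.s k21 k42 6 (.s k149 k213 7 (.d k106 k64 k192 6 14)))), (.s k124 k126 0 (.s k86 k67 6
  (.s k84 k87 0 (.s k252 k168 13 (.s k169 k3 14 (.d k253 k254 k1 0 13))))))] (.c k64 (.l (.s k63
  k191 7 (.s k21 k42 6 (.s k149 k213 7 (.s k61 k193 13 (.s k1 k41 5 (.d k253 k189 k169 7 13)))))))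
  .n)) .n))))) (.c k190 (.l (.s k65 k125 5 (.s k195 k130 8 (.s k150 k60 14 (.d k215 k235 k20 5
  8))))) (.c k195 (.q k1 [(.s k3 k2 0 (.s k169 k253 13 (.s k86 k252 14 (.d k87 k84 k171 0 13)))),
  (.s k3 k2 0 (.s k125 k65 5 (.s k60 k190 8 (.s k40 k20 5 (.s k41 k22 6 (.s k21 k61 5 (.d k42 k43
  k63 0 6))))))), (.s k65 k125 5 (.s k169 k253 13 (.s k41 k233 7 (.s k61 k21 5 (.d k193 k129 k149 7
  13)))))] .n) (.c k215 (.q k1 [(.s k3 k2 0 (.s k169 k253 13 (.s k86 k252 14 (.d k87 k84 k171 0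
  13)))), (.s k65 k125 5 (.s k169 k253 13 (.s k41 k233 7 (.s k61 k21 5 (.d k193 k129 k149 7 13))))),
  (.s k3 k2 0 (.s k65 k125 5 (.s k129 k193 7 (.s k66 k192 8 (.s k67 k64 0 (.d k195 k131 k130 7
  8))))))] .n) .n))))))))))))

def t11_105 : T TT 256 :=
  (.f k170 k255 14 (.q k243 [(.s k162 k81 12 (.s k166 k174 1 (.s k4 k247 12 (.d k12 k8 k89 1 14))))]
  (.c k4 (.q k1 [(.s k3 k2 0 (.s k169 k253 13 (.s k168 k171 0 (.d k252 k84 k86 13 14)))), (.s k3 k2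
  0 (.s k81 k162 12 (.s k83 k163 11 (.s k82 k80 0 (.d k161 k241 k240 11 12))))), (.s k81 k162 12 (.s
  k89 k93 1 (.s k169 k253 13 (.s k9 k249 11 (.s k13 k5 1 (.d k241 k161 k165 11 13))))))] .n) (.c k8
  (.q k10 [(.s k15 k5 2 (.s k90 k250 11 (.s k80 k95 2 (.d k240 k160 k165 11 14)))), (.s k15 k5 2 (.s
  k81 k162 12 (.s k89 k93 1 (.s k91 k167 13 (.d k90 k88 k250 0 11))))), (.s k90 k250 11 (.s k162 k81
  12 (.s k166 k174 1 (.s k242 k14 13 (.s k240 k241 0 (.d k80 k95 k160 2 11))))))] (.c k90 (.l (.s k5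
  k15 2 (.s k81 k162 12 (.s k89 k93 1 (.s k165 k245 11 (.s k241 k13 13 (.s k240 k242 0 (.d k160 k175
  k80 2 11)))))))) (.c k250 (.l (.s k15 k5 2 (.s k81 k162 12 (.s k89 k93 1 (.s k91 k167 13 (.s k90
  k88 0 (.s k80 k95 2 (.d k240 k160 k165 11 14)))))))) .n))) (.c k12 (.f k162 k81 12 (.q k130 [(.s
  k146 k178 3 (.s k195 k65 8 (.s k227 k211 3 (.d k97 k32 k48 8 12)))), (.s k150 k190 5 (.s k20 k215
  8 (.s k60 k40 5 (.s k182 k121 10 (.d k166 k174 k134 1 3)))))] (.c k93 (.l (.s k174 k166 1 (.s k146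
  k178 3 (.s k195 k65 8 (.s k97 k48 12 (.d k227 k211 k32 3 8)))))) (.c k174 (.q k93 [(.s k146 k178 3
  (.s k195 k65 8 (.s k227 k211 3 (.d k97 k32 k48 8 12)))), (.s k146 k178 3 (.s k150 k190 5 (.s k158
  k154 1 (.s k28 k223 8 (.s k211 k89 10 (.d k195 k227 k65 3 8)))))), (.s k178 k146 3 (.s k190 k150 5
  (.s k186 k182 1 (.s k154 k138 3 (.s k16 k223 10 (.d k48 k32 k113 3 8)))))), (.s k150 k190 5 (.s
  k195 k65 8 (.s k211 k227 3 (.s k28 k89 10 (.s k215 k20 8 (.d k223 k158 k219 8 1))))))] (.c k195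
  (.l (.s k178 k146 3 (.s k48 k113 8 (.s k16 k32 3 (.s k154 k223 10 (.s k138 k186 3 (.d k142 k134
  k166 1 5))))))) (.c k211 (.q k16 [(.s k48 k32 3 (.d k178 k146 k113 3 8)), (.s k146 k178 3 (.s k150
  k190 5 (.d k154 k158 k223 1 10))), (.s k48 k32 3 (.s k154 k223 10 (.s k138 k186 3 (.d k207 k69
  k101 10 14))))] .n) .n))) (.c k195 (.l (.s k178 k146 3 (.s k48 k113 8 (.s k16 k32 3 (.s k154 k223
  10 (.d k166 k174 k142 1 5)))))) .n))))) (.c k81 (.q k153 [(.s k17 k221 9 (.s k51 k34 4 (.s k136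
  k187 4 (.d k204 k68 k102 9 14)))), (.s k136 k187 4 (.s k204 k68 9 (.s k217 k230 6 (.s k89 k25 7
  (.s k8 k251 12 (.d k12 k4 k166 1 14)))))), (.s k17 k221 9 (.s k51 k34 4 (.s k179 k115 7 (.s k166
  k140 6 (.s k4 k247 12 (.d k12 k8 k89 1 14))))))] (.c k51 (.q k63 [(.s k21 k42 6 (.s k149 k213 7
  (.s k128 k191 6 (.d k192 k64 k106 7 14)))), (.s k123 k183 9 (.s k187 k136 4 (.s k59 k251 7 (.s
  k106 k200 12 (.s k64 k127 6 (.d k192 k128 k149 7 14)))))), (.s k21 k42 6 (.s k183 k123 9 (.s k187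
  k136 4 (.s k191 k179 1 (.d k149 k128 k213 6 7))))), (.s k42 k21 6 (.s k106 k234 7 (.s k59 k200 12
  (.s k123 k183 9 (.d k187 k251 k136 7 4)))))] (.c k119 (.l (.s k187 k136 4 (.s k21 k42 6 (.s k149
  k213 7 (.s k128 k191 6 (.d k192 k64 k106 7 14)))))) (.c k187 (.q k119 [(.s k42 k21 6 (.s k106 k234
  7 (.s k64 k127 6 (.d k192 k128 k149 7 14)))), (.s k68 k102 4 (.s k204 k136 9 (.s k157 k110 12 (.s
  k149 k145 1 (.s k128 k191 6 (.d k192 k106 k64 14 7)))))), (.s k21 k42 6 (.s k68 k102 4 (.s k149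
  k213 7 (.s k157 k145 1 (.d k204 k136 k110 9 12))))), (.s k42 k21 6 (.s k123 k183 9 (.s k127 k115 1
  (.d k106 k64 k234 6 7))))] .n) .n))) (.c k204 (.q k154 [(.s k16 k223 10 (.s k48 k32 3 (.s k138
  k186 3 (.d k207 k69 k101 10 14)))), (.s k136 k187 4 (.s k138 k186 3 (.s k139 k137 0 (.s k152 k155
  0 (.d k184 k168 k169 3 4))))), (.s k16 k223 10 (.s k136 k187 4 (.s k152 k155 0 (.s k84 k220 9 (.d
  k168 k252 k184 13 3)))))] (.c k221 (.q k238 [(.s k16 k223 10 (.s k48 k32 3 (.s k138 k186 3 (.d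
  k207 k69 k101 10 14)))), (.s k102 k34 9 (.s k138 k186 3 (.s k206 k50 13 (.s k2 k70 9 (.d k254 k222
  k86 3 13))))), (.s k16 k223 10 (.s k136 k187 4 (.s k152 k155 0 (.s k168 k184 3 (.d k84 k220 k252 9
  13)))))] (.c k186 (.l (.s k16 k223 10 (.s k34 k102 9 (.s k17 k51 4 (.s k18 k19 0 (.s k2 k50 3 (.d
  k86 k222 k254 9 13))))))) (.c k222 (.l (.s k138 k186 3 (.s k207 k69 10 (.s k48 k101 14 (.d k16 k32
  k223 3 10))))) .n))) (.c k238 (.l (.s k221 k17 9 (.s k16 k223 10 (.s k48 k32 3 (.s k138 k186 3 (.d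
  k207 k69 k101 10 14)))))) .n))) .n))) (.c k89 (.f k81 k162 12 (.q k240 [(.s k160 k80 11 (.s k165
  k175 2 (.s k5 k245 11 (.d k15 k10 k90 2 14)))), (.s k241 k242 0 (.s k1 k161 11 (.s k169 k253 13
  (.s k168 k171 0 (.s k252 k84 13 (.d k3 k2 k86 0 14))))))] (.c k73 (.q k121 [(.s k160 k80 11 (.s
  k165 k175 2 (.s k5 k245 11 (.d k15 k10 k90 2 14)))), (.s k60 k182 10 (.s k120 k180 9 (.s k122 k123
  0 (.s k181 k63 10 (.d k241 k242 k61 0 9)))))] .n) (.c k121 (.q k73 [(.s k160 k80 11 (.s k165 k175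
  2 (.s k5 k245 11 (.d k15 k10 k90 2 14)))), (.s k241 k242 0 (.s k1 k161 11 (.s k169 k253 13 (.s
  k168 k171 0 (.s k252 k84 13 (.d k3 k2 k86 0 14))))))] (.c k160 (.l (.s k241 k242 0 (.s k161 k1 11
  (.s k82 k3 12 (.s k80 k83 0 (.s k90 k95 2 (.s k10 k250 11 (.d k15 k5 k165 2 14)))))))) .n)) (.c
  k160 (.l (.s k241 k242 0 (.s k161 k1 11 (.s k82 k3 12 (.s k80 k83 0 (.s k90 k95 2 (.s k10 k250 11
  (.d k15 k5 k165 2 14)))))))) .n))))) (.c k93 (.l (.s k162 k81 12 (.s k166 k174 1 (.s k12 k89 14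
  (.d k4 k8 k247 1 12))))) (.c k162 (.q k153 [(.s k17 k221 9 (.s k136 k187 4 (.s k204 k68 9 (.d k51
  k34 k102 4 14)))), (.s k136 k187 4 (.s k204 k68 9 (.s k217 k230 6 (.s k89 k25 7 (.s k8 k251 12 (.d
  k12 k4 k166 1 14)))))), (.s k17 k221 9 (.s k51 k34 4 (.s k179 k115 7 (.s k166 k140 6 (.s k4 k247
  12 (.d k12 k8 k89 1 14))))))] (.c k51 (.q k154 [(.s k16 k223 10 (.s k138 k186 3 (.s k207 k69 10
  (.d k48 k32 k101 3 14)))), (.s k155 k152 0 (.s k186 k138 3 (.s k187 k136 4 (.s k139 k171 3 (.d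
  k184 k185 k169 0 4))))), (.s k16 k223 10 (.s k17 k221 9 (.s k19 k18 0 (.s k152 k155 0 (.d k220 k84
  k86 9 10)))))] (.c k119 (.l (.s k187 k136 4 (.s k16 k223 10 (.s k48 k32 3 (.s k138 k186 3 (.d k207
  k69 k101 10 14)))))) (.c k187 (.q k119 [(.s k16 k223 10 (.s k138 k186 3 (.s k207 k69 10 (.d k48
  k32 k101 3 14)))), (.s k155 k152 0 (.s k221 k17 9 (.s k223 k16 10 (.s k19 k87 9 (.d k220 k222 k86
  0 10))))), (.s k68 k102 4 (.s k136 k204 9 (.s k138 k186 3 (.s k139 k137 0 (.s k152 k155 0 (.d k184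
  k168 k169 3 4))))))] .n) .n))) (.c k204 (.q k154 [(.s k16 k223 10 (.s k138 k186 3 (.s k207 k69 10
  (.d k48 k32 k101 3 14)))), (.s k136 k187 4 (.s k138 k186 3 (.s k139 k137 0 (.s k152 k155 0 (.d
  k184 k168 k169 3 4))))), (.s k16 k223 10 (.s k136 k187 4 (.s k152 k155 0 (.s k84 k220 9 (.d k168
  k252 k184 13 3)))))] (.c k221 (.q k238 [(.s k138 k186 3 (.s k207 k69 10 (.s k48 k101 14 (.d k16
  k32 k223 3 10)))), (.s k16 k223 10 (.s k136 k187 4 (.s k152 k155 0 (.s k168 k184 3 (.d k84 k220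
  k252 9 13))))), (.s k102 k34 9 (.s k138 k186 3 (.s k206 k50 13 (.s k2 k70 9 (.d k254 k222 k86 3
  13)))))] (.c k186 (.l (.s k16 k223 10 (.s k34 k102 9 (.s k17 k51 4 (.s k18 k19 0 (.s k2 k50 3 (.d
  k86 k222 k254 9 13))))))) .n)) (.c k238 (.l (.s k221 k17 9 (.s k16 k223 10 (.s k48 k32 3 (.s k138
  k186 3 (.d k207 k69 k101 10 14)))))) .n))) .n))) (.c k166 (.f k81 k162 12 (.q k101 [(.s k32 k239
  10 (.s k48 k16 3 (.s k69 k117 3 (.d k207 k138 k154 10 14)))), (.s k89 k93 1 (.s k8 k251 12 (.s k12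
  k4 1 (.s k77 k113 5 (.s k207 k142 8 (.d k69 k117 k138 3 10)))))), (.s k32 k239 10 (.s k48 k16 3
  (.s k89 k93 1 (.d k113 k77 k178 5 8))))] (.c k44 (.q k227 [(.s k69 k117 3 (.s k207 k138 10 (.s
  k231 k219 5 (.d k239 k235 k32 1 10)))), (.s k89 k93 1 (.s k113 k77 5 (.s k65 k97 3 (.d k195 k211
  k130 3 8))))] .n) (.c k207 (.l (.s k89 k93 1 (.s k113 k77 5 (.s k48 k178 8 (.d k32 k16 k239 3
  10))))) (.c k227 (.q k44 [(.s k32 k239 10 (.s k48 k16 3 (.s k69 k117 3 (.d k207 k138 k154 10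
  14)))), (.s k89 k93 1 (.s k113 k77 5 (.s k48 k178 8 (.d k32 k16 k239 3 10)))), (.s k69 k117 3 (.s
  k89 k93 1 (.s k113 k77 5 (.s k48 k178 8 (.d k207 k154 k138 14 10))))), (.s k32 k239 10 (.s k40 k36
  1 (.s k60 k20 5 (.s k12 k28 3 (.s k89 k93 1 (.d k8 k4 k251 1 12))))))] (.c k32 (.q k97 [(.s k113
  k65 3 (.d k89 k93 k77 1 5)), (.s k69 k117 3 (.s k113 k65 3 (.s k48 k178 8 (.d k207 k154 k138 14
  10)))), (.s k69 k117 3 (.s k89 k93 1 (.s k207 k138 10 (.s k219 k231 5 (.d k154 k48 k24 14 8)))))]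
  .n) (.c k97 (.l (.s k32 k239 10 (.s k48 k16 3 (.s k69 k117 3 (.d k207 k138 k154 10 14))))) .n)))
  .n))))) (.c k174 (.l (.s k81 k162 12 (.s k89 k93 1 (.s k12 k166 14 (.d k8 k4 k251 1 12))))) (.c
  k247 (.l (.s k81 k162 12 (.s k89 k93 1 (.s k8 k251 12 (.d k12 k4 k166 1 14))))) .n))))))))))))

def t11_106 : T TT 256 :=
  (.f k170 k255 14 (.q k243 [(.s k162 k81 12 (.s k166 k174 1 (.s k4 k247 12 (.d k12 k8 k89 1 14))))]
  (.c k4 (.q k1 [(.s k3 k2 0 (.s k169 k253 13 (.s k168 k171 0 (.d k252 k84 k86 13 14)))), (.s k3 k2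
  0 (.s k81 k162 12 (.s k83 k163 11 (.s k82 k80 0 (.d k161 k241 k240 11 12))))), (.s k81 k162 12 (.s
  k89 k93 1 (.s k169 k253 13 (.s k9 k249 11 (.s k13 k5 1 (.d k241 k161 k165 11 13))))))] .n) (.c k8
  (.q k10 [(.s k15 k5 2 (.s k90 k250 11 (.s k80 k95 2 (.d k240 k160 k165 11 14)))), (.s k15 k5 2 (.s
  k81 k162 12 (.s k89 k93 1 (.s k91 k167 13 (.d k90 k88 k250 0 11))))), (.s k90 k250 11 (.s k162 k81
  12 (.s k166 k174 1 (.s k242 k14 13 (.s k240 k241 0 (.d k80 k95 k160 2 11))))))] (.c k90 (.l (.s k5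
  k15 2 (.s k81 k162 12 (.s k89 k93 1 (.s k165 k245 11 (.s k241 k13 13 (.s k240 k242 0 (.d k160 k175
  k80 2 11)))))))) (.c k250 (.l (.s k15 k5 2 (.s k81 k162 12 (.s k89 k93 1 (.s k91 k167 13 (.s k90
  k88 0 (.s k80 k95 2 (.d k240 k160 k165 11 14)))))))) .n))) (.c k12 (.f k81 k162 12 (.q k1 [(.s k3
  k2 0 (.s k83 k163 11 (.s k82 k80 0 (.d k161 k241 k240 11 12)))), (.s k169 k253 13 (.s k168 k171 0
  (.s k252 k84 13 (.s k249 k246 2 (.d k89 k93 k9 1 11)))))] (.c k3 (.l (.s k241 k161 11 (.s k240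
  k242 0 (.s k160 k80 11 (.s k165 k175 2 (.d k89 k93 k13 1 13)))))) (.c k93 (.q k174 [(.s k3 k2 0
  (.s k83 k163 11 (.s k82 k80 0 (.d k161 k241 k240 11 12)))), (.s k169 k253 13 (.s k168 k171 0 (.s
  k252 k84 13 (.d k3 k2 k86 0 14)))), (.s k241 k161 11 (.s k253 k169 13 (.s k245 k249 1 (.s k165 k5
  11 (.s k160 k175 2 (.d k240 k242 k80 0 11))))))] .n) (.c k174 (.l (.s k93 k89 1 (.s k3 k2 0 (.s
  k83 k163 11 (.s k82 k80 0 (.d k161 k241 k240 11 12)))))) .n))))) (.c k81 (.q k153 [(.s k17 k221 9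
  (.s k51 k34 4 (.s k136 k187 4 (.d k204 k68 k102 9 14)))), (.s k136 k187 4 (.s k204 k68 9 (.s k217
  k230 6 (.s k89 k25 7 (.s k8 k251 12 (.d k12 k4 k166 1 14)))))), (.s k17 k221 9 (.s k51 k34 4 (.s
  k179 k115 7 (.s k166 k140 6 (.s k4 k247 12 (.d k12 k8 k89 1 14))))))] (.c k51 (.q k101 [(.s k32
  k239 10 (.s k69 k117 3 (.s k207 k138 10 (.d k48 k16 k154 3 14)))), (.s k17 k221 9 (.s k49 k205 13
  (.s k1 k33 3 (.s k117 k69 3 (.d k253 k185 k169 9 13))))), (.s k32 k239 10 (.s k48 k16 3 (.s k113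
  k178 8 (.s k89 k77 5 (.s k8 k251 12 (.d k12 k4 k166 1 14))))))] (.c k119 (.l (.s k187 k136 4 (.s
  k32 k239 10 (.s k48 k16 3 (.s k69 k117 3 (.d k207 k138 k154 10 14)))))) (.c k187 (.q k119 [(.s k32
  k239 10 (.s k69 k117 3 (.s k207 k138 10 (.d k48 k16 k154 3 14)))), (.s k17 k221 9 (.s k49 k205 13
  (.s k1 k33 3 (.s k117 k69 3 (.d k253 k185 k169 9 13))))), (.s k32 k239 10 (.s k48 k16 3 (.s k68
  k102 4 (.s k204 k136 9 (.s k152 k100 13 (.d k154 k207 k155 14 0))))))] .n) .n))) (.c k204 (.q k149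
  [(.s k157 k145 1 (.s k213 k21 7 (.s k221 k17 9 (.s k209 k217 1 (.d k29 k93 k89 7 9))))), (.s k128
  k191 6 (.s k136 k187 4 (.s k140 k132 1 (.s k145 k157 1 (.d k179 k162 k166 4 6))))), (.s k21 k213 7
  (.s k63 k42 6 (.s k183 k123 9 (.s k187 k136 4 (.d k191 k179 k128 1 6)))))] (.c k221 (.q k238 [(.s
  k21 k213 7 (.s k63 k42 6 (.s k183 k123 9 (.s k187 k136 4 (.d k191 k179 k128 1 6))))), (.s k34 k102
  9 (.s k51 k17 4 (.s k128 k191 6 (.s k145 k157 1 (.d k179 k162 k115 4 7))))), (.s k21 k213 7 (.s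
  k63 k42 6 (.s k102 k34 9 (.s k55 k196 12 (.s k119 k68 4 (.d k183 k247 k123 7 9))))))] (.c k63 (.l
  (.s k34 k102 9 (.s k51 k17 4 (.s k179 k115 7 (.s k187 k136 4 (.d k191 k183 k128 1 6)))))) (.c k209
  (.l (.s k34 k102 9 (.s k51 k17 4 (.s k145 k157 1 (.s k128 k191 6 (.d k179 k162 k115 4 7))))))
  .n))) (.c k238 (.l (.s k221 k17 9 (.s k128 k191 6 (.s k192 k64 7 (.s k209 k226 4 (.d k213 k217 k21
  1 7)))))) .n))) .n))) (.c k89 (.f k81 k162 12 (.q k3 [(.s k2 k1 0 (.s k86 k254 13 (.s k84 k87 0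
  (.d k252 k168 k169 13 14)))), (.s k83 k163 11 (.s k80 k82 0 (.s k90 k95 2 (.s k10 k250 11 (.s k15
  k5 2 (.d k240 k160 k165 11 14))))))] (.c k2 (.l (.s k83 k163 11 (.s k82 k80 0 (.s k161 k240 12 (.s
  k1 k241 11 (.s k169 k253 13 (.s k168 k171 0 (.d k252 k84 k86 13 14)))))))) (.c k72 (.q k123 [(.s
  k2 k1 0 (.s k86 k254 13 (.s k84 k87 0 (.d k252 k168 k169 13 14)))), (.s k83 k163 11 (.s k80 k82 0
  (.s k90 k95 2 (.s k10 k250 11 (.s k15 k5 2 (.d k240 k160 k165 11 14))))))] (.c k2 (.l (.s k63 k183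
  9 (.s k21 k42 6 (.s k23 k43 5 (.s k149 k213 7 (.s k86 k212 8 (.s k84 k87 0 (.d k252 k169 k168 14
  13)))))))) .n)) (.c k123 (.q k72 [(.s k2 k1 0 (.s k86 k254 13 (.s k84 k87 0 (.d k252 k168 k169 13
  14)))), (.s k83 k163 11 (.s k80 k82 0 (.s k90 k95 2 (.s k10 k250 11 (.s k15 k5 2 (.d k240 k160
  k165 11 14))))))] (.c k2 (.l (.s k83 k163 11 (.s k82 k80 0 (.s k161 k240 12 (.s k1 k241 11 (.s
  k169 k253 13 (.s k168 k171 0 (.d k252 k84 k86 13 14)))))))) .n)) .n))))) (.c k93 (.l (.s k162 k81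
  12 (.s k166 k174 1 (.s k12 k89 14 (.d k4 k8 k247 1 12))))) (.c k162 (.q k153 [(.s k17 k221 9 (.s
  k136 k187 4 (.s k204 k68 9 (.d k51 k34 k102 4 14)))), (.s k136 k187 4 (.s k204 k68 9 (.s k217 k230
  6 (.s k89 k25 7 (.s k8 k251 12 (.d k12 k4 k166 1 14)))))), (.s k17 k221 9 (.s k51 k34 4 (.s k179
  k115 7 (.s k166 k140 6 (.s k4 k247 12 (.d k12 k8 k89 1 14))))))] (.c k51 (.q k166 [(.s k4 k247 12
  (.d k12 k8 k89 1 14)), (.s k179 k140 6 (.s k187 k136 4 (.s k183 k191 1 (.s k63 k123 9 (.s k21 k42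
  6 (.d k149 k132 k213 4 7))))))] (.c k89 (.l (.s k4 k247 12 (.s k12 k8 1 (.s k140 k179 6 (.s k204
  k76 7 (.d k136 k187 k68 4 9)))))) (.c k119 (.l (.s k187 k136 4 (.s k4 k247 12 (.d k12 k8 k89 1
  14)))) (.c k187 (.q k119 [(.s k4 k247 12 (.d k12 k8 k89 1 14)), (.s k12 k89 14 (.s k68 k102 4 (.s
  k140 k179 6 (.d k204 k76 k136 7 9)))), (.s k4 k247 12 (.s k68 k102 4 (.s k132 k196 7 (.s k136 k204
  9 (.d k140 k128 k179 1 6)))))] .n) .n)))) (.c k204 (.q k149 [(.s k157 k145 1 (.s k187 k136 4 (.s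
  k191 k128 6 (.s k179 k183 1 (.d k140 k174 k166 4 6))))), (.s k213 k21 7 (.s k221 k17 9 (.s k209
  k217 1 (.s k29 k89 9 (.d k157 k145 k93 1 7))))), (.s k21 k213 7 (.s k63 k42 6 (.s k183 k123 9 (.s
  k187 k136 4 (.d k191 k179 k128 1 6)))))] (.c k221 (.q k238 [(.s k34 k102 9 (.s k51 k17 4 (.s k179
  k115 7 (.s k187 k136 4 (.d k191 k183 k128 1 6))))), (.s k21 k213 7 (.s k63 k42 6 (.s k187 k136 4
  (.s k191 k128 6 (.d k183 k179 k123 1 9))))), (.s k21 k213 7 (.s k34 k102 9 (.s k17 k51 4 (.s k29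
  k25 1 (.s k145 k157 1 (.d k209 k81 k89 7 9))))))] (.c k187 (.l (.s k34 k102 9 (.s k51 k17 4 (.s
  k128 k191 6 (.s k145 k157 1 (.d k192 k98 k64 12 7)))))) .n)) (.c k238 (.l (.s k221 k17 9 (.s k128
  k191 6 (.s k192 k64 7 (.s k209 k226 4 (.d k213 k217 k21 1 7)))))) .n))) .n))) (.c k166 (.f k81
  k162 12 (.q k102 [(.s k34 k238 9 (.s k51 k17 4 (.s k68 k119 4 (.d k204 k136 k153 9 14)))), (.s k89
  k93 1 (.s k8 k251 12 (.s k12 k4 1 (.s k76 k115 6 (.s k204 k140 7 (.d k68 k119 k136 4 9)))))), (.s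
  k34 k238 9 (.s k51 k17 4 (.s k89 k93 1 (.d k115 k76 k179 6 7))))] (.c k46 (.q k226 [(.s k68 k119 4
  (.s k204 k136 9 (.s k230 k217 6 (.d k238 k234 k34 1 9)))), (.s k89 k93 1 (.s k115 k76 6 (.s k64
  k98 4 (.d k192 k209 k128 4 7))))] .n) (.c k204 (.l (.s k89 k93 1 (.s k115 k76 6 (.s k51 k179 7 (.d
  k34 k17 k238 4 9))))) (.c k226 (.q k46 [(.s k34 k238 9 (.s k51 k17 4 (.s k68 k119 4 (.d k204 k136
  k153 9 14)))), (.s k89 k93 1 (.s k115 k76 6 (.s k51 k179 7 (.d k34 k17 k238 4 9)))), (.s k68 k119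
  4 (.s k89 k93 1 (.s k115 k76 6 (.s k51 k179 7 (.d k204 k153 k136 14 9))))), (.s k34 k238 9 (.s k42
  k38 1 (.s k63 k21 6 (.s k12 k29 4 (.s k89 k93 1 (.d k8 k4 k251 1 12))))))] (.c k34 (.q k98 [(.s
  k115 k64 4 (.d k89 k93 k76 1 6)), (.s k68 k119 4 (.s k115 k64 4 (.s k51 k179 7 (.d k204 k153 k136
  14 9)))), (.s k68 k119 4 (.s k89 k93 1 (.s k204 k136 9 (.s k217 k230 6 (.d k153 k51 k25 14 7)))))]
  .n) (.c k98 (.l (.s k34 k238 9 (.s k51 k17 4 (.s k68 k119 4 (.d k204 k136 k153 9 14))))) .n)))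
  .n))))) (.c k174 (.l (.s k81 k162 12 (.s k89 k93 1 (.s k12 k166 14 (.d k8 k4 k251 1 12))))) (.c
  k247 (.l (.s k81 k162 12 (.s k89 k93 1 (.s k8 k251 12 (.d k12 k4 k166 1 14))))) .n))))))))))))

def t11_107 : T TT 256 :=
  (.f k255 k170 14 (.q k105 [(.s k65 k125 5 (.s k195 k130 8 (.s k150 k60 14 (.d k215 k235 k20 5
  8))))] (.c k20 (.q k1 [(.s k3 k2 0 (.s k169 k253 13 (.s k86 k252 14 (.d k87 k84 k171 0 13)))), (.s
  k65 k125 5 (.s k169 k253 13 (.s k41 k233 7 (.s k61 k21 5 (.d k193 k129 k149 7 13))))), (.s k3 k2 0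
  (.s k65 k125 5 (.s k129 k193 7 (.s k66 k192 8 (.s k67 k64 0 (.d k195 k131 k130 7 8))))))] .n) (.c
  k60 (.q k1 [(.s k3 k2 0 (.s k169 k253 13 (.s k86 k252 14 (.d k87 k84 k171 0 13)))), (.s k65 k125 5
  (.s k169 k253 13 (.s k41 k233 7 (.s k61 k21 5 (.d k193 k129 k149 7 13))))), (.s k3 k2 0 (.s k65
  k125 5 (.s k129 k193 7 (.s k66 k192 8 (.s k67 k64 0 (.d k195 k131 k130 7 8))))))] .n) (.c k65 (.q
  k149 [(.s k21 k213 7 (.s k63 k42 6 (.s k106 k192 14 (.d k127 k64 k191 6 7)))), (.s k21 k213 7 (.s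
  k61 k193 13 (.s k1 k41 5 (.s k3 k2 0 (.s k87 k171 13 (.s k86 k84 0 (.d k169 k253 k252 13
  14)))))))] (.c k21 (.q k20 [(.s k60 k40 5 (.d k150 k215 k195 8 14)), (.s k60 k40 5 (.s k61 k193 13
  (.s k63 k62 0 (.s k127 k191 7 (.d k106 k64 k192 6 14))))), (.s k193 k61 13 (.s k215 k150 8 (.s
  k195 k235 5 (.s k192 k194 0 (.s k64 k128 7 (.d k106 k127 k63 6 14))))))] .n) (.c k213 (.q k1 [(.s
  k61 k193 13 (.s k41 k21 5 (.d k169 k233 k253 7 13))), (.s k3 k2 0 (.s k87 k171 13 (.s k86 k84 0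
  (.s k23 k212 8 (.s k67 k124 6 (.s k195 k131 7 (.d k215 k235 k151 5 7)))))))] (.c k169 (.l (.s k61
  k193 13 (.s k21 k41 5 (.s k63 k42 6 (.s k106 k192 14 (.d k127 k64 k191 6 7)))))) .n)) .n))) (.c
  k125 (.q k252 [(.s k84 k168 13 (.s k253 k254 0 (.s k169 k1 13 (.d k86 k87 k3 0 14)))), (.s k84
  k168 13 (.s k86 k87 0 (.s k169 k3 14 (.s k233 k41 7 (.s k195 k214 6 (.s k60 k150 14 (.d k124 k67
  k188 6 7))))))), (.s k253 k254 0 (.s k169 k1 13 (.s k233 k41 7 (.s k195 k214 6 (.s k215 k235 5 (.d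
  k150 k20 k60 8 14))))))] (.c k86 (.q k215 [(.s k150 k20 8 (.d k195 k235 k60 5 14)), (.s k195 k235
  5 (.s k214 k233 6 (.s k213 k212 0 (.s k234 k192 6 (.d k254 k253 k194 0 5))))), (.s k20 k150 8 (.s
  k84 k168 13 (.s k212 k148 7 (.s k192 k232 5 (.d k213 k214 k234 0 6)))))] (.c k2 (.l (.s k254 k253
  0 (.s k150 k20 8 (.d k195 k235 k60 5 14)))) (.c k254 (.q k2 [(.s k150 k20 8 (.d k195 k235 k60 5
  14)), (.s k1 k3 0 (.s k169 k253 13 (.s k195 k235 5 (.d k233 k214 k41 6 7)))), (.s k20 k150 8 (.s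
  k84 k168 13 (.s k212 k148 7 (.s k192 k232 5 (.d k213 k214 k234 0 6)))))] .n) .n))) (.c k169 (.f
  k168 k84 13 (.q k240 [(.s k80 k160 11 (.s k90 k95 2 (.s k245 k250 2 (.d k165 k5 k15 11 14)))), (.s
  k160 k80 11 (.s k164 k172 1 (.s k88 k12 13 (.d k248 k244 k8 1 11)))), (.s k245 k250 2 (.s k253
  k254 0 (.s k249 k241 1 (.s k246 k243 2 (.d k244 k248 k247 1 0)))))] (.c k90 (.l (.s k248 k244 1
  (.s k88 k8 11 (.s k160 k80 11 (.d k164 k172 k12 1 13))))) (.c k248 (.q k90 [(.d k80 k95 k160 2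
  11), (.s k165 k15 14 (.d k245 k250 k5 2 11))] .n) .n)))) (.c k171 (.l (.s k253 k254 0 (.s k84 k168
  13 (.s k169 k1 13 (.d k86 k87 k3 0 14))))) .n)))) (.c k130 (.l (.s k125 k65 5 (.s k60 k190 8 (.s
  k150 k195 14 (.d k20 k40 k215 5 8))))) (.c k150 (.f k125 k65 5 (.q k117 [(.s k101 k69 3 (.s k109
  k97 1 (.s k77 k93 3 (.d k113 k121 k89 1 5)))), (.s k48 k186 10 (.s k16 k32 3 (.s k154 k223 10 (.s
  k56 k203 12 (.d k60 k190 k52 8 1)))))] (.c k101 (.l (.s k121 k113 1 (.s k89 k73 3 (.s k81 k93 1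
  (.s k243 k162 12 (.d k60 k190 k182 8 10)))))) (.c k130 (.l (.s k190 k60 8 (.s k48 k186 10 (.s k16
  k32 3 (.s k101 k69 3 (.d k154 k223 k207 10 14)))))) (.c k190 (.q k130 [(.s k101 k69 3 (.s k109 k97
  1 (.s k77 k93 3 (.d k113 k121 k89 1 5)))), (.s k48 k186 10 (.s k16 k32 3 (.s k154 k223 10 (.d k101
  k69 k207 3 14)))), (.s k121 k113 1 (.s k186 k48 10 (.s k251 k56 8 (.s k243 k247 1 (.s k81 k162 12
  (.d k89 k93 k73 1 3))))))] .n) .n))))) (.c k190 (.l (.s k65 k125 5 (.s k195 k130 8 (.s k150 k60 14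
  (.d k215 k235 k20 5 8))))) (.c k195 (.q k63 [(.s k21 k42 6 (.s k127 k191 7 (.s k106 k64 6 (.d k149
  k213 k192 7 14)))), (.s k21 k42 6 (.s k125 k65 5 (.s k60 k190 8 (.s k61 k62 0 (.s k1 k41 5 (.d
  k253 k189 k169 7 13)))))), (.s k125 k65 5 (.s k60 k190 8 (.s k61 k62 0 (.s k127 k191 7 (.s k106
  k64 6 (.d k149 k193 k192 13 14))))))] (.c k106 (.l (.s k125 k65 5 (.s k60 k190 8 (.s k61 k62 0 (.s
  k149 k193 13 (.d k21 k42 k213 6 7)))))) .n)) (.c k215 (.q k1 [(.s k3 k2 0 (.s k169 k253 13 (.s k86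
  k252 14 (.d k87 k84 k171 0 13)))), (.s k65 k125 5 (.s k169 k253 13 (.s k41 k233 7 (.s k61 k21 5
  (.d k193 k129 k149 7 13))))), (.s k3 k2 0 (.s k65 k125 5 (.s k129 k193 7 (.s k66 k192 8 (.s k67
  k64 0 (.d k195 k131 k130 7 8))))))] .n) (.c k235 (.l (.s k125 k65 5 (.s k60 k190 8 (.s k20 k40 5
  (.d k150 k215 k195 8 14))))) .n))))))))))))

def t11_108 : T TT 256 :=
  (.f k255 k170 14 (.q k106 [(.s k64 k127 6 (.s k192 k128 7 (.s k149 k63 14 (.d k213 k234 k21 6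
  7))))] (.c k21 (.q k1 [(.s k3 k2 0 (.s k169 k253 13 (.s k86 k252 14 (.d k87 k84 k171 0 13)))), (.s
  k64 k127 6 (.s k192 k128 7 (.s k213 k234 6 (.s k253 k169 13 (.s k193 k233 5 (.s k65 k129 7 (.d
  k195 k130 k194 8 0))))))), (.s k3 k2 0 (.s k64 k127 6 (.s k192 k128 7 (.s k66 k129 8 (.s k86 k126
  5 (.d k87 k84 k171 0 13))))))] (.c k171 (.l (.s k3 k2 0 (.s k127 k64 6 (.s k63 k191 7 (.s k43 k23
  5 (.d k169 k232 k253 8 13)))))) .n)) (.c k63 (.q k1 [(.s k3 k2 0 (.s k169 k253 13 (.s k86 k252 14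
  (.d k87 k84 k171 0 13)))), (.s k64 k127 6 (.s k192 k128 7 (.s k213 k234 6 (.s k253 k169 13 (.s
  k193 k233 5 (.s k65 k129 7 (.d k195 k130 k194 8 0))))))), (.s k64 k127 6 (.s k169 k253 13 (.s k192
  k128 7 (.s k232 k43 8 (.s k252 k212 5 (.s k84 k168 13 (.d k86 k3 k87 14 0))))))), (.s k3 k2 0 (.s
  k64 k127 6 (.s k192 k128 7 (.s k66 k129 8 (.s k86 k126 5 (.d k87 k84 k171 0 13))))))] .n) (.c k64
  (.q k48 [(.s k16 k32 3 (.s k117 k186 10 (.s k154 k223 10 (.d k101 k69 k207 3 14)))), (.s k16 k32 3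
  (.s k154 k223 10 (.s k58 k202 11 (.s k63 k53 2 (.s k21 k42 6 (.d k149 k213 k192 7 14)))))), (.s
  k117 k186 10 (.s k101 k69 3 (.s k96 k111 2 (.s k192 k144 11 (.s k149 k63 14 (.d k213 k234 k21 6
  7))))))] (.c k101 (.q k87 [(.s k3 k171 13 (.s k1 k2 0 (.s k169 k253 13 (.d k86 k84 k252 0 14)))),
  (.s k3 k171 13 (.s k18 k33 4 (.s k86 k84 0 (.s k154 k222 9 (.d k16 k32 k223 3 10))))), (.s k84 k86
  0 (.s k117 k186 10 (.s k252 k168 13 (.s k116 k184 9 (.s k68 k100 3 (.d k119 k102 k118 4 0)))))),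
  (.s k3 k171 13 (.s k2 k1 0 (.s k18 k33 4 (.s k34 k50 3 (.s k17 k51 4 (.d k16 k32 k19 3 0))))))]
  (.c k32 (.q k239 [(.s k3 k171 13 (.s k1 k2 0 (.s k169 k253 13 (.d k86 k84 k252 0 14)))), (.s k86
  k84 0 (.s k223 k207 3 (.s k16 k154 10 (.s k19 k155 9 (.s k17 k18 0 (.d k153 k221 k220 9 10)))))),
  (.s k3 k171 13 (.s k18 k33 4 (.s k223 k207 3 (.s k16 k154 10 (.d k19 k17 k155 0 9)))))] .n) (.c
  k168 (.l (.s k86 k84 0 (.s k3 k171 13 (.s k169 k252 14 (.d k1 k2 k253 0 13))))) (.c k169 (.l (.s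
  k32 k16 3 (.s k84 k86 0 (.s k3 k171 13 (.s k168 k252 13 (.s k100 k236 9 (.s k204 k152 13 (.d k68
  k116 k136 3 9)))))))) (.c k171 (.l (.s k32 k16 3 (.s k84 k86 0 (.s k168 k252 13 (.s k100 k236 9
  (.s k204 k152 13 (.d k68 k116 k136 3 9))))))) (.c k239 (.l (.s k32 k16 3 (.s k3 k171 13 (.s k1 k2
  0 (.s k86 k84 0 (.d k169 k253 k252 13 14)))))) .n)))))) (.c k154 (.q k84 [(.s k86 k87 0 (.s k252
  k168 13 (.s k253 k254 0 (.d k169 k1 k3 13 14)))), (.s k16 k32 3 (.s k152 k220 9 (.s k100 k204 13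
  (.s k116 k68 3 (.d k252 k184 k168 9 13)))))] (.c k138 (.l (.s k186 k117 10 (.s k86 k87 0 (.s k252
  k168 13 (.s k169 k3 14 (.d k253 k254 k1 0 13)))))) (.c k168 (.l (.s k16 k32 3 (.s k86 k87 0 (.s
  k152 k220 9 (.s k100 k204 13 (.s k116 k68 3 (.s k101 k71 4 (.d k117 k69 k186 3 10)))))))) (.c k186
  (.q k138 [(.s k86 k87 0 (.s k252 k168 13 (.s k169 k3 14 (.d k253 k254 k1 0 13)))), (.s k69 k207 10
  (.s k101 k117 3 (.s k96 k111 2 (.s k192 k144 11 (.s k213 k234 6 (.d k149 k63 k21 14 7))))))] .n)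
  (.c k252 (.l (.s k16 k32 3 (.s k87 k86 0 (.s k3 k171 13 (.s k2 k1 0 (.s k18 k33 4 (.s k17 k19 0
  (.d k34 k50 k51 3 4)))))))) .n))))) .n))) (.c k127 (.q k48 [(.s k16 k32 3 (.s k117 k186 10 (.s
  k101 k69 3 (.d k154 k223 k207 10 14)))), (.s k16 k32 3 (.s k154 k223 10 (.s k58 k202 11 (.s k63
  k53 2 (.s k21 k42 6 (.d k149 k213 k192 7 14)))))), (.s k117 k186 10 (.s k101 k69 3 (.s k96 k111 2
  (.s k192 k144 11 (.s k149 k63 14 (.d k213 k234 k21 6 7))))))] (.c k101 (.q k149 [(.s k21 k213 7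
  (.d k63 k42 k192 6 14)), (.s k63 k192 14 (.s k58 k53 2 (.s k154 k202 11 (.d k16 k32 k223 3 10))))]
  (.c k32 (.q k239 [(.s k21 k213 7 (.d k63 k42 k192 6 14)), (.s k63 k192 14 (.s k58 k53 2 (.s k154
  k202 11 (.d k223 k207 k16 3 10))))] (.c k63 (.l (.s k213 k21 7 (.s k192 k234 6 (.s k144 k96 11 (.s
  k154 k159 2 (.d k223 k207 k16 3 10)))))) (.c k192 (.l (.s k21 k213 7 (.s k63 k42 6 (.s k58 k53 2
  (.s k154 k202 11 (.d k223 k207 k16 3 10)))))) .n))) (.c k63 (.l (.s k213 k21 7 (.s k192 k234 6 (.s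
  k144 k96 11 (.s k154 k159 2 (.d k16 k32 k223 3 10)))))) (.c k192 (.l (.s k21 k213 7 (.s k63 k42 6
  (.s k58 k53 2 (.s k154 k202 11 (.d k16 k32 k223 3 10)))))) (.c k239 (.l (.s k32 k16 3 (.s k21 k213
  7 (.d k63 k42 k192 6 14)))) .n))))) (.c k154 (.q k84 [(.s k252 k168 13 (.s k253 k254 0 (.s k169 k1
  13 (.d k86 k87 k3 0 14)))), (.s k16 k32 3 (.s k152 k220 9 (.s k100 k204 13 (.s k116 k68 3 (.d k252
  k184 k168 9 13)))))] (.c k138 (.l (.s k186 k117 10 (.s k86 k87 0 (.s k252 k168 13 (.s k169 k3 14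
  (.d k253 k254 k1 0 13)))))) (.c k168 (.l (.s k16 k32 3 (.s k86 k87 0 (.s k152 k220 9 (.s k100 k204
  13 (.s k116 k68 3 (.s k101 k71 4 (.d k117 k69 k186 3 10)))))))) (.c k186 (.q k138 [(.s k252 k168
  13 (.s k253 k254 0 (.s k169 k1 13 (.d k86 k87 k3 0 14)))), (.s k69 k207 10 (.s k101 k117 3 (.s k96
  k111 2 (.s k192 k144 11 (.s k213 k234 6 (.d k149 k63 k21 14 7))))))] .n) (.c k252 (.l (.s k16 k32
  3 (.s k87 k86 0 (.s k3 k171 13 (.s k2 k1 0 (.s k18 k33 4 (.s k17 k19 0 (.d k34 k50 k51 3 4))))))))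
  .n))))) .n))) (.c k128 (.l (.s k127 k64 6 (.s k63 k191 7 (.s k149 k192 14 (.d k21 k42 k213 6
  7))))) (.c k149 (.f k127 k64 6 (.q k90 [(.s k80 k95 2 (.s k240 k160 11 (.s k165 k15 14 (.d k245
  k250 k5 2 11)))), (.s k122 k74 3 (.s k117 k112 2 (.s k48 k186 10 (.s k16 k32 3 (.s k154 k223 10
  (.d k101 k69 k207 3 14))))))] (.c k80 (.l (.s k122 k74 3 (.s k112 k117 2 (.s k79 k101 6 (.s k95
  k111 3 (.s k15 k175 11 (.s k5 k10 2 (.d k165 k245 k240 11 14)))))))) (.c k128 (.l (.s k191 k63 7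
  (.s k80 k95 2 (.s k240 k160 11 (.s k165 k15 14 (.d k245 k250 k5 2 11)))))) (.c k191 (.q k128 [(.s
  k80 k95 2 (.s k240 k160 11 (.s k245 k250 2 (.d k165 k5 k15 11 14)))), (.s k122 k74 3 (.s k117 k112
  2 (.s k48 k186 10 (.s k16 k32 3 (.s k154 k223 10 (.d k101 k69 k207 3 14))))))] (.c k80 (.l (.s
  k122 k74 3 (.s k112 k117 2 (.s k79 k101 6 (.s k95 k111 3 (.s k15 k175 11 (.s k5 k10 2 (.d k165
  k245 k240 11 14)))))))) .n)) .n))))) (.c k191 (.l (.s k64 k127 6 (.s k192 k128 7 (.s k149 k63 14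
  (.d k213 k234 k21 6 7))))) (.c k192 (.q k1 [(.s k3 k2 0 (.s k169 k253 13 (.s k86 k252 14 (.d k87
  k84 k171 0 13)))), (.s k127 k64 6 (.s k63 k191 7 (.s k21 k42 6 (.s k61 k41 5 (.s k253 k169 13 (.s
  k125 k189 7 (.d k60 k190 k62 8 0))))))), (.s k3 k2 0 (.s k127 k64 6 (.s k63 k191 7 (.s k21 k42 6
  (.s k23 k43 5 (.s k22 k20 0 (.d k41 k61 k60 5 6)))))))] .n) (.c k213 (.q k1 [(.s k3 k2 0 (.s k169
  k253 13 (.s k86 k252 14 (.d k87 k84 k171 0 13)))), (.s k127 k64 6 (.s k63 k191 7 (.s k21 k42 6 (.s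
  k61 k41 5 (.s k60 k62 0 (.s k125 k190 8 (.d k253 k189 k169 7 13))))))), (.s k64 k127 6 (.s k169
  k253 13 (.s k192 k128 7 (.s k149 k63 14 (.s k129 k189 5 (.s k66 k3 8 (.d k65 k193 k67 7 0))))))),
  (.s k3 k2 0 (.s k64 k127 6 (.s k192 k128 7 (.s k66 k129 8 (.s k86 k126 5 (.d k87 k84 k171 0
  13))))))] .n) (.c k234 (.l (.s k127 k64 6 (.s k63 k191 7 (.s k21 k42 6 (.d k149 k213 k192 7
  14))))) .n))))))))))))

def t11_109 : T TT 256 :=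
  (.f k255 k170 14 (.q k106 [(.s k64 k127 6 (.s k192 k128 7 (.s k149 k63 14 (.d k213 k234 k21 6
  7))))] (.c k21 (.q k1 [(.s k3 k2 0 (.s k169 k253 13 (.s k86 k252 14 (.d k87 k84 k171 0 13)))), (.s
  k64 k127 6 (.s k192 k128 7 (.s k213 k234 6 (.s k253 k169 13 (.s k193 k233 5 (.s k65 k129 7 (.d
  k195 k130 k194 8 0))))))), (.s k3 k2 0 (.s k64 k127 6 (.s k192 k128 7 (.s k66 k129 8 (.s k86 k126
  5 (.d k87 k84 k171 0 13))))))] (.c k171 (.l (.s k3 k2 0 (.s k127 k64 6 (.s k63 k191 7 (.s k43 k23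
  5 (.d k169 k232 k253 8 13)))))) .n)) (.c k63 (.q k1 [(.s k3 k2 0 (.s k169 k253 13 (.s k86 k252 14
  (.d k87 k84 k171 0 13)))), (.s k64 k127 6 (.s k192 k128 7 (.s k213 k234 6 (.s k253 k169 13 (.s
  k193 k233 5 (.s k65 k129 7 (.d k195 k130 k194 8 0))))))), (.s k64 k127 6 (.s k169 k253 13 (.s k192
  k128 7 (.s k232 k43 8 (.s k252 k212 5 (.s k84 k168 13 (.d k86 k3 k87 14 0))))))), (.s k3 k2 0 (.s
  k64 k127 6 (.s k192 k128 7 (.s k66 k129 8 (.s k86 k126 5 (.d k87 k84 k171 0 13))))))] .n) (.c k64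
  (.q k195 [(.s k65 k130 8 (.s k215 k235 5 (.s k150 k20 8 (.d k105 k125 k60 5 14)))), (.s k65 k130 8
  (.s k105 k125 5 (.s k107 k104 0 (.s k63 k151 13 (.s k21 k42 6 (.d k149 k213 k192 7 14)))))), (.s
  k215 k235 5 (.s k150 k20 8 (.s k194 k62 13 (.s k192 k193 0 (.s k149 k63 14 (.d k213 k234 k21 6
  7))))))] (.c k105 (.f k235 k215 5 (.q k48 [(.s k16 k32 3 (.s k117 k186 10 (.s k101 k69 3 (.d k154
  k223 k207 10 14)))), (.s k32 k16 3 (.s k65 k130 8 (.s k97 k146 12 (.s k81 k113 3 (.d k162 k227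
  k243 8 12))))), (.s k117 k186 10 (.s k101 k69 3 (.s k96 k111 2 (.s k192 k144 11 (.s k149 k63 14
  (.d k213 k234 k21 6 7))))))] (.c k97 (.q k101 [(.d k117 k69 k186 3 10), (.s k16 k32 3 (.d k154
  k223 k207 10 14))] .n) (.c k101 (.l (.s k97 k146 12 (.s k32 k16 3 (.s k65 k130 8 (.s k81 k113 3
  (.d k162 k227 k243 8 12)))))) .n)))) (.c k150 (.q k194 [(.s k192 k193 0 (.s k149 k63 14 (.d k213
  k234 k21 6 7))), (.s k130 k65 8 (.s k66 k2 7 (.s k86 k126 5 (.s k84 k87 0 (.s k252 k168 13 (.s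
  k169 k3 14 (.d k253 k254 k1 0 13)))))))] (.c k130 (.q k190 [(.s k192 k193 0 (.s k149 k63 14 (.d
  k213 k234 k21 6 7))), (.s k60 k125 8 (.s k192 k193 0 (.s k104 k148 13 (.s k107 k105 0 (.d k63 k151
  k149 13 14))))), (.s k192 k193 0 (.s k234 k213 6 (.s k214 k254 5 (.s k233 k252 6 (.d k235 k232
  k215 0 5)))))] (.c k192 (.q k1 [(.s k3 k2 0 (.s k169 k253 13 (.s k86 k252 14 (.d k87 k84 k171 0
  13)))), (.s k3 k2 0 (.s k60 k125 8 (.s k40 k20 5 (.s k41 k22 6 (.s k42 k43 0 (.d k21 k61 k63 5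
  6)))))), (.s k125 k60 8 (.s k65 k105 5 (.s k193 k129 7 (.s k253 k169 13 (.s k233 k213 5 (.d k252
  k254 k214 0 6))))))] (.c k3 (.l (.s k125 k60 8 (.s k65 k105 5 (.s k253 k169 13 (.s k252 k254 0 (.s
  k233 k214 6 (.d k193 k213 k129 5 7))))))) (.c k254 (.l (.s k169 k253 13 (.s k3 k2 0 (.s k86 k252
  14 (.d k87 k84 k171 0 13))))) .n))) (.c k193 (.l (.s k125 k60 8 (.s k105 k65 5 (.s k107 k104 0 (.s
  k63 k151 13 (.s k21 k42 6 (.d k149 k192 k213 14 7))))))) .n))) (.c k190 (.l (.s k130 k65 8 (.s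
  k192 k193 0 (.s k149 k63 14 (.d k213 k234 k21 6 7))))) .n))) .n))) (.c k127 (.q k195 [(.s k65 k130
  8 (.s k215 k235 5 (.s k150 k20 8 (.d k105 k125 k60 5 14)))), (.s k65 k130 8 (.s k105 k125 5 (.s
  k107 k104 0 (.s k63 k151 13 (.s k21 k42 6 (.d k149 k213 k192 7 14)))))), (.s k215 k235 5 (.s k150
  k20 8 (.s k194 k62 13 (.s k192 k193 0 (.s k149 k63 14 (.d k213 k234 k21 6 7))))))] (.c k105 (.f
  k235 k215 5 (.q k97 [(.s k48 k146 12 (.s k16 k32 3 (.s k117 k186 10 (.s k101 k69 3 (.d k154 k223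
  k207 10 14))))), (.s k65 k130 8 (.s k81 k113 3 (.s k89 k93 1 (.s k243 k162 12 (.s k166 k12 14 (.d
  k247 k251 k4 1 12))))))] (.c k146 (.q k1 [(.s k169 k253 13 (.s k43 k232 8 (.s k171 k107 7 (.d k3
  k87 k2 13 0)))), (.s k65 k130 8 (.s k193 k129 7 (.s k192 k194 0 (.s k149 k63 14 (.d k213 k234 k21
  6 7)))))] (.c k2 (.l (.s k65 k130 8 (.s k193 k129 7 (.s k253 k169 13 (.s k233 k213 5 (.d k252 k214
  k254 6 0)))))) .n)) .n))) (.c k150 (.q k149 [(.s k21 k213 7 (.d k63 k42 k192 6 14)), (.s k63 k192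
  14 (.s k107 k151 13 (.s k105 k104 0 (.d k65 k130 k125 8 5))))] (.c k63 (.l (.s k213 k21 7 (.s k192
  k234 6 (.s k193 k194 0 (.s k105 k61 13 (.d k65 k125 k130 5 8)))))) (.c k130 (.q k190 [(.s k21 k213
  7 (.d k63 k42 k192 6 14)), (.s k63 k192 14 (.s k107 k151 13 (.s k105 k104 0 (.d k125 k60 k65 8
  5))))] (.c k63 (.l (.s k125 k60 8 (.s k105 k65 5 (.s k213 k21 7 (.s k192 k234 6 (.d k193 k61 k194
  13 0)))))) (.c k192 (.l (.s k21 k213 7 (.s k63 k42 6 (.s k107 k151 13 (.s k105 k104 0 (.d k125 k60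
  k65 8 5)))))) .n))) (.c k190 (.l (.s k130 k65 8 (.s k21 k213 7 (.d k63 k42 k192 6 14)))) (.c k192
  (.l (.s k21 k213 7 (.s k63 k42 6 (.s k107 k151 13 (.s k105 k104 0 (.d k65 k125 k130 5 8))))))
  .n))))) .n))) (.c k128 (.l (.s k127 k64 6 (.s k63 k191 7 (.s k149 k192 14 (.d k21 k42 k213 6
  7))))) (.c k149 (.f k127 k64 6 (.q k87 [(.s k3 k171 13 (.s k1 k2 0 (.s k169 k253 13 (.d k86 k84
  k252 0 14)))), (.s k107 k67 5 (.s k105 k104 0 (.s k65 k125 5 (.s k195 k130 8 (.d k63 k191 k151 7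
  13)))))] (.c k84 (.l (.s k3 k171 13 (.s k1 k2 0 (.s k169 k253 13 (.s k43 k232 8 (.d k63 k23 k191 5
  7)))))) (.c k128 (.l (.s k191 k63 7 (.s k3 k171 13 (.s k1 k2 0 (.s k86 k84 0 (.d k169 k253 k252 13
  14)))))) (.c k191 (.q k128 [(.s k3 k171 13 (.s k1 k2 0 (.s k169 k253 13 (.d k86 k84 k252 0 14)))),
  (.s k67 k107 5 (.s k86 k84 0 (.s k124 k105 6 (.d k126 k125 k66 0 5)))), (.s k107 k67 5 (.s k171 k3
  13 (.s k235 k43 7 (.s k195 k215 5 (.s k65 k130 8 (.d k105 k104 k125 0 5))))))] .n) .n))))) (.c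
  k191 (.l (.s k64 k127 6 (.s k192 k128 7 (.s k149 k63 14 (.d k213 k234 k21 6 7))))) (.c k192 (.q k1
  [(.s k3 k2 0 (.s k169 k253 13 (.s k86 k252 14 (.d k87 k84 k171 0 13)))), (.s k127 k64 6 (.s k63
  k191 7 (.s k21 k42 6 (.s k61 k41 5 (.s k253 k169 13 (.s k125 k189 7 (.d k60 k190 k62 8 0))))))),
  (.s k3 k2 0 (.s k127 k64 6 (.s k63 k191 7 (.s k21 k42 6 (.s k23 k43 5 (.s k22 k20 0 (.d k41 k61
  k60 5 6)))))))] .n) (.c k213 (.q k1 [(.s k3 k2 0 (.s k169 k253 13 (.s k86 k252 14 (.d k87 k84 k171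
  0 13)))), (.s k127 k64 6 (.s k63 k191 7 (.s k21 k42 6 (.s k61 k41 5 (.s k60 k62 0 (.s k125 k190 8
  (.d k253 k189 k169 7 13))))))), (.s k64 k127 6 (.s k169 k253 13 (.s k192 k128 7 (.s k149 k63 14
  (.s k129 k189 5 (.s k66 k3 8 (.d k65 k193 k67 7 0))))))), (.s k3 k2 0 (.s k64 k127 6 (.s k192 k128
  7 (.s k66 k129 8 (.s k86 k126 5 (.d k87 k84 k171 0 13))))))] .n) (.c k234 (.l (.s k127 k64 6 (.s
  k63 k191 7 (.s k21 k42 6 (.d k149 k213 k192 7 14))))) .n))))))))))))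

def t11_110 : T TT 256 :=
  (.f k255 k170 14 (.q k105 [(.s k65 k125 5 (.s k195 k130 8 (.s k150 k60 14 (.d k215 k235 k20 5
  8))))] (.c k20 (.q k1 [(.s k3 k2 0 (.s k169 k253 13 (.s k86 k252 14 (.d k87 k84 k171 0 13)))), (.s
  k65 k125 5 (.s k169 k253 13 (.s k41 k233 7 (.s k61 k21 5 (.d k193 k129 k149 7 13))))), (.s k3 k2 0
  (.s k65 k125 5 (.s k129 k193 7 (.s k66 k192 8 (.s k67 k64 0 (.d k195 k131 k130 7 8))))))] .n) (.c
  k60 (.q k1 [(.s k3 k2 0 (.s k169 k253 13 (.s k86 k252 14 (.d k87 k84 k171 0 13)))), (.s k65 k125 5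
  (.s k169 k253 13 (.s k41 k233 7 (.s k61 k21 5 (.d k193 k129 k149 7 13))))), (.s k3 k2 0 (.s k65
  k125 5 (.s k129 k193 7 (.s k66 k192 8 (.s k67 k64 0 (.d k195 k131 k130 7 8))))))] .n) (.c k65 (.q
  k84 [(.s k86 k87 0 (.s k252 k168 13 (.s k253 k254 0 (.d k169 k1 k3 13 14)))), (.s k86 k87 0 (.s
  k124 k67 6 (.s k64 k104 5 (.s k192 k128 7 (.s k213 k234 6 (.s k149 k21 7 (.d k106 k127 k63 6
  14)))))))] (.c k86 (.f k252 k168 13 (.q k169 [(.d k253 k254 k1 0 13), (.s k233 k41 7 (.s k195 k214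
  6 (.s k150 k60 14 (.d k215 k235 k20 5 8))))] (.c k2 (.l (.s k254 k253 0 (.s k233 k41 7 (.s k195
  k214 6 (.s k150 k60 14 (.d k215 k235 k20 5 8)))))) (.c k254 (.q k2 [(.d k1 k3 k253 0 13), (.s k233
  k41 7 (.s k195 k214 6 (.s k215 k235 5 (.d k150 k20 k60 8 14))))] .n) .n)))) (.c k87 (.l (.s k252
  k168 13 (.s k253 k254 0 (.s k169 k1 13 (.s k233 k41 7 (.s k195 k214 6 (.s k150 k60 14 (.d k215
  k235 k20 5 8)))))))) .n))) (.c k125 (.q k84 [(.s k86 k87 0 (.s k252 k168 13 (.s k253 k254 0 (.d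
  k169 k1 k3 13 14)))), (.s k86 k87 0 (.s k124 k67 6 (.s k64 k104 5 (.s k192 k128 7 (.s k213 k234 6
  (.s k149 k21 7 (.d k106 k127 k63 6 14)))))))] (.c k86 (.f k252 k168 13 (.q k169 [(.d k253 k254 k1
  0 13), (.s k233 k41 7 (.s k195 k214 6 (.s k150 k60 14 (.d k215 k235 k20 5 8))))] (.c k2 (.l (.s
  k254 k253 0 (.s k233 k41 7 (.s k195 k214 6 (.s k150 k60 14 (.d k215 k235 k20 5 8)))))) (.c k254
  (.q k2 [(.d k1 k3 k253 0 13), (.s k233 k41 7 (.s k195 k214 6 (.s k215 k235 5 (.d k150 k20 k60 8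
  14))))] .n) .n)))) (.c k87 (.l (.s k252 k168 13 (.s k253 k254 0 (.s k169 k1 13 (.s k233 k41 7 (.s
  k195 k214 6 (.s k150 k60 14 (.d k215 k235 k20 5 8)))))))) .n))) (.c k130 (.l (.s k125 k65 5 (.s
  k60 k190 8 (.s k150 k195 14 (.d k20 k40 k215 5 8))))) (.c k150 (.f k125 k65 5 (.f k190 k60 8 (.q
  k21 [(.s k63 k42 6 (.s k127 k191 7 (.s k149 k213 7 (.d k106 k64 k192 6 14)))), (.s k149 k213 7 (.s
  k61 k193 13 (.s k1 k41 5 (.d k253 k189 k169 7 13)))), (.s k63 k42 6 (.s k191 k127 7 (.s k189 k188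
  0 (.s k252 k126 8 (.d k253 k254 k61 0 7)))))] .n))) (.c k190 (.l (.s k65 k125 5 (.s k195 k130 8
  (.s k150 k60 14 (.d k215 k235 k20 5 8))))) (.c k195 (.q k1 [(.s k3 k2 0 (.s k169 k253 13 (.s k86
  k252 14 (.d k87 k84 k171 0 13)))), (.s k3 k2 0 (.s k125 k65 5 (.s k60 k190 8 (.s k40 k20 5 (.s k41
  k22 6 (.s k21 k61 5 (.d k42 k43 k63 0 6))))))), (.s k65 k125 5 (.s k169 k253 13 (.s k41 k233 7 (.s
  k61 k21 5 (.d k193 k129 k149 7 13)))))] .n) (.c k215 (.q k1 [(.s k3 k2 0 (.s k169 k253 13 (.s k86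
  k252 14 (.d k87 k84 k171 0 13)))), (.s k65 k125 5 (.s k169 k253 13 (.s k41 k233 7 (.s k61 k21 5
  (.d k193 k129 k149 7 13))))), (.s k3 k2 0 (.s k65 k125 5 (.s k129 k193 7 (.s k66 k192 8 (.s k67
  k64 0 (.d k195 k131 k130 7 8))))))] .n) (.c k235 (.l (.s k125 k65 5 (.s k60 k190 8 (.s k20 k40 5
  (.d k150 k215 k195 8 14))))) .n))))))))))))

def t11_111 : T TT 256 :=
  (.f k255 k170 14 (.q k105 [(.s k65 k125 5 (.s k195 k130 8 (.s k150 k60 14 (.d k215 k235 k20 5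
  8))))] (.c k20 (.q k1 [(.s k3 k2 0 (.s k169 k253 13 (.s k86 k252 14 (.d k87 k84 k171 0 13)))), (.s
  k65 k125 5 (.s k169 k253 13 (.s k41 k233 7 (.s k61 k21 5 (.d k193 k129 k149 7 13))))), (.s k3 k2 0
  (.s k65 k125 5 (.s k129 k193 7 (.s k66 k192 8 (.s k67 k64 0 (.d k195 k131 k130 7 8))))))] .n) (.c
  k60 (.q k1 [(.s k3 k2 0 (.s k169 k253 13 (.s k86 k252 14 (.d k87 k84 k171 0 13)))), (.s k65 k125 5
  (.s k169 k253 13 (.s k41 k233 7 (.s k61 k21 5 (.d k193 k129 k149 7 13))))), (.s k3 k2 0 (.s k65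
  k125 5 (.s k129 k193 7 (.s k66 k192 8 (.s k67 k64 0 (.d k195 k131 k130 7 8))))))] .n) (.c k65 (.q
  k84 [(.s k86 k87 0 (.s k252 k168 13 (.s k253 k254 0 (.d k169 k1 k3 13 14)))), (.s k86 k87 0 (.s
  k124 k67 6 (.s k64 k104 5 (.s k192 k128 7 (.s k213 k234 6 (.s k149 k21 7 (.d k106 k127 k63 6
  14)))))))] (.c k86 (.f k252 k168 13 (.q k169 [(.d k253 k254 k1 0 13), (.s k233 k41 7 (.s k195 k214
  6 (.s k150 k60 14 (.d k215 k235 k20 5 8))))] (.c k2 (.l (.s k254 k253 0 (.s k233 k41 7 (.s k195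
  k214 6 (.s k150 k60 14 (.d k215 k235 k20 5 8)))))) (.c k254 (.q k2 [(.d k1 k3 k253 0 13), (.s k233
  k41 7 (.s k195 k214 6 (.s k215 k235 5 (.d k150 k20 k60 8 14))))] .n) .n)))) (.c k87 (.l (.s k252
  k168 13 (.s k253 k254 0 (.s k169 k1 13 (.s k233 k41 7 (.s k195 k214 6 (.s k150 k60 14 (.d k215
  k235 k20 5 8)))))))) .n))) (.c k125 (.q k84 [(.s k86 k87 0 (.s k252 k168 13 (.s k253 k254 0 (.d
  k169 k1 k3 13 14)))), (.s k86 k87 0 (.s k124 k67 6 (.s k64 k104 5 (.s k192 k128 7 (.s k213 k234 6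
  (.s k149 k21 7 (.d k106 k127 k63 6 14)))))))] (.c k86 (.f k252 k168 13 (.q k169 [(.d k253 k254 k1
  0 13), (.s k233 k41 7 (.s k195 k214 6 (.s k150 k60 14 (.d k215 k235 k20 5 8))))] (.c k2 (.l (.s
  k254 k253 0 (.s k233 k41 7 (.s k195 k214 6 (.s k150 k60 14 (.d k215 k235 k20 5 8)))))) (.c k254
  (.q k2 [(.d k1 k3 k253 0 13), (.s k233 k41 7 (.s k195 k214 6 (.s k215 k235 5 (.d k150 k20 k60 8
  14))))] .n) .n)))) (.c k87 (.l (.s k252 k168 13 (.s k253 k254 0 (.s k169 k1 13 (.s k233 k41 7 (.s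
  k195 k214 6 (.s k150 k60 14 (.d k215 k235 k20 5 8)))))))) .n))) (.c k130 (.l (.s k125 k65 5 (.s
  k60 k190 8 (.s k150 k195 14 (.d k20 k40 k215 5 8))))) (.c k150 (.f k65 k125 5 (.q k64 [(.s k67 k66
  0 (.s k86 k124 6 (.s k87 k84 0 (.d k127 k107 k106 5 6)))), (.s k66 k67 0 (.s k130 k195 8 (.s k192
  k128 7 (.s k3 k129 8 (.d k2 k1 k194 0 7))))), (.s k106 k127 6 (.s k192 k128 7 (.s k149 k63 14 (.d
  k213 k234 k21 6 7))))] (.c k130 (.q k190 [(.s k67 k66 0 (.s k86 k124 6 (.s k87 k84 0 (.d k127 k107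
  k106 5 6)))), (.s k66 k67 0 (.s k192 k128 7 (.s k129 k3 8 (.s k193 k1 7 (.s k149 k61 13 (.d k213
  k21 k234 7 6)))))), (.s k106 k127 6 (.s k192 k128 7 (.s k149 k63 14 (.d k213 k234 k21 6 7))))] .n)
  (.c k190 (.l (.s k130 k195 8 (.s k66 k67 0 (.s k2 k194 7 (.s k3 k1 0 (.d k192 k128 k129 7 8))))))
  .n)))) (.c k190 (.l (.s k65 k125 5 (.s k195 k130 8 (.s k150 k60 14 (.d k215 k235 k20 5 8))))) (.c
  k195 (.q k1 [(.s k3 k2 0 (.s k169 k253 13 (.s k86 k252 14 (.d k87 k84 k171 0 13)))), (.s k3 k2 0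
  (.s k125 k65 5 (.s k60 k190 8 (.s k40 k20 5 (.s k41 k22 6 (.s k21 k61 5 (.d k42 k43 k63 0
  6))))))), (.s k65 k125 5 (.s k169 k253 13 (.s k41 k233 7 (.s k61 k21 5 (.d k193 k129 k149 7
  13)))))] .n) (.c k215 (.q k1 [(.s k3 k2 0 (.s k169 k253 13 (.s k86 k252 14 (.d k87 k84 k171 0
  13)))), (.s k65 k125 5 (.s k169 k253 13 (.s k41 k233 7 (.s k61 k21 5 (.d k193 k129 k149 7 13))))),
  (.s k3 k2 0 (.s k65 k125 5 (.s k129 k193 7 (.s k66 k192 8 (.s k67 k64 0 (.d k195 k131 k130 7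
  8))))))] .n) (.c k235 (.l (.s k125 k65 5 (.s k60 k190 8 (.s k20 k40 5 (.d k150 k215 k195 8 14)))))
  .n))))))))))))

def t11_114 : T TT 256 :=
  (.f k255 k170 14 (.q k106 [(.s k64 k127 6 (.s k192 k128 7 (.s k149 k63 14 (.d k213 k234 k21 6
  7))))] (.c k21 (.q k1 [(.s k3 k2 0 (.s k169 k253 13 (.s k86 k252 14 (.d k87 k84 k171 0 13)))), (.s
  k64 k127 6 (.s k192 k128 7 (.s k213 k234 6 (.s k253 k169 13 (.s k193 k233 5 (.s k65 k129 7 (.d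
  k195 k130 k194 8 0))))))), (.s k3 k2 0 (.s k64 k127 6 (.s k192 k128 7 (.s k66 k129 8 (.s k86 k126
  5 (.d k87 k84 k171 0 13))))))] (.c k171 (.l (.s k3 k2 0 (.s k127 k64 6 (.s k63 k191 7 (.s k43 k23
  5 (.d k169 k232 k253 8 13)))))) .n)) (.c k63 (.q k1 [(.s k3 k2 0 (.s k169 k253 13 (.s k86 k252 14
  (.d k87 k84 k171 0 13)))), (.s k64 k127 6 (.s k192 k128 7 (.s k213 k234 6 (.s k253 k169 13 (.s
  k193 k233 5 (.s k65 k129 7 (.d k195 k130 k194 8 0))))))), (.s k64 k127 6 (.s k169 k253 13 (.s k192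
  k128 7 (.s k232 k43 8 (.s k252 k212 5 (.s k84 k168 13 (.d k86 k3 k87 14 0))))))), (.s k3 k2 0 (.s
  k64 k127 6 (.s k192 k128 7 (.s k66 k129 8 (.s k86 k126 5 (.d k87 k84 k171 0 13))))))] .n) (.c k64
  (.q k60 [(.s k20 k40 5 (.s k125 k190 8 (.s k150 k215 8 (.d k105 k65 k195 5 14)))), (.s k20 k40 5
  (.s k150 k215 8 (.s k62 k194 13 (.s k63 k61 0 (.s k21 k42 6 (.d k149 k213 k192 7 14)))))), (.s
  k125 k190 8 (.s k105 k65 5 (.s k104 k107 0 (.s k192 k148 13 (.s k149 k63 14 (.d k213 k234 k21 6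
  7))))))] (.c k105 (.q k87 [(.s k3 k171 13 (.s k1 k2 0 (.s k169 k253 13 (.d k86 k84 k252 0 14)))),
  (.s k86 k84 0 (.s k126 k66 5 (.s k190 k125 8 (.s k62 k254 7 (.s k150 k194 13 (.d k20 k40 k215 5
  8)))))), (.s k3 k171 13 (.s k2 k1 0 (.s k22 k41 6 (.s k42 k62 5 (.s k21 k63 6 (.d k20 k40 k23 5
  0))))))] (.c k2 (.l (.s k3 k171 13 (.s k22 k41 6 (.s k86 k84 0 (.s k150 k214 7 (.d k20 k40 k215 5
  8)))))) (.c k40 (.q k235 [(.s k3 k171 13 (.s k1 k2 0 (.s k169 k253 13 (.d k86 k84 k252 0 14)))),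
  (.s k86 k84 0 (.s k126 k66 5 (.s k190 k125 8 (.s k62 k254 7 (.s k150 k194 13 (.d k215 k195 k20 5
  8)))))), (.s k3 k171 13 (.s k22 k41 6 (.s k215 k195 5 (.s k20 k150 8 (.d k23 k21 k151 0 7)))))]
  .n) (.c k235 (.l (.s k40 k20 5 (.s k3 k171 13 (.s k1 k2 0 (.s k86 k84 0 (.d k169 k253 k252 13
  14)))))) .n)))) (.c k150 (.q k149 [(.s k21 k213 7 (.d k63 k42 k192 6 14)), (.s k63 k192 14 (.s k61
  k62 0 (.s k105 k193 13 (.d k125 k190 k65 8 5))))] (.c k63 (.l (.s k213 k21 7 (.s k192 k234 6 (.s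
  k104 k148 13 (.s k105 k107 0 (.d k125 k65 k190 5 8)))))) (.c k130 (.l (.s k190 k125 8 (.s k21 k213
  7 (.d k63 k42 k192 6 14)))) (.c k190 (.q k130 [(.s k21 k213 7 (.d k63 k42 k192 6 14)), (.s k63
  k192 14 (.s k61 k62 0 (.s k65 k195 8 (.d k105 k193 k125 13 5))))] (.c k63 (.l (.s k65 k195 8 (.s
  k105 k125 5 (.s k213 k21 7 (.s k192 k234 6 (.d k104 k107 k148 0 13)))))) (.c k192 (.l (.s k21 k213
  7 (.s k63 k42 6 (.s k61 k62 0 (.s k65 k195 8 (.d k105 k193 k125 13 5)))))) .n))) (.c k192 (.l (.s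
  k21 k213 7 (.s k63 k42 6 (.s k61 k62 0 (.s k105 k193 13 (.d k125 k65 k190 5 8)))))) .n))))) .n)))
  (.c k127 (.q k195 [(.s k65 k130 8 (.s k215 k235 5 (.s k150 k20 8 (.d k105 k125 k60 5 14)))), (.s
  k65 k130 8 (.s k105 k125 5 (.s k107 k104 0 (.s k63 k151 13 (.s k21 k42 6 (.d k149 k213 k192 7
  14)))))), (.s k215 k235 5 (.s k150 k20 8 (.s k194 k62 13 (.s k192 k193 0 (.s k149 k63 14 (.d k213
  k234 k21 6 7))))))] (.c k105 (.q k149 [(.s k21 k213 7 (.d k63 k42 k192 6 14)), (.s k63 k192 14 (.s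
  k151 k107 13 (.s k150 k148 0 (.d k215 k235 k20 5 8))))] (.c k40 (.l (.s k235 k215 5 (.s k21 k213 7
  (.d k63 k42 k192 6 14)))) (.c k63 (.l (.s k213 k21 7 (.s k192 k234 6 (.s k194 k193 0 (.s k150 k62
  13 (.d k215 k235 k20 5 8)))))) (.c k192 (.l (.s k21 k213 7 (.s k63 k42 6 (.s k151 k107 13 (.s k150
  k148 0 (.d k215 k235 k20 5 8)))))) (.c k235 (.q k40 [(.s k21 k213 7 (.d k63 k42 k192 6 14)), (.s
  k20 k60 5 (.s k63 k192 14 (.s k150 k215 8 (.d k151 k148 k107 0 13))))] (.c k63 (.l (.s k20 k60 5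
  (.s k150 k215 8 (.s k213 k21 7 (.s k192 k234 6 (.d k194 k62 k193 13 0)))))) (.c k192 (.l (.s k20
  k60 5 (.s k21 k213 7 (.s k63 k42 6 (.s k150 k215 8 (.d k151 k148 k107 0 13)))))) .n))) .n))))) (.c
  k150 (.q k149 [(.s k21 k213 7 (.d k63 k42 k192 6 14)), (.s k63 k192 14 (.s k107 k151 13 (.s k105
  k104 0 (.d k65 k130 k125 8 5))))] (.c k63 (.l (.s k213 k21 7 (.s k192 k234 6 (.s k193 k194 0 (.s
  k105 k61 13 (.d k65 k125 k130 5 8)))))) (.c k130 (.q k190 [(.s k21 k213 7 (.d k63 k42 k192 6 14)),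
  (.s k63 k192 14 (.s k107 k151 13 (.s k105 k104 0 (.d k125 k60 k65 8 5))))] (.c k63 (.l (.s k125
  k60 8 (.s k105 k65 5 (.s k213 k21 7 (.s k192 k234 6 (.d k193 k61 k194 13 0)))))) (.c k192 (.l (.s
  k21 k213 7 (.s k63 k42 6 (.s k107 k151 13 (.s k105 k104 0 (.d k125 k60 k65 8 5)))))) .n))) (.c
  k190 (.l (.s k130 k65 8 (.s k21 k213 7 (.d k63 k42 k192 6 14)))) (.c k192 (.l (.s k21 k213 7 (.s
  k63 k42 6 (.s k107 k151 13 (.s k105 k104 0 (.d k65 k125 k130 5 8)))))) .n))))) .n))) (.c k128 (.l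
  (.s k127 k64 6 (.s k63 k191 7 (.s k149 k192 14 (.d k21 k42 k213 6 7))))) (.c k149 (.f k127 k64 6
  (.f k191 k63 7 (.q k86 [(.s k84 k87 0 (.s k252 k168 13 (.s k253 k254 0 (.d k169 k1 k3 13 14)))),
  (.s k126 k66 5 (.s k125 k124 0 (.s k60 k190 8 (.s k20 k40 5 (.s k150 k215 8 (.d k105 k65 k195 5
  14))))))] (.c k84 (.l (.s k126 k66 5 (.s k124 k125 0 (.s k67 k105 6 (.s k87 k107 5 (.s k3 k171 13
  (.s k1 k2 0 (.d k169 k253 k252 13 14)))))))) .n)))) (.c k191 (.l (.s k64 k127 6 (.s k192 k128 7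
  (.s k149 k63 14 (.d k213 k234 k21 6 7))))) (.c k192 (.q k1 [(.s k3 k2 0 (.s k169 k253 13 (.s k86
  k252 14 (.d k87 k84 k171 0 13)))), (.s k127 k64 6 (.s k63 k191 7 (.s k21 k42 6 (.s k61 k41 5 (.s
  k253 k169 13 (.s k125 k189 7 (.d k60 k190 k62 8 0))))))), (.s k3 k2 0 (.s k127 k64 6 (.s k63 k191
  7 (.s k21 k42 6 (.s k23 k43 5 (.s k22 k20 0 (.d k41 k61 k60 5 6)))))))] .n) (.c k213 (.q k1 [(.s
  k3 k2 0 (.s k169 k253 13 (.s k86 k252 14 (.d k87 k84 k171 0 13)))), (.s k127 k64 6 (.s k63 k191 7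
  (.s k21 k42 6 (.s k61 k41 5 (.s k60 k62 0 (.s k125 k190 8 (.d k253 k189 k169 7 13))))))), (.s k64
  k127 6 (.s k169 k253 13 (.s k192 k128 7 (.s k149 k63 14 (.s k129 k189 5 (.s k66 k3 8 (.d k65 k193
  k67 7 0))))))), (.s k3 k2 0 (.s k64 k127 6 (.s k192 k128 7 (.s k66 k129 8 (.s k86 k126 5 (.d k87
  k84 k171 0 13))))))] .n) (.c k234 (.l (.s k127 k64 6 (.s k63 k191 7 (.s k21 k42 6 (.d k149 k213
  k192 7 14))))) .n))))))))))))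

def t11_115 : T TT 256 :=
  (.f k255 k170 14 (.q k105 [(.s k65 k125 5 (.s k195 k130 8 (.s k150 k60 14 (.d k215 k235 k20 5
  8))))] (.c k20 (.q k1 [(.s k3 k2 0 (.s k169 k253 13 (.s k86 k252 14 (.d k87 k84 k171 0 13)))), (.s
  k65 k125 5 (.s k169 k253 13 (.s k41 k233 7 (.s k61 k21 5 (.d k193 k129 k149 7 13))))), (.s k3 k2 0
  (.s k65 k125 5 (.s k129 k193 7 (.s k66 k192 8 (.s k67 k64 0 (.d k195 k131 k130 7 8))))))] .n) (.c
  k60 (.q k1 [(.s k3 k2 0 (.s k169 k253 13 (.s k86 k252 14 (.d k87 k84 k171 0 13)))), (.s k65 k125 5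
  (.s k169 k253 13 (.s k41 k233 7 (.s k61 k21 5 (.d k193 k129 k149 7 13))))), (.s k3 k2 0 (.s k65
  k125 5 (.s k129 k193 7 (.s k66 k192 8 (.s k67 k64 0 (.d k195 k131 k130 7 8))))))] .n) (.c k65 (.q
  k84 [(.s k86 k87 0 (.s k252 k168 13 (.s k253 k254 0 (.d k169 k1 k3 13 14)))), (.s k86 k87 0 (.s
  k124 k67 6 (.s k64 k104 5 (.s k192 k128 7 (.s k213 k234 6 (.s k149 k21 7 (.d k106 k127 k63 6
  14)))))))] (.c k86 (.f k252 k168 13 (.q k169 [(.d k253 k254 k1 0 13), (.s k233 k41 7 (.s k195 k214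
  6 (.s k150 k60 14 (.d k215 k235 k20 5 8))))] (.c k2 (.l (.s k254 k253 0 (.s k233 k41 7 (.s k195
  k214 6 (.s k150 k60 14 (.d k215 k235 k20 5 8)))))) (.c k254 (.q k2 [(.d k1 k3 k253 0 13), (.s k233
  k41 7 (.s k195 k214 6 (.s k215 k235 5 (.d k150 k20 k60 8 14))))] .n) .n)))) (.c k87 (.l (.s k252
  k168 13 (.s k253 k254 0 (.s k169 k1 13 (.s k233 k41 7 (.s k195 k214 6 (.s k150 k60 14 (.d k215
  k235 k20 5 8)))))))) .n))) (.c k125 (.q k84 [(.s k86 k87 0 (.s k252 k168 13 (.s k253 k254 0 (.d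
  k169 k1 k3 13 14)))), (.s k86 k87 0 (.s k124 k67 6 (.s k64 k104 5 (.s k192 k128 7 (.s k213 k234 6
  (.s k149 k21 7 (.d k106 k127 k63 6 14)))))))] (.c k86 (.f k252 k168 13 (.q k169 [(.d k253 k254 k1
  0 13), (.s k233 k41 7 (.s k195 k214 6 (.s k150 k60 14 (.d k215 k235 k20 5 8))))] (.c k2 (.l (.s
  k254 k253 0 (.s k233 k41 7 (.s k195 k214 6 (.s k150 k60 14 (.d k215 k235 k20 5 8)))))) (.c k254
  (.q k2 [(.d k1 k3 k253 0 13), (.s k233 k41 7 (.s k195 k214 6 (.s k215 k235 5 (.d k150 k20 k60 8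
  14))))] .n) .n)))) (.c k87 (.l (.s k252 k168 13 (.s k253 k254 0 (.s k169 k1 13 (.s k233 k41 7 (.s
  k195 k214 6 (.s k150 k60 14 (.d k215 k235 k20 5 8)))))))) .n))) (.c k130 (.l (.s k125 k65 5 (.s
  k60 k190 8 (.s k150 k195 14 (.d k20 k40 k215 5 8))))) (.c k150 (.f k125 k65 5 (.q k127 [(.s k63
  k191 7 (.s k21 k42 6 (.s k149 k213 7 (.d k106 k64 k192 6 14)))), (.s k106 k64 6 (.s k107 k104 0
  (.s k67 k87 5 (.d k124 k126 k86 0 6)))), (.s k63 k191 7 (.s k126 k124 0 (.s k189 k252 8 (.s k61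
  k253 7 (.d k60 k190 k62 8 0)))))] (.c k130 (.l (.s k190 k60 8 (.s k63 k191 7 (.s k21 k42 6 (.s
  k106 k64 6 (.d k149 k213 k192 7 14)))))) (.c k190 (.q k130 [(.s k106 k64 6 (.s k107 k104 0 (.s k67
  k87 5 (.d k124 k126 k86 0 6)))), (.s k63 k191 7 (.s k21 k42 6 (.s k149 k213 7 (.d k106 k64 k192 6
  14)))), (.s k63 k191 7 (.s k126 k124 0 (.s k189 k252 8 (.s k61 k253 7 (.s k149 k193 13 (.d k21
  k213 k42 7 6))))))] .n) .n)))) (.c k190 (.l (.s k65 k125 5 (.s k195 k130 8 (.s k150 k60 14 (.d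
  k215 k235 k20 5 8))))) (.c k195 (.q k1 [(.s k3 k2 0 (.s k169 k253 13 (.s k86 k252 14 (.d k87 k84
  k171 0 13)))), (.s k3 k2 0 (.s k125 k65 5 (.s k60 k190 8 (.s k40 k20 5 (.s k41 k22 6 (.s k21 k61 5
  (.d k42 k43 k63 0 6))))))), (.s k65 k125 5 (.s k169 k253 13 (.s k41 k233 7 (.s k61 k21 5 (.d k193
  k129 k149 7 13)))))] .n) (.c k215 (.q k1 [(.s k3 k2 0 (.s k169 k253 13 (.s k86 k252 14 (.d k87 k84
  k171 0 13)))), (.s k65 k125 5 (.s k169 k253 13 (.s k41 k233 7 (.s k61 k21 5 (.d k193 k129 k149 7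
  13))))), (.s k3 k2 0 (.s k65 k125 5 (.s k129 k193 7 (.s k66 k192 8 (.s k67 k64 0 (.d k195 k131
  k130 7 8))))))] .n) (.c k235 (.l (.s k125 k65 5 (.s k60 k190 8 (.s k20 k40 5 (.d k150 k215 k195 8
  14))))) .n))))))))))))

def t11_118 : T TT 256 :=
  (.f k255 k170 14 (.q k105 [(.s k65 k125 5 (.s k195 k130 8 (.s k150 k60 14 (.d k215 k235 k20 5
  8))))] (.c k20 (.q k1 [(.s k3 k2 0 (.s k169 k253 13 (.s k86 k252 14 (.d k87 k84 k171 0 13)))), (.s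
  k65 k125 5 (.s k169 k253 13 (.s k41 k233 7 (.s k61 k21 5 (.d k193 k129 k149 7 13))))), (.s k3 k2 0
  (.s k65 k125 5 (.s k129 k193 7 (.s k66 k192 8 (.s k67 k64 0 (.d k195 k131 k130 7 8))))))] .n) (.c
  k60 (.q k1 [(.s k3 k2 0 (.s k87 k171 13 (.s k86 k84 0 (.d k169 k253 k252 13 14)))), (.s k65 k125 5
  (.s k169 k253 13 (.s k41 k233 7 (.s k61 k21 5 (.d k193 k129 k149 7 13))))), (.s k3 k2 0 (.s k65
  k125 5 (.s k129 k193 7 (.s k66 k192 8 (.s k67 k64 0 (.d k195 k131 k130 7 8))))))] .n) (.c k65 (.q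
  k64 [(.s k106 k127 6 (.s k192 k128 7 (.s k149 k63 14 (.d k213 k234 k21 6 7)))), (.s k106 k127 6
  (.s k104 k107 0 (.s k84 k124 5 (.s k252 k168 13 (.s k253 k254 0 (.s k169 k1 13 (.d k86 k87 k3 0
  14)))))))] (.c k106 (.f k192 k128 7 (.q k149 [(.d k213 k234 k21 6 7), (.s k193 k61 13 (.s k195
  k194 0 (.s k150 k60 14 (.d k215 k235 k20 5 8))))] (.c k42 (.l (.s k234 k213 6 (.s k193 k61 13 (.s
  k195 k194 0 (.s k150 k60 14 (.d k215 k235 k20 5 8)))))) (.c k234 (.q k42 [(.d k21 k63 k213 6 7),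
  (.s k193 k61 13 (.s k195 k194 0 (.s k215 k235 5 (.d k150 k20 k60 8 14))))] .n) .n)))) (.c k127 (.l
  (.s k192 k128 7 (.s k213 k234 6 (.s k149 k21 7 (.s k193 k61 13 (.s k195 k194 0 (.s k150 k60 14 (.d
  k215 k235 k20 5 8)))))))) .n))) (.c k125 (.q k127 [(.s k106 k64 6 (.s k63 k191 7 (.s k149 k192 14
  (.d k21 k42 k213 6 7)))), (.s k106 k64 6 (.s k107 k104 0 (.s k87 k67 5 (.s k3 k171 13 (.s k1 k2 0
  (.s k169 k253 13 (.d k86 k84 k252 0 14)))))))] (.c k64 (.l (.s k63 k191 7 (.s k21 k42 6 (.s k149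
  k213 7 (.s k61 k193 13 (.s k60 k62 0 (.s k20 k40 5 (.d k150 k215 k195 8 14)))))))) (.c k106 (.f
  k63 k191 7 (.q k149 [(.d k21 k42 k213 6 7), (.s k61 k193 13 (.s k60 k62 0 (.s k20 k40 5 (.d k150
  k215 k195 8 14))))] (.c k42 (.q k234 [(.d k213 k192 k21 6 7), (.s k61 k193 13 (.s k60 k62 0 (.s
  k20 k40 5 (.d k150 k215 k195 8 14))))] .n) (.c k234 (.l (.s k42 k21 6 (.s k61 k193 13 (.s k60 k62
  0 (.s k20 k40 5 (.d k150 k215 k195 8 14)))))) .n)))) .n))) (.c k130 (.l (.s k125 k65 5 (.s k60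
  k190 8 (.s k150 k195 14 (.d k20 k40 k215 5 8))))) (.c k150 (.f k125 k65 5 (.f k190 k60 8 (.q k21
  [(.s k63 k42 6 (.s k127 k191 7 (.s k149 k213 7 (.d k106 k64 k192 6 14)))), (.s k149 k213 7 (.s k61
  k193 13 (.s k1 k41 5 (.d k253 k189 k169 7 13)))), (.s k63 k42 6 (.s k191 k127 7 (.s k189 k188 0
  (.s k252 k126 8 (.d k253 k254 k61 0 7)))))] .n))) (.c k190 (.l (.s k65 k125 5 (.s k195 k130 8 (.s
  k150 k60 14 (.d k215 k235 k20 5 8))))) (.c k195 (.q k1 [(.s k3 k2 0 (.s k87 k171 13 (.s k86 k84 0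
  (.d k169 k253 k252 13 14)))), (.s k65 k125 5 (.s k169 k253 13 (.s k41 k233 7 (.s k61 k21 5 (.d
  k193 k129 k149 7 13))))), (.s k3 k2 0 (.s k125 k65 5 (.s k60 k190 8 (.s k40 k20 5 (.s k41 k22 6
  (.s k21 k61 5 (.d k42 k43 k63 0 6)))))))] .n) (.c k215 (.q k1 [(.s k3 k2 0 (.s k169 k253 13 (.s
  k86 k252 14 (.d k87 k84 k171 0 13)))), (.s k65 k125 5 (.s k169 k253 13 (.s k41 k233 7 (.s k61 k21
  5 (.d k193 k129 k149 7 13))))), (.s k3 k2 0 (.s k65 k125 5 (.s k129 k193 7 (.s k66 k192 8 (.s k67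
  k64 0 (.d k195 k131 k130 7 8))))))] .n) (.c k235 (.l (.s k125 k65 5 (.s k60 k190 8 (.s k20 k40 5
  (.d k150 k215 k195 8 14))))) .n))))))))))))

def t11_120 : T TT 256 :=
  (.f k255 k170 14 (.q k106 [(.s k64 k127 6 (.s k192 k128 7 (.s k149 k63 14 (.d k213 k234 k21 6
  7))))] (.c k21 (.q k1 [(.s k3 k2 0 (.s k169 k253 13 (.s k86 k252 14 (.d k87 k84 k171 0 13)))), (.s
  k64 k127 6 (.s k192 k128 7 (.s k213 k234 6 (.s k253 k169 13 (.s k193 k233 5 (.s k65 k129 7 (.d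
  k195 k130 k194 8 0))))))), (.s k3 k2 0 (.s k64 k127 6 (.s k192 k128 7 (.s k66 k129 8 (.s k86 k126
  5 (.d k87 k84 k171 0 13))))))] (.c k171 (.l (.s k3 k2 0 (.s k127 k64 6 (.s k63 k191 7 (.s k43 k23
  5 (.d k169 k232 k253 8 13)))))) .n)) (.c k63 (.q k1 [(.s k3 k2 0 (.s k169 k253 13 (.s k86 k252 14
  (.d k87 k84 k171 0 13)))), (.s k64 k127 6 (.s k192 k128 7 (.s k213 k234 6 (.s k253 k169 13 (.s
  k193 k233 5 (.s k65 k129 7 (.d k195 k130 k194 8 0))))))), (.s k64 k127 6 (.s k169 k253 13 (.s k192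
  k128 7 (.s k232 k43 8 (.s k252 k212 5 (.s k84 k168 13 (.d k86 k3 k87 14 0))))))), (.s k3 k2 0 (.s
  k64 k127 6 (.s k192 k128 7 (.s k66 k129 8 (.s k86 k126 5 (.d k87 k84 k171 0 13))))))] .n) (.c k64
  (.q k204 [(.s k68 k136 9 (.s k102 k119 4 (.s k153 k51 14 (.d k221 k238 k17 4 9)))), (.s k68 k136 9
  (.s k102 k119 4 (.s k110 k98 1 (.s k63 k157 12 (.s k21 k42 6 (.d k149 k213 k192 7 14)))))), (.s
  k221 k238 4 (.s k153 k17 9 (.s k200 k59 12 (.s k192 k196 1 (.s k149 k63 14 (.d k213 k234 k21 6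
  7))))))] (.c k102 (.q k72 [(.s k89 k123 4 (.s k81 k93 1 (.s k243 k162 12 (.s k166 k12 14 (.d k247
  k251 k4 1 12))))), (.s k136 k68 9 (.s k200 k8 7 (.s k153 k59 12 (.d k221 k238 k17 4 9)))), (.s
  k136 k68 9 (.s k8 k200 7 (.s k12 k4 1 (.s k132 k192 9 (.d k140 k128 k76 1 7)))))] (.c k34 (.l (.s
  k238 k221 4 (.s k89 k123 4 (.s k81 k93 1 (.s k243 k162 12 (.s k166 k12 14 (.d k247 k251 k4 1
  12))))))) (.c k238 (.q k34 [(.s k17 k51 4 (.s k136 k68 9 (.s k153 k221 9 (.d k200 k8 k59 7 12)))),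
  (.s k89 k123 4 (.s k81 k93 1 (.s k243 k162 12 (.s k166 k12 14 (.d k247 k251 k4 1 12)))))] .n)
  .n))) (.c k153 (.q k93 [(.s k12 k174 12 (.s k89 k81 1 (.s k166 k243 14 (.d k4 k8 k247 1 12)))),
  (.s k221 k238 4 (.s k157 k29 7 (.s k63 k110 12 (.s k21 k42 6 (.d k149 k213 k192 7 14)))))] (.c
  k136 (.q k187 [(.s k12 k174 12 (.s k89 k81 1 (.s k166 k243 14 (.d k4 k8 k247 1 12)))), (.s k89 k81
  1 (.s k119 k51 9 (.s k123 k72 4 (.s k115 k127 1 (.d k102 k68 k76 4 6))))), (.s k12 k174 12 (.s k76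
  k140 7 (.s k110 k127 4 (.s k119 k51 9 (.d k102 k98 k68 1 4)))))] (.c k98 (.l (.s k12 k174 12 (.s
  k4 k8 1 (.s k166 k247 12 (.d k89 k81 k243 1 14))))) .n)) (.c k174 (.l (.s k221 k238 4 (.s k157 k29
  7 (.s k110 k63 12 (.s k102 k98 1 (.d k68 k119 k136 4 9)))))) (.c k187 (.l (.s k136 k68 9 (.s k12
  k174 12 (.s k4 k8 1 (.s k89 k81 1 (.d k166 k247 k243 12 14)))))) .n)))) .n))) (.c k127 (.q k51
  [(.s k17 k34 4 (.s k119 k187 9 (.s k102 k68 4 (.d k153 k221 k204 9 14)))), (.s k17 k34 4 (.s k153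
  k221 9 (.s k59 k200 12 (.s k63 k55 1 (.s k21 k42 6 (.d k149 k213 k192 7 14)))))), (.s k119 k187 9
  (.s k102 k68 4 (.s k98 k110 1 (.s k192 k145 12 (.s k149 k63 14 (.d k213 k234 k21 6 7))))))] (.c
  k102 (.q k207 [(.s k69 k138 10 (.s k223 k239 3 (.s k154 k16 10 (.d k101 k117 k48 3 14)))), (.s
  k103 k155 13 (.s k119 k187 9 (.s k87 k71 3 (.s k171 k3 13 (.d k239 k223 k35 3 9))))), (.s k69 k138
  10 (.s k101 k117 3 (.s k111 k96 2 (.s k63 k159 11 (.s k21 k42 6 (.d k149 k213 k192 7 14))))))] (.c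
  k34 (.q k238 [(.s k69 k138 10 (.s k223 k239 3 (.s k154 k16 10 (.d k101 k117 k48 3 14)))), (.s k103
  k155 13 (.s k119 k187 9 (.s k87 k71 3 (.s k171 k3 13 (.d k239 k223 k35 3 9))))), (.s k69 k138 10
  (.s k101 k117 3 (.s k111 k96 2 (.s k63 k159 11 (.s k21 k42 6 (.d k149 k213 k192 7 14))))))] .n)
  (.c k238 (.l (.s k34 k17 4 (.s k69 k138 10 (.s k101 k117 3 (.s k154 k48 14 (.d k223 k239 k16 3
  10)))))) .n))) (.c k153 (.q k89 [(.s k93 k81 1 (.s k12 k174 12 (.s k166 k243 14 (.d k4 k8 k247 1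
  12)))), (.s k123 k72 4 (.s k187 k119 9 (.s k59 k251 7 (.s k63 k55 1 (.s k21 k42 6 (.d k149 k213
  k192 7 14))))))] (.c k136 (.l (.s k187 k119 9 (.s k81 k93 1 (.s k123 k72 4 (.s k243 k162 12 (.d
  k251 k247 k59 1 7)))))) (.c k187 (.q k136 [(.s k81 k93 1 (.s k243 k162 12 (.s k166 k12 14 (.d k247
  k251 k4 1 12)))), (.s k68 k204 9 (.s k72 k123 4 (.s k76 k64 1 (.d k102 k119 k115 4 6)))), (.s k93
  k81 1 (.s k12 k174 12 (.s k4 k8 1 (.d k166 k247 k243 12 14))))] .n) (.c k247 (.l (.s k81 k93 1 (.s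
  k243 k162 12 (.s k115 k179 7 (.s k98 k64 4 (.d k102 k110 k76 1 6)))))) .n)))) .n))) (.c k128 (.l
  (.s k127 k64 6 (.s k63 k191 7 (.s k149 k192 14 (.d k21 k42 k213 6 7))))) (.c k149 (.f k127 k64 6
  (.q k90 [(.s k80 k95 2 (.s k240 k160 11 (.s k165 k15 14 (.d k245 k250 k5 2 11)))), (.s k122 k74 3
  (.s k117 k112 2 (.s k48 k186 10 (.s k16 k32 3 (.s k154 k223 10 (.d k101 k69 k207 3 14))))))] (.c
  k80 (.l (.s k122 k74 3 (.s k112 k117 2 (.s k79 k101 6 (.s k95 k111 3 (.s k15 k175 11 (.s k5 k10 2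
  (.d k165 k245 k240 11 14)))))))) (.c k128 (.l (.s k191 k63 7 (.s k80 k95 2 (.s k240 k160 11 (.s
  k165 k15 14 (.d k245 k250 k5 2 11)))))) (.c k191 (.q k128 [(.s k80 k95 2 (.s k240 k160 11 (.s k245
  k250 2 (.d k165 k5 k15 11 14)))), (.s k122 k74 3 (.s k117 k112 2 (.s k48 k186 10 (.s k16 k32 3 (.s
  k154 k223 10 (.d k101 k69 k207 3 14))))))] (.c k80 (.l (.s k122 k74 3 (.s k112 k117 2 (.s k79 k101
  6 (.s k95 k111 3 (.s k15 k175 11 (.s k5 k10 2 (.d k165 k245 k240 11 14)))))))) .n)) .n))))) (.c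
  k191 (.l (.s k64 k127 6 (.s k192 k128 7 (.s k149 k63 14 (.d k213 k234 k21 6 7))))) (.c k192 (.q k1
  [(.s k3 k2 0 (.s k169 k253 13 (.s k86 k252 14 (.d k87 k84 k171 0 13)))), (.s k127 k64 6 (.s k63
  k191 7 (.s k21 k42 6 (.s k61 k41 5 (.s k253 k169 13 (.s k125 k189 7 (.d k60 k190 k62 8 0))))))),
  (.s k3 k2 0 (.s k127 k64 6 (.s k63 k191 7 (.s k21 k42 6 (.s k23 k43 5 (.s k22 k20 0 (.d k41 k61
  k60 5 6)))))))] .n) (.c k213 (.q k1 [(.s k3 k2 0 (.s k169 k253 13 (.s k86 k252 14 (.d k87 k84 k171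
  0 13)))), (.s k127 k64 6 (.s k63 k191 7 (.s k21 k42 6 (.s k61 k41 5 (.s k60 k62 0 (.s k125 k190 8
  (.d k253 k189 k169 7 13))))))), (.s k64 k127 6 (.s k169 k253 13 (.s k192 k128 7 (.s k149 k63 14
  (.s k129 k189 5 (.s k66 k3 8 (.d k65 k193 k67 7 0))))))), (.s k3 k2 0 (.s k64 k127 6 (.s k192 k128
  7 (.s k66 k129 8 (.s k86 k126 5 (.d k87 k84 k171 0 13))))))] .n) (.c k234 (.l (.s k127 k64 6 (.s
  k63 k191 7 (.s k21 k42 6 (.d k149 k213 k192 7 14))))) .n))))))))))))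

def t11_122 : T TT 256 :=
  (.f k255 k170 14 (.q k105 [(.s k65 k125 5 (.s k195 k130 8 (.s k150 k60 14 (.d k215 k235 k20 5
  8))))] (.c k20 (.q k1 [(.s k3 k2 0 (.s k169 k253 13 (.s k86 k252 14 (.d k87 k84 k171 0 13)))), (.s
  k65 k125 5 (.s k169 k253 13 (.s k41 k233 7 (.s k61 k21 5 (.d k193 k129 k149 7 13))))), (.s k3 k2 0
  (.s k65 k125 5 (.s k129 k193 7 (.s k66 k192 8 (.s k67 k64 0 (.d k195 k131 k130 7 8))))))] .n) (.c
  k60 (.q k1 [(.s k3 k2 0 (.s k169 k253 13 (.s k86 k252 14 (.d k87 k84 k171 0 13)))), (.s k65 k125 5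
  (.s k169 k253 13 (.s k41 k233 7 (.s k61 k21 5 (.d k193 k129 k149 7 13))))), (.s k3 k2 0 (.s k65
  k125 5 (.s k129 k193 7 (.s k66 k192 8 (.s k67 k64 0 (.d k195 k131 k130 7 8))))))] .n) (.c k65 (.q
  k84 [(.s k86 k87 0 (.s k252 k168 13 (.s k253 k254 0 (.d k169 k1 k3 13 14)))), (.s k86 k87 0 (.s
  k124 k67 6 (.s k64 k104 5 (.s k192 k128 7 (.s k213 k234 6 (.s k149 k21 7 (.d k106 k127 k63 6
  14)))))))] (.c k86 (.f k252 k168 13 (.q k169 [(.d k253 k254 k1 0 13), (.s k233 k41 7 (.s k195 k214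
  6 (.s k150 k60 14 (.d k215 k235 k20 5 8))))] (.c k2 (.l (.s k254 k253 0 (.s k233 k41 7 (.s k195
  k214 6 (.s k150 k60 14 (.d k215 k235 k20 5 8)))))) (.c k254 (.q k2 [(.d k1 k3 k253 0 13), (.s k233
  k41 7 (.s k195 k214 6 (.s k215 k235 5 (.d k150 k20 k60 8 14))))] .n) .n)))) (.c k87 (.l (.s k252
  k168 13 (.s k253 k254 0 (.s k169 k1 13 (.s k233 k41 7 (.s k195 k214 6 (.s k150 k60 14 (.d k215
  k235 k20 5 8)))))))) .n))) (.c k125 (.q k84 [(.s k86 k87 0 (.s k252 k168 13 (.s k253 k254 0 (.d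
  k169 k1 k3 13 14)))), (.s k86 k87 0 (.s k124 k67 6 (.s k64 k104 5 (.s k192 k128 7 (.s k213 k234 6
  (.s k149 k21 7 (.d k106 k127 k63 6 14)))))))] (.c k86 (.f k252 k168 13 (.q k169 [(.d k253 k254 k1
  0 13), (.s k233 k41 7 (.s k195 k214 6 (.s k150 k60 14 (.d k215 k235 k20 5 8))))] (.c k2 (.l (.s
  k254 k253 0 (.s k233 k41 7 (.s k195 k214 6 (.s k150 k60 14 (.d k215 k235 k20 5 8)))))) (.c k254
  (.q k2 [(.d k1 k3 k253 0 13), (.s k233 k41 7 (.s k195 k214 6 (.s k215 k235 5 (.d k150 k20 k60 8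
  14))))] .n) .n)))) (.c k87 (.l (.s k252 k168 13 (.s k253 k254 0 (.s k169 k1 13 (.s k233 k41 7 (.s
  k195 k214 6 (.s k150 k60 14 (.d k215 k235 k20 5 8)))))))) .n))) (.c k130 (.l (.s k125 k65 5 (.s
  k60 k190 8 (.s k150 k195 14 (.d k20 k40 k215 5 8))))) (.c k150 (.f k125 k65 5 (.f k190 k60 8 (.q
  k21 [(.s k63 k42 6 (.s k127 k191 7 (.s k149 k213 7 (.d k106 k64 k192 6 14)))), (.s k149 k213 7 (.s
  k61 k193 13 (.s k1 k41 5 (.d k253 k189 k169 7 13)))), (.s k63 k42 6 (.s k191 k127 7 (.s k189 k188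
  0 (.s k252 k126 8 (.d k253 k254 k61 0 7)))))] .n))) (.c k190 (.l (.s k65 k125 5 (.s k195 k130 8
  (.s k150 k60 14 (.d k215 k235 k20 5 8))))) (.c k195 (.q k1 [(.s k3 k2 0 (.s k169 k253 13 (.s k86
  k252 14 (.d k87 k84 k171 0 13)))), (.s k3 k2 0 (.s k125 k65 5 (.s k60 k190 8 (.s k40 k20 5 (.s k41
  k22 6 (.s k21 k61 5 (.d k42 k43 k63 0 6))))))), (.s k65 k125 5 (.s k169 k253 13 (.s k41 k233 7 (.s
  k61 k21 5 (.d k193 k129 k149 7 13)))))] .n) (.c k215 (.q k1 [(.s k3 k2 0 (.s k169 k253 13 (.s k86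
  k252 14 (.d k87 k84 k171 0 13)))), (.s k65 k125 5 (.s k169 k253 13 (.s k41 k233 7 (.s k61 k21 5
  (.d k193 k129 k149 7 13))))), (.s k3 k2 0 (.s k65 k125 5 (.s k129 k193 7 (.s k66 k192 8 (.s k67
  k64 0 (.d k195 k131 k130 7 8))))))] .n) (.c k235 (.l (.s k125 k65 5 (.s k60 k190 8 (.s k20 k40 5
  (.d k150 k215 k195 8 14))))) .n))))))))))))

def t11_123 : T TT 256 :=
  (.f k255 k170 14 (.q k105 [(.s k65 k125 5 (.s k195 k130 8 (.s k150 k60 14 (.d k215 k235 k20 5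
  8))))] (.c k20 (.q k1 [(.s k3 k2 0 (.s k169 k253 13 (.s k86 k252 14 (.d k87 k84 k171 0 13)))), (.s
  k65 k125 5 (.s k169 k253 13 (.s k41 k233 7 (.s k61 k21 5 (.d k193 k129 k149 7 13))))), (.s k3 k2 0
  (.s k65 k125 5 (.s k129 k193 7 (.s k66 k192 8 (.s k67 k64 0 (.d k195 k131 k130 7 8))))))] .n) (.c
  k60 (.q k1 [(.s k3 k2 0 (.s k169 k253 13 (.s k86 k252 14 (.d k87 k84 k171 0 13)))), (.s k65 k125 5
  (.s k169 k253 13 (.s k41 k233 7 (.s k61 k21 5 (.d k193 k129 k149 7 13))))), (.s k3 k2 0 (.s k65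
  k125 5 (.s k129 k193 7 (.s k66 k192 8 (.s k67 k64 0 (.d k195 k131 k130 7 8))))))] .n) (.c k65 (.q
  k84 [(.s k86 k87 0 (.s k252 k168 13 (.s k253 k254 0 (.d k169 k1 k3 13 14)))), (.s k86 k87 0 (.s
  k124 k67 6 (.s k64 k104 5 (.s k192 k128 7 (.s k213 k234 6 (.s k149 k21 7 (.d k106 k127 k63 6
  14)))))))] (.c k86 (.f k252 k168 13 (.q k169 [(.d k253 k254 k1 0 13), (.s k233 k41 7 (.s k195 k214
  6 (.s k150 k60 14 (.d k215 k235 k20 5 8))))] (.c k2 (.l (.s k254 k253 0 (.s k233 k41 7 (.s k195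
  k214 6 (.s k150 k60 14 (.d k215 k235 k20 5 8)))))) (.c k254 (.q k2 [(.d k1 k3 k253 0 13), (.s k233
  k41 7 (.s k195 k214 6 (.s k215 k235 5 (.d k150 k20 k60 8 14))))] .n) .n)))) (.c k87 (.l (.s k252
  k168 13 (.s k253 k254 0 (.s k169 k1 13 (.s k233 k41 7 (.s k195 k214 6 (.s k150 k60 14 (.d k215
  k235 k20 5 8)))))))) .n))) (.c k125 (.q k84 [(.s k86 k87 0 (.s k252 k168 13 (.s k253 k254 0 (.d
  k169 k1 k3 13 14)))), (.s k86 k87 0 (.s k124 k67 6 (.s k64 k104 5 (.s k192 k128 7 (.s k213 k234 6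
  (.s k149 k21 7 (.d k106 k127 k63 6 14)))))))] (.c k86 (.f k252 k168 13 (.q k169 [(.d k253 k254 k1
  0 13), (.s k233 k41 7 (.s k195 k214 6 (.s k150 k60 14 (.d k215 k235 k20 5 8))))] (.c k2 (.l (.s
  k254 k253 0 (.s k233 k41 7 (.s k195 k214 6 (.s k150 k60 14 (.d k215 k235 k20 5 8)))))) (.c k254
  (.q k2 [(.d k1 k3 k253 0 13), (.s k233 k41 7 (.s k195 k214 6 (.s k215 k235 5 (.d k150 k20 k60 8
  14))))] .n) .n)))) (.c k87 (.l (.s k252 k168 13 (.s k253 k254 0 (.s k169 k1 13 (.s k233 k41 7 (.s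
  k195 k214 6 (.s k150 k60 14 (.d k215 k235 k20 5 8)))))))) .n))) (.c k130 (.l (.s k125 k65 5 (.s
  k60 k190 8 (.s k150 k195 14 (.d k20 k40 k215 5 8))))) (.c k150 (.f k125 k65 5 (.q k149 [(.s k21
  k213 7 (.s k63 k42 6 (.s k106 k192 14 (.d k127 k64 k191 6 7)))), (.s k61 k193 13 (.s k253 k189 7
  (.s k252 k254 0 (.s k84 k168 13 (.s k86 k87 0 (.d k169 k1 k3 13 14))))))] (.c k130 (.l (.s k190
  k60 8 (.s k21 k213 7 (.s k61 k193 13 (.s k1 k41 5 (.d k253 k189 k169 7 13)))))) (.c k190 (.q k130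
  [(.s k21 k213 7 (.s k63 k42 6 (.s k106 k192 14 (.d k127 k64 k191 6 7)))), (.s k61 k193 13 (.s k253
  k189 7 (.s k252 k254 0 (.s k84 k168 13 (.s k86 k87 0 (.d k169 k1 k3 13 14))))))] (.c k191 (.l (.s
  k21 k213 7 (.s k61 k193 13 (.s k1 k41 5 (.d k253 k189 k169 7 13))))) .n)) .n)))) (.c k190 (.l (.s
  k65 k125 5 (.s k195 k130 8 (.s k150 k60 14 (.d k215 k235 k20 5 8))))) (.c k195 (.q k1 [(.s k3 k2 0
  (.s k169 k253 13 (.s k86 k252 14 (.d k87 k84 k171 0 13)))), (.s k3 k2 0 (.s k125 k65 5 (.s k60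
  k190 8 (.s k40 k20 5 (.s k41 k22 6 (.s k21 k61 5 (.d k42 k43 k63 0 6))))))), (.s k65 k125 5 (.s
  k169 k253 13 (.s k41 k233 7 (.s k61 k21 5 (.d k193 k129 k149 7 13)))))] .n) (.c k215 (.q k1 [(.s
  k3 k2 0 (.s k169 k253 13 (.s k86 k252 14 (.d k87 k84 k171 0 13)))), (.s k65 k125 5 (.s k169 k253
  13 (.s k41 k233 7 (.s k61 k21 5 (.d k193 k129 k149 7 13))))), (.s k3 k2 0 (.s k65 k125 5 (.s k129
  k193 7 (.s k66 k192 8 (.s k67 k64 0 (.d k195 k131 k130 7 8))))))] .n) (.c k235 (.l (.s k125 k65 5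
  (.s k60 k190 8 (.s k20 k40 5 (.d k150 k215 k195 8 14))))) .n))))))))))))

def t11_124 : T TT 256 :=
  (.f k255 k170 14 (.q k105 [(.s k125 k65 5 (.s k60 k190 8 (.s k20 k40 5 (.d k150 k215 k195 8
  14))))] (.c k20 (.q k1 [(.s k3 k2 0 (.s k169 k253 13 (.s k86 k252 14 (.d k87 k84 k171 0 13)))),
  (.s k65 k125 5 (.s k169 k253 13 (.s k41 k233 7 (.s k61 k21 5 (.d k193 k129 k149 7 13))))), (.s k3
  k2 0 (.s k65 k125 5 (.s k129 k193 7 (.s k66 k192 8 (.s k67 k64 0 (.d k195 k131 k130 7 8))))))] .n)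
  (.c k40 (.l (.s k65 k125 5 (.s k195 k130 8 (.s k150 k60 14 (.d k215 k235 k20 5 8))))) (.c k60 (.q
  k252 [(.s k84 k168 13 (.s k86 k87 0 (.s k253 k254 0 (.d k169 k1 k3 13 14)))), (.s k65 k125 5 (.s
  k195 k130 8 (.s k233 k214 6 (.s k253 k254 0 (.d k169 k41 k1 7 13))))), (.s k65 k125 5 (.s k195
  k130 8 (.s k214 k233 6 (.s k215 k235 5 (.s k150 k20 8 (.s k86 k22 7 (.d k84 k87 k168 0 13)))))))]
  (.c k86 (.l (.s k65 k125 5 (.s k195 k130 8 (.s k233 k214 6 (.s k169 k41 7 (.d k253 k254 k1 0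
  13)))))) .n)) (.c k65 (.q k213 [(.s k149 k21 7 (.s k192 k234 6 (.s k64 k128 7 (.d k106 k127 k63 6
  14)))), (.s k149 k21 7 (.s k193 k61 13 (.s k253 k233 5 (.s k252 k254 0 (.s k84 k168 13 (.s k86 k87
  0 (.d k169 k1 k3 13 14)))))))] (.c k21 (.l (.s k192 k234 6 (.s k64 k128 7 (.s k106 k127 6 (.s k104
  k107 0 (.s k60 k148 13 (.s k20 k40 5 (.d k150 k215 k195 8 14)))))))) (.c k149 (.f k192 k234 6 (.q
  k106 [(.d k64 k128 k127 7 6), (.s k104 k107 0 (.s k60 k148 13 (.s k20 k40 5 (.d k150 k215 k195 8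
  14))))] (.c k128 (.q k191 [(.d k127 k64 k63 6 7), (.s k104 k107 0 (.s k60 k148 13 (.s k20 k40 5
  (.d k150 k215 k195 8 14))))] .n) (.c k191 (.l (.s k128 k64 7 (.s k104 k107 0 (.s k60 k148 13 (.s
  k20 k40 5 (.d k150 k215 k195 8 14)))))) .n)))) .n))) (.c k125 (.q k63 [(.s k21 k42 6 (.s k127 k191
  7 (.s k149 k213 7 (.d k106 k64 k192 6 14)))), (.s k127 k191 7 (.s k106 k64 6 (.s k149 k192 14 (.s
  k61 k193 13 (.s k60 k62 0 (.s k20 k40 5 (.d k150 k195 k215 14 8))))))), (.s k21 k42 6 (.s k149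
  k213 7 (.s k61 k193 13 (.s k60 k62 0 (.s k20 k40 5 (.d k150 k215 k195 8 14))))))] (.c k106 (.f
  k127 k191 7 (.q k149 [(.d k21 k42 k213 6 7), (.s k61 k193 13 (.s k60 k62 0 (.s k20 k40 5 (.d k150
  k215 k195 8 14))))] (.c k42 (.q k234 [(.d k213 k192 k21 6 7), (.s k61 k193 13 (.s k60 k62 0 (.s
  k20 k40 5 (.d k150 k215 k195 8 14))))] .n) (.c k234 (.l (.s k42 k21 6 (.s k61 k193 13 (.s k60 k62
  0 (.s k20 k40 5 (.d k150 k215 k195 8 14)))))) .n)))) (.c k126 (.l (.s k127 k191 7 (.s k21 k42 6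
  (.s k106 k64 6 (.d k149 k213 k192 7 14))))) (.c k127 (.q k126 [(.s k252 k189 8 (.s k84 k168 13 (.s
  k253 k254 0 (.s k169 k1 13 (.d k86 k87 k3 0 14))))), (.s k21 k42 6 (.s k149 k213 7 (.s k61 k193 13
  (.s k60 k62 0 (.s k20 k40 5 (.d k150 k215 k195 8 14)))))), (.s k21 k42 6 (.s k149 k213 7 (.s k106
  k192 14 (.s k86 k66 5 (.s k84 k87 0 (.d k252 k189 k168 8 13))))))] .n) (.c k149 (.q k48 [(.s k16
  k32 3 (.s k117 k186 10 (.s k101 k69 3 (.d k154 k223 k207 10 14)))), (.s k21 k42 6 (.s k53 k58 2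
  (.s k117 k186 10 (.s k245 k181 7 (.d k5 k165 k37 11 3))))), (.s k16 k32 3 (.s k21 k42 6 (.s k26
  k31 2 (.s k37 k15 6 (.d k53 k58 k5 2 3)))))] (.c k126 (.f k127 k191 7 (.q k128 [(.d k64 k106 k192
  6 7), (.s k16 k32 3 (.s k117 k186 10 (.s k101 k69 3 (.d k154 k223 k207 10 14))))] .n)) (.c k127
  (.q k126 [(.s k16 k32 3 (.s k117 k186 10 (.s k101 k69 3 (.d k154 k223 k207 10 14)))), (.s k21 k42
  6 (.s k53 k58 2 (.s k117 k186 10 (.s k245 k181 7 (.d k5 k165 k37 11 3))))), (.s k16 k32 3 (.s k21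
  k42 6 (.s k26 k31 2 (.s k37 k15 6 (.d k53 k58 k5 2 3)))))] (.c k128 (.q k191 [(.s k16 k32 3 (.s
  k117 k186 10 (.s k101 k69 3 (.d k154 k223 k207 10 14)))), (.s k186 k117 10 (.s k181 k176 2 (.s
  k122 k240 10 (.d k58 k53 k250 2 7)))), (.s k16 k32 3 (.s k21 k42 6 (.s k26 k31 2 (.s k37 k15 6 (.d
  k53 k58 k5 2 3)))))] .n) (.c k191 (.q k128 [(.s k16 k32 3 (.s k154 k223 10 (.s k101 k207 14 (.d
  k117 k69 k186 3 10)))), (.s k252 k189 8 (.s k84 k168 13 (.s k86 k87 0 (.s k169 k3 14 (.d k253 k254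
  k1 0 13)))))] .n) .n))) (.c k128 (.f k191 k127 7 (.q k126 [(.s k16 k32 3 (.s k117 k186 10 (.s k101
  k69 3 (.d k154 k223 k207 10 14)))), (.s k186 k117 10 (.s k181 k176 2 (.s k122 k240 10 (.d k58 k53
  k250 2 7)))), (.s k16 k32 3 (.s k21 k42 6 (.s k26 k31 2 (.s k37 k15 6 (.d k53 k58 k5 2 3)))))]
  .n)) (.c k191 (.q k128 [(.s k16 k32 3 (.s k154 k223 10 (.s k101 k207 14 (.d k117 k69 k186 3
  10)))), (.s k53 k58 2 (.s k64 k192 7 (.s k117 k186 10 (.s k127 k106 6 (.s k122 k112 2 (.d k181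
  k245 k240 7 10)))))), (.s k16 k32 3 (.s k21 k42 6 (.s k26 k31 2 (.s k37 k15 6 (.d k53 k58 k5 2
  3)))))] (.c k126 (.q k127 [(.d k64 k106 k192 6 7), (.s k16 k32 3 (.s k117 k186 10 (.s k101 k69 3
  (.d k154 k223 k207 10 14))))] .n) (.c k127 (.q k126 [(.s k16 k32 3 (.s k154 k223 10 (.s k101 k207
  14 (.d k117 k69 k186 3 10)))), (.s k252 k189 8 (.s k84 k168 13 (.s k86 k87 0 (.s k169 k3 14 (.d
  k253 k254 k1 0 13)))))] .n) .n))) .n))))) .n))))) (.c k130 (.l (.s k125 k65 5 (.s k60 k190 8 (.s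
  k150 k195 14 (.d k20 k40 k215 5 8))))) (.c k150 (.f k125 k65 5 (.q k61 [(.s k149 k193 13 (.s k21
  k213 7 (.s k253 k189 7 (.d k1 k41 k169 5 13)))), (.s k253 k189 7 (.s k169 k1 13 (.s k252 k254 0
  (.s k84 k168 13 (.d k86 k87 k3 0 14))))), (.s k149 k193 13 (.s k213 k21 7 (.s k192 k234 6 (.s k64
  k128 7 (.d k106 k127 k63 6 14)))))] (.c k1 (.l (.s k189 k253 7 (.s k149 k193 13 (.s k129 k169 5
  (.s k213 k21 7 (.s k192 k234 6 (.s k64 k128 7 (.d k106 k127 k63 6 14)))))))) (.c k129 (.l (.s k193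
  k149 13 (.s k253 k189 7 (.s k169 k1 13 (.d k233 k213 k41 5 7))))) (.c k130 (.l (.s k190 k60 8 (.s
  k149 k193 13 (.s k21 k213 7 (.s k1 k41 5 (.d k253 k189 k169 7 13)))))) (.c k190 (.q k130 [(.s k149
  k193 13 (.s k21 k213 7 (.s k1 k41 5 (.d k253 k189 k169 7 13)))), (.s k253 k189 7 (.s k252 k254 0
  (.s k84 k168 13 (.s k86 k87 0 (.d k169 k1 k3 13 14))))), (.s k149 k193 13 (.s k213 k21 7 (.s k192
  k234 6 (.s k64 k128 7 (.d k106 k127 k63 6 14)))))] (.c k1 (.l (.s k189 k253 7 (.s k149 k193 13 (.s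
  k129 k169 5 (.s k213 k21 7 (.s k192 k234 6 (.d k128 k131 k64 0 7))))))) .n)) (.c k193 (.l (.s k253
  k189 7 (.s k1 k169 13 (.s k3 k2 0 (.s k41 k21 5 (.d k60 k22 k190 6 8)))))) .n))))))) (.c k190 (.l
  (.s k65 k125 5 (.s k195 k130 8 (.s k150 k60 14 (.d k215 k235 k20 5 8))))) (.c k195 (.q k1 [(.s k3
  k2 0 (.s k87 k171 13 (.s k169 k253 13 (.d k86 k84 k252 0 14)))), (.s k65 k125 5 (.s k169 k253 13
  (.s k41 k233 7 (.s k61 k21 5 (.d k193 k129 k149 7 13))))), (.s k3 k2 0 (.s k125 k65 5 (.s k60 k190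
  8 (.s k40 k20 5 (.s k41 k22 6 (.s k21 k61 5 (.d k42 k43 k63 0 6)))))))] .n) (.c k215 (.q k1 [(.s
  k3 k2 0 (.s k169 k253 13 (.s k86 k252 14 (.d k87 k84 k171 0 13)))), (.s k65 k125 5 (.s k169 k253
  13 (.s k41 k233 7 (.s k61 k21 5 (.d k193 k129 k149 7 13))))), (.s k3 k2 0 (.s k65 k125 5 (.s k129
  k193 7 (.s k66 k192 8 (.s k67 k64 0 (.d k195 k131 k130 7 8))))))] .n) .n))))))))))))

def t11_126 : T TT 256 :=
  (.f k255 k170 14 (.q k105 [(.s k65 k125 5 (.s k195 k130 8 (.s k150 k60 14 (.d k215 k235 k20 5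
  8)))), (.s k125 k65 5 (.s k60 k190 8 (.s k20 k40 5 (.d k150 k215 k195 8 14))))] (.c k20 (.q k1
  [(.s k3 k2 0 (.s k169 k253 13 (.s k86 k252 14 (.d k87 k84 k171 0 13)))), (.s k65 k125 5 (.s k169
  k253 13 (.s k41 k233 7 (.s k61 k21 5 (.d k193 k129 k149 7 13))))), (.s k3 k2 0 (.s k65 k125 5 (.s
  k129 k193 7 (.s k66 k192 8 (.s k67 k64 0 (.d k195 k131 k130 7 8))))))] .n) (.c k60 (.q k1 [(.s k3
  k2 0 (.s k87 k171 13 (.s k86 k84 0 (.d k169 k253 k252 13 14)))), (.s k65 k125 5 (.s k169 k253 13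
  (.s k41 k233 7 (.s k61 k21 5 (.d k193 k129 k149 7 13))))), (.s k3 k2 0 (.s k65 k125 5 (.s k129
  k193 7 (.s k66 k192 8 (.s k67 k64 0 (.d k195 k131 k130 7 8))))))] .n) (.c k65 (.q k213 [(.s k149
  k21 7 (.s k192 k234 6 (.s k64 k128 7 (.d k106 k127 k63 6 14)))), (.s k149 k21 7 (.s k193 k61 13
  (.s k253 k233 5 (.s k252 k254 0 (.s k84 k168 13 (.s k86 k87 0 (.d k169 k1 k3 13 14)))))))] (.c k21
  (.l (.s k192 k234 6 (.s k64 k128 7 (.s k106 k127 6 (.s k104 k107 0 (.s k60 k148 13 (.s k20 k40 5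
  (.d k150 k215 k195 8 14)))))))) (.c k149 (.f k192 k234 6 (.q k106 [(.d k64 k128 k127 7 6), (.s
  k104 k107 0 (.s k60 k148 13 (.s k20 k40 5 (.d k150 k215 k195 8 14))))] (.c k128 (.q k191 [(.d k127
  k64 k63 6 7), (.s k104 k107 0 (.s k60 k148 13 (.s k20 k40 5 (.d k150 k215 k195 8 14))))] .n) (.c
  k191 (.l (.s k128 k64 7 (.s k104 k107 0 (.s k60 k148 13 (.s k20 k40 5 (.d k150 k215 k195 8
  14)))))) .n)))) .n))) (.c k125 (.q k106 [(.s k127 k64 6 (.s k63 k191 7 (.s k21 k42 6 (.d k149 k213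
  k192 7 14)))), (.s k107 k104 0 (.s k127 k64 6 (.s k87 k67 5 (.s k3 k171 13 (.s k1 k2 0 (.s k169
  k253 13 (.d k86 k84 k252 0 14)))))))] (.c k64 (.q k127 [(.s k63 k191 7 (.s k21 k42 6 (.d k149 k213
  k192 7 14))), (.s k107 k104 0 (.s k87 k67 5 (.s k3 k171 13 (.s k1 k2 0 (.s k169 k253 13 (.d k86
  k84 k252 0 14))))))] .n) (.c k124 (.l (.s k127 k64 6 (.s k63 k191 7 (.s k21 k42 6 (.d k149 k213
  k192 7 14))))) (.c k127 (.q k124 [(.s k104 k107 0 (.s k84 k64 5 (.d k86 k87 k67 0 6))), (.s k86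
  k67 6 (.s k87 k84 0 (.s k3 k171 13 (.s k1 k2 0 (.d k169 k253 k252 13 14)))))] (.c k67 (.q k3 [(.s
  k87 k171 13 (.s k84 k86 0 (.d k104 k107 k64 0 5))), (.s k107 k104 0 (.s k171 k87 13 (.s k43 k235 7
  (.s k63 k23 5 (.s k21 k42 6 (.d k149 k213 k192 7 14)))))), (.s k1 k2 0 (.s k169 k253 13 (.s k41
  k233 7 (.s k60 k22 6 (.d k252 k86 k188 14 7)))))] (.c k87 (.l (.s k107 k104 0 (.s k1 k2 0 (.s k169
  k253 13 (.s k41 k233 7 (.s k60 k22 6 (.d k252 k86 k188 14 7))))))) (.c k107 (.l (.s k87 k171 13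
  (.s k1 k2 0 (.s k86 k84 0 (.d k169 k253 k252 13 14))))) .n))) (.c k84 (.q k1 [(.s k3 k2 0 (.s k86
  k67 6 (.d k169 k253 k252 13 14))), (.s k169 k253 13 (.s k41 k233 7 (.s k43 k232 8 (.s k42 k40 0
  (.d k21 k61 k63 5 6))))), (.s k3 k2 0 (.s k107 k104 0 (.s k171 k87 13 (.s k235 k43 7 (.s k195 k215
  5 (.d k67 k86 k131 6 7))))))] .n) (.c k86 (.l (.s k104 k107 0 (.s k64 k84 5 (.s k192 k128 7 (.s
  k149 k63 14 (.d k213 k234 k21 6 7)))))) (.c k87 (.l (.s k67 k86 6 (.s k104 k107 0 (.s k64 k84 5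
  (.s k192 k128 7 (.s k149 k63 14 (.d k213 k234 k21 6 7))))))) (.c k107 (.l (.s k86 k67 6 (.s k87
  k84 0 (.s k3 k171 13 (.s k1 k2 0 (.d k169 k253 k252 13 14)))))) .n)))))) .n)))) (.c k130 (.l (.s
  k125 k65 5 (.s k60 k190 8 (.s k150 k195 14 (.d k20 k40 k215 5 8))))) (.c k150 (.f k125 k65 5 (.f
  k190 k60 8 (.q k61 [(.s k149 k193 13 (.s k21 k213 7 (.s k253 k189 7 (.d k1 k41 k169 5 13)))), (.s
  k253 k189 7 (.s k252 k254 0 (.s k84 k168 13 (.s k86 k87 0 (.d k169 k1 k3 13 14))))), (.s k149 k193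
  13 (.s k213 k21 7 (.s k192 k234 6 (.s k64 k128 7 (.d k106 k127 k63 6 14)))))] (.c k1 (.l (.s k189
  k253 7 (.s k191 k188 0 (.s k63 k127 7 (.s k21 k42 6 (.d k149 k213 k193 7 13)))))) (.c k63 (.l (.s
  k149 k193 13 (.s k21 k213 7 (.s k1 k41 5 (.d k253 k189 k169 7 13))))) .n))))) (.c k190 (.l (.s k65
  k125 5 (.s k195 k130 8 (.s k150 k60 14 (.d k215 k235 k20 5 8))))) (.c k195 (.q k1 [(.s k3 k2 0 (.s
  k87 k171 13 (.s k86 k84 0 (.d k169 k253 k252 13 14)))), (.s k65 k125 5 (.s k169 k253 13 (.s k41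
  k233 7 (.s k61 k21 5 (.d k193 k129 k149 7 13))))), (.s k3 k2 0 (.s k125 k65 5 (.s k60 k190 8 (.s
  k40 k20 5 (.s k41 k22 6 (.s k21 k61 5 (.d k42 k43 k63 0 6)))))))] .n) (.c k215 (.q k1 [(.s k3 k2 0
  (.s k169 k253 13 (.s k86 k252 14 (.d k87 k84 k171 0 13)))), (.s k65 k125 5 (.s k169 k253 13 (.s
  k41 k233 7 (.s k61 k21 5 (.d k193 k129 k149 7 13))))), (.s k3 k2 0 (.s k65 k125 5 (.s k129 k193 7
  (.s k66 k192 8 (.s k67 k64 0 (.d k195 k131 k130 7 8))))))] .n) .n)))))))))))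

def t11_127 : T TT 256 :=
  (.f k255 k170 14 (.q k101 [(.s k117 k69 3 (.s k48 k186 10 (.s k16 k32 3 (.d k154 k223 k207 10
  14))))] (.c k16 (.q k1 [(.s k3 k2 0 (.s k169 k253 13 (.s k86 k252 14 (.d k87 k84 k171 0 13)))),
  (.s k69 k117 3 (.s k169 k253 13 (.s k33 k237 9 (.s k49 k17 3 (.d k205 k137 k153 9 13))))), (.s k3
  k2 0 (.s k69 k117 3 (.s k137 k205 9 (.s k70 k204 10 (.s k71 k68 0 (.d k207 k139 k138 9 10))))))]
  .n) (.c k32 (.l (.s k69 k117 3 (.s k207 k138 10 (.s k154 k48 14 (.d k223 k239 k16 3 10))))) (.c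
  k48 (.q k1 [(.s k3 k2 0 (.s k169 k253 13 (.s k86 k252 14 (.d k87 k84 k171 0 13)))), (.s k69 k117 3
  (.s k169 k253 13 (.s k33 k237 9 (.s k49 k17 3 (.d k205 k137 k153 9 13))))), (.s k3 k2 0 (.s k69
  k117 3 (.s k137 k205 9 (.s k70 k204 10 (.s k71 k68 0 (.d k207 k139 k138 9 10))))))] .n) (.c k69
  (.q k68 [(.s k204 k136 9 (.s k221 k238 4 (.s k153 k17 9 (.d k102 k119 k51 4 14)))), (.s k102 k119
  4 (.s k100 k103 0 (.s k84 k116 3 (.s k252 k168 13 (.s k253 k254 0 (.s k169 k1 13 (.d k86 k87 k3 0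
  14)))))))] (.c k102 (.f k204 k136 9 (.q k153 [(.d k221 k238 k17 4 9), (.s k205 k49 13 (.s k207
  k206 0 (.s k154 k48 14 (.d k223 k239 k16 3 10))))] (.c k34 (.l (.s k238 k221 4 (.s k205 k49 13 (.s
  k207 k206 0 (.s k154 k48 14 (.d k223 k239 k16 3 10)))))) (.c k238 (.q k34 [(.d k17 k51 k221 4 9),
  (.s k205 k49 13 (.s k207 k206 0 (.s k223 k239 3 (.d k154 k16 k48 10 14))))] .n) .n)))) (.c k119
  (.l (.s k204 k136 9 (.s k221 k238 4 (.s k153 k17 9 (.s k205 k49 13 (.s k207 k206 0 (.s k154 k48 14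
  (.d k223 k239 k16 3 10)))))))) .n))) (.c k117 (.q k84 [(.s k252 k168 13 (.s k253 k254 0 (.s k169
  k1 13 (.d k86 k87 k3 0 14)))), (.s k86 k87 0 (.s k116 k71 4 (.s k68 k100 3 (.s k204 k136 9 (.s
  k221 k238 4 (.s k153 k17 9 (.d k102 k119 k51 4 14)))))))] (.c k86 (.q k220 [(.s k16 k152 9 (.s k48
  k32 3 (.d k154 k223 k207 10 14))), (.s k252 k168 13 (.s k204 k236 3 (.s k221 k238 4 (.s k153 k17 9
  (.s k102 k51 14 (.d k68 k119 k136 4 9))))))] (.c k2 (.q k254 [(.d k252 k253 k168 0 13), (.s k16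
  k152 9 (.s k48 k32 3 (.d k154 k223 k207 10 14)))] (.c k112 (.q k122 [(.d k252 k253 k168 0 13), (.s
  k16 k152 9 (.s k48 k32 3 (.d k154 k223 k207 10 14)))] .n) (.c k122 (.q k112 [(.d k252 k253 k168 0
  13), (.s k16 k152 9 (.s k48 k32 3 (.d k154 k223 k207 10 14)))] .n) .n))) (.c k32 (.l (.s k16 k152
  9 (.s k223 k154 10 (.s k207 k239 3 (.s k222 k221 0 (.d k252 k237 k168 4 13)))))) (.c k112 (.q k122
  [(.s k16 k152 9 (.s k48 k32 3 (.d k154 k223 k207 10 14))), (.s k252 k168 13 (.s k204 k236 3 (.s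
  k221 k238 4 (.s k153 k17 9 (.s k102 k51 14 (.d k68 k119 k136 4 9))))))] (.c k2 (.q k254 [(.d k252
  k253 k168 0 13), (.s k16 k152 9 (.s k48 k32 3 (.d k154 k223 k207 10 14)))] .n) (.c k32 (.l (.s k16
  k152 9 (.s k223 k154 10 (.s k207 k239 3 (.s k222 k221 0 (.d k252 k237 k168 4 13)))))) (.c k254 (.q
  k2 [(.s k16 k152 9 (.s k48 k32 3 (.d k154 k223 k207 10 14))), (.s k252 k168 13 (.s k204 k236 3 (.s
  k221 k238 4 (.s k153 k17 9 (.s k102 k51 14 (.d k68 k119 k136 4 9))))))] (.c k32 (.l (.s k16 k152 9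
  (.s k223 k154 10 (.s k207 k239 3 (.s k222 k221 0 (.d k252 k237 k168 4 13)))))) .n)) .n)))) (.c
  k122 (.q k112 [(.s k16 k152 9 (.s k48 k32 3 (.d k154 k223 k207 10 14))), (.s k90 k79 6 (.s k95 k80
  2 (.s k15 k175 11 (.s k5 k10 2 (.d k165 k245 k240 11 14)))))] (.c k2 (.q k254 [(.d k252 k253 k168
  0 13), (.s k16 k152 9 (.s k48 k32 3 (.d k154 k223 k207 10 14)))] .n) (.c k254 (.q k2 [(.s k16 k152
  9 (.s k48 k32 3 (.d k154 k223 k207 10 14))), (.s k90 k79 6 (.s k95 k80 2 (.s k15 k175 11 (.s k5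
  k10 2 (.d k165 k245 k240 11 14)))))] .n) .n))) (.c k254 (.q k2 [(.s k16 k152 9 (.s k48 k32 3 (.d
  k154 k223 k207 10 14))), (.s k252 k168 13 (.s k204 k236 3 (.s k221 k238 4 (.s k153 k17 9 (.s k102
  k51 14 (.d k68 k119 k136 4 9))))))] (.c k32 (.l (.s k16 k152 9 (.s k223 k154 10 (.s k207 k239 3
  (.s k222 k221 0 (.d k252 k237 k168 4 13)))))) (.c k112 (.q k122 [(.s k16 k152 9 (.s k48 k32 3 (.d
  k154 k223 k207 10 14))), (.s k252 k168 13 (.s k204 k236 3 (.s k221 k238 4 (.s k153 k17 9 (.s k102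
  k51 14 (.d k68 k119 k136 4 9))))))] (.c k32 (.l (.s k16 k152 9 (.s k223 k154 10 (.s k207 k239 3
  (.s k222 k221 0 (.d k252 k237 k168 4 13)))))) .n)) (.c k122 (.q k112 [(.s k16 k152 9 (.s k48 k32 3
  (.d k154 k223 k207 10 14))), (.s k90 k79 6 (.s k95 k80 2 (.s k15 k175 11 (.s k5 k10 2 (.d k165
  k245 k240 11 14)))))] .n) .n)))) .n)))))) (.c k87 (.l (.s k252 k168 13 (.s k253 k254 0 (.s k169 k1
  13 (.s k237 k33 9 (.s k207 k222 4 (.s k154 k48 14 (.d k223 k239 k16 3 10)))))))) (.c k112 (.q k122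
  [(.s k252 k168 13 (.s k253 k254 0 (.s k169 k1 13 (.d k86 k87 k3 0 14)))), (.s k86 k87 0 (.s k116
  k71 4 (.s k68 k100 3 (.s k204 k136 9 (.s k221 k238 4 (.s k153 k17 9 (.d k102 k119 k51 4 14)))))))]
  (.c k86 (.q k223 [(.s k154 k16 10 (.d k207 k239 k48 3 14)), (.s k207 k239 3 (.s k252 k168 13 (.s
  k222 k237 4 (.s k221 k220 0 (.s k238 k204 4 (.d k254 k253 k206 0 3)))))), (.s k16 k154 10 (.s k220
  k152 9 (.s k252 k168 13 (.s k204 k236 3 (.d k221 k222 k238 0 4)))))] (.c k2 (.q k254 [(.d k252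
  k253 k168 0 13), (.s k154 k16 10 (.d k207 k239 k48 3 14))] .n) (.c k254 (.q k2 [(.s k154 k16 10
  (.d k207 k239 k48 3 14)), (.s k1 k3 0 (.s k169 k253 13 (.s k207 k239 3 (.s k252 k168 13 (.d k237
  k222 k33 4 9))))), (.s k16 k154 10 (.s k220 k152 9 (.s k252 k168 13 (.s k204 k236 3 (.d k221 k222
  k238 0 4)))))] .n) .n))) (.c k87 (.l (.s k252 k168 13 (.s k253 k254 0 (.s k169 k1 13 (.s k237 k33
  9 (.s k207 k222 4 (.s k154 k48 14 (.d k223 k239 k16 3 10)))))))) .n))) (.c k122 (.q k112 [(.s k252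
  k168 13 (.s k253 k254 0 (.s k169 k1 13 (.d k86 k87 k3 0 14)))), (.s k90 k79 6 (.s k95 k80 2 (.s
  k15 k175 11 (.s k5 k10 2 (.d k165 k245 k240 11 14)))))] .n) .n))))) (.c k138 (.l (.s k117 k69 3
  (.s k48 k186 10 (.s k154 k207 14 (.d k16 k32 k223 3 10))))) (.c k154 (.f k117 k69 3 (.q k153 [(.s
  k17 k221 9 (.s k51 k34 4 (.s k102 k204 14 (.d k119 k68 k187 4 9)))), (.s k49 k205 13 (.s k253 k185
  9 (.s k252 k254 0 (.s k84 k168 13 (.s k86 k87 0 (.d k169 k1 k3 13 14))))))] (.c k138 (.l (.s k186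
  k48 10 (.s k17 k221 9 (.s k49 k205 13 (.s k1 k33 3 (.d k253 k185 k169 9 13)))))) (.c k186 (.q k138
  [(.s k17 k221 9 (.s k51 k34 4 (.s k102 k204 14 (.d k119 k68 k187 4 9)))), (.s k49 k205 13 (.s k253
  k185 9 (.s k252 k254 0 (.s k84 k168 13 (.s k86 k87 0 (.d k169 k1 k3 13 14))))))] (.c k187 (.l (.s
  k17 k221 9 (.s k49 k205 13 (.s k1 k33 3 (.d k253 k185 k169 9 13))))) .n)) .n)))) (.c k186 (.l (.s
  k69 k117 3 (.s k207 k138 10 (.s k154 k48 14 (.d k223 k239 k16 3 10))))) (.c k207 (.q k1 [(.s k3 k2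
  0 (.s k169 k253 13 (.s k86 k252 14 (.d k87 k84 k171 0 13)))), (.s k3 k2 0 (.s k117 k69 3 (.s k48
  k186 10 (.s k32 k16 3 (.s k33 k18 4 (.s k17 k49 3 (.d k34 k35 k51 0 4))))))), (.s k69 k117 3 (.s
  k169 k253 13 (.s k33 k237 9 (.s k49 k17 3 (.d k205 k137 k153 9 13)))))] .n) (.c k223 (.q k1 [(.s
  k3 k2 0 (.s k169 k253 13 (.s k86 k252 14 (.d k87 k84 k171 0 13)))), (.s k69 k117 3 (.s k169 k253
  13 (.s k33 k237 9 (.s k49 k17 3 (.d k205 k137 k153 9 13))))), (.s k3 k2 0 (.s k69 k117 3 (.s k137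
  k205 9 (.s k70 k204 10 (.s k71 k68 0 (.d k207 k139 k138 9 10))))))] .n) .n))))))))))))

def t11_161 : T TT 256 :=
  (.f k255 k170 14 (.q k106 [(.s k64 k127 6 (.s k192 k128 7 (.s k149 k63 14 (.d k213 k234 k21 6
  7))))] (.c k21 (.q k1 [(.s k3 k2 0 (.s k169 k253 13 (.s k86 k252 14 (.d k87 k84 k171 0 13)))), (.s
  k64 k127 6 (.s k192 k128 7 (.s k213 k234 6 (.s k253 k169 13 (.s k193 k233 5 (.s k65 k129 7 (.d
  k195 k130 k194 8 0))))))), (.s k3 k2 0 (.s k64 k127 6 (.s k192 k128 7 (.s k66 k129 8 (.s k86 k126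
  5 (.d k87 k84 k171 0 13))))))] (.c k171 (.l (.s k3 k2 0 (.s k127 k64 6 (.s k63 k191 7 (.s k43 k23
  5 (.d k169 k232 k253 8 13)))))) .n)) (.c k63 (.q k1 [(.s k3 k2 0 (.s k169 k253 13 (.s k86 k252 14
  (.d k87 k84 k171 0 13)))), (.s k64 k127 6 (.s k192 k128 7 (.s k213 k234 6 (.s k253 k169 13 (.s
  k193 k233 5 (.s k65 k129 7 (.d k195 k130 k194 8 0))))))), (.s k64 k127 6 (.s k169 k253 13 (.s k192
  k128 7 (.s k232 k43 8 (.s k252 k212 5 (.s k84 k168 13 (.d k86 k3 k87 14 0))))))), (.s k3 k2 0 (.s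
  k64 k127 6 (.s k192 k128 7 (.s k66 k129 8 (.s k86 k126 5 (.d k87 k84 k171 0 13))))))] .n) (.c k64
  (.q k60 [(.s k20 k40 5 (.s k125 k190 8 (.s k150 k215 8 (.d k105 k65 k195 5 14)))), (.s k20 k40 5
  (.s k150 k215 8 (.s k62 k194 13 (.s k63 k61 0 (.s k21 k42 6 (.d k149 k213 k192 7 14)))))), (.s
  k125 k190 8 (.s k105 k65 5 (.s k104 k107 0 (.s k192 k148 13 (.s k149 k63 14 (.d k213 k234 k21 6
  7))))))] (.c k105 (.q k87 [(.s k3 k171 13 (.s k1 k2 0 (.s k169 k253 13 (.d k86 k84 k252 0 14)))),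
  (.s k86 k84 0 (.s k126 k66 5 (.s k190 k125 8 (.s k62 k254 7 (.s k150 k194 13 (.d k20 k40 k215 5
  8)))))), (.s k3 k171 13 (.s k2 k1 0 (.s k22 k41 6 (.s k42 k62 5 (.s k21 k63 6 (.d k20 k40 k23 5
  0))))))] (.c k2 (.l (.s k3 k171 13 (.s k22 k41 6 (.s k86 k84 0 (.s k150 k214 7 (.d k20 k40 k215 5
  8)))))) (.c k40 (.q k235 [(.s k3 k171 13 (.s k1 k2 0 (.s k169 k253 13 (.d k86 k84 k252 0 14)))),
  (.s k86 k84 0 (.s k126 k66 5 (.s k190 k125 8 (.s k62 k254 7 (.s k150 k194 13 (.d k215 k195 k20 5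
  8)))))), (.s k3 k171 13 (.s k22 k41 6 (.s k215 k195 5 (.s k20 k150 8 (.d k23 k21 k151 0 7)))))]
  .n) (.c k235 (.l (.s k40 k20 5 (.s k3 k171 13 (.s k1 k2 0 (.s k86 k84 0 (.d k169 k253 k252 13
  14)))))) .n)))) (.c k150 (.q k149 [(.s k21 k213 7 (.d k63 k42 k192 6 14)), (.s k63 k192 14 (.s k61
  k62 0 (.s k105 k193 13 (.d k125 k190 k65 8 5))))] (.c k63 (.l (.s k213 k21 7 (.s k192 k234 6 (.s
  k104 k148 13 (.s k105 k107 0 (.d k125 k65 k190 5 8)))))) (.c k130 (.l (.s k190 k125 8 (.s k21 k213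
  7 (.d k63 k42 k192 6 14)))) (.c k190 (.q k130 [(.s k21 k213 7 (.d k63 k42 k192 6 14)), (.s k63
  k192 14 (.s k61 k62 0 (.s k65 k195 8 (.d k105 k193 k125 13 5))))] (.c k63 (.l (.s k65 k195 8 (.s
  k105 k125 5 (.s k213 k21 7 (.s k192 k234 6 (.d k104 k107 k148 0 13)))))) (.c k192 (.l (.s k21 k213
  7 (.s k63 k42 6 (.s k61 k62 0 (.s k65 k195 8 (.d k105 k193 k125 13 5)))))) .n))) (.c k192 (.l (.s
  k21 k213 7 (.s k63 k42 6 (.s k61 k62 0 (.s k105 k193 13 (.d k125 k65 k190 5 8)))))) .n))))) .n)))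
  (.c k127 (.q k195 [(.s k65 k130 8 (.s k215 k235 5 (.s k150 k20 8 (.d k105 k125 k60 5 14)))), (.s
  k65 k130 8 (.s k105 k125 5 (.s k107 k104 0 (.s k63 k151 13 (.s k21 k42 6 (.d k149 k213 k192 7
  14)))))), (.s k215 k235 5 (.s k150 k20 8 (.s k194 k62 13 (.s k192 k193 0 (.s k149 k63 14 (.d k213
  k234 k21 6 7))))))] (.c k105 (.q k149 [(.s k21 k213 7 (.d k63 k42 k192 6 14)), (.s k63 k192 14 (.s
  k151 k107 13 (.s k150 k148 0 (.d k215 k235 k20 5 8))))] (.c k40 (.l (.s k235 k215 5 (.s k21 k213 7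
  (.d k63 k42 k192 6 14)))) (.c k63 (.l (.s k213 k21 7 (.s k192 k234 6 (.s k194 k193 0 (.s k150 k62
  13 (.d k215 k235 k20 5 8)))))) (.c k192 (.l (.s k21 k213 7 (.s k63 k42 6 (.s k151 k107 13 (.s k150
  k148 0 (.d k215 k235 k20 5 8)))))) (.c k235 (.q k40 [(.s k21 k213 7 (.d k63 k42 k192 6 14)), (.s
  k20 k60 5 (.s k63 k192 14 (.s k150 k215 8 (.d k151 k148 k107 0 13))))] (.c k63 (.l (.s k20 k60 5
  (.s k150 k215 8 (.s k213 k21 7 (.s k192 k234 6 (.d k194 k62 k193 13 0)))))) (.c k192 (.l (.s k20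
  k60 5 (.s k21 k213 7 (.s k63 k42 6 (.s k150 k215 8 (.d k151 k148 k107 0 13)))))) .n))) .n))))) (.c
  k150 (.q k149 [(.s k21 k213 7 (.d k63 k42 k192 6 14)), (.s k63 k192 14 (.s k107 k151 13 (.s k105
  k104 0 (.d k65 k130 k125 8 5))))] (.c k63 (.l (.s k213 k21 7 (.s k192 k234 6 (.s k193 k194 0 (.s
  k105 k61 13 (.d k65 k125 k130 5 8)))))) (.c k130 (.q k190 [(.s k21 k213 7 (.d k63 k42 k192 6 14)),
  (.s k63 k192 14 (.s k107 k151 13 (.s k105 k104 0 (.d k125 k60 k65 8 5))))] (.c k63 (.l (.s k125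
  k60 8 (.s k105 k65 5 (.s k213 k21 7 (.s k192 k234 6 (.d k193 k61 k194 13 0)))))) (.c k192 (.l (.s
  k21 k213 7 (.s k63 k42 6 (.s k107 k151 13 (.s k105 k104 0 (.d k125 k60 k65 8 5)))))) .n))) (.c
  k190 (.l (.s k130 k65 8 (.s k21 k213 7 (.d k63 k42 k192 6 14)))) (.c k192 (.l (.s k21 k213 7 (.s
  k63 k42 6 (.s k107 k151 13 (.s k105 k104 0 (.d k65 k125 k130 5 8)))))) .n))))) .n))) (.c k128 (.l
  (.s k127 k64 6 (.s k63 k191 7 (.s k149 k192 14 (.d k21 k42 k213 6 7))))) (.c k149 (.f k127 k64 6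
  (.q k86 [(.s k84 k87 0 (.s k126 k66 5 (.s k252 k168 13 (.d k63 k191 k189 7 8)))), (.s k126 k66 5
  (.s k125 k124 0 (.s k60 k190 8 (.s k20 k40 5 (.s k150 k215 8 (.d k105 k65 k195 5 14)))))), (.s k84
  k87 0 (.s k252 k168 13 (.s k169 k3 14 (.d k253 k254 k1 0 13))))] (.c k84 (.l (.s k126 k66 5 (.s
  k124 k125 0 (.s k67 k105 6 (.s k87 k107 5 (.s k3 k171 13 (.s k1 k2 0 (.d k169 k253 k252 13
  14)))))))) (.c k128 (.l (.s k191 k63 7 (.s k84 k87 0 (.s k252 k168 13 (.s k169 k3 14 (.d k253 k254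
  k1 0 13)))))) (.c k191 (.q k128 [(.s k84 k87 0 (.s k252 k168 13 (.s k253 k254 0 (.d k169 k1 k3 13
  14)))), (.s k126 k66 5 (.s k125 k124 0 (.s k60 k190 8 (.s k20 k40 5 (.s k150 k215 8 (.d k105 k65
  k195 5 14))))))] (.c k84 (.l (.s k126 k66 5 (.s k124 k125 0 (.s k67 k105 6 (.s k87 k107 5 (.s k3
  k171 13 (.s k1 k2 0 (.d k169 k253 k252 13 14)))))))) .n)) .n))))) (.c k191 (.l (.s k64 k127 6 (.s
  k192 k128 7 (.s k149 k63 14 (.d k213 k234 k21 6 7))))) (.c k192 (.q k1 [(.s k3 k2 0 (.s k169 k253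
  13 (.s k86 k252 14 (.d k87 k84 k171 0 13)))), (.s k127 k64 6 (.s k63 k191 7 (.s k21 k42 6 (.s k61
  k41 5 (.s k253 k169 13 (.s k125 k189 7 (.d k60 k190 k62 8 0))))))), (.s k3 k2 0 (.s k127 k64 6 (.s
  k63 k191 7 (.s k21 k42 6 (.s k23 k43 5 (.s k22 k20 0 (.d k41 k61 k60 5 6)))))))] .n) (.c k213 (.q
  k1 [(.s k3 k2 0 (.s k169 k253 13 (.s k86 k252 14 (.d k87 k84 k171 0 13)))), (.s k127 k64 6 (.s k63
  k191 7 (.s k21 k42 6 (.s k61 k41 5 (.s k60 k62 0 (.s k125 k190 8 (.d k253 k189 k169 7 13))))))),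
  (.s k64 k127 6 (.s k169 k253 13 (.s k192 k128 7 (.s k149 k63 14 (.s k129 k189 5 (.s k66 k3 8 (.d
  k65 k193 k67 7 0))))))), (.s k3 k2 0 (.s k64 k127 6 (.s k192 k128 7 (.s k66 k129 8 (.s k86 k126 5
  (.d k87 k84 k171 0 13))))))] .n) (.c k234 (.l (.s k127 k64 6 (.s k63 k191 7 (.s k21 k42 6 (.d k149
  k213 k192 7 14))))) .n))))))))))))

def t11_162 : T TT 256 :=
  (.f k170 k255 14 (.q k207 [(.s k69 k138 10 (.s k101 k117 3 (.s k32 k239 10 (.d k48 k16 k154 3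
  14))))] (.c k16 (.q k1 [(.s k3 k2 0 (.s k169 k253 13 (.s k252 k86 14 (.d k168 k171 k84 0 13)))),
  (.s k69 k138 10 (.s k101 k117 3 (.s k169 k253 13 (.s k33 k237 9 (.s k49 k17 3 (.d k205 k137 k153 9
  13)))))), (.s k3 k2 0 (.s k69 k138 10 (.s k71 k139 9 (.s k70 k68 0 (.d k137 k205 k204 9 10)))))]
  .n) (.c k32 (.f k69 k138 10 (.f k101 k117 3 (.f k48 k154 14 (.q k97 [(.s k105 k109 1 (.s k195 k146
  12 (.d k65 k130 k125 8 5))), (.s k105 k109 1 (.s k65 k125 5 (.s k77 k73 1 (.d k113 k81 k89 3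
  5)))), (.s k105 k109 1 (.s k40 k235 8 (.s k60 k20 5 (.d k195 k146 k150 12 14)))), (.s k195 k146 12
  (.s k130 k65 8 (.s k150 k190 5 (.d k199 k203 k52 1 12))))] .n)))) (.c k48 (.f k138 k69 10 (.q k2
  [(.s k3 k1 0 (.s k70 k206 9 (.s k139 k71 9 (.d k137 k136 k204 0 10)))), (.s k86 k254 13 (.s k84
  k87 0 (.s k252 k168 13 (.s k222 k237 4 (.d k154 k186 k18 3 9)))))] (.c k3 (.l (.s k206 k70 9 (.s
  k204 k205 0 (.s k68 k136 9 (.s k102 k119 4 (.d k154 k186 k50 3 13)))))) (.c k117 (.l (.s k186 k154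
  3 (.s k3 k1 0 (.s k70 k206 9 (.s k137 k204 10 (.d k139 k136 k71 0 9)))))) (.c k186 (.q k117 [(.s
  k3 k1 0 (.s k70 k206 9 (.s k139 k71 9 (.d k137 k136 k204 0 10)))), (.s k86 k254 13 (.s k84 k87 0
  (.s k252 k168 13 (.d k3 k1 k169 0 14)))), (.s k206 k70 9 (.s k254 k86 13 (.s k238 k222 3 (.s k102
  k34 9 (.s k68 k119 4 (.d k204 k205 k136 0 9))))))] .n) .n))))) (.c k69 (.q k86 [(.s k2 k254 13 (.s
  k84 k87 0 (.s k252 k168 13 (.d k3 k1 k169 0 14)))), (.s k84 k87 0 (.s k252 k168 13 (.s k222 k237 4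
  (.s k154 k18 9 (.s k16 k223 10 (.d k48 k32 k101 3 14)))))), (.s k2 k254 13 (.s k3 k1 0 (.s k71
  k139 9 (.s k101 k116 4 (.s k32 k239 10 (.d k48 k16 k154 3 14))))))] (.c k3 (.f k87 k84 0 (.q k7
  [(.s k165 k244 12 (.s k247 k167 11 (.s k4 k166 12 (.d k5 k6 k245 0 11)))), (.s k165 k244 12 (.s
  k160 k175 2 (.s k240 k80 11 (.s k15 k90 14 (.d k5 k10 k245 2 11)))))] (.c k4 (.l (.s k167 k247 11
  (.s k165 k244 12 (.s k164 k166 0 (.s k160 k175 2 (.s k240 k80 11 (.s k15 k90 14 (.d k5 k245 k10 11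
  2)))))))) (.c k5 (.l (.s k244 k165 12 (.s k247 k167 11 (.s k166 k4 12 (.d k246 k245 k6 0 11)))))
  (.c k164 (.l (.s k244 k165 12 (.s k247 k167 11 (.s k166 k4 12 (.d k246 k245 k6 0 11))))) (.c k165
  (.q k4 [(.d k247 k167 k166 11 12), (.s k5 k6 0 (.s k10 k15 2 (.s k90 k250 11 (.s k94 k82 1 (.s k95
  k80 2 (.s k83 k91 1 (.d k92 k93 k89 0 2)))))))] (.c k167 (.l (.s k6 k5 0 (.d k166 k246 k247 11
  12))) .n)) (.c k244 (.l (.s k247 k167 11 (.s k4 k166 12 (.s k5 k6 0 (.s k15 k10 2 (.s k165 k245 11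
  (.s k160 k175 2 (.d k240 k80 k90 11 14)))))))) (.c k245 (.l (.s k165 k244 12 (.s k160 k175 2 (.s
  k240 k80 11 (.s k15 k90 14 (.s k5 k10 2 (.s k4 k6 0 (.d k247 k167 k166 11 12)))))))) .n))))))))
  (.c k252 (.q k149 [(.s k21 k213 7 (.s k63 k42 6 (.s k128 k191 6 (.d k192 k64 k106 7 14)))), (.s
  k84 k87 0 (.s k212 k23 8 (.s k20 k148 7 (.s k213 k21 7 (.d k215 k214 k150 0 8))))), (.s k23 k212 8
  (.s k128 k191 6 (.s k192 k64 7 (.s k63 k106 14 (.s k3 k43 5 (.d k2 k254 k1 13 0))))))] (.c k253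
  (.l (.s k254 k2 13 (.s k21 k213 7 (.s k63 k42 6 (.s k128 k191 6 (.d k192 k64 k106 7 14)))))) (.c
  k254 (.q k253 [(.s k21 k213 7 (.s k63 k42 6 (.s k128 k191 6 (.d k192 k64 k106 7 14)))), (.s k1
  k169 13 (.s k213 k21 7 (.s k193 k233 5 (.s k65 k129 7 (.d k105 k125 k61 5 13))))), (.s k1 k169 13
  (.s k3 k2 0 (.s k23 k212 8 (.s k63 k43 5 (.s k128 k191 6 (.d k192 k106 k64 14 7))))))] .n) .n)))
  .n))) (.c k101 (.q k1 [(.s k169 k253 13 (.s k168 k171 0 (.s k252 k84 13 (.d k3 k2 k86 0 14)))),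
  (.s k69 k138 10 (.s k205 k137 9 (.s k204 k206 0 (.s k136 k68 9 (.s k153 k187 4 (.s k17 k221 9 (.d
  k51 k34 k102 4 14)))))))] (.c k2 (.l (.s k138 k69 10 (.s k154 k186 3 (.s k169 k253 13 (.s k139
  k184 4 (.s k3 k71 9 (.s k168 k171 0 (.d k252 k86 k84 14 13)))))))) .n)) (.c k117 (.l (.s k138 k69
  10 (.s k154 k186 3 (.s k48 k101 14 (.d k16 k32 k223 3 10))))) (.c k138 (.q k86 [(.s k2 k254 13 (.s
  k3 k1 0 (.s k84 k87 0 (.d k252 k168 k169 13 14)))), (.s k84 k87 0 (.s k252 k168 13 (.s k222 k237 4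
  (.s k154 k18 9 (.s k16 k223 10 (.d k48 k32 k101 3 14)))))), (.s k2 k254 13 (.s k3 k1 0 (.s k71
  k139 9 (.s k101 k116 4 (.s k32 k239 10 (.d k48 k16 k154 3 14))))))] (.c k3 (.f k87 k84 0 (.q k165
  [(.s k7 k244 12 (.s k247 k167 11 (.s k4 k166 12 (.d k5 k6 k245 0 11)))), (.s k160 k175 2 (.s k240
  k80 11 (.s k229 k218 6 (.s k101 k37 7 (.s k32 k239 10 (.d k48 k16 k154 3 14))))))] (.c k7 (.q k15
  [(.d k5 k10 k245 2 11), (.s k160 k175 2 (.d k240 k80 k90 11 14))] .n) (.c k15 (.l (.s k7 k244 12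
  (.s k5 k245 11 (.s k4 k6 0 (.d k247 k167 k166 11 12))))) .n)))) (.c k252 (.q k136 [(.s k204 k68 9
  (.s k153 k187 4 (.s k51 k102 14 (.d k17 k34 k221 4 9)))), (.s k68 k204 9 (.s k84 k87 0 (.s k116
  k100 3 (.s k71 k101 4 (.s k3 k139 9 (.d k2 k254 k1 13 0)))))), (.s k84 k87 0 (.s k153 k187 4 (.s
  k220 k19 10 (.s k16 k152 9 (.s k48 k32 3 (.d k154 k223 k101 10 14))))))] (.c k253 (.l (.s k254 k2
  13 (.s k153 k187 4 (.s k17 k221 9 (.s k51 k34 4 (.d k204 k68 k102 9 14)))))) (.c k254 (.q k253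
  [(.s k204 k68 9 (.s k153 k187 4 (.s k51 k102 14 (.d k17 k34 k221 4 9)))), (.s k1 k169 13 (.s k3 k2
  0 (.s k71 k139 9 (.s k101 k116 4 (.s k32 k239 10 (.d k48 k154 k16 14 3))))))] .n) .n))) .n))) (.c
  k154 (.q k1 [(.s k169 k253 13 (.s k168 k171 0 (.s k252 k84 13 (.d k3 k2 k86 0 14)))), (.s k3 k2 0
  (.s k69 k138 10 (.s k137 k205 9 (.s k70 k204 10 (.d k71 k68 k139 0 9))))), (.s k69 k138 10 (.s
  k101 k117 3 (.s k169 k253 13 (.s k33 k237 9 (.s k49 k17 3 (.d k205 k137 k153 9 13))))))] .n) (.c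
  k186 (.l (.s k69 k138 10 (.s k101 k117 3 (.s k48 k154 14 (.d k32 k16 k239 3 10))))) (.c k239 (.l
  (.s k138 k69 10 (.s k154 k186 3 (.s k16 k223 10 (.d k48 k32 k101 3 14))))) .n))))))))))))

def t11_163 : T TT 256 :=
  (.f k255 k170 14 (.q k106 [(.s k64 k127 6 (.s k192 k128 7 (.s k149 k63 14 (.d k213 k234 k21 6
  7))))] (.c k21 (.q k1 [(.s k3 k2 0 (.s k169 k253 13 (.s k86 k252 14 (.d k87 k84 k171 0 13)))), (.s
  k64 k127 6 (.s k192 k128 7 (.s k213 k234 6 (.s k253 k169 13 (.s k193 k233 5 (.s k65 k129 7 (.d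
  k195 k130 k194 8 0))))))), (.s k3 k2 0 (.s k64 k127 6 (.s k192 k128 7 (.s k66 k129 8 (.s k86 k126
  5 (.d k87 k84 k171 0 13))))))] (.c k171 (.l (.s k3 k2 0 (.s k127 k64 6 (.s k63 k191 7 (.s k43 k23
  5 (.d k169 k232 k253 8 13)))))) .n)) (.c k63 (.q k1 [(.s k3 k2 0 (.s k169 k253 13 (.s k86 k252 14
  (.d k87 k84 k171 0 13)))), (.s k64 k127 6 (.s k192 k128 7 (.s k213 k234 6 (.s k253 k169 13 (.s
  k193 k233 5 (.s k65 k129 7 (.d k195 k130 k194 8 0))))))), (.s k64 k127 6 (.s k169 k253 13 (.s k192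
  k128 7 (.s k232 k43 8 (.s k252 k212 5 (.s k84 k168 13 (.d k86 k3 k87 14 0))))))), (.s k3 k2 0 (.s
  k64 k127 6 (.s k192 k128 7 (.s k66 k129 8 (.s k86 k126 5 (.d k87 k84 k171 0 13))))))] .n) (.c k64
  (.q k60 [(.s k20 k40 5 (.s k125 k190 8 (.s k150 k215 8 (.d k105 k65 k195 5 14)))), (.s k20 k40 5
  (.s k150 k215 8 (.s k62 k194 13 (.s k63 k61 0 (.s k21 k42 6 (.d k149 k213 k192 7 14)))))), (.s
  k125 k190 8 (.s k105 k65 5 (.s k104 k107 0 (.s k192 k148 13 (.s k149 k63 14 (.d k213 k234 k21 6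
  7))))))] (.c k105 (.q k87 [(.s k3 k171 13 (.s k1 k2 0 (.s k169 k253 13 (.d k86 k84 k252 0 14)))),
  (.s k86 k84 0 (.s k126 k66 5 (.s k190 k125 8 (.s k62 k254 7 (.s k150 k194 13 (.d k20 k40 k215 5
  8)))))), (.s k3 k171 13 (.s k2 k1 0 (.s k22 k41 6 (.s k42 k62 5 (.s k21 k63 6 (.d k20 k40 k23 5
  0))))))] (.c k2 (.l (.s k3 k171 13 (.s k22 k41 6 (.s k86 k84 0 (.s k150 k214 7 (.d k20 k40 k215 5
  8)))))) (.c k40 (.q k235 [(.s k3 k171 13 (.s k1 k2 0 (.s k169 k253 13 (.d k86 k84 k252 0 14)))),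
  (.s k86 k84 0 (.s k126 k66 5 (.s k190 k125 8 (.s k62 k254 7 (.s k150 k194 13 (.d k215 k195 k20 5
  8)))))), (.s k3 k171 13 (.s k22 k41 6 (.s k215 k195 5 (.s k20 k150 8 (.d k23 k21 k151 0 7)))))]
  .n) (.c k235 (.l (.s k40 k20 5 (.s k3 k171 13 (.s k1 k2 0 (.s k86 k84 0 (.d k169 k253 k252 13
  14)))))) .n)))) (.c k150 (.q k149 [(.s k21 k213 7 (.d k63 k42 k192 6 14)), (.s k63 k192 14 (.s k61
  k62 0 (.s k105 k193 13 (.d k125 k190 k65 8 5))))] (.c k63 (.l (.s k213 k21 7 (.s k192 k234 6 (.s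
  k104 k148 13 (.s k105 k107 0 (.d k125 k65 k190 5 8)))))) (.c k130 (.l (.s k190 k125 8 (.s k21 k213
  7 (.d k63 k42 k192 6 14)))) (.c k190 (.q k130 [(.s k21 k213 7 (.d k63 k42 k192 6 14)), (.s k63
  k192 14 (.s k61 k62 0 (.s k65 k195 8 (.d k105 k193 k125 13 5))))] (.c k63 (.l (.s k65 k195 8 (.s
  k105 k125 5 (.s k213 k21 7 (.s k192 k234 6 (.d k104 k107 k148 0 13)))))) (.c k192 (.l (.s k21 k213
  7 (.s k63 k42 6 (.s k61 k62 0 (.s k65 k195 8 (.d k105 k193 k125 13 5)))))) .n))) (.c k192 (.l (.s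
  k21 k213 7 (.s k63 k42 6 (.s k61 k62 0 (.s k105 k193 13 (.d k125 k65 k190 5 8)))))) .n))))) .n)))
  (.c k127 (.q k195 [(.s k65 k130 8 (.s k215 k235 5 (.s k150 k20 8 (.d k105 k125 k60 5 14)))), (.s
  k65 k130 8 (.s k105 k125 5 (.s k107 k104 0 (.s k63 k151 13 (.s k21 k42 6 (.d k149 k213 k192 7
  14)))))), (.s k215 k235 5 (.s k150 k20 8 (.s k194 k62 13 (.s k192 k193 0 (.s k149 k63 14 (.d k213
  k234 k21 6 7))))))] (.c k105 (.q k149 [(.s k21 k213 7 (.d k63 k42 k192 6 14)), (.s k63 k192 14 (.s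
  k151 k107 13 (.s k150 k148 0 (.d k215 k235 k20 5 8))))] (.c k40 (.l (.s k235 k215 5 (.s k21 k213 7
  (.d k63 k42 k192 6 14)))) (.c k63 (.l (.s k213 k21 7 (.s k192 k234 6 (.s k194 k193 0 (.s k150 k62
  13 (.d k215 k235 k20 5 8)))))) (.c k192 (.l (.s k21 k213 7 (.s k63 k42 6 (.s k151 k107 13 (.s k150
  k148 0 (.d k215 k235 k20 5 8)))))) (.c k235 (.q k40 [(.s k21 k213 7 (.d k63 k42 k192 6 14)), (.s
  k20 k60 5 (.s k63 k192 14 (.s k150 k215 8 (.d k151 k148 k107 0 13))))] (.c k63 (.l (.s k20 k60 5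
  (.s k150 k215 8 (.s k213 k21 7 (.s k192 k234 6 (.d k194 k62 k193 13 0)))))) (.c k192 (.l (.s k20
  k60 5 (.s k21 k213 7 (.s k63 k42 6 (.s k150 k215 8 (.d k151 k148 k107 0 13)))))) .n))) .n))))) (.c
  k150 (.q k149 [(.s k21 k213 7 (.d k63 k42 k192 6 14)), (.s k63 k192 14 (.s k107 k151 13 (.s k105
  k104 0 (.d k65 k130 k125 8 5))))] (.c k63 (.l (.s k213 k21 7 (.s k192 k234 6 (.s k193 k194 0 (.s
  k105 k61 13 (.d k65 k125 k130 5 8)))))) (.c k130 (.q k190 [(.s k21 k213 7 (.d k63 k42 k192 6 14)),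
  (.s k63 k192 14 (.s k107 k151 13 (.s k105 k104 0 (.d k125 k60 k65 8 5))))] (.c k63 (.l (.s k125
  k60 8 (.s k105 k65 5 (.s k213 k21 7 (.s k192 k234 6 (.d k193 k61 k194 13 0)))))) (.c k192 (.l (.s
  k21 k213 7 (.s k63 k42 6 (.s k107 k151 13 (.s k105 k104 0 (.d k125 k60 k65 8 5)))))) .n))) (.c
  k190 (.l (.s k130 k65 8 (.s k21 k213 7 (.d k63 k42 k192 6 14)))) (.c k192 (.l (.s k21 k213 7 (.s
  k63 k42 6 (.s k107 k151 13 (.s k105 k104 0 (.d k65 k125 k130 5 8)))))) .n))))) .n))) (.c k128 (.l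
  (.s k127 k64 6 (.s k63 k191 7 (.s k149 k192 14 (.d k21 k42 k213 6 7))))) (.c k149 (.f k127 k64 6
  (.q k90 [(.s k80 k95 2 (.s k240 k160 11 (.s k165 k15 14 (.d k245 k250 k5 2 11)))), (.s k122 k74 3
  (.s k117 k112 2 (.s k48 k186 10 (.s k16 k32 3 (.s k154 k223 10 (.d k101 k69 k207 3 14))))))] (.c
  k80 (.l (.s k122 k74 3 (.s k112 k117 2 (.s k79 k101 6 (.s k95 k111 3 (.s k15 k175 11 (.s k5 k10 2
  (.d k165 k245 k240 11 14)))))))) (.c k128 (.l (.s k191 k63 7 (.s k80 k95 2 (.s k240 k160 11 (.s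
  k165 k15 14 (.d k245 k250 k5 2 11)))))) (.c k191 (.q k128 [(.s k80 k95 2 (.s k240 k160 11 (.s k245
  k250 2 (.d k165 k5 k15 11 14)))), (.s k122 k74 3 (.s k117 k112 2 (.s k48 k186 10 (.s k16 k32 3 (.s
  k154 k223 10 (.d k101 k69 k207 3 14))))))] (.c k80 (.l (.s k122 k74 3 (.s k112 k117 2 (.s k79 k101
  6 (.s k95 k111 3 (.s k15 k175 11 (.s k5 k10 2 (.d k165 k245 k240 11 14)))))))) .n)) .n))))) (.c
  k191 (.l (.s k64 k127 6 (.s k192 k128 7 (.s k149 k63 14 (.d k213 k234 k21 6 7))))) (.c k192 (.q k1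
  [(.s k3 k2 0 (.s k169 k253 13 (.s k86 k252 14 (.d k87 k84 k171 0 13)))), (.s k127 k64 6 (.s k63
  k191 7 (.s k21 k42 6 (.s k61 k41 5 (.s k253 k169 13 (.s k125 k189 7 (.d k60 k190 k62 8 0))))))),
  (.s k3 k2 0 (.s k127 k64 6 (.s k63 k191 7 (.s k21 k42 6 (.s k23 k43 5 (.s k22 k20 0 (.d k41 k61
  k60 5 6)))))))] .n) (.c k213 (.q k1 [(.s k3 k2 0 (.s k169 k253 13 (.s k86 k252 14 (.d k87 k84 k171
  0 13)))), (.s k127 k64 6 (.s k63 k191 7 (.s k21 k42 6 (.s k61 k41 5 (.s k60 k62 0 (.s k125 k190 8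
  (.d k253 k189 k169 7 13))))))), (.s k64 k127 6 (.s k169 k253 13 (.s k192 k128 7 (.s k149 k63 14
  (.s k129 k189 5 (.s k66 k3 8 (.d k65 k193 k67 7 0))))))), (.s k3 k2 0 (.s k64 k127 6 (.s k192 k128
  7 (.s k66 k129 8 (.s k86 k126 5 (.d k87 k84 k171 0 13))))))] .n) (.c k234 (.l (.s k127 k64 6 (.s
  k63 k191 7 (.s k21 k42 6 (.d k149 k213 k192 7 14))))) .n))))))))))))

def t11_164 : T TT 256 :=
  (.f k255 k170 14 (.q k106 [(.s k64 k127 6 (.s k192 k128 7 (.s k149 k63 14 (.d k213 k234 k21 6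
  7))))] (.c k21 (.q k1 [(.s k3 k2 0 (.s k169 k253 13 (.s k86 k252 14 (.d k87 k84 k171 0 13)))), (.s
  k64 k127 6 (.s k192 k128 7 (.s k213 k234 6 (.s k253 k169 13 (.s k193 k233 5 (.s k65 k129 7 (.d
  k195 k130 k194 8 0))))))), (.s k3 k2 0 (.s k64 k127 6 (.s k192 k128 7 (.s k66 k129 8 (.s k86 k126
  5 (.d k87 k84 k171 0 13))))))] (.c k171 (.l (.s k3 k2 0 (.s k127 k64 6 (.s k63 k191 7 (.s k43 k23
  5 (.d k169 k232 k253 8 13)))))) .n)) (.c k63 (.q k1 [(.s k3 k2 0 (.s k169 k253 13 (.s k86 k252 14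
  (.d k87 k84 k171 0 13)))), (.s k64 k127 6 (.s k192 k128 7 (.s k213 k234 6 (.s k253 k169 13 (.s
  k193 k233 5 (.s k65 k129 7 (.d k195 k130 k194 8 0))))))), (.s k64 k127 6 (.s k169 k253 13 (.s k192
  k128 7 (.s k232 k43 8 (.s k252 k212 5 (.s k84 k168 13 (.d k86 k3 k87 14 0))))))), (.s k3 k2 0 (.s
  k64 k127 6 (.s k192 k128 7 (.s k66 k129 8 (.s k86 k126 5 (.d k87 k84 k171 0 13))))))] .n) (.c k64
  (.q k60 [(.s k20 k40 5 (.s k125 k190 8 (.s k150 k215 8 (.d k105 k65 k195 5 14)))), (.s k20 k40 5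
  (.s k150 k215 8 (.s k62 k194 13 (.s k63 k61 0 (.s k21 k42 6 (.d k149 k213 k192 7 14)))))), (.s
  k125 k190 8 (.s k105 k65 5 (.s k104 k107 0 (.s k192 k148 13 (.s k149 k63 14 (.d k213 k234 k21 6
  7))))))] (.c k105 (.q k87 [(.s k3 k171 13 (.s k1 k2 0 (.s k169 k253 13 (.d k86 k84 k252 0 14)))),
  (.s k86 k84 0 (.s k126 k66 5 (.s k190 k125 8 (.s k62 k254 7 (.s k150 k194 13 (.d k20 k40 k215 5
  8)))))), (.s k3 k171 13 (.s k2 k1 0 (.s k22 k41 6 (.s k42 k62 5 (.s k21 k63 6 (.d k20 k40 k23 5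
  0))))))] (.c k2 (.l (.s k3 k171 13 (.s k22 k41 6 (.s k86 k84 0 (.s k150 k214 7 (.d k20 k40 k215 5
  8)))))) (.c k40 (.q k235 [(.s k3 k171 13 (.s k1 k2 0 (.s k169 k253 13 (.d k86 k84 k252 0 14)))),
  (.s k86 k84 0 (.s k126 k66 5 (.s k190 k125 8 (.s k62 k254 7 (.s k150 k194 13 (.d k215 k195 k20 5
  8)))))), (.s k3 k171 13 (.s k22 k41 6 (.s k215 k195 5 (.s k20 k150 8 (.d k23 k21 k151 0 7)))))]
  .n) (.c k235 (.l (.s k40 k20 5 (.s k3 k171 13 (.s k1 k2 0 (.s k86 k84 0 (.d k169 k253 k252 13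
  14)))))) .n)))) (.c k150 (.q k149 [(.s k21 k213 7 (.d k63 k42 k192 6 14)), (.s k63 k192 14 (.s k61
  k62 0 (.s k105 k193 13 (.d k125 k190 k65 8 5))))] (.c k63 (.l (.s k213 k21 7 (.s k192 k234 6 (.s
  k104 k148 13 (.s k105 k107 0 (.d k125 k65 k190 5 8)))))) (.c k130 (.l (.s k190 k125 8 (.s k21 k213
  7 (.d k63 k42 k192 6 14)))) (.c k190 (.q k130 [(.s k21 k213 7 (.d k63 k42 k192 6 14)), (.s k63
  k192 14 (.s k61 k62 0 (.s k65 k195 8 (.d k105 k193 k125 13 5))))] (.c k63 (.l (.s k65 k195 8 (.s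
  k105 k125 5 (.s k213 k21 7 (.s k192 k234 6 (.d k104 k107 k148 0 13)))))) (.c k192 (.l (.s k21 k213
  7 (.s k63 k42 6 (.s k61 k62 0 (.s k65 k195 8 (.d k105 k193 k125 13 5)))))) .n))) (.c k192 (.l (.s
  k21 k213 7 (.s k63 k42 6 (.s k61 k62 0 (.s k105 k193 13 (.d k125 k65 k190 5 8)))))) .n))))) .n)))
  (.c k127 (.q k195 [(.s k65 k130 8 (.s k215 k235 5 (.s k150 k20 8 (.d k105 k125 k60 5 14)))), (.s
  k65 k130 8 (.s k105 k125 5 (.s k107 k104 0 (.s k63 k151 13 (.s k21 k42 6 (.d k149 k213 k192 7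
  14)))))), (.s k215 k235 5 (.s k150 k20 8 (.s k194 k62 13 (.s k192 k193 0 (.s k149 k63 14 (.d k213
  k234 k21 6 7))))))] (.c k105 (.q k149 [(.s k21 k213 7 (.d k63 k42 k192 6 14)), (.s k63 k192 14 (.s
  k151 k107 13 (.s k150 k148 0 (.d k215 k235 k20 5 8))))] (.c k40 (.l (.s k235 k215 5 (.s k21 k213 7
  (.d k63 k42 k192 6 14)))) (.c k63 (.l (.s k213 k21 7 (.s k192 k234 6 (.s k194 k193 0 (.s k150 k62
  13 (.d k215 k235 k20 5 8)))))) (.c k192 (.l (.s k21 k213 7 (.s k63 k42 6 (.s k151 k107 13 (.s k150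
  k148 0 (.d k215 k235 k20 5 8)))))) (.c k235 (.q k40 [(.s k21 k213 7 (.d k63 k42 k192 6 14)), (.s
  k20 k60 5 (.s k63 k192 14 (.s k150 k215 8 (.d k151 k148 k107 0 13))))] (.c k63 (.l (.s k20 k60 5
  (.s k150 k215 8 (.s k213 k21 7 (.s k192 k234 6 (.d k194 k62 k193 13 0)))))) (.c k192 (.l (.s k20
  k60 5 (.s k21 k213 7 (.s k63 k42 6 (.s k150 k215 8 (.d k151 k148 k107 0 13)))))) .n))) .n))))) (.c
  k150 (.q k149 [(.s k21 k213 7 (.d k63 k42 k192 6 14)), (.s k63 k192 14 (.s k107 k151 13 (.s k105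
  k104 0 (.d k65 k130 k125 8 5))))] (.c k63 (.l (.s k213 k21 7 (.s k192 k234 6 (.s k193 k194 0 (.s
  k105 k61 13 (.d k65 k125 k130 5 8)))))) (.c k130 (.q k190 [(.s k21 k213 7 (.d k63 k42 k192 6 14)),
  (.s k63 k192 14 (.s k107 k151 13 (.s k105 k104 0 (.d k125 k60 k65 8 5))))] (.c k63 (.l (.s k125
  k60 8 (.s k105 k65 5 (.s k213 k21 7 (.s k192 k234 6 (.d k193 k61 k194 13 0)))))) (.c k192 (.l (.s
  k21 k213 7 (.s k63 k42 6 (.s k107 k151 13 (.s k105 k104 0 (.d k125 k60 k65 8 5)))))) .n))) (.c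
  k190 (.l (.s k130 k65 8 (.s k21 k213 7 (.d k63 k42 k192 6 14)))) (.c k192 (.l (.s k21 k213 7 (.s
  k63 k42 6 (.s k107 k151 13 (.s k105 k104 0 (.d k65 k125 k130 5 8)))))) .n))))) .n))) (.c k128 (.l
  (.s k127 k64 6 (.s k63 k191 7 (.s k149 k192 14 (.d k21 k42 k213 6 7))))) (.c k149 (.f k127 k64 6
  (.f k191 k63 7 (.q k86 [(.s k84 k87 0 (.s k252 k168 13 (.s k253 k254 0 (.d k169 k1 k3 13 14)))),
  (.s k126 k66 5 (.s k125 k124 0 (.s k60 k190 8 (.s k20 k40 5 (.s k150 k215 8 (.d k105 k65 k195 5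
  14))))))] (.c k84 (.l (.s k126 k66 5 (.s k124 k125 0 (.s k67 k105 6 (.s k87 k107 5 (.s k3 k171 13
  (.s k1 k2 0 (.d k169 k253 k252 13 14)))))))) .n)))) (.c k191 (.l (.s k64 k127 6 (.s k192 k128 7
  (.s k149 k63 14 (.d k213 k234 k21 6 7))))) (.c k192 (.q k1 [(.s k3 k2 0 (.s k169 k253 13 (.s k86
  k252 14 (.d k87 k84 k171 0 13)))), (.s k127 k64 6 (.s k63 k191 7 (.s k21 k42 6 (.s k61 k41 5 (.s
  k253 k169 13 (.s k125 k189 7 (.d k60 k190 k62 8 0))))))), (.s k3 k2 0 (.s k127 k64 6 (.s k63 k191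
  7 (.s k21 k42 6 (.s k23 k43 5 (.s k22 k20 0 (.d k41 k61 k60 5 6)))))))] .n) (.c k213 (.q k1 [(.s
  k3 k2 0 (.s k169 k253 13 (.s k86 k252 14 (.d k87 k84 k171 0 13)))), (.s k127 k64 6 (.s k63 k191 7
  (.s k21 k42 6 (.s k61 k41 5 (.s k60 k62 0 (.s k125 k190 8 (.d k253 k189 k169 7 13))))))), (.s k64
  k127 6 (.s k169 k253 13 (.s k192 k128 7 (.s k149 k63 14 (.s k129 k189 5 (.s k66 k3 8 (.d k65 k193
  k67 7 0))))))), (.s k3 k2 0 (.s k64 k127 6 (.s k192 k128 7 (.s k66 k129 8 (.s k86 k126 5 (.d k87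
  k84 k171 0 13))))))] .n) (.c k234 (.l (.s k127 k64 6 (.s k63 k191 7 (.s k21 k42 6 (.d k149 k213
  k192 7 14))))) .n))))))))))))

def t11_165 : T TT 256 :=
  (.f k170 k255 14 (.q k3 [(.s k2 k1 0 (.s k86 k254 13 (.s k84 k87 0 (.d k252 k168 k169 13 14))))]
  (.c k1 (.q k128 [(.s k149 k191 6 (.s k21 k213 7 (.s k63 k42 6 (.d k192 k64 k106 7 14)))), (.s k192
  k64 7 (.s k129 k66 8 (.s k130 k131 0 (.s k150 k190 5 (.s k20 k215 8 (.s k60 k40 5 (.d k195 k65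
  k105 8 14)))))))] (.c k64 (.l (.s k149 k191 6 (.s k21 k213 7 (.s k63 k42 6 (.s k23 k43 5 (.s k86
  k212 8 (.s k84 k87 0 (.d k252 k168 k169 13 14)))))))) (.c k192 (.f k149 k191 6 (.q k63 [(.d k21
  k213 k42 7 6), (.s k23 k43 5 (.s k86 k212 8 (.s k84 k87 0 (.d k252 k168 k169 13 14))))] (.c k213
  (.q k234 [(.d k42 k21 k106 6 7), (.s k23 k43 5 (.s k86 k212 8 (.s k84 k87 0 (.d k252 k168 k169 13
  14))))] .n) (.c k234 (.l (.s k213 k21 7 (.s k23 k43 5 (.s k86 k212 8 (.s k84 k87 0 (.d k252 k168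
  k169 13 14)))))) .n)))) .n))) (.c k2 (.q k20 [(.s k60 k40 5 (.s k150 k215 8 (.s k130 k190 5 (.d
  k195 k65 k105 8 14)))), (.s k60 k40 5 (.s k22 k41 6 (.s k21 k23 0 (.s k149 k213 7 (.s k128 k191 6
  (.s k192 k64 7 (.d k63 k42 k106 6 14)))))))] (.c k40 (.l (.s k150 k215 8 (.s k130 k190 5 (.s k195
  k65 8 (.s k131 k67 7 (.s k169 k188 6 (.s k168 k171 0 (.d k252 k84 k86 13 14)))))))) (.c k60 (.f
  k150 k215 8 (.q k195 [(.d k130 k190 k65 5 8), (.s k131 k67 7 (.s k169 k188 6 (.s k168 k171 0 (.d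
  k252 k84 k86 13 14))))] (.c k125 (.l (.s k190 k130 5 (.s k131 k67 7 (.s k169 k188 6 (.s k168 k171
  0 (.d k252 k84 k86 13 14)))))) (.c k190 (.q k125 [(.d k65 k105 k130 5 8), (.s k131 k67 7 (.s k169
  k188 6 (.s k168 k171 0 (.d k252 k84 k86 13 14))))] .n) .n)))) .n))) (.c k84 (.q k4 [(.s k166 k247
  12 (.s k162 k174 1 (.s k243 k81 12 (.d k12 k8 k89 1 14)))), (.s k2 k1 0 (.s k12 k8 1 (.s k6 k9 2
  (.s k10 k14 1 (.d k5 k7 k15 0 2))))), (.s k1 k2 0 (.s k166 k247 12 (.s k169 k253 13 (.s k163 k172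
  2 (.s k243 k83 11 (.d k162 k174 k81 1 12))))))] .n) (.c k86 (.f k2 k1 0 (.q k240 [(.s k80 k160 11
  (.s k82 k161 12 (.s k162 k242 11 (.d k81 k83 k243 0 12)))), (.s k80 k160 11 (.s k90 k95 2 (.s k10
  k250 11 (.s k6 k14 1 (.s k12 k9 2 (.s k4 k8 1 (.d k5 k7 k15 0 2))))))), (.s k82 k161 12 (.s k162
  k242 11 (.s k166 k174 1 (.s k4 k247 12 (.s k12 k8 1 (.d k243 k81 k89 12 14))))))] (.c k7 (.q k244
  [(.s k80 k160 11 (.s k82 k161 12 (.s k162 k242 11 (.d k81 k83 k243 0 12)))), (.s k80 k160 11 (.s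
  k252 k248 1 (.s k84 k168 13 (.s k164 k4 11 (.d k88 k92 k12 1 13))))), (.s k82 k161 12 (.s k162
  k242 11 (.s k166 k174 1 (.s k4 k247 12 (.s k12 k8 1 (.d k164 k84 k88 11 13))))))] (.c k169 (.l (.s
  k80 k160 11 (.s k90 k95 2 (.s k252 k248 1 (.s k84 k168 13 (.s k88 k92 1 (.d k164 k4 k12 11
  13))))))) .n)) (.c k244 (.q k7 [(.s k80 k160 11 (.s k90 k95 2 (.s k10 k250 11 (.s k6 k14 1 (.d k5
  k15 k4 2 0))))), (.s k80 k160 11 (.s k82 k161 12 (.s k81 k83 0 (.d k162 k242 k243 11 12)))), (.s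
  k82 k161 12 (.s k162 k242 11 (.s k166 k174 1 (.s k4 k247 12 (.s k6 k5 0 (.d k12 k9 k8 2 1))))))]
  .n) .n)))) (.c k87 (.l (.s k1 k2 0 (.s k169 k253 13 (.s k168 k171 0 (.d k252 k84 k86 13 14)))))
  (.c k168 (.q k4 [(.s k166 k247 12 (.s k162 k174 1 (.s k243 k81 12 (.d k12 k8 k89 1 14)))), (.s k2
  k1 0 (.s k12 k8 1 (.s k6 k9 2 (.s k10 k14 1 (.d k5 k7 k15 0 2))))), (.s k1 k2 0 (.s k166 k247 12
  (.s k169 k253 13 (.s k163 k172 2 (.s k243 k83 11 (.d k162 k174 k81 1 12))))))] .n) (.c k169 (.q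
  k90 [(.s k2 k1 0 (.s k80 k95 2 (.s k86 k254 13 (.s k240 k160 11 (.d k82 k161 k94 12 1))))), (.s k2
  k1 0 (.s k10 k250 11 (.s k6 k14 1 (.s k12 k9 2 (.s k4 k8 1 (.d k5 k7 k15 0 2))))))] (.c k1 (.q
  k161 [(.s k240 k82 12 (.d k80 k95 k160 2 11)), (.s k82 k240 12 (.s k86 k94 1 (.s k2 k254 13 (.s
  k162 k242 11 (.s k163 k160 0 (.d k243 k83 k81 11 12))))))] (.c k82 (.l (.s k80 k95 2 (.s k160 k240
  11 (.s k162 k163 0 (.s k166 k174 1 (.s k4 k247 12 (.s k12 k8 1 (.d k243 k81 k89 12 14)))))))) (.c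
  k160 (.l (.s k80 k95 2 (.s k82 k240 12 (.s k81 k83 0 (.s k86 k94 1 (.s k2 k254 13 (.d k162 k242
  k243 11 12))))))) (.c k240 (.q k64 [(.s k106 k127 6 (.s k42 k234 7 (.s k192 k128 7 (.d k63 k21
  k149 6 14)))), (.s k80 k95 2 (.s k112 k96 3 (.s k101 k79 6 (.s k32 k239 10 (.s k48 k16 3 (.s k69
  k117 3 (.d k207 k138 k154 10 14)))))))] (.c k127 (.l (.s k80 k95 2 (.s k112 k96 3 (.s k79 k101 6
  (.s k69 k74 2 (.s k207 k138 10 (.s k15 k143 7 (.d k10 k5 k250 2 11)))))))) (.c k245 (.l (.s k250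
  k10 11 (.s k106 k127 6 (.s k42 k234 7 (.s k63 k21 6 (.d k192 k128 k149 7 14)))))) (.c k250 (.q
  k245 [(.s k106 k127 6 (.s k42 k234 7 (.s k192 k128 7 (.d k63 k21 k149 6 14)))), (.s k80 k95 2 (.s
  k112 k96 3 (.s k101 k79 6 (.s k32 k239 10 (.s k48 k16 3 (.s k69 k117 3 (.d k207 k138 k154 10
  14)))))))] (.c k127 (.l (.s k192 k128 7 (.s k66 k129 8 (.s k65 k67 0 (.s k105 k125 5 (.s k40 k235
  8 (.s k60 k20 5 (.d k195 k130 k150 8 14)))))))) .n)) .n)))) .n)))) (.c k2 (.f k95 k80 2 (.q k64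
  [(.s k106 k127 6 (.s k42 k234 7 (.s k63 k21 6 (.d k192 k128 k149 7 14)))), (.s k127 k106 6 (.s k79
  k111 3 (.s k69 k74 2 (.d k101 k117 k112 3 6)))), (.s k10 k250 11 (.s k15 k5 2 (.s k192 k128 7 (.s
  k74 k133 10 (.s k69 k79 2 (.d k138 k202 k207 7 10))))))] (.c k161 (.q k173 [(.s k106 k127 6 (.s
  k42 k234 7 (.s k63 k21 6 (.d k192 k128 k149 7 14)))), (.s k127 k106 6 (.s k79 k111 3 (.s k69 k74 2
  (.d k101 k117 k112 3 6)))), (.s k10 k250 11 (.s k15 k5 2 (.s k192 k128 7 (.s k74 k133 10 (.s k69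
  k79 2 (.d k138 k202 k207 7 10))))))] .n) (.c k173 (.q k161 [(.s k106 k127 6 (.s k42 k234 7 (.s k63
  k21 6 (.d k192 k128 k149 7 14)))), (.s k127 k106 6 (.s k79 k111 3 (.s k69 k74 2 (.d k101 k117 k112
  3 6)))), (.s k10 k250 11 (.s k15 k5 2 (.s k192 k128 7 (.s k74 k133 10 (.s k69 k79 2 (.d k138 k202
  k207 7 10))))))] .n) .n)))) (.c k15 (.l (.s k2 k1 0 (.s k10 k250 11 (.s k14 k6 1 (.s k86 k254 13
  (.s k82 k94 1 (.d k242 k162 k166 11 13))))))) (.c k161 (.q k173 [(.s k2 k1 0 (.s k86 k254 13 (.s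
  k84 k87 0 (.s k94 k82 1 (.d k252 k15 k168 12 13))))), (.s k2 k1 0 (.s k10 k250 11 (.s k5 k15 2 (.s
  k6 k14 1 (.s k12 k9 2 (.d k4 k7 k8 0 1)))))), (.s k10 k250 11 (.s k15 k5 2 (.s k94 k252 12 (.s k86
  k82 1 (.d k2 k254 k1 13 0)))))] (.c k1 (.f k10 k250 11 (.l (.s k15 k5 2 (.s k94 k252 12 (.s k86
  k82 1 (.s k87 k84 0 (.s k95 k80 2 (.s k83 k91 1 (.d k92 k93 k89 0 2))))))))) (.c k2 (.q k4 [(.s
  k12 k8 1 (.s k166 k247 12 (.s k162 k174 1 (.d k243 k81 k89 12 14)))), (.s k10 k250 11 (.s k5 k15 2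
  (.s k6 k7 0 (.d k12 k8 k9 1 2)))), (.s k10 k250 11 (.s k15 k5 2 (.s k94 k252 12 (.s k166 k247 12
  (.s k14 k242 13 (.d k174 k162 k254 1 11))))))] (.c k10 (.l (.s k166 k247 12 (.s k162 k174 1 (.s
  k243 k81 12 (.d k12 k8 k89 1 14))))) .n)) (.c k15 (.l (.s k2 k1 0 (.s k10 k250 11 (.s k14 k6 1 (.s
  k86 k254 13 (.s k82 k94 1 (.d k242 k162 k166 11 13))))))) .n)))) (.c k173 (.q k161 [(.s k240 k82
  12 (.d k80 k95 k160 2 11)), (.s k2 k1 0 (.s k82 k240 12 (.d k86 k94 k254 1 13)))] (.c k82 (.l (.s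
  k1 k2 0 (.s k80 k95 2 (.s k81 k241 11 (.s k160 k240 11 (.d k162 k243 k163 12 0)))))) (.c k240 (.l
  (.s k1 k2 0 (.s k80 k95 2 (.s k81 k241 11 (.s k83 k82 0 (.d k243 k162 k163 12 11)))))) .n))) (.c
  k240 (.l (.s k2 k1 0 (.s k80 k95 2 (.s k86 k254 13 (.s k82 k94 1 (.s k81 k83 0 (.d k162 k242 k243
  11 12))))))) .n))))))) (.c k252 (.f k2 k1 0 (.q k42 [(.s k106 k234 7 (.s k64 k127 6 (.s k192 k128
  7 (.d k63 k21 k149 6 14)))), (.s k22 k62 5 (.s k60 k41 6 (.s k20 k40 5 (.s k150 k215 8 (.d k86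
  k254 k214 13 7)))))] (.c k21 (.l (.s k62 k22 5 (.s k106 k234 7 (.s k150 k194 13 (.s k190 k130 5
  (.d k254 k126 k86 7 13)))))) (.c k253 (.l (.s k254 k86 13 (.s k21 k63 6 (.s k22 k62 5 (.s k20 k23
  0 (.d k60 k40 k41 5 6)))))) (.c k254 (.q k253 [(.s k63 k21 6 (.s k43 k23 5 (.s k41 k40 0 (.d k22
  k62 k60 5 6)))), (.s k106 k234 7 (.s k64 k127 6 (.s k192 k128 7 (.d k63 k21 k149 6 14))))] (.c k21
  (.l (.s k62 k22 5 (.s k106 k234 7 (.s k64 k127 6 (.s k192 k128 7 (.s k66 k129 8 (.d k194 k130 k150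
  7 13))))))) (.c k63 (.l (.s k22 k62 5 (.s k60 k41 6 (.s k20 k40 5 (.s k150 k215 8 (.s k195 k105 14
  (.d k130 k190 k65 5 8))))))) .n))) .n))))) (.c k253 (.l (.s k2 k1 0 (.s k86 k254 13 (.s k252 k169
  14 (.d k84 k87 k168 0 13))))) (.c k254 (.l (.s k1 k2 0 (.s k169 k253 13 (.s k252 k86 14 (.d k168
  k171 k84 0 13))))) .n))))))))))))

def t11_166 : T TT 256 :=
  (.f k170 k255 14 (.q k3 [(.s k2 k1 0 (.s k86 k254 13 (.s k84 k87 0 (.d k252 k168 k169 13 14))))]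
  (.c k1 (.q k64 [(.s k106 k127 6 (.s k42 k234 7 (.s k192 k128 7 (.d k63 k21 k149 6 14)))), (.s k192
  k128 7 (.s k66 k129 8 (.s k65 k67 0 (.s k105 k125 5 (.s k40 k235 8 (.s k60 k20 5 (.d k195 k130
  k150 8 14)))))))] (.c k128 (.l (.s k106 k127 6 (.s k42 k234 7 (.s k63 k21 6 (.s k43 k23 5 (.s k169
  k232 8 (.s k168 k171 0 (.d k252 k84 k86 13 14)))))))) (.c k192 (.f k106 k127 6 (.q k63 [(.d k42
  k234 k21 7 6), (.s k43 k23 5 (.s k169 k232 8 (.s k168 k171 0 (.d k252 k84 k86 13 14))))] (.c k213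
  (.l (.s k234 k42 7 (.s k43 k23 5 (.s k169 k232 8 (.s k168 k171 0 (.d k252 k84 k86 13 14)))))) (.c
  k234 (.q k213 [(.d k21 k42 k149 6 7), (.s k43 k23 5 (.s k169 k232 8 (.s k168 k171 0 (.d k252 k84
  k86 13 14))))] .n) .n)))) .n))) (.c k2 (.q k128 [(.s k149 k191 6 (.s k21 k213 7 (.s k192 k64 7 (.d
  k63 k42 k106 6 14)))), (.s k192 k64 7 (.s k129 k66 8 (.s k130 k131 0 (.s k150 k190 5 (.s k20 k215
  8 (.s k60 k40 5 (.d k195 k65 k105 8 14)))))))] (.c k64 (.l (.s k149 k191 6 (.s k21 k213 7 (.s k63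
  k42 6 (.s k23 k43 5 (.s k86 k212 8 (.s k84 k87 0 (.d k252 k168 k169 13 14)))))))) (.c k192 (.f
  k149 k191 6 (.q k63 [(.d k21 k213 k42 7 6), (.s k23 k43 5 (.s k86 k212 8 (.s k84 k87 0 (.d k252
  k168 k169 13 14))))] (.c k213 (.q k234 [(.d k42 k21 k106 6 7), (.s k23 k43 5 (.s k86 k212 8 (.s
  k84 k87 0 (.d k252 k168 k169 13 14))))] .n) (.c k234 (.l (.s k213 k21 7 (.s k23 k43 5 (.s k86 k212
  8 (.s k84 k87 0 (.d k252 k168 k169 13 14)))))) .n)))) .n))) (.c k84 (.q k5 [(.s k15 k10 2 (.s k165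
  k245 11 (.s k160 k175 2 (.d k240 k80 k90 11 14)))), (.s k1 k2 0 (.s k9 k13 1 (.s k12 k6 2 (.s k8
  k4 1 (.s k89 k251 12 (.d k169 k249 k253 11 13)))))), (.s k165 k245 11 (.s k160 k175 2 (.s k240 k80
  11 (.d k15 k10 k90 2 14))))] (.c k10 (.l (.s k1 k2 0 (.s k9 k13 1 (.s k169 k253 13 (.s k89 k249 11
  (.s k8 k251 12 (.d k12 k6 k4 2 1))))))) .n)) (.c k86 (.f k2 k1 0 (.q k18 [(.s k33 k48 4 (.s k34
  k50 3 (.s k35 k32 0 (.d k51 k19 k17 3 4)))), (.s k34 k50 3 (.s k102 k238 9 (.s k68 k119 4 (.s k204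
  k136 9 (.d k51 k17 k153 4 14))))), (.s k48 k33 4 (.s k32 k16 3 (.s k101 k239 10 (.s k69 k117 3 (.d
  k207 k138 k154 10 14)))))] (.c k6 (.q k246 [(.s k33 k48 4 (.s k34 k50 3 (.s k35 k32 0 (.d k51 k19
  k17 3 4)))), (.s k34 k50 3 (.s k102 k238 9 (.s k68 k119 4 (.s k204 k136 9 (.d k51 k17 k153 4
  14))))), (.s k48 k33 4 (.s k32 k16 3 (.s k101 k239 10 (.s k69 k117 3 (.d k207 k138 k154 10
  14)))))] (.c k17 (.l (.s k33 k48 4 (.s k34 k50 3 (.s k35 k32 0 (.s k51 k19 3 (.s k102 k238 9 (.s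
  k68 k119 4 (.d k204 k153 k136 14 9)))))))) .n)) (.c k17 (.l (.s k33 k48 4 (.s k34 k50 3 (.s k35
  k32 0 (.s k51 k19 3 (.s k102 k238 9 (.s k68 k119 4 (.d k204 k153 k136 14 9)))))))) (.c k246 (.q k6
  [(.s k33 k48 4 (.s k34 k50 3 (.s k35 k32 0 (.d k51 k19 k17 3 4)))), (.s k10 k14 1 (.s k5 k15 2 (.s
  k4 k7 0 (.d k12 k8 k9 1 2))))] .n) .n))))) (.c k87 (.l (.s k1 k2 0 (.s k169 k253 13 (.s k168 k171
  0 (.d k252 k84 k86 13 14))))) (.c k168 (.q k5 [(.s k165 k245 11 (.s k160 k175 2 (.s k240 k80 11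
  (.d k15 k10 k90 2 14)))), (.s k1 k2 0 (.s k9 k13 1 (.s k12 k6 2 (.s k8 k4 1 (.s k89 k251 12 (.d
  k169 k249 k253 11 13))))))] (.c k10 (.l (.s k1 k2 0 (.s k9 k13 1 (.s k169 k253 13 (.s k89 k249 11
  (.s k8 k251 12 (.d k12 k6 k4 2 1))))))) .n)) (.c k169 (.f k2 k1 0 (.q k90 [(.s k10 k250 11 (.s k80
  k95 2 (.s k240 k160 11 (.d k15 k5 k165 2 14)))), (.s k80 k95 2 (.s k86 k254 13 (.s k82 k94 1 (.s
  k81 k83 0 (.d k162 k242 k243 11 12))))), (.s k10 k250 11 (.s k6 k14 1 (.s k12 k9 2 (.s k4 k8 1 (.d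
  k5 k7 k15 0 2)))))] (.c k15 (.l (.s k86 k254 13 (.s k82 k94 1 (.s k240 k161 12 (.d k80 k95 k160 2
  11))))) (.c k163 (.q k172 [(.s k10 k250 11 (.s k15 k5 2 (.s k80 k95 2 (.d k240 k160 k165 11
  14)))), (.s k80 k95 2 (.s k86 k254 13 (.s k82 k94 1 (.s k81 k83 0 (.d k162 k242 k243 11 12))))),
  (.s k10 k250 11 (.s k6 k14 1 (.s k12 k9 2 (.s k4 k8 1 (.d k5 k7 k15 0 2)))))] (.c k15 (.l (.s k86
  k254 13 (.s k82 k94 1 (.s k240 k161 12 (.d k80 k160 k95 11 2))))) .n)) (.c k172 (.q k163 [(.s k10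
  k250 11 (.s k15 k5 2 (.s k80 k95 2 (.d k240 k160 k165 11 14)))), (.s k83 k243 11 (.s k86 k254 13
  (.s k82 k94 1 (.d k80 k81 k95 0 2)))), (.s k86 k254 13 (.s k82 k94 1 (.s k161 k240 12 (.d k162
  k160 k242 0 11))))] .n) .n))))) (.c k252 (.f k2 k1 0 (.q k34 [(.s k102 k238 9 (.s k68 k119 4 (.s
  k204 k136 9 (.d k51 k17 k153 4 14)))), (.s k18 k50 3 (.s k48 k33 4 (.s k16 k32 3 (.s k154 k223 10
  (.d k86 k254 k222 13 9)))))] (.c k17 (.l (.s k50 k18 3 (.s k102 k238 9 (.s k154 k206 13 (.s k186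
  k138 3 (.d k254 k118 k86 9 13)))))) (.c k253 (.l (.s k254 k86 13 (.s k17 k51 4 (.s k18 k50 3 (.s
  k16 k19 0 (.d k48 k32 k33 3 4)))))) (.c k254 (.q k253 [(.s k51 k17 4 (.s k35 k19 3 (.s k33 k32 0
  (.d k18 k50 k48 3 4)))), (.s k102 k238 9 (.s k68 k119 4 (.s k204 k136 9 (.d k51 k17 k153 4 14))))]
  (.c k17 (.l (.s k50 k18 3 (.s k102 k238 9 (.s k68 k119 4 (.s k204 k136 9 (.s k70 k137 10 (.d k206
  k138 k154 9 13))))))) (.c k51 (.l (.s k18 k50 3 (.s k48 k33 4 (.s k16 k32 3 (.s k154 k223 10 (.s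
  k207 k101 14 (.d k138 k186 k69 3 10))))))) .n))) .n))))) (.c k253 (.l (.s k2 k1 0 (.s k86 k254 13
  (.s k252 k169 14 (.d k84 k87 k168 0 13))))) (.c k254 (.l (.s k1 k2 0 (.s k169 k253 13 (.s k252 k86
  14 (.d k168 k171 k84 0 13))))) .n))))))))))))

def t11_167 : T TT 256 :=
  (.f k255 k170 14 (.q k106 [(.s k64 k127 6 (.s k192 k128 7 (.s k149 k63 14 (.d k213 k234 k21 6
  7))))] (.c k21 (.q k1 [(.s k3 k2 0 (.s k169 k253 13 (.s k86 k252 14 (.d k87 k84 k171 0 13)))), (.s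
  k64 k127 6 (.s k192 k128 7 (.s k213 k234 6 (.s k253 k169 13 (.s k193 k233 5 (.s k65 k129 7 (.d
  k195 k130 k194 8 0))))))), (.s k3 k2 0 (.s k64 k127 6 (.s k192 k128 7 (.s k66 k129 8 (.s k86 k126
  5 (.d k87 k84 k171 0 13))))))] (.c k171 (.l (.s k3 k2 0 (.s k127 k64 6 (.s k63 k191 7 (.s k43 k23
  5 (.d k169 k232 k253 8 13)))))) .n)) (.c k63 (.q k1 [(.s k3 k2 0 (.s k169 k253 13 (.s k86 k252 14
  (.d k87 k84 k171 0 13)))), (.s k64 k127 6 (.s k192 k128 7 (.s k213 k234 6 (.s k253 k169 13 (.s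
  k193 k233 5 (.s k65 k129 7 (.d k195 k130 k194 8 0))))))), (.s k64 k127 6 (.s k169 k253 13 (.s k192
  k128 7 (.s k232 k43 8 (.s k252 k212 5 (.s k84 k168 13 (.d k86 k3 k87 14 0))))))), (.s k3 k2 0 (.s
  k64 k127 6 (.s k192 k128 7 (.s k66 k129 8 (.s k86 k126 5 (.d k87 k84 k171 0 13))))))] .n) (.c k64
  (.q k60 [(.s k20 k40 5 (.s k125 k190 8 (.s k150 k215 8 (.d k105 k65 k195 5 14)))), (.s k20 k40 5
  (.s k150 k215 8 (.s k62 k194 13 (.s k63 k61 0 (.s k21 k42 6 (.d k149 k213 k192 7 14)))))), (.s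
  k125 k190 8 (.s k105 k65 5 (.s k104 k107 0 (.s k192 k148 13 (.s k149 k63 14 (.d k213 k234 k21 6
  7))))))] (.c k105 (.q k86 [(.s k84 k87 0 (.s k252 k168 13 (.s k253 k254 0 (.d k169 k1 k3 13
  14)))), (.s k126 k66 5 (.s k190 k125 8 (.s k62 k254 7 (.s k150 k194 13 (.d k20 k40 k215 5 8)))))]
  (.c k40 (.q k235 [(.s k84 k87 0 (.s k252 k168 13 (.s k253 k254 0 (.d k169 k1 k3 13 14)))), (.s
  k126 k66 5 (.s k190 k125 8 (.s k62 k254 7 (.s k150 k194 13 (.d k215 k195 k20 5 8)))))] (.c k254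
  (.l (.s k87 k84 0 (.s k3 k171 13 (.s k1 k2 0 (.d k169 k253 k252 13 14))))) .n)) (.c k235 (.l (.s
  k40 k20 5 (.s k84 k87 0 (.s k252 k168 13 (.s k169 k3 14 (.d k253 k254 k1 0 13)))))) (.c k254 (.l
  (.s k87 k84 0 (.s k3 k171 13 (.s k1 k2 0 (.d k169 k253 k252 13 14))))) .n)))) (.c k150 (.q k69
  [(.s k101 k117 3 (.s k207 k138 10 (.s k154 k48 14 (.d k223 k239 k16 3 10)))), (.s k101 k117 3 (.s
  k207 k138 10 (.s k109 k158 12 (.s k105 k97 1 (.d k125 k190 k65 8 5))))), (.s k190 k125 8 (.s k207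
  k138 10 (.s k158 k109 12 (.s k174 k142 3 (.s k93 k12 12 (.d k223 k239 k28 3 8))))))] (.c k130 (.l
  (.s k190 k125 8 (.s k101 k117 3 (.s k207 k138 10 (.s k154 k48 14 (.d k223 k239 k16 3 10)))))) (.c
  k138 (.l (.s k117 k101 3 (.s k186 k48 10 (.s k190 k125 8 (.s k182 k178 1 (.s k243 k121 10 (.d k247
  k52 k251 8 1))))))) (.c k154 (.l (.s k20 k40 5 (.s k117 k101 3 (.s k48 k186 10 (.s k138 k207 10
  (.s k52 k56 1 (.s k4 k36 3 (.d k247 k166 k182 12 8)))))))) (.c k186 (.l (.s k101 k117 3 (.s k207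
  k138 10 (.s k154 k48 14 (.d k223 k239 k16 3 10))))) (.c k190 (.q k130 [(.s k101 k117 3 (.s k207
  k138 10 (.s k154 k48 14 (.d k223 k239 k16 3 10)))), (.s k65 k195 8 (.s k77 k73 1 (.s k125 k105 5
  (.s k109 k93 3 (.d k207 k138 k158 10 12))))), (.s k65 k195 8 (.s k77 k73 1 (.s k101 k117 3 (.s k89
  k113 5 (.s k93 k81 1 (.d k125 k109 k105 3 5))))))] .n) (.c k207 (.l (.s k20 k40 5 (.s k117 k101 3
  (.s k48 k186 10 (.s k52 k56 1 (.s k4 k36 3 (.d k247 k166 k182 12 8))))))) .n))))))) .n))) (.c k127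
  (.q k195 [(.s k65 k130 8 (.s k215 k235 5 (.s k150 k20 8 (.d k105 k125 k60 5 14)))), (.s k65 k130 8
  (.s k105 k125 5 (.s k107 k104 0 (.s k63 k151 13 (.s k21 k42 6 (.d k149 k213 k192 7 14)))))), (.s
  k215 k235 5 (.s k150 k20 8 (.s k194 k62 13 (.s k192 k193 0 (.s k149 k63 14 (.d k213 k234 k21 6
  7))))))] (.c k105 (.q k149 [(.s k21 k213 7 (.d k63 k42 k192 6 14)), (.s k63 k192 14 (.s k151 k107
  13 (.s k150 k148 0 (.d k215 k235 k20 5 8))))] (.c k40 (.l (.s k235 k215 5 (.s k21 k213 7 (.d k63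
  k42 k192 6 14)))) (.c k63 (.l (.s k213 k21 7 (.s k192 k234 6 (.s k194 k193 0 (.s k150 k62 13 (.d
  k215 k235 k20 5 8)))))) (.c k192 (.l (.s k21 k213 7 (.s k63 k42 6 (.s k151 k107 13 (.s k150 k148 0
  (.d k215 k235 k20 5 8)))))) (.c k235 (.q k40 [(.s k21 k213 7 (.d k63 k42 k192 6 14)), (.s k20 k60
  5 (.s k63 k192 14 (.s k150 k215 8 (.d k151 k148 k107 0 13))))] (.c k63 (.l (.s k20 k60 5 (.s k150
  k215 8 (.s k213 k21 7 (.s k192 k234 6 (.d k194 k62 k193 13 0)))))) (.c k192 (.l (.s k20 k60 5 (.s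
  k21 k213 7 (.s k63 k42 6 (.s k150 k215 8 (.d k151 k148 k107 0 13)))))) .n))) .n))))) (.c k150 (.q
  k149 [(.s k21 k213 7 (.d k63 k42 k192 6 14)), (.s k63 k192 14 (.s k107 k151 13 (.s k105 k104 0 (.d
  k65 k130 k125 8 5))))] (.c k63 (.l (.s k213 k21 7 (.s k192 k234 6 (.s k193 k194 0 (.s k105 k61 13
  (.d k65 k125 k130 5 8)))))) (.c k130 (.q k190 [(.s k21 k213 7 (.d k63 k42 k192 6 14)), (.s k63
  k192 14 (.s k107 k151 13 (.s k105 k104 0 (.d k125 k60 k65 8 5))))] (.c k63 (.l (.s k125 k60 8 (.s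
  k105 k65 5 (.s k213 k21 7 (.s k192 k234 6 (.d k193 k61 k194 13 0)))))) (.c k192 (.l (.s k21 k213 7
  (.s k63 k42 6 (.s k107 k151 13 (.s k105 k104 0 (.d k125 k60 k65 8 5)))))) .n))) (.c k190 (.l (.s
  k130 k65 8 (.s k21 k213 7 (.d k63 k42 k192 6 14)))) (.c k192 (.l (.s k21 k213 7 (.s k63 k42 6 (.s
  k107 k151 13 (.s k105 k104 0 (.d k65 k125 k130 5 8)))))) .n))))) .n))) (.c k128 (.l (.s k127 k64 6
  (.s k63 k191 7 (.s k149 k192 14 (.d k21 k42 k213 6 7))))) (.c k149 (.f k127 k64 6 (.f k191 k63 7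
  (.q k86 [(.s k84 k87 0 (.s k252 k168 13 (.s k253 k254 0 (.d k169 k1 k3 13 14)))), (.s k126 k66 5
  (.s k125 k124 0 (.s k60 k190 8 (.s k20 k40 5 (.s k150 k215 8 (.d k105 k65 k195 5 14))))))] (.c k84
  (.l (.s k126 k66 5 (.s k124 k125 0 (.s k67 k105 6 (.s k87 k107 5 (.s k3 k171 13 (.s k1 k2 0 (.d
  k169 k253 k252 13 14)))))))) .n)))) (.c k191 (.l (.s k64 k127 6 (.s k192 k128 7 (.s k149 k63 14
  (.d k213 k234 k21 6 7))))) (.c k192 (.q k1 [(.s k3 k2 0 (.s k169 k253 13 (.s k86 k252 14 (.d k87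
  k84 k171 0 13)))), (.s k127 k64 6 (.s k63 k191 7 (.s k21 k42 6 (.s k61 k41 5 (.s k253 k169 13 (.s
  k125 k189 7 (.d k60 k190 k62 8 0))))))), (.s k3 k2 0 (.s k127 k64 6 (.s k63 k191 7 (.s k21 k42 6
  (.s k23 k43 5 (.s k22 k20 0 (.d k41 k61 k60 5 6)))))))] .n) (.c k213 (.q k1 [(.s k3 k2 0 (.s k169
  k253 13 (.s k86 k252 14 (.d k87 k84 k171 0 13)))), (.s k127 k64 6 (.s k63 k191 7 (.s k21 k42 6 (.s
  k61 k41 5 (.s k60 k62 0 (.s k125 k190 8 (.d k253 k189 k169 7 13))))))), (.s k64 k127 6 (.s k169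
  k253 13 (.s k192 k128 7 (.s k149 k63 14 (.s k129 k189 5 (.s k66 k3 8 (.d k65 k193 k67 7 0))))))),
  (.s k3 k2 0 (.s k64 k127 6 (.s k192 k128 7 (.s k66 k129 8 (.s k86 k126 5 (.d k87 k84 k171 0
  13))))))] .n) (.c k234 (.l (.s k127 k64 6 (.s k63 k191 7 (.s k21 k42 6 (.d k149 k213 k192 7
  14))))) .n))))))))))))

def t11_168 : T TT 256 :=
  (.f k170 k255 14 (.q k243 [(.s k81 k162 12 (.s k89 k93 1 (.s k12 k166 14 (.d k8 k4 k251 1 12))))]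
  (.c k4 (.q k1 [(.s k3 k2 0 (.s k81 k162 12 (.s k83 k163 11 (.s k82 k80 0 (.d k161 k241 k240 11
  12))))), (.s k81 k162 12 (.s k89 k93 1 (.s k169 k253 13 (.s k9 k249 11 (.s k13 k5 1 (.d k241 k161
  k165 11 13)))))), (.s k3 k2 0 (.s k163 k83 11 (.s k169 k253 13 (.s k166 k172 2 (.s k12 k89 14 (.s
  k6 k9 2 (.d k86 k252 k246 14 11)))))))] .n) (.c k8 (.f k162 k81 12 (.q k10 [(.s k15 k5 2 (.s k90
  k250 11 (.s k80 k95 2 (.d k240 k160 k165 11 14)))), (.s k15 k5 2 (.s k166 k174 1 (.s k12 k89 14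
  (.s k14 k13 0 (.s k2 k6 1 (.d k242 k82 k90 11 13)))))), (.s k90 k250 11 (.s k166 k174 1 (.s k242
  k14 13 (.s k240 k241 0 (.d k80 k95 k160 2 11)))))] (.c k88 (.q k248 [(.s k15 k5 2 (.s k90 k250 11
  (.s k80 k95 2 (.d k240 k160 k165 11 14)))), (.s k15 k5 2 (.s k166 k174 1 (.s k12 k89 14 (.s k14
  k13 0 (.s k2 k6 1 (.d k242 k90 k82 13 11)))))), (.s k90 k250 11 (.s k166 k174 1 (.s k242 k14 13
  (.s k240 k241 0 (.d k80 k95 k160 2 11)))))] (.c k90 (.l (.s k5 k15 2 (.s k165 k245 11 (.s k166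
  k174 1 (.s k4 k247 12 (.s k7 k6 0 (.s k164 k167 0 (.d k244 k84 k86 11 12)))))))) .n)) (.c k90 (.l
  (.s k5 k15 2 (.s k165 k245 11 (.s k166 k174 1 (.s k4 k247 12 (.s k7 k6 0 (.s k164 k167 0 (.d k244
  k84 k86 11 12)))))))) (.c k248 (.q k88 [(.s k15 k5 2 (.s k91 k167 13 (.d k90 k89 k250 0 11))), (.s
  k90 k250 11 (.s k89 k91 0 (.d k166 k174 k12 1 14))), (.s k15 k5 2 (.s k90 k250 11 (.s k80 k95 2
  (.d k240 k160 k165 11 14))))] (.c k90 (.q k169 [(.s k1 k253 13 (.s k3 k2 0 (.s k163 k83 11 (.d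
  k166 k174 k172 1 2)))), (.s k5 k15 2 (.s k165 k245 11 (.s k161 k173 1 (.d k160 k175 k163 2 0)))),
  (.s k15 k5 2 (.s k166 k174 1 (.s k12 k89 14 (.s k164 k240 13 (.d k167 k165 k91 0 13)))))] (.c k252
  (.l (.s k166 k174 1 (.s k163 k172 2 (.s k3 k83 11 (.d k1 k2 k253 0 13))))) .n)) (.c k169 (.l (.s
  k90 k250 11 (.s k15 k5 2 (.d k91 k89 k167 0 13)))) (.c k250 (.l (.s k15 k5 2 (.s k91 k167 13 (.s
  k166 k174 1 (.d k89 k12 k90 14 0))))) .n)))) .n))))) (.c k12 (.f k162 k81 12 (.q k2 [(.s k3 k1 0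
  (.s k82 k242 11 (.s k163 k83 11 (.d k161 k160 k240 0 12)))), (.s k242 k82 11 (.s k254 k86 13 (.s
  k250 k246 1 (.s k90 k10 11 (.d k166 k174 k14 1 13))))), (.s k3 k1 0 (.s k86 k254 13 (.s k252 k169
  14 (.s k246 k249 2 (.d k166 k174 k6 1 11)))))] (.c k93 (.l (.s k174 k166 1 (.s k3 k1 0 (.s k82
  k242 11 (.s k161 k240 12 (.d k163 k160 k83 0 11)))))) (.c k174 (.q k93 [(.s k3 k1 0 (.s k82 k242
  11 (.s k163 k83 11 (.d k161 k160 k240 0 12)))), (.s k242 k82 11 (.s k254 k86 13 (.s k250 k246 1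
  (.s k90 k10 11 (.s k80 k95 2 (.d k240 k241 k160 0 11)))))), (.s k3 k1 0 (.s k83 k163 11 (.s k86
  k254 13 (.s k87 k84 0 (.s k92 k89 2 (.d k95 k94 k91 0 1))))))] (.c k83 (.l (.s k3 k1 0 (.s k82
  k242 11 (.s k86 k254 13 (.s k161 k240 12 (.s k160 k163 0 (.s k165 k175 2 (.d k169 k173 k252 1
  14)))))))) (.c k241 (.l (.s k82 k242 11 (.s k3 k1 0 (.s k161 k240 12 (.d k163 k160 k83 0 11)))))
  .n))) .n)))) (.c k81 (.q k165 [(.s k5 k245 11 (.s k15 k10 2 (.s k160 k175 2 (.d k240 k80 k90 11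
  14)))), (.s k160 k175 2 (.s k240 k80 11 (.s k241 k242 0 (.s k89 k13 13 (.s k8 k251 12 (.d k12 k4
  k166 1 14)))))), (.s k5 k245 11 (.s k15 k10 2 (.s k167 k91 13 (.s k240 k90 14 (.s k241 k242 0 (.s
  k89 k13 13 (.d k166 k164 k12 0 14)))))))] (.c k8 (.l (.s k5 k245 11 (.s k160 k175 2 (.s k240 k80
  11 (.d k15 k10 k90 2 14))))) (.c k15 (.q k3 [(.s k1 k2 0 (.s k163 k83 11 (.s k169 k253 13 (.s k161
  k173 1 (.d k160 k175 k162 2 0))))), (.s k1 k2 0 (.s k5 k245 11 (.s k9 k13 1 (.s k12 k6 2 (.s k4 k8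
  1 (.d k166 k247 k89 12 14)))))), (.s k163 k83 11 (.s k175 k160 2 (.s k167 k171 1 (.s k166 k164 0
  (.s k172 k169 2 (.d k174 k173 k162 0 1))))))] (.c k95 (.l (.s k175 k160 2 (.s k1 k2 0 (.s k163 k83
  11 (.s k167 k171 1 (.s k169 k253 13 (.d k166 k164 k172 0 2))))))) (.c k175 (.q k95 [(.s k83 k163
  11 (.s k87 k91 1 (.s k86 k84 0 (.d k2 k1 k254 0 13)))), (.s k80 k90 2 (.s k240 k160 11 (.s k241
  k242 0 (.s k89 k13 13 (.s k8 k251 12 (.d k12 k166 k4 14 1)))))), (.s k1 k2 0 (.s k80 k90 2 (.s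
  k169 k253 13 (.s k161 k173 1 (.d k240 k160 k82 11 12)))))] .n) .n))) (.c k240 (.q k2 [(.s k3 k1 0
  (.s k83 k163 11 (.s k86 k254 13 (.s k89 k92 2 (.s k8 k251 12 (.d k12 k4 k166 1 14)))))), (.s k86
  k254 13 (.s k7 k244 12 (.s k87 k84 0 (.s k167 k247 11 (.s k15 k91 13 (.d k5 k245 k10 11 2)))))),
  (.s k3 k1 0 (.s k163 k83 11 (.s k175 k160 2 (.s k167 k171 1 (.s k166 k164 0 (.s k172 k169 2 (.d
  k174 k173 k162 0 1))))))), (.s k3 k1 0 (.s k86 k254 13 (.s k160 k175 2 (.s k163 k83 11 (.s k161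
  k162 0 (.d k169 k252 k173 14 1))))))] (.c k245 (.q k250 [(.s k90 k10 11 (.s k254 k86 13 (.s k242
  k246 1 (.s k166 k14 13 (.d k162 k174 k82 1 11))))), (.s k3 k1 0 (.s k83 k163 11 (.s k86 k254 13
  (.s k89 k92 2 (.s k8 k251 12 (.d k12 k4 k166 1 14)))))), (.s k3 k1 0 (.s k10 k90 11 (.s k15 k5 2
  (.s k163 k83 11 (.s k167 k91 13 (.d k175 k171 k160 1 2))))))] .n) (.c k250 (.l (.s k245 k5 11 (.s
  k3 k1 0 (.s k86 k254 13 (.s k244 k7 12 (.s k246 k247 0 (.d k252 k249 k169 2 14))))))) .n))) .n))))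
  (.c k89 (.q k5 [(.s k165 k245 11 (.s k160 k175 2 (.s k240 k80 11 (.d k15 k10 k90 2 14)))), (.s
  k162 k81 12 (.s k165 k245 11 (.s k166 k174 1 (.s k4 k247 12 (.s k7 k6 0 (.s k164 k167 0 (.d k244
  k84 k86 11 12))))))), (.s k15 k10 2 (.s k162 k81 12 (.s k166 k174 1 (.s k167 k91 13 (.d k165 k164
  k245 0 11)))))] (.c k165 (.l (.s k10 k15 2 (.s k90 k250 11 (.s k162 k81 12 (.s k166 k174 1 (.s k4
  k247 12 (.s k14 k242 13 (.d k6 k7 k2 0 1)))))))) (.c k245 (.l (.s k15 k10 2 (.s k162 k81 12 (.s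
  k166 k174 1 (.s k167 k91 13 (.s k165 k164 0 (.s k160 k175 2 (.d k240 k90 k80 14 11)))))))) .n)))
  (.c k93 (.l (.s k162 k81 12 (.s k166 k174 1 (.s k12 k89 14 (.d k4 k8 k247 1 12))))) (.c k162 (.q
  k165 [(.s k5 k245 11 (.s k160 k175 2 (.s k240 k80 11 (.d k15 k10 k90 2 14)))), (.s k160 k175 2 (.s
  k240 k80 11 (.s k241 k242 0 (.s k89 k13 13 (.s k8 k251 12 (.d k12 k4 k166 1 14)))))), (.s k5 k245
  11 (.s k15 k10 2 (.s k167 k91 13 (.s k240 k90 14 (.s k241 k242 0 (.s k89 k13 13 (.d k166 k164 k12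
  0 14)))))))] (.c k15 (.q k3 [(.s k1 k2 0 (.s k169 k253 13 (.s k161 k173 1 (.s k241 k81 11 (.d k240
  k242 k82 0 12))))), (.s k163 k83 11 (.s k175 k160 2 (.s k167 k171 1 (.s k166 k164 0 (.s k172 k169
  2 (.s k4 k247 12 (.d k12 k8 k89 1 14)))))))] (.c k95 (.l (.s k175 k160 2 (.s k1 k2 0 (.s k163 k83
  11 (.s k167 k171 1 (.s k169 k253 13 (.d k166 k164 k172 0 2))))))) (.c k169 (.l (.s k1 k2 0 (.s k5
  k245 11 (.s k9 k13 1 (.s k12 k6 2 (.s k4 k8 1 (.d k166 k247 k89 12 14))))))) (.c k175 (.q k95 [(.s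
  k2 k1 0 (.s k86 k254 13 (.s k87 k84 0 (.d k83 k91 k163 1 11)))), (.s k80 k90 2 (.s k83 k163 11 (.s
  k82 k81 0 (.d k240 k160 k161 11 12)))), (.s k1 k2 0 (.s k80 k90 2 (.s k169 k253 13 (.s k161 k173 1
  (.d k240 k82 k160 12 11)))))] .n) .n)))) (.c k240 (.q k2 [(.s k3 k1 0 (.s k83 k163 11 (.s k86 k254
  13 (.s k89 k92 2 (.s k8 k251 12 (.d k12 k4 k166 1 14)))))), (.s k3 k1 0 (.s k86 k254 13 (.s k244
  k7 12 (.s k245 k5 11 (.s k246 k247 0 (.d k252 k249 k169 2 14)))))), (.s k1 k3 0 (.s k169 k253 13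
  (.s k161 k173 1 (.s k241 k81 11 (.s k13 k89 13 (.d k5 k245 k9 11 1)))))), (.s k86 k254 13 (.s k7
  k244 12 (.s k87 k84 0 (.s k167 k247 11 (.s k15 k91 13 (.d k5 k245 k10 11 2))))))] (.c k245 (.q
  k250 [(.s k3 k1 0 (.s k10 k90 11 (.s k6 k14 1 (.s k12 k9 2 (.s k4 k8 1 (.d k166 k247 k89 12
  14)))))), (.s k3 k1 0 (.s k83 k163 11 (.s k86 k254 13 (.s k87 k84 0 (.s k90 k10 11 (.d k95 k91 k80
  1 2)))))), (.s k10 k90 11 (.s k6 k14 1 (.s k86 k254 13 (.s k7 k244 12 (.d k5 k4 k15 0 2))))), (.s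
  k3 k1 0 (.s k83 k163 11 (.s k86 k254 13 (.s k89 k92 2 (.s k8 k251 12 (.d k12 k4 k166 1 14))))))]
  .n) (.c k250 (.l (.s k245 k5 11 (.s k1 k3 0 (.s k253 k169 13 (.s k241 k249 1 (.s k89 k13 13 (.d
  k81 k161 k93 11 1))))))) (.c k252 (.l (.s k1 k3 0 (.s k86 k254 13 (.s k253 k169 13 (.s k245 k5 11
  (.s k241 k249 1 (.s k89 k13 13 (.d k81 k161 k93 11 1)))))))) (.c k253 (.l (.s k3 k1 0 (.s k86 k254
  13 (.s k252 k169 14 (.s k244 k7 12 (.s k245 k5 11 (.d k246 k247 k249 0 2))))))) (.c k254 (.l (.s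
  k1 k3 0 (.s k245 k5 11 (.s k253 k169 13 (.s k241 k249 1 (.s k89 k13 13 (.d k81 k161 k93 11
  1))))))) .n)))))) .n))) (.c k166 (.q k15 [(.s k10 k5 2 (.s k90 k250 11 (.s k80 k95 2 (.d k240 k160
  k165 11 14)))), (.s k10 k5 2 (.s k81 k162 12 (.s k89 k93 1 (.s k91 k167 13 (.d k90 k88 k250 0
  11))))), (.s k81 k162 12 (.s k89 k93 1 (.s k91 k167 13 (.s k90 k88 0 (.s k80 k95 2 (.d k240 k165
  k160 14 11))))))] (.c k90 (.l (.s k5 k10 2 (.s k81 k162 12 (.s k89 k93 1 (.s k8 k251 12 (.s k12 k4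
  1 (.s k165 k245 11 (.d k13 k14 k241 0 13)))))))) (.c k165 (.l (.s k10 k5 2 (.s k81 k162 12 (.s k89
  k93 1 (.s k90 k250 11 (.d k91 k88 k167 0 13)))))) .n))) (.c k174 (.l (.s k81 k162 12 (.s k89 k93 1
  (.s k12 k166 14 (.d k8 k4 k251 1 12))))) (.c k251 (.l (.s k162 k81 12 (.s k166 k174 1 (.s k4 k247
  12 (.d k12 k8 k89 1 14))))) .n))))))))))))

def t11_169 : T TT 256 :=
  (.q k90 [(.s k80 k95 2 (.s k170 k255 14 (.s k10 k250 11 (.s k15 k5 2 (.d k240 k160 k165 11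
  14)))))] (.c k5 (.q k2 [(.s k170 k255 14 (.s k10 k250 11 (.s k14 k6 1 (.s k166 k242 13 (.s k174
  k162 1 (.d k254 k94 k86 11 13)))))), (.s k3 k1 0 (.s k80 k95 2 (.s k240 k160 11 (.s k82 k161 12
  (.s k81 k83 0 (.d k162 k242 k243 11 12)))))), (.s k3 k1 0 (.s k80 k95 2 (.s k170 k255 14 (.s k86
  k254 13 (.s k82 k94 1 (.d k240 k160 k161 11 12))))))] (.c k240 (.l (.s k80 k95 2 (.s k170 k255 14
  (.s k86 k254 13 (.s k82 k94 1 (.s k81 k83 0 (.d k162 k242 k243 11 12))))))) .n)) (.c k10 (.l (.s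
  k80 k95 2 (.s k240 k160 11 (.s k165 k15 14 (.s k245 k5 11 (.d k255 k250 k170 2 14)))))) (.c k15
  (.f k170 k255 14 (.f k95 k80 2 (.q k86 [(.s k94 k82 1 (.s k87 k84 0 (.s k92 k93 0 (.d k83 k91 k89
  1 2)))), (.s k2 k254 13 (.s k10 k250 11 (.s k14 k6 1 (.s k82 k94 1 (.d k242 k162 k166 11 13))))),
  (.s k2 k254 13 (.s k3 k1 0 (.s k87 k84 0 (.s k83 k91 1 (.s k243 k163 11 (.s k81 k162 12 (.d k89
  k92 k93 2 1)))))))] (.c k3 (.q k7 [(.s k87 k84 0 (.s k83 k91 1 (.s k92 k89 2 (.d k94 k93 k82 0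
  1)))), (.s k2 k254 13 (.s k10 k250 11 (.s k6 k14 1 (.s k4 k5 0 (.d k166 k246 k247 11 12)))))] (.c
  k87 (.q k171 [(.s k2 k254 13 (.s k82 k94 1 (.s k242 k162 11 (.s k14 k166 13 (.d k10 k6 k250 1
  11))))), (.s k165 k244 12 (.s k5 k245 11 (.s k4 k6 0 (.s k175 k160 2 (.s k167 k163 1 (.d k166 k247
  k164 12 0)))))), (.s k2 k254 13 (.s k165 k244 12 (.s k5 k245 11 (.s k6 k4 0 (.d k10 k250 k14 11
  1))))), (.s k94 k82 1 (.s k93 k92 0 (.s k81 k89 1 (.s k162 k243 12 (.s k254 k2 13 (.d k174 k166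
  k14 1 11))))))] .n) (.c k94 (.l (.s k2 k254 13 (.s k165 k244 12 (.s k5 k245 11 (.s k6 k4 0 (.d k10
  k14 k250 1 11)))))) (.c k171 (.l (.s k87 k84 0 (.s k94 k82 1 (.s k92 k93 0 (.d k83 k91 k89 1
  2))))) .n)))) (.c k7 (.q k3 [(.d k2 k1 k254 0 13), (.s k87 k84 0 (.s k83 k91 1 (.s k92 k89 2 (.d
  k94 k93 k82 0 1))))] .n) .n))))) (.c k80 (.q k4 [(.s k12 k8 1 (.s k166 k247 12 (.s k170 k255 14
  (.s k162 k174 1 (.d k243 k81 k89 12 14))))), (.s k166 k247 12 (.s k14 k242 13 (.s k170 k255 14 (.s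
  k10 k250 11 (.s k5 k15 2 (.d k6 k7 k2 0 1)))))), (.s k12 k8 1 (.s k170 k255 14 (.s k10 k250 11 (.s
  k5 k15 2 (.s k6 k7 0 (.s k3 k9 2 (.d k2 k1 k14 0 1))))))), (.s k12 k8 1 (.s k166 k247 12 (.s k14
  k242 13 (.s k15 k13 0 (.s k165 k240 14 (.d k5 k10 k245 2 11))))))] (.c k10 (.l (.s k166 k247 12
  (.s k170 k255 14 (.s k162 k174 1 (.s k243 k81 12 (.d k12 k8 k89 1 14)))))) .n)) (.c k95 (.q k12
  [(.s k4 k8 1 (.s k166 k247 12 (.s k89 k243 14 (.s k93 k81 1 (.d k255 k174 k170 12 14))))), (.s k4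
  k8 1 (.s k166 k247 12 (.s k14 k242 13 (.s k15 k13 0 (.s k165 k240 14 (.d k5 k10 k245 2 11)))))),
  (.s k170 k255 14 (.s k10 k250 11 (.s k15 k5 2 (.s k14 k13 0 (.s k166 k242 13 (.s k162 k174 1 (.d
  k243 k81 k89 12 14))))))), (.s k8 k4 1 (.s k170 k255 14 (.s k89 k251 12 (.s k81 k93 1 (.d k243
  k162 k166 12 14)))))] (.c k166 (.l (.s k8 k4 1 (.s k170 k255 14 (.s k10 k250 11 (.s k15 k5 2 (.s
  k13 k14 0 (.s k89 k251 12 (.d k165 k240 k241 14 13)))))))) (.c k243 (.l (.s k4 k8 1 (.s k166 k247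
  12 (.s k14 k242 13 (.s k15 k13 0 (.s k10 k5 2 (.d k170 k255 k250 14 11))))))) .n))) (.c k160 (.l
  (.s k95 k80 2 (.s k255 k170 14 (.s k15 k175 11 (.s k165 k240 14 (.d k5 k10 k245 2 11)))))) (.c
  k165 (.f k170 k255 14 (.f k95 k80 2 (.q k79 [(.s k101 k112 6 (.s k69 k117 3 (.s k127 k111 3 (.d
  k64 k74 k106 2 6)))), (.s k10 k250 11 (.s k15 k5 2 (.s k207 k143 7 (.s k69 k138 10 (.d k101 k117
  k112 3 6))))), (.s k10 k250 11 (.s k15 k5 2 (.s k127 k111 3 (.s k207 k143 7 (.s k69 k138 10 (.d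
  k64 k74 k106 2 6))))))] (.c k69 (.l (.s k112 k101 6 (.s k127 k111 3 (.s k106 k64 6 (.d k122 k117
  k74 2 3))))) (.c k161 (.q k173 [(.s k101 k112 6 (.s k69 k117 3 (.s k127 k111 3 (.d k64 k74 k106 2
  6)))), (.s k10 k250 11 (.s k15 k5 2 (.s k207 k143 7 (.s k69 k138 10 (.d k101 k117 k112 3 6))))),
  (.s k10 k250 11 (.s k15 k5 2 (.s k127 k111 3 (.s k207 k143 7 (.s k69 k138 10 (.d k64 k74 k106 2
  6))))))] (.c k69 (.l (.s k112 k101 6 (.s k127 k111 3 (.s k106 k64 6 (.d k122 k117 k74 2 3)))))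
  .n)) (.c k173 (.q k161 [(.s k101 k112 6 (.s k69 k117 3 (.s k127 k111 3 (.d k64 k74 k106 2 6)))),
  (.s k10 k250 11 (.s k15 k5 2 (.s k207 k143 7 (.s k69 k138 10 (.d k101 k117 k112 3 6))))), (.s k10
  k250 11 (.s k15 k5 2 (.s k127 k111 3 (.s k207 k143 7 (.s k69 k138 10 (.d k64 k74 k106 2 6))))))]
  (.c k69 (.l (.s k112 k101 6 (.s k127 k111 3 (.s k106 k64 6 (.d k122 k117 k74 2 3))))) .n))
  .n)))))) (.c k170 (.q k89 [(.s k80 k95 2 (.s k81 k93 1 (.s k83 k82 0 (.s k88 k91 0 (.d k92 k84 k86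
  1 2))))), (.s k81 k93 1 (.s k91 k88 0 (.s k243 k162 12 (.s k15 k167 13 (.s k5 k10 2 (.d k165 k245
  k240 11 14)))))), (.s k80 k95 2 (.s k88 k91 0 (.s k240 k160 11 (.s k12 k164 13 (.s k4 k8 1 (.d
  k166 k247 k243 12 14)))))), (.s k80 k95 2 (.s k81 k93 1 (.s k240 k160 11 (.s k165 k15 14 (.s k241
  k13 13 (.d k243 k242 k162 0 12))))))] (.c k168 (.q k171 [(.s k80 k95 2 (.s k81 k93 1 (.s k83 k82 0
  (.s k88 k91 0 (.d k92 k84 k86 1 2))))), (.s k81 k93 1 (.s k91 k88 0 (.s k243 k162 12 (.s k15 k167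
  13 (.s k5 k10 2 (.d k165 k245 k240 11 14)))))), (.s k80 k95 2 (.s k88 k91 0 (.s k240 k160 11 (.s
  k165 k15 14 (.s k241 k13 13 (.s k243 k242 0 (.d k12 k164 k166 13 14))))))), (.s k80 k95 2 (.s k81
  k93 1 (.s k240 k160 11 (.s k165 k15 14 (.s k241 k13 13 (.d k243 k242 k162 0 12))))))] .n) (.c k171
  (.q k168 [(.s k80 k95 2 (.s k84 k252 13 (.d k88 k91 k92 0 1))), (.s k81 k93 1 (.s k91 k88 0 (.s
  k243 k162 12 (.s k15 k167 13 (.s k5 k10 2 (.d k165 k245 k240 11 14))))))] (.c k88 (.l (.s k80 k95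
  2 (.s k81 k93 1 (.s k82 k83 0 (.s k84 k252 13 (.d k86 k87 k94 0 1)))))) (.c k91 (.q k251 [(.s k80
  k95 2 (.s k84 k252 13 (.s k92 k88 1 (.d k86 k87 k83 0 2)))), (.s k81 k93 1 (.s k243 k162 12 (.s
  k166 k12 14 (.d k247 k255 k4 1 12))))] .n) (.c k251 (.l (.s k91 k88 0 (.s k84 k252 13 (.s k95 k80
  2 (.d k87 k86 k83 0 1))))) .n)))) .n))) (.c k175 (.l (.s k80 k95 2 (.s k240 k160 11 (.s k15 k165
  14 (.s k170 k255 14 (.d k10 k5 k250 2 11)))))) (.c k240 (.q k21 [(.s k63 k42 6 (.s k149 k213 7 (.s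
  k106 k192 14 (.s k127 k64 6 (.d k255 k191 k170 7 14))))), (.s k95 k80 2 (.s k149 k213 7 (.s k31
  k208 10 (.s k16 k26 2 (.d k223 k159 k154 7 10))))), (.s k63 k42 6 (.s k95 k80 2 (.s k255 k170 14
  (.s k15 k175 11 (.s k31 k47 3 (.s k16 k26 2 (.d k223 k159 k154 7 10)))))))] .n) (.c k245 (.l (.s
  k80 k95 2 (.s k170 k255 14 (.s k10 k250 11 (.s k240 k160 11 (.d k15 k5 k165 2 14)))))) (.c k250
  (.l (.s k95 k80 2 (.s k255 k170 14 (.s k15 k175 11 (.s k5 k10 2 (.d k165 k245 k240 11 14)))))) (.c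
  k255 (.q k16 [(.s k80 k95 2 (.s k208 k144 7 (.s k149 k31 10 (.s k213 k21 7 (.d k223 k218 k154 2
  10))))), (.s k48 k32 3 (.s k154 k223 10 (.s k26 k218 7 (.s k15 k37 6 (.s k5 k10 2 (.d k165 k245
  k240 11 14)))))), (.s k48 k32 3 (.s k80 k95 2 (.s k144 k208 7 (.s k96 k192 11 (.s k112 k64 3 (.d
  k240 k176 k160 7 11)))))), (.s k48 k32 3 (.s k80 k95 2 (.s k154 k223 10 (.s k207 k101 14 (.s k218
  k26 7 (.d k240 k229 k160 6 11))))))] (.c k15 (.l (.s k95 k80 2 (.s k223 k154 10 (.s k31 k159 7 (.s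
  k21 k26 2 (.d k149 k213 k208 7 10)))))) .n)) .n))))))))))))))

def t11_171 : T TT 256 :=
  (.q k89 [(.s k81 k93 1 (.s k243 k162 12 (.s k12 k166 14 (.s k8 k4 1 (.d k170 k251 k255 12 14)))))]
  (.c k4 (.q k91 [(.s k90 k88 0 (.s k93 k81 1 (.s k95 k80 2 (.s k92 k94 0 (.d k83 k87 k86 1 2))))),
  (.s k81 k93 1 (.s k243 k162 12 (.s k12 k166 14 (.s k15 k167 13 (.s k5 k10 2 (.s k165 k245 11 (.d
  k13 k14 k241 0 13))))))), (.s k90 k88 0 (.s k80 k95 2 (.s k170 k255 14 (.s k10 k250 11 (.s k15 k5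
  2 (.d k240 k160 k165 11 14))))))] .n) (.c k8 (.l (.s k81 k93 1 (.s k243 k162 12 (.s k166 k12 14
  (.s k247 k4 12 (.d k255 k251 k170 1 14)))))) (.c k12 (.q k90 [(.s k80 k95 2 (.s k240 k160 11 (.s
  k15 k165 14 (.s k10 k5 2 (.d k170 k250 k255 11 14))))), (.s k80 k95 2 (.s k81 k93 1 (.s k83 k82 0
  (.s k92 k86 2 (.d k88 k91 k84 0 1))))), (.s k81 k93 1 (.s k91 k88 0 (.s k243 k162 12 (.s k15 k167
  13 (.s k5 k10 2 (.d k165 k240 k245 14 11))))))] (.c k91 (.q k251 [(.d k170 k8 k255 12 14), (.s k80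
  k95 2 (.s k81 k93 1 (.s k240 k160 11 (.s k165 k15 14 (.s k243 k162 12 (.d k241 k13 k242 13
  0))))))] (.c k255 (.l (.s k80 k95 2 (.s k170 k8 12 (.s k10 k250 11 (.s k15 k5 2 (.d k240 k160 k165
  11 14)))))) .n)) (.c k251 (.l (.s k91 k88 0 (.s k93 k81 1 (.s k95 k80 2 (.s k83 k87 1 (.d k92 k94
  k86 0 2)))))) (.c k255 (.l (.s k91 k88 0 (.s k93 k81 1 (.s k95 k80 2 (.s k92 k94 0 (.d k83 k87 k86
  1 2)))))) .n)))) (.c k81 (.q k154 [(.s k16 k223 10 (.s k48 k32 3 (.s k101 k207 14 (.s k117 k69 3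
  (.d k255 k186 k170 10 14))))), (.s k170 k255 14 (.s k186 k138 3 (.s k219 k24 8 (.s k251 k8 12 (.s
  k56 k121 8 (.d k203 k235 k105 3 12)))))), (.s k16 k223 10 (.s k24 k219 8 (.s k48 k32 3 (.s k12 k36
  5 (.s k4 k8 1 (.d k166 k247 k243 12 14))))))] (.c k91 (.q k251 [(.d k170 k8 k255 12 14), (.s k16
  k223 10 (.s k24 k219 8 (.s k48 k32 3 (.s k12 k36 5 (.s k4 k8 1 (.d k166 k247 k243 12 14))))))] (.c
  k8 (.l (.s k16 k223 10 (.s k48 k32 3 (.s k101 k207 14 (.s k117 k69 3 (.d k255 k186 k170 10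
  14)))))) .n)) (.c k251 (.q k91 [(.s k16 k223 10 (.s k48 k32 3 (.s k101 k207 14 (.s k117 k69 3 (.d
  k255 k186 k170 10 14))))), (.s k90 k88 0 (.s k218 k26 7 (.s k219 k24 8 (.s k27 k155 7 (.d k216
  k217 k153 0 8)))))] .n) .n))) (.c k91 (.q k251 [(.d k170 k8 k255 12 14), (.s k81 k93 1 (.s k243
  k162 12 (.s k166 k12 14 (.d k247 k255 k4 1 12))))] (.c k255 (.l (.s k8 k170 12 (.s k12 k4 1 (.s
  k81 k93 1 (.d k243 k162 k166 12 14))))) .n)) (.c k93 (.q k192 [(.s k64 k128 7 (.s k106 k127 6 (.s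
  k63 k149 14 (.s k42 k21 6 (.d k170 k234 k255 7 14))))), (.s k64 k128 7 (.s k106 k127 6 (.s k72
  k123 4 (.s k12 k132 9 (.s k4 k8 1 (.d k166 k247 k243 12 14)))))), (.s k255 k170 14 (.s k213 k234 6
  (.s k149 k21 7 (.s k209 k29 9 (.s k243 k226 4 (.s k166 k12 14 (.d k247 k251 k4 1 12)))))))] (.c
  k91 (.q k251 [(.d k170 k8 k255 12 14), (.s k64 k128 7 (.s k106 k127 6 (.s k72 k123 4 (.s k12 k132
  9 (.s k4 k8 1 (.d k166 k247 k243 12 14))))))] (.c k8 (.l (.s k64 k128 7 (.s k106 k127 6 (.s k63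
  k149 14 (.s k42 k21 6 (.d k170 k234 k255 7 14)))))) .n)) (.c k106 (.l (.s k128 k64 7 (.s k170 k255
  14 (.s k149 k191 6 (.s k209 k29 9 (.s k243 k226 4 (.s k162 k81 12 (.d k166 k174 k12 1 14))))))))
  (.c k251 (.q k91 [(.s k64 k128 7 (.s k106 k127 6 (.s k63 k149 14 (.s k42 k21 6 (.d k170 k234 k255
  7 14))))), (.s k90 k88 0 (.s k80 k95 2 (.s k170 k255 14 (.s k10 k250 11 (.s k15 k5 2 (.d k240 k160
  k165 11 14)))))), (.s k64 k128 7 (.s k106 k127 6 (.s k72 k123 4 (.s k12 k132 9 (.s k4 k8 1 (.d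
  k166 k247 k243 12 14))))))] .n) .n)))) (.c k162 (.l (.s k93 k81 1 (.s k255 k170 14 (.s k12 k174 12
  (.s k166 k243 14 (.d k4 k8 k247 1 12)))))) (.c k166 (.q k90 [(.s k80 k95 2 (.s k81 k93 1 (.s k83
  k82 0 (.s k92 k86 2 (.d k88 k91 k84 0 1))))), (.s k80 k95 2 (.s k170 k255 14 (.s k10 k250 11 (.s
  k15 k5 2 (.d k240 k160 k165 11 14))))), (.s k81 k93 1 (.s k91 k88 0 (.s k170 k255 14 (.s k10 k250
  11 (.s k15 k5 2 (.d k243 k162 k167 12 13))))))] (.c k91 (.q k251 [(.d k170 k8 k255 12 14), (.s k80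
  k95 2 (.s k81 k93 1 (.s k240 k160 11 (.s k165 k15 14 (.s k241 k13 13 (.d k243 k242 k162 0
  12))))))] (.c k255 (.l (.s k80 k95 2 (.s k170 k8 12 (.s k10 k250 11 (.s k15 k5 2 (.d k240 k160
  k165 11 14)))))) .n)) (.c k251 (.l (.s k91 k88 0 (.s k93 k81 1 (.s k95 k80 2 (.s k83 k87 1 (.d k92
  k94 k86 0 2)))))) .n))) (.c k170 (.f k81 k93 1 (.q k169 [(.s k1 k253 13 (.s k9 k249 11 (.s k13 k5
  1 (.d k241 k161 k165 11 13)))), (.s k243 k162 12 (.s k249 k9 11 (.s k252 k246 2 (.s k84 k168 13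
  (.d k86 k87 k3 0 14))))), (.s k1 k253 13 (.s k3 k2 0 (.s k86 k252 14 (.s k83 k92 2 (.d k243 k163
  k162 11 12)))))] (.c k91 (.q k251 [(.s k243 k162 12 (.s k166 k12 14 (.d k247 k255 k4 1 12))), (.s
  k1 k253 13 (.s k9 k249 11 (.s k13 k5 1 (.d k241 k161 k165 11 13))))] .n) (.c k251 (.q k91 [(.s k1
  k253 13 (.s k241 k161 11 (.s k13 k165 13 (.d k9 k5 k249 1 11)))), (.s k90 k88 0 (.s k80 k95 2 (.s
  k240 k160 11 (.s k243 k162 12 (.d k15 k165 k167 14 13))))), (.s k1 k253 13 (.s k3 k2 0 (.s k9 k249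
  11 (.s k12 k6 2 (.d k243 k162 k166 12 14)))))] .n) .n)))) (.c k174 (.l (.s k81 k93 1 (.s k243 k162
  12 (.s k12 k166 14 (.s k170 k255 14 (.d k8 k4 k251 1 12)))))) (.c k243 (.q k15 [(.s k10 k5 2 (.s
  k170 k255 14 (.s k90 k250 11 (.s k80 k95 2 (.d k240 k160 k165 11 14))))), (.s k5 k10 2 (.s k93 k81
  1 (.s k165 k245 11 (.s k13 k241 13 (.s k253 k173 11 (.d k1 k9 k169 1 13)))))), (.s k81 k93 1 (.s
  k255 k170 14 (.s k95 k175 11 (.s k80 k90 2 (.s k83 k82 0 (.s k86 k92 2 (.d k87 k91 k84 1 0)))))))]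
  (.c k10 (.l (.s k93 k81 1 (.s k255 k170 14 (.s k12 k174 12 (.s k13 k14 0 (.s k95 k175 11 (.s k90
  k80 2 (.d k165 k241 k240 13 14)))))))) (.c k91 (.q k251 [(.d k170 k8 k255 12 14), (.s k5 k10 2 (.s
  k93 k81 1 (.s k165 k245 11 (.s k13 k241 13 (.s k253 k173 11 (.d k1 k9 k169 1 13))))))] (.c k8 (.l
  (.s k10 k5 2 (.s k170 k255 14 (.s k90 k250 11 (.s k80 k95 2 (.d k240 k160 k165 11 14)))))) .n))
  (.c k165 (.l (.s k5 k10 2 (.s k93 k81 1 (.s k255 k170 14 (.s k12 k174 12 (.s k13 k14 0 (.s k253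
  k173 11 (.d k1 k9 k169 1 13)))))))) (.c k251 (.q k91 [(.s k10 k5 2 (.s k90 k88 0 (.d k170 k255
  k250 14 11))), (.s k93 k81 1 (.s k255 k170 14 (.s k95 k175 11 (.s k83 k87 1 (.d k92 k94 k86 0
  2)))))] (.c k170 (.l (.s k5 k10 2 (.s k90 k88 0 (.d k165 k245 k240 11 14)))) (.c k247 (.l (.s k255
  k170 14 (.s k90 k88 0 (.d k95 k80 k175 2 11)))) (.c k255 (.q k247 [(.s k90 k88 0 (.s k80 k95 2 (.d
  k240 k160 k165 11 14))), (.s k4 k166 12 (.s k5 k10 2 (.s k165 k245 11 (.s k13 k241 13 (.d k12 k8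
  k14 1 0))))), (.s k90 k88 0 (.s k93 k81 1 (.s k95 k80 2 (.s k92 k94 0 (.d k83 k87 k86 1 2)))))]
  (.c k3 (.q k87 [(.s k83 k95 1 (.d k86 k84 k92 0 2)), (.s k4 k166 12 (.s k5 k10 2 (.d k7 k6 k167 0
  11)))] (.c k83 (.q k163 [(.s k90 k88 0 (.s k80 k95 2 (.d k240 k160 k165 11 14))), (.s k4 k166 12
  (.s k5 k10 2 (.d k7 k6 k167 0 11)))] .n) (.c k163 (.l (.s k83 k95 1 (.d k86 k84 k92 0 2))) .n)))
  (.c k87 (.q k3 [(.s k90 k88 0 (.s k80 k95 2 (.d k240 k160 k165 11 14))), (.s k1 k2 0 (.s k5 k10 2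
  (.s k9 k13 1 (.d k169 k249 k253 11 13))))] .n) .n))) .n)))) .n))))) (.c k251 (.q k91 [(.s k90 k88
  0 (.s k93 k81 1 (.s k95 k80 2 (.s k92 k94 0 (.d k83 k87 k86 1 2))))), (.s k93 k81 1 (.s k255 k170
  14 (.s k12 k174 12 (.s k4 k8 1 (.d k166 k247 k243 12 14))))), (.s k90 k88 0 (.s k80 k95 2 (.s k170
  k255 14 (.s k10 k250 11 (.s k15 k5 2 (.d k240 k160 k165 11 14))))))] .n) (.c k255 (.q k3 [(.s k1
  k2 0 (.s k81 k93 1 (.s k161 k241 11 (.s k82 k240 12 (.s k83 k80 0 (.d k243 k163 k162 11 12)))))),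
  (.s k1 k2 0 (.s k169 k253 13 (.s k9 k249 11 (.s k12 k6 2 (.s k4 k8 1 (.d k166 k247 k243 12
  14)))))), (.s k81 k93 1 (.s k243 k162 12 (.s k83 k163 11 (.s k86 k92 2 (.s k84 k87 0 (.d k252 k168
  k169 13 14)))))), (.s k1 k2 0 (.s k93 k81 1 (.s k253 k169 13 (.s k13 k173 11 (.s k5 k9 1 (.d k165
  k245 k241 11 13))))))] (.c k91 (.q k251 [(.s k81 k93 1 (.s k243 k162 12 (.s k12 k166 14 (.d k8
  k170 k4 12 1)))), (.s k2 k1 0 (.s k170 k8 12 (.s k86 k254 13 (.s k84 k87 0 (.d k252 k168 k169 13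
  14))))), (.s k1 k2 0 (.s k81 k93 1 (.s k161 k241 11 (.s k82 k240 12 (.s k83 k80 0 (.d k243 k163
  k162 11 12))))))] .n) (.c k251 (.q k91 [(.s k81 k93 1 (.s k90 k88 0 (.s k95 k80 2 (.s k83 k87 1
  (.d k243 k163 k162 11 12))))), (.s k1 k2 0 (.s k90 k88 0 (.s k95 k80 2 (.s k83 k87 1 (.s k169 k253
  13 (.d k86 k92 k252 2 14)))))), (.s k1 k2 0 (.s k81 k93 1 (.s k161 k241 11 (.s k82 k240 12 (.s k83
  k80 0 (.d k243 k163 k162 11 12))))))] (.c k80 (.l (.s k81 k93 1 (.s k243 k162 12 (.s k83 k163 11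
  (.s k86 k92 2 (.d k87 k84 k95 0 1)))))) (.c k83 (.l (.s k1 k2 0 (.s k81 k93 1 (.s k90 k88 0 (.s
  k80 k95 2 (.s k161 k241 11 (.d k240 k160 k82 11 12))))))) (.c k243 (.q k247 [(.s k1 k2 0 (.s k4
  k166 12 (.s k12 k8 1 (.s k169 k253 13 (.d k9 k6 k249 2 11))))), (.s k90 k88 0 (.s k80 k95 2 (.s
  k240 k160 11 (.s k82 k161 12 (.d k81 k83 k93 0 1)))))] .n) (.c k247 (.q k243 [(.d k81 k93 k162 1
  12), (.s k83 k163 11 (.s k86 k92 2 (.d k87 k84 k95 0 1)))] .n) .n))))) .n))) .n))))))))))))))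

def t11_172 : T TT 256 :=
  (.f k255 k170 14 (.q k106 [(.s k64 k127 6 (.s k192 k128 7 (.s k149 k63 14 (.d k213 k234 k21 6
  7))))] (.c k21 (.q k1 [(.s k3 k2 0 (.s k169 k253 13 (.s k86 k252 14 (.d k87 k84 k171 0 13)))), (.s
  k64 k127 6 (.s k192 k128 7 (.s k213 k234 6 (.s k253 k169 13 (.s k193 k233 5 (.s k65 k129 7 (.d
  k195 k130 k194 8 0))))))), (.s k3 k2 0 (.s k64 k127 6 (.s k192 k128 7 (.s k66 k129 8 (.s k86 k126
  5 (.d k87 k84 k171 0 13))))))] (.c k171 (.l (.s k3 k2 0 (.s k127 k64 6 (.s k63 k191 7 (.s k43 k23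
  5 (.d k169 k232 k253 8 13)))))) .n)) (.c k63 (.q k1 [(.s k3 k2 0 (.s k87 k171 13 (.s k86 k84 0 (.d
  k169 k253 k252 13 14)))), (.s k64 k127 6 (.s k192 k128 7 (.s k213 k234 6 (.s k253 k169 13 (.s k193
  k233 5 (.s k65 k129 7 (.d k195 k130 k194 8 0))))))), (.s k3 k2 0 (.s k64 k127 6 (.s k192 k128 7
  (.s k66 k129 8 (.s k86 k126 5 (.d k87 k84 k171 0 13))))))] (.c k171 (.l (.s k3 k2 0 (.s k64 k127 6
  (.s k169 k253 13 (.s k86 k252 14 (.s k192 k128 7 (.d k66 k126 k129 5 8))))))) .n)) (.c k64 (.q k60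
  [(.s k20 k40 5 (.s k125 k190 8 (.s k150 k215 8 (.d k105 k65 k195 5 14)))), (.s k20 k40 5 (.s k150
  k215 8 (.s k62 k194 13 (.s k63 k61 0 (.s k21 k42 6 (.d k149 k213 k192 7 14)))))), (.s k125 k190 8
  (.s k105 k65 5 (.s k104 k107 0 (.s k192 k148 13 (.s k149 k63 14 (.d k213 k234 k21 6 7))))))] (.c
  k105 (.q k87 [(.s k3 k171 13 (.s k1 k2 0 (.s k169 k253 13 (.d k86 k84 k252 0 14)))), (.s k86 k84 0
  (.s k126 k66 5 (.s k190 k125 8 (.s k62 k254 7 (.s k150 k194 13 (.d k20 k40 k215 5 8)))))), (.s k3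
  k171 13 (.s k2 k1 0 (.s k22 k41 6 (.s k42 k62 5 (.s k21 k63 6 (.d k20 k40 k23 5 0))))))] (.c k2
  (.l (.s k3 k171 13 (.s k22 k41 6 (.s k86 k84 0 (.s k150 k214 7 (.d k20 k40 k215 5 8)))))) (.c k40
  (.q k235 [(.s k3 k171 13 (.s k1 k2 0 (.s k169 k253 13 (.d k86 k84 k252 0 14)))), (.s k86 k84 0 (.s
  k126 k66 5 (.s k190 k125 8 (.s k62 k254 7 (.s k150 k194 13 (.d k215 k195 k20 5 8)))))), (.s k3
  k171 13 (.s k22 k41 6 (.s k215 k195 5 (.s k20 k150 8 (.d k23 k21 k151 0 7)))))] .n) (.c k235 (.l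
  (.s k40 k20 5 (.s k3 k171 13 (.s k1 k2 0 (.s k86 k84 0 (.d k169 k253 k252 13 14)))))) .n)))) (.c
  k150 (.q k149 [(.s k21 k213 7 (.d k63 k42 k192 6 14)), (.s k63 k192 14 (.s k61 k62 0 (.s k105 k193
  13 (.d k125 k190 k65 8 5))))] (.c k63 (.l (.s k213 k21 7 (.s k192 k234 6 (.s k104 k148 13 (.s k105
  k107 0 (.d k125 k65 k190 5 8)))))) (.c k130 (.l (.s k190 k125 8 (.s k21 k213 7 (.d k63 k42 k192 6
  14)))) (.c k190 (.q k130 [(.s k21 k213 7 (.d k63 k42 k192 6 14)), (.s k63 k192 14 (.s k61 k62 0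
  (.s k65 k195 8 (.d k105 k193 k125 13 5))))] (.c k63 (.l (.s k65 k195 8 (.s k105 k125 5 (.s k213
  k21 7 (.s k192 k234 6 (.d k104 k107 k148 0 13)))))) (.c k192 (.l (.s k21 k213 7 (.s k63 k42 6 (.s
  k61 k62 0 (.s k65 k195 8 (.d k105 k193 k125 13 5)))))) .n))) (.c k192 (.l (.s k21 k213 7 (.s k63
  k42 6 (.s k61 k62 0 (.s k105 k193 13 (.d k125 k65 k190 5 8)))))) .n))))) .n))) (.c k127 (.q k195
  [(.s k65 k130 8 (.s k215 k235 5 (.s k150 k20 8 (.d k105 k125 k60 5 14)))), (.s k65 k130 8 (.s k105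
  k125 5 (.s k107 k104 0 (.s k63 k151 13 (.s k21 k42 6 (.d k149 k213 k192 7 14)))))), (.s k215 k235
  5 (.s k150 k20 8 (.s k194 k62 13 (.s k192 k193 0 (.s k149 k63 14 (.d k213 k234 k21 6 7))))))] (.c
  k105 (.q k149 [(.s k21 k213 7 (.d k63 k42 k192 6 14)), (.s k63 k192 14 (.s k151 k107 13 (.s k150
  k148 0 (.d k215 k235 k20 5 8))))] (.c k40 (.l (.s k235 k215 5 (.s k21 k213 7 (.d k63 k42 k192 6
  14)))) (.c k63 (.l (.s k213 k21 7 (.s k192 k234 6 (.s k194 k193 0 (.s k150 k62 13 (.d k215 k235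
  k20 5 8)))))) (.c k192 (.l (.s k21 k213 7 (.s k63 k42 6 (.s k151 k107 13 (.s k150 k148 0 (.d k215
  k235 k20 5 8)))))) (.c k235 (.q k40 [(.s k21 k213 7 (.d k63 k42 k192 6 14)), (.s k20 k60 5 (.s k63
  k192 14 (.s k150 k215 8 (.d k151 k148 k107 0 13))))] (.c k63 (.l (.s k20 k60 5 (.s k150 k215 8 (.s
  k213 k21 7 (.s k192 k234 6 (.d k194 k62 k193 13 0)))))) (.c k192 (.l (.s k20 k60 5 (.s k21 k213 7
  (.s k63 k42 6 (.s k150 k215 8 (.d k151 k148 k107 0 13)))))) .n))) .n))))) (.c k150 (.q k149 [(.s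
  k21 k213 7 (.d k63 k42 k192 6 14)), (.s k63 k192 14 (.s k107 k151 13 (.s k105 k104 0 (.d k65 k130
  k125 8 5))))] (.c k63 (.l (.s k213 k21 7 (.s k192 k234 6 (.s k193 k194 0 (.s k105 k61 13 (.d k65
  k125 k130 5 8)))))) (.c k130 (.q k190 [(.s k21 k213 7 (.d k63 k42 k192 6 14)), (.s k63 k192 14 (.s
  k107 k151 13 (.s k105 k104 0 (.d k125 k60 k65 8 5))))] (.c k63 (.l (.s k125 k60 8 (.s k105 k65 5
  (.s k213 k21 7 (.s k192 k234 6 (.d k193 k61 k194 13 0)))))) (.c k192 (.l (.s k21 k213 7 (.s k63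
  k42 6 (.s k107 k151 13 (.s k105 k104 0 (.d k125 k60 k65 8 5)))))) .n))) (.c k190 (.l (.s k130 k65
  8 (.s k21 k213 7 (.d k63 k42 k192 6 14)))) (.c k192 (.l (.s k21 k213 7 (.s k63 k42 6 (.s k107 k151
  13 (.s k105 k104 0 (.d k65 k125 k130 5 8)))))) .n))))) .n))) (.c k128 (.l (.s k127 k64 6 (.s k63
  k191 7 (.s k149 k192 14 (.d k21 k42 k213 6 7))))) (.c k149 (.f k64 k127 6 (.q k80 [(.s k90 k95 2
  (.s k74 k122 3 (.s k79 k69 2 (.d k112 k96 k101 3 6)))), (.s k240 k160 11 (.s k245 k250 2 (.s k165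
  k5 11 (.d k90 k95 k15 2 14)))), (.s k96 k112 3 (.s k160 k240 11 (.s k32 k224 7 (.s k48 k16 3 (.d
  k192 k128 k144 7 11)))))] (.c k128 (.q k191 [(.s k90 k95 2 (.s k74 k122 3 (.s k79 k69 2 (.d k112
  k96 k101 3 6)))), (.s k240 k160 11 (.s k245 k250 2 (.s k165 k5 11 (.d k90 k95 k15 2 14)))), (.s
  k96 k112 3 (.s k160 k240 11 (.s k32 k224 7 (.s k48 k16 3 (.s k117 k186 10 (.d k101 k111 k69 2
  3))))))] .n) (.c k191 (.l (.s k128 k192 7 (.s k90 k95 2 (.s k74 k122 3 (.s k79 k69 2 (.d k112 k96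
  k101 3 6)))))) .n)))) (.c k191 (.l (.s k64 k127 6 (.s k192 k128 7 (.s k149 k63 14 (.d k213 k234
  k21 6 7))))) (.c k192 (.q k1 [(.s k3 k2 0 (.s k87 k171 13 (.s k86 k84 0 (.d k169 k253 k252 13
  14)))), (.s k127 k64 6 (.s k63 k191 7 (.s k21 k42 6 (.s k61 k41 5 (.s k253 k169 13 (.s k125 k189 7
  (.d k60 k190 k62 8 0))))))), (.s k3 k2 0 (.s k127 k64 6 (.s k63 k191 7 (.s k21 k42 6 (.s k23 k43 5
  (.s k22 k20 0 (.d k41 k61 k60 5 6)))))))] .n) (.c k213 (.q k1 [(.s k3 k2 0 (.s k87 k171 13 (.s k86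
  k84 0 (.d k169 k253 k252 13 14)))), (.s k64 k127 6 (.s k169 k253 13 (.s k192 k128 7 (.s k149 k63
  14 (.s k129 k189 5 (.s k66 k3 8 (.d k65 k193 k67 7 0))))))), (.s k3 k2 0 (.s k64 k127 6 (.s k192
  k128 7 (.s k66 k129 8 (.s k86 k126 5 (.d k87 k84 k171 0 13))))))] (.c k3 (.l (.s k127 k64 6 (.s
  k63 k191 7 (.s k21 k42 6 (.s k61 k41 5 (.s k60 k62 0 (.s k125 k190 8 (.d k253 k189 k169 7
  13)))))))) .n)) (.c k234 (.l (.s k127 k64 6 (.s k63 k191 7 (.s k21 k42 6 (.d k149 k213 k192 7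
  14))))) .n))))))))))))

def t11_173 : T TT 256 :=
  (.f k255 k170 14 (.q k106 [(.s k64 k127 6 (.s k192 k128 7 (.s k149 k63 14 (.d k213 k234 k21 6
  7))))] (.c k21 (.q k1 [(.s k3 k2 0 (.s k87 k171 13 (.s k86 k84 0 (.d k169 k253 k252 13 14)))), (.s
  k64 k127 6 (.s k169 k253 13 (.s k192 k128 7 (.s k149 k63 14 (.s k129 k189 5 (.s k65 k193 7 (.d k66
  k67 k3 0 8))))))), (.s k3 k2 0 (.s k64 k127 6 (.s k192 k128 7 (.s k66 k129 8 (.s k86 k126 5 (.d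
  k87 k84 k171 0 13))))))] (.c k3 (.l (.s k64 k127 6 (.s k192 k128 7 (.s k213 k234 6 (.s k253 k169
  13 (.s k193 k233 5 (.s k65 k129 7 (.d k195 k130 k194 8 0)))))))) .n)) (.c k63 (.q k1 [(.s k3 k2 0
  (.s k87 k171 13 (.s k86 k84 0 (.d k169 k253 k252 13 14)))), (.s k64 k127 6 (.s k192 k128 7 (.s
  k213 k234 6 (.s k253 k169 13 (.s k193 k233 5 (.s k65 k129 7 (.d k195 k130 k194 8 0))))))), (.s k3
  k2 0 (.s k64 k127 6 (.s k192 k128 7 (.s k66 k129 8 (.s k86 k126 5 (.d k87 k84 k171 0 13))))))] (.c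
  k171 (.l (.s k3 k2 0 (.s k64 k127 6 (.s k169 k253 13 (.s k86 k252 14 (.s k192 k128 7 (.d k66 k126
  k129 5 8))))))) .n)) (.c k64 (.q k60 [(.s k20 k40 5 (.s k125 k190 8 (.s k150 k215 8 (.d k105 k65
  k195 5 14)))), (.s k20 k40 5 (.s k150 k215 8 (.s k62 k194 13 (.s k63 k61 0 (.s k21 k42 6 (.d k149
  k213 k192 7 14)))))), (.s k125 k190 8 (.s k105 k65 5 (.s k104 k107 0 (.s k192 k148 13 (.s k149 k63
  14 (.d k213 k234 k21 6 7))))))] (.c k105 (.q k87 [(.s k3 k171 13 (.s k1 k2 0 (.s k86 k84 0 (.d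
  k169 k253 k252 13 14)))), (.s k86 k84 0 (.s k126 k66 5 (.s k190 k125 8 (.s k62 k254 7 (.s k150
  k194 13 (.d k20 k40 k215 5 8)))))), (.s k3 k171 13 (.s k2 k1 0 (.s k22 k41 6 (.s k42 k62 5 (.s k21
  k63 6 (.d k20 k40 k23 5 0))))))] (.c k2 (.l (.s k3 k171 13 (.s k22 k41 6 (.s k86 k84 0 (.s k150
  k214 7 (.d k20 k40 k215 5 8)))))) (.c k40 (.q k235 [(.s k3 k171 13 (.s k1 k2 0 (.s k86 k84 0 (.d
  k169 k253 k252 13 14)))), (.s k86 k84 0 (.s k126 k66 5 (.s k190 k125 8 (.s k62 k254 7 (.s k150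
  k194 13 (.d k215 k195 k20 5 8)))))), (.s k3 k171 13 (.s k22 k41 6 (.s k215 k195 5 (.s k20 k150 8
  (.d k23 k21 k151 0 7)))))] .n) (.c k235 (.l (.s k40 k20 5 (.s k3 k171 13 (.s k1 k2 0 (.s k86 k84 0
  (.d k169 k253 k252 13 14)))))) .n)))) (.c k150 (.q k149 [(.s k21 k213 7 (.d k63 k42 k192 6 14)),
  (.s k63 k192 14 (.s k61 k62 0 (.s k105 k193 13 (.d k125 k190 k65 8 5))))] (.c k63 (.l (.s k213 k21
  7 (.s k192 k234 6 (.s k104 k148 13 (.s k105 k107 0 (.d k125 k65 k190 5 8)))))) (.c k130 (.l (.s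
  k190 k125 8 (.s k21 k213 7 (.d k63 k42 k192 6 14)))) (.c k190 (.q k130 [(.s k21 k213 7 (.d k63 k42
  k192 6 14)), (.s k63 k192 14 (.s k61 k62 0 (.s k65 k195 8 (.d k105 k193 k125 13 5))))] (.c k63 (.l
  (.s k65 k195 8 (.s k105 k125 5 (.s k213 k21 7 (.s k192 k234 6 (.d k104 k107 k148 0 13)))))) (.c
  k192 (.l (.s k21 k213 7 (.s k63 k42 6 (.s k61 k62 0 (.s k65 k195 8 (.d k105 k193 k125 13 5))))))
  .n))) (.c k192 (.l (.s k21 k213 7 (.s k63 k42 6 (.s k61 k62 0 (.s k105 k193 13 (.d k125 k65 k190 5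
  8)))))) .n))))) .n))) (.c k127 (.q k195 [(.s k65 k130 8 (.s k215 k235 5 (.s k150 k20 8 (.d k105
  k125 k60 5 14)))), (.s k65 k130 8 (.s k105 k125 5 (.s k107 k104 0 (.s k63 k151 13 (.s k21 k42 6
  (.d k149 k213 k192 7 14)))))), (.s k215 k235 5 (.s k150 k20 8 (.s k194 k62 13 (.s k192 k193 0 (.s
  k149 k63 14 (.d k213 k234 k21 6 7))))))] (.c k105 (.q k149 [(.s k21 k213 7 (.d k63 k42 k192 6
  14)), (.s k63 k192 14 (.s k151 k107 13 (.s k150 k148 0 (.d k215 k235 k20 5 8))))] (.c k40 (.l (.s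
  k235 k215 5 (.s k21 k213 7 (.d k63 k42 k192 6 14)))) (.c k63 (.l (.s k213 k21 7 (.s k192 k234 6
  (.s k194 k193 0 (.s k150 k62 13 (.d k215 k235 k20 5 8)))))) (.c k192 (.l (.s k21 k213 7 (.s k63
  k42 6 (.s k151 k107 13 (.s k150 k148 0 (.d k215 k235 k20 5 8)))))) (.c k235 (.q k40 [(.s k21 k213
  7 (.d k63 k42 k192 6 14)), (.s k20 k60 5 (.s k63 k192 14 (.s k150 k215 8 (.d k151 k148 k107 0
  13))))] (.c k63 (.l (.s k20 k60 5 (.s k150 k215 8 (.s k213 k21 7 (.s k192 k234 6 (.d k194 k62 k193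
  13 0)))))) (.c k192 (.l (.s k20 k60 5 (.s k21 k213 7 (.s k63 k42 6 (.s k150 k215 8 (.d k151 k148
  k107 0 13)))))) .n))) .n))))) (.c k150 (.q k149 [(.s k21 k213 7 (.d k63 k42 k192 6 14)), (.s k63
  k192 14 (.s k107 k151 13 (.s k105 k104 0 (.d k65 k130 k125 8 5))))] (.c k63 (.l (.s k213 k21 7 (.s
  k192 k234 6 (.s k193 k194 0 (.s k105 k61 13 (.d k65 k125 k130 5 8)))))) (.c k130 (.q k190 [(.s k21
  k213 7 (.d k63 k42 k192 6 14)), (.s k63 k192 14 (.s k107 k151 13 (.s k105 k104 0 (.d k125 k60 k65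
  8 5))))] (.c k63 (.l (.s k125 k60 8 (.s k105 k65 5 (.s k213 k21 7 (.s k192 k234 6 (.d k193 k61
  k194 13 0)))))) (.c k192 (.l (.s k21 k213 7 (.s k63 k42 6 (.s k107 k151 13 (.s k105 k104 0 (.d
  k125 k60 k65 8 5)))))) .n))) (.c k190 (.l (.s k130 k65 8 (.s k21 k213 7 (.d k63 k42 k192 6 14))))
  (.c k192 (.l (.s k21 k213 7 (.s k63 k42 6 (.s k107 k151 13 (.s k105 k104 0 (.d k65 k125 k130 5
  8)))))) .n))))) .n))) (.c k128 (.l (.s k127 k64 6 (.s k63 k191 7 (.s k149 k192 14 (.d k21 k42 k213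
  6 7))))) (.c k149 (.f k64 k127 6 (.q k81 [(.s k89 k93 1 (.s k72 k123 4 (.s k76 k68 1 (.d k115 k98
  k102 4 6)))), (.s k243 k162 12 (.s k247 k251 1 (.s k166 k4 12 (.d k89 k93 k12 1 14)))), (.s k98
  k115 4 (.s k162 k243 12 (.s k34 k226 7 (.s k51 k17 4 (.d k192 k128 k145 7 12)))))] (.c k128 (.q
  k191 [(.s k89 k93 1 (.s k72 k123 4 (.s k76 k68 1 (.d k115 k98 k102 4 6)))), (.s k243 k162 12 (.s
  k247 k251 1 (.s k166 k4 12 (.d k89 k93 k12 1 14)))), (.s k98 k115 4 (.s k162 k243 12 (.s k34 k226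
  7 (.s k51 k17 4 (.s k119 k187 9 (.d k102 k110 k68 1 4))))))] .n) (.c k191 (.l (.s k128 k192 7 (.s
  k89 k93 1 (.s k72 k123 4 (.s k76 k68 1 (.d k115 k98 k102 4 6)))))) .n)))) (.c k191 (.l (.s k64
  k127 6 (.s k192 k128 7 (.s k149 k63 14 (.d k213 k234 k21 6 7))))) (.c k192 (.q k1 [(.s k3 k2 0 (.s
  k87 k171 13 (.s k86 k84 0 (.d k169 k253 k252 13 14)))), (.s k127 k64 6 (.s k63 k191 7 (.s k21 k42
  6 (.s k61 k41 5 (.s k253 k169 13 (.s k125 k189 7 (.d k60 k190 k62 8 0))))))), (.s k3 k2 0 (.s k127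
  k64 6 (.s k63 k191 7 (.s k21 k42 6 (.s k23 k43 5 (.s k22 k20 0 (.d k41 k61 k60 5 6)))))))] .n) (.c
  k213 (.q k1 [(.s k3 k2 0 (.s k87 k171 13 (.s k86 k84 0 (.d k169 k253 k252 13 14)))), (.s k64 k127
  6 (.s k169 k253 13 (.s k192 k128 7 (.s k149 k63 14 (.s k129 k189 5 (.s k66 k3 8 (.d k65 k193 k67 7
  0))))))), (.s k3 k2 0 (.s k64 k127 6 (.s k192 k128 7 (.s k66 k129 8 (.s k86 k126 5 (.d k87 k84
  k171 0 13))))))] (.c k3 (.l (.s k127 k64 6 (.s k63 k191 7 (.s k21 k42 6 (.s k61 k41 5 (.s k60 k62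
  0 (.s k125 k190 8 (.d k253 k189 k169 7 13)))))))) .n)) (.c k234 (.l (.s k127 k64 6 (.s k63 k191 7
  (.s k21 k42 6 (.d k149 k213 k192 7 14))))) .n))))))))))))

def t11_174 : T TT 256 :=
  (.q k86 [(.s k84 k87 0 (.s k252 k168 13 (.s k169 k3 14 (.s k253 k1 13 (.d k255 k254 k170 0
  14))))), (.s k84 k87 0 (.s k252 k168 13 (.s k3 k169 14 (.s k2 k1 0 (.d k170 k254 k255 13 14)))))]
  (.c k1 (.q k4 [(.s k84 k87 0 (.s k244 k164 11 (.s k7 k165 12 (.s k166 k247 12 (.d k6 k5 k246 0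
  11))))), (.s k12 k8 1 (.s k84 k87 0 (.s k164 k244 11 (.s k88 k240 13 (.s k92 k80 1 (.d k252 k172
  k168 11 13)))))), (.s k12 k8 1 (.s k166 k247 12 (.s k6 k246 11 (.s k89 k243 14 (.s k92 k83 2 (.s
  k252 k172 11 (.d k3 k9 k169 2 14)))))))] (.c k244 (.l (.s k12 k8 1 (.s k84 k87 0 (.s k166 k247 12
  (.s k89 k243 14 (.s k92 k83 2 (.d k252 k172 k168 11 13))))))) .n)) (.c k3 (.q k15 [(.s k5 k10 2
  (.s k165 k245 11 (.s k90 k240 14 (.s k95 k80 2 (.d k255 k175 k170 11 14))))), (.s k5 k10 2 (.s k87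
  k84 0 (.s k165 k245 11 (.s k7 k244 12 (.s k4 k6 0 (.d k247 k167 k166 11 12)))))), (.s k84 k87 0
  (.s k252 k168 13 (.s k94 k173 12 (.s k90 k82 1 (.s k80 k95 2 (.d k240 k160 k165 11 14))))))] (.c
  k165 (.l (.s k10 k5 2 (.s k84 k87 0 (.s k252 k168 13 (.s k94 k173 12 (.s k90 k82 1 (.d k170 k255
  k250 14 11))))))) .n)) (.c k84 (.q k16 [(.s k48 k32 3 (.s k154 k223 10 (.s k101 k207 14 (.s k117
  k69 3 (.d k255 k186 k170 10 14))))), (.s k48 k32 3 (.s k154 k223 10 (.s k18 k222 9 (.s k3 k33 4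
  (.s k1 k2 0 (.d k169 k253 k252 13 14)))))), (.s k154 k223 10 (.s k18 k222 9 (.s k17 k19 0 (.s k34
  k51 4 (.s k170 k255 14 (.d k2 k50 k254 3 13)))))), (.s k48 k32 3 (.s k170 k255 14 (.s k2 k254 13
  (.s k3 k1 0 (.s k18 k33 4 (.s k17 k19 0 (.d k34 k50 k51 3 4)))))))] .n) (.c k87 (.q k16 [(.s k48
  k32 3 (.s k154 k223 10 (.s k101 k207 14 (.s k117 k69 3 (.d k255 k186 k170 10 14))))), (.s k48 k32
  3 (.s k154 k223 10 (.s k18 k222 9 (.s k3 k33 4 (.s k1 k2 0 (.d k169 k253 k252 13 14)))))), (.s k48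
  k32 3 (.s k170 k255 14 (.s k2 k254 13 (.s k3 k1 0 (.s k18 k33 4 (.s k34 k50 3 (.d k17 k19 k51 0
  4))))))), (.s k154 k223 10 (.s k18 k222 9 (.s k170 k255 14 (.s k2 k254 13 (.s k34 k50 3 (.d k17
  k19 k51 0 4))))))] (.c k19 (.l (.s k48 k32 3 (.s k255 k170 14 (.s k117 k186 10 (.s k101 k69 3 (.d
  k154 k223 k207 10 14)))))) .n)) (.c k168 (.l (.s k87 k84 0 (.s k255 k170 14 (.s k3 k171 13 (.s
  k169 k252 14 (.d k1 k2 k253 0 13)))))) (.c k169 (.q k90 [(.s k80 k95 2 (.s k82 k94 1 (.s k83 k81 0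
  (.s k84 k87 0 (.d k92 k88 k89 1 2))))), (.s k80 k95 2 (.s k170 k255 14 (.s k10 k250 11 (.s k15 k5
  2 (.d k240 k160 k165 11 14))))), (.s k82 k94 1 (.s k170 k255 14 (.s k10 k250 11 (.s k2 k254 13 (.s
  k14 k6 1 (.d k242 k162 k166 11 13))))))] (.c k93 (.l (.s k80 k95 2 (.s k84 k87 0 (.s k82 k94 1 (.s
  k92 k88 1 (.d k83 k81 k89 0 2)))))) .n)) (.c k170 (.q k166 [(.s k4 k247 12 (.s k6 k246 11 (.s k7
  k5 0 (.s k84 k87 0 (.d k244 k164 k165 11 12))))), (.s k84 k87 0 (.s k246 k6 11 (.s k252 k168 13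
  (.s k243 k249 2 (.s k81 k162 12 (.d k89 k93 k12 1 14)))))), (.s k4 k247 12 (.s k12 k8 1 (.s k84
  k87 0 (.s k89 k243 14 (.s k92 k83 2 (.d k252 k172 k168 11 13)))))), (.s k4 k247 12 (.s k6 k246 11
  (.s k12 k8 1 (.s k89 k243 14 (.s k92 k83 2 (.s k252 k172 11 (.d k3 k9 k169 2 14)))))))] .n) (.c
  k171 (.l (.s k84 k87 0 (.s k252 k168 13 (.s k3 k169 14 (.s k170 k255 14 (.d k2 k1 k254 0 13))))))
  (.c k252 (.q k15 [(.s k5 k10 2 (.s k165 k245 11 (.s k90 k240 14 (.s k95 k80 2 (.d k255 k175 k170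
  11 14))))), (.s k87 k84 0 (.s k255 k170 14 (.s k171 k3 13 (.s k175 k95 11 (.s k167 k163 1 (.s k243
  k91 13 (.d k247 k251 k7 1 11))))))), (.s k5 k10 2 (.s k87 k84 0 (.s k165 k245 11 (.s k7 k244 12
  (.s k4 k6 0 (.d k247 k167 k166 11 12))))))] .n) (.c k254 (.l (.s k87 k84 0 (.s k255 k170 14 (.s k3
  k171 13 (.s k1 k2 0 (.d k169 k253 k252 13 14)))))) (.c k255 (.q k12 [(.s k4 k8 1 (.s k87 k84 0 (.s
  k247 k166 12 (.s k7 k167 11 (.s k5 k6 0 (.d k165 k245 k244 11 12)))))), (.s k84 k87 0 (.s k252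
  k168 13 (.s k92 k172 11 (.s k89 k83 2 (.s k81 k93 1 (.d k243 k162 k166 12 14)))))), (.s k4 k8 1
  (.s k166 k247 12 (.s k243 k89 14 (.s k246 k6 11 (.s k252 k249 2 (.s k172 k92 11 (.d k169 k163 k3 2
  14)))))))] (.c k166 (.l (.s k4 k8 1 (.s k84 k87 0 (.s k164 k244 11 (.s k88 k240 13 (.s k92 k80 1
  (.d k252 k172 k168 11 13))))))) .n)) .n))))))))))))

def t11_175 : T TT 256 :=
  (.q k86 [(.s k84 k87 0 (.s k252 k168 13 (.s k169 k3 14 (.s k253 k1 13 (.d k255 k254 k170 0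
  14))))), (.s k84 k87 0 (.s k252 k168 13 (.s k3 k169 14 (.s k2 k1 0 (.d k170 k254 k255 13 14)))))]
  (.c k1 (.q k4 [(.s k84 k87 0 (.s k166 k247 12 (.s k6 k246 11 (.s k244 k164 11 (.d k7 k5 k165 0
  12))))), (.s k12 k8 1 (.s k166 k247 12 (.s k89 k243 14 (.s k93 k81 1 (.d k255 k174 k170 12
  14))))), (.s k12 k8 1 (.s k84 k87 0 (.s k164 k244 11 (.s k88 k240 13 (.s k92 k80 1 (.d k252 k172
  k168 11 13))))))] .n) (.c k3 (.f k170 k255 14 (.f k87 k84 0 (.f k254 k2 13 (.q k95 [(.s k83 k91 1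
  (.s k90 k80 2 (.s k92 k89 2 (.d k94 k93 k82 0 1)))), (.s k90 k80 2 (.s k250 k10 11 (.s k242 k246 1
  (.s k14 k166 13 (.d k94 k82 k174 1 11))))), (.s k83 k91 1 (.s k89 k92 2 (.s k81 k93 1 (.s k243
  k162 12 (.s k12 k166 14 (.d k8 k251 k4 12 1))))))] (.c k7 (.q k15 [(.s k10 k5 2 (.d k90 k80 k250 2
  11)), (.s k80 k90 2 (.s k83 k91 1 (.s k81 k82 0 (.d k89 k93 k92 1 2))))] (.c k80 (.l (.s k10 k5 2
  (.s k83 k91 1 (.s k90 k250 11 (.s k92 k89 2 (.d k94 k93 k82 0 1)))))) (.c k90 (.l (.s k83 k91 1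
  (.s k89 k92 2 (.s k81 k93 1 (.s k243 k162 12 (.s k12 k166 14 (.d k8 k251 k4 12 1))))))) .n))) (.c
  k15 (.q k7 [(.s k83 k91 1 (.s k90 k80 2 (.s k92 k89 2 (.d k94 k93 k82 0 1)))), (.s k165 k244 12
  (.s k5 k245 11 (.s k4 k6 0 (.d k247 k167 k166 11 12))))] (.c k167 (.l (.s k90 k80 2 (.s k94 k82 1
  (.s k92 k93 0 (.d k83 k91 k89 1 2))))) .n)) (.c k80 (.l (.s k83 k91 1 (.s k92 k89 2 (.s k94 k93 0
  (.s k90 k82 1 (.s k250 k10 11 (.s k242 k246 1 (.d k14 k174 k166 11 13)))))))) (.c k82 (.l (.s k83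
  k91 1 (.s k90 k80 2 (.s k92 k89 2 (.s k94 k93 0 (.s k250 k10 11 (.s k242 k246 1 (.d k14 k174 k166
  11 13)))))))) (.c k88 (.l (.s k80 k90 2 (.s k83 k91 1 (.s k89 k92 2 (.d k81 k82 k93 0 1))))) (.c
  k92 (.l (.s k91 k83 1 (.s k90 k80 2 (.s k88 k89 0 (.s k250 k10 11 (.s k242 k246 1 (.s k14 k166 13
  (.d k94 k82 k174 1 11)))))))) .n)))))))))) (.c k84 (.q k4 [(.s k12 k8 1 (.s k166 k247 12 (.s k89
  k243 14 (.s k93 k81 1 (.d k255 k174 k170 12 14))))), (.s k12 k8 1 (.s k166 k247 12 (.s k6 k246 11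
  (.s k5 k7 0 (.s k9 k3 2 (.s k15 k10 2 (.d k13 k14 k1 0 1))))))), (.s k166 k247 12 (.s k6 k246 11
  (.s k5 k7 0 (.s k170 k255 14 (.s k2 k254 13 (.d k10 k15 k14 2 1)))))), (.s k12 k8 1 (.s k170 k255
  14 (.s k2 k254 13 (.s k3 k1 0 (.s k6 k9 2 (.s k10 k14 1 (.d k5 k15 k7 2 0)))))))] (.c k10 (.l (.s
  k166 k247 12 (.s k170 k255 14 (.s k162 k174 1 (.s k243 k81 12 (.d k12 k8 k89 1 14)))))) .n)) (.c
  k87 (.q k4 [(.s k12 k8 1 (.s k166 k247 12 (.s k89 k243 14 (.s k93 k81 1 (.d k255 k174 k170 12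
  14))))), (.s k12 k8 1 (.s k170 k255 14 (.s k2 k254 13 (.s k3 k1 0 (.s k6 k9 2 (.s k10 k14 1 (.d k5
  k15 k7 2 0))))))), (.s k166 k247 12 (.s k6 k246 11 (.s k170 k255 14 (.s k2 k254 13 (.s k10 k14 1
  (.d k5 k7 k15 0 2)))))), (.s k12 k8 1 (.s k166 k247 12 (.s k243 k89 14 (.s k246 k6 11 (.s k252
  k249 2 (.s k172 k92 11 (.d k169 k163 k3 2 14)))))))] (.c k7 (.l (.s k12 k8 1 (.s k255 k170 14 (.s
  k93 k174 12 (.s k89 k81 1 (.d k166 k247 k243 12 14)))))) (.c k10 (.l (.s k166 k247 12 (.s k170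
  k255 14 (.s k162 k174 1 (.s k243 k81 12 (.d k12 k8 k89 1 14)))))) (.c k170 (.l (.s k12 k8 1 (.s
  k166 k247 12 (.s k6 k246 11 (.s k89 k243 14 (.s k92 k83 2 (.s k252 k172 11 (.d k3 k9 k169 2
  14)))))))) .n)))) (.c k168 (.l (.s k87 k84 0 (.s k255 k170 14 (.s k3 k171 13 (.s k169 k252 14 (.d
  k1 k2 k253 0 13)))))) (.c k169 (.q k90 [(.s k80 k95 2 (.s k240 k160 11 (.s k15 k165 14 (.s k170
  k255 14 (.d k10 k5 k250 2 11))))), (.s k87 k84 0 (.s k94 k82 1 (.s k95 k80 2 (.s k83 k91 1 (.d k92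
  k93 k89 0 2))))), (.s k84 k87 0 (.s k94 k82 1 (.s k252 k168 13 (.s k15 k173 12 (.s k5 k10 2 (.d
  k165 k245 k240 11 14))))))] .n) (.c k170 (.f k84 k87 0 (.q k80 [(.s k92 k88 1 (.s k89 k83 2 (.s
  k93 k81 1 (.d k95 k94 k90 0 2)))), (.s k88 k92 1 (.s k168 k252 13 (.s k8 k248 11 (.s k12 k4 1 (.d
  k240 k160 k164 11 13))))), (.s k90 k95 2 (.s k94 k82 1 (.s k252 k168 13 (.s k15 k173 12 (.d k240
  k160 k165 11 14)))))] (.c k90 (.l (.s k92 k88 1 (.s k89 k83 2 (.s k81 k93 1 (.s k243 k162 12 (.s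
  k252 k168 13 (.d k12 k166 k172 14 11))))))) (.c k160 (.q k165 [(.s k5 k245 11 (.s k15 k10 2 (.d
  k90 k95 k240 2 14))), (.s k92 k88 1 (.s k83 k89 2 (.s k82 k81 0 (.d k90 k94 k95 1 2)))), (.s k244
  k7 12 (.s k4 k164 11 (.s k245 k5 11 (.d k247 k246 k166 0 12))))] .n) (.c k165 (.l (.s k160 k240 11
  (.s k90 k95 2 (.s k82 k94 1 (.s k83 k81 0 (.d k92 k88 k89 1 2)))))) .n))))) (.c k171 (.l (.s k84
  k87 0 (.s k252 k168 13 (.s k3 k169 14 (.s k170 k255 14 (.d k2 k1 k254 0 13)))))) (.c k252 (.q k8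
  [(.s k12 k4 1 (.s k170 k255 14 (.s k89 k251 12 (.s k81 k93 1 (.d k243 k162 k166 12 14))))), (.s k4
  k12 1 (.s k84 k87 0 (.s k166 k247 12 (.s k6 k246 11 (.s k7 k5 0 (.d k244 k164 k165 11 12)))))),
  (.s k84 k87 0 (.s k170 k255 14 (.s k89 k251 12 (.s k92 k83 2 (.s k80 k88 1 (.s k93 k81 1 (.d k95
  k94 k90 0 2)))))))] (.c k243 (.l (.s k4 k12 1 (.s k84 k87 0 (.s k166 k247 12 (.s k244 k164 11 (.s
  k7 k165 12 (.d k6 k5 k246 0 11))))))) (.c k247 (.l (.s k12 k4 1 (.s k170 k255 14 (.s k89 k251 12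
  (.s k243 k166 14 (.d k81 k93 k162 1 12)))))) .n))) (.c k254 (.l (.s k87 k84 0 (.s k255 k170 14 (.s
  k3 k171 13 (.s k1 k2 0 (.d k169 k253 k252 13 14)))))) (.c k255 (.q k70 [(.s k102 k118 3 (.s k68
  k119 4 (.s k71 k69 0 (.s k116 k101 4 (.d k84 k87 k100 0 3))))), (.s k84 k87 0 (.s k102 k118 3 (.s
  k252 k168 13 (.s k3 k169 14 (.s k204 k137 10 (.d k68 k119 k136 4 9)))))), (.s k84 k87 0 (.s k252
  k168 13 (.s k3 k169 14 (.s k204 k137 10 (.s k68 k136 9 (.s k71 k69 0 (.d k116 k100 k101 3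
  4))))))), (.s k102 k118 3 (.s k68 k119 4 (.s k204 k136 9 (.s k3 k137 10 (.s k1 k2 0 (.d k169 k253
  k252 13 14))))))] (.c k15 (.q k95 [(.s k87 k84 0 (.s k90 k80 2 (.s k94 k82 1 (.s k92 k93 0 (.d k83
  k91 k89 1 2))))), (.s k84 k87 0 (.s k102 k118 3 (.s k68 k119 4 (.s k71 k69 0 (.d k116 k100 k101 3
  4))))), (.s k90 k80 2 (.s k94 k82 1 (.s k102 k118 3 (.s k78 k114 5 (.s k66 k74 1 (.d k126 k110
  k106 3 5))))))] (.c k3 (.q k7 [(.s k87 k84 0 (.s k83 k91 1 (.s k90 k80 2 (.s k92 k89 2 (.d k94 k93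
  k82 0 1))))), (.s k102 k118 3 (.s k165 k244 12 (.s k39 k228 8 (.s k55 k23 3 (.d k196 k133 k149 8
  12)))))] (.c k87 (.q k171 [(.s k102 k118 3 (.s k196 k133 8 (.s k55 k149 12 (.s k165 k244 12 (.d
  k39 k23 k228 3 8))))), (.s k90 k80 2 (.s k94 k82 1 (.s k102 k118 3 (.s k78 k114 5 (.s k126 k110 3
  (.d k66 k74 k106 1 5)))))), (.s k133 k196 8 (.s k165 k244 12 (.s k5 k245 11 (.s k69 k197 7 (.s k71
  k68 0 (.d k101 k117 k116 3 4))))))] .n) (.c k171 (.l (.s k87 k84 0 (.s k90 k80 2 (.s k94 k82 1 (.s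
  k92 k93 0 (.d k83 k91 k89 1 2)))))) .n))) (.c k7 (.q k3 [(.s k1 k2 0 (.d k169 k253 k252 13 14)),
  (.s k102 k118 3 (.s k68 k119 4 (.d k204 k136 k137 9 10)))] .n) .n))) (.c k68 (.l (.s k84 k87 0 (.s
  k102 k118 3 (.s k252 k168 13 (.s k3 k169 14 (.s k204 k137 10 (.s k153 k51 14 (.d k220 k236 k19 3
  10)))))))) (.c k95 (.q k15 [(.s k102 k118 3 (.s k68 k119 4 (.s k71 k69 0 (.s k116 k101 4 (.d k84
  k87 k100 0 3))))), (.s k5 k10 2 (.s k84 k87 0 (.s k165 k245 11 (.s k240 k90 14 (.s k244 k7 12 (.d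
  k252 k248 k168 1 13)))))), (.s k102 k118 3 (.s k68 k119 4 (.s k204 k136 9 (.s k3 k137 10 (.s k1 k2
  0 (.d k169 k253 k252 13 14))))))] .n) .n)))) .n))))))))))))

/-- roots with certificates -/
def certs : List (Cell TT 256 × Cell TT 256 × T TT 256) :=
  [(k11, k43, t11_43), (k11, k44, t11_44), (k11, k45, t11_45), (k11, k46, t11_46), (k11, k47,
  t11_47), (k11, k51, t11_51), (k11, k54, t11_54), (k11, k55, t11_55), (k11, k56, t11_56), (k11,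
  k57, t11_57), (k11, k58, t11_58), (k11, k59, t11_59), (k11, k60, t11_60), (k11, k61, t11_61),
  (k11, k62, t11_62), (k11, k63, t11_63), (k11, k90, t11_90), (k11, k91, t11_91), (k11, k94,
  t11_94), (k11, k98, t11_98), (k11, k99, t11_99), (k11, k102, t11_102), (k11, k103, t11_103), (k11,
  k104, t11_104), (k11, k105, t11_105), (k11, k106, t11_106), (k11, k107, t11_107), (k11, k108,
  t11_108), (k11, k109, t11_109), (k11, k110, t11_110), (k11, k111, t11_111), (k11, k114, t11_114),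
  (k11, k115, t11_115), (k11, k118, t11_118), (k11, k120, t11_120), (k11, k122, t11_122), (k11,
  k123, t11_123), (k11, k124, t11_124), (k11, k126, t11_126), (k11, k127, t11_127), (k11, k161,
  t11_161), (k11, k162, t11_162), (k11, k163, t11_163), (k11, k164, t11_164), (k11, k165, t11_165),
  (k11, k166, t11_166), (k11, k167, t11_167), (k11, k168, t11_168), (k11, k169, t11_169), (k11,
  k171, t11_171), (k11, k172, t11_172), (k11, k173, t11_173), (k11, k174, t11_174), (k11, k175,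
  t11_175)]

theorem c11_43 : rootOK k11 k43 t11_43 = true := by decide +kernel

theorem c11_44 : rootOK k11 k44 t11_44 = true := by decide +kernel

theorem c11_45 : rootOK k11 k45 t11_45 = true := by decide +kernel

theorem c11_46 : rootOK k11 k46 t11_46 = true := by decide +kernel

theorem c11_47 : rootOK k11 k47 t11_47 = true := by decide +kernel

theorem c11_51 : rootOK k11 k51 t11_51 = true := by decide +kernel

theorem c11_54 : rootOK k11 k54 t11_54 = true := by decide +kernel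

theorem c11_55 : rootOK k11 k55 t11_55 = true := by decide +kernel

theorem c11_56 : rootOK k11 k56 t11_56 = true := by decide +kernel

theorem c11_57 : rootOK k11 k57 t11_57 = true := by decide +kernel

theorem c11_58 : rootOK k11 k58 t11_58 = true := by decide +kernel

theorem c11_59 : rootOK k11 k59 t11_59 = true := by decide +kernel

theorem c11_60 : rootOK k11 k60 t11_60 = true := by decide +kernel

theorem c11_61 : rootOK k11 k61 t11_61 = true := by decide +kernel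

theorem c11_62 : rootOK k11 k62 t11_62 = true := by decide +kernel

theorem c11_63 : rootOK k11 k63 t11_63 = true := by decide +kernel

theorem c11_90 : rootOK k11 k90 t11_90 = true := by decide +kernel

theorem c11_91 : rootOK k11 k91 t11_91 = true := by decide +kernel

theorem c11_94 : rootOK k11 k94 t11_94 = true := by decide +kernel

theorem c11_98 : rootOK k11 k98 t11_98 = true := by decide +kernel

theorem c11_99 : rootOK k11 k99 t11_99 = true := by decide +kernel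

theorem c11_102 : rootOK k11 k102 t11_102 = true := by decide +kernel

theorem c11_103 : rootOK k11 k103 t11_103 = true := by decide +kernel

theorem c11_104 : rootOK k11 k104 t11_104 = true := by decide +kernel

theorem c11_105 : rootOK k11 k105 t11_105 = true := by decide +kernel

theorem c11_106 : rootOK k11 k106 t11_106 = true := by decide +kernel

theorem c11_107 : rootOK k11 k107 t11_107 = true := by decide +kernel

theorem c11_108 : rootOK k11 k108 t11_108 = true := by decide +kernel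

theorem c11_109 : rootOK k11 k109 t11_109 = true := by decide +kernel

theorem c11_110 : rootOK k11 k110 t11_110 = true := by decide +kernel

theorem c11_111 : rootOK k11 k111 t11_111 = true := by decide +kernel

theorem c11_114 : rootOK k11 k114 t11_114 = true := by decide +kernel

theorem c11_115 : rootOK k11 k115 t11_115 = true := by decide +kernel

theorem c11_118 : rootOK k11 k118 t11_118 = true := by decide +kernel

theorem c11_120 : rootOK k11 k120 t11_120 = true := by decide +kernel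

theorem c11_122 : rootOK k11 k122 t11_122 = true := by decide +kernel

theorem c11_123 : rootOK k11 k123 t11_123 = true := by decide +kernel

theorem c11_124 : rootOK k11 k124 t11_124 = true := by decide +kernel

theorem c11_126 : rootOK k11 k126 t11_126 = true := by decide +kernel

theorem c11_127 : rootOK k11 k127 t11_127 = true := by decide +kernel

theorem c11_161 : rootOK k11 k161 t11_161 = true := by decide +kernel

theorem c11_162 : rootOK k11 k162 t11_162 = true := by decide +kernel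

theorem c11_163 : rootOK k11 k163 t11_163 = true := by decide +kernel

theorem c11_164 : rootOK k11 k164 t11_164 = true := by decide +kernel

theorem c11_165 : rootOK k11 k165 t11_165 = true := by decide +kernel

theorem c11_166 : rootOK k11 k166 t11_166 = true := by decide +kernel

theorem c11_167 : rootOK k11 k167 t11_167 = true := by decide +kernel

theorem c11_168 : rootOK k11 k168 t11_168 = true := by decide +kernel

theorem c11_169 : rootOK k11 k169 t11_169 = true := by decide +kernel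

theorem c11_171 : rootOK k11 k171 t11_171 = true := by decide +kernel

theorem c11_172 : rootOK k11 k172 t11_172 = true := by decide +kernel

theorem c11_173 : rootOK k11 k173 t11_173 = true := by decide +kernel

theorem c11_174 : rootOK k11 k174 t11_174 = true := by decide +kernel

theorem c11_175 : rootOK k11 k175 t11_175 = true := by decide +kernel

theorem ok : certsOK certs = true :=
  certsOK_cons c11_43 (certsOK_cons c11_44 (certsOK_cons c11_45 (certsOK_cons c11_46 (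
  certsOK_cons c11_47 (certsOK_cons c11_51 (certsOK_cons c11_54 (certsOK_cons c11_55 (
  certsOK_cons c11_56 (certsOK_cons c11_57 (certsOK_cons c11_58 (certsOK_cons c11_59 (
  certsOK_cons c11_60 (certsOK_cons c11_61 (certsOK_cons c11_62 (certsOK_cons c11_63 (
  certsOK_cons c11_90 (certsOK_cons c11_91 (certsOK_cons c11_94 (certsOK_cons c11_98 (
  certsOK_cons c11_99 (certsOK_cons c11_102 (certsOK_cons c11_103 (certsOK_cons c11_104 (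
  certsOK_cons c11_105 (certsOK_cons c11_106 (certsOK_cons c11_107 (certsOK_cons c11_108 (
  certsOK_cons c11_109 (certsOK_cons c11_110 (certsOK_cons c11_111 (certsOK_cons c11_114 (
  certsOK_cons c11_115 (certsOK_cons c11_118 (certsOK_cons c11_120 (certsOK_cons c11_122 (
  certsOK_cons c11_123 (certsOK_cons c11_124 (certsOK_cons c11_126 (certsOK_cons c11_127 (
  certsOK_cons c11_161 (certsOK_cons c11_162 (certsOK_cons c11_163 (certsOK_cons c11_164 (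
  certsOK_cons c11_165 (certsOK_cons c11_166 (certsOK_cons c11_167 (certsOK_cons c11_168 (
  certsOK_cons c11_169 (certsOK_cons c11_171 (certsOK_cons c11_172 (certsOK_cons c11_173 (
  certsOK_cons c11_174 (certsOK_cons c11_175 (certsOK_nil))))))))))))))))))))))))))))))))))))))))
  ))))))))))))))

theorem sound (k : Nat) (hk : (bits certs).testBit k = true) : PI k :=
  certs_sound certs ok k hk

end Pool.Agent.TTT.A12
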