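import Pool.Agent.TTT.Sym

set_option autoImplicit false
set_option maxRecDepth 100000

namespace Pool.Agent.TTT.A13

def t11_176 : T TT 256 :=
  (.f k255 k170 14 (.q k105 [(.s k65 k125 5 (.s k195 k130 8 (.s k150 k60 14 (.d k215 k235 k20 5
  8))))] (.c k20 (.q k1 [(.s k3 k2 0 (.s k169 k253 13 (.s k86 k252 14 (.d k87 k84 k171 0 13)))), (.s
  k65 k125 5 (.s k169 k253 13 (.s k41 k233 7 (.s k61 k21 5 (.d k193 k129 k149 7 13))))), (.s k3 k2 0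
  (.s k65 k125 5 (.s k129 k193 7 (.s k66 k192 8 (.s k67 k64 0 (.d k195 k131 k130 7 8))))))] .n) (.c
  k60 (.q k1 [(.s k3 k2 0 (.s k169 k253 13 (.s k86 k252 14 (.d k87 k84 k171 0 13)))), (.s k65 k125 5
  (.s k169 k253 13 (.s k41 k233 7 (.s k61 k21 5 (.d k193 k129 k149 7 13))))), (.s k3 k2 0 (.s k65
  k125 5 (.s k129 k193 7 (.s k66 k192 8 (.s k67 k64 0 (.d k195 k131 k130 7 8))))))] .n) (.c k65 (.q
  k84 [(.s k86 k87 0 (.s k252 k168 13 (.s k253 k254 0 (.d k169 k1 k3 13 14)))), (.s k86 k87 0 (.s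
  k124 k67 6 (.s k64 k104 5 (.s k192 k128 7 (.s k213 k234 6 (.s k149 k21 7 (.d k106 k127 k63 6
  14)))))))] (.c k86 (.f k252 k168 13 (.q k169 [(.d k253 k254 k1 0 13), (.s k233 k41 7 (.s k195 k214
  6 (.s k150 k60 14 (.d k215 k235 k20 5 8))))] (.c k2 (.l (.s k254 k253 0 (.s k233 k41 7 (.s k195
  k214 6 (.s k150 k60 14 (.d k215 k235 k20 5 8)))))) (.c k254 (.q k2 [(.d k1 k3 k253 0 13), (.s k233
  k41 7 (.s k195 k214 6 (.s k215 k235 5 (.d k150 k20 k60 8 14))))] .n) .n)))) (.c k87 (.l (.s k252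
  k168 13 (.s k253 k254 0 (.s k169 k1 13 (.s k233 k41 7 (.s k195 k214 6 (.s k150 k60 14 (.d k215
  k235 k20 5 8)))))))) .n))) (.c k125 (.q k84 [(.s k86 k87 0 (.s k252 k168 13 (.s k253 k254 0 (.d
  k169 k1 k3 13 14)))), (.s k86 k87 0 (.s k124 k67 6 (.s k64 k104 5 (.s k192 k128 7 (.s k213 k234 6
  (.s k149 k21 7 (.d k106 k127 k63 6 14)))))))] (.c k86 (.f k252 k168 13 (.q k169 [(.d k253 k254 k1
  0 13), (.s k233 k41 7 (.s k195 k214 6 (.s k150 k60 14 (.d k215 k235 k20 5 8))))] (.c k2 (.l (.s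
  k254 k253 0 (.s k233 k41 7 (.s k195 k214 6 (.s k150 k60 14 (.d k215 k235 k20 5 8)))))) (.c k254
  (.q k2 [(.d k1 k3 k253 0 13), (.s k233 k41 7 (.s k195 k214 6 (.s k215 k235 5 (.d k150 k20 k60 8
  14))))] .n) .n)))) (.c k87 (.l (.s k252 k168 13 (.s k253 k254 0 (.s k169 k1 13 (.s k233 k41 7 (.s
  k195 k214 6 (.s k150 k60 14 (.d k215 k235 k20 5 8)))))))) .n))) (.c k130 (.l (.s k125 k65 5 (.s
  k60 k190 8 (.s k150 k195 14 (.d k20 k40 k215 5 8))))) (.c k150 (.f k125 k65 5 (.q k86 [(.s k84 k87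
  0 (.s k124 k67 6 (.s k64 k104 5 (.d k127 k126 k106 0 6)))), (.s k84 k87 0 (.s k252 k168 13 (.s
  k169 k3 14 (.d k253 k254 k1 0 13)))), (.s k124 k67 6 (.s k127 k126 0 (.s k63 k191 7 (.s k21 k42 6
  (.s k149 k213 7 (.d k106 k64 k192 6 14))))))] (.c k130 (.l (.s k190 k60 8 (.s k84 k87 0 (.s k124
  k67 6 (.s k64 k104 5 (.d k127 k126 k106 0 6)))))) (.c k190 (.q k130 [(.s k84 k87 0 (.s k124 k67 6
  (.s k64 k104 5 (.d k127 k126 k106 0 6)))), (.s k84 k87 0 (.s k252 k168 13 (.s k169 k3 14 (.d k253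
  k254 k1 0 13)))), (.s k124 k67 6 (.s k127 k126 0 (.s k63 k191 7 (.s k21 k42 6 (.s k149 k213 7 (.d
  k106 k64 k192 6 14))))))] .n) .n)))) (.c k190 (.l (.s k65 k125 5 (.s k195 k130 8 (.s k150 k60 14
  (.d k215 k235 k20 5 8))))) (.c k195 (.q k1 [(.s k3 k2 0 (.s k169 k253 13 (.s k86 k252 14 (.d k87
  k84 k171 0 13)))), (.s k3 k2 0 (.s k125 k65 5 (.s k60 k190 8 (.s k40 k20 5 (.s k41 k22 6 (.s k21
  k61 5 (.d k42 k43 k63 0 6))))))), (.s k65 k125 5 (.s k169 k253 13 (.s k41 k233 7 (.s k61 k21 5 (.d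
  k193 k129 k149 7 13)))))] .n) (.c k215 (.q k1 [(.s k3 k2 0 (.s k169 k253 13 (.s k86 k252 14 (.d
  k87 k84 k171 0 13)))), (.s k65 k125 5 (.s k169 k253 13 (.s k41 k233 7 (.s k61 k21 5 (.d k193 k129
  k149 7 13))))), (.s k3 k2 0 (.s k65 k125 5 (.s k129 k193 7 (.s k66 k192 8 (.s k67 k64 0 (.d k195
  k131 k130 7 8))))))] .n) (.c k235 (.l (.s k125 k65 5 (.s k60 k190 8 (.s k20 k40 5 (.d k150 k215
  k195 8 14))))) .n))))))))))))

def t11_177 : T TT 256 :=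
  (.f k255 k170 14 (.q k106 [(.s k64 k127 6 (.s k192 k128 7 (.s k149 k63 14 (.d k213 k234 k21 6
  7))))] (.c k21 (.q k1 [(.s k3 k2 0 (.s k169 k253 13 (.s k86 k252 14 (.d k87 k84 k171 0 13)))), (.s
  k64 k127 6 (.s k192 k128 7 (.s k213 k234 6 (.s k253 k169 13 (.s k193 k233 5 (.s k65 k129 7 (.d
  k195 k130 k194 8 0))))))), (.s k3 k2 0 (.s k64 k127 6 (.s k192 k128 7 (.s k66 k129 8 (.s k86 k126
  5 (.d k87 k84 k171 0 13))))))] (.c k171 (.l (.s k3 k2 0 (.s k127 k64 6 (.s k63 k191 7 (.s k43 k23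
  5 (.d k169 k232 k253 8 13)))))) .n)) (.c k63 (.q k1 [(.s k3 k2 0 (.s k169 k253 13 (.s k86 k252 14
  (.d k87 k84 k171 0 13)))), (.s k64 k127 6 (.s k192 k128 7 (.s k213 k234 6 (.s k253 k169 13 (.s
  k193 k233 5 (.s k65 k129 7 (.d k195 k130 k194 8 0))))))), (.s k64 k127 6 (.s k169 k253 13 (.s k192
  k128 7 (.s k232 k43 8 (.s k252 k212 5 (.s k84 k168 13 (.d k86 k3 k87 14 0))))))), (.s k3 k2 0 (.s
  k64 k127 6 (.s k192 k128 7 (.s k66 k129 8 (.s k86 k126 5 (.d k87 k84 k171 0 13))))))] .n) (.c k64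
  (.q k60 [(.s k20 k40 5 (.s k125 k190 8 (.s k150 k215 8 (.d k105 k65 k195 5 14)))), (.s k20 k40 5
  (.s k150 k215 8 (.s k62 k194 13 (.s k63 k61 0 (.s k21 k42 6 (.d k149 k213 k192 7 14)))))), (.s
  k125 k190 8 (.s k105 k65 5 (.s k104 k107 0 (.s k192 k148 13 (.s k149 k63 14 (.d k213 k234 k21 6
  7))))))] (.c k105 (.q k87 [(.s k3 k171 13 (.s k1 k2 0 (.s k169 k253 13 (.d k86 k84 k252 0 14)))),
  (.s k86 k84 0 (.s k126 k66 5 (.s k190 k125 8 (.s k62 k254 7 (.s k150 k194 13 (.d k20 k40 k215 5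
  8)))))), (.s k3 k171 13 (.s k2 k1 0 (.s k22 k41 6 (.s k42 k62 5 (.s k21 k63 6 (.d k20 k40 k23 5
  0))))))] (.c k2 (.l (.s k3 k171 13 (.s k22 k41 6 (.s k86 k84 0 (.s k150 k214 7 (.d k20 k40 k215 5
  8)))))) (.c k40 (.q k235 [(.s k3 k171 13 (.s k1 k2 0 (.s k169 k253 13 (.d k86 k84 k252 0 14)))),
  (.s k86 k84 0 (.s k126 k66 5 (.s k190 k125 8 (.s k62 k254 7 (.s k150 k194 13 (.d k215 k195 k20 5
  8)))))), (.s k3 k171 13 (.s k22 k41 6 (.s k215 k195 5 (.s k20 k150 8 (.d k23 k21 k151 0 7)))))]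
  .n) (.c k235 (.l (.s k40 k20 5 (.s k3 k171 13 (.s k1 k2 0 (.s k86 k84 0 (.d k169 k253 k252 13
  14)))))) .n)))) (.c k150 (.q k149 [(.s k21 k213 7 (.d k63 k42 k192 6 14)), (.s k63 k192 14 (.s k61
  k62 0 (.s k105 k193 13 (.d k125 k190 k65 8 5))))] (.c k63 (.l (.s k213 k21 7 (.s k192 k234 6 (.s
  k104 k148 13 (.s k105 k107 0 (.d k125 k65 k190 5 8)))))) (.c k130 (.l (.s k190 k125 8 (.s k21 k213
  7 (.d k63 k42 k192 6 14)))) (.c k190 (.q k130 [(.s k21 k213 7 (.d k63 k42 k192 6 14)), (.s k63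
  k192 14 (.s k61 k62 0 (.s k65 k195 8 (.d k105 k193 k125 13 5))))] (.c k63 (.l (.s k65 k195 8 (.s
  k105 k125 5 (.s k213 k21 7 (.s k192 k234 6 (.d k104 k107 k148 0 13)))))) (.c k192 (.l (.s k21 k213
  7 (.s k63 k42 6 (.s k61 k62 0 (.s k65 k195 8 (.d k105 k193 k125 13 5)))))) .n))) (.c k192 (.l (.s
  k21 k213 7 (.s k63 k42 6 (.s k61 k62 0 (.s k105 k193 13 (.d k125 k65 k190 5 8)))))) .n))))) .n)))
  (.c k127 (.q k195 [(.s k65 k130 8 (.s k215 k235 5 (.s k150 k20 8 (.d k105 k125 k60 5 14)))), (.s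
  k65 k130 8 (.s k105 k125 5 (.s k107 k104 0 (.s k63 k151 13 (.s k21 k42 6 (.d k149 k213 k192 7
  14)))))), (.s k215 k235 5 (.s k150 k20 8 (.s k194 k62 13 (.s k192 k193 0 (.s k149 k63 14 (.d k213
  k234 k21 6 7))))))] (.c k105 (.q k149 [(.s k21 k213 7 (.d k63 k42 k192 6 14)), (.s k63 k192 14 (.s
  k151 k107 13 (.s k150 k148 0 (.d k215 k235 k20 5 8))))] (.c k40 (.l (.s k235 k215 5 (.s k21 k213 7
  (.d k63 k42 k192 6 14)))) (.c k63 (.l (.s k213 k21 7 (.s k192 k234 6 (.s k194 k193 0 (.s k150 k62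
  13 (.d k215 k235 k20 5 8)))))) (.c k192 (.l (.s k21 k213 7 (.s k63 k42 6 (.s k151 k107 13 (.s k150
  k148 0 (.d k215 k235 k20 5 8)))))) (.c k235 (.q k40 [(.s k21 k213 7 (.d k63 k42 k192 6 14)), (.s
  k20 k60 5 (.s k63 k192 14 (.s k150 k215 8 (.d k151 k148 k107 0 13))))] (.c k63 (.l (.s k20 k60 5
  (.s k150 k215 8 (.s k213 k21 7 (.s k192 k234 6 (.d k194 k62 k193 13 0)))))) (.c k192 (.l (.s k20
  k60 5 (.s k21 k213 7 (.s k63 k42 6 (.s k150 k215 8 (.d k151 k148 k107 0 13)))))) .n))) .n))))) (.c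
  k150 (.q k149 [(.s k21 k213 7 (.d k63 k42 k192 6 14)), (.s k63 k192 14 (.s k107 k151 13 (.s k105
  k104 0 (.d k65 k130 k125 8 5))))] (.c k63 (.l (.s k213 k21 7 (.s k192 k234 6 (.s k193 k194 0 (.s
  k105 k61 13 (.d k65 k125 k130 5 8)))))) (.c k130 (.q k190 [(.s k21 k213 7 (.d k63 k42 k192 6 14)),
  (.s k63 k192 14 (.s k107 k151 13 (.s k105 k104 0 (.d k125 k60 k65 8 5))))] (.c k63 (.l (.s k125
  k60 8 (.s k105 k65 5 (.s k213 k21 7 (.s k192 k234 6 (.d k193 k61 k194 13 0)))))) (.c k192 (.l (.s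
  k21 k213 7 (.s k63 k42 6 (.s k107 k151 13 (.s k105 k104 0 (.d k125 k60 k65 8 5)))))) .n))) (.c
  k190 (.l (.s k130 k65 8 (.s k21 k213 7 (.d k63 k42 k192 6 14)))) (.c k192 (.l (.s k21 k213 7 (.s
  k63 k42 6 (.s k107 k151 13 (.s k105 k104 0 (.d k65 k125 k130 5 8)))))) .n))))) .n))) (.c k128 (.l
  (.s k127 k64 6 (.s k63 k191 7 (.s k149 k192 14 (.d k21 k42 k213 6 7))))) (.c k149 (.f k127 k64 6
  (.q k90 [(.s k80 k95 2 (.s k240 k160 11 (.s k165 k15 14 (.d k245 k250 k5 2 11)))), (.s k122 k74 3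
  (.s k117 k112 2 (.s k48 k186 10 (.s k16 k32 3 (.s k154 k223 10 (.d k101 k69 k207 3 14))))))] (.c
  k80 (.l (.s k122 k74 3 (.s k112 k117 2 (.s k79 k101 6 (.s k95 k111 3 (.s k15 k175 11 (.s k5 k10 2
  (.d k165 k245 k240 11 14)))))))) (.c k128 (.l (.s k191 k63 7 (.s k80 k95 2 (.s k240 k160 11 (.s
  k165 k15 14 (.d k245 k250 k5 2 11)))))) (.c k191 (.q k128 [(.s k80 k95 2 (.s k240 k160 11 (.s k245
  k250 2 (.d k165 k5 k15 11 14)))), (.s k122 k74 3 (.s k117 k112 2 (.s k48 k186 10 (.s k16 k32 3 (.s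
  k154 k223 10 (.d k101 k69 k207 3 14))))))] (.c k80 (.l (.s k122 k74 3 (.s k112 k117 2 (.s k79 k101
  6 (.s k95 k111 3 (.s k15 k175 11 (.s k5 k10 2 (.d k165 k245 k240 11 14)))))))) .n)) .n))))) (.c
  k191 (.l (.s k64 k127 6 (.s k192 k128 7 (.s k149 k63 14 (.d k213 k234 k21 6 7))))) (.c k192 (.q k1
  [(.s k3 k2 0 (.s k169 k253 13 (.s k86 k252 14 (.d k87 k84 k171 0 13)))), (.s k127 k64 6 (.s k63
  k191 7 (.s k21 k42 6 (.s k61 k41 5 (.s k253 k169 13 (.s k125 k189 7 (.d k60 k190 k62 8 0))))))),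
  (.s k3 k2 0 (.s k127 k64 6 (.s k63 k191 7 (.s k21 k42 6 (.s k23 k43 5 (.s k22 k20 0 (.d k41 k61
  k60 5 6)))))))] .n) (.c k213 (.q k1 [(.s k3 k2 0 (.s k169 k253 13 (.s k86 k252 14 (.d k87 k84 k171
  0 13)))), (.s k127 k64 6 (.s k63 k191 7 (.s k21 k42 6 (.s k61 k41 5 (.s k60 k62 0 (.s k125 k190 8
  (.d k253 k189 k169 7 13))))))), (.s k64 k127 6 (.s k169 k253 13 (.s k192 k128 7 (.s k149 k63 14
  (.s k129 k189 5 (.s k66 k3 8 (.d k65 k193 k67 7 0))))))), (.s k3 k2 0 (.s k64 k127 6 (.s k192 k128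
  7 (.s k66 k129 8 (.s k86 k126 5 (.d k87 k84 k171 0 13))))))] .n) (.c k234 (.l (.s k127 k64 6 (.s
  k63 k191 7 (.s k21 k42 6 (.d k149 k213 k192 7 14))))) .n))))))))))))

def t11_178 : T TT 256 :=
  (.f k255 k170 14 (.q k105 [(.s k65 k125 5 (.s k195 k130 8 (.s k150 k60 14 (.d k215 k235 k20 5
  8)))), (.s k125 k65 5 (.s k60 k190 8 (.s k150 k195 14 (.d k20 k40 k215 5 8))))] (.c k20 (.q k1
  [(.s k3 k2 0 (.s k169 k253 13 (.s k86 k252 14 (.d k87 k84 k171 0 13)))), (.s k65 k125 5 (.s k169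
  k253 13 (.s k41 k233 7 (.s k61 k21 5 (.d k193 k129 k149 7 13))))), (.s k3 k2 0 (.s k65 k125 5 (.s
  k129 k193 7 (.s k66 k192 8 (.s k67 k64 0 (.d k195 k131 k130 7 8))))))] .n) (.c k60 (.q k1 [(.s k3
  k2 0 (.s k169 k253 13 (.s k86 k252 14 (.d k87 k84 k171 0 13)))), (.s k65 k125 5 (.s k169 k253 13
  (.s k41 k233 7 (.s k61 k21 5 (.d k193 k129 k149 7 13))))), (.s k3 k2 0 (.s k65 k125 5 (.s k129
  k193 7 (.s k66 k192 8 (.s k67 k64 0 (.d k195 k131 k130 7 8))))))] .n) (.c k65 (.q k84 [(.s k86 k87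
  0 (.s k252 k168 13 (.s k253 k254 0 (.d k169 k1 k3 13 14)))), (.s k86 k87 0 (.s k124 k67 6 (.s k64
  k104 5 (.s k192 k128 7 (.s k213 k234 6 (.s k149 k21 7 (.d k106 k127 k63 6 14)))))))] (.c k86 (.f
  k252 k168 13 (.q k169 [(.d k253 k254 k1 0 13), (.s k233 k41 7 (.s k195 k214 6 (.s k150 k60 14 (.d
  k215 k235 k20 5 8))))] (.c k2 (.l (.s k254 k253 0 (.s k233 k41 7 (.s k195 k214 6 (.s k150 k60 14
  (.d k215 k235 k20 5 8)))))) (.c k254 (.q k2 [(.d k1 k3 k253 0 13), (.s k233 k41 7 (.s k195 k214 6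
  (.s k215 k235 5 (.d k150 k20 k60 8 14))))] .n) .n)))) (.c k87 (.l (.s k252 k168 13 (.s k253 k254 0
  (.s k169 k1 13 (.s k233 k41 7 (.s k195 k214 6 (.s k150 k60 14 (.d k215 k235 k20 5 8)))))))) .n)))
  (.c k125 (.q k84 [(.s k86 k87 0 (.s k252 k168 13 (.s k253 k254 0 (.d k169 k1 k3 13 14)))), (.s k86
  k87 0 (.s k124 k67 6 (.s k64 k104 5 (.s k192 k128 7 (.s k213 k234 6 (.s k149 k21 7 (.d k106 k127
  k63 6 14)))))))] (.c k86 (.f k252 k168 13 (.q k169 [(.d k253 k254 k1 0 13), (.s k233 k41 7 (.s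
  k195 k214 6 (.s k150 k60 14 (.d k215 k235 k20 5 8))))] (.c k2 (.l (.s k254 k253 0 (.s k233 k41 7
  (.s k195 k214 6 (.s k150 k60 14 (.d k215 k235 k20 5 8)))))) (.c k254 (.q k2 [(.d k1 k3 k253 0 13),
  (.s k233 k41 7 (.s k195 k214 6 (.s k215 k235 5 (.d k150 k20 k60 8 14))))] .n) .n)))) (.c k87 (.l
  (.s k252 k168 13 (.s k253 k254 0 (.s k169 k1 13 (.s k233 k41 7 (.s k195 k214 6 (.s k150 k60 14 (.d
  k215 k235 k20 5 8)))))))) .n))) (.c k130 (.l (.s k125 k65 5 (.s k60 k190 8 (.s k150 k195 14 (.d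
  k20 k40 k215 5 8))))) (.c k150 (.f k125 k65 5 (.f k190 k60 8 (.q k21 [(.s k63 k42 6 (.s k127 k191
  7 (.s k149 k213 7 (.d k106 k64 k192 6 14)))), (.s k149 k213 7 (.s k61 k193 13 (.s k1 k41 5 (.d
  k253 k189 k169 7 13)))), (.s k63 k42 6 (.s k191 k127 7 (.s k189 k188 0 (.s k252 k126 8 (.d k253
  k254 k61 0 7)))))] .n))) (.c k190 (.l (.s k65 k125 5 (.s k195 k130 8 (.s k150 k60 14 (.d k215 k235
  k20 5 8))))) (.c k195 (.q k1 [(.s k3 k2 0 (.s k169 k253 13 (.s k86 k252 14 (.d k87 k84 k171 0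
  13)))), (.s k3 k2 0 (.s k125 k65 5 (.s k60 k190 8 (.s k40 k20 5 (.s k41 k22 6 (.s k21 k61 5 (.d
  k42 k43 k63 0 6))))))), (.s k65 k125 5 (.s k169 k253 13 (.s k41 k233 7 (.s k61 k21 5 (.d k193 k129
  k149 7 13)))))] .n) (.c k215 (.q k1 [(.s k3 k2 0 (.s k169 k253 13 (.s k86 k252 14 (.d k87 k84 k171
  0 13)))), (.s k65 k125 5 (.s k169 k253 13 (.s k41 k233 7 (.s k61 k21 5 (.d k193 k129 k149 7
  13))))), (.s k3 k2 0 (.s k65 k125 5 (.s k129 k193 7 (.s k66 k192 8 (.s k67 k64 0 (.d k195 k131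
  k130 7 8))))))] .n) .n)))))))))))

def t11_179 : T TT 256 :=
  (.f k255 k170 14 (.q k105 [(.s k65 k125 5 (.s k195 k130 8 (.s k150 k60 14 (.d k215 k235 k20 5
  8))))] (.c k20 (.q k1 [(.s k3 k2 0 (.s k169 k253 13 (.s k86 k252 14 (.d k87 k84 k171 0 13)))), (.s
  k65 k125 5 (.s k169 k253 13 (.s k41 k233 7 (.s k61 k21 5 (.d k193 k129 k149 7 13))))), (.s k3 k2 0
  (.s k65 k125 5 (.s k129 k193 7 (.s k66 k192 8 (.s k67 k64 0 (.d k195 k131 k130 7 8))))))] .n) (.c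
  k60 (.q k1 [(.s k3 k2 0 (.s k169 k253 13 (.s k86 k252 14 (.d k87 k84 k171 0 13)))), (.s k65 k125 5
  (.s k169 k253 13 (.s k41 k233 7 (.s k61 k21 5 (.d k193 k129 k149 7 13))))), (.s k3 k2 0 (.s k65
  k125 5 (.s k129 k193 7 (.s k66 k192 8 (.s k67 k64 0 (.d k195 k131 k130 7 8))))))] .n) (.c k65 (.q
  k84 [(.s k86 k87 0 (.s k252 k168 13 (.s k253 k254 0 (.d k169 k1 k3 13 14)))), (.s k86 k87 0 (.s
  k124 k67 6 (.s k64 k104 5 (.s k192 k128 7 (.s k213 k234 6 (.s k149 k21 7 (.d k106 k127 k63 6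
  14)))))))] (.c k86 (.f k252 k168 13 (.q k169 [(.d k253 k254 k1 0 13), (.s k233 k41 7 (.s k195 k214
  6 (.s k150 k60 14 (.d k215 k235 k20 5 8))))] (.c k2 (.l (.s k254 k253 0 (.s k233 k41 7 (.s k195
  k214 6 (.s k150 k60 14 (.d k215 k235 k20 5 8)))))) (.c k254 (.q k2 [(.d k1 k3 k253 0 13), (.s k233
  k41 7 (.s k195 k214 6 (.s k215 k235 5 (.d k150 k20 k60 8 14))))] .n) .n)))) (.c k87 (.l (.s k252
  k168 13 (.s k253 k254 0 (.s k169 k1 13 (.s k233 k41 7 (.s k195 k214 6 (.s k150 k60 14 (.d k215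
  k235 k20 5 8)))))))) .n))) (.c k125 (.q k84 [(.s k86 k87 0 (.s k252 k168 13 (.s k253 k254 0 (.d
  k169 k1 k3 13 14)))), (.s k86 k87 0 (.s k124 k67 6 (.s k64 k104 5 (.s k192 k128 7 (.s k213 k234 6
  (.s k149 k21 7 (.d k106 k127 k63 6 14)))))))] (.c k86 (.f k252 k168 13 (.q k169 [(.d k253 k254 k1
  0 13), (.s k233 k41 7 (.s k195 k214 6 (.s k150 k60 14 (.d k215 k235 k20 5 8))))] (.c k2 (.l (.s
  k254 k253 0 (.s k233 k41 7 (.s k195 k214 6 (.s k150 k60 14 (.d k215 k235 k20 5 8)))))) (.c k254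
  (.q k2 [(.d k1 k3 k253 0 13), (.s k233 k41 7 (.s k195 k214 6 (.s k215 k235 5 (.d k150 k20 k60 8
  14))))] .n) .n)))) (.c k87 (.l (.s k252 k168 13 (.s k253 k254 0 (.s k169 k1 13 (.s k233 k41 7 (.s
  k195 k214 6 (.s k150 k60 14 (.d k215 k235 k20 5 8)))))))) .n))) (.c k130 (.l (.s k125 k65 5 (.s
  k60 k190 8 (.s k150 k195 14 (.d k20 k40 k215 5 8))))) (.c k150 (.f k125 k65 5 (.q k149 [(.s k21
  k213 7 (.s k63 k42 6 (.s k106 k192 14 (.d k127 k64 k191 6 7)))), (.s k61 k193 13 (.s k253 k189 7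
  (.s k252 k254 0 (.s k84 k168 13 (.s k86 k87 0 (.d k169 k1 k3 13 14))))))] (.c k130 (.l (.s k190
  k60 8 (.s k21 k213 7 (.s k61 k193 13 (.s k1 k41 5 (.d k253 k189 k169 7 13)))))) (.c k190 (.q k130
  [(.s k21 k213 7 (.s k63 k42 6 (.s k106 k192 14 (.d k127 k64 k191 6 7)))), (.s k61 k193 13 (.s k253
  k189 7 (.s k252 k254 0 (.s k84 k168 13 (.s k86 k87 0 (.d k169 k1 k3 13 14))))))] (.c k191 (.l (.s
  k21 k213 7 (.s k61 k193 13 (.s k1 k41 5 (.d k253 k189 k169 7 13))))) .n)) .n)))) (.c k190 (.l (.s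
  k65 k125 5 (.s k195 k130 8 (.s k150 k60 14 (.d k215 k235 k20 5 8))))) (.c k195 (.q k1 [(.s k3 k2 0
  (.s k169 k253 13 (.s k86 k252 14 (.d k87 k84 k171 0 13)))), (.s k3 k2 0 (.s k125 k65 5 (.s k60
  k190 8 (.s k40 k20 5 (.s k41 k22 6 (.s k21 k61 5 (.d k42 k43 k63 0 6))))))), (.s k65 k125 5 (.s
  k169 k253 13 (.s k41 k233 7 (.s k61 k21 5 (.d k193 k129 k149 7 13)))))] .n) (.c k215 (.q k1 [(.s
  k3 k2 0 (.s k169 k253 13 (.s k86 k252 14 (.d k87 k84 k171 0 13)))), (.s k65 k125 5 (.s k169 k253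
  13 (.s k41 k233 7 (.s k61 k21 5 (.d k193 k129 k149 7 13))))), (.s k3 k2 0 (.s k65 k125 5 (.s k129
  k193 7 (.s k66 k192 8 (.s k67 k64 0 (.d k195 k131 k130 7 8))))))] .n) (.c k235 (.l (.s k125 k65 5
  (.s k60 k190 8 (.s k20 k40 5 (.d k150 k215 k195 8 14))))) .n))))))))))))

def t11_180 : T TT 256 :=
  (.f k255 k170 14 (.q k106 [(.s k64 k127 6 (.s k192 k128 7 (.s k149 k63 14 (.d k213 k234 k21 6
  7))))] (.c k21 (.q k1 [(.s k3 k2 0 (.s k169 k253 13 (.s k86 k252 14 (.d k87 k84 k171 0 13)))), (.s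
  k64 k127 6 (.s k192 k128 7 (.s k213 k234 6 (.s k253 k169 13 (.s k193 k233 5 (.s k65 k129 7 (.d
  k195 k130 k194 8 0))))))), (.s k3 k2 0 (.s k64 k127 6 (.s k192 k128 7 (.s k66 k129 8 (.s k86 k126
  5 (.d k87 k84 k171 0 13))))))] (.c k171 (.l (.s k3 k2 0 (.s k127 k64 6 (.s k63 k191 7 (.s k43 k23
  5 (.d k169 k232 k253 8 13)))))) .n)) (.c k63 (.q k1 [(.s k3 k2 0 (.s k169 k253 13 (.s k86 k252 14
  (.d k87 k84 k171 0 13)))), (.s k64 k127 6 (.s k192 k128 7 (.s k213 k234 6 (.s k253 k169 13 (.s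
  k193 k233 5 (.s k65 k129 7 (.d k195 k130 k194 8 0))))))), (.s k64 k127 6 (.s k169 k253 13 (.s k192
  k128 7 (.s k232 k43 8 (.s k252 k212 5 (.s k84 k168 13 (.d k86 k3 k87 14 0))))))), (.s k3 k2 0 (.s
  k64 k127 6 (.s k192 k128 7 (.s k66 k129 8 (.s k86 k126 5 (.d k87 k84 k171 0 13))))))] .n) (.c k64
  (.q k204 [(.s k68 k136 9 (.s k102 k119 4 (.s k153 k51 14 (.d k221 k238 k17 4 9)))), (.s k68 k136 9
  (.s k102 k119 4 (.s k110 k98 1 (.s k63 k157 12 (.s k21 k42 6 (.d k149 k213 k192 7 14)))))), (.s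
  k221 k238 4 (.s k153 k17 9 (.s k200 k59 12 (.s k192 k196 1 (.s k149 k63 14 (.d k213 k234 k21 6
  7))))))] (.c k102 (.q k72 [(.s k89 k123 4 (.s k81 k93 1 (.s k243 k162 12 (.s k166 k12 14 (.d k247
  k251 k4 1 12))))), (.s k136 k68 9 (.s k200 k8 7 (.s k153 k59 12 (.d k221 k238 k17 4 9)))), (.s
  k136 k68 9 (.s k8 k200 7 (.s k12 k4 1 (.s k132 k192 9 (.d k140 k128 k76 1 7)))))] (.c k34 (.l (.s
  k238 k221 4 (.s k89 k123 4 (.s k81 k93 1 (.s k243 k162 12 (.s k166 k12 14 (.d k247 k251 k4 1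
  12))))))) (.c k238 (.q k34 [(.s k17 k51 4 (.s k136 k68 9 (.s k153 k221 9 (.d k200 k8 k59 7 12)))),
  (.s k89 k123 4 (.s k81 k93 1 (.s k243 k162 12 (.s k166 k12 14 (.d k247 k251 k4 1 12)))))] .n)
  .n))) (.c k153 (.q k93 [(.s k12 k174 12 (.s k89 k81 1 (.s k166 k243 14 (.d k4 k8 k247 1 12)))),
  (.s k221 k238 4 (.s k157 k29 7 (.s k63 k110 12 (.s k21 k42 6 (.d k149 k213 k192 7 14)))))] (.c
  k136 (.q k187 [(.s k12 k174 12 (.s k89 k81 1 (.s k166 k243 14 (.d k4 k8 k247 1 12)))), (.s k89 k81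
  1 (.s k119 k51 9 (.s k123 k72 4 (.s k115 k127 1 (.d k102 k68 k76 4 6))))), (.s k12 k174 12 (.s k76
  k140 7 (.s k110 k127 4 (.s k119 k51 9 (.d k102 k98 k68 1 4)))))] (.c k98 (.l (.s k12 k174 12 (.s
  k4 k8 1 (.s k166 k247 12 (.d k89 k81 k243 1 14))))) .n)) (.c k174 (.l (.s k221 k238 4 (.s k157 k29
  7 (.s k110 k63 12 (.s k102 k98 1 (.d k68 k119 k136 4 9)))))) (.c k187 (.l (.s k136 k68 9 (.s k12
  k174 12 (.s k4 k8 1 (.s k89 k81 1 (.d k166 k247 k243 12 14)))))) .n)))) .n))) (.c k127 (.q k51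
  [(.s k17 k34 4 (.s k119 k187 9 (.s k102 k68 4 (.d k153 k221 k204 9 14)))), (.s k17 k34 4 (.s k153
  k221 9 (.s k59 k200 12 (.s k63 k55 1 (.s k21 k42 6 (.d k149 k213 k192 7 14)))))), (.s k119 k187 9
  (.s k102 k68 4 (.s k98 k110 1 (.s k192 k145 12 (.s k149 k63 14 (.d k213 k234 k21 6 7))))))] (.c
  k102 (.q k207 [(.s k69 k138 10 (.s k223 k239 3 (.s k154 k16 10 (.d k101 k117 k48 3 14)))), (.s
  k103 k155 13 (.s k119 k187 9 (.s k87 k71 3 (.s k171 k3 13 (.d k239 k223 k35 3 9))))), (.s k69 k138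
  10 (.s k101 k117 3 (.s k111 k96 2 (.s k63 k159 11 (.s k21 k42 6 (.d k149 k213 k192 7 14))))))] (.c
  k34 (.q k238 [(.s k69 k138 10 (.s k223 k239 3 (.s k154 k16 10 (.d k101 k117 k48 3 14)))), (.s k103
  k155 13 (.s k119 k187 9 (.s k87 k71 3 (.s k171 k3 13 (.d k239 k223 k35 3 9))))), (.s k69 k138 10
  (.s k101 k117 3 (.s k111 k96 2 (.s k63 k159 11 (.s k21 k42 6 (.d k149 k213 k192 7 14))))))] .n)
  (.c k238 (.l (.s k34 k17 4 (.s k69 k138 10 (.s k101 k117 3 (.s k154 k48 14 (.d k223 k239 k16 3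
  10)))))) .n))) (.c k153 (.q k89 [(.s k93 k81 1 (.s k12 k174 12 (.s k166 k243 14 (.d k4 k8 k247 1
  12)))), (.s k123 k72 4 (.s k187 k119 9 (.s k59 k251 7 (.s k63 k55 1 (.s k21 k42 6 (.d k149 k213
  k192 7 14))))))] (.c k136 (.l (.s k187 k119 9 (.s k81 k93 1 (.s k123 k72 4 (.s k243 k162 12 (.d
  k251 k247 k59 1 7)))))) (.c k187 (.q k136 [(.s k68 k204 9 (.s k72 k123 4 (.s k76 k64 1 (.d k102
  k119 k115 4 6)))), (.s k93 k81 1 (.s k12 k174 12 (.s k4 k8 1 (.d k166 k247 k243 12 14))))] .n) (.c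
  k247 (.l (.s k81 k93 1 (.s k243 k162 12 (.s k115 k179 7 (.s k98 k64 4 (.d k102 k110 k76 1 6))))))
  .n)))) .n))) (.c k128 (.l (.s k127 k64 6 (.s k63 k191 7 (.s k149 k192 14 (.d k21 k42 k213 6 7)))))
  (.c k149 (.f k127 k64 6 (.q k90 [(.s k80 k95 2 (.s k240 k160 11 (.s k165 k15 14 (.d k245 k250 k5 2
  11)))), (.s k122 k74 3 (.s k117 k112 2 (.s k48 k186 10 (.s k16 k32 3 (.s k154 k223 10 (.d k101 k69
  k207 3 14))))))] (.c k80 (.l (.s k122 k74 3 (.s k112 k117 2 (.s k79 k101 6 (.s k95 k111 3 (.s k15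
  k175 11 (.s k5 k10 2 (.d k165 k245 k240 11 14)))))))) (.c k128 (.l (.s k191 k63 7 (.s k80 k95 2
  (.s k240 k160 11 (.s k165 k15 14 (.d k245 k250 k5 2 11)))))) (.c k191 (.q k128 [(.s k80 k95 2 (.s
  k240 k160 11 (.s k245 k250 2 (.d k165 k5 k15 11 14)))), (.s k122 k74 3 (.s k117 k112 2 (.s k48
  k186 10 (.s k16 k32 3 (.s k154 k223 10 (.d k101 k69 k207 3 14))))))] (.c k80 (.l (.s k122 k74 3
  (.s k112 k117 2 (.s k79 k101 6 (.s k95 k111 3 (.s k15 k175 11 (.s k5 k10 2 (.d k165 k245 k240 11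
  14)))))))) .n)) .n))))) (.c k191 (.l (.s k64 k127 6 (.s k192 k128 7 (.s k149 k63 14 (.d k213 k234
  k21 6 7))))) (.c k192 (.q k1 [(.s k3 k2 0 (.s k169 k253 13 (.s k86 k252 14 (.d k87 k84 k171 0
  13)))), (.s k127 k64 6 (.s k63 k191 7 (.s k21 k42 6 (.s k61 k41 5 (.s k253 k169 13 (.s k125 k189 7
  (.d k60 k190 k62 8 0))))))), (.s k3 k2 0 (.s k127 k64 6 (.s k63 k191 7 (.s k21 k42 6 (.s k23 k43 5
  (.s k22 k20 0 (.d k41 k61 k60 5 6)))))))] .n) (.c k213 (.q k1 [(.s k3 k2 0 (.s k169 k253 13 (.s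
  k86 k252 14 (.d k87 k84 k171 0 13)))), (.s k127 k64 6 (.s k63 k191 7 (.s k21 k42 6 (.s k61 k41 5
  (.s k60 k62 0 (.s k125 k190 8 (.d k253 k189 k169 7 13))))))), (.s k64 k127 6 (.s k169 k253 13 (.s
  k192 k128 7 (.s k149 k63 14 (.s k129 k189 5 (.s k66 k3 8 (.d k65 k193 k67 7 0))))))), (.s k3 k2 0
  (.s k64 k127 6 (.s k192 k128 7 (.s k66 k129 8 (.s k86 k126 5 (.d k87 k84 k171 0 13))))))] .n) (.c
  k234 (.l (.s k127 k64 6 (.s k63 k191 7 (.s k21 k42 6 (.d k149 k213 k192 7 14))))) .n))))))))))))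

def t11_181 : T TT 256 :=
  (.f k255 k170 14 (.q k105 [(.s k65 k125 5 (.s k195 k130 8 (.s k150 k60 14 (.d k215 k235 k20 5
  8))))] (.c k20 (.q k1 [(.s k3 k2 0 (.s k169 k253 13 (.s k86 k252 14 (.d k87 k84 k171 0 13)))), (.s
  k65 k125 5 (.s k169 k253 13 (.s k41 k233 7 (.s k61 k21 5 (.d k193 k129 k149 7 13))))), (.s k3 k2 0
  (.s k65 k125 5 (.s k129 k193 7 (.s k66 k192 8 (.s k67 k64 0 (.d k195 k131 k130 7 8))))))] .n) (.c
  k60 (.q k1 [(.s k3 k2 0 (.s k169 k253 13 (.s k86 k252 14 (.d k87 k84 k171 0 13)))), (.s k65 k125 5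
  (.s k169 k253 13 (.s k41 k233 7 (.s k61 k21 5 (.d k193 k129 k149 7 13))))), (.s k3 k2 0 (.s k65
  k125 5 (.s k129 k193 7 (.s k66 k192 8 (.s k67 k64 0 (.d k195 k131 k130 7 8))))))] .n) (.c k65 (.q
  k84 [(.s k86 k87 0 (.s k252 k168 13 (.s k253 k254 0 (.d k169 k1 k3 13 14)))), (.s k86 k87 0 (.s
  k124 k67 6 (.s k64 k104 5 (.s k192 k128 7 (.s k213 k234 6 (.s k149 k21 7 (.d k106 k127 k63 6
  14)))))))] (.c k86 (.f k252 k168 13 (.q k169 [(.d k253 k254 k1 0 13), (.s k233 k41 7 (.s k195 k214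
  6 (.s k150 k60 14 (.d k215 k235 k20 5 8))))] (.c k2 (.l (.s k254 k253 0 (.s k233 k41 7 (.s k195
  k214 6 (.s k150 k60 14 (.d k215 k235 k20 5 8)))))) (.c k254 (.q k2 [(.d k1 k3 k253 0 13), (.s k233
  k41 7 (.s k195 k214 6 (.s k215 k235 5 (.d k150 k20 k60 8 14))))] .n) .n)))) (.c k87 (.l (.s k252
  k168 13 (.s k253 k254 0 (.s k169 k1 13 (.s k233 k41 7 (.s k195 k214 6 (.s k150 k60 14 (.d k215
  k235 k20 5 8)))))))) .n))) (.c k125 (.q k84 [(.s k86 k87 0 (.s k252 k168 13 (.s k253 k254 0 (.d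
  k169 k1 k3 13 14)))), (.s k86 k87 0 (.s k124 k67 6 (.s k64 k104 5 (.s k192 k128 7 (.s k213 k234 6
  (.s k149 k21 7 (.d k106 k127 k63 6 14)))))))] (.c k86 (.f k252 k168 13 (.q k169 [(.d k253 k254 k1
  0 13), (.s k233 k41 7 (.s k195 k214 6 (.s k150 k60 14 (.d k215 k235 k20 5 8))))] (.c k2 (.l (.s
  k254 k253 0 (.s k233 k41 7 (.s k195 k214 6 (.s k150 k60 14 (.d k215 k235 k20 5 8)))))) (.c k254
  (.q k2 [(.d k1 k3 k253 0 13), (.s k233 k41 7 (.s k195 k214 6 (.s k215 k235 5 (.d k150 k20 k60 8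
  14))))] .n) .n)))) (.c k87 (.l (.s k252 k168 13 (.s k253 k254 0 (.s k169 k1 13 (.s k233 k41 7 (.s
  k195 k214 6 (.s k150 k60 14 (.d k215 k235 k20 5 8)))))))) .n))) (.c k130 (.l (.s k125 k65 5 (.s
  k60 k190 8 (.s k150 k195 14 (.d k20 k40 k215 5 8))))) (.c k150 (.f k125 k65 5 (.q k149 [(.s k21
  k213 7 (.s k63 k42 6 (.s k106 k192 14 (.d k127 k64 k191 6 7)))), (.s k61 k193 13 (.s k253 k189 7
  (.s k252 k254 0 (.s k84 k168 13 (.s k86 k87 0 (.d k169 k1 k3 13 14))))))] (.c k130 (.l (.s k190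
  k60 8 (.s k21 k213 7 (.s k61 k193 13 (.s k1 k41 5 (.d k253 k189 k169 7 13)))))) (.c k190 (.q k130
  [(.s k21 k213 7 (.s k63 k42 6 (.s k106 k192 14 (.d k127 k64 k191 6 7)))), (.s k61 k193 13 (.s k253
  k189 7 (.s k252 k254 0 (.s k84 k168 13 (.s k86 k87 0 (.d k169 k1 k3 13 14))))))] (.c k191 (.l (.s
  k21 k213 7 (.s k61 k193 13 (.s k1 k41 5 (.d k253 k189 k169 7 13))))) .n)) .n)))) (.c k190 (.l (.s
  k65 k125 5 (.s k195 k130 8 (.s k150 k60 14 (.d k215 k235 k20 5 8))))) (.c k195 (.q k1 [(.s k3 k2 0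
  (.s k169 k253 13 (.s k86 k252 14 (.d k87 k84 k171 0 13)))), (.s k3 k2 0 (.s k125 k65 5 (.s k60
  k190 8 (.s k40 k20 5 (.s k41 k22 6 (.s k21 k61 5 (.d k42 k43 k63 0 6))))))), (.s k65 k125 5 (.s
  k169 k253 13 (.s k41 k233 7 (.s k61 k21 5 (.d k193 k129 k149 7 13)))))] .n) (.c k215 (.q k1 [(.s
  k3 k2 0 (.s k169 k253 13 (.s k86 k252 14 (.d k87 k84 k171 0 13)))), (.s k65 k125 5 (.s k169 k253
  13 (.s k41 k233 7 (.s k61 k21 5 (.d k193 k129 k149 7 13))))), (.s k3 k2 0 (.s k65 k125 5 (.s k129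
  k193 7 (.s k66 k192 8 (.s k67 k64 0 (.d k195 k131 k130 7 8))))))] .n) (.c k235 (.l (.s k125 k65 5
  (.s k60 k190 8 (.s k20 k40 5 (.d k150 k215 k195 8 14))))) .n))))))))))))

def t11_182 : T TT 256 :=
  (.f k255 k170 14 (.q k102 [(.s k68 k119 4 (.s k204 k136 9 (.s k153 k51 14 (.d k221 k238 k17 4
  9))))] (.c k17 (.q k1 [(.s k3 k2 0 (.s k169 k253 13 (.s k86 k252 14 (.d k87 k84 k171 0 13)))), (.s
  k68 k119 4 (.s k204 k136 9 (.s k221 k238 4 (.s k253 k169 13 (.s k205 k237 3 (.s k69 k137 9 (.d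
  k207 k138 k206 10 0))))))), (.s k3 k2 0 (.s k68 k119 4 (.s k204 k136 9 (.s k70 k137 10 (.s k86
  k118 3 (.d k87 k84 k171 0 13))))))] (.c k171 (.l (.s k3 k2 0 (.s k119 k68 4 (.s k51 k187 9 (.s k35
  k19 3 (.d k169 k236 k253 10 13)))))) .n)) (.c k51 (.q k1 [(.s k3 k2 0 (.s k169 k253 13 (.s k86
  k252 14 (.d k87 k84 k171 0 13)))), (.s k68 k119 4 (.s k204 k136 9 (.s k221 k238 4 (.s k253 k169 13
  (.s k205 k237 3 (.s k69 k137 9 (.d k207 k138 k206 10 0))))))), (.s k68 k119 4 (.s k169 k253 13 (.s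
  k204 k136 9 (.s k236 k35 10 (.s k252 k220 3 (.s k84 k168 13 (.d k86 k3 k87 14 0))))))), (.s k3 k2
  0 (.s k68 k119 4 (.s k204 k136 9 (.s k70 k137 10 (.s k86 k118 3 (.d k87 k84 k171 0 13))))))] .n)
  (.c k68 (.q k21 [(.s k149 k213 7 (.s k63 k42 6 (.s k106 k192 14 (.d k127 k64 k191 6 7)))), (.s
  k149 k213 7 (.s k55 k196 12 (.s k4 k38 4 (.s k12 k8 1 (.s k93 k174 12 (.s k89 k81 1 (.d k166 k247
  k243 12 14)))))))] (.c k149 (.f k63 k42 6 (.q k106 [(.d k127 k191 k64 7 6), (.s k110 k98 1 (.s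
  k204 k157 12 (.s k153 k51 14 (.d k221 k238 k17 4 9))))] (.c k128 (.l (.s k191 k127 7 (.s k110 k98
  1 (.s k204 k157 12 (.s k153 k51 14 (.d k221 k238 k17 4 9)))))) (.c k191 (.q k128 [(.d k64 k127
  k192 6 7), (.s k110 k98 1 (.s k204 k157 12 (.s k221 k238 4 (.d k153 k17 k51 9 14))))] .n) .n))))
  (.c k213 (.l (.s k63 k42 6 (.s k127 k191 7 (.s k106 k64 6 (.s k110 k98 1 (.s k204 k157 12 (.s k153
  k51 14 (.d k221 k238 k17 4 9)))))))) .n))) (.c k119 (.q k127 [(.s k106 k64 6 (.s k63 k191 7 (.s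
  k149 k192 14 (.d k21 k42 k213 6 7)))), (.s k106 k64 6 (.s k110 k98 1 (.s k93 k76 4 (.s k12 k174 12
  (.s k4 k8 1 (.s k166 k247 12 (.d k89 k81 k243 1 14)))))))] (.c k64 (.l (.s k63 k191 7 (.s k21 k42
  6 (.s k149 k213 7 (.s k55 k196 12 (.s k51 k59 1 (.s k17 k34 4 (.d k153 k221 k204 9 14)))))))) (.c
  k106 (.f k63 k191 7 (.q k149 [(.d k21 k42 k213 6 7), (.s k55 k196 12 (.s k51 k59 1 (.s k17 k34 4
  (.d k153 k221 k204 9 14))))] (.c k42 (.q k234 [(.d k213 k192 k21 6 7), (.s k55 k196 12 (.s k51 k59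
  1 (.s k17 k34 4 (.d k153 k221 k204 9 14))))] .n) (.c k234 (.l (.s k42 k21 6 (.s k55 k196 12 (.s
  k51 k59 1 (.s k17 k34 4 (.d k153 k221 k204 9 14)))))) .n)))) .n))) (.c k136 (.l (.s k119 k68 4 (.s
  k51 k187 9 (.s k153 k204 14 (.d k17 k34 k221 4 9))))) (.c k153 (.f k119 k68 4 (.q k149 [(.s k21
  k213 7 (.s k63 k42 6 (.s k106 k192 14 (.d k127 k64 k191 6 7)))), (.s k55 k196 12 (.s k247 k183 7
  (.s k243 k251 1 (.s k81 k162 12 (.s k89 k93 1 (.d k166 k4 k12 12 14))))))] (.c k136 (.l (.s k187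
  k51 9 (.s k21 k213 7 (.s k55 k196 12 (.s k4 k38 4 (.d k247 k183 k166 7 12)))))) (.c k187 (.q k136
  [(.s k21 k213 7 (.s k63 k42 6 (.s k106 k192 14 (.d k127 k64 k191 6 7)))), (.s k55 k196 12 (.s k247
  k183 7 (.s k243 k251 1 (.s k81 k162 12 (.s k89 k93 1 (.d k166 k4 k12 12 14))))))] (.c k191 (.l (.s
  k21 k213 7 (.s k55 k196 12 (.s k4 k38 4 (.d k247 k183 k166 7 12))))) .n)) .n)))) (.c k187 (.l (.s
  k68 k119 4 (.s k204 k136 9 (.s k153 k51 14 (.d k221 k238 k17 4 9))))) (.c k204 (.q k1 [(.s k3 k2 0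
  (.s k169 k253 13 (.s k86 k252 14 (.d k87 k84 k171 0 13)))), (.s k119 k68 4 (.s k51 k187 9 (.s k17
  k34 4 (.s k49 k33 3 (.s k253 k169 13 (.s k117 k185 9 (.d k48 k186 k50 10 0))))))), (.s k3 k2 0 (.s
  k119 k68 4 (.s k51 k187 9 (.s k17 k34 4 (.s k19 k35 3 (.s k18 k16 0 (.d k33 k49 k48 3 4)))))))]
  .n) (.c k221 (.q k1 [(.s k3 k2 0 (.s k169 k253 13 (.s k86 k252 14 (.d k87 k84 k171 0 13)))), (.s
  k119 k68 4 (.s k51 k187 9 (.s k17 k34 4 (.s k49 k33 3 (.s k48 k50 0 (.s k117 k186 10 (.d k253 k185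
  k169 9 13))))))), (.s k68 k119 4 (.s k169 k253 13 (.s k204 k136 9 (.s k153 k51 14 (.s k137 k185 3
  (.s k70 k3 10 (.d k69 k205 k71 9 0))))))), (.s k3 k2 0 (.s k68 k119 4 (.s k204 k136 9 (.s k70 k137
  10 (.s k86 k118 3 (.d k87 k84 k171 0 13))))))] .n) (.c k238 (.l (.s k119 k68 4 (.s k51 k187 9 (.s
  k17 k34 4 (.d k153 k221 k204 9 14))))) .n))))))))))))

def t11_183 : T TT 256 :=
  (.f k255 k170 14 (.q k105 [(.s k65 k125 5 (.s k195 k130 8 (.s k150 k60 14 (.d k215 k235 k20 5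
  8))))] (.c k20 (.q k1 [(.s k3 k2 0 (.s k169 k253 13 (.s k86 k252 14 (.d k87 k84 k171 0 13)))), (.s
  k65 k125 5 (.s k169 k253 13 (.s k41 k233 7 (.s k61 k21 5 (.d k193 k129 k149 7 13))))), (.s k3 k2 0
  (.s k65 k125 5 (.s k129 k193 7 (.s k66 k192 8 (.s k67 k64 0 (.d k195 k131 k130 7 8))))))] .n) (.c
  k60 (.q k1 [(.s k3 k2 0 (.s k169 k253 13 (.s k86 k252 14 (.d k87 k84 k171 0 13)))), (.s k65 k125 5
  (.s k169 k253 13 (.s k41 k233 7 (.s k61 k21 5 (.d k193 k129 k149 7 13))))), (.s k3 k2 0 (.s k65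
  k125 5 (.s k129 k193 7 (.s k66 k192 8 (.s k67 k64 0 (.d k195 k131 k130 7 8))))))] .n) (.c k65 (.q
  k84 [(.s k86 k87 0 (.s k252 k168 13 (.s k253 k254 0 (.d k169 k1 k3 13 14)))), (.s k86 k87 0 (.s
  k124 k67 6 (.s k64 k104 5 (.s k192 k128 7 (.s k213 k234 6 (.s k149 k21 7 (.d k106 k127 k63 6
  14)))))))] (.c k86 (.f k252 k168 13 (.q k169 [(.d k253 k254 k1 0 13), (.s k233 k41 7 (.s k195 k214
  6 (.s k150 k60 14 (.d k215 k235 k20 5 8))))] (.c k2 (.l (.s k254 k253 0 (.s k233 k41 7 (.s k195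
  k214 6 (.s k150 k60 14 (.d k215 k235 k20 5 8)))))) (.c k254 (.q k2 [(.d k1 k3 k253 0 13), (.s k233
  k41 7 (.s k195 k214 6 (.s k215 k235 5 (.d k150 k20 k60 8 14))))] .n) .n)))) (.c k87 (.l (.s k252
  k168 13 (.s k253 k254 0 (.s k169 k1 13 (.s k233 k41 7 (.s k195 k214 6 (.s k150 k60 14 (.d k215
  k235 k20 5 8)))))))) .n))) (.c k125 (.q k84 [(.s k86 k87 0 (.s k252 k168 13 (.s k253 k254 0 (.d
  k169 k1 k3 13 14)))), (.s k86 k87 0 (.s k124 k67 6 (.s k64 k104 5 (.s k192 k128 7 (.s k213 k234 6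
  (.s k149 k21 7 (.d k106 k127 k63 6 14)))))))] (.c k86 (.f k252 k168 13 (.q k169 [(.d k253 k254 k1
  0 13), (.s k233 k41 7 (.s k195 k214 6 (.s k150 k60 14 (.d k215 k235 k20 5 8))))] (.c k2 (.l (.s
  k254 k253 0 (.s k233 k41 7 (.s k195 k214 6 (.s k150 k60 14 (.d k215 k235 k20 5 8)))))) (.c k254
  (.q k2 [(.d k1 k3 k253 0 13), (.s k233 k41 7 (.s k195 k214 6 (.s k215 k235 5 (.d k150 k20 k60 8
  14))))] .n) .n)))) (.c k87 (.l (.s k252 k168 13 (.s k253 k254 0 (.s k169 k1 13 (.s k233 k41 7 (.s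
  k195 k214 6 (.s k150 k60 14 (.d k215 k235 k20 5 8)))))))) .n))) (.c k130 (.l (.s k125 k65 5 (.s
  k60 k190 8 (.s k150 k195 14 (.d k20 k40 k215 5 8))))) (.c k150 (.f k125 k65 5 (.f k190 k60 8 (.q
  k21 [(.s k63 k42 6 (.s k149 k213 7 (.s k106 k192 14 (.d k127 k64 k191 6 7)))), (.s k149 k213 7 (.s
  k61 k193 13 (.s k1 k41 5 (.d k253 k189 k169 7 13)))), (.s k63 k42 6 (.s k191 k127 7 (.s k189 k188
  0 (.s k252 k126 8 (.d k253 k254 k61 0 7)))))] .n))) (.c k190 (.l (.s k65 k125 5 (.s k195 k130 8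
  (.s k150 k60 14 (.d k215 k235 k20 5 8))))) (.c k195 (.q k1 [(.s k3 k2 0 (.s k169 k253 13 (.s k86
  k252 14 (.d k87 k84 k171 0 13)))), (.s k3 k2 0 (.s k125 k65 5 (.s k60 k190 8 (.s k40 k20 5 (.s k41
  k22 6 (.s k21 k61 5 (.d k42 k43 k63 0 6))))))), (.s k65 k125 5 (.s k169 k253 13 (.s k41 k233 7 (.s
  k61 k21 5 (.d k193 k129 k149 7 13)))))] .n) (.c k215 (.q k1 [(.s k3 k2 0 (.s k169 k253 13 (.s k86
  k252 14 (.d k87 k84 k171 0 13)))), (.s k65 k125 5 (.s k169 k253 13 (.s k41 k233 7 (.s k61 k21 5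
  (.d k193 k129 k149 7 13))))), (.s k3 k2 0 (.s k65 k125 5 (.s k129 k193 7 (.s k66 k192 8 (.s k67
  k64 0 (.d k195 k131 k130 7 8))))))] .n) (.c k235 (.l (.s k125 k65 5 (.s k60 k190 8 (.s k20 k40 5
  (.d k150 k215 k195 8 14))))) .n))))))))))))

def t11_184 : T TT 256 :=
  (.f k255 k170 14 (.q k105 [(.s k65 k125 5 (.s k195 k130 8 (.s k150 k60 14 (.d k215 k235 k20 5
  8))))] (.c k20 (.q k1 [(.s k3 k2 0 (.s k169 k253 13 (.s k86 k252 14 (.d k87 k84 k171 0 13)))), (.s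
  k65 k125 5 (.s k169 k253 13 (.s k41 k233 7 (.s k61 k21 5 (.d k193 k129 k149 7 13))))), (.s k3 k2 0
  (.s k65 k125 5 (.s k129 k193 7 (.s k66 k192 8 (.s k67 k64 0 (.d k195 k131 k130 7 8))))))] .n) (.c
  k60 (.q k1 [(.s k3 k2 0 (.s k87 k171 13 (.s k86 k84 0 (.d k169 k253 k252 13 14)))), (.s k65 k125 5
  (.s k169 k253 13 (.s k41 k233 7 (.s k61 k21 5 (.d k193 k129 k149 7 13))))), (.s k3 k2 0 (.s k65
  k125 5 (.s k129 k193 7 (.s k66 k192 8 (.s k67 k64 0 (.d k195 k131 k130 7 8))))))] .n) (.c k65 (.q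
  k64 [(.s k106 k127 6 (.s k192 k128 7 (.s k149 k63 14 (.d k213 k234 k21 6 7)))), (.s k106 k127 6
  (.s k104 k107 0 (.s k84 k124 5 (.s k252 k168 13 (.s k253 k254 0 (.s k169 k1 13 (.d k86 k87 k3 0
  14)))))))] (.c k106 (.f k192 k128 7 (.q k149 [(.d k213 k234 k21 6 7), (.s k193 k61 13 (.s k195
  k194 0 (.s k150 k60 14 (.d k215 k235 k20 5 8))))] (.c k42 (.l (.s k234 k213 6 (.s k193 k61 13 (.s
  k195 k194 0 (.s k150 k60 14 (.d k215 k235 k20 5 8)))))) (.c k234 (.q k42 [(.d k21 k63 k213 6 7),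
  (.s k193 k61 13 (.s k195 k194 0 (.s k215 k235 5 (.d k150 k20 k60 8 14))))] .n) .n)))) (.c k127 (.l
  (.s k192 k128 7 (.s k213 k234 6 (.s k149 k21 7 (.s k193 k61 13 (.s k195 k194 0 (.s k150 k60 14 (.d
  k215 k235 k20 5 8)))))))) .n))) (.c k125 (.q k127 [(.s k106 k64 6 (.s k63 k191 7 (.s k149 k192 14
  (.d k21 k42 k213 6 7)))), (.s k106 k64 6 (.s k107 k104 0 (.s k87 k67 5 (.s k3 k171 13 (.s k1 k2 0
  (.s k169 k253 13 (.d k86 k84 k252 0 14)))))))] (.c k64 (.l (.s k63 k191 7 (.s k21 k42 6 (.s k149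
  k213 7 (.s k61 k193 13 (.s k60 k62 0 (.s k20 k40 5 (.d k150 k215 k195 8 14)))))))) (.c k106 (.f
  k63 k191 7 (.q k149 [(.d k21 k42 k213 6 7), (.s k61 k193 13 (.s k60 k62 0 (.s k20 k40 5 (.d k150
  k215 k195 8 14))))] (.c k42 (.q k234 [(.d k213 k192 k21 6 7), (.s k61 k193 13 (.s k60 k62 0 (.s
  k20 k40 5 (.d k150 k215 k195 8 14))))] .n) (.c k234 (.l (.s k42 k21 6 (.s k61 k193 13 (.s k60 k62
  0 (.s k20 k40 5 (.d k150 k215 k195 8 14)))))) .n)))) .n))) (.c k130 (.l (.s k125 k65 5 (.s k60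
  k190 8 (.s k150 k195 14 (.d k20 k40 k215 5 8))))) (.c k150 (.f k125 k65 5 (.q k149 [(.s k21 k213 7
  (.s k63 k42 6 (.s k106 k192 14 (.d k127 k64 k191 6 7)))), (.s k61 k193 13 (.s k253 k189 7 (.s k252
  k254 0 (.s k84 k168 13 (.s k86 k87 0 (.d k169 k1 k3 13 14))))))] (.c k130 (.l (.s k190 k60 8 (.s
  k21 k213 7 (.s k61 k193 13 (.s k1 k41 5 (.d k253 k189 k169 7 13)))))) (.c k190 (.q k130 [(.s k21
  k213 7 (.s k63 k42 6 (.s k106 k192 14 (.d k127 k64 k191 6 7)))), (.s k61 k193 13 (.s k253 k189 7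
  (.s k252 k254 0 (.s k84 k168 13 (.s k86 k87 0 (.d k169 k1 k3 13 14))))))] (.c k191 (.l (.s k21
  k213 7 (.s k61 k193 13 (.s k1 k41 5 (.d k253 k189 k169 7 13))))) .n)) .n)))) (.c k190 (.l (.s k65
  k125 5 (.s k195 k130 8 (.s k150 k60 14 (.d k215 k235 k20 5 8))))) (.c k195 (.q k1 [(.s k3 k2 0 (.s
  k87 k171 13 (.s k86 k84 0 (.d k169 k253 k252 13 14)))), (.s k65 k125 5 (.s k169 k253 13 (.s k41
  k233 7 (.s k61 k21 5 (.d k193 k129 k149 7 13))))), (.s k3 k2 0 (.s k125 k65 5 (.s k60 k190 8 (.s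
  k40 k20 5 (.s k41 k22 6 (.s k21 k61 5 (.d k42 k43 k63 0 6)))))))] .n) (.c k215 (.q k1 [(.s k3 k2 0
  (.s k169 k253 13 (.s k86 k252 14 (.d k87 k84 k171 0 13)))), (.s k65 k125 5 (.s k169 k253 13 (.s
  k41 k233 7 (.s k61 k21 5 (.d k193 k129 k149 7 13))))), (.s k3 k2 0 (.s k65 k125 5 (.s k129 k193 7
  (.s k66 k192 8 (.s k67 k64 0 (.d k195 k131 k130 7 8))))))] .n) (.c k235 (.l (.s k125 k65 5 (.s k60
  k190 8 (.s k20 k40 5 (.d k150 k215 k195 8 14))))) .n))))))))))))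

def t11_185 : T TT 256 :=
  (.f k255 k170 14 (.q k105 [(.s k65 k125 5 (.s k195 k130 8 (.s k150 k60 14 (.d k215 k235 k20 5
  8))))] (.c k20 (.q k1 [(.s k3 k2 0 (.s k169 k253 13 (.s k86 k252 14 (.d k87 k84 k171 0 13)))), (.s
  k65 k125 5 (.s k169 k253 13 (.s k41 k233 7 (.s k61 k21 5 (.d k193 k129 k149 7 13))))), (.s k3 k2 0
  (.s k65 k125 5 (.s k129 k193 7 (.s k66 k192 8 (.s k67 k64 0 (.d k195 k131 k130 7 8))))))] .n) (.c
  k60 (.q k1 [(.s k3 k2 0 (.s k87 k171 13 (.s k86 k84 0 (.d k169 k253 k252 13 14)))), (.s k65 k125 5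
  (.s k169 k253 13 (.s k41 k233 7 (.s k61 k21 5 (.d k193 k129 k149 7 13))))), (.s k3 k2 0 (.s k65
  k125 5 (.s k129 k193 7 (.s k66 k192 8 (.s k67 k64 0 (.d k195 k131 k130 7 8))))))] .n) (.c k65 (.q
  k84 [(.s k86 k87 0 (.s k252 k168 13 (.s k253 k254 0 (.d k169 k1 k3 13 14)))), (.s k86 k87 0 (.s
  k124 k67 6 (.s k64 k104 5 (.s k192 k128 7 (.s k213 k234 6 (.s k149 k21 7 (.d k106 k127 k63 6
  14)))))))] (.c k86 (.f k252 k168 13 (.q k169 [(.d k253 k254 k1 0 13), (.s k233 k41 7 (.s k195 k214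
  6 (.s k150 k60 14 (.d k215 k235 k20 5 8))))] (.c k2 (.l (.s k254 k253 0 (.s k233 k41 7 (.s k195
  k214 6 (.s k150 k60 14 (.d k215 k235 k20 5 8)))))) (.c k254 (.q k2 [(.d k1 k3 k253 0 13), (.s k233
  k41 7 (.s k195 k214 6 (.s k215 k235 5 (.d k150 k20 k60 8 14))))] .n) .n)))) (.c k87 (.l (.s k252
  k168 13 (.s k253 k254 0 (.s k169 k1 13 (.s k233 k41 7 (.s k195 k214 6 (.s k150 k60 14 (.d k215
  k235 k20 5 8)))))))) .n))) (.c k125 (.q k84 [(.s k86 k87 0 (.s k252 k168 13 (.s k253 k254 0 (.d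
  k169 k1 k3 13 14)))), (.s k86 k87 0 (.s k124 k67 6 (.s k64 k104 5 (.s k192 k128 7 (.s k213 k234 6
  (.s k149 k21 7 (.d k106 k127 k63 6 14)))))))] (.c k86 (.f k252 k168 13 (.q k169 [(.d k253 k254 k1
  0 13), (.s k233 k41 7 (.s k195 k214 6 (.s k150 k60 14 (.d k215 k235 k20 5 8))))] (.c k2 (.l (.s
  k254 k253 0 (.s k233 k41 7 (.s k195 k214 6 (.s k150 k60 14 (.d k215 k235 k20 5 8)))))) (.c k254
  (.q k2 [(.d k1 k3 k253 0 13), (.s k233 k41 7 (.s k195 k214 6 (.s k215 k235 5 (.d k150 k20 k60 8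
  14))))] .n) .n)))) (.c k87 (.l (.s k252 k168 13 (.s k253 k254 0 (.s k169 k1 13 (.s k233 k41 7 (.s
  k195 k214 6 (.s k150 k60 14 (.d k215 k235 k20 5 8)))))))) .n))) (.c k130 (.l (.s k125 k65 5 (.s
  k60 k190 8 (.s k150 k195 14 (.d k20 k40 k215 5 8))))) (.c k150 (.f k125 k65 5 (.q k149 [(.s k21
  k213 7 (.s k63 k42 6 (.s k106 k192 14 (.d k127 k64 k191 6 7)))), (.s k61 k193 13 (.s k253 k189 7
  (.s k252 k254 0 (.s k84 k168 13 (.s k86 k87 0 (.d k169 k1 k3 13 14))))))] (.c k130 (.l (.s k190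
  k60 8 (.s k21 k213 7 (.s k61 k193 13 (.s k1 k41 5 (.d k253 k189 k169 7 13)))))) (.c k190 (.q k130
  [(.s k21 k213 7 (.s k63 k42 6 (.s k106 k192 14 (.d k127 k64 k191 6 7)))), (.s k61 k193 13 (.s k253
  k189 7 (.s k252 k254 0 (.s k84 k168 13 (.s k86 k87 0 (.d k169 k1 k3 13 14))))))] (.c k191 (.l (.s
  k21 k213 7 (.s k61 k193 13 (.s k1 k41 5 (.d k253 k189 k169 7 13))))) .n)) .n)))) (.c k190 (.l (.s
  k65 k125 5 (.s k195 k130 8 (.s k150 k60 14 (.d k215 k235 k20 5 8))))) (.c k195 (.q k1 [(.s k3 k2 0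
  (.s k87 k171 13 (.s k86 k84 0 (.d k169 k253 k252 13 14)))), (.s k65 k125 5 (.s k169 k253 13 (.s
  k41 k233 7 (.s k61 k21 5 (.d k193 k129 k149 7 13))))), (.s k3 k2 0 (.s k125 k65 5 (.s k60 k190 8
  (.s k40 k20 5 (.s k41 k22 6 (.s k21 k61 5 (.d k42 k43 k63 0 6)))))))] .n) (.c k215 (.q k1 [(.s k3
  k2 0 (.s k87 k171 13 (.s k86 k84 0 (.d k169 k253 k252 13 14)))), (.s k65 k125 5 (.s k169 k253 13
  (.s k41 k233 7 (.s k61 k21 5 (.d k193 k129 k149 7 13))))), (.s k3 k2 0 (.s k65 k125 5 (.s k129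
  k193 7 (.s k66 k192 8 (.s k67 k64 0 (.d k195 k131 k130 7 8))))))] .n) (.c k235 (.l (.s k125 k65 5
  (.s k60 k190 8 (.s k20 k40 5 (.d k150 k215 k195 8 14))))) .n))))))))))))

def t11_186 : T TT 256 :=
  (.q k86 [(.s k84 k87 0 (.s k252 k168 13 (.s k169 k3 14 (.s k253 k1 13 (.d k255 k254 k170 0
  14))))), (.s k84 k87 0 (.s k252 k168 13 (.s k3 k169 14 (.s k2 k1 0 (.d k170 k254 k255 13 14)))))]
  (.c k1 (.q k4 [(.s k84 k87 0 (.s k166 k247 12 (.s k6 k246 11 (.s k244 k164 11 (.d k7 k5 k165 0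
  12))))), (.s k12 k8 1 (.s k166 k247 12 (.s k89 k243 14 (.s k93 k81 1 (.d k255 k174 k170 12
  14))))), (.s k12 k8 1 (.s k84 k87 0 (.s k164 k244 11 (.s k88 k240 13 (.s k92 k80 1 (.d k252 k172
  k168 11 13))))))] .n) (.c k3 (.q k7 [(.s k87 k84 0 (.s k244 k165 12 (.s k247 k167 11 (.s k166 k4
  12 (.d k246 k245 k6 0 11))))), (.s k165 k244 12 (.s k170 k255 14 (.s k160 k175 2 (.s k240 k80 11
  (.s k15 k90 14 (.d k5 k10 k245 2 11)))))), (.s k87 k84 0 (.s k247 k167 11 (.s k255 k170 14 (.s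
  k243 k251 1 (.s k81 k162 12 (.s k89 k93 1 (.d k166 k4 k12 12 14)))))))] (.c k87 (.l (.s k165 k244
  12 (.s k5 k245 11 (.s k6 k4 0 (.s k10 k15 2 (.s k2 k14 1 (.d k170 k254 k255 13 14))))))) .n)) (.c
  k84 (.q k4 [(.s k12 k8 1 (.s k166 k247 12 (.s k89 k243 14 (.s k93 k81 1 (.d k255 k174 k170 12
  14))))), (.s k12 k8 1 (.s k166 k247 12 (.s k6 k246 11 (.s k5 k7 0 (.s k3 k9 2 (.s k10 k15 2 (.d k2
  k1 k14 0 1))))))), (.s k166 k247 12 (.s k6 k246 11 (.s k5 k7 0 (.s k170 k255 14 (.s k2 k254 13 (.d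
  k10 k15 k14 2 1)))))), (.s k12 k8 1 (.s k170 k255 14 (.s k2 k254 13 (.s k3 k1 0 (.s k6 k9 2 (.s
  k10 k14 1 (.d k5 k7 k15 0 2)))))))] (.c k10 (.l (.s k166 k247 12 (.s k170 k255 14 (.s k162 k174 1
  (.s k243 k81 12 (.d k12 k8 k89 1 14)))))) .n)) (.c k87 (.q k4 [(.s k12 k8 1 (.s k166 k247 12 (.s
  k89 k243 14 (.s k93 k81 1 (.d k255 k174 k170 12 14))))), (.s k12 k8 1 (.s k170 k255 14 (.s k2 k254
  13 (.s k3 k1 0 (.s k6 k9 2 (.s k10 k14 1 (.d k5 k7 k15 0 2))))))), (.s k166 k247 12 (.s k6 k246 11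
  (.s k170 k255 14 (.s k2 k254 13 (.s k10 k14 1 (.d k5 k7 k15 0 2)))))), (.s k12 k8 1 (.s k166 k247
  12 (.s k6 k246 11 (.s k89 k243 14 (.s k92 k83 2 (.s k252 k172 11 (.d k3 k9 k169 2 14)))))))] (.c
  k7 (.l (.s k12 k8 1 (.s k255 k170 14 (.s k93 k174 12 (.s k89 k81 1 (.d k166 k247 k243 12 14))))))
  (.c k10 (.l (.s k166 k247 12 (.s k170 k255 14 (.s k162 k174 1 (.s k243 k81 12 (.d k12 k8 k89 1
  14)))))) (.c k255 (.l (.s k12 k8 1 (.s k166 k247 12 (.s k243 k89 14 (.s k246 k6 11 (.s k252 k249 2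
  (.s k172 k92 11 (.d k169 k163 k3 2 14)))))))) .n)))) (.c k168 (.l (.s k87 k84 0 (.s k255 k170 14
  (.s k3 k171 13 (.s k169 k252 14 (.d k1 k2 k253 0 13)))))) (.c k169 (.q k90 [(.s k80 k95 2 (.s k82
  k94 1 (.s k83 k81 0 (.s k84 k87 0 (.d k92 k88 k89 1 2))))), (.s k82 k94 1 (.s k170 k255 14 (.s k2
  k254 13 (.s k10 k250 11 (.s k14 k6 1 (.d k242 k162 k166 11 13)))))), (.s k80 k95 2 (.s k170 k255
  14 (.s k10 k250 11 (.s k15 k5 2 (.d k240 k160 k165 11 14)))))] .n) (.c k170 (.q k154 [(.s k16 k223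
  10 (.s k18 k222 9 (.s k19 k17 0 (.s k84 k87 0 (.d k220 k152 k153 9 10))))), (.s k84 k87 0 (.s k222
  k18 9 (.s k252 k168 13 (.s k207 k237 4 (.s k69 k138 10 (.d k101 k117 k48 3 14)))))), (.s k16 k223
  10 (.s k48 k32 3 (.s k84 k87 0 (.s k101 k207 14 (.s k116 k71 4 (.d k252 k184 k168 9 13)))))), (.s
  k16 k223 10 (.s k18 k222 9 (.s k48 k32 3 (.s k3 k33 4 (.s k1 k2 0 (.d k169 k253 k252 13 14))))))]
  .n) (.c k171 (.l (.s k84 k87 0 (.s k252 k168 13 (.s k3 k169 14 (.s k170 k255 14 (.d k2 k1 k254 0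
  13)))))) (.c k252 (.q k7 [(.s k84 k87 0 (.s k244 k165 12 (.s k4 k164 11 (.s k6 k5 0 (.d k166 k246
  k247 11 12))))), (.s k165 k244 12 (.s k170 k255 14 (.s k160 k175 2 (.s k240 k80 11 (.s k15 k90 14
  (.d k5 k10 k245 2 11)))))), (.s k87 k84 0 (.s k247 k167 11 (.s k166 k4 12 (.s k255 k170 14 (.s
  k243 k251 1 (.s k81 k162 12 (.d k89 k93 k12 1 14)))))))] (.c k244 (.l (.s k87 k84 0 (.s k247 k167
  11 (.s k4 k166 12 (.s k6 k5 0 (.s k12 k8 1 (.s k255 k170 14 (.d k3 k9 k171 2 13)))))))) .n)) (.c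
  k254 (.l (.s k87 k84 0 (.s k255 k170 14 (.s k3 k171 13 (.s k1 k2 0 (.d k169 k253 k252 13 14))))))
  (.c k255 (.q k48 [(.s k16 k32 3 (.s k87 k84 0 (.s k223 k154 10 (.s k19 k155 9 (.s k17 k18 0 (.d
  k153 k221 k220 9 10)))))), (.s k84 k87 0 (.s k252 k168 13 (.s k116 k184 9 (.s k101 k71 4 (.s k69
  k117 3 (.d k207 k138 k154 10 14)))))), (.s k16 k32 3 (.s k154 k223 10 (.s k18 k222 9 (.s k3 k33 4
  (.s k1 k2 0 (.d k169 k253 k252 13 14))))))] (.c k154 (.l (.s k16 k32 3 (.s k84 k87 0 (.s k152 k220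
  9 (.s k100 k204 13 (.s k116 k68 3 (.d k252 k184 k168 9 13))))))) .n)) .n))))))))))))

def t11_187 : T TT 256 :=
  (.q k86 [(.s k84 k87 0 (.s k252 k168 13 (.s k169 k3 14 (.s k253 k1 13 (.d k255 k254 k170 0
  14))))), (.s k84 k87 0 (.s k252 k168 13 (.s k3 k169 14 (.s k2 k1 0 (.d k170 k254 k255 13 14)))))]
  (.c k1 (.q k4 [(.s k84 k87 0 (.s k166 k247 12 (.s k6 k246 11 (.s k244 k164 11 (.d k7 k5 k165 0
  12))))), (.s k12 k8 1 (.s k166 k247 12 (.s k89 k243 14 (.s k93 k81 1 (.d k255 k174 k170 12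
  14))))), (.s k12 k8 1 (.s k84 k87 0 (.s k164 k244 11 (.s k88 k240 13 (.s k92 k80 1 (.d k252 k172
  k168 11 13))))))] .n) (.c k3 (.q k7 [(.s k87 k84 0 (.s k244 k165 12 (.s k247 k167 11 (.s k166 k4
  12 (.d k246 k245 k6 0 11))))), (.s k165 k244 12 (.s k170 k255 14 (.s k160 k175 2 (.s k240 k80 11
  (.s k15 k90 14 (.d k5 k10 k245 2 11)))))), (.s k87 k84 0 (.s k247 k167 11 (.s k255 k170 14 (.s
  k243 k251 1 (.s k81 k162 12 (.s k89 k93 1 (.d k166 k4 k12 12 14)))))))] (.c k87 (.l (.s k165 k244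
  12 (.s k5 k245 11 (.s k6 k4 0 (.s k10 k15 2 (.s k2 k14 1 (.d k170 k254 k255 13 14))))))) .n)) (.c
  k84 (.q k4 [(.s k12 k8 1 (.s k166 k247 12 (.s k89 k243 14 (.s k93 k81 1 (.d k255 k174 k170 12
  14))))), (.s k12 k8 1 (.s k166 k247 12 (.s k6 k246 11 (.s k5 k7 0 (.s k3 k9 2 (.s k10 k15 2 (.d k2
  k1 k14 0 1))))))), (.s k166 k247 12 (.s k6 k246 11 (.s k5 k7 0 (.s k170 k255 14 (.s k2 k254 13 (.d
  k10 k15 k14 2 1)))))), (.s k12 k8 1 (.s k170 k255 14 (.s k2 k254 13 (.s k3 k1 0 (.s k6 k9 2 (.s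
  k10 k14 1 (.d k5 k7 k15 0 2)))))))] (.c k10 (.l (.s k166 k247 12 (.s k170 k255 14 (.s k162 k174 1
  (.s k243 k81 12 (.d k12 k8 k89 1 14)))))) .n)) (.c k87 (.q k4 [(.s k12 k8 1 (.s k166 k247 12 (.s
  k89 k243 14 (.s k93 k81 1 (.d k255 k174 k170 12 14))))), (.s k12 k8 1 (.s k170 k255 14 (.s k2 k254
  13 (.s k3 k1 0 (.s k6 k9 2 (.s k10 k14 1 (.d k5 k7 k15 0 2))))))), (.s k166 k247 12 (.s k6 k246 11
  (.s k170 k255 14 (.s k2 k254 13 (.s k10 k14 1 (.d k5 k7 k15 0 2)))))), (.s k12 k8 1 (.s k166 k247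
  12 (.s k6 k246 11 (.s k89 k243 14 (.s k92 k83 2 (.s k252 k172 11 (.d k3 k9 k169 2 14)))))))] (.c
  k7 (.l (.s k12 k8 1 (.s k255 k170 14 (.s k93 k174 12 (.s k89 k81 1 (.d k166 k247 k243 12 14))))))
  (.c k10 (.l (.s k166 k247 12 (.s k170 k255 14 (.s k162 k174 1 (.s k243 k81 12 (.d k12 k8 k89 1
  14)))))) (.c k255 (.l (.s k12 k8 1 (.s k166 k247 12 (.s k243 k89 14 (.s k246 k6 11 (.s k252 k249 2
  (.s k172 k92 11 (.d k169 k163 k3 2 14)))))))) .n)))) (.c k168 (.l (.s k87 k84 0 (.s k255 k170 14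
  (.s k3 k171 13 (.s k169 k252 14 (.d k1 k2 k253 0 13)))))) (.c k169 (.q k90 [(.s k80 k95 2 (.s k82
  k94 1 (.s k83 k81 0 (.s k84 k87 0 (.d k92 k88 k89 1 2))))), (.s k82 k94 1 (.s k170 k255 14 (.s k2
  k254 13 (.s k10 k250 11 (.s k14 k6 1 (.d k242 k162 k166 11 13)))))), (.s k80 k95 2 (.s k170 k255
  14 (.s k10 k250 11 (.s k15 k5 2 (.d k240 k160 k165 11 14)))))] .n) (.c k170 (.q k153 [(.s k17 k221
  9 (.s k19 k220 10 (.s k16 k18 0 (.s k87 k84 0 (.d k223 k155 k154 9 10))))), (.s k17 k221 9 (.s k51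
  k34 4 (.s k84 k87 0 (.s k102 k204 14 (.s k118 k70 3 (.d k252 k185 k168 10 13)))))), (.s k17 k221 9
  (.s k19 k220 10 (.s k51 k34 4 (.s k3 k35 3 (.s k1 k2 0 (.d k169 k253 k252 13 14)))))), (.s k84 k87
  0 (.s k220 k19 10 (.s k252 k168 13 (.s k204 k236 3 (.s k68 k136 9 (.d k102 k119 k51 4 14))))))]
  .n) (.c k171 (.l (.s k84 k87 0 (.s k252 k168 13 (.s k3 k169 14 (.s k170 k255 14 (.d k2 k1 k254 0
  13)))))) (.c k252 (.q k7 [(.s k84 k87 0 (.s k244 k165 12 (.s k4 k164 11 (.s k6 k5 0 (.d k166 k246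
  k247 11 12))))), (.s k165 k244 12 (.s k170 k255 14 (.s k160 k175 2 (.s k240 k80 11 (.s k15 k90 14
  (.d k5 k10 k245 2 11)))))), (.s k87 k84 0 (.s k247 k167 11 (.s k166 k4 12 (.s k255 k170 14 (.s
  k243 k251 1 (.s k81 k162 12 (.d k89 k93 k12 1 14)))))))] (.c k244 (.l (.s k87 k84 0 (.s k247 k167
  11 (.s k4 k166 12 (.s k6 k5 0 (.s k12 k8 1 (.s k255 k170 14 (.d k3 k9 k171 2 13)))))))) .n)) (.c
  k254 (.l (.s k87 k84 0 (.s k255 k170 14 (.s k3 k171 13 (.s k1 k2 0 (.d k169 k253 k252 13 14))))))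
  (.c k255 (.q k51 [(.s k17 k34 4 (.s k84 k87 0 (.s k153 k221 9 (.s k204 k102 14 (.s k252 k168 13
  (.d k220 k236 k19 3 10)))))), (.s k84 k87 0 (.s k252 k168 13 (.s k118 k185 10 (.s k102 k70 3 (.s
  k68 k119 4 (.d k204 k136 k153 9 14)))))), (.s k17 k34 4 (.s k87 k84 0 (.s k153 k221 9 (.s k19 k220
  10 (.s k16 k18 0 (.d k223 k155 k154 9 10)))))), (.s k17 k34 4 (.s k153 k221 9 (.s k19 k220 10 (.s
  k3 k35 3 (.s k1 k2 0 (.d k169 k253 k252 13 14))))))] (.c k153 (.f k17 k34 4 (.l (.s k84 k87 0 (.s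
  k252 k168 13 (.s k3 k169 14 (.s k1 k2 0 (.s k19 k35 3 (.s k18 k16 0 (.d k33 k49 k48 3 4)))))))))
  (.c k204 (.l (.s k17 k34 4 (.s k84 k87 0 (.s k252 k168 13 (.s k3 k169 14 (.s k19 k35 3 (.d k153
  k221 k220 9 10))))))) .n))) .n))))))))))))

def t11_188 : T TT 256 :=
  (.f k255 k170 14 (.q k102 [(.s k68 k119 4 (.s k204 k136 9 (.s k153 k51 14 (.d k221 k238 k17 4
  9))))] (.c k17 (.q k1 [(.s k3 k2 0 (.s k169 k253 13 (.s k86 k252 14 (.d k87 k84 k171 0 13)))), (.s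
  k68 k119 4 (.s k204 k136 9 (.s k221 k238 4 (.s k253 k169 13 (.s k205 k237 3 (.s k69 k137 9 (.d
  k207 k138 k206 10 0))))))), (.s k3 k2 0 (.s k68 k119 4 (.s k204 k136 9 (.s k70 k137 10 (.s k86
  k118 3 (.d k87 k84 k171 0 13))))))] (.c k171 (.l (.s k3 k2 0 (.s k119 k68 4 (.s k51 k187 9 (.s k35
  k19 3 (.d k169 k236 k253 10 13)))))) .n)) (.c k51 (.q k1 [(.s k3 k2 0 (.s k87 k171 13 (.s k86 k84
  0 (.d k169 k253 k252 13 14)))), (.s k68 k119 4 (.s k204 k136 9 (.s k221 k238 4 (.s k253 k169 13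
  (.s k205 k237 3 (.s k69 k137 9 (.d k207 k138 k206 10 0))))))), (.s k3 k2 0 (.s k68 k119 4 (.s k204
  k136 9 (.s k70 k137 10 (.s k86 k118 3 (.d k87 k84 k171 0 13))))))] (.c k171 (.l (.s k3 k2 0 (.s
  k68 k119 4 (.s k169 k253 13 (.s k86 k252 14 (.s k204 k136 9 (.d k70 k118 k137 3 10))))))) .n)) (.c
  k68 (.q k4 [(.s k166 k247 12 (.s k12 k8 1 (.s k89 k243 14 (.d k93 k81 k174 1 12)))), (.s k166 k247
  12 (.s k38 k230 7 (.s k21 k55 4 (.s k63 k42 6 (.s k127 k191 7 (.s k106 k64 6 (.d k149 k213 k192 7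
  14)))))))] (.c k166 (.q k195 [(.s k65 k130 8 (.s k105 k125 5 (.s k215 k235 5 (.d k150 k20 k60 8
  14)))), (.s k12 k8 1 (.s k130 k65 8 (.s k134 k73 10 (.s k69 k199 8 (.d k138 k142 k207 1 10))))),
  (.s k215 k235 5 (.s k150 k20 8 (.s k198 k54 11 (.s k204 k201 2 (.s k153 k51 14 (.d k221 k238 k17 4
  9))))))] (.c k162 (.q k174 [(.d k12 k8 k93 1 12), (.s k65 k130 8 (.s k105 k125 5 (.s k150 k60 14
  (.d k215 k235 k20 5 8))))] .n) (.c k174 (.q k162 [(.s k65 k130 8 (.s k105 k125 5 (.s k215 k235 5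
  (.d k150 k20 k60 8 14)))), (.s k12 k8 1 (.s k130 k65 8 (.s k134 k73 10 (.s k69 k199 8 (.d k138
  k142 k207 1 10))))), (.s k215 k235 5 (.s k150 k20 8 (.s k198 k54 11 (.s k204 k201 2 (.s k153 k51
  14 (.d k221 k238 k17 4 9))))))] .n) .n))) (.c k247 (.l (.s k12 k8 1 (.s k93 k174 12 (.s k89 k81 1
  (.s k76 k115 6 (.s k204 k140 7 (.s k153 k51 14 (.d k221 k238 k17 4 9)))))))) .n))) (.c k119 (.q
  k247 [(.s k166 k4 12 (.s k243 k251 1 (.s k81 k162 12 (.d k89 k93 k12 1 14)))), (.s k166 k4 12 (.s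
  k230 k38 7 (.s k213 k196 4 (.s k192 k234 6 (.s k64 k128 7 (.s k106 k127 6 (.d k149 k21 k63 7
  14)))))))] (.c k4 (.l (.s k243 k251 1 (.s k81 k162 12 (.s k89 k93 1 (.s k115 k76 6 (.s k51 k179 7
  (.s k17 k34 4 (.d k153 k221 k204 9 14)))))))) (.c k166 (.q k215 [(.s k150 k20 8 (.s k195 k235 5
  (.s k65 k130 8 (.d k105 k125 k60 5 14)))), (.s k231 k199 3 (.s k235 k195 5 (.s k243 k251 1 (.s
  k207 k219 5 (.d k239 k227 k223 1 3))))), (.s k150 k20 8 (.s k198 k54 11 (.s k199 k231 3 (.s k196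
  k197 0 (.s k149 k55 12 (.d k213 k230 k21 4 7))))))] (.c k162 (.q k174 [(.s k150 k20 8 (.s k195
  k235 5 (.s k65 k130 8 (.d k105 k125 k60 5 14)))), (.s k12 k93 12 (.s k4 k8 1 (.s k199 k231 3 (.s
  k134 k69 8 (.d k195 k235 k73 5 10))))), (.s k12 k93 12 (.s k4 k8 1 (.s k150 k20 8 (.s k199 k231 3
  (.s k69 k134 8 (.d k101 k117 k52 3 12))))))] .n) (.c k174 (.q k162 [(.d k243 k251 k81 1 12), (.s
  k150 k20 8 (.s k195 k235 5 (.s k65 k130 8 (.d k105 k125 k60 5 14))))] .n) .n))) .n))) (.c k136 (.l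
  (.s k119 k68 4 (.s k51 k187 9 (.s k153 k204 14 (.d k17 k34 k221 4 9))))) (.c k153 (.f k119 k68 4
  (.q k55 [(.s k149 k196 12 (.s k21 k213 7 (.s k4 k38 4 (.d k247 k183 k166 7 12)))), (.s k247 k183 7
  (.s k166 k4 12 (.s k243 k251 1 (.s k81 k162 12 (.d k89 k93 k12 1 14))))), (.s k149 k196 12 (.s
  k213 k21 7 (.s k192 k234 6 (.s k64 k128 7 (.d k106 k127 k63 6 14))))), (.s k183 k247 7 (.s k187
  k51 9 (.s k191 k179 1 (.s k63 k127 7 (.s k21 k42 6 (.d k149 k213 k196 7 12))))))] (.c k136 (.l (.s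
  k187 k51 9 (.s k149 k196 12 (.s k21 k213 7 (.s k4 k38 4 (.d k247 k183 k166 7 12)))))) (.c k187 (.q
  k136 [(.s k149 k196 12 (.s k21 k213 7 (.s k4 k38 4 (.d k247 k183 k166 7 12)))), (.s k247 k183 7
  (.s k243 k251 1 (.s k81 k162 12 (.s k89 k93 1 (.d k166 k4 k12 12 14))))), (.s k149 k196 12 (.s
  k213 k21 7 (.s k192 k234 6 (.s k64 k128 7 (.d k106 k127 k63 6 14)))))] (.c k4 (.l (.s k183 k247 7
  (.s k149 k196 12 (.s k132 k166 4 (.s k213 k21 7 (.s k192 k234 6 (.d k128 k140 k64 1 7))))))) .n))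
  (.c k196 (.l (.s k247 k183 7 (.s k4 k166 12 (.s k12 k8 1 (.s k38 k21 4 (.d k51 k25 k187 6 9))))))
  .n))))) (.c k187 (.l (.s k68 k119 4 (.s k204 k136 9 (.s k153 k51 14 (.d k221 k238 k17 4 9))))) (.c
  k204 (.q k1 [(.s k3 k2 0 (.s k87 k171 13 (.s k86 k84 0 (.d k169 k253 k252 13 14)))), (.s k119 k68
  4 (.s k51 k187 9 (.s k17 k34 4 (.s k49 k33 3 (.s k253 k169 13 (.s k117 k185 9 (.d k48 k186 k50 10
  0))))))), (.s k3 k2 0 (.s k119 k68 4 (.s k51 k187 9 (.s k17 k34 4 (.s k19 k35 3 (.s k18 k16 0 (.d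
  k33 k49 k48 3 4)))))))] .n) (.c k221 (.q k1 [(.s k3 k2 0 (.s k87 k171 13 (.s k86 k84 0 (.d k169
  k253 k252 13 14)))), (.s k68 k119 4 (.s k169 k253 13 (.s k204 k136 9 (.s k153 k51 14 (.s k137 k185
  3 (.s k70 k3 10 (.d k69 k205 k71 9 0))))))), (.s k3 k2 0 (.s k68 k119 4 (.s k204 k136 9 (.s k70
  k137 10 (.s k86 k118 3 (.d k87 k84 k171 0 13))))))] (.c k3 (.l (.s k119 k68 4 (.s k51 k187 9 (.s
  k17 k34 4 (.s k49 k33 3 (.s k48 k50 0 (.s k117 k186 10 (.d k253 k185 k169 9 13)))))))) .n)) (.c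
  k238 (.l (.s k119 k68 4 (.s k51 k187 9 (.s k17 k34 4 (.d k153 k221 k204 9 14))))) .n))))))))))))

def t11_189 : T TT 256 :=
  (.f k255 k170 14 (.q k105 [(.s k65 k125 5 (.s k195 k130 8 (.s k150 k60 14 (.d k215 k235 k20 5
  8)))), (.s k125 k65 5 (.s k60 k190 8 (.s k20 k40 5 (.d k150 k215 k195 8 14))))] (.c k20 (.q k1
  [(.s k65 k125 5 (.s k193 k129 7 (.s k61 k149 13 (.s k169 k253 13 (.d k41 k21 k233 5 7))))), (.s k3
  k2 0 (.s k87 k171 13 (.s k86 k84 0 (.d k169 k253 k252 13 14))))] (.c k169 (.l (.s k3 k2 0 (.s k65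
  k125 5 (.s k129 k193 7 (.s k66 k192 8 (.s k67 k64 0 (.d k195 k131 k130 7 8))))))) (.c k253 (.l (.s
  k3 k2 0 (.s k87 k171 13 (.s k86 k84 0 (.s k67 k124 6 (.s k195 k131 7 (.d k65 k125 k130 5 8)))))))
  .n))) (.c k60 (.q k1 [(.s k3 k2 0 (.s k87 k171 13 (.s k86 k84 0 (.d k169 k253 k252 13 14)))), (.s
  k65 k125 5 (.s k193 k129 7 (.s k61 k149 13 (.s k169 k253 13 (.d k41 k21 k233 5 7)))))] (.c k169
  (.l (.s k3 k2 0 (.s k65 k125 5 (.s k129 k193 7 (.s k66 k192 8 (.s k67 k64 0 (.d k195 k131 k130 7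
  8))))))) (.c k253 (.l (.s k3 k2 0 (.s k87 k171 13 (.s k86 k84 0 (.s k67 k124 6 (.s k195 k131 7 (.d
  k65 k125 k130 5 8))))))) .n))) (.c k65 (.q k84 [(.s k86 k87 0 (.s k252 k168 13 (.s k253 k254 0 (.d
  k169 k1 k3 13 14)))), (.s k86 k87 0 (.s k124 k67 6 (.s k64 k104 5 (.s k192 k128 7 (.s k213 k234 6
  (.s k149 k21 7 (.d k106 k127 k63 6 14)))))))] (.c k86 (.f k252 k168 13 (.q k169 [(.d k253 k254 k1
  0 13), (.s k233 k41 7 (.s k195 k214 6 (.s k150 k60 14 (.d k215 k235 k20 5 8))))] (.c k2 (.l (.s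
  k254 k253 0 (.s k233 k41 7 (.s k195 k214 6 (.s k150 k60 14 (.d k215 k235 k20 5 8)))))) (.c k254
  (.q k2 [(.d k1 k3 k253 0 13), (.s k233 k41 7 (.s k195 k214 6 (.s k215 k235 5 (.d k150 k20 k60 8
  14))))] .n) .n)))) (.c k87 (.l (.s k252 k168 13 (.s k253 k254 0 (.s k169 k1 13 (.s k233 k41 7 (.s
  k195 k214 6 (.s k150 k60 14 (.d k215 k235 k20 5 8)))))))) .n))) (.c k125 (.q k169 [(.s k253 k1 13
  (.s k252 k254 0 (.s k84 k168 13 (.d k86 k87 k3 0 14)))), (.s k233 k41 7 (.s k253 k1 13 (.s k213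
  k193 5 (.s k192 k234 6 (.s k64 k128 7 (.s k106 k127 6 (.d k149 k21 k63 7 14)))))))] (.c k1 (.q
  k253 [(.s k252 k254 0 (.s k84 k168 13 (.d k86 k87 k3 0 14))), (.s k233 k41 7 (.s k213 k193 5 (.s
  k192 k234 6 (.s k64 k128 7 (.s k106 k127 6 (.d k149 k21 k63 7 14))))))] .n) (.c k61 (.l (.s k253
  k1 13 (.s k252 k254 0 (.s k84 k168 13 (.d k86 k87 k3 0 14))))) (.c k253 (.q k61 [(.s k41 k233 7
  (.s k21 k1 5 (.d k149 k213 k193 7 13))), (.s k149 k193 13 (.s k213 k21 7 (.s k192 k234 6 (.s k64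
  k128 7 (.d k106 k127 k63 6 14)))))] (.c k21 (.q k1 [(.s k3 k2 0 (.s k86 k252 14 (.d k87 k84 k171 0
  13))), (.s k193 k149 13 (.s k65 k129 7 (.s k195 k130 8 (.s k150 k60 14 (.d k215 k235 k20 5 8)))))]
  .n) (.c k149 (.l (.s k41 k233 7 (.s k1 k21 5 (.s k3 k2 0 (.s k86 k252 14 (.d k87 k84 k171 0
  13)))))) (.c k193 (.q k21 [(.d k41 k233 k1 7 5), (.s k63 k42 6 (.s k60 k62 0 (.s k150 k195 14 (.d
  k20 k40 k215 5 8))))] (.c k213 (.l (.s k233 k41 7 (.s k63 k42 6 (.s k60 k62 0 (.s k150 k195 14 (.d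
  k20 k40 k215 5 8)))))) (.c k233 (.l (.s k213 k149 7 (.s k1 k41 5 (.s k3 k2 0 (.s k86 k252 14 (.d
  k87 k84 k171 0 13)))))) .n))) (.c k213 (.l (.s k41 k233 7 (.s k193 k149 13 (.s k1 k21 5 (.s k3 k2
  0 (.s k86 k252 14 (.d k87 k84 k171 0 13))))))) (.c k233 (.l (.s k149 k193 13 (.s k213 k21 7 (.s
  k192 k234 6 (.s k64 k128 7 (.d k106 k127 k63 6 14)))))) .n)))))) .n)))) (.c k130 (.l (.s k125 k65
  5 (.s k60 k190 8 (.s k150 k195 14 (.d k20 k40 k215 5 8))))) (.c k150 (.f k125 k65 5 (.f k190 k60 8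
  (.q k86 [(.s k84 k87 0 (.s k124 k67 6 (.s k64 k104 5 (.d k127 k126 k106 0 6)))), (.s k84 k87 0 (.s
  k252 k168 13 (.s k169 k3 14 (.d k253 k254 k1 0 13)))), (.s k124 k67 6 (.s k127 k126 0 (.s k63 k191
  7 (.s k21 k42 6 (.s k149 k213 7 (.d k106 k64 k192 6 14))))))] .n))) (.c k190 (.l (.s k65 k125 5
  (.s k195 k130 8 (.s k150 k60 14 (.d k215 k235 k20 5 8))))) (.c k195 (.q k1 [(.s k3 k2 0 (.s k87
  k171 13 (.s k86 k84 0 (.d k169 k253 k252 13 14)))), (.s k65 k125 5 (.s k193 k129 7 (.s k61 k149 13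
  (.s k169 k253 13 (.d k41 k21 k233 5 7))))), (.s k3 k2 0 (.s k125 k65 5 (.s k60 k190 8 (.s k40 k20
  5 (.s k41 k22 6 (.s k21 k61 5 (.d k42 k43 k63 0 6)))))))] .n) (.c k215 (.q k1 [(.s k3 k2 0 (.s k87
  k171 13 (.s k86 k84 0 (.d k169 k253 k252 13 14)))), (.s k65 k125 5 (.s k193 k129 7 (.s k61 k149 13
  (.s k169 k253 13 (.d k41 k21 k233 5 7)))))] (.c k169 (.l (.s k3 k2 0 (.s k65 k125 5 (.s k129 k193
  7 (.s k66 k192 8 (.s k67 k64 0 (.d k195 k131 k130 7 8))))))) (.c k253 (.l (.s k3 k2 0 (.s k87 k171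
  13 (.s k86 k84 0 (.s k67 k124 6 (.s k195 k131 7 (.d k65 k125 k130 5 8))))))) .n))) .n)))))))))))

def t11_190 : T TT 256 :=
  (.q k86 [(.s k84 k87 0 (.s k252 k168 13 (.s k169 k3 14 (.s k253 k1 13 (.d k255 k254 k170 0
  14))))), (.s k84 k87 0 (.s k252 k168 13 (.s k3 k169 14 (.s k2 k1 0 (.d k170 k254 k255 13 14)))))]
  (.c k1 (.q k4 [(.s k84 k87 0 (.s k166 k247 12 (.s k6 k246 11 (.s k244 k164 11 (.d k7 k5 k165 0
  12))))), (.s k12 k8 1 (.s k166 k247 12 (.s k89 k243 14 (.s k93 k81 1 (.d k255 k174 k170 12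
  14))))), (.s k12 k8 1 (.s k84 k87 0 (.s k164 k244 11 (.s k88 k240 13 (.s k92 k80 1 (.d k252 k172
  k168 11 13))))))] .n) (.c k3 (.q k7 [(.s k87 k84 0 (.s k244 k165 12 (.s k247 k167 11 (.s k166 k4
  12 (.d k246 k245 k6 0 11))))), (.s k165 k244 12 (.s k170 k255 14 (.s k160 k175 2 (.s k240 k80 11
  (.s k15 k90 14 (.d k5 k10 k245 2 11)))))), (.s k87 k84 0 (.s k247 k167 11 (.s k255 k170 14 (.s
  k243 k251 1 (.s k81 k162 12 (.s k89 k93 1 (.d k166 k4 k12 12 14)))))))] (.c k87 (.l (.s k165 k244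
  12 (.s k5 k245 11 (.s k6 k4 0 (.s k10 k15 2 (.s k2 k14 1 (.d k170 k254 k255 13 14))))))) .n)) (.c
  k84 (.q k4 [(.s k12 k8 1 (.s k166 k247 12 (.s k89 k243 14 (.s k93 k81 1 (.d k255 k174 k170 12
  14))))), (.s k12 k8 1 (.s k166 k247 12 (.s k6 k246 11 (.s k5 k7 0 (.s k3 k9 2 (.s k10 k15 2 (.d k2
  k1 k14 0 1))))))), (.s k166 k247 12 (.s k6 k246 11 (.s k5 k7 0 (.s k170 k255 14 (.s k2 k254 13 (.d
  k10 k15 k14 2 1)))))), (.s k12 k8 1 (.s k170 k255 14 (.s k2 k254 13 (.s k3 k1 0 (.s k6 k9 2 (.s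
  k10 k14 1 (.d k5 k7 k15 0 2)))))))] (.c k10 (.l (.s k166 k247 12 (.s k170 k255 14 (.s k162 k174 1
  (.s k243 k81 12 (.d k12 k8 k89 1 14)))))) .n)) (.c k87 (.q k4 [(.s k12 k8 1 (.s k166 k247 12 (.s
  k89 k243 14 (.s k93 k81 1 (.d k255 k174 k170 12 14))))), (.s k12 k8 1 (.s k170 k255 14 (.s k2 k254
  13 (.s k3 k1 0 (.s k6 k9 2 (.s k10 k14 1 (.d k5 k7 k15 0 2))))))), (.s k166 k247 12 (.s k6 k246 11
  (.s k170 k255 14 (.s k2 k254 13 (.s k10 k14 1 (.d k5 k7 k15 0 2)))))), (.s k12 k8 1 (.s k166 k247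
  12 (.s k6 k246 11 (.s k89 k243 14 (.s k92 k83 2 (.s k252 k172 11 (.d k3 k9 k169 2 14)))))))] (.c
  k7 (.l (.s k12 k8 1 (.s k255 k170 14 (.s k93 k174 12 (.s k89 k81 1 (.d k166 k247 k243 12 14))))))
  (.c k10 (.l (.s k166 k247 12 (.s k170 k255 14 (.s k162 k174 1 (.s k243 k81 12 (.d k12 k8 k89 1
  14)))))) (.c k255 (.l (.s k12 k8 1 (.s k166 k247 12 (.s k243 k89 14 (.s k246 k6 11 (.s k252 k249 2
  (.s k172 k92 11 (.d k169 k163 k3 2 14)))))))) .n)))) (.c k168 (.l (.s k87 k84 0 (.s k255 k170 14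
  (.s k3 k171 13 (.s k169 k252 14 (.d k1 k2 k253 0 13)))))) (.c k169 (.q k90 [(.s k80 k95 2 (.s k82
  k94 1 (.s k83 k81 0 (.s k84 k87 0 (.d k92 k88 k89 1 2))))), (.s k82 k94 1 (.s k170 k255 14 (.s k2
  k254 13 (.s k10 k250 11 (.s k14 k6 1 (.d k242 k162 k166 11 13)))))), (.s k80 k95 2 (.s k170 k255
  14 (.s k10 k250 11 (.s k15 k5 2 (.d k240 k160 k165 11 14)))))] .n) (.c k170 (.q k150 [(.s k20 k215
  8 (.s k22 k214 7 (.s k23 k21 0 (.s k84 k87 0 (.d k212 k148 k149 7 8))))), (.s k84 k87 0 (.s k214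
  k22 7 (.s k252 k168 13 (.s k195 k233 6 (.s k65 k130 8 (.d k105 k125 k60 5 14)))))), (.s k20 k215 8
  (.s k60 k40 5 (.s k84 k87 0 (.s k105 k195 14 (.s k124 k67 6 (.d k252 k188 k168 7 13)))))), (.s k20
  k215 8 (.s k22 k214 7 (.s k60 k40 5 (.s k3 k41 6 (.s k1 k2 0 (.d k169 k253 k252 13 14))))))] .n)
  (.c k171 (.l (.s k84 k87 0 (.s k252 k168 13 (.s k3 k169 14 (.s k170 k255 14 (.d k2 k1 k254 0
  13)))))) (.c k252 (.q k7 [(.s k84 k87 0 (.s k244 k165 12 (.s k4 k164 11 (.s k6 k5 0 (.d k166 k246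
  k247 11 12))))), (.s k165 k244 12 (.s k170 k255 14 (.s k160 k175 2 (.s k240 k80 11 (.s k15 k90 14
  (.d k5 k10 k245 2 11)))))), (.s k87 k84 0 (.s k247 k167 11 (.s k166 k4 12 (.s k255 k170 14 (.s
  k243 k251 1 (.s k81 k162 12 (.d k89 k93 k12 1 14)))))))] (.c k244 (.l (.s k87 k84 0 (.s k247 k167
  11 (.s k4 k166 12 (.s k6 k5 0 (.s k12 k8 1 (.s k255 k170 14 (.d k3 k9 k171 2 13)))))))) .n)) (.c
  k254 (.l (.s k87 k84 0 (.s k255 k170 14 (.s k3 k171 13 (.s k1 k2 0 (.d k169 k253 k252 13 14))))))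
  (.c k255 (.q k60 [(.s k20 k40 5 (.s k87 k84 0 (.s k215 k150 8 (.s k23 k151 7 (.s k21 k22 0 (.d
  k149 k213 k212 7 8)))))), (.s k84 k87 0 (.s k252 k168 13 (.s k124 k188 7 (.s k105 k67 6 (.s k65
  k125 5 (.d k195 k130 k150 8 14)))))), (.s k20 k40 5 (.s k150 k215 8 (.s k22 k214 7 (.s k3 k41 6
  (.s k1 k2 0 (.d k169 k253 k252 13 14))))))] (.c k150 (.l (.s k20 k40 5 (.s k84 k87 0 (.s k148 k212
  7 (.s k104 k192 13 (.s k124 k64 5 (.d k252 k188 k168 7 13))))))) .n)) .n))))))))))))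

def t11_191 : T TT 256 :=
  (.q k86 [(.s k84 k87 0 (.s k252 k168 13 (.s k169 k3 14 (.s k253 k1 13 (.d k255 k254 k170 0
  14))))), (.s k84 k87 0 (.s k252 k168 13 (.s k3 k169 14 (.s k2 k1 0 (.d k170 k254 k255 13 14)))))]
  (.c k1 (.q k4 [(.s k84 k87 0 (.s k166 k247 12 (.s k6 k246 11 (.s k244 k164 11 (.d k7 k5 k165 0
  12))))), (.s k12 k8 1 (.s k166 k247 12 (.s k89 k243 14 (.s k93 k81 1 (.d k255 k174 k170 12
  14))))), (.s k12 k8 1 (.s k84 k87 0 (.s k164 k244 11 (.s k88 k240 13 (.s k92 k80 1 (.d k252 k172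
  k168 11 13))))))] .n) (.c k3 (.q k7 [(.s k87 k84 0 (.s k244 k165 12 (.s k247 k167 11 (.s k166 k4
  12 (.d k246 k245 k6 0 11))))), (.s k165 k244 12 (.s k170 k255 14 (.s k160 k175 2 (.s k240 k80 11
  (.s k15 k90 14 (.d k5 k10 k245 2 11)))))), (.s k87 k84 0 (.s k247 k167 11 (.s k255 k170 14 (.s
  k243 k251 1 (.s k81 k162 12 (.s k89 k93 1 (.d k166 k4 k12 12 14)))))))] (.c k87 (.l (.s k165 k244
  12 (.s k5 k245 11 (.s k6 k4 0 (.s k10 k15 2 (.s k2 k14 1 (.d k170 k254 k255 13 14))))))) .n)) (.c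
  k84 (.q k4 [(.s k12 k8 1 (.s k166 k247 12 (.s k89 k243 14 (.s k93 k81 1 (.d k255 k174 k170 12
  14))))), (.s k12 k8 1 (.s k166 k247 12 (.s k6 k246 11 (.s k5 k7 0 (.s k3 k9 2 (.s k10 k15 2 (.d k2
  k1 k14 0 1))))))), (.s k166 k247 12 (.s k6 k246 11 (.s k5 k7 0 (.s k170 k255 14 (.s k2 k254 13 (.d
  k10 k15 k14 2 1)))))), (.s k12 k8 1 (.s k170 k255 14 (.s k2 k254 13 (.s k3 k1 0 (.s k6 k9 2 (.s
  k10 k14 1 (.d k5 k7 k15 0 2)))))))] (.c k10 (.l (.s k166 k247 12 (.s k170 k255 14 (.s k162 k174 1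
  (.s k243 k81 12 (.d k12 k8 k89 1 14)))))) .n)) (.c k87 (.q k4 [(.s k12 k8 1 (.s k166 k247 12 (.s
  k89 k243 14 (.s k93 k81 1 (.d k255 k174 k170 12 14))))), (.s k12 k8 1 (.s k170 k255 14 (.s k2 k254
  13 (.s k3 k1 0 (.s k6 k9 2 (.s k10 k14 1 (.d k5 k7 k15 0 2))))))), (.s k166 k247 12 (.s k6 k246 11
  (.s k170 k255 14 (.s k2 k254 13 (.s k10 k14 1 (.d k5 k7 k15 0 2)))))), (.s k12 k8 1 (.s k166 k247
  12 (.s k6 k246 11 (.s k89 k243 14 (.s k92 k83 2 (.s k252 k172 11 (.d k3 k9 k169 2 14)))))))] (.c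
  k7 (.l (.s k12 k8 1 (.s k255 k170 14 (.s k93 k174 12 (.s k89 k81 1 (.d k166 k247 k243 12 14))))))
  (.c k10 (.l (.s k166 k247 12 (.s k170 k255 14 (.s k162 k174 1 (.s k243 k81 12 (.d k12 k8 k89 1
  14)))))) (.c k255 (.l (.s k12 k8 1 (.s k166 k247 12 (.s k243 k89 14 (.s k246 k6 11 (.s k252 k249 2
  (.s k172 k92 11 (.d k169 k163 k3 2 14)))))))) .n)))) (.c k168 (.l (.s k87 k84 0 (.s k255 k170 14
  (.s k3 k171 13 (.s k169 k252 14 (.d k1 k2 k253 0 13)))))) (.c k169 (.q k90 [(.s k80 k95 2 (.s k82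
  k94 1 (.s k83 k81 0 (.s k84 k87 0 (.d k92 k88 k89 1 2))))), (.s k82 k94 1 (.s k170 k255 14 (.s k2
  k254 13 (.s k10 k250 11 (.s k14 k6 1 (.d k242 k162 k166 11 13)))))), (.s k80 k95 2 (.s k170 k255
  14 (.s k10 k250 11 (.s k15 k5 2 (.d k240 k160 k165 11 14)))))] .n) (.c k170 (.q k149 [(.s k21 k213
  7 (.s k23 k212 8 (.s k20 k22 0 (.s k87 k84 0 (.d k215 k151 k150 7 8))))), (.s k21 k213 7 (.s k63
  k42 6 (.s k84 k87 0 (.s k106 k192 14 (.s k126 k66 5 (.d k252 k189 k168 8 13)))))), (.s k21 k213 7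
  (.s k23 k212 8 (.s k63 k42 6 (.s k3 k43 5 (.s k1 k2 0 (.d k169 k253 k252 13 14)))))), (.s k84 k87
  0 (.s k212 k23 8 (.s k252 k168 13 (.s k192 k232 5 (.s k64 k128 7 (.d k106 k127 k63 6 14))))))] .n)
  (.c k171 (.l (.s k84 k87 0 (.s k252 k168 13 (.s k3 k169 14 (.s k170 k255 14 (.d k2 k1 k254 0
  13)))))) (.c k252 (.q k7 [(.s k84 k87 0 (.s k244 k165 12 (.s k4 k164 11 (.s k6 k5 0 (.d k166 k246
  k247 11 12))))), (.s k165 k244 12 (.s k170 k255 14 (.s k160 k175 2 (.s k240 k80 11 (.s k15 k90 14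
  (.d k5 k10 k245 2 11)))))), (.s k87 k84 0 (.s k247 k167 11 (.s k166 k4 12 (.s k255 k170 14 (.s
  k243 k251 1 (.s k81 k162 12 (.d k89 k93 k12 1 14)))))))] (.c k244 (.l (.s k87 k84 0 (.s k247 k167
  11 (.s k4 k166 12 (.s k6 k5 0 (.s k12 k8 1 (.s k255 k170 14 (.d k3 k9 k171 2 13)))))))) .n)) (.c
  k254 (.l (.s k87 k84 0 (.s k255 k170 14 (.s k3 k171 13 (.s k1 k2 0 (.d k169 k253 k252 13 14))))))
  (.c k255 (.q k63 [(.s k21 k42 6 (.s k84 k87 0 (.s k149 k213 7 (.s k192 k106 14 (.s k252 k168 13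
  (.d k212 k232 k23 5 8)))))), (.s k84 k87 0 (.s k252 k168 13 (.s k126 k189 8 (.s k106 k66 5 (.s k64
  k127 6 (.d k192 k128 k149 7 14)))))), (.s k21 k42 6 (.s k87 k84 0 (.s k149 k213 7 (.s k23 k212 8
  (.s k20 k22 0 (.d k215 k151 k150 7 8)))))), (.s k21 k42 6 (.s k149 k213 7 (.s k23 k212 8 (.s k3
  k43 5 (.s k1 k2 0 (.d k169 k253 k252 13 14))))))] (.c k149 (.f k21 k42 6 (.l (.s k84 k87 0 (.s
  k252 k168 13 (.s k3 k169 14 (.s k1 k2 0 (.s k23 k43 5 (.s k22 k20 0 (.d k41 k61 k60 5 6)))))))))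
  (.c k192 (.l (.s k21 k42 6 (.s k84 k87 0 (.s k252 k168 13 (.s k3 k169 14 (.s k23 k43 5 (.d k149
  k213 k212 7 8))))))) .n))) .n))))))))))))

def t11_240 : T TT 256 :=
  (.f k255 k170 14 (.q k105 [(.s k65 k125 5 (.s k195 k130 8 (.s k215 k235 5 (.d k150 k20 k60 8
  14))))] (.c k20 (.q k1 [(.s k3 k2 0 (.s k169 k253 13 (.s k86 k252 14 (.d k87 k84 k171 0 13)))),
  (.s k65 k125 5 (.s k169 k253 13 (.s k41 k233 7 (.s k61 k21 5 (.d k193 k129 k149 7 13))))), (.s k3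
  k2 0 (.s k65 k125 5 (.s k129 k193 7 (.s k66 k192 8 (.s k67 k64 0 (.d k195 k131 k130 7 8))))))] .n)
  (.c k60 (.f k65 k125 5 (.q k169 [(.s k1 k253 13 (.s k41 k233 7 (.s k61 k21 5 (.d k193 k129 k149 7
  13)))), (.s k195 k130 8 (.s k233 k41 7 (.s k252 k214 6 (.s k84 k168 13 (.d k86 k3 k87 14 0))))),
  (.s k1 k253 13 (.s k3 k2 0 (.s k86 k252 14 (.d k87 k84 k171 0 13))))] (.c k120 (.q k180 [(.s k1
  k253 13 (.s k41 k233 7 (.s k61 k21 5 (.d k193 k129 k149 7 13)))), (.s k195 k130 8 (.s k233 k41 7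
  (.s k252 k214 6 (.s k84 k168 13 (.d k86 k3 k87 14 0))))), (.s k1 k253 13 (.s k3 k2 0 (.s k86 k252
  14 (.d k87 k84 k171 0 13))))] .n) (.c k180 (.q k120 [(.s k1 k253 13 (.s k41 k233 7 (.s k61 k21 5
  (.d k193 k129 k149 7 13)))), (.s k195 k130 8 (.s k233 k41 7 (.s k252 k214 6 (.s k84 k168 13 (.d
  k86 k3 k87 14 0))))), (.s k1 k253 13 (.s k3 k2 0 (.s k86 k252 14 (.d k87 k84 k171 0 13))))] .n)
  .n)))) (.c k65 (.q k84 [(.s k86 k87 0 (.s k252 k168 13 (.s k253 k254 0 (.d k169 k1 k3 13 14)))),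
  (.s k86 k87 0 (.s k124 k67 6 (.s k64 k104 5 (.s k192 k128 7 (.s k213 k234 6 (.s k149 k21 7 (.d
  k106 k127 k63 6 14)))))))] (.c k86 (.f k252 k168 13 (.q k169 [(.d k253 k254 k1 0 13), (.s k233 k41
  7 (.s k195 k214 6 (.s k150 k60 14 (.d k215 k235 k20 5 8))))] (.c k2 (.l (.s k254 k253 0 (.s k233
  k41 7 (.s k195 k214 6 (.s k150 k60 14 (.d k215 k235 k20 5 8)))))) (.c k254 (.q k2 [(.d k1 k3 k253
  0 13), (.s k233 k41 7 (.s k195 k214 6 (.s k215 k235 5 (.d k150 k20 k60 8 14))))] .n) .n)))) (.c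
  k87 (.l (.s k252 k168 13 (.s k253 k254 0 (.s k169 k1 13 (.s k233 k41 7 (.s k195 k214 6 (.s k150
  k60 14 (.d k215 k235 k20 5 8)))))))) .n))) (.c k125 (.q k84 [(.s k86 k87 0 (.s k252 k168 13 (.s
  k253 k254 0 (.d k169 k1 k3 13 14)))), (.s k86 k87 0 (.s k124 k67 6 (.s k64 k104 5 (.s k192 k128 7
  (.s k213 k234 6 (.s k149 k21 7 (.d k106 k127 k63 6 14)))))))] (.c k86 (.f k252 k168 13 (.q k169
  [(.d k253 k254 k1 0 13), (.s k233 k41 7 (.s k195 k214 6 (.s k150 k60 14 (.d k215 k235 k20 5 8))))]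
  (.c k2 (.l (.s k254 k253 0 (.s k233 k41 7 (.s k195 k214 6 (.s k150 k60 14 (.d k215 k235 k20 5
  8)))))) (.c k254 (.q k2 [(.d k1 k3 k253 0 13), (.s k233 k41 7 (.s k195 k214 6 (.s k215 k235 5 (.d
  k150 k20 k60 8 14))))] .n) .n)))) (.c k87 (.l (.s k252 k168 13 (.s k253 k254 0 (.s k169 k1 13 (.s
  k233 k41 7 (.s k195 k214 6 (.s k150 k60 14 (.d k215 k235 k20 5 8)))))))) .n))) (.c k130 (.l (.s
  k125 k65 5 (.s k60 k190 8 (.s k150 k195 14 (.d k20 k40 k215 5 8))))) (.c k150 (.f k125 k65 5 (.q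
  k61 [(.s k149 k193 13 (.s k21 k213 7 (.s k253 k189 7 (.d k1 k41 k169 5 13)))), (.s k253 k189 7 (.s
  k169 k1 13 (.s k252 k254 0 (.s k84 k168 13 (.d k86 k87 k3 0 14))))), (.s k149 k193 13 (.s k213 k21
  7 (.s k192 k234 6 (.s k64 k128 7 (.d k106 k127 k63 6 14))))), (.s k189 k253 7 (.s k190 k60 8 (.s
  k191 k188 0 (.s k63 k127 7 (.s k21 k42 6 (.d k149 k213 k193 7 13))))))] (.c k130 (.l (.s k190 k60
  8 (.s k149 k193 13 (.s k21 k213 7 (.s k1 k41 5 (.d k253 k189 k169 7 13)))))) (.c k190 (.q k130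
  [(.s k149 k193 13 (.s k21 k213 7 (.s k1 k41 5 (.d k253 k189 k169 7 13)))), (.s k253 k189 7 (.s
  k252 k254 0 (.s k84 k168 13 (.s k86 k87 0 (.d k169 k1 k3 13 14))))), (.s k149 k193 13 (.s k213 k21
  7 (.s k192 k234 6 (.s k64 k128 7 (.d k106 k127 k63 6 14)))))] (.c k1 (.l (.s k189 k253 7 (.s k149
  k193 13 (.s k129 k169 5 (.s k213 k21 7 (.s k192 k234 6 (.d k128 k131 k64 0 7))))))) .n)) (.c k193
  (.l (.s k253 k189 7 (.s k1 k169 13 (.s k3 k2 0 (.s k41 k21 5 (.d k60 k22 k190 6 8)))))) .n)))))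
  (.c k190 (.l (.s k65 k125 5 (.s k195 k130 8 (.s k150 k60 14 (.d k215 k235 k20 5 8))))) (.c k195
  (.f k65 k125 5 (.q k1 [(.s k169 k253 13 (.s k193 k129 7 (.s k61 k149 13 (.d k41 k21 k233 5 7)))),
  (.s k3 k2 0 (.s k87 k171 13 (.s k86 k84 0 (.s k67 k124 6 (.s k64 k66 0 (.d k127 k107 k106 5
  6))))))] (.c k169 (.l (.s k193 k129 7 (.s k149 k61 13 (.s k21 k213 7 (.s k63 k42 6 (.s k106 k192
  14 (.d k127 k64 k191 6 7))))))) (.c k210 (.q k225 [(.s k169 k253 13 (.s k193 k129 7 (.s k61 k149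
  13 (.d k41 k21 k233 5 7)))), (.s k3 k2 0 (.s k87 k171 13 (.s k86 k84 0 (.d k169 k253 k252 13
  14)))), (.s k165 k45 9 (.s k5 k245 11 (.s k13 k9 1 (.s k193 k129 7 (.d k241 k209 k89 3 13)))))]
  .n) (.c k225 (.q k210 [(.s k169 k253 13 (.s k193 k129 7 (.s k61 k149 13 (.d k41 k21 k233 5 7)))),
  (.s k3 k2 0 (.s k87 k171 13 (.s k86 k84 0 (.s k67 k124 6 (.s k64 k66 0 (.d k127 k107 k106 5
  6))))))] (.c k169 (.l (.s k193 k129 7 (.s k149 k61 13 (.s k21 k213 7 (.s k63 k42 6 (.s k106 k192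
  14 (.d k127 k64 k191 6 7))))))) .n)) .n))))) (.c k215 (.q k1 [(.s k3 k2 0 (.s k169 k253 13 (.s k86
  k252 14 (.d k87 k84 k171 0 13)))), (.s k65 k125 5 (.s k169 k253 13 (.s k41 k233 7 (.s k61 k21 5
  (.d k193 k129 k149 7 13))))), (.s k3 k2 0 (.s k65 k125 5 (.s k129 k193 7 (.s k66 k192 8 (.s k67
  k64 0 (.d k195 k131 k130 7 8))))))] .n) (.c k235 (.l (.s k125 k65 5 (.s k60 k190 8 (.s k20 k40 5
  (.d k150 k215 k195 8 14))))) .n))))))))))))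

def t11_241 : T TT 256 :=
  (.f k255 k170 14 (.q k106 [(.s k64 k127 6 (.s k192 k128 7 (.s k149 k63 14 (.d k213 k234 k21 6
  7))))] (.c k21 (.q k1 [(.s k3 k2 0 (.s k169 k253 13 (.s k86 k252 14 (.d k87 k84 k171 0 13)))), (.s
  k64 k127 6 (.s k192 k128 7 (.s k213 k234 6 (.s k253 k169 13 (.s k193 k233 5 (.s k65 k129 7 (.d
  k195 k130 k194 8 0))))))), (.s k3 k2 0 (.s k64 k127 6 (.s k192 k128 7 (.s k66 k129 8 (.s k86 k126
  5 (.d k87 k84 k171 0 13))))))] (.c k171 (.l (.s k3 k2 0 (.s k127 k64 6 (.s k63 k191 7 (.s k43 k23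
  5 (.d k169 k232 k253 8 13)))))) .n)) (.c k63 (.q k1 [(.s k3 k2 0 (.s k87 k171 13 (.s k86 k84 0 (.d
  k169 k253 k252 13 14)))), (.s k64 k127 6 (.s k192 k128 7 (.s k213 k234 6 (.s k253 k169 13 (.s k193
  k233 5 (.s k65 k129 7 (.d k195 k130 k194 8 0))))))), (.s k3 k2 0 (.s k64 k127 6 (.s k192 k128 7
  (.s k66 k129 8 (.s k86 k126 5 (.d k87 k84 k171 0 13))))))] (.c k171 (.l (.s k3 k2 0 (.s k64 k127 6
  (.s k169 k253 13 (.s k86 k252 14 (.s k192 k128 7 (.d k66 k126 k129 5 8))))))) .n)) (.c k64 (.q k60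
  [(.s k20 k40 5 (.s k125 k190 8 (.s k150 k215 8 (.d k105 k65 k195 5 14)))), (.s k20 k40 5 (.s k150
  k215 8 (.s k62 k194 13 (.s k63 k61 0 (.s k21 k42 6 (.d k149 k213 k192 7 14)))))), (.s k125 k190 8
  (.s k105 k65 5 (.s k104 k107 0 (.s k192 k148 13 (.s k149 k63 14 (.d k213 k234 k21 6 7))))))] (.c
  k105 (.q k87 [(.s k86 k84 0 (.s k3 k171 13 (.s k169 k252 14 (.d k1 k2 k253 0 13)))), (.s k86 k84 0
  (.s k126 k66 5 (.s k190 k125 8 (.s k62 k254 7 (.s k150 k194 13 (.d k20 k40 k215 5 8)))))), (.s k3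
  k171 13 (.s k2 k1 0 (.s k22 k41 6 (.s k42 k62 5 (.s k21 k63 6 (.d k20 k40 k23 5 0))))))] (.c k2
  (.l (.s k3 k171 13 (.s k22 k41 6 (.s k86 k84 0 (.s k150 k214 7 (.d k20 k40 k215 5 8)))))) (.c k40
  (.q k235 [(.s k86 k84 0 (.s k3 k171 13 (.s k169 k252 14 (.d k1 k2 k253 0 13)))), (.s k86 k84 0 (.s
  k126 k66 5 (.s k190 k125 8 (.s k62 k254 7 (.s k150 k194 13 (.d k215 k195 k20 5 8)))))), (.s k3
  k171 13 (.s k22 k41 6 (.s k215 k195 5 (.s k20 k150 8 (.d k23 k21 k151 0 7)))))] .n) (.c k235 (.l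
  (.s k40 k20 5 (.s k3 k171 13 (.s k1 k2 0 (.s k86 k84 0 (.d k169 k253 k252 13 14)))))) .n)))) (.c
  k150 (.q k149 [(.s k21 k213 7 (.d k63 k42 k192 6 14)), (.s k63 k192 14 (.s k61 k62 0 (.s k105 k193
  13 (.d k125 k190 k65 8 5))))] (.c k63 (.l (.s k213 k21 7 (.s k192 k234 6 (.s k104 k148 13 (.s k105
  k107 0 (.d k125 k65 k190 5 8)))))) (.c k130 (.l (.s k190 k125 8 (.s k21 k213 7 (.d k63 k42 k192 6
  14)))) (.c k190 (.q k130 [(.s k21 k213 7 (.d k63 k42 k192 6 14)), (.s k63 k192 14 (.s k61 k62 0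
  (.s k65 k195 8 (.d k105 k193 k125 13 5))))] (.c k63 (.l (.s k65 k195 8 (.s k105 k125 5 (.s k213
  k21 7 (.s k192 k234 6 (.d k104 k107 k148 0 13)))))) (.c k192 (.l (.s k21 k213 7 (.s k63 k42 6 (.s
  k61 k62 0 (.s k65 k195 8 (.d k105 k193 k125 13 5)))))) .n))) (.c k192 (.l (.s k21 k213 7 (.s k63
  k42 6 (.s k61 k62 0 (.s k105 k193 13 (.d k125 k65 k190 5 8)))))) .n))))) .n))) (.c k127 (.q k195
  [(.s k65 k130 8 (.s k215 k235 5 (.s k150 k20 8 (.d k105 k125 k60 5 14)))), (.s k65 k130 8 (.s k105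
  k125 5 (.s k107 k104 0 (.s k63 k151 13 (.s k21 k42 6 (.d k149 k213 k192 7 14)))))), (.s k215 k235
  5 (.s k150 k20 8 (.s k194 k62 13 (.s k192 k193 0 (.s k149 k63 14 (.d k213 k234 k21 6 7))))))] (.c
  k105 (.q k81 [(.s k89 k93 1 (.s k243 k162 12 (.s k166 k12 14 (.d k247 k251 k4 1 12)))), (.s k65
  k130 8 (.s k97 k113 3 (.s k48 k146 12 (.s k32 k16 3 (.d k162 k227 k243 8 12)))))] (.c k40 (.l (.s
  k235 k215 5 (.s k89 k93 1 (.s k243 k162 12 (.s k166 k12 14 (.d k247 k251 k4 1 12)))))) (.c k162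
  (.l (.s k65 k130 8 (.s k89 k93 1 (.s k97 k113 3 (.s k146 k48 12 (.s k211 k16 8 (.s k150 k28 10 (.d
  k215 k20 k235 8 5)))))))) (.c k235 (.q k40 [(.s k89 k93 1 (.s k243 k162 12 (.s k166 k12 14 (.d
  k247 k251 k4 1 12)))), (.s k20 k60 5 (.s k150 k215 8 (.s k194 k62 13 (.s k192 k193 0 (.s k213 k234
  6 (.d k149 k63 k21 14 7))))))] .n) (.c k243 (.l (.s k65 k130 8 (.s k93 k89 1 (.s k12 k174 12 (.s
  k8 k4 1 (.s k73 k134 10 (.s k69 k77 1 (.d k138 k203 k207 8 10)))))))) .n))))) (.c k150 (.q k199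
  [(.s k207 k203 1 (.s k69 k138 10 (.s k101 k117 3 (.s k154 k48 14 (.d k223 k239 k16 3 10))))), (.s
  k215 k235 5 (.s k247 k231 3 (.s k4 k166 12 (.s k12 k8 1 (.d k134 k69 k73 8 10))))), (.s k207 k203
  1 (.s k215 k235 5 (.s k223 k239 3 (.s k219 k211 1 (.d k231 k247 k243 3 5))))), (.s k207 k203 1 (.s
  k69 k138 10 (.s k4 k134 8 (.s k215 k235 5 (.d k247 k166 k231 12 3)))))] (.c k130 (.q k190 [(.s
  k207 k203 1 (.s k69 k138 10 (.s k101 k117 3 (.s k154 k48 14 (.d k223 k239 k16 3 10))))), (.s k215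
  k235 5 (.s k247 k231 3 (.s k4 k166 12 (.s k12 k8 1 (.d k134 k69 k73 8 10))))), (.s k207 k203 1 (.s
  k215 k235 5 (.s k223 k239 3 (.s k219 k211 1 (.d k231 k247 k243 3 5))))), (.s k125 k60 8 (.s k65
  k105 5 (.s k207 k203 1 (.s k69 k138 10 (.s k73 k77 1 (.d k134 k4 k12 8 10))))))] .n) (.c k190 (.l
  (.s k130 k65 8 (.s k207 k203 1 (.s k69 k138 10 (.s k4 k134 8 (.s k215 k235 5 (.d k247 k166 k231 12
  3))))))) .n))) .n))) (.c k128 (.l (.s k127 k64 6 (.s k63 k191 7 (.s k149 k192 14 (.d k21 k42 k213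
  6 7))))) (.c k149 (.f k127 k64 6 (.f k191 k63 7 (.q k86 [(.s k84 k87 0 (.s k252 k168 13 (.s k253
  k254 0 (.d k169 k1 k3 13 14)))), (.s k126 k66 5 (.s k125 k124 0 (.s k60 k190 8 (.s k20 k40 5 (.s
  k150 k215 8 (.d k105 k65 k195 5 14))))))] (.c k84 (.l (.s k126 k66 5 (.s k124 k125 0 (.s k67 k105
  6 (.s k87 k107 5 (.s k3 k171 13 (.s k1 k2 0 (.d k169 k253 k252 13 14)))))))) .n)))) (.c k191 (.l
  (.s k64 k127 6 (.s k192 k128 7 (.s k149 k63 14 (.d k213 k234 k21 6 7))))) (.c k192 (.q k1 [(.s k3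
  k2 0 (.s k87 k171 13 (.s k86 k84 0 (.d k169 k253 k252 13 14)))), (.s k127 k64 6 (.s k63 k191 7 (.s
  k21 k42 6 (.s k61 k41 5 (.s k253 k169 13 (.s k125 k189 7 (.d k60 k190 k62 8 0))))))), (.s k3 k2 0
  (.s k127 k64 6 (.s k63 k191 7 (.s k21 k42 6 (.s k23 k43 5 (.s k22 k20 0 (.d k41 k61 k60 5
  6)))))))] .n) (.c k213 (.q k1 [(.s k3 k2 0 (.s k87 k171 13 (.s k86 k84 0 (.d k169 k253 k252 13
  14)))), (.s k64 k127 6 (.s k169 k253 13 (.s k192 k128 7 (.s k149 k63 14 (.s k129 k189 5 (.s k66 k3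
  8 (.d k65 k193 k67 7 0))))))), (.s k3 k2 0 (.s k64 k127 6 (.s k192 k128 7 (.s k66 k129 8 (.s k86
  k126 5 (.d k87 k84 k171 0 13))))))] (.c k3 (.l (.s k127 k64 6 (.s k63 k191 7 (.s k21 k42 6 (.s k61
  k41 5 (.s k60 k62 0 (.s k125 k190 8 (.d k253 k189 k169 7 13)))))))) .n)) (.c k234 (.l (.s k127 k64
  6 (.s k63 k191 7 (.s k21 k42 6 (.d k149 k213 k192 7 14))))) .n))))))))))))

def t11_242 : T TT 256 :=
  (.f k255 k170 14 (.q k105 [(.s k65 k125 5 (.s k195 k130 8 (.s k150 k60 14 (.d k215 k235 k20 5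
  8))))] (.c k20 (.q k1 [(.s k3 k2 0 (.s k169 k253 13 (.s k86 k252 14 (.d k87 k84 k171 0 13)))), (.s
  k65 k125 5 (.s k169 k253 13 (.s k41 k233 7 (.s k61 k21 5 (.d k193 k129 k149 7 13))))), (.s k3 k2 0
  (.s k65 k125 5 (.s k129 k193 7 (.s k66 k192 8 (.s k67 k64 0 (.d k195 k131 k130 7 8))))))] .n) (.c
  k60 (.q k1 [(.s k65 k125 5 (.s k169 k253 13 (.s k41 k233 7 (.s k61 k21 5 (.d k193 k129 k149 7
  13))))), (.s k3 k2 0 (.s k87 k171 13 (.s k86 k84 0 (.d k169 k253 k252 13 14)))), (.s k3 k2 0 (.s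
  k65 k125 5 (.s k129 k193 7 (.s k66 k192 8 (.s k67 k64 0 (.d k195 k131 k130 7 8))))))] .n) (.c k65
  (.q k64 [(.s k106 k127 6 (.s k192 k128 7 (.s k149 k63 14 (.d k213 k234 k21 6 7)))), (.s k106 k127
  6 (.s k104 k107 0 (.s k84 k124 5 (.s k252 k168 13 (.s k253 k254 0 (.s k169 k1 13 (.d k86 k87 k3 0
  14)))))))] (.c k106 (.f k192 k128 7 (.q k149 [(.d k213 k234 k21 6 7), (.s k193 k61 13 (.s k195
  k194 0 (.s k150 k60 14 (.d k215 k235 k20 5 8))))] (.c k42 (.l (.s k234 k213 6 (.s k193 k61 13 (.s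
  k195 k194 0 (.s k150 k60 14 (.d k215 k235 k20 5 8)))))) (.c k234 (.q k42 [(.d k21 k63 k213 6 7),
  (.s k193 k61 13 (.s k195 k194 0 (.s k215 k235 5 (.d k150 k20 k60 8 14))))] .n) .n)))) (.c k127 (.l
  (.s k192 k128 7 (.s k213 k234 6 (.s k149 k21 7 (.s k193 k61 13 (.s k195 k194 0 (.s k150 k60 14 (.d
  k215 k235 k20 5 8)))))))) .n))) (.c k125 (.q k127 [(.s k106 k64 6 (.s k63 k191 7 (.s k149 k192 14
  (.d k21 k42 k213 6 7)))), (.s k106 k64 6 (.s k107 k104 0 (.s k87 k67 5 (.s k3 k171 13 (.s k1 k2 0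
  (.s k169 k253 13 (.d k86 k84 k252 0 14)))))))] (.c k64 (.l (.s k63 k191 7 (.s k21 k42 6 (.s k149
  k213 7 (.s k61 k193 13 (.s k60 k62 0 (.s k20 k40 5 (.d k150 k215 k195 8 14)))))))) (.c k106 (.f
  k63 k191 7 (.q k149 [(.d k21 k42 k213 6 7), (.s k61 k193 13 (.s k60 k62 0 (.s k20 k40 5 (.d k150
  k215 k195 8 14))))] (.c k42 (.q k234 [(.d k213 k192 k21 6 7), (.s k61 k193 13 (.s k60 k62 0 (.s
  k20 k40 5 (.d k150 k215 k195 8 14))))] .n) (.c k234 (.l (.s k42 k21 6 (.s k61 k193 13 (.s k60 k62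
  0 (.s k20 k40 5 (.d k150 k215 k195 8 14)))))) .n)))) .n))) (.c k130 (.l (.s k125 k65 5 (.s k60
  k190 8 (.s k150 k195 14 (.d k20 k40 k215 5 8))))) (.c k150 (.f k125 k65 5 (.f k190 k60 8 (.q k21
  [(.s k63 k42 6 (.s k127 k191 7 (.s k149 k213 7 (.d k106 k64 k192 6 14)))), (.s k149 k213 7 (.s k61
  k193 13 (.s k1 k41 5 (.d k253 k189 k169 7 13)))), (.s k63 k42 6 (.s k191 k127 7 (.s k189 k188 0
  (.s k252 k126 8 (.d k253 k254 k61 0 7)))))] .n))) (.c k190 (.l (.s k65 k125 5 (.s k195 k130 8 (.s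
  k150 k60 14 (.d k215 k235 k20 5 8))))) (.c k195 (.q k1 [(.s k3 k2 0 (.s k169 k253 13 (.s k86 k252
  14 (.d k87 k84 k171 0 13)))), (.s k65 k125 5 (.s k169 k253 13 (.s k41 k233 7 (.s k61 k21 5 (.d
  k193 k129 k149 7 13))))), (.s k3 k2 0 (.s k125 k65 5 (.s k60 k190 8 (.s k40 k20 5 (.s k41 k22 6
  (.s k21 k61 5 (.d k42 k43 k63 0 6)))))))] .n) (.c k215 (.q k1 [(.s k3 k2 0 (.s k169 k253 13 (.s
  k86 k252 14 (.d k87 k84 k171 0 13)))), (.s k65 k125 5 (.s k169 k253 13 (.s k41 k233 7 (.s k61 k21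
  5 (.d k193 k129 k149 7 13))))), (.s k3 k2 0 (.s k65 k125 5 (.s k129 k193 7 (.s k66 k192 8 (.s k67
  k64 0 (.d k195 k131 k130 7 8))))))] .n) (.c k235 (.l (.s k125 k65 5 (.s k60 k190 8 (.s k20 k40 5
  (.d k150 k215 k195 8 14))))) .n))))))))))))

def t11_243 : T TT 256 :=
  (.f k255 k170 14 (.q k105 [(.s k65 k125 5 (.s k195 k130 8 (.s k215 k235 5 (.d k150 k20 k60 8
  14))))] (.c k20 (.q k1 [(.s k3 k2 0 (.s k169 k253 13 (.s k86 k252 14 (.d k87 k84 k171 0 13)))),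
  (.s k65 k125 5 (.s k169 k253 13 (.s k41 k233 7 (.s k61 k21 5 (.d k193 k129 k149 7 13))))), (.s k3
  k2 0 (.s k65 k125 5 (.s k129 k193 7 (.s k66 k192 8 (.s k67 k64 0 (.d k195 k131 k130 7 8))))))] .n)
  (.c k60 (.f k65 k125 5 (.q k69 [(.s k77 k73 1 (.s k101 k117 3 (.s k97 k109 1 (.d k113 k81 k89 3
  5)))), (.s k207 k138 10 (.s k223 k239 3 (.s k154 k16 10 (.d k101 k117 k48 3 14)))), (.s k73 k77 1
  (.s k138 k207 10 (.s k8 k203 8 (.s k12 k4 1 (.d k195 k130 k134 8 10)))))] (.c k121 (.q k182 [(.s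
  k207 k138 10 (.s k223 k239 3 (.s k154 k16 10 (.d k101 k117 k48 3 14)))), (.s k77 k73 1 (.s k101
  k117 3 (.s k113 k89 5 (.d k97 k109 k81 1 3))))] (.c k101 (.l (.s k73 k77 1 (.s k138 k207 10 (.s k8
  k203 8 (.s k12 k4 1 (.d k195 k130 k134 8 10)))))) (.c k113 (.l (.s k117 k101 3 (.s k77 k73 1 (.s
  k207 k138 10 (.s k12 k142 8 (.s k247 k52 8 (.d k4 k8 k166 1 12))))))) (.c k117 (.q k113 [(.s k77
  k73 1 (.s k81 k97 3 (.d k89 k93 k101 1 5))), (.s k97 k81 3 (.s k195 k130 8 (.s k48 k146 12 (.s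
  k207 k138 10 (.d k101 k154 k109 14 1))))), (.s k73 k77 1 (.s k138 k207 10 (.s k8 k203 8 (.s k12 k4
  1 (.d k195 k130 k134 8 10)))))] .n) .n)))) (.c k182 (.q k121 [(.d k73 k77 k89 1 3), (.s k101 k117
  3 (.s k207 k138 10 (.s k154 k48 14 (.d k223 k239 k16 3 10))))] .n) (.c k207 (.l (.s k77 k73 1 (.s
  k101 k117 3 (.s k113 k89 5 (.d k97 k109 k81 1 3))))) .n))))) (.c k65 (.q k84 [(.s k86 k87 0 (.s
  k252 k168 13 (.s k253 k254 0 (.d k169 k1 k3 13 14)))), (.s k86 k87 0 (.s k124 k67 6 (.s k64 k104 5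
  (.s k192 k128 7 (.s k213 k234 6 (.s k149 k21 7 (.d k106 k127 k63 6 14)))))))] (.c k86 (.f k252
  k168 13 (.q k169 [(.d k253 k254 k1 0 13), (.s k233 k41 7 (.s k195 k214 6 (.s k150 k60 14 (.d k215
  k235 k20 5 8))))] (.c k2 (.l (.s k254 k253 0 (.s k233 k41 7 (.s k195 k214 6 (.s k150 k60 14 (.d
  k215 k235 k20 5 8)))))) (.c k254 (.q k2 [(.d k1 k3 k253 0 13), (.s k233 k41 7 (.s k195 k214 6 (.s
  k215 k235 5 (.d k150 k20 k60 8 14))))] .n) .n)))) (.c k87 (.l (.s k252 k168 13 (.s k253 k254 0 (.s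
  k169 k1 13 (.s k233 k41 7 (.s k195 k214 6 (.s k150 k60 14 (.d k215 k235 k20 5 8)))))))) .n))) (.c
  k125 (.q k84 [(.s k86 k87 0 (.s k252 k168 13 (.s k253 k254 0 (.d k169 k1 k3 13 14)))), (.s k86 k87
  0 (.s k124 k67 6 (.s k64 k104 5 (.s k192 k128 7 (.s k213 k234 6 (.s k149 k21 7 (.d k106 k127 k63 6
  14)))))))] (.c k86 (.f k252 k168 13 (.q k169 [(.d k253 k254 k1 0 13), (.s k233 k41 7 (.s k195 k214
  6 (.s k150 k60 14 (.d k215 k235 k20 5 8))))] (.c k2 (.l (.s k254 k253 0 (.s k233 k41 7 (.s k195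
  k214 6 (.s k150 k60 14 (.d k215 k235 k20 5 8)))))) (.c k254 (.q k2 [(.d k1 k3 k253 0 13), (.s k233
  k41 7 (.s k195 k214 6 (.s k215 k235 5 (.d k150 k20 k60 8 14))))] .n) .n)))) (.c k87 (.l (.s k252
  k168 13 (.s k253 k254 0 (.s k169 k1 13 (.s k233 k41 7 (.s k195 k214 6 (.s k150 k60 14 (.d k215
  k235 k20 5 8)))))))) .n))) (.c k130 (.l (.s k125 k65 5 (.s k60 k190 8 (.s k150 k195 14 (.d k20 k40
  k215 5 8))))) (.c k150 (.f k125 k65 5 (.q k149 [(.s k21 k213 7 (.s k61 k193 13 (.s k253 k189 7 (.d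
  k1 k41 k169 5 13)))), (.s k21 k213 7 (.s k63 k42 6 (.s k106 k192 14 (.d k127 k64 k191 6 7)))), (.s
  k61 k193 13 (.s k253 k189 7 (.s k252 k254 0 (.s k84 k168 13 (.s k86 k87 0 (.d k169 k1 k3 13
  14))))))] (.c k130 (.l (.s k190 k60 8 (.s k21 k213 7 (.s k61 k193 13 (.s k1 k41 5 (.d k253 k189
  k169 7 13)))))) (.c k190 (.q k130 [(.s k21 k213 7 (.s k63 k42 6 (.s k106 k192 14 (.d k127 k64 k191
  6 7)))), (.s k61 k193 13 (.s k253 k189 7 (.s k252 k254 0 (.s k84 k168 13 (.s k86 k87 0 (.d k169 k1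
  k3 13 14))))))] (.c k191 (.l (.s k21 k213 7 (.s k61 k193 13 (.s k1 k41 5 (.d k253 k189 k169 7
  13))))) .n)) .n)))) (.c k190 (.l (.s k65 k125 5 (.s k195 k130 8 (.s k150 k60 14 (.d k215 k235 k20
  5 8))))) (.c k195 (.f k125 k65 5 (.q k124 [(.s k67 k86 6 (.s k127 k126 0 (.s k106 k64 6 (.d k107
  k104 k87 0 5)))), (.s k60 k190 8 (.s k252 k188 7 (.s k84 k168 13 (.d k86 k87 k67 0 6)))), (.s k60
  k190 8 (.s k126 k127 0 (.s k252 k188 7 (.s k189 k63 8 (.d k253 k254 k61 0 7)))))] (.c k211 (.q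
  k227 [(.s k67 k86 6 (.s k127 k126 0 (.s k106 k64 6 (.d k107 k104 k87 0 5)))), (.s k60 k190 8 (.s
  k252 k188 7 (.s k84 k168 13 (.d k86 k87 k67 0 6)))), (.s k60 k190 8 (.s k126 k127 0 (.s k252 k188
  7 (.s k189 k63 8 (.d k253 k254 k61 0 7)))))] .n) (.c k227 (.q k211 [(.s k67 k86 6 (.s k127 k126 0
  (.s k106 k64 6 (.d k107 k104 k87 0 5)))), (.s k60 k190 8 (.s k252 k188 7 (.s k84 k168 13 (.d k86
  k87 k67 0 6)))), (.s k60 k190 8 (.s k126 k127 0 (.s k252 k188 7 (.s k189 k63 8 (.d k253 k254 k61 0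
  7)))))] .n) .n)))) (.c k215 (.q k1 [(.s k3 k2 0 (.s k169 k253 13 (.s k86 k252 14 (.d k87 k84 k171
  0 13)))), (.s k65 k125 5 (.s k169 k253 13 (.s k41 k233 7 (.s k61 k21 5 (.d k193 k129 k149 7
  13))))), (.s k3 k2 0 (.s k65 k125 5 (.s k129 k193 7 (.s k66 k192 8 (.s k67 k64 0 (.d k195 k131
  k130 7 8))))))] .n) (.c k235 (.l (.s k125 k65 5 (.s k60 k190 8 (.s k20 k40 5 (.d k150 k215 k195 8
  14))))) .n))))))))))))

def t11_244 : T TT 256 :=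
  (.f k255 k170 14 (.q k106 [(.s k64 k127 6 (.s k192 k128 7 (.s k149 k63 14 (.d k213 k234 k21 6
  7))))] (.c k21 (.q k1 [(.s k3 k2 0 (.s k169 k253 13 (.s k86 k252 14 (.d k87 k84 k171 0 13)))), (.s
  k64 k127 6 (.s k169 k253 13 (.s k192 k128 7 (.s k149 k63 14 (.s k129 k189 5 (.s k65 k193 7 (.d k66
  k67 k3 0 8))))))), (.s k3 k2 0 (.s k64 k127 6 (.s k192 k128 7 (.s k66 k129 8 (.s k86 k126 5 (.d
  k87 k84 k171 0 13))))))] (.c k3 (.l (.s k64 k127 6 (.s k192 k128 7 (.s k213 k234 6 (.s k253 k169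
  13 (.s k193 k233 5 (.s k65 k129 7 (.d k195 k130 k194 8 0)))))))) .n)) (.c k63 (.q k1 [(.s k3 k2 0
  (.s k87 k171 13 (.s k169 k253 13 (.d k86 k84 k252 0 14)))), (.s k64 k127 6 (.s k192 k128 7 (.s
  k213 k234 6 (.s k253 k169 13 (.s k193 k233 5 (.s k65 k129 7 (.d k195 k130 k194 8 0))))))), (.s k3
  k2 0 (.s k64 k127 6 (.s k192 k128 7 (.s k66 k129 8 (.s k86 k126 5 (.d k87 k84 k171 0 13))))))] (.c
  k171 (.l (.s k3 k2 0 (.s k64 k127 6 (.s k169 k253 13 (.s k86 k252 14 (.s k192 k128 7 (.d k66 k126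
  k129 5 8))))))) .n)) (.c k64 (.q k60 [(.s k20 k40 5 (.s k125 k190 8 (.s k150 k215 8 (.d k105 k65
  k195 5 14)))), (.s k20 k40 5 (.s k150 k215 8 (.s k62 k194 13 (.s k63 k61 0 (.s k21 k42 6 (.d k149
  k213 k192 7 14)))))), (.s k125 k190 8 (.s k105 k65 5 (.s k104 k107 0 (.s k192 k148 13 (.s k149 k63
  14 (.d k213 k234 k21 6 7))))))] (.c k105 (.q k87 [(.s k3 k171 13 (.s k1 k2 0 (.s k169 k253 13 (.d
  k86 k84 k252 0 14)))), (.s k86 k84 0 (.s k126 k66 5 (.s k190 k125 8 (.s k62 k254 7 (.s k150 k194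
  13 (.d k20 k40 k215 5 8)))))), (.s k3 k171 13 (.s k2 k1 0 (.s k22 k41 6 (.s k42 k62 5 (.s k21 k63
  6 (.d k20 k40 k23 5 0))))))] (.c k2 (.l (.s k3 k171 13 (.s k22 k41 6 (.s k86 k84 0 (.s k150 k214 7
  (.d k20 k40 k215 5 8)))))) (.c k40 (.q k235 [(.s k3 k171 13 (.s k1 k2 0 (.s k169 k253 13 (.d k86
  k84 k252 0 14)))), (.s k86 k84 0 (.s k126 k66 5 (.s k190 k125 8 (.s k62 k254 7 (.s k150 k194 13
  (.d k215 k195 k20 5 8)))))), (.s k3 k171 13 (.s k22 k41 6 (.s k215 k195 5 (.s k20 k150 8 (.d k23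
  k21 k151 0 7)))))] .n) (.c k235 (.l (.s k40 k20 5 (.s k3 k171 13 (.s k1 k2 0 (.s k86 k84 0 (.d
  k169 k253 k252 13 14)))))) .n)))) (.c k150 (.q k149 [(.s k21 k213 7 (.d k63 k42 k192 6 14)), (.s
  k63 k192 14 (.s k61 k62 0 (.s k105 k193 13 (.d k125 k190 k65 8 5))))] (.c k63 (.l (.s k213 k21 7
  (.s k192 k234 6 (.s k104 k148 13 (.s k105 k107 0 (.d k125 k65 k190 5 8)))))) (.c k130 (.l (.s k190
  k125 8 (.s k21 k213 7 (.d k63 k42 k192 6 14)))) (.c k190 (.q k130 [(.s k21 k213 7 (.d k63 k42 k192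
  6 14)), (.s k63 k192 14 (.s k61 k62 0 (.s k65 k195 8 (.d k105 k193 k125 13 5))))] (.c k63 (.l (.s
  k65 k195 8 (.s k105 k125 5 (.s k213 k21 7 (.s k192 k234 6 (.d k104 k107 k148 0 13)))))) (.c k192
  (.l (.s k21 k213 7 (.s k63 k42 6 (.s k61 k62 0 (.s k65 k195 8 (.d k105 k193 k125 13 5)))))) .n)))
  (.c k192 (.l (.s k21 k213 7 (.s k63 k42 6 (.s k61 k62 0 (.s k105 k193 13 (.d k125 k65 k190 5
  8)))))) .n))))) .n))) (.c k127 (.q k195 [(.s k65 k130 8 (.s k215 k235 5 (.s k150 k20 8 (.d k105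
  k125 k60 5 14)))), (.s k65 k130 8 (.s k105 k125 5 (.s k107 k104 0 (.s k63 k151 13 (.s k21 k42 6
  (.d k149 k213 k192 7 14)))))), (.s k215 k235 5 (.s k150 k20 8 (.s k194 k62 13 (.s k192 k193 0 (.s
  k149 k63 14 (.d k213 k234 k21 6 7))))))] (.c k105 (.q k81 [(.s k89 k93 1 (.s k243 k162 12 (.s k166
  k12 14 (.d k247 k251 k4 1 12)))), (.s k65 k130 8 (.s k97 k113 3 (.s k48 k146 12 (.s k32 k16 3 (.d
  k162 k227 k243 8 12)))))] (.c k40 (.l (.s k235 k215 5 (.s k89 k93 1 (.s k243 k162 12 (.s k166 k12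
  14 (.d k247 k251 k4 1 12)))))) (.c k162 (.l (.s k65 k130 8 (.s k89 k93 1 (.s k97 k113 3 (.s k146
  k48 12 (.s k211 k16 8 (.s k150 k28 10 (.d k215 k20 k235 8 5)))))))) (.c k235 (.q k40 [(.s k89 k93
  1 (.s k243 k162 12 (.s k166 k12 14 (.d k247 k251 k4 1 12)))), (.s k20 k60 5 (.s k150 k215 8 (.s
  k194 k62 13 (.s k192 k193 0 (.s k213 k234 6 (.d k149 k63 k21 14 7))))))] .n) (.c k243 (.l (.s k65
  k130 8 (.s k93 k89 1 (.s k12 k174 12 (.s k8 k4 1 (.s k73 k134 10 (.s k69 k77 1 (.d k138 k203 k207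
  8 10)))))))) .n))))) (.c k150 (.q k199 [(.s k207 k203 1 (.s k69 k138 10 (.s k101 k117 3 (.s k154
  k48 14 (.d k223 k239 k16 3 10))))), (.s k215 k235 5 (.s k247 k231 3 (.s k4 k166 12 (.s k12 k8 1
  (.d k134 k69 k73 8 10))))), (.s k207 k203 1 (.s k215 k235 5 (.s k223 k239 3 (.s k219 k211 1 (.d
  k231 k247 k243 3 5))))), (.s k207 k203 1 (.s k69 k138 10 (.s k4 k134 8 (.s k215 k235 5 (.d k247
  k166 k231 12 3)))))] (.c k130 (.q k190 [(.s k207 k203 1 (.s k69 k138 10 (.s k101 k117 3 (.s k154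
  k48 14 (.d k223 k239 k16 3 10))))), (.s k215 k235 5 (.s k247 k231 3 (.s k4 k166 12 (.s k12 k8 1
  (.d k134 k69 k73 8 10))))), (.s k207 k203 1 (.s k215 k235 5 (.s k223 k239 3 (.s k219 k211 1 (.d
  k231 k247 k243 3 5))))), (.s k125 k60 8 (.s k65 k105 5 (.s k207 k203 1 (.s k69 k138 10 (.s k73 k77
  1 (.d k134 k4 k12 8 10))))))] .n) (.c k190 (.l (.s k130 k65 8 (.s k207 k203 1 (.s k69 k138 10 (.s
  k4 k134 8 (.s k215 k235 5 (.d k247 k166 k231 12 3))))))) .n))) .n))) (.c k128 (.l (.s k127 k64 6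
  (.s k63 k191 7 (.s k149 k192 14 (.d k21 k42 k213 6 7))))) (.c k149 (.f k127 k64 6 (.q k90 [(.s k80
  k95 2 (.s k240 k160 11 (.s k165 k15 14 (.d k245 k250 k5 2 11)))), (.s k122 k74 3 (.s k117 k112 2
  (.s k48 k186 10 (.s k16 k32 3 (.s k154 k223 10 (.d k101 k69 k207 3 14))))))] (.c k80 (.l (.s k122
  k74 3 (.s k112 k117 2 (.s k79 k101 6 (.s k95 k111 3 (.s k15 k175 11 (.s k5 k10 2 (.d k165 k245
  k240 11 14)))))))) (.c k128 (.l (.s k191 k63 7 (.s k80 k95 2 (.s k240 k160 11 (.s k165 k15 14 (.d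
  k245 k250 k5 2 11)))))) (.c k191 (.q k128 [(.s k80 k95 2 (.s k240 k160 11 (.s k245 k250 2 (.d k165
  k5 k15 11 14)))), (.s k122 k74 3 (.s k117 k112 2 (.s k48 k186 10 (.s k16 k32 3 (.s k154 k223 10
  (.d k101 k69 k207 3 14))))))] (.c k80 (.l (.s k122 k74 3 (.s k112 k117 2 (.s k79 k101 6 (.s k95
  k111 3 (.s k15 k175 11 (.s k5 k10 2 (.d k165 k245 k240 11 14)))))))) .n)) .n))))) (.c k191 (.l (.s
  k64 k127 6 (.s k192 k128 7 (.s k149 k63 14 (.d k213 k234 k21 6 7))))) (.c k192 (.q k1 [(.s k3 k2 0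
  (.s k87 k171 13 (.s k169 k253 13 (.d k86 k84 k252 0 14)))), (.s k127 k64 6 (.s k63 k191 7 (.s k21
  k42 6 (.s k61 k41 5 (.s k253 k169 13 (.s k125 k189 7 (.d k60 k190 k62 8 0))))))), (.s k3 k2 0 (.s
  k127 k64 6 (.s k63 k191 7 (.s k21 k42 6 (.s k23 k43 5 (.s k22 k20 0 (.d k41 k61 k60 5 6)))))))]
  .n) (.c k213 (.q k1 [(.s k3 k2 0 (.s k169 k253 13 (.s k86 k252 14 (.d k87 k84 k171 0 13)))), (.s
  k127 k64 6 (.s k63 k191 7 (.s k21 k42 6 (.s k61 k41 5 (.s k60 k62 0 (.s k125 k190 8 (.d k253 k189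
  k169 7 13))))))), (.s k64 k127 6 (.s k169 k253 13 (.s k192 k128 7 (.s k149 k63 14 (.s k129 k189 5
  (.s k66 k3 8 (.d k65 k193 k67 7 0))))))), (.s k3 k2 0 (.s k64 k127 6 (.s k192 k128 7 (.s k66 k129
  8 (.s k86 k126 5 (.d k87 k84 k171 0 13))))))] .n) (.c k234 (.l (.s k127 k64 6 (.s k63 k191 7 (.s
  k21 k42 6 (.d k149 k213 k192 7 14))))) .n))))))))))))

def t11_246 : T TT 256 :=
  (.f k255 k170 14 (.q k105 [(.s k65 k125 5 (.s k195 k130 8 (.s k150 k60 14 (.d k215 k235 k20 5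
  8))))] (.c k20 (.q k1 [(.s k3 k2 0 (.s k169 k253 13 (.s k86 k252 14 (.d k87 k84 k171 0 13)))), (.s
  k65 k125 5 (.s k169 k253 13 (.s k41 k233 7 (.s k61 k21 5 (.d k193 k129 k149 7 13))))), (.s k3 k2 0
  (.s k65 k125 5 (.s k129 k193 7 (.s k66 k192 8 (.s k67 k64 0 (.d k195 k131 k130 7 8))))))] .n) (.c
  k60 (.q k1 [(.s k3 k2 0 (.s k87 k171 13 (.s k86 k84 0 (.d k169 k253 k252 13 14)))), (.s k65 k125 5
  (.s k169 k253 13 (.s k41 k233 7 (.s k61 k21 5 (.d k193 k129 k149 7 13))))), (.s k3 k2 0 (.s k65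
  k125 5 (.s k129 k193 7 (.s k66 k192 8 (.s k67 k64 0 (.d k195 k131 k130 7 8))))))] .n) (.c k65 (.q
  k64 [(.s k106 k127 6 (.s k192 k128 7 (.s k149 k63 14 (.d k213 k234 k21 6 7)))), (.s k106 k127 6
  (.s k104 k107 0 (.s k84 k124 5 (.s k252 k168 13 (.s k253 k254 0 (.s k169 k1 13 (.d k86 k87 k3 0
  14)))))))] (.c k106 (.f k192 k128 7 (.q k149 [(.d k213 k234 k21 6 7), (.s k193 k61 13 (.s k195
  k194 0 (.s k150 k60 14 (.d k215 k235 k20 5 8))))] (.c k42 (.l (.s k234 k213 6 (.s k193 k61 13 (.s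
  k195 k194 0 (.s k150 k60 14 (.d k215 k235 k20 5 8)))))) (.c k234 (.q k42 [(.d k21 k63 k213 6 7),
  (.s k193 k61 13 (.s k195 k194 0 (.s k215 k235 5 (.d k150 k20 k60 8 14))))] .n) .n)))) (.c k127 (.l
  (.s k192 k128 7 (.s k213 k234 6 (.s k149 k21 7 (.s k193 k61 13 (.s k195 k194 0 (.s k150 k60 14 (.d
  k215 k235 k20 5 8)))))))) .n))) (.c k125 (.q k127 [(.s k106 k64 6 (.s k63 k191 7 (.s k149 k192 14
  (.d k21 k42 k213 6 7)))), (.s k106 k64 6 (.s k107 k104 0 (.s k87 k67 5 (.s k3 k171 13 (.s k1 k2 0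
  (.s k169 k253 13 (.d k86 k84 k252 0 14)))))))] (.c k64 (.l (.s k63 k191 7 (.s k21 k42 6 (.s k149
  k213 7 (.s k61 k193 13 (.s k60 k62 0 (.s k20 k40 5 (.d k150 k215 k195 8 14)))))))) (.c k106 (.f
  k63 k191 7 (.q k149 [(.d k21 k42 k213 6 7), (.s k61 k193 13 (.s k60 k62 0 (.s k20 k40 5 (.d k150
  k215 k195 8 14))))] (.c k42 (.q k234 [(.d k213 k192 k21 6 7), (.s k61 k193 13 (.s k60 k62 0 (.s
  k20 k40 5 (.d k150 k215 k195 8 14))))] .n) (.c k234 (.l (.s k42 k21 6 (.s k61 k193 13 (.s k60 k62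
  0 (.s k20 k40 5 (.d k150 k215 k195 8 14)))))) .n)))) .n))) (.c k130 (.l (.s k125 k65 5 (.s k60
  k190 8 (.s k150 k195 14 (.d k20 k40 k215 5 8))))) (.c k150 (.f k125 k65 5 (.f k190 k60 8 (.q k21
  [(.s k63 k42 6 (.s k127 k191 7 (.s k149 k213 7 (.d k106 k64 k192 6 14)))), (.s k149 k213 7 (.s k61
  k193 13 (.s k1 k41 5 (.d k253 k189 k169 7 13)))), (.s k63 k42 6 (.s k191 k127 7 (.s k189 k188 0
  (.s k252 k126 8 (.d k253 k254 k61 0 7)))))] .n))) (.c k190 (.l (.s k65 k125 5 (.s k195 k130 8 (.s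
  k150 k60 14 (.d k215 k235 k20 5 8))))) (.c k195 (.q k1 [(.s k3 k2 0 (.s k87 k171 13 (.s k86 k84 0
  (.d k169 k253 k252 13 14)))), (.s k65 k125 5 (.s k169 k253 13 (.s k41 k233 7 (.s k61 k21 5 (.d
  k193 k129 k149 7 13))))), (.s k3 k2 0 (.s k125 k65 5 (.s k60 k190 8 (.s k40 k20 5 (.s k41 k22 6
  (.s k21 k61 5 (.d k42 k43 k63 0 6)))))))] .n) (.c k215 (.q k1 [(.s k3 k2 0 (.s k169 k253 13 (.s
  k86 k252 14 (.d k87 k84 k171 0 13)))), (.s k65 k125 5 (.s k169 k253 13 (.s k41 k233 7 (.s k61 k21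
  5 (.d k193 k129 k149 7 13))))), (.s k3 k2 0 (.s k65 k125 5 (.s k129 k193 7 (.s k66 k192 8 (.s k67
  k64 0 (.d k195 k131 k130 7 8))))))] .n) (.c k235 (.l (.s k125 k65 5 (.s k60 k190 8 (.s k20 k40 5
  (.d k150 k215 k195 8 14))))) .n))))))))))))

def t11_247 : T TT 256 :=
  (.f k255 k170 14 (.q k106 [(.s k64 k127 6 (.s k192 k128 7 (.s k149 k63 14 (.d k213 k234 k21 6
  7))))] (.c k21 (.q k1 [(.s k3 k2 0 (.s k169 k253 13 (.s k86 k252 14 (.d k87 k84 k171 0 13)))), (.s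
  k64 k127 6 (.s k192 k128 7 (.s k213 k234 6 (.s k253 k169 13 (.s k193 k233 5 (.s k65 k129 7 (.d
  k195 k130 k194 8 0))))))), (.s k3 k2 0 (.s k64 k127 6 (.s k192 k128 7 (.s k66 k129 8 (.s k86 k126
  5 (.d k87 k84 k171 0 13))))))] (.c k171 (.l (.s k3 k2 0 (.s k127 k64 6 (.s k63 k191 7 (.s k43 k23
  5 (.d k169 k232 k253 8 13)))))) .n)) (.c k63 (.q k1 [(.s k3 k2 0 (.s k169 k253 13 (.s k86 k252 14
  (.d k87 k84 k171 0 13)))), (.s k64 k127 6 (.s k192 k128 7 (.s k213 k234 6 (.s k253 k169 13 (.s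
  k193 k233 5 (.s k65 k129 7 (.d k195 k130 k194 8 0))))))), (.s k64 k127 6 (.s k169 k253 13 (.s k192
  k128 7 (.s k232 k43 8 (.s k252 k212 5 (.s k84 k168 13 (.d k86 k3 k87 14 0))))))), (.s k3 k2 0 (.s
  k64 k127 6 (.s k192 k128 7 (.s k66 k129 8 (.s k86 k126 5 (.d k87 k84 k171 0 13))))))] .n) (.c k64
  (.q k60 [(.s k20 k40 5 (.s k125 k190 8 (.s k105 k65 5 (.d k150 k215 k195 8 14)))), (.s k20 k40 5
  (.s k150 k215 8 (.s k62 k194 13 (.s k63 k61 0 (.s k21 k42 6 (.d k149 k213 k192 7 14)))))), (.s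
  k125 k190 8 (.s k105 k65 5 (.s k104 k107 0 (.s k192 k148 13 (.s k149 k63 14 (.d k213 k234 k21 6
  7))))))] (.c k105 (.q k87 [(.s k3 k171 13 (.s k1 k2 0 (.s k169 k253 13 (.d k86 k84 k252 0 14)))),
  (.s k86 k84 0 (.s k126 k66 5 (.s k190 k125 8 (.s k62 k254 7 (.s k150 k194 13 (.d k20 k40 k215 5
  8)))))), (.s k3 k171 13 (.s k2 k1 0 (.s k22 k41 6 (.s k42 k62 5 (.s k21 k63 6 (.d k20 k40 k23 5
  0))))))] (.c k2 (.l (.s k3 k171 13 (.s k22 k41 6 (.s k86 k84 0 (.s k150 k214 7 (.d k20 k40 k215 5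
  8)))))) (.c k40 (.q k235 [(.s k3 k171 13 (.s k1 k2 0 (.s k169 k253 13 (.d k86 k84 k252 0 14)))),
  (.s k86 k84 0 (.s k126 k66 5 (.s k190 k125 8 (.s k62 k254 7 (.s k150 k194 13 (.d k215 k195 k20 5
  8)))))), (.s k3 k171 13 (.s k22 k41 6 (.s k215 k195 5 (.s k20 k150 8 (.d k23 k21 k151 0 7)))))]
  .n) (.c k235 (.l (.s k40 k20 5 (.s k3 k171 13 (.s k1 k2 0 (.s k86 k84 0 (.d k169 k253 k252 13
  14)))))) .n)))) (.c k150 (.q k148 [(.s k104 k192 13 (.s k105 k107 0 (.d k125 k190 k65 8 5))), (.s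
  k192 k104 13 (.s k149 k63 14 (.d k213 k234 k21 6 7))), (.s k20 k40 5 (.s k84 k212 7 (.s k86 k87 0
  (.s k126 k66 5 (.s k190 k125 8 (.s k254 k62 7 (.d k252 k253 k168 0 13)))))))] (.c k130 (.l (.s
  k190 k125 8 (.s k192 k104 13 (.s k149 k63 14 (.d k213 k234 k21 6 7))))) (.c k190 (.q k130 [(.s k65
  k195 8 (.s k105 k125 5 (.d k104 k107 k192 0 13))), (.s k192 k104 13 (.s k149 k63 14 (.d k213 k234
  k21 6 7))), (.s k20 k40 5 (.s k65 k195 8 (.s k84 k212 7 (.s k86 k87 0 (.s k105 k125 5 (.s k124 k67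
  6 (.d k252 k188 k168 7 13)))))))] .n) .n))) .n))) (.c k127 (.q k252 [(.s k84 k168 13 (.s k253 k254
  0 (.s k169 k1 13 (.d k86 k87 k3 0 14)))), (.s k84 k168 13 (.s k86 k87 0 (.s k126 k66 5 (.s k63
  k189 8 (.s k21 k42 6 (.d k149 k213 k192 7 14)))))), (.s k253 k254 0 (.s k169 k1 13 (.s k232 k43 8
  (.s k192 k212 5 (.s k149 k63 14 (.d k213 k234 k21 6 7))))))] (.c k86 (.q k95 [(.s k15 k175 11 (.s
  k90 k80 2 (.s k165 k240 14 (.d k5 k10 k245 2 11)))), (.s k80 k90 2 (.s k84 k168 13 (.s k92 k88 1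
  (.s k12 k172 11 (.d k93 k94 k174 0 12))))), (.s k15 k175 11 (.s k94 k173 12 (.s k93 k92 0 (.s k174
  k12 12 (.d k254 k253 k14 0 11)))))] (.c k2 (.l (.s k254 k253 0 (.s k15 k175 11 (.s k5 k10 2 (.s
  k90 k80 2 (.d k165 k245 k240 11 14)))))) (.c k160 (.l (.s k90 k80 2 (.s k15 k175 11 (.s k165 k240
  14 (.d k5 k10 k245 2 11))))) (.c k254 (.q k2 [(.s k15 k175 11 (.s k90 k80 2 (.s k165 k240 14 (.d
  k5 k10 k245 2 11)))), (.s k1 k3 0 (.s k169 k253 13 (.s k232 k43 8 (.s k192 k212 5 (.s k213 k234 6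
  (.d k149 k63 k21 14 7))))))] (.c k15 (.l (.s k80 k90 2 (.s k84 k168 13 (.s k92 k88 1 (.s k12 k172
  11 (.d k93 k94 k174 0 12)))))) .n)) .n)))) (.c k169 (.f k168 k84 13 (.q k240 [(.s k80 k160 11 (.s
  k245 k250 2 (.s k165 k5 11 (.d k90 k95 k15 2 14)))), (.s k160 k80 11 (.s k164 k172 1 (.s k88 k12
  13 (.d k248 k244 k8 1 11)))), (.s k248 k244 1 (.s k254 k253 0 (.s k250 k245 2 (.s k246 k242 1 (.d
  k249 k251 k243 0 2)))))] (.c k90 (.l (.s k248 k244 1 (.s k88 k8 11 (.s k160 k80 11 (.d k164 k172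
  k12 1 13))))) (.c k248 (.q k90 [(.d k80 k95 k160 2 11), (.s k165 k15 14 (.d k245 k250 k5 2 11))]
  .n) .n)))) .n))) (.c k128 (.l (.s k127 k64 6 (.s k63 k191 7 (.s k149 k192 14 (.d k21 k42 k213 6
  7))))) (.c k149 (.f k127 k64 6 (.q k117 [(.s k101 k69 3 (.s k111 k96 2 (.s k79 k95 3 (.d k112 k122
  k90 2 6)))), (.s k48 k186 10 (.s k16 k32 3 (.s k154 k223 10 (.s k58 k202 11 (.d k63 k191 k53 7
  2)))))] (.c k101 (.l (.s k122 k112 2 (.s k90 k74 3 (.s k80 k95 2 (.s k240 k160 11 (.d k63 k191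
  k181 7 10)))))) (.c k128 (.l (.s k191 k63 7 (.s k48 k186 10 (.s k16 k32 3 (.s k101 k69 3 (.d k154
  k223 k207 10 14)))))) (.c k191 (.q k128 [(.s k101 k69 3 (.s k111 k96 2 (.s k79 k95 3 (.d k112 k122
  k90 2 6)))), (.s k48 k186 10 (.s k16 k32 3 (.s k154 k223 10 (.d k101 k69 k207 3 14)))), (.s k122
  k112 2 (.s k186 k48 10 (.s k250 k58 7 (.s k240 k245 2 (.s k80 k160 11 (.d k90 k95 k74 2 3))))))]
  .n) .n))))) (.c k191 (.l (.s k64 k127 6 (.s k192 k128 7 (.s k149 k63 14 (.d k213 k234 k21 6 7)))))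
  (.c k192 (.q k1 [(.s k3 k2 0 (.s k169 k253 13 (.s k86 k252 14 (.d k87 k84 k171 0 13)))), (.s k127
  k64 6 (.s k63 k191 7 (.s k21 k42 6 (.s k61 k41 5 (.s k253 k169 13 (.s k125 k189 7 (.d k60 k190 k62
  8 0))))))), (.s k3 k2 0 (.s k127 k64 6 (.s k63 k191 7 (.s k21 k42 6 (.s k23 k43 5 (.s k22 k20 0
  (.d k41 k61 k60 5 6)))))))] .n) (.c k213 (.f k64 k127 6 (.f k192 k128 7 (.f k149 k63 14 (.q k196
  [(.s k102 k55 12 (.s k204 k200 1 (.d k68 k119 k136 4 9))), (.s k204 k200 1 (.s k68 k136 9 (.s k72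
  k76 1 (.d k132 k4 k12 7 9)))), (.s k102 k55 12 (.s k98 k110 1 (.s k51 k145 12 (.d k204 k200 k153 1
  14)))), (.s k102 k55 12 (.s k119 k68 4 (.s k51 k187 9 (.d k98 k110 k145 1 12))))] .n)))) (.c k234
  (.l (.s k127 k64 6 (.s k63 k191 7 (.s k21 k42 6 (.d k149 k213 k192 7 14))))) .n))))))))))))

def t11_248 : T TT 256 :=
  (.f k255 k170 14 (.q k90 [(.s k80 k95 2 (.s k240 k160 11 (.s k165 k15 14 (.d k245 k250 k5 2
  11)))), (.s k95 k80 2 (.s k15 k175 11 (.s k165 k240 14 (.d k5 k10 k245 2 11))))] (.c k5 (.q k1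
  [(.s k3 k2 0 (.s k169 k253 13 (.s k86 k252 14 (.d k87 k84 k171 0 13)))), (.s k80 k95 2 (.s k169
  k253 13 (.s k240 k160 11 (.s k165 k15 14 (.s k161 k173 1 (.s k81 k241 11 (.d k82 k3 k83 12
  0))))))), (.s k3 k2 0 (.s k80 k95 2 (.s k240 k160 11 (.s k82 k161 12 (.s k86 k94 1 (.d k87 k84
  k171 0 13)))))), (.s k95 k80 2 (.s k15 k175 11 (.s k253 k169 13 (.s k252 k254 0 (.s k94 k173 12
  (.s k86 k82 1 (.d k84 k168 k87 13 0)))))))] .n) (.c k15 (.q k3 [(.s k1 k2 0 (.s k87 k171 13 (.s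
  k86 k84 0 (.d k169 k253 k252 13 14)))), (.s k2 k1 0 (.s k80 k95 2 (.s k240 k160 11 (.s k82 k161 12
  (.s k81 k83 0 (.d k162 k242 k243 11 12)))))), (.s k80 k95 2 (.s k240 k160 11 (.s k82 k161 12 (.s
  k86 k94 1 (.d k87 k84 k171 0 13)))))] (.c k87 (.l (.s k1 k2 0 (.s k80 k95 2 (.s k169 k253 13 (.s
  k86 k252 14 (.s k240 k160 11 (.d k82 k94 k161 1 12))))))) .n)) (.c k80 (.q k64 [(.s k106 k127 6
  (.s k192 k128 7 (.s k149 k63 14 (.d k213 k234 k21 6 7)))), (.s k106 k127 6 (.s k74 k122 3 (.s k69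
  k79 2 (.s k207 k138 10 (.s k223 k239 3 (.s k154 k16 10 (.d k101 k117 k48 3 14)))))))] (.c k106 (.f
  k192 k128 7 (.q k149 [(.d k213 k234 k21 6 7), (.s k208 k31 10 (.s k240 k224 3 (.s k165 k15 14 (.d
  k245 k250 k5 2 11))))] (.c k42 (.l (.s k234 k213 6 (.s k208 k31 10 (.s k240 k224 3 (.s k165 k15 14
  (.d k245 k250 k5 2 11)))))) (.c k234 (.q k42 [(.d k21 k63 k213 6 7), (.s k208 k31 10 (.s k240 k224
  3 (.s k245 k250 2 (.d k165 k5 k15 11 14))))] .n) .n)))) (.c k127 (.l (.s k192 k128 7 (.s k213 k234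
  6 (.s k149 k21 7 (.s k208 k31 10 (.s k240 k224 3 (.s k165 k15 14 (.d k245 k250 k5 2 11))))))))
  .n))) (.c k95 (.q k69 [(.s k101 k117 3 (.s k207 k138 10 (.s k154 k48 14 (.d k223 k239 k16 3
  10)))), (.s k101 k117 3 (.s k79 k112 6 (.s k64 k74 2 (.s k192 k128 7 (.s k213 k234 6 (.s k149 k21
  7 (.d k106 k127 k63 6 14)))))))] (.c k101 (.f k207 k138 10 (.q k154 [(.d k223 k239 k16 3 10), (.s
  k218 k26 7 (.s k240 k229 6 (.s k165 k15 14 (.d k245 k250 k5 2 11))))] (.c k32 (.l (.s k239 k223 3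
  (.s k218 k26 7 (.s k240 k229 6 (.s k165 k15 14 (.d k245 k250 k5 2 11)))))) (.c k239 (.q k32 [(.d
  k16 k48 k223 3 10), (.s k218 k26 7 (.s k240 k229 6 (.s k245 k250 2 (.d k165 k5 k15 11 14))))] .n)
  .n)))) (.c k117 (.l (.s k207 k138 10 (.s k223 k239 3 (.s k154 k16 10 (.s k218 k26 7 (.s k240 k229
  6 (.s k165 k15 14 (.d k245 k250 k5 2 11)))))))) .n))) (.c k160 (.l (.s k95 k80 2 (.s k15 k175 11
  (.s k165 k240 14 (.d k5 k10 k245 2 11))))) (.c k165 (.f k80 k95 2 (.q k208 [(.s k16 k144 7 (.s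
  k149 k31 10 (.s k213 k21 7 (.d k223 k218 k154 2 10)))), (.s k16 k144 7 (.s k48 k32 3 (.s k117 k186
  10 (.s k101 k69 3 (.s k112 k79 6 (.d k240 k160 k176 11 7)))))), (.s k149 k31 10 (.s k21 k213 7 (.s
  k63 k42 6 (.s k106 k192 14 (.d k127 k64 k191 6 7)))))] (.c k160 (.q k175 [(.s k16 k144 7 (.s k149
  k31 10 (.s k213 k21 7 (.d k223 k218 k154 2 10)))), (.s k149 k31 10 (.s k21 k213 7 (.s k63 k42 6
  (.s k106 k192 14 (.d k127 k64 k191 6 7))))), (.s k16 k144 7 (.s k48 k32 3 (.s k117 k186 10 (.s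
  k101 k69 3 (.d k154 k223 k207 10 14)))))] (.c k223 (.l (.s k144 k16 7 (.s k149 k31 10 (.s k159
  k154 2 (.s k21 k213 7 (.s k63 k42 6 (.d k191 k143 k127 3 7))))))) .n)) (.c k175 (.l (.s k160 k240
  11 (.s k16 k144 7 (.s k31 k149 10 (.s k26 k21 2 (.d k154 k218 k223 7 10)))))) .n)))) (.c k175 (.l
  (.s k80 k95 2 (.s k240 k160 11 (.s k165 k15 14 (.d k245 k250 k5 2 11))))) (.c k240 (.q k252 [(.s
  k84 k168 13 (.s k86 k87 0 (.s k253 k254 0 (.d k169 k1 k3 13 14)))), (.s k95 k80 2 (.s k15 k175 11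
  (.s k94 k173 12 (.s k93 k92 0 (.s k174 k12 12 (.d k254 k253 k14 0 11)))))), (.s k95 k80 2 (.s k15
  k175 11 (.s k94 k173 12 (.s k86 k82 1 (.d k84 k87 k168 0 13)))))] (.c k84 (.l (.s k95 k80 2 (.s
  k15 k175 11 (.s k94 k173 12 (.s k86 k82 1 (.s k253 k254 0 (.d k169 k3 k1 14 13))))))) .n)) (.c
  k245 (.q k3 [(.s k1 k2 0 (.s k87 k171 13 (.s k86 k84 0 (.d k169 k253 k252 13 14)))), (.s k2 k1 0
  (.s k80 k95 2 (.s k240 k160 11 (.s k82 k161 12 (.s k81 k83 0 (.d k162 k242 k243 11 12)))))), (.s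
  k80 k95 2 (.s k240 k160 11 (.s k82 k161 12 (.s k86 k94 1 (.d k87 k84 k171 0 13)))))] (.c k87 (.l
  (.s k1 k2 0 (.s k80 k95 2 (.s k169 k253 13 (.s k86 k252 14 (.s k82 k94 1 (.d k240 k160 k161 11
  12))))))) .n)) .n)))))))))))

def t11_249 : T TT 256 :=
  (.f k255 k170 14 (.q k106 [(.s k64 k127 6 (.s k192 k128 7 (.s k149 k63 14 (.d k213 k234 k21 6
  7))))] (.c k21 (.q k1 [(.s k3 k2 0 (.s k87 k171 13 (.s k86 k84 0 (.d k169 k253 k252 13 14)))), (.s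
  k64 k127 6 (.s k169 k253 13 (.s k192 k128 7 (.s k149 k63 14 (.s k129 k189 5 (.s k65 k193 7 (.d k66
  k67 k3 0 8))))))), (.s k3 k2 0 (.s k64 k127 6 (.s k192 k128 7 (.s k66 k129 8 (.s k86 k126 5 (.d
  k87 k84 k171 0 13))))))] (.c k3 (.l (.s k64 k127 6 (.s k192 k128 7 (.s k213 k234 6 (.s k253 k169
  13 (.s k193 k233 5 (.s k65 k129 7 (.d k195 k130 k194 8 0)))))))) .n)) (.c k63 (.q k1 [(.s k3 k2 0
  (.s k87 k171 13 (.s k86 k84 0 (.d k169 k253 k252 13 14)))), (.s k64 k127 6 (.s k192 k128 7 (.s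
  k213 k234 6 (.s k253 k169 13 (.s k193 k233 5 (.s k65 k129 7 (.d k195 k130 k194 8 0))))))), (.s k3
  k2 0 (.s k64 k127 6 (.s k192 k128 7 (.s k66 k129 8 (.s k86 k126 5 (.d k87 k84 k171 0 13))))))] (.c
  k171 (.l (.s k3 k2 0 (.s k64 k127 6 (.s k169 k253 13 (.s k86 k252 14 (.s k192 k128 7 (.d k66 k126
  k129 5 8))))))) .n)) (.c k64 (.q k60 [(.s k20 k40 5 (.s k125 k190 8 (.s k150 k215 8 (.d k105 k65
  k195 5 14)))), (.s k20 k40 5 (.s k150 k215 8 (.s k62 k194 13 (.s k63 k61 0 (.s k21 k42 6 (.d k149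
  k213 k192 7 14)))))), (.s k125 k190 8 (.s k105 k65 5 (.s k104 k107 0 (.s k192 k148 13 (.s k149 k63
  14 (.d k213 k234 k21 6 7))))))] (.c k105 (.q k87 [(.s k3 k171 13 (.s k1 k2 0 (.s k86 k84 0 (.d
  k169 k253 k252 13 14)))), (.s k86 k84 0 (.s k126 k66 5 (.s k190 k125 8 (.s k62 k254 7 (.s k150
  k194 13 (.d k20 k40 k215 5 8)))))), (.s k3 k171 13 (.s k2 k1 0 (.s k22 k41 6 (.s k42 k62 5 (.s k21
  k63 6 (.d k20 k40 k23 5 0))))))] (.c k2 (.l (.s k3 k171 13 (.s k22 k41 6 (.s k86 k84 0 (.s k150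
  k214 7 (.d k20 k40 k215 5 8)))))) (.c k40 (.q k235 [(.s k3 k171 13 (.s k1 k2 0 (.s k86 k84 0 (.d
  k169 k253 k252 13 14)))), (.s k86 k84 0 (.s k126 k66 5 (.s k190 k125 8 (.s k62 k254 7 (.s k150
  k194 13 (.d k215 k195 k20 5 8)))))), (.s k3 k171 13 (.s k22 k41 6 (.s k215 k195 5 (.s k20 k150 8
  (.d k23 k21 k151 0 7)))))] .n) (.c k235 (.l (.s k40 k20 5 (.s k3 k171 13 (.s k1 k2 0 (.s k86 k84 0
  (.d k169 k253 k252 13 14)))))) .n)))) (.c k150 (.q k149 [(.s k21 k213 7 (.d k63 k42 k192 6 14)),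
  (.s k63 k192 14 (.s k61 k62 0 (.s k105 k193 13 (.d k125 k190 k65 8 5))))] (.c k63 (.l (.s k213 k21
  7 (.s k192 k234 6 (.s k104 k148 13 (.s k105 k107 0 (.d k125 k65 k190 5 8)))))) (.c k130 (.l (.s
  k190 k125 8 (.s k21 k213 7 (.d k63 k42 k192 6 14)))) (.c k190 (.q k130 [(.s k21 k213 7 (.d k63 k42
  k192 6 14)), (.s k63 k192 14 (.s k61 k62 0 (.s k65 k195 8 (.d k105 k193 k125 13 5))))] (.c k63 (.l
  (.s k65 k195 8 (.s k105 k125 5 (.s k213 k21 7 (.s k192 k234 6 (.d k104 k107 k148 0 13)))))) (.c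
  k192 (.l (.s k21 k213 7 (.s k63 k42 6 (.s k61 k62 0 (.s k65 k195 8 (.d k105 k193 k125 13 5))))))
  .n))) (.c k192 (.l (.s k21 k213 7 (.s k63 k42 6 (.s k61 k62 0 (.s k105 k193 13 (.d k125 k65 k190 5
  8)))))) .n))))) .n))) (.c k127 (.q k195 [(.s k65 k130 8 (.s k215 k235 5 (.s k150 k20 8 (.d k105
  k125 k60 5 14)))), (.s k65 k130 8 (.s k105 k125 5 (.s k107 k104 0 (.s k63 k151 13 (.s k21 k42 6
  (.d k149 k213 k192 7 14)))))), (.s k215 k235 5 (.s k150 k20 8 (.s k194 k62 13 (.s k192 k193 0 (.s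
  k149 k63 14 (.d k213 k234 k21 6 7))))))] (.c k105 (.q k81 [(.s k89 k93 1 (.s k243 k162 12 (.s k166
  k12 14 (.d k247 k251 k4 1 12)))), (.s k65 k130 8 (.s k97 k113 3 (.s k48 k146 12 (.s k32 k16 3 (.d
  k162 k227 k243 8 12)))))] (.c k40 (.l (.s k235 k215 5 (.s k89 k93 1 (.s k243 k162 12 (.s k166 k12
  14 (.d k247 k251 k4 1 12)))))) (.c k162 (.l (.s k65 k130 8 (.s k89 k93 1 (.s k97 k113 3 (.s k146
  k48 12 (.s k211 k16 8 (.s k150 k28 10 (.d k215 k20 k235 8 5)))))))) (.c k235 (.q k40 [(.s k89 k93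
  1 (.s k243 k162 12 (.s k166 k12 14 (.d k247 k251 k4 1 12)))), (.s k20 k60 5 (.s k150 k215 8 (.s
  k194 k62 13 (.s k192 k193 0 (.s k213 k234 6 (.d k149 k63 k21 14 7))))))] .n) (.c k243 (.l (.s k65
  k130 8 (.s k93 k89 1 (.s k12 k174 12 (.s k8 k4 1 (.s k73 k134 10 (.s k69 k77 1 (.d k138 k203 k207
  8 10)))))))) .n))))) (.c k150 (.q k199 [(.s k207 k203 1 (.s k69 k138 10 (.s k101 k117 3 (.s k154
  k48 14 (.d k223 k239 k16 3 10))))), (.s k215 k235 5 (.s k247 k231 3 (.s k4 k166 12 (.s k12 k8 1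
  (.d k134 k69 k73 8 10))))), (.s k207 k203 1 (.s k215 k235 5 (.s k223 k239 3 (.s k219 k211 1 (.d
  k231 k247 k243 3 5))))), (.s k207 k203 1 (.s k69 k138 10 (.s k4 k134 8 (.s k215 k235 5 (.d k247
  k166 k231 12 3)))))] (.c k130 (.q k190 [(.s k207 k203 1 (.s k69 k138 10 (.s k101 k117 3 (.s k154
  k48 14 (.d k223 k239 k16 3 10))))), (.s k215 k235 5 (.s k247 k231 3 (.s k4 k166 12 (.s k12 k8 1
  (.d k134 k69 k73 8 10))))), (.s k207 k203 1 (.s k215 k235 5 (.s k223 k239 3 (.s k219 k211 1 (.d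
  k231 k247 k243 3 5))))), (.s k125 k60 8 (.s k65 k105 5 (.s k207 k203 1 (.s k69 k138 10 (.s k73 k77
  1 (.d k134 k4 k12 8 10))))))] .n) (.c k190 (.l (.s k130 k65 8 (.s k207 k203 1 (.s k69 k138 10 (.s
  k4 k134 8 (.s k215 k235 5 (.d k247 k166 k231 12 3))))))) .n))) .n))) (.c k128 (.l (.s k127 k64 6
  (.s k63 k191 7 (.s k149 k192 14 (.d k21 k42 k213 6 7))))) (.c k149 (.f k64 k127 6 (.q k101 [(.s
  k96 k111 2 (.s k69 k117 3 (.s k112 k80 3 (.d k79 k74 k90 2 6)))), (.s k69 k117 3 (.s k207 k138 10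
  (.s k154 k48 14 (.d k223 k239 k16 3 10)))), (.s k96 k111 2 (.s k117 k69 3 (.s k48 k186 10 (.d k192
  k128 k144 7 11))))] (.c k69 (.l (.s k96 k111 2 (.s k80 k112 3 (.s k160 k240 11 (.s k32 k224 7 (.s
  k48 k16 3 (.d k192 k128 k144 7 11))))))) (.c k117 (.l (.s k96 k111 2 (.s k112 k80 3 (.s k79 k90 6
  (.s k69 k74 2 (.s k207 k138 10 (.s k154 k48 14 (.d k223 k239 k16 3 10)))))))) (.c k128 (.q k191
  [(.s k117 k69 3 (.s k48 k186 10 (.s k16 k32 3 (.d k154 k223 k207 10 14)))), (.s k96 k111 2 (.s k80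
  k112 3 (.s k240 k160 11 (.s k245 k250 2 (.s k165 k5 11 (.d k90 k95 k15 2 14))))))] (.c k117 (.l
  (.s k96 k111 2 (.s k112 k80 3 (.s k79 k90 6 (.s k69 k74 2 (.s k207 k138 10 (.s k154 k48 14 (.d
  k223 k239 k16 3 10)))))))) .n)) (.c k191 (.l (.s k128 k192 7 (.s k69 k117 3 (.s k79 k74 2 (.s k96
  k111 2 (.d k112 k80 k90 3 6)))))) .n)))))) (.c k191 (.l (.s k64 k127 6 (.s k192 k128 7 (.s k149
  k63 14 (.d k213 k234 k21 6 7))))) (.c k192 (.q k1 [(.s k3 k2 0 (.s k87 k171 13 (.s k86 k84 0 (.d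
  k169 k253 k252 13 14)))), (.s k127 k64 6 (.s k63 k191 7 (.s k21 k42 6 (.s k61 k41 5 (.s k253 k169
  13 (.s k125 k189 7 (.d k60 k190 k62 8 0))))))), (.s k3 k2 0 (.s k127 k64 6 (.s k63 k191 7 (.s k21
  k42 6 (.s k23 k43 5 (.s k22 k20 0 (.d k41 k61 k60 5 6)))))))] .n) (.c k213 (.q k1 [(.s k3 k2 0 (.s
  k87 k171 13 (.s k86 k84 0 (.d k169 k253 k252 13 14)))), (.s k64 k127 6 (.s k169 k253 13 (.s k192
  k128 7 (.s k149 k63 14 (.s k129 k189 5 (.s k66 k3 8 (.d k65 k193 k67 7 0))))))), (.s k3 k2 0 (.s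
  k64 k127 6 (.s k192 k128 7 (.s k66 k129 8 (.s k86 k126 5 (.d k87 k84 k171 0 13))))))] (.c k3 (.l
  (.s k127 k64 6 (.s k63 k191 7 (.s k21 k42 6 (.s k61 k41 5 (.s k60 k62 0 (.s k125 k190 8 (.d k253
  k189 k169 7 13)))))))) .n)) (.c k234 (.l (.s k127 k64 6 (.s k63 k191 7 (.s k21 k42 6 (.d k149 k213
  k192 7 14))))) .n))))))))))))

def t11_250 : T TT 256 :=
  (.q k86 [(.s k84 k87 0 (.s k252 k168 13 (.s k169 k3 14 (.s k253 k1 13 (.d k255 k254 k170 0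
  14))))), (.s k87 k84 0 (.s k255 k170 14 (.s k3 k171 13 (.s k169 k252 14 (.d k1 k2 k253 0 13)))))]
  (.c k1 (.q k4 [(.s k84 k87 0 (.s k166 k247 12 (.s k6 k246 11 (.s k244 k164 11 (.d k7 k5 k165 0
  12))))), (.s k12 k8 1 (.s k166 k247 12 (.s k89 k243 14 (.s k93 k81 1 (.d k255 k174 k170 12
  14))))), (.s k12 k8 1 (.s k84 k87 0 (.s k164 k244 11 (.s k88 k240 13 (.s k92 k80 1 (.d k252 k172
  k168 11 13))))))] .n) (.c k3 (.q k7 [(.s k87 k84 0 (.s k244 k165 12 (.s k247 k167 11 (.s k166 k4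
  12 (.d k246 k245 k6 0 11))))), (.s k165 k244 12 (.s k170 k255 14 (.s k160 k175 2 (.s k240 k80 11
  (.s k15 k90 14 (.d k5 k245 k10 11 2)))))), (.s k87 k84 0 (.s k247 k167 11 (.s k255 k170 14 (.s
  k243 k251 1 (.s k81 k162 12 (.s k89 k93 1 (.d k166 k4 k12 12 14)))))))] (.c k87 (.l (.s k165 k244
  12 (.s k5 k245 11 (.s k6 k4 0 (.s k10 k15 2 (.s k2 k14 1 (.d k170 k255 k254 14 13))))))) .n)) (.c
  k84 (.q k12 [(.s k4 k8 1 (.s k166 k247 12 (.s k89 k243 14 (.s k93 k81 1 (.d k255 k174 k170 12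
  14))))), (.s k4 k8 1 (.s k166 k247 12 (.s k6 k246 11 (.s k5 k7 0 (.s k3 k9 2 (.s k10 k15 2 (.d k2
  k1 k14 0 1))))))), (.s k255 k170 14 (.s k93 k174 12 (.s k89 k81 1 (.s k92 k83 2 (.s k252 k172 11
  (.s k169 k3 14 (.d k253 k254 k1 0 13)))))))] (.c k10 (.l (.s k8 k4 1 (.s k170 k255 14 (.s k89 k251
  12 (.s k81 k93 1 (.d k243 k162 k166 12 14)))))) (.c k166 (.l (.s k4 k8 1 (.s k170 k255 14 (.s k2
  k254 13 (.s k3 k1 0 (.s k6 k9 2 (.s k10 k14 1 (.d k5 k7 k15 0 2)))))))) .n))) (.c k87 (.q k12 [(.s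
  k4 k8 1 (.s k166 k247 12 (.s k89 k243 14 (.s k93 k81 1 (.d k255 k174 k170 12 14))))), (.s k4 k8 1
  (.s k170 k255 14 (.s k2 k254 13 (.s k3 k1 0 (.s k6 k9 2 (.s k10 k14 1 (.d k5 k7 k15 0 2))))))),
  (.s k8 k4 1 (.s k170 k255 14 (.s k89 k251 12 (.s k81 k93 1 (.d k243 k162 k166 12 14))))), (.s k255
  k170 14 (.s k93 k174 12 (.s k89 k81 1 (.s k92 k83 2 (.s k252 k172 11 (.s k169 k3 14 (.d k253 k254
  k1 0 13)))))))] (.c k170 (.l (.s k4 k8 1 (.s k166 k247 12 (.s k6 k246 11 (.s k89 k243 14 (.s k92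
  k83 2 (.s k252 k172 11 (.d k3 k9 k169 2 14)))))))) (.c k255 (.l (.s k4 k8 1 (.s k166 k247 12 (.s
  k243 k89 14 (.s k246 k6 11 (.s k252 k249 2 (.s k172 k92 11 (.d k169 k163 k3 2 14)))))))) .n))) (.c
  k168 (.l (.s k87 k84 0 (.s k255 k170 14 (.s k3 k171 13 (.s k169 k252 14 (.d k1 k2 k253 0 13))))))
  (.c k169 (.q k90 [(.s k80 k95 2 (.s k82 k94 1 (.s k83 k81 0 (.s k84 k87 0 (.d k92 k88 k89 1
  2))))), (.s k95 k80 2 (.s k255 k170 14 (.s k15 k175 11 (.s k5 k10 2 (.d k165 k245 k240 11 14))))),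
  (.s k84 k87 0 (.s k94 k82 1 (.s k252 k168 13 (.s k15 k173 12 (.s k5 k10 2 (.d k165 k245 k240 11
  14))))))] .n) (.c k170 (.q k90 [(.s k80 k95 2 (.s k82 k94 1 (.s k83 k81 0 (.s k84 k87 0 (.d k92
  k88 k89 1 2))))), (.s k84 k87 0 (.s k94 k82 1 (.s k252 k168 13 (.s k15 k173 12 (.s k5 k10 2 (.d
  k165 k245 k240 11 14)))))), (.s k80 k95 2 (.s k84 k87 0 (.s k240 k160 11 (.s k165 k15 14 (.s k252
  k168 13 (.d k244 k7 k248 12 1)))))), (.s k80 k95 2 (.s k82 k94 1 (.s k240 k160 11 (.s k3 k161 12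
  (.s k1 k2 0 (.d k169 k253 k252 13 14))))))] .n) (.c k171 (.l (.s k84 k87 0 (.s k252 k168 13 (.s k3
  k169 14 (.s k170 k255 14 (.d k2 k1 k254 0 13)))))) (.c k252 (.q k7 [(.s k84 k87 0 (.s k244 k165 12
  (.s k4 k164 11 (.s k6 k5 0 (.d k166 k246 k247 11 12))))), (.s k165 k244 12 (.s k170 k255 14 (.s
  k160 k175 2 (.s k240 k80 11 (.s k15 k90 14 (.d k5 k245 k10 11 2)))))), (.s k87 k84 0 (.s k247 k167
  11 (.s k166 k4 12 (.s k255 k170 14 (.s k243 k251 1 (.s k81 k162 12 (.d k89 k93 k12 1 14)))))))]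
  (.c k244 (.l (.s k87 k84 0 (.s k247 k167 11 (.s k4 k166 12 (.s k6 k5 0 (.s k12 k8 1 (.s k255 k170
  14 (.d k3 k9 k171 2 13)))))))) .n)) (.c k253 (.l (.s k84 k87 0 (.s k170 k255 14 (.s k2 k254 13 (.s
  k252 k168 13 (.d k3 k1 k169 0 14)))))) (.c k255 (.q k240 [(.s k80 k160 11 (.s k84 k87 0 (.s k88
  k92 1 (.s k12 k164 13 (.s k8 k4 1 (.d k168 k248 k252 11 13)))))), (.s k80 k160 11 (.s k90 k95 2
  (.s k82 k94 1 (.s k3 k161 12 (.s k1 k2 0 (.d k169 k253 k252 13 14)))))), (.s k84 k87 0 (.s k252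
  k168 13 (.s k244 k248 1 (.s k165 k7 12 (.s k5 k245 11 (.d k15 k90 k10 14 2)))))), (.s k80 k160 11
  (.s k87 k84 0 (.s k95 k90 2 (.s k83 k91 1 (.s k81 k82 0 (.d k89 k93 k92 1 2))))))] .n)
  .n))))))))))))

def t11_251 : T TT 256 :=
  (.q k240 [(.s k80 k160 11 (.s k90 k95 2 (.s k15 k165 14 (.s k10 k5 2 (.d k170 k250 k255 11
  14)))))] (.c k5 (.f k170 k255 14 (.f k80 k160 11 (.f k90 k95 2 (.f k15 k165 14 (.q k91 [(.s k89
  k88 0 (.s k243 k167 13 (.d k81 k93 k162 1 12))), (.s k88 k89 0 (.s k84 k92 1 (.s k86 k87 0 (.s k94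
  k82 1 (.d k252 k173 k168 12 13))))), (.s k243 k167 13 (.s k162 k81 12 (.s k166 k174 1 (.d k242
  k241 k14 0 13))))] (.c k93 (.l (.s k89 k88 0 (.s k243 k167 13 (.s k162 k81 12 (.d k166 k174 k12 1
  14))))) (.c k243 (.q k247 [(.s k4 k166 12 (.s k12 k8 1 (.d k88 k89 k164 0 13))), (.s k10 k250 11
  (.s k166 k4 12 (.s k14 k242 13 (.s k174 k162 1 (.s k254 k94 11 (.d k2 k6 k86 1 13)))))), (.s k89
  k88 0 (.s k81 k93 1 (.s k82 k83 0 (.s k3 k161 12 (.s k2 k1 0 (.d k86 k94 k254 1 13))))))] .n) (.c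
  k247 (.l (.s k243 k167 13 (.s k81 k162 12 (.d k89 k88 k93 0 1)))) .n)))))))) (.c k10 (.l (.s k80
  k160 11 (.s k90 k95 2 (.s k165 k15 14 (.s k245 k5 11 (.d k255 k250 k170 2 14)))))) (.c k15 (.f k80
  k160 11 (.q k3 [(.s k2 k1 0 (.s k82 k161 12 (.s k81 k83 0 (.d k162 k242 k243 11 12)))), (.s k1 k2
  0 (.s k169 k253 13 (.s k86 k252 14 (.s k87 k84 0 (.d k255 k171 k170 13 14))))), (.s k82 k161 12
  (.s k90 k95 2 (.s k86 k94 1 (.s k84 k87 0 (.d k252 k168 k169 13 14)))))] (.c k91 (.q k171 [(.d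
  k255 k87 k170 13 14), (.s k1 k2 0 (.s k169 k253 13 (.s k168 k170 0 (.d k252 k86 k84 14 13))))] (.c
  k167 (.q k243 [(.d k255 k87 k170 13 14), (.s k81 k162 12 (.d k82 k161 k83 12 0))] .n) (.c k170 (.l
  (.s k1 k2 0 (.s k87 k255 13 (.s k86 k84 0 (.d k169 k253 k252 13 14))))) (.c k243 (.q k167 [(.d
  k255 k87 k170 13 14)] (.c k87 (.l (.s k1 k2 0 (.s k169 k253 13 (.d k170 k168 k255 0 14)))) (.c
  k170 (.l (.s k1 k2 0 (.s k169 k253 13 (.s k86 k252 14 (.d k87 k255 k84 13 0))))) (.c k247 (.l (.d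
  k255 k87 k170 13 14)) (.c k255 (.q k247 [(.s k1 k2 0 (.s k87 k7 11 (.s k86 k84 0 (.d k169 k253
  k252 13 14)))), (.s k4 k166 12 (.s k7 k87 11 (.s k6 k5 0 (.d k12 k8 k9 1 2)))), (.s k1 k2 0 (.s
  k166 k4 12 (.s k169 k253 13 (.d k163 k175 k172 1 2))))] (.c k95 (.l (.s k175 k163 1 (.s k1 k2 0
  (.s k87 k7 11 (.s k86 k84 0 (.d k169 k253 k252 13 14)))))) (.c k175 (.l (.s k95 k90 2 (.s k1 k2 0
  (.s k87 k7 11 (.s k86 k84 0 (.d k169 k253 k252 13 14)))))) .n))) .n))))) .n)))) (.c k171 (.q k91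
  [(.s k95 k90 2 (.s k83 k87 1 (.d k82 k81 k161 0 12))), (.s k2 k1 0 (.s k82 k161 12 (.s k81 k83 0
  (.d k162 k242 k243 11 12)))), (.s k1 k2 0 (.s k95 k90 2 (.s k87 k83 1 (.s k86 k84 0 (.d k169 k253
  k252 13 14)))))] (.c k83 (.l (.s k1 k2 0 (.s k82 k161 12 (.s k90 k95 2 (.s k86 k94 1 (.d k169 k252
  k253 14 13)))))) .n)) .n)))) (.c k80 (.f k255 k170 14 (.q k89 [(.s k93 k81 1 (.s k12 k174 12 (.s
  k166 k243 14 (.d k4 k8 k247 1 12)))), (.s k81 k93 1 (.s k245 k250 2 (.s k165 k5 11 (.s k241 k13 13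
  (.s k1 k161 11 (.d k253 k249 k169 1 13)))))), (.s k245 k250 2 (.s k165 k5 11 (.s k90 k15 14 (.s
  k241 k13 13 (.s k243 k242 0 (.s k12 k166 14 (.d k88 k91 k164 0 13)))))))] (.c k91 (.q k171 [(.s k3
  k87 13 (.s k81 k93 1 (.s k161 k82 12 (.d k1 k2 k241 0 11)))), (.s k93 k81 1 (.s k12 k174 12 (.s k4
  k8 1 (.d k166 k247 k243 12 14)))), (.s k3 k87 13 (.s k1 k2 0 (.s k169 k253 13 (.s k9 k249 11 (.s
  k5 k13 1 (.d k245 k250 k165 2 11))))))] (.c k83 (.l (.s k81 k93 1 (.s k243 k162 12 (.s k241 k242 0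
  (.s k1 k161 11 (.d k3 k2 k87 0 13)))))) (.c k93 (.l (.s k3 k87 13 (.s k1 k2 0 (.s k161 k82 12 (.s
  k169 k253 13 (.s k245 k250 2 (.d k165 k173 k5 1 11))))))) .n))) (.c k171 (.q k91 [(.s k88 k90 0
  (.s k12 k164 13 (.d k93 k81 k174 1 12))), (.s k90 k88 0 (.s k165 k15 14 (.d k245 k250 k5 2 11))),
  (.s k93 k81 1 (.s k12 k174 12 (.s k4 k8 1 (.d k166 k247 k243 12 14))))] (.c k168 (.q k169 [(.s k88
  k90 0 (.s k12 k164 13 (.d k93 k81 k174 1 12))), (.s k249 k9 11 (.s k253 k1 13 (.d k245 k241 k250 1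
  2))), (.s k93 k81 1 (.s k12 k174 12 (.d k88 k90 k164 0 13)))] .n) (.c k169 (.q k168 [(.s k88 k90 0
  (.s k248 k8 11 (.d k252 k244 k84 1 13))), (.s k93 k81 1 (.s k12 k174 12 (.d k88 k90 k164 0 13)))]
  (.c k88 (.l (.s k93 k81 1 (.s k12 k174 12 (.s k4 k8 1 (.d k166 k247 k243 12 14))))) (.c k90 (.q
  k248 [(.d k252 k244 k84 1 13), (.s k88 k8 11 (.s k12 k164 13 (.d k93 k81 k174 1 12)))] (.c k10 (.l
  (.s k250 k245 2 (.d k252 k244 k84 1 13))) (.c k250 (.q k10 [(.d k252 k244 k84 1 13), (.s k15 k5 2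
  (.s k81 k93 1 (.d k243 k162 k167 12 13)))] .n) .n))) (.c k248 (.l (.s k90 k88 0 (.s k165 k15 14
  (.d k245 k250 k5 2 11)))) .n)))) .n))) .n)))) (.c k90 (.q k169 [(.s k1 k253 13 (.s k3 k2 0 (.s k86
  k252 14 (.s k87 k84 0 (.d k255 k171 k170 13 14))))), (.s k160 k80 11 (.s k170 k255 14 (.s k165
  k175 2 (.s k161 k173 1 (.s k163 k162 0 (.s k172 k166 2 (.d k168 k171 k164 0 1))))))), (.s k1 k253
  13 (.s k3 k2 0 (.s k160 k80 11 (.s k161 k82 12 (.s k81 k241 11 (.d k162 k163 k243 0 12))))))] (.c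
  k91 (.q k171 [(.d k170 k168 k255 0 14), (.s k1 k253 13 (.s k3 k2 0 (.s k86 k252 14 (.d k87 k255
  k84 13 0))))] (.c k88 (.q k89 [(.d k170 k168 k255 0 14), (.s k1 k253 13 (.s k3 k2 0 (.s k81 k93 1
  (.d k161 k241 k82 11 12))))] .n) (.c k89 (.q k88 [(.d k170 k168 k255 0 14)] (.c k8 (.l (.d k170
  k168 k255 0 14)) (.c k168 (.l (.s k1 k253 13 (.s k3 k2 0 (.d k255 k87 k170 13 14)))) (.c k170 (.q
  k8 [(.d k12 k4 k164 1 13), (.s k80 k160 11 (.s k84 k92 1 (.d k168 k248 k252 11 13)))] (.c k10 (.q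
  k250 [(.d k12 k4 k164 1 13), (.s k1 k253 13 (.s k3 k2 0 (.d k255 k245 k87 2 13)))] .n) (.c k250
  (.q k10 [(.d k12 k4 k164 1 13), (.s k80 k160 11 (.s k84 k92 1 (.d k168 k248 k252 11 13)))] (.c
  k248 (.q k249 [(.d k12 k4 k164 1 13), (.s k5 k15 2 (.s k245 k165 11 (.d k253 k241 k1 1 13)))] .n)
  (.c k249 (.l (.s k248 k168 11 (.d k12 k4 k164 1 13))) .n))) .n))) (.c k255 (.l (.s k12 k164 13 (.s
  k8 k4 1 (.d k168 k170 k248 0 11)))) .n))))) (.c k255 (.l (.s k1 k253 13 (.s k3 k2 0 (.s k168 k170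
  0 (.d k252 k86 k84 14 13))))) .n)))) (.c k171 (.q k91 [(.s k253 k1 13 (.s k255 k170 14 (.s k252
  k254 0 (.s k84 k168 13 (.d k86 k87 k3 0 14))))), (.s k1 k253 13 (.s k3 k2 0 (.s k160 k80 11 (.s
  k161 k82 12 (.s k81 k241 11 (.d k162 k163 k243 0 12))))))] (.c k1 (.q k3 [(.s k160 k80 11 (.s k161
  k82 12 (.s k165 k173 1 (.d k170 k175 k255 2 14)))), (.s k86 k252 14 (.s k87 k84 0 (.s k83 k95 1
  (.s k89 k92 2 (.s k243 k163 11 (.d k81 k93 k162 1 12)))))), (.s k161 k82 12 (.s k165 k173 1 (.s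
  k245 k5 11 (.d k255 k250 k170 2 14)))), (.s k160 k80 11 (.s k170 k255 14 (.s k165 k175 2 (.d k161
  k173 k82 1 12))))] .n) (.c k2 (.l (.s k253 k1 13 (.s k255 k170 14 (.s k252 k254 0 (.s k86 k3 14
  (.d k84 k87 k168 0 13)))))) (.c k3 (.f k80 k160 11 (.l (.s k253 k1 13 (.s k255 k170 14 (.s k252
  k254 0 (.s k84 k168 13 (.s k88 k92 1 (.s k164 k12 13 (.d k244 k248 k4 1 11))))))))) (.c k86 (.l
  (.s k1 k253 13 (.s k3 k2 0 (.s k160 k80 11 (.s k170 k255 14 (.s k165 k175 2 (.d k161 k173 k82 1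
  12))))))) (.c k253 (.l (.s k160 k80 11 (.s k170 k255 14 (.s k165 k175 2 (.s k161 k173 1 (.s k3 k82
  12 (.s k2 k1 0 (.d k86 k254 k252 13 14)))))))) .n)))))) .n))) (.c k91 (.q k171 [(.s k80 k160 11
  (.s k90 k95 2 (.s k15 k165 14 (.s k10 k5 2 (.d k170 k250 k255 11 14))))), (.s k80 k160 11 (.s k170
  k255 14 (.s k168 k169 0 (.s k84 k252 13 (.s k88 k92 1 (.s k12 k164 13 (.d k8 k248 k4 11 1))))))),
  (.s k255 k170 14 (.s k3 k87 13 (.s k1 k2 0 (.s k161 k82 12 (.s k169 k253 13 (.s k165 k173 1 (.d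
  k245 k250 k5 2 11)))))))] (.c k170 (.q k89 [(.s k80 k160 11 (.s k81 k93 1 (.s k82 k83 0 (.s k3
  k161 12 (.s k2 k1 0 (.d k162 k242 k243 11 12)))))), (.s k81 k93 1 (.s k243 k162 12 (.s k241 k242 0
  (.s k165 k13 13 (.s k5 k245 11 (.d k15 k10 k90 2 14)))))), (.s k80 k160 11 (.s k93 k81 1 (.s k95
  k90 2 (.s k92 k94 0 (.s k84 k88 1 (.d k86 k87 k83 0 2))))))] (.c k81 (.q k1 [(.s k3 k2 0 (.s k169
  k253 13 (.s k86 k252 14 (.d k87 k255 k84 13 0)))), (.s k169 k253 13 (.s k9 k249 11 (.s k5 k13 1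
  (.s k15 k10 2 (.d k165 k245 k90 11 14))))), (.s k80 k160 11 (.s k90 k95 2 (.s k165 k15 14 (.s k5
  k245 11 (.d k13 k9 k241 1 13)))))] .n) (.c k82 (.l (.s k80 k160 11 (.s k81 k93 1 (.s k90 k95 2 (.s
  k165 k15 14 (.s k241 k13 13 (.d k243 k242 k162 0 12))))))) (.c k93 (.q k1 [(.s k3 k2 0 (.s k169
  k253 13 (.s k86 k252 14 (.d k87 k255 k84 13 0)))), (.s k80 k160 11 (.s k90 k95 2 (.s k165 k15 14
  (.s k5 k245 11 (.d k13 k9 k241 1 13))))), (.s k3 k2 0 (.s k160 k80 11 (.s k161 k82 12 (.s k81 k241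
  11 (.d k162 k163 k243 0 12)))))] (.c k3 (.l (.s k80 k160 11 (.s k90 k95 2 (.s k169 k253 13 (.s k9
  k249 11 (.s k13 k5 1 (.d k165 k241 k15 13 14))))))) .n)) (.c k165 (.l (.s k81 k93 1 (.s k160 k80
  11 (.s k162 k243 12 (.s k161 k163 0 (.s k1 k241 11 (.d k3 k2 k82 0 12))))))) .n))))) (.c k255 (.q
  k243 [(.s k160 k80 11 (.s k242 k241 0 (.s k162 k81 12 (.s k82 k2 11 (.d k161 k163 k3 0 12))))),
  (.s k80 k160 11 (.s k90 k95 2 (.s k242 k241 0 (.s k166 k14 13 (.s k4 k247 12 (.d k12 k8 k89 1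
  14)))))), (.s k81 k162 12 (.s k89 k93 1 (.s k241 k242 0 (.s k165 k13 13 (.s k5 k245 11 (.d k15 k10
  k90 2 14)))))), (.s k80 k160 11 (.s k81 k162 12 (.s k89 k93 1 (.s k12 k166 14 (.s k88 k164 13 (.s
  k92 k84 1 (.d k83 k82 k86 0 2)))))))] .n) .n))) (.c k95 (.l (.s k160 k80 11 (.s k170 k255 14 (.s
  k165 k175 2 (.s k15 k90 14 (.d k5 k10 k245 2 11)))))) (.c k160 (.q k51 [(.s k17 k34 4 (.s k153
  k221 9 (.s k102 k204 14 (.s k119 k68 4 (.d k255 k187 k170 9 14))))), (.s k17 k34 4 (.s k153 k221 9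
  (.s k177 k114 8 (.s k165 k141 5 (.s k5 k245 11 (.d k15 k10 k90 2 14)))))), (.s k114 k177 8 (.s
  k255 k170 14 (.s k119 k187 9 (.s k102 k68 4 (.s k90 k78 5 (.s k95 k80 2 (.d k15 k175 k165 11
  14)))))))] (.c k91 (.q k171 [(.s k17 k34 4 (.s k153 k221 9 (.s k102 k204 14 (.s k119 k68 4 (.d
  k255 k187 k170 9 14))))), (.s k255 k170 14 (.s k3 k87 13 (.s k35 k19 3 (.s k103 k239 9 (.s k155
  k207 13 (.d k187 k139 k119 3 9)))))), (.s k17 k34 4 (.s k153 k221 9 (.s k177 k114 8 (.s k165 k141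
  5 (.s k5 k245 11 (.d k15 k10 k90 2 14))))))] .n) (.c k153 (.l (.s k34 k17 4 (.s k114 k177 8 (.s
  k170 k255 14 (.s k102 k238 9 (.s k90 k78 5 (.s k10 k250 11 (.d k15 k165 k5 14 2)))))))) (.c k171
  (.q k91 [(.s k17 k34 4 (.s k153 k221 9 (.s k102 k204 14 (.s k119 k68 4 (.d k255 k187 k170 9
  14))))), (.s k17 k34 4 (.s k153 k221 9 (.s k177 k114 8 (.s k165 k141 5 (.s k5 k245 11 (.d k15 k10
  k90 2 14)))))), (.s k114 k177 8 (.s k255 k170 14 (.s k119 k187 9 (.s k102 k68 4 (.s k90 k78 5 (.s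
  k95 k80 2 (.d k15 k175 k165 11 14)))))))] (.c k153 (.l (.s k34 k17 4 (.s k114 k177 8 (.s k170 k255
  14 (.s k102 k238 9 (.s k90 k78 5 (.s k10 k250 11 (.d k15 k165 k5 14 2)))))))) .n)) .n)))) (.c k165
  (.f k160 k80 11 (.q k252 [(.s k168 k84 13 (.s k164 k172 1 (.s k88 k12 13 (.d k248 k244 k8 1
  11)))), (.s k84 k168 13 (.s k86 k87 0 (.s k169 k3 14 (.s k253 k1 13 (.d k255 k254 k170 0 14))))),
  (.s k244 k248 1 (.s k255 k170 14 (.s k253 k254 0 (.s k245 k250 2 (.s k249 k241 1 (.d k246 k247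
  k243 0 2))))))] (.c k91 (.q k171 [(.s k168 k84 13 (.d k170 k169 k255 0 14)), (.s k255 k170 14 (.s
  k3 k87 13 (.s k1 k2 0 (.d k169 k86 k253 14 13)))), (.s k168 k84 13 (.s k164 k172 1 (.s k88 k12 13
  (.d k248 k244 k8 1 11))))] .n) (.c k171 (.q k91 [(.s k168 k84 13 (.s k164 k172 1 (.s k88 k12 13
  (.d k248 k244 k8 1 11)))), (.s k84 k168 13 (.s k86 k87 0 (.s k3 k169 14 (.s k170 k255 14 (.d k2 k1
  k254 0 13)))))] (.c k84 (.l (.s k244 k248 1 (.s k255 k170 14 (.s k253 k254 0 (.s k245 k250 2 (.s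
  k249 k241 1 (.d k246 k247 k243 0 2))))))) (.c k168 (.q k3 [(.s k1 k2 0 (.d k169 k253 k86 13 14)),
  (.s k161 k82 12 (.s k163 k162 0 (.s k83 k243 11 (.s k87 k95 1 (.d k86 k169 k84 14 0)))))] (.c k2
  (.l (.s k169 k86 14 (.s k253 k1 13 (.d k255 k254 k170 0 14)))) (.c k86 (.l (.s k1 k2 0 (.s k161
  k82 12 (.s k81 k241 11 (.d k162 k163 k243 0 12))))) (.c k169 (.l (.s k170 k255 14 (.s k1 k2 0 (.s
  k161 k82 12 (.s k81 k241 11 (.d k162 k243 k163 12 0)))))) (.c k170 (.l (.s k169 k86 14 (.d k1 k2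
  k253 0 13))) .n))))) (.c k248 (.l (.s k84 k168 13 (.s k86 k87 0 (.s k169 k3 14 (.s k255 k170 14
  (.d k253 k254 k1 0 13)))))) .n)))) .n)))) (.c k170 (.q k89 [(.s k80 k160 11 (.s k81 k93 1 (.s k83
  k82 0 (.s k86 k92 2 (.s k87 k84 0 (.d k95 k91 k90 1 2)))))), (.s k81 k93 1 (.s k243 k162 12 (.s
  k241 k242 0 (.s k165 k13 13 (.s k5 k245 11 (.d k15 k10 k90 2 14)))))), (.s k80 k160 11 (.s k90 k95
  2 (.s k165 k15 14 (.s k241 k13 13 (.s k243 k242 0 (.s k12 k166 14 (.d k88 k91 k164 0 13))))))),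
  (.s k81 k93 1 (.s k160 k80 11 (.s k162 k243 12 (.s k161 k163 0 (.s k1 k241 11 (.d k3 k2 k82 0
  12))))))] (.c k91 (.q k171 [(.s k80 k160 11 (.s k81 k93 1 (.s k82 k83 0 (.s k3 k161 12 (.s k2 k1 0
  (.d k162 k242 k243 11 12)))))), (.s k81 k93 1 (.s k243 k162 12 (.s k241 k242 0 (.s k165 k13 13 (.s
  k5 k245 11 (.d k15 k10 k90 2 14)))))), (.s k80 k160 11 (.s k93 k81 1 (.s k95 k90 2 (.s k92 k94 0
  (.s k84 k88 1 (.d k86 k87 k83 0 2))))))] (.c k81 (.q k1 [(.s k3 k2 0 (.s k169 k253 13 (.s k86 k252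
  14 (.d k87 k255 k84 13 0)))), (.s k169 k253 13 (.s k9 k249 11 (.s k5 k13 1 (.s k15 k10 2 (.d k165
  k245 k90 11 14))))), (.s k80 k160 11 (.s k90 k95 2 (.s k165 k15 14 (.s k5 k245 11 (.d k13 k9 k241
  1 13)))))] .n) (.c k82 (.l (.s k80 k160 11 (.s k81 k93 1 (.s k90 k95 2 (.s k165 k15 14 (.s k241
  k13 13 (.d k243 k242 k162 0 12))))))) (.c k93 (.q k1 [(.s k3 k2 0 (.s k169 k253 13 (.s k86 k252 14
  (.d k87 k255 k84 13 0)))), (.s k80 k160 11 (.s k90 k95 2 (.s k165 k15 14 (.s k5 k245 11 (.d k13 k9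
  k241 1 13))))), (.s k3 k2 0 (.s k160 k80 11 (.s k161 k82 12 (.s k81 k241 11 (.d k162 k163 k243 0
  12)))))] (.c k3 (.l (.s k80 k160 11 (.s k90 k95 2 (.s k169 k253 13 (.s k9 k249 11 (.s k13 k5 1 (.d
  k165 k241 k15 13 14))))))) .n)) (.c k165 (.l (.s k81 k93 1 (.s k160 k80 11 (.s k162 k243 12 (.s
  k161 k163 0 (.s k1 k241 11 (.d k3 k2 k82 0 12))))))) .n))))) (.c k171 (.q k91 [(.s k90 k88 0 (.d
  k80 k95 k160 2 11)), (.s k81 k93 1 (.s k88 k90 0 (.s k12 k164 13 (.d k243 k162 k166 12 14)))), (.s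
  k80 k160 11 (.s k81 k93 1 (.s k83 k82 0 (.s k86 k92 2 (.d k87 k95 k84 1 0)))))] (.c k168 (.q k169
  [(.s k90 k88 0 (.d k80 k95 k160 2 11)), (.s k1 k253 13 (.s k3 k2 0 (.s k81 k93 1 (.d k161 k241 k82
  11 12))))] .n) (.c k169 (.q k168 [(.s k90 k88 0 (.d k80 k95 k160 2 11)), (.s k88 k90 0 (.s k248 k8
  11 (.d k252 k244 k84 1 13)))] (.c k88 (.l (.s k80 k160 11 (.s k81 k93 1 (.s k83 k82 0 (.d k95 k87
  k90 1 2))))) (.c k90 (.q k248 [(.d k252 k244 k84 1 13), (.s k88 k8 11 (.s k160 k80 11 (.d k164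
  k172 k12 1 13)))] (.c k10 (.q k250 [(.d k252 k244 k84 1 13), (.s k160 k80 11 (.s k164 k172 1 (.d
  k88 k8 k12 11 13)))] (.c k8 (.q k9 [(.d k252 k244 k84 1 13), (.s k81 k93 1 (.s k160 k80 11 (.s
  k164 k172 1 (.s k243 k162 12 (.d k12 k166 k88 14 13)))))] .n) (.c k9 (.l (.s k8 k88 11 (.d k252
  k244 k84 1 13))) .n))) (.c k250 (.q k10 [(.d k252 k244 k84 1 13), (.s k15 k5 2 (.s k81 k93 1 (.d
  k243 k162 k167 12 13)))] .n) .n))) (.c k248 (.l (.s k90 k88 0 (.d k80 k95 k160 2 11))) .n))))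
  .n))) .n))) (.c k171 (.q k91 [(.s k80 k160 11 (.s k90 k95 2 (.s k15 k165 14 (.s k10 k5 2 (.d k170
  k250 k255 11 14))))), (.s k80 k160 11 (.s k90 k95 2 (.s k88 k89 0 (.s k12 k164 13 (.s k8 k4 1 (.s
  k84 k92 1 (.d k168 k248 k252 11 13)))))))] (.c k80 (.q k5 [(.s k165 k245 11 (.d k15 k10 k90 2
  14)), (.s k245 k165 11 (.d k255 k250 k170 2 14)), (.s k15 k10 2 (.s k243 k167 13 (.s k81 k162 12
  (.s k89 k93 1 (.s k88 k90 0 (.d k12 k164 k166 13 14))))))] .n) (.c k90 (.f k160 k80 11 (.q k169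
  [(.s k253 k1 13 (.s k255 k170 14 (.s k252 k254 0 (.s k84 k168 13 (.d k86 k87 k3 0 14))))), (.s k1
  k253 13 (.s k3 k2 0 (.s k161 k82 12 (.s k81 k241 11 (.d k162 k163 k243 0 12)))))] (.c k1 (.q k3
  [(.s k161 k82 12 (.s k165 k173 1 (.d k170 k175 k255 2 14))), (.s k252 k86 14 (.s k168 k84 13 (.s
  k164 k172 1 (.s k88 k12 13 (.d k248 k244 k8 1 11))))), (.s k170 k255 14 (.s k165 k175 2 (.d k161
  k173 k82 1 12)))] (.c k82 (.l (.s k86 k252 14 (.s k87 k84 0 (.s k83 k95 1 (.s k243 k163 11 (.s k81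
  k162 12 (.d k89 k92 k93 2 1))))))) .n)) (.c k2 (.l (.s k253 k1 13 (.s k255 k170 14 (.s k252 k254 0
  (.s k86 k3 14 (.d k84 k87 k168 0 13)))))) (.c k3 (.l (.s k253 k1 13 (.s k255 k170 14 (.s k252 k254
  0 (.s k168 k84 13 (.s k164 k172 1 (.s k88 k12 13 (.d k248 k8 k244 11 1)))))))) (.c k86 (.l (.s k1
  k253 13 (.s k3 k2 0 (.s k170 k255 14 (.s k165 k175 2 (.d k161 k173 k82 1 12)))))) (.c k253 (.l (.s
  k170 k255 14 (.s k165 k175 2 (.s k161 k173 1 (.s k3 k82 12 (.s k2 k1 0 (.d k86 k254 k252 13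
  14))))))) .n))))))) (.c k95 (.l (.s k160 k80 11 (.s k170 k255 14 (.s k165 k175 2 (.s k15 k90 14
  (.d k5 k10 k245 2 11)))))) (.c k160 (.q k5 [(.s k165 k245 11 (.d k15 k10 k90 2 14)), (.s k245 k165
  11 (.d k255 k170 k250 14 2)), (.s k15 k10 2 (.s k243 k167 13 (.s k81 k162 12 (.s k89 k93 1 (.s k88
  k90 0 (.d k12 k164 k166 13 14))))))] .n) (.c k170 (.l (.s k80 k160 11 (.s k90 k95 2 (.s k89 k88 0
  (.s k81 k93 1 (.s k243 k162 12 (.d k15 k165 k167 14 13))))))) .n)))))) (.c k175 (.l (.s k80 k160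
  11 (.s k90 k95 2 (.s k15 k165 14 (.s k170 k255 14 (.d k10 k5 k250 2 11)))))) (.c k250 (.l (.s k160
  k80 11 (.s k170 k255 14 (.s k165 k175 2 (.s k5 k245 11 (.d k15 k10 k90 2 14)))))) (.c k255 (.f k80
  k160 11 (.q k243 [(.s k81 k162 12 (.s k82 k83 0 (.s k241 k242 0 (.d k161 k1 k3 11 12)))), (.s k90
  k95 2 (.s k242 k241 0 (.s k166 k14 13 (.s k4 k247 12 (.d k12 k8 k89 1 14))))), (.s k81 k162 12 (.s
  k89 k93 1 (.s k12 k166 14 (.s k88 k164 13 (.d k90 k91 k95 0 2)))))] (.c k91 (.q k171 [(.s k81 k162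
  12 (.s k241 k242 0 (.s k161 k1 11 (.d k82 k83 k3 0 12)))), (.s k90 k95 2 (.s k242 k241 0 (.s k166
  k14 13 (.s k4 k247 12 (.d k12 k8 k89 1 14))))), (.s k81 k162 12 (.s k89 k93 1 (.s k12 k166 14 (.s
  k88 k164 13 (.s k92 k84 1 (.d k83 k82 k86 0 2))))))] (.c k83 (.l (.s k81 k162 12 (.s k89 k93 1 (.s
  k241 k242 0 (.s k165 k13 13 (.d k90 k95 k15 2 14)))))) .n)) (.c k171 (.q k91 [(.s k90 k95 2 (.d
  k15 k167 k165 13 14)), (.s k81 k162 12 (.s k82 k83 0 (.s k241 k242 0 (.d k161 k3 k1 12 11))))] (.c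
  k3 (.q k87 [(.d k95 k83 k90 1 2), (.s k15 k167 13 (.s k5 k10 2 (.d k165 k245 k90 11 14)))] (.c k7
  (.l (.s k15 k167 13 (.d k90 k95 k165 2 14))) (.c k15 (.q k7 [(.d k95 k83 k90 1 2)] (.c k83 (.l (.s
  k81 k162 12 (.s k89 k93 1 (.d k90 k88 k95 0 2)))) (.c k90 (.l (.s k81 k162 12 (.d k83 k82 k95 0
  1))) (.c k95 (.q k175 [(.s k81 k162 12 (.s k247 k167 11 (.s k166 k4 12 (.d k89 k93 k12 1 14)))),
  (.s k84 k86 0 (.s k88 k92 1 (.s k12 k164 13 (.d k89 k90 k166 0 14)))), (.s k81 k162 12 (.s k83 k82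
  0 (.s k86 k84 0 (.d k89 k93 k92 1 2)))), (.s k84 k86 0 (.s k247 k167 11 (.s k4 k166 12 (.s k164
  k244 11 (.d k12 k8 k88 1 13)))))] .n) (.c k175 (.l (.d k95 k83 k90 1 2)) .n))))) (.c k90 (.l (.s
  k81 k162 12 (.d k83 k82 k95 0 1))) .n)))) (.c k87 (.q k3 [(.s k81 k162 12 (.d k82 k161 k83 12 0)),
  (.s k90 k95 2 (.d k15 k167 k165 13 14))] .n) .n))) .n)))) .n)))))))))))))))

def t11_252 : T TT 256 :=
  (.f k255 k170 14 (.q k102 [(.s k68 k119 4 (.s k204 k136 9 (.s k221 k238 4 (.d k153 k17 k51 9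
  14))))] (.c k17 (.q k4 [(.s k12 k8 1 (.s k93 k174 12 (.s k166 k247 12 (.d k89 k81 k243 1 14)))),
  (.s k68 k119 4 (.s k166 k247 12 (.s k38 k230 7 (.s k55 k21 4 (.d k196 k132 k149 7 12))))), (.s k12
  k8 1 (.s k68 k119 4 (.s k132 k196 7 (.s k72 k192 9 (.s k76 k64 1 (.d k204 k140 k136 7 9))))))] .n)
  (.c k51 (.f k68 k119 4 (.q k69 [(.s k71 k70 0 (.s k101 k117 3 (.s k100 k103 0 (.d k116 k84 k86 3
  4)))), (.s k207 k138 10 (.s k223 k239 3 (.s k154 k16 10 (.d k101 k117 k48 3 14)))), (.s k70 k71 0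
  (.s k138 k207 10 (.s k2 k206 9 (.s k3 k1 0 (.d k204 k136 k137 9 10)))))] (.c k118 (.q k185 [(.s
  k207 k138 10 (.s k223 k239 3 (.s k154 k16 10 (.d k101 k117 k48 3 14)))), (.s k71 k70 0 (.s k101
  k117 3 (.s k116 k86 4 (.d k100 k103 k84 0 3))))] (.c k101 (.l (.s k70 k71 0 (.s k138 k207 10 (.s
  k2 k206 9 (.s k3 k1 0 (.d k204 k136 k137 9 10)))))) (.c k116 (.l (.s k117 k101 3 (.s k71 k70 0 (.s
  k207 k138 10 (.s k3 k139 9 (.s k253 k49 9 (.d k1 k2 k169 0 13))))))) (.c k117 (.q k116 [(.s k71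
  k70 0 (.s k84 k100 3 (.d k86 k87 k101 0 4))), (.s k100 k84 3 (.s k204 k136 9 (.s k48 k152 13 (.s
  k207 k138 10 (.d k101 k154 k103 14 0))))), (.s k70 k71 0 (.s k138 k207 10 (.s k2 k206 9 (.s k3 k1
  0 (.d k204 k136 k137 9 10)))))] .n) .n)))) (.c k185 (.q k118 [(.d k70 k71 k86 0 3), (.s k101 k117
  3 (.s k207 k138 10 (.s k154 k48 14 (.d k223 k239 k16 3 10))))] .n) (.c k207 (.l (.s k71 k70 0 (.s
  k101 k117 3 (.s k116 k86 4 (.d k100 k103 k84 0 3))))) .n))))) (.c k68 (.q k21 [(.s k63 k42 6 (.s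
  k127 k191 7 (.s k149 k213 7 (.d k106 k64 k192 6 14)))), (.s k149 k213 7 (.s k55 k196 12 (.s k4 k38
  4 (.s k12 k8 1 (.s k93 k174 12 (.s k89 k81 1 (.d k166 k247 k243 12 14)))))))] (.c k149 (.f k63 k42
  6 (.q k106 [(.d k127 k191 k64 7 6), (.s k110 k98 1 (.s k204 k157 12 (.s k153 k51 14 (.d k221 k238
  k17 4 9))))] (.c k128 (.l (.s k191 k127 7 (.s k110 k98 1 (.s k204 k157 12 (.s k153 k51 14 (.d k221
  k238 k17 4 9)))))) (.c k191 (.q k128 [(.d k64 k127 k192 6 7), (.s k110 k98 1 (.s k204 k157 12 (.s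
  k221 k238 4 (.d k153 k17 k51 9 14))))] .n) .n)))) (.c k213 (.l (.s k63 k42 6 (.s k127 k191 7 (.s
  k106 k64 6 (.s k110 k98 1 (.s k204 k157 12 (.s k153 k51 14 (.d k221 k238 k17 4 9)))))))) .n))) (.c
  k119 (.q k127 [(.s k63 k191 7 (.s k21 k42 6 (.s k106 k64 6 (.d k149 k213 k192 7 14)))), (.s k106
  k64 6 (.s k110 k98 1 (.s k93 k76 4 (.s k12 k174 12 (.s k4 k8 1 (.s k166 k247 12 (.d k89 k81 k243 1
  14)))))))] (.c k64 (.l (.s k63 k191 7 (.s k21 k42 6 (.s k149 k213 7 (.s k55 k196 12 (.s k51 k59 1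
  (.s k17 k34 4 (.d k153 k221 k204 9 14)))))))) (.c k106 (.f k63 k191 7 (.q k149 [(.d k21 k42 k213 6
  7), (.s k55 k196 12 (.s k51 k59 1 (.s k17 k34 4 (.d k153 k221 k204 9 14))))] (.c k42 (.q k234 [(.d
  k213 k192 k21 6 7), (.s k55 k196 12 (.s k51 k59 1 (.s k17 k34 4 (.d k153 k221 k204 9 14))))] .n)
  (.c k234 (.l (.s k42 k21 6 (.s k55 k196 12 (.s k51 k59 1 (.s k17 k34 4 (.d k153 k221 k204 9
  14)))))) .n)))) .n))) (.c k136 (.l (.s k119 k68 4 (.s k51 k187 9 (.s k153 k204 14 (.d k17 k34 k221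
  4 9))))) (.c k153 (.f k68 k119 4 (.q k4 [(.s k166 k247 12 (.s k38 k230 7 (.s k55 k21 4 (.d k196
  k132 k149 7 12)))), (.s k12 k8 1 (.s k93 k174 12 (.s k89 k81 1 (.s k76 k115 6 (.d k204 k136 k140 9
  7)))))] (.c k136 (.q k187 [(.s k166 k247 12 (.s k38 k230 7 (.s k55 k21 4 (.d k196 k132 k149 7
  12)))), (.s k12 k8 1 (.s k93 k174 12 (.s k89 k81 1 (.s k76 k115 6 (.s k127 k110 4 (.d k64 k72 k106
  1 6))))))] (.c k166 (.l (.s k12 k8 1 (.s k132 k196 7 (.s k72 k192 9 (.s k76 k64 1 (.s k89 k115 6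
  (.d k93 k81 k174 1 12))))))) .n)) (.c k166 (.l (.s k12 k8 1 (.s k132 k196 7 (.s k72 k192 9 (.s k76
  k64 1 (.d k204 k140 k136 7 9)))))) (.c k187 (.l (.s k136 k204 9 (.s k12 k8 1 (.s k93 k174 12 (.s
  k89 k81 1 (.d k166 k247 k243 12 14)))))) .n))))) (.c k187 (.l (.s k68 k119 4 (.s k204 k136 9 (.s
  k153 k51 14 (.d k221 k238 k17 4 9))))) (.c k204 (.f k68 k119 4 (.q k89 [(.s k76 k115 6 (.s k64 k72
  1 (.s k93 k81 1 (.d k127 k110 k106 4 6)))), (.s k81 k93 1 (.s k243 k162 12 (.s k247 k251 1 (.d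
  k166 k4 k12 12 14)))), (.s k76 k115 6 (.s k64 k72 1 (.s k192 k128 7 (.s k213 k234 6 (.s k149 k21 7
  (.d k106 k127 k63 6 14))))))] (.c k220 (.q k236 [(.s k76 k115 6 (.s k64 k72 1 (.s k93 k81 1 (.d
  k127 k110 k106 4 6)))), (.s k81 k93 1 (.s k243 k162 12 (.s k247 k251 1 (.d k166 k4 k12 12 14)))),
  (.s k76 k115 6 (.s k64 k72 1 (.s k192 k128 7 (.s k213 k234 6 (.s k149 k21 7 (.d k106 k127 k63 6
  14))))))] .n) (.c k236 (.q k220 [(.s k76 k115 6 (.s k64 k72 1 (.s k93 k81 1 (.d k127 k110 k106 4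
  6)))), (.s k81 k93 1 (.s k243 k162 12 (.s k247 k251 1 (.d k166 k4 k12 12 14)))), (.s k76 k115 6
  (.s k64 k72 1 (.s k192 k128 7 (.s k213 k234 6 (.s k149 k21 7 (.d k106 k127 k63 6 14))))))] .n)
  .n)))) (.c k221 (.q k4 [(.s k12 k8 1 (.s k93 k174 12 (.s k89 k81 1 (.d k166 k247 k243 12 14)))),
  (.s k68 k119 4 (.s k166 k247 12 (.s k38 k230 7 (.s k55 k21 4 (.d k196 k132 k149 7 12))))), (.s k12
  k8 1 (.s k68 k119 4 (.s k132 k196 7 (.s k72 k192 9 (.s k76 k64 1 (.d k204 k140 k136 7 9))))))] .n)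
  (.c k238 (.l (.s k119 k68 4 (.s k51 k187 9 (.s k17 k34 4 (.d k153 k221 k204 9 14)))))
  .n))))))))))))

def t11_253 : T TT 256 :=
  (.f k255 k170 14 (.q k106 [(.s k64 k127 6 (.s k192 k128 7 (.s k149 k63 14 (.d k213 k234 k21 6
  7))))] (.c k21 (.q k3 [(.s k64 k127 6 (.s k87 k171 13 (.s k86 k84 0 (.s k66 k126 5 (.d k192 k128
  k129 7 8))))), (.s k2 k1 0 (.s k64 k127 6 (.s k192 k128 7 (.s k66 k129 8 (.s k130 k194 7 (.d k65
  k67 k195 0 8)))))), (.s k87 k171 13 (.s k86 k84 0 (.s k66 k126 5 (.s k169 k252 14 (.s k43 k232 8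
  (.s k63 k23 5 (.d k192 k129 k149 8 14))))))), (.s k87 k171 13 (.s k86 k84 0 (.s k127 k64 6 (.s k63
  k191 7 (.s k23 k43 5 (.d k149 k212 k192 8 14))))))] (.c k192 (.l (.s k87 k171 13 (.s k86 k84 0 (.s
  k126 k66 5 (.s k127 k64 6 (.s k63 k191 7 (.d k252 k169 k189 14 8))))))) .n)) (.c k63 (.q k4 [(.s
  k12 k8 1 (.s k93 k174 12 (.s k89 k81 1 (.d k166 k247 k243 12 14)))), (.s k64 k127 6 (.s k192 k128
  7 (.s k213 k234 6 (.s k247 k166 12 (.s k196 k230 4 (.s k68 k132 7 (.d k204 k136 k200 9 1))))))),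
  (.s k12 k8 1 (.s k64 k127 6 (.s k192 k128 7 (.s k72 k132 9 (.s k89 k123 4 (.d k93 k81 k174 1
  12))))))] (.c k174 (.l (.s k12 k8 1 (.s k64 k127 6 (.s k166 k247 12 (.s k89 k243 14 (.s k192 k128
  7 (.d k72 k123 k132 4 9))))))) .n)) (.c k64 (.q k207 [(.s k69 k138 10 (.s k223 k239 3 (.s k154 k16
  10 (.d k101 k117 k48 3 14)))), (.s k69 k138 10 (.s k101 k117 3 (.s k111 k96 2 (.s k63 k159 11 (.s
  k21 k42 6 (.d k149 k213 k192 7 14)))))), (.s k223 k239 3 (.s k154 k16 10 (.s k202 k58 11 (.s k192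
  k197 2 (.s k149 k63 14 (.d k213 k234 k21 6 7))))))] (.c k101 (.q k80 [(.s k90 k95 2 (.s k240 k160
  11 (.s k245 k250 2 (.d k165 k5 k15 11 14)))), (.s k90 k95 2 (.s k74 k122 3 (.s k138 k69 10 (.s
  k202 k10 7 (.s k154 k58 11 (.d k223 k239 k16 3 10)))))), (.s k239 k223 3 (.s k240 k160 11 (.s k229
  k218 6 (.s k224 k234 2 (.s k165 k47 10 (.d k245 k250 k5 2 11))))))] (.c k32 (.l (.s k239 k223 3
  (.s k90 k95 2 (.s k240 k160 11 (.s k165 k15 14 (.d k245 k250 k5 2 11)))))) (.c k239 (.q k32 [(.s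
  k90 k95 2 (.s k240 k160 11 (.s k245 k250 2 (.d k165 k5 k15 11 14)))), (.s k16 k48 3 (.s k208 k144
  7 (.s k223 k154 10 (.s k218 k213 2 (.d k240 k229 k160 6 11))))), (.s k16 k48 3 (.s k90 k95 2 (.s
  k74 k122 3 (.s k138 k69 10 (.s k154 k223 10 (.d k202 k10 k58 7 11))))))] .n) (.c k250 (.l (.s k90
  k95 2 (.s k240 k160 11 (.s k218 k229 6 (.s k154 k26 7 (.d k223 k239 k16 3 10)))))) .n)))) (.c k154
  (.q k80 [(.s k90 k95 2 (.s k240 k160 11 (.s k245 k250 2 (.d k165 k5 k15 11 14)))), (.s k223 k239 3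
  (.s k240 k160 11 (.s k218 k229 6 (.s k213 k208 2 (.s k149 k21 7 (.d k192 k234 k63 6 14)))))), (.s
  k95 k90 2 (.s k223 k239 3 (.s k159 k31 7 (.s k63 k111 11 (.s k21 k42 6 (.d k149 k213 k192 7
  14))))))] (.c k138 (.q k186 [(.s k90 k95 2 (.s k240 k160 11 (.s k165 k15 14 (.d k245 k250 k5 2
  11)))), (.s k48 k117 10 (.s k16 k32 3 (.s k144 k208 7 (.s k192 k96 11 (.s k149 k63 14 (.d k213
  k234 k21 6 7))))))] (.c k160 (.l (.s k90 k95 2 (.s k117 k48 10 (.s k122 k74 3 (.s k112 k127 2 (.d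
  k101 k69 k79 3 6)))))) .n)) (.c k175 (.l (.s k90 k95 2 (.s k240 k160 11 (.s k165 k15 14 (.d k245
  k250 k5 2 11))))) (.c k186 (.l (.s k138 k69 10 (.s k90 k95 2 (.s k240 k160 11 (.s k165 k15 14 (.d
  k245 k250 k5 2 11)))))) .n)))) .n))) (.c k127 (.q k207 [(.s k69 k138 10 (.s k223 k239 3 (.s k154
  k16 10 (.d k101 k117 k48 3 14)))), (.s k69 k138 10 (.s k101 k117 3 (.s k111 k96 2 (.s k63 k159 11
  (.s k21 k42 6 (.d k149 k213 k192 7 14)))))), (.s k223 k239 3 (.s k154 k16 10 (.s k202 k58 11 (.s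
  k192 k197 2 (.s k149 k63 14 (.d k213 k234 k21 6 7))))))] (.c k101 (.q k80 [(.s k240 k160 11 (.s
  k245 k250 2 (.s k165 k5 11 (.d k90 k95 k15 2 14)))), (.s k90 k95 2 (.s k74 k122 3 (.s k138 k69 10
  (.s k202 k10 7 (.s k154 k58 11 (.d k223 k239 k16 3 10)))))), (.s k239 k223 3 (.s k240 k160 11 (.s
  k229 k218 6 (.s k224 k234 2 (.s k165 k47 10 (.d k245 k250 k5 2 11))))))] (.c k32 (.l (.s k239 k223
  3 (.s k90 k95 2 (.s k240 k160 11 (.s k165 k15 14 (.d k245 k250 k5 2 11)))))) (.c k239 (.q k32 [(.s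
  k240 k160 11 (.s k245 k250 2 (.s k165 k5 11 (.d k90 k95 k15 2 14)))), (.s k16 k48 3 (.s k208 k144
  7 (.s k223 k154 10 (.s k218 k213 2 (.d k240 k229 k160 6 11))))), (.s k16 k48 3 (.s k90 k95 2 (.s
  k74 k122 3 (.s k138 k69 10 (.s k154 k223 10 (.d k202 k10 k58 7 11))))))] .n) (.c k250 (.l (.s k90
  k95 2 (.s k240 k160 11 (.s k218 k229 6 (.s k154 k26 7 (.d k223 k239 k16 3 10)))))) .n)))) (.c k154
  (.q k159 [(.s k111 k63 11 (.s k101 k96 2 (.d k69 k138 k117 10 3))), (.s k63 k111 11 (.s k21 k42 6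
  (.d k149 k213 k192 7 14))), (.s k138 k69 10 (.s k223 k239 3 (.s k95 k31 7 (.s k90 k80 2 (.s k74
  k122 3 (.s k10 k202 7 (.d k15 k5 k175 2 11)))))))] (.c k138 (.q k186 [(.s k111 k63 11 (.s k101 k96
  2 (.d k117 k69 k48 3 10))), (.s k63 k111 11 (.s k21 k42 6 (.d k149 k213 k192 7 14))), (.s k117 k48
  10 (.s k101 k69 3 (.s k223 k239 3 (.s k95 k31 7 (.s k90 k80 2 (.s k79 k112 6 (.d k15 k143 k175 7
  11)))))))] .n) (.c k186 (.l (.s k138 k69 10 (.s k63 k111 11 (.s k21 k42 6 (.d k149 k213 k192 7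
  14))))) .n))) .n))) (.c k128 (.l (.s k127 k64 6 (.s k63 k191 7 (.s k149 k192 14 (.d k21 k42 k213 6
  7))))) (.c k149 (.f k64 k127 6 (.q k90 [(.s k74 k122 3 (.s k79 k69 2 (.s k80 k95 2 (.d k112 k96
  k101 3 6)))), (.s k80 k95 2 (.s k240 k160 11 (.s k165 k15 14 (.d k245 k250 k5 2 11))))] (.c k79
  (.l (.s k74 k122 3 (.s k95 k80 2 (.s k15 k175 11 (.d k192 k128 k133 7 10))))) (.c k80 (.l (.s k74
  k122 3 (.s k69 k79 2 (.s k138 k207 10 (.s k10 k202 7 (.s k15 k5 2 (.d k192 k128 k133 7 10)))))))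
  (.c k95 (.l (.s k74 k122 3 (.s k79 k69 2 (.s k112 k101 6 (.s k80 k96 3 (.s k240 k160 11 (.s k165
  k15 14 (.d k245 k250 k5 2 11)))))))) (.c k128 (.q k191 [(.s k74 k122 3 (.s k79 k69 2 (.s k80 k95 2
  (.d k112 k96 k101 3 6)))), (.s k95 k80 2 (.s k15 k175 11 (.s k5 k10 2 (.d k165 k245 k240 11
  14))))] (.c k80 (.l (.s k74 k122 3 (.s k69 k79 2 (.s k207 k138 10 (.s k223 k239 3 (.s k154 k16 10
  (.d k101 k117 k48 3 14))))))) (.c k95 (.l (.s k74 k122 3 (.s k79 k69 2 (.s k112 k101 6 (.s k80 k96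
  3 (.s k240 k160 11 (.s k165 k15 14 (.d k245 k250 k5 2 11)))))))) .n))) (.c k191 (.l (.s k128 k192
  7 (.s k74 k122 3 (.s k79 k69 2 (.s k80 k95 2 (.d k112 k96 k101 3 6)))))) .n))))))) (.c k191 (.l
  (.s k64 k127 6 (.s k192 k128 7 (.s k149 k63 14 (.d k213 k234 k21 6 7))))) (.c k192 (.q k4 [(.s k12
  k8 1 (.s k93 k174 12 (.s k89 k81 1 (.d k166 k247 k243 12 14)))), (.s k127 k64 6 (.s k63 k191 7 (.s
  k21 k42 6 (.s k55 k38 4 (.s k247 k166 12 (.s k119 k183 7 (.d k51 k187 k59 9 1))))))), (.s k12 k8 1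
  (.s k127 k64 6 (.s k63 k191 7 (.s k21 k42 6 (.s k29 k46 4 (.s k25 k17 1 (.d k38 k55 k51 4
  6)))))))] .n) (.c k213 (.f k64 k127 6 (.f k192 k128 7 (.f k149 k63 14 (.q k193 [(.s k105 k61 13
  (.s k195 k194 0 (.d k65 k125 k130 5 8))), (.s k195 k194 0 (.s k65 k130 8 (.s k66 k67 0 (.d k129 k1
  k3 7 8)))), (.s k105 k61 13 (.s k104 k107 0 (.s k60 k148 13 (.d k195 k194 k150 0 14)))), (.s k105
  k61 13 (.s k125 k65 5 (.s k60 k190 8 (.d k104 k107 k148 0 13))))] .n)))) (.c k234 (.l (.s k127 k64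
  6 (.s k63 k191 7 (.s k21 k42 6 (.d k149 k213 k192 7 14))))) .n))))))))))))

def t11_254 : T TT 256 :=
  (.q k89 [(.s k81 k93 1 (.s k243 k162 12 (.s k166 k12 14 (.s k247 k4 12 (.d k255 k251 k170 1
  14)))))] (.c k4 (.q k1 [(.s k3 k2 0 (.s k169 k253 13 (.s k86 k252 14 (.s k255 k170 14 (.d k87 k84
  k171 0 13))))), (.s k81 k93 1 (.s k241 k161 11 (.s k13 k165 13 (.s k9 k5 1 (.d k169 k249 k253 11
  13))))), (.s k3 k2 0 (.s k81 k93 1 (.s k161 k241 11 (.s k82 k240 12 (.s k83 k80 0 (.d k243 k163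
  k162 11 12))))))] .n) (.c k12 (.q k1 [(.s k3 k2 0 (.s k169 k253 13 (.s k86 k252 14 (.s k255 k170
  14 (.d k87 k84 k171 0 13))))), (.s k81 k93 1 (.s k241 k161 11 (.s k13 k165 13 (.s k9 k5 1 (.d k169
  k249 k253 11 13))))), (.s k3 k2 0 (.s k81 k93 1 (.s k161 k241 11 (.s k82 k240 12 (.s k83 k80 0 (.d
  k243 k163 k162 11 12))))))] (.c k255 (.l (.s k93 k81 1 (.s k253 k169 13 (.s k13 k173 11 (.s k5 k9
  1 (.d k165 k245 k241 11 13)))))) .n)) (.c k81 (.q k15 [(.s k5 k10 2 (.s k165 k245 11 (.s k90 k240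
  14 (.s k95 k80 2 (.d k255 k175 k170 11 14))))), (.s k5 k10 2 (.s k165 k245 11 (.s k13 k241 13 (.s
  k12 k14 0 (.s k166 k243 14 (.d k4 k8 k247 1 12)))))), (.s k170 k255 14 (.s k8 k251 12 (.s k12 k4 1
  (.s k13 k14 0 (.s k165 k241 13 (.s k160 k175 2 (.d k240 k80 k90 11 14)))))))] (.c k8 (.l (.s k10
  k5 2 (.s k170 k255 14 (.s k90 k250 11 (.s k80 k95 2 (.d k240 k160 k165 11 14)))))) (.c k165 (.l
  (.s k10 k5 2 (.s k170 k255 14 (.s k8 k251 12 (.s k12 k4 1 (.s k14 k13 0 (.s k90 k250 11 (.d k166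
  k242 k243 13 14)))))))) (.c k240 (.l (.s k5 k10 2 (.s k165 k245 11 (.s k13 k241 13 (.s k12 k14 0
  (.s k8 k4 1 (.d k170 k255 k251 14 12))))))) .n)))) (.c k93 (.q k15 [(.s k5 k10 2 (.s k165 k245 11
  (.s k90 k240 14 (.s k95 k80 2 (.d k255 k175 k170 11 14))))), (.s k5 k10 2 (.s k165 k245 11 (.s k13
  k241 13 (.s k12 k14 0 (.s k166 k243 14 (.d k4 k8 k247 1 12)))))), (.s k170 k255 14 (.s k8 k251 12
  (.s k12 k4 1 (.s k13 k14 0 (.s k165 k241 13 (.s k160 k175 2 (.d k240 k80 k90 11 14)))))))] (.c k8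
  (.l (.s k10 k5 2 (.s k170 k255 14 (.s k90 k250 11 (.s k80 k95 2 (.d k240 k160 k165 11 14)))))) (.c
  k165 (.l (.s k10 k5 2 (.s k170 k255 14 (.s k8 k251 12 (.s k12 k4 1 (.s k14 k13 0 (.s k90 k250 11
  (.d k166 k242 k243 13 14)))))))) (.c k240 (.l (.s k5 k10 2 (.s k165 k245 11 (.s k13 k241 13 (.s
  k12 k14 0 (.s k8 k4 1 (.d k170 k255 k251 14 12))))))) .n)))) (.c k162 (.l (.s k93 k81 1 (.s k255
  k170 14 (.s k12 k174 12 (.s k166 k243 14 (.d k4 k8 k247 1 12)))))) (.c k166 (.q k1 [(.s k3 k2 0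
  (.s k169 k253 13 (.s k86 k252 14 (.s k255 k170 14 (.d k87 k84 k171 0 13))))), (.s k81 k93 1 (.s
  k241 k161 11 (.s k13 k165 13 (.s k9 k5 1 (.d k169 k249 k253 11 13))))), (.s k3 k2 0 (.s k81 k93 1
  (.s k161 k241 11 (.s k82 k240 12 (.s k83 k80 0 (.d k243 k163 k162 11 12))))))] .n) (.c k170 (.q
  k86 [(.s k81 k93 1 (.s k83 k92 2 (.s k80 k82 0 (.s k87 k84 0 (.d k95 k91 k90 1 2))))), (.s k81 k93
  1 (.s k84 k87 0 (.s k243 k162 12 (.s k166 k12 14 (.s k246 k6 11 (.d k252 k249 k168 2 13)))))), (.s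
  k84 k87 0 (.s k92 k83 2 (.s k252 k168 13 (.s k12 k172 11 (.s k4 k8 1 (.d k166 k247 k243 12
  14)))))), (.s k81 k93 1 (.s k83 k92 2 (.s k243 k162 12 (.s k3 k163 11 (.s k1 k2 0 (.d k169 k253
  k252 13 14))))))] .n) (.c k174 (.l (.s k81 k93 1 (.s k243 k162 12 (.s k12 k166 14 (.s k170 k255 14
  (.d k8 k4 k251 1 12)))))) (.c k243 (.q k13 [(.s k81 k93 1 (.s k241 k165 13 (.s k1 k161 11 (.s k9
  k5 1 (.d k169 k249 k253 11 13))))), (.s k165 k241 13 (.s k245 k5 11 (.s k255 k170 14 (.s k240 k250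
  2 (.s k80 k160 11 (.d k90 k95 k15 2 14)))))), (.s k93 k81 1 (.s k173 k253 11 (.s k255 k170 14 (.s
  k12 k174 12 (.s k15 k14 0 (.s k94 k252 12 (.d k95 k92 k175 0 11)))))))] .n) (.c k247 (.l (.s k81
  k93 1 (.s k170 k255 14 (.s k8 k251 12 (.s k243 k162 12 (.d k12 k4 k166 1 14)))))) (.c k251 (.l (.s
  k93 k81 1 (.s k255 k170 14 (.s k12 k174 12 (.s k4 k8 1 (.d k166 k247 k243 12 14)))))) (.c k255 (.q
  k252 [(.s k81 k93 1 (.s k84 k168 13 (.s k86 k87 0 (.s k243 k162 12 (.s k246 k249 2 (.d k166 k12 k6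
  14 11)))))), (.s k84 k168 13 (.s k86 k87 0 (.s k92 k83 2 (.s k80 k88 1 (.s k93 k81 1 (.d k95 k94
  k90 0 2)))))), (.s k81 k93 1 (.s k243 k162 12 (.s k249 k246 2 (.s k169 k9 11 (.s k1 k253 13 (.d k3
  k2 k86 0 14)))))), (.s k84 k168 13 (.s k86 k87 0 (.s k92 k83 2 (.s k12 k172 11 (.s k4 k8 1 (.d
  k166 k247 k243 12 14))))))] (.c k3 (.l (.s k81 k93 1 (.s k84 k168 13 (.s k243 k162 12 (.s k12 k166
  14 (.s k92 k172 11 (.d k86 k87 k83 0 2))))))) (.c k86 (.f k81 k93 1 (.l (.s k84 k168 13 (.s k243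
  k162 12 (.s k12 k166 14 (.s k4 k8 1 (.s k92 k172 11 (.s k88 k80 1 (.d k164 k244 k240 11
  13))))))))) .n))) .n)))))))))))))

def t15_26 : T TT 256 :=
  (.q k48 [(.s k16 k32 3 (.s k154 k223 10 (.s k101 k207 14 (.s k117 k69 3 (.d k255 k186 k170 10
  14))))), (.s k16 k32 3 (.s k154 k223 10 (.s k170 k255 14 (.s k138 k186 3 (.d k207 k69 k101 10
  14)))))] (.c k16 (.q k21 [(.s k149 k213 7 (.s k170 k255 14 (.s k128 k191 6 (.s k192 k64 7 (.d k63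
  k42 k106 6 14))))), (.s k149 k213 7 (.s k255 k170 14 (.s k117 k186 10 (.s k101 k69 3 (.s k53 k197
  11 (.s k5 k37 3 (.d k245 k181 k165 7 11))))))), (.s k63 k42 6 (.s k58 k53 2 (.s k255 k170 14 (.s
  k186 k117 10 (.s k122 k250 7 (.s k181 k240 10 (.d k191 k176 k127 2 7)))))))] (.c k170 (.l (.s k63
  k42 6 (.s k58 k53 2 (.s k149 k213 7 (.s k106 k192 14 (.s k154 k202 11 (.s k159 k144 2 (.d k207
  k111 k101 11 14)))))))) (.c k255 (.l (.s k63 k42 6 (.s k149 k213 7 (.s k192 k106 14 (.s k144 k96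
  11 (.s k154 k159 2 (.s k101 k207 14 (.d k53 k58 k197 2 11)))))))) .n))) (.c k32 (.q k3 [(.s k1 k2
  0 (.s k169 k253 13 (.s k86 k252 14 (.s k87 k84 0 (.d k255 k171 k170 13 14))))), (.s k1 k2 0 (.s
  k33 k18 4 (.s k169 k253 13 (.s k101 k237 9 (.s k69 k117 3 (.d k207 k138 k154 10 14)))))), (.s k18
  k33 4 (.s k255 k170 14 (.s k87 k171 13 (.s k86 k84 0 (.s k117 k186 10 (.s k101 k69 3 (.d k154 k222
  k207 9 14)))))))] (.c k169 (.l (.s k2 k1 0 (.s k18 k33 4 (.s k170 k255 14 (.s k86 k254 13 (.s k154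
  k222 9 (.s k138 k186 3 (.d k207 k101 k69 14 10)))))))) .n)) (.c k69 (.q k1 [(.s k3 k2 0 (.s k169
  k253 13 (.s k86 k252 14 (.s k87 k84 0 (.d k255 k171 k170 13 14))))), (.s k3 k2 0 (.s k32 k16 3 (.s
  k33 k18 4 (.s k17 k49 3 (.d k34 k35 k51 0 4))))), (.s k253 k169 13 (.s k255 k170 14 (.s k117 k186
  10 (.s k49 k185 9 (.s k17 k33 3 (.d k51 k50 k34 0 4))))))] .n) (.c k101 (.q k1 [(.s k3 k2 0 (.s
  k169 k253 13 (.s k86 k252 14 (.s k87 k84 0 (.d k255 k171 k170 13 14))))), (.s k3 k2 0 (.s k32 k16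
  3 (.s k33 k18 4 (.s k17 k49 3 (.d k34 k35 k51 0 4))))), (.s k253 k169 13 (.s k255 k170 14 (.s k117
  k186 10 (.s k49 k185 9 (.s k51 k50 0 (.d k17 k33 k34 3 4))))))] .n) (.c k154 (.f k255 k170 14 (.f
  k186 k117 10 (.q k240 [(.s k176 k112 7 (.s k181 k191 2 (.s k250 k245 2 (.d k122 k58 k63 7 10)))),
  (.s k16 k32 3 (.s k80 k160 11 (.s k112 k176 7 (.s k96 k64 3 (.d k144 k208 k192 7 11))))), (.s k80
  k160 11 (.s k90 k95 2 (.s k250 k245 2 (.s k122 k58 7 (.s k106 k74 3 (.s k127 k64 6 (.d k63 k181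
  k191 10 7)))))))] (.c k90 (.q k218 [(.s k176 k112 7 (.s k181 k191 2 (.s k250 k245 2 (.d k122 k58
  k63 7 10)))), (.s k80 k160 11 (.s k207 k229 6 (.s k223 k239 3 (.s k208 k213 2 (.d k16 k32 k144 3
  7)))))] (.c k10 (.l (.s k250 k245 2 (.s k176 k112 7 (.s k181 k191 2 (.d k122 k58 k63 7 10))))) (.c
  k101 (.l (.s k250 k245 2 (.s k122 k58 7 (.s k181 k63 10 (.d k176 k191 k112 2 7))))) (.c k245 (.l
  (.s k16 k32 3 (.s k80 k160 11 (.s k112 k176 7 (.s k96 k64 3 (.d k144 k208 k192 7 11)))))) (.c k250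
  (.q k10 [(.s k32 k16 3 (.s k160 k80 11 (.s k96 k224 7 (.s k144 k192 11 (.d k176 k128 k112 3
  7))))), (.s k207 k229 6 (.s k138 k69 10 (.s k202 k74 7 (.s k192 k197 2 (.s k208 k224 3 (.d k213
  k234 k223 6 2)))))), (.s k160 k80 11 (.s k176 k112 7 (.s k191 k181 2 (.s k127 k63 7 (.s k64 k106 6
  (.d k128 k192 k144 7 3)))))), (.s k16 k32 3 (.s k80 k160 11 (.s k207 k229 6 (.s k208 k144 7 (.d
  k223 k239 k213 3 2)))))] .n) .n))))) (.c k218 (.q k90 [(.d k80 k95 k160 2 11), (.s k176 k112 7 (.s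
  k181 k191 2 (.s k122 k63 10 (.d k250 k245 k58 2 7))))] .n) .n))))) (.c k170 (.q k3 [(.s k2 k1 0
  (.s k16 k32 3 (.s k18 k33 4 (.s k17 k19 0 (.d k34 k50 k51 3 4))))), (.s k1 k2 0 (.s k16 k32 3 (.s
  k154 k223 10 (.s k169 k253 13 (.s k139 k184 4 (.d k207 k101 k71 14 9)))))), (.s k1 k2 0 (.s k33
  k18 4 (.s k169 k253 13 (.s k101 k237 9 (.s k69 k117 3 (.d k207 k138 k154 10 14)))))), (.s k16 k32
  3 (.s k18 k33 4 (.s k154 k223 10 (.s k86 k222 9 (.s k84 k87 0 (.d k252 k168 k169 13 14))))))] (.c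
  k101 (.l (.s k1 k2 0 (.s k32 k16 3 (.s k33 k18 4 (.s k17 k49 3 (.d k34 k35 k51 0 4)))))) .n)) (.c
  k186 (.l (.s k32 k16 3 (.s k170 k255 14 (.s k101 k239 10 (.s k69 k117 3 (.d k207 k138 k154 10
  14)))))) (.c k207 (.f k255 k170 14 (.f k32 k16 3 (.q k21 [(.s k63 k42 6 (.s k127 k191 7 (.s k106
  k64 6 (.d k149 k213 k192 7 14)))), (.s k117 k186 10 (.s k101 k69 3 (.s k149 k213 7 (.s k53 k197 11
  (.s k5 k37 3 (.d k245 k181 k165 7 11)))))), (.s k63 k42 6 (.s k58 k53 2 (.s k186 k117 10 (.s k122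
  k250 7 (.s k181 k240 10 (.d k191 k176 k127 2 7))))))] (.c k79 (.q k143 [(.s k63 k42 6 (.s k127
  k191 7 (.s k149 k213 7 (.d k106 k64 k192 6 14)))), (.s k117 k186 10 (.s k101 k69 3 (.s k149 k213 7
  (.s k53 k197 11 (.s k5 k37 3 (.d k245 k181 k165 7 11)))))), (.s k63 k42 6 (.s k58 k53 2 (.s k186
  k117 10 (.s k122 k250 7 (.s k181 k240 10 (.d k191 k176 k127 2 7))))))] .n) (.c k143 (.q k79 [(.s
  k63 k42 6 (.s k127 k191 7 (.s k106 k64 6 (.d k149 k213 k192 7 14)))), (.s k117 k186 10 (.s k69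
  k101 3 (.s k64 k74 2 (.s k192 k128 7 (.d k213 k149 k234 7 6))))), (.s k63 k42 6 (.s k117 k186 10
  (.s k101 k69 3 (.s k112 k90 6 (.d k127 k122 k191 2 7)))))] (.c k191 (.l (.s k63 k42 6 (.s k117
  k186 10 (.s k101 k69 3 (.s k149 k213 7 (.d k53 k58 k197 2 11)))))) (.c k234 (.l (.s k149 k213 7
  (.s k63 k42 6 (.s k106 k192 14 (.d k127 k64 k191 6 7))))) .n))) .n))))) (.c k223 (.l (.s k32 k16 3
  (.s k170 k255 14 (.s k101 k239 10 (.s k207 k154 14 (.d k69 k117 k138 3 10)))))) (.c k239 (.l (.s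
  k16 k32 3 (.s k154 k223 10 (.s k101 k207 14 (.s k255 k170 14 (.d k117 k69 k186 3 10)))))) (.c k255
  (.f k16 k32 3 (.q k149 [(.s k154 k223 10 (.s k159 k144 2 (.s k207 k101 14 (.s k63 k111 11 (.d k21
  k42 k213 6 7))))), (.s k154 k223 10 (.s k144 k159 2 (.s k80 k208 7 (.s k96 k192 11 (.s k112 k64 3
  (.d k240 k176 k160 7 11)))))), (.s k21 k213 7 (.s k63 k42 6 (.s k192 k106 14 (.s k128 k64 7 (.s
  k144 k96 11 (.s k160 k176 3 (.d k80 k208 k240 7 11))))))), (.s k21 k213 7 (.s k63 k42 6 (.s k58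
  k53 2 (.s k154 k223 10 (.d k106 k192 k202 14 11)))))] (.c k95 (.q k175 [(.s k21 k213 7 (.s k154
  k223 10 (.s k159 k144 2 (.s k207 k101 14 (.d k63 k42 k111 6 11))))), (.s k154 k223 10 (.s k159
  k144 2 (.s k191 k143 3 (.s k170 k128 6 (.s k138 k186 3 (.d k207 k69 k101 10 14)))))), (.s k21 k213
  7 (.s k63 k42 6 (.s k192 k106 14 (.s k128 k64 7 (.s k144 k96 11 (.s k80 k208 7 (.d k160 k176 k240
  3 11))))))), (.s k21 k213 7 (.s k63 k42 6 (.s k58 k53 2 (.s k154 k223 10 (.d k106 k192 k202 14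
  11)))))] (.c k223 (.l (.s k21 k213 7 (.s k63 k42 6 (.s k192 k106 14 (.s k128 k64 7 (.s k144 k96 11
  (.s k159 k154 2 (.d k191 k170 k143 6 3)))))))) .n)) (.c k175 (.q k95 [(.s k90 k80 2 (.s k31 k208
  10 (.d k223 k159 k154 7 10))), (.s k21 k213 7 (.s k63 k42 6 (.s k58 k53 2 (.s k154 k223 10 (.d
  k106 k192 k202 14 11))))), (.s k21 k213 7 (.s k63 k42 6 (.s k192 k106 14 (.s k144 k96 11 (.d k80
  k90 k208 2 7)))))] (.c k208 (.l (.s k21 k213 7 (.s k63 k42 6 (.s k192 k106 14 (.s k144 k96 11 (.d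
  k154 k223 k159 10 2)))))) .n)) (.c k213 (.l (.s k154 k223 10 (.s k144 k159 2 (.s k192 k96 11 (.s
  k64 k128 7 (.d k106 k127 k63 6 14)))))) .n))))) .n))))))))))))

def t15_27 : T TT 256 :=
  (.q k51 [(.s k17 k34 4 (.s k153 k221 9 (.s k102 k204 14 (.s k119 k68 4 (.d k255 k187 k170 9
  14))))), (.s k17 k34 4 (.s k153 k221 9 (.s k170 k255 14 (.s k136 k187 4 (.d k204 k68 k102 9
  14)))))] (.c k17 (.q k3 [(.s k1 k2 0 (.s k169 k253 13 (.s k86 k252 14 (.s k87 k84 0 (.d k255 k171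
  k170 13 14))))), (.s k1 k2 0 (.s k35 k19 3 (.s k169 k253 13 (.s k102 k236 10 (.s k68 k119 4 (.d
  k204 k136 k153 9 14)))))), (.s k35 k19 3 (.s k255 k170 14 (.s k171 k87 13 (.s k103 k239 9 (.s k155
  k207 13 (.d k187 k139 k119 3 9))))))] .n) (.c k34 (.q k3 [(.s k2 k1 0 (.s k170 k255 14 (.s k86
  k254 13 (.s k84 k87 0 (.d k252 k168 k169 13 14))))), (.s k35 k19 3 (.s k255 k170 14 (.s k171 k87
  13 (.s k103 k239 9 (.s k155 k207 13 (.d k187 k139 k119 3 9)))))), (.s k1 k2 0 (.s k35 k19 3 (.s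
  k169 k253 13 (.s k102 k236 10 (.s k68 k119 4 (.d k204 k136 k153 9 14))))))] .n) (.c k68 (.q k1
  [(.s k3 k2 0 (.s k17 k34 4 (.s k19 k35 3 (.s k18 k16 0 (.d k33 k49 k48 3 4))))), (.s k3 k2 0 (.s
  k169 k253 13 (.s k86 k252 14 (.s k87 k84 0 (.d k255 k171 k170 13 14))))), (.s k17 k34 4 (.s k49
  k33 3 (.s k153 k221 9 (.s k101 k205 13 (.s k117 k69 3 (.d k253 k185 k169 9 13))))))] .n) (.c k102
  (.q k1 [(.s k3 k2 0 (.s k169 k253 13 (.s k86 k252 14 (.s k87 k84 0 (.d k255 k171 k170 13 14))))),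
  (.s k17 k34 4 (.s k49 k33 3 (.s k153 k221 9 (.s k101 k205 13 (.s k117 k69 3 (.d k253 k185 k169 9
  13)))))), (.s k3 k2 0 (.s k17 k34 4 (.s k33 k49 3 (.s k18 k48 4 (.d k19 k16 k35 0 3)))))] (.c k170
  (.l (.s k3 k2 0 (.s k19 k35 3 (.s k169 k253 13 (.s k86 k252 14 (.s k153 k220 10 (.d k17 k34 k221 4
  9))))))) .n)) (.c k153 (.f k17 k34 4 (.q k63 [(.s k21 k42 6 (.s k25 k29 1 (.s k38 k12 6 (.d k55
  k59 k4 1 4)))), (.s k59 k55 1 (.s k255 k170 14 (.s k187 k119 9 (.s k123 k251 7 (.s k183 k243 9 (.d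
  k191 k179 k127 1 7)))))), (.s k21 k42 6 (.s k149 k213 7 (.s k106 k192 14 (.s k127 k64 6 (.d k255
  k191 k170 7 14)))))] (.c k90 (.q k216 [(.s k21 k42 6 (.s k25 k29 1 (.s k38 k12 6 (.d k55 k59 k4 1
  4)))), (.s k59 k55 1 (.s k255 k170 14 (.s k187 k119 9 (.s k123 k251 7 (.s k183 k243 9 (.d k191
  k179 k127 1 7)))))), (.s k21 k42 6 (.s k149 k213 7 (.s k106 k192 14 (.s k127 k64 6 (.d k255 k191
  k170 7 14)))))] (.c k165 (.q k240 [(.s k21 k42 6 (.s k25 k29 1 (.s k38 k12 6 (.d k55 k59 k4 1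
  4)))), (.s k55 k59 1 (.s k177 k114 8 (.s k181 k122 10 (.s k118 k244 8 (.d k185 k189 k252 1
  10))))), (.s k21 k42 6 (.s k149 k213 7 (.s k106 k192 14 (.s k127 k64 6 (.d k255 k191 k170 7
  14)))))] (.c k141 (.l (.s k177 k114 8 (.s k21 k42 6 (.s k25 k29 1 (.s k38 k12 6 (.d k55 k59 k4 1
  4)))))) (.c k177 (.q k141 [(.s k21 k42 6 (.s k25 k29 1 (.s k38 k12 6 (.d k55 k59 k4 1 4)))), (.s
  k59 k55 1 (.s k255 k170 14 (.s k187 k119 9 (.s k123 k251 7 (.s k183 k243 9 (.d k191 k179 k127 1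
  7)))))), (.s k21 k42 6 (.s k149 k213 7 (.s k106 k192 14 (.s k127 k64 6 (.d k255 k191 k170 7
  14)))))] .n) .n))) (.c k240 (.q k165 [(.s k21 k42 6 (.s k25 k29 1 (.s k38 k12 6 (.d k55 k59 k4 1
  4)))), (.s k59 k55 1 (.s k255 k170 14 (.s k187 k119 9 (.s k123 k251 7 (.s k183 k243 9 (.d k191
  k179 k127 1 7)))))), (.s k21 k42 6 (.s k149 k213 7 (.s k106 k192 14 (.s k127 k64 6 (.d k255 k191
  k170 7 14)))))] .n) .n))) (.c k216 (.q k90 [(.s k21 k42 6 (.s k25 k29 1 (.s k38 k12 6 (.d k55 k59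
  k4 1 4)))), (.s k59 k55 1 (.s k255 k170 14 (.s k187 k119 9 (.s k123 k251 7 (.s k183 k243 9 (.d
  k191 k179 k127 1 7)))))), (.s k21 k42 6 (.s k149 k213 7 (.s k106 k192 14 (.s k127 k64 6 (.d k255
  k191 k170 7 14)))))] .n) .n)))) (.c k170 (.q k1 [(.s k3 k2 0 (.s k17 k34 4 (.s k19 k35 3 (.s k18
  k16 0 (.d k33 k49 k48 3 4))))), (.s k3 k2 0 (.s k35 k19 3 (.s k169 k253 13 (.s k102 k236 10 (.s
  k68 k119 4 (.d k204 k136 k153 9 14)))))), (.s k17 k34 4 (.s k49 k33 3 (.s k153 k221 9 (.s k101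
  k205 13 (.s k117 k69 3 (.d k253 k185 k169 9 13))))))] (.c k35 (.l (.s k3 k2 0 (.s k17 k34 4 (.s
  k153 k221 9 (.s k169 k253 13 (.s k137 k185 3 (.d k204 k102 k70 14 10))))))) (.c k102 (.l (.s k3 k2
  0 (.s k19 k35 3 (.s k169 k253 13 (.s k86 k252 14 (.s k153 k220 10 (.d k17 k34 k221 4 9)))))))
  .n))) (.c k187 (.l (.s k34 k17 4 (.s k170 k255 14 (.s k102 k238 9 (.s k68 k119 4 (.d k204 k136
  k153 9 14)))))) (.c k204 (.f k255 k170 14 (.f k187 k119 9 (.f k34 k17 4 (.q k98 [(.s k145 k192 12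
  (.s k162 k226 7 (.s k243 k81 12 (.d k179 k128 k115 4 7)))), (.s k192 k145 12 (.s k213 k234 6 (.s
  k149 k21 7 (.s k106 k63 14 (.d k64 k127 k128 6 7))))), (.s k162 k226 7 (.s k243 k81 12 (.s k179
  k115 7 (.s k251 k247 1 (.s k123 k59 7 (.d k183 k191 k63 1 9))))))] (.c k78 (.q k141 [(.s k145 k192
  12 (.s k162 k226 7 (.s k243 k81 12 (.d k179 k128 k115 4 7)))), (.s k192 k145 12 (.s k213 k234 6
  (.s k149 k21 7 (.s k106 k63 14 (.d k64 k127 k128 6 7))))), (.s k162 k226 7 (.s k243 k81 12 (.s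
  k179 k115 7 (.s k251 k247 1 (.s k123 k59 7 (.d k183 k191 k63 1 9))))))] (.c k81 (.l (.s k145 k192
  12 (.s k162 k226 7 (.s k179 k128 4 (.s k243 k115 7 (.s k251 k247 1 (.s k123 k59 7 (.d k183 k191
  k63 1 9)))))))) (.c k145 (.l (.s k162 k226 7 (.s k81 k243 12 (.s k64 k115 4 (.s k192 k128 7 (.s
  k213 k234 6 (.s k149 k21 7 (.d k106 k127 k63 6 14)))))))) (.c k209 (.l (.s k145 k192 12 (.s k162
  k226 7 (.s k243 k81 12 (.d k179 k128 k115 4 7))))) .n)))) (.c k81 (.l (.s k145 k192 12 (.s k162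
  k226 7 (.s k179 k128 4 (.s k243 k115 7 (.s k251 k247 1 (.s k123 k59 7 (.d k183 k191 k63 1
  9)))))))) (.c k141 (.q k78 [(.s k145 k192 12 (.s k162 k226 7 (.s k243 k81 12 (.d k179 k128 k115 4
  7)))), (.s k192 k145 12 (.s k213 k234 6 (.s k149 k21 7 (.s k106 k63 14 (.d k64 k127 k128 6 7))))),
  (.s k162 k226 7 (.s k243 k81 12 (.s k179 k115 7 (.s k251 k247 1 (.s k123 k59 7 (.d k183 k191 k63 1
  9))))))] (.c k81 (.l (.s k145 k192 12 (.s k162 k226 7 (.s k179 k128 4 (.s k243 k115 7 (.s k251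
  k247 1 (.s k123 k59 7 (.d k183 k191 k63 1 9)))))))) (.c k145 (.l (.s k162 k226 7 (.s k81 k243 12
  (.s k64 k115 4 (.s k192 k128 7 (.s k213 k234 6 (.s k149 k21 7 (.d k106 k127 k63 6 14)))))))) (.c
  k209 (.l (.s k145 k192 12 (.s k162 k226 7 (.s k243 k81 12 (.d k179 k128 k115 4 7))))) .n)))) (.c
  k145 (.l (.s k162 k226 7 (.s k81 k243 12 (.s k64 k115 4 (.s k192 k128 7 (.s k213 k234 6 (.s k149
  k21 7 (.d k106 k127 k63 6 14)))))))) (.c k209 (.l (.s k145 k192 12 (.s k162 k226 7 (.s k243 k81 12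
  (.d k179 k128 k115 4 7))))) .n))))))))) (.c k221 (.l (.s k34 k17 4 (.s k170 k255 14 (.s k102 k238
  9 (.s k204 k153 14 (.d k68 k119 k136 4 9)))))) (.c k238 (.l (.s k17 k34 4 (.s k153 k221 9 (.s k102
  k204 14 (.s k255 k170 14 (.d k119 k68 k187 4 9)))))) (.c k255 (.f k17 k34 4 (.q k192 [(.s k128 k64
  7 (.s k145 k98 12 (.s k81 k209 7 (.d k162 k179 k243 4 12)))), (.s k64 k128 7 (.s k106 k127 6 (.s
  k63 k149 14 (.s k59 k55 1 (.d k153 k221 k200 9 12))))), (.s k145 k98 12 (.s k153 k221 9 (.s k149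
  k157 1 (.s k21 k213 7 (.d k63 k42 k106 6 14)))))] (.c k95 (.q k175 [(.s k128 k64 7 (.s k145 k98 12
  (.s k81 k209 7 (.d k162 k179 k243 4 12)))), (.s k64 k128 7 (.s k106 k127 6 (.s k63 k149 14 (.s k59
  k55 1 (.d k153 k221 k200 9 12))))), (.s k145 k98 12 (.s k153 k221 9 (.s k149 k157 1 (.s k21 k213 7
  (.d k63 k42 k106 6 14)))))] .n) (.c k175 (.q k95 [(.s k128 k64 7 (.s k145 k98 12 (.s k81 k209 7
  (.d k162 k179 k243 4 12)))), (.s k64 k128 7 (.s k106 k127 6 (.s k63 k149 14 (.s k59 k55 1 (.d k153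
  k221 k200 9 12))))), (.s k145 k98 12 (.s k153 k221 9 (.s k149 k157 1 (.s k21 k213 7 (.d k63 k42
  k106 6 14)))))] .n) .n)))) .n))))))))))))

def t15_31 : T TT 256 :=
  (.q k63 [(.s k21 k42 6 (.s k149 k213 7 (.s k106 k192 14 (.s k127 k64 6 (.d k255 k191 k170 7
  14))))), (.s k21 k42 6 (.s k149 k213 7 (.s k170 k255 14 (.s k128 k191 6 (.d k192 k64 k106 7
  14)))))] (.c k21 (.f k255 k170 14 (.q k16 [(.s k48 k32 3 (.s k117 k186 10 (.s k101 k69 3 (.d k154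
  k223 k207 10 14)))), (.s k127 k191 7 (.s k106 k64 6 (.s k154 k223 10 (.s k58 k202 11 (.d k48 k53
  k32 2 3))))), (.s k48 k32 3 (.s k58 k53 2 (.s k186 k117 10 (.s k122 k250 7 (.s k181 k240 10 (.d
  k191 k176 k127 2 7))))))] (.c k32 (.l (.s k127 k191 7 (.s k106 k64 6 (.s k154 k223 10 (.s k58 k202
  11 (.s k48 k53 2 (.s k101 k207 14 (.d k117 k69 k186 3 10)))))))) (.c k48 (.l (.s k127 k191 7 (.s
  k64 k106 6 (.s k223 k154 10 (.s k207 k239 3 (.s k111 k159 11 (.s k79 k95 3 (.d k69 k138 k74 10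
  2)))))))) .n)))) (.c k42 (.q k3 [(.s k2 k1 0 (.s k170 k255 14 (.s k86 k254 13 (.s k84 k87 0 (.d
  k252 k168 k169 13 14))))), (.s k43 k23 5 (.s k255 k170 14 (.s k171 k87 13 (.s k107 k235 7 (.s k151
  k195 13 (.d k191 k131 k127 5 7)))))), (.s k1 k2 0 (.s k43 k23 5 (.s k169 k253 13 (.s k106 k232 8
  (.s k64 k127 6 (.d k192 k128 k149 7 14))))))] .n) (.c k64 (.q k1 [(.s k3 k2 0 (.s k21 k42 6 (.s
  k23 k43 5 (.s k22 k20 0 (.d k41 k61 k60 5 6))))), (.s k3 k2 0 (.s k169 k253 13 (.s k86 k252 14 (.s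
  k87 k84 0 (.d k255 k171 k170 13 14))))), (.s k21 k42 6 (.s k61 k41 5 (.s k149 k213 7 (.s k105 k193
  13 (.s k125 k65 5 (.d k253 k189 k169 7 13))))))] .n) (.c k106 (.q k1 [(.s k3 k2 0 (.s k169 k253 13
  (.s k86 k252 14 (.s k87 k84 0 (.d k255 k171 k170 13 14))))), (.s k21 k42 6 (.s k61 k41 5 (.s k149
  k213 7 (.s k105 k193 13 (.s k125 k65 5 (.d k253 k189 k169 7 13)))))), (.s k3 k2 0 (.s k21 k42 6
  (.s k41 k61 5 (.s k22 k60 6 (.d k23 k20 k43 0 5)))))] (.c k170 (.l (.s k3 k2 0 (.s k23 k43 5 (.s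
  k169 k253 13 (.s k86 k252 14 (.s k149 k212 8 (.d k21 k42 k213 6 7))))))) .n)) (.c k149 (.f k21 k42
  6 (.q k1 [(.s k3 k2 0 (.s k23 k43 5 (.s k22 k20 0 (.d k41 k61 k60 5 6)))), (.s k61 k41 5 (.s k253
  k169 13 (.s k189 k125 7 (.s k252 k126 8 (.d k255 k254 k170 0 14))))), (.s k3 k2 0 (.s k169 k253 13
  (.s k86 k252 14 (.s k87 k84 0 (.d k255 k171 k170 13 14)))))] (.c k90 (.q k208 [(.s k3 k2 0 (.s k23
  k43 5 (.s k22 k20 0 (.d k41 k61 k60 5 6)))), (.s k61 k41 5 (.s k253 k169 13 (.s k189 k125 7 (.s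
  k252 k126 8 (.d k255 k254 k170 0 14))))), (.s k3 k2 0 (.s k169 k253 13 (.s k86 k252 14 (.s k87 k84
  0 (.d k255 k171 k170 13 14)))))] (.c k165 (.q k240 [(.s k3 k2 0 (.s k23 k43 5 (.s k22 k20 0 (.d
  k41 k61 k60 5 6)))), (.s k61 k41 5 (.s k181 k122 10 (.s k241 k121 9 (.s k81 k161 11 (.d k243 k242
  k162 0 12))))), (.s k3 k2 0 (.s k160 k80 11 (.s k161 k82 12 (.s k81 k241 11 (.d k162 k163 k243 0
  12)))))] (.c k133 (.l (.s k181 k122 10 (.s k3 k2 0 (.s k23 k43 5 (.s k22 k20 0 (.d k41 k61 k60 5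
  6)))))) (.c k181 (.q k133 [(.s k3 k2 0 (.s k23 k43 5 (.s k22 k20 0 (.d k41 k61 k60 5 6)))), (.s
  k61 k41 5 (.s k253 k169 13 (.s k189 k125 7 (.s k252 k126 8 (.d k255 k254 k170 0 14))))), (.s k3 k2
  0 (.s k160 k80 11 (.s k161 k82 12 (.s k162 k163 0 (.d k81 k241 k243 11 12)))))] .n) .n))) (.c k240
  (.q k165 [(.s k3 k2 0 (.s k23 k43 5 (.s k22 k20 0 (.d k41 k61 k60 5 6)))), (.s k5 k245 11 (.s k13
  k9 1 (.s k89 k241 13 (.s k93 k81 1 (.d k253 k173 k169 11 13)))))] .n) .n))) (.c k208 (.q k90 [(.s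
  k3 k2 0 (.s k23 k43 5 (.s k22 k20 0 (.d k41 k61 k60 5 6)))), (.s k61 k41 5 (.s k253 k169 13 (.s
  k189 k125 7 (.s k252 k126 8 (.d k255 k254 k170 0 14))))), (.s k3 k2 0 (.s k169 k253 13 (.s k86
  k252 14 (.s k87 k84 0 (.d k255 k171 k170 13 14)))))] .n) .n)))) (.c k170 (.q k1 [(.s k3 k2 0 (.s
  k21 k42 6 (.s k23 k43 5 (.s k22 k20 0 (.d k41 k61 k60 5 6))))), (.s k3 k2 0 (.s k43 k23 5 (.s k169
  k253 13 (.s k106 k232 8 (.s k64 k127 6 (.d k192 k128 k149 7 14)))))), (.s k21 k42 6 (.s k61 k41 5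
  (.s k149 k213 7 (.s k105 k193 13 (.s k125 k65 5 (.d k253 k189 k169 7 13))))))] (.c k43 (.l (.s k3
  k2 0 (.s k21 k42 6 (.s k149 k213 7 (.s k169 k253 13 (.s k129 k189 5 (.d k192 k106 k66 14 8)))))))
  (.c k106 (.l (.s k3 k2 0 (.s k23 k43 5 (.s k169 k253 13 (.s k86 k252 14 (.s k149 k212 8 (.d k21
  k42 k213 6 7))))))) .n))) (.c k191 (.l (.s k42 k21 6 (.s k170 k255 14 (.s k106 k234 7 (.s k64 k127
  6 (.d k192 k128 k149 7 14)))))) (.c k192 (.f k255 k170 14 (.f k42 k21 6 (.q k16 [(.s k48 k32 3 (.s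
  k117 k186 10 (.s k101 k69 3 (.d k154 k223 k207 10 14)))), (.s k127 k191 7 (.s k106 k64 6 (.s k154
  k223 10 (.s k58 k202 11 (.d k48 k53 k32 2 3))))), (.s k48 k32 3 (.s k58 k53 2 (.s k186 k117 10 (.s
  k122 k250 7 (.s k181 k240 10 (.d k191 k176 k127 2 7))))))] (.c k32 (.l (.s k127 k191 7 (.s k106
  k64 6 (.s k154 k223 10 (.s k58 k202 11 (.s k48 k53 2 (.s k117 k186 10 (.d k101 k207 k69 14
  3)))))))) (.c k48 (.l (.s k127 k191 7 (.s k64 k106 6 (.s k223 k154 10 (.s k207 k239 3 (.s k111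
  k159 11 (.s k79 k95 3 (.d k69 k138 k74 10 2)))))))) (.c k74 (.q k133 [(.s k48 k32 3 (.s k117 k186
  10 (.s k101 k69 3 (.d k154 k223 k207 10 14)))), (.s k48 k32 3 (.s k58 k53 2 (.s k186 k117 10 (.s
  k122 k250 7 (.s k181 k240 10 (.d k191 k176 k127 2 7)))))), (.s k127 k191 7 (.s k106 k64 6 (.s k154
  k223 10 (.s k58 k202 11 (.d k48 k53 k32 2 3)))))] (.c k32 (.l (.s k127 k191 7 (.s k106 k64 6 (.s
  k154 k223 10 (.s k58 k202 11 (.s k48 k53 2 (.s k117 k186 10 (.d k101 k69 k207 3 14)))))))) (.c k48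
  (.l (.s k191 k127 7 (.s k223 k154 10 (.s k207 k239 3 (.s k138 k69 10 (.s k143 k128 2 (.d k159 k175
  k111 3 11))))))) .n))) (.c k133 (.q k74 [(.s k48 k32 3 (.s k117 k186 10 (.s k101 k69 3 (.d k154
  k223 k207 10 14)))), (.s k127 k191 7 (.s k64 k106 6 (.s k69 k79 2 (.s k207 k138 10 (.d k223 k154
  k239 10 3))))), (.s k48 k32 3 (.s k58 k53 2 (.s k10 k26 3 (.s k154 k223 10 (.d k202 k138 k106 7
  11))))), (.s k48 k32 3 (.s k127 k191 7 (.s k64 k106 6 (.s k69 k79 2 (.d k117 k101 k186 3 10)))))]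
  (.c k239 (.l (.s k154 k223 10 (.s k48 k32 3 (.s k101 k207 14 (.d k117 k69 k186 3 10))))) .n))
  .n))))))) (.c k213 (.l (.s k42 k21 6 (.s k170 k255 14 (.s k106 k234 7 (.s k192 k149 14 (.d k64
  k127 k128 6 7)))))) (.c k234 (.l (.s k21 k42 6 (.s k149 k213 7 (.s k106 k192 14 (.s k255 k170 14
  (.d k127 k64 k191 6 7)))))) (.c k255 (.q k1 [(.s k3 k2 0 (.s k21 k42 6 (.s k23 k43 5 (.s k22 k20 0
  (.d k41 k61 k60 5 6))))), (.s k3 k2 0 (.s k43 k23 5 (.s k169 k253 13 (.s k106 k232 8 (.s k64 k127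
  6 (.d k192 k128 k149 7 14)))))), (.s k21 k42 6 (.s k61 k41 5 (.s k149 k213 7 (.s k105 k193 13 (.s
  k125 k65 5 (.d k253 k189 k169 7 13))))))] (.c k43 (.l (.s k3 k2 0 (.s k21 k42 6 (.s k149 k213 7
  (.s k169 k253 13 (.s k129 k189 5 (.d k192 k66 k106 8 14))))))) (.c k95 (.q k175 [(.s k3 k2 0 (.s
  k21 k42 6 (.s k23 k43 5 (.s k22 k20 0 (.d k41 k61 k60 5 6))))), (.s k3 k2 0 (.s k43 k23 5 (.s k169
  k253 13 (.s k106 k232 8 (.s k64 k127 6 (.d k192 k128 k149 7 14)))))), (.s k21 k42 6 (.s k61 k41 5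
  (.s k149 k213 7 (.s k105 k193 13 (.s k125 k65 5 (.d k253 k189 k169 7 13))))))] (.c k43 (.l (.s k3
  k2 0 (.s k21 k42 6 (.s k149 k213 7 (.s k169 k253 13 (.s k129 k189 5 (.d k192 k66 k106 8 14)))))))
  (.c k159 (.q k223 [(.s k3 k2 0 (.s k21 k42 6 (.s k23 k43 5 (.s k22 k20 0 (.d k41 k61 k60 5 6))))),
  (.s k3 k2 0 (.s k43 k23 5 (.s k169 k253 13 (.s k106 k232 8 (.s k64 k127 6 (.d k192 k128 k149 7
  14)))))), (.s k21 k42 6 (.s k61 k41 5 (.s k149 k213 7 (.s k105 k193 13 (.s k125 k65 5 (.d k253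
  k189 k169 7 13))))))] (.c k43 (.l (.s k3 k2 0 (.s k21 k42 6 (.s k149 k213 7 (.s k169 k253 13 (.s
  k129 k189 5 (.d k192 k66 k106 8 14))))))) .n)) (.c k223 (.q k159 [(.s k3 k2 0 (.s k21 k42 6 (.s
  k23 k43 5 (.s k22 k20 0 (.d k41 k61 k60 5 6))))), (.s k21 k42 6 (.s k149 k213 7 (.s k191 k143 3
  (.s k128 k170 6 (.d k192 k106 k64 14 7))))), (.s k3 k2 0 (.s k43 k23 5 (.s k169 k253 13 (.s k106
  k232 8 (.s k64 k127 6 (.d k192 k128 k149 7 14))))))] (.c k207 (.q k239 [(.s k3 k2 0 (.s k21 k42 6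
  (.s k23 k43 5 (.s k22 k20 0 (.d k41 k61 k60 5 6))))), (.s k21 k42 6 (.s k149 k213 7 (.s k192 k106
  14 (.s k128 k64 7 (.d k191 k143 k170 3 6))))), (.s k3 k2 0 (.s k43 k23 5 (.s k169 k253 13 (.s k106
  k232 8 (.s k64 k127 6 (.d k192 k128 k149 7 14))))))] (.c k79 (.l (.s k143 k191 3 (.s k3 k2 0 (.s
  k21 k42 6 (.s k23 k43 5 (.s k22 k20 0 (.d k41 k61 k60 5 6))))))) (.c k143 (.q k79 [(.s k3 k2 0 (.s
  k21 k42 6 (.s k23 k43 5 (.s k22 k20 0 (.d k41 k61 k60 5 6))))), (.s k3 k2 0 (.s k43 k23 5 (.s k169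
  k253 13 (.s k106 k232 8 (.s k64 k127 6 (.d k192 k128 k149 7 14)))))), (.s k21 k42 6 (.s k61 k41 5
  (.s k149 k213 7 (.s k105 k193 13 (.s k125 k65 5 (.d k253 k189 k169 7 13))))))] (.c k43 (.l (.s k3
  k2 0 (.s k21 k42 6 (.s k149 k213 7 (.s k169 k253 13 (.s k129 k189 5 (.d k192 k66 k106 8 14)))))))
  .n)) .n))) (.c k239 (.l (.s k207 k111 11 (.s k3 k2 0 (.s k21 k42 6 (.s k23 k43 5 (.s k22 k20 0 (.d
  k41 k61 k60 5 6))))))) .n))) .n)))) (.c k175 (.q k95 [(.s k3 k2 0 (.s k21 k42 6 (.s k23 k43 5 (.s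
  k22 k20 0 (.d k41 k61 k60 5 6))))), (.s k3 k2 0 (.s k43 k23 5 (.s k169 k253 13 (.s k106 k232 8 (.s
  k64 k127 6 (.d k192 k128 k149 7 14)))))), (.s k21 k42 6 (.s k61 k41 5 (.s k149 k213 7 (.s k105
  k193 13 (.s k125 k65 5 (.d k253 k189 k169 7 13))))))] (.c k43 (.l (.s k3 k2 0 (.s k21 k42 6 (.s
  k149 k213 7 (.s k169 k253 13 (.s k129 k189 5 (.d k192 k66 k106 8 14))))))) .n)) .n))))
  .n))))))))))))

def t15_38 : T TT 256 :=
  (.f k255 k170 14 (.q k105 [(.s k65 k125 5 (.s k195 k130 8 (.s k215 k235 5 (.d k150 k20 k60 8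
  14))))] (.c k20 (.q k1 [(.s k3 k2 0 (.s k87 k171 13 (.s k169 k253 13 (.d k86 k84 k252 0 14)))),
  (.s k65 k125 5 (.s k169 k253 13 (.s k41 k233 7 (.s k61 k21 5 (.d k193 k129 k149 7 13))))), (.s k3
  k2 0 (.s k65 k125 5 (.s k129 k193 7 (.s k66 k192 8 (.s k67 k64 0 (.d k195 k131 k130 7 8))))))] .n)
  (.c k60 (.f k65 k125 5 (.q k171 [(.s k3 k87 13 (.s k1 k2 0 (.s k129 k193 7 (.s k130 k195 8 (.s
  k128 k131 0 (.d k192 k64 k66 7 8)))))), (.s k195 k130 8 (.s k235 k215 5 (.s k107 k43 7 (.s k106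
  k104 0 (.s k127 k64 6 (.d k63 k191 k151 7 13)))))), (.s k3 k87 13 (.s k1 k2 0 (.s k169 k253 13 (.s
  k41 k233 7 (.s k61 k21 5 (.d k193 k129 k149 7 13))))))] (.c k30 (.q k45 [(.s k3 k87 13 (.s k1 k2 0
  (.s k129 k193 7 (.s k130 k195 8 (.s k128 k131 0 (.d k192 k64 k66 7 8)))))), (.s k195 k130 8 (.s
  k235 k215 5 (.s k107 k43 7 (.s k106 k104 0 (.s k127 k64 6 (.d k63 k191 k151 7 13)))))), (.s k3 k87
  13 (.s k1 k2 0 (.s k169 k253 13 (.s k41 k233 7 (.s k61 k21 5 (.d k193 k129 k149 7 13))))))] .n)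
  (.c k45 (.q k30 [(.s k3 k87 13 (.s k1 k2 0 (.s k129 k193 7 (.s k130 k195 8 (.s k128 k131 0 (.d
  k192 k64 k66 7 8)))))), (.s k195 k130 8 (.s k235 k215 5 (.s k107 k43 7 (.s k106 k104 0 (.s k127
  k64 6 (.d k63 k191 k151 7 13)))))), (.s k3 k87 13 (.s k1 k2 0 (.s k169 k253 13 (.s k41 k233 7 (.s
  k61 k21 5 (.d k193 k129 k149 7 13))))))] .n) .n)))) (.c k65 (.q k1 [(.s k3 k2 0 (.s k87 k171 13
  (.s k86 k84 0 (.d k169 k253 k252 13 14)))), (.s k169 k253 13 (.s k41 k233 7 (.s k21 k61 5 (.s k63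
  k42 6 (.s k127 k191 7 (.s k106 k64 6 (.d k149 k213 k192 7 14)))))))] (.c k169 (.f k3 k2 0 (.q k86
  [(.d k87 k171 k84 13 0), (.s k67 k124 6 (.s k195 k131 7 (.s k150 k60 14 (.d k215 k235 k20 5 8))))]
  (.c k168 (.l (.s k171 k87 13 (.s k67 k124 6 (.s k195 k131 7 (.s k150 k60 14 (.d k215 k235 k20 5
  8)))))) (.c k171 (.q k168 [(.d k84 k87 k252 0 13), (.s k67 k124 6 (.s k195 k131 7 (.s k215 k235 5
  (.d k150 k20 k60 8 14))))] .n) .n)))) (.c k253 (.l (.s k3 k2 0 (.s k87 k171 13 (.s k86 k84 0 (.s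
  k67 k124 6 (.s k195 k131 7 (.s k150 k60 14 (.d k215 k235 k20 5 8)))))))) .n))) (.c k125 (.q k253
  [(.s k169 k1 13 (.s k252 k254 0 (.s k84 k168 13 (.d k86 k87 k3 0 14)))), (.s k169 k1 13 (.s k233
  k41 7 (.s k213 k193 5 (.s k192 k234 6 (.s k64 k128 7 (.s k106 k127 6 (.d k149 k21 k63 7 14)))))))]
  (.c k1 (.l (.s k252 k254 0 (.s k84 k168 13 (.s k86 k87 0 (.s k124 k67 6 (.s k60 k188 7 (.s k20 k40
  5 (.d k150 k215 k195 8 14)))))))) (.c k169 (.f k252 k254 0 (.q k86 [(.d k84 k168 k87 13 0), (.s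
  k124 k67 6 (.s k60 k188 7 (.s k20 k40 5 (.d k150 k215 k195 8 14))))] (.c k168 (.q k171 [(.d k87
  k84 k3 0 13), (.s k124 k67 6 (.s k60 k188 7 (.s k20 k40 5 (.d k150 k215 k195 8 14))))] .n) (.c
  k171 (.l (.s k168 k84 13 (.s k124 k67 6 (.s k60 k188 7 (.s k20 k40 5 (.d k150 k215 k195 8 14))))))
  .n)))) .n))) (.c k130 (.l (.s k125 k65 5 (.s k60 k190 8 (.s k150 k195 14 (.d k20 k40 k215 5 8)))))
  (.c k150 (.f k65 k125 5 (.q k193 [(.s k1 k129 7 (.s k149 k61 13 (.s k213 k21 7 (.d k253 k233 k169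
  5 13)))), (.s k1 k129 7 (.s k3 k2 0 (.s k87 k171 13 (.s k86 k84 0 (.s k67 k124 6 (.d k195 k130
  k131 8 7)))))), (.s k149 k61 13 (.s k21 k213 7 (.s k63 k42 6 (.s k106 k192 14 (.d k127 k64 k191 6
  7)))))] (.c k130 (.q k190 [(.s k149 k61 13 (.s k213 k21 7 (.s k253 k233 5 (.d k1 k129 k169 7
  13)))), (.s k1 k129 7 (.s k3 k2 0 (.s k87 k171 13 (.s k86 k84 0 (.d k169 k253 k252 13 14))))), (.s
  k149 k61 13 (.s k21 k213 7 (.s k63 k42 6 (.s k106 k192 14 (.d k127 k64 k191 6 7)))))] (.c k253 (.l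
  (.s k129 k1 7 (.s k149 k61 13 (.s k189 k169 5 (.s k21 k213 7 (.s k63 k42 6 (.d k191 k188 k127 0
  7))))))) .n)) (.c k190 (.l (.s k130 k195 8 (.s k1 k129 7 (.s k61 k149 13 (.s k41 k21 5 (.d k169
  k233 k253 7 13)))))) .n)))) (.c k190 (.l (.s k65 k125 5 (.s k195 k130 8 (.s k150 k60 14 (.d k215
  k235 k20 5 8))))) (.c k195 (.f k65 k125 5 (.q k1 [(.s k3 k2 0 (.s k87 k171 13 (.s k86 k84 0 (.d
  k169 k253 k252 13 14)))), (.s k193 k129 7 (.s k149 k61 13 (.s k21 k213 7 (.s k63 k42 6 (.s k106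
  k192 14 (.d k127 k64 k191 6 7))))))] (.c k3 (.l (.s k169 k253 13 (.s k41 k233 7 (.s k61 k21 5 (.d
  k193 k129 k149 7 13))))) (.c k75 (.q k135 [(.s k3 k2 0 (.s k87 k171 13 (.s k86 k84 0 (.d k169 k253
  k252 13 14)))), (.s k193 k129 7 (.s k149 k61 13 (.s k21 k213 7 (.s k63 k42 6 (.s k106 k192 14 (.d
  k127 k64 k191 6 7))))))] (.c k3 (.l (.s k169 k253 13 (.s k41 k233 7 (.s k61 k21 5 (.d k193 k129
  k149 7 13))))) (.c k253 (.l (.s k3 k2 0 (.s k87 k171 13 (.s k86 k84 0 (.s k67 k124 6 (.s k64 k66 0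
  (.d k127 k107 k106 5 6))))))) .n))) (.c k135 (.q k75 [(.s k3 k2 0 (.s k87 k171 13 (.s k86 k84 0
  (.d k169 k253 k252 13 14)))), (.s k193 k129 7 (.s k149 k61 13 (.s k21 k213 7 (.s k63 k42 6 (.s
  k106 k192 14 (.d k127 k64 k191 6 7))))))] (.c k3 (.l (.s k169 k253 13 (.s k41 k233 7 (.s k61 k21 5
  (.d k193 k129 k149 7 13))))) (.c k253 (.l (.s k3 k2 0 (.s k87 k171 13 (.s k86 k84 0 (.s k67 k124 6
  (.s k64 k66 0 (.d k127 k107 k106 5 6))))))) .n))) (.c k253 (.l (.s k3 k2 0 (.s k87 k171 13 (.s k86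
  k84 0 (.s k67 k124 6 (.s k64 k66 0 (.d k127 k107 k106 5 6))))))) .n)))))) (.c k215 (.q k1 [(.s k3
  k2 0 (.s k87 k171 13 (.s k86 k84 0 (.d k169 k253 k252 13 14)))), (.s k65 k125 5 (.s k169 k253 13
  (.s k41 k233 7 (.s k61 k21 5 (.d k193 k129 k149 7 13))))), (.s k3 k2 0 (.s k65 k125 5 (.s k129
  k193 7 (.s k66 k192 8 (.s k67 k64 0 (.d k195 k131 k130 7 8))))))] .n) (.c k235 (.l (.s k125 k65 5
  (.s k60 k190 8 (.s k20 k40 5 (.d k150 k215 k195 8 14))))) .n))))))))))))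

def t15_39 : T TT 256 :=
  (.q k51 [(.s k17 k34 4 (.s k153 k221 9 (.s k102 k204 14 (.s k119 k68 4 (.d k255 k187 k170 9
  14))))), (.s k17 k34 4 (.s k153 k221 9 (.s k170 k255 14 (.s k136 k187 4 (.d k204 k68 k102 9
  14)))))] (.c k17 (.q k3 [(.s k1 k2 0 (.s k169 k253 13 (.s k86 k252 14 (.s k87 k84 0 (.d k255 k171
  k170 13 14))))), (.s k1 k2 0 (.s k35 k19 3 (.s k169 k253 13 (.s k102 k236 10 (.s k68 k119 4 (.d
  k204 k136 k153 9 14)))))), (.s k35 k19 3 (.s k255 k170 14 (.s k171 k87 13 (.s k103 k239 9 (.s k155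
  k207 13 (.d k187 k139 k119 3 9))))))] .n) (.c k34 (.q k3 [(.s k2 k1 0 (.s k170 k255 14 (.s k86
  k254 13 (.s k84 k87 0 (.d k252 k168 k169 13 14))))), (.s k35 k19 3 (.s k255 k170 14 (.s k171 k87
  13 (.s k103 k239 9 (.s k155 k207 13 (.d k187 k139 k119 3 9)))))), (.s k1 k2 0 (.s k35 k19 3 (.s
  k169 k253 13 (.s k102 k236 10 (.s k68 k119 4 (.d k204 k136 k153 9 14))))))] .n) (.c k68 (.q k1
  [(.s k3 k2 0 (.s k17 k34 4 (.s k33 k49 3 (.s k18 k48 4 (.d k19 k16 k35 0 3))))), (.s k3 k2 0 (.s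
  k169 k253 13 (.s k86 k252 14 (.s k87 k84 0 (.d k255 k171 k170 13 14))))), (.s k17 k34 4 (.s k49
  k33 3 (.s k153 k221 9 (.s k101 k205 13 (.s k117 k69 3 (.d k253 k185 k169 9 13))))))] .n) (.c k102
  (.f k34 k17 4 (.q k63 [(.s k42 k21 6 (.s k38 k46 1 (.s k25 k12 6 (.d k59 k55 k8 1 4)))), (.s k21
  k42 6 (.s k149 k213 7 (.s k106 k192 14 (.s k127 k64 6 (.d k255 k191 k170 7 14))))), (.s k55 k59 1
  (.s k255 k170 14 (.s k119 k187 9 (.s k127 k191 7 (.s k123 k115 1 (.d k183 k247 k243 7 9))))))] (.c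
  k165 (.q k228 [(.s k42 k21 6 (.s k38 k46 1 (.s k25 k12 6 (.d k59 k55 k8 1 4)))), (.s k21 k42 6 (.s
  k149 k213 7 (.s k106 k192 14 (.s k127 k64 6 (.d k255 k191 k170 7 14))))), (.s k55 k59 1 (.s k255
  k170 14 (.s k119 k187 9 (.s k127 k191 7 (.s k123 k115 1 (.d k183 k247 k243 7 9))))))] (.c k90 (.q
  k240 [(.s k42 k21 6 (.s k38 k46 1 (.s k25 k12 6 (.d k59 k55 k8 1 4)))), (.s k21 k42 6 (.s k149
  k213 7 (.s k106 k192 14 (.s k127 k64 6 (.d k255 k191 k170 7 14))))), (.s k55 k59 1 (.s k181 k122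
  10 (.s k118 k244 8 (.s k185 k252 10 (.d k177 k114 k189 8 1)))))] (.c k78 (.l (.s k114 k177 8 (.s
  k42 k21 6 (.s k38 k46 1 (.s k25 k12 6 (.d k59 k55 k8 1 4)))))) (.c k114 (.q k78 [(.s k42 k21 6 (.s
  k38 k46 1 (.s k25 k12 6 (.d k59 k55 k8 1 4)))), (.s k21 k42 6 (.s k149 k213 7 (.s k106 k192 14 (.s
  k127 k64 6 (.d k255 k191 k170 7 14))))), (.s k55 k59 1 (.s k255 k170 14 (.s k119 k187 9 (.s k127
  k191 7 (.s k123 k115 1 (.d k183 k247 k243 7 9))))))] .n) .n))) (.c k240 (.q k90 [(.s k42 k21 6 (.s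
  k38 k46 1 (.s k25 k12 6 (.d k59 k55 k8 1 4)))), (.s k21 k42 6 (.s k149 k213 7 (.s k106 k192 14 (.s
  k127 k64 6 (.d k255 k191 k170 7 14))))), (.s k55 k59 1 (.s k255 k170 14 (.s k119 k187 9 (.s k127
  k191 7 (.s k123 k115 1 (.d k183 k247 k243 7 9))))))] .n) .n))) (.c k228 (.q k165 [(.s k42 k21 6
  (.s k38 k46 1 (.s k25 k12 6 (.d k59 k55 k8 1 4)))), (.s k21 k42 6 (.s k149 k213 7 (.s k106 k192 14
  (.s k127 k64 6 (.d k255 k191 k170 7 14))))), (.s k55 k59 1 (.s k255 k170 14 (.s k119 k187 9 (.s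
  k127 k191 7 (.s k123 k115 1 (.d k183 k247 k243 7 9))))))] .n) .n)))) (.c k153 (.q k1 [(.s k3 k2 0
  (.s k169 k253 13 (.s k86 k252 14 (.s k87 k84 0 (.d k255 k171 k170 13 14))))), (.s k3 k2 0 (.s k17
  k34 4 (.s k19 k35 3 (.s k18 k16 0 (.d k33 k49 k48 3 4))))), (.s k17 k34 4 (.s k49 k33 3 (.s k253
  k169 13 (.s k185 k117 9 (.s k252 k118 10 (.d k255 k254 k170 0 14))))))] .n) (.c k170 (.q k1 [(.s
  k3 k2 0 (.s k35 k19 3 (.s k169 k253 13 (.s k102 k236 10 (.s k68 k119 4 (.d k204 k136 k153 9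
  14)))))), (.s k17 k34 4 (.s k49 k33 3 (.s k153 k221 9 (.s k101 k205 13 (.s k117 k69 3 (.d k253
  k185 k169 9 13)))))), (.s k3 k2 0 (.s k17 k34 4 (.s k19 k35 3 (.s k18 k16 0 (.d k33 k49 k48 3
  4)))))] (.c k35 (.l (.s k3 k2 0 (.s k17 k34 4 (.s k153 k221 9 (.s k169 k253 13 (.s k137 k185 3 (.d
  k204 k102 k70 14 10))))))) (.c k102 (.l (.s k3 k2 0 (.s k19 k35 3 (.s k169 k253 13 (.s k86 k252 14
  (.s k153 k220 10 (.d k17 k34 k221 4 9))))))) .n))) (.c k187 (.l (.s k34 k17 4 (.s k170 k255 14 (.s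
  k102 k238 9 (.s k68 k119 4 (.d k204 k136 k153 9 14)))))) (.c k204 (.f k255 k170 14 (.f k187 k119 9
  (.f k34 k17 4 (.q k98 [(.s k145 k192 12 (.s k162 k226 7 (.s k243 k81 12 (.d k179 k128 k115 4
  7)))), (.s k192 k145 12 (.s k213 k234 6 (.s k149 k21 7 (.s k106 k63 14 (.d k64 k127 k128 6 7))))),
  (.s k162 k226 7 (.s k243 k81 12 (.s k179 k115 7 (.s k251 k247 1 (.s k123 k59 7 (.d k183 k191 k63 1
  9))))))] (.c k78 (.q k141 [(.s k145 k192 12 (.s k162 k226 7 (.s k243 k81 12 (.d k179 k128 k115 4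
  7)))), (.s k192 k145 12 (.s k213 k234 6 (.s k149 k21 7 (.s k106 k63 14 (.d k64 k127 k128 6 7))))),
  (.s k162 k226 7 (.s k243 k81 12 (.s k179 k115 7 (.s k251 k247 1 (.s k123 k59 7 (.d k183 k191 k63 1
  9))))))] (.c k81 (.l (.s k145 k192 12 (.s k162 k226 7 (.s k179 k128 4 (.s k243 k115 7 (.s k251
  k247 1 (.s k123 k59 7 (.d k183 k191 k63 1 9)))))))) (.c k145 (.l (.s k162 k226 7 (.s k81 k243 12
  (.s k64 k115 4 (.s k192 k128 7 (.s k213 k234 6 (.s k149 k21 7 (.d k106 k127 k63 6 14)))))))) (.c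
  k209 (.l (.s k145 k192 12 (.s k162 k226 7 (.s k243 k81 12 (.d k179 k128 k115 4 7))))) .n)))) (.c
  k81 (.l (.s k145 k192 12 (.s k162 k226 7 (.s k179 k128 4 (.s k243 k115 7 (.s k251 k247 1 (.s k123
  k59 7 (.d k183 k191 k63 1 9)))))))) (.c k141 (.q k78 [(.s k145 k192 12 (.s k162 k226 7 (.s k243
  k81 12 (.d k179 k128 k115 4 7)))), (.s k192 k145 12 (.s k213 k234 6 (.s k149 k21 7 (.s k106 k63 14
  (.d k64 k127 k128 6 7))))), (.s k162 k226 7 (.s k243 k81 12 (.s k179 k115 7 (.s k251 k247 1 (.s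
  k123 k59 7 (.d k183 k191 k63 1 9))))))] (.c k81 (.l (.s k145 k192 12 (.s k162 k226 7 (.s k179 k128
  4 (.s k243 k115 7 (.s k251 k247 1 (.s k123 k59 7 (.d k183 k191 k63 1 9)))))))) (.c k145 (.l (.s
  k162 k226 7 (.s k81 k243 12 (.s k64 k115 4 (.s k192 k128 7 (.s k213 k234 6 (.s k149 k21 7 (.d k106
  k127 k63 6 14)))))))) (.c k209 (.l (.s k145 k192 12 (.s k162 k226 7 (.s k243 k81 12 (.d k179 k128
  k115 4 7))))) .n)))) (.c k145 (.l (.s k162 k226 7 (.s k81 k243 12 (.s k64 k115 4 (.s k192 k128 7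
  (.s k213 k234 6 (.s k149 k21 7 (.d k106 k127 k63 6 14)))))))) (.c k209 (.l (.s k145 k192 12 (.s
  k162 k226 7 (.s k243 k81 12 (.d k179 k128 k115 4 7))))) .n))))))))) (.c k221 (.l (.s k34 k17 4 (.s
  k170 k255 14 (.s k102 k238 9 (.s k204 k153 14 (.d k68 k119 k136 4 9)))))) (.c k238 (.l (.s k17 k34
  4 (.s k153 k221 9 (.s k102 k204 14 (.s k255 k170 14 (.d k119 k68 k187 4 9)))))) (.c k255 (.f k17
  k34 4 (.f k221 k153 9 (.q k21 [(.s k29 k25 1 (.s k93 k157 7 (.s k89 k81 1 (.d k149 k213 k209 7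
  9)))), (.s k25 k29 1 (.s k12 k38 6 (.s k8 k4 1 (.d k42 k59 k63 4 6)))), (.s k63 k42 6 (.s k149
  k213 7 (.s k192 k106 14 (.s k128 k64 7 (.s k145 k98 12 (.s k81 k209 7 (.d k162 k179 k243 4
  12)))))))] (.c k95 (.q k175 [(.s k29 k25 1 (.s k93 k157 7 (.s k89 k81 1 (.d k149 k213 k209 7
  9)))), (.s k25 k29 1 (.s k12 k38 6 (.s k8 k4 1 (.d k42 k59 k63 4 6)))), (.s k63 k42 6 (.s k149
  k213 7 (.s k192 k106 14 (.s k128 k64 7 (.s k145 k98 12 (.s k81 k209 7 (.d k162 k179 k243 4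
  12)))))))] .n) (.c k175 (.q k95 [(.s k29 k25 1 (.s k93 k157 7 (.s k89 k81 1 (.d k149 k213 k209 7
  9)))), (.s k25 k29 1 (.s k12 k38 6 (.s k8 k4 1 (.d k42 k59 k63 4 6)))), (.s k90 k80 2 (.s k149
  k213 7 (.s k31 k208 10 (.s k16 k26 2 (.d k223 k159 k154 7 10)))))] .n) .n))))) .n))))))))))))

def t15_42 : T TT 256 :=
  (.q k150 [(.s k215 k20 8 (.s k255 k170 14 (.s k195 k235 5 (.s k65 k130 8 (.d k105 k125 k60 5
  14))))), (.s k20 k215 8 (.s k60 k40 5 (.s k105 k195 14 (.s k125 k65 5 (.d k255 k190 k170 8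
  14)))))] (.c k20 (.q k1 [(.s k3 k2 0 (.s k169 k253 13 (.s k170 k255 14 (.s k168 k171 0 (.d k252
  k84 k86 13 14))))), (.s k3 k2 0 (.s k169 k253 13 (.s k131 k188 6 (.s k195 k67 7 (.s k65 k130 8 (.d
  k105 k125 k60 5 14)))))), (.s k169 k253 13 (.s k131 k188 6 (.s k170 k255 14 (.s k130 k190 5 (.s
  k65 k195 8 (.d k129 k128 k193 0 7)))))), (.s k3 k2 0 (.s k170 k255 14 (.s k130 k190 5 (.s k65 k195
  8 (.s k129 k193 7 (.s k128 k131 0 (.d k192 k64 k66 7 8)))))))] .n) (.c k40 (.l (.s k215 k20 8 (.s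
  k255 k170 14 (.s k195 k235 5 (.s k105 k60 14 (.d k65 k125 k130 5 8)))))) (.c k60 (.f k20 k215 8
  (.q k32 [(.s k16 k48 3 (.s k28 k24 1 (.s k89 k211 10 (.s k93 k81 1 (.d k223 k158 k154 8 10))))),
  (.s k170 k255 14 (.s k101 k239 10 (.s k52 k199 12 (.s k4 k36 3 (.s k117 k69 3 (.d k247 k182 k166 8
  12)))))), (.s k48 k16 3 (.s k170 k255 14 (.s k101 k239 10 (.s k69 k117 3 (.d k207 k138 k154 10
  14)))))] (.c k30 (.q k45 [(.s k16 k48 3 (.s k28 k24 1 (.s k89 k211 10 (.s k93 k81 1 (.d k223 k158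
  k154 8 10))))), (.s k170 k255 14 (.s k101 k239 10 (.s k52 k199 12 (.s k4 k36 3 (.s k117 k69 3 (.d
  k247 k182 k166 8 12)))))), (.s k48 k16 3 (.s k170 k255 14 (.s k101 k239 10 (.s k69 k117 3 (.d k207
  k138 k154 10 14)))))] (.c k223 (.l (.s k48 k16 3 (.s k170 k255 14 (.s k101 k239 10 (.s k207 k154
  14 (.d k69 k117 k138 3 10)))))) .n)) (.c k45 (.q k30 [(.s k16 k48 3 (.s k28 k24 1 (.s k89 k211 10
  (.s k93 k81 1 (.d k223 k158 k154 8 10))))), (.s k170 k255 14 (.s k101 k239 10 (.s k52 k199 12 (.s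
  k4 k36 3 (.s k117 k69 3 (.d k247 k182 k166 8 12)))))), (.s k48 k16 3 (.s k170 k255 14 (.s k101
  k239 10 (.s k69 k117 3 (.d k207 k138 k154 10 14)))))] (.c k223 (.l (.s k48 k16 3 (.s k170 k255 14
  (.s k101 k239 10 (.s k207 k154 14 (.d k69 k117 k138 3 10)))))) .n)) (.c k223 (.l (.s k48 k16 3 (.s
  k170 k255 14 (.s k101 k239 10 (.s k207 k154 14 (.d k69 k117 k138 3 10)))))) .n))))) (.c k65 (.q k3
  [(.s k1 k2 0 (.s k169 k253 13 (.s k86 k252 14 (.s k87 k84 0 (.d k255 k171 k170 13 14))))), (.s k1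
  k2 0 (.s k20 k215 8 (.s k60 k40 5 (.s k169 k253 13 (.s k131 k188 6 (.d k195 k67 k105 7 14)))))),
  (.s k20 k215 8 (.s k60 k40 5 (.s k255 k170 14 (.s k87 k171 13 (.s k86 k84 0 (.d k22 k41 k214 6
  7))))))] (.c k22 (.l (.s k2 k1 0 (.s k170 k255 14 (.s k86 k254 13 (.s k84 k87 0 (.d k252 k168 k169
  13 14)))))) (.c k169 (.l (.s k2 k1 0 (.s k20 k215 8 (.s k60 k40 5 (.s k170 k255 14 (.s k86 k254 13
  (.d k22 k41 k214 6 7))))))) .n))) (.c k105 (.q k1 [(.s k169 k253 13 (.s k170 k255 14 (.s k168 k171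
  0 (.s k252 k84 13 (.d k3 k2 k86 0 14))))), (.s k3 k2 0 (.s k170 k255 14 (.s k130 k190 5 (.s k65
  k195 8 (.s k129 k193 7 (.s k128 k131 0 (.d k192 k64 k66 7 8))))))), (.s k3 k2 0 (.s k20 k215 8 (.s
  k169 k253 13 (.s k86 k252 14 (.s k22 k214 7 (.d k60 k40 k41 5 6)))))), (.s k169 k253 13 (.s k131
  k188 6 (.s k170 k255 14 (.s k130 k190 5 (.s k65 k195 8 (.d k129 k128 k193 0 7))))))] (.c k255 (.l
  (.s k3 k2 0 (.s k20 k215 8 (.s k60 k40 5 (.s k169 k253 13 (.s k188 k131 6 (.d k252 k124 k86 7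
  14))))))) .n)) (.c k125 (.l (.s k20 k215 8 (.s k60 k40 5 (.s k170 k255 14 (.s k130 k190 5 (.d k195
  k65 k105 8 14)))))) (.c k170 (.f k20 k215 8 (.q k106 [(.s k60 k40 5 (.s k62 k194 13 (.s k63 k61 0
  (.s k64 k127 6 (.d k192 k128 k149 7 14))))), (.s k64 k127 6 (.s k192 k128 7 (.s k149 k63 14 (.s
  k148 k151 0 (.s k84 k212 7 (.d k104 k124 k60 5 13)))))), (.s k60 k40 5 (.s k62 k194 13 (.s k63 k61
  0 (.s k105 k195 14 (.s k104 k107 0 (.d k192 k148 k149 13 14))))))] (.c k60 (.l (.s k64 k127 6 (.s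
  k192 k128 7 (.s k149 k63 14 (.s k21 k213 7 (.s k23 k22 0 (.s k148 k151 0 (.d k212 k84 k86 7
  8)))))))) (.c k63 (.l (.s k60 k40 5 (.s k64 k127 6 (.s k105 k195 14 (.s k192 k128 7 (.d k104 k107
  k148 0 13)))))) (.c k149 (.l (.s k60 k40 5 (.s k64 k127 6 (.s k105 k195 14 (.s k104 k107 0 (.d
  k192 k128 k148 7 13)))))) (.c k192 (.l (.s k60 k40 5 (.s k62 k194 13 (.s k63 k61 0 (.s k127 k64 6
  (.s k255 k191 7 (.s k125 k190 8 (.d k105 k195 k65 14 5)))))))) .n)))))) (.c k195 (.f k255 k170 14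
  (.f k20 k215 8 (.q k106 [(.s k62 k194 13 (.s k127 k64 6 (.s k63 k191 7 (.d k60 k61 k40 0 5)))),
  (.s k64 k127 6 (.s k192 k128 7 (.s k149 k63 14 (.d k213 k234 k21 6 7)))), (.s k60 k40 5 (.s k62
  k194 13 (.s k63 k61 0 (.s k125 k190 8 (.s k105 k65 5 (.s k104 k107 0 (.d k192 k148 k149 13
  14)))))))] (.c k63 (.l (.s k60 k40 5 (.s k64 k127 6 (.s k125 k190 8 (.s k105 k65 5 (.s k192 k128 7
  (.d k104 k107 k148 0 13))))))) (.c k75 (.q k135 [(.s k62 k194 13 (.s k127 k64 6 (.s k63 k191 7 (.d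
  k60 k61 k40 0 5)))), (.s k64 k127 6 (.s k192 k128 7 (.s k149 k63 14 (.d k213 k234 k21 6 7)))), (.s
  k60 k40 5 (.s k62 k194 13 (.s k63 k61 0 (.s k125 k190 8 (.s k105 k65 5 (.s k104 k107 0 (.d k192
  k148 k149 13 14)))))))] (.c k63 (.l (.s k60 k40 5 (.s k64 k127 6 (.s k125 k190 8 (.s k105 k65 5
  (.s k192 k128 7 (.d k104 k107 k148 0 13))))))) (.c k149 (.l (.s k60 k40 5 (.s k62 k194 13 (.s k63
  k61 0 (.d k127 k64 k191 6 7))))) (.c k192 (.l (.s k60 k40 5 (.s k127 k64 6 (.s k63 k191 7 (.d k62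
  k61 k194 0 13))))) .n)))) (.c k135 (.q k75 [(.s k62 k194 13 (.s k127 k64 6 (.s k63 k191 7 (.d k60
  k61 k40 0 5)))), (.s k64 k127 6 (.s k192 k128 7 (.s k149 k63 14 (.d k213 k234 k21 6 7)))), (.s k60
  k40 5 (.s k62 k194 13 (.s k63 k61 0 (.s k125 k190 8 (.s k105 k65 5 (.s k104 k107 0 (.d k192 k148
  k149 13 14)))))))] (.c k63 (.l (.s k60 k40 5 (.s k64 k127 6 (.s k125 k190 8 (.s k105 k65 5 (.s
  k192 k128 7 (.d k104 k107 k148 0 13))))))) (.c k149 (.l (.s k60 k40 5 (.s k62 k194 13 (.s k63 k61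
  0 (.d k127 k64 k191 6 7))))) (.c k192 (.l (.s k60 k40 5 (.s k127 k64 6 (.s k63 k191 7 (.d k62 k61
  k194 0 13))))) .n)))) (.c k149 (.l (.s k60 k40 5 (.s k62 k194 13 (.s k63 k61 0 (.d k127 k64 k191 6
  7))))) (.c k192 (.l (.s k60 k40 5 (.s k127 k64 6 (.s k63 k191 7 (.d k62 k61 k194 0 13)))))
  .n)))))))) (.c k215 (.q k3 [(.s k1 k2 0 (.s k169 k253 13 (.s k86 k252 14 (.s k87 k84 0 (.d k255
  k171 k170 13 14))))), (.s k1 k2 0 (.s k169 k253 13 (.s k131 k188 6 (.s k195 k67 7 (.s k65 k130 8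
  (.d k105 k125 k60 5 14)))))), (.s k170 k255 14 (.s k130 k190 5 (.s k195 k65 8 (.s k131 k67 7 (.s
  k169 k188 6 (.s k168 k171 0 (.d k252 k84 k86 13 14)))))))] (.c k169 (.l (.s k2 k1 0 (.s k170 k255
  14 (.s k86 k254 13 (.s k22 k214 7 (.s k60 k41 6 (.s k40 k20 5 (.d k105 k235 k195 8 14)))))))) .n))
  (.c k235 (.l (.s k20 k215 8 (.s k60 k40 5 (.s k105 k195 14 (.s k255 k170 14 (.d k125 k65 k190 5
  8)))))) (.c k255 (.q k252 [(.s k84 k168 13 (.s k86 k87 0 (.s k214 k22 7 (.s k195 k233 6 (.s k65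
  k130 8 (.d k105 k125 k60 5 14)))))), (.s k20 k215 8 (.s k60 k40 5 (.s k84 k168 13 (.s k124 k188 7
  (.s k104 k64 5 (.d k148 k212 k192 7 13)))))), (.s k20 k215 8 (.s k60 k40 5 (.s k188 k124 7 (.s
  k169 k131 6 (.s k1 k253 13 (.d k3 k2 k86 0 14))))))] (.c k60 (.l (.s k20 k215 8 (.s k84 k168 13
  (.s k86 k87 0 (.s k22 k214 7 (.s k23 k21 0 (.d k212 k148 k149 7 8))))))) (.c k95 (.q k175 [(.s k20
  k215 8 (.s k60 k40 5 (.s k188 k124 7 (.s k169 k131 6 (.s k1 k253 13 (.d k3 k2 k86 0 14)))))), (.s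
  k84 k168 13 (.s k86 k87 0 (.s k214 k22 7 (.s k195 k233 6 (.s k65 k130 8 (.d k105 k125 k60 5
  14)))))), (.s k20 k215 8 (.s k60 k40 5 (.s k84 k168 13 (.s k124 k188 7 (.s k104 k64 5 (.d k148
  k212 k192 7 13))))))] (.c k60 (.l (.s k20 k215 8 (.s k84 k168 13 (.s k86 k87 0 (.s k22 k214 7 (.s
  k23 k21 0 (.d k212 k148 k149 7 8))))))) (.c k195 (.l (.s k84 k168 13 (.s k86 k87 0 (.s k3 k169 14
  (.s k22 k214 7 (.s k60 k41 6 (.d k20 k40 k215 5 8))))))) .n))) (.c k175 (.q k95 [(.s k20 k215 8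
  (.s k60 k40 5 (.s k188 k124 7 (.s k169 k131 6 (.s k1 k253 13 (.d k3 k2 k86 0 14)))))), (.s k80 k90
  2 (.s k84 k168 13 (.s k86 k87 0 (.s k92 k88 1 (.s k89 k83 2 (.d k93 k94 k81 0 1)))))), (.s k20
  k215 8 (.s k60 k40 5 (.s k84 k168 13 (.s k124 k188 7 (.s k104 k64 5 (.d k148 k212 k192 7 13))))))]
  .n) (.c k195 (.l (.s k84 k168 13 (.s k86 k87 0 (.s k3 k169 14 (.s k22 k214 7 (.s k60 k41 6 (.d k20
  k40 k215 5 8))))))) .n))))) .n))))))))))))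

def t15_43 : T TT 256 :=
  (.f k255 k170 14 (.q k105 [(.s k65 k125 5 (.s k195 k130 8 (.s k150 k60 14 (.d k215 k235 k20 5
  8)))), (.s k125 k65 5 (.s k60 k190 8 (.s k150 k195 14 (.d k20 k40 k215 5 8))))] (.c k20 (.q k1
  [(.s k3 k2 0 (.s k169 k253 13 (.s k86 k252 14 (.d k87 k84 k171 0 13)))), (.s k65 k125 5 (.s k169
  k253 13 (.s k41 k233 7 (.s k61 k21 5 (.d k193 k129 k149 7 13))))), (.s k3 k2 0 (.s k65 k125 5 (.s
  k129 k193 7 (.s k66 k192 8 (.s k67 k64 0 (.d k195 k131 k130 7 8))))))] .n) (.c k60 (.f k65 k125 5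
  (.q k67 [(.s k64 k66 0 (.s k86 k124 6 (.s k87 k84 0 (.d k127 k107 k106 5 6)))), (.s k195 k130 8
  (.s k3 k131 7 (.s k87 k171 13 (.d k86 k84 k124 0 6)))), (.s k64 k66 0 (.s k106 k127 6 (.s k192
  k128 7 (.s k149 k63 14 (.d k213 k234 k21 6 7)))))] (.c k30 (.q k45 [(.s k64 k66 0 (.s k86 k124 6
  (.s k87 k84 0 (.d k127 k107 k106 5 6)))), (.s k195 k130 8 (.s k3 k131 7 (.s k87 k171 13 (.d k86
  k84 k124 0 6)))), (.s k64 k66 0 (.s k106 k127 6 (.s k192 k128 7 (.s k149 k63 14 (.d k213 k234 k21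
  6 7)))))] (.c k124 (.l (.s k64 k66 0 (.s k127 k106 6 (.s k63 k191 7 (.s k107 k87 5 (.d k195 k130
  k151 8 13)))))) .n)) (.c k45 (.q k30 [(.s k64 k66 0 (.s k86 k124 6 (.s k87 k84 0 (.d k127 k107
  k106 5 6)))), (.s k195 k130 8 (.s k3 k131 7 (.s k87 k171 13 (.d k86 k84 k124 0 6)))), (.s k64 k66
  0 (.s k106 k127 6 (.s k192 k128 7 (.s k149 k63 14 (.d k213 k234 k21 6 7)))))] (.c k124 (.l (.s k64
  k66 0 (.s k127 k106 6 (.s k63 k191 7 (.s k107 k87 5 (.d k195 k130 k151 8 13)))))) .n)) (.c k124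
  (.l (.s k64 k66 0 (.s k127 k106 6 (.s k63 k191 7 (.s k107 k87 5 (.d k195 k130 k151 8 13))))))
  .n))))) (.c k65 (.q k84 [(.s k86 k87 0 (.s k252 k168 13 (.s k253 k254 0 (.d k169 k1 k3 13 14)))),
  (.s k86 k87 0 (.s k124 k67 6 (.s k64 k104 5 (.s k192 k128 7 (.s k213 k234 6 (.s k149 k21 7 (.d
  k106 k127 k63 6 14)))))))] (.c k86 (.f k252 k168 13 (.q k169 [(.d k253 k254 k1 0 13), (.s k233 k41
  7 (.s k195 k214 6 (.s k150 k60 14 (.d k215 k235 k20 5 8))))] (.c k2 (.l (.s k254 k253 0 (.s k233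
  k41 7 (.s k195 k214 6 (.s k150 k60 14 (.d k215 k235 k20 5 8)))))) (.c k254 (.q k2 [(.d k1 k3 k253
  0 13), (.s k233 k41 7 (.s k195 k214 6 (.s k215 k235 5 (.d k150 k20 k60 8 14))))] .n) .n)))) (.c
  k87 (.l (.s k252 k168 13 (.s k253 k254 0 (.s k169 k1 13 (.s k233 k41 7 (.s k195 k214 6 (.s k150
  k60 14 (.d k215 k235 k20 5 8)))))))) .n))) (.c k125 (.q k213 [(.s k149 k21 7 (.s k192 k234 6 (.s
  k64 k128 7 (.d k106 k127 k63 6 14)))), (.s k149 k21 7 (.s k193 k61 13 (.s k253 k233 5 (.s k252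
  k254 0 (.s k84 k168 13 (.s k86 k87 0 (.d k169 k1 k3 13 14)))))))] (.c k21 (.l (.s k192 k234 6 (.s
  k64 k128 7 (.s k106 k127 6 (.s k104 k107 0 (.s k60 k148 13 (.s k20 k40 5 (.d k150 k215 k195 8
  14)))))))) (.c k149 (.f k192 k234 6 (.q k106 [(.d k64 k128 k127 7 6), (.s k104 k107 0 (.s k60 k148
  13 (.s k20 k40 5 (.d k150 k215 k195 8 14))))] (.c k128 (.q k191 [(.d k127 k64 k63 6 7), (.s k104
  k107 0 (.s k60 k148 13 (.s k20 k40 5 (.d k150 k215 k195 8 14))))] .n) (.c k191 (.l (.s k128 k64 7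
  (.s k104 k107 0 (.s k60 k148 13 (.s k20 k40 5 (.d k150 k215 k195 8 14)))))) .n)))) .n))) (.c k130
  (.l (.s k125 k65 5 (.s k60 k190 8 (.s k150 k195 14 (.d k20 k40 k215 5 8))))) (.c k150 (.f k65 k125
  5 (.q k193 [(.s k1 k129 7 (.s k149 k61 13 (.s k213 k21 7 (.d k253 k233 k169 5 13)))), (.s k1 k129
  7 (.s k3 k2 0 (.s k87 k171 13 (.s k86 k84 0 (.s k67 k124 6 (.d k195 k130 k131 8 7)))))), (.s k149
  k61 13 (.s k21 k213 7 (.s k63 k42 6 (.s k106 k192 14 (.d k127 k64 k191 6 7)))))] (.c k130 (.q k190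
  [(.s k149 k61 13 (.s k213 k21 7 (.s k253 k233 5 (.d k1 k129 k169 7 13)))), (.s k1 k129 7 (.s k3 k2
  0 (.s k87 k171 13 (.s k86 k84 0 (.d k169 k253 k252 13 14))))), (.s k149 k61 13 (.s k21 k213 7 (.s
  k63 k42 6 (.s k106 k192 14 (.d k127 k64 k191 6 7)))))] (.c k253 (.l (.s k129 k1 7 (.s k149 k61 13
  (.s k189 k169 5 (.s k21 k213 7 (.s k63 k42 6 (.d k191 k188 k127 0 7))))))) .n)) (.c k190 (.l (.s
  k130 k195 8 (.s k1 k129 7 (.s k61 k149 13 (.s k41 k21 5 (.d k169 k233 k253 7 13)))))) .n)))) (.c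
  k190 (.l (.s k65 k125 5 (.s k195 k130 8 (.s k150 k60 14 (.d k215 k235 k20 5 8))))) (.c k195 (.f
  k65 k125 5 (.q k1 [(.s k169 k253 13 (.s k193 k129 7 (.s k61 k149 13 (.d k41 k21 k233 5 7)))), (.s
  k3 k2 0 (.s k87 k171 13 (.s k86 k84 0 (.s k67 k124 6 (.s k64 k66 0 (.d k127 k107 k106 5 6))))))]
  (.c k75 (.q k135 [(.s k169 k253 13 (.s k193 k129 7 (.s k61 k149 13 (.d k41 k21 k233 5 7)))), (.s
  k3 k2 0 (.s k87 k171 13 (.s k86 k84 0 (.s k67 k124 6 (.s k64 k66 0 (.d k127 k107 k106 5 6))))))]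
  (.c k169 (.l (.s k193 k129 7 (.s k149 k61 13 (.s k21 k213 7 (.s k63 k42 6 (.s k106 k192 14 (.d
  k127 k64 k191 6 7))))))) .n)) (.c k135 (.q k75 [(.s k169 k253 13 (.s k193 k129 7 (.s k61 k149 13
  (.d k41 k21 k233 5 7)))), (.s k3 k2 0 (.s k87 k171 13 (.s k86 k84 0 (.s k67 k124 6 (.s k64 k66 0
  (.d k127 k107 k106 5 6))))))] (.c k169 (.l (.s k193 k129 7 (.s k149 k61 13 (.s k21 k213 7 (.s k63
  k42 6 (.s k106 k192 14 (.d k127 k64 k191 6 7))))))) .n)) (.c k169 (.l (.s k193 k129 7 (.s k149 k61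
  13 (.s k21 k213 7 (.s k63 k42 6 (.s k106 k192 14 (.d k127 k64 k191 6 7))))))) .n))))) (.c k215 (.q
  k1 [(.s k3 k2 0 (.s k169 k253 13 (.s k86 k252 14 (.d k87 k84 k171 0 13)))), (.s k65 k125 5 (.s
  k169 k253 13 (.s k41 k233 7 (.s k61 k21 5 (.d k193 k129 k149 7 13))))), (.s k3 k2 0 (.s k65 k125 5
  (.s k129 k193 7 (.s k66 k192 8 (.s k67 k64 0 (.d k195 k131 k130 7 8))))))] .n) .n)))))))))))

def t15_47 : T TT 256 :=
  (.q k63 [(.s k42 k21 6 (.s k170 k255 14 (.s k106 k234 7 (.s k64 k127 6 (.d k192 k128 k149 7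
  14))))), (.s k21 k42 6 (.s k149 k213 7 (.s k106 k192 14 (.s k127 k64 6 (.d k255 k191 k170 7
  14)))))] (.c k21 (.q k3 [(.s k1 k2 0 (.s k169 k253 13 (.s k86 k252 14 (.s k87 k84 0 (.d k255 k171
  k170 13 14))))), (.s k1 k2 0 (.s k43 k23 5 (.s k169 k253 13 (.s k106 k232 8 (.s k64 k127 6 (.d
  k192 k128 k149 7 14)))))), (.s k43 k23 5 (.s k255 k170 14 (.s k171 k87 13 (.s k107 k235 7 (.s k151
  k195 13 (.d k191 k131 k127 5 7))))))] .n) (.c k42 (.q k68 [(.s k102 k119 4 (.s k204 k136 9 (.s k51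
  k153 14 (.s k34 k17 4 (.d k170 k238 k255 9 14))))), (.s k102 k119 4 (.s k204 k136 9 (.s k110 k157
  12 (.s k106 k98 1 (.s k64 k127 6 (.d k192 k128 k149 7 14)))))), (.s k204 k136 9 (.s k110 k157 12
  (.s k255 k170 14 (.s k127 k191 7 (.s k76 k93 4 (.d k64 k106 k72 6 1)))))), (.s k119 k102 4 (.s
  k255 k170 14 (.s k127 k191 7 (.s k123 k115 1 (.s k183 k243 9 (.s k55 k247 7 (.d k51 k59 k187 1
  9)))))))] (.c k32 (.q k37 [(.s k102 k119 4 (.s k204 k136 9 (.s k51 k153 14 (.s k34 k17 4 (.d k170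
  k238 k255 9 14))))), (.s k102 k119 4 (.s k204 k136 9 (.s k110 k157 12 (.s k106 k98 1 (.s k64 k127
  6 (.d k192 k128 k149 7 14)))))), (.s k204 k136 9 (.s k110 k157 12 (.s k255 k170 14 (.s k127 k191 7
  (.s k76 k93 4 (.d k64 k106 k72 6 1)))))), (.s k119 k102 4 (.s k255 k170 14 (.s k127 k191 7 (.s
  k123 k115 1 (.s k183 k243 9 (.s k55 k247 7 (.d k51 k59 k187 1 9)))))))] .n) (.c k37 (.q k32 [(.s
  k48 k16 3 (.s k204 k136 9 (.s k100 k152 13 (.s k84 k116 3 (.d k168 k236 k252 9 13))))), (.s k48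
  k16 3 (.s k170 k255 14 (.s k101 k239 10 (.s k69 k117 3 (.d k207 k138 k154 10 14)))))] (.c k16 (.l
  (.s k102 k119 4 (.s k170 k255 14 (.s k34 k238 9 (.s k51 k17 4 (.d k204 k136 k153 9 14)))))) (.c
  k26 (.l (.s k48 k16 3 (.s k170 k255 14 (.s k101 k239 10 (.s k69 k117 3 (.d k207 k138 k154 10
  14)))))) (.c k48 (.q k26 [(.s k102 k119 4 (.s k204 k136 9 (.s k51 k153 14 (.s k34 k17 4 (.d k170
  k238 k255 9 14))))), (.s k102 k119 4 (.s k204 k136 9 (.s k110 k157 12 (.s k106 k98 1 (.s k64 k127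
  6 (.d k192 k128 k149 7 14)))))), (.s k102 k119 4 (.s k170 k255 14 (.s k101 k239 10 (.s k100 k103 0
  (.s k84 k116 3 (.d k168 k252 k236 13 9)))))), (.s k204 k136 9 (.s k110 k157 12 (.s k255 k170 14
  (.s k127 k191 7 (.s k76 k93 4 (.d k64 k106 k72 6 1))))))] .n) .n)))) .n))) (.c k64 (.q k1 [(.s k3
  k2 0 (.s k169 k253 13 (.s k86 k252 14 (.s k87 k84 0 (.d k255 k171 k170 13 14))))), (.s k3 k2 0 (.s
  k21 k42 6 (.s k23 k43 5 (.s k22 k20 0 (.d k41 k61 k60 5 6))))), (.s k21 k42 6 (.s k61 k41 5 (.s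
  k149 k213 7 (.s k105 k193 13 (.s k125 k65 5 (.d k253 k189 k169 7 13))))))] .n) (.c k106 (.f k42
  k21 6 (.q k43 [(.s k3 k23 5 (.s k2 k1 0 (.s k41 k40 0 (.d k22 k62 k60 5 6)))), (.s k3 k23 5 (.s
  k255 k170 14 (.s k171 k87 13 (.s k107 k235 7 (.s k151 k195 13 (.d k191 k131 k127 5 7)))))), (.s
  k40 k41 0 (.s k170 k255 14 (.s k105 k235 8 (.s k65 k125 5 (.s k195 k130 8 (.d k60 k20 k150 5
  14))))))] (.c k20 (.l (.s k41 k40 0 (.s k3 k23 5 (.s k22 k60 6 (.d k2 k1 k62 0 5))))) (.c k40 (.l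
  (.s k3 k23 5 (.s k1 k2 0 (.s k169 k253 13 (.s k86 k252 14 (.s k87 k84 0 (.d k255 k171 k170 13
  14))))))) (.c k165 (.q k224 [(.s k3 k23 5 (.s k2 k1 0 (.s k41 k40 0 (.d k22 k62 k60 5 6)))), (.s
  k3 k23 5 (.s k255 k170 14 (.s k171 k87 13 (.s k107 k235 7 (.s k151 k195 13 (.d k191 k131 k127 5
  7)))))), (.s k40 k41 0 (.s k170 k255 14 (.s k105 k235 8 (.s k65 k125 5 (.s k195 k130 8 (.d k60 k20
  k150 5 14))))))] (.c k20 (.l (.s k41 k40 0 (.s k3 k23 5 (.s k22 k60 6 (.d k2 k1 k62 0 5))))) (.c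
  k40 (.l (.s k3 k23 5 (.s k1 k2 0 (.s k169 k253 13 (.s k86 k252 14 (.s k87 k84 0 (.d k255 k171 k170
  13 14))))))) (.c k90 (.q k240 [(.s k3 k23 5 (.s k2 k1 0 (.s k41 k40 0 (.d k22 k62 k60 5 6)))), (.s
  k160 k80 11 (.s k96 k32 7 (.s k192 k208 3 (.s k128 k64 7 (.d k144 k176 k48 3 11)))))] (.c k74 (.l
  (.s k122 k181 10 (.s k3 k23 5 (.s k2 k1 0 (.s k22 k62 5 (.d k41 k40 k60 0 6)))))) (.c k122 (.q k74
  [(.s k3 k23 5 (.s k2 k1 0 (.s k41 k40 0 (.d k22 k62 k60 5 6)))), (.s k160 k80 11 (.s k96 k32 7 (.s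
  k192 k208 3 (.s k128 k64 7 (.d k144 k176 k48 3 11)))))] .n) .n))) (.c k240 (.q k90 [(.s k3 k23 5
  (.s k2 k1 0 (.s k41 k40 0 (.d k22 k62 k60 5 6)))), (.s k3 k23 5 (.s k255 k170 14 (.s k171 k87 13
  (.s k107 k235 7 (.s k151 k195 13 (.d k191 k131 k127 5 7)))))), (.s k40 k41 0 (.s k170 k255 14 (.s
  k105 k235 8 (.s k65 k125 5 (.s k195 k130 8 (.d k60 k20 k150 5 14))))))] (.c k20 (.l (.s k41 k40 0
  (.s k3 k23 5 (.s k22 k60 6 (.d k2 k1 k62 0 5))))) (.c k40 (.l (.s k3 k23 5 (.s k1 k2 0 (.s k169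
  k253 13 (.s k86 k252 14 (.s k87 k84 0 (.d k255 k171 k170 13 14))))))) .n))) .n))))) (.c k224 (.q
  k165 [(.s k3 k23 5 (.s k2 k1 0 (.s k41 k40 0 (.d k22 k62 k60 5 6)))), (.s k3 k23 5 (.s k255 k170
  14 (.s k171 k87 13 (.s k107 k235 7 (.s k151 k195 13 (.d k191 k131 k127 5 7)))))), (.s k40 k41 0
  (.s k170 k255 14 (.s k105 k235 8 (.s k65 k125 5 (.s k195 k130 8 (.d k60 k20 k150 5 14))))))] (.c
  k20 (.l (.s k41 k40 0 (.s k3 k23 5 (.s k22 k60 6 (.d k2 k1 k62 0 5))))) (.c k40 (.l (.s k3 k23 5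
  (.s k1 k2 0 (.s k169 k253 13 (.s k86 k252 14 (.s k87 k84 0 (.d k255 k171 k170 13 14))))))) .n)))
  .n)))))) (.c k127 (.l (.s k21 k42 6 (.s k149 k213 7 (.s k170 k255 14 (.s k128 k191 6 (.d k192 k64
  k106 7 14)))))) (.c k149 (.q k1 [(.s k3 k2 0 (.s k169 k253 13 (.s k86 k252 14 (.s k87 k84 0 (.d
  k255 k171 k170 13 14))))), (.s k3 k2 0 (.s k21 k42 6 (.s k23 k43 5 (.s k22 k20 0 (.d k41 k61 k60 5
  6))))), (.s k21 k42 6 (.s k61 k41 5 (.s k253 k169 13 (.s k189 k125 7 (.s k252 k126 8 (.d k255 k254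
  k170 0 14))))))] .n) (.c k170 (.q k1 [(.s k3 k2 0 (.s k43 k23 5 (.s k169 k253 13 (.s k106 k232 8
  (.s k64 k127 6 (.d k192 k128 k149 7 14)))))), (.s k21 k42 6 (.s k61 k41 5 (.s k149 k213 7 (.s k105
  k193 13 (.s k125 k65 5 (.d k253 k189 k169 7 13)))))), (.s k3 k2 0 (.s k21 k42 6 (.s k23 k43 5 (.s
  k22 k20 0 (.d k41 k61 k60 5 6)))))] (.c k43 (.l (.s k3 k2 0 (.s k21 k42 6 (.s k149 k213 7 (.s k169
  k253 13 (.s k129 k189 5 (.d k192 k106 k66 14 8))))))) (.c k106 (.l (.s k3 k2 0 (.s k23 k43 5 (.s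
  k169 k253 13 (.s k86 k252 14 (.s k149 k212 8 (.d k21 k42 k213 6 7))))))) .n))) (.c k192 (.f k255
  k170 14 (.f k191 k127 7 (.f k42 k21 6 (.q k68 [(.s k102 k119 4 (.s k204 k136 9 (.s k221 k238 4 (.d
  k153 k17 k51 9 14)))), (.s k204 k136 9 (.s k157 k110 12 (.s k174 k140 4 (.s k93 k12 12 (.d k221
  k238 k29 4 7))))), (.s k119 k102 4 (.s k187 k51 9 (.s k183 k179 1 (.s k243 k123 9 (.d k247 k251
  k55 1 7)))))] (.c k74 (.q k133 [(.s k102 k119 4 (.s k204 k136 9 (.s k221 k238 4 (.d k153 k17 k51 9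
  14)))), (.s k204 k136 9 (.s k157 k110 12 (.s k174 k140 4 (.s k93 k12 12 (.d k221 k238 k29 4
  7))))), (.s k119 k102 4 (.s k187 k51 9 (.s k183 k179 1 (.s k243 k123 9 (.d k247 k251 k55 1 7)))))]
  (.c k153 (.l (.s k119 k102 4 (.s k187 k51 9 (.s k204 k136 9 (.s k183 k179 1 (.s k243 k123 9 (.d
  k247 k251 k55 1 7))))))) (.c k187 (.l (.s k102 k119 4 (.s k204 k136 9 (.s k153 k51 14 (.d k221
  k238 k17 4 9))))) (.c k204 (.l (.s k119 k102 4 (.s k51 k187 9 (.s k34 k17 4 (.s k38 k46 1 (.s k25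
  k12 6 (.d k59 k55 k8 1 4))))))) (.c k238 (.l (.s k102 k119 4 (.s k204 k136 9 (.s k153 k51 14 (.s
  k157 k110 12 (.s k174 k140 4 (.s k93 k12 12 (.d k221 k29 k17 7 9)))))))) .n))))) (.c k133 (.q k74
  [(.s k102 k119 4 (.s k204 k136 9 (.s k221 k238 4 (.d k153 k17 k51 9 14)))), (.s k204 k136 9 (.s
  k157 k110 12 (.s k174 k140 4 (.s k93 k12 12 (.d k221 k238 k29 4 7))))), (.s k119 k102 4 (.s k187
  k51 9 (.s k183 k179 1 (.s k243 k123 9 (.d k247 k251 k55 1 7)))))] (.c k153 (.l (.s k119 k102 4 (.s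
  k187 k51 9 (.s k204 k136 9 (.s k183 k179 1 (.s k243 k123 9 (.d k247 k251 k55 1 7))))))) (.c k187
  (.l (.s k102 k119 4 (.s k204 k136 9 (.s k153 k51 14 (.d k221 k238 k17 4 9))))) (.c k204 (.l (.s
  k119 k102 4 (.s k51 k187 9 (.s k34 k17 4 (.s k38 k46 1 (.s k25 k12 6 (.d k59 k55 k8 1 4))))))) (.c
  k238 (.l (.s k102 k119 4 (.s k204 k136 9 (.s k153 k51 14 (.s k157 k110 12 (.s k174 k140 4 (.s k93
  k12 12 (.d k221 k29 k17 7 9)))))))) .n))))) (.c k153 (.l (.s k119 k102 4 (.s k187 k51 9 (.s k204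
  k136 9 (.s k183 k179 1 (.s k243 k123 9 (.d k247 k251 k55 1 7))))))) (.c k187 (.l (.s k102 k119 4
  (.s k204 k136 9 (.s k153 k51 14 (.d k221 k238 k17 4 9))))) (.c k204 (.l (.s k119 k102 4 (.s k51
  k187 9 (.s k34 k17 4 (.s k38 k46 1 (.s k25 k12 6 (.d k59 k55 k8 1 4))))))) (.c k238 (.l (.s k102
  k119 4 (.s k204 k136 9 (.s k153 k51 14 (.s k157 k110 12 (.s k174 k140 4 (.s k93 k12 12 (.d k221
  k29 k17 7 9)))))))) .n)))))))))) (.c k213 (.l (.s k42 k21 6 (.s k170 k255 14 (.s k106 k234 7 (.s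
  k192 k149 14 (.d k64 k127 k128 6 7)))))) (.c k234 (.l (.s k21 k42 6 (.s k149 k213 7 (.s k106 k192
  14 (.s k255 k170 14 (.d k127 k64 k191 6 7)))))) (.c k255 (.q k1 [(.s k3 k2 0 (.s k43 k23 5 (.s
  k169 k253 13 (.s k106 k232 8 (.s k64 k127 6 (.d k192 k128 k149 7 14)))))), (.s k3 k2 0 (.s k21 k42
  6 (.s k23 k43 5 (.s k22 k20 0 (.d k41 k61 k60 5 6))))), (.s k21 k42 6 (.s k61 k41 5 (.s k149 k213
  7 (.s k105 k193 13 (.s k125 k65 5 (.d k253 k189 k169 7 13))))))] (.c k43 (.l (.s k3 k2 0 (.s k21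
  k42 6 (.s k149 k213 7 (.s k169 k253 13 (.s k129 k189 5 (.d k192 k66 k106 8 14))))))) (.c k95 (.q
  k175 [(.s k3 k2 0 (.s k21 k42 6 (.s k23 k43 5 (.s k22 k20 0 (.d k41 k61 k60 5 6))))), (.s k3 k2 0
  (.s k43 k23 5 (.s k169 k253 13 (.s k106 k232 8 (.s k64 k127 6 (.d k192 k128 k149 7 14)))))), (.s
  k21 k42 6 (.s k61 k41 5 (.s k149 k213 7 (.s k105 k193 13 (.s k125 k65 5 (.d k253 k189 k169 7
  13))))))] (.c k43 (.l (.s k3 k2 0 (.s k21 k42 6 (.s k149 k213 7 (.s k169 k253 13 (.s k129 k189 5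
  (.d k192 k66 k106 8 14))))))) .n)) (.c k175 (.q k95 [(.s k3 k2 0 (.s k43 k23 5 (.s k169 k253 13
  (.s k106 k232 8 (.s k64 k127 6 (.d k192 k128 k149 7 14)))))), (.s k3 k2 0 (.s k21 k42 6 (.s k23
  k43 5 (.s k22 k20 0 (.d k41 k61 k60 5 6))))), (.s k21 k42 6 (.s k61 k41 5 (.s k149 k213 7 (.s k105
  k193 13 (.s k125 k65 5 (.d k253 k189 k169 7 13))))))] (.c k43 (.l (.s k3 k2 0 (.s k21 k42 6 (.s
  k149 k213 7 (.s k169 k253 13 (.s k129 k189 5 (.d k192 k66 k106 8 14))))))) (.c k111 (.q k239 [(.s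
  k3 k2 0 (.s k43 k23 5 (.s k169 k253 13 (.s k106 k232 8 (.s k64 k127 6 (.d k192 k128 k149 7
  14)))))), (.s k3 k2 0 (.s k21 k42 6 (.s k23 k43 5 (.s k22 k20 0 (.d k41 k61 k60 5 6))))), (.s k21
  k42 6 (.s k61 k41 5 (.s k149 k213 7 (.s k105 k193 13 (.s k125 k65 5 (.d k253 k189 k169 7 13))))))]
  (.c k43 (.l (.s k3 k2 0 (.s k21 k42 6 (.s k149 k213 7 (.s k169 k253 13 (.s k129 k189 5 (.d k192
  k66 k106 8 14))))))) .n)) (.c k239 (.q k111 [(.s k21 k42 6 (.s k127 k79 3 (.s k149 k213 7 (.d k106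
  k192 k64 14 6)))), (.s k3 k2 0 (.s k21 k42 6 (.s k23 k43 5 (.s k22 k20 0 (.d k41 k61 k60 5 6))))),
  (.s k3 k2 0 (.s k43 k23 5 (.s k127 k79 3 (.s k106 k64 6 (.d k169 k232 k253 8 13)))))] (.c k207 (.q
  k223 [(.s k21 k42 6 (.s k31 k159 7 (.d k16 k26 k154 2 10))), (.s k3 k2 0 (.s k43 k23 5 (.s k169
  k253 13 (.s k106 k232 8 (.d k127 k79 k64 3 6)))))] (.c k79 (.q k143 [(.s k21 k42 6 (.s k31 k159 7
  (.d k16 k26 k154 2 10))), (.s k3 k2 0 (.s k21 k42 6 (.s k23 k43 5 (.s k22 k20 0 (.d k41 k61 k60 5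
  6))))), (.s k31 k159 7 (.s k90 k80 2 (.s k154 k16 10 (.s k208 k149 10 (.d k218 k213 k26 2 7)))))]
  .n) (.c k143 (.l (.s k79 k127 3 (.s k16 k154 10 (.s k21 k42 6 (.d k31 k26 k159 2 7))))) .n))) (.c
  k223 (.l (.s k207 k159 11 (.s k21 k42 6 (.s k127 k79 3 (.s k106 k64 6 (.d k149 k213 k192 7
  14)))))) .n))) .n)))) .n)))) .n))))))))))))

def t15_54 : T TT 256 :=
  (.f k255 k170 14 (.q k102 [(.s k68 k119 4 (.s k204 k136 9 (.s k221 k238 4 (.d k153 k17 k51 9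
  14))))] (.c k17 (.q k1 [(.s k3 k2 0 (.s k87 k171 13 (.s k86 k84 0 (.d k169 k253 k252 13 14)))),
  (.s k68 k119 4 (.s k169 k253 13 (.s k204 k136 9 (.s k153 k51 14 (.s k137 k185 3 (.s k69 k205 9 (.d
  k70 k71 k3 0 10))))))), (.s k3 k2 0 (.s k68 k119 4 (.s k204 k136 9 (.s k70 k137 10 (.s k86 k118 3
  (.d k87 k84 k171 0 13))))))] (.c k3 (.l (.s k68 k119 4 (.s k204 k136 9 (.s k221 k238 4 (.s k253
  k169 13 (.s k205 k237 3 (.s k69 k137 9 (.d k207 k138 k206 10 0)))))))) .n)) (.c k51 (.f k68 k119 4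
  (.q k60 [(.s k20 k40 5 (.s k125 k190 8 (.s k105 k65 5 (.d k150 k215 k195 8 14)))), (.s k204 k136 9
  (.s k156 k108 11 (.s k221 k238 4 (.s k153 k17 9 (.s k150 k147 2 (.d k20 k40 k215 5 8)))))), (.s
  k204 k136 9 (.s k108 k156 11 (.s k105 k99 2 (.d k125 k65 k190 5 8))))] (.c k27 (.q k39 [(.s k20
  k40 5 (.s k125 k190 8 (.s k105 k65 5 (.d k150 k215 k195 8 14)))), (.s k165 k228 8 (.s k245 k5 11
  (.s k240 k250 2 (.s k180 k120 9 (.s k150 k135 4 (.d k20 k40 k215 5 8)))))), (.s k204 k136 9 (.s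
  k108 k156 11 (.s k105 k99 2 (.d k125 k65 k190 5 8))))] (.c k195 (.l (.s k125 k190 8 (.s k105 k65 5
  (.s k204 k136 9 (.d k108 k99 k156 2 11))))) .n)) (.c k39 (.q k27 [(.s k20 k40 5 (.s k125 k190 8
  (.s k105 k65 5 (.d k150 k215 k195 8 14)))), (.s k204 k136 9 (.s k156 k108 11 (.s k221 k238 4 (.s
  k153 k17 9 (.s k150 k147 2 (.d k20 k40 k215 5 8)))))), (.s k204 k136 9 (.s k108 k156 11 (.s k105
  k99 2 (.d k125 k65 k190 5 8))))] (.c k195 (.l (.s k125 k190 8 (.s k105 k65 5 (.s k204 k136 9 (.d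
  k108 k99 k156 2 11))))) .n)) (.c k195 (.l (.s k125 k190 8 (.s k105 k65 5 (.s k204 k136 9 (.d k108
  k99 k156 2 11))))) .n))))) (.c k68 (.q k4 [(.s k12 k8 1 (.s k93 k174 12 (.s k89 k81 1 (.d k166
  k247 k243 12 14)))), (.s k166 k247 12 (.s k38 k230 7 (.s k21 k55 4 (.s k63 k42 6 (.s k127 k191 7
  (.s k106 k64 6 (.d k149 k213 k192 7 14)))))))] (.c k166 (.f k12 k8 1 (.q k89 [(.d k93 k174 k81 12
  1), (.s k76 k115 6 (.s k204 k140 7 (.s k153 k51 14 (.d k221 k238 k17 4 9))))] (.c k162 (.l (.s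
  k174 k93 12 (.s k76 k115 6 (.s k204 k140 7 (.s k153 k51 14 (.d k221 k238 k17 4 9)))))) (.c k174
  (.q k162 [(.d k81 k93 k243 1 12), (.s k76 k115 6 (.s k204 k140 7 (.s k221 k238 4 (.d k153 k17 k51
  9 14))))] .n) .n)))) (.c k247 (.l (.s k12 k8 1 (.s k93 k174 12 (.s k89 k81 1 (.s k76 k115 6 (.s
  k204 k140 7 (.s k153 k51 14 (.d k221 k238 k17 4 9)))))))) .n))) (.c k119 (.q k93 [(.s k12 k174 12
  (.s k4 k8 1 (.s k89 k81 1 (.d k166 k247 k243 12 14)))), (.s k89 k81 1 (.s k76 k115 6 (.s k127 k110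
  4 (.s k63 k191 7 (.s k21 k42 6 (.s k149 k213 7 (.d k106 k64 k192 6 14)))))))] (.c k81 (.l (.s k12
  k174 12 (.s k4 k8 1 (.s k166 k247 12 (.s k38 k230 7 (.s k51 k25 6 (.s k17 k34 4 (.d k153 k221 k204
  9 14)))))))) (.c k89 (.f k12 k174 12 (.q k166 [(.d k4 k8 k247 1 12), (.s k38 k230 7 (.s k51 k25 6
  (.s k17 k34 4 (.d k153 k221 k204 9 14))))] (.c k8 (.q k251 [(.d k247 k243 k4 1 12), (.s k38 k230 7
  (.s k51 k25 6 (.s k17 k34 4 (.d k153 k221 k204 9 14))))] .n) (.c k251 (.l (.s k8 k4 1 (.s k38 k230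
  7 (.s k51 k25 6 (.s k17 k34 4 (.d k153 k221 k204 9 14)))))) .n)))) .n))) (.c k136 (.l (.s k119 k68
  4 (.s k51 k187 9 (.s k153 k204 14 (.d k17 k34 k221 4 9))))) (.c k153 (.f k68 k119 4 (.q k64 [(.s
  k76 k72 1 (.s k89 k115 6 (.s k93 k81 1 (.d k127 k110 k106 4 6)))), (.s k72 k76 1 (.s k136 k204 9
  (.s k192 k128 7 (.s k12 k132 9 (.d k8 k4 k200 1 7))))), (.s k106 k127 6 (.s k192 k128 7 (.s k149
  k63 14 (.d k213 k234 k21 6 7))))] (.c k136 (.q k187 [(.s k106 k127 6 (.s k98 k110 1 (.s k115 k81 4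
  (.d k76 k72 k89 1 6)))), (.s k72 k76 1 (.s k192 k128 7 (.s k132 k12 9 (.s k196 k4 7 (.s k149 k55
  12 (.d k213 k21 k234 7 6)))))), (.s k106 k127 6 (.s k192 k128 7 (.s k149 k63 14 (.d k213 k234 k21
  6 7))))] .n) (.c k187 (.l (.s k136 k204 9 (.s k72 k76 1 (.s k8 k200 7 (.s k12 k4 1 (.d k192 k128
  k132 7 9)))))) .n)))) (.c k187 (.l (.s k68 k119 4 (.s k204 k136 9 (.s k153 k51 14 (.d k221 k238
  k17 4 9))))) (.c k204 (.f k68 k119 4 (.q k84 [(.s k252 k168 13 (.s k253 k254 0 (.s k169 k1 13 (.d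
  k86 k87 k3 0 14)))), (.s k100 k116 3 (.s k101 k103 0 (.s k117 k69 3 (.s k48 k186 10 (.s k16 k32 3
  (.d k154 k223 k207 10 14))))))] (.c k78 (.q k141 [(.s k252 k168 13 (.s k253 k254 0 (.s k169 k1 13
  (.d k86 k87 k3 0 14)))), (.s k100 k116 3 (.s k101 k103 0 (.s k117 k69 3 (.s k48 k186 10 (.s k16
  k32 3 (.d k154 k223 k207 10 14))))))] (.c k87 (.l (.s k116 k100 3 (.s k252 k168 13 (.s k48 k184 9
  (.s k117 k186 10 (.s k101 k69 3 (.s k154 k207 14 (.d k16 k32 k223 3 10)))))))) .n)) (.c k87 (.l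
  (.s k116 k100 3 (.s k252 k168 13 (.s k48 k184 9 (.s k117 k186 10 (.s k101 k69 3 (.s k154 k207 14
  (.d k16 k32 k223 3 10)))))))) (.c k141 (.q k78 [(.s k252 k168 13 (.s k253 k254 0 (.s k169 k1 13
  (.d k86 k87 k3 0 14)))), (.s k90 k114 5 (.s k80 k95 2 (.s k88 k92 1 (.s k100 k116 3 (.s k76 k112 5
  (.d k89 k115 k91 6 0))))))] .n) .n))))) (.c k221 (.q k1 [(.s k3 k2 0 (.s k87 k171 13 (.s k86 k84 0
  (.d k169 k253 k252 13 14)))), (.s k68 k119 4 (.s k169 k253 13 (.s k204 k136 9 (.s k153 k51 14 (.s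
  k137 k185 3 (.s k70 k3 10 (.d k69 k205 k71 9 0))))))), (.s k3 k2 0 (.s k68 k119 4 (.s k204 k136 9
  (.s k70 k137 10 (.s k86 k118 3 (.d k87 k84 k171 0 13))))))] (.c k3 (.l (.s k119 k68 4 (.s k51 k187
  9 (.s k17 k34 4 (.s k49 k33 3 (.s k48 k50 0 (.s k117 k186 10 (.d k253 k185 k169 9 13)))))))) .n))
  (.c k238 (.l (.s k119 k68 4 (.s k51 k187 9 (.s k17 k34 4 (.d k153 k221 k204 9 14)))))
  .n))))))))))))

def t15_55 : T TT 256 :=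
  (.f k255 k170 14 (.q k105 [(.s k65 k125 5 (.s k195 k130 8 (.s k215 k235 5 (.d k150 k20 k60 8
  14))))] (.c k20 (.q k1 [(.s k3 k2 0 (.s k87 k171 13 (.s k169 k253 13 (.d k86 k84 k252 0 14)))),
  (.s k65 k125 5 (.s k169 k253 13 (.s k41 k233 7 (.s k61 k21 5 (.d k193 k129 k149 7 13))))), (.s k3
  k2 0 (.s k65 k125 5 (.s k129 k193 7 (.s k66 k192 8 (.s k67 k64 0 (.d k195 k131 k130 7 8))))))] .n)
  (.c k60 (.f k65 k125 5 (.q k171 [(.s k3 k87 13 (.s k1 k2 0 (.s k129 k193 7 (.s k130 k195 8 (.s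
  k128 k131 0 (.d k192 k64 k66 7 8)))))), (.s k195 k130 8 (.s k235 k215 5 (.s k107 k43 7 (.s k106
  k104 0 (.s k127 k64 6 (.d k63 k191 k151 7 13)))))), (.s k3 k87 13 (.s k1 k2 0 (.s k169 k253 13 (.s
  k41 k233 7 (.s k61 k21 5 (.d k193 k129 k149 7 13))))))] (.c k30 (.q k45 [(.s k3 k87 13 (.s k1 k2 0
  (.s k129 k193 7 (.s k130 k195 8 (.s k128 k131 0 (.d k192 k64 k66 7 8)))))), (.s k195 k130 8 (.s
  k235 k215 5 (.s k107 k43 7 (.s k106 k104 0 (.s k127 k64 6 (.d k63 k191 k151 7 13)))))), (.s k3 k87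
  13 (.s k1 k2 0 (.s k169 k253 13 (.s k41 k233 7 (.s k61 k21 5 (.d k193 k129 k149 7 13))))))] .n)
  (.c k45 (.q k30 [(.s k3 k87 13 (.s k1 k2 0 (.s k129 k193 7 (.s k130 k195 8 (.s k128 k131 0 (.d
  k192 k64 k66 7 8)))))), (.s k195 k130 8 (.s k235 k215 5 (.s k107 k43 7 (.s k106 k104 0 (.s k127
  k64 6 (.d k63 k191 k151 7 13)))))), (.s k3 k87 13 (.s k1 k2 0 (.s k169 k253 13 (.s k41 k233 7 (.s
  k61 k21 5 (.d k193 k129 k149 7 13))))))] .n) .n)))) (.c k65 (.q k1 [(.s k3 k2 0 (.s k87 k171 13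
  (.s k86 k84 0 (.d k169 k253 k252 13 14)))), (.s k169 k253 13 (.s k41 k233 7 (.s k21 k61 5 (.s k63
  k42 6 (.s k127 k191 7 (.s k106 k64 6 (.d k149 k213 k192 7 14)))))))] (.c k169 (.f k3 k2 0 (.q k86
  [(.d k87 k171 k84 13 0), (.s k67 k124 6 (.s k195 k131 7 (.s k150 k60 14 (.d k215 k235 k20 5 8))))]
  (.c k168 (.l (.s k171 k87 13 (.s k67 k124 6 (.s k195 k131 7 (.s k150 k60 14 (.d k215 k235 k20 5
  8)))))) (.c k171 (.q k168 [(.d k84 k87 k252 0 13), (.s k67 k124 6 (.s k195 k131 7 (.s k215 k235 5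
  (.d k150 k20 k60 8 14))))] .n) .n)))) (.c k253 (.l (.s k3 k2 0 (.s k87 k171 13 (.s k86 k84 0 (.s
  k67 k124 6 (.s k195 k131 7 (.s k150 k60 14 (.d k215 k235 k20 5 8)))))))) .n))) (.c k125 (.q k253
  [(.s k169 k1 13 (.s k252 k254 0 (.s k84 k168 13 (.d k86 k87 k3 0 14)))), (.s k169 k1 13 (.s k233
  k41 7 (.s k213 k193 5 (.s k192 k234 6 (.s k64 k128 7 (.s k106 k127 6 (.d k149 k21 k63 7 14)))))))]
  (.c k1 (.l (.s k252 k254 0 (.s k84 k168 13 (.s k86 k87 0 (.s k124 k67 6 (.s k60 k188 7 (.s k20 k40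
  5 (.d k150 k215 k195 8 14)))))))) (.c k169 (.f k252 k254 0 (.q k86 [(.d k84 k168 k87 13 0), (.s
  k124 k67 6 (.s k60 k188 7 (.s k20 k40 5 (.d k150 k215 k195 8 14))))] (.c k168 (.q k171 [(.d k87
  k84 k3 0 13), (.s k124 k67 6 (.s k60 k188 7 (.s k20 k40 5 (.d k150 k215 k195 8 14))))] .n) (.c
  k171 (.l (.s k168 k84 13 (.s k124 k67 6 (.s k60 k188 7 (.s k20 k40 5 (.d k150 k215 k195 8 14))))))
  .n)))) .n))) (.c k130 (.l (.s k125 k65 5 (.s k60 k190 8 (.s k150 k195 14 (.d k20 k40 k215 5 8)))))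
  (.c k150 (.f k65 k125 5 (.q k193 [(.s k1 k129 7 (.s k149 k61 13 (.s k213 k21 7 (.d k253 k233 k169
  5 13)))), (.s k1 k129 7 (.s k3 k2 0 (.s k87 k171 13 (.s k86 k84 0 (.s k67 k124 6 (.d k195 k130
  k131 8 7)))))), (.s k149 k61 13 (.s k21 k213 7 (.s k63 k42 6 (.s k106 k192 14 (.d k127 k64 k191 6
  7)))))] (.c k130 (.q k190 [(.s k149 k61 13 (.s k213 k21 7 (.s k253 k233 5 (.d k1 k129 k169 7
  13)))), (.s k1 k129 7 (.s k3 k2 0 (.s k87 k171 13 (.s k86 k84 0 (.d k169 k253 k252 13 14))))), (.s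
  k149 k61 13 (.s k21 k213 7 (.s k63 k42 6 (.s k106 k192 14 (.d k127 k64 k191 6 7)))))] (.c k253 (.l
  (.s k129 k1 7 (.s k149 k61 13 (.s k189 k169 5 (.s k21 k213 7 (.s k63 k42 6 (.d k191 k188 k127 0
  7))))))) .n)) (.c k190 (.l (.s k130 k195 8 (.s k1 k129 7 (.s k61 k149 13 (.s k41 k21 5 (.d k169
  k233 k253 7 13)))))) .n)))) (.c k190 (.l (.s k65 k125 5 (.s k195 k130 8 (.s k150 k60 14 (.d k215
  k235 k20 5 8))))) (.c k195 (.f k65 k125 5 (.q k1 [(.s k3 k2 0 (.s k87 k171 13 (.s k86 k84 0 (.d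
  k169 k253 k252 13 14)))), (.s k193 k129 7 (.s k149 k61 13 (.s k21 k213 7 (.s k63 k42 6 (.s k106
  k192 14 (.d k127 k64 k191 6 7))))))] (.c k3 (.l (.s k169 k253 13 (.s k41 k233 7 (.s k61 k21 5 (.d
  k193 k129 k149 7 13))))) (.c k75 (.q k135 [(.s k3 k2 0 (.s k87 k171 13 (.s k86 k84 0 (.d k169 k253
  k252 13 14)))), (.s k193 k129 7 (.s k149 k61 13 (.s k21 k213 7 (.s k63 k42 6 (.s k106 k192 14 (.d
  k127 k64 k191 6 7))))))] (.c k3 (.l (.s k169 k253 13 (.s k41 k233 7 (.s k61 k21 5 (.d k193 k129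
  k149 7 13))))) (.c k253 (.l (.s k3 k2 0 (.s k87 k171 13 (.s k86 k84 0 (.s k67 k124 6 (.s k64 k66 0
  (.d k127 k107 k106 5 6))))))) .n))) (.c k135 (.q k75 [(.s k3 k2 0 (.s k87 k171 13 (.s k86 k84 0
  (.d k169 k253 k252 13 14)))), (.s k193 k129 7 (.s k149 k61 13 (.s k21 k213 7 (.s k63 k42 6 (.s
  k106 k192 14 (.d k127 k64 k191 6 7))))))] (.c k3 (.l (.s k169 k253 13 (.s k41 k233 7 (.s k61 k21 5
  (.d k193 k129 k149 7 13))))) (.c k253 (.l (.s k3 k2 0 (.s k87 k171 13 (.s k86 k84 0 (.s k67 k124 6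
  (.s k64 k66 0 (.d k127 k107 k106 5 6))))))) .n))) (.c k253 (.l (.s k3 k2 0 (.s k87 k171 13 (.s k86
  k84 0 (.s k67 k124 6 (.s k64 k66 0 (.d k127 k107 k106 5 6))))))) .n)))))) (.c k215 (.q k1 [(.s k3
  k2 0 (.s k87 k171 13 (.s k86 k84 0 (.d k169 k253 k252 13 14)))), (.s k65 k125 5 (.s k169 k253 13
  (.s k41 k233 7 (.s k61 k21 5 (.d k193 k129 k149 7 13))))), (.s k3 k2 0 (.s k65 k125 5 (.s k129
  k193 7 (.s k66 k192 8 (.s k67 k64 0 (.d k195 k131 k130 7 8))))))] .n) (.c k235 (.l (.s k125 k65 5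
  (.s k60 k190 8 (.s k20 k40 5 (.d k150 k215 k195 8 14))))) .n))))))))))))

def t15_58 : T TT 256 :=
  (.f k255 k170 14 (.q k105 [(.s k65 k125 5 (.s k195 k130 8 (.s k215 k235 5 (.d k150 k20 k60 8
  14))))] (.c k20 (.q k1 [(.s k3 k2 0 (.s k87 k171 13 (.s k169 k253 13 (.d k86 k84 k252 0 14)))),
  (.s k65 k125 5 (.s k169 k253 13 (.s k41 k233 7 (.s k61 k21 5 (.d k193 k129 k149 7 13))))), (.s k3
  k2 0 (.s k65 k125 5 (.s k129 k193 7 (.s k66 k192 8 (.s k67 k64 0 (.d k195 k131 k130 7 8))))))] .n)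
  (.c k60 (.f k65 k125 5 (.q k171 [(.s k3 k87 13 (.s k1 k2 0 (.s k169 k253 13 (.s k41 k233 7 (.s k61
  k21 5 (.d k193 k129 k149 7 13)))))), (.s k195 k130 8 (.s k235 k215 5 (.s k107 k43 7 (.s k106 k104
  0 (.s k127 k64 6 (.d k63 k191 k151 7 13))))))] (.c k30 (.q k45 [(.s k3 k87 13 (.s k1 k2 0 (.s k169
  k253 13 (.s k41 k233 7 (.s k61 k21 5 (.d k193 k129 k149 7 13)))))), (.s k195 k130 8 (.s k235 k215
  5 (.s k107 k43 7 (.s k106 k104 0 (.s k127 k64 6 (.d k63 k191 k151 7 13))))))] .n) (.c k45 (.q k30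
  [(.s k3 k87 13 (.s k1 k2 0 (.s k169 k253 13 (.s k41 k233 7 (.s k61 k21 5 (.d k193 k129 k149 7
  13)))))), (.s k195 k130 8 (.s k235 k215 5 (.s k107 k43 7 (.s k106 k104 0 (.s k127 k64 6 (.d k63
  k191 k151 7 13))))))] .n) .n)))) (.c k65 (.q k1 [(.s k3 k2 0 (.s k87 k171 13 (.s k86 k84 0 (.d
  k169 k253 k252 13 14)))), (.s k169 k253 13 (.s k41 k233 7 (.s k21 k61 5 (.s k63 k42 6 (.s k127
  k191 7 (.s k106 k64 6 (.d k149 k213 k192 7 14)))))))] (.c k169 (.f k3 k2 0 (.q k86 [(.d k87 k171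
  k84 13 0), (.s k67 k124 6 (.s k195 k131 7 (.s k150 k60 14 (.d k215 k235 k20 5 8))))] (.c k168 (.l
  (.s k171 k87 13 (.s k67 k124 6 (.s k195 k131 7 (.s k150 k60 14 (.d k215 k235 k20 5 8)))))) (.c
  k171 (.q k168 [(.d k84 k87 k252 0 13), (.s k67 k124 6 (.s k195 k131 7 (.s k215 k235 5 (.d k150 k20
  k60 8 14))))] .n) .n)))) (.c k253 (.l (.s k3 k2 0 (.s k87 k171 13 (.s k86 k84 0 (.s k67 k124 6 (.s
  k195 k131 7 (.s k150 k60 14 (.d k215 k235 k20 5 8)))))))) .n))) (.c k125 (.q k253 [(.s k169 k1 13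
  (.s k252 k254 0 (.s k84 k168 13 (.d k86 k87 k3 0 14)))), (.s k169 k1 13 (.s k233 k41 7 (.s k213
  k193 5 (.s k192 k234 6 (.s k64 k128 7 (.s k106 k127 6 (.d k149 k21 k63 7 14)))))))] (.c k1 (.l (.s
  k252 k254 0 (.s k84 k168 13 (.s k86 k87 0 (.s k124 k67 6 (.s k60 k188 7 (.s k20 k40 5 (.d k150
  k215 k195 8 14)))))))) (.c k169 (.f k252 k254 0 (.q k86 [(.d k84 k168 k87 13 0), (.s k124 k67 6
  (.s k60 k188 7 (.s k20 k40 5 (.d k150 k215 k195 8 14))))] (.c k168 (.q k171 [(.d k87 k84 k3 0 13),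
  (.s k124 k67 6 (.s k60 k188 7 (.s k20 k40 5 (.d k150 k215 k195 8 14))))] .n) (.c k171 (.l (.s k168
  k84 13 (.s k124 k67 6 (.s k60 k188 7 (.s k20 k40 5 (.d k150 k215 k195 8 14)))))) .n)))) .n))) (.c
  k130 (.l (.s k125 k65 5 (.s k60 k190 8 (.s k150 k195 14 (.d k20 k40 k215 5 8))))) (.c k150 (.f k65
  k125 5 (.q k101 [(.s k69 k117 3 (.s k77 k73 1 (.s k97 k109 1 (.d k113 k81 k89 3 5)))), (.s k69
  k117 3 (.s k207 k138 10 (.s k154 k48 14 (.d k223 k239 k16 3 10)))), (.s k97 k109 1 (.s k117 k69 3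
  (.s k48 k186 10 (.d k195 k130 k146 8 12))))] (.c k69 (.l (.s k97 k109 1 (.s k81 k113 3 (.s k162
  k243 12 (.s k32 k227 8 (.s k48 k16 3 (.d k195 k130 k146 8 12))))))) (.c k117 (.l (.s k97 k109 1
  (.s k113 k81 3 (.s k77 k89 5 (.s k69 k73 1 (.s k207 k138 10 (.s k154 k48 14 (.d k223 k239 k16 3
  10)))))))) (.c k130 (.q k190 [(.s k69 k117 3 (.s k77 k73 1 (.s k97 k109 1 (.d k113 k81 k89 3
  5)))), (.s k117 k69 3 (.s k48 k186 10 (.s k16 k32 3 (.d k154 k223 k207 10 14))))] (.c k69 (.l (.s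
  k97 k109 1 (.s k81 k113 3 (.s k243 k162 12 (.s k247 k251 1 (.s k166 k4 12 (.d k89 k93 k12 1
  14))))))) (.c k117 (.l (.s k97 k109 1 (.s k113 k81 3 (.s k77 k89 5 (.s k69 k73 1 (.s k207 k138 10
  (.s k154 k48 14 (.d k223 k239 k16 3 10)))))))) .n))) (.c k190 (.l (.s k130 k195 8 (.s k69 k117 3
  (.s k77 k73 1 (.s k97 k109 1 (.d k113 k81 k89 3 5)))))) .n)))))) (.c k190 (.l (.s k65 k125 5 (.s
  k195 k130 8 (.s k150 k60 14 (.d k215 k235 k20 5 8))))) (.c k195 (.f k65 k125 5 (.q k1 [(.s k3 k2 0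
  (.s k87 k171 13 (.s k86 k84 0 (.d k169 k253 k252 13 14)))), (.s k193 k129 7 (.s k149 k61 13 (.s
  k21 k213 7 (.s k63 k42 6 (.s k106 k192 14 (.d k127 k64 k191 6 7))))))] (.c k3 (.l (.s k169 k253 13
  (.s k41 k233 7 (.s k61 k21 5 (.d k193 k129 k149 7 13))))) (.c k75 (.q k135 [(.s k3 k2 0 (.s k87
  k171 13 (.s k86 k84 0 (.d k169 k253 k252 13 14)))), (.s k193 k129 7 (.s k149 k61 13 (.s k21 k213 7
  (.s k63 k42 6 (.s k106 k192 14 (.d k127 k64 k191 6 7))))))] (.c k3 (.l (.s k169 k253 13 (.s k41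
  k233 7 (.s k61 k21 5 (.d k193 k129 k149 7 13))))) (.c k253 (.l (.s k3 k2 0 (.s k87 k171 13 (.s k86
  k84 0 (.s k67 k124 6 (.s k64 k66 0 (.d k127 k107 k106 5 6))))))) .n))) (.c k135 (.q k75 [(.s k3 k2
  0 (.s k87 k171 13 (.s k86 k84 0 (.d k169 k253 k252 13 14)))), (.s k193 k129 7 (.s k149 k61 13 (.s
  k21 k213 7 (.s k63 k42 6 (.s k106 k192 14 (.d k127 k64 k191 6 7))))))] (.c k3 (.l (.s k169 k253 13
  (.s k41 k233 7 (.s k61 k21 5 (.d k193 k129 k149 7 13))))) (.c k253 (.l (.s k3 k2 0 (.s k87 k171 13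
  (.s k86 k84 0 (.s k67 k124 6 (.s k64 k66 0 (.d k127 k107 k106 5 6))))))) .n))) (.c k253 (.l (.s k3
  k2 0 (.s k87 k171 13 (.s k86 k84 0 (.s k67 k124 6 (.s k64 k66 0 (.d k127 k107 k106 5 6)))))))
  .n)))))) (.c k215 (.q k1 [(.s k3 k2 0 (.s k87 k171 13 (.s k86 k84 0 (.d k169 k253 k252 13 14)))),
  (.s k65 k125 5 (.s k169 k253 13 (.s k41 k233 7 (.s k61 k21 5 (.d k193 k129 k149 7 13))))), (.s k3
  k2 0 (.s k65 k125 5 (.s k129 k193 7 (.s k66 k192 8 (.s k67 k64 0 (.d k195 k131 k130 7 8))))))] .n)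
  (.c k235 (.l (.s k125 k65 5 (.s k60 k190 8 (.s k20 k40 5 (.d k150 k215 k195 8 14)))))
  .n))))))))))))

def t15_59 : T TT 256 :=
  (.f k255 k170 14 (.q k105 [(.s k65 k125 5 (.s k195 k130 8 (.s k215 k235 5 (.d k150 k20 k60 8
  14))))] (.c k20 (.q k1 [(.s k3 k2 0 (.s k87 k171 13 (.s k169 k253 13 (.d k86 k84 k252 0 14)))),
  (.s k65 k125 5 (.s k169 k253 13 (.s k41 k233 7 (.s k61 k21 5 (.d k193 k129 k149 7 13))))), (.s k3
  k2 0 (.s k65 k125 5 (.s k129 k193 7 (.s k66 k192 8 (.s k67 k64 0 (.d k195 k131 k130 7 8))))))] .n)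
  (.c k60 (.f k65 k125 5 (.q k171 [(.s k3 k87 13 (.s k1 k2 0 (.s k169 k253 13 (.s k41 k233 7 (.s k61
  k21 5 (.d k193 k129 k149 7 13)))))), (.s k195 k130 8 (.s k235 k215 5 (.s k107 k43 7 (.s k106 k104
  0 (.s k127 k64 6 (.d k63 k191 k151 7 13))))))] (.c k30 (.q k45 [(.s k3 k87 13 (.s k1 k2 0 (.s k169
  k253 13 (.s k41 k233 7 (.s k61 k21 5 (.d k193 k129 k149 7 13)))))), (.s k195 k130 8 (.s k235 k215
  5 (.s k107 k43 7 (.s k106 k104 0 (.s k127 k64 6 (.d k63 k191 k151 7 13))))))] .n) (.c k45 (.q k30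
  [(.s k3 k87 13 (.s k1 k2 0 (.s k169 k253 13 (.s k41 k233 7 (.s k61 k21 5 (.d k193 k129 k149 7
  13)))))), (.s k195 k130 8 (.s k235 k215 5 (.s k107 k43 7 (.s k106 k104 0 (.s k127 k64 6 (.d k63
  k191 k151 7 13))))))] .n) .n)))) (.c k65 (.q k1 [(.s k3 k2 0 (.s k87 k171 13 (.s k86 k84 0 (.d
  k169 k253 k252 13 14)))), (.s k169 k253 13 (.s k41 k233 7 (.s k21 k61 5 (.s k63 k42 6 (.s k127
  k191 7 (.s k106 k64 6 (.d k149 k213 k192 7 14)))))))] (.c k169 (.f k3 k2 0 (.q k86 [(.d k87 k171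
  k84 13 0), (.s k67 k124 6 (.s k195 k131 7 (.s k150 k60 14 (.d k215 k235 k20 5 8))))] (.c k168 (.l
  (.s k171 k87 13 (.s k67 k124 6 (.s k195 k131 7 (.s k150 k60 14 (.d k215 k235 k20 5 8)))))) (.c
  k171 (.q k168 [(.d k84 k87 k252 0 13), (.s k67 k124 6 (.s k195 k131 7 (.s k215 k235 5 (.d k150 k20
  k60 8 14))))] .n) .n)))) (.c k253 (.l (.s k3 k2 0 (.s k87 k171 13 (.s k86 k84 0 (.s k67 k124 6 (.s
  k195 k131 7 (.s k150 k60 14 (.d k215 k235 k20 5 8)))))))) .n))) (.c k125 (.q k253 [(.s k169 k1 13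
  (.s k252 k254 0 (.s k84 k168 13 (.d k86 k87 k3 0 14)))), (.s k169 k1 13 (.s k233 k41 7 (.s k213
  k193 5 (.s k192 k234 6 (.s k64 k128 7 (.s k106 k127 6 (.d k149 k21 k63 7 14)))))))] (.c k1 (.l (.s
  k252 k254 0 (.s k84 k168 13 (.s k86 k87 0 (.s k124 k67 6 (.s k60 k188 7 (.s k20 k40 5 (.d k150
  k215 k195 8 14)))))))) (.c k169 (.f k252 k254 0 (.q k86 [(.d k84 k168 k87 13 0), (.s k124 k67 6
  (.s k60 k188 7 (.s k20 k40 5 (.d k150 k215 k195 8 14))))] (.c k168 (.q k171 [(.d k87 k84 k3 0 13),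
  (.s k124 k67 6 (.s k60 k188 7 (.s k20 k40 5 (.d k150 k215 k195 8 14))))] .n) (.c k171 (.l (.s k168
  k84 13 (.s k124 k67 6 (.s k60 k188 7 (.s k20 k40 5 (.d k150 k215 k195 8 14)))))) .n)))) .n))) (.c
  k130 (.l (.s k125 k65 5 (.s k60 k190 8 (.s k150 k195 14 (.d k20 k40 k215 5 8))))) (.c k150 (.f k65
  k125 5 (.q k193 [(.s k1 k129 7 (.s k149 k61 13 (.s k213 k21 7 (.d k253 k233 k169 5 13)))), (.s k1
  k129 7 (.s k3 k2 0 (.s k87 k171 13 (.s k86 k84 0 (.s k67 k124 6 (.d k195 k130 k131 8 7)))))), (.s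
  k149 k61 13 (.s k21 k213 7 (.s k63 k42 6 (.s k106 k192 14 (.d k127 k64 k191 6 7)))))] (.c k130 (.q
  k190 [(.s k149 k61 13 (.s k213 k21 7 (.s k253 k233 5 (.d k1 k129 k169 7 13)))), (.s k1 k129 7 (.s
  k3 k2 0 (.s k87 k171 13 (.s k86 k84 0 (.d k169 k253 k252 13 14))))), (.s k149 k61 13 (.s k21 k213
  7 (.s k63 k42 6 (.s k106 k192 14 (.d k127 k64 k191 6 7)))))] (.c k253 (.l (.s k129 k1 7 (.s k149
  k61 13 (.s k189 k169 5 (.s k21 k213 7 (.s k63 k42 6 (.d k191 k188 k127 0 7))))))) .n)) (.c k190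
  (.l (.s k130 k195 8 (.s k1 k129 7 (.s k61 k149 13 (.s k41 k21 5 (.d k169 k233 k253 7 13))))))
  .n)))) (.c k190 (.l (.s k65 k125 5 (.s k195 k130 8 (.s k150 k60 14 (.d k215 k235 k20 5 8))))) (.c
  k195 (.f k65 k125 5 (.q k1 [(.s k3 k2 0 (.s k87 k171 13 (.s k86 k84 0 (.d k169 k253 k252 13
  14)))), (.s k193 k129 7 (.s k149 k61 13 (.s k21 k213 7 (.s k63 k42 6 (.s k106 k192 14 (.d k127 k64
  k191 6 7))))))] (.c k3 (.l (.s k169 k253 13 (.s k41 k233 7 (.s k61 k21 5 (.d k193 k129 k149 7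
  13))))) (.c k75 (.q k135 [(.s k3 k2 0 (.s k87 k171 13 (.s k86 k84 0 (.d k169 k253 k252 13 14)))),
  (.s k193 k129 7 (.s k149 k61 13 (.s k21 k213 7 (.s k63 k42 6 (.s k106 k192 14 (.d k127 k64 k191 6
  7))))))] (.c k3 (.l (.s k169 k253 13 (.s k41 k233 7 (.s k61 k21 5 (.d k193 k129 k149 7 13))))) (.c
  k253 (.l (.s k3 k2 0 (.s k87 k171 13 (.s k86 k84 0 (.s k67 k124 6 (.s k64 k66 0 (.d k127 k107 k106
  5 6))))))) .n))) (.c k135 (.q k75 [(.s k3 k2 0 (.s k87 k171 13 (.s k86 k84 0 (.d k169 k253 k252 13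
  14)))), (.s k193 k129 7 (.s k149 k61 13 (.s k21 k213 7 (.s k63 k42 6 (.s k106 k192 14 (.d k127 k64
  k191 6 7))))))] (.c k3 (.l (.s k169 k253 13 (.s k41 k233 7 (.s k61 k21 5 (.d k193 k129 k149 7
  13))))) (.c k253 (.l (.s k3 k2 0 (.s k87 k171 13 (.s k86 k84 0 (.s k67 k124 6 (.s k64 k66 0 (.d
  k127 k107 k106 5 6))))))) .n))) (.c k253 (.l (.s k3 k2 0 (.s k87 k171 13 (.s k86 k84 0 (.s k67
  k124 6 (.s k64 k66 0 (.d k127 k107 k106 5 6))))))) .n)))))) (.c k215 (.q k1 [(.s k3 k2 0 (.s k87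
  k171 13 (.s k86 k84 0 (.d k169 k253 k252 13 14)))), (.s k65 k125 5 (.s k169 k253 13 (.s k41 k233 7
  (.s k61 k21 5 (.d k193 k129 k149 7 13))))), (.s k3 k2 0 (.s k65 k125 5 (.s k129 k193 7 (.s k66
  k192 8 (.s k67 k64 0 (.d k195 k131 k130 7 8))))))] .n) (.c k235 (.l (.s k125 k65 5 (.s k60 k190 8
  (.s k20 k40 5 (.d k150 k215 k195 8 14))))) .n))))))))))))

def t15_90 : T TT 256 :=
  (.q k252 [(.s k84 k168 13 (.s k86 k87 0 (.s k3 k169 14 (.s k2 k1 0 (.d k170 k254 k255 13 14))))),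
  (.s k168 k84 13 (.s k170 k255 14 (.s k169 k171 0 (.s k3 k86 14 (.d k1 k2 k253 0 13)))))] (.c k1
  (.f k255 k170 14 (.f k254 k253 0 (.q k250 [(.s k240 k245 2 (.s k246 k242 1 (.s k248 k244 1 (.d
  k249 k251 k243 0 2)))), (.s k84 k168 13 (.s k86 k87 0 (.s k245 k240 2 (.s k165 k5 11 (.s k244 k7
  12 (.d k246 k247 k242 0 1)))))), (.s k84 k168 13 (.s k240 k245 2 (.s k80 k160 11 (.s k88 k92 1 (.s
  k164 k12 13 (.d k244 k248 k4 1 11)))))), (.s k84 k168 13 (.s k86 k87 0 (.s k246 k242 1 (.s k166 k6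
  11 (.s k247 k4 12 (.d k243 k251 k249 1 2))))))] (.c k165 (.l (.s k240 k245 2 (.s k246 k242 1 (.s
  k248 k244 1 (.d k249 k251 k243 0 2))))) (.c k240 (.q k165 [(.s k245 k5 11 (.s k246 k242 1 (.s k243
  k249 2 (.d k247 k244 k251 0 1)))), (.s k84 k168 13 (.s k86 k87 0 (.s k244 k7 12 (.s k4 k164 11 (.s
  k246 k242 1 (.d k166 k247 k6 12 11)))))), (.s k84 k168 13 (.s k86 k87 0 (.s k244 k7 12 (.s k245 k5
  11 (.d k246 k247 k242 0 1)))))] (.c k242 (.l (.s k84 k168 13 (.s k86 k87 0 (.s k244 k7 12 (.s k4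
  k164 11 (.s k245 k5 11 (.d k247 k246 k166 0 12))))))) (.c k244 (.l (.s k84 k168 13 (.s k86 k87 0
  (.s k246 k242 1 (.s k166 k6 11 (.s k243 k249 2 (.d k247 k251 k4 1 12))))))) (.c k246 (.q k4 [(.s
  k84 k168 13 (.s k86 k87 0 (.d k244 k164 k7 11 12))), (.s k12 k8 1 (.s k93 k174 12 (.s k89 k81 1
  (.d k166 k247 k243 12 14))))] .n) (.c k247 (.l (.s k5 k245 11 (.s k84 k168 13 (.s k86 k87 0 (.s k7
  k244 12 (.s k246 k242 1 (.d k6 k166 k4 11 0))))))) .n))))) .n))))) (.c k2 (.l (.s k84 k168 13 (.s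
  k86 k87 0 (.s k169 k3 14 (.s k253 k1 13 (.d k255 k254 k170 0 14)))))) (.c k3 (.f k168 k84 13 (.q
  k240 [(.s k160 k80 11 (.s k164 k172 1 (.s k248 k244 1 (.d k88 k8 k12 11 13)))), (.s k255 k170 14
  (.s k250 k245 2 (.s k254 k253 0 (.s k246 k242 1 (.s k249 k243 2 (.d k248 k251 k244 0 1))))))] (.c
  k7 (.q k11 [(.s k160 k80 11 (.s k164 k172 1 (.s k248 k244 1 (.d k88 k8 k12 11 13)))), (.s k255
  k170 14 (.s k250 k245 2 (.s k254 k253 0 (.s k246 k242 1 (.s k249 k243 2 (.d k248 k251 k244 0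
  1))))))] (.c k244 (.l (.s k170 k255 14 (.s k171 k169 0 (.s k251 k91 11 (.s k8 k89 12 (.s k88 k248
  11 (.d k12 k4 k164 1 13))))))) (.c k248 (.l (.s k160 k80 11 (.s k170 k255 14 (.s k172 k164 1 (.s
  k175 k165 2 (.s k174 k173 0 (.s k166 k162 1 (.d k169 k171 k163 0 2)))))))) .n))) (.c k11 (.q k7
  [(.s k160 k80 11 (.s k164 k172 1 (.s k248 k244 1 (.d k88 k8 k12 11 13)))), (.s k255 k170 14 (.s
  k250 k245 2 (.s k254 k253 0 (.s k246 k242 1 (.s k249 k243 2 (.d k248 k251 k244 0 1))))))] (.c k169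
  (.l (.s k248 k244 1 (.s k88 k8 11 (.s k160 k80 11 (.d k164 k172 k12 1 13))))) (.c k244 (.f k255
  k170 14 (.f k160 k80 11 (.l (.s k164 k172 1 (.s k88 k12 13 (.s k248 k8 11 (.s k250 k245 2 (.s k254
  k253 0 (.s k246 k242 1 (.d k249 k251 k243 0 2)))))))))) (.c k248 (.q k169 [(.d k170 k171 k255 0
  14), (.s k160 k80 11 (.s k172 k164 1 (.s k166 k163 2 (.s k4 k247 12 (.d k12 k92 k8 11 1)))))] .n)
  .n)))) (.c k244 (.f k255 k170 14 (.f k160 k80 11 (.l (.s k164 k172 1 (.s k88 k12 13 (.s k248 k8 11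
  (.s k250 k245 2 (.s k254 k253 0 (.s k246 k242 1 (.d k249 k251 k243 0 2)))))))))) (.c k248 (.l (.s
  k160 k80 11 (.s k170 k255 14 (.s k172 k164 1 (.s k175 k165 2 (.s k174 k173 0 (.s k166 k162 1 (.d
  k169 k171 k163 0 2)))))))) .n)))))) (.c k84 (.q k65 [(.s k105 k125 5 (.s k195 k130 8 (.s k233 k214
  6 (.s k169 k41 7 (.s k1 k253 13 (.d k3 k2 k86 0 14)))))), (.s k105 k125 5 (.s k170 k255 14 (.s k40
  k235 8 (.s k60 k20 5 (.d k195 k130 k150 8 14))))), (.s k195 k130 8 (.s k233 k214 6 (.s k255 k170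
  14 (.s k253 k254 0 (.s k1 k169 13 (.d k193 k213 k129 5 7)))))), (.s k105 k125 5 (.s k255 k170 14
  (.s k253 k254 0 (.s k1 k169 13 (.s k193 k129 7 (.s k149 k61 13 (.d k213 k233 k21 5 7)))))))] (.c
  k165 (.q k240 [(.s k105 k125 5 (.s k195 k130 8 (.s k233 k214 6 (.s k169 k41 7 (.s k1 k253 13 (.d
  k3 k2 k86 0 14)))))), (.s k248 k244 1 (.s k255 k170 14 (.s k250 k245 2 (.s k249 k251 0 (.s k246
  k243 2 (.d k254 k253 k242 0 1)))))), (.s k105 k125 5 (.s k170 k255 14 (.s k40 k235 8 (.s k60 k20 5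
  (.d k195 k130 k150 8 14)))))] .n) (.c k240 (.q k165 [(.s k105 k125 5 (.s k195 k130 8 (.s k233 k214
  6 (.s k169 k41 7 (.s k1 k253 13 (.d k3 k2 k86 0 14)))))), (.s k105 k125 5 (.s k170 k255 14 (.s k40
  k235 8 (.s k60 k20 5 (.d k195 k130 k150 8 14))))), (.s k5 k245 11 (.s k255 k170 14 (.s k253 k254 0
  (.s k1 k169 13 (.s k13 k9 1 (.s k89 k241 13 (.d k93 k81 k173 1 11)))))))] .n) .n))) (.c k86 (.f
  k168 k84 13 (.q k240 [(.s k160 k80 11 (.s k164 k172 1 (.s k88 k12 13 (.d k248 k244 k8 1 11)))),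
  (.s k255 k170 14 (.s k250 k245 2 (.s k254 k253 0 (.s k246 k242 1 (.s k249 k243 2 (.d k248 k251
  k244 0 1))))))] (.c k14 (.l (.s k160 k80 11 (.s k164 k172 1 (.s k248 k244 1 (.d k88 k8 k12 11
  13))))) (.c k82 (.q k94 [(.s k160 k80 11 (.s k164 k172 1 (.s k88 k12 13 (.d k248 k244 k8 1 11)))),
  (.s k255 k170 14 (.s k250 k245 2 (.s k254 k253 0 (.s k246 k242 1 (.s k249 k243 2 (.d k248 k251
  k244 0 1)))))), (.s k160 k80 11 (.s k164 k172 1 (.s k255 k170 14 (.s k254 k253 0 (.s k174 k14 11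
  (.d k12 k88 k93 13 12))))))] (.c k14 (.l (.s k160 k80 11 (.s k164 k172 1 (.s k248 k244 1 (.d k88
  k8 k12 11 13))))) .n)) (.c k94 (.q k82 [(.s k3 k161 12 (.s k1 k2 0 (.s k169 k253 13 (.d k170 k171
  k255 0 14)))), (.s k160 k80 11 (.s k164 k172 1 (.s k88 k12 13 (.d k248 k244 k8 1 11))))] .n) (.c
  k244 (.f k255 k170 14 (.f k160 k80 11 (.l (.s k164 k172 1 (.s k88 k12 13 (.s k248 k8 11 (.s k250
  k245 2 (.s k254 k253 0 (.s k246 k242 1 (.d k249 k251 k243 0 2)))))))))) (.c k248 (.l (.s k160 k80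
  11 (.s k170 k255 14 (.s k169 k171 0 (.s k172 k164 1 (.s k163 k166 2 (.s k161 k162 0 (.d k165 k175
  k173 2 1)))))))) .n))))))) (.c k87 (.l (.s k168 k84 13 (.s k170 k255 14 (.s k169 k171 0 (.s k3 k86
  14 (.d k1 k2 k253 0 13)))))) (.c k165 (.q k240 [(.s k84 k168 13 (.s k86 k87 0 (.s k169 k3 14 (.s
  k253 k1 13 (.d k255 k254 k170 0 14))))), (.s k80 k160 11 (.s k84 k168 13 (.s k88 k92 1 (.s k164
  k12 13 (.d k244 k248 k4 1 11))))), (.s k248 k244 1 (.s k255 k170 14 (.s k250 k245 2 (.s k249 k251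
  0 (.s k246 k243 2 (.d k254 k253 k242 0 1))))))] (.c k170 (.l (.s k84 k168 13 (.s k244 k248 1 (.s
  k164 k4 11 (.s k88 k12 13 (.d k80 k92 k160 1 11)))))) .n)) (.c k168 (.q k69 [(.s k101 k117 3 (.s
  k207 k138 10 (.s k154 k48 14 (.s k223 k16 10 (.d k255 k239 k170 3 14))))), (.s k101 k117 3 (.s
  k207 k138 10 (.s k237 k222 4 (.s k169 k33 9 (.s k1 k253 13 (.d k3 k2 k86 0 14)))))), (.s k207 k138
  10 (.s k237 k222 4 (.s k255 k170 14 (.s k253 k254 0 (.s k205 k221 3 (.d k1 k169 k137 13 9))))))]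
  (.c k138 (.l (.s k117 k101 3 (.s k255 k170 14 (.s k186 k48 10 (.s k253 k254 0 (.s k185 k49 9 (.s
  k51 k118 10 (.d k187 k184 k119 0 9)))))))) (.c k165 (.q k240 [(.s k101 k117 3 (.s k207 k138 10 (.s
  k154 k48 14 (.s k223 k16 10 (.d k255 k239 k170 3 14))))), (.s k248 k244 1 (.s k255 k170 14 (.s
  k250 k245 2 (.s k249 k251 0 (.s k246 k243 2 (.d k254 k253 k242 0 1)))))), (.s k101 k117 3 (.s k207
  k138 10 (.s k237 k222 4 (.s k169 k33 9 (.s k1 k253 13 (.d k3 k2 k86 0 14))))))] .n) (.c k207 (.l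
  (.s k117 k101 3 (.s k255 k170 14 (.s k48 k186 10 (.s k116 k184 9 (.s k118 k119 0 (.s k185 k51 10
  (.d k253 k254 k49 0 9)))))))) (.c k240 (.q k165 [(.s k101 k117 3 (.s k207 k138 10 (.s k48 k154 14
  (.s k32 k16 3 (.d k170 k239 k255 10 14))))), (.s k5 k245 11 (.s k197 k133 7 (.s k101 k117 3 (.s
  k53 k149 11 (.d k37 k21 k229 3 7))))), (.s k5 k245 11 (.s k133 k197 7 (.s k138 k207 10 (.s k143
  k128 2 (.s k154 k176 6 (.d k170 k255 k186 14 3))))))] (.c k255 (.l (.s k101 k117 3 (.s k207 k138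
  10 (.s k237 k222 4 (.s k169 k33 9 (.s k1 k253 13 (.d k3 k2 k86 0 14))))))) .n)) .n))))) (.c k169
  (.f k168 k84 13 (.q k248 [(.s k88 k8 11 (.s k240 k244 1 (.s k160 k80 11 (.d k164 k172 k12 1
  13)))), (.s k240 k244 1 (.s k255 k170 14 (.s k250 k245 2 (.s k254 k253 0 (.s k246 k242 1 (.d k249
  k251 k243 0 2)))))), (.s k8 k88 11 (.s k170 k255 14 (.s k89 k251 12 (.s k81 k93 1 (.s k243 k162 12
  (.d k12 k4 k166 1 14))))))] (.c k4 (.l (.s k88 k8 11 (.s k240 k244 1 (.s k164 k12 13 (.d k160 k172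
  k80 1 11))))) (.c k165 (.l (.s k240 k244 1 (.s k88 k8 11 (.s k160 k80 11 (.d k164 k172 k12 1
  13))))) (.c k240 (.q k165 [(.s k245 k5 11 (.s k255 k170 14 (.s k253 k254 0 (.s k249 k241 1 (.s
  k243 k246 2 (.d k251 k250 k247 0 1)))))), (.s k8 k88 11 (.s k12 k4 1 (.s k170 k255 14 (.s k89 k251
  12 (.s k81 k93 1 (.d k243 k162 k166 12 14)))))), (.s k8 k88 11 (.s k12 k4 1 (.s k255 k170 14 (.s
  k93 k174 12 (.s k89 k81 1 (.s k253 k254 0 (.d k13 k173 k241 11 13)))))))] (.c k170 (.f k245 k5 11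
  (.q k216 [(.s k232 k200 3 (.s k104 k40 7 (.s k192 k212 5 (.s k128 k64 7 (.d k148 k188 k60 5
  13))))), (.s k88 k8 11 (.s k152 k24 7 (.s k136 k184 3 (.s k204 k68 9 (.s k100 k48 13 (.d k236 k220
  k32 3 9))))))] (.c k10 (.q k250 [(.s k249 k251 0 (.s k253 k241 1 (.s k254 k255 0 (.d k246 k242
  k243 1 2)))), (.s k232 k200 3 (.s k104 k40 7 (.s k192 k212 5 (.s k128 k64 7 (.d k148 k188 k60 5
  13)))))] .n) (.c k40 (.l (.s k88 k8 11 (.s k200 k232 3 (.s k152 k24 7 (.s k56 k104 11 (.d k184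
  k136 k120 3 7)))))) (.c k250 (.q k10 [(.s k232 k200 3 (.s k104 k40 7 (.s k192 k212 5 (.s k128 k64
  7 (.d k148 k188 k60 5 13))))), (.s k88 k8 11 (.s k152 k24 7 (.s k136 k184 3 (.s k204 k68 9 (.s
  k100 k48 13 (.d k236 k220 k32 3 9))))))] (.c k40 (.l (.s k88 k8 11 (.s k200 k232 3 (.s k152 k24 7
  (.s k56 k104 11 (.d k184 k136 k120 3 7)))))) .n)) .n))))) (.c k250 (.l (.s k8 k88 11 (.s k12 k4 1
  (.s k170 k255 14 (.s k245 k5 11 (.s k89 k251 12 (.s k81 k93 1 (.d k243 k162 k166 12 14)))))))) (.c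
  k255 (.f k245 k5 11 (.q k232 [(.s k104 k40 7 (.s k192 k212 5 (.s k128 k64 7 (.d k148 k188 k60 5
  13)))), (.s k8 k88 11 (.s k12 k4 1 (.s k200 k216 3 (.s k72 k136 7 (.d k192 k212 k132 5 9))))), (.s
  k8 k88 11 (.s k104 k40 7 (.s k200 k216 3 (.s k136 k72 7 (.d k152 k184 k56 3 11)))))] (.c k95 (.q
  k175 [(.s k104 k40 7 (.s k192 k212 5 (.s k128 k64 7 (.d k148 k188 k60 5 13)))), (.s k8 k88 11 (.s
  k12 k4 1 (.s k160 k170 2 (.d k172 k164 k92 1 11))))] .n) (.c k175 (.q k95 [(.s k104 k40 7 (.s k192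
  k212 5 (.s k128 k64 7 (.d k148 k188 k60 5 13)))), (.s k8 k88 11 (.s k12 k4 1 (.s k200 k216 3 (.s
  k72 k136 7 (.d k192 k212 k132 5 9))))), (.s k8 k88 11 (.s k104 k40 7 (.s k200 k216 3 (.s k136 k72
  7 (.d k152 k184 k56 3 11)))))] .n) .n)))) .n)))) .n))))) (.c k170 (.q k204 [(.s k136 k68 9 (.s
  k168 k84 13 (.s k152 k184 3 (.s k100 k48 13 (.d k236 k220 k32 3 9))))), (.s k68 k136 9 (.s k102
  k119 4 (.s k236 k220 3 (.s k169 k35 10 (.s k1 k253 13 (.d k3 k2 k86 0 14)))))), (.s k68 k136 9 (.s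
  k84 k168 13 (.s k86 k87 0 (.s k102 k119 4 (.s k70 k118 3 (.d k3 k169 k137 14 10)))))), (.s k84
  k168 13 (.s k86 k87 0 (.s k220 k236 3 (.s k153 k19 10 (.s k17 k221 9 (.d k51 k34 k102 4 14))))))]
  (.c k10 (.q k250 [(.s k136 k68 9 (.s k168 k84 13 (.s k152 k184 3 (.s k100 k48 13 (.d k236 k220 k32
  3 9))))), (.s k68 k136 9 (.s k102 k119 4 (.s k236 k220 3 (.s k169 k35 10 (.s k1 k253 13 (.d k3 k2
  k86 0 14)))))), (.s k68 k136 9 (.s k84 k168 13 (.s k86 k87 0 (.s k102 k119 4 (.s k70 k118 3 (.d k3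
  k169 k137 14 10)))))), (.s k84 k168 13 (.s k86 k87 0 (.s k220 k236 3 (.s k153 k19 10 (.s k17 k221
  9 (.d k51 k34 k102 4 14))))))] (.c k165 (.q k240 [(.s k160 k80 11 (.s k168 k84 13 (.s k164 k172 1
  (.s k88 k12 13 (.d k248 k244 k8 1 11))))), (.s k68 k136 9 (.s k102 k119 4 (.s k153 k51 14 (.s k221
  k17 9 (.d k255 k245 k238 2 4)))))] (.c k160 (.q k175 [(.s k68 k136 9 (.s k102 k119 4 (.s k153 k51
  14 (.s k221 k17 9 (.d k255 k245 k238 2 4))))), (.s k84 k168 13 (.s k86 k87 0 (.s k169 k3 14 (.s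
  k253 k1 13 (.d k255 k254 k245 0 2))))), (.s k68 k136 9 (.s k84 k168 13 (.s k100 k116 3 (.s k152
  k48 13 (.d k220 k236 k16 3 9)))))] .n) (.c k175 (.l (.s k160 k80 11 (.s k168 k84 13 (.s k164 k172
  1 (.s k88 k12 13 (.d k248 k244 k8 1 11)))))) .n))) (.c k240 (.q k165 [(.s k68 k136 9 (.s k102 k119
  4 (.s k236 k220 3 (.s k169 k35 10 (.s k1 k253 13 (.d k3 k2 k86 0 14)))))), (.s k136 k68 9 (.s k168
  k84 13 (.s k152 k184 3 (.s k100 k48 13 (.d k236 k220 k32 3 9))))), (.s k68 k136 9 (.s k84 k168 13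
  (.s k86 k87 0 (.s k102 k119 4 (.s k70 k118 3 (.d k3 k169 k137 14 10)))))), (.s k84 k168 13 (.s k86
  k87 0 (.s k220 k236 3 (.s k153 k19 10 (.s k17 k221 9 (.d k51 k34 k102 4 14))))))] .n) .n))) (.c
  k165 (.q k240 [(.s k160 k80 11 (.s k168 k84 13 (.s k164 k172 1 (.s k88 k12 13 (.d k248 k244 k8 1
  11))))), (.s k68 k136 9 (.s k84 k168 13 (.s k100 k116 3 (.s k152 k48 13 (.d k220 k236 k16 3
  9))))), (.s k216 k228 5 (.s k220 k236 3 (.s k212 k208 1 (.s k232 k192 5 (.d k248 k244 k200 1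
  3)))))] (.c k10 (.q k250 [(.s k160 k80 11 (.s k168 k84 13 (.s k164 k172 1 (.s k88 k12 13 (.d k248
  k244 k8 1 11))))), (.s k68 k136 9 (.s k102 k119 4 (.s k153 k51 14 (.s k221 k17 9 (.d k255 k245
  k238 2 4)))))] (.c k160 (.q k175 [(.s k68 k136 9 (.s k102 k119 4 (.s k153 k51 14 (.s k221 k17 9
  (.d k255 k245 k238 2 4))))), (.s k84 k168 13 (.s k86 k87 0 (.s k169 k3 14 (.s k253 k1 13 (.d k255
  k254 k245 0 2))))), (.s k68 k136 9 (.s k84 k168 13 (.s k100 k116 3 (.s k152 k48 13 (.d k220 k236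
  k16 3 9)))))] .n) (.c k175 (.l (.s k160 k80 11 (.s k168 k84 13 (.s k164 k172 1 (.s k88 k12 13 (.d
  k248 k244 k8 1 11)))))) .n))) (.c k160 (.q k175 [(.s k136 k68 9 (.s k168 k84 13 (.s k152 k184 3
  (.s k100 k48 13 (.d k236 k220 k32 3 9))))), (.s k216 k228 5 (.s k220 k236 3 (.s k212 k208 1 (.s
  k232 k192 5 (.d k248 k244 k200 1 3))))), (.s k68 k136 9 (.s k84 k168 13 (.s k86 k87 0 (.s k102
  k119 4 (.s k70 k118 3 (.d k3 k169 k137 14 10))))))] (.c k10 (.q k250 [(.s k68 k136 9 (.s k102 k119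
  4 (.s k153 k51 14 (.s k221 k17 9 (.d k255 k245 k238 2 4))))), (.s k84 k168 13 (.s k86 k87 0 (.s
  k169 k3 14 (.s k253 k1 13 (.d k255 k254 k245 0 2))))), (.s k68 k136 9 (.s k84 k168 13 (.s k100
  k116 3 (.s k152 k48 13 (.d k220 k236 k16 3 9)))))] .n) (.c k250 (.q k10 [(.s k136 k68 9 (.s k168
  k84 13 (.s k152 k184 3 (.s k100 k48 13 (.d k236 k220 k32 3 9))))), (.s k216 k228 5 (.s k220 k236 3
  (.s k212 k208 1 (.s k232 k192 5 (.d k248 k244 k200 1 3))))), (.s k68 k136 9 (.s k84 k168 13 (.s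
  k86 k87 0 (.s k102 k119 4 (.s k70 k118 3 (.d k3 k169 k137 14 10))))))] .n) .n))) (.c k175 (.l (.s
  k160 k80 11 (.s k168 k84 13 (.s k164 k172 1 (.s k88 k12 13 (.d k248 k244 k8 1 11)))))) (.c k250
  (.q k10 [(.s k160 k80 11 (.s k168 k84 13 (.s k164 k172 1 (.s k88 k12 13 (.d k248 k244 k8 1
  11))))), (.s k68 k136 9 (.s k84 k168 13 (.s k100 k116 3 (.s k152 k48 13 (.d k220 k236 k16 3
  9))))), (.s k216 k228 5 (.s k220 k236 3 (.s k212 k208 1 (.s k232 k192 5 (.d k248 k244 k200 1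
  3)))))] (.c k160 (.q k175 [(.s k136 k68 9 (.s k168 k84 13 (.s k152 k184 3 (.s k100 k48 13 (.d k236
  k220 k32 3 9))))), (.s k216 k228 5 (.s k220 k236 3 (.s k212 k208 1 (.s k232 k192 5 (.d k248 k244
  k200 1 3))))), (.s k68 k136 9 (.s k84 k168 13 (.s k86 k87 0 (.s k102 k119 4 (.s k70 k118 3 (.d k3
  k169 k137 14 10))))))] .n) (.c k175 (.l (.s k160 k80 11 (.s k168 k84 13 (.s k164 k172 1 (.s k88
  k12 13 (.d k248 k244 k8 1 11)))))) .n))) .n))))) (.c k240 (.q k165 [(.s k68 k136 9 (.s k102 k119 4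
  (.s k236 k220 3 (.s k169 k35 10 (.s k1 k253 13 (.d k3 k2 k86 0 14)))))), (.s k136 k68 9 (.s k168
  k84 13 (.s k152 k184 3 (.s k100 k48 13 (.d k236 k220 k32 3 9))))), (.s k68 k136 9 (.s k84 k168 13
  (.s k86 k87 0 (.s k102 k119 4 (.s k70 k118 3 (.d k3 k169 k137 14 10)))))), (.s k84 k168 13 (.s k86
  k87 0 (.s k220 k236 3 (.s k153 k19 10 (.s k17 k221 9 (.d k51 k34 k102 4 14))))))] (.c k10 (.q k250
  [(.s k68 k136 9 (.s k102 k119 4 (.s k236 k220 3 (.s k169 k35 10 (.s k1 k253 13 (.d k3 k2 k86 0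
  14)))))), (.s k136 k68 9 (.s k168 k84 13 (.s k152 k184 3 (.s k100 k48 13 (.d k236 k220 k32 3
  9))))), (.s k68 k136 9 (.s k84 k168 13 (.s k86 k87 0 (.s k102 k119 4 (.s k70 k118 3 (.d k3 k169
  k137 14 10)))))), (.s k84 k168 13 (.s k86 k87 0 (.s k220 k236 3 (.s k153 k19 10 (.s k17 k221 9 (.d
  k51 k34 k102 4 14))))))] .n) (.c k250 (.q k10 [(.s k68 k136 9 (.s k102 k119 4 (.s k236 k220 3 (.s
  k169 k35 10 (.s k1 k253 13 (.d k3 k2 k86 0 14)))))), (.s k136 k68 9 (.s k168 k84 13 (.s k152 k184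
  3 (.s k100 k48 13 (.d k236 k220 k32 3 9))))), (.s k68 k136 9 (.s k84 k168 13 (.s k86 k87 0 (.s
  k102 k119 4 (.s k70 k118 3 (.d k3 k169 k137 14 10)))))), (.s k84 k168 13 (.s k86 k87 0 (.s k220
  k236 3 (.s k153 k19 10 (.s k17 k221 9 (.d k51 k34 k102 4 14))))))] (.c k245 (.q k255 [(.s k68 k136
  9 (.s k102 k119 4 (.s k221 k238 4 (.d k153 k17 k51 9 14)))), (.s k84 k168 13 (.s k86 k87 0 (.s
  k169 k3 14 (.d k253 k254 k1 0 13))))] .n) (.c k255 (.l (.s k245 k5 11 (.s k68 k136 9 (.s k84 k168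
  13 (.s k100 k116 3 (.s k152 k48 13 (.d k220 k236 k16 3 9))))))) .n))) .n))) (.c k250 (.q k10 [(.s
  k136 k68 9 (.s k168 k84 13 (.s k152 k184 3 (.s k100 k48 13 (.d k236 k220 k32 3 9))))), (.s k68
  k136 9 (.s k102 k119 4 (.s k236 k220 3 (.s k169 k35 10 (.s k1 k253 13 (.d k3 k2 k86 0 14)))))),
  (.s k68 k136 9 (.s k84 k168 13 (.s k86 k87 0 (.s k102 k119 4 (.s k70 k118 3 (.d k3 k169 k137 14
  10)))))), (.s k84 k168 13 (.s k86 k87 0 (.s k220 k236 3 (.s k153 k19 10 (.s k17 k221 9 (.d k51 k34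
  k102 4 14))))))] (.c k165 (.q k240 [(.s k160 k80 11 (.s k168 k84 13 (.s k164 k172 1 (.s k88 k12 13
  (.d k248 k244 k8 1 11))))), (.s k68 k136 9 (.s k84 k168 13 (.s k100 k116 3 (.s k152 k48 13 (.d
  k220 k236 k16 3 9))))), (.s k216 k228 5 (.s k220 k236 3 (.s k212 k208 1 (.s k232 k192 5 (.d k248
  k244 k200 1 3)))))] (.c k160 (.q k175 [(.s k136 k68 9 (.s k168 k84 13 (.s k152 k184 3 (.s k100 k48
  13 (.d k236 k220 k32 3 9))))), (.s k216 k228 5 (.s k220 k236 3 (.s k212 k208 1 (.s k232 k192 5 (.d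
  k248 k244 k200 1 3))))), (.s k68 k136 9 (.s k84 k168 13 (.s k86 k87 0 (.s k102 k119 4 (.s k70 k118
  3 (.d k3 k169 k137 14 10))))))] .n) (.c k175 (.l (.s k160 k80 11 (.s k168 k84 13 (.s k164 k172 1
  (.s k88 k12 13 (.d k248 k244 k8 1 11)))))) .n))) (.c k240 (.q k165 [(.s k68 k136 9 (.s k102 k119 4
  (.s k236 k220 3 (.s k169 k35 10 (.s k1 k253 13 (.d k3 k2 k86 0 14)))))), (.s k136 k68 9 (.s k168
  k84 13 (.s k152 k184 3 (.s k100 k48 13 (.d k236 k220 k32 3 9))))), (.s k68 k136 9 (.s k84 k168 13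
  (.s k86 k87 0 (.s k102 k119 4 (.s k70 k118 3 (.d k3 k169 k137 14 10)))))), (.s k84 k168 13 (.s k86
  k87 0 (.s k220 k236 3 (.s k153 k19 10 (.s k17 k221 9 (.d k51 k34 k102 4 14))))))] (.c k245 (.q
  k255 [(.s k68 k136 9 (.s k102 k119 4 (.s k221 k238 4 (.d k153 k17 k51 9 14)))), (.s k84 k168 13
  (.s k86 k87 0 (.s k169 k3 14 (.d k253 k254 k1 0 13))))] .n) (.c k255 (.l (.s k245 k5 11 (.s k68
  k136 9 (.s k84 k168 13 (.s k100 k116 3 (.s k152 k48 13 (.d k220 k236 k16 3 9))))))) .n))) .n)))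
  .n))))) (.c k171 (.l (.s k84 k168 13 (.s k86 k87 0 (.s k3 k169 14 (.s k170 k255 14 (.d k2 k1 k254
  0 13)))))) (.c k240 (.q k165 [(.s k84 k168 13 (.s k86 k87 0 (.s k3 k169 14 (.s k2 k1 0 (.d k170
  k254 k255 13 14))))), (.s k84 k168 13 (.s k86 k87 0 (.s k244 k7 12 (.s k4 k164 11 (.s k245 k5 11
  (.d k247 k246 k166 0 12)))))), (.s k245 k5 11 (.s k255 k170 14 (.s k253 k254 0 (.s k169 k1 13 (.s
  k173 k161 1 (.s k13 k93 11 (.d k241 k249 k89 1 13)))))))] (.c k3 (.l (.s k5 k245 11 (.s k255 k170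
  14 (.s k253 k254 0 (.s k1 k169 13 (.s k13 k9 1 (.s k89 k241 13 (.d k93 k81 k173 1 11)))))))) (.c
  k86 (.f k168 k84 13 (.l (.s k170 k255 14 (.s k169 k171 0 (.s k1 k253 13 (.s k161 k173 1 (.s k241
  k81 11 (.s k13 k89 13 (.d k5 k245 k9 11 1))))))))) .n))) (.c k255 (.f k84 k168 13 (.q k12 [(.s k4
  k8 1 (.s k92 k172 11 (.s k88 k80 1 (.d k164 k240 k244 13 11)))), (.s k86 k87 0 (.s k3 k169 14 (.s
  k6 k9 2 (.s k166 k246 11 (.d k4 k8 k247 1 12))))), (.s k86 k87 0 (.s k92 k172 11 (.s k89 k83 2 (.s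
  k81 k93 1 (.d k243 k162 k166 12 14)))))] (.c k95 (.q k175 [(.s k4 k8 1 (.s k92 k172 11 (.s k88 k80
  1 (.d k164 k240 k244 13 11)))), (.s k86 k87 0 (.s k3 k169 14 (.s k6 k9 2 (.s k166 k246 11 (.d k4
  k8 k247 1 12))))), (.s k86 k87 0 (.s k3 k169 14 (.s k6 k9 2 (.s k92 k172 11 (.s k166 k246 11 (.d
  k89 k83 k243 2 14))))))] (.c k165 (.q k240 [(.s k4 k8 1 (.d k164 k88 k244 13 11)), (.s k80 k160 11
  (.d k88 k164 k92 13 1)), (.s k86 k87 0 (.s k3 k169 14 (.s k6 k9 2 (.s k166 k246 11 (.d k4 k8 k247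
  1 12)))))] .n) (.c k240 (.q k165 [(.s k4 k8 1 (.s k164 k244 11 (.d k166 k167 k247 0 12))), (.s k86
  k87 0 (.s k3 k169 14 (.s k2 k1 0 (.d k170 k160 k254 2 13))))] (.c k245 (.q k250 [(.s k4 k8 1 (.s
  k164 k244 11 (.d k166 k247 k167 12 0))), (.s k86 k87 0 (.s k3 k169 14 (.s k2 k1 0 (.d k170 k160
  k254 2 13))))] (.c k248 (.l (.s k86 k87 0 (.s k244 k7 12 (.d k4 k8 k164 1 11)))) .n)) (.c k248 (.l
  (.s k86 k87 0 (.s k244 k7 12 (.d k4 k8 k164 1 11)))) (.c k250 (.l (.s k245 k5 11 (.s k4 k8 1 (.s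
  k86 k87 0 (.d k244 k164 k7 11 12))))) .n)))) (.c k248 (.l (.s k92 k172 11 (.s k4 k8 1 (.s k88 k80
  1 (.d k164 k244 k240 11 13))))) .n)))) (.c k165 (.q k240 [(.s k4 k8 1 (.d k164 k88 k244 13 11)),
  (.s k80 k160 11 (.d k88 k164 k92 13 1)), (.s k86 k87 0 (.s k3 k169 14 (.s k6 k9 2 (.s k166 k246 11
  (.d k4 k8 k247 1 12)))))] (.c k95 (.q k175 [(.s k4 k8 1 (.d k164 k88 k244 13 11)), (.s k80 k160 11
  (.d k88 k164 k92 13 1)), (.s k86 k87 0 (.s k3 k169 14 (.s k6 k9 2 (.s k166 k246 11 (.d k4 k8 k247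
  1 12)))))] .n) (.c k175 (.q k95 [(.s k4 k8 1 (.d k164 k88 k244 13 11)), (.s k86 k87 0 (.s k92 k172
  11 (.s k89 k83 2 (.d k93 k94 k81 0 1))))] (.c k160 (.q k170 [(.s k4 k8 1 (.d k164 k88 k244 13
  11)), (.s k86 k87 0 (.s k2 k254 13 (.d k3 k1 k169 0 14)))] (.c k164 (.l (.s k172 k92 11 (.s k86
  k87 0 (.s k2 k254 13 (.d k3 k1 k169 0 14))))) (.c k172 (.l (.s k164 k88 13 (.d k4 k8 k244 1 11)))
  .n))) (.c k164 (.l (.s k4 k8 1 (.s k86 k87 0 (.s k3 k169 14 (.s k6 k9 2 (.d k166 k246 k247 11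
  12)))))) (.c k170 (.l (.s k160 k80 11 (.s k4 k8 1 (.d k164 k88 k244 13 11)))) .n)))) .n))) (.c
  k175 (.q k95 [(.s k4 k8 1 (.s k92 k172 11 (.s k88 k80 1 (.d k164 k240 k244 13 11)))), (.s k4 k8 1
  (.s k86 k87 0 (.s k3 k169 14 (.s k6 k9 2 (.d k166 k246 k247 11 12))))), (.s k86 k87 0 (.s k92 k172
  11 (.s k89 k83 2 (.d k93 k94 k81 0 1))))] (.c k165 (.q k240 [(.s k4 k8 1 (.d k164 k88 k244 13
  11)), (.s k86 k87 0 (.s k92 k172 11 (.s k89 k83 2 (.d k93 k94 k81 0 1))))] (.c k160 (.q k170 [(.s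
  k4 k8 1 (.d k164 k88 k244 13 11)), (.s k86 k87 0 (.s k2 k254 13 (.d k3 k1 k169 0 14)))] (.c k164
  (.l (.s k172 k92 11 (.s k86 k87 0 (.s k2 k254 13 (.d k3 k1 k169 0 14))))) (.c k172 (.l (.s k164
  k88 13 (.d k4 k8 k244 1 11))) .n))) (.c k164 (.l (.s k4 k8 1 (.s k86 k87 0 (.s k3 k169 14 (.s k6
  k9 2 (.d k166 k246 k247 11 12)))))) (.c k170 (.l (.s k160 k80 11 (.s k4 k8 1 (.d k164 k88 k244 13
  11)))) .n)))) (.c k240 (.q k165 [(.s k4 k8 1 (.s k164 k244 11 (.d k166 k167 k247 0 12))), (.s k86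
  k87 0 (.s k92 k172 11 (.s k89 k83 2 (.d k93 k94 k81 0 1))))] (.c k164 (.l (.s k4 k8 1 (.s k86 k87
  0 (.s k7 k244 12 (.d k5 k6 k245 0 11))))) (.c k245 (.q k250 [(.s k4 k8 1 (.s k164 k244 11 (.d k166
  k247 k167 12 0))), (.s k86 k87 0 (.s k92 k172 11 (.s k89 k83 2 (.d k93 k94 k81 0 1))))] (.c k164
  (.l (.s k4 k8 1 (.s k86 k87 0 (.s k3 k169 14 (.s k6 k9 2 (.d k7 k5 k244 0 12)))))) .n)) (.c k250
  (.l (.s k245 k5 11 (.s k4 k8 1 (.s k86 k87 0 (.d k244 k164 k7 11 12))))) .n)))) .n))) (.c k240 (.q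
  k165 [(.s k4 k8 1 (.s k164 k244 11 (.d k166 k167 k247 0 12))), (.s k86 k87 0 (.s k3 k169 14 (.s k1
  k2 0 (.s k9 k6 2 (.d k5 k245 k13 11 1)))))] (.c k95 (.q k175 [(.s k4 k8 1 (.s k164 k244 11 (.d
  k166 k167 k247 0 12))), (.s k86 k87 0 (.s k3 k169 14 (.s k2 k1 0 (.d k170 k160 k254 2 13))))] (.c
  k245 (.q k250 [(.s k4 k8 1 (.s k164 k244 11 (.d k166 k247 k167 12 0))), (.s k86 k87 0 (.s k3 k169
  14 (.s k2 k1 0 (.d k170 k160 k254 2 13))))] (.c k248 (.l (.s k86 k87 0 (.s k244 k7 12 (.d k4 k8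
  k164 1 11)))) .n)) (.c k248 (.l (.s k86 k87 0 (.s k244 k7 12 (.d k4 k8 k164 1 11)))) (.c k250 (.l
  (.s k245 k5 11 (.s k4 k8 1 (.s k86 k87 0 (.d k244 k164 k7 11 12))))) .n)))) (.c k175 (.q k95 [(.s
  k4 k8 1 (.s k164 k244 11 (.d k166 k167 k247 0 12))), (.s k86 k87 0 (.s k92 k172 11 (.s k89 k83 2
  (.d k93 k94 k81 0 1))))] (.c k164 (.l (.s k4 k8 1 (.s k86 k87 0 (.s k7 k244 12 (.d k5 k6 k245 0
  11))))) (.c k245 (.q k250 [(.s k4 k8 1 (.s k164 k244 11 (.d k166 k247 k167 12 0))), (.s k86 k87 0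
  (.s k92 k172 11 (.s k89 k83 2 (.d k93 k94 k81 0 1))))] (.c k164 (.l (.s k4 k8 1 (.s k86 k87 0 (.s
  k3 k169 14 (.s k6 k9 2 (.d k7 k5 k244 0 12)))))) .n)) (.c k250 (.l (.s k245 k5 11 (.s k4 k8 1 (.s
  k86 k87 0 (.d k244 k164 k7 11 12))))) .n)))) (.c k245 (.q k250 [(.s k4 k8 1 (.s k164 k244 11 (.d
  k166 k247 k167 12 0))), (.s k86 k87 0 (.s k92 k172 11 (.s k89 k83 2 (.s k81 k93 1 (.d k243 k162
  k166 12 14))))), (.s k4 k8 1 (.s k86 k87 0 (.s k3 k169 14 (.s k6 k9 2 (.d k7 k5 k244 0 12)))))]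
  (.c k95 (.q k175 [(.s k4 k8 1 (.s k164 k244 11 (.d k166 k247 k167 12 0))), (.s k86 k87 0 (.s k3
  k169 14 (.s k2 k1 0 (.d k170 k160 k254 2 13))))] (.c k248 (.l (.s k86 k87 0 (.s k244 k7 12 (.d k4
  k8 k164 1 11)))) .n)) (.c k175 (.q k95 [(.s k4 k8 1 (.s k164 k244 11 (.d k166 k247 k167 12 0))),
  (.s k86 k87 0 (.s k92 k172 11 (.s k89 k83 2 (.d k93 k94 k81 0 1))))] (.c k164 (.l (.s k4 k8 1 (.s
  k86 k87 0 (.s k3 k169 14 (.s k6 k9 2 (.d k7 k5 k244 0 12)))))) .n)) .n))) (.c k248 (.l (.s k86 k87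
  0 (.s k244 k7 12 (.d k4 k8 k164 1 11)))) (.c k250 (.l (.s k245 k5 11 (.s k4 k8 1 (.s k86 k87 0 (.d
  k244 k164 k7 11 12))))) .n)))))) .n)))))) .n))))))))))))))

def t15_98 : T TT 256 :=
  (.f k255 k170 14 (.q k105 [(.s k65 k125 5 (.s k195 k130 8 (.s k215 k235 5 (.d k150 k20 k60 8
  14))))] (.c k20 (.q k1 [(.s k3 k2 0 (.s k87 k171 13 (.s k169 k253 13 (.d k86 k84 k252 0 14)))),
  (.s k65 k125 5 (.s k169 k253 13 (.s k41 k233 7 (.s k61 k21 5 (.d k193 k129 k149 7 13))))), (.s k3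
  k2 0 (.s k65 k125 5 (.s k129 k193 7 (.s k66 k192 8 (.s k67 k64 0 (.d k195 k131 k130 7 8))))))] .n)
  (.c k60 (.f k65 k125 5 (.q k171 [(.s k3 k87 13 (.s k1 k2 0 (.s k169 k253 13 (.s k41 k233 7 (.s k61
  k21 5 (.d k193 k129 k149 7 13)))))), (.s k195 k130 8 (.s k235 k215 5 (.s k107 k43 7 (.s k106 k104
  0 (.s k127 k64 6 (.d k63 k191 k151 7 13))))))] (.c k30 (.q k45 [(.s k3 k87 13 (.s k1 k2 0 (.s k169
  k253 13 (.s k41 k233 7 (.s k61 k21 5 (.d k193 k129 k149 7 13)))))), (.s k195 k130 8 (.s k235 k215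
  5 (.s k107 k43 7 (.s k106 k104 0 (.s k127 k64 6 (.d k63 k191 k151 7 13))))))] .n) (.c k45 (.q k30
  [(.s k3 k87 13 (.s k1 k2 0 (.s k169 k253 13 (.s k41 k233 7 (.s k61 k21 5 (.d k193 k129 k149 7
  13)))))), (.s k195 k130 8 (.s k235 k215 5 (.s k107 k43 7 (.s k106 k104 0 (.s k127 k64 6 (.d k63
  k191 k151 7 13))))))] .n) .n)))) (.c k65 (.q k1 [(.s k3 k2 0 (.s k87 k171 13 (.s k86 k84 0 (.d
  k169 k253 k252 13 14)))), (.s k169 k253 13 (.s k41 k233 7 (.s k21 k61 5 (.s k63 k42 6 (.s k127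
  k191 7 (.s k106 k64 6 (.d k149 k213 k192 7 14)))))))] (.c k169 (.f k3 k2 0 (.q k86 [(.d k87 k171
  k84 13 0), (.s k67 k124 6 (.s k195 k131 7 (.s k150 k60 14 (.d k215 k235 k20 5 8))))] (.c k168 (.l
  (.s k171 k87 13 (.s k67 k124 6 (.s k195 k131 7 (.s k150 k60 14 (.d k215 k235 k20 5 8)))))) (.c
  k171 (.q k168 [(.d k84 k87 k252 0 13), (.s k67 k124 6 (.s k195 k131 7 (.s k215 k235 5 (.d k150 k20
  k60 8 14))))] .n) .n)))) (.c k253 (.l (.s k3 k2 0 (.s k87 k171 13 (.s k86 k84 0 (.s k67 k124 6 (.s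
  k195 k131 7 (.s k150 k60 14 (.d k215 k235 k20 5 8)))))))) .n))) (.c k125 (.q k253 [(.s k169 k1 13
  (.s k252 k254 0 (.s k84 k168 13 (.d k86 k87 k3 0 14)))), (.s k169 k1 13 (.s k233 k41 7 (.s k213
  k193 5 (.s k192 k234 6 (.s k64 k128 7 (.s k106 k127 6 (.d k149 k21 k63 7 14)))))))] (.c k1 (.l (.s
  k252 k254 0 (.s k84 k168 13 (.s k86 k87 0 (.s k124 k67 6 (.s k60 k188 7 (.s k20 k40 5 (.d k150
  k215 k195 8 14)))))))) (.c k169 (.f k252 k254 0 (.q k86 [(.d k84 k168 k87 13 0), (.s k124 k67 6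
  (.s k60 k188 7 (.s k20 k40 5 (.d k150 k215 k195 8 14))))] (.c k168 (.q k171 [(.d k87 k84 k3 0 13),
  (.s k124 k67 6 (.s k60 k188 7 (.s k20 k40 5 (.d k150 k215 k195 8 14))))] .n) (.c k171 (.l (.s k168
  k84 13 (.s k124 k67 6 (.s k60 k188 7 (.s k20 k40 5 (.d k150 k215 k195 8 14)))))) .n)))) .n))) (.c
  k130 (.l (.s k125 k65 5 (.s k60 k190 8 (.s k150 k195 14 (.d k20 k40 k215 5 8))))) (.c k150 (.f k65
  k125 5 (.q k193 [(.s k1 k129 7 (.s k149 k61 13 (.s k213 k21 7 (.d k253 k233 k169 5 13)))), (.s k1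
  k129 7 (.s k3 k2 0 (.s k87 k171 13 (.s k86 k84 0 (.s k67 k124 6 (.d k195 k130 k131 8 7)))))), (.s
  k149 k61 13 (.s k21 k213 7 (.s k63 k42 6 (.s k106 k192 14 (.d k127 k64 k191 6 7)))))] (.c k130 (.q
  k190 [(.s k149 k61 13 (.s k213 k21 7 (.s k253 k233 5 (.d k1 k129 k169 7 13)))), (.s k1 k129 7 (.s
  k3 k2 0 (.s k87 k171 13 (.s k86 k84 0 (.d k169 k253 k252 13 14))))), (.s k149 k61 13 (.s k21 k213
  7 (.s k63 k42 6 (.s k106 k192 14 (.d k127 k64 k191 6 7)))))] (.c k253 (.l (.s k129 k1 7 (.s k149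
  k61 13 (.s k189 k169 5 (.s k21 k213 7 (.s k63 k42 6 (.d k191 k188 k127 0 7))))))) .n)) (.c k190
  (.l (.s k130 k195 8 (.s k1 k129 7 (.s k61 k149 13 (.s k41 k21 5 (.d k169 k233 k253 7 13))))))
  .n)))) (.c k190 (.l (.s k65 k125 5 (.s k195 k130 8 (.s k150 k60 14 (.d k215 k235 k20 5 8))))) (.c
  k195 (.f k65 k125 5 (.q k1 [(.s k3 k2 0 (.s k87 k171 13 (.s k86 k84 0 (.d k169 k253 k252 13
  14)))), (.s k193 k129 7 (.s k149 k61 13 (.s k21 k213 7 (.s k63 k42 6 (.s k106 k192 14 (.d k127 k64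
  k191 6 7))))))] (.c k3 (.l (.s k169 k253 13 (.s k41 k233 7 (.s k61 k21 5 (.d k193 k129 k149 7
  13))))) (.c k75 (.q k135 [(.s k3 k2 0 (.s k87 k171 13 (.s k86 k84 0 (.d k169 k253 k252 13 14)))),
  (.s k193 k129 7 (.s k149 k61 13 (.s k21 k213 7 (.s k63 k42 6 (.s k106 k192 14 (.d k127 k64 k191 6
  7))))))] (.c k3 (.l (.s k169 k253 13 (.s k41 k233 7 (.s k61 k21 5 (.d k193 k129 k149 7 13))))) (.c
  k253 (.l (.s k3 k2 0 (.s k87 k171 13 (.s k86 k84 0 (.s k67 k124 6 (.s k64 k66 0 (.d k127 k107 k106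
  5 6))))))) .n))) (.c k135 (.q k75 [(.s k3 k2 0 (.s k87 k171 13 (.s k86 k84 0 (.d k169 k253 k252 13
  14)))), (.s k193 k129 7 (.s k149 k61 13 (.s k21 k213 7 (.s k63 k42 6 (.s k106 k192 14 (.d k127 k64
  k191 6 7))))))] (.c k3 (.l (.s k169 k253 13 (.s k41 k233 7 (.s k61 k21 5 (.d k193 k129 k149 7
  13))))) (.c k253 (.l (.s k3 k2 0 (.s k87 k171 13 (.s k86 k84 0 (.s k67 k124 6 (.s k64 k66 0 (.d
  k127 k107 k106 5 6))))))) .n))) (.c k253 (.l (.s k3 k2 0 (.s k87 k171 13 (.s k86 k84 0 (.s k67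
  k124 6 (.s k64 k66 0 (.d k127 k107 k106 5 6))))))) .n)))))) (.c k215 (.q k1 [(.s k3 k2 0 (.s k87
  k171 13 (.s k86 k84 0 (.d k169 k253 k252 13 14)))), (.s k65 k125 5 (.s k169 k253 13 (.s k41 k233 7
  (.s k61 k21 5 (.d k193 k129 k149 7 13))))), (.s k3 k2 0 (.s k65 k125 5 (.s k129 k193 7 (.s k66
  k192 8 (.s k67 k64 0 (.d k195 k131 k130 7 8))))))] .n) (.c k235 (.l (.s k125 k65 5 (.s k60 k190 8
  (.s k20 k40 5 (.d k150 k215 k195 8 14))))) .n))))))))))))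

def t15_99 : T TT 256 :=
  (.f k255 k170 14 (.q k105 [(.s k65 k125 5 (.s k195 k130 8 (.s k215 k235 5 (.d k150 k20 k60 8
  14))))] (.c k20 (.q k1 [(.s k3 k2 0 (.s k87 k171 13 (.s k169 k253 13 (.d k86 k84 k252 0 14)))),
  (.s k65 k125 5 (.s k169 k253 13 (.s k41 k233 7 (.s k61 k21 5 (.d k193 k129 k149 7 13))))), (.s k3
  k2 0 (.s k65 k125 5 (.s k129 k193 7 (.s k66 k192 8 (.s k67 k64 0 (.d k195 k131 k130 7 8))))))] .n)
  (.c k60 (.f k65 k125 5 (.q k93 [(.s k12 k174 12 (.s k4 k8 1 (.s k89 k81 1 (.d k166 k247 k243 12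
  14)))), (.s k81 k89 1 (.s k97 k113 3 (.s k101 k109 1 (.s k117 k69 3 (.s k48 k186 10 (.d k195 k130
  k146 8 12)))))), (.s k12 k174 12 (.s k8 k4 1 (.s k195 k130 8 (.s k73 k134 10 (.s k69 k77 1 (.d
  k138 k203 k207 8 10))))))] (.c k8 (.l (.s k12 k174 12 (.s k89 k81 1 (.s k73 k121 3 (.d k195 k130
  k134 8 10))))) (.c k30 (.q k45 [(.s k12 k174 12 (.s k4 k8 1 (.s k89 k81 1 (.d k166 k247 k243 12
  14)))), (.s k81 k89 1 (.s k97 k113 3 (.s k101 k109 1 (.s k117 k69 3 (.s k48 k186 10 (.d k195 k130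
  k146 8 12)))))), (.s k12 k174 12 (.s k8 k4 1 (.s k195 k130 8 (.s k73 k134 10 (.s k69 k77 1 (.d
  k138 k203 k207 8 10))))))] (.c k8 (.l (.s k12 k174 12 (.s k89 k81 1 (.s k73 k121 3 (.d k195 k130
  k134 8 10))))) .n)) (.c k45 (.q k30 [(.s k12 k174 12 (.s k4 k8 1 (.s k89 k81 1 (.d k166 k247 k243
  12 14)))), (.s k81 k89 1 (.s k97 k113 3 (.s k101 k109 1 (.s k117 k69 3 (.s k48 k186 10 (.d k195
  k130 k146 8 12)))))), (.s k12 k174 12 (.s k8 k4 1 (.s k195 k130 8 (.s k73 k134 10 (.s k69 k77 1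
  (.d k138 k203 k207 8 10))))))] (.c k8 (.l (.s k12 k174 12 (.s k89 k81 1 (.s k73 k121 3 (.d k195
  k130 k134 8 10))))) .n)) .n))))) (.c k65 (.q k1 [(.s k3 k2 0 (.s k87 k171 13 (.s k86 k84 0 (.d
  k169 k253 k252 13 14)))), (.s k169 k253 13 (.s k41 k233 7 (.s k21 k61 5 (.s k63 k42 6 (.s k127
  k191 7 (.s k106 k64 6 (.d k149 k213 k192 7 14)))))))] (.c k169 (.f k3 k2 0 (.q k86 [(.d k87 k171
  k84 13 0), (.s k67 k124 6 (.s k195 k131 7 (.s k150 k60 14 (.d k215 k235 k20 5 8))))] (.c k168 (.l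
  (.s k171 k87 13 (.s k67 k124 6 (.s k195 k131 7 (.s k150 k60 14 (.d k215 k235 k20 5 8)))))) (.c
  k171 (.q k168 [(.d k84 k87 k252 0 13), (.s k67 k124 6 (.s k195 k131 7 (.s k215 k235 5 (.d k150 k20
  k60 8 14))))] .n) .n)))) (.c k253 (.l (.s k3 k2 0 (.s k87 k171 13 (.s k86 k84 0 (.s k67 k124 6 (.s
  k195 k131 7 (.s k150 k60 14 (.d k215 k235 k20 5 8)))))))) .n))) (.c k125 (.q k253 [(.s k169 k1 13
  (.s k252 k254 0 (.s k84 k168 13 (.d k86 k87 k3 0 14)))), (.s k169 k1 13 (.s k233 k41 7 (.s k213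
  k193 5 (.s k192 k234 6 (.s k64 k128 7 (.s k106 k127 6 (.d k149 k21 k63 7 14)))))))] (.c k1 (.l (.s
  k252 k254 0 (.s k84 k168 13 (.s k86 k87 0 (.s k124 k67 6 (.s k60 k188 7 (.s k20 k40 5 (.d k150
  k215 k195 8 14)))))))) (.c k169 (.f k252 k254 0 (.q k86 [(.d k84 k168 k87 13 0), (.s k124 k67 6
  (.s k60 k188 7 (.s k20 k40 5 (.d k150 k215 k195 8 14))))] (.c k168 (.q k171 [(.d k87 k84 k3 0 13),
  (.s k124 k67 6 (.s k60 k188 7 (.s k20 k40 5 (.d k150 k215 k195 8 14))))] .n) (.c k171 (.l (.s k168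
  k84 13 (.s k124 k67 6 (.s k60 k188 7 (.s k20 k40 5 (.d k150 k215 k195 8 14)))))) .n)))) .n))) (.c
  k130 (.l (.s k125 k65 5 (.s k60 k190 8 (.s k150 k195 14 (.d k20 k40 k215 5 8))))) (.c k150 (.f k65
  k125 5 (.q k193 [(.s k1 k129 7 (.s k149 k61 13 (.s k213 k21 7 (.d k253 k233 k169 5 13)))), (.s k1
  k129 7 (.s k3 k2 0 (.s k87 k171 13 (.s k86 k84 0 (.s k67 k124 6 (.d k195 k130 k131 8 7)))))), (.s
  k149 k61 13 (.s k21 k213 7 (.s k63 k42 6 (.s k106 k192 14 (.d k127 k64 k191 6 7)))))] (.c k130 (.q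
  k190 [(.s k149 k61 13 (.s k213 k21 7 (.s k253 k233 5 (.d k1 k129 k169 7 13)))), (.s k1 k129 7 (.s
  k3 k2 0 (.s k87 k171 13 (.s k86 k84 0 (.d k169 k253 k252 13 14))))), (.s k149 k61 13 (.s k21 k213
  7 (.s k63 k42 6 (.s k106 k192 14 (.d k127 k64 k191 6 7)))))] (.c k253 (.l (.s k129 k1 7 (.s k149
  k61 13 (.s k189 k169 5 (.s k21 k213 7 (.s k63 k42 6 (.d k191 k188 k127 0 7))))))) .n)) (.c k190
  (.l (.s k130 k195 8 (.s k1 k129 7 (.s k61 k149 13 (.s k41 k21 5 (.d k169 k233 k253 7 13))))))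
  .n)))) (.c k190 (.l (.s k65 k125 5 (.s k195 k130 8 (.s k150 k60 14 (.d k215 k235 k20 5 8))))) (.c
  k195 (.f k125 k65 5 (.q k51 [(.s k17 k34 4 (.s k119 k187 9 (.s k102 k68 4 (.d k153 k221 k204 9
  14)))), (.s k60 k190 8 (.s k57 k54 2 (.s k153 k201 11 (.d k17 k34 k221 4 9)))), (.s k60 k190 8 (.s
  k20 k40 5 (.s k54 k57 2 (.s k150 k215 8 (.s k102 k198 11 (.d k119 k68 k187 4 9))))))] (.c k75 (.q
  k135 [(.s k17 k34 4 (.s k119 k187 9 (.s k102 k68 4 (.d k153 k221 k204 9 14)))), (.s k60 k190 8 (.s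
  k57 k54 2 (.s k153 k201 11 (.d k17 k34 k221 4 9)))), (.s k60 k190 8 (.s k20 k40 5 (.s k54 k57 2
  (.s k150 k215 8 (.s k102 k198 11 (.d k119 k68 k187 4 9))))))] (.c k204 (.l (.s k17 k34 4 (.s k60
  k190 8 (.s k57 k54 2 (.d k153 k221 k201 9 11))))) .n)) (.c k135 (.q k75 [(.s k17 k34 4 (.s k119
  k187 9 (.s k102 k68 4 (.d k153 k221 k204 9 14)))), (.s k60 k190 8 (.s k57 k54 2 (.s k153 k201 11
  (.d k17 k34 k221 4 9)))), (.s k60 k190 8 (.s k20 k40 5 (.s k54 k57 2 (.s k150 k215 8 (.s k102 k198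
  11 (.d k119 k68 k187 4 9))))))] (.c k204 (.l (.s k17 k34 4 (.s k60 k190 8 (.s k57 k54 2 (.d k153
  k221 k201 9 11))))) .n)) (.c k204 (.l (.s k17 k34 4 (.s k60 k190 8 (.s k57 k54 2 (.d k153 k221
  k201 9 11))))) .n))))) (.c k215 (.q k1 [(.s k3 k2 0 (.s k87 k171 13 (.s k86 k84 0 (.d k169 k253
  k252 13 14)))), (.s k65 k125 5 (.s k169 k253 13 (.s k41 k233 7 (.s k61 k21 5 (.d k193 k129 k149 7
  13))))), (.s k3 k2 0 (.s k65 k125 5 (.s k129 k193 7 (.s k66 k192 8 (.s k67 k64 0 (.d k195 k131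
  k130 7 8))))))] .n) (.c k235 (.l (.s k125 k65 5 (.s k60 k190 8 (.s k20 k40 5 (.d k150 k215 k195 8
  14))))) .n))))))))))))

def t15_102 : T TT 256 :=
  (.q k86 [(.s k84 k87 0 (.s k252 k168 13 (.s k169 k3 14 (.s k253 k1 13 (.d k255 k254 k170 0
  14))))), (.s k84 k87 0 (.s k252 k168 13 (.s k3 k169 14 (.s k2 k1 0 (.d k170 k254 k255 13 14)))))]
  (.c k1 (.q k4 [(.s k12 k8 1 (.s k166 k247 12 (.s k170 k255 14 (.s k162 k174 1 (.d k243 k81 k89 12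
  14))))), (.s k84 k87 0 (.s k166 k247 12 (.s k6 k246 11 (.s k7 k5 0 (.d k244 k164 k165 11 12))))),
  (.s k12 k8 1 (.s k84 k87 0 (.s k164 k244 11 (.s k88 k240 13 (.s k92 k80 1 (.d k252 k172 k168 11
  13))))))] .n) (.c k3 (.f k170 k255 14 (.f k87 k84 0 (.f k254 k2 13 (.q k95 [(.s k83 k91 1 (.s k89
  k92 2 (.s k81 k93 1 (.d k80 k82 k90 0 2)))), (.s k90 k80 2 (.s k250 k10 11 (.s k242 k246 1 (.s k14
  k166 13 (.d k94 k82 k174 1 11))))), (.s k83 k91 1 (.s k89 k92 2 (.s k8 k251 12 (.s k12 k4 1 (.s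
  k81 k93 1 (.d k243 k162 k166 12 14))))))] (.c k7 (.q k11 [(.s k90 k80 2 (.s k169 k248 12 (.s k171
  k168 0 (.d k91 k83 k251 1 11)))), (.s k90 k80 2 (.s k250 k10 11 (.s k242 k246 1 (.s k14 k166 13
  (.d k94 k82 k174 1 11))))), (.s k91 k83 1 (.s k171 k251 11 (.s k169 k168 0 (.d k90 k80 k248 2
  12))))] (.c k80 (.l (.s k83 k91 1 (.s k92 k89 2 (.s k94 k93 0 (.s k90 k82 1 (.s k250 k10 11 (.s
  k242 k246 1 (.d k14 k174 k166 11 13)))))))) (.c k90 (.l (.s k83 k91 1 (.s k89 k92 2 (.s k8 k251 12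
  (.s k12 k4 1 (.s k81 k93 1 (.d k243 k162 k166 12 14))))))) .n))) (.c k11 (.q k7 [(.s k165 k244 12
  (.s k160 k175 2 (.d k80 k90 k240 2 11))), (.s k83 k91 1 (.s k89 k92 2 (.s k81 k93 1 (.d k80 k82
  k90 0 2)))), (.s k165 k244 12 (.s k5 k245 11 (.s k4 k6 0 (.d k247 k167 k166 11 12))))] .n) (.c k80
  (.l (.s k83 k91 1 (.s k92 k89 2 (.s k94 k93 0 (.s k90 k82 1 (.s k250 k10 11 (.s k242 k246 1 (.d
  k14 k174 k166 11 13)))))))) (.c k88 (.l (.s k80 k90 2 (.s k83 k91 1 (.s k89 k92 2 (.d k81 k82 k93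
  0 1))))) (.c k92 (.l (.s k80 k90 2 (.s k83 k91 1 (.s k81 k82 0 (.s k89 k93 1 (.s k8 k251 12 (.s
  k12 k4 1 (.d k243 k162 k166 12 14)))))))) .n))))))))) (.c k84 (.q k12 [(.s k4 k8 1 (.s k166 k247
  12 (.s k89 k243 14 (.s k93 k81 1 (.d k255 k174 k170 12 14))))), (.s k4 k8 1 (.s k166 k247 12 (.s
  k6 k246 11 (.s k3 k9 2 (.s k1 k2 0 (.d k169 k253 k252 13 14)))))), (.s k170 k255 14 (.s k2 k254 13
  (.s k3 k1 0 (.s k6 k9 2 (.s k166 k246 11 (.s k162 k174 1 (.d k243 k81 k89 12 14)))))))] (.c k166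
  (.l (.s k8 k4 1 (.s k170 k255 14 (.s k2 k254 13 (.s k3 k1 0 (.s k9 k6 2 (.s k89 k251 12 (.d k169
  k252 k249 14 11)))))))) .n)) (.c k87 (.q k12 [(.s k4 k8 1 (.s k166 k247 12 (.s k89 k243 14 (.s k93
  k81 1 (.d k255 k174 k170 12 14))))), (.s k4 k8 1 (.s k166 k247 12 (.s k6 k246 11 (.s k3 k9 2 (.s
  k1 k2 0 (.d k169 k253 k252 13 14)))))), (.s k170 k255 14 (.s k2 k254 13 (.s k3 k1 0 (.s k6 k9 2
  (.s k166 k246 11 (.s k162 k174 1 (.d k243 k81 k89 12 14)))))))] (.c k166 (.l (.s k8 k4 1 (.s k170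
  k255 14 (.s k2 k254 13 (.s k3 k1 0 (.s k9 k6 2 (.s k89 k251 12 (.d k169 k252 k249 14 11))))))))
  .n)) (.c k168 (.l (.s k87 k84 0 (.s k255 k170 14 (.s k3 k171 13 (.s k169 k252 14 (.d k1 k2 k253 0
  13)))))) (.c k169 (.f k170 k255 14 (.f k87 k84 0 (.f k254 k2 13 (.q k95 [(.s k83 k91 1 (.s k89 k92
  2 (.s k81 k93 1 (.d k80 k82 k90 0 2)))), (.s k90 k80 2 (.s k250 k10 11 (.s k242 k246 1 (.s k14
  k166 13 (.d k94 k82 k174 1 11))))), (.s k83 k91 1 (.s k89 k92 2 (.s k8 k251 12 (.s k12 k4 1 (.s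
  k81 k93 1 (.d k243 k162 k166 12 14))))))] (.c k35 (.q k236 [(.s k83 k91 1 (.s k89 k92 2 (.s k81
  k93 1 (.d k80 k82 k90 0 2)))), (.s k90 k80 2 (.s k250 k10 11 (.s k242 k246 1 (.s k14 k166 13 (.d
  k94 k82 k174 1 11))))), (.s k83 k91 1 (.s k89 k92 2 (.s k8 k251 12 (.s k12 k4 1 (.s k81 k93 1 (.d
  k243 k162 k166 12 14))))))] (.c k80 (.l (.s k83 k91 1 (.s k92 k89 2 (.s k94 k93 0 (.s k90 k82 1
  (.s k250 k10 11 (.s k242 k246 1 (.d k14 k174 k166 11 13)))))))) (.c k88 (.l (.s k80 k90 2 (.s k83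
  k91 1 (.s k89 k92 2 (.d k81 k82 k93 0 1))))) (.c k92 (.l (.s k80 k90 2 (.s k83 k91 1 (.s k81 k82 0
  (.s k89 k93 1 (.s k8 k251 12 (.s k12 k4 1 (.d k243 k162 k166 12 14)))))))) .n)))) (.c k80 (.l (.s
  k83 k91 1 (.s k92 k89 2 (.s k94 k93 0 (.s k90 k82 1 (.s k250 k10 11 (.s k242 k246 1 (.d k14 k174
  k166 11 13)))))))) (.c k88 (.l (.s k80 k90 2 (.s k83 k91 1 (.s k89 k92 2 (.d k81 k82 k93 0 1)))))
  (.c k92 (.l (.s k80 k90 2 (.s k83 k91 1 (.s k81 k82 0 (.s k89 k93 1 (.s k8 k251 12 (.s k12 k4 1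
  (.d k243 k162 k166 12 14)))))))) (.c k236 (.q k35 [(.s k83 k91 1 (.s k89 k92 2 (.s k81 k93 1 (.d
  k80 k82 k90 0 2)))), (.s k90 k80 2 (.s k250 k10 11 (.s k242 k246 1 (.s k14 k166 13 (.d k94 k82
  k174 1 11))))), (.s k83 k91 1 (.s k89 k92 2 (.s k8 k251 12 (.s k12 k4 1 (.s k81 k93 1 (.d k243
  k162 k166 12 14))))))] (.c k80 (.l (.s k83 k91 1 (.s k92 k89 2 (.s k94 k93 0 (.s k90 k82 1 (.s
  k250 k10 11 (.s k242 k246 1 (.d k14 k174 k166 11 13)))))))) (.c k88 (.l (.s k80 k90 2 (.s k83 k91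
  1 (.s k89 k92 2 (.d k81 k82 k93 0 1))))) (.c k92 (.l (.s k80 k90 2 (.s k83 k91 1 (.s k81 k82 0 (.s
  k89 k93 1 (.s k8 k251 12 (.s k12 k4 1 (.d k243 k162 k166 12 14)))))))) .n)))) .n))))))))) (.c k170
  (.f k84 k87 0 (.q k124 [(.s k64 k104 5 (.s k105 k67 6 (.s k125 k65 5 (.d k127 k126 k106 0 6)))),
  (.s k104 k64 5 (.s k252 k168 13 (.s k60 k188 7 (.s k148 k192 13 (.d k20 k40 k212 5 7))))), (.s
  k105 k67 6 (.s k65 k125 5 (.s k195 k130 8 (.s k252 k168 13 (.d k60 k150 k188 14 7)))))] (.c k34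
  (.q k238 [(.s k64 k104 5 (.s k105 k67 6 (.s k125 k65 5 (.d k127 k126 k106 0 6)))), (.s k104 k64 5
  (.s k252 k168 13 (.s k60 k188 7 (.s k148 k192 13 (.d k20 k40 k212 5 7))))), (.s k105 k67 6 (.s k65
  k125 5 (.s k195 k130 8 (.s k252 k168 13 (.d k60 k150 k188 14 7)))))] .n) (.c k238 (.q k34 [(.s k64
  k104 5 (.s k105 k67 6 (.s k125 k65 5 (.d k127 k126 k106 0 6)))), (.s k104 k64 5 (.s k252 k168 13
  (.s k60 k188 7 (.s k148 k192 13 (.d k20 k40 k212 5 7))))), (.s k105 k67 6 (.s k65 k125 5 (.s k195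
  k130 8 (.s k252 k168 13 (.d k60 k150 k188 14 7)))))] .n) .n)))) (.c k171 (.l (.s k84 k87 0 (.s
  k252 k168 13 (.s k3 k169 14 (.s k170 k255 14 (.d k2 k1 k254 0 13)))))) (.c k252 (.f k255 k170 14
  (.f k87 k84 0 (.q k34 [(.s k17 k51 4 (.s k153 k221 9 (.s k19 k220 10 (.s k16 k18 0 (.d k223 k155
  k154 9 10))))), (.s k3 k171 13 (.s k2 k1 0 (.s k18 k50 3 (.s k33 k48 4 (.s k35 k32 0 (.d k51 k19
  k17 3 4)))))), (.s k3 k171 13 (.s k2 k1 0 (.s k18 k50 3 (.s k154 k222 9 (.s k16 k223 10 (.d k48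
  k32 k33 3 4)))))), (.s k3 k171 13 (.s k51 k17 4 (.s k19 k35 3 (.s k119 k187 9 (.s k103 k71 3 (.d
  k155 k223 k207 9 13))))))] (.c k94 (.q k173 [(.s k3 k171 13 (.s k51 k17 4 (.s k19 k35 3 (.s k119
  k187 9 (.s k103 k71 3 (.d k155 k223 k207 9 13)))))), (.s k3 k171 13 (.s k2 k1 0 (.s k18 k50 3 (.s
  k154 k222 9 (.s k16 k223 10 (.d k48 k32 k33 3 4)))))), (.s k17 k51 4 (.s k153 k221 9 (.s k19 k220
  10 (.s k16 k18 0 (.d k223 k155 k154 9 10)))))] (.c k223 (.l (.s k3 k171 13 (.s k1 k2 0 (.s k17 k51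
  4 (.s k33 k49 3 (.s k32 k35 0 (.d k48 k16 k18 3 4))))))) .n)) (.c k173 (.q k94 [(.s k90 k82 1 (.s
  k95 k80 2 (.s k83 k91 1 (.d k92 k93 k89 0 2)))), (.s k17 k51 4 (.s k153 k221 9 (.s k19 k220 10 (.s
  k16 k18 0 (.d k223 k155 k154 9 10)))))] .n) .n))))) (.c k254 (.l (.s k87 k84 0 (.s k255 k170 14
  (.s k3 k171 13 (.s k1 k2 0 (.d k169 k253 k252 13 14)))))) (.c k255 (.q k106 [(.s k87 k84 0 (.s
  k126 k66 5 (.s k127 k64 6 (.s k67 k107 5 (.d k124 k125 k105 0 6))))), (.s k84 k87 0 (.s k126 k66 5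
  (.s k252 k168 13 (.s k63 k189 8 (.s k21 k42 6 (.d k149 k213 k192 7 14)))))), (.s k64 k127 6 (.s
  k84 k87 0 (.s k192 k128 7 (.s k252 k168 13 (.s k212 k232 5 (.d k149 k63 k23 14 8)))))), (.s k64
  k127 6 (.s k66 k126 5 (.s k192 k128 7 (.s k3 k129 8 (.s k1 k2 0 (.d k169 k253 k252 13 14))))))]
  (.c k95 (.q k175 [(.s k87 k84 0 (.s k126 k66 5 (.s k127 k64 6 (.s k67 k107 5 (.d k124 k125 k105 0
  6))))), (.s k84 k87 0 (.s k126 k66 5 (.s k252 k168 13 (.s k63 k189 8 (.s k21 k42 6 (.d k149 k213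
  k192 7 14)))))), (.s k64 k127 6 (.s k84 k87 0 (.s k192 k128 7 (.s k252 k168 13 (.s k212 k232 5 (.d
  k149 k63 k23 14 8)))))), (.s k64 k127 6 (.s k66 k126 5 (.s k192 k128 7 (.s k3 k129 8 (.s k1 k2 0
  (.d k169 k253 k252 13 14))))))] .n) (.c k175 (.q k95 [(.s k64 k127 6 (.s k66 k126 5 (.s k67 k65 0
  (.s k84 k87 0 (.d k124 k104 k105 5 6))))), (.s k90 k80 2 (.s k122 k74 3 (.s k127 k64 6 (.s k79
  k111 3 (.d k112 k117 k101 2 6))))), (.s k80 k90 2 (.s k84 k87 0 (.s k92 k88 1 (.s k89 k83 2 (.d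
  k93 k94 k81 0 1)))))] .n) .n))) .n))))))))))))

def t15_106 : T TT 256 :=
  (.q k86 [(.s k84 k87 0 (.s k252 k168 13 (.s k169 k3 14 (.s k253 k1 13 (.d k255 k254 k170 0
  14))))), (.s k84 k87 0 (.s k252 k168 13 (.s k3 k169 14 (.s k2 k1 0 (.d k170 k254 k255 13 14)))))]
  (.c k1 (.q k4 [(.s k12 k8 1 (.s k166 k247 12 (.s k170 k255 14 (.s k162 k174 1 (.d k243 k81 k89 12
  14))))), (.s k84 k87 0 (.s k166 k247 12 (.s k6 k246 11 (.s k7 k5 0 (.d k244 k164 k165 11 12))))),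
  (.s k12 k8 1 (.s k84 k87 0 (.s k164 k244 11 (.s k88 k240 13 (.s k92 k80 1 (.d k252 k172 k168 11
  13))))))] .n) (.c k3 (.f k170 k255 14 (.f k87 k84 0 (.f k254 k2 13 (.q k95 [(.s k83 k91 1 (.s k89
  k92 2 (.s k81 k93 1 (.d k80 k82 k90 0 2)))), (.s k90 k80 2 (.s k250 k10 11 (.s k242 k246 1 (.s k14
  k166 13 (.d k94 k82 k174 1 11))))), (.s k83 k91 1 (.s k89 k92 2 (.s k8 k251 12 (.s k12 k4 1 (.s
  k81 k93 1 (.d k243 k162 k166 12 14))))))] (.c k7 (.q k11 [(.s k90 k80 2 (.s k169 k248 12 (.s k171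
  k168 0 (.d k91 k83 k251 1 11)))), (.s k90 k80 2 (.s k250 k10 11 (.s k242 k246 1 (.s k14 k166 13
  (.d k94 k82 k174 1 11))))), (.s k91 k83 1 (.s k171 k251 11 (.s k169 k168 0 (.d k90 k80 k248 2
  12))))] (.c k80 (.l (.s k83 k91 1 (.s k92 k89 2 (.s k94 k93 0 (.s k90 k82 1 (.s k250 k10 11 (.s
  k242 k246 1 (.d k14 k174 k166 11 13)))))))) (.c k90 (.l (.s k83 k91 1 (.s k89 k92 2 (.s k8 k251 12
  (.s k12 k4 1 (.s k81 k93 1 (.d k243 k162 k166 12 14))))))) .n))) (.c k11 (.q k7 [(.s k165 k244 12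
  (.s k160 k175 2 (.d k80 k90 k240 2 11))), (.s k83 k91 1 (.s k89 k92 2 (.s k81 k93 1 (.d k80 k82
  k90 0 2)))), (.s k165 k244 12 (.s k5 k245 11 (.s k4 k6 0 (.d k247 k167 k166 11 12))))] .n) (.c k80
  (.l (.s k83 k91 1 (.s k92 k89 2 (.s k94 k93 0 (.s k90 k82 1 (.s k250 k10 11 (.s k242 k246 1 (.d
  k14 k174 k166 11 13)))))))) (.c k88 (.l (.s k80 k90 2 (.s k83 k91 1 (.s k89 k92 2 (.d k81 k82 k93
  0 1))))) (.c k92 (.l (.s k80 k90 2 (.s k83 k91 1 (.s k81 k82 0 (.s k89 k93 1 (.s k8 k251 12 (.s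
  k12 k4 1 (.d k243 k162 k166 12 14)))))))) .n))))))))) (.c k84 (.q k12 [(.s k4 k8 1 (.s k166 k247
  12 (.s k89 k243 14 (.s k93 k81 1 (.d k255 k174 k170 12 14))))), (.s k4 k8 1 (.s k166 k247 12 (.s
  k6 k246 11 (.s k3 k9 2 (.s k1 k2 0 (.d k169 k253 k252 13 14)))))), (.s k170 k255 14 (.s k2 k254 13
  (.s k3 k1 0 (.s k6 k9 2 (.s k166 k246 11 (.s k162 k174 1 (.d k243 k81 k89 12 14)))))))] (.c k166
  (.l (.s k8 k4 1 (.s k170 k255 14 (.s k2 k254 13 (.s k3 k1 0 (.s k9 k6 2 (.s k89 k251 12 (.d k169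
  k252 k249 14 11)))))))) .n)) (.c k87 (.q k12 [(.s k4 k8 1 (.s k166 k247 12 (.s k89 k243 14 (.s k93
  k81 1 (.d k255 k174 k170 12 14))))), (.s k4 k8 1 (.s k166 k247 12 (.s k6 k246 11 (.s k3 k9 2 (.s
  k1 k2 0 (.d k169 k253 k252 13 14)))))), (.s k170 k255 14 (.s k2 k254 13 (.s k3 k1 0 (.s k6 k9 2
  (.s k166 k246 11 (.s k162 k174 1 (.d k243 k81 k89 12 14)))))))] (.c k166 (.l (.s k8 k4 1 (.s k170
  k255 14 (.s k2 k254 13 (.s k3 k1 0 (.s k9 k6 2 (.s k89 k251 12 (.d k169 k252 k249 14 11))))))))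
  .n)) (.c k168 (.l (.s k87 k84 0 (.s k255 k170 14 (.s k3 k171 13 (.s k169 k252 14 (.d k1 k2 k253 0
  13)))))) (.c k169 (.f k170 k255 14 (.f k254 k2 13 (.f k87 k84 0 (.q k95 [(.s k83 k91 1 (.s k89 k92
  2 (.s k81 k93 1 (.d k80 k82 k90 0 2)))), (.s k90 k80 2 (.s k250 k10 11 (.s k242 k246 1 (.s k14
  k166 13 (.d k94 k82 k174 1 11))))), (.s k83 k91 1 (.s k89 k92 2 (.s k8 k251 12 (.s k12 k4 1 (.s
  k81 k93 1 (.d k243 k162 k166 12 14))))))] (.c k43 (.q k232 [(.s k83 k91 1 (.s k89 k92 2 (.s k81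
  k93 1 (.d k80 k82 k90 0 2)))), (.s k90 k80 2 (.s k250 k10 11 (.s k242 k246 1 (.s k14 k166 13 (.d
  k94 k82 k174 1 11))))), (.s k83 k91 1 (.s k89 k92 2 (.s k8 k251 12 (.s k12 k4 1 (.s k81 k93 1 (.d
  k243 k162 k166 12 14))))))] (.c k80 (.l (.s k83 k91 1 (.s k92 k89 2 (.s k94 k93 0 (.s k90 k82 1
  (.s k250 k10 11 (.s k242 k246 1 (.d k14 k174 k166 11 13)))))))) (.c k88 (.l (.s k80 k90 2 (.s k83
  k91 1 (.s k89 k92 2 (.d k81 k82 k93 0 1))))) (.c k92 (.l (.s k80 k90 2 (.s k83 k91 1 (.s k81 k82 0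
  (.s k89 k93 1 (.s k8 k251 12 (.s k12 k4 1 (.d k243 k162 k166 12 14)))))))) .n)))) (.c k80 (.l (.s
  k83 k91 1 (.s k92 k89 2 (.s k94 k93 0 (.s k90 k82 1 (.s k250 k10 11 (.s k242 k246 1 (.d k14 k174
  k166 11 13)))))))) (.c k88 (.l (.s k80 k90 2 (.s k83 k91 1 (.s k89 k92 2 (.d k81 k82 k93 0 1)))))
  (.c k92 (.l (.s k80 k90 2 (.s k83 k91 1 (.s k81 k82 0 (.s k89 k93 1 (.s k8 k251 12 (.s k12 k4 1
  (.d k243 k162 k166 12 14)))))))) (.c k232 (.q k43 [(.s k83 k91 1 (.s k89 k92 2 (.s k81 k93 1 (.d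
  k80 k82 k90 0 2)))), (.s k90 k80 2 (.s k250 k10 11 (.s k242 k246 1 (.s k14 k166 13 (.d k94 k82
  k174 1 11))))), (.s k83 k91 1 (.s k89 k92 2 (.s k8 k251 12 (.s k12 k4 1 (.s k81 k93 1 (.d k243
  k162 k166 12 14))))))] (.c k80 (.l (.s k83 k91 1 (.s k92 k89 2 (.s k94 k93 0 (.s k90 k82 1 (.s
  k250 k10 11 (.s k242 k246 1 (.d k14 k174 k166 11 13)))))))) (.c k88 (.l (.s k80 k90 2 (.s k83 k91
  1 (.s k89 k92 2 (.d k81 k82 k93 0 1))))) (.c k92 (.l (.s k80 k90 2 (.s k83 k91 1 (.s k81 k82 0 (.s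
  k89 k93 1 (.s k8 k251 12 (.s k12 k4 1 (.d k243 k162 k166 12 14)))))))) .n)))) .n))))))))) (.c k170
  (.f k84 k87 0 (.q k221 [(.s k153 k17 9 (.s k220 k19 10 (.s k16 k152 9 (.d k223 k222 k154 0 10)))),
  (.s k252 k168 13 (.s k169 k3 14 (.s k253 k1 13 (.s k237 k205 3 (.s k207 k222 4 (.s k69 k138 10 (.d
  k101 k117 k33 3 9))))))), (.s k153 k17 9 (.s k252 k168 13 (.s k169 k3 14 (.s k185 k137 3 (.s k51
  k118 10 (.s k204 k102 14 (.d k220 k236 k19 3 10)))))))] (.c k42 (.q k234 [(.s k153 k17 9 (.s k220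
  k19 10 (.s k16 k152 9 (.d k223 k222 k154 0 10)))), (.s k252 k168 13 (.s k169 k3 14 (.s k253 k1 13
  (.s k237 k205 3 (.s k207 k222 4 (.s k69 k138 10 (.d k101 k117 k33 3 9))))))), (.s k153 k17 9 (.s
  k252 k168 13 (.s k169 k3 14 (.s k185 k137 3 (.s k51 k118 10 (.s k204 k102 14 (.d k220 k236 k19 3
  10)))))))] .n) (.c k234 (.q k42 [(.s k153 k17 9 (.s k220 k19 10 (.s k16 k152 9 (.d k223 k222 k154
  0 10)))), (.s k21 k63 6 (.s k149 k213 7 (.s k23 k212 8 (.s k22 k20 0 (.s k2 k62 5 (.s k3 k1 0 (.d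
  k252 k168 k169 13 14)))))))] .n) .n)))) (.c k171 (.l (.s k84 k87 0 (.s k252 k168 13 (.s k3 k169 14
  (.s k170 k255 14 (.d k2 k1 k254 0 13)))))) (.c k252 (.f k84 k87 0 (.q k153 [(.s k220 k19 10 (.s
  k16 k152 9 (.s k221 k17 9 (.d k223 k222 k154 0 10)))), (.s k19 k220 10 (.s k170 k255 14 (.s k136
  k187 4 (.s k204 k68 9 (.s k51 k102 14 (.s k3 k35 3 (.d k2 k254 k1 13 0))))))), (.s k17 k221 9 (.s
  k51 k34 4 (.s k170 k255 14 (.s k136 k187 4 (.d k204 k68 k102 9 14)))))] (.c k94 (.q k173 [(.s k220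
  k19 10 (.s k16 k152 9 (.s k221 k17 9 (.d k223 k222 k154 0 10)))), (.s k19 k220 10 (.s k170 k255 14
  (.s k136 k187 4 (.s k204 k68 9 (.s k51 k102 14 (.s k3 k35 3 (.d k2 k254 k1 13 0))))))), (.s k17
  k221 9 (.s k51 k34 4 (.s k170 k255 14 (.s k136 k187 4 (.d k204 k68 k102 9 14)))))] .n) (.c k173
  (.q k94 [(.s k220 k19 10 (.s k16 k152 9 (.s k221 k17 9 (.d k223 k222 k154 0 10)))), (.s k17 k221 9
  (.s k51 k34 4 (.s k170 k255 14 (.s k136 k187 4 (.d k204 k68 k102 9 14))))), (.s k90 k82 1 (.s k216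
  k27 8 (.s k220 k19 10 (.s k31 k157 8 (.d k208 k212 k149 1 10)))))] .n) .n)))) (.c k254 (.l (.s k87
  k84 0 (.s k255 k170 14 (.s k3 k171 13 (.s k1 k2 0 (.d k169 k253 k252 13 14)))))) (.c k255 (.q k105
  [(.s k65 k125 5 (.s k84 k87 0 (.s k195 k130 8 (.s k252 k168 13 (.s k214 k233 6 (.d k150 k60 k22 14
  7)))))), (.s k65 k125 5 (.s k67 k124 6 (.s k195 k130 8 (.s k3 k131 7 (.s k1 k2 0 (.d k169 k253
  k252 13 14)))))), (.s k84 k87 0 (.s k124 k67 6 (.s k252 k168 13 (.s k60 k188 7 (.s k20 k40 5 (.d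
  k150 k215 k195 8 14))))))] (.c k3 (.l (.s k65 k125 5 (.s k124 k67 6 (.s k195 k130 8 (.s k60 k150
  14 (.s k252 k188 7 (.d k84 k87 k168 0 13))))))) (.c k60 (.l (.s k67 k124 6 (.s k84 k87 0 (.s k252
  k168 13 (.s k3 k169 14 (.s k195 k131 7 (.d k65 k125 k130 5 8))))))) (.c k95 (.q k175 [(.s k65 k125
  5 (.s k84 k87 0 (.s k195 k130 8 (.s k252 k168 13 (.s k214 k233 6 (.d k150 k60 k22 14 7)))))), (.s
  k65 k125 5 (.s k67 k124 6 (.s k195 k130 8 (.s k3 k131 7 (.s k1 k2 0 (.d k169 k253 k252 13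
  14)))))), (.s k84 k87 0 (.s k124 k67 6 (.s k252 k168 13 (.s k60 k188 7 (.s k20 k40 5 (.d k150 k215
  k195 8 14))))))] (.c k3 (.l (.s k65 k125 5 (.s k124 k67 6 (.s k195 k130 8 (.s k60 k150 14 (.s k252
  k188 7 (.d k84 k87 k168 0 13))))))) (.c k60 (.l (.s k67 k124 6 (.s k84 k87 0 (.s k252 k168 13 (.s
  k3 k169 14 (.s k195 k131 7 (.d k65 k125 k130 5 8))))))) (.c k195 (.l (.s k84 k87 0 (.s k124 k67 6
  (.s k104 k64 5 (.s k252 k168 13 (.s k60 k188 7 (.s k20 k40 5 (.d k148 k212 k192 7 13)))))))) (.c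
  k252 (.l (.s k65 k125 5 (.s k67 k124 6 (.s k66 k64 0 (.s k195 k130 8 (.s k3 k131 7 (.s k1 k2 0 (.d
  k129 k193 k192 7 8)))))))) .n))))) (.c k175 (.q k95 [(.s k87 k84 0 (.s k83 k91 1 (.s k89 k92 2 (.s
  k81 k93 1 (.d k80 k82 k90 0 2))))), (.s k65 k125 5 (.s k67 k124 6 (.s k195 k130 8 (.s k3 k131 7
  (.s k1 k2 0 (.d k169 k253 k252 13 14))))))] .n) (.c k195 (.l (.s k84 k87 0 (.s k124 k67 6 (.s k104
  k64 5 (.s k252 k168 13 (.s k60 k188 7 (.s k20 k40 5 (.d k148 k212 k192 7 13)))))))) (.c k252 (.l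
  (.s k65 k125 5 (.s k67 k124 6 (.s k66 k64 0 (.s k195 k130 8 (.s k3 k131 7 (.s k1 k2 0 (.d k129
  k193 k192 7 8)))))))) .n))))))) .n))))))))))))

def t15_107 : T TT 256 :=
  (.f k255 k170 14 (.q k102 [(.s k68 k119 4 (.s k204 k136 9 (.s k221 k238 4 (.d k153 k17 k51 9
  14))))] (.c k17 (.q k1 [(.s k3 k2 0 (.s k169 k253 13 (.s k86 k252 14 (.d k87 k84 k171 0 13)))),
  (.s k68 k119 4 (.s k204 k136 9 (.s k221 k238 4 (.s k253 k169 13 (.s k205 k237 3 (.s k69 k137 9 (.d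
  k207 k138 k206 10 0))))))), (.s k3 k2 0 (.s k68 k119 4 (.s k204 k136 9 (.s k70 k137 10 (.s k86
  k118 3 (.d k87 k84 k171 0 13))))))] (.c k171 (.l (.s k3 k2 0 (.s k119 k68 4 (.s k51 k187 9 (.s k35
  k19 3 (.d k169 k236 k253 10 13)))))) .n)) (.c k51 (.f k68 k119 4 (.q k166 [(.s k4 k247 12 (.s k38
  k230 7 (.s k55 k21 4 (.d k196 k132 k149 7 12)))), (.s k204 k136 9 (.s k230 k38 7 (.s k243 k217 6
  (.s k81 k162 12 (.d k89 k12 k93 14 1))))), (.s k4 k247 12 (.s k12 k8 1 (.s k89 k243 14 (.d k93 k81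
  k174 1 12))))] (.c k27 (.q k39 [(.s k4 k247 12 (.s k38 k230 7 (.s k55 k21 4 (.d k196 k132 k149 7
  12)))), (.s k38 k230 7 (.s k36 k37 0 (.s k101 k231 8 (.s k100 k103 0 (.d k228 k164 k165 7 8))))),
  (.s k4 k247 12 (.s k12 k8 1 (.s k89 k243 14 (.d k93 k81 k174 1 12))))] .n) (.c k39 (.q k27 [(.s k4
  k247 12 (.s k38 k230 7 (.s k55 k21 4 (.d k196 k132 k149 7 12)))), (.s k204 k136 9 (.s k230 k38 7
  (.s k243 k217 6 (.s k81 k162 12 (.d k89 k12 k93 14 1))))), (.s k4 k247 12 (.s k12 k8 1 (.s k89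
  k243 14 (.d k93 k81 k174 1 12))))] .n) .n)))) (.c k68 (.q k4 [(.s k12 k8 1 (.s k93 k174 12 (.s k89
  k81 1 (.d k166 k247 k243 12 14)))), (.s k166 k247 12 (.s k38 k230 7 (.s k21 k55 4 (.s k63 k42 6
  (.s k127 k191 7 (.s k106 k64 6 (.d k149 k213 k192 7 14)))))))] (.c k166 (.f k12 k8 1 (.q k89 [(.d
  k93 k174 k81 12 1), (.s k76 k115 6 (.s k204 k140 7 (.s k153 k51 14 (.d k221 k238 k17 4 9))))] (.c
  k162 (.l (.s k174 k93 12 (.s k76 k115 6 (.s k204 k140 7 (.s k153 k51 14 (.d k221 k238 k17 4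
  9)))))) (.c k174 (.q k162 [(.d k81 k93 k243 1 12), (.s k76 k115 6 (.s k204 k140 7 (.s k221 k238 4
  (.d k153 k17 k51 9 14))))] .n) .n)))) (.c k247 (.l (.s k12 k8 1 (.s k93 k174 12 (.s k89 k81 1 (.s
  k76 k115 6 (.s k204 k140 7 (.s k153 k51 14 (.d k221 k238 k17 4 9)))))))) .n))) (.c k119 (.q k81
  [(.s k89 k93 1 (.s k243 k162 12 (.s k247 k251 1 (.d k166 k4 k12 12 14)))), (.s k89 k93 1 (.s k115
  k76 6 (.s k64 k98 4 (.s k192 k128 7 (.s k213 k234 6 (.s k149 k21 7 (.d k106 k127 k63 6 14)))))))]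
  (.c k89 (.f k243 k162 12 (.q k166 [(.d k247 k251 k4 1 12), (.s k230 k38 7 (.s k204 k217 6 (.s k153
  k51 14 (.d k221 k238 k17 4 9))))] (.c k8 (.l (.s k251 k247 1 (.s k230 k38 7 (.s k204 k217 6 (.s
  k153 k51 14 (.d k221 k238 k17 4 9)))))) (.c k251 (.q k8 [(.d k4 k12 k247 1 12), (.s k230 k38 7 (.s
  k204 k217 6 (.s k221 k238 4 (.d k153 k17 k51 9 14))))] .n) .n)))) (.c k93 (.l (.s k243 k162 12 (.s
  k247 k251 1 (.s k166 k4 12 (.s k230 k38 7 (.s k204 k217 6 (.s k153 k51 14 (.d k221 k238 k17 4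
  9)))))))) .n))) (.c k136 (.l (.s k119 k68 4 (.s k51 k187 9 (.s k153 k204 14 (.d k17 k34 k221 4
  9))))) (.c k153 (.f k68 k119 4 (.q k196 [(.s k4 k132 7 (.s k149 k55 12 (.s k213 k21 7 (.d k247
  k230 k166 4 12)))), (.s k4 k132 7 (.s k12 k8 1 (.s k93 k174 12 (.s k89 k81 1 (.s k76 k115 6 (.d
  k204 k136 k140 9 7)))))), (.s k149 k55 12 (.s k21 k213 7 (.s k63 k42 6 (.s k106 k192 14 (.d k127
  k64 k191 6 7)))))] (.c k136 (.q k187 [(.s k149 k55 12 (.s k213 k21 7 (.s k247 k230 4 (.d k4 k132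
  k166 7 12)))), (.s k4 k132 7 (.s k12 k8 1 (.s k93 k174 12 (.s k89 k81 1 (.d k166 k247 k243 12
  14))))), (.s k149 k55 12 (.s k21 k213 7 (.s k63 k42 6 (.s k106 k192 14 (.d k127 k64 k191 6 7)))))]
  (.c k247 (.l (.s k132 k4 7 (.s k149 k55 12 (.s k183 k166 4 (.s k21 k213 7 (.s k63 k42 6 (.d k191
  k179 k127 1 7))))))) .n)) (.c k187 (.l (.s k136 k204 9 (.s k4 k132 7 (.s k55 k149 12 (.s k38 k21 4
  (.d k166 k230 k247 7 12)))))) .n)))) (.c k187 (.l (.s k68 k119 4 (.s k204 k136 9 (.s k153 k51 14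
  (.d k221 k238 k17 4 9))))) (.c k204 (.f k68 k119 4 (.q k101 [(.s k117 k69 3 (.s k48 k186 10 (.s
  k16 k32 3 (.d k154 k223 k207 10 14)))), (.s k100 k103 0 (.s k84 k116 3 (.s k252 k168 13 (.s k253
  k254 0 (.s k169 k1 13 (.d k86 k87 k3 0 14))))))] (.c k78 (.q k141 [(.s k117 k69 3 (.s k48 k186 10
  (.s k16 k32 3 (.d k154 k223 k207 10 14)))), (.s k100 k103 0 (.s k84 k116 3 (.s k252 k168 13 (.s
  k253 k254 0 (.s k169 k1 13 (.d k86 k87 k3 0 14))))))] (.c k117 (.l (.s k100 k103 0 (.s k116 k84 3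
  (.s k71 k86 4 (.s k69 k70 0 (.s k207 k138 10 (.s k154 k48 14 (.d k223 k239 k16 3 10)))))))) .n))
  (.c k117 (.l (.s k100 k103 0 (.s k116 k84 3 (.s k71 k86 4 (.s k69 k70 0 (.s k207 k138 10 (.s k154
  k48 14 (.d k223 k239 k16 3 10)))))))) (.c k141 (.q k78 [(.s k117 k69 3 (.s k48 k186 10 (.s k16 k32
  3 (.d k154 k223 k207 10 14)))), (.s k90 k114 5 (.s k79 k112 6 (.s k76 k77 0 (.s k103 k100 0 (.d
  k115 k91 k89 5 6)))))] (.c k48 (.l (.s k69 k117 3 (.s k71 k70 0 (.s k100 k103 0 (.d k116 k84 k86 3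
  4))))) .n)) .n))))) (.c k221 (.q k1 [(.s k3 k2 0 (.s k87 k171 13 (.s k86 k84 0 (.d k169 k253 k252
  13 14)))), (.s k68 k119 4 (.s k169 k253 13 (.s k204 k136 9 (.s k153 k51 14 (.s k137 k185 3 (.s k70
  k3 10 (.d k69 k205 k71 9 0))))))), (.s k3 k2 0 (.s k68 k119 4 (.s k204 k136 9 (.s k70 k137 10 (.s
  k86 k118 3 (.d k87 k84 k171 0 13))))))] (.c k3 (.l (.s k119 k68 4 (.s k51 k187 9 (.s k17 k34 4 (.s
  k49 k33 3 (.s k48 k50 0 (.s k117 k186 10 (.d k253 k185 k169 9 13)))))))) .n)) (.c k238 (.l (.s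
  k119 k68 4 (.s k51 k187 9 (.s k17 k34 4 (.d k153 k221 k204 9 14))))) .n))))))))))))

def t15_111 : T TT 256 :=
  (.f k255 k170 14 (.q k105 [(.s k65 k125 5 (.s k195 k130 8 (.s k215 k235 5 (.d k150 k20 k60 8
  14))))] (.c k20 (.q k1 [(.s k3 k2 0 (.s k87 k171 13 (.s k169 k253 13 (.d k86 k84 k252 0 14)))),
  (.s k65 k125 5 (.s k169 k253 13 (.s k41 k233 7 (.s k61 k21 5 (.d k193 k129 k149 7 13))))), (.s k3
  k2 0 (.s k65 k125 5 (.s k129 k193 7 (.s k66 k192 8 (.s k67 k64 0 (.d k195 k131 k130 7 8))))))] .n)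
  (.c k60 (.f k65 k125 5 (.q k127 [(.s k63 k191 7 (.s k21 k42 6 (.s k106 k64 6 (.d k149 k213 k192 7
  14)))), (.s k64 k106 6 (.s k67 k66 0 (.s k86 k124 6 (.d k87 k84 k107 0 5)))), (.s k63 k191 7 (.s
  k195 k130 8 (.s k107 k151 13 (.s k87 k67 5 (.s k171 k3 13 (.d k235 k215 k43 5 7))))))] (.c k30 (.q
  k45 [(.s k63 k191 7 (.s k21 k42 6 (.s k106 k64 6 (.d k149 k213 k192 7 14)))), (.s k64 k106 6 (.s
  k67 k66 0 (.s k86 k124 6 (.d k87 k84 k107 0 5)))), (.s k63 k191 7 (.s k195 k130 8 (.s k107 k151 13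
  (.s k87 k67 5 (.s k171 k3 13 (.d k235 k215 k43 5 7))))))] .n) (.c k45 (.q k30 [(.s k63 k191 7 (.s
  k21 k42 6 (.s k106 k64 6 (.d k149 k213 k192 7 14)))), (.s k64 k106 6 (.s k67 k66 0 (.s k86 k124 6
  (.d k87 k84 k107 0 5)))), (.s k63 k191 7 (.s k195 k130 8 (.s k107 k151 13 (.s k87 k67 5 (.s k171
  k3 13 (.d k235 k215 k43 5 7))))))] .n) .n)))) (.c k65 (.q k87 [(.s k3 k171 13 (.s k1 k2 0 (.s k86
  k84 0 (.d k169 k253 k252 13 14)))), (.s k86 k84 0 (.s k67 k124 6 (.s k127 k107 5 (.s k63 k191 7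
  (.s k21 k42 6 (.s k149 k213 7 (.d k106 k64 k192 6 14)))))))] (.c k84 (.l (.s k3 k171 13 (.s k1 k2
  0 (.s k169 k253 13 (.s k41 k233 7 (.s k60 k22 6 (.s k20 k40 5 (.d k150 k215 k195 8 14)))))))) (.c
  k86 (.f k3 k171 13 (.q k169 [(.d k1 k2 k253 0 13), (.s k41 k233 7 (.s k60 k22 6 (.s k20 k40 5 (.d
  k150 k215 k195 8 14))))] (.c k2 (.q k254 [(.d k253 k252 k1 0 13), (.s k41 k233 7 (.s k60 k22 6 (.s
  k20 k40 5 (.d k150 k215 k195 8 14))))] .n) (.c k254 (.l (.s k2 k1 0 (.s k41 k233 7 (.s k60 k22 6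
  (.s k20 k40 5 (.d k150 k215 k195 8 14)))))) .n)))) .n))) (.c k125 (.q k253 [(.s k169 k1 13 (.s
  k252 k254 0 (.s k84 k168 13 (.d k86 k87 k3 0 14)))), (.s k169 k1 13 (.s k233 k41 7 (.s k213 k193 5
  (.s k192 k234 6 (.s k64 k128 7 (.s k106 k127 6 (.d k149 k21 k63 7 14)))))))] (.c k1 (.l (.s k252
  k254 0 (.s k84 k168 13 (.s k86 k87 0 (.s k124 k67 6 (.s k60 k188 7 (.s k20 k40 5 (.d k150 k215
  k195 8 14)))))))) (.c k169 (.f k252 k254 0 (.q k86 [(.d k84 k168 k87 13 0), (.s k124 k67 6 (.s k60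
  k188 7 (.s k20 k40 5 (.d k150 k215 k195 8 14))))] (.c k168 (.q k171 [(.d k87 k84 k3 0 13), (.s
  k124 k67 6 (.s k60 k188 7 (.s k20 k40 5 (.d k150 k215 k195 8 14))))] .n) (.c k171 (.l (.s k168 k84
  13 (.s k124 k67 6 (.s k60 k188 7 (.s k20 k40 5 (.d k150 k215 k195 8 14)))))) .n)))) .n))) (.c k130
  (.l (.s k125 k65 5 (.s k60 k190 8 (.s k150 k195 14 (.d k20 k40 k215 5 8))))) (.c k150 (.f k65 k125
  5 (.q k1 [(.s k3 k2 0 (.s k87 k171 13 (.s k86 k84 0 (.d k169 k253 k252 13 14)))), (.s k169 k253 13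
  (.s k41 k233 7 (.s k61 k21 5 (.d k193 k129 k149 7 13)))), (.s k3 k2 0 (.s k129 k193 7 (.s k66 k192
  8 (.s k67 k64 0 (.d k195 k130 k131 8 7)))))] (.c k130 (.q k190 [(.s k169 k253 13 (.s k41 k233 7
  (.s k61 k21 5 (.d k193 k129 k149 7 13)))), (.s k3 k2 0 (.s k87 k171 13 (.s k86 k84 0 (.s k67 k124
  6 (.s k127 k107 5 (.d k64 k66 k106 0 6))))))] (.c k169 (.l (.s k3 k2 0 (.s k129 k193 7 (.s k66
  k192 8 (.s k67 k64 0 (.s k86 k124 6 (.d k87 k84 k171 0 13))))))) .n)) (.c k190 (.l (.s k130 k195 8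
  (.s k3 k2 0 (.s k87 k171 13 (.s k86 k84 0 (.d k169 k253 k252 13 14)))))) .n)))) (.c k190 (.l (.s
  k65 k125 5 (.s k195 k130 8 (.s k150 k60 14 (.d k215 k235 k20 5 8))))) (.c k195 (.f k65 k125 5 (.q
  k1 [(.s k3 k2 0 (.s k87 k171 13 (.s k86 k84 0 (.d k169 k253 k252 13 14)))), (.s k193 k129 7 (.s
  k149 k61 13 (.s k21 k213 7 (.s k63 k42 6 (.s k106 k192 14 (.d k127 k64 k191 6 7))))))] (.c k3 (.l
  (.s k169 k253 13 (.s k41 k233 7 (.s k61 k21 5 (.d k193 k129 k149 7 13))))) (.c k75 (.q k135 [(.s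
  k3 k2 0 (.s k87 k171 13 (.s k86 k84 0 (.d k169 k253 k252 13 14)))), (.s k193 k129 7 (.s k149 k61
  13 (.s k21 k213 7 (.s k63 k42 6 (.s k106 k192 14 (.d k127 k64 k191 6 7))))))] (.c k3 (.l (.s k169
  k253 13 (.s k41 k233 7 (.s k61 k21 5 (.d k193 k129 k149 7 13))))) (.c k253 (.l (.s k3 k2 0 (.s k87
  k171 13 (.s k86 k84 0 (.s k67 k124 6 (.s k64 k66 0 (.d k127 k107 k106 5 6))))))) .n))) (.c k135
  (.q k75 [(.s k3 k2 0 (.s k87 k171 13 (.s k86 k84 0 (.d k169 k253 k252 13 14)))), (.s k193 k129 7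
  (.s k149 k61 13 (.s k21 k213 7 (.s k63 k42 6 (.s k106 k192 14 (.d k127 k64 k191 6 7))))))] (.c k3
  (.l (.s k169 k253 13 (.s k41 k233 7 (.s k61 k21 5 (.d k193 k129 k149 7 13))))) (.c k253 (.l (.s k3
  k2 0 (.s k87 k171 13 (.s k86 k84 0 (.s k67 k124 6 (.s k64 k66 0 (.d k127 k107 k106 5 6)))))))
  .n))) (.c k253 (.l (.s k3 k2 0 (.s k87 k171 13 (.s k86 k84 0 (.s k67 k124 6 (.s k64 k66 0 (.d k127
  k107 k106 5 6))))))) .n)))))) (.c k215 (.q k1 [(.s k3 k2 0 (.s k87 k171 13 (.s k86 k84 0 (.d k169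
  k253 k252 13 14)))), (.s k65 k125 5 (.s k169 k253 13 (.s k41 k233 7 (.s k61 k21 5 (.d k193 k129
  k149 7 13))))), (.s k3 k2 0 (.s k65 k125 5 (.s k129 k193 7 (.s k66 k192 8 (.s k67 k64 0 (.d k195
  k131 k130 7 8))))))] .n) (.c k235 (.l (.s k125 k65 5 (.s k60 k190 8 (.s k20 k40 5 (.d k150 k215
  k195 8 14))))) .n))))))))))))

def t15_114 : T TT 256 :=
  (.f k255 k170 14 (.q k105 [(.s k65 k125 5 (.s k195 k130 8 (.s k215 k235 5 (.d k150 k20 k60 8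
  14))))] (.c k20 (.q k1 [(.s k3 k2 0 (.s k87 k171 13 (.s k169 k253 13 (.d k86 k84 k252 0 14)))),
  (.s k65 k125 5 (.s k169 k253 13 (.s k41 k233 7 (.s k61 k21 5 (.d k193 k129 k149 7 13))))), (.s k3
  k2 0 (.s k65 k125 5 (.s k129 k193 7 (.s k66 k192 8 (.s k67 k64 0 (.d k195 k131 k130 7 8))))))] .n)
  (.c k60 (.f k65 k125 5 (.q k171 [(.s k3 k87 13 (.s k1 k2 0 (.s k169 k253 13 (.s k41 k233 7 (.s k61
  k21 5 (.d k193 k129 k149 7 13)))))), (.s k195 k130 8 (.s k235 k215 5 (.s k107 k43 7 (.s k106 k104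
  0 (.s k127 k64 6 (.d k63 k191 k151 7 13))))))] (.c k30 (.q k45 [(.s k3 k87 13 (.s k1 k2 0 (.s k169
  k253 13 (.s k41 k233 7 (.s k61 k21 5 (.d k193 k129 k149 7 13)))))), (.s k195 k130 8 (.s k235 k215
  5 (.s k107 k43 7 (.s k106 k104 0 (.s k127 k64 6 (.d k63 k191 k151 7 13))))))] .n) (.c k45 (.q k30
  [(.s k3 k87 13 (.s k1 k2 0 (.s k169 k253 13 (.s k41 k233 7 (.s k61 k21 5 (.d k193 k129 k149 7
  13)))))), (.s k195 k130 8 (.s k235 k215 5 (.s k107 k43 7 (.s k106 k104 0 (.s k127 k64 6 (.d k63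
  k191 k151 7 13))))))] .n) .n)))) (.c k65 (.q k1 [(.s k3 k2 0 (.s k87 k171 13 (.s k86 k84 0 (.d
  k169 k253 k252 13 14)))), (.s k169 k253 13 (.s k41 k233 7 (.s k21 k61 5 (.s k63 k42 6 (.s k127
  k191 7 (.s k106 k64 6 (.d k149 k213 k192 7 14)))))))] (.c k169 (.f k3 k2 0 (.q k86 [(.d k87 k171
  k84 13 0), (.s k67 k124 6 (.s k195 k131 7 (.s k150 k60 14 (.d k215 k235 k20 5 8))))] (.c k168 (.l
  (.s k171 k87 13 (.s k67 k124 6 (.s k195 k131 7 (.s k150 k60 14 (.d k215 k235 k20 5 8)))))) (.c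
  k171 (.q k168 [(.d k84 k87 k252 0 13), (.s k67 k124 6 (.s k195 k131 7 (.s k215 k235 5 (.d k150 k20
  k60 8 14))))] .n) .n)))) (.c k253 (.l (.s k3 k2 0 (.s k87 k171 13 (.s k86 k84 0 (.s k67 k124 6 (.s
  k195 k131 7 (.s k150 k60 14 (.d k215 k235 k20 5 8)))))))) .n))) (.c k125 (.q k253 [(.s k169 k1 13
  (.s k252 k254 0 (.s k84 k168 13 (.d k86 k87 k3 0 14)))), (.s k169 k1 13 (.s k233 k41 7 (.s k213
  k193 5 (.s k192 k234 6 (.s k64 k128 7 (.s k106 k127 6 (.d k149 k21 k63 7 14)))))))] (.c k1 (.l (.s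
  k252 k254 0 (.s k84 k168 13 (.s k86 k87 0 (.s k124 k67 6 (.s k60 k188 7 (.s k20 k40 5 (.d k150
  k215 k195 8 14)))))))) (.c k169 (.f k252 k254 0 (.q k86 [(.d k84 k168 k87 13 0), (.s k124 k67 6
  (.s k60 k188 7 (.s k20 k40 5 (.d k150 k215 k195 8 14))))] (.c k168 (.q k171 [(.d k87 k84 k3 0 13),
  (.s k124 k67 6 (.s k60 k188 7 (.s k20 k40 5 (.d k150 k215 k195 8 14))))] .n) (.c k171 (.l (.s k168
  k84 13 (.s k124 k67 6 (.s k60 k188 7 (.s k20 k40 5 (.d k150 k215 k195 8 14)))))) .n)))) .n))) (.c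
  k130 (.l (.s k125 k65 5 (.s k60 k190 8 (.s k150 k195 14 (.d k20 k40 k215 5 8))))) (.c k150 (.f k65
  k125 5 (.q k193 [(.s k1 k129 7 (.s k149 k61 13 (.s k213 k21 7 (.d k253 k233 k169 5 13)))), (.s k1
  k129 7 (.s k3 k2 0 (.s k87 k171 13 (.s k86 k84 0 (.s k67 k124 6 (.d k195 k130 k131 8 7)))))), (.s
  k149 k61 13 (.s k21 k213 7 (.s k63 k42 6 (.s k106 k192 14 (.d k127 k64 k191 6 7)))))] (.c k130 (.q
  k190 [(.s k149 k61 13 (.s k213 k21 7 (.s k253 k233 5 (.d k1 k129 k169 7 13)))), (.s k1 k129 7 (.s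
  k3 k2 0 (.s k87 k171 13 (.s k86 k84 0 (.d k169 k253 k252 13 14))))), (.s k149 k61 13 (.s k21 k213
  7 (.s k63 k42 6 (.s k106 k192 14 (.d k127 k64 k191 6 7)))))] (.c k253 (.l (.s k129 k1 7 (.s k149
  k61 13 (.s k189 k169 5 (.s k21 k213 7 (.s k63 k42 6 (.d k191 k188 k127 0 7))))))) .n)) (.c k190
  (.l (.s k130 k195 8 (.s k1 k129 7 (.s k61 k149 13 (.s k41 k21 5 (.d k169 k233 k253 7 13))))))
  .n)))) (.c k190 (.l (.s k65 k125 5 (.s k195 k130 8 (.s k150 k60 14 (.d k215 k235 k20 5 8))))) (.c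
  k195 (.f k65 k125 5 (.q k1 [(.s k3 k2 0 (.s k87 k171 13 (.s k86 k84 0 (.d k169 k253 k252 13
  14)))), (.s k193 k129 7 (.s k149 k61 13 (.s k21 k213 7 (.s k63 k42 6 (.s k106 k192 14 (.d k127 k64
  k191 6 7))))))] (.c k3 (.l (.s k169 k253 13 (.s k41 k233 7 (.s k61 k21 5 (.d k193 k129 k149 7
  13))))) (.c k75 (.q k135 [(.s k3 k2 0 (.s k87 k171 13 (.s k86 k84 0 (.d k169 k253 k252 13 14)))),
  (.s k193 k129 7 (.s k149 k61 13 (.s k21 k213 7 (.s k63 k42 6 (.s k106 k192 14 (.d k127 k64 k191 6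
  7))))))] (.c k3 (.l (.s k169 k253 13 (.s k41 k233 7 (.s k61 k21 5 (.d k193 k129 k149 7 13))))) (.c
  k253 (.l (.s k3 k2 0 (.s k87 k171 13 (.s k86 k84 0 (.s k67 k124 6 (.s k64 k66 0 (.d k127 k107 k106
  5 6))))))) .n))) (.c k135 (.q k75 [(.s k3 k2 0 (.s k87 k171 13 (.s k86 k84 0 (.d k169 k253 k252 13
  14)))), (.s k193 k129 7 (.s k149 k61 13 (.s k21 k213 7 (.s k63 k42 6 (.s k106 k192 14 (.d k127 k64
  k191 6 7))))))] (.c k3 (.l (.s k169 k253 13 (.s k41 k233 7 (.s k61 k21 5 (.d k193 k129 k149 7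
  13))))) (.c k253 (.l (.s k3 k2 0 (.s k87 k171 13 (.s k86 k84 0 (.s k67 k124 6 (.s k64 k66 0 (.d
  k127 k107 k106 5 6))))))) .n))) (.c k253 (.l (.s k3 k2 0 (.s k87 k171 13 (.s k86 k84 0 (.s k67
  k124 6 (.s k64 k66 0 (.d k127 k107 k106 5 6))))))) .n)))))) (.c k215 (.q k1 [(.s k3 k2 0 (.s k87
  k171 13 (.s k86 k84 0 (.d k169 k253 k252 13 14)))), (.s k65 k125 5 (.s k169 k253 13 (.s k41 k233 7
  (.s k61 k21 5 (.d k193 k129 k149 7 13))))), (.s k3 k2 0 (.s k65 k125 5 (.s k129 k193 7 (.s k66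
  k192 8 (.s k67 k64 0 (.d k195 k131 k130 7 8))))))] .n) (.c k235 (.l (.s k125 k65 5 (.s k60 k190 8
  (.s k20 k40 5 (.d k150 k215 k195 8 14))))) .n))))))))))))

def t15_115 : T TT 256 :=
  (.f k255 k170 14 (.q k105 [(.s k65 k125 5 (.s k195 k130 8 (.s k215 k235 5 (.d k150 k20 k60 8
  14))))] (.c k20 (.q k1 [(.s k3 k2 0 (.s k87 k171 13 (.s k169 k253 13 (.d k86 k84 k252 0 14)))),
  (.s k65 k125 5 (.s k169 k253 13 (.s k41 k233 7 (.s k61 k21 5 (.d k193 k129 k149 7 13))))), (.s k3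
  k2 0 (.s k65 k125 5 (.s k129 k193 7 (.s k66 k192 8 (.s k67 k64 0 (.d k195 k131 k130 7 8))))))] .n)
  (.c k60 (.f k65 k125 5 (.q k171 [(.s k3 k87 13 (.s k1 k2 0 (.s k169 k253 13 (.s k41 k233 7 (.s k61
  k21 5 (.d k193 k129 k149 7 13)))))), (.s k195 k130 8 (.s k235 k215 5 (.s k107 k43 7 (.s k106 k104
  0 (.s k127 k64 6 (.d k63 k191 k151 7 13))))))] (.c k30 (.q k45 [(.s k3 k87 13 (.s k1 k2 0 (.s k169
  k253 13 (.s k41 k233 7 (.s k61 k21 5 (.d k193 k129 k149 7 13)))))), (.s k195 k130 8 (.s k235 k215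
  5 (.s k107 k43 7 (.s k106 k104 0 (.s k127 k64 6 (.d k63 k191 k151 7 13))))))] .n) (.c k45 (.q k30
  [(.s k3 k87 13 (.s k1 k2 0 (.s k169 k253 13 (.s k41 k233 7 (.s k61 k21 5 (.d k193 k129 k149 7
  13)))))), (.s k195 k130 8 (.s k235 k215 5 (.s k107 k43 7 (.s k106 k104 0 (.s k127 k64 6 (.d k63
  k191 k151 7 13))))))] .n) .n)))) (.c k65 (.q k1 [(.s k3 k2 0 (.s k87 k171 13 (.s k86 k84 0 (.d
  k169 k253 k252 13 14)))), (.s k169 k253 13 (.s k41 k233 7 (.s k21 k61 5 (.s k63 k42 6 (.s k127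
  k191 7 (.s k106 k64 6 (.d k149 k213 k192 7 14)))))))] (.c k169 (.f k3 k2 0 (.q k86 [(.d k87 k171
  k84 13 0), (.s k67 k124 6 (.s k195 k131 7 (.s k150 k60 14 (.d k215 k235 k20 5 8))))] (.c k168 (.l
  (.s k171 k87 13 (.s k67 k124 6 (.s k195 k131 7 (.s k150 k60 14 (.d k215 k235 k20 5 8)))))) (.c
  k171 (.q k168 [(.d k84 k87 k252 0 13), (.s k67 k124 6 (.s k195 k131 7 (.s k215 k235 5 (.d k150 k20
  k60 8 14))))] .n) .n)))) (.c k253 (.l (.s k3 k2 0 (.s k87 k171 13 (.s k86 k84 0 (.s k67 k124 6 (.s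
  k195 k131 7 (.s k150 k60 14 (.d k215 k235 k20 5 8)))))))) .n))) (.c k125 (.q k253 [(.s k169 k1 13
  (.s k252 k254 0 (.s k84 k168 13 (.d k86 k87 k3 0 14)))), (.s k169 k1 13 (.s k233 k41 7 (.s k213
  k193 5 (.s k192 k234 6 (.s k64 k128 7 (.s k106 k127 6 (.d k149 k21 k63 7 14)))))))] (.c k1 (.l (.s
  k252 k254 0 (.s k84 k168 13 (.s k86 k87 0 (.s k124 k67 6 (.s k60 k188 7 (.s k20 k40 5 (.d k150
  k215 k195 8 14)))))))) (.c k169 (.f k252 k254 0 (.q k86 [(.d k84 k168 k87 13 0), (.s k124 k67 6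
  (.s k60 k188 7 (.s k20 k40 5 (.d k150 k215 k195 8 14))))] (.c k168 (.q k171 [(.d k87 k84 k3 0 13),
  (.s k124 k67 6 (.s k60 k188 7 (.s k20 k40 5 (.d k150 k215 k195 8 14))))] .n) (.c k171 (.l (.s k168
  k84 13 (.s k124 k67 6 (.s k60 k188 7 (.s k20 k40 5 (.d k150 k215 k195 8 14)))))) .n)))) .n))) (.c
  k130 (.l (.s k125 k65 5 (.s k60 k190 8 (.s k150 k195 14 (.d k20 k40 k215 5 8))))) (.c k150 (.f k65
  k125 5 (.q k193 [(.s k1 k129 7 (.s k149 k61 13 (.s k213 k21 7 (.d k253 k233 k169 5 13)))), (.s k1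
  k129 7 (.s k3 k2 0 (.s k87 k171 13 (.s k86 k84 0 (.s k67 k124 6 (.d k195 k130 k131 8 7)))))), (.s
  k149 k61 13 (.s k21 k213 7 (.s k63 k42 6 (.s k106 k192 14 (.d k127 k64 k191 6 7)))))] (.c k130 (.q
  k190 [(.s k149 k61 13 (.s k213 k21 7 (.s k253 k233 5 (.d k1 k129 k169 7 13)))), (.s k1 k129 7 (.s
  k3 k2 0 (.s k87 k171 13 (.s k86 k84 0 (.d k169 k253 k252 13 14))))), (.s k149 k61 13 (.s k21 k213
  7 (.s k63 k42 6 (.s k106 k192 14 (.d k127 k64 k191 6 7)))))] (.c k253 (.l (.s k129 k1 7 (.s k149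
  k61 13 (.s k189 k169 5 (.s k21 k213 7 (.s k63 k42 6 (.d k191 k188 k127 0 7))))))) .n)) (.c k190
  (.l (.s k130 k195 8 (.s k1 k129 7 (.s k61 k149 13 (.s k41 k21 5 (.d k169 k233 k253 7 13))))))
  .n)))) (.c k190 (.l (.s k65 k125 5 (.s k195 k130 8 (.s k150 k60 14 (.d k215 k235 k20 5 8))))) (.c
  k195 (.f k65 k125 5 (.q k1 [(.s k3 k2 0 (.s k87 k171 13 (.s k86 k84 0 (.d k169 k253 k252 13
  14)))), (.s k193 k129 7 (.s k149 k61 13 (.s k21 k213 7 (.s k63 k42 6 (.s k106 k192 14 (.d k127 k64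
  k191 6 7))))))] (.c k3 (.l (.s k169 k253 13 (.s k41 k233 7 (.s k61 k21 5 (.d k193 k129 k149 7
  13))))) (.c k75 (.q k135 [(.s k3 k2 0 (.s k87 k171 13 (.s k86 k84 0 (.d k169 k253 k252 13 14)))),
  (.s k193 k129 7 (.s k149 k61 13 (.s k21 k213 7 (.s k63 k42 6 (.s k106 k192 14 (.d k127 k64 k191 6
  7))))))] (.c k3 (.l (.s k169 k253 13 (.s k41 k233 7 (.s k61 k21 5 (.d k193 k129 k149 7 13))))) (.c
  k253 (.l (.s k3 k2 0 (.s k87 k171 13 (.s k86 k84 0 (.s k67 k124 6 (.s k64 k66 0 (.d k127 k107 k106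
  5 6))))))) .n))) (.c k135 (.q k75 [(.s k3 k2 0 (.s k87 k171 13 (.s k86 k84 0 (.d k169 k253 k252 13
  14)))), (.s k193 k129 7 (.s k149 k61 13 (.s k21 k213 7 (.s k63 k42 6 (.s k106 k192 14 (.d k127 k64
  k191 6 7))))))] (.c k3 (.l (.s k169 k253 13 (.s k41 k233 7 (.s k61 k21 5 (.d k193 k129 k149 7
  13))))) (.c k253 (.l (.s k3 k2 0 (.s k87 k171 13 (.s k86 k84 0 (.s k67 k124 6 (.s k64 k66 0 (.d
  k127 k107 k106 5 6))))))) .n))) (.c k253 (.l (.s k3 k2 0 (.s k87 k171 13 (.s k86 k84 0 (.s k67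
  k124 6 (.s k64 k66 0 (.d k127 k107 k106 5 6))))))) .n)))))) (.c k215 (.q k1 [(.s k3 k2 0 (.s k87
  k171 13 (.s k86 k84 0 (.d k169 k253 k252 13 14)))), (.s k65 k125 5 (.s k169 k253 13 (.s k41 k233 7
  (.s k61 k21 5 (.d k193 k129 k149 7 13))))), (.s k3 k2 0 (.s k65 k125 5 (.s k129 k193 7 (.s k66
  k192 8 (.s k67 k64 0 (.d k195 k131 k130 7 8))))))] .n) (.c k235 (.l (.s k125 k65 5 (.s k60 k190 8
  (.s k20 k40 5 (.d k150 k215 k195 8 14))))) .n))))))))))))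

def t15_122 : T TT 256 :=
  (.f k255 k170 14 (.q k105 [(.s k65 k125 5 (.s k195 k130 8 (.s k215 k235 5 (.d k150 k20 k60 8
  14))))] (.c k20 (.q k1 [(.s k3 k2 0 (.s k87 k171 13 (.s k169 k253 13 (.d k86 k84 k252 0 14)))),
  (.s k65 k125 5 (.s k169 k253 13 (.s k41 k233 7 (.s k61 k21 5 (.d k193 k129 k149 7 13))))), (.s k3
  k2 0 (.s k65 k125 5 (.s k129 k193 7 (.s k66 k192 8 (.s k67 k64 0 (.d k195 k131 k130 7 8))))))] .n)
  (.c k60 (.f k65 k125 5 (.q k171 [(.s k3 k87 13 (.s k1 k2 0 (.s k169 k253 13 (.s k41 k233 7 (.s k61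
  k21 5 (.d k193 k129 k149 7 13)))))), (.s k195 k130 8 (.s k235 k215 5 (.s k107 k43 7 (.s k106 k104
  0 (.s k127 k64 6 (.d k63 k191 k151 7 13))))))] (.c k30 (.q k45 [(.s k3 k87 13 (.s k1 k2 0 (.s k169
  k253 13 (.s k41 k233 7 (.s k61 k21 5 (.d k193 k129 k149 7 13)))))), (.s k195 k130 8 (.s k235 k215
  5 (.s k107 k43 7 (.s k106 k104 0 (.s k127 k64 6 (.d k63 k191 k151 7 13))))))] .n) (.c k45 (.q k30
  [(.s k3 k87 13 (.s k1 k2 0 (.s k169 k253 13 (.s k41 k233 7 (.s k61 k21 5 (.d k193 k129 k149 7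
  13)))))), (.s k195 k130 8 (.s k235 k215 5 (.s k107 k43 7 (.s k106 k104 0 (.s k127 k64 6 (.d k63
  k191 k151 7 13))))))] .n) .n)))) (.c k65 (.q k1 [(.s k3 k2 0 (.s k87 k171 13 (.s k86 k84 0 (.d
  k169 k253 k252 13 14)))), (.s k169 k253 13 (.s k41 k233 7 (.s k21 k61 5 (.s k63 k42 6 (.s k127
  k191 7 (.s k106 k64 6 (.d k149 k213 k192 7 14)))))))] (.c k169 (.f k3 k2 0 (.q k86 [(.d k87 k171
  k84 13 0), (.s k67 k124 6 (.s k195 k131 7 (.s k150 k60 14 (.d k215 k235 k20 5 8))))] (.c k168 (.l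
  (.s k171 k87 13 (.s k67 k124 6 (.s k195 k131 7 (.s k150 k60 14 (.d k215 k235 k20 5 8)))))) (.c
  k171 (.q k168 [(.d k84 k87 k252 0 13), (.s k67 k124 6 (.s k195 k131 7 (.s k215 k235 5 (.d k150 k20
  k60 8 14))))] .n) .n)))) (.c k253 (.l (.s k3 k2 0 (.s k87 k171 13 (.s k86 k84 0 (.s k67 k124 6 (.s
  k195 k131 7 (.s k150 k60 14 (.d k215 k235 k20 5 8)))))))) .n))) (.c k125 (.q k253 [(.s k169 k1 13
  (.s k252 k254 0 (.s k84 k168 13 (.d k86 k87 k3 0 14)))), (.s k169 k1 13 (.s k233 k41 7 (.s k213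
  k193 5 (.s k192 k234 6 (.s k64 k128 7 (.s k106 k127 6 (.d k149 k21 k63 7 14)))))))] (.c k1 (.l (.s
  k252 k254 0 (.s k84 k168 13 (.s k86 k87 0 (.s k124 k67 6 (.s k60 k188 7 (.s k20 k40 5 (.d k150
  k215 k195 8 14)))))))) (.c k169 (.f k252 k254 0 (.q k86 [(.d k84 k168 k87 13 0), (.s k124 k67 6
  (.s k60 k188 7 (.s k20 k40 5 (.d k150 k215 k195 8 14))))] (.c k168 (.q k171 [(.d k87 k84 k3 0 13),
  (.s k124 k67 6 (.s k60 k188 7 (.s k20 k40 5 (.d k150 k215 k195 8 14))))] .n) (.c k171 (.l (.s k168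
  k84 13 (.s k124 k67 6 (.s k60 k188 7 (.s k20 k40 5 (.d k150 k215 k195 8 14)))))) .n)))) .n))) (.c
  k130 (.l (.s k125 k65 5 (.s k60 k190 8 (.s k150 k195 14 (.d k20 k40 k215 5 8))))) (.c k150 (.f k65
  k125 5 (.q k193 [(.s k1 k129 7 (.s k149 k61 13 (.s k213 k21 7 (.d k253 k233 k169 5 13)))), (.s k1
  k129 7 (.s k3 k2 0 (.s k87 k171 13 (.s k86 k84 0 (.s k67 k124 6 (.d k195 k130 k131 8 7)))))), (.s
  k149 k61 13 (.s k21 k213 7 (.s k63 k42 6 (.s k106 k192 14 (.d k127 k64 k191 6 7)))))] (.c k130 (.q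
  k190 [(.s k149 k61 13 (.s k213 k21 7 (.s k253 k233 5 (.d k1 k129 k169 7 13)))), (.s k1 k129 7 (.s
  k3 k2 0 (.s k87 k171 13 (.s k86 k84 0 (.d k169 k253 k252 13 14))))), (.s k149 k61 13 (.s k21 k213
  7 (.s k63 k42 6 (.s k106 k192 14 (.d k127 k64 k191 6 7)))))] (.c k253 (.l (.s k129 k1 7 (.s k149
  k61 13 (.s k189 k169 5 (.s k21 k213 7 (.s k63 k42 6 (.d k191 k188 k127 0 7))))))) .n)) (.c k190
  (.l (.s k130 k195 8 (.s k1 k129 7 (.s k61 k149 13 (.s k41 k21 5 (.d k169 k233 k253 7 13))))))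
  .n)))) (.c k190 (.l (.s k65 k125 5 (.s k195 k130 8 (.s k150 k60 14 (.d k215 k235 k20 5 8))))) (.c
  k195 (.f k65 k125 5 (.q k1 [(.s k3 k2 0 (.s k87 k171 13 (.s k86 k84 0 (.d k169 k253 k252 13
  14)))), (.s k193 k129 7 (.s k149 k61 13 (.s k21 k213 7 (.s k63 k42 6 (.s k106 k192 14 (.d k127 k64
  k191 6 7))))))] (.c k3 (.l (.s k169 k253 13 (.s k41 k233 7 (.s k61 k21 5 (.d k193 k129 k149 7
  13))))) (.c k75 (.q k135 [(.s k3 k2 0 (.s k87 k171 13 (.s k86 k84 0 (.d k169 k253 k252 13 14)))),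
  (.s k193 k129 7 (.s k149 k61 13 (.s k21 k213 7 (.s k63 k42 6 (.s k106 k192 14 (.d k127 k64 k191 6
  7))))))] (.c k3 (.l (.s k169 k253 13 (.s k41 k233 7 (.s k61 k21 5 (.d k193 k129 k149 7 13))))) (.c
  k253 (.l (.s k3 k2 0 (.s k87 k171 13 (.s k86 k84 0 (.s k67 k124 6 (.s k64 k66 0 (.d k127 k107 k106
  5 6))))))) .n))) (.c k135 (.q k75 [(.s k3 k2 0 (.s k87 k171 13 (.s k86 k84 0 (.d k169 k253 k252 13
  14)))), (.s k193 k129 7 (.s k149 k61 13 (.s k21 k213 7 (.s k63 k42 6 (.s k106 k192 14 (.d k127 k64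
  k191 6 7))))))] (.c k3 (.l (.s k169 k253 13 (.s k41 k233 7 (.s k61 k21 5 (.d k193 k129 k149 7
  13))))) (.c k253 (.l (.s k3 k2 0 (.s k87 k171 13 (.s k86 k84 0 (.s k67 k124 6 (.s k64 k66 0 (.d
  k127 k107 k106 5 6))))))) .n))) (.c k253 (.l (.s k3 k2 0 (.s k87 k171 13 (.s k86 k84 0 (.s k67
  k124 6 (.s k64 k66 0 (.d k127 k107 k106 5 6))))))) .n)))))) (.c k215 (.q k1 [(.s k3 k2 0 (.s k87
  k171 13 (.s k86 k84 0 (.d k169 k253 k252 13 14)))), (.s k65 k125 5 (.s k169 k253 13 (.s k41 k233 7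
  (.s k61 k21 5 (.d k193 k129 k149 7 13))))), (.s k3 k2 0 (.s k65 k125 5 (.s k129 k193 7 (.s k66
  k192 8 (.s k67 k64 0 (.d k195 k131 k130 7 8))))))] .n) (.c k235 (.l (.s k125 k65 5 (.s k60 k190 8
  (.s k20 k40 5 (.d k150 k215 k195 8 14))))) .n))))))))))))

def t15_123 : T TT 256 :=
  (.f k255 k170 14 (.q k102 [(.s k68 k119 4 (.s k204 k136 9 (.s k221 k238 4 (.d k153 k17 k51 9
  14)))), (.s k119 k68 4 (.s k51 k187 9 (.s k17 k34 4 (.d k153 k221 k204 9 14))))] (.c k17 (.q k1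
  [(.s k3 k2 0 (.s k87 k171 13 (.s k86 k84 0 (.d k169 k253 k252 13 14)))), (.s k68 k119 4 (.s k169
  k253 13 (.s k204 k136 9 (.s k153 k51 14 (.s k137 k185 3 (.s k69 k205 9 (.d k70 k71 k3 0 10))))))),
  (.s k3 k2 0 (.s k68 k119 4 (.s k204 k136 9 (.s k70 k137 10 (.s k86 k118 3 (.d k87 k84 k171 0
  13))))))] (.c k3 (.l (.s k68 k119 4 (.s k204 k136 9 (.s k221 k238 4 (.s k253 k169 13 (.s k205 k237
  3 (.s k69 k137 9 (.d k207 k138 k206 10 0)))))))) .n)) (.c k51 (.f k68 k119 4 (.q k127 [(.s k63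
  k191 7 (.s k21 k42 6 (.s k106 k64 6 (.d k149 k213 k192 7 14)))), (.s k64 k106 6 (.s k76 k72 1 (.s
  k89 k115 6 (.d k93 k81 k110 1 4)))), (.s k63 k191 7 (.s k204 k136 9 (.s k110 k157 12 (.s k93 k76 4
  (.s k174 k12 12 (.d k238 k221 k46 4 7))))))] (.c k27 (.q k39 [(.s k63 k191 7 (.s k21 k42 6 (.s
  k106 k64 6 (.d k149 k213 k192 7 14)))), (.s k64 k106 6 (.s k76 k72 1 (.s k89 k115 6 (.d k93 k81
  k110 1 4)))), (.s k63 k191 7 (.s k204 k136 9 (.s k110 k157 12 (.s k93 k76 4 (.s k174 k12 12 (.d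
  k238 k221 k46 4 7))))))] .n) (.c k39 (.q k27 [(.s k63 k191 7 (.s k21 k42 6 (.s k106 k64 6 (.d k149
  k213 k192 7 14)))), (.s k64 k106 6 (.s k76 k72 1 (.s k89 k115 6 (.d k93 k81 k110 1 4)))), (.s k63
  k191 7 (.s k204 k136 9 (.s k110 k157 12 (.s k93 k76 4 (.s k174 k12 12 (.d k238 k221 k46 4 7))))))]
  .n) .n)))) (.c k68 (.q k4 [(.s k12 k8 1 (.s k93 k174 12 (.s k89 k81 1 (.d k166 k247 k243 12
  14)))), (.s k166 k247 12 (.s k38 k230 7 (.s k21 k55 4 (.s k63 k42 6 (.s k127 k191 7 (.s k106 k64 6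
  (.d k149 k213 k192 7 14)))))))] (.c k166 (.f k12 k8 1 (.q k89 [(.d k93 k174 k81 12 1), (.s k76
  k115 6 (.s k204 k140 7 (.s k153 k51 14 (.d k221 k238 k17 4 9))))] (.c k162 (.l (.s k174 k93 12 (.s
  k76 k115 6 (.s k204 k140 7 (.s k153 k51 14 (.d k221 k238 k17 4 9)))))) (.c k174 (.q k162 [(.d k81
  k93 k243 1 12), (.s k76 k115 6 (.s k204 k140 7 (.s k221 k238 4 (.d k153 k17 k51 9 14))))] .n)
  .n)))) (.c k247 (.l (.s k12 k8 1 (.s k93 k174 12 (.s k89 k81 1 (.s k76 k115 6 (.s k204 k140 7 (.s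
  k153 k51 14 (.d k221 k238 k17 4 9)))))))) .n))) (.c k119 (.q k106 [(.s k127 k64 6 (.s k63 k191 7
  (.s k21 k42 6 (.d k149 k213 k192 7 14)))), (.s k110 k98 1 (.s k127 k64 6 (.s k93 k76 4 (.s k12
  k174 12 (.s k4 k8 1 (.s k166 k247 12 (.d k89 k81 k243 1 14)))))))] (.c k64 (.q k127 [(.s k63 k191
  7 (.s k21 k42 6 (.d k149 k213 k192 7 14))), (.s k110 k98 1 (.s k93 k76 4 (.s k12 k174 12 (.s k4 k8
  1 (.s k166 k247 12 (.d k89 k81 k243 1 14))))))] .n) (.c k115 (.l (.s k127 k64 6 (.s k63 k191 7 (.s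
  k21 k42 6 (.d k149 k213 k192 7 14))))) (.c k127 (.q k115 [(.s k98 k110 1 (.s k81 k64 4 (.d k89 k93
  k76 1 6))), (.s k89 k76 6 (.s k93 k81 1 (.s k12 k174 12 (.s k4 k8 1 (.d k166 k247 k243 12 14)))))]
  (.c k76 (.q k12 [(.s k93 k174 12 (.s k81 k89 1 (.d k98 k110 k64 1 4))), (.s k110 k98 1 (.s k174
  k93 12 (.s k46 k238 7 (.s k63 k29 4 (.s k21 k42 6 (.d k149 k213 k192 7 14)))))), (.s k4 k8 1 (.s
  k166 k247 12 (.s k38 k230 7 (.s k51 k25 6 (.d k243 k89 k179 14 7)))))] (.c k93 (.l (.s k110 k98 1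
  (.s k4 k8 1 (.s k166 k247 12 (.s k38 k230 7 (.s k51 k25 6 (.d k243 k89 k179 14 7))))))) (.c k110
  (.l (.s k93 k174 12 (.s k4 k8 1 (.s k89 k81 1 (.d k166 k247 k243 12 14))))) .n))) (.c k81 (.q k4
  [(.s k12 k8 1 (.s k89 k76 6 (.d k166 k247 k243 12 14))), (.s k166 k247 12 (.s k38 k230 7 (.s k46
  k226 9 (.s k42 k34 1 (.d k21 k55 k63 4 6))))), (.s k12 k8 1 (.s k110 k98 1 (.s k174 k93 12 (.s
  k238 k46 7 (.s k204 k221 4 (.d k76 k89 k140 6 7))))))] .n) (.c k89 (.l (.s k98 k110 1 (.s k64 k81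
  4 (.s k192 k128 7 (.s k149 k63 14 (.d k213 k234 k21 6 7)))))) (.c k93 (.l (.s k76 k89 6 (.s k98
  k110 1 (.s k64 k81 4 (.s k192 k128 7 (.s k149 k63 14 (.d k213 k234 k21 6 7))))))) (.c k110 (.l (.s
  k89 k76 6 (.s k93 k81 1 (.s k12 k174 12 (.s k4 k8 1 (.d k166 k247 k243 12 14)))))) .n)))))) .n))))
  (.c k136 (.l (.s k119 k68 4 (.s k51 k187 9 (.s k153 k204 14 (.d k17 k34 k221 4 9))))) (.c k153 (.f
  k68 k119 4 (.q k64 [(.s k192 k128 7 (.s k213 k234 6 (.s k149 k21 7 (.d k106 k127 k63 6 14)))), (.s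
  k76 k72 1 (.s k106 k127 6 (.s k115 k89 6 (.d k98 k110 k81 1 4))))] (.c k106 (.l (.s k72 k76 1 (.s
  k136 k204 9 (.s k192 k128 7 (.s k12 k132 9 (.d k8 k4 k200 1 7)))))) (.c k115 (.l (.s k127 k106 6
  (.s k72 k76 1 (.s k136 k204 9 (.s k192 k128 7 (.s k12 k132 9 (.d k8 k200 k4 7 1))))))) (.c k127
  (.q k115 [(.d k76 k72 k89 1 6)] (.c k72 (.l (.s k81 k98 4 (.d k89 k93 k76 1 6))) (.c k76 (.l (.s
  k81 k98 4 (.s k243 k162 12 (.s k247 k251 1 (.s k166 k4 12 (.d k89 k93 k12 1 14)))))) (.c k89 (.l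
  (.s k72 k76 1 (.s k136 k204 9 (.s k8 k200 7 (.s k12 k4 1 (.d k192 k128 k132 7 9)))))) (.c k136 (.q
  k187 [(.d k76 k72 k89 1 6), (.s k98 k81 4 (.s k106 k110 1 (.s k192 k128 7 (.s k149 k63 14 (.d k213
  k234 k21 6 7)))))] (.c k76 (.l (.s k81 k98 4 (.s k243 k162 12 (.s k247 k251 1 (.s k166 k4 12 (.d
  k89 k93 k12 1 14)))))) .n)) (.c k187 (.l (.s k136 k204 9 (.d k76 k72 k89 1 6))) .n)))))) (.c k136
  (.q k187 [(.s k76 k72 1 (.s k89 k115 6 (.s k127 k106 6 (.d k93 k81 k110 1 4)))), (.s k192 k128 7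
  (.s k213 k234 6 (.s k149 k21 7 (.d k106 k127 k63 6 14)))), (.s k76 k72 1 (.s k106 k127 6 (.s k115
  k89 6 (.d k98 k110 k81 1 4))))] (.c k106 (.l (.s k72 k76 1 (.s k192 k128 7 (.s k132 k12 9 (.s k196
  k4 7 (.s k149 k55 12 (.d k213 k21 k234 7 6))))))) (.c k115 (.l (.s k127 k106 6 (.s k72 k76 1 (.s
  k192 k128 7 (.s k132 k12 9 (.s k196 k4 7 (.s k149 k55 12 (.d k213 k234 k21 6 7)))))))) (.c k127
  (.q k115 [(.d k76 k72 k89 1 6), (.s k98 k81 4 (.s k106 k110 1 (.s k192 k128 7 (.s k149 k63 14 (.d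
  k213 k234 k21 6 7)))))] (.c k76 (.l (.s k81 k98 4 (.s k243 k162 12 (.s k247 k251 1 (.s k166 k4 12
  (.d k89 k93 k12 1 14)))))) .n)) .n)))) (.c k187 (.l (.s k136 k204 9 (.s k72 k76 1 (.s k8 k200 7
  (.s k12 k4 1 (.d k192 k128 k132 7 9)))))) .n))))))) (.c k187 (.l (.s k68 k119 4 (.s k204 k136 9
  (.s k153 k51 14 (.d k221 k238 k17 4 9))))) (.c k204 (.f k119 k68 4 (.q k101 [(.s k69 k117 3 (.s
  k207 k138 10 (.s k223 k239 3 (.d k154 k16 k48 10 14)))), (.s k103 k100 0 (.s k71 k87 3 (.s k116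
  k86 4 (.d k117 k118 k69 0 3)))), (.s k51 k187 9 (.s k103 k100 0 (.s k207 k155 13 (.s k223 k239 3
  (.d k154 k48 k16 14 10)))))] (.c k48 (.l (.s k51 k187 9 (.s k69 k117 3 (.s k207 k138 10 (.d k103
  k100 k155 0 13))))) (.c k78 (.q k141 [(.s k69 k117 3 (.s k207 k138 10 (.s k223 k239 3 (.d k154 k16
  k48 10 14)))), (.s k103 k100 0 (.s k71 k87 3 (.s k116 k86 4 (.d k117 k118 k69 0 3)))), (.s k51
  k187 9 (.s k103 k100 0 (.s k207 k155 13 (.s k223 k239 3 (.d k154 k48 k16 14 10)))))] (.c k48 (.l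
  (.s k51 k187 9 (.s k69 k117 3 (.s k207 k138 10 (.d k103 k100 k155 0 13))))) .n)) (.c k141 (.q k78
  [(.s k69 k117 3 (.s k207 k138 10 (.s k223 k239 3 (.d k154 k16 k48 10 14)))), (.s k103 k100 0 (.s
  k71 k87 3 (.s k116 k86 4 (.d k117 k118 k69 0 3)))), (.s k51 k187 9 (.s k103 k100 0 (.s k207 k155
  13 (.s k223 k239 3 (.d k154 k48 k16 14 10)))))] (.c k48 (.l (.s k51 k187 9 (.s k69 k117 3 (.s k207
  k138 10 (.d k103 k100 k155 0 13))))) .n)) .n))))) (.c k221 (.q k1 [(.s k3 k2 0 (.s k87 k171 13 (.s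
  k86 k84 0 (.d k169 k253 k252 13 14)))), (.s k68 k119 4 (.s k169 k253 13 (.s k204 k136 9 (.s k153
  k51 14 (.s k137 k185 3 (.s k70 k3 10 (.d k69 k205 k71 9 0))))))), (.s k3 k2 0 (.s k68 k119 4 (.s
  k204 k136 9 (.s k70 k137 10 (.s k86 k118 3 (.d k87 k84 k171 0 13))))))] (.c k3 (.l (.s k119 k68 4
  (.s k51 k187 9 (.s k17 k34 4 (.s k49 k33 3 (.s k48 k50 0 (.s k117 k186 10 (.d k253 k185 k169 9
  13)))))))) .n)) .n)))))))))))

def t15_127 : T TT 256 :=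
  (.f k255 k170 14 (.q k150 [(.s k20 k215 8 (.s k60 k40 5 (.s k125 k190 8 (.d k105 k65 k195 5
  14))))] (.c k20 (.q k117 [(.s k48 k186 10 (.s k16 k32 3 (.s k101 k69 3 (.d k154 k223 k207 10
  14)))), (.s k101 k69 3 (.s k52 k199 12 (.s k247 k182 8 (.s k243 k251 1 (.s k81 k162 12 (.s k89 k93
  1 (.d k166 k4 k12 12 14)))))))] (.c k69 (.l (.s k48 k186 10 (.s k16 k32 3 (.s k154 k223 10 (.s
  k146 k158 1 (.s k195 k97 12 (.s k65 k130 8 (.d k105 k125 k60 5 14)))))))) (.c k101 (.f k48 k186 10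
  (.q k154 [(.d k16 k32 k223 3 10), (.s k146 k158 1 (.s k195 k97 12 (.s k65 k130 8 (.d k105 k125 k60
  5 14))))] (.c k32 (.q k239 [(.d k223 k207 k16 3 10), (.s k146 k158 1 (.s k195 k97 12 (.s k65 k130
  8 (.d k105 k125 k60 5 14))))] .n) (.c k239 (.l (.s k32 k16 3 (.s k146 k158 1 (.s k195 k97 12 (.s
  k65 k130 8 (.d k105 k125 k60 5 14)))))) .n)))) .n))) (.c k40 (.l (.s k215 k20 8 (.s k195 k235 5
  (.s k105 k60 14 (.d k65 k125 k130 5 8))))) (.c k60 (.f k215 k20 8 (.q k102 [(.s k119 k68 4 (.s k51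
  k187 9 (.s k17 k34 4 (.d k153 k221 k204 9 14)))), (.s k68 k119 4 (.s k195 k235 5 (.s k198 k54 11
  (.d k204 k201 k136 2 9)))), (.s k195 k235 5 (.s k198 k54 11 (.s k204 k201 2 (.s k221 k238 4 (.d
  k153 k51 k17 14 9)))))] (.c k30 (.q k45 [(.s k119 k68 4 (.s k51 k187 9 (.s k17 k34 4 (.d k153 k221
  k204 9 14)))), (.s k68 k119 4 (.s k195 k235 5 (.s k198 k54 11 (.d k204 k201 k136 2 9)))), (.s k195
  k235 5 (.s k198 k54 11 (.s k204 k201 2 (.s k221 k238 4 (.d k153 k51 k17 14 9)))))] (.c k51 (.l (.s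
  k68 k119 4 (.s k195 k235 5 (.s k204 k136 9 (.d k198 k201 k54 2 11))))) (.c k204 (.l (.s k119 k68 4
  (.s k51 k187 9 (.s k17 k34 4 (.s k153 k221 9 (.s k195 k235 5 (.d k147 k156 k99 2 11))))))) .n)))
  (.c k45 (.q k30 [(.s k119 k68 4 (.s k51 k187 9 (.s k17 k34 4 (.d k153 k221 k204 9 14)))), (.s k68
  k119 4 (.s k195 k235 5 (.s k198 k54 11 (.d k204 k201 k136 2 9)))), (.s k195 k235 5 (.s k198 k54 11
  (.s k204 k201 2 (.s k221 k238 4 (.d k153 k51 k17 14 9)))))] (.c k51 (.l (.s k68 k119 4 (.s k195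
  k235 5 (.s k204 k136 9 (.d k198 k201 k54 2 11))))) (.c k204 (.l (.s k90 k210 9 (.s k80 k95 2 (.s
  k119 k68 4 (.s k51 k187 9 (.s k240 k160 11 (.d k114 k78 k177 5 8))))))) .n))) (.c k51 (.l (.s k68
  k119 4 (.s k195 k235 5 (.s k204 k136 9 (.d k198 k201 k54 2 11))))) (.c k204 (.l (.s k119 k68 4 (.s
  k51 k187 9 (.s k17 k34 4 (.s k153 k221 9 (.s k195 k235 5 (.d k147 k156 k99 2 11))))))) .n))))))
  (.c k65 (.q k1 [(.s k3 k2 0 (.s k87 k171 13 (.s k86 k84 0 (.d k169 k253 k252 13 14)))), (.s k20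
  k215 8 (.s k60 k40 5 (.s k105 k195 14 (.s k169 k253 13 (.s k41 k233 7 (.s k21 k61 5 (.d k22 k23 k3
  0 6))))))), (.s k3 k2 0 (.s k20 k215 8 (.s k60 k40 5 (.s k22 k41 6 (.s k86 k214 7 (.d k87 k84 k171
  0 13))))))] (.c k3 (.l (.s k20 k215 8 (.s k60 k40 5 (.s k125 k190 8 (.s k253 k169 13 (.s k61 k189
  7 (.s k21 k41 5 (.d k63 k42 k62 6 0)))))))) .n)) (.c k105 (.f k215 k20 8 (.q k199 [(.s k101 k52 12
  (.s k69 k117 3 (.s k4 k134 8 (.d k247 k231 k166 3 12)))), (.s k247 k231 3 (.s k166 k4 12 (.s k243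
  k251 1 (.s k81 k162 12 (.d k89 k93 k12 1 14))))), (.s k101 k52 12 (.s k117 k69 3 (.s k48 k186 10
  (.s k16 k32 3 (.d k154 k223 k207 10 14))))), (.s k231 k247 3 (.s k235 k195 5 (.s k239 k227 1 (.s
  k207 k223 3 (.s k69 k138 10 (.d k101 k117 k52 3 12))))))] (.c k40 (.l (.s k235 k195 5 (.s k52 k101
  12 (.s k247 k231 3 (.s k166 k4 12 (.d k182 k134 k117 3 8)))))) (.c k52 (.l (.s k247 k231 3 (.s k4
  k166 12 (.s k12 k8 1 (.s k134 k69 8 (.d k195 k235 k73 5 10)))))) (.c k235 (.q k40 [(.s k101 k52 12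
  (.s k69 k117 3 (.s k4 k134 8 (.d k247 k231 k166 3 12)))), (.s k247 k231 3 (.s k243 k251 1 (.s k81
  k162 12 (.s k89 k93 1 (.d k166 k4 k12 12 14))))), (.s k101 k52 12 (.s k117 k69 3 (.s k48 k186 10
  (.s k16 k32 3 (.d k154 k223 k207 10 14)))))] (.c k4 (.l (.s k231 k247 3 (.s k101 k52 12 (.s k36
  k166 8 (.s k117 k69 3 (.s k48 k186 10 (.d k32 k44 k16 1 3))))))) .n)) .n))))) (.c k125 (.f k215
  k20 8 (.q k86 [(.s k87 k84 0 (.s k3 k171 13 (.s k1 k2 0 (.d k169 k253 k252 13 14)))), (.s k84 k87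
  0 (.s k195 k235 5 (.s k214 k22 7 (.d k252 k233 k168 6 13)))), (.s k195 k235 5 (.s k214 k22 7 (.s
  k252 k233 6 (.s k169 k3 14 (.d k253 k254 k1 0 13)))))] (.c k124 (.q k126 [(.s k84 k87 0 (.s k252
  k168 13 (.s k169 k3 14 (.d k253 k254 k1 0 13)))), (.s k106 k66 5 (.s k194 k62 13 (.s k214 k22 7
  (.s k234 k254 5 (.d k213 k212 k192 0 6)))))] (.c k254 (.l (.s k84 k87 0 (.s k195 k235 5 (.s k214
  k22 7 (.d k252 k233 k168 6 13))))) .n)) (.c k126 (.q k124 [(.s k195 k235 5 (.d k105 k67 k60 6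
  14)), (.s k87 k84 0 (.s k3 k171 13 (.s k1 k2 0 (.d k169 k253 k252 13 14))))] .n) (.c k252 (.l (.s
  k87 k84 0 (.s k23 k151 7 (.s k212 k149 8 (.d k214 k213 k22 0 7))))) .n))))) (.c k190 (.l (.s k215
  k20 8 (.s k195 k235 5 (.s k65 k130 8 (.d k105 k125 k60 5 14))))) (.c k195 (.f k20 k215 8 (.q k204
  [(.s k68 k136 9 (.s k102 k119 4 (.s k221 k238 4 (.d k153 k17 k51 9 14)))), (.s k60 k40 5 (.s k156
  k108 11 (.s k153 k147 2 (.d k221 k238 k17 4 9)))), (.s k60 k40 5 (.s k108 k156 11 (.s k125 k190 8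
  (.s k105 k65 5 (.s k102 k99 2 (.d k68 k119 k136 4 9))))))] (.c k51 (.l (.s k60 k40 5 (.s k156 k108
  11 (.s k221 k238 4 (.d k153 k147 k17 2 9))))) (.c k75 (.q k135 [(.s k68 k136 9 (.s k102 k119 4 (.s
  k221 k238 4 (.d k153 k17 k51 9 14)))), (.s k60 k40 5 (.s k156 k108 11 (.s k153 k147 2 (.d k221
  k238 k17 4 9)))), (.s k60 k40 5 (.s k108 k156 11 (.s k125 k190 8 (.s k105 k65 5 (.s k102 k99 2 (.d
  k68 k119 k136 4 9))))))] (.c k51 (.l (.s k60 k40 5 (.s k156 k108 11 (.s k221 k238 4 (.d k153 k147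
  k17 2 9))))) .n)) (.c k135 (.q k75 [(.s k68 k136 9 (.s k102 k119 4 (.s k221 k238 4 (.d k153 k17
  k51 9 14)))), (.s k60 k40 5 (.s k156 k108 11 (.s k153 k147 2 (.d k221 k238 k17 4 9)))), (.s k60
  k40 5 (.s k108 k156 11 (.s k125 k190 8 (.s k105 k65 5 (.s k102 k99 2 (.d k68 k119 k136 4 9))))))]
  (.c k51 (.l (.s k60 k40 5 (.s k156 k108 11 (.s k221 k238 4 (.d k153 k147 k17 2 9))))) .n)) .n)))))
  (.c k215 (.q k69 [(.s k207 k138 10 (.s k223 k239 3 (.s k154 k16 10 (.d k101 k117 k48 3 14)))), (.s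
  k101 k117 3 (.s k199 k52 12 (.s k4 k134 8 (.s k12 k8 1 (.s k93 k174 12 (.s k89 k81 1 (.d k166 k247
  k243 12 14)))))))] (.c k101 (.f k207 k138 10 (.q k154 [(.d k223 k239 k16 3 10), (.s k158 k146 1
  (.s k60 k109 12 (.s k105 k195 14 (.d k125 k65 k190 5 8))))] (.c k32 (.l (.s k239 k223 3 (.s k158
  k146 1 (.s k60 k109 12 (.s k105 k195 14 (.d k125 k65 k190 5 8)))))) (.c k239 (.q k32 [(.d k16 k48
  k223 3 10), (.s k158 k146 1 (.s k60 k109 12 (.s k125 k190 8 (.d k105 k65 k195 5 14))))] .n) .n))))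
  (.c k117 (.l (.s k207 k138 10 (.s k223 k239 3 (.s k154 k16 10 (.s k158 k146 1 (.s k60 k109 12 (.s
  k105 k195 14 (.d k125 k65 k190 5 8)))))))) .n))) (.c k235 (.l (.s k20 k215 8 (.s k60 k40 5 (.s
  k105 k195 14 (.d k125 k65 k190 5 8))))) .n))))))))))))

def t15_161 : T TT 256 :=
  (.f k255 k170 14 (.q k105 [(.s k65 k125 5 (.s k195 k130 8 (.s k215 k235 5 (.d k150 k20 k60 8
  14))))] (.c k20 (.q k1 [(.s k3 k2 0 (.s k87 k171 13 (.s k169 k253 13 (.d k86 k84 k252 0 14)))),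
  (.s k65 k125 5 (.s k169 k253 13 (.s k41 k233 7 (.s k61 k21 5 (.d k193 k129 k149 7 13))))), (.s k3
  k2 0 (.s k65 k125 5 (.s k129 k193 7 (.s k66 k192 8 (.s k67 k64 0 (.d k195 k131 k130 7 8))))))] .n)
  (.c k60 (.f k65 k125 5 (.q k107 [(.s k106 k104 0 (.s k195 k130 8 (.s k63 k151 13 (.d k127 k64 k191
  6 7)))), (.s k195 k130 8 (.s k63 k151 13 (.s k127 k191 7 (.s k87 k67 5 (.s k171 k3 13 (.d k235
  k215 k43 5 7)))))), (.s k106 k104 0 (.s k64 k127 6 (.s k192 k128 7 (.s k149 k63 14 (.d k213 k234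
  k21 6 7))))), (.s k106 k104 0 (.s k127 k64 6 (.s k87 k67 5 (.s k171 k3 13 (.s k195 k130 8 (.d k235
  k215 k43 5 7))))))] (.c k30 (.q k45 [(.s k106 k104 0 (.s k195 k130 8 (.s k63 k151 13 (.d k127 k64
  k191 6 7)))), (.s k106 k104 0 (.s k165 k225 9 (.s k47 k224 10 (.s k44 k46 0 (.d k227 k167 k166 9
  10))))), (.s k195 k130 8 (.s k63 k151 13 (.s k127 k191 7 (.s k87 k67 5 (.s k171 k3 13 (.d k235
  k215 k43 5 7))))))] .n) (.c k45 (.q k30 [(.s k106 k104 0 (.s k195 k130 8 (.s k63 k151 13 (.d k127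
  k64 k191 6 7)))), (.s k195 k130 8 (.s k63 k151 13 (.s k127 k191 7 (.s k87 k67 5 (.s k171 k3 13 (.d
  k235 k215 k43 5 7)))))), (.s k106 k104 0 (.s k64 k127 6 (.s k192 k128 7 (.s k149 k63 14 (.d k213
  k234 k21 6 7))))), (.s k106 k104 0 (.s k127 k64 6 (.s k87 k67 5 (.s k171 k3 13 (.s k195 k130 8 (.d
  k235 k215 k43 5 7))))))] (.c k127 (.l (.s k106 k104 0 (.s k195 k130 8 (.s k63 k151 13 (.s k21 k42
  6 (.d k149 k192 k213 14 7)))))) .n)) (.c k127 (.l (.s k106 k104 0 (.s k195 k130 8 (.s k63 k151 13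
  (.s k21 k42 6 (.d k149 k192 k213 14 7)))))) .n))))) (.c k65 (.q k87 [(.s k3 k171 13 (.s k1 k2 0
  (.s k86 k84 0 (.d k169 k253 k252 13 14)))), (.s k86 k84 0 (.s k67 k124 6 (.s k127 k107 5 (.s k63
  k191 7 (.s k21 k42 6 (.s k149 k213 7 (.d k106 k64 k192 6 14)))))))] (.c k84 (.l (.s k3 k171 13 (.s
  k1 k2 0 (.s k169 k253 13 (.s k41 k233 7 (.s k60 k22 6 (.s k20 k40 5 (.d k150 k215 k195 8
  14)))))))) (.c k86 (.f k3 k171 13 (.q k169 [(.d k1 k2 k253 0 13), (.s k41 k233 7 (.s k60 k22 6 (.s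
  k20 k40 5 (.d k150 k215 k195 8 14))))] (.c k2 (.q k254 [(.d k253 k252 k1 0 13), (.s k41 k233 7 (.s
  k60 k22 6 (.s k20 k40 5 (.d k150 k215 k195 8 14))))] .n) (.c k254 (.l (.s k2 k1 0 (.s k41 k233 7
  (.s k60 k22 6 (.s k20 k40 5 (.d k150 k215 k195 8 14)))))) .n)))) .n))) (.c k125 (.q k213 [(.s k149
  k21 7 (.s k192 k234 6 (.s k64 k128 7 (.d k106 k127 k63 6 14)))), (.s k149 k21 7 (.s k193 k61 13
  (.s k253 k233 5 (.s k252 k254 0 (.s k84 k168 13 (.s k86 k87 0 (.d k169 k1 k3 13 14)))))))] (.c k21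
  (.l (.s k192 k234 6 (.s k64 k128 7 (.s k106 k127 6 (.s k104 k107 0 (.s k60 k148 13 (.s k20 k40 5
  (.d k150 k215 k195 8 14)))))))) (.c k149 (.f k192 k234 6 (.q k106 [(.d k64 k128 k127 7 6), (.s
  k104 k107 0 (.s k60 k148 13 (.s k20 k40 5 (.d k150 k215 k195 8 14))))] (.c k128 (.q k191 [(.d k127
  k64 k63 6 7), (.s k104 k107 0 (.s k60 k148 13 (.s k20 k40 5 (.d k150 k215 k195 8 14))))] .n) (.c
  k191 (.l (.s k128 k64 7 (.s k104 k107 0 (.s k60 k148 13 (.s k20 k40 5 (.d k150 k215 k195 8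
  14)))))) .n)))) .n))) (.c k130 (.l (.s k125 k65 5 (.s k60 k190 8 (.s k150 k195 14 (.d k20 k40 k215
  5 8))))) (.c k150 (.f k65 k125 5 (.q k193 [(.s k1 k129 7 (.s k149 k61 13 (.s k213 k21 7 (.d k253
  k233 k169 5 13)))), (.s k1 k129 7 (.s k3 k2 0 (.s k87 k171 13 (.s k86 k84 0 (.s k67 k124 6 (.d
  k195 k130 k131 8 7)))))), (.s k149 k61 13 (.s k21 k213 7 (.s k63 k42 6 (.s k106 k192 14 (.d k127
  k64 k191 6 7)))))] (.c k130 (.q k190 [(.s k149 k61 13 (.s k213 k21 7 (.s k253 k233 5 (.d k1 k129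
  k169 7 13)))), (.s k1 k129 7 (.s k3 k2 0 (.s k87 k171 13 (.s k86 k84 0 (.d k169 k253 k252 13
  14))))), (.s k149 k61 13 (.s k21 k213 7 (.s k63 k42 6 (.s k106 k192 14 (.d k127 k64 k191 6 7)))))]
  (.c k253 (.l (.s k129 k1 7 (.s k149 k61 13 (.s k189 k169 5 (.s k21 k213 7 (.s k63 k42 6 (.d k191
  k188 k127 0 7))))))) .n)) (.c k190 (.l (.s k130 k195 8 (.s k1 k129 7 (.s k61 k149 13 (.s k41 k21 5
  (.d k169 k233 k253 7 13)))))) .n)))) (.c k190 (.l (.s k65 k125 5 (.s k195 k130 8 (.s k150 k60 14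
  (.d k215 k235 k20 5 8))))) (.c k195 (.f k65 k125 5 (.q k1 [(.s k3 k2 0 (.s k87 k171 13 (.s k86 k84
  0 (.d k169 k253 k252 13 14)))), (.s k193 k129 7 (.s k149 k61 13 (.s k21 k213 7 (.s k63 k42 6 (.s
  k106 k192 14 (.d k127 k64 k191 6 7))))))] (.c k3 (.l (.s k169 k253 13 (.s k41 k233 7 (.s k61 k21 5
  (.d k193 k129 k149 7 13))))) (.c k75 (.q k135 [(.s k3 k2 0 (.s k87 k171 13 (.s k86 k84 0 (.d k169
  k253 k252 13 14)))), (.s k193 k129 7 (.s k149 k61 13 (.s k21 k213 7 (.s k63 k42 6 (.s k106 k192 14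
  (.d k127 k64 k191 6 7))))))] (.c k3 (.l (.s k169 k253 13 (.s k41 k233 7 (.s k61 k21 5 (.d k193
  k129 k149 7 13))))) (.c k253 (.l (.s k3 k2 0 (.s k87 k171 13 (.s k86 k84 0 (.s k67 k124 6 (.s k64
  k66 0 (.d k127 k107 k106 5 6))))))) .n))) (.c k135 (.q k75 [(.s k3 k2 0 (.s k87 k171 13 (.s k86
  k84 0 (.d k169 k253 k252 13 14)))), (.s k193 k129 7 (.s k149 k61 13 (.s k21 k213 7 (.s k63 k42 6
  (.s k106 k192 14 (.d k127 k64 k191 6 7))))))] (.c k3 (.l (.s k169 k253 13 (.s k41 k233 7 (.s k61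
  k21 5 (.d k193 k129 k149 7 13))))) (.c k253 (.l (.s k3 k2 0 (.s k87 k171 13 (.s k86 k84 0 (.s k67
  k124 6 (.s k64 k66 0 (.d k127 k107 k106 5 6))))))) .n))) (.c k253 (.l (.s k3 k2 0 (.s k87 k171 13
  (.s k86 k84 0 (.s k67 k124 6 (.s k64 k66 0 (.d k127 k107 k106 5 6))))))) .n)))))) (.c k215 (.q k1
  [(.s k3 k2 0 (.s k87 k171 13 (.s k86 k84 0 (.d k169 k253 k252 13 14)))), (.s k65 k125 5 (.s k169
  k253 13 (.s k41 k233 7 (.s k61 k21 5 (.d k193 k129 k149 7 13))))), (.s k3 k2 0 (.s k65 k125 5 (.s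
  k129 k193 7 (.s k66 k192 8 (.s k67 k64 0 (.d k195 k131 k130 7 8))))))] .n) (.c k235 (.l (.s k125
  k65 5 (.s k60 k190 8 (.s k20 k40 5 (.d k150 k215 k195 8 14))))) .n))))))))))))

def t15_162 : T TT 256 :=
  (.q k86 [(.s k84 k87 0 (.s k252 k168 13 (.s k3 k169 14 (.s k2 k1 0 (.d k170 k254 k255 13 14)))))]
  (.c k1 (.q k4 [(.s k12 k8 1 (.s k166 k247 12 (.s k255 k170 14 (.s k93 k174 12 (.d k89 k81 k243 1
  14))))), (.s k84 k87 0 (.s k166 k247 12 (.s k6 k246 11 (.s k7 k5 0 (.d k244 k164 k165 11 12))))),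
  (.s k12 k8 1 (.s k84 k87 0 (.s k164 k244 11 (.s k88 k240 13 (.s k92 k80 1 (.d k252 k172 k168 11
  13))))))] .n) (.c k2 (.l (.s k84 k87 0 (.s k252 k168 13 (.s k169 k3 14 (.s k253 k1 13 (.d k255
  k254 k170 0 14)))))) (.c k3 (.f k255 k170 14 (.f k84 k87 0 (.q k166 [(.s k4 k247 12 (.s k6 k246 11
  (.s k7 k5 0 (.d k244 k164 k165 11 12)))), (.s k246 k6 11 (.s k252 k168 13 (.s k243 k249 2 (.s k12
  k89 14 (.s k172 k92 11 (.s k169 k163 2 (.d k253 k254 k1 0 13))))))), (.s k4 k247 12 (.s k12 k8 1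
  (.s k89 k243 14 (.d k93 k81 k174 1 12))))] (.c k7 (.q k11 [(.s k246 k6 11 (.s k252 k168 13 (.s
  k243 k249 2 (.d k247 k4 k251 12 1)))), (.s k252 k168 13 (.s k253 k254 0 (.s k169 k1 13 (.s k90
  k248 12 (.s k80 k95 2 (.s k172 k163 2 (.d k92 k88 k12 1 11))))))), (.s k247 k4 12 (.s k243 k251 1
  (.s k89 k12 14 (.s k92 k83 2 (.s k80 k88 1 (.s k93 k81 1 (.d k95 k94 k90 0 2)))))))] (.c k12 (.l
  (.s k247 k4 12 (.s k243 k251 1 (.s k252 k168 13 (.d k246 k6 k249 11 2))))) (.c k167 (.l (.s k247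
  k4 12 (.s k243 k251 1 (.s k252 k168 13 (.d k246 k6 k249 11 2))))) (.c k243 (.l (.s k246 k6 11 (.s
  k252 k168 13 (.s k254 k253 0 (.s k250 k242 1 (.s k240 k245 2 (.s k244 k248 1 (.d k4 k164 k247 11
  12)))))))) (.c k247 (.q k167 [(.s k164 k165 0 (.s k244 k4 11 (.s k252 k168 13 (.s k253 k254 0 (.s
  k169 k1 13 (.d k248 k240 k90 1 12)))))), (.s k164 k165 0 (.s k4 k244 11 (.s k12 k8 1 (.s k89 k243
  14 (.d k93 k81 k174 1 12))))), (.s k246 k6 11 (.s k252 k168 13 (.s k243 k249 2 (.s k12 k89 14 (.s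
  k172 k92 11 (.s k169 k163 2 (.d k253 k254 k1 0 13)))))))] (.c k4 (.l (.s k164 k165 0 (.s k168 k252
  13 (.s k160 k172 1 (.s k80 k240 11 (.s k90 k95 2 (.s k248 k169 12 (.d k88 k92 k8 1 11)))))))) (.c
  k160 (.l (.s k246 k6 11 (.s k252 k168 13 (.s k249 k243 2 (.s k253 k254 0 (.s k245 k241 1 (.d k165
  k164 k5 0 11))))))) .n))) .n))))) (.c k11 (.q k7 [(.s k4 k247 12 (.d k6 k5 k246 0 11)), (.s k4
  k247 12 (.d k244 k164 k165 11 12))] (.c k4 (.l (.s k244 k165 12 (.s k246 k6 11 (.s k245 k247 0 (.s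
  k240 k250 2 (.d k252 k248 k168 1 13)))))) (.c k247 (.l (.s k6 k246 11 (.s k4 k5 0 (.d k244 k164
  k165 11 12)))) .n))) .n))))) (.c k84 (.q k16 [(.s k154 k223 10 (.s k170 k255 14 (.s k138 k186 3
  (.s k207 k69 10 (.d k48 k32 k101 3 14))))), (.s k48 k32 3 (.s k154 k223 10 (.s k18 k222 9 (.s k3
  k33 4 (.s k1 k2 0 (.d k169 k253 k252 13 14)))))), (.s k154 k223 10 (.s k18 k222 9 (.s k17 k19 0
  (.s k34 k51 4 (.s k170 k255 14 (.d k2 k50 k254 3 13)))))), (.s k48 k32 3 (.s k170 k255 14 (.s k2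
  k254 13 (.s k3 k1 0 (.s k18 k33 4 (.s k17 k19 0 (.d k34 k50 k51 3 4)))))))] .n) (.c k87 (.q k16
  [(.s k48 k32 3 (.s k255 k170 14 (.s k117 k186 10 (.s k101 k69 3 (.d k154 k223 k207 10 14))))), (.s
  k48 k32 3 (.s k154 k223 10 (.s k18 k222 9 (.s k3 k33 4 (.s k1 k2 0 (.d k169 k253 k252 13 14)))))),
  (.s k154 k223 10 (.s k18 k222 9 (.s k170 k255 14 (.s k2 k254 13 (.s k34 k50 3 (.d k17 k19 k51 0
  4)))))), (.s k48 k32 3 (.s k170 k255 14 (.s k2 k254 13 (.s k3 k1 0 (.s k18 k33 4 (.s k34 k50 3 (.d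
  k17 k19 k51 0 4)))))))] .n) (.c k168 (.l (.s k87 k84 0 (.s k255 k170 14 (.s k3 k171 13 (.s k169
  k252 14 (.d k1 k2 k253 0 13)))))) (.c k169 (.q k4 [(.s k84 k87 0 (.s k166 k247 12 (.s k6 k246 11
  (.s k7 k5 0 (.d k244 k164 k165 11 12))))), (.s k12 k8 1 (.s k166 k247 12 (.s k255 k170 14 (.s k93
  k174 12 (.d k89 k81 k243 1 14))))), (.s k12 k8 1 (.s k84 k87 0 (.s k164 k244 11 (.s k88 k240 13
  (.s k92 k80 1 (.d k252 k172 k168 11 13))))))] .n) (.c k170 (.q k166 [(.s k4 k247 12 (.s k6 k246 11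
  (.s k7 k5 0 (.s k84 k87 0 (.d k244 k164 k165 11 12))))), (.s k84 k87 0 (.s k246 k6 11 (.s k252
  k168 13 (.s k169 k3 14 (.s k172 k163 2 (.s k12 k92 11 (.d k243 k249 k89 2 14))))))), (.s k4 k247
  12 (.s k6 k246 11 (.s k12 k8 1 (.s k3 k9 2 (.s k1 k2 0 (.d k169 k253 k252 13 14)))))), (.s k4 k247
  12 (.s k12 k8 1 (.s k84 k87 0 (.s k89 k243 14 (.s k92 k83 2 (.d k252 k172 k168 11 13))))))] .n)
  (.c k171 (.l (.s k84 k87 0 (.s k252 k168 13 (.s k3 k169 14 (.s k170 k255 14 (.d k2 k1 k254 0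
  13)))))) (.c k252 (.f k255 k170 14 (.f k87 k84 0 (.q k166 [(.s k4 k247 12 (.s k12 k8 1 (.s k93
  k174 12 (.d k89 k81 k243 1 14)))), (.s k246 k6 11 (.s k247 k4 12 (.s k7 k167 11 (.d k244 k245 k165
  0 12)))), (.s k3 k171 13 (.s k6 k246 11 (.s k12 k9 2 (.s k93 k174 12 (.d k89 k243 k81 14 1)))))]
  (.c k94 (.q k173 [(.s k4 k247 12 (.s k12 k8 1 (.s k93 k174 12 (.d k89 k81 k243 1 14)))), (.s k246
  k6 11 (.s k247 k4 12 (.s k7 k167 11 (.d k244 k245 k165 0 12)))), (.s k3 k171 13 (.s k6 k246 11 (.s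
  k12 k9 2 (.s k93 k174 12 (.d k89 k243 k81 14 1)))))] (.c k243 (.l (.s k3 k171 13 (.s k4 k247 12
  (.s k12 k8 1 (.d k6 k9 k246 2 11))))) .n)) (.c k173 (.q k94 [(.s k4 k247 12 (.s k12 k8 1 (.s k93
  k174 12 (.d k89 k81 k243 1 14)))), (.s k90 k82 1 (.s k95 k80 2 (.s k83 k91 1 (.d k92 k93 k89 0
  2)))), (.s k3 k171 13 (.s k4 k247 12 (.s k6 k246 11 (.d k12 k8 k9 1 2))))] (.c k243 (.l (.s k3
  k171 13 (.s k4 k247 12 (.s k12 k8 1 (.d k6 k9 k246 2 11))))) .n)) (.c k243 (.l (.s k3 k171 13 (.s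
  k4 k247 12 (.s k12 k8 1 (.d k6 k9 k246 2 11))))) .n)))))) (.c k254 (.l (.s k87 k84 0 (.s k255 k170
  14 (.s k3 k171 13 (.s k1 k2 0 (.d k169 k253 k252 13 14)))))) (.c k255 (.q k126 [(.s k87 k84 0 (.s
  k106 k66 5 (.s k127 k64 6 (.s k67 k107 5 (.d k124 k125 k105 0 6))))), (.s k84 k87 0 (.s k252 k168
  13 (.s k3 k169 14 (.s k63 k189 8 (.s k21 k42 6 (.s k149 k213 7 (.d k23 k43 k212 5 8))))))), (.s
  k106 k66 5 (.s k64 k127 6 (.s k192 k128 7 (.s k63 k149 14 (.s k252 k189 8 (.s k232 k212 5 (.d k169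
  k43 k3 8 14)))))))] (.c k95 (.q k175 [(.s k87 k84 0 (.s k106 k66 5 (.s k127 k64 6 (.s k67 k107 5
  (.d k124 k125 k105 0 6))))), (.s k84 k87 0 (.s k252 k168 13 (.s k3 k169 14 (.s k63 k189 8 (.s k21
  k42 6 (.s k149 k213 7 (.d k23 k43 k212 5 8))))))), (.s k106 k66 5 (.s k64 k127 6 (.s k192 k128 7
  (.s k63 k149 14 (.s k252 k189 8 (.s k232 k212 5 (.d k169 k43 k3 8 14)))))))] .n) (.c k175 (.q k95
  [(.s k87 k84 0 (.s k106 k66 5 (.s k127 k64 6 (.s k67 k107 5 (.d k124 k125 k105 0 6))))), (.s k80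
  k90 2 (.s k84 k87 0 (.s k92 k88 1 (.s k89 k83 2 (.d k93 k94 k81 0 1))))), (.s k66 k106 5 (.s k90
  k80 2 (.s k82 k94 1 (.s k114 k98 3 (.s k102 k78 5 (.d k118 k122 k70 1 3))))))] .n) .n)))
  .n)))))))))))))

def t15_163 : T TT 256 :=
  (.f k255 k170 14 (.q k105 [(.s k65 k125 5 (.s k195 k130 8 (.s k215 k235 5 (.d k150 k20 k60 8
  14))))] (.c k20 (.q k1 [(.s k3 k2 0 (.s k169 k253 13 (.s k86 k252 14 (.d k87 k84 k171 0 13)))),
  (.s k65 k125 5 (.s k169 k253 13 (.s k41 k233 7 (.s k61 k21 5 (.d k193 k129 k149 7 13))))), (.s k3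
  k2 0 (.s k65 k125 5 (.s k129 k193 7 (.s k66 k192 8 (.s k67 k64 0 (.d k195 k131 k130 7 8))))))] .n)
  (.c k60 (.f k65 k125 5 (.q k107 [(.s k106 k104 0 (.s k195 k130 8 (.s k63 k151 13 (.d k127 k64 k191
  6 7)))), (.s k195 k130 8 (.s k63 k151 13 (.s k127 k191 7 (.s k87 k67 5 (.s k171 k3 13 (.d k235
  k215 k43 5 7)))))), (.s k106 k104 0 (.s k64 k127 6 (.s k192 k128 7 (.s k149 k63 14 (.d k213 k234
  k21 6 7))))), (.s k106 k104 0 (.s k127 k64 6 (.s k87 k67 5 (.s k171 k3 13 (.s k195 k130 8 (.d k235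
  k215 k43 5 7))))))] (.c k30 (.q k45 [(.s k106 k104 0 (.s k195 k130 8 (.s k63 k151 13 (.d k127 k64
  k191 6 7)))), (.s k106 k104 0 (.s k165 k225 9 (.s k47 k224 10 (.s k44 k46 0 (.d k227 k167 k166 9
  10))))), (.s k195 k130 8 (.s k63 k151 13 (.s k127 k191 7 (.s k87 k67 5 (.s k171 k3 13 (.d k235
  k215 k43 5 7))))))] .n) (.c k45 (.q k30 [(.s k106 k104 0 (.s k195 k130 8 (.s k63 k151 13 (.d k127
  k64 k191 6 7)))), (.s k195 k130 8 (.s k63 k151 13 (.s k127 k191 7 (.s k87 k67 5 (.s k171 k3 13 (.d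
  k235 k215 k43 5 7)))))), (.s k106 k104 0 (.s k64 k127 6 (.s k192 k128 7 (.s k149 k63 14 (.d k213
  k234 k21 6 7))))), (.s k106 k104 0 (.s k127 k64 6 (.s k87 k67 5 (.s k171 k3 13 (.s k195 k130 8 (.d
  k235 k215 k43 5 7))))))] (.c k127 (.l (.s k106 k104 0 (.s k195 k130 8 (.s k63 k151 13 (.s k21 k42
  6 (.d k149 k192 k213 14 7)))))) .n)) (.c k127 (.l (.s k106 k104 0 (.s k195 k130 8 (.s k63 k151 13
  (.s k21 k42 6 (.d k149 k192 k213 14 7)))))) .n))))) (.c k65 (.q k84 [(.s k86 k87 0 (.s k252 k168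
  13 (.s k253 k254 0 (.d k169 k1 k3 13 14)))), (.s k86 k87 0 (.s k124 k67 6 (.s k64 k104 5 (.s k192
  k128 7 (.s k213 k234 6 (.s k149 k21 7 (.d k106 k127 k63 6 14)))))))] (.c k86 (.f k252 k168 13 (.q
  k169 [(.d k253 k254 k1 0 13), (.s k233 k41 7 (.s k195 k214 6 (.s k150 k60 14 (.d k215 k235 k20 5
  8))))] (.c k2 (.l (.s k254 k253 0 (.s k233 k41 7 (.s k195 k214 6 (.s k150 k60 14 (.d k215 k235 k20
  5 8)))))) (.c k254 (.q k2 [(.d k1 k3 k253 0 13), (.s k233 k41 7 (.s k195 k214 6 (.s k215 k235 5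
  (.d k150 k20 k60 8 14))))] .n) .n)))) (.c k87 (.l (.s k252 k168 13 (.s k253 k254 0 (.s k169 k1 13
  (.s k233 k41 7 (.s k195 k214 6 (.s k150 k60 14 (.d k215 k235 k20 5 8)))))))) .n))) (.c k125 (.q
  k213 [(.s k149 k21 7 (.s k192 k234 6 (.s k64 k128 7 (.d k106 k127 k63 6 14)))), (.s k149 k21 7 (.s
  k193 k61 13 (.s k253 k233 5 (.s k252 k254 0 (.s k84 k168 13 (.s k86 k87 0 (.d k169 k1 k3 13
  14)))))))] (.c k21 (.l (.s k192 k234 6 (.s k64 k128 7 (.s k106 k127 6 (.s k104 k107 0 (.s k60 k148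
  13 (.s k20 k40 5 (.d k150 k215 k195 8 14)))))))) (.c k149 (.f k192 k234 6 (.q k106 [(.d k64 k128
  k127 7 6), (.s k104 k107 0 (.s k60 k148 13 (.s k20 k40 5 (.d k150 k215 k195 8 14))))] (.c k128 (.q
  k191 [(.d k127 k64 k63 6 7), (.s k104 k107 0 (.s k60 k148 13 (.s k20 k40 5 (.d k150 k215 k195 8
  14))))] .n) (.c k191 (.l (.s k128 k64 7 (.s k104 k107 0 (.s k60 k148 13 (.s k20 k40 5 (.d k150
  k215 k195 8 14)))))) .n)))) .n))) (.c k130 (.l (.s k125 k65 5 (.s k60 k190 8 (.s k150 k195 14 (.d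
  k20 k40 k215 5 8))))) (.c k150 (.f k65 k125 5 (.q k193 [(.s k1 k129 7 (.s k149 k61 13 (.s k213 k21
  7 (.d k253 k233 k169 5 13)))), (.s k1 k129 7 (.s k3 k2 0 (.s k87 k171 13 (.s k86 k84 0 (.s k67
  k124 6 (.d k195 k130 k131 8 7)))))), (.s k149 k61 13 (.s k21 k213 7 (.s k63 k42 6 (.s k106 k192 14
  (.d k127 k64 k191 6 7)))))] (.c k130 (.q k190 [(.s k149 k61 13 (.s k213 k21 7 (.s k253 k233 5 (.d
  k1 k129 k169 7 13)))), (.s k1 k129 7 (.s k3 k2 0 (.s k87 k171 13 (.s k86 k84 0 (.d k169 k253 k252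
  13 14))))), (.s k149 k61 13 (.s k21 k213 7 (.s k63 k42 6 (.s k106 k192 14 (.d k127 k64 k191 6
  7)))))] (.c k253 (.l (.s k129 k1 7 (.s k149 k61 13 (.s k189 k169 5 (.s k21 k213 7 (.s k63 k42 6
  (.d k191 k188 k127 0 7))))))) .n)) (.c k190 (.l (.s k130 k195 8 (.s k1 k129 7 (.s k61 k149 13 (.s
  k41 k21 5 (.d k169 k233 k253 7 13)))))) .n)))) (.c k190 (.l (.s k65 k125 5 (.s k195 k130 8 (.s
  k150 k60 14 (.d k215 k235 k20 5 8))))) (.c k195 (.f k65 k125 5 (.q k1 [(.s k169 k253 13 (.s k193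
  k129 7 (.s k61 k149 13 (.d k41 k21 k233 5 7)))), (.s k3 k2 0 (.s k87 k171 13 (.s k86 k84 0 (.s k67
  k124 6 (.s k64 k66 0 (.d k127 k107 k106 5 6))))))] (.c k75 (.q k135 [(.s k169 k253 13 (.s k193
  k129 7 (.s k61 k149 13 (.d k41 k21 k233 5 7)))), (.s k3 k2 0 (.s k87 k171 13 (.s k86 k84 0 (.s k67
  k124 6 (.s k64 k66 0 (.d k127 k107 k106 5 6))))))] (.c k169 (.l (.s k193 k129 7 (.s k149 k61 13
  (.s k21 k213 7 (.s k63 k42 6 (.s k106 k192 14 (.d k127 k64 k191 6 7))))))) .n)) (.c k135 (.q k75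
  [(.s k169 k253 13 (.s k193 k129 7 (.s k61 k149 13 (.d k41 k21 k233 5 7)))), (.s k3 k2 0 (.s k87
  k171 13 (.s k86 k84 0 (.s k67 k124 6 (.s k64 k66 0 (.d k127 k107 k106 5 6))))))] (.c k169 (.l (.s
  k193 k129 7 (.s k149 k61 13 (.s k21 k213 7 (.s k63 k42 6 (.s k106 k192 14 (.d k127 k64 k191 6
  7))))))) .n)) (.c k169 (.l (.s k193 k129 7 (.s k149 k61 13 (.s k21 k213 7 (.s k63 k42 6 (.s k106
  k192 14 (.d k127 k64 k191 6 7))))))) .n))))) (.c k215 (.q k1 [(.s k3 k2 0 (.s k169 k253 13 (.s k86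
  k252 14 (.d k87 k84 k171 0 13)))), (.s k65 k125 5 (.s k169 k253 13 (.s k41 k233 7 (.s k61 k21 5
  (.d k193 k129 k149 7 13))))), (.s k3 k2 0 (.s k65 k125 5 (.s k129 k193 7 (.s k66 k192 8 (.s k67
  k64 0 (.d k195 k131 k130 7 8))))))] .n) (.c k235 (.l (.s k125 k65 5 (.s k60 k190 8 (.s k20 k40 5
  (.d k150 k215 k195 8 14))))) .n))))))))))))

def t15_165 : T TT 256 :=
  (.q k101 [(.s k69 k117 3 (.s k207 k138 10 (.s k154 k48 14 (.s k223 k16 10 (.d k255 k239 k170 3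
  14))))), (.s k69 k117 3 (.s k207 k138 10 (.s k48 k154 14 (.s k32 k16 3 (.d k170 k239 k255 10
  14)))))] (.c k16 (.f k255 k170 14 (.f k117 k69 3 (.q k240 [(.s k48 k186 10 (.s k112 k176 7 (.s k90
  k79 6 (.d k80 k160 k95 11 2)))), (.s k186 k48 10 (.s k250 k245 2 (.s k122 k58 7 (.s k63 k181 10
  (.d k127 k112 k191 2 7))))), (.s k245 k250 2 (.s k53 k181 7 (.s k149 k197 11 (.s k21 k213 7 (.s
  k63 k42 6 (.s k106 k192 14 (.d k127 k64 k191 6 7))))))), (.s k186 k48 10 (.s k250 k245 2 (.s k122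
  k58 7 (.s k112 k127 2 (.s k90 k79 6 (.d k80 k95 k160 2 11))))))] (.c k160 (.q k175 [(.s k186 k48
  10 (.s k250 k245 2 (.s k122 k58 7 (.s k63 k181 10 (.d k127 k112 k191 2 7))))), (.s k48 k186 10 (.s
  k112 k176 7 (.s k90 k79 6 (.s k80 k95 2 (.s k64 k96 3 (.d k127 k122 k106 2 6)))))), (.s k245 k250
  2 (.s k53 k181 7 (.s k149 k197 11 (.s k21 k213 7 (.s k63 k42 6 (.s k106 k192 14 (.d k127 k64 k191
  6 7))))))), (.s k245 k250 2 (.s k53 k181 7 (.s k149 k197 11 (.s k21 k213 7 (.s k63 k42 6 (.d k48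
  k58 k186 2 10))))))] (.c k181 (.q k149 [(.s k197 k53 11 (.s k245 k250 2 (.d k213 k229 k21 3 7))),
  (.s k21 k213 7 (.s k63 k42 6 (.s k106 k192 14 (.d k127 k64 k191 6 7)))), (.s k48 k186 10 (.s k53
  k197 11 (.s k63 k58 2 (.s k106 k192 14 (.d k127 k191 k64 7 6)))))] .n) .n)) (.c k175 (.l (.s k160
  k80 11 (.s k48 k186 10 (.s k112 k176 7 (.s k122 k127 2 (.s k181 k63 10 (.d k245 k250 k53 2
  7))))))) .n))))) (.c k48 (.f k255 k170 14 (.f k69 k117 3 (.q k90 [(.s k95 k80 2 (.s k79 k112 6 (.s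
  k127 k111 3 (.d k64 k74 k106 2 6)))), (.s k95 k80 2 (.s k207 k138 10 (.s k223 k239 3 (.s k31 k159
  7 (.s k149 k208 10 (.s k21 k213 7 (.d k16 k26 k154 2 10))))))), (.s k79 k112 6 (.s k64 k74 2 (.s
  k192 k128 7 (.s k213 k234 6 (.s k149 k21 7 (.d k106 k127 k63 6 14))))))] (.c k26 (.q k37 [(.s k95
  k80 2 (.s k79 k112 6 (.s k127 k111 3 (.d k64 k74 k106 2 6)))), (.s k95 k80 2 (.s k207 k138 10 (.s
  k223 k239 3 (.s k31 k159 7 (.s k149 k208 10 (.s k21 k213 7 (.d k53 k5 k197 3 11))))))), (.s k79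
  k112 6 (.s k64 k74 2 (.s k192 k128 7 (.s k213 k234 6 (.s k149 k21 7 (.d k106 k127 k63 6 14))))))]
  (.c k160 (.q k175 [(.s k95 k80 2 (.s k79 k112 6 (.s k127 k111 3 (.d k64 k74 k106 2 6)))), (.s k95
  k80 2 (.s k207 k138 10 (.s k223 k239 3 (.s k159 k31 7 (.s k63 k111 11 (.d k191 k143 k127 3
  7)))))), (.s k79 k112 6 (.s k64 k74 2 (.s k192 k128 7 (.s k213 k234 6 (.s k149 k21 7 (.d k106 k127
  k63 6 14))))))] (.c k127 (.l (.s k80 k95 2 (.s k207 k138 10 (.s k239 k223 3 (.s k111 k47 7 (.s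
  k112 k79 6 (.d k96 k106 k64 2 3))))))) .n)) (.c k175 (.q k160 [(.d k80 k95 k240 2 11), (.s k79
  k112 6 (.s k64 k74 2 (.s k192 k128 7 (.s k213 k234 6 (.s k149 k21 7 (.d k106 k127 k63 6 14))))))]
  (.c k240 (.l (.s k80 k95 2 (.s k112 k79 6 (.s k64 k96 3 (.s k192 k128 7 (.s k213 k234 6 (.s k149
  k21 7 (.d k106 k127 k63 6 14)))))))) .n)) .n))) (.c k37 (.q k26 [(.s k154 k218 7 (.s k207 k138 10
  (.d k223 k239 k16 3 10))), (.s k79 k112 6 (.s k64 k74 2 (.s k95 k80 2 (.d k127 k111 k106 3 6))))]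
  (.c k160 (.q k175 [(.s k154 k218 7 (.s k207 k138 10 (.d k223 k239 k16 3 10))), (.s k79 k112 6 (.s
  k64 k74 2 (.s k95 k80 2 (.d k127 k111 k106 3 6))))] .n) (.c k175 (.q k160 [(.d k80 k95 k240 2 11),
  (.s k154 k218 7 (.s k207 k138 10 (.d k223 k239 k16 3 10)))] .n) .n))) (.c k160 (.q k175 [(.s k95
  k80 2 (.s k79 k112 6 (.s k127 k111 3 (.d k64 k74 k106 2 6)))), (.s k95 k80 2 (.s k207 k138 10 (.s
  k223 k239 3 (.s k159 k31 7 (.s k63 k111 11 (.d k191 k143 k127 3 7)))))), (.s k79 k112 6 (.s k64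
  k74 2 (.s k192 k128 7 (.s k213 k234 6 (.s k149 k21 7 (.d k106 k127 k63 6 14))))))] (.c k26 (.q k37
  [(.s k95 k80 2 (.s k79 k112 6 (.s k127 k111 3 (.d k64 k74 k106 2 6)))), (.s k95 k80 2 (.s k207
  k138 10 (.s k223 k239 3 (.s k159 k31 7 (.s k63 k111 11 (.d k191 k143 k127 3 7)))))), (.s k79 k112
  6 (.s k64 k74 2 (.s k192 k128 7 (.s k213 k234 6 (.s k149 k21 7 (.d k106 k127 k63 6 14))))))] (.c
  k127 (.l (.s k80 k95 2 (.s k207 k138 10 (.s k239 k223 3 (.s k111 k47 7 (.s k112 k79 6 (.d k96 k106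
  k64 2 3))))))) .n)) (.c k37 (.q k26 [(.s k154 k218 7 (.s k207 k138 10 (.d k223 k239 k16 3 10))),
  (.s k79 k112 6 (.s k64 k74 2 (.s k95 k80 2 (.d k127 k111 k106 3 6))))] .n) (.c k127 (.l (.s k80
  k95 2 (.s k207 k138 10 (.s k239 k223 3 (.s k111 k47 7 (.s k112 k79 6 (.d k96 k106 k64 2 3)))))))
  .n)))) (.c k175 (.q k160 [(.d k80 k95 k240 2 11)] (.c k26 (.q k37 [(.d k80 k95 k240 2 11), (.s k79
  k112 6 (.s k64 k74 2 (.s k192 k128 7 (.s k213 k234 6 (.s k149 k21 7 (.d k106 k127 k63 6 14))))))]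
  (.c k240 (.l (.s k80 k95 2 (.s k112 k79 6 (.s k64 k96 3 (.s k192 k128 7 (.s k213 k234 6 (.s k149
  k21 7 (.d k106 k127 k63 6 14)))))))) .n)) (.c k37 (.q k26 [(.d k80 k95 k240 2 11), (.s k154 k218 7
  (.s k207 k138 10 (.d k223 k239 k16 3 10)))] .n) (.c k80 (.l (.s k79 k112 6 (.s k64 k74 2 (.s k127
  k106 6 (.s k63 k191 7 (.s k111 k95 3 (.d k207 k159 k138 11 10))))))) (.c k95 (.l (.s k207 k138 10
  (.s k223 k239 3 (.s k154 k16 10 (.s k240 k80 11 (.d k218 k229 k26 6 7)))))) (.c k240 (.l (.s k80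
  k95 2 (.s k112 k79 6 (.s k64 k96 3 (.s k192 k128 7 (.s k213 k234 6 (.s k149 k21 7 (.d k106 k127
  k63 6 14)))))))) .n)))))) .n))))))) (.c k69 (.q k60 [(.s k20 k40 5 (.s k150 k215 8 (.s k170 k255
  14 (.s k130 k190 5 (.d k195 k65 k105 8 14))))), (.s k20 k40 5 (.s k150 k215 8 (.s k52 k199 12 (.s
  k48 k56 1 (.s k16 k32 3 (.d k154 k223 k207 10 14)))))), (.s k170 k255 14 (.s k32 k239 10 (.s k48
  k16 3 (.s k52 k56 1 (.s k150 k199 12 (.s k130 k190 5 (.d k195 k65 k105 8 14)))))))] (.c k90 (.q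
  k240 [(.s k20 k40 5 (.s k150 k215 8 (.s k170 k255 14 (.s k130 k190 5 (.d k195 k65 k105 8 14))))),
  (.s k160 k80 11 (.s k170 k255 14 (.s k32 k239 10 (.s k48 k16 3 (.s k96 k224 7 (.s k144 k192 11 (.d
  k176 k128 k112 3 7))))))), (.s k20 k40 5 (.s k150 k215 8 (.s k52 k199 12 (.s k48 k56 1 (.s k16 k32
  3 (.d k154 k223 k207 10 14))))))] .n) (.c k150 (.l (.s k40 k20 5 (.s k170 k255 14 (.s k32 k239 10
  (.s k36 k44 1 (.s k48 k16 3 (.s k24 k12 5 (.d k56 k52 k8 1 3)))))))) (.c k240 (.q k90 [(.s k20 k40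
  5 (.s k150 k215 8 (.s k170 k255 14 (.s k130 k190 5 (.d k195 k65 k105 8 14))))), (.s k20 k40 5 (.s
  k150 k215 8 (.s k52 k199 12 (.s k48 k56 1 (.s k16 k32 3 (.d k154 k223 k207 10 14)))))), (.s k170
  k255 14 (.s k32 k239 10 (.s k48 k16 3 (.s k52 k56 1 (.s k150 k199 12 (.s k130 k190 5 (.d k195 k65
  k105 8 14)))))))] (.c k150 (.l (.s k40 k20 5 (.s k170 k255 14 (.s k32 k239 10 (.s k36 k44 1 (.s
  k48 k16 3 (.s k24 k12 5 (.d k56 k52 k8 1 3)))))))) .n)) .n)))) (.c k90 (.q k240 [(.s k69 k117 3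
  (.s k207 k138 10 (.s k154 k48 14 (.s k223 k16 10 (.d k255 k239 k170 3 14))))), (.s k160 k80 11 (.s
  k170 k255 14 (.s k32 k239 10 (.s k48 k16 3 (.s k96 k224 7 (.s k144 k192 11 (.d k176 k128 k112 3
  7))))))), (.s k117 k69 3 (.s k255 k170 14 (.s k48 k186 10 (.s k112 k176 7 (.s k122 k127 2 (.s k181
  k63 10 (.d k245 k250 k53 2 7)))))))] (.c k48 (.f k69 k117 3 (.l (.s k207 k138 10 (.s k218 k229 6
  (.s k255 k170 14 (.s k223 k239 3 (.s k213 k208 2 (.s k234 k192 6 (.d k250 k245 k202 2 3)))))))))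
  (.c k170 (.f k69 k117 3 (.f k207 k138 10 (.l (.s k154 k48 14 (.s k218 k229 6 (.s k223 k16 10 (.s
  k213 k208 2 (.s k255 k239 3 (.s k234 k192 6 (.d k250 k245 k202 2 3)))))))))) (.c k255 (.f k69 k117
  3 (.l (.s k80 k160 11 (.s k207 k138 10 (.s k48 k154 14 (.s k16 k32 3 (.s k144 k208 7 (.s k96 k192
  11 (.d k112 k176 k64 7 3))))))))) .n)))) (.c k117 (.q k60 [(.s k20 k40 5 (.s k150 k215 8 (.s k105
  k195 14 (.s k125 k65 5 (.d k255 k190 k170 8 14))))), (.s k20 k40 5 (.s k150 k215 8 (.s k52 k199 12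
  (.s k48 k56 1 (.s k16 k32 3 (.d k154 k223 k207 10 14)))))), (.s k170 k255 14 (.s k32 k239 10 (.s
  k48 k16 3 (.s k52 k56 1 (.s k150 k199 12 (.s k130 k190 5 (.d k195 k65 k105 8 14)))))))] (.c k90
  (.q k240 [(.s k20 k40 5 (.s k150 k215 8 (.s k105 k195 14 (.s k125 k65 5 (.d k255 k190 k170 8
  14))))), (.s k160 k80 11 (.s k170 k255 14 (.s k32 k239 10 (.s k48 k16 3 (.s k96 k224 7 (.s k144
  k192 11 (.d k176 k128 k112 3 7))))))), (.s k20 k40 5 (.s k150 k215 8 (.s k52 k199 12 (.s k48 k56 1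
  (.s k16 k32 3 (.d k154 k223 k207 10 14))))))] .n) (.c k150 (.l (.s k40 k20 5 (.s k170 k255 14 (.s
  k32 k239 10 (.s k36 k44 1 (.s k48 k16 3 (.s k24 k12 5 (.d k56 k52 k8 1 3)))))))) (.c k240 (.q k90
  [(.s k20 k40 5 (.s k150 k215 8 (.s k105 k195 14 (.s k125 k65 5 (.d k255 k190 k170 8 14))))), (.s
  k20 k40 5 (.s k150 k215 8 (.s k52 k199 12 (.s k48 k56 1 (.s k16 k32 3 (.d k154 k223 k207 10
  14)))))), (.s k170 k255 14 (.s k32 k239 10 (.s k48 k16 3 (.s k52 k56 1 (.s k150 k199 12 (.s k130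
  k190 5 (.d k195 k65 k105 8 14)))))))] (.c k150 (.l (.s k40 k20 5 (.s k170 k255 14 (.s k32 k239 10
  (.s k36 k44 1 (.s k48 k16 3 (.s k24 k12 5 (.d k56 k52 k8 1 3)))))))) .n)) .n)))) (.c k138 (.l (.s
  k117 k69 3 (.s k255 k170 14 (.s k48 k186 10 (.s k154 k207 14 (.d k16 k32 k223 3 10)))))) (.c k154
  (.f k117 k69 3 (.q k106 [(.s k111 k96 2 (.s k127 k64 6 (.s k112 k122 2 (.d k79 k90 k95 6 3)))),
  (.s k64 k127 6 (.s k192 k128 7 (.s k63 k149 14 (.s k42 k21 6 (.d k170 k234 k255 7 14))))), (.s k96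
  k111 2 (.s k170 k255 14 (.s k32 k239 10 (.s k42 k234 7 (.s k48 k16 3 (.s k63 k21 6 (.d k192 k144
  k149 11 14)))))))] (.c k90 (.q k240 [(.s k64 k127 6 (.s k80 k160 11 (.d k96 k111 k112 2 3))), (.s
  k96 k111 2 (.s k160 k80 11 (.s k32 k224 7 (.d k170 k239 k255 10 14)))), (.s k127 k64 6 (.s k112
  k122 2 (.s k255 k170 14 (.d k48 k176 k186 7 10))))] (.c k26 (.q k218 [(.s k64 k127 6 (.s k80 k160
  11 (.d k96 k111 k112 2 3))), (.s k96 k111 2 (.s k160 k80 11 (.s k32 k224 7 (.d k170 k239 k255 10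
  14)))), (.s k127 k64 6 (.s k112 k122 2 (.s k255 k170 14 (.d k48 k176 k186 7 10))))] (.c k37 (.q
  k48 [(.d k255 k186 k170 10 14), (.s k127 k64 6 (.d k112 k176 k122 7 2))] (.c k143 (.l (.s k176
  k112 7 (.d k255 k186 k170 10 14))) (.c k176 (.q k143 [(.d k255 k186 k170 10 14), (.s k32 k16 3 (.s
  k96 k111 2 (.d k160 k224 k80 7 11)))] .n) .n))) (.c k48 (.q k37 [(.s k64 k127 6 (.s k80 k160 11
  (.d k96 k111 k112 2 3))), (.s k170 k255 14 (.s k32 k239 10 (.d k42 k47 k234 2 7))), (.s k64 k127 6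
  (.s k96 k111 2 (.d k80 k112 k160 3 11)))] (.c k143 (.q k176 [(.s k64 k127 6 (.s k160 k80 11 (.d
  k128 k144 k192 3 7))), (.s k170 k255 14 (.s k32 k239 10 (.d k42 k47 k234 2 7)))] (.c k79 (.l (.s
  k207 k229 6 (.s k64 k127 6 (.s k80 k160 11 (.d k96 k111 k112 2 3))))) (.c k207 (.q k79 [(.s k127
  k64 6 (.d k111 k96 k95 2 3)), (.s k170 k255 14 (.s k42 k234 7 (.d k32 k239 k47 10 2)))] (.c k95
  (.l (.s k64 k127 6 (.s k80 k160 11 (.d k96 k111 k112 2 3)))) .n)) .n))) (.c k176 (.q k143 [(.s k64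
  k127 6 (.s k96 k111 2 (.d k80 k112 k160 3 11))), (.s k170 k255 14 (.s k32 k239 10 (.d k42 k47 k234
  2 7)))] (.c k95 (.l (.s k64 k127 6 (.s k80 k160 11 (.d k96 k111 k112 2 3)))) .n)) .n))) (.c k143
  (.q k176 [(.s k48 k112 7 (.d k255 k186 k170 10 14)), (.s k64 k127 6 (.s k128 k192 7 (.d k160 k144
  k80 3 11)))] (.c k37 (.l (.s k48 k112 7 (.d k255 k186 k170 10 14))) (.c k48 (.q k37 [(.s k64 k127
  6 (.s k160 k80 11 (.d k128 k144 k192 3 7))), (.s k170 k255 14 (.s k32 k239 10 (.d k42 k47 k234 2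
  7)))] (.c k79 (.l (.s k207 k229 6 (.s k64 k127 6 (.s k80 k160 11 (.d k96 k111 k112 2 3))))) (.c
  k207 (.q k79 [(.s k127 k64 6 (.d k111 k96 k95 2 3)), (.s k170 k255 14 (.s k42 k234 7 (.d k32 k239
  k47 10 2)))] (.c k95 (.l (.s k64 k127 6 (.s k80 k160 11 (.d k96 k111 k112 2 3)))) .n)) .n))) (.c
  k79 (.l (.s k207 k229 6 (.s k48 k112 7 (.d k255 k186 k170 10 14)))) (.c k207 (.q k79 [(.s k48 k112
  7 (.d k255 k186 k170 10 14)), (.s k111 k96 2 (.d k127 k95 k64 3 6))] (.c k37 (.l (.s k48 k112 7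
  (.d k255 k186 k170 10 14))) (.c k48 (.q k37 [(.s k127 k64 6 (.d k111 k96 k95 2 3)), (.s k170 k255
  14 (.s k42 k234 7 (.d k32 k239 k47 10 2)))] (.c k95 (.l (.s k64 k127 6 (.s k80 k160 11 (.d k96
  k111 k112 2 3)))) .n)) .n))) .n))))) (.c k160 (.l (.s k127 k64 6 (.s k122 k112 2 (.s k63 k181 10
  (.d k255 k191 k170 7 14))))) (.c k170 (.l (.s k64 k127 6 (.s k96 k111 2 (.d k80 k112 k160 3 11))))
  (.c k176 (.q k143 [(.s k96 k111 2 (.s k160 k80 11 (.s k32 k224 7 (.d k170 k239 k255 10 14)))), (.s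
  k127 k64 6 (.s k255 k170 14 (.s k63 k191 7 (.d k122 k181 k112 10 2)))), (.s k64 k127 6 (.s k96
  k111 2 (.d k80 k112 k160 3 11)))] (.c k37 (.q k48 [(.d k255 k186 k170 10 14), (.s k32 k16 3 (.s
  k96 k111 2 (.d k160 k224 k80 7 11)))] .n) (.c k48 (.q k37 [(.s k64 k127 6 (.s k96 k111 2 (.d k80
  k112 k160 3 11))), (.s k170 k255 14 (.s k32 k239 10 (.d k42 k47 k234 2 7)))] (.c k95 (.l (.s k64
  k127 6 (.s k80 k160 11 (.d k96 k111 k112 2 3)))) .n)) (.c k160 (.l (.s k127 k64 6 (.s k122 k112 2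
  (.s k63 k181 10 (.d k255 k191 k170 7 14))))) .n)))) .n))))))) (.c k143 (.q k176 [(.s k48 k112 7
  (.d k255 k186 k170 10 14)), (.s k64 k127 6 (.s k128 k192 7 (.d k160 k144 k80 3 11)))] (.c k26 (.q
  k218 [(.s k48 k112 7 (.d k255 k186 k170 10 14)), (.s k64 k127 6 (.s k128 k192 7 (.d k160 k144 k80
  3 11)))] (.c k37 (.l (.s k48 k112 7 (.d k255 k186 k170 10 14))) (.c k48 (.q k37 [(.s k64 k127 6
  (.s k160 k80 11 (.d k128 k144 k192 3 7))), (.s k170 k255 14 (.s k32 k239 10 (.d k42 k47 k234 2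
  7)))] (.c k79 (.l (.s k207 k229 6 (.s k64 k127 6 (.s k80 k160 11 (.d k96 k111 k112 2 3))))) (.c
  k207 (.q k79 [(.s k127 k64 6 (.d k111 k96 k95 2 3)), (.s k170 k255 14 (.s k42 k234 7 (.d k32 k239
  k47 10 2)))] (.c k95 (.l (.s k64 k127 6 (.s k80 k160 11 (.d k96 k111 k112 2 3)))) .n)) .n))) (.c
  k79 (.l (.s k207 k229 6 (.s k48 k112 7 (.d k255 k186 k170 10 14)))) (.c k207 (.q k79 [(.s k48 k112
  7 (.d k255 k186 k170 10 14)), (.s k111 k96 2 (.d k127 k95 k64 3 6))] (.c k37 (.l (.s k48 k112 7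
  (.d k255 k186 k170 10 14))) (.c k48 (.q k37 [(.s k127 k64 6 (.d k111 k96 k95 2 3)), (.s k170 k255
  14 (.s k42 k234 7 (.d k32 k239 k47 10 2)))] (.c k95 (.l (.s k64 k127 6 (.s k80 k160 11 (.d k96
  k111 k112 2 3)))) .n)) .n))) .n))))) (.c k79 (.q k207 [(.s k48 k112 7 (.d k255 k186 k170 10 14)),
  (.s k64 k127 6 (.s k128 k192 7 (.d k160 k144 k80 3 11)))] (.c k26 (.l (.s k218 k229 6 (.s k48 k112
  7 (.d k255 k186 k170 10 14)))) (.c k64 (.q k74 [(.s k48 k112 7 (.d k255 k186 k170 10 14)), (.s k96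
  k111 2 (.s k160 k80 11 (.s k32 k224 7 (.d k170 k239 k255 10 14)))), (.s k255 k170 14 (.d k48 k186
  k112 10 7)), (.s k48 k112 7 (.s k32 k16 3 (.s k96 k111 2 (.d k160 k80 k224 11 7))))] (.c k26 (.l
  (.s k218 k229 6 (.s k48 k112 7 (.d k255 k186 k170 10 14)))) (.c k218 (.q k26 [(.s k48 k112 7 (.d
  k255 k186 k170 10 14)), (.s k96 k111 2 (.s k160 k80 11 (.s k32 k224 7 (.d k170 k239 k255 10
  14)))), (.s k255 k170 14 (.d k48 k186 k112 10 7)), (.s k48 k112 7 (.s k32 k16 3 (.s k96 k111 2 (.d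
  k160 k80 k224 11 7))))] .n) .n))) (.c k74 (.l (.s k64 k127 6 (.s k48 k112 7 (.d k255 k186 k170 10
  14)))) (.c k218 (.q k26 [(.s k112 k48 7 (.d k127 k64 k122 6 2)), (.s k64 k127 6 (.s k128 k192 7
  (.d k160 k144 k80 3 11)))] (.c k64 (.q k74 [(.s k48 k112 7 (.d k255 k186 k170 10 14)), (.s k96
  k111 2 (.s k160 k80 11 (.s k32 k224 7 (.d k170 k239 k255 10 14)))), (.s k255 k170 14 (.d k48 k186
  k112 10 7)), (.s k48 k112 7 (.s k32 k16 3 (.s k96 k111 2 (.d k160 k80 k224 11 7))))] .n) (.c k74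
  (.l (.s k64 k127 6 (.s k48 k112 7 (.d k255 k186 k170 10 14)))) (.c k127 (.l (.s k48 k112 7 (.d
  k255 k186 k170 10 14))) .n)))) .n))))) (.c k207 (.q k79 [(.s k48 k112 7 (.d k255 k186 k170 10
  14)), (.s k111 k96 2 (.d k127 k95 k64 3 6))] (.c k26 (.q k218 [(.s k48 k112 7 (.d k255 k186 k170
  10 14)), (.s k111 k96 2 (.d k127 k95 k64 3 6))] (.c k37 (.l (.s k48 k112 7 (.d k255 k186 k170 10
  14))) (.c k48 (.q k37 [(.s k127 k64 6 (.d k111 k96 k95 2 3)), (.s k170 k255 14 (.s k42 k234 7 (.d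
  k32 k239 k47 10 2)))] (.c k95 (.l (.s k64 k127 6 (.s k80 k160 11 (.d k96 k111 k112 2 3)))) .n))
  .n))) (.c k218 (.q k26 [(.s k48 k112 7 (.d k255 k186 k170 10 14)), (.s k111 k96 2 (.d k127 k95 k64
  3 6))] .n) .n))) (.c k218 (.q k26 [(.s k48 k112 7 (.d k255 k186 k170 10 14)), (.s k64 k127 6 (.s
  k128 k192 7 (.d k160 k144 k80 3 11)))] (.c k79 (.q k207 [(.s k112 k48 7 (.d k127 k64 k122 6 2)),
  (.s k64 k127 6 (.s k128 k192 7 (.d k160 k144 k80 3 11)))] (.c k64 (.q k74 [(.s k48 k112 7 (.d k255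
  k186 k170 10 14)), (.s k96 k111 2 (.s k160 k80 11 (.s k32 k224 7 (.d k170 k239 k255 10 14)))), (.s
  k255 k170 14 (.d k48 k186 k112 10 7)), (.s k48 k112 7 (.s k32 k16 3 (.s k96 k111 2 (.d k160 k80
  k224 11 7))))] .n) (.c k74 (.l (.s k64 k127 6 (.s k48 k112 7 (.d k255 k186 k170 10 14)))) (.c k127
  (.l (.s k48 k112 7 (.d k255 k186 k170 10 14))) .n)))) (.c k207 (.q k79 [(.s k48 k112 7 (.d k255
  k186 k170 10 14)), (.s k111 k96 2 (.d k127 k95 k64 3 6))] .n) .n))) .n))))) (.c k160 (.l (.s k127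
  k64 6 (.s k122 k112 2 (.s k63 k181 10 (.d k255 k191 k170 7 14))))) (.c k170 (.l (.s k64 k127 6 (.s
  k96 k111 2 (.d k80 k112 k160 3 11)))) (.c k176 (.q k143 [(.s k96 k111 2 (.s k160 k80 11 (.s k32
  k224 7 (.d k170 k239 k255 10 14)))), (.s k127 k64 6 (.s k255 k170 14 (.s k63 k191 7 (.d k122 k181
  k112 10 2)))), (.s k64 k127 6 (.s k96 k111 2 (.d k80 k112 k160 3 11)))] (.c k26 (.q k218 [(.s k96
  k111 2 (.s k160 k80 11 (.s k32 k224 7 (.d k170 k239 k255 10 14)))), (.s k127 k64 6 (.s k255 k170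
  14 (.s k63 k191 7 (.d k122 k181 k112 10 2)))), (.s k64 k127 6 (.s k96 k111 2 (.d k80 k112 k160 3
  11)))] (.c k37 (.q k48 [(.d k255 k186 k170 10 14), (.s k32 k16 3 (.s k96 k111 2 (.d k160 k224 k80
  7 11)))] .n) (.c k48 (.q k37 [(.s k64 k127 6 (.s k96 k111 2 (.d k80 k112 k160 3 11))), (.s k170
  k255 14 (.s k32 k239 10 (.d k42 k47 k234 2 7)))] (.c k95 (.l (.s k64 k127 6 (.s k80 k160 11 (.d
  k96 k111 k112 2 3)))) .n)) (.c k160 (.l (.s k127 k64 6 (.s k122 k112 2 (.s k63 k181 10 (.d k255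
  k191 k170 7 14))))) .n)))) (.c k160 (.l (.s k127 k64 6 (.s k122 k112 2 (.s k63 k181 10 (.d k255
  k191 k170 7 14))))) (.c k218 (.q k26 [(.s k96 k111 2 (.s k160 k80 11 (.s k32 k224 7 (.d k170 k239
  k255 10 14)))), (.s k127 k64 6 (.s k255 k170 14 (.s k63 k191 7 (.d k122 k181 k112 10 2)))), (.s
  k64 k127 6 (.s k96 k111 2 (.d k80 k112 k160 3 11)))] (.c k160 (.l (.s k127 k64 6 (.s k122 k112 2
  (.s k63 k181 10 (.d k255 k191 k170 7 14))))) .n)) .n)))) (.c k218 (.q k26 [(.s k64 k127 6 (.s k80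
  k160 11 (.d k96 k111 k112 2 3))), (.s k96 k111 2 (.s k160 k80 11 (.s k32 k224 7 (.d k170 k239 k255
  10 14)))), (.s k127 k64 6 (.s k112 k122 2 (.s k255 k170 14 (.d k48 k176 k186 7 10))))] (.c k143
  (.q k176 [(.s k48 k112 7 (.d k255 k186 k170 10 14)), (.s k64 k127 6 (.s k128 k192 7 (.d k160 k144
  k80 3 11)))] (.c k79 (.q k207 [(.s k112 k48 7 (.d k127 k64 k122 6 2)), (.s k64 k127 6 (.s k128
  k192 7 (.d k160 k144 k80 3 11)))] (.c k64 (.q k74 [(.s k48 k112 7 (.d k255 k186 k170 10 14)), (.s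
  k96 k111 2 (.s k160 k80 11 (.s k32 k224 7 (.d k170 k239 k255 10 14)))), (.s k255 k170 14 (.d k48
  k186 k112 10 7)), (.s k48 k112 7 (.s k32 k16 3 (.s k96 k111 2 (.d k160 k80 k224 11 7))))] .n) (.c
  k74 (.l (.s k64 k127 6 (.s k48 k112 7 (.d k255 k186 k170 10 14)))) (.c k127 (.l (.s k48 k112 7 (.d
  k255 k186 k170 10 14))) .n)))) (.c k207 (.q k79 [(.s k48 k112 7 (.d k255 k186 k170 10 14)), (.s
  k111 k96 2 (.d k127 k95 k64 3 6))] .n) .n))) (.c k160 (.l (.s k127 k64 6 (.s k122 k112 2 (.s k63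
  k181 10 (.d k255 k191 k170 7 14))))) (.c k170 (.l (.s k64 k127 6 (.s k96 k111 2 (.d k80 k112 k160
  3 11)))) (.c k176 (.q k143 [(.s k96 k111 2 (.s k160 k80 11 (.s k32 k224 7 (.d k170 k239 k255 10
  14)))), (.s k127 k64 6 (.s k255 k170 14 (.s k63 k191 7 (.d k122 k181 k112 10 2)))), (.s k64 k127 6
  (.s k96 k111 2 (.d k80 k112 k160 3 11)))] (.c k160 (.l (.s k127 k64 6 (.s k122 k112 2 (.s k63 k181
  10 (.d k255 k191 k170 7 14))))) .n)) .n))))) .n))))))) (.c k143 (.q k176 [(.s k111 k96 2 (.s k127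
  k64 6 (.s k112 k122 2 (.d k79 k90 k95 6 3)))), (.s k127 k64 6 (.s k255 k170 14 (.s k186 k48 10 (.d
  k191 k181 k63 2 7)))), (.s k96 k111 2 (.s k170 k255 14 (.s k32 k239 10 (.s k48 k16 3 (.s k144 k192
  11 (.d k160 k128 k224 3 7))))))] (.c k74 (.l (.s k111 k96 2 (.s k127 k64 6 (.s k79 k95 3 (.d k112
  k122 k90 2 6))))) (.c k79 (.q k207 [(.s k64 k127 6 (.s k111 k96 2 (.s k192 k128 7 (.d k63 k159
  k149 11 14)))), (.s k255 k170 14 (.s k186 k48 10 (.s k191 k181 2 (.d k127 k64 k63 6 7)))), (.s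
  k111 k96 2 (.s k170 k255 14 (.s k42 k234 7 (.d k63 k21 k159 6 11))))] (.c k63 (.l (.s k64 k127 6
  (.s k128 k192 7 (.s k160 k144 3 (.s k240 k80 11 (.s k48 k112 7 (.d k255 k186 k170 10 14))))))) (.c
  k64 (.q k74 [(.s k90 k122 3 (.s k80 k95 2 (.s k240 k160 11 (.s k48 k112 7 (.d k255 k170 k186 14
  10))))), (.s k111 k96 2 (.s k63 k159 11 (.s k21 k42 6 (.d k149 k213 k192 7 14)))), (.s k170 k255
  14 (.s k42 k234 7 (.s k63 k21 6 (.d k111 k96 k159 2 11))))] (.c k90 (.q k240 [(.s k48 k112 7 (.d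
  k255 k186 k170 10 14)), (.s k96 k111 2 (.s k160 k80 11 (.s k32 k224 7 (.d k170 k239 k255 10
  14)))), (.s k255 k170 14 (.d k48 k186 k112 10 7)), (.s k48 k112 7 (.s k32 k16 3 (.s k96 k111 2 (.d
  k160 k80 k224 11 7))))] (.c k26 (.l (.s k218 k229 6 (.s k48 k112 7 (.d k255 k186 k170 10 14))))
  (.c k218 (.q k26 [(.s k48 k112 7 (.d k255 k186 k170 10 14)), (.s k96 k111 2 (.s k160 k80 11 (.s
  k32 k224 7 (.d k170 k239 k255 10 14)))), (.s k255 k170 14 (.d k48 k186 k112 10 7)), (.s k48 k112 7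
  (.s k32 k16 3 (.s k96 k111 2 (.d k160 k80 k224 11 7))))] .n) .n))) (.c k111 (.l (.s k255 k170 14
  (.s k186 k48 10 (.s k191 k181 2 (.s k127 k63 7 (.d k122 k112 k90 2 3)))))) (.c k175 (.l (.s k90
  k122 3 (.s k95 k80 2 (.s k170 k255 14 (.s k42 k234 7 (.s k63 k21 6 (.d k111 k96 k159 2 11)))))))
  (.c k240 (.l (.s k90 k122 3 (.s k111 k96 2 (.s k63 k159 11 (.s k21 k42 6 (.d k149 k213 k192 7
  14)))))) .n))))) (.c k74 (.l (.s k64 k127 6 (.s k111 k96 2 (.s k63 k159 11 (.d k192 k149 k128 14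
  7))))) (.c k90 (.q k240 [(.s k48 k112 7 (.d k255 k186 k170 10 14)), (.s k64 k127 6 (.s k128 k192 7
  (.d k160 k144 k80 3 11)))] (.c k26 (.l (.s k218 k229 6 (.s k48 k112 7 (.d k255 k186 k170 10 14))))
  (.c k64 (.q k74 [(.s k48 k112 7 (.d k255 k186 k170 10 14)), (.s k96 k111 2 (.s k160 k80 11 (.s k32
  k224 7 (.d k170 k239 k255 10 14)))), (.s k255 k170 14 (.d k48 k186 k112 10 7)), (.s k48 k112 7 (.s
  k32 k16 3 (.s k96 k111 2 (.d k160 k80 k224 11 7))))] (.c k26 (.l (.s k218 k229 6 (.s k48 k112 7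
  (.d k255 k186 k170 10 14)))) (.c k218 (.q k26 [(.s k48 k112 7 (.d k255 k186 k170 10 14)), (.s k96
  k111 2 (.s k160 k80 11 (.s k32 k224 7 (.d k170 k239 k255 10 14)))), (.s k255 k170 14 (.d k48 k186
  k112 10 7)), (.s k48 k112 7 (.s k32 k16 3 (.s k96 k111 2 (.d k160 k80 k224 11 7))))] .n) .n))) (.c
  k74 (.l (.s k64 k127 6 (.s k48 k112 7 (.d k255 k186 k170 10 14)))) (.c k218 (.q k26 [(.s k112 k48
  7 (.d k127 k64 k122 6 2)), (.s k64 k127 6 (.s k128 k192 7 (.d k160 k144 k80 3 11)))] (.c k64 (.q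
  k74 [(.s k48 k112 7 (.d k255 k186 k170 10 14)), (.s k96 k111 2 (.s k160 k80 11 (.s k32 k224 7 (.d
  k170 k239 k255 10 14)))), (.s k255 k170 14 (.d k48 k186 k112 10 7)), (.s k48 k112 7 (.s k32 k16 3
  (.s k96 k111 2 (.d k160 k80 k224 11 7))))] .n) (.c k74 (.l (.s k64 k127 6 (.s k48 k112 7 (.d k255
  k186 k170 10 14)))) (.c k127 (.l (.s k48 k112 7 (.d k255 k186 k170 10 14))) .n)))) .n))))) (.c
  k240 (.q k90 [(.s k64 k127 6 (.s k111 k96 2 (.s k192 k128 7 (.d k63 k159 k149 11 14)))), (.s k255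
  k170 14 (.s k186 k48 10 (.s k191 k181 2 (.d k127 k64 k63 6 7)))), (.s k111 k96 2 (.s k170 k255 14
  (.s k42 k234 7 (.d k63 k21 k159 6 11))))] (.c k63 (.l (.s k64 k127 6 (.s k95 k80 2 (.s k96 k111 2
  (.s k192 k128 7 (.s k48 k144 11 (.d k255 k186 k170 10 14))))))) (.c k64 (.l (.s k74 k122 3 (.s
  k111 k96 2 (.s k63 k159 11 (.s k21 k42 6 (.d k149 k213 k192 7 14)))))) (.c k74 (.l (.s k64 k127 6
  (.s k111 k96 2 (.s k63 k159 11 (.d k192 k149 k128 14 7))))) .n)))) .n)))))) (.c k90 (.q k240 [(.s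
  k48 k112 7 (.d k255 k186 k170 10 14)), (.s k64 k127 6 (.s k128 k192 7 (.d k160 k144 k80 3 11)))]
  (.c k26 (.q k218 [(.s k48 k112 7 (.d k255 k186 k170 10 14)), (.s k64 k127 6 (.s k128 k192 7 (.d
  k160 k144 k80 3 11)))] (.c k37 (.l (.s k48 k112 7 (.d k255 k186 k170 10 14))) (.c k48 (.q k37 [(.s
  k64 k127 6 (.s k160 k80 11 (.d k128 k144 k192 3 7))), (.s k170 k255 14 (.s k32 k239 10 (.d k42 k47
  k234 2 7)))] (.c k79 (.l (.s k207 k229 6 (.s k64 k127 6 (.s k80 k160 11 (.d k96 k111 k112 2 3)))))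
  (.c k207 (.q k79 [(.s k127 k64 6 (.d k111 k96 k95 2 3)), (.s k170 k255 14 (.s k42 k234 7 (.d k32
  k239 k47 10 2)))] (.c k95 (.l (.s k64 k127 6 (.s k80 k160 11 (.d k96 k111 k112 2 3)))) .n)) .n)))
  (.c k79 (.l (.s k207 k229 6 (.s k48 k112 7 (.d k255 k186 k170 10 14)))) (.c k207 (.q k79 [(.s k48
  k112 7 (.d k255 k186 k170 10 14)), (.s k111 k96 2 (.d k127 k95 k64 3 6))] (.c k37 (.l (.s k48 k112
  7 (.d k255 k186 k170 10 14))) (.c k48 (.q k37 [(.s k127 k64 6 (.d k111 k96 k95 2 3)), (.s k170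
  k255 14 (.s k42 k234 7 (.d k32 k239 k47 10 2)))] (.c k95 (.l (.s k64 k127 6 (.s k80 k160 11 (.d
  k96 k111 k112 2 3)))) .n)) .n))) .n))))) (.c k79 (.q k207 [(.s k48 k112 7 (.d k255 k186 k170 10
  14)), (.s k64 k127 6 (.s k128 k192 7 (.d k160 k144 k80 3 11)))] (.c k26 (.l (.s k218 k229 6 (.s
  k48 k112 7 (.d k255 k186 k170 10 14)))) (.c k64 (.q k74 [(.s k48 k112 7 (.d k255 k186 k170 10
  14)), (.s k96 k111 2 (.s k160 k80 11 (.s k32 k224 7 (.d k170 k239 k255 10 14)))), (.s k255 k170 14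
  (.d k48 k186 k112 10 7)), (.s k48 k112 7 (.s k32 k16 3 (.s k96 k111 2 (.d k160 k80 k224 11 7))))]
  (.c k26 (.l (.s k218 k229 6 (.s k48 k112 7 (.d k255 k186 k170 10 14)))) (.c k218 (.q k26 [(.s k48
  k112 7 (.d k255 k186 k170 10 14)), (.s k96 k111 2 (.s k160 k80 11 (.s k32 k224 7 (.d k170 k239
  k255 10 14)))), (.s k255 k170 14 (.d k48 k186 k112 10 7)), (.s k48 k112 7 (.s k32 k16 3 (.s k96
  k111 2 (.d k160 k80 k224 11 7))))] .n) .n))) (.c k74 (.l (.s k64 k127 6 (.s k48 k112 7 (.d k255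
  k186 k170 10 14)))) (.c k218 (.q k26 [(.s k112 k48 7 (.d k127 k64 k122 6 2)), (.s k64 k127 6 (.s
  k128 k192 7 (.d k160 k144 k80 3 11)))] (.c k64 (.q k74 [(.s k48 k112 7 (.d k255 k186 k170 10 14)),
  (.s k96 k111 2 (.s k160 k80 11 (.s k32 k224 7 (.d k170 k239 k255 10 14)))), (.s k255 k170 14 (.d
  k48 k186 k112 10 7)), (.s k48 k112 7 (.s k32 k16 3 (.s k96 k111 2 (.d k160 k80 k224 11 7))))] .n)
  (.c k74 (.l (.s k64 k127 6 (.s k48 k112 7 (.d k255 k186 k170 10 14)))) (.c k127 (.l (.s k48 k112 7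
  (.d k255 k186 k170 10 14))) .n)))) .n))))) (.c k207 (.q k79 [(.s k48 k112 7 (.d k255 k186 k170 10
  14)), (.s k111 k96 2 (.d k127 k95 k64 3 6))] (.c k26 (.q k218 [(.s k48 k112 7 (.d k255 k186 k170
  10 14)), (.s k111 k96 2 (.d k127 k95 k64 3 6))] (.c k37 (.l (.s k48 k112 7 (.d k255 k186 k170 10
  14))) (.c k48 (.q k37 [(.s k127 k64 6 (.d k111 k96 k95 2 3)), (.s k170 k255 14 (.s k42 k234 7 (.d
  k32 k239 k47 10 2)))] (.c k95 (.l (.s k64 k127 6 (.s k80 k160 11 (.d k96 k111 k112 2 3)))) .n))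
  .n))) (.c k218 (.q k26 [(.s k48 k112 7 (.d k255 k186 k170 10 14)), (.s k111 k96 2 (.d k127 k95 k64
  3 6))] .n) .n))) (.c k218 (.q k26 [(.s k48 k112 7 (.d k255 k186 k170 10 14)), (.s k64 k127 6 (.s
  k128 k192 7 (.d k160 k144 k80 3 11)))] (.c k79 (.q k207 [(.s k112 k48 7 (.d k127 k64 k122 6 2)),
  (.s k64 k127 6 (.s k128 k192 7 (.d k160 k144 k80 3 11)))] (.c k64 (.q k74 [(.s k48 k112 7 (.d k255
  k186 k170 10 14)), (.s k96 k111 2 (.s k160 k80 11 (.s k32 k224 7 (.d k170 k239 k255 10 14)))), (.s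
  k255 k170 14 (.d k48 k186 k112 10 7)), (.s k48 k112 7 (.s k32 k16 3 (.s k96 k111 2 (.d k160 k80
  k224 11 7))))] .n) (.c k74 (.l (.s k64 k127 6 (.s k48 k112 7 (.d k255 k186 k170 10 14)))) (.c k127
  (.l (.s k48 k112 7 (.d k255 k186 k170 10 14))) .n)))) (.c k207 (.q k79 [(.s k48 k112 7 (.d k255
  k186 k170 10 14)), (.s k111 k96 2 (.d k127 k95 k64 3 6))] .n) .n))) .n))))) (.c k207 (.q k79 [(.s
  k127 k64 6 (.d k112 k90 k122 6 2)), (.s k111 k96 2 (.d k127 k95 k64 3 6))] (.c k64 (.l (.s k111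
  k96 2 (.s k95 k127 3 (.d k90 k80 k112 2 6)))) (.c k90 (.q k240 [(.s k48 k112 7 (.d k255 k186 k170
  10 14)), (.s k111 k96 2 (.d k127 k95 k64 3 6))] (.c k26 (.q k218 [(.s k48 k112 7 (.d k255 k186
  k170 10 14)), (.s k111 k96 2 (.d k127 k95 k64 3 6))] (.c k37 (.l (.s k48 k112 7 (.d k255 k186 k170
  10 14))) (.c k48 (.q k37 [(.s k127 k64 6 (.d k111 k96 k95 2 3)), (.s k170 k255 14 (.s k42 k234 7
  (.d k32 k239 k47 10 2)))] (.c k95 (.l (.s k64 k127 6 (.s k80 k160 11 (.d k96 k111 k112 2 3))))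
  .n)) .n))) (.c k218 (.q k26 [(.s k48 k112 7 (.d k255 k186 k170 10 14)), (.s k111 k96 2 (.d k127
  k95 k64 3 6))] .n) .n))) (.c k127 (.l (.s k96 k111 2 (.s k112 k90 6 (.s k240 k48 7 (.d k80 k64
  k160 3 11))))) (.c k240 (.l (.s k90 k112 6 (.s k95 k80 2 (.d k111 k96 k127 2 3)))) .n))))) (.c
  k240 (.q k90 [(.s k127 k64 6 (.d k112 k79 k122 6 2)), (.s k96 k111 2 (.s k170 k255 14 (.s k32 k239
  10 (.s k48 k16 3 (.s k144 k192 11 (.d k160 k224 k128 7 3))))))] (.c k74 (.l (.s k64 k127 6 (.s k80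
  k95 2 (.d k96 k111 k112 2 3)))) (.c k79 (.q k207 [(.s k64 k127 6 (.s k111 k96 2 (.s k192 k128 7
  (.d k63 k159 k149 11 14)))), (.s k255 k170 14 (.s k186 k48 10 (.s k191 k181 2 (.d k127 k64 k63 6
  7)))), (.s k111 k96 2 (.s k170 k255 14 (.s k42 k234 7 (.d k63 k21 k159 6 11))))] (.c k63 (.l (.s
  k64 k127 6 (.s k95 k80 2 (.s k96 k111 2 (.s k192 k128 7 (.s k48 k144 11 (.d k255 k186 k170 10
  14))))))) (.c k64 (.l (.s k74 k122 3 (.s k111 k96 2 (.s k63 k159 11 (.s k21 k42 6 (.d k149 k213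
  k192 7 14)))))) (.c k74 (.l (.s k64 k127 6 (.s k111 k96 2 (.s k63 k159 11 (.d k192 k149 k128 14
  7))))) .n)))) (.c k207 (.l (.s k79 k112 6 (.s k95 k80 2 (.d k111 k96 k127 2 3)))) .n)))) .n))))))
  (.c k176 (.q k143 [(.s k111 k96 2 (.s k127 k64 6 (.s k112 k122 2 (.d k79 k90 k95 6 3)))), (.s k64
  k127 6 (.s k192 k128 7 (.s k63 k149 14 (.s k42 k21 6 (.d k170 k234 k255 7 14))))), (.s k96 k111 2
  (.s k170 k255 14 (.s k32 k239 10 (.s k42 k234 7 (.s k48 k16 3 (.s k63 k21 6 (.d k192 k144 k149 11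
  14)))))))] (.c k90 (.q k240 [(.s k96 k111 2 (.s k160 k80 11 (.s k32 k224 7 (.d k170 k239 k255 10
  14)))), (.s k127 k64 6 (.s k255 k170 14 (.s k63 k191 7 (.d k122 k181 k112 10 2)))), (.s k64 k127 6
  (.s k96 k111 2 (.d k80 k112 k160 3 11)))] (.c k26 (.q k218 [(.s k96 k111 2 (.s k160 k80 11 (.s k32
  k224 7 (.d k170 k239 k255 10 14)))), (.s k127 k64 6 (.s k255 k170 14 (.s k63 k191 7 (.d k122 k181
  k112 10 2)))), (.s k64 k127 6 (.s k96 k111 2 (.d k80 k112 k160 3 11)))] (.c k37 (.q k48 [(.d k255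
  k186 k170 10 14), (.s k32 k16 3 (.s k96 k111 2 (.d k160 k224 k80 7 11)))] .n) (.c k48 (.q k37 [(.s
  k64 k127 6 (.s k96 k111 2 (.d k80 k112 k160 3 11))), (.s k170 k255 14 (.s k32 k239 10 (.d k42 k47
  k234 2 7)))] (.c k95 (.l (.s k64 k127 6 (.s k80 k160 11 (.d k96 k111 k112 2 3)))) .n)) (.c k160
  (.l (.s k127 k64 6 (.s k122 k112 2 (.s k63 k181 10 (.d k255 k191 k170 7 14))))) .n)))) (.c k160
  (.l (.s k127 k64 6 (.s k122 k112 2 (.s k63 k181 10 (.d k255 k191 k170 7 14))))) (.c k218 (.q k26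
  [(.s k96 k111 2 (.s k160 k80 11 (.s k32 k224 7 (.d k170 k239 k255 10 14)))), (.s k127 k64 6 (.s
  k255 k170 14 (.s k63 k191 7 (.d k122 k181 k112 10 2)))), (.s k64 k127 6 (.s k96 k111 2 (.d k80
  k112 k160 3 11)))] (.c k160 (.l (.s k127 k64 6 (.s k122 k112 2 (.s k63 k181 10 (.d k255 k191 k170
  7 14))))) .n)) .n)))) (.c k240 (.q k90 [(.s k112 k79 6 (.d k122 k74 k127 3 2)), (.s k96 k111 2 (.s
  k170 k255 14 (.s k32 k239 10 (.s k42 k234 7 (.s k48 k16 3 (.s k63 k21 6 (.d k192 k144 k149 11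
  14)))))))] (.c k48 (.l (.s k112 k79 6 (.d k122 k74 k127 3 2))) (.c k112 (.q k48 [(.d k255 k186
  k170 10 14), (.s k64 k127 6 (.s k96 k111 2 (.d k192 k128 k144 7 11)))] .n) .n))) .n))) (.c k240
  (.q k90 [(.s k112 k79 6 (.d k122 k74 k127 3 2)), (.s k96 k111 2 (.s k170 k255 14 (.s k32 k239 10
  (.s k42 k234 7 (.s k48 k16 3 (.s k63 k21 6 (.d k192 k144 k149 11 14)))))))] (.c k143 (.q k176 [(.s
  k127 k64 6 (.d k112 k79 k122 6 2)), (.s k96 k111 2 (.s k170 k255 14 (.s k32 k239 10 (.s k48 k16 3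
  (.s k144 k192 11 (.d k160 k224 k128 7 3))))))] (.c k74 (.l (.s k64 k127 6 (.s k80 k95 2 (.d k96
  k111 k112 2 3)))) (.c k79 (.q k207 [(.s k64 k127 6 (.s k111 k96 2 (.s k192 k128 7 (.d k63 k159
  k149 11 14)))), (.s k255 k170 14 (.s k186 k48 10 (.s k191 k181 2 (.d k127 k64 k63 6 7)))), (.s
  k111 k96 2 (.s k170 k255 14 (.s k42 k234 7 (.d k63 k21 k159 6 11))))] (.c k63 (.l (.s k64 k127 6
  (.s k95 k80 2 (.s k96 k111 2 (.s k192 k128 7 (.s k48 k144 11 (.d k255 k186 k170 10 14))))))) (.c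
  k64 (.l (.s k74 k122 3 (.s k111 k96 2 (.s k63 k159 11 (.s k21 k42 6 (.d k149 k213 k192 7 14))))))
  (.c k74 (.l (.s k64 k127 6 (.s k111 k96 2 (.s k63 k159 11 (.d k192 k149 k128 14 7))))) .n)))) (.c
  k207 (.l (.s k79 k112 6 (.s k95 k80 2 (.d k111 k96 k127 2 3)))) .n)))) (.c k176 (.q k143 [(.s k112
  k79 6 (.d k122 k74 k127 3 2)), (.s k96 k111 2 (.s k170 k255 14 (.s k32 k239 10 (.s k42 k234 7 (.s
  k48 k16 3 (.s k63 k21 6 (.d k192 k144 k149 11 14)))))))] (.c k48 (.l (.s k112 k79 6 (.d k122 k74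
  k127 3 2))) (.c k112 (.q k48 [(.d k255 k186 k170 10 14), (.s k64 k127 6 (.s k96 k111 2 (.d k192
  k128 k144 7 11)))] .n) .n))) (.c k207 (.l (.s k122 k74 3 (.d k112 k79 k127 6 2))) .n)))) .n))))))
  (.c k170 (.f k69 k117 3 (.q k90 [(.s k95 k80 2 (.s k79 k112 6 (.s k127 k111 3 (.d k64 k74 k106 2
  6)))), (.s k80 k95 2 (.s k207 k138 10 (.s k154 k48 14 (.s k16 k223 10 (.s k26 k218 7 (.s k31 k21 2
  (.d k208 k144 k149 7 10))))))), (.s k79 k112 6 (.s k64 k74 2 (.s k192 k128 7 (.s k207 k138 10 (.s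
  k154 k48 14 (.s k202 k197 2 (.d k106 k127 k58 6 11)))))))] (.c k160 (.q k175 [(.s k95 k80 2 (.s
  k79 k112 6 (.s k127 k111 3 (.d k64 k74 k106 2 6)))), (.s k80 k95 2 (.s k207 k138 10 (.s k154 k48
  14 (.s k16 k223 10 (.s k26 k218 7 (.s k31 k21 2 (.d k208 k144 k149 7 10))))))), (.s k79 k112 6 (.s
  k64 k74 2 (.s k192 k128 7 (.s k207 k138 10 (.s k154 k48 14 (.s k202 k197 2 (.d k106 k127 k58 6
  11)))))))] .n) (.c k175 (.q k160 [(.d k80 k95 k240 2 11)] (.c k80 (.l (.s k79 k112 6 (.s k64 k74 2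
  (.s k192 k128 7 (.s k207 k138 10 (.s k154 k48 14 (.s k202 k197 2 (.d k106 k127 k58 6 11))))))))
  (.c k95 (.q k255 [(.s k207 k138 10 (.s k154 k48 14 (.d k223 k239 k16 3 10))), (.s k79 k112 6 (.s
  k64 k74 2 (.s k192 k128 7 (.s k213 k234 6 (.s k149 k21 7 (.d k106 k127 k63 6 14))))))] .n) (.c
  k240 (.l (.s k79 k112 6 (.s k64 k74 2 (.s k95 k80 2 (.d k127 k111 k106 3 6))))) (.c k255 (.l (.s
  k95 k80 2 (.s k79 k112 6 (.s k64 k74 2 (.d k127 k111 k106 3 6))))) .n))))) .n)))) (.c k186 (.l (.s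
  k69 k117 3 (.s k207 k138 10 (.s k48 k154 14 (.s k170 k255 14 (.d k32 k16 k239 3 10)))))) (.c k207
  (.q k125 [(.s k105 k65 5 (.s k117 k69 3 (.s k109 k97 1 (.s k113 k121 1 (.d k77 k93 k89 3 5))))),
  (.s k105 k65 5 (.s k255 k170 14 (.s k60 k190 8 (.s k20 k40 5 (.d k150 k215 k195 8 14))))), (.s
  k117 k69 3 (.s k113 k121 1 (.s k255 k170 14 (.s k48 k186 10 (.s k243 k178 8 (.s k81 k162 12 (.d
  k89 k93 k77 1 5)))))))] (.c k79 (.q k143 [(.s k65 k105 5 (.s k69 k117 3 (.s k77 k73 1 (.s k89 k113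
  5 (.d k93 k81 k109 1 3))))), (.s k105 k65 5 (.s k255 k170 14 (.s k60 k190 8 (.s k20 k40 5 (.d k150
  k215 k195 8 14))))), (.s k117 k69 3 (.s k113 k121 1 (.s k255 k170 14 (.s k48 k186 10 (.s k243 k178
  8 (.s k81 k162 12 (.d k89 k93 k77 1 5)))))))] (.c k90 (.q k240 [(.s k105 k65 5 (.s k117 k69 3 (.s
  k109 k97 1 (.s k113 k121 1 (.d k77 k93 k89 3 5))))), (.s k105 k65 5 (.s k255 k170 14 (.s k60 k190
  8 (.s k20 k40 5 (.d k150 k215 k195 8 14))))), (.s k117 k69 3 (.s k113 k121 1 (.s k255 k170 14 (.s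
  k48 k186 10 (.s k243 k178 8 (.s k81 k162 12 (.d k89 k93 k77 1 5)))))))] .n) (.c k240 (.q k90 [(.s
  k65 k105 5 (.s k69 k117 3 (.s k77 k73 1 (.s k89 k113 5 (.d k93 k81 k109 1 3))))), (.s k105 k65 5
  (.s k255 k170 14 (.s k60 k190 8 (.s k20 k40 5 (.d k150 k215 k195 8 14))))), (.s k117 k69 3 (.s
  k113 k121 1 (.s k255 k170 14 (.s k48 k186 10 (.s k243 k178 8 (.s k81 k162 12 (.d k89 k93 k77 1
  5)))))))] (.c k218 (.q k229 [(.s k65 k105 5 (.s k69 k117 3 (.s k77 k73 1 (.s k89 k113 5 (.d k93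
  k81 k109 1 3))))), (.s k105 k65 5 (.s k255 k170 14 (.s k60 k190 8 (.s k20 k40 5 (.d k150 k215 k195
  8 14))))), (.s k117 k69 3 (.s k113 k121 1 (.s k255 k170 14 (.s k48 k186 10 (.s k243 k178 8 (.s k81
  k162 12 (.d k89 k93 k77 1 5)))))))] .n) (.c k229 (.q k218 [(.s k65 k105 5 (.s k69 k117 3 (.s k77
  k73 1 (.s k89 k113 5 (.d k93 k81 k109 1 3))))), (.s k95 k80 2 (.s k154 k26 7 (.s k223 k16 10 (.s
  k31 k159 7 (.d k208 k213 k149 2 10)))))] .n) .n))) .n))) (.c k90 (.q k240 [(.s k105 k65 5 (.s k117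
  k69 3 (.s k109 k97 1 (.s k113 k121 1 (.d k77 k93 k89 3 5))))), (.s k105 k65 5 (.s k255 k170 14 (.s
  k60 k190 8 (.s k20 k40 5 (.d k150 k215 k195 8 14))))), (.s k117 k69 3 (.s k113 k121 1 (.s k255
  k170 14 (.s k48 k186 10 (.s k243 k178 8 (.s k81 k162 12 (.d k89 k93 k77 1 5)))))))] (.c k79 (.q
  k143 [(.s k105 k65 5 (.s k117 k69 3 (.s k109 k97 1 (.s k113 k121 1 (.d k77 k93 k89 3 5))))), (.s
  k105 k65 5 (.s k255 k170 14 (.s k60 k190 8 (.s k20 k40 5 (.d k150 k215 k195 8 14))))), (.s k117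
  k69 3 (.s k113 k121 1 (.s k255 k170 14 (.s k48 k186 10 (.s k243 k178 8 (.s k81 k162 12 (.d k89 k93
  k77 1 5)))))))] .n) (.c k143 (.q k79 [(.s k65 k105 5 (.s k69 k117 3 (.s k77 k73 1 (.s k89 k113 5
  (.d k93 k81 k109 1 3))))), (.s k69 k117 3 (.s k64 k74 2 (.s k80 k160 11 (.s k96 k112 3 (.d k106
  k127 k111 6 2))))), (.s k105 k65 5 (.s k255 k170 14 (.s k60 k190 8 (.s k20 k40 5 (.d k150 k215
  k195 8 14)))))] (.c k154 (.q k176 [(.s k48 k112 7 (.s k32 k16 3 (.d k170 k239 k255 10 14))), (.s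
  k69 k117 3 (.s k64 k74 2 (.s k160 k80 11 (.d k128 k192 k144 7 3))))] (.c k26 (.q k218 [(.s k48
  k112 7 (.s k117 k69 3 (.d k255 k186 k170 10 14))), (.s k69 k117 3 (.s k64 k74 2 (.s k160 k80 11
  (.d k128 k192 k144 7 3)))), (.s k48 k112 7 (.s k32 k16 3 (.d k170 k239 k255 10 14)))] (.c k37 (.l
  (.s k48 k112 7 (.s k32 k16 3 (.d k170 k239 k255 10 14)))) (.c k48 (.q k37 [(.s k69 k117 3 (.s k64
  k74 2 (.s k160 k80 11 (.d k128 k192 k144 7 3)))), (.s k65 k105 5 (.s k117 k69 3 (.s k113 k121 1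
  (.s k81 k97 3 (.d k89 k93 k77 1 5))))), (.s k105 k65 5 (.s k255 k170 14 (.s k60 k190 8 (.s k20 k40
  5 (.d k150 k215 k195 8 14)))))] .n) .n))) (.c k218 (.q k26 [(.s k48 k112 7 (.s k32 k16 3 (.d k170
  k239 k255 10 14))), (.s k69 k117 3 (.s k64 k74 2 (.s k160 k80 11 (.d k128 k192 k144 7 3))))] .n)
  .n))) (.c k176 (.q k154 [(.s k16 k223 10 (.s k32 k48 3 (.d k170 k239 k255 10 14))), (.s k65 k105 5
  (.s k69 k117 3 (.s k77 k73 1 (.s k89 k113 5 (.d k93 k81 k109 1 3)))))] .n) .n))) .n))) (.c k143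
  (.q k79 [(.s k69 k117 3 (.s k64 k74 2 (.s k90 k112 6 (.s k95 k80 2 (.d k127 k111 k106 3 6))))),
  (.s k105 k65 5 (.s k255 k170 14 (.s k60 k190 8 (.s k20 k40 5 (.d k150 k215 k195 8 14)))))] (.c k90
  (.q k240 [(.s k65 k105 5 (.s k69 k117 3 (.s k77 k73 1 (.s k89 k113 5 (.d k93 k81 k109 1 3))))),
  (.s k69 k117 3 (.s k64 k74 2 (.s k80 k160 11 (.s k96 k112 3 (.d k106 k127 k111 6 2))))), (.s k105
  k65 5 (.s k255 k170 14 (.s k60 k190 8 (.s k20 k40 5 (.d k150 k215 k195 8 14)))))] (.c k154 (.q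
  k176 [(.s k48 k112 7 (.s k32 k16 3 (.d k170 k239 k255 10 14))), (.s k69 k117 3 (.s k64 k74 2 (.s
  k160 k80 11 (.d k128 k192 k144 7 3))))] (.c k26 (.q k218 [(.s k48 k112 7 (.s k117 k69 3 (.d k255
  k186 k170 10 14))), (.s k69 k117 3 (.s k64 k74 2 (.s k160 k80 11 (.d k128 k192 k144 7 3)))), (.s
  k48 k112 7 (.s k32 k16 3 (.d k170 k239 k255 10 14)))] (.c k37 (.l (.s k48 k112 7 (.s k32 k16 3 (.d
  k170 k239 k255 10 14)))) (.c k48 (.q k37 [(.s k69 k117 3 (.s k64 k74 2 (.s k160 k80 11 (.d k128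
  k192 k144 7 3)))), (.s k65 k105 5 (.s k117 k69 3 (.s k113 k121 1 (.s k81 k97 3 (.d k89 k93 k77 1
  5))))), (.s k105 k65 5 (.s k255 k170 14 (.s k60 k190 8 (.s k20 k40 5 (.d k150 k215 k195 8 14)))))]
  .n) .n))) (.c k218 (.q k26 [(.s k48 k112 7 (.s k32 k16 3 (.d k170 k239 k255 10 14))), (.s k69 k117
  3 (.s k64 k74 2 (.s k160 k80 11 (.d k128 k192 k144 7 3))))] .n) .n))) (.c k176 (.q k154 [(.s k16
  k223 10 (.s k32 k48 3 (.d k170 k239 k255 10 14))), (.s k65 k105 5 (.s k69 k117 3 (.s k77 k73 1 (.s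
  k89 k113 5 (.d k93 k81 k109 1 3)))))] .n) .n))) (.c k154 (.q k176 [(.s k69 k117 3 (.s k64 k74 2
  (.s k90 k112 6 (.s k95 k80 2 (.d k127 k111 k106 3 6))))), (.s k105 k65 5 (.s k255 k170 14 (.s k60
  k190 8 (.s k20 k40 5 (.d k150 k215 k195 8 14)))))] (.c k90 (.q k240 [(.s k48 k112 7 (.s k32 k16 3
  (.d k170 k239 k255 10 14))), (.s k69 k117 3 (.s k64 k74 2 (.s k160 k80 11 (.d k128 k192 k144 7
  3))))] (.c k26 (.q k218 [(.s k48 k112 7 (.s k117 k69 3 (.d k255 k186 k170 10 14))), (.s k69 k117 3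
  (.s k64 k74 2 (.s k160 k80 11 (.d k128 k192 k144 7 3)))), (.s k48 k112 7 (.s k32 k16 3 (.d k170
  k239 k255 10 14)))] (.c k37 (.l (.s k48 k112 7 (.s k32 k16 3 (.d k170 k239 k255 10 14)))) (.c k48
  (.q k37 [(.s k69 k117 3 (.s k64 k74 2 (.s k160 k80 11 (.d k128 k192 k144 7 3)))), (.s k65 k105 5
  (.s k117 k69 3 (.s k113 k121 1 (.s k81 k97 3 (.d k89 k93 k77 1 5))))), (.s k105 k65 5 (.s k255
  k170 14 (.s k60 k190 8 (.s k20 k40 5 (.d k150 k215 k195 8 14)))))] .n) .n))) (.c k218 (.q k26 [(.s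
  k48 k112 7 (.s k32 k16 3 (.d k170 k239 k255 10 14))), (.s k69 k117 3 (.s k64 k74 2 (.s k160 k80 11
  (.d k128 k192 k144 7 3))))] .n) .n))) (.c k240 (.l (.s k90 k112 6 (.s k69 k117 3 (.s k64 k74 2 (.s
  k95 k80 2 (.d k127 k111 k106 3 6)))))) .n))) (.c k176 (.q k154 [(.s k16 k223 10 (.s k32 k48 3 (.d
  k170 k239 k255 10 14))), (.s k65 k105 5 (.s k69 k117 3 (.s k77 k73 1 (.s k89 k113 5 (.d k93 k81
  k109 1 3)))))] (.c k90 (.q k240 [(.s k16 k223 10 (.s k32 k48 3 (.d k170 k239 k255 10 14))), (.s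
  k65 k105 5 (.s k69 k117 3 (.s k77 k73 1 (.s k89 k113 5 (.d k93 k81 k109 1 3)))))] .n) (.c k240 (.f
  k90 k112 6 (.q k48 [(.d k16 k32 k223 3 10), (.s k117 k69 3 (.d k255 k186 k170 10 14))] (.c k218
  (.q k229 [(.d k16 k32 k223 3 10), (.s k117 k69 3 (.d k255 k186 k170 10 14))] .n) (.c k229 (.l (.s
  k218 k26 7 (.d k16 k32 k223 3 10))) .n)))) .n))) (.c k240 (.l (.s k90 k112 6 (.s k69 k117 3 (.s
  k64 k74 2 (.s k95 k80 2 (.d k127 k111 k106 3 6)))))) .n))))) (.c k240 (.q k90 [(.s k65 k105 5 (.s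
  k69 k117 3 (.s k77 k73 1 (.s k89 k113 5 (.d k93 k81 k109 1 3))))), (.s k69 k117 3 (.s k79 k112 6
  (.s k64 k74 2 (.s k95 k80 2 (.d k127 k111 k106 3 6))))), (.s k105 k65 5 (.s k255 k170 14 (.s k60
  k190 8 (.s k20 k40 5 (.d k150 k215 k195 8 14)))))] (.c k79 (.q k143 [(.s k65 k105 5 (.s k69 k117 3
  (.s k77 k73 1 (.s k89 k113 5 (.d k93 k81 k109 1 3))))), (.s k105 k65 5 (.s k255 k170 14 (.s k60
  k190 8 (.s k20 k40 5 (.d k150 k215 k195 8 14))))), (.s k117 k69 3 (.s k113 k121 1 (.s k255 k170 14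
  (.s k48 k186 10 (.s k243 k178 8 (.s k81 k162 12 (.d k89 k93 k77 1 5)))))))] (.c k218 (.q k229 [(.s
  k65 k105 5 (.s k69 k117 3 (.s k77 k73 1 (.s k89 k113 5 (.d k93 k81 k109 1 3))))), (.s k105 k65 5
  (.s k255 k170 14 (.s k60 k190 8 (.s k20 k40 5 (.d k150 k215 k195 8 14))))), (.s k117 k69 3 (.s
  k113 k121 1 (.s k255 k170 14 (.s k48 k186 10 (.s k243 k178 8 (.s k81 k162 12 (.d k89 k93 k77 1
  5)))))))] .n) (.c k229 (.q k218 [(.s k65 k105 5 (.s k69 k117 3 (.s k77 k73 1 (.s k89 k113 5 (.d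
  k93 k81 k109 1 3))))), (.s k95 k80 2 (.s k154 k26 7 (.s k223 k16 10 (.s k31 k159 7 (.d k208 k213
  k149 2 10)))))] .n) .n))) (.c k143 (.l (.s k79 k112 6 (.s k69 k117 3 (.s k64 k74 2 (.s k95 k80 2
  (.d k127 k111 k106 3 6)))))) (.c k218 (.q k229 [(.s k65 k105 5 (.s k69 k117 3 (.s k77 k73 1 (.s
  k89 k113 5 (.d k93 k81 k109 1 3))))), (.s k69 k117 3 (.s k79 k112 6 (.s k64 k74 2 (.s k95 k80 2
  (.d k127 k111 k106 3 6))))), (.s k105 k65 5 (.s k255 k170 14 (.s k60 k190 8 (.s k20 k40 5 (.d k150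
  k215 k195 8 14)))))] (.c k79 (.q k143 [(.s k65 k105 5 (.s k69 k117 3 (.s k77 k73 1 (.s k89 k113 5
  (.d k93 k81 k109 1 3))))), (.s k105 k65 5 (.s k255 k170 14 (.s k60 k190 8 (.s k20 k40 5 (.d k150
  k215 k195 8 14))))), (.s k117 k69 3 (.s k113 k121 1 (.s k255 k170 14 (.s k48 k186 10 (.s k243 k178
  8 (.s k81 k162 12 (.d k89 k93 k77 1 5)))))))] .n) (.c k143 (.l (.s k79 k112 6 (.s k69 k117 3 (.s
  k64 k74 2 (.s k95 k80 2 (.d k127 k111 k106 3 6)))))) .n))) (.c k229 (.q k218 [(.s k65 k105 5 (.s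
  k69 k117 3 (.s k77 k73 1 (.s k89 k113 5 (.d k93 k81 k109 1 3))))), (.s k95 k80 2 (.s k154 k26 7
  (.s k223 k16 10 (.s k31 k159 7 (.d k208 k213 k149 2 10)))))] (.c k79 (.q k143 [(.s k65 k105 5 (.s
  k69 k117 3 (.s k77 k73 1 (.s k89 k113 5 (.d k93 k81 k109 1 3))))), (.s k95 k80 2 (.s k154 k26 7
  (.s k223 k16 10 (.s k31 k159 7 (.d k208 k213 k149 2 10)))))] .n) (.c k143 (.l (.s k79 k112 6 (.s
  k69 k117 3 (.s k64 k74 2 (.s k95 k80 2 (.d k127 k111 k106 3 6)))))) .n))) .n))))) .n))))) (.c k239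
  (.l (.s k117 k69 3 (.s k255 k170 14 (.s k48 k186 10 (.s k16 k32 3 (.d k154 k223 k207 10 14))))))
  (.c k240 (.q k90 [(.s k69 k117 3 (.s k207 k138 10 (.s k48 k154 14 (.s k32 k16 3 (.d k170 k239 k255
  10 14))))), (.s k69 k117 3 (.s k79 k112 6 (.s k64 k74 2 (.s k95 k80 2 (.d k127 k111 k106 3 6))))),
  (.s k80 k95 2 (.s k112 k79 6 (.s k64 k96 3 (.s k117 k69 3 (.d k127 k122 k106 2 6)))))] (.c k69 (.q
  k1 [(.s k3 k2 0 (.s k169 k253 13 (.s k86 k252 14 (.s k87 k84 0 (.d k255 k171 k170 13 14))))), (.s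
  k3 k2 0 (.s k169 k253 13 (.s k33 k237 9 (.s k48 k18 4 (.s k16 k32 3 (.d k154 k223 k207 10
  14)))))), (.s k169 k253 13 (.s k33 k237 9 (.s k17 k49 3 (.s k34 k51 4 (.s k170 k255 14 (.d k32 k35
  k239 0 10))))))] (.c k169 (.l (.s k2 k3 0 (.s k170 k255 14 (.s k86 k254 13 (.s k82 k94 1 (.s k242
  k162 11 (.s k14 k166 13 (.d k10 k250 k6 11 1)))))))) (.c k253 (.l (.s k2 k3 0 (.s k170 k255 14 (.s
  k250 k10 11 (.s k254 k86 13 (.s k242 k246 1 (.s k166 k14 13 (.d k162 k82 k174 11 1)))))))) .n)))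
  (.c k117 (.q k1 [(.s k3 k2 0 (.s k255 k170 14 (.s k87 k171 13 (.s k86 k84 0 (.d k169 k253 k252 13
  14))))), (.s k3 k2 0 (.s k169 k253 13 (.s k33 k237 9 (.s k48 k18 4 (.s k16 k32 3 (.d k154 k223
  k207 10 14)))))), (.s k169 k253 13 (.s k33 k237 9 (.s k170 k255 14 (.s k32 k239 10 (.s k34 k35 0
  (.d k17 k49 k51 3 4))))))] (.c k169 (.l (.s k2 k3 0 (.s k170 k255 14 (.s k86 k254 13 (.s k82 k94 1
  (.s k242 k162 11 (.s k14 k166 13 (.d k10 k250 k6 11 1)))))))) (.c k253 (.l (.s k2 k3 0 (.s k170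
  k255 14 (.s k250 k10 11 (.s k254 k86 13 (.s k242 k246 1 (.s k166 k14 13 (.d k162 k82 k174 11
  1)))))))) .n))) .n))) (.c k255 (.q k102 [(.s k103 k100 0 (.s k117 k69 3 (.s k119 k68 4 (.s k116
  k118 0 (.d k71 k87 k86 3 4))))), (.s k69 k117 3 (.s k103 k100 0 (.s k207 k138 10 (.s k51 k155 13
  (.s k17 k34 4 (.d k153 k221 k204 9 14)))))), (.s k68 k119 4 (.s k100 k103 0 (.s k204 k136 9 (.s
  k48 k152 13 (.s k16 k32 3 (.d k154 k223 k207 10 14)))))), (.s k68 k119 4 (.s k69 k117 3 (.s k204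
  k136 9 (.s k207 k138 10 (.s k205 k206 0 (.d k153 k51 k49 14 13))))))] (.c k90 (.q k240 [(.s k103
  k100 0 (.s k117 k69 3 (.s k119 k68 4 (.s k116 k118 0 (.d k71 k87 k86 3 4))))), (.s k69 k117 3 (.s
  k103 k100 0 (.s k207 k138 10 (.s k51 k155 13 (.s k17 k34 4 (.d k153 k221 k204 9 14)))))), (.s k68
  k119 4 (.s k100 k103 0 (.s k204 k136 9 (.s k48 k152 13 (.s k16 k32 3 (.d k154 k223 k207 10
  14)))))), (.s k68 k119 4 (.s k69 k117 3 (.s k204 k136 9 (.s k207 k138 10 (.s k205 k206 0 (.d k153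
  k51 k49 14 13))))))] (.c k95 (.q k175 [(.s k103 k100 0 (.s k117 k69 3 (.s k119 k68 4 (.s k116 k118
  0 (.d k71 k87 k86 3 4))))), (.s k69 k117 3 (.s k103 k100 0 (.s k207 k138 10 (.s k51 k155 13 (.s
  k17 k34 4 (.d k153 k221 k204 9 14)))))), (.s k68 k119 4 (.s k100 k103 0 (.s k204 k136 9 (.s k48
  k152 13 (.s k16 k32 3 (.d k154 k223 k207 10 14)))))), (.s k68 k119 4 (.s k69 k117 3 (.s k204 k136
  9 (.s k207 k138 10 (.s k205 k206 0 (.d k153 k51 k49 14 13))))))] .n) (.c k175 (.q k95 [(.s k103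
  k100 0 (.s k117 k69 3 (.s k119 k68 4 (.s k116 k118 0 (.d k71 k87 k86 3 4))))), (.s k69 k117 3 (.s
  k103 k100 0 (.s k207 k138 10 (.s k51 k155 13 (.s k17 k34 4 (.d k153 k221 k204 9 14)))))), (.s k68
  k119 4 (.s k100 k103 0 (.s k204 k136 9 (.s k48 k152 13 (.s k16 k32 3 (.d k154 k223 k207 10
  14)))))), (.s k68 k119 4 (.s k69 k117 3 (.s k204 k136 9 (.s k207 k138 10 (.s k205 k206 0 (.d k153
  k51 k49 14 13))))))] (.c k160 (.q k170 [(.s k34 k238 9 (.s k51 k17 4 (.s k68 k119 4 (.d k204 k136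
  k153 9 14)))), (.s k32 k239 10 (.s k48 k16 3 (.s k69 k117 3 (.d k207 k138 k154 10 14))))] .n) (.c
  k170 (.l (.s k160 k80 11 (.s k68 k119 4 (.s k69 k117 3 (.s k71 k70 0 (.s k100 k103 0 (.d k116 k84
  k86 3 4))))))) .n))) .n))) (.c k95 (.q k175 [(.s k103 k100 0 (.s k117 k69 3 (.s k119 k68 4 (.s
  k116 k118 0 (.d k71 k87 k86 3 4))))), (.s k69 k117 3 (.s k103 k100 0 (.s k207 k138 10 (.s k51 k155
  13 (.s k17 k34 4 (.d k153 k221 k204 9 14)))))), (.s k68 k119 4 (.s k100 k103 0 (.s k204 k136 9 (.s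
  k48 k152 13 (.s k16 k32 3 (.d k154 k223 k207 10 14)))))), (.s k68 k119 4 (.s k69 k117 3 (.s k204
  k136 9 (.s k207 k138 10 (.s k205 k206 0 (.d k153 k51 k49 14 13))))))] (.c k90 (.q k240 [(.s k103
  k100 0 (.s k117 k69 3 (.s k119 k68 4 (.s k116 k118 0 (.d k71 k87 k86 3 4))))), (.s k69 k117 3 (.s
  k103 k100 0 (.s k207 k138 10 (.s k51 k155 13 (.s k17 k34 4 (.d k153 k221 k204 9 14)))))), (.s k68
  k119 4 (.s k100 k103 0 (.s k204 k136 9 (.s k48 k152 13 (.s k16 k32 3 (.d k154 k223 k207 10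
  14)))))), (.s k68 k119 4 (.s k69 k117 3 (.s k204 k136 9 (.s k207 k138 10 (.s k205 k206 0 (.d k153
  k51 k49 14 13))))))] .n) (.c k240 (.q k90 [(.s k68 k119 4 (.s k69 k117 3 (.s k71 k70 0 (.s k100
  k103 0 (.d k116 k84 k86 3 4))))), (.s k79 k112 6 (.s k103 k100 0 (.s k115 k91 5 (.s k76 k89 6 (.d
  k78 k77 k114 0 5))))), (.s k68 k119 4 (.s k69 k117 3 (.s k78 k114 5 (.s k79 k112 6 (.s k64 k74 2
  (.d k76 k77 k72 0 1))))))] (.c k48 (.l (.s k68 k119 4 (.s k100 k103 0 (.s k116 k84 3 (.s k71 k86 4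
  (.d k69 k70 k117 0 3)))))) (.c k245 (.q k250 [(.s k68 k119 4 (.s k170 k10 11 (.s k34 k238 9 (.s
  k51 k17 4 (.d k204 k136 k153 9 14))))), (.s k10 k170 11 (.s k69 k117 3 (.s k79 k112 6 (.s k74 k64
  2 (.d k138 k202 k207 7 10))))), (.s k68 k119 4 (.s k69 k117 3 (.s k71 k70 0 (.s k100 k103 0 (.d
  k116 k84 k86 3 4)))))] .n) (.c k250 (.q k245 [(.s k68 k119 4 (.s k69 k117 3 (.s k71 k70 0 (.s k100
  k103 0 (.d k116 k84 k86 3 4))))), (.s k79 k112 6 (.s k103 k100 0 (.s k115 k91 5 (.s k76 k89 6 (.d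
  k78 k77 k114 0 5))))), (.s k68 k119 4 (.s k69 k117 3 (.s k78 k114 5 (.s k79 k112 6 (.s k64 k74 2
  (.d k76 k77 k72 0 1))))))] (.c k48 (.l (.s k68 k119 4 (.s k100 k103 0 (.s k116 k84 3 (.s k71 k86 4
  (.d k69 k70 k117 0 3)))))) .n)) .n)))) .n))) (.c k175 (.q k95 [(.s k68 k119 4 (.s k69 k117 3 (.s
  k71 k70 0 (.s k100 k103 0 (.d k116 k84 k86 3 4))))), (.s k69 k117 3 (.s k90 k80 2 (.s k79 k112 6
  (.s k64 k74 2 (.d k127 k111 k106 3 6))))), (.s k68 k119 4 (.s k100 k103 0 (.s k204 k136 9 (.s k48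
  k152 13 (.s k16 k32 3 (.d k154 k223 k207 10 14))))))] (.c k48 (.l (.s k68 k119 4 (.s k100 k103 0
  (.s k116 k84 3 (.s k71 k86 4 (.d k69 k70 k117 0 3)))))) (.c k90 (.q k240 [(.s k103 k100 0 (.s k117
  k69 3 (.s k119 k68 4 (.s k116 k118 0 (.d k71 k87 k86 3 4))))), (.s k69 k117 3 (.s k103 k100 0 (.s
  k207 k138 10 (.s k51 k155 13 (.s k17 k34 4 (.d k153 k221 k204 9 14)))))), (.s k68 k119 4 (.s k100
  k103 0 (.s k204 k136 9 (.s k48 k152 13 (.s k16 k32 3 (.d k154 k223 k207 10 14)))))), (.s k68 k119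
  4 (.s k69 k117 3 (.s k204 k136 9 (.s k207 k138 10 (.s k205 k206 0 (.d k153 k51 k49 14 13))))))]
  (.c k160 (.q k170 [(.s k34 k238 9 (.s k51 k17 4 (.s k68 k119 4 (.d k204 k136 k153 9 14)))), (.s
  k32 k239 10 (.s k48 k16 3 (.s k69 k117 3 (.d k207 k138 k154 10 14))))] .n) (.c k170 (.l (.s k160
  k80 11 (.s k68 k119 4 (.s k69 k117 3 (.s k71 k70 0 (.s k100 k103 0 (.d k116 k84 k86 3 4)))))))
  .n))) (.c k160 (.q k170 [(.s k34 k238 9 (.s k51 k17 4 (.s k68 k119 4 (.d k204 k136 k153 9 14)))),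
  (.s k32 k239 10 (.s k48 k16 3 (.s k69 k117 3 (.d k207 k138 k154 10 14))))] (.c k90 (.q k240 [(.s
  k34 k238 9 (.s k51 k17 4 (.s k68 k119 4 (.d k204 k136 k153 9 14)))), (.s k32 k239 10 (.s k48 k16 3
  (.s k69 k117 3 (.d k207 k138 k154 10 14))))] .n) (.c k240 (.l (.s k90 k80 2 (.s k32 k239 10 (.s
  k48 k16 3 (.s k69 k117 3 (.d k207 k138 k154 10 14)))))) .n))) (.c k170 (.q k160 [(.d k80 k90 k240
  2 11)] (.c k80 (.l (.s k68 k119 4 (.s k69 k117 3 (.s k71 k70 0 (.s k100 k103 0 (.d k116 k84 k86 3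
  4)))))) (.c k90 (.l (.s k240 k80 11 (.s k68 k119 4 (.s k69 k117 3 (.s k71 k70 0 (.s k100 k103 0
  (.d k116 k84 k86 3 4))))))) (.c k240 (.l (.s k90 k80 2 (.s k69 k117 3 (.s k79 k112 6 (.s k64 k74 2
  (.d k127 k111 k106 3 6)))))) .n)))) (.c k240 (.l (.s k90 k80 2 (.s k69 k117 3 (.s k79 k112 6 (.s
  k64 k74 2 (.d k127 k111 k106 3 6)))))) .n)))))) (.c k240 (.q k90 [(.s k68 k119 4 (.s k69 k117 3
  (.s k71 k70 0 (.s k100 k103 0 (.d k116 k84 k86 3 4))))), (.s k69 k117 3 (.s k79 k112 6 (.s k64 k74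
  2 (.s k95 k80 2 (.d k127 k111 k106 3 6))))), (.s k78 k114 5 (.s k79 k112 6 (.s k76 k77 0 (.s k103
  k100 0 (.d k115 k91 k89 5 6)))))] (.c k48 (.l (.s k68 k119 4 (.s k100 k103 0 (.s k116 k84 3 (.s
  k71 k86 4 (.d k69 k70 k117 0 3)))))) (.c k95 (.q k175 [(.s k68 k119 4 (.s k69 k117 3 (.s k71 k70 0
  (.s k100 k103 0 (.d k116 k84 k86 3 4))))), (.s k79 k112 6 (.s k103 k100 0 (.s k115 k91 5 (.s k76
  k89 6 (.d k78 k77 k114 0 5))))), (.s k68 k119 4 (.s k69 k117 3 (.s k78 k114 5 (.s k79 k112 6 (.s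
  k64 k74 2 (.d k76 k77 k72 0 1))))))] (.c k48 (.l (.s k68 k119 4 (.s k100 k103 0 (.s k116 k84 3 (.s
  k71 k86 4 (.d k69 k70 k117 0 3)))))) (.c k245 (.q k250 [(.s k68 k119 4 (.s k170 k10 11 (.s k34
  k238 9 (.s k51 k17 4 (.d k204 k136 k153 9 14))))), (.s k10 k170 11 (.s k69 k117 3 (.s k79 k112 6
  (.s k74 k64 2 (.d k138 k202 k207 7 10))))), (.s k68 k119 4 (.s k69 k117 3 (.s k71 k70 0 (.s k100
  k103 0 (.d k116 k84 k86 3 4)))))] .n) (.c k250 (.q k245 [(.s k68 k119 4 (.s k69 k117 3 (.s k71 k70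
  0 (.s k100 k103 0 (.d k116 k84 k86 3 4))))), (.s k79 k112 6 (.s k103 k100 0 (.s k115 k91 5 (.s k76
  k89 6 (.d k78 k77 k114 0 5))))), (.s k68 k119 4 (.s k69 k117 3 (.s k78 k114 5 (.s k79 k112 6 (.s
  k64 k74 2 (.d k76 k77 k72 0 1))))))] (.c k48 (.l (.s k68 k119 4 (.s k100 k103 0 (.s k116 k84 3 (.s
  k71 k86 4 (.d k69 k70 k117 0 3)))))) .n)) .n)))) (.c k175 (.l (.s k95 k80 2 (.s k69 k117 3 (.s k79
  k112 6 (.s k64 k74 2 (.d k127 k111 k106 3 6)))))) (.c k245 (.q k250 [(.s k68 k119 4 (.s k170 k10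
  11 (.s k34 k238 9 (.s k51 k17 4 (.d k204 k136 k153 9 14))))), (.s k95 k80 2 (.s k69 k117 3 (.s k79
  k112 6 (.s k64 k74 2 (.d k127 k111 k106 3 6)))))] (.c k95 (.q k175 [(.s k68 k119 4 (.s k170 k10 11
  (.s k34 k238 9 (.s k51 k17 4 (.d k204 k136 k153 9 14))))), (.s k10 k170 11 (.s k69 k117 3 (.s k79
  k112 6 (.s k74 k64 2 (.d k138 k202 k207 7 10))))), (.s k68 k119 4 (.s k69 k117 3 (.s k71 k70 0 (.s
  k100 k103 0 (.d k116 k84 k86 3 4)))))] .n) (.c k175 (.l (.s k95 k80 2 (.s k69 k117 3 (.s k79 k112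
  6 (.s k64 k74 2 (.d k127 k111 k106 3 6)))))) .n))) (.c k250 (.q k245 [(.s k68 k119 4 (.s k69 k117
  3 (.s k71 k70 0 (.s k100 k103 0 (.d k116 k84 k86 3 4))))), (.s k69 k117 3 (.s k79 k112 6 (.s k64
  k74 2 (.s k95 k80 2 (.d k127 k111 k106 3 6))))), (.s k78 k114 5 (.s k79 k112 6 (.s k76 k77 0 (.s
  k103 k100 0 (.d k115 k91 k89 5 6)))))] (.c k48 (.l (.s k68 k119 4 (.s k100 k103 0 (.s k116 k84 3
  (.s k71 k86 4 (.d k69 k70 k117 0 3)))))) (.c k95 (.q k175 [(.s k68 k119 4 (.s k69 k117 3 (.s k71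
  k70 0 (.s k100 k103 0 (.d k116 k84 k86 3 4))))), (.s k79 k112 6 (.s k103 k100 0 (.s k115 k91 5 (.s
  k76 k89 6 (.d k78 k77 k114 0 5))))), (.s k68 k119 4 (.s k69 k117 3 (.s k78 k114 5 (.s k79 k112 6
  (.s k64 k74 2 (.d k76 k77 k72 0 1))))))] (.c k48 (.l (.s k68 k119 4 (.s k100 k103 0 (.s k116 k84 3
  (.s k71 k86 4 (.d k69 k70 k117 0 3)))))) .n)) (.c k175 (.l (.s k95 k80 2 (.s k69 k117 3 (.s k79
  k112 6 (.s k64 k74 2 (.d k127 k111 k106 3 6)))))) .n)))) .n)))))) .n))))) .n))))))))))))))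

/-- roots with certificates -/
def certs : List (Cell TT 256 × Cell TT 256 × T TT 256) :=
  [(k11, k176, t11_176), (k11, k177, t11_177), (k11, k178, t11_178), (k11, k179, t11_179), (k11,
  k180, t11_180), (k11, k181, t11_181), (k11, k182, t11_182), (k11, k183, t11_183), (k11, k184,
  t11_184), (k11, k185, t11_185), (k11, k186, t11_186), (k11, k187, t11_187), (k11, k188, t11_188),
  (k11, k189, t11_189), (k11, k190, t11_190), (k11, k191, t11_191), (k11, k240, t11_240), (k11,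
  k241, t11_241), (k11, k242, t11_242), (k11, k243, t11_243), (k11, k244, t11_244), (k11, k246,
  t11_246), (k11, k247, t11_247), (k11, k248, t11_248), (k11, k249, t11_249), (k11, k250, t11_250),
  (k11, k251, t11_251), (k11, k252, t11_252), (k11, k253, t11_253), (k11, k254, t11_254), (k15, k26,
  t15_26), (k15, k27, t15_27), (k15, k31, t15_31), (k15, k38, t15_38), (k15, k39, t15_39), (k15,
  k42, t15_42), (k15, k43, t15_43), (k15, k47, t15_47), (k15, k54, t15_54), (k15, k55, t15_55),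
  (k15, k58, t15_58), (k15, k59, t15_59), (k15, k90, t15_90), (k15, k98, t15_98), (k15, k99,
  t15_99), (k15, k102, t15_102), (k15, k106, t15_106), (k15, k107, t15_107), (k15, k111, t15_111),
  (k15, k114, t15_114), (k15, k115, t15_115), (k15, k122, t15_122), (k15, k123, t15_123), (k15,
  k127, t15_127), (k15, k161, t15_161), (k15, k162, t15_162), (k15, k163, t15_163), (k15, k165,
  t15_165)]

theorem c11_176 : rootOK k11 k176 t11_176 = true := by decide +kernel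

theorem c11_177 : rootOK k11 k177 t11_177 = true := by decide +kernel

theorem c11_178 : rootOK k11 k178 t11_178 = true := by decide +kernel

theorem c11_179 : rootOK k11 k179 t11_179 = true := by decide +kernel

theorem c11_180 : rootOK k11 k180 t11_180 = true := by decide +kernel

theorem c11_181 : rootOK k11 k181 t11_181 = true := by decide +kernel

theorem c11_182 : rootOK k11 k182 t11_182 = true := by decide +kernel

theorem c11_183 : rootOK k11 k183 t11_183 = true := by decide +kernel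

theorem c11_184 : rootOK k11 k184 t11_184 = true := by decide +kernel

theorem c11_185 : rootOK k11 k185 t11_185 = true := by decide +kernel

theorem c11_186 : rootOK k11 k186 t11_186 = true := by decide +kernel

theorem c11_187 : rootOK k11 k187 t11_187 = true := by decide +kernel

theorem c11_188 : rootOK k11 k188 t11_188 = true := by decide +kernel

theorem c11_189 : rootOK k11 k189 t11_189 = true := by decide +kernel

theorem c11_190 : rootOK k11 k190 t11_190 = true := by decide +kernel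

theorem c11_191 : rootOK k11 k191 t11_191 = true := by decide +kernel

theorem c11_240 : rootOK k11 k240 t11_240 = true := by decide +kernel

theorem c11_241 : rootOK k11 k241 t11_241 = true := by decide +kernel

theorem c11_242 : rootOK k11 k242 t11_242 = true := by decide +kernel

theorem c11_243 : rootOK k11 k243 t11_243 = true := by decide +kernel

theorem c11_244 : rootOK k11 k244 t11_244 = true := by decide +kernel

theorem c11_246 : rootOK k11 k246 t11_246 = true := by decide +kernel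

theorem c11_247 : rootOK k11 k247 t11_247 = true := by decide +kernel

theorem c11_248 : rootOK k11 k248 t11_248 = true := by decide +kernel

theorem c11_249 : rootOK k11 k249 t11_249 = true := by decide +kernel

theorem c11_250 : rootOK k11 k250 t11_250 = true := by decide +kernel

theorem c11_251 : rootOK k11 k251 t11_251 = true := by decide +kernel

theorem c11_252 : rootOK k11 k252 t11_252 = true := by decide +kernel

theorem c11_253 : rootOK k11 k253 t11_253 = true := by decide +kernel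

theorem c11_254 : rootOK k11 k254 t11_254 = true := by decide +kernel

theorem c15_26 : rootOK k15 k26 t15_26 = true := by decide +kernel

theorem c15_27 : rootOK k15 k27 t15_27 = true := by decide +kernel

theorem c15_31 : rootOK k15 k31 t15_31 = true := by decide +kernel

theorem c15_38 : rootOK k15 k38 t15_38 = true := by decide +kernel

theorem c15_39 : rootOK k15 k39 t15_39 = true := by decide +kernel

theorem c15_42 : rootOK k15 k42 t15_42 = true := by decide +kernel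

theorem c15_43 : rootOK k15 k43 t15_43 = true := by decide +kernel

theorem c15_47 : rootOK k15 k47 t15_47 = true := by decide +kernel

theorem c15_54 : rootOK k15 k54 t15_54 = true := by decide +kernel

theorem c15_55 : rootOK k15 k55 t15_55 = true := by decide +kernel

theorem c15_58 : rootOK k15 k58 t15_58 = true := by decide +kernel

theorem c15_59 : rootOK k15 k59 t15_59 = true := by decide +kernel

theorem c15_90 : rootOK k15 k90 t15_90 = true := by decide +kernel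

theorem c15_98 : rootOK k15 k98 t15_98 = true := by decide +kernel

theorem c15_99 : rootOK k15 k99 t15_99 = true := by decide +kernel

theorem c15_102 : rootOK k15 k102 t15_102 = true := by decide +kernel

theorem c15_106 : rootOK k15 k106 t15_106 = true := by decide +kernel

theorem c15_107 : rootOK k15 k107 t15_107 = true := by decide +kernel

theorem c15_111 : rootOK k15 k111 t15_111 = true := by decide +kernel

theorem c15_114 : rootOK k15 k114 t15_114 = true := by decide +kernel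

theorem c15_115 : rootOK k15 k115 t15_115 = true := by decide +kernel

theorem c15_122 : rootOK k15 k122 t15_122 = true := by decide +kernel

theorem c15_123 : rootOK k15 k123 t15_123 = true := by decide +kernel

theorem c15_127 : rootOK k15 k127 t15_127 = true := by decide +kernel

theorem c15_161 : rootOK k15 k161 t15_161 = true := by decide +kernel

theorem c15_162 : rootOK k15 k162 t15_162 = true := by decide +kernel

theorem c15_163 : rootOK k15 k163 t15_163 = true := by decide +kernel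

theorem c15_165 : rootOK k15 k165 t15_165 = true := by decide +kernel

theorem ok : certsOK certs = true :=
  certsOK_cons c11_176 (certsOK_cons c11_177 (certsOK_cons c11_178 (certsOK_cons c11_179 (
  certsOK_cons c11_180 (certsOK_cons c11_181 (certsOK_cons c11_182 (certsOK_cons c11_183 (
  certsOK_cons c11_184 (certsOK_cons c11_185 (certsOK_cons c11_186 (certsOK_cons c11_187 (
  certsOK_cons c11_188 (certsOK_cons c11_189 (certsOK_cons c11_190 (certsOK_cons c11_191 (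
  certsOK_cons c11_240 (certsOK_cons c11_241 (certsOK_cons c11_242 (certsOK_cons c11_243 (
  certsOK_cons c11_244 (certsOK_cons c11_246 (certsOK_cons c11_247 (certsOK_cons c11_248 (
  certsOK_cons c11_249 (certsOK_cons c11_250 (certsOK_cons c11_251 (certsOK_cons c11_252 (
  certsOK_cons c11_253 (certsOK_cons c11_254 (certsOK_cons c15_26 (certsOK_cons c15_27 (
  certsOK_cons c15_31 (certsOK_cons c15_38 (certsOK_cons c15_39 (certsOK_cons c15_42 (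
  certsOK_cons c15_43 (certsOK_cons c15_47 (certsOK_cons c15_54 (certsOK_cons c15_55 (
  certsOK_cons c15_58 (certsOK_cons c15_59 (certsOK_cons c15_90 (certsOK_cons c15_98 (
  certsOK_cons c15_99 (certsOK_cons c15_102 (certsOK_cons c15_106 (certsOK_cons c15_107 (
  certsOK_cons c15_111 (certsOK_cons c15_114 (certsOK_cons c15_115 (certsOK_cons c15_122 (
  certsOK_cons c15_123 (certsOK_cons c15_127 (certsOK_cons c15_161 (certsOK_cons c15_162 (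
  certsOK_cons c15_163 (certsOK_cons c15_165 (certsOK_nil))))))))))))))))))))))))))))))))))))))))
  ))))))))))))))))))

theorem sound (k : Nat) (hk : (bits certs).testBit k = true) : PI k :=
  certs_sound certs ok k hk

end Pool.Agent.TTT.A13
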