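import Pool.Agent.TTT.Sym

set_option autoImplicit false
set_option maxRecDepth 100000

namespace Pool.Agent.TTT.A14

def t15_166 : T TT 256 :=
  (.q k154 [(.s k16 k223 10 (.s k48 k32 3 (.s k101 k207 14 (.s k117 k69 3 (.d k255 k186 k170 10
  14))))), (.s k223 k16 10 (.s k255 k170 14 (.s k207 k239 3 (.s k101 k48 14 (.d k69 k117 k138 3
  10)))))] (.c k16 (.q k1 [(.s k3 k2 0 (.s k169 k253 13 (.s k170 k255 14 (.s k168 k171 0 (.d k252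
  k84 k86 13 14))))), (.s k3 k2 0 (.s k169 k253 13 (.s k139 k184 4 (.s k207 k71 9 (.s k69 k138 10
  (.d k101 k117 k48 3 14)))))), (.s k169 k253 13 (.s k139 k184 4 (.s k170 k255 14 (.s k138 k186 3
  (.s k69 k207 10 (.d k137 k136 k205 0 9)))))), (.s k2 k3 0 (.s k170 k255 14 (.s k138 k186 3 (.s
  k206 k70 9 (.s k50 k102 13 (.s k18 k34 3 (.d k86 k222 k254 9 13)))))))] .n) (.c k32 (.l (.s k223
  k16 10 (.s k255 k170 14 (.s k207 k239 3 (.s k101 k48 14 (.d k69 k117 k138 3 10)))))) (.c k48 (.q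
  k26 [(.s k16 k223 10 (.s k31 k21 2 (.s k90 k218 7 (.s k80 k95 2 (.d k208 k144 k149 7 10))))), (.s
  k90 k218 7 (.s k170 k255 14 (.s k10 k250 11 (.s k58 k42 3 (.s k202 k106 11 (.d k138 k186 k74 3
  7)))))), (.s k16 k223 10 (.s k21 k31 2 (.s k63 k42 6 (.s k255 k170 14 (.s k127 k191 7 (.s k106 k64
  6 (.d k149 k213 k192 7 14)))))))] (.c k95 (.f k218 k90 7 (.l (.s k223 k16 10 (.s k213 k208 2 (.s
  k149 k21 7 (.s k255 k170 14 (.s k192 k234 6 (.s k64 k128 7 (.d k106 k127 k63 6 14))))))))) (.c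
  k255 (.l (.s k16 k223 10 (.s k31 k21 2 (.s k90 k218 7 (.s k208 k149 10 (.d k80 k95 k144 2 7))))))
  .n))) (.c k69 (.q k1 [(.s k3 k2 0 (.s k169 k253 13 (.s k86 k252 14 (.s k87 k84 0 (.d k255 k171
  k170 13 14))))), (.s k16 k223 10 (.s k48 k32 3 (.s k101 k207 14 (.s k169 k253 13 (.s k33 k237 9
  (.s k17 k49 3 (.d k18 k19 k3 0 4))))))), (.s k2 k3 0 (.s k170 k255 14 (.s k138 k186 3 (.s k206 k70
  9 (.s k50 k102 13 (.s k18 k34 3 (.d k86 k222 k254 9 13)))))))] (.c k3 (.l (.s k16 k223 10 (.s k48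
  k32 3 (.s k169 k253 13 (.s k170 k255 14 (.s k184 k139 4 (.s k252 k116 9 (.d k168 k171 k84 0
  13)))))))) (.c k255 (.l (.s k3 k2 0 (.s k16 k223 10 (.s k48 k32 3 (.s k18 k33 4 (.s k86 k222 9 (.d
  k169 k253 k252 13 14))))))) .n))) (.c k101 (.f k170 k255 14 (.f k223 k16 10 (.q k95 [(.s k31 k159
  7 (.s k90 k80 2 (.s k218 k26 7 (.d k208 k213 k149 2 10)))), (.s k80 k90 2 (.s k160 k240 11 (.s
  k165 k175 2 (.s k176 k143 6 (.s k144 k128 3 (.d k159 k149 k31 2 7)))))), (.s k90 k80 2 (.s k10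
  k250 11 (.s k26 k218 7 (.s k58 k42 3 (.s k138 k186 3 (.d k202 k74 k106 7 11)))))), (.s k138 k186 3
  (.s k159 k31 7 (.s k207 k69 10 (.s k63 k111 11 (.s k21 k42 6 (.d k149 k144 k213 2 7))))))] (.c k36
  (.q k231 [(.s k31 k159 7 (.s k90 k80 2 (.s k218 k26 7 (.d k208 k213 k149 2 10)))), (.s k80 k90 2
  (.s k160 k240 11 (.s k165 k175 2 (.s k176 k143 6 (.s k144 k128 3 (.d k159 k149 k31 2 7)))))), (.s
  k90 k80 2 (.s k10 k250 11 (.s k26 k218 7 (.s k58 k42 3 (.s k138 k186 3 (.d k202 k74 k106 7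
  11)))))), (.s k138 k186 3 (.s k159 k31 7 (.s k207 k69 10 (.s k63 k111 11 (.s k21 k42 6 (.d k149
  k144 k213 2 7))))))] (.c k144 (.l (.s k31 k159 7 (.s k90 k80 2 (.s k208 k149 10 (.d k218 k213 k26
  2 7))))) .n)) (.c k144 (.l (.s k31 k159 7 (.s k90 k80 2 (.s k208 k149 10 (.d k218 k213 k26 2
  7))))) (.c k231 (.q k36 [(.s k31 k159 7 (.s k90 k80 2 (.s k218 k26 7 (.d k208 k213 k149 2 10)))),
  (.s k80 k90 2 (.s k160 k240 11 (.s k165 k175 2 (.s k176 k143 6 (.s k144 k128 3 (.d k159 k149 k31 2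
  7)))))), (.s k90 k80 2 (.s k10 k250 11 (.s k26 k218 7 (.s k58 k42 3 (.s k138 k186 3 (.d k202 k74
  k106 7 11)))))), (.s k138 k186 3 (.s k159 k31 7 (.s k207 k69 10 (.s k63 k111 11 (.s k21 k42 6 (.d
  k149 k144 k213 2 7))))))] (.c k144 (.l (.s k31 k159 7 (.s k90 k80 2 (.s k208 k149 10 (.d k218 k213
  k26 2 7))))) .n)) .n)))))) (.c k117 (.l (.s k16 k223 10 (.s k48 k32 3 (.s k170 k255 14 (.s k138
  k186 3 (.d k207 k69 k101 10 14)))))) (.c k170 (.f k16 k223 10 (.q k81 [(.s k89 k93 1 (.s k24 k219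
  8 (.s k28 k20 1 (.d k211 k146 k150 8 10)))), (.s k48 k32 3 (.s k89 k93 1 (.s k101 k207 14 (.s k113
  k77 5 (.d k243 k162 k178 12 8))))), (.s k48 k32 3 (.s k146 k211 8 (.s k97 k195 12 (.s k113 k65 3
  (.d k243 k162 k178 12 8)))))] (.c k162 (.q k174 [(.s k89 k93 1 (.s k24 k219 8 (.s k28 k20 1 (.d
  k211 k146 k150 8 10)))), (.s k48 k32 3 (.s k93 k89 1 (.s k101 k207 14 (.s k117 k69 3 (.d k255 k12
  k186 12 10))))), (.s k48 k32 3 (.s k101 k207 14 (.s k146 k211 8 (.s k97 k195 12 (.s k65 k113 3 (.d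
  k105 k109 k125 1 5))))))] .n) (.c k174 (.l (.s k162 k243 12 (.s k48 k32 3 (.s k146 k211 8 (.s k130
  k178 3 (.d k195 k65 k97 8 12)))))) .n)))) (.c k207 (.f k223 k16 10 (.q k219 [(.s k89 k24 8 (.s k93
  k81 1 (.s k211 k215 1 (.d k28 k158 k150 8 10)))), (.s k89 k24 8 (.s k170 k255 14 (.s k186 k138 3
  (.s k251 k8 12 (.s k56 k121 8 (.d k203 k235 k105 3 12)))))), (.s k215 k211 1 (.s k255 k170 14 (.s
  k195 k235 5 (.s k65 k130 8 (.s k105 k125 5 (.d k150 k20 k60 8 14))))))] (.c k20 (.l (.s k211 k215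
  1 (.s k89 k24 8 (.s k28 k150 10 (.d k93 k81 k158 1 8))))) (.c k79 (.q k143 [(.s k89 k24 8 (.s k93
  k81 1 (.s k211 k215 1 (.d k28 k158 k150 8 10)))), (.s k165 k176 6 (.s k170 k255 14 (.s k138 k186 3
  (.s k128 k133 2 (.s k175 k160 2 (.d k191 k159 k149 3 6))))))] .n) (.c k143 (.q k79 [(.s k89 k24 8
  (.s k93 k81 1 (.s k211 k215 1 (.d k28 k158 k150 8 10)))), (.s k89 k24 8 (.s k170 k255 14 (.s k186
  k138 3 (.s k251 k8 12 (.s k56 k121 8 (.d k203 k235 k105 3 12)))))), (.s k215 k211 1 (.s k255 k170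
  14 (.s k195 k235 5 (.s k65 k130 8 (.s k105 k125 5 (.d k150 k20 k60 8 14))))))] (.c k20 (.l (.s
  k211 k215 1 (.s k89 k24 8 (.s k28 k150 10 (.d k93 k81 k158 1 8))))) .n)) .n))))) (.c k223 (.q k1
  [(.s k3 k2 0 (.s k169 k253 13 (.s k86 k252 14 (.s k87 k84 0 (.d k255 k171 k170 13 14))))), (.s k3
  k2 0 (.s k169 k253 13 (.s k139 k184 4 (.s k207 k71 9 (.s k69 k138 10 (.d k101 k117 k48 3 14)))))),
  (.s k169 k253 13 (.s k139 k184 4 (.s k170 k255 14 (.s k138 k186 3 (.s k137 k136 0 (.d k69 k207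
  k205 10 9)))))), (.s k2 k3 0 (.s k170 k255 14 (.s k138 k186 3 (.s k206 k70 9 (.s k50 k102 13 (.s
  k18 k34 3 (.d k86 k222 k254 9 13)))))))] .n) (.c k239 (.l (.s k16 k223 10 (.s k48 k32 3 (.s k101
  k207 14 (.s k255 k170 14 (.d k117 k69 k186 3 10)))))) (.c k255 (.q k153 [(.s k155 k152 0 (.s k221
  k17 9 (.s k223 k16 10 (.s k220 k222 0 (.d k19 k87 k86 9 10))))), (.s k17 k221 9 (.s k51 k34 4 (.s
  k155 k152 0 (.s k207 k103 13 (.s k69 k138 10 (.d k101 k117 k48 3 14)))))), (.s k16 k223 10 (.s k48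
  k32 3 (.s k152 k155 0 (.s k204 k100 13 (.s k68 k136 9 (.d k102 k119 k51 4 14)))))), (.s k16 k223
  10 (.s k17 k221 9 (.s k48 k32 3 (.s k51 k34 4 (.s k49 k50 0 (.d k101 k207 k205 14 13))))))] (.c
  k95 (.q k175 [(.s k155 k152 0 (.s k221 k17 9 (.s k223 k16 10 (.s k220 k222 0 (.d k19 k87 k86 9
  10))))), (.s k17 k221 9 (.s k51 k34 4 (.s k155 k152 0 (.s k207 k103 13 (.s k69 k138 10 (.d k101
  k117 k48 3 14)))))), (.s k16 k223 10 (.s k48 k32 3 (.s k152 k155 0 (.s k204 k100 13 (.s k68 k136 9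
  (.d k102 k119 k51 4 14)))))), (.s k16 k223 10 (.s k17 k221 9 (.s k48 k32 3 (.s k51 k34 4 (.s k49
  k50 0 (.d k101 k207 k205 14 13))))))] .n) (.c k175 (.q k95 [(.s k17 k221 9 (.s k51 k34 4 (.s k155
  k152 0 (.s k207 k103 13 (.s k69 k138 10 (.d k101 k117 k48 3 14)))))), (.s k90 k80 2 (.s k218 k26 7
  (.s k223 k16 10 (.s k31 k159 7 (.d k208 k213 k149 2 10)))))] (.c k48 (.l (.s k16 k223 10 (.s k17
  k221 9 (.s k19 k18 0 (.s k152 k155 0 (.d k220 k84 k86 9 10)))))) .n)) .n))) .n))))))))))))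

def t15_167 : T TT 256 :=
  (.q k243 [(.s k81 k162 12 (.s k89 k93 1 (.s k12 k166 14 (.s k8 k4 1 (.d k170 k251 k255 12 14))))),
  (.s k81 k162 12 (.s k89 k93 1 (.s k166 k12 14 (.s k247 k4 12 (.d k255 k251 k170 1 14)))))] (.c k4
  (.q k1 [(.s k3 k2 0 (.s k81 k162 12 (.s k161 k241 11 (.s k82 k240 12 (.d k83 k80 k163 0 11))))),
  (.s k3 k2 0 (.s k169 k253 13 (.s k86 k252 14 (.s k87 k84 0 (.d k255 k171 k170 13 14))))), (.s k81
  k162 12 (.s k89 k93 1 (.s k169 k253 13 (.s k9 k249 11 (.s k13 k5 1 (.d k241 k161 k165 11 13))))))]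
  .n) (.c k12 (.f k255 k170 14 (.f k251 k247 1 (.q k87 [(.s k3 k171 13 (.s k1 k2 0 (.s k86 k84 0 (.d
  k169 k253 k252 13 14)))), (.s k81 k162 12 (.s k86 k84 0 (.s k89 k93 1 (.s k83 k92 2 (.s k80 k82 0
  (.d k95 k91 k90 1 2)))))), (.s k3 k171 13 (.s k2 k1 0 (.s k162 k81 12 (.s k82 k242 11 (.s k161
  k240 12 (.d k163 k160 k83 0 11))))))] (.c k2 (.l (.s k3 k171 13 (.s k81 k162 12 (.s k86 k84 0 (.s
  k89 k93 1 (.d k83 k163 k92 11 2)))))) (.c k13 (.q k14 [(.s k3 k171 13 (.s k1 k2 0 (.s k86 k84 0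
  (.d k169 k253 k252 13 14)))), (.s k81 k162 12 (.s k86 k84 0 (.s k89 k93 1 (.s k83 k92 2 (.s k80
  k82 0 (.d k95 k91 k90 1 2)))))), (.s k3 k171 13 (.s k2 k1 0 (.s k162 k81 12 (.s k82 k242 11 (.s
  k161 k240 12 (.d k163 k160 k83 0 11))))))] (.c k2 (.l (.s k3 k171 13 (.s k81 k162 12 (.s k86 k84 0
  (.s k89 k93 1 (.d k83 k163 k92 11 2)))))) .n)) (.c k14 (.q k13 [(.s k3 k171 13 (.s k1 k2 0 (.s k86
  k84 0 (.d k169 k253 k252 13 14)))), (.s k81 k162 12 (.s k84 k86 0 (.s k93 k89 1 (.s k253 k173 11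
  (.d k252 k254 k168 0 13))))), (.s k3 k171 13 (.s k81 k162 12 (.s k89 k93 1 (.s k241 k165 13 (.d k1
  k2 k161 0 11)))))] (.c k2 (.l (.s k3 k171 13 (.s k81 k162 12 (.s k86 k84 0 (.s k89 k93 1 (.d k83
  k163 k92 11 2)))))) (.c k168 (.l (.s k86 k84 0 (.s k3 k171 13 (.s k169 k252 14 (.d k1 k2 k253 0
  13))))) .n))) .n)))))) (.c k81 (.q k3 [(.s k1 k2 0 (.s k169 k253 13 (.s k86 k252 14 (.s k87 k84 0
  (.d k255 k171 k170 13 14))))), (.s k1 k2 0 (.s k163 k83 11 (.s k169 k253 13 (.s k166 k172 2 (.s k4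
  k247 12 (.d k12 k8 k89 1 14)))))), (.s k83 k163 11 (.s k255 k170 14 (.s k247 k251 1 (.s k166 k4 12
  (.s k89 k12 14 (.s k86 k92 2 (.d k87 k171 k84 13 0)))))))] (.c k87 (.l (.s k1 k2 0 (.s k169 k253
  13 (.s k170 k255 14 (.s k168 k171 0 (.d k252 k84 k86 13 14)))))) .n)) (.c k89 (.q k1 [(.s k3 k2 0
  (.s k169 k253 13 (.s k86 k252 14 (.s k87 k84 0 (.d k255 k171 k170 13 14))))), (.s k3 k2 0 (.s k81
  k162 12 (.s k161 k241 11 (.s k82 k240 12 (.d k83 k80 k163 0 11))))), (.s k81 k162 12 (.s k241 k161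
  11 (.s k253 k169 13 (.s k249 k245 1 (.s k252 k246 2 (.d k255 k254 k170 0 14))))))] .n) (.c k93 (.l
  (.s k162 k81 12 (.s k170 k255 14 (.s k166 k174 1 (.s k12 k89 14 (.d k4 k8 k247 1 12)))))) (.c k162
  (.q k3 [(.s k2 k1 0 (.s k170 k255 14 (.s k86 k254 13 (.s k252 k169 14 (.d k84 k87 k168 0 13))))),
  (.s k1 k2 0 (.s k163 k83 11 (.s k169 k253 13 (.s k166 k172 2 (.s k4 k247 12 (.d k12 k8 k89 1
  14)))))), (.s k83 k163 11 (.s k255 k170 14 (.s k247 k251 1 (.s k166 k4 12 (.s k89 k12 14 (.s k86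
  k92 2 (.d k87 k171 k84 13 0)))))))] (.c k87 (.l (.s k1 k2 0 (.s k169 k253 13 (.s k170 k255 14 (.s
  k168 k171 0 (.d k252 k84 k86 13 14)))))) .n)) (.c k166 (.f k255 k170 14 (.f k162 k81 12 (.q k240
  [(.s k242 k241 0 (.s k82 k2 11 (.s k160 k80 11 (.d k161 k163 k3 0 12)))), (.s k241 k242 0 (.s k245
  k250 2 (.s k247 k251 1 (.s k246 k244 0 (.d k249 k253 k252 1 2))))), (.s k160 k80 11 (.s k161 k163
  0 (.s k245 k250 2 (.s k165 k5 11 (.s k169 k173 1 (.s k1 k253 13 (.d k3 k82 k2 12 0)))))))] (.c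
  k164 (.q k165 [(.d k245 k250 k5 2 11), (.s k160 k80 11 (.s k161 k163 0 (.s k82 k3 12 (.d k242 k241
  k2 0 11))))] .n) (.c k165 (.q k164 [(.s k242 k241 0 (.s k82 k2 11 (.s k160 k80 11 (.d k161 k163 k3
  0 12)))), (.s k12 k88 13 (.s k4 k8 1 (.s k84 k244 11 (.s k168 k252 13 (.d k160 k172 k80 1 11))))),
  (.s k160 k80 11 (.s k161 k163 0 (.s k82 k3 12 (.d k242 k241 k2 0 11))))] (.c k80 (.l (.s k12 k88
  13 (.s k245 k250 2 (.s k247 k251 1 (.s k244 k246 0 (.d k4 k8 k84 1 11)))))) (.c k160 (.q k175 [(.s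
  k241 k242 0 (.s k245 k250 2 (.s k249 k253 1 (.s k246 k252 2 (.d k247 k244 k251 0 1))))), (.s k12
  k88 13 (.s k174 k93 12 (.s k172 k173 0 (.s k252 k92 11 (.s k84 k168 13 (.d k4 k8 k244 1 11)))))),
  (.s k12 k88 13 (.s k4 k8 1 (.s k244 k84 11 (.s k245 k250 2 (.d k247 k251 k246 1 0)))))] (.c k244
  (.l (.s k242 k241 0 (.s k250 k245 2 (.s k246 k254 1 (.s k249 k252 2 (.d k251 k247 k248 1 0))))))
  .n)) (.c k175 (.l (.s k160 k80 11 (.s k242 k241 0 (.s k82 k2 11 (.d k161 k163 k3 0 12))))) .n))))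
  .n))))) (.c k170 (.q k1 [(.s k81 k162 12 (.s k89 k93 1 (.s k169 k253 13 (.s k9 k249 11 (.s k13 k5
  1 (.d k241 k161 k165 11 13)))))), (.s k3 k2 0 (.s k163 k83 11 (.s k169 k253 13 (.s k166 k172 2 (.s
  k4 k247 12 (.d k12 k8 k89 1 14)))))), (.s k3 k2 0 (.s k81 k162 12 (.s k83 k163 11 (.s k82 k80 0
  (.d k161 k241 k240 11 12)))))] (.c k166 (.l (.s k3 k2 0 (.s k83 k163 11 (.s k169 k253 13 (.s k86
  k252 14 (.s k89 k92 2 (.d k81 k93 k162 1 12))))))) .n)) (.c k174 (.l (.s k81 k162 12 (.s k89 k93 1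
  (.s k12 k166 14 (.s k170 k255 14 (.d k8 k4 k251 1 12)))))) (.c k251 (.l (.s k162 k81 12 (.s k170
  k255 14 (.s k166 k174 1 (.s k4 k247 12 (.d k12 k8 k89 1 14)))))) (.c k255 (.q k3 [(.s k2 k1 0 (.s
  k163 k83 11 (.s k162 k81 12 (.s k161 k160 0 (.d k82 k242 k240 11 12))))), (.s k1 k2 0 (.s k163 k83
  11 (.s k169 k253 13 (.s k166 k172 2 (.s k4 k247 12 (.d k12 k8 k89 1 14)))))), (.s k81 k162 12 (.s
  k83 k163 11 (.s k89 k93 1 (.s k86 k92 2 (.s k84 k87 0 (.d k252 k168 k169 13 14)))))), (.s k1 k2 0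
  (.s k81 k162 12 (.s k89 k93 1 (.s k12 k166 14 (.s k9 k6 2 (.d k169 k249 k253 11 13))))))] (.c k95
  (.q k175 [(.s k1 k2 0 (.s k81 k162 12 (.s k83 k163 11 (.s k82 k80 0 (.d k161 k241 k240 11 12))))),
  (.s k1 k2 0 (.s k163 k83 11 (.s k169 k253 13 (.s k166 k172 2 (.s k4 k247 12 (.d k12 k8 k89 1
  14)))))), (.s k81 k162 12 (.s k83 k163 11 (.s k89 k93 1 (.s k12 k166 14 (.s k9 k6 2 (.s k169 k249
  11 (.d k86 k92 k252 2 14))))))), (.s k1 k2 0 (.s k81 k162 12 (.s k89 k93 1 (.s k12 k166 14 (.s k9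
  k6 2 (.d k169 k249 k253 11 13))))))] .n) (.c k175 (.q k95 [(.s k80 k90 2 (.s k81 k162 12 (.d k83
  k163 k82 11 0))), (.s k1 k2 0 (.s k163 k83 11 (.s k169 k253 13 (.s k166 k172 2 (.s k4 k247 12 (.d
  k12 k8 k89 1 14))))))] (.c k83 (.l (.s k1 k2 0 (.s k80 k90 2 (.s k81 k162 12 (.s k161 k241 11 (.d
  k240 k82 k160 12 11)))))) (.c k163 (.q k171 [(.s k80 k90 2 (.s k81 k162 12 (.s k82 k83 0 (.d k240
  k160 k161 11 12)))), (.s k1 k2 0 (.s k169 k253 13 (.s k252 k86 14 (.d k168 k170 k84 0 13))))] .n)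
  (.c k171 (.l (.s k163 k83 11 (.s k80 k90 2 (.s k162 k81 12 (.d k160 k240 k161 11 0))))) .n))))
  .n))) .n))))))))))))

def t15_171 : T TT 256 :=
  (.q k89 [(.s k81 k93 1 (.s k243 k162 12 (.s k12 k166 14 (.s k8 k4 1 (.d k170 k251 k255 12 14)))))]
  (.c k4 (.q k1 [(.s k81 k93 1 (.s k169 k253 13 (.s k9 k249 11 (.s k241 k161 11 (.d k13 k5 k165 1
  13))))), (.s k3 k2 0 (.s k81 k93 1 (.s k161 k241 11 (.s k162 k243 12 (.s k160 k163 0 (.d k240 k80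
  k82 11 12)))))), (.s k3 k2 0 (.s k169 k253 13 (.s k9 k249 11 (.s k12 k6 2 (.s k86 k252 14 (.s k83
  k92 2 (.d k243 k163 k166 11 14)))))))] (.c k241 (.l (.s k3 k2 0 (.s k81 k93 1 (.s k169 k253 13 (.s
  k86 k252 14 (.s k83 k92 2 (.d k243 k163 k162 11 12))))))) .n)) (.c k8 (.l (.s k81 k93 1 (.s k243
  k162 12 (.s k166 k12 14 (.s k247 k4 12 (.d k255 k251 k170 1 14)))))) (.c k12 (.f k255 k170 14 (.f
  k81 k93 1 (.q k169 [(.s k1 k253 13 (.s k9 k249 11 (.s k13 k5 1 (.d k241 k161 k165 11 13)))), (.s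
  k243 k162 12 (.s k249 k9 11 (.s k252 k246 2 (.s k84 k168 13 (.d k86 k3 k87 14 0))))), (.s k253 k1
  13 (.s k252 k254 0 (.s k84 k168 13 (.d k86 k87 k3 0 14))))] (.c k13 (.q k14 [(.s k9 k249 11 (.s
  k253 k1 13 (.s k252 k254 0 (.s k84 k168 13 (.d k86 k87 k3 0 14))))), (.s k243 k162 12 (.s k247
  k251 1 (.s k166 k4 12 (.s k90 k242 13 (.s k80 k95 2 (.s k163 k172 2 (.d k83 k82 k3 0 11)))))))]
  (.c k2 (.l (.s k243 k162 12 (.s k249 k9 11 (.s k252 k246 2 (.d k253 k1 k254 13 0))))) (.c k3 (.l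
  (.s k243 k162 12 (.s k253 k1 13 (.s k252 k254 0 (.d k249 k9 k246 11 2))))) (.c k173 (.l (.s k253
  k1 13 (.s k243 k162 12 (.s k252 k254 0 (.d k249 k9 k246 11 2))))) (.c k252 (.l (.s k243 k162 12
  (.s k249 k9 11 (.s k251 k247 1 (.s k250 k248 0 (.s k240 k245 2 (.s k241 k242 0 (.d k1 k161 k253 11
  13)))))))) (.c k253 (.q k173 [(.s k243 k162 12 (.s k249 k9 11 (.s k252 k246 2 (.s k84 k168 13 (.d
  k86 k3 k87 14 0))))), (.s k161 k165 1 (.s k162 k243 12 (.s k160 k163 0 (.s k80 k240 11 (.s k90 k95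
  2 (.s k242 k166 13 (.d k82 k83 k2 0 11))))))), (.s k161 k165 1 (.s k1 k241 11 (.s k3 k2 0 (.s k86
  k252 14 (.s k82 k240 12 (.s k90 k94 1 (.d k80 k95 k83 2 0)))))))] (.c k3 (.l (.s k161 k165 1 (.s
  k241 k1 11 (.s k243 k162 12 (.s k247 k251 1 (.s k166 k4 12 (.d k242 k240 k90 0 13))))))) (.c k243
  (.f k161 k165 1 (.l (.s k1 k241 11 (.s k3 k2 0 (.s k86 k252 14 (.s k84 k87 0 (.s k92 k83 2 (.s k80
  k88 1 (.d k240 k160 k82 11 12))))))))) .n))) .n)))))) (.c k14 (.q k13 [(.s k1 k253 13 (.d k9 k5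
  k249 1 11)), (.s k1 k253 13 (.d k241 k161 k165 11 13))] (.c k1 (.l (.s k241 k165 13 (.s k243 k162
  12 (.s k240 k242 0 (.s k245 k250 2 (.d k249 k253 k9 1 11)))))) (.c k253 (.l (.s k9 k249 11 (.s k1
  k5 1 (.d k241 k161 k165 11 13)))) .n))) .n))))) (.c k81 (.q k16 [(.s k48 k32 3 (.s k154 k223 10
  (.s k101 k207 14 (.s k117 k69 3 (.d k255 k186 k170 10 14))))), (.s k48 k32 3 (.s k154 k223 10 (.s
  k24 k219 8 (.s k12 k36 5 (.s k4 k8 1 (.d k166 k247 k243 12 14)))))), (.s k154 k223 10 (.s k24 k219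
  8 (.s k20 k28 1 (.s k40 k60 5 (.s k170 k255 14 (.d k8 k56 k251 3 12)))))), (.s k48 k32 3 (.s k170
  k255 14 (.s k8 k251 12 (.s k12 k4 1 (.s k24 k36 5 (.s k20 k28 1 (.d k40 k56 k60 3 5)))))))] .n)
  (.c k93 (.q k16 [(.s k48 k32 3 (.s k255 k170 14 (.s k117 k186 10 (.s k101 k69 3 (.d k154 k223 k207
  10 14))))), (.s k48 k32 3 (.s k154 k223 10 (.s k24 k219 8 (.s k12 k36 5 (.s k4 k8 1 (.d k166 k247
  k243 12 14)))))), (.s k154 k223 10 (.s k24 k219 8 (.s k170 k255 14 (.s k8 k251 12 (.s k40 k56 3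
  (.d k20 k28 k60 1 5)))))), (.s k48 k32 3 (.s k170 k255 14 (.s k8 k251 12 (.s k12 k4 1 (.s k24 k36
  5 (.s k40 k56 3 (.d k20 k28 k60 1 5)))))))] .n) (.c k162 (.l (.s k93 k81 1 (.s k255 k170 14 (.s
  k12 k174 12 (.s k166 k243 14 (.d k4 k8 k247 1 12)))))) (.c k166 (.q k1 [(.s k81 k93 1 (.s k169
  k253 13 (.s k9 k249 11 (.s k13 k5 1 (.d k241 k161 k165 11 13))))), (.s k3 k2 0 (.s k81 k93 1 (.s
  k161 k241 11 (.s k82 k240 12 (.s k83 k80 0 (.d k243 k163 k162 11 12)))))), (.s k3 k2 0 (.s k169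
  k253 13 (.s k9 k249 11 (.s k12 k6 2 (.s k8 k4 1 (.d k170 k251 k255 12 14))))))] (.c k241 (.l (.s
  k3 k2 0 (.s k81 k93 1 (.s k169 k253 13 (.s k86 k252 14 (.s k83 k92 2 (.d k243 k163 k162 11
  12))))))) .n)) (.c k170 (.q k169 [(.s k1 k253 13 (.s k9 k249 11 (.s k13 k5 1 (.s k81 k93 1 (.d
  k241 k161 k165 11 13))))), (.s k81 k93 1 (.s k243 k162 12 (.s k249 k9 11 (.s k252 k246 2 (.s k84
  k168 13 (.d k86 k87 k3 0 14)))))), (.s k1 k253 13 (.s k3 k2 0 (.s k81 k93 1 (.s k86 k252 14 (.s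
  k83 k92 2 (.d k243 k163 k162 11 12)))))), (.s k1 k253 13 (.s k3 k2 0 (.s k9 k249 11 (.s k12 k6 2
  (.s k4 k8 1 (.d k166 k247 k243 12 14))))))] .n) (.c k174 (.l (.s k81 k93 1 (.s k243 k162 12 (.s
  k12 k166 14 (.s k170 k255 14 (.d k8 k4 k251 1 12)))))) (.c k243 (.f k93 k81 1 (.q k3 [(.s k1 k2 0
  (.s k169 k253 13 (.s k255 k170 14 (.s k12 k174 12 (.d k9 k6 k249 2 11))))), (.s k1 k2 0 (.s k253
  k169 13 (.s k13 k173 11 (.s k5 k9 1 (.d k165 k245 k241 11 13))))), (.s k2 k1 0 (.s k170 k255 14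
  (.s k86 k254 13 (.s k84 k87 0 (.s k92 k83 2 (.s k80 k88 1 (.d k95 k94 k90 0 2)))))))] (.c k1 (.f
  k255 k170 14 (.l (.s k12 k174 12 (.s k4 k8 1 (.s k6 k9 2 (.s k166 k247 12 (.s k86 k246 11 (.s k84
  k87 0 (.d k252 k168 k169 13 14))))))))) (.c k2 (.l (.s k255 k170 14 (.s k12 k174 12 (.s k9 k6 2
  (.s k169 k249 11 (.s k253 k1 13 (.d k252 k254 k86 0 14))))))) (.c k91 (.q k167 [(.s k1 k2 0 (.s
  k169 k253 13 (.s k255 k170 14 (.s k12 k174 12 (.d k9 k6 k249 2 11))))), (.s k1 k2 0 (.s k253 k169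
  13 (.s k13 k173 11 (.s k5 k9 1 (.d k165 k245 k241 11 13))))), (.s k255 k170 14 (.s k12 k174 12 (.s
  k4 k8 1 (.s k6 k9 2 (.s k5 k7 0 (.s k165 k245 11 (.d k166 k164 k247 0 12))))))), (.s k2 k1 0 (.s
  k170 k255 14 (.s k86 k254 13 (.s k84 k87 0 (.s k92 k83 2 (.s k95 k94 0 (.d k80 k88 k90 1 2)))))))]
  (.c k11 (.q k251 [(.d k170 k8 k255 12 14)] (.c k8 (.l (.s k1 k2 0 (.s k169 k253 13 (.s k9 k249 11
  (.s k12 k6 2 (.d k255 k174 k170 12 14)))))) (.c k170 (.f k1 k2 0 (.l (.s k169 k253 13 (.s k9 k249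
  11 (.s k5 k13 1 (.s k12 k6 2 (.s k4 k8 1 (.s k166 k247 12 (.d k165 k245 k164 11 0))))))))) (.c
  k255 (.l (.s k1 k2 0 (.s k8 k170 12 (.s k12 k4 1 (.s k9 k6 2 (.d k169 k249 k253 11 13)))))) .n))))
  (.c k170 (.f k1 k2 0 (.l (.s k169 k253 13 (.s k9 k249 11 (.s k5 k13 1 (.s k12 k6 2 (.s k4 k8 1 (.s
  k166 k247 12 (.d k165 k245 k164 11 0))))))))) (.c k251 (.q k11 [(.s k255 k170 14 (.s k12 k174 12
  (.s k8 k4 1 (.d k9 k10 k6 0 2)))), (.s k1 k2 0 (.s k169 k253 13 (.s k86 k252 14 (.s k90 k248 12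
  (.s k92 k83 2 (.d k94 k95 k82 0 1))))))] (.c k169 (.f k255 k170 14 (.q k168 [(.s k12 k174 12 (.s
  k8 k4 1 (.d k9 k10 k6 0 2))), (.s k252 k84 13 (.s k253 k254 0 (.s k13 k173 11 (.s k165 k241 13 (.s
  k5 k245 11 (.d k1 k2 k9 0 1))))))] (.c k9 (.l (.s k12 k174 12 (.s k4 k8 1 (.s k84 k252 13 (.s k87
  k86 0 (.d k247 k166 k7 12 11)))))) .n))) (.c k247 (.l (.s k255 k170 14 (.s k12 k174 12 (.s k8 k4 1
  (.d k9 k10 k6 0 2))))) (.c k255 (.q k247 [(.s k1 k2 0 (.s k87 k7 11 (.s k86 k84 0 (.d k169 k253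
  k252 13 14)))), (.s k4 k166 12 (.s k7 k87 11 (.s k6 k5 0 (.d k12 k8 k9 1 2)))), (.s k1 k2 0 (.s k4
  k166 12 (.s k8 k12 1 (.s k9 k10 0 (.d k169 k249 k253 11 13)))))] (.c k95 (.q k175 [(.s k1 k2 0 (.s
  k87 k7 11 (.s k86 k84 0 (.d k169 k253 k252 13 14)))), (.s k4 k166 12 (.s k12 k8 1 (.s k6 k9 2 (.d
  k7 k87 k5 11 0))))] (.c k7 (.l (.s k1 k2 0 (.s k4 k166 12 (.s k8 k12 1 (.s k9 k10 0 (.d k169 k249
  k253 11 13)))))) (.c k83 (.l (.s k87 k7 11 (.s k1 k2 0 (.s k86 k84 0 (.d k169 k253 k252 13 14)))))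
  (.c k87 (.q k83 [(.s k1 k2 0 (.s k86 k92 2 (.d k169 k253 k252 13 14))), (.s k1 k2 0 (.s k166 k4 12
  (.s k165 k164 0 (.s k5 k245 11 (.d k13 k9 k241 1 13))))), (.s k4 k166 12 (.s k8 k12 1 (.s k9 k10 0
  (.s k86 k92 2 (.d k169 k252 k249 14 11)))))] .n) .n)))) (.c k175 (.q k95 [(.s k87 k7 11 (.s k86
  k84 0 (.d k92 k94 k83 0 2))), (.s k1 k2 0 (.s k169 k253 13 (.d k90 k80 k248 2 12)))] .n) .n)))
  .n)))) .n)))) (.c k167 (.q k91 [(.s k90 k88 0 (.s k95 k80 2 (.s k83 k87 1 (.d k92 k94 k86 0 2)))),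
  (.s k1 k2 0 (.s k169 k253 13 (.s k9 k249 11 (.s k12 k6 2 (.d k255 k174 k170 12 14)))))] (.c k163
  (.q k175 [(.s k90 k88 0 (.s k80 k95 2 (.s k170 k255 14 (.d k160 k165 k240 2 11)))), (.s k1 k2 0
  (.s k169 k253 13 (.s k9 k249 11 (.s k12 k6 2 (.d k255 k174 k170 12 14))))), (.s k90 k88 0 (.s k95
  k80 2 (.s k83 k87 1 (.d k92 k94 k86 0 2))))] .n) (.c k175 (.q k163 [(.s k90 k88 0 (.s k95 k80 2
  (.s k83 k87 1 (.d k92 k94 k86 0 2)))), (.s k1 k2 0 (.s k169 k253 13 (.s k9 k249 11 (.s k12 k6 2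
  (.d k255 k174 k170 12 14)))))] (.c k95 (.l (.s k255 k170 14 (.s k1 k2 0 (.s k12 k174 12 (.s k9 k6
  2 (.d k169 k249 k253 11 13)))))) (.c k255 (.q k95 [(.d k90 k88 k80 0 2), (.s k83 k87 1 (.d k92 k94
  k86 0 2))] (.c k247 (.q k251 [(.d k90 k88 k80 0 2), (.s k92 k94 0 (.d k83 k87 k86 1 2))] (.c k7
  (.l (.s k87 k83 1 (.d k90 k80 k88 2 0))) (.c k87 (.q k7 [(.d k90 k88 k80 0 2), (.s k1 k2 0 (.s k92
  k94 0 (.s k169 k253 13 (.d k86 k252 k83 14 2))))] .n) .n))) (.c k251 (.q k247 [(.d k90 k88 k80 0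
  2), (.s k83 k87 1 (.d k92 k94 k86 0 2))] .n) .n))) .n))) .n))) (.c k170 (.l (.s k1 k2 0 (.s k169
  k253 13 (.s k86 k252 14 (.s k84 k87 0 (.s k92 k83 2 (.s k80 k88 1 (.d k95 k94 k90 0 2)))))))) (.c
  k253 (.l (.s k2 k1 0 (.s k170 k255 14 (.s k86 k254 13 (.s k252 k169 14 (.d k84 k87 k168 0 13))))))
  .n)))))))) (.c k251 (.l (.s k93 k81 1 (.s k255 k170 14 (.s k12 k174 12 (.s k4 k8 1 (.d k166 k247
  k243 12 14)))))) (.c k255 (.q k3 [(.s k1 k2 0 (.s k93 k81 1 (.s k253 k169 13 (.s k13 k173 11 (.s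
  k5 k9 1 (.d k165 k245 k241 11 13)))))), (.s k1 k2 0 (.s k81 k93 1 (.s k161 k241 11 (.s k162 k243
  12 (.s k160 k163 0 (.d k240 k80 k82 11 12)))))), (.s k81 k93 1 (.s k243 k162 12 (.s k83 k163 11
  (.s k86 k92 2 (.s k84 k87 0 (.d k252 k168 k169 13 14)))))), (.s k1 k2 0 (.s k169 k253 13 (.s k9
  k249 11 (.s k12 k6 2 (.s k4 k8 1 (.d k166 k247 k243 12 14))))))] (.c k95 (.q k175 [(.s k1 k2 0 (.s
  k93 k81 1 (.s k253 k169 13 (.s k13 k173 11 (.s k5 k9 1 (.d k165 k245 k241 11 13)))))), (.s k1 k2 0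
  (.s k81 k93 1 (.s k161 k241 11 (.s k162 k243 12 (.s k160 k163 0 (.d k240 k80 k82 11 12)))))), (.s
  k1 k2 0 (.s k169 k253 13 (.s k9 k249 11 (.s k12 k6 2 (.s k4 k8 1 (.d k166 k247 k243 12 14)))))),
  (.s k81 k93 1 (.s k243 k162 12 (.s k12 k166 14 (.s k9 k6 2 (.s k83 k163 11 (.s k169 k249 11 (.d
  k86 k92 k252 2 14)))))))] .n) (.c k175 (.q k95 [(.s k80 k90 2 (.s k81 k93 1 (.s k82 k83 0 (.d k240
  k160 k161 11 12)))), (.s k1 k2 0 (.s k93 k81 1 (.s k92 k94 0 (.s k169 k253 13 (.d k86 k252 k83 14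
  2))))), (.s k1 k2 0 (.s k90 k80 2 (.s k91 k88 0 (.s k83 k87 1 (.s k169 k253 13 (.d k86 k92 k252 2
  14))))))] (.c k83 (.l (.s k1 k2 0 (.s k80 k90 2 (.s k81 k93 1 (.s k161 k241 11 (.d k240 k160 k82
  11 12)))))) (.c k163 (.q k167 [(.s k80 k90 2 (.s k81 k93 1 (.s k82 k83 0 (.d k240 k160 k161 11
  12)))), (.s k1 k2 0 (.s k93 k81 1 (.s k92 k94 0 (.s k169 k253 13 (.d k86 k252 k83 14 2))))), (.s
  k1 k2 0 (.s k90 k80 2 (.s k91 k88 0 (.s k83 k87 1 (.s k169 k253 13 (.d k86 k92 k252 2 14))))))]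
  (.c k83 (.l (.s k1 k2 0 (.s k80 k90 2 (.s k81 k93 1 (.s k161 k241 11 (.d k240 k160 k82 11 12))))))
  .n)) (.c k167 (.q k163 [(.s k243 k83 11 (.d k81 k93 k162 1 12)), (.s k83 k243 11 (.s k91 k87 1 (.d
  k90 k88 k80 0 2)))] (.c k83 (.l (.s k1 k2 0 (.s k81 k93 1 (.s k161 k241 11 (.d k162 k160 k243 0
  12))))) (.c k91 (.l (.s k243 k83 11 (.d k81 k93 k162 1 12))) (.c k243 (.q k91 [(.d k90 k88 k80 0
  2), (.s k83 k87 1 (.s k92 k86 2 (.d k93 k94 k81 0 1)))] (.c k247 (.q k251 [(.d k90 k88 k80 0 2),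
  (.s k93 k81 1 (.s k92 k94 0 (.d k83 k87 k86 1 2)))] (.c k7 (.l (.s k87 k83 1 (.d k90 k88 k80 0
  2))) (.c k87 (.q k7 [(.d k90 k88 k80 0 2), (.s k1 k2 0 (.s k8 k170 12 (.s k12 k4 1 (.s k9 k6 2 (.d
  k169 k249 k253 11 13)))))] .n) .n))) (.c k251 (.q k247 [(.d k90 k88 k80 0 2), (.s k1 k2 0 (.s k166
  k4 12 (.d k169 k172 k253 2 13)))] .n) .n))) .n)))) .n)))) .n))) .n)))))))))))))

def t15_175 : T TT 256 :=
  (.q k16 [(.s k48 k32 3 (.s k154 k223 10 (.s k207 k101 14 (.s k138 k69 10 (.d k170 k255 k186 14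
  3)))))] (.c k32 (.q k87 [(.s k86 k84 0 (.s k223 k154 10 (.s k19 k155 9 (.s k17 k18 0 (.d k153 k221
  k220 9 10))))), (.s k86 k84 0 (.s k255 k170 14 (.s k3 k171 13 (.s k1 k2 0 (.d k169 k253 k252 13
  14))))), (.s k223 k154 10 (.s k19 k155 9 (.s k255 k170 14 (.s k3 k171 13 (.s k51 k35 3 (.d k17 k34
  k18 4 0))))))] (.c k95 (.l (.s k255 k170 14 (.s k3 k171 13 (.s k1 k2 0 (.s k86 k84 0 (.d k169 k253
  k252 13 14)))))) (.c k255 (.q k95 [(.s k86 k84 0 (.s k223 k154 10 (.s k19 k155 9 (.s k17 k18 0 (.d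
  k153 k221 k220 9 10))))), (.s k80 k90 2 (.s k83 k91 1 (.s k81 k82 0 (.s k86 k84 0 (.d k89 k93 k92
  1 2))))), (.s k90 k80 2 (.s k223 k154 10 (.s k31 k159 7 (.s k21 k26 2 (.d k149 k213 k208 7
  10)))))] .n) .n))) (.c k48 (.q k26 [(.s k31 k21 2 (.s k154 k223 10 (.s k90 k218 7 (.s k208 k149 10
  (.d k80 k95 k144 2 7))))), (.s k255 k170 14 (.s k21 k31 2 (.s k63 k42 6 (.s k127 k191 7 (.s k106
  k64 6 (.d k149 k213 k192 7 14))))))] (.c k21 (.f k154 k223 10 (.l (.s k90 k218 7 (.s k95 k80 2 (.s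
  k170 k255 14 (.s k10 k250 11 (.s k58 k42 3 (.s k202 k106 11 (.d k138 k186 k74 3 7))))))))) (.c k31
  (.f k154 k223 10 (.l (.s k90 k218 7 (.s k95 k80 2 (.s k170 k255 14 (.s k10 k250 11 (.s k58 k42 3
  (.s k202 k106 11 (.d k138 k186 k74 3 7))))))))) (.c k95 (.l (.s k255 k170 14 (.s k21 k31 2 (.s k63
  k42 6 (.s k127 k191 7 (.s k106 k64 6 (.d k149 k213 k192 7 14))))))) (.c k149 (.l (.s k21 k31 2 (.s
  k154 k223 10 (.s k90 k218 7 (.s k95 k80 2 (.s k170 k255 14 (.s k10 k250 11 (.d k42 k63 k58 6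
  3)))))))) (.c k213 (.l (.s k31 k21 2 (.s k154 k223 10 (.s k90 k218 7 (.s k208 k149 10 (.d k80 k95
  k144 2 7)))))) (.c k255 (.q k95 [(.s k31 k21 2 (.d k223 k159 k154 7 10)), (.s k90 k80 2 (.d k154
  k218 k223 7 10)), (.s k21 k31 2 (.s k63 k42 6 (.s k80 k90 2 (.s k149 k213 7 (.s k192 k106 14 (.s
  k208 k144 7 (.d k240 k224 k160 3 11)))))))] (.c k117 (.q k186 [(.s k31 k21 2 (.d k223 k159 k154 7
  10)), (.s k90 k80 2 (.d k154 k218 k223 7 10)), (.s k21 k31 2 (.s k63 k42 6 (.s k80 k90 2 (.s k149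
  k213 7 (.s k192 k106 14 (.s k208 k144 7 (.d k240 k224 k160 3 11)))))))] .n) (.c k186 (.q k117 [(.s
  k31 k21 2 (.d k223 k159 k154 7 10)), (.s k90 k80 2 (.d k154 k218 k223 7 10)), (.s k21 k31 2 (.s
  k101 k69 3 (.s k149 k213 7 (.s k53 k197 11 (.s k5 k37 3 (.d k245 k181 k165 7 11))))))] .n) .n)))
  .n))))))) (.c k69 (.q k80 [(.s k208 k144 7 (.s k223 k154 10 (.s k213 k218 2 (.s k149 k21 7 (.d k90
  k95 k31 2 10))))), (.s k48 k32 3 (.s k144 k208 7 (.s k96 k192 11 (.s k112 k64 3 (.d k240 k176 k160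
  7 11))))), (.s k48 k32 3 (.s k154 k223 10 (.s k207 k101 14 (.s k240 k160 11 (.s k218 k229 6 (.d
  k90 k95 k26 2 7))))))] (.c k95 (.l (.s k255 k170 14 (.s k48 k32 3 (.s k144 k208 7 (.s k96 k192 11
  (.s k112 k64 3 (.d k240 k160 k176 11 7))))))) (.c k255 (.l (.s k95 k90 2 (.s k48 k32 3 (.s k144
  k208 7 (.s k96 k192 11 (.s k112 k64 3 (.d k240 k176 k160 7 11))))))) .n))) (.c k95 (.l (.s k255
  k170 14 (.s k48 k32 3 (.s k117 k186 10 (.s k101 k69 3 (.d k154 k223 k207 10 14)))))) (.c k101 (.q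
  k80 [(.s k208 k144 7 (.s k223 k154 10 (.s k213 k218 2 (.s k149 k21 7 (.d k90 k95 k31 2 10))))),
  (.s k48 k32 3 (.s k144 k208 7 (.s k96 k192 11 (.s k112 k64 3 (.d k240 k176 k160 7 11))))), (.s k48
  k32 3 (.s k154 k223 10 (.s k240 k160 11 (.s k176 k112 7 (.s k165 k143 6 (.s k245 k5 11 (.d k255
  k170 k250 14 2)))))))] (.c k48 (.l (.s k90 k95 2 (.s k255 k170 14 (.s k154 k223 10 (.s k26 k218 7
  (.s k31 k21 2 (.d k208 k144 k149 7 10))))))) (.c k95 (.l (.s k255 k170 14 (.s k144 k208 7 (.s k160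
  k240 11 (.s k128 k176 3 (.s k192 k64 7 (.d k48 k32 k96 3 11))))))) (.c k255 (.l (.s k95 k90 2 (.s
  k48 k32 3 (.s k144 k208 7 (.s k96 k192 11 (.s k112 k64 3 (.d k240 k176 k160 7 11))))))) .n)))) (.c
  k138 (.l (.s k48 k32 3 (.s k154 k223 10 (.s k101 k207 14 (.s k117 k69 3 (.d k255 k186 k170 10
  14)))))) (.c k154 (.q k93 [(.s k89 k81 1 (.s k255 k170 14 (.s k12 k174 12 (.s k4 k8 1 (.d k166
  k247 k243 12 14))))), (.s k48 k32 3 (.s k81 k89 1 (.s k146 k211 8 (.s k97 k195 12 (.s k113 k65 3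
  (.d k243 k178 k162 8 12)))))), (.s k48 k32 3 (.s k255 k170 14 (.s k12 k174 12 (.s k8 k4 1 (.s k24
  k36 5 (.s k20 k28 1 (.d k40 k56 k60 3 5)))))))] (.c k95 (.l (.s k255 k170 14 (.s k12 k174 12 (.s
  k4 k8 1 (.s k89 k81 1 (.d k166 k247 k243 12 14)))))) (.c k162 (.l (.s k89 k81 1 (.s k255 k170 14
  (.s k12 k174 12 (.s k166 k243 14 (.d k4 k8 k247 1 12)))))) (.c k255 (.q k95 [(.s k89 k81 1 (.s k90
  k80 2 (.s k91 k88 0 (.s k83 k87 1 (.d k92 k94 k86 0 2))))), (.s k48 k32 3 (.s k81 k89 1 (.s k146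
  k211 8 (.s k97 k195 12 (.s k113 k65 3 (.d k243 k178 k162 8 12)))))), (.s k48 k32 3 (.s k80 k90 2
  (.s k144 k208 7 (.s k96 k192 11 (.s k112 k64 3 (.d k240 k176 k160 7 11))))))] .n) .n)))) (.c k170
  (.q k146 [(.s k154 k223 10 (.s k150 k158 1 (.s k20 k215 8 (.s k28 k24 1 (.d k211 k81 k89 8
  10))))), (.s k48 k32 3 (.s k81 k211 8 (.s k97 k195 12 (.s k113 k65 3 (.d k243 k178 k162 8 12))))),
  (.s k48 k32 3 (.s k154 k223 10 (.s k150 k158 1 (.s k195 k97 12 (.s k60 k105 14 (.d k20 k40 k215 5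
  8))))))] (.c k95 (.q k255 [(.s k48 k32 3 (.s k117 k186 10 (.s k101 k69 3 (.d k154 k223 k207 10
  14)))), (.s k81 k211 8 (.s k89 k93 1 (.s k243 k162 12 (.s k166 k12 14 (.d k247 k251 k4 1 12)))))]
  (.c k160 (.q k165 [(.s k48 k32 3 (.s k117 k186 10 (.s k101 k69 3 (.d k154 k223 k207 10 14)))), (.s
  k81 k211 8 (.s k89 k93 1 (.s k243 k162 12 (.s k166 k12 14 (.d k247 k251 k4 1 12)))))] .n) (.c k165
  (.q k160 [(.s k48 k32 3 (.s k117 k186 10 (.s k101 k69 3 (.d k154 k223 k207 10 14)))), (.s k81 k211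
  8 (.s k89 k93 1 (.s k243 k162 12 (.s k166 k12 14 (.d k247 k251 k4 1 12)))))] (.c k90 (.l (.s k240
  k80 11 (.s k48 k32 3 (.s k117 k186 10 (.s k101 k69 3 (.d k154 k223 k207 10 14)))))) (.c k240 (.q
  k90 [(.s k48 k32 3 (.s k117 k186 10 (.s k101 k69 3 (.d k154 k223 k207 10 14)))), (.s k81 k211 8
  (.s k89 k93 1 (.s k243 k162 12 (.s k166 k12 14 (.d k247 k251 k4 1 12)))))] .n) .n))) .n))) (.c
  k160 (.q k165 [(.s k154 k223 10 (.s k150 k158 1 (.s k20 k215 8 (.s k28 k24 1 (.d k211 k81 k89 8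
  10))))), (.s k48 k32 3 (.s k81 k211 8 (.s k97 k195 12 (.s k113 k65 3 (.d k243 k178 k162 8 12))))),
  (.s k48 k32 3 (.s k154 k223 10 (.s k150 k158 1 (.s k195 k97 12 (.s k60 k105 14 (.d k20 k40 k215 5
  8))))))] (.c k95 (.q k255 [(.s k48 k32 3 (.s k117 k186 10 (.s k101 k69 3 (.d k154 k223 k207 10
  14)))), (.s k81 k211 8 (.s k89 k93 1 (.s k243 k162 12 (.s k166 k12 14 (.d k247 k251 k4 1 12)))))]
  .n) (.c k255 (.q k95 [(.s k90 k80 2 (.s k223 k154 10 (.s k31 k159 7 (.s k149 k208 10 (.d k21 k26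
  k213 2 7))))), (.s k48 k32 3 (.s k81 k211 8 (.s k97 k195 12 (.s k113 k65 3 (.d k243 k178 k162 8
  12)))))] .n) .n))) (.c k165 (.q k160 [(.s k154 k223 10 (.s k150 k158 1 (.s k20 k215 8 (.s k28 k24
  1 (.d k211 k81 k89 8 10))))), (.s k48 k32 3 (.s k81 k211 8 (.s k97 k195 12 (.s k113 k65 3 (.d k243
  k178 k162 8 12))))), (.s k48 k32 3 (.s k154 k223 10 (.s k150 k158 1 (.s k195 k97 12 (.s k60 k105
  14 (.d k20 k40 k215 5 8))))))] (.c k90 (.l (.s k240 k80 11 (.s k48 k32 3 (.s k81 k211 8 (.s k97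
  k195 12 (.s k113 k65 3 (.d k243 k178 k162 8 12))))))) (.c k95 (.q k255 [(.s k48 k32 3 (.s k117
  k186 10 (.s k101 k69 3 (.d k154 k223 k207 10 14)))), (.s k81 k211 8 (.s k89 k93 1 (.s k243 k162 12
  (.s k166 k12 14 (.d k247 k251 k4 1 12)))))] (.c k90 (.l (.s k240 k80 11 (.s k48 k32 3 (.s k117
  k186 10 (.s k101 k69 3 (.d k154 k223 k207 10 14)))))) (.c k240 (.q k90 [(.s k48 k32 3 (.s k117
  k186 10 (.s k101 k69 3 (.d k154 k223 k207 10 14)))), (.s k81 k211 8 (.s k89 k93 1 (.s k243 k162 12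
  (.s k166 k12 14 (.d k247 k251 k4 1 12)))))] .n) .n))) (.c k240 (.q k90 [(.s k81 k211 8 (.s k162
  k243 12 (.s k130 k178 3 (.s k195 k65 8 (.d k48 k32 k97 3 12))))), (.s k95 k80 2 (.s k223 k154 10
  (.s k31 k159 7 (.s k149 k208 10 (.d k21 k26 k213 2 7)))))] (.c k95 (.q k255 [(.s k48 k32 3 (.s
  k117 k186 10 (.s k101 k69 3 (.d k154 k223 k207 10 14)))), (.s k81 k211 8 (.s k89 k93 1 (.s k243
  k162 12 (.s k166 k12 14 (.d k247 k251 k4 1 12)))))] .n) (.c k255 (.l (.s k95 k80 2 (.s k223 k154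
  10 (.s k31 k159 7 (.s k21 k26 2 (.d k149 k213 k208 7 10)))))) .n))) (.c k255 (.q k95 [(.d k80 k90
  k240 2 11)] (.c k80 (.l (.s k48 k32 3 (.s k81 k211 8 (.s k97 k195 12 (.s k113 k65 3 (.d k243 k178
  k162 8 12)))))) (.c k90 (.l (.s k240 k80 11 (.s k48 k32 3 (.s k81 k211 8 (.s k97 k195 12 (.s k113
  k65 3 (.d k243 k178 k162 8 12))))))) (.c k240 (.l (.s k90 k80 2 (.s k223 k154 10 (.s k31 k159 7
  (.s k21 k26 2 (.d k149 k213 k208 7 10)))))) .n)))) .n))))) (.c k255 (.q k95 [(.s k90 k80 2 (.s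
  k223 k154 10 (.s k31 k159 7 (.s k149 k208 10 (.d k21 k26 k213 2 7))))), (.s k48 k32 3 (.s k81 k211
  8 (.s k97 k195 12 (.s k113 k65 3 (.d k243 k178 k162 8 12)))))] (.c k160 (.q k165 [(.s k90 k80 2
  (.s k223 k154 10 (.s k31 k159 7 (.s k149 k208 10 (.d k21 k26 k213 2 7))))), (.s k48 k32 3 (.s k81
  k211 8 (.s k97 k195 12 (.s k113 k65 3 (.d k243 k178 k162 8 12)))))] .n) (.c k165 (.q k160 [(.d k80
  k90 k240 2 11)] (.c k80 (.l (.s k48 k32 3 (.s k81 k211 8 (.s k97 k195 12 (.s k113 k65 3 (.d k243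
  k178 k162 8 12)))))) (.c k90 (.l (.s k240 k80 11 (.s k48 k32 3 (.s k81 k211 8 (.s k97 k195 12 (.s
  k113 k65 3 (.d k243 k178 k162 8 12))))))) (.c k240 (.l (.s k90 k80 2 (.s k223 k154 10 (.s k31 k159
  7 (.s k21 k26 2 (.d k149 k213 k208 7 10)))))) .n)))) .n))) .n))))) (.c k186 (.q k80 [(.s k48 k32 3
  (.s k144 k208 7 (.s k96 k192 11 (.s k112 k64 3 (.d k240 k176 k160 7 11))))), (.s k208 k144 7 (.s
  k223 k154 10 (.s k213 k218 2 (.s k149 k21 7 (.d k90 k95 k31 2 10))))), (.s k48 k32 3 (.s k154 k223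
  10 (.s k207 k101 14 (.s k240 k160 11 (.s k218 k229 6 (.d k90 k95 k26 2 7))))))] (.c k95 (.l (.s
  k255 k170 14 (.s k48 k32 3 (.s k144 k208 7 (.s k96 k192 11 (.s k112 k64 3 (.d k240 k160 k176 11
  7))))))) (.c k255 (.l (.s k95 k90 2 (.s k48 k32 3 (.s k144 k208 7 (.s k96 k192 11 (.s k112 k64 3
  (.d k240 k176 k160 7 11))))))) .n))) (.c k207 (.f k48 k32 3 (.q k63 [(.s k58 k53 2 (.s k154 k223
  10 (.s k106 k202 11 (.s k64 k127 6 (.d k192 k128 k149 7 14))))), (.s k21 k42 6 (.s k31 k26 2 (.s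
  k149 k213 7 (.s k90 k208 10 (.s k95 k80 2 (.d k223 k159 k154 7 10)))))), (.s k21 k42 6 (.s k149
  k213 7 (.s k106 k192 14 (.s k127 k64 6 (.d k255 k191 k170 7 14)))))] (.c k79 (.q k143 [(.s k58 k53
  2 (.s k154 k223 10 (.s k106 k202 11 (.s k64 k127 6 (.d k192 k128 k149 7 14))))), (.s k21 k42 6 (.s
  k53 k58 2 (.s k154 k223 10 (.s k165 k176 6 (.d k5 k37 k245 3 11))))), (.s k21 k42 6 (.s k149 k213
  7 (.s k106 k192 14 (.s k127 k64 6 (.d k255 k191 k170 7 14)))))] (.c k95 (.l (.s k255 k170 14 (.s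
  k21 k42 6 (.s k127 k191 7 (.s k106 k64 6 (.d k149 k213 k192 7 14)))))) (.c k255 (.q k95 [(.s k21
  k42 6 (.s k223 k154 10 (.d k31 k26 k159 2 7))), (.s k80 k90 2 (.s k144 k208 7 (.s k96 k192 11 (.s
  k112 k64 3 (.d k240 k176 k160 7 11)))))] (.c k31 (.l (.s k21 k42 6 (.s k80 k90 2 (.s k144 k208 7
  (.s k149 k213 7 (.d k154 k223 k159 10 2)))))) (.c k223 (.q k239 [(.s k21 k42 6 (.s k31 k26 2 (.s
  k90 k80 2 (.d k149 k213 k208 7 10)))), (.s k80 k90 2 (.s k240 k160 11 (.s k112 k176 7 (.s k122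
  k181 10 (.s k127 k117 2 (.d k64 k96 k106 3 6)))))), (.s k21 k42 6 (.s k53 k58 2 (.s k149 k213 7
  (.s k101 k197 11 (.s k117 k69 3 (.s k245 k181 7 (.d k5 k37 k165 3 11)))))))] .n) (.c k239 (.l (.s
  k223 k154 10 (.s k21 k42 6 (.d k31 k26 k159 2 7)))) .n)))) .n))) (.c k95 (.l (.s k255 k170 14 (.s
  k21 k42 6 (.s k127 k191 7 (.s k106 k64 6 (.d k149 k213 k192 7 14)))))) (.c k143 (.q k79 [(.s k58
  k53 2 (.s k154 k223 10 (.s k106 k202 11 (.s k64 k127 6 (.d k192 k128 k149 7 14))))), (.s k255 k170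
  14 (.s k117 k186 10 (.s k101 k69 3 (.s k112 k90 6 (.d k127 k191 k122 7 2))))), (.s k21 k42 6 (.s
  k58 k53 2 (.s k149 k213 7 (.s k106 k192 14 (.d k154 k202 k223 11 10)))))] (.c k95 (.l (.s k255
  k170 14 (.s k21 k42 6 (.s k149 k213 7 (.s k106 k192 14 (.d k127 k64 k191 6 7)))))) (.c k154 (.l
  (.s k21 k42 6 (.s k149 k213 7 (.s k106 k192 14 (.s k127 k64 6 (.d k255 k191 k170 7 14)))))) (.c
  k159 (.q k191 [(.d k255 k127 k170 7 14)] (.c k95 (.l (.d k255 k127 k170 7 14)) (.c k127 (.l (.s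
  k21 k42 6 (.s k149 k213 7 (.d k170 k128 k255 6 14)))) (.c k170 (.l (.s k21 k42 6 (.s k149 k213 7
  (.s k106 k192 14 (.d k127 k255 k64 7 6))))) (.c k255 (.q k95 [(.s k58 k53 2 (.s k127 k111 3 (.s
  k106 k64 6 (.d k154 k223 k202 10 11)))), (.s k80 k90 2 (.s k240 k160 11 (.s k176 k112 7 (.d k181
  k186 k122 2 10))))] (.c k223 (.q k239 [(.s k21 k42 6 (.s k127 k111 3 (.s k106 k64 6 (.d k149 k213
  k192 7 14)))), (.s k80 k90 2 (.s k240 k160 11 (.s k176 k112 7 (.d k181 k186 k122 2 10))))] .n) (.c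
  k239 (.l (.s k223 k154 10 (.s k21 k42 6 (.s k31 k26 2 (.s k90 k80 2 (.d k149 k213 k208 7 10))))))
  .n))) .n))))) (.c k191 (.q k159 [(.s k154 k223 10 (.s k149 k144 2 (.d k21 k42 k213 6 7))), (.s k21
  k42 6 (.s k31 k26 2 (.d k223 k95 k154 7 10))), (.s k58 k53 2 (.s k154 k223 10 (.s k106 k202 11 (.d
  k149 k192 k144 14 2))))] (.c k95 (.l (.s k255 k170 14 (.s k21 k42 6 (.s k149 k213 7 (.d k154 k144
  k223 2 10))))) (.c k154 (.l (.s k21 k42 6 (.s k31 k26 2 (.s k95 k223 7 (.s k90 k80 2 (.d k149 k213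
  k208 7 10)))))) (.c k223 (.l (.s k21 k42 6 (.s k149 k213 7 (.s k144 k154 2 (.d k192 k96 k106 11
  14))))) (.c k255 (.q k95 [(.d k223 k31 k154 7 10)] (.c k31 (.l (.s k21 k42 6 (.s k149 k213 7 (.d
  k154 k144 k223 2 10)))) (.c k154 (.l (.s k21 k42 6 (.d k31 k26 k223 2 7))) (.c k223 (.q k239 [(.s
  k21 k42 6 (.s k127 k111 3 (.s k106 k64 6 (.d k149 k213 k192 7 14)))), (.s k80 k90 2 (.s k144 k208
  7 (.s k149 k154 2 (.d k192 k96 k106 11 14)))), (.s k21 k42 6 (.s k31 k26 2 (.s k90 k80 2 (.d k149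
  k213 k208 7 10)))), (.s k80 k90 2 (.s k127 k111 3 (.s k64 k106 6 (.s k96 k112 3 (.d k144 k208 k192
  7 11)))))] .n) (.c k239 (.l (.d k223 k31 k154 7 10)) .n))))) .n))))) (.c k255 (.q k95 [(.s k21 k42
  6 (.s k31 k26 2 (.d k223 k159 k154 7 10))), (.s k58 k53 2 (.s k127 k111 3 (.s k106 k64 6 (.d k154
  k223 k202 10 11)))), (.s k21 k42 6 (.s k127 k111 3 (.s k106 k64 6 (.d k149 k213 k192 7 14))))] (.c
  k47 (.l (.s k42 k21 6 (.s k58 k53 2 (.s k26 k10 3 (.s k90 k80 2 (.d k154 k218 k223 7 10)))))) (.c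
  k159 (.q k191 [(.s k58 k53 2 (.s k127 k111 3 (.s k106 k64 6 (.d k154 k223 k202 10 11)))), (.s k80
  k90 2 (.s k240 k160 11 (.s k176 k112 7 (.d k181 k186 k122 2 10))))] (.c k223 (.q k239 [(.s k21 k42
  6 (.s k127 k111 3 (.s k106 k64 6 (.d k149 k213 k192 7 14)))), (.s k80 k90 2 (.s k240 k160 11 (.s
  k176 k112 7 (.d k181 k186 k122 2 10))))] .n) (.c k239 (.l (.s k223 k154 10 (.s k21 k42 6 (.s k31
  k26 2 (.s k90 k80 2 (.d k149 k213 k208 7 10)))))) .n))) (.c k191 (.q k159 [(.d k223 k31 k154 7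
  10)] (.c k31 (.l (.s k21 k42 6 (.s k149 k213 7 (.d k154 k144 k223 2 10)))) (.c k154 (.l (.s k21
  k42 6 (.d k31 k26 k223 2 7))) (.c k223 (.q k239 [(.s k21 k42 6 (.s k127 k111 3 (.s k106 k64 6 (.d
  k149 k213 k192 7 14)))), (.s k80 k90 2 (.s k144 k208 7 (.s k149 k154 2 (.d k192 k96 k106 11
  14)))), (.s k21 k42 6 (.s k31 k26 2 (.s k90 k80 2 (.d k149 k213 k208 7 10)))), (.s k80 k90 2 (.s
  k127 k111 3 (.s k64 k106 6 (.s k96 k112 3 (.d k144 k208 k192 7 11)))))] .n) (.c k239 (.l (.d k223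
  k31 k154 7 10)) .n))))) (.c k223 (.q k239 [(.s k21 k42 6 (.s k127 k111 3 (.s k106 k64 6 (.d k149
  k213 k192 7 14)))), (.s k80 k90 2 (.s k127 k111 3 (.s k64 k106 6 (.s k96 k112 3 (.d k144 k208 k192
  7 11))))), (.s k21 k42 6 (.s k31 k26 2 (.s k90 k80 2 (.d k149 k213 k208 7 10))))] (.c k159 (.q
  k191 [(.s k21 k42 6 (.s k127 k111 3 (.s k106 k64 6 (.d k149 k213 k192 7 14)))), (.s k80 k90 2 (.s
  k240 k160 11 (.s k176 k112 7 (.d k181 k186 k122 2 10))))] .n) (.c k191 (.q k159 [(.s k21 k42 6 (.s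
  k127 k111 3 (.s k106 k64 6 (.d k149 k213 k192 7 14)))), (.s k80 k90 2 (.s k144 k208 7 (.s k149
  k154 2 (.d k192 k96 k106 11 14)))), (.s k21 k42 6 (.s k31 k26 2 (.s k90 k80 2 (.d k149 k213 k208 7
  10)))), (.s k80 k90 2 (.s k127 k111 3 (.s k64 k106 6 (.s k96 k112 3 (.d k144 k208 k192 7 11)))))]
  .n) .n))) (.c k239 (.l (.s k223 k154 10 (.s k21 k42 6 (.d k31 k26 k159 2 7)))) .n)))))) .n))))))
  (.c k149 (.l (.s k42 k21 6 (.s k58 k53 2 (.s k154 k223 10 (.s k106 k202 11 (.d k170 k255 k234 14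
  7)))))) (.c k255 (.q k95 [(.s k21 k42 6 (.s k223 k154 10 (.d k31 k26 k159 2 7))), (.s k80 k90 2
  (.s k144 k208 7 (.s k96 k192 11 (.s k112 k64 3 (.d k240 k176 k160 7 11)))))] (.c k31 (.l (.s k21
  k42 6 (.s k80 k90 2 (.s k144 k208 7 (.s k149 k213 7 (.d k154 k223 k159 10 2)))))) (.c k79 (.q k143
  [(.s k21 k42 6 (.s k223 k154 10 (.d k31 k26 k159 2 7))), (.s k80 k90 2 (.s k144 k208 7 (.s k96
  k192 11 (.s k112 k64 3 (.d k240 k176 k160 7 11)))))] (.c k31 (.l (.s k21 k42 6 (.s k80 k90 2 (.s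
  k144 k208 7 (.s k149 k213 7 (.d k154 k223 k159 10 2)))))) (.c k223 (.q k239 [(.s k21 k42 6 (.s k31
  k26 2 (.s k90 k80 2 (.d k149 k213 k208 7 10)))), (.s k80 k90 2 (.s k240 k160 11 (.s k112 k176 7
  (.s k122 k181 10 (.s k127 k117 2 (.d k64 k96 k106 3 6)))))), (.s k21 k42 6 (.s k53 k58 2 (.s k149
  k213 7 (.s k101 k197 11 (.s k117 k69 3 (.s k245 k181 7 (.d k5 k37 k165 3 11)))))))] .n) (.c k239
  (.l (.s k223 k154 10 (.s k21 k42 6 (.d k31 k26 k159 2 7)))) .n)))) (.c k143 (.q k79 [(.s k21 k42 6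
  (.s k31 k26 2 (.d k223 k159 k154 7 10))), (.s k58 k53 2 (.s k127 k111 3 (.s k106 k64 6 (.d k154
  k223 k202 10 11)))), (.s k21 k42 6 (.s k127 k111 3 (.s k106 k64 6 (.d k149 k213 k192 7 14))))] (.c
  k47 (.l (.s k42 k21 6 (.s k58 k53 2 (.s k26 k10 3 (.s k90 k80 2 (.d k154 k218 k223 7 10)))))) (.c
  k159 (.q k191 [(.s k58 k53 2 (.s k127 k111 3 (.s k106 k64 6 (.d k154 k223 k202 10 11)))), (.s k80
  k90 2 (.s k240 k160 11 (.s k176 k112 7 (.d k181 k186 k122 2 10))))] (.c k223 (.q k239 [(.s k21 k42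
  6 (.s k127 k111 3 (.s k106 k64 6 (.d k149 k213 k192 7 14)))), (.s k80 k90 2 (.s k240 k160 11 (.s
  k176 k112 7 (.d k181 k186 k122 2 10))))] .n) (.c k239 (.l (.s k223 k154 10 (.s k21 k42 6 (.s k31
  k26 2 (.s k90 k80 2 (.d k149 k213 k208 7 10)))))) .n))) (.c k191 (.q k159 [(.d k223 k31 k154 7
  10)] (.c k31 (.l (.s k21 k42 6 (.s k149 k213 7 (.d k154 k144 k223 2 10)))) (.c k154 (.l (.s k21
  k42 6 (.d k31 k26 k223 2 7))) (.c k223 (.q k239 [(.s k21 k42 6 (.s k127 k111 3 (.s k106 k64 6 (.d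
  k149 k213 k192 7 14)))), (.s k80 k90 2 (.s k144 k208 7 (.s k149 k154 2 (.d k192 k96 k106 11
  14)))), (.s k21 k42 6 (.s k31 k26 2 (.s k90 k80 2 (.d k149 k213 k208 7 10)))), (.s k80 k90 2 (.s
  k127 k111 3 (.s k64 k106 6 (.s k96 k112 3 (.d k144 k208 k192 7 11)))))] .n) (.c k239 (.l (.d k223
  k31 k154 7 10)) .n))))) (.c k223 (.q k239 [(.s k21 k42 6 (.s k127 k111 3 (.s k106 k64 6 (.d k149
  k213 k192 7 14)))), (.s k80 k90 2 (.s k127 k111 3 (.s k64 k106 6 (.s k96 k112 3 (.d k144 k208 k192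
  7 11))))), (.s k21 k42 6 (.s k31 k26 2 (.s k90 k80 2 (.d k149 k213 k208 7 10))))] (.c k159 (.q
  k191 [(.s k21 k42 6 (.s k127 k111 3 (.s k106 k64 6 (.d k149 k213 k192 7 14)))), (.s k80 k90 2 (.s
  k240 k160 11 (.s k176 k112 7 (.d k181 k186 k122 2 10))))] .n) (.c k191 (.q k159 [(.s k21 k42 6 (.s
  k127 k111 3 (.s k106 k64 6 (.d k149 k213 k192 7 14)))), (.s k80 k90 2 (.s k144 k208 7 (.s k149
  k154 2 (.d k192 k96 k106 11 14)))), (.s k21 k42 6 (.s k31 k26 2 (.s k90 k80 2 (.d k149 k213 k208 7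
  10)))), (.s k80 k90 2 (.s k127 k111 3 (.s k64 k106 6 (.s k96 k112 3 (.d k144 k208 k192 7 11)))))]
  .n) .n))) (.c k239 (.l (.s k223 k154 10 (.s k21 k42 6 (.d k31 k26 k159 2 7)))) .n)))))) (.c k223
  (.q k239 [(.s k21 k42 6 (.s k31 k26 2 (.s k90 k80 2 (.d k149 k213 k208 7 10)))), (.s k80 k90 2 (.s
  k240 k160 11 (.s k112 k176 7 (.s k122 k181 10 (.s k127 k117 2 (.d k64 k96 k106 3 6)))))), (.s k21
  k42 6 (.s k53 k58 2 (.s k149 k213 7 (.s k101 k197 11 (.s k117 k69 3 (.s k245 k181 7 (.d k5 k37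
  k165 3 11)))))))] (.c k79 (.q k143 [(.s k21 k42 6 (.s k31 k26 2 (.s k90 k80 2 (.d k149 k213 k208 7
  10)))), (.s k80 k90 2 (.s k240 k160 11 (.s k112 k176 7 (.s k122 k181 10 (.s k127 k117 2 (.d k64
  k96 k106 3 6)))))), (.s k21 k42 6 (.s k53 k58 2 (.s k149 k213 7 (.s k101 k197 11 (.s k117 k69 3
  (.s k245 k181 7 (.d k5 k37 k165 3 11)))))))] .n) (.c k143 (.q k79 [(.s k21 k42 6 (.s k127 k111 3
  (.s k106 k64 6 (.d k149 k213 k192 7 14)))), (.s k80 k90 2 (.s k127 k111 3 (.s k64 k106 6 (.s k96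
  k112 3 (.d k144 k208 k192 7 11))))), (.s k21 k42 6 (.s k31 k26 2 (.s k90 k80 2 (.d k149 k213 k208
  7 10))))] (.c k159 (.q k191 [(.s k21 k42 6 (.s k127 k111 3 (.s k106 k64 6 (.d k149 k213 k192 7
  14)))), (.s k80 k90 2 (.s k240 k160 11 (.s k176 k112 7 (.d k181 k186 k122 2 10))))] .n) (.c k191
  (.q k159 [(.s k21 k42 6 (.s k127 k111 3 (.s k106 k64 6 (.d k149 k213 k192 7 14)))), (.s k80 k90 2
  (.s k144 k208 7 (.s k149 k154 2 (.d k192 k96 k106 11 14)))), (.s k21 k42 6 (.s k31 k26 2 (.s k90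
  k80 2 (.d k149 k213 k208 7 10)))), (.s k80 k90 2 (.s k127 k111 3 (.s k64 k106 6 (.s k96 k112 3 (.d
  k144 k208 k192 7 11)))))] .n) .n))) .n))) (.c k239 (.l (.s k223 k154 10 (.s k21 k42 6 (.d k31 k26
  k159 2 7)))) .n)))))) .n))))))) (.c k223 (.f k48 k32 3 (.q k80 [(.s k240 k160 11 (.s k112 k176 7
  (.s k96 k64 3 (.d k144 k208 k192 7 11)))), (.s k90 k95 2 (.s k255 k170 14 (.s k117 k186 10 (.s
  k101 k69 3 (.s k112 k79 6 (.d k240 k160 k176 11 7)))))), (.s k144 k208 7 (.s k96 k192 11 (.s k64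
  k112 3 (.s k106 k127 6 (.s k101 k111 2 (.s k117 k69 3 (.d k255 k186 k170 10 14))))))), (.s k144
  k208 7 (.s k160 k240 11 (.s k128 k176 3 (.d k192 k64 k96 7 11))))] (.c k64 (.q k1 [(.s k3 k2 0 (.s
  k169 k253 13 (.s k252 k86 14 (.s k168 k84 13 (.d k170 k255 k171 14 0))))), (.s k3 k2 0 (.s k18 k33
  4 (.s k19 k17 0 (.s k208 k144 7 (.s k82 k145 8 (.d k240 k160 k161 11 12)))))), (.s k253 k169 13
  (.s k255 k170 14 (.s k117 k186 10 (.s k49 k185 9 (.s k17 k33 3 (.d k51 k34 k50 4 0))))))] (.c k95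
  (.l (.s k255 k170 14 (.s k3 k2 0 (.s k87 k171 13 (.s k86 k84 0 (.d k169 k253 k252 13 14)))))) (.c
  k255 (.l (.s k95 k90 2 (.s k3 k2 0 (.s k18 k33 4 (.s k19 k17 0 (.s k208 k144 7 (.s k82 k145 8 (.d
  k240 k160 k161 11 12)))))))) .n))) (.c k95 (.l (.s k255 k170 14 (.s k144 k208 7 (.s k96 k192 11
  (.s k112 k64 3 (.d k240 k160 k176 11 7)))))) (.c k240 (.l (.s k90 k95 2 (.s k255 k170 14 (.s k117
  k186 10 (.s k101 k69 3 (.s k112 k79 6 (.s k64 k96 3 (.d k127 k122 k106 2 6)))))))) (.c k255 (.l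
  (.s k95 k90 2 (.s k144 k208 7 (.s k96 k192 11 (.s k112 k64 3 (.d k240 k176 k160 7 11))))))
  .n)))))) (.c k239 (.l (.s k48 k32 3 (.s k154 k223 10 (.s k101 k207 14 (.s k255 k170 14 (.d k117
  k69 k186 3 10)))))) (.c k255 (.q k95 [(.s k90 k80 2 (.s k223 k154 10 (.s k31 k159 7 (.s k149 k208
  10 (.d k21 k26 k213 2 7))))), (.s k48 k32 3 (.s k80 k90 2 (.s k240 k160 11 (.s k112 k176 7 (.s k96
  k64 3 (.d k144 k208 k192 7 11))))))] (.c k80 (.q k17 [(.s k18 k19 0 (.s k48 k32 3 (.s k3 k33 4 (.s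
  k2 k1 0 (.d k34 k50 k51 3 4))))), (.s k19 k18 0 (.s k153 k221 9 (.s k86 k220 10 (.s k87 k84 0 (.d
  k223 k155 k154 9 10))))), (.s k48 k32 3 (.s k51 k34 4 (.s k50 k49 0 (.s k153 k221 9 (.s k154 k223
  10 (.d k102 k204 k206 14 13))))))] .n) (.c k90 (.f k48 k32 3 (.q k192 [(.s k128 k64 7 (.s k144 k96
  11 (.s k160 k176 3 (.d k80 k240 k208 11 7)))), (.s k64 k128 7 (.s k106 k127 6 (.s k63 k149 14 (.s
  k58 k53 2 (.d k154 k223 k202 10 11))))), (.s k144 k96 11 (.s k154 k223 10 (.s k149 k159 2 (.s k21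
  k213 7 (.d k63 k42 k106 6 14)))))] (.c k165 (.q k240 [(.s k144 k96 11 (.d k80 k160 k208 11 7)),
  (.s k64 k128 7 (.s k106 k127 6 (.s k63 k149 14 (.s k58 k53 2 (.d k154 k223 k202 10 11)))))] (.c
  k160 (.q k170 [(.s k154 k223 10 (.s k138 k186 3 (.d k207 k69 k101 10 14))), (.s k64 k128 7 (.s
  k106 k127 6 (.s k42 k234 7 (.d k63 k21 k149 6 14))))] (.c k96 (.l (.s k224 k208 3 (.s k154 k223 10
  (.s k138 k186 3 (.d k207 k69 k101 10 14))))) (.c k224 (.l (.s k96 k144 11 (.s k154 k223 10 (.s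
  k138 k186 3 (.d k207 k69 k101 10 14))))) .n))) (.c k170 (.l (.s k160 k80 11 (.s k128 k64 7 (.d
  k144 k96 k176 11 3)))) (.c k208 (.l (.s k64 k128 7 (.s k96 k144 11 (.d k80 k160 k112 11 3))))
  .n)))) (.c k208 (.l (.s k64 k128 7 (.s k96 k144 11 (.s k106 k127 6 (.s k101 k111 2 (.d k154 k223
  k207 10 14)))))) (.c k240 (.q k165 [(.s k128 k64 7 (.s k144 k96 11 (.s k154 k223 10 (.d k176 k160
  k143 3 6)))), (.s k64 k128 7 (.s k106 k127 6 (.s k63 k149 14 (.s k21 k42 6 (.s k53 k58 2 (.d k5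
  k37 k245 3 11)))))), (.s k144 k96 11 (.s k154 k223 10 (.s k149 k159 2 (.s k21 k213 7 (.d k63 k42
  k106 6 14)))))] (.c k245 (.q k250 [(.s k128 k64 7 (.s k144 k96 11 (.s k154 k223 10 (.d k176 k160
  k143 3 6)))), (.s k64 k128 7 (.s k106 k127 6 (.s k63 k149 14 (.s k58 k53 2 (.d k154 k223 k202 10
  11))))), (.s k144 k96 11 (.s k154 k223 10 (.s k149 k159 2 (.s k21 k213 7 (.d k63 k42 k106 6
  14)))))] (.c k154 (.f k64 k128 7 (.l (.s k96 k144 11 (.s k106 k127 6 (.s k101 k111 2 (.s k69 k117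
  3 (.s k207 k138 10 (.s k197 k202 2 (.d k149 k53 k63 11 14))))))))) (.c k223 (.l (.s k64 k128 7 (.s
  k96 k144 11 (.s k106 k127 6 (.s k101 k111 2 (.s k69 k117 3 (.d k207 k138 k154 10 14))))))) .n)))
  (.c k250 (.l (.s k245 k5 11 (.s k128 k64 7 (.s k144 k96 11 (.s k154 k223 10 (.d k176 k160 k143 3
  6)))))) .n))) .n))))) (.c k144 (.l (.s k90 k80 2 (.s k223 k154 10 (.s k31 k159 7 (.s k149 k208 10
  (.d k21 k26 k213 2 7)))))) (.c k208 (.q k3 [(.s k2 k1 0 (.s k48 k32 3 (.s k18 k33 4 (.s k34 k50 3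
  (.d k17 k19 k51 0 4))))), (.s k2 k1 0 (.s k80 k90 2 (.s k240 k160 11 (.s k82 k161 12 (.s k81 k83 0
  (.d k162 k242 k243 11 12)))))), (.s k48 k32 3 (.s k18 k33 4 (.s k154 k223 10 (.s k86 k222 9 (.s
  k84 k87 0 (.d k252 k168 k169 13 14))))))] .n) .n))))) .n))))))))))))))

def t15_177 : T TT 256 :=
  (.f k255 k170 14 (.q k105 [(.s k65 k125 5 (.s k195 k130 8 (.s k215 k235 5 (.d k150 k20 k60 8
  14))))] (.c k20 (.q k1 [(.s k3 k2 0 (.s k87 k171 13 (.s k169 k253 13 (.d k86 k84 k252 0 14)))),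
  (.s k65 k125 5 (.s k169 k253 13 (.s k41 k233 7 (.s k61 k21 5 (.d k193 k129 k149 7 13))))), (.s k3
  k2 0 (.s k65 k125 5 (.s k129 k193 7 (.s k66 k192 8 (.s k67 k64 0 (.d k195 k131 k130 7 8))))))] .n)
  (.c k60 (.f k65 k125 5 (.q k171 [(.s k3 k87 13 (.s k1 k2 0 (.s k169 k253 13 (.s k41 k233 7 (.s k61
  k21 5 (.d k193 k129 k149 7 13)))))), (.s k195 k130 8 (.s k235 k215 5 (.s k107 k43 7 (.s k106 k104
  0 (.s k127 k64 6 (.d k63 k191 k151 7 13))))))] (.c k30 (.q k45 [(.s k3 k87 13 (.s k1 k2 0 (.s k169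
  k253 13 (.s k41 k233 7 (.s k61 k21 5 (.d k193 k129 k149 7 13)))))), (.s k195 k130 8 (.s k235 k215
  5 (.s k107 k43 7 (.s k106 k104 0 (.s k127 k64 6 (.d k63 k191 k151 7 13))))))] .n) (.c k45 (.q k30
  [(.s k3 k87 13 (.s k1 k2 0 (.s k169 k253 13 (.s k41 k233 7 (.s k61 k21 5 (.d k193 k129 k149 7
  13)))))), (.s k195 k130 8 (.s k235 k215 5 (.s k107 k43 7 (.s k106 k104 0 (.s k127 k64 6 (.d k63
  k191 k151 7 13))))))] .n) .n)))) (.c k65 (.q k1 [(.s k3 k2 0 (.s k87 k171 13 (.s k86 k84 0 (.d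
  k169 k253 k252 13 14)))), (.s k169 k253 13 (.s k41 k233 7 (.s k21 k61 5 (.s k63 k42 6 (.s k127
  k191 7 (.s k106 k64 6 (.d k149 k213 k192 7 14)))))))] (.c k169 (.f k3 k2 0 (.q k86 [(.d k87 k171
  k84 13 0), (.s k67 k124 6 (.s k195 k131 7 (.s k150 k60 14 (.d k215 k235 k20 5 8))))] (.c k168 (.l
  (.s k171 k87 13 (.s k67 k124 6 (.s k195 k131 7 (.s k150 k60 14 (.d k215 k235 k20 5 8)))))) (.c
  k171 (.q k168 [(.d k84 k87 k252 0 13), (.s k67 k124 6 (.s k195 k131 7 (.s k215 k235 5 (.d k150 k20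
  k60 8 14))))] .n) .n)))) (.c k253 (.l (.s k3 k2 0 (.s k87 k171 13 (.s k86 k84 0 (.s k67 k124 6 (.s
  k195 k131 7 (.s k150 k60 14 (.d k215 k235 k20 5 8)))))))) .n))) (.c k125 (.q k253 [(.s k169 k1 13
  (.s k252 k254 0 (.s k84 k168 13 (.d k86 k87 k3 0 14)))), (.s k169 k1 13 (.s k233 k41 7 (.s k213
  k193 5 (.s k192 k234 6 (.s k64 k128 7 (.s k106 k127 6 (.d k149 k21 k63 7 14)))))))] (.c k1 (.l (.s
  k252 k254 0 (.s k84 k168 13 (.s k86 k87 0 (.s k124 k67 6 (.s k60 k188 7 (.s k20 k40 5 (.d k150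
  k215 k195 8 14)))))))) (.c k169 (.f k252 k254 0 (.q k86 [(.d k84 k168 k87 13 0), (.s k124 k67 6
  (.s k60 k188 7 (.s k20 k40 5 (.d k150 k215 k195 8 14))))] (.c k168 (.q k171 [(.d k87 k84 k3 0 13),
  (.s k124 k67 6 (.s k60 k188 7 (.s k20 k40 5 (.d k150 k215 k195 8 14))))] .n) (.c k171 (.l (.s k168
  k84 13 (.s k124 k67 6 (.s k60 k188 7 (.s k20 k40 5 (.d k150 k215 k195 8 14)))))) .n)))) .n))) (.c
  k130 (.l (.s k125 k65 5 (.s k60 k190 8 (.s k150 k195 14 (.d k20 k40 k215 5 8))))) (.c k150 (.f k65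
  k125 5 (.q k193 [(.s k1 k129 7 (.s k149 k61 13 (.s k213 k21 7 (.d k253 k233 k169 5 13)))), (.s k1
  k129 7 (.s k3 k2 0 (.s k87 k171 13 (.s k86 k84 0 (.s k67 k124 6 (.d k195 k130 k131 8 7)))))), (.s
  k149 k61 13 (.s k21 k213 7 (.s k63 k42 6 (.s k106 k192 14 (.d k127 k64 k191 6 7)))))] (.c k130 (.q
  k190 [(.s k149 k61 13 (.s k213 k21 7 (.s k253 k233 5 (.d k1 k129 k169 7 13)))), (.s k1 k129 7 (.s
  k3 k2 0 (.s k87 k171 13 (.s k86 k84 0 (.d k169 k253 k252 13 14))))), (.s k149 k61 13 (.s k21 k213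
  7 (.s k63 k42 6 (.s k106 k192 14 (.d k127 k64 k191 6 7)))))] (.c k253 (.l (.s k129 k1 7 (.s k149
  k61 13 (.s k189 k169 5 (.s k21 k213 7 (.s k63 k42 6 (.d k191 k188 k127 0 7))))))) .n)) (.c k190
  (.l (.s k130 k195 8 (.s k1 k129 7 (.s k61 k149 13 (.s k41 k21 5 (.d k169 k233 k253 7 13))))))
  .n)))) (.c k190 (.l (.s k65 k125 5 (.s k195 k130 8 (.s k150 k60 14 (.d k215 k235 k20 5 8))))) (.c
  k195 (.f k65 k125 5 (.q k1 [(.s k3 k2 0 (.s k87 k171 13 (.s k86 k84 0 (.d k169 k253 k252 13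
  14)))), (.s k193 k129 7 (.s k149 k61 13 (.s k21 k213 7 (.s k63 k42 6 (.s k106 k192 14 (.d k127 k64
  k191 6 7))))))] (.c k3 (.l (.s k169 k253 13 (.s k41 k233 7 (.s k61 k21 5 (.d k193 k129 k149 7
  13))))) (.c k75 (.q k135 [(.s k3 k2 0 (.s k87 k171 13 (.s k86 k84 0 (.d k169 k253 k252 13 14)))),
  (.s k193 k129 7 (.s k149 k61 13 (.s k21 k213 7 (.s k63 k42 6 (.s k106 k192 14 (.d k127 k64 k191 6
  7))))))] (.c k3 (.l (.s k169 k253 13 (.s k41 k233 7 (.s k61 k21 5 (.d k193 k129 k149 7 13))))) (.c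
  k253 (.l (.s k3 k2 0 (.s k87 k171 13 (.s k86 k84 0 (.s k67 k124 6 (.s k64 k66 0 (.d k127 k107 k106
  5 6))))))) .n))) (.c k135 (.q k75 [(.s k3 k2 0 (.s k87 k171 13 (.s k86 k84 0 (.d k169 k253 k252 13
  14)))), (.s k193 k129 7 (.s k149 k61 13 (.s k21 k213 7 (.s k63 k42 6 (.s k106 k192 14 (.d k127 k64
  k191 6 7))))))] (.c k3 (.l (.s k169 k253 13 (.s k41 k233 7 (.s k61 k21 5 (.d k193 k129 k149 7
  13))))) (.c k253 (.l (.s k3 k2 0 (.s k87 k171 13 (.s k86 k84 0 (.s k67 k124 6 (.s k64 k66 0 (.d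
  k127 k107 k106 5 6))))))) .n))) (.c k253 (.l (.s k3 k2 0 (.s k87 k171 13 (.s k86 k84 0 (.s k67
  k124 6 (.s k64 k66 0 (.d k127 k107 k106 5 6))))))) .n)))))) (.c k215 (.q k1 [(.s k3 k2 0 (.s k87
  k171 13 (.s k86 k84 0 (.d k169 k253 k252 13 14)))), (.s k65 k125 5 (.s k169 k253 13 (.s k41 k233 7
  (.s k61 k21 5 (.d k193 k129 k149 7 13))))), (.s k3 k2 0 (.s k65 k125 5 (.s k129 k193 7 (.s k66
  k192 8 (.s k67 k64 0 (.d k195 k131 k130 7 8))))))] .n) (.c k235 (.l (.s k125 k65 5 (.s k60 k190 8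
  (.s k20 k40 5 (.d k150 k215 k195 8 14))))) .n))))))))))))

def t15_178 : T TT 256 :=
  (.f k255 k170 14 (.q k105 [(.s k65 k125 5 (.s k195 k130 8 (.s k215 k235 5 (.d k150 k20 k60 8
  14)))), (.s k125 k65 5 (.s k60 k190 8 (.s k150 k195 14 (.d k20 k40 k215 5 8))))] (.c k20 (.q k1
  [(.s k3 k2 0 (.s k87 k171 13 (.s k169 k253 13 (.d k86 k84 k252 0 14)))), (.s k65 k125 5 (.s k169
  k253 13 (.s k41 k233 7 (.s k61 k21 5 (.d k193 k129 k149 7 13))))), (.s k3 k2 0 (.s k65 k125 5 (.s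
  k129 k193 7 (.s k66 k192 8 (.s k67 k64 0 (.d k195 k131 k130 7 8))))))] .n) (.c k60 (.f k65 k125 5
  (.f k195 k130 8 (.f k215 k235 5 (.f k150 k20 8 (.q k146 [(.s k48 k97 12 (.s k154 k158 1 (.d k16
  k32 k223 3 10))), (.s k97 k48 12 (.s k81 k113 3 (.s k243 k162 12 (.d k211 k227 k16 3 8)))), (.s
  k154 k158 1 (.s k223 k16 10 (.s k207 k239 3 (.d k203 k199 k56 1 12))))] (.c k16 (.l (.s k48 k97 12
  (.s k117 k186 10 (.s k101 k69 3 (.d k154 k158 k207 1 14))))) (.c k30 (.q k45 [(.s k48 k97 12 (.s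
  k16 k32 3 (.d k154 k158 k223 1 10))), (.s k48 k97 12 (.s k117 k186 10 (.s k101 k69 3 (.d k154 k158
  k207 1 14)))), (.s k97 k48 12 (.s k81 k113 3 (.s k243 k162 12 (.d k211 k227 k16 3 8)))), (.s k154
  k158 1 (.s k223 k16 10 (.s k207 k239 3 (.d k203 k199 k56 1 12))))] .n) (.c k45 (.q k30 [(.s k48
  k97 12 (.s k154 k158 1 (.d k16 k32 k223 3 10))), (.s k97 k48 12 (.s k81 k113 3 (.s k243 k162 12
  (.d k211 k227 k16 3 8)))), (.s k154 k158 1 (.s k223 k16 10 (.s k207 k239 3 (.d k203 k199 k56 1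
  12))))] (.c k16 (.l (.s k48 k97 12 (.s k117 k186 10 (.s k101 k69 3 (.d k154 k158 k207 1 14)))))
  .n)) .n)))))))) (.c k65 (.q k1 [(.s k3 k2 0 (.s k87 k171 13 (.s k86 k84 0 (.d k169 k253 k252 13
  14)))), (.s k169 k253 13 (.s k41 k233 7 (.s k21 k61 5 (.s k63 k42 6 (.s k127 k191 7 (.s k106 k64 6
  (.d k149 k213 k192 7 14)))))))] (.c k169 (.f k3 k2 0 (.q k86 [(.d k87 k171 k84 13 0), (.s k67 k124
  6 (.s k195 k131 7 (.s k150 k60 14 (.d k215 k235 k20 5 8))))] (.c k168 (.l (.s k171 k87 13 (.s k67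
  k124 6 (.s k195 k131 7 (.s k150 k60 14 (.d k215 k235 k20 5 8)))))) (.c k171 (.q k168 [(.d k84 k87
  k252 0 13), (.s k67 k124 6 (.s k195 k131 7 (.s k215 k235 5 (.d k150 k20 k60 8 14))))] .n) .n))))
  (.c k253 (.l (.s k3 k2 0 (.s k87 k171 13 (.s k86 k84 0 (.s k67 k124 6 (.s k195 k131 7 (.s k150 k60
  14 (.d k215 k235 k20 5 8)))))))) .n))) (.c k125 (.q k253 [(.s k169 k1 13 (.s k252 k254 0 (.s k84
  k168 13 (.d k86 k87 k3 0 14)))), (.s k169 k1 13 (.s k233 k41 7 (.s k213 k193 5 (.s k192 k234 6 (.s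
  k64 k128 7 (.s k106 k127 6 (.d k149 k21 k63 7 14)))))))] (.c k1 (.l (.s k252 k254 0 (.s k84 k168
  13 (.s k86 k87 0 (.s k124 k67 6 (.s k60 k188 7 (.s k20 k40 5 (.d k150 k215 k195 8 14)))))))) (.c
  k169 (.f k252 k254 0 (.q k86 [(.d k84 k168 k87 13 0), (.s k124 k67 6 (.s k60 k188 7 (.s k20 k40 5
  (.d k150 k215 k195 8 14))))] (.c k168 (.q k171 [(.d k87 k84 k3 0 13), (.s k124 k67 6 (.s k60 k188
  7 (.s k20 k40 5 (.d k150 k215 k195 8 14))))] .n) (.c k171 (.l (.s k168 k84 13 (.s k124 k67 6 (.s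
  k60 k188 7 (.s k20 k40 5 (.d k150 k215 k195 8 14)))))) .n)))) .n))) (.c k130 (.l (.s k125 k65 5
  (.s k60 k190 8 (.s k150 k195 14 (.d k20 k40 k215 5 8))))) (.c k150 (.q k154 [(.s k223 k16 10 (.s
  k207 k239 3 (.s k69 k138 10 (.d k101 k117 k48 3 14)))), (.s k65 k125 5 (.s k203 k56 12 (.s k223
  k16 10 (.s k207 k239 3 (.d k195 k130 k199 8 1)))))] (.c k16 (.q k190 [(.d k125 k65 k60 5 8)] (.c
  k60 (.l (.s k65 k125 5 (.s k195 k130 8 (.s k203 k56 12 (.s k207 k199 1 (.s k69 k138 10 (.d k101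
  k48 k117 14 3))))))) (.c k65 (.l (.s k56 k203 12 (.s k60 k125 8 (.s k48 k52 1 (.s k101 k207 14 (.d
  k117 k69 k186 3 10)))))) (.c k125 (.q k8 [(.s k12 k4 1 (.s k56 k203 12 (.s k24 k40 3 (.s k89 k219
  8 (.d k93 k81 k174 1 12))))), (.s k12 k4 1 (.s k56 k203 12 (.s k24 k40 3 (.s k48 k36 5 (.s k101
  k207 14 (.d k117 k69 k186 3 10)))))), (.s k12 k4 1 (.s k93 k174 12 (.s k89 k81 1 (.s k24 k219 8
  (.s k48 k36 5 (.s k101 k207 14 (.d k117 k69 k186 3 10))))))), (.s k56 k203 12 (.s k24 k40 3 (.s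
  k89 k219 8 (.s k81 k93 1 (.s k121 k73 3 (.s k243 k162 12 (.d k251 k247 k186 1 8)))))))] (.c k24
  (.l (.s k12 k4 1 (.s k93 k174 12 (.s k89 k81 1 (.s k73 k121 3 (.d k203 k138 k56 8 12)))))) .n))
  .n)))) (.c k32 (.l (.s k223 k16 10 (.s k207 k239 3 (.s k101 k48 14 (.d k69 k117 k138 3 10))))) (.c
  k101 (.f k223 k16 10 (.q k190 [(.d k125 k65 k60 5 8)] (.c k32 (.l (.s k239 k207 3 (.d k125 k65 k60
  5 8))) (.c k52 (.q k199 [(.d k125 k65 k60 5 8), (.s k203 k56 12 (.d k207 k239 k195 3 1))] (.c k32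
  (.l (.s k239 k207 3 (.d k125 k65 k60 5 8))) (.c k60 (.l (.s k65 k125 5 (.s k195 k130 8 (.d k203
  k207 k56 1 12)))) (.c k239 (.q k32 [(.d k125 k65 k60 5 8), (.s k203 k56 12 (.s k195 k207 1 (.s
  k235 k215 5 (.s k251 k219 3 (.s k243 k247 1 (.s k162 k81 12 (.d k227 k211 k97 3 8)))))))] (.c k60
  (.l (.s k65 k125 5 (.s k195 k130 8 (.d k203 k207 k56 1 12)))) .n)) .n)))) (.c k60 (.l (.s k65 k125
  5 (.s k195 k130 8 (.s k203 k56 12 (.d k207 k199 k239 1 3))))) (.c k65 (.f k56 k203 12 (.l (.s k60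
  k125 8 (.s k20 k40 5 (.s k52 k48 1 (.s k4 k36 3 (.s k12 k8 1 (.s k44 k28 3 (.d k166 k227 k247 10
  12))))))))) (.c k125 (.q k73 [(.s k203 k56 12 (.s k138 k8 8 (.d k207 k239 k69 3 10))), (.s k89
  k121 3 (.s k93 k81 1 (.s k174 k12 12 (.d k158 k142 k28 3 8))))] (.c k32 (.l (.s k239 k207 3 (.s
  k89 k121 3 (.s k93 k81 1 (.s k158 k28 8 (.d k174 k142 k12 3 12)))))) (.c k52 (.q k199 [(.s k203
  k56 12 (.d k207 k239 k195 3 1)), (.s k89 k121 3 (.s k93 k81 1 (.s k158 k28 8 (.d k174 k142 k12 3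
  12))))] (.c k32 (.l (.s k239 k207 3 (.s k89 k121 3 (.s k93 k81 1 (.s k158 k28 8 (.d k174 k142 k12
  3 12)))))) (.c k239 (.q k32 [(.s k203 k56 12 (.s k207 k195 1 (.d k138 k8 k69 8 10))), (.s k89 k121
  3 (.s k93 k81 1 (.s k158 k28 8 (.d k174 k142 k12 3 12))))] .n) .n))) (.c k89 (.l (.s k203 k56 12
  (.s k8 k138 8 (.s k12 k4 1 (.s k195 k134 10 (.d k207 k199 k239 1 3)))))) (.c k199 (.q k52 [(.s
  k203 k56 12 (.s k138 k8 8 (.d k207 k239 k69 3 10))), (.s k89 k121 3 (.s k93 k81 1 (.s k158 k28 8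
  (.d k174 k142 k12 3 12)))), (.s k203 k56 12 (.s k8 k138 8 (.s k12 k4 1 (.s k174 k93 12 (.s k142
  k158 3 (.d k207 k239 k77 3 8))))))] (.c k32 (.l (.s k239 k207 3 (.s k89 k121 3 (.s k93 k81 1 (.s
  k158 k28 8 (.d k174 k142 k12 3 12)))))) (.c k239 (.q k32 [(.s k56 k203 12 (.s k48 k60 1 (.s k186
  k117 10 (.d k121 k89 k251 3 8)))), (.s k203 k56 12 (.s k8 k138 8 (.s k4 k12 1 (.s k36 k20 3 (.s
  k44 k40 1 (.d k166 k227 k247 10 12)))))), (.s k89 k121 3 (.s k93 k81 1 (.s k158 k28 8 (.d k174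
  k142 k12 3 12))))] .n) .n))) (.c k239 (.q k32 [(.s k89 k121 3 (.s k93 k81 1 (.s k158 k28 8 (.d
  k174 k142 k12 3 12)))), (.s k203 k56 12 (.s k8 k138 8 (.s k12 k4 1 (.s k174 k93 12 (.s k142 k158 3
  (.s k195 k134 10 (.d k207 k199 k77 1 8))))))), (.s k89 k121 3 (.s k203 k56 12 (.s k219 k24 8 (.s
  k215 k211 1 (.d k235 k251 k195 3 5)))))] (.c k52 (.q k199 [(.s k203 k56 12 (.s k207 k195 1 (.d
  k138 k8 k69 8 10))), (.s k89 k121 3 (.s k93 k81 1 (.s k158 k28 8 (.d k174 k142 k12 3 12))))] .n)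
  (.c k199 (.q k52 [(.s k56 k203 12 (.s k48 k60 1 (.s k186 k117 10 (.d k121 k89 k251 3 8)))), (.s
  k203 k56 12 (.s k8 k138 8 (.s k4 k12 1 (.s k36 k20 3 (.s k44 k40 1 (.d k166 k227 k247 10 12)))))),
  (.s k89 k121 3 (.s k93 k81 1 (.s k158 k28 8 (.d k174 k142 k12 3 12))))] .n) .n))) .n)))))) (.c
  k199 (.q k52 [(.d k125 k65 k60 5 8), (.s k56 k203 12 (.s k60 k48 1 (.s k20 k40 5 (.s k4 k36 3 (.s
  k12 k8 1 (.s k44 k28 3 (.d k166 k227 k247 10 12)))))))] (.c k32 (.l (.s k239 k207 3 (.d k125 k65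
  k60 5 8))) (.c k60 (.f k65 k125 5 (.l (.s k195 k130 8 (.s k215 k235 5 (.s k219 k211 1 (.s k89 k24
  8 (.s k73 k121 3 (.s k12 k134 10 (.d k93 k81 k174 1 12))))))))) (.c k239 (.q k32 [(.d k125 k65 k60
  5 8), (.s k56 k203 12 (.s k60 k48 1 (.s k20 k40 5 (.s k4 k36 3 (.s k12 k8 1 (.s k28 k44 3 (.d k93
  k174 k158 12 8)))))))] (.c k60 (.f k65 k125 5 (.l (.s k195 k130 8 (.s k215 k235 5 (.s k219 k211 1
  (.s k89 k24 8 (.s k73 k121 3 (.s k12 k134 10 (.d k93 k81 k174 1 12))))))))) .n)) .n)))) (.c k239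
  (.q k32 [(.d k125 k65 k60 5 8)] (.c k52 (.q k199 [(.d k125 k65 k60 5 8), (.s k203 k56 12 (.s k195
  k207 1 (.s k235 k215 5 (.s k251 k219 3 (.s k243 k247 1 (.s k162 k81 12 (.d k227 k211 k97 3
  8)))))))] (.c k60 (.l (.s k65 k125 5 (.s k195 k130 8 (.d k203 k207 k56 1 12)))) .n)) (.c k60 (.f
  k65 k125 5 (.l (.s k195 k130 8 (.s k203 k56 12 (.s k235 k215 5 (.s k251 k219 3 (.s k243 k247 1 (.s
  k162 k81 12 (.d k227 k211 k97 3 8))))))))) (.c k65 (.l (.s k56 k203 12 (.s k60 k125 8 (.s k40 k20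
  5 (.s k24 k8 3 (.s k36 k44 1 (.d k48 k52 k12 1 5))))))) (.c k125 (.q k73 [(.s k89 k121 3 (.s k93
  k81 1 (.s k158 k28 8 (.d k174 k142 k12 3 12)))), (.s k203 k56 12 (.s k8 k138 8 (.s k12 k4 1 (.s
  k174 k93 12 (.s k142 k158 3 (.s k195 k134 10 (.d k207 k199 k77 1 8))))))), (.s k89 k121 3 (.s k203
  k56 12 (.s k219 k24 8 (.s k215 k211 1 (.d k235 k251 k195 3 5)))))] (.c k52 (.q k199 [(.s k203 k56
  12 (.s k207 k195 1 (.d k138 k8 k69 8 10))), (.s k89 k121 3 (.s k93 k81 1 (.s k158 k28 8 (.d k174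
  k142 k12 3 12))))] .n) (.c k199 (.q k52 [(.s k56 k203 12 (.s k48 k60 1 (.s k186 k117 10 (.d k121
  k89 k251 3 8)))), (.s k203 k56 12 (.s k8 k138 8 (.s k4 k12 1 (.s k36 k20 3 (.s k44 k40 1 (.d k166
  k227 k247 10 12)))))), (.s k89 k121 3 (.s k93 k81 1 (.s k158 k28 8 (.d k174 k142 k12 3 12))))] .n)
  .n))) (.c k199 (.q k52 [(.d k125 k65 k60 5 8), (.s k56 k203 12 (.s k60 k48 1 (.s k20 k40 5 (.s k4
  k36 3 (.s k12 k8 1 (.s k28 k44 3 (.d k93 k174 k158 12 8)))))))] (.c k60 (.f k65 k125 5 (.l (.s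
  k195 k130 8 (.s k215 k235 5 (.s k219 k211 1 (.s k89 k24 8 (.s k73 k121 3 (.s k12 k134 10 (.d k93
  k81 k174 1 12))))))))) .n)) .n)))))) .n))))))))) (.c k130 (.q k190 [(.d k125 k65 k60 5 8), (.s k16
  k223 10 (.s k48 k32 3 (.s k101 k207 14 (.d k117 k69 k186 3 10))))] (.c k146 (.q k162 [(.d k125 k65
  k60 5 8), (.s k16 k223 10 (.s k48 k32 3 (.s k101 k207 14 (.d k117 k69 k186 3 10))))] .n) (.c k162
  (.q k146 [(.d k125 k65 k60 5 8), (.s k16 k223 10 (.s k48 k32 3 (.s k97 k195 12 (.d k101 k109 k207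
  1 14))))] (.c k166 (.q k174 [(.d k125 k65 k60 5 8), (.s k16 k223 10 (.s k81 k211 8 (.d k93 k89 k12
  1 12)))] (.c k134 (.q k182 [(.d k125 k65 k60 5 8), (.s k16 k223 10 (.s k81 k211 8 (.d k93 k89 k12
  1 12)))] (.c k138 (.l (.s k142 k158 3 (.d k125 k65 k60 5 8))) (.c k142 (.q k138 [(.d k125 k65 k60
  5 8), (.s k207 k69 10 (.d k223 k239 k16 3 10))] .n) .n))) (.c k182 (.q k134 [(.d k125 k65 k60 5
  8), (.s k16 k223 10 (.s k81 k211 8 (.d k93 k89 k12 1 12)))] .n) .n))) (.c k174 (.q k166 [(.d k125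
  k65 k60 5 8), (.s k16 k223 10 (.s k48 k32 3 (.s k97 k195 12 (.d k101 k109 k207 1 14))))] .n) .n)))
  .n))) (.c k190 (.q k130 [(.d k65 k125 k195 5 8), (.s k16 k223 10 (.s k48 k32 3 (.s k101 k207 14
  (.d k117 k186 k69 10 3))))] (.c k182 (.q k186 [(.d k65 k125 k195 5 8), (.s k16 k223 10 (.d k48 k32
  k117 3 10))] (.c k134 (.q k166 [(.d k65 k125 k195 5 8), (.s k16 k223 10 (.d k48 k32 k117 3 10))]
  .n) (.c k166 (.q k134 [(.d k65 k125 k195 5 8), (.s k16 k223 10 (.d k48 k32 k117 3 10))] (.c k162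
  (.q k174 [(.d k65 k125 k195 5 8), (.s k16 k223 10 (.d k48 k32 k117 3 10))] .n) (.c k174 (.q k162
  [(.d k65 k125 k195 5 8), (.s k16 k223 10 (.d k48 k32 k117 3 10))] (.c k142 (.q k158 [(.d k65 k125
  k195 5 8), (.s k16 k223 10 (.d k48 k32 k117 3 10))] .n) (.c k158 (.l (.s k142 k138 1 (.d k65 k125
  k195 5 8))) .n))) .n))) .n))) (.c k186 (.q k182 [(.d k65 k125 k195 5 8), (.s k223 k16 10 (.s k207
  k239 3 (.s k69 k138 10 (.d k101 k117 k48 3 14))))] .n) .n))) (.c k207 (.l (.s k16 k223 10 (.s k48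
  k32 3 (.s k56 k203 12 (.s k60 k52 1 (.d k125 k65 k190 5 8)))))) (.c k223 (.f k125 k65 5 (.q k186
  [(.s k48 k117 10 (.s k56 k203 12 (.d k60 k190 k52 8 1))), (.s k117 k48 10 (.s k101 k69 3 (.s k109
  k97 1 (.s k77 k93 3 (.d k113 k121 k89 1 5))))), (.s k56 k203 12 (.s k121 k251 8 (.s k89 k73 3 (.s
  k81 k93 1 (.s k243 k162 12 (.d k60 k190 k182 8 10))))))] (.c k130 (.l (.s k190 k60 8 (.s k56 k203
  12 (.s k117 k48 10 (.d k121 k113 k251 1 8))))) (.c k190 (.q k130 [(.s k56 k203 12 (.s k117 k48 10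
  (.d k121 k113 k251 1 8))), (.s k48 k117 10 (.s k32 k16 3 (.s k56 k203 12 (.s k60 k52 1 (.s k40 k20
  5 (.s k24 k8 3 (.d k36 k44 k12 1 5))))))), (.s k117 k48 10 (.s k101 k69 3 (.s k109 k97 1 (.s k77
  k93 3 (.d k113 k121 k89 1 5))))), (.s k56 k203 12 (.s k121 k251 8 (.s k89 k73 3 (.s k93 k81 1 (.s
  k12 k174 12 (.s k8 k4 1 (.d k24 k219 k40 8 3)))))))] .n) .n)))) (.c k239 (.l (.s k16 k223 10 (.s
  k48 k32 3 (.s k101 k207 14 (.d k117 k69 k186 3 10))))) .n))))))))) (.c k190 (.l (.s k65 k125 5 (.s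
  k195 k130 8 (.s k150 k60 14 (.d k215 k235 k20 5 8))))) (.c k195 (.f k65 k125 5 (.q k1 [(.s k3 k2 0
  (.s k87 k171 13 (.s k86 k84 0 (.d k169 k253 k252 13 14)))), (.s k193 k129 7 (.s k149 k61 13 (.s
  k21 k213 7 (.s k63 k42 6 (.s k106 k192 14 (.d k127 k64 k191 6 7))))))] (.c k3 (.l (.s k169 k253 13
  (.s k41 k233 7 (.s k61 k21 5 (.d k193 k129 k149 7 13))))) (.c k75 (.q k135 [(.s k3 k2 0 (.s k87
  k171 13 (.s k86 k84 0 (.d k169 k253 k252 13 14)))), (.s k193 k129 7 (.s k149 k61 13 (.s k21 k213 7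
  (.s k63 k42 6 (.s k106 k192 14 (.d k127 k64 k191 6 7))))))] (.c k3 (.l (.s k169 k253 13 (.s k41
  k233 7 (.s k61 k21 5 (.d k193 k129 k149 7 13))))) (.c k253 (.l (.s k3 k2 0 (.s k87 k171 13 (.s k86
  k84 0 (.s k67 k124 6 (.s k64 k66 0 (.d k127 k107 k106 5 6))))))) .n))) (.c k135 (.q k75 [(.s k3 k2
  0 (.s k87 k171 13 (.s k86 k84 0 (.d k169 k253 k252 13 14)))), (.s k193 k129 7 (.s k149 k61 13 (.s
  k21 k213 7 (.s k63 k42 6 (.s k106 k192 14 (.d k127 k64 k191 6 7))))))] (.c k3 (.l (.s k169 k253 13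
  (.s k41 k233 7 (.s k61 k21 5 (.d k193 k129 k149 7 13))))) (.c k253 (.l (.s k3 k2 0 (.s k87 k171 13
  (.s k86 k84 0 (.s k67 k124 6 (.s k64 k66 0 (.d k127 k107 k106 5 6))))))) .n))) (.c k253 (.l (.s k3
  k2 0 (.s k87 k171 13 (.s k86 k84 0 (.s k67 k124 6 (.s k64 k66 0 (.d k127 k107 k106 5 6)))))))
  .n)))))) (.c k215 (.q k1 [(.s k3 k2 0 (.s k87 k171 13 (.s k86 k84 0 (.d k169 k253 k252 13 14)))),
  (.s k65 k125 5 (.s k169 k253 13 (.s k41 k233 7 (.s k61 k21 5 (.d k193 k129 k149 7 13))))), (.s k3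
  k2 0 (.s k65 k125 5 (.s k129 k193 7 (.s k66 k192 8 (.s k67 k64 0 (.d k195 k131 k130 7 8))))))] .n)
  .n)))))))))))

def t15_179 : T TT 256 :=
  (.f k255 k170 14 (.q k105 [(.s k65 k125 5 (.s k195 k130 8 (.s k215 k235 5 (.d k150 k20 k60 8
  14))))] (.c k20 (.q k1 [(.s k3 k2 0 (.s k87 k171 13 (.s k169 k253 13 (.d k86 k84 k252 0 14)))),
  (.s k65 k125 5 (.s k169 k253 13 (.s k41 k233 7 (.s k61 k21 5 (.d k193 k129 k149 7 13))))), (.s k3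
  k2 0 (.s k65 k125 5 (.s k129 k193 7 (.s k66 k192 8 (.s k67 k64 0 (.d k195 k131 k130 7 8))))))] .n)
  (.c k60 (.f k65 k125 5 (.q k171 [(.s k3 k87 13 (.s k1 k2 0 (.s k169 k253 13 (.s k41 k233 7 (.s k61
  k21 5 (.d k193 k129 k149 7 13)))))), (.s k195 k130 8 (.s k235 k215 5 (.s k107 k43 7 (.s k106 k104
  0 (.s k127 k64 6 (.d k63 k191 k151 7 13))))))] (.c k30 (.q k45 [(.s k3 k87 13 (.s k1 k2 0 (.s k169
  k253 13 (.s k41 k233 7 (.s k61 k21 5 (.d k193 k129 k149 7 13)))))), (.s k195 k130 8 (.s k235 k215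
  5 (.s k107 k43 7 (.s k106 k104 0 (.s k127 k64 6 (.d k63 k191 k151 7 13))))))] .n) (.c k45 (.q k30
  [(.s k3 k87 13 (.s k1 k2 0 (.s k169 k253 13 (.s k41 k233 7 (.s k61 k21 5 (.d k193 k129 k149 7
  13)))))), (.s k195 k130 8 (.s k235 k215 5 (.s k107 k43 7 (.s k106 k104 0 (.s k127 k64 6 (.d k63
  k191 k151 7 13))))))] .n) .n)))) (.c k65 (.q k1 [(.s k3 k2 0 (.s k87 k171 13 (.s k86 k84 0 (.d
  k169 k253 k252 13 14)))), (.s k169 k253 13 (.s k41 k233 7 (.s k21 k61 5 (.s k63 k42 6 (.s k127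
  k191 7 (.s k106 k64 6 (.d k149 k213 k192 7 14)))))))] (.c k169 (.f k3 k2 0 (.q k86 [(.d k87 k171
  k84 13 0), (.s k67 k124 6 (.s k195 k131 7 (.s k150 k60 14 (.d k215 k235 k20 5 8))))] (.c k168 (.l
  (.s k171 k87 13 (.s k67 k124 6 (.s k195 k131 7 (.s k150 k60 14 (.d k215 k235 k20 5 8)))))) (.c
  k171 (.q k168 [(.d k84 k87 k252 0 13), (.s k67 k124 6 (.s k195 k131 7 (.s k215 k235 5 (.d k150 k20
  k60 8 14))))] .n) .n)))) (.c k253 (.l (.s k3 k2 0 (.s k87 k171 13 (.s k86 k84 0 (.s k67 k124 6 (.s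
  k195 k131 7 (.s k150 k60 14 (.d k215 k235 k20 5 8)))))))) .n))) (.c k125 (.q k253 [(.s k169 k1 13
  (.s k252 k254 0 (.s k84 k168 13 (.d k86 k87 k3 0 14)))), (.s k169 k1 13 (.s k233 k41 7 (.s k213
  k193 5 (.s k192 k234 6 (.s k64 k128 7 (.s k106 k127 6 (.d k149 k21 k63 7 14)))))))] (.c k1 (.l (.s
  k252 k254 0 (.s k84 k168 13 (.s k86 k87 0 (.s k124 k67 6 (.s k60 k188 7 (.s k20 k40 5 (.d k150
  k215 k195 8 14)))))))) (.c k169 (.f k252 k254 0 (.q k86 [(.d k84 k168 k87 13 0), (.s k124 k67 6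
  (.s k60 k188 7 (.s k20 k40 5 (.d k150 k215 k195 8 14))))] (.c k168 (.q k171 [(.d k87 k84 k3 0 13),
  (.s k124 k67 6 (.s k60 k188 7 (.s k20 k40 5 (.d k150 k215 k195 8 14))))] .n) (.c k171 (.l (.s k168
  k84 13 (.s k124 k67 6 (.s k60 k188 7 (.s k20 k40 5 (.d k150 k215 k195 8 14)))))) .n)))) .n))) (.c
  k130 (.l (.s k125 k65 5 (.s k60 k190 8 (.s k150 k195 14 (.d k20 k40 k215 5 8))))) (.c k150 (.f k65
  k125 5 (.q k193 [(.s k1 k129 7 (.s k149 k61 13 (.s k213 k21 7 (.d k253 k233 k169 5 13)))), (.s k1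
  k129 7 (.s k3 k2 0 (.s k87 k171 13 (.s k86 k84 0 (.s k67 k124 6 (.d k195 k130 k131 8 7)))))), (.s
  k149 k61 13 (.s k21 k213 7 (.s k63 k42 6 (.s k106 k192 14 (.d k127 k64 k191 6 7)))))] (.c k130 (.q
  k190 [(.s k149 k61 13 (.s k213 k21 7 (.s k253 k233 5 (.d k1 k129 k169 7 13)))), (.s k1 k129 7 (.s
  k3 k2 0 (.s k87 k171 13 (.s k86 k84 0 (.d k169 k253 k252 13 14))))), (.s k149 k61 13 (.s k21 k213
  7 (.s k63 k42 6 (.s k106 k192 14 (.d k127 k64 k191 6 7)))))] (.c k253 (.l (.s k129 k1 7 (.s k149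
  k61 13 (.s k189 k169 5 (.s k21 k213 7 (.s k63 k42 6 (.d k191 k188 k127 0 7))))))) .n)) (.c k190
  (.l (.s k130 k195 8 (.s k1 k129 7 (.s k61 k149 13 (.s k41 k21 5 (.d k169 k233 k253 7 13))))))
  .n)))) (.c k190 (.l (.s k65 k125 5 (.s k195 k130 8 (.s k150 k60 14 (.d k215 k235 k20 5 8))))) (.c
  k195 (.f k65 k125 5 (.q k1 [(.s k3 k2 0 (.s k87 k171 13 (.s k86 k84 0 (.d k169 k253 k252 13
  14)))), (.s k193 k129 7 (.s k149 k61 13 (.s k21 k213 7 (.s k63 k42 6 (.s k106 k192 14 (.d k127 k64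
  k191 6 7))))))] (.c k3 (.l (.s k169 k253 13 (.s k41 k233 7 (.s k61 k21 5 (.d k193 k129 k149 7
  13))))) (.c k75 (.q k135 [(.s k3 k2 0 (.s k87 k171 13 (.s k86 k84 0 (.d k169 k253 k252 13 14)))),
  (.s k193 k129 7 (.s k149 k61 13 (.s k21 k213 7 (.s k63 k42 6 (.s k106 k192 14 (.d k127 k64 k191 6
  7))))))] (.c k3 (.l (.s k169 k253 13 (.s k41 k233 7 (.s k61 k21 5 (.d k193 k129 k149 7 13))))) (.c
  k253 (.l (.s k3 k2 0 (.s k87 k171 13 (.s k86 k84 0 (.s k67 k124 6 (.s k64 k66 0 (.d k127 k107 k106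
  5 6))))))) .n))) (.c k135 (.q k75 [(.s k3 k2 0 (.s k87 k171 13 (.s k86 k84 0 (.d k169 k253 k252 13
  14)))), (.s k193 k129 7 (.s k149 k61 13 (.s k21 k213 7 (.s k63 k42 6 (.s k106 k192 14 (.d k127 k64
  k191 6 7))))))] (.c k3 (.l (.s k169 k253 13 (.s k41 k233 7 (.s k61 k21 5 (.d k193 k129 k149 7
  13))))) (.c k253 (.l (.s k3 k2 0 (.s k87 k171 13 (.s k86 k84 0 (.s k67 k124 6 (.s k64 k66 0 (.d
  k127 k107 k106 5 6))))))) .n))) (.c k253 (.l (.s k3 k2 0 (.s k87 k171 13 (.s k86 k84 0 (.s k67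
  k124 6 (.s k64 k66 0 (.d k127 k107 k106 5 6))))))) .n)))))) (.c k215 (.q k1 [(.s k3 k2 0 (.s k87
  k171 13 (.s k86 k84 0 (.d k169 k253 k252 13 14)))), (.s k65 k125 5 (.s k169 k253 13 (.s k41 k233 7
  (.s k61 k21 5 (.d k193 k129 k149 7 13))))), (.s k3 k2 0 (.s k65 k125 5 (.s k129 k193 7 (.s k66
  k192 8 (.s k67 k64 0 (.d k195 k131 k130 7 8))))))] .n) (.c k235 (.l (.s k125 k65 5 (.s k60 k190 8
  (.s k20 k40 5 (.d k150 k215 k195 8 14))))) .n))))))))))))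

def t15_182 : T TT 256 :=
  (.f k255 k170 14 (.q k102 [(.s k68 k119 4 (.s k204 k136 9 (.s k221 k238 4 (.d k153 k17 k51 9
  14))))] (.c k17 (.q k1 [(.s k3 k2 0 (.s k87 k171 13 (.s k86 k84 0 (.d k169 k253 k252 13 14)))),
  (.s k68 k119 4 (.s k169 k253 13 (.s k204 k136 9 (.s k153 k51 14 (.s k137 k185 3 (.s k69 k205 9 (.d
  k70 k71 k3 0 10))))))), (.s k3 k2 0 (.s k68 k119 4 (.s k204 k136 9 (.s k70 k137 10 (.s k86 k118 3
  (.d k87 k84 k171 0 13))))))] (.c k3 (.l (.s k68 k119 4 (.s k204 k136 9 (.s k221 k238 4 (.s k253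
  k169 13 (.s k205 k237 3 (.s k69 k137 9 (.d k207 k138 k206 10 0)))))))) .n)) (.c k51 (.f k68 k119 4
  (.q k166 [(.s k4 k247 12 (.s k38 k230 7 (.s k55 k21 4 (.d k196 k132 k149 7 12)))), (.s k204 k136 9
  (.s k230 k38 7 (.s k243 k217 6 (.s k81 k162 12 (.d k89 k12 k93 14 1))))), (.s k4 k247 12 (.s k12
  k8 1 (.s k89 k243 14 (.d k93 k81 k174 1 12))))] (.c k27 (.q k39 [(.s k4 k247 12 (.s k38 k230 7 (.s
  k55 k21 4 (.d k196 k132 k149 7 12)))), (.s k38 k230 7 (.s k36 k37 0 (.s k101 k231 8 (.s k100 k103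
  0 (.d k228 k164 k165 7 8))))), (.s k4 k247 12 (.s k12 k8 1 (.s k89 k243 14 (.d k93 k81 k174 1
  12))))] .n) (.c k39 (.q k27 [(.s k4 k247 12 (.s k38 k230 7 (.s k55 k21 4 (.d k196 k132 k149 7
  12)))), (.s k204 k136 9 (.s k230 k38 7 (.s k243 k217 6 (.s k81 k162 12 (.d k89 k12 k93 14 1))))),
  (.s k4 k247 12 (.s k12 k8 1 (.s k89 k243 14 (.d k93 k81 k174 1 12))))] .n) .n)))) (.c k68 (.q k213
  [(.s k149 k21 7 (.s k192 k234 6 (.s k64 k128 7 (.d k106 k127 k63 6 14)))), (.s k149 k21 7 (.s k196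
  k55 12 (.s k247 k230 4 (.s k243 k251 1 (.s k81 k162 12 (.s k89 k93 1 (.d k166 k4 k12 12 14)))))))]
  (.c k21 (.l (.s k192 k234 6 (.s k64 k128 7 (.s k106 k127 6 (.s k98 k110 1 (.s k51 k145 12 (.s k17
  k34 4 (.d k153 k221 k204 9 14)))))))) (.c k149 (.f k192 k234 6 (.q k106 [(.d k64 k128 k127 7 6),
  (.s k98 k110 1 (.s k51 k145 12 (.s k17 k34 4 (.d k153 k221 k204 9 14))))] (.c k128 (.q k191 [(.d
  k127 k64 k63 6 7), (.s k98 k110 1 (.s k51 k145 12 (.s k17 k34 4 (.d k153 k221 k204 9 14))))] .n)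
  (.c k191 (.l (.s k128 k64 7 (.s k98 k110 1 (.s k51 k145 12 (.s k17 k34 4 (.d k153 k221 k204 9
  14)))))) .n)))) .n))) (.c k119 (.q k81 [(.s k89 k93 1 (.s k243 k162 12 (.s k247 k251 1 (.d k166 k4
  k12 12 14)))), (.s k89 k93 1 (.s k115 k76 6 (.s k64 k98 4 (.s k192 k128 7 (.s k213 k234 6 (.s k149
  k21 7 (.d k106 k127 k63 6 14)))))))] (.c k89 (.f k243 k162 12 (.q k166 [(.d k247 k251 k4 1 12),
  (.s k230 k38 7 (.s k204 k217 6 (.s k153 k51 14 (.d k221 k238 k17 4 9))))] (.c k8 (.l (.s k251 k247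
  1 (.s k230 k38 7 (.s k204 k217 6 (.s k153 k51 14 (.d k221 k238 k17 4 9)))))) (.c k251 (.q k8 [(.d
  k4 k12 k247 1 12), (.s k230 k38 7 (.s k204 k217 6 (.s k221 k238 4 (.d k153 k17 k51 9 14))))] .n)
  .n)))) (.c k93 (.l (.s k243 k162 12 (.s k247 k251 1 (.s k166 k4 12 (.s k230 k38 7 (.s k204 k217 6
  (.s k153 k51 14 (.d k221 k238 k17 4 9)))))))) .n))) (.c k136 (.l (.s k119 k68 4 (.s k51 k187 9 (.s
  k153 k204 14 (.d k17 k34 k221 4 9))))) (.c k153 (.f k68 k119 4 (.q k196 [(.s k4 k132 7 (.s k149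
  k55 12 (.s k213 k21 7 (.d k247 k230 k166 4 12)))), (.s k4 k132 7 (.s k12 k8 1 (.s k93 k174 12 (.s
  k89 k81 1 (.s k76 k115 6 (.d k204 k136 k140 9 7)))))), (.s k149 k55 12 (.s k21 k213 7 (.s k63 k42
  6 (.s k106 k192 14 (.d k127 k64 k191 6 7)))))] (.c k136 (.q k187 [(.s k149 k55 12 (.s k213 k21 7
  (.s k247 k230 4 (.d k4 k132 k166 7 12)))), (.s k4 k132 7 (.s k12 k8 1 (.s k93 k174 12 (.s k89 k81
  1 (.d k166 k247 k243 12 14))))), (.s k149 k55 12 (.s k21 k213 7 (.s k63 k42 6 (.s k106 k192 14 (.d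
  k127 k64 k191 6 7)))))] (.c k247 (.l (.s k132 k4 7 (.s k149 k55 12 (.s k183 k166 4 (.s k21 k213 7
  (.s k63 k42 6 (.d k191 k179 k127 1 7))))))) .n)) (.c k187 (.l (.s k136 k204 9 (.s k4 k132 7 (.s
  k55 k149 12 (.s k38 k21 4 (.d k166 k230 k247 7 12)))))) .n)))) (.c k187 (.l (.s k68 k119 4 (.s
  k204 k136 9 (.s k153 k51 14 (.d k221 k238 k17 4 9))))) (.c k204 (.f k68 k119 4 (.q k196 [(.s k4
  k132 7 (.s k149 k55 12 (.s k213 k21 7 (.d k247 k230 k166 4 12)))), (.s k4 k132 7 (.s k12 k8 1 (.s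
  k93 k174 12 (.s k89 k81 1 (.d k166 k247 k243 12 14))))), (.s k149 k55 12 (.s k21 k213 7 (.s k63
  k42 6 (.s k106 k192 14 (.d k127 k64 k191 6 7)))))] (.c k78 (.q k141 [(.s k4 k132 7 (.s k149 k55 12
  (.s k213 k21 7 (.d k247 k230 k166 4 12)))), (.s k4 k132 7 (.s k12 k8 1 (.s k93 k174 12 (.s k89 k81
  1 (.d k166 k247 k243 12 14))))), (.s k149 k55 12 (.s k21 k213 7 (.s k63 k42 6 (.s k106 k192 14 (.d
  k127 k64 k191 6 7)))))] (.c k247 (.l (.s k4 k132 7 (.s k12 k8 1 (.s k55 k149 12 (.s k38 k21 4 (.s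
  k93 k174 12 (.s k89 k81 1 (.d k166 k230 k243 7 14)))))))) .n)) (.c k141 (.q k78 [(.s k4 k132 7 (.s
  k149 k55 12 (.s k213 k21 7 (.d k247 k230 k166 4 12)))), (.s k4 k132 7 (.s k12 k8 1 (.s k93 k174 12
  (.s k89 k81 1 (.d k166 k247 k243 12 14))))), (.s k149 k55 12 (.s k21 k213 7 (.s k63 k42 6 (.s k106
  k192 14 (.d k127 k64 k191 6 7)))))] (.c k247 (.l (.s k4 k132 7 (.s k12 k8 1 (.s k55 k149 12 (.s
  k38 k21 4 (.s k93 k174 12 (.s k89 k81 1 (.d k166 k230 k243 7 14)))))))) .n)) (.c k247 (.l (.s k4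
  k132 7 (.s k12 k8 1 (.s k55 k149 12 (.s k38 k21 4 (.s k93 k174 12 (.s k89 k81 1 (.d k166 k230 k243
  7 14)))))))) .n))))) (.c k221 (.q k1 [(.s k3 k2 0 (.s k87 k171 13 (.s k86 k84 0 (.d k169 k253 k252
  13 14)))), (.s k68 k119 4 (.s k169 k253 13 (.s k204 k136 9 (.s k153 k51 14 (.s k137 k185 3 (.s k70
  k3 10 (.d k69 k205 k71 9 0))))))), (.s k3 k2 0 (.s k68 k119 4 (.s k204 k136 9 (.s k70 k137 10 (.s
  k86 k118 3 (.d k87 k84 k171 0 13))))))] (.c k3 (.l (.s k119 k68 4 (.s k51 k187 9 (.s k17 k34 4 (.s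
  k49 k33 3 (.s k48 k50 0 (.s k117 k186 10 (.d k253 k185 k169 9 13)))))))) .n)) (.c k238 (.l (.s
  k119 k68 4 (.s k51 k187 9 (.s k17 k34 4 (.d k153 k221 k204 9 14))))) .n))))))))))))

def t15_183 : T TT 256 :=
  (.f k255 k170 14 (.q k102 [(.s k68 k119 4 (.s k204 k136 9 (.s k221 k238 4 (.d k153 k17 k51 9
  14)))), (.s k119 k68 4 (.s k51 k187 9 (.s k17 k34 4 (.d k153 k221 k204 9 14))))] (.c k17 (.q k1
  [(.s k3 k2 0 (.s k87 k171 13 (.s k86 k84 0 (.d k169 k253 k252 13 14)))), (.s k68 k119 4 (.s k169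
  k253 13 (.s k204 k136 9 (.s k153 k51 14 (.s k137 k185 3 (.s k69 k205 9 (.d k70 k71 k3 0 10))))))),
  (.s k3 k2 0 (.s k68 k119 4 (.s k204 k136 9 (.s k70 k137 10 (.s k86 k118 3 (.d k87 k84 k171 0
  13))))))] (.c k3 (.l (.s k68 k119 4 (.s k204 k136 9 (.s k221 k238 4 (.s k253 k169 13 (.s k205 k237
  3 (.s k69 k137 9 (.d k207 k138 k206 10 0)))))))) .n)) (.c k51 (.f k68 k119 4 (.q k247 [(.s k166 k4
  12 (.s k243 k251 1 (.s k81 k162 12 (.d k89 k93 k12 1 14)))), (.s k4 k166 12 (.s k196 k132 7 (.s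
  k149 k55 12 (.d k213 k230 k21 4 7)))), (.s k204 k136 9 (.s k238 k221 4 (.s k243 k251 1 (.s k230
  k217 6 (.s k213 k196 4 (.d k234 k226 k192 1 6))))))] (.c k27 (.q k39 [(.s k166 k4 12 (.s k243 k251
  1 (.s k81 k162 12 (.d k89 k93 k12 1 14)))), (.s k4 k166 12 (.s k196 k132 7 (.s k149 k55 12 (.d
  k213 k230 k21 4 7)))), (.s k204 k136 9 (.s k238 k221 4 (.s k243 k251 1 (.s k230 k217 6 (.s k213
  k196 4 (.d k234 k226 k192 1 6))))))] .n) (.c k39 (.q k27 [(.s k166 k4 12 (.s k243 k251 1 (.s k81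
  k162 12 (.d k89 k93 k12 1 14)))), (.s k4 k166 12 (.s k196 k132 7 (.s k149 k55 12 (.d k213 k230 k21
  4 7)))), (.s k204 k136 9 (.s k238 k221 4 (.s k243 k251 1 (.s k230 k217 6 (.s k213 k196 4 (.d k234
  k226 k192 1 6))))))] .n) .n)))) (.c k68 (.q k93 [(.s k12 k174 12 (.s k4 k8 1 (.s k89 k81 1 (.d
  k166 k247 k243 12 14)))), (.s k89 k81 1 (.s k76 k115 6 (.s k127 k110 4 (.s k63 k191 7 (.s k21 k42
  6 (.s k149 k213 7 (.d k106 k64 k192 6 14)))))))] (.c k81 (.l (.s k12 k174 12 (.s k4 k8 1 (.s k166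
  k247 12 (.s k38 k230 7 (.s k51 k25 6 (.s k17 k34 4 (.d k153 k221 k204 9 14)))))))) (.c k89 (.f k12
  k174 12 (.q k166 [(.d k4 k8 k247 1 12), (.s k38 k230 7 (.s k51 k25 6 (.s k17 k34 4 (.d k153 k221
  k204 9 14))))] (.c k8 (.q k251 [(.d k247 k243 k4 1 12), (.s k38 k230 7 (.s k51 k25 6 (.s k17 k34 4
  (.d k153 k221 k204 9 14))))] .n) (.c k251 (.l (.s k8 k4 1 (.s k38 k230 7 (.s k51 k25 6 (.s k17 k34
  4 (.d k153 k221 k204 9 14)))))) .n)))) .n))) (.c k119 (.q k166 [(.s k247 k4 12 (.s k243 k251 1 (.s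
  k81 k162 12 (.d k89 k93 k12 1 14)))), (.s k230 k38 7 (.s k247 k4 12 (.s k213 k196 4 (.s k192 k234
  6 (.s k64 k128 7 (.s k106 k127 6 (.d k149 k21 k63 7 14)))))))] (.c k4 (.q k247 [(.s k243 k251 1
  (.s k81 k162 12 (.d k89 k93 k12 1 14))), (.s k230 k38 7 (.s k213 k196 4 (.s k192 k234 6 (.s k64
  k128 7 (.s k106 k127 6 (.d k149 k21 k63 7 14))))))] .n) (.c k55 (.l (.s k247 k4 12 (.s k243 k251 1
  (.s k81 k162 12 (.d k89 k93 k12 1 14))))) (.c k247 (.q k55 [(.s k38 k230 7 (.s k21 k4 4 (.d k149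
  k213 k196 7 12))), (.s k149 k196 12 (.s k213 k21 7 (.s k192 k234 6 (.s k64 k128 7 (.d k106 k127
  k63 6 14)))))] (.c k21 (.q k4 [(.s k12 k8 1 (.s k93 k174 12 (.d k89 k81 k243 1 14))), (.s k196
  k149 12 (.s k68 k132 7 (.s k204 k136 9 (.s k153 k51 14 (.d k221 k238 k17 4 9)))))] .n) (.c k149
  (.l (.s k38 k230 7 (.s k4 k21 4 (.s k12 k8 1 (.s k89 k243 14 (.d k93 k81 k174 1 12)))))) (.c k196
  (.q k21 [(.d k38 k230 k4 7 4), (.s k63 k42 6 (.s k51 k59 1 (.s k153 k204 14 (.d k17 k34 k221 4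
  9))))] (.c k213 (.l (.s k230 k38 7 (.s k63 k42 6 (.s k51 k59 1 (.s k153 k204 14 (.d k17 k34 k221 4
  9)))))) (.c k230 (.l (.s k213 k149 7 (.s k4 k38 4 (.s k12 k8 1 (.s k89 k243 14 (.d k93 k81 k174 1
  12)))))) .n))) (.c k213 (.l (.s k38 k230 7 (.s k196 k149 12 (.s k4 k21 4 (.s k12 k8 1 (.s k89 k243
  14 (.d k93 k81 k174 1 12))))))) (.c k230 (.l (.s k149 k196 12 (.s k213 k21 7 (.s k192 k234 6 (.s
  k64 k128 7 (.d k106 k127 k63 6 14)))))) .n)))))) .n)))) (.c k136 (.l (.s k119 k68 4 (.s k51 k187 9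
  (.s k153 k204 14 (.d k17 k34 k221 4 9))))) (.c k153 (.f k68 k119 4 (.q k4 [(.s k12 k8 1 (.s k93
  k174 12 (.s k89 k81 1 (.d k166 k247 k243 12 14)))), (.s k196 k132 7 (.s k55 k149 12 (.s k166 k247
  12 (.d k38 k21 k230 4 7))))] (.c k55 (.l (.s k247 k166 12 (.s k12 k8 1 (.s k132 k196 7 (.s k72
  k192 9 (.s k76 k64 1 (.d k204 k140 k136 7 9))))))) (.c k136 (.q k187 [(.s k12 k8 1 (.s k93 k174 12
  (.s k89 k81 1 (.d k166 k247 k243 12 14)))), (.s k196 k132 7 (.s k55 k149 12 (.s k166 k247 12 (.d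
  k38 k21 k230 4 7))))] (.c k55 (.l (.s k247 k166 12 (.s k12 k8 1 (.s k132 k196 7 (.s k72 k192 9 (.s
  k76 k64 1 (.s k89 k115 6 (.d k93 k81 k174 1 12)))))))) (.c k166 (.l (.s k12 k8 1 (.s k132 k196 7
  (.s k72 k192 9 (.s k76 k64 1 (.s k89 k115 6 (.d k93 k81 k174 1 12))))))) (.c k247 (.q k55 [(.d
  k196 k132 k149 7 12), (.s k12 k8 1 (.s k38 k21 4 (.s k93 k174 12 (.s k89 k81 1 (.d k166 k230 k243
  7 14)))))] .n) .n)))) (.c k166 (.l (.s k12 k8 1 (.s k132 k196 7 (.s k72 k192 9 (.s k76 k64 1 (.d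
  k204 k140 k136 7 9)))))) (.c k187 (.l (.s k136 k204 9 (.s k12 k8 1 (.s k93 k174 12 (.s k89 k81 1
  (.d k166 k247 k243 12 14)))))) (.c k247 (.q k55 [(.d k196 k132 k149 7 12), (.s k12 k8 1 (.s k38
  k21 4 (.s k93 k174 12 (.s k89 k81 1 (.d k166 k230 k243 7 14)))))] (.c k136 (.q k187 [(.d k196 k132
  k149 7 12), (.s k12 k8 1 (.s k38 k21 4 (.s k93 k174 12 (.s k89 k81 1 (.d k166 k230 k243 7 14)))))]
  .n) (.c k187 (.l (.s k136 k204 9 (.d k196 k132 k149 7 12))) .n))) .n))))))) (.c k187 (.l (.s k68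
  k119 4 (.s k204 k136 9 (.s k153 k51 14 (.d k221 k238 k17 4 9))))) (.c k204 (.f k119 k68 4 (.q k101
  [(.s k69 k117 3 (.s k207 k138 10 (.s k223 k239 3 (.d k154 k16 k48 10 14)))), (.s k103 k100 0 (.s
  k71 k87 3 (.s k116 k86 4 (.d k117 k118 k69 0 3)))), (.s k51 k187 9 (.s k103 k100 0 (.s k207 k155
  13 (.s k223 k239 3 (.d k154 k48 k16 14 10)))))] (.c k48 (.l (.s k51 k187 9 (.s k69 k117 3 (.s k207
  k138 10 (.d k103 k100 k155 0 13))))) (.c k78 (.q k141 [(.s k69 k117 3 (.s k207 k138 10 (.s k223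
  k239 3 (.d k154 k16 k48 10 14)))), (.s k103 k100 0 (.s k71 k87 3 (.s k116 k86 4 (.d k117 k118 k69
  0 3)))), (.s k51 k187 9 (.s k103 k100 0 (.s k207 k155 13 (.s k223 k239 3 (.d k154 k48 k16 14
  10)))))] (.c k48 (.l (.s k51 k187 9 (.s k69 k117 3 (.s k207 k138 10 (.d k103 k100 k155 0 13)))))
  .n)) (.c k141 (.q k78 [(.s k69 k117 3 (.s k207 k138 10 (.s k223 k239 3 (.d k154 k16 k48 10 14)))),
  (.s k103 k100 0 (.s k71 k87 3 (.s k116 k86 4 (.d k117 k118 k69 0 3)))), (.s k51 k187 9 (.s k103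
  k100 0 (.s k207 k155 13 (.s k223 k239 3 (.d k154 k48 k16 14 10)))))] (.c k48 (.l (.s k51 k187 9
  (.s k69 k117 3 (.s k207 k138 10 (.d k103 k100 k155 0 13))))) .n)) .n))))) (.c k221 (.q k1 [(.s k3
  k2 0 (.s k87 k171 13 (.s k86 k84 0 (.d k169 k253 k252 13 14)))), (.s k68 k119 4 (.s k169 k253 13
  (.s k204 k136 9 (.s k153 k51 14 (.s k137 k185 3 (.s k70 k3 10 (.d k69 k205 k71 9 0))))))), (.s k3
  k2 0 (.s k68 k119 4 (.s k204 k136 9 (.s k70 k137 10 (.s k86 k118 3 (.d k87 k84 k171 0 13))))))]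
  (.c k3 (.l (.s k119 k68 4 (.s k51 k187 9 (.s k17 k34 4 (.s k49 k33 3 (.s k48 k50 0 (.s k117 k186
  10 (.d k253 k185 k169 9 13)))))))) .n)) .n)))))))))))

def t15_186 : T TT 256 :=
  (.q k86 [(.s k84 k87 0 (.s k252 k168 13 (.s k3 k169 14 (.s k2 k1 0 (.d k170 k254 k255 13 14)))))]
  (.c k1 (.q k4 [(.s k84 k87 0 (.s k166 k247 12 (.s k6 k246 11 (.s k7 k5 0 (.d k244 k164 k165 11
  12))))), (.s k12 k8 1 (.s k166 k247 12 (.s k170 k255 14 (.s k162 k174 1 (.d k243 k81 k89 12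
  14))))), (.s k12 k8 1 (.s k84 k87 0 (.s k164 k244 11 (.s k88 k240 13 (.s k92 k80 1 (.d k252 k172
  k168 11 13))))))] .n) (.c k2 (.l (.s k84 k87 0 (.s k252 k168 13 (.s k169 k3 14 (.s k253 k1 13 (.d
  k255 k254 k170 0 14)))))) (.c k3 (.f k87 k84 0 (.q k42 [(.s k63 k21 6 (.s k170 k255 14 (.s k106
  k234 7 (.s k64 k127 6 (.d k192 k128 k149 7 14))))), (.s k21 k63 6 (.s k149 k213 7 (.s k23 k212 8
  (.s k20 k22 0 (.d k215 k151 k150 7 8))))), (.s k170 k255 14 (.s k2 k254 13 (.s k62 k22 5 (.s k106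
  k234 7 (.s k66 k126 5 (.d k194 k130 k150 7 13))))))] (.c k7 (.q k11 [(.s k63 k21 6 (.s k170 k255
  14 (.s k106 k234 7 (.s k64 k127 6 (.d k192 k128 k149 7 14))))), (.s k21 k63 6 (.s k149 k213 7 (.s
  k23 k212 8 (.s k20 k22 0 (.d k215 k151 k150 7 8))))), (.s k170 k255 14 (.s k2 k254 13 (.s k62 k22
  5 (.s k106 k234 7 (.s k66 k126 5 (.d k194 k130 k150 7 13))))))] (.c k213 (.l (.s k63 k21 6 (.s
  k170 k255 14 (.s k106 k234 7 (.s k192 k149 14 (.d k64 k127 k128 6 7)))))) .n)) (.c k11 (.q k7 [(.s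
  k165 k244 12 (.s k5 k245 11 (.s k4 k6 0 (.d k247 k167 k166 11 12)))), (.s k21 k63 6 (.s k149 k213
  7 (.s k23 k212 8 (.s k20 k22 0 (.d k215 k151 k150 7 8)))))] .n) (.c k213 (.l (.s k63 k21 6 (.s
  k170 k255 14 (.s k106 k234 7 (.s k192 k149 14 (.d k64 k127 k128 6 7)))))) .n))))) (.c k84 (.q k12
  [(.s k4 k8 1 (.s k166 k247 12 (.s k89 k243 14 (.s k93 k81 1 (.d k255 k174 k170 12 14))))), (.s k4
  k8 1 (.s k166 k247 12 (.s k6 k246 11 (.s k3 k9 2 (.s k1 k2 0 (.d k169 k253 k252 13 14)))))), (.s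
  k170 k255 14 (.s k2 k254 13 (.s k3 k1 0 (.s k6 k9 2 (.s k166 k246 11 (.s k162 k174 1 (.d k243 k81
  k89 12 14)))))))] (.c k166 (.l (.s k8 k4 1 (.s k170 k255 14 (.s k2 k254 13 (.s k3 k1 0 (.s k9 k6 2
  (.s k89 k251 12 (.d k169 k252 k249 14 11)))))))) .n)) (.c k87 (.q k12 [(.s k4 k8 1 (.s k166 k247
  12 (.s k89 k243 14 (.s k93 k81 1 (.d k255 k174 k170 12 14))))), (.s k4 k8 1 (.s k166 k247 12 (.s
  k6 k246 11 (.s k3 k9 2 (.s k1 k2 0 (.d k169 k253 k252 13 14)))))), (.s k170 k255 14 (.s k2 k254 13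
  (.s k3 k1 0 (.s k6 k9 2 (.s k166 k246 11 (.s k162 k174 1 (.d k243 k81 k89 12 14)))))))] (.c k166
  (.l (.s k8 k4 1 (.s k170 k255 14 (.s k2 k254 13 (.s k3 k1 0 (.s k9 k6 2 (.s k89 k251 12 (.d k169
  k252 k249 14 11)))))))) .n)) (.c k168 (.l (.s k87 k84 0 (.s k255 k170 14 (.s k3 k171 13 (.s k169
  k252 14 (.d k1 k2 k253 0 13)))))) (.c k169 (.q k4 [(.s k84 k87 0 (.s k166 k247 12 (.s k6 k246 11
  (.s k7 k5 0 (.d k244 k164 k165 11 12))))), (.s k12 k8 1 (.s k166 k247 12 (.s k170 k255 14 (.s k162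
  k174 1 (.d k243 k81 k89 12 14))))), (.s k12 k8 1 (.s k84 k87 0 (.s k164 k244 11 (.s k88 k240 13
  (.s k92 k80 1 (.d k252 k172 k168 11 13))))))] .n) (.c k170 (.q k154 [(.s k16 k223 10 (.s k18 k222
  9 (.s k19 k17 0 (.s k84 k87 0 (.d k220 k152 k153 9 10))))), (.s k84 k87 0 (.s k222 k18 9 (.s k252
  k168 13 (.s k207 k237 4 (.s k69 k138 10 (.d k101 k117 k48 3 14)))))), (.s k16 k223 10 (.s k48 k32
  3 (.s k84 k87 0 (.s k101 k207 14 (.s k116 k71 4 (.d k252 k184 k168 9 13)))))), (.s k16 k223 10 (.s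
  k18 k222 9 (.s k48 k32 3 (.s k3 k33 4 (.s k1 k2 0 (.d k169 k253 k252 13 14))))))] .n) (.c k171 (.l
  (.s k84 k87 0 (.s k252 k168 13 (.s k3 k169 14 (.s k170 k255 14 (.d k2 k1 k254 0 13)))))) (.c k252
  (.f k84 k87 0 (.q k60 [(.s k20 k40 5 (.s k212 k148 7 (.s k23 k149 8 (.s k150 k215 8 (.d k22 k21
  k214 0 7))))), (.s k255 k170 14 (.s k125 k190 8 (.s k105 k65 5 (.s k124 k67 6 (.s k64 k104 5 (.d
  k127 k126 k106 0 6))))))] (.c k94 (.q k173 [(.s k20 k40 5 (.s k212 k148 7 (.s k23 k149 8 (.s k150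
  k215 8 (.d k22 k21 k214 0 7))))), (.s k255 k170 14 (.s k125 k190 8 (.s k105 k65 5 (.s k124 k67 6
  (.s k64 k104 5 (.d k127 k126 k106 0 6))))))] (.c k150 (.l (.s k40 k20 5 (.s k170 k255 14 (.s k105
  k235 8 (.s k124 k67 6 (.s k64 k104 5 (.s k125 k65 5 (.d k127 k126 k106 0 6)))))))) .n)) (.c k150
  (.l (.s k40 k20 5 (.s k170 k255 14 (.s k105 k235 8 (.s k124 k67 6 (.s k64 k104 5 (.s k125 k65 5
  (.d k127 k126 k106 0 6)))))))) (.c k173 (.q k94 [(.s k20 k40 5 (.s k212 k148 7 (.s k23 k149 8 (.s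
  k150 k215 8 (.d k22 k21 k214 0 7))))), (.s k90 k82 1 (.s k170 k255 14 (.s k250 k10 11 (.s k254 k2
  13 (.s k14 k174 11 (.d k242 k246 k166 1 13))))))] .n) .n))))) (.c k254 (.l (.s k87 k84 0 (.s k255
  k170 14 (.s k3 k171 13 (.s k1 k2 0 (.d k169 k253 k252 13 14)))))) (.c k255 (.q k48 [(.s k16 k32 3
  (.s k87 k84 0 (.s k223 k154 10 (.s k19 k155 9 (.s k17 k18 0 (.d k153 k221 k220 9 10)))))), (.s k84
  k87 0 (.s k252 k168 13 (.s k116 k184 9 (.s k101 k71 4 (.s k69 k117 3 (.d k207 k138 k154 10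
  14)))))), (.s k16 k32 3 (.s k154 k223 10 (.s k18 k222 9 (.s k3 k33 4 (.s k1 k2 0 (.d k169 k253
  k252 13 14))))))] (.c k95 (.q k175 [(.s k16 k32 3 (.s k87 k84 0 (.s k223 k154 10 (.s k19 k155 9
  (.s k17 k18 0 (.d k153 k221 k220 9 10)))))), (.s k84 k87 0 (.s k252 k168 13 (.s k116 k184 9 (.s
  k101 k71 4 (.s k69 k117 3 (.d k207 k138 k154 10 14)))))), (.s k16 k32 3 (.s k154 k223 10 (.s k18
  k222 9 (.s k3 k33 4 (.s k1 k2 0 (.d k169 k253 k252 13 14))))))] (.c k154 (.l (.s k16 k32 3 (.s k84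
  k87 0 (.s k152 k220 9 (.s k100 k204 13 (.s k116 k68 3 (.d k252 k184 k168 9 13))))))) .n)) (.c k154
  (.l (.s k16 k32 3 (.s k84 k87 0 (.s k152 k220 9 (.s k100 k204 13 (.s k116 k68 3 (.d k252 k184 k168
  9 13))))))) (.c k175 (.q k95 [(.s k87 k84 0 (.s k83 k91 1 (.s k90 k80 2 (.s k92 k89 2 (.d k94 k93
  k82 0 1))))), (.s k16 k32 3 (.s k84 k87 0 (.s k152 k220 9 (.s k100 k204 13 (.s k116 k68 3 (.d k252
  k184 k168 9 13)))))), (.s k16 k32 3 (.s k80 k90 2 (.s k144 k208 7 (.s k96 k192 11 (.s k112 k64 3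
  (.d k240 k176 k160 7 11))))))] .n) .n)))) .n)))))))))))))

def t15_187 : T TT 256 :=
  (.q k86 [(.s k84 k87 0 (.s k252 k168 13 (.s k3 k169 14 (.s k2 k1 0 (.d k170 k254 k255 13 14)))))]
  (.c k1 (.q k4 [(.s k84 k87 0 (.s k166 k247 12 (.s k6 k246 11 (.s k7 k5 0 (.d k244 k164 k165 11
  12))))), (.s k12 k8 1 (.s k166 k247 12 (.s k170 k255 14 (.s k162 k174 1 (.d k243 k81 k89 12
  14))))), (.s k12 k8 1 (.s k84 k87 0 (.s k164 k244 11 (.s k88 k240 13 (.s k92 k80 1 (.d k252 k172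
  k168 11 13))))))] .n) (.c k2 (.l (.s k84 k87 0 (.s k252 k168 13 (.s k169 k3 14 (.s k253 k1 13 (.d
  k255 k254 k170 0 14)))))) (.c k3 (.f k87 k84 0 (.f k255 k170 14 (.q k153 [(.s k221 k17 9 (.s k204
  k238 4 (.s k68 k136 9 (.d k102 k119 k51 4 14)))), (.s k19 k220 10 (.s k223 k155 9 (.s k207 k239 3
  (.s k69 k138 10 (.s k101 k117 3 (.d k154 k16 k48 10 14))))))] (.c k7 (.q k11 [(.s k221 k17 9 (.s
  k204 k238 4 (.s k68 k136 9 (.d k102 k119 k51 4 14)))), (.s k19 k220 10 (.s k223 k155 9 (.s k207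
  k239 3 (.s k69 k138 10 (.s k101 k117 3 (.d k154 k16 k48 10 14))))))] .n) (.c k11 (.q k7 [(.s k17
  k221 9 (.s k19 k220 10 (.s k16 k18 0 (.d k223 k155 k154 9 10)))), (.s k165 k244 12 (.s k5 k245 11
  (.s k4 k6 0 (.d k247 k167 k166 11 12))))] .n) .n))))) (.c k84 (.q k12 [(.s k4 k8 1 (.s k166 k247
  12 (.s k89 k243 14 (.s k93 k81 1 (.d k255 k174 k170 12 14))))), (.s k4 k8 1 (.s k166 k247 12 (.s
  k6 k246 11 (.s k3 k9 2 (.s k1 k2 0 (.d k169 k253 k252 13 14)))))), (.s k170 k255 14 (.s k2 k254 13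
  (.s k3 k1 0 (.s k6 k9 2 (.s k166 k246 11 (.s k162 k174 1 (.d k243 k81 k89 12 14)))))))] (.c k166
  (.l (.s k8 k4 1 (.s k170 k255 14 (.s k2 k254 13 (.s k3 k1 0 (.s k9 k6 2 (.s k89 k251 12 (.d k169
  k252 k249 14 11)))))))) .n)) (.c k87 (.q k12 [(.s k4 k8 1 (.s k166 k247 12 (.s k89 k243 14 (.s k93
  k81 1 (.d k255 k174 k170 12 14))))), (.s k4 k8 1 (.s k166 k247 12 (.s k6 k246 11 (.s k3 k9 2 (.s
  k1 k2 0 (.d k169 k253 k252 13 14)))))), (.s k170 k255 14 (.s k2 k254 13 (.s k3 k1 0 (.s k6 k9 2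
  (.s k166 k246 11 (.s k162 k174 1 (.d k243 k81 k89 12 14)))))))] (.c k166 (.l (.s k8 k4 1 (.s k170
  k255 14 (.s k2 k254 13 (.s k3 k1 0 (.s k9 k6 2 (.s k89 k251 12 (.d k169 k252 k249 14 11))))))))
  .n)) (.c k168 (.l (.s k87 k84 0 (.s k255 k170 14 (.s k3 k171 13 (.s k169 k252 14 (.d k1 k2 k253 0
  13)))))) (.c k169 (.q k4 [(.s k84 k87 0 (.s k166 k247 12 (.s k6 k246 11 (.s k7 k5 0 (.d k244 k164
  k165 11 12))))), (.s k12 k8 1 (.s k166 k247 12 (.s k170 k255 14 (.s k162 k174 1 (.d k243 k81 k89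
  12 14))))), (.s k12 k8 1 (.s k84 k87 0 (.s k164 k244 11 (.s k88 k240 13 (.s k92 k80 1 (.d k252
  k172 k168 11 13))))))] .n) (.c k170 (.q k153 [(.s k17 k221 9 (.s k19 k220 10 (.s k16 k18 0 (.s k87
  k84 0 (.d k223 k155 k154 9 10))))), (.s k17 k221 9 (.s k51 k34 4 (.s k84 k87 0 (.s k102 k204 14
  (.s k118 k70 3 (.d k252 k185 k168 10 13)))))), (.s k17 k221 9 (.s k19 k220 10 (.s k51 k34 4 (.s k3
  k35 3 (.s k1 k2 0 (.d k169 k253 k252 13 14)))))), (.s k84 k87 0 (.s k220 k19 10 (.s k252 k168 13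
  (.s k204 k236 3 (.s k68 k136 9 (.d k102 k119 k51 4 14))))))] .n) (.c k171 (.l (.s k84 k87 0 (.s
  k252 k168 13 (.s k3 k169 14 (.s k170 k255 14 (.d k2 k1 k254 0 13)))))) (.c k252 (.f k87 k84 0 (.f
  k255 k170 14 (.q k153 [(.s k221 k17 9 (.s k204 k238 4 (.s k68 k136 9 (.d k102 k119 k51 4 14)))),
  (.s k19 k220 10 (.s k223 k155 9 (.s k207 k239 3 (.s k69 k138 10 (.s k101 k117 3 (.d k154 k16 k48
  10 14))))))] (.c k94 (.q k173 [(.s k221 k17 9 (.s k204 k238 4 (.s k68 k136 9 (.d k102 k119 k51 4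
  14)))), (.s k19 k220 10 (.s k223 k155 9 (.s k207 k239 3 (.s k69 k138 10 (.s k101 k117 3 (.d k154
  k16 k48 10 14))))))] (.c k204 (.l (.s k3 k171 13 (.s k17 k221 9 (.s k51 k34 4 (.d k19 k35 k220 3
  10))))) .n)) (.c k173 (.q k94 [(.s k17 k221 9 (.s k19 k220 10 (.s k16 k18 0 (.d k223 k155 k154 9
  10)))), (.s k90 k82 1 (.s k95 k80 2 (.s k83 k91 1 (.d k92 k93 k89 0 2))))] .n) (.c k204 (.l (.s k3
  k171 13 (.s k17 k221 9 (.s k51 k34 4 (.d k19 k35 k220 3 10))))) .n)))))) (.c k254 (.l (.s k87 k84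
  0 (.s k255 k170 14 (.s k3 k171 13 (.s k1 k2 0 (.d k169 k253 k252 13 14)))))) (.c k255 (.q k51 [(.s
  k17 k34 4 (.s k84 k87 0 (.s k153 k221 9 (.s k204 k102 14 (.s k252 k168 13 (.d k220 k236 k19 3
  10)))))), (.s k84 k87 0 (.s k252 k168 13 (.s k118 k185 10 (.s k102 k70 3 (.s k68 k119 4 (.d k204
  k136 k153 9 14)))))), (.s k17 k34 4 (.s k87 k84 0 (.s k153 k221 9 (.s k19 k220 10 (.s k16 k18 0
  (.d k223 k155 k154 9 10)))))), (.s k17 k34 4 (.s k153 k221 9 (.s k19 k220 10 (.s k3 k35 3 (.s k1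
  k2 0 (.d k169 k253 k252 13 14))))))] (.c k95 (.q k175 [(.s k17 k34 4 (.s k87 k84 0 (.s k153 k221 9
  (.s k19 k220 10 (.s k16 k18 0 (.d k223 k155 k154 9 10)))))), (.s k84 k87 0 (.s k252 k168 13 (.s
  k118 k185 10 (.s k102 k70 3 (.s k68 k119 4 (.d k204 k136 k153 9 14)))))), (.s k17 k34 4 (.s k153
  k221 9 (.s k19 k220 10 (.s k3 k35 3 (.s k1 k2 0 (.d k169 k253 k252 13 14))))))] (.c k153 (.f k17
  k34 4 (.l (.s k84 k87 0 (.s k252 k168 13 (.s k3 k169 14 (.s k1 k2 0 (.s k19 k35 3 (.s k18 k16 0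
  (.d k33 k49 k48 3 4))))))))) (.c k204 (.l (.s k17 k34 4 (.s k84 k87 0 (.s k252 k168 13 (.s k3 k169
  14 (.s k19 k35 3 (.d k153 k221 k220 9 10))))))) .n))) (.c k153 (.f k17 k34 4 (.l (.s k84 k87 0 (.s
  k252 k168 13 (.s k3 k169 14 (.s k1 k2 0 (.s k19 k35 3 (.s k18 k16 0 (.d k33 k49 k48 3 4)))))))))
  (.c k175 (.q k95 [(.s k87 k84 0 (.s k83 k91 1 (.s k90 k80 2 (.s k92 k89 2 (.d k94 k93 k82 0
  1))))), (.s k17 k34 4 (.s k153 k221 9 (.s k19 k220 10 (.s k3 k35 3 (.s k1 k2 0 (.d k169 k253 k252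
  13 14))))))] .n) (.c k204 (.l (.s k17 k34 4 (.s k84 k87 0 (.s k252 k168 13 (.s k3 k169 14 (.s k19
  k35 3 (.d k153 k221 k220 9 10))))))) .n))))) .n)))))))))))))

def t15_191 : T TT 256 :=
  (.q k86 [(.s k84 k87 0 (.s k252 k168 13 (.s k3 k169 14 (.s k2 k1 0 (.d k170 k254 k255 13 14)))))]
  (.c k1 (.q k4 [(.s k84 k87 0 (.s k166 k247 12 (.s k6 k246 11 (.s k7 k5 0 (.d k244 k164 k165 11
  12))))), (.s k12 k8 1 (.s k166 k247 12 (.s k170 k255 14 (.s k162 k174 1 (.d k243 k81 k89 12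
  14))))), (.s k12 k8 1 (.s k84 k87 0 (.s k164 k244 11 (.s k88 k240 13 (.s k92 k80 1 (.d k252 k172
  k168 11 13))))))] .n) (.c k2 (.l (.s k84 k87 0 (.s k252 k168 13 (.s k169 k3 14 (.s k253 k1 13 (.d
  k255 k254 k170 0 14)))))) (.c k3 (.f k87 k84 0 (.f k255 k170 14 (.q k149 [(.s k213 k21 7 (.s k192
  k234 6 (.s k64 k128 7 (.d k106 k127 k63 6 14)))), (.s k23 k212 8 (.s k215 k151 7 (.s k195 k235 5
  (.s k65 k130 8 (.s k105 k125 5 (.d k150 k20 k60 8 14))))))] (.c k7 (.q k11 [(.s k213 k21 7 (.s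
  k192 k234 6 (.s k64 k128 7 (.d k106 k127 k63 6 14)))), (.s k23 k212 8 (.s k215 k151 7 (.s k195
  k235 5 (.s k65 k130 8 (.s k105 k125 5 (.d k150 k20 k60 8 14))))))] .n) (.c k11 (.q k7 [(.s k21
  k213 7 (.s k23 k212 8 (.s k20 k22 0 (.d k215 k151 k150 7 8)))), (.s k165 k244 12 (.s k5 k245 11
  (.s k4 k6 0 (.d k247 k167 k166 11 12))))] .n) .n))))) (.c k84 (.q k12 [(.s k4 k8 1 (.s k166 k247
  12 (.s k89 k243 14 (.s k93 k81 1 (.d k255 k174 k170 12 14))))), (.s k4 k8 1 (.s k166 k247 12 (.s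
  k6 k246 11 (.s k3 k9 2 (.s k1 k2 0 (.d k169 k253 k252 13 14)))))), (.s k170 k255 14 (.s k2 k254 13
  (.s k3 k1 0 (.s k6 k9 2 (.s k166 k246 11 (.s k162 k174 1 (.d k243 k81 k89 12 14)))))))] (.c k166
  (.l (.s k8 k4 1 (.s k170 k255 14 (.s k2 k254 13 (.s k3 k1 0 (.s k9 k6 2 (.s k89 k251 12 (.d k169
  k252 k249 14 11)))))))) .n)) (.c k87 (.q k12 [(.s k4 k8 1 (.s k166 k247 12 (.s k89 k243 14 (.s k93
  k81 1 (.d k255 k174 k170 12 14))))), (.s k4 k8 1 (.s k166 k247 12 (.s k6 k246 11 (.s k3 k9 2 (.s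
  k1 k2 0 (.d k169 k253 k252 13 14)))))), (.s k170 k255 14 (.s k2 k254 13 (.s k3 k1 0 (.s k6 k9 2
  (.s k166 k246 11 (.s k162 k174 1 (.d k243 k81 k89 12 14)))))))] (.c k166 (.l (.s k8 k4 1 (.s k170
  k255 14 (.s k2 k254 13 (.s k3 k1 0 (.s k9 k6 2 (.s k89 k251 12 (.d k169 k252 k249 14 11))))))))
  .n)) (.c k168 (.l (.s k87 k84 0 (.s k255 k170 14 (.s k3 k171 13 (.s k169 k252 14 (.d k1 k2 k253 0
  13)))))) (.c k169 (.q k4 [(.s k84 k87 0 (.s k166 k247 12 (.s k6 k246 11 (.s k7 k5 0 (.d k244 k164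
  k165 11 12))))), (.s k12 k8 1 (.s k166 k247 12 (.s k170 k255 14 (.s k162 k174 1 (.d k243 k81 k89
  12 14))))), (.s k12 k8 1 (.s k84 k87 0 (.s k164 k244 11 (.s k88 k240 13 (.s k92 k80 1 (.d k252
  k172 k168 11 13))))))] .n) (.c k170 (.q k149 [(.s k21 k213 7 (.s k23 k212 8 (.s k20 k22 0 (.s k87
  k84 0 (.d k215 k151 k150 7 8))))), (.s k21 k213 7 (.s k63 k42 6 (.s k84 k87 0 (.s k106 k192 14 (.s
  k126 k66 5 (.d k252 k189 k168 8 13)))))), (.s k21 k213 7 (.s k23 k212 8 (.s k63 k42 6 (.s k3 k43 5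
  (.s k1 k2 0 (.d k169 k253 k252 13 14)))))), (.s k84 k87 0 (.s k212 k23 8 (.s k252 k168 13 (.s k192
  k232 5 (.s k64 k128 7 (.d k106 k127 k63 6 14))))))] .n) (.c k171 (.l (.s k84 k87 0 (.s k252 k168
  13 (.s k3 k169 14 (.s k170 k255 14 (.d k2 k1 k254 0 13)))))) (.c k252 (.f k255 k170 14 (.f k84 k87
  0 (.q k149 [(.s k212 k23 8 (.s k20 k148 7 (.s k213 k21 7 (.d k215 k214 k150 0 8)))), (.s k213 k21
  7 (.s k192 k234 6 (.s k64 k128 7 (.d k106 k127 k63 6 14)))), (.s k212 k23 8 (.s k20 k148 7 (.s k60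
  k40 5 (.s k125 k190 8 (.s k105 k65 5 (.d k150 k215 k195 8 14))))))] (.c k94 (.q k173 [(.s k212 k23
  8 (.s k20 k148 7 (.s k213 k21 7 (.d k215 k214 k150 0 8)))), (.s k213 k21 7 (.s k192 k234 6 (.s k64
  k128 7 (.d k106 k127 k63 6 14)))), (.s k212 k23 8 (.s k20 k148 7 (.s k60 k40 5 (.s k125 k190 8 (.s
  k105 k65 5 (.d k150 k215 k195 8 14))))))] .n) (.c k173 (.q k94 [(.s k212 k23 8 (.s k20 k148 7 (.s
  k213 k21 7 (.d k215 k214 k150 0 8)))), (.s k213 k21 7 (.s k192 k234 6 (.s k64 k128 7 (.d k106 k127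
  k63 6 14)))), (.s k23 k212 8 (.s k90 k82 1 (.s k31 k208 10 (.s k19 k27 1 (.d k220 k157 k153 8
  10)))))] .n) .n))))) (.c k254 (.l (.s k87 k84 0 (.s k255 k170 14 (.s k3 k171 13 (.s k1 k2 0 (.d
  k169 k253 k252 13 14)))))) (.c k255 (.q k63 [(.s k21 k42 6 (.s k84 k87 0 (.s k149 k213 7 (.s k192
  k106 14 (.s k252 k168 13 (.d k212 k232 k23 5 8)))))), (.s k84 k87 0 (.s k252 k168 13 (.s k126 k189
  8 (.s k106 k66 5 (.s k64 k127 6 (.d k192 k128 k149 7 14)))))), (.s k21 k42 6 (.s k87 k84 0 (.s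
  k149 k213 7 (.s k23 k212 8 (.s k20 k22 0 (.d k215 k151 k150 7 8)))))), (.s k21 k42 6 (.s k149 k213
  7 (.s k23 k212 8 (.s k3 k43 5 (.s k1 k2 0 (.d k169 k253 k252 13 14))))))] (.c k95 (.q k175 [(.s
  k21 k42 6 (.s k87 k84 0 (.s k149 k213 7 (.s k23 k212 8 (.s k20 k22 0 (.d k215 k151 k150 7 8)))))),
  (.s k84 k87 0 (.s k252 k168 13 (.s k126 k189 8 (.s k106 k66 5 (.s k64 k127 6 (.d k192 k128 k149 7
  14)))))), (.s k21 k42 6 (.s k149 k213 7 (.s k23 k212 8 (.s k3 k43 5 (.s k1 k2 0 (.d k169 k253 k252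
  13 14))))))] (.c k149 (.f k21 k42 6 (.l (.s k84 k87 0 (.s k252 k168 13 (.s k3 k169 14 (.s k1 k2 0
  (.s k23 k43 5 (.s k22 k20 0 (.d k41 k61 k60 5 6))))))))) (.c k192 (.l (.s k21 k42 6 (.s k84 k87 0
  (.s k252 k168 13 (.s k3 k169 14 (.s k23 k43 5 (.d k149 k213 k212 7 8))))))) .n))) (.c k149 (.f k21
  k42 6 (.l (.s k84 k87 0 (.s k252 k168 13 (.s k3 k169 14 (.s k1 k2 0 (.s k23 k43 5 (.s k22 k20 0
  (.d k41 k61 k60 5 6))))))))) (.c k175 (.q k95 [(.s k87 k84 0 (.s k83 k91 1 (.s k90 k80 2 (.s k92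
  k89 2 (.d k94 k93 k82 0 1))))), (.s k21 k42 6 (.s k84 k87 0 (.s k149 k213 7 (.s k23 k212 8 (.s k3
  k43 5 (.d k252 k168 k169 13 14)))))), (.s k21 k42 6 (.s k90 k80 2 (.s k149 k213 7 (.s k31 k208 10
  (.s k16 k26 2 (.d k223 k159 k154 7 10))))))] (.c k143 (.q k159 [(.s k21 k42 6 (.s k31 k223 7 (.s
  k90 k80 2 (.d k149 k213 k208 7 10)))), (.s k80 k90 2 (.s k84 k87 0 (.s k92 k88 1 (.s k89 k83 2 (.d
  k93 k94 k81 0 1))))), (.s k21 k42 6 (.s k149 k213 7 (.s k154 k144 2 (.d k223 k31 k16 7 10))))] (.c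
  k79 (.l (.s k207 k111 11 (.s k21 k42 6 (.s k31 k223 7 (.s k90 k80 2 (.d k149 k213 k208 7 10))))))
  (.c k207 (.q k79 [(.s k21 k42 6 (.s k223 k31 7 (.s k154 k16 10 (.d k149 k144 k213 2 7)))), (.s k80
  k90 2 (.s k84 k87 0 (.s k92 k88 1 (.s k89 k83 2 (.d k93 k94 k81 0 1)))))] (.c k223 (.q k239 [(.s
  k21 k42 6 (.s k127 k111 3 (.s k106 k64 6 (.d k149 k213 k192 7 14)))), (.s k80 k90 2 (.s k84 k87 0
  (.s k92 k88 1 (.s k89 k83 2 (.d k93 k94 k81 0 1)))))] .n) (.c k239 (.l (.s k223 k31 7 (.s k21 k42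
  6 (.s k149 k213 7 (.d k154 k144 k16 2 10))))) .n))) .n))) (.c k159 (.q k143 [(.s k87 k84 0 (.s k83
  k91 1 (.s k90 k80 2 (.s k92 k89 2 (.d k94 k93 k82 0 1))))), (.s k21 k42 6 (.s k149 k213 7 (.s k23
  k212 8 (.s k3 k43 5 (.s k1 k2 0 (.d k169 k253 k252 13 14))))))] .n) .n))) (.c k192 (.l (.s k21 k42
  6 (.s k84 k87 0 (.s k252 k168 13 (.s k3 k169 14 (.s k23 k43 5 (.d k149 k213 k212 7 8)))))))
  .n))))) .n)))))))))))))

def t15_240 : T TT 256 :=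
  (.q k101 [(.s k69 k117 3 (.s k207 k138 10 (.s k48 k154 14 (.s k32 k16 3 (.d k170 k239 k255 10
  14)))))] (.c k16 (.f k255 k170 14 (.f k69 k117 3 (.q k90 [(.s k95 k80 2 (.s k79 k112 6 (.s k127
  k111 3 (.d k64 k74 k106 2 6)))), (.s k95 k80 2 (.s k207 k138 10 (.s k223 k239 3 (.s k31 k159 7 (.s
  k208 k149 10 (.s k218 k213 2 (.d k154 k26 k48 7 14))))))), (.s k79 k112 6 (.s k64 k74 2 (.s k192
  k128 7 (.s k213 k234 6 (.s k149 k21 7 (.d k106 k127 k63 6 14))))))] (.c k48 (.l (.s k80 k95 2 (.s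
  k112 k79 6 (.s k64 k96 3 (.s k192 k128 7 (.s k213 k234 6 (.s k149 k21 7 (.d k106 k127 k63 6
  14)))))))) .n)))) (.c k32 (.l (.s k69 k117 3 (.s k207 k138 10 (.s k154 k48 14 (.s k223 k16 10 (.d
  k255 k239 k170 3 14)))))) (.c k48 (.f k117 k69 3 (.q k81 [(.s k89 k93 1 (.s k113 k77 5 (.s k125
  k121 1 (.d k65 k97 k105 3 5)))), (.s k89 k93 1 (.s k170 k255 14 (.s k8 k251 12 (.s k12 k4 1 (.d
  k243 k162 k166 12 14))))), (.s k162 k243 12 (.s k170 k255 14 (.s k32 k239 10 (.s k97 k227 8 (.s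
  k105 k109 1 (.d k65 k113 k125 3 5))))))] (.c k26 (.q k37 [(.s k89 k93 1 (.s k113 k77 5 (.s k125
  k121 1 (.d k65 k97 k105 3 5)))), (.s k89 k93 1 (.s k170 k255 14 (.s k8 k251 12 (.s k12 k4 1 (.d
  k243 k162 k166 12 14))))), (.s k162 k243 12 (.s k170 k255 14 (.s k32 k239 10 (.s k97 k227 8 (.s
  k105 k109 1 (.d k65 k113 k125 3 5))))))] (.c k90 (.l (.s k165 k229 7 (.s k89 k93 1 (.s k113 k77 5
  (.s k65 k97 3 (.d k125 k121 k105 1 5)))))) (.c k112 (.q k176 [(.s k89 k93 1 (.s k113 k77 5 (.s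
  k125 k121 1 (.d k65 k97 k105 3 5)))), (.s k89 k93 1 (.s k170 k255 14 (.s k8 k251 12 (.s k12 k4 1
  (.d k243 k162 k166 12 14))))), (.s k162 k243 12 (.s k170 k255 14 (.s k32 k239 10 (.s k97 k227 8
  (.s k105 k109 1 (.d k65 k113 k125 3 5))))))] (.c k90 (.l (.s k165 k229 7 (.s k89 k93 1 (.s k113
  k77 5 (.s k65 k97 3 (.d k125 k121 k105 1 5)))))) (.c k165 (.q k90 [(.s k89 k93 1 (.s k113 k77 5
  (.s k125 k121 1 (.d k65 k97 k105 3 5)))), (.s k80 k95 2 (.s k82 k83 0 (.s k162 k243 12 (.s k242 k2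
  11 (.s k166 k14 13 (.d k170 k255 k174 14 1))))))] (.c k113 (.l (.s k80 k95 2 (.s k83 k82 0 (.s k89
  k93 1 (.s k88 k91 0 (.d k92 k84 k86 1 2)))))) .n)) .n))) (.c k165 (.q k90 [(.s k89 k93 1 (.s k113
  k77 5 (.s k65 k97 3 (.d k125 k121 k105 1 5)))), (.s k80 k95 2 (.s k112 k79 6 (.s k64 k96 3 (.d
  k127 k122 k106 2 6))))] (.c k112 (.q k176 [(.s k89 k93 1 (.s k113 k77 5 (.s k125 k121 1 (.d k65
  k97 k105 3 5)))), (.s k80 k95 2 (.s k82 k83 0 (.s k162 k243 12 (.s k242 k2 11 (.s k166 k14 13 (.d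
  k170 k255 k174 14 1))))))] (.c k113 (.l (.s k80 k95 2 (.s k83 k82 0 (.s k89 k93 1 (.s k88 k91 0
  (.d k92 k84 k86 1 2)))))) .n)) (.c k176 (.l (.s k112 k79 6 (.s k80 k95 2 (.s k64 k96 3 (.d k127
  k122 k106 2 6))))) .n))) (.c k176 (.q k112 [(.s k89 k93 1 (.s k113 k77 5 (.s k125 k121 1 (.d k65
  k97 k105 3 5)))), (.s k90 k79 6 (.s k80 k95 2 (.s k64 k96 3 (.d k127 k122 k106 2 6))))] (.c k90
  (.l (.s k165 k229 7 (.s k89 k93 1 (.s k113 k77 5 (.s k65 k97 3 (.d k125 k121 k105 1 5)))))) (.c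
  k165 (.l (.s k90 k79 6 (.s k80 k95 2 (.s k64 k96 3 (.d k127 k122 k106 2 6))))) .n))) .n))))) (.c
  k37 (.q k26 [(.s k89 k93 1 (.s k113 k77 5 (.s k125 k121 1 (.d k65 k97 k105 3 5)))), (.s k89 k93 1
  (.s k170 k255 14 (.s k8 k251 12 (.s k12 k4 1 (.d k243 k162 k166 12 14))))), (.s k162 k243 12 (.s
  k170 k255 14 (.s k32 k239 10 (.s k97 k227 8 (.s k105 k109 1 (.d k65 k113 k125 3 5))))))] (.c k90
  (.q k165 [(.s k89 k93 1 (.s k113 k77 5 (.s k125 k121 1 (.d k65 k97 k105 3 5)))), (.s k89 k93 1 (.s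
  k170 k255 14 (.s k8 k251 12 (.s k12 k4 1 (.d k243 k162 k166 12 14))))), (.s k162 k243 12 (.s k170
  k255 14 (.s k32 k239 10 (.s k97 k227 8 (.s k105 k109 1 (.d k65 k113 k125 3 5))))))] (.c k112 (.q
  k176 [(.s k89 k93 1 (.s k113 k77 5 (.s k125 k121 1 (.d k65 k97 k105 3 5)))), (.s k154 k143 6 (.s
  k170 k255 14 (.s k186 k138 3 (.s k181 k191 2 (.d k245 k53 k5 7 11)))))] .n) (.c k176 (.q k112 [(.s
  k89 k93 1 (.s k113 k77 5 (.s k125 k121 1 (.d k65 k97 k105 3 5)))), (.s k127 k122 2 (.s k106 k64 6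
  (.s k47 k224 10 (.s k111 k96 2 (.s k170 k255 14 (.d k175 k160 k239 2 7))))))] .n) .n))) (.c k112
  (.q k176 [(.s k89 k93 1 (.s k113 k77 5 (.s k125 k121 1 (.d k65 k97 k105 3 5)))), (.s k89 k93 1 (.s
  k170 k255 14 (.s k8 k251 12 (.s k12 k4 1 (.d k243 k162 k166 12 14))))), (.s k162 k243 12 (.s k170
  k255 14 (.s k32 k239 10 (.s k97 k227 8 (.s k105 k109 1 (.d k65 k113 k125 3 5))))))] (.c k90 (.q
  k165 [(.s k89 k93 1 (.s k113 k77 5 (.s k125 k121 1 (.d k65 k97 k105 3 5)))), (.s k154 k143 6 (.s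
  k170 k255 14 (.s k186 k138 3 (.s k181 k191 2 (.d k245 k53 k5 7 11)))))] .n) (.c k165 (.q k90 [(.s
  k89 k93 1 (.s k113 k77 5 (.s k125 k121 1 (.d k65 k97 k105 3 5)))), (.s k80 k95 2 (.s k154 k218 7
  (.s k16 k223 10 (.s k31 k21 2 (.d k208 k144 k149 7 10)))))] .n) .n))) (.c k165 (.q k90 [(.s k89
  k93 1 (.s k113 k77 5 (.s k65 k97 3 (.d k125 k121 k105 1 5)))), (.s k80 k95 2 (.s k112 k79 6 (.s
  k64 k96 3 (.d k127 k122 k106 2 6))))] (.c k112 (.q k176 [(.s k89 k93 1 (.s k113 k77 5 (.s k125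
  k121 1 (.d k65 k97 k105 3 5)))), (.s k80 k95 2 (.s k154 k218 7 (.s k16 k223 10 (.s k31 k21 2 (.d
  k208 k144 k149 7 10)))))] .n) (.c k176 (.l (.s k112 k79 6 (.s k80 k95 2 (.s k64 k96 3 (.d k127
  k122 k106 2 6))))) .n))) (.c k176 (.q k112 [(.s k89 k93 1 (.s k113 k77 5 (.s k125 k121 1 (.d k65
  k97 k105 3 5)))), (.s k90 k79 6 (.s k80 k95 2 (.s k64 k96 3 (.d k127 k122 k106 2 6))))] (.c k90
  (.q k165 [(.s k89 k93 1 (.s k113 k77 5 (.s k125 k121 1 (.d k65 k97 k105 3 5)))), (.s k127 k122 2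
  (.s k106 k64 6 (.s k47 k224 10 (.s k111 k96 2 (.s k170 k255 14 (.d k175 k160 k239 2 7))))))] .n)
  (.c k165 (.l (.s k90 k79 6 (.s k80 k95 2 (.s k64 k96 3 (.d k127 k122 k106 2 6))))) .n))) .n)))))
  (.c k90 (.q k165 [(.s k89 k93 1 (.s k113 k77 5 (.s k125 k121 1 (.d k65 k97 k105 3 5)))), (.s k245
  k5 11 (.s k53 k181 7 (.s k197 k149 11 (.d k229 k37 k213 7 3))))] (.c k26 (.l (.s k37 k229 7 (.s
  k89 k93 1 (.s k113 k77 5 (.s k65 k97 3 (.d k125 k121 k105 1 5)))))) (.c k37 (.q k26 [(.s k89 k93 1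
  (.s k113 k77 5 (.s k125 k121 1 (.d k65 k97 k105 3 5)))), (.s k89 k93 1 (.s k170 k255 14 (.s k8
  k251 12 (.s k12 k4 1 (.d k243 k162 k166 12 14))))), (.s k162 k243 12 (.s k170 k255 14 (.s k32 k239
  10 (.s k97 k227 8 (.s k105 k109 1 (.d k65 k113 k125 3 5))))))] (.c k112 (.q k176 [(.s k89 k93 1
  (.s k113 k77 5 (.s k125 k121 1 (.d k65 k97 k105 3 5)))), (.s k154 k143 6 (.s k170 k255 14 (.s k186
  k138 3 (.s k181 k191 2 (.d k245 k53 k5 7 11)))))] .n) (.c k176 (.q k112 [(.s k89 k93 1 (.s k113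
  k77 5 (.s k125 k121 1 (.d k65 k97 k105 3 5)))), (.s k127 k122 2 (.s k106 k64 6 (.s k47 k224 10 (.s
  k111 k96 2 (.s k170 k255 14 (.d k175 k160 k239 2 7))))))] .n) .n))) (.c k112 (.q k176 [(.s k89 k93
  1 (.s k113 k77 5 (.s k125 k121 1 (.d k65 k97 k105 3 5)))), (.s k245 k5 11 (.s k53 k181 7 (.s k197
  k149 11 (.d k229 k37 k213 7 3))))] (.c k26 (.l (.s k37 k229 7 (.s k89 k93 1 (.s k113 k77 5 (.s k65
  k97 3 (.d k125 k121 k105 1 5)))))) (.c k37 (.q k26 [(.s k89 k93 1 (.s k113 k77 5 (.s k125 k121 1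
  (.d k65 k97 k105 3 5)))), (.s k154 k143 6 (.s k170 k255 14 (.s k186 k138 3 (.s k181 k191 2 (.d
  k245 k53 k5 7 11)))))] .n) .n))) (.c k176 (.q k112 [(.s k89 k93 1 (.s k113 k77 5 (.s k125 k121 1
  (.d k65 k97 k105 3 5)))), (.s k245 k5 11 (.s k53 k181 7 (.s k197 k149 11 (.d k229 k37 k213 7
  3))))] (.c k26 (.l (.s k37 k229 7 (.s k89 k93 1 (.s k113 k77 5 (.s k65 k97 3 (.d k125 k121 k105 1
  5)))))) (.c k37 (.q k26 [(.s k89 k93 1 (.s k113 k77 5 (.s k125 k121 1 (.d k65 k97 k105 3 5)))),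
  (.s k127 k122 2 (.s k106 k64 6 (.s k47 k224 10 (.s k111 k96 2 (.s k170 k255 14 (.d k175 k160 k239
  2 7))))))] .n) .n))) .n))))) (.c k112 (.q k176 [(.s k89 k93 1 (.s k113 k77 5 (.s k125 k121 1 (.d
  k65 k97 k105 3 5)))), (.s k89 k93 1 (.s k170 k255 14 (.s k8 k251 12 (.s k12 k4 1 (.d k243 k162
  k166 12 14))))), (.s k162 k243 12 (.s k170 k255 14 (.s k32 k239 10 (.s k97 k227 8 (.s k105 k109 1
  (.d k65 k113 k125 3 5))))))] (.c k26 (.q k37 [(.s k89 k93 1 (.s k113 k77 5 (.s k125 k121 1 (.d k65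
  k97 k105 3 5)))), (.s k89 k93 1 (.s k170 k255 14 (.s k8 k251 12 (.s k12 k4 1 (.d k243 k162 k166 12
  14))))), (.s k162 k243 12 (.s k170 k255 14 (.s k32 k239 10 (.s k97 k227 8 (.s k105 k109 1 (.d k65
  k113 k125 3 5))))))] (.c k90 (.l (.s k165 k229 7 (.s k89 k93 1 (.s k113 k77 5 (.s k65 k97 3 (.d
  k125 k121 k105 1 5)))))) (.c k165 (.q k90 [(.s k89 k93 1 (.s k113 k77 5 (.s k125 k121 1 (.d k65
  k97 k105 3 5)))), (.s k80 k95 2 (.s k82 k83 0 (.s k162 k243 12 (.s k242 k2 11 (.s k166 k14 13 (.d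
  k170 k255 k174 14 1))))))] (.c k113 (.l (.s k80 k95 2 (.s k83 k82 0 (.s k89 k93 1 (.s k88 k91 0
  (.d k92 k84 k86 1 2)))))) .n)) .n))) (.c k37 (.q k26 [(.s k89 k93 1 (.s k113 k77 5 (.s k125 k121 1
  (.d k65 k97 k105 3 5)))), (.s k89 k93 1 (.s k170 k255 14 (.s k8 k251 12 (.s k12 k4 1 (.d k243 k162
  k166 12 14))))), (.s k162 k243 12 (.s k170 k255 14 (.s k32 k239 10 (.s k97 k227 8 (.s k105 k109 1
  (.d k65 k113 k125 3 5))))))] (.c k90 (.q k165 [(.s k89 k93 1 (.s k113 k77 5 (.s k125 k121 1 (.d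
  k65 k97 k105 3 5)))), (.s k154 k143 6 (.s k170 k255 14 (.s k186 k138 3 (.s k181 k191 2 (.d k245
  k53 k5 7 11)))))] .n) (.c k165 (.q k90 [(.s k89 k93 1 (.s k113 k77 5 (.s k125 k121 1 (.d k65 k97
  k105 3 5)))), (.s k80 k95 2 (.s k154 k218 7 (.s k16 k223 10 (.s k31 k21 2 (.d k208 k144 k149 7
  10)))))] .n) .n))) (.c k90 (.q k165 [(.s k89 k93 1 (.s k113 k77 5 (.s k125 k121 1 (.d k65 k97 k105
  3 5)))), (.s k245 k5 11 (.s k53 k181 7 (.s k197 k149 11 (.d k229 k37 k213 7 3))))] (.c k26 (.l (.s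
  k37 k229 7 (.s k89 k93 1 (.s k113 k77 5 (.s k65 k97 3 (.d k125 k121 k105 1 5)))))) (.c k37 (.q k26
  [(.s k89 k93 1 (.s k113 k77 5 (.s k125 k121 1 (.d k65 k97 k105 3 5)))), (.s k154 k143 6 (.s k170
  k255 14 (.s k186 k138 3 (.s k181 k191 2 (.d k245 k53 k5 7 11)))))] .n) .n))) (.c k165 (.q k90 [(.s
  k89 k93 1 (.s k113 k77 5 (.s k125 k121 1 (.d k65 k97 k105 3 5)))), (.s k80 k95 2 (.s k82 k83 0 (.s
  k162 k243 12 (.s k242 k2 11 (.s k166 k14 13 (.d k170 k255 k174 14 1))))))] (.c k26 (.q k37 [(.s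
  k89 k93 1 (.s k113 k77 5 (.s k125 k121 1 (.d k65 k97 k105 3 5)))), (.s k80 k95 2 (.s k82 k83 0 (.s
  k162 k243 12 (.s k242 k2 11 (.s k166 k14 13 (.d k170 k255 k174 14 1))))))] (.c k113 (.l (.s k80
  k95 2 (.s k83 k82 0 (.s k89 k93 1 (.s k88 k91 0 (.d k92 k84 k86 1 2)))))) .n)) (.c k37 (.q k26
  [(.s k89 k93 1 (.s k113 k77 5 (.s k125 k121 1 (.d k65 k97 k105 3 5)))), (.s k80 k95 2 (.s k154
  k218 7 (.s k16 k223 10 (.s k31 k21 2 (.d k208 k144 k149 7 10)))))] .n) (.c k113 (.l (.s k80 k95 2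
  (.s k83 k82 0 (.s k89 k93 1 (.s k88 k91 0 (.d k92 k84 k86 1 2)))))) .n)))) .n))))) (.c k165 (.q
  k90 [(.s k89 k93 1 (.s k113 k77 5 (.s k65 k97 3 (.d k125 k121 k105 1 5)))), (.s k80 k95 2 (.s k112
  k79 6 (.s k64 k96 3 (.d k127 k122 k106 2 6))))] (.c k26 (.q k37 [(.s k89 k93 1 (.s k113 k77 5 (.s
  k65 k97 3 (.d k125 k121 k105 1 5)))), (.s k80 k95 2 (.s k112 k79 6 (.s k64 k96 3 (.d k127 k122
  k106 2 6))))] (.c k112 (.q k176 [(.s k89 k93 1 (.s k113 k77 5 (.s k125 k121 1 (.d k65 k97 k105 3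
  5)))), (.s k80 k95 2 (.s k82 k83 0 (.s k162 k243 12 (.s k242 k2 11 (.s k166 k14 13 (.d k170 k255
  k174 14 1))))))] (.c k113 (.l (.s k80 k95 2 (.s k83 k82 0 (.s k89 k93 1 (.s k88 k91 0 (.d k92 k84
  k86 1 2)))))) .n)) (.c k176 (.l (.s k112 k79 6 (.s k80 k95 2 (.s k64 k96 3 (.d k127 k122 k106 2
  6))))) .n))) (.c k37 (.q k26 [(.s k89 k93 1 (.s k113 k77 5 (.s k65 k97 3 (.d k125 k121 k105 1
  5)))), (.s k80 k95 2 (.s k112 k79 6 (.s k64 k96 3 (.d k127 k122 k106 2 6))))] (.c k112 (.q k176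
  [(.s k89 k93 1 (.s k113 k77 5 (.s k125 k121 1 (.d k65 k97 k105 3 5)))), (.s k80 k95 2 (.s k154
  k218 7 (.s k16 k223 10 (.s k31 k21 2 (.d k208 k144 k149 7 10)))))] .n) (.c k176 (.l (.s k112 k79 6
  (.s k80 k95 2 (.s k64 k96 3 (.d k127 k122 k106 2 6))))) .n))) (.c k112 (.q k176 [(.s k89 k93 1 (.s
  k113 k77 5 (.s k125 k121 1 (.d k65 k97 k105 3 5)))), (.s k80 k95 2 (.s k82 k83 0 (.s k162 k243 12
  (.s k242 k2 11 (.s k166 k14 13 (.d k170 k255 k174 14 1))))))] (.c k26 (.q k37 [(.s k89 k93 1 (.s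
  k113 k77 5 (.s k125 k121 1 (.d k65 k97 k105 3 5)))), (.s k80 k95 2 (.s k82 k83 0 (.s k162 k243 12
  (.s k242 k2 11 (.s k166 k14 13 (.d k170 k255 k174 14 1))))))] (.c k113 (.l (.s k80 k95 2 (.s k83
  k82 0 (.s k89 k93 1 (.s k88 k91 0 (.d k92 k84 k86 1 2)))))) .n)) (.c k37 (.q k26 [(.s k89 k93 1
  (.s k113 k77 5 (.s k125 k121 1 (.d k65 k97 k105 3 5)))), (.s k80 k95 2 (.s k154 k218 7 (.s k16
  k223 10 (.s k31 k21 2 (.d k208 k144 k149 7 10)))))] .n) (.c k113 (.l (.s k80 k95 2 (.s k83 k82 0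
  (.s k89 k93 1 (.s k88 k91 0 (.d k92 k84 k86 1 2)))))) .n)))) (.c k176 (.l (.s k112 k79 6 (.s k80
  k95 2 (.s k64 k96 3 (.d k127 k122 k106 2 6))))) .n))))) (.c k176 (.q k112 [(.s k89 k93 1 (.s k113
  k77 5 (.s k125 k121 1 (.d k65 k97 k105 3 5)))), (.s k90 k79 6 (.s k80 k95 2 (.s k64 k96 3 (.d k127
  k122 k106 2 6))))] (.c k26 (.q k37 [(.s k89 k93 1 (.s k113 k77 5 (.s k125 k121 1 (.d k65 k97 k105
  3 5)))), (.s k90 k79 6 (.s k80 k95 2 (.s k64 k96 3 (.d k127 k122 k106 2 6))))] (.c k90 (.l (.s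
  k165 k229 7 (.s k89 k93 1 (.s k113 k77 5 (.s k65 k97 3 (.d k125 k121 k105 1 5)))))) (.c k165 (.l
  (.s k90 k79 6 (.s k80 k95 2 (.s k64 k96 3 (.d k127 k122 k106 2 6))))) .n))) (.c k37 (.q k26 [(.s
  k89 k93 1 (.s k113 k77 5 (.s k125 k121 1 (.d k65 k97 k105 3 5)))), (.s k90 k79 6 (.s k80 k95 2 (.s
  k64 k96 3 (.d k127 k122 k106 2 6))))] (.c k90 (.q k165 [(.s k89 k93 1 (.s k113 k77 5 (.s k125 k121
  1 (.d k65 k97 k105 3 5)))), (.s k127 k122 2 (.s k106 k64 6 (.s k47 k224 10 (.s k111 k96 2 (.s k170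
  k255 14 (.d k175 k160 k239 2 7))))))] .n) (.c k165 (.l (.s k90 k79 6 (.s k80 k95 2 (.s k64 k96 3
  (.d k127 k122 k106 2 6))))) .n))) (.c k90 (.q k165 [(.s k89 k93 1 (.s k113 k77 5 (.s k125 k121 1
  (.d k65 k97 k105 3 5)))), (.s k245 k5 11 (.s k53 k181 7 (.s k197 k149 11 (.d k229 k37 k213 7
  3))))] (.c k26 (.l (.s k37 k229 7 (.s k89 k93 1 (.s k113 k77 5 (.s k65 k97 3 (.d k125 k121 k105 1
  5)))))) (.c k37 (.q k26 [(.s k89 k93 1 (.s k113 k77 5 (.s k125 k121 1 (.d k65 k97 k105 3 5)))),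
  (.s k127 k122 2 (.s k106 k64 6 (.s k47 k224 10 (.s k111 k96 2 (.s k170 k255 14 (.d k175 k160 k239
  2 7))))))] .n) .n))) (.c k165 (.l (.s k90 k79 6 (.s k80 k95 2 (.s k64 k96 3 (.d k127 k122 k106 2
  6))))) .n))))) .n)))))))) (.c k69 (.q k51 [(.s k17 k34 4 (.s k153 k221 9 (.s k102 k204 14 (.s k255
  k170 14 (.d k119 k68 k187 4 9))))), (.s k17 k34 4 (.s k153 k221 9 (.s k49 k205 13 (.s k48 k50 0
  (.s k16 k32 3 (.d k154 k223 k207 10 14)))))), (.s k170 k255 14 (.s k32 k239 10 (.s k48 k16 3 (.s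
  k49 k50 0 (.s k153 k205 13 (.s k136 k187 4 (.d k204 k68 k102 9 14)))))))] (.c k90 (.q k165 [(.s
  k17 k34 4 (.s k153 k221 9 (.s k170 k255 14 (.s k136 k187 4 (.d k204 k68 k102 9 14))))), (.s k17
  k34 4 (.s k153 k221 9 (.s k49 k205 13 (.s k48 k50 0 (.s k16 k32 3 (.d k154 k223 k207 10 14)))))),
  (.s k37 k229 7 (.s k170 k255 14 (.s k32 k239 10 (.s k47 k42 2 (.s k224 k106 10 (.d k160 k175 k96 2
  7))))))] .n) (.c k153 (.l (.s k34 k17 4 (.s k170 k255 14 (.s k32 k239 10 (.s k33 k35 0 (.s k48 k16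
  3 (.s k18 k3 4 (.d k50 k49 k2 0 3)))))))) (.c k165 (.q k90 [(.s k17 k34 4 (.s k153 k221 9 (.s k170
  k255 14 (.s k136 k187 4 (.d k204 k68 k102 9 14))))), (.s k17 k34 4 (.s k153 k221 9 (.s k49 k205 13
  (.s k48 k50 0 (.s k16 k32 3 (.d k154 k223 k207 10 14)))))), (.s k170 k255 14 (.s k32 k239 10 (.s
  k48 k16 3 (.s k49 k50 0 (.s k153 k205 13 (.s k136 k187 4 (.d k204 k68 k102 9 14)))))))] (.c k153
  (.l (.s k34 k17 4 (.s k170 k255 14 (.s k32 k239 10 (.s k33 k35 0 (.s k48 k16 3 (.s k18 k3 4 (.d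
  k50 k49 k2 0 3)))))))) .n)) .n)))) (.c k90 (.q k165 [(.s k69 k117 3 (.s k207 k138 10 (.s k48 k154
  14 (.s k32 k16 3 (.d k170 k239 k255 10 14))))), (.s k5 k245 11 (.s k69 k117 3 (.s k197 k133 7 (.s
  k53 k149 11 (.d k37 k21 k229 3 7))))), (.s k37 k229 7 (.s k170 k255 14 (.s k32 k239 10 (.s k47 k42
  2 (.s k224 k106 10 (.d k160 k175 k96 2 7))))))] (.c k255 (.l (.s k117 k69 3 (.s k229 k37 7 (.s
  k245 k5 11 (.s k53 k181 7 (.d k197 k213 k149 3 11)))))) .n)) (.c k117 (.q k51 [(.s k17 k34 4 (.s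
  k153 k221 9 (.s k102 k204 14 (.s k119 k68 4 (.d k255 k187 k170 9 14))))), (.s k17 k34 4 (.s k153
  k221 9 (.s k49 k205 13 (.s k48 k50 0 (.s k16 k32 3 (.d k154 k223 k207 10 14)))))), (.s k170 k255
  14 (.s k32 k239 10 (.s k48 k16 3 (.s k49 k50 0 (.s k153 k205 13 (.s k136 k187 4 (.d k204 k68 k102
  9 14)))))))] (.c k90 (.q k165 [(.s k17 k34 4 (.s k153 k221 9 (.s k102 k204 14 (.s k119 k68 4 (.d
  k255 k187 k170 9 14))))), (.s k37 k229 7 (.s k170 k255 14 (.s k32 k239 10 (.s k47 k42 2 (.s k224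
  k106 10 (.d k160 k175 k96 2 7)))))), (.s k17 k34 4 (.s k153 k221 9 (.s k49 k205 13 (.s k48 k50 0
  (.s k16 k32 3 (.d k154 k223 k207 10 14))))))] .n) (.c k153 (.l (.s k34 k17 4 (.s k170 k255 14 (.s
  k32 k239 10 (.s k33 k35 0 (.s k48 k16 3 (.s k18 k3 4 (.d k50 k49 k2 0 3)))))))) (.c k165 (.q k90
  [(.s k17 k34 4 (.s k153 k221 9 (.s k102 k204 14 (.s k119 k68 4 (.d k255 k187 k170 9 14))))), (.s
  k17 k34 4 (.s k153 k221 9 (.s k49 k205 13 (.s k48 k50 0 (.s k16 k32 3 (.d k154 k223 k207 10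
  14)))))), (.s k170 k255 14 (.s k32 k239 10 (.s k48 k16 3 (.s k49 k50 0 (.s k153 k205 13 (.s k136
  k187 4 (.d k204 k68 k102 9 14)))))))] (.c k153 (.l (.s k34 k17 4 (.s k170 k255 14 (.s k32 k239 10
  (.s k33 k35 0 (.s k48 k16 3 (.s k18 k3 4 (.d k50 k49 k2 0 3)))))))) .n)) .n)))) (.c k138 (.l (.s
  k117 k69 3 (.s k255 k170 14 (.s k48 k186 10 (.s k154 k207 14 (.d k16 k32 k223 3 10)))))) (.c k154
  (.f k117 k69 3 (.q k106 [(.s k111 k96 2 (.s k127 k64 6 (.s k79 k95 3 (.d k112 k90 k122 6 2)))),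
  (.s k64 k127 6 (.s k192 k128 7 (.s k63 k149 14 (.s k42 k21 6 (.d k170 k234 k255 7 14))))), (.s k96
  k111 2 (.s k170 k255 14 (.s k32 k239 10 (.s k42 k234 7 (.s k47 k37 2 (.d k224 k165 k160 10
  7))))))] (.c k90 (.q k165 [(.s k37 k229 7 (.s k47 k224 10 (.s k32 k42 2 (.d k170 k239 k255 10
  14)))), (.s k229 k37 7 (.s k245 k5 11 (.s k53 k181 7 (.d k197 k213 k149 3 11)))), (.s k47 k224 10
  (.s k111 k96 2 (.s k170 k255 14 (.d k175 k160 k239 2 7))))] (.c k26 (.q k218 [(.s k37 k229 7 (.s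
  k47 k224 10 (.s k32 k42 2 (.d k170 k239 k255 10 14)))), (.s k245 k5 11 (.s k53 k181 7 (.s k197
  k149 11 (.d k229 k37 k213 7 3))))] (.c k37 (.q k48 [(.d k255 k186 k170 10 14), (.s k32 k16 3 (.s
  k96 k111 2 (.d k224 k160 k47 7 10)))] .n) (.c k48 (.l (.s k37 k229 7 (.s k47 k224 10 (.s k32 k42 2
  (.d k170 k239 k255 10 14))))) (.c k208 (.l (.s k37 k229 7 (.s k170 k255 14 (.s k32 k239 10 (.d k42
  k234 k47 7 2))))) (.c k229 (.l (.s k47 k224 10 (.s k111 k96 2 (.s k170 k255 14 (.d k175 k160 k239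
  2 7))))) .n))))) (.c k218 (.q k26 [(.s k229 k37 7 (.s k245 k5 11 (.s k53 k181 7 (.d k197 k213 k149
  3 11)))), (.s k47 k224 10 (.s k111 k96 2 (.s k175 k239 7 (.d k170 k160 k255 2 14))))] (.c k207 (.l
  (.s k229 k37 7 (.s k170 k255 14 (.s k224 k47 10 (.d k234 k239 k42 2 7))))) (.c k229 (.q k207 [(.s
  k64 k127 6 (.s k111 k96 2 (.s k63 k159 11 (.d k192 k149 k128 14 7)))), (.s k96 k111 2 (.s k170
  k255 14 (.s k32 k239 10 (.d k160 k175 k224 2 7)))), (.s k64 k127 6 (.s k192 k128 7 (.s k149 k63 14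
  (.d k197 k202 k53 2 11))))] .n) .n))) .n))) (.c k165 (.q k90 [(.s k112 k79 6 (.d k122 k74 k127 3
  2)), (.s k96 k111 2 (.s k170 k255 14 (.s k32 k239 10 (.s k42 k234 7 (.s k48 k16 3 (.s k63 k21 6
  (.d k192 k144 k149 11 14)))))))] (.c k143 (.q k176 [(.s k127 k64 6 (.d k112 k79 k122 6 2)), (.s
  k96 k111 2 (.s k170 k255 14 (.s k32 k239 10 (.s k48 k16 3 (.s k144 k192 11 (.d k160 k224 k128 7
  3))))))] (.c k74 (.l (.s k64 k127 6 (.s k80 k95 2 (.d k96 k111 k112 2 3)))) (.c k79 (.q k207 [(.s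
  k64 k127 6 (.s k111 k96 2 (.s k192 k128 7 (.d k63 k159 k149 11 14)))), (.s k255 k170 14 (.s k186
  k48 10 (.s k191 k181 2 (.d k127 k64 k63 6 7)))), (.s k111 k96 2 (.s k170 k255 14 (.s k42 k234 7
  (.d k63 k21 k159 6 11))))] (.c k63 (.l (.s k64 k127 6 (.s k95 k80 2 (.s k96 k111 2 (.s k192 k128 7
  (.s k48 k144 11 (.d k255 k186 k170 10 14))))))) (.c k64 (.l (.s k74 k122 3 (.s k111 k96 2 (.s k63
  k159 11 (.s k21 k42 6 (.d k149 k213 k192 7 14)))))) (.c k74 (.l (.s k64 k127 6 (.s k111 k96 2 (.s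
  k63 k159 11 (.d k192 k149 k128 14 7))))) .n)))) (.c k207 (.l (.s k79 k112 6 (.s k95 k80 2 (.d k111
  k96 k127 2 3)))) .n)))) (.c k176 (.q k143 [(.s k112 k79 6 (.d k122 k74 k127 3 2)), (.s k96 k111 2
  (.s k170 k255 14 (.s k32 k239 10 (.s k42 k234 7 (.s k48 k16 3 (.s k63 k21 6 (.d k192 k144 k149 11
  14)))))))] (.c k48 (.l (.s k112 k79 6 (.d k122 k74 k127 3 2))) (.c k112 (.q k48 [(.d k255 k186
  k170 10 14), (.s k64 k127 6 (.s k96 k111 2 (.d k192 k128 k144 7 11)))] .n) .n))) (.c k207 (.l (.s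
  k122 k74 3 (.d k112 k79 k127 6 2))) .n)))) (.c k255 (.l (.s k111 k96 2 (.s k127 k64 6 (.s k112
  k122 2 (.d k79 k95 k90 3 6))))) .n))))) (.c k165 (.q k90 [(.s k69 k117 3 (.s k207 k138 10 (.s k48
  k154 14 (.s k32 k16 3 (.d k170 k239 k255 10 14))))), (.s k69 k117 3 (.s k79 k112 6 (.s k64 k74 2
  (.s k95 k80 2 (.d k127 k111 k106 3 6))))), (.s k80 k95 2 (.s k112 k79 6 (.s k64 k96 3 (.s k117 k69
  3 (.d k127 k122 k106 2 6)))))] (.c k69 (.q k1 [(.s k3 k2 0 (.s k169 k253 13 (.s k86 k252 14 (.s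
  k87 k84 0 (.d k255 k171 k170 13 14))))), (.s k3 k2 0 (.s k169 k253 13 (.s k33 k237 9 (.s k48 k18 4
  (.s k16 k32 3 (.d k154 k223 k207 10 14)))))), (.s k169 k253 13 (.s k33 k237 9 (.s k17 k49 3 (.s
  k34 k51 4 (.s k170 k255 14 (.d k32 k35 k239 0 10))))))] (.c k169 (.l (.s k2 k3 0 (.s k170 k255 14
  (.s k86 k254 13 (.s k82 k94 1 (.s k242 k162 11 (.s k14 k166 13 (.d k10 k250 k6 11 1)))))))) (.c
  k253 (.l (.s k2 k3 0 (.s k170 k255 14 (.s k250 k10 11 (.s k254 k86 13 (.s k242 k246 1 (.s k166 k14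
  13 (.d k162 k82 k174 11 1)))))))) .n))) (.c k117 (.q k1 [(.s k3 k2 0 (.s k255 k170 14 (.s k87 k171
  13 (.s k86 k84 0 (.d k169 k253 k252 13 14))))), (.s k3 k2 0 (.s k169 k253 13 (.s k33 k237 9 (.s
  k48 k18 4 (.s k16 k32 3 (.d k154 k223 k207 10 14)))))), (.s k169 k253 13 (.s k33 k237 9 (.s k170
  k255 14 (.s k32 k239 10 (.s k34 k35 0 (.d k17 k49 k51 3 4))))))] (.c k169 (.l (.s k2 k3 0 (.s k170
  k255 14 (.s k86 k254 13 (.s k82 k94 1 (.s k242 k162 11 (.s k14 k166 13 (.d k10 k250 k6 11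
  1)))))))) (.c k253 (.l (.s k2 k3 0 (.s k170 k255 14 (.s k250 k10 11 (.s k254 k86 13 (.s k242 k246
  1 (.s k166 k14 13 (.d k162 k82 k174 11 1)))))))) .n))) .n))) (.c k170 (.f k69 k117 3 (.q k149 [(.s
  k197 k53 11 (.s k5 k133 7 (.s k213 k21 7 (.d k245 k165 k229 11 3)))), (.s k21 k213 7 (.s k63 k42 6
  (.s k106 k192 14 (.s k111 k96 2 (.d k207 k138 k159 10 11))))), (.s k21 k213 7 (.s k53 k197 11 (.s
  k63 k42 6 (.s k48 k58 2 (.d k207 k138 k154 10 14))))), (.s k197 k53 11 (.s k207 k138 10 (.s k192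
  k202 2 (.s k64 k128 7 (.d k106 k127 k63 6 14)))))] (.c k90 (.q k165 [(.s k5 k245 11 (.d k133 k181
  k197 3 7)), (.s k21 k213 7 (.s k63 k42 6 (.s k106 k192 14 (.s k111 k96 2 (.d k207 k138 k159 10
  11))))), (.s k21 k213 7 (.s k53 k197 11 (.s k63 k42 6 (.s k48 k58 2 (.d k207 k138 k154 10 14)))))]
  (.c k10 (.q k250 [(.s k5 k245 11 (.d k133 k181 k197 3 7)), (.s k21 k213 7 (.s k63 k42 6 (.s k106
  k192 14 (.s k111 k96 2 (.d k207 k138 k159 10 11)))))] (.c k133 (.l (.s k5 k245 11 (.s k21 k213 7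
  (.d k37 k53 k229 3 7)))) .n)) (.c k250 (.q k10 [(.s k197 k53 11 (.d k5 k245 k133 11 7)), (.s k21
  k213 7 (.s k63 k42 6 (.s k106 k192 14 (.s k111 k96 2 (.d k207 k138 k159 10 11)))))] (.c k133 (.l
  (.s k21 k213 7 (.s k37 k229 7 (.d k5 k245 k53 11 3)))) (.c k245 (.q k255 [(.s k207 k138 10 (.s
  k223 k239 3 (.d k154 k16 k48 10 14))), (.s k21 k213 7 (.s k63 k42 6 (.s k106 k192 14 (.d k127 k64
  k191 6 7))))] (.c k53 (.l (.s k181 k133 3 (.s k207 k138 10 (.s k154 k48 14 (.d k223 k239 k16 3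
  10))))) (.c k181 (.l (.s k53 k197 11 (.s k207 k138 10 (.s k154 k48 14 (.d k223 k239 k16 3 10)))))
  .n))) (.c k255 (.l (.s k245 k5 11 (.s k197 k53 11 (.d k213 k21 k229 7 3)))) .n)))) .n))) (.c k165
  (.q k90 [(.s k79 k112 6 (.s k64 k74 2 (.s k192 k128 7 (.d k106 k127 k63 6 14)))), (.s k21 k213 7
  (.s k31 k208 10 (.s k95 k80 2 (.s k223 k159 7 (.d k16 k26 k154 2 10)))))] (.c k160 (.q k175 [(.s
  k95 k80 2 (.s k79 k112 6 (.s k127 k111 3 (.d k64 k74 k106 2 6)))), (.s k21 k213 7 (.s k31 k208 10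
  (.s k95 k80 2 (.s k223 k159 7 (.d k16 k26 k154 2 10))))), (.s k21 k213 7 (.s k31 k208 10 (.s k16
  k26 2 (.s k48 k32 3 (.d k154 k223 k207 10 14)))))] .n) (.c k175 (.q k160 [(.s k79 k112 6 (.s k64
  k74 2 (.s k95 k80 2 (.d k127 k111 k106 3 6)))), (.s k21 k213 7 (.s k31 k208 10 (.s k95 k80 2 (.s
  k223 k159 7 (.d k16 k26 k154 2 10)))))] (.c k80 (.l (.s k79 k112 6 (.s k64 k74 2 (.s k192 k128 7
  (.d k106 k127 k63 6 14))))) (.c k95 (.q k255 [(.s k207 k138 10 (.s k223 k239 3 (.d k154 k16 k48 10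
  14))), (.s k21 k213 7 (.s k63 k42 6 (.s k106 k192 14 (.d k127 k64 k191 6 7))))] .n) (.c k192 (.l
  (.s k79 k112 6 (.s k95 k80 2 (.s k127 k111 3 (.d k64 k74 k106 2 6))))) (.c k255 (.l (.s k95 k80 2
  (.s k79 k112 6 (.s k64 k74 2 (.d k127 k111 k106 3 6))))) .n))))) (.c k192 (.l (.s k79 k112 6 (.s
  k95 k80 2 (.s k127 k111 3 (.d k64 k74 k106 2 6))))) .n)))) .n)))) (.c k186 (.l (.s k69 k117 3 (.s
  k207 k138 10 (.s k48 k154 14 (.s k170 k255 14 (.d k32 k16 k239 3 10)))))) (.c k207 (.f k69 k117 3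
  (.q k79 [(.s k64 k74 2 (.s k90 k112 6 (.s k95 k80 2 (.d k127 k111 k106 3 6)))), (.s k64 k74 2 (.s
  k192 k128 7 (.s k255 k170 14 (.s k213 k234 6 (.s k149 k21 7 (.d k106 k127 k63 6 14)))))), (.s k90
  k112 6 (.s k95 k80 2 (.s k127 k111 3 (.d k64 k74 k106 2 6))))] (.c k64 (.q k105 [(.s k65 k125 5
  (.s k77 k73 1 (.s k113 k89 5 (.d k97 k109 k81 1 3)))), (.s k90 k112 6 (.s k75 k120 4 (.s k67 k71 1
  (.s k109 k97 1 (.d k124 k94 k86 4 6))))), (.s k65 k125 5 (.s k170 k255 14 (.s k40 k235 8 (.s k60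
  k20 5 (.d k195 k130 k150 8 14)))))] (.c k90 (.q k165 [(.s k65 k125 5 (.s k77 k73 1 (.s k97 k109 1
  (.d k113 k81 k89 3 5)))), (.s k5 k245 11 (.s k197 k133 7 (.s k53 k149 11 (.d k37 k229 k21 7 3))))]
  (.c k218 (.l (.s k229 k37 7 (.s k65 k125 5 (.s k77 k73 1 (.s k97 k109 1 (.d k113 k81 k89 3 5))))))
  (.c k229 (.q k218 [(.s k65 k125 5 (.s k77 k73 1 (.s k97 k109 1 (.d k113 k81 k89 3 5)))), (.s k109
  k97 1 (.s k170 k255 14 (.s k235 k40 8 (.s k239 k32 10 (.s k44 k174 8 (.d k227 k231 k166 1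
  10)))))), (.s k65 k125 5 (.s k170 k255 14 (.s k40 k235 8 (.s k60 k20 5 (.d k195 k130 k150 8
  14)))))] .n) .n))) (.c k165 (.l (.s k90 k112 6 (.s k65 k125 5 (.s k77 k73 1 (.s k97 k109 1 (.d
  k113 k81 k89 3 5)))))) (.c k218 (.q k229 [(.s k65 k125 5 (.s k77 k73 1 (.s k113 k89 5 (.d k97 k109
  k81 1 3)))), (.s k90 k112 6 (.s k75 k120 4 (.s k67 k71 1 (.s k109 k97 1 (.d k124 k94 k86 4 6))))),
  (.s k65 k125 5 (.s k170 k255 14 (.s k40 k235 8 (.s k60 k20 5 (.d k195 k130 k150 8 14)))))] (.c k90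
  (.l (.s k165 k37 7 (.s k65 k125 5 (.s k77 k73 1 (.s k97 k109 1 (.d k113 k81 k89 3 5)))))) (.c k165
  (.l (.s k90 k112 6 (.s k65 k125 5 (.s k77 k73 1 (.s k97 k109 1 (.d k113 k81 k89 3 5)))))) .n)))
  (.c k229 (.q k218 [(.s k65 k125 5 (.s k77 k73 1 (.s k113 k89 5 (.d k97 k109 k81 1 3)))), (.s k90
  k112 6 (.s k75 k120 4 (.s k67 k71 1 (.s k109 k97 1 (.d k124 k94 k86 4 6))))), (.s k65 k125 5 (.s
  k170 k255 14 (.s k40 k235 8 (.s k60 k20 5 (.d k195 k130 k150 8 14)))))] (.c k90 (.q k165 [(.s k65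
  k125 5 (.s k77 k73 1 (.s k97 k109 1 (.d k113 k81 k89 3 5)))), (.s k109 k97 1 (.s k170 k255 14 (.s
  k235 k40 8 (.s k239 k32 10 (.s k44 k174 8 (.d k227 k231 k166 1 10)))))), (.s k65 k125 5 (.s k170
  k255 14 (.s k40 k235 8 (.s k60 k20 5 (.d k195 k130 k150 8 14)))))] .n) (.c k165 (.l (.s k90 k112 6
  (.s k65 k125 5 (.s k77 k73 1 (.s k97 k109 1 (.d k113 k81 k89 3 5)))))) .n))) .n))))) (.c k74 (.f
  k90 k112 6 (.l (.s k95 k80 2 (.s k127 k111 3 (.s k255 k170 14 (.s k63 k191 7 (.s k21 k42 6 (.s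
  k149 k213 7 (.d k106 k64 k192 6 14))))))))) (.c k90 (.q k165 [(.s k5 k245 11 (.s k197 k133 7 (.s
  k53 k149 11 (.d k37 k229 k21 7 3)))), (.s k170 k255 14 (.s k175 k160 2 (.s k229 k37 7 (.s k239 k32
  10 (.s k47 k111 7 (.d k224 k234 k106 2 10)))))), (.s k64 k74 2 (.s k192 k128 7 (.s k106 k127 6 (.s
  k63 k149 14 (.s k42 k21 6 (.d k170 k234 k255 7 14))))))] (.c k218 (.l (.s k229 k37 7 (.s k64 k74 2
  (.s k106 k127 6 (.s k170 k255 14 (.s k224 k47 10 (.d k234 k239 k42 2 7))))))) (.c k229 (.q k218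
  [(.s k64 k74 2 (.s k192 k128 7 (.s k106 k127 6 (.s k63 k149 14 (.s k42 k21 6 (.d k170 k234 k255 7
  14)))))), (.s k170 k255 14 (.s k175 k160 2 (.s k239 k32 10 (.s k111 k47 7 (.s k127 k95 3 (.d k106
  k96 k64 2 6)))))), (.s k64 k74 2 (.s k106 k127 6 (.s k96 k111 2 (.s k192 k128 7 (.s k48 k144 11
  (.s k32 k16 3 (.d k224 k160 k47 7 10))))))), (.s k5 k245 11 (.s k64 k74 2 (.s k192 k128 7 (.s k197
  k133 7 (.s k255 k170 14 (.s k213 k234 6 (.d k149 k53 k21 11 7)))))))] (.c k64 (.q k1 [(.s k205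
  k137 9 (.s k153 k49 13 (.s k221 k17 9 (.d k253 k237 k169 3 13)))), (.s k3 k2 0 (.s k255 k170 14
  (.s k87 k171 13 (.s k86 k84 0 (.d k169 k253 k252 13 14))))), (.s k5 k245 11 (.s k13 k9 1 (.s k205
  k137 9 (.s k77 k141 7 (.d k89 k113 k241 5 13)))))] .n) (.c k106 (.f k5 k245 11 (.l (.s k197 k133 7
  (.s k53 k149 11 (.s k21 k37 3 (.s k63 k42 6 (.s k48 k58 2 (.s k32 k16 3 (.d k170 k239 k255 10
  14))))))))) .n))) (.c k255 (.l (.s k64 k74 2 (.s k106 k127 6 (.s k47 k224 10 (.s k192 k128 7 (.s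
  k63 k149 14 (.s k42 k21 6 (.d k37 k32 k229 2 7)))))))) .n)))) (.c k106 (.f k74 k64 2 (.q k102 [(.s
  k68 k119 4 (.s k71 k70 0 (.s k100 k103 0 (.d k116 k84 k86 3 4)))), (.s k90 k112 6 (.s k78 k114 5
  (.s k76 k77 0 (.s k103 k100 0 (.d k115 k91 k89 5 6))))), (.s k68 k119 4 (.s k70 k71 0 (.s k78 k66
  1 (.d k90 k114 k112 5 6))))] (.c k90 (.q k165 [(.s k68 k119 4 (.s k71 k70 0 (.s k100 k103 0 (.d
  k116 k84 k86 3 4)))), (.s k5 k245 11 (.s k197 k133 7 (.s k53 k149 11 (.d k37 k229 k21 7 3))))] (.c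
  k218 (.l (.s k229 k37 7 (.s k68 k119 4 (.s k71 k70 0 (.s k100 k103 0 (.d k116 k84 k86 3 4))))))
  (.c k229 (.q k218 [(.s k68 k119 4 (.s k71 k70 0 (.s k100 k103 0 (.d k116 k84 k86 3 4)))), (.s k103
  k100 0 (.s k170 k255 14 (.s k238 k34 9 (.s k239 k32 10 (.s k35 k171 9 (.d k236 k237 k169 0
  10)))))), (.s k68 k119 4 (.s k170 k255 14 (.s k34 k238 9 (.s k51 k17 4 (.d k204 k136 k153 9
  14)))))] .n) .n))) (.c k103 (.l (.s k68 k119 4 (.s k90 k112 6 (.s k78 k114 5 (.d k70 k71 k66 0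
  1))))) (.c k165 (.l (.s k90 k112 6 (.s k68 k119 4 (.s k70 k71 0 (.d k78 k66 k114 1 5))))) (.c k218
  (.q k229 [(.s k68 k119 4 (.s k71 k70 0 (.s k100 k103 0 (.d k116 k84 k86 3 4)))), (.s k90 k112 6
  (.s k78 k114 5 (.s k76 k77 0 (.s k103 k100 0 (.d k115 k91 k89 5 6))))), (.s k68 k119 4 (.s k70 k71
  0 (.s k78 k66 1 (.d k90 k114 k112 5 6))))] (.c k90 (.l (.s k165 k37 7 (.s k68 k119 4 (.s k71 k70 0
  (.s k100 k103 0 (.d k116 k84 k86 3 4)))))) (.c k103 (.l (.s k68 k119 4 (.s k90 k112 6 (.s k78 k114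
  5 (.d k70 k71 k66 0 1))))) (.c k165 (.l (.s k90 k112 6 (.s k68 k119 4 (.s k70 k71 0 (.d k78 k66
  k114 1 5))))) .n)))) (.c k229 (.q k218 [(.s k68 k119 4 (.s k71 k70 0 (.s k100 k103 0 (.d k116 k84
  k86 3 4)))), (.s k90 k112 6 (.s k78 k114 5 (.s k76 k77 0 (.s k103 k100 0 (.d k115 k91 k89 5
  6))))), (.s k68 k119 4 (.s k70 k71 0 (.s k78 k66 1 (.d k90 k114 k112 5 6))))] (.c k90 (.q k165
  [(.s k68 k119 4 (.s k71 k70 0 (.s k100 k103 0 (.d k116 k84 k86 3 4)))), (.s k103 k100 0 (.s k170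
  k255 14 (.s k238 k34 9 (.s k239 k32 10 (.s k35 k171 9 (.d k236 k237 k169 0 10)))))), (.s k68 k119
  4 (.s k170 k255 14 (.s k34 k238 9 (.s k51 k17 4 (.d k204 k136 k153 9 14)))))] .n) (.c k103 (.l (.s
  k68 k119 4 (.s k90 k112 6 (.s k78 k114 5 (.d k70 k71 k66 0 1))))) (.c k165 (.l (.s k90 k112 6 (.s
  k68 k119 4 (.s k70 k71 0 (.d k78 k66 k114 1 5))))) .n)))) .n))))))) (.c k127 (.f k64 k74 2 (.l (.s
  k192 k128 7 (.s k255 k170 14 (.s k213 k234 6 (.s k149 k21 7 (.s k197 k53 11 (.s k5 k133 7 (.d k245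
  k229 k165 3 11))))))))) (.c k165 (.l (.s k90 k112 6 (.s k64 k74 2 (.s k95 k80 2 (.d k127 k111 k106
  3 6))))) (.c k218 (.q k229 [(.s k64 k74 2 (.s k90 k112 6 (.s k95 k80 2 (.d k127 k111 k106 3 6)))),
  (.s k165 k37 7 (.s k170 k255 14 (.s k175 k160 2 (.s k239 k32 10 (.s k47 k111 7 (.d k224 k234 k106
  2 10)))))), (.s k64 k74 2 (.s k165 k37 7 (.s k192 k128 7 (.s k245 k5 11 (.s k213 k197 3 (.d k255
  k234 k170 6 14))))))] (.c k48 (.l (.s k64 k74 2 (.s k106 k127 6 (.s k96 k111 2 (.d k112 k80 k90 3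
  6))))) (.c k90 (.l (.s k165 k37 7 (.s k64 k74 2 (.s k106 k127 6 (.s k170 k255 14 (.s k224 k47 10
  (.d k234 k239 k42 2 7))))))) (.c k165 (.l (.s k90 k112 6 (.s k64 k74 2 (.s k95 k80 2 (.d k127 k111
  k106 3 6))))) .n)))) (.c k229 (.q k218 [(.s k64 k74 2 (.s k90 k112 6 (.s k95 k80 2 (.d k127 k111
  k106 3 6)))), (.s k64 k74 2 (.s k192 k128 7 (.s k255 k170 14 (.s k213 k234 6 (.s k149 k21 7 (.d
  k106 k127 k63 6 14)))))), (.s k90 k112 6 (.s k154 k26 7 (.s k223 k16 10 (.s k208 k213 2 (.s k31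
  k149 10 (.d k95 k80 k159 2 7))))))] (.c k90 (.q k165 [(.s k64 k74 2 (.s k192 k128 7 (.s k106 k127
  6 (.s k63 k149 14 (.s k42 k21 6 (.d k170 k234 k255 7 14)))))), (.s k170 k255 14 (.s k175 k160 2
  (.s k239 k32 10 (.s k111 k47 7 (.s k127 k95 3 (.d k106 k96 k64 2 6)))))), (.s k64 k74 2 (.s k106
  k127 6 (.s k96 k111 2 (.s k192 k128 7 (.s k48 k144 11 (.s k32 k16 3 (.d k224 k160 k47 7 10))))))),
  (.s k5 k245 11 (.s k64 k74 2 (.s k192 k128 7 (.s k197 k133 7 (.s k255 k170 14 (.s k213 k234 6 (.d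
  k149 k53 k21 11 7)))))))] (.c k64 (.q k1 [(.s k205 k137 9 (.s k153 k49 13 (.s k221 k17 9 (.d k253
  k237 k169 3 13)))), (.s k3 k2 0 (.s k255 k170 14 (.s k87 k171 13 (.s k86 k84 0 (.d k169 k253 k252
  13 14))))), (.s k5 k245 11 (.s k13 k9 1 (.s k205 k137 9 (.s k77 k141 7 (.d k89 k113 k241 5
  13)))))] .n) (.c k106 (.f k5 k245 11 (.l (.s k197 k133 7 (.s k53 k149 11 (.s k21 k37 3 (.s k63 k42
  6 (.s k48 k58 2 (.s k32 k16 3 (.d k170 k239 k255 10 14))))))))) .n))) (.c k127 (.l (.s k64 k74 2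
  (.s k192 k128 7 (.s k255 k170 14 (.s k213 k234 6 (.s k149 k21 7 (.s k208 k223 2 (.d k90 k112 k31 6
  10)))))))) (.c k165 (.l (.s k90 k112 6 (.s k64 k74 2 (.s k95 k80 2 (.d k127 k111 k106 3 6)))))
  .n)))) .n)))))))))) (.c k239 (.l (.s k117 k69 3 (.s k255 k170 14 (.s k48 k186 10 (.s k16 k32 3 (.d
  k154 k223 k207 10 14)))))) (.c k255 (.q k169 [(.s k117 k69 3 (.s k237 k33 9 (.s k253 k1 13 (.s k49
  k185 9 (.d k205 k221 k153 3 13))))), (.s k69 k117 3 (.s k207 k138 10 (.s k237 k33 9 (.s k252 k222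
  4 (.s k84 k168 13 (.d k86 k87 k3 0 14)))))), (.s k1 k253 13 (.s k3 k2 0 (.s k69 k117 3 (.s k207
  k138 10 (.s k71 k139 9 (.d k86 k252 k116 14 4)))))), (.s k1 k253 13 (.s k3 k2 0 (.s k33 k237 9 (.s
  k48 k18 4 (.s k16 k32 3 (.d k154 k223 k207 10 14))))))] (.c k90 (.q k165 [(.s k245 k5 11 (.s k117
  k69 3 (.s k53 k181 7 (.s k197 k149 11 (.d k229 k213 k37 3 7))))), (.s k1 k253 13 (.s k161 k173 1
  (.s k241 k81 11 (.s k13 k89 13 (.d k5 k245 k9 11 1)))))] (.c k5 (.l (.s k1 k253 13 (.s k33 k237 9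
  (.s k49 k17 3 (.s k69 k117 3 (.d k205 k137 k153 9 13)))))) (.c k95 (.q k175 [(.s k1 k253 13 (.s k3
  k2 0 (.s k170 k160 2 (.s k168 k171 0 (.d k252 k84 k86 13 14))))), (.s k245 k5 11 (.s k117 k69 3
  (.s k53 k181 7 (.s k197 k149 11 (.d k229 k213 k37 3 7)))))] (.c k245 (.q k250 [(.s k1 k253 13 (.s
  k3 k2 0 (.s k170 k160 2 (.s k168 k171 0 (.d k252 k84 k86 13 14))))), (.s k33 k237 9 (.s k37 k229 7
  (.s k45 k41 1 (.s k225 k105 9 (.d k161 k173 k97 1 7)))))] .n) (.c k250 (.l (.s k245 k5 11 (.s k117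
  k69 3 (.s k53 k181 7 (.s k197 k149 11 (.d k229 k213 k37 3 7)))))) .n))) (.c k175 (.q k95 [(.s k245
  k5 11 (.s k117 k69 3 (.s k53 k181 7 (.s k197 k149 11 (.d k229 k213 k37 3 7))))), (.s k1 k253 13
  (.s k161 k173 1 (.s k241 k81 11 (.s k13 k89 13 (.d k5 k245 k9 11 1)))))] (.c k5 (.l (.s k1 k253 13
  (.s k33 k237 9 (.s k49 k17 3 (.s k69 k117 3 (.d k205 k137 k153 9 13)))))) (.c k245 (.q k250 [(.s
  k1 k253 13 (.s k33 k237 9 (.s k49 k17 3 (.s k205 k153 13 (.d k69 k117 k137 3 9))))), (.s k33 k237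
  9 (.s k37 k229 7 (.s k45 k41 1 (.s k225 k105 9 (.d k161 k173 k97 1 7))))), (.s k1 k253 13 (.s k3
  k2 0 (.s k69 k117 3 (.s k207 k138 10 (.s k71 k139 9 (.d k86 k252 k116 14 4))))))] .n) (.c k250 (.l
  (.s k245 k5 11 (.s k117 k69 3 (.s k53 k181 7 (.s k197 k149 11 (.d k229 k213 k37 3 7)))))) .n))))
  (.c k245 (.q k250 [(.s k33 k237 9 (.s k37 k229 7 (.s k45 k41 1 (.s k161 k173 1 (.d k225 k97 k105 7
  9))))), (.s k1 k253 13 (.s k3 k2 0 (.s k69 k117 3 (.s k207 k138 10 (.s k71 k139 9 (.d k86 k252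
  k116 14 4))))))] (.c k95 (.q k175 [(.s k1 k253 13 (.s k3 k2 0 (.s k170 k160 2 (.s k168 k171 0 (.d
  k252 k84 k86 13 14))))), (.s k33 k237 9 (.s k37 k229 7 (.s k45 k41 1 (.s k225 k105 9 (.d k161 k173
  k97 1 7)))))] .n) (.c k175 (.q k95 [(.s k1 k253 13 (.s k33 k237 9 (.s k49 k17 3 (.s k205 k153 13
  (.d k69 k117 k137 3 9))))), (.s k33 k237 9 (.s k37 k229 7 (.s k45 k41 1 (.s k225 k105 9 (.d k161
  k173 k97 1 7))))), (.s k1 k253 13 (.s k3 k2 0 (.s k69 k117 3 (.s k207 k138 10 (.s k71 k139 9 (.d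
  k86 k252 k116 14 4))))))] .n) (.c k207 (.l (.s k1 k253 13 (.s k33 k237 9 (.s k49 k17 3 (.s k69
  k117 3 (.d k205 k137 k153 9 13)))))) (.c k252 (.l (.s k33 k237 9 (.s k37 k229 7 (.s k45 k41 1 (.s
  k225 k105 9 (.d k161 k173 k97 1 7)))))) .n))))) (.c k250 (.l (.s k245 k5 11 (.s k117 k69 3 (.s k53
  k181 7 (.s k197 k149 11 (.d k229 k213 k37 3 7)))))) .n)))))) (.c k95 (.q k175 [(.s k117 k69 3 (.s
  k237 k33 9 (.s k253 k1 13 (.s k49 k185 9 (.d k205 k221 k153 3 13))))), (.s k69 k117 3 (.s k207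
  k138 10 (.s k237 k33 9 (.s k252 k222 4 (.s k84 k168 13 (.d k86 k87 k3 0 14)))))), (.s k1 k253 13
  (.s k3 k2 0 (.s k69 k117 3 (.s k207 k138 10 (.s k71 k139 9 (.d k86 k252 k116 14 4)))))), (.s k1
  k253 13 (.s k3 k2 0 (.s k33 k237 9 (.s k48 k18 4 (.s k16 k32 3 (.d k154 k223 k207 10 14))))))] (.c
  k90 (.q k165 [(.s k1 k253 13 (.s k3 k2 0 (.s k170 k160 2 (.s k168 k171 0 (.d k252 k84 k86 13
  14))))), (.s k245 k5 11 (.s k117 k69 3 (.s k53 k181 7 (.s k197 k149 11 (.d k229 k213 k37 3 7)))))]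
  (.c k245 (.q k250 [(.s k1 k253 13 (.s k3 k2 0 (.s k170 k160 2 (.s k168 k171 0 (.d k252 k84 k86 13
  14))))), (.s k33 k237 9 (.s k37 k229 7 (.s k45 k41 1 (.s k225 k105 9 (.d k161 k173 k97 1 7)))))]
  .n) (.c k250 (.l (.s k245 k5 11 (.s k117 k69 3 (.s k53 k181 7 (.s k197 k149 11 (.d k229 k213 k37 3
  7)))))) .n))) (.c k165 (.q k90 [(.s k117 k69 3 (.s k237 k33 9 (.s k253 k1 13 (.s k49 k185 9 (.d
  k205 k221 k153 3 13))))), (.s k69 k117 3 (.s k207 k138 10 (.s k237 k33 9 (.s k252 k222 4 (.s k84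
  k168 13 (.d k86 k87 k3 0 14)))))), (.s k1 k253 13 (.s k3 k2 0 (.s k69 k117 3 (.s k207 k138 10 (.s
  k71 k139 9 (.d k86 k252 k116 14 4)))))), (.s k1 k253 13 (.s k3 k2 0 (.s k33 k237 9 (.s k48 k18 4
  (.s k16 k32 3 (.d k154 k223 k207 10 14))))))] (.c k245 (.q k250 [(.s k1 k253 13 (.s k3 k2 0 (.s
  k170 k10 11 (.s k168 k171 0 (.d k252 k84 k86 13 14))))), (.s k10 k170 11 (.s k69 k117 3 (.s k79
  k112 6 (.s k74 k64 2 (.d k138 k202 k207 7 10))))), (.s k1 k253 13 (.s k33 k237 9 (.s k49 k17 3 (.s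
  k69 k117 3 (.d k205 k137 k153 9 13)))))] .n) (.c k250 (.q k245 [(.s k117 k69 3 (.s k237 k33 9 (.s
  k253 k1 13 (.s k49 k185 9 (.d k205 k221 k153 3 13))))), (.s k69 k117 3 (.s k207 k138 10 (.s k237
  k33 9 (.s k252 k222 4 (.s k84 k168 13 (.d k86 k87 k3 0 14)))))), (.s k1 k253 13 (.s k3 k2 0 (.s
  k69 k117 3 (.s k207 k138 10 (.s k71 k139 9 (.d k86 k252 k116 14 4)))))), (.s k1 k253 13 (.s k3 k2
  0 (.s k33 k237 9 (.s k48 k18 4 (.s k16 k32 3 (.d k154 k223 k207 10 14))))))] .n) .n))) (.c k245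
  (.q k250 [(.s k117 k69 3 (.s k237 k33 9 (.s k253 k1 13 (.s k49 k185 9 (.d k205 k221 k153 3
  13))))), (.s k69 k117 3 (.s k207 k138 10 (.s k237 k33 9 (.s k252 k222 4 (.s k84 k168 13 (.d k86
  k87 k3 0 14)))))), (.s k1 k253 13 (.s k3 k2 0 (.s k69 k117 3 (.s k207 k138 10 (.s k71 k139 9 (.d
  k86 k252 k116 14 4)))))), (.s k1 k253 13 (.s k3 k2 0 (.s k33 k237 9 (.s k48 k18 4 (.s k16 k32 3
  (.d k154 k223 k207 10 14))))))] (.c k90 (.q k165 [(.s k1 k253 13 (.s k3 k2 0 (.s k170 k160 2 (.s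
  k168 k171 0 (.d k252 k84 k86 13 14))))), (.s k33 k237 9 (.s k37 k229 7 (.s k45 k41 1 (.s k225 k105
  9 (.d k161 k173 k97 1 7)))))] .n) (.c k165 (.q k90 [(.s k1 k253 13 (.s k3 k2 0 (.s k170 k10 11 (.s
  k168 k171 0 (.d k252 k84 k86 13 14))))), (.s k10 k170 11 (.s k69 k117 3 (.s k79 k112 6 (.s k74 k64
  2 (.d k138 k202 k207 7 10))))), (.s k1 k253 13 (.s k33 k237 9 (.s k49 k17 3 (.s k69 k117 3 (.d
  k205 k137 k153 9 13)))))] .n) .n))) (.c k250 (.q k245 [(.s k165 k5 11 (.s k117 k69 3 (.s k53 k181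
  7 (.s k197 k149 11 (.d k229 k213 k37 3 7))))), (.s k165 k5 11 (.s k173 k161 1 (.s k253 k1 13 (.s
  k13 k93 11 (.d k241 k249 k89 1 13)))))] (.c k5 (.l (.s k1 k253 13 (.s k33 k237 9 (.s k49 k17 3 (.s
  k69 k117 3 (.d k205 k137 k153 9 13)))))) (.c k90 (.l (.s k165 k5 11 (.s k117 k69 3 (.s k53 k181 7
  (.s k197 k149 11 (.d k229 k213 k37 3 7)))))) (.c k165 (.q k90 [(.s k117 k69 3 (.s k237 k33 9 (.s
  k253 k1 13 (.s k49 k185 9 (.d k205 k221 k153 3 13))))), (.s k69 k117 3 (.s k207 k138 10 (.s k237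
  k33 9 (.s k252 k222 4 (.s k84 k168 13 (.d k86 k87 k3 0 14)))))), (.s k1 k253 13 (.s k3 k2 0 (.s
  k69 k117 3 (.s k207 k138 10 (.s k71 k139 9 (.d k86 k252 k116 14 4)))))), (.s k1 k253 13 (.s k3 k2
  0 (.s k33 k237 9 (.s k48 k18 4 (.s k16 k32 3 (.d k154 k223 k207 10 14))))))] .n) .n)))) .n)))))
  (.c k165 (.q k90 [(.s k1 k253 13 (.s k33 k237 9 (.s k49 k17 3 (.s k69 k117 3 (.d k205 k137 k153 9
  13))))), (.s k69 k117 3 (.s k79 k112 6 (.s k64 k74 2 (.s k95 k80 2 (.d k127 k111 k106 3 6))))),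
  (.s k1 k253 13 (.s k3 k2 0 (.s k33 k237 9 (.s k48 k18 4 (.s k16 k32 3 (.d k154 k223 k207 10
  14))))))] (.c k48 (.l (.s k1 k253 13 (.s k33 k237 9 (.s k49 k17 3 (.s k205 k153 13 (.d k69 k117
  k137 3 9)))))) (.c k95 (.q k175 [(.s k117 k69 3 (.s k237 k33 9 (.s k253 k1 13 (.s k49 k185 9 (.d
  k205 k221 k153 3 13))))), (.s k69 k117 3 (.s k207 k138 10 (.s k237 k33 9 (.s k252 k222 4 (.s k84
  k168 13 (.d k86 k87 k3 0 14)))))), (.s k1 k253 13 (.s k3 k2 0 (.s k69 k117 3 (.s k207 k138 10 (.s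
  k71 k139 9 (.d k86 k252 k116 14 4)))))), (.s k1 k253 13 (.s k3 k2 0 (.s k33 k237 9 (.s k48 k18 4
  (.s k16 k32 3 (.d k154 k223 k207 10 14))))))] (.c k245 (.q k250 [(.s k1 k253 13 (.s k3 k2 0 (.s
  k170 k10 11 (.s k168 k171 0 (.d k252 k84 k86 13 14))))), (.s k10 k170 11 (.s k69 k117 3 (.s k79
  k112 6 (.s k74 k64 2 (.d k138 k202 k207 7 10))))), (.s k1 k253 13 (.s k33 k237 9 (.s k49 k17 3 (.s
  k69 k117 3 (.d k205 k137 k153 9 13)))))] .n) (.c k250 (.q k245 [(.s k117 k69 3 (.s k237 k33 9 (.s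
  k253 k1 13 (.s k49 k185 9 (.d k205 k221 k153 3 13))))), (.s k69 k117 3 (.s k207 k138 10 (.s k237
  k33 9 (.s k252 k222 4 (.s k84 k168 13 (.d k86 k87 k3 0 14)))))), (.s k1 k253 13 (.s k3 k2 0 (.s
  k69 k117 3 (.s k207 k138 10 (.s k71 k139 9 (.d k86 k252 k116 14 4)))))), (.s k1 k253 13 (.s k3 k2
  0 (.s k33 k237 9 (.s k48 k18 4 (.s k16 k32 3 (.d k154 k223 k207 10 14))))))] .n) .n))) (.c k175
  (.l (.s k95 k80 2 (.s k69 k117 3 (.s k79 k112 6 (.s k64 k74 2 (.d k127 k111 k106 3 6)))))) (.c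
  k245 (.q k250 [(.s k1 k253 13 (.s k3 k2 0 (.s k170 k10 11 (.s k168 k171 0 (.d k252 k84 k86 13
  14))))), (.s k95 k80 2 (.s k69 k117 3 (.s k79 k112 6 (.s k64 k74 2 (.d k127 k111 k106 3 6)))))]
  (.c k95 (.q k175 [(.s k1 k253 13 (.s k3 k2 0 (.s k170 k10 11 (.s k168 k171 0 (.d k252 k84 k86 13
  14))))), (.s k10 k170 11 (.s k69 k117 3 (.s k79 k112 6 (.s k74 k64 2 (.d k138 k202 k207 7 10))))),
  (.s k1 k253 13 (.s k33 k237 9 (.s k49 k17 3 (.s k69 k117 3 (.d k205 k137 k153 9 13)))))] .n) (.c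
  k175 (.l (.s k95 k80 2 (.s k69 k117 3 (.s k79 k112 6 (.s k64 k74 2 (.d k127 k111 k106 3 6))))))
  .n))) (.c k250 (.q k245 [(.s k1 k253 13 (.s k33 k237 9 (.s k49 k17 3 (.s k69 k117 3 (.d k205 k137
  k153 9 13))))), (.s k69 k117 3 (.s k79 k112 6 (.s k64 k74 2 (.s k95 k80 2 (.d k127 k111 k106 3
  6))))), (.s k1 k253 13 (.s k3 k2 0 (.s k33 k237 9 (.s k48 k18 4 (.s k16 k32 3 (.d k154 k223 k207
  10 14))))))] (.c k48 (.l (.s k1 k253 13 (.s k33 k237 9 (.s k49 k17 3 (.s k205 k153 13 (.d k69 k117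
  k137 3 9)))))) (.c k95 (.q k175 [(.s k117 k69 3 (.s k237 k33 9 (.s k253 k1 13 (.s k49 k185 9 (.d
  k205 k221 k153 3 13))))), (.s k69 k117 3 (.s k207 k138 10 (.s k237 k33 9 (.s k252 k222 4 (.s k84
  k168 13 (.d k86 k87 k3 0 14)))))), (.s k1 k253 13 (.s k3 k2 0 (.s k69 k117 3 (.s k207 k138 10 (.s
  k71 k139 9 (.d k86 k252 k116 14 4)))))), (.s k1 k253 13 (.s k3 k2 0 (.s k33 k237 9 (.s k48 k18 4
  (.s k16 k32 3 (.d k154 k223 k207 10 14))))))] .n) (.c k175 (.l (.s k95 k80 2 (.s k69 k117 3 (.s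
  k79 k112 6 (.s k64 k74 2 (.d k127 k111 k106 3 6)))))) .n)))) .n)))))) (.c k175 (.q k95 [(.s k1
  k253 13 (.s k33 k237 9 (.s k49 k17 3 (.s k205 k153 13 (.d k69 k117 k137 3 9))))), (.s k69 k117 3
  (.s k90 k80 2 (.s k79 k112 6 (.s k64 k74 2 (.d k127 k111 k106 3 6))))), (.s k1 k253 13 (.s k3 k2 0
  (.s k33 k237 9 (.s k48 k18 4 (.s k16 k32 3 (.d k154 k223 k207 10 14))))))] (.c k90 (.q k165 [(.s
  k245 k5 11 (.s k117 k69 3 (.s k53 k181 7 (.s k197 k149 11 (.d k229 k213 k37 3 7))))), (.s k1 k253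
  13 (.s k161 k173 1 (.s k241 k81 11 (.s k13 k89 13 (.d k5 k245 k9 11 1)))))] (.c k5 (.l (.s k1 k253
  13 (.s k33 k237 9 (.s k49 k17 3 (.s k69 k117 3 (.d k205 k137 k153 9 13)))))) (.c k245 (.q k250
  [(.s k1 k253 13 (.s k33 k237 9 (.s k49 k17 3 (.s k205 k153 13 (.d k69 k117 k137 3 9))))), (.s k33
  k237 9 (.s k37 k229 7 (.s k45 k41 1 (.s k225 k105 9 (.d k161 k173 k97 1 7))))), (.s k1 k253 13 (.s
  k3 k2 0 (.s k69 k117 3 (.s k207 k138 10 (.s k71 k139 9 (.d k86 k252 k116 14 4))))))] .n) (.c k250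
  (.l (.s k245 k5 11 (.s k117 k69 3 (.s k53 k181 7 (.s k197 k149 11 (.d k229 k213 k37 3 7))))))
  .n)))) (.c k165 (.l (.s k90 k80 2 (.s k69 k117 3 (.s k79 k112 6 (.s k64 k74 2 (.d k127 k111 k106 3
  6)))))) (.c k245 (.q k250 [(.s k1 k253 13 (.s k33 k237 9 (.s k49 k17 3 (.s k205 k153 13 (.d k69
  k117 k137 3 9))))), (.s k69 k117 3 (.s k90 k80 2 (.s k79 k112 6 (.s k64 k74 2 (.d k127 k111 k106 3
  6))))), (.s k1 k253 13 (.s k3 k2 0 (.s k33 k237 9 (.s k48 k18 4 (.s k16 k32 3 (.d k154 k223 k207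
  10 14))))))] (.c k90 (.q k165 [(.s k1 k253 13 (.s k33 k237 9 (.s k49 k17 3 (.s k205 k153 13 (.d
  k69 k117 k137 3 9))))), (.s k33 k237 9 (.s k37 k229 7 (.s k45 k41 1 (.s k225 k105 9 (.d k161 k173
  k97 1 7))))), (.s k1 k253 13 (.s k3 k2 0 (.s k69 k117 3 (.s k207 k138 10 (.s k71 k139 9 (.d k86
  k252 k116 14 4))))))] .n) (.c k165 (.l (.s k90 k80 2 (.s k69 k117 3 (.s k79 k112 6 (.s k64 k74 2
  (.d k127 k111 k106 3 6)))))) .n))) (.c k250 (.q k245 [(.s k165 k5 11 (.s k117 k69 3 (.s k53 k181 7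
  (.s k197 k149 11 (.d k229 k213 k37 3 7))))), (.s k165 k5 11 (.s k173 k161 1 (.s k253 k1 13 (.s k13
  k93 11 (.d k241 k249 k89 1 13)))))] (.c k5 (.l (.s k1 k253 13 (.s k33 k237 9 (.s k49 k17 3 (.s k69
  k117 3 (.d k205 k137 k153 9 13)))))) (.c k90 (.l (.s k165 k5 11 (.s k117 k69 3 (.s k53 k181 7 (.s
  k197 k149 11 (.d k229 k213 k37 3 7)))))) (.c k165 (.l (.s k90 k80 2 (.s k69 k117 3 (.s k79 k112 6
  (.s k64 k74 2 (.d k127 k111 k106 3 6)))))) .n)))) .n))))) (.c k245 (.q k250 [(.s k117 k69 3 (.s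
  k237 k33 9 (.s k253 k1 13 (.s k49 k185 9 (.d k205 k221 k153 3 13))))), (.s k69 k117 3 (.s k207
  k138 10 (.s k237 k33 9 (.s k252 k222 4 (.s k84 k168 13 (.d k86 k87 k3 0 14)))))), (.s k1 k253 13
  (.s k3 k2 0 (.s k69 k117 3 (.s k207 k138 10 (.s k71 k139 9 (.d k86 k252 k116 14 4)))))), (.s k1
  k253 13 (.s k3 k2 0 (.s k33 k237 9 (.s k48 k18 4 (.s k16 k32 3 (.d k154 k223 k207 10 14))))))] (.c
  k90 (.q k165 [(.s k33 k237 9 (.s k37 k229 7 (.s k45 k41 1 (.s k161 k173 1 (.d k225 k97 k105 7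
  9))))), (.s k1 k253 13 (.s k3 k2 0 (.s k69 k117 3 (.s k207 k138 10 (.s k71 k139 9 (.d k86 k252
  k116 14 4))))))] (.c k95 (.q k175 [(.s k1 k253 13 (.s k3 k2 0 (.s k170 k160 2 (.s k168 k171 0 (.d
  k252 k84 k86 13 14))))), (.s k33 k237 9 (.s k37 k229 7 (.s k45 k41 1 (.s k225 k105 9 (.d k161 k173
  k97 1 7)))))] .n) (.c k175 (.q k95 [(.s k1 k253 13 (.s k33 k237 9 (.s k49 k17 3 (.s k205 k153 13
  (.d k69 k117 k137 3 9))))), (.s k33 k237 9 (.s k37 k229 7 (.s k45 k41 1 (.s k225 k105 9 (.d k161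
  k173 k97 1 7))))), (.s k1 k253 13 (.s k3 k2 0 (.s k69 k117 3 (.s k207 k138 10 (.s k71 k139 9 (.d
  k86 k252 k116 14 4))))))] .n) (.c k207 (.l (.s k1 k253 13 (.s k33 k237 9 (.s k49 k17 3 (.s k69
  k117 3 (.d k205 k137 k153 9 13)))))) (.c k252 (.l (.s k33 k237 9 (.s k37 k229 7 (.s k45 k41 1 (.s
  k225 k105 9 (.d k161 k173 k97 1 7)))))) .n))))) (.c k95 (.q k175 [(.s k117 k69 3 (.s k237 k33 9
  (.s k253 k1 13 (.s k49 k185 9 (.d k205 k221 k153 3 13))))), (.s k69 k117 3 (.s k207 k138 10 (.s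
  k237 k33 9 (.s k252 k222 4 (.s k84 k168 13 (.d k86 k87 k3 0 14)))))), (.s k1 k253 13 (.s k3 k2 0
  (.s k69 k117 3 (.s k207 k138 10 (.s k71 k139 9 (.d k86 k252 k116 14 4)))))), (.s k1 k253 13 (.s k3
  k2 0 (.s k33 k237 9 (.s k48 k18 4 (.s k16 k32 3 (.d k154 k223 k207 10 14))))))] (.c k90 (.q k165
  [(.s k1 k253 13 (.s k3 k2 0 (.s k170 k160 2 (.s k168 k171 0 (.d k252 k84 k86 13 14))))), (.s k33
  k237 9 (.s k37 k229 7 (.s k45 k41 1 (.s k225 k105 9 (.d k161 k173 k97 1 7)))))] .n) (.c k165 (.q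
  k90 [(.s k1 k253 13 (.s k3 k2 0 (.s k170 k10 11 (.s k168 k171 0 (.d k252 k84 k86 13 14))))), (.s
  k10 k170 11 (.s k69 k117 3 (.s k79 k112 6 (.s k74 k64 2 (.d k138 k202 k207 7 10))))), (.s k1 k253
  13 (.s k33 k237 9 (.s k49 k17 3 (.s k69 k117 3 (.d k205 k137 k153 9 13)))))] .n) .n))) (.c k165
  (.q k90 [(.s k1 k253 13 (.s k3 k2 0 (.s k170 k10 11 (.s k168 k171 0 (.d k252 k84 k86 13 14))))),
  (.s k95 k80 2 (.s k69 k117 3 (.s k79 k112 6 (.s k64 k74 2 (.d k127 k111 k106 3 6)))))] (.c k95 (.q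
  k175 [(.s k1 k253 13 (.s k3 k2 0 (.s k170 k10 11 (.s k168 k171 0 (.d k252 k84 k86 13 14))))), (.s
  k10 k170 11 (.s k69 k117 3 (.s k79 k112 6 (.s k74 k64 2 (.d k138 k202 k207 7 10))))), (.s k1 k253
  13 (.s k33 k237 9 (.s k49 k17 3 (.s k69 k117 3 (.d k205 k137 k153 9 13)))))] .n) (.c k175 (.l (.s
  k95 k80 2 (.s k69 k117 3 (.s k79 k112 6 (.s k64 k74 2 (.d k127 k111 k106 3 6)))))) .n))) (.c k175
  (.q k95 [(.s k1 k253 13 (.s k33 k237 9 (.s k49 k17 3 (.s k205 k153 13 (.d k69 k117 k137 3 9))))),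
  (.s k69 k117 3 (.s k90 k80 2 (.s k79 k112 6 (.s k64 k74 2 (.d k127 k111 k106 3 6))))), (.s k1 k253
  13 (.s k3 k2 0 (.s k33 k237 9 (.s k48 k18 4 (.s k16 k32 3 (.d k154 k223 k207 10 14))))))] (.c k90
  (.q k165 [(.s k1 k253 13 (.s k33 k237 9 (.s k49 k17 3 (.s k205 k153 13 (.d k69 k117 k137 3 9))))),
  (.s k33 k237 9 (.s k37 k229 7 (.s k45 k41 1 (.s k225 k105 9 (.d k161 k173 k97 1 7))))), (.s k1
  k253 13 (.s k3 k2 0 (.s k69 k117 3 (.s k207 k138 10 (.s k71 k139 9 (.d k86 k252 k116 14 4))))))]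
  .n) (.c k165 (.l (.s k90 k80 2 (.s k69 k117 3 (.s k79 k112 6 (.s k64 k74 2 (.d k127 k111 k106 3
  6)))))) .n))) .n))))) (.c k250 (.q k245 [(.s k165 k5 11 (.s k117 k69 3 (.s k53 k181 7 (.s k197
  k149 11 (.d k229 k213 k37 3 7))))), (.s k165 k5 11 (.s k173 k161 1 (.s k253 k1 13 (.s k13 k93 11
  (.d k241 k249 k89 1 13)))))] (.c k5 (.l (.s k1 k253 13 (.s k33 k237 9 (.s k49 k17 3 (.s k69 k117 3
  (.d k205 k137 k153 9 13)))))) (.c k90 (.l (.s k165 k5 11 (.s k117 k69 3 (.s k53 k181 7 (.s k197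
  k149 11 (.d k229 k213 k37 3 7)))))) (.c k95 (.q k175 [(.s k165 k5 11 (.s k117 k69 3 (.s k53 k181 7
  (.s k197 k149 11 (.d k229 k213 k37 3 7))))), (.s k165 k5 11 (.s k173 k161 1 (.s k253 k1 13 (.s k13
  k93 11 (.d k241 k249 k89 1 13)))))] (.c k5 (.l (.s k1 k253 13 (.s k33 k237 9 (.s k49 k17 3 (.s k69
  k117 3 (.d k205 k137 k153 9 13)))))) (.c k90 (.l (.s k165 k5 11 (.s k117 k69 3 (.s k53 k181 7 (.s
  k197 k149 11 (.d k229 k213 k37 3 7)))))) (.c k165 (.q k90 [(.s k117 k69 3 (.s k237 k33 9 (.s k253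
  k1 13 (.s k49 k185 9 (.d k205 k221 k153 3 13))))), (.s k69 k117 3 (.s k207 k138 10 (.s k237 k33 9
  (.s k252 k222 4 (.s k84 k168 13 (.d k86 k87 k3 0 14)))))), (.s k1 k253 13 (.s k3 k2 0 (.s k69 k117
  3 (.s k207 k138 10 (.s k71 k139 9 (.d k86 k252 k116 14 4)))))), (.s k1 k253 13 (.s k3 k2 0 (.s k33
  k237 9 (.s k48 k18 4 (.s k16 k32 3 (.d k154 k223 k207 10 14))))))] .n) .n)))) (.c k165 (.q k90
  [(.s k1 k253 13 (.s k33 k237 9 (.s k49 k17 3 (.s k69 k117 3 (.d k205 k137 k153 9 13))))), (.s k69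
  k117 3 (.s k79 k112 6 (.s k64 k74 2 (.s k95 k80 2 (.d k127 k111 k106 3 6))))), (.s k1 k253 13 (.s
  k3 k2 0 (.s k33 k237 9 (.s k48 k18 4 (.s k16 k32 3 (.d k154 k223 k207 10 14))))))] (.c k48 (.l (.s
  k1 k253 13 (.s k33 k237 9 (.s k49 k17 3 (.s k205 k153 13 (.d k69 k117 k137 3 9)))))) (.c k95 (.q
  k175 [(.s k117 k69 3 (.s k237 k33 9 (.s k253 k1 13 (.s k49 k185 9 (.d k205 k221 k153 3 13))))),
  (.s k69 k117 3 (.s k207 k138 10 (.s k237 k33 9 (.s k252 k222 4 (.s k84 k168 13 (.d k86 k87 k3 0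
  14)))))), (.s k1 k253 13 (.s k3 k2 0 (.s k69 k117 3 (.s k207 k138 10 (.s k71 k139 9 (.d k86 k252
  k116 14 4)))))), (.s k1 k253 13 (.s k3 k2 0 (.s k33 k237 9 (.s k48 k18 4 (.s k16 k32 3 (.d k154
  k223 k207 10 14))))))] .n) (.c k175 (.l (.s k95 k80 2 (.s k69 k117 3 (.s k79 k112 6 (.s k64 k74 2
  (.d k127 k111 k106 3 6)))))) .n)))) (.c k175 (.q k95 [(.s k165 k5 11 (.s k117 k69 3 (.s k53 k181 7
  (.s k197 k149 11 (.d k229 k213 k37 3 7))))), (.s k165 k5 11 (.s k173 k161 1 (.s k253 k1 13 (.s k13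
  k93 11 (.d k241 k249 k89 1 13)))))] (.c k5 (.l (.s k1 k253 13 (.s k33 k237 9 (.s k49 k17 3 (.s k69
  k117 3 (.d k205 k137 k153 9 13)))))) (.c k90 (.l (.s k165 k5 11 (.s k117 k69 3 (.s k53 k181 7 (.s
  k197 k149 11 (.d k229 k213 k37 3 7)))))) (.c k165 (.l (.s k90 k80 2 (.s k69 k117 3 (.s k79 k112 6
  (.s k64 k74 2 (.d k127 k111 k106 3 6)))))) .n)))) .n)))))) .n))))))) .n)))))))))))))))

def t15_241 : T TT 256 :=
  (.f k255 k170 14 (.q k105 [(.s k65 k125 5 (.s k195 k130 8 (.s k215 k235 5 (.d k150 k20 k60 8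
  14))))] (.c k20 (.q k1 [(.s k3 k2 0 (.s k87 k171 13 (.s k86 k84 0 (.d k169 k253 k252 13 14)))),
  (.s k65 k125 5 (.s k169 k253 13 (.s k41 k233 7 (.s k61 k21 5 (.d k193 k129 k149 7 13))))), (.s k3
  k2 0 (.s k65 k125 5 (.s k129 k193 7 (.s k66 k192 8 (.s k67 k64 0 (.d k195 k131 k130 7 8))))))] .n)
  (.c k60 (.f k65 k125 5 (.q k171 [(.s k195 k130 8 (.s k235 k215 5 (.s k107 k43 7 (.s k63 k151 13
  (.s k106 k104 0 (.d k127 k64 k191 6 7)))))), (.s k3 k87 13 (.s k1 k2 0 (.s k169 k253 13 (.s k41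
  k233 7 (.s k61 k21 5 (.d k193 k129 k149 7 13))))))] (.c k30 (.q k45 [(.s k195 k130 8 (.s k235 k215
  5 (.s k107 k43 7 (.s k63 k151 13 (.s k106 k104 0 (.d k127 k64 k191 6 7)))))), (.s k3 k87 13 (.s k1
  k2 0 (.s k169 k253 13 (.s k41 k233 7 (.s k61 k21 5 (.d k193 k129 k149 7 13))))))] (.c k87 (.l (.s
  k195 k130 8 (.s k235 k215 5 (.s k107 k43 7 (.s k106 k104 0 (.s k127 k64 6 (.d k63 k151 k191 13
  7))))))) .n)) (.c k45 (.q k30 [(.s k195 k130 8 (.s k235 k215 5 (.s k107 k43 7 (.s k63 k151 13 (.s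
  k106 k104 0 (.d k127 k64 k191 6 7)))))), (.s k3 k87 13 (.s k1 k2 0 (.s k169 k253 13 (.s k41 k233 7
  (.s k61 k21 5 (.d k193 k129 k149 7 13))))))] (.c k87 (.l (.s k195 k130 8 (.s k235 k215 5 (.s k107
  k43 7 (.s k106 k104 0 (.s k127 k64 6 (.d k63 k151 k191 13 7))))))) .n)) (.c k87 (.l (.s k195 k130
  8 (.s k235 k215 5 (.s k107 k43 7 (.s k106 k104 0 (.s k127 k64 6 (.d k63 k151 k191 13 7)))))))
  .n))))) (.c k65 (.q k87 [(.s k3 k171 13 (.s k1 k2 0 (.s k86 k84 0 (.d k169 k253 k252 13 14)))),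
  (.s k86 k84 0 (.s k67 k124 6 (.s k127 k107 5 (.s k63 k191 7 (.s k21 k42 6 (.s k149 k213 7 (.d k106
  k64 k192 6 14)))))))] (.c k84 (.l (.s k3 k171 13 (.s k1 k2 0 (.s k169 k253 13 (.s k41 k233 7 (.s
  k60 k22 6 (.s k20 k40 5 (.d k150 k215 k195 8 14)))))))) (.c k86 (.f k3 k171 13 (.q k169 [(.d k1 k2
  k253 0 13), (.s k41 k233 7 (.s k60 k22 6 (.s k20 k40 5 (.d k150 k215 k195 8 14))))] (.c k2 (.q
  k254 [(.d k253 k252 k1 0 13), (.s k41 k233 7 (.s k60 k22 6 (.s k20 k40 5 (.d k150 k215 k195 8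
  14))))] .n) (.c k254 (.l (.s k2 k1 0 (.s k41 k233 7 (.s k60 k22 6 (.s k20 k40 5 (.d k150 k215 k195
  8 14)))))) .n)))) .n))) (.c k125 (.q k253 [(.s k252 k254 0 (.s k84 k168 13 (.s k86 k87 0 (.d k169
  k1 k3 13 14)))), (.s k169 k1 13 (.s k233 k41 7 (.s k213 k193 5 (.s k192 k234 6 (.s k64 k128 7 (.s
  k106 k127 6 (.d k149 k21 k63 7 14)))))))] (.c k1 (.l (.s k252 k254 0 (.s k84 k168 13 (.s k86 k87 0
  (.s k124 k67 6 (.s k60 k188 7 (.s k20 k40 5 (.d k150 k215 k195 8 14)))))))) (.c k169 (.f k252 k254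
  0 (.q k86 [(.d k84 k168 k87 13 0), (.s k124 k67 6 (.s k60 k188 7 (.s k20 k40 5 (.d k150 k215 k195
  8 14))))] (.c k168 (.q k171 [(.d k87 k84 k3 0 13), (.s k124 k67 6 (.s k60 k188 7 (.s k20 k40 5 (.d
  k150 k215 k195 8 14))))] .n) (.c k171 (.l (.s k168 k84 13 (.s k124 k67 6 (.s k60 k188 7 (.s k20
  k40 5 (.d k150 k215 k195 8 14)))))) .n)))) .n))) (.c k130 (.l (.s k125 k65 5 (.s k60 k190 8 (.s
  k150 k195 14 (.d k20 k40 k215 5 8))))) (.c k150 (.f k65 k125 5 (.q k193 [(.s k1 k129 7 (.s k149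
  k61 13 (.s k213 k21 7 (.d k253 k233 k169 5 13)))), (.s k1 k129 7 (.s k3 k2 0 (.s k87 k171 13 (.s
  k86 k84 0 (.s k67 k124 6 (.d k195 k130 k131 8 7)))))), (.s k149 k61 13 (.s k21 k213 7 (.s k63 k42
  6 (.s k106 k192 14 (.d k127 k64 k191 6 7)))))] (.c k130 (.q k190 [(.s k149 k61 13 (.s k213 k21 7
  (.s k253 k233 5 (.d k1 k129 k169 7 13)))), (.s k1 k129 7 (.s k3 k2 0 (.s k87 k171 13 (.s k86 k84 0
  (.d k169 k253 k252 13 14))))), (.s k149 k61 13 (.s k21 k213 7 (.s k63 k42 6 (.s k106 k192 14 (.d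
  k127 k64 k191 6 7)))))] (.c k253 (.l (.s k129 k1 7 (.s k149 k61 13 (.s k189 k169 5 (.s k21 k213 7
  (.s k63 k42 6 (.d k191 k188 k127 0 7))))))) .n)) (.c k190 (.l (.s k130 k195 8 (.s k1 k129 7 (.s
  k61 k149 13 (.s k41 k21 5 (.d k169 k233 k253 7 13)))))) .n)))) (.c k190 (.l (.s k65 k125 5 (.s
  k195 k130 8 (.s k150 k60 14 (.d k215 k235 k20 5 8))))) (.c k195 (.f k65 k125 5 (.q k1 [(.s k3 k2 0
  (.s k87 k171 13 (.s k86 k84 0 (.d k169 k253 k252 13 14)))), (.s k193 k129 7 (.s k149 k61 13 (.s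
  k21 k213 7 (.s k63 k42 6 (.s k106 k192 14 (.d k127 k64 k191 6 7))))))] (.c k3 (.l (.s k169 k253 13
  (.s k41 k233 7 (.s k61 k21 5 (.d k193 k129 k149 7 13))))) (.c k75 (.q k135 [(.s k3 k2 0 (.s k87
  k171 13 (.s k86 k84 0 (.d k169 k253 k252 13 14)))), (.s k193 k129 7 (.s k149 k61 13 (.s k21 k213 7
  (.s k63 k42 6 (.s k106 k192 14 (.d k127 k64 k191 6 7))))))] (.c k3 (.l (.s k169 k253 13 (.s k41
  k233 7 (.s k61 k21 5 (.d k193 k129 k149 7 13))))) (.c k253 (.l (.s k3 k2 0 (.s k87 k171 13 (.s k86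
  k84 0 (.s k67 k124 6 (.s k64 k66 0 (.d k127 k107 k106 5 6))))))) .n))) (.c k135 (.q k75 [(.s k3 k2
  0 (.s k87 k171 13 (.s k86 k84 0 (.d k169 k253 k252 13 14)))), (.s k193 k129 7 (.s k149 k61 13 (.s
  k21 k213 7 (.s k63 k42 6 (.s k106 k192 14 (.d k127 k64 k191 6 7))))))] (.c k3 (.l (.s k169 k253 13
  (.s k41 k233 7 (.s k61 k21 5 (.d k193 k129 k149 7 13))))) (.c k253 (.l (.s k3 k2 0 (.s k87 k171 13
  (.s k86 k84 0 (.s k67 k124 6 (.s k64 k66 0 (.d k127 k107 k106 5 6))))))) .n))) (.c k253 (.l (.s k3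
  k2 0 (.s k87 k171 13 (.s k86 k84 0 (.s k67 k124 6 (.s k64 k66 0 (.d k127 k107 k106 5 6)))))))
  .n)))))) (.c k215 (.q k1 [(.s k3 k2 0 (.s k87 k171 13 (.s k86 k84 0 (.d k169 k253 k252 13 14)))),
  (.s k65 k125 5 (.s k169 k253 13 (.s k41 k233 7 (.s k61 k21 5 (.d k193 k129 k149 7 13))))), (.s k3
  k2 0 (.s k65 k125 5 (.s k129 k193 7 (.s k66 k192 8 (.s k67 k64 0 (.d k195 k131 k130 7 8))))))] .n)
  (.c k235 (.l (.s k125 k65 5 (.s k60 k190 8 (.s k20 k40 5 (.d k150 k215 k195 8 14)))))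
  .n))))))))))))

def t15_242 : T TT 256 :=
  (.f k255 k170 14 (.q k105 [(.s k65 k125 5 (.s k195 k130 8 (.s k215 k235 5 (.d k150 k20 k60 8
  14))))] (.c k20 (.q k1 [(.s k3 k2 0 (.s k87 k171 13 (.s k169 k253 13 (.d k86 k84 k252 0 14)))),
  (.s k65 k125 5 (.s k169 k253 13 (.s k41 k233 7 (.s k61 k21 5 (.d k193 k129 k149 7 13))))), (.s k3
  k2 0 (.s k65 k125 5 (.s k129 k193 7 (.s k66 k192 8 (.s k67 k64 0 (.d k195 k131 k130 7 8))))))] .n)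
  (.c k60 (.f k65 k125 5 (.q k171 [(.s k195 k130 8 (.s k235 k215 5 (.s k107 k43 7 (.s k63 k151 13
  (.s k106 k104 0 (.d k127 k64 k191 6 7)))))), (.s k3 k87 13 (.s k1 k2 0 (.s k169 k253 13 (.s k41
  k233 7 (.s k61 k21 5 (.d k193 k129 k149 7 13))))))] (.c k30 (.q k45 [(.s k195 k130 8 (.s k235 k215
  5 (.s k107 k43 7 (.s k63 k151 13 (.s k106 k104 0 (.d k127 k64 k191 6 7)))))), (.s k3 k87 13 (.s k1
  k2 0 (.s k169 k253 13 (.s k41 k233 7 (.s k61 k21 5 (.d k193 k129 k149 7 13))))))] (.c k87 (.l (.s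
  k195 k130 8 (.s k235 k215 5 (.s k107 k43 7 (.s k106 k104 0 (.s k127 k64 6 (.d k63 k151 k191 13
  7))))))) .n)) (.c k45 (.q k30 [(.s k195 k130 8 (.s k235 k215 5 (.s k107 k43 7 (.s k63 k151 13 (.s
  k106 k104 0 (.d k127 k64 k191 6 7)))))), (.s k3 k87 13 (.s k1 k2 0 (.s k169 k253 13 (.s k41 k233 7
  (.s k61 k21 5 (.d k193 k129 k149 7 13))))))] (.c k87 (.l (.s k195 k130 8 (.s k235 k215 5 (.s k107
  k43 7 (.s k106 k104 0 (.s k127 k64 6 (.d k63 k151 k191 13 7))))))) .n)) (.c k87 (.l (.s k195 k130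
  8 (.s k235 k215 5 (.s k107 k43 7 (.s k106 k104 0 (.s k127 k64 6 (.d k63 k151 k191 13 7)))))))
  .n))))) (.c k65 (.q k213 [(.s k149 k21 7 (.s k192 k234 6 (.s k64 k128 7 (.d k106 k127 k63 6
  14)))), (.s k149 k21 7 (.s k193 k61 13 (.s k253 k233 5 (.s k252 k254 0 (.s k84 k168 13 (.s k86 k87
  0 (.d k169 k1 k3 13 14)))))))] (.c k21 (.l (.s k192 k234 6 (.s k64 k128 7 (.s k106 k127 6 (.s k104
  k107 0 (.s k60 k148 13 (.s k20 k40 5 (.d k150 k215 k195 8 14)))))))) (.c k149 (.f k192 k234 6 (.q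
  k106 [(.d k64 k128 k127 7 6), (.s k104 k107 0 (.s k60 k148 13 (.s k20 k40 5 (.d k150 k215 k195 8
  14))))] (.c k128 (.q k191 [(.d k127 k64 k63 6 7), (.s k104 k107 0 (.s k60 k148 13 (.s k20 k40 5
  (.d k150 k215 k195 8 14))))] .n) (.c k191 (.l (.s k128 k64 7 (.s k104 k107 0 (.s k60 k148 13 (.s
  k20 k40 5 (.d k150 k215 k195 8 14)))))) .n)))) .n))) (.c k125 (.q k213 [(.s k149 k21 7 (.s k192
  k234 6 (.s k64 k128 7 (.d k106 k127 k63 6 14)))), (.s k149 k21 7 (.s k193 k61 13 (.s k253 k233 5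
  (.s k252 k254 0 (.s k84 k168 13 (.s k86 k87 0 (.d k169 k1 k3 13 14)))))))] (.c k21 (.l (.s k192
  k234 6 (.s k64 k128 7 (.s k106 k127 6 (.s k104 k107 0 (.s k60 k148 13 (.s k20 k40 5 (.d k150 k215
  k195 8 14)))))))) (.c k149 (.f k192 k234 6 (.q k106 [(.d k64 k128 k127 7 6), (.s k104 k107 0 (.s
  k60 k148 13 (.s k20 k40 5 (.d k150 k215 k195 8 14))))] (.c k128 (.q k191 [(.d k127 k64 k63 6 7),
  (.s k104 k107 0 (.s k60 k148 13 (.s k20 k40 5 (.d k150 k215 k195 8 14))))] .n) (.c k191 (.l (.s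
  k128 k64 7 (.s k104 k107 0 (.s k60 k148 13 (.s k20 k40 5 (.d k150 k215 k195 8 14)))))) .n))))
  .n))) (.c k130 (.l (.s k125 k65 5 (.s k60 k190 8 (.s k150 k195 14 (.d k20 k40 k215 5 8))))) (.c
  k150 (.f k65 k125 5 (.q k69 [(.s k77 k73 1 (.s k101 k117 3 (.s k97 k109 1 (.d k113 k81 k89 3
  5)))), (.s k207 k138 10 (.s k223 k239 3 (.s k154 k16 10 (.d k101 k117 k48 3 14)))), (.s k73 k77 1
  (.s k138 k207 10 (.s k8 k203 8 (.s k12 k4 1 (.d k195 k130 k134 8 10)))))] (.c k130 (.q k190 [(.s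
  k77 k73 1 (.s k101 k117 3 (.s k97 k109 1 (.d k113 k81 k89 3 5)))), (.s k207 k138 10 (.s k223 k239
  3 (.s k154 k16 10 (.d k101 k117 k48 3 14)))), (.s k73 k77 1 (.s k138 k207 10 (.s k8 k203 8 (.s k12
  k4 1 (.s k93 k174 12 (.d k89 k81 k121 1 3))))))] .n) (.c k190 (.l (.s k130 k195 8 (.s k77 k73 1
  (.s k101 k117 3 (.s k97 k109 1 (.d k113 k81 k89 3 5)))))) .n)))) (.c k190 (.l (.s k65 k125 5 (.s
  k195 k130 8 (.s k150 k60 14 (.d k215 k235 k20 5 8))))) (.c k195 (.f k65 k125 5 (.q k1 [(.s k169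
  k253 13 (.s k193 k129 7 (.s k61 k149 13 (.d k41 k21 k233 5 7)))), (.s k3 k2 0 (.s k87 k171 13 (.s
  k86 k84 0 (.s k67 k124 6 (.s k64 k66 0 (.d k127 k107 k106 5 6))))))] (.c k75 (.q k135 [(.s k169
  k253 13 (.s k193 k129 7 (.s k61 k149 13 (.d k41 k21 k233 5 7)))), (.s k3 k2 0 (.s k87 k171 13 (.s
  k86 k84 0 (.s k67 k124 6 (.s k64 k66 0 (.d k127 k107 k106 5 6))))))] (.c k169 (.l (.s k193 k129 7
  (.s k149 k61 13 (.s k21 k213 7 (.s k63 k42 6 (.s k106 k192 14 (.d k127 k64 k191 6 7))))))) .n))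
  (.c k135 (.q k75 [(.s k169 k253 13 (.s k193 k129 7 (.s k61 k149 13 (.d k41 k21 k233 5 7)))), (.s
  k3 k2 0 (.s k87 k171 13 (.s k86 k84 0 (.s k67 k124 6 (.s k64 k66 0 (.d k127 k107 k106 5 6))))))]
  (.c k169 (.l (.s k193 k129 7 (.s k149 k61 13 (.s k21 k213 7 (.s k63 k42 6 (.s k106 k192 14 (.d
  k127 k64 k191 6 7))))))) .n)) (.c k169 (.l (.s k193 k129 7 (.s k149 k61 13 (.s k21 k213 7 (.s k63
  k42 6 (.s k106 k192 14 (.d k127 k64 k191 6 7))))))) .n))))) (.c k215 (.q k1 [(.s k3 k2 0 (.s k87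
  k171 13 (.s k86 k84 0 (.d k169 k253 k252 13 14)))), (.s k65 k125 5 (.s k169 k253 13 (.s k41 k233 7
  (.s k61 k21 5 (.d k193 k129 k149 7 13))))), (.s k3 k2 0 (.s k65 k125 5 (.s k129 k193 7 (.s k66
  k192 8 (.s k67 k64 0 (.d k195 k131 k130 7 8))))))] .n) (.c k235 (.l (.s k125 k65 5 (.s k60 k190 8
  (.s k20 k40 5 (.d k150 k215 k195 8 14))))) .n))))))))))))

def t15_246 : T TT 256 :=
  (.f k255 k170 14 (.q k105 [(.s k65 k125 5 (.s k195 k130 8 (.s k215 k235 5 (.d k150 k20 k60 8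
  14))))] (.c k20 (.q k1 [(.s k3 k2 0 (.s k87 k171 13 (.s k169 k253 13 (.d k86 k84 k252 0 14)))),
  (.s k65 k125 5 (.s k169 k253 13 (.s k41 k233 7 (.s k61 k21 5 (.d k193 k129 k149 7 13))))), (.s k3
  k2 0 (.s k65 k125 5 (.s k129 k193 7 (.s k66 k192 8 (.s k67 k64 0 (.d k195 k131 k130 7 8))))))] .n)
  (.c k60 (.f k65 k125 5 (.q k171 [(.s k3 k87 13 (.s k1 k2 0 (.s k169 k253 13 (.s k41 k233 7 (.s k61
  k21 5 (.d k193 k129 k149 7 13)))))), (.s k195 k130 8 (.s k235 k215 5 (.s k107 k43 7 (.s k106 k104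
  0 (.s k127 k64 6 (.d k63 k191 k151 7 13))))))] (.c k30 (.q k45 [(.s k3 k87 13 (.s k1 k2 0 (.s k169
  k253 13 (.s k41 k233 7 (.s k61 k21 5 (.d k193 k129 k149 7 13)))))), (.s k195 k130 8 (.s k235 k215
  5 (.s k107 k43 7 (.s k106 k104 0 (.s k127 k64 6 (.d k63 k191 k151 7 13))))))] .n) (.c k45 (.q k30
  [(.s k3 k87 13 (.s k1 k2 0 (.s k169 k253 13 (.s k41 k233 7 (.s k61 k21 5 (.d k193 k129 k149 7
  13)))))), (.s k195 k130 8 (.s k235 k215 5 (.s k107 k43 7 (.s k106 k104 0 (.s k127 k64 6 (.d k63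
  k191 k151 7 13))))))] .n) .n)))) (.c k65 (.q k213 [(.s k149 k21 7 (.s k192 k234 6 (.s k64 k128 7
  (.d k106 k127 k63 6 14)))), (.s k149 k21 7 (.s k193 k61 13 (.s k253 k233 5 (.s k252 k254 0 (.s k84
  k168 13 (.s k86 k87 0 (.d k169 k1 k3 13 14)))))))] (.c k21 (.l (.s k192 k234 6 (.s k64 k128 7 (.s
  k106 k127 6 (.s k104 k107 0 (.s k60 k148 13 (.s k20 k40 5 (.d k150 k215 k195 8 14)))))))) (.c k149
  (.f k192 k234 6 (.q k106 [(.d k64 k128 k127 7 6), (.s k104 k107 0 (.s k60 k148 13 (.s k20 k40 5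
  (.d k150 k215 k195 8 14))))] (.c k128 (.q k191 [(.d k127 k64 k63 6 7), (.s k104 k107 0 (.s k60
  k148 13 (.s k20 k40 5 (.d k150 k215 k195 8 14))))] .n) (.c k191 (.l (.s k128 k64 7 (.s k104 k107 0
  (.s k60 k148 13 (.s k20 k40 5 (.d k150 k215 k195 8 14)))))) .n)))) .n))) (.c k125 (.q k213 [(.s
  k149 k21 7 (.s k192 k234 6 (.s k64 k128 7 (.d k106 k127 k63 6 14)))), (.s k149 k21 7 (.s k193 k61
  13 (.s k253 k233 5 (.s k252 k254 0 (.s k84 k168 13 (.s k86 k87 0 (.d k169 k1 k3 13 14)))))))] (.c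
  k21 (.l (.s k192 k234 6 (.s k64 k128 7 (.s k106 k127 6 (.s k104 k107 0 (.s k60 k148 13 (.s k20 k40
  5 (.d k150 k215 k195 8 14)))))))) (.c k149 (.f k192 k234 6 (.q k106 [(.d k64 k128 k127 7 6), (.s
  k104 k107 0 (.s k60 k148 13 (.s k20 k40 5 (.d k150 k215 k195 8 14))))] (.c k128 (.q k191 [(.d k127
  k64 k63 6 7), (.s k104 k107 0 (.s k60 k148 13 (.s k20 k40 5 (.d k150 k215 k195 8 14))))] .n) (.c
  k191 (.l (.s k128 k64 7 (.s k104 k107 0 (.s k60 k148 13 (.s k20 k40 5 (.d k150 k215 k195 8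
  14)))))) .n)))) .n))) (.c k130 (.l (.s k125 k65 5 (.s k60 k190 8 (.s k150 k195 14 (.d k20 k40 k215
  5 8))))) (.c k150 (.f k65 k125 5 (.q k69 [(.s k77 k73 1 (.s k101 k117 3 (.s k97 k109 1 (.d k113
  k81 k89 3 5)))), (.s k207 k138 10 (.s k223 k239 3 (.s k154 k16 10 (.d k101 k117 k48 3 14)))), (.s
  k73 k77 1 (.s k138 k207 10 (.s k8 k203 8 (.s k12 k4 1 (.d k195 k130 k134 8 10)))))] (.c k130 (.q
  k190 [(.s k77 k73 1 (.s k101 k117 3 (.s k97 k109 1 (.d k113 k81 k89 3 5)))), (.s k207 k138 10 (.s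
  k223 k239 3 (.s k154 k16 10 (.d k101 k117 k48 3 14)))), (.s k73 k77 1 (.s k138 k207 10 (.s k8 k203
  8 (.s k12 k4 1 (.s k93 k174 12 (.d k89 k81 k121 1 3))))))] .n) (.c k190 (.l (.s k130 k195 8 (.s
  k77 k73 1 (.s k101 k117 3 (.s k97 k109 1 (.d k113 k81 k89 3 5)))))) .n)))) (.c k190 (.l (.s k65
  k125 5 (.s k195 k130 8 (.s k150 k60 14 (.d k215 k235 k20 5 8))))) (.c k195 (.f k65 k125 5 (.q k1
  [(.s k3 k2 0 (.s k87 k171 13 (.s k86 k84 0 (.d k169 k253 k252 13 14)))), (.s k193 k129 7 (.s k149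
  k61 13 (.s k21 k213 7 (.s k63 k42 6 (.s k106 k192 14 (.d k127 k64 k191 6 7))))))] (.c k3 (.l (.s
  k169 k253 13 (.s k41 k233 7 (.s k61 k21 5 (.d k193 k129 k149 7 13))))) (.c k75 (.q k135 [(.s k3 k2
  0 (.s k87 k171 13 (.s k86 k84 0 (.d k169 k253 k252 13 14)))), (.s k193 k129 7 (.s k149 k61 13 (.s
  k21 k213 7 (.s k63 k42 6 (.s k106 k192 14 (.d k127 k64 k191 6 7))))))] (.c k3 (.l (.s k169 k253 13
  (.s k41 k233 7 (.s k61 k21 5 (.d k193 k129 k149 7 13))))) (.c k253 (.l (.s k3 k2 0 (.s k87 k171 13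
  (.s k86 k84 0 (.s k67 k124 6 (.s k64 k66 0 (.d k127 k107 k106 5 6))))))) .n))) (.c k135 (.q k75
  [(.s k3 k2 0 (.s k87 k171 13 (.s k86 k84 0 (.d k169 k253 k252 13 14)))), (.s k193 k129 7 (.s k149
  k61 13 (.s k21 k213 7 (.s k63 k42 6 (.s k106 k192 14 (.d k127 k64 k191 6 7))))))] (.c k3 (.l (.s
  k169 k253 13 (.s k41 k233 7 (.s k61 k21 5 (.d k193 k129 k149 7 13))))) (.c k253 (.l (.s k3 k2 0
  (.s k87 k171 13 (.s k86 k84 0 (.s k67 k124 6 (.s k64 k66 0 (.d k127 k107 k106 5 6))))))) .n))) (.c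
  k253 (.l (.s k3 k2 0 (.s k87 k171 13 (.s k86 k84 0 (.s k67 k124 6 (.s k64 k66 0 (.d k127 k107 k106
  5 6))))))) .n)))))) (.c k215 (.q k1 [(.s k3 k2 0 (.s k87 k171 13 (.s k86 k84 0 (.d k169 k253 k252
  13 14)))), (.s k65 k125 5 (.s k169 k253 13 (.s k41 k233 7 (.s k61 k21 5 (.d k193 k129 k149 7
  13))))), (.s k3 k2 0 (.s k65 k125 5 (.s k129 k193 7 (.s k66 k192 8 (.s k67 k64 0 (.d k195 k131
  k130 7 8))))))] .n) (.c k235 (.l (.s k125 k65 5 (.s k60 k190 8 (.s k20 k40 5 (.d k150 k215 k195 8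
  14))))) .n))))))))))))

def t15_247 : T TT 256 :=
  (.f k255 k170 14 (.q k105 [(.s k65 k125 5 (.s k195 k130 8 (.s k215 k235 5 (.d k150 k20 k60 8
  14))))] (.c k20 (.q k1 [(.s k3 k2 0 (.s k87 k171 13 (.s k169 k253 13 (.d k86 k84 k252 0 14)))),
  (.s k65 k125 5 (.s k169 k253 13 (.s k41 k233 7 (.s k61 k21 5 (.d k193 k129 k149 7 13))))), (.s k3
  k2 0 (.s k65 k125 5 (.s k129 k193 7 (.s k66 k192 8 (.s k67 k64 0 (.d k195 k131 k130 7 8))))))] .n)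
  (.c k60 (.f k65 k125 5 (.q k154 [(.s k16 k223 10 (.s k48 k32 3 (.s k117 k186 10 (.d k101 k69 k207
  3 14)))), (.s k195 k130 8 (.s k203 k56 12 (.s k207 k199 1 (.s k69 k138 10 (.d k101 k48 k117 14
  3))))), (.s k195 k130 8 (.s k203 k56 12 (.s k207 k199 1 (.d k223 k239 k16 3 10))))] (.c k30 (.q
  k45 [(.s k16 k223 10 (.s k48 k32 3 (.s k117 k186 10 (.d k101 k69 k207 3 14)))), (.s k195 k130 8
  (.s k203 k56 12 (.s k207 k199 1 (.s k69 k138 10 (.d k101 k48 k117 14 3))))), (.s k195 k130 8 (.s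
  k203 k56 12 (.s k207 k199 1 (.d k223 k239 k16 3 10))))] (.c k48 (.l (.s k195 k130 8 (.s k223 k16
  10 (.s k207 k239 3 (.d k203 k199 k56 1 12))))) (.c k207 (.l (.s k16 k223 10 (.s k48 k32 3 (.s k117
  k186 10 (.s k101 k69 3 (.s k195 k130 8 (.d k97 k109 k146 1 12))))))) .n))) (.c k45 (.q k30 [(.s
  k16 k223 10 (.s k48 k32 3 (.s k117 k186 10 (.d k101 k69 k207 3 14)))), (.s k195 k130 8 (.s k203
  k56 12 (.s k207 k199 1 (.s k69 k138 10 (.d k101 k48 k117 14 3))))), (.s k195 k130 8 (.s k203 k56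
  12 (.s k207 k199 1 (.d k223 k239 k16 3 10))))] (.c k48 (.l (.s k195 k130 8 (.s k223 k16 10 (.s
  k207 k239 3 (.d k203 k199 k56 1 12))))) (.c k207 (.l (.s k16 k223 10 (.s k48 k32 3 (.s k117 k186
  10 (.s k101 k69 3 (.s k195 k130 8 (.d k97 k109 k146 1 12))))))) .n))) (.c k48 (.l (.s k195 k130 8
  (.s k223 k16 10 (.s k207 k239 3 (.d k203 k199 k56 1 12))))) (.c k207 (.l (.s k16 k223 10 (.s k48
  k32 3 (.s k117 k186 10 (.s k101 k69 3 (.s k195 k130 8 (.d k97 k109 k146 1 12))))))) .n)))))) (.c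
  k65 (.q k1 [(.s k3 k2 0 (.s k87 k171 13 (.s k86 k84 0 (.d k169 k253 k252 13 14)))), (.s k169 k253
  13 (.s k41 k233 7 (.s k21 k61 5 (.s k63 k42 6 (.s k127 k191 7 (.s k106 k64 6 (.d k149 k213 k192 7
  14)))))))] (.c k169 (.f k3 k2 0 (.q k86 [(.d k87 k171 k84 13 0), (.s k67 k124 6 (.s k195 k131 7
  (.s k150 k60 14 (.d k215 k235 k20 5 8))))] (.c k168 (.l (.s k171 k87 13 (.s k67 k124 6 (.s k195
  k131 7 (.s k150 k60 14 (.d k215 k235 k20 5 8)))))) (.c k171 (.q k168 [(.d k84 k87 k252 0 13), (.s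
  k67 k124 6 (.s k195 k131 7 (.s k215 k235 5 (.d k150 k20 k60 8 14))))] .n) .n)))) (.c k253 (.l (.s
  k3 k2 0 (.s k87 k171 13 (.s k86 k84 0 (.s k67 k124 6 (.s k195 k131 7 (.s k150 k60 14 (.d k215 k235
  k20 5 8)))))))) .n))) (.c k125 (.q k253 [(.s k169 k1 13 (.s k252 k254 0 (.s k84 k168 13 (.d k86
  k87 k3 0 14)))), (.s k169 k1 13 (.s k233 k41 7 (.s k213 k193 5 (.s k192 k234 6 (.s k64 k128 7 (.s
  k106 k127 6 (.d k149 k21 k63 7 14)))))))] (.c k1 (.l (.s k252 k254 0 (.s k84 k168 13 (.s k86 k87 0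
  (.s k124 k67 6 (.s k60 k188 7 (.s k20 k40 5 (.d k150 k215 k195 8 14)))))))) (.c k169 (.f k252 k254
  0 (.q k86 [(.d k84 k168 k87 13 0), (.s k124 k67 6 (.s k60 k188 7 (.s k20 k40 5 (.d k150 k215 k195
  8 14))))] (.c k168 (.q k171 [(.d k87 k84 k3 0 13), (.s k124 k67 6 (.s k60 k188 7 (.s k20 k40 5 (.d
  k150 k215 k195 8 14))))] .n) (.c k171 (.l (.s k168 k84 13 (.s k124 k67 6 (.s k60 k188 7 (.s k20
  k40 5 (.d k150 k215 k195 8 14)))))) .n)))) .n))) (.c k130 (.l (.s k125 k65 5 (.s k60 k190 8 (.s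
  k150 k195 14 (.d k20 k40 k215 5 8))))) (.c k150 (.f k65 k125 5 (.q k193 [(.s k1 k129 7 (.s k149
  k61 13 (.s k213 k21 7 (.d k253 k233 k169 5 13)))), (.s k1 k129 7 (.s k3 k2 0 (.s k87 k171 13 (.s
  k86 k84 0 (.s k67 k124 6 (.d k195 k130 k131 8 7)))))), (.s k149 k61 13 (.s k21 k213 7 (.s k63 k42
  6 (.s k106 k192 14 (.d k127 k64 k191 6 7)))))] (.c k130 (.q k190 [(.s k149 k61 13 (.s k213 k21 7
  (.s k253 k233 5 (.d k1 k129 k169 7 13)))), (.s k1 k129 7 (.s k3 k2 0 (.s k87 k171 13 (.s k86 k84 0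
  (.d k169 k253 k252 13 14))))), (.s k149 k61 13 (.s k21 k213 7 (.s k63 k42 6 (.s k106 k192 14 (.d
  k127 k64 k191 6 7)))))] (.c k253 (.l (.s k129 k1 7 (.s k149 k61 13 (.s k189 k169 5 (.s k21 k213 7
  (.s k63 k42 6 (.d k191 k188 k127 0 7))))))) .n)) (.c k190 (.l (.s k130 k195 8 (.s k1 k129 7 (.s
  k61 k149 13 (.s k41 k21 5 (.d k169 k233 k253 7 13)))))) .n)))) (.c k190 (.l (.s k65 k125 5 (.s
  k195 k130 8 (.s k150 k60 14 (.d k215 k235 k20 5 8))))) (.c k195 (.f k125 k65 5 (.q k121 [(.s k89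
  k73 3 (.s k93 k81 1 (.s k77 k109 3 (.d k113 k117 k101 1 5)))), (.s k60 k190 8 (.s k243 k182 10 (.s
  k81 k162 12 (.d k89 k93 k73 1 3)))), (.s k117 k113 1 (.s k48 k186 10 (.s k16 k32 3 (.s k154 k223
  10 (.d k101 k69 k207 3 14))))), (.s k60 k190 8 (.s k20 k40 5 (.s k89 k73 3 (.s k150 k215 8 (.s k28
  k211 10 (.s k12 k44 3 (.d k243 k182 k166 10 14)))))))] (.c k75 (.q k135 [(.s k89 k73 3 (.s k93 k81
  1 (.s k77 k109 3 (.d k113 k117 k101 1 5)))), (.s k60 k190 8 (.s k243 k182 10 (.s k81 k162 12 (.d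
  k89 k93 k73 1 3)))), (.s k117 k113 1 (.s k48 k186 10 (.s k16 k32 3 (.s k154 k223 10 (.d k101 k69
  k207 3 14))))), (.s k60 k190 8 (.s k20 k40 5 (.s k89 k73 3 (.s k150 k215 8 (.s k28 k211 10 (.s k12
  k44 3 (.d k243 k182 k166 10 14)))))))] .n) (.c k135 (.q k75 [(.s k89 k73 3 (.s k93 k81 1 (.s k77
  k109 3 (.d k113 k117 k101 1 5)))), (.s k60 k190 8 (.s k243 k182 10 (.s k81 k162 12 (.d k89 k93 k73
  1 3)))), (.s k117 k113 1 (.s k48 k186 10 (.s k16 k32 3 (.s k154 k223 10 (.d k101 k69 k207 3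
  14))))), (.s k89 k73 3 (.s k120 k90 4 (.s k123 k122 0 (.s k106 k72 4 (.d k107 k104 k91 0 3)))))]
  .n) .n)))) (.c k215 (.f k65 k125 5 (.q k117 [(.s k48 k186 10 (.s k16 k32 3 (.s k101 k69 3 (.d k154
  k223 k207 10 14)))), (.s k69 k101 3 (.s k73 k77 1 (.s k89 k121 3 (.s k93 k81 1 (.s k12 k174 12 (.d
  k195 k130 k134 8 10)))))), (.s k48 k186 10 (.s k32 k16 3 (.s k195 k130 8 (.s k97 k146 12 (.s k81
  k113 3 (.d k162 k227 k243 8 12))))))] (.c k32 (.l (.s k48 k186 10 (.s k101 k69 3 (.s k97 k109 1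
  (.d k195 k130 k146 8 12))))) (.c k199 (.q k231 [(.s k48 k186 10 (.s k16 k32 3 (.s k101 k69 3 (.d
  k154 k223 k207 10 14)))), (.s k69 k101 3 (.s k73 k77 1 (.s k89 k121 3 (.s k93 k81 1 (.s k12 k174
  12 (.d k195 k130 k134 8 10)))))), (.s k48 k186 10 (.s k32 k16 3 (.s k195 k130 8 (.s k97 k146 12
  (.s k81 k113 3 (.d k162 k227 k243 8 12))))))] (.c k32 (.l (.s k48 k186 10 (.s k101 k69 3 (.s k97
  k109 1 (.d k195 k130 k146 8 12))))) .n)) (.c k231 (.q k199 [(.s k101 k69 3 (.s k150 k52 12 (.d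
  k195 k130 k60 8 14))), (.s k48 k186 10 (.s k16 k32 3 (.s k101 k69 3 (.d k154 k223 k207 10 14)))),
  (.s k48 k186 10 (.s k195 k130 8 (.s k203 k207 1 (.s k154 k56 12 (.d k16 k32 k223 3 10)))))] .n)
  .n))))) (.c k235 (.l (.s k125 k65 5 (.s k60 k190 8 (.s k20 k40 5 (.d k150 k215 k195 8 14)))))
  .n))))))))))))

def t15_250 : T TT 256 :=
  (.q k101 [(.s k69 k117 3 (.s k207 k138 10 (.s k48 k154 14 (.s k32 k16 3 (.d k170 k239 k255 10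
  14)))))] (.c k16 (.q k1 [(.s k69 k117 3 (.s k169 k253 13 (.s k33 k237 9 (.s k49 k17 3 (.d k205
  k137 k153 9 13))))), (.s k3 k2 0 (.s k169 k253 13 (.s k86 k252 14 (.s k87 k84 0 (.d k255 k171 k170
  13 14))))), (.s k3 k2 0 (.s k69 k117 3 (.s k137 k205 9 (.s k70 k204 10 (.s k71 k68 0 (.d k207 k139
  k138 9 10))))))] .n) (.c k32 (.l (.s k69 k117 3 (.s k207 k138 10 (.s k154 k48 14 (.s k223 k16 10
  (.d k255 k239 k170 3 14)))))) (.c k48 (.f k255 k170 14 (.f k69 k117 3 (.q k90 [(.s k95 k80 2 (.s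
  k79 k112 6 (.s k127 k111 3 (.d k64 k74 k106 2 6)))), (.s k80 k95 2 (.s k207 k138 10 (.s k223 k239
  3 (.s k154 k16 10 (.s k240 k160 11 (.d k218 k26 k229 7 6)))))), (.s k79 k112 6 (.s k64 k74 2 (.s
  k192 k128 7 (.s k213 k234 6 (.s k149 k21 7 (.d k106 k127 k63 6 14))))))] (.c k26 (.q k37 [(.s k80
  k95 2 (.s k207 k138 10 (.s k229 k165 7 (.d k240 k160 k218 11 6)))), (.s k165 k229 7 (.s k5 k245 11
  (.s k53 k21 3 (.d k197 k133 k149 7 11)))), (.s k79 k112 6 (.s k64 k74 2 (.s k95 k80 2 (.d k127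
  k111 k106 3 6))))] .n) (.c k37 (.q k26 [(.s k207 k138 10 (.s k223 k239 3 (.d k154 k218 k16 7
  10))), (.s k79 k112 6 (.s k64 k74 2 (.s k95 k80 2 (.d k127 k111 k106 3 6))))] .n) (.c k240 (.l (.s
  k80 k95 2 (.s k112 k79 6 (.s k64 k96 3 (.s k192 k128 7 (.s k213 k234 6 (.s k149 k21 7 (.d k106
  k127 k63 6 14)))))))) .n)))))) (.c k69 (.q k1 [(.s k3 k2 0 (.s k169 k253 13 (.s k86 k252 14 (.s
  k87 k84 0 (.d k255 k171 k170 13 14))))), (.s k3 k2 0 (.s k169 k253 13 (.s k33 k237 9 (.s k48 k18 4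
  (.s k16 k32 3 (.d k154 k223 k207 10 14)))))), (.s k169 k253 13 (.s k33 k237 9 (.s k17 k49 3 (.s
  k34 k51 4 (.s k170 k255 14 (.d k32 k35 k239 0 10)))))), (.s k3 k2 0 (.s k170 k255 14 (.s k32 k239
  10 (.s k48 k16 3 (.s k33 k18 4 (.s k17 k49 3 (.d k34 k35 k51 0 4)))))))] .n) (.c k117 (.q k1 [(.s
  k3 k2 0 (.s k255 k170 14 (.s k87 k171 13 (.s k86 k84 0 (.d k169 k253 k252 13 14))))), (.s k3 k2 0
  (.s k169 k253 13 (.s k33 k237 9 (.s k48 k18 4 (.s k16 k32 3 (.d k154 k223 k207 10 14)))))), (.s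
  k169 k253 13 (.s k33 k237 9 (.s k170 k255 14 (.s k32 k239 10 (.s k34 k35 0 (.d k17 k49 k51 3
  4)))))), (.s k3 k2 0 (.s k170 k255 14 (.s k32 k239 10 (.s k48 k16 3 (.s k33 k18 4 (.s k34 k35 0
  (.d k17 k49 k51 3 4)))))))] .n) (.c k138 (.l (.s k117 k69 3 (.s k255 k170 14 (.s k48 k186 10 (.s
  k154 k207 14 (.d k16 k32 k223 3 10)))))) (.c k154 (.q k1 [(.s k69 k117 3 (.s k169 k253 13 (.s k33
  k237 9 (.s k49 k17 3 (.d k205 k137 k153 9 13))))), (.s k3 k2 0 (.s k169 k253 13 (.s k86 k252 14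
  (.s k87 k84 0 (.d k255 k171 k170 13 14))))), (.s k3 k2 0 (.s k69 k117 3 (.s k137 k205 9 (.s k70
  k204 10 (.s k71 k68 0 (.d k207 k139 k138 9 10))))))] .n) (.c k170 (.f k69 k117 3 (.q k90 [(.s k95
  k80 2 (.s k79 k112 6 (.s k127 k111 3 (.d k64 k74 k106 2 6)))), (.s k80 k95 2 (.s k207 k138 10 (.s
  k154 k48 14 (.s k240 k160 11 (.d k218 k26 k229 7 6))))), (.s k79 k112 6 (.s k64 k74 2 (.s k192
  k128 7 (.s k207 k138 10 (.s k154 k48 14 (.s k202 k197 2 (.d k106 k127 k58 6 11)))))))] .n)) (.c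
  k186 (.l (.s k69 k117 3 (.s k207 k138 10 (.s k48 k154 14 (.s k170 k255 14 (.d k32 k16 k239 3
  10)))))) (.c k207 (.f k69 k117 3 (.q k130 [(.s k65 k195 8 (.s k77 k73 1 (.s k89 k113 5 (.s k93 k81
  1 (.d k125 k109 k105 3 5))))), (.s k170 k255 14 (.s k150 k190 5 (.s k199 k52 12 (.s k4 k134 8 (.s
  k215 k20 8 (.d k247 k231 k166 3 12)))))), (.s k170 k255 14 (.s k150 k190 5 (.s k20 k215 8 (.s k60
  k40 5 (.d k195 k65 k105 8 14)))))] (.c k79 (.q k143 [(.s k65 k195 8 (.s k77 k73 1 (.s k89 k113 5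
  (.s k93 k81 1 (.d k125 k109 k105 3 5))))), (.s k170 k255 14 (.s k150 k190 5 (.s k199 k52 12 (.s k4
  k134 8 (.s k215 k20 8 (.d k247 k231 k166 3 12)))))), (.s k170 k255 14 (.s k150 k190 5 (.s k20 k215
  8 (.s k60 k40 5 (.d k195 k65 k105 8 14)))))] (.c k125 (.l (.s k170 k255 14 (.s k195 k65 8 (.s k150
  k190 5 (.s k60 k105 14 (.d k20 k40 k215 5 8)))))) .n)) (.c k125 (.l (.s k170 k255 14 (.s k195 k65
  8 (.s k150 k190 5 (.s k60 k105 14 (.d k20 k40 k215 5 8)))))) (.c k143 (.q k79 [(.s k64 k74 2 (.s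
  k90 k112 6 (.s k95 k80 2 (.d k127 k111 k106 3 6)))), (.s k65 k195 8 (.s k77 k73 1 (.s k89 k113 5
  (.s k93 k81 1 (.d k125 k109 k105 3 5)))))] .n) .n))))) (.c k239 (.l (.s k117 k69 3 (.s k255 k170
  14 (.s k48 k186 10 (.s k16 k32 3 (.d k154 k223 k207 10 14)))))) (.c k255 (.q k100 [(.s k102 k103 0
  (.s k68 k119 4 (.s k116 k84 3 (.s k71 k86 4 (.d k69 k70 k117 0 3))))), (.s k69 k117 3 (.s k102
  k103 0 (.s k207 k138 10 (.s k48 k154 14 (.s k204 k152 13 (.d k68 k119 k136 4 9)))))), (.s k69 k117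
  3 (.s k207 k138 10 (.s k48 k154 14 (.s k204 k152 13 (.s k68 k136 9 (.s k71 k70 0 (.d k116 k84 k86
  3 4))))))), (.s k102 k103 0 (.s k68 k119 4 (.s k204 k136 9 (.s k48 k152 13 (.s k16 k32 3 (.d k154
  k223 k207 10 14))))))] (.c k68 (.l (.s k69 k117 3 (.s k102 k103 0 (.s k207 k138 10 (.s k48 k154 14
  (.s k204 k152 13 (.s k153 k51 14 (.d k205 k206 k49 0 13)))))))) (.c k95 (.q k175 [(.s k102 k103 0
  (.s k68 k119 4 (.s k116 k84 3 (.s k71 k86 4 (.d k69 k70 k117 0 3))))), (.s k69 k117 3 (.s k102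
  k103 0 (.s k207 k138 10 (.s k48 k154 14 (.s k204 k152 13 (.d k68 k119 k136 4 9)))))), (.s k69 k117
  3 (.s k207 k138 10 (.s k48 k154 14 (.s k204 k152 13 (.s k68 k136 9 (.s k71 k70 0 (.d k116 k84 k86
  3 4))))))), (.s k102 k103 0 (.s k68 k119 4 (.s k204 k136 9 (.s k48 k152 13 (.s k16 k32 3 (.d k154
  k223 k207 10 14))))))] (.c k68 (.l (.s k69 k117 3 (.s k102 k103 0 (.s k207 k138 10 (.s k48 k154 14
  (.s k204 k152 13 (.s k153 k51 14 (.d k205 k206 k49 0 13)))))))) (.c k240 (.q k245 [(.s k165 k5 11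
  (.s k117 k69 3 (.s k53 k181 7 (.s k197 k149 11 (.d k229 k213 k37 3 7))))), (.s k102 k103 0 (.s k68
  k119 4 (.s k204 k136 9 (.s k48 k152 13 (.s k16 k32 3 (.d k154 k223 k207 10 14))))))] (.c k90 (.l
  (.s k165 k5 11 (.s k117 k69 3 (.s k53 k181 7 (.s k197 k149 11 (.d k229 k213 k37 3 7)))))) (.c k165
  (.q k90 [(.s k102 k103 0 (.s k68 k119 4 (.s k116 k84 3 (.s k71 k86 4 (.d k69 k70 k117 0 3))))),
  (.s k102 k103 0 (.s k112 k79 6 (.s k76 k88 5 (.s k114 k78 5 (.d k115 k113 k89 0 6))))), (.s k69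
  k117 3 (.s k207 k138 10 (.s k48 k154 14 (.s k204 k152 13 (.s k68 k136 9 (.s k71 k70 0 (.d k116 k84
  k86 3 4)))))))] .n) .n))) (.c k245 (.q k240 [(.s k102 k103 0 (.s k68 k119 4 (.s k116 k84 3 (.s k71
  k86 4 (.d k69 k70 k117 0 3))))), (.s k69 k117 3 (.s k160 k80 11 (.s k165 k170 2 (.s k207 k138 10
  (.d k229 k218 k37 6 7))))), (.s k102 k103 0 (.s k68 k119 4 (.s k160 k80 11 (.s k165 k170 2 (.s
  k204 k136 9 (.d k228 k216 k39 5 8))))))] .n) .n)))) (.c k175 (.q k95 [(.s k90 k80 2 (.s k79 k112 6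
  (.s k127 k111 3 (.s k64 k106 6 (.d k69 k74 k117 2 3))))), (.s k69 k117 3 (.s k102 k103 0 (.s k68
  k119 4 (.s k71 k70 0 (.d k116 k84 k86 3 4))))), (.s k90 k80 2 (.s k102 k103 0 (.s k112 k79 6 (.s
  k76 k88 5 (.s k114 k78 5 (.d k115 k113 k89 0 6))))))] (.c k240 (.q k245 [(.s k165 k5 11 (.s k117
  k69 3 (.s k53 k181 7 (.s k197 k149 11 (.d k229 k213 k37 3 7))))), (.s k90 k80 2 (.s k102 k103 0
  (.s k112 k79 6 (.s k76 k88 5 (.s k114 k78 5 (.d k115 k113 k89 0 6))))))] (.c k90 (.l (.s k165 k5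
  11 (.s k117 k69 3 (.s k53 k181 7 (.s k197 k149 11 (.d k229 k213 k37 3 7)))))) (.c k165 (.l (.s k90
  k80 2 (.s k69 k117 3 (.s k79 k112 6 (.s k64 k74 2 (.d k127 k111 k106 3 6)))))) .n))) (.c k245 (.q
  k240 [(.d k80 k90 k160 2 11), (.s k69 k117 3 (.s k102 k103 0 (.s k68 k119 4 (.s k71 k70 0 (.d k116
  k84 k86 3 4)))))] .n) .n))) (.c k240 (.q k245 [(.s k165 k5 11 (.s k117 k69 3 (.s k53 k181 7 (.s
  k197 k149 11 (.d k229 k213 k37 3 7))))), (.s k102 k103 0 (.s k68 k119 4 (.s k204 k136 9 (.s k48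
  k152 13 (.s k16 k32 3 (.d k154 k223 k207 10 14))))))] (.c k90 (.l (.s k165 k5 11 (.s k117 k69 3
  (.s k53 k181 7 (.s k197 k149 11 (.d k229 k213 k37 3 7)))))) (.c k95 (.q k175 [(.s k165 k5 11 (.s
  k117 k69 3 (.s k53 k181 7 (.s k197 k149 11 (.d k229 k213 k37 3 7))))), (.s k102 k103 0 (.s k68
  k119 4 (.s k204 k136 9 (.s k48 k152 13 (.s k16 k32 3 (.d k154 k223 k207 10 14))))))] (.c k90 (.l
  (.s k165 k5 11 (.s k117 k69 3 (.s k53 k181 7 (.s k197 k149 11 (.d k229 k213 k37 3 7)))))) (.c k165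
  (.q k90 [(.s k102 k103 0 (.s k68 k119 4 (.s k116 k84 3 (.s k71 k86 4 (.d k69 k70 k117 0 3))))),
  (.s k102 k103 0 (.s k112 k79 6 (.s k76 k88 5 (.s k114 k78 5 (.d k115 k113 k89 0 6))))), (.s k69
  k117 3 (.s k207 k138 10 (.s k48 k154 14 (.s k204 k152 13 (.s k68 k136 9 (.s k71 k70 0 (.d k116 k84
  k86 3 4)))))))] .n) .n))) (.c k165 (.q k90 [(.s k69 k117 3 (.s k95 k80 2 (.s k79 k112 6 (.s k127
  k111 3 (.d k64 k74 k106 2 6))))), (.s k102 k103 0 (.s k68 k119 4 (.s k116 k84 3 (.s k71 k86 4 (.d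
  k69 k70 k117 0 3))))), (.s k102 k103 0 (.s k112 k79 6 (.s k76 k88 5 (.s k114 k78 5 (.d k115 k113
  k89 0 6)))))] (.c k95 (.q k175 [(.s k102 k103 0 (.s k68 k119 4 (.s k116 k84 3 (.s k71 k86 4 (.d
  k69 k70 k117 0 3))))), (.s k102 k103 0 (.s k112 k79 6 (.s k76 k88 5 (.s k114 k78 5 (.d k115 k113
  k89 0 6))))), (.s k69 k117 3 (.s k207 k138 10 (.s k48 k154 14 (.s k204 k152 13 (.s k68 k136 9 (.s
  k71 k70 0 (.d k116 k84 k86 3 4)))))))] .n) (.c k175 (.l (.s k95 k80 2 (.s k69 k117 3 (.s k79 k112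
  6 (.s k64 k74 2 (.d k127 k111 k106 3 6)))))) .n))) (.c k175 (.q k95 [(.s k165 k5 11 (.s k117 k69 3
  (.s k53 k181 7 (.s k197 k149 11 (.d k229 k213 k37 3 7))))), (.s k90 k80 2 (.s k102 k103 0 (.s k112
  k79 6 (.s k76 k88 5 (.s k114 k78 5 (.d k115 k113 k89 0 6))))))] (.c k90 (.l (.s k165 k5 11 (.s
  k117 k69 3 (.s k53 k181 7 (.s k197 k149 11 (.d k229 k213 k37 3 7)))))) (.c k165 (.l (.s k90 k80 2
  (.s k69 k117 3 (.s k79 k112 6 (.s k64 k74 2 (.d k127 k111 k106 3 6)))))) .n))) .n))))) (.c k245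
  (.q k240 [(.s k102 k103 0 (.s k68 k119 4 (.s k116 k84 3 (.s k71 k86 4 (.d k69 k70 k117 0 3))))),
  (.s k69 k117 3 (.s k80 k160 11 (.s k207 k138 10 (.s k48 k154 14 (.s k112 k176 7 (.d k90 k95 k79 2
  6)))))), (.s k102 k103 0 (.s k68 k119 4 (.s k204 k136 9 (.s k48 k152 13 (.s k16 k32 3 (.d k154
  k223 k207 10 14))))))] (.c k95 (.q k175 [(.s k102 k103 0 (.s k68 k119 4 (.s k116 k84 3 (.s k71 k86
  4 (.d k69 k70 k117 0 3))))), (.s k69 k117 3 (.s k160 k80 11 (.s k165 k170 2 (.s k207 k138 10 (.d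
  k229 k218 k37 6 7))))), (.s k102 k103 0 (.s k68 k119 4 (.s k160 k80 11 (.s k165 k170 2 (.s k204
  k136 9 (.d k228 k216 k39 5 8))))))] .n) (.c k175 (.q k95 [(.d k80 k90 k160 2 11), (.s k69 k117 3
  (.s k102 k103 0 (.s k68 k119 4 (.s k71 k70 0 (.d k116 k84 k86 3 4)))))] .n) .n))) .n))))))
  .n)))))))))))))

def t15_251 : T TT 256 :=
  (.q k86 [(.s k84 k87 0 (.s k252 k168 13 (.s k3 k169 14 (.s k2 k1 0 (.d k170 k254 k255 13 14)))))]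
  (.c k1 (.q k4 [(.s k12 k8 1 (.s k166 k247 12 (.s k89 k243 14 (.s k255 k170 14 (.d k93 k81 k174 1
  12))))), (.s k84 k87 0 (.s k244 k164 11 (.s k7 k165 12 (.s k6 k5 0 (.d k166 k246 k247 11 12))))),
  (.s k12 k8 1 (.s k84 k87 0 (.s k164 k244 11 (.s k88 k240 13 (.s k92 k80 1 (.d k252 k172 k168 11
  13))))))] .n) (.c k2 (.l (.s k84 k87 0 (.s k252 k168 13 (.s k169 k3 14 (.s k253 k1 13 (.d k255
  k254 k170 0 14)))))) (.c k3 (.f k87 k84 0 (.q k63 [(.s k21 k42 6 (.s k149 k213 7 (.s k23 k212 8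
  (.s k215 k151 7 (.d k20 k22 k150 0 8))))), (.s k255 k170 14 (.s k127 k191 7 (.s k67 k107 5 (.s
  k105 k124 6 (.s k65 k125 5 (.d k64 k66 k106 0 6))))))] (.c k7 (.q k11 [(.s k21 k42 6 (.s k149 k213
  7 (.s k23 k212 8 (.s k215 k151 7 (.d k20 k22 k150 0 8))))), (.s k255 k170 14 (.s k127 k191 7 (.s
  k67 k107 5 (.s k105 k124 6 (.s k65 k125 5 (.d k64 k66 k106 0 6))))))] (.c k149 (.l (.s k42 k21 6
  (.s k170 k255 14 (.s k2 k254 13 (.s k62 k22 5 (.s k106 k234 7 (.s k66 k126 5 (.d k194 k130 k150 7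
  13)))))))) .n)) (.c k11 (.q k7 [(.s k165 k244 12 (.s k5 k245 11 (.s k247 k167 11 (.d k4 k6 k166 0
  12)))), (.s k21 k42 6 (.s k149 k213 7 (.s k23 k212 8 (.s k20 k22 0 (.d k215 k151 k150 7 8)))))]
  (.c k91 (.q k171 [(.s k165 k244 12 (.s k170 k255 14 (.s k175 k160 2 (.d k167 k247 k163 11 1)))),
  (.s k21 k42 6 (.s k149 k213 7 (.s k23 k212 8 (.s k20 k22 0 (.d k215 k151 k150 7 8)))))] (.c k167
  (.q k243 [(.s k81 k162 12 (.s k89 k93 1 (.s k166 k12 14 (.s k4 k247 12 (.d k6 k5 k246 0 11))))),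
  (.s k21 k42 6 (.s k149 k213 7 (.s k23 k212 8 (.s k20 k22 0 (.d k215 k151 k150 7 8)))))] .n) (.c
  k243 (.l (.s k167 k247 11 (.s k255 k170 14 (.s k21 k42 6 (.s k127 k191 7 (.s k106 k64 6 (.d k149
  k213 k192 7 14))))))) .n))) (.c k171 (.q k91 [(.s k165 k244 12 (.s k5 k245 11 (.s k4 k6 0 (.d k247
  k167 k166 11 12)))), (.s k21 k42 6 (.s k149 k213 7 (.s k23 k212 8 (.s k20 k22 0 (.d k215 k151 k150
  7 8)))))] .n) .n))) (.c k149 (.l (.s k42 k21 6 (.s k170 k255 14 (.s k2 k254 13 (.s k62 k22 5 (.s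
  k106 k234 7 (.s k66 k126 5 (.d k194 k130 k150 7 13)))))))) .n))))) (.c k84 (.q k16 [(.s k48 k32 3
  (.s k154 k223 10 (.s k101 k207 14 (.s k117 k69 3 (.d k255 k186 k170 10 14))))), (.s k48 k32 3 (.s
  k154 k223 10 (.s k18 k222 9 (.s k3 k33 4 (.s k1 k2 0 (.d k169 k253 k252 13 14)))))), (.s k154 k223
  10 (.s k18 k222 9 (.s k17 k19 0 (.s k34 k51 4 (.s k170 k255 14 (.d k2 k50 k254 3 13)))))), (.s k48
  k32 3 (.s k170 k255 14 (.s k2 k254 13 (.s k3 k1 0 (.s k18 k33 4 (.s k17 k19 0 (.d k34 k50 k51 3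
  4)))))))] .n) (.c k87 (.q k16 [(.s k48 k32 3 (.s k154 k223 10 (.s k101 k207 14 (.s k117 k69 3 (.d
  k255 k186 k170 10 14))))), (.s k48 k32 3 (.s k154 k223 10 (.s k18 k222 9 (.s k3 k33 4 (.s k1 k2 0
  (.d k169 k253 k252 13 14)))))), (.s k48 k32 3 (.s k170 k255 14 (.s k2 k254 13 (.s k3 k1 0 (.s k18
  k33 4 (.s k34 k50 3 (.d k17 k19 k51 0 4))))))), (.s k154 k223 10 (.s k18 k222 9 (.s k170 k255 14
  (.s k2 k254 13 (.s k34 k50 3 (.d k17 k19 k51 0 4))))))] (.c k19 (.l (.s k48 k32 3 (.s k255 k170 14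
  (.s k117 k186 10 (.s k101 k69 3 (.d k154 k223 k207 10 14)))))) .n)) (.c k168 (.l (.s k87 k84 0 (.s
  k255 k170 14 (.s k3 k171 13 (.s k169 k252 14 (.d k1 k2 k253 0 13)))))) (.c k169 (.q k4 [(.s k12 k8
  1 (.s k166 k247 12 (.s k89 k243 14 (.s k255 k170 14 (.d k93 k81 k174 1 12))))), (.s k84 k87 0 (.s
  k244 k164 11 (.s k7 k165 12 (.s k6 k5 0 (.d k166 k246 k247 11 12))))), (.s k12 k8 1 (.s k84 k87 0
  (.s k164 k244 11 (.s k88 k240 13 (.s k92 k80 1 (.d k252 k172 k168 11 13))))))] .n) (.c k170 (.q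
  k89 [(.s k81 k93 1 (.s k83 k92 2 (.s k80 k82 0 (.s k87 k84 0 (.d k95 k91 k90 1 2))))), (.s k81 k93
  1 (.s k84 k87 0 (.s k243 k162 12 (.s k166 k12 14 (.s k246 k6 11 (.d k252 k249 k168 2 13)))))), (.s
  k84 k87 0 (.s k92 k83 2 (.s k252 k168 13 (.s k12 k172 11 (.s k4 k8 1 (.d k166 k247 k243 12
  14)))))), (.s k81 k93 1 (.s k83 k92 2 (.s k243 k162 12 (.s k3 k163 11 (.s k1 k2 0 (.d k169 k253
  k252 13 14))))))] .n) (.c k171 (.l (.s k84 k87 0 (.s k252 k168 13 (.s k3 k169 14 (.s k170 k255 14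
  (.d k2 k1 k254 0 13)))))) (.c k252 (.f k255 k170 14 (.f k87 k84 0 (.q k89 [(.s k93 k81 1 (.s k12
  k174 12 (.s k4 k8 1 (.d k166 k247 k243 12 14)))), (.s k81 k93 1 (.s k83 k92 2 (.s k80 k82 0 (.d
  k95 k91 k90 1 2)))), (.s k3 k171 13 (.s k1 k2 0 (.s k83 k92 2 (.s k169 k253 13 (.s k9 k249 11 (.s
  k12 k6 2 (.d k243 k163 k166 11 14)))))))] (.c k12 (.l (.s k3 k171 13 (.s k81 k93 1 (.s k243 k162
  12 (.d k83 k92 k163 2 11))))) (.c k94 (.q k173 [(.s k3 k171 13 (.s k1 k2 0 (.s k93 k81 1 (.d k253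
  k169 k13 13 11)))), (.s k93 k81 1 (.s k12 k174 12 (.s k4 k8 1 (.d k166 k247 k243 12 14)))), (.s k3
  k171 13 (.s k1 k2 0 (.s k169 k253 13 (.s k9 k249 11 (.s k5 k13 1 (.d k165 k245 k161 11 1))))))]
  .n) (.c k173 (.q k94 [(.s k92 k83 2 (.d k93 k95 k81 0 1)), (.s k93 k81 1 (.s k12 k174 12 (.s k4 k8
  1 (.d k166 k247 k243 12 14)))), (.s k83 k92 2 (.s k90 k82 1 (.d k91 k88 k95 0 1)))] .n) .n))))))
  (.c k254 (.l (.s k87 k84 0 (.s k255 k170 14 (.s k3 k171 13 (.s k1 k2 0 (.d k169 k253 k252 13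
  14)))))) (.c k255 (.q k243 [(.s k81 k162 12 (.s k84 k87 0 (.s k89 k93 1 (.s k12 k166 14 (.s k252
  k168 13 (.d k92 k83 k172 2 11)))))), (.s k84 k87 0 (.s k252 k168 13 (.s k246 k249 2 (.s k166 k6 11
  (.s k4 k247 12 (.d k12 k8 k89 1 14)))))), (.s k81 k162 12 (.s k87 k84 0 (.s k89 k93 1 (.s k83 k92
  2 (.s k80 k82 0 (.d k95 k91 k90 1 2)))))), (.s k81 k162 12 (.s k89 k93 1 (.s k83 k92 2 (.s k3 k163
  11 (.s k1 k2 0 (.d k169 k253 k252 13 14))))))] (.c k12 (.l (.s k81 k162 12 (.s k84 k87 0 (.s k252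
  k168 13 (.s k3 k169 14 (.s k83 k163 11 (.d k89 k93 k92 1 2))))))) (.c k89 (.f k81 k162 12 (.l (.s
  k84 k87 0 (.s k252 k168 13 (.s k3 k169 14 (.s k1 k2 0 (.s k83 k163 11 (.s k82 k80 0 (.d k161 k241
  k240 11 12))))))))) (.c k95 (.q k175 [(.s k81 k162 12 (.s k84 k87 0 (.s k89 k93 1 (.s k12 k166 14
  (.s k252 k168 13 (.d k92 k83 k172 2 11)))))), (.s k84 k87 0 (.s k252 k168 13 (.s k246 k249 2 (.s
  k166 k6 11 (.s k4 k247 12 (.d k12 k8 k89 1 14)))))), (.s k81 k162 12 (.s k89 k93 1 (.s k12 k166 14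
  (.s k92 k83 2 (.s k252 k172 11 (.d k84 k87 k168 0 13)))))), (.s k81 k162 12 (.s k89 k93 1 (.s k12
  k166 14 (.s k92 k83 2 (.s k252 k172 11 (.s k169 k3 14 (.d k249 k246 k9 2 11)))))))] (.c k12 (.l
  (.s k81 k162 12 (.s k84 k87 0 (.s k252 k168 13 (.s k3 k169 14 (.s k83 k163 11 (.d k89 k93 k92 1
  2))))))) (.c k83 (.q k3 [(.s k252 k169 14 (.d k84 k87 k168 0 13)), (.s k2 k1 0 (.s k162 k81 12 (.s
  k82 k242 11 (.s k161 k240 12 (.s k160 k163 0 (.d k170 k165 k254 2 13))))))] (.c k87 (.q k91 [(.s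
  k1 k2 0 (.d k169 k253 k252 13 14)), (.s k81 k162 12 (.s k89 k93 1 (.s k12 k166 14 (.s k9 k6 2 (.d
  k169 k249 k252 11 14))))), (.s k1 k2 0 (.s k81 k162 12 (.s k89 k93 1 (.s k90 k88 0 (.s k161 k241
  11 (.d k82 k94 k240 1 12))))))] .n) (.c k91 (.l (.s k87 k84 0 (.s k1 k2 0 (.d k169 k253 k252 13
  14)))) .n))) (.c k87 (.q k3 [(.s k1 k2 0 (.d k169 k253 k252 13 14)), (.s k81 k162 12 (.s k83 k163
  11 (.d k89 k93 k92 1 2)))] (.c k83 (.q k91 [(.s k1 k2 0 (.d k169 k253 k252 13 14)), (.s k81 k162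
  12 (.s k89 k93 1 (.s k12 k166 14 (.s k9 k6 2 (.d k169 k249 k252 11 14))))), (.s k1 k2 0 (.s k81
  k162 12 (.s k89 k93 1 (.s k90 k88 0 (.s k161 k241 11 (.d k82 k94 k240 1 12))))))] .n) (.c k91 (.l
  (.s k83 k163 11 (.s k1 k2 0 (.d k169 k253 k252 13 14)))) .n))) (.c k89 (.f k81 k162 12 (.l (.s k84
  k87 0 (.s k252 k168 13 (.s k3 k169 14 (.s k1 k2 0 (.s k83 k163 11 (.s k82 k80 0 (.d k161 k241 k240
  11 12))))))))) (.c k91 (.f k81 k162 12 (.l (.s k87 k84 0 (.s k89 k93 1 (.s k12 k166 14 (.s k92 k83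
  2 (.s k252 k172 11 (.s k169 k3 14 (.d k249 k246 k9 2 11))))))))) (.c k166 (.l (.s k81 k162 12 (.s
  k84 k87 0 (.s k89 k93 1 (.s k252 k168 13 (.s k3 k169 14 (.d k83 k92 k163 2 11))))))) (.c k252 (.f
  k81 k162 12 (.f k84 k87 0 (.l (.s k89 k93 1 (.s k12 k166 14 (.s k4 k8 1 (.s k164 k244 11 (.s k240
  k88 13 (.s k80 k160 11 (.d k83 k92 k82 2 0)))))))))) .n)))))))) (.c k175 (.q k95 [(.s k80 k90 2
  (.s k81 k162 12 (.s k87 k84 0 (.d k83 k82 k91 0 1)))), (.s k87 k84 0 (.s k83 k91 1 (.s k3 k163 11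
  (.s k1 k2 0 (.d k169 k253 k252 13 14))))), (.s k81 k162 12 (.s k90 k80 2 (.s k93 k89 1 (.d k94 k92
  k82 0 1))))] .n) .n))))) .n)))))))))))))

def t26_27 : T TT 256 :=
  (.q k89 [(.s k81 k93 1 (.s k243 k162 12 (.s k166 k12 14 (.s k247 k4 12 (.d k255 k251 k170 1
  14)))))] (.c k4 (.q k24 [(.s k81 k93 1 (.s k154 k219 8 (.s k16 k223 10 (.s k211 k146 8 (.d k28 k20
  k150 1 10))))), (.s k154 k219 8 (.s k170 k255 14 (.s k8 k251 12 (.s k56 k40 3 (.s k138 k186 3 (.d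
  k203 k73 k105 8 12)))))), (.s k170 k255 14 (.s k8 k251 12 (.s k40 k56 3 (.s k20 k60 5 (.s k28 k16
  1 (.d k150 k215 k211 8 10))))))] .n) (.c k12 (.q k24 [(.s k154 k219 8 (.s k16 k223 10 (.s k28 k20
  1 (.s k211 k150 10 (.d k81 k93 k146 1 8))))), (.s k154 k219 8 (.s k170 k255 14 (.s k8 k251 12 (.s
  k56 k40 3 (.s k138 k186 3 (.d k203 k73 k105 8 12)))))), (.s k170 k255 14 (.s k8 k251 12 (.s k40
  k56 3 (.s k20 k60 5 (.s k28 k16 1 (.d k150 k215 k211 8 10))))))] (.c k93 (.l (.s k154 k219 8 (.s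
  k16 k223 10 (.s k48 k32 3 (.s k101 k207 14 (.s k117 k69 3 (.d k255 k186 k170 10 14))))))) .n)) (.c
  k24 (.q k25 [(.s k81 k93 1 (.s k153 k217 7 (.s k17 k221 9 (.s k209 k145 7 (.d k29 k21 k149 1
  9))))), (.s k81 k93 1 (.s k170 k255 14 (.s k8 k251 12 (.s k12 k4 1 (.d k243 k162 k166 12 14))))),
  (.s k153 k217 7 (.s k17 k221 9 (.s k51 k34 4 (.s k12 k38 6 (.s k4 k8 1 (.d k166 k247 k243 12
  14))))))] .n) (.c k25 (.q k24 [(.s k81 k93 1 (.s k170 k255 14 (.s k8 k251 12 (.s k12 k4 1 (.d k243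
  k162 k166 12 14))))), (.s k81 k93 1 (.s k154 k219 8 (.s k16 k223 10 (.s k28 k20 1 (.d k211 k146
  k150 8 10))))), (.s k154 k219 8 (.s k16 k223 10 (.s k48 k32 3 (.s k12 k36 5 (.s k4 k8 1 (.d k166
  k247 k243 12 14))))))] .n) (.c k81 (.q k24 [(.s k154 k219 8 (.s k16 k223 10 (.s k48 k32 3 (.s k12
  k36 5 (.s k4 k8 1 (.d k166 k247 k243 12 14)))))), (.s k170 k255 14 (.s k8 k251 12 (.s k40 k56 3
  (.s k20 k60 5 (.s k28 k16 1 (.d k150 k211 k215 10 8)))))), (.s k154 k219 8 (.s k16 k223 10 (.s k48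
  k32 3 (.s k101 k207 14 (.s k117 k69 3 (.d k255 k186 k170 10 14)))))), (.s k154 k219 8 (.s k170
  k255 14 (.s k8 k251 12 (.s k56 k40 3 (.s k138 k186 3 (.d k203 k73 k105 8 12)))))), (.s k154 k219 8
  (.s k16 k223 10 (.s k20 k28 1 (.s k40 k60 5 (.s k170 k255 14 (.d k8 k56 k251 3 12))))))] .n) (.c
  k93 (.q k24 [(.s k170 k255 14 (.s k8 k251 12 (.s k12 k4 1 (.s k48 k36 5 (.s k16 k32 3 (.d k154
  k219 k223 8 10)))))), (.s k154 k219 8 (.s k16 k223 10 (.s k48 k32 3 (.s k101 k207 14 (.s k117 k69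
  3 (.d k255 k186 k170 10 14)))))), (.s k170 k255 14 (.s k8 k251 12 (.s k40 k56 3 (.s k20 k60 5 (.s
  k28 k16 1 (.d k150 k215 k211 8 10)))))), (.s k154 k219 8 (.s k16 k223 10 (.s k48 k32 3 (.s k12 k36
  5 (.s k4 k8 1 (.d k166 k247 k243 12 14))))))] (.c k16 (.l (.s k154 k219 8 (.s k170 k255 14 (.s k8
  k251 12 (.s k56 k40 3 (.s k138 k186 3 (.d k203 k73 k105 8 12))))))) (.c k48 (.l (.s k154 k219 8
  (.s k16 k223 10 (.s k170 k255 14 (.s k8 k251 12 (.s k40 k56 3 (.d k20 k28 k60 1 5))))))) (.c k243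
  (.l (.s k154 k219 8 (.s k16 k223 10 (.s k48 k32 3 (.s k12 k36 5 (.s k8 k4 1 (.d k170 k251 k255 12
  14))))))) .n)))) (.c k162 (.l (.s k93 k81 1 (.s k255 k170 14 (.s k12 k174 12 (.s k166 k243 14 (.d
  k4 k8 k247 1 12)))))) (.c k166 (.q k24 [(.s k81 k93 1 (.s k154 k219 8 (.s k16 k223 10 (.s k28 k20
  1 (.d k211 k146 k150 8 10))))), (.s k154 k219 8 (.s k170 k255 14 (.s k8 k251 12 (.s k56 k40 3 (.s
  k138 k186 3 (.d k203 k73 k105 8 12)))))), (.s k170 k255 14 (.s k8 k251 12 (.s k40 k56 3 (.s k20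
  k60 5 (.s k28 k16 1 (.d k150 k215 k211 8 10))))))] .n) (.c k170 (.q k153 [(.s k17 k221 9 (.s k25
  k217 7 (.s k81 k93 1 (.s k209 k145 7 (.d k29 k21 k149 1 9))))), (.s k81 k93 1 (.s k243 k162 12 (.s
  k166 k12 14 (.s k179 k140 6 (.s k51 k115 7 (.s k204 k102 14 (.d k217 k25 k230 7 6))))))), (.s k17
  k221 9 (.s k25 k217 7 (.s k51 k34 4 (.s k12 k38 6 (.s k4 k8 1 (.d k166 k247 k243 12 14))))))] (.c
  k24 (.l (.s k25 k217 7 (.s k17 k221 9 (.s k29 k21 1 (.s k81 k93 1 (.d k209 k145 k149 7 9)))))) (.c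
  k25 (.q k24 [(.s k81 k93 1 (.s k154 k219 8 (.s k16 k223 10 (.s k28 k20 1 (.d k211 k146 k150 8
  10))))), (.s k17 k221 9 (.s k51 k34 4 (.s k81 k93 1 (.s k102 k204 14 (.s k115 k76 6 (.d k243 k179
  k162 7 12)))))), (.s k17 k221 9 (.s k154 k219 8 (.s k16 k223 10 (.s k19 k18 0 (.s k220 k86 10 (.d
  k152 k155 k84 0 9))))))] .n) (.c k217 (.l (.s k17 k221 9 (.s k51 k34 4 (.s k81 k93 1 (.s k102 k204
  14 (.s k115 k76 6 (.d k243 k179 k162 7 12))))))) .n)))) (.c k174 (.l (.s k81 k93 1 (.s k243 k162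
  12 (.s k12 k166 14 (.s k170 k255 14 (.d k8 k4 k251 1 12)))))) (.c k243 (.f k255 k170 14 (.q k24
  [(.s k93 k81 1 (.s k12 k174 12 (.s k48 k36 5 (.s k117 k186 10 (.s k101 k69 3 (.d k154 k219 k207 8
  14)))))), (.s k81 k93 1 (.s k154 k219 8 (.s k16 k223 10 (.s k28 k20 1 (.d k211 k146 k150 8
  10))))), (.s k93 k81 1 (.s k12 k174 12 (.s k4 k8 1 (.s k36 k48 5 (.s k20 k52 3 (.s k28 k16 1 (.d
  k60 k44 k40 3 5))))))), (.s k154 k219 8 (.s k16 k223 10 (.s k48 k32 3 (.s k117 k186 10 (.d k101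
  k207 k69 14 3)))))] .n)) (.c k247 (.l (.s k81 k93 1 (.s k170 k255 14 (.s k8 k251 12 (.s k243 k162
  12 (.d k12 k4 k166 1 14)))))) (.c k251 (.l (.s k93 k81 1 (.s k255 k170 14 (.s k12 k174 12 (.s k4
  k8 1 (.d k166 k247 k243 12 14)))))) (.c k255 (.q k24 [(.s k154 k219 8 (.s k16 k223 10 (.s k28 k20
  1 (.s k211 k150 10 (.d k81 k93 k146 1 8))))), (.s k81 k93 1 (.s k243 k162 12 (.s k12 k166 14 (.s
  k48 k36 5 (.s k16 k32 3 (.d k154 k219 k223 8 10)))))), (.s k81 k93 1 (.s k243 k162 12 (.s k12 k166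
  14 (.s k48 k36 5 (.s k16 k32 3 (.s k28 k20 1 (.d k211 k146 k150 8 10))))))), (.s k154 k219 8 (.s
  k16 k223 10 (.s k48 k32 3 (.s k12 k36 5 (.s k4 k8 1 (.d k166 k247 k243 12 14))))))] (.c k16 (.l
  (.s k81 k93 1 (.s k154 k219 8 (.s k243 k162 12 (.s k12 k166 14 (.s k48 k36 5 (.s k101 k207 14 (.d
  k113 k77 k178 5 8)))))))) .n)) .n)))))))))))))))

def t26_31 : T TT 256 :=
  (.f k255 k170 14 (.q k101 [(.s k69 k117 3 (.s k207 k138 10 (.s k223 k239 3 (.d k154 k16 k48 10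
  14))))] (.c k16 (.q k21 [(.s k149 k213 7 (.s k63 k42 6 (.s k106 k192 14 (.d k127 k64 k191 6 7)))),
  (.s k117 k69 3 (.s k149 k213 7 (.s k53 k197 11 (.s k5 k37 3 (.d k245 k181 k165 7 11))))), (.s k63
  k42 6 (.s k69 k117 3 (.s k207 k138 10 (.s k111 k159 11 (.s k106 k96 2 (.d k127 k64 k191 6 7))))))]
  .n) (.c k21 (.q k16 [(.s k48 k32 3 (.d k117 k69 k186 3 10)), (.s k48 k32 3 (.d k154 k223 k207 10
  14)), (.s k69 k117 3 (.s k207 k138 10 (.d k223 k154 k239 10 3)))] .n) (.c k48 (.f k69 k117 3 (.f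
  k138 k207 10 (.q k15 [(.s k10 k5 2 (.s k74 k202 7 (.s k64 k79 2 (.d k192 k128 k133 7 10)))), (.s
  k5 k10 2 (.s k95 k175 11 (.s k90 k80 2 (.d k165 k245 k240 11 14)))), (.s k95 k175 11 (.s k90 k80 2
  (.s k79 k112 6 (.s k64 k74 2 (.d k127 k111 k106 3 6)))))] (.c k16 (.q k21 [(.s k5 k10 2 (.s k149
  k213 7 (.d k197 k133 k53 7 11))), (.s k63 k42 6 (.s k127 k191 7 (.s k106 k64 6 (.d k149 k213 k192
  7 14)))), (.s k5 k10 2 (.s k37 k53 3 (.d k165 k245 k229 11 7))), (.s k213 k149 7 (.s k192 k234 6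
  (.s k74 k133 10 (.d k64 k128 k79 7 2))))] (.c k42 (.l (.s k149 k213 7 (.s k53 k197 11 (.d k5 k10
  k37 2 3)))) .n)) (.c k21 (.q k16 [(.s k10 k5 2 (.s k74 k202 7 (.s k64 k79 2 (.d k192 k128 k133 7
  10)))), (.s k5 k10 2 (.s k95 k175 11 (.s k90 k80 2 (.d k165 k245 k240 11 14)))), (.s k95 k175 11
  (.s k90 k80 2 (.s k79 k112 6 (.s k64 k74 2 (.d k127 k111 k106 3 6)))))] .n) .n))))) (.c k69 (.q
  k215 [(.s k150 k20 8 (.s k195 k235 5 (.s k65 k130 8 (.d k105 k125 k60 5 14)))), (.s k150 k20 8 (.s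
  k199 k52 12 (.s k247 k231 3 (.s k243 k251 1 (.s k81 k162 12 (.s k89 k93 1 (.d k166 k4 k12 12
  14)))))))] (.c k16 (.q k21 [(.s k150 k20 8 (.s k195 k235 5 (.s k65 k130 8 (.d k105 k125 k60 5
  14)))), (.s k63 k42 6 (.s k127 k191 7 (.s k106 k64 6 (.d k149 k213 k192 7 14))))] .n) (.c k20 (.l
  (.s k195 k235 5 (.s k65 k130 8 (.s k105 k125 5 (.s k97 k109 1 (.s k48 k146 12 (.s k16 k32 3 (.d
  k154 k223 k207 10 14)))))))) (.c k21 (.q k16 [(.s k48 k32 3 (.d k154 k223 k207 10 14)), (.s k150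
  k20 8 (.s k195 k235 5 (.s k65 k130 8 (.d k105 k125 k60 5 14))))] .n) (.c k150 (.q k21 [(.s k149
  k213 7 (.s k63 k42 6 (.s k106 k192 14 (.d k127 k64 k191 6 7)))), (.s k195 k235 5 (.s k213 k149 7
  (.s k214 k212 0 (.s k233 k252 6 (.s k193 k253 5 (.d k192 k194 k234 0 6)))))), (.s k63 k42 6 (.s
  k191 k127 7 (.s k195 k235 5 (.s k151 k107 13 (.s k87 k23 7 (.d k171 k131 k3 5 13))))))] (.c k130
  (.q k190 [(.s k149 k213 7 (.s k63 k42 6 (.s k106 k192 14 (.d k127 k64 k191 6 7)))), (.s k60 k125 8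
  (.s k20 k40 5 (.s k23 k22 0 (.s k87 k151 7 (.s k86 k84 0 (.d k149 k213 k212 7 8)))))), (.s k42 k63
  6 (.s k60 k125 8 (.s k20 k40 5 (.s k22 k23 0 (.s k2 k62 5 (.d k3 k1 k41 0 6))))))] .n) (.c k190
  (.q k130 [(.d k195 k235 k65 5 8), (.s k63 k42 6 (.s k127 k191 7 (.s k106 k64 6 (.d k149 k213 k192
  7 14))))] .n) (.c k191 (.l (.s k63 k42 6 (.s k149 k213 7 (.s k53 k197 11 (.s k5 k37 3 (.s k245
  k165 11 (.s k117 k181 7 (.d k48 k58 k186 2 10)))))))) (.c k234 (.l (.s k149 k213 7 (.s k63 k42 6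
  (.s k106 k192 14 (.d k127 k64 k191 6 7))))) .n))))) .n))))) (.c k117 (.q k253 [(.s k169 k1 13 (.s
  k252 k254 0 (.s k84 k168 13 (.d k86 k87 k3 0 14)))), (.s k169 k1 13 (.s k237 k33 9 (.s k221 k205 3
  (.s k204 k238 4 (.s k68 k136 9 (.s k102 k119 4 (.d k153 k17 k51 9 14)))))))] (.c k1 (.l (.s k252
  k254 0 (.s k84 k168 13 (.s k86 k87 0 (.s k116 k71 4 (.s k48 k184 9 (.s k16 k32 3 (.d k154 k223
  k207 10 14)))))))) (.c k16 (.q k21 [(.s k169 k1 13 (.s k252 k254 0 (.s k84 k168 13 (.d k86 k87 k3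
  0 14)))), (.s k63 k42 6 (.s k127 k191 7 (.s k106 k64 6 (.d k149 k213 k192 7 14))))] .n) (.c k21
  (.q k16 [(.s k48 k32 3 (.d k154 k223 k207 10 14)), (.s k169 k1 13 (.s k252 k254 0 (.s k84 k168 13
  (.d k86 k87 k3 0 14))))] .n) (.c k169 (.q k21 [(.s k149 k213 7 (.s k63 k42 6 (.s k106 k192 14 (.d
  k127 k64 k191 6 7)))), (.s k213 k149 7 (.s k233 k193 5 (.s k252 k254 0 (.s k195 k214 6 (.s k235
  k215 5 (.d k234 k232 k192 0 6)))))), (.s k63 k42 6 (.s k191 k127 7 (.s k252 k254 0 (.s k189 k126 8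
  (.s k125 k61 7 (.d k190 k188 k60 0 8))))))] (.c k168 (.q k171 [(.s k149 k213 7 (.s k63 k42 6 (.s
  k106 k192 14 (.d k127 k64 k191 6 7)))), (.s k3 k87 13 (.s k1 k2 0 (.s k41 k61 5 (.s k22 k60 6 (.s
  k23 k20 0 (.d k63 k43 k42 5 6)))))), (.s k3 k87 13 (.s k1 k2 0 (.s k61 k41 5 (.s k125 k189 7 (.s
  k105 k65 5 (.d k149 k213 k193 7 13))))))] .n) (.c k171 (.q k168 [(.d k252 k254 k84 0 13), (.s k63
  k42 6 (.s k127 k191 7 (.s k106 k64 6 (.d k149 k213 k192 7 14))))] .n) (.c k191 (.l (.s k63 k42 6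
  (.s k149 k213 7 (.s k53 k197 11 (.s k106 k192 14 (.s k111 k96 2 (.s k207 k159 11 (.d k48 k58 k154
  2 14)))))))) (.c k234 (.l (.s k149 k213 7 (.s k63 k42 6 (.s k106 k192 14 (.d k127 k64 k191 6
  7))))) .n))))) .n))))) (.c k138 (.l (.s k117 k69 3 (.s k48 k186 10 (.s k154 k207 14 (.d k16 k32
  k223 3 10))))) (.c k154 (.f k117 k69 3 (.q k90 [(.s k95 k80 2 (.s k15 k175 11 (.s k5 k10 2 (.d
  k165 k245 k240 11 14)))), (.s k80 k95 2 (.s k112 k79 6 (.s k64 k96 3 (.d k127 k122 k106 2 6)))),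
  (.s k112 k79 6 (.s k127 k122 2 (.s k63 k191 7 (.s k21 k42 6 (.s k149 k213 7 (.d k106 k64 k192 6
  14))))))] (.c k16 (.q k21 [(.s k112 k79 6 (.s k127 k122 2 (.d k63 k42 k191 6 7))), (.s k63 k42 6
  (.s k149 k213 7 (.s k53 k197 11 (.d k48 k58 k186 2 10)))), (.s k80 k95 2 (.s k112 k79 6 (.s k64
  k96 3 (.d k127 k122 k106 2 6))))] (.c k138 (.l (.s k186 k48 10 (.s k63 k42 6 (.s k112 k79 6 (.d
  k127 k122 k191 2 7))))) (.c k186 (.q k138 [(.s k112 k79 6 (.s k127 k122 2 (.d k63 k42 k191 6 7))),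
  (.s k80 k95 2 (.s k240 k160 11 (.s k165 k15 14 (.d k245 k250 k5 2 11)))), (.s k80 k95 2 (.s k112
  k79 6 (.s k64 k96 3 (.d k127 k122 k106 2 6))))] .n) .n))) (.c k21 (.q k16 [(.d k48 k186 k32 10 3),
  (.s k80 k95 2 (.s k112 k79 6 (.s k64 k96 3 (.d k127 k122 k106 2 6))))] (.c k138 (.l (.s k186 k48
  10 (.s k80 k95 2 (.s k112 k79 6 (.s k64 k96 3 (.d k127 k122 k106 2 6)))))) (.c k186 (.q k138 [(.s
  k80 k95 2 (.s k112 k79 6 (.s k64 k96 3 (.d k127 k122 k106 2 6)))), (.s k80 k95 2 (.s k240 k160 11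
  (.s k165 k15 14 (.d k245 k250 k5 2 11)))), (.s k48 k32 3 (.s k112 k79 6 (.s k240 k176 7 (.s k165
  k15 14 (.d k245 k250 k5 2 11)))))] .n) .n))) (.c k138 (.l (.s k186 k48 10 (.s k80 k95 2 (.s k112
  k79 6 (.s k64 k96 3 (.d k127 k122 k106 2 6)))))) (.c k186 (.q k138 [(.s k95 k80 2 (.s k15 k175 11
  (.s k5 k10 2 (.d k165 k245 k240 11 14)))), (.s k80 k95 2 (.s k112 k79 6 (.s k64 k96 3 (.d k127
  k122 k106 2 6)))), (.s k112 k79 6 (.s k127 k122 2 (.s k63 k191 7 (.s k21 k42 6 (.s k149 k213 7 (.d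
  k106 k64 k192 6 14))))))] (.c k16 (.q k21 [(.s k112 k79 6 (.s k127 k122 2 (.d k63 k42 k191 6 7))),
  (.s k80 k95 2 (.s k240 k160 11 (.s k165 k15 14 (.d k245 k250 k5 2 11)))), (.s k80 k95 2 (.s k112
  k79 6 (.s k64 k96 3 (.d k127 k122 k106 2 6))))] .n) (.c k21 (.q k16 [(.s k80 k95 2 (.s k112 k79 6
  (.s k64 k96 3 (.d k127 k122 k106 2 6)))), (.s k80 k95 2 (.s k240 k160 11 (.s k165 k15 14 (.d k245
  k250 k5 2 11)))), (.s k48 k32 3 (.s k112 k79 6 (.s k240 k176 7 (.s k165 k15 14 (.d k245 k250 k5 2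
  11)))))] .n) .n))) .n)))))) (.c k186 (.l (.s k69 k117 3 (.s k207 k138 10 (.s k154 k48 14 (.d k223
  k239 k16 3 10))))) (.c k207 (.q k21 [(.s k63 k42 6 (.s k127 k191 7 (.s k106 k64 6 (.d k149 k213
  k192 7 14)))), (.s k117 k69 3 (.s k149 k213 7 (.s k53 k197 11 (.s k5 k37 3 (.d k245 k181 k165 7
  11))))), (.s k63 k42 6 (.s k117 k69 3 (.s k186 k48 10 (.s k191 k127 7 (.s k181 k176 2 (.s k240
  k122 10 (.d k245 k250 k53 2 7)))))))] .n) (.c k223 (.f k117 k69 3 (.q k21 [(.s k149 k213 7 (.s k53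
  k197 11 (.s k5 k37 3 (.d k245 k181 k165 7 11)))), (.s k63 k42 6 (.s k127 k191 7 (.s k106 k64 6 (.d
  k149 k213 k192 7 14)))), (.s k48 k186 10 (.s k63 k42 6 (.s k58 k53 2 (.s k154 k207 14 (.s k106
  k202 11 (.d k127 k64 k191 6 7))))))] (.c k95 (.q k159 [(.s k48 k186 10 (.s k154 k207 14 (.d k149
  k144 k213 2 7))), (.s k63 k42 6 (.s k111 k207 11 (.s k106 k96 2 (.d k127 k64 k191 6 7))))] (.c
  k207 (.l (.s k48 k186 10 (.s k63 k42 6 (.s k149 k213 7 (.d k53 k58 k197 2 11))))) .n)) (.c k159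
  (.q k95 [(.s k15 k175 11 (.s k90 k80 2 (.s k165 k240 14 (.d k5 k10 k245 2 11)))), (.s k48 k186 10
  (.s k63 k42 6 (.s k149 k213 7 (.d k53 k58 k197 2 11))))] (.c k10 (.l (.s k48 k186 10 (.s k149 k213
  7 (.s k53 k197 11 (.d k63 k58 k42 2 6))))) .n)) .n)))) (.c k239 (.l (.s k117 k69 3 (.s k48 k186 10
  (.s k16 k32 3 (.d k154 k223 k207 10 14))))) .n)))))))))))))

def t26_38 : T TT 256 :=
  (.f k170 k255 14 (.q k2 [(.s k3 k1 0 (.s k86 k254 13 (.s k84 k87 0 (.d k252 k168 k169 13 14))))]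
  (.c k1 (.q k34 [(.s k102 k238 9 (.s k68 k119 4 (.s k204 k136 9 (.d k51 k17 k153 4 14)))), (.s k50
  k18 3 (.s k254 k86 13 (.s k186 k118 9 (.s k154 k138 3 (.d k102 k238 k206 9 13)))))] (.c k14 (.l
  (.s k50 k18 3 (.s k51 k17 4 (.s k102 k238 9 (.s k68 k119 4 (.d k204 k136 k153 9 14)))))) (.c k50
  (.q k14 [(.s k102 k238 9 (.s k68 k119 4 (.s k204 k136 9 (.d k51 k17 k153 4 14)))), (.s k6 k10 1
  (.s k86 k254 13 (.s k166 k246 11 (.s k162 k174 1 (.d k242 k82 k90 11 13)))))] .n) (.c k102 (.l (.s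
  k17 k51 4 (.s k86 k254 13 (.s k153 k221 9 (.s k19 k220 10 (.d k18 k16 k50 0 3)))))) (.c k238 (.l
  (.s k50 k18 3 (.s k51 k17 4 (.s k254 k86 13 (.s k186 k118 9 (.s k154 k138 3 (.s k16 k223 10 (.d
  k48 k49 k32 0 3)))))))) .n))))) (.c k3 (.q k10 [(.s k15 k5 2 (.s k90 k250 11 (.s k80 k95 2 (.d
  k240 k160 k165 11 14)))), (.s k14 k6 1 (.s k254 k86 13 (.s k174 k94 11 (.s k166 k162 1 (.d k90
  k250 k242 11 13)))))] (.c k14 (.q k50 [(.s k15 k5 2 (.s k90 k250 11 (.s k80 k95 2 (.d k240 k160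
  k165 11 14)))), (.s k18 k34 3 (.s k86 k254 13 (.s k154 k222 9 (.s k138 k186 3 (.d k206 k70 k102 9
  13)))))] (.c k87 (.q k171 [(.s k15 k5 2 (.s k90 k250 11 (.s k240 k165 14 (.d k80 k95 k160 2
  11)))), (.s k18 k34 3 (.s k86 k254 13 (.s k154 k222 9 (.s k138 k186 3 (.d k206 k70 k102 9 13)))))]
  .n) (.c k171 (.q k87 [(.d k86 k84 k254 0 13), (.s k15 k5 2 (.s k90 k250 11 (.s k80 k95 2 (.d k240
  k160 k165 11 14))))] .n) .n))) (.c k50 (.l (.s k14 k6 1 (.s k15 k5 2 (.s k90 k250 11 (.s k80 k95 2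
  (.d k240 k160 k165 11 14)))))) (.c k87 (.q k171 [(.s k15 k5 2 (.s k90 k250 11 (.s k240 k165 14 (.d
  k80 k95 k160 2 11)))), (.s k14 k6 1 (.s k254 k86 13 (.s k174 k94 11 (.s k166 k162 1 (.d k90 k250
  k242 11 13))))), (.s k5 k15 2 (.s k169 k168 0 (.s k1 k253 13 (.s k9 k13 1 (.s k89 k249 11 (.d k8
  k11 k251 0 12))))))] (.c k14 (.q k50 [(.s k15 k5 2 (.s k90 k250 11 (.s k240 k165 14 (.d k80 k95
  k160 2 11)))), (.s k18 k34 3 (.s k86 k254 13 (.s k154 k222 9 (.s k138 k186 3 (.d k206 k70 k102 9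
  13)))))] .n) (.c k50 (.l (.s k14 k6 1 (.s k15 k5 2 (.s k90 k250 11 (.s k80 k95 2 (.d k240 k160
  k165 11 14)))))) .n))) (.c k90 (.l (.s k5 k15 2 (.s k86 k254 13 (.s k165 k245 11 (.s k7 k244 12
  (.d k6 k4 k14 0 1)))))) (.c k171 (.q k87 [(.d k86 k84 k254 0 13), (.s k15 k5 2 (.s k90 k250 11 (.s
  k80 k95 2 (.d k240 k160 k165 11 14))))] (.c k14 (.q k50 [(.d k86 k84 k254 0 13), (.s k15 k5 2 (.s
  k90 k250 11 (.s k80 k95 2 (.d k240 k160 k165 11 14))))] .n) (.c k50 (.l (.s k14 k6 1 (.d k86 k84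
  k254 0 13))) .n))) (.c k250 (.l (.s k14 k6 1 (.s k15 k5 2 (.s k12 k13 0 (.s k4 k8 1 (.s k166 k247
  12 (.s k162 k174 1 (.d k242 k82 k90 11 13)))))))) .n))))))) (.c k14 (.q k50 [(.s k3 k1 0 (.s k86
  k254 13 (.s k84 k87 0 (.d k252 k168 k169 13 14)))), (.s k34 k18 3 (.s k51 k17 4 (.s k102 k238 9
  (.s k68 k119 4 (.d k204 k136 k153 9 14)))))] .n) (.c k50 (.q k14 [(.s k3 k1 0 (.s k86 k254 13 (.s
  k84 k87 0 (.d k252 k168 k169 13 14)))), (.s k10 k6 1 (.s k15 k5 2 (.s k90 k250 11 (.s k80 k95 2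
  (.d k240 k160 k165 11 14)))))] .n) (.c k84 (.f k3 k1 0 (.f k254 k86 13 (.q k6 [(.s k12 k9 2 (.s k4
  k8 1 (.s k5 k7 0 (.d k10 k14 k15 1 2)))), (.s k14 k10 1 (.s k174 k94 11 (.s k162 k166 1 (.s k82
  k242 11 (.s k161 k240 12 (.s k163 k160 0 (.d k243 k83 k81 11 12)))))))] (.c k10 (.l (.s k12 k9 2
  (.s k8 k4 1 (.s k89 k251 12 (.s k81 k93 1 (.d k243 k162 k166 12 14)))))) (.c k14 (.q k50 [(.s k186
  k118 9 (.s k154 k138 3 (.s k102 k206 13 (.d k34 k18 k238 3 9)))), (.s k12 k9 2 (.s k4 k8 1 (.s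
  k166 k247 12 (.s k162 k174 1 (.d k243 k81 k89 12 14)))))] .n) (.c k50 (.l (.s k14 k10 1 (.s k12 k9
  2 (.s k174 k94 11 (.s k166 k162 1 (.d k4 k8 k247 1 12)))))) .n)))))) (.c k86 (.f k3 k1 0 (.q k34
  [(.s k102 k238 9 (.s k68 k119 4 (.s k204 k136 9 (.d k51 k17 k153 4 14)))), (.s k51 k17 4 (.s k35
  k19 3 (.s k33 k32 0 (.d k18 k50 k48 3 4)))), (.s k50 k18 3 (.s k102 k238 9 (.s k154 k206 13 (.s
  k16 k223 10 (.s k48 k32 3 (.s k138 k186 3 (.d k207 k69 k101 10 14)))))))] (.c k14 (.l (.s k50 k18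
  3 (.s k51 k17 4 (.s k102 k238 9 (.s k68 k119 4 (.d k204 k136 k153 9 14)))))) (.c k50 (.q k14 [(.s
  k102 k238 9 (.s k68 k119 4 (.s k204 k136 9 (.d k51 k17 k153 4 14)))), (.s k10 k6 1 (.s k15 k5 2
  (.s k90 k250 11 (.s k80 k95 2 (.d k240 k160 k165 11 14)))))] .n) .n)))) (.c k87 (.f k3 k1 0 (.f
  k254 k86 13 (.q k6 [(.s k12 k9 2 (.s k4 k8 1 (.s k5 k7 0 (.d k10 k14 k15 1 2)))), (.s k14 k10 1
  (.s k174 k94 11 (.s k162 k166 1 (.s k82 k242 11 (.s k161 k240 12 (.s k163 k160 0 (.d k243 k83 k81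
  11 12)))))))] (.c k10 (.l (.s k12 k9 2 (.s k8 k4 1 (.s k89 k251 12 (.s k81 k93 1 (.d k243 k162
  k166 12 14)))))) (.c k14 (.q k50 [(.s k186 k118 9 (.s k154 k138 3 (.s k102 k206 13 (.d k34 k18
  k238 3 9)))), (.s k12 k9 2 (.s k4 k8 1 (.s k166 k247 12 (.s k162 k174 1 (.d k243 k81 k89 12
  14)))))] .n) (.c k50 (.l (.s k14 k10 1 (.s k12 k9 2 (.s k174 k94 11 (.s k166 k162 1 (.d k4 k8 k247
  1 12)))))) .n)))))) (.c k168 (.f k3 k1 0 (.f k254 k86 13 (.q k6 [(.s k12 k9 2 (.s k4 k8 1 (.s k5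
  k7 0 (.d k10 k14 k15 1 2)))), (.s k14 k10 1 (.s k174 k94 11 (.s k162 k166 1 (.s k82 k242 11 (.s
  k161 k240 12 (.s k163 k160 0 (.d k243 k83 k81 11 12)))))))] (.c k10 (.l (.s k12 k9 2 (.s k8 k4 1
  (.s k89 k251 12 (.s k81 k93 1 (.d k243 k162 k166 12 14)))))) (.c k14 (.q k50 [(.s k186 k118 9 (.s
  k154 k138 3 (.s k102 k206 13 (.d k34 k18 k238 3 9)))), (.s k12 k9 2 (.s k4 k8 1 (.s k166 k247 12
  (.s k162 k174 1 (.d k243 k81 k89 12 14)))))] .n) (.c k50 (.l (.s k14 k10 1 (.s k12 k9 2 (.s k174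
  k94 11 (.s k166 k162 1 (.d k4 k8 k247 1 12)))))) .n)))))) (.c k169 (.f k3 k1 0 (.f k254 k86 13 (.q
  k6 [(.s k12 k9 2 (.s k4 k8 1 (.s k5 k7 0 (.d k10 k14 k15 1 2)))), (.s k14 k10 1 (.s k174 k94 11
  (.s k162 k166 1 (.s k82 k242 11 (.s k161 k240 12 (.s k163 k160 0 (.d k243 k83 k81 11 12)))))))]
  (.c k10 (.l (.s k12 k9 2 (.s k8 k4 1 (.s k89 k251 12 (.s k81 k93 1 (.d k243 k162 k166 12 14))))))
  (.c k14 (.q k50 [(.s k186 k118 9 (.s k154 k138 3 (.s k102 k206 13 (.d k34 k18 k238 3 9)))), (.s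
  k12 k9 2 (.s k4 k8 1 (.s k166 k247 12 (.s k162 k174 1 (.d k243 k89 k81 14 12)))))] .n) (.c k50 (.l
  (.s k14 k10 1 (.s k12 k9 2 (.s k174 k94 11 (.s k166 k162 1 (.d k4 k8 k247 1 12)))))) .n)))))) (.c
  k252 (.f k3 k1 0 (.f k254 k86 13 (.q k6 [(.s k12 k9 2 (.s k4 k8 1 (.s k5 k7 0 (.d k10 k14 k15 1
  2)))), (.s k14 k10 1 (.s k174 k94 11 (.s k162 k166 1 (.s k81 k243 12 (.s k82 k242 11 (.s k80 k83 0
  (.d k240 k160 k161 11 12))))))), (.s k12 k9 2 (.s k8 k4 1 (.s k89 k251 12 (.s k81 k93 1 (.d k243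
  k162 k166 12 14)))))] (.c k12 (.l (.s k14 k10 1 (.s k174 k94 11 (.s k162 k166 1 (.s k82 k242 11
  (.s k161 k240 12 (.s k163 k160 0 (.d k243 k83 k81 11 12)))))))) (.c k14 (.q k50 [(.s k186 k118 9
  (.s k154 k138 3 (.s k102 k206 13 (.d k34 k18 k238 3 9)))), (.s k12 k9 2 (.s k4 k8 1 (.s k166 k247
  12 (.s k162 k174 1 (.d k243 k81 k89 12 14)))))] .n) (.c k50 (.l (.s k14 k10 1 (.s k12 k9 2 (.s
  k174 k94 11 (.s k166 k162 1 (.d k4 k8 k247 1 12)))))) .n)))))) (.c k253 (.l (.s k3 k1 0 (.s k86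
  k254 13 (.s k252 k169 14 (.d k84 k87 k168 0 13))))) (.c k254 (.q k50 [(.s k34 k18 3 (.s k102 k238
  9 (.s k68 k119 4 (.s k204 k136 9 (.d k51 k17 k153 4 14))))), (.s k3 k1 0 (.s k18 k34 3 (.s k48 k33
  4 (.s k32 k16 3 (.s k101 k239 10 (.s k69 k117 3 (.d k207 k138 k154 10 14)))))))] (.c k17 (.l (.s
  k3 k1 0 (.s k34 k18 3 (.s k102 k238 9 (.s k68 k119 4 (.s k204 k136 9 (.s k70 k137 10 (.d k206 k138
  k154 9 13)))))))) (.c k18 (.f k3 k1 0 (.q k22 [(.s k41 k60 6 (.s k42 k62 5 (.s k43 k40 0 (.d k63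
  k23 k21 5 6)))), (.s k42 k62 5 (.s k106 k234 7 (.s k64 k127 6 (.s k192 k128 7 (.d k63 k21 k149 6
  14))))), (.s k60 k41 6 (.s k40 k20 5 (.s k105 k235 8 (.s k65 k125 5 (.d k195 k130 k150 8 14)))))]
  (.c k21 (.l (.s k41 k60 6 (.s k42 k62 5 (.s k40 k43 0 (.s k105 k235 8 (.s k169 k233 7 (.s k252 k86
  14 (.d k168 k171 k84 0 13)))))))) (.c k252 (.q k253 [(.s k41 k60 6 (.s k42 k62 5 (.s k43 k40 0 (.d
  k63 k23 k21 5 6)))), (.s k42 k62 5 (.s k106 k234 7 (.s k64 k127 6 (.s k192 k128 7 (.d k63 k21 k149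
  6 14))))), (.s k60 k41 6 (.s k40 k20 5 (.s k105 k235 8 (.s k65 k125 5 (.d k195 k130 k150 8
  14)))))] (.c k21 (.l (.s k62 k42 5 (.s k60 k41 6 (.s k61 k63 0 (.s k40 k20 5 (.s k105 k235 8 (.d
  k125 k189 k65 7 5))))))) .n)) (.c k253 (.q k252 [(.s k84 k168 13 (.d k86 k87 k169 0 14)), (.s k41
  k60 6 (.s k42 k62 5 (.s k43 k40 0 (.d k63 k23 k21 5 6))))] .n) .n))))) (.c k34 (.f k3 k1 0 (.q k42
  [(.s k22 k62 5 (.s k41 k60 6 (.s k43 k40 0 (.d k63 k23 k21 5 6)))), (.s k106 k234 7 (.s k64 k127 6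
  (.s k192 k128 7 (.d k63 k21 k149 6 14))))] (.c k21 (.l (.s k62 k22 5 (.s k106 k234 7 (.s k64 k127
  6 (.s k192 k128 7 (.s k66 k129 8 (.d k194 k130 k150 7 13))))))) (.c k63 (.l (.s k22 k62 5 (.s k60
  k41 6 (.s k20 k40 5 (.s k150 k215 8 (.s k195 k105 14 (.d k130 k190 k65 5 8))))))) (.c k252 (.q
  k253 [(.s k106 k234 7 (.s k64 k127 6 (.s k192 k128 7 (.d k63 k21 k149 6 14)))), (.s k22 k62 5 (.s
  k60 k41 6 (.s k20 k40 5 (.s k150 k215 8 (.s k195 k105 14 (.d k130 k190 k65 5 8))))))] (.c k21 (.l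
  (.s k62 k22 5 (.s k106 k234 7 (.s k64 k127 6 (.s k192 k128 7 (.s k66 k129 8 (.d k194 k130 k150 7
  13))))))) .n)) (.c k253 (.q k252 [(.s k84 k168 13 (.d k86 k87 k169 0 14)), (.s k21 k63 6 (.s k22
  k62 5 (.s k20 k23 0 (.d k60 k40 k41 5 6))))] .n) .n)))))) (.c k252 (.q k253 [(.d k1 k3 k169 0 13),
  (.s k34 k18 3 (.s k51 k17 4 (.s k102 k238 9 (.s k68 k119 4 (.d k204 k136 k153 9 14)))))] .n) (.c
  k253 (.q k252 [(.s k3 k1 0 (.s k84 k168 13 (.d k86 k87 k169 0 14))), (.s k34 k18 3 (.s k51 k17 4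
  (.s k102 k238 9 (.s k68 k119 4 (.d k204 k136 k153 9 14)))))] .n) .n)))))) .n))))))))))))))

def t26_39 : T TT 256 :=
  (.f k255 k170 14 (.q k89 [(.s k81 k93 1 (.s k243 k162 12 (.s k166 k12 14 (.d k247 k251 k4 1
  12))))] (.c k4 (.q k1 [(.s k169 k253 13 (.s k3 k2 0 (.s k86 k252 14 (.d k87 k84 k171 0 13)))), (.s
  k81 k93 1 (.s k169 k253 13 (.s k9 k249 11 (.s k13 k5 1 (.d k241 k161 k165 11 13))))), (.s k3 k2 0
  (.s k81 k93 1 (.s k161 k241 11 (.s k82 k240 12 (.s k83 k80 0 (.d k243 k163 k162 11 12))))))] .n)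
  (.c k12 (.q k1 [(.s k3 k2 0 (.s k87 k171 13 (.s k86 k84 0 (.d k169 k253 k252 13 14)))), (.s k81
  k93 1 (.s k169 k253 13 (.s k9 k249 11 (.s k13 k5 1 (.d k241 k161 k165 11 13))))), (.s k3 k2 0 (.s
  k81 k93 1 (.s k161 k241 11 (.s k82 k240 12 (.s k83 k80 0 (.d k243 k163 k162 11 12))))))] .n) (.c
  k81 (.q k87 [(.s k86 k84 0 (.s k3 k171 13 (.s k169 k252 14 (.d k1 k2 k253 0 13)))), (.s k86 k84 0
  (.s k83 k92 2 (.s k95 k91 1 (.s k15 k175 11 (.s k5 k10 2 (.s k165 k245 11 (.d k90 k80 k240 2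
  14)))))))] (.c k84 (.l (.s k3 k171 13 (.s k1 k2 0 (.s k169 k253 13 (.s k9 k249 11 (.s k12 k6 2 (.s
  k4 k8 1 (.d k166 k247 k243 12 14)))))))) (.c k86 (.f k3 k171 13 (.q k169 [(.d k1 k2 k253 0 13),
  (.s k9 k249 11 (.s k12 k6 2 (.s k4 k8 1 (.d k166 k247 k243 12 14))))] (.c k2 (.q k254 [(.d k253
  k252 k1 0 13), (.s k9 k249 11 (.s k12 k6 2 (.s k4 k8 1 (.d k166 k247 k243 12 14))))] .n) (.c k254
  (.l (.s k2 k1 0 (.s k9 k249 11 (.s k12 k6 2 (.s k4 k8 1 (.d k166 k247 k243 12 14)))))) .n))))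
  .n))) (.c k93 (.q k69 [(.s k101 k117 3 (.s k207 k138 10 (.s k223 k239 3 (.d k154 k16 k48 10
  14)))), (.s k101 k117 3 (.s k77 k113 5 (.s k65 k73 1 (.s k195 k130 8 (.s k215 k235 5 (.s k150 k20
  8 (.d k105 k125 k60 5 14)))))))] (.c k101 (.f k207 k138 10 (.q k154 [(.d k223 k239 k16 3 10), (.s
  k219 k24 8 (.s k243 k231 5 (.s k166 k12 14 (.d k247 k251 k4 1 12))))] (.c k32 (.l (.s k239 k223 3
  (.s k219 k24 8 (.s k243 k231 5 (.s k166 k12 14 (.d k247 k251 k4 1 12)))))) (.c k239 (.q k32 [(.d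
  k16 k48 k223 3 10), (.s k219 k24 8 (.s k243 k231 5 (.s k247 k251 1 (.d k166 k4 k12 12 14))))] .n)
  .n)))) (.c k117 (.l (.s k207 k138 10 (.s k223 k239 3 (.s k154 k16 10 (.s k219 k24 8 (.s k243 k231
  5 (.s k166 k12 14 (.d k247 k251 k4 1 12)))))))) .n))) (.c k162 (.l (.s k93 k81 1 (.s k12 k174 12
  (.s k166 k243 14 (.d k4 k8 k247 1 12))))) (.c k166 (.f k81 k93 1 (.q k83 [(.s k80 k82 0 (.s k86
  k92 2 (.s k87 k84 0 (.d k95 k91 k90 1 2)))), (.s k80 k82 0 (.s k240 k160 11 (.s k245 k250 2 (.s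
  k165 k5 11 (.s k241 k13 13 (.d k243 k162 k242 12 0)))))), (.s k86 k92 2 (.s k84 k87 0 (.s k252
  k168 13 (.s k169 k3 14 (.d k253 k254 k1 0 13)))))] (.c k162 (.q k174 [(.s k86 k92 2 (.s k87 k84 0
  (.s k95 k91 1 (.d k80 k82 k90 0 2)))), (.s k80 k82 0 (.s k240 k160 11 (.s k245 k250 2 (.s k165 k5
  11 (.d k90 k95 k15 2 14))))), (.s k86 k92 2 (.s k84 k87 0 (.s k252 k168 13 (.s k169 k3 14 (.d k253
  k254 k1 0 13)))))] (.c k95 (.l (.s k82 k80 0 (.s k86 k92 2 (.s k94 k90 1 (.s k84 k87 0 (.s k252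
  k168 13 (.d k254 k14 k253 11 0))))))) .n)) (.c k174 (.l (.s k162 k243 12 (.s k80 k82 0 (.s k86 k92
  2 (.s k87 k84 0 (.d k95 k91 k90 1 2)))))) .n)))) (.c k174 (.l (.s k81 k93 1 (.s k243 k162 12 (.s
  k166 k12 14 (.d k247 k251 k4 1 12))))) (.c k243 (.q k1 [(.s k3 k2 0 (.s k87 k171 13 (.s k86 k84 0
  (.d k169 k253 k252 13 14)))), (.s k81 k93 1 (.s k169 k253 13 (.s k9 k249 11 (.s k13 k5 1 (.d k241
  k161 k165 11 13))))), (.s k3 k2 0 (.s k93 k81 1 (.s k12 k174 12 (.s k8 k4 1 (.s k9 k6 2 (.s k5 k13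
  1 (.d k10 k11 k15 0 2)))))))] .n) (.c k247 (.q k1 [(.s k169 k253 13 (.s k3 k2 0 (.s k86 k252 14
  (.d k87 k84 k171 0 13)))), (.s k81 k93 1 (.s k169 k253 13 (.s k9 k249 11 (.s k13 k5 1 (.d k241
  k161 k165 11 13))))), (.s k3 k2 0 (.s k81 k93 1 (.s k161 k241 11 (.s k82 k240 12 (.s k83 k80 0 (.d
  k243 k163 k162 11 12))))))] .n) (.c k251 (.l (.s k93 k81 1 (.s k12 k174 12 (.s k4 k8 1 (.d k166
  k247 k243 12 14))))) .n))))))))))))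

def t26_42 : T TT 256 :=
  (.f k170 k255 14 (.q k10 [(.s k15 k5 2 (.s k90 k250 11 (.s k80 k95 2 (.d k240 k160 k165 11 14))))]
  (.c k5 (.q k1 [(.s k169 k253 13 (.s k168 k171 0 (.s k252 k84 13 (.d k3 k2 k86 0 14)))), (.s k90
  k250 11 (.s k169 k253 13 (.s k11 k248 12 (.s k8 k9 0 (.s k171 k168 0 (.d k251 k91 k89 11 12)))))),
  (.s k2 k3 0 (.s k14 k6 1 (.s k90 k250 11 (.s k166 k242 13 (.s k174 k162 1 (.d k254 k94 k86 11
  13))))))] (.c k171 (.l (.s k3 k2 0 (.s k90 k250 11 (.s k80 k95 2 (.s k169 k253 13 (.s k11 k248 12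
  (.s k15 k7 1 (.d k240 k160 k165 11 14)))))))) (.c k254 (.l (.s k3 k2 0 (.s k169 k253 13 (.s k252
  k86 14 (.d k168 k171 k84 0 13))))) .n))) (.c k15 (.q k1 [(.s k169 k253 13 (.s k168 k171 0 (.s k252
  k84 13 (.d k3 k2 k86 0 14)))), (.s k90 k250 11 (.s k169 k253 13 (.s k11 k248 12 (.s k8 k9 0 (.s
  k171 k168 0 (.d k251 k91 k89 11 12)))))), (.s k2 k3 0 (.s k14 k6 1 (.s k90 k250 11 (.s k166 k242
  13 (.s k174 k162 1 (.d k254 k94 k86 11 13))))))] (.c k37 (.q k48 [(.s k32 k16 3 (.s k101 k239 10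
  (.s k69 k117 3 (.d k207 k138 k154 10 14)))), (.s k3 k2 0 (.s k169 k253 13 (.s k168 k171 0 (.d k252
  k84 k86 13 14))))] (.c k32 (.q k47 [(.s k169 k253 13 (.s k168 k171 0 (.s k252 k84 13 (.d k3 k2 k86
  0 14)))), (.s k90 k250 11 (.s k169 k253 13 (.s k11 k248 12 (.s k8 k9 0 (.s k171 k168 0 (.d k251
  k91 k89 11 12)))))), (.s k2 k3 0 (.s k14 k6 1 (.s k90 k250 11 (.s k166 k242 13 (.s k174 k162 1 (.d
  k254 k94 k86 11 13))))))] (.c k95 (.q k175 [(.s k169 k253 13 (.s k168 k171 0 (.s k252 k84 13 (.d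
  k3 k2 k86 0 14)))), (.s k90 k250 11 (.s k165 k160 2 (.s k169 k253 13 (.s k11 k248 12 (.s k9 k8 0
  (.d k5 k245 k13 11 1)))))), (.s k2 k3 0 (.s k6 k14 1 (.s k165 k160 2 (.s k5 k245 11 (.s k7 k4 0
  (.d k86 k244 k254 12 13))))))] (.c k254 (.l (.s k3 k2 0 (.s k169 k253 13 (.s k252 k86 14 (.d k168
  k171 k84 0 13))))) .n)) (.c k171 (.l (.s k3 k2 0 (.s k33 k18 4 (.s k169 k253 13 (.s k101 k237 9
  (.s k69 k117 3 (.d k207 k138 k154 10 14))))))) (.c k175 (.q k95 [(.d k90 k80 k250 2 11), (.s k3 k2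
  0 (.s k169 k253 13 (.s k168 k171 0 (.d k252 k84 k86 13 14))))] .n) (.c k254 (.l (.s k3 k2 0 (.s
  k169 k253 13 (.s k252 k86 14 (.d k168 k171 k84 0 13))))) .n))))) (.c k47 (.l (.s k32 k16 3 (.s
  k101 k239 10 (.s k69 k117 3 (.d k207 k138 k154 10 14))))) (.c k95 (.q k175 [(.s k32 k16 3 (.s k101
  k239 10 (.s k69 k117 3 (.d k207 k138 k154 10 14)))), (.s k3 k2 0 (.s k169 k253 13 (.s k168 k171 0
  (.d k252 k84 k86 13 14))))] (.c k32 (.q k47 [(.s k169 k253 13 (.s k168 k171 0 (.s k252 k84 13 (.d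
  k3 k2 k86 0 14)))), (.s k90 k250 11 (.s k165 k160 2 (.s k169 k253 13 (.s k11 k248 12 (.s k9 k8 0
  (.d k5 k245 k13 11 1)))))), (.s k2 k3 0 (.s k6 k14 1 (.s k165 k160 2 (.s k5 k245 11 (.s k7 k4 0
  (.d k86 k244 k254 12 13))))))] (.c k254 (.l (.s k3 k2 0 (.s k169 k253 13 (.s k252 k86 14 (.d k168
  k171 k84 0 13))))) .n)) (.c k47 (.l (.s k32 k16 3 (.s k101 k239 10 (.s k69 k117 3 (.d k207 k138
  k154 10 14))))) .n))) (.c k175 (.q k95 [(.d k90 k80 k250 2 11), (.s k3 k2 0 (.s k169 k253 13 (.s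
  k168 k171 0 (.d k252 k84 k86 13 14))))] (.c k32 (.q k47 [(.d k90 k80 k250 2 11), (.s k3 k2 0 (.s
  k169 k253 13 (.s k168 k171 0 (.d k252 k84 k86 13 14))))] .n) (.c k47 (.l (.s k32 k16 3 (.d k90 k80
  k250 2 11))) .n))) .n))))) (.c k48 (.q k37 [(.s k169 k253 13 (.s k168 k171 0 (.s k252 k84 13 (.d
  k3 k2 k86 0 14)))), (.s k90 k250 11 (.s k169 k253 13 (.s k11 k248 12 (.s k8 k9 0 (.s k171 k168 0
  (.d k251 k91 k89 11 12)))))), (.s k2 k3 0 (.s k14 k6 1 (.s k90 k250 11 (.s k166 k242 13 (.s k174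
  k162 1 (.d k254 k94 k86 11 13))))))] (.c k95 (.q k175 [(.s k169 k253 13 (.s k168 k171 0 (.s k252
  k84 13 (.d k3 k2 k86 0 14)))), (.s k3 k2 0 (.s k160 k165 2 (.s k240 k80 11 (.s k161 k82 12 (.s k81
  k241 11 (.d k162 k163 k243 0 12)))))), (.s k90 k250 11 (.s k165 k160 2 (.s k169 k253 13 (.s k11
  k248 12 (.s k9 k8 0 (.d k5 k245 k13 11 1))))))] (.c k117 (.q k186 [(.s k169 k253 13 (.s k168 k171
  0 (.s k252 k84 13 (.d k3 k2 k86 0 14)))), (.s k3 k2 0 (.s k160 k165 2 (.s k240 k80 11 (.s k161 k82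
  12 (.s k81 k241 11 (.d k162 k163 k243 0 12)))))), (.s k90 k250 11 (.s k165 k160 2 (.s k169 k253 13
  (.s k11 k248 12 (.s k9 k8 0 (.d k5 k245 k13 11 1))))))] .n) (.c k186 (.q k117 [(.s k101 k69 3 (.d
  k165 k160 k229 2 7)), (.s k3 k2 0 (.s k169 k253 13 (.s k168 k171 0 (.d k252 k84 k86 13 14))))] .n)
  .n))) (.c k117 (.q k186 [(.s k169 k253 13 (.s k168 k171 0 (.s k252 k84 13 (.d k3 k2 k86 0 14)))),
  (.s k2 k3 0 (.s k14 k6 1 (.s k90 k250 11 (.s k166 k242 13 (.s k174 k162 1 (.d k254 k94 k86 11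
  13)))))), (.s k90 k250 11 (.s k169 k253 13 (.s k11 k248 12 (.s k8 k9 0 (.s k171 k168 0 (.d k251
  k91 k89 11 12))))))] (.c k95 (.q k175 [(.s k169 k253 13 (.s k168 k171 0 (.s k252 k84 13 (.d k3 k2
  k86 0 14)))), (.s k3 k2 0 (.s k160 k165 2 (.s k240 k80 11 (.s k161 k82 12 (.s k81 k241 11 (.d k162
  k163 k243 0 12)))))), (.s k90 k250 11 (.s k165 k160 2 (.s k169 k253 13 (.s k11 k248 12 (.s k9 k8 0
  (.d k5 k245 k13 11 1))))))] .n) (.c k171 (.l (.s k3 k2 0 (.s k90 k250 11 (.s k169 k253 13 (.s k248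
  k11 12 (.s k252 k86 14 (.s k240 k244 1 (.d k80 k95 k160 2 11)))))))) (.c k175 (.q k95 [(.d k90 k80
  k250 2 11), (.s k3 k2 0 (.s k169 k253 13 (.s k168 k171 0 (.d k252 k84 k86 13 14))))] .n) (.c k254
  (.l (.s k3 k2 0 (.s k169 k253 13 (.s k252 k86 14 (.d k168 k171 k84 0 13))))) .n))))) (.c k171 (.l
  (.s k3 k2 0 (.s k90 k250 11 (.s k169 k253 13 (.s k248 k11 12 (.s k252 k86 14 (.s k240 k244 1 (.d
  k80 k95 k160 2 11)))))))) (.c k175 (.q k95 [(.d k90 k80 k250 2 11), (.s k3 k2 0 (.s k169 k253 13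
  (.s k168 k171 0 (.d k252 k84 k86 13 14))))] (.c k117 (.q k186 [(.d k90 k80 k250 2 11), (.s k3 k2 0
  (.s k169 k253 13 (.s k168 k171 0 (.d k252 k84 k86 13 14))))] .n) (.c k186 (.q k117 [(.d k90 k80
  k250 2 11), (.s k3 k2 0 (.s k169 k253 13 (.s k168 k171 0 (.d k252 k84 k86 13 14))))] .n) .n))) (.c
  k186 (.q k117 [(.s k169 k253 13 (.s k168 k171 0 (.s k252 k84 13 (.d k3 k2 k86 0 14)))), (.s k101
  k69 3 (.s k253 k169 13 (.s k49 k185 9 (.s k153 k205 13 (.d k17 k33 k221 3 9))))), (.s k2 k3 0 (.s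
  k14 k6 1 (.s k90 k250 11 (.s k166 k242 13 (.s k174 k162 1 (.d k254 k94 k86 11 13))))))] (.c k95
  (.q k175 [(.s k101 k69 3 (.d k165 k160 k229 2 7)), (.s k3 k2 0 (.s k169 k253 13 (.s k168 k171 0
  (.d k252 k84 k86 13 14))))] .n) (.c k175 (.q k95 [(.d k90 k80 k250 2 11), (.s k3 k2 0 (.s k169
  k253 13 (.s k168 k171 0 (.d k252 k84 k86 13 14))))] .n) .n))) (.c k254 (.l (.s k3 k2 0 (.s k169
  k253 13 (.s k252 k86 14 (.d k168 k171 k84 0 13))))) .n))))))) (.c k95 (.q k175 [(.s k169 k253 13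
  (.s k168 k171 0 (.s k252 k84 13 (.d k3 k2 k86 0 14)))), (.s k3 k2 0 (.s k160 k165 2 (.s k240 k80
  11 (.s k161 k82 12 (.s k81 k241 11 (.d k162 k163 k243 0 12)))))), (.s k90 k250 11 (.s k165 k160 2
  (.s k169 k253 13 (.s k11 k248 12 (.s k9 k8 0 (.d k5 k245 k13 11 1))))))] (.c k37 (.q k48 [(.s k32
  k16 3 (.s k101 k239 10 (.s k69 k117 3 (.d k207 k138 k154 10 14)))), (.s k3 k2 0 (.s k169 k253 13
  (.s k168 k171 0 (.d k252 k84 k86 13 14))))] (.c k32 (.q k47 [(.s k169 k253 13 (.s k168 k171 0 (.s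
  k252 k84 13 (.d k3 k2 k86 0 14)))), (.s k90 k250 11 (.s k165 k160 2 (.s k169 k253 13 (.s k11 k248
  12 (.s k9 k8 0 (.d k5 k245 k13 11 1)))))), (.s k2 k3 0 (.s k6 k14 1 (.s k165 k160 2 (.s k5 k245 11
  (.s k7 k4 0 (.d k86 k244 k254 12 13))))))] (.c k254 (.l (.s k3 k2 0 (.s k169 k253 13 (.s k252 k86
  14 (.d k168 k171 k84 0 13))))) .n)) (.c k47 (.l (.s k32 k16 3 (.s k101 k239 10 (.s k69 k117 3 (.d
  k207 k138 k154 10 14))))) .n))) (.c k48 (.q k37 [(.s k169 k253 13 (.s k168 k171 0 (.s k252 k84 13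
  (.d k3 k2 k86 0 14)))), (.s k3 k2 0 (.s k160 k165 2 (.s k240 k80 11 (.s k161 k82 12 (.s k81 k241
  11 (.d k162 k163 k243 0 12)))))), (.s k90 k250 11 (.s k165 k160 2 (.s k169 k253 13 (.s k11 k248 12
  (.s k9 k8 0 (.d k5 k245 k13 11 1))))))] (.c k117 (.q k186 [(.s k169 k253 13 (.s k168 k171 0 (.s
  k252 k84 13 (.d k3 k2 k86 0 14)))), (.s k3 k2 0 (.s k160 k165 2 (.s k240 k80 11 (.s k161 k82 12
  (.s k81 k241 11 (.d k162 k163 k243 0 12)))))), (.s k90 k250 11 (.s k165 k160 2 (.s k169 k253 13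
  (.s k11 k248 12 (.s k9 k8 0 (.d k5 k245 k13 11 1))))))] .n) (.c k186 (.q k117 [(.s k101 k69 3 (.d
  k165 k160 k229 2 7)), (.s k3 k2 0 (.s k169 k253 13 (.s k168 k171 0 (.d k252 k84 k86 13 14))))] .n)
  .n))) .n))) (.c k171 (.l (.s k3 k2 0 (.s k90 k250 11 (.s k169 k253 13 (.s k248 k11 12 (.s k252 k86
  14 (.s k240 k244 1 (.d k80 k95 k160 2 11)))))))) (.c k175 (.q k95 [(.d k90 k80 k250 2 11), (.s k3
  k2 0 (.s k169 k253 13 (.s k168 k171 0 (.d k252 k84 k86 13 14))))] (.c k37 (.q k48 [(.d k90 k80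
  k250 2 11), (.s k3 k2 0 (.s k169 k253 13 (.s k168 k171 0 (.d k252 k84 k86 13 14))))] (.c k32 (.q
  k47 [(.d k90 k80 k250 2 11), (.s k3 k2 0 (.s k169 k253 13 (.s k168 k171 0 (.d k252 k84 k86 13
  14))))] .n) (.c k47 (.l (.s k32 k16 3 (.d k90 k80 k250 2 11))) .n))) (.c k48 (.q k37 [(.d k90 k80
  k250 2 11), (.s k3 k2 0 (.s k169 k253 13 (.s k168 k171 0 (.d k252 k84 k86 13 14))))] (.c k117 (.q
  k186 [(.d k90 k80 k250 2 11), (.s k3 k2 0 (.s k169 k253 13 (.s k168 k171 0 (.d k252 k84 k86 13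
  14))))] .n) (.c k186 (.q k117 [(.d k90 k80 k250 2 11), (.s k3 k2 0 (.s k169 k253 13 (.s k168 k171
  0 (.d k252 k84 k86 13 14))))] .n) .n))) .n))) (.c k254 (.l (.s k3 k2 0 (.s k169 k253 13 (.s k252
  k86 14 (.d k168 k171 k84 0 13))))) .n))))))) (.c k80 (.q k1 [(.s k3 k2 0 (.s k169 k253 13 (.s k168
  k171 0 (.d k252 k84 k86 13 14)))), (.s k5 k15 2 (.s k9 k13 1 (.s k11 k8 0 (.s k90 k250 11 (.d k169
  k248 k253 12 13))))), (.s k3 k2 0 (.s k5 k15 2 (.s k9 k13 1 (.s k8 k11 0 (.d k12 k4 k6 1 2)))))]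
  .n) (.c k90 (.q k154 [(.s k16 k223 10 (.s k138 k186 3 (.s k207 k69 10 (.d k48 k32 k101 3 14)))),
  (.s k5 k15 2 (.s k138 k186 3 (.s k165 k245 11 (.s k143 k176 6 (.s k128 k133 2 (.s k175 k160 2 (.d
  k191 k159 k149 3 6))))))), (.s k5 k15 2 (.s k16 k223 10 (.s k48 k32 3 (.s k165 k245 11 (.s k176
  k143 6 (.s k240 k112 7 (.d k160 k175 k80 2 11)))))))] (.c k48 (.f k15 k5 2 (.q k150 [(.s k20 k215
  8 (.s k130 k190 5 (.s k195 k65 8 (.d k60 k40 k105 5 14)))), (.s k16 k223 10 (.s k20 k215 8 (.s k28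
  k24 1 (.s k146 k158 1 (.d k211 k81 k89 8 10))))), (.s k16 k223 10 (.s k130 k190 5 (.s k146 k158 1
  (.s k162 k178 3 (.d k81 k243 k211 12 8)))))] (.c k117 (.l (.s k186 k138 3 (.s k20 k215 8 (.s k60
  k40 5 (.s k130 k190 5 (.d k195 k65 k105 8 14)))))) (.c k186 (.q k117 [(.s k20 k215 8 (.s k130 k190
  5 (.s k195 k65 8 (.d k60 k40 k105 5 14)))), (.s k69 k101 3 (.s k138 k207 10 (.s k74 k202 7 (.s
  k192 k133 10 (.d k64 k79 k128 2 7)))))] .n) .n)))) .n)) (.c k95 (.f k90 k250 11 (.f k15 k5 2 (.q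
  k204 [(.s k68 k136 9 (.s k78 k141 8 (.d k102 k119 k114 4 5))), (.s k78 k141 8 (.s k102 k114 5 (.s
  k34 k238 9 (.d k51 k17 k153 4 14)))), (.s k68 k136 9 (.s k102 k119 4 (.s k34 k238 9 (.d k51 k17
  k153 4 14))))] (.c k102 (.l (.s k136 k68 9 (.s k141 k78 8 (.s k153 k187 4 (.d k165 k177 k240 5
  14))))) (.c k240 (.q k245 [(.s k68 k136 9 (.s k78 k141 8 (.d k102 k119 k114 4 5))), (.s k136 k68 9
  (.s k153 k187 4 (.s k17 k221 9 (.s k27 k216 8 (.d k51 k34 k39 4 5))))), (.s k78 k141 8 (.s k102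
  k114 5 (.s k34 k238 9 (.d k51 k17 k153 4 14))))] .n) (.c k245 (.l (.s k240 k165 14 (.s k68 k136 9
  (.s k78 k141 8 (.d k102 k119 k114 4 5))))) .n)))))) (.c k160 (.q k1 [(.s k169 k253 13 (.s k168
  k171 0 (.s k252 k84 13 (.d k3 k2 k86 0 14)))), (.s k5 k15 2 (.s k9 k13 1 (.s k11 k8 0 (.s k90 k250
  11 (.d k169 k248 k253 12 13))))), (.s k3 k2 0 (.s k5 k15 2 (.s k9 k13 1 (.s k8 k11 0 (.d k12 k4 k6
  1 2)))))] .n) (.c k165 (.q k1 [(.s k169 k253 13 (.s k168 k171 0 (.s k252 k84 13 (.d k3 k2 k86 0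
  14)))), (.s k5 k15 2 (.s k9 k13 1 (.s k11 k8 0 (.s k90 k250 11 (.d k169 k248 k253 12 13))))), (.s
  k3 k2 0 (.s k5 k15 2 (.s k9 k13 1 (.s k8 k11 0 (.d k12 k4 k6 1 2)))))] .n) (.c k240 (.q k2 [(.s k3
  k1 0 (.s k86 k254 13 (.s k84 k87 0 (.d k252 k168 k169 13 14)))), (.s k3 k1 0 (.s k5 k15 2 (.s k6
  k14 1 (.s k4 k7 0 (.d k12 k8 k9 1 2))))), (.s k5 k15 2 (.s k6 k14 1 (.s k7 k4 0 (.s k86 k254 13
  (.d k165 k245 k244 11 12)))))] (.c k245 (.l (.s k250 k90 11 (.s k3 k1 0 (.s k86 k254 13 (.s k84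
  k87 0 (.d k252 k168 k169 13 14)))))) (.c k250 (.q k245 [(.d k5 k15 k165 2 11), (.s k3 k1 0 (.s k86
  k254 13 (.s k84 k87 0 (.d k252 k168 k169 13 14))))] .n) .n))) (.c k245 (.l (.s k15 k5 2 (.s k90
  k250 11 (.s k240 k165 14 (.d k80 k95 k160 2 11))))) (.c k250 (.q k2 [(.s k3 k1 0 (.s k86 k254 13
  (.s k84 k87 0 (.d k252 k168 k169 13 14)))), (.s k3 k1 0 (.s k5 k15 2 (.s k6 k14 1 (.s k4 k7 0 (.d
  k12 k8 k9 1 2))))), (.s k5 k15 2 (.s k6 k14 1 (.s k7 k4 0 (.s k86 k254 13 (.d k165 k245 k244 11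
  12)))))] (.c k240 (.q k245 [(.d k5 k15 k165 2 11), (.s k3 k1 0 (.s k86 k254 13 (.s k84 k87 0 (.d
  k252 k168 k169 13 14))))] .n) (.c k245 (.q k240 [(.s k15 k5 2 (.s k80 k160 11 (.d k90 k95 k165 2
  14))), (.s k3 k1 0 (.s k86 k254 13 (.s k84 k87 0 (.d k252 k168 k169 13 14))))] .n) .n)))
  .n))))))))))))

def t26_43 : T TT 256 :=
  (.f k255 k170 14 (.q k106 [(.s k64 k127 6 (.s k192 k128 7 (.s k213 k234 6 (.d k149 k21 k63 7
  14))))] (.c k21 (.q k16 [(.s k154 k223 10 (.s k48 k32 3 (.s k101 k207 14 (.d k117 k69 k186 3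
  10)))), (.s k64 k127 6 (.s k154 k223 10 (.s k192 k128 7 (.s k149 k63 14 (.s k144 k159 2 (.s k80
  k208 7 (.d k96 k112 k48 3 11))))))), (.s k48 k32 3 (.s k64 k127 6 (.s k192 k128 7 (.s k96 k144 11
  (.s k101 k111 2 (.d k117 k69 k186 3 10))))))] (.c k48 (.l (.s k127 k64 6 (.s k63 k191 7 (.s k223
  k154 10 (.s k207 k239 3 (.s k111 k159 11 (.s k101 k96 2 (.d k69 k138 k117 10 3)))))))) .n)) (.c
  k63 (.q k3 [(.s k1 k2 0 (.s k169 k253 13 (.s k86 k252 14 (.d k87 k84 k171 0 13)))), (.s k2 k1 0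
  (.s k64 k127 6 (.s k192 k128 7 (.s k66 k129 8 (.s k65 k67 0 (.d k130 k194 k195 7 8)))))), (.s k64
  k127 6 (.s k87 k171 13 (.s k86 k84 0 (.s k66 k126 5 (.d k192 k128 k129 7 8)))))] (.c k87 (.l (.s
  k1 k2 0 (.s k64 k127 6 (.s k169 k253 13 (.s k86 k252 14 (.s k192 k128 7 (.d k66 k126 k129 5
  8))))))) .n)) (.c k64 (.q k3 [(.s k1 k2 0 (.s k169 k253 13 (.s k86 k252 14 (.d k87 k84 k171 0
  13)))), (.s k87 k171 13 (.s k86 k84 0 (.s k66 k126 5 (.s k192 k129 8 (.s k213 k234 6 (.d k149 k21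
  k63 7 14)))))), (.s k1 k2 0 (.s k169 k253 13 (.s k86 k252 14 (.s k66 k126 5 (.s k192 k129 8 (.s
  k213 k234 6 (.d k149 k63 k21 14 7)))))))] (.c k86 (.q k83 [(.s k243 k163 11 (.s k81 k162 12 (.s
  k82 k80 0 (.s k161 k240 12 (.d k1 k2 k241 0 11))))), (.s k87 k171 13 (.s k91 k95 1 (.s k243 k163
  11 (.s k167 k15 13 (.d k247 k251 k7 1 11))))), (.s k87 k171 13 (.s k95 k91 1 (.s k80 k90 2 (.s k82
  k81 0 (.d k240 k160 k161 11 12)))))] (.c k2 (.q k254 [(.s k243 k163 11 (.s k81 k162 12 (.s k89 k93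
  1 (.s k166 k12 14 (.d k247 k251 k4 1 12))))), (.s k87 k171 13 (.s k91 k95 1 (.s k243 k163 11 (.s
  k167 k15 13 (.d k247 k251 k7 1 11))))), (.s k87 k171 13 (.s k95 k91 1 (.s k80 k90 2 (.s k82 k81 0
  (.d k240 k160 k161 11 12)))))] (.c k251 (.l (.s k243 k163 11 (.s k81 k162 12 (.s k82 k80 0 (.s
  k161 k240 12 (.s k1 k241 11 (.d k253 k252 k169 0 13))))))) .n)) (.c k254 (.l (.s k2 k1 0 (.s k87
  k171 13 (.s k91 k95 1 (.s k243 k163 11 (.s k167 k15 13 (.d k247 k251 k7 1 11))))))) .n))) (.c k169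
  (.f k171 k87 13 (.q k12 [(.s k4 k8 1 (.s k93 k174 12 (.s k89 k81 1 (.d k166 k247 k243 12 14)))),
  (.s k1 k2 0 (.s k8 k4 1 (.s k9 k6 2 (.s k5 k13 1 (.d k10 k11 k15 0 2))))), (.s k93 k174 12 (.s k89
  k81 1 (.s k72 k123 4 (.s k192 k132 9 (.s k149 k63 14 (.d k213 k234 k21 6 7))))))] .n)) .n))) (.c
  k127 (.q k3 [(.s k1 k2 0 (.s k169 k253 13 (.s k86 k252 14 (.d k87 k84 k171 0 13)))), (.s k87 k171
  13 (.s k86 k84 0 (.s k66 k126 5 (.s k192 k129 8 (.s k213 k234 6 (.d k149 k21 k63 7 14)))))), (.s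
  k1 k2 0 (.s k169 k253 13 (.s k86 k252 14 (.s k66 k126 5 (.s k192 k129 8 (.s k213 k234 6 (.d k149
  k63 k21 14 7)))))))] (.c k86 (.q k71 [(.s k207 k139 9 (.s k69 k138 10 (.s k70 k68 0 (.s k137 k204
  10 (.d k1 k2 k205 0 9))))), (.s k87 k171 13 (.s k103 k119 3 (.s k207 k139 9 (.s k155 k51 13 (.d
  k223 k239 k19 3 9))))), (.s k87 k171 13 (.s k119 k103 3 (.s k68 k102 4 (.s k70 k69 0 (.d k204 k136
  k137 9 10)))))] (.c k2 (.q k254 [(.s k207 k139 9 (.s k69 k138 10 (.s k70 k68 0 (.s k137 k204 10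
  (.s k1 k205 9 (.d k253 k252 k169 0 13)))))), (.s k87 k171 13 (.s k103 k119 3 (.s k207 k139 9 (.s
  k155 k51 13 (.d k223 k239 k19 3 9))))), (.s k87 k171 13 (.s k119 k103 3 (.s k68 k102 4 (.s k70 k69
  0 (.d k204 k136 k137 9 10)))))] (.c k169 (.l (.s k207 k139 9 (.s k69 k138 10 (.s k101 k117 3 (.s
  k154 k48 14 (.d k223 k239 k16 3 10)))))) .n)) (.c k254 (.l (.s k2 k1 0 (.s k87 k171 13 (.s k103
  k119 3 (.s k207 k139 9 (.s k155 k51 13 (.d k223 k239 k19 3 9))))))) .n))) (.c k169 (.f k171 k87 13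
  (.q k195 [(.s k65 k130 8 (.s k215 k235 5 (.s k150 k20 8 (.d k105 k125 k60 5 14)))), (.s k2 k1 0
  (.s k130 k65 8 (.s k66 k194 7 (.s k129 k192 8 (.d k131 k67 k128 7 0))))), (.s k2 k1 0 (.s k215
  k235 5 (.s k150 k20 8 (.s k62 k194 13 (.s k22 k42 5 (.d k60 k41 k105 6 14))))))] (.c k67 (.q k107
  [(.s k105 k104 0 (.d k65 k125 k130 5 8)), (.s k63 k151 13 (.s k21 k42 6 (.d k149 k213 k192 7
  14)))] .n) (.c k107 (.l (.s k67 k131 7 (.s k1 k2 0 (.s k65 k130 8 (.s k66 k64 0 (.d k129 k193 k192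
  7 8)))))) .n)))) .n))) (.c k128 (.l (.s k127 k64 6 (.s k63 k191 7 (.s k149 k192 14 (.d k21 k42
  k213 6 7))))) (.c k149 (.f k127 k64 6 (.q k117 [(.s k101 k69 3 (.s k111 k96 2 (.s k79 k95 3 (.d
  k112 k122 k90 2 6)))), (.s k48 k186 10 (.s k16 k32 3 (.s k154 k223 10 (.s k58 k202 11 (.d k63 k191
  k53 7 2)))))] (.c k101 (.l (.s k122 k112 2 (.s k90 k74 3 (.s k80 k95 2 (.s k240 k160 11 (.d k63
  k191 k181 7 10)))))) (.c k128 (.l (.s k191 k63 7 (.s k48 k186 10 (.s k16 k32 3 (.s k101 k69 3 (.d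
  k154 k223 k207 10 14)))))) (.c k191 (.q k128 [(.s k101 k69 3 (.s k111 k96 2 (.s k79 k95 3 (.d k112
  k122 k90 2 6)))), (.s k48 k186 10 (.s k16 k32 3 (.s k154 k223 10 (.d k101 k69 k207 3 14)))), (.s
  k122 k112 2 (.s k186 k48 10 (.s k250 k58 7 (.s k240 k245 2 (.s k80 k160 11 (.d k90 k95 k74 2
  3))))))] .n) .n))))) (.c k191 (.l (.s k64 k127 6 (.s k192 k128 7 (.s k149 k63 14 (.d k213 k234 k21
  6 7))))) (.c k192 (.q k4 [(.s k12 k8 1 (.s k93 k174 12 (.s k89 k81 1 (.d k166 k247 k243 12 14)))),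
  (.s k127 k64 6 (.s k63 k191 7 (.s k21 k42 6 (.s k55 k38 4 (.s k247 k166 12 (.s k119 k183 7 (.d k51
  k187 k59 9 1))))))), (.s k12 k8 1 (.s k127 k64 6 (.s k63 k191 7 (.s k21 k42 6 (.s k29 k46 4 (.s
  k25 k17 1 (.d k38 k55 k51 4 6)))))))] .n) (.c k213 (.q k3 [(.s k1 k2 0 (.s k169 k253 13 (.s k86
  k252 14 (.d k87 k84 k171 0 13)))), (.s k2 k1 0 (.s k64 k127 6 (.s k192 k128 7 (.s k66 k129 8 (.s
  k65 k67 0 (.d k130 k194 k195 7 8)))))), (.s k64 k127 6 (.s k87 k171 13 (.s k86 k84 0 (.s k66 k126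
  5 (.d k192 k128 k129 7 8)))))] (.c k87 (.l (.s k1 k2 0 (.s k64 k127 6 (.s k169 k253 13 (.s k86
  k252 14 (.s k66 k126 5 (.d k192 k128 k129 7 8))))))) .n)) (.c k234 (.l (.s k127 k64 6 (.s k63 k191
  7 (.s k21 k42 6 (.d k149 k213 k192 7 14))))) .n))))))))))))

def t26_47 : T TT 256 :=
  (.f k255 k170 14 (.q k106 [(.s k64 k127 6 (.s k192 k128 7 (.s k213 k234 6 (.d k149 k21 k63 7
  14))))] (.c k21 (.q k16 [(.s k154 k223 10 (.s k48 k32 3 (.s k101 k207 14 (.d k117 k69 k186 3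
  10)))), (.s k64 k127 6 (.s k154 k223 10 (.s k192 k128 7 (.s k149 k63 14 (.s k144 k159 2 (.s k80
  k208 7 (.d k96 k112 k48 3 11))))))), (.s k48 k32 3 (.s k64 k127 6 (.s k192 k128 7 (.s k96 k144 11
  (.s k101 k111 2 (.d k117 k69 k186 3 10))))))] (.c k48 (.l (.s k127 k64 6 (.s k63 k191 7 (.s k223
  k154 10 (.s k207 k239 3 (.s k111 k159 11 (.s k101 k96 2 (.d k69 k138 k117 10 3)))))))) .n)) (.c
  k63 (.q k15 [(.s k95 k175 11 (.s k90 k80 2 (.s k165 k240 14 (.d k5 k10 k245 2 11)))), (.s k10 k5 2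
  (.s k64 k127 6 (.s k192 k128 7 (.s k74 k133 10 (.s k69 k79 2 (.d k138 k202 k207 7 10)))))), (.s
  k64 k127 6 (.s k192 k128 7 (.s k74 k133 10 (.s k90 k122 3 (.d k95 k80 k175 2 11)))))] (.c k95 (.l
  (.s k5 k10 2 (.s k64 k127 6 (.s k165 k245 11 (.s k90 k240 14 (.s k192 k128 7 (.d k74 k122 k133 3
  10))))))) .n)) (.c k64 (.q k3 [(.s k1 k2 0 (.s k87 k171 13 (.s k169 k253 13 (.d k86 k84 k252 0
  14)))), (.s k1 k2 0 (.s k169 k253 13 (.s k43 k232 8 (.s k63 k23 5 (.s k21 k42 6 (.d k149 k213 k192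
  7 14)))))), (.s k87 k171 13 (.s k86 k84 0 (.s k66 k126 5 (.s k192 k129 8 (.s k149 k63 14 (.d k213
  k234 k21 6 7))))))] (.c k86 (.f k87 k171 13 (.q k169 [(.d k1 k2 k253 0 13), (.s k43 k232 8 (.s k63
  k23 5 (.s k21 k42 6 (.d k149 k213 k192 7 14))))] (.c k2 (.q k254 [(.d k253 k252 k1 0 13), (.s k43
  k232 8 (.s k63 k23 5 (.s k21 k42 6 (.d k149 k213 k192 7 14))))] .n) (.c k254 (.l (.s k2 k1 0 (.s
  k43 k232 8 (.s k63 k23 5 (.s k21 k42 6 (.d k149 k213 k192 7 14)))))) .n)))) (.c k169 (.q k66 [(.s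
  k86 k126 5 (.d k87 k171 k84 13 0)), (.s k192 k129 8 (.s k149 k63 14 (.d k213 k234 k21 6 7)))] (.c
  k168 (.l (.s k171 k87 13 (.s k192 k129 8 (.s k149 k63 14 (.d k213 k234 k21 6 7))))) (.c k171 (.q
  k168 [(.s k84 k252 13 (.d k86 k87 k126 0 5)), (.s k192 k129 8 (.s k149 k63 14 (.d k213 k234 k21 6
  7)))] .n) .n))) .n))) (.c k127 (.q k204 [(.s k68 k136 9 (.s k221 k238 4 (.s k153 k17 9 (.d k102
  k119 k51 4 14)))), (.s k68 k136 9 (.s k102 k119 4 (.s k110 k98 1 (.s k63 k157 12 (.s k21 k42 6 (.d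
  k149 k213 k192 7 14)))))), (.s k221 k238 4 (.s k153 k17 9 (.s k200 k59 12 (.s k192 k196 1 (.s k149
  k63 14 (.d k213 k234 k21 6 7))))))] (.c k102 (.q k200 [(.s k153 k59 12 (.d k221 k238 k17 4 9)),
  (.s k192 k196 1 (.s k149 k63 14 (.d k213 k234 k21 6 7)))] (.c k34 (.l (.s k238 k221 4 (.s k192
  k196 1 (.s k149 k63 14 (.d k213 k234 k21 6 7))))) (.c k238 (.q k34 [(.s k17 k51 4 (.d k153 k221
  k59 9 12)), (.s k192 k196 1 (.s k149 k63 14 (.d k213 k234 k21 6 7)))] .n) .n))) (.c k153 (.q k213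
  [(.s k192 k234 6 (.d k149 k21 k63 7 14)), (.s k221 k238 4 (.s k217 k209 1 (.s k243 k230 6 (.s k81
  k162 12 (.s k89 k93 1 (.s k166 k12 14 (.d k247 k251 k4 1 12)))))))] (.c k136 (.q k187 [(.s k192
  k234 6 (.d k149 k21 k63 7 14)), (.s k192 k234 6 (.s k196 k200 1 (.s k221 k238 4 (.s k217 k209 1
  (.d k230 k247 k243 4 6))))), (.s k21 k149 7 (.s k63 k42 6 (.s k119 k51 9 (.s k102 k68 4 (.d k110
  k157 k98 12 1)))))] .n) (.c k187 (.l (.s k136 k68 9 (.s k149 k21 7 (.d k192 k234 k63 6 14)))) (.c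
  k234 (.l (.s k149 k21 7 (.s k63 k192 14 (.s k110 k157 12 (.s k102 k98 1 (.d k68 k119 k136 4
  9)))))) .n)))) .n))) (.c k128 (.l (.s k127 k64 6 (.s k63 k191 7 (.s k149 k192 14 (.d k21 k42 k213
  6 7))))) (.c k149 (.f k64 k127 6 (.q k68 [(.s k204 k136 9 (.s k221 k238 4 (.s k153 k17 9 (.d k102
  k119 k51 4 14)))), (.s k72 k76 1 (.s k89 k123 4 (.s k93 k81 1 (.s k12 k174 12 (.d k192 k128 k132 7
  9)))))] (.c k119 (.l (.s k72 k76 1 (.s k136 k204 9 (.s k8 k200 7 (.s k12 k4 1 (.d k192 k128 k132 7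
  9)))))) (.c k128 (.q k191 [(.s k76 k72 1 (.s k102 k119 4 (.s k98 k110 1 (.d k115 k81 k89 4 6)))),
  (.s k204 k136 9 (.s k221 k238 4 (.s k153 k17 9 (.d k102 k119 k51 4 14)))), (.s k72 k76 1 (.s k136
  k204 9 (.s k8 k200 7 (.s k12 k4 1 (.s k93 k174 12 (.d k89 k81 k123 1 4))))))] .n) (.c k191 (.l (.s
  k128 k192 7 (.s k76 k72 1 (.s k102 k119 4 (.s k98 k110 1 (.d k115 k81 k89 4 6)))))) .n))))) (.c
  k191 (.l (.s k64 k127 6 (.s k192 k128 7 (.s k149 k63 14 (.d k213 k234 k21 6 7))))) (.c k192 (.q k1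
  [(.s k3 k2 0 (.s k87 k171 13 (.s k86 k84 0 (.d k169 k253 k252 13 14)))), (.s k127 k64 6 (.s k63
  k191 7 (.s k21 k42 6 (.s k61 k41 5 (.s k253 k169 13 (.s k125 k189 7 (.d k60 k190 k62 8 0))))))),
  (.s k3 k2 0 (.s k127 k64 6 (.s k63 k191 7 (.s k21 k42 6 (.s k23 k43 5 (.s k22 k20 0 (.d k41 k61
  k60 5 6)))))))] .n) (.c k213 (.q k1 [(.s k3 k2 0 (.s k87 k171 13 (.s k86 k84 0 (.d k169 k253 k252
  13 14)))), (.s k64 k127 6 (.s k169 k253 13 (.s k192 k128 7 (.s k149 k63 14 (.s k129 k189 5 (.s k66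
  k3 8 (.d k65 k193 k67 7 0))))))), (.s k3 k2 0 (.s k64 k127 6 (.s k192 k128 7 (.s k66 k129 8 (.s
  k86 k126 5 (.d k87 k84 k171 0 13))))))] (.c k3 (.l (.s k127 k64 6 (.s k63 k191 7 (.s k21 k42 6 (.s
  k61 k41 5 (.s k60 k62 0 (.s k125 k190 8 (.d k253 k189 k169 7 13)))))))) .n)) (.c k234 (.l (.s k127
  k64 6 (.s k63 k191 7 (.s k21 k42 6 (.d k149 k213 k192 7 14))))) .n))))))))))))

def t26_54 : T TT 256 :=
  (.f k255 k170 14 (.q k89 [(.s k81 k93 1 (.s k243 k162 12 (.s k166 k12 14 (.d k247 k251 k4 1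
  12))))] (.c k4 (.q k1 [(.s k169 k253 13 (.s k3 k2 0 (.s k86 k252 14 (.d k87 k84 k171 0 13)))), (.s
  k81 k93 1 (.s k169 k253 13 (.s k9 k249 11 (.s k13 k5 1 (.d k241 k161 k165 11 13))))), (.s k3 k2 0
  (.s k81 k93 1 (.s k161 k241 11 (.s k82 k240 12 (.s k83 k80 0 (.d k243 k163 k162 11 12))))))] .n)
  (.c k12 (.q k1 [(.s k3 k2 0 (.s k87 k171 13 (.s k86 k84 0 (.d k169 k253 k252 13 14)))), (.s k81
  k93 1 (.s k169 k253 13 (.s k9 k249 11 (.s k13 k5 1 (.d k241 k161 k165 11 13))))), (.s k3 k2 0 (.s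
  k81 k93 1 (.s k161 k241 11 (.s k82 k240 12 (.s k83 k80 0 (.d k243 k163 k162 11 12))))))] .n) (.c
  k81 (.q k87 [(.s k86 k84 0 (.s k3 k171 13 (.s k169 k252 14 (.d k1 k2 k253 0 13)))), (.s k86 k84 0
  (.s k83 k92 2 (.s k95 k91 1 (.s k15 k175 11 (.s k5 k10 2 (.s k165 k245 11 (.d k90 k80 k240 2
  14)))))))] (.c k84 (.l (.s k3 k171 13 (.s k1 k2 0 (.s k169 k253 13 (.s k9 k249 11 (.s k12 k6 2 (.s
  k4 k8 1 (.d k166 k247 k243 12 14)))))))) (.c k86 (.f k3 k171 13 (.q k169 [(.d k1 k2 k253 0 13),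
  (.s k9 k249 11 (.s k12 k6 2 (.s k4 k8 1 (.d k166 k247 k243 12 14))))] (.c k2 (.q k254 [(.d k253
  k252 k1 0 13), (.s k9 k249 11 (.s k12 k6 2 (.s k4 k8 1 (.d k166 k247 k243 12 14))))] .n) (.c k254
  (.l (.s k2 k1 0 (.s k9 k249 11 (.s k12 k6 2 (.s k4 k8 1 (.d k166 k247 k243 12 14)))))) .n))))
  .n))) (.c k93 (.q k69 [(.s k101 k117 3 (.s k207 k138 10 (.s k223 k239 3 (.d k154 k16 k48 10
  14)))), (.s k101 k117 3 (.s k77 k113 5 (.s k65 k73 1 (.s k195 k130 8 (.s k215 k235 5 (.s k150 k20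
  8 (.d k105 k125 k60 5 14)))))))] (.c k101 (.f k207 k138 10 (.q k154 [(.d k223 k239 k16 3 10), (.s
  k219 k24 8 (.s k243 k231 5 (.s k166 k12 14 (.d k247 k251 k4 1 12))))] (.c k32 (.l (.s k239 k223 3
  (.s k219 k24 8 (.s k243 k231 5 (.s k166 k12 14 (.d k247 k251 k4 1 12)))))) (.c k239 (.q k32 [(.d
  k16 k48 k223 3 10), (.s k219 k24 8 (.s k243 k231 5 (.s k247 k251 1 (.d k166 k4 k12 12 14))))] .n)
  .n)))) (.c k117 (.l (.s k207 k138 10 (.s k223 k239 3 (.s k154 k16 10 (.s k219 k24 8 (.s k243 k231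
  5 (.s k166 k12 14 (.d k247 k251 k4 1 12)))))))) .n))) (.c k162 (.l (.s k93 k81 1 (.s k12 k174 12
  (.s k166 k243 14 (.d k4 k8 k247 1 12))))) (.c k166 (.f k81 k93 1 (.q k83 [(.s k80 k82 0 (.s k86
  k92 2 (.s k87 k84 0 (.d k95 k91 k90 1 2)))), (.s k80 k82 0 (.s k240 k160 11 (.s k245 k250 2 (.s
  k165 k5 11 (.s k241 k13 13 (.d k243 k162 k242 12 0)))))), (.s k86 k92 2 (.s k84 k87 0 (.s k252
  k168 13 (.s k169 k3 14 (.d k253 k254 k1 0 13)))))] (.c k162 (.q k174 [(.s k86 k92 2 (.s k87 k84 0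
  (.s k95 k91 1 (.d k80 k82 k90 0 2)))), (.s k80 k82 0 (.s k240 k160 11 (.s k245 k250 2 (.s k165 k5
  11 (.d k90 k95 k15 2 14))))), (.s k86 k92 2 (.s k84 k87 0 (.s k252 k168 13 (.s k169 k3 14 (.d k253
  k254 k1 0 13)))))] (.c k95 (.l (.s k82 k80 0 (.s k86 k92 2 (.s k94 k90 1 (.s k84 k87 0 (.s k252
  k168 13 (.d k254 k14 k253 11 0))))))) .n)) (.c k174 (.l (.s k162 k243 12 (.s k80 k82 0 (.s k86 k92
  2 (.s k87 k84 0 (.d k95 k91 k90 1 2)))))) .n)))) (.c k174 (.l (.s k81 k93 1 (.s k243 k162 12 (.s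
  k166 k12 14 (.d k247 k251 k4 1 12))))) (.c k243 (.q k1 [(.s k3 k2 0 (.s k87 k171 13 (.s k86 k84 0
  (.d k169 k253 k252 13 14)))), (.s k81 k93 1 (.s k169 k253 13 (.s k9 k249 11 (.s k13 k5 1 (.d k241
  k161 k165 11 13))))), (.s k3 k2 0 (.s k93 k81 1 (.s k12 k174 12 (.s k8 k4 1 (.s k9 k6 2 (.s k5 k13
  1 (.d k10 k11 k15 0 2)))))))] .n) (.c k247 (.q k1 [(.s k169 k253 13 (.s k3 k2 0 (.s k86 k252 14
  (.d k87 k84 k171 0 13)))), (.s k81 k93 1 (.s k169 k253 13 (.s k9 k249 11 (.s k13 k5 1 (.d k241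
  k161 k165 11 13))))), (.s k3 k2 0 (.s k81 k93 1 (.s k161 k241 11 (.s k82 k240 12 (.s k83 k80 0 (.d
  k243 k163 k162 11 12))))))] .n) (.c k251 (.l (.s k93 k81 1 (.s k12 k174 12 (.s k4 k8 1 (.d k166
  k247 k243 12 14))))) .n))))))))))))

def t26_55 : T TT 256 :=
  (.f k255 k170 14 (.q k89 [(.s k81 k93 1 (.s k243 k162 12 (.s k166 k12 14 (.d k247 k251 k4 1
  12))))] (.c k4 (.q k21 [(.s k149 k213 7 (.s k63 k42 6 (.s k106 k192 14 (.d k127 k64 k191 6 7)))),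
  (.s k93 k81 1 (.s k149 k213 7 (.s k29 k209 9 (.s k17 k25 1 (.d k221 k157 k153 7 9))))), (.s k63
  k42 6 (.s k81 k93 1 (.s k243 k162 12 (.s k123 k183 9 (.s k106 k72 4 (.d k127 k64 k191 6 7))))))]
  .n) (.c k12 (.q k1 [(.s k3 k2 0 (.s k87 k171 13 (.s k86 k84 0 (.d k169 k253 k252 13 14)))), (.s
  k81 k93 1 (.s k169 k253 13 (.s k9 k249 11 (.s k13 k5 1 (.d k241 k161 k165 11 13))))), (.s k3 k2 0
  (.s k81 k93 1 (.s k161 k241 11 (.s k82 k240 12 (.s k83 k80 0 (.d k243 k163 k162 11 12))))))] .n)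
  (.c k81 (.q k87 [(.s k86 k84 0 (.s k3 k171 13 (.s k169 k252 14 (.d k1 k2 k253 0 13)))), (.s k86
  k84 0 (.s k83 k92 2 (.s k95 k91 1 (.s k15 k175 11 (.s k5 k10 2 (.s k165 k245 11 (.d k90 k80 k240 2
  14)))))))] (.c k84 (.l (.s k3 k171 13 (.s k1 k2 0 (.s k169 k253 13 (.s k9 k249 11 (.s k12 k6 2 (.s
  k4 k8 1 (.d k166 k247 k243 12 14)))))))) (.c k86 (.f k3 k171 13 (.q k169 [(.d k1 k2 k253 0 13),
  (.s k9 k249 11 (.s k12 k6 2 (.s k4 k8 1 (.d k166 k247 k243 12 14))))] (.c k2 (.q k254 [(.d k253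
  k252 k1 0 13), (.s k9 k249 11 (.s k12 k6 2 (.s k4 k8 1 (.d k166 k247 k243 12 14))))] .n) (.c k254
  (.l (.s k2 k1 0 (.s k9 k249 11 (.s k12 k6 2 (.s k4 k8 1 (.d k166 k247 k243 12 14)))))) .n))))
  .n))) (.c k93 (.q k69 [(.s k101 k117 3 (.s k207 k138 10 (.s k223 k239 3 (.d k154 k16 k48 10
  14)))), (.s k101 k117 3 (.s k77 k113 5 (.s k65 k73 1 (.s k195 k130 8 (.s k215 k235 5 (.s k150 k20
  8 (.d k105 k125 k60 5 14)))))))] (.c k101 (.f k207 k138 10 (.q k154 [(.d k223 k239 k16 3 10), (.s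
  k219 k24 8 (.s k243 k231 5 (.s k166 k12 14 (.d k247 k251 k4 1 12))))] (.c k32 (.l (.s k239 k223 3
  (.s k219 k24 8 (.s k243 k231 5 (.s k166 k12 14 (.d k247 k251 k4 1 12)))))) (.c k239 (.q k32 [(.d
  k16 k48 k223 3 10), (.s k219 k24 8 (.s k243 k231 5 (.s k247 k251 1 (.d k166 k4 k12 12 14))))] .n)
  .n)))) (.c k117 (.l (.s k207 k138 10 (.s k223 k239 3 (.s k154 k16 10 (.s k219 k24 8 (.s k243 k231
  5 (.s k166 k12 14 (.d k247 k251 k4 1 12)))))))) .n))) (.c k162 (.l (.s k93 k81 1 (.s k12 k174 12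
  (.s k166 k243 14 (.d k4 k8 k247 1 12))))) (.c k166 (.f k81 k93 1 (.q k83 [(.s k80 k82 0 (.s k86
  k92 2 (.s k87 k84 0 (.d k95 k91 k90 1 2)))), (.s k80 k82 0 (.s k240 k160 11 (.s k245 k250 2 (.s
  k165 k5 11 (.s k241 k13 13 (.d k243 k162 k242 12 0)))))), (.s k86 k92 2 (.s k84 k87 0 (.s k252
  k168 13 (.s k169 k3 14 (.d k253 k254 k1 0 13)))))] (.c k162 (.q k174 [(.s k86 k92 2 (.s k87 k84 0
  (.s k95 k91 1 (.d k80 k82 k90 0 2)))), (.s k80 k82 0 (.s k240 k160 11 (.s k245 k250 2 (.s k165 k5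
  11 (.d k90 k95 k15 2 14))))), (.s k86 k92 2 (.s k84 k87 0 (.s k252 k168 13 (.s k169 k3 14 (.d k253
  k254 k1 0 13)))))] (.c k95 (.l (.s k82 k80 0 (.s k86 k92 2 (.s k94 k90 1 (.s k84 k87 0 (.s k252
  k168 13 (.d k254 k14 k253 11 0))))))) .n)) (.c k174 (.l (.s k162 k243 12 (.s k80 k82 0 (.s k86 k92
  2 (.s k87 k84 0 (.d k95 k91 k90 1 2)))))) .n)))) (.c k174 (.l (.s k81 k93 1 (.s k243 k162 12 (.s
  k166 k12 14 (.d k247 k251 k4 1 12))))) (.c k243 (.q k1 [(.s k3 k2 0 (.s k87 k171 13 (.s k86 k84 0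
  (.d k169 k253 k252 13 14)))), (.s k81 k93 1 (.s k169 k253 13 (.s k9 k249 11 (.s k13 k5 1 (.d k241
  k161 k165 11 13))))), (.s k3 k2 0 (.s k93 k81 1 (.s k12 k174 12 (.s k8 k4 1 (.s k9 k6 2 (.s k5 k13
  1 (.d k10 k11 k15 0 2)))))))] .n) (.c k247 (.q k119 [(.s k102 k68 4 (.s k51 k187 9 (.s k153 k204
  14 (.d k17 k34 k221 4 9)))), (.s k81 k93 1 (.s k102 k68 4 (.s k115 k76 6 (.s k64 k98 4 (.d k127
  k123 k106 1 6))))), (.s k51 k187 9 (.s k81 k93 1 (.s k243 k162 12 (.s k115 k179 7 (.s k64 k98 4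
  (.d k127 k123 k106 1 6))))))] .n) (.c k251 (.l (.s k93 k81 1 (.s k12 k174 12 (.s k4 k8 1 (.d k166
  k247 k243 12 14))))) .n))))))))))))

def t26_58 : T TT 256 :=
  (.f k170 k255 14 (.q k240 [(.s k80 k160 11 (.s k90 k95 2 (.s k15 k165 14 (.d k10 k5 k250 2 11))))]
  (.c k5 (.q k42 [(.s k106 k234 7 (.s k64 k127 6 (.s k192 k128 7 (.d k63 k21 k149 6 14)))), (.s k63
  k21 6 (.s k80 k160 11 (.s k90 k95 2 (.s k122 k181 10 (.d k106 k74 k234 3 7))))), (.s k106 k234 7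
  (.s k160 k80 11 (.s k165 k175 2 (.s k224 k47 10 (.s k192 k208 3 (.d k64 k127 k128 6 7))))))] (.c
  k106 (.l (.s k21 k63 6 (.s k80 k160 11 (.s k90 k95 2 (.s k149 k213 7 (.s k208 k31 10 (.s k192 k224
  3 (.d k128 k191 k64 6 7)))))))) (.c k234 (.l (.s k63 k21 6 (.s k80 k160 11 (.s k90 k95 2 (.s k122
  k181 10 (.s k106 k74 3 (.s k64 k127 6 (.d k192 k128 k149 7 14)))))))) .n))) (.c k10 (.q k42 [(.s
  k106 k234 7 (.s k64 k127 6 (.s k192 k128 7 (.d k63 k21 k149 6 14)))), (.s k63 k21 6 (.s k80 k160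
  11 (.s k90 k95 2 (.s k122 k181 10 (.d k106 k74 k234 3 7))))), (.s k106 k234 7 (.s k160 k80 11 (.s
  k165 k175 2 (.s k224 k47 10 (.s k192 k208 3 (.d k64 k127 k128 6 7))))))] (.c k106 (.l (.s k21 k63
  6 (.s k80 k160 11 (.s k90 k95 2 (.s k149 k213 7 (.s k208 k31 10 (.s k192 k224 3 (.d k128 k191 k64
  6 7)))))))) (.c k234 (.l (.s k63 k21 6 (.s k80 k160 11 (.s k90 k95 2 (.s k122 k181 10 (.s k106 k74
  3 (.s k64 k127 6 (.d k192 k128 k149 7 14)))))))) .n))) (.c k15 (.f k160 k80 11 (.f k175 k165 2 (.q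
  k48 [(.s k16 k32 3 (.s k154 k223 10 (.s k138 k186 3 (.d k207 k69 k101 10 14)))), (.s k32 k16 3 (.s
  k96 k224 7 (.s k144 k192 11 (.d k176 k128 k112 3 7))))] (.c k10 (.q k42 [(.s k32 k16 3 (.s k47 k37
  2 (.d k239 k101 k111 10 7))), (.s k21 k63 6 (.s k149 k213 7 (.s k176 k112 7 (.d k128 k191 k144 6
  3)))), (.s k16 k32 3 (.s k154 k223 10 (.s k138 k186 3 (.d k207 k69 k101 10 14))))] .n) (.c k16 (.l
  (.s k176 k112 7 (.s k144 k128 3 (.s k96 k192 11 (.s k32 k224 7 (.s k101 k239 10 (.s k69 k117 3 (.d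
  k207 k138 k154 10 14)))))))) (.c k32 (.q k42 [(.s k63 k21 6 (.s k106 k234 7 (.s k64 k127 6 (.d
  k192 k128 k149 7 14)))), (.s k106 k234 7 (.s k64 k127 6 (.s k176 k112 7 (.d k128 k192 k144 7
  3)))), (.s k21 k63 6 (.s k176 k112 7 (.s k128 k144 3 (.d k149 k191 k213 6 7))))] (.c k63 (.l (.s
  k106 k234 7 (.s k176 k112 7 (.s k128 k144 3 (.d k64 k192 k127 7 6))))) (.c k64 (.l (.s k21 k63 6
  (.s k149 k213 7 (.s k191 k128 6 (.s k159 k143 3 (.s k154 k144 2 (.s k138 k186 3 (.d k207 k69 k101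
  10 14)))))))) (.c k127 (.l (.s k63 k21 6 (.s k106 k234 7 (.s k176 k112 7 (.s k128 k144 3 (.d k149
  k192 k191 14 6)))))) (.c k128 (.l (.s k63 k21 6 (.s k106 k234 7 (.s k112 k176 7 (.s k122 k181 10
  (.d k127 k117 k64 2 6)))))) (.c k213 (.l (.s k63 k21 6 (.s k106 k234 7 (.s k192 k149 14 (.d k64
  k127 k128 6 7))))) .n)))))) (.c k42 (.q k10 [(.s k16 k32 3 (.s k154 k223 10 (.s k207 k101 14 (.d
  k138 k186 k69 3 10)))), (.s k32 k16 3 (.s k96 k224 7 (.s k144 k192 11 (.d k176 k128 k112 3 7)))),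
  (.s k90 k250 11 (.s k112 k176 7 (.s k101 k79 6 (.s k69 k117 3 (.d k207 k154 k138 14 10)))))] .n)
  .n))))))) (.c k42 (.q k10 [(.s k15 k5 2 (.d k90 k250 k165 11 14)), (.s k80 k160 11 (.d k90 k95
  k250 2 11)), (.s k5 k15 2 (.s k160 k80 11 (.d k165 k175 k245 2 11)))] .n) (.c k80 (.q k2 [(.s k3
  k1 0 (.s k86 k254 13 (.s k84 k87 0 (.d k252 k168 k169 13 14)))), (.s k3 k1 0 (.s k82 k161 12 (.s
  k162 k242 11 (.s k166 k174 1 (.s k4 k247 12 (.s k12 k8 1 (.d k243 k81 k89 12 14)))))))] (.c k1 (.l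
  (.s k86 k254 13 (.s k84 k87 0 (.s k252 k168 13 (.s k244 k248 1 (.s k165 k7 12 (.s k5 k245 11 (.d
  k15 k10 k90 2 14)))))))) (.c k3 (.q k10 [(.s k15 k5 2 (.d k90 k250 k165 11 14)), (.s k14 k6 1 (.s
  k86 k254 13 (.s k90 k250 11 (.s k82 k94 1 (.d k242 k162 k166 11 13))))), (.s k5 k15 2 (.s k6 k14 1
  (.s k7 k4 0 (.s k86 k254 13 (.d k165 k245 k244 11 12)))))] (.c k87 (.q k171 [(.s k15 k5 2 (.d k90
  k250 k165 11 14)), (.s k14 k6 1 (.s k86 k254 13 (.s k90 k250 11 (.s k82 k94 1 (.d k242 k162 k166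
  11 13))))), (.s k5 k15 2 (.s k6 k14 1 (.s k7 k4 0 (.s k86 k254 13 (.d k165 k245 k244 11 12)))))]
  .n) (.c k171 (.q k87 [(.d k86 k84 k254 0 13), (.s k15 k5 2 (.d k90 k250 k165 11 14))] .n) .n)))
  (.c k10 (.q k42 [(.s k3 k1 0 (.s k86 k254 13 (.s k84 k87 0 (.d k252 k168 k169 13 14)))), (.s k63
  k21 6 (.s k106 k234 7 (.s k64 k127 6 (.d k192 k128 k149 7 14))))] .n) (.c k42 (.q k10 [(.s k15 k5
  2 (.d k90 k250 k165 11 14)), (.s k3 k1 0 (.s k86 k254 13 (.s k84 k87 0 (.d k252 k168 k169 13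
  14))))] .n) .n))))) (.c k90 (.f k160 k80 11 (.q k154 [(.s k16 k223 10 (.s k48 k32 3 (.s k138 k186
  3 (.d k207 k69 k101 10 14)))), (.s k165 k175 2 (.s k176 k143 6 (.s k128 k144 3 (.s k186 k138 3 (.d
  k191 k181 k149 2 6))))), (.s k16 k223 10 (.s k48 k32 3 (.s k165 k175 2 (.d k176 k143 k112 6 7))))]
  (.c k10 (.q k42 [(.s k16 k223 10 (.s k48 k32 3 (.s k138 k186 3 (.d k207 k69 k101 10 14)))), (.s
  k63 k21 6 (.s k106 k234 7 (.s k64 k127 6 (.d k192 k128 k149 7 14))))] (.c k16 (.l (.s k21 k63 6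
  (.s k149 k213 7 (.s k144 k159 2 (.d k128 k191 k176 6 3))))) .n)) (.c k16 (.l (.s k138 k186 3 (.s
  k165 k175 2 (.s k176 k143 6 (.s k48 k112 7 (.d k207 k101 k69 14 10)))))) (.c k42 (.q k10 [(.s k165
  k175 2 (.d k5 k15 k245 2 11)), (.s k16 k223 10 (.s k48 k32 3 (.s k138 k186 3 (.d k207 k69 k101 10
  14))))] .n) .n))))) (.c k95 (.l (.s k160 k80 11 (.s k165 k175 2 (.s k15 k90 14 (.d k5 k10 k245 2
  11))))) (.c k160 (.q k2 [(.s k3 k1 0 (.s k86 k254 13 (.s k84 k87 0 (.d k252 k168 k169 13 14)))),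
  (.s k3 k1 0 (.s k82 k161 12 (.s k162 k242 11 (.s k166 k174 1 (.s k4 k247 12 (.s k12 k8 1 (.d k243
  k81 k89 12 14)))))))] (.c k1 (.l (.s k86 k254 13 (.s k84 k87 0 (.s k252 k168 13 (.s k244 k248 1
  (.s k165 k7 12 (.s k5 k245 11 (.d k15 k10 k90 2 14)))))))) (.c k3 (.q k10 [(.s k15 k5 2 (.d k90
  k250 k165 11 14)), (.s k14 k6 1 (.s k86 k254 13 (.s k90 k250 11 (.s k82 k94 1 (.d k242 k162 k166
  11 13))))), (.s k5 k15 2 (.s k6 k14 1 (.s k7 k4 0 (.s k86 k254 13 (.d k165 k245 k244 11 12)))))]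
  (.c k87 (.q k171 [(.s k15 k5 2 (.d k90 k250 k165 11 14)), (.s k14 k6 1 (.s k86 k254 13 (.s k90
  k250 11 (.s k82 k94 1 (.d k242 k162 k166 11 13))))), (.s k5 k15 2 (.s k6 k14 1 (.s k7 k4 0 (.s k86
  k254 13 (.d k165 k245 k244 11 12)))))] .n) (.c k171 (.q k87 [(.d k86 k84 k254 0 13), (.s k15 k5 2
  (.d k90 k250 k165 11 14))] .n) .n))) (.c k10 (.q k42 [(.s k3 k1 0 (.s k86 k254 13 (.s k84 k87 0
  (.d k252 k168 k169 13 14)))), (.s k63 k21 6 (.s k106 k234 7 (.s k64 k127 6 (.d k192 k128 k149 7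
  14))))] .n) (.c k42 (.q k10 [(.s k15 k5 2 (.d k90 k250 k165 11 14)), (.s k3 k1 0 (.s k86 k254 13
  (.s k84 k87 0 (.d k252 k168 k169 13 14))))] .n) .n))))) (.c k165 (.f k80 k160 11 (.q k106 [(.s k42
  k234 7 (.s k63 k21 6 (.s k64 k127 6 (.d k192 k128 k149 7 14)))), (.s k64 k127 6 (.s k90 k95 2 (.s
  k74 k122 3 (.s k79 k69 2 (.d k112 k96 k101 3 6))))), (.s k42 k234 7 (.s k63 k21 6 (.s k90 k95 2
  (.d k122 k74 k181 3 10))))] (.c k10 (.l (.s k42 k234 7 (.s k63 k21 6 (.s k64 k127 6 (.d k192 k128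
  k149 7 14))))) (.c k42 (.q k10 [(.d k90 k95 k250 2 11), (.s k64 k127 6 (.s k96 k112 3 (.s k192
  k128 7 (.s k144 k48 11 (.d k208 k224 k16 3 7)))))] .n) (.c k63 (.l (.s k90 k95 2 (.s k122 k74 3
  (.s k127 k64 6 (.s k112 k117 2 (.s k48 k176 7 (.s k32 k16 3 (.d k101 k79 k239 6 10)))))))) .n)))))
  (.c k175 (.l (.s k80 k160 11 (.s k90 k95 2 (.s k15 k165 14 (.d k10 k5 k250 2 11))))) (.c k250 (.l
  (.s k160 k80 11 (.s k165 k175 2 (.s k5 k245 11 (.d k15 k10 k90 2 14))))) .n)))))))))))))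

def t26_59 : T TT 256 :=
  (.f k255 k170 14 (.q k106 [(.s k64 k127 6 (.s k192 k128 7 (.s k213 k234 6 (.d k149 k21 k63 7
  14))))] (.c k21 (.q k16 [(.s k154 k223 10 (.s k48 k32 3 (.s k101 k207 14 (.d k117 k69 k186 3
  10)))), (.s k64 k127 6 (.s k154 k223 10 (.s k192 k128 7 (.s k149 k63 14 (.s k144 k159 2 (.s k80
  k208 7 (.d k96 k112 k48 3 11))))))), (.s k48 k32 3 (.s k64 k127 6 (.s k192 k128 7 (.s k96 k144 11
  (.s k101 k111 2 (.d k117 k69 k186 3 10))))))] (.c k48 (.l (.s k127 k64 6 (.s k63 k191 7 (.s k223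
  k154 10 (.s k207 k239 3 (.s k111 k159 11 (.s k101 k96 2 (.d k69 k138 k117 10 3)))))))) .n)) (.c
  k63 (.q k51 [(.s k17 k34 4 (.s k153 k221 9 (.s k102 k204 14 (.d k119 k68 k187 4 9)))), (.s k34 k17
  4 (.s k64 k127 6 (.s k192 k128 7 (.s k98 k145 12 (.s k81 k115 4 (.d k162 k226 k243 7 12)))))), (.s
  k64 k127 6 (.s k119 k187 9 (.s k102 k68 4 (.s k98 k110 1 (.d k192 k128 k145 7 12)))))] (.c k119
  (.l (.s k17 k34 4 (.s k64 k127 6 (.s k153 k221 9 (.s k102 k204 14 (.s k192 k128 7 (.d k98 k110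
  k145 1 12))))))) .n)) (.c k64 (.q k3 [(.s k1 k2 0 (.s k87 k171 13 (.s k169 k253 13 (.d k86 k84
  k252 0 14)))), (.s k1 k2 0 (.s k169 k253 13 (.s k43 k232 8 (.s k63 k23 5 (.s k21 k42 6 (.d k149
  k213 k192 7 14)))))), (.s k87 k171 13 (.s k86 k84 0 (.s k66 k126 5 (.s k192 k129 8 (.s k149 k63 14
  (.d k213 k234 k21 6 7))))))] (.c k86 (.f k87 k171 13 (.q k169 [(.d k1 k2 k253 0 13), (.s k43 k232
  8 (.s k63 k23 5 (.s k21 k42 6 (.d k149 k213 k192 7 14))))] (.c k2 (.q k254 [(.d k253 k252 k1 0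
  13), (.s k43 k232 8 (.s k63 k23 5 (.s k21 k42 6 (.d k149 k213 k192 7 14))))] .n) (.c k254 (.l (.s
  k2 k1 0 (.s k43 k232 8 (.s k63 k23 5 (.s k21 k42 6 (.d k149 k213 k192 7 14)))))) .n)))) (.c k169
  (.q k66 [(.s k86 k126 5 (.d k87 k171 k84 13 0)), (.s k192 k129 8 (.s k149 k63 14 (.d k213 k234 k21
  6 7)))] (.c k168 (.l (.s k171 k87 13 (.s k192 k129 8 (.s k149 k63 14 (.d k213 k234 k21 6 7)))))
  (.c k171 (.q k168 [(.s k84 k252 13 (.d k86 k87 k126 0 5)), (.s k192 k129 8 (.s k149 k63 14 (.d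
  k213 k234 k21 6 7)))] .n) .n))) .n))) (.c k127 (.q k3 [(.s k1 k2 0 (.s k87 k171 13 (.s k86 k84 0
  (.d k169 k253 k252 13 14)))), (.s k1 k2 0 (.s k169 k253 13 (.s k43 k232 8 (.s k63 k23 5 (.s k21
  k42 6 (.d k149 k213 k192 7 14)))))), (.s k87 k171 13 (.s k86 k84 0 (.s k66 k126 5 (.s k192 k129 8
  (.s k149 k63 14 (.d k213 k234 k21 6 7))))))] (.c k86 (.q k83 [(.s k243 k163 11 (.s k81 k162 12 (.s
  k82 k80 0 (.s k161 k240 12 (.d k1 k2 k241 0 11))))), (.s k87 k171 13 (.s k91 k95 1 (.s k243 k163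
  11 (.s k167 k15 13 (.d k247 k251 k7 1 11))))), (.s k87 k171 13 (.s k95 k91 1 (.s k80 k90 2 (.s k82
  k81 0 (.d k240 k160 k161 11 12)))))] (.c k2 (.q k254 [(.s k243 k163 11 (.s k81 k162 12 (.s k82 k80
  0 (.s k161 k240 12 (.s k1 k241 11 (.d k253 k252 k169 0 13)))))), (.s k87 k171 13 (.s k91 k95 1 (.s
  k243 k163 11 (.s k167 k15 13 (.d k247 k251 k7 1 11))))), (.s k87 k171 13 (.s k95 k91 1 (.s k80 k90
  2 (.s k82 k81 0 (.d k240 k160 k161 11 12)))))] (.c k169 (.l (.s k243 k163 11 (.s k81 k162 12 (.s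
  k89 k93 1 (.s k166 k12 14 (.d k247 k251 k4 1 12)))))) .n)) (.c k254 (.l (.s k2 k1 0 (.s k87 k171
  13 (.s k91 k95 1 (.s k243 k163 11 (.s k167 k15 13 (.d k247 k251 k7 1 11))))))) .n))) (.c k169 (.q
  k66 [(.s k86 k126 5 (.d k87 k171 k84 13 0)), (.s k192 k129 8 (.s k149 k63 14 (.d k213 k234 k21 6
  7)))] (.c k168 (.l (.s k171 k87 13 (.s k192 k129 8 (.s k149 k63 14 (.d k213 k234 k21 6 7))))) (.c
  k171 (.q k168 [(.s k84 k252 13 (.d k86 k87 k126 0 5)), (.s k192 k129 8 (.s k149 k63 14 (.d k213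
  k234 k21 6 7)))] .n) .n))) .n))) (.c k128 (.l (.s k127 k64 6 (.s k63 k191 7 (.s k149 k192 14 (.d
  k21 k42 k213 6 7))))) (.c k149 (.f k64 k127 6 (.q k90 [(.s k74 k122 3 (.s k79 k69 2 (.s k80 k95 2
  (.d k112 k96 k101 3 6)))), (.s k80 k95 2 (.s k240 k160 11 (.s k165 k15 14 (.d k245 k250 k5 2
  11))))] (.c k79 (.l (.s k74 k122 3 (.s k95 k80 2 (.s k15 k175 11 (.d k192 k128 k133 7 10))))) (.c
  k80 (.l (.s k74 k122 3 (.s k69 k79 2 (.s k138 k207 10 (.s k10 k202 7 (.s k15 k5 2 (.d k192 k128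
  k133 7 10))))))) (.c k95 (.l (.s k74 k122 3 (.s k79 k69 2 (.s k112 k101 6 (.s k80 k96 3 (.s k240
  k160 11 (.s k165 k15 14 (.d k245 k250 k5 2 11)))))))) (.c k128 (.q k191 [(.s k74 k122 3 (.s k79
  k69 2 (.s k80 k95 2 (.d k112 k96 k101 3 6)))), (.s k95 k80 2 (.s k15 k175 11 (.s k5 k10 2 (.d k165
  k245 k240 11 14))))] (.c k80 (.l (.s k74 k122 3 (.s k69 k79 2 (.s k207 k138 10 (.s k223 k239 3 (.s
  k154 k16 10 (.d k101 k117 k48 3 14))))))) (.c k95 (.l (.s k74 k122 3 (.s k79 k69 2 (.s k112 k101 6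
  (.s k80 k96 3 (.s k240 k160 11 (.s k165 k15 14 (.d k245 k250 k5 2 11)))))))) .n))) (.c k191 (.l
  (.s k128 k192 7 (.s k74 k122 3 (.s k79 k69 2 (.s k80 k95 2 (.d k112 k96 k101 3 6)))))) .n)))))))
  (.c k191 (.l (.s k64 k127 6 (.s k192 k128 7 (.s k149 k63 14 (.d k213 k234 k21 6 7))))) (.c k192
  (.q k1 [(.s k3 k2 0 (.s k87 k171 13 (.s k86 k84 0 (.d k169 k253 k252 13 14)))), (.s k127 k64 6 (.s
  k63 k191 7 (.s k21 k42 6 (.s k61 k41 5 (.s k253 k169 13 (.s k125 k189 7 (.d k60 k190 k62 8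
  0))))))), (.s k3 k2 0 (.s k127 k64 6 (.s k63 k191 7 (.s k21 k42 6 (.s k23 k43 5 (.s k22 k20 0 (.d
  k41 k61 k60 5 6)))))))] .n) (.c k213 (.q k1 [(.s k3 k2 0 (.s k87 k171 13 (.s k86 k84 0 (.d k169
  k253 k252 13 14)))), (.s k64 k127 6 (.s k169 k253 13 (.s k192 k128 7 (.s k149 k63 14 (.s k129 k189
  5 (.s k66 k3 8 (.d k65 k193 k67 7 0))))))), (.s k3 k2 0 (.s k64 k127 6 (.s k192 k128 7 (.s k66
  k129 8 (.s k86 k126 5 (.d k87 k84 k171 0 13))))))] (.c k3 (.l (.s k127 k64 6 (.s k63 k191 7 (.s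
  k21 k42 6 (.s k61 k41 5 (.s k60 k62 0 (.s k125 k190 8 (.d k253 k189 k169 7 13)))))))) .n)) (.c
  k234 (.l (.s k127 k64 6 (.s k63 k191 7 (.s k21 k42 6 (.d k149 k213 k192 7 14))))) .n))))))))))))

def t26_63 : T TT 256 :=
  (.f k255 k170 14 (.q k101 [(.s k69 k117 3 (.s k207 k138 10 (.s k223 k239 3 (.d k154 k16 k48 10
  14))))] (.c k16 (.f k69 k117 3 (.q k213 [(.s k192 k234 6 (.s k207 k138 10 (.s k197 k202 2 (.d k149
  k21 k53 7 11)))), (.s k192 k234 6 (.s k64 k128 7 (.s k79 k74 2 (.s k90 k112 6 (.s k95 k80 2 (.d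
  k127 k106 k111 6 3)))))), (.s k207 k138 10 (.s k223 k239 3 (.s k218 k208 2 (.s k229 k240 6 (.s
  k165 k37 7 (.d k245 k197 k5 3 11))))))] (.c k21 (.q k31 [(.s k207 k138 10 (.s k223 k239 3 (.s k95
  k159 7 (.s k90 k80 2 (.d k208 k218 k149 2 10))))), (.s k138 k207 10 (.s k192 k234 6 (.s k64 k128 7
  (.s k74 k79 2 (.s k15 k133 10 (.d k10 k5 k202 2 7)))))), (.s k192 k234 6 (.s k64 k128 7 (.s k79
  k74 2 (.s k90 k112 6 (.s k95 k80 2 (.d k127 k106 k111 6 3))))))] (.c k149 (.l (.s k192 k234 6 (.s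
  k207 k138 10 (.s k197 k202 2 (.s k5 k133 7 (.d k245 k165 k229 11 3)))))) .n)) (.c k31 (.l (.s k21
  k149 7 (.s k192 k234 6 (.s k207 k138 10 (.s k197 k202 2 (.s k5 k133 7 (.d k245 k165 k229 11
  3))))))) (.c k192 (.l (.s k207 k138 10 (.s k154 k48 14 (.s k223 k239 3 (.s k208 k218 2 (.s k149
  k21 7 (.s k31 k90 10 (.d k159 k144 k95 2 7)))))))) .n))))) (.c k48 (.q k53 [(.s k117 k69 3 (.s
  k149 k197 11 (.s k21 k213 7 (.s k245 k181 7 (.d k5 k37 k165 3 11))))), (.s k117 k69 3 (.s k245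
  k181 7 (.s k240 k250 2 (.s k80 k160 11 (.s k90 k95 2 (.d k165 k15 k5 14 11)))))), (.s k149 k197 11
  (.s k21 k213 7 (.s k5 k37 3 (.s k15 k10 2 (.s k95 k175 11 (.s k90 k80 2 (.d k165 k245 k240 11
  14)))))))] (.c k5 (.f k69 k117 3 (.l (.s k197 k149 11 (.s k207 k138 10 (.s k192 k202 2 (.s k213
  k234 6 (.s k223 k239 3 (.s k218 k208 2 (.d k229 k245 k240 3 6))))))))) (.c k15 (.q k37 [(.s k21 k5
  3 (.d k149 k213 k197 7 11)), (.s k117 k69 3 (.s k165 k229 7 (.d k245 k181 k5 7 11)))] (.c k5 (.l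
  (.s k117 k69 3 (.s k165 k229 7 (.s k181 k245 7 (.d k149 k133 k197 3 11))))) (.c k31 (.q k47 [(.s
  k21 k5 3 (.d k149 k213 k197 7 11)), (.s k165 k229 7 (.d k5 k21 k245 3 11))] (.c k5 (.l (.s k117
  k69 3 (.s k165 k229 7 (.s k181 k245 7 (.d k149 k133 k197 3 11))))) (.c k16 (.l (.s k21 k5 3 (.d
  k149 k213 k197 7 11))) (.c k21 (.q k16 [(.s k117 k69 3 (.s k165 k229 7 (.d k245 k181 k5 7 11))),
  (.s k69 k117 3 (.s k207 k138 10 (.d k223 k154 k239 10 3))), (.s k165 k229 7 (.s k106 k224 10 (.s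
  k111 k96 2 (.s k223 k154 10 (.d k239 k207 k175 3 7)))))] .n) .n)))) (.c k47 (.q k31 [(.s k5 k21 3
  (.d k165 k229 k245 7 11)), (.s k21 k5 3 (.d k149 k213 k197 7 11)), (.s k117 k69 3 (.s k165 k229 7
  (.s k181 k245 7 (.d k149 k197 k133 11 3))))] .n) .n)))) (.c k37 (.q k15 [(.s k5 k10 2 (.s k69 k117
  3 (.d k197 k133 k149 7 11))), (.s k69 k117 3 (.s k95 k175 11 (.s k90 k80 2 (.s k79 k112 6 (.d k207
  k143 k138 7 10))))), (.s k5 k10 2 (.s k95 k175 11 (.s k90 k80 2 (.d k165 k245 k240 11 14))))] (.c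
  k90 (.l (.s k69 k117 3 (.s k197 k149 11 (.d k5 k10 k133 2 7)))) .n)) (.c k165 (.f k69 k117 3 (.l
  (.s k197 k149 11 (.s k207 k138 10 (.s k192 k202 2 (.s k213 k234 6 (.s k223 k239 3 (.s k218 k208 2
  (.d k229 k245 k240 3 6))))))))) (.c k240 (.l (.s k69 k117 3 (.s k197 k149 11 (.s k5 k133 7 (.s k37
  k21 3 (.d k165 k229 k245 7 11)))))) (.c k245 (.q k5 [(.s k69 k117 3 (.d k197 k133 k149 7 11)), (.s
  k15 k10 2 (.s k37 k21 3 (.s k95 k175 11 (.s k90 k80 2 (.d k165 k229 k240 7 14)))))] (.c k15 (.l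
  (.s k37 k21 3 (.s k69 k117 3 (.d k197 k133 k149 7 11)))) (.c k37 (.l (.s k15 k10 2 (.s k69 k117 3
  (.d k197 k133 k149 7 11)))) .n))) .n))))))) (.c k69 (.q k1 [(.s k3 k2 0 (.s k87 k171 13 (.s k86
  k84 0 (.d k169 k253 k252 13 14)))), (.s k169 k253 13 (.s k33 k237 9 (.s k17 k49 3 (.s k51 k34 4
  (.s k119 k187 9 (.s k102 k68 4 (.d k153 k221 k204 9 14)))))))] (.c k169 (.f k3 k2 0 (.q k86 [(.d
  k87 k171 k84 13 0), (.s k71 k116 4 (.s k207 k139 9 (.s k154 k48 14 (.d k223 k239 k16 3 10))))] (.c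
  k168 (.l (.s k171 k87 13 (.s k71 k116 4 (.s k207 k139 9 (.s k154 k48 14 (.d k223 k239 k16 3
  10)))))) (.c k171 (.q k168 [(.d k84 k87 k252 0 13), (.s k71 k116 4 (.s k207 k139 9 (.s k223 k239 3
  (.d k154 k16 k48 10 14))))] .n) .n)))) (.c k253 (.l (.s k3 k2 0 (.s k87 k171 13 (.s k86 k84 0 (.s
  k71 k116 4 (.s k207 k139 9 (.s k154 k48 14 (.d k223 k239 k16 3 10)))))))) .n))) (.c k117 (.q k253
  [(.s k169 k1 13 (.s k252 k254 0 (.s k84 k168 13 (.d k86 k87 k3 0 14)))), (.s k169 k1 13 (.s k237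
  k33 9 (.s k221 k205 3 (.s k204 k238 4 (.s k68 k136 9 (.s k102 k119 4 (.d k153 k17 k51 9 14)))))))]
  (.c k1 (.l (.s k252 k254 0 (.s k84 k168 13 (.s k86 k87 0 (.s k116 k71 4 (.s k48 k184 9 (.s k16 k32
  3 (.d k154 k223 k207 10 14)))))))) (.c k169 (.f k252 k254 0 (.q k86 [(.d k84 k168 k87 13 0), (.s
  k116 k71 4 (.s k48 k184 9 (.s k16 k32 3 (.d k154 k223 k207 10 14))))] (.c k168 (.q k171 [(.d k87
  k84 k3 0 13), (.s k116 k71 4 (.s k48 k184 9 (.s k16 k32 3 (.d k154 k223 k207 10 14))))] .n) (.c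
  k171 (.l (.s k168 k84 13 (.s k116 k71 4 (.s k48 k184 9 (.s k16 k32 3 (.d k154 k223 k207 10
  14)))))) .n)))) .n))) (.c k138 (.l (.s k117 k69 3 (.s k48 k186 10 (.s k154 k207 14 (.d k16 k32
  k223 3 10))))) (.c k154 (.f k69 k117 3 (.q k90 [(.s k79 k112 6 (.s k64 k74 2 (.s k95 k80 2 (.d
  k127 k111 k106 3 6)))), (.s k80 k95 2 (.s k240 k160 11 (.s k165 k15 14 (.d k245 k250 k5 2 11)))),
  (.s k79 k112 6 (.s k64 k74 2 (.s k192 k128 7 (.s k213 k234 6 (.s k149 k21 7 (.s k197 k53 11 (.d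
  k207 k138 k202 10 2)))))))] (.c k138 (.q k186 [(.s k79 k112 6 (.s k64 k74 2 (.s k95 k80 2 (.d k127
  k111 k106 3 6)))), (.s k80 k95 2 (.s k240 k160 11 (.s k165 k15 14 (.d k245 k250 k5 2 11))))] (.c
  k80 (.l (.s k79 k112 6 (.s k64 k74 2 (.s k127 k106 6 (.s k95 k111 3 (.s k15 k175 11 (.s k165 k240
  14 (.d k5 k10 k245 2 11)))))))) (.c k95 (.q k1 [(.s k169 k253 13 (.s k33 k237 9 (.s k49 k17 3 (.d
  k205 k137 k153 9 13)))), (.s k3 k2 0 (.s k87 k171 13 (.s k86 k84 0 (.s k71 k116 4 (.s k119 k103 3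
  (.d k68 k70 k102 0 4))))))] (.c k169 (.l (.s k3 k2 0 (.s k137 k205 9 (.s k70 k204 10 (.s k71 k68 0
  (.s k86 k116 4 (.d k87 k84 k171 0 13))))))) .n)) .n))) (.c k186 (.l (.s k138 k207 10 (.s k79 k112
  6 (.s k64 k74 2 (.s k95 k80 2 (.d k127 k111 k106 3 6)))))) .n)))) (.c k186 (.l (.s k69 k117 3 (.s
  k207 k138 10 (.s k154 k48 14 (.d k223 k239 k16 3 10))))) (.c k207 (.f k69 k117 3 (.q k1 [(.s k3 k2
  0 (.s k87 k171 13 (.s k86 k84 0 (.d k169 k253 k252 13 14)))), (.s k205 k137 9 (.s k153 k49 13 (.s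
  k17 k221 9 (.s k51 k34 4 (.s k102 k204 14 (.d k119 k68 k187 4 9))))))] (.c k3 (.l (.s k169 k253 13
  (.s k33 k237 9 (.s k49 k17 3 (.d k205 k137 k153 9 13))))) (.c k111 (.q k159 [(.s k3 k2 0 (.s k87
  k171 13 (.s k86 k84 0 (.d k169 k253 k252 13 14)))), (.s k205 k137 9 (.s k153 k49 13 (.s k17 k221 9
  (.s k51 k34 4 (.s k102 k204 14 (.d k119 k68 k187 4 9))))))] (.c k3 (.l (.s k169 k253 13 (.s k33
  k237 9 (.s k49 k17 3 (.d k205 k137 k153 9 13))))) (.c k253 (.l (.s k3 k2 0 (.s k87 k171 13 (.s k86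
  k84 0 (.s k71 k116 4 (.s k68 k70 0 (.d k119 k103 k102 3 4))))))) .n))) (.c k159 (.q k111 [(.s k3
  k2 0 (.s k87 k171 13 (.s k86 k84 0 (.d k169 k253 k252 13 14)))), (.s k205 k137 9 (.s k153 k49 13
  (.s k17 k221 9 (.s k51 k34 4 (.s k102 k204 14 (.d k119 k68 k187 4 9))))))] (.c k3 (.l (.s k169
  k253 13 (.s k33 k237 9 (.s k49 k17 3 (.d k205 k137 k153 9 13))))) (.c k253 (.l (.s k3 k2 0 (.s k87
  k171 13 (.s k86 k84 0 (.s k71 k116 4 (.s k68 k70 0 (.d k119 k103 k102 3 4))))))) .n))) (.c k253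
  (.l (.s k3 k2 0 (.s k87 k171 13 (.s k86 k84 0 (.s k71 k116 4 (.s k68 k70 0 (.d k119 k103 k102 3
  4))))))) .n)))))) (.c k223 (.q k1 [(.s k3 k2 0 (.s k87 k171 13 (.s k86 k84 0 (.d k169 k253 k252 13
  14)))), (.s k69 k117 3 (.s k169 k253 13 (.s k33 k237 9 (.s k49 k17 3 (.d k205 k137 k153 9 13))))),
  (.s k3 k2 0 (.s k69 k117 3 (.s k137 k205 9 (.s k70 k204 10 (.s k71 k68 0 (.d k207 k139 k138 9
  10))))))] .n) (.c k239 (.l (.s k117 k69 3 (.s k48 k186 10 (.s k16 k32 3 (.d k154 k223 k207 10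
  14))))) .n))))))))))))

def t26_74 : T TT 256 :=
  (.f k255 k170 14 (.q k89 [(.s k81 k93 1 (.s k243 k162 12 (.s k166 k12 14 (.d k247 k251 k4 1
  12))))] (.c k4 (.q k1 [(.s k169 k253 13 (.s k3 k2 0 (.s k86 k252 14 (.d k87 k84 k171 0 13)))), (.s
  k81 k93 1 (.s k169 k253 13 (.s k9 k249 11 (.s k13 k5 1 (.d k241 k161 k165 11 13))))), (.s k3 k2 0
  (.s k81 k93 1 (.s k161 k241 11 (.s k82 k240 12 (.s k83 k80 0 (.d k243 k163 k162 11 12))))))] .n)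
  (.c k12 (.q k1 [(.s k3 k2 0 (.s k87 k171 13 (.s k86 k84 0 (.d k169 k253 k252 13 14)))), (.s k81
  k93 1 (.s k169 k253 13 (.s k9 k249 11 (.s k13 k5 1 (.d k241 k161 k165 11 13))))), (.s k3 k2 0 (.s
  k81 k93 1 (.s k161 k241 11 (.s k82 k240 12 (.s k83 k80 0 (.d k243 k163 k162 11 12))))))] .n) (.c
  k81 (.q k87 [(.s k86 k84 0 (.s k3 k171 13 (.s k169 k252 14 (.d k1 k2 k253 0 13)))), (.s k86 k84 0
  (.s k83 k92 2 (.s k95 k91 1 (.s k15 k175 11 (.s k5 k10 2 (.s k165 k245 11 (.d k90 k80 k240 2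
  14)))))))] (.c k84 (.l (.s k3 k171 13 (.s k1 k2 0 (.s k169 k253 13 (.s k9 k249 11 (.s k12 k6 2 (.s
  k4 k8 1 (.d k166 k247 k243 12 14)))))))) (.c k86 (.f k3 k171 13 (.q k169 [(.d k1 k2 k253 0 13),
  (.s k9 k249 11 (.s k12 k6 2 (.s k4 k8 1 (.d k166 k247 k243 12 14))))] (.c k2 (.q k254 [(.d k253
  k252 k1 0 13), (.s k9 k249 11 (.s k12 k6 2 (.s k4 k8 1 (.d k166 k247 k243 12 14))))] .n) (.c k254
  (.l (.s k2 k1 0 (.s k9 k249 11 (.s k12 k6 2 (.s k4 k8 1 (.d k166 k247 k243 12 14)))))) .n))))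
  .n))) (.c k93 (.q k68 [(.s k102 k119 4 (.s k204 k136 9 (.s k153 k51 14 (.d k221 k238 k17 4 9)))),
  (.s k102 k119 4 (.s k76 k115 6 (.s k64 k72 1 (.s k192 k128 7 (.s k213 k234 6 (.s k149 k21 7 (.d
  k106 k127 k63 6 14)))))))] (.c k102 (.f k204 k136 9 (.q k153 [(.d k221 k238 k17 4 9), (.s k217 k25
  7 (.s k243 k230 6 (.s k166 k12 14 (.d k247 k251 k4 1 12))))] (.c k34 (.l (.s k238 k221 4 (.s k217
  k25 7 (.s k243 k230 6 (.s k166 k12 14 (.d k247 k251 k4 1 12)))))) (.c k238 (.q k34 [(.d k17 k51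
  k221 4 9), (.s k217 k25 7 (.s k243 k230 6 (.s k247 k251 1 (.d k166 k4 k12 12 14))))] .n) .n))))
  (.c k119 (.l (.s k204 k136 9 (.s k221 k238 4 (.s k153 k17 9 (.s k217 k25 7 (.s k243 k230 6 (.s
  k166 k12 14 (.d k247 k251 k4 1 12)))))))) .n))) (.c k162 (.l (.s k93 k81 1 (.s k12 k174 12 (.s
  k166 k243 14 (.d k4 k8 k247 1 12))))) (.c k166 (.f k81 k93 1 (.q k83 [(.s k80 k82 0 (.s k86 k92 2
  (.s k87 k84 0 (.d k95 k91 k90 1 2)))), (.s k80 k82 0 (.s k240 k160 11 (.s k245 k250 2 (.s k165 k5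
  11 (.s k241 k13 13 (.d k243 k162 k242 12 0)))))), (.s k86 k92 2 (.s k84 k87 0 (.s k252 k168 13 (.s
  k169 k3 14 (.d k253 k254 k1 0 13)))))] (.c k162 (.q k174 [(.s k86 k92 2 (.s k87 k84 0 (.s k95 k91
  1 (.d k80 k82 k90 0 2)))), (.s k80 k82 0 (.s k240 k160 11 (.s k245 k250 2 (.s k165 k5 11 (.d k90
  k95 k15 2 14))))), (.s k86 k92 2 (.s k84 k87 0 (.s k252 k168 13 (.s k169 k3 14 (.d k253 k254 k1 0
  13)))))] (.c k95 (.l (.s k82 k80 0 (.s k86 k92 2 (.s k94 k90 1 (.s k84 k87 0 (.s k252 k168 13 (.d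
  k254 k14 k253 11 0))))))) .n)) (.c k174 (.l (.s k162 k243 12 (.s k80 k82 0 (.s k86 k92 2 (.s k87
  k84 0 (.d k95 k91 k90 1 2)))))) .n)))) (.c k174 (.l (.s k81 k93 1 (.s k243 k162 12 (.s k166 k12 14
  (.d k247 k251 k4 1 12))))) (.c k243 (.q k1 [(.s k3 k2 0 (.s k87 k171 13 (.s k86 k84 0 (.d k169
  k253 k252 13 14)))), (.s k81 k93 1 (.s k169 k253 13 (.s k9 k249 11 (.s k13 k5 1 (.d k241 k161 k165
  11 13))))), (.s k3 k2 0 (.s k93 k81 1 (.s k12 k174 12 (.s k8 k4 1 (.s k9 k6 2 (.s k5 k13 1 (.d k10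
  k11 k15 0 2)))))))] .n) (.c k247 (.q k1 [(.s k169 k253 13 (.s k3 k2 0 (.s k86 k252 14 (.d k87 k84
  k171 0 13)))), (.s k81 k93 1 (.s k169 k253 13 (.s k9 k249 11 (.s k13 k5 1 (.d k241 k161 k165 11
  13))))), (.s k3 k2 0 (.s k81 k93 1 (.s k161 k241 11 (.s k82 k240 12 (.s k83 k80 0 (.d k243 k163
  k162 11 12))))))] .n) (.c k251 (.l (.s k93 k81 1 (.s k12 k174 12 (.s k4 k8 1 (.d k166 k247 k243 12
  14))))) .n))))))))))))

def t26_75 : T TT 256 :=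
  (.f k255 k170 14 (.q k89 [(.s k81 k93 1 (.s k243 k162 12 (.s k166 k12 14 (.d k247 k251 k4 1
  12))))] (.c k4 (.q k1 [(.s k169 k253 13 (.s k3 k2 0 (.s k86 k252 14 (.d k87 k84 k171 0 13)))), (.s
  k81 k93 1 (.s k169 k253 13 (.s k9 k249 11 (.s k13 k5 1 (.d k241 k161 k165 11 13))))), (.s k3 k2 0
  (.s k81 k93 1 (.s k161 k241 11 (.s k82 k240 12 (.s k83 k80 0 (.d k243 k163 k162 11 12))))))] .n)
  (.c k12 (.q k1 [(.s k3 k2 0 (.s k87 k171 13 (.s k86 k84 0 (.d k169 k253 k252 13 14)))), (.s k81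
  k93 1 (.s k169 k253 13 (.s k9 k249 11 (.s k13 k5 1 (.d k241 k161 k165 11 13))))), (.s k3 k2 0 (.s
  k81 k93 1 (.s k161 k241 11 (.s k82 k240 12 (.s k83 k80 0 (.d k243 k163 k162 11 12))))))] .n) (.c
  k81 (.q k87 [(.s k86 k84 0 (.s k3 k171 13 (.s k169 k252 14 (.d k1 k2 k253 0 13)))), (.s k86 k84 0
  (.s k83 k92 2 (.s k95 k91 1 (.s k15 k175 11 (.s k5 k10 2 (.s k165 k245 11 (.d k90 k80 k240 2
  14)))))))] (.c k84 (.l (.s k3 k171 13 (.s k1 k2 0 (.s k169 k253 13 (.s k9 k249 11 (.s k12 k6 2 (.s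
  k4 k8 1 (.d k166 k247 k243 12 14)))))))) (.c k86 (.f k3 k171 13 (.q k169 [(.d k1 k2 k253 0 13),
  (.s k9 k249 11 (.s k12 k6 2 (.s k4 k8 1 (.d k166 k247 k243 12 14))))] (.c k2 (.q k254 [(.d k253
  k252 k1 0 13), (.s k9 k249 11 (.s k12 k6 2 (.s k4 k8 1 (.d k166 k247 k243 12 14))))] .n) (.c k254
  (.l (.s k2 k1 0 (.s k9 k249 11 (.s k12 k6 2 (.s k4 k8 1 (.d k166 k247 k243 12 14)))))) .n))))
  .n))) (.c k93 (.q k68 [(.s k102 k119 4 (.s k204 k136 9 (.s k153 k51 14 (.d k221 k238 k17 4 9)))),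
  (.s k102 k119 4 (.s k76 k115 6 (.s k64 k72 1 (.s k192 k128 7 (.s k213 k234 6 (.s k149 k21 7 (.d
  k106 k127 k63 6 14)))))))] (.c k102 (.f k204 k136 9 (.q k153 [(.d k221 k238 k17 4 9), (.s k217 k25
  7 (.s k243 k230 6 (.s k166 k12 14 (.d k247 k251 k4 1 12))))] (.c k34 (.l (.s k238 k221 4 (.s k217
  k25 7 (.s k243 k230 6 (.s k166 k12 14 (.d k247 k251 k4 1 12)))))) (.c k238 (.q k34 [(.d k17 k51
  k221 4 9), (.s k217 k25 7 (.s k243 k230 6 (.s k247 k251 1 (.d k166 k4 k12 12 14))))] .n) .n))))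
  (.c k119 (.l (.s k204 k136 9 (.s k221 k238 4 (.s k153 k17 9 (.s k217 k25 7 (.s k243 k230 6 (.s
  k166 k12 14 (.d k247 k251 k4 1 12)))))))) .n))) (.c k162 (.l (.s k93 k81 1 (.s k12 k174 12 (.s
  k166 k243 14 (.d k4 k8 k247 1 12))))) (.c k166 (.f k81 k93 1 (.q k83 [(.s k80 k82 0 (.s k86 k92 2
  (.s k87 k84 0 (.d k95 k91 k90 1 2)))), (.s k80 k82 0 (.s k240 k160 11 (.s k245 k250 2 (.s k165 k5
  11 (.s k241 k13 13 (.d k243 k162 k242 12 0)))))), (.s k86 k92 2 (.s k84 k87 0 (.s k252 k168 13 (.s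
  k169 k3 14 (.d k253 k254 k1 0 13)))))] (.c k162 (.q k174 [(.s k80 k82 0 (.s k86 k92 2 (.s k87 k84
  0 (.d k95 k91 k90 1 2)))), (.s k86 k92 2 (.s k84 k87 0 (.s k252 k168 13 (.s k169 k3 14 (.d k253
  k254 k1 0 13))))), (.s k80 k82 0 (.s k240 k160 11 (.s k245 k250 2 (.s k165 k5 11 (.d k90 k95 k15 2
  14)))))] (.c k95 (.l (.s k82 k80 0 (.s k86 k92 2 (.s k94 k90 1 (.s k84 k87 0 (.s k252 k168 13 (.d
  k254 k14 k253 11 0))))))) .n)) (.c k174 (.l (.s k162 k243 12 (.s k80 k82 0 (.s k86 k92 2 (.s k87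
  k84 0 (.d k95 k91 k90 1 2)))))) .n)))) (.c k174 (.l (.s k81 k93 1 (.s k243 k162 12 (.s k166 k12 14
  (.d k247 k251 k4 1 12))))) (.c k243 (.q k1 [(.s k3 k2 0 (.s k87 k171 13 (.s k86 k84 0 (.d k169
  k253 k252 13 14)))), (.s k81 k93 1 (.s k169 k253 13 (.s k9 k249 11 (.s k13 k5 1 (.d k241 k161 k165
  11 13))))), (.s k3 k2 0 (.s k93 k81 1 (.s k12 k174 12 (.s k8 k4 1 (.s k9 k6 2 (.s k5 k13 1 (.d k10
  k11 k15 0 2)))))))] .n) (.c k247 (.q k1 [(.s k169 k253 13 (.s k3 k2 0 (.s k86 k252 14 (.d k87 k84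
  k171 0 13)))), (.s k81 k93 1 (.s k169 k253 13 (.s k9 k249 11 (.s k13 k5 1 (.d k241 k161 k165 11
  13))))), (.s k3 k2 0 (.s k81 k93 1 (.s k161 k241 11 (.s k82 k240 12 (.s k83 k80 0 (.d k243 k163
  k162 11 12))))))] .n) (.c k251 (.l (.s k93 k81 1 (.s k12 k174 12 (.s k4 k8 1 (.d k166 k247 k243 12
  14))))) .n))))))))))))

def t26_79 : T TT 256 :=
  (.f k255 k170 14 (.q k89 [(.s k81 k93 1 (.s k243 k162 12 (.s k166 k12 14 (.d k247 k251 k4 1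
  12))))] (.c k4 (.q k1 [(.s k169 k253 13 (.s k3 k2 0 (.s k86 k252 14 (.d k87 k84 k171 0 13)))), (.s
  k81 k93 1 (.s k169 k253 13 (.s k9 k249 11 (.s k13 k5 1 (.d k241 k161 k165 11 13))))), (.s k3 k2 0
  (.s k81 k93 1 (.s k161 k241 11 (.s k82 k240 12 (.s k83 k80 0 (.d k243 k163 k162 11 12))))))] .n)
  (.c k12 (.q k1 [(.s k3 k2 0 (.s k87 k171 13 (.s k86 k84 0 (.d k169 k253 k252 13 14)))), (.s k81
  k93 1 (.s k169 k253 13 (.s k9 k249 11 (.s k13 k5 1 (.d k241 k161 k165 11 13))))), (.s k3 k2 0 (.s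
  k81 k93 1 (.s k161 k241 11 (.s k82 k240 12 (.s k83 k80 0 (.d k243 k163 k162 11 12))))))] .n) (.c
  k81 (.q k87 [(.s k86 k84 0 (.s k3 k171 13 (.s k169 k252 14 (.d k1 k2 k253 0 13)))), (.s k86 k84 0
  (.s k83 k92 2 (.s k95 k91 1 (.s k15 k175 11 (.s k5 k10 2 (.s k165 k245 11 (.d k90 k80 k240 2
  14)))))))] (.c k84 (.l (.s k3 k171 13 (.s k1 k2 0 (.s k169 k253 13 (.s k9 k249 11 (.s k12 k6 2 (.s
  k4 k8 1 (.d k166 k247 k243 12 14)))))))) (.c k86 (.f k3 k171 13 (.q k169 [(.d k1 k2 k253 0 13),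
  (.s k9 k249 11 (.s k12 k6 2 (.s k4 k8 1 (.d k166 k247 k243 12 14))))] (.c k2 (.q k254 [(.d k253
  k252 k1 0 13), (.s k9 k249 11 (.s k12 k6 2 (.s k4 k8 1 (.d k166 k247 k243 12 14))))] .n) (.c k254
  (.l (.s k2 k1 0 (.s k9 k249 11 (.s k12 k6 2 (.s k4 k8 1 (.d k166 k247 k243 12 14)))))) .n))))
  .n))) (.c k93 (.q k68 [(.s k102 k119 4 (.s k204 k136 9 (.s k153 k51 14 (.d k221 k238 k17 4 9)))),
  (.s k102 k119 4 (.s k76 k115 6 (.s k64 k72 1 (.s k192 k128 7 (.s k213 k234 6 (.s k149 k21 7 (.d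
  k106 k127 k63 6 14)))))))] (.c k102 (.f k204 k136 9 (.q k153 [(.d k221 k238 k17 4 9), (.s k217 k25
  7 (.s k243 k230 6 (.s k166 k12 14 (.d k247 k251 k4 1 12))))] (.c k34 (.l (.s k238 k221 4 (.s k217
  k25 7 (.s k243 k230 6 (.s k166 k12 14 (.d k247 k251 k4 1 12)))))) (.c k238 (.q k34 [(.d k17 k51
  k221 4 9), (.s k217 k25 7 (.s k243 k230 6 (.s k247 k251 1 (.d k166 k4 k12 12 14))))] .n) .n))))
  (.c k119 (.l (.s k204 k136 9 (.s k221 k238 4 (.s k153 k17 9 (.s k217 k25 7 (.s k243 k230 6 (.s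
  k166 k12 14 (.d k247 k251 k4 1 12)))))))) .n))) (.c k162 (.l (.s k93 k81 1 (.s k12 k174 12 (.s
  k166 k243 14 (.d k4 k8 k247 1 12))))) (.c k166 (.f k81 k93 1 (.q k83 [(.s k80 k82 0 (.s k86 k92 2
  (.s k87 k84 0 (.d k95 k91 k90 1 2)))), (.s k80 k82 0 (.s k240 k160 11 (.s k245 k250 2 (.s k165 k5
  11 (.s k241 k13 13 (.d k243 k162 k242 12 0)))))), (.s k86 k92 2 (.s k84 k87 0 (.s k252 k168 13 (.s
  k169 k3 14 (.d k253 k254 k1 0 13)))))] (.c k162 (.q k174 [(.s k80 k82 0 (.s k86 k92 2 (.s k87 k84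
  0 (.d k95 k91 k90 1 2)))), (.s k86 k92 2 (.s k84 k87 0 (.s k252 k168 13 (.s k169 k3 14 (.d k253
  k254 k1 0 13))))), (.s k80 k82 0 (.s k240 k160 11 (.s k245 k250 2 (.s k165 k5 11 (.d k90 k95 k15 2
  14)))))] (.c k95 (.l (.s k82 k80 0 (.s k86 k92 2 (.s k94 k90 1 (.s k84 k87 0 (.s k252 k168 13 (.d
  k254 k14 k253 11 0))))))) .n)) (.c k174 (.l (.s k162 k243 12 (.s k80 k82 0 (.s k86 k92 2 (.s k87
  k84 0 (.d k95 k91 k90 1 2)))))) .n)))) (.c k174 (.l (.s k81 k93 1 (.s k243 k162 12 (.s k166 k12 14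
  (.d k247 k251 k4 1 12))))) (.c k243 (.q k1 [(.s k3 k2 0 (.s k87 k171 13 (.s k86 k84 0 (.d k169
  k253 k252 13 14)))), (.s k81 k93 1 (.s k169 k253 13 (.s k9 k249 11 (.s k13 k5 1 (.d k241 k161 k165
  11 13))))), (.s k3 k2 0 (.s k93 k81 1 (.s k12 k174 12 (.s k8 k4 1 (.s k9 k6 2 (.s k5 k13 1 (.d k10
  k11 k15 0 2)))))))] .n) (.c k247 (.q k1 [(.s k169 k253 13 (.s k3 k2 0 (.s k86 k252 14 (.d k87 k84
  k171 0 13)))), (.s k81 k93 1 (.s k169 k253 13 (.s k9 k249 11 (.s k13 k5 1 (.d k241 k161 k165 11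
  13))))), (.s k3 k2 0 (.s k81 k93 1 (.s k161 k241 11 (.s k82 k240 12 (.s k83 k80 0 (.d k243 k163
  k162 11 12))))))] .n) (.c k251 (.l (.s k93 k81 1 (.s k12 k174 12 (.s k4 k8 1 (.d k166 k247 k243 12
  14))))) .n))))))))))))

def t26_98 : T TT 256 :=
  (.f k255 k170 14 (.q k89 [(.s k81 k93 1 (.s k243 k162 12 (.s k166 k12 14 (.d k247 k251 k4 1
  12)))), (.s k93 k81 1 (.s k12 k174 12 (.s k4 k8 1 (.d k166 k247 k243 12 14))))] (.c k4 (.q k1 [(.s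
  k169 k253 13 (.s k3 k2 0 (.s k86 k252 14 (.d k87 k84 k171 0 13)))), (.s k81 k93 1 (.s k169 k253 13
  (.s k9 k249 11 (.s k13 k5 1 (.d k241 k161 k165 11 13))))), (.s k3 k2 0 (.s k81 k93 1 (.s k161 k241
  11 (.s k82 k240 12 (.s k83 k80 0 (.d k243 k163 k162 11 12))))))] .n) (.c k12 (.q k1 [(.s k3 k2 0
  (.s k87 k171 13 (.s k86 k84 0 (.d k169 k253 k252 13 14)))), (.s k81 k93 1 (.s k169 k253 13 (.s k9
  k249 11 (.s k13 k5 1 (.d k241 k161 k165 11 13))))), (.s k3 k2 0 (.s k81 k93 1 (.s k161 k241 11 (.s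
  k82 k240 12 (.s k83 k80 0 (.d k243 k163 k162 11 12))))))] .n) (.c k81 (.q k106 [(.s k64 k127 6 (.s
  k192 k128 7 (.s k149 k63 14 (.d k213 k234 k21 6 7)))), (.s k64 k127 6 (.s k72 k123 4 (.s k68 k76 1
  (.s k204 k136 9 (.s k221 k238 4 (.s k153 k17 9 (.d k102 k119 k51 4 14)))))))] (.c k64 (.q k115
  [(.s k123 k72 4 (.s k119 k127 1 (.d k102 k68 k76 4 6))), (.s k102 k76 6 (.s k68 k119 4 (.s k204
  k136 9 (.s k153 k51 14 (.d k221 k238 k17 4 9)))))] (.c k68 (.l (.s k76 k102 6 (.s k123 k72 4 (.s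
  k127 k119 1 (.s k63 k191 7 (.s k21 k42 6 (.d k149 k213 k192 7 14))))))) (.c k72 (.l (.s k102 k76 6
  (.s k68 k119 4 (.s k204 k136 9 (.s k153 k51 14 (.d k221 k238 k17 4 9)))))) (.c k76 (.q k68 [(.s
  k123 k72 4 (.d k119 k127 k102 1 4)), (.s k204 k136 9 (.s k221 k238 4 (.s k153 k17 9 (.s k217 k25 7
  (.s k243 k230 6 (.d k51 k102 k179 14 7))))))] (.c k102 (.l (.s k123 k72 4 (.s k127 k119 1 (.s k63
  k191 7 (.s k21 k42 6 (.d k149 k213 k192 7 14)))))) .n)) (.c k102 (.l (.s k123 k72 4 (.s k127 k119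
  1 (.s k63 k191 7 (.s k21 k42 6 (.d k149 k213 k192 7 14)))))) (.c k119 (.q k4 [(.s k12 k8 1 (.d
  k166 k247 k243 12 14)), (.s k12 k8 1 (.s k72 k123 4 (.s k192 k132 9 (.s k213 k234 6 (.d k149 k21
  k63 7 14))))), (.s k102 k76 6 (.s k247 k166 12 (.s k243 k251 1 (.s k51 k179 7 (.s k17 k34 4 (.d
  k153 k221 k204 9 14))))))] .n) .n)))))) (.c k115 (.l (.s k64 k127 6 (.s k192 k128 7 (.s k149 k63
  14 (.d k213 k234 k21 6 7))))) (.c k127 (.q k64 [(.s k192 k128 7 (.s k149 k63 14 (.d k213 k234 k21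
  6 7))), (.s k72 k123 4 (.s k68 k76 1 (.s k204 k136 9 (.s k221 k238 4 (.s k153 k17 9 (.d k102 k119
  k51 4 14))))))] .n) .n)))) (.c k93 (.q k253 [(.s k169 k1 13 (.s k252 k254 0 (.s k84 k168 13 (.d
  k86 k87 k3 0 14)))), (.s k169 k1 13 (.s k249 k9 11 (.s k245 k241 1 (.s k240 k250 2 (.s k80 k160 11
  (.s k90 k95 2 (.d k165 k5 k15 11 14)))))))] (.c k1 (.l (.s k252 k254 0 (.s k84 k168 13 (.s k86 k87
  0 (.s k92 k83 2 (.s k12 k172 11 (.s k4 k8 1 (.d k166 k247 k243 12 14)))))))) (.c k169 (.f k252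
  k254 0 (.q k86 [(.d k84 k168 k87 13 0), (.s k92 k83 2 (.s k12 k172 11 (.s k4 k8 1 (.d k166 k247
  k243 12 14))))] (.c k168 (.q k171 [(.d k87 k84 k3 0 13), (.s k92 k83 2 (.s k12 k172 11 (.s k4 k8 1
  (.d k166 k247 k243 12 14))))] .n) (.c k171 (.l (.s k168 k84 13 (.s k92 k83 2 (.s k12 k172 11 (.s
  k4 k8 1 (.d k166 k247 k243 12 14)))))) .n)))) .n))) (.c k162 (.l (.s k93 k81 1 (.s k12 k174 12 (.s
  k166 k243 14 (.d k4 k8 k247 1 12))))) (.c k166 (.f k81 k93 1 (.f k162 k243 12 (.q k1 [(.s k3 k2 0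
  (.s k87 k171 13 (.s k86 k84 0 (.d k169 k253 k252 13 14)))), (.s k169 k253 13 (.s k9 k249 11 (.s
  k13 k5 1 (.d k241 k161 k165 11 13)))), (.s k3 k2 0 (.s k161 k241 11 (.s k240 k82 12 (.d k160 k163
  k80 0 11))))] .n))) (.c k174 (.l (.s k81 k93 1 (.s k243 k162 12 (.s k166 k12 14 (.d k247 k251 k4 1
  12))))) (.c k243 (.q k1 [(.s k3 k2 0 (.s k87 k171 13 (.s k86 k84 0 (.d k169 k253 k252 13 14)))),
  (.s k81 k93 1 (.s k169 k253 13 (.s k9 k249 11 (.s k13 k5 1 (.d k241 k161 k165 11 13))))), (.s k3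
  k2 0 (.s k93 k81 1 (.s k12 k174 12 (.s k8 k4 1 (.s k9 k6 2 (.s k5 k13 1 (.d k10 k11 k15 0
  2)))))))] .n) (.c k247 (.q k1 [(.s k169 k253 13 (.s k3 k2 0 (.s k86 k252 14 (.d k87 k84 k171 0
  13)))), (.s k81 k93 1 (.s k169 k253 13 (.s k9 k249 11 (.s k13 k5 1 (.d k241 k161 k165 11 13))))),
  (.s k3 k2 0 (.s k81 k93 1 (.s k161 k241 11 (.s k82 k240 12 (.s k83 k80 0 (.d k243 k163 k162 11
  12))))))] .n) .n)))))))))))

def t26_99 : T TT 256 :=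
  (.f k255 k170 14 (.q k89 [(.s k81 k93 1 (.s k243 k162 12 (.s k166 k12 14 (.d k247 k251 k4 1
  12))))] (.c k4 (.q k1 [(.s k169 k253 13 (.s k3 k2 0 (.s k86 k252 14 (.d k87 k84 k171 0 13)))), (.s
  k81 k93 1 (.s k169 k253 13 (.s k9 k249 11 (.s k13 k5 1 (.d k241 k161 k165 11 13))))), (.s k3 k2 0
  (.s k81 k93 1 (.s k161 k241 11 (.s k82 k240 12 (.s k83 k80 0 (.d k243 k163 k162 11 12))))))] .n)
  (.c k12 (.q k1 [(.s k3 k2 0 (.s k87 k171 13 (.s k86 k84 0 (.d k169 k253 k252 13 14)))), (.s k81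
  k93 1 (.s k169 k253 13 (.s k9 k249 11 (.s k13 k5 1 (.d k241 k161 k165 11 13))))), (.s k3 k2 0 (.s
  k81 k93 1 (.s k161 k241 11 (.s k82 k240 12 (.s k83 k80 0 (.d k243 k163 k162 11 12))))))] .n) (.c
  k81 (.q k87 [(.s k86 k84 0 (.s k3 k171 13 (.s k169 k252 14 (.d k1 k2 k253 0 13)))), (.s k86 k84 0
  (.s k83 k92 2 (.s k95 k91 1 (.s k15 k175 11 (.s k5 k10 2 (.s k165 k245 11 (.d k90 k80 k240 2
  14)))))))] (.c k84 (.l (.s k3 k171 13 (.s k1 k2 0 (.s k169 k253 13 (.s k9 k249 11 (.s k12 k6 2 (.s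
  k4 k8 1 (.d k166 k247 k243 12 14)))))))) (.c k86 (.f k3 k171 13 (.q k169 [(.d k1 k2 k253 0 13),
  (.s k9 k249 11 (.s k12 k6 2 (.s k4 k8 1 (.d k166 k247 k243 12 14))))] (.c k2 (.q k254 [(.d k253
  k252 k1 0 13), (.s k9 k249 11 (.s k12 k6 2 (.s k4 k8 1 (.d k166 k247 k243 12 14))))] .n) (.c k254
  (.l (.s k2 k1 0 (.s k9 k249 11 (.s k12 k6 2 (.s k4 k8 1 (.d k166 k247 k243 12 14)))))) .n))))
  .n))) (.c k93 (.q k69 [(.s k101 k117 3 (.s k207 k138 10 (.s k223 k239 3 (.d k154 k16 k48 10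
  14)))), (.s k101 k117 3 (.s k77 k113 5 (.s k65 k73 1 (.s k195 k130 8 (.s k215 k235 5 (.s k150 k20
  8 (.d k105 k125 k60 5 14)))))))] (.c k101 (.f k207 k138 10 (.q k154 [(.d k223 k239 k16 3 10), (.s
  k219 k24 8 (.s k243 k231 5 (.s k166 k12 14 (.d k247 k251 k4 1 12))))] (.c k32 (.l (.s k239 k223 3
  (.s k219 k24 8 (.s k243 k231 5 (.s k166 k12 14 (.d k247 k251 k4 1 12)))))) (.c k239 (.q k32 [(.d
  k16 k48 k223 3 10), (.s k219 k24 8 (.s k243 k231 5 (.s k247 k251 1 (.d k166 k4 k12 12 14))))] .n)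
  .n)))) (.c k117 (.l (.s k207 k138 10 (.s k223 k239 3 (.s k154 k16 10 (.s k219 k24 8 (.s k243 k231
  5 (.s k166 k12 14 (.d k247 k251 k4 1 12)))))))) .n))) (.c k162 (.l (.s k93 k81 1 (.s k12 k174 12
  (.s k166 k243 14 (.d k4 k8 k247 1 12))))) (.c k166 (.f k81 k93 1 (.q k83 [(.s k80 k82 0 (.s k86
  k92 2 (.s k87 k84 0 (.d k95 k91 k90 1 2)))), (.s k80 k82 0 (.s k240 k160 11 (.s k245 k250 2 (.s
  k165 k5 11 (.s k241 k13 13 (.d k243 k162 k242 12 0)))))), (.s k86 k92 2 (.s k84 k87 0 (.s k252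
  k168 13 (.s k169 k3 14 (.d k253 k254 k1 0 13)))))] (.c k162 (.q k174 [(.s k86 k92 2 (.s k87 k84 0
  (.s k95 k91 1 (.d k80 k82 k90 0 2)))), (.s k80 k82 0 (.s k240 k160 11 (.s k245 k250 2 (.s k165 k5
  11 (.d k90 k95 k15 2 14))))), (.s k86 k92 2 (.s k84 k87 0 (.s k252 k168 13 (.s k169 k3 14 (.d k253
  k254 k1 0 13)))))] (.c k95 (.l (.s k82 k80 0 (.s k86 k92 2 (.s k94 k90 1 (.s k84 k87 0 (.s k252
  k168 13 (.d k254 k14 k253 11 0))))))) .n)) (.c k174 (.l (.s k162 k243 12 (.s k80 k82 0 (.s k86 k92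
  2 (.s k87 k84 0 (.d k95 k91 k90 1 2)))))) .n)))) (.c k174 (.l (.s k81 k93 1 (.s k243 k162 12 (.s
  k166 k12 14 (.d k247 k251 k4 1 12))))) (.c k243 (.q k1 [(.s k3 k2 0 (.s k87 k171 13 (.s k86 k84 0
  (.d k169 k253 k252 13 14)))), (.s k81 k93 1 (.s k169 k253 13 (.s k9 k249 11 (.s k13 k5 1 (.d k241
  k161 k165 11 13))))), (.s k3 k2 0 (.s k93 k81 1 (.s k12 k174 12 (.s k8 k4 1 (.s k9 k6 2 (.s k5 k13
  1 (.d k10 k11 k15 0 2)))))))] .n) (.c k247 (.q k1 [(.s k169 k253 13 (.s k3 k2 0 (.s k86 k252 14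
  (.d k87 k84 k171 0 13)))), (.s k81 k93 1 (.s k169 k253 13 (.s k9 k249 11 (.s k13 k5 1 (.d k241
  k161 k165 11 13))))), (.s k3 k2 0 (.s k81 k93 1 (.s k161 k241 11 (.s k82 k240 12 (.s k83 k80 0 (.d
  k243 k163 k162 11 12))))))] .n) (.c k251 (.l (.s k93 k81 1 (.s k12 k174 12 (.s k4 k8 1 (.d k166
  k247 k243 12 14))))) .n))))))))))))

def t26_106 : T TT 256 :=
  (.f k170 k255 14 (.q k252 [(.s k84 k168 13 (.s k86 k87 0 (.s k2 k254 13 (.d k3 k1 k169 0 14))))]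
  (.c k1 (.q k4 [(.s k12 k8 1 (.s k166 k247 12 (.s k162 k174 1 (.d k243 k81 k89 12 14)))), (.s k12
  k8 1 (.s k84 k168 13 (.s k92 k172 11 (.s k88 k80 1 (.d k164 k244 k240 11 13))))), (.s k84 k168 13
  (.s k86 k87 0 (.s k166 k247 12 (.s k6 k246 11 (.s k7 k5 0 (.d k244 k164 k165 11 12))))))] .n) (.c
  k2 (.q k4 [(.s k12 k8 1 (.s k166 k247 12 (.s k162 k174 1 (.d k243 k81 k89 12 14)))), (.s k12 k8 1
  (.s k84 k168 13 (.s k92 k172 11 (.s k88 k80 1 (.d k164 k244 k240 11 13))))), (.s k84 k168 13 (.s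
  k86 k87 0 (.s k166 k247 12 (.s k6 k246 11 (.s k7 k5 0 (.d k244 k164 k165 11 12))))))] .n) (.c k3
  (.f k168 k84 13 (.q k184 [(.s k48 k116 9 (.s k16 k32 3 (.s k154 k223 10 (.d k169 k171 k139 0
  4)))), (.s k136 k152 3 (.s k153 k187 4 (.s k17 k221 9 (.s k51 k34 4 (.d k204 k68 k102 9 14)))))]
  (.c k16 (.l (.s k48 k116 9 (.s k152 k136 3 (.s k100 k204 13 (.s k32 k236 9 (.s k101 k239 10 (.s
  k69 k117 3 (.d k207 k138 k154 10 14)))))))) (.c k68 (.l (.s k152 k136 3 (.s k48 k116 9 (.s k100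
  k204 13 (.d k32 k16 k236 3 9))))) (.c k87 (.l (.s k171 k169 0 (.s k48 k116 9 (.s k32 k16 3 (.s
  k100 k236 9 (.d k152 k136 k204 3 13)))))) (.c k171 (.q k87 [(.s k48 k116 9 (.s k32 k16 3 (.s k100
  k236 9 (.d k152 k136 k204 3 13)))), (.s k136 k152 3 (.s k153 k187 4 (.s k17 k221 9 (.s k51 k34 4
  (.d k204 k68 k102 9 14))))), (.s k48 k116 9 (.s k16 k32 3 (.s k154 k223 10 (.s k138 k186 3 (.d
  k207 k69 k101 10 14)))))] (.c k16 (.l (.s k48 k116 9 (.s k152 k136 3 (.s k100 k204 13 (.s k32 k236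
  9 (.s k101 k239 10 (.s k69 k117 3 (.d k207 k138 k154 10 14)))))))) (.c k68 (.l (.s k152 k136 3 (.s
  k48 k116 9 (.s k100 k204 13 (.d k32 k16 k236 3 9))))) .n))) .n)))))) (.c k84 (.q k166 [(.s k4 k247
  12 (.s k12 k8 1 (.s k162 k174 1 (.d k243 k81 k89 12 14)))), (.s k162 k174 1 (.s k243 k81 12 (.s
  k246 k249 2 (.s k86 k6 11 (.s k2 k254 13 (.d k3 k1 k169 0 14)))))), (.s k4 k247 12 (.s k12 k8 1
  (.s k172 k92 11 (.s k169 k163 2 (.s k1 k253 13 (.d k3 k2 k86 0 14))))))] (.c k12 (.q k153 [(.s k17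
  k221 9 (.s k51 k34 4 (.s k136 k187 4 (.d k204 k68 k102 9 14)))), (.s k140 k179 6 (.s k174 k162 1
  (.s k191 k157 4 (.s k128 k149 6 (.d k136 k132 k187 1 4))))), (.s k17 k221 9 (.s k51 k34 4 (.s k179
  k140 6 (.s k243 k115 7 (.d k162 k174 k81 1 12)))))] (.c k93 (.l (.s k174 k162 1 (.s k17 k221 9 (.s
  k51 k34 4 (.s k136 k187 4 (.d k204 k68 k102 9 14)))))) (.c k174 (.q k93 [(.s k17 k221 9 (.s k51
  k34 4 (.s k136 k187 4 (.d k204 k68 k102 9 14)))), (.s k89 k81 1 (.s k217 k25 7 (.s k221 k17 9 (.s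
  k29 k157 7 (.d k209 k213 k149 1 9))))), (.s k4 k247 12 (.s k136 k187 4 (.s k140 k179 6 (.s k132
  k128 1 (.d k68 k196 k204 7 9)))))] (.c k51 (.l (.s k17 k221 9 (.s k81 k89 1 (.s k145 k209 7 (.s
  k162 k243 12 (.d k179 k128 k140 4 6)))))) .n)) .n))) (.c k243 (.q k160 [(.s k165 k175 2 (.s k5
  k245 11 (.s k15 k10 2 (.d k240 k80 k90 11 14)))), (.s k162 k174 1 (.s k163 k161 0 (.s k169 k172 2
  (.s k1 k253 13 (.d k3 k2 k86 0 14)))))] (.c k175 (.l (.s k162 k174 1 (.s k163 k161 0 (.s k172 k169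
  2 (.s k12 k92 11 (.d k4 k8 k247 1 12)))))) (.c k247 (.q k251 [(.s k165 k175 2 (.s k5 k245 11 (.s
  k15 k10 2 (.d k240 k80 k90 11 14)))), (.s k8 k89 12 (.s k12 k4 1 (.s k162 k174 1 (.s k163 k161 0
  (.d k172 k169 k92 2 11)))))] (.c k244 (.l (.s k165 k175 2 (.s k240 k80 11 (.s k15 k90 14 (.d k5
  k10 k245 2 11))))) .n)) (.c k251 (.l (.s k247 k4 12 (.s k165 k175 2 (.s k5 k245 11 (.s k15 k10 2
  (.d k240 k80 k90 11 14)))))) .n)))) .n))) (.c k86 (.f k168 k84 13 (.q k105 [(.s k40 k235 8 (.s k65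
  k125 5 (.s k195 k130 8 (.d k60 k20 k150 5 14)))), (.s k65 k125 5 (.s k169 k171 0 (.s k1 k253 13
  (.s k41 k233 7 (.s k61 k21 5 (.d k193 k129 k149 7 13)))))), (.s k40 k235 8 (.s k60 k20 5 (.s k104
  k232 7 (.s k148 k192 13 (.d k188 k128 k124 5 7)))))] (.c k60 (.l (.s k169 k171 0 (.s k233 k41 7
  (.s k195 k214 6 (.d k65 k125 k130 5 8))))) (.c k66 (.q k126 [(.s k40 k235 8 (.s k60 k20 5 (.s k65
  k125 5 (.d k195 k130 k150 8 14)))), (.s k125 k65 5 (.s k169 k171 0 (.s k189 k63 8 (.d k253 k61 k1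
  7 13)))), (.s k40 k235 8 (.s k60 k20 5 (.s k104 k232 7 (.s k148 k192 13 (.d k188 k128 k124 5
  7)))))] .n) (.c k126 (.q k66 [(.s k40 k235 8 (.s k65 k125 5 (.s k195 k130 8 (.d k60 k20 k150 5
  14)))), (.s k169 k171 0 (.s k233 k41 7 (.s k195 k214 6 (.d k65 k125 k130 5 8)))), (.s k40 k235 8
  (.s k60 k20 5 (.s k104 k232 7 (.s k148 k192 13 (.d k188 k128 k124 5 7)))))] (.c k195 (.l (.s k65
  k125 5 (.s k64 k67 0 (.s k192 k128 7 (.s k232 k212 5 (.d k40 k104 k235 7 8)))))) .n)) .n))))) (.c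
  k87 (.l (.s k168 k84 13 (.s k169 k171 0 (.s k3 k86 14 (.d k1 k2 k253 0 13))))) (.c k168 (.q k150
  [(.s k20 k215 8 (.s k130 k190 5 (.s k195 k65 8 (.d k60 k40 k105 5 14)))), (.s k130 k190 5 (.s k195
  k65 8 (.s k214 k233 6 (.s k86 k22 7 (.s k2 k254 13 (.d k3 k1 k169 0 14)))))), (.s k20 k215 8 (.s
  k60 k40 5 (.s k188 k124 7 (.s k169 k131 6 (.s k1 k253 13 (.d k3 k2 k86 0 14))))))] (.c k60 (.q k32
  [(.s k101 k239 10 (.s k69 k117 3 (.s k207 k138 10 (.d k48 k16 k154 3 14)))), (.s k20 k215 8 (.s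
  k101 k239 10 (.s k52 k199 12 (.s k4 k36 3 (.s k117 k69 3 (.d k247 k182 k166 8 12)))))), (.s k16
  k48 3 (.s k20 k215 8 (.s k28 k24 1 (.s k89 k211 10 (.s k93 k81 1 (.d k223 k158 k154 8 10))))))]
  (.c k117 (.l (.s k48 k16 3 (.s k101 k239 10 (.s k116 k184 9 (.s k86 k71 4 (.s k2 k254 13 (.d k3 k1
  k169 0 14))))))) (.c k125 (.l (.s k190 k130 5 (.s k48 k16 3 (.s k101 k239 10 (.s k69 k117 3 (.d
  k207 k138 k154 10 14)))))) (.c k190 (.q k125 [(.s k101 k239 10 (.s k69 k117 3 (.s k207 k138 10 (.d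
  k48 k16 k154 3 14)))), (.s k20 k215 8 (.s k101 k239 10 (.s k52 k199 12 (.s k36 k4 3 (.s k40 k44 1
  (.d k105 k235 k65 8 5)))))), (.s k16 k48 3 (.s k20 k215 8 (.s k28 k24 1 (.s k89 k211 10 (.s k93
  k81 1 (.d k223 k158 k154 8 10))))))] (.c k223 (.l (.s k48 k16 3 (.s k101 k239 10 (.s k207 k154 14
  (.d k69 k117 k138 3 10))))) .n)) (.c k223 (.l (.s k48 k16 3 (.s k101 k239 10 (.s k207 k154 14 (.d
  k69 k117 k138 3 10))))) .n))))) (.c k195 (.q k213 [(.s k215 k20 8 (.s k212 k214 0 (.s k192 k232 5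
  (.s k128 k64 7 (.d k149 k191 k21 6 7))))), (.s k149 k21 7 (.s k151 k148 0 (.s k190 k130 5 (.s k191
  k128 6 (.s k188 k189 0 (.d k131 k171 k169 5 6)))))), (.s k149 k21 7 (.s k215 k20 8 (.s k212 k214 0
  (.s k23 k86 8 (.d k151 k148 k87 0 7)))))] (.c k21 (.l (.s k215 k20 8 (.s k212 k214 0 (.s k192 k232
  5 (.s k128 k64 7 (.s k149 k191 6 (.s k23 k86 8 (.d k151 k148 k87 0 7)))))))) (.c k149 (.l (.s k215
  k20 8 (.s k214 k212 0 (.s k86 k22 7 (.s k2 k254 13 (.d k3 k1 k169 0 14)))))) (.c k215 (.q k235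
  [(.s k40 k105 8 (.s k60 k20 5 (.s k188 k124 7 (.s k169 k131 6 (.s k1 k253 13 (.d k3 k86 k2 14
  0)))))), (.s k149 k21 7 (.s k151 k148 0 (.s k190 k130 5 (.s k191 k128 6 (.s k188 k189 0 (.d k131
  k171 k169 5 6)))))), (.s k40 k105 8 (.s k60 k20 5 (.s k149 k21 7 (.s k128 k191 6 (.s k192 k64 7
  (.d k148 k104 k151 13 0))))))] .n) (.c k235 (.l (.s k215 k20 8 (.s k149 k21 7 (.s k128 k191 6 (.s
  k192 k64 7 (.d k212 k214 k232 0 5)))))) .n))))) .n))) (.c k169 (.f k84 k168 13 (.q k105 [(.s k40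
  k235 8 (.s k60 k20 5 (.s k65 k125 5 (.d k195 k130 k150 8 14)))), (.s k86 k87 0 (.s k2 k254 13 (.s
  k3 k1 0 (.s k67 k124 6 (.s k195 k131 7 (.d k65 k125 k130 5 8)))))), (.s k40 k235 8 (.s k60 k20 5
  (.s k86 k87 0 (.d k124 k67 k188 6 7))))] (.c k43 (.q k232 [(.s k65 k125 5 (.s k195 k130 8 (.s k233
  k214 6 (.d k235 k234 k40 0 8)))), (.s k86 k87 0 (.s k124 k67 6 (.s k64 k104 5 (.d k192 k212 k128 5
  7))))] .n) (.c k195 (.l (.s k86 k87 0 (.s k124 k67 6 (.s k60 k188 7 (.d k40 k20 k235 5 8))))) (.c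
  k232 (.q k43 [(.s k40 k235 8 (.s k60 k20 5 (.s k65 k125 5 (.d k195 k130 k150 8 14)))), (.s k86 k87
  0 (.s k124 k67 6 (.s k60 k188 7 (.d k40 k20 k235 5 8)))), (.s k65 k125 5 (.s k86 k87 0 (.s k124
  k67 6 (.s k60 k188 7 (.d k195 k150 k130 14 8))))), (.s k40 k235 8 (.s k42 k41 0 (.s k63 k21 6 (.s
  k3 k23 5 (.s k86 k87 0 (.d k2 k1 k254 0 13))))))] (.c k40 (.q k104 [(.s k124 k64 5 (.d k86 k87 k67
  0 6)), (.s k65 k125 5 (.s k124 k64 5 (.s k60 k188 7 (.d k195 k150 k130 14 8)))), (.s k65 k125 5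
  (.s k86 k87 0 (.s k195 k130 8 (.s k214 k233 6 (.d k150 k60 k22 14 7)))))] .n) (.c k104 (.l (.s k40
  k235 8 (.s k60 k20 5 (.s k65 k125 5 (.d k195 k130 k150 8 14))))) .n))) .n))))) (.c k171 (.l (.s
  k84 k168 13 (.s k86 k87 0 (.s k3 k169 14 (.d k2 k1 k254 0 13))))) (.c k254 (.l (.s k168 k84 13 (.s
  k169 k171 0 (.s k1 k253 13 (.d k3 k2 k86 0 14))))) .n))))))))))))

def t26_107 : T TT 256 :=
  (.f k255 k170 14 (.q k105 [(.s k65 k125 5 (.s k195 k130 8 (.s k150 k60 14 (.d k215 k235 k20 5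
  8))))] (.c k20 (.q k1 [(.s k3 k2 0 (.s k169 k253 13 (.s k86 k252 14 (.d k87 k84 k171 0 13)))), (.s
  k65 k125 5 (.s k169 k253 13 (.s k41 k233 7 (.s k61 k21 5 (.d k193 k129 k149 7 13))))), (.s k3 k2 0
  (.s k65 k125 5 (.s k129 k193 7 (.s k66 k192 8 (.s k67 k64 0 (.d k195 k131 k130 7 8))))))] .n) (.c
  k60 (.q k1 [(.s k3 k2 0 (.s k169 k253 13 (.s k86 k252 14 (.d k87 k84 k171 0 13)))), (.s k65 k125 5
  (.s k169 k253 13 (.s k41 k233 7 (.s k61 k21 5 (.d k193 k129 k149 7 13))))), (.s k3 k2 0 (.s k65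
  k125 5 (.s k129 k193 7 (.s k66 k192 8 (.s k67 k64 0 (.d k195 k131 k130 7 8))))))] .n) (.c k65 (.q
  k3 [(.s k1 k2 0 (.s k169 k253 13 (.s k86 k252 14 (.d k87 k84 k171 0 13)))), (.s k87 k171 13 (.s
  k86 k84 0 (.s k67 k124 6 (.s k195 k131 7 (.s k150 k60 14 (.d k215 k235 k20 5 8)))))), (.s k1 k2 0
  (.s k169 k253 13 (.s k41 k233 7 (.s k60 k22 6 (.s k20 k40 5 (.d k150 k215 k195 8 14))))))] (.c k86
  (.q k71 [(.s k207 k139 9 (.s k69 k138 10 (.s k70 k68 0 (.s k137 k204 10 (.d k1 k2 k205 0 9))))),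
  (.s k87 k171 13 (.s k103 k119 3 (.s k207 k139 9 (.s k155 k51 13 (.d k223 k239 k19 3 9))))), (.s
  k87 k171 13 (.s k119 k103 3 (.s k68 k102 4 (.s k70 k69 0 (.d k204 k136 k137 9 10)))))] (.c k2 (.q
  k254 [(.s k87 k171 13 (.s k103 k119 3 (.s k207 k139 9 (.s k155 k51 13 (.d k223 k239 k19 3 9))))),
  (.s k207 k139 9 (.s k69 k138 10 (.s k70 k68 0 (.s k137 k204 10 (.s k1 k205 9 (.d k253 k252 k169 0
  13)))))), (.s k87 k171 13 (.s k119 k103 3 (.s k68 k102 4 (.s k70 k69 0 (.d k204 k136 k137 9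
  10)))))] (.c k169 (.l (.s k207 k139 9 (.s k69 k138 10 (.s k101 k117 3 (.s k154 k48 14 (.d k223
  k239 k16 3 10)))))) .n)) (.c k254 (.l (.s k2 k1 0 (.s k87 k171 13 (.s k103 k119 3 (.s k207 k139 9
  (.s k155 k51 13 (.d k223 k239 k19 3 9))))))) .n))) (.c k169 (.f k171 k87 13 (.q k63 [(.s k127 k191
  7 (.s k106 k64 6 (.s k149 k192 14 (.d k21 k42 k213 6 7)))), (.s k2 k1 0 (.s k42 k21 6 (.s k22 k62
  5 (.s k41 k60 6 (.d k43 k40 k23 0 5))))), (.s k127 k191 7 (.s k106 k64 6 (.s k149 k192 14 (.s k61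
  k193 13 (.s k60 k62 0 (.s k20 k40 5 (.d k150 k195 k215 14 8)))))))] (.c k67 (.l (.s k127 k191 7
  (.s k21 k42 6 (.s k149 k213 7 (.d k106 k64 k192 6 14))))) (.c k127 (.q k67 [(.s k195 k131 7 (.s
  k150 k60 14 (.d k215 k235 k20 5 8))), (.s k1 k2 0 (.s k21 k42 6 (.s k61 k41 5 (.d k149 k213 k193 7
  13))))] .n) .n)))) .n))) (.c k125 (.q k3 [(.s k1 k2 0 (.s k169 k253 13 (.s k86 k252 14 (.d k87 k84
  k171 0 13)))), (.s k87 k171 13 (.s k86 k84 0 (.s k67 k124 6 (.s k195 k131 7 (.s k150 k60 14 (.d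
  k215 k235 k20 5 8)))))), (.s k1 k2 0 (.s k169 k253 13 (.s k41 k233 7 (.s k60 k22 6 (.s k20 k40 5
  (.d k150 k215 k195 8 14))))))] (.c k86 (.q k68 [(.s k102 k119 4 (.s k204 k136 9 (.s k153 k51 14
  (.d k221 k238 k17 4 9)))), (.s k2 k1 0 (.s k204 k136 9 (.s k70 k137 10 (.s k69 k71 0 (.d k138 k206
  k207 9 10))))), (.s k87 k171 13 (.s k119 k102 4 (.s k71 k103 3 (.s k207 k139 9 (.d k69 k70 k138 0
  10)))))] (.c k2 (.q k254 [(.s k102 k119 4 (.s k204 k136 9 (.s k153 k51 14 (.d k221 k238 k17 4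
  9)))), (.s k87 k171 13 (.s k119 k102 4 (.s k71 k103 3 (.s k207 k139 9 (.d k69 k70 k138 0 10))))),
  (.s k204 k136 9 (.s k70 k137 10 (.s k69 k71 0 (.s k238 k221 4 (.s k206 k222 3 (.d k207 k138 k205
  10 0))))))] (.c k187 (.l (.s k102 k119 4 (.s k204 k136 9 (.s k153 k51 14 (.d k221 k238 k17 4
  9))))) (.c k238 (.l (.s k87 k171 13 (.s k204 k136 9 (.s k70 k137 10 (.s k71 k69 0 (.d k119 k103
  k102 3 4)))))) .n))) (.c k187 (.l (.s k102 k119 4 (.s k204 k136 9 (.s k153 k51 14 (.d k221 k238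
  k17 4 9))))) (.c k254 (.l (.s k2 k1 0 (.s k102 k119 4 (.s k204 k136 9 (.s k153 k51 14 (.d k221
  k238 k17 4 9)))))) .n)))) (.c k169 (.f k171 k87 13 (.q k195 [(.s k150 k60 14 (.d k215 k235 k20 5
  8)), (.s k2 k1 0 (.s k130 k65 8 (.s k66 k194 7 (.s k129 k192 8 (.d k131 k67 k128 7 0)))))] (.c k67
  (.q k127 [(.s k150 k60 14 (.d k215 k235 k20 5 8)), (.s k63 k191 7 (.s k21 k42 6 (.s k106 k64 6 (.d
  k149 k213 k192 7 14))))] .n) (.c k127 (.l (.s k67 k131 7 (.s k150 k60 14 (.d k215 k235 k20 5 8))))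
  .n)))) .n))) (.c k130 (.l (.s k125 k65 5 (.s k60 k190 8 (.s k150 k195 14 (.d k20 k40 k215 5 8)))))
  (.c k150 (.f k125 k65 5 (.q k61 [(.s k149 k193 13 (.s k21 k213 7 (.s k253 k189 7 (.d k1 k41 k169 5
  13)))), (.s k253 k189 7 (.s k169 k1 13 (.s k252 k254 0 (.s k84 k168 13 (.d k86 k87 k3 0 14))))),
  (.s k149 k193 13 (.s k213 k21 7 (.s k192 k234 6 (.s k64 k128 7 (.d k106 k127 k63 6 14))))), (.s
  k189 k253 7 (.s k190 k60 8 (.s k191 k188 0 (.s k63 k127 7 (.s k21 k42 6 (.d k149 k213 k193 7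
  13))))))] (.c k130 (.l (.s k190 k60 8 (.s k149 k193 13 (.s k21 k213 7 (.s k1 k41 5 (.d k253 k189
  k169 7 13)))))) (.c k190 (.q k130 [(.s k149 k193 13 (.s k21 k213 7 (.s k1 k41 5 (.d k253 k189 k169
  7 13)))), (.s k253 k189 7 (.s k252 k254 0 (.s k84 k168 13 (.s k86 k87 0 (.d k169 k1 k3 13 14))))),
  (.s k149 k193 13 (.s k213 k21 7 (.s k192 k234 6 (.s k64 k128 7 (.d k106 k127 k63 6 14)))))] (.c k1
  (.l (.s k189 k253 7 (.s k149 k193 13 (.s k129 k169 5 (.s k213 k21 7 (.s k192 k234 6 (.d k128 k131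
  k64 0 7))))))) .n)) (.c k193 (.l (.s k253 k189 7 (.s k1 k169 13 (.s k3 k2 0 (.s k41 k21 5 (.d k60
  k22 k190 6 8)))))) .n))))) (.c k190 (.l (.s k65 k125 5 (.s k195 k130 8 (.s k150 k60 14 (.d k215
  k235 k20 5 8))))) (.c k195 (.q k63 [(.s k127 k191 7 (.s k106 k64 6 (.s k149 k192 14 (.d k21 k42
  k213 6 7)))), (.s k21 k42 6 (.s k125 k65 5 (.s k60 k190 8 (.s k61 k62 0 (.s k1 k41 5 (.d k253 k189
  k169 7 13)))))), (.s k125 k65 5 (.s k60 k190 8 (.s k61 k62 0 (.s k127 k191 7 (.s k106 k64 6 (.d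
  k149 k193 k192 13 14))))))] (.c k106 (.l (.s k125 k65 5 (.s k60 k190 8 (.s k61 k62 0 (.s k149 k193
  13 (.d k21 k42 k213 6 7)))))) .n)) (.c k215 (.q k1 [(.s k3 k2 0 (.s k169 k253 13 (.s k86 k252 14
  (.d k87 k84 k171 0 13)))), (.s k65 k125 5 (.s k169 k253 13 (.s k41 k233 7 (.s k61 k21 5 (.d k193
  k129 k149 7 13))))), (.s k3 k2 0 (.s k65 k125 5 (.s k129 k193 7 (.s k66 k192 8 (.s k67 k64 0 (.d
  k195 k131 k130 7 8))))))] .n) (.c k235 (.l (.s k125 k65 5 (.s k60 k190 8 (.s k20 k40 5 (.d k150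
  k215 k195 8 14))))) .n))))))))))))

def t26_111 : T TT 256 :=
  (.f k255 k170 14 (.q k105 [(.s k65 k125 5 (.s k195 k130 8 (.s k150 k60 14 (.d k215 k235 k20 5
  8))))] (.c k20 (.q k1 [(.s k169 k253 13 (.s k3 k2 0 (.s k86 k252 14 (.d k87 k84 k171 0 13)))), (.s
  k65 k125 5 (.s k169 k253 13 (.s k41 k233 7 (.s k61 k21 5 (.d k193 k129 k149 7 13))))), (.s k3 k2 0
  (.s k65 k125 5 (.s k129 k193 7 (.s k66 k192 8 (.s k67 k64 0 (.d k195 k131 k130 7 8))))))] .n) (.c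
  k60 (.q k1 [(.s k3 k2 0 (.s k87 k171 13 (.s k86 k84 0 (.d k169 k253 k252 13 14)))), (.s k65 k125 5
  (.s k169 k253 13 (.s k41 k233 7 (.s k61 k21 5 (.d k193 k129 k149 7 13))))), (.s k3 k2 0 (.s k65
  k125 5 (.s k129 k193 7 (.s k66 k192 8 (.s k67 k64 0 (.d k195 k131 k130 7 8))))))] .n) (.c k65 (.q
  k1 [(.s k169 k253 13 (.s k3 k2 0 (.s k86 k252 14 (.d k87 k84 k171 0 13)))), (.s k169 k253 13 (.s
  k41 k233 7 (.s k21 k61 5 (.s k63 k42 6 (.s k127 k191 7 (.s k106 k64 6 (.d k149 k213 k192 7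
  14)))))))] (.c k169 (.f k3 k2 0 (.q k86 [(.d k87 k171 k84 13 0), (.s k67 k124 6 (.s k195 k131 7
  (.s k150 k60 14 (.d k215 k235 k20 5 8))))] (.c k168 (.l (.s k171 k87 13 (.s k67 k124 6 (.s k195
  k131 7 (.s k150 k60 14 (.d k215 k235 k20 5 8)))))) (.c k171 (.q k168 [(.d k84 k87 k252 0 13), (.s
  k67 k124 6 (.s k195 k131 7 (.s k215 k235 5 (.d k150 k20 k60 8 14))))] .n) .n)))) (.c k253 (.l (.s
  k3 k2 0 (.s k87 k171 13 (.s k86 k84 0 (.s k67 k124 6 (.s k195 k131 7 (.s k150 k60 14 (.d k215 k235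
  k20 5 8)))))))) .n))) (.c k125 (.q k253 [(.s k169 k1 13 (.s k252 k254 0 (.s k84 k168 13 (.d k86
  k87 k3 0 14)))), (.s k169 k1 13 (.s k233 k41 7 (.s k213 k193 5 (.s k192 k234 6 (.s k64 k128 7 (.s
  k106 k127 6 (.d k149 k21 k63 7 14)))))))] (.c k1 (.l (.s k252 k254 0 (.s k84 k168 13 (.s k86 k87 0
  (.s k124 k67 6 (.s k60 k188 7 (.s k20 k40 5 (.d k150 k215 k195 8 14)))))))) (.c k169 (.f k252 k254
  0 (.q k86 [(.d k84 k168 k87 13 0), (.s k124 k67 6 (.s k60 k188 7 (.s k20 k40 5 (.d k150 k215 k195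
  8 14))))] (.c k168 (.q k171 [(.d k87 k84 k3 0 13), (.s k124 k67 6 (.s k60 k188 7 (.s k20 k40 5 (.d
  k150 k215 k195 8 14))))] .n) (.c k171 (.l (.s k168 k84 13 (.s k124 k67 6 (.s k60 k188 7 (.s k20
  k40 5 (.d k150 k215 k195 8 14)))))) .n)))) .n))) (.c k130 (.l (.s k125 k65 5 (.s k60 k190 8 (.s
  k150 k195 14 (.d k20 k40 k215 5 8))))) (.c k150 (.f k125 k65 5 (.q k127 [(.s k106 k64 6 (.s k107
  k104 0 (.s k67 k87 5 (.d k124 k126 k86 0 6)))), (.s k63 k191 7 (.s k21 k42 6 (.s k149 k213 7 (.s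
  k61 k193 13 (.d k60 k190 k62 8 0)))))] (.c k106 (.l (.s k63 k191 7 (.s k126 k124 0 (.s k189 k252 8
  (.s k61 k253 7 (.d k60 k62 k190 0 8)))))) (.c k130 (.l (.s k190 k60 8 (.s k63 k191 7 (.s k21 k42 6
  (.s k106 k64 6 (.d k149 k213 k192 7 14)))))) (.c k190 (.q k130 [(.s k106 k64 6 (.s k107 k104 0 (.s
  k67 k87 5 (.d k124 k126 k86 0 6)))), (.s k63 k191 7 (.s k21 k42 6 (.s k149 k213 7 (.d k106 k64
  k192 6 14)))), (.s k63 k191 7 (.s k126 k124 0 (.s k189 k252 8 (.s k61 k253 7 (.s k149 k193 13 (.d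
  k21 k213 k42 7 6))))))] .n) .n))))) (.c k190 (.l (.s k65 k125 5 (.s k195 k130 8 (.s k150 k60 14
  (.d k215 k235 k20 5 8))))) (.c k195 (.q k1 [(.s k3 k2 0 (.s k87 k171 13 (.s k86 k84 0 (.d k169
  k253 k252 13 14)))), (.s k65 k125 5 (.s k169 k253 13 (.s k41 k233 7 (.s k61 k21 5 (.d k193 k129
  k149 7 13))))), (.s k3 k2 0 (.s k125 k65 5 (.s k60 k190 8 (.s k40 k20 5 (.s k41 k22 6 (.s k21 k61
  5 (.d k42 k43 k63 0 6)))))))] .n) (.c k215 (.q k1 [(.s k169 k253 13 (.s k3 k2 0 (.s k86 k252 14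
  (.d k87 k84 k171 0 13)))), (.s k65 k125 5 (.s k169 k253 13 (.s k41 k233 7 (.s k61 k21 5 (.d k193
  k129 k149 7 13))))), (.s k3 k2 0 (.s k65 k125 5 (.s k129 k193 7 (.s k66 k192 8 (.s k67 k64 0 (.d
  k195 k131 k130 7 8))))))] .n) (.c k235 (.l (.s k125 k65 5 (.s k60 k190 8 (.s k20 k40 5 (.d k150
  k215 k195 8 14))))) .n))))))))))))

def t26_114 : T TT 256 :=
  (.f k255 k170 14 (.q k89 [(.s k81 k93 1 (.s k243 k162 12 (.s k166 k12 14 (.d k247 k251 k4 1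
  12))))] (.c k4 (.q k1 [(.s k169 k253 13 (.s k3 k2 0 (.s k86 k252 14 (.d k87 k84 k171 0 13)))), (.s
  k81 k93 1 (.s k169 k253 13 (.s k9 k249 11 (.s k13 k5 1 (.d k241 k161 k165 11 13))))), (.s k3 k2 0
  (.s k81 k93 1 (.s k161 k241 11 (.s k82 k240 12 (.s k83 k80 0 (.d k243 k163 k162 11 12))))))] .n)
  (.c k12 (.q k1 [(.s k3 k2 0 (.s k87 k171 13 (.s k86 k84 0 (.d k169 k253 k252 13 14)))), (.s k81
  k93 1 (.s k169 k253 13 (.s k9 k249 11 (.s k13 k5 1 (.d k241 k161 k165 11 13))))), (.s k3 k2 0 (.s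
  k81 k93 1 (.s k161 k241 11 (.s k82 k240 12 (.s k83 k80 0 (.d k243 k163 k162 11 12))))))] .n) (.c
  k81 (.q k87 [(.s k86 k84 0 (.s k3 k171 13 (.s k169 k252 14 (.d k1 k2 k253 0 13)))), (.s k86 k84 0
  (.s k83 k92 2 (.s k95 k91 1 (.s k15 k175 11 (.s k5 k10 2 (.s k165 k245 11 (.d k90 k80 k240 2
  14)))))))] (.c k84 (.l (.s k3 k171 13 (.s k1 k2 0 (.s k169 k253 13 (.s k9 k249 11 (.s k12 k6 2 (.s
  k4 k8 1 (.d k166 k247 k243 12 14)))))))) (.c k86 (.f k3 k171 13 (.q k169 [(.d k1 k2 k253 0 13),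
  (.s k9 k249 11 (.s k12 k6 2 (.s k4 k8 1 (.d k166 k247 k243 12 14))))] (.c k2 (.q k254 [(.d k253
  k252 k1 0 13), (.s k9 k249 11 (.s k12 k6 2 (.s k4 k8 1 (.d k166 k247 k243 12 14))))] .n) (.c k254
  (.l (.s k2 k1 0 (.s k9 k249 11 (.s k12 k6 2 (.s k4 k8 1 (.d k166 k247 k243 12 14)))))) .n))))
  .n))) (.c k93 (.q k69 [(.s k101 k117 3 (.s k207 k138 10 (.s k223 k239 3 (.d k154 k16 k48 10
  14)))), (.s k101 k117 3 (.s k77 k113 5 (.s k65 k73 1 (.s k195 k130 8 (.s k215 k235 5 (.s k150 k20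
  8 (.d k105 k125 k60 5 14)))))))] (.c k101 (.f k207 k138 10 (.q k154 [(.d k223 k239 k16 3 10), (.s
  k219 k24 8 (.s k243 k231 5 (.s k166 k12 14 (.d k247 k251 k4 1 12))))] (.c k32 (.l (.s k239 k223 3
  (.s k219 k24 8 (.s k243 k231 5 (.s k166 k12 14 (.d k247 k251 k4 1 12)))))) (.c k239 (.q k32 [(.d
  k16 k48 k223 3 10), (.s k219 k24 8 (.s k243 k231 5 (.s k247 k251 1 (.d k166 k4 k12 12 14))))] .n)
  .n)))) (.c k117 (.l (.s k207 k138 10 (.s k223 k239 3 (.s k154 k16 10 (.s k219 k24 8 (.s k243 k231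
  5 (.s k166 k12 14 (.d k247 k251 k4 1 12)))))))) .n))) (.c k162 (.l (.s k93 k81 1 (.s k12 k174 12
  (.s k166 k243 14 (.d k4 k8 k247 1 12))))) (.c k166 (.f k81 k93 1 (.q k83 [(.s k80 k82 0 (.s k86
  k92 2 (.s k87 k84 0 (.d k95 k91 k90 1 2)))), (.s k80 k82 0 (.s k240 k160 11 (.s k245 k250 2 (.s
  k165 k5 11 (.s k241 k13 13 (.d k243 k162 k242 12 0)))))), (.s k86 k92 2 (.s k84 k87 0 (.s k252
  k168 13 (.s k169 k3 14 (.d k253 k254 k1 0 13)))))] (.c k162 (.q k174 [(.s k86 k92 2 (.s k87 k84 0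
  (.s k95 k91 1 (.d k80 k82 k90 0 2)))), (.s k80 k82 0 (.s k240 k160 11 (.s k245 k250 2 (.s k165 k5
  11 (.d k90 k95 k15 2 14))))), (.s k86 k92 2 (.s k84 k87 0 (.s k252 k168 13 (.s k169 k3 14 (.d k253
  k254 k1 0 13)))))] (.c k95 (.l (.s k82 k80 0 (.s k86 k92 2 (.s k94 k90 1 (.s k84 k87 0 (.s k252
  k168 13 (.d k254 k14 k253 11 0))))))) .n)) (.c k174 (.l (.s k162 k243 12 (.s k80 k82 0 (.s k86 k92
  2 (.s k87 k84 0 (.d k95 k91 k90 1 2)))))) .n)))) (.c k174 (.l (.s k81 k93 1 (.s k243 k162 12 (.s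
  k166 k12 14 (.d k247 k251 k4 1 12))))) (.c k243 (.q k1 [(.s k3 k2 0 (.s k87 k171 13 (.s k86 k84 0
  (.d k169 k253 k252 13 14)))), (.s k81 k93 1 (.s k169 k253 13 (.s k9 k249 11 (.s k13 k5 1 (.d k241
  k161 k165 11 13))))), (.s k3 k2 0 (.s k93 k81 1 (.s k12 k174 12 (.s k8 k4 1 (.s k9 k6 2 (.s k5 k13
  1 (.d k10 k11 k15 0 2)))))))] .n) (.c k247 (.q k1 [(.s k169 k253 13 (.s k3 k2 0 (.s k86 k252 14
  (.d k87 k84 k171 0 13)))), (.s k81 k93 1 (.s k169 k253 13 (.s k9 k249 11 (.s k13 k5 1 (.d k241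
  k161 k165 11 13))))), (.s k3 k2 0 (.s k81 k93 1 (.s k161 k241 11 (.s k82 k240 12 (.s k83 k80 0 (.d
  k243 k163 k162 11 12))))))] .n) (.c k251 (.l (.s k93 k81 1 (.s k12 k174 12 (.s k4 k8 1 (.d k166
  k247 k243 12 14))))) .n))))))))))))

def t26_115 : T TT 256 :=
  (.f k255 k170 14 (.q k89 [(.s k81 k93 1 (.s k243 k162 12 (.s k166 k12 14 (.d k247 k251 k4 1
  12))))] (.c k4 (.q k1 [(.s k169 k253 13 (.s k3 k2 0 (.s k86 k252 14 (.d k87 k84 k171 0 13)))), (.s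
  k81 k93 1 (.s k169 k253 13 (.s k9 k249 11 (.s k13 k5 1 (.d k241 k161 k165 11 13))))), (.s k3 k2 0
  (.s k81 k93 1 (.s k161 k241 11 (.s k82 k240 12 (.s k83 k80 0 (.d k243 k163 k162 11 12))))))] .n)
  (.c k12 (.q k1 [(.s k3 k2 0 (.s k87 k171 13 (.s k86 k84 0 (.d k169 k253 k252 13 14)))), (.s k81
  k93 1 (.s k169 k253 13 (.s k9 k249 11 (.s k13 k5 1 (.d k241 k161 k165 11 13))))), (.s k3 k2 0 (.s
  k81 k93 1 (.s k161 k241 11 (.s k82 k240 12 (.s k83 k80 0 (.d k243 k163 k162 11 12))))))] .n) (.c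
  k81 (.q k65 [(.s k105 k125 5 (.s k195 k130 8 (.s k150 k60 14 (.d k215 k235 k20 5 8)))), (.s k105
  k125 5 (.s k73 k121 3 (.s k69 k77 1 (.s k207 k138 10 (.s k223 k239 3 (.s k154 k16 10 (.d k101 k117
  k48 3 14)))))))] (.c k64 (.q k98 [(.s k105 k125 5 (.s k195 k130 8 (.s k150 k60 14 (.d k215 k235
  k20 5 8)))), (.s k105 k125 5 (.s k73 k121 3 (.s k69 k77 1 (.s k207 k138 10 (.s k223 k239 3 (.s
  k154 k16 10 (.d k101 k117 k48 3 14)))))))] (.c k105 (.q k219 [(.s k154 k24 8 (.s k16 k223 10 (.s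
  k48 k32 3 (.s k101 k207 14 (.d k117 k69 k186 3 10))))), (.s k195 k130 8 (.s k235 k215 5 (.s k203
  k251 3 (.s k207 k199 1 (.s k231 k243 5 (.d k239 k227 k223 1 3)))))), (.s k154 k24 8 (.s k195 k130
  8 (.s k223 k16 10 (.d k215 k211 k235 1 5))))] (.c k40 (.q k235 [(.d k195 k215 k130 5 8), (.s k154
  k24 8 (.s k16 k223 10 (.s k48 k32 3 (.s k101 k207 14 (.d k117 k69 k186 3 10)))))] .n) (.c k223 (.l
  (.s k195 k130 8 (.s k235 k215 5 (.s k251 k203 3 (.s k243 k247 1 (.s k227 k211 3 (.d k231 k239 k207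
  1 5))))))) (.c k235 (.q k40 [(.s k20 k60 5 (.s k150 k215 8 (.s k28 k211 10 (.d k24 k16 k154 1
  8)))), (.s k154 k24 8 (.s k16 k223 10 (.s k48 k32 3 (.s k101 k207 14 (.d k117 k69 k186 3 10))))),
  (.s k20 k60 5 (.s k150 k215 8 (.s k195 k130 8 (.s k211 k28 10 (.s k243 k227 3 (.s k247 k251 1 (.d
  k166 k12 k4 14 12)))))))] .n) .n)))) (.c k125 (.l (.s k195 k130 8 (.s k215 k235 5 (.s k150 k20 8
  (.s k211 k28 10 (.s k243 k227 3 (.s k166 k12 14 (.d k247 k251 k4 1 12)))))))) .n))) (.c k98 (.q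
  k64 [(.s k105 k125 5 (.s k195 k130 8 (.s k150 k60 14 (.d k215 k235 k20 5 8)))), (.s k106 k127 6
  (.s k192 k128 7 (.s k149 k63 14 (.d k213 k234 k21 6 7))))] .n) (.c k105 (.q k64 [(.s k106 k127 6
  (.s k192 k128 7 (.s k149 k63 14 (.d k213 k234 k21 6 7)))), (.s k66 k67 0 (.s k130 k195 8 (.s k2
  k194 7 (.s k3 k1 0 (.d k192 k128 k129 7 8))))), (.s k67 k66 0 (.s k127 k106 6 (.s k107 k87 5 (.s
  k195 k130 8 (.d k63 k191 k151 7 13)))))] (.c k40 (.q k235 [(.d k195 k215 k130 5 8), (.s k106 k127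
  6 (.s k192 k128 7 (.s k149 k63 14 (.d k213 k234 k21 6 7))))] .n) (.c k235 (.q k40 [(.s k106 k127 6
  (.s k192 k128 7 (.s k149 k63 14 (.d k213 k234 k21 6 7)))), (.s k66 k67 0 (.s k130 k195 8 (.s k2
  k194 7 (.s k3 k1 0 (.d k192 k128 k129 7 8))))), (.s k67 k66 0 (.s k127 k106 6 (.s k107 k87 5 (.s
  k195 k130 8 (.d k63 k191 k151 7 13)))))] .n) .n))) (.c k125 (.l (.s k195 k130 8 (.s k215 k235 5
  (.s k150 k20 8 (.s k211 k28 10 (.s k243 k227 3 (.s k166 k12 14 (.d k247 k251 k4 1 12))))))))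
  .n))))) (.c k93 (.q k253 [(.s k169 k1 13 (.s k252 k254 0 (.s k84 k168 13 (.d k86 k87 k3 0 14)))),
  (.s k169 k1 13 (.s k249 k9 11 (.s k245 k241 1 (.s k240 k250 2 (.s k80 k160 11 (.s k90 k95 2 (.d
  k165 k5 k15 11 14)))))))] (.c k1 (.l (.s k252 k254 0 (.s k84 k168 13 (.s k86 k87 0 (.s k92 k83 2
  (.s k12 k172 11 (.s k4 k8 1 (.d k166 k247 k243 12 14)))))))) (.c k169 (.f k252 k254 0 (.q k86 [(.d
  k84 k168 k87 13 0), (.s k92 k83 2 (.s k12 k172 11 (.s k4 k8 1 (.d k166 k247 k243 12 14))))] (.c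
  k168 (.q k171 [(.d k87 k84 k3 0 13), (.s k92 k83 2 (.s k12 k172 11 (.s k4 k8 1 (.d k166 k247 k243
  12 14))))] .n) (.c k171 (.l (.s k168 k84 13 (.s k92 k83 2 (.s k12 k172 11 (.s k4 k8 1 (.d k166
  k247 k243 12 14)))))) .n)))) .n))) (.c k162 (.l (.s k93 k81 1 (.s k12 k174 12 (.s k166 k243 14 (.d
  k4 k8 k247 1 12))))) (.c k166 (.f k81 k93 1 (.q k209 [(.s k17 k145 7 (.s k149 k29 9 (.s k213 k21 7
  (.d k221 k217 k153 1 9)))), (.s k17 k145 7 (.s k51 k34 4 (.s k119 k187 9 (.s k102 k68 4 (.d k153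
  k221 k204 9 14))))), (.s k149 k29 9 (.s k21 k213 7 (.s k63 k42 6 (.s k106 k192 14 (.d k127 k64
  k191 6 7)))))] (.c k162 (.q k174 [(.s k149 k29 9 (.s k213 k21 7 (.s k221 k217 1 (.d k17 k145 k153
  7 9)))), (.s k17 k145 7 (.s k51 k34 4 (.s k119 k187 9 (.s k102 k68 4 (.d k153 k221 k204 9 14))))),
  (.s k149 k29 9 (.s k21 k213 7 (.s k63 k42 6 (.s k106 k192 14 (.d k127 k64 k191 6 7)))))] (.c k221
  (.l (.s k145 k17 7 (.s k149 k29 9 (.s k157 k153 1 (.s k21 k213 7 (.s k63 k42 6 (.d k191 k140 k127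
  4 7))))))) .n)) (.c k174 (.l (.s k162 k243 12 (.s k17 k145 7 (.s k29 k149 9 (.s k25 k21 1 (.d k153
  k217 k221 7 9)))))) (.c k221 (.l (.s k17 k145 7 (.s k29 k149 9 (.s k25 k21 1 (.s k51 k34 4 (.s
  k119 k187 9 (.s k102 k68 4 (.d k153 k217 k204 7 14)))))))) .n))))) (.c k174 (.l (.s k81 k93 1 (.s
  k243 k162 12 (.s k166 k12 14 (.d k247 k251 k4 1 12))))) (.c k243 (.q k51 [(.s k17 k34 4 (.s k119
  k187 9 (.s k102 k68 4 (.d k153 k221 k204 9 14)))), (.s k17 k34 4 (.s k93 k81 1 (.s k12 k174 12 (.s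
  k8 k4 1 (.s k25 k38 6 (.s k21 k29 1 (.d k42 k59 k63 4 6))))))), (.s k93 k81 1 (.s k12 k174 12 (.s
  k25 k38 6 (.s k119 k187 9 (.s k102 k68 4 (.d k153 k217 k204 7 14))))))] (.c k102 (.l (.s k93 k81 1
  (.s k12 k174 12 (.s k25 k38 6 (.s k153 k217 7 (.d k17 k34 k221 4 9)))))) .n)) (.c k247 (.q k1 [(.s
  k169 k253 13 (.s k3 k2 0 (.s k86 k252 14 (.d k87 k84 k171 0 13)))), (.s k81 k93 1 (.s k169 k253 13
  (.s k9 k249 11 (.s k13 k5 1 (.d k241 k161 k165 11 13))))), (.s k3 k2 0 (.s k81 k93 1 (.s k161 k241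
  11 (.s k82 k240 12 (.s k83 k80 0 (.d k243 k163 k162 11 12))))))] .n) (.c k251 (.l (.s k93 k81 1
  (.s k12 k174 12 (.s k4 k8 1 (.d k166 k247 k243 12 14))))) .n))))))))))))

def t26_122 : T TT 256 :=
  (.f k255 k170 14 (.q k105 [(.s k65 k125 5 (.s k195 k130 8 (.s k150 k60 14 (.d k215 k235 k20 5
  8))))] (.c k20 (.q k1 [(.s k169 k253 13 (.s k3 k2 0 (.s k86 k252 14 (.d k87 k84 k171 0 13)))), (.s
  k65 k125 5 (.s k169 k253 13 (.s k41 k233 7 (.s k61 k21 5 (.d k193 k129 k149 7 13))))), (.s k3 k2 0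
  (.s k65 k125 5 (.s k129 k193 7 (.s k66 k192 8 (.s k67 k64 0 (.d k195 k131 k130 7 8))))))] .n) (.c
  k60 (.q k1 [(.s k3 k2 0 (.s k87 k171 13 (.s k86 k84 0 (.d k169 k253 k252 13 14)))), (.s k65 k125 5
  (.s k169 k253 13 (.s k41 k233 7 (.s k61 k21 5 (.d k193 k129 k149 7 13))))), (.s k3 k2 0 (.s k65
  k125 5 (.s k129 k193 7 (.s k66 k192 8 (.s k67 k64 0 (.d k195 k131 k130 7 8))))))] .n) (.c k65 (.q
  k1 [(.s k169 k253 13 (.s k3 k2 0 (.s k86 k252 14 (.d k87 k84 k171 0 13)))), (.s k169 k253 13 (.s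
  k41 k233 7 (.s k21 k61 5 (.s k63 k42 6 (.s k127 k191 7 (.s k106 k64 6 (.d k149 k213 k192 7
  14)))))))] (.c k169 (.f k3 k2 0 (.q k86 [(.d k87 k171 k84 13 0), (.s k67 k124 6 (.s k195 k131 7
  (.s k150 k60 14 (.d k215 k235 k20 5 8))))] (.c k168 (.l (.s k171 k87 13 (.s k67 k124 6 (.s k195
  k131 7 (.s k150 k60 14 (.d k215 k235 k20 5 8)))))) (.c k171 (.q k168 [(.d k84 k87 k252 0 13), (.s
  k67 k124 6 (.s k195 k131 7 (.s k215 k235 5 (.d k150 k20 k60 8 14))))] .n) .n)))) (.c k253 (.l (.s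
  k3 k2 0 (.s k87 k171 13 (.s k86 k84 0 (.s k67 k124 6 (.s k195 k131 7 (.s k150 k60 14 (.d k215 k235
  k20 5 8)))))))) .n))) (.c k125 (.q k253 [(.s k169 k1 13 (.s k252 k254 0 (.s k84 k168 13 (.d k86
  k87 k3 0 14)))), (.s k169 k1 13 (.s k233 k41 7 (.s k213 k193 5 (.s k192 k234 6 (.s k64 k128 7 (.s
  k106 k127 6 (.d k149 k21 k63 7 14)))))))] (.c k1 (.l (.s k252 k254 0 (.s k84 k168 13 (.s k86 k87 0
  (.s k124 k67 6 (.s k60 k188 7 (.s k20 k40 5 (.d k150 k215 k195 8 14)))))))) (.c k169 (.f k252 k254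
  0 (.q k86 [(.d k84 k168 k87 13 0), (.s k124 k67 6 (.s k60 k188 7 (.s k20 k40 5 (.d k150 k215 k195
  8 14))))] (.c k168 (.q k171 [(.d k87 k84 k3 0 13), (.s k124 k67 6 (.s k60 k188 7 (.s k20 k40 5 (.d
  k150 k215 k195 8 14))))] .n) (.c k171 (.l (.s k168 k84 13 (.s k124 k67 6 (.s k60 k188 7 (.s k20
  k40 5 (.d k150 k215 k195 8 14)))))) .n)))) .n))) (.c k130 (.l (.s k125 k65 5 (.s k60 k190 8 (.s
  k150 k195 14 (.d k20 k40 k215 5 8))))) (.c k150 (.f k125 k65 5 (.q k86 [(.s k84 k87 0 (.s k252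
  k168 13 (.s k169 k3 14 (.d k253 k254 k1 0 13)))), (.s k124 k67 6 (.s k127 k126 0 (.s k63 k191 7
  (.s k21 k42 6 (.s k149 k213 7 (.d k106 k64 k192 6 14))))))] (.c k130 (.l (.s k190 k60 8 (.s k84
  k87 0 (.s k124 k67 6 (.s k64 k104 5 (.d k127 k126 k106 0 6)))))) (.c k190 (.q k130 [(.s k84 k87 0
  (.s k252 k168 13 (.s k169 k3 14 (.d k253 k254 k1 0 13)))), (.s k124 k67 6 (.s k127 k126 0 (.s k63
  k191 7 (.s k21 k42 6 (.s k149 k213 7 (.d k106 k64 k192 6 14))))))] (.c k254 (.l (.s k84 k87 0 (.s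
  k124 k67 6 (.s k64 k104 5 (.d k127 k126 k106 0 6))))) .n)) .n)))) (.c k190 (.l (.s k65 k125 5 (.s
  k195 k130 8 (.s k150 k60 14 (.d k215 k235 k20 5 8))))) (.c k195 (.q k1 [(.s k3 k2 0 (.s k87 k171
  13 (.s k86 k84 0 (.d k169 k253 k252 13 14)))), (.s k65 k125 5 (.s k169 k253 13 (.s k41 k233 7 (.s
  k61 k21 5 (.d k193 k129 k149 7 13))))), (.s k3 k2 0 (.s k125 k65 5 (.s k60 k190 8 (.s k40 k20 5
  (.s k41 k22 6 (.s k21 k61 5 (.d k42 k43 k63 0 6)))))))] .n) (.c k215 (.q k1 [(.s k169 k253 13 (.s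
  k3 k2 0 (.s k86 k252 14 (.d k87 k84 k171 0 13)))), (.s k65 k125 5 (.s k169 k253 13 (.s k41 k233 7
  (.s k61 k21 5 (.d k193 k129 k149 7 13))))), (.s k3 k2 0 (.s k65 k125 5 (.s k129 k193 7 (.s k66
  k192 8 (.s k67 k64 0 (.d k195 k131 k130 7 8))))))] .n) (.c k235 (.l (.s k125 k65 5 (.s k60 k190 8
  (.s k20 k40 5 (.d k150 k215 k195 8 14))))) .n))))))))))))

def t26_123 : T TT 256 :=
  (.f k255 k170 14 (.q k105 [(.s k65 k125 5 (.s k195 k130 8 (.s k150 k60 14 (.d k215 k235 k20 5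
  8))))] (.c k20 (.q k1 [(.s k169 k253 13 (.s k3 k2 0 (.s k86 k252 14 (.d k87 k84 k171 0 13)))), (.s
  k65 k125 5 (.s k169 k253 13 (.s k41 k233 7 (.s k61 k21 5 (.d k193 k129 k149 7 13))))), (.s k3 k2 0
  (.s k65 k125 5 (.s k129 k193 7 (.s k66 k192 8 (.s k67 k64 0 (.d k195 k131 k130 7 8))))))] .n) (.c
  k60 (.q k1 [(.s k3 k2 0 (.s k87 k171 13 (.s k86 k84 0 (.d k169 k253 k252 13 14)))), (.s k65 k125 5
  (.s k169 k253 13 (.s k41 k233 7 (.s k61 k21 5 (.d k193 k129 k149 7 13))))), (.s k3 k2 0 (.s k65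
  k125 5 (.s k129 k193 7 (.s k66 k192 8 (.s k67 k64 0 (.d k195 k131 k130 7 8))))))] .n) (.c k65 (.q
  k1 [(.s k169 k253 13 (.s k3 k2 0 (.s k86 k252 14 (.d k87 k84 k171 0 13)))), (.s k169 k253 13 (.s
  k41 k233 7 (.s k21 k61 5 (.s k63 k42 6 (.s k127 k191 7 (.s k106 k64 6 (.d k149 k213 k192 7
  14)))))))] (.c k169 (.f k3 k2 0 (.q k86 [(.d k87 k171 k84 13 0), (.s k67 k124 6 (.s k195 k131 7
  (.s k150 k60 14 (.d k215 k235 k20 5 8))))] (.c k168 (.l (.s k171 k87 13 (.s k67 k124 6 (.s k195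
  k131 7 (.s k150 k60 14 (.d k215 k235 k20 5 8)))))) (.c k171 (.q k168 [(.d k84 k87 k252 0 13), (.s
  k67 k124 6 (.s k195 k131 7 (.s k215 k235 5 (.d k150 k20 k60 8 14))))] .n) .n)))) (.c k253 (.l (.s
  k3 k2 0 (.s k87 k171 13 (.s k86 k84 0 (.s k67 k124 6 (.s k195 k131 7 (.s k150 k60 14 (.d k215 k235
  k20 5 8)))))))) .n))) (.c k125 (.q k253 [(.s k169 k1 13 (.s k252 k254 0 (.s k84 k168 13 (.d k86
  k87 k3 0 14)))), (.s k169 k1 13 (.s k233 k41 7 (.s k213 k193 5 (.s k192 k234 6 (.s k64 k128 7 (.s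
  k106 k127 6 (.d k149 k21 k63 7 14)))))))] (.c k1 (.l (.s k252 k254 0 (.s k84 k168 13 (.s k86 k87 0
  (.s k124 k67 6 (.s k60 k188 7 (.s k20 k40 5 (.d k150 k215 k195 8 14)))))))) (.c k169 (.f k252 k254
  0 (.q k86 [(.d k84 k168 k87 13 0), (.s k124 k67 6 (.s k60 k188 7 (.s k20 k40 5 (.d k150 k215 k195
  8 14))))] (.c k168 (.q k171 [(.d k87 k84 k3 0 13), (.s k124 k67 6 (.s k60 k188 7 (.s k20 k40 5 (.d
  k150 k215 k195 8 14))))] .n) (.c k171 (.l (.s k168 k84 13 (.s k124 k67 6 (.s k60 k188 7 (.s k20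
  k40 5 (.d k150 k215 k195 8 14)))))) .n)))) .n))) (.c k130 (.l (.s k125 k65 5 (.s k60 k190 8 (.s
  k150 k195 14 (.d k20 k40 k215 5 8))))) (.c k150 (.f k125 k65 5 (.q k109 [(.s k77 k93 3 (.s k101
  k97 1 (.s k117 k69 3 (.d k113 k121 k89 1 5)))), (.s k93 k77 3 (.s k12 k174 12 (.s k4 k8 1 (.s k166
  k247 12 (.d k89 k81 k243 1 14))))), (.s k101 k97 1 (.s k69 k117 3 (.s k207 k138 10 (.d k60 k190
  k158 8 12))))] (.c k69 (.l (.s k77 k93 3 (.s k101 k97 1 (.s k113 k89 5 (.s k117 k121 1 (.s k48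
  k186 10 (.s k16 k32 3 (.d k154 k223 k207 10 14)))))))) (.c k81 (.l (.s k77 k93 3 (.s k101 k97 1
  (.s k113 k89 5 (.d k117 k121 k69 1 3))))) (.c k130 (.l (.s k190 k60 8 (.s k77 k93 3 (.s k101 k97 1
  (.s k113 k89 5 (.d k117 k121 k69 1 3)))))) (.c k190 (.q k130 [(.s k77 k93 3 (.s k101 k97 1 (.s
  k117 k69 3 (.d k113 k121 k89 1 5)))), (.s k93 k77 3 (.s k12 k174 12 (.s k4 k8 1 (.s k166 k247 12
  (.d k89 k81 k243 1 14))))), (.s k101 k97 1 (.s k69 k117 3 (.s k207 k138 10 (.s k154 k48 14 (.d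
  k223 k239 k16 3 10)))))] (.c k69 (.l (.s k77 k93 3 (.s k101 k97 1 (.s k113 k89 5 (.s k117 k121 1
  (.s k48 k186 10 (.s k16 k32 3 (.d k154 k223 k207 10 14)))))))) (.c k81 (.l (.s k77 k93 3 (.s k101
  k97 1 (.s k113 k89 5 (.d k117 k121 k69 1 3))))) .n))) .n)))))) (.c k190 (.l (.s k65 k125 5 (.s
  k195 k130 8 (.s k150 k60 14 (.d k215 k235 k20 5 8))))) (.c k195 (.q k1 [(.s k3 k2 0 (.s k87 k171
  13 (.s k86 k84 0 (.d k169 k253 k252 13 14)))), (.s k65 k125 5 (.s k169 k253 13 (.s k41 k233 7 (.s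
  k61 k21 5 (.d k193 k129 k149 7 13))))), (.s k3 k2 0 (.s k125 k65 5 (.s k60 k190 8 (.s k40 k20 5
  (.s k41 k22 6 (.s k21 k61 5 (.d k42 k43 k63 0 6)))))))] .n) (.c k215 (.q k1 [(.s k169 k253 13 (.s
  k3 k2 0 (.s k86 k252 14 (.d k87 k84 k171 0 13)))), (.s k65 k125 5 (.s k169 k253 13 (.s k41 k233 7
  (.s k61 k21 5 (.d k193 k129 k149 7 13))))), (.s k3 k2 0 (.s k65 k125 5 (.s k129 k193 7 (.s k66
  k192 8 (.s k67 k64 0 (.d k195 k131 k130 7 8))))))] .n) (.c k235 (.l (.s k125 k65 5 (.s k60 k190 8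
  (.s k20 k40 5 (.d k150 k215 k195 8 14))))) .n))))))))))))

def t26_127 : T TT 256 :=
  (.f k255 k170 14 (.q k89 [(.s k93 k81 1 (.s k12 k174 12 (.s k4 k8 1 (.d k166 k247 k243 12 14))))]
  (.c k4 (.q k1 [(.s k169 k253 13 (.s k3 k2 0 (.s k86 k252 14 (.d k87 k84 k171 0 13)))), (.s k81 k93
  1 (.s k169 k253 13 (.s k9 k249 11 (.s k13 k5 1 (.d k241 k161 k165 11 13))))), (.s k3 k2 0 (.s k81
  k93 1 (.s k161 k241 11 (.s k82 k240 12 (.s k83 k80 0 (.d k243 k163 k162 11 12))))))] .n) (.c k8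
  (.l (.s k81 k93 1 (.s k243 k162 12 (.s k166 k12 14 (.d k247 k251 k4 1 12))))) (.c k12 (.q k1 [(.s
  k3 k2 0 (.s k87 k171 13 (.s k86 k84 0 (.d k169 k253 k252 13 14)))), (.s k81 k93 1 (.s k169 k253 13
  (.s k9 k249 11 (.s k13 k5 1 (.d k241 k161 k165 11 13))))), (.s k3 k2 0 (.s k81 k93 1 (.s k161 k241
  11 (.s k82 k240 12 (.s k83 k80 0 (.d k243 k163 k162 11 12))))))] .n) (.c k81 (.q k1 [(.s k169 k253
  13 (.s k3 k2 0 (.s k86 k252 14 (.d k87 k84 k171 0 13)))), (.s k169 k253 13 (.s k9 k249 11 (.s k5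
  k13 1 (.s k15 k10 2 (.s k95 k175 11 (.s k90 k80 2 (.d k165 k245 k240 11 14)))))))] (.c k169 (.f k3
  k2 0 (.q k86 [(.d k87 k171 k84 13 0), (.s k83 k92 2 (.s k243 k163 11 (.s k166 k12 14 (.d k247 k251
  k4 1 12))))] (.c k168 (.l (.s k171 k87 13 (.s k83 k92 2 (.s k243 k163 11 (.s k166 k12 14 (.d k247
  k251 k4 1 12)))))) (.c k171 (.q k168 [(.d k84 k87 k252 0 13), (.s k83 k92 2 (.s k243 k163 11 (.s
  k247 k251 1 (.d k166 k4 k12 12 14))))] .n) .n)))) (.c k253 (.l (.s k3 k2 0 (.s k87 k171 13 (.s k86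
  k84 0 (.s k83 k92 2 (.s k243 k163 11 (.s k166 k12 14 (.d k247 k251 k4 1 12)))))))) .n))) (.c k93
  (.q k204 [(.s k68 k136 9 (.s k221 k238 4 (.s k153 k17 9 (.d k102 k119 k51 4 14)))), (.s k221 k238
  4 (.s k153 k17 9 (.s k217 k25 7 (.s k243 k230 6 (.s k247 k251 1 (.d k166 k4 k12 12 14)))))), (.s
  k68 k136 9 (.s k102 k119 4 (.s k153 k51 14 (.s k217 k25 7 (.s k243 k230 6 (.s k12 k166 14 (.d k76
  k115 k140 6 7)))))))] (.c k76 (.q k110 [(.s k68 k136 9 (.s k221 k238 4 (.s k153 k17 9 (.d k102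
  k119 k51 4 14)))), (.s k63 k157 12 (.s k21 k42 6 (.s k149 k213 7 (.s k29 k209 9 (.s k46 k12 4 (.d
  k238 k221 k174 4 7)))))), (.s k68 k136 9 (.s k102 k119 4 (.s k106 k98 1 (.s k153 k51 14 (.s k200
  k59 12 (.s k192 k196 1 (.d k63 k157 k149 12 14)))))))] .n) (.c k102 (.q k76 [(.s k12 k140 7 (.s k4
  k8 1 (.d k166 k247 k243 12 14))), (.s k68 k136 9 (.s k64 k72 1 (.s k192 k128 7 (.s k213 k234 6 (.s
  k149 k21 7 (.s k209 k29 9 (.d k221 k238 k217 4 1)))))))] (.c k8 (.l (.s k12 k140 7 (.s k68 k136 9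
  (.s k72 k64 1 (.s k132 k192 9 (.s k4 k196 7 (.d k166 k247 k243 12 14))))))) (.c k34 (.l (.s k238
  k221 4 (.s k12 k140 7 (.s k4 k8 1 (.d k166 k247 k243 12 14))))) (.c k140 (.q k200 [(.s k68 k136 9
  (.s k64 k72 1 (.d k192 k128 k196 7 1))), (.s k192 k196 1 (.s k213 k234 6 (.s k149 k21 7 (.s k209
  k29 9 (.d k221 k238 k217 4 1))))), (.s k136 k68 9 (.s k72 k8 7 (.s k106 k123 4 (.s k153 k59 12 (.d
  k221 k238 k17 4 9)))))] (.c k34 (.l (.s k238 k221 4 (.s k68 k136 9 (.s k64 k72 1 (.d k192 k128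
  k196 7 1))))) (.c k238 (.q k34 [(.s k68 k136 9 (.s k64 k72 1 (.d k192 k128 k196 7 1))), (.s k17
  k51 4 (.s k153 k221 9 (.s k192 k196 1 (.s k217 k25 7 (.d k234 k251 k213 4 6))))), (.s k17 k51 4
  (.s k136 k68 9 (.s k72 k8 7 (.s k106 k123 4 (.d k153 k221 k59 9 12)))))] (.c k153 (.l (.s k192
  k196 1 (.s k64 k128 7 (.d k68 k136 k72 9 1)))) .n)) .n))) (.c k238 (.q k34 [(.s k12 k140 7 (.s k4
  k8 1 (.d k166 k247 k243 12 14))), (.s k51 k17 4 (.s k68 k136 9 (.s k64 k72 1 (.s k192 k128 7 (.s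
  k98 k145 12 (.s k81 k115 4 (.d k162 k226 k243 7 12))))))), (.s k17 k51 4 (.s k153 k221 9 (.s k217
  k25 7 (.s k243 k230 6 (.s k247 k251 1 (.d k166 k12 k4 14 12))))))] (.c k243 (.l (.s k12 k140 7 (.s
  k4 k8 1 (.s k68 k136 9 (.s k72 k64 1 (.d k132 k196 k192 7 9)))))) .n)) .n))))) (.c k110 (.q k76
  [(.s k102 k115 6 (.d k68 k119 k136 4 9)), (.s k12 k140 7 (.s k4 k8 1 (.d k166 k247 k243 12 14)))]
  .n) (.c k153 (.q k76 [(.s k102 k115 6 (.d k68 k119 k136 4 9)), (.s k12 k140 7 (.s k4 k8 1 (.d k166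
  k247 k243 12 14)))] (.c k136 (.q k187 [(.s k102 k115 6 (.d k119 k68 k51 4 9)), (.s k12 k140 7 (.s
  k4 k8 1 (.d k166 k247 k243 12 14)))] .n) (.c k187 (.l (.s k136 k68 9 (.s k12 k140 7 (.s k4 k8 1
  (.d k166 k247 k243 12 14))))) .n))) .n))))) (.c k162 (.l (.s k93 k81 1 (.s k12 k174 12 (.s k166
  k243 14 (.d k4 k8 k247 1 12))))) (.c k166 (.f k93 k81 1 (.q k125 [(.s k60 k190 8 (.s k20 k40 5 (.s
  k150 k215 8 (.d k105 k65 k195 5 14)))), (.s k77 k109 3 (.s k101 k113 5 (.s k69 k117 3 (.d k65 k73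
  k105 1 5)))), (.s k60 k190 8 (.s k109 k77 3 (.s k158 k207 12 (.s k28 k223 8 (.d k12 k174 k44 12
  3)))))] (.c k162 (.l (.s k174 k12 12 (.s k60 k190 8 (.s k20 k40 5 (.s k105 k65 5 (.d k150 k215
  k195 8 14)))))) (.c k174 (.q k162 [(.s k60 k190 8 (.s k20 k40 5 (.s k150 k215 8 (.d k105 k65 k195
  5 14)))), (.s k77 k109 3 (.s k101 k113 5 (.s k69 k117 3 (.d k65 k73 k105 1 5)))), (.s k60 k190 8
  (.s k109 k77 3 (.s k158 k207 12 (.s k28 k223 8 (.s k150 k211 10 (.d k20 k215 k40 8 5))))))] .n)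
  .n)))) (.c k174 (.l (.s k81 k93 1 (.s k243 k162 12 (.s k166 k12 14 (.d k247 k251 k4 1 12))))) (.c
  k243 (.q k1 [(.s k3 k2 0 (.s k87 k171 13 (.s k86 k84 0 (.d k169 k253 k252 13 14)))), (.s k81 k93 1
  (.s k169 k253 13 (.s k9 k249 11 (.s k13 k5 1 (.d k241 k161 k165 11 13))))), (.s k3 k2 0 (.s k93
  k81 1 (.s k12 k174 12 (.s k8 k4 1 (.s k9 k6 2 (.s k5 k13 1 (.d k10 k11 k15 0 2)))))))] .n) (.c
  k247 (.q k1 [(.s k169 k253 13 (.s k3 k2 0 (.s k86 k252 14 (.d k87 k84 k171 0 13)))), (.s k81 k93 1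
  (.s k169 k253 13 (.s k9 k249 11 (.s k13 k5 1 (.d k241 k161 k165 11 13))))), (.s k3 k2 0 (.s k81
  k93 1 (.s k161 k241 11 (.s k82 k240 12 (.s k83 k80 0 (.d k243 k163 k162 11 12))))))] .n)
  .n))))))))))))

def t26_135 : T TT 256 :=
  (.f k255 k170 14 (.q k89 [(.s k81 k93 1 (.s k243 k162 12 (.s k166 k12 14 (.d k247 k251 k4 1
  12))))] (.c k4 (.q k1 [(.s k169 k253 13 (.s k3 k2 0 (.s k86 k252 14 (.d k87 k84 k171 0 13)))), (.s
  k81 k93 1 (.s k169 k253 13 (.s k9 k249 11 (.s k13 k5 1 (.d k241 k161 k165 11 13))))), (.s k3 k2 0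
  (.s k81 k93 1 (.s k161 k241 11 (.s k82 k240 12 (.s k83 k80 0 (.d k243 k163 k162 11 12))))))] .n)
  (.c k12 (.q k1 [(.s k3 k2 0 (.s k87 k171 13 (.s k86 k84 0 (.d k169 k253 k252 13 14)))), (.s k81
  k93 1 (.s k169 k253 13 (.s k9 k249 11 (.s k13 k5 1 (.d k241 k161 k165 11 13))))), (.s k3 k2 0 (.s
  k81 k93 1 (.s k161 k241 11 (.s k82 k240 12 (.s k83 k80 0 (.d k243 k163 k162 11 12))))))] .n) (.c
  k81 (.q k87 [(.s k86 k84 0 (.s k3 k171 13 (.s k169 k252 14 (.d k1 k2 k253 0 13)))), (.s k86 k84 0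
  (.s k83 k92 2 (.s k95 k91 1 (.s k15 k175 11 (.s k5 k10 2 (.s k165 k245 11 (.d k90 k80 k240 2
  14)))))))] (.c k84 (.l (.s k3 k171 13 (.s k1 k2 0 (.s k169 k253 13 (.s k9 k249 11 (.s k12 k6 2 (.s
  k4 k8 1 (.d k166 k247 k243 12 14)))))))) (.c k86 (.f k3 k171 13 (.q k169 [(.d k1 k2 k253 0 13),
  (.s k9 k249 11 (.s k12 k6 2 (.s k4 k8 1 (.d k166 k247 k243 12 14))))] (.c k2 (.q k254 [(.d k253
  k252 k1 0 13), (.s k9 k249 11 (.s k12 k6 2 (.s k4 k8 1 (.d k166 k247 k243 12 14))))] .n) (.c k254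
  (.l (.s k2 k1 0 (.s k9 k249 11 (.s k12 k6 2 (.s k4 k8 1 (.d k166 k247 k243 12 14)))))) .n))))
  .n))) (.c k93 (.q k68 [(.s k102 k119 4 (.s k204 k136 9 (.s k153 k51 14 (.d k221 k238 k17 4 9)))),
  (.s k102 k119 4 (.s k76 k115 6 (.s k64 k72 1 (.s k192 k128 7 (.s k213 k234 6 (.s k149 k21 7 (.d
  k106 k127 k63 6 14)))))))] (.c k102 (.f k204 k136 9 (.q k153 [(.d k221 k238 k17 4 9), (.s k217 k25
  7 (.s k243 k230 6 (.s k166 k12 14 (.d k247 k251 k4 1 12))))] (.c k34 (.l (.s k238 k221 4 (.s k217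
  k25 7 (.s k243 k230 6 (.s k166 k12 14 (.d k247 k251 k4 1 12)))))) (.c k238 (.q k34 [(.d k17 k51
  k221 4 9), (.s k217 k25 7 (.s k243 k230 6 (.s k247 k251 1 (.d k166 k4 k12 12 14))))] .n) .n))))
  (.c k119 (.l (.s k204 k136 9 (.s k221 k238 4 (.s k153 k17 9 (.s k217 k25 7 (.s k243 k230 6 (.s
  k166 k12 14 (.d k247 k251 k4 1 12)))))))) .n))) (.c k162 (.l (.s k93 k81 1 (.s k12 k174 12 (.s
  k166 k243 14 (.d k4 k8 k247 1 12))))) (.c k166 (.f k81 k93 1 (.q k83 [(.s k80 k82 0 (.s k86 k92 2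
  (.s k87 k84 0 (.d k95 k91 k90 1 2)))), (.s k80 k82 0 (.s k240 k160 11 (.s k245 k250 2 (.s k165 k5
  11 (.s k241 k13 13 (.d k243 k162 k242 12 0)))))), (.s k86 k92 2 (.s k84 k87 0 (.s k252 k168 13 (.s
  k169 k3 14 (.d k253 k254 k1 0 13)))))] (.c k162 (.q k174 [(.s k86 k92 2 (.s k87 k84 0 (.s k95 k91
  1 (.d k80 k82 k90 0 2)))), (.s k80 k82 0 (.s k240 k160 11 (.s k245 k250 2 (.s k165 k5 11 (.d k90
  k95 k15 2 14))))), (.s k86 k92 2 (.s k84 k87 0 (.s k252 k168 13 (.s k169 k3 14 (.d k253 k254 k1 0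
  13)))))] (.c k95 (.l (.s k82 k80 0 (.s k86 k92 2 (.s k94 k90 1 (.s k84 k87 0 (.s k252 k168 13 (.d
  k254 k14 k253 11 0))))))) .n)) (.c k174 (.l (.s k162 k243 12 (.s k80 k82 0 (.s k86 k92 2 (.s k87
  k84 0 (.d k95 k91 k90 1 2)))))) .n)))) (.c k174 (.l (.s k81 k93 1 (.s k243 k162 12 (.s k166 k12 14
  (.d k247 k251 k4 1 12))))) (.c k243 (.q k1 [(.s k3 k2 0 (.s k87 k171 13 (.s k86 k84 0 (.d k169
  k253 k252 13 14)))), (.s k81 k93 1 (.s k169 k253 13 (.s k9 k249 11 (.s k13 k5 1 (.d k241 k161 k165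
  11 13))))), (.s k3 k2 0 (.s k93 k81 1 (.s k12 k174 12 (.s k8 k4 1 (.s k9 k6 2 (.s k5 k13 1 (.d k10
  k11 k15 0 2)))))))] .n) (.c k247 (.q k1 [(.s k169 k253 13 (.s k3 k2 0 (.s k86 k252 14 (.d k87 k84
  k171 0 13)))), (.s k81 k93 1 (.s k169 k253 13 (.s k9 k249 11 (.s k13 k5 1 (.d k241 k161 k165 11
  13))))), (.s k3 k2 0 (.s k81 k93 1 (.s k161 k241 11 (.s k82 k240 12 (.s k83 k80 0 (.d k243 k163
  k162 11 12))))))] .n) (.c k251 (.l (.s k93 k81 1 (.s k12 k174 12 (.s k4 k8 1 (.d k166 k247 k243 12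
  14))))) .n))))))))))))

/-- roots with certificates -/
def certs : List (Cell TT 256 × Cell TT 256 × T TT 256) :=
  [(k15, k166, t15_166), (k15, k167, t15_167), (k15, k171, t15_171), (k15, k175, t15_175), (k15,
  k177, t15_177), (k15, k178, t15_178), (k15, k179, t15_179), (k15, k182, t15_182), (k15, k183,
  t15_183), (k15, k186, t15_186), (k15, k187, t15_187), (k15, k191, t15_191), (k15, k240, t15_240),
  (k15, k241, t15_241), (k15, k242, t15_242), (k15, k246, t15_246), (k15, k247, t15_247), (k15,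
  k250, t15_250), (k15, k251, t15_251), (k26, k27, t26_27), (k26, k31, t26_31), (k26, k38, t26_38),
  (k26, k39, t26_39), (k26, k42, t26_42), (k26, k43, t26_43), (k26, k47, t26_47), (k26, k54,
  t26_54), (k26, k55, t26_55), (k26, k58, t26_58), (k26, k59, t26_59), (k26, k63, t26_63), (k26,
  k74, t26_74), (k26, k75, t26_75), (k26, k79, t26_79), (k26, k98, t26_98), (k26, k99, t26_99),
  (k26, k106, t26_106), (k26, k107, t26_107), (k26, k111, t26_111), (k26, k114, t26_114), (k26,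
  k115, t26_115), (k26, k122, t26_122), (k26, k123, t26_123), (k26, k127, t26_127), (k26, k135,
  t26_135)]

theorem c15_166 : rootOK k15 k166 t15_166 = true := by decide +kernel

theorem c15_167 : rootOK k15 k167 t15_167 = true := by decide +kernel

theorem c15_171 : rootOK k15 k171 t15_171 = true := by decide +kernel

theorem c15_175 : rootOK k15 k175 t15_175 = true := by decide +kernel

theorem c15_177 : rootOK k15 k177 t15_177 = true := by decide +kernel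

theorem c15_178 : rootOK k15 k178 t15_178 = true := by decide +kernel

theorem c15_179 : rootOK k15 k179 t15_179 = true := by decide +kernel

theorem c15_182 : rootOK k15 k182 t15_182 = true := by decide +kernel

theorem c15_183 : rootOK k15 k183 t15_183 = true := by decide +kernel

theorem c15_186 : rootOK k15 k186 t15_186 = true := by decide +kernel

theorem c15_187 : rootOK k15 k187 t15_187 = true := by decide +kernel

theorem c15_191 : rootOK k15 k191 t15_191 = true := by decide +kernel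

theorem c15_240 : rootOK k15 k240 t15_240 = true := by decide +kernel

theorem c15_241 : rootOK k15 k241 t15_241 = true := by decide +kernel

theorem c15_242 : rootOK k15 k242 t15_242 = true := by decide +kernel

theorem c15_246 : rootOK k15 k246 t15_246 = true := by decide +kernel

theorem c15_247 : rootOK k15 k247 t15_247 = true := by decide +kernel

theorem c15_250 : rootOK k15 k250 t15_250 = true := by decide +kernel

theorem c15_251 : rootOK k15 k251 t15_251 = true := by decide +kernel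

theorem c26_27 : rootOK k26 k27 t26_27 = true := by decide +kernel

theorem c26_31 : rootOK k26 k31 t26_31 = true := by decide +kernel

theorem c26_38 : rootOK k26 k38 t26_38 = true := by decide +kernel

theorem c26_39 : rootOK k26 k39 t26_39 = true := by decide +kernel

theorem c26_42 : rootOK k26 k42 t26_42 = true := by decide +kernel

theorem c26_43 : rootOK k26 k43 t26_43 = true := by decide +kernel

theorem c26_47 : rootOK k26 k47 t26_47 = true := by decide +kernel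

theorem c26_54 : rootOK k26 k54 t26_54 = true := by decide +kernel

theorem c26_55 : rootOK k26 k55 t26_55 = true := by decide +kernel

theorem c26_58 : rootOK k26 k58 t26_58 = true := by decide +kernel

theorem c26_59 : rootOK k26 k59 t26_59 = true := by decide +kernel

theorem c26_63 : rootOK k26 k63 t26_63 = true := by decide +kernel

theorem c26_74 : rootOK k26 k74 t26_74 = true := by decide +kernel

theorem c26_75 : rootOK k26 k75 t26_75 = true := by decide +kernel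

theorem c26_79 : rootOK k26 k79 t26_79 = true := by decide +kernel

theorem c26_98 : rootOK k26 k98 t26_98 = true := by decide +kernel

theorem c26_99 : rootOK k26 k99 t26_99 = true := by decide +kernel

theorem c26_106 : rootOK k26 k106 t26_106 = true := by decide +kernel

theorem c26_107 : rootOK k26 k107 t26_107 = true := by decide +kernel

theorem c26_111 : rootOK k26 k111 t26_111 = true := by decide +kernel

theorem c26_114 : rootOK k26 k114 t26_114 = true := by decide +kernel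

theorem c26_115 : rootOK k26 k115 t26_115 = true := by decide +kernel

theorem c26_122 : rootOK k26 k122 t26_122 = true := by decide +kernel

theorem c26_123 : rootOK k26 k123 t26_123 = true := by decide +kernel

theorem c26_127 : rootOK k26 k127 t26_127 = true := by decide +kernel

theorem c26_135 : rootOK k26 k135 t26_135 = true := by decide +kernel

theorem ok : certsOK certs = true :=
  certsOK_cons c15_166 (certsOK_cons c15_167 (certsOK_cons c15_171 (certsOK_cons c15_175 (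
  certsOK_cons c15_177 (certsOK_cons c15_178 (certsOK_cons c15_179 (certsOK_cons c15_182 (
  certsOK_cons c15_183 (certsOK_cons c15_186 (certsOK_cons c15_187 (certsOK_cons c15_191 (
  certsOK_cons c15_240 (certsOK_cons c15_241 (certsOK_cons c15_242 (certsOK_cons c15_246 (
  certsOK_cons c15_247 (certsOK_cons c15_250 (certsOK_cons c15_251 (certsOK_cons c26_27 (
  certsOK_cons c26_31 (certsOK_cons c26_38 (certsOK_cons c26_39 (certsOK_cons c26_42 (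
  certsOK_cons c26_43 (certsOK_cons c26_47 (certsOK_cons c26_54 (certsOK_cons c26_55 (
  certsOK_cons c26_58 (certsOK_cons c26_59 (certsOK_cons c26_63 (certsOK_cons c26_74 (
  certsOK_cons c26_75 (certsOK_cons c26_79 (certsOK_cons c26_98 (certsOK_cons c26_99 (
  certsOK_cons c26_106 (certsOK_cons c26_107 (certsOK_cons c26_111 (certsOK_cons c26_114 (
  certsOK_cons c26_115 (certsOK_cons c26_122 (certsOK_cons c26_123 (certsOK_cons c26_127 (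
  certsOK_cons c26_135 (certsOK_nil)))))))))))))))))))))))))))))))))))))))))))))

theorem sound (k : Nat) (hk : (bits certs).testBit k = true) : PI k :=
  certs_sound certs ok k hk

end Pool.Agent.TTT.A14
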