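import Pool.Agent.TTT.Sym

set_option autoImplicit false
set_option maxRecDepth 100000

namespace Pool.Agent.TTT.A15

def t26_138 : T TT 256 :=
  (.f k170 k255 14 (.q k252 [(.s k84 k168 13 (.s k86 k87 0 (.s k2 k254 13 (.d k3 k1 k169 0 14))))]
  (.c k1 (.q k4 [(.s k12 k8 1 (.s k166 k247 12 (.s k162 k174 1 (.d k243 k81 k89 12 14)))), (.s k84
  k168 13 (.s k86 k87 0 (.s k166 k247 12 (.s k6 k246 11 (.s k7 k5 0 (.d k244 k164 k165 11 12)))))),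
  (.s k12 k8 1 (.s k84 k168 13 (.s k92 k172 11 (.s k88 k80 1 (.d k164 k244 k240 11 13)))))] .n) (.c
  k2 (.f k84 k168 13 (.f k86 k87 0 (.f k3 k169 14 (.q k70 [(.s k102 k118 3 (.s k204 k137 10 (.d k68
  k136 k119 9 4))), (.s k102 k118 3 (.s k68 k119 4 (.s k71 k69 0 (.d k116 k100 k101 3 4)))), (.s
  k102 k118 3 (.s k34 k238 9 (.s k51 k17 4 (.d k204 k137 k153 10 14)))), (.s k204 k137 10 (.s k136
  k68 9 (.s k153 k187 4 (.d k220 k236 k19 3 10))))] .n)))) (.c k3 (.f k168 k84 13 (.q k240 [(.s k80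
  k160 11 (.s k90 k95 2 (.s k10 k250 11 (.d k15 k5 k165 2 14)))), (.s k248 k244 1 (.s k8 k88 11 (.s
  k89 k251 12 (.s k81 k93 1 (.s k243 k162 12 (.d k12 k4 k166 1 14))))))] (.c k80 (.l (.s k248 k244 1
  (.s k88 k8 11 (.s k164 k12 13 (.s k160 k172 1 (.s k165 k175 2 (.s k5 k245 11 (.d k15 k10 k90 2
  14)))))))) (.c k87 (.l (.s k171 k169 0 (.s k80 k160 11 (.s k90 k95 2 (.s k10 k250 11 (.d k15 k5
  k165 2 14)))))) (.c k171 (.q k87 [(.s k80 k160 11 (.s k90 k95 2 (.s k10 k250 11 (.d k15 k5 k165 2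
  14)))), (.s k248 k244 1 (.s k8 k88 11 (.s k89 k251 12 (.s k81 k93 1 (.s k243 k162 12 (.d k12 k4
  k166 1 14))))))] (.c k80 (.l (.s k248 k244 1 (.s k88 k8 11 (.s k164 k12 13 (.s k160 k172 1 (.s
  k165 k175 2 (.s k5 k245 11 (.d k15 k10 k90 2 14)))))))) .n)) .n))))) (.c k84 (.q k150 [(.s k20
  k215 8 (.s k60 k40 5 (.s k130 k190 5 (.d k195 k65 k105 8 14)))), (.s k130 k190 5 (.s k195 k65 8
  (.s k214 k233 6 (.s k86 k22 7 (.s k2 k254 13 (.d k3 k1 k169 0 14)))))), (.s k20 k215 8 (.s k60 k40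
  5 (.s k188 k124 7 (.s k169 k131 6 (.s k1 k253 13 (.d k3 k2 k86 0 14))))))] (.c k60 (.q k166 [(.s
  k4 k247 12 (.s k162 k174 1 (.s k243 k81 12 (.d k12 k8 k89 1 14)))), (.s k174 k162 1 (.s k182 k134
  3 (.s k190 k130 5 (.s k142 k158 3 (.d k178 k186 k154 1 5))))), (.s k4 k247 12 (.s k20 k215 8 (.s
  k52 k36 3 (.s k134 k182 3 (.d k199 k69 k101 8 12)))))] (.c k125 (.l (.s k190 k130 5 (.s k4 k247 12
  (.s k12 k8 1 (.s k162 k174 1 (.d k243 k81 k89 12 14)))))) (.c k190 (.q k125 [(.s k4 k247 12 (.s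
  k12 k8 1 (.s k243 k89 14 (.d k162 k174 k81 1 12)))), (.s k182 k134 3 (.s k215 k20 8 (.s k247 k4 12
  (.s k52 k117 8 (.d k199 k231 k101 3 12))))), (.s k65 k105 5 (.s k134 k182 3 (.s k162 k174 1 (.s
  k195 k130 8 (.s k12 k73 10 (.d k243 k89 k81 14 12))))))] .n) .n))) (.c k195 (.q k149 [(.s k21 k213
  7 (.s k63 k42 6 (.s k128 k191 6 (.d k192 k64 k106 7 14)))), (.s k151 k148 0 (.s k190 k130 5 (.s
  k191 k128 6 (.s k131 k171 5 (.d k188 k189 k169 0 6))))), (.s k151 k148 0 (.s k213 k21 7 (.s k215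
  k20 8 (.s k212 k214 0 (.d k23 k87 k86 7 8)))))] (.c k215 (.q k235 [(.s k128 k191 6 (.s k192 k64 7
  (.s k63 k106 14 (.d k21 k42 k213 6 7)))), (.s k40 k105 8 (.s k60 k20 5 (.s k128 k191 6 (.s k148
  k151 0 (.d k188 k168 k124 5 7))))), (.s k21 k213 7 (.s k40 k105 8 (.s k60 k20 5 (.s k63 k42 6 (.s
  k62 k61 0 (.d k106 k192 k194 14 13))))))] (.c k63 (.l (.s k40 k105 8 (.s k60 k20 5 (.s k188 k124 7
  (.s k190 k130 5 (.d k191 k189 k128 0 6)))))) .n)) (.c k235 (.l (.s k215 k20 8 (.s k21 k213 7 (.s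
  k63 k42 6 (.s k128 k191 6 (.d k192 k64 k106 7 14)))))) .n))) .n))) (.c k86 (.q k4 [(.s k166 k247
  12 (.s k162 k174 1 (.s k243 k81 12 (.d k12 k8 k89 1 14)))), (.s k84 k168 13 (.s k244 k164 11 (.s
  k240 k248 1 (.s k160 k80 11 (.s k165 k175 2 (.s k5 k245 11 (.d k15 k10 k90 2 14)))))))] (.c k8 (.l
  (.s k166 k247 12 (.s k162 k174 1 (.s k168 k84 13 (.s k169 k171 0 (.s k172 k163 2 (.s k12 k92 11
  (.d k243 k89 k81 14 12)))))))) .n)) (.c k87 (.l (.s k168 k84 13 (.s k169 k171 0 (.s k3 k86 14 (.d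
  k1 k2 k253 0 13))))) (.c k168 (.q k166 [(.s k4 k247 12 (.s k162 k174 1 (.s k243 k81 12 (.d k12 k8
  k89 1 14)))), (.s k162 k174 1 (.s k243 k81 12 (.s k246 k249 2 (.s k86 k6 11 (.s k2 k254 13 (.d k3
  k1 k169 0 14)))))), (.s k4 k247 12 (.s k12 k8 1 (.s k172 k92 11 (.s k169 k163 2 (.s k1 k253 13 (.d
  k3 k2 k86 0 14))))))] (.c k12 (.q k160 [(.s k165 k175 2 (.s k5 k245 11 (.s k240 k80 11 (.d k15 k10
  k90 2 14)))), (.s k4 k247 12 (.s k240 k80 11 (.s k244 k248 1 (.s k164 k84 11 (.d k165 k167 k175 0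
  2))))), (.s k240 k80 11 (.s k244 k248 1 (.s k247 k4 12 (.s k246 k245 0 (.s k243 k249 2 (.d k162
  k174 k81 1 12)))))), (.s k4 k247 12 (.s k165 k175 2 (.s k164 k167 0 (.s k244 k84 11 (.s k7 k86 12
  (.d k5 k6 k245 0 11))))))] (.c k93 (.l (.s k174 k162 1 (.s k165 k175 2 (.s k5 k245 11 (.s k15 k10
  2 (.d k240 k80 k90 11 14)))))) (.c k174 (.q k93 [(.s k165 k175 2 (.s k5 k245 11 (.s k240 k80 11
  (.d k15 k10 k90 2 14)))), (.s k4 k247 12 (.s k240 k80 11 (.s k244 k248 1 (.s k164 k84 11 (.d k165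
  k167 k175 0 2))))), (.s k80 k240 11 (.s k81 k89 1 (.s k82 k83 0 (.s k162 k243 12 (.s k242 k2 11
  (.d k90 k95 k14 2 13)))))), (.s k4 k247 12 (.s k165 k175 2 (.s k164 k167 0 (.s k244 k84 11 (.s k7
  k86 12 (.d k5 k6 k245 0 11))))))] .n) .n))) (.c k243 (.f k162 k174 1 (.q k12 [(.d k4 k247 k8 12
  1), (.s k172 k92 11 (.s k169 k163 2 (.s k1 k253 13 (.d k3 k2 k86 0 14))))] (.c k247 (.q k251 [(.d
  k8 k4 k89 1 12), (.s k172 k92 11 (.s k169 k163 2 (.s k1 k253 13 (.d k3 k2 k86 0 14))))] .n) (.c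
  k251 (.l (.s k247 k4 12 (.s k172 k92 11 (.s k169 k163 2 (.s k1 k253 13 (.d k3 k2 k86 0 14))))))
  .n)))) .n))) (.c k169 (.q k4 [(.s k166 k247 12 (.s k162 k174 1 (.s k243 k81 12 (.d k12 k8 k89 1
  14)))), (.s k12 k8 1 (.s k84 k168 13 (.s k164 k244 11 (.s k88 k240 13 (.d k92 k80 k172 1 11))))),
  (.s k84 k168 13 (.s k86 k87 0 (.s k166 k247 12 (.s k6 k246 11 (.s k7 k5 0 (.d k244 k164 k165 11
  12))))))] .n) (.c k171 (.l (.s k84 k168 13 (.s k86 k87 0 (.s k3 k169 14 (.d k2 k1 k254 0 13)))))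
  (.c k254 (.l (.s k168 k84 13 (.s k169 k171 0 (.s k1 k253 13 (.d k3 k2 k86 0 14))))) .n))))))))))))

def t26_139 : T TT 256 :=
  (.f k255 k170 14 (.q k106 [(.s k64 k127 6 (.s k192 k128 7 (.s k149 k63 14 (.d k213 k234 k21 6
  7))))] (.c k21 (.q k16 [(.s k48 k32 3 (.s k117 k186 10 (.s k101 k69 3 (.d k154 k223 k207 10
  14)))), (.s k64 k127 6 (.s k154 k223 10 (.s k192 k128 7 (.s k149 k63 14 (.s k144 k159 2 (.s k80
  k208 7 (.d k96 k112 k48 3 11))))))), (.s k48 k32 3 (.s k64 k127 6 (.s k192 k128 7 (.s k96 k144 11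
  (.s k101 k111 2 (.d k117 k69 k186 3 10))))))] (.c k48 (.l (.s k127 k64 6 (.s k63 k191 7 (.s k223
  k154 10 (.s k207 k239 3 (.s k111 k159 11 (.s k101 k96 2 (.d k69 k138 k117 10 3)))))))) .n)) (.c
  k63 (.q k1 [(.s k3 k2 0 (.s k169 k253 13 (.s k86 k252 14 (.d k87 k84 k171 0 13)))), (.s k64 k127 6
  (.s k192 k128 7 (.s k213 k234 6 (.s k253 k169 13 (.s k193 k233 5 (.s k65 k129 7 (.d k195 k130 k194
  8 0))))))), (.s k64 k127 6 (.s k169 k253 13 (.s k192 k128 7 (.s k232 k43 8 (.s k252 k212 5 (.s k84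
  k168 13 (.d k86 k3 k87 14 0))))))), (.s k3 k2 0 (.s k64 k127 6 (.s k192 k128 7 (.s k66 k129 8 (.s
  k86 k126 5 (.d k87 k84 k171 0 13))))))] .n) (.c k64 (.q k195 [(.s k65 k130 8 (.s k105 k125 5 (.s
  k150 k60 14 (.d k215 k235 k20 5 8)))), (.s k65 k130 8 (.s k105 k125 5 (.s k107 k104 0 (.s k63 k151
  13 (.s k21 k42 6 (.d k149 k213 k192 7 14)))))), (.s k215 k235 5 (.s k150 k20 8 (.s k194 k62 13 (.s
  k192 k193 0 (.s k149 k63 14 (.d k213 k234 k21 6 7))))))] (.c k105 (.q k107 [(.s k63 k151 13 (.s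
  k149 k192 14 (.d k21 k42 k213 6 7))), (.s k235 k215 5 (.s k43 k171 7 (.s k169 k232 8 (.s k253 k1
  13 (.s k252 k254 0 (.s k84 k168 13 (.d k86 k87 k3 0 14)))))))] (.c k40 (.l (.s k235 k215 5 (.s k63
  k151 13 (.s k21 k42 6 (.d k149 k213 k192 7 14))))) (.c k235 (.q k40 [(.s k63 k151 13 (.s k149 k192
  14 (.d k21 k42 k213 6 7))), (.s k20 k60 5 (.s k151 k63 13 (.s k215 k150 8 (.s k87 k23 7 (.s k3
  k171 13 (.d k67 k127 k131 5 7))))))] (.c k63 (.q k1 [(.s k3 k2 0 (.s k67 k131 7 (.d k87 k127 k171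
  5 13))), (.s k20 k60 5 (.s k65 k130 8 (.s k150 k215 8 (.s k193 k129 7 (.d k194 k62 k192 13 0)))))]
  (.c k131 (.l (.s k3 k2 0 (.s k87 k171 13 (.s k86 k84 0 (.d k169 k253 k252 13 14))))) .n)) (.c k151
  (.l (.s k20 k60 5 (.s k150 k215 8 (.s k194 k62 13 (.s k192 k193 0 (.s k213 k234 6 (.d k149 k63 k21
  14 7))))))) .n))) .n))) (.c k150 (.q k194 [(.s k192 k193 0 (.s k149 k63 14 (.d k213 k234 k21 6
  7))), (.s k130 k65 8 (.s k66 k2 7 (.s k86 k126 5 (.s k84 k87 0 (.s k252 k168 13 (.s k169 k3 14 (.d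
  k253 k254 k1 0 13)))))))] (.c k130 (.q k190 [(.s k192 k193 0 (.s k149 k63 14 (.d k213 k234 k21 6
  7))), (.s k60 k125 8 (.s k192 k193 0 (.s k104 k148 13 (.s k107 k105 0 (.d k63 k151 k149 13
  14))))), (.s k192 k193 0 (.s k234 k213 6 (.s k214 k254 5 (.s k233 k252 6 (.d k235 k232 k215 0
  5)))))] (.c k192 (.q k1 [(.s k3 k2 0 (.s k169 k253 13 (.s k86 k252 14 (.d k87 k84 k171 0 13)))),
  (.s k3 k2 0 (.s k60 k125 8 (.s k40 k20 5 (.s k41 k22 6 (.s k42 k43 0 (.d k21 k61 k63 5 6)))))),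
  (.s k125 k60 8 (.s k65 k105 5 (.s k193 k129 7 (.s k253 k169 13 (.s k233 k213 5 (.d k252 k254 k214
  0 6))))))] (.c k3 (.l (.s k125 k60 8 (.s k65 k105 5 (.s k253 k169 13 (.s k252 k254 0 (.s k233 k214
  6 (.d k193 k213 k129 5 7))))))) (.c k254 (.l (.s k169 k253 13 (.s k3 k2 0 (.s k86 k252 14 (.d k87
  k84 k171 0 13))))) .n))) (.c k193 (.l (.s k125 k60 8 (.s k105 k65 5 (.s k107 k104 0 (.s k63 k151
  13 (.s k21 k42 6 (.d k149 k192 k213 14 7))))))) .n))) (.c k190 (.l (.s k130 k65 8 (.s k192 k193 0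
  (.s k149 k63 14 (.d k213 k234 k21 6 7))))) .n))) .n))) (.c k127 (.q k195 [(.s k65 k130 8 (.s k215
  k235 5 (.s k150 k20 8 (.d k105 k125 k60 5 14)))), (.s k65 k130 8 (.s k105 k125 5 (.s k107 k104 0
  (.s k63 k151 13 (.s k21 k42 6 (.d k149 k213 k192 7 14)))))), (.s k215 k235 5 (.s k150 k20 8 (.s
  k194 k62 13 (.s k192 k193 0 (.s k149 k63 14 (.d k213 k234 k21 6 7))))))] (.c k105 (.q k149 [(.s
  k21 k213 7 (.d k63 k42 k192 6 14)), (.s k63 k192 14 (.s k151 k107 13 (.s k150 k148 0 (.d k215 k235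
  k20 5 8))))] (.c k40 (.l (.s k235 k215 5 (.s k21 k213 7 (.d k63 k42 k192 6 14)))) (.c k63 (.l (.s
  k213 k21 7 (.s k192 k234 6 (.s k194 k193 0 (.s k150 k62 13 (.d k215 k235 k20 5 8)))))) (.c k192
  (.l (.s k21 k213 7 (.s k63 k42 6 (.s k151 k107 13 (.s k150 k148 0 (.d k215 k235 k20 5 8)))))) (.c
  k235 (.q k40 [(.s k21 k213 7 (.d k63 k42 k192 6 14)), (.s k20 k60 5 (.s k63 k192 14 (.s k150 k215
  8 (.d k151 k148 k107 0 13))))] (.c k63 (.l (.s k20 k60 5 (.s k150 k215 8 (.s k213 k21 7 (.s k192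
  k234 6 (.d k194 k62 k193 13 0)))))) (.c k192 (.l (.s k20 k60 5 (.s k21 k213 7 (.s k63 k42 6 (.s
  k150 k215 8 (.d k151 k148 k107 0 13)))))) .n))) .n))))) (.c k150 (.q k199 [(.s k207 k203 1 (.s
  k215 k235 5 (.s k223 k239 3 (.s k219 k211 1 (.d k231 k247 k243 3 5))))), (.s k207 k203 1 (.s k69
  k138 10 (.s k101 k117 3 (.s k154 k48 14 (.d k223 k239 k16 3 10))))), (.s k215 k235 5 (.s k247 k231
  3 (.s k4 k166 12 (.s k12 k8 1 (.d k134 k69 k73 8 10))))), (.s k207 k203 1 (.s k69 k138 10 (.s k4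
  k134 8 (.s k215 k235 5 (.d k247 k166 k231 12 3)))))] (.c k130 (.q k190 [(.s k207 k203 1 (.s k215
  k235 5 (.s k223 k239 3 (.s k219 k211 1 (.d k231 k247 k243 3 5))))), (.s k207 k203 1 (.s k69 k138
  10 (.s k101 k117 3 (.s k154 k48 14 (.d k223 k239 k16 3 10))))), (.s k215 k235 5 (.s k247 k231 3
  (.s k4 k166 12 (.s k12 k8 1 (.d k134 k69 k73 8 10))))), (.s k125 k60 8 (.s k65 k105 5 (.s k207
  k203 1 (.s k69 k138 10 (.s k73 k77 1 (.d k134 k4 k12 8 10))))))] .n) (.c k190 (.l (.s k130 k65 8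
  (.s k207 k203 1 (.s k69 k138 10 (.s k4 k134 8 (.s k215 k235 5 (.d k247 k166 k231 12 3))))))) .n)))
  .n))) (.c k128 (.l (.s k127 k64 6 (.s k63 k191 7 (.s k149 k192 14 (.d k21 k42 k213 6 7))))) (.c
  k149 (.f k127 k64 6 (.q k90 [(.s k80 k95 2 (.s k122 k74 3 (.s k240 k160 11 (.d k63 k191 k181 7
  10)))), (.s k122 k74 3 (.s k117 k112 2 (.s k48 k186 10 (.s k16 k32 3 (.s k154 k223 10 (.d k101 k69
  k207 3 14)))))), (.s k80 k95 2 (.s k240 k160 11 (.s k165 k15 14 (.d k245 k250 k5 2 11))))] (.c k80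
  (.l (.s k122 k74 3 (.s k112 k117 2 (.s k79 k101 6 (.s k95 k111 3 (.s k15 k175 11 (.s k5 k10 2 (.d
  k165 k245 k240 11 14)))))))) (.c k128 (.l (.s k191 k63 7 (.s k80 k95 2 (.s k240 k160 11 (.s k165
  k15 14 (.d k245 k250 k5 2 11)))))) (.c k191 (.q k128 [(.s k80 k95 2 (.s k240 k160 11 (.s k245 k250
  2 (.d k165 k5 k15 11 14)))), (.s k122 k74 3 (.s k117 k112 2 (.s k48 k186 10 (.s k16 k32 3 (.s k154
  k223 10 (.d k101 k69 k207 3 14))))))] (.c k80 (.l (.s k122 k74 3 (.s k112 k117 2 (.s k79 k101 6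
  (.s k95 k111 3 (.s k15 k175 11 (.s k5 k10 2 (.d k165 k245 k240 11 14)))))))) .n)) .n))))) (.c k191
  (.l (.s k64 k127 6 (.s k192 k128 7 (.s k149 k63 14 (.d k213 k234 k21 6 7))))) (.c k192 (.q k1 [(.s
  k3 k2 0 (.s k169 k253 13 (.s k86 k252 14 (.d k87 k84 k171 0 13)))), (.s k127 k64 6 (.s k63 k191 7
  (.s k21 k42 6 (.s k61 k41 5 (.s k253 k169 13 (.s k125 k189 7 (.d k60 k190 k62 8 0))))))), (.s k3
  k2 0 (.s k127 k64 6 (.s k63 k191 7 (.s k21 k42 6 (.s k23 k43 5 (.s k22 k20 0 (.d k41 k61 k60 5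
  6)))))))] .n) (.c k213 (.q k1 [(.s k3 k2 0 (.s k169 k253 13 (.s k86 k252 14 (.d k87 k84 k171 0
  13)))), (.s k127 k64 6 (.s k63 k191 7 (.s k21 k42 6 (.s k61 k41 5 (.s k60 k62 0 (.s k125 k190 8
  (.d k253 k189 k169 7 13))))))), (.s k64 k127 6 (.s k169 k253 13 (.s k192 k128 7 (.s k149 k63 14
  (.s k129 k189 5 (.s k66 k3 8 (.d k65 k193 k67 7 0))))))), (.s k3 k2 0 (.s k64 k127 6 (.s k192 k128
  7 (.s k66 k129 8 (.s k86 k126 5 (.d k87 k84 k171 0 13))))))] .n) (.c k234 (.l (.s k127 k64 6 (.s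
  k63 k191 7 (.s k21 k42 6 (.d k149 k213 k192 7 14))))) .n))))))))))))

def t26_143 : T TT 256 :=
  (.f k255 k170 14 (.q k105 [(.s k65 k125 5 (.s k195 k130 8 (.s k150 k60 14 (.d k215 k235 k20 5
  8))))] (.c k20 (.q k1 [(.s k169 k253 13 (.s k3 k2 0 (.s k86 k252 14 (.d k87 k84 k171 0 13)))), (.s
  k65 k125 5 (.s k169 k253 13 (.s k41 k233 7 (.s k61 k21 5 (.d k193 k129 k149 7 13))))), (.s k3 k2 0
  (.s k65 k125 5 (.s k129 k193 7 (.s k66 k192 8 (.s k67 k64 0 (.d k195 k131 k130 7 8))))))] .n) (.c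
  k60 (.q k1 [(.s k3 k2 0 (.s k87 k171 13 (.s k86 k84 0 (.d k169 k253 k252 13 14)))), (.s k65 k125 5
  (.s k169 k253 13 (.s k41 k233 7 (.s k61 k21 5 (.d k193 k129 k149 7 13))))), (.s k3 k2 0 (.s k65
  k125 5 (.s k129 k193 7 (.s k66 k192 8 (.s k67 k64 0 (.d k195 k131 k130 7 8))))))] .n) (.c k65 (.q
  k1 [(.s k169 k253 13 (.s k3 k2 0 (.s k86 k252 14 (.d k87 k84 k171 0 13)))), (.s k169 k253 13 (.s
  k41 k233 7 (.s k21 k61 5 (.s k63 k42 6 (.s k127 k191 7 (.s k106 k64 6 (.d k149 k213 k192 7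
  14)))))))] (.c k169 (.f k3 k2 0 (.q k86 [(.d k87 k171 k84 13 0), (.s k67 k124 6 (.s k195 k131 7
  (.s k150 k60 14 (.d k215 k235 k20 5 8))))] (.c k168 (.l (.s k171 k87 13 (.s k67 k124 6 (.s k195
  k131 7 (.s k150 k60 14 (.d k215 k235 k20 5 8)))))) (.c k171 (.q k168 [(.d k84 k87 k252 0 13), (.s
  k67 k124 6 (.s k195 k131 7 (.s k215 k235 5 (.d k150 k20 k60 8 14))))] .n) .n)))) (.c k253 (.l (.s
  k3 k2 0 (.s k87 k171 13 (.s k86 k84 0 (.s k67 k124 6 (.s k195 k131 7 (.s k150 k60 14 (.d k215 k235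
  k20 5 8)))))))) .n))) (.c k125 (.q k253 [(.s k169 k1 13 (.s k252 k254 0 (.s k84 k168 13 (.d k86
  k87 k3 0 14)))), (.s k169 k1 13 (.s k233 k41 7 (.s k213 k193 5 (.s k192 k234 6 (.s k64 k128 7 (.s
  k106 k127 6 (.d k149 k21 k63 7 14)))))))] (.c k1 (.l (.s k252 k254 0 (.s k84 k168 13 (.s k86 k87 0
  (.s k124 k67 6 (.s k60 k188 7 (.s k20 k40 5 (.d k150 k215 k195 8 14)))))))) (.c k169 (.f k252 k254
  0 (.q k86 [(.d k84 k168 k87 13 0), (.s k124 k67 6 (.s k60 k188 7 (.s k20 k40 5 (.d k150 k215 k195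
  8 14))))] (.c k168 (.q k171 [(.d k87 k84 k3 0 13), (.s k124 k67 6 (.s k60 k188 7 (.s k20 k40 5 (.d
  k150 k215 k195 8 14))))] .n) (.c k171 (.l (.s k168 k84 13 (.s k124 k67 6 (.s k60 k188 7 (.s k20
  k40 5 (.d k150 k215 k195 8 14)))))) .n)))) .n))) (.c k130 (.l (.s k125 k65 5 (.s k60 k190 8 (.s
  k150 k195 14 (.d k20 k40 k215 5 8))))) (.c k150 (.f k65 k125 5 (.q k1 [(.s k3 k2 0 (.s k87 k171 13
  (.s k86 k84 0 (.d k169 k253 k252 13 14)))), (.s k169 k253 13 (.s k41 k233 7 (.s k61 k21 5 (.d k193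
  k129 k149 7 13)))), (.s k3 k2 0 (.s k129 k193 7 (.s k66 k192 8 (.s k67 k64 0 (.d k195 k130 k131 8
  7)))))] (.c k130 (.q k190 [(.s k3 k2 0 (.s k87 k171 13 (.s k86 k84 0 (.d k169 k253 k252 13 14)))),
  (.s k169 k253 13 (.s k41 k233 7 (.s k61 k21 5 (.d k193 k129 k149 7 13)))), (.s k3 k2 0 (.s k129
  k193 7 (.s k66 k192 8 (.s k67 k64 0 (.s k86 k124 6 (.d k87 k84 k171 0 13))))))] .n) (.c k190 (.l
  (.s k130 k195 8 (.s k3 k2 0 (.s k87 k171 13 (.s k86 k84 0 (.d k169 k253 k252 13 14)))))) .n))))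
  (.c k190 (.l (.s k65 k125 5 (.s k195 k130 8 (.s k150 k60 14 (.d k215 k235 k20 5 8))))) (.c k195
  (.q k1 [(.s k3 k2 0 (.s k87 k171 13 (.s k86 k84 0 (.d k169 k253 k252 13 14)))), (.s k65 k125 5 (.s
  k169 k253 13 (.s k41 k233 7 (.s k61 k21 5 (.d k193 k129 k149 7 13))))), (.s k3 k2 0 (.s k125 k65 5
  (.s k60 k190 8 (.s k40 k20 5 (.s k41 k22 6 (.s k21 k61 5 (.d k42 k43 k63 0 6)))))))] .n) (.c k215
  (.q k1 [(.s k169 k253 13 (.s k3 k2 0 (.s k86 k252 14 (.d k87 k84 k171 0 13)))), (.s k65 k125 5 (.s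
  k169 k253 13 (.s k41 k233 7 (.s k61 k21 5 (.d k193 k129 k149 7 13))))), (.s k3 k2 0 (.s k65 k125 5
  (.s k129 k193 7 (.s k66 k192 8 (.s k67 k64 0 (.d k195 k131 k130 7 8))))))] .n) (.c k235 (.l (.s
  k125 k65 5 (.s k60 k190 8 (.s k20 k40 5 (.d k150 k215 k195 8 14))))) .n))))))))))))

def t26_146 : T TT 256 :=
  (.f k255 k170 14 (.q k89 [(.s k81 k93 1 (.s k243 k162 12 (.s k166 k12 14 (.d k247 k251 k4 1
  12)))), (.s k93 k81 1 (.s k12 k174 12 (.s k4 k8 1 (.d k166 k247 k243 12 14))))] (.c k4 (.q k1 [(.s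
  k169 k253 13 (.s k3 k2 0 (.s k86 k252 14 (.d k87 k84 k171 0 13)))), (.s k81 k93 1 (.s k169 k253 13
  (.s k9 k249 11 (.s k13 k5 1 (.d k241 k161 k165 11 13))))), (.s k3 k2 0 (.s k81 k93 1 (.s k161 k241
  11 (.s k82 k240 12 (.s k83 k80 0 (.d k243 k163 k162 11 12))))))] .n) (.c k12 (.q k1 [(.s k3 k2 0
  (.s k87 k171 13 (.s k86 k84 0 (.d k169 k253 k252 13 14)))), (.s k81 k93 1 (.s k169 k253 13 (.s k9
  k249 11 (.s k13 k5 1 (.d k241 k161 k165 11 13))))), (.s k3 k2 0 (.s k81 k93 1 (.s k161 k241 11 (.s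
  k82 k240 12 (.s k83 k80 0 (.d k243 k163 k162 11 12))))))] .n) (.c k81 (.q k150 [(.s k215 k20 8 (.s
  k195 k235 5 (.s k105 k60 14 (.d k65 k125 k130 5 8)))), (.s k20 k215 8 (.s k28 k211 10 (.s k16 k24
  1 (.s k48 k32 3 (.s k117 k186 10 (.s k101 k69 3 (.d k154 k223 k207 10 14)))))))] (.c k16 (.l (.s
  k211 k28 10 (.s k20 k215 8 (.s k60 k40 5 (.s k105 k195 14 (.d k125 k65 k190 5 8)))))) (.c k20 (.q
  k16 [(.s k154 k223 10 (.s k48 k32 3 (.s k101 k207 14 (.d k117 k69 k186 3 10)))), (.s k28 k211 10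
  (.s k223 k154 10 (.s k93 k158 8 (.s k12 k174 12 (.s k4 k8 1 (.d k166 k247 k243 12 14))))))] (.c
  k154 (.q k90 [(.s k80 k95 2 (.s k240 k160 11 (.s k165 k15 14 (.d k245 k250 k5 2 11)))), (.s k28
  k211 10 (.s k30 k210 9 (.s k31 k29 0 (.s k88 k91 0 (.d k208 k148 k149 9 10)))))] (.c k138 (.q k186
  [(.d k48 k32 k117 3 10), (.s k28 k211 10 (.s k80 k95 2 (.s k88 k91 0 (.d k208 k144 k148 7 9))))]
  .n) (.c k186 (.q k138 [(.s k80 k95 2 (.s k240 k160 11 (.s k165 k15 14 (.d k245 k250 k5 2 11)))),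
  (.s k28 k211 10 (.s k30 k210 9 (.s k31 k29 0 (.s k88 k91 0 (.d k208 k148 k149 9 10)))))] .n) .n)))
  (.c k186 (.l (.s k48 k32 3 (.s k154 k223 10 (.s k24 k219 8 (.s k12 k36 5 (.s k4 k8 1 (.d k166 k247
  k243 12 14))))))) (.c k223 (.l (.s k48 k32 3 (.s k117 k186 10 (.s k101 k69 3 (.s k52 k199 12 (.s
  k60 k56 1 (.s k105 k195 14 (.d k125 k65 k190 5 8)))))))) .n)))) (.c k211 (.q k16 [(.s k20 k215 8
  (.s k24 k28 1 (.d k154 k219 k223 8 10))), (.s k48 k32 3 (.s k117 k186 10 (.s k101 k69 3 (.d k154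
  k223 k207 10 14)))), (.s k215 k20 8 (.s k195 k235 5 (.s k65 k130 8 (.d k105 k125 k60 5 14))))] .n)
  (.c k215 (.q k16 [(.s k28 k211 10 (.s k24 k20 1 (.d k154 k219 k223 8 10))), (.s k48 k32 3 (.s k117
  k186 10 (.s k101 k69 3 (.d k154 k223 k207 10 14))))] (.c k154 (.l (.s k28 k211 10 (.s k20 k24 1
  (.s k60 k40 5 (.s k105 k195 14 (.d k125 k65 k190 5 8)))))) (.c k223 (.l (.s k48 k32 3 (.s k117
  k186 10 (.s k101 k69 3 (.s k52 k199 12 (.s k60 k56 1 (.s k20 k40 5 (.d k28 k24 k211 1 10))))))))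
  .n))) .n))))) (.c k93 (.q k253 [(.s k169 k1 13 (.s k252 k254 0 (.s k84 k168 13 (.d k86 k87 k3 0
  14)))), (.s k169 k1 13 (.s k249 k9 11 (.s k245 k241 1 (.s k240 k250 2 (.s k80 k160 11 (.s k90 k95
  2 (.d k165 k5 k15 11 14)))))))] (.c k1 (.l (.s k252 k254 0 (.s k84 k168 13 (.s k86 k87 0 (.s k92
  k83 2 (.s k12 k172 11 (.s k4 k8 1 (.d k166 k247 k243 12 14)))))))) (.c k169 (.f k252 k254 0 (.q
  k86 [(.d k84 k168 k87 13 0), (.s k92 k83 2 (.s k12 k172 11 (.s k4 k8 1 (.d k166 k247 k243 12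
  14))))] (.c k168 (.q k171 [(.d k87 k84 k3 0 13), (.s k92 k83 2 (.s k12 k172 11 (.s k4 k8 1 (.d
  k166 k247 k243 12 14))))] .n) (.c k171 (.l (.s k168 k84 13 (.s k92 k83 2 (.s k12 k172 11 (.s k4 k8
  1 (.d k166 k247 k243 12 14)))))) .n)))) .n))) (.c k162 (.l (.s k93 k81 1 (.s k12 k174 12 (.s k166
  k243 14 (.d k4 k8 k247 1 12))))) (.c k166 (.f k81 k93 1 (.f k162 k243 12 (.q k1 [(.s k3 k2 0 (.s
  k87 k171 13 (.s k86 k84 0 (.d k169 k253 k252 13 14)))), (.s k169 k253 13 (.s k9 k249 11 (.s k13 k5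
  1 (.d k241 k161 k165 11 13)))), (.s k3 k2 0 (.s k161 k241 11 (.s k240 k82 12 (.d k160 k163 k80 0
  11))))] .n))) (.c k174 (.l (.s k81 k93 1 (.s k243 k162 12 (.s k166 k12 14 (.d k247 k251 k4 1
  12))))) (.c k243 (.q k1 [(.s k3 k2 0 (.s k87 k171 13 (.s k86 k84 0 (.d k169 k253 k252 13 14)))),
  (.s k81 k93 1 (.s k169 k253 13 (.s k9 k249 11 (.s k13 k5 1 (.d k241 k161 k165 11 13))))), (.s k3
  k2 0 (.s k93 k81 1 (.s k12 k174 12 (.s k8 k4 1 (.s k9 k6 2 (.s k5 k13 1 (.d k10 k11 k15 0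
  2)))))))] .n) (.c k247 (.q k1 [(.s k169 k253 13 (.s k3 k2 0 (.s k86 k252 14 (.d k87 k84 k171 0
  13)))), (.s k81 k93 1 (.s k169 k253 13 (.s k9 k249 11 (.s k13 k5 1 (.d k241 k161 k165 11 13))))),
  (.s k3 k2 0 (.s k81 k93 1 (.s k161 k241 11 (.s k82 k240 12 (.s k83 k80 0 (.d k243 k163 k162 11
  12))))))] .n) .n)))))))))))

def t26_147 : T TT 256 :=
  (.f k255 k170 14 (.q k89 [(.s k81 k93 1 (.s k243 k162 12 (.s k166 k12 14 (.d k247 k251 k4 1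
  12))))] (.c k4 (.q k1 [(.s k169 k253 13 (.s k3 k2 0 (.s k86 k252 14 (.d k87 k84 k171 0 13)))), (.s
  k81 k93 1 (.s k169 k253 13 (.s k9 k249 11 (.s k13 k5 1 (.d k241 k161 k165 11 13))))), (.s k3 k2 0
  (.s k81 k93 1 (.s k161 k241 11 (.s k82 k240 12 (.s k83 k80 0 (.d k243 k163 k162 11 12))))))] .n)
  (.c k12 (.q k1 [(.s k3 k2 0 (.s k87 k171 13 (.s k86 k84 0 (.d k169 k253 k252 13 14)))), (.s k81
  k93 1 (.s k169 k253 13 (.s k9 k249 11 (.s k13 k5 1 (.d k241 k161 k165 11 13))))), (.s k3 k2 0 (.s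
  k81 k93 1 (.s k161 k241 11 (.s k82 k240 12 (.s k83 k80 0 (.d k243 k163 k162 11 12))))))] .n) (.c
  k81 (.q k87 [(.s k86 k84 0 (.s k3 k171 13 (.s k169 k252 14 (.d k1 k2 k253 0 13)))), (.s k86 k84 0
  (.s k83 k92 2 (.s k95 k91 1 (.s k15 k175 11 (.s k5 k10 2 (.s k165 k245 11 (.d k90 k80 k240 2
  14)))))))] (.c k84 (.l (.s k3 k171 13 (.s k1 k2 0 (.s k169 k253 13 (.s k9 k249 11 (.s k12 k6 2 (.s
  k4 k8 1 (.d k166 k247 k243 12 14)))))))) (.c k86 (.f k3 k171 13 (.q k169 [(.d k1 k2 k253 0 13),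
  (.s k9 k249 11 (.s k12 k6 2 (.s k4 k8 1 (.d k166 k247 k243 12 14))))] (.c k2 (.q k254 [(.d k253
  k252 k1 0 13), (.s k9 k249 11 (.s k12 k6 2 (.s k4 k8 1 (.d k166 k247 k243 12 14))))] .n) (.c k254
  (.l (.s k2 k1 0 (.s k9 k249 11 (.s k12 k6 2 (.s k4 k8 1 (.d k166 k247 k243 12 14)))))) .n))))
  .n))) (.c k93 (.q k68 [(.s k102 k119 4 (.s k204 k136 9 (.s k221 k238 4 (.d k153 k17 k51 9 14)))),
  (.s k102 k119 4 (.s k76 k115 6 (.s k64 k72 1 (.s k192 k128 7 (.s k213 k234 6 (.s k149 k21 7 (.d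
  k106 k127 k63 6 14)))))))] (.c k102 (.f k204 k136 9 (.q k153 [(.d k221 k238 k17 4 9), (.s k217 k25
  7 (.s k243 k230 6 (.s k166 k12 14 (.d k247 k251 k4 1 12))))] (.c k34 (.l (.s k238 k221 4 (.s k217
  k25 7 (.s k243 k230 6 (.s k166 k12 14 (.d k247 k251 k4 1 12)))))) (.c k238 (.q k34 [(.d k17 k51
  k221 4 9), (.s k217 k25 7 (.s k243 k230 6 (.s k247 k251 1 (.d k166 k4 k12 12 14))))] .n) .n))))
  (.c k119 (.l (.s k204 k136 9 (.s k221 k238 4 (.s k153 k17 9 (.s k217 k25 7 (.s k243 k230 6 (.s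
  k166 k12 14 (.d k247 k251 k4 1 12)))))))) .n))) (.c k162 (.l (.s k93 k81 1 (.s k12 k174 12 (.s
  k166 k243 14 (.d k4 k8 k247 1 12))))) (.c k166 (.f k81 k93 1 (.q k83 [(.s k80 k82 0 (.s k86 k92 2
  (.s k87 k84 0 (.d k95 k91 k90 1 2)))), (.s k80 k82 0 (.s k240 k160 11 (.s k245 k250 2 (.s k165 k5
  11 (.s k241 k13 13 (.d k243 k162 k242 12 0)))))), (.s k86 k92 2 (.s k84 k87 0 (.s k252 k168 13 (.s
  k169 k3 14 (.d k253 k254 k1 0 13)))))] (.c k162 (.q k174 [(.s k86 k92 2 (.s k87 k84 0 (.s k95 k91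
  1 (.d k80 k82 k90 0 2)))), (.s k80 k82 0 (.s k240 k160 11 (.s k245 k250 2 (.s k165 k5 11 (.d k90
  k95 k15 2 14))))), (.s k86 k92 2 (.s k84 k87 0 (.s k252 k168 13 (.s k169 k3 14 (.d k253 k254 k1 0
  13)))))] (.c k95 (.l (.s k82 k80 0 (.s k86 k92 2 (.s k94 k90 1 (.s k84 k87 0 (.s k252 k168 13 (.d
  k254 k14 k253 11 0))))))) .n)) (.c k174 (.l (.s k162 k243 12 (.s k80 k82 0 (.s k86 k92 2 (.s k87
  k84 0 (.d k95 k91 k90 1 2)))))) .n)))) (.c k174 (.l (.s k81 k93 1 (.s k243 k162 12 (.s k166 k12 14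
  (.d k247 k251 k4 1 12))))) (.c k243 (.q k1 [(.s k3 k2 0 (.s k87 k171 13 (.s k86 k84 0 (.d k169
  k253 k252 13 14)))), (.s k81 k93 1 (.s k169 k253 13 (.s k9 k249 11 (.s k13 k5 1 (.d k241 k161 k165
  11 13))))), (.s k3 k2 0 (.s k93 k81 1 (.s k12 k174 12 (.s k8 k4 1 (.s k9 k6 2 (.s k5 k13 1 (.d k10
  k11 k15 0 2)))))))] .n) (.c k247 (.q k1 [(.s k169 k253 13 (.s k3 k2 0 (.s k86 k252 14 (.d k87 k84
  k171 0 13)))), (.s k81 k93 1 (.s k169 k253 13 (.s k9 k249 11 (.s k13 k5 1 (.d k241 k161 k165 11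
  13))))), (.s k3 k2 0 (.s k81 k93 1 (.s k161 k241 11 (.s k82 k240 12 (.s k83 k80 0 (.d k243 k163
  k162 11 12))))))] .n) (.c k251 (.l (.s k93 k81 1 (.s k12 k174 12 (.s k4 k8 1 (.d k166 k247 k243 12
  14))))) .n))))))))))))

def t26_154 : T TT 256 :=
  (.q k90 [(.s k80 k95 2 (.s k170 k255 14 (.s k10 k250 11 (.s k15 k5 2 (.d k240 k160 k165 11
  14)))))] (.c k5 (.q k1 [(.s k3 k2 0 (.s k169 k253 13 (.s k86 k252 14 (.s k87 k84 0 (.d k255 k171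
  k170 13 14))))), (.s k3 k2 0 (.s k80 k95 2 (.s k169 k253 13 (.s k11 k248 12 (.s k15 k7 1 (.d k240
  k160 k165 11 14)))))), (.s k80 k95 2 (.s k169 k253 13 (.s k170 k255 14 (.s k240 k160 11 (.s k248
  k11 12 (.s k252 k244 1 (.d k168 k171 k84 0 13))))))), (.s k2 k3 0 (.s k170 k255 14 (.s k10 k250 11
  (.s k14 k6 1 (.s k166 k242 13 (.s k174 k162 1 (.d k254 k94 k86 11 13)))))))] .n) (.c k10 (.l (.s
  k80 k95 2 (.s k240 k160 11 (.s k165 k15 14 (.s k245 k5 11 (.d k255 k250 k170 2 14)))))) (.c k15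
  (.f k255 k170 14 (.f k80 k95 2 (.q k48 [(.s k32 k16 3 (.s k160 k240 11 (.s k96 k224 7 (.s k64 k112
  3 (.d k192 k128 k144 7 11))))), (.s k240 k160 11 (.s k112 k176 7 (.s k101 k79 6 (.d k117 k186 k69
  10 3)))), (.s k32 k16 3 (.s k160 k240 11 (.s k96 k224 7 (.s k112 k64 3 (.s k101 k79 6 (.d k117 k69
  k186 3 10)))))), (.s k16 k32 3 (.s k144 k208 7 (.s k192 k96 11 (.s k64 k128 7 (.s k106 k127 6 (.s
  k149 k63 14 (.d k213 k234 k21 6 7)))))))] (.c k138 (.l (.s k186 k117 10 (.s k16 k32 3 (.s k144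
  k208 7 (.s k96 k192 11 (.s k112 k64 3 (.d k240 k176 k160 7 11))))))) (.c k160 (.l (.s k16 k32 3
  (.s k144 k208 7 (.s k96 k192 11 (.s k112 k64 3 (.s k101 k79 6 (.d k117 k69 k186 3 10))))))) (.c
  k186 (.q k138 [(.s k69 k207 10 (.s k101 k117 3 (.s k240 k160 11 (.d k112 k79 k176 6 7)))), (.s k32
  k16 3 (.s k160 k240 11 (.s k96 k224 7 (.s k64 k112 3 (.d k192 k128 k144 7 11))))), (.s k16 k32 3
  (.s k207 k69 10 (.s k208 k144 7 (.s k149 k31 10 (.s k213 k21 7 (.d k223 k239 k218 3 2))))))] .n)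
  .n)))))) (.c k80 (.q k1 [(.s k3 k2 0 (.s k169 k253 13 (.s k170 k255 14 (.s k168 k171 0 (.d k252
  k84 k86 13 14))))), (.s k3 k2 0 (.s k169 k253 13 (.s k11 k248 12 (.s k15 k7 1 (.s k5 k10 2 (.d
  k165 k245 k240 11 14)))))), (.s k169 k253 13 (.s k11 k248 12 (.s k170 k255 14 (.s k10 k250 11 (.s
  k5 k15 2 (.d k9 k8 k13 0 1)))))), (.s k2 k3 0 (.s k170 k255 14 (.s k10 k250 11 (.s k14 k6 1 (.s
  k166 k242 13 (.s k174 k162 1 (.d k254 k94 k86 11 13)))))))] .n) (.c k95 (.q k1 [(.s k3 k2 0 (.s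
  k169 k253 13 (.s k86 k252 14 (.s k87 k84 0 (.d k255 k171 k170 13 14))))), (.s k3 k2 0 (.s k169
  k253 13 (.s k11 k248 12 (.s k15 k7 1 (.s k5 k10 2 (.d k165 k245 k240 11 14)))))), (.s k169 k253 13
  (.s k11 k248 12 (.s k170 k255 14 (.s k10 k250 11 (.s k9 k8 0 (.d k5 k15 k13 2 1)))))), (.s k2 k3 0
  (.s k170 k255 14 (.s k10 k250 11 (.s k14 k6 1 (.s k166 k242 13 (.s k174 k162 1 (.d k254 k94 k86 11
  13)))))))] .n) (.c k160 (.l (.s k95 k80 2 (.s k255 k170 14 (.s k15 k175 11 (.s k165 k240 14 (.d k5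
  k10 k245 2 11)))))) (.c k165 (.f k170 k255 14 (.f k250 k10 11 (.q k42 [(.s k106 k234 7 (.s k64
  k127 6 (.s k192 k128 7 (.d k63 k21 k149 6 14)))), (.s k63 k21 6 (.s k80 k95 2 (.s k240 k160 11 (.s
  k122 k181 10 (.d k106 k74 k234 3 7))))), (.s k95 k80 2 (.s k106 k234 7 (.s k122 k74 3 (.s k127 k64
  6 (.s k79 k111 3 (.d k112 k117 k101 2 6))))))] (.c k106 (.l (.s k21 k63 6 (.s k80 k95 2 (.s k149
  k213 7 (.s k160 k240 11 (.s k208 k31 10 (.s k144 k16 7 (.d k128 k191 k176 6 3)))))))) (.c k143 (.q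
  k176 [(.s k63 k21 6 (.s k106 k234 7 (.s k64 k127 6 (.d k192 k128 k149 7 14)))), (.s k21 k63 6 (.s
  k80 k95 2 (.s k160 k240 11 (.s k128 k144 3 (.d k149 k191 k213 6 7))))), (.s k80 k95 2 (.s k106
  k234 7 (.s k64 k127 6 (.s k112 k96 3 (.d k240 k48 k160 7 11)))))] (.c k63 (.l (.s k80 k95 2 (.s
  k106 k234 7 (.s k160 k240 11 (.s k128 k144 3 (.d k64 k192 k127 7 6)))))) (.c k127 (.l (.s k63 k21
  6 (.s k80 k95 2 (.s k106 k234 7 (.s k122 k74 3 (.d k240 k181 k160 10 11)))))) (.c k213 (.l (.s k63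
  k21 6 (.s k106 k234 7 (.s k192 k149 14 (.d k64 k127 k128 6 7))))) .n)))) (.c k176 (.q k143 [(.s
  k63 k21 6 (.s k106 k234 7 (.s k64 k127 6 (.d k192 k128 k149 7 14)))), (.s k95 k80 2 (.s k106 k234
  7 (.s k122 k74 3 (.s k127 k64 6 (.s k79 k111 3 (.d k112 k117 k101 2 6)))))), (.s k63 k21 6 (.s k80
  k95 2 (.s k240 k160 11 (.s k122 k181 10 (.d k106 k74 k234 3 7)))))] (.c k106 (.l (.s k21 k63 6 (.s
  k95 k80 2 (.s k149 k213 7 (.s k31 k208 10 (.s k191 k128 6 (.d k159 k223 k175 7 3))))))) (.c k234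
  (.l (.s k63 k21 6 (.s k80 k95 2 (.s k240 k160 11 (.s k122 k181 10 (.s k106 k74 3 (.s k64 k127 6
  (.d k192 k128 k149 7 14)))))))) .n))) (.c k234 (.l (.s k63 k21 6 (.s k80 k95 2 (.s k240 k160 11
  (.s k122 k181 10 (.s k106 k74 3 (.s k64 k127 6 (.d k192 k149 k128 14 7)))))))) .n))))))) (.c k170
  (.f k80 k95 2 (.q k89 [(.s k81 k93 1 (.s k83 k82 0 (.s k88 k91 0 (.d k92 k84 k86 1 2)))), (.s k88
  k91 0 (.s k240 k160 11 (.s k12 k164 13 (.s k4 k8 1 (.d k166 k247 k243 12 14))))), (.s k81 k93 1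
  (.s k240 k160 11 (.s k165 k15 14 (.s k241 k13 13 (.d k243 k242 k162 0 12)))))] (.c k138 (.q k186
  [(.s k81 k93 1 (.s k83 k82 0 (.s k88 k91 0 (.d k92 k84 k86 1 2)))), (.s k88 k91 0 (.s k240 k160 11
  (.s k12 k164 13 (.s k4 k8 1 (.d k166 k247 k243 12 14))))), (.s k81 k93 1 (.s k240 k160 11 (.s k165
  k15 14 (.s k241 k13 13 (.d k243 k242 k162 0 12)))))] .n) (.c k186 (.q k138 [(.s k81 k93 1 (.s k83
  k82 0 (.s k88 k91 0 (.d k92 k84 k86 1 2)))), (.s k88 k91 0 (.s k240 k160 11 (.s k12 k164 13 (.s k4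
  k8 1 (.d k166 k247 k243 12 14))))), (.s k81 k93 1 (.s k240 k160 11 (.s k165 k15 14 (.s k241 k13 13
  (.d k243 k242 k162 0 12)))))] .n) .n)))) (.c k175 (.l (.s k80 k95 2 (.s k240 k160 11 (.s k15 k165
  14 (.s k170 k255 14 (.d k10 k5 k250 2 11)))))) (.c k240 (.q k79 [(.s k80 k95 2 (.s k112 k101 6 (.s
  k64 k96 3 (.s k74 k69 2 (.d k106 k122 k127 3 6))))), (.s k95 k80 2 (.s k111 k127 3 (.s k255 k170
  14 (.s k15 k175 11 (.s k207 k143 7 (.s k159 k63 11 (.d k223 k239 k31 3 7))))))), (.s k101 k112 6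
  (.s k69 k117 3 (.s k170 k255 14 (.s k207 k138 10 (.s k15 k143 7 (.d k10 k250 k5 11 2)))))), (.s
  k95 k80 2 (.s k127 k111 3 (.s k64 k106 6 (.s k69 k74 2 (.d k101 k117 k112 3 6)))))] (.c k127 (.l
  (.s k95 k80 2 (.s k101 k112 6 (.s k255 k170 14 (.s k15 k175 11 (.s k207 k143 7 (.d k69 k117 k138 3
  10))))))) .n)) (.c k245 (.l (.s k80 k95 2 (.s k170 k255 14 (.s k10 k250 11 (.s k240 k160 11 (.d
  k15 k5 k165 2 14)))))) (.c k250 (.l (.s k95 k80 2 (.s k255 k170 14 (.s k15 k175 11 (.s k5 k10 2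
  (.d k165 k245 k240 11 14)))))) (.c k255 (.q k64 [(.s k95 k80 2 (.s k127 k106 6 (.s k79 k111 3 (.s
  k69 k74 2 (.d k101 k117 k112 3 6))))), (.s k80 k95 2 (.s k96 k112 3 (.s k160 k240 11 (.s k32 k224
  7 (.s k48 k16 3 (.d k192 k128 k144 7 11)))))), (.s k106 k127 6 (.s k74 k122 3 (.s k192 k128 7 (.s
  k15 k133 10 (.s k5 k10 2 (.d k165 k245 k240 11 14))))))] (.c k112 (.l (.s k80 k95 2 (.s k106 k127
  6 (.s k122 k74 3 (.s k192 k128 7 (.s k63 k149 14 (.d k240 k181 k160 10 11))))))) .n))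
  .n))))))))))))))

def t26_155 : T TT 256 :=
  (.f k255 k170 14 (.q k106 [(.s k64 k127 6 (.s k192 k128 7 (.s k149 k63 14 (.d k213 k234 k21 6
  7))))] (.c k21 (.q k16 [(.s k48 k32 3 (.s k117 k186 10 (.s k101 k69 3 (.d k154 k223 k207 10
  14)))), (.s k64 k127 6 (.s k154 k223 10 (.s k192 k128 7 (.s k149 k63 14 (.s k144 k159 2 (.s k80
  k208 7 (.d k96 k112 k48 3 11))))))), (.s k48 k32 3 (.s k64 k127 6 (.s k192 k128 7 (.s k96 k144 11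
  (.s k101 k111 2 (.d k117 k69 k186 3 10))))))] (.c k48 (.l (.s k127 k64 6 (.s k63 k191 7 (.s k223
  k154 10 (.s k207 k239 3 (.s k111 k159 11 (.s k101 k96 2 (.d k69 k138 k117 10 3)))))))) .n)) (.c
  k63 (.q k1 [(.s k3 k2 0 (.s k169 k253 13 (.s k86 k252 14 (.d k87 k84 k171 0 13)))), (.s k64 k127 6
  (.s k192 k128 7 (.s k213 k234 6 (.s k253 k169 13 (.s k193 k233 5 (.s k65 k129 7 (.d k195 k130 k194
  8 0))))))), (.s k64 k127 6 (.s k169 k253 13 (.s k192 k128 7 (.s k232 k43 8 (.s k252 k212 5 (.s k84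
  k168 13 (.d k86 k3 k87 14 0))))))), (.s k3 k2 0 (.s k64 k127 6 (.s k192 k128 7 (.s k66 k129 8 (.s
  k86 k126 5 (.d k87 k84 k171 0 13))))))] .n) (.c k64 (.q k3 [(.s k1 k2 0 (.s k169 k253 13 (.s k86
  k252 14 (.d k87 k84 k171 0 13)))), (.s k87 k171 13 (.s k86 k84 0 (.s k66 k126 5 (.s k192 k129 8
  (.s k149 k63 14 (.d k213 k234 k21 6 7)))))), (.s k1 k2 0 (.s k169 k253 13 (.s k43 k232 8 (.s k63
  k23 5 (.s k21 k42 6 (.d k149 k213 k192 7 14))))))] (.c k86 (.q k83 [(.s k243 k163 11 (.s k81 k162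
  12 (.s k82 k80 0 (.s k161 k240 12 (.d k1 k2 k241 0 11))))), (.s k87 k171 13 (.s k91 k95 1 (.s k243
  k163 11 (.s k167 k15 13 (.d k247 k251 k7 1 11))))), (.s k87 k171 13 (.s k95 k91 1 (.s k80 k90 2
  (.s k82 k81 0 (.d k240 k160 k161 11 12)))))] (.c k2 (.q k254 [(.s k243 k163 11 (.s k81 k162 12 (.s
  k89 k93 1 (.s k166 k12 14 (.d k247 k251 k4 1 12))))), (.s k87 k171 13 (.s k91 k95 1 (.s k243 k163
  11 (.s k167 k15 13 (.d k247 k251 k7 1 11))))), (.s k87 k171 13 (.s k95 k91 1 (.s k80 k90 2 (.s k82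
  k81 0 (.d k240 k160 k161 11 12)))))] (.c k251 (.l (.s k243 k163 11 (.s k81 k162 12 (.s k82 k80 0
  (.s k161 k240 12 (.s k1 k241 11 (.d k253 k252 k169 0 13))))))) .n)) (.c k254 (.l (.s k2 k1 0 (.s
  k87 k171 13 (.s k91 k95 1 (.s k243 k163 11 (.s k167 k15 13 (.d k247 k251 k7 1 11))))))) .n))) (.c
  k169 (.f k171 k87 13 (.q k51 [(.s k17 k34 4 (.s k119 k187 9 (.s k153 k221 9 (.d k102 k68 k204 4
  14)))), (.s k2 k1 0 (.s k34 k17 4 (.s k18 k50 3 (.s k33 k48 4 (.d k35 k19 k32 3 0))))), (.s k119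
  k187 9 (.s k102 k68 4 (.s k98 k110 1 (.s k192 k145 12 (.s k149 k63 14 (.d k213 k234 k21 6 7))))))]
  (.c k19 (.q k223 [(.s k207 k239 3 (.s k69 k138 10 (.s k101 k117 3 (.d k154 k16 k48 10 14)))), (.s
  k17 k34 4 (.s k119 k187 9 (.s k102 k68 4 (.d k153 k221 k204 9 14))))] .n) (.c k223 (.l (.s k19 k35
  3 (.s k1 k2 0 (.s k17 k34 4 (.s k18 k16 0 (.d k33 k49 k48 3 4)))))) .n)))) .n))) (.c k127 (.q k195
  [(.s k65 k130 8 (.s k215 k235 5 (.s k150 k20 8 (.d k105 k125 k60 5 14)))), (.s k65 k130 8 (.s k105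
  k125 5 (.s k107 k104 0 (.s k63 k151 13 (.s k21 k42 6 (.d k149 k213 k192 7 14)))))), (.s k215 k235
  5 (.s k150 k20 8 (.s k194 k62 13 (.s k192 k193 0 (.s k149 k63 14 (.d k213 k234 k21 6 7))))))] (.c
  k105 (.q k149 [(.s k21 k213 7 (.d k63 k42 k192 6 14)), (.s k63 k192 14 (.s k151 k107 13 (.s k150
  k148 0 (.d k215 k235 k20 5 8))))] (.c k40 (.l (.s k235 k215 5 (.s k21 k213 7 (.d k63 k42 k192 6
  14)))) (.c k63 (.l (.s k213 k21 7 (.s k192 k234 6 (.s k194 k193 0 (.s k150 k62 13 (.d k215 k235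
  k20 5 8)))))) (.c k192 (.l (.s k21 k213 7 (.s k63 k42 6 (.s k151 k107 13 (.s k150 k148 0 (.d k215
  k235 k20 5 8)))))) (.c k235 (.q k40 [(.s k21 k213 7 (.d k63 k42 k192 6 14)), (.s k20 k60 5 (.s k63
  k192 14 (.s k150 k215 8 (.d k151 k148 k107 0 13))))] (.c k63 (.l (.s k20 k60 5 (.s k150 k215 8 (.s
  k213 k21 7 (.s k192 k234 6 (.d k194 k62 k193 13 0)))))) (.c k192 (.l (.s k20 k60 5 (.s k21 k213 7
  (.s k63 k42 6 (.s k150 k215 8 (.d k151 k148 k107 0 13)))))) .n))) .n))))) (.c k150 (.q k199 [(.s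
  k207 k203 1 (.s k69 k138 10 (.s k101 k117 3 (.s k154 k48 14 (.d k223 k239 k16 3 10))))), (.s k215
  k235 5 (.s k247 k231 3 (.s k4 k166 12 (.s k12 k8 1 (.d k134 k69 k73 8 10))))), (.s k207 k203 1 (.s
  k215 k235 5 (.s k223 k239 3 (.s k219 k211 1 (.d k231 k247 k243 3 5))))), (.s k207 k203 1 (.s k69
  k138 10 (.s k4 k134 8 (.s k215 k235 5 (.d k247 k166 k231 12 3)))))] (.c k130 (.q k190 [(.s k207
  k203 1 (.s k69 k138 10 (.s k101 k117 3 (.s k223 k239 3 (.d k154 k16 k48 10 14))))), (.s k215 k235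
  5 (.s k247 k231 3 (.s k4 k166 12 (.s k12 k8 1 (.d k134 k69 k73 8 10))))), (.s k207 k203 1 (.s k215
  k235 5 (.s k223 k239 3 (.s k219 k211 1 (.d k231 k247 k243 3 5))))), (.s k125 k60 8 (.s k65 k105 5
  (.s k207 k203 1 (.s k69 k138 10 (.s k73 k77 1 (.d k134 k4 k12 8 10))))))] .n) (.c k190 (.l (.s
  k130 k65 8 (.s k207 k203 1 (.s k69 k138 10 (.s k4 k134 8 (.s k215 k235 5 (.d k247 k166 k231 12
  3))))))) .n))) .n))) (.c k128 (.l (.s k127 k64 6 (.s k63 k191 7 (.s k149 k192 14 (.d k21 k42 k213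
  6 7))))) (.c k149 (.f k64 k127 6 (.q k101 [(.s k69 k117 3 (.s k79 k74 2 (.s k96 k111 2 (.d k112
  k80 k90 3 6)))), (.s k69 k117 3 (.s k207 k138 10 (.s k154 k48 14 (.d k223 k239 k16 3 10)))), (.s
  k96 k111 2 (.s k117 k69 3 (.s k48 k186 10 (.d k192 k128 k144 7 11))))] (.c k69 (.l (.s k96 k111 2
  (.s k80 k112 3 (.s k160 k240 11 (.s k32 k224 7 (.s k48 k16 3 (.d k192 k128 k144 7 11))))))) (.c
  k117 (.l (.s k96 k111 2 (.s k112 k80 3 (.s k79 k90 6 (.s k69 k74 2 (.s k207 k138 10 (.s k154 k48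
  14 (.d k223 k239 k16 3 10)))))))) (.c k128 (.q k191 [(.s k69 k117 3 (.s k79 k74 2 (.s k96 k111 2
  (.d k112 k80 k90 3 6)))), (.s k117 k69 3 (.s k48 k186 10 (.s k16 k32 3 (.d k154 k223 k207 10
  14))))] (.c k69 (.l (.s k96 k111 2 (.s k80 k112 3 (.s k240 k160 11 (.s k245 k250 2 (.s k165 k5 11
  (.d k90 k95 k15 2 14))))))) (.c k117 (.l (.s k96 k111 2 (.s k112 k80 3 (.s k79 k90 6 (.s k69 k74 2
  (.s k207 k138 10 (.s k154 k48 14 (.d k223 k239 k16 3 10)))))))) .n))) (.c k191 (.l (.s k128 k192 7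
  (.s k69 k117 3 (.s k79 k74 2 (.s k96 k111 2 (.d k112 k80 k90 3 6)))))) .n)))))) (.c k191 (.l (.s
  k64 k127 6 (.s k192 k128 7 (.s k149 k63 14 (.d k213 k234 k21 6 7))))) (.c k192 (.q k1 [(.s k3 k2 0
  (.s k169 k253 13 (.s k86 k252 14 (.d k87 k84 k171 0 13)))), (.s k127 k64 6 (.s k63 k191 7 (.s k21
  k42 6 (.s k61 k41 5 (.s k253 k169 13 (.s k125 k189 7 (.d k60 k190 k62 8 0))))))), (.s k3 k2 0 (.s
  k127 k64 6 (.s k63 k191 7 (.s k21 k42 6 (.s k23 k43 5 (.s k22 k20 0 (.d k41 k61 k60 5 6)))))))]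
  .n) (.c k213 (.q k1 [(.s k3 k2 0 (.s k169 k253 13 (.s k86 k252 14 (.d k87 k84 k171 0 13)))), (.s
  k127 k64 6 (.s k63 k191 7 (.s k21 k42 6 (.s k61 k41 5 (.s k60 k62 0 (.s k125 k190 8 (.d k253 k189
  k169 7 13))))))), (.s k64 k127 6 (.s k169 k253 13 (.s k192 k128 7 (.s k149 k63 14 (.s k129 k189 5
  (.s k66 k3 8 (.d k65 k193 k67 7 0))))))), (.s k3 k2 0 (.s k64 k127 6 (.s k192 k128 7 (.s k66 k129
  8 (.s k86 k126 5 (.d k87 k84 k171 0 13))))))] .n) (.c k234 (.l (.s k127 k64 6 (.s k63 k191 7 (.s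
  k21 k42 6 (.d k149 k213 k192 7 14))))) .n))))))))))))

def t26_159 : T TT 256 :=
  (.f k255 k170 14 (.q k105 [(.s k65 k125 5 (.s k195 k130 8 (.s k150 k60 14 (.d k215 k235 k20 5
  8))))] (.c k20 (.q k1 [(.s k169 k253 13 (.s k3 k2 0 (.s k86 k252 14 (.d k87 k84 k171 0 13)))), (.s
  k65 k125 5 (.s k169 k253 13 (.s k41 k233 7 (.s k61 k21 5 (.d k193 k129 k149 7 13))))), (.s k3 k2 0
  (.s k65 k125 5 (.s k129 k193 7 (.s k66 k192 8 (.s k67 k64 0 (.d k195 k131 k130 7 8))))))] .n) (.c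
  k60 (.q k1 [(.s k3 k2 0 (.s k87 k171 13 (.s k86 k84 0 (.d k169 k253 k252 13 14)))), (.s k65 k125 5
  (.s k169 k253 13 (.s k41 k233 7 (.s k61 k21 5 (.d k193 k129 k149 7 13))))), (.s k3 k2 0 (.s k65
  k125 5 (.s k129 k193 7 (.s k66 k192 8 (.s k67 k64 0 (.d k195 k131 k130 7 8))))))] .n) (.c k65 (.q
  k1 [(.s k169 k253 13 (.s k3 k2 0 (.s k86 k252 14 (.d k87 k84 k171 0 13)))), (.s k169 k253 13 (.s
  k41 k233 7 (.s k21 k61 5 (.s k63 k42 6 (.s k127 k191 7 (.s k106 k64 6 (.d k149 k213 k192 7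
  14)))))))] (.c k169 (.f k3 k2 0 (.q k86 [(.d k87 k171 k84 13 0), (.s k67 k124 6 (.s k195 k131 7
  (.s k150 k60 14 (.d k215 k235 k20 5 8))))] (.c k168 (.l (.s k171 k87 13 (.s k67 k124 6 (.s k195
  k131 7 (.s k150 k60 14 (.d k215 k235 k20 5 8)))))) (.c k171 (.q k168 [(.d k84 k87 k252 0 13), (.s
  k67 k124 6 (.s k195 k131 7 (.s k215 k235 5 (.d k150 k20 k60 8 14))))] .n) .n)))) (.c k253 (.l (.s
  k3 k2 0 (.s k87 k171 13 (.s k86 k84 0 (.s k67 k124 6 (.s k195 k131 7 (.s k150 k60 14 (.d k215 k235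
  k20 5 8)))))))) .n))) (.c k125 (.q k253 [(.s k169 k1 13 (.s k252 k254 0 (.s k84 k168 13 (.d k86
  k87 k3 0 14)))), (.s k169 k1 13 (.s k233 k41 7 (.s k213 k193 5 (.s k192 k234 6 (.s k64 k128 7 (.s
  k106 k127 6 (.d k149 k21 k63 7 14)))))))] (.c k1 (.l (.s k252 k254 0 (.s k84 k168 13 (.s k86 k87 0
  (.s k124 k67 6 (.s k60 k188 7 (.s k20 k40 5 (.d k150 k215 k195 8 14)))))))) (.c k169 (.f k252 k254
  0 (.q k86 [(.d k84 k168 k87 13 0), (.s k124 k67 6 (.s k60 k188 7 (.s k20 k40 5 (.d k150 k215 k195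
  8 14))))] (.c k168 (.q k171 [(.d k87 k84 k3 0 13), (.s k124 k67 6 (.s k60 k188 7 (.s k20 k40 5 (.d
  k150 k215 k195 8 14))))] .n) (.c k171 (.l (.s k168 k84 13 (.s k124 k67 6 (.s k60 k188 7 (.s k20
  k40 5 (.d k150 k215 k195 8 14)))))) .n)))) .n))) (.c k130 (.l (.s k125 k65 5 (.s k60 k190 8 (.s
  k150 k195 14 (.d k20 k40 k215 5 8))))) (.c k150 (.f k125 k65 5 (.q k109 [(.s k77 k93 3 (.s k101
  k97 1 (.s k117 k69 3 (.d k113 k121 k89 1 5)))), (.s k93 k77 3 (.s k12 k174 12 (.s k4 k8 1 (.s k166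
  k247 12 (.d k89 k81 k243 1 14))))), (.s k101 k97 1 (.s k69 k117 3 (.s k207 k138 10 (.d k60 k190
  k158 8 12))))] (.c k69 (.l (.s k77 k93 3 (.s k101 k97 1 (.s k113 k89 5 (.s k117 k121 1 (.s k48
  k186 10 (.s k16 k32 3 (.d k154 k223 k207 10 14)))))))) (.c k81 (.l (.s k77 k93 3 (.s k101 k97 1
  (.s k113 k89 5 (.d k117 k121 k69 1 3))))) (.c k130 (.l (.s k190 k60 8 (.s k77 k93 3 (.s k101 k97 1
  (.s k113 k89 5 (.d k117 k121 k69 1 3)))))) (.c k190 (.q k130 [(.s k77 k93 3 (.s k101 k97 1 (.s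
  k117 k69 3 (.d k113 k121 k89 1 5)))), (.s k93 k77 3 (.s k12 k174 12 (.s k4 k8 1 (.s k166 k247 12
  (.d k89 k81 k243 1 14))))), (.s k101 k97 1 (.s k69 k117 3 (.s k207 k138 10 (.s k154 k48 14 (.d
  k223 k239 k16 3 10)))))] (.c k69 (.l (.s k77 k93 3 (.s k101 k97 1 (.s k113 k89 5 (.s k117 k121 1
  (.s k48 k186 10 (.s k16 k32 3 (.d k154 k223 k207 10 14)))))))) (.c k81 (.l (.s k77 k93 3 (.s k101
  k97 1 (.s k113 k89 5 (.d k117 k121 k69 1 3))))) .n))) .n)))))) (.c k190 (.l (.s k65 k125 5 (.s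
  k195 k130 8 (.s k150 k60 14 (.d k215 k235 k20 5 8))))) (.c k195 (.q k1 [(.s k3 k2 0 (.s k87 k171
  13 (.s k86 k84 0 (.d k169 k253 k252 13 14)))), (.s k65 k125 5 (.s k169 k253 13 (.s k41 k233 7 (.s
  k61 k21 5 (.d k193 k129 k149 7 13))))), (.s k3 k2 0 (.s k125 k65 5 (.s k60 k190 8 (.s k40 k20 5
  (.s k41 k22 6 (.s k21 k61 5 (.d k42 k43 k63 0 6)))))))] .n) (.c k215 (.q k1 [(.s k169 k253 13 (.s
  k3 k2 0 (.s k86 k252 14 (.d k87 k84 k171 0 13)))), (.s k65 k125 5 (.s k169 k253 13 (.s k41 k233 7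
  (.s k61 k21 5 (.d k193 k129 k149 7 13))))), (.s k3 k2 0 (.s k65 k125 5 (.s k129 k193 7 (.s k66
  k192 8 (.s k67 k64 0 (.d k195 k131 k130 7 8))))))] .n) (.c k235 (.l (.s k125 k65 5 (.s k60 k190 8
  (.s k20 k40 5 (.d k150 k215 k195 8 14))))) .n))))))))))))

def t26_161 : T TT 256 :=
  (.f k255 k170 14 (.q k89 [(.s k81 k93 1 (.s k243 k162 12 (.s k166 k12 14 (.d k247 k251 k4 1
  12)))), (.s k93 k81 1 (.s k12 k174 12 (.s k4 k8 1 (.d k166 k247 k243 12 14))))] (.c k4 (.q k1 [(.s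
  k169 k253 13 (.s k3 k2 0 (.s k86 k252 14 (.d k87 k84 k171 0 13)))), (.s k93 k81 1 (.s k253 k169 13
  (.s k13 k173 11 (.s k165 k241 13 (.d k5 k9 k245 1 11))))), (.s k3 k2 0 (.s k93 k81 1 (.s k12 k174
  12 (.s k6 k9 2 (.s k166 k243 14 (.s k86 k246 11 (.d k87 k84 k171 0 13)))))))] (.c k171 (.l (.s k3
  k2 0 (.s k93 k81 1 (.s k12 k174 12 (.s k9 k6 2 (.d k169 k249 k253 11 13)))))) .n)) (.c k12 (.q k3
  [(.s k1 k2 0 (.s k87 k171 13 (.s k86 k84 0 (.d k169 k253 k252 13 14)))), (.s k81 k93 1 (.s k87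
  k171 13 (.s k243 k162 12 (.s k247 k251 1 (.s k167 k7 11 (.s k91 k15 13 (.d k83 k163 k95 11
  1))))))), (.s k1 k2 0 (.s k81 k93 1 (.s k169 k253 13 (.s k86 k252 14 (.s k243 k162 12 (.d k83 k92
  k163 2 11))))))] (.c k169 (.l (.s k2 k1 0 (.s k81 k93 1 (.s k162 k243 12 (.s k82 k242 11 (.s k83
  k80 0 (.s k86 k92 2 (.d k87 k84 k171 0 13)))))))) .n)) (.c k81 (.q k1 [(.s k169 k253 13 (.s k3 k2
  0 (.s k86 k252 14 (.d k87 k84 k171 0 13)))), (.s k169 k253 13 (.s k9 k249 11 (.s k5 k13 1 (.s k15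
  k10 2 (.s k95 k175 11 (.s k90 k80 2 (.d k165 k245 k240 11 14)))))))] (.c k169 (.q k165 [(.s k5
  k245 11 (.d k13 k9 k241 1 13)), (.s k5 k245 11 (.s k15 k10 2 (.s k90 k240 14 (.d k95 k80 k175 2
  11))))] (.c k5 (.q k166 [(.s k4 k247 12 (.d k12 k8 k243 1 14)), (.s k3 k2 0 (.s k12 k243 14 (.s k6
  k9 2 (.s k86 k246 11 (.d k87 k171 k84 13 0))))), (.s k3 k2 0 (.s k167 k164 0 (.s k247 k4 12 (.d
  k87 k7 k171 11 13))))] (.c k168 (.q k171 [(.d k3 k2 k87 0 13), (.s k4 k247 12 (.d k12 k8 k243 1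
  14))] .n) (.c k171 (.q k168 [(.s k4 k247 12 (.d k12 k8 k243 1 14)), (.s k12 k243 14 (.s k164 k167
  0 (.s k160 k172 1 (.d k240 k80 k88 11 13)))), (.s k4 k247 12 (.s k84 k252 13 (.d k164 k167 k244 0
  11)))] .n) .n))) (.c k168 (.q k171 [(.d k3 k2 k87 0 13), (.s k5 k245 11 (.d k13 k9 k241 1 13))]
  .n) (.c k171 (.q k168 [(.s k5 k245 11 (.d k13 k9 k241 1 13)), (.s k84 k252 13 (.s k86 k87 0 (.s
  k92 k83 2 (.s k80 k88 1 (.s k240 k160 11 (.d k90 k95 k15 2 14))))))] .n) (.c k245 (.l (.s k13 k241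
  13 (.s k5 k9 1 (.s k15 k10 2 (.s k90 k240 14 (.d k95 k80 k175 2 11)))))) .n))))) (.c k253 (.l (.s
  k3 k2 0 (.s k87 k171 13 (.s k86 k84 0 (.s k83 k92 2 (.s k243 k163 11 (.s k166 k12 14 (.d k247 k251
  k4 1 12)))))))) .n))) (.c k93 (.q k68 [(.s k102 k119 4 (.s k204 k136 9 (.s k153 k51 14 (.d k221
  k238 k17 4 9)))), (.s k102 k119 4 (.s k76 k115 6 (.s k64 k72 1 (.s k192 k128 7 (.s k213 k234 6 (.s
  k149 k21 7 (.d k106 k127 k63 6 14)))))))] (.c k102 (.f k204 k136 9 (.q k153 [(.d k221 k238 k17 4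
  9), (.s k217 k25 7 (.s k243 k230 6 (.s k166 k12 14 (.d k247 k251 k4 1 12))))] (.c k34 (.l (.s k238
  k221 4 (.s k217 k25 7 (.s k243 k230 6 (.s k166 k12 14 (.d k247 k251 k4 1 12)))))) (.c k238 (.q k34
  [(.d k17 k51 k221 4 9), (.s k217 k25 7 (.s k243 k230 6 (.s k247 k251 1 (.d k166 k4 k12 12 14))))]
  .n) .n)))) (.c k119 (.l (.s k204 k136 9 (.s k221 k238 4 (.s k153 k17 9 (.s k217 k25 7 (.s k243
  k230 6 (.s k166 k12 14 (.d k247 k251 k4 1 12)))))))) .n))) (.c k162 (.l (.s k93 k81 1 (.s k12 k174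
  12 (.s k166 k243 14 (.d k4 k8 k247 1 12))))) (.c k166 (.f k93 k81 1 (.f k174 k12 12 (.q k253 [(.s
  k252 k254 0 (.s k84 k168 13 (.s k86 k87 0 (.d k169 k1 k3 13 14)))), (.s k13 k173 11 (.s k169 k1 13
  (.s k241 k165 13 (.d k249 k245 k9 1 11))))] (.c k1 (.q k241 [(.d k13 k173 k165 11 13)] (.c k13 (.l
  (.s k245 k249 1 (.s k240 k250 2 (.s k80 k160 11 (.s k90 k95 2 (.d k165 k5 k15 11 14)))))) (.c k165
  (.l (.s k173 k13 11 (.s k175 k172 0 (.s k15 k95 11 (.d k252 k254 k94 0 12))))) (.c k173 (.l (.s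
  k165 k13 13 (.d k245 k5 k249 11 1))) .n)))) (.c k169 (.l (.s k173 k13 11 (.s k252 k254 0 (.s k15
  k94 12 (.d k175 k172 k95 0 11))))) (.c k241 (.l (.s k1 k169 13 (.s k173 k13 11 (.s k252 k254 0 (.s
  k15 k94 12 (.d k175 k172 k95 0 11)))))) .n)))))) (.c k174 (.l (.s k81 k93 1 (.s k243 k162 12 (.s
  k166 k12 14 (.d k247 k251 k4 1 12))))) (.c k243 (.q k1 [(.s k3 k2 0 (.s k87 k171 13 (.s k86 k84 0
  (.d k169 k253 k252 13 14)))), (.s k93 k81 1 (.s k253 k169 13 (.s k13 k173 11 (.s k165 k241 13 (.d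
  k5 k9 k245 1 11))))), (.s k3 k2 0 (.s k93 k81 1 (.s k12 k174 12 (.s k8 k4 1 (.s k9 k6 2 (.s k5 k13
  1 (.d k10 k11 k15 0 2)))))))] .n) (.c k247 (.q k1 [(.s k169 k253 13 (.s k3 k2 0 (.s k86 k252 14
  (.d k87 k84 k171 0 13)))), (.s k93 k81 1 (.s k253 k169 13 (.s k13 k173 11 (.s k165 k241 13 (.d k5
  k9 k245 1 11))))), (.s k3 k2 0 (.s k93 k81 1 (.s k12 k174 12 (.s k6 k9 2 (.s k166 k243 14 (.s k86
  k246 11 (.d k87 k84 k171 0 13)))))))] (.c k171 (.l (.s k3 k2 0 (.s k93 k81 1 (.s k12 k174 12 (.s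
  k9 k6 2 (.d k169 k249 k253 11 13)))))) .n)) .n)))))))))))

def t26_162 : T TT 256 :=
  (.f k170 k255 14 (.q k252 [(.s k84 k168 13 (.s k86 k87 0 (.s k2 k254 13 (.d k3 k1 k169 0 14))))]
  (.c k1 (.q k4 [(.s k12 k8 1 (.s k84 k168 13 (.s k92 k172 11 (.s k88 k80 1 (.d k164 k244 k240 11
  13))))), (.s k84 k168 13 (.s k86 k87 0 (.s k166 k247 12 (.s k6 k246 11 (.s k7 k5 0 (.d k244 k164
  k165 11 12)))))), (.s k12 k8 1 (.s k166 k247 12 (.s k172 k92 11 (.s k169 k163 2 (.s k3 k86 14 (.s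
  k9 k6 2 (.d k89 k243 k249 14 11)))))))] .n) (.c k2 (.f k84 k168 13 (.f k86 k87 0 (.f k3 k169 14
  (.q k82 [(.s k90 k94 1 (.s k240 k161 12 (.d k80 k160 k95 11 2))), (.s k90 k94 1 (.s k80 k95 2 (.s
  k83 k81 0 (.d k92 k88 k89 1 2)))), (.s k90 k94 1 (.s k10 k250 11 (.s k15 k5 2 (.d k240 k161 k165
  12 14)))), (.s k240 k161 12 (.s k160 k80 11 (.s k165 k175 2 (.d k244 k248 k7 1 12))))] .n)))) (.c
  k3 (.f k84 k168 13 (.q k68 [(.s k100 k116 3 (.s k204 k136 9 (.s k220 k236 3 (.d k152 k16 k48 9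
  13)))), (.s k102 k119 4 (.s k34 k238 9 (.s k51 k17 4 (.s k118 k185 10 (.d k86 k87 k70 0 3)))))]
  (.c k87 (.q k171 [(.s k100 k116 3 (.s k204 k136 9 (.s k220 k236 3 (.d k152 k16 k48 9 13)))), (.s
  k102 k119 4 (.s k34 k238 9 (.s k51 k17 4 (.d k204 k136 k153 9 14)))), (.s k116 k100 3 (.s k119
  k102 4 (.s k117 k118 0 (.s k101 k69 3 (.s k32 k239 10 (.d k48 k16 k184 3 9))))))] .n) (.c k171 (.l
  (.s k87 k86 0 (.s k100 k116 3 (.s k204 k136 9 (.s k152 k48 13 (.d k220 k236 k16 3 9)))))) (.c k204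
  (.l (.s k116 k100 3 (.s k48 k184 9 (.s k32 k16 3 (.s k101 k239 10 (.d k86 k87 k71 0 4))))))
  .n))))) (.c k84 (.q k153 [(.s k17 k221 9 (.s k51 k34 4 (.s k136 k187 4 (.d k204 k68 k102 9 14)))),
  (.s k136 k187 4 (.s k204 k68 9 (.s k220 k236 3 (.s k86 k19 10 (.s k2 k254 13 (.d k3 k1 k169 0
  14)))))), (.s k17 k221 9 (.s k51 k34 4 (.s k185 k118 10 (.s k169 k137 3 (.s k1 k253 13 (.d k3 k2
  k86 0 14))))))] (.c k51 (.f k187 k136 4 (.q k1 [(.s k169 k253 13 (.d k3 k2 k86 0 14)), (.s k17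
  k221 9 (.s k49 k33 3 (.s k101 k205 13 (.s k32 k239 10 (.s k48 k16 3 (.s k69 k117 3 (.d k207 k138
  k154 10 14)))))))] (.c k253 (.l (.s k3 k2 0 (.s k17 k221 9 (.s k33 k49 3 (.s k86 k169 14 (.s k19
  k220 10 (.d k18 k16 k48 0 4))))))) .n))) (.c k204 (.q k154 [(.s k16 k223 10 (.s k138 k186 3 (.s
  k207 k69 10 (.d k48 k32 k101 3 14)))), (.s k136 k187 4 (.s k152 k155 0 (.s k184 k168 3 (.s k139
  k169 4 (.d k138 k137 k186 0 3))))), (.s k16 k223 10 (.s k48 k32 3 (.s k136 k187 4 (.s k152 k155 0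
  (.d k184 k168 k116 3 9)))))] (.c k221 (.q k238 [(.s k138 k186 3 (.s k207 k69 10 (.s k48 k101 14
  (.d k16 k32 k223 3 10)))), (.s k34 k102 9 (.s k51 k17 4 (.s k185 k118 10 (.s k186 k138 3 (.d k187
  k184 k136 0 4))))), (.s k16 k223 10 (.s k48 k32 3 (.s k136 k187 4 (.s k152 k155 0 (.d k184 k168
  k116 3 9)))))] .n) (.c k238 (.l (.s k221 k17 9 (.s k16 k223 10 (.s k48 k32 3 (.s k138 k186 3 (.d
  k207 k69 k101 10 14)))))) .n))) .n))) (.c k86 (.q k5 [(.s k165 k245 11 (.s k160 k175 2 (.s k240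
  k80 11 (.d k15 k10 k90 2 14)))), (.s k165 k245 11 (.s k168 k84 13 (.s k169 k171 0 (.s k1 k253 13
  (.s k13 k9 1 (.s k161 k173 1 (.d k241 k81 k89 11 13))))))), (.s k10 k15 2 (.s k168 k84 13 (.s k169
  k171 0 (.s k1 k253 13 (.s k9 k13 1 (.s k8 k11 0 (.d k89 k251 k249 12 11)))))))] .n) (.c k87 (.l
  (.s k168 k84 13 (.s k169 k171 0 (.s k3 k86 14 (.d k1 k2 k253 0 13))))) (.c k168 (.q k102 [(.s k34
  k238 9 (.s k51 k17 4 (.s k68 k119 4 (.d k204 k136 k153 9 14)))), (.s k68 k119 4 (.s k204 k136 9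
  (.s k236 k220 3 (.s k169 k35 10 (.s k1 k253 13 (.d k3 k2 k86 0 14)))))), (.s k34 k238 9 (.s k51
  k17 4 (.s k118 k185 10 (.s k86 k70 3 (.s k2 k254 13 (.d k3 k1 k169 0 14))))))] (.c k51 (.q k149
  [(.s k21 k213 7 (.s k128 k191 6 (.s k192 k64 7 (.d k63 k42 k106 6 14)))), (.s k55 k196 12 (.s k119
  k68 4 (.s k247 k183 7 (.s k4 k166 12 (.d k21 k38 k213 4 7))))), (.s k128 k191 6 (.s k192 k64 7 (.s
  k196 k55 12 (.s k204 k200 1 (.d k68 k119 k136 4 9)))))] (.c k119 (.q k187 [(.s k21 k213 7 (.s k128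
  k191 6 (.s k192 k64 7 (.d k63 k42 k106 6 14)))), (.s k153 k136 4 (.s k157 k145 1 (.s k191 k128 6
  (.s k179 k183 1 (.d k140 k174 k166 4 6))))), (.s k21 k213 7 (.s k34 k238 9 (.s k55 k196 12 (.s k38
  k4 4 (.d k42 k46 k63 1 6)))))] (.c k192 (.l (.s k128 k191 6 (.s k136 k153 4 (.s k68 k204 9 (.s
  k132 k140 1 (.d k196 k4 k55 7 12)))))) .n)) (.c k187 (.l (.s k119 k68 4 (.s k21 k213 7 (.s k55
  k196 12 (.s k4 k38 4 (.d k247 k183 k166 7 12)))))) .n))) (.c k204 (.q k118 [(.s k51 k185 10 (.d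
  k34 k238 k17 9 4)), (.s k86 k70 3 (.s k2 k254 13 (.d k3 k1 k169 0 14)))] (.c k221 (.l (.s k238 k34
  9 (.s k86 k70 3 (.s k2 k254 13 (.d k3 k1 k169 0 14))))) (.c k238 (.q k221 [(.s k17 k153 9 (.d k51
  k34 k185 4 10)), (.s k86 k70 3 (.s k2 k254 13 (.d k3 k1 k169 0 14)))] .n) .n))) .n))) (.c k169 (.q
  k5 [(.s k165 k245 11 (.s k160 k175 2 (.s k240 k80 11 (.d k15 k10 k90 2 14)))), (.s k10 k15 2 (.s
  k84 k168 13 (.s k86 k87 0 (.s k2 k254 13 (.s k6 k14 1 (.s k4 k7 0 (.d k166 k247 k246 12 11))))))),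
  (.s k84 k168 13 (.s k86 k87 0 (.s k165 k245 11 (.s k244 k7 12 (.s k240 k248 1 (.d k160 k175 k80 2
  11))))))] (.c k175 (.l (.s k15 k10 2 (.s k84 k168 13 (.s k86 k87 0 (.s k94 k173 12 (.s k90 k82 1
  (.d k165 k245 k240 11 14))))))) .n)) (.c k171 (.l (.s k84 k168 13 (.s k86 k87 0 (.s k3 k169 14 (.d
  k2 k1 k254 0 13))))) (.c k254 (.l (.s k168 k84 13 (.s k169 k171 0 (.s k1 k253 13 (.d k3 k2 k86 0
  14))))) .n))))))))))))

def t26_163 : T TT 256 :=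
  (.f k255 k170 14 (.q k165 [(.s k5 k245 11 (.s k15 k10 2 (.s k90 k240 14 (.d k95 k80 k175 2 11)))),
  (.s k245 k5 11 (.s k240 k250 2 (.s k90 k15 14 (.d k80 k95 k160 2 11))))] (.c k5 (.q k93 [(.s k12
  k174 12 (.s k4 k8 1 (.s k89 k81 1 (.d k166 k247 k243 12 14)))), (.s k89 k81 1 (.s k13 k241 13 (.s
  k253 k173 11 (.s k252 k254 0 (.s k84 k168 13 (.s k86 k87 0 (.d k169 k1 k3 13 14)))))))] (.c k81
  (.l (.s k12 k174 12 (.s k4 k8 1 (.s k166 k247 12 (.s k164 k167 0 (.s k240 k88 13 (.s k80 k160 11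
  (.d k90 k95 k15 2 14)))))))) (.c k89 (.f k12 k174 12 (.q k166 [(.d k4 k8 k247 1 12), (.s k164 k167
  0 (.s k240 k88 13 (.s k80 k160 11 (.d k90 k95 k15 2 14))))] (.c k8 (.q k251 [(.d k247 k243 k4 1
  12), (.s k164 k167 0 (.s k240 k88 13 (.s k80 k160 11 (.d k90 k95 k15 2 14))))] .n) (.c k251 (.l
  (.s k8 k4 1 (.s k164 k167 0 (.s k240 k88 13 (.s k80 k160 11 (.d k90 k95 k15 2 14)))))) .n))))
  .n))) (.c k10 (.l (.s k245 k5 11 (.s k240 k250 2 (.s k90 k15 14 (.d k80 k95 k160 2 11))))) (.c k15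
  (.q k37 [(.s k101 k229 7 (.s k69 k117 3 (.s k207 k138 10 (.s k154 k48 14 (.d k223 k239 k16 3
  10))))), (.s k5 k245 11 (.s k21 k53 3 (.s k63 k42 6 (.s k127 k191 7 (.s k106 k64 6 (.d k149 k213
  k192 7 14))))))] (.c k117 (.l (.s k229 k101 7 (.s k245 k5 11 (.s k213 k197 3 (.s k149 k21 7 (.s
  k192 k234 6 (.s k64 k128 7 (.d k106 k127 k63 6 14)))))))) .n)) (.c k80 (.q k1 [(.s k3 k2 0 (.s
  k169 k253 13 (.s k86 k252 14 (.d k87 k84 k171 0 13)))), (.s k5 k245 11 (.s k13 k9 1 (.s k89 k241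
  13 (.s k93 k81 1 (.d k253 k173 k169 11 13))))), (.s k3 k2 0 (.s k5 k245 11 (.s k9 k13 1 (.s k6 k12
  2 (.s k7 k4 0 (.d k15 k11 k10 1 2))))))] .n) (.c k90 (.q k250 [(.d k245 k240 k5 2 11)] (.c k5 (.q
  k154 [(.s k16 k223 10 (.s k176 k143 6 (.s k240 k245 2 (.d k48 k32 k112 3 7)))), (.s k16 k223 10
  (.s k48 k32 3 (.s k101 k207 14 (.d k117 k69 k186 3 10)))), (.s k176 k143 6 (.s k240 k245 2 (.s k48
  k112 7 (.s k101 k207 14 (.d k117 k69 k186 3 10)))))] (.c k48 (.l (.s k223 k16 10 (.s k207 k239 3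
  (.s k69 k138 10 (.s k101 k117 3 (.s k240 k245 2 (.d k229 k218 k37 6 7))))))) .n)) (.c k154 (.q
  k218 [(.d k245 k240 k5 2 11)] (.c k5 (.l (.s k234 k202 3 (.s k192 k213 6 (.s k240 k245 2 (.s k224
  k208 3 (.d k229 k239 k207 2 6)))))) (.c k138 (.q k186 [(.d k245 k240 k5 2 11), (.s k48 k117 10 (.s
  k58 k122 7 (.s k234 k202 3 (.s k213 k192 6 (.s k21 k149 7 (.d k63 k53 k42 2 6))))))] .n) (.c k186
  (.q k138 [(.d k245 k240 k5 2 11), (.s k207 k69 10 (.s k223 k239 3 (.s k213 k208 2 (.d k234 k202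
  k192 3 6))))] .n) (.c k240 (.l (.s k234 k202 3 (.s k213 k192 6 (.s k149 k21 7 (.s k181 k133 3 (.s
  k245 k5 11 (.s k53 k117 7 (.d k197 k229 k101 3 11)))))))) (.c k245 (.l (.s k234 k202 3 (.s k192
  k213 6 (.s k64 k128 7 (.s k106 k127 6 (.s k224 k47 10 (.s k229 k239 2 (.d k240 k208 k207 3
  6)))))))) .n)))))) (.c k218 (.q k154 [(.d k245 k240 k5 2 11), (.s k16 k223 10 (.s k48 k32 3 (.s
  k117 k186 10 (.d k101 k69 k207 3 14))))] .n) (.c k240 (.q k154 [(.s k16 k223 10 (.s k48 k32 3 (.s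
  k117 k186 10 (.d k101 k69 k207 3 14)))), (.s k5 k245 11 (.s k15 k10 2 (.s k143 k176 6 (.s k207 k79
  7 (.s k69 k138 10 (.d k101 k48 k117 14 3)))))), (.s k5 k245 11 (.s k15 k10 2 (.s k223 k16 10 (.s
  k207 k239 3 (.d k143 k176 k79 6 7)))))] (.c k101 (.l (.s k5 k245 11 (.s k15 k10 2 (.s k143 k176 6
  (.s k223 k16 10 (.d k207 k239 k79 3 7)))))) (.c k207 (.l (.s k16 k223 10 (.s k48 k32 3 (.s k176
  k143 6 (.s k186 k117 10 (.s k58 k122 7 (.s k63 k53 2 (.d k191 k181 k127 2 7)))))))) .n))) (.c k245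
  (.q k166 [(.s k247 k4 12 (.s k243 k251 1 (.s k89 k12 14 (.d k81 k93 k162 1 12)))), (.s k167 k164 0
  (.s k247 k4 12 (.s k87 k7 11 (.s k3 k171 13 (.s k1 k2 0 (.s k169 k253 13 (.d k86 k84 k252 0
  14)))))))] (.c k4 (.q k154 [(.s k16 k223 10 (.s k48 k32 3 (.s k101 k207 14 (.d k117 k69 k186 3
  10)))), (.s k142 k178 5 (.s k143 k176 6 (.s k140 k141 0 (.s k167 k164 0 (.d k179 k155 k153 5
  6)))))] .n) (.c k154 (.q k218 [(.s k247 k4 12 (.s k243 k251 1 (.s k89 k12 14 (.d k81 k93 k162 1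
  12)))), (.s k234 k202 3 (.s k192 k213 6 (.s k64 k128 7 (.s k106 k127 6 (.s k224 k47 10 (.s k229
  k239 2 (.d k240 k208 k207 3 6)))))))] (.c k138 (.q k186 [(.s k247 k4 12 (.s k243 k251 1 (.s k89
  k12 14 (.d k81 k93 k162 1 12)))), (.s k48 k117 10 (.s k58 k122 7 (.s k234 k202 3 (.s k213 k192 6
  (.s k21 k149 7 (.d k63 k53 k42 2 6))))))] .n) (.c k186 (.q k138 [(.s k4 k247 12 (.s k12 k8 1 (.s
  k93 k174 12 (.d k89 k81 k243 1 14)))), (.s k207 k69 10 (.s k223 k239 3 (.s k213 k208 2 (.d k234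
  k202 k192 3 6))))] .n) .n))) (.c k218 (.q k154 [(.s k4 k247 12 (.s k12 k8 1 (.s k93 k174 12 (.d
  k89 k81 k243 1 14)))), (.s k16 k223 10 (.s k48 k32 3 (.s k101 k207 14 (.d k117 k69 k186 3 10))))]
  .n) (.c k247 (.q k154 [(.s k16 k223 10 (.s k48 k32 3 (.s k101 k207 14 (.d k117 k69 k186 3 10)))),
  (.s k142 k178 5 (.s k143 k176 6 (.s k140 k141 0 (.s k167 k164 0 (.d k179 k155 k153 5 6)))))] (.c
  k244 (.q k246 [(.s k16 k223 10 (.s k48 k32 3 (.s k101 k207 14 (.d k117 k69 k186 3 10)))), (.s k86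
  k6 11 (.s k84 k87 0 (.s k252 k168 13 (.d k254 k253 k242 0 1))))] .n) (.c k246 (.q k244 [(.s k164
  k167 0 (.s k84 k4 11 (.d k86 k87 k7 0 12))), (.s k16 k223 10 (.s k48 k32 3 (.s k101 k207 14 (.d
  k117 k69 k186 3 10))))] .n) .n))) .n))))) .n)))))) (.c k95 (.q k1 [(.s k3 k2 0 (.s k169 k253 13
  (.s k86 k252 14 (.d k87 k84 k171 0 13)))), (.s k5 k245 11 (.s k13 k9 1 (.s k89 k241 13 (.s k93 k81
  1 (.d k253 k173 k169 11 13))))), (.s k3 k2 0 (.s k5 k245 11 (.s k9 k13 1 (.s k6 k12 2 (.s k7 k4 0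
  (.d k15 k11 k10 1 2))))))] .n) (.c k240 (.q k1 [(.s k3 k2 0 (.s k169 k253 13 (.s k86 k252 14 (.d
  k87 k84 k171 0 13)))), (.s k5 k245 11 (.s k13 k9 1 (.s k89 k241 13 (.s k93 k81 1 (.d k253 k173
  k169 11 13))))), (.s k3 k2 0 (.s k5 k245 11 (.s k9 k13 1 (.s k6 k12 2 (.s k7 k4 0 (.d k15 k11 k10
  1 2))))))] .n) (.c k245 (.q k84 [(.s k86 k87 0 (.s k252 k168 13 (.s k253 k254 0 (.d k169 k1 k3 13
  14)))), (.s k86 k87 0 (.s k244 k7 12 (.s k4 k164 11 (.s k12 k8 1 (.s k93 k174 12 (.s k89 k81 1 (.d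
  k166 k247 k243 12 14)))))))] (.c k86 (.f k252 k168 13 (.q k169 [(.d k253 k254 k1 0 13), (.s k173
  k161 1 (.s k15 k94 12 (.s k90 k240 14 (.d k95 k80 k175 2 11))))] (.c k2 (.l (.s k254 k253 0 (.s
  k173 k161 1 (.s k15 k94 12 (.s k90 k240 14 (.d k95 k80 k175 2 11)))))) (.c k254 (.q k2 [(.d k1 k3
  k253 0 13), (.s k173 k161 1 (.s k15 k94 12 (.s k95 k175 11 (.d k90 k80 k240 2 14))))] .n) .n))))
  (.c k87 (.l (.s k252 k168 13 (.s k253 k254 0 (.s k169 k1 13 (.s k173 k161 1 (.s k15 k94 12 (.s k90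
  k240 14 (.d k95 k80 k175 2 11)))))))) .n))) (.c k250 (.l (.s k5 k245 11 (.s k15 k10 2 (.s k90 k240
  14 (.d k95 k80 k175 2 11))))) .n)))))))))))

def t26_166 : T TT 256 :=
  (.f k170 k255 14 (.q k252 [(.s k84 k168 13 (.s k86 k87 0 (.s k2 k254 13 (.d k3 k1 k169 0 14))))]
  (.c k1 (.q k5 [(.s k165 k245 11 (.s k160 k175 2 (.s k240 k80 11 (.d k15 k10 k90 2 14)))), (.s k15
  k10 2 (.s k168 k84 13 (.s k169 k171 0 (.s k173 k94 12 (.d k165 k161 k245 1 11))))), (.s k84 k168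
  13 (.s k86 k87 0 (.s k165 k245 11 (.s k244 k7 12 (.s k240 k248 1 (.d k160 k175 k80 2 11))))))] (.c
  k165 (.l (.s k10 k15 2 (.s k90 k250 11 (.s k168 k84 13 (.s k169 k171 0 (.s k248 k11 12 (.s k240
  k244 1 (.d k80 k95 k160 2 11)))))))) (.c k245 (.l (.s k15 k10 2 (.s k84 k168 13 (.s k86 k87 0 (.s
  k3 k169 14 (.s k7 k11 1 (.s k4 k6 0 (.d k244 k164 k165 11 12)))))))) .n))) (.c k2 (.q k5 [(.s k165
  k245 11 (.s k160 k175 2 (.s k240 k80 11 (.d k15 k10 k90 2 14)))), (.s k15 k10 2 (.s k168 k84 13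
  (.s k169 k171 0 (.s k173 k94 12 (.d k165 k161 k245 1 11))))), (.s k84 k168 13 (.s k86 k87 0 (.s
  k165 k245 11 (.s k244 k7 12 (.s k240 k248 1 (.d k160 k175 k80 2 11)))))), (.s k10 k15 2 (.s k168
  k84 13 (.s k169 k171 0 (.s k1 k253 13 (.s k9 k13 1 (.s k8 k11 0 (.d k89 k251 k249 12 11)))))))]
  .n) (.c k3 (.f k84 k168 13 (.q k64 [(.s k104 k124 5 (.s k192 k128 7 (.s k212 k232 5 (.d k148 k20
  k60 7 13)))), (.s k106 k127 6 (.s k42 k234 7 (.s k63 k21 6 (.s k126 k189 8 (.d k86 k87 k66 0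
  5)))))] (.c k87 (.q k171 [(.s k104 k124 5 (.s k192 k128 7 (.s k212 k232 5 (.d k148 k20 k60 7
  13)))), (.s k106 k127 6 (.s k42 k234 7 (.s k63 k21 6 (.d k192 k128 k149 7 14)))), (.s k124 k104 5
  (.s k127 k106 6 (.s k125 k126 0 (.s k105 k65 5 (.s k40 k235 8 (.d k60 k20 k188 5 7))))))] .n) (.c
  k171 (.l (.s k87 k86 0 (.s k104 k124 5 (.s k192 k128 7 (.s k148 k60 13 (.d k212 k232 k20 5 7))))))
  (.c k192 (.l (.s k124 k104 5 (.s k60 k188 7 (.s k40 k20 5 (.s k105 k235 8 (.d k86 k87 k67 0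
  6)))))) .n))))) (.c k84 (.q k150 [(.s k20 k215 8 (.s k60 k40 5 (.s k130 k190 5 (.d k195 k65 k105 8
  14)))), (.s k130 k190 5 (.s k195 k65 8 (.s k214 k233 6 (.s k86 k22 7 (.s k2 k254 13 (.d k3 k1 k169
  0 14)))))), (.s k20 k215 8 (.s k60 k40 5 (.s k188 k124 7 (.s k169 k131 6 (.s k1 k253 13 (.d k3 k2
  k86 0 14))))))] (.c k60 (.q k169 [(.s k1 k253 13 (.d k3 k2 k86 0 14)), (.s k131 k188 6 (.s k171
  k168 0 (.s k191 k151 5 (.s k128 k149 6 (.d k130 k190 k129 5 0)))))] (.c k125 (.l (.s k190 k130 5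
  (.s k1 k253 13 (.d k3 k2 k86 0 14)))) (.c k190 (.q k125 [(.s k1 k253 13 (.d k3 k2 k86 0 14)), (.s
  k3 k86 14 (.s k65 k105 5 (.s k131 k188 6 (.d k195 k67 k130 7 8)))), (.s k1 k253 13 (.s k65 k105 5
  (.s k129 k193 7 (.s k130 k195 8 (.d k131 k128 k188 0 6)))))] .n) .n))) (.c k195 (.q k149 [(.s k21
  k213 7 (.s k63 k42 6 (.s k128 k191 6 (.d k192 k64 k106 7 14)))), (.s k151 k148 0 (.s k190 k130 5
  (.s k191 k128 6 (.s k131 k171 5 (.d k188 k189 k169 0 6))))), (.s k151 k148 0 (.s k213 k21 7 (.s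
  k215 k20 8 (.s k212 k214 0 (.d k23 k87 k86 7 8)))))] (.c k215 (.q k235 [(.s k21 k213 7 (.s k63 k42
  6 (.s k128 k191 6 (.d k192 k64 k106 7 14)))), (.s k40 k105 8 (.s k60 k20 5 (.s k128 k191 6 (.s
  k148 k151 0 (.d k188 k168 k124 5 7))))), (.s k21 k213 7 (.s k40 k105 8 (.s k60 k20 5 (.s k63 k42 6
  (.s k62 k61 0 (.d k106 k192 k194 14 13))))))] (.c k63 (.l (.s k40 k105 8 (.s k60 k20 5 (.s k188
  k124 7 (.s k190 k130 5 (.d k191 k189 k128 0 6)))))) (.c k212 (.l (.s k128 k191 6 (.s k192 k64 7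
  (.s k63 k106 14 (.d k21 k42 k213 6 7))))) .n))) (.c k235 (.l (.s k215 k20 8 (.s k21 k213 7 (.s k63
  k42 6 (.s k128 k191 6 (.d k192 k64 k106 7 14)))))) .n))) .n))) (.c k86 (.f k168 k84 13 (.q k106
  [(.s k42 k234 7 (.s k64 k127 6 (.s k192 k128 7 (.d k63 k21 k149 6 14)))), (.s k169 k171 0 (.s k232
  k43 8 (.s k40 k104 7 (.s k234 k42 7 (.d k235 k233 k105 0 8))))), (.s k64 k127 6 (.s k169 k171 0
  (.s k192 k128 7 (.d k232 k212 k43 5 8))))] (.c k6 (.q k246 [(.s k42 k234 7 (.s k64 k127 6 (.s k192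
  k128 7 (.d k63 k21 k149 6 14)))), (.s k169 k171 0 (.s k232 k43 8 (.s k40 k104 7 (.s k234 k42 7 (.d
  k235 k233 k105 0 8))))), (.s k64 k127 6 (.s k169 k171 0 (.s k192 k128 7 (.d k232 k212 k43 5 8))))]
  (.c k64 (.l (.s k42 k234 7 (.s k63 k21 6 (.s k169 k171 0 (.s k189 k126 8 (.d k149 k192 k129 14
  5)))))) .n)) (.c k64 (.l (.s k42 k234 7 (.s k63 k21 6 (.s k169 k171 0 (.s k189 k126 8 (.d k149
  k192 k129 14 5)))))) (.c k246 (.q k6 [(.s k42 k234 7 (.s k64 k127 6 (.s k192 k128 7 (.d k63 k21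
  k149 6 14)))), (.s k169 k171 0 (.s k232 k43 8 (.s k40 k104 7 (.s k234 k42 7 (.d k235 k233 k105 0
  8))))), (.s k64 k127 6 (.s k169 k171 0 (.s k192 k128 7 (.d k232 k212 k43 5 8))))] (.c k64 (.l (.s
  k42 k234 7 (.s k63 k21 6 (.s k169 k171 0 (.s k189 k126 8 (.d k149 k192 k129 14 5)))))) .n))
  .n))))) (.c k87 (.l (.s k168 k84 13 (.s k169 k171 0 (.s k3 k86 14 (.d k1 k2 k253 0 13))))) (.c
  k168 (.q k165 [(.s k5 k245 11 (.s k160 k175 2 (.s k240 k80 11 (.d k15 k10 k90 2 14)))), (.s k160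
  k175 2 (.s k240 k80 11 (.s k244 k248 1 (.s k86 k7 12 (.s k2 k254 13 (.d k3 k1 k169 0 14)))))), (.s
  k5 k245 11 (.s k15 k10 2 (.s k173 k94 12 (.s k169 k161 1 (.s k1 k253 13 (.d k3 k2 k86 0 14))))))]
  (.c k15 (.q k37 [(.s k101 k229 7 (.s k32 k239 10 (.s k47 k42 2 (.s k224 k106 10 (.d k160 k175 k96
  2 7))))), (.s k5 k245 11 (.s k53 k21 3 (.s k101 k229 7 (.s k69 k117 3 (.d k197 k133 k149 7
  11))))), (.s k5 k245 11 (.s k21 k53 3 (.s k42 k63 6 (.s k47 k32 2 (.d k106 k234 k224 7 10)))))]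
  (.c k95 (.l (.s k175 k160 2 (.s k5 k245 11 (.s k21 k53 3 (.s k42 k63 6 (.s k47 k32 2 (.d k106 k224
  k234 10 7))))))) (.c k175 (.q k95 [(.s k101 k229 7 (.s k32 k239 10 (.s k69 k117 3 (.s k207 k138 10
  (.d k48 k16 k154 3 14))))), (.s k5 k245 11 (.s k21 k53 3 (.s k42 k63 6 (.s k47 k32 2 (.d k106 k234
  k224 7 10))))), (.s k5 k245 11 (.s k53 k21 3 (.s k101 k229 7 (.s k69 k117 3 (.d k197 k133 k149 7
  11))))), (.s k80 k90 2 (.s k101 k229 7 (.s k32 k239 10 (.s k47 k42 2 (.s k160 k240 11 (.d k224 k96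
  k106 7 10))))))] .n) .n))) (.c k240 (.q k154 [(.s k16 k223 10 (.s k138 k186 3 (.s k207 k69 10 (.d
  k48 k32 k101 3 14)))), (.s k160 k175 2 (.s k176 k143 6 (.s k128 k144 3 (.s k186 k138 3 (.d k191
  k181 k149 2 6))))), (.s k16 k223 10 (.s k48 k32 3 (.s k143 k176 6 (.s k207 k101 14 (.s k15 k79 7
  (.d k5 k245 k10 11 2))))))] (.c k245 (.q k250 [(.s k16 k223 10 (.s k138 k186 3 (.s k207 k69 10 (.d
  k48 k32 k101 3 14)))), (.s k160 k175 2 (.s k176 k143 6 (.s k128 k144 3 (.s k186 k138 3 (.d k191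
  k181 k149 2 6))))), (.s k10 k90 11 (.s k15 k5 2 (.s k16 k223 10 (.s k48 k32 3 (.s k143 k176 6 (.d
  k207 k79 k101 7 14))))))] .n) (.c k250 (.l (.s k245 k5 11 (.s k16 k223 10 (.s k48 k32 3 (.s k138
  k186 3 (.d k207 k69 k101 10 14)))))) .n))) .n))) (.c k169 (.f k84 k168 13 (.q k80 [(.s k90 k95 2
  (.s k10 k250 11 (.s k15 k5 2 (.d k240 k160 k165 11 14)))), (.s k88 k92 1 (.s k240 k160 11 (.s k164
  k12 13 (.d k244 k248 k4 1 11)))), (.s k86 k87 0 (.s k90 k95 2 (.s k82 k94 1 (.s k83 k81 0 (.d k92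
  k88 k89 1 2)))))] (.c k163 (.q k172 [(.d k92 k88 k12 1 11), (.s k90 k95 2 (.s k10 k250 11 (.s k15
  k5 2 (.d k240 k160 k165 11 14))))] .n) (.c k172 (.q k163 [(.s k90 k95 2 (.s k10 k250 11 (.s k15 k5
  2 (.d k240 k160 k165 11 14)))), (.s k86 k87 0 (.s k2 k254 13 (.s k3 k1 0 (.s k83 k243 11 (.d k92
  k89 k88 2 1)))))] (.c k160 (.q k164 [(.s k4 k244 11 (.s k12 k8 1 (.d k88 k92 k240 1 13))), (.s k86
  k87 0 (.s k90 k95 2 (.s k10 k250 11 (.s k15 k5 2 (.d k94 k82 k173 1 12)))))] (.c k240 (.l (.s k4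
  k244 11 (.s k8 k12 1 (.s k86 k87 0 (.s k89 k251 12 (.d k92 k88 k83 1 2)))))) .n)) (.c k164 (.l (.s
  k160 k240 11 (.s k86 k87 0 (.s k2 k254 13 (.s k3 k1 0 (.s k83 k243 11 (.d k92 k88 k89 1 2)))))))
  .n))) .n)))) (.c k171 (.l (.s k84 k168 13 (.s k86 k87 0 (.s k3 k169 14 (.d k2 k1 k254 0 13)))))
  (.c k254 (.l (.s k168 k84 13 (.s k169 k171 0 (.s k1 k253 13 (.d k3 k2 k86 0 14))))) .n))))))))))))

def t26_167 : T TT 256 :=
  (.f k255 k170 14 (.q k89 [(.s k81 k93 1 (.s k243 k162 12 (.s k166 k12 14 (.d k247 k251 k4 1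
  12))))] (.c k4 (.q k1 [(.s k3 k2 0 (.s k169 k253 13 (.s k86 k252 14 (.d k87 k84 k171 0 13)))), (.s
  k81 k93 1 (.s k169 k253 13 (.s k9 k249 11 (.s k13 k5 1 (.d k241 k161 k165 11 13))))), (.s k3 k2 0
  (.s k81 k93 1 (.s k161 k241 11 (.s k82 k240 12 (.s k83 k80 0 (.d k243 k163 k162 11 12))))))] .n)
  (.c k12 (.q k1 [(.s k3 k2 0 (.s k169 k253 13 (.s k86 k252 14 (.d k87 k84 k171 0 13)))), (.s k81
  k93 1 (.s k169 k253 13 (.s k9 k249 11 (.s k13 k5 1 (.d k241 k161 k165 11 13))))), (.s k3 k2 0 (.s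
  k81 k93 1 (.s k161 k241 11 (.s k82 k240 12 (.s k83 k80 0 (.d k243 k163 k162 11 12))))))] .n) (.c
  k81 (.q k20 [(.s k150 k215 8 (.s k60 k40 5 (.s k105 k195 14 (.d k125 k65 k190 5 8)))), (.s k150
  k215 8 (.s k28 k211 10 (.s k16 k24 1 (.s k48 k32 3 (.s k117 k186 10 (.s k101 k69 3 (.d k154 k223
  k207 10 14)))))))] (.c k150 (.f k60 k40 5 (.q k105 [(.d k125 k190 k65 8 5), (.s k121 k73 3 (.s
  k243 k182 10 (.s k166 k12 14 (.d k247 k251 k4 1 12))))] (.c k130 (.l (.s k190 k125 8 (.s k121 k73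
  3 (.s k243 k182 10 (.s k166 k12 14 (.d k247 k251 k4 1 12)))))) (.c k190 (.q k130 [(.d k65 k125
  k195 5 8), (.s k121 k73 3 (.s k243 k182 10 (.s k247 k251 1 (.d k166 k4 k12 12 14))))] .n) .n))))
  (.c k215 (.l (.s k60 k40 5 (.s k125 k190 8 (.s k105 k65 5 (.s k121 k73 3 (.s k243 k182 10 (.s k166
  k12 14 (.d k247 k251 k4 1 12)))))))) .n))) (.c k93 (.q k20 [(.s k150 k215 8 (.s k60 k40 5 (.s k105
  k195 14 (.d k125 k65 k190 5 8)))), (.s k150 k215 8 (.s k28 k211 10 (.s k16 k24 1 (.s k48 k32 3 (.s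
  k117 k186 10 (.s k101 k69 3 (.d k154 k223 k207 10 14)))))))] (.c k150 (.f k60 k40 5 (.q k105 [(.d
  k125 k190 k65 8 5), (.s k121 k73 3 (.s k243 k182 10 (.s k166 k12 14 (.d k247 k251 k4 1 12))))] (.c
  k130 (.l (.s k190 k125 8 (.s k121 k73 3 (.s k243 k182 10 (.s k166 k12 14 (.d k247 k251 k4 1
  12)))))) (.c k190 (.q k130 [(.d k65 k125 k195 5 8), (.s k121 k73 3 (.s k243 k182 10 (.s k247 k251
  1 (.d k166 k4 k12 12 14))))] .n) .n)))) (.c k215 (.l (.s k60 k40 5 (.s k125 k190 8 (.s k105 k65 5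
  (.s k121 k73 3 (.s k243 k182 10 (.s k166 k12 14 (.d k247 k251 k4 1 12)))))))) .n))) (.c k162 (.l
  (.s k93 k81 1 (.s k12 k174 12 (.s k166 k243 14 (.d k4 k8 k247 1 12))))) (.c k166 (.f k81 k93 1 (.q
  k165 [(.s k241 k13 13 (.s k1 k161 11 (.s k245 k5 11 (.d k253 k249 k169 1 13)))), (.s k5 k245 11
  (.s k15 k10 2 (.s k90 k240 14 (.d k95 k80 k175 2 11)))), (.s k241 k13 13 (.s k1 k161 11 (.s k3 k2
  0 (.s k87 k171 13 (.s k86 k84 0 (.d k169 k253 k252 13 14))))))] (.c k162 (.q k174 [(.s k5 k245 11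
  (.s k15 k10 2 (.s k90 k240 14 (.d k95 k80 k175 2 11)))), (.s k241 k13 13 (.s k1 k161 11 (.s k3 k2
  0 (.s k87 k171 13 (.s k86 k84 0 (.d k169 k253 k252 13 14))))))] (.c k175 (.l (.s k241 k13 13 (.s
  k1 k161 11 (.s k245 k5 11 (.d k253 k249 k169 1 13))))) .n)) (.c k174 (.l (.s k162 k243 12 (.s k5
  k245 11 (.s k15 k10 2 (.s k90 k240 14 (.d k95 k80 k175 2 11)))))) .n)))) (.c k174 (.l (.s k81 k93
  1 (.s k243 k162 12 (.s k166 k12 14 (.d k247 k251 k4 1 12))))) (.c k243 (.q k15 [(.s k95 k175 11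
  (.s k90 k80 2 (.s k165 k240 14 (.d k5 k10 k245 2 11)))), (.s k5 k10 2 (.s k93 k81 1 (.s k12 k174
  12 (.s k13 k14 0 (.s k1 k9 1 (.d k253 k173 k169 11 13)))))), (.s k93 k81 1 (.s k12 k174 12 (.s k13
  k14 0 (.s k95 k175 11 (.s k90 k80 2 (.d k165 k241 k240 13 14))))))] (.c k90 (.l (.s k93 k81 1 (.s
  k12 k174 12 (.s k13 k14 0 (.s k165 k241 13 (.d k5 k10 k245 2 11)))))) .n)) (.c k247 (.q k87 [(.s
  k86 k84 0 (.s k3 k171 13 (.s k169 k252 14 (.d k1 k2 k253 0 13)))), (.s k81 k93 1 (.s k86 k84 0 (.s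
  k83 k92 2 (.s k80 k82 0 (.d k95 k91 k90 1 2))))), (.s k3 k171 13 (.s k93 k81 1 (.s k12 k174 12 (.s
  k9 k6 2 (.s k169 k249 11 (.d k1 k2 k253 0 13))))))] .n) (.c k251 (.l (.s k93 k81 1 (.s k12 k174 12
  (.s k4 k8 1 (.d k166 k247 k243 12 14))))) .n))))))))))))

def t26_171 : T TT 256 :=
  (.q k89 [(.s k81 k93 1 (.s k243 k162 12 (.s k12 k166 14 (.s k8 k4 1 (.d k170 k251 k255 12 14)))))]
  (.c k4 (.q k1 [(.s k81 k93 1 (.s k241 k161 11 (.s k13 k165 13 (.s k169 k253 13 (.d k9 k5 k249 1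
  11))))), (.s k3 k2 0 (.s k81 k93 1 (.s k161 k241 11 (.s k82 k240 12 (.s k83 k80 0 (.d k243 k163
  k162 11 12)))))), (.s k3 k2 0 (.s k169 k253 13 (.s k9 k249 11 (.s k12 k6 2 (.s k86 k252 14 (.s k83
  k92 2 (.d k243 k163 k166 11 14)))))))] (.c k241 (.l (.s k3 k2 0 (.s k81 k93 1 (.s k169 k253 13 (.s
  k86 k252 14 (.s k83 k92 2 (.d k243 k163 k162 11 12))))))) .n)) (.c k8 (.l (.s k81 k93 1 (.s k243
  k162 12 (.s k166 k12 14 (.s k247 k4 12 (.d k255 k251 k170 1 14)))))) (.c k12 (.q k5 [(.s k93 k81 1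
  (.s k165 k245 11 (.s k13 k241 13 (.s k1 k9 1 (.d k253 k173 k169 11 13))))), (.s k15 k10 2 (.s k165
  k245 11 (.s k90 k240 14 (.s k95 k80 2 (.d k255 k175 k170 11 14)))))] (.c k165 (.l (.s k10 k15 2
  (.s k170 k255 14 (.s k8 k251 12 (.s k11 k9 0 (.s k90 k250 11 (.s k88 k91 0 (.d k248 k168 k169 11
  12)))))))) (.c k245 (.l (.s k15 k10 2 (.s k81 k93 1 (.s k243 k162 12 (.s k91 k167 13 (.s k90 k88 0
  (.s k80 k95 2 (.d k240 k160 k165 11 14)))))))) .n))) (.c k81 (.q k15 [(.s k10 k5 2 (.s k170 k255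
  14 (.s k90 k250 11 (.s k80 k95 2 (.d k240 k160 k165 11 14))))), (.s k5 k10 2 (.s k165 k245 11 (.s
  k13 k241 13 (.s k12 k14 0 (.s k4 k8 1 (.d k166 k247 k243 12 14)))))), (.s k170 k255 14 (.s k8 k251
  12 (.s k12 k4 1 (.s k13 k14 0 (.s k165 k241 13 (.s k160 k175 2 (.d k240 k80 k90 11 14)))))))] (.c
  k165 (.l (.s k10 k5 2 (.s k170 k255 14 (.s k8 k251 12 (.s k11 k9 0 (.s k90 k250 11 (.s k88 k91 0
  (.d k248 k168 k169 11 12)))))))) .n)) (.c k93 (.q k15 [(.s k5 k10 2 (.s k165 k245 11 (.s k90 k240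
  14 (.s k95 k80 2 (.d k255 k175 k170 11 14))))), (.s k5 k10 2 (.s k165 k245 11 (.s k13 k241 13 (.s
  k12 k14 0 (.s k4 k8 1 (.d k166 k247 k243 12 14)))))), (.s k170 k255 14 (.s k8 k251 12 (.s k12 k4 1
  (.s k13 k14 0 (.s k165 k241 13 (.s k160 k175 2 (.d k240 k80 k90 11 14)))))))] (.c k165 (.l (.s k10
  k5 2 (.s k170 k255 14 (.s k8 k251 12 (.s k11 k9 0 (.s k90 k250 11 (.s k88 k91 0 (.d k248 k168 k169
  11 12)))))))) .n)) (.c k162 (.l (.s k93 k81 1 (.s k255 k170 14 (.s k12 k174 12 (.s k166 k243 14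
  (.d k4 k8 k247 1 12)))))) (.c k166 (.q k1 [(.s k81 k93 1 (.s k241 k161 11 (.s k165 k13 13 (.s k245
  k5 11 (.d k253 k249 k169 1 13))))), (.s k3 k2 0 (.s k81 k93 1 (.s k161 k241 11 (.s k82 k240 12 (.s
  k83 k80 0 (.d k243 k163 k162 11 12)))))), (.s k3 k2 0 (.s k169 k253 13 (.s k9 k249 11 (.s k12 k6 2
  (.s k8 k4 1 (.d k170 k251 k255 12 14))))))] (.c k241 (.l (.s k3 k2 0 (.s k81 k93 1 (.s k169 k253
  13 (.s k86 k252 14 (.s k83 k92 2 (.d k243 k163 k162 11 12))))))) .n)) (.c k170 (.q k169 [(.s k1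
  k253 13 (.s k9 k249 11 (.s k13 k5 1 (.s k81 k93 1 (.d k241 k161 k165 11 13))))), (.s k81 k93 1 (.s
  k243 k162 12 (.s k249 k9 11 (.s k252 k246 2 (.s k84 k168 13 (.d k86 k87 k3 0 14)))))), (.s k1 k253
  13 (.s k3 k2 0 (.s k81 k93 1 (.s k86 k252 14 (.s k83 k92 2 (.d k243 k163 k162 11 12)))))), (.s k1
  k253 13 (.s k3 k2 0 (.s k9 k249 11 (.s k12 k6 2 (.s k4 k8 1 (.d k166 k247 k243 12 14))))))] .n)
  (.c k174 (.l (.s k81 k93 1 (.s k243 k162 12 (.s k12 k166 14 (.s k170 k255 14 (.d k8 k4 k251 1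
  12)))))) (.c k243 (.q k5 [(.s k93 k81 1 (.s k165 k245 11 (.s k13 k241 13 (.s k1 k9 1 (.d k253 k173
  k169 11 13))))), (.s k15 k10 2 (.s k165 k245 11 (.s k170 k255 14 (.s k160 k175 2 (.d k240 k80 k90
  11 14))))), (.s k15 k10 2 (.s k93 k81 1 (.s k255 k170 14 (.s k12 k174 12 (.s k13 k14 0 (.s k1 k9 1
  (.d k253 k169 k173 13 11)))))))] .n) (.c k251 (.l (.s k93 k81 1 (.s k255 k170 14 (.s k12 k174 12
  (.s k4 k8 1 (.d k166 k247 k243 12 14)))))) (.c k255 (.q k3 [(.s k1 k2 0 (.s k93 k81 1 (.s k253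
  k169 13 (.s k13 k173 11 (.s k5 k9 1 (.d k165 k245 k241 11 13)))))), (.s k81 k93 1 (.s k243 k162 12
  (.s k83 k163 11 (.s k86 k92 2 (.s k84 k87 0 (.d k252 k168 k169 13 14)))))), (.s k1 k2 0 (.s k169
  k253 13 (.s k9 k249 11 (.s k12 k6 2 (.s k4 k8 1 (.d k166 k247 k243 12 14))))))] (.c k169 (.l (.s
  k1 k2 0 (.s k81 k93 1 (.s k161 k241 11 (.s k82 k240 12 (.s k83 k80 0 (.d k243 k163 k162 11
  12))))))) .n)) .n)))))))))))))

def t26_175 : T TT 256 :=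
  (.q k86 [(.s k84 k87 0 (.s k252 k168 13 (.s k169 k3 14 (.s k253 k1 13 (.d k255 k254 k170 0
  14)))))] (.c k1 (.q k4 [(.s k12 k8 1 (.s k166 k247 12 (.s k89 k243 14 (.s k93 k81 1 (.d k255 k174
  k170 12 14))))), (.s k84 k87 0 (.s k166 k247 12 (.s k6 k246 11 (.s k7 k5 0 (.d k244 k164 k165 11
  12))))), (.s k12 k8 1 (.s k84 k87 0 (.s k164 k244 11 (.s k88 k240 13 (.s k92 k80 1 (.d k252 k172
  k168 11 13))))))] .n) (.c k3 (.q k4 [(.s k12 k8 1 (.s k166 k247 12 (.s k89 k243 14 (.s k93 k81 1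
  (.d k255 k174 k170 12 14))))), (.s k84 k87 0 (.s k166 k247 12 (.s k6 k246 11 (.s k7 k5 0 (.d k244
  k164 k165 11 12))))), (.s k12 k8 1 (.s k84 k87 0 (.s k164 k244 11 (.s k88 k240 13 (.s k92 k80 1
  (.d k252 k172 k168 11 13))))))] (.c k255 (.l (.s k87 k84 0 (.s k247 k166 12 (.s k7 k167 11 (.s k5
  k6 0 (.d k165 k245 k244 11 12)))))) .n)) (.c k84 (.q k4 [(.s k12 k8 1 (.s k166 k247 12 (.s k89
  k243 14 (.s k93 k81 1 (.d k255 k174 k170 12 14))))), (.s k12 k8 1 (.s k166 k247 12 (.s k6 k246 11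
  (.s k3 k9 2 (.s k1 k2 0 (.d k169 k253 k252 13 14)))))), (.s k166 k247 12 (.s k6 k246 11 (.s k5 k7
  0 (.s k170 k255 14 (.s k2 k254 13 (.d k10 k15 k14 2 1)))))), (.s k12 k8 1 (.s k170 k255 14 (.s k2
  k254 13 (.s k3 k1 0 (.s k6 k9 2 (.s k5 k7 0 (.d k10 k15 k14 2 1)))))))] .n) (.c k87 (.q k4 [(.s
  k12 k8 1 (.s k166 k247 12 (.s k89 k243 14 (.s k93 k81 1 (.d k255 k174 k170 12 14))))), (.s k12 k8
  1 (.s k166 k247 12 (.s k6 k246 11 (.s k3 k9 2 (.s k1 k2 0 (.d k169 k253 k252 13 14)))))), (.s k12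
  k8 1 (.s k170 k255 14 (.s k2 k254 13 (.s k3 k1 0 (.s k6 k9 2 (.s k10 k14 1 (.d k5 k15 k7 2
  0))))))), (.s k166 k247 12 (.s k6 k246 11 (.s k170 k255 14 (.s k2 k254 13 (.s k10 k14 1 (.d k5 k7
  k15 0 2))))))] (.c k7 (.l (.s k12 k8 1 (.s k255 k170 14 (.s k93 k174 12 (.s k89 k81 1 (.d k166
  k247 k243 12 14)))))) .n)) (.c k168 (.l (.s k87 k84 0 (.s k255 k170 14 (.s k3 k171 13 (.s k169
  k252 14 (.d k1 k2 k253 0 13)))))) (.c k169 (.q k4 [(.s k12 k8 1 (.s k166 k247 12 (.s k89 k243 14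
  (.s k93 k81 1 (.d k255 k174 k170 12 14))))), (.s k84 k87 0 (.s k166 k247 12 (.s k6 k246 11 (.s k7
  k5 0 (.d k244 k164 k165 11 12))))), (.s k12 k8 1 (.s k84 k87 0 (.s k164 k244 11 (.s k88 k240 13
  (.s k92 k80 1 (.d k252 k172 k168 11 13))))))] .n) (.c k170 (.q k165 [(.s k5 k245 11 (.s k7 k244 12
  (.s k4 k6 0 (.s k87 k84 0 (.d k247 k167 k166 11 12))))), (.s k5 k245 11 (.s k15 k10 2 (.s k84 k87
  0 (.s k90 k240 14 (.s k94 k82 1 (.d k252 k173 k168 12 13)))))), (.s k5 k245 11 (.s k7 k244 12 (.s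
  k15 k10 2 (.s k3 k11 1 (.s k1 k2 0 (.d k169 k253 k252 13 14)))))), (.s k84 k87 0 (.s k244 k7 12
  (.s k252 k168 13 (.s k240 k248 1 (.s k80 k160 11 (.d k90 k95 k15 2 14))))))] .n) (.c k171 (.l (.s
  k84 k87 0 (.s k252 k168 13 (.s k3 k169 14 (.s k170 k255 14 (.d k2 k1 k254 0 13)))))) (.c k252 (.q
  k8 [(.s k12 k4 1 (.s k170 k255 14 (.s k89 k251 12 (.s k81 k93 1 (.d k243 k162 k166 12 14))))), (.s
  k4 k12 1 (.s k84 k87 0 (.s k166 k247 12 (.s k6 k246 11 (.s k7 k5 0 (.d k244 k164 k165 11 12)))))),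
  (.s k84 k87 0 (.s k170 k255 14 (.s k89 k251 12 (.s k92 k83 2 (.s k80 k88 1 (.s k93 k81 1 (.d k95
  k94 k90 0 2)))))))] (.c k243 (.l (.s k4 k12 1 (.s k84 k87 0 (.s k166 k247 12 (.s k244 k164 11 (.s
  k7 k165 12 (.d k6 k5 k246 0 11))))))) (.c k247 (.l (.s k12 k4 1 (.s k170 k255 14 (.s k89 k251 12
  (.s k243 k166 14 (.d k81 k93 k162 1 12)))))) .n))) (.c k253 (.l (.s k84 k87 0 (.s k170 k255 14 (.s
  k2 k254 13 (.s k252 k168 13 (.d k3 k1 k169 0 14)))))) (.c k254 (.l (.s k87 k84 0 (.s k255 k170 14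
  (.s k3 k171 13 (.s k1 k2 0 (.d k169 k253 k252 13 14)))))) (.c k255 (.q k15 [(.s k84 k87 0 (.s k252
  k168 13 (.s k94 k173 12 (.s k90 k82 1 (.s k80 k95 2 (.d k240 k160 k165 11 14)))))), (.s k5 k10 2
  (.s k87 k84 0 (.s k165 k245 11 (.s k7 k244 12 (.s k4 k6 0 (.d k247 k167 k166 11 12)))))), (.s k5
  k10 2 (.s k165 k245 11 (.s k7 k244 12 (.s k3 k11 1 (.s k1 k2 0 (.d k169 k253 k252 13 14))))))] (.c
  k165 (.f k5 k10 2 (.l (.s k84 k87 0 (.s k252 k168 13 (.s k3 k169 14 (.s k1 k2 0 (.s k7 k11 1 (.s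
  k6 k4 0 (.d k9 k13 k12 1 2))))))))) (.c k240 (.l (.s k5 k10 2 (.s k84 k87 0 (.s k252 k168 13 (.s
  k3 k169 14 (.s k7 k11 1 (.d k165 k245 k244 11 12))))))) .n))) .n)))))))))))))

def t26_177 : T TT 256 :=
  (.f k255 k170 14 (.q k89 [(.s k81 k93 1 (.s k243 k162 12 (.s k166 k12 14 (.d k247 k251 k4 1
  12))))] (.c k4 (.q k1 [(.s k169 k253 13 (.s k3 k2 0 (.s k86 k252 14 (.d k87 k84 k171 0 13)))), (.s
  k81 k93 1 (.s k169 k253 13 (.s k9 k249 11 (.s k13 k5 1 (.d k241 k161 k165 11 13))))), (.s k3 k2 0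
  (.s k81 k93 1 (.s k161 k241 11 (.s k82 k240 12 (.s k83 k80 0 (.d k243 k163 k162 11 12))))))] .n)
  (.c k12 (.q k1 [(.s k3 k2 0 (.s k87 k171 13 (.s k86 k84 0 (.d k169 k253 k252 13 14)))), (.s k81
  k93 1 (.s k169 k253 13 (.s k9 k249 11 (.s k13 k5 1 (.d k241 k161 k165 11 13))))), (.s k3 k2 0 (.s
  k81 k93 1 (.s k161 k241 11 (.s k82 k240 12 (.s k83 k80 0 (.d k243 k163 k162 11 12))))))] .n) (.c
  k81 (.q k87 [(.s k86 k84 0 (.s k3 k171 13 (.s k169 k252 14 (.d k1 k2 k253 0 13)))), (.s k86 k84 0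
  (.s k83 k92 2 (.s k95 k91 1 (.s k15 k175 11 (.s k5 k10 2 (.s k165 k245 11 (.d k90 k80 k240 2
  14)))))))] (.c k84 (.l (.s k3 k171 13 (.s k1 k2 0 (.s k169 k253 13 (.s k9 k249 11 (.s k12 k6 2 (.s
  k4 k8 1 (.d k166 k247 k243 12 14)))))))) (.c k86 (.f k3 k171 13 (.q k169 [(.d k1 k2 k253 0 13),
  (.s k9 k249 11 (.s k12 k6 2 (.s k4 k8 1 (.d k166 k247 k243 12 14))))] (.c k2 (.q k254 [(.d k253
  k252 k1 0 13), (.s k9 k249 11 (.s k12 k6 2 (.s k4 k8 1 (.d k166 k247 k243 12 14))))] .n) (.c k254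
  (.l (.s k2 k1 0 (.s k9 k249 11 (.s k12 k6 2 (.s k4 k8 1 (.d k166 k247 k243 12 14)))))) .n))))
  .n))) (.c k93 (.q k68 [(.s k102 k119 4 (.s k204 k136 9 (.s k221 k238 4 (.d k153 k17 k51 9 14)))),
  (.s k102 k119 4 (.s k76 k115 6 (.s k64 k72 1 (.s k192 k128 7 (.s k213 k234 6 (.s k149 k21 7 (.d
  k106 k127 k63 6 14)))))))] (.c k102 (.f k204 k136 9 (.q k153 [(.d k221 k238 k17 4 9), (.s k217 k25
  7 (.s k243 k230 6 (.s k166 k12 14 (.d k247 k251 k4 1 12))))] (.c k34 (.l (.s k238 k221 4 (.s k217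
  k25 7 (.s k243 k230 6 (.s k166 k12 14 (.d k247 k251 k4 1 12)))))) (.c k238 (.q k34 [(.d k17 k51
  k221 4 9), (.s k217 k25 7 (.s k243 k230 6 (.s k247 k251 1 (.d k166 k4 k12 12 14))))] .n) .n))))
  (.c k119 (.l (.s k204 k136 9 (.s k221 k238 4 (.s k153 k17 9 (.s k217 k25 7 (.s k243 k230 6 (.s
  k166 k12 14 (.d k247 k251 k4 1 12)))))))) .n))) (.c k162 (.l (.s k93 k81 1 (.s k12 k174 12 (.s
  k166 k243 14 (.d k4 k8 k247 1 12))))) (.c k166 (.f k81 k93 1 (.q k83 [(.s k80 k82 0 (.s k86 k92 2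
  (.s k87 k84 0 (.d k95 k91 k90 1 2)))), (.s k80 k82 0 (.s k240 k160 11 (.s k245 k250 2 (.s k165 k5
  11 (.s k241 k13 13 (.d k243 k162 k242 12 0)))))), (.s k86 k92 2 (.s k84 k87 0 (.s k252 k168 13 (.s
  k169 k3 14 (.d k253 k254 k1 0 13)))))] (.c k162 (.q k174 [(.s k86 k92 2 (.s k87 k84 0 (.s k95 k91
  1 (.d k80 k82 k90 0 2)))), (.s k80 k82 0 (.s k240 k160 11 (.s k245 k250 2 (.s k165 k5 11 (.d k90
  k95 k15 2 14))))), (.s k86 k92 2 (.s k84 k87 0 (.s k252 k168 13 (.s k169 k3 14 (.d k253 k254 k1 0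
  13)))))] (.c k95 (.l (.s k82 k80 0 (.s k86 k92 2 (.s k94 k90 1 (.s k84 k87 0 (.s k252 k168 13 (.d
  k254 k14 k253 11 0))))))) .n)) (.c k174 (.l (.s k162 k243 12 (.s k80 k82 0 (.s k86 k92 2 (.s k87
  k84 0 (.d k95 k91 k90 1 2)))))) .n)))) (.c k174 (.l (.s k81 k93 1 (.s k243 k162 12 (.s k166 k12 14
  (.d k247 k251 k4 1 12))))) (.c k243 (.q k1 [(.s k3 k2 0 (.s k87 k171 13 (.s k86 k84 0 (.d k169
  k253 k252 13 14)))), (.s k81 k93 1 (.s k169 k253 13 (.s k9 k249 11 (.s k13 k5 1 (.d k241 k161 k165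
  11 13))))), (.s k3 k2 0 (.s k93 k81 1 (.s k12 k174 12 (.s k8 k4 1 (.s k9 k6 2 (.s k5 k13 1 (.d k10
  k11 k15 0 2)))))))] .n) (.c k247 (.q k1 [(.s k169 k253 13 (.s k3 k2 0 (.s k86 k252 14 (.d k87 k84
  k171 0 13)))), (.s k81 k93 1 (.s k169 k253 13 (.s k9 k249 11 (.s k13 k5 1 (.d k241 k161 k165 11
  13))))), (.s k3 k2 0 (.s k81 k93 1 (.s k161 k241 11 (.s k82 k240 12 (.s k83 k80 0 (.d k243 k163
  k162 11 12))))))] .n) (.c k251 (.l (.s k93 k81 1 (.s k12 k174 12 (.s k4 k8 1 (.d k166 k247 k243 12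
  14))))) .n))))))))))))

def t26_178 : T TT 256 :=
  (.f k255 k170 14 (.q k106 [(.s k64 k127 6 (.s k192 k128 7 (.s k149 k63 14 (.d k213 k234 k21 6
  7))))] (.c k21 (.q k16 [(.s k48 k32 3 (.s k154 k223 10 (.s k101 k207 14 (.d k117 k69 k186 3
  10)))), (.s k64 k127 6 (.s k154 k223 10 (.s k192 k128 7 (.s k149 k63 14 (.s k144 k159 2 (.s k80
  k208 7 (.d k96 k112 k48 3 11))))))), (.s k48 k32 3 (.s k64 k127 6 (.s k192 k128 7 (.s k96 k144 11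
  (.s k101 k111 2 (.d k117 k69 k186 3 10))))))] (.c k48 (.l (.s k127 k64 6 (.s k63 k191 7 (.s k223
  k154 10 (.s k207 k239 3 (.s k111 k159 11 (.s k101 k96 2 (.d k69 k138 k117 10 3)))))))) .n)) (.c
  k63 (.q k1 [(.s k3 k2 0 (.s k87 k171 13 (.s k86 k84 0 (.d k169 k253 k252 13 14)))), (.s k64 k127 6
  (.s k192 k128 7 (.s k213 k234 6 (.s k253 k169 13 (.s k193 k233 5 (.s k65 k129 7 (.d k195 k130 k194
  8 0))))))), (.s k3 k2 0 (.s k64 k127 6 (.s k192 k128 7 (.s k66 k129 8 (.s k86 k126 5 (.d k87 k84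
  k171 0 13))))))] (.c k171 (.l (.s k3 k2 0 (.s k64 k127 6 (.s k169 k253 13 (.s k86 k252 14 (.s k192
  k128 7 (.d k66 k126 k129 5 8))))))) .n)) (.c k64 (.q k3 [(.s k1 k2 0 (.s k87 k171 13 (.s k169 k253
  13 (.d k86 k84 k252 0 14)))), (.s k1 k2 0 (.s k169 k253 13 (.s k43 k232 8 (.s k63 k23 5 (.s k21
  k42 6 (.d k149 k213 k192 7 14)))))), (.s k87 k171 13 (.s k86 k84 0 (.s k66 k126 5 (.s k192 k129 8
  (.s k149 k63 14 (.d k213 k234 k21 6 7))))))] (.c k86 (.f k87 k171 13 (.q k169 [(.d k1 k2 k253 0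
  13), (.s k43 k232 8 (.s k63 k23 5 (.s k21 k42 6 (.d k149 k213 k192 7 14))))] (.c k2 (.q k254 [(.d
  k253 k252 k1 0 13), (.s k43 k232 8 (.s k63 k23 5 (.s k21 k42 6 (.d k149 k213 k192 7 14))))] .n)
  (.c k254 (.l (.s k2 k1 0 (.s k43 k232 8 (.s k63 k23 5 (.s k21 k42 6 (.d k149 k213 k192 7 14))))))
  .n)))) (.c k169 (.q k66 [(.s k86 k126 5 (.d k87 k171 k84 13 0)), (.s k192 k129 8 (.s k149 k63 14
  (.d k213 k234 k21 6 7)))] (.c k168 (.l (.s k171 k87 13 (.s k192 k129 8 (.s k149 k63 14 (.d k213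
  k234 k21 6 7))))) (.c k171 (.q k168 [(.s k84 k252 13 (.d k86 k87 k126 0 5)), (.s k192 k129 8 (.s
  k149 k63 14 (.d k213 k234 k21 6 7)))] .n) .n))) .n))) (.c k127 (.q k195 [(.s k215 k235 5 (.s k150
  k20 8 (.s k105 k60 14 (.d k65 k125 k130 5 8)))), (.s k65 k130 8 (.s k105 k125 5 (.s k107 k104 0
  (.s k63 k151 13 (.s k21 k42 6 (.d k149 k213 k192 7 14)))))), (.s k215 k235 5 (.s k150 k20 8 (.s
  k194 k62 13 (.s k192 k193 0 (.s k149 k63 14 (.d k213 k234 k21 6 7))))))] (.c k105 (.q k149 [(.s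
  k21 k213 7 (.d k63 k42 k192 6 14)), (.s k63 k192 14 (.s k151 k107 13 (.s k150 k148 0 (.d k215 k235
  k20 5 8))))] (.c k40 (.l (.s k235 k215 5 (.s k21 k213 7 (.d k63 k42 k192 6 14)))) (.c k63 (.l (.s
  k213 k21 7 (.s k192 k234 6 (.s k194 k193 0 (.s k150 k62 13 (.d k215 k235 k20 5 8)))))) (.c k192
  (.l (.s k21 k213 7 (.s k63 k42 6 (.s k151 k107 13 (.s k150 k148 0 (.d k215 k235 k20 5 8)))))) (.c
  k235 (.q k40 [(.s k21 k213 7 (.d k63 k42 k192 6 14)), (.s k20 k60 5 (.s k63 k192 14 (.s k150 k215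
  8 (.d k151 k148 k107 0 13))))] (.c k63 (.l (.s k20 k60 5 (.s k150 k215 8 (.s k213 k21 7 (.s k192
  k234 6 (.d k194 k62 k193 13 0)))))) (.c k192 (.l (.s k20 k60 5 (.s k21 k213 7 (.s k63 k42 6 (.s
  k150 k215 8 (.d k151 k148 k107 0 13)))))) .n))) .n))))) (.c k150 (.f k130 k65 8 (.q k1 [(.s k169
  k253 13 (.s k3 k2 0 (.s k86 k252 14 (.d k87 k84 k171 0 13)))), (.s k2 k3 0 (.s k194 k66 7 (.s k192
  k193 0 (.s k149 k63 14 (.d k213 k234 k21 6 7))))), (.s k169 k253 13 (.s k43 k232 8 (.s k235 k215 5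
  (.s k107 k171 7 (.s k63 k151 13 (.s k21 k42 6 (.d k149 k213 k192 7 14)))))))] .n)) .n))) (.c k128
  (.l (.s k127 k64 6 (.s k63 k191 7 (.s k149 k192 14 (.d k21 k42 k213 6 7))))) (.c k149 (.f k64 k127
  6 (.q k101 [(.s k69 k117 3 (.s k79 k74 2 (.s k96 k111 2 (.d k112 k80 k90 3 6)))), (.s k69 k117 3
  (.s k207 k138 10 (.s k154 k48 14 (.d k223 k239 k16 3 10)))), (.s k96 k111 2 (.s k117 k69 3 (.s k48
  k186 10 (.d k192 k128 k144 7 11))))] (.c k69 (.l (.s k96 k111 2 (.s k80 k112 3 (.s k160 k240 11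
  (.s k32 k224 7 (.s k48 k16 3 (.d k192 k128 k144 7 11))))))) (.c k117 (.l (.s k96 k111 2 (.s k112
  k80 3 (.s k79 k90 6 (.s k69 k74 2 (.s k207 k138 10 (.s k154 k48 14 (.d k223 k239 k16 3 10))))))))
  (.c k128 (.q k191 [(.s k69 k117 3 (.s k79 k74 2 (.s k96 k111 2 (.d k112 k80 k90 3 6)))), (.s k117
  k69 3 (.s k48 k186 10 (.s k16 k32 3 (.d k154 k223 k207 10 14))))] (.c k69 (.l (.s k96 k111 2 (.s
  k80 k112 3 (.s k240 k160 11 (.s k245 k250 2 (.s k165 k5 11 (.d k90 k95 k15 2 14))))))) (.c k117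
  (.l (.s k96 k111 2 (.s k112 k80 3 (.s k79 k90 6 (.s k69 k74 2 (.s k207 k138 10 (.s k154 k48 14 (.d
  k223 k239 k16 3 10)))))))) .n))) (.c k191 (.l (.s k128 k192 7 (.s k69 k117 3 (.s k79 k74 2 (.s k96
  k111 2 (.d k112 k80 k90 3 6)))))) .n)))))) (.c k191 (.l (.s k64 k127 6 (.s k192 k128 7 (.s k149
  k63 14 (.d k213 k234 k21 6 7))))) (.c k192 (.q k1 [(.s k3 k2 0 (.s k87 k171 13 (.s k86 k84 0 (.d
  k169 k253 k252 13 14)))), (.s k127 k64 6 (.s k63 k191 7 (.s k21 k42 6 (.s k61 k41 5 (.s k253 k169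
  13 (.s k125 k189 7 (.d k60 k190 k62 8 0))))))), (.s k3 k2 0 (.s k127 k64 6 (.s k63 k191 7 (.s k21
  k42 6 (.s k23 k43 5 (.s k22 k20 0 (.d k41 k61 k60 5 6)))))))] .n) (.c k213 (.q k1 [(.s k3 k2 0 (.s
  k87 k171 13 (.s k86 k84 0 (.d k169 k253 k252 13 14)))), (.s k64 k127 6 (.s k169 k253 13 (.s k192
  k128 7 (.s k149 k63 14 (.s k129 k189 5 (.s k66 k3 8 (.d k65 k193 k67 7 0))))))), (.s k3 k2 0 (.s
  k64 k127 6 (.s k192 k128 7 (.s k66 k129 8 (.s k86 k126 5 (.d k87 k84 k171 0 13))))))] (.c k3 (.l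
  (.s k127 k64 6 (.s k63 k191 7 (.s k21 k42 6 (.s k61 k41 5 (.s k60 k62 0 (.s k125 k190 8 (.d k253
  k189 k169 7 13)))))))) .n)) (.c k234 (.l (.s k127 k64 6 (.s k63 k191 7 (.s k21 k42 6 (.d k149 k213
  k192 7 14))))) .n))))))))))))

def t26_179 : T TT 256 :=
  (.f k255 k170 14 (.q k106 [(.s k64 k127 6 (.s k192 k128 7 (.s k149 k63 14 (.d k213 k234 k21 6
  7)))), (.s k127 k64 6 (.s k63 k191 7 (.s k149 k192 14 (.d k21 k42 k213 6 7))))] (.c k21 (.q k16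
  [(.s k154 k223 10 (.s k48 k32 3 (.s k101 k207 14 (.d k117 k69 k186 3 10)))), (.s k64 k127 6 (.s
  k154 k223 10 (.s k192 k128 7 (.s k149 k63 14 (.s k144 k159 2 (.s k80 k208 7 (.d k96 k112 k48 3
  11))))))), (.s k48 k32 3 (.s k64 k127 6 (.s k192 k128 7 (.s k96 k144 11 (.s k101 k111 2 (.d k117
  k69 k186 3 10))))))] (.c k48 (.l (.s k127 k64 6 (.s k63 k191 7 (.s k223 k154 10 (.s k207 k239 3
  (.s k111 k159 11 (.s k101 k96 2 (.d k69 k138 k117 10 3)))))))) .n)) (.c k63 (.q k1 [(.s k3 k2 0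
  (.s k87 k171 13 (.s k86 k84 0 (.d k169 k253 k252 13 14)))), (.s k64 k127 6 (.s k192 k128 7 (.s
  k213 k234 6 (.s k253 k169 13 (.s k193 k233 5 (.s k65 k129 7 (.d k195 k130 k194 8 0))))))), (.s k3
  k2 0 (.s k64 k127 6 (.s k192 k128 7 (.s k66 k129 8 (.s k86 k126 5 (.d k87 k84 k171 0 13))))))] (.c
  k171 (.l (.s k3 k2 0 (.s k64 k127 6 (.s k169 k253 13 (.s k86 k252 14 (.s k192 k128 7 (.d k66 k126
  k129 5 8))))))) .n)) (.c k64 (.q k3 [(.s k1 k2 0 (.s k87 k171 13 (.s k169 k253 13 (.d k86 k84 k252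
  0 14)))), (.s k1 k2 0 (.s k169 k253 13 (.s k43 k232 8 (.s k63 k23 5 (.s k21 k42 6 (.d k149 k213
  k192 7 14)))))), (.s k87 k171 13 (.s k86 k84 0 (.s k66 k126 5 (.s k192 k129 8 (.s k149 k63 14 (.d
  k213 k234 k21 6 7))))))] (.c k86 (.f k87 k171 13 (.q k169 [(.d k1 k2 k253 0 13), (.s k43 k232 8
  (.s k63 k23 5 (.s k21 k42 6 (.d k149 k213 k192 7 14))))] (.c k2 (.q k254 [(.d k253 k252 k1 0 13),
  (.s k43 k232 8 (.s k63 k23 5 (.s k21 k42 6 (.d k149 k213 k192 7 14))))] .n) (.c k254 (.l (.s k2 k1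
  0 (.s k43 k232 8 (.s k63 k23 5 (.s k21 k42 6 (.d k149 k213 k192 7 14)))))) .n)))) (.c k169 (.q k66
  [(.s k86 k126 5 (.d k87 k171 k84 13 0)), (.s k192 k129 8 (.s k149 k63 14 (.d k213 k234 k21 6 7)))]
  (.c k168 (.l (.s k171 k87 13 (.s k192 k129 8 (.s k149 k63 14 (.d k213 k234 k21 6 7))))) (.c k171
  (.q k168 [(.s k84 k252 13 (.d k86 k87 k126 0 5)), (.s k192 k129 8 (.s k149 k63 14 (.d k213 k234
  k21 6 7)))] .n) .n))) .n))) (.c k127 (.q k195 [(.s k65 k130 8 (.s k215 k235 5 (.s k150 k20 8 (.d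
  k105 k125 k60 5 14)))), (.s k65 k130 8 (.s k105 k125 5 (.s k107 k104 0 (.s k63 k151 13 (.s k21 k42
  6 (.d k149 k213 k192 7 14)))))), (.s k215 k235 5 (.s k150 k20 8 (.s k194 k62 13 (.s k192 k193 0
  (.s k149 k63 14 (.d k213 k234 k21 6 7))))))] (.c k105 (.q k149 [(.s k21 k213 7 (.d k63 k42 k192 6
  14)), (.s k63 k192 14 (.s k151 k107 13 (.s k150 k148 0 (.d k215 k235 k20 5 8))))] (.c k40 (.l (.s
  k235 k215 5 (.s k21 k213 7 (.d k63 k42 k192 6 14)))) (.c k63 (.l (.s k213 k21 7 (.s k192 k234 6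
  (.s k194 k193 0 (.s k150 k62 13 (.d k215 k235 k20 5 8)))))) (.c k192 (.l (.s k21 k213 7 (.s k63
  k42 6 (.s k151 k107 13 (.s k150 k148 0 (.d k215 k235 k20 5 8)))))) (.c k235 (.q k40 [(.s k21 k213
  7 (.d k63 k42 k192 6 14)), (.s k20 k60 5 (.s k63 k192 14 (.s k150 k215 8 (.d k151 k148 k107 0
  13))))] (.c k63 (.l (.s k20 k60 5 (.s k150 k215 8 (.s k213 k21 7 (.s k192 k234 6 (.d k194 k62 k193
  13 0)))))) (.c k192 (.l (.s k20 k60 5 (.s k21 k213 7 (.s k63 k42 6 (.s k150 k215 8 (.d k151 k148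
  k107 0 13)))))) .n))) .n))))) (.c k150 (.q k199 [(.s k207 k203 1 (.s k69 k138 10 (.s k101 k117 3
  (.s k154 k48 14 (.d k223 k239 k16 3 10))))), (.s k207 k203 1 (.s k215 k235 5 (.s k223 k239 3 (.s
  k219 k211 1 (.d k231 k247 k243 3 5))))), (.s k207 k203 1 (.s k69 k138 10 (.s k4 k134 8 (.s k215
  k235 5 (.d k247 k166 k231 12 3))))), (.s k215 k235 5 (.s k247 k231 3 (.s k4 k166 12 (.s k12 k8 1
  (.d k134 k69 k73 8 10)))))] (.c k130 (.q k190 [(.s k207 k203 1 (.s k69 k138 10 (.s k101 k117 3 (.s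
  k223 k239 3 (.d k154 k16 k48 10 14))))), (.s k207 k203 1 (.s k215 k235 5 (.s k223 k239 3 (.s k219
  k211 1 (.d k231 k247 k243 3 5))))), (.s k215 k235 5 (.s k247 k231 3 (.s k4 k166 12 (.s k12 k8 1
  (.d k134 k69 k73 8 10))))), (.s k125 k60 8 (.s k65 k105 5 (.s k207 k203 1 (.s k69 k138 10 (.s k73
  k77 1 (.d k134 k4 k12 8 10))))))] .n) (.c k190 (.l (.s k130 k65 8 (.s k207 k203 1 (.s k69 k138 10
  (.s k4 k134 8 (.s k215 k235 5 (.d k247 k166 k231 12 3))))))) .n))) .n))) (.c k128 (.l (.s k127 k64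
  6 (.s k63 k191 7 (.s k149 k192 14 (.d k21 k42 k213 6 7))))) (.c k149 (.f k127 k64 6 (.f k191 k63 7
  (.q k86 [(.s k84 k87 0 (.s k252 k168 13 (.s k253 k254 0 (.d k169 k1 k3 13 14)))), (.s k126 k66 5
  (.s k125 k124 0 (.s k60 k190 8 (.s k20 k40 5 (.s k150 k215 8 (.d k105 k65 k195 5 14))))))] (.c k84
  (.l (.s k126 k66 5 (.s k124 k125 0 (.s k67 k105 6 (.s k87 k107 5 (.s k3 k171 13 (.s k1 k2 0 (.d
  k169 k253 k252 13 14)))))))) .n)))) (.c k191 (.l (.s k64 k127 6 (.s k192 k128 7 (.s k149 k63 14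
  (.d k213 k234 k21 6 7))))) (.c k192 (.q k1 [(.s k3 k2 0 (.s k87 k171 13 (.s k86 k84 0 (.d k169
  k253 k252 13 14)))), (.s k127 k64 6 (.s k63 k191 7 (.s k21 k42 6 (.s k61 k41 5 (.s k253 k169 13
  (.s k125 k189 7 (.d k60 k190 k62 8 0))))))), (.s k3 k2 0 (.s k127 k64 6 (.s k63 k191 7 (.s k21 k42
  6 (.s k23 k43 5 (.s k22 k20 0 (.d k41 k61 k60 5 6)))))))] .n) (.c k213 (.q k1 [(.s k3 k2 0 (.s k87
  k171 13 (.s k86 k84 0 (.d k169 k253 k252 13 14)))), (.s k64 k127 6 (.s k169 k253 13 (.s k192 k128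
  7 (.s k149 k63 14 (.s k129 k189 5 (.s k66 k3 8 (.d k65 k193 k67 7 0))))))), (.s k3 k2 0 (.s k64
  k127 6 (.s k192 k128 7 (.s k66 k129 8 (.s k86 k126 5 (.d k87 k84 k171 0 13))))))] (.c k3 (.l (.s
  k127 k64 6 (.s k63 k191 7 (.s k21 k42 6 (.s k61 k41 5 (.s k60 k62 0 (.s k125 k190 8 (.d k253 k189
  k169 7 13)))))))) .n)) .n)))))))))))

def t26_182 : T TT 256 :=
  (.f k255 k170 14 (.q k106 [(.s k64 k127 6 (.s k192 k128 7 (.s k149 k63 14 (.d k213 k234 k21 6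
  7))))] (.c k21 (.q k16 [(.s k48 k32 3 (.s k154 k223 10 (.s k101 k207 14 (.d k117 k69 k186 3
  10)))), (.s k64 k127 6 (.s k154 k223 10 (.s k192 k128 7 (.s k149 k63 14 (.s k144 k159 2 (.s k80
  k208 7 (.d k96 k112 k48 3 11))))))), (.s k48 k32 3 (.s k64 k127 6 (.s k192 k128 7 (.s k96 k144 11
  (.s k101 k111 2 (.d k117 k69 k186 3 10))))))] (.c k48 (.l (.s k127 k64 6 (.s k63 k191 7 (.s k223
  k154 10 (.s k207 k239 3 (.s k111 k159 11 (.s k101 k96 2 (.d k69 k138 k117 10 3)))))))) .n)) (.c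
  k63 (.q k1 [(.s k3 k2 0 (.s k87 k171 13 (.s k86 k84 0 (.d k169 k253 k252 13 14)))), (.s k64 k127 6
  (.s k192 k128 7 (.s k213 k234 6 (.s k253 k169 13 (.s k193 k233 5 (.s k65 k129 7 (.d k195 k130 k194
  8 0))))))), (.s k3 k2 0 (.s k64 k127 6 (.s k192 k128 7 (.s k66 k129 8 (.s k86 k126 5 (.d k87 k84
  k171 0 13))))))] (.c k171 (.l (.s k3 k2 0 (.s k64 k127 6 (.s k169 k253 13 (.s k86 k252 14 (.s k192
  k128 7 (.d k66 k126 k129 5 8))))))) .n)) (.c k64 (.q k3 [(.s k1 k2 0 (.s k87 k171 13 (.s k169 k253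
  13 (.d k86 k84 k252 0 14)))), (.s k1 k2 0 (.s k169 k253 13 (.s k43 k232 8 (.s k63 k23 5 (.s k21
  k42 6 (.d k149 k213 k192 7 14)))))), (.s k87 k171 13 (.s k86 k84 0 (.s k66 k126 5 (.s k192 k129 8
  (.s k149 k63 14 (.d k213 k234 k21 6 7))))))] (.c k86 (.f k87 k171 13 (.q k169 [(.d k1 k2 k253 0
  13), (.s k43 k232 8 (.s k63 k23 5 (.s k21 k42 6 (.d k149 k213 k192 7 14))))] (.c k2 (.q k254 [(.d
  k253 k252 k1 0 13), (.s k43 k232 8 (.s k63 k23 5 (.s k21 k42 6 (.d k149 k213 k192 7 14))))] .n)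
  (.c k254 (.l (.s k2 k1 0 (.s k43 k232 8 (.s k63 k23 5 (.s k21 k42 6 (.d k149 k213 k192 7 14))))))
  .n)))) (.c k169 (.q k66 [(.s k86 k126 5 (.d k87 k171 k84 13 0)), (.s k192 k129 8 (.s k149 k63 14
  (.d k213 k234 k21 6 7)))] (.c k168 (.l (.s k171 k87 13 (.s k192 k129 8 (.s k149 k63 14 (.d k213
  k234 k21 6 7))))) (.c k171 (.q k168 [(.s k84 k252 13 (.d k86 k87 k126 0 5)), (.s k192 k129 8 (.s
  k149 k63 14 (.d k213 k234 k21 6 7)))] .n) .n))) .n))) (.c k127 (.q k195 [(.s k65 k130 8 (.s k215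
  k235 5 (.s k150 k20 8 (.d k105 k125 k60 5 14)))), (.s k65 k130 8 (.s k105 k125 5 (.s k107 k104 0
  (.s k63 k151 13 (.s k21 k42 6 (.d k149 k213 k192 7 14)))))), (.s k215 k235 5 (.s k150 k20 8 (.s
  k194 k62 13 (.s k192 k193 0 (.s k149 k63 14 (.d k213 k234 k21 6 7))))))] (.c k105 (.q k149 [(.s
  k21 k213 7 (.d k63 k42 k192 6 14)), (.s k63 k192 14 (.s k151 k107 13 (.s k150 k148 0 (.d k215 k235
  k20 5 8))))] (.c k40 (.l (.s k235 k215 5 (.s k21 k213 7 (.d k63 k42 k192 6 14)))) (.c k63 (.l (.s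
  k213 k21 7 (.s k192 k234 6 (.s k194 k193 0 (.s k150 k62 13 (.d k215 k235 k20 5 8)))))) (.c k192
  (.l (.s k21 k213 7 (.s k63 k42 6 (.s k151 k107 13 (.s k150 k148 0 (.d k215 k235 k20 5 8)))))) (.c
  k235 (.q k40 [(.s k21 k213 7 (.d k63 k42 k192 6 14)), (.s k20 k60 5 (.s k63 k192 14 (.s k150 k215
  8 (.d k151 k148 k107 0 13))))] (.c k63 (.l (.s k20 k60 5 (.s k150 k215 8 (.s k213 k21 7 (.s k192
  k234 6 (.d k194 k62 k193 13 0)))))) (.c k192 (.l (.s k20 k60 5 (.s k21 k213 7 (.s k63 k42 6 (.s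
  k150 k215 8 (.d k151 k148 k107 0 13)))))) .n))) .n))))) (.c k150 (.f k130 k65 8 (.q k134 [(.s k73
  k12 10 (.s k138 k142 1 (.s k207 k69 10 (.d k203 k199 k8 1 8)))), (.s k12 k73 10 (.s k93 k174 12
  (.s k89 k81 1 (.s k72 k123 4 (.s k192 k132 9 (.s k149 k63 14 (.d k213 k234 k21 6 7)))))))] (.c k12
  (.l (.s k138 k142 1 (.s k207 k69 10 (.s k199 k203 1 (.s k215 k235 5 (.s k223 k239 3 (.s k219 k211
  1 (.d k231 k247 k243 3 5)))))))) (.c k69 (.l (.s k142 k138 1 (.s k12 k73 10 (.s k77 k207 8 (.s k93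
  k174 12 (.s k89 k81 1 (.s k166 k243 14 (.d k4 k8 k247 1 12)))))))) (.c k73 (.l (.s k138 k142 1 (.s
  k69 k207 10 (.s k4 k199 8 (.s k12 k8 1 (.s k93 k174 12 (.s k89 k81 1 (.d k166 k247 k243 12
  14)))))))) (.c k77 (.l (.s k73 k12 10 (.s k138 k142 1 (.s k207 k69 10 (.d k203 k199 k8 1 8)))))
  .n)))))) .n))) (.c k128 (.l (.s k127 k64 6 (.s k63 k191 7 (.s k149 k192 14 (.d k21 k42 k213 6
  7))))) (.c k149 (.f k64 k127 6 (.q k101 [(.s k69 k117 3 (.s k79 k74 2 (.s k96 k111 2 (.d k112 k80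
  k90 3 6)))), (.s k96 k111 2 (.s k117 k69 3 (.s k48 k186 10 (.d k192 k128 k144 7 11)))), (.s k69
  k117 3 (.s k207 k138 10 (.s k154 k48 14 (.d k223 k239 k16 3 10))))] (.c k69 (.l (.s k96 k111 2 (.s
  k80 k112 3 (.s k160 k240 11 (.s k32 k224 7 (.s k48 k16 3 (.d k192 k128 k144 7 11))))))) (.c k117
  (.l (.s k96 k111 2 (.s k112 k80 3 (.s k79 k90 6 (.s k69 k74 2 (.s k207 k138 10 (.s k154 k48 14 (.d
  k223 k239 k16 3 10)))))))) (.c k128 (.q k191 [(.s k69 k117 3 (.s k79 k74 2 (.s k96 k111 2 (.d k112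
  k80 k90 3 6)))), (.s k117 k69 3 (.s k48 k186 10 (.s k16 k32 3 (.d k154 k223 k207 10 14))))] (.c
  k69 (.l (.s k96 k111 2 (.s k80 k112 3 (.s k240 k160 11 (.s k245 k250 2 (.s k165 k5 11 (.d k90 k95
  k15 2 14))))))) (.c k117 (.l (.s k96 k111 2 (.s k112 k80 3 (.s k79 k90 6 (.s k69 k74 2 (.s k207
  k138 10 (.s k154 k48 14 (.d k223 k239 k16 3 10)))))))) .n))) (.c k191 (.l (.s k128 k192 7 (.s k69
  k117 3 (.s k79 k74 2 (.s k96 k111 2 (.d k112 k80 k90 3 6)))))) .n)))))) (.c k191 (.l (.s k64 k127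
  6 (.s k192 k128 7 (.s k149 k63 14 (.d k213 k234 k21 6 7))))) (.c k192 (.q k1 [(.s k3 k2 0 (.s k87
  k171 13 (.s k86 k84 0 (.d k169 k253 k252 13 14)))), (.s k127 k64 6 (.s k63 k191 7 (.s k21 k42 6
  (.s k61 k41 5 (.s k253 k169 13 (.s k125 k189 7 (.d k60 k190 k62 8 0))))))), (.s k3 k2 0 (.s k127
  k64 6 (.s k63 k191 7 (.s k21 k42 6 (.s k23 k43 5 (.s k22 k20 0 (.d k41 k61 k60 5 6)))))))] .n) (.c
  k213 (.q k1 [(.s k3 k2 0 (.s k87 k171 13 (.s k86 k84 0 (.d k169 k253 k252 13 14)))), (.s k64 k127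
  6 (.s k169 k253 13 (.s k192 k128 7 (.s k149 k63 14 (.s k129 k189 5 (.s k66 k3 8 (.d k65 k193 k67 7
  0))))))), (.s k3 k2 0 (.s k64 k127 6 (.s k192 k128 7 (.s k66 k129 8 (.s k86 k126 5 (.d k87 k84
  k171 0 13))))))] (.c k3 (.l (.s k127 k64 6 (.s k63 k191 7 (.s k21 k42 6 (.s k61 k41 5 (.s k60 k62
  0 (.s k125 k190 8 (.d k253 k189 k169 7 13)))))))) .n)) (.c k234 (.l (.s k127 k64 6 (.s k63 k191 7
  (.s k21 k42 6 (.d k149 k213 k192 7 14))))) .n))))))))))))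

def t26_183 : T TT 256 :=
  (.f k255 k170 14 (.q k105 [(.s k65 k125 5 (.s k195 k130 8 (.s k150 k60 14 (.d k215 k235 k20 5
  8))))] (.c k20 (.q k1 [(.s k169 k253 13 (.s k3 k2 0 (.s k86 k252 14 (.d k87 k84 k171 0 13)))), (.s
  k65 k125 5 (.s k169 k253 13 (.s k41 k233 7 (.s k61 k21 5 (.d k193 k129 k149 7 13))))), (.s k3 k2 0
  (.s k65 k125 5 (.s k129 k193 7 (.s k66 k192 8 (.s k67 k64 0 (.d k195 k131 k130 7 8))))))] .n) (.c
  k60 (.q k1 [(.s k3 k2 0 (.s k87 k171 13 (.s k86 k84 0 (.d k169 k253 k252 13 14)))), (.s k65 k125 5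
  (.s k169 k253 13 (.s k41 k233 7 (.s k61 k21 5 (.d k193 k129 k149 7 13))))), (.s k3 k2 0 (.s k65
  k125 5 (.s k129 k193 7 (.s k66 k192 8 (.s k67 k64 0 (.d k195 k131 k130 7 8))))))] .n) (.c k65 (.q
  k1 [(.s k169 k253 13 (.s k3 k2 0 (.s k86 k252 14 (.d k87 k84 k171 0 13)))), (.s k169 k253 13 (.s
  k41 k233 7 (.s k21 k61 5 (.s k63 k42 6 (.s k127 k191 7 (.s k106 k64 6 (.d k149 k213 k192 7
  14)))))))] (.c k169 (.f k3 k2 0 (.q k86 [(.d k87 k171 k84 13 0), (.s k67 k124 6 (.s k195 k131 7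
  (.s k150 k60 14 (.d k215 k235 k20 5 8))))] (.c k168 (.l (.s k171 k87 13 (.s k67 k124 6 (.s k195
  k131 7 (.s k150 k60 14 (.d k215 k235 k20 5 8)))))) (.c k171 (.q k168 [(.d k84 k87 k252 0 13), (.s
  k67 k124 6 (.s k195 k131 7 (.s k215 k235 5 (.d k150 k20 k60 8 14))))] .n) .n)))) (.c k253 (.l (.s
  k3 k2 0 (.s k87 k171 13 (.s k86 k84 0 (.s k67 k124 6 (.s k195 k131 7 (.s k150 k60 14 (.d k215 k235
  k20 5 8)))))))) .n))) (.c k125 (.q k253 [(.s k169 k1 13 (.s k252 k254 0 (.s k84 k168 13 (.d k86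
  k87 k3 0 14)))), (.s k169 k1 13 (.s k233 k41 7 (.s k213 k193 5 (.s k192 k234 6 (.s k64 k128 7 (.s
  k106 k127 6 (.d k149 k21 k63 7 14)))))))] (.c k1 (.l (.s k252 k254 0 (.s k84 k168 13 (.s k86 k87 0
  (.s k124 k67 6 (.s k60 k188 7 (.s k20 k40 5 (.d k150 k215 k195 8 14)))))))) (.c k169 (.f k252 k254
  0 (.q k86 [(.d k84 k168 k87 13 0), (.s k124 k67 6 (.s k60 k188 7 (.s k20 k40 5 (.d k150 k215 k195
  8 14))))] (.c k168 (.q k171 [(.d k87 k84 k3 0 13), (.s k124 k67 6 (.s k60 k188 7 (.s k20 k40 5 (.d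
  k150 k215 k195 8 14))))] .n) (.c k171 (.l (.s k168 k84 13 (.s k124 k67 6 (.s k60 k188 7 (.s k20
  k40 5 (.d k150 k215 k195 8 14)))))) .n)))) .n))) (.c k130 (.l (.s k125 k65 5 (.s k60 k190 8 (.s
  k150 k195 14 (.d k20 k40 k215 5 8))))) (.c k150 (.f k125 k65 5 (.q k109 [(.s k77 k93 3 (.s k101
  k97 1 (.s k117 k69 3 (.d k113 k121 k89 1 5)))), (.s k93 k77 3 (.s k12 k174 12 (.s k4 k8 1 (.s k166
  k247 12 (.d k89 k81 k243 1 14))))), (.s k101 k97 1 (.s k69 k117 3 (.s k207 k138 10 (.d k60 k190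
  k158 8 12))))] (.c k69 (.l (.s k77 k93 3 (.s k101 k97 1 (.s k113 k89 5 (.s k117 k121 1 (.s k48
  k186 10 (.s k16 k32 3 (.d k154 k223 k207 10 14)))))))) (.c k81 (.l (.s k77 k93 3 (.s k101 k97 1
  (.s k113 k89 5 (.d k117 k121 k69 1 3))))) (.c k130 (.l (.s k190 k60 8 (.s k77 k93 3 (.s k101 k97 1
  (.s k113 k89 5 (.d k117 k121 k69 1 3)))))) (.c k190 (.q k130 [(.s k77 k93 3 (.s k101 k97 1 (.s
  k117 k69 3 (.d k113 k121 k89 1 5)))), (.s k93 k77 3 (.s k12 k174 12 (.s k4 k8 1 (.s k166 k247 12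
  (.d k89 k81 k243 1 14))))), (.s k101 k97 1 (.s k69 k117 3 (.s k207 k138 10 (.s k154 k48 14 (.d
  k223 k239 k16 3 10)))))] (.c k69 (.l (.s k77 k93 3 (.s k101 k97 1 (.s k113 k89 5 (.s k117 k121 1
  (.s k48 k186 10 (.s k16 k32 3 (.d k154 k223 k207 10 14)))))))) (.c k81 (.l (.s k77 k93 3 (.s k101
  k97 1 (.s k113 k89 5 (.d k117 k121 k69 1 3))))) .n))) .n)))))) (.c k190 (.l (.s k65 k125 5 (.s
  k195 k130 8 (.s k150 k60 14 (.d k215 k235 k20 5 8))))) (.c k195 (.q k1 [(.s k3 k2 0 (.s k87 k171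
  13 (.s k86 k84 0 (.d k169 k253 k252 13 14)))), (.s k65 k125 5 (.s k169 k253 13 (.s k41 k233 7 (.s
  k61 k21 5 (.d k193 k129 k149 7 13))))), (.s k3 k2 0 (.s k125 k65 5 (.s k60 k190 8 (.s k40 k20 5
  (.s k41 k22 6 (.s k21 k61 5 (.d k42 k43 k63 0 6)))))))] .n) (.c k215 (.q k1 [(.s k169 k253 13 (.s
  k3 k2 0 (.s k86 k252 14 (.d k87 k84 k171 0 13)))), (.s k65 k125 5 (.s k169 k253 13 (.s k41 k233 7
  (.s k61 k21 5 (.d k193 k129 k149 7 13))))), (.s k3 k2 0 (.s k65 k125 5 (.s k129 k193 7 (.s k66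
  k192 8 (.s k67 k64 0 (.d k195 k131 k130 7 8))))))] .n) (.c k235 (.l (.s k125 k65 5 (.s k60 k190 8
  (.s k20 k40 5 (.d k150 k215 k195 8 14))))) .n))))))))))))

def t26_186 : T TT 256 :=
  (.q k86 [(.s k84 k87 0 (.s k252 k168 13 (.s k169 k3 14 (.s k253 k1 13 (.d k255 k254 k170 0
  14)))))] (.c k1 (.q k4 [(.s k12 k8 1 (.s k166 k247 12 (.s k89 k243 14 (.s k93 k81 1 (.d k255 k174
  k170 12 14))))), (.s k84 k87 0 (.s k166 k247 12 (.s k6 k246 11 (.s k7 k5 0 (.d k244 k164 k165 11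
  12))))), (.s k12 k8 1 (.s k84 k87 0 (.s k164 k244 11 (.s k88 k240 13 (.s k92 k80 1 (.d k252 k172
  k168 11 13))))))] .n) (.c k3 (.q k4 [(.s k12 k8 1 (.s k166 k247 12 (.s k89 k243 14 (.s k93 k81 1
  (.d k255 k174 k170 12 14))))), (.s k84 k87 0 (.s k166 k247 12 (.s k6 k246 11 (.s k7 k5 0 (.d k244
  k164 k165 11 12))))), (.s k12 k8 1 (.s k84 k87 0 (.s k164 k244 11 (.s k88 k240 13 (.s k92 k80 1
  (.d k252 k172 k168 11 13))))))] (.c k255 (.l (.s k87 k84 0 (.s k247 k166 12 (.s k7 k167 11 (.s k5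
  k6 0 (.d k165 k245 k244 11 12)))))) .n)) (.c k84 (.q k4 [(.s k12 k8 1 (.s k166 k247 12 (.s k89
  k243 14 (.s k93 k81 1 (.d k255 k174 k170 12 14))))), (.s k12 k8 1 (.s k166 k247 12 (.s k6 k246 11
  (.s k3 k9 2 (.s k1 k2 0 (.d k169 k253 k252 13 14)))))), (.s k166 k247 12 (.s k6 k246 11 (.s k5 k7
  0 (.s k10 k15 2 (.s k170 k255 14 (.d k2 k14 k254 1 13)))))), (.s k12 k8 1 (.s k170 k255 14 (.s k2
  k254 13 (.s k3 k1 0 (.s k6 k9 2 (.s k5 k7 0 (.d k10 k14 k15 1 2)))))))] .n) (.c k87 (.q k4 [(.s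
  k12 k8 1 (.s k166 k247 12 (.s k89 k243 14 (.s k93 k81 1 (.d k255 k174 k170 12 14))))), (.s k12 k8
  1 (.s k166 k247 12 (.s k6 k246 11 (.s k3 k9 2 (.s k1 k2 0 (.d k169 k253 k252 13 14)))))), (.s k12
  k8 1 (.s k170 k255 14 (.s k2 k254 13 (.s k3 k1 0 (.s k6 k9 2 (.s k10 k14 1 (.d k5 k7 k15 0
  2))))))), (.s k166 k247 12 (.s k6 k246 11 (.s k170 k255 14 (.s k2 k254 13 (.s k10 k14 1 (.d k5 k7
  k15 0 2))))))] (.c k7 (.l (.s k12 k8 1 (.s k255 k170 14 (.s k93 k174 12 (.s k89 k81 1 (.d k166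
  k247 k243 12 14)))))) .n)) (.c k168 (.l (.s k87 k84 0 (.s k255 k170 14 (.s k3 k171 13 (.s k169
  k252 14 (.d k1 k2 k253 0 13)))))) (.c k169 (.q k4 [(.s k12 k8 1 (.s k166 k247 12 (.s k89 k243 14
  (.s k93 k81 1 (.d k255 k174 k170 12 14))))), (.s k84 k87 0 (.s k166 k247 12 (.s k6 k246 11 (.s k7
  k5 0 (.d k244 k164 k165 11 12))))), (.s k12 k8 1 (.s k84 k87 0 (.s k164 k244 11 (.s k88 k240 13
  (.s k92 k80 1 (.d k252 k172 k168 11 13))))))] .n) (.c k170 (.q k154 [(.s k16 k223 10 (.s k18 k222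
  9 (.s k19 k17 0 (.s k84 k87 0 (.d k220 k152 k153 9 10))))), (.s k84 k87 0 (.s k222 k18 9 (.s k252
  k168 13 (.s k207 k237 4 (.s k69 k138 10 (.d k101 k117 k48 3 14)))))), (.s k16 k223 10 (.s k48 k32
  3 (.s k84 k87 0 (.s k101 k207 14 (.s k116 k71 4 (.d k252 k184 k168 9 13)))))), (.s k16 k223 10 (.s
  k18 k222 9 (.s k48 k32 3 (.s k3 k33 4 (.s k1 k2 0 (.d k169 k253 k252 13 14))))))] .n) (.c k171 (.l
  (.s k84 k87 0 (.s k252 k168 13 (.s k3 k169 14 (.s k170 k255 14 (.d k2 k1 k254 0 13)))))) (.c k252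
  (.q k5 [(.s k87 k84 0 (.s k165 k245 11 (.s k7 k244 12 (.s k4 k6 0 (.d k247 k167 k166 11 12))))),
  (.s k15 k10 2 (.s k165 k245 11 (.s k170 k255 14 (.s k160 k175 2 (.d k240 k80 k90 11 14))))), (.s
  k15 k10 2 (.s k87 k84 0 (.s k255 k170 14 (.s k3 k171 13 (.s k7 k11 1 (.s k4 k6 0 (.d k247 k167
  k166 11 12)))))))] .n) (.c k253 (.l (.s k84 k87 0 (.s k170 k255 14 (.s k2 k254 13 (.s k252 k168 13
  (.d k3 k1 k169 0 14)))))) (.c k254 (.l (.s k87 k84 0 (.s k255 k170 14 (.s k3 k171 13 (.s k1 k2 0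
  (.d k169 k253 k252 13 14)))))) (.c k255 (.q k48 [(.s k16 k32 3 (.s k84 k87 0 (.s k152 k220 9 (.s
  k100 k204 13 (.s k116 k68 3 (.d k252 k184 k168 9 13)))))), (.s k16 k32 3 (.s k154 k223 10 (.s k18
  k222 9 (.s k3 k33 4 (.s k1 k2 0 (.d k169 k253 k252 13 14)))))), (.s k84 k87 0 (.s k252 k168 13 (.s
  k116 k184 9 (.s k101 k71 4 (.s k69 k117 3 (.d k207 k138 k154 10 14)))))), (.s k16 k32 3 (.s k87
  k84 0 (.s k223 k154 10 (.s k19 k155 9 (.s k17 k18 0 (.d k153 k221 k220 9 10))))))] .n)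
  .n)))))))))))))

def t26_187 : T TT 256 :=
  (.q k86 [(.s k84 k87 0 (.s k252 k168 13 (.s k169 k3 14 (.s k253 k1 13 (.d k255 k254 k170 0
  14)))))] (.c k1 (.q k4 [(.s k12 k8 1 (.s k166 k247 12 (.s k89 k243 14 (.s k93 k81 1 (.d k255 k174
  k170 12 14))))), (.s k84 k87 0 (.s k166 k247 12 (.s k6 k246 11 (.s k7 k5 0 (.d k244 k164 k165 11
  12))))), (.s k12 k8 1 (.s k84 k87 0 (.s k164 k244 11 (.s k88 k240 13 (.s k92 k80 1 (.d k252 k172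
  k168 11 13))))))] .n) (.c k3 (.q k4 [(.s k12 k8 1 (.s k166 k247 12 (.s k89 k243 14 (.s k93 k81 1
  (.d k255 k174 k170 12 14))))), (.s k84 k87 0 (.s k166 k247 12 (.s k6 k246 11 (.s k7 k5 0 (.d k244
  k164 k165 11 12))))), (.s k12 k8 1 (.s k84 k87 0 (.s k164 k244 11 (.s k88 k240 13 (.s k92 k80 1
  (.d k252 k172 k168 11 13))))))] (.c k255 (.l (.s k87 k84 0 (.s k247 k166 12 (.s k7 k167 11 (.s k5
  k6 0 (.d k165 k245 k244 11 12)))))) .n)) (.c k84 (.q k4 [(.s k12 k8 1 (.s k166 k247 12 (.s k89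
  k243 14 (.s k93 k81 1 (.d k255 k174 k170 12 14))))), (.s k12 k8 1 (.s k166 k247 12 (.s k6 k246 11
  (.s k3 k9 2 (.s k1 k2 0 (.d k169 k253 k252 13 14)))))), (.s k166 k247 12 (.s k6 k246 11 (.s k5 k7
  0 (.s k10 k15 2 (.s k170 k255 14 (.d k2 k14 k254 1 13)))))), (.s k12 k8 1 (.s k170 k255 14 (.s k2
  k254 13 (.s k3 k1 0 (.s k6 k9 2 (.s k5 k7 0 (.d k10 k14 k15 1 2)))))))] .n) (.c k87 (.q k4 [(.s
  k12 k8 1 (.s k166 k247 12 (.s k89 k243 14 (.s k93 k81 1 (.d k255 k174 k170 12 14))))), (.s k12 k8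
  1 (.s k166 k247 12 (.s k6 k246 11 (.s k3 k9 2 (.s k1 k2 0 (.d k169 k253 k252 13 14)))))), (.s k12
  k8 1 (.s k170 k255 14 (.s k2 k254 13 (.s k3 k1 0 (.s k6 k9 2 (.s k10 k14 1 (.d k5 k7 k15 0
  2))))))), (.s k166 k247 12 (.s k6 k246 11 (.s k170 k255 14 (.s k2 k254 13 (.s k10 k14 1 (.d k5 k7
  k15 0 2))))))] (.c k7 (.l (.s k12 k8 1 (.s k255 k170 14 (.s k93 k174 12 (.s k89 k81 1 (.d k166
  k247 k243 12 14)))))) .n)) (.c k168 (.l (.s k87 k84 0 (.s k255 k170 14 (.s k3 k171 13 (.s k169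
  k252 14 (.d k1 k2 k253 0 13)))))) (.c k169 (.q k4 [(.s k12 k8 1 (.s k166 k247 12 (.s k89 k243 14
  (.s k93 k81 1 (.d k255 k174 k170 12 14))))), (.s k84 k87 0 (.s k166 k247 12 (.s k6 k246 11 (.s k7
  k5 0 (.d k244 k164 k165 11 12))))), (.s k12 k8 1 (.s k84 k87 0 (.s k164 k244 11 (.s k88 k240 13
  (.s k92 k80 1 (.d k252 k172 k168 11 13))))))] .n) (.c k170 (.q k153 [(.s k84 k87 0 (.s k220 k19 10
  (.s k16 k152 9 (.s k221 k17 9 (.d k223 k222 k154 0 10))))), (.s k17 k221 9 (.s k51 k34 4 (.s k84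
  k87 0 (.s k102 k204 14 (.s k118 k70 3 (.d k252 k185 k168 10 13)))))), (.s k17 k221 9 (.s k19 k220
  10 (.s k51 k34 4 (.s k3 k35 3 (.s k1 k2 0 (.d k169 k253 k252 13 14)))))), (.s k84 k87 0 (.s k220
  k19 10 (.s k252 k168 13 (.s k204 k236 3 (.s k68 k136 9 (.d k102 k119 k51 4 14))))))] .n) (.c k171
  (.l (.s k84 k87 0 (.s k252 k168 13 (.s k3 k169 14 (.s k170 k255 14 (.d k2 k1 k254 0 13)))))) (.c
  k252 (.q k5 [(.s k87 k84 0 (.s k165 k245 11 (.s k7 k244 12 (.s k4 k6 0 (.d k247 k167 k166 11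
  12))))), (.s k15 k10 2 (.s k165 k245 11 (.s k170 k255 14 (.s k160 k175 2 (.d k240 k80 k90 11
  14))))), (.s k15 k10 2 (.s k87 k84 0 (.s k255 k170 14 (.s k3 k171 13 (.s k7 k11 1 (.s k4 k6 0 (.d
  k247 k167 k166 11 12)))))))] .n) (.c k253 (.l (.s k84 k87 0 (.s k170 k255 14 (.s k2 k254 13 (.s
  k252 k168 13 (.d k3 k1 k169 0 14)))))) (.c k254 (.l (.s k87 k84 0 (.s k255 k170 14 (.s k3 k171 13
  (.s k1 k2 0 (.d k169 k253 k252 13 14)))))) (.c k255 (.q k51 [(.s k17 k34 4 (.s k84 k87 0 (.s k153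
  k221 9 (.s k204 k102 14 (.s k252 k168 13 (.d k220 k236 k19 3 10)))))), (.s k84 k87 0 (.s k252 k168
  13 (.s k118 k185 10 (.s k102 k70 3 (.s k68 k119 4 (.d k204 k136 k153 9 14)))))), (.s k17 k34 4 (.s
  k87 k84 0 (.s k153 k221 9 (.s k19 k220 10 (.s k16 k18 0 (.d k223 k155 k154 9 10)))))), (.s k17 k34
  4 (.s k153 k221 9 (.s k19 k220 10 (.s k3 k35 3 (.s k1 k2 0 (.d k169 k253 k252 13 14))))))] (.c
  k153 (.f k17 k34 4 (.l (.s k84 k87 0 (.s k252 k168 13 (.s k3 k169 14 (.s k1 k2 0 (.s k19 k35 3 (.s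
  k18 k16 0 (.d k33 k49 k48 3 4))))))))) (.c k204 (.l (.s k17 k34 4 (.s k84 k87 0 (.s k252 k168 13
  (.s k3 k169 14 (.s k19 k35 3 (.d k153 k221 k220 9 10))))))) .n))) .n)))))))))))))

def t26_191 : T TT 256 :=
  (.q k86 [(.s k84 k87 0 (.s k252 k168 13 (.s k169 k3 14 (.s k253 k1 13 (.d k255 k254 k170 0
  14)))))] (.c k1 (.q k4 [(.s k12 k8 1 (.s k166 k247 12 (.s k89 k243 14 (.s k93 k81 1 (.d k255 k174
  k170 12 14))))), (.s k84 k87 0 (.s k166 k247 12 (.s k6 k246 11 (.s k7 k5 0 (.d k244 k164 k165 11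
  12))))), (.s k12 k8 1 (.s k84 k87 0 (.s k164 k244 11 (.s k88 k240 13 (.s k92 k80 1 (.d k252 k172
  k168 11 13))))))] .n) (.c k3 (.q k4 [(.s k12 k8 1 (.s k166 k247 12 (.s k89 k243 14 (.s k93 k81 1
  (.d k255 k174 k170 12 14))))), (.s k84 k87 0 (.s k166 k247 12 (.s k6 k246 11 (.s k7 k5 0 (.d k244
  k164 k165 11 12))))), (.s k12 k8 1 (.s k84 k87 0 (.s k164 k244 11 (.s k88 k240 13 (.s k92 k80 1
  (.d k252 k172 k168 11 13))))))] (.c k255 (.l (.s k87 k84 0 (.s k247 k166 12 (.s k7 k167 11 (.s k5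
  k6 0 (.d k165 k245 k244 11 12)))))) .n)) (.c k84 (.q k4 [(.s k12 k8 1 (.s k166 k247 12 (.s k89
  k243 14 (.s k93 k81 1 (.d k255 k174 k170 12 14))))), (.s k12 k8 1 (.s k166 k247 12 (.s k6 k246 11
  (.s k3 k9 2 (.s k1 k2 0 (.d k169 k253 k252 13 14)))))), (.s k166 k247 12 (.s k6 k246 11 (.s k5 k7
  0 (.s k10 k15 2 (.s k170 k255 14 (.d k2 k14 k254 1 13)))))), (.s k12 k8 1 (.s k170 k255 14 (.s k2
  k254 13 (.s k3 k1 0 (.s k6 k9 2 (.s k5 k7 0 (.d k10 k14 k15 1 2)))))))] .n) (.c k87 (.q k4 [(.s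
  k12 k8 1 (.s k166 k247 12 (.s k89 k243 14 (.s k93 k81 1 (.d k255 k174 k170 12 14))))), (.s k12 k8
  1 (.s k166 k247 12 (.s k6 k246 11 (.s k3 k9 2 (.s k1 k2 0 (.d k169 k253 k252 13 14)))))), (.s k12
  k8 1 (.s k170 k255 14 (.s k2 k254 13 (.s k3 k1 0 (.s k6 k9 2 (.s k10 k14 1 (.d k5 k7 k15 0
  2))))))), (.s k166 k247 12 (.s k6 k246 11 (.s k170 k255 14 (.s k2 k254 13 (.s k10 k14 1 (.d k5 k7
  k15 0 2))))))] (.c k7 (.l (.s k12 k8 1 (.s k255 k170 14 (.s k93 k174 12 (.s k89 k81 1 (.d k166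
  k247 k243 12 14)))))) .n)) (.c k168 (.l (.s k87 k84 0 (.s k255 k170 14 (.s k3 k171 13 (.s k169
  k252 14 (.d k1 k2 k253 0 13)))))) (.c k169 (.q k4 [(.s k12 k8 1 (.s k166 k247 12 (.s k89 k243 14
  (.s k93 k81 1 (.d k255 k174 k170 12 14))))), (.s k84 k87 0 (.s k166 k247 12 (.s k6 k246 11 (.s k7
  k5 0 (.d k244 k164 k165 11 12))))), (.s k12 k8 1 (.s k84 k87 0 (.s k164 k244 11 (.s k88 k240 13
  (.s k92 k80 1 (.d k252 k172 k168 11 13))))))] .n) (.c k170 (.q k149 [(.s k21 k213 7 (.s k23 k212 8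
  (.s k20 k22 0 (.s k87 k84 0 (.d k215 k151 k150 7 8))))), (.s k21 k213 7 (.s k63 k42 6 (.s k84 k87
  0 (.s k106 k192 14 (.s k126 k66 5 (.d k252 k189 k168 8 13)))))), (.s k21 k213 7 (.s k23 k212 8 (.s
  k63 k42 6 (.s k3 k43 5 (.s k1 k2 0 (.d k169 k253 k252 13 14)))))), (.s k84 k87 0 (.s k212 k23 8
  (.s k252 k168 13 (.s k192 k232 5 (.s k64 k128 7 (.d k106 k127 k63 6 14))))))] .n) (.c k171 (.l (.s
  k84 k87 0 (.s k252 k168 13 (.s k3 k169 14 (.s k170 k255 14 (.d k2 k1 k254 0 13)))))) (.c k252 (.q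
  k5 [(.s k87 k84 0 (.s k165 k245 11 (.s k7 k244 12 (.s k4 k6 0 (.d k247 k167 k166 11 12))))), (.s
  k15 k10 2 (.s k165 k245 11 (.s k170 k255 14 (.s k160 k175 2 (.d k240 k80 k90 11 14))))), (.s k15
  k10 2 (.s k87 k84 0 (.s k255 k170 14 (.s k3 k171 13 (.s k7 k11 1 (.s k4 k6 0 (.d k247 k167 k166 11
  12)))))))] .n) (.c k253 (.l (.s k84 k87 0 (.s k170 k255 14 (.s k2 k254 13 (.s k252 k168 13 (.d k3
  k1 k169 0 14)))))) (.c k254 (.l (.s k87 k84 0 (.s k255 k170 14 (.s k3 k171 13 (.s k1 k2 0 (.d k169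
  k253 k252 13 14)))))) (.c k255 (.q k63 [(.s k84 k87 0 (.s k252 k168 13 (.s k3 k169 14 (.s k23 k43
  5 (.s k149 k212 8 (.d k21 k42 k213 6 7)))))), (.s k21 k42 6 (.s k87 k84 0 (.s k149 k213 7 (.s k23
  k212 8 (.s k20 k22 0 (.d k215 k151 k150 7 8)))))), (.s k84 k87 0 (.s k252 k168 13 (.s k126 k189 8
  (.s k106 k66 5 (.s k64 k127 6 (.d k192 k128 k149 7 14)))))), (.s k21 k42 6 (.s k149 k213 7 (.s k23
  k212 8 (.s k3 k43 5 (.s k1 k2 0 (.d k169 k253 k252 13 14))))))] (.c k149 (.f k21 k42 6 (.l (.s k84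
  k87 0 (.s k252 k168 13 (.s k3 k169 14 (.s k1 k2 0 (.s k23 k43 5 (.s k22 k20 0 (.d k41 k61 k60 5
  6))))))))) .n)) .n)))))))))))))

def t26_198 : T TT 256 :=
  (.f k255 k170 14 (.q k89 [(.s k81 k93 1 (.s k243 k162 12 (.s k166 k12 14 (.d k247 k251 k4 1
  12))))] (.c k4 (.q k1 [(.s k169 k253 13 (.s k3 k2 0 (.s k86 k252 14 (.d k87 k84 k171 0 13)))), (.s
  k81 k93 1 (.s k169 k253 13 (.s k9 k249 11 (.s k13 k5 1 (.d k241 k161 k165 11 13))))), (.s k3 k2 0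
  (.s k81 k93 1 (.s k161 k241 11 (.s k82 k240 12 (.s k83 k80 0 (.d k243 k163 k162 11 12))))))] .n)
  (.c k12 (.q k1 [(.s k3 k2 0 (.s k87 k171 13 (.s k86 k84 0 (.d k169 k253 k252 13 14)))), (.s k81
  k93 1 (.s k169 k253 13 (.s k9 k249 11 (.s k13 k5 1 (.d k241 k161 k165 11 13))))), (.s k3 k2 0 (.s
  k81 k93 1 (.s k161 k241 11 (.s k82 k240 12 (.s k83 k80 0 (.d k243 k163 k162 11 12))))))] .n) (.c
  k81 (.q k87 [(.s k86 k84 0 (.s k3 k171 13 (.s k169 k252 14 (.d k1 k2 k253 0 13)))), (.s k86 k84 0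
  (.s k83 k92 2 (.s k95 k91 1 (.s k15 k175 11 (.s k5 k10 2 (.s k165 k245 11 (.d k90 k80 k240 2
  14)))))))] (.c k84 (.l (.s k3 k171 13 (.s k1 k2 0 (.s k169 k253 13 (.s k9 k249 11 (.s k12 k6 2 (.s
  k4 k8 1 (.d k166 k247 k243 12 14)))))))) (.c k86 (.f k3 k171 13 (.q k169 [(.d k1 k2 k253 0 13),
  (.s k9 k249 11 (.s k12 k6 2 (.s k4 k8 1 (.d k166 k247 k243 12 14))))] (.c k2 (.q k254 [(.d k253
  k252 k1 0 13), (.s k9 k249 11 (.s k12 k6 2 (.s k4 k8 1 (.d k166 k247 k243 12 14))))] .n) (.c k254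
  (.l (.s k2 k1 0 (.s k9 k249 11 (.s k12 k6 2 (.s k4 k8 1 (.d k166 k247 k243 12 14)))))) .n))))
  .n))) (.c k93 (.q k69 [(.s k101 k117 3 (.s k207 k138 10 (.s k223 k239 3 (.d k154 k16 k48 10
  14)))), (.s k101 k117 3 (.s k77 k113 5 (.s k65 k73 1 (.s k195 k130 8 (.s k215 k235 5 (.s k150 k20
  8 (.d k105 k125 k60 5 14)))))))] (.c k101 (.f k207 k138 10 (.q k154 [(.d k223 k239 k16 3 10), (.s
  k219 k24 8 (.s k243 k231 5 (.s k166 k12 14 (.d k247 k251 k4 1 12))))] (.c k32 (.l (.s k239 k223 3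
  (.s k219 k24 8 (.s k243 k231 5 (.s k166 k12 14 (.d k247 k251 k4 1 12)))))) (.c k239 (.q k32 [(.d
  k16 k48 k223 3 10), (.s k219 k24 8 (.s k243 k231 5 (.s k247 k251 1 (.d k166 k4 k12 12 14))))] .n)
  .n)))) (.c k117 (.l (.s k207 k138 10 (.s k223 k239 3 (.s k154 k16 10 (.s k219 k24 8 (.s k243 k231
  5 (.s k166 k12 14 (.d k247 k251 k4 1 12)))))))) .n))) (.c k162 (.l (.s k93 k81 1 (.s k12 k174 12
  (.s k166 k243 14 (.d k4 k8 k247 1 12))))) (.c k166 (.f k81 k93 1 (.q k83 [(.s k80 k82 0 (.s k86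
  k92 2 (.s k87 k84 0 (.d k95 k91 k90 1 2)))), (.s k80 k82 0 (.s k240 k160 11 (.s k245 k250 2 (.s
  k165 k5 11 (.s k241 k13 13 (.d k243 k162 k242 12 0)))))), (.s k86 k92 2 (.s k84 k87 0 (.s k252
  k168 13 (.s k169 k3 14 (.d k253 k254 k1 0 13)))))] (.c k162 (.q k174 [(.s k86 k92 2 (.s k87 k84 0
  (.s k95 k91 1 (.d k80 k82 k90 0 2)))), (.s k80 k82 0 (.s k240 k160 11 (.s k245 k250 2 (.s k165 k5
  11 (.d k90 k95 k15 2 14))))), (.s k86 k92 2 (.s k84 k87 0 (.s k252 k168 13 (.s k169 k3 14 (.d k253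
  k254 k1 0 13)))))] (.c k95 (.l (.s k82 k80 0 (.s k86 k92 2 (.s k94 k90 1 (.s k84 k87 0 (.s k252
  k168 13 (.d k254 k14 k253 11 0))))))) .n)) (.c k174 (.l (.s k162 k243 12 (.s k80 k82 0 (.s k86 k92
  2 (.s k87 k84 0 (.d k95 k91 k90 1 2)))))) .n)))) (.c k174 (.l (.s k81 k93 1 (.s k243 k162 12 (.s
  k166 k12 14 (.d k247 k251 k4 1 12))))) (.c k243 (.q k1 [(.s k3 k2 0 (.s k87 k171 13 (.s k86 k84 0
  (.d k169 k253 k252 13 14)))), (.s k81 k93 1 (.s k169 k253 13 (.s k9 k249 11 (.s k13 k5 1 (.d k241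
  k161 k165 11 13))))), (.s k3 k2 0 (.s k93 k81 1 (.s k12 k174 12 (.s k8 k4 1 (.s k9 k6 2 (.s k5 k13
  1 (.d k10 k11 k15 0 2)))))))] .n) (.c k247 (.q k1 [(.s k169 k253 13 (.s k3 k2 0 (.s k86 k252 14
  (.d k87 k84 k171 0 13)))), (.s k81 k93 1 (.s k169 k253 13 (.s k9 k249 11 (.s k13 k5 1 (.d k241
  k161 k165 11 13))))), (.s k3 k2 0 (.s k81 k93 1 (.s k161 k241 11 (.s k82 k240 12 (.s k83 k80 0 (.d
  k243 k163 k162 11 12))))))] .n) (.c k251 (.l (.s k93 k81 1 (.s k12 k174 12 (.s k4 k8 1 (.d k166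
  k247 k243 12 14))))) .n))))))))))))

def t26_199 : T TT 256 :=
  (.f k255 k170 14 (.q k89 [(.s k81 k93 1 (.s k243 k162 12 (.s k166 k12 14 (.d k247 k251 k4 1
  12))))] (.c k4 (.q k69 [(.s k101 k117 3 (.s k207 k138 10 (.s k223 k239 3 (.d k154 k16 k48 10
  14)))), (.s k93 k81 1 (.s k101 k117 3 (.s k77 k113 5 (.s k65 k73 1 (.d k125 k109 k105 3 5))))),
  (.s k81 k93 1 (.s k207 k138 10 (.s k243 k162 12 (.s k219 k231 5 (.s k154 k24 8 (.d k223 k239 k16 3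
  10))))))] .n) (.c k12 (.q k1 [(.s k3 k2 0 (.s k87 k171 13 (.s k86 k84 0 (.d k169 k253 k252 13
  14)))), (.s k81 k93 1 (.s k169 k253 13 (.s k9 k249 11 (.s k13 k5 1 (.d k241 k161 k165 11 13))))),
  (.s k3 k2 0 (.s k81 k93 1 (.s k161 k241 11 (.s k82 k240 12 (.s k83 k80 0 (.d k243 k163 k162 11
  12))))))] .n) (.c k81 (.q k87 [(.s k86 k84 0 (.s k3 k171 13 (.s k169 k252 14 (.d k1 k2 k253 0
  13)))), (.s k86 k84 0 (.s k83 k92 2 (.s k95 k91 1 (.s k15 k175 11 (.s k5 k10 2 (.s k165 k245 11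
  (.d k90 k80 k240 2 14)))))))] (.c k84 (.l (.s k3 k171 13 (.s k1 k2 0 (.s k169 k253 13 (.s k9 k249
  11 (.s k12 k6 2 (.s k4 k8 1 (.d k166 k247 k243 12 14)))))))) (.c k86 (.f k3 k171 13 (.q k169 [(.d
  k1 k2 k253 0 13), (.s k9 k249 11 (.s k12 k6 2 (.s k4 k8 1 (.d k166 k247 k243 12 14))))] (.c k2 (.q
  k254 [(.d k253 k252 k1 0 13), (.s k9 k249 11 (.s k12 k6 2 (.s k4 k8 1 (.d k166 k247 k243 12
  14))))] .n) (.c k254 (.l (.s k2 k1 0 (.s k9 k249 11 (.s k12 k6 2 (.s k4 k8 1 (.d k166 k247 k243 12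
  14)))))) .n)))) .n))) (.c k93 (.q k68 [(.s k102 k119 4 (.s k204 k136 9 (.s k153 k51 14 (.d k221
  k238 k17 4 9)))), (.s k102 k119 4 (.s k76 k115 6 (.s k64 k72 1 (.s k192 k128 7 (.s k213 k234 6 (.s
  k149 k21 7 (.d k106 k127 k63 6 14)))))))] (.c k102 (.f k204 k136 9 (.q k153 [(.d k221 k238 k17 4
  9), (.s k217 k25 7 (.s k243 k230 6 (.s k166 k12 14 (.d k247 k251 k4 1 12))))] (.c k34 (.l (.s k238
  k221 4 (.s k217 k25 7 (.s k243 k230 6 (.s k166 k12 14 (.d k247 k251 k4 1 12)))))) (.c k238 (.q k34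
  [(.d k17 k51 k221 4 9), (.s k217 k25 7 (.s k243 k230 6 (.s k247 k251 1 (.d k166 k4 k12 12 14))))]
  .n) .n)))) (.c k119 (.l (.s k204 k136 9 (.s k221 k238 4 (.s k153 k17 9 (.s k217 k25 7 (.s k243
  k230 6 (.s k166 k12 14 (.d k247 k251 k4 1 12)))))))) .n))) (.c k162 (.l (.s k93 k81 1 (.s k12 k174
  12 (.s k166 k243 14 (.d k4 k8 k247 1 12))))) (.c k166 (.f k81 k93 1 (.q k83 [(.s k80 k82 0 (.s k86
  k92 2 (.s k87 k84 0 (.d k95 k91 k90 1 2)))), (.s k80 k82 0 (.s k240 k160 11 (.s k245 k250 2 (.s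
  k165 k5 11 (.s k241 k13 13 (.d k243 k162 k242 12 0)))))), (.s k86 k92 2 (.s k84 k87 0 (.s k252
  k168 13 (.s k169 k3 14 (.d k253 k254 k1 0 13)))))] (.c k162 (.q k174 [(.s k86 k92 2 (.s k87 k84 0
  (.s k95 k91 1 (.d k80 k82 k90 0 2)))), (.s k80 k82 0 (.s k240 k160 11 (.s k245 k250 2 (.s k165 k5
  11 (.d k90 k95 k15 2 14))))), (.s k86 k92 2 (.s k84 k87 0 (.s k252 k168 13 (.s k169 k3 14 (.d k253
  k254 k1 0 13)))))] (.c k95 (.l (.s k82 k80 0 (.s k86 k92 2 (.s k94 k90 1 (.s k84 k87 0 (.s k252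
  k168 13 (.d k254 k14 k253 11 0))))))) .n)) (.c k174 (.l (.s k162 k243 12 (.s k80 k82 0 (.s k86 k92
  2 (.s k87 k84 0 (.d k95 k91 k90 1 2)))))) .n)))) (.c k174 (.l (.s k81 k93 1 (.s k243 k162 12 (.s
  k166 k12 14 (.d k247 k251 k4 1 12))))) (.c k243 (.q k1 [(.s k3 k2 0 (.s k87 k171 13 (.s k86 k84 0
  (.d k169 k253 k252 13 14)))), (.s k81 k93 1 (.s k169 k253 13 (.s k9 k249 11 (.s k13 k5 1 (.d k241
  k161 k165 11 13))))), (.s k3 k2 0 (.s k93 k81 1 (.s k12 k174 12 (.s k8 k4 1 (.s k9 k6 2 (.s k5 k13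
  1 (.d k10 k11 k15 0 2)))))))] .n) (.c k247 (.q k215 [(.s k150 k20 8 (.s k195 k235 5 (.s k65 k130 8
  (.d k105 k125 k60 5 14)))), (.s k81 k93 1 (.s k150 k20 8 (.s k211 k28 10 (.s k16 k146 8 (.d k223
  k219 k154 1 10))))), (.s k81 k93 1 (.s k195 k235 5 (.s k243 k162 12 (.s k211 k227 3 (.s k16 k146 8
  (.d k223 k219 k154 1 10))))))] .n) (.c k251 (.l (.s k93 k81 1 (.s k12 k174 12 (.s k4 k8 1 (.d k166
  k247 k243 12 14))))) .n))))))))))))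

def t26_202 : T TT 256 :=
  (.f k255 k170 14 (.q k106 [(.s k64 k127 6 (.s k192 k128 7 (.s k149 k63 14 (.d k213 k234 k21 6
  7))))] (.c k21 (.q k16 [(.s k48 k32 3 (.s k117 k186 10 (.s k101 k69 3 (.d k154 k223 k207 10
  14)))), (.s k64 k127 6 (.s k154 k223 10 (.s k192 k128 7 (.s k149 k63 14 (.s k144 k159 2 (.s k80
  k208 7 (.d k96 k112 k48 3 11))))))), (.s k48 k32 3 (.s k64 k127 6 (.s k192 k128 7 (.s k96 k144 11
  (.s k101 k111 2 (.d k117 k69 k186 3 10))))))] (.c k48 (.l (.s k127 k64 6 (.s k63 k191 7 (.s k223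
  k154 10 (.s k207 k239 3 (.s k111 k159 11 (.s k101 k96 2 (.d k69 k138 k117 10 3)))))))) .n)) (.c
  k63 (.q k1 [(.s k3 k2 0 (.s k87 k171 13 (.s k86 k84 0 (.d k169 k253 k252 13 14)))), (.s k64 k127 6
  (.s k192 k128 7 (.s k213 k234 6 (.s k253 k169 13 (.s k193 k233 5 (.s k65 k129 7 (.d k195 k130 k194
  8 0))))))), (.s k3 k2 0 (.s k64 k127 6 (.s k192 k128 7 (.s k66 k129 8 (.s k86 k126 5 (.d k87 k84
  k171 0 13))))))] (.c k171 (.l (.s k3 k2 0 (.s k64 k127 6 (.s k169 k253 13 (.s k86 k252 14 (.s k192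
  k128 7 (.d k66 k126 k129 5 8))))))) .n)) (.c k64 (.q k3 [(.s k1 k2 0 (.s k87 k171 13 (.s k169 k253
  13 (.d k86 k84 k252 0 14)))), (.s k1 k2 0 (.s k169 k253 13 (.s k43 k232 8 (.s k63 k23 5 (.s k21
  k42 6 (.d k149 k213 k192 7 14)))))), (.s k87 k171 13 (.s k86 k84 0 (.s k66 k126 5 (.s k192 k129 8
  (.s k149 k63 14 (.d k213 k234 k21 6 7))))))] (.c k86 (.f k87 k171 13 (.q k169 [(.d k1 k2 k253 0
  13), (.s k43 k232 8 (.s k63 k23 5 (.s k21 k42 6 (.d k149 k213 k192 7 14))))] (.c k2 (.q k254 [(.d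
  k253 k252 k1 0 13), (.s k43 k232 8 (.s k63 k23 5 (.s k21 k42 6 (.d k149 k213 k192 7 14))))] .n)
  (.c k254 (.l (.s k2 k1 0 (.s k43 k232 8 (.s k63 k23 5 (.s k21 k42 6 (.d k149 k213 k192 7 14))))))
  .n)))) (.c k169 (.q k66 [(.s k86 k126 5 (.d k87 k171 k84 13 0)), (.s k192 k129 8 (.s k149 k63 14
  (.d k213 k234 k21 6 7)))] (.c k168 (.l (.s k171 k87 13 (.s k192 k129 8 (.s k149 k63 14 (.d k213
  k234 k21 6 7))))) (.c k171 (.q k168 [(.s k84 k252 13 (.d k86 k87 k126 0 5)), (.s k192 k129 8 (.s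
  k149 k63 14 (.d k213 k234 k21 6 7)))] .n) .n))) .n))) (.c k127 (.q k204 [(.s k68 k136 9 (.s k221
  k238 4 (.s k153 k17 9 (.d k102 k119 k51 4 14)))), (.s k68 k136 9 (.s k102 k119 4 (.s k110 k98 1
  (.s k63 k157 12 (.s k21 k42 6 (.d k149 k213 k192 7 14)))))), (.s k221 k238 4 (.s k153 k17 9 (.s
  k200 k59 12 (.s k192 k196 1 (.s k149 k63 14 (.d k213 k234 k21 6 7))))))] (.c k102 (.q k200 [(.s
  k153 k59 12 (.d k221 k238 k17 4 9)), (.s k192 k196 1 (.s k149 k63 14 (.d k213 k234 k21 6 7)))] (.c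
  k34 (.l (.s k238 k221 4 (.s k192 k196 1 (.s k149 k63 14 (.d k213 k234 k21 6 7))))) (.c k238 (.q
  k34 [(.s k17 k51 4 (.d k153 k221 k59 9 12)), (.s k192 k196 1 (.s k149 k63 14 (.d k213 k234 k21 6
  7)))] .n) .n))) (.c k153 (.q k213 [(.s k149 k21 7 (.d k192 k234 k63 6 14)), (.s k221 k238 4 (.s
  k217 k209 1 (.s k243 k230 6 (.s k81 k162 12 (.s k89 k93 1 (.s k166 k12 14 (.d k247 k251 k4 1
  12)))))))] (.c k136 (.q k187 [(.s k149 k21 7 (.d k192 k234 k63 6 14)), (.s k192 k234 6 (.s k196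
  k200 1 (.s k221 k238 4 (.s k217 k209 1 (.d k230 k247 k243 4 6))))), (.s k21 k149 7 (.s k63 k42 6
  (.s k119 k51 9 (.s k102 k68 4 (.d k110 k157 k98 12 1)))))] .n) (.c k187 (.l (.s k136 k68 9 (.s
  k149 k21 7 (.d k192 k234 k63 6 14)))) (.c k234 (.l (.s k149 k21 7 (.s k63 k192 14 (.s k110 k157 12
  (.s k102 k98 1 (.d k68 k119 k136 4 9)))))) .n)))) .n))) (.c k128 (.l (.s k127 k64 6 (.s k63 k191 7
  (.s k149 k192 14 (.d k21 k42 k213 6 7))))) (.c k149 (.f k64 k127 6 (.q k68 [(.s k76 k72 1 (.s k102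
  k119 4 (.s k98 k110 1 (.d k115 k81 k89 4 6)))), (.s k204 k136 9 (.s k221 k238 4 (.s k153 k17 9 (.d
  k102 k119 k51 4 14)))), (.s k72 k76 1 (.s k136 k204 9 (.s k8 k200 7 (.s k12 k4 1 (.d k192 k128
  k132 7 9)))))] (.c k128 (.q k191 [(.s k76 k72 1 (.s k102 k119 4 (.s k98 k110 1 (.d k115 k81 k89 4
  6)))), (.s k204 k136 9 (.s k221 k238 4 (.s k153 k17 9 (.d k102 k119 k51 4 14)))), (.s k72 k76 1
  (.s k136 k204 9 (.s k8 k200 7 (.s k12 k4 1 (.s k93 k174 12 (.d k89 k81 k123 1 4))))))] .n) (.c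
  k191 (.l (.s k128 k192 7 (.s k76 k72 1 (.s k102 k119 4 (.s k98 k110 1 (.d k115 k81 k89 4 6))))))
  .n)))) (.c k191 (.l (.s k64 k127 6 (.s k192 k128 7 (.s k149 k63 14 (.d k213 k234 k21 6 7))))) (.c
  k192 (.q k207 [(.s k69 k138 10 (.s k101 k117 3 (.s k223 k239 3 (.d k154 k16 k48 10 14)))), (.s
  k127 k64 6 (.s k63 k191 7 (.s k111 k159 11 (.s k95 k79 3 (.s k175 k15 11 (.d k239 k223 k47 3
  7)))))), (.s k69 k138 10 (.s k101 k117 3 (.s k127 k64 6 (.s k63 k191 7 (.d k111 k96 k159 2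
  11))))), (.s k127 k64 6 (.s k63 k191 7 (.s k111 k159 11 (.s k101 k96 2 (.s k223 k239 3 (.d k154
  k48 k16 14 10))))))] .n) (.c k213 (.q k1 [(.s k3 k2 0 (.s k87 k171 13 (.s k86 k84 0 (.d k169 k253
  k252 13 14)))), (.s k64 k127 6 (.s k169 k253 13 (.s k192 k128 7 (.s k149 k63 14 (.s k129 k189 5
  (.s k66 k3 8 (.d k65 k193 k67 7 0))))))), (.s k3 k2 0 (.s k64 k127 6 (.s k192 k128 7 (.s k66 k129
  8 (.s k86 k126 5 (.d k87 k84 k171 0 13))))))] (.c k3 (.l (.s k127 k64 6 (.s k63 k191 7 (.s k21 k42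
  6 (.s k61 k41 5 (.s k60 k62 0 (.s k125 k190 8 (.d k253 k189 k169 7 13)))))))) .n)) (.c k234 (.l
  (.s k127 k64 6 (.s k63 k191 7 (.s k21 k42 6 (.d k149 k213 k192 7 14))))) .n))))))))))))

def t26_203 : T TT 256 :=
  (.f k255 k170 14 (.q k165 [(.s k245 k5 11 (.s k240 k250 2 (.s k80 k160 11 (.d k90 k95 k15 2
  14))))] (.c k5 (.q k1 [(.s k169 k253 13 (.s k3 k2 0 (.s k86 k252 14 (.d k87 k84 k171 0 13)))), (.s
  k169 k253 13 (.s k161 k173 1 (.s k81 k241 11 (.s k243 k162 12 (.s k247 k251 1 (.s k166 k4 12 (.d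
  k89 k93 k12 1 14)))))))] (.c k169 (.f k3 k2 0 (.q k86 [(.d k87 k171 k84 13 0), (.s k7 k244 12 (.s
  k15 k11 1 (.s k90 k240 14 (.d k95 k80 k175 2 11))))] (.c k168 (.l (.s k171 k87 13 (.s k7 k244 12
  (.s k15 k11 1 (.s k90 k240 14 (.d k95 k80 k175 2 11)))))) (.c k171 (.q k168 [(.d k84 k87 k252 0
  13), (.s k7 k244 12 (.s k15 k11 1 (.s k95 k175 11 (.d k90 k80 k240 2 14))))] .n) .n)))) (.c k253
  (.l (.s k3 k2 0 (.s k87 k171 13 (.s k86 k84 0 (.s k7 k244 12 (.s k15 k11 1 (.s k90 k240 14 (.d k95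
  k80 k175 2 11)))))))) .n))) (.c k10 (.l (.s k245 k5 11 (.s k240 k250 2 (.s k90 k15 14 (.d k80 k95
  k160 2 11))))) (.c k15 (.q k37 [(.s k5 k245 11 (.s k53 k21 3 (.s k101 k229 7 (.s k69 k117 3 (.d
  k197 k133 k149 7 11))))), (.s k101 k229 7 (.s k69 k117 3 (.s k207 k138 10 (.s k154 k48 14 (.d k223
  k239 k16 3 10))))), (.s k5 k245 11 (.s k21 k53 3 (.s k63 k42 6 (.s k127 k191 7 (.s k106 k64 6 (.d
  k149 k213 k192 7 14))))))] (.c k117 (.l (.s k229 k101 7 (.s k245 k5 11 (.s k213 k197 3 (.s k149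
  k21 7 (.s k192 k234 6 (.s k64 k128 7 (.d k106 k127 k63 6 14)))))))) .n)) (.c k80 (.q k1 [(.s k169
  k253 13 (.s k3 k2 0 (.s k86 k252 14 (.d k87 k84 k171 0 13)))), (.s k5 k245 11 (.s k13 k9 1 (.s k89
  k241 13 (.s k93 k81 1 (.d k253 k173 k169 11 13))))), (.s k3 k2 0 (.s k5 k245 11 (.s k9 k13 1 (.s
  k6 k12 2 (.s k7 k4 0 (.d k15 k11 k10 1 2))))))] .n) (.c k90 (.f k245 k5 11 (.f k250 k240 2 (.q
  k154 [(.s k16 k223 10 (.s k48 k32 3 (.s k117 k186 10 (.d k101 k69 k207 3 14))))] (.c k16 (.q k21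
  [(.s k149 k213 7 (.s k181 k133 3 (.s k117 k53 7 (.s k48 k186 10 (.d k101 k69 k207 3 14))))), (.s
  k63 k42 6 (.s k127 k191 7 (.s k106 k64 6 (.d k149 k213 k192 7 14)))), (.s k63 k42 6 (.s k176 k143
  6 (.s k191 k127 7 (.s k186 k181 2 (.s k48 k117 10 (.d k58 k122 k53 7 2))))))] .n) (.c k32 (.l (.s
  k223 k16 10 (.s k207 k239 3 (.s k101 k48 14 (.d k69 k117 k138 3 10))))) (.c k48 (.q k21 [(.s k63
  k42 6 (.s k127 k191 7 (.s k106 k64 6 (.d k149 k213 k192 7 14)))), (.s k149 k213 7 (.s k159 k144 2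
  (.s k223 k16 10 (.s k207 k239 3 (.d k63 k42 k111 6 11))))), (.s k63 k42 6 (.s k191 k127 7 (.s k223
  k16 10 (.s k207 k239 3 (.s k159 k111 11 (.d k143 k175 k176 3 6))))))] (.c k15 (.q k37 [(.s k229
  k101 7 (.d k213 k197 k149 3 7)), (.s k63 k42 6 (.s k127 k191 7 (.s k106 k64 6 (.d k149 k213 k192 7
  14)))), (.s k101 k229 7 (.s k69 k117 3 (.s k207 k138 10 (.d k223 k239 k16 3 10))))] (.c k112 (.l
  (.s k176 k143 6 (.s k213 k149 7 (.d k229 k197 k101 3 7)))) (.c k176 (.q k112 [(.s k229 k101 7 (.d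
  k213 k197 k149 3 7)), (.s k63 k42 6 (.s k127 k191 7 (.s k106 k64 6 (.d k149 k213 k192 7 14)))),
  (.s k63 k42 6 (.s k101 k229 7 (.s k117 k69 3 (.d k127 k122 k191 2 7))))] .n) .n))) (.c k37 (.q k15
  [(.s k223 k16 10 (.s k207 k239 3 (.d k143 k176 k79 6 7))), (.s k63 k42 6 (.s k47 k31 3 (.s k106
  k224 10 (.d k127 k64 k191 6 7))))] (.c k32 (.l (.s k63 k42 6 (.s k47 k31 3 (.s k106 k224 10 (.d
  k127 k64 k191 6 7))))) (.c k112 (.l (.s k176 k143 6 (.s k63 k42 6 (.s k47 k31 3 (.s k106 k224 10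
  (.d k127 k64 k191 6 7)))))) (.c k176 (.q k112 [(.s k95 k175 11 (.s k149 k213 7 (.s k159 k144 2 (.d
  k223 k31 k16 7 10)))), (.s k63 k42 6 (.s k47 k31 3 (.s k106 k224 10 (.d k127 k64 k191 6 7)))), (.s
  k63 k42 6 (.s k95 k175 11 (.s k223 k16 10 (.d k31 k47 k159 3 7))))] (.c k31 (.l (.s k63 k42 6 (.s
  k127 k191 7 (.s k106 k64 6 (.d k149 k213 k192 7 14))))) .n)) .n)))) (.c k42 (.l (.s k213 k149 7
  (.s k223 k16 10 (.s k234 k192 6 (.d k218 k208 k202 2 3))))) (.c k63 (.l (.s k213 k149 7 (.s k192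
  k234 6 (.s k197 k229 3 (.s k207 k202 2 (.d k223 k239 k16 3 10)))))) (.c k112 (.l (.s k176 k143 6
  (.s k63 k42 6 (.s k127 k191 7 (.s k106 k64 6 (.d k149 k213 k192 7 14)))))) (.c k176 (.q k112 [(.s
  k63 k42 6 (.s k127 k191 7 (.s k106 k64 6 (.d k149 k213 k192 7 14)))), (.s k149 k213 7 (.s k159
  k144 2 (.s k223 k16 10 (.s k207 k239 3 (.d k63 k42 k111 6 11))))), (.s k63 k42 6 (.s k191 k127 7
  (.s k223 k16 10 (.s k207 k239 3 (.s k159 k111 11 (.s k175 k143 3 (.d k95 k15 k31 11 7)))))))] (.c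
  k15 (.q k37 [(.s k229 k101 7 (.d k213 k197 k149 3 7)), (.s k63 k42 6 (.s k127 k191 7 (.s k106 k64
  6 (.d k149 k213 k192 7 14)))), (.s k63 k42 6 (.s k101 k229 7 (.s k117 k69 3 (.d k127 k122 k191 2
  7))))] .n) (.c k37 (.q k15 [(.s k95 k175 11 (.s k149 k213 7 (.s k159 k144 2 (.d k223 k31 k16 7
  10)))), (.s k63 k42 6 (.s k47 k31 3 (.s k106 k224 10 (.d k127 k64 k191 6 7)))), (.s k63 k42 6 (.s
  k95 k175 11 (.s k223 k16 10 (.d k31 k47 k159 3 7))))] (.c k31 (.l (.s k63 k42 6 (.s k127 k191 7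
  (.s k106 k64 6 (.d k149 k213 k192 7 14))))) .n)) (.c k42 (.l (.s k213 k149 7 (.s k223 k16 10 (.s
  k234 k192 6 (.d k218 k208 k202 2 3))))) (.c k63 (.l (.s k213 k149 7 (.s k192 k234 6 (.s k197 k229
  3 (.s k207 k202 2 (.d k223 k239 k16 3 10)))))) .n))))) .n))))))) (.c k69 (.l (.s k16 k223 10 (.s
  k48 k32 3 (.s k101 k207 14 (.s k117 k186 10 (.s k53 k181 7 (.s k197 k149 11 (.d k229 k213 k37 3
  7)))))))) (.c k101 (.q k48 [(.d k16 k32 k223 3 10), (.s k176 k143 6 (.s k186 k117 10 (.s k58 k122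
  7 (.s k63 k53 2 (.d k191 k181 k127 2 7)))))] (.c k32 (.q k239 [(.d k223 k207 k16 3 10), (.s k176
  k143 6 (.s k186 k117 10 (.s k58 k122 7 (.s k63 k53 2 (.d k191 k181 k127 2 7)))))] (.c k79 (.q k112
  [(.d k223 k207 k16 3 10), (.s k117 k186 10 (.s k53 k181 7 (.s k63 k58 2 (.d k127 k122 k191 2
  7))))] .n) (.c k112 (.q k79 [(.d k223 k207 k16 3 10), (.s k117 k186 10 (.s k181 k53 7 (.s k149
  k133 3 (.s k144 k159 2 (.s k192 k96 11 (.d k213 k21 k234 7 6))))))] .n) .n))) (.c k79 (.q k112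
  [(.d k16 k32 k223 3 10), (.s k117 k186 10 (.s k53 k181 7 (.s k63 k58 2 (.d k127 k122 k191 2 7))))]
  (.c k32 (.q k239 [(.d k223 k207 k16 3 10), (.s k117 k186 10 (.s k53 k181 7 (.s k63 k58 2 (.d k127
  k122 k191 2 7))))] .n) (.c k239 (.l (.s k32 k16 3 (.s k117 k186 10 (.s k53 k181 7 (.s k63 k58 2
  (.d k127 k122 k191 2 7)))))) .n))) (.c k112 (.q k79 [(.d k16 k32 k223 3 10), (.s k117 k186 10 (.s
  k143 k176 6 (.s k181 k53 7 (.s k207 k15 7 (.s k138 k69 10 (.d k133 k149 k128 3 2))))))] (.c k32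
  (.q k239 [(.d k223 k207 k16 3 10), (.s k117 k186 10 (.s k181 k53 7 (.s k149 k133 3 (.s k144 k159 2
  (.s k192 k96 11 (.d k213 k21 k234 7 6))))))] .n) (.c k239 (.l (.s k32 k16 3 (.s k117 k186 10 (.s
  k143 k176 6 (.s k181 k53 7 (.s k207 k15 7 (.s k138 k69 10 (.d k133 k149 k128 3 2)))))))) .n))) (.c
  k239 (.l (.s k32 k16 3 (.s k176 k143 6 (.s k186 k117 10 (.s k58 k122 7 (.s k63 k53 2 (.d k191 k181
  k127 2 7))))))) .n))))) (.c k117 (.q k1 [(.s k3 k2 0 (.s k87 k171 13 (.s k86 k84 0 (.d k169 k253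
  k252 13 14)))), (.s k253 k169 13 (.s k241 k249 1 (.s k89 k13 13 (.d k81 k93 k161 1 11)))), (.s k3
  k2 0 (.s k16 k223 10 (.s k48 k32 3 (.s k18 k33 4 (.s k86 k222 9 (.d k87 k84 k171 0 13))))))] (.c
  k171 (.l (.s k3 k2 0 (.s k169 k253 13 (.s k139 k184 4 (.s k207 k71 9 (.d k223 k239 k16 3 10))))))
  .n)) (.c k186 (.l (.s k223 k16 10 (.s k207 k239 3 (.s k69 k138 10 (.d k101 k117 k48 3 14))))) (.c
  k207 (.l (.s k16 k223 10 (.s k48 k32 3 (.s k117 k186 10 (.s k53 k181 7 (.s k101 k69 3 (.s k197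
  k149 11 (.d k229 k213 k37 3 7)))))))) (.c k223 (.q k21 [(.s k63 k42 6 (.s k127 k191 7 (.s k106 k64
  6 (.d k149 k213 k192 7 14)))), (.s k149 k213 7 (.s k181 k133 3 (.s k117 k53 7 (.s k48 k186 10 (.d
  k101 k69 k207 3 14))))), (.s k63 k42 6 (.s k176 k143 6 (.s k191 k127 7 (.s k186 k181 2 (.s k48
  k117 10 (.d k58 k122 k53 7 2))))))] .n) (.c k239 (.l (.s k16 k223 10 (.s k48 k32 3 (.s k101 k207
  14 (.d k117 k69 k186 3 10))))) .n))))))))))))) (.c k95 (.q k1 [(.s k169 k253 13 (.s k3 k2 0 (.s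
  k86 k252 14 (.d k87 k84 k171 0 13)))), (.s k5 k245 11 (.s k13 k9 1 (.s k89 k241 13 (.s k93 k81 1
  (.d k253 k173 k169 11 13))))), (.s k3 k2 0 (.s k5 k245 11 (.s k9 k13 1 (.s k6 k12 2 (.s k7 k4 0
  (.d k15 k11 k10 1 2))))))] .n) (.c k160 (.l (.s k5 k245 11 (.s k15 k10 2 (.s k90 k240 14 (.d k95
  k80 k175 2 11))))) (.c k240 (.q k1 [(.s k3 k2 0 (.s k87 k171 13 (.s k86 k84 0 (.d k169 k253 k252
  13 14)))), (.s k5 k245 11 (.s k13 k9 1 (.s k89 k241 13 (.s k93 k81 1 (.d k253 k173 k169 11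
  13))))), (.s k3 k2 0 (.s k5 k245 11 (.s k9 k13 1 (.s k6 k12 2 (.s k7 k4 0 (.d k15 k11 k10 1
  2))))))] .n) (.c k245 (.q k253 [(.s k169 k1 13 (.s k252 k254 0 (.s k84 k168 13 (.d k86 k87 k3 0
  14)))), (.s k169 k1 13 (.s k173 k161 1 (.s k93 k13 11 (.s k12 k174 12 (.s k4 k8 1 (.s k166 k247 12
  (.d k89 k81 k243 1 14)))))))] (.c k1 (.l (.s k252 k254 0 (.s k84 k168 13 (.s k86 k87 0 (.s k244 k7
  12 (.s k240 k248 1 (.s k80 k160 11 (.d k90 k95 k15 2 14)))))))) (.c k169 (.f k252 k254 0 (.q k86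
  [(.d k84 k168 k87 13 0), (.s k244 k7 12 (.s k240 k248 1 (.s k80 k160 11 (.d k90 k95 k15 2 14))))]
  (.c k168 (.q k171 [(.d k87 k84 k3 0 13), (.s k244 k7 12 (.s k240 k248 1 (.s k80 k160 11 (.d k90
  k95 k15 2 14))))] .n) (.c k171 (.l (.s k168 k84 13 (.s k244 k7 12 (.s k240 k248 1 (.s k80 k160 11
  (.d k90 k95 k15 2 14)))))) .n)))) .n))) (.c k250 (.l (.s k5 k245 11 (.s k15 k10 2 (.s k90 k240 14
  (.d k95 k80 k175 2 11))))) .n))))))))))))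

def t26_207 : T TT 256 :=
  (.f k255 k170 14 (.q k105 [(.s k65 k125 5 (.s k195 k130 8 (.s k215 k235 5 (.d k150 k20 k60 8
  14))))] (.c k20 (.q k1 [(.s k3 k2 0 (.s k87 k171 13 (.s k169 k253 13 (.d k86 k84 k252 0 14)))),
  (.s k65 k125 5 (.s k169 k253 13 (.s k41 k233 7 (.s k61 k21 5 (.d k193 k129 k149 7 13))))), (.s k3
  k2 0 (.s k65 k125 5 (.s k129 k193 7 (.s k66 k192 8 (.s k67 k64 0 (.d k195 k131 k130 7 8))))))] .n)
  (.c k60 (.f k65 k125 5 (.q k81 [(.s k243 k162 12 (.s k247 k251 1 (.s k166 k4 12 (.d k89 k93 k12 1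
  14)))), (.s k97 k113 3 (.s k162 k243 12 (.s k32 k227 8 (.s k48 k16 3 (.d k195 k130 k146 8 12))))),
  (.s k89 k93 1 (.s k113 k97 3 (.s k77 k101 5 (.d k73 k69 k121 1 3))))] (.c k109 (.q k158 [(.s k243
  k162 12 (.s k247 k251 1 (.s k166 k4 12 (.d k89 k93 k12 1 14)))), (.s k113 k97 3 (.s k89 k93 1 (.s
  k77 k101 5 (.d k73 k69 k121 1 3))))] (.c k77 (.l (.s k93 k89 1 (.s k113 k97 3 (.s k223 k28 8 (.s
  k16 k154 10 (.s k48 k32 3 (.d k243 k162 k178 12 8))))))) (.c k89 (.l (.s k97 k113 3 (.s k162 k243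
  12 (.s k32 k227 8 (.s k48 k16 3 (.d k195 k130 k146 8 12)))))) (.c k93 (.q k77 [(.s k69 k73 1 (.s
  k101 k117 3 (.d k113 k97 k89 3 5))), (.s k97 k113 3 (.s k162 k243 12 (.s k32 k227 8 (.s k48 k16 3
  (.d k195 k130 k146 8 12))))), (.s k73 k69 1 (.s k195 k130 8 (.s k12 k134 10 (.s k243 k162 12 (.d
  k89 k166 k121 14 3)))))] (.c k121 (.l (.s k69 k73 1 (.s k101 k117 3 (.d k113 k97 k89 3 5)))) .n))
  .n)))) (.c k158 (.q k109 [(.d k97 k101 k113 1 3), (.s k89 k93 1 (.s k243 k162 12 (.s k166 k12 14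
  (.d k247 k251 k4 1 12))))] .n) .n)))) (.c k65 (.q k1 [(.s k3 k2 0 (.s k87 k171 13 (.s k86 k84 0
  (.d k169 k253 k252 13 14)))), (.s k169 k253 13 (.s k41 k233 7 (.s k21 k61 5 (.s k63 k42 6 (.s k127
  k191 7 (.s k106 k64 6 (.d k149 k213 k192 7 14)))))))] (.c k169 (.f k3 k2 0 (.q k86 [(.d k87 k171
  k84 13 0), (.s k67 k124 6 (.s k195 k131 7 (.s k150 k60 14 (.d k215 k235 k20 5 8))))] (.c k168 (.l
  (.s k171 k87 13 (.s k67 k124 6 (.s k195 k131 7 (.s k150 k60 14 (.d k215 k235 k20 5 8)))))) (.c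
  k171 (.q k168 [(.d k84 k87 k252 0 13), (.s k67 k124 6 (.s k195 k131 7 (.s k215 k235 5 (.d k150 k20
  k60 8 14))))] .n) .n)))) (.c k253 (.l (.s k3 k2 0 (.s k87 k171 13 (.s k86 k84 0 (.s k67 k124 6 (.s
  k195 k131 7 (.s k150 k60 14 (.d k215 k235 k20 5 8)))))))) .n))) (.c k125 (.q k253 [(.s k169 k1 13
  (.s k252 k254 0 (.s k84 k168 13 (.d k86 k87 k3 0 14)))), (.s k169 k1 13 (.s k233 k41 7 (.s k213
  k193 5 (.s k192 k234 6 (.s k64 k128 7 (.s k106 k127 6 (.d k149 k21 k63 7 14)))))))] (.c k1 (.l (.s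
  k252 k254 0 (.s k84 k168 13 (.s k86 k87 0 (.s k124 k67 6 (.s k60 k188 7 (.s k20 k40 5 (.d k150
  k215 k195 8 14)))))))) (.c k169 (.f k252 k254 0 (.q k86 [(.d k84 k168 k87 13 0), (.s k124 k67 6
  (.s k60 k188 7 (.s k20 k40 5 (.d k150 k215 k195 8 14))))] (.c k168 (.q k171 [(.d k87 k84 k3 0 13),
  (.s k124 k67 6 (.s k60 k188 7 (.s k20 k40 5 (.d k150 k215 k195 8 14))))] .n) (.c k171 (.l (.s k168
  k84 13 (.s k124 k67 6 (.s k60 k188 7 (.s k20 k40 5 (.d k150 k215 k195 8 14)))))) .n)))) .n))) (.c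
  k130 (.l (.s k125 k65 5 (.s k60 k190 8 (.s k150 k195 14 (.d k20 k40 k215 5 8))))) (.c k150 (.f k65
  k125 5 (.q k64 [(.s k67 k66 0 (.s k86 k124 6 (.s k87 k84 0 (.d k127 k107 k106 5 6)))), (.s k66 k67
  0 (.s k130 k195 8 (.s k192 k128 7 (.s k3 k129 8 (.d k2 k1 k194 0 7))))), (.s k106 k127 6 (.s k192
  k128 7 (.s k149 k63 14 (.d k213 k234 k21 6 7))))] (.c k130 (.q k190 [(.s k106 k127 6 (.s k104 k107
  0 (.s k124 k84 5 (.d k67 k66 k86 0 6)))), (.s k66 k67 0 (.s k192 k128 7 (.s k129 k3 8 (.s k193 k1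
  7 (.s k149 k61 13 (.d k213 k21 k234 7 6)))))), (.s k106 k127 6 (.s k192 k128 7 (.s k149 k63 14 (.d
  k213 k234 k21 6 7))))] .n) (.c k190 (.l (.s k130 k195 8 (.s k66 k67 0 (.s k2 k194 7 (.s k3 k1 0
  (.d k192 k128 k129 7 8)))))) .n)))) (.c k190 (.l (.s k65 k125 5 (.s k195 k130 8 (.s k150 k60 14
  (.d k215 k235 k20 5 8))))) (.c k195 (.f k125 k65 5 (.q k121 [(.s k89 k73 3 (.s k93 k81 1 (.s k113
  k117 1 (.d k77 k109 k101 3 5)))), (.s k60 k190 8 (.s k243 k182 10 (.s k81 k162 12 (.d k89 k93 k73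
  1 3)))), (.s k60 k190 8 (.s k117 k113 1 (.s k48 k186 10 (.s k52 k56 1 (.d k182 k247 k243 8
  10)))))] (.c k81 (.l (.s k60 k190 8 (.s k89 k73 3 (.s k243 k182 10 (.s k247 k251 1 (.d k166 k12 k4
  14 12)))))) (.c k199 (.q k203 [(.s k56 k154 12 (.s k117 k113 1 (.d k186 k48 k251 10 8))), (.s k60
  k190 8 (.s k89 k73 3 (.s k81 k93 1 (.d k243 k182 k162 10 12))))] (.c k81 (.l (.s k56 k154 12 (.s
  k186 k251 8 (.d k117 k48 k113 10 1)))) .n)) (.c k203 (.q k199 [(.s k60 k190 8 (.s k20 k40 5 (.s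
  k150 k215 8 (.s k101 k52 12 (.d k117 k113 k69 1 3))))), (.s k89 k73 3 (.s k81 k93 1 (.s k243 k162
  12 (.d k60 k190 k182 8 10)))), (.s k89 k73 3 (.s k93 k81 1 (.s k113 k117 1 (.d k77 k109 k101 3
  5))))] (.c k69 (.l (.s k60 k190 8 (.s k243 k182 10 (.s k81 k162 12 (.d k89 k93 k73 1 3))))) .n))
  .n))))) (.c k215 (.q k1 [(.s k3 k2 0 (.s k87 k171 13 (.s k86 k84 0 (.d k169 k253 k252 13 14)))),
  (.s k65 k125 5 (.s k169 k253 13 (.s k41 k233 7 (.s k61 k21 5 (.d k193 k129 k149 7 13))))), (.s k3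
  k2 0 (.s k65 k125 5 (.s k129 k193 7 (.s k66 k192 8 (.s k67 k64 0 (.d k195 k131 k130 7 8))))))] .n)
  (.c k235 (.l (.s k125 k65 5 (.s k60 k190 8 (.s k20 k40 5 (.d k150 k215 k195 8 14)))))
  .n))))))))))))

def t26_210 : T TT 256 :=
  (.f k255 k170 14 (.q k89 [(.s k81 k93 1 (.s k243 k162 12 (.s k166 k12 14 (.d k247 k251 k4 1
  12))))] (.c k4 (.q k1 [(.s k169 k253 13 (.s k3 k2 0 (.s k86 k252 14 (.d k87 k84 k171 0 13)))), (.s
  k81 k93 1 (.s k169 k253 13 (.s k9 k249 11 (.s k13 k5 1 (.d k241 k161 k165 11 13))))), (.s k3 k2 0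
  (.s k81 k93 1 (.s k161 k241 11 (.s k82 k240 12 (.s k83 k80 0 (.d k243 k163 k162 11 12))))))] .n)
  (.c k12 (.q k1 [(.s k3 k2 0 (.s k87 k171 13 (.s k86 k84 0 (.d k169 k253 k252 13 14)))), (.s k81
  k93 1 (.s k169 k253 13 (.s k9 k249 11 (.s k13 k5 1 (.d k241 k161 k165 11 13))))), (.s k3 k2 0 (.s
  k81 k93 1 (.s k161 k241 11 (.s k82 k240 12 (.s k83 k80 0 (.d k243 k163 k162 11 12))))))] .n) (.c
  k81 (.q k87 [(.s k86 k84 0 (.s k3 k171 13 (.s k169 k252 14 (.d k1 k2 k253 0 13)))), (.s k86 k84 0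
  (.s k83 k92 2 (.s k95 k91 1 (.s k15 k175 11 (.s k5 k10 2 (.s k165 k245 11 (.d k90 k80 k240 2
  14)))))))] (.c k84 (.l (.s k3 k171 13 (.s k1 k2 0 (.s k169 k253 13 (.s k9 k249 11 (.s k12 k6 2 (.s
  k4 k8 1 (.d k166 k247 k243 12 14)))))))) (.c k86 (.f k3 k171 13 (.q k169 [(.d k1 k2 k253 0 13),
  (.s k9 k249 11 (.s k12 k6 2 (.s k4 k8 1 (.d k166 k247 k243 12 14))))] (.c k2 (.q k254 [(.d k253
  k252 k1 0 13), (.s k9 k249 11 (.s k12 k6 2 (.s k4 k8 1 (.d k166 k247 k243 12 14))))] .n) (.c k254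
  (.l (.s k2 k1 0 (.s k9 k249 11 (.s k12 k6 2 (.s k4 k8 1 (.d k166 k247 k243 12 14)))))) .n))))
  .n))) (.c k93 (.q k68 [(.s k102 k119 4 (.s k204 k136 9 (.s k153 k51 14 (.d k221 k238 k17 4 9)))),
  (.s k102 k119 4 (.s k76 k115 6 (.s k64 k72 1 (.s k192 k128 7 (.s k213 k234 6 (.s k149 k21 7 (.d
  k106 k127 k63 6 14)))))))] (.c k102 (.f k204 k136 9 (.q k153 [(.d k221 k238 k17 4 9), (.s k217 k25
  7 (.s k243 k230 6 (.s k166 k12 14 (.d k247 k251 k4 1 12))))] (.c k34 (.l (.s k238 k221 4 (.s k217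
  k25 7 (.s k243 k230 6 (.s k166 k12 14 (.d k247 k251 k4 1 12)))))) (.c k238 (.q k34 [(.d k17 k51
  k221 4 9), (.s k217 k25 7 (.s k243 k230 6 (.s k247 k251 1 (.d k166 k4 k12 12 14))))] .n) .n))))
  (.c k119 (.l (.s k204 k136 9 (.s k221 k238 4 (.s k153 k17 9 (.s k217 k25 7 (.s k243 k230 6 (.s
  k166 k12 14 (.d k247 k251 k4 1 12)))))))) .n))) (.c k162 (.l (.s k93 k81 1 (.s k12 k174 12 (.s
  k166 k243 14 (.d k4 k8 k247 1 12))))) (.c k166 (.f k81 k93 1 (.q k83 [(.s k80 k82 0 (.s k86 k92 2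
  (.s k87 k84 0 (.d k95 k91 k90 1 2)))), (.s k80 k82 0 (.s k240 k160 11 (.s k245 k250 2 (.s k165 k5
  11 (.s k241 k13 13 (.d k243 k162 k242 12 0)))))), (.s k86 k92 2 (.s k84 k87 0 (.s k252 k168 13 (.s
  k169 k3 14 (.d k253 k254 k1 0 13)))))] (.c k162 (.q k174 [(.s k86 k92 2 (.s k87 k84 0 (.s k95 k91
  1 (.d k80 k82 k90 0 2)))), (.s k80 k82 0 (.s k240 k160 11 (.s k245 k250 2 (.s k165 k5 11 (.d k90
  k95 k15 2 14))))), (.s k86 k92 2 (.s k84 k87 0 (.s k252 k168 13 (.s k169 k3 14 (.d k253 k254 k1 0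
  13)))))] (.c k95 (.l (.s k82 k80 0 (.s k86 k92 2 (.s k94 k90 1 (.s k84 k87 0 (.s k252 k168 13 (.d
  k254 k14 k253 11 0))))))) .n)) (.c k174 (.l (.s k162 k243 12 (.s k80 k82 0 (.s k86 k92 2 (.s k87
  k84 0 (.d k95 k91 k90 1 2)))))) .n)))) (.c k174 (.l (.s k81 k93 1 (.s k243 k162 12 (.s k166 k12 14
  (.d k247 k251 k4 1 12))))) (.c k243 (.q k1 [(.s k3 k2 0 (.s k87 k171 13 (.s k86 k84 0 (.d k169
  k253 k252 13 14)))), (.s k81 k93 1 (.s k169 k253 13 (.s k9 k249 11 (.s k13 k5 1 (.d k241 k161 k165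
  11 13))))), (.s k3 k2 0 (.s k93 k81 1 (.s k12 k174 12 (.s k8 k4 1 (.s k9 k6 2 (.s k5 k13 1 (.d k10
  k11 k15 0 2)))))))] .n) (.c k247 (.q k1 [(.s k169 k253 13 (.s k3 k2 0 (.s k86 k252 14 (.d k87 k84
  k171 0 13)))), (.s k81 k93 1 (.s k169 k253 13 (.s k9 k249 11 (.s k13 k5 1 (.d k241 k161 k165 11
  13))))), (.s k3 k2 0 (.s k81 k93 1 (.s k161 k241 11 (.s k82 k240 12 (.s k83 k80 0 (.d k243 k163
  k162 11 12))))))] .n) (.c k251 (.l (.s k93 k81 1 (.s k12 k174 12 (.s k4 k8 1 (.d k166 k247 k243 12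
  14))))) .n))))))))))))

def t26_218 : T TT 256 :=
  (.f k255 k170 14 (.q k90 [(.s k80 k95 2 (.s k240 k160 11 (.s k165 k15 14 (.d k245 k250 k5 2
  11)))), (.s k95 k80 2 (.s k15 k175 11 (.s k165 k240 14 (.d k5 k10 k245 2 11))))] (.c k5 (.q k1
  [(.s k169 k253 13 (.s k3 k2 0 (.s k86 k252 14 (.d k87 k84 k171 0 13)))), (.s k80 k95 2 (.s k240
  k160 11 (.s k245 k250 2 (.s k253 k169 13 (.s k241 k249 1 (.s k81 k161 11 (.d k243 k162 k242 12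
  0))))))), (.s k3 k2 0 (.s k80 k95 2 (.s k240 k160 11 (.s k82 k161 12 (.s k86 k94 1 (.d k87 k84
  k171 0 13))))))] (.c k171 (.l (.s k3 k2 0 (.s k95 k80 2 (.s k15 k175 11 (.s k11 k7 1 (.d k169 k248
  k253 12 13)))))) .n)) (.c k15 (.q k48 [(.s k16 k32 3 (.s k117 k186 10 (.s k101 k69 3 (.d k154 k223
  k207 10 14)))), (.s k32 k16 3 (.s k80 k95 2 (.s k160 k240 11 (.s k96 k224 7 (.s k64 k112 3 (.d
  k192 k128 k144 7 11)))))), (.s k80 k95 2 (.s k117 k186 10 (.s k101 k69 3 (.s k240 k160 11 (.d k112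
  k79 k176 6 7)))))] .n) (.c k80 (.q k3 [(.s k1 k2 0 (.s k87 k171 13 (.s k169 k253 13 (.d k86 k84
  k252 0 14)))), (.s k1 k2 0 (.s k169 k253 13 (.s k11 k248 12 (.s k15 k7 1 (.s k5 k10 2 (.d k165
  k245 k240 11 14)))))), (.s k87 k171 13 (.s k86 k84 0 (.s k82 k94 1 (.s k240 k161 12 (.s k165 k15
  14 (.d k245 k250 k5 2 11))))))] (.c k86 (.q k82 [(.s k240 k161 12 (.s k165 k15 14 (.d k245 k250 k5
  2 11))), (.s k2 k1 0 (.s k242 k162 11 (.s k166 k14 13 (.s k4 k247 12 (.s k12 k8 1 (.s k89 k243 14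
  (.d k93 k174 k81 12 1)))))))] (.c k2 (.q k254 [(.s k240 k161 12 (.s k165 k15 14 (.d k245 k250 k5 2
  11))), (.s k240 k161 12 (.s k15 k165 14 (.s k253 k252 0 (.s k169 k1 13 (.d k11 k7 k248 1 12))))),
  (.s k240 k161 12 (.s k250 k245 2 (.s k242 k246 1 (.s k166 k14 13 (.s k243 k241 0 (.d k247 k251 k4
  1 12))))))] (.c k161 (.l (.s k253 k252 0 (.s k169 k1 13 (.s k11 k248 12 (.s k15 k7 1 (.s k5 k10 2
  (.d k165 k240 k245 14 11))))))) (.c k240 (.q k207 [(.s k69 k138 10 (.s k101 k117 3 (.s k223 k239 3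
  (.d k154 k16 k48 10 14)))), (.s k71 k139 9 (.s k87 k171 13 (.s k103 k119 3 (.s k155 k51 13 (.d
  k223 k239 k19 3 9))))), (.s k69 k138 10 (.s k71 k139 9 (.s k70 k68 0 (.s k137 k204 10 (.s k1 k205
  9 (.d k253 k252 k169 0 13))))))] .n) .n))) (.c k254 (.l (.s k2 k1 0 (.s k240 k161 12 (.s k165 k15
  14 (.d k245 k250 k5 2 11))))) .n))) (.c k169 (.q k125 [(.s k105 k65 5 (.s k60 k190 8 (.s k150 k195
  14 (.d k20 k40 k215 5 8)))), (.s k1 k2 0 (.s k65 k105 5 (.s k129 k193 7 (.s k66 k192 8 (.s k67 k64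
  0 (.d k195 k131 k130 7 8)))))), (.s k1 k2 0 (.s k60 k190 8 (.s k40 k20 5 (.s k41 k22 6 (.s k21 k61
  5 (.d k42 k43 k63 0 6))))))] (.c k40 (.l (.s k60 k190 8 (.s k22 k41 6 (.s k105 k65 5 (.s k150 k195
  14 (.s k86 k214 7 (.d k87 k84 k171 0 13))))))) (.c k130 (.l (.s k105 k65 5 (.s k60 k190 8 (.s k150
  k195 14 (.d k20 k40 k215 5 8))))) (.c k168 (.l (.s k171 k87 13 (.s k60 k190 8 (.s k20 k40 5 (.s
  k105 k65 5 (.d k150 k215 k195 8 14)))))) (.c k171 (.q k168 [(.s k105 k65 5 (.s k60 k190 8 (.s k150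
  k195 14 (.d k20 k40 k215 5 8)))), (.s k1 k2 0 (.s k65 k105 5 (.s k129 k193 7 (.s k66 k192 8 (.s
  k67 k64 0 (.d k195 k131 k130 7 8)))))), (.s k1 k2 0 (.s k60 k190 8 (.s k41 k22 6 (.s k61 k21 5 (.s
  k252 k84 13 (.d k253 k254 k189 0 7))))))] (.c k130 (.l (.s k105 k65 5 (.s k60 k190 8 (.s k150 k195
  14 (.d k20 k40 k215 5 8))))) .n)) .n))))) .n))) (.c k95 (.q k3 [(.s k1 k2 0 (.s k87 k171 13 (.s
  k86 k84 0 (.d k169 k253 k252 13 14)))), (.s k1 k2 0 (.s k169 k253 13 (.s k11 k248 12 (.s k15 k7 1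
  (.s k5 k10 2 (.d k165 k245 k240 11 14)))))), (.s k87 k171 13 (.s k86 k84 0 (.s k82 k94 1 (.s k240
  k161 12 (.s k165 k15 14 (.d k245 k250 k5 2 11))))))] (.c k86 (.q k192 [(.s k2 k1 0 (.s k66 k129 8
  (.s k130 k194 7 (.s k65 k195 8 (.d k64 k67 k128 0 7))))), (.s k64 k128 7 (.s k106 k127 6 (.s k149
  k63 14 (.d k213 k234 k21 6 7)))), (.s k129 k66 8 (.s k213 k234 6 (.s k149 k21 7 (.s k169 k189 5
  (.d k1 k2 k253 0 13)))))] (.c k2 (.q k254 [(.s k64 k128 7 (.s k106 k127 6 (.s k149 k63 14 (.d k213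
  k234 k21 6 7)))), (.s k234 k213 6 (.s k214 k194 5 (.s k252 k253 0 (.s k232 k212 5 (.d k233 k235
  k195 0 6))))), (.s k64 k128 7 (.s k66 k129 8 (.s k67 k65 0 (.s k87 k171 13 (.d k127 k107 k106 5
  6)))))] (.c k149 (.l (.s k129 k66 8 (.s k213 k234 6 (.s k253 k252 0 (.s k1 k169 13 (.d k193 k233
  k65 5 7)))))) .n)) (.c k254 (.l (.s k2 k1 0 (.s k64 k128 7 (.s k66 k129 8 (.s k65 k67 0 (.d k130
  k194 k195 7 8)))))) .n))) (.c k169 (.q k65 [(.s k105 k125 5 (.s k195 k130 8 (.s k150 k60 14 (.d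
  k215 k235 k20 5 8)))), (.s k1 k2 0 (.s k129 k193 7 (.s k66 k192 8 (.s k67 k64 0 (.d k195 k131 k130
  7 8)))))] (.c k130 (.l (.s k1 k2 0 (.s k105 k125 5 (.s k129 k193 7 (.s k66 k192 8 (.s k67 k64 0
  (.s k86 k124 6 (.d k87 k84 k171 0 13)))))))) (.c k168 (.l (.s k171 k87 13 (.s k105 k125 5 (.s k195
  k130 8 (.s k150 k60 14 (.d k215 k235 k20 5 8)))))) (.c k171 (.q k168 [(.s k105 k125 5 (.s k195
  k130 8 (.s k150 k60 14 (.d k215 k235 k20 5 8)))), (.s k84 k252 13 (.s k86 k87 0 (.s k82 k94 1 (.s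
  k240 k161 12 (.s k245 k250 2 (.d k165 k15 k5 14 11))))))] .n) (.c k195 (.l (.s k1 k2 0 (.s k125
  k105 5 (.s k60 k190 8 (.s k40 k20 5 (.s k41 k22 6 (.s k21 k61 5 (.d k42 k43 k63 0 6))))))))
  .n))))) .n))) (.c k160 (.l (.s k95 k80 2 (.s k15 k175 11 (.s k165 k240 14 (.d k5 k10 k245 2
  11))))) (.c k165 (.f k95 k80 2 (.q k93 [(.s k89 k81 1 (.s k91 k88 0 (.s k83 k87 1 (.d k92 k94 k86
  0 2)))), (.s k12 k174 12 (.s k4 k8 1 (.s k166 k247 12 (.s k14 k242 13 (.d k15 k175 k13 11 0)))))]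
  (.c k89 (.l (.s k94 k92 0 (.s k86 k82 1 (.s k84 k87 0 (.s k252 k168 13 (.d k15 k175 k173 11
  12)))))) (.c k160 (.l (.s k175 k15 11 (.s k12 k174 12 (.s k4 k8 1 (.s k89 k81 1 (.d k166 k247 k243
  12 14)))))) (.c k175 (.q k160 [(.s k89 k81 1 (.s k91 k88 0 (.s k83 k87 1 (.d k92 k94 k86 0 2)))),
  (.s k12 k174 12 (.s k4 k8 1 (.s k166 k247 12 (.d k89 k81 k243 1 14)))), (.s k94 k92 0 (.s k174 k12
  12 (.s k254 k14 11 (.s k252 k253 0 (.s k84 k168 13 (.d k86 k87 k82 0 1))))))] .n) .n))))) (.c k175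
  (.l (.s k80 k95 2 (.s k240 k160 11 (.s k165 k15 14 (.d k245 k250 k5 2 11))))) (.c k240 (.q k207
  [(.s k69 k138 10 (.s k101 k117 3 (.s k223 k239 3 (.d k154 k16 k48 10 14)))), (.s k69 k138 10 (.s
  k95 k80 2 (.s k15 k175 11 (.s k79 k143 7 (.s k64 k74 2 (.d k127 k111 k106 3 6)))))), (.s k95 k80 2
  (.s k15 k175 11 (.s k79 k143 7 (.s k101 k112 6 (.s k223 k239 3 (.d k154 k48 k16 14 10))))))] (.c
  k154 (.l (.s k95 k80 2 (.s k15 k175 11 (.s k79 k143 7 (.s k101 k112 6 (.d k69 k117 k138 3 10))))))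
  .n)) (.c k245 (.q k1 [(.s k3 k2 0 (.s k87 k171 13 (.s k86 k84 0 (.d k169 k253 k252 13 14)))), (.s
  k80 k95 2 (.s k169 k253 13 (.s k240 k160 11 (.s k165 k15 14 (.s k161 k173 1 (.s k82 k3 12 (.d k81
  k241 k83 11 0))))))), (.s k3 k2 0 (.s k80 k95 2 (.s k240 k160 11 (.s k82 k161 12 (.s k86 k94 1 (.d
  k87 k84 k171 0 13))))))] (.c k3 (.l (.s k95 k80 2 (.s k15 k175 11 (.s k5 k10 2 (.s k13 k9 1 (.s
  k12 k14 0 (.s k93 k174 12 (.d k253 k173 k169 11 13)))))))) .n)) .n)))))))))))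

def t26_219 : T TT 256 :=
  (.f k255 k170 14 (.q k165 [(.s k245 k5 11 (.s k240 k250 2 (.s k80 k160 11 (.d k90 k95 k15 2
  14))))] (.c k5 (.q k4 [(.s k12 k8 1 (.s k93 k174 12 (.s k89 k81 1 (.d k166 k247 k243 12 14)))),
  (.s k166 k247 12 (.s k164 k167 0 (.s k84 k244 11 (.s k252 k168 13 (.s k253 k254 0 (.s k169 k1 13
  (.d k86 k87 k3 0 14)))))))] (.c k166 (.f k12 k8 1 (.q k89 [(.d k93 k174 k81 12 1), (.s k13 k241 13
  (.s k15 k14 0 (.s k90 k240 14 (.d k95 k80 k175 2 11))))] (.c k162 (.l (.s k174 k93 12 (.s k13 k241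
  13 (.s k15 k14 0 (.s k90 k240 14 (.d k95 k80 k175 2 11)))))) (.c k174 (.q k162 [(.d k81 k93 k243 1
  12), (.s k13 k241 13 (.s k15 k14 0 (.s k95 k175 11 (.d k90 k80 k240 2 14))))] .n) .n)))) (.c k247
  (.l (.s k12 k8 1 (.s k93 k174 12 (.s k89 k81 1 (.s k13 k241 13 (.s k15 k14 0 (.s k90 k240 14 (.d
  k95 k80 k175 2 11)))))))) .n))) (.c k10 (.l (.s k245 k5 11 (.s k240 k250 2 (.s k90 k15 14 (.d k80
  k95 k160 2 11))))) (.c k15 (.q k37 [(.s k101 k229 7 (.s k69 k117 3 (.s k207 k138 10 (.s k154 k48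
  14 (.d k223 k239 k16 3 10))))), (.s k5 k245 11 (.s k21 k53 3 (.s k63 k42 6 (.s k127 k191 7 (.s
  k106 k64 6 (.d k149 k213 k192 7 14))))))] (.c k117 (.l (.s k229 k101 7 (.s k245 k5 11 (.s k213
  k197 3 (.s k149 k21 7 (.s k192 k234 6 (.s k64 k128 7 (.d k106 k127 k63 6 14)))))))) .n)) (.c k80
  (.q k1 [(.s k169 k253 13 (.s k3 k2 0 (.s k86 k252 14 (.d k87 k84 k171 0 13)))), (.s k5 k245 11 (.s
  k13 k9 1 (.s k89 k241 13 (.s k93 k81 1 (.d k253 k173 k169 11 13))))), (.s k3 k2 0 (.s k5 k245 11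
  (.s k9 k13 1 (.s k6 k12 2 (.s k7 k4 0 (.d k15 k11 k10 1 2))))))] .n) (.c k90 (.f k245 k5 11 (.f
  k250 k240 2 (.q k154 [(.s k223 k16 10 (.s k207 k239 3 (.s k69 k138 10 (.d k101 k117 k48 3 14)))),
  (.s k16 k223 10 (.s k48 k32 3 (.s k101 k207 14 (.d k117 k69 k186 3 10))))] (.c k16 (.q k21 [(.s
  k149 k213 7 (.s k181 k133 3 (.s k117 k53 7 (.s k48 k186 10 (.d k101 k69 k207 3 14))))), (.s k63
  k42 6 (.s k127 k191 7 (.s k106 k64 6 (.d k149 k213 k192 7 14)))), (.s k63 k42 6 (.s k176 k143 6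
  (.s k191 k127 7 (.s k186 k181 2 (.s k48 k117 10 (.d k58 k122 k53 7 2))))))] .n) (.c k32 (.l (.s
  k223 k16 10 (.s k207 k239 3 (.s k101 k48 14 (.d k69 k117 k138 3 10))))) (.c k48 (.q k21 [(.s k63
  k42 6 (.s k127 k191 7 (.s k106 k64 6 (.d k149 k213 k192 7 14)))), (.s k149 k213 7 (.s k159 k144 2
  (.s k223 k16 10 (.s k207 k239 3 (.d k63 k42 k111 6 11))))), (.s k63 k42 6 (.s k191 k127 7 (.s k223
  k16 10 (.s k207 k239 3 (.s k159 k111 11 (.d k143 k175 k176 3 6))))))] (.c k15 (.q k37 [(.s k229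
  k101 7 (.d k213 k197 k149 3 7)), (.s k63 k42 6 (.s k127 k191 7 (.s k106 k64 6 (.d k149 k213 k192 7
  14)))), (.s k101 k229 7 (.s k69 k117 3 (.s k207 k138 10 (.d k223 k239 k16 3 10))))] (.c k112 (.l
  (.s k176 k143 6 (.s k213 k149 7 (.d k229 k197 k101 3 7)))) (.c k176 (.q k112 [(.s k229 k101 7 (.d
  k213 k197 k149 3 7)), (.s k63 k42 6 (.s k127 k191 7 (.s k106 k64 6 (.d k149 k213 k192 7 14)))),
  (.s k63 k42 6 (.s k101 k229 7 (.s k117 k69 3 (.d k127 k122 k191 2 7))))] .n) .n))) (.c k37 (.q k15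
  [(.s k223 k16 10 (.s k207 k239 3 (.d k143 k176 k79 6 7))), (.s k63 k42 6 (.s k47 k31 3 (.s k106
  k224 10 (.d k127 k64 k191 6 7))))] (.c k32 (.l (.s k63 k42 6 (.s k47 k31 3 (.s k106 k224 10 (.d
  k127 k64 k191 6 7))))) (.c k112 (.l (.s k176 k143 6 (.s k63 k42 6 (.s k47 k31 3 (.s k106 k224 10
  (.d k127 k64 k191 6 7)))))) (.c k176 (.q k112 [(.s k95 k175 11 (.s k149 k213 7 (.s k159 k144 2 (.d
  k223 k31 k16 7 10)))), (.s k63 k42 6 (.s k47 k31 3 (.s k106 k224 10 (.d k127 k64 k191 6 7)))), (.s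
  k63 k42 6 (.s k95 k175 11 (.s k223 k16 10 (.d k31 k47 k159 3 7))))] (.c k31 (.l (.s k63 k42 6 (.s
  k127 k191 7 (.s k106 k64 6 (.d k149 k213 k192 7 14))))) .n)) .n)))) (.c k42 (.l (.s k213 k149 7
  (.s k223 k16 10 (.s k234 k192 6 (.d k218 k208 k202 2 3))))) (.c k63 (.l (.s k213 k149 7 (.s k192
  k234 6 (.s k197 k229 3 (.s k207 k202 2 (.d k223 k239 k16 3 10)))))) (.c k112 (.l (.s k176 k143 6
  (.s k63 k42 6 (.s k127 k191 7 (.s k106 k64 6 (.d k149 k213 k192 7 14)))))) (.c k176 (.q k112 [(.s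
  k63 k42 6 (.s k127 k191 7 (.s k106 k64 6 (.d k149 k213 k192 7 14)))), (.s k149 k213 7 (.s k159
  k144 2 (.s k223 k16 10 (.s k207 k239 3 (.d k63 k42 k111 6 11))))), (.s k63 k42 6 (.s k191 k127 7
  (.s k223 k16 10 (.s k207 k239 3 (.s k159 k111 11 (.s k175 k143 3 (.d k95 k15 k31 11 7)))))))] (.c
  k15 (.q k37 [(.s k229 k101 7 (.d k213 k197 k149 3 7)), (.s k63 k42 6 (.s k127 k191 7 (.s k106 k64
  6 (.d k149 k213 k192 7 14)))), (.s k63 k42 6 (.s k101 k229 7 (.s k117 k69 3 (.d k127 k122 k191 2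
  7))))] .n) (.c k37 (.q k15 [(.s k95 k175 11 (.s k149 k213 7 (.s k159 k144 2 (.d k223 k31 k16 7
  10)))), (.s k63 k42 6 (.s k47 k31 3 (.s k106 k224 10 (.d k127 k64 k191 6 7)))), (.s k63 k42 6 (.s
  k95 k175 11 (.s k223 k16 10 (.d k31 k47 k159 3 7))))] (.c k31 (.l (.s k63 k42 6 (.s k127 k191 7
  (.s k106 k64 6 (.d k149 k213 k192 7 14))))) .n)) (.c k42 (.l (.s k213 k149 7 (.s k223 k16 10 (.s
  k234 k192 6 (.d k218 k208 k202 2 3))))) (.c k63 (.l (.s k213 k149 7 (.s k192 k234 6 (.s k197 k229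
  3 (.s k207 k202 2 (.d k223 k239 k16 3 10)))))) .n))))) .n))))))) (.c k69 (.l (.s k16 k223 10 (.s
  k48 k32 3 (.s k101 k207 14 (.s k117 k186 10 (.s k53 k181 7 (.s k197 k149 11 (.d k229 k213 k37 3
  7)))))))) (.c k101 (.q k48 [(.d k16 k32 k223 3 10), (.s k176 k143 6 (.s k186 k117 10 (.s k58 k122
  7 (.s k63 k53 2 (.d k191 k181 k127 2 7)))))] (.c k32 (.q k239 [(.d k223 k207 k16 3 10), (.s k176
  k143 6 (.s k186 k117 10 (.s k58 k122 7 (.s k63 k53 2 (.d k191 k181 k127 2 7)))))] (.c k79 (.q k112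
  [(.d k223 k207 k16 3 10), (.s k117 k186 10 (.s k53 k181 7 (.s k63 k58 2 (.d k127 k122 k191 2
  7))))] .n) (.c k112 (.q k79 [(.d k223 k207 k16 3 10), (.s k117 k186 10 (.s k181 k53 7 (.s k149
  k133 3 (.s k144 k159 2 (.s k192 k96 11 (.d k213 k21 k234 7 6))))))] .n) .n))) (.c k79 (.q k112
  [(.d k16 k32 k223 3 10), (.s k117 k186 10 (.s k53 k181 7 (.s k63 k58 2 (.d k127 k122 k191 2 7))))]
  (.c k32 (.q k239 [(.d k223 k207 k16 3 10), (.s k117 k186 10 (.s k53 k181 7 (.s k63 k58 2 (.d k127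
  k122 k191 2 7))))] .n) (.c k239 (.l (.s k32 k16 3 (.s k117 k186 10 (.s k53 k181 7 (.s k63 k58 2
  (.d k127 k122 k191 2 7)))))) .n))) (.c k112 (.q k79 [(.d k16 k32 k223 3 10), (.s k117 k186 10 (.s
  k143 k176 6 (.s k181 k53 7 (.s k207 k15 7 (.s k138 k69 10 (.d k133 k149 k128 3 2))))))] (.c k32
  (.q k239 [(.d k223 k207 k16 3 10), (.s k117 k186 10 (.s k181 k53 7 (.s k149 k133 3 (.s k144 k159 2
  (.s k192 k96 11 (.d k213 k21 k234 7 6))))))] .n) (.c k239 (.l (.s k32 k16 3 (.s k117 k186 10 (.s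
  k143 k176 6 (.s k181 k53 7 (.s k207 k15 7 (.s k138 k69 10 (.d k133 k149 k128 3 2)))))))) .n))) (.c
  k239 (.l (.s k32 k16 3 (.s k176 k143 6 (.s k186 k117 10 (.s k58 k122 7 (.s k63 k53 2 (.d k191 k181
  k127 2 7))))))) .n))))) (.c k117 (.q k1 [(.s k3 k2 0 (.s k87 k171 13 (.s k86 k84 0 (.d k169 k253
  k252 13 14)))), (.s k253 k169 13 (.s k241 k249 1 (.s k89 k13 13 (.d k81 k93 k161 1 11)))), (.s k3
  k2 0 (.s k16 k223 10 (.s k48 k32 3 (.s k18 k33 4 (.s k86 k222 9 (.d k87 k84 k171 0 13))))))] (.c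
  k171 (.l (.s k3 k2 0 (.s k169 k253 13 (.s k139 k184 4 (.s k207 k71 9 (.d k223 k239 k16 3 10))))))
  .n)) (.c k207 (.l (.s k16 k223 10 (.s k48 k32 3 (.s k117 k186 10 (.s k53 k181 7 (.s k101 k69 3 (.s
  k197 k149 11 (.d k229 k213 k37 3 7)))))))) (.c k223 (.q k150 [(.s k215 k20 8 (.s k195 k235 5 (.s
  k65 k130 8 (.d k105 k125 k60 5 14)))), (.s k143 k176 6 (.s k158 k146 1 (.s k188 k173 4 (.s k131
  k169 6 (.d k135 k139 k180 1 4)))))] (.c k211 (.l (.s k215 k20 8 (.s k195 k235 5 (.s k65 k130 8 (.d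
  k105 k125 k60 5 14))))) (.c k215 (.q k211 [(.s k146 k158 1 (.s k81 k16 8 (.d k89 k93 k28 1 10))),
  (.s k135 k180 4 (.s k143 k176 6 (.s k131 k139 1 (.s k158 k146 1 (.d k188 k173 k169 4 6)))))] (.c
  k146 (.l (.s k89 k28 10 (.s k93 k81 1 (.s k12 k174 12 (.s k4 k8 1 (.d k166 k247 k243 12 14))))))
  (.c k158 (.l (.s k89 k28 10 (.s k93 k81 1 (.s k12 k174 12 (.s k4 k8 1 (.d k166 k247 k243 12
  14)))))) .n))) .n))) (.c k239 (.l (.s k16 k223 10 (.s k48 k32 3 (.s k101 k207 14 (.d k117 k69 k186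
  3 10))))) .n)))))))))))) (.c k95 (.q k1 [(.s k169 k253 13 (.s k3 k2 0 (.s k86 k252 14 (.d k87 k84
  k171 0 13)))), (.s k5 k245 11 (.s k13 k9 1 (.s k89 k241 13 (.s k93 k81 1 (.d k253 k173 k169 11
  13))))), (.s k3 k2 0 (.s k5 k245 11 (.s k9 k13 1 (.s k6 k12 2 (.s k7 k4 0 (.d k15 k11 k10 1
  2))))))] .n) (.c k160 (.l (.s k5 k245 11 (.s k15 k10 2 (.s k90 k240 14 (.d k95 k80 k175 2 11)))))
  (.c k240 (.q k1 [(.s k3 k2 0 (.s k87 k171 13 (.s k86 k84 0 (.d k169 k253 k252 13 14)))), (.s k5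
  k245 11 (.s k13 k9 1 (.s k89 k241 13 (.s k93 k81 1 (.d k253 k173 k169 11 13))))), (.s k3 k2 0 (.s
  k5 k245 11 (.s k9 k13 1 (.s k6 k12 2 (.s k7 k4 0 (.d k15 k11 k10 1 2))))))] .n) (.c k245 (.q k253
  [(.s k169 k1 13 (.s k252 k254 0 (.s k84 k168 13 (.d k86 k87 k3 0 14)))), (.s k169 k1 13 (.s k173
  k161 1 (.s k93 k13 11 (.s k12 k174 12 (.s k4 k8 1 (.s k166 k247 12 (.d k89 k81 k243 1 14)))))))]
  (.c k1 (.l (.s k252 k254 0 (.s k84 k168 13 (.s k86 k87 0 (.s k244 k7 12 (.s k240 k248 1 (.s k80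
  k160 11 (.d k90 k95 k15 2 14)))))))) (.c k169 (.f k252 k254 0 (.q k86 [(.d k84 k168 k87 13 0), (.s
  k244 k7 12 (.s k240 k248 1 (.s k80 k160 11 (.d k90 k95 k15 2 14))))] (.c k168 (.q k171 [(.d k87
  k84 k3 0 13), (.s k244 k7 12 (.s k240 k248 1 (.s k80 k160 11 (.d k90 k95 k15 2 14))))] .n) (.c
  k171 (.l (.s k168 k84 13 (.s k244 k7 12 (.s k240 k248 1 (.s k80 k160 11 (.d k90 k95 k15 2 14))))))
  .n)))) .n))) (.c k250 (.l (.s k5 k245 11 (.s k15 k10 2 (.s k90 k240 14 (.d k95 k80 k175 2 11)))))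
  .n))))))))))))

def t26_223 : T TT 256 :=
  (.f k255 k170 14 (.q k105 [(.s k65 k125 5 (.s k195 k130 8 (.s k150 k60 14 (.d k215 k235 k20 5
  8))))] (.c k20 (.q k1 [(.s k169 k253 13 (.s k3 k2 0 (.s k86 k252 14 (.d k87 k84 k171 0 13)))), (.s
  k65 k125 5 (.s k169 k253 13 (.s k41 k233 7 (.s k61 k21 5 (.d k193 k129 k149 7 13))))), (.s k3 k2 0
  (.s k65 k125 5 (.s k129 k193 7 (.s k66 k192 8 (.s k67 k64 0 (.d k195 k131 k130 7 8))))))] .n) (.c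
  k60 (.q k1 [(.s k3 k2 0 (.s k87 k171 13 (.s k86 k84 0 (.d k169 k253 k252 13 14)))), (.s k65 k125 5
  (.s k169 k253 13 (.s k41 k233 7 (.s k61 k21 5 (.d k193 k129 k149 7 13))))), (.s k3 k2 0 (.s k65
  k125 5 (.s k129 k193 7 (.s k66 k192 8 (.s k67 k64 0 (.d k195 k131 k130 7 8))))))] .n) (.c k65 (.q
  k1 [(.s k169 k253 13 (.s k3 k2 0 (.s k86 k252 14 (.d k87 k84 k171 0 13)))), (.s k169 k253 13 (.s
  k41 k233 7 (.s k21 k61 5 (.s k63 k42 6 (.s k127 k191 7 (.s k106 k64 6 (.d k149 k213 k192 7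
  14)))))))] (.c k169 (.f k3 k2 0 (.q k86 [(.d k87 k171 k84 13 0), (.s k67 k124 6 (.s k195 k131 7
  (.s k150 k60 14 (.d k215 k235 k20 5 8))))] (.c k168 (.l (.s k171 k87 13 (.s k67 k124 6 (.s k195
  k131 7 (.s k150 k60 14 (.d k215 k235 k20 5 8)))))) (.c k171 (.q k168 [(.d k84 k87 k252 0 13), (.s
  k67 k124 6 (.s k195 k131 7 (.s k215 k235 5 (.d k150 k20 k60 8 14))))] .n) .n)))) (.c k253 (.l (.s
  k3 k2 0 (.s k87 k171 13 (.s k86 k84 0 (.s k67 k124 6 (.s k195 k131 7 (.s k150 k60 14 (.d k215 k235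
  k20 5 8)))))))) .n))) (.c k125 (.q k253 [(.s k169 k1 13 (.s k252 k254 0 (.s k84 k168 13 (.d k86
  k87 k3 0 14)))), (.s k169 k1 13 (.s k233 k41 7 (.s k213 k193 5 (.s k192 k234 6 (.s k64 k128 7 (.s
  k106 k127 6 (.d k149 k21 k63 7 14)))))))] (.c k1 (.l (.s k252 k254 0 (.s k84 k168 13 (.s k86 k87 0
  (.s k124 k67 6 (.s k60 k188 7 (.s k20 k40 5 (.d k150 k215 k195 8 14)))))))) (.c k169 (.f k252 k254
  0 (.q k86 [(.d k84 k168 k87 13 0), (.s k124 k67 6 (.s k60 k188 7 (.s k20 k40 5 (.d k150 k215 k195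
  8 14))))] (.c k168 (.q k171 [(.d k87 k84 k3 0 13), (.s k124 k67 6 (.s k60 k188 7 (.s k20 k40 5 (.d
  k150 k215 k195 8 14))))] .n) (.c k171 (.l (.s k168 k84 13 (.s k124 k67 6 (.s k60 k188 7 (.s k20
  k40 5 (.d k150 k215 k195 8 14)))))) .n)))) .n))) (.c k130 (.l (.s k125 k65 5 (.s k60 k190 8 (.s
  k150 k195 14 (.d k20 k40 k215 5 8))))) (.c k150 (.f k65 k125 5 (.q k67 [(.s k64 k66 0 (.s k86 k124
  6 (.s k87 k84 0 (.d k127 k107 k106 5 6)))), (.s k64 k66 0 (.s k192 k128 7 (.s k213 k234 6 (.s k149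
  k21 7 (.s k193 k61 13 (.d k195 k130 k194 8 0)))))), (.s k86 k124 6 (.s k84 k87 0 (.s k252 k168 13
  (.s k169 k3 14 (.d k253 k254 k1 0 13)))))] (.c k130 (.q k190 [(.s k86 k124 6 (.s k87 k84 0 (.s
  k127 k107 5 (.d k64 k66 k106 0 6)))), (.s k64 k66 0 (.s k192 k128 7 (.s k213 k234 6 (.s k149 k21 7
  (.d k106 k127 k63 6 14))))), (.s k86 k124 6 (.s k84 k87 0 (.s k252 k168 13 (.s k169 k3 14 (.d k253
  k254 k1 0 13)))))] (.c k127 (.l (.s k66 k64 0 (.s k86 k124 6 (.s k126 k106 5 (.s k84 k87 0 (.s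
  k252 k168 13 (.d k254 k62 k253 7 0))))))) .n)) (.c k190 (.l (.s k130 k195 8 (.s k64 k66 0 (.s k86
  k124 6 (.s k87 k84 0 (.d k127 k107 k106 5 6)))))) .n)))) (.c k190 (.l (.s k65 k125 5 (.s k195 k130
  8 (.s k150 k60 14 (.d k215 k235 k20 5 8))))) (.c k195 (.q k1 [(.s k3 k2 0 (.s k87 k171 13 (.s k86
  k84 0 (.d k169 k253 k252 13 14)))), (.s k65 k125 5 (.s k169 k253 13 (.s k41 k233 7 (.s k61 k21 5
  (.d k193 k129 k149 7 13))))), (.s k3 k2 0 (.s k125 k65 5 (.s k60 k190 8 (.s k40 k20 5 (.s k41 k22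
  6 (.s k21 k61 5 (.d k42 k43 k63 0 6)))))))] .n) (.c k215 (.f k65 k125 5 (.f k195 k130 8 (.f k150
  k60 14 (.q k211 [(.s k89 k28 10 (.s k243 k227 3 (.d k81 k93 k162 1 12))), (.s k243 k227 3 (.s k81
  k162 12 (.s k97 k113 3 (.d k146 k16 k48 8 12)))), (.s k89 k28 10 (.s k73 k121 3 (.s k12 k134 10
  (.d k243 k227 k166 3 14)))), (.s k89 k28 10 (.s k93 k81 1 (.s k12 k174 12 (.d k73 k121 k134 3
  10))))] .n)))) (.c k235 (.l (.s k125 k65 5 (.s k60 k190 8 (.s k20 k40 5 (.d k150 k215 k195 8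
  14))))) .n))))))))))))

def t26_225 : T TT 256 :=
  (.f k255 k170 14 (.q k89 [(.s k81 k93 1 (.s k243 k162 12 (.s k166 k12 14 (.d k247 k251 k4 1
  12))))] (.c k4 (.q k1 [(.s k169 k253 13 (.s k3 k2 0 (.s k86 k252 14 (.d k87 k84 k171 0 13)))), (.s
  k81 k93 1 (.s k169 k253 13 (.s k9 k249 11 (.s k13 k5 1 (.d k241 k161 k165 11 13))))), (.s k3 k2 0
  (.s k81 k93 1 (.s k161 k241 11 (.s k82 k240 12 (.s k83 k80 0 (.d k243 k163 k162 11 12))))))] .n)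
  (.c k12 (.q k1 [(.s k3 k2 0 (.s k87 k171 13 (.s k86 k84 0 (.d k169 k253 k252 13 14)))), (.s k81
  k93 1 (.s k169 k253 13 (.s k9 k249 11 (.s k13 k5 1 (.d k241 k161 k165 11 13))))), (.s k3 k2 0 (.s
  k81 k93 1 (.s k161 k241 11 (.s k82 k240 12 (.s k83 k80 0 (.d k243 k163 k162 11 12))))))] .n) (.c
  k81 (.q k87 [(.s k86 k84 0 (.s k3 k171 13 (.s k169 k252 14 (.d k1 k2 k253 0 13)))), (.s k86 k84 0
  (.s k83 k92 2 (.s k95 k91 1 (.s k15 k175 11 (.s k5 k10 2 (.s k165 k245 11 (.d k90 k80 k240 2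
  14)))))))] (.c k84 (.l (.s k3 k171 13 (.s k1 k2 0 (.s k169 k253 13 (.s k9 k249 11 (.s k12 k6 2 (.s
  k4 k8 1 (.d k166 k247 k243 12 14)))))))) (.c k86 (.f k3 k171 13 (.q k169 [(.d k1 k2 k253 0 13),
  (.s k9 k249 11 (.s k12 k6 2 (.s k4 k8 1 (.d k166 k247 k243 12 14))))] (.c k2 (.q k254 [(.d k253
  k252 k1 0 13), (.s k9 k249 11 (.s k12 k6 2 (.s k4 k8 1 (.d k166 k247 k243 12 14))))] .n) (.c k254
  (.l (.s k2 k1 0 (.s k9 k249 11 (.s k12 k6 2 (.s k4 k8 1 (.d k166 k247 k243 12 14)))))) .n))))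
  .n))) (.c k93 (.q k68 [(.s k102 k119 4 (.s k204 k136 9 (.s k153 k51 14 (.d k221 k238 k17 4 9)))),
  (.s k102 k119 4 (.s k76 k115 6 (.s k64 k72 1 (.s k192 k128 7 (.s k213 k234 6 (.s k149 k21 7 (.d
  k106 k127 k63 6 14)))))))] (.c k102 (.f k204 k136 9 (.q k153 [(.d k221 k238 k17 4 9), (.s k217 k25
  7 (.s k243 k230 6 (.s k166 k12 14 (.d k247 k251 k4 1 12))))] (.c k34 (.l (.s k238 k221 4 (.s k217
  k25 7 (.s k243 k230 6 (.s k166 k12 14 (.d k247 k251 k4 1 12)))))) (.c k238 (.q k34 [(.d k17 k51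
  k221 4 9), (.s k217 k25 7 (.s k243 k230 6 (.s k247 k251 1 (.d k166 k4 k12 12 14))))] .n) .n))))
  (.c k119 (.l (.s k204 k136 9 (.s k221 k238 4 (.s k153 k17 9 (.s k217 k25 7 (.s k243 k230 6 (.s
  k166 k12 14 (.d k247 k251 k4 1 12)))))))) .n))) (.c k162 (.l (.s k93 k81 1 (.s k12 k174 12 (.s
  k166 k243 14 (.d k4 k8 k247 1 12))))) (.c k166 (.f k81 k93 1 (.q k83 [(.s k80 k82 0 (.s k86 k92 2
  (.s k87 k84 0 (.d k95 k91 k90 1 2)))), (.s k80 k82 0 (.s k240 k160 11 (.s k245 k250 2 (.s k165 k5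
  11 (.s k241 k13 13 (.d k243 k162 k242 12 0)))))), (.s k86 k92 2 (.s k84 k87 0 (.s k252 k168 13 (.s
  k169 k3 14 (.d k253 k254 k1 0 13)))))] (.c k162 (.q k174 [(.s k86 k92 2 (.s k87 k84 0 (.s k95 k91
  1 (.d k80 k82 k90 0 2)))), (.s k80 k82 0 (.s k240 k160 11 (.s k245 k250 2 (.s k165 k5 11 (.d k90
  k95 k15 2 14))))), (.s k86 k92 2 (.s k84 k87 0 (.s k252 k168 13 (.s k169 k3 14 (.d k253 k254 k1 0
  13)))))] (.c k95 (.l (.s k82 k80 0 (.s k86 k92 2 (.s k94 k90 1 (.s k84 k87 0 (.s k252 k168 13 (.d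
  k254 k14 k253 11 0))))))) .n)) (.c k174 (.l (.s k162 k243 12 (.s k80 k82 0 (.s k86 k92 2 (.s k87
  k84 0 (.d k95 k91 k90 1 2)))))) .n)))) (.c k174 (.l (.s k81 k93 1 (.s k243 k162 12 (.s k166 k12 14
  (.d k247 k251 k4 1 12))))) (.c k243 (.q k1 [(.s k3 k2 0 (.s k87 k171 13 (.s k86 k84 0 (.d k169
  k253 k252 13 14)))), (.s k81 k93 1 (.s k169 k253 13 (.s k9 k249 11 (.s k13 k5 1 (.d k241 k161 k165
  11 13))))), (.s k3 k2 0 (.s k93 k81 1 (.s k12 k174 12 (.s k8 k4 1 (.s k9 k6 2 (.s k5 k13 1 (.d k10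
  k11 k15 0 2)))))))] .n) (.c k247 (.q k1 [(.s k169 k253 13 (.s k3 k2 0 (.s k86 k252 14 (.d k87 k84
  k171 0 13)))), (.s k81 k93 1 (.s k169 k253 13 (.s k9 k249 11 (.s k13 k5 1 (.d k241 k161 k165 11
  13))))), (.s k3 k2 0 (.s k81 k93 1 (.s k161 k241 11 (.s k82 k240 12 (.s k83 k80 0 (.d k243 k163
  k162 11 12))))))] .n) (.c k251 (.l (.s k93 k81 1 (.s k12 k174 12 (.s k4 k8 1 (.d k166 k247 k243 12
  14))))) .n))))))))))))

def t26_226 : T TT 256 :=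
  (.f k255 k170 14 (.q k165 [(.s k245 k5 11 (.s k240 k250 2 (.s k80 k160 11 (.d k90 k95 k15 2
  14))))] (.c k5 (.q k93 [(.s k12 k174 12 (.s k4 k8 1 (.s k89 k81 1 (.d k166 k247 k243 12 14)))),
  (.s k89 k81 1 (.s k13 k241 13 (.s k253 k173 11 (.s k252 k254 0 (.s k84 k168 13 (.s k86 k87 0 (.d
  k169 k1 k3 13 14)))))))] (.c k81 (.l (.s k12 k174 12 (.s k4 k8 1 (.s k166 k247 12 (.s k164 k167 0
  (.s k240 k88 13 (.s k80 k160 11 (.d k90 k95 k15 2 14)))))))) (.c k89 (.f k12 k174 12 (.q k166 [(.d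
  k4 k8 k247 1 12), (.s k164 k167 0 (.s k240 k88 13 (.s k80 k160 11 (.d k90 k95 k15 2 14))))] (.c k8
  (.q k251 [(.d k247 k243 k4 1 12), (.s k164 k167 0 (.s k240 k88 13 (.s k80 k160 11 (.d k90 k95 k15
  2 14))))] .n) (.c k251 (.l (.s k8 k4 1 (.s k164 k167 0 (.s k240 k88 13 (.s k80 k160 11 (.d k90 k95
  k15 2 14)))))) .n)))) .n))) (.c k10 (.l (.s k245 k5 11 (.s k240 k250 2 (.s k90 k15 14 (.d k80 k95
  k160 2 11))))) (.c k15 (.q k37 [(.s k101 k229 7 (.s k69 k117 3 (.s k207 k138 10 (.s k154 k48 14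
  (.d k223 k239 k16 3 10))))), (.s k5 k245 11 (.s k21 k53 3 (.s k63 k42 6 (.s k127 k191 7 (.s k106
  k64 6 (.d k149 k213 k192 7 14))))))] (.c k117 (.l (.s k229 k101 7 (.s k245 k5 11 (.s k213 k197 3
  (.s k149 k21 7 (.s k192 k234 6 (.s k64 k128 7 (.d k106 k127 k63 6 14)))))))) .n)) (.c k80 (.q k1
  [(.s k169 k253 13 (.s k3 k2 0 (.s k86 k252 14 (.d k87 k84 k171 0 13)))), (.s k5 k245 11 (.s k13 k9
  1 (.s k89 k241 13 (.s k93 k81 1 (.d k253 k173 k169 11 13))))), (.s k3 k2 0 (.s k5 k245 11 (.s k9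
  k13 1 (.s k6 k12 2 (.s k7 k4 0 (.d k15 k11 k10 1 2))))))] .n) (.c k90 (.q k250 [(.d k245 k240 k5 2
  11)] (.c k5 (.q k154 [(.s k16 k223 10 (.s k176 k143 6 (.s k240 k245 2 (.d k48 k32 k112 3 7)))),
  (.s k16 k223 10 (.s k48 k32 3 (.s k101 k207 14 (.d k117 k69 k186 3 10)))), (.s k176 k143 6 (.s
  k240 k245 2 (.s k48 k112 7 (.s k101 k207 14 (.d k117 k69 k186 3 10)))))] (.c k48 (.l (.s k223 k16
  10 (.s k207 k239 3 (.s k69 k138 10 (.s k101 k117 3 (.s k240 k245 2 (.d k229 k218 k37 6 7)))))))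
  .n)) (.c k154 (.q k218 [(.d k245 k240 k5 2 11)] (.c k5 (.l (.s k234 k202 3 (.s k192 k213 6 (.s
  k240 k245 2 (.s k224 k208 3 (.d k229 k239 k207 2 6)))))) (.c k138 (.q k186 [(.d k245 k240 k5 2
  11), (.s k48 k117 10 (.s k58 k122 7 (.s k234 k202 3 (.s k213 k192 6 (.s k21 k149 7 (.d k63 k53 k42
  2 6))))))] .n) (.c k186 (.q k138 [(.d k245 k240 k5 2 11), (.s k207 k69 10 (.s k223 k239 3 (.s k213
  k208 2 (.d k234 k202 k192 3 6))))] .n) (.c k240 (.l (.s k234 k202 3 (.s k213 k192 6 (.s k149 k21 7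
  (.s k181 k133 3 (.s k245 k5 11 (.s k53 k117 7 (.d k197 k229 k101 3 11)))))))) (.c k245 (.l (.s
  k234 k202 3 (.s k192 k213 6 (.s k64 k128 7 (.s k106 k127 6 (.s k224 k47 10 (.s k229 k239 2 (.d
  k240 k208 k207 3 6)))))))) .n)))))) (.c k218 (.q k154 [(.d k245 k240 k5 2 11), (.s k16 k223 10 (.s
  k48 k32 3 (.s k117 k186 10 (.d k101 k69 k207 3 14))))] .n) (.c k240 (.q k154 [(.s k16 k223 10 (.s
  k48 k32 3 (.s k117 k186 10 (.d k101 k69 k207 3 14)))), (.s k5 k245 11 (.s k15 k10 2 (.s k143 k176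
  6 (.s k207 k79 7 (.s k69 k138 10 (.d k101 k48 k117 14 3)))))), (.s k5 k245 11 (.s k15 k10 2 (.s
  k223 k16 10 (.s k207 k239 3 (.d k143 k176 k79 6 7)))))] (.c k101 (.l (.s k5 k245 11 (.s k15 k10 2
  (.s k143 k176 6 (.s k223 k16 10 (.d k207 k239 k79 3 7)))))) (.c k207 (.l (.s k16 k223 10 (.s k48
  k32 3 (.s k176 k143 6 (.s k186 k117 10 (.s k58 k122 7 (.s k63 k53 2 (.d k191 k181 k127 2 7))))))))
  .n))) (.c k245 (.q k169 [(.s k253 k1 13 (.s k252 k254 0 (.s k86 k3 14 (.d k84 k87 k168 0 13)))),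
  (.s k173 k161 1 (.s k253 k1 13 (.s k93 k13 11 (.s k12 k174 12 (.s k4 k8 1 (.s k166 k247 12 (.d k89
  k81 k243 1 14)))))))] (.c k1 (.q k154 [(.s k16 k223 10 (.s k48 k32 3 (.s k101 k207 14 (.d k117 k69
  k186 3 10)))), (.s k139 k184 4 (.s k143 k176 6 (.s k131 k135 1 (.s k173 k161 1 (.d k188 k158 k150
  4 6)))))] .n) (.c k154 (.q k218 [(.s k253 k1 13 (.s k252 k254 0 (.s k86 k3 14 (.d k84 k87 k168 0
  13)))), (.s k234 k202 3 (.s k192 k213 6 (.s k64 k128 7 (.s k106 k127 6 (.s k224 k47 10 (.s k229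
  k239 2 (.d k240 k208 k207 3 6)))))))] (.c k138 (.q k186 [(.s k253 k1 13 (.s k252 k254 0 (.s k86 k3
  14 (.d k84 k87 k168 0 13)))), (.s k48 k117 10 (.s k58 k122 7 (.s k234 k202 3 (.s k213 k192 6 (.s
  k21 k149 7 (.d k63 k53 k42 2 6))))))] .n) (.c k186 (.q k138 [(.s k1 k253 13 (.s k3 k2 0 (.s k86
  k252 14 (.d k87 k84 k171 0 13)))), (.s k207 k69 10 (.s k223 k239 3 (.s k213 k208 2 (.d k234 k202
  k192 3 6))))] .n) .n))) (.c k218 (.q k154 [(.s k1 k253 13 (.s k3 k2 0 (.s k86 k252 14 (.d k87 k84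
  k171 0 13)))), (.s k16 k223 10 (.s k48 k32 3 (.s k101 k207 14 (.d k117 k69 k186 3 10))))] .n) (.c
  k253 (.q k154 [(.s k16 k223 10 (.s k48 k32 3 (.s k101 k207 14 (.d k117 k69 k186 3 10)))), (.s k139
  k184 4 (.s k143 k176 6 (.s k131 k135 1 (.s k173 k161 1 (.d k188 k158 k150 4 6)))))] (.c k241 (.q
  k249 [(.s k16 k223 10 (.s k48 k32 3 (.s k101 k207 14 (.d k117 k69 k186 3 10)))), (.s k89 k9 11 (.s
  k81 k93 1 (.s k243 k162 12 (.d k251 k248 k247 0 1))))] .n) (.c k249 (.q k241 [(.s k161 k173 1 (.s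
  k81 k1 11 (.d k89 k93 k13 1 13))), (.s k16 k223 10 (.s k48 k32 3 (.s k101 k207 14 (.d k117 k69
  k186 3 10))))] .n) .n))) .n))))) .n)))))) (.c k95 (.q k1 [(.s k169 k253 13 (.s k3 k2 0 (.s k86
  k252 14 (.d k87 k84 k171 0 13)))), (.s k5 k245 11 (.s k13 k9 1 (.s k89 k241 13 (.s k93 k81 1 (.d
  k253 k173 k169 11 13))))), (.s k3 k2 0 (.s k5 k245 11 (.s k9 k13 1 (.s k6 k12 2 (.s k7 k4 0 (.d
  k15 k11 k10 1 2))))))] .n) (.c k160 (.l (.s k5 k245 11 (.s k15 k10 2 (.s k90 k240 14 (.d k95 k80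
  k175 2 11))))) (.c k240 (.q k1 [(.s k3 k2 0 (.s k87 k171 13 (.s k86 k84 0 (.d k169 k253 k252 13
  14)))), (.s k5 k245 11 (.s k13 k9 1 (.s k89 k241 13 (.s k93 k81 1 (.d k253 k173 k169 11 13))))),
  (.s k3 k2 0 (.s k5 k245 11 (.s k9 k13 1 (.s k6 k12 2 (.s k7 k4 0 (.d k15 k11 k10 1 2))))))] .n)
  (.c k245 (.q k253 [(.s k169 k1 13 (.s k252 k254 0 (.s k84 k168 13 (.d k86 k87 k3 0 14)))), (.s
  k169 k1 13 (.s k173 k161 1 (.s k93 k13 11 (.s k12 k174 12 (.s k4 k8 1 (.s k166 k247 12 (.d k89 k81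
  k243 1 14)))))))] (.c k1 (.l (.s k252 k254 0 (.s k84 k168 13 (.s k86 k87 0 (.s k244 k7 12 (.s k240
  k248 1 (.s k80 k160 11 (.d k90 k95 k15 2 14)))))))) (.c k169 (.f k252 k254 0 (.q k86 [(.d k84 k168
  k87 13 0), (.s k244 k7 12 (.s k240 k248 1 (.s k80 k160 11 (.d k90 k95 k15 2 14))))] (.c k168 (.q
  k171 [(.d k87 k84 k3 0 13), (.s k244 k7 12 (.s k240 k248 1 (.s k80 k160 11 (.d k90 k95 k15 2
  14))))] .n) (.c k171 (.l (.s k168 k84 13 (.s k244 k7 12 (.s k240 k248 1 (.s k80 k160 11 (.d k90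
  k95 k15 2 14)))))) .n)))) .n))) (.c k250 (.l (.s k5 k245 11 (.s k15 k10 2 (.s k90 k240 14 (.d k95
  k80 k175 2 11))))) .n))))))))))))

def t26_227 : T TT 256 :=
  (.f k255 k170 14 (.q k165 [(.s k245 k5 11 (.s k240 k250 2 (.s k80 k160 11 (.d k90 k95 k15 2
  14))))] (.c k5 (.q k93 [(.s k12 k174 12 (.s k4 k8 1 (.s k89 k81 1 (.d k166 k247 k243 12 14)))),
  (.s k89 k81 1 (.s k13 k241 13 (.s k253 k173 11 (.s k252 k254 0 (.s k84 k168 13 (.s k86 k87 0 (.d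
  k169 k1 k3 13 14)))))))] (.c k81 (.l (.s k12 k174 12 (.s k4 k8 1 (.s k166 k247 12 (.s k164 k167 0
  (.s k240 k88 13 (.s k80 k160 11 (.d k90 k95 k15 2 14)))))))) (.c k89 (.f k12 k174 12 (.q k166 [(.d
  k4 k8 k247 1 12), (.s k164 k167 0 (.s k240 k88 13 (.s k80 k160 11 (.d k90 k95 k15 2 14))))] (.c k8
  (.q k251 [(.d k247 k243 k4 1 12), (.s k164 k167 0 (.s k240 k88 13 (.s k80 k160 11 (.d k90 k95 k15
  2 14))))] .n) (.c k251 (.l (.s k8 k4 1 (.s k164 k167 0 (.s k240 k88 13 (.s k80 k160 11 (.d k90 k95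
  k15 2 14)))))) .n)))) .n))) (.c k10 (.l (.s k245 k5 11 (.s k240 k250 2 (.s k90 k15 14 (.d k80 k95
  k160 2 11))))) (.c k15 (.q k37 [(.s k101 k229 7 (.s k69 k117 3 (.s k207 k138 10 (.s k154 k48 14
  (.d k223 k239 k16 3 10))))), (.s k5 k245 11 (.s k21 k53 3 (.s k63 k42 6 (.s k127 k191 7 (.s k106
  k64 6 (.d k149 k213 k192 7 14))))))] (.c k117 (.l (.s k229 k101 7 (.s k245 k5 11 (.s k213 k197 3
  (.s k149 k21 7 (.s k192 k234 6 (.s k64 k128 7 (.d k106 k127 k63 6 14)))))))) .n)) (.c k80 (.q k1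
  [(.s k169 k253 13 (.s k3 k2 0 (.s k86 k252 14 (.d k87 k84 k171 0 13)))), (.s k5 k245 11 (.s k13 k9
  1 (.s k89 k241 13 (.s k93 k81 1 (.d k253 k173 k169 11 13))))), (.s k3 k2 0 (.s k5 k245 11 (.s k9
  k13 1 (.s k6 k12 2 (.s k7 k4 0 (.d k15 k11 k10 1 2))))))] .n) (.c k90 (.q k250 [(.d k245 k240 k5 2
  11)] (.c k5 (.q k154 [(.s k16 k223 10 (.s k176 k143 6 (.s k240 k245 2 (.d k48 k32 k112 3 7)))),
  (.s k16 k223 10 (.s k48 k32 3 (.s k101 k207 14 (.d k117 k69 k186 3 10)))), (.s k176 k143 6 (.s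
  k240 k245 2 (.s k48 k112 7 (.s k101 k207 14 (.d k117 k69 k186 3 10)))))] (.c k48 (.l (.s k223 k16
  10 (.s k207 k239 3 (.s k69 k138 10 (.s k101 k117 3 (.s k240 k245 2 (.d k229 k218 k37 6 7)))))))
  .n)) (.c k154 (.q k218 [(.d k245 k240 k5 2 11)] (.c k5 (.l (.s k234 k202 3 (.s k192 k213 6 (.s
  k240 k245 2 (.s k224 k208 3 (.d k229 k239 k207 2 6)))))) (.c k138 (.q k186 [(.d k245 k240 k5 2
  11), (.s k48 k117 10 (.s k58 k122 7 (.s k234 k202 3 (.s k213 k192 6 (.s k21 k149 7 (.d k63 k53 k42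
  2 6))))))] .n) (.c k186 (.q k138 [(.d k245 k240 k5 2 11), (.s k207 k69 10 (.s k223 k239 3 (.s k213
  k208 2 (.d k234 k202 k192 3 6))))] .n) (.c k240 (.l (.s k234 k202 3 (.s k213 k192 6 (.s k149 k21 7
  (.s k181 k133 3 (.s k245 k5 11 (.s k53 k117 7 (.d k197 k229 k101 3 11)))))))) (.c k245 (.l (.s
  k234 k202 3 (.s k192 k213 6 (.s k64 k128 7 (.s k106 k127 6 (.s k224 k47 10 (.s k229 k239 2 (.d
  k240 k208 k207 3 6)))))))) .n)))))) (.c k218 (.q k154 [(.d k245 k240 k5 2 11), (.s k16 k223 10 (.s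
  k48 k32 3 (.s k117 k186 10 (.d k101 k69 k207 3 14))))] .n) (.c k240 (.q k154 [(.s k16 k223 10 (.s
  k48 k32 3 (.s k117 k186 10 (.d k101 k69 k207 3 14)))), (.s k5 k245 11 (.s k15 k10 2 (.s k143 k176
  6 (.s k207 k79 7 (.s k69 k138 10 (.d k101 k48 k117 14 3)))))), (.s k5 k245 11 (.s k15 k10 2 (.s
  k223 k16 10 (.s k207 k239 3 (.d k143 k176 k79 6 7)))))] (.c k101 (.l (.s k5 k245 11 (.s k15 k10 2
  (.s k143 k176 6 (.s k223 k16 10 (.d k207 k239 k79 3 7)))))) (.c k207 (.l (.s k16 k223 10 (.s k48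
  k32 3 (.s k176 k143 6 (.s k186 k117 10 (.s k58 k122 7 (.s k63 k53 2 (.d k191 k181 k127 2 7))))))))
  .n))) (.c k245 (.q k169 [(.s k253 k1 13 (.s k252 k254 0 (.s k86 k3 14 (.d k84 k87 k168 0 13)))),
  (.s k173 k161 1 (.s k253 k1 13 (.s k93 k13 11 (.s k12 k174 12 (.s k4 k8 1 (.s k166 k247 12 (.d k89
  k81 k243 1 14)))))))] (.c k1 (.q k154 [(.s k16 k223 10 (.s k48 k32 3 (.s k101 k207 14 (.d k117 k69
  k186 3 10)))), (.s k139 k184 4 (.s k143 k176 6 (.s k131 k135 1 (.s k173 k161 1 (.d k188 k158 k150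
  4 6)))))] .n) (.c k154 (.q k218 [(.s k253 k1 13 (.s k252 k254 0 (.s k86 k3 14 (.d k84 k87 k168 0
  13)))), (.s k234 k202 3 (.s k192 k213 6 (.s k64 k128 7 (.s k106 k127 6 (.s k224 k47 10 (.s k229
  k239 2 (.d k240 k208 k207 3 6)))))))] (.c k138 (.q k186 [(.s k253 k1 13 (.s k252 k254 0 (.s k86 k3
  14 (.d k84 k87 k168 0 13)))), (.s k48 k117 10 (.s k58 k122 7 (.s k234 k202 3 (.s k213 k192 6 (.s
  k21 k149 7 (.d k63 k53 k42 2 6))))))] .n) (.c k186 (.q k138 [(.s k1 k253 13 (.s k3 k2 0 (.s k86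
  k252 14 (.d k87 k84 k171 0 13)))), (.s k207 k69 10 (.s k223 k239 3 (.s k213 k208 2 (.d k234 k202
  k192 3 6))))] .n) .n))) (.c k218 (.q k154 [(.s k1 k253 13 (.s k3 k2 0 (.s k86 k252 14 (.d k87 k84
  k171 0 13)))), (.s k16 k223 10 (.s k48 k32 3 (.s k101 k207 14 (.d k117 k69 k186 3 10))))] .n) (.c
  k253 (.q k154 [(.s k16 k223 10 (.s k48 k32 3 (.s k101 k207 14 (.d k117 k69 k186 3 10)))), (.s k139
  k184 4 (.s k143 k176 6 (.s k131 k135 1 (.s k173 k161 1 (.d k188 k158 k150 4 6)))))] (.c k241 (.q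
  k249 [(.s k89 k9 11 (.s k81 k93 1 (.s k251 k248 0 (.d k243 k247 k162 1 12)))), (.s k223 k16 10 (.s
  k207 k239 3 (.s k69 k138 10 (.d k101 k117 k48 3 14))))] .n) (.c k249 (.q k241 [(.s k161 k173 1 (.s
  k81 k1 11 (.d k89 k93 k13 1 13))), (.s k16 k223 10 (.s k48 k32 3 (.s k101 k207 14 (.d k117 k69
  k186 3 10))))] .n) .n))) .n))))) .n)))))) (.c k95 (.q k1 [(.s k169 k253 13 (.s k3 k2 0 (.s k86
  k252 14 (.d k87 k84 k171 0 13)))), (.s k5 k245 11 (.s k13 k9 1 (.s k89 k241 13 (.s k93 k81 1 (.d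
  k253 k173 k169 11 13))))), (.s k3 k2 0 (.s k5 k245 11 (.s k9 k13 1 (.s k6 k12 2 (.s k7 k4 0 (.d
  k15 k11 k10 1 2))))))] .n) (.c k160 (.l (.s k5 k245 11 (.s k15 k10 2 (.s k90 k240 14 (.d k95 k80
  k175 2 11))))) (.c k240 (.q k1 [(.s k3 k2 0 (.s k87 k171 13 (.s k86 k84 0 (.d k169 k253 k252 13
  14)))), (.s k5 k245 11 (.s k13 k9 1 (.s k89 k241 13 (.s k93 k81 1 (.d k253 k173 k169 11 13))))),
  (.s k3 k2 0 (.s k5 k245 11 (.s k9 k13 1 (.s k6 k12 2 (.s k7 k4 0 (.d k15 k11 k10 1 2))))))] .n)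
  (.c k245 (.q k253 [(.s k169 k1 13 (.s k252 k254 0 (.s k84 k168 13 (.d k86 k87 k3 0 14)))), (.s
  k169 k1 13 (.s k173 k161 1 (.s k93 k13 11 (.s k12 k174 12 (.s k4 k8 1 (.s k166 k247 12 (.d k89 k81
  k243 1 14)))))))] (.c k1 (.l (.s k252 k254 0 (.s k84 k168 13 (.s k86 k87 0 (.s k244 k7 12 (.s k240
  k248 1 (.s k80 k160 11 (.d k90 k95 k15 2 14)))))))) (.c k169 (.f k252 k254 0 (.q k86 [(.d k84 k168
  k87 13 0), (.s k244 k7 12 (.s k240 k248 1 (.s k80 k160 11 (.d k90 k95 k15 2 14))))] (.c k168 (.q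
  k171 [(.d k87 k84 k3 0 13), (.s k244 k7 12 (.s k240 k248 1 (.s k80 k160 11 (.d k90 k95 k15 2
  14))))] .n) (.c k171 (.l (.s k168 k84 13 (.s k244 k7 12 (.s k240 k248 1 (.s k80 k160 11 (.d k90
  k95 k15 2 14)))))) .n)))) .n))) (.c k250 (.l (.s k5 k245 11 (.s k15 k10 2 (.s k90 k240 14 (.d k95
  k80 k175 2 11))))) .n))))))))))))

def t26_230 : T TT 256 :=
  (.f k255 k170 14 (.q k165 [(.s k245 k5 11 (.s k240 k250 2 (.s k80 k160 11 (.d k90 k95 k15 2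
  14))))] (.c k5 (.q k93 [(.s k12 k174 12 (.s k4 k8 1 (.s k89 k81 1 (.d k166 k247 k243 12 14)))),
  (.s k89 k81 1 (.s k13 k241 13 (.s k253 k173 11 (.s k252 k254 0 (.s k84 k168 13 (.s k86 k87 0 (.d
  k169 k1 k3 13 14)))))))] (.c k81 (.l (.s k12 k174 12 (.s k4 k8 1 (.s k166 k247 12 (.s k164 k167 0
  (.s k240 k88 13 (.s k80 k160 11 (.d k90 k95 k15 2 14)))))))) (.c k89 (.f k12 k174 12 (.q k166 [(.d
  k4 k8 k247 1 12), (.s k164 k167 0 (.s k240 k88 13 (.s k80 k160 11 (.d k90 k95 k15 2 14))))] (.c k8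
  (.q k251 [(.d k247 k243 k4 1 12), (.s k164 k167 0 (.s k240 k88 13 (.s k80 k160 11 (.d k90 k95 k15
  2 14))))] .n) (.c k251 (.l (.s k8 k4 1 (.s k164 k167 0 (.s k240 k88 13 (.s k80 k160 11 (.d k90 k95
  k15 2 14)))))) .n)))) .n))) (.c k10 (.l (.s k245 k5 11 (.s k240 k250 2 (.s k90 k15 14 (.d k80 k95
  k160 2 11))))) (.c k15 (.q k37 [(.s k101 k229 7 (.s k69 k117 3 (.s k207 k138 10 (.s k154 k48 14
  (.d k223 k239 k16 3 10))))), (.s k5 k245 11 (.s k21 k53 3 (.s k63 k42 6 (.s k127 k191 7 (.s k106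
  k64 6 (.d k149 k213 k192 7 14))))))] (.c k117 (.l (.s k229 k101 7 (.s k245 k5 11 (.s k213 k197 3
  (.s k149 k21 7 (.s k192 k234 6 (.s k64 k128 7 (.d k106 k127 k63 6 14)))))))) .n)) (.c k80 (.q k1
  [(.s k169 k253 13 (.s k3 k2 0 (.s k86 k252 14 (.d k87 k84 k171 0 13)))), (.s k5 k245 11 (.s k13 k9
  1 (.s k89 k241 13 (.s k93 k81 1 (.d k253 k173 k169 11 13))))), (.s k3 k2 0 (.s k5 k245 11 (.s k9
  k13 1 (.s k6 k12 2 (.s k7 k4 0 (.d k15 k11 k10 1 2))))))] .n) (.c k90 (.f k245 k5 11 (.f k250 k240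
  2 (.q k154 [(.s k16 k223 10 (.s k48 k32 3 (.s k117 k186 10 (.d k101 k69 k207 3 14))))] (.c k16 (.q
  k21 [(.s k63 k42 6 (.s k127 k191 7 (.s k106 k64 6 (.d k149 k213 k192 7 14)))), (.s k149 k213 7 (.s
  k181 k133 3 (.s k117 k53 7 (.s k48 k186 10 (.d k101 k69 k207 3 14))))), (.s k63 k42 6 (.s k176
  k143 6 (.s k191 k127 7 (.s k186 k181 2 (.s k48 k117 10 (.d k58 k122 k53 7 2))))))] .n) (.c k32 (.l
  (.s k223 k16 10 (.s k207 k239 3 (.s k101 k48 14 (.d k69 k117 k138 3 10))))) (.c k48 (.q k21 [(.s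
  k63 k42 6 (.s k127 k191 7 (.s k106 k64 6 (.d k149 k213 k192 7 14)))), (.s k149 k213 7 (.s k159
  k144 2 (.s k223 k16 10 (.s k207 k239 3 (.d k63 k42 k111 6 11))))), (.s k63 k42 6 (.s k191 k127 7
  (.s k223 k16 10 (.s k207 k239 3 (.s k159 k111 11 (.d k143 k175 k176 3 6))))))] (.c k15 (.q k37
  [(.s k229 k101 7 (.d k213 k197 k149 3 7)), (.s k63 k42 6 (.s k127 k191 7 (.s k106 k64 6 (.d k149
  k213 k192 7 14)))), (.s k101 k229 7 (.s k69 k117 3 (.s k207 k138 10 (.d k223 k239 k16 3 10))))]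
  (.c k112 (.l (.s k176 k143 6 (.s k213 k149 7 (.d k229 k197 k101 3 7)))) (.c k176 (.q k112 [(.s
  k229 k101 7 (.d k213 k197 k149 3 7)), (.s k63 k42 6 (.s k127 k191 7 (.s k106 k64 6 (.d k149 k213
  k192 7 14)))), (.s k63 k42 6 (.s k101 k229 7 (.s k117 k69 3 (.d k127 k122 k191 2 7))))] .n) .n)))
  (.c k37 (.q k15 [(.s k223 k16 10 (.s k207 k239 3 (.d k143 k176 k79 6 7))), (.s k63 k42 6 (.s k47
  k31 3 (.s k106 k224 10 (.d k127 k64 k191 6 7))))] (.c k32 (.l (.s k63 k42 6 (.s k47 k31 3 (.s k106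
  k224 10 (.d k127 k64 k191 6 7))))) (.c k112 (.l (.s k176 k143 6 (.s k63 k42 6 (.s k47 k31 3 (.s
  k106 k224 10 (.d k127 k64 k191 6 7)))))) (.c k176 (.q k112 [(.s k63 k42 6 (.s k47 k31 3 (.s k106
  k224 10 (.d k149 k192 k213 14 7)))), (.s k95 k175 11 (.s k149 k213 7 (.s k159 k144 2 (.d k223 k31
  k16 7 10)))), (.s k63 k42 6 (.s k95 k175 11 (.s k223 k16 10 (.d k31 k47 k159 3 7))))] (.c k31 (.l
  (.s k63 k42 6 (.s k127 k191 7 (.s k106 k64 6 (.d k149 k213 k192 7 14))))) .n)) .n)))) (.c k42 (.l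
  (.s k213 k149 7 (.s k223 k16 10 (.s k234 k192 6 (.d k218 k208 k202 2 3))))) (.c k63 (.l (.s k213
  k149 7 (.s k192 k234 6 (.s k197 k229 3 (.s k207 k202 2 (.d k223 k239 k16 3 10)))))) (.c k112 (.l
  (.s k176 k143 6 (.s k63 k42 6 (.s k127 k191 7 (.s k106 k64 6 (.d k149 k213 k192 7 14)))))) (.c
  k176 (.q k112 [(.s k63 k42 6 (.s k127 k191 7 (.s k106 k64 6 (.d k149 k213 k192 7 14)))), (.s k149
  k213 7 (.s k159 k144 2 (.s k223 k16 10 (.s k207 k239 3 (.d k63 k42 k111 6 11))))), (.s k63 k42 6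
  (.s k191 k127 7 (.s k223 k16 10 (.s k207 k239 3 (.s k159 k111 11 (.s k175 k143 3 (.d k95 k15 k31
  11 7)))))))] (.c k15 (.q k37 [(.s k229 k101 7 (.d k213 k197 k149 3 7)), (.s k63 k42 6 (.s k127
  k191 7 (.s k106 k64 6 (.d k149 k213 k192 7 14)))), (.s k63 k42 6 (.s k101 k229 7 (.s k117 k69 3
  (.d k127 k122 k191 2 7))))] .n) (.c k37 (.q k15 [(.s k63 k42 6 (.s k47 k31 3 (.s k106 k224 10 (.d
  k149 k192 k213 14 7)))), (.s k95 k175 11 (.s k149 k213 7 (.s k159 k144 2 (.d k223 k31 k16 7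
  10)))), (.s k63 k42 6 (.s k95 k175 11 (.s k223 k16 10 (.d k31 k47 k159 3 7))))] (.c k31 (.l (.s
  k63 k42 6 (.s k127 k191 7 (.s k106 k64 6 (.d k149 k213 k192 7 14))))) .n)) (.c k42 (.l (.s k213
  k149 7 (.s k223 k16 10 (.s k234 k192 6 (.d k218 k208 k202 2 3))))) (.c k63 (.l (.s k213 k149 7 (.s
  k192 k234 6 (.s k197 k229 3 (.s k207 k202 2 (.d k223 k239 k16 3 10)))))) .n))))) .n))))))) (.c k69
  (.l (.s k16 k223 10 (.s k48 k32 3 (.s k101 k207 14 (.s k117 k186 10 (.s k53 k181 7 (.s k197 k149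
  11 (.d k229 k213 k37 3 7)))))))) (.c k101 (.q k48 [(.d k16 k32 k223 3 10), (.s k176 k143 6 (.s
  k186 k117 10 (.s k58 k122 7 (.s k63 k53 2 (.d k191 k181 k127 2 7)))))] (.c k32 (.q k239 [(.d k223
  k207 k16 3 10), (.s k176 k143 6 (.s k186 k117 10 (.s k58 k122 7 (.s k63 k53 2 (.d k191 k181 k127 2
  7)))))] (.c k79 (.q k112 [(.d k223 k207 k16 3 10), (.s k117 k186 10 (.s k53 k181 7 (.s k63 k58 2
  (.d k127 k122 k191 2 7))))] .n) (.c k112 (.q k79 [(.d k223 k207 k16 3 10), (.s k117 k186 10 (.s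
  k181 k53 7 (.s k149 k133 3 (.s k144 k159 2 (.s k192 k96 11 (.d k213 k21 k234 7 6))))))] .n) .n)))
  (.c k79 (.q k112 [(.d k16 k32 k223 3 10), (.s k117 k186 10 (.s k53 k181 7 (.s k63 k58 2 (.d k127
  k122 k191 2 7))))] (.c k32 (.q k239 [(.d k223 k207 k16 3 10), (.s k117 k186 10 (.s k53 k181 7 (.s
  k63 k58 2 (.d k127 k122 k191 2 7))))] .n) (.c k239 (.l (.s k32 k16 3 (.s k117 k186 10 (.s k53 k181
  7 (.s k63 k58 2 (.d k127 k122 k191 2 7)))))) .n))) (.c k112 (.q k79 [(.d k16 k32 k223 3 10), (.s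
  k117 k186 10 (.s k143 k176 6 (.s k181 k53 7 (.s k207 k15 7 (.s k138 k69 10 (.d k133 k149 k128 3
  2))))))] (.c k32 (.q k239 [(.d k223 k207 k16 3 10), (.s k117 k186 10 (.s k181 k53 7 (.s k149 k133
  3 (.s k144 k159 2 (.s k192 k96 11 (.d k213 k21 k234 7 6))))))] .n) (.c k239 (.l (.s k32 k16 3 (.s
  k117 k186 10 (.s k143 k176 6 (.s k181 k53 7 (.s k207 k15 7 (.s k138 k69 10 (.d k133 k149 k128 3
  2)))))))) .n))) (.c k239 (.l (.s k32 k16 3 (.s k176 k143 6 (.s k186 k117 10 (.s k58 k122 7 (.s k63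
  k53 2 (.d k191 k181 k127 2 7))))))) .n))))) (.c k117 (.q k1 [(.s k3 k2 0 (.s k87 k171 13 (.s k86
  k84 0 (.d k169 k253 k252 13 14)))), (.s k253 k169 13 (.s k241 k249 1 (.s k89 k13 13 (.d k81 k93
  k161 1 11)))), (.s k3 k2 0 (.s k16 k223 10 (.s k48 k32 3 (.s k18 k33 4 (.s k86 k222 9 (.d k87 k84
  k171 0 13))))))] (.c k171 (.l (.s k3 k2 0 (.s k169 k253 13 (.s k139 k184 4 (.s k207 k71 9 (.d k223
  k239 k16 3 10)))))) .n)) (.c k186 (.l (.s k223 k16 10 (.s k207 k239 3 (.s k69 k138 10 (.d k101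
  k117 k48 3 14))))) (.c k207 (.l (.s k16 k223 10 (.s k48 k32 3 (.s k117 k186 10 (.s k53 k181 7 (.s
  k101 k69 3 (.s k197 k149 11 (.d k229 k213 k37 3 7)))))))) (.c k223 (.q k21 [(.s k63 k42 6 (.s k127
  k191 7 (.s k106 k64 6 (.d k149 k213 k192 7 14)))), (.s k149 k213 7 (.s k181 k133 3 (.s k117 k53 7
  (.s k48 k186 10 (.d k101 k69 k207 3 14))))), (.s k63 k42 6 (.s k176 k143 6 (.s k191 k127 7 (.s
  k186 k181 2 (.s k48 k117 10 (.d k58 k122 k53 7 2))))))] .n) (.c k239 (.l (.s k16 k223 10 (.s k48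
  k32 3 (.s k101 k207 14 (.d k117 k69 k186 3 10))))) .n))))))))))))) (.c k95 (.q k1 [(.s k169 k253
  13 (.s k3 k2 0 (.s k86 k252 14 (.d k87 k84 k171 0 13)))), (.s k5 k245 11 (.s k13 k9 1 (.s k89 k241
  13 (.s k93 k81 1 (.d k253 k173 k169 11 13))))), (.s k3 k2 0 (.s k5 k245 11 (.s k9 k13 1 (.s k6 k12
  2 (.s k7 k4 0 (.d k15 k11 k10 1 2))))))] .n) (.c k160 (.l (.s k5 k245 11 (.s k15 k10 2 (.s k90
  k240 14 (.d k95 k80 k175 2 11))))) (.c k240 (.q k1 [(.s k3 k2 0 (.s k87 k171 13 (.s k86 k84 0 (.d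
  k169 k253 k252 13 14)))), (.s k5 k245 11 (.s k13 k9 1 (.s k89 k241 13 (.s k93 k81 1 (.d k253 k173
  k169 11 13))))), (.s k3 k2 0 (.s k5 k245 11 (.s k9 k13 1 (.s k6 k12 2 (.s k7 k4 0 (.d k15 k11 k10
  1 2))))))] .n) (.c k245 (.q k253 [(.s k169 k1 13 (.s k252 k254 0 (.s k84 k168 13 (.d k86 k87 k3 0
  14)))), (.s k169 k1 13 (.s k173 k161 1 (.s k93 k13 11 (.s k12 k174 12 (.s k4 k8 1 (.s k166 k247 12
  (.d k89 k81 k243 1 14)))))))] (.c k1 (.l (.s k252 k254 0 (.s k84 k168 13 (.s k86 k87 0 (.s k244 k7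
  12 (.s k240 k248 1 (.s k80 k160 11 (.d k90 k95 k15 2 14)))))))) (.c k169 (.f k252 k254 0 (.q k86
  [(.d k84 k168 k87 13 0), (.s k244 k7 12 (.s k240 k248 1 (.s k80 k160 11 (.d k90 k95 k15 2 14))))]
  (.c k168 (.q k171 [(.d k87 k84 k3 0 13), (.s k244 k7 12 (.s k240 k248 1 (.s k80 k160 11 (.d k90
  k95 k15 2 14))))] .n) (.c k171 (.l (.s k168 k84 13 (.s k244 k7 12 (.s k240 k248 1 (.s k80 k160 11
  (.d k90 k95 k15 2 14)))))) .n)))) .n))) (.c k250 (.l (.s k5 k245 11 (.s k15 k10 2 (.s k90 k240 14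
  (.d k95 k80 k175 2 11))))) .n))))))))))))

def t26_231 : T TT 256 :=
  (.f k255 k170 14 (.q k165 [(.s k245 k5 11 (.s k240 k250 2 (.s k80 k160 11 (.d k90 k95 k15 2
  14))))] (.c k5 (.q k93 [(.s k12 k174 12 (.s k4 k8 1 (.s k89 k81 1 (.d k166 k247 k243 12 14)))),
  (.s k89 k81 1 (.s k13 k241 13 (.s k253 k173 11 (.s k252 k254 0 (.s k84 k168 13 (.s k86 k87 0 (.d
  k169 k1 k3 13 14)))))))] (.c k81 (.l (.s k12 k174 12 (.s k4 k8 1 (.s k166 k247 12 (.s k164 k167 0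
  (.s k240 k88 13 (.s k80 k160 11 (.d k90 k95 k15 2 14)))))))) (.c k89 (.f k12 k174 12 (.q k166 [(.d
  k4 k8 k247 1 12), (.s k164 k167 0 (.s k240 k88 13 (.s k80 k160 11 (.d k90 k95 k15 2 14))))] (.c k8
  (.q k251 [(.d k247 k243 k4 1 12), (.s k164 k167 0 (.s k240 k88 13 (.s k80 k160 11 (.d k90 k95 k15
  2 14))))] .n) (.c k251 (.l (.s k8 k4 1 (.s k164 k167 0 (.s k240 k88 13 (.s k80 k160 11 (.d k90 k95
  k15 2 14)))))) .n)))) .n))) (.c k10 (.l (.s k245 k5 11 (.s k240 k250 2 (.s k90 k15 14 (.d k80 k95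
  k160 2 11))))) (.c k15 (.q k37 [(.s k101 k229 7 (.s k69 k117 3 (.s k207 k138 10 (.s k154 k48 14
  (.d k223 k239 k16 3 10))))), (.s k5 k245 11 (.s k21 k53 3 (.s k63 k42 6 (.s k127 k191 7 (.s k106
  k64 6 (.d k149 k213 k192 7 14))))))] (.c k117 (.l (.s k229 k101 7 (.s k245 k5 11 (.s k213 k197 3
  (.s k149 k21 7 (.s k192 k234 6 (.s k64 k128 7 (.d k106 k127 k63 6 14)))))))) .n)) (.c k80 (.q k1
  [(.s k169 k253 13 (.s k3 k2 0 (.s k86 k252 14 (.d k87 k84 k171 0 13)))), (.s k5 k245 11 (.s k13 k9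
  1 (.s k89 k241 13 (.s k93 k81 1 (.d k253 k173 k169 11 13))))), (.s k3 k2 0 (.s k5 k245 11 (.s k9
  k13 1 (.s k6 k12 2 (.s k7 k4 0 (.d k15 k11 k10 1 2))))))] .n) (.c k90 (.q k250 [(.d k245 k240 k5 2
  11)] (.c k5 (.q k154 [(.s k16 k223 10 (.s k176 k143 6 (.s k240 k245 2 (.d k48 k32 k112 3 7)))),
  (.s k16 k223 10 (.s k48 k32 3 (.s k101 k207 14 (.d k117 k69 k186 3 10)))), (.s k176 k143 6 (.s
  k240 k245 2 (.s k48 k112 7 (.s k101 k207 14 (.d k117 k69 k186 3 10)))))] (.c k48 (.l (.s k223 k16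
  10 (.s k207 k239 3 (.s k69 k138 10 (.s k101 k117 3 (.s k240 k245 2 (.d k229 k218 k37 6 7)))))))
  .n)) (.c k154 (.q k218 [(.d k245 k240 k5 2 11)] (.c k5 (.l (.s k234 k202 3 (.s k192 k213 6 (.s
  k240 k245 2 (.s k224 k208 3 (.d k229 k239 k207 2 6)))))) (.c k138 (.q k186 [(.d k245 k240 k5 2
  11), (.s k48 k117 10 (.s k58 k122 7 (.s k234 k202 3 (.s k213 k192 6 (.s k21 k149 7 (.d k63 k53 k42
  2 6))))))] .n) (.c k186 (.q k138 [(.d k245 k240 k5 2 11), (.s k207 k69 10 (.s k223 k239 3 (.s k213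
  k208 2 (.d k234 k202 k192 3 6))))] .n) (.c k240 (.l (.s k234 k202 3 (.s k213 k192 6 (.s k149 k21 7
  (.s k181 k133 3 (.s k245 k5 11 (.s k53 k117 7 (.d k197 k229 k101 3 11)))))))) (.c k245 (.l (.s
  k234 k202 3 (.s k192 k213 6 (.s k64 k128 7 (.s k106 k127 6 (.s k224 k47 10 (.s k229 k239 2 (.d
  k240 k208 k207 3 6)))))))) .n)))))) (.c k218 (.q k154 [(.d k245 k240 k5 2 11), (.s k16 k223 10 (.s
  k48 k32 3 (.s k117 k186 10 (.d k101 k69 k207 3 14))))] .n) (.c k240 (.q k154 [(.s k16 k223 10 (.s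
  k48 k32 3 (.s k117 k186 10 (.d k101 k69 k207 3 14)))), (.s k5 k245 11 (.s k15 k10 2 (.s k143 k176
  6 (.s k207 k79 7 (.s k69 k138 10 (.d k101 k48 k117 14 3)))))), (.s k5 k245 11 (.s k15 k10 2 (.s
  k223 k16 10 (.s k207 k239 3 (.d k143 k176 k79 6 7)))))] (.c k101 (.l (.s k5 k245 11 (.s k15 k10 2
  (.s k143 k176 6 (.s k223 k16 10 (.d k207 k239 k79 3 7)))))) (.c k207 (.l (.s k16 k223 10 (.s k48
  k32 3 (.s k176 k143 6 (.s k186 k117 10 (.s k58 k122 7 (.s k63 k53 2 (.d k191 k181 k127 2 7))))))))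
  .n))) (.c k245 (.q k169 [(.s k253 k1 13 (.s k252 k254 0 (.s k86 k3 14 (.d k84 k87 k168 0 13)))),
  (.s k173 k161 1 (.s k253 k1 13 (.s k93 k13 11 (.s k12 k174 12 (.s k4 k8 1 (.s k166 k247 12 (.d k89
  k81 k243 1 14)))))))] (.c k1 (.q k154 [(.s k16 k223 10 (.s k48 k32 3 (.s k117 k186 10 (.d k101 k69
  k207 3 14)))), (.s k139 k184 4 (.s k143 k176 6 (.s k131 k135 1 (.s k173 k161 1 (.d k188 k158 k150
  4 6)))))] .n) (.c k154 (.q k218 [(.s k253 k1 13 (.s k252 k254 0 (.s k86 k3 14 (.d k84 k87 k168 0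
  13)))), (.s k234 k202 3 (.s k192 k213 6 (.s k64 k128 7 (.s k106 k127 6 (.s k224 k47 10 (.s k229
  k239 2 (.d k240 k208 k207 3 6)))))))] (.c k138 (.q k186 [(.s k253 k1 13 (.s k252 k254 0 (.s k86 k3
  14 (.d k84 k87 k168 0 13)))), (.s k48 k117 10 (.s k58 k122 7 (.s k234 k202 3 (.s k213 k192 6 (.s
  k21 k149 7 (.d k63 k53 k42 2 6))))))] .n) (.c k186 (.q k138 [(.s k1 k253 13 (.s k3 k2 0 (.s k86
  k252 14 (.d k87 k84 k171 0 13)))), (.s k207 k69 10 (.s k223 k239 3 (.s k213 k208 2 (.d k234 k202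
  k192 3 6))))] .n) .n))) (.c k218 (.q k154 [(.s k1 k253 13 (.s k3 k2 0 (.s k86 k252 14 (.d k87 k84
  k171 0 13)))), (.s k16 k223 10 (.s k48 k32 3 (.s k101 k207 14 (.d k117 k69 k186 3 10))))] .n) (.c
  k253 (.q k154 [(.s k16 k223 10 (.s k48 k32 3 (.s k117 k186 10 (.d k101 k69 k207 3 14)))), (.s k139
  k184 4 (.s k143 k176 6 (.s k131 k135 1 (.s k173 k161 1 (.d k188 k158 k150 4 6)))))] (.c k241 (.q
  k249 [(.s k16 k223 10 (.s k48 k32 3 (.s k117 k186 10 (.d k101 k69 k207 3 14)))), (.s k89 k9 11 (.s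
  k81 k93 1 (.s k243 k162 12 (.d k251 k248 k247 0 1))))] .n) (.c k249 (.q k241 [(.s k161 k173 1 (.s
  k81 k1 11 (.d k89 k93 k13 1 13))), (.s k16 k223 10 (.s k48 k32 3 (.s k101 k207 14 (.d k117 k69
  k186 3 10))))] .n) .n))) .n))))) .n)))))) (.c k95 (.q k1 [(.s k169 k253 13 (.s k3 k2 0 (.s k86
  k252 14 (.d k87 k84 k171 0 13)))), (.s k5 k245 11 (.s k13 k9 1 (.s k89 k241 13 (.s k93 k81 1 (.d
  k253 k173 k169 11 13))))), (.s k3 k2 0 (.s k5 k245 11 (.s k9 k13 1 (.s k6 k12 2 (.s k7 k4 0 (.d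
  k15 k11 k10 1 2))))))] .n) (.c k160 (.l (.s k5 k245 11 (.s k15 k10 2 (.s k90 k240 14 (.d k95 k80
  k175 2 11))))) (.c k240 (.q k1 [(.s k3 k2 0 (.s k87 k171 13 (.s k86 k84 0 (.d k169 k253 k252 13
  14)))), (.s k5 k245 11 (.s k13 k9 1 (.s k89 k241 13 (.s k93 k81 1 (.d k253 k173 k169 11 13))))),
  (.s k3 k2 0 (.s k5 k245 11 (.s k9 k13 1 (.s k6 k12 2 (.s k7 k4 0 (.d k15 k11 k10 1 2))))))] .n)
  (.c k245 (.q k253 [(.s k169 k1 13 (.s k252 k254 0 (.s k84 k168 13 (.d k86 k87 k3 0 14)))), (.s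
  k169 k1 13 (.s k173 k161 1 (.s k93 k13 11 (.s k12 k174 12 (.s k4 k8 1 (.s k166 k247 12 (.d k89 k81
  k243 1 14)))))))] (.c k1 (.l (.s k252 k254 0 (.s k84 k168 13 (.s k86 k87 0 (.s k244 k7 12 (.s k240
  k248 1 (.s k80 k160 11 (.d k90 k95 k15 2 14)))))))) (.c k169 (.f k252 k254 0 (.q k86 [(.d k84 k168
  k87 13 0), (.s k244 k7 12 (.s k240 k248 1 (.s k80 k160 11 (.d k90 k95 k15 2 14))))] (.c k168 (.q
  k171 [(.d k87 k84 k3 0 13), (.s k244 k7 12 (.s k240 k248 1 (.s k80 k160 11 (.d k90 k95 k15 2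
  14))))] .n) (.c k171 (.l (.s k168 k84 13 (.s k244 k7 12 (.s k240 k248 1 (.s k80 k160 11 (.d k90
  k95 k15 2 14)))))) .n)))) .n))) (.c k250 (.l (.s k5 k245 11 (.s k15 k10 2 (.s k90 k240 14 (.d k95
  k80 k175 2 11))))) .n))))))))))))

def t26_234 : T TT 256 :=
  (.q k86 [(.s k84 k87 0 (.s k252 k168 13 (.s k169 k3 14 (.s k253 k1 13 (.d k255 k254 k170 0
  14)))))] (.c k1 (.q k4 [(.s k12 k8 1 (.s k166 k247 12 (.s k89 k243 14 (.s k93 k81 1 (.d k255 k174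
  k170 12 14))))), (.s k84 k87 0 (.s k166 k247 12 (.s k6 k246 11 (.s k7 k5 0 (.d k244 k164 k165 11
  12))))), (.s k12 k8 1 (.s k84 k87 0 (.s k164 k244 11 (.s k88 k240 13 (.s k92 k80 1 (.d k252 k172
  k168 11 13))))))] .n) (.c k3 (.q k4 [(.s k12 k8 1 (.s k166 k247 12 (.s k89 k243 14 (.s k93 k81 1
  (.d k255 k174 k170 12 14))))), (.s k84 k87 0 (.s k166 k247 12 (.s k6 k246 11 (.s k7 k5 0 (.d k244
  k164 k165 11 12))))), (.s k12 k8 1 (.s k84 k87 0 (.s k164 k244 11 (.s k88 k240 13 (.s k92 k80 1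
  (.d k252 k172 k168 11 13))))))] (.c k255 (.l (.s k87 k84 0 (.s k247 k166 12 (.s k7 k167 11 (.s k5
  k6 0 (.d k165 k245 k244 11 12)))))) .n)) (.c k84 (.q k4 [(.s k12 k8 1 (.s k166 k247 12 (.s k89
  k243 14 (.s k93 k81 1 (.d k255 k174 k170 12 14))))), (.s k12 k8 1 (.s k166 k247 12 (.s k6 k246 11
  (.s k3 k9 2 (.s k1 k2 0 (.d k169 k253 k252 13 14)))))), (.s k166 k247 12 (.s k6 k246 11 (.s k5 k7
  0 (.s k10 k15 2 (.s k170 k255 14 (.d k2 k14 k254 1 13)))))), (.s k12 k8 1 (.s k170 k255 14 (.s k2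
  k254 13 (.s k3 k1 0 (.s k6 k9 2 (.s k5 k7 0 (.d k10 k14 k15 1 2)))))))] .n) (.c k87 (.q k4 [(.s
  k12 k8 1 (.s k166 k247 12 (.s k89 k243 14 (.s k93 k81 1 (.d k255 k174 k170 12 14))))), (.s k12 k8
  1 (.s k166 k247 12 (.s k6 k246 11 (.s k3 k9 2 (.s k1 k2 0 (.d k169 k253 k252 13 14)))))), (.s k12
  k8 1 (.s k170 k255 14 (.s k2 k254 13 (.s k3 k1 0 (.s k6 k9 2 (.s k10 k14 1 (.d k5 k7 k15 0
  2))))))), (.s k166 k247 12 (.s k6 k246 11 (.s k170 k255 14 (.s k2 k254 13 (.s k10 k14 1 (.d k5 k7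
  k15 0 2))))))] (.c k7 (.l (.s k12 k8 1 (.s k255 k170 14 (.s k93 k174 12 (.s k89 k81 1 (.d k166
  k247 k243 12 14)))))) .n)) (.c k168 (.l (.s k87 k84 0 (.s k255 k170 14 (.s k3 k171 13 (.s k169
  k252 14 (.d k1 k2 k253 0 13)))))) (.c k169 (.q k4 [(.s k12 k8 1 (.s k166 k247 12 (.s k89 k243 14
  (.s k93 k81 1 (.d k255 k174 k170 12 14))))), (.s k84 k87 0 (.s k166 k247 12 (.s k6 k246 11 (.s k7
  k5 0 (.d k244 k164 k165 11 12))))), (.s k12 k8 1 (.s k84 k87 0 (.s k164 k244 11 (.s k88 k240 13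
  (.s k92 k80 1 (.d k252 k172 k168 11 13))))))] .n) (.c k170 (.q k106 [(.s k64 k127 6 (.s k66 k126 5
  (.s k67 k65 0 (.s k84 k87 0 (.d k124 k104 k105 5 6))))), (.s k84 k87 0 (.s k126 k66 5 (.s k252
  k168 13 (.s k63 k189 8 (.s k21 k42 6 (.d k149 k213 k192 7 14)))))), (.s k64 k127 6 (.s k84 k87 0
  (.s k192 k128 7 (.s k149 k63 14 (.s k212 k23 8 (.d k252 k232 k168 5 13)))))), (.s k64 k127 6 (.s
  k66 k126 5 (.s k192 k128 7 (.s k3 k129 8 (.s k1 k2 0 (.d k169 k253 k252 13 14))))))] .n) (.c k171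
  (.l (.s k84 k87 0 (.s k252 k168 13 (.s k3 k169 14 (.s k170 k255 14 (.d k2 k1 k254 0 13)))))) (.c
  k252 (.q k5 [(.s k87 k84 0 (.s k165 k245 11 (.s k7 k244 12 (.s k4 k6 0 (.d k247 k167 k166 11
  12))))), (.s k15 k10 2 (.s k165 k245 11 (.s k170 k255 14 (.s k160 k175 2 (.d k240 k80 k90 11
  14))))), (.s k15 k10 2 (.s k87 k84 0 (.s k255 k170 14 (.s k3 k171 13 (.s k7 k11 1 (.s k4 k6 0 (.d
  k247 k167 k166 11 12)))))))] .n) (.c k253 (.l (.s k84 k87 0 (.s k170 k255 14 (.s k2 k254 13 (.s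
  k252 k168 13 (.d k3 k1 k169 0 14)))))) (.c k254 (.l (.s k87 k84 0 (.s k255 k170 14 (.s k3 k171 13
  (.s k1 k2 0 (.d k169 k253 k252 13 14)))))) (.c k255 (.q k192 [(.s k64 k128 7 (.s k84 k87 0 (.s
  k104 k124 5 (.s k60 k148 13 (.s k40 k20 5 (.d k168 k232 k252 7 13)))))), (.s k64 k128 7 (.s k106
  k127 6 (.s k66 k126 5 (.s k3 k129 8 (.s k1 k2 0 (.d k169 k253 k252 13 14)))))), (.s k84 k87 0 (.s
  k252 k168 13 (.s k212 k232 5 (.s k149 k23 8 (.s k21 k213 7 (.d k63 k42 k106 6 14)))))), (.s k64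
  k128 7 (.s k87 k84 0 (.s k127 k106 6 (.s k67 k107 5 (.s k65 k66 0 (.d k105 k125 k124 5 6))))))]
  .n) .n)))))))))))))

def t26_235 : T TT 256 :=
  (.q k86 [(.s k84 k87 0 (.s k252 k168 13 (.s k169 k3 14 (.s k253 k1 13 (.d k255 k254 k170 0
  14)))))] (.c k1 (.q k4 [(.s k12 k8 1 (.s k166 k247 12 (.s k89 k243 14 (.s k93 k81 1 (.d k255 k174
  k170 12 14))))), (.s k84 k87 0 (.s k166 k247 12 (.s k6 k246 11 (.s k7 k5 0 (.d k244 k164 k165 11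
  12))))), (.s k12 k8 1 (.s k84 k87 0 (.s k164 k244 11 (.s k88 k240 13 (.s k92 k80 1 (.d k252 k172
  k168 11 13))))))] .n) (.c k3 (.q k4 [(.s k12 k8 1 (.s k166 k247 12 (.s k89 k243 14 (.s k93 k81 1
  (.d k255 k174 k170 12 14))))), (.s k84 k87 0 (.s k166 k247 12 (.s k6 k246 11 (.s k7 k5 0 (.d k244
  k164 k165 11 12))))), (.s k12 k8 1 (.s k84 k87 0 (.s k164 k244 11 (.s k88 k240 13 (.s k92 k80 1
  (.d k252 k172 k168 11 13))))))] (.c k255 (.l (.s k87 k84 0 (.s k247 k166 12 (.s k7 k167 11 (.s k5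
  k6 0 (.d k165 k245 k244 11 12)))))) .n)) (.c k84 (.q k4 [(.s k12 k8 1 (.s k166 k247 12 (.s k89
  k243 14 (.s k93 k81 1 (.d k255 k174 k170 12 14))))), (.s k12 k8 1 (.s k166 k247 12 (.s k6 k246 11
  (.s k3 k9 2 (.s k1 k2 0 (.d k169 k253 k252 13 14)))))), (.s k166 k247 12 (.s k6 k246 11 (.s k5 k7
  0 (.s k10 k15 2 (.s k170 k255 14 (.d k2 k14 k254 1 13)))))), (.s k12 k8 1 (.s k170 k255 14 (.s k2
  k254 13 (.s k3 k1 0 (.s k6 k9 2 (.s k5 k7 0 (.d k10 k14 k15 1 2)))))))] .n) (.c k87 (.q k4 [(.s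
  k12 k8 1 (.s k166 k247 12 (.s k89 k243 14 (.s k93 k81 1 (.d k255 k174 k170 12 14))))), (.s k12 k8
  1 (.s k166 k247 12 (.s k6 k246 11 (.s k3 k9 2 (.s k1 k2 0 (.d k169 k253 k252 13 14)))))), (.s k12
  k8 1 (.s k170 k255 14 (.s k2 k254 13 (.s k3 k1 0 (.s k6 k9 2 (.s k10 k14 1 (.d k5 k7 k15 0
  2))))))), (.s k166 k247 12 (.s k6 k246 11 (.s k170 k255 14 (.s k2 k254 13 (.s k10 k14 1 (.d k5 k7
  k15 0 2))))))] (.c k7 (.l (.s k12 k8 1 (.s k255 k170 14 (.s k93 k174 12 (.s k89 k81 1 (.d k166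
  k247 k243 12 14)))))) .n)) (.c k168 (.l (.s k87 k84 0 (.s k255 k170 14 (.s k3 k171 13 (.s k169
  k252 14 (.d k1 k2 k253 0 13)))))) (.c k169 (.q k4 [(.s k12 k8 1 (.s k166 k247 12 (.s k89 k243 14
  (.s k93 k81 1 (.d k255 k174 k170 12 14))))), (.s k84 k87 0 (.s k166 k247 12 (.s k6 k246 11 (.s k7
  k5 0 (.d k244 k164 k165 11 12))))), (.s k12 k8 1 (.s k84 k87 0 (.s k164 k244 11 (.s k88 k240 13
  (.s k92 k80 1 (.d k252 k172 k168 11 13))))))] .n) (.c k170 (.q k105 [(.s k65 k125 5 (.s k67 k124 6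
  (.s k64 k66 0 (.s k87 k84 0 (.d k127 k107 k106 5 6))))), (.s k65 k125 5 (.s k84 k87 0 (.s k195
  k130 8 (.s k150 k60 14 (.s k214 k22 7 (.d k252 k233 k168 6 13)))))), (.s k84 k87 0 (.s k124 k67 6
  (.s k252 k168 13 (.s k60 k188 7 (.s k20 k40 5 (.d k150 k215 k195 8 14)))))), (.s k65 k125 5 (.s
  k67 k124 6 (.s k195 k130 8 (.s k3 k131 7 (.s k1 k2 0 (.d k169 k253 k252 13 14))))))] .n) (.c k171
  (.l (.s k84 k87 0 (.s k252 k168 13 (.s k3 k169 14 (.s k170 k255 14 (.d k2 k1 k254 0 13)))))) (.c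
  k252 (.q k5 [(.s k87 k84 0 (.s k165 k245 11 (.s k7 k244 12 (.s k4 k6 0 (.d k247 k167 k166 11
  12))))), (.s k15 k10 2 (.s k165 k245 11 (.s k170 k255 14 (.s k160 k175 2 (.d k240 k80 k90 11
  14))))), (.s k15 k10 2 (.s k87 k84 0 (.s k255 k170 14 (.s k3 k171 13 (.s k7 k11 1 (.s k4 k6 0 (.d
  k247 k167 k166 11 12)))))))] .n) (.c k253 (.l (.s k84 k87 0 (.s k170 k255 14 (.s k2 k254 13 (.s
  k252 k168 13 (.d k3 k1 k169 0 14)))))) (.c k254 (.l (.s k87 k84 0 (.s k255 k170 14 (.s k3 k171 13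
  (.s k1 k2 0 (.d k169 k253 k252 13 14)))))) (.c k255 (.q k195 [(.s k65 k130 8 (.s k84 k87 0 (.s
  k105 k125 5 (.s k60 k150 14 (.s k252 k168 13 (.d k124 k67 k188 6 7)))))), (.s k84 k87 0 (.s k252
  k168 13 (.s k214 k233 6 (.s k150 k22 7 (.s k20 k215 8 (.d k60 k40 k105 5 14)))))), (.s k65 k130 8
  (.s k87 k84 0 (.s k105 k125 5 (.s k67 k124 6 (.s k64 k66 0 (.d k127 k107 k106 5 6)))))), (.s k65
  k130 8 (.s k105 k125 5 (.s k67 k124 6 (.s k3 k131 7 (.s k1 k2 0 (.d k169 k253 k252 13 14))))))]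
  (.c k60 (.l (.s k65 k130 8 (.s k84 k87 0 (.s k252 k168 13 (.s k3 k169 14 (.s k67 k131 7 (.d k105
  k125 k124 5 6))))))) (.c k105 (.f k65 k130 8 (.l (.s k84 k87 0 (.s k252 k168 13 (.s k3 k169 14 (.s
  k1 k2 0 (.s k67 k131 7 (.s k66 k64 0 (.d k129 k193 k192 7 8))))))))) .n))) .n)))))))))))))

def t26_239 : T TT 256 :=
  (.q k86 [(.s k84 k87 0 (.s k252 k168 13 (.s k169 k3 14 (.s k253 k1 13 (.d k255 k254 k170 0
  14)))))] (.c k1 (.q k4 [(.s k12 k8 1 (.s k166 k247 12 (.s k89 k243 14 (.s k93 k81 1 (.d k255 k174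
  k170 12 14))))), (.s k84 k87 0 (.s k166 k247 12 (.s k6 k246 11 (.s k7 k5 0 (.d k244 k164 k165 11
  12))))), (.s k12 k8 1 (.s k84 k87 0 (.s k164 k244 11 (.s k88 k240 13 (.s k92 k80 1 (.d k252 k172
  k168 11 13))))))] .n) (.c k3 (.q k4 [(.s k12 k8 1 (.s k166 k247 12 (.s k89 k243 14 (.s k93 k81 1
  (.d k255 k174 k170 12 14))))), (.s k84 k87 0 (.s k166 k247 12 (.s k6 k246 11 (.s k7 k5 0 (.d k244
  k164 k165 11 12))))), (.s k12 k8 1 (.s k84 k87 0 (.s k164 k244 11 (.s k88 k240 13 (.s k92 k80 1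
  (.d k252 k172 k168 11 13))))))] (.c k255 (.l (.s k87 k84 0 (.s k247 k166 12 (.s k7 k167 11 (.s k5
  k6 0 (.d k165 k245 k244 11 12)))))) .n)) (.c k84 (.q k4 [(.s k12 k8 1 (.s k166 k247 12 (.s k89
  k243 14 (.s k93 k81 1 (.d k255 k174 k170 12 14))))), (.s k12 k8 1 (.s k166 k247 12 (.s k6 k246 11
  (.s k3 k9 2 (.s k1 k2 0 (.d k169 k253 k252 13 14)))))), (.s k166 k247 12 (.s k6 k246 11 (.s k5 k7
  0 (.s k10 k15 2 (.s k170 k255 14 (.d k2 k14 k254 1 13)))))), (.s k12 k8 1 (.s k170 k255 14 (.s k2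
  k254 13 (.s k3 k1 0 (.s k6 k9 2 (.s k5 k7 0 (.d k10 k14 k15 1 2)))))))] .n) (.c k87 (.q k4 [(.s
  k12 k8 1 (.s k166 k247 12 (.s k89 k243 14 (.s k93 k81 1 (.d k255 k174 k170 12 14))))), (.s k12 k8
  1 (.s k166 k247 12 (.s k6 k246 11 (.s k3 k9 2 (.s k1 k2 0 (.d k169 k253 k252 13 14)))))), (.s k12
  k8 1 (.s k170 k255 14 (.s k2 k254 13 (.s k3 k1 0 (.s k6 k9 2 (.s k10 k14 1 (.d k5 k7 k15 0
  2))))))), (.s k166 k247 12 (.s k6 k246 11 (.s k170 k255 14 (.s k2 k254 13 (.s k10 k14 1 (.d k5 k7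
  k15 0 2))))))] (.c k7 (.l (.s k12 k8 1 (.s k255 k170 14 (.s k93 k174 12 (.s k89 k81 1 (.d k166
  k247 k243 12 14)))))) .n)) (.c k168 (.l (.s k87 k84 0 (.s k255 k170 14 (.s k3 k171 13 (.s k169
  k252 14 (.d k1 k2 k253 0 13)))))) (.c k169 (.q k4 [(.s k12 k8 1 (.s k166 k247 12 (.s k89 k243 14
  (.s k93 k81 1 (.d k255 k174 k170 12 14))))), (.s k84 k87 0 (.s k166 k247 12 (.s k6 k246 11 (.s k7
  k5 0 (.d k244 k164 k165 11 12))))), (.s k12 k8 1 (.s k84 k87 0 (.s k164 k244 11 (.s k88 k240 13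
  (.s k92 k80 1 (.d k252 k172 k168 11 13))))))] .n) (.c k170 (.q k101 [(.s k69 k117 3 (.s k71 k116 4
  (.s k68 k70 0 (.s k87 k84 0 (.d k119 k103 k102 3 4))))), (.s k69 k117 3 (.s k84 k87 0 (.s k207
  k138 10 (.s k154 k48 14 (.s k222 k18 9 (.d k252 k237 k168 4 13)))))), (.s k84 k87 0 (.s k116 k71 4
  (.s k252 k168 13 (.s k48 k184 9 (.s k16 k32 3 (.d k154 k223 k207 10 14)))))), (.s k69 k117 3 (.s
  k71 k116 4 (.s k207 k138 10 (.s k3 k139 9 (.s k1 k2 0 (.d k169 k253 k252 13 14))))))] .n) (.c k171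
  (.l (.s k84 k87 0 (.s k252 k168 13 (.s k3 k169 14 (.s k170 k255 14 (.d k2 k1 k254 0 13)))))) (.c
  k252 (.q k5 [(.s k87 k84 0 (.s k165 k245 11 (.s k7 k244 12 (.s k4 k6 0 (.d k247 k167 k166 11
  12))))), (.s k15 k10 2 (.s k165 k245 11 (.s k170 k255 14 (.s k160 k175 2 (.d k240 k80 k90 11
  14))))), (.s k15 k10 2 (.s k87 k84 0 (.s k255 k170 14 (.s k3 k171 13 (.s k7 k11 1 (.s k4 k6 0 (.d
  k247 k167 k166 11 12)))))))] .n) (.c k253 (.l (.s k84 k87 0 (.s k170 k255 14 (.s k2 k254 13 (.s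
  k252 k168 13 (.d k3 k1 k169 0 14)))))) (.c k254 (.l (.s k87 k84 0 (.s k255 k170 14 (.s k3 k171 13
  (.s k1 k2 0 (.d k169 k253 k252 13 14)))))) (.c k255 (.q k207 [(.s k69 k138 10 (.s k84 k87 0 (.s
  k101 k117 3 (.s k252 k168 13 (.s k222 k237 4 (.d k154 k48 k18 14 9)))))), (.s k69 k138 10 (.s k87
  k84 0 (.s k101 k117 3 (.s k71 k116 4 (.s k68 k70 0 (.d k119 k103 k102 3 4)))))), (.s k84 k87 0 (.s
  k252 k168 13 (.s k222 k237 4 (.s k154 k18 9 (.s k16 k223 10 (.d k48 k32 k101 3 14)))))), (.s k69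
  k138 10 (.s k101 k117 3 (.s k71 k116 4 (.s k3 k139 9 (.s k1 k2 0 (.d k169 k253 k252 13 14))))))]
  (.c k48 (.l (.s k69 k138 10 (.s k84 k87 0 (.s k252 k168 13 (.s k3 k169 14 (.s k71 k139 9 (.d k101
  k117 k116 3 4))))))) (.c k101 (.f k69 k138 10 (.l (.s k84 k87 0 (.s k252 k168 13 (.s k3 k169 14
  (.s k1 k2 0 (.s k71 k139 9 (.s k70 k68 0 (.d k137 k205 k204 9 10))))))))) .n))) .n)))))))))))))

def t26_241 : T TT 256 :=
  (.f k255 k170 14 (.q k89 [(.s k81 k93 1 (.s k243 k162 12 (.s k166 k12 14 (.d k247 k251 k4 1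
  12))))] (.c k4 (.q k1 [(.s k169 k253 13 (.s k3 k2 0 (.s k86 k252 14 (.d k87 k84 k171 0 13)))), (.s
  k93 k81 1 (.s k12 k174 12 (.s k253 k169 13 (.s k13 k173 11 (.s k5 k9 1 (.d k15 k14 k10 0 2)))))),
  (.s k3 k2 0 (.s k81 k93 1 (.s k243 k162 12 (.s k83 k163 11 (.s k86 k92 2 (.d k87 k84 k171 0
  13))))))] (.c k171 (.l (.s k3 k2 0 (.s k93 k81 1 (.s k12 k174 12 (.s k9 k6 2 (.d k169 k249 k253 11
  13)))))) .n)) (.c k12 (.q k3 [(.s k1 k2 0 (.s k87 k171 13 (.s k86 k84 0 (.d k169 k253 k252 13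
  14)))), (.s k2 k1 0 (.s k81 k93 1 (.s k162 k243 12 (.s k82 k242 11 (.s k240 k161 12 (.d k80 k83
  k160 0 11)))))), (.s k81 k93 1 (.s k87 k171 13 (.s k86 k84 0 (.s k83 k92 2 (.d k243 k163 k162 11
  12)))))] .n) (.c k81 (.q k65 [(.s k105 k125 5 (.s k195 k130 8 (.s k150 k60 14 (.d k215 k235 k20 5
  8)))), (.s k105 k125 5 (.s k73 k121 3 (.s k69 k77 1 (.s k207 k138 10 (.s k223 k239 3 (.s k154 k16
  10 (.d k101 k117 k48 3 14)))))))] (.c k1 (.q k161 [(.s k105 k125 5 (.s k195 k130 8 (.s k150 k60 14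
  (.d k215 k235 k20 5 8)))), (.s k105 k125 5 (.s k73 k121 3 (.s k69 k77 1 (.s k207 k138 10 (.s k223
  k239 3 (.s k154 k16 10 (.d k101 k117 k48 3 14)))))))] (.c k105 (.q k87 [(.s k86 k84 0 (.s k3 k171
  13 (.s k169 k252 14 (.s k165 k173 1 (.s k240 k82 12 (.d k245 k250 k5 2 11)))))), (.s k3 k171 13
  (.s k195 k130 8 (.s k67 k131 7 (.s k64 k66 0 (.d k127 k107 k106 5 6))))), (.s k86 k84 0 (.s k83
  k92 2 (.s k95 k91 1 (.s k15 k175 11 (.s k5 k10 2 (.s k165 k245 11 (.d k90 k80 k240 2 14)))))))]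
  (.c k40 (.q k235 [(.d k195 k215 k130 5 8), (.s k3 k171 13 (.s k82 k240 12 (.s k86 k84 0 (.s k83
  k92 2 (.s k90 k94 1 (.d k91 k88 k95 0 1))))))] .n) (.c k235 (.q k40 [(.s k86 k84 0 (.s k3 k171 13
  (.s k169 k252 14 (.s k165 k173 1 (.s k240 k82 12 (.d k245 k250 k5 2 11)))))), (.s k3 k171 13 (.s
  k195 k130 8 (.s k67 k131 7 (.s k64 k66 0 (.d k127 k107 k106 5 6))))), (.s k86 k84 0 (.s k83 k92 2
  (.s k95 k91 1 (.s k80 k90 2 (.s k240 k160 11 (.d k3 k82 k171 12 13))))))] (.c k3 (.l (.s k20 k60 5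
  (.s k84 k86 0 (.s k195 k130 8 (.s k212 k148 7 (.s k252 k168 13 (.s k214 k233 6 (.d k215 k150 k213
  8 0)))))))) (.c k171 (.l (.s k60 k20 5 (.s k84 k86 0 (.s k168 k252 13 (.s k104 k232 7 (.s k192
  k148 13 (.d k64 k124 k128 5 7))))))) .n))) .n))) (.c k125 (.l (.s k195 k130 8 (.s k215 k235 5 (.s
  k150 k20 8 (.s k211 k28 10 (.s k243 k227 3 (.s k166 k12 14 (.d k247 k251 k4 1 12)))))))) .n))) (.c
  k105 (.q k1 [(.s k3 k2 0 (.s k87 k171 13 (.s k86 k84 0 (.d k169 k253 k252 13 14)))), (.s k129 k193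
  7 (.s k130 k195 8 (.s k128 k131 0 (.s k192 k64 7 (.d k3 k2 k66 0 8))))), (.s k193 k129 7 (.s k195
  k130 8 (.s k253 k169 13 (.s k233 k213 5 (.d k252 k254 k214 0 6)))))] (.c k40 (.q k235 [(.d k195
  k215 k130 5 8), (.s k3 k2 0 (.s k87 k171 13 (.s k86 k84 0 (.d k169 k253 k252 13 14))))] .n) (.c
  k235 (.q k40 [(.s k3 k2 0 (.s k169 k253 13 (.s k86 k252 14 (.d k87 k84 k171 0 13)))), (.s k129
  k193 7 (.s k130 k195 8 (.s k128 k131 0 (.s k192 k64 7 (.d k3 k2 k66 0 8))))), (.s k193 k129 7 (.s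
  k195 k130 8 (.s k253 k169 13 (.s k233 k213 5 (.d k252 k254 k214 0 6)))))] .n) .n))) (.c k125 (.l
  (.s k195 k130 8 (.s k215 k235 5 (.s k150 k20 8 (.s k211 k28 10 (.s k243 k227 3 (.s k166 k12 14 (.d
  k247 k251 k4 1 12)))))))) (.c k161 (.q k1 [(.s k105 k125 5 (.s k195 k130 8 (.s k150 k60 14 (.d
  k215 k235 k20 5 8)))), (.s k3 k2 0 (.s k87 k171 13 (.s k86 k84 0 (.d k169 k253 k252 13 14))))] .n)
  .n))))) (.c k93 (.q k117 [(.s k101 k69 3 (.s k48 k186 10 (.s k154 k207 14 (.d k16 k32 k223 3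
  10)))), (.s k101 k69 3 (.s k113 k77 5 (.s k125 k121 1 (.s k60 k190 8 (.s k20 k40 5 (.s k150 k215 8
  (.d k105 k65 k195 5 14)))))))] (.c k69 (.l (.s k48 k186 10 (.s k16 k32 3 (.s k154 k223 10 (.s k24
  k219 8 (.s k12 k36 5 (.s k4 k8 1 (.d k166 k247 k243 12 14)))))))) (.c k101 (.f k48 k186 10 (.q
  k154 [(.d k16 k32 k223 3 10), (.s k24 k219 8 (.s k12 k36 5 (.s k4 k8 1 (.d k166 k247 k243 12
  14))))] (.c k32 (.q k239 [(.d k223 k207 k16 3 10), (.s k24 k219 8 (.s k12 k36 5 (.s k4 k8 1 (.d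
  k166 k247 k243 12 14))))] .n) (.c k239 (.l (.s k32 k16 3 (.s k24 k219 8 (.s k12 k36 5 (.s k4 k8 1
  (.d k166 k247 k243 12 14)))))) .n)))) .n))) (.c k162 (.l (.s k93 k81 1 (.s k12 k174 12 (.s k166
  k243 14 (.d k4 k8 k247 1 12))))) (.c k166 (.f k93 k81 1 (.f k174 k12 12 (.q k253 [(.s k252 k254 0
  (.s k84 k168 13 (.s k86 k87 0 (.d k169 k1 k3 13 14)))), (.s k173 k13 11 (.s k175 k172 0 (.s k15
  k95 11 (.s k5 k10 2 (.s k165 k245 11 (.d k169 k161 k1 1 13))))))] (.c k1 (.q k161 [(.s k252 k254 0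
  (.s k173 k13 11 (.s k15 k94 12 (.d k175 k172 k95 0 11)))), (.s k252 k254 0 (.s k84 k168 13 (.s k86
  k87 0 (.s k92 k83 2 (.s k80 k88 1 (.d k95 k94 k90 0 2)))))), (.s k173 k13 11 (.s k165 k169 1 (.s
  k5 k245 11 (.s k15 k10 2 (.d k175 k172 k95 0 11)))))] (.c k95 (.l (.s k173 k13 11 (.s k165 k169 1
  (.s k5 k245 11 (.s k15 k10 2 (.d k252 k254 k94 0 12)))))) .n)) (.c k161 (.l (.s k1 k169 13 (.s
  k173 k13 11 (.s k252 k254 0 (.s k15 k94 12 (.d k175 k172 k95 0 11)))))) (.c k169 (.l (.s k173 k13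
  11 (.s k252 k254 0 (.s k15 k94 12 (.d k175 k172 k95 0 11))))) (.c k252 (.l (.s k1 k169 13 (.s k13
  k173 11 (.s k5 k9 1 (.s k15 k10 2 (.s k95 k175 11 (.s k90 k80 2 (.d k165 k245 k240 11 14))))))))
  .n))))))) (.c k174 (.l (.s k81 k93 1 (.s k243 k162 12 (.s k166 k12 14 (.d k247 k251 k4 1 12)))))
  (.c k243 (.q k240 [(.s k80 k160 11 (.s k90 k95 2 (.s k245 k250 2 (.d k165 k5 k15 11 14)))), (.s
  k80 k160 11 (.s k93 k81 1 (.s k12 k174 12 (.s k8 k4 1 (.s k88 k164 13 (.s k84 k92 1 (.d k168 k248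
  k252 11 13))))))), (.s k93 k81 1 (.s k12 k174 12 (.s k88 k164 13 (.s k90 k91 0 (.s k245 k250 2 (.d
  k165 k15 k5 14 11))))))] (.c k165 (.l (.s k93 k81 1 (.s k12 k174 12 (.s k88 k164 13 (.s k90 k91 0
  (.d k80 k95 k160 2 11)))))) .n)) (.c k247 (.q k1 [(.s k3 k2 0 (.s k87 k171 13 (.s k86 k84 0 (.d
  k169 k253 k252 13 14)))), (.s k93 k81 1 (.s k12 k174 12 (.s k253 k169 13 (.s k13 k173 11 (.s k5 k9
  1 (.d k15 k14 k10 0 2)))))), (.s k3 k2 0 (.s k81 k93 1 (.s k243 k162 12 (.s k83 k163 11 (.s k86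
  k92 2 (.d k87 k84 k171 0 13))))))] (.c k171 (.l (.s k3 k2 0 (.s k93 k81 1 (.s k12 k174 12 (.s k9
  k6 2 (.d k169 k249 k253 11 13)))))) .n)) (.c k251 (.l (.s k93 k81 1 (.s k12 k174 12 (.s k4 k8 1
  (.d k166 k247 k243 12 14))))) .n))))))))))))

def t26_242 : T TT 256 :=
  (.f k255 k170 14 (.q k106 [(.s k64 k127 6 (.s k192 k128 7 (.s k149 k63 14 (.d k213 k234 k21 6
  7))))] (.c k21 (.q k16 [(.s k154 k223 10 (.s k48 k32 3 (.s k101 k207 14 (.d k117 k69 k186 3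
  10)))), (.s k64 k127 6 (.s k154 k223 10 (.s k192 k128 7 (.s k149 k63 14 (.s k144 k159 2 (.s k80
  k208 7 (.d k96 k112 k48 3 11))))))), (.s k48 k32 3 (.s k64 k127 6 (.s k192 k128 7 (.s k96 k144 11
  (.s k101 k111 2 (.d k117 k69 k186 3 10))))))] (.c k48 (.l (.s k127 k64 6 (.s k63 k191 7 (.s k223
  k154 10 (.s k207 k239 3 (.s k111 k159 11 (.s k101 k96 2 (.d k69 k138 k117 10 3)))))))) .n)) (.c
  k63 (.q k1 [(.s k3 k2 0 (.s k87 k171 13 (.s k86 k84 0 (.d k169 k253 k252 13 14)))), (.s k64 k127 6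
  (.s k192 k128 7 (.s k213 k234 6 (.s k253 k169 13 (.s k193 k233 5 (.s k65 k129 7 (.d k195 k130 k194
  8 0))))))), (.s k3 k2 0 (.s k64 k127 6 (.s k192 k128 7 (.s k66 k129 8 (.s k86 k126 5 (.d k87 k84
  k171 0 13))))))] (.c k171 (.l (.s k3 k2 0 (.s k64 k127 6 (.s k169 k253 13 (.s k86 k252 14 (.s k192
  k128 7 (.d k66 k126 k129 5 8))))))) .n)) (.c k64 (.q k204 [(.s k68 k136 9 (.s k102 k119 4 (.s k153
  k51 14 (.d k221 k238 k17 4 9)))), (.s k68 k136 9 (.s k102 k119 4 (.s k110 k98 1 (.s k63 k157 12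
  (.s k21 k42 6 (.d k149 k213 k192 7 14)))))), (.s k221 k238 4 (.s k153 k17 9 (.s k200 k59 12 (.s
  k192 k196 1 (.s k149 k63 14 (.d k213 k234 k21 6 7))))))] (.c k102 (.q k72 [(.s k136 k68 9 (.s k200
  k8 7 (.s k153 k59 12 (.d k221 k238 k17 4 9)))), (.s k89 k123 4 (.s k81 k93 1 (.s k243 k162 12 (.s
  k166 k12 14 (.d k247 k251 k4 1 12))))), (.s k136 k68 9 (.s k8 k200 7 (.s k12 k4 1 (.s k132 k192 9
  (.d k140 k128 k76 1 7)))))] (.c k34 (.l (.s k238 k221 4 (.s k89 k123 4 (.s k81 k93 1 (.s k243 k162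
  12 (.s k166 k12 14 (.d k247 k251 k4 1 12))))))) (.c k238 (.q k34 [(.s k17 k51 4 (.s k136 k68 9 (.s
  k153 k221 9 (.d k200 k8 k59 7 12)))), (.s k89 k123 4 (.s k81 k93 1 (.s k243 k162 12 (.s k166 k12
  14 (.d k247 k251 k4 1 12)))))] .n) .n))) (.c k153 (.q k93 [(.s k12 k174 12 (.s k4 k8 1 (.s k166
  k247 12 (.d k89 k81 k243 1 14)))), (.s k221 k238 4 (.s k157 k29 7 (.s k63 k110 12 (.s k21 k42 6
  (.d k149 k213 k192 7 14)))))] (.c k136 (.q k187 [(.s k12 k174 12 (.s k4 k8 1 (.s k166 k247 12 (.d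
  k89 k81 k243 1 14)))), (.s k12 k174 12 (.s k76 k140 7 (.s k110 k127 4 (.s k119 k51 9 (.d k102 k98
  k68 1 4))))), (.s k89 k81 1 (.s k119 k51 9 (.s k123 k72 4 (.s k115 k127 1 (.d k102 k68 k76 4
  6)))))] .n) (.c k174 (.l (.s k221 k238 4 (.s k157 k29 7 (.s k110 k63 12 (.s k102 k98 1 (.d k68
  k119 k136 4 9)))))) (.c k187 (.l (.s k136 k68 9 (.s k12 k174 12 (.s k4 k8 1 (.s k89 k81 1 (.d k166
  k247 k243 12 14)))))) .n)))) .n))) (.c k127 (.q k195 [(.s k65 k130 8 (.s k215 k235 5 (.s k150 k20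
  8 (.d k105 k125 k60 5 14)))), (.s k65 k130 8 (.s k105 k125 5 (.s k107 k104 0 (.s k63 k151 13 (.s
  k21 k42 6 (.d k149 k213 k192 7 14)))))), (.s k215 k235 5 (.s k150 k20 8 (.s k194 k62 13 (.s k192
  k193 0 (.s k149 k63 14 (.d k213 k234 k21 6 7))))))] (.c k105 (.q k149 [(.s k21 k213 7 (.d k63 k42
  k192 6 14)), (.s k63 k192 14 (.s k151 k107 13 (.s k150 k148 0 (.d k215 k235 k20 5 8))))] (.c k40
  (.l (.s k235 k215 5 (.s k21 k213 7 (.d k63 k42 k192 6 14)))) (.c k63 (.l (.s k213 k21 7 (.s k192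
  k234 6 (.s k194 k193 0 (.s k150 k62 13 (.d k215 k235 k20 5 8)))))) (.c k192 (.l (.s k21 k213 7 (.s
  k63 k42 6 (.s k151 k107 13 (.s k150 k148 0 (.d k215 k235 k20 5 8)))))) (.c k235 (.q k40 [(.s k21
  k213 7 (.d k63 k42 k192 6 14)), (.s k20 k60 5 (.s k63 k192 14 (.s k150 k215 8 (.d k151 k148 k107 0
  13))))] (.c k63 (.l (.s k20 k60 5 (.s k150 k215 8 (.s k213 k21 7 (.s k192 k234 6 (.d k194 k62 k193
  13 0)))))) (.c k192 (.l (.s k20 k60 5 (.s k21 k213 7 (.s k63 k42 6 (.s k150 k215 8 (.d k151 k148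
  k107 0 13)))))) .n))) .n))))) (.c k150 (.q k199 [(.s k207 k203 1 (.s k69 k138 10 (.s k101 k117 3
  (.s k154 k48 14 (.d k223 k239 k16 3 10))))), (.s k207 k203 1 (.s k215 k235 5 (.s k223 k239 3 (.s
  k219 k211 1 (.d k231 k247 k243 3 5))))), (.s k207 k203 1 (.s k69 k138 10 (.s k4 k134 8 (.s k215
  k235 5 (.d k247 k166 k231 12 3))))), (.s k215 k235 5 (.s k247 k231 3 (.s k4 k166 12 (.s k12 k8 1
  (.d k134 k69 k73 8 10)))))] (.c k130 (.q k190 [(.s k207 k203 1 (.s k69 k138 10 (.s k101 k117 3 (.s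
  k223 k239 3 (.d k154 k16 k48 10 14))))), (.s k207 k203 1 (.s k215 k235 5 (.s k223 k239 3 (.s k219
  k211 1 (.d k231 k247 k243 3 5))))), (.s k215 k235 5 (.s k247 k231 3 (.s k4 k166 12 (.s k12 k8 1
  (.d k134 k69 k73 8 10))))), (.s k125 k60 8 (.s k65 k105 5 (.s k207 k203 1 (.s k69 k138 10 (.s k73
  k77 1 (.d k134 k4 k12 8 10))))))] .n) (.c k190 (.l (.s k130 k65 8 (.s k207 k203 1 (.s k69 k138 10
  (.s k4 k134 8 (.s k215 k235 5 (.d k247 k166 k231 12 3))))))) .n))) .n))) (.c k128 (.l (.s k127 k64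
  6 (.s k63 k191 7 (.s k149 k192 14 (.d k21 k42 k213 6 7))))) (.c k149 (.f k127 k64 6 (.q k122 [(.s
  k90 k74 3 (.s k95 k80 2 (.s k79 k111 3 (.d k112 k117 k101 2 6)))), (.s k90 k74 3 (.s k80 k95 2 (.s
  k240 k160 11 (.d k63 k191 k181 7 10)))), (.s k117 k112 2 (.s k48 k186 10 (.s k16 k32 3 (.s k154
  k223 10 (.d k101 k69 k207 3 14)))))] (.c k69 (.l (.s k112 k117 2 (.s k90 k74 3 (.s k79 k101 6 (.d
  k95 k80 k111 2 3))))) (.c k80 (.l (.s k90 k74 3 (.s k112 k117 2 (.s k79 k101 6 (.s k95 k111 3 (.s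
  k15 k175 11 (.s k5 k10 2 (.d k165 k245 k240 11 14)))))))) (.c k128 (.l (.s k191 k63 7 (.s k90 k74
  3 (.s k95 k80 2 (.s k79 k111 3 (.d k112 k117 k101 2 6)))))) (.c k191 (.q k128 [(.s k90 k74 3 (.s
  k95 k80 2 (.s k79 k111 3 (.d k112 k117 k101 2 6)))), (.s k117 k112 2 (.s k48 k186 10 (.s k16 k32 3
  (.s k154 k223 10 (.d k101 k69 k207 3 14))))), (.s k90 k74 3 (.s k80 k95 2 (.s k240 k160 11 (.s
  k165 k15 14 (.d k245 k250 k5 2 11)))))] (.c k69 (.l (.s k112 k117 2 (.s k90 k74 3 (.s k79 k101 6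
  (.d k95 k80 k111 2 3))))) (.c k80 (.l (.s k90 k74 3 (.s k112 k117 2 (.s k79 k101 6 (.s k95 k111 3
  (.s k15 k175 11 (.s k5 k10 2 (.d k165 k245 k240 11 14)))))))) .n))) .n)))))) (.c k191 (.l (.s k64
  k127 6 (.s k192 k128 7 (.s k149 k63 14 (.d k213 k234 k21 6 7))))) (.c k192 (.q k1 [(.s k3 k2 0 (.s
  k87 k171 13 (.s k86 k84 0 (.d k169 k253 k252 13 14)))), (.s k127 k64 6 (.s k63 k191 7 (.s k21 k42
  6 (.s k61 k41 5 (.s k253 k169 13 (.s k125 k189 7 (.d k60 k190 k62 8 0))))))), (.s k3 k2 0 (.s k127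
  k64 6 (.s k63 k191 7 (.s k21 k42 6 (.s k23 k43 5 (.s k22 k20 0 (.d k41 k61 k60 5 6)))))))] .n) (.c
  k213 (.q k1 [(.s k3 k2 0 (.s k87 k171 13 (.s k86 k84 0 (.d k169 k253 k252 13 14)))), (.s k64 k127
  6 (.s k169 k253 13 (.s k192 k128 7 (.s k149 k63 14 (.s k129 k189 5 (.s k66 k3 8 (.d k65 k193 k67 7
  0))))))), (.s k3 k2 0 (.s k64 k127 6 (.s k192 k128 7 (.s k66 k129 8 (.s k86 k126 5 (.d k87 k84
  k171 0 13))))))] (.c k3 (.l (.s k127 k64 6 (.s k63 k191 7 (.s k21 k42 6 (.s k61 k41 5 (.s k60 k62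
  0 (.s k125 k190 8 (.d k253 k189 k169 7 13)))))))) .n)) (.c k234 (.l (.s k127 k64 6 (.s k63 k191 7
  (.s k21 k42 6 (.d k149 k213 k192 7 14))))) .n))))))))))))

def t26_243 : T TT 256 :=
  (.f k255 k170 14 (.q k105 [(.s k65 k125 5 (.s k195 k130 8 (.s k215 k235 5 (.d k150 k20 k60 8
  14))))] (.c k20 (.q k1 [(.s k3 k2 0 (.s k87 k171 13 (.s k169 k253 13 (.d k86 k84 k252 0 14)))),
  (.s k65 k125 5 (.s k169 k253 13 (.s k41 k233 7 (.s k61 k21 5 (.d k193 k129 k149 7 13))))), (.s k3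
  k2 0 (.s k65 k125 5 (.s k129 k193 7 (.s k66 k192 8 (.s k67 k64 0 (.d k195 k131 k130 7 8))))))] .n)
  (.c k60 (.f k65 k125 5 (.q k69 [(.s k77 k73 1 (.s k101 k117 3 (.s k97 k109 1 (.d k113 k81 k89 3
  5)))), (.s k207 k138 10 (.s k223 k239 3 (.s k154 k16 10 (.d k101 k117 k48 3 14)))), (.s k73 k77 1
  (.s k138 k207 10 (.s k8 k203 8 (.s k12 k4 1 (.d k195 k130 k134 8 10)))))] (.c k121 (.q k182 [(.s
  k77 k73 1 (.s k101 k117 3 (.s k113 k89 5 (.d k97 k109 k81 1 3)))), (.s k207 k138 10 (.s k223 k239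
  3 (.s k154 k16 10 (.d k101 k117 k48 3 14))))] (.c k101 (.l (.s k73 k77 1 (.s k138 k207 10 (.s k8
  k203 8 (.s k12 k4 1 (.d k195 k130 k134 8 10)))))) (.c k113 (.l (.s k117 k101 3 (.s k77 k73 1 (.s
  k207 k138 10 (.s k12 k142 8 (.s k247 k52 8 (.d k4 k8 k166 1 12))))))) (.c k117 (.q k113 [(.s k77
  k73 1 (.s k81 k97 3 (.d k89 k93 k101 1 5))), (.s k97 k81 3 (.s k195 k130 8 (.s k48 k146 12 (.s
  k207 k138 10 (.d k101 k154 k109 14 1))))), (.s k73 k77 1 (.s k138 k207 10 (.s k8 k203 8 (.s k12 k4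
  1 (.d k195 k130 k134 8 10)))))] .n) .n)))) (.c k182 (.q k121 [(.d k73 k77 k89 1 3), (.s k101 k117
  3 (.s k207 k138 10 (.s k154 k48 14 (.d k223 k239 k16 3 10))))] .n) (.c k207 (.l (.s k77 k73 1 (.s
  k101 k117 3 (.s k113 k89 5 (.d k97 k109 k81 1 3))))) .n))))) (.c k65 (.q k1 [(.s k3 k2 0 (.s k87
  k171 13 (.s k86 k84 0 (.d k169 k253 k252 13 14)))), (.s k169 k253 13 (.s k41 k233 7 (.s k21 k61 5
  (.s k63 k42 6 (.s k127 k191 7 (.s k106 k64 6 (.d k149 k213 k192 7 14)))))))] (.c k169 (.f k3 k2 0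
  (.q k86 [(.d k87 k171 k84 13 0), (.s k67 k124 6 (.s k195 k131 7 (.s k150 k60 14 (.d k215 k235 k20
  5 8))))] (.c k168 (.l (.s k171 k87 13 (.s k67 k124 6 (.s k195 k131 7 (.s k150 k60 14 (.d k215 k235
  k20 5 8)))))) (.c k171 (.q k168 [(.d k84 k87 k252 0 13), (.s k67 k124 6 (.s k195 k131 7 (.s k215
  k235 5 (.d k150 k20 k60 8 14))))] .n) .n)))) (.c k253 (.l (.s k3 k2 0 (.s k87 k171 13 (.s k86 k84
  0 (.s k67 k124 6 (.s k195 k131 7 (.s k150 k60 14 (.d k215 k235 k20 5 8)))))))) .n))) (.c k125 (.q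
  k253 [(.s k169 k1 13 (.s k252 k254 0 (.s k84 k168 13 (.d k86 k87 k3 0 14)))), (.s k169 k1 13 (.s
  k233 k41 7 (.s k213 k193 5 (.s k192 k234 6 (.s k64 k128 7 (.s k106 k127 6 (.d k149 k21 k63 7
  14)))))))] (.c k1 (.l (.s k252 k254 0 (.s k84 k168 13 (.s k86 k87 0 (.s k124 k67 6 (.s k60 k188 7
  (.s k20 k40 5 (.d k150 k215 k195 8 14)))))))) (.c k169 (.f k252 k254 0 (.q k86 [(.d k84 k168 k87
  13 0), (.s k124 k67 6 (.s k60 k188 7 (.s k20 k40 5 (.d k150 k215 k195 8 14))))] (.c k168 (.q k171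
  [(.d k87 k84 k3 0 13), (.s k124 k67 6 (.s k60 k188 7 (.s k20 k40 5 (.d k150 k215 k195 8 14))))]
  .n) (.c k171 (.l (.s k168 k84 13 (.s k124 k67 6 (.s k60 k188 7 (.s k20 k40 5 (.d k150 k215 k195 8
  14)))))) .n)))) .n))) (.c k130 (.l (.s k125 k65 5 (.s k60 k190 8 (.s k150 k195 14 (.d k20 k40 k215
  5 8))))) (.c k150 (.f k125 k65 5 (.q k149 [(.s k21 k213 7 (.s k61 k193 13 (.s k253 k189 7 (.d k1
  k41 k169 5 13)))), (.s k21 k213 7 (.s k63 k42 6 (.s k106 k192 14 (.d k127 k64 k191 6 7)))), (.s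
  k61 k193 13 (.s k253 k189 7 (.s k252 k254 0 (.s k84 k168 13 (.s k86 k87 0 (.d k169 k1 k3 13
  14))))))] (.c k130 (.l (.s k190 k60 8 (.s k21 k213 7 (.s k61 k193 13 (.s k1 k41 5 (.d k253 k189
  k169 7 13)))))) (.c k190 (.q k130 [(.s k21 k213 7 (.s k61 k193 13 (.s k1 k41 5 (.d k253 k189 k169
  7 13)))), (.s k21 k213 7 (.s k63 k42 6 (.s k106 k192 14 (.d k127 k64 k191 6 7)))), (.s k61 k193 13
  (.s k253 k189 7 (.s k252 k254 0 (.s k84 k168 13 (.s k86 k87 0 (.d k169 k1 k3 13 14))))))] .n)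
  .n)))) (.c k190 (.l (.s k65 k125 5 (.s k195 k130 8 (.s k150 k60 14 (.d k215 k235 k20 5 8))))) (.c
  k195 (.f k125 k65 5 (.q k124 [(.s k67 k86 6 (.s k127 k126 0 (.s k106 k64 6 (.d k107 k104 k87 0
  5)))), (.s k60 k190 8 (.s k252 k188 7 (.s k84 k168 13 (.d k86 k87 k67 0 6)))), (.s k60 k190 8 (.s
  k126 k127 0 (.s k252 k188 7 (.s k189 k63 8 (.d k253 k254 k61 0 7)))))] (.c k211 (.q k227 [(.s k67
  k86 6 (.s k127 k126 0 (.s k106 k64 6 (.d k107 k104 k87 0 5)))), (.s k60 k190 8 (.s k252 k188 7 (.s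
  k84 k168 13 (.d k86 k87 k67 0 6)))), (.s k60 k190 8 (.s k126 k127 0 (.s k252 k188 7 (.s k189 k63 8
  (.d k253 k254 k61 0 7)))))] .n) (.c k227 (.q k211 [(.s k67 k86 6 (.s k127 k126 0 (.s k106 k64 6
  (.d k107 k104 k87 0 5)))), (.s k60 k190 8 (.s k252 k188 7 (.s k84 k168 13 (.d k86 k87 k67 0 6)))),
  (.s k60 k190 8 (.s k126 k127 0 (.s k252 k188 7 (.s k189 k63 8 (.d k253 k254 k61 0 7)))))] .n)
  .n)))) (.c k215 (.q k1 [(.s k3 k2 0 (.s k87 k171 13 (.s k86 k84 0 (.d k169 k253 k252 13 14)))),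
  (.s k65 k125 5 (.s k169 k253 13 (.s k41 k233 7 (.s k61 k21 5 (.d k193 k129 k149 7 13))))), (.s k3
  k2 0 (.s k65 k125 5 (.s k129 k193 7 (.s k66 k192 8 (.s k67 k64 0 (.d k195 k131 k130 7 8))))))] .n)
  (.c k235 (.l (.s k125 k65 5 (.s k60 k190 8 (.s k20 k40 5 (.d k150 k215 k195 8 14)))))
  .n))))))))))))

def t26_246 : T TT 256 :=
  (.f k255 k170 14 (.q k106 [(.s k64 k127 6 (.s k192 k128 7 (.s k149 k63 14 (.d k213 k234 k21 6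
  7))))] (.c k21 (.q k16 [(.s k154 k223 10 (.s k48 k32 3 (.s k101 k207 14 (.d k117 k69 k186 3
  10)))), (.s k64 k127 6 (.s k154 k223 10 (.s k192 k128 7 (.s k149 k63 14 (.s k144 k159 2 (.s k80
  k208 7 (.d k96 k112 k48 3 11))))))), (.s k48 k32 3 (.s k64 k127 6 (.s k192 k128 7 (.s k96 k144 11
  (.s k101 k111 2 (.d k117 k69 k186 3 10))))))] (.c k48 (.l (.s k127 k64 6 (.s k63 k191 7 (.s k223
  k154 10 (.s k207 k239 3 (.s k111 k159 11 (.s k101 k96 2 (.d k69 k138 k117 10 3)))))))) .n)) (.c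
  k63 (.q k1 [(.s k3 k2 0 (.s k87 k171 13 (.s k86 k84 0 (.d k169 k253 k252 13 14)))), (.s k64 k127 6
  (.s k192 k128 7 (.s k213 k234 6 (.s k253 k169 13 (.s k193 k233 5 (.s k65 k129 7 (.d k195 k130 k194
  8 0))))))), (.s k3 k2 0 (.s k64 k127 6 (.s k192 k128 7 (.s k66 k129 8 (.s k86 k126 5 (.d k87 k84
  k171 0 13))))))] (.c k171 (.l (.s k3 k2 0 (.s k64 k127 6 (.s k169 k253 13 (.s k86 k252 14 (.s k192
  k128 7 (.d k66 k126 k129 5 8))))))) .n)) (.c k64 (.q k3 [(.s k1 k2 0 (.s k87 k171 13 (.s k169 k253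
  13 (.d k86 k84 k252 0 14)))), (.s k1 k2 0 (.s k169 k253 13 (.s k43 k232 8 (.s k63 k23 5 (.s k21
  k42 6 (.d k149 k213 k192 7 14)))))), (.s k87 k171 13 (.s k86 k84 0 (.s k66 k126 5 (.s k192 k129 8
  (.s k149 k63 14 (.d k213 k234 k21 6 7))))))] (.c k86 (.f k2 k1 0 (.q k6 [(.s k9 k12 2 (.s k10 k14
  1 (.s k15 k5 2 (.d k11 k8 k7 0 1)))), (.s k12 k9 2 (.s k93 k174 12 (.s k89 k81 1 (.s k166 k243 14
  (.d k4 k8 k247 1 12))))), (.s k10 k14 1 (.s k15 k5 2 (.s k7 k11 1 (.s k87 k171 13 (.s k95 k175 11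
  (.s k91 k83 1 (.d k167 k247 k243 11 13)))))))] (.c k5 (.l (.s k14 k10 1 (.s k12 k9 2 (.s k13 k15 0
  (.s k93 k174 12 (.s k89 k81 1 (.s k166 k243 14 (.d k4 k8 k247 1 12)))))))) (.c k9 (.l (.s k10 k14
  1 (.s k5 k15 2 (.s k4 k7 0 (.s k12 k8 1 (.s k93 k174 12 (.s k89 k81 1 (.d k166 k247 k243 12
  14)))))))) (.c k13 (.l (.s k9 k12 2 (.s k10 k14 1 (.s k15 k5 2 (.d k11 k8 k7 0 1))))) .n))))) (.c
  k169 (.q k66 [(.s k86 k126 5 (.d k87 k171 k84 13 0)), (.s k192 k129 8 (.s k149 k63 14 (.d k213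
  k234 k21 6 7)))] (.c k168 (.l (.s k171 k87 13 (.s k192 k129 8 (.s k149 k63 14 (.d k213 k234 k21 6
  7))))) (.c k171 (.q k168 [(.s k86 k126 5 (.d k84 k87 k252 0 13)), (.s k192 k129 8 (.s k149 k63 14
  (.d k213 k234 k21 6 7)))] .n) .n))) .n))) (.c k127 (.q k195 [(.s k65 k130 8 (.s k215 k235 5 (.s
  k150 k20 8 (.d k105 k125 k60 5 14)))), (.s k65 k130 8 (.s k105 k125 5 (.s k107 k104 0 (.s k63 k151
  13 (.s k21 k42 6 (.d k149 k213 k192 7 14)))))), (.s k215 k235 5 (.s k150 k20 8 (.s k194 k62 13 (.s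
  k192 k193 0 (.s k149 k63 14 (.d k213 k234 k21 6 7))))))] (.c k105 (.q k81 [(.s k243 k162 12 (.s
  k247 k251 1 (.s k166 k4 12 (.d k89 k93 k12 1 14)))), (.s k65 k130 8 (.s k97 k113 3 (.s k48 k146 12
  (.s k32 k16 3 (.d k162 k227 k243 8 12)))))] (.c k40 (.l (.s k235 k215 5 (.s k89 k93 1 (.s k243
  k162 12 (.s k166 k12 14 (.d k247 k251 k4 1 12)))))) (.c k162 (.l (.s k65 k130 8 (.s k89 k93 1 (.s
  k97 k113 3 (.s k146 k48 12 (.s k211 k16 8 (.s k150 k28 10 (.d k215 k20 k235 8 5)))))))) (.c k235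
  (.q k40 [(.s k89 k93 1 (.s k243 k162 12 (.s k166 k12 14 (.d k247 k251 k4 1 12)))), (.s k20 k60 5
  (.s k150 k215 8 (.s k194 k62 13 (.s k192 k193 0 (.s k213 k234 6 (.d k149 k63 k21 14 7))))))] .n)
  (.c k243 (.l (.s k65 k130 8 (.s k93 k89 1 (.s k12 k174 12 (.s k8 k4 1 (.s k73 k134 10 (.s k69 k77
  1 (.d k138 k203 k207 8 10)))))))) .n))))) (.c k150 (.q k199 [(.s k207 k203 1 (.s k69 k138 10 (.s
  k101 k117 3 (.s k154 k48 14 (.d k223 k239 k16 3 10))))), (.s k207 k203 1 (.s k215 k235 5 (.s k223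
  k239 3 (.s k219 k211 1 (.d k231 k247 k243 3 5))))), (.s k207 k203 1 (.s k69 k138 10 (.s k4 k134 8
  (.s k215 k235 5 (.d k247 k166 k231 12 3))))), (.s k215 k235 5 (.s k247 k231 3 (.s k4 k166 12 (.s
  k12 k8 1 (.d k134 k69 k73 8 10)))))] (.c k130 (.q k190 [(.s k207 k203 1 (.s k69 k138 10 (.s k101
  k117 3 (.s k223 k239 3 (.d k154 k16 k48 10 14))))), (.s k207 k203 1 (.s k215 k235 5 (.s k223 k239
  3 (.s k219 k211 1 (.d k231 k247 k243 3 5))))), (.s k215 k235 5 (.s k247 k231 3 (.s k4 k166 12 (.s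
  k12 k8 1 (.d k134 k69 k73 8 10))))), (.s k125 k60 8 (.s k65 k105 5 (.s k207 k203 1 (.s k69 k138 10
  (.s k73 k77 1 (.d k134 k4 k12 8 10))))))] .n) (.c k190 (.l (.s k130 k65 8 (.s k207 k203 1 (.s k69
  k138 10 (.s k4 k134 8 (.s k215 k235 5 (.d k247 k166 k231 12 3))))))) .n))) .n))) (.c k128 (.l (.s
  k127 k64 6 (.s k63 k191 7 (.s k149 k192 14 (.d k21 k42 k213 6 7))))) (.c k149 (.f k64 k127 6 (.q
  k74 [(.s k79 k69 2 (.s k90 k122 3 (.s k80 k95 2 (.d k112 k96 k101 3 6)))), (.s k69 k79 2 (.s k138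
  k207 10 (.s k10 k202 7 (.s k15 k5 2 (.d k192 k128 k133 7 10))))), (.s k90 k122 3 (.s k95 k80 2 (.s
  k15 k175 11 (.d k192 k128 k133 7 10))))] (.c k95 (.l (.s k79 k69 2 (.s k90 k122 3 (.s k112 k101 6
  (.s k80 k96 3 (.s k240 k160 11 (.s k165 k15 14 (.d k245 k250 k5 2 11)))))))) (.c k128 (.q k191
  [(.s k79 k69 2 (.s k90 k122 3 (.s k80 k95 2 (.d k112 k96 k101 3 6)))), (.s k69 k79 2 (.s k207 k138
  10 (.s k223 k239 3 (.s k154 k16 10 (.d k101 k117 k48 3 14))))), (.s k90 k122 3 (.s k95 k80 2 (.s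
  k15 k175 11 (.s k5 k10 2 (.d k165 k245 k240 11 14)))))] (.c k95 (.l (.s k79 k69 2 (.s k90 k122 3
  (.s k112 k101 6 (.s k80 k96 3 (.s k240 k160 11 (.s k165 k15 14 (.d k245 k250 k5 2 11)))))))) (.c
  k117 (.l (.s k79 k69 2 (.s k90 k122 3 (.s k112 k101 6 (.d k80 k95 k96 2 3))))) .n))) (.c k191 (.l
  (.s k128 k192 7 (.s k79 k69 2 (.s k90 k122 3 (.s k80 k95 2 (.d k112 k96 k101 3 6)))))) .n))))) (.c
  k191 (.l (.s k64 k127 6 (.s k192 k128 7 (.s k149 k63 14 (.d k213 k234 k21 6 7))))) (.c k192 (.q k1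
  [(.s k3 k2 0 (.s k87 k171 13 (.s k86 k84 0 (.d k169 k253 k252 13 14)))), (.s k127 k64 6 (.s k63
  k191 7 (.s k21 k42 6 (.s k61 k41 5 (.s k253 k169 13 (.s k125 k189 7 (.d k60 k190 k62 8 0))))))),
  (.s k3 k2 0 (.s k127 k64 6 (.s k63 k191 7 (.s k21 k42 6 (.s k23 k43 5 (.s k22 k20 0 (.d k41 k61
  k60 5 6)))))))] .n) (.c k213 (.q k1 [(.s k3 k2 0 (.s k87 k171 13 (.s k86 k84 0 (.d k169 k253 k252
  13 14)))), (.s k64 k127 6 (.s k169 k253 13 (.s k192 k128 7 (.s k149 k63 14 (.s k129 k189 5 (.s k66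
  k3 8 (.d k65 k193 k67 7 0))))))), (.s k3 k2 0 (.s k64 k127 6 (.s k192 k128 7 (.s k66 k129 8 (.s
  k86 k126 5 (.d k87 k84 k171 0 13))))))] (.c k3 (.l (.s k127 k64 6 (.s k63 k191 7 (.s k21 k42 6 (.s
  k61 k41 5 (.s k60 k62 0 (.s k125 k190 8 (.d k253 k189 k169 7 13)))))))) .n)) (.c k234 (.l (.s k127
  k64 6 (.s k63 k191 7 (.s k21 k42 6 (.d k149 k213 k192 7 14))))) .n))))))))))))

def t26_247 : T TT 256 :=
  (.f k255 k170 14 (.q k106 [(.s k64 k127 6 (.s k192 k128 7 (.s k149 k63 14 (.d k213 k234 k21 6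
  7))))] (.c k21 (.q k16 [(.s k154 k223 10 (.s k48 k32 3 (.s k101 k207 14 (.d k117 k69 k186 3
  10)))), (.s k64 k127 6 (.s k154 k223 10 (.s k192 k128 7 (.s k149 k63 14 (.s k144 k159 2 (.s k80
  k208 7 (.d k96 k112 k48 3 11))))))), (.s k48 k32 3 (.s k64 k127 6 (.s k192 k128 7 (.s k96 k144 11
  (.s k101 k111 2 (.d k117 k69 k186 3 10))))))] (.c k48 (.l (.s k127 k64 6 (.s k63 k191 7 (.s k223
  k154 10 (.s k207 k239 3 (.s k111 k159 11 (.s k101 k96 2 (.d k69 k138 k117 10 3)))))))) .n)) (.c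
  k63 (.q k1 [(.s k3 k2 0 (.s k87 k171 13 (.s k86 k84 0 (.d k169 k253 k252 13 14)))), (.s k64 k127 6
  (.s k192 k128 7 (.s k213 k234 6 (.s k253 k169 13 (.s k193 k233 5 (.s k65 k129 7 (.d k195 k130 k194
  8 0))))))), (.s k3 k2 0 (.s k64 k127 6 (.s k192 k128 7 (.s k66 k129 8 (.s k86 k126 5 (.d k87 k84
  k171 0 13))))))] (.c k171 (.l (.s k3 k2 0 (.s k64 k127 6 (.s k169 k253 13 (.s k86 k252 14 (.s k192
  k128 7 (.d k66 k126 k129 5 8))))))) .n)) (.c k64 (.q k3 [(.s k1 k2 0 (.s k87 k171 13 (.s k169 k253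
  13 (.d k86 k84 k252 0 14)))), (.s k1 k2 0 (.s k169 k253 13 (.s k43 k232 8 (.s k63 k23 5 (.s k21
  k42 6 (.d k149 k213 k192 7 14)))))), (.s k87 k171 13 (.s k86 k84 0 (.s k66 k126 5 (.s k192 k129 8
  (.s k149 k63 14 (.d k213 k234 k21 6 7))))))] (.c k86 (.q k83 [(.s k243 k163 11 (.s k81 k162 12 (.s
  k82 k80 0 (.s k161 k240 12 (.d k1 k2 k241 0 11))))), (.s k87 k171 13 (.s k95 k91 1 (.s k80 k90 2
  (.s k82 k81 0 (.d k240 k160 k161 11 12))))), (.s k243 k163 11 (.s k81 k162 12 (.s k89 k93 1 (.s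
  k123 k72 4 (.s k63 k183 9 (.s k21 k42 6 (.d k149 k213 k192 7 14))))))), (.s k87 k171 13 (.s k95
  k91 1 (.s k15 k175 11 (.s k5 k10 2 (.s k90 k80 2 (.d k165 k245 k240 11 14))))))] (.c k2 (.q k254
  [(.s k253 k252 0 (.s k169 k1 13 (.s k43 k232 8 (.s k63 k23 5 (.s k21 k42 6 (.d k149 k192 k213 14
  7)))))), (.s k87 k171 13 (.s k95 k91 1 (.s k243 k163 11 (.s k81 k162 12 (.d k80 k82 k90 0 2)))))]
  (.c k169 (.l (.s k243 k163 11 (.s k81 k162 12 (.s k82 k80 0 (.s k252 k253 0 (.s k246 k249 2 (.s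
  k242 k250 1 (.d k240 k241 k161 0 12)))))))) .n)) (.c k160 (.l (.s k87 k171 13 (.s k95 k91 1 (.s
  k80 k90 2 (.s k243 k163 11 (.d k81 k82 k162 0 12)))))) (.c k254 (.l (.s k2 k1 0 (.s k87 k171 13
  (.s k95 k91 1 (.s k80 k90 2 (.s k82 k81 0 (.d k240 k161 k160 12 11))))))) .n)))) (.c k169 (.q k81
  [(.s k2 k1 0 (.s k162 k243 12 (.s k82 k242 11 (.s k80 k83 0 (.d k240 k160 k161 11 12))))), (.s k89
  k93 1 (.s k123 k72 4 (.s k243 k162 12 (.s k63 k183 9 (.s k21 k42 6 (.d k149 k213 k192 7 14))))))]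
  (.c k162 (.l (.s k1 k2 0 (.s k89 k93 1 (.s k161 k241 11 (.s k82 k240 12 (.s k83 k80 0 (.s k86 k92
  2 (.d k87 k84 k171 0 13)))))))) (.c k168 (.l (.s k171 k87 13 (.s k1 k2 0 (.s k161 k241 11 (.s k82
  k240 12 (.s k83 k80 0 (.d k243 k163 k162 11 12))))))) (.c k171 (.q k168 [(.s k2 k1 0 (.s k162 k243
  12 (.s k82 k242 11 (.s k80 k83 0 (.d k240 k160 k161 11 12))))), (.s k84 k252 13 (.s k86 k87 0 (.s
  k66 k126 5 (.s k192 k129 8 (.s k213 k234 6 (.d k149 k63 k21 14 7))))))] .n) (.c k243 (.l (.s k1 k2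
  0 (.s k93 k89 1 (.s k12 k174 12 (.s k8 k4 1 (.s k9 k6 2 (.s k5 k13 1 (.d k10 k11 k15 0 2))))))))
  .n))))) .n))) (.c k127 (.q k3 [(.s k1 k2 0 (.s k87 k171 13 (.s k86 k84 0 (.d k169 k253 k252 13
  14)))), (.s k1 k2 0 (.s k169 k253 13 (.s k43 k232 8 (.s k63 k23 5 (.s k21 k42 6 (.d k149 k213 k192
  7 14)))))), (.s k87 k171 13 (.s k86 k84 0 (.s k66 k126 5 (.s k192 k129 8 (.s k149 k63 14 (.d k213
  k234 k21 6 7))))))] (.c k86 (.q k80 [(.s k240 k160 11 (.s k245 k250 2 (.s k165 k5 11 (.d k90 k95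
  k15 2 14)))), (.s k2 k1 0 (.s k240 k160 11 (.s k82 k161 12 (.s k81 k83 0 (.d k162 k242 k243 11
  12))))), (.s k87 k171 13 (.s k95 k90 2 (.s k83 k91 1 (.s k243 k163 11 (.d k81 k82 k162 0 12)))))]
  (.c k2 (.q k254 [(.s k240 k160 11 (.s k245 k250 2 (.s k165 k5 11 (.d k90 k95 k15 2 14)))), (.s k87
  k171 13 (.s k95 k90 2 (.s k83 k91 1 (.s k243 k163 11 (.d k81 k82 k162 0 12))))), (.s k240 k160 11
  (.s k250 k245 2 (.s k246 k242 1 (.s k252 k253 0 (.s k248 k244 1 (.d k249 k251 k243 0 2))))))] (.c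
  k175 (.l (.s k90 k95 2 (.s k240 k160 11 (.s k165 k15 14 (.d k245 k250 k5 2 11))))) (.c k250 (.l
  (.s k87 k171 13 (.s k240 k160 11 (.s k82 k161 12 (.s k83 k81 0 (.d k95 k91 k90 1 2)))))) .n))) (.c
  k175 (.l (.s k90 k95 2 (.s k240 k160 11 (.s k165 k15 14 (.d k245 k250 k5 2 11))))) (.c k254 (.l
  (.s k2 k1 0 (.s k90 k95 2 (.s k240 k160 11 (.s k165 k15 14 (.d k245 k250 k5 2 11)))))) .n)))) (.c
  k169 (.q k150 [(.s k215 k20 8 (.s k195 k235 5 (.s k105 k60 14 (.d k65 k125 k130 5 8)))), (.s k2 k1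
  0 (.s k62 k194 13 (.s k22 k42 5 (.s k86 k214 7 (.d k87 k171 k84 13 0)))))] (.c k168 (.l (.s k171
  k87 13 (.s k20 k215 8 (.s k60 k40 5 (.s k105 k195 14 (.d k125 k65 k190 5 8)))))) (.c k171 (.q k168
  [(.s k20 k215 8 (.s k60 k40 5 (.s k105 k195 14 (.d k125 k65 k190 5 8)))), (.s k2 k1 0 (.s k62 k194
  13 (.s k22 k42 5 (.s k84 k252 13 (.d k86 k87 k214 0 7)))))] .n) .n))) .n))) (.c k128 (.l (.s k127
  k64 6 (.s k63 k191 7 (.s k149 k192 14 (.d k21 k42 k213 6 7))))) (.c k149 (.f k64 k127 6 (.q k74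
  [(.s k79 k69 2 (.s k90 k122 3 (.s k80 k95 2 (.d k112 k96 k101 3 6)))), (.s k69 k79 2 (.s k138 k207
  10 (.s k10 k202 7 (.s k15 k5 2 (.d k192 k128 k133 7 10))))), (.s k90 k122 3 (.s k95 k80 2 (.s k15
  k175 11 (.d k192 k128 k133 7 10))))] (.c k95 (.l (.s k79 k69 2 (.s k90 k122 3 (.s k112 k101 6 (.s
  k80 k96 3 (.s k240 k160 11 (.s k165 k15 14 (.d k245 k250 k5 2 11)))))))) (.c k128 (.q k191 [(.s
  k79 k69 2 (.s k90 k122 3 (.s k80 k95 2 (.d k112 k96 k101 3 6)))), (.s k69 k79 2 (.s k207 k138 10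
  (.s k223 k239 3 (.s k154 k16 10 (.d k101 k117 k48 3 14))))), (.s k90 k122 3 (.s k95 k80 2 (.s k15
  k175 11 (.s k5 k10 2 (.d k165 k245 k240 11 14)))))] (.c k95 (.l (.s k79 k69 2 (.s k90 k122 3 (.s
  k112 k101 6 (.s k80 k96 3 (.s k240 k160 11 (.s k165 k15 14 (.d k245 k250 k5 2 11)))))))) (.c k117
  (.l (.s k79 k69 2 (.s k90 k122 3 (.s k112 k101 6 (.d k80 k95 k96 2 3))))) .n))) (.c k191 (.l (.s
  k128 k192 7 (.s k79 k69 2 (.s k90 k122 3 (.s k80 k95 2 (.d k112 k96 k101 3 6)))))) .n))))) (.c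
  k191 (.l (.s k64 k127 6 (.s k192 k128 7 (.s k149 k63 14 (.d k213 k234 k21 6 7))))) (.c k192 (.q k1
  [(.s k3 k2 0 (.s k87 k171 13 (.s k86 k84 0 (.d k169 k253 k252 13 14)))), (.s k127 k64 6 (.s k63
  k191 7 (.s k21 k42 6 (.s k61 k41 5 (.s k253 k169 13 (.s k125 k189 7 (.d k60 k190 k62 8 0))))))),
  (.s k3 k2 0 (.s k127 k64 6 (.s k63 k191 7 (.s k21 k42 6 (.s k23 k43 5 (.s k22 k20 0 (.d k41 k61
  k60 5 6)))))))] .n) (.c k213 (.f k64 k127 6 (.f k192 k128 7 (.f k149 k63 14 (.q k196 [(.s k102 k55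
  12 (.s k204 k200 1 (.d k68 k119 k136 4 9))), (.s k204 k200 1 (.s k68 k136 9 (.s k72 k76 1 (.d k132
  k4 k12 7 9)))), (.s k102 k55 12 (.s k98 k110 1 (.s k51 k145 12 (.d k204 k200 k153 1 14)))), (.s
  k102 k55 12 (.s k119 k68 4 (.s k51 k187 9 (.d k98 k110 k145 1 12))))] .n)))) (.c k234 (.l (.s k127
  k64 6 (.s k63 k191 7 (.s k21 k42 6 (.d k149 k213 k192 7 14))))) .n))))))))))))

def t26_250 : T TT 256 :=
  (.q k86 [(.s k84 k87 0 (.s k252 k168 13 (.s k169 k3 14 (.s k253 k1 13 (.d k255 k254 k170 0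
  14)))))] (.c k1 (.q k4 [(.s k12 k8 1 (.s k166 k247 12 (.s k89 k243 14 (.s k93 k81 1 (.d k255 k174
  k170 12 14))))), (.s k84 k87 0 (.s k166 k247 12 (.s k6 k246 11 (.s k7 k5 0 (.d k244 k164 k165 11
  12))))), (.s k12 k8 1 (.s k84 k87 0 (.s k164 k244 11 (.s k88 k240 13 (.s k92 k80 1 (.d k252 k172
  k168 11 13))))))] .n) (.c k3 (.q k4 [(.s k12 k8 1 (.s k166 k247 12 (.s k89 k243 14 (.s k93 k81 1
  (.d k255 k174 k170 12 14))))), (.s k84 k87 0 (.s k166 k247 12 (.s k6 k246 11 (.s k7 k5 0 (.d k244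
  k164 k165 11 12))))), (.s k12 k8 1 (.s k84 k87 0 (.s k164 k244 11 (.s k88 k240 13 (.s k92 k80 1
  (.d k252 k172 k168 11 13))))))] (.c k255 (.l (.s k87 k84 0 (.s k247 k166 12 (.s k7 k167 11 (.s k5
  k6 0 (.d k165 k245 k244 11 12)))))) .n)) (.c k84 (.q k4 [(.s k12 k8 1 (.s k166 k247 12 (.s k89
  k243 14 (.s k93 k81 1 (.d k255 k174 k170 12 14))))), (.s k12 k8 1 (.s k166 k247 12 (.s k6 k246 11
  (.s k3 k9 2 (.s k1 k2 0 (.d k169 k253 k252 13 14)))))), (.s k166 k247 12 (.s k6 k246 11 (.s k5 k7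
  0 (.s k10 k15 2 (.s k170 k255 14 (.d k2 k254 k14 13 1)))))), (.s k12 k8 1 (.s k170 k255 14 (.s k2
  k254 13 (.s k3 k1 0 (.s k6 k9 2 (.s k5 k7 0 (.d k10 k14 k15 1 2)))))))] .n) (.c k87 (.q k12 [(.s
  k4 k8 1 (.s k166 k247 12 (.s k89 k243 14 (.s k93 k81 1 (.d k255 k174 k170 12 14))))), (.s k4 k8 1
  (.s k166 k247 12 (.s k6 k246 11 (.s k3 k9 2 (.s k1 k2 0 (.d k169 k253 k252 13 14)))))), (.s k255
  k170 14 (.s k93 k174 12 (.s k89 k81 1 (.s k92 k83 2 (.s k252 k172 11 (.s k169 k3 14 (.d k253 k254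
  k1 0 13)))))))] (.c k166 (.l (.s k4 k8 1 (.s k170 k255 14 (.s k2 k254 13 (.s k3 k1 0 (.s k6 k9 2
  (.s k5 k7 0 (.d k10 k14 k15 1 2)))))))) .n)) (.c k168 (.l (.s k87 k84 0 (.s k255 k170 14 (.s k3
  k171 13 (.s k169 k252 14 (.d k1 k2 k253 0 13)))))) (.c k169 (.q k4 [(.s k12 k8 1 (.s k166 k247 12
  (.s k89 k243 14 (.s k93 k81 1 (.d k255 k174 k170 12 14))))), (.s k84 k87 0 (.s k166 k247 12 (.s k6
  k246 11 (.s k7 k5 0 (.d k244 k164 k165 11 12))))), (.s k12 k8 1 (.s k84 k87 0 (.s k164 k244 11 (.s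
  k88 k240 13 (.s k92 k80 1 (.d k252 k172 k168 11 13))))))] .n) (.c k170 (.q k90 [(.s k80 k95 2 (.s
  k82 k94 1 (.s k83 k81 0 (.s k84 k87 0 (.d k92 k88 k89 1 2))))), (.s k84 k87 0 (.s k94 k82 1 (.s
  k252 k168 13 (.s k15 k173 12 (.s k5 k10 2 (.d k165 k245 k240 11 14)))))), (.s k80 k95 2 (.s k84
  k87 0 (.s k240 k160 11 (.s k165 k15 14 (.s k244 k7 12 (.d k252 k248 k168 1 13)))))), (.s k80 k95 2
  (.s k82 k94 1 (.s k240 k160 11 (.s k3 k161 12 (.s k1 k2 0 (.d k169 k253 k252 13 14))))))] .n) (.c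
  k171 (.l (.s k84 k87 0 (.s k252 k168 13 (.s k3 k169 14 (.s k170 k255 14 (.d k2 k1 k254 0 13))))))
  (.c k252 (.q k7 [(.s k84 k87 0 (.s k244 k165 12 (.s k4 k164 11 (.s k6 k5 0 (.d k166 k246 k247 11
  12))))), (.s k165 k244 12 (.s k5 k245 11 (.s k15 k10 2 (.s k3 k11 1 (.s k2 k1 0 (.d k170 k255 k254
  14 13)))))), (.s k87 k84 0 (.s k167 k247 11 (.s k255 k170 14 (.s k3 k171 13 (.s k15 k11 1 (.s k91
  k243 13 (.d k95 k83 k175 1 11))))))), (.s k87 k84 0 (.s k165 k244 12 (.s k255 k170 14 (.s k3 k171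
  13 (.s k15 k11 1 (.d k5 k10 k245 2 11))))))] .n) (.c k253 (.l (.s k84 k87 0 (.s k170 k255 14 (.s
  k2 k254 13 (.s k252 k168 13 (.d k3 k1 k169 0 14)))))) (.c k254 (.l (.s k87 k84 0 (.s k255 k170 14
  (.s k3 k171 13 (.s k1 k2 0 (.d k169 k253 k252 13 14)))))) (.c k255 (.q k240 [(.s k80 k160 11 (.s
  k84 k87 0 (.s k88 k92 1 (.s k12 k164 13 (.s k8 k4 1 (.d k168 k248 k252 11 13)))))), (.s k80 k160
  11 (.s k90 k95 2 (.s k82 k94 1 (.s k3 k161 12 (.s k1 k2 0 (.d k169 k253 k252 13 14)))))), (.s k84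
  k87 0 (.s k252 k168 13 (.s k244 k248 1 (.s k165 k7 12 (.s k5 k245 11 (.d k15 k10 k90 2 14)))))),
  (.s k80 k160 11 (.s k87 k84 0 (.s k95 k90 2 (.s k83 k91 1 (.s k81 k82 0 (.d k89 k93 k92 1 2))))))]
  .n) .n)))))))))))))

def t26_251 : T TT 256 :=
  (.q k86 [(.s k84 k87 0 (.s k252 k168 13 (.s k169 k3 14 (.s k253 k1 13 (.d k255 k254 k170 0
  14)))))] (.c k1 (.q k4 [(.s k12 k8 1 (.s k166 k247 12 (.s k89 k243 14 (.s k255 k170 14 (.d k93 k81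
  k174 1 12))))), (.s k84 k87 0 (.s k244 k164 11 (.s k7 k165 12 (.s k6 k5 0 (.d k166 k246 k247 11
  12))))), (.s k12 k8 1 (.s k84 k87 0 (.s k164 k244 11 (.s k88 k240 13 (.s k92 k80 1 (.d k252 k172
  k168 11 13))))))] .n) (.c k3 (.q k4 [(.s k12 k8 1 (.s k166 k247 12 (.s k89 k243 14 (.s k255 k170
  14 (.d k93 k81 k174 1 12))))), (.s k84 k87 0 (.s k244 k164 11 (.s k7 k165 12 (.s k6 k5 0 (.d k166
  k246 k247 11 12))))), (.s k12 k8 1 (.s k84 k87 0 (.s k164 k244 11 (.s k88 k240 13 (.s k92 k80 1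
  (.d k252 k172 k168 11 13))))))] (.c k255 (.l (.s k87 k84 0 (.s k247 k166 12 (.s k7 k167 11 (.s k5
  k6 0 (.d k165 k245 k244 11 12)))))) .n)) (.c k84 (.q k15 [(.s k5 k10 2 (.s k165 k245 11 (.s k90
  k240 14 (.s k95 k80 2 (.d k255 k175 k170 11 14))))), (.s k10 k5 2 (.s k170 k255 14 (.s k2 k254 13
  (.s k3 k1 0 (.s k6 k14 1 (.s k9 k12 2 (.d k11 k8 k7 0 1))))))), (.s k170 k255 14 (.s k2 k254 13
  (.s k3 k1 0 (.s k7 k11 1 (.s k165 k244 12 (.s k160 k175 2 (.d k240 k80 k90 11 14))))))), (.s k5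
  k10 2 (.s k165 k245 11 (.s k7 k244 12 (.s k3 k11 1 (.s k1 k2 0 (.d k169 k253 k252 13 14))))))] .n)
  (.c k87 (.q k15 [(.s k5 k10 2 (.s k165 k245 11 (.s k90 k240 14 (.s k95 k80 2 (.d k255 k175 k170 11
  14))))), (.s k10 k5 2 (.s k170 k255 14 (.s k2 k254 13 (.s k3 k1 0 (.s k6 k14 1 (.s k9 k12 2 (.d
  k11 k8 k7 0 1))))))), (.s k170 k255 14 (.s k2 k254 13 (.s k3 k1 0 (.s k7 k11 1 (.s k165 k244 12
  (.s k160 k175 2 (.d k240 k80 k90 11 14))))))), (.s k5 k10 2 (.s k165 k245 11 (.s k7 k244 12 (.s k3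
  k11 1 (.s k1 k2 0 (.d k169 k253 k252 13 14))))))] .n) (.c k168 (.l (.s k87 k84 0 (.s k255 k170 14
  (.s k3 k171 13 (.s k169 k252 14 (.d k1 k2 k253 0 13)))))) (.c k169 (.q k4 [(.s k12 k8 1 (.s k166
  k247 12 (.s k89 k243 14 (.s k255 k170 14 (.d k93 k81 k174 1 12))))), (.s k84 k87 0 (.s k244 k164
  11 (.s k7 k165 12 (.s k6 k5 0 (.d k166 k246 k247 11 12))))), (.s k12 k8 1 (.s k84 k87 0 (.s k164
  k244 11 (.s k88 k240 13 (.s k92 k80 1 (.d k252 k172 k168 11 13))))))] .n) (.c k170 (.q k89 [(.s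
  k81 k93 1 (.s k83 k92 2 (.s k80 k82 0 (.s k87 k84 0 (.d k95 k91 k90 1 2))))), (.s k81 k93 1 (.s
  k84 k87 0 (.s k243 k162 12 (.s k166 k12 14 (.s k246 k6 11 (.d k252 k249 k168 2 13)))))), (.s k84
  k87 0 (.s k92 k83 2 (.s k252 k168 13 (.s k12 k172 11 (.s k4 k8 1 (.d k166 k247 k243 12 14)))))),
  (.s k81 k93 1 (.s k83 k92 2 (.s k243 k162 12 (.s k3 k163 11 (.s k1 k2 0 (.d k169 k253 k252 13
  14))))))] .n) (.c k171 (.l (.s k84 k87 0 (.s k252 k168 13 (.s k3 k169 14 (.s k170 k255 14 (.d k2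
  k1 k254 0 13)))))) (.c k252 (.q k7 [(.s k84 k87 0 (.s k244 k165 12 (.s k4 k164 11 (.s k6 k5 0 (.d
  k166 k246 k247 11 12))))), (.s k165 k244 12 (.s k245 k5 11 (.s k255 k170 14 (.s k240 k250 2 (.s
  k80 k160 11 (.d k90 k95 k15 2 14)))))), (.s k87 k84 0 (.s k167 k247 11 (.s k255 k170 14 (.s k3
  k171 13 (.s k15 k11 1 (.s k91 k243 13 (.d k95 k83 k175 1 11)))))))] .n) (.c k253 (.l (.s k84 k87 0
  (.s k170 k255 14 (.s k2 k254 13 (.s k252 k168 13 (.d k3 k1 k169 0 14)))))) (.c k254 (.l (.s k87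
  k84 0 (.s k255 k170 14 (.s k3 k171 13 (.s k1 k2 0 (.d k169 k253 k252 13 14)))))) (.c k255 (.q k243
  [(.s k81 k162 12 (.s k84 k87 0 (.s k89 k93 1 (.s k12 k166 14 (.s k252 k168 13 (.d k92 k83 k172 2
  11)))))), (.s k84 k87 0 (.s k252 k168 13 (.s k246 k249 2 (.s k166 k6 11 (.s k4 k247 12 (.d k12 k8
  k89 1 14)))))), (.s k81 k162 12 (.s k87 k84 0 (.s k89 k93 1 (.s k83 k92 2 (.s k80 k82 0 (.d k95
  k91 k90 1 2)))))), (.s k81 k162 12 (.s k89 k93 1 (.s k83 k92 2 (.s k3 k163 11 (.s k1 k2 0 (.d k169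
  k253 k252 13 14))))))] (.c k12 (.l (.s k81 k162 12 (.s k84 k87 0 (.s k252 k168 13 (.s k3 k169 14
  (.s k83 k163 11 (.d k89 k93 k92 1 2))))))) (.c k89 (.f k81 k162 12 (.l (.s k84 k87 0 (.s k252 k168
  13 (.s k3 k169 14 (.s k1 k2 0 (.s k83 k163 11 (.s k82 k80 0 (.d k161 k241 k240 11 12)))))))))
  .n))) .n)))))))))))))

def t27_30 : T TT 256 :=
  (.f k255 k170 14 (.q k89 [(.s k81 k93 1 (.s k243 k162 12 (.s k166 k12 14 (.d k247 k251 k4 1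
  12))))] (.c k4 (.q k1 [(.s k169 k253 13 (.s k3 k2 0 (.s k86 k252 14 (.d k87 k84 k171 0 13)))), (.s
  k81 k93 1 (.s k169 k253 13 (.s k9 k249 11 (.s k13 k5 1 (.d k241 k161 k165 11 13))))), (.s k3 k2 0
  (.s k81 k93 1 (.s k161 k241 11 (.s k82 k240 12 (.s k83 k80 0 (.d k243 k163 k162 11 12))))))] .n)
  (.c k12 (.q k1 [(.s k3 k2 0 (.s k87 k171 13 (.s k86 k84 0 (.d k169 k253 k252 13 14)))), (.s k81
  k93 1 (.s k169 k253 13 (.s k9 k249 11 (.s k13 k5 1 (.d k241 k161 k165 11 13))))), (.s k3 k2 0 (.s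
  k81 k93 1 (.s k161 k241 11 (.s k82 k240 12 (.s k83 k80 0 (.d k243 k163 k162 11 12))))))] .n) (.c
  k81 (.q k87 [(.s k86 k84 0 (.s k3 k171 13 (.s k169 k252 14 (.d k1 k2 k253 0 13)))), (.s k86 k84 0
  (.s k83 k92 2 (.s k95 k91 1 (.s k15 k175 11 (.s k5 k10 2 (.s k165 k245 11 (.d k90 k80 k240 2
  14)))))))] (.c k84 (.l (.s k3 k171 13 (.s k1 k2 0 (.s k169 k253 13 (.s k9 k249 11 (.s k12 k6 2 (.s
  k4 k8 1 (.d k166 k247 k243 12 14)))))))) (.c k86 (.f k3 k171 13 (.q k169 [(.d k1 k2 k253 0 13),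
  (.s k9 k249 11 (.s k12 k6 2 (.s k4 k8 1 (.d k166 k247 k243 12 14))))] (.c k2 (.q k254 [(.d k253
  k252 k1 0 13), (.s k9 k249 11 (.s k12 k6 2 (.s k4 k8 1 (.d k166 k247 k243 12 14))))] .n) (.c k254
  (.l (.s k2 k1 0 (.s k9 k249 11 (.s k12 k6 2 (.s k4 k8 1 (.d k166 k247 k243 12 14)))))) .n))))
  .n))) (.c k93 (.q k21 [(.s k149 k213 7 (.s k63 k42 6 (.s k106 k192 14 (.d k127 k64 k191 6 7)))),
  (.s k149 k213 7 (.s k29 k209 9 (.s k17 k25 1 (.s k51 k34 4 (.s k119 k187 9 (.s k102 k68 4 (.d k153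
  k221 k204 9 14)))))))] (.c k149 (.f k63 k42 6 (.q k106 [(.d k127 k191 k64 7 6), (.s k123 k72 4 (.s
  k243 k183 9 (.s k166 k12 14 (.d k247 k251 k4 1 12))))] (.c k128 (.l (.s k191 k127 7 (.s k123 k72 4
  (.s k243 k183 9 (.s k166 k12 14 (.d k247 k251 k4 1 12)))))) (.c k191 (.q k128 [(.d k64 k127 k192 6
  7), (.s k123 k72 4 (.s k243 k183 9 (.s k247 k251 1 (.d k166 k4 k12 12 14))))] .n) .n)))) (.c k213
  (.l (.s k63 k42 6 (.s k127 k191 7 (.s k106 k64 6 (.s k123 k72 4 (.s k243 k183 9 (.s k166 k12 14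
  (.d k247 k251 k4 1 12)))))))) .n))) (.c k162 (.l (.s k93 k81 1 (.s k12 k174 12 (.s k166 k243 14
  (.d k4 k8 k247 1 12))))) (.c k166 (.f k81 k93 1 (.q k83 [(.s k80 k82 0 (.s k86 k92 2 (.s k87 k84 0
  (.d k95 k91 k90 1 2)))), (.s k80 k82 0 (.s k240 k160 11 (.s k245 k250 2 (.s k165 k5 11 (.s k241
  k13 13 (.d k243 k162 k242 12 0)))))), (.s k86 k92 2 (.s k84 k87 0 (.s k252 k168 13 (.s k169 k3 14
  (.d k253 k254 k1 0 13)))))] (.c k162 (.q k174 [(.s k80 k82 0 (.s k86 k92 2 (.s k87 k84 0 (.d k95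
  k91 k90 1 2)))), (.s k86 k92 2 (.s k84 k87 0 (.s k252 k168 13 (.s k169 k3 14 (.d k253 k254 k1 0
  13))))), (.s k80 k82 0 (.s k240 k160 11 (.s k245 k250 2 (.s k165 k5 11 (.d k90 k95 k15 2 14)))))]
  (.c k95 (.l (.s k82 k80 0 (.s k86 k92 2 (.s k94 k90 1 (.s k84 k87 0 (.s k252 k168 13 (.d k254 k14
  k253 11 0))))))) .n)) (.c k174 (.l (.s k162 k243 12 (.s k80 k82 0 (.s k86 k92 2 (.s k87 k84 0 (.d
  k95 k91 k90 1 2)))))) .n)))) (.c k174 (.l (.s k81 k93 1 (.s k243 k162 12 (.s k166 k12 14 (.d k247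
  k251 k4 1 12))))) (.c k243 (.q k1 [(.s k3 k2 0 (.s k87 k171 13 (.s k86 k84 0 (.d k169 k253 k252 13
  14)))), (.s k81 k93 1 (.s k169 k253 13 (.s k9 k249 11 (.s k13 k5 1 (.d k241 k161 k165 11 13))))),
  (.s k3 k2 0 (.s k93 k81 1 (.s k12 k174 12 (.s k8 k4 1 (.s k9 k6 2 (.s k5 k13 1 (.d k10 k11 k15 0
  2)))))))] .n) (.c k247 (.q k1 [(.s k169 k253 13 (.s k3 k2 0 (.s k86 k252 14 (.d k87 k84 k171 0
  13)))), (.s k81 k93 1 (.s k169 k253 13 (.s k9 k249 11 (.s k13 k5 1 (.d k241 k161 k165 11 13))))),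
  (.s k3 k2 0 (.s k81 k93 1 (.s k161 k241 11 (.s k82 k240 12 (.s k83 k80 0 (.d k243 k163 k162 11
  12))))))] .n) (.c k251 (.l (.s k93 k81 1 (.s k12 k174 12 (.s k4 k8 1 (.d k166 k247 k243 12 14)))))
  .n))))))))))))

def t27_39 : T TT 256 :=
  (.f k170 k255 14 (.q k51 [(.s k17 k34 4 (.s k153 k221 9 (.s k136 k187 4 (.d k204 k68 k102 9
  14))))] (.c k17 (.q k64 [(.s k192 k128 7 (.s k106 k127 6 (.s k63 k149 14 (.d k42 k21 k234 6 7)))),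
  (.s k192 k128 7 (.s k98 k145 12 (.s k81 k115 4 (.s k89 k93 1 (.s k8 k251 12 (.s k12 k4 1 (.d k243
  k162 k166 12 14)))))))] (.c k128 (.l (.s k106 k127 6 (.s k42 k234 7 (.s k63 k21 6 (.s k59 k55 1
  (.s k153 k200 12 (.s k136 k187 4 (.d k204 k68 k102 9 14)))))))) (.c k192 (.f k106 k127 6 (.q k63
  [(.d k42 k234 k21 7 6), (.s k59 k55 1 (.s k153 k200 12 (.s k136 k187 4 (.d k204 k68 k102 9 14))))]
  (.c k213 (.l (.s k234 k42 7 (.s k59 k55 1 (.s k153 k200 12 (.s k136 k187 4 (.d k204 k68 k102 9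
  14)))))) (.c k234 (.q k213 [(.d k21 k42 k149 6 7), (.s k59 k55 1 (.s k153 k200 12 (.s k136 k187 4
  (.d k204 k68 k102 9 14))))] .n) .n)))) .n))) (.c k34 (.q k64 [(.s k192 k128 7 (.s k106 k127 6 (.s
  k63 k149 14 (.d k42 k21 k234 6 7)))), (.s k192 k128 7 (.s k98 k145 12 (.s k81 k115 4 (.s k89 k93 1
  (.s k8 k251 12 (.s k12 k4 1 (.d k243 k162 k166 12 14)))))))] (.c k128 (.l (.s k106 k127 6 (.s k42
  k234 7 (.s k63 k21 6 (.s k59 k55 1 (.s k153 k200 12 (.s k136 k187 4 (.d k204 k68 k102 9 14))))))))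
  (.c k192 (.f k106 k127 6 (.q k63 [(.d k42 k234 k21 7 6), (.s k59 k55 1 (.s k153 k200 12 (.s k136
  k187 4 (.d k204 k68 k102 9 14))))] (.c k213 (.l (.s k234 k42 7 (.s k59 k55 1 (.s k153 k200 12 (.s
  k136 k187 4 (.d k204 k68 k102 9 14)))))) (.c k234 (.q k213 [(.d k21 k42 k149 6 7), (.s k59 k55 1
  (.s k153 k200 12 (.s k136 k187 4 (.d k204 k68 k102 9 14))))] .n) .n)))) .n))) (.c k68 (.q k1 [(.s
  k3 k2 0 (.s k169 k253 13 (.s k168 k171 0 (.d k252 k84 k86 13 14)))), (.s k17 k34 4 (.s k49 k33 3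
  (.s k153 k221 9 (.s k101 k205 13 (.s k32 k239 10 (.d k48 k50 k16 0 3))))))] (.c k253 (.l (.s k3 k2
  0 (.s k17 k34 4 (.s k19 k35 3 (.s k18 k16 0 (.d k33 k49 k48 3 4)))))) .n)) (.c k102 (.q k165 [(.s
  k5 k245 11 (.s k15 k10 2 (.s k160 k175 2 (.d k240 k80 k90 11 14)))), (.s k17 k34 4 (.s k153 k221 9
  (.s k160 k175 2 (.s k177 k141 5 (.d k240 k114 k80 8 11))))), (.s k17 k34 4 (.s k153 k221 9 (.s
  k136 k187 4 (.s k141 k177 5 (.s k204 k68 9 (.s k15 k78 8 (.d k5 k10 k245 2 11)))))))] (.c k15 (.l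
  (.s k17 k34 4 (.s k153 k221 9 (.s k177 k141 5 (.s k240 k114 8 (.d k160 k175 k80 2 11)))))) .n))
  (.c k136 (.q k1 [(.s k3 k2 0 (.s k169 k253 13 (.s k168 k171 0 (.d k252 k84 k86 13 14)))), (.s k17
  k34 4 (.s k49 k33 3 (.s k153 k221 9 (.s k101 k205 13 (.s k32 k239 10 (.d k48 k50 k16 0 3))))))]
  (.c k253 (.l (.s k3 k2 0 (.s k17 k34 4 (.s k19 k35 3 (.s k18 k16 0 (.d k33 k49 k48 3 4)))))) .n))
  (.c k153 (.q k90 [(.s k10 k250 11 (.s k15 k5 2 (.s k80 k95 2 (.d k240 k160 k165 11 14)))), (.s k34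
  k17 4 (.s k80 k95 2 (.s k102 k238 9 (.s k114 k78 5 (.d k240 k177 k160 8 11))))), (.s k34 k17 4 (.s
  k102 k238 9 (.s k68 k119 4 (.s k78 k114 5 (.s k204 k136 9 (.s k15 k141 8 (.d k10 k5 k250 2
  11)))))))] (.c k15 (.l (.s k34 k17 4 (.s k102 k238 9 (.s k114 k78 5 (.s k240 k177 8 (.d k80 k95
  k160 2 11)))))) .n)) (.c k187 (.l (.s k34 k17 4 (.s k102 k238 9 (.s k68 k119 4 (.d k204 k136 k153
  9 14))))) (.c k204 (.f k17 k34 4 (.q k19 [(.s k3 k35 3 (.s k1 k2 0 (.s k18 k16 0 (.d k33 k49 k48 3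
  4)))), (.s k16 k18 0 (.s k154 k223 10 (.s k138 k186 3 (.s k207 k69 10 (.d k48 k32 k101 3 14))))),
  (.s k3 k35 3 (.s k2 k1 0 (.s k86 k254 13 (.d k153 k221 k220 9 10))))] (.c k2 (.l (.s k3 k35 3 (.s
  k18 k16 0 (.s k33 k48 4 (.s k1 k49 3 (.s k169 k253 13 (.s k168 k171 0 (.d k252 k84 k86 13
  14)))))))) (.c k32 (.l (.s k18 k16 0 (.s k3 k35 3 (.s k33 k48 4 (.d k1 k2 k49 0 3))))) (.c k221
  (.q k238 [(.s k3 k35 3 (.s k1 k2 0 (.s k18 k16 0 (.d k33 k49 k48 3 4)))), (.s k16 k18 0 (.s k154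
  k223 10 (.s k138 k186 3 (.s k207 k69 10 (.d k48 k32 k101 3 14))))), (.s k3 k35 3 (.s k2 k1 0 (.s
  k86 k254 13 (.s k84 k87 0 (.d k252 k168 k169 13 14)))))] (.c k2 (.l (.s k3 k35 3 (.s k18 k16 0 (.s
  k33 k48 4 (.s k1 k49 3 (.s k169 k253 13 (.s k168 k171 0 (.d k252 k84 k86 13 14)))))))) (.c k32 (.l
  (.s k18 k16 0 (.s k3 k35 3 (.s k33 k48 4 (.d k1 k2 k49 0 3))))) .n))) (.c k238 (.l (.s k221 k153 9
  (.s k3 k35 3 (.s k1 k2 0 (.s k18 k16 0 (.d k33 k49 k48 3 4)))))) .n)))))) (.c k221 (.l (.s k34 k17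
  4 (.s k102 k238 9 (.s k204 k153 14 (.d k68 k119 k136 4 9))))) (.c k238 (.l (.s k17 k34 4 (.s k153
  k221 9 (.s k204 k102 14 (.d k136 k187 k68 4 9))))) .n))))))))))))

def t27_42 : T TT 256 :=
  (.f k170 k255 14 (.q k252 [(.s k84 k168 13 (.s k86 k87 0 (.s k2 k254 13 (.d k3 k1 k169 0 14))))]
  (.c k1 (.q k4 [(.s k12 k8 1 (.s k166 k247 12 (.s k162 k174 1 (.d k243 k81 k89 12 14)))), (.s k84
  k168 13 (.s k86 k87 0 (.s k166 k247 12 (.s k6 k246 11 (.s k7 k5 0 (.d k244 k164 k165 11 12)))))),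
  (.s k12 k8 1 (.s k84 k168 13 (.s k92 k172 11 (.s k88 k80 1 (.d k164 k244 k240 11 13)))))] .n) (.c
  k2 (.f k84 k168 13 (.f k86 k87 0 (.f k3 k169 14 (.q k22 [(.s k60 k41 6 (.s k150 k214 7 (.d k20 k40
  k215 5 8))), (.s k150 k214 7 (.s k20 k215 8 (.s k23 k21 0 (.d k212 k148 k149 7 8)))), (.s k60 k41
  6 (.s k124 k188 7 (.s k105 k67 6 (.d k150 k214 k195 7 14)))), (.s k60 k41 6 (.s k40 k20 5 (.s k105
  k235 8 (.d k124 k67 k188 6 7))))] .n)))) (.c k3 (.f k168 k84 13 (.q k240 [(.s k80 k160 11 (.s k90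
  k95 2 (.s k10 k250 11 (.d k15 k5 k165 2 14)))), (.s k248 k244 1 (.s k8 k88 11 (.s k89 k251 12 (.s
  k81 k93 1 (.s k243 k162 12 (.d k12 k4 k166 1 14))))))] (.c k80 (.l (.s k248 k244 1 (.s k88 k8 11
  (.s k164 k12 13 (.s k160 k172 1 (.s k165 k175 2 (.s k5 k245 11 (.d k15 k10 k90 2 14)))))))) (.c
  k87 (.l (.s k171 k169 0 (.s k80 k160 11 (.s k90 k95 2 (.s k10 k250 11 (.d k15 k5 k165 2 14))))))
  (.c k171 (.q k87 [(.s k80 k160 11 (.s k90 k95 2 (.s k10 k250 11 (.d k15 k5 k165 2 14)))), (.s k248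
  k244 1 (.s k8 k88 11 (.s k89 k251 12 (.s k81 k93 1 (.s k243 k162 12 (.d k12 k4 k166 1 14))))))]
  (.c k80 (.l (.s k248 k244 1 (.s k88 k8 11 (.s k164 k12 13 (.s k160 k172 1 (.s k165 k175 2 (.s k5
  k245 11 (.d k15 k10 k90 2 14)))))))) .n)) .n))))) (.c k84 (.q k150 [(.s k20 k215 8 (.s k130 k190 5
  (.s k195 k65 8 (.d k60 k40 k105 5 14)))), (.s k130 k190 5 (.s k195 k65 8 (.s k214 k233 6 (.s k86
  k22 7 (.s k2 k254 13 (.d k3 k1 k169 0 14)))))), (.s k20 k215 8 (.s k60 k40 5 (.s k188 k124 7 (.s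
  k169 k131 6 (.s k1 k253 13 (.d k3 k2 k86 0 14))))))] (.c k60 (.q k21 [(.s k20 k215 8 (.s k22 k23 0
  (.s k214 k86 7 (.s k195 k233 6 (.d k130 k190 k65 5 8))))), (.s k149 k213 7 (.s k128 k191 6 (.s
  k148 k151 0 (.s k188 k168 5 (.s k131 k169 6 (.d k130 k190 k129 5 0)))))), (.s k20 k215 8 (.s k22
  k23 0 (.s k86 k214 7 (.s k2 k254 13 (.d k3 k1 k169 0 14)))))] (.c k125 (.l (.s k190 k130 5 (.s k20
  k215 8 (.s k22 k23 0 (.s k86 k214 7 (.s k2 k254 13 (.d k3 k1 k169 0 14))))))) (.c k151 (.l (.s k20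
  k215 8 (.s k23 k22 0 (.s k149 k213 7 (.s k128 k191 6 (.s k192 k64 7 (.d k212 k232 k86 5 8)))))))
  (.c k190 (.q k125 [(.s k20 k215 8 (.s k65 k105 5 (.s k195 k130 8 (.s k214 k233 6 (.d k22 k23 k86 0
  7))))), (.s k105 k65 5 (.s k149 k213 7 (.s k61 k193 13 (.s k1 k41 5 (.d k253 k189 k169 7 13))))),
  (.s k20 k215 8 (.s k22 k23 0 (.s k86 k214 7 (.s k2 k254 13 (.d k3 k1 k169 0 14)))))] (.c k22 (.l
  (.s k65 k105 5 (.s k195 k130 8 (.s k213 k149 7 (.s k214 k233 6 (.d k215 k212 k20 0 8)))))) (.c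
  k169 (.l (.s k20 k215 8 (.s k22 k23 0 (.s k65 k105 5 (.s k195 k130 8 (.d k214 k233 k86 6 7))))))
  .n))) .n)))) (.c k195 (.q k146 [(.s k154 k158 1 (.s k16 k223 10 (.s k48 k32 3 (.s k138 k186 3 (.d
  k207 k69 k101 10 14))))), (.s k130 k190 5 (.s k154 k158 1 (.s k138 k186 3 (.s k142 k134 1 (.d k178
  k162 k166 3 5))))), (.s k130 k190 5 (.s k154 k158 1 (.s k16 k223 10 (.s k81 k211 8 (.d k162 k243
  k178 12 3))))), (.s k130 k190 5 (.s k162 k178 3 (.s k81 k243 12 (.s k89 k93 1 (.d k211 k16 k28 8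
  10)))))] (.c k215 (.q k235 [(.s k130 k190 5 (.s k154 k158 1 (.s k138 k186 3 (.s k178 k162 3 (.d
  k142 k134 k166 1 5))))), (.s k154 k158 1 (.s k16 k223 10 (.s k48 k32 3 (.s k138 k186 3 (.d k207
  k69 k101 10 14))))), (.s k130 k190 5 (.s k162 k178 3 (.s k81 k243 12 (.s k89 k93 1 (.d k211 k16
  k28 8 10))))), (.s k40 k105 8 (.s k20 k60 5 (.s k154 k158 1 (.s k16 k223 10 (.s k28 k24 1 (.d k211
  k81 k89 8 10))))))] .n) (.c k235 (.l (.s k215 k20 8 (.s k130 k190 5 (.s k154 k158 1 (.s k16 k223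
  10 (.s k81 k211 8 (.d k162 k243 k178 12 3))))))) .n))) .n))) (.c k86 (.q k4 [(.s k166 k247 12 (.s
  k162 k174 1 (.s k243 k81 12 (.d k12 k8 k89 1 14)))), (.s k84 k168 13 (.s k244 k164 11 (.s k240
  k248 1 (.s k160 k80 11 (.s k165 k175 2 (.s k5 k245 11 (.d k15 k10 k90 2 14)))))))] (.c k8 (.l (.s
  k166 k247 12 (.s k162 k174 1 (.s k168 k84 13 (.s k169 k171 0 (.s k172 k163 2 (.s k12 k92 11 (.d
  k243 k89 k81 14 12)))))))) .n)) (.c k87 (.l (.s k168 k84 13 (.s k169 k171 0 (.s k3 k86 14 (.d k1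
  k2 k253 0 13))))) (.c k168 (.q k150 [(.s k20 k215 8 (.s k130 k190 5 (.s k195 k65 8 (.d k60 k40
  k105 5 14)))), (.s k130 k190 5 (.s k195 k65 8 (.s k214 k233 6 (.s k86 k22 7 (.s k2 k254 13 (.d k3
  k1 k169 0 14)))))), (.s k20 k215 8 (.s k60 k40 5 (.s k188 k124 7 (.s k169 k131 6 (.s k1 k253 13
  (.d k3 k2 k86 0 14))))))] (.c k60 (.q k21 [(.s k213 k149 7 (.s k215 k20 8 (.s k214 k212 0 (.s k195
  k233 6 (.d k130 k190 k65 5 8))))), (.s k149 k213 7 (.s k151 k148 0 (.s k190 k130 5 (.s k191 k128 6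
  (.s k188 k189 0 (.d k131 k171 k169 5 6)))))), (.s k20 k215 8 (.s k22 k23 0 (.s k86 k214 7 (.s k2
  k254 13 (.d k3 k1 k169 0 14)))))] (.c k125 (.l (.s k190 k130 5 (.s k20 k215 8 (.s k22 k23 0 (.s
  k86 k214 7 (.s k2 k254 13 (.d k3 k1 k169 0 14))))))) (.c k190 (.q k125 [(.s k20 k215 8 (.s k65
  k105 5 (.s k195 k130 8 (.s k214 k233 6 (.d k22 k23 k86 0 7))))), (.s k105 k65 5 (.s k149 k213 7
  (.s k61 k193 13 (.s k1 k41 5 (.d k253 k189 k169 7 13))))), (.s k20 k215 8 (.s k23 k22 0 (.s k149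
  k213 7 (.s k148 k151 0 (.d k212 k84 k86 7 8)))))] (.c k22 (.l (.s k65 k105 5 (.s k195 k130 8 (.s
  k213 k149 7 (.s k214 k233 6 (.d k215 k212 k20 0 8)))))) (.c k41 (.l (.s k20 k215 8 (.s k22 k23 0
  (.s k65 k105 5 (.s k195 k130 8 (.d k214 k233 k86 6 7)))))) .n))) (.c k213 (.l (.s k20 k215 8 (.s
  k22 k23 0 (.s k214 k86 7 (.s k195 k233 6 (.d k130 k190 k65 5 8)))))) .n)))) (.c k195 (.q k162 [(.s
  k243 k81 12 (.s k166 k174 1 (.s k12 k89 14 (.d k4 k8 k247 1 12)))), (.s k81 k243 12 (.s k130 k190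
  5 (.s k146 k178 3 (.s k154 k158 1 (.d k16 k211 k223 8 10))))), (.s k130 k190 5 (.s k166 k174 1 (.s
  k134 k182 3 (.s k142 k138 1 (.d k178 k146 k154 3 5)))))] (.c k174 (.l (.s k81 k243 12 (.s k130
  k190 5 (.s k146 k178 3 (.s k211 k16 8 (.d k89 k93 k28 1 10)))))) (.c k215 (.q k235 [(.s k243 k81
  12 (.s k166 k174 1 (.s k12 k89 14 (.d k4 k8 k247 1 12)))), (.s k105 k40 8 (.s k166 k174 1 (.s k227
  k44 10 (.s k32 k97 8 (.d k239 k231 k101 1 10))))), (.s k81 k243 12 (.s k130 k190 5 (.s k146 k178 3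
  (.s k211 k16 8 (.d k89 k93 k28 1 10)))))] (.c k93 (.l (.s k243 k81 12 (.s k166 k174 1 (.s k12 k89
  14 (.d k4 k8 k247 1 12))))) .n)) (.c k235 (.l (.s k215 k20 8 (.s k166 k174 1 (.s k4 k247 12 (.s
  k12 k8 1 (.d k243 k81 k89 12 14)))))) .n)))) .n))) (.c k169 (.q k4 [(.s k166 k247 12 (.s k162 k174
  1 (.s k243 k81 12 (.d k12 k8 k89 1 14)))), (.s k12 k8 1 (.s k84 k168 13 (.s k164 k244 11 (.s k88
  k240 13 (.d k92 k80 k172 1 11))))), (.s k84 k168 13 (.s k86 k87 0 (.s k166 k247 12 (.s k6 k246 11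
  (.s k7 k5 0 (.d k244 k164 k165 11 12))))))] .n) (.c k171 (.l (.s k84 k168 13 (.s k86 k87 0 (.s k3
  k169 14 (.d k2 k1 k254 0 13))))) (.c k254 (.l (.s k168 k84 13 (.s k169 k171 0 (.s k1 k253 13 (.d
  k3 k2 k86 0 14))))) .n))))))))))))

def t27_43 : T TT 256 :=
  (.f k170 k255 14 (.q k8 [(.s k12 k4 1 (.s k89 k251 12 (.s k81 k93 1 (.d k243 k162 k166 12 14))))]
  (.c k4 (.q k42 [(.s k106 k234 7 (.s k64 k127 6 (.s k192 k128 7 (.d k63 k21 k149 6 14)))), (.s k59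
  k25 4 (.s k251 k89 12 (.s k187 k123 7 (.s k153 k136 4 (.d k106 k234 k200 7 12)))))] (.c k11 (.l
  (.s k59 k25 4 (.s k63 k21 6 (.s k106 k234 7 (.s k64 k127 6 (.d k192 k128 k149 7 14)))))) (.c k59
  (.q k11 [(.s k106 k234 7 (.s k64 k127 6 (.s k192 k128 7 (.d k63 k21 k149 6 14)))), (.s k9 k10 0
  (.s k89 k251 12 (.s k169 k249 11 (.s k168 k171 0 (.d k248 k88 k90 11 12)))))] .n) (.c k106 (.l (.s
  k21 k63 6 (.s k89 k251 12 (.s k149 k213 7 (.s k29 k209 9 (.d k25 k17 k59 1 4)))))) (.c k234 (.l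
  (.s k59 k25 4 (.s k63 k21 6 (.s k251 k89 12 (.s k187 k123 7 (.s k153 k136 4 (.s k17 k221 9 (.d k51
  k55 k34 1 4)))))))) .n))))) (.c k11 (.q k59 [(.s k12 k4 1 (.s k89 k251 12 (.s k81 k93 1 (.d k243
  k162 k166 12 14)))), (.s k42 k25 4 (.s k63 k21 6 (.s k106 k234 7 (.s k64 k127 6 (.d k192 k128 k149
  7 14)))))] .n) (.c k12 (.q k10 [(.s k15 k5 2 (.s k90 k250 11 (.s k80 k95 2 (.d k240 k160 k165 11
  14)))), (.s k11 k9 0 (.s k251 k89 12 (.s k171 k91 11 (.s k169 k168 0 (.d k90 k250 k248 11 12)))))]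
  (.c k11 (.q k59 [(.s k15 k5 2 (.s k90 k250 11 (.s k80 k95 2 (.d k240 k160 k165 11 14)))), (.s k25
  k42 4 (.s k89 k251 12 (.s k153 k217 7 (.s k136 k187 4 (.d k200 k72 k106 7 12)))))] (.c k93 (.q
  k174 [(.s k15 k5 2 (.s k90 k250 11 (.s k240 k165 14 (.d k80 k95 k160 2 11)))), (.s k25 k42 4 (.s
  k89 k251 12 (.s k153 k217 7 (.s k136 k187 4 (.d k200 k72 k106 7 12)))))] .n) (.c k174 (.q k93 [(.d
  k89 k81 k251 1 12), (.s k15 k5 2 (.s k90 k250 11 (.s k80 k95 2 (.d k240 k160 k165 11 14))))] .n)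
  .n))) (.c k59 (.l (.s k11 k9 0 (.s k15 k5 2 (.s k90 k250 11 (.s k80 k95 2 (.d k240 k160 k165 11
  14)))))) (.c k90 (.l (.s k5 k15 2 (.s k89 k251 12 (.s k165 k245 11 (.s k13 k241 13 (.d k9 k11 k1 0
  1)))))) (.c k93 (.q k174 [(.s k15 k5 2 (.s k90 k250 11 (.s k240 k165 14 (.d k80 k95 k160 2 11)))),
  (.s k11 k9 0 (.s k251 k89 12 (.s k171 k91 11 (.s k169 k168 0 (.d k90 k250 k248 11 12))))), (.s k5
  k15 2 (.s k166 k162 1 (.s k4 k247 12 (.s k6 k7 0 (.s k86 k246 11 (.d k2 k14 k254 1 13))))))] (.c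
  k11 (.q k59 [(.s k15 k5 2 (.s k90 k250 11 (.s k240 k165 14 (.d k80 k95 k160 2 11)))), (.s k25 k42
  4 (.s k89 k251 12 (.s k153 k217 7 (.s k136 k187 4 (.d k200 k72 k106 7 12)))))] .n) (.c k59 (.l (.s
  k11 k9 0 (.s k15 k5 2 (.s k90 k250 11 (.s k80 k95 2 (.d k240 k160 k165 11 14)))))) .n))) (.c k174
  (.q k93 [(.d k89 k81 k251 1 12), (.s k15 k5 2 (.s k90 k250 11 (.s k80 k95 2 (.d k240 k160 k165 11
  14))))] (.c k11 (.q k59 [(.d k89 k81 k251 1 12), (.s k15 k5 2 (.s k90 k250 11 (.s k80 k95 2 (.d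
  k240 k160 k165 11 14))))] .n) (.c k59 (.l (.s k11 k9 0 (.d k89 k81 k251 1 12))) .n))) (.c k250 (.l
  (.s k11 k9 0 (.s k15 k5 2 (.s k3 k7 1 (.s k1 k2 0 (.s k169 k253 13 (.s k168 k171 0 (.d k248 k88
  k90 11 12)))))))) .n))))))) (.c k59 (.q k11 [(.s k12 k4 1 (.s k89 k251 12 (.s k81 k93 1 (.d k243
  k162 k166 12 14)))), (.s k10 k9 0 (.s k15 k5 2 (.s k90 k250 11 (.s k80 k95 2 (.d k240 k160 k165 11
  14)))))] .n) (.c k81 (.f k251 k89 12 (.q k42 [(.s k63 k21 6 (.s k106 k234 7 (.s k64 k127 6 (.d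
  k192 k128 k149 7 14)))), (.s k59 k25 4 (.s k187 k123 7 (.s k153 k136 4 (.d k106 k234 k200 7
  12)))), (.s k12 k4 1 (.s k63 k21 6 (.s k46 k29 4 (.s k38 k34 1 (.d k25 k59 k51 4 6)))))] (.c k11
  (.l (.s k59 k25 4 (.s k106 k234 7 (.s k153 k200 12 (.d k187 k136 k123 4 7))))) (.c k59 (.q k11
  [(.s k63 k21 6 (.s k106 k234 7 (.s k64 k127 6 (.d k192 k128 k149 7 14)))), (.s k10 k9 0 (.s k90
  k250 11 (.s k169 k248 12 (.d k171 k168 k91 0 11))))] .n) .n)))) (.c k89 (.q k42 [(.s k63 k21 6 (.s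
  k106 k234 7 (.s k64 k127 6 (.d k192 k128 k149 7 14)))), (.s k12 k4 1 (.s k63 k21 6 (.s k46 k29 4
  (.s k38 k34 1 (.d k25 k59 k51 4 6))))), (.s k4 k12 1 (.s k106 k234 7 (.s k166 k247 12 (.s k46 k226
  9 (.s k34 k38 1 (.s k174 k162 1 (.d k238 k110 k102 7 9)))))))] (.c k11 (.l (.s k59 k25 4 (.s k63
  k21 6 (.s k106 k234 7 (.s k64 k127 6 (.d k192 k128 k149 7 14)))))) (.c k59 (.q k11 [(.s k63 k21 6
  (.s k106 k234 7 (.s k64 k127 6 (.d k192 k128 k149 7 14)))), (.s k10 k9 0 (.s k15 k5 2 (.s k90 k250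
  11 (.s k80 k95 2 (.d k240 k160 k165 11 14)))))] .n) .n))) (.c k93 (.f k251 k89 12 (.f k12 k4 1 (.q
  k42 [(.s k59 k25 4 (.s k187 k123 7 (.s k153 k136 4 (.d k106 k234 k200 7 12)))), (.s k63 k21 6 (.s
  k46 k29 4 (.s k38 k34 1 (.d k25 k59 k51 4 6))))] (.c k11 (.l (.s k59 k25 4 (.s k106 k234 7 (.s
  k153 k200 12 (.d k187 k136 k123 4 7))))) (.c k25 (.l (.s k63 k21 6 (.s k106 k234 7 (.s k64 k127 6
  (.d k192 k128 k149 7 14))))) (.c k59 (.q k11 [(.s k10 k9 0 (.s k171 k91 11 (.s k169 k168 0 (.d k90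
  k250 k248 11 12)))), (.s k63 k21 6 (.s k106 k234 7 (.s k64 k127 6 (.d k192 k128 k149 7 14))))] .n)
  .n)))))) (.c k162 (.q k42 [(.s k63 k21 6 (.s k106 k234 7 (.s k64 k127 6 (.d k192 k128 k149 7
  14)))), (.s k12 k4 1 (.s k63 k21 6 (.s k46 k29 4 (.s k38 k34 1 (.d k25 k59 k51 4 6))))), (.s k59
  k25 4 (.s k89 k251 12 (.s k106 k234 7 (.s k72 k123 4 (.d k200 k136 k153 7 12)))))] (.c k11 (.l (.s
  k59 k25 4 (.s k63 k21 6 (.s k106 k234 7 (.s k64 k127 6 (.d k192 k128 k149 7 14)))))) (.c k59 (.q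
  k11 [(.s k63 k21 6 (.s k106 k234 7 (.s k64 k127 6 (.d k192 k128 k149 7 14)))), (.s k9 k10 0 (.s
  k89 k251 12 (.s k169 k249 11 (.s k168 k171 0 (.d k248 k88 k90 11 12)))))] .n) .n))) (.c k166 (.f
  k251 k89 12 (.f k12 k4 1 (.q k42 [(.s k63 k21 6 (.s k46 k29 4 (.s k38 k34 1 (.d k25 k59 k51 4
  6)))), (.s k59 k25 4 (.s k106 k234 7 (.s k153 k200 12 (.d k187 k136 k123 4 7))))] (.c k11 (.l (.s
  k59 k25 4 (.s k106 k234 7 (.s k153 k200 12 (.d k187 k136 k123 4 7))))) (.c k25 (.l (.s k63 k21 6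
  (.s k106 k234 7 (.s k64 k127 6 (.d k192 k128 k149 7 14))))) (.c k59 (.q k11 [(.s k63 k21 6 (.s
  k106 k234 7 (.s k64 k127 6 (.d k192 k128 k149 7 14)))), (.s k10 k9 0 (.s k90 k250 11 (.s k169 k248
  12 (.d k171 k168 k91 0 11))))] .n) .n)))))) (.c k243 (.f k251 k89 12 (.f k12 k4 1 (.q k42 [(.s k63
  k21 6 (.s k46 k29 4 (.s k38 k34 1 (.d k25 k59 k51 4 6)))), (.s k59 k25 4 (.s k106 k234 7 (.s k153
  k200 12 (.d k187 k136 k123 4 7))))] (.c k11 (.l (.s k59 k25 4 (.s k106 k234 7 (.s k153 k200 12 (.d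
  k187 k136 k123 4 7))))) (.c k25 (.l (.s k63 k21 6 (.s k106 k234 7 (.s k64 k127 6 (.d k192 k128
  k149 7 14))))) (.c k59 (.q k11 [(.s k63 k21 6 (.s k106 k234 7 (.s k64 k127 6 (.d k192 k128 k149 7
  14)))), (.s k10 k9 0 (.s k90 k250 11 (.s k169 k248 12 (.d k171 k168 k91 0 11))))] .n) .n)))))) (.c
  k247 (.l (.s k12 k4 1 (.s k89 k251 12 (.s k243 k166 14 (.d k81 k93 k162 1 12))))) (.c k251 (.q k59
  [(.s k42 k25 4 (.s k106 k234 7 (.s k64 k127 6 (.s k192 k128 7 (.d k63 k21 k149 6 14))))), (.s k12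
  k4 1 (.s k25 k42 4 (.s k51 k38 6 (.s k34 k17 4 (.s k102 k238 9 (.s k68 k119 4 (.d k204 k136 k153 9
  14)))))))] (.c k21 (.l (.s k12 k4 1 (.s k42 k25 4 (.s k106 k234 7 (.s k64 k127 6 (.s k192 k128 7
  (.s k72 k132 9 (.d k200 k136 k153 7 12)))))))) (.c k25 (.f k12 k4 1 (.q k24 [(.s k36 k48 5 (.s k40
  k56 3 (.s k44 k32 1 (.d k60 k28 k20 3 5)))), (.s k40 k56 3 (.s k105 k235 8 (.s k65 k125 5 (.s k195
  k130 8 (.d k60 k20 k150 5 14))))), (.s k48 k36 5 (.s k32 k16 3 (.s k101 k239 10 (.s k69 k117 3 (.d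
  k207 k138 k154 10 14)))))] (.c k20 (.l (.s k36 k48 5 (.s k40 k56 3 (.s k32 k44 1 (.s k101 k239 10
  (.s k166 k231 8 (.s k243 k89 14 (.d k162 k174 k81 1 12)))))))) (.c k243 (.q k247 [(.s k48 k36 5
  (.s k16 k32 3 (.s k20 k28 1 (.d k40 k56 k60 3 5)))), (.s k40 k56 3 (.s k105 k235 8 (.s k65 k125 5
  (.s k195 k130 8 (.d k60 k20 k150 5 14))))), (.s k48 k36 5 (.s k32 k16 3 (.s k101 k239 10 (.s k69
  k117 3 (.d k207 k138 k154 10 14)))))] (.c k20 (.l (.s k56 k40 3 (.s k48 k36 5 (.s k52 k60 1 (.s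
  k32 k16 3 (.s k101 k239 10 (.d k117 k182 k69 8 3))))))) .n)) (.c k247 (.q k243 [(.s k81 k162 12
  (.d k89 k93 k166 1 14)), (.s k36 k48 5 (.s k40 k56 3 (.s k44 k32 1 (.d k60 k28 k20 3 5))))] .n)
  .n))))) (.c k42 (.f k12 k4 1 (.q k40 [(.s k60 k20 5 (.s k44 k28 3 (.s k36 k32 1 (.d k24 k56 k48 3
  5)))), (.s k56 k24 3 (.s k57 k58 0 (.s k105 k235 8 (.s k153 k201 11 (.s k136 k187 4 (.d k200 k72
  k106 7 12)))))), (.s k60 k20 5 (.s k105 k235 8 (.s k65 k125 5 (.d k195 k130 k150 8 14))))] (.c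
  k243 (.q k247 [(.s k60 k20 5 (.s k44 k28 3 (.s k36 k32 1 (.d k24 k56 k48 3 5)))), (.s k56 k24 3
  (.s k57 k58 0 (.s k105 k235 8 (.s k153 k201 11 (.s k136 k187 4 (.d k200 k72 k106 7 12)))))), (.s
  k60 k20 5 (.s k105 k235 8 (.s k65 k125 5 (.d k195 k130 k150 8 14))))] .n) (.c k247 (.q k243 [(.s
  k81 k162 12 (.d k89 k93 k166 1 14)), (.s k20 k60 5 (.s k24 k56 3 (.s k16 k28 1 (.d k48 k32 k36 3
  5))))] .n) .n)))) (.c k243 (.q k247 [(.d k4 k12 k166 1 12), (.s k42 k25 4 (.s k63 k21 6 (.s k106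
  k234 7 (.s k64 k127 6 (.d k192 k128 k149 7 14)))))] .n) (.c k247 (.q k243 [(.s k12 k4 1 (.s k81
  k162 12 (.d k89 k93 k166 1 14))), (.s k42 k25 4 (.s k63 k21 6 (.s k106 k234 7 (.s k64 k127 6 (.d
  k192 k128 k149 7 14)))))] .n) .n)))))) .n))))))))))))))

def t27_45 : T TT 256 :=
  (.f k255 k170 14 (.q k89 [(.s k81 k93 1 (.s k243 k162 12 (.s k166 k12 14 (.d k247 k251 k4 1
  12))))] (.c k4 (.q k1 [(.s k169 k253 13 (.s k3 k2 0 (.s k86 k252 14 (.d k87 k84 k171 0 13)))), (.s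
  k81 k93 1 (.s k169 k253 13 (.s k9 k249 11 (.s k13 k5 1 (.d k241 k161 k165 11 13))))), (.s k3 k2 0
  (.s k81 k93 1 (.s k161 k241 11 (.s k82 k240 12 (.s k83 k80 0 (.d k243 k163 k162 11 12))))))] .n)
  (.c k12 (.q k1 [(.s k3 k2 0 (.s k87 k171 13 (.s k86 k84 0 (.d k169 k253 k252 13 14)))), (.s k81
  k93 1 (.s k169 k253 13 (.s k9 k249 11 (.s k13 k5 1 (.d k241 k161 k165 11 13))))), (.s k3 k2 0 (.s
  k81 k93 1 (.s k161 k241 11 (.s k82 k240 12 (.s k83 k80 0 (.d k243 k163 k162 11 12))))))] .n) (.c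
  k81 (.q k87 [(.s k86 k84 0 (.s k3 k171 13 (.s k169 k252 14 (.d k1 k2 k253 0 13)))), (.s k86 k84 0
  (.s k83 k92 2 (.s k95 k91 1 (.s k15 k175 11 (.s k5 k10 2 (.s k165 k245 11 (.d k90 k80 k240 2
  14)))))))] (.c k84 (.l (.s k3 k171 13 (.s k1 k2 0 (.s k169 k253 13 (.s k9 k249 11 (.s k12 k6 2 (.s
  k4 k8 1 (.d k166 k247 k243 12 14)))))))) (.c k86 (.f k3 k171 13 (.q k169 [(.d k1 k2 k253 0 13),
  (.s k9 k249 11 (.s k12 k6 2 (.s k4 k8 1 (.d k166 k247 k243 12 14))))] (.c k2 (.q k254 [(.d k253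
  k252 k1 0 13), (.s k9 k249 11 (.s k12 k6 2 (.s k4 k8 1 (.d k166 k247 k243 12 14))))] .n) (.c k254
  (.l (.s k2 k1 0 (.s k9 k249 11 (.s k12 k6 2 (.s k4 k8 1 (.d k166 k247 k243 12 14)))))) .n))))
  .n))) (.c k93 (.q k21 [(.s k149 k213 7 (.s k63 k42 6 (.s k106 k192 14 (.d k127 k64 k191 6 7)))),
  (.s k149 k213 7 (.s k29 k209 9 (.s k17 k25 1 (.s k51 k34 4 (.s k119 k187 9 (.s k102 k68 4 (.d k153
  k221 k204 9 14)))))))] (.c k149 (.f k63 k42 6 (.q k106 [(.d k127 k191 k64 7 6), (.s k123 k72 4 (.s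
  k243 k183 9 (.s k166 k12 14 (.d k247 k251 k4 1 12))))] (.c k128 (.l (.s k191 k127 7 (.s k123 k72 4
  (.s k243 k183 9 (.s k166 k12 14 (.d k247 k251 k4 1 12)))))) (.c k191 (.q k128 [(.d k64 k127 k192 6
  7), (.s k123 k72 4 (.s k243 k183 9 (.s k247 k251 1 (.d k166 k4 k12 12 14))))] .n) .n)))) (.c k213
  (.l (.s k63 k42 6 (.s k127 k191 7 (.s k106 k64 6 (.s k123 k72 4 (.s k243 k183 9 (.s k166 k12 14
  (.d k247 k251 k4 1 12)))))))) .n))) (.c k162 (.l (.s k93 k81 1 (.s k12 k174 12 (.s k166 k243 14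
  (.d k4 k8 k247 1 12))))) (.c k166 (.f k81 k93 1 (.q k83 [(.s k80 k82 0 (.s k86 k92 2 (.s k87 k84 0
  (.d k95 k91 k90 1 2)))), (.s k80 k82 0 (.s k240 k160 11 (.s k245 k250 2 (.s k165 k5 11 (.s k241
  k13 13 (.d k243 k162 k242 12 0)))))), (.s k86 k92 2 (.s k84 k87 0 (.s k252 k168 13 (.s k169 k3 14
  (.d k253 k254 k1 0 13)))))] (.c k162 (.q k174 [(.s k80 k82 0 (.s k86 k92 2 (.s k87 k84 0 (.d k95
  k91 k90 1 2)))), (.s k86 k92 2 (.s k84 k87 0 (.s k252 k168 13 (.s k169 k3 14 (.d k253 k254 k1 0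
  13))))), (.s k80 k82 0 (.s k240 k160 11 (.s k245 k250 2 (.s k165 k5 11 (.d k90 k95 k15 2 14)))))]
  (.c k95 (.l (.s k82 k80 0 (.s k86 k92 2 (.s k94 k90 1 (.s k84 k87 0 (.s k252 k168 13 (.d k254 k14
  k253 11 0))))))) .n)) (.c k174 (.l (.s k162 k243 12 (.s k80 k82 0 (.s k86 k92 2 (.s k87 k84 0 (.d
  k95 k91 k90 1 2)))))) .n)))) (.c k174 (.l (.s k81 k93 1 (.s k243 k162 12 (.s k166 k12 14 (.d k247
  k251 k4 1 12))))) (.c k243 (.q k1 [(.s k3 k2 0 (.s k87 k171 13 (.s k86 k84 0 (.d k169 k253 k252 13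
  14)))), (.s k81 k93 1 (.s k169 k253 13 (.s k9 k249 11 (.s k13 k5 1 (.d k241 k161 k165 11 13))))),
  (.s k3 k2 0 (.s k93 k81 1 (.s k12 k174 12 (.s k8 k4 1 (.s k9 k6 2 (.s k5 k13 1 (.d k10 k11 k15 0
  2)))))))] .n) (.c k247 (.q k1 [(.s k169 k253 13 (.s k3 k2 0 (.s k86 k252 14 (.d k87 k84 k171 0
  13)))), (.s k81 k93 1 (.s k169 k253 13 (.s k9 k249 11 (.s k13 k5 1 (.d k241 k161 k165 11 13))))),
  (.s k3 k2 0 (.s k81 k93 1 (.s k161 k241 11 (.s k82 k240 12 (.s k83 k80 0 (.d k243 k163 k162 11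
  12))))))] .n) (.c k251 (.l (.s k93 k81 1 (.s k12 k174 12 (.s k4 k8 1 (.d k166 k247 k243 12 14)))))
  .n))))))))))))

def t27_46 : T TT 256 :=
  (.f k255 k170 14 (.q k106 [(.s k64 k127 6 (.s k192 k128 7 (.s k213 k234 6 (.d k149 k21 k63 7
  14))))] (.c k21 (.q k1 [(.s k169 k253 13 (.s k3 k2 0 (.s k86 k252 14 (.d k87 k84 k171 0 13)))),
  (.s k64 k127 6 (.s k192 k128 7 (.s k213 k234 6 (.s k253 k169 13 (.s k193 k233 5 (.s k65 k129 7 (.d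
  k195 k130 k194 8 0))))))), (.s k3 k2 0 (.s k64 k127 6 (.s k192 k128 7 (.s k66 k129 8 (.s k86 k126
  5 (.d k87 k84 k171 0 13))))))] (.c k171 (.l (.s k3 k2 0 (.s k127 k64 6 (.s k63 k191 7 (.s k43 k23
  5 (.d k169 k232 k253 8 13)))))) .n)) (.c k63 (.q k12 [(.s k4 k8 1 (.s k166 k247 12 (.s k89 k243 14
  (.d k93 k81 k174 1 12)))), (.s k8 k4 1 (.s k64 k127 6 (.s k192 k128 7 (.s k72 k132 9 (.s k68 k76 1
  (.d k136 k200 k204 7 9)))))), (.s k64 k127 6 (.s k93 k174 12 (.s k89 k81 1 (.s k72 k123 4 (.d k192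
  k128 k132 7 9)))))] (.c k93 (.l (.s k4 k8 1 (.s k64 k127 6 (.s k166 k247 12 (.s k89 k243 14 (.s
  k192 k128 7 (.d k72 k123 k132 4 9))))))) .n)) (.c k64 (.q k3 [(.s k1 k2 0 (.s k87 k171 13 (.s k169
  k253 13 (.d k86 k84 k252 0 14)))), (.s k1 k2 0 (.s k169 k253 13 (.s k43 k232 8 (.s k63 k23 5 (.s
  k21 k42 6 (.d k149 k213 k192 7 14)))))), (.s k87 k171 13 (.s k86 k84 0 (.s k66 k126 5 (.s k192
  k129 8 (.s k149 k63 14 (.d k213 k234 k21 6 7))))))] (.c k86 (.f k87 k171 13 (.q k169 [(.d k1 k2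
  k253 0 13), (.s k43 k232 8 (.s k63 k23 5 (.s k21 k42 6 (.d k149 k213 k192 7 14))))] (.c k2 (.q
  k254 [(.d k253 k252 k1 0 13), (.s k43 k232 8 (.s k63 k23 5 (.s k21 k42 6 (.d k149 k213 k192 7
  14))))] .n) (.c k254 (.l (.s k2 k1 0 (.s k43 k232 8 (.s k63 k23 5 (.s k21 k42 6 (.d k149 k213 k192
  7 14)))))) .n)))) (.c k169 (.q k66 [(.s k86 k126 5 (.d k87 k171 k84 13 0)), (.s k192 k129 8 (.s
  k149 k63 14 (.d k213 k234 k21 6 7)))] (.c k168 (.l (.s k171 k87 13 (.s k192 k129 8 (.s k149 k63 14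
  (.d k213 k234 k21 6 7))))) (.c k171 (.q k168 [(.s k84 k252 13 (.d k86 k87 k126 0 5)), (.s k192
  k129 8 (.s k149 k63 14 (.d k213 k234 k21 6 7)))] .n) .n))) .n))) (.c k127 (.q k60 [(.s k20 k40 5
  (.s k125 k190 8 (.s k105 k65 5 (.d k150 k215 k195 8 14)))), (.s k20 k40 5 (.s k150 k215 8 (.s k62
  k194 13 (.s k63 k61 0 (.s k21 k42 6 (.d k149 k213 k192 7 14)))))), (.s k125 k190 8 (.s k105 k65 5
  (.s k104 k107 0 (.s k192 k148 13 (.s k149 k63 14 (.d k213 k234 k21 6 7))))))] (.c k105 (.q k84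
  [(.s k252 k168 13 (.s k253 k254 0 (.s k169 k1 13 (.d k86 k87 k3 0 14)))), (.s k40 k20 5 (.s k168
  k252 13 (.s k104 k232 7 (.s k192 k148 13 (.d k64 k124 k128 5 7))))), (.s k86 k87 0 (.s k126 k66 5
  (.s k190 k125 8 (.s k62 k254 7 (.s k150 k194 13 (.d k20 k40 k215 5 8))))))] (.c k40 (.q k235 [(.s
  k252 k168 13 (.s k253 k254 0 (.s k169 k1 13 (.d k86 k87 k3 0 14)))), (.s k86 k87 0 (.s k126 k66 5
  (.s k190 k125 8 (.s k62 k254 7 (.s k150 k194 13 (.d k215 k195 k20 5 8)))))), (.s k168 k252 13 (.s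
  k215 k195 5 (.s k20 k150 8 (.s k148 k212 7 (.s k128 k188 5 (.d k192 k64 k104 7 13))))))] .n) (.c
  k235 (.l (.s k40 k20 5 (.s k86 k87 0 (.s k252 k168 13 (.s k169 k3 14 (.d k253 k254 k1 0 13))))))
  .n))) (.c k150 (.q k149 [(.s k21 k213 7 (.d k63 k42 k192 6 14)), (.s k63 k192 14 (.s k61 k62 0 (.s
  k105 k193 13 (.d k125 k190 k65 8 5))))] (.c k63 (.l (.s k213 k21 7 (.s k192 k234 6 (.s k104 k148
  13 (.s k105 k107 0 (.d k125 k65 k190 5 8)))))) (.c k130 (.l (.s k190 k125 8 (.s k21 k213 7 (.d k63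
  k42 k192 6 14)))) (.c k190 (.q k130 [(.s k21 k213 7 (.d k63 k42 k192 6 14)), (.s k63 k192 14 (.s
  k61 k62 0 (.s k65 k195 8 (.d k105 k193 k125 13 5))))] (.c k63 (.l (.s k65 k195 8 (.s k105 k125 5
  (.s k213 k21 7 (.s k192 k234 6 (.d k104 k107 k148 0 13)))))) (.c k192 (.l (.s k21 k213 7 (.s k63
  k42 6 (.s k61 k62 0 (.s k65 k195 8 (.d k105 k193 k125 13 5)))))) .n))) (.c k192 (.l (.s k21 k213 7
  (.s k63 k42 6 (.s k61 k62 0 (.s k105 k193 13 (.d k125 k65 k190 5 8)))))) .n))))) .n))) (.c k128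
  (.l (.s k127 k64 6 (.s k63 k191 7 (.s k149 k192 14 (.d k21 k42 k213 6 7))))) (.c k149 (.f k64 k127
  6 (.q k72 [(.s k76 k68 1 (.s k89 k123 4 (.s k81 k93 1 (.d k115 k98 k102 4 6)))), (.s k68 k76 1 (.s
  k136 k204 9 (.s k8 k200 7 (.s k12 k4 1 (.d k192 k128 k132 7 9))))), (.s k89 k123 4 (.s k93 k81 1
  (.s k12 k174 12 (.d k192 k128 k132 7 9))))] (.c k93 (.l (.s k76 k68 1 (.s k89 k123 4 (.s k115 k102
  6 (.s k81 k98 4 (.s k243 k162 12 (.s k166 k12 14 (.d k247 k251 k4 1 12)))))))) (.c k128 (.q k191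
  [(.s k76 k68 1 (.s k89 k123 4 (.s k81 k93 1 (.d k115 k98 k102 4 6)))), (.s k68 k76 1 (.s k204 k136
  9 (.s k221 k238 4 (.s k153 k17 9 (.d k102 k119 k51 4 14))))), (.s k89 k123 4 (.s k93 k81 1 (.s k12
  k174 12 (.s k4 k8 1 (.d k166 k247 k243 12 14)))))] (.c k93 (.l (.s k76 k68 1 (.s k89 k123 4 (.s
  k115 k102 6 (.s k81 k98 4 (.s k243 k162 12 (.s k166 k12 14 (.d k247 k251 k4 1 12)))))))) (.c k119
  (.l (.s k76 k68 1 (.s k89 k123 4 (.s k115 k102 6 (.d k81 k93 k98 1 4))))) .n))) (.c k191 (.l (.s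
  k128 k192 7 (.s k76 k68 1 (.s k89 k123 4 (.s k81 k93 1 (.d k115 k98 k102 4 6)))))) .n))))) (.c
  k191 (.l (.s k64 k127 6 (.s k192 k128 7 (.s k149 k63 14 (.d k213 k234 k21 6 7))))) (.c k192 (.q k1
  [(.s k3 k2 0 (.s k87 k171 13 (.s k86 k84 0 (.d k169 k253 k252 13 14)))), (.s k127 k64 6 (.s k63
  k191 7 (.s k21 k42 6 (.s k61 k41 5 (.s k253 k169 13 (.s k125 k189 7 (.d k60 k190 k62 8 0))))))),
  (.s k3 k2 0 (.s k127 k64 6 (.s k63 k191 7 (.s k21 k42 6 (.s k23 k43 5 (.s k22 k20 0 (.d k41 k61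
  k60 5 6)))))))] .n) (.c k213 (.q k1 [(.s k3 k2 0 (.s k87 k171 13 (.s k86 k84 0 (.d k169 k253 k252
  13 14)))), (.s k64 k127 6 (.s k169 k253 13 (.s k192 k128 7 (.s k149 k63 14 (.s k129 k189 5 (.s k66
  k3 8 (.d k65 k193 k67 7 0))))))), (.s k3 k2 0 (.s k64 k127 6 (.s k192 k128 7 (.s k66 k129 8 (.s
  k86 k126 5 (.d k87 k84 k171 0 13))))))] (.c k3 (.l (.s k127 k64 6 (.s k63 k191 7 (.s k21 k42 6 (.s
  k61 k41 5 (.s k60 k62 0 (.s k125 k190 8 (.d k253 k189 k169 7 13)))))))) .n)) (.c k234 (.l (.s k127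
  k64 6 (.s k63 k191 7 (.s k21 k42 6 (.d k149 k213 k192 7 14))))) .n))))))))))))

def t27_47 : T TT 256 :=
  (.f k255 k170 14 (.q k106 [(.s k64 k127 6 (.s k192 k128 7 (.s k213 k234 6 (.d k149 k21 k63 7
  14))))] (.c k21 (.q k1 [(.s k169 k253 13 (.s k3 k2 0 (.s k86 k252 14 (.d k87 k84 k171 0 13)))),
  (.s k64 k127 6 (.s k192 k128 7 (.s k213 k234 6 (.s k253 k169 13 (.s k193 k233 5 (.s k65 k129 7 (.d
  k195 k130 k194 8 0))))))), (.s k3 k2 0 (.s k64 k127 6 (.s k192 k128 7 (.s k66 k129 8 (.s k86 k126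
  5 (.d k87 k84 k171 0 13))))))] (.c k171 (.l (.s k3 k2 0 (.s k127 k64 6 (.s k63 k191 7 (.s k43 k23
  5 (.d k169 k232 k253 8 13)))))) .n)) (.c k63 (.q k15 [(.s k5 k10 2 (.s k165 k245 11 (.s k90 k240
  14 (.d k95 k80 k175 2 11)))), (.s k10 k5 2 (.s k64 k127 6 (.s k192 k128 7 (.s k74 k133 10 (.s k69
  k79 2 (.d k138 k202 k207 7 10)))))), (.s k64 k127 6 (.s k95 k175 11 (.s k90 k80 2 (.s k74 k122 3
  (.d k192 k128 k133 7 10)))))] (.c k95 (.l (.s k5 k10 2 (.s k64 k127 6 (.s k165 k245 11 (.s k90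
  k240 14 (.s k192 k128 7 (.d k74 k122 k133 3 10))))))) .n)) (.c k64 (.q k3 [(.s k1 k2 0 (.s k87
  k171 13 (.s k169 k253 13 (.d k86 k84 k252 0 14)))), (.s k1 k2 0 (.s k169 k253 13 (.s k43 k232 8
  (.s k63 k23 5 (.s k21 k42 6 (.d k149 k213 k192 7 14)))))), (.s k87 k171 13 (.s k86 k84 0 (.s k66
  k126 5 (.s k192 k129 8 (.s k149 k63 14 (.d k213 k234 k21 6 7))))))] (.c k86 (.f k87 k171 13 (.q
  k169 [(.d k1 k2 k253 0 13), (.s k43 k232 8 (.s k63 k23 5 (.s k21 k42 6 (.d k149 k213 k192 7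
  14))))] (.c k2 (.q k254 [(.d k253 k252 k1 0 13), (.s k43 k232 8 (.s k63 k23 5 (.s k21 k42 6 (.d
  k149 k213 k192 7 14))))] .n) (.c k254 (.l (.s k2 k1 0 (.s k43 k232 8 (.s k63 k23 5 (.s k21 k42 6
  (.d k149 k213 k192 7 14)))))) .n)))) (.c k169 (.q k66 [(.s k86 k126 5 (.d k87 k171 k84 13 0)), (.s
  k192 k129 8 (.s k149 k63 14 (.d k213 k234 k21 6 7)))] (.c k168 (.l (.s k171 k87 13 (.s k192 k129 8
  (.s k149 k63 14 (.d k213 k234 k21 6 7))))) (.c k171 (.q k168 [(.s k84 k252 13 (.d k86 k87 k126 0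
  5)), (.s k192 k129 8 (.s k149 k63 14 (.d k213 k234 k21 6 7)))] .n) .n))) .n))) (.c k127 (.q k60
  [(.s k20 k40 5 (.s k125 k190 8 (.s k105 k65 5 (.d k150 k215 k195 8 14)))), (.s k20 k40 5 (.s k150
  k215 8 (.s k62 k194 13 (.s k63 k61 0 (.s k21 k42 6 (.d k149 k213 k192 7 14)))))), (.s k125 k190 8
  (.s k105 k65 5 (.s k104 k107 0 (.s k192 k148 13 (.s k149 k63 14 (.d k213 k234 k21 6 7))))))] (.c
  k105 (.q k84 [(.s k252 k168 13 (.s k253 k254 0 (.s k169 k1 13 (.d k86 k87 k3 0 14)))), (.s k40 k20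
  5 (.s k168 k252 13 (.s k104 k232 7 (.s k192 k148 13 (.d k64 k124 k128 5 7))))), (.s k86 k87 0 (.s
  k126 k66 5 (.s k190 k125 8 (.s k62 k254 7 (.s k150 k194 13 (.d k20 k40 k215 5 8))))))] (.c k40 (.q
  k235 [(.s k252 k168 13 (.s k253 k254 0 (.s k169 k1 13 (.d k86 k87 k3 0 14)))), (.s k86 k87 0 (.s
  k126 k66 5 (.s k190 k125 8 (.s k62 k254 7 (.s k150 k194 13 (.d k215 k195 k20 5 8)))))), (.s k168
  k252 13 (.s k215 k195 5 (.s k20 k150 8 (.s k148 k212 7 (.s k128 k188 5 (.d k192 k64 k104 7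
  13))))))] .n) (.c k235 (.l (.s k40 k20 5 (.s k86 k87 0 (.s k252 k168 13 (.s k169 k3 14 (.d k253
  k254 k1 0 13)))))) .n))) (.c k150 (.q k84 [(.s k252 k168 13 (.s k253 k254 0 (.s k169 k1 13 (.d k86
  k87 k3 0 14)))), (.s k20 k40 5 (.s k148 k212 7 (.s k192 k104 13 (.s k149 k63 14 (.d k213 k234 k21
  6 7)))))] (.c k130 (.l (.s k190 k125 8 (.s k86 k87 0 (.s k126 k66 5 (.s k252 k168 13 (.d k254 k253
  k62 0 7)))))) (.c k168 (.l (.s k20 k40 5 (.s k148 k212 7 (.s k104 k192 13 (.s k105 k107 0 (.d k125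
  k65 k190 5 8)))))) (.c k190 (.q k130 [(.s k86 k87 0 (.s k252 k168 13 (.s k169 k3 14 (.d k253 k254
  k1 0 13)))), (.s k20 k40 5 (.s k65 k195 8 (.s k105 k125 5 (.s k148 k212 7 (.d k104 k107 k192 0
  13)))))] (.c k107 (.l (.s k252 k168 13 (.s k253 k254 0 (.s k169 k1 13 (.d k86 k87 k3 0 14)))))
  .n)) .n)))) .n))) (.c k128 (.l (.s k127 k64 6 (.s k63 k191 7 (.s k149 k192 14 (.d k21 k42 k213 6
  7))))) (.c k149 (.f k64 k127 6 (.q k68 [(.s k204 k136 9 (.s k221 k238 4 (.s k153 k17 9 (.d k102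
  k119 k51 4 14)))), (.s k72 k76 1 (.s k89 k123 4 (.s k93 k81 1 (.s k12 k174 12 (.d k192 k128 k132 7
  9)))))] (.c k119 (.l (.s k72 k76 1 (.s k136 k204 9 (.s k8 k200 7 (.s k12 k4 1 (.d k192 k128 k132 7
  9)))))) (.c k128 (.q k191 [(.s k76 k72 1 (.s k102 k119 4 (.s k98 k110 1 (.d k115 k81 k89 4 6)))),
  (.s k204 k136 9 (.s k221 k238 4 (.s k153 k17 9 (.d k102 k119 k51 4 14)))), (.s k72 k76 1 (.s k136
  k204 9 (.s k8 k200 7 (.s k12 k4 1 (.s k93 k174 12 (.d k89 k81 k123 1 4))))))] .n) (.c k191 (.l (.s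
  k128 k192 7 (.s k76 k72 1 (.s k102 k119 4 (.s k98 k110 1 (.d k115 k81 k89 4 6)))))) .n))))) (.c
  k191 (.l (.s k64 k127 6 (.s k192 k128 7 (.s k149 k63 14 (.d k213 k234 k21 6 7))))) (.c k192 (.q k1
  [(.s k3 k2 0 (.s k87 k171 13 (.s k86 k84 0 (.d k169 k253 k252 13 14)))), (.s k127 k64 6 (.s k63
  k191 7 (.s k21 k42 6 (.s k61 k41 5 (.s k253 k169 13 (.s k125 k189 7 (.d k60 k190 k62 8 0))))))),
  (.s k3 k2 0 (.s k127 k64 6 (.s k63 k191 7 (.s k21 k42 6 (.s k23 k43 5 (.s k22 k20 0 (.d k41 k61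
  k60 5 6)))))))] .n) (.c k213 (.q k1 [(.s k3 k2 0 (.s k87 k171 13 (.s k86 k84 0 (.d k169 k253 k252
  13 14)))), (.s k64 k127 6 (.s k169 k253 13 (.s k192 k128 7 (.s k149 k63 14 (.s k129 k189 5 (.s k66
  k3 8 (.d k65 k193 k67 7 0))))))), (.s k3 k2 0 (.s k64 k127 6 (.s k192 k128 7 (.s k66 k129 8 (.s
  k86 k126 5 (.d k87 k84 k171 0 13))))))] (.c k3 (.l (.s k127 k64 6 (.s k63 k191 7 (.s k21 k42 6 (.s
  k61 k41 5 (.s k60 k62 0 (.s k125 k190 8 (.d k253 k189 k169 7 13)))))))) .n)) (.c k234 (.l (.s k127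
  k64 6 (.s k63 k191 7 (.s k21 k42 6 (.d k149 k213 k192 7 14))))) .n))))))))))))

def t27_57 : T TT 256 :=
  (.f k255 k170 14 (.q k89 [(.s k81 k93 1 (.s k243 k162 12 (.s k166 k12 14 (.d k247 k251 k4 1
  12))))] (.c k4 (.q k1 [(.s k169 k253 13 (.s k3 k2 0 (.s k86 k252 14 (.d k87 k84 k171 0 13)))), (.s
  k81 k93 1 (.s k169 k253 13 (.s k9 k249 11 (.s k13 k5 1 (.d k241 k161 k165 11 13))))), (.s k3 k2 0
  (.s k81 k93 1 (.s k161 k241 11 (.s k82 k240 12 (.s k83 k80 0 (.d k243 k163 k162 11 12))))))] .n)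
  (.c k12 (.q k1 [(.s k3 k2 0 (.s k87 k171 13 (.s k86 k84 0 (.d k169 k253 k252 13 14)))), (.s k81
  k93 1 (.s k169 k253 13 (.s k9 k249 11 (.s k13 k5 1 (.d k241 k161 k165 11 13))))), (.s k3 k2 0 (.s
  k81 k93 1 (.s k161 k241 11 (.s k82 k240 12 (.s k83 k80 0 (.d k243 k163 k162 11 12))))))] .n) (.c
  k81 (.q k87 [(.s k86 k84 0 (.s k3 k171 13 (.s k169 k252 14 (.d k1 k2 k253 0 13)))), (.s k86 k84 0
  (.s k83 k92 2 (.s k95 k91 1 (.s k15 k175 11 (.s k5 k10 2 (.s k165 k245 11 (.d k90 k80 k240 2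
  14)))))))] (.c k84 (.l (.s k3 k171 13 (.s k1 k2 0 (.s k169 k253 13 (.s k9 k249 11 (.s k12 k6 2 (.s
  k4 k8 1 (.d k166 k247 k243 12 14)))))))) (.c k86 (.f k3 k171 13 (.q k169 [(.d k1 k2 k253 0 13),
  (.s k9 k249 11 (.s k12 k6 2 (.s k4 k8 1 (.d k166 k247 k243 12 14))))] (.c k2 (.q k254 [(.d k253
  k252 k1 0 13), (.s k9 k249 11 (.s k12 k6 2 (.s k4 k8 1 (.d k166 k247 k243 12 14))))] .n) (.c k254
  (.l (.s k2 k1 0 (.s k9 k249 11 (.s k12 k6 2 (.s k4 k8 1 (.d k166 k247 k243 12 14)))))) .n))))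
  .n))) (.c k93 (.q k21 [(.s k149 k213 7 (.s k63 k42 6 (.s k106 k192 14 (.d k127 k64 k191 6 7)))),
  (.s k149 k213 7 (.s k29 k209 9 (.s k17 k25 1 (.s k51 k34 4 (.s k119 k187 9 (.s k102 k68 4 (.d k153
  k221 k204 9 14)))))))] (.c k149 (.f k63 k42 6 (.q k106 [(.d k127 k191 k64 7 6), (.s k123 k72 4 (.s
  k243 k183 9 (.s k166 k12 14 (.d k247 k251 k4 1 12))))] (.c k128 (.l (.s k191 k127 7 (.s k123 k72 4
  (.s k243 k183 9 (.s k166 k12 14 (.d k247 k251 k4 1 12)))))) (.c k191 (.q k128 [(.d k64 k127 k192 6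
  7), (.s k123 k72 4 (.s k243 k183 9 (.s k247 k251 1 (.d k166 k4 k12 12 14))))] .n) .n)))) (.c k213
  (.l (.s k63 k42 6 (.s k127 k191 7 (.s k106 k64 6 (.s k123 k72 4 (.s k243 k183 9 (.s k166 k12 14
  (.d k247 k251 k4 1 12)))))))) .n))) (.c k162 (.l (.s k93 k81 1 (.s k12 k174 12 (.s k166 k243 14
  (.d k4 k8 k247 1 12))))) (.c k166 (.f k81 k93 1 (.q k83 [(.s k80 k82 0 (.s k86 k92 2 (.s k87 k84 0
  (.d k95 k91 k90 1 2)))), (.s k80 k82 0 (.s k240 k160 11 (.s k245 k250 2 (.s k165 k5 11 (.s k241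
  k13 13 (.d k243 k162 k242 12 0)))))), (.s k86 k92 2 (.s k84 k87 0 (.s k252 k168 13 (.s k169 k3 14
  (.d k253 k254 k1 0 13)))))] (.c k162 (.q k174 [(.s k80 k82 0 (.s k86 k92 2 (.s k87 k84 0 (.d k95
  k91 k90 1 2)))), (.s k86 k92 2 (.s k84 k87 0 (.s k252 k168 13 (.s k169 k3 14 (.d k253 k254 k1 0
  13))))), (.s k80 k82 0 (.s k240 k160 11 (.s k245 k250 2 (.s k165 k5 11 (.d k90 k95 k15 2 14)))))]
  (.c k95 (.l (.s k82 k80 0 (.s k86 k92 2 (.s k94 k90 1 (.s k84 k87 0 (.s k252 k168 13 (.d k254 k14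
  k253 11 0))))))) .n)) (.c k174 (.l (.s k162 k243 12 (.s k80 k82 0 (.s k86 k92 2 (.s k87 k84 0 (.d
  k95 k91 k90 1 2)))))) .n)))) (.c k174 (.l (.s k81 k93 1 (.s k243 k162 12 (.s k166 k12 14 (.d k247
  k251 k4 1 12))))) (.c k243 (.q k1 [(.s k3 k2 0 (.s k87 k171 13 (.s k86 k84 0 (.d k169 k253 k252 13
  14)))), (.s k81 k93 1 (.s k169 k253 13 (.s k9 k249 11 (.s k13 k5 1 (.d k241 k161 k165 11 13))))),
  (.s k3 k2 0 (.s k93 k81 1 (.s k12 k174 12 (.s k8 k4 1 (.s k9 k6 2 (.s k5 k13 1 (.d k10 k11 k15 0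
  2)))))))] .n) (.c k247 (.q k1 [(.s k169 k253 13 (.s k3 k2 0 (.s k86 k252 14 (.d k87 k84 k171 0
  13)))), (.s k81 k93 1 (.s k169 k253 13 (.s k9 k249 11 (.s k13 k5 1 (.d k241 k161 k165 11 13))))),
  (.s k3 k2 0 (.s k81 k93 1 (.s k161 k241 11 (.s k82 k240 12 (.s k83 k80 0 (.d k243 k163 k162 11
  12))))))] .n) (.c k251 (.l (.s k93 k81 1 (.s k12 k174 12 (.s k4 k8 1 (.d k166 k247 k243 12 14)))))
  .n))))))))))))

def t27_58 : T TT 256 :=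
  (.f k255 k170 14 (.q k106 [(.s k64 k127 6 (.s k192 k128 7 (.s k213 k234 6 (.d k149 k21 k63 7
  14))))] (.c k21 (.q k1 [(.s k169 k253 13 (.s k3 k2 0 (.s k86 k252 14 (.d k87 k84 k171 0 13)))),
  (.s k64 k127 6 (.s k192 k128 7 (.s k213 k234 6 (.s k253 k169 13 (.s k193 k233 5 (.s k65 k129 7 (.d
  k195 k130 k194 8 0))))))), (.s k3 k2 0 (.s k64 k127 6 (.s k192 k128 7 (.s k66 k129 8 (.s k86 k126
  5 (.d k87 k84 k171 0 13))))))] (.c k171 (.l (.s k3 k2 0 (.s k127 k64 6 (.s k63 k191 7 (.s k43 k23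
  5 (.d k169 k232 k253 8 13)))))) .n)) (.c k63 (.q k48 [(.s k16 k32 3 (.s k154 k223 10 (.s k101 k207
  14 (.d k117 k69 k186 3 10)))), (.s k32 k16 3 (.s k64 k127 6 (.s k192 k128 7 (.s k96 k144 11 (.s
  k80 k112 3 (.d k160 k224 k240 7 11)))))), (.s k64 k127 6 (.s k117 k186 10 (.s k101 k69 3 (.s k96
  k111 2 (.d k192 k128 k144 7 11)))))] (.c k117 (.l (.s k16 k32 3 (.s k64 k127 6 (.s k154 k223 10
  (.s k101 k207 14 (.s k192 k128 7 (.d k96 k111 k144 2 11))))))) .n)) (.c k64 (.q k3 [(.s k1 k2 0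
  (.s k87 k171 13 (.s k169 k253 13 (.d k86 k84 k252 0 14)))), (.s k1 k2 0 (.s k169 k253 13 (.s k43
  k232 8 (.s k63 k23 5 (.s k21 k42 6 (.d k149 k213 k192 7 14)))))), (.s k87 k171 13 (.s k86 k84 0
  (.s k66 k126 5 (.s k192 k129 8 (.s k149 k63 14 (.d k213 k234 k21 6 7))))))] (.c k86 (.f k87 k171
  13 (.q k169 [(.d k1 k2 k253 0 13), (.s k43 k232 8 (.s k63 k23 5 (.s k21 k42 6 (.d k149 k213 k192 7
  14))))] (.c k2 (.q k254 [(.d k253 k252 k1 0 13), (.s k43 k232 8 (.s k63 k23 5 (.s k21 k42 6 (.d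
  k149 k213 k192 7 14))))] .n) (.c k254 (.l (.s k2 k1 0 (.s k43 k232 8 (.s k63 k23 5 (.s k21 k42 6
  (.d k149 k213 k192 7 14)))))) .n)))) (.c k169 (.q k66 [(.s k86 k126 5 (.d k87 k171 k84 13 0)), (.s
  k192 k129 8 (.s k149 k63 14 (.d k213 k234 k21 6 7)))] (.c k168 (.l (.s k171 k87 13 (.s k192 k129 8
  (.s k149 k63 14 (.d k213 k234 k21 6 7))))) (.c k171 (.q k168 [(.s k84 k252 13 (.d k86 k87 k126 0
  5)), (.s k192 k129 8 (.s k149 k63 14 (.d k213 k234 k21 6 7)))] .n) .n))) .n))) (.c k127 (.q k60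
  [(.s k20 k40 5 (.s k125 k190 8 (.s k105 k65 5 (.d k150 k215 k195 8 14)))), (.s k20 k40 5 (.s k150
  k215 8 (.s k62 k194 13 (.s k63 k61 0 (.s k21 k42 6 (.d k149 k213 k192 7 14)))))), (.s k125 k190 8
  (.s k105 k65 5 (.s k104 k107 0 (.s k192 k148 13 (.s k149 k63 14 (.d k213 k234 k21 6 7))))))] (.c
  k105 (.q k84 [(.s k252 k168 13 (.s k253 k254 0 (.s k169 k1 13 (.d k86 k87 k3 0 14)))), (.s k40 k20
  5 (.s k168 k252 13 (.s k104 k232 7 (.s k192 k148 13 (.d k64 k124 k128 5 7))))), (.s k86 k87 0 (.s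
  k126 k66 5 (.s k190 k125 8 (.s k62 k254 7 (.s k150 k194 13 (.d k20 k40 k215 5 8))))))] (.c k40 (.q
  k235 [(.s k252 k168 13 (.s k253 k254 0 (.s k169 k1 13 (.d k86 k87 k3 0 14)))), (.s k86 k87 0 (.s
  k126 k66 5 (.s k190 k125 8 (.s k62 k254 7 (.s k150 k194 13 (.d k215 k195 k20 5 8)))))), (.s k168
  k252 13 (.s k215 k195 5 (.s k20 k150 8 (.s k148 k212 7 (.s k128 k188 5 (.d k192 k64 k104 7
  13))))))] .n) (.c k235 (.l (.s k40 k20 5 (.s k86 k87 0 (.s k252 k168 13 (.s k169 k3 14 (.d k253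
  k254 k1 0 13)))))) .n))) (.c k150 (.q k149 [(.s k21 k213 7 (.d k63 k42 k192 6 14)), (.s k63 k192
  14 (.s k61 k62 0 (.s k105 k193 13 (.d k125 k190 k65 8 5))))] (.c k63 (.l (.s k213 k21 7 (.s k192
  k234 6 (.s k104 k148 13 (.s k105 k107 0 (.d k125 k65 k190 5 8)))))) (.c k130 (.l (.s k190 k125 8
  (.s k21 k213 7 (.d k63 k42 k192 6 14)))) (.c k190 (.q k130 [(.s k21 k213 7 (.d k63 k42 k192 6
  14)), (.s k63 k192 14 (.s k61 k62 0 (.s k65 k195 8 (.d k105 k193 k125 13 5))))] (.c k63 (.l (.s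
  k65 k195 8 (.s k105 k125 5 (.s k213 k21 7 (.s k192 k234 6 (.d k104 k107 k148 0 13)))))) (.c k192
  (.l (.s k21 k213 7 (.s k63 k42 6 (.s k61 k62 0 (.s k65 k195 8 (.d k105 k193 k125 13 5)))))) .n)))
  (.c k192 (.l (.s k21 k213 7 (.s k63 k42 6 (.s k61 k62 0 (.s k105 k193 13 (.d k125 k65 k190 5
  8)))))) .n))))) .n))) (.c k128 (.l (.s k127 k64 6 (.s k63 k191 7 (.s k149 k192 14 (.d k21 k42 k213
  6 7))))) (.c k149 (.f k64 k127 6 (.q k72 [(.s k76 k68 1 (.s k89 k123 4 (.s k81 k93 1 (.d k115 k98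
  k102 4 6)))), (.s k68 k76 1 (.s k136 k204 9 (.s k8 k200 7 (.s k12 k4 1 (.d k192 k128 k132 7
  9))))), (.s k89 k123 4 (.s k93 k81 1 (.s k12 k174 12 (.d k192 k128 k132 7 9))))] (.c k93 (.l (.s
  k76 k68 1 (.s k89 k123 4 (.s k115 k102 6 (.s k81 k98 4 (.s k243 k162 12 (.s k166 k12 14 (.d k247
  k251 k4 1 12)))))))) (.c k128 (.q k191 [(.s k76 k68 1 (.s k89 k123 4 (.s k81 k93 1 (.d k115 k98
  k102 4 6)))), (.s k68 k76 1 (.s k204 k136 9 (.s k221 k238 4 (.s k153 k17 9 (.d k102 k119 k51 4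
  14))))), (.s k89 k123 4 (.s k93 k81 1 (.s k12 k174 12 (.s k4 k8 1 (.d k166 k247 k243 12 14)))))]
  (.c k93 (.l (.s k76 k68 1 (.s k89 k123 4 (.s k115 k102 6 (.s k81 k98 4 (.s k243 k162 12 (.s k166
  k12 14 (.d k247 k251 k4 1 12)))))))) (.c k119 (.l (.s k76 k68 1 (.s k89 k123 4 (.s k115 k102 6 (.d
  k81 k93 k98 1 4))))) .n))) (.c k191 (.l (.s k128 k192 7 (.s k76 k68 1 (.s k89 k123 4 (.s k81 k93 1
  (.d k115 k98 k102 4 6)))))) .n))))) (.c k191 (.l (.s k64 k127 6 (.s k192 k128 7 (.s k149 k63 14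
  (.d k213 k234 k21 6 7))))) (.c k192 (.q k1 [(.s k3 k2 0 (.s k87 k171 13 (.s k86 k84 0 (.d k169
  k253 k252 13 14)))), (.s k127 k64 6 (.s k63 k191 7 (.s k21 k42 6 (.s k61 k41 5 (.s k253 k169 13
  (.s k125 k189 7 (.d k60 k190 k62 8 0))))))), (.s k3 k2 0 (.s k127 k64 6 (.s k63 k191 7 (.s k21 k42
  6 (.s k23 k43 5 (.s k22 k20 0 (.d k41 k61 k60 5 6)))))))] .n) (.c k213 (.q k1 [(.s k3 k2 0 (.s k87
  k171 13 (.s k86 k84 0 (.d k169 k253 k252 13 14)))), (.s k64 k127 6 (.s k169 k253 13 (.s k192 k128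
  7 (.s k149 k63 14 (.s k129 k189 5 (.s k66 k3 8 (.d k65 k193 k67 7 0))))))), (.s k3 k2 0 (.s k64
  k127 6 (.s k192 k128 7 (.s k66 k129 8 (.s k86 k126 5 (.d k87 k84 k171 0 13))))))] (.c k3 (.l (.s
  k127 k64 6 (.s k63 k191 7 (.s k21 k42 6 (.s k61 k41 5 (.s k60 k62 0 (.s k125 k190 8 (.d k253 k189
  k169 7 13)))))))) .n)) (.c k234 (.l (.s k127 k64 6 (.s k63 k191 7 (.s k21 k42 6 (.d k149 k213 k192
  7 14))))) .n))))))))))))

def t27_59 : T TT 256 :=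
  (.q k169 [(.s k1 k253 13 (.s k3 k2 0 (.s k86 k252 14 (.s k87 k84 0 (.d k255 k171 k170 13 14)))))]
  (.c k1 (.q k106 [(.s k127 k64 6 (.s k255 k170 14 (.s k63 k191 7 (.s k149 k192 14 (.d k21 k42 k213
  6 7))))), (.s k43 k232 8 (.s k170 k255 14 (.s k171 k168 0 (.s k235 k107 7 (.s k40 k105 8 (.d k42
  k41 k234 0 7)))))), (.s k64 k127 6 (.s k192 k128 7 (.s k149 k63 14 (.s k129 k189 5 (.s k3 k66 8
  (.s k252 k86 14 (.d k232 k43 k212 8 5)))))))] (.c k11 (.l (.s k43 k232 8 (.s k64 k127 6 (.s k170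
  k255 14 (.s k42 k234 7 (.s k63 k21 6 (.d k192 k128 k149 7 14))))))) (.c k43 (.q k11 [(.s k127 k64
  6 (.s k255 k170 14 (.s k63 k191 7 (.s k149 k192 14 (.d k21 k42 k213 6 7))))), (.s k64 k127 6 (.s
  k90 k248 12 (.s k80 k95 2 (.s k112 k96 3 (.s k79 k101 6 (.d k74 k122 k69 3 2)))))), (.s k90 k248
  12 (.s k80 k95 2 (.s k170 k255 14 (.s k10 k250 11 (.s k15 k5 2 (.d k240 k160 k165 11 14))))))] .n)
  (.c k255 (.l (.s k43 k232 8 (.s k64 k127 6 (.s k192 k128 7 (.s k63 k149 14 (.s k3 k23 5 (.s k66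
  k129 8 (.d k86 k126 k252 5 14)))))))) .n)))) (.c k2 (.l (.s k253 k1 13 (.s k255 k170 14 (.s k252
  k254 0 (.s k86 k3 14 (.d k84 k87 k168 0 13)))))) (.c k3 (.f k170 k255 14 (.f k253 k1 13 (.f k171
  k168 0 (.q k11 [(.s k90 k248 12 (.s k251 k91 11 (.s k8 k89 12 (.d k10 k9 k250 0 11)))), (.s k90
  k248 12 (.s k80 k95 2 (.s k240 k160 11 (.s k15 k165 14 (.d k10 k5 k250 2 11))))), (.s k251 k91 11
  (.s k89 k8 12 (.s k93 k81 1 (.s k13 k173 11 (.s k241 k165 13 (.d k249 k245 k9 1 11))))))] (.c k8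
  (.l (.s k91 k251 11 (.s k90 k248 12 (.s k88 k89 0 (.s k80 k95 2 (.s k240 k160 11 (.s k15 k165 14
  (.d k10 k250 k5 11 2)))))))) (.c k88 (.l (.s k248 k90 12 (.s k251 k91 11 (.s k89 k8 12 (.d k249
  k250 k9 0 11))))) (.c k248 (.l (.s k251 k91 11 (.s k8 k89 12 (.s k10 k9 0 (.s k90 k250 11 (.s k80
  k95 2 (.s k240 k160 11 (.d k15 k5 k165 2 14)))))))) .n))))))) (.c k11 (.q k43 [(.s k1 k253 13 (.s
  k3 k2 0 (.s k86 k252 14 (.s k87 k84 0 (.d k255 k171 k170 13 14))))), (.s k106 k232 8 (.s k64 k127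
  6 (.s k170 k255 14 (.s k42 k234 7 (.s k63 k21 6 (.d k192 k128 k149 7 14)))))), (.s k1 k253 13 (.s
  k3 k2 0 (.s k63 k23 5 (.s k21 k42 6 (.s k106 k232 8 (.d k149 k213 k192 7 14))))))] .n) (.c k43 (.q
  k11 [(.s k1 k253 13 (.s k3 k2 0 (.s k86 k252 14 (.s k87 k84 0 (.d k255 k171 k170 13 14))))), (.s
  k90 k248 12 (.s k80 k95 2 (.s k170 k255 14 (.s k10 k250 11 (.s k15 k5 2 (.d k240 k160 k165 11
  14)))))), (.s k1 k253 13 (.s k3 k2 0 (.s k15 k7 1 (.s k5 k10 2 (.s k90 k248 12 (.d k165 k245 k240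
  11 14))))))] .n) (.c k84 (.q k11 [(.s k1 k253 13 (.s k3 k2 0 (.s k15 k7 1 (.s k90 k248 12 (.s k80
  k95 2 (.d k240 k160 k165 11 14)))))), (.s k90 k248 12 (.s k170 k255 14 (.s k10 k250 11 (.s k8 k9 0
  (.s k171 k168 0 (.d k251 k91 k89 11 12)))))), (.s k1 k253 13 (.s k3 k2 0 (.s k15 k7 1 (.s k5 k10 2
  (.s k165 k245 11 (.s k173 k161 1 (.d k252 k94 k86 12 14)))))))] .n) (.c k86 (.q k90 [(.s k80 k95 2
  (.s k170 k255 14 (.s k10 k250 11 (.s k15 k5 2 (.d k240 k160 k165 11 14))))), (.s k11 k248 12 (.s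
  k170 k255 14 (.s k10 k250 11 (.s k8 k9 0 (.s k171 k168 0 (.d k251 k91 k89 11 12)))))), (.s k1 k253
  13 (.s k3 k2 0 (.s k11 k248 12 (.s k15 k7 1 (.s k80 k95 2 (.d k240 k165 k160 14 11))))))] (.c k11
  (.q k43 [(.s k80 k95 2 (.s k170 k255 14 (.s k10 k250 11 (.s k15 k5 2 (.d k240 k160 k165 11
  14))))), (.s k1 k253 13 (.s k3 k2 0 (.s k63 k23 5 (.s k21 k42 6 (.s k106 k232 8 (.d k149 k213 k192
  7 14))))))] (.c k170 (.l (.s k1 k253 13 (.s k80 k95 2 (.s k240 k160 11 (.s k165 k15 14 (.s k161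
  k173 1 (.d k3 k2 k82 0 12))))))) .n)) (.c k43 (.l (.s k11 k248 12 (.s k1 k253 13 (.s k3 k2 0 (.s
  k15 k7 1 (.s k5 k10 2 (.d k165 k245 k240 11 14))))))) (.c k170 (.l (.s k1 k253 13 (.s k80 k95 2
  (.s k240 k160 11 (.s k165 k15 14 (.s k161 k173 1 (.d k3 k2 k82 0 12))))))) (.c k240 (.l (.s k1
  k253 13 (.s k3 k2 0 (.s k11 k248 12 (.s k15 k7 1 (.s k10 k5 2 (.d k170 k250 k255 11 14)))))))
  .n))))) (.c k87 (.l (.s k1 k253 13 (.s k3 k2 0 (.s k170 k255 14 (.s k168 k171 0 (.d k252 k84 k86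
  13 14)))))) (.c k170 (.f k1 k253 13 (.q k11 [(.s k3 k2 0 (.s k15 k7 1 (.s k90 k248 12 (.s k80 k95
  2 (.d k240 k160 k165 11 14))))), (.s k3 k2 0 (.s k15 k7 1 (.s k5 k10 2 (.s k165 k245 11 (.s k173
  k161 1 (.d k252 k86 k94 14 12)))))), (.s k90 k248 12 (.s k80 k95 2 (.s k240 k160 11 (.s k165 k15
  14 (.s k161 k173 1 (.s k81 k241 11 (.d k82 k83 k3 0 12)))))))] (.c k3 (.q k5 [(.s k9 k13 1 (.d k10
  k8 k15 0 2)), (.s k15 k10 2 (.s k90 k248 12 (.d k165 k245 k240 11 14))), (.s k13 k9 1 (.s k165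
  k245 11 (.s k161 k173 1 (.d k241 k81 k89 11 13))))] .n) (.c k15 (.l (.s k3 k2 0 (.s k86 k252 14
  (.s k90 k248 12 (.s k80 k95 2 (.s k240 k160 11 (.d k82 k94 k161 1 12))))))) (.c k90 (.l (.s k3 k2
  0 (.s k7 k15 1 (.s k86 k252 14 (.s k165 k244 12 (.s k5 k245 11 (.s k6 k4 0 (.d k9 k13 k12 1
  2)))))))) (.c k165 (.l (.s k3 k2 0 (.s k86 k252 14 (.s k90 k248 12 (.s k80 k95 2 (.s k82 k94 1 (.d
  k240 k160 k161 11 12))))))) .n)))))) (.c k171 (.l (.s k253 k1 13 (.s k255 k170 14 (.s k252 k254 0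
  (.s k84 k168 13 (.d k86 k87 k3 0 14)))))) (.c k252 (.f k255 k170 14 (.q k43 [(.s k1 k253 13 (.s k3
  k2 0 (.s k106 k232 8 (.s k127 k64 6 (.d k63 k23 k191 5 7))))), (.s k106 k232 8 (.s k64 k127 6 (.s
  k192 k128 7 (.s k149 k63 14 (.d k213 k234 k21 6 7))))), (.s k1 k253 13 (.s k3 k2 0 (.s k63 k23 5
  (.s k171 k87 13 (.s k107 k235 7 (.s k151 k195 13 (.d k191 k131 k127 5 7))))))), (.s k1 k253 13 (.s
  k3 k2 0 (.s k63 k23 5 (.s k21 k42 6 (.s k106 k232 8 (.d k149 k192 k213 14 7))))))] (.c k63 (.f k1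
  k253 13 (.l (.s k3 k2 0 (.s k87 k171 13 (.s k86 k84 0 (.s k106 k232 8 (.s k64 k127 6 (.s k192 k128
  7 (.d k66 k126 k129 5 8))))))))) .n))) (.c k253 (.f k170 k255 14 (.f k168 k171 0 (.f k252 k84 13
  (.f k3 k86 14 (.q k11 [(.s k15 k7 1 (.s k10 k5 2 (.d k90 k250 k248 11 12))), (.s k248 k90 12 (.s
  k8 k88 11 (.s k9 k10 0 (.d k12 k4 k6 1 2)))), (.s k15 k7 1 (.s k5 k10 2 (.s k165 k245 11 (.d k173
  k161 k94 1 12))))] (.c k10 (.l (.s k15 k7 1 (.s k90 k248 12 (.s k80 k95 2 (.d k240 k165 k160 14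
  11))))) .n)))))) (.c k254 (.l (.s k1 k253 13 (.s k3 k2 0 (.s k86 k252 14 (.s k255 k170 14 (.d k87
  k84 k171 0 13)))))) (.c k255 (.f k1 k253 13 (.f k3 k2 0 (.f k252 k86 14 (.q k11 [(.s k15 k7 1 (.s
  k90 k248 12 (.s k80 k95 2 (.d k240 k165 k160 14 11)))), (.s k168 k84 13 (.s k248 k90 12 (.s k8 k88
  11 (.s k9 k10 0 (.d k12 k6 k4 2 1))))), (.s k15 k7 1 (.s k5 k10 2 (.s k165 k245 11 (.d k173 k161
  k94 1 12))))] (.c k170 (.q k254 [(.s k15 k7 1 (.s k90 k248 12 (.s k80 k95 2 (.d k240 k165 k160 14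
  11)))), (.s k168 k84 13 (.s k248 k90 12 (.s k8 k88 11 (.s k12 k4 1 (.d k9 k10 k6 0 2))))), (.s k15
  k7 1 (.s k10 k5 2 (.s k8 k9 0 (.s k94 k173 12 (.s k14 k174 11 (.d k12 k13 k4 0 1))))))] (.c k244
  (.l (.s k90 k248 12 (.s k15 k7 1 (.s k165 k240 14 (.d k5 k245 k10 11 2))))) .n)) (.c k254 (.q k170
  [(.d k168 k171 k84 0 13), (.s k15 k7 1 (.s k10 k5 2 (.d k90 k250 k248 11 12)))] .n) .n))))))
  .n)))))))))))))))

def t27_62 : T TT 256 :=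
  (.f k255 k170 14 (.q k106 [(.s k64 k127 6 (.s k192 k128 7 (.s k213 k234 6 (.d k149 k21 k63 7
  14))))] (.c k21 (.q k1 [(.s k169 k253 13 (.s k3 k2 0 (.s k86 k252 14 (.d k87 k84 k171 0 13)))),
  (.s k64 k127 6 (.s k192 k128 7 (.s k213 k234 6 (.s k253 k169 13 (.s k193 k233 5 (.s k65 k129 7 (.d
  k195 k130 k194 8 0))))))), (.s k3 k2 0 (.s k64 k127 6 (.s k192 k128 7 (.s k66 k129 8 (.s k86 k126
  5 (.d k87 k84 k171 0 13))))))] (.c k171 (.l (.s k3 k2 0 (.s k127 k64 6 (.s k63 k191 7 (.s k43 k23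
  5 (.d k169 k232 k253 8 13)))))) .n)) (.c k63 (.q k60 [(.s k20 k40 5 (.s k150 k215 8 (.s k105 k195
  14 (.d k125 k65 k190 5 8)))), (.s k40 k20 5 (.s k64 k127 6 (.s k192 k128 7 (.s k104 k148 13 (.s
  k84 k124 5 (.d k168 k232 k252 7 13)))))), (.s k64 k127 6 (.s k125 k190 8 (.s k105 k65 5 (.s k104
  k107 0 (.d k192 k128 k148 7 13)))))] (.c k125 (.l (.s k20 k40 5 (.s k64 k127 6 (.s k150 k215 8 (.s
  k105 k195 14 (.s k192 k128 7 (.d k104 k107 k148 0 13))))))) .n)) (.c k64 (.q k3 [(.s k87 k171 13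
  (.s k86 k84 0 (.s k169 k252 14 (.d k1 k2 k253 0 13)))), (.s k1 k2 0 (.s k169 k253 13 (.s k43 k232
  8 (.s k63 k23 5 (.s k149 k192 14 (.d k21 k42 k213 6 7)))))), (.s k87 k171 13 (.s k86 k84 0 (.s k66
  k126 5 (.s k192 k129 8 (.s k213 k234 6 (.d k149 k21 k63 7 14))))))] (.c k86 (.q k63 [(.s k149 k192
  14 (.d k21 k42 k213 6 7)), (.s k43 k23 5 (.s k169 k232 8 (.d k1 k2 k253 0 13)))] (.c k2 (.q k254
  [(.s k149 k192 14 (.d k21 k42 k213 6 7)), (.s k253 k252 0 (.s k169 k1 13 (.d k43 k23 k232 5 8)))]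
  (.c k22 (.l (.s k42 k21 6 (.s k253 k252 0 (.s k169 k1 13 (.d k43 k23 k232 5 8))))) (.c k42 (.q k22
  [(.s k23 k43 5 (.s k20 k21 0 (.d k60 k40 k41 5 6))), (.s k43 k23 5 (.s k169 k232 8 (.d k253 k252
  k1 0 13))), (.s k41 k60 6 (.s k149 k192 14 (.s k21 k213 7 (.s k1 k61 5 (.d k253 k252 k169 0
  13)))))] .n) .n))) (.c k149 (.l (.s k21 k42 6 (.s k23 k43 5 (.s k22 k20 0 (.s k41 k60 6 (.d k1 k2
  k61 0 5)))))) (.c k254 (.l (.s k2 k1 0 (.s k21 k42 6 (.d k149 k213 k192 7 14)))) .n)))) (.c k169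
  (.q k125 [(.s k60 k190 8 (.s k20 k40 5 (.s k150 k215 8 (.d k105 k65 k195 5 14)))), (.s k1 k2 0 (.s
  k65 k105 5 (.s k129 k193 7 (.s k192 k66 8 (.s k149 k63 14 (.d k213 k234 k21 6 7)))))), (.s k1 k2 0
  (.s k60 k190 8 (.s k40 k20 5 (.s k41 k22 6 (.s k42 k43 0 (.d k21 k61 k63 5 6)))))), (.s k105 k65 5
  (.s k107 k104 0 (.s k171 k87 13 (.s k235 k43 7 (.s k195 k215 5 (.d k60 k190 k150 8 14))))))] (.c
  k60 (.l (.s k1 k2 0 (.s k65 k105 5 (.s k129 k193 7 (.s k66 k192 8 (.s k86 k126 5 (.d k87 k84 k171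
  0 13))))))) (.c k168 (.l (.s k171 k87 13 (.s k60 k190 8 (.s k20 k40 5 (.s k105 k65 5 (.d k150 k215
  k195 8 14)))))) (.c k171 (.q k168 [(.s k84 k252 13 (.s k86 k87 0 (.s k126 k66 5 (.s k124 k127 0
  (.d k105 k65 k67 5 6))))), (.s k1 k2 0 (.s k60 k190 8 (.s k40 k20 5 (.s k41 k22 6 (.s k42 k43 0
  (.d k21 k61 k63 5 6)))))), (.s k60 k190 8 (.s k20 k40 5 (.s k105 k65 5 (.d k150 k215 k195 8
  14))))] (.c k126 (.l (.s k105 k65 5 (.s k104 k107 0 (.s k40 k232 7 (.d k60 k20 k190 5 8))))) .n))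
  .n)))) .n))) (.c k127 (.q k3 [(.s k87 k171 13 (.s k86 k84 0 (.s k169 k252 14 (.d k1 k2 k253 0
  13)))), (.s k1 k2 0 (.s k169 k253 13 (.s k43 k232 8 (.s k63 k23 5 (.s k149 k192 14 (.d k21 k42
  k213 6 7)))))), (.s k87 k171 13 (.s k86 k84 0 (.s k66 k126 5 (.s k192 k129 8 (.s k213 k234 6 (.d
  k149 k21 k63 7 14))))))] (.c k86 (.q k63 [(.s k149 k192 14 (.d k21 k42 k213 6 7)), (.s k43 k23 5
  (.s k169 k232 8 (.d k1 k2 k253 0 13)))] (.c k2 (.q k254 [(.s k149 k192 14 (.d k21 k42 k213 6 7)),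
  (.s k253 k252 0 (.s k169 k1 13 (.d k43 k23 k232 5 8)))] (.c k22 (.l (.s k42 k21 6 (.s k253 k252 0
  (.s k169 k1 13 (.d k43 k23 k232 5 8))))) (.c k42 (.q k22 [(.s k23 k43 5 (.s k20 k21 0 (.d k60 k40
  k41 5 6))), (.s k43 k23 5 (.s k169 k232 8 (.d k253 k252 k1 0 13))), (.s k41 k60 6 (.s k149 k192 14
  (.s k21 k213 7 (.s k1 k61 5 (.d k253 k252 k169 0 13)))))] .n) .n))) (.c k149 (.l (.s k21 k42 6 (.s
  k23 k43 5 (.s k22 k20 0 (.s k41 k60 6 (.d k1 k2 k61 0 5)))))) (.c k254 (.l (.s k2 k1 0 (.s k21 k42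
  6 (.d k149 k213 k192 7 14)))) .n)))) (.c k169 (.q k105 [(.s k65 k125 5 (.s k195 k130 8 (.s k215
  k235 5 (.d k150 k20 k60 8 14)))), (.s k107 k104 0 (.s k171 k87 13 (.s k43 k235 7 (.s k63 k23 5 (.s
  k21 k42 6 (.d k149 k213 k192 7 14)))))), (.s k1 k2 0 (.s k65 k125 5 (.s k129 k193 7 (.s k192 k66 8
  (.s k149 k63 14 (.d k213 k234 k21 6 7))))))] (.c k168 (.l (.s k171 k87 13 (.s k65 k125 5 (.s k107
  k104 0 (.s k195 k130 8 (.d k235 k215 k43 5 7)))))) (.c k171 (.q k168 [(.s k84 k252 13 (.s k104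
  k107 0 (.s k124 k64 5 (.d k86 k87 k67 0 6)))), (.s k125 k65 5 (.s k60 k190 8 (.s k20 k40 5 (.d
  k150 k215 k195 8 14))))] .n) .n))) .n))) (.c k128 (.l (.s k127 k64 6 (.s k63 k191 7 (.s k149 k192
  14 (.d k21 k42 k213 6 7))))) (.c k149 (.f k64 k127 6 (.q k80 [(.s k240 k160 11 (.s k245 k250 2 (.s
  k165 k5 11 (.d k90 k95 k15 2 14)))), (.s k96 k112 3 (.s k101 k111 2 (.s k117 k69 3 (.s k48 k186 10
  (.d k192 k128 k144 7 11)))))] (.c k95 (.l (.s k96 k112 3 (.s k160 k240 11 (.s k32 k224 7 (.s k48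
  k16 3 (.d k192 k128 k144 7 11)))))) (.c k128 (.q k191 [(.s k90 k95 2 (.s k74 k122 3 (.s k79 k69 2
  (.d k112 k96 k101 3 6)))), (.s k240 k160 11 (.s k245 k250 2 (.s k165 k5 11 (.d k90 k95 k15 2
  14)))), (.s k96 k112 3 (.s k160 k240 11 (.s k32 k224 7 (.s k48 k16 3 (.s k117 k186 10 (.d k101
  k111 k69 2 3))))))] .n) (.c k191 (.l (.s k128 k192 7 (.s k90 k95 2 (.s k74 k122 3 (.s k79 k69 2
  (.d k112 k96 k101 3 6)))))) .n))))) (.c k191 (.l (.s k64 k127 6 (.s k192 k128 7 (.s k149 k63 14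
  (.d k213 k234 k21 6 7))))) (.c k192 (.q k1 [(.s k3 k2 0 (.s k87 k171 13 (.s k86 k84 0 (.d k169
  k253 k252 13 14)))), (.s k127 k64 6 (.s k63 k191 7 (.s k169 k253 13 (.s k43 k232 8 (.d k3 k2 k23 0
  5))))), (.s k3 k2 0 (.s k127 k64 6 (.s k63 k191 7 (.s k23 k43 5 (.s k21 k42 6 (.s k22 k20 0 (.d
  k41 k61 k60 5 6)))))))] (.c k2 (.l (.s k127 k64 6 (.s k63 k191 7 (.s k169 k253 13 (.s k43 k232 8
  (.s k3 k23 5 (.s k87 k171 13 (.d k86 k252 k84 14 0)))))))) (.c k3 (.l (.s k127 k64 6 (.s k63 k191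
  7 (.s k21 k42 6 (.s k61 k41 5 (.s k253 k169 13 (.s k189 k125 7 (.d k252 k254 k126 0 8))))))))
  .n))) (.c k213 (.q k1 [(.s k3 k2 0 (.s k87 k171 13 (.s k86 k84 0 (.d k169 k253 k252 13 14)))), (.s
  k64 k127 6 (.s k169 k253 13 (.s k192 k128 7 (.s k149 k63 14 (.s k129 k189 5 (.s k66 k3 8 (.d k65
  k193 k67 7 0))))))), (.s k3 k2 0 (.s k64 k127 6 (.s k192 k128 7 (.s k66 k129 8 (.s k86 k126 5 (.d
  k87 k84 k171 0 13))))))] (.c k3 (.l (.s k127 k64 6 (.s k63 k191 7 (.s k21 k42 6 (.s k61 k41 5 (.s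
  k253 k169 13 (.s k189 k125 7 (.d k252 k254 k126 0 8)))))))) .n)) (.c k234 (.l (.s k127 k64 6 (.s
  k63 k191 7 (.s k21 k42 6 (.d k149 k213 k192 7 14))))) .n))))))))))))

def t27_63 : T TT 256 :=
  (.f k255 k170 14 (.q k101 [(.s k69 k117 3 (.s k207 k138 10 (.s k223 k239 3 (.d k154 k16 k48 10
  14))))] (.c k16 (.q k1 [(.s k3 k2 0 (.s k87 k171 13 (.s k169 k253 13 (.d k86 k84 k252 0 14)))),
  (.s k69 k117 3 (.s k169 k253 13 (.s k33 k237 9 (.s k49 k17 3 (.d k205 k137 k153 9 13))))), (.s k3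
  k2 0 (.s k69 k117 3 (.s k137 k205 9 (.s k70 k204 10 (.s k71 k68 0 (.d k207 k139 k138 9 10))))))]
  .n) (.c k48 (.q k53 [(.s k117 k69 3 (.s k149 k197 11 (.s k21 k213 7 (.s k5 k37 3 (.d k245 k181
  k165 7 11))))), (.s k117 k69 3 (.s k245 k181 7 (.s k240 k250 2 (.s k80 k160 11 (.s k90 k95 2 (.d
  k165 k5 k15 11 14)))))), (.s k149 k197 11 (.s k21 k213 7 (.s k5 k37 3 (.s k15 k10 2 (.s k95 k175
  11 (.s k90 k80 2 (.d k165 k245 k240 11 14))))))), (.s k69 k117 3 (.s k197 k149 11 (.s k133 k5 7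
  (.s k207 k138 10 (.s k192 k202 2 (.s k74 k15 10 (.d k64 k128 k79 7 2)))))))] (.c k5 (.q k1 [(.s k3
  k2 0 (.s k87 k171 13 (.s k86 k84 0 (.d k169 k253 k252 13 14)))), (.s k69 k117 3 (.s k169 k253 13
  (.s k33 k237 9 (.s k49 k17 3 (.d k205 k137 k153 9 13))))), (.s k3 k2 0 (.s k69 k117 3 (.s k137
  k205 9 (.s k70 k204 10 (.s k71 k68 0 (.d k207 k139 k138 9 10))))))] .n) (.c k15 (.l (.s k69 k117 3
  (.s k197 k149 11 (.s k5 k133 7 (.s k37 k21 3 (.d k165 k229 k245 7 11)))))) .n))) (.c k69 (.q k1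
  [(.s k3 k2 0 (.s k87 k171 13 (.s k86 k84 0 (.d k169 k253 k252 13 14)))), (.s k169 k253 13 (.s k33
  k237 9 (.s k17 k49 3 (.s k51 k34 4 (.s k119 k187 9 (.s k102 k68 4 (.d k153 k221 k204 9 14)))))))]
  (.c k169 (.f k3 k2 0 (.q k86 [(.d k87 k171 k84 13 0), (.s k71 k116 4 (.s k207 k139 9 (.s k154 k48
  14 (.d k223 k239 k16 3 10))))] (.c k168 (.l (.s k171 k87 13 (.s k71 k116 4 (.s k207 k139 9 (.s
  k154 k48 14 (.d k223 k239 k16 3 10)))))) (.c k171 (.q k168 [(.d k84 k87 k252 0 13), (.s k71 k116 4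
  (.s k207 k139 9 (.s k223 k239 3 (.d k154 k16 k48 10 14))))] .n) .n)))) (.c k253 (.l (.s k3 k2 0
  (.s k87 k171 13 (.s k86 k84 0 (.s k71 k116 4 (.s k207 k139 9 (.s k154 k48 14 (.d k223 k239 k16 3
  10)))))))) .n))) (.c k117 (.q k253 [(.s k169 k1 13 (.s k252 k254 0 (.s k84 k168 13 (.d k86 k87 k3
  0 14)))), (.s k169 k1 13 (.s k237 k33 9 (.s k221 k205 3 (.s k204 k238 4 (.s k68 k136 9 (.s k102
  k119 4 (.d k153 k17 k51 9 14)))))))] (.c k1 (.l (.s k252 k254 0 (.s k84 k168 13 (.s k86 k87 0 (.s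
  k116 k71 4 (.s k48 k184 9 (.s k16 k32 3 (.d k154 k223 k207 10 14)))))))) (.c k169 (.f k252 k254 0
  (.q k86 [(.d k84 k168 k87 13 0), (.s k116 k71 4 (.s k48 k184 9 (.s k16 k32 3 (.d k154 k223 k207 10
  14))))] (.c k168 (.q k171 [(.d k87 k84 k3 0 13), (.s k116 k71 4 (.s k48 k184 9 (.s k16 k32 3 (.d
  k154 k223 k207 10 14))))] .n) (.c k171 (.l (.s k168 k84 13 (.s k116 k71 4 (.s k48 k184 9 (.s k16
  k32 3 (.d k154 k223 k207 10 14)))))) .n)))) .n))) (.c k138 (.l (.s k117 k69 3 (.s k48 k186 10 (.s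
  k154 k207 14 (.d k16 k32 k223 3 10))))) (.c k154 (.f k69 k117 3 (.q k153 [(.s k205 k49 13 (.s k1
  k137 9 (.s k221 k17 9 (.d k253 k237 k169 3 13)))), (.s k17 k221 9 (.s k51 k34 4 (.s k102 k204 14
  (.d k119 k68 k187 4 9)))), (.s k205 k49 13 (.s k1 k137 9 (.s k3 k2 0 (.s k87 k171 13 (.s k86 k84 0
  (.d k169 k253 k252 13 14))))))] (.c k138 (.q k186 [(.s k17 k221 9 (.s k51 k34 4 (.s k119 k187 9
  (.d k102 k68 k204 4 14)))), (.s k205 k49 13 (.s k1 k137 9 (.s k3 k2 0 (.s k87 k171 13 (.s k86 k84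
  0 (.d k169 k253 k252 13 14))))))] .n) (.c k186 (.l (.s k138 k207 10 (.s k17 k221 9 (.s k51 k34 4
  (.s k102 k204 14 (.d k119 k68 k187 4 9)))))) .n)))) (.c k186 (.l (.s k69 k117 3 (.s k207 k138 10
  (.s k154 k48 14 (.d k223 k239 k16 3 10))))) (.c k207 (.f k117 k69 3 (.q k93 [(.s k12 k174 12 (.s
  k4 k8 1 (.s k89 k81 1 (.d k166 k247 k243 12 14)))), (.s k48 k186 10 (.s k16 k32 3 (.s k89 k81 1
  (.s k154 k223 10 (.s k24 k219 8 (.d k12 k36 k174 5 12)))))), (.s k12 k174 12 (.s k4 k8 1 (.s k48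
  k186 10 (.s k36 k24 5 (.d k166 k231 k247 8 12)))))] (.c k12 (.l (.s k48 k186 10 (.s k81 k89 1 (.s
  k243 k162 12 (.s k113 k178 8 (.s k65 k97 3 (.d k125 k121 k105 1 5))))))) (.c k89 (.l (.s k12 k174
  12 (.s k48 k186 10 (.s k36 k24 5 (.s k166 k231 8 (.d k4 k8 k247 1 12)))))) (.c k111 (.q k159 [(.s
  k12 k174 12 (.s k4 k8 1 (.s k89 k81 1 (.d k166 k247 k243 12 14)))), (.s k48 k186 10 (.s k16 k32 3
  (.s k89 k81 1 (.s k154 k223 10 (.s k24 k219 8 (.d k12 k36 k174 5 12)))))), (.s k12 k174 12 (.s k4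
  k8 1 (.s k48 k186 10 (.s k36 k24 5 (.d k166 k231 k247 8 12)))))] (.c k12 (.l (.s k48 k186 10 (.s
  k81 k89 1 (.s k243 k162 12 (.s k113 k178 8 (.s k65 k97 3 (.d k125 k121 k105 1 5))))))) (.c k89 (.l
  (.s k12 k174 12 (.s k48 k186 10 (.s k36 k24 5 (.s k166 k231 8 (.d k4 k8 k247 1 12)))))) (.c k174
  (.l (.s k48 k186 10 (.s k89 k81 1 (.s k113 k77 5 (.s k243 k178 8 (.s k247 k251 1 (.d k166 k12 k4
  14 12))))))) .n)))) (.c k159 (.q k111 [(.s k12 k174 12 (.s k4 k8 1 (.s k89 k81 1 (.d k166 k247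
  k243 12 14)))), (.s k106 k96 2 (.s k127 k64 6 (.s k79 k95 3 (.d k112 k122 k90 2 6))))] .n) (.c
  k174 (.l (.s k48 k186 10 (.s k89 k81 1 (.s k113 k77 5 (.s k243 k178 8 (.s k247 k251 1 (.d k166 k12
  k4 14 12))))))) .n))))))) (.c k223 (.q k1 [(.s k3 k2 0 (.s k87 k171 13 (.s k86 k84 0 (.d k169 k253
  k252 13 14)))), (.s k69 k117 3 (.s k169 k253 13 (.s k33 k237 9 (.s k49 k17 3 (.d k205 k137 k153 9
  13))))), (.s k3 k2 0 (.s k69 k117 3 (.s k137 k205 9 (.s k70 k204 10 (.s k71 k68 0 (.d k207 k139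
  k138 9 10))))))] .n) (.c k239 (.l (.s k117 k69 3 (.s k48 k186 10 (.s k16 k32 3 (.d k154 k223 k207
  10 14))))) .n))))))))))))

def t27_75 : T TT 256 :=
  (.f k255 k170 14 (.q k89 [(.s k81 k93 1 (.s k243 k162 12 (.s k166 k12 14 (.d k247 k251 k4 1
  12))))] (.c k4 (.q k1 [(.s k169 k253 13 (.s k3 k2 0 (.s k86 k252 14 (.d k87 k84 k171 0 13)))), (.s
  k81 k93 1 (.s k169 k253 13 (.s k9 k249 11 (.s k13 k5 1 (.d k241 k161 k165 11 13))))), (.s k3 k2 0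
  (.s k81 k93 1 (.s k161 k241 11 (.s k82 k240 12 (.s k83 k80 0 (.d k243 k163 k162 11 12))))))] .n)
  (.c k12 (.q k1 [(.s k3 k2 0 (.s k87 k171 13 (.s k86 k84 0 (.d k169 k253 k252 13 14)))), (.s k81
  k93 1 (.s k169 k253 13 (.s k9 k249 11 (.s k13 k5 1 (.d k241 k161 k165 11 13))))), (.s k3 k2 0 (.s
  k81 k93 1 (.s k161 k241 11 (.s k82 k240 12 (.s k83 k80 0 (.d k243 k163 k162 11 12))))))] .n) (.c
  k81 (.q k87 [(.s k86 k84 0 (.s k3 k171 13 (.s k169 k252 14 (.d k1 k2 k253 0 13)))), (.s k86 k84 0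
  (.s k83 k92 2 (.s k95 k91 1 (.s k15 k175 11 (.s k5 k10 2 (.s k165 k245 11 (.d k90 k80 k240 2
  14)))))))] (.c k84 (.l (.s k3 k171 13 (.s k1 k2 0 (.s k169 k253 13 (.s k9 k249 11 (.s k12 k6 2 (.s
  k4 k8 1 (.d k166 k247 k243 12 14)))))))) (.c k86 (.f k3 k171 13 (.q k169 [(.d k1 k2 k253 0 13),
  (.s k9 k249 11 (.s k12 k6 2 (.s k4 k8 1 (.d k166 k247 k243 12 14))))] (.c k2 (.q k254 [(.d k253
  k252 k1 0 13), (.s k9 k249 11 (.s k12 k6 2 (.s k4 k8 1 (.d k166 k247 k243 12 14))))] .n) (.c k254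
  (.l (.s k2 k1 0 (.s k9 k249 11 (.s k12 k6 2 (.s k4 k8 1 (.d k166 k247 k243 12 14)))))) .n))))
  .n))) (.c k93 (.q k21 [(.s k149 k213 7 (.s k63 k42 6 (.s k106 k192 14 (.d k127 k64 k191 6 7)))),
  (.s k149 k213 7 (.s k29 k209 9 (.s k17 k25 1 (.s k51 k34 4 (.s k119 k187 9 (.s k102 k68 4 (.d k153
  k221 k204 9 14)))))))] (.c k149 (.f k63 k42 6 (.q k106 [(.d k127 k191 k64 7 6), (.s k123 k72 4 (.s
  k243 k183 9 (.s k166 k12 14 (.d k247 k251 k4 1 12))))] (.c k128 (.l (.s k191 k127 7 (.s k123 k72 4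
  (.s k243 k183 9 (.s k166 k12 14 (.d k247 k251 k4 1 12)))))) (.c k191 (.q k128 [(.d k64 k127 k192 6
  7), (.s k123 k72 4 (.s k243 k183 9 (.s k247 k251 1 (.d k166 k4 k12 12 14))))] .n) .n)))) (.c k213
  (.l (.s k63 k42 6 (.s k127 k191 7 (.s k106 k64 6 (.s k123 k72 4 (.s k243 k183 9 (.s k166 k12 14
  (.d k247 k251 k4 1 12)))))))) .n))) (.c k162 (.l (.s k93 k81 1 (.s k12 k174 12 (.s k166 k243 14
  (.d k4 k8 k247 1 12))))) (.c k166 (.f k81 k93 1 (.q k83 [(.s k80 k82 0 (.s k86 k92 2 (.s k87 k84 0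
  (.d k95 k91 k90 1 2)))), (.s k80 k82 0 (.s k240 k160 11 (.s k245 k250 2 (.s k165 k5 11 (.s k241
  k13 13 (.d k243 k162 k242 12 0)))))), (.s k86 k92 2 (.s k84 k87 0 (.s k252 k168 13 (.s k169 k3 14
  (.d k253 k254 k1 0 13)))))] (.c k162 (.q k174 [(.s k80 k82 0 (.s k86 k92 2 (.s k87 k84 0 (.d k95
  k91 k90 1 2)))), (.s k86 k92 2 (.s k84 k87 0 (.s k252 k168 13 (.s k169 k3 14 (.d k253 k254 k1 0
  13))))), (.s k80 k82 0 (.s k240 k160 11 (.s k245 k250 2 (.s k165 k5 11 (.d k90 k95 k15 2 14)))))]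
  (.c k95 (.l (.s k82 k80 0 (.s k86 k92 2 (.s k94 k90 1 (.s k84 k87 0 (.s k252 k168 13 (.d k254 k14
  k253 11 0))))))) .n)) (.c k174 (.l (.s k162 k243 12 (.s k80 k82 0 (.s k86 k92 2 (.s k87 k84 0 (.d
  k95 k91 k90 1 2)))))) .n)))) (.c k174 (.l (.s k81 k93 1 (.s k243 k162 12 (.s k166 k12 14 (.d k247
  k251 k4 1 12))))) (.c k243 (.q k1 [(.s k3 k2 0 (.s k87 k171 13 (.s k86 k84 0 (.d k169 k253 k252 13
  14)))), (.s k81 k93 1 (.s k169 k253 13 (.s k9 k249 11 (.s k13 k5 1 (.d k241 k161 k165 11 13))))),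
  (.s k3 k2 0 (.s k93 k81 1 (.s k12 k174 12 (.s k8 k4 1 (.s k9 k6 2 (.s k5 k13 1 (.d k10 k11 k15 0
  2)))))))] .n) (.c k247 (.q k1 [(.s k169 k253 13 (.s k3 k2 0 (.s k86 k252 14 (.d k87 k84 k171 0
  13)))), (.s k81 k93 1 (.s k169 k253 13 (.s k9 k249 11 (.s k13 k5 1 (.d k241 k161 k165 11 13))))),
  (.s k3 k2 0 (.s k81 k93 1 (.s k161 k241 11 (.s k82 k240 12 (.s k83 k80 0 (.d k243 k163 k162 11
  12))))))] .n) (.c k251 (.l (.s k93 k81 1 (.s k12 k174 12 (.s k4 k8 1 (.d k166 k247 k243 12 14)))))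
  .n))))))))))))

def t27_78 : T TT 256 :=
  (.f k255 k170 14 (.q k89 [(.s k81 k93 1 (.s k243 k162 12 (.s k166 k12 14 (.d k247 k251 k4 1
  12))))] (.c k4 (.q k1 [(.s k169 k253 13 (.s k3 k2 0 (.s k86 k252 14 (.d k87 k84 k171 0 13)))), (.s
  k81 k93 1 (.s k169 k253 13 (.s k9 k249 11 (.s k13 k5 1 (.d k241 k161 k165 11 13))))), (.s k3 k2 0
  (.s k81 k93 1 (.s k161 k241 11 (.s k82 k240 12 (.s k83 k80 0 (.d k243 k163 k162 11 12))))))] .n)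
  (.c k12 (.q k1 [(.s k3 k2 0 (.s k87 k171 13 (.s k86 k84 0 (.d k169 k253 k252 13 14)))), (.s k81
  k93 1 (.s k169 k253 13 (.s k9 k249 11 (.s k13 k5 1 (.d k241 k161 k165 11 13))))), (.s k3 k2 0 (.s
  k81 k93 1 (.s k161 k241 11 (.s k82 k240 12 (.s k83 k80 0 (.d k243 k163 k162 11 12))))))] .n) (.c
  k81 (.q k87 [(.s k86 k84 0 (.s k3 k171 13 (.s k169 k252 14 (.d k1 k2 k253 0 13)))), (.s k86 k84 0
  (.s k83 k92 2 (.s k95 k91 1 (.s k15 k175 11 (.s k5 k10 2 (.s k165 k245 11 (.d k90 k80 k240 2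
  14)))))))] (.c k84 (.l (.s k3 k171 13 (.s k1 k2 0 (.s k169 k253 13 (.s k9 k249 11 (.s k12 k6 2 (.s
  k4 k8 1 (.d k166 k247 k243 12 14)))))))) (.c k86 (.f k3 k171 13 (.q k169 [(.d k1 k2 k253 0 13),
  (.s k9 k249 11 (.s k12 k6 2 (.s k4 k8 1 (.d k166 k247 k243 12 14))))] (.c k2 (.q k254 [(.d k253
  k252 k1 0 13), (.s k9 k249 11 (.s k12 k6 2 (.s k4 k8 1 (.d k166 k247 k243 12 14))))] .n) (.c k254
  (.l (.s k2 k1 0 (.s k9 k249 11 (.s k12 k6 2 (.s k4 k8 1 (.d k166 k247 k243 12 14)))))) .n))))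
  .n))) (.c k93 (.q k21 [(.s k149 k213 7 (.s k63 k42 6 (.s k106 k192 14 (.d k127 k64 k191 6 7)))),
  (.s k149 k213 7 (.s k29 k209 9 (.s k17 k25 1 (.s k51 k34 4 (.s k119 k187 9 (.s k102 k68 4 (.d k153
  k221 k204 9 14)))))))] (.c k149 (.f k63 k42 6 (.q k106 [(.d k127 k191 k64 7 6), (.s k123 k72 4 (.s
  k243 k183 9 (.s k166 k12 14 (.d k247 k251 k4 1 12))))] (.c k128 (.l (.s k191 k127 7 (.s k123 k72 4
  (.s k243 k183 9 (.s k166 k12 14 (.d k247 k251 k4 1 12)))))) (.c k191 (.q k128 [(.d k64 k127 k192 6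
  7), (.s k123 k72 4 (.s k243 k183 9 (.s k247 k251 1 (.d k166 k4 k12 12 14))))] .n) .n)))) (.c k213
  (.l (.s k63 k42 6 (.s k127 k191 7 (.s k106 k64 6 (.s k123 k72 4 (.s k243 k183 9 (.s k166 k12 14
  (.d k247 k251 k4 1 12)))))))) .n))) (.c k162 (.l (.s k93 k81 1 (.s k12 k174 12 (.s k166 k243 14
  (.d k4 k8 k247 1 12))))) (.c k166 (.f k81 k93 1 (.q k83 [(.s k80 k82 0 (.s k86 k92 2 (.s k87 k84 0
  (.d k95 k91 k90 1 2)))), (.s k80 k82 0 (.s k240 k160 11 (.s k245 k250 2 (.s k165 k5 11 (.s k241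
  k13 13 (.d k243 k162 k242 12 0)))))), (.s k86 k92 2 (.s k84 k87 0 (.s k252 k168 13 (.s k169 k3 14
  (.d k253 k254 k1 0 13)))))] (.c k162 (.q k174 [(.s k80 k82 0 (.s k86 k92 2 (.s k87 k84 0 (.d k95
  k91 k90 1 2)))), (.s k86 k92 2 (.s k84 k87 0 (.s k252 k168 13 (.s k169 k3 14 (.d k253 k254 k1 0
  13))))), (.s k80 k82 0 (.s k240 k160 11 (.s k245 k250 2 (.s k165 k5 11 (.d k90 k95 k15 2 14)))))]
  (.c k95 (.l (.s k82 k80 0 (.s k86 k92 2 (.s k94 k90 1 (.s k84 k87 0 (.s k252 k168 13 (.d k254 k14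
  k253 11 0))))))) .n)) (.c k174 (.l (.s k162 k243 12 (.s k80 k82 0 (.s k86 k92 2 (.s k87 k84 0 (.d
  k95 k91 k90 1 2)))))) .n)))) (.c k174 (.l (.s k81 k93 1 (.s k243 k162 12 (.s k166 k12 14 (.d k247
  k251 k4 1 12))))) (.c k243 (.q k1 [(.s k3 k2 0 (.s k87 k171 13 (.s k86 k84 0 (.d k169 k253 k252 13
  14)))), (.s k81 k93 1 (.s k169 k253 13 (.s k9 k249 11 (.s k13 k5 1 (.d k241 k161 k165 11 13))))),
  (.s k3 k2 0 (.s k93 k81 1 (.s k12 k174 12 (.s k8 k4 1 (.s k9 k6 2 (.s k5 k13 1 (.d k10 k11 k15 0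
  2)))))))] .n) (.c k247 (.q k1 [(.s k169 k253 13 (.s k3 k2 0 (.s k86 k252 14 (.d k87 k84 k171 0
  13)))), (.s k81 k93 1 (.s k169 k253 13 (.s k9 k249 11 (.s k13 k5 1 (.d k241 k161 k165 11 13))))),
  (.s k3 k2 0 (.s k81 k93 1 (.s k161 k241 11 (.s k82 k240 12 (.s k83 k80 0 (.d k243 k163 k162 11
  12))))))] .n) (.c k251 (.l (.s k93 k81 1 (.s k12 k174 12 (.s k4 k8 1 (.d k166 k247 k243 12 14)))))
  .n))))))))))))

def t27_99 : T TT 256 :=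
  (.f k255 k170 14 (.q k89 [(.s k81 k93 1 (.s k243 k162 12 (.s k166 k12 14 (.d k247 k251 k4 1
  12))))] (.c k4 (.q k1 [(.s k169 k253 13 (.s k3 k2 0 (.s k86 k252 14 (.d k87 k84 k171 0 13)))), (.s
  k81 k93 1 (.s k169 k253 13 (.s k9 k249 11 (.s k13 k5 1 (.d k241 k161 k165 11 13))))), (.s k3 k2 0
  (.s k81 k93 1 (.s k161 k241 11 (.s k82 k240 12 (.s k83 k80 0 (.d k243 k163 k162 11 12))))))] .n)
  (.c k12 (.q k1 [(.s k3 k2 0 (.s k87 k171 13 (.s k86 k84 0 (.d k169 k253 k252 13 14)))), (.s k81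
  k93 1 (.s k169 k253 13 (.s k9 k249 11 (.s k13 k5 1 (.d k241 k161 k165 11 13))))), (.s k3 k2 0 (.s
  k81 k93 1 (.s k161 k241 11 (.s k82 k240 12 (.s k83 k80 0 (.d k243 k163 k162 11 12))))))] .n) (.c
  k81 (.q k87 [(.s k86 k84 0 (.s k3 k171 13 (.s k169 k252 14 (.d k1 k2 k253 0 13)))), (.s k86 k84 0
  (.s k83 k92 2 (.s k95 k91 1 (.s k15 k175 11 (.s k5 k10 2 (.s k165 k245 11 (.d k90 k80 k240 2
  14)))))))] (.c k84 (.l (.s k3 k171 13 (.s k1 k2 0 (.s k169 k253 13 (.s k9 k249 11 (.s k12 k6 2 (.s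
  k4 k8 1 (.d k166 k247 k243 12 14)))))))) (.c k86 (.f k3 k171 13 (.q k169 [(.d k1 k2 k253 0 13),
  (.s k9 k249 11 (.s k12 k6 2 (.s k4 k8 1 (.d k166 k247 k243 12 14))))] (.c k2 (.q k254 [(.d k253
  k252 k1 0 13), (.s k9 k249 11 (.s k12 k6 2 (.s k4 k8 1 (.d k166 k247 k243 12 14))))] .n) (.c k254
  (.l (.s k2 k1 0 (.s k9 k249 11 (.s k12 k6 2 (.s k4 k8 1 (.d k166 k247 k243 12 14)))))) .n))))
  .n))) (.c k93 (.q k21 [(.s k149 k213 7 (.s k63 k42 6 (.s k106 k192 14 (.d k127 k64 k191 6 7)))),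
  (.s k149 k213 7 (.s k29 k209 9 (.s k17 k25 1 (.s k51 k34 4 (.s k119 k187 9 (.s k102 k68 4 (.d k153
  k221 k204 9 14)))))))] (.c k149 (.f k63 k42 6 (.q k106 [(.d k127 k191 k64 7 6), (.s k123 k72 4 (.s
  k243 k183 9 (.s k166 k12 14 (.d k247 k251 k4 1 12))))] (.c k128 (.l (.s k191 k127 7 (.s k123 k72 4
  (.s k243 k183 9 (.s k166 k12 14 (.d k247 k251 k4 1 12)))))) (.c k191 (.q k128 [(.d k64 k127 k192 6
  7), (.s k123 k72 4 (.s k243 k183 9 (.s k247 k251 1 (.d k166 k4 k12 12 14))))] .n) .n)))) (.c k213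
  (.l (.s k63 k42 6 (.s k127 k191 7 (.s k106 k64 6 (.s k123 k72 4 (.s k243 k183 9 (.s k166 k12 14
  (.d k247 k251 k4 1 12)))))))) .n))) (.c k162 (.l (.s k93 k81 1 (.s k12 k174 12 (.s k166 k243 14
  (.d k4 k8 k247 1 12))))) (.c k166 (.f k81 k93 1 (.q k83 [(.s k80 k82 0 (.s k86 k92 2 (.s k87 k84 0
  (.d k95 k91 k90 1 2)))), (.s k80 k82 0 (.s k240 k160 11 (.s k245 k250 2 (.s k165 k5 11 (.s k241
  k13 13 (.d k243 k162 k242 12 0)))))), (.s k86 k92 2 (.s k84 k87 0 (.s k252 k168 13 (.s k169 k3 14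
  (.d k253 k254 k1 0 13)))))] (.c k162 (.q k174 [(.s k80 k82 0 (.s k86 k92 2 (.s k87 k84 0 (.d k95
  k91 k90 1 2)))), (.s k86 k92 2 (.s k84 k87 0 (.s k252 k168 13 (.s k169 k3 14 (.d k253 k254 k1 0
  13))))), (.s k80 k82 0 (.s k240 k160 11 (.s k245 k250 2 (.s k165 k5 11 (.d k90 k95 k15 2 14)))))]
  (.c k95 (.l (.s k82 k80 0 (.s k86 k92 2 (.s k94 k90 1 (.s k84 k87 0 (.s k252 k168 13 (.d k254 k14
  k253 11 0))))))) .n)) (.c k174 (.l (.s k162 k243 12 (.s k80 k82 0 (.s k86 k92 2 (.s k87 k84 0 (.d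
  k95 k91 k90 1 2)))))) .n)))) (.c k174 (.l (.s k81 k93 1 (.s k243 k162 12 (.s k166 k12 14 (.d k247
  k251 k4 1 12))))) (.c k243 (.q k1 [(.s k3 k2 0 (.s k87 k171 13 (.s k86 k84 0 (.d k169 k253 k252 13
  14)))), (.s k81 k93 1 (.s k169 k253 13 (.s k9 k249 11 (.s k13 k5 1 (.d k241 k161 k165 11 13))))),
  (.s k3 k2 0 (.s k93 k81 1 (.s k12 k174 12 (.s k8 k4 1 (.s k9 k6 2 (.s k5 k13 1 (.d k10 k11 k15 0
  2)))))))] .n) (.c k247 (.q k1 [(.s k169 k253 13 (.s k3 k2 0 (.s k86 k252 14 (.d k87 k84 k171 0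
  13)))), (.s k81 k93 1 (.s k169 k253 13 (.s k9 k249 11 (.s k13 k5 1 (.d k241 k161 k165 11 13))))),
  (.s k3 k2 0 (.s k81 k93 1 (.s k161 k241 11 (.s k82 k240 12 (.s k83 k80 0 (.d k243 k163 k162 11
  12))))))] .n) (.c k251 (.l (.s k93 k81 1 (.s k12 k174 12 (.s k4 k8 1 (.d k166 k247 k243 12 14)))))
  .n))))))))))))

def t27_106 : T TT 256 :=
  (.f k170 k255 14 (.q k252 [(.s k84 k168 13 (.s k86 k87 0 (.s k2 k254 13 (.d k3 k1 k169 0 14))))]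
  (.c k1 (.q k4 [(.s k12 k8 1 (.s k166 k247 12 (.s k162 k174 1 (.d k243 k81 k89 12 14)))), (.s k12
  k8 1 (.s k84 k168 13 (.s k92 k172 11 (.s k88 k80 1 (.d k164 k244 k240 11 13))))), (.s k84 k168 13
  (.s k86 k87 0 (.s k166 k247 12 (.s k6 k246 11 (.s k7 k5 0 (.d k244 k164 k165 11 12))))))] .n) (.c
  k2 (.q k4 [(.s k12 k8 1 (.s k166 k247 12 (.s k162 k174 1 (.d k243 k81 k89 12 14)))), (.s k12 k8 1
  (.s k84 k168 13 (.s k92 k172 11 (.s k88 k80 1 (.d k164 k244 k240 11 13))))), (.s k84 k168 13 (.s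
  k86 k87 0 (.s k166 k247 12 (.s k6 k246 11 (.s k7 k5 0 (.d k244 k164 k165 11 12))))))] .n) (.c k3
  (.f k168 k84 13 (.q k248 [(.s k88 k8 11 (.s k240 k244 1 (.s k160 k80 11 (.d k164 k172 k12 1
  13)))), (.s k8 k88 11 (.s k89 k251 12 (.s k81 k93 1 (.s k243 k162 12 (.d k12 k4 k166 1 14))))),
  (.s k240 k244 1 (.s k80 k160 11 (.s k90 k95 2 (.d k169 k171 k11 0 12))))] (.c k4 (.l (.s k88 k8 11
  (.s k240 k244 1 (.s k164 k12 13 (.d k160 k172 k80 1 11))))) (.c k80 (.l (.s k88 k8 11 (.s k240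
  k244 1 (.s k164 k12 13 (.s k160 k172 1 (.s k165 k175 2 (.s k5 k245 11 (.d k15 k10 k90 2 14))))))))
  (.c k87 (.l (.s k171 k169 0 (.s k88 k8 11 (.s k240 k244 1 (.s k160 k80 11 (.d k164 k172 k12 1
  13)))))) (.c k171 (.q k87 [(.s k88 k8 11 (.s k240 k244 1 (.s k160 k80 11 (.d k164 k172 k12 1
  13)))), (.s k8 k88 11 (.s k89 k251 12 (.s k81 k93 1 (.s k243 k162 12 (.d k12 k4 k166 1 14))))),
  (.s k240 k244 1 (.s k80 k160 11 (.s k90 k95 2 (.s k10 k250 11 (.d k15 k5 k165 2 14)))))] (.c k4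
  (.l (.s k88 k8 11 (.s k240 k244 1 (.s k164 k12 13 (.d k160 k172 k80 1 11))))) (.c k80 (.l (.s k88
  k8 11 (.s k240 k244 1 (.s k164 k12 13 (.s k160 k172 1 (.s k165 k175 2 (.s k5 k245 11 (.d k15 k10
  k90 2 14)))))))) .n))) .n)))))) (.c k84 (.q k166 [(.s k4 k247 12 (.s k12 k8 1 (.s k162 k174 1 (.d
  k243 k81 k89 12 14)))), (.s k162 k174 1 (.s k243 k81 12 (.s k246 k249 2 (.s k86 k6 11 (.s k2 k254
  13 (.d k3 k1 k169 0 14)))))), (.s k4 k247 12 (.s k12 k8 1 (.s k172 k92 11 (.s k169 k163 2 (.s k1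
  k253 13 (.d k3 k2 k86 0 14))))))] (.c k12 (.q k153 [(.s k17 k221 9 (.s k51 k34 4 (.s k136 k187 4
  (.d k204 k68 k102 9 14)))), (.s k140 k179 6 (.s k174 k162 1 (.s k191 k157 4 (.s k128 k149 6 (.d
  k136 k132 k187 1 4))))), (.s k17 k221 9 (.s k51 k34 4 (.s k179 k140 6 (.s k243 k115 7 (.d k162
  k174 k81 1 12)))))] (.c k93 (.l (.s k174 k162 1 (.s k17 k221 9 (.s k51 k34 4 (.s k136 k187 4 (.d
  k204 k68 k102 9 14)))))) (.c k174 (.q k93 [(.s k17 k221 9 (.s k51 k34 4 (.s k136 k187 4 (.d k204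
  k68 k102 9 14)))), (.s k89 k81 1 (.s k217 k25 7 (.s k221 k17 9 (.s k29 k157 7 (.d k209 k213 k149 1
  9))))), (.s k4 k247 12 (.s k136 k187 4 (.s k140 k179 6 (.s k132 k128 1 (.d k68 k196 k204 7 9)))))]
  (.c k51 (.l (.s k17 k221 9 (.s k81 k89 1 (.s k145 k209 7 (.s k162 k243 12 (.d k179 k128 k140 4
  6)))))) .n)) .n))) (.c k243 (.q k1 [(.s k3 k2 0 (.d k169 k253 k86 13 14)), (.s k162 k174 1 (.s
  k169 k253 13 (.s k163 k172 2 (.s k160 k161 0 (.s k171 k168 0 (.d k175 k167 k165 1 2)))))), (.s k2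
  k3 0 (.s k86 k254 13 (.s k6 k246 11 (.s k10 k14 1 (.s k5 k15 2 (.d k4 k7 k247 0 12))))))] (.c k247
  (.q k251 [(.s k3 k2 0 (.d k169 k253 k86 13 14)), (.s k8 k89 12 (.s k12 k4 1 (.s k169 k253 13 (.d
  k172 k163 k92 2 11)))), (.s k2 k3 0 (.s k86 k254 13 (.s k6 k246 11 (.s k14 k10 1 (.s k162 k174 1
  (.d k242 k82 k90 11 13))))))] .n) (.c k251 (.l (.s k247 k4 12 (.s k3 k2 0 (.d k169 k253 k86 13
  14)))) .n))) .n))) (.c k86 (.f k168 k84 13 (.q k185 [(.s k51 k118 10 (.s k17 k34 4 (.s k153 k221 9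
  (.d k169 k171 k137 0 3)))), (.s k169 k171 0 (.s k153 k137 3 (.s k221 k17 9 (.s k253 k1 13 (.s k49
  k117 9 (.d k205 k237 k101 3 13)))))), (.s k51 k118 10 (.s k17 k34 4 (.s k153 k221 9 (.s k136 k187
  4 (.d k204 k102 k68 14 9))))), (.s k51 k118 10 (.s k169 k171 0 (.s k153 k137 3 (.s k136 k187 4 (.d
  k204 k102 k68 14 9)))))] (.c k66 (.q k126 [(.s k51 k118 10 (.s k17 k34 4 (.s k153 k221 9 (.d k169
  k171 k137 0 3)))), (.s k63 k189 8 (.s k118 k51 10 (.s k122 k114 1 (.s k240 k181 10 (.d k248 k244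
  k59 1 8))))), (.s k169 k171 0 (.s k153 k137 3 (.s k221 k17 9 (.s k253 k1 13 (.s k49 k117 9 (.d
  k205 k237 k101 3 13))))))] .n) (.c k126 (.q k66 [(.s k169 k171 0 (.s k153 k137 3 (.s k17 k221 9
  (.d k51 k34 k118 4 10)))), (.s k169 k171 0 (.s k153 k137 3 (.s k221 k17 9 (.s k253 k1 13 (.s k49
  k117 9 (.d k205 k237 k101 3 13)))))), (.s k51 k118 10 (.s k17 k34 4 (.s k153 k221 9 (.s k136 k187
  4 (.d k204 k102 k68 14 9))))), (.s k51 k118 10 (.s k169 k171 0 (.s k153 k137 3 (.s k136 k187 4 (.d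
  k204 k102 k68 14 9)))))] (.c k153 (.l (.s k51 k118 10 (.s k34 k17 4 (.s k102 k238 9 (.s k68 k119 4
  (.s k169 k171 0 (.s k204 k136 9 (.d k236 k220 k35 3 10)))))))) .n)) (.c k153 (.l (.s k51 k118 10
  (.s k34 k17 4 (.s k102 k238 9 (.s k68 k119 4 (.s k169 k171 0 (.s k204 k136 9 (.d k236 k220 k35 3
  10)))))))) .n))))) (.c k87 (.l (.s k168 k84 13 (.s k169 k171 0 (.s k3 k86 14 (.d k1 k2 k253 0
  13))))) (.c k168 (.q k150 [(.s k20 k215 8 (.s k130 k190 5 (.s k195 k65 8 (.d k60 k40 k105 5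
  14)))), (.s k130 k190 5 (.s k195 k65 8 (.s k214 k233 6 (.s k86 k22 7 (.s k2 k254 13 (.d k3 k1 k169
  0 14)))))), (.s k20 k215 8 (.s k60 k40 5 (.s k188 k124 7 (.s k169 k131 6 (.s k1 k253 13 (.d k3 k2
  k86 0 14))))))] (.c k60 (.q k32 [(.s k48 k16 3 (.s k101 k239 10 (.s k69 k117 3 (.d k207 k138 k154
  10 14)))), (.s k16 k48 3 (.s k20 k215 8 (.s k28 k24 1 (.s k89 k211 10 (.s k93 k81 1 (.d k223 k158
  k154 8 10)))))), (.s k20 k215 8 (.s k101 k239 10 (.s k52 k199 12 (.s k4 k36 3 (.s k117 k69 3 (.d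
  k247 k182 k166 8 12))))))] (.c k117 (.l (.s k48 k16 3 (.s k101 k239 10 (.s k116 k184 9 (.s k86 k71
  4 (.s k2 k254 13 (.d k3 k1 k169 0 14))))))) (.c k125 (.l (.s k190 k130 5 (.s k48 k16 3 (.s k101
  k239 10 (.s k69 k117 3 (.d k207 k138 k154 10 14)))))) (.c k190 (.q k125 [(.s k48 k16 3 (.s k101
  k239 10 (.s k69 k117 3 (.d k207 k138 k154 10 14)))), (.s k16 k48 3 (.s k20 k215 8 (.s k28 k24 1
  (.s k89 k211 10 (.s k93 k81 1 (.d k223 k158 k154 8 10)))))), (.s k20 k215 8 (.s k101 k239 10 (.s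
  k52 k199 12 (.s k36 k4 3 (.s k40 k44 1 (.d k105 k235 k65 8 5))))))] (.c k223 (.l (.s k48 k16 3 (.s
  k101 k239 10 (.s k207 k154 14 (.d k69 k117 k138 3 10))))) .n)) (.c k223 (.l (.s k48 k16 3 (.s k101
  k239 10 (.s k207 k154 14 (.d k69 k117 k138 3 10))))) .n))))) (.c k195 (.q k213 [(.s k149 k21 7 (.s
  k215 k20 8 (.s k212 k214 0 (.s k23 k86 8 (.d k151 k148 k87 0 7))))), (.s k149 k21 7 (.s k151 k148
  0 (.s k190 k130 5 (.s k191 k128 6 (.s k188 k189 0 (.d k131 k171 k169 5 6)))))), (.s k149 k21 7 (.s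
  k128 k191 6 (.s k192 k64 7 (.s k212 k232 5 (.d k215 k214 k20 0 8)))))] (.c k21 (.l (.s k215 k20 8
  (.s k212 k214 0 (.s k192 k232 5 (.s k128 k64 7 (.s k149 k191 6 (.s k23 k86 8 (.d k151 k148 k87 0
  7)))))))) (.c k149 (.l (.s k215 k20 8 (.s k214 k212 0 (.s k86 k22 7 (.s k2 k254 13 (.d k3 k1 k169
  0 14)))))) (.c k215 (.q k235 [(.s k149 k21 7 (.s k151 k148 0 (.s k190 k130 5 (.s k191 k128 6 (.s
  k188 k189 0 (.d k131 k171 k169 5 6)))))), (.s k40 k105 8 (.s k60 k20 5 (.s k188 k124 7 (.s k169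
  k131 6 (.s k1 k253 13 (.d k3 k86 k2 14 0)))))), (.s k40 k105 8 (.s k60 k20 5 (.s k149 k21 7 (.s
  k128 k191 6 (.s k192 k64 7 (.d k148 k104 k151 13 0))))))] .n) (.c k235 (.l (.s k215 k20 8 (.s k149
  k21 7 (.s k128 k191 6 (.s k192 k64 7 (.d k212 k214 k232 0 5)))))) .n))))) .n))) (.c k169 (.q k232
  [(.s k168 k84 13 (.s k104 k40 7 (.s k192 k212 5 (.s k128 k64 7 (.d k148 k188 k60 5 13))))), (.s
  k84 k168 13 (.s k86 k87 0 (.s k212 k192 5 (.s k149 k23 8 (.s k213 k21 7 (.s k215 k214 0 (.d k20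
  k148 k150 7 8))))))), (.s k168 k84 13 (.s k40 k104 7 (.s k105 k235 8 (.s k65 k125 5 (.s k195 k130
  8 (.d k60 k20 k150 5 14))))))] (.c k20 (.l (.s k168 k84 13 (.s k104 k40 7 (.s k192 k212 5 (.s k148
  k60 13 (.d k128 k188 k64 5 7)))))) (.c k84 (.q k4 [(.s k12 k8 1 (.s k166 k247 12 (.s k162 k174 1
  (.d k243 k81 k89 12 14)))), (.s k12 k8 1 (.s k192 k212 5 (.s k128 k64 7 (.s k132 k72 9 (.s k68
  k196 7 (.d k136 k140 k204 1 9)))))), (.s k166 k247 12 (.s k192 k212 5 (.s k128 k64 7 (.s k149 k191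
  6 (.s k132 k183 4 (.s k68 k196 7 (.d k136 k140 k204 1 9)))))))] .n) (.c k168 (.q k4 [(.s k166 k247
  12 (.s k162 k174 1 (.s k243 k81 12 (.d k12 k8 k89 1 14)))), (.s k12 k8 1 (.s k192 k212 5 (.s k128
  k64 7 (.s k132 k72 9 (.s k68 k196 7 (.d k136 k140 k204 1 9)))))), (.s k166 k247 12 (.s k192 k212 5
  (.s k128 k64 7 (.s k149 k191 6 (.s k132 k183 4 (.s k68 k196 7 (.d k136 k140 k204 1 9)))))))] .n)
  .n)))) (.c k171 (.l (.s k84 k168 13 (.s k86 k87 0 (.s k3 k169 14 (.d k2 k1 k254 0 13))))) (.c k254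
  (.l (.s k168 k84 13 (.s k169 k171 0 (.s k1 k253 13 (.d k3 k2 k86 0 14))))) .n))))))))))))

def t27_107 : T TT 256 :=
  (.f k255 k170 14 (.q k105 [(.s k65 k125 5 (.s k195 k130 8 (.s k150 k60 14 (.d k215 k235 k20 5
  8))))] (.c k20 (.q k1 [(.s k3 k2 0 (.s k169 k253 13 (.s k86 k252 14 (.d k87 k84 k171 0 13)))), (.s
  k65 k125 5 (.s k169 k253 13 (.s k41 k233 7 (.s k61 k21 5 (.d k193 k129 k149 7 13))))), (.s k3 k2 0
  (.s k65 k125 5 (.s k129 k193 7 (.s k66 k192 8 (.s k67 k64 0 (.d k195 k131 k130 7 8))))))] .n) (.c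
  k60 (.q k1 [(.s k3 k2 0 (.s k169 k253 13 (.s k86 k252 14 (.d k87 k84 k171 0 13)))), (.s k65 k125 5
  (.s k169 k253 13 (.s k41 k233 7 (.s k61 k21 5 (.d k193 k129 k149 7 13))))), (.s k3 k2 0 (.s k65
  k125 5 (.s k129 k193 7 (.s k66 k192 8 (.s k67 k64 0 (.d k195 k131 k130 7 8))))))] .n) (.c k65 (.q
  k3 [(.s k1 k2 0 (.s k169 k253 13 (.s k86 k252 14 (.d k87 k84 k171 0 13)))), (.s k87 k171 13 (.s
  k86 k84 0 (.s k67 k124 6 (.s k195 k131 7 (.s k150 k60 14 (.d k215 k235 k20 5 8)))))), (.s k1 k2 0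
  (.s k169 k253 13 (.s k41 k233 7 (.s k60 k22 6 (.s k20 k40 5 (.d k150 k215 k195 8 14))))))] (.c k86
  (.q k71 [(.s k207 k139 9 (.s k69 k138 10 (.s k70 k68 0 (.s k137 k204 10 (.d k1 k2 k205 0 9))))),
  (.s k87 k171 13 (.s k103 k119 3 (.s k207 k139 9 (.s k155 k51 13 (.d k223 k239 k19 3 9))))), (.s
  k87 k171 13 (.s k119 k103 3 (.s k68 k102 4 (.s k70 k69 0 (.d k204 k136 k137 9 10)))))] (.c k2 (.q
  k254 [(.s k207 k139 9 (.s k69 k138 10 (.s k101 k117 3 (.s k154 k48 14 (.d k223 k239 k16 3 10))))),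
  (.s k87 k171 13 (.s k103 k119 3 (.s k207 k139 9 (.s k155 k51 13 (.d k223 k239 k19 3 9))))), (.s
  k87 k171 13 (.s k119 k103 3 (.s k68 k102 4 (.s k70 k69 0 (.d k204 k136 k137 9 10)))))] (.c k239
  (.l (.s k207 k139 9 (.s k69 k138 10 (.s k70 k68 0 (.s k137 k204 10 (.s k1 k205 9 (.d k253 k252
  k169 0 13))))))) .n)) (.c k254 (.l (.s k2 k1 0 (.s k87 k171 13 (.s k103 k119 3 (.s k207 k139 9 (.s
  k155 k51 13 (.d k223 k239 k19 3 9))))))) .n))) (.c k169 (.f k171 k87 13 (.q k63 [(.s k127 k191 7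
  (.s k21 k42 6 (.s k149 k213 7 (.d k106 k64 k192 6 14)))), (.s k2 k1 0 (.s k42 k21 6 (.s k22 k62 5
  (.s k41 k60 6 (.d k43 k40 k23 0 5))))), (.s k127 k191 7 (.s k106 k64 6 (.s k149 k192 14 (.s k61
  k193 13 (.s k60 k62 0 (.s k20 k40 5 (.d k150 k195 k215 14 8)))))))] (.c k67 (.l (.s k127 k191 7
  (.s k21 k42 6 (.s k149 k213 7 (.d k106 k64 k192 6 14))))) (.c k127 (.q k67 [(.s k195 k131 7 (.s
  k150 k60 14 (.d k215 k235 k20 5 8))), (.s k1 k2 0 (.s k21 k42 6 (.s k61 k41 5 (.d k149 k213 k193 7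
  13))))] .n) .n)))) .n))) (.c k125 (.q k3 [(.s k1 k2 0 (.s k169 k253 13 (.s k86 k252 14 (.d k87 k84
  k171 0 13)))), (.s k87 k171 13 (.s k86 k84 0 (.s k67 k124 6 (.s k195 k131 7 (.s k150 k60 14 (.d
  k215 k235 k20 5 8)))))), (.s k1 k2 0 (.s k169 k253 13 (.s k41 k233 7 (.s k60 k22 6 (.s k20 k40 5
  (.d k150 k215 k195 8 14))))))] (.c k86 (.q k68 [(.s k102 k119 4 (.s k204 k136 9 (.s k221 k238 4
  (.d k153 k17 k51 9 14)))), (.s k2 k1 0 (.s k204 k136 9 (.s k70 k137 10 (.s k69 k71 0 (.d k138 k206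
  k207 9 10))))), (.s k87 k171 13 (.s k119 k102 4 (.s k71 k103 3 (.s k207 k139 9 (.d k69 k70 k138 0
  10)))))] (.c k2 (.q k254 [(.s k102 k119 4 (.s k204 k136 9 (.s k221 k238 4 (.d k153 k17 k51 9
  14)))), (.s k87 k171 13 (.s k119 k102 4 (.s k71 k103 3 (.s k207 k139 9 (.d k69 k70 k138 0 10))))),
  (.s k204 k136 9 (.s k70 k137 10 (.s k69 k71 0 (.s k238 k221 4 (.s k206 k222 3 (.d k207 k138 k205
  10 0))))))] (.c k187 (.l (.s k102 k119 4 (.s k204 k136 9 (.s k153 k51 14 (.d k221 k238 k17 4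
  9))))) (.c k238 (.l (.s k87 k171 13 (.s k204 k136 9 (.s k70 k137 10 (.s k71 k69 0 (.d k119 k103
  k102 3 4)))))) .n))) (.c k187 (.l (.s k102 k119 4 (.s k204 k136 9 (.s k153 k51 14 (.d k221 k238
  k17 4 9))))) (.c k254 (.l (.s k2 k1 0 (.s k102 k119 4 (.s k204 k136 9 (.s k153 k51 14 (.d k221
  k238 k17 4 9)))))) .n)))) (.c k169 (.f k171 k87 13 (.q k195 [(.s k150 k60 14 (.d k215 k235 k20 5
  8)), (.s k2 k1 0 (.s k130 k65 8 (.s k66 k194 7 (.s k129 k192 8 (.d k131 k67 k128 7 0)))))] (.c k67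
  (.q k127 [(.s k150 k60 14 (.d k215 k235 k20 5 8)), (.s k63 k191 7 (.s k21 k42 6 (.s k106 k64 6 (.d
  k149 k213 k192 7 14))))] .n) (.c k127 (.l (.s k67 k131 7 (.s k150 k60 14 (.d k215 k235 k20 5 8))))
  .n)))) .n))) (.c k130 (.l (.s k125 k65 5 (.s k60 k190 8 (.s k150 k195 14 (.d k20 k40 k215 5 8)))))
  (.c k150 (.f k125 k65 5 (.q k117 [(.s k101 k69 3 (.s k109 k97 1 (.s k77 k93 3 (.d k113 k121 k89 1
  5)))), (.s k48 k186 10 (.s k16 k32 3 (.s k154 k223 10 (.s k56 k203 12 (.d k60 k190 k52 8 1)))))]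
  (.c k101 (.l (.s k121 k113 1 (.s k89 k73 3 (.s k81 k93 1 (.s k243 k162 12 (.d k60 k190 k182 8
  10)))))) (.c k130 (.l (.s k190 k60 8 (.s k48 k186 10 (.s k16 k32 3 (.s k101 k69 3 (.d k154 k223
  k207 10 14)))))) (.c k190 (.q k130 [(.s k101 k69 3 (.s k109 k97 1 (.s k77 k93 3 (.d k113 k121 k89
  1 5)))), (.s k48 k186 10 (.s k16 k32 3 (.s k154 k223 10 (.d k101 k69 k207 3 14)))), (.s k121 k113
  1 (.s k186 k48 10 (.s k251 k56 8 (.s k243 k247 1 (.s k81 k162 12 (.d k89 k93 k73 1 3))))))] .n)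
  .n))))) (.c k190 (.l (.s k65 k125 5 (.s k195 k130 8 (.s k150 k60 14 (.d k215 k235 k20 5 8))))) (.c
  k195 (.q k63 [(.s k21 k42 6 (.s k127 k191 7 (.s k106 k64 6 (.d k149 k213 k192 7 14)))), (.s k21
  k42 6 (.s k125 k65 5 (.s k60 k190 8 (.s k61 k62 0 (.s k1 k41 5 (.d k253 k189 k169 7 13)))))), (.s
  k125 k65 5 (.s k60 k190 8 (.s k61 k62 0 (.s k127 k191 7 (.s k106 k64 6 (.d k149 k193 k192 13
  14))))))] (.c k106 (.l (.s k125 k65 5 (.s k60 k190 8 (.s k61 k62 0 (.s k149 k193 13 (.d k21 k42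
  k213 6 7)))))) .n)) (.c k215 (.q k1 [(.s k3 k2 0 (.s k169 k253 13 (.s k86 k252 14 (.d k87 k84 k171
  0 13)))), (.s k65 k125 5 (.s k169 k253 13 (.s k41 k233 7 (.s k61 k21 5 (.d k193 k129 k149 7
  13))))), (.s k3 k2 0 (.s k65 k125 5 (.s k129 k193 7 (.s k66 k192 8 (.s k67 k64 0 (.d k195 k131
  k130 7 8))))))] .n) (.c k235 (.l (.s k125 k65 5 (.s k60 k190 8 (.s k20 k40 5 (.d k150 k215 k195 8
  14))))) .n))))))))))))

/-- roots with certificates -/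
def certs : List (Cell TT 256 × Cell TT 256 × T TT 256) :=
  [(k26, k138, t26_138), (k26, k139, t26_139), (k26, k143, t26_143), (k26, k146, t26_146), (k26,
  k147, t26_147), (k26, k154, t26_154), (k26, k155, t26_155), (k26, k159, t26_159), (k26, k161,
  t26_161), (k26, k162, t26_162), (k26, k163, t26_163), (k26, k166, t26_166), (k26, k167, t26_167),
  (k26, k171, t26_171), (k26, k175, t26_175), (k26, k177, t26_177), (k26, k178, t26_178), (k26,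
  k179, t26_179), (k26, k182, t26_182), (k26, k183, t26_183), (k26, k186, t26_186), (k26, k187,
  t26_187), (k26, k191, t26_191), (k26, k198, t26_198), (k26, k199, t26_199), (k26, k202, t26_202),
  (k26, k203, t26_203), (k26, k207, t26_207), (k26, k210, t26_210), (k26, k218, t26_218), (k26,
  k219, t26_219), (k26, k223, t26_223), (k26, k225, t26_225), (k26, k226, t26_226), (k26, k227,
  t26_227), (k26, k230, t26_230), (k26, k231, t26_231), (k26, k234, t26_234), (k26, k235, t26_235),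
  (k26, k239, t26_239), (k26, k241, t26_241), (k26, k242, t26_242), (k26, k243, t26_243), (k26,
  k246, t26_246), (k26, k247, t26_247), (k26, k250, t26_250), (k26, k251, t26_251), (k27, k30,
  t27_30), (k27, k39, t27_39), (k27, k42, t27_42), (k27, k43, t27_43), (k27, k45, t27_45), (k27,
  k46, t27_46), (k27, k47, t27_47), (k27, k57, t27_57), (k27, k58, t27_58), (k27, k59, t27_59),
  (k27, k62, t27_62), (k27, k63, t27_63), (k27, k75, t27_75), (k27, k78, t27_78), (k27, k99,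
  t27_99), (k27, k106, t27_106), (k27, k107, t27_107)]

theorem c26_138 : rootOK k26 k138 t26_138 = true := by decide +kernel

theorem c26_139 : rootOK k26 k139 t26_139 = true := by decide +kernel

theorem c26_143 : rootOK k26 k143 t26_143 = true := by decide +kernel

theorem c26_146 : rootOK k26 k146 t26_146 = true := by decide +kernel

theorem c26_147 : rootOK k26 k147 t26_147 = true := by decide +kernel

theorem c26_154 : rootOK k26 k154 t26_154 = true := by decide +kernel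

theorem c26_155 : rootOK k26 k155 t26_155 = true := by decide +kernel

theorem c26_159 : rootOK k26 k159 t26_159 = true := by decide +kernel

theorem c26_161 : rootOK k26 k161 t26_161 = true := by decide +kernel

theorem c26_162 : rootOK k26 k162 t26_162 = true := by decide +kernel

theorem c26_163 : rootOK k26 k163 t26_163 = true := by decide +kernel

theorem c26_166 : rootOK k26 k166 t26_166 = true := by decide +kernel

theorem c26_167 : rootOK k26 k167 t26_167 = true := by decide +kernel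

theorem c26_171 : rootOK k26 k171 t26_171 = true := by decide +kernel

theorem c26_175 : rootOK k26 k175 t26_175 = true := by decide +kernel

theorem c26_177 : rootOK k26 k177 t26_177 = true := by decide +kernel

theorem c26_178 : rootOK k26 k178 t26_178 = true := by decide +kernel

theorem c26_179 : rootOK k26 k179 t26_179 = true := by decide +kernel

theorem c26_182 : rootOK k26 k182 t26_182 = true := by decide +kernel

theorem c26_183 : rootOK k26 k183 t26_183 = true := by decide +kernel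

theorem c26_186 : rootOK k26 k186 t26_186 = true := by decide +kernel

theorem c26_187 : rootOK k26 k187 t26_187 = true := by decide +kernel

theorem c26_191 : rootOK k26 k191 t26_191 = true := by decide +kernel

theorem c26_198 : rootOK k26 k198 t26_198 = true := by decide +kernel

theorem c26_199 : rootOK k26 k199 t26_199 = true := by decide +kernel

theorem c26_202 : rootOK k26 k202 t26_202 = true := by decide +kernel

theorem c26_203 : rootOK k26 k203 t26_203 = true := by decide +kernel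

theorem c26_207 : rootOK k26 k207 t26_207 = true := by decide +kernel

theorem c26_210 : rootOK k26 k210 t26_210 = true := by decide +kernel

theorem c26_218 : rootOK k26 k218 t26_218 = true := by decide +kernel

theorem c26_219 : rootOK k26 k219 t26_219 = true := by decide +kernel

theorem c26_223 : rootOK k26 k223 t26_223 = true := by decide +kernel

theorem c26_225 : rootOK k26 k225 t26_225 = true := by decide +kernel

theorem c26_226 : rootOK k26 k226 t26_226 = true := by decide +kernel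

theorem c26_227 : rootOK k26 k227 t26_227 = true := by decide +kernel

theorem c26_230 : rootOK k26 k230 t26_230 = true := by decide +kernel

theorem c26_231 : rootOK k26 k231 t26_231 = true := by decide +kernel

theorem c26_234 : rootOK k26 k234 t26_234 = true := by decide +kernel

theorem c26_235 : rootOK k26 k235 t26_235 = true := by decide +kernel

theorem c26_239 : rootOK k26 k239 t26_239 = true := by decide +kernel

theorem c26_241 : rootOK k26 k241 t26_241 = true := by decide +kernel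

theorem c26_242 : rootOK k26 k242 t26_242 = true := by decide +kernel

theorem c26_243 : rootOK k26 k243 t26_243 = true := by decide +kernel

theorem c26_246 : rootOK k26 k246 t26_246 = true := by decide +kernel

theorem c26_247 : rootOK k26 k247 t26_247 = true := by decide +kernel

theorem c26_250 : rootOK k26 k250 t26_250 = true := by decide +kernel

theorem c26_251 : rootOK k26 k251 t26_251 = true := by decide +kernel

theorem c27_30 : rootOK k27 k30 t27_30 = true := by decide +kernel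

theorem c27_39 : rootOK k27 k39 t27_39 = true := by decide +kernel

theorem c27_42 : rootOK k27 k42 t27_42 = true := by decide +kernel

theorem c27_43 : rootOK k27 k43 t27_43 = true := by decide +kernel

theorem c27_45 : rootOK k27 k45 t27_45 = true := by decide +kernel

theorem c27_46 : rootOK k27 k46 t27_46 = true := by decide +kernel

theorem c27_47 : rootOK k27 k47 t27_47 = true := by decide +kernel

theorem c27_57 : rootOK k27 k57 t27_57 = true := by decide +kernel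

theorem c27_58 : rootOK k27 k58 t27_58 = true := by decide +kernel

theorem c27_59 : rootOK k27 k59 t27_59 = true := by decide +kernel

theorem c27_62 : rootOK k27 k62 t27_62 = true := by decide +kernel

theorem c27_63 : rootOK k27 k63 t27_63 = true := by decide +kernel

theorem c27_75 : rootOK k27 k75 t27_75 = true := by decide +kernel

theorem c27_78 : rootOK k27 k78 t27_78 = true := by decide +kernel

theorem c27_99 : rootOK k27 k99 t27_99 = true := by decide +kernel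

theorem c27_106 : rootOK k27 k106 t27_106 = true := by decide +kernel

theorem c27_107 : rootOK k27 k107 t27_107 = true := by decide +kernel

theorem ok : certsOK certs = true :=
  certsOK_cons c26_138 (certsOK_cons c26_139 (certsOK_cons c26_143 (certsOK_cons c26_146 (
  certsOK_cons c26_147 (certsOK_cons c26_154 (certsOK_cons c26_155 (certsOK_cons c26_159 (
  certsOK_cons c26_161 (certsOK_cons c26_162 (certsOK_cons c26_163 (certsOK_cons c26_166 (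
  certsOK_cons c26_167 (certsOK_cons c26_171 (certsOK_cons c26_175 (certsOK_cons c26_177 (
  certsOK_cons c26_178 (certsOK_cons c26_179 (certsOK_cons c26_182 (certsOK_cons c26_183 (
  certsOK_cons c26_186 (certsOK_cons c26_187 (certsOK_cons c26_191 (certsOK_cons c26_198 (
  certsOK_cons c26_199 (certsOK_cons c26_202 (certsOK_cons c26_203 (certsOK_cons c26_207 (
  certsOK_cons c26_210 (certsOK_cons c26_218 (certsOK_cons c26_219 (certsOK_cons c26_223 (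
  certsOK_cons c26_225 (certsOK_cons c26_226 (certsOK_cons c26_227 (certsOK_cons c26_230 (
  certsOK_cons c26_231 (certsOK_cons c26_234 (certsOK_cons c26_235 (certsOK_cons c26_239 (
  certsOK_cons c26_241 (certsOK_cons c26_242 (certsOK_cons c26_243 (certsOK_cons c26_246 (
  certsOK_cons c26_247 (certsOK_cons c26_250 (certsOK_cons c26_251 (certsOK_cons c27_30 (
  certsOK_cons c27_39 (certsOK_cons c27_42 (certsOK_cons c27_43 (certsOK_cons c27_45 (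
  certsOK_cons c27_46 (certsOK_cons c27_47 (certsOK_cons c27_57 (certsOK_cons c27_58 (
  certsOK_cons c27_59 (certsOK_cons c27_62 (certsOK_cons c27_63 (certsOK_cons c27_75 (
  certsOK_cons c27_78 (certsOK_cons c27_99 (certsOK_cons c27_106 (certsOK_cons c27_107 (certsOK_nil
  ))))))))))))))))))))))))))))))))))))))))))))))))))))))))))))))))

theorem sound (k : Nat) (hk : (bits certs).testBit k = true) : PI k :=
  certs_sound certs ok k hk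

end Pool.Agent.TTT.A15
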