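import Pool.Agent.TTT.Sym

set_option autoImplicit false
set_option maxRecDepth 100000

namespace Pool.Agent.TTT.A16

def t27_108 : T TT 256 :=
  (.f k255 k170 14 (.q k89 [(.s k81 k93 1 (.s k243 k162 12 (.s k166 k12 14 (.d k247 k251 k4 1
  12))))] (.c k4 (.q k1 [(.s k169 k253 13 (.s k3 k2 0 (.s k86 k252 14 (.d k87 k84 k171 0 13)))), (.s
  k81 k93 1 (.s k169 k253 13 (.s k9 k249 11 (.s k13 k5 1 (.d k241 k161 k165 11 13))))), (.s k3 k2 0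
  (.s k81 k93 1 (.s k161 k241 11 (.s k82 k240 12 (.s k83 k80 0 (.d k243 k163 k162 11 12))))))] .n)
  (.c k12 (.q k1 [(.s k3 k2 0 (.s k87 k171 13 (.s k86 k84 0 (.d k169 k253 k252 13 14)))), (.s k81
  k93 1 (.s k169 k253 13 (.s k9 k249 11 (.s k13 k5 1 (.d k241 k161 k165 11 13))))), (.s k3 k2 0 (.s
  k81 k93 1 (.s k161 k241 11 (.s k82 k240 12 (.s k83 k80 0 (.d k243 k163 k162 11 12))))))] .n) (.c
  k81 (.q k87 [(.s k86 k84 0 (.s k3 k171 13 (.s k169 k252 14 (.d k1 k2 k253 0 13)))), (.s k86 k84 0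
  (.s k83 k92 2 (.s k95 k91 1 (.s k15 k175 11 (.s k5 k10 2 (.s k165 k245 11 (.d k90 k80 k240 2
  14)))))))] (.c k84 (.l (.s k3 k171 13 (.s k1 k2 0 (.s k169 k253 13 (.s k9 k249 11 (.s k12 k6 2 (.s
  k4 k8 1 (.d k166 k247 k243 12 14)))))))) (.c k86 (.f k3 k171 13 (.q k169 [(.d k1 k2 k253 0 13),
  (.s k9 k249 11 (.s k12 k6 2 (.s k4 k8 1 (.d k166 k247 k243 12 14))))] (.c k2 (.q k254 [(.d k253
  k252 k1 0 13), (.s k9 k249 11 (.s k12 k6 2 (.s k4 k8 1 (.d k166 k247 k243 12 14))))] .n) (.c k254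
  (.l (.s k2 k1 0 (.s k9 k249 11 (.s k12 k6 2 (.s k4 k8 1 (.d k166 k247 k243 12 14)))))) .n))))
  .n))) (.c k93 (.q k21 [(.s k149 k213 7 (.s k63 k42 6 (.s k106 k192 14 (.d k127 k64 k191 6 7)))),
  (.s k149 k213 7 (.s k29 k209 9 (.s k17 k25 1 (.s k51 k34 4 (.s k119 k187 9 (.s k102 k68 4 (.d k153
  k221 k204 9 14)))))))] (.c k149 (.f k63 k42 6 (.q k106 [(.d k127 k191 k64 7 6), (.s k123 k72 4 (.s
  k243 k183 9 (.s k166 k12 14 (.d k247 k251 k4 1 12))))] (.c k128 (.l (.s k191 k127 7 (.s k123 k72 4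
  (.s k243 k183 9 (.s k166 k12 14 (.d k247 k251 k4 1 12)))))) (.c k191 (.q k128 [(.d k64 k127 k192 6
  7), (.s k123 k72 4 (.s k243 k183 9 (.s k247 k251 1 (.d k166 k4 k12 12 14))))] .n) .n)))) (.c k213
  (.l (.s k63 k42 6 (.s k127 k191 7 (.s k106 k64 6 (.s k123 k72 4 (.s k243 k183 9 (.s k166 k12 14
  (.d k247 k251 k4 1 12)))))))) .n))) (.c k162 (.l (.s k93 k81 1 (.s k12 k174 12 (.s k166 k243 14
  (.d k4 k8 k247 1 12))))) (.c k166 (.f k81 k93 1 (.q k83 [(.s k80 k82 0 (.s k86 k92 2 (.s k87 k84 0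
  (.d k95 k91 k90 1 2)))), (.s k80 k82 0 (.s k240 k160 11 (.s k245 k250 2 (.s k165 k5 11 (.s k241
  k13 13 (.d k243 k162 k242 12 0)))))), (.s k86 k92 2 (.s k84 k87 0 (.s k252 k168 13 (.s k169 k3 14
  (.d k253 k254 k1 0 13)))))] (.c k162 (.q k174 [(.s k80 k82 0 (.s k86 k92 2 (.s k87 k84 0 (.d k95
  k91 k90 1 2)))), (.s k80 k82 0 (.s k240 k160 11 (.s k245 k250 2 (.s k165 k5 11 (.d k90 k95 k15 2
  14))))), (.s k86 k92 2 (.s k84 k87 0 (.s k252 k168 13 (.s k169 k3 14 (.d k253 k254 k1 0 13)))))]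
  (.c k95 (.l (.s k82 k80 0 (.s k86 k92 2 (.s k94 k90 1 (.s k84 k87 0 (.s k252 k168 13 (.d k254 k14
  k253 11 0))))))) .n)) (.c k174 (.l (.s k162 k243 12 (.s k80 k82 0 (.s k86 k92 2 (.s k87 k84 0 (.d
  k95 k91 k90 1 2)))))) .n)))) (.c k174 (.l (.s k81 k93 1 (.s k243 k162 12 (.s k166 k12 14 (.d k247
  k251 k4 1 12))))) (.c k243 (.q k1 [(.s k3 k2 0 (.s k87 k171 13 (.s k86 k84 0 (.d k169 k253 k252 13
  14)))), (.s k81 k93 1 (.s k169 k253 13 (.s k9 k249 11 (.s k13 k5 1 (.d k241 k161 k165 11 13))))),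
  (.s k3 k2 0 (.s k93 k81 1 (.s k12 k174 12 (.s k8 k4 1 (.s k9 k6 2 (.s k5 k13 1 (.d k10 k11 k15 0
  2)))))))] .n) (.c k247 (.q k1 [(.s k169 k253 13 (.s k3 k2 0 (.s k86 k252 14 (.d k87 k84 k171 0
  13)))), (.s k81 k93 1 (.s k169 k253 13 (.s k9 k249 11 (.s k13 k5 1 (.d k241 k161 k165 11 13))))),
  (.s k3 k2 0 (.s k81 k93 1 (.s k161 k241 11 (.s k82 k240 12 (.s k83 k80 0 (.d k243 k163 k162 11
  12))))))] .n) (.c k251 (.l (.s k93 k81 1 (.s k12 k174 12 (.s k4 k8 1 (.d k166 k247 k243 12 14)))))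
  .n))))))))))))

def t27_110 : T TT 256 :=
  (.f k255 k170 14 (.q k105 [(.s k65 k125 5 (.s k195 k130 8 (.s k150 k60 14 (.d k215 k235 k20 5
  8))))] (.c k20 (.q k1 [(.s k169 k253 13 (.s k3 k2 0 (.s k86 k252 14 (.d k87 k84 k171 0 13)))), (.s
  k65 k125 5 (.s k169 k253 13 (.s k41 k233 7 (.s k61 k21 5 (.d k193 k129 k149 7 13))))), (.s k3 k2 0
  (.s k65 k125 5 (.s k129 k193 7 (.s k66 k192 8 (.s k67 k64 0 (.d k195 k131 k130 7 8))))))] .n) (.c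
  k60 (.q k1 [(.s k3 k2 0 (.s k87 k171 13 (.s k86 k84 0 (.d k169 k253 k252 13 14)))), (.s k65 k125 5
  (.s k169 k253 13 (.s k41 k233 7 (.s k61 k21 5 (.d k193 k129 k149 7 13))))), (.s k3 k2 0 (.s k65
  k125 5 (.s k129 k193 7 (.s k66 k192 8 (.s k67 k64 0 (.d k195 k131 k130 7 8))))))] .n) (.c k65 (.q
  k1 [(.s k169 k253 13 (.s k3 k2 0 (.s k86 k252 14 (.d k87 k84 k171 0 13)))), (.s k169 k253 13 (.s
  k41 k233 7 (.s k21 k61 5 (.s k63 k42 6 (.s k127 k191 7 (.s k106 k64 6 (.d k149 k213 k192 7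
  14)))))))] (.c k169 (.f k3 k2 0 (.q k86 [(.d k87 k171 k84 13 0), (.s k67 k124 6 (.s k195 k131 7
  (.s k150 k60 14 (.d k215 k235 k20 5 8))))] (.c k168 (.l (.s k171 k87 13 (.s k67 k124 6 (.s k195
  k131 7 (.s k150 k60 14 (.d k215 k235 k20 5 8)))))) (.c k171 (.q k168 [(.d k84 k87 k252 0 13), (.s
  k67 k124 6 (.s k195 k131 7 (.s k215 k235 5 (.d k150 k20 k60 8 14))))] .n) .n)))) (.c k253 (.l (.s
  k3 k2 0 (.s k87 k171 13 (.s k86 k84 0 (.s k67 k124 6 (.s k195 k131 7 (.s k150 k60 14 (.d k215 k235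
  k20 5 8)))))))) .n))) (.c k125 (.q k253 [(.s k169 k1 13 (.s k252 k254 0 (.s k84 k168 13 (.d k86
  k87 k3 0 14)))), (.s k169 k1 13 (.s k233 k41 7 (.s k213 k193 5 (.s k192 k234 6 (.s k64 k128 7 (.s
  k106 k127 6 (.d k149 k21 k63 7 14)))))))] (.c k1 (.l (.s k252 k254 0 (.s k84 k168 13 (.s k86 k87 0
  (.s k124 k67 6 (.s k60 k188 7 (.s k20 k40 5 (.d k150 k215 k195 8 14)))))))) (.c k169 (.f k252 k254
  0 (.q k86 [(.d k84 k168 k87 13 0), (.s k124 k67 6 (.s k60 k188 7 (.s k20 k40 5 (.d k150 k215 k195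
  8 14))))] (.c k168 (.q k171 [(.d k87 k84 k3 0 13), (.s k124 k67 6 (.s k60 k188 7 (.s k20 k40 5 (.d
  k150 k215 k195 8 14))))] .n) (.c k171 (.l (.s k168 k84 13 (.s k124 k67 6 (.s k60 k188 7 (.s k20
  k40 5 (.d k150 k215 k195 8 14)))))) .n)))) .n))) (.c k130 (.l (.s k125 k65 5 (.s k60 k190 8 (.s
  k150 k195 14 (.d k20 k40 k215 5 8))))) (.c k150 (.f k125 k65 5 (.q k86 [(.s k84 k87 0 (.s k252
  k168 13 (.s k169 k3 14 (.d k253 k254 k1 0 13)))), (.s k124 k67 6 (.s k127 k126 0 (.s k63 k191 7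
  (.s k21 k42 6 (.s k149 k213 7 (.d k106 k64 k192 6 14))))))] (.c k130 (.l (.s k190 k60 8 (.s k84
  k87 0 (.s k124 k67 6 (.s k64 k104 5 (.d k127 k126 k106 0 6)))))) (.c k190 (.q k130 [(.s k84 k87 0
  (.s k252 k168 13 (.s k169 k3 14 (.d k253 k254 k1 0 13)))), (.s k124 k67 6 (.s k127 k126 0 (.s k63
  k191 7 (.s k21 k42 6 (.s k149 k213 7 (.d k106 k64 k192 6 14))))))] (.c k254 (.l (.s k84 k87 0 (.s
  k124 k67 6 (.s k64 k104 5 (.d k127 k126 k106 0 6))))) .n)) .n)))) (.c k190 (.l (.s k65 k125 5 (.s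
  k195 k130 8 (.s k150 k60 14 (.d k215 k235 k20 5 8))))) (.c k195 (.q k1 [(.s k3 k2 0 (.s k87 k171
  13 (.s k86 k84 0 (.d k169 k253 k252 13 14)))), (.s k65 k125 5 (.s k169 k253 13 (.s k41 k233 7 (.s
  k61 k21 5 (.d k193 k129 k149 7 13))))), (.s k3 k2 0 (.s k125 k65 5 (.s k60 k190 8 (.s k40 k20 5
  (.s k41 k22 6 (.s k21 k61 5 (.d k42 k43 k63 0 6)))))))] .n) (.c k215 (.q k1 [(.s k169 k253 13 (.s
  k3 k2 0 (.s k86 k252 14 (.d k87 k84 k171 0 13)))), (.s k65 k125 5 (.s k169 k253 13 (.s k41 k233 7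
  (.s k61 k21 5 (.d k193 k129 k149 7 13))))), (.s k3 k2 0 (.s k65 k125 5 (.s k129 k193 7 (.s k66
  k192 8 (.s k67 k64 0 (.d k195 k131 k130 7 8))))))] .n) (.c k235 (.l (.s k125 k65 5 (.s k60 k190 8
  (.s k20 k40 5 (.d k150 k215 k195 8 14))))) .n))))))))))))

def t27_111 : T TT 256 :=
  (.f k255 k170 14 (.q k105 [(.s k65 k125 5 (.s k195 k130 8 (.s k150 k60 14 (.d k215 k235 k20 5
  8))))] (.c k20 (.q k1 [(.s k169 k253 13 (.s k3 k2 0 (.s k86 k252 14 (.d k87 k84 k171 0 13)))), (.s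
  k65 k125 5 (.s k169 k253 13 (.s k41 k233 7 (.s k61 k21 5 (.d k193 k129 k149 7 13))))), (.s k3 k2 0
  (.s k65 k125 5 (.s k129 k193 7 (.s k66 k192 8 (.s k67 k64 0 (.d k195 k131 k130 7 8))))))] .n) (.c
  k60 (.q k1 [(.s k3 k2 0 (.s k87 k171 13 (.s k86 k84 0 (.d k169 k253 k252 13 14)))), (.s k65 k125 5
  (.s k169 k253 13 (.s k41 k233 7 (.s k61 k21 5 (.d k193 k129 k149 7 13))))), (.s k3 k2 0 (.s k65
  k125 5 (.s k129 k193 7 (.s k66 k192 8 (.s k67 k64 0 (.d k195 k131 k130 7 8))))))] .n) (.c k65 (.q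
  k1 [(.s k169 k253 13 (.s k3 k2 0 (.s k86 k252 14 (.d k87 k84 k171 0 13)))), (.s k169 k253 13 (.s
  k41 k233 7 (.s k21 k61 5 (.s k63 k42 6 (.s k127 k191 7 (.s k106 k64 6 (.d k149 k213 k192 7
  14)))))))] (.c k169 (.f k3 k2 0 (.q k86 [(.d k87 k171 k84 13 0), (.s k67 k124 6 (.s k195 k131 7
  (.s k150 k60 14 (.d k215 k235 k20 5 8))))] (.c k168 (.l (.s k171 k87 13 (.s k67 k124 6 (.s k195
  k131 7 (.s k150 k60 14 (.d k215 k235 k20 5 8)))))) (.c k171 (.q k168 [(.d k84 k87 k252 0 13), (.s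
  k67 k124 6 (.s k195 k131 7 (.s k215 k235 5 (.d k150 k20 k60 8 14))))] .n) .n)))) (.c k253 (.l (.s
  k3 k2 0 (.s k87 k171 13 (.s k86 k84 0 (.s k67 k124 6 (.s k195 k131 7 (.s k150 k60 14 (.d k215 k235
  k20 5 8)))))))) .n))) (.c k125 (.q k253 [(.s k169 k1 13 (.s k252 k254 0 (.s k84 k168 13 (.d k86
  k87 k3 0 14)))), (.s k169 k1 13 (.s k233 k41 7 (.s k213 k193 5 (.s k192 k234 6 (.s k64 k128 7 (.s
  k106 k127 6 (.d k149 k21 k63 7 14)))))))] (.c k1 (.l (.s k252 k254 0 (.s k84 k168 13 (.s k86 k87 0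
  (.s k124 k67 6 (.s k60 k188 7 (.s k20 k40 5 (.d k150 k215 k195 8 14)))))))) (.c k169 (.f k252 k254
  0 (.q k86 [(.d k84 k168 k87 13 0), (.s k124 k67 6 (.s k60 k188 7 (.s k20 k40 5 (.d k150 k215 k195
  8 14))))] (.c k168 (.q k171 [(.d k87 k84 k3 0 13), (.s k124 k67 6 (.s k60 k188 7 (.s k20 k40 5 (.d
  k150 k215 k195 8 14))))] .n) (.c k171 (.l (.s k168 k84 13 (.s k124 k67 6 (.s k60 k188 7 (.s k20
  k40 5 (.d k150 k215 k195 8 14)))))) .n)))) .n))) (.c k130 (.l (.s k125 k65 5 (.s k60 k190 8 (.s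
  k150 k195 14 (.d k20 k40 k215 5 8))))) (.c k150 (.f k125 k65 5 (.q k109 [(.s k77 k93 3 (.s k101
  k97 1 (.s k117 k69 3 (.d k113 k121 k89 1 5)))), (.s k93 k77 3 (.s k12 k174 12 (.s k4 k8 1 (.s k166
  k247 12 (.d k89 k81 k243 1 14))))), (.s k101 k97 1 (.s k69 k117 3 (.s k207 k138 10 (.d k60 k190
  k158 8 12))))] (.c k69 (.l (.s k77 k93 3 (.s k101 k97 1 (.s k113 k89 5 (.s k117 k121 1 (.s k48
  k186 10 (.s k16 k32 3 (.d k154 k223 k207 10 14)))))))) (.c k81 (.l (.s k77 k93 3 (.s k101 k97 1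
  (.s k113 k89 5 (.d k117 k121 k69 1 3))))) (.c k130 (.l (.s k190 k60 8 (.s k77 k93 3 (.s k101 k97 1
  (.s k113 k89 5 (.d k117 k121 k69 1 3)))))) (.c k190 (.q k130 [(.s k77 k93 3 (.s k101 k97 1 (.s
  k117 k69 3 (.d k113 k121 k89 1 5)))), (.s k93 k77 3 (.s k12 k174 12 (.s k4 k8 1 (.s k166 k247 12
  (.d k89 k81 k243 1 14))))), (.s k101 k97 1 (.s k69 k117 3 (.s k207 k138 10 (.s k154 k48 14 (.d
  k223 k239 k16 3 10)))))] (.c k69 (.l (.s k77 k93 3 (.s k101 k97 1 (.s k113 k89 5 (.s k117 k121 1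
  (.s k48 k186 10 (.s k16 k32 3 (.d k154 k223 k207 10 14)))))))) (.c k81 (.l (.s k77 k93 3 (.s k101
  k97 1 (.s k113 k89 5 (.d k117 k121 k69 1 3))))) .n))) .n)))))) (.c k190 (.l (.s k65 k125 5 (.s
  k195 k130 8 (.s k150 k60 14 (.d k215 k235 k20 5 8))))) (.c k195 (.q k1 [(.s k3 k2 0 (.s k87 k171
  13 (.s k86 k84 0 (.d k169 k253 k252 13 14)))), (.s k65 k125 5 (.s k169 k253 13 (.s k41 k233 7 (.s
  k61 k21 5 (.d k193 k129 k149 7 13))))), (.s k3 k2 0 (.s k125 k65 5 (.s k60 k190 8 (.s k40 k20 5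
  (.s k41 k22 6 (.s k21 k61 5 (.d k42 k43 k63 0 6)))))))] .n) (.c k215 (.q k1 [(.s k169 k253 13 (.s
  k3 k2 0 (.s k86 k252 14 (.d k87 k84 k171 0 13)))), (.s k65 k125 5 (.s k169 k253 13 (.s k41 k233 7
  (.s k61 k21 5 (.d k193 k129 k149 7 13))))), (.s k3 k2 0 (.s k65 k125 5 (.s k129 k193 7 (.s k66
  k192 8 (.s k67 k64 0 (.d k195 k131 k130 7 8))))))] .n) (.c k235 (.l (.s k125 k65 5 (.s k60 k190 8
  (.s k20 k40 5 (.d k150 k215 k195 8 14))))) .n))))))))))))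

def t27_114 : T TT 256 :=
  (.f k255 k170 14 (.q k89 [(.s k81 k93 1 (.s k243 k162 12 (.s k166 k12 14 (.d k247 k251 k4 1
  12))))] (.c k4 (.q k1 [(.s k169 k253 13 (.s k3 k2 0 (.s k86 k252 14 (.d k87 k84 k171 0 13)))), (.s
  k81 k93 1 (.s k169 k253 13 (.s k9 k249 11 (.s k13 k5 1 (.d k241 k161 k165 11 13))))), (.s k3 k2 0
  (.s k81 k93 1 (.s k161 k241 11 (.s k82 k240 12 (.s k83 k80 0 (.d k243 k163 k162 11 12))))))] .n)
  (.c k12 (.q k1 [(.s k3 k2 0 (.s k87 k171 13 (.s k86 k84 0 (.d k169 k253 k252 13 14)))), (.s k81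
  k93 1 (.s k169 k253 13 (.s k9 k249 11 (.s k13 k5 1 (.d k241 k161 k165 11 13))))), (.s k3 k2 0 (.s
  k81 k93 1 (.s k161 k241 11 (.s k82 k240 12 (.s k83 k80 0 (.d k243 k163 k162 11 12))))))] .n) (.c
  k81 (.q k87 [(.s k86 k84 0 (.s k3 k171 13 (.s k169 k252 14 (.d k1 k2 k253 0 13)))), (.s k86 k84 0
  (.s k83 k92 2 (.s k95 k91 1 (.s k15 k175 11 (.s k5 k10 2 (.s k165 k245 11 (.d k90 k80 k240 2
  14)))))))] (.c k84 (.l (.s k3 k171 13 (.s k1 k2 0 (.s k169 k253 13 (.s k9 k249 11 (.s k12 k6 2 (.s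
  k4 k8 1 (.d k166 k247 k243 12 14)))))))) (.c k86 (.f k3 k171 13 (.q k169 [(.d k1 k2 k253 0 13),
  (.s k9 k249 11 (.s k12 k6 2 (.s k4 k8 1 (.d k166 k247 k243 12 14))))] (.c k2 (.q k254 [(.d k253
  k252 k1 0 13), (.s k9 k249 11 (.s k12 k6 2 (.s k4 k8 1 (.d k166 k247 k243 12 14))))] .n) (.c k254
  (.l (.s k2 k1 0 (.s k9 k249 11 (.s k12 k6 2 (.s k4 k8 1 (.d k166 k247 k243 12 14)))))) .n))))
  .n))) (.c k93 (.q k21 [(.s k149 k213 7 (.s k63 k42 6 (.s k106 k192 14 (.d k127 k64 k191 6 7)))),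
  (.s k149 k213 7 (.s k29 k209 9 (.s k17 k25 1 (.s k51 k34 4 (.s k119 k187 9 (.s k102 k68 4 (.d k153
  k221 k204 9 14)))))))] (.c k149 (.f k63 k42 6 (.q k106 [(.d k127 k191 k64 7 6), (.s k123 k72 4 (.s
  k243 k183 9 (.s k166 k12 14 (.d k247 k251 k4 1 12))))] (.c k128 (.l (.s k191 k127 7 (.s k123 k72 4
  (.s k243 k183 9 (.s k166 k12 14 (.d k247 k251 k4 1 12)))))) (.c k191 (.q k128 [(.d k64 k127 k192 6
  7), (.s k123 k72 4 (.s k243 k183 9 (.s k247 k251 1 (.d k166 k4 k12 12 14))))] .n) .n)))) (.c k213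
  (.l (.s k63 k42 6 (.s k127 k191 7 (.s k106 k64 6 (.s k123 k72 4 (.s k243 k183 9 (.s k166 k12 14
  (.d k247 k251 k4 1 12)))))))) .n))) (.c k162 (.l (.s k93 k81 1 (.s k12 k174 12 (.s k166 k243 14
  (.d k4 k8 k247 1 12))))) (.c k166 (.f k81 k93 1 (.q k83 [(.s k80 k82 0 (.s k86 k92 2 (.s k87 k84 0
  (.d k95 k91 k90 1 2)))), (.s k80 k82 0 (.s k240 k160 11 (.s k245 k250 2 (.s k165 k5 11 (.s k241
  k13 13 (.d k243 k162 k242 12 0)))))), (.s k86 k92 2 (.s k84 k87 0 (.s k252 k168 13 (.s k169 k3 14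
  (.d k253 k254 k1 0 13)))))] (.c k162 (.q k174 [(.s k86 k92 2 (.s k87 k84 0 (.s k95 k91 1 (.d k80
  k82 k90 0 2)))), (.s k80 k82 0 (.s k240 k160 11 (.s k245 k250 2 (.s k165 k5 11 (.d k90 k95 k15 2
  14))))), (.s k86 k92 2 (.s k84 k87 0 (.s k252 k168 13 (.s k169 k3 14 (.d k253 k254 k1 0 13)))))]
  (.c k95 (.l (.s k82 k80 0 (.s k86 k92 2 (.s k94 k90 1 (.s k84 k87 0 (.s k252 k168 13 (.d k254 k14
  k253 11 0))))))) .n)) (.c k174 (.l (.s k162 k243 12 (.s k80 k82 0 (.s k86 k92 2 (.s k87 k84 0 (.d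
  k95 k91 k90 1 2)))))) .n)))) (.c k174 (.l (.s k81 k93 1 (.s k243 k162 12 (.s k166 k12 14 (.d k247
  k251 k4 1 12))))) (.c k243 (.q k1 [(.s k3 k2 0 (.s k87 k171 13 (.s k86 k84 0 (.d k169 k253 k252 13
  14)))), (.s k81 k93 1 (.s k169 k253 13 (.s k9 k249 11 (.s k13 k5 1 (.d k241 k161 k165 11 13))))),
  (.s k3 k2 0 (.s k93 k81 1 (.s k12 k174 12 (.s k8 k4 1 (.s k9 k6 2 (.s k5 k13 1 (.d k10 k11 k15 0
  2)))))))] .n) (.c k247 (.q k1 [(.s k169 k253 13 (.s k3 k2 0 (.s k86 k252 14 (.d k87 k84 k171 0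
  13)))), (.s k81 k93 1 (.s k169 k253 13 (.s k9 k249 11 (.s k13 k5 1 (.d k241 k161 k165 11 13))))),
  (.s k3 k2 0 (.s k81 k93 1 (.s k161 k241 11 (.s k82 k240 12 (.s k83 k80 0 (.d k243 k163 k162 11
  12))))))] .n) (.c k251 (.l (.s k93 k81 1 (.s k12 k174 12 (.s k4 k8 1 (.d k166 k247 k243 12 14)))))
  .n))))))))))))

def t27_122 : T TT 256 :=
  (.f k255 k170 14 (.q k105 [(.s k65 k125 5 (.s k195 k130 8 (.s k150 k60 14 (.d k215 k235 k20 5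
  8))))] (.c k20 (.q k1 [(.s k169 k253 13 (.s k3 k2 0 (.s k86 k252 14 (.d k87 k84 k171 0 13)))), (.s
  k65 k125 5 (.s k169 k253 13 (.s k41 k233 7 (.s k61 k21 5 (.d k193 k129 k149 7 13))))), (.s k3 k2 0
  (.s k65 k125 5 (.s k129 k193 7 (.s k66 k192 8 (.s k67 k64 0 (.d k195 k131 k130 7 8))))))] .n) (.c
  k60 (.q k1 [(.s k3 k2 0 (.s k87 k171 13 (.s k86 k84 0 (.d k169 k253 k252 13 14)))), (.s k65 k125 5
  (.s k169 k253 13 (.s k41 k233 7 (.s k61 k21 5 (.d k193 k129 k149 7 13))))), (.s k3 k2 0 (.s k65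
  k125 5 (.s k129 k193 7 (.s k66 k192 8 (.s k67 k64 0 (.d k195 k131 k130 7 8))))))] .n) (.c k65 (.q
  k1 [(.s k169 k253 13 (.s k3 k2 0 (.s k86 k252 14 (.d k87 k84 k171 0 13)))), (.s k169 k253 13 (.s
  k41 k233 7 (.s k21 k61 5 (.s k63 k42 6 (.s k127 k191 7 (.s k106 k64 6 (.d k149 k213 k192 7
  14)))))))] (.c k169 (.f k3 k2 0 (.q k86 [(.d k87 k171 k84 13 0), (.s k67 k124 6 (.s k195 k131 7
  (.s k150 k60 14 (.d k215 k235 k20 5 8))))] (.c k168 (.l (.s k171 k87 13 (.s k67 k124 6 (.s k195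
  k131 7 (.s k150 k60 14 (.d k215 k235 k20 5 8)))))) (.c k171 (.q k168 [(.d k84 k87 k252 0 13), (.s
  k67 k124 6 (.s k195 k131 7 (.s k215 k235 5 (.d k150 k20 k60 8 14))))] .n) .n)))) (.c k253 (.l (.s
  k3 k2 0 (.s k87 k171 13 (.s k86 k84 0 (.s k67 k124 6 (.s k195 k131 7 (.s k150 k60 14 (.d k215 k235
  k20 5 8)))))))) .n))) (.c k125 (.q k253 [(.s k169 k1 13 (.s k252 k254 0 (.s k84 k168 13 (.d k86
  k87 k3 0 14)))), (.s k169 k1 13 (.s k233 k41 7 (.s k213 k193 5 (.s k192 k234 6 (.s k64 k128 7 (.s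
  k106 k127 6 (.d k149 k21 k63 7 14)))))))] (.c k1 (.l (.s k252 k254 0 (.s k84 k168 13 (.s k86 k87 0
  (.s k124 k67 6 (.s k60 k188 7 (.s k20 k40 5 (.d k150 k215 k195 8 14)))))))) (.c k169 (.f k252 k254
  0 (.q k86 [(.d k84 k168 k87 13 0), (.s k124 k67 6 (.s k60 k188 7 (.s k20 k40 5 (.d k150 k215 k195
  8 14))))] (.c k168 (.q k171 [(.d k87 k84 k3 0 13), (.s k124 k67 6 (.s k60 k188 7 (.s k20 k40 5 (.d
  k150 k215 k195 8 14))))] .n) (.c k171 (.l (.s k168 k84 13 (.s k124 k67 6 (.s k60 k188 7 (.s k20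
  k40 5 (.d k150 k215 k195 8 14)))))) .n)))) .n))) (.c k130 (.l (.s k125 k65 5 (.s k60 k190 8 (.s
  k150 k195 14 (.d k20 k40 k215 5 8))))) (.c k150 (.f k125 k65 5 (.q k86 [(.s k84 k87 0 (.s k252
  k168 13 (.s k169 k3 14 (.d k253 k254 k1 0 13)))), (.s k124 k67 6 (.s k127 k126 0 (.s k63 k191 7
  (.s k21 k42 6 (.s k149 k213 7 (.d k106 k64 k192 6 14))))))] (.c k130 (.l (.s k190 k60 8 (.s k84
  k87 0 (.s k124 k67 6 (.s k64 k104 5 (.d k127 k126 k106 0 6)))))) (.c k190 (.q k130 [(.s k84 k87 0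
  (.s k252 k168 13 (.s k169 k3 14 (.d k253 k254 k1 0 13)))), (.s k124 k67 6 (.s k127 k126 0 (.s k63
  k191 7 (.s k21 k42 6 (.s k149 k213 7 (.d k106 k64 k192 6 14))))))] (.c k254 (.l (.s k84 k87 0 (.s
  k124 k67 6 (.s k64 k104 5 (.d k127 k126 k106 0 6))))) .n)) .n)))) (.c k190 (.l (.s k65 k125 5 (.s
  k195 k130 8 (.s k150 k60 14 (.d k215 k235 k20 5 8))))) (.c k195 (.q k1 [(.s k3 k2 0 (.s k87 k171
  13 (.s k86 k84 0 (.d k169 k253 k252 13 14)))), (.s k65 k125 5 (.s k169 k253 13 (.s k41 k233 7 (.s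
  k61 k21 5 (.d k193 k129 k149 7 13))))), (.s k3 k2 0 (.s k125 k65 5 (.s k60 k190 8 (.s k40 k20 5
  (.s k41 k22 6 (.s k21 k61 5 (.d k42 k43 k63 0 6)))))))] .n) (.c k215 (.q k1 [(.s k169 k253 13 (.s
  k3 k2 0 (.s k86 k252 14 (.d k87 k84 k171 0 13)))), (.s k65 k125 5 (.s k169 k253 13 (.s k41 k233 7
  (.s k61 k21 5 (.d k193 k129 k149 7 13))))), (.s k3 k2 0 (.s k65 k125 5 (.s k129 k193 7 (.s k66
  k192 8 (.s k67 k64 0 (.d k195 k131 k130 7 8))))))] .n) (.c k235 (.l (.s k125 k65 5 (.s k60 k190 8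
  (.s k20 k40 5 (.d k150 k215 k195 8 14))))) .n))))))))))))

def t27_123 : T TT 256 :=
  (.f k255 k170 14 (.q k105 [(.s k65 k125 5 (.s k195 k130 8 (.s k150 k60 14 (.d k215 k235 k20 5
  8))))] (.c k20 (.q k1 [(.s k169 k253 13 (.s k3 k2 0 (.s k86 k252 14 (.d k87 k84 k171 0 13)))), (.s
  k65 k125 5 (.s k169 k253 13 (.s k41 k233 7 (.s k61 k21 5 (.d k193 k129 k149 7 13))))), (.s k3 k2 0
  (.s k65 k125 5 (.s k129 k193 7 (.s k66 k192 8 (.s k67 k64 0 (.d k195 k131 k130 7 8))))))] .n) (.c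
  k60 (.q k1 [(.s k3 k2 0 (.s k87 k171 13 (.s k86 k84 0 (.d k169 k253 k252 13 14)))), (.s k65 k125 5
  (.s k169 k253 13 (.s k41 k233 7 (.s k61 k21 5 (.d k193 k129 k149 7 13))))), (.s k3 k2 0 (.s k65
  k125 5 (.s k129 k193 7 (.s k66 k192 8 (.s k67 k64 0 (.d k195 k131 k130 7 8))))))] .n) (.c k65 (.q
  k1 [(.s k169 k253 13 (.s k3 k2 0 (.s k86 k252 14 (.d k87 k84 k171 0 13)))), (.s k169 k253 13 (.s
  k41 k233 7 (.s k21 k61 5 (.s k63 k42 6 (.s k127 k191 7 (.s k106 k64 6 (.d k149 k213 k192 7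
  14)))))))] (.c k169 (.f k3 k2 0 (.q k86 [(.d k87 k171 k84 13 0), (.s k67 k124 6 (.s k195 k131 7
  (.s k150 k60 14 (.d k215 k235 k20 5 8))))] (.c k168 (.l (.s k171 k87 13 (.s k67 k124 6 (.s k195
  k131 7 (.s k150 k60 14 (.d k215 k235 k20 5 8)))))) (.c k171 (.q k168 [(.d k84 k87 k252 0 13), (.s
  k67 k124 6 (.s k195 k131 7 (.s k215 k235 5 (.d k150 k20 k60 8 14))))] .n) .n)))) (.c k253 (.l (.s
  k3 k2 0 (.s k87 k171 13 (.s k86 k84 0 (.s k67 k124 6 (.s k195 k131 7 (.s k150 k60 14 (.d k215 k235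
  k20 5 8)))))))) .n))) (.c k125 (.q k253 [(.s k169 k1 13 (.s k252 k254 0 (.s k84 k168 13 (.d k86
  k87 k3 0 14)))), (.s k169 k1 13 (.s k233 k41 7 (.s k213 k193 5 (.s k192 k234 6 (.s k64 k128 7 (.s
  k106 k127 6 (.d k149 k21 k63 7 14)))))))] (.c k1 (.l (.s k252 k254 0 (.s k84 k168 13 (.s k86 k87 0
  (.s k124 k67 6 (.s k60 k188 7 (.s k20 k40 5 (.d k150 k215 k195 8 14)))))))) (.c k169 (.f k252 k254
  0 (.q k86 [(.d k84 k168 k87 13 0), (.s k124 k67 6 (.s k60 k188 7 (.s k20 k40 5 (.d k150 k215 k195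
  8 14))))] (.c k168 (.q k171 [(.d k87 k84 k3 0 13), (.s k124 k67 6 (.s k60 k188 7 (.s k20 k40 5 (.d
  k150 k215 k195 8 14))))] .n) (.c k171 (.l (.s k168 k84 13 (.s k124 k67 6 (.s k60 k188 7 (.s k20
  k40 5 (.d k150 k215 k195 8 14)))))) .n)))) .n))) (.c k130 (.l (.s k125 k65 5 (.s k60 k190 8 (.s
  k150 k195 14 (.d k20 k40 k215 5 8))))) (.c k150 (.f k125 k65 5 (.q k117 [(.s k101 k69 3 (.s k109
  k97 1 (.s k77 k93 3 (.d k113 k121 k89 1 5)))), (.s k48 k186 10 (.s k16 k32 3 (.s k154 k223 10 (.s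
  k56 k203 12 (.d k60 k190 k52 8 1)))))] (.c k101 (.l (.s k121 k113 1 (.s k89 k73 3 (.s k81 k93 1
  (.s k243 k162 12 (.d k60 k190 k182 8 10)))))) (.c k130 (.l (.s k190 k60 8 (.s k48 k186 10 (.s k16
  k32 3 (.s k101 k69 3 (.d k154 k223 k207 10 14)))))) (.c k190 (.q k130 [(.s k101 k69 3 (.s k109 k97
  1 (.s k77 k93 3 (.d k113 k121 k89 1 5)))), (.s k48 k186 10 (.s k16 k32 3 (.s k154 k223 10 (.d k101
  k69 k207 3 14)))), (.s k121 k113 1 (.s k186 k48 10 (.s k251 k56 8 (.s k243 k247 1 (.s k81 k162 12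
  (.d k89 k93 k73 1 3))))))] .n) .n))))) (.c k190 (.l (.s k65 k125 5 (.s k195 k130 8 (.s k150 k60 14
  (.d k215 k235 k20 5 8))))) (.c k195 (.q k1 [(.s k3 k2 0 (.s k87 k171 13 (.s k86 k84 0 (.d k169
  k253 k252 13 14)))), (.s k65 k125 5 (.s k169 k253 13 (.s k41 k233 7 (.s k61 k21 5 (.d k193 k129
  k149 7 13))))), (.s k3 k2 0 (.s k125 k65 5 (.s k60 k190 8 (.s k40 k20 5 (.s k41 k22 6 (.s k21 k61
  5 (.d k42 k43 k63 0 6)))))))] .n) (.c k215 (.q k1 [(.s k169 k253 13 (.s k3 k2 0 (.s k86 k252 14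
  (.d k87 k84 k171 0 13)))), (.s k65 k125 5 (.s k169 k253 13 (.s k41 k233 7 (.s k61 k21 5 (.d k193
  k129 k149 7 13))))), (.s k3 k2 0 (.s k65 k125 5 (.s k129 k193 7 (.s k66 k192 8 (.s k67 k64 0 (.d
  k195 k131 k130 7 8))))))] .n) (.c k235 (.l (.s k125 k65 5 (.s k60 k190 8 (.s k20 k40 5 (.d k150
  k215 k195 8 14))))) .n))))))))))))

def t27_126 : T TT 256 :=
  (.f k255 k170 14 (.q k105 [(.s k65 k125 5 (.s k195 k130 8 (.s k150 k60 14 (.d k215 k235 k20 5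
  8)))), (.s k125 k65 5 (.s k60 k190 8 (.s k20 k40 5 (.d k150 k215 k195 8 14))))] (.c k20 (.q k1
  [(.s k3 k2 0 (.s k87 k171 13 (.s k169 k253 13 (.d k86 k84 k252 0 14)))), (.s k65 k125 5 (.s k169
  k253 13 (.s k41 k233 7 (.s k61 k21 5 (.d k193 k129 k149 7 13))))), (.s k3 k2 0 (.s k65 k125 5 (.s
  k129 k193 7 (.s k66 k192 8 (.s k67 k64 0 (.d k195 k131 k130 7 8))))))] .n) (.c k60 (.q k1 [(.s k3
  k2 0 (.s k87 k171 13 (.s k86 k84 0 (.d k169 k253 k252 13 14)))), (.s k65 k125 5 (.s k169 k253 13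
  (.s k41 k233 7 (.s k61 k21 5 (.d k193 k129 k149 7 13))))), (.s k3 k2 0 (.s k65 k125 5 (.s k129
  k193 7 (.s k66 k192 8 (.s k67 k64 0 (.d k195 k131 k130 7 8))))))] .n) (.c k65 (.q k213 [(.s k149
  k21 7 (.s k192 k234 6 (.s k64 k128 7 (.d k106 k127 k63 6 14)))), (.s k149 k21 7 (.s k193 k61 13
  (.s k253 k233 5 (.s k252 k254 0 (.s k84 k168 13 (.s k86 k87 0 (.d k169 k1 k3 13 14)))))))] (.c k21
  (.l (.s k192 k234 6 (.s k64 k128 7 (.s k106 k127 6 (.s k104 k107 0 (.s k60 k148 13 (.s k20 k40 5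
  (.d k150 k215 k195 8 14)))))))) (.c k149 (.f k192 k234 6 (.q k106 [(.d k64 k128 k127 7 6), (.s
  k104 k107 0 (.s k60 k148 13 (.s k20 k40 5 (.d k150 k215 k195 8 14))))] (.c k128 (.q k191 [(.d k127
  k64 k63 6 7), (.s k104 k107 0 (.s k60 k148 13 (.s k20 k40 5 (.d k150 k215 k195 8 14))))] .n) (.c
  k191 (.l (.s k128 k64 7 (.s k104 k107 0 (.s k60 k148 13 (.s k20 k40 5 (.d k150 k215 k195 8
  14)))))) .n)))) .n))) (.c k125 (.q k106 [(.s k127 k64 6 (.s k63 k191 7 (.s k21 k42 6 (.d k149 k213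
  k192 7 14)))), (.s k107 k104 0 (.s k127 k64 6 (.s k87 k67 5 (.s k3 k171 13 (.s k1 k2 0 (.s k169
  k253 13 (.d k86 k84 k252 0 14)))))))] (.c k64 (.q k127 [(.s k63 k191 7 (.s k21 k42 6 (.d k149 k213
  k192 7 14))), (.s k107 k104 0 (.s k87 k67 5 (.s k3 k171 13 (.s k1 k2 0 (.s k169 k253 13 (.d k86
  k84 k252 0 14))))))] .n) (.c k124 (.l (.s k127 k64 6 (.s k63 k191 7 (.s k21 k42 6 (.d k149 k213
  k192 7 14))))) (.c k127 (.q k124 [(.s k104 k107 0 (.s k84 k64 5 (.d k86 k87 k67 0 6))), (.s k86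
  k67 6 (.s k87 k84 0 (.s k3 k171 13 (.s k1 k2 0 (.d k169 k253 k252 13 14)))))] (.c k67 (.q k3 [(.s
  k87 k171 13 (.s k84 k86 0 (.d k104 k107 k64 0 5))), (.s k107 k104 0 (.s k171 k87 13 (.s k43 k235 7
  (.s k63 k23 5 (.s k21 k42 6 (.d k149 k213 k192 7 14)))))), (.s k1 k2 0 (.s k169 k253 13 (.s k41
  k233 7 (.s k60 k22 6 (.d k252 k86 k188 14 7)))))] (.c k87 (.l (.s k107 k104 0 (.s k1 k2 0 (.s k169
  k253 13 (.s k41 k233 7 (.s k60 k22 6 (.d k252 k86 k188 14 7))))))) (.c k107 (.l (.s k87 k171 13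
  (.s k1 k2 0 (.s k86 k84 0 (.d k169 k253 k252 13 14))))) .n))) (.c k84 (.q k1 [(.s k3 k2 0 (.s k86
  k67 6 (.d k169 k253 k252 13 14))), (.s k169 k253 13 (.s k41 k233 7 (.s k43 k232 8 (.s k42 k40 0
  (.d k21 k61 k63 5 6))))), (.s k3 k2 0 (.s k107 k104 0 (.s k171 k87 13 (.s k235 k43 7 (.s k195 k215
  5 (.d k67 k86 k131 6 7))))))] .n) (.c k86 (.l (.s k104 k107 0 (.s k64 k84 5 (.s k192 k128 7 (.s
  k149 k63 14 (.d k213 k234 k21 6 7)))))) (.c k87 (.l (.s k67 k86 6 (.s k104 k107 0 (.s k64 k84 5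
  (.s k192 k128 7 (.s k149 k63 14 (.d k213 k234 k21 6 7))))))) (.c k107 (.l (.s k86 k67 6 (.s k87
  k84 0 (.s k3 k171 13 (.s k1 k2 0 (.d k169 k253 k252 13 14)))))) .n)))))) .n)))) (.c k130 (.l (.s
  k125 k65 5 (.s k60 k190 8 (.s k150 k195 14 (.d k20 k40 k215 5 8))))) (.c k150 (.f k125 k65 5 (.f
  k190 k60 8 (.q k61 [(.s k149 k193 13 (.s k21 k213 7 (.s k1 k41 5 (.d k253 k189 k169 7 13)))), (.s
  k253 k189 7 (.s k252 k254 0 (.s k84 k168 13 (.s k86 k87 0 (.d k169 k1 k3 13 14))))), (.s k149 k193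
  13 (.s k213 k21 7 (.s k192 k234 6 (.s k64 k128 7 (.d k106 k127 k63 6 14)))))] (.c k1 (.l (.s k189
  k253 7 (.s k191 k188 0 (.s k63 k127 7 (.s k21 k42 6 (.d k149 k213 k193 7 13)))))) .n)))) (.c k190
  (.l (.s k65 k125 5 (.s k195 k130 8 (.s k150 k60 14 (.d k215 k235 k20 5 8))))) (.c k195 (.q k1 [(.s
  k3 k2 0 (.s k87 k171 13 (.s k86 k84 0 (.d k169 k253 k252 13 14)))), (.s k65 k125 5 (.s k169 k253
  13 (.s k41 k233 7 (.s k61 k21 5 (.d k193 k129 k149 7 13))))), (.s k3 k2 0 (.s k125 k65 5 (.s k60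
  k190 8 (.s k40 k20 5 (.s k41 k22 6 (.s k21 k61 5 (.d k42 k43 k63 0 6)))))))] .n) (.c k215 (.q k1
  [(.s k3 k2 0 (.s k87 k171 13 (.s k86 k84 0 (.d k169 k253 k252 13 14)))), (.s k65 k125 5 (.s k169
  k253 13 (.s k41 k233 7 (.s k61 k21 5 (.d k193 k129 k149 7 13))))), (.s k3 k2 0 (.s k65 k125 5 (.s
  k129 k193 7 (.s k66 k192 8 (.s k67 k64 0 (.d k195 k131 k130 7 8))))))] .n) .n)))))))))))

def t27_127 : T TT 256 :=
  (.f k255 k170 14 (.q k101 [(.s k117 k69 3 (.s k48 k186 10 (.s k16 k32 3 (.d k154 k223 k207 10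
  14))))] (.c k16 (.q k1 [(.s k169 k253 13 (.s k3 k2 0 (.s k86 k252 14 (.d k87 k84 k171 0 13)))),
  (.s k69 k117 3 (.s k169 k253 13 (.s k33 k237 9 (.s k49 k17 3 (.d k205 k137 k153 9 13))))), (.s k3
  k2 0 (.s k69 k117 3 (.s k137 k205 9 (.s k70 k204 10 (.s k71 k68 0 (.d k207 k139 k138 9 10))))))]
  .n) (.c k32 (.l (.s k69 k117 3 (.s k207 k138 10 (.s k154 k48 14 (.d k223 k239 k16 3 10))))) (.c
  k48 (.q k1 [(.s k3 k2 0 (.s k87 k171 13 (.s k86 k84 0 (.d k169 k253 k252 13 14)))), (.s k69 k117 3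
  (.s k169 k253 13 (.s k33 k237 9 (.s k49 k17 3 (.d k205 k137 k153 9 13))))), (.s k3 k2 0 (.s k69
  k117 3 (.s k137 k205 9 (.s k70 k204 10 (.s k71 k68 0 (.d k207 k139 k138 9 10))))))] .n) (.c k69
  (.q k4 [(.s k166 k247 12 (.s k12 k8 1 (.s k89 k243 14 (.d k93 k81 k174 1 12)))), (.s k166 k247 12
  (.s k36 k231 8 (.s k20 k52 3 (.s k60 k40 5 (.s k125 k190 8 (.s k105 k65 5 (.d k150 k215 k195 8
  14)))))))] (.c k166 (.f k12 k8 1 (.q k89 [(.d k93 k174 k81 12 1), (.s k77 k113 5 (.s k207 k142 8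
  (.s k154 k48 14 (.d k223 k239 k16 3 10))))] (.c k162 (.l (.s k174 k93 12 (.s k77 k113 5 (.s k207
  k142 8 (.s k154 k48 14 (.d k223 k239 k16 3 10)))))) (.c k174 (.q k162 [(.d k81 k93 k243 1 12), (.s
  k77 k113 5 (.s k207 k142 8 (.s k223 k239 3 (.d k154 k16 k48 10 14))))] .n) .n)))) (.c k247 (.l (.s
  k12 k8 1 (.s k93 k174 12 (.s k89 k81 1 (.s k77 k113 5 (.s k207 k142 8 (.s k154 k48 14 (.d k223
  k239 k16 3 10)))))))) .n))) (.c k117 (.q k253 [(.s k169 k1 13 (.s k252 k254 0 (.s k84 k168 13 (.d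
  k86 k87 k3 0 14)))), (.s k169 k1 13 (.s k237 k33 9 (.s k221 k205 3 (.s k204 k238 4 (.s k68 k136 9
  (.s k102 k119 4 (.d k153 k17 k51 9 14)))))))] (.c k1 (.l (.s k252 k254 0 (.s k84 k168 13 (.s k86
  k87 0 (.s k116 k71 4 (.s k48 k184 9 (.s k16 k32 3 (.d k154 k223 k207 10 14)))))))) (.c k112 (.q
  k122 [(.s k169 k1 13 (.s k252 k254 0 (.s k84 k168 13 (.d k86 k87 k3 0 14)))), (.s k169 k1 13 (.s
  k237 k33 9 (.s k221 k205 3 (.s k204 k238 4 (.s k68 k136 9 (.s k102 k119 4 (.d k153 k17 k51 9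
  14)))))))] (.c k1 (.l (.s k252 k254 0 (.s k84 k168 13 (.s k86 k87 0 (.s k116 k71 4 (.s k48 k184 9
  (.s k16 k32 3 (.d k154 k223 k207 10 14)))))))) (.c k169 (.q k63 [(.s k240 k181 10 (.s k80 k160 11
  (.s k245 k250 2 (.s k165 k5 11 (.d k90 k95 k15 2 14))))), (.s k21 k42 6 (.s k149 k213 7 (.s k53
  k197 11 (.s k48 k58 2 (.s k16 k32 3 (.d k154 k223 k207 10 14)))))), (.s k21 k42 6 (.s k149 k213 7
  (.s k106 k192 14 (.s k90 k74 3 (.s k80 k95 2 (.d k240 k181 k160 10 11))))))] (.c k168 (.q k171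
  [(.s k240 k181 10 (.s k245 k250 2 (.s k165 k5 11 (.s k90 k15 14 (.d k80 k95 k160 2 11))))), (.s k3
  k87 13 (.s k1 k2 0 (.s k21 k42 6 (.s k23 k43 5 (.s k22 k20 0 (.d k41 k61 k60 5 6))))))] .n) (.c
  k171 (.q k168 [(.d k252 k254 k84 0 13), (.s k240 k181 10 (.s k80 k160 11 (.s k90 k95 2 (.s k165
  k15 14 (.d k245 k250 k5 2 11)))))] .n) .n))) .n))) (.c k122 (.q k112 [(.s k169 k1 13 (.s k252 k254
  0 (.s k84 k168 13 (.d k86 k87 k3 0 14)))), (.s k90 k79 6 (.s k95 k80 2 (.s k15 k175 11 (.s k5 k10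
  2 (.d k165 k245 k240 11 14)))))] .n) (.c k169 (.q k68 [(.s k204 k136 9 (.s k221 k238 4 (.s k153
  k17 9 (.d k102 k119 k51 4 14)))), (.s k102 k119 4 (.s k100 k103 0 (.s k252 k254 0 (.d k84 k116
  k168 3 13))))] (.c k102 (.l (.s k136 k204 9 (.s k252 k254 0 (.s k168 k84 13 (.s k184 k152 3 (.s
  k48 k116 9 (.s k16 k32 3 (.d k154 k223 k207 10 14)))))))) (.c k112 (.q k122 [(.s k204 k136 9 (.s
  k221 k238 4 (.s k153 k17 9 (.d k102 k119 k51 4 14)))), (.s k102 k119 4 (.s k100 k103 0 (.s k252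
  k254 0 (.d k84 k116 k168 3 13))))] (.c k102 (.l (.s k136 k204 9 (.s k252 k254 0 (.s k168 k84 13
  (.s k184 k152 3 (.s k48 k116 9 (.s k16 k32 3 (.d k154 k223 k207 10 14)))))))) (.c k119 (.l (.s
  k204 k136 9 (.s k221 k238 4 (.s k153 k17 9 (.d k205 k237 k49 3 13))))) (.c k168 (.q k171 [(.s k87
  k3 13 (.s k86 k84 0 (.s k71 k116 4 (.d k119 k103 k102 3 4)))), (.s k204 k136 9 (.s k221 k238 4 (.s
  k153 k17 9 (.d k205 k237 k49 3 13))))] (.c k102 (.l (.s k3 k87 13 (.s k1 k2 0 (.s k204 k136 9 (.s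
  k137 k70 10 (.s k205 k69 9 (.d k221 k237 k238 3 4))))))) .n)) (.c k171 (.q k168 [(.d k252 k254 k84
  0 13), (.s k102 k119 4 (.s k204 k136 9 (.s k153 k51 14 (.d k221 k238 k17 4 9))))] .n) .n))))) (.c
  k119 (.l (.s k204 k136 9 (.s k221 k238 4 (.s k153 k17 9 (.d k205 k237 k49 3 13))))) (.c k122 (.q
  k112 [(.s k204 k136 9 (.s k221 k238 4 (.s k153 k17 9 (.d k102 k119 k51 4 14)))), (.s k90 k79 6 (.s
  k95 k80 2 (.s k15 k175 11 (.s k5 k10 2 (.d k165 k245 k240 11 14)))))] (.c k168 (.q k171 [(.s k87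
  k3 13 (.s k86 k84 0 (.s k71 k116 4 (.d k119 k103 k102 3 4)))), (.s k90 k79 6 (.s k95 k80 2 (.s k15
  k175 11 (.s k5 k10 2 (.d k165 k245 k240 11 14)))))] .n) (.c k171 (.q k168 [(.d k252 k254 k84 0
  13), (.s k102 k119 4 (.s k204 k136 9 (.s k153 k51 14 (.d k221 k238 k17 4 9))))] .n) .n))) (.c k168
  (.q k171 [(.s k87 k3 13 (.s k86 k84 0 (.s k71 k116 4 (.d k119 k103 k102 3 4)))), (.s k204 k136 9
  (.s k221 k238 4 (.s k153 k17 9 (.d k205 k237 k49 3 13))))] (.c k102 (.l (.s k3 k87 13 (.s k1 k2 0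
  (.s k204 k136 9 (.s k137 k70 10 (.s k205 k69 9 (.d k221 k237 k238 3 4))))))) (.c k112 (.q k122
  [(.s k87 k3 13 (.s k86 k84 0 (.s k71 k116 4 (.d k119 k103 k102 3 4)))), (.s k204 k136 9 (.s k221
  k238 4 (.s k153 k17 9 (.d k205 k237 k49 3 13))))] (.c k102 (.l (.s k3 k87 13 (.s k1 k2 0 (.s k204
  k136 9 (.s k137 k70 10 (.s k205 k69 9 (.d k221 k237 k238 3 4))))))) .n)) (.c k122 (.q k112 [(.s
  k87 k3 13 (.s k86 k84 0 (.s k71 k116 4 (.d k119 k103 k102 3 4)))), (.s k90 k79 6 (.s k95 k80 2 (.s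
  k15 k175 11 (.s k5 k10 2 (.d k165 k245 k240 11 14)))))] .n) .n)))) (.c k171 (.q k168 [(.d k252
  k254 k84 0 13), (.s k102 k119 4 (.s k204 k136 9 (.s k153 k51 14 (.d k221 k238 k17 4 9))))] (.c
  k112 (.q k122 [(.d k252 k254 k84 0 13), (.s k102 k119 4 (.s k204 k136 9 (.s k153 k51 14 (.d k221
  k238 k17 4 9))))] .n) (.c k122 (.q k112 [(.d k252 k254 k84 0 13), (.s k102 k119 4 (.s k204 k136 9
  (.s k153 k51 14 (.d k221 k238 k17 4 9))))] .n) .n))) .n))))))) .n))))) (.c k138 (.l (.s k117 k69 3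
  (.s k48 k186 10 (.s k154 k207 14 (.d k16 k32 k223 3 10))))) (.c k154 (.f k117 k69 3 (.q k153 [(.s
  k17 k221 9 (.s k51 k34 4 (.s k102 k204 14 (.d k119 k68 k187 4 9)))), (.s k49 k205 13 (.s k253 k185
  9 (.s k252 k254 0 (.s k84 k168 13 (.s k86 k87 0 (.d k169 k1 k3 13 14))))))] (.c k138 (.l (.s k186
  k48 10 (.s k17 k221 9 (.s k49 k205 13 (.s k1 k33 3 (.d k253 k185 k169 9 13)))))) (.c k186 (.q k138
  [(.s k17 k221 9 (.s k51 k34 4 (.s k102 k204 14 (.d k119 k68 k187 4 9)))), (.s k49 k205 13 (.s k253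
  k185 9 (.s k252 k254 0 (.s k84 k168 13 (.s k86 k87 0 (.d k169 k1 k3 13 14))))))] (.c k187 (.l (.s
  k17 k221 9 (.s k49 k205 13 (.s k1 k33 3 (.d k253 k185 k169 9 13))))) .n)) .n)))) (.c k186 (.l (.s
  k69 k117 3 (.s k207 k138 10 (.s k154 k48 14 (.d k223 k239 k16 3 10))))) (.c k207 (.q k1 [(.s k3 k2
  0 (.s k87 k171 13 (.s k86 k84 0 (.d k169 k253 k252 13 14)))), (.s k69 k117 3 (.s k169 k253 13 (.s
  k33 k237 9 (.s k49 k17 3 (.d k205 k137 k153 9 13))))), (.s k3 k2 0 (.s k117 k69 3 (.s k48 k186 10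
  (.s k32 k16 3 (.s k33 k18 4 (.s k17 k49 3 (.d k34 k35 k51 0 4)))))))] .n) (.c k223 (.q k1 [(.s
  k169 k253 13 (.s k3 k2 0 (.s k86 k252 14 (.d k87 k84 k171 0 13)))), (.s k69 k117 3 (.s k169 k253
  13 (.s k33 k237 9 (.s k49 k17 3 (.d k205 k137 k153 9 13))))), (.s k3 k2 0 (.s k69 k117 3 (.s k137
  k205 9 (.s k70 k204 10 (.s k71 k68 0 (.d k207 k139 k138 9 10))))))] .n) .n))))))))))))

def t27_162 : T TT 256 :=
  (.f k170 k255 14 (.q k252 [(.s k84 k168 13 (.s k86 k87 0 (.s k2 k254 13 (.d k3 k1 k169 0 14))))]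
  (.c k1 (.q k4 [(.s k12 k8 1 (.s k84 k168 13 (.s k92 k172 11 (.s k88 k80 1 (.d k164 k244 k240 11
  13))))), (.s k84 k168 13 (.s k86 k87 0 (.s k166 k247 12 (.s k6 k246 11 (.s k7 k5 0 (.d k244 k164
  k165 11 12)))))), (.s k12 k8 1 (.s k166 k247 12 (.s k172 k92 11 (.s k169 k163 2 (.s k3 k86 14 (.s
  k9 k6 2 (.d k89 k243 k249 14 11)))))))] .n) (.c k2 (.f k84 k168 13 (.f k86 k87 0 (.f k3 k169 14
  (.q k82 [(.s k90 k94 1 (.s k240 k161 12 (.d k80 k160 k95 11 2))), (.s k90 k94 1 (.s k80 k95 2 (.s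
  k83 k81 0 (.d k92 k88 k89 1 2)))), (.s k90 k94 1 (.s k10 k250 11 (.s k15 k5 2 (.d k240 k161 k165
  12 14)))), (.s k240 k161 12 (.s k160 k80 11 (.s k165 k175 2 (.d k244 k248 k7 1 12))))] .n)))) (.c
  k3 (.f k84 k168 13 (.q k68 [(.s k100 k116 3 (.s k204 k136 9 (.s k220 k236 3 (.d k152 k16 k48 9
  13)))), (.s k102 k119 4 (.s k34 k238 9 (.s k51 k17 4 (.s k118 k185 10 (.d k86 k87 k70 0 3)))))]
  (.c k87 (.q k171 [(.s k100 k116 3 (.s k204 k136 9 (.s k220 k236 3 (.d k152 k16 k48 9 13)))), (.s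
  k102 k119 4 (.s k34 k238 9 (.s k51 k17 4 (.d k204 k136 k153 9 14)))), (.s k116 k100 3 (.s k119
  k102 4 (.s k117 k118 0 (.s k101 k69 3 (.s k32 k239 10 (.d k48 k16 k184 3 9))))))] .n) (.c k171 (.l
  (.s k87 k86 0 (.s k100 k116 3 (.s k204 k136 9 (.s k152 k48 13 (.d k220 k236 k16 3 9)))))) (.c k204
  (.l (.s k116 k100 3 (.s k48 k184 9 (.s k32 k16 3 (.s k101 k239 10 (.d k86 k87 k71 0 4))))))
  .n))))) (.c k84 (.q k154 [(.s k16 k223 10 (.s k138 k186 3 (.s k207 k69 10 (.d k48 k32 k101 3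
  14)))), (.s k138 k186 3 (.s k207 k69 10 (.s k222 k237 4 (.s k86 k18 9 (.s k2 k254 13 (.d k3 k1
  k169 0 14)))))), (.s k16 k223 10 (.s k48 k32 3 (.s k184 k116 9 (.s k169 k139 4 (.s k1 k253 13 (.d
  k3 k2 k86 0 14))))))] (.c k48 (.q k150 [(.s k20 k215 8 (.s k60 k40 5 (.s k130 k190 5 (.d k195 k65
  k105 8 14)))), (.s k16 k223 10 (.s k146 k158 1 (.s k211 k81 8 (.s k28 k89 10 (.d k20 k24 k215 1
  8))))), (.s k158 k146 1 (.s k186 k138 3 (.s k190 k130 5 (.s k178 k182 1 (.d k142 k174 k166 3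
  5)))))] (.c k117 (.l (.s k186 k138 3 (.s k20 k215 8 (.s k60 k40 5 (.s k130 k190 5 (.d k195 k65
  k105 8 14)))))) (.c k186 (.q k117 [(.s k20 k215 8 (.s k60 k40 5 (.s k195 k105 14 (.d k130 k190 k65
  5 8)))), (.s k16 k223 10 (.s k146 k158 1 (.s k211 k81 8 (.s k28 k89 10 (.d k20 k24 k215 1 8))))),
  (.s k69 k101 3 (.s k130 k190 5 (.s k138 k207 10 (.s k134 k142 1 (.s k4 k199 8 (.d k166 k182 k247 3
  12))))))] .n) .n))) (.c k207 (.q k149 [(.s k21 k213 7 (.s k63 k42 6 (.s k128 k191 6 (.d k192 k64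
  k106 7 14)))), (.s k159 k144 2 (.s k186 k138 3 (.s k191 k128 6 (.s k143 k175 3 (.d k176 k181 k165
  2 6))))), (.s k159 k144 2 (.s k213 k21 7 (.s k223 k16 10 (.s k31 k95 7 (.d k208 k218 k90 2
  10)))))] (.c k223 (.q k239 [(.s k21 k213 7 (.s k63 k42 6 (.s k128 k191 6 (.d k192 k64 k106 7
  14)))), (.s k159 k144 2 (.s k186 k138 3 (.s k191 k128 6 (.s k143 k175 3 (.d k176 k181 k165 2
  6))))), (.s k21 k213 7 (.s k32 k101 10 (.s k16 k48 3 (.s k31 k26 2 (.s k144 k159 2 (.d k208 k80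
  k90 7 10))))))] .n) (.c k239 (.l (.s k223 k16 10 (.s k21 k213 7 (.s k63 k42 6 (.s k128 k191 6 (.d
  k192 k64 k106 7 14)))))) .n))) .n))) (.c k86 (.q k5 [(.s k15 k10 2 (.s k165 k245 11 (.s k160 k175
  2 (.d k240 k80 k90 11 14)))), (.s k10 k15 2 (.s k168 k84 13 (.s k169 k171 0 (.s k1 k253 13 (.s k9
  k13 1 (.s k8 k11 0 (.d k89 k251 k249 12 11))))))), (.s k165 k245 11 (.s k168 k84 13 (.s k169 k171
  0 (.s k1 k253 13 (.s k13 k9 1 (.s k161 k173 1 (.d k241 k81 k89 11 13)))))))] .n) (.c k87 (.l (.s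
  k168 k84 13 (.s k169 k171 0 (.s k3 k86 14 (.d k1 k2 k253 0 13))))) (.c k168 (.q k154 [(.s k16 k223
  10 (.s k138 k186 3 (.s k207 k69 10 (.d k48 k32 k101 3 14)))), (.s k138 k186 3 (.s k207 k69 10 (.s
  k222 k237 4 (.s k86 k18 9 (.s k2 k254 13 (.d k3 k1 k169 0 14)))))), (.s k16 k223 10 (.s k48 k32 3
  (.s k184 k116 9 (.s k169 k139 4 (.s k1 k253 13 (.d k3 k2 k86 0 14))))))] (.c k48 (.q k152 [(.s k16
  k223 10 (.s k220 k84 9 (.s k204 k236 3 (.s k136 k68 9 (.d k153 k155 k187 0 4))))), (.s k153 k155 0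
  (.s k17 k221 9 (.s k51 k34 4 (.s k136 k187 4 (.d k204 k68 k102 9 14))))), (.s k16 k223 10 (.s k84
  k220 9 (.s k86 k87 0 (.s k2 k254 13 (.d k3 k1 k169 0 14)))))] (.c k117 (.l (.s k186 k138 3 (.s k16
  k223 10 (.s k84 k220 9 (.s k86 k87 0 (.s k2 k254 13 (.d k3 k1 k169 0 14))))))) (.c k155 (.l (.s
  k16 k223 10 (.s k220 k84 9 (.s k204 k236 3 (.s k68 k136 9 (.s k102 k119 4 (.s k34 k238 9 (.d k51
  k17 k153 4 14)))))))) (.c k186 (.q k117 [(.s k16 k223 10 (.s k220 k84 9 (.s k204 k236 3 (.s k136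
  k68 9 (.d k153 k155 k187 0 4))))), (.s k153 k155 0 (.s k17 k221 9 (.s k51 k34 4 (.s k136 k187 4
  (.d k204 k68 k102 9 14))))), (.s k16 k223 10 (.s k69 k101 3 (.s k84 k220 9 (.s k207 k138 10 (.s
  k222 k237 4 (.d k86 k87 k18 0 9))))))] .n) .n)))) (.c k207 (.q k150 [(.s k20 k215 8 (.s k130 k190
  5 (.s k195 k65 8 (.d k60 k40 k105 5 14)))), (.s k158 k146 1 (.s k186 k138 3 (.s k190 k130 5 (.s
  k178 k182 1 (.d k142 k174 k166 3 5))))), (.s k215 k20 8 (.s k223 k16 10 (.s k211 k219 1 (.s k28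
  k89 10 (.d k158 k146 k93 1 8)))))] (.c k223 (.q k239 [(.s k130 k190 5 (.s k195 k65 8 (.s k60 k105
  14 (.d k20 k40 k215 5 8)))), (.s k158 k146 1 (.s k186 k138 3 (.s k190 k130 5 (.s k178 k182 1 (.d
  k142 k174 k166 3 5))))), (.s k20 k215 8 (.s k32 k101 10 (.s k16 k48 3 (.s k28 k24 1 (.s k146 k158
  1 (.d k211 k81 k89 8 10))))))] .n) (.c k239 (.l (.s k223 k16 10 (.s k20 k215 8 (.s k60 k40 5 (.s
  k130 k190 5 (.d k195 k65 k105 8 14)))))) .n))) .n))) (.c k169 (.q k5 [(.s k15 k10 2 (.s k165 k245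
  11 (.s k160 k175 2 (.d k240 k80 k90 11 14)))), (.s k10 k15 2 (.s k84 k168 13 (.s k86 k87 0 (.s k2
  k254 13 (.s k6 k14 1 (.s k4 k7 0 (.d k166 k247 k246 12 11))))))), (.s k84 k168 13 (.s k86 k87 0
  (.s k165 k245 11 (.s k244 k7 12 (.s k240 k248 1 (.d k160 k175 k80 2 11))))))] (.c k175 (.l (.s k15
  k10 2 (.s k84 k168 13 (.s k86 k87 0 (.s k94 k173 12 (.s k90 k82 1 (.d k165 k245 k240 11 14)))))))
  .n)) (.c k171 (.l (.s k84 k168 13 (.s k86 k87 0 (.s k3 k169 14 (.d k2 k1 k254 0 13))))) (.c k254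
  (.l (.s k168 k84 13 (.s k169 k171 0 (.s k1 k253 13 (.d k3 k2 k86 0 14))))) .n))))))))))))

def t27_163 : T TT 256 :=
  (.f k255 k170 14 (.q k89 [(.s k93 k81 1 (.s k12 k174 12 (.s k4 k8 1 (.d k166 k247 k243 12 14))))]
  (.c k4 (.q k1 [(.s k3 k2 0 (.s k169 k253 13 (.s k86 k252 14 (.d k87 k84 k171 0 13)))), (.s k81 k93
  1 (.s k241 k161 11 (.s k165 k13 13 (.s k245 k5 11 (.s k240 k250 2 (.d k243 k162 k242 12 0))))))]
  (.c k253 (.l (.s k3 k2 0 (.s k81 k93 1 (.s k87 k171 13 (.s k86 k84 0 (.s k83 k92 2 (.s k80 k82 0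
  (.d k95 k91 k90 1 2)))))))) .n)) (.c k8 (.l (.s k81 k93 1 (.s k243 k162 12 (.s k166 k12 14 (.d
  k247 k251 k4 1 12))))) (.c k12 (.q k1 [(.s k3 k2 0 (.s k169 k253 13 (.s k86 k252 14 (.d k87 k84
  k171 0 13)))), (.s k81 k93 1 (.s k241 k161 11 (.s k165 k13 13 (.s k245 k5 11 (.s k240 k250 2 (.d
  k243 k162 k242 12 0))))))] (.c k253 (.l (.s k3 k2 0 (.s k81 k93 1 (.s k87 k171 13 (.s k86 k84 0
  (.s k83 k92 2 (.s k80 k82 0 (.d k95 k91 k90 1 2)))))))) .n)) (.c k81 (.q k20 [(.s k150 k215 8 (.s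
  k60 k40 5 (.s k105 k195 14 (.d k125 k65 k190 5 8)))), (.s k150 k215 8 (.s k28 k211 10 (.s k16 k24
  1 (.s k48 k32 3 (.s k117 k186 10 (.s k101 k69 3 (.d k154 k223 k207 10 14)))))))] (.c k150 (.f k60
  k40 5 (.q k105 [(.d k125 k190 k65 8 5), (.s k121 k73 3 (.s k243 k182 10 (.s k166 k12 14 (.d k247
  k251 k4 1 12))))] (.c k130 (.l (.s k190 k125 8 (.s k121 k73 3 (.s k243 k182 10 (.s k166 k12 14 (.d
  k247 k251 k4 1 12)))))) (.c k190 (.q k130 [(.d k65 k125 k195 5 8), (.s k121 k73 3 (.s k243 k182 10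
  (.s k247 k251 1 (.d k166 k4 k12 12 14))))] .n) .n)))) (.c k215 (.l (.s k60 k40 5 (.s k125 k190 8
  (.s k105 k65 5 (.s k121 k73 3 (.s k243 k182 10 (.s k166 k12 14 (.d k247 k251 k4 1 12)))))))) .n)))
  (.c k93 (.q k84 [(.s k86 k87 0 (.s k252 k168 13 (.s k253 k254 0 (.d k169 k1 k3 13 14)))), (.s k86
  k87 0 (.s k92 k83 2 (.s k80 k88 1 (.s k240 k160 11 (.s k245 k250 2 (.s k165 k5 11 (.d k90 k95 k15
  2 14))))))), (.s k252 k168 13 (.s k253 k254 0 (.s k169 k1 13 (.s k249 k9 11 (.s k243 k246 2 (.s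
  k247 k251 1 (.d k166 k4 k12 12 14)))))))] (.c k86 (.f k252 k168 13 (.q k169 [(.d k253 k254 k1 0
  13), (.s k249 k9 11 (.s k243 k246 2 (.s k166 k12 14 (.d k247 k251 k4 1 12))))] (.c k2 (.l (.s k254
  k253 0 (.s k249 k9 11 (.s k243 k246 2 (.s k166 k12 14 (.d k247 k251 k4 1 12)))))) (.c k254 (.q k2
  [(.d k1 k3 k253 0 13), (.s k249 k9 11 (.s k243 k246 2 (.s k247 k251 1 (.d k166 k4 k12 12 14))))]
  .n) .n)))) .n)) (.c k162 (.l (.s k93 k81 1 (.s k12 k174 12 (.s k166 k243 14 (.d k4 k8 k247 1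
  12))))) (.c k166 (.f k93 k81 1 (.f k174 k12 12 (.q k169 [(.s k1 k253 13 (.s k3 k2 0 (.s k86 k252
  14 (.d k87 k84 k171 0 13)))), (.s k253 k1 13 (.s k13 k173 11 (.s k241 k165 13 (.d k249 k245 k9 1
  11))))] (.c k1 (.f k9 k249 11 (.q k165 [(.s k5 k245 11 (.s k15 k10 2 (.s k175 k95 11 (.d k173 k161
  k172 1 0)))), (.s k173 k161 1 (.s k241 k13 13 (.s k175 k172 0 (.s k15 k95 11 (.s k252 k94 12 (.s
  k84 k168 13 (.d k86 k87 k3 0 14))))))), (.s k245 k5 11 (.s k240 k250 2 (.s k90 k15 14 (.d k80 k95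
  k160 2 11)))), (.s k161 k173 1 (.s k245 k5 11 (.s k240 k250 2 (.s k3 k82 12 (.s k87 k171 13 (.d
  k86 k84 k252 0 14))))))] (.c k161 (.l (.s k241 k13 13 (.s k5 k245 11 (.s k15 k10 2 (.s k90 k240 14
  (.d k95 k80 k175 2 11)))))) (.c k241 (.l (.s k161 k173 1 (.s k245 k5 11 (.s k240 k250 2 (.s k80
  k160 11 (.d k90 k95 k15 2 14)))))) .n)))) (.c k253 (.q k1 [(.s k3 k2 0 (.s k86 k252 14 (.d k87 k84
  k171 0 13))), (.s k9 k249 11 (.s k5 k13 1 (.s k15 k10 2 (.s k95 k175 11 (.s k90 k80 2 (.d k165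
  k245 k240 11 14))))))] (.c k171 (.l (.s k3 k2 0 (.s k86 k252 14 (.s k84 k87 0 (.s k92 k83 2 (.s
  k80 k88 1 (.d k95 k94 k90 0 2))))))) .n)) .n))))) (.c k174 (.l (.s k81 k93 1 (.s k243 k162 12 (.s
  k166 k12 14 (.d k247 k251 k4 1 12))))) (.c k243 (.q k3 [(.s k1 k2 0 (.s k169 k253 13 (.s k86 k252
  14 (.d k87 k84 k171 0 13)))), (.s k1 k2 0 (.s k93 k81 1 (.s k12 k174 12 (.s k8 k4 1 (.s k9 k6 2
  (.s k5 k13 1 (.d k10 k11 k15 0 2))))))), (.s k81 k93 1 (.s k87 k171 13 (.s k86 k84 0 (.s k83 k92 2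
  (.s k80 k82 0 (.d k95 k91 k90 1 2))))))] (.c k86 (.l (.s k93 k81 1 (.s k12 k174 12 (.s k9 k6 2 (.s
  k169 k249 11 (.d k1 k2 k253 0 13)))))) .n)) (.c k247 (.q k1 [(.s k3 k2 0 (.s k169 k253 13 (.s k86
  k252 14 (.d k87 k84 k171 0 13)))), (.s k81 k93 1 (.s k241 k161 11 (.s k165 k13 13 (.s k245 k5 11
  (.s k240 k250 2 (.d k243 k162 k242 12 0))))))] (.c k253 (.l (.s k3 k2 0 (.s k81 k93 1 (.s k87 k171
  13 (.s k86 k84 0 (.s k83 k92 2 (.s k80 k82 0 (.d k95 k91 k90 1 2)))))))) .n)) .n))))))))))))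

def t27_166 : T TT 256 :=
  (.f k170 k255 14 (.q k252 [(.s k84 k168 13 (.s k86 k87 0 (.s k2 k254 13 (.d k3 k1 k169 0 14))))]
  (.c k1 (.q k5 [(.s k15 k10 2 (.s k165 k245 11 (.s k160 k175 2 (.d k240 k80 k90 11 14)))), (.s k15
  k10 2 (.s k168 k84 13 (.s k169 k171 0 (.s k173 k94 12 (.d k165 k161 k245 1 11))))), (.s k84 k168
  13 (.s k86 k87 0 (.s k165 k245 11 (.s k244 k7 12 (.s k240 k248 1 (.d k160 k175 k80 2 11))))))] (.c
  k165 (.l (.s k10 k15 2 (.s k90 k250 11 (.s k168 k84 13 (.s k169 k171 0 (.s k248 k11 12 (.s k240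
  k244 1 (.d k80 k95 k160 2 11)))))))) (.c k245 (.l (.s k15 k10 2 (.s k84 k168 13 (.s k86 k87 0 (.s
  k3 k169 14 (.s k7 k11 1 (.s k4 k6 0 (.d k244 k164 k165 11 12)))))))) .n))) (.c k2 (.q k5 [(.s k165
  k245 11 (.s k160 k175 2 (.s k240 k80 11 (.d k15 k10 k90 2 14)))), (.s k15 k10 2 (.s k168 k84 13
  (.s k169 k171 0 (.s k173 k94 12 (.d k165 k161 k245 1 11))))), (.s k84 k168 13 (.s k86 k87 0 (.s
  k165 k245 11 (.s k244 k7 12 (.s k240 k248 1 (.d k160 k175 k80 2 11)))))), (.s k10 k15 2 (.s k168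
  k84 13 (.s k169 k171 0 (.s k1 k253 13 (.s k9 k13 1 (.s k8 k11 0 (.d k89 k251 k249 12 11)))))))]
  .n) (.c k3 (.f k84 k168 13 (.q k192 [(.s k64 k128 7 (.s k104 k124 5 (.s k212 k232 5 (.d k148 k20
  k60 7 13)))), (.s k128 k64 7 (.s k149 k191 6 (.s k21 k213 7 (.d k63 k42 k106 6 14))))] (.c k64 (.l
  (.s k212 k232 5 (.s k20 k148 7 (.s k150 k215 8 (.s k130 k190 5 (.s k195 k65 8 (.d k60 k40 k105 5
  14))))))) (.c k87 (.q k171 [(.s k64 k128 7 (.s k104 k124 5 (.s k212 k232 5 (.d k148 k20 k60 7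
  13)))), (.s k128 k64 7 (.s k149 k191 6 (.s k21 k213 7 (.d k63 k42 k106 6 14))))] (.c k64 (.l (.s
  k212 k232 5 (.s k20 k148 7 (.s k150 k215 8 (.s k130 k190 5 (.s k195 k65 8 (.d k60 k40 k105 5
  14))))))) (.c k128 (.l (.s k212 k232 5 (.s k148 k20 7 (.s k104 k60 13 (.s k64 k124 5 (.s k106 k127
  6 (.s k42 k234 7 (.d k63 k21 k149 6 14)))))))) .n))) (.c k128 (.l (.s k212 k232 5 (.s k148 k20 7
  (.s k104 k60 13 (.s k64 k124 5 (.s k106 k127 6 (.s k42 k234 7 (.d k63 k21 k149 6 14)))))))) (.c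
  k171 (.l (.s k87 k86 0 (.s k64 k128 7 (.s k104 k124 5 (.s k148 k60 13 (.d k212 k232 k20 5 7))))))
  .n)))))) (.c k84 (.q k150 [(.s k20 k215 8 (.s k60 k40 5 (.s k130 k190 5 (.d k195 k65 k105 8
  14)))), (.s k130 k190 5 (.s k195 k65 8 (.s k214 k233 6 (.s k86 k22 7 (.s k2 k254 13 (.d k3 k1 k169
  0 14)))))), (.s k20 k215 8 (.s k60 k40 5 (.s k188 k124 7 (.s k169 k131 6 (.s k1 k253 13 (.d k3 k2
  k86 0 14))))))] (.c k60 (.q k169 [(.s k1 k253 13 (.d k3 k2 k86 0 14)), (.s k131 k188 6 (.s k171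
  k168 0 (.s k191 k151 5 (.s k128 k149 6 (.d k130 k190 k129 5 0)))))] (.c k125 (.l (.s k190 k130 5
  (.s k1 k253 13 (.d k3 k2 k86 0 14)))) (.c k190 (.q k125 [(.s k1 k253 13 (.d k3 k2 k86 0 14)), (.s
  k3 k86 14 (.s k65 k105 5 (.s k131 k188 6 (.d k195 k67 k130 7 8)))), (.s k1 k253 13 (.s k65 k105 5
  (.s k129 k193 7 (.s k130 k195 8 (.d k131 k128 k188 0 6)))))] .n) .n))) (.c k195 (.q k149 [(.s k21
  k213 7 (.s k63 k42 6 (.s k128 k191 6 (.d k192 k64 k106 7 14)))), (.s k151 k148 0 (.s k190 k130 5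
  (.s k191 k128 6 (.s k131 k171 5 (.d k188 k189 k169 0 6))))), (.s k151 k148 0 (.s k213 k21 7 (.s
  k215 k20 8 (.s k212 k214 0 (.d k23 k87 k86 7 8)))))] (.c k215 (.q k235 [(.s k21 k213 7 (.s k63 k42
  6 (.s k128 k191 6 (.d k192 k64 k106 7 14)))), (.s k40 k105 8 (.s k60 k20 5 (.s k128 k191 6 (.s
  k148 k151 0 (.d k188 k168 k124 5 7))))), (.s k21 k213 7 (.s k40 k105 8 (.s k60 k20 5 (.s k63 k42 6
  (.s k62 k61 0 (.d k106 k192 k194 14 13))))))] (.c k63 (.l (.s k40 k105 8 (.s k60 k20 5 (.s k188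
  k124 7 (.s k190 k130 5 (.d k191 k189 k128 0 6)))))) (.c k212 (.l (.s k128 k191 6 (.s k192 k64 7
  (.s k63 k106 14 (.d k21 k42 k213 6 7))))) .n))) (.c k235 (.l (.s k215 k20 8 (.s k21 k213 7 (.s k63
  k42 6 (.s k128 k191 6 (.d k192 k64 k106 7 14)))))) .n))) .n))) (.c k86 (.f k84 k168 13 (.q k220
  [(.s k152 k16 9 (.s k204 k236 3 (.s k68 k136 9 (.d k100 k116 k48 3 13)))), (.s k16 k152 9 (.s k154
  k223 10 (.s k138 k186 3 (.s k207 k69 10 (.d k48 k32 k101 3 14))))), (.s k204 k236 3 (.s k136 k68 9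
  (.s k153 k187 4 (.s k17 k221 9 (.d k51 k34 k102 4 14)))))] (.c k6 (.q k246 [(.s k152 k16 9 (.s
  k204 k236 3 (.s k68 k136 9 (.d k100 k116 k48 3 13)))), (.s k16 k152 9 (.s k154 k223 10 (.s k138
  k186 3 (.s k207 k69 10 (.d k48 k32 k101 3 14))))), (.s k204 k236 3 (.s k136 k68 9 (.s k153 k187 4
  (.s k17 k221 9 (.d k51 k34 k102 4 14)))))] (.c k32 (.l (.s k152 k16 9 (.s k204 k236 3 (.s k100 k48
  13 (.d k68 k116 k136 3 9))))) (.c k136 (.l (.s k204 k236 3 (.s k243 k249 2 (.s k81 k162 12 (.s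
  k217 k230 6 (.s k211 k214 2 (.d k16 k146 k152 8 9))))))) .n))) (.c k32 (.l (.s k152 k16 9 (.s k204
  k236 3 (.s k100 k48 13 (.d k68 k116 k136 3 9))))) (.c k136 (.l (.s k152 k16 9 (.s k204 k236 3 (.s
  k100 k48 13 (.s k68 k116 3 (.s k102 k119 4 (.s k34 k238 9 (.d k51 k17 k153 4 14)))))))) (.c k246
  (.q k6 [(.s k152 k16 9 (.s k204 k236 3 (.s k68 k136 9 (.d k100 k116 k48 3 13)))), (.s k16 k152 9
  (.s k154 k223 10 (.s k138 k186 3 (.s k207 k69 10 (.d k48 k32 k101 3 14))))), (.s k204 k236 3 (.s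
  k136 k68 9 (.s k153 k187 4 (.s k17 k221 9 (.d k51 k34 k102 4 14)))))] (.c k32 (.l (.s k152 k16 9
  (.s k204 k236 3 (.s k100 k48 13 (.d k68 k116 k136 3 9))))) (.c k136 (.l (.s k152 k16 9 (.s k204
  k236 3 (.s k100 k48 13 (.s k68 k116 3 (.s k102 k119 4 (.s k34 k238 9 (.d k51 k17 k153 4 14))))))))
  .n))) .n)))))) (.c k87 (.l (.s k168 k84 13 (.s k169 k171 0 (.s k3 k86 14 (.d k1 k2 k253 0 13)))))
  (.c k168 (.q k154 [(.s k16 k223 10 (.s k138 k186 3 (.s k207 k69 10 (.d k48 k32 k101 3 14)))), (.s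
  k138 k186 3 (.s k207 k69 10 (.s k222 k237 4 (.s k86 k18 9 (.s k2 k254 13 (.d k3 k1 k169 0
  14)))))), (.s k16 k223 10 (.s k48 k32 3 (.s k184 k116 9 (.s k169 k139 4 (.s k1 k253 13 (.d k3 k2
  k86 0 14))))))] (.c k48 (.q k84 [(.s k86 k87 0 (.s k2 k254 13 (.d k3 k1 k169 0 14))), (.s k16 k223
  10 (.s k220 k152 9 (.s k204 k236 3 (.s k136 k68 9 (.s k153 k187 4 (.s k17 k221 9 (.d k19 k18 k86 0
  10)))))))] (.c k86 (.l (.s k16 k223 10 (.s k152 k220 9 (.s k153 k155 0 (.s k136 k187 4 (.s k204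
  k68 9 (.s k51 k102 14 (.d k17 k221 k34 9 4)))))))) (.c k117 (.l (.s k186 k138 3 (.s k86 k87 0 (.s
  k2 k254 13 (.d k3 k1 k169 0 14))))) (.c k186 (.q k117 [(.s k86 k87 0 (.s k2 k254 13 (.d k3 k1 k169
  0 14))), (.s k69 k101 3 (.s k207 k138 10 (.s k222 k237 4 (.d k86 k87 k18 0 9)))), (.s k16 k223 10
  (.s k152 k220 9 (.s k153 k155 0 (.s k136 k187 4 (.s k68 k204 9 (.s k116 k100 3 (.d k119 k118 k102
  0 4)))))))] (.c k87 (.l (.s k69 k101 3 (.s k207 k138 10 (.s k222 k237 4 (.s k86 k18 9 (.s k2 k254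
  13 (.d k3 k169 k1 14 0))))))) .n)) .n)))) (.c k207 (.q k150 [(.s k20 k215 8 (.s k130 k190 5 (.s
  k195 k65 8 (.d k60 k40 k105 5 14)))), (.s k158 k146 1 (.s k215 k20 8 (.s k223 k16 10 (.s k28 k93 8
  (.d k211 k219 k89 1 10))))), (.s k130 k190 5 (.s k146 k158 1 (.s k162 k178 3 (.s k81 k243 12 (.d
  k16 k223 k211 10 8)))))] (.c k223 (.q k239 [(.s k130 k190 5 (.s k195 k65 8 (.s k60 k105 14 (.d k20
  k40 k215 5 8)))), (.s k20 k215 8 (.s k32 k101 10 (.s k16 k48 3 (.s k28 k24 1 (.s k211 k89 10 (.d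
  k146 k158 k81 1 8)))))), (.s k32 k101 10 (.s k48 k16 3 (.s k130 k190 5 (.s k146 k158 1 (.d k195
  k65 k97 8 12)))))] (.c k195 (.l (.s k32 k101 10 (.s k16 k48 3 (.s k130 k190 5 (.s k146 k158 1 (.s
  k81 k211 8 (.d k162 k243 k178 12 3))))))) .n)) (.c k239 (.l (.s k223 k16 10 (.s k20 k215 8 (.s k60
  k40 5 (.s k130 k190 5 (.d k195 k65 k105 8 14)))))) .n))) .n))) (.c k169 (.f k84 k168 13 (.q k80
  [(.s k90 k95 2 (.s k10 k250 11 (.s k15 k5 2 (.d k240 k160 k165 11 14)))), (.s k88 k92 1 (.s k240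
  k160 11 (.s k164 k12 13 (.d k244 k248 k4 1 11)))), (.s k86 k87 0 (.s k90 k95 2 (.s k82 k94 1 (.s
  k83 k81 0 (.d k92 k88 k89 1 2)))))] (.c k163 (.q k172 [(.d k92 k88 k12 1 11), (.s k90 k95 2 (.s
  k10 k250 11 (.s k15 k5 2 (.d k240 k160 k165 11 14))))] .n) (.c k172 (.q k163 [(.s k90 k95 2 (.s
  k10 k250 11 (.s k15 k5 2 (.d k240 k160 k165 11 14)))), (.s k86 k87 0 (.s k2 k254 13 (.s k3 k1 0
  (.s k83 k243 11 (.d k92 k89 k88 2 1)))))] (.c k160 (.q k164 [(.s k4 k244 11 (.s k12 k8 1 (.d k88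
  k92 k240 1 13))), (.s k86 k87 0 (.s k90 k95 2 (.s k10 k250 11 (.s k15 k5 2 (.d k94 k82 k173 1
  12)))))] (.c k240 (.l (.s k4 k244 11 (.s k8 k12 1 (.s k86 k87 0 (.s k89 k251 12 (.d k92 k88 k83 1
  2)))))) .n)) (.c k164 (.l (.s k160 k240 11 (.s k86 k87 0 (.s k2 k254 13 (.s k3 k1 0 (.s k83 k243
  11 (.d k92 k88 k89 1 2))))))) .n))) .n)))) (.c k171 (.l (.s k84 k168 13 (.s k86 k87 0 (.s k3 k169
  14 (.d k2 k1 k254 0 13))))) (.c k254 (.l (.s k168 k84 13 (.s k169 k171 0 (.s k1 k253 13 (.d k3 k2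
  k86 0 14))))) .n))))))))))))

def t27_167 : T TT 256 :=
  (.f k255 k170 14 (.q k89 [(.s k81 k93 1 (.s k243 k162 12 (.s k166 k12 14 (.d k247 k251 k4 1
  12))))] (.c k4 (.q k1 [(.s k3 k2 0 (.s k169 k253 13 (.s k86 k252 14 (.d k87 k84 k171 0 13)))), (.s
  k81 k93 1 (.s k169 k253 13 (.s k9 k249 11 (.s k13 k5 1 (.d k241 k161 k165 11 13))))), (.s k3 k2 0
  (.s k81 k93 1 (.s k161 k241 11 (.s k82 k240 12 (.s k83 k80 0 (.d k243 k163 k162 11 12))))))] .n)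
  (.c k12 (.q k1 [(.s k3 k2 0 (.s k169 k253 13 (.s k86 k252 14 (.d k87 k84 k171 0 13)))), (.s k81
  k93 1 (.s k169 k253 13 (.s k9 k249 11 (.s k13 k5 1 (.d k241 k161 k165 11 13))))), (.s k3 k2 0 (.s
  k81 k93 1 (.s k161 k241 11 (.s k82 k240 12 (.s k83 k80 0 (.d k243 k163 k162 11 12))))))] .n) (.c
  k81 (.q k20 [(.s k150 k215 8 (.s k60 k40 5 (.s k105 k195 14 (.d k125 k65 k190 5 8)))), (.s k150
  k215 8 (.s k28 k211 10 (.s k16 k24 1 (.s k48 k32 3 (.s k117 k186 10 (.s k101 k69 3 (.d k154 k223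
  k207 10 14)))))))] (.c k150 (.f k60 k40 5 (.q k105 [(.d k125 k190 k65 8 5), (.s k121 k73 3 (.s
  k243 k182 10 (.s k166 k12 14 (.d k247 k251 k4 1 12))))] (.c k130 (.l (.s k190 k125 8 (.s k121 k73
  3 (.s k243 k182 10 (.s k166 k12 14 (.d k247 k251 k4 1 12)))))) (.c k190 (.q k130 [(.d k65 k125
  k195 5 8), (.s k121 k73 3 (.s k243 k182 10 (.s k247 k251 1 (.d k166 k4 k12 12 14))))] .n) .n))))
  (.c k215 (.l (.s k60 k40 5 (.s k125 k190 8 (.s k105 k65 5 (.s k121 k73 3 (.s k243 k182 10 (.s k166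
  k12 14 (.d k247 k251 k4 1 12)))))))) .n))) (.c k93 (.q k20 [(.s k150 k215 8 (.s k60 k40 5 (.s k105
  k195 14 (.d k125 k65 k190 5 8)))), (.s k150 k215 8 (.s k28 k211 10 (.s k16 k24 1 (.s k48 k32 3 (.s
  k117 k186 10 (.s k101 k69 3 (.d k154 k223 k207 10 14)))))))] (.c k150 (.f k60 k40 5 (.q k105 [(.d
  k125 k190 k65 8 5), (.s k121 k73 3 (.s k243 k182 10 (.s k166 k12 14 (.d k247 k251 k4 1 12))))] (.c
  k130 (.l (.s k190 k125 8 (.s k121 k73 3 (.s k243 k182 10 (.s k166 k12 14 (.d k247 k251 k4 1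
  12)))))) (.c k190 (.q k130 [(.d k65 k125 k195 5 8), (.s k121 k73 3 (.s k243 k182 10 (.s k247 k251
  1 (.d k166 k4 k12 12 14))))] .n) .n)))) (.c k215 (.l (.s k60 k40 5 (.s k125 k190 8 (.s k105 k65 5
  (.s k121 k73 3 (.s k243 k182 10 (.s k166 k12 14 (.d k247 k251 k4 1 12)))))))) .n))) (.c k162 (.l
  (.s k93 k81 1 (.s k12 k174 12 (.s k166 k243 14 (.d k4 k8 k247 1 12))))) (.c k166 (.f k81 k93 1 (.q
  k165 [(.s k5 k245 11 (.s k15 k10 2 (.s k90 k240 14 (.d k95 k80 k175 2 11)))), (.s k241 k13 13 (.s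
  k1 k161 11 (.s k3 k2 0 (.s k87 k171 13 (.s k86 k84 0 (.d k169 k253 k252 13 14))))))] (.c k162 (.q
  k174 [(.s k5 k245 11 (.s k15 k10 2 (.s k90 k240 14 (.d k95 k80 k175 2 11)))), (.s k241 k13 13 (.s
  k1 k161 11 (.s k3 k2 0 (.s k87 k171 13 (.s k86 k84 0 (.d k169 k253 k252 13 14))))))] (.c k175 (.l
  (.s k241 k13 13 (.s k1 k161 11 (.s k245 k5 11 (.d k253 k249 k169 1 13))))) .n)) (.c k174 (.l (.s
  k162 k243 12 (.s k5 k245 11 (.s k15 k10 2 (.s k90 k240 14 (.d k95 k80 k175 2 11)))))) (.c k175 (.l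
  (.s k241 k13 13 (.s k1 k161 11 (.s k245 k5 11 (.d k253 k249 k169 1 13))))) .n))))) (.c k174 (.l
  (.s k81 k93 1 (.s k243 k162 12 (.s k166 k12 14 (.d k247 k251 k4 1 12))))) (.c k243 (.q k15 [(.s k5
  k10 2 (.s k165 k245 11 (.s k90 k240 14 (.d k95 k80 k175 2 11)))), (.s k5 k10 2 (.s k93 k81 1 (.s
  k12 k174 12 (.s k13 k14 0 (.s k1 k9 1 (.d k253 k173 k169 11 13)))))), (.s k93 k81 1 (.s k12 k174
  12 (.s k13 k14 0 (.s k95 k175 11 (.s k90 k80 2 (.d k165 k241 k240 13 14))))))] (.c k90 (.l (.s k93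
  k81 1 (.s k12 k174 12 (.s k13 k14 0 (.s k165 k241 13 (.d k5 k10 k245 2 11)))))) .n)) (.c k247 (.q
  k87 [(.s k86 k84 0 (.s k3 k171 13 (.s k169 k252 14 (.d k1 k2 k253 0 13)))), (.s k81 k93 1 (.s k86
  k84 0 (.s k83 k92 2 (.s k80 k82 0 (.d k95 k91 k90 1 2))))), (.s k3 k171 13 (.s k93 k81 1 (.s k12
  k174 12 (.s k9 k6 2 (.s k169 k249 11 (.d k1 k2 k253 0 13))))))] .n) (.c k251 (.l (.s k93 k81 1 (.s
  k12 k174 12 (.s k4 k8 1 (.d k166 k247 k243 12 14))))) .n))))))))))))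

def t27_168 : T TT 256 :=
  (.f k170 k255 14 (.q k243 [(.s k81 k162 12 (.s k89 k93 1 (.s k8 k251 12 (.d k12 k4 k166 1 14))))]
  (.c k4 (.q k1 [(.s k3 k2 0 (.s k81 k162 12 (.s k83 k163 11 (.s k82 k80 0 (.d k161 k241 k240 11
  12))))), (.s k81 k162 12 (.s k89 k93 1 (.s k169 k253 13 (.s k9 k249 11 (.s k13 k5 1 (.d k241 k161
  k165 11 13)))))), (.s k3 k2 0 (.s k163 k83 11 (.s k169 k253 13 (.s k166 k172 2 (.s k12 k89 14 (.s
  k6 k9 2 (.d k86 k252 k246 14 11)))))))] .n) (.c k8 (.f k81 k162 12 (.f k89 k93 1 (.f k12 k166 14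
  (.q k88 [(.s k90 k91 0 (.s k240 k164 13 (.d k80 k160 k95 11 2))), (.s k90 k91 0 (.s k80 k95 2 (.s
  k83 k82 0 (.d k92 k84 k86 1 2)))), (.s k240 k164 13 (.s k160 k80 11 (.s k165 k175 2 (.d k241 k242
  k13 0 13)))), (.s k90 k91 0 (.s k10 k250 11 (.s k15 k5 2 (.d k240 k164 k165 13 14))))] .n)))) (.c
  k12 (.f k162 k81 12 (.q k2 [(.s k3 k1 0 (.s k82 k242 11 (.s k163 k83 11 (.d k161 k160 k240 0
  12)))), (.s k242 k82 11 (.s k254 k86 13 (.s k250 k246 1 (.s k90 k10 11 (.d k166 k174 k14 1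
  13))))), (.s k3 k1 0 (.s k86 k254 13 (.s k252 k169 14 (.s k246 k249 2 (.d k166 k174 k6 1 11)))))]
  (.c k93 (.l (.s k174 k166 1 (.s k3 k1 0 (.s k82 k242 11 (.s k161 k240 12 (.d k163 k160 k83 0
  11)))))) (.c k174 (.q k93 [(.s k3 k1 0 (.s k82 k242 11 (.s k163 k83 11 (.d k161 k160 k240 0
  12)))), (.s k242 k82 11 (.s k254 k86 13 (.s k250 k246 1 (.s k90 k10 11 (.s k80 k95 2 (.d k240 k241
  k160 0 11)))))), (.s k3 k1 0 (.s k83 k163 11 (.s k86 k254 13 (.s k87 k84 0 (.s k92 k89 2 (.d k95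
  k94 k91 0 1))))))] (.c k83 (.l (.s k3 k1 0 (.s k82 k242 11 (.s k86 k254 13 (.s k161 k240 12 (.s
  k160 k163 0 (.s k165 k175 2 (.d k169 k173 k252 1 14)))))))) (.c k241 (.l (.s k82 k242 11 (.s k3 k1
  0 (.s k161 k240 12 (.d k163 k160 k83 0 11))))) .n))) .n)))) (.c k81 (.q k150 [(.s k20 k215 8 (.s
  k60 k40 5 (.s k130 k190 5 (.d k195 k65 k105 8 14)))), (.s k130 k190 5 (.s k195 k65 8 (.s k211 k227
  3 (.s k89 k28 10 (.s k8 k251 12 (.d k12 k4 k166 1 14)))))), (.s k20 k215 8 (.s k60 k40 5 (.s k182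
  k121 10 (.s k166 k134 3 (.s k4 k247 12 (.d k12 k8 k89 1 14))))))] (.c k60 (.q k178 [(.s k190 k130
  5 (.s k186 k182 1 (.s k154 k138 3 (.s k142 k166 5 (.d k158 k146 k174 1 3))))), (.s k48 k113 8 (.s
  k16 k32 3 (.s k154 k223 10 (.s k138 k186 3 (.d k207 k69 k101 10 14))))), (.s k48 k113 8 (.s k16
  k32 3 (.s k154 k223 10 (.s k146 k158 1 (.d k130 k190 k162 5 3)))))] (.c k125 (.l (.s k190 k130 5
  (.s k48 k113 8 (.s k16 k32 3 (.s k154 k223 10 (.d k186 k182 k138 1 3)))))) (.c k154 (.l (.s k190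
  k130 5 (.s k182 k186 1 (.s k166 k134 3 (.s k4 k247 12 (.d k12 k8 k89 1 14)))))) (.c k190 (.q k125
  [(.s k48 k113 8 (.s k16 k32 3 (.s k154 k223 10 (.s k138 k186 3 (.d k207 k69 k101 10 14))))), (.s
  k65 k105 5 (.s k130 k195 8 (.s k162 k146 3 (.s k166 k174 1 (.s k4 k247 12 (.d k12 k8 k89 1
  14)))))), (.s k65 k105 5 (.s k130 k195 8 (.s k146 k162 3 (.s k154 k158 1 (.s k142 k166 5 (.d k138
  k134 k186 1 3))))))] (.c k65 (.l (.s k20 k215 8 (.s k113 k48 8 (.s k117 k121 1 (.s k101 k69 3 (.s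
  k52 k199 12 (.s k4 k36 3 (.d k247 k182 k166 8 12)))))))) .n)) .n)))) (.c k195 (.q k154 [(.s k16
  k223 10 (.s k138 k186 3 (.s k207 k69 10 (.d k48 k32 k101 3 14)))), (.s k130 k190 5 (.s k146 k158 1
  (.s k178 k162 3 (.s k142 k166 5 (.d k138 k134 k186 1 3))))), (.s k16 k223 10 (.s k48 k32 3 (.s
  k130 k190 5 (.s k146 k158 1 (.d k178 k162 k113 3 8)))))] (.c k215 (.q k235 [(.s k138 k186 3 (.s
  k207 k69 10 (.s k48 k101 14 (.d k16 k32 k223 3 10)))), (.s k40 k105 8 (.s k60 k20 5 (.s k182 k121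
  10 (.s k186 k138 3 (.d k190 k178 k130 1 5))))), (.s k16 k223 10 (.s k48 k32 3 (.s k130 k190 5 (.s
  k146 k158 1 (.d k178 k162 k113 3 8)))))] .n) (.c k235 (.l (.s k215 k20 8 (.s k16 k223 10 (.s k48
  k32 3 (.s k138 k186 3 (.d k207 k69 k101 10 14)))))) .n))) .n))) (.c k89 (.q k5 [(.s k15 k10 2 (.s
  k165 k245 11 (.s k160 k175 2 (.d k240 k80 k90 11 14)))), (.s k10 k15 2 (.s k162 k81 12 (.s k166
  k174 1 (.s k4 k247 12 (.s k6 k7 0 (.s k2 k14 1 (.d k86 k254 k246 13 11))))))), (.s k162 k81 12 (.s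
  k165 k245 11 (.s k166 k174 1 (.s k4 k247 12 (.s k7 k6 0 (.s k164 k167 0 (.d k244 k84 k86 11
  12)))))))] .n) (.c k93 (.l (.s k162 k81 12 (.s k166 k174 1 (.s k12 k89 14 (.d k4 k8 k247 1 12)))))
  (.c k162 (.q k150 [(.s k20 k215 8 (.s k130 k190 5 (.s k195 k65 8 (.d k60 k40 k105 5 14)))), (.s
  k130 k190 5 (.s k195 k65 8 (.s k211 k227 3 (.s k89 k28 10 (.s k8 k251 12 (.d k12 k4 k166 1
  14)))))), (.s k20 k215 8 (.s k60 k40 5 (.s k182 k121 10 (.s k166 k134 3 (.s k4 k247 12 (.d k12 k8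
  k89 1 14))))))] (.c k60 (.q k154 [(.s k158 k146 1 (.s k186 k138 3 (.s k190 k130 5 (.s k178 k182 1
  (.d k142 k174 k166 3 5))))), (.s k16 k223 10 (.s k48 k32 3 (.s k138 k186 3 (.d k207 k69 k101 10
  14)))), (.s k16 k223 10 (.s k20 k215 8 (.s k28 k24 1 (.s k146 k158 1 (.d k211 k81 k89 8 10)))))]
  (.c k125 (.l (.s k190 k130 5 (.s k16 k223 10 (.s k48 k32 3 (.s k138 k186 3 (.d k207 k69 k101 10
  14)))))) (.c k190 (.q k125 [(.s k16 k223 10 (.s k138 k186 3 (.s k207 k69 10 (.d k48 k32 k101 3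
  14)))), (.s k16 k223 10 (.s k20 k215 8 (.s k28 k24 1 (.s k146 k158 1 (.d k211 k81 k89 8 10))))),
  (.s k65 k105 5 (.s k138 k186 3 (.s k146 k158 1 (.s k195 k130 8 (.s k48 k97 12 (.d k207 k101 k69 14
  10))))))] (.c k207 (.l (.s k65 k105 5 (.s k195 k130 8 (.s k211 k227 3 (.s k215 k20 8 (.d k223 k219
  k16 1 10)))))) .n)) .n))) (.c k195 (.q k149 [(.s k21 k213 7 (.s k63 k42 6 (.s k128 k191 6 (.d k192
  k64 k106 7 14)))), (.s k151 k148 0 (.s k190 k130 5 (.s k191 k128 6 (.s k188 k189 0 (.d k131 k171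
  k169 5 6))))), (.s k213 k21 7 (.s k215 k20 8 (.s k212 k214 0 (.s k23 k86 8 (.d k151 k148 k87 0
  7)))))] (.c k215 (.q k235 [(.s k128 k191 6 (.s k192 k64 7 (.s k63 k106 14 (.d k21 k42 k213 6
  7)))), (.s k151 k148 0 (.s k190 k130 5 (.s k191 k128 6 (.s k188 k189 0 (.d k131 k171 k169 5
  6))))), (.s k21 k213 7 (.s k40 k105 8 (.s k20 k60 5 (.s k23 k22 0 (.s k148 k151 0 (.d k212 k84 k86
  7 8))))))] .n) (.c k235 (.l (.s k215 k20 8 (.s k21 k213 7 (.s k63 k42 6 (.s k128 k191 6 (.d k192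
  k64 k106 7 14)))))) .n))) .n))) (.c k166 (.q k5 [(.s k15 k10 2 (.s k165 k245 11 (.s k160 k175 2
  (.d k240 k80 k90 11 14)))), (.s k10 k15 2 (.s k81 k162 12 (.s k89 k93 1 (.s k8 k251 12 (.s k9 k11
  0 (.s k1 k13 1 (.d k169 k253 k249 13 11))))))), (.s k81 k162 12 (.s k89 k93 1 (.s k165 k245 11 (.s
  k241 k13 13 (.s k240 k242 0 (.d k160 k175 k80 2 11))))))] (.c k175 (.l (.s k15 k10 2 (.s k81 k162
  12 (.s k89 k93 1 (.s k91 k167 13 (.s k90 k88 0 (.d k165 k245 k240 11 14))))))) .n)) (.c k174 (.l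
  (.s k81 k162 12 (.s k89 k93 1 (.s k12 k166 14 (.d k8 k4 k251 1 12))))) (.c k251 (.l (.s k162 k81
  12 (.s k166 k174 1 (.s k4 k247 12 (.d k12 k8 k89 1 14))))) .n))))))))))))

def t27_169 : T TT 256 :=
  (.f k170 k255 14 (.q k243 [(.s k81 k162 12 (.s k89 k93 1 (.s k8 k251 12 (.d k12 k4 k166 1 14))))]
  (.c k4 (.q k5 [(.s k15 k10 2 (.s k165 k245 11 (.s k160 k175 2 (.d k240 k80 k90 11 14)))), (.s k15
  k10 2 (.s k162 k81 12 (.s k166 k174 1 (.s k167 k91 13 (.d k165 k164 k245 0 11))))), (.s k81 k162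
  12 (.s k89 k93 1 (.s k165 k245 11 (.s k241 k13 13 (.s k240 k242 0 (.d k160 k175 k80 2 11))))))]
  (.c k165 (.l (.s k10 k15 2 (.s k90 k250 11 (.s k162 k81 12 (.s k166 k174 1 (.s k242 k14 13 (.s
  k240 k241 0 (.d k80 k95 k160 2 11)))))))) (.c k245 (.l (.s k15 k10 2 (.s k81 k162 12 (.s k89 k93 1
  (.s k12 k166 14 (.s k13 k14 0 (.s k1 k9 1 (.d k241 k161 k165 11 13)))))))) .n))) (.c k8 (.q k5
  [(.s k165 k245 11 (.s k160 k175 2 (.s k240 k80 11 (.d k15 k10 k90 2 14)))), (.s k15 k10 2 (.s k162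
  k81 12 (.s k166 k174 1 (.s k167 k91 13 (.d k165 k164 k245 0 11))))), (.s k81 k162 12 (.s k89 k93 1
  (.s k165 k245 11 (.s k241 k13 13 (.s k240 k242 0 (.d k160 k175 k80 2 11)))))), (.s k10 k15 2 (.s
  k162 k81 12 (.s k166 k174 1 (.s k4 k247 12 (.s k6 k7 0 (.s k2 k14 1 (.d k86 k254 k246 13
  11)))))))] .n) (.c k12 (.f k162 k81 12 (.q k179 [(.s k51 k115 7 (.s k34 k17 4 (.s k98 k226 7 (.d
  k145 k128 k192 4 12)))), (.s k51 k115 7 (.s k17 k34 4 (.s k153 k221 9 (.d k166 k174 k140 1 6)))),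
  (.s k128 k145 4 (.s k149 k191 6 (.s k21 k213 7 (.s k63 k42 6 (.d k192 k64 k106 7 14)))))] (.c k17
  (.l (.s k51 k115 7 (.s k145 k128 4 (.s k98 k192 12 (.s k34 k226 7 (.s k102 k238 9 (.s k68 k119 4
  (.d k204 k136 k153 9 14)))))))) (.c k64 (.l (.s k145 k128 4 (.s k51 k115 7 (.s k98 k192 12 (.d k34
  k17 k226 4 7))))) (.c k93 (.l (.s k174 k166 1 (.s k51 k115 7 (.s k34 k17 4 (.s k98 k226 7 (.d k145
  k128 k192 4 12)))))) (.c k174 (.q k93 [(.s k51 k115 7 (.s k34 k17 4 (.s k98 k226 7 (.d k145 k128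
  k192 4 12)))), (.s k128 k145 4 (.s k149 k191 6 (.s k21 k213 7 (.s k63 k42 6 (.d k192 k64 k106 7
  14))))), (.s k51 k115 7 (.s k17 k34 4 (.s k153 k221 9 (.s k136 k187 4 (.d k204 k68 k102 9 14)))))]
  (.c k17 (.l (.s k51 k115 7 (.s k145 k128 4 (.s k98 k192 12 (.s k34 k226 7 (.s k102 k238 9 (.s k68
  k119 4 (.d k204 k136 k153 9 14)))))))) (.c k64 (.l (.s k145 k128 4 (.s k51 k115 7 (.s k98 k192 12
  (.d k34 k17 k226 4 7))))) .n))) .n)))))) (.c k81 (.q k150 [(.s k20 k215 8 (.s k60 k40 5 (.s k130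
  k190 5 (.d k195 k65 k105 8 14)))), (.s k130 k190 5 (.s k195 k65 8 (.s k211 k227 3 (.s k89 k28 10
  (.s k8 k251 12 (.d k12 k4 k166 1 14)))))), (.s k20 k215 8 (.s k60 k40 5 (.s k182 k121 10 (.s k166
  k134 3 (.s k4 k247 12 (.d k12 k8 k89 1 14))))))] (.c k60 (.q k154 [(.s k16 k223 10 (.s k48 k32 3
  (.s k138 k186 3 (.d k207 k69 k101 10 14)))), (.s k186 k138 3 (.s k190 k130 5 (.s k178 k182 1 (.s
  k142 k166 5 (.d k158 k146 k174 1 3))))), (.s k16 k223 10 (.s k48 k32 3 (.s k146 k158 1 (.s k178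
  k113 8 (.d k130 k190 k162 5 3)))))] (.c k125 (.l (.s k190 k130 5 (.s k16 k223 10 (.s k48 k32 3 (.s
  k138 k186 3 (.d k207 k69 k101 10 14)))))) (.c k190 (.q k125 [(.s k16 k223 10 (.s k48 k32 3 (.s
  k138 k186 3 (.d k207 k69 k101 10 14)))), (.s k65 k105 5 (.s k195 k130 8 (.s k211 k227 3 (.s k215
  k20 8 (.d k223 k219 k16 1 10))))), (.s k65 k105 5 (.s k130 k195 8 (.s k138 k186 3 (.s k142 k134 1
  (.s k146 k158 1 (.d k178 k162 k166 3 5))))))] .n) .n))) (.c k195 (.q k146 [(.s k154 k158 1 (.s k16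
  k223 10 (.s k48 k32 3 (.s k138 k186 3 (.d k207 k69 k101 10 14))))), (.s k130 k190 5 (.s k162 k178
  3 (.s k166 k174 1 (.s k4 k247 12 (.d k12 k8 k89 1 14))))), (.s k130 k190 5 (.s k178 k162 3 (.s k48
  k113 8 (.s k16 k32 3 (.d k154 k158 k223 1 10)))))] (.c k158 (.l (.s k130 k190 5 (.s k178 k162 3
  (.s k48 k113 8 (.s k16 k32 3 (.s k154 k223 10 (.s k138 k186 3 (.d k142 k134 k166 1 5)))))))) (.c
  k215 (.q k235 [(.s k130 k190 5 (.s k154 k158 1 (.s k178 k162 3 (.s k142 k166 5 (.d k138 k134 k186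
  1 3))))), (.s k154 k158 1 (.s k16 k223 10 (.s k48 k32 3 (.s k138 k186 3 (.d k207 k69 k101 10
  14))))), (.s k40 k105 8 (.s k60 k20 5 (.s k130 k190 5 (.s k162 k178 3 (.s k182 k121 10 (.d k166
  k174 k134 1 3))))))] (.c k186 (.l (.s k130 k190 5 (.s k154 k158 1 (.s k16 k223 10 (.s k48 k32 3
  (.d k178 k162 k113 3 8)))))) .n)) (.c k235 (.l (.s k215 k20 8 (.s k130 k190 5 (.s k154 k158 1 (.s
  k16 k223 10 (.s k48 k32 3 (.d k178 k162 k113 3 8))))))) .n)))) .n))) (.c k89 (.f k81 k162 12 (.q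
  k211 [(.s k146 k16 8 (.s k195 k227 3 (.s k65 k130 8 (.d k97 k113 k48 3 12)))), (.s k16 k146 8 (.s
  k154 k223 10 (.s k138 k186 3 (.s k207 k69 10 (.d k48 k32 k101 3 14))))), (.s k195 k227 3 (.s k130
  k65 8 (.s k150 k190 5 (.s k20 k215 8 (.d k60 k40 k105 5 14)))))] (.c k9 (.q k249 [(.s k146 k16 8
  (.s k195 k227 3 (.s k65 k130 8 (.d k97 k113 k48 3 12)))), (.s k16 k146 8 (.s k154 k223 10 (.s k138
  k186 3 (.s k207 k69 10 (.d k48 k32 k101 3 14))))), (.s k195 k227 3 (.s k130 k65 8 (.s k150 k190 5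
  (.s k20 k215 8 (.d k60 k40 k105 5 14)))))] (.c k32 (.l (.s k146 k16 8 (.s k195 k227 3 (.s k97 k48
  12 (.d k65 k113 k130 3 8))))) (.c k130 (.l (.s k195 k227 3 (.s k252 k246 2 (.s k84 k168 13 (.s
  k214 k233 6 (.s k220 k217 2 (.d k16 k146 k152 8 9))))))) .n))) (.c k32 (.l (.s k146 k16 8 (.s k195
  k227 3 (.s k97 k48 12 (.d k65 k113 k130 3 8))))) (.c k130 (.l (.s k146 k16 8 (.s k195 k227 3 (.s
  k97 k48 12 (.s k65 k113 3 (.s k105 k125 5 (.s k40 k235 8 (.d k60 k20 k150 5 14)))))))) (.c k249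
  (.q k9 [(.s k146 k16 8 (.s k195 k227 3 (.s k65 k130 8 (.d k97 k113 k48 3 12)))), (.s k16 k146 8
  (.s k154 k223 10 (.s k138 k186 3 (.s k207 k69 10 (.d k48 k32 k101 3 14))))), (.s k195 k227 3 (.s
  k130 k65 8 (.s k150 k190 5 (.s k20 k215 8 (.d k60 k40 k105 5 14)))))] (.c k32 (.l (.s k146 k16 8
  (.s k195 k227 3 (.s k97 k48 12 (.d k65 k113 k130 3 8))))) (.c k130 (.l (.s k146 k16 8 (.s k195
  k227 3 (.s k97 k48 12 (.s k65 k113 3 (.s k105 k125 5 (.s k40 k235 8 (.d k60 k20 k150 5 14))))))))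
  .n))) .n)))))) (.c k93 (.l (.s k162 k81 12 (.s k166 k174 1 (.s k12 k89 14 (.d k4 k8 k247 1 12)))))
  (.c k162 (.q k154 [(.s k16 k223 10 (.s k138 k186 3 (.s k207 k69 10 (.d k48 k32 k101 3 14)))), (.s
  k138 k186 3 (.s k207 k69 10 (.s k219 k231 5 (.s k89 k24 8 (.s k8 k251 12 (.d k12 k4 k166 1
  14)))))), (.s k16 k223 10 (.s k48 k32 3 (.s k178 k113 8 (.s k166 k142 5 (.s k4 k247 12 (.d k12 k8
  k89 1 14))))))] (.c k48 (.q k90 [(.s k10 k250 11 (.s k15 k5 2 (.s k80 k95 2 (.d k240 k160 k165 11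
  14)))), (.s k16 k223 10 (.s k26 k218 7 (.s k31 k21 2 (.s k80 k95 2 (.d k208 k144 k149 7 10))))),
  (.s k10 k250 11 (.s k16 k223 10 (.s k26 k218 7 (.s k42 k58 3 (.d k21 k63 k31 6 2)))))] (.c k117
  (.l (.s k186 k138 3 (.s k10 k250 11 (.s k15 k5 2 (.s k80 k95 2 (.d k240 k160 k165 11 14)))))) (.c
  k186 (.q k117 [(.s k10 k250 11 (.s k15 k5 2 (.s k80 k95 2 (.d k240 k160 k165 11 14)))), (.s k16
  k223 10 (.s k26 k218 7 (.s k31 k21 2 (.s k80 k95 2 (.d k208 k144 k149 7 10))))), (.s k10 k250 11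
  (.s k16 k223 10 (.s k26 k218 7 (.s k21 k31 2 (.d k42 k58 k63 3 6)))))] (.c k95 (.l (.s k10 k250 11
  (.s k15 k5 2 (.s k69 k101 3 (.s k207 k138 10 (.s k143 k79 7 (.d k165 k240 k176 14 6))))))) .n))
  .n))) (.c k207 (.q k86 [(.s k87 k84 0 (.s k222 k18 9 (.s k223 k16 10 (.s k19 k155 9 (.d k220 k221
  k153 0 10))))), (.s k2 k254 13 (.s k3 k1 0 (.s k83 k163 11 (.s k89 k92 2 (.s k8 k251 12 (.d k12
  k166 k4 14 1))))))] (.c k223 (.q k239 [(.s k2 k254 13 (.s k3 k1 0 (.s k32 k101 10 (.s k48 k16 3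
  (.d k18 k33 k222 4 9))))), (.s k186 k138 3 (.s k222 k18 9 (.s k254 k2 13 (.s k50 k118 9 (.d k206
  k238 k102 3 13))))), (.s k18 k222 9 (.s k32 k101 10 (.s k16 k48 3 (.s k19 k17 0 (.s k84 k87 0 (.d
  k220 k152 k153 9 10)))))), (.s k2 k254 13 (.s k3 k1 0 (.s k83 k163 11 (.s k89 k92 2 (.s k8 k251 12
  (.d k12 k166 k4 14 1))))))] .n) (.c k239 (.l (.s k223 k16 10 (.s k87 k84 0 (.s k19 k155 9 (.s k220
  k153 10 (.d k222 k221 k18 0 9)))))) .n))) .n))) (.c k166 (.f k162 k81 12 (.q k130 [(.s k150 k190 5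
  (.s k20 k215 8 (.s k60 k40 5 (.d k195 k65 k105 8 14)))), (.s k178 k146 3 (.s k48 k113 8 (.s k16
  k32 3 (.s k154 k223 10 (.s k138 k186 3 (.d k207 k69 k101 10 14))))))] (.c k65 (.l (.s k146 k178 3
  (.s k150 k190 5 (.s k20 k215 8 (.s k60 k40 5 (.s k195 k105 14 (.s k97 k48 12 (.d k227 k211 k32 3
  8)))))))) (.c k163 (.q k172 [(.s k150 k190 5 (.s k20 k215 8 (.s k60 k40 5 (.d k195 k65 k105 8
  14)))), (.s k178 k146 3 (.s k48 k113 8 (.s k16 k32 3 (.s k154 k223 10 (.s k138 k186 3 (.d k207 k69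
  k101 10 14))))))] (.c k65 (.l (.s k146 k178 3 (.s k150 k190 5 (.s k20 k215 8 (.s k60 k40 5 (.s
  k195 k105 14 (.s k97 k48 12 (.d k227 k211 k32 3 8)))))))) .n)) (.c k172 (.q k163 [(.s k3 k83 11
  (.s k2 k1 0 (.s k82 k242 11 (.d k161 k160 k240 0 12)))), (.s k146 k178 3 (.s k195 k65 8 (.s k97
  k48 12 (.d k227 k211 k32 3 8))))] .n) .n))))) (.c k174 (.l (.s k81 k162 12 (.s k89 k93 1 (.s k12
  k166 14 (.d k8 k4 k251 1 12))))) (.c k251 (.l (.s k162 k81 12 (.s k166 k174 1 (.s k4 k247 12 (.d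
  k12 k8 k89 1 14))))) .n))))))))))))

def t27_171 : T TT 256 :=
  (.q k89 [(.s k81 k93 1 (.s k243 k162 12 (.s k12 k166 14 (.s k8 k4 1 (.d k170 k251 k255 12 14)))))]
  (.c k4 (.q k1 [(.s k81 k93 1 (.s k241 k161 11 (.s k13 k165 13 (.s k169 k253 13 (.d k9 k5 k249 1
  11))))), (.s k3 k2 0 (.s k81 k93 1 (.s k161 k241 11 (.s k82 k240 12 (.s k83 k80 0 (.d k243 k163
  k162 11 12)))))), (.s k3 k2 0 (.s k169 k253 13 (.s k9 k249 11 (.s k12 k6 2 (.s k86 k252 14 (.s k83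
  k92 2 (.d k243 k163 k166 11 14)))))))] (.c k241 (.l (.s k3 k2 0 (.s k81 k93 1 (.s k169 k253 13 (.s
  k86 k252 14 (.s k83 k92 2 (.d k243 k163 k162 11 12))))))) .n)) (.c k8 (.l (.s k81 k93 1 (.s k243
  k162 12 (.s k166 k12 14 (.s k247 k4 12 (.d k255 k251 k170 1 14)))))) (.c k12 (.q k5 [(.s k15 k10 2
  (.s k165 k245 11 (.s k90 k240 14 (.s k95 k80 2 (.d k255 k175 k170 11 14))))), (.s k93 k81 1 (.s
  k165 k245 11 (.s k13 k241 13 (.s k1 k9 1 (.d k253 k173 k169 11 13)))))] (.c k165 (.l (.s k10 k15 2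
  (.s k170 k255 14 (.s k8 k251 12 (.s k11 k9 0 (.s k90 k250 11 (.s k88 k91 0 (.d k248 k168 k169 11
  12)))))))) (.c k245 (.l (.s k15 k10 2 (.s k81 k93 1 (.s k243 k162 12 (.s k91 k167 13 (.s k90 k88 0
  (.s k80 k95 2 (.d k240 k160 k165 11 14)))))))) .n))) (.c k81 (.q k15 [(.s k5 k10 2 (.s k165 k245
  11 (.s k90 k240 14 (.s k95 k80 2 (.d k255 k175 k170 11 14))))), (.s k5 k10 2 (.s k165 k245 11 (.s
  k13 k241 13 (.s k12 k14 0 (.s k4 k8 1 (.d k166 k247 k243 12 14)))))), (.s k170 k255 14 (.s k8 k251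
  12 (.s k12 k4 1 (.s k13 k14 0 (.s k165 k241 13 (.s k160 k175 2 (.d k240 k80 k90 11 14)))))))] (.c
  k165 (.l (.s k10 k5 2 (.s k170 k255 14 (.s k8 k251 12 (.s k11 k9 0 (.s k90 k250 11 (.s k88 k91 0
  (.d k248 k168 k169 11 12)))))))) .n)) (.c k93 (.q k15 [(.s k5 k10 2 (.s k165 k245 11 (.s k90 k240
  14 (.s k95 k80 2 (.d k255 k175 k170 11 14))))), (.s k5 k10 2 (.s k165 k245 11 (.s k13 k241 13 (.s
  k12 k14 0 (.s k4 k8 1 (.d k166 k247 k243 12 14)))))), (.s k170 k255 14 (.s k8 k251 12 (.s k12 k4 1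
  (.s k13 k14 0 (.s k165 k241 13 (.s k160 k175 2 (.d k240 k80 k90 11 14)))))))] (.c k165 (.l (.s k10
  k5 2 (.s k170 k255 14 (.s k8 k251 12 (.s k11 k9 0 (.s k90 k250 11 (.s k88 k91 0 (.d k248 k168 k169
  11 12)))))))) .n)) (.c k162 (.l (.s k93 k81 1 (.s k255 k170 14 (.s k12 k174 12 (.s k166 k243 14
  (.d k4 k8 k247 1 12)))))) (.c k166 (.q k1 [(.s k81 k93 1 (.s k241 k161 11 (.s k165 k13 13 (.s k245
  k5 11 (.d k253 k249 k169 1 13))))), (.s k3 k2 0 (.s k81 k93 1 (.s k161 k241 11 (.s k82 k240 12 (.s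
  k83 k80 0 (.d k243 k163 k162 11 12)))))), (.s k3 k2 0 (.s k169 k253 13 (.s k9 k249 11 (.s k12 k6 2
  (.s k8 k4 1 (.d k170 k251 k255 12 14))))))] (.c k241 (.l (.s k3 k2 0 (.s k81 k93 1 (.s k169 k253
  13 (.s k86 k252 14 (.s k83 k92 2 (.d k243 k163 k162 11 12))))))) .n)) (.c k170 (.q k169 [(.s k1
  k253 13 (.s k9 k249 11 (.s k13 k5 1 (.s k81 k93 1 (.d k241 k161 k165 11 13))))), (.s k81 k93 1 (.s
  k243 k162 12 (.s k249 k9 11 (.s k252 k246 2 (.s k84 k168 13 (.d k86 k87 k3 0 14)))))), (.s k1 k253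
  13 (.s k3 k2 0 (.s k81 k93 1 (.s k86 k252 14 (.s k83 k92 2 (.d k243 k163 k162 11 12)))))), (.s k1
  k253 13 (.s k3 k2 0 (.s k9 k249 11 (.s k12 k6 2 (.s k4 k8 1 (.d k166 k247 k243 12 14))))))] .n)
  (.c k174 (.l (.s k81 k93 1 (.s k243 k162 12 (.s k12 k166 14 (.s k170 k255 14 (.d k8 k4 k251 1
  12)))))) (.c k243 (.q k5 [(.s k15 k10 2 (.s k165 k245 11 (.s k90 k240 14 (.s k95 k80 2 (.d k255
  k175 k170 11 14))))), (.s k93 k81 1 (.s k165 k245 11 (.s k13 k241 13 (.s k1 k9 1 (.d k253 k173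
  k169 11 13))))), (.s k15 k10 2 (.s k93 k81 1 (.s k255 k170 14 (.s k12 k174 12 (.s k13 k14 0 (.s k1
  k9 1 (.d k253 k169 k173 13 11)))))))] .n) (.c k251 (.l (.s k93 k81 1 (.s k255 k170 14 (.s k12 k174
  12 (.s k4 k8 1 (.d k166 k247 k243 12 14)))))) (.c k255 (.q k3 [(.s k1 k2 0 (.s k93 k81 1 (.s k253
  k169 13 (.s k13 k173 11 (.s k5 k9 1 (.d k165 k245 k241 11 13)))))), (.s k81 k93 1 (.s k243 k162 12
  (.s k83 k163 11 (.s k86 k92 2 (.s k84 k87 0 (.d k252 k168 k169 13 14)))))), (.s k1 k2 0 (.s k169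
  k253 13 (.s k9 k249 11 (.s k12 k6 2 (.s k4 k8 1 (.d k166 k247 k243 12 14))))))] (.c k169 (.l (.s
  k1 k2 0 (.s k81 k93 1 (.s k161 k241 11 (.s k82 k240 12 (.s k83 k80 0 (.d k243 k163 k162 11
  12))))))) .n)) .n)))))))))))))

def t27_172 : T TT 256 :=
  (.f k255 k170 14 (.q k89 [(.s k81 k93 1 (.s k243 k162 12 (.s k247 k251 1 (.d k166 k4 k12 12
  14))))] (.c k4 (.q k1 [(.s k3 k2 0 (.s k87 k171 13 (.s k169 k253 13 (.d k86 k84 k252 0 14)))), (.s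
  k81 k93 1 (.s k169 k253 13 (.s k9 k249 11 (.s k13 k5 1 (.d k241 k161 k165 11 13))))), (.s k3 k2 0
  (.s k81 k93 1 (.s k161 k241 11 (.s k82 k240 12 (.s k83 k80 0 (.d k243 k163 k162 11 12))))))] .n)
  (.c k12 (.q k92 [(.s k86 k83 2 (.s k87 k84 0 (.s k3 k171 13 (.s k1 k2 0 (.d k169 k253 k252 13
  14))))), (.s k93 k81 1 (.s k95 k94 0 (.s k15 k175 11 (.s k5 k10 2 (.s k165 k245 11 (.d k90 k80
  k240 2 14))))))] .n) (.c k81 (.q k21 [(.s k149 k213 7 (.s k63 k42 6 (.s k106 k192 14 (.d k127 k64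
  k191 6 7)))), (.s k149 k213 7 (.s k29 k209 9 (.s k17 k25 1 (.s k51 k34 4 (.s k119 k187 9 (.s k102
  k68 4 (.d k153 k221 k204 9 14)))))))] (.c k149 (.f k63 k42 6 (.q k106 [(.d k127 k191 k64 7 6), (.s
  k123 k72 4 (.s k243 k183 9 (.s k166 k12 14 (.d k247 k251 k4 1 12))))] (.c k128 (.l (.s k191 k127 7
  (.s k123 k72 4 (.s k243 k183 9 (.s k166 k12 14 (.d k247 k251 k4 1 12)))))) (.c k191 (.q k128 [(.d
  k64 k127 k192 6 7), (.s k123 k72 4 (.s k243 k183 9 (.s k247 k251 1 (.d k166 k4 k12 12 14))))] .n)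
  .n)))) (.c k213 (.l (.s k63 k42 6 (.s k127 k191 7 (.s k106 k64 6 (.s k123 k72 4 (.s k243 k183 9
  (.s k166 k12 14 (.d k247 k251 k4 1 12)))))))) .n))) (.c k93 (.q k87 [(.s k3 k171 13 (.s k1 k2 0
  (.s k86 k84 0 (.d k169 k253 k252 13 14)))), (.s k86 k84 0 (.s k83 k92 2 (.s k95 k91 1 (.s k15 k175
  11 (.s k5 k10 2 (.s k165 k245 11 (.d k90 k80 k240 2 14))))))), (.s k3 k171 13 (.s k1 k2 0 (.s k169
  k253 13 (.s k9 k249 11 (.s k12 k6 2 (.s k4 k8 1 (.d k166 k247 k243 12 14)))))))] (.c k86 (.f k3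
  k171 13 (.q k169 [(.d k1 k2 k253 0 13), (.s k9 k249 11 (.s k12 k6 2 (.s k4 k8 1 (.d k166 k247 k243
  12 14))))] (.c k2 (.q k254 [(.d k253 k252 k1 0 13), (.s k9 k249 11 (.s k12 k6 2 (.s k4 k8 1 (.d
  k166 k247 k243 12 14))))] .n) (.c k254 (.l (.s k2 k1 0 (.s k9 k249 11 (.s k12 k6 2 (.s k4 k8 1 (.d
  k166 k247 k243 12 14)))))) .n)))) .n)) (.c k162 (.l (.s k93 k81 1 (.s k12 k174 12 (.s k166 k243 14
  (.d k4 k8 k247 1 12))))) (.c k166 (.f k81 k93 1 (.f k162 k243 12 (.q k87 [(.s k3 k171 13 (.s k1 k2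
  0 (.s k86 k84 0 (.d k169 k253 k252 13 14)))), (.s k86 k84 0 (.s k83 k92 2 (.s k80 k82 0 (.d k95
  k91 k90 1 2)))), (.s k3 k171 13 (.s k2 k1 0 (.s k82 k242 11 (.s k80 k83 0 (.d k240 k160 k161 11
  12)))))] (.c k163 (.q k169 [(.s k1 k253 13 (.d k3 k2 k171 0 13)), (.s k3 k171 13 (.d k86 k84 k252
  0 14))] (.c k3 (.q k83 [(.d k86 k84 k92 0 2), (.s k80 k82 0 (.d k95 k91 k90 1 2))] .n) (.c k83 (.l
  (.s k3 k171 13 (.d k1 k2 k253 0 13))) (.c k171 (.l (.s k1 k253 13 (.s k3 k2 0 (.d k86 k84 k252 0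
  14)))) .n)))) (.c k169 (.q k163 [(.s k161 k160 0 (.s k1 k241 11 (.d k3 k171 k2 13 0))), (.s k86
  k84 0 (.s k83 k92 2 (.s k80 k82 0 (.d k95 k91 k90 1 2))))] (.c k168 (.l (.s k171 k3 13 (.s k86 k84
  0 (.s k83 k92 2 (.s k80 k82 0 (.d k95 k91 k90 1 2)))))) (.c k171 (.q k168 [(.d k84 k86 k252 0 13),
  (.s k160 k161 0 (.s k80 k240 11 (.s k95 k90 2 (.d k83 k82 k91 0 1))))] .n) .n))) .n))))) (.c k174
  (.l (.s k81 k93 1 (.s k243 k162 12 (.s k166 k12 14 (.d k247 k251 k4 1 12))))) (.c k243 (.q k1 [(.s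
  k3 k2 0 (.s k87 k171 13 (.s k86 k84 0 (.d k169 k253 k252 13 14)))), (.s k81 k93 1 (.s k169 k253 13
  (.s k9 k249 11 (.s k13 k5 1 (.d k241 k161 k165 11 13))))), (.s k3 k2 0 (.s k93 k81 1 (.s k12 k174
  12 (.s k8 k4 1 (.s k9 k6 2 (.s k5 k13 1 (.d k10 k11 k15 0 2)))))))] .n) (.c k247 (.q k1 [(.s k3 k2
  0 (.s k87 k171 13 (.s k86 k84 0 (.d k169 k253 k252 13 14)))), (.s k81 k93 1 (.s k169 k253 13 (.s
  k9 k249 11 (.s k13 k5 1 (.d k241 k161 k165 11 13))))), (.s k3 k2 0 (.s k81 k93 1 (.s k161 k241 11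
  (.s k82 k240 12 (.s k83 k80 0 (.d k243 k163 k162 11 12))))))] .n) (.c k251 (.l (.s k93 k81 1 (.s
  k12 k174 12 (.s k4 k8 1 (.d k166 k247 k243 12 14))))) .n))))))))))))

def t27_173 : T TT 256 :=
  (.f k255 k170 14 (.q k89 [(.s k81 k93 1 (.s k243 k162 12 (.s k166 k12 14 (.d k247 k251 k4 1
  12)))), (.s k93 k81 1 (.s k12 k174 12 (.s k4 k8 1 (.d k166 k247 k243 12 14))))] (.c k4 (.q k1 [(.s
  k3 k2 0 (.s k87 k171 13 (.s k86 k84 0 (.d k169 k253 k252 13 14)))), (.s k81 k93 1 (.s k241 k161 11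
  (.s k13 k165 13 (.s k169 k253 13 (.d k9 k5 k249 1 11)))))] (.c k169 (.l (.s k3 k2 0 (.s k81 k93 1
  (.s k161 k241 11 (.s k82 k240 12 (.s k83 k80 0 (.d k243 k163 k162 11 12))))))) (.c k253 (.l (.s k3
  k2 0 (.s k87 k171 13 (.s k86 k84 0 (.s k83 k92 2 (.s k243 k163 11 (.d k81 k93 k162 1 12)))))))
  .n))) (.c k12 (.q k1 [(.s k3 k2 0 (.s k87 k171 13 (.s k86 k84 0 (.d k169 k253 k252 13 14)))), (.s
  k81 k93 1 (.s k241 k161 11 (.s k13 k165 13 (.s k169 k253 13 (.d k9 k5 k249 1 11)))))] (.c k169 (.l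
  (.s k3 k2 0 (.s k81 k93 1 (.s k161 k241 11 (.s k82 k240 12 (.s k83 k80 0 (.d k243 k163 k162 11
  12))))))) (.c k253 (.l (.s k3 k2 0 (.s k87 k171 13 (.s k86 k84 0 (.s k83 k92 2 (.s k243 k163 11
  (.d k81 k93 k162 1 12))))))) .n))) (.c k81 (.q k21 [(.s k149 k213 7 (.s k63 k42 6 (.s k106 k192 14
  (.d k127 k64 k191 6 7)))), (.s k149 k213 7 (.s k29 k209 9 (.s k17 k25 1 (.s k51 k34 4 (.s k119
  k187 9 (.s k102 k68 4 (.d k153 k221 k204 9 14)))))))] (.c k149 (.f k63 k42 6 (.q k106 [(.d k127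
  k191 k64 7 6), (.s k123 k72 4 (.s k243 k183 9 (.s k166 k12 14 (.d k247 k251 k4 1 12))))] (.c k128
  (.l (.s k191 k127 7 (.s k123 k72 4 (.s k243 k183 9 (.s k166 k12 14 (.d k247 k251 k4 1 12)))))) (.c
  k191 (.q k128 [(.d k64 k127 k192 6 7), (.s k123 k72 4 (.s k243 k183 9 (.s k247 k251 1 (.d k166 k4
  k12 12 14))))] .n) .n)))) (.c k213 (.l (.s k63 k42 6 (.s k127 k191 7 (.s k106 k64 6 (.s k123 k72 4
  (.s k243 k183 9 (.s k166 k12 14 (.d k247 k251 k4 1 12)))))))) .n))) (.c k93 (.q k169 [(.s k253 k1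
  13 (.s k252 k254 0 (.s k84 k168 13 (.d k86 k87 k3 0 14)))), (.s k249 k9 11 (.s k253 k1 13 (.s k245
  k241 1 (.s k240 k250 2 (.s k80 k160 11 (.s k90 k95 2 (.d k165 k5 k15 11 14)))))))] (.c k1 (.q k253
  [(.s k252 k254 0 (.s k84 k168 13 (.d k86 k87 k3 0 14))), (.s k249 k9 11 (.s k245 k241 1 (.s k240
  k250 2 (.s k80 k160 11 (.s k90 k95 2 (.d k165 k5 k15 11 14))))))] .n) (.c k13 (.l (.s k253 k1 13
  (.s k252 k254 0 (.s k84 k168 13 (.d k86 k87 k3 0 14))))) (.c k253 (.q k13 [(.s k9 k249 11 (.s k5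
  k1 1 (.d k165 k245 k241 11 13))), (.s k165 k241 13 (.s k245 k5 11 (.s k240 k250 2 (.s k80 k160 11
  (.d k90 k95 k15 2 14)))))] (.c k5 (.q k1 [(.s k3 k2 0 (.s k87 k171 13 (.d k86 k84 k252 0 14))),
  (.s k241 k165 13 (.s k81 k161 11 (.s k243 k162 12 (.s k166 k12 14 (.d k247 k251 k4 1 12)))))] .n)
  (.c k165 (.l (.s k9 k249 11 (.s k1 k5 1 (.s k3 k2 0 (.s k86 k252 14 (.d k87 k84 k171 0 13))))))
  (.c k241 (.q k5 [(.d k9 k249 k1 11 1), (.s k15 k10 2 (.s k12 k14 0 (.s k166 k243 14 (.d k4 k8 k247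
  1 12))))] (.c k245 (.l (.s k249 k9 11 (.s k15 k10 2 (.s k12 k14 0 (.s k166 k243 14 (.d k4 k8 k247
  1 12)))))) (.c k249 (.l (.s k245 k165 11 (.s k1 k9 1 (.s k3 k2 0 (.s k86 k252 14 (.d k87 k84 k171
  0 13)))))) .n))) (.c k245 (.l (.s k9 k249 11 (.s k241 k165 13 (.s k1 k5 1 (.s k3 k2 0 (.s k86 k252
  14 (.d k87 k84 k171 0 13))))))) (.c k249 (.l (.s k165 k241 13 (.s k245 k5 11 (.s k240 k250 2 (.s
  k80 k160 11 (.d k90 k95 k15 2 14)))))) .n)))))) .n)))) (.c k162 (.l (.s k93 k81 1 (.s k12 k174 12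
  (.s k166 k243 14 (.d k4 k8 k247 1 12))))) (.c k166 (.f k81 k93 1 (.f k162 k243 12 (.q k1 [(.s k3
  k2 0 (.s k87 k171 13 (.s k86 k84 0 (.d k169 k253 k252 13 14)))), (.s k241 k161 11 (.s k13 k165 13
  (.s k169 k253 13 (.d k9 k5 k249 1 11))))] (.c k13 (.l (.s k253 k169 13 (.s k3 k2 0 (.s k161 k241
  11 (.s k240 k82 12 (.d k160 k163 k80 0 11)))))) (.c k169 (.l (.s k3 k2 0 (.s k161 k241 11 (.s k240
  k82 12 (.d k160 k163 k80 0 11))))) (.c k253 (.q k13 [(.d k241 k161 k165 11 13), (.s k3 k2 0 (.s k9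
  k5 1 (.s k87 k171 13 (.s k86 k84 0 (.d k169 k249 k252 11 14)))))] .n) .n)))))) (.c k174 (.l (.s
  k81 k93 1 (.s k243 k162 12 (.s k166 k12 14 (.d k247 k251 k4 1 12))))) (.c k243 (.q k1 [(.s k3 k2 0
  (.s k87 k171 13 (.s k86 k84 0 (.d k169 k253 k252 13 14)))), (.s k81 k93 1 (.s k241 k161 11 (.s k13
  k165 13 (.s k169 k253 13 (.d k9 k5 k249 1 11))))), (.s k3 k2 0 (.s k93 k81 1 (.s k12 k174 12 (.s
  k8 k4 1 (.s k9 k6 2 (.s k5 k13 1 (.d k10 k11 k15 0 2)))))))] .n) (.c k247 (.q k1 [(.s k3 k2 0 (.s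
  k87 k171 13 (.s k86 k84 0 (.d k169 k253 k252 13 14)))), (.s k81 k93 1 (.s k241 k161 11 (.s k13
  k165 13 (.s k169 k253 13 (.d k9 k5 k249 1 11)))))] (.c k169 (.l (.s k3 k2 0 (.s k81 k93 1 (.s k161
  k241 11 (.s k82 k240 12 (.s k83 k80 0 (.d k243 k163 k162 11 12))))))) (.c k253 (.l (.s k3 k2 0 (.s
  k87 k171 13 (.s k86 k84 0 (.s k83 k92 2 (.s k243 k163 11 (.d k81 k93 k162 1 12))))))) .n)))
  .n)))))))))))

def t27_174 : T TT 256 :=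
  (.q k86 [(.s k84 k87 0 (.s k252 k168 13 (.s k169 k3 14 (.s k253 k1 13 (.d k255 k254 k170 0
  14)))))] (.c k1 (.q k4 [(.s k84 k87 0 (.s k244 k164 11 (.s k7 k165 12 (.s k166 k247 12 (.d k6 k5
  k246 0 11))))), (.s k12 k8 1 (.s k84 k87 0 (.s k164 k244 11 (.s k88 k240 13 (.s k92 k80 1 (.d k252
  k172 k168 11 13)))))), (.s k12 k8 1 (.s k166 k247 12 (.s k6 k246 11 (.s k3 k9 2 (.s k89 k243 14
  (.s k92 k83 2 (.d k252 k172 k169 11 14)))))))] (.c k244 (.l (.s k12 k8 1 (.s k84 k87 0 (.s k166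
  k247 12 (.s k89 k243 14 (.s k92 k83 2 (.d k252 k172 k168 11 13))))))) .n)) (.c k3 (.q k5 [(.s k15
  k10 2 (.s k165 k245 11 (.s k90 k240 14 (.s k95 k80 2 (.d k255 k175 k170 11 14))))), (.s k87 k84 0
  (.s k165 k245 11 (.s k7 k244 12 (.s k4 k6 0 (.d k247 k167 k166 11 12)))))] (.c k165 (.l (.s k10
  k15 2 (.s k170 k255 14 (.s k2 k254 13 (.s k14 k6 1 (.s k90 k250 11 (.s k82 k94 1 (.d k242 k162
  k166 11 13)))))))) (.c k245 (.l (.s k15 k10 2 (.s k84 k87 0 (.s k252 k168 13 (.s k94 k173 12 (.s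
  k90 k82 1 (.s k80 k95 2 (.d k240 k160 k165 11 14)))))))) .n))) (.c k84 (.q k15 [(.s k5 k10 2 (.s
  k165 k245 11 (.s k90 k240 14 (.s k95 k80 2 (.d k255 k175 k170 11 14))))), (.s k5 k10 2 (.s k165
  k245 11 (.s k7 k244 12 (.s k3 k11 1 (.s k1 k2 0 (.d k169 k253 k252 13 14)))))), (.s k170 k255 14
  (.s k2 k254 13 (.s k3 k1 0 (.s k7 k11 1 (.s k165 k244 12 (.s k160 k175 2 (.d k240 k80 k90 11
  14)))))))] (.c k165 (.l (.s k10 k5 2 (.s k170 k255 14 (.s k2 k254 13 (.s k3 k1 0 (.s k11 k7 1 (.s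
  k9 k8 0 (.d k6 k14 k12 1 2)))))))) .n)) (.c k87 (.q k15 [(.s k5 k10 2 (.s k165 k245 11 (.s k90
  k240 14 (.s k95 k80 2 (.d k255 k175 k170 11 14))))), (.s k5 k10 2 (.s k165 k245 11 (.s k7 k244 12
  (.s k3 k11 1 (.s k1 k2 0 (.d k169 k253 k252 13 14)))))), (.s k170 k255 14 (.s k2 k254 13 (.s k3 k1
  0 (.s k7 k11 1 (.s k165 k244 12 (.s k160 k175 2 (.d k240 k80 k90 11 14)))))))] (.c k165 (.l (.s
  k10 k5 2 (.s k170 k255 14 (.s k2 k254 13 (.s k3 k1 0 (.s k11 k7 1 (.s k9 k8 0 (.d k6 k14 k12 1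
  2)))))))) .n)) (.c k168 (.l (.s k87 k84 0 (.s k255 k170 14 (.s k3 k171 13 (.s k169 k252 14 (.d k1
  k2 k253 0 13)))))) (.c k169 (.q k4 [(.s k84 k87 0 (.s k244 k164 11 (.s k165 k7 12 (.s k245 k5 11
  (.d k247 k246 k166 0 12))))), (.s k12 k8 1 (.s k84 k87 0 (.s k164 k244 11 (.s k88 k240 13 (.s k92
  k80 1 (.d k252 k172 k168 11 13)))))), (.s k12 k8 1 (.s k166 k247 12 (.s k6 k246 11 (.s k3 k9 2 (.s
  k2 k1 0 (.d k170 k254 k255 13 14))))))] (.c k244 (.l (.s k12 k8 1 (.s k84 k87 0 (.s k166 k247 12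
  (.s k89 k243 14 (.s k92 k83 2 (.d k252 k172 k168 11 13))))))) .n)) (.c k170 (.q k166 [(.s k4 k247
  12 (.s k6 k246 11 (.s k7 k5 0 (.s k84 k87 0 (.d k244 k164 k165 11 12))))), (.s k84 k87 0 (.s k246
  k6 11 (.s k252 k168 13 (.s k243 k249 2 (.s k81 k162 12 (.d k89 k93 k12 1 14)))))), (.s k4 k247 12
  (.s k12 k8 1 (.s k84 k87 0 (.s k89 k243 14 (.s k92 k83 2 (.d k252 k172 k168 11 13)))))), (.s k4
  k247 12 (.s k6 k246 11 (.s k12 k8 1 (.s k3 k9 2 (.s k1 k2 0 (.d k169 k253 k252 13 14))))))] .n)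
  (.c k171 (.l (.s k84 k87 0 (.s k252 k168 13 (.s k3 k169 14 (.s k170 k255 14 (.d k2 k1 k254 0
  13)))))) (.c k252 (.q k5 [(.s k15 k10 2 (.s k165 k245 11 (.s k90 k240 14 (.s k95 k80 2 (.d k255
  k175 k170 11 14))))), (.s k87 k84 0 (.s k165 k245 11 (.s k7 k244 12 (.s k4 k6 0 (.d k247 k167 k166
  11 12))))), (.s k15 k10 2 (.s k87 k84 0 (.s k255 k170 14 (.s k3 k171 13 (.s k7 k11 1 (.s k4 k6 0
  (.d k247 k166 k167 12 11)))))))] .n) (.c k253 (.l (.s k84 k87 0 (.s k170 k255 14 (.s k2 k254 13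
  (.s k252 k168 13 (.d k3 k1 k169 0 14)))))) (.c k254 (.l (.s k87 k84 0 (.s k255 k170 14 (.s k3 k171
  13 (.s k1 k2 0 (.d k169 k253 k252 13 14)))))) (.c k255 (.q k12 [(.s k4 k8 1 (.s k87 k84 0 (.s k247
  k166 12 (.s k7 k167 11 (.s k5 k6 0 (.d k165 k245 k244 11 12)))))), (.s k84 k87 0 (.s k252 k168 13
  (.s k92 k172 11 (.s k89 k83 2 (.s k81 k93 1 (.d k243 k162 k166 12 14)))))), (.s k4 k8 1 (.s k166
  k247 12 (.s k6 k246 11 (.s k3 k9 2 (.s k1 k2 0 (.d k169 k253 k252 13 14))))))] (.c k166 (.l (.s k4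
  k8 1 (.s k84 k87 0 (.s k164 k244 11 (.s k88 k240 13 (.s k92 k80 1 (.d k252 k172 k168 11 13)))))))
  .n)) .n)))))))))))))

def t27_175 : T TT 256 :=
  (.q k86 [(.s k84 k87 0 (.s k252 k168 13 (.s k169 k3 14 (.s k253 k1 13 (.d k255 k254 k170 0
  14)))))] (.c k1 (.q k4 [(.s k12 k8 1 (.s k166 k247 12 (.s k89 k243 14 (.s k93 k81 1 (.d k255 k174
  k170 12 14))))), (.s k84 k87 0 (.s k166 k247 12 (.s k6 k246 11 (.s k7 k5 0 (.d k244 k164 k165 11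
  12))))), (.s k12 k8 1 (.s k84 k87 0 (.s k164 k244 11 (.s k88 k240 13 (.s k92 k80 1 (.d k252 k172
  k168 11 13))))))] .n) (.c k3 (.q k4 [(.s k12 k8 1 (.s k166 k247 12 (.s k89 k243 14 (.s k93 k81 1
  (.d k255 k174 k170 12 14))))), (.s k84 k87 0 (.s k166 k247 12 (.s k6 k246 11 (.s k7 k5 0 (.d k244
  k164 k165 11 12))))), (.s k12 k8 1 (.s k84 k87 0 (.s k164 k244 11 (.s k88 k240 13 (.s k92 k80 1
  (.d k252 k172 k168 11 13))))))] (.c k255 (.l (.s k87 k84 0 (.s k247 k166 12 (.s k7 k167 11 (.s k5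
  k6 0 (.d k165 k245 k244 11 12)))))) .n)) (.c k84 (.q k4 [(.s k12 k8 1 (.s k166 k247 12 (.s k89
  k243 14 (.s k93 k81 1 (.d k255 k174 k170 12 14))))), (.s k12 k8 1 (.s k166 k247 12 (.s k6 k246 11
  (.s k3 k9 2 (.s k1 k2 0 (.d k169 k253 k252 13 14)))))), (.s k166 k247 12 (.s k6 k246 11 (.s k5 k7
  0 (.s k170 k255 14 (.s k2 k254 13 (.d k10 k15 k14 2 1)))))), (.s k12 k8 1 (.s k170 k255 14 (.s k2
  k254 13 (.s k3 k1 0 (.s k6 k9 2 (.s k5 k7 0 (.d k10 k15 k14 2 1)))))))] .n) (.c k87 (.q k4 [(.s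
  k12 k8 1 (.s k166 k247 12 (.s k89 k243 14 (.s k93 k81 1 (.d k255 k174 k170 12 14))))), (.s k12 k8
  1 (.s k166 k247 12 (.s k6 k246 11 (.s k3 k9 2 (.s k1 k2 0 (.d k169 k253 k252 13 14)))))), (.s k12
  k8 1 (.s k170 k255 14 (.s k2 k254 13 (.s k3 k1 0 (.s k6 k9 2 (.s k10 k14 1 (.d k5 k15 k7 2
  0))))))), (.s k166 k247 12 (.s k6 k246 11 (.s k170 k255 14 (.s k2 k254 13 (.s k10 k14 1 (.d k5 k7
  k15 0 2))))))] (.c k7 (.l (.s k12 k8 1 (.s k255 k170 14 (.s k93 k174 12 (.s k89 k81 1 (.d k166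
  k247 k243 12 14)))))) .n)) (.c k168 (.l (.s k87 k84 0 (.s k255 k170 14 (.s k3 k171 13 (.s k169
  k252 14 (.d k1 k2 k253 0 13)))))) (.c k169 (.q k4 [(.s k12 k8 1 (.s k166 k247 12 (.s k89 k243 14
  (.s k93 k81 1 (.d k255 k174 k170 12 14))))), (.s k84 k87 0 (.s k166 k247 12 (.s k6 k246 11 (.s k7
  k5 0 (.d k244 k164 k165 11 12))))), (.s k12 k8 1 (.s k84 k87 0 (.s k164 k244 11 (.s k88 k240 13
  (.s k92 k80 1 (.d k252 k172 k168 11 13))))))] .n) (.c k170 (.q k165 [(.s k5 k245 11 (.s k7 k244 12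
  (.s k4 k6 0 (.s k87 k84 0 (.d k247 k167 k166 11 12))))), (.s k5 k245 11 (.s k15 k10 2 (.s k84 k87
  0 (.s k90 k240 14 (.s k94 k82 1 (.d k252 k173 k168 12 13)))))), (.s k5 k245 11 (.s k7 k244 12 (.s
  k15 k10 2 (.s k3 k11 1 (.s k1 k2 0 (.d k169 k253 k252 13 14)))))), (.s k84 k87 0 (.s k244 k7 12
  (.s k252 k168 13 (.s k240 k248 1 (.s k80 k160 11 (.d k90 k95 k15 2 14))))))] .n) (.c k171 (.l (.s
  k84 k87 0 (.s k252 k168 13 (.s k3 k169 14 (.s k170 k255 14 (.d k2 k1 k254 0 13)))))) (.c k252 (.q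
  k8 [(.s k12 k4 1 (.s k170 k255 14 (.s k89 k251 12 (.s k81 k93 1 (.d k243 k162 k166 12 14))))), (.s
  k4 k12 1 (.s k84 k87 0 (.s k166 k247 12 (.s k6 k246 11 (.s k7 k5 0 (.d k244 k164 k165 11 12)))))),
  (.s k84 k87 0 (.s k170 k255 14 (.s k89 k251 12 (.s k92 k83 2 (.s k80 k88 1 (.s k93 k81 1 (.d k95
  k94 k90 0 2)))))))] (.c k243 (.l (.s k4 k12 1 (.s k84 k87 0 (.s k166 k247 12 (.s k244 k164 11 (.s
  k7 k165 12 (.d k6 k5 k246 0 11))))))) (.c k247 (.l (.s k12 k4 1 (.s k170 k255 14 (.s k89 k251 12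
  (.s k243 k166 14 (.d k81 k93 k162 1 12)))))) .n))) (.c k253 (.l (.s k84 k87 0 (.s k170 k255 14 (.s
  k2 k254 13 (.s k252 k168 13 (.d k3 k1 k169 0 14)))))) (.c k254 (.l (.s k87 k84 0 (.s k255 k170 14
  (.s k3 k171 13 (.s k1 k2 0 (.d k169 k253 k252 13 14)))))) (.c k255 (.q k15 [(.s k5 k10 2 (.s k84
  k87 0 (.s k165 k245 11 (.s k252 k168 13 (.s k94 k173 12 (.d k90 k240 k82 14 1)))))), (.s k5 k10 2
  (.s k87 k84 0 (.s k165 k245 11 (.s k7 k244 12 (.s k4 k6 0 (.d k247 k167 k166 11 12)))))), (.s k84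
  k87 0 (.s k252 k168 13 (.s k94 k173 12 (.s k90 k82 1 (.s k80 k95 2 (.d k240 k160 k165 11 14)))))),
  (.s k5 k10 2 (.s k165 k245 11 (.s k7 k244 12 (.s k3 k11 1 (.s k1 k2 0 (.d k169 k253 k252 13
  14))))))] (.c k165 (.f k5 k10 2 (.l (.s k84 k87 0 (.s k252 k168 13 (.s k3 k169 14 (.s k1 k2 0 (.s
  k7 k11 1 (.s k6 k4 0 (.d k9 k13 k12 1 2))))))))) (.c k240 (.l (.s k5 k10 2 (.s k84 k87 0 (.s k252
  k168 13 (.s k3 k169 14 (.s k7 k11 1 (.d k165 k245 k244 11 12))))))) .n))) .n)))))))))))))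

def t27_177 : T TT 256 :=
  (.f k255 k170 14 (.q k89 [(.s k81 k93 1 (.s k243 k162 12 (.s k166 k12 14 (.d k247 k251 k4 1
  12))))] (.c k4 (.q k1 [(.s k169 k253 13 (.s k3 k2 0 (.s k86 k252 14 (.d k87 k84 k171 0 13)))), (.s
  k81 k93 1 (.s k169 k253 13 (.s k9 k249 11 (.s k13 k5 1 (.d k241 k161 k165 11 13))))), (.s k3 k2 0
  (.s k81 k93 1 (.s k161 k241 11 (.s k82 k240 12 (.s k83 k80 0 (.d k243 k163 k162 11 12))))))] .n)
  (.c k12 (.q k1 [(.s k3 k2 0 (.s k87 k171 13 (.s k86 k84 0 (.d k169 k253 k252 13 14)))), (.s k81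
  k93 1 (.s k169 k253 13 (.s k9 k249 11 (.s k13 k5 1 (.d k241 k161 k165 11 13))))), (.s k3 k2 0 (.s
  k81 k93 1 (.s k161 k241 11 (.s k82 k240 12 (.s k83 k80 0 (.d k243 k163 k162 11 12))))))] .n) (.c
  k81 (.q k87 [(.s k86 k84 0 (.s k3 k171 13 (.s k169 k252 14 (.d k1 k2 k253 0 13)))), (.s k86 k84 0
  (.s k83 k92 2 (.s k95 k91 1 (.s k15 k175 11 (.s k5 k10 2 (.s k165 k245 11 (.d k90 k80 k240 2
  14)))))))] (.c k84 (.l (.s k3 k171 13 (.s k1 k2 0 (.s k169 k253 13 (.s k9 k249 11 (.s k12 k6 2 (.s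
  k4 k8 1 (.d k166 k247 k243 12 14)))))))) (.c k86 (.f k3 k171 13 (.q k169 [(.d k1 k2 k253 0 13),
  (.s k9 k249 11 (.s k12 k6 2 (.s k4 k8 1 (.d k166 k247 k243 12 14))))] (.c k2 (.q k254 [(.d k253
  k252 k1 0 13), (.s k9 k249 11 (.s k12 k6 2 (.s k4 k8 1 (.d k166 k247 k243 12 14))))] .n) (.c k254
  (.l (.s k2 k1 0 (.s k9 k249 11 (.s k12 k6 2 (.s k4 k8 1 (.d k166 k247 k243 12 14)))))) .n))))
  .n))) (.c k93 (.q k21 [(.s k149 k213 7 (.s k63 k42 6 (.s k106 k192 14 (.d k127 k64 k191 6 7)))),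
  (.s k149 k213 7 (.s k29 k209 9 (.s k17 k25 1 (.s k51 k34 4 (.s k119 k187 9 (.s k102 k68 4 (.d k153
  k221 k204 9 14)))))))] (.c k149 (.f k63 k42 6 (.q k106 [(.d k127 k191 k64 7 6), (.s k123 k72 4 (.s
  k243 k183 9 (.s k166 k12 14 (.d k247 k251 k4 1 12))))] (.c k128 (.l (.s k191 k127 7 (.s k123 k72 4
  (.s k243 k183 9 (.s k166 k12 14 (.d k247 k251 k4 1 12)))))) (.c k191 (.q k128 [(.d k64 k127 k192 6
  7), (.s k123 k72 4 (.s k243 k183 9 (.s k247 k251 1 (.d k166 k4 k12 12 14))))] .n) .n)))) (.c k213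
  (.l (.s k63 k42 6 (.s k127 k191 7 (.s k106 k64 6 (.s k123 k72 4 (.s k243 k183 9 (.s k166 k12 14
  (.d k247 k251 k4 1 12)))))))) .n))) (.c k162 (.l (.s k93 k81 1 (.s k12 k174 12 (.s k166 k243 14
  (.d k4 k8 k247 1 12))))) (.c k166 (.f k81 k93 1 (.q k83 [(.s k80 k82 0 (.s k86 k92 2 (.s k87 k84 0
  (.d k95 k91 k90 1 2)))), (.s k80 k82 0 (.s k240 k160 11 (.s k245 k250 2 (.s k165 k5 11 (.s k241
  k13 13 (.d k243 k162 k242 12 0)))))), (.s k86 k92 2 (.s k84 k87 0 (.s k252 k168 13 (.s k169 k3 14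
  (.d k253 k254 k1 0 13)))))] (.c k162 (.q k174 [(.s k80 k82 0 (.s k86 k92 2 (.s k87 k84 0 (.d k95
  k91 k90 1 2)))), (.s k86 k92 2 (.s k84 k87 0 (.s k252 k168 13 (.s k169 k3 14 (.d k253 k254 k1 0
  13))))), (.s k80 k82 0 (.s k240 k160 11 (.s k245 k250 2 (.s k165 k5 11 (.d k90 k95 k15 2 14)))))]
  (.c k95 (.l (.s k82 k80 0 (.s k86 k92 2 (.s k94 k90 1 (.s k84 k87 0 (.s k252 k168 13 (.d k254 k14
  k253 11 0))))))) .n)) (.c k174 (.l (.s k162 k243 12 (.s k80 k82 0 (.s k86 k92 2 (.s k87 k84 0 (.d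
  k95 k91 k90 1 2)))))) .n)))) (.c k174 (.l (.s k81 k93 1 (.s k243 k162 12 (.s k166 k12 14 (.d k247
  k251 k4 1 12))))) (.c k243 (.q k1 [(.s k3 k2 0 (.s k87 k171 13 (.s k86 k84 0 (.d k169 k253 k252 13
  14)))), (.s k81 k93 1 (.s k169 k253 13 (.s k9 k249 11 (.s k13 k5 1 (.d k241 k161 k165 11 13))))),
  (.s k3 k2 0 (.s k93 k81 1 (.s k12 k174 12 (.s k8 k4 1 (.s k9 k6 2 (.s k5 k13 1 (.d k10 k11 k15 0
  2)))))))] .n) (.c k247 (.q k1 [(.s k169 k253 13 (.s k3 k2 0 (.s k86 k252 14 (.d k87 k84 k171 0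
  13)))), (.s k81 k93 1 (.s k169 k253 13 (.s k9 k249 11 (.s k13 k5 1 (.d k241 k161 k165 11 13))))),
  (.s k3 k2 0 (.s k81 k93 1 (.s k161 k241 11 (.s k82 k240 12 (.s k83 k80 0 (.d k243 k163 k162 11
  12))))))] .n) (.c k251 (.l (.s k93 k81 1 (.s k12 k174 12 (.s k4 k8 1 (.d k166 k247 k243 12 14)))))
  .n))))))))))))

def t27_178 : T TT 256 :=
  (.f k255 k170 14 (.q k106 [(.s k64 k127 6 (.s k192 k128 7 (.s k149 k63 14 (.d k213 k234 k21 6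
  7))))] (.c k21 (.q k1 [(.s k169 k253 13 (.s k3 k2 0 (.s k86 k252 14 (.d k87 k84 k171 0 13)))), (.s
  k64 k127 6 (.s k192 k128 7 (.s k213 k234 6 (.s k253 k169 13 (.s k193 k233 5 (.s k65 k129 7 (.d
  k195 k130 k194 8 0))))))), (.s k3 k2 0 (.s k64 k127 6 (.s k192 k128 7 (.s k66 k129 8 (.s k86 k126
  5 (.d k87 k84 k171 0 13))))))] (.c k171 (.l (.s k3 k2 0 (.s k127 k64 6 (.s k63 k191 7 (.s k43 k23
  5 (.d k169 k232 k253 8 13)))))) .n)) (.c k63 (.q k1 [(.s k3 k2 0 (.s k87 k171 13 (.s k86 k84 0 (.d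
  k169 k253 k252 13 14)))), (.s k64 k127 6 (.s k192 k128 7 (.s k213 k234 6 (.s k253 k169 13 (.s k193
  k233 5 (.s k65 k129 7 (.d k195 k130 k194 8 0))))))), (.s k3 k2 0 (.s k64 k127 6 (.s k192 k128 7
  (.s k66 k129 8 (.s k86 k126 5 (.d k87 k84 k171 0 13))))))] (.c k171 (.l (.s k3 k2 0 (.s k64 k127 6
  (.s k169 k253 13 (.s k86 k252 14 (.s k192 k128 7 (.d k66 k126 k129 5 8))))))) .n)) (.c k64 (.q k3
  [(.s k1 k2 0 (.s k87 k171 13 (.s k169 k253 13 (.d k86 k84 k252 0 14)))), (.s k1 k2 0 (.s k169 k253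
  13 (.s k43 k232 8 (.s k63 k23 5 (.s k21 k42 6 (.d k149 k213 k192 7 14)))))), (.s k87 k171 13 (.s
  k86 k84 0 (.s k66 k126 5 (.s k192 k129 8 (.s k149 k63 14 (.d k213 k234 k21 6 7))))))] (.c k86 (.f
  k87 k171 13 (.q k169 [(.d k1 k2 k253 0 13), (.s k43 k232 8 (.s k63 k23 5 (.s k21 k42 6 (.d k149
  k213 k192 7 14))))] (.c k2 (.q k254 [(.d k253 k252 k1 0 13), (.s k43 k232 8 (.s k63 k23 5 (.s k21
  k42 6 (.d k149 k213 k192 7 14))))] .n) (.c k254 (.l (.s k2 k1 0 (.s k43 k232 8 (.s k63 k23 5 (.s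
  k21 k42 6 (.d k149 k213 k192 7 14)))))) .n)))) (.c k169 (.q k66 [(.s k86 k126 5 (.d k87 k171 k84
  13 0)), (.s k192 k129 8 (.s k149 k63 14 (.d k213 k234 k21 6 7)))] (.c k168 (.l (.s k171 k87 13 (.s
  k192 k129 8 (.s k149 k63 14 (.d k213 k234 k21 6 7))))) (.c k171 (.q k168 [(.s k84 k252 13 (.d k86
  k87 k126 0 5)), (.s k192 k129 8 (.s k149 k63 14 (.d k213 k234 k21 6 7)))] .n) .n))) .n))) (.c k127
  (.q k195 [(.s k215 k235 5 (.s k150 k20 8 (.s k105 k60 14 (.d k65 k125 k130 5 8)))), (.s k65 k130 8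
  (.s k105 k125 5 (.s k107 k104 0 (.s k63 k151 13 (.s k21 k42 6 (.d k149 k213 k192 7 14)))))), (.s
  k215 k235 5 (.s k150 k20 8 (.s k194 k62 13 (.s k192 k193 0 (.s k149 k63 14 (.d k213 k234 k21 6
  7))))))] (.c k105 (.q k149 [(.s k21 k213 7 (.d k63 k42 k192 6 14)), (.s k63 k192 14 (.s k151 k107
  13 (.s k150 k148 0 (.d k215 k235 k20 5 8))))] (.c k40 (.l (.s k235 k215 5 (.s k21 k213 7 (.d k63
  k42 k192 6 14)))) (.c k63 (.l (.s k213 k21 7 (.s k192 k234 6 (.s k194 k193 0 (.s k150 k62 13 (.d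
  k215 k235 k20 5 8)))))) (.c k192 (.l (.s k21 k213 7 (.s k63 k42 6 (.s k151 k107 13 (.s k150 k148 0
  (.d k215 k235 k20 5 8)))))) (.c k235 (.q k40 [(.s k21 k213 7 (.d k63 k42 k192 6 14)), (.s k20 k60
  5 (.s k63 k192 14 (.s k150 k215 8 (.d k151 k148 k107 0 13))))] (.c k63 (.l (.s k20 k60 5 (.s k150
  k215 8 (.s k213 k21 7 (.s k192 k234 6 (.d k194 k62 k193 13 0)))))) (.c k192 (.l (.s k20 k60 5 (.s
  k21 k213 7 (.s k63 k42 6 (.s k150 k215 8 (.d k151 k148 k107 0 13)))))) .n))) .n))))) (.c k150 (.f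
  k130 k65 8 (.q k1 [(.s k169 k253 13 (.s k3 k2 0 (.s k86 k252 14 (.d k87 k84 k171 0 13)))), (.s k2
  k3 0 (.s k194 k66 7 (.s k192 k193 0 (.s k149 k63 14 (.d k213 k234 k21 6 7))))), (.s k169 k253 13
  (.s k43 k232 8 (.s k235 k215 5 (.s k107 k171 7 (.s k63 k151 13 (.s k21 k42 6 (.d k149 k213 k192 7
  14)))))))] .n)) .n))) (.c k128 (.l (.s k127 k64 6 (.s k63 k191 7 (.s k149 k192 14 (.d k21 k42 k213
  6 7))))) (.c k149 (.f k127 k64 6 (.q k102 [(.s k68 k119 4 (.s k110 k98 1 (.s k204 k136 9 (.d k63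
  k191 k157 7 12)))), (.s k110 k98 1 (.s k93 k76 4 (.s k12 k174 12 (.s k4 k8 1 (.s k166 k247 12 (.d
  k89 k81 k243 1 14)))))), (.s k68 k119 4 (.s k204 k136 9 (.s k153 k51 14 (.d k221 k238 k17 4 9))))]
  (.c k68 (.l (.s k110 k98 1 (.s k76 k93 4 (.s k115 k89 6 (.s k119 k123 1 (.s k51 k187 9 (.s k17 k34
  4 (.d k153 k221 k204 9 14)))))))) (.c k128 (.l (.s k191 k63 7 (.s k68 k119 4 (.s k204 k136 9 (.s
  k153 k51 14 (.d k221 k238 k17 4 9)))))) (.c k191 (.q k128 [(.s k68 k119 4 (.s k204 k136 9 (.s k221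
  k238 4 (.d k153 k17 k51 9 14)))), (.s k110 k98 1 (.s k93 k76 4 (.s k12 k174 12 (.s k4 k8 1 (.s
  k166 k247 12 (.d k89 k81 k243 1 14))))))] (.c k68 (.l (.s k110 k98 1 (.s k76 k93 4 (.s k115 k89 6
  (.s k119 k123 1 (.s k51 k187 9 (.s k17 k34 4 (.d k153 k221 k204 9 14)))))))) .n)) .n))))) (.c k191
  (.l (.s k64 k127 6 (.s k192 k128 7 (.s k149 k63 14 (.d k213 k234 k21 6 7))))) (.c k192 (.q k1 [(.s
  k3 k2 0 (.s k87 k171 13 (.s k86 k84 0 (.d k169 k253 k252 13 14)))), (.s k127 k64 6 (.s k63 k191 7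
  (.s k21 k42 6 (.s k61 k41 5 (.s k253 k169 13 (.s k125 k189 7 (.d k60 k190 k62 8 0))))))), (.s k3
  k2 0 (.s k127 k64 6 (.s k63 k191 7 (.s k21 k42 6 (.s k23 k43 5 (.s k22 k20 0 (.d k41 k61 k60 5
  6)))))))] .n) (.c k213 (.q k1 [(.s k3 k2 0 (.s k87 k171 13 (.s k86 k84 0 (.d k169 k253 k252 13
  14)))), (.s k64 k127 6 (.s k169 k253 13 (.s k192 k128 7 (.s k149 k63 14 (.s k129 k189 5 (.s k66 k3
  8 (.d k65 k193 k67 7 0))))))), (.s k3 k2 0 (.s k64 k127 6 (.s k192 k128 7 (.s k66 k129 8 (.s k86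
  k126 5 (.d k87 k84 k171 0 13))))))] (.c k3 (.l (.s k127 k64 6 (.s k63 k191 7 (.s k21 k42 6 (.s k61
  k41 5 (.s k60 k62 0 (.s k125 k190 8 (.d k253 k189 k169 7 13)))))))) .n)) (.c k234 (.l (.s k127 k64
  6 (.s k63 k191 7 (.s k21 k42 6 (.d k149 k213 k192 7 14))))) .n))))))))))))

def t27_179 : T TT 256 :=
  (.f k255 k170 14 (.q k106 [(.s k64 k127 6 (.s k192 k128 7 (.s k149 k63 14 (.d k213 k234 k21 6
  7)))), (.s k127 k64 6 (.s k63 k191 7 (.s k149 k192 14 (.d k21 k42 k213 6 7))))] (.c k21 (.q k1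
  [(.s k169 k253 13 (.s k3 k2 0 (.s k86 k252 14 (.d k87 k84 k171 0 13)))), (.s k64 k127 6 (.s k192
  k128 7 (.s k213 k234 6 (.s k253 k169 13 (.s k193 k233 5 (.s k65 k129 7 (.d k195 k130 k194 8
  0))))))), (.s k3 k2 0 (.s k64 k127 6 (.s k192 k128 7 (.s k66 k129 8 (.s k86 k126 5 (.d k87 k84
  k171 0 13))))))] (.c k171 (.l (.s k3 k2 0 (.s k127 k64 6 (.s k63 k191 7 (.s k43 k23 5 (.d k169
  k232 k253 8 13)))))) .n)) (.c k63 (.q k1 [(.s k3 k2 0 (.s k87 k171 13 (.s k86 k84 0 (.d k169 k253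
  k252 13 14)))), (.s k64 k127 6 (.s k192 k128 7 (.s k213 k234 6 (.s k253 k169 13 (.s k193 k233 5
  (.s k65 k129 7 (.d k195 k130 k194 8 0))))))), (.s k3 k2 0 (.s k64 k127 6 (.s k192 k128 7 (.s k66
  k129 8 (.s k86 k126 5 (.d k87 k84 k171 0 13))))))] (.c k171 (.l (.s k3 k2 0 (.s k64 k127 6 (.s
  k169 k253 13 (.s k86 k252 14 (.s k192 k128 7 (.d k66 k126 k129 5 8))))))) .n)) (.c k64 (.q k3 [(.s
  k1 k2 0 (.s k87 k171 13 (.s k169 k253 13 (.d k86 k84 k252 0 14)))), (.s k1 k2 0 (.s k169 k253 13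
  (.s k43 k232 8 (.s k63 k23 5 (.s k21 k42 6 (.d k149 k213 k192 7 14)))))), (.s k87 k171 13 (.s k86
  k84 0 (.s k66 k126 5 (.s k192 k129 8 (.s k149 k63 14 (.d k213 k234 k21 6 7))))))] (.c k86 (.f k87
  k171 13 (.q k169 [(.d k1 k2 k253 0 13), (.s k43 k232 8 (.s k63 k23 5 (.s k21 k42 6 (.d k149 k213
  k192 7 14))))] (.c k2 (.q k254 [(.d k253 k252 k1 0 13), (.s k43 k232 8 (.s k63 k23 5 (.s k21 k42 6
  (.d k149 k213 k192 7 14))))] .n) (.c k254 (.l (.s k2 k1 0 (.s k43 k232 8 (.s k63 k23 5 (.s k21 k42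
  6 (.d k149 k213 k192 7 14)))))) .n)))) (.c k169 (.q k66 [(.s k86 k126 5 (.d k87 k171 k84 13 0)),
  (.s k192 k129 8 (.s k149 k63 14 (.d k213 k234 k21 6 7)))] (.c k168 (.l (.s k171 k87 13 (.s k192
  k129 8 (.s k149 k63 14 (.d k213 k234 k21 6 7))))) (.c k171 (.q k168 [(.s k84 k252 13 (.d k86 k87
  k126 0 5)), (.s k192 k129 8 (.s k149 k63 14 (.d k213 k234 k21 6 7)))] .n) .n))) .n))) (.c k127 (.q
  k195 [(.s k65 k130 8 (.s k215 k235 5 (.s k150 k20 8 (.d k105 k125 k60 5 14)))), (.s k65 k130 8 (.s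
  k105 k125 5 (.s k107 k104 0 (.s k63 k151 13 (.s k21 k42 6 (.d k149 k213 k192 7 14)))))), (.s k215
  k235 5 (.s k150 k20 8 (.s k194 k62 13 (.s k192 k193 0 (.s k149 k63 14 (.d k213 k234 k21 6 7))))))]
  (.c k105 (.q k149 [(.s k21 k213 7 (.d k63 k42 k192 6 14)), (.s k63 k192 14 (.s k151 k107 13 (.s
  k150 k148 0 (.d k215 k235 k20 5 8))))] (.c k40 (.l (.s k235 k215 5 (.s k21 k213 7 (.d k63 k42 k192
  6 14)))) (.c k63 (.l (.s k213 k21 7 (.s k192 k234 6 (.s k194 k193 0 (.s k150 k62 13 (.d k215 k235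
  k20 5 8)))))) (.c k192 (.l (.s k21 k213 7 (.s k63 k42 6 (.s k151 k107 13 (.s k150 k148 0 (.d k215
  k235 k20 5 8)))))) (.c k235 (.q k40 [(.s k21 k213 7 (.d k63 k42 k192 6 14)), (.s k20 k60 5 (.s k63
  k192 14 (.s k150 k215 8 (.d k151 k148 k107 0 13))))] (.c k63 (.l (.s k20 k60 5 (.s k150 k215 8 (.s
  k213 k21 7 (.s k192 k234 6 (.d k194 k62 k193 13 0)))))) (.c k192 (.l (.s k20 k60 5 (.s k21 k213 7
  (.s k63 k42 6 (.s k150 k215 8 (.d k151 k148 k107 0 13)))))) .n))) .n))))) (.c k150 (.q k149 [(.s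
  k21 k213 7 (.d k63 k42 k192 6 14)), (.s k63 k192 14 (.s k107 k151 13 (.s k105 k104 0 (.d k65 k130
  k125 8 5))))] (.c k63 (.l (.s k213 k21 7 (.s k192 k234 6 (.s k193 k194 0 (.s k105 k61 13 (.d k65
  k125 k130 5 8)))))) (.c k130 (.q k190 [(.s k21 k213 7 (.d k63 k42 k192 6 14)), (.s k63 k192 14 (.s
  k107 k151 13 (.s k105 k104 0 (.d k125 k60 k65 8 5))))] (.c k63 (.l (.s k125 k60 8 (.s k105 k65 5
  (.s k213 k21 7 (.s k192 k234 6 (.d k193 k61 k194 13 0)))))) (.c k192 (.l (.s k21 k213 7 (.s k63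
  k42 6 (.s k107 k151 13 (.s k105 k104 0 (.d k125 k60 k65 8 5)))))) .n))) (.c k190 (.l (.s k130 k65
  8 (.s k21 k213 7 (.d k63 k42 k192 6 14)))) (.c k192 (.l (.s k21 k213 7 (.s k63 k42 6 (.s k107 k151
  13 (.s k105 k104 0 (.d k65 k125 k130 5 8)))))) .n))))) .n))) (.c k128 (.l (.s k127 k64 6 (.s k63
  k191 7 (.s k149 k192 14 (.d k21 k42 k213 6 7))))) (.c k149 (.f k127 k64 6 (.f k191 k63 7 (.q k86
  [(.s k84 k87 0 (.s k252 k168 13 (.s k253 k254 0 (.d k169 k1 k3 13 14)))), (.s k126 k66 5 (.s k125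
  k124 0 (.s k60 k190 8 (.s k20 k40 5 (.s k150 k215 8 (.d k105 k65 k195 5 14))))))] (.c k84 (.l (.s
  k126 k66 5 (.s k124 k125 0 (.s k67 k105 6 (.s k87 k107 5 (.s k3 k171 13 (.s k1 k2 0 (.d k169 k253
  k252 13 14)))))))) .n)))) (.c k191 (.l (.s k64 k127 6 (.s k192 k128 7 (.s k149 k63 14 (.d k213
  k234 k21 6 7))))) (.c k192 (.q k1 [(.s k3 k2 0 (.s k87 k171 13 (.s k86 k84 0 (.d k169 k253 k252 13
  14)))), (.s k127 k64 6 (.s k63 k191 7 (.s k21 k42 6 (.s k61 k41 5 (.s k253 k169 13 (.s k125 k189 7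
  (.d k60 k190 k62 8 0))))))), (.s k3 k2 0 (.s k127 k64 6 (.s k63 k191 7 (.s k21 k42 6 (.s k23 k43 5
  (.s k22 k20 0 (.d k41 k61 k60 5 6)))))))] .n) (.c k213 (.q k1 [(.s k3 k2 0 (.s k87 k171 13 (.s k86
  k84 0 (.d k169 k253 k252 13 14)))), (.s k64 k127 6 (.s k169 k253 13 (.s k192 k128 7 (.s k149 k63
  14 (.s k129 k189 5 (.s k66 k3 8 (.d k65 k193 k67 7 0))))))), (.s k3 k2 0 (.s k64 k127 6 (.s k192
  k128 7 (.s k66 k129 8 (.s k86 k126 5 (.d k87 k84 k171 0 13))))))] (.c k3 (.l (.s k127 k64 6 (.s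
  k63 k191 7 (.s k21 k42 6 (.s k61 k41 5 (.s k60 k62 0 (.s k125 k190 8 (.d k253 k189 k169 7
  13)))))))) .n)) .n)))))))))))

def t27_180 : T TT 256 :=
  (.f k255 k170 14 (.q k89 [(.s k81 k93 1 (.s k243 k162 12 (.s k166 k12 14 (.d k247 k251 k4 1
  12))))] (.c k4 (.q k1 [(.s k169 k253 13 (.s k3 k2 0 (.s k86 k252 14 (.d k87 k84 k171 0 13)))), (.s
  k81 k93 1 (.s k169 k253 13 (.s k9 k249 11 (.s k13 k5 1 (.d k241 k161 k165 11 13))))), (.s k3 k2 0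
  (.s k81 k93 1 (.s k161 k241 11 (.s k82 k240 12 (.s k83 k80 0 (.d k243 k163 k162 11 12))))))] .n)
  (.c k12 (.q k1 [(.s k3 k2 0 (.s k87 k171 13 (.s k86 k84 0 (.d k169 k253 k252 13 14)))), (.s k81
  k93 1 (.s k169 k253 13 (.s k9 k249 11 (.s k13 k5 1 (.d k241 k161 k165 11 13))))), (.s k3 k2 0 (.s
  k81 k93 1 (.s k161 k241 11 (.s k82 k240 12 (.s k83 k80 0 (.d k243 k163 k162 11 12))))))] .n) (.c
  k81 (.q k87 [(.s k86 k84 0 (.s k3 k171 13 (.s k169 k252 14 (.d k1 k2 k253 0 13)))), (.s k86 k84 0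
  (.s k83 k92 2 (.s k95 k91 1 (.s k15 k175 11 (.s k5 k10 2 (.s k165 k245 11 (.d k90 k80 k240 2
  14)))))))] (.c k84 (.l (.s k3 k171 13 (.s k1 k2 0 (.s k169 k253 13 (.s k9 k249 11 (.s k12 k6 2 (.s
  k4 k8 1 (.d k166 k247 k243 12 14)))))))) (.c k86 (.f k3 k171 13 (.q k169 [(.d k1 k2 k253 0 13),
  (.s k9 k249 11 (.s k12 k6 2 (.s k4 k8 1 (.d k166 k247 k243 12 14))))] (.c k2 (.q k254 [(.d k253
  k252 k1 0 13), (.s k9 k249 11 (.s k12 k6 2 (.s k4 k8 1 (.d k166 k247 k243 12 14))))] .n) (.c k254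
  (.l (.s k2 k1 0 (.s k9 k249 11 (.s k12 k6 2 (.s k4 k8 1 (.d k166 k247 k243 12 14)))))) .n))))
  .n))) (.c k93 (.q k21 [(.s k149 k213 7 (.s k63 k42 6 (.s k106 k192 14 (.d k127 k64 k191 6 7)))),
  (.s k149 k213 7 (.s k29 k209 9 (.s k17 k25 1 (.s k51 k34 4 (.s k119 k187 9 (.s k102 k68 4 (.d k153
  k221 k204 9 14)))))))] (.c k149 (.f k63 k42 6 (.q k106 [(.d k127 k191 k64 7 6), (.s k123 k72 4 (.s
  k243 k183 9 (.s k166 k12 14 (.d k247 k251 k4 1 12))))] (.c k128 (.l (.s k191 k127 7 (.s k123 k72 4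
  (.s k243 k183 9 (.s k166 k12 14 (.d k247 k251 k4 1 12)))))) (.c k191 (.q k128 [(.d k64 k127 k192 6
  7), (.s k123 k72 4 (.s k243 k183 9 (.s k247 k251 1 (.d k166 k4 k12 12 14))))] .n) .n)))) (.c k213
  (.l (.s k63 k42 6 (.s k127 k191 7 (.s k106 k64 6 (.s k123 k72 4 (.s k243 k183 9 (.s k166 k12 14
  (.d k247 k251 k4 1 12)))))))) .n))) (.c k162 (.l (.s k93 k81 1 (.s k12 k174 12 (.s k166 k243 14
  (.d k4 k8 k247 1 12))))) (.c k166 (.f k81 k93 1 (.q k83 [(.s k80 k82 0 (.s k86 k92 2 (.s k87 k84 0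
  (.d k95 k91 k90 1 2)))), (.s k80 k82 0 (.s k240 k160 11 (.s k245 k250 2 (.s k165 k5 11 (.s k241
  k13 13 (.d k243 k162 k242 12 0)))))), (.s k86 k92 2 (.s k84 k87 0 (.s k252 k168 13 (.s k169 k3 14
  (.d k253 k254 k1 0 13)))))] (.c k162 (.q k174 [(.s k80 k82 0 (.s k86 k92 2 (.s k87 k84 0 (.d k95
  k91 k90 1 2)))), (.s k86 k92 2 (.s k84 k87 0 (.s k252 k168 13 (.s k169 k3 14 (.d k253 k254 k1 0
  13))))), (.s k80 k82 0 (.s k240 k160 11 (.s k245 k250 2 (.s k165 k5 11 (.d k90 k95 k15 2 14)))))]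
  (.c k95 (.l (.s k82 k80 0 (.s k86 k92 2 (.s k94 k90 1 (.s k84 k87 0 (.s k252 k168 13 (.d k254 k14
  k253 11 0))))))) .n)) (.c k174 (.l (.s k162 k243 12 (.s k80 k82 0 (.s k86 k92 2 (.s k87 k84 0 (.d
  k95 k91 k90 1 2)))))) .n)))) (.c k174 (.l (.s k81 k93 1 (.s k243 k162 12 (.s k166 k12 14 (.d k247
  k251 k4 1 12))))) (.c k243 (.q k1 [(.s k3 k2 0 (.s k87 k171 13 (.s k86 k84 0 (.d k169 k253 k252 13
  14)))), (.s k81 k93 1 (.s k169 k253 13 (.s k9 k249 11 (.s k13 k5 1 (.d k241 k161 k165 11 13))))),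
  (.s k3 k2 0 (.s k93 k81 1 (.s k12 k174 12 (.s k8 k4 1 (.s k9 k6 2 (.s k5 k13 1 (.d k10 k11 k15 0
  2)))))))] .n) (.c k247 (.q k1 [(.s k169 k253 13 (.s k3 k2 0 (.s k86 k252 14 (.d k87 k84 k171 0
  13)))), (.s k81 k93 1 (.s k169 k253 13 (.s k9 k249 11 (.s k13 k5 1 (.d k241 k161 k165 11 13))))),
  (.s k3 k2 0 (.s k81 k93 1 (.s k161 k241 11 (.s k82 k240 12 (.s k83 k80 0 (.d k243 k163 k162 11
  12))))))] .n) (.c k251 (.l (.s k93 k81 1 (.s k12 k174 12 (.s k4 k8 1 (.d k166 k247 k243 12 14)))))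
  .n))))))))))))

def t27_182 : T TT 256 :=
  (.f k255 k170 14 (.q k106 [(.s k64 k127 6 (.s k192 k128 7 (.s k149 k63 14 (.d k213 k234 k21 6
  7))))] (.c k21 (.q k1 [(.s k169 k253 13 (.s k3 k2 0 (.s k86 k252 14 (.d k87 k84 k171 0 13)))), (.s
  k64 k127 6 (.s k192 k128 7 (.s k213 k234 6 (.s k253 k169 13 (.s k193 k233 5 (.s k65 k129 7 (.d
  k195 k130 k194 8 0))))))), (.s k3 k2 0 (.s k64 k127 6 (.s k192 k128 7 (.s k66 k129 8 (.s k86 k126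
  5 (.d k87 k84 k171 0 13))))))] (.c k171 (.l (.s k3 k2 0 (.s k127 k64 6 (.s k63 k191 7 (.s k43 k23
  5 (.d k169 k232 k253 8 13)))))) .n)) (.c k63 (.q k1 [(.s k3 k2 0 (.s k87 k171 13 (.s k86 k84 0 (.d
  k169 k253 k252 13 14)))), (.s k64 k127 6 (.s k192 k128 7 (.s k213 k234 6 (.s k253 k169 13 (.s k193
  k233 5 (.s k65 k129 7 (.d k195 k130 k194 8 0))))))), (.s k3 k2 0 (.s k64 k127 6 (.s k192 k128 7
  (.s k66 k129 8 (.s k86 k126 5 (.d k87 k84 k171 0 13))))))] (.c k171 (.l (.s k3 k2 0 (.s k64 k127 6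
  (.s k169 k253 13 (.s k86 k252 14 (.s k192 k128 7 (.d k66 k126 k129 5 8))))))) .n)) (.c k64 (.q k3
  [(.s k1 k2 0 (.s k87 k171 13 (.s k169 k253 13 (.d k86 k84 k252 0 14)))), (.s k1 k2 0 (.s k169 k253
  13 (.s k43 k232 8 (.s k63 k23 5 (.s k21 k42 6 (.d k149 k213 k192 7 14)))))), (.s k87 k171 13 (.s
  k86 k84 0 (.s k66 k126 5 (.s k192 k129 8 (.s k149 k63 14 (.d k213 k234 k21 6 7))))))] (.c k86 (.f
  k87 k171 13 (.q k169 [(.d k1 k2 k253 0 13), (.s k43 k232 8 (.s k63 k23 5 (.s k21 k42 6 (.d k149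
  k213 k192 7 14))))] (.c k2 (.q k254 [(.d k253 k252 k1 0 13), (.s k43 k232 8 (.s k63 k23 5 (.s k21
  k42 6 (.d k149 k213 k192 7 14))))] .n) (.c k254 (.l (.s k2 k1 0 (.s k43 k232 8 (.s k63 k23 5 (.s
  k21 k42 6 (.d k149 k213 k192 7 14)))))) .n)))) (.c k169 (.q k66 [(.s k86 k126 5 (.d k87 k171 k84
  13 0)), (.s k192 k129 8 (.s k149 k63 14 (.d k213 k234 k21 6 7)))] (.c k168 (.l (.s k171 k87 13 (.s
  k192 k129 8 (.s k149 k63 14 (.d k213 k234 k21 6 7))))) (.c k171 (.q k168 [(.s k84 k252 13 (.d k86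
  k87 k126 0 5)), (.s k192 k129 8 (.s k149 k63 14 (.d k213 k234 k21 6 7)))] .n) .n))) .n))) (.c k127
  (.q k195 [(.s k65 k130 8 (.s k215 k235 5 (.s k150 k20 8 (.d k105 k125 k60 5 14)))), (.s k65 k130 8
  (.s k105 k125 5 (.s k107 k104 0 (.s k63 k151 13 (.s k21 k42 6 (.d k149 k213 k192 7 14)))))), (.s
  k215 k235 5 (.s k150 k20 8 (.s k194 k62 13 (.s k192 k193 0 (.s k149 k63 14 (.d k213 k234 k21 6
  7))))))] (.c k105 (.q k149 [(.s k21 k213 7 (.d k63 k42 k192 6 14)), (.s k63 k192 14 (.s k151 k107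
  13 (.s k150 k148 0 (.d k215 k235 k20 5 8))))] (.c k40 (.l (.s k235 k215 5 (.s k21 k213 7 (.d k63
  k42 k192 6 14)))) (.c k63 (.l (.s k213 k21 7 (.s k192 k234 6 (.s k194 k193 0 (.s k150 k62 13 (.d
  k215 k235 k20 5 8)))))) (.c k192 (.l (.s k21 k213 7 (.s k63 k42 6 (.s k151 k107 13 (.s k150 k148 0
  (.d k215 k235 k20 5 8)))))) (.c k235 (.q k40 [(.s k21 k213 7 (.d k63 k42 k192 6 14)), (.s k20 k60
  5 (.s k63 k192 14 (.s k150 k215 8 (.d k151 k148 k107 0 13))))] (.c k63 (.l (.s k20 k60 5 (.s k150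
  k215 8 (.s k213 k21 7 (.s k192 k234 6 (.d k194 k62 k193 13 0)))))) (.c k192 (.l (.s k20 k60 5 (.s
  k21 k213 7 (.s k63 k42 6 (.s k150 k215 8 (.d k151 k148 k107 0 13)))))) .n))) .n))))) (.c k150 (.f
  k130 k65 8 (.q k134 [(.s k73 k12 10 (.s k138 k142 1 (.s k207 k69 10 (.d k203 k199 k8 1 8)))), (.s
  k12 k73 10 (.s k93 k174 12 (.s k89 k81 1 (.s k72 k123 4 (.s k192 k132 9 (.s k149 k63 14 (.d k213
  k234 k21 6 7)))))))] (.c k12 (.l (.s k138 k142 1 (.s k207 k69 10 (.s k199 k203 1 (.s k215 k235 5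
  (.s k223 k239 3 (.s k219 k211 1 (.d k231 k247 k243 3 5)))))))) (.c k69 (.l (.s k142 k138 1 (.s k12
  k73 10 (.s k77 k207 8 (.s k93 k174 12 (.s k89 k81 1 (.s k166 k243 14 (.d k4 k8 k247 1 12))))))))
  (.c k73 (.l (.s k138 k142 1 (.s k69 k207 10 (.s k4 k199 8 (.s k12 k8 1 (.s k93 k174 12 (.s k89 k81
  1 (.d k166 k247 k243 12 14)))))))) (.c k77 (.l (.s k73 k12 10 (.s k138 k142 1 (.s k207 k69 10 (.d
  k203 k199 k8 1 8))))) .n)))))) .n))) (.c k128 (.l (.s k127 k64 6 (.s k63 k191 7 (.s k149 k192 14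
  (.d k21 k42 k213 6 7))))) (.c k149 (.f k127 k64 6 (.q k122 [(.s k90 k74 3 (.s k95 k80 2 (.s k79
  k111 3 (.d k112 k117 k101 2 6)))), (.s k90 k74 3 (.s k80 k95 2 (.s k240 k160 11 (.d k63 k191 k181
  7 10)))), (.s k117 k112 2 (.s k48 k186 10 (.s k16 k32 3 (.s k154 k223 10 (.d k101 k69 k207 3
  14)))))] (.c k69 (.l (.s k112 k117 2 (.s k90 k74 3 (.s k79 k101 6 (.d k95 k80 k111 2 3))))) (.c
  k80 (.l (.s k90 k74 3 (.s k112 k117 2 (.s k79 k101 6 (.s k95 k111 3 (.s k15 k175 11 (.s k5 k10 2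
  (.d k165 k245 k240 11 14)))))))) (.c k128 (.l (.s k191 k63 7 (.s k90 k74 3 (.s k95 k80 2 (.s k79
  k111 3 (.d k112 k117 k101 2 6)))))) (.c k191 (.q k128 [(.s k90 k74 3 (.s k95 k80 2 (.s k79 k111 3
  (.d k112 k117 k101 2 6)))), (.s k117 k112 2 (.s k48 k186 10 (.s k16 k32 3 (.s k154 k223 10 (.d
  k101 k69 k207 3 14))))), (.s k90 k74 3 (.s k80 k95 2 (.s k240 k160 11 (.s k165 k15 14 (.d k245
  k250 k5 2 11)))))] (.c k69 (.l (.s k112 k117 2 (.s k90 k74 3 (.s k79 k101 6 (.d k95 k80 k111 2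
  3))))) (.c k80 (.l (.s k90 k74 3 (.s k112 k117 2 (.s k79 k101 6 (.s k95 k111 3 (.s k15 k175 11 (.s
  k5 k10 2 (.d k165 k245 k240 11 14)))))))) .n))) .n)))))) (.c k191 (.l (.s k64 k127 6 (.s k192 k128
  7 (.s k149 k63 14 (.d k213 k234 k21 6 7))))) (.c k192 (.q k1 [(.s k3 k2 0 (.s k87 k171 13 (.s k86
  k84 0 (.d k169 k253 k252 13 14)))), (.s k127 k64 6 (.s k63 k191 7 (.s k21 k42 6 (.s k61 k41 5 (.s
  k253 k169 13 (.s k125 k189 7 (.d k60 k190 k62 8 0))))))), (.s k3 k2 0 (.s k127 k64 6 (.s k63 k191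
  7 (.s k21 k42 6 (.s k23 k43 5 (.s k22 k20 0 (.d k41 k61 k60 5 6)))))))] .n) (.c k213 (.q k1 [(.s
  k3 k2 0 (.s k87 k171 13 (.s k86 k84 0 (.d k169 k253 k252 13 14)))), (.s k64 k127 6 (.s k169 k253
  13 (.s k192 k128 7 (.s k149 k63 14 (.s k129 k189 5 (.s k66 k3 8 (.d k65 k193 k67 7 0))))))), (.s
  k3 k2 0 (.s k64 k127 6 (.s k192 k128 7 (.s k66 k129 8 (.s k86 k126 5 (.d k87 k84 k171 0 13))))))]
  (.c k3 (.l (.s k127 k64 6 (.s k63 k191 7 (.s k21 k42 6 (.s k61 k41 5 (.s k60 k62 0 (.s k125 k190 8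
  (.d k253 k189 k169 7 13)))))))) .n)) (.c k234 (.l (.s k127 k64 6 (.s k63 k191 7 (.s k21 k42 6 (.d
  k149 k213 k192 7 14))))) .n))))))))))))

def t27_183 : T TT 256 :=
  (.f k255 k170 14 (.q k105 [(.s k65 k125 5 (.s k195 k130 8 (.s k150 k60 14 (.d k215 k235 k20 5
  8))))] (.c k20 (.q k1 [(.s k169 k253 13 (.s k3 k2 0 (.s k86 k252 14 (.d k87 k84 k171 0 13)))), (.s
  k65 k125 5 (.s k169 k253 13 (.s k41 k233 7 (.s k61 k21 5 (.d k193 k129 k149 7 13))))), (.s k3 k2 0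
  (.s k65 k125 5 (.s k129 k193 7 (.s k66 k192 8 (.s k67 k64 0 (.d k195 k131 k130 7 8))))))] .n) (.c
  k60 (.q k1 [(.s k3 k2 0 (.s k87 k171 13 (.s k86 k84 0 (.d k169 k253 k252 13 14)))), (.s k65 k125 5
  (.s k169 k253 13 (.s k41 k233 7 (.s k61 k21 5 (.d k193 k129 k149 7 13))))), (.s k3 k2 0 (.s k65
  k125 5 (.s k129 k193 7 (.s k66 k192 8 (.s k67 k64 0 (.d k195 k131 k130 7 8))))))] .n) (.c k65 (.q
  k1 [(.s k169 k253 13 (.s k3 k2 0 (.s k86 k252 14 (.d k87 k84 k171 0 13)))), (.s k169 k253 13 (.s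
  k41 k233 7 (.s k21 k61 5 (.s k63 k42 6 (.s k127 k191 7 (.s k106 k64 6 (.d k149 k213 k192 7
  14)))))))] (.c k169 (.f k3 k2 0 (.q k86 [(.d k87 k171 k84 13 0), (.s k67 k124 6 (.s k195 k131 7
  (.s k150 k60 14 (.d k215 k235 k20 5 8))))] (.c k168 (.l (.s k171 k87 13 (.s k67 k124 6 (.s k195
  k131 7 (.s k150 k60 14 (.d k215 k235 k20 5 8)))))) (.c k171 (.q k168 [(.d k84 k87 k252 0 13), (.s
  k67 k124 6 (.s k195 k131 7 (.s k215 k235 5 (.d k150 k20 k60 8 14))))] .n) .n)))) (.c k253 (.l (.s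
  k3 k2 0 (.s k87 k171 13 (.s k86 k84 0 (.s k67 k124 6 (.s k195 k131 7 (.s k150 k60 14 (.d k215 k235
  k20 5 8)))))))) .n))) (.c k125 (.q k253 [(.s k169 k1 13 (.s k252 k254 0 (.s k84 k168 13 (.d k86
  k87 k3 0 14)))), (.s k169 k1 13 (.s k233 k41 7 (.s k213 k193 5 (.s k192 k234 6 (.s k64 k128 7 (.s
  k106 k127 6 (.d k149 k21 k63 7 14)))))))] (.c k1 (.l (.s k252 k254 0 (.s k84 k168 13 (.s k86 k87 0
  (.s k124 k67 6 (.s k60 k188 7 (.s k20 k40 5 (.d k150 k215 k195 8 14)))))))) (.c k169 (.f k252 k254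
  0 (.q k86 [(.d k84 k168 k87 13 0), (.s k124 k67 6 (.s k60 k188 7 (.s k20 k40 5 (.d k150 k215 k195
  8 14))))] (.c k168 (.q k171 [(.d k87 k84 k3 0 13), (.s k124 k67 6 (.s k60 k188 7 (.s k20 k40 5 (.d
  k150 k215 k195 8 14))))] .n) (.c k171 (.l (.s k168 k84 13 (.s k124 k67 6 (.s k60 k188 7 (.s k20
  k40 5 (.d k150 k215 k195 8 14)))))) .n)))) .n))) (.c k130 (.l (.s k125 k65 5 (.s k60 k190 8 (.s
  k150 k195 14 (.d k20 k40 k215 5 8))))) (.c k150 (.f k125 k65 5 (.q k117 [(.s k101 k69 3 (.s k109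
  k97 1 (.s k77 k93 3 (.d k113 k121 k89 1 5)))), (.s k48 k186 10 (.s k16 k32 3 (.s k154 k223 10 (.s
  k56 k203 12 (.d k60 k190 k52 8 1)))))] (.c k101 (.l (.s k121 k113 1 (.s k89 k73 3 (.s k81 k93 1
  (.s k243 k162 12 (.d k60 k190 k182 8 10)))))) (.c k130 (.l (.s k190 k60 8 (.s k48 k186 10 (.s k16
  k32 3 (.s k101 k69 3 (.d k154 k223 k207 10 14)))))) (.c k190 (.q k130 [(.s k101 k69 3 (.s k109 k97
  1 (.s k77 k93 3 (.d k113 k121 k89 1 5)))), (.s k48 k186 10 (.s k16 k32 3 (.s k154 k223 10 (.d k101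
  k69 k207 3 14)))), (.s k121 k113 1 (.s k186 k48 10 (.s k251 k56 8 (.s k243 k247 1 (.s k81 k162 12
  (.d k89 k93 k73 1 3))))))] .n) .n))))) (.c k190 (.l (.s k65 k125 5 (.s k195 k130 8 (.s k150 k60 14
  (.d k215 k235 k20 5 8))))) (.c k195 (.q k1 [(.s k3 k2 0 (.s k87 k171 13 (.s k86 k84 0 (.d k169
  k253 k252 13 14)))), (.s k65 k125 5 (.s k169 k253 13 (.s k41 k233 7 (.s k61 k21 5 (.d k193 k129
  k149 7 13))))), (.s k3 k2 0 (.s k125 k65 5 (.s k60 k190 8 (.s k40 k20 5 (.s k41 k22 6 (.s k21 k61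
  5 (.d k42 k43 k63 0 6)))))))] .n) (.c k215 (.q k1 [(.s k169 k253 13 (.s k3 k2 0 (.s k86 k252 14
  (.d k87 k84 k171 0 13)))), (.s k65 k125 5 (.s k169 k253 13 (.s k41 k233 7 (.s k61 k21 5 (.d k193
  k129 k149 7 13))))), (.s k3 k2 0 (.s k65 k125 5 (.s k129 k193 7 (.s k66 k192 8 (.s k67 k64 0 (.d
  k195 k131 k130 7 8))))))] .n) (.c k235 (.l (.s k125 k65 5 (.s k60 k190 8 (.s k20 k40 5 (.d k150
  k215 k195 8 14))))) .n))))))))))))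

def t27_186 : T TT 256 :=
  (.q k86 [(.s k84 k87 0 (.s k252 k168 13 (.s k169 k3 14 (.s k253 k1 13 (.d k255 k254 k170 0
  14)))))] (.c k1 (.q k4 [(.s k12 k8 1 (.s k166 k247 12 (.s k89 k243 14 (.s k93 k81 1 (.d k255 k174
  k170 12 14))))), (.s k84 k87 0 (.s k166 k247 12 (.s k6 k246 11 (.s k7 k5 0 (.d k244 k164 k165 11
  12))))), (.s k12 k8 1 (.s k84 k87 0 (.s k164 k244 11 (.s k88 k240 13 (.s k92 k80 1 (.d k252 k172
  k168 11 13))))))] .n) (.c k3 (.q k4 [(.s k12 k8 1 (.s k166 k247 12 (.s k89 k243 14 (.s k93 k81 1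
  (.d k255 k174 k170 12 14))))), (.s k84 k87 0 (.s k166 k247 12 (.s k6 k246 11 (.s k7 k5 0 (.d k244
  k164 k165 11 12))))), (.s k12 k8 1 (.s k84 k87 0 (.s k164 k244 11 (.s k88 k240 13 (.s k92 k80 1
  (.d k252 k172 k168 11 13))))))] (.c k255 (.l (.s k87 k84 0 (.s k247 k166 12 (.s k7 k167 11 (.s k5
  k6 0 (.d k165 k245 k244 11 12)))))) .n)) (.c k84 (.q k4 [(.s k12 k8 1 (.s k166 k247 12 (.s k89
  k243 14 (.s k93 k81 1 (.d k255 k174 k170 12 14))))), (.s k12 k8 1 (.s k166 k247 12 (.s k6 k246 11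
  (.s k3 k9 2 (.s k1 k2 0 (.d k169 k253 k252 13 14)))))), (.s k166 k247 12 (.s k6 k246 11 (.s k5 k7
  0 (.s k10 k15 2 (.s k170 k255 14 (.d k2 k14 k254 1 13)))))), (.s k12 k8 1 (.s k170 k255 14 (.s k2
  k254 13 (.s k3 k1 0 (.s k6 k9 2 (.s k5 k7 0 (.d k10 k14 k15 1 2)))))))] .n) (.c k87 (.q k4 [(.s
  k12 k8 1 (.s k166 k247 12 (.s k89 k243 14 (.s k93 k81 1 (.d k255 k174 k170 12 14))))), (.s k12 k8
  1 (.s k166 k247 12 (.s k6 k246 11 (.s k3 k9 2 (.s k1 k2 0 (.d k169 k253 k252 13 14)))))), (.s k12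
  k8 1 (.s k170 k255 14 (.s k2 k254 13 (.s k3 k1 0 (.s k6 k9 2 (.s k10 k14 1 (.d k5 k7 k15 0
  2))))))), (.s k166 k247 12 (.s k6 k246 11 (.s k170 k255 14 (.s k2 k254 13 (.s k10 k14 1 (.d k5 k7
  k15 0 2))))))] (.c k7 (.l (.s k12 k8 1 (.s k255 k170 14 (.s k93 k174 12 (.s k89 k81 1 (.d k166
  k247 k243 12 14)))))) .n)) (.c k168 (.l (.s k87 k84 0 (.s k255 k170 14 (.s k3 k171 13 (.s k169
  k252 14 (.d k1 k2 k253 0 13)))))) (.c k169 (.q k4 [(.s k12 k8 1 (.s k166 k247 12 (.s k89 k243 14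
  (.s k93 k81 1 (.d k255 k174 k170 12 14))))), (.s k84 k87 0 (.s k166 k247 12 (.s k6 k246 11 (.s k7
  k5 0 (.d k244 k164 k165 11 12))))), (.s k12 k8 1 (.s k84 k87 0 (.s k164 k244 11 (.s k88 k240 13
  (.s k92 k80 1 (.d k252 k172 k168 11 13))))))] .n) (.c k170 (.q k154 [(.s k16 k223 10 (.s k18 k222
  9 (.s k19 k17 0 (.s k84 k87 0 (.d k220 k152 k153 9 10))))), (.s k84 k87 0 (.s k222 k18 9 (.s k252
  k168 13 (.s k207 k237 4 (.s k69 k138 10 (.d k101 k117 k48 3 14)))))), (.s k16 k223 10 (.s k48 k32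
  3 (.s k84 k87 0 (.s k101 k207 14 (.s k116 k71 4 (.d k252 k184 k168 9 13)))))), (.s k16 k223 10 (.s
  k18 k222 9 (.s k48 k32 3 (.s k3 k33 4 (.s k1 k2 0 (.d k169 k253 k252 13 14))))))] .n) (.c k171 (.l
  (.s k84 k87 0 (.s k252 k168 13 (.s k3 k169 14 (.s k170 k255 14 (.d k2 k1 k254 0 13)))))) (.c k252
  (.q k5 [(.s k15 k10 2 (.s k165 k245 11 (.s k90 k240 14 (.s k95 k80 2 (.d k255 k175 k170 11
  14))))), (.s k87 k84 0 (.s k165 k245 11 (.s k7 k244 12 (.s k4 k6 0 (.d k247 k167 k166 11 12))))),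
  (.s k15 k10 2 (.s k87 k84 0 (.s k255 k170 14 (.s k3 k171 13 (.s k7 k11 1 (.s k4 k6 0 (.d k247 k167
  k166 11 12)))))))] .n) (.c k253 (.l (.s k84 k87 0 (.s k170 k255 14 (.s k2 k254 13 (.s k252 k168 13
  (.d k3 k1 k169 0 14)))))) (.c k254 (.l (.s k87 k84 0 (.s k255 k170 14 (.s k3 k171 13 (.s k1 k2 0
  (.d k169 k253 k252 13 14)))))) (.c k255 (.q k48 [(.s k16 k32 3 (.s k84 k87 0 (.s k152 k220 9 (.s
  k100 k204 13 (.s k116 k68 3 (.d k252 k184 k168 9 13)))))), (.s k16 k32 3 (.s k154 k223 10 (.s k18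
  k222 9 (.s k3 k33 4 (.s k1 k2 0 (.d k169 k253 k252 13 14)))))), (.s k84 k87 0 (.s k252 k168 13 (.s
  k116 k184 9 (.s k101 k71 4 (.s k69 k117 3 (.d k207 k138 k154 10 14)))))), (.s k16 k32 3 (.s k87
  k84 0 (.s k223 k154 10 (.s k19 k155 9 (.s k17 k18 0 (.d k153 k221 k220 9 10))))))] .n)
  .n)))))))))))))

def t27_187 : T TT 256 :=
  (.q k86 [(.s k84 k87 0 (.s k252 k168 13 (.s k169 k3 14 (.s k253 k1 13 (.d k255 k254 k170 0
  14)))))] (.c k1 (.q k4 [(.s k12 k8 1 (.s k166 k247 12 (.s k89 k243 14 (.s k93 k81 1 (.d k255 k174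
  k170 12 14))))), (.s k84 k87 0 (.s k166 k247 12 (.s k6 k246 11 (.s k7 k5 0 (.d k244 k164 k165 11
  12))))), (.s k12 k8 1 (.s k84 k87 0 (.s k164 k244 11 (.s k88 k240 13 (.s k92 k80 1 (.d k252 k172
  k168 11 13))))))] .n) (.c k3 (.q k4 [(.s k12 k8 1 (.s k166 k247 12 (.s k89 k243 14 (.s k93 k81 1
  (.d k255 k174 k170 12 14))))), (.s k84 k87 0 (.s k166 k247 12 (.s k6 k246 11 (.s k7 k5 0 (.d k244
  k164 k165 11 12))))), (.s k12 k8 1 (.s k84 k87 0 (.s k164 k244 11 (.s k88 k240 13 (.s k92 k80 1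
  (.d k252 k172 k168 11 13))))))] (.c k255 (.l (.s k87 k84 0 (.s k247 k166 12 (.s k7 k167 11 (.s k5
  k6 0 (.d k165 k245 k244 11 12)))))) .n)) (.c k84 (.q k4 [(.s k12 k8 1 (.s k166 k247 12 (.s k89
  k243 14 (.s k93 k81 1 (.d k255 k174 k170 12 14))))), (.s k12 k8 1 (.s k166 k247 12 (.s k6 k246 11
  (.s k3 k9 2 (.s k1 k2 0 (.d k169 k253 k252 13 14)))))), (.s k166 k247 12 (.s k6 k246 11 (.s k5 k7
  0 (.s k10 k15 2 (.s k170 k255 14 (.d k2 k14 k254 1 13)))))), (.s k12 k8 1 (.s k170 k255 14 (.s k2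
  k254 13 (.s k3 k1 0 (.s k6 k9 2 (.s k5 k7 0 (.d k10 k14 k15 1 2)))))))] .n) (.c k87 (.q k4 [(.s
  k12 k8 1 (.s k166 k247 12 (.s k89 k243 14 (.s k93 k81 1 (.d k255 k174 k170 12 14))))), (.s k12 k8
  1 (.s k166 k247 12 (.s k6 k246 11 (.s k3 k9 2 (.s k1 k2 0 (.d k169 k253 k252 13 14)))))), (.s k12
  k8 1 (.s k170 k255 14 (.s k2 k254 13 (.s k3 k1 0 (.s k6 k9 2 (.s k10 k14 1 (.d k5 k7 k15 0
  2))))))), (.s k166 k247 12 (.s k6 k246 11 (.s k170 k255 14 (.s k2 k254 13 (.s k10 k14 1 (.d k5 k7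
  k15 0 2))))))] (.c k7 (.l (.s k12 k8 1 (.s k255 k170 14 (.s k93 k174 12 (.s k89 k81 1 (.d k166
  k247 k243 12 14)))))) .n)) (.c k168 (.l (.s k87 k84 0 (.s k255 k170 14 (.s k3 k171 13 (.s k169
  k252 14 (.d k1 k2 k253 0 13)))))) (.c k169 (.q k4 [(.s k12 k8 1 (.s k166 k247 12 (.s k89 k243 14
  (.s k93 k81 1 (.d k255 k174 k170 12 14))))), (.s k84 k87 0 (.s k166 k247 12 (.s k6 k246 11 (.s k7
  k5 0 (.d k244 k164 k165 11 12))))), (.s k12 k8 1 (.s k84 k87 0 (.s k164 k244 11 (.s k88 k240 13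
  (.s k92 k80 1 (.d k252 k172 k168 11 13))))))] .n) (.c k170 (.q k153 [(.s k17 k221 9 (.s k19 k220
  10 (.s k16 k18 0 (.s k87 k84 0 (.d k223 k155 k154 9 10))))), (.s k17 k221 9 (.s k51 k34 4 (.s k84
  k87 0 (.s k102 k204 14 (.s k118 k70 3 (.d k252 k185 k168 10 13)))))), (.s k17 k221 9 (.s k19 k220
  10 (.s k51 k34 4 (.s k3 k35 3 (.s k1 k2 0 (.d k169 k253 k252 13 14)))))), (.s k84 k87 0 (.s k220
  k19 10 (.s k252 k168 13 (.s k204 k236 3 (.s k68 k136 9 (.d k102 k119 k51 4 14))))))] .n) (.c k171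
  (.l (.s k84 k87 0 (.s k252 k168 13 (.s k3 k169 14 (.s k170 k255 14 (.d k2 k1 k254 0 13)))))) (.c
  k252 (.q k5 [(.s k15 k10 2 (.s k165 k245 11 (.s k90 k240 14 (.s k95 k80 2 (.d k255 k175 k170 11
  14))))), (.s k87 k84 0 (.s k165 k245 11 (.s k7 k244 12 (.s k4 k6 0 (.d k247 k167 k166 11 12))))),
  (.s k15 k10 2 (.s k87 k84 0 (.s k255 k170 14 (.s k3 k171 13 (.s k7 k11 1 (.s k4 k6 0 (.d k247 k167
  k166 11 12)))))))] .n) (.c k253 (.l (.s k84 k87 0 (.s k170 k255 14 (.s k2 k254 13 (.s k252 k168 13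
  (.d k3 k1 k169 0 14)))))) (.c k254 (.l (.s k87 k84 0 (.s k255 k170 14 (.s k3 k171 13 (.s k1 k2 0
  (.d k169 k253 k252 13 14)))))) (.c k255 (.q k51 [(.s k17 k34 4 (.s k84 k87 0 (.s k153 k221 9 (.s
  k204 k102 14 (.s k252 k168 13 (.d k220 k236 k19 3 10)))))), (.s k84 k87 0 (.s k252 k168 13 (.s
  k118 k185 10 (.s k102 k70 3 (.s k68 k119 4 (.d k204 k136 k153 9 14)))))), (.s k17 k34 4 (.s k87
  k84 0 (.s k153 k221 9 (.s k19 k220 10 (.s k16 k18 0 (.d k223 k155 k154 9 10)))))), (.s k17 k34 4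
  (.s k153 k221 9 (.s k19 k220 10 (.s k3 k35 3 (.s k1 k2 0 (.d k169 k253 k252 13 14))))))] (.c k153
  (.f k17 k34 4 (.l (.s k84 k87 0 (.s k252 k168 13 (.s k3 k169 14 (.s k1 k2 0 (.s k19 k35 3 (.s k18
  k16 0 (.d k33 k49 k48 3 4))))))))) (.c k204 (.l (.s k17 k34 4 (.s k84 k87 0 (.s k252 k168 13 (.s
  k3 k169 14 (.s k19 k35 3 (.d k153 k221 k220 9 10))))))) .n))) .n)))))))))))))

def t27_190 : T TT 256 :=
  (.q k86 [(.s k84 k87 0 (.s k252 k168 13 (.s k169 k3 14 (.s k253 k1 13 (.d k255 k254 k170 0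
  14)))))] (.c k1 (.q k4 [(.s k12 k8 1 (.s k166 k247 12 (.s k89 k243 14 (.s k93 k81 1 (.d k255 k174
  k170 12 14))))), (.s k84 k87 0 (.s k166 k247 12 (.s k6 k246 11 (.s k7 k5 0 (.d k244 k164 k165 11
  12))))), (.s k12 k8 1 (.s k84 k87 0 (.s k164 k244 11 (.s k88 k240 13 (.s k92 k80 1 (.d k252 k172
  k168 11 13))))))] .n) (.c k3 (.q k4 [(.s k12 k8 1 (.s k166 k247 12 (.s k89 k243 14 (.s k93 k81 1
  (.d k255 k174 k170 12 14))))), (.s k84 k87 0 (.s k166 k247 12 (.s k6 k246 11 (.s k7 k5 0 (.d k244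
  k164 k165 11 12))))), (.s k12 k8 1 (.s k84 k87 0 (.s k164 k244 11 (.s k88 k240 13 (.s k92 k80 1
  (.d k252 k172 k168 11 13))))))] (.c k255 (.l (.s k87 k84 0 (.s k247 k166 12 (.s k7 k167 11 (.s k5
  k6 0 (.d k165 k245 k244 11 12)))))) .n)) (.c k84 (.q k4 [(.s k12 k8 1 (.s k166 k247 12 (.s k89
  k243 14 (.s k93 k81 1 (.d k255 k174 k170 12 14))))), (.s k12 k8 1 (.s k166 k247 12 (.s k6 k246 11
  (.s k3 k9 2 (.s k1 k2 0 (.d k169 k253 k252 13 14)))))), (.s k166 k247 12 (.s k6 k246 11 (.s k5 k7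
  0 (.s k10 k15 2 (.s k170 k255 14 (.d k2 k14 k254 1 13)))))), (.s k12 k8 1 (.s k170 k255 14 (.s k2
  k254 13 (.s k3 k1 0 (.s k6 k9 2 (.s k5 k7 0 (.d k10 k14 k15 1 2)))))))] .n) (.c k87 (.q k4 [(.s
  k12 k8 1 (.s k166 k247 12 (.s k89 k243 14 (.s k93 k81 1 (.d k255 k174 k170 12 14))))), (.s k12 k8
  1 (.s k166 k247 12 (.s k6 k246 11 (.s k3 k9 2 (.s k1 k2 0 (.d k169 k253 k252 13 14)))))), (.s k12
  k8 1 (.s k170 k255 14 (.s k2 k254 13 (.s k3 k1 0 (.s k6 k9 2 (.s k10 k14 1 (.d k5 k7 k15 0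
  2))))))), (.s k166 k247 12 (.s k6 k246 11 (.s k170 k255 14 (.s k2 k254 13 (.s k10 k14 1 (.d k5 k7
  k15 0 2))))))] (.c k7 (.l (.s k12 k8 1 (.s k255 k170 14 (.s k93 k174 12 (.s k89 k81 1 (.d k166
  k247 k243 12 14)))))) .n)) (.c k168 (.l (.s k87 k84 0 (.s k255 k170 14 (.s k3 k171 13 (.s k169
  k252 14 (.d k1 k2 k253 0 13)))))) (.c k169 (.q k4 [(.s k12 k8 1 (.s k166 k247 12 (.s k89 k243 14
  (.s k93 k81 1 (.d k255 k174 k170 12 14))))), (.s k84 k87 0 (.s k166 k247 12 (.s k6 k246 11 (.s k7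
  k5 0 (.d k244 k164 k165 11 12))))), (.s k12 k8 1 (.s k84 k87 0 (.s k164 k244 11 (.s k88 k240 13
  (.s k92 k80 1 (.d k252 k172 k168 11 13))))))] .n) (.c k170 (.q k150 [(.s k20 k215 8 (.s k22 k214 7
  (.s k23 k21 0 (.s k84 k87 0 (.d k212 k148 k149 7 8))))), (.s k84 k87 0 (.s k214 k22 7 (.s k252
  k168 13 (.s k195 k233 6 (.s k65 k130 8 (.d k105 k125 k60 5 14)))))), (.s k20 k215 8 (.s k60 k40 5
  (.s k84 k87 0 (.s k105 k195 14 (.s k124 k67 6 (.d k252 k188 k168 7 13)))))), (.s k20 k215 8 (.s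
  k22 k214 7 (.s k60 k40 5 (.s k3 k41 6 (.s k1 k2 0 (.d k169 k253 k252 13 14))))))] .n) (.c k171 (.l
  (.s k84 k87 0 (.s k252 k168 13 (.s k3 k169 14 (.s k170 k255 14 (.d k2 k1 k254 0 13)))))) (.c k252
  (.q k5 [(.s k15 k10 2 (.s k165 k245 11 (.s k90 k240 14 (.s k95 k80 2 (.d k255 k175 k170 11
  14))))), (.s k87 k84 0 (.s k165 k245 11 (.s k7 k244 12 (.s k4 k6 0 (.d k247 k167 k166 11 12))))),
  (.s k15 k10 2 (.s k87 k84 0 (.s k255 k170 14 (.s k3 k171 13 (.s k7 k11 1 (.s k4 k6 0 (.d k247 k167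
  k166 11 12)))))))] .n) (.c k253 (.l (.s k84 k87 0 (.s k170 k255 14 (.s k2 k254 13 (.s k252 k168 13
  (.d k3 k1 k169 0 14)))))) (.c k254 (.l (.s k87 k84 0 (.s k255 k170 14 (.s k3 k171 13 (.s k1 k2 0
  (.d k169 k253 k252 13 14)))))) (.c k255 (.q k60 [(.s k20 k40 5 (.s k87 k84 0 (.s k215 k150 8 (.s
  k23 k151 7 (.s k21 k22 0 (.d k149 k213 k212 7 8)))))), (.s k84 k87 0 (.s k252 k168 13 (.s k124
  k188 7 (.s k105 k67 6 (.s k65 k125 5 (.d k195 k130 k150 8 14)))))), (.s k20 k40 5 (.s k150 k215 8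
  (.s k22 k214 7 (.s k3 k41 6 (.s k1 k2 0 (.d k169 k253 k252 13 14))))))] (.c k150 (.l (.s k20 k40 5
  (.s k84 k87 0 (.s k148 k212 7 (.s k104 k192 13 (.s k124 k64 5 (.d k252 k188 k168 7 13))))))) .n))
  .n)))))))))))))

def t27_226 : T TT 256 :=
  (.f k255 k170 14 (.q k165 [(.s k5 k245 11 (.s k15 k10 2 (.s k90 k240 14 (.d k95 k80 k175 2 11))))]
  (.c k5 (.q k93 [(.s k12 k174 12 (.s k4 k8 1 (.s k89 k81 1 (.d k166 k247 k243 12 14)))), (.s k89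
  k81 1 (.s k13 k241 13 (.s k253 k173 11 (.s k252 k254 0 (.s k84 k168 13 (.s k86 k87 0 (.d k169 k1
  k3 13 14)))))))] (.c k81 (.l (.s k12 k174 12 (.s k4 k8 1 (.s k166 k247 12 (.s k164 k167 0 (.s k240
  k88 13 (.s k80 k160 11 (.d k90 k95 k15 2 14)))))))) (.c k89 (.f k12 k174 12 (.q k166 [(.d k4 k8
  k247 1 12), (.s k164 k167 0 (.s k240 k88 13 (.s k80 k160 11 (.d k90 k95 k15 2 14))))] (.c k8 (.q
  k251 [(.d k247 k243 k4 1 12), (.s k164 k167 0 (.s k240 k88 13 (.s k80 k160 11 (.d k90 k95 k15 2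
  14))))] .n) (.c k251 (.l (.s k8 k4 1 (.s k164 k167 0 (.s k240 k88 13 (.s k80 k160 11 (.d k90 k95
  k15 2 14)))))) .n)))) .n))) (.c k10 (.l (.s k245 k5 11 (.s k240 k250 2 (.s k90 k15 14 (.d k80 k95
  k160 2 11))))) (.c k15 (.q k51 [(.s k119 k187 9 (.s k102 k68 4 (.s k153 k204 14 (.d k17 k34 k221 4
  9)))), (.s k17 k34 4 (.s k153 k221 9 (.s k245 k5 11 (.s k240 k250 2 (.d k177 k141 k114 5 8))))),
  (.s k245 k5 11 (.s k240 k250 2 (.s k80 k160 11 (.s k90 k95 2 (.s k114 k177 8 (.s k102 k78 5 (.d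
  k119 k68 k187 4 9)))))))] (.c k102 (.l (.s k245 k5 11 (.s k240 k250 2 (.s k177 k114 8 (.s k153
  k141 5 (.d k17 k34 k221 4 9)))))) (.c k141 (.l (.s k17 k34 4 (.s k119 k187 9 (.s k102 k68 4 (.d
  k153 k221 k204 9 14))))) .n))) (.c k80 (.q k1 [(.s k169 k253 13 (.s k3 k2 0 (.s k86 k252 14 (.d
  k87 k84 k171 0 13)))), (.s k5 k245 11 (.s k13 k9 1 (.s k89 k241 13 (.s k93 k81 1 (.d k253 k173
  k169 11 13))))), (.s k3 k2 0 (.s k5 k245 11 (.s k9 k13 1 (.s k6 k12 2 (.s k7 k4 0 (.d k15 k11 k10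
  1 2))))))] .n) (.c k90 (.f k245 k5 11 (.f k250 k240 2 (.q k101 [(.s k69 k117 3 (.s k207 k138 10
  (.s k223 k239 3 (.d k154 k16 k48 10 14)))), (.s k229 k37 7 (.s k213 k197 3 (.s k192 k234 6 (.s k64
  k128 7 (.s k106 k127 6 (.d k149 k21 k63 7 14))))))] (.c k69 (.l (.s k229 k37 7 (.s k197 k213 3 (.s
  k53 k149 11 (.s k117 k181 7 (.s k48 k186 10 (.s k16 k32 3 (.d k154 k223 k207 10 14)))))))) (.c
  k153 (.q k216 [(.s k69 k117 3 (.s k207 k138 10 (.s k223 k239 3 (.d k154 k16 k48 10 14)))), (.s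
  k229 k37 7 (.s k213 k197 3 (.s k192 k234 6 (.s k64 k128 7 (.s k106 k127 6 (.d k149 k21 k63 7
  14))))))] (.c k69 (.l (.s k229 k37 7 (.s k197 k213 3 (.s k53 k149 11 (.s k117 k181 7 (.s k48 k186
  10 (.s k16 k32 3 (.d k154 k223 k207 10 14)))))))) (.c k136 (.q k187 [(.s k69 k117 3 (.s k207 k138
  10 (.s k223 k239 3 (.d k154 k16 k48 10 14)))), (.s k37 k229 7 (.s k119 k51 9 (.s k102 k68 4 (.s
  k39 k228 8 (.s k36 k38 0 (.s k103 k100 0 (.d k231 k167 k166 7 8)))))))] (.c k207 (.l (.s k117 k69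
  3 (.s k53 k181 7 (.s k197 k149 11 (.d k229 k213 k37 3 7))))) .n)) (.c k187 (.q k136 [(.s k69 k117
  3 (.s k207 k138 10 (.s k223 k239 3 (.d k154 k16 k48 10 14)))), (.s k229 k37 7 (.s k213 k197 3 (.s
  k192 k234 6 (.s k64 k128 7 (.s k106 k127 6 (.d k149 k21 k63 7 14))))))] (.c k69 (.l (.s k37 k229 7
  (.s k68 k204 9 (.s k102 k119 4 (.s k39 k228 8 (.s k36 k38 0 (.s k103 k100 0 (.d k231 k167 k166 7
  8)))))))) .n)) .n)))) (.c k216 (.q k153 [(.s k17 k221 9 (.s k51 k34 4 (.s k119 k187 9 (.d k102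
  k204 k68 14 4)))), (.s k69 k117 3 (.s k207 k138 10 (.s k154 k48 14 (.d k223 k239 k16 3 10))))] (.c
  k204 (.q k228 [(.s k17 k221 9 (.s k102 k39 8 (.s k119 k68 4 (.d k51 k34 k187 4 9)))), (.s k69 k117
  3 (.s k207 k138 10 (.s k154 k48 14 (.d k223 k239 k16 3 10))))] .n) (.c k228 (.q k204 [(.d k221
  k238 k17 4 9), (.s k68 k136 9 (.d k102 k119 k51 4 14))] .n) .n))) .n)))))) (.c k95 (.q k1 [(.s
  k169 k253 13 (.s k3 k2 0 (.s k86 k252 14 (.d k87 k84 k171 0 13)))), (.s k5 k245 11 (.s k13 k9 1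
  (.s k89 k241 13 (.s k93 k81 1 (.d k253 k173 k169 11 13))))), (.s k3 k2 0 (.s k5 k245 11 (.s k9 k13
  1 (.s k6 k12 2 (.s k7 k4 0 (.d k15 k11 k10 1 2))))))] .n) (.c k175 (.l (.s k245 k5 11 (.s k240
  k250 2 (.s k80 k160 11 (.d k90 k95 k15 2 14))))) (.c k240 (.q k1 [(.s k3 k2 0 (.s k87 k171 13 (.s
  k86 k84 0 (.d k169 k253 k252 13 14)))), (.s k5 k245 11 (.s k13 k9 1 (.s k89 k241 13 (.s k93 k81 1
  (.d k253 k173 k169 11 13))))), (.s k3 k2 0 (.s k5 k245 11 (.s k9 k13 1 (.s k6 k12 2 (.s k7 k4 0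
  (.d k15 k11 k10 1 2))))))] .n) (.c k245 (.q k253 [(.s k169 k1 13 (.s k252 k254 0 (.s k84 k168 13
  (.d k86 k87 k3 0 14)))), (.s k169 k1 13 (.s k173 k161 1 (.s k93 k13 11 (.s k12 k174 12 (.s k4 k8 1
  (.s k166 k247 12 (.d k89 k81 k243 1 14)))))))] (.c k1 (.l (.s k252 k254 0 (.s k84 k168 13 (.s k86
  k87 0 (.s k244 k7 12 (.s k240 k248 1 (.s k80 k160 11 (.d k90 k95 k15 2 14)))))))) (.c k169 (.f
  k252 k254 0 (.q k86 [(.d k84 k168 k87 13 0), (.s k244 k7 12 (.s k240 k248 1 (.s k80 k160 11 (.d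
  k90 k95 k15 2 14))))] (.c k168 (.q k171 [(.d k87 k84 k3 0 13), (.s k244 k7 12 (.s k240 k248 1 (.s
  k80 k160 11 (.d k90 k95 k15 2 14))))] .n) (.c k171 (.l (.s k168 k84 13 (.s k244 k7 12 (.s k240
  k248 1 (.s k80 k160 11 (.d k90 k95 k15 2 14)))))) .n)))) .n))) (.c k250 (.l (.s k5 k245 11 (.s k15
  k10 2 (.s k90 k240 14 (.d k95 k80 k175 2 11))))) .n))))))))))))

def t27_227 : T TT 256 :=
  (.f k255 k170 14 (.q k165 [(.s k5 k245 11 (.s k15 k10 2 (.s k90 k240 14 (.d k95 k80 k175 2 11))))]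
  (.c k5 (.q k93 [(.s k12 k174 12 (.s k4 k8 1 (.s k89 k81 1 (.d k166 k247 k243 12 14)))), (.s k89
  k81 1 (.s k13 k241 13 (.s k253 k173 11 (.s k252 k254 0 (.s k84 k168 13 (.s k86 k87 0 (.d k169 k1
  k3 13 14)))))))] (.c k81 (.l (.s k12 k174 12 (.s k4 k8 1 (.s k166 k247 12 (.s k164 k167 0 (.s k240
  k88 13 (.s k80 k160 11 (.d k90 k95 k15 2 14)))))))) (.c k89 (.f k12 k174 12 (.q k166 [(.d k4 k8
  k247 1 12), (.s k164 k167 0 (.s k240 k88 13 (.s k80 k160 11 (.d k90 k95 k15 2 14))))] (.c k8 (.q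
  k251 [(.d k247 k243 k4 1 12), (.s k164 k167 0 (.s k240 k88 13 (.s k80 k160 11 (.d k90 k95 k15 2
  14))))] .n) (.c k251 (.l (.s k8 k4 1 (.s k164 k167 0 (.s k240 k88 13 (.s k80 k160 11 (.d k90 k95
  k15 2 14)))))) .n)))) .n))) (.c k10 (.l (.s k245 k5 11 (.s k240 k250 2 (.s k90 k15 14 (.d k80 k95
  k160 2 11))))) (.c k15 (.q k51 [(.s k17 k34 4 (.s k119 k187 9 (.s k102 k68 4 (.d k153 k221 k204 9
  14)))), (.s k245 k5 11 (.s k240 k250 2 (.s k177 k114 8 (.s k153 k141 5 (.d k17 k34 k221 4 9))))),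
  (.s k245 k5 11 (.s k240 k250 2 (.s k80 k160 11 (.s k90 k95 2 (.s k114 k177 8 (.s k102 k78 5 (.d
  k119 k68 k187 4 9)))))))] (.c k204 (.l (.s k17 k34 4 (.s k153 k221 9 (.s k245 k5 11 (.s k240 k250
  2 (.d k177 k141 k114 5 8)))))) .n)) (.c k80 (.q k1 [(.s k169 k253 13 (.s k3 k2 0 (.s k86 k252 14
  (.d k87 k84 k171 0 13)))), (.s k5 k245 11 (.s k13 k9 1 (.s k89 k241 13 (.s k93 k81 1 (.d k253 k173
  k169 11 13))))), (.s k3 k2 0 (.s k5 k245 11 (.s k9 k13 1 (.s k6 k12 2 (.s k7 k4 0 (.d k15 k11 k10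
  1 2))))))] .n) (.c k90 (.f k245 k5 11 (.f k250 k240 2 (.q k241 [(.s k89 k13 13 (.s k81 k93 1 (.s
  k253 k249 1 (.d k1 k161 k169 11 13)))), (.s k253 k249 1 (.s k252 k254 0 (.s k84 k168 13 (.s k86
  k87 0 (.d k169 k1 k3 13 14))))), (.s k89 k13 13 (.s k93 k81 1 (.s k12 k174 12 (.s k4 k8 1 (.d k166
  k247 k243 12 14)))))] (.c k1 (.l (.s k249 k253 1 (.s k251 k248 0 (.s k243 k247 1 (.s k81 k162 12
  (.d k89 k93 k13 1 13)))))) (.c k153 (.q k216 [(.s k89 k13 13 (.s k81 k93 1 (.s k253 k249 1 (.d k1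
  k161 k169 11 13)))), (.s k253 k249 1 (.s k252 k254 0 (.s k84 k168 13 (.s k86 k87 0 (.d k169 k1 k3
  13 14))))), (.s k89 k13 13 (.s k93 k81 1 (.s k12 k174 12 (.s k4 k8 1 (.d k166 k247 k243 12
  14)))))] (.c k1 (.l (.s k249 k253 1 (.s k251 k248 0 (.s k243 k247 1 (.s k81 k162 12 (.d k89 k93
  k13 1 13)))))) (.c k136 (.q k187 [(.s k89 k13 13 (.s k81 k93 1 (.s k253 k249 1 (.d k1 k161 k169 11
  13)))), (.s k253 k249 1 (.s k252 k254 0 (.s k84 k168 13 (.s k86 k87 0 (.d k169 k1 k3 13 14))))),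
  (.s k89 k13 13 (.s k93 k81 1 (.s k12 k174 12 (.s k4 k8 1 (.d k166 k247 k243 12 14)))))] (.c k1 (.l
  (.s k249 k253 1 (.s k251 k248 0 (.s k243 k247 1 (.s k81 k162 12 (.d k89 k93 k13 1 13)))))) .n))
  (.c k187 (.q k136 [(.s k89 k13 13 (.s k81 k93 1 (.s k253 k249 1 (.d k1 k161 k169 11 13)))), (.s
  k253 k249 1 (.s k252 k254 0 (.s k84 k168 13 (.s k86 k87 0 (.d k169 k1 k3 13 14))))), (.s k89 k13
  13 (.s k93 k81 1 (.s k12 k174 12 (.s k4 k8 1 (.d k166 k247 k243 12 14)))))] (.c k1 (.l (.s k249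
  k253 1 (.s k251 k248 0 (.s k243 k247 1 (.s k81 k162 12 (.d k89 k93 k13 1 13)))))) .n)) .n)))) (.c
  k216 (.q k153 [(.s k17 k221 9 (.s k51 k34 4 (.s k119 k187 9 (.d k102 k204 k68 14 4)))), (.s k13
  k89 13 (.s k253 k249 1 (.s k169 k1 13 (.d k173 k161 k93 1 11))))] (.c k204 (.q k228 [(.s k17 k221
  9 (.s k51 k34 4 (.s k102 k39 8 (.d k119 k68 k187 4 9)))), (.s k13 k89 13 (.s k253 k249 1 (.s k169
  k1 13 (.d k173 k161 k93 1 11))))] .n) (.c k228 (.q k204 [(.d k221 k238 k17 4 9), (.s k68 k136 9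
  (.d k102 k119 k51 4 14))] .n) .n))) .n)))))) (.c k95 (.q k1 [(.s k169 k253 13 (.s k3 k2 0 (.s k86
  k252 14 (.d k87 k84 k171 0 13)))), (.s k5 k245 11 (.s k13 k9 1 (.s k89 k241 13 (.s k93 k81 1 (.d
  k253 k173 k169 11 13))))), (.s k3 k2 0 (.s k5 k245 11 (.s k9 k13 1 (.s k6 k12 2 (.s k7 k4 0 (.d
  k15 k11 k10 1 2))))))] .n) (.c k175 (.l (.s k245 k5 11 (.s k240 k250 2 (.s k80 k160 11 (.d k90 k95
  k15 2 14))))) (.c k240 (.q k1 [(.s k3 k2 0 (.s k87 k171 13 (.s k86 k84 0 (.d k169 k253 k252 13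
  14)))), (.s k5 k245 11 (.s k13 k9 1 (.s k89 k241 13 (.s k93 k81 1 (.d k253 k173 k169 11 13))))),
  (.s k3 k2 0 (.s k5 k245 11 (.s k9 k13 1 (.s k6 k12 2 (.s k7 k4 0 (.d k15 k11 k10 1 2))))))] .n)
  (.c k245 (.q k253 [(.s k169 k1 13 (.s k252 k254 0 (.s k84 k168 13 (.d k86 k87 k3 0 14)))), (.s
  k169 k1 13 (.s k173 k161 1 (.s k93 k13 11 (.s k12 k174 12 (.s k4 k8 1 (.s k166 k247 12 (.d k89 k81
  k243 1 14)))))))] (.c k1 (.l (.s k252 k254 0 (.s k84 k168 13 (.s k86 k87 0 (.s k244 k7 12 (.s k240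
  k248 1 (.s k80 k160 11 (.d k90 k95 k15 2 14)))))))) (.c k169 (.f k252 k254 0 (.q k86 [(.d k84 k168
  k87 13 0), (.s k244 k7 12 (.s k240 k248 1 (.s k80 k160 11 (.d k90 k95 k15 2 14))))] (.c k168 (.q
  k171 [(.d k87 k84 k3 0 13), (.s k244 k7 12 (.s k240 k248 1 (.s k80 k160 11 (.d k90 k95 k15 2
  14))))] .n) (.c k171 (.l (.s k168 k84 13 (.s k244 k7 12 (.s k240 k248 1 (.s k80 k160 11 (.d k90
  k95 k15 2 14)))))) .n)))) .n))) (.c k250 (.l (.s k5 k245 11 (.s k15 k10 2 (.s k90 k240 14 (.d k95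
  k80 k175 2 11))))) .n))))))))))))

def t27_228 : T TT 256 :=
  (.f k255 k170 14 (.q k89 [(.s k81 k93 1 (.s k243 k162 12 (.s k166 k12 14 (.d k247 k251 k4 1
  12))))] (.c k4 (.q k1 [(.s k169 k253 13 (.s k3 k2 0 (.s k86 k252 14 (.d k87 k84 k171 0 13)))), (.s
  k81 k93 1 (.s k169 k253 13 (.s k9 k249 11 (.s k13 k5 1 (.d k241 k161 k165 11 13))))), (.s k3 k2 0
  (.s k81 k93 1 (.s k161 k241 11 (.s k82 k240 12 (.s k83 k80 0 (.d k243 k163 k162 11 12))))))] .n)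
  (.c k12 (.q k1 [(.s k3 k2 0 (.s k87 k171 13 (.s k86 k84 0 (.d k169 k253 k252 13 14)))), (.s k81
  k93 1 (.s k169 k253 13 (.s k9 k249 11 (.s k13 k5 1 (.d k241 k161 k165 11 13))))), (.s k3 k2 0 (.s
  k81 k93 1 (.s k161 k241 11 (.s k82 k240 12 (.s k83 k80 0 (.d k243 k163 k162 11 12))))))] .n) (.c
  k81 (.q k87 [(.s k86 k84 0 (.s k3 k171 13 (.s k169 k252 14 (.d k1 k2 k253 0 13)))), (.s k86 k84 0
  (.s k83 k92 2 (.s k95 k91 1 (.s k15 k175 11 (.s k5 k10 2 (.s k165 k245 11 (.d k90 k80 k240 2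
  14)))))))] (.c k84 (.l (.s k3 k171 13 (.s k1 k2 0 (.s k169 k253 13 (.s k9 k249 11 (.s k12 k6 2 (.s
  k4 k8 1 (.d k166 k247 k243 12 14)))))))) (.c k86 (.f k3 k171 13 (.q k169 [(.d k1 k2 k253 0 13),
  (.s k9 k249 11 (.s k12 k6 2 (.s k4 k8 1 (.d k166 k247 k243 12 14))))] (.c k2 (.q k254 [(.d k253
  k252 k1 0 13), (.s k9 k249 11 (.s k12 k6 2 (.s k4 k8 1 (.d k166 k247 k243 12 14))))] .n) (.c k254
  (.l (.s k2 k1 0 (.s k9 k249 11 (.s k12 k6 2 (.s k4 k8 1 (.d k166 k247 k243 12 14)))))) .n))))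
  .n))) (.c k93 (.q k21 [(.s k149 k213 7 (.s k63 k42 6 (.s k106 k192 14 (.d k127 k64 k191 6 7)))),
  (.s k149 k213 7 (.s k29 k209 9 (.s k17 k25 1 (.s k51 k34 4 (.s k119 k187 9 (.s k102 k68 4 (.d k153
  k221 k204 9 14)))))))] (.c k149 (.f k63 k42 6 (.q k106 [(.d k127 k191 k64 7 6), (.s k123 k72 4 (.s
  k243 k183 9 (.s k166 k12 14 (.d k247 k251 k4 1 12))))] (.c k128 (.l (.s k191 k127 7 (.s k123 k72 4
  (.s k243 k183 9 (.s k166 k12 14 (.d k247 k251 k4 1 12)))))) (.c k191 (.q k128 [(.d k64 k127 k192 6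
  7), (.s k123 k72 4 (.s k243 k183 9 (.s k247 k251 1 (.d k166 k4 k12 12 14))))] .n) .n)))) (.c k213
  (.l (.s k63 k42 6 (.s k127 k191 7 (.s k106 k64 6 (.s k123 k72 4 (.s k243 k183 9 (.s k166 k12 14
  (.d k247 k251 k4 1 12)))))))) .n))) (.c k162 (.l (.s k93 k81 1 (.s k12 k174 12 (.s k166 k243 14
  (.d k4 k8 k247 1 12))))) (.c k166 (.f k81 k93 1 (.q k83 [(.s k80 k82 0 (.s k86 k92 2 (.s k87 k84 0
  (.d k95 k91 k90 1 2)))), (.s k80 k82 0 (.s k240 k160 11 (.s k245 k250 2 (.s k165 k5 11 (.s k241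
  k13 13 (.d k243 k162 k242 12 0)))))), (.s k86 k92 2 (.s k84 k87 0 (.s k252 k168 13 (.s k169 k3 14
  (.d k253 k254 k1 0 13)))))] (.c k162 (.q k174 [(.s k80 k82 0 (.s k86 k92 2 (.s k87 k84 0 (.d k95
  k91 k90 1 2)))), (.s k86 k92 2 (.s k84 k87 0 (.s k252 k168 13 (.s k169 k3 14 (.d k253 k254 k1 0
  13))))), (.s k80 k82 0 (.s k240 k160 11 (.s k245 k250 2 (.s k165 k5 11 (.d k90 k95 k15 2 14)))))]
  (.c k95 (.l (.s k82 k80 0 (.s k86 k92 2 (.s k94 k90 1 (.s k84 k87 0 (.s k252 k168 13 (.d k254 k14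
  k253 11 0))))))) .n)) (.c k174 (.l (.s k162 k243 12 (.s k80 k82 0 (.s k86 k92 2 (.s k87 k84 0 (.d
  k95 k91 k90 1 2)))))) .n)))) (.c k174 (.l (.s k81 k93 1 (.s k243 k162 12 (.s k166 k12 14 (.d k247
  k251 k4 1 12))))) (.c k243 (.q k1 [(.s k3 k2 0 (.s k87 k171 13 (.s k86 k84 0 (.d k169 k253 k252 13
  14)))), (.s k81 k93 1 (.s k169 k253 13 (.s k9 k249 11 (.s k13 k5 1 (.d k241 k161 k165 11 13))))),
  (.s k3 k2 0 (.s k93 k81 1 (.s k12 k174 12 (.s k8 k4 1 (.s k9 k6 2 (.s k5 k13 1 (.d k10 k11 k15 0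
  2)))))))] .n) (.c k247 (.q k1 [(.s k169 k253 13 (.s k3 k2 0 (.s k86 k252 14 (.d k87 k84 k171 0
  13)))), (.s k81 k93 1 (.s k169 k253 13 (.s k9 k249 11 (.s k13 k5 1 (.d k241 k161 k165 11 13))))),
  (.s k3 k2 0 (.s k81 k93 1 (.s k161 k241 11 (.s k82 k240 12 (.s k83 k80 0 (.d k243 k163 k162 11
  12))))))] .n) (.c k251 (.l (.s k93 k81 1 (.s k12 k174 12 (.s k4 k8 1 (.d k166 k247 k243 12 14)))))
  .n))))))))))))

def t27_230 : T TT 256 :=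
  (.f k255 k170 14 (.q k165 [(.s k5 k245 11 (.s k15 k10 2 (.s k90 k240 14 (.d k95 k80 k175 2 11))))]
  (.c k5 (.q k93 [(.s k12 k174 12 (.s k4 k8 1 (.s k89 k81 1 (.d k166 k247 k243 12 14)))), (.s k89
  k81 1 (.s k13 k241 13 (.s k253 k173 11 (.s k252 k254 0 (.s k84 k168 13 (.s k86 k87 0 (.d k169 k1
  k3 13 14)))))))] (.c k81 (.l (.s k12 k174 12 (.s k4 k8 1 (.s k166 k247 12 (.s k164 k167 0 (.s k240
  k88 13 (.s k80 k160 11 (.d k90 k95 k15 2 14)))))))) (.c k89 (.f k12 k174 12 (.q k166 [(.d k4 k8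
  k247 1 12), (.s k164 k167 0 (.s k240 k88 13 (.s k80 k160 11 (.d k90 k95 k15 2 14))))] (.c k8 (.q
  k251 [(.d k247 k243 k4 1 12), (.s k164 k167 0 (.s k240 k88 13 (.s k80 k160 11 (.d k90 k95 k15 2
  14))))] .n) (.c k251 (.l (.s k8 k4 1 (.s k164 k167 0 (.s k240 k88 13 (.s k80 k160 11 (.d k90 k95
  k15 2 14)))))) .n)))) .n))) (.c k10 (.l (.s k245 k5 11 (.s k240 k250 2 (.s k90 k15 14 (.d k80 k95
  k160 2 11))))) (.c k15 (.q k51 [(.s k17 k34 4 (.s k119 k187 9 (.s k102 k68 4 (.d k153 k221 k204 9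
  14)))), (.s k245 k5 11 (.s k240 k250 2 (.s k177 k114 8 (.s k153 k141 5 (.d k17 k34 k221 4 9))))),
  (.s k245 k5 11 (.s k240 k250 2 (.s k80 k160 11 (.s k90 k95 2 (.s k114 k177 8 (.s k102 k78 5 (.d
  k119 k68 k187 4 9)))))))] (.c k204 (.l (.s k17 k34 4 (.s k153 k221 9 (.s k245 k5 11 (.s k240 k250
  2 (.d k177 k141 k114 5 8)))))) .n)) (.c k80 (.q k1 [(.s k169 k253 13 (.s k3 k2 0 (.s k86 k252 14
  (.d k87 k84 k171 0 13)))), (.s k5 k245 11 (.s k13 k9 1 (.s k89 k241 13 (.s k93 k81 1 (.d k253 k173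
  k169 11 13))))), (.s k3 k2 0 (.s k5 k245 11 (.s k9 k13 1 (.s k6 k12 2 (.s k7 k4 0 (.d k15 k11 k10
  1 2))))))] .n) (.c k90 (.q k84 [(.s k86 k87 0 (.s k252 k168 13 (.s k169 k3 14 (.d k253 k254 k1 0
  13)))), (.s k86 k87 0 (.s k244 k7 12 (.s k4 k164 11 (.s k245 k5 11 (.d k247 k246 k166 0 12))))),
  (.s k245 k5 11 (.s k250 k240 2 (.s k252 k168 13 (.s k254 k253 0 (.s k246 k242 1 (.s k243 k249 2
  (.d k247 k244 k251 0 1)))))))] (.c k10 (.q k250 [(.d k245 k240 k5 2 11), (.s k86 k87 0 (.s k252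
  k168 13 (.s k169 k3 14 (.d k253 k254 k1 0 13))))] (.c k153 (.q k216 [(.d k245 k240 k5 2 11), (.s
  k86 k87 0 (.s k252 k168 13 (.s k169 k3 14 (.d k253 k254 k1 0 13))))] (.c k136 (.q k187 [(.d k245
  k240 k5 2 11), (.s k86 k87 0 (.s k252 k168 13 (.s k169 k3 14 (.d k253 k254 k1 0 13))))] .n) (.c
  k187 (.q k136 [(.d k245 k240 k5 2 11), (.s k86 k87 0 (.s k252 k168 13 (.s k169 k3 14 (.d k253 k254
  k1 0 13))))] .n) .n))) (.c k216 (.q k153 [(.d k245 k240 k5 2 11), (.s k17 k221 9 (.s k51 k34 4 (.s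
  k119 k187 9 (.d k102 k68 k204 4 14))))] .n) .n))) (.c k153 (.q k216 [(.s k86 k87 0 (.s k252 k168
  13 (.s k169 k3 14 (.d k253 k254 k1 0 13)))), (.s k86 k87 0 (.s k244 k7 12 (.s k4 k164 11 (.s k245
  k5 11 (.d k247 k246 k166 0 12))))), (.s k245 k5 11 (.s k250 k240 2 (.s k252 k168 13 (.s k254 k253
  0 (.s k246 k242 1 (.s k243 k249 2 (.d k247 k244 k251 0 1)))))))] (.c k10 (.q k250 [(.d k245 k240
  k5 2 11), (.s k86 k87 0 (.s k252 k168 13 (.s k169 k3 14 (.d k253 k254 k1 0 13))))] (.c k136 (.q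
  k187 [(.d k245 k240 k5 2 11), (.s k86 k87 0 (.s k252 k168 13 (.s k169 k3 14 (.d k253 k254 k1 0
  13))))] .n) (.c k187 (.q k136 [(.d k245 k240 k5 2 11), (.s k86 k87 0 (.s k252 k168 13 (.s k169 k3
  14 (.d k253 k254 k1 0 13))))] .n) .n))) (.c k136 (.q k187 [(.s k86 k87 0 (.s k252 k168 13 (.s k169
  k3 14 (.d k253 k254 k1 0 13)))), (.s k86 k87 0 (.s k244 k7 12 (.s k4 k164 11 (.s k245 k5 11 (.d
  k247 k246 k166 0 12))))), (.s k245 k5 11 (.s k250 k240 2 (.s k252 k168 13 (.s k254 k253 0 (.s k246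
  k242 1 (.s k243 k249 2 (.d k247 k244 k251 0 1)))))))] (.c k10 (.q k250 [(.d k245 k240 k5 2 11),
  (.s k86 k87 0 (.s k252 k168 13 (.s k169 k3 14 (.d k253 k254 k1 0 13))))] .n) (.c k250 (.q k10 [(.d
  k5 k15 k245 2 11), (.s k86 k87 0 (.s k252 k168 13 (.s k169 k3 14 (.d k253 k254 k1 0 13))))] .n)
  .n))) (.c k187 (.q k136 [(.s k204 k68 9 (.s k245 k5 11 (.d k240 k250 k228 2 5))), (.s k86 k87 0
  (.s k252 k168 13 (.s k169 k3 14 (.d k253 k254 k1 0 13))))] (.c k10 (.q k250 [(.d k245 k240 k5 2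
  11), (.s k86 k87 0 (.s k252 k168 13 (.s k169 k3 14 (.d k253 k254 k1 0 13))))] .n) (.c k250 (.q k10
  [(.d k5 k15 k245 2 11), (.s k86 k87 0 (.s k252 k168 13 (.s k169 k3 14 (.d k253 k254 k1 0 13))))]
  .n) .n))) (.c k250 (.q k10 [(.d k5 k15 k245 2 11), (.s k86 k87 0 (.s k252 k168 13 (.s k169 k3 14
  (.d k253 k254 k1 0 13))))] (.c k136 (.q k187 [(.d k5 k15 k245 2 11), (.s k86 k87 0 (.s k252 k168
  13 (.s k169 k3 14 (.d k253 k254 k1 0 13))))] .n) (.c k187 (.q k136 [(.d k5 k15 k245 2 11), (.s k86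
  k87 0 (.s k252 k168 13 (.s k169 k3 14 (.d k253 k254 k1 0 13))))] .n) .n))) .n))))) (.c k216 (.q
  k153 [(.s k86 k87 0 (.s k252 k168 13 (.s k169 k3 14 (.d k253 k254 k1 0 13)))), (.s k17 k221 9 (.s
  k51 k34 4 (.s k102 k204 14 (.d k119 k68 k187 4 9))))] (.c k10 (.q k250 [(.d k245 k240 k5 2 11),
  (.s k17 k221 9 (.s k51 k34 4 (.s k119 k187 9 (.d k102 k68 k204 4 14))))] .n) (.c k250 (.q k10 [(.d
  k5 k15 k245 2 11), (.s k17 k221 9 (.s k51 k34 4 (.s k102 k204 14 (.d k119 k68 k187 4 9))))] .n)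
  .n))) (.c k250 (.q k10 [(.d k5 k15 k245 2 11), (.s k86 k87 0 (.s k252 k168 13 (.s k169 k3 14 (.d
  k253 k254 k1 0 13))))] (.c k153 (.q k216 [(.d k5 k15 k245 2 11), (.s k86 k87 0 (.s k252 k168 13
  (.s k169 k3 14 (.d k253 k254 k1 0 13))))] (.c k136 (.q k187 [(.d k5 k15 k245 2 11), (.s k86 k87 0
  (.s k252 k168 13 (.s k169 k3 14 (.d k253 k254 k1 0 13))))] .n) (.c k187 (.q k136 [(.d k5 k15 k245
  2 11), (.s k86 k87 0 (.s k252 k168 13 (.s k169 k3 14 (.d k253 k254 k1 0 13))))] .n) .n))) (.c k216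
  (.q k153 [(.d k5 k15 k245 2 11), (.s k17 k221 9 (.s k51 k34 4 (.s k102 k204 14 (.d k119 k68 k187 4
  9))))] .n) .n))) .n))))) (.c k95 (.q k1 [(.s k169 k253 13 (.s k3 k2 0 (.s k86 k252 14 (.d k87 k84
  k171 0 13)))), (.s k5 k245 11 (.s k13 k9 1 (.s k89 k241 13 (.s k93 k81 1 (.d k253 k173 k169 11
  13))))), (.s k3 k2 0 (.s k5 k245 11 (.s k9 k13 1 (.s k6 k12 2 (.s k7 k4 0 (.d k15 k11 k10 1
  2))))))] .n) (.c k175 (.l (.s k245 k5 11 (.s k240 k250 2 (.s k80 k160 11 (.d k90 k95 k15 2 14)))))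
  (.c k240 (.q k1 [(.s k3 k2 0 (.s k87 k171 13 (.s k86 k84 0 (.d k169 k253 k252 13 14)))), (.s k5
  k245 11 (.s k13 k9 1 (.s k89 k241 13 (.s k93 k81 1 (.d k253 k173 k169 11 13))))), (.s k3 k2 0 (.s
  k5 k245 11 (.s k9 k13 1 (.s k6 k12 2 (.s k7 k4 0 (.d k15 k11 k10 1 2))))))] .n) (.c k245 (.q k253
  [(.s k169 k1 13 (.s k252 k254 0 (.s k84 k168 13 (.d k86 k87 k3 0 14)))), (.s k169 k1 13 (.s k173
  k161 1 (.s k93 k13 11 (.s k12 k174 12 (.s k4 k8 1 (.s k166 k247 12 (.d k89 k81 k243 1 14)))))))]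
  (.c k1 (.l (.s k252 k254 0 (.s k84 k168 13 (.s k86 k87 0 (.s k244 k7 12 (.s k240 k248 1 (.s k80
  k160 11 (.d k90 k95 k15 2 14)))))))) (.c k169 (.f k252 k254 0 (.q k86 [(.d k84 k168 k87 13 0), (.s
  k244 k7 12 (.s k240 k248 1 (.s k80 k160 11 (.d k90 k95 k15 2 14))))] (.c k168 (.q k171 [(.d k87
  k84 k3 0 13), (.s k244 k7 12 (.s k240 k248 1 (.s k80 k160 11 (.d k90 k95 k15 2 14))))] .n) (.c
  k171 (.l (.s k168 k84 13 (.s k244 k7 12 (.s k240 k248 1 (.s k80 k160 11 (.d k90 k95 k15 2 14))))))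
  .n)))) .n))) (.c k250 (.l (.s k5 k245 11 (.s k15 k10 2 (.s k90 k240 14 (.d k95 k80 k175 2 11)))))
  .n))))))))))))

def t27_231 : T TT 256 :=
  (.f k255 k170 14 (.q k165 [(.s k5 k245 11 (.s k15 k10 2 (.s k90 k240 14 (.d k95 k80 k175 2 11))))]
  (.c k5 (.q k93 [(.s k12 k174 12 (.s k4 k8 1 (.s k89 k81 1 (.d k166 k247 k243 12 14)))), (.s k89
  k81 1 (.s k13 k241 13 (.s k253 k173 11 (.s k252 k254 0 (.s k84 k168 13 (.s k86 k87 0 (.d k169 k1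
  k3 13 14)))))))] (.c k81 (.l (.s k12 k174 12 (.s k4 k8 1 (.s k166 k247 12 (.s k164 k167 0 (.s k240
  k88 13 (.s k80 k160 11 (.d k90 k95 k15 2 14)))))))) (.c k89 (.f k12 k174 12 (.q k166 [(.d k4 k8
  k247 1 12), (.s k164 k167 0 (.s k240 k88 13 (.s k80 k160 11 (.d k90 k95 k15 2 14))))] (.c k8 (.q
  k251 [(.d k247 k243 k4 1 12), (.s k164 k167 0 (.s k240 k88 13 (.s k80 k160 11 (.d k90 k95 k15 2
  14))))] .n) (.c k251 (.l (.s k8 k4 1 (.s k164 k167 0 (.s k240 k88 13 (.s k80 k160 11 (.d k90 k95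
  k15 2 14)))))) .n)))) .n))) (.c k10 (.l (.s k245 k5 11 (.s k240 k250 2 (.s k90 k15 14 (.d k80 k95
  k160 2 11))))) (.c k15 (.q k51 [(.s k17 k34 4 (.s k119 k187 9 (.s k102 k68 4 (.d k153 k221 k204 9
  14)))), (.s k245 k5 11 (.s k240 k250 2 (.s k177 k114 8 (.s k153 k141 5 (.d k17 k34 k221 4 9))))),
  (.s k245 k5 11 (.s k240 k250 2 (.s k80 k160 11 (.s k90 k95 2 (.s k114 k177 8 (.s k102 k78 5 (.d
  k119 k68 k187 4 9)))))))] (.c k204 (.l (.s k17 k34 4 (.s k153 k221 9 (.s k245 k5 11 (.s k240 k250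
  2 (.d k177 k141 k114 5 8)))))) .n)) (.c k80 (.q k1 [(.s k169 k253 13 (.s k3 k2 0 (.s k86 k252 14
  (.d k87 k84 k171 0 13)))), (.s k5 k245 11 (.s k13 k9 1 (.s k89 k241 13 (.s k93 k81 1 (.d k253 k173
  k169 11 13))))), (.s k3 k2 0 (.s k5 k245 11 (.s k9 k13 1 (.s k6 k12 2 (.s k7 k4 0 (.d k15 k11 k10
  1 2))))))] .n) (.c k90 (.f k245 k5 11 (.f k250 k240 2 (.q k229 [(.s k101 k37 7 (.s k117 k69 3 (.s
  k197 k213 3 (.d k53 k181 k149 7 11)))), (.s k213 k197 3 (.s k192 k234 6 (.s k64 k128 7 (.s k106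
  k127 6 (.d k149 k21 k63 7 14))))), (.s k101 k37 7 (.s k69 k117 3 (.s k207 k138 10 (.s k154 k48 14
  (.d k223 k239 k16 3 10)))))] (.c k21 (.l (.s k197 k213 3 (.s k101 k37 7 (.s k53 k149 11 (.d k117
  k69 k181 3 7))))) (.c k69 (.l (.s k101 k37 7 (.s k197 k213 3 (.s k53 k149 11 (.s k117 k181 7 (.s
  k48 k186 10 (.s k16 k32 3 (.d k154 k223 k207 10 14)))))))) (.c k153 (.q k216 [(.s k101 k37 7 (.s
  k117 k69 3 (.s k197 k213 3 (.d k53 k181 k149 7 11)))), (.s k213 k197 3 (.s k192 k234 6 (.s k64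
  k128 7 (.s k106 k127 6 (.d k149 k21 k63 7 14))))), (.s k101 k37 7 (.s k69 k117 3 (.s k207 k138 10
  (.s k154 k48 14 (.d k223 k239 k16 3 10)))))] (.c k21 (.l (.s k197 k213 3 (.s k101 k37 7 (.s k53
  k149 11 (.d k117 k69 k181 3 7))))) (.c k69 (.l (.s k101 k37 7 (.s k197 k213 3 (.s k53 k149 11 (.s
  k117 k181 7 (.s k48 k186 10 (.s k16 k32 3 (.d k154 k223 k207 10 14)))))))) (.c k136 (.q k187 [(.s
  k101 k37 7 (.s k117 k69 3 (.s k197 k213 3 (.d k53 k181 k149 7 11)))), (.s k213 k197 3 (.s k192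
  k234 6 (.s k64 k128 7 (.s k106 k127 6 (.d k149 k21 k63 7 14))))), (.s k101 k37 7 (.s k69 k117 3
  (.s k207 k138 10 (.s k154 k48 14 (.d k223 k239 k16 3 10)))))] (.c k21 (.l (.s k197 k213 3 (.s k101
  k37 7 (.s k53 k149 11 (.d k117 k69 k181 3 7))))) (.c k69 (.l (.s k101 k37 7 (.s k197 k213 3 (.s
  k53 k149 11 (.s k117 k181 7 (.s k48 k186 10 (.s k16 k32 3 (.d k154 k223 k207 10 14)))))))) .n)))
  (.c k187 (.q k136 [(.s k101 k37 7 (.s k117 k69 3 (.s k197 k213 3 (.d k53 k181 k149 7 11)))), (.s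
  k213 k197 3 (.s k192 k234 6 (.s k64 k128 7 (.s k106 k127 6 (.d k149 k21 k63 7 14))))), (.s k101
  k37 7 (.s k69 k117 3 (.s k207 k138 10 (.s k154 k48 14 (.d k223 k239 k16 3 10)))))] (.c k21 (.l (.s
  k197 k213 3 (.s k101 k37 7 (.s k53 k149 11 (.d k117 k69 k181 3 7))))) (.c k69 (.l (.s k101 k37 7
  (.s k197 k213 3 (.s k53 k149 11 (.s k117 k181 7 (.s k48 k186 10 (.s k16 k32 3 (.d k154 k223 k207
  10 14)))))))) .n))) .n))))) (.c k216 (.q k153 [(.s k17 k221 9 (.s k51 k34 4 (.s k119 k187 9 (.d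
  k102 k204 k68 14 4)))), (.s k101 k37 7 (.s k117 k69 3 (.s k53 k181 7 (.d k197 k213 k149 3 11))))]
  (.c k204 (.q k228 [(.s k17 k221 9 (.s k51 k34 4 (.s k119 k187 9 (.d k102 k68 k39 4 8)))), (.s k101
  k37 7 (.s k117 k69 3 (.s k53 k181 7 (.d k197 k213 k149 3 11))))] .n) (.c k228 (.q k204 [(.d k221
  k238 k17 4 9), (.s k68 k136 9 (.d k102 k119 k51 4 14))] .n) .n))) .n))))))) (.c k95 (.q k1 [(.s
  k169 k253 13 (.s k3 k2 0 (.s k86 k252 14 (.d k87 k84 k171 0 13)))), (.s k5 k245 11 (.s k13 k9 1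
  (.s k89 k241 13 (.s k93 k81 1 (.d k253 k173 k169 11 13))))), (.s k3 k2 0 (.s k5 k245 11 (.s k9 k13
  1 (.s k6 k12 2 (.s k7 k4 0 (.d k15 k11 k10 1 2))))))] .n) (.c k175 (.l (.s k245 k5 11 (.s k240
  k250 2 (.s k80 k160 11 (.d k90 k95 k15 2 14))))) (.c k240 (.q k1 [(.s k3 k2 0 (.s k87 k171 13 (.s
  k86 k84 0 (.d k169 k253 k252 13 14)))), (.s k5 k245 11 (.s k13 k9 1 (.s k89 k241 13 (.s k93 k81 1
  (.d k253 k173 k169 11 13))))), (.s k3 k2 0 (.s k5 k245 11 (.s k9 k13 1 (.s k6 k12 2 (.s k7 k4 0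
  (.d k15 k11 k10 1 2))))))] .n) (.c k245 (.q k253 [(.s k169 k1 13 (.s k252 k254 0 (.s k84 k168 13
  (.d k86 k87 k3 0 14)))), (.s k169 k1 13 (.s k173 k161 1 (.s k93 k13 11 (.s k12 k174 12 (.s k4 k8 1
  (.s k166 k247 12 (.d k89 k81 k243 1 14)))))))] (.c k1 (.l (.s k252 k254 0 (.s k84 k168 13 (.s k86
  k87 0 (.s k244 k7 12 (.s k240 k248 1 (.s k80 k160 11 (.d k90 k95 k15 2 14)))))))) (.c k169 (.f
  k252 k254 0 (.q k86 [(.d k84 k168 k87 13 0), (.s k244 k7 12 (.s k240 k248 1 (.s k80 k160 11 (.d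
  k90 k95 k15 2 14))))] (.c k168 (.q k171 [(.d k87 k84 k3 0 13), (.s k244 k7 12 (.s k240 k248 1 (.s
  k80 k160 11 (.d k90 k95 k15 2 14))))] .n) (.c k171 (.l (.s k168 k84 13 (.s k244 k7 12 (.s k240
  k248 1 (.s k80 k160 11 (.d k90 k95 k15 2 14)))))) .n)))) .n))) (.c k250 (.l (.s k5 k245 11 (.s k15
  k10 2 (.s k90 k240 14 (.d k95 k80 k175 2 11))))) .n))))))))))))

def t27_234 : T TT 256 :=
  (.q k86 [(.s k84 k87 0 (.s k252 k168 13 (.s k169 k3 14 (.s k253 k1 13 (.d k255 k254 k170 0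
  14)))))] (.c k1 (.q k4 [(.s k12 k8 1 (.s k166 k247 12 (.s k89 k243 14 (.s k93 k81 1 (.d k255 k174
  k170 12 14))))), (.s k84 k87 0 (.s k166 k247 12 (.s k6 k246 11 (.s k7 k5 0 (.d k244 k164 k165 11
  12))))), (.s k12 k8 1 (.s k84 k87 0 (.s k164 k244 11 (.s k88 k240 13 (.s k92 k80 1 (.d k252 k172
  k168 11 13))))))] .n) (.c k3 (.q k4 [(.s k12 k8 1 (.s k166 k247 12 (.s k89 k243 14 (.s k93 k81 1
  (.d k255 k174 k170 12 14))))), (.s k84 k87 0 (.s k166 k247 12 (.s k6 k246 11 (.s k7 k5 0 (.d k244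
  k164 k165 11 12))))), (.s k12 k8 1 (.s k84 k87 0 (.s k164 k244 11 (.s k88 k240 13 (.s k92 k80 1
  (.d k252 k172 k168 11 13))))))] (.c k255 (.l (.s k87 k84 0 (.s k247 k166 12 (.s k7 k167 11 (.s k5
  k6 0 (.d k165 k245 k244 11 12)))))) .n)) (.c k84 (.q k4 [(.s k12 k8 1 (.s k166 k247 12 (.s k89
  k243 14 (.s k93 k81 1 (.d k255 k174 k170 12 14))))), (.s k12 k8 1 (.s k166 k247 12 (.s k6 k246 11
  (.s k3 k9 2 (.s k1 k2 0 (.d k169 k253 k252 13 14)))))), (.s k166 k247 12 (.s k6 k246 11 (.s k5 k7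
  0 (.s k10 k15 2 (.s k170 k255 14 (.d k2 k14 k254 1 13)))))), (.s k12 k8 1 (.s k170 k255 14 (.s k2
  k254 13 (.s k3 k1 0 (.s k6 k9 2 (.s k5 k7 0 (.d k10 k14 k15 1 2)))))))] .n) (.c k87 (.q k4 [(.s
  k12 k8 1 (.s k166 k247 12 (.s k89 k243 14 (.s k93 k81 1 (.d k255 k174 k170 12 14))))), (.s k12 k8
  1 (.s k166 k247 12 (.s k6 k246 11 (.s k3 k9 2 (.s k1 k2 0 (.d k169 k253 k252 13 14)))))), (.s k12
  k8 1 (.s k170 k255 14 (.s k2 k254 13 (.s k3 k1 0 (.s k6 k9 2 (.s k10 k14 1 (.d k5 k7 k15 0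
  2))))))), (.s k166 k247 12 (.s k6 k246 11 (.s k170 k255 14 (.s k2 k254 13 (.s k10 k14 1 (.d k5 k7
  k15 0 2))))))] (.c k7 (.l (.s k12 k8 1 (.s k255 k170 14 (.s k93 k174 12 (.s k89 k81 1 (.d k166
  k247 k243 12 14)))))) .n)) (.c k168 (.l (.s k87 k84 0 (.s k255 k170 14 (.s k3 k171 13 (.s k169
  k252 14 (.d k1 k2 k253 0 13)))))) (.c k169 (.q k4 [(.s k12 k8 1 (.s k166 k247 12 (.s k89 k243 14
  (.s k93 k81 1 (.d k255 k174 k170 12 14))))), (.s k84 k87 0 (.s k166 k247 12 (.s k6 k246 11 (.s k7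
  k5 0 (.d k244 k164 k165 11 12))))), (.s k12 k8 1 (.s k84 k87 0 (.s k164 k244 11 (.s k88 k240 13
  (.s k92 k80 1 (.d k252 k172 k168 11 13))))))] .n) (.c k170 (.q k106 [(.s k64 k127 6 (.s k66 k126 5
  (.s k67 k65 0 (.s k84 k87 0 (.d k124 k104 k105 5 6))))), (.s k84 k87 0 (.s k126 k66 5 (.s k252
  k168 13 (.s k63 k189 8 (.s k21 k42 6 (.d k149 k213 k192 7 14)))))), (.s k64 k127 6 (.s k84 k87 0
  (.s k192 k128 7 (.s k149 k63 14 (.s k212 k23 8 (.d k252 k232 k168 5 13)))))), (.s k64 k127 6 (.s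
  k66 k126 5 (.s k192 k128 7 (.s k3 k129 8 (.s k1 k2 0 (.d k169 k253 k252 13 14))))))] .n) (.c k171
  (.l (.s k84 k87 0 (.s k252 k168 13 (.s k3 k169 14 (.s k170 k255 14 (.d k2 k1 k254 0 13)))))) (.c
  k252 (.q k5 [(.s k15 k10 2 (.s k165 k245 11 (.s k90 k240 14 (.s k95 k80 2 (.d k255 k175 k170 11
  14))))), (.s k87 k84 0 (.s k165 k245 11 (.s k7 k244 12 (.s k4 k6 0 (.d k247 k167 k166 11 12))))),
  (.s k15 k10 2 (.s k87 k84 0 (.s k255 k170 14 (.s k3 k171 13 (.s k7 k11 1 (.s k4 k6 0 (.d k247 k167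
  k166 11 12)))))))] .n) (.c k253 (.l (.s k84 k87 0 (.s k170 k255 14 (.s k2 k254 13 (.s k252 k168 13
  (.d k3 k1 k169 0 14)))))) (.c k254 (.l (.s k87 k84 0 (.s k255 k170 14 (.s k3 k171 13 (.s k1 k2 0
  (.d k169 k253 k252 13 14)))))) (.c k255 (.q k192 [(.s k64 k128 7 (.s k84 k87 0 (.s k104 k124 5 (.s
  k60 k148 13 (.s k40 k20 5 (.d k168 k232 k252 7 13)))))), (.s k64 k128 7 (.s k106 k127 6 (.s k66
  k126 5 (.s k3 k129 8 (.s k1 k2 0 (.d k169 k253 k252 13 14)))))), (.s k84 k87 0 (.s k252 k168 13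
  (.s k212 k232 5 (.s k149 k23 8 (.s k21 k213 7 (.d k63 k42 k106 6 14)))))), (.s k64 k128 7 (.s k87
  k84 0 (.s k127 k106 6 (.s k67 k107 5 (.s k65 k66 0 (.d k105 k125 k124 5 6))))))] .n)
  .n)))))))))))))

def t27_235 : T TT 256 :=
  (.q k86 [(.s k84 k87 0 (.s k252 k168 13 (.s k169 k3 14 (.s k253 k1 13 (.d k255 k254 k170 0
  14)))))] (.c k1 (.q k4 [(.s k12 k8 1 (.s k166 k247 12 (.s k89 k243 14 (.s k93 k81 1 (.d k255 k174
  k170 12 14))))), (.s k84 k87 0 (.s k166 k247 12 (.s k6 k246 11 (.s k7 k5 0 (.d k244 k164 k165 11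
  12))))), (.s k12 k8 1 (.s k84 k87 0 (.s k164 k244 11 (.s k88 k240 13 (.s k92 k80 1 (.d k252 k172
  k168 11 13))))))] .n) (.c k3 (.q k4 [(.s k12 k8 1 (.s k166 k247 12 (.s k89 k243 14 (.s k93 k81 1
  (.d k255 k174 k170 12 14))))), (.s k84 k87 0 (.s k166 k247 12 (.s k6 k246 11 (.s k7 k5 0 (.d k244
  k164 k165 11 12))))), (.s k12 k8 1 (.s k84 k87 0 (.s k164 k244 11 (.s k88 k240 13 (.s k92 k80 1
  (.d k252 k172 k168 11 13))))))] (.c k255 (.l (.s k87 k84 0 (.s k247 k166 12 (.s k7 k167 11 (.s k5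
  k6 0 (.d k165 k245 k244 11 12)))))) .n)) (.c k84 (.q k4 [(.s k12 k8 1 (.s k166 k247 12 (.s k89
  k243 14 (.s k93 k81 1 (.d k255 k174 k170 12 14))))), (.s k12 k8 1 (.s k166 k247 12 (.s k6 k246 11
  (.s k3 k9 2 (.s k1 k2 0 (.d k169 k253 k252 13 14)))))), (.s k166 k247 12 (.s k6 k246 11 (.s k5 k7
  0 (.s k10 k15 2 (.s k170 k255 14 (.d k2 k14 k254 1 13)))))), (.s k12 k8 1 (.s k170 k255 14 (.s k2
  k254 13 (.s k3 k1 0 (.s k6 k9 2 (.s k5 k7 0 (.d k10 k14 k15 1 2)))))))] .n) (.c k87 (.q k4 [(.s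
  k12 k8 1 (.s k166 k247 12 (.s k89 k243 14 (.s k93 k81 1 (.d k255 k174 k170 12 14))))), (.s k12 k8
  1 (.s k166 k247 12 (.s k6 k246 11 (.s k3 k9 2 (.s k1 k2 0 (.d k169 k253 k252 13 14)))))), (.s k12
  k8 1 (.s k170 k255 14 (.s k2 k254 13 (.s k3 k1 0 (.s k6 k9 2 (.s k10 k14 1 (.d k5 k7 k15 0
  2))))))), (.s k166 k247 12 (.s k6 k246 11 (.s k170 k255 14 (.s k2 k254 13 (.s k10 k14 1 (.d k5 k7
  k15 0 2))))))] (.c k7 (.l (.s k12 k8 1 (.s k255 k170 14 (.s k93 k174 12 (.s k89 k81 1 (.d k166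
  k247 k243 12 14)))))) .n)) (.c k168 (.l (.s k87 k84 0 (.s k255 k170 14 (.s k3 k171 13 (.s k169
  k252 14 (.d k1 k2 k253 0 13)))))) (.c k169 (.q k4 [(.s k12 k8 1 (.s k166 k247 12 (.s k89 k243 14
  (.s k93 k81 1 (.d k255 k174 k170 12 14))))), (.s k84 k87 0 (.s k166 k247 12 (.s k6 k246 11 (.s k7
  k5 0 (.d k244 k164 k165 11 12))))), (.s k12 k8 1 (.s k84 k87 0 (.s k164 k244 11 (.s k88 k240 13
  (.s k92 k80 1 (.d k252 k172 k168 11 13))))))] .n) (.c k170 (.q k105 [(.s k65 k125 5 (.s k67 k124 6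
  (.s k64 k66 0 (.s k87 k84 0 (.d k127 k107 k106 5 6))))), (.s k65 k125 5 (.s k84 k87 0 (.s k195
  k130 8 (.s k150 k60 14 (.s k214 k22 7 (.d k252 k233 k168 6 13)))))), (.s k84 k87 0 (.s k124 k67 6
  (.s k252 k168 13 (.s k60 k188 7 (.s k20 k40 5 (.d k150 k215 k195 8 14)))))), (.s k65 k125 5 (.s
  k67 k124 6 (.s k195 k130 8 (.s k3 k131 7 (.s k1 k2 0 (.d k169 k253 k252 13 14))))))] .n) (.c k171
  (.l (.s k84 k87 0 (.s k252 k168 13 (.s k3 k169 14 (.s k170 k255 14 (.d k2 k1 k254 0 13)))))) (.c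
  k252 (.q k5 [(.s k15 k10 2 (.s k165 k245 11 (.s k90 k240 14 (.s k95 k80 2 (.d k255 k175 k170 11
  14))))), (.s k87 k84 0 (.s k165 k245 11 (.s k7 k244 12 (.s k4 k6 0 (.d k247 k167 k166 11 12))))),
  (.s k15 k10 2 (.s k87 k84 0 (.s k255 k170 14 (.s k3 k171 13 (.s k7 k11 1 (.s k4 k6 0 (.d k247 k167
  k166 11 12)))))))] .n) (.c k253 (.l (.s k84 k87 0 (.s k170 k255 14 (.s k2 k254 13 (.s k252 k168 13
  (.d k3 k1 k169 0 14)))))) (.c k254 (.l (.s k87 k84 0 (.s k255 k170 14 (.s k3 k171 13 (.s k1 k2 0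
  (.d k169 k253 k252 13 14)))))) (.c k255 (.q k195 [(.s k65 k130 8 (.s k84 k87 0 (.s k105 k125 5 (.s
  k60 k150 14 (.s k252 k168 13 (.d k124 k67 k188 6 7)))))), (.s k84 k87 0 (.s k252 k168 13 (.s k214
  k233 6 (.s k150 k22 7 (.s k20 k215 8 (.d k60 k40 k105 5 14)))))), (.s k65 k130 8 (.s k87 k84 0 (.s
  k105 k125 5 (.s k67 k124 6 (.s k64 k66 0 (.d k127 k107 k106 5 6)))))), (.s k65 k130 8 (.s k105
  k125 5 (.s k67 k124 6 (.s k3 k131 7 (.s k1 k2 0 (.d k169 k253 k252 13 14))))))] (.c k60 (.l (.s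
  k65 k130 8 (.s k84 k87 0 (.s k252 k168 13 (.s k3 k169 14 (.s k67 k131 7 (.d k105 k125 k124 5
  6))))))) (.c k105 (.f k65 k130 8 (.l (.s k84 k87 0 (.s k252 k168 13 (.s k3 k169 14 (.s k1 k2 0 (.s
  k67 k131 7 (.s k66 k64 0 (.d k129 k193 k192 7 8))))))))) .n))) .n)))))))))))))

def t27_238 : T TT 256 :=
  (.q k86 [(.s k84 k87 0 (.s k252 k168 13 (.s k169 k3 14 (.s k253 k1 13 (.d k255 k254 k170 0
  14)))))] (.c k1 (.q k4 [(.s k12 k8 1 (.s k166 k247 12 (.s k89 k243 14 (.s k93 k81 1 (.d k255 k174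
  k170 12 14))))), (.s k84 k87 0 (.s k166 k247 12 (.s k6 k246 11 (.s k7 k5 0 (.d k244 k164 k165 11
  12))))), (.s k12 k8 1 (.s k84 k87 0 (.s k164 k244 11 (.s k88 k240 13 (.s k92 k80 1 (.d k252 k172
  k168 11 13))))))] .n) (.c k3 (.q k4 [(.s k12 k8 1 (.s k166 k247 12 (.s k89 k243 14 (.s k93 k81 1
  (.d k255 k174 k170 12 14))))), (.s k84 k87 0 (.s k166 k247 12 (.s k6 k246 11 (.s k7 k5 0 (.d k244
  k164 k165 11 12))))), (.s k12 k8 1 (.s k84 k87 0 (.s k164 k244 11 (.s k88 k240 13 (.s k92 k80 1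
  (.d k252 k172 k168 11 13))))))] (.c k255 (.l (.s k87 k84 0 (.s k247 k166 12 (.s k7 k167 11 (.s k5
  k6 0 (.d k165 k245 k244 11 12)))))) .n)) (.c k84 (.q k4 [(.s k12 k8 1 (.s k166 k247 12 (.s k89
  k243 14 (.s k93 k81 1 (.d k255 k174 k170 12 14))))), (.s k12 k8 1 (.s k166 k247 12 (.s k6 k246 11
  (.s k3 k9 2 (.s k1 k2 0 (.d k169 k253 k252 13 14)))))), (.s k166 k247 12 (.s k6 k246 11 (.s k5 k7
  0 (.s k10 k15 2 (.s k170 k255 14 (.d k2 k14 k254 1 13)))))), (.s k12 k8 1 (.s k170 k255 14 (.s k2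
  k254 13 (.s k3 k1 0 (.s k6 k9 2 (.s k5 k7 0 (.d k10 k14 k15 1 2)))))))] .n) (.c k87 (.q k4 [(.s
  k12 k8 1 (.s k166 k247 12 (.s k89 k243 14 (.s k93 k81 1 (.d k255 k174 k170 12 14))))), (.s k12 k8
  1 (.s k166 k247 12 (.s k6 k246 11 (.s k3 k9 2 (.s k1 k2 0 (.d k169 k253 k252 13 14)))))), (.s k12
  k8 1 (.s k170 k255 14 (.s k2 k254 13 (.s k3 k1 0 (.s k6 k9 2 (.s k10 k14 1 (.d k5 k7 k15 0
  2))))))), (.s k166 k247 12 (.s k6 k246 11 (.s k170 k255 14 (.s k2 k254 13 (.s k10 k14 1 (.d k5 k7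
  k15 0 2))))))] (.c k7 (.l (.s k12 k8 1 (.s k255 k170 14 (.s k93 k174 12 (.s k89 k81 1 (.d k166
  k247 k243 12 14)))))) .n)) (.c k168 (.l (.s k87 k84 0 (.s k255 k170 14 (.s k3 k171 13 (.s k169
  k252 14 (.d k1 k2 k253 0 13)))))) (.c k169 (.q k4 [(.s k12 k8 1 (.s k166 k247 12 (.s k89 k243 14
  (.s k93 k81 1 (.d k255 k174 k170 12 14))))), (.s k84 k87 0 (.s k166 k247 12 (.s k6 k246 11 (.s k7
  k5 0 (.d k244 k164 k165 11 12))))), (.s k12 k8 1 (.s k84 k87 0 (.s k164 k244 11 (.s k88 k240 13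
  (.s k92 k80 1 (.d k252 k172 k168 11 13))))))] .n) (.c k170 (.q k102 [(.s k68 k119 4 (.s k70 k118 3
  (.s k71 k69 0 (.s k84 k87 0 (.d k116 k100 k101 3 4))))), (.s k84 k87 0 (.s k118 k70 3 (.s k252
  k168 13 (.s k51 k185 10 (.s k17 k34 4 (.d k153 k221 k204 9 14)))))), (.s k68 k119 4 (.s k84 k87 0
  (.s k204 k136 9 (.s k153 k51 14 (.s k220 k19 10 (.d k252 k236 k168 3 13)))))), (.s k68 k119 4 (.s
  k70 k118 3 (.s k204 k136 9 (.s k3 k137 10 (.s k1 k2 0 (.d k169 k253 k252 13 14))))))] .n) (.c k171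
  (.l (.s k84 k87 0 (.s k252 k168 13 (.s k3 k169 14 (.s k170 k255 14 (.d k2 k1 k254 0 13)))))) (.c
  k252 (.q k5 [(.s k15 k10 2 (.s k165 k245 11 (.s k90 k240 14 (.s k95 k80 2 (.d k255 k175 k170 11
  14))))), (.s k87 k84 0 (.s k165 k245 11 (.s k7 k244 12 (.s k4 k6 0 (.d k247 k167 k166 11 12))))),
  (.s k15 k10 2 (.s k87 k84 0 (.s k255 k170 14 (.s k3 k171 13 (.s k7 k11 1 (.s k4 k6 0 (.d k247 k167
  k166 11 12)))))))] .n) (.c k253 (.l (.s k84 k87 0 (.s k170 k255 14 (.s k2 k254 13 (.s k252 k168 13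
  (.d k3 k1 k169 0 14)))))) (.c k254 (.l (.s k87 k84 0 (.s k255 k170 14 (.s k3 k171 13 (.s k1 k2 0
  (.d k169 k253 k252 13 14)))))) (.c k255 (.q k204 [(.s k68 k136 9 (.s k84 k87 0 (.s k100 k116 3 (.s
  k48 k152 13 (.s k32 k16 3 (.d k168 k236 k252 9 13)))))), (.s k68 k136 9 (.s k102 k119 4 (.s k70
  k118 3 (.s k3 k137 10 (.s k1 k2 0 (.d k169 k253 k252 13 14)))))), (.s k84 k87 0 (.s k252 k168 13
  (.s k220 k236 3 (.s k153 k19 10 (.s k17 k221 9 (.d k51 k34 k102 4 14)))))), (.s k68 k136 9 (.s k87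
  k84 0 (.s k119 k102 4 (.s k71 k103 3 (.s k69 k70 0 (.d k101 k117 k116 3 4))))))] .n)
  .n)))))))))))))

def t42_43 : T TT 256 :=
  (.q k105 [(.s k65 k125 5 (.s k170 k255 14 (.s k195 k130 8 (.s k60 k150 14 (.d k40 k20 k235 5
  8)))))] (.c k20 (.f k170 k255 14 (.q k41 [(.s k169 k233 7 (.s k168 k171 0 (.s k252 k84 13 (.s k3
  k86 14 (.d k1 k2 k253 0 13))))), (.s k65 k125 5 (.s k169 k233 7 (.s k1 k253 13 (.s k61 k21 5 (.d
  k193 k129 k149 7 13))))), (.s k65 k125 5 (.s k195 k130 8 (.s k60 k150 14 (.s k3 k22 6 (.s k2 k1 0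
  (.s k67 k131 7 (.d k86 k124 k254 6 13)))))))] (.c k1 (.l (.s k65 k125 5 (.s k169 k233 7 (.s k168
  k171 0 (.s k195 k130 8 (.s k60 k150 14 (.s k3 k22 6 (.d k252 k86 k84 14 13)))))))) (.c k169 (.l
  (.s k65 k125 5 (.s k195 k130 8 (.s k60 k150 14 (.s k3 k22 6 (.s k2 k1 0 (.s k86 k254 13 (.d k67
  k131 k124 7 6)))))))) .n)))) (.c k40 (.q k41 [(.s k65 k125 5 (.s k195 k130 8 (.s k150 k60 14 (.s
  k215 k20 8 (.d k255 k235 k170 5 14))))), (.s k65 k125 5 (.s k169 k233 7 (.s k1 k253 13 (.s k61 k21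
  5 (.d k193 k129 k149 7 13))))), (.s k169 k233 7 (.s k1 k253 13 (.s k3 k2 0 (.s k86 k252 14 (.s k87
  k84 0 (.d k255 k171 k170 13 14))))))] .n) (.c k41 (.q k40 [(.d k170 k235 k255 8 14), (.s k60 k20 5
  (.s k65 k125 5 (.d k195 k130 k150 8 14)))] .n) (.c k60 (.f k170 k255 14 (.f k125 k65 5 (.q k84
  [(.s k86 k87 0 (.s k2 k254 13 (.s k252 k168 13 (.d k3 k1 k169 0 14)))), (.s k86 k87 0 (.s k124 k67
  6 (.s k64 k104 5 (.d k127 k126 k106 0 6))))] (.c k3 (.l (.s k40 k235 8 (.s k168 k252 13 (.s k104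
  k232 7 (.s k124 k64 5 (.d k86 k67 k87 6 0)))))) (.c k40 (.q k41 [(.s k169 k233 7 (.d k168 k171
  k252 0 13)), (.s k86 k87 0 (.s k124 k67 6 (.s k64 k104 5 (.d k127 k126 k106 0 6))))] (.c k168 (.l
  (.s k86 k87 0 (.s k2 k254 13 (.s k3 k1 0 (.d k169 k252 k233 14 7))))) (.c k171 (.l (.s k169 k233 7
  (.s k252 k168 13 (.d k86 k87 k3 0 14)))) .n))) (.c k41 (.l (.s k40 k235 8 (.s k86 k87 0 (.s k2
  k254 13 (.s k3 k1 0 (.d k252 k168 k169 13 14)))))) (.c k86 (.l (.s k168 k252 13 (.s k169 k171 0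
  (.s k253 k1 13 (.s k61 k189 7 (.s k193 k149 13 (.d k233 k213 k41 5 7))))))) (.c k87 (.l (.s k40
  k235 8 (.s k168 k252 13 (.s k104 k232 7 (.s k106 k107 0 (.s k171 k169 0 (.d k64 k124 k127 5
  6))))))) (.c k171 (.l (.s k252 k168 13 (.s k86 k87 0 (.s k3 k169 14 (.d k2 k1 k254 0 13)))))
  .n))))))))) (.c k65 (.f k170 k255 14 (.q k169 [(.s k1 k253 13 (.s k3 k2 0 (.s k252 k86 14 (.d k168
  k171 k84 0 13)))), (.s k40 k235 8 (.s k60 k20 5 (.s k195 k150 14 (.s k233 k41 7 (.s k252 k214 6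
  (.d k168 k171 k84 0 13)))))), (.s k1 k253 13 (.s k3 k2 0 (.s k41 k233 7 (.s k61 k21 5 (.s k60 k22
  6 (.s k62 k63 0 (.d k40 k20 k235 5 8)))))))] (.c k22 (.l (.s k1 k253 13 (.s k168 k171 0 (.s k252
  k84 13 (.d k3 k2 k86 0 14))))) (.c k40 (.l (.s k41 k233 7 (.s k1 k253 13 (.s k3 k2 0 (.s k168 k171
  0 (.d k252 k84 k86 13 14)))))) (.c k41 (.l (.s k40 k235 8 (.s k1 k253 13 (.s k3 k2 0 (.s k252 k86
  14 (.d k168 k171 k84 0 13)))))) (.c k252 (.l (.s k40 k235 8 (.s k41 k233 7 (.s k60 k20 5 (.s k3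
  k22 6 (.d k1 k2 k253 0 13)))))) .n)))))) (.c k125 (.f k170 k255 14 (.q k169 [(.s k168 k171 0 (.s
  k252 k84 13 (.s k3 k86 14 (.d k1 k2 k253 0 13)))), (.s k1 k253 13 (.s k3 k2 0 (.s k41 k233 7 (.s
  k61 k21 5 (.s k60 k22 6 (.s k62 k63 0 (.d k40 k20 k235 5 8))))))), (.s k40 k235 8 (.s k60 k20 5
  (.s k195 k150 14 (.s k233 k41 7 (.s k252 k214 6 (.d k168 k171 k84 0 13))))))] (.c k40 (.l (.s k41
  k233 7 (.s k1 k253 13 (.s k3 k2 0 (.s k168 k171 0 (.d k252 k84 k86 13 14)))))) (.c k41 (.l (.s k40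
  k235 8 (.s k1 k253 13 (.s k3 k2 0 (.s k252 k86 14 (.d k168 k171 k84 0 13)))))) (.c k60 (.q k190
  [(.s k168 k171 0 (.s k252 k84 13 (.s k3 k86 14 (.d k1 k2 k253 0 13)))), (.s k150 k130 5 (.s k188
  k131 6 (.s k191 k189 0 (.s k128 k149 6 (.d k168 k171 k148 0 5))))), (.s k1 k253 13 (.s k3 k2 0 (.s
  k130 k150 5 (.s k195 k65 8 (.s k67 k131 7 (.d k86 k252 k124 14 6))))))] (.c k40 (.l (.s k41 k233 7
  (.s k1 k253 13 (.s k3 k2 0 (.s k168 k171 0 (.d k252 k84 k86 13 14)))))) (.c k41 (.l (.s k40 k235 8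
  (.s k1 k253 13 (.s k3 k2 0 (.s k252 k86 14 (.d k168 k171 k84 0 13)))))) (.c k253 (.l (.s k130 k150
  5 (.s k168 k171 0 (.s k195 k65 8 (.s k252 k84 13 (.d k233 k214 k41 6 7)))))) .n)))) (.c k190 (.q
  k60 [(.d k40 k20 k235 5 8), (.s k1 k253 13 (.s k3 k2 0 (.d k41 k22 k233 6 7)))] (.c k40 (.l (.s
  k41 k233 7 (.s k1 k253 13 (.d k3 k2 k22 0 6)))) (.c k41 (.l (.d k40 k20 k235 5 8)) .n))) (.c k235
  (.l (.s k1 k253 13 (.s k3 k2 0 (.s k252 k86 14 (.d k168 k171 k84 0 13))))) (.c k252 (.l (.s k40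
  k235 8 (.s k41 k233 7 (.s k60 k20 5 (.s k3 k22 6 (.d k1 k2 k253 0 13)))))) .n)))))))) (.c k130 (.l
  (.s k125 k65 5 (.s k255 k170 14 (.s k60 k190 8 (.s k150 k195 14 (.d k20 k40 k215 5 8)))))) (.c
  k150 (.f k170 k255 14 (.q k169 [(.s k1 k253 13 (.s k168 k171 0 (.s k252 k84 13 (.d k3 k2 k86 0
  14)))), (.s k1 k253 13 (.s k41 k233 7 (.s k61 k21 5 (.s k65 k125 5 (.d k193 k129 k149 7 13))))),
  (.s k65 k125 5 (.s k168 k171 0 (.s k195 k130 8 (.s k252 k84 13 (.d k233 k41 k214 7 6)))))] (.c k40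
  (.l (.s k41 k233 7 (.s k1 k253 13 (.s k3 k2 0 (.s k168 k171 0 (.d k252 k84 k86 13 14)))))) (.c k41
  (.l (.s k40 k235 8 (.s k1 k253 13 (.s k3 k2 0 (.s k252 k86 14 (.d k168 k171 k84 0 13)))))) (.c
  k252 (.l (.s k40 k235 8 (.s k41 k233 7 (.s k60 k20 5 (.s k3 k22 6 (.d k1 k2 k253 0 13))))))
  .n))))) (.c k170 (.f k65 k125 5 (.q k106 [(.s k64 k127 6 (.s k67 k66 0 (.s k104 k107 0 (.d k124
  k84 k86 5 6)))), (.s k107 k104 0 (.s k195 k130 8 (.s k63 k151 13 (.s k149 k192 14 (.s k61 k193 13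
  (.d k60 k150 k62 14 0)))))), (.s k64 k127 6 (.s k192 k128 7 (.s k149 k63 14 (.s k193 k61 13 (.d
  k195 k194 k130 0 8)))))] (.c k40 (.q k41 [(.s k169 k233 7 (.s k1 k253 13 (.s k61 k21 5 (.d k193
  k129 k149 7 13)))), (.s k64 k127 6 (.s k67 k66 0 (.s k104 k107 0 (.d k124 k84 k86 5 6))))] .n) (.c
  k41 (.q k40 [(.s k60 k20 5 (.d k195 k130 k150 8 14)), (.s k64 k127 6 (.s k67 k66 0 (.s k104 k107 0
  (.d k124 k84 k86 5 6))))] .n) .n)))) (.c k190 (.l (.s k65 k125 5 (.s k195 k130 8 (.s k60 k150 14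
  (.s k170 k255 14 (.d k40 k20 k235 5 8)))))) (.c k195 (.f k65 k125 5 (.q k169 [(.s k1 k253 13 (.s
  k193 k129 7 (.s k61 k149 13 (.d k41 k21 k233 5 7)))), (.s k41 k233 7 (.s k170 k255 14 (.s k168
  k171 0 (.s k252 k84 13 (.s k3 k86 14 (.s k60 k22 6 (.d k40 k235 k20 8 5)))))))] (.c k40 (.l (.s
  k41 k233 7 (.s k1 k253 13 (.s k61 k21 5 (.d k193 k129 k149 7 13))))) (.c k41 (.q k40 [(.d k170
  k235 k255 8 14), (.s k1 k253 13 (.s k3 k2 0 (.s k86 k252 14 (.s k67 k124 6 (.s k66 k64 0 (.d k129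
  k193 k192 7 8))))))] (.c k255 (.l (.s k1 k253 13 (.s k3 k2 0 (.s k252 k86 14 (.s k168 k84 13 (.d
  k170 k171 k235 0 8)))))) .n)) (.c k233 (.l (.s k1 k253 13 (.s k3 k2 0 (.s k170 k255 14 (.s k168
  k171 0 (.d k252 k84 k86 13 14)))))) .n))))) (.c k235 (.l (.s k125 k65 5 (.s k255 k170 14 (.s k60
  k190 8 (.s k150 k195 14 (.d k20 k40 k215 5 8)))))) (.c k255 (.q k81 [(.s k89 k93 1 (.s k121 k73 3
  (.s k243 k162 12 (.s k60 k182 10 (.s k150 k195 14 (.d k20 k40 k215 5 8)))))), (.s k65 k125 5 (.s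
  k97 k113 3 (.s k162 k243 12 (.s k32 k227 8 (.s k48 k16 3 (.d k195 k130 k146 8 12)))))), (.s k65
  k125 5 (.s k89 k93 1 (.s k73 k121 3 (.s k77 k69 1 (.d k113 k97 k101 3 5)))))] (.c k40 (.q k41 [(.s
  k169 k233 7 (.s k1 k253 13 (.s k61 k21 5 (.s k193 k149 13 (.d k65 k125 k129 5 7))))), (.s k65 k125
  5 (.s k89 k93 1 (.s k73 k121 3 (.s k77 k69 1 (.d k113 k97 k101 3 5))))), (.s k89 k93 1 (.s k73
  k121 3 (.s k169 k233 7 (.s k9 k249 11 (.s k57 k25 3 (.d k201 k137 k153 7 11))))))] .n) (.c k41 (.q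
  k40 [(.s k60 k20 5 (.s k65 k125 5 (.d k195 k130 k150 8 14))), (.s k89 k93 1 (.s k170 k235 8 (.s k8
  k251 12 (.s k12 k4 1 (.d k243 k162 k166 12 14)))))] (.c k195 (.l (.s k60 k20 5 (.s k89 k93 1 (.s
  k121 k73 3 (.d k243 k182 k162 10 12))))) .n)) (.c k60 (.l (.s k89 k93 1 (.s k73 k121 3 (.s k243
  k162 12 (.s k12 k166 14 (.s k195 k134 10 (.d k65 k125 k130 5 8))))))) (.c k121 (.l (.s k65 k125 5
  (.s k89 k93 1 (.s k195 k130 8 (.s k243 k162 12 (.s k211 k227 3 (.d k150 k60 k28 14 10)))))))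
  .n))))) .n))))))))))))))

def t42_47 : T TT 256 :=
  (.q k101 [(.s k69 k117 3 (.s k170 k255 14 (.s k207 k138 10 (.s k48 k154 14 (.d k32 k16 k239 3
  10)))))] (.c k16 (.f k170 k255 14 (.q k37 [(.s k165 k229 7 (.s k160 k175 2 (.s k240 k80 11 (.s k15
  k90 14 (.d k5 k10 k245 2 11))))), (.s k69 k117 3 (.s k165 k229 7 (.s k5 k245 11 (.s k53 k21 3 (.d
  k197 k133 k149 7 11))))), (.s k69 k117 3 (.s k207 k138 10 (.s k48 k154 14 (.s k15 k26 6 (.s k10 k5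
  2 (.s k79 k143 7 (.d k90 k112 k250 6 11)))))))] (.c k5 (.l (.s k69 k117 3 (.s k165 k229 7 (.s k160
  k175 2 (.s k207 k138 10 (.s k48 k154 14 (.s k15 k26 6 (.d k240 k90 k80 14 11)))))))) (.c k165 (.l
  (.s k69 k117 3 (.s k207 k138 10 (.s k48 k154 14 (.s k15 k26 6 (.s k10 k5 2 (.s k90 k250 11 (.d k79
  k143 k112 7 6)))))))) .n)))) (.c k32 (.q k37 [(.s k69 k117 3 (.s k207 k138 10 (.s k154 k48 14 (.s
  k223 k16 10 (.d k255 k239 k170 3 14))))), (.s k69 k117 3 (.s k165 k229 7 (.s k5 k245 11 (.s k53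
  k21 3 (.d k197 k133 k149 7 11))))), (.s k165 k229 7 (.s k5 k245 11 (.s k15 k10 2 (.s k90 k240 14
  (.s k95 k80 2 (.d k255 k175 k170 11 14))))))] .n) (.c k37 (.q k32 [(.d k170 k239 k255 10 14), (.s
  k48 k16 3 (.s k69 k117 3 (.d k207 k138 k154 10 14)))] .n) (.c k48 (.f k170 k255 14 (.f k117 k69 3
  (.q k113 [(.s k77 k89 5 (.s k125 k121 1 (.s k105 k65 5 (.d k109 k97 k93 1 3)))), (.s k89 k77 5 (.s
  k8 k251 12 (.s k12 k4 1 (.s k243 k166 14 (.d k81 k93 k162 1 12))))), (.s k32 k239 10 (.s k125 k121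
  1 (.s k105 k65 5 (.s k40 k235 8 (.s k44 k36 1 (.s k97 k109 1 (.d k227 k162 k166 8 10)))))))] (.c
  k32 (.q k37 [(.s k77 k89 5 (.s k125 k121 1 (.s k105 k65 5 (.d k109 k97 k93 1 3)))), (.s k165 k229
  7 (.s k5 k245 11 (.s k15 k10 2 (.s k160 k175 2 (.d k240 k80 k90 11 14)))))] .n) (.c k37 (.l (.s
  k32 k239 10 (.s k77 k89 5 (.s k125 k121 1 (.s k105 k65 5 (.d k109 k97 k93 1 3)))))) (.c k65 (.l
  (.s k121 k125 1 (.s k89 k77 5 (.s k73 k105 3 (.s k8 k251 12 (.s k12 k4 1 (.s k243 k166 14 (.d k81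
  k93 k162 1 12)))))))) (.c k73 (.l (.s k77 k89 5 (.s k125 k121 1 (.s k105 k65 5 (.d k109 k97 k93 1
  3))))) (.c k77 (.l (.s k125 k121 1 (.s k65 k105 5 (.s k81 k97 3 (.s k89 k93 1 (.s k8 k251 12 (.s
  k12 k4 1 (.d k243 k162 k166 12 14)))))))) .n)))))))) (.c k69 (.f k170 k255 14 (.q k165 [(.s k5
  k245 11 (.s k15 k10 2 (.s k240 k90 14 (.d k160 k175 k80 2 11)))), (.s k32 k239 10 (.s k48 k16 3
  (.s k207 k154 14 (.s k229 k37 7 (.s k240 k218 6 (.d k160 k175 k80 2 11)))))), (.s k5 k245 11 (.s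
  k15 k10 2 (.s k37 k229 7 (.s k53 k21 3 (.s k48 k26 6 (.s k58 k63 2 (.d k32 k16 k239 3 10)))))))]
  (.c k26 (.l (.s k5 k245 11 (.s k160 k175 2 (.s k240 k80 11 (.d k15 k10 k90 2 14))))) (.c k32 (.l
  (.s k37 k229 7 (.s k5 k245 11 (.s k15 k10 2 (.s k160 k175 2 (.d k240 k80 k90 11 14)))))) (.c k37
  (.l (.s k32 k239 10 (.s k5 k245 11 (.s k15 k10 2 (.s k240 k90 14 (.d k160 k175 k80 2 11)))))) (.c
  k240 (.l (.s k32 k239 10 (.s k37 k229 7 (.s k48 k16 3 (.s k15 k26 6 (.d k5 k10 k245 2 11))))))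
  .n)))))) (.c k117 (.f k170 k255 14 (.q k165 [(.s k160 k175 2 (.s k240 k80 11 (.s k15 k90 14 (.d k5
  k10 k245 2 11)))), (.s k5 k245 11 (.s k15 k10 2 (.s k37 k229 7 (.s k53 k21 3 (.s k48 k26 6 (.s k58
  k63 2 (.d k32 k16 k239 3 10))))))), (.s k32 k239 10 (.s k48 k16 3 (.s k207 k154 14 (.s k229 k37 7
  (.s k240 k218 6 (.d k160 k175 k80 2 11))))))] (.c k32 (.l (.s k37 k229 7 (.s k5 k245 11 (.s k15
  k10 2 (.s k160 k175 2 (.d k240 k80 k90 11 14)))))) (.c k37 (.l (.s k32 k239 10 (.s k5 k245 11 (.s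
  k15 k10 2 (.s k240 k90 14 (.d k160 k175 k80 2 11)))))) (.c k48 (.q k186 [(.s k160 k175 2 (.s k240
  k80 11 (.s k15 k90 14 (.d k5 k10 k245 2 11)))), (.s k154 k138 3 (.s k176 k143 6 (.s k191 k181 2
  (.s k128 k149 6 (.d k160 k175 k144 2 3))))), (.s k5 k245 11 (.s k15 k10 2 (.s k138 k154 3 (.s k207
  k69 10 (.s k79 k143 7 (.d k90 k240 k112 14 6))))))] (.c k32 (.l (.s k37 k229 7 (.s k5 k245 11 (.s
  k15 k10 2 (.s k160 k175 2 (.d k240 k80 k90 11 14)))))) (.c k37 (.l (.s k32 k239 10 (.s k5 k245 11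
  (.s k15 k10 2 (.s k240 k90 14 (.d k160 k175 k80 2 11)))))) (.c k245 (.l (.s k138 k154 3 (.s k160
  k175 2 (.s k207 k69 10 (.s k240 k80 11 (.d k229 k218 k37 6 7)))))) .n)))) (.c k186 (.q k48 [(.d
  k32 k16 k239 3 10), (.s k5 k245 11 (.s k15 k10 2 (.d k37 k26 k229 6 7)))] (.c k32 (.l (.s k37 k229
  7 (.s k5 k245 11 (.d k15 k10 k26 2 6)))) (.c k37 (.l (.d k32 k16 k239 3 10)) .n))) (.c k239 (.l
  (.s k5 k245 11 (.s k15 k10 2 (.s k240 k90 14 (.d k160 k175 k80 2 11))))) (.c k240 (.l (.s k32 k239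
  10 (.s k37 k229 7 (.s k48 k16 3 (.s k15 k26 6 (.d k5 k10 k245 2 11)))))) .n)))))))) (.c k138 (.l
  (.s k117 k69 3 (.s k255 k170 14 (.s k48 k186 10 (.s k154 k207 14 (.d k16 k32 k223 3 10)))))) (.c
  k154 (.f k170 k255 14 (.q k165 [(.s k5 k245 11 (.s k160 k175 2 (.s k240 k80 11 (.d k15 k10 k90 2
  14)))), (.s k5 k245 11 (.s k37 k229 7 (.s k53 k21 3 (.s k69 k117 3 (.d k197 k133 k149 7 11))))),
  (.s k69 k117 3 (.s k160 k175 2 (.s k207 k138 10 (.s k240 k80 11 (.d k229 k37 k218 7 6)))))] (.c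
  k32 (.l (.s k37 k229 7 (.s k5 k245 11 (.s k15 k10 2 (.s k160 k175 2 (.d k240 k80 k90 11 14))))))
  (.c k37 (.l (.s k32 k239 10 (.s k5 k245 11 (.s k15 k10 2 (.s k240 k90 14 (.d k160 k175 k80 2
  11)))))) (.c k240 (.l (.s k32 k239 10 (.s k37 k229 7 (.s k48 k16 3 (.s k15 k26 6 (.d k5 k10 k245 2
  11)))))) .n))))) (.c k170 (.f k69 k117 3 (.q k106 [(.s k64 k127 6 (.s k79 k74 2 (.s k96 k111 2 (.d
  k112 k80 k90 3 6)))), (.s k111 k96 2 (.s k207 k138 10 (.s k63 k159 11 (.s k149 k192 14 (.s k53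
  k197 11 (.d k48 k154 k58 14 2)))))), (.s k64 k127 6 (.s k192 k128 7 (.s k149 k63 14 (.s k197 k53
  11 (.d k207 k202 k138 2 10)))))] (.c k32 (.q k37 [(.s k165 k229 7 (.s k5 k245 11 (.s k53 k21 3 (.d
  k197 k133 k149 7 11)))), (.s k64 k127 6 (.s k79 k74 2 (.s k96 k111 2 (.d k112 k80 k90 3 6))))] .n)
  (.c k37 (.q k32 [(.s k48 k16 3 (.d k207 k138 k154 10 14)), (.s k64 k127 6 (.s k79 k74 2 (.s k96
  k111 2 (.d k112 k80 k90 3 6))))] .n) .n)))) (.c k186 (.l (.s k69 k117 3 (.s k207 k138 10 (.s k48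
  k154 14 (.s k170 k255 14 (.d k32 k16 k239 3 10)))))) (.c k207 (.f k117 k69 3 (.q k165 [(.s k245 k5
  11 (.s k53 k181 7 (.s k197 k149 11 (.d k229 k37 k213 7 3)))), (.s k37 k229 7 (.s k255 k170 14 (.s
  k48 k186 10 (.s k15 k26 6 (.s k95 k175 11 (.d k90 k240 k80 14 2))))))] (.c k32 (.l (.s k37 k229 7
  (.s k5 k245 11 (.s k15 k10 2 (.s k255 k170 14 (.d k48 k26 k186 6 10)))))) (.c k37 (.q k32 [(.d
  k170 k239 k255 10 14), (.s k5 k245 11 (.s k15 k10 2 (.s k48 k16 3 (.s k90 k240 14 (.s k95 k80 2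
  (.d k255 k186 k175 10 11))))))] (.c k255 (.l (.s k5 k245 11 (.s k15 k10 2 (.s k240 k90 14 (.s k160
  k80 11 (.d k170 k175 k239 2 10)))))) .n)) (.c k229 (.l (.s k5 k245 11 (.s k15 k10 2 (.s k170 k255
  14 (.s k160 k175 2 (.d k240 k80 k90 11 14)))))) .n))))) (.c k239 (.l (.s k117 k69 3 (.s k255 k170
  14 (.s k48 k186 10 (.s k154 k207 14 (.d k16 k32 k223 3 10)))))) (.c k255 (.q k169 [(.s k117 k69 3
  (.s k237 k33 9 (.s k253 k1 13 (.s k49 k185 9 (.d k205 k221 k153 3 13))))), (.s k69 k117 3 (.s k207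
  k138 10 (.s k237 k33 9 (.s k252 k222 4 (.s k84 k168 13 (.d k86 k87 k3 0 14)))))), (.s k1 k253 13
  (.s k3 k2 0 (.s k69 k117 3 (.s k207 k138 10 (.s k71 k139 9 (.d k86 k252 k116 14 4)))))), (.s k1
  k253 13 (.s k3 k2 0 (.s k33 k237 9 (.s k48 k18 4 (.s k154 k207 14 (.d k16 k32 k223 3 10))))))] (.c
  k32 (.q k37 [(.s k1 k253 13 (.s k33 k237 9 (.s k49 k17 3 (.s k205 k153 13 (.d k69 k117 k137 3
  9))))), (.s k33 k237 9 (.s k45 k41 1 (.s k165 k229 7 (.s k161 k173 1 (.d k225 k97 k105 7 9))))),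
  (.s k69 k117 3 (.s k165 k229 7 (.s k5 k245 11 (.s k53 k21 3 (.d k197 k133 k149 7 11)))))] .n) (.c
  k37 (.q k32 [(.s k48 k16 3 (.s k69 k117 3 (.d k207 k138 k154 10 14))), (.s k1 k253 13 (.s k33 k237
  9 (.s k17 k49 3 (.d k34 k35 k51 0 4))))] (.c k117 (.l (.s k1 k253 13 (.s k3 k2 0 (.s k33 k237 9
  (.d k48 k16 k18 3 4))))) .n)) .n))) .n))))))))))))))

def t42_63 : T TT 256 :=
  (.q k86 [(.s k84 k87 0 (.s k252 k168 13 (.s k3 k169 14 (.s k2 k1 0 (.d k170 k254 k255 13 14)))))]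
  (.c k1 (.q k4 [(.s k84 k87 0 (.s k166 k247 12 (.s k6 k246 11 (.s k7 k5 0 (.d k244 k164 k165 11
  12))))), (.s k12 k8 1 (.s k166 k247 12 (.s k89 k243 14 (.s k93 k81 1 (.d k255 k174 k170 12
  14))))), (.s k12 k8 1 (.s k84 k87 0 (.s k164 k244 11 (.s k88 k240 13 (.s k92 k80 1 (.d k252 k172
  k168 11 13))))))] .n) (.c k2 (.l (.s k84 k87 0 (.s k252 k168 13 (.s k169 k3 14 (.s k253 k1 13 (.d
  k255 k254 k170 0 14)))))) (.c k3 (.f k87 k84 0 (.q k150 [(.s k215 k20 8 (.s k23 k151 7 (.s k212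
  k149 8 (.d k214 k213 k22 0 7)))), (.s k170 k255 14 (.s k190 k130 5 (.s k214 k22 7 (.s k254 k2 13
  (.s k62 k126 7 (.d k194 k234 k106 5 13)))))), (.s k20 k215 8 (.s k60 k40 5 (.s k105 k195 14 (.s
  k125 k65 5 (.d k255 k190 k170 8 14)))))] (.c k23 (.q k43 [(.s k20 k215 8 (.s k60 k40 5 (.s k170
  k255 14 (.s k130 k190 5 (.d k195 k65 k105 8 14))))), (.s k170 k255 14 (.s k190 k130 5 (.s k254 k2
  13 (.s k62 k126 7 (.s k194 k106 13 (.d k214 k22 k234 7 5)))))), (.s k20 k215 8 (.s k60 k40 5 (.s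
  k105 k195 14 (.s k65 k125 5 (.s k67 k124 6 (.s k64 k66 0 (.d k127 k107 k106 5 6)))))))] (.c k127
  (.l (.s k20 k215 8 (.s k60 k40 5 (.s k105 k195 14 (.s k125 k65 5 (.d k255 k190 k170 8 14)))))) (.c
  k255 (.q k127 [(.s k20 k215 8 (.s k60 k40 5 (.s k67 k107 5 (.d k105 k195 k124 14 6)))), (.s k106
  k64 6 (.s k66 k126 5 (.s k194 k62 13 (.s k2 k130 7 (.s k214 k22 7 (.d k254 k234 k170 5 13)))))),
  (.s k64 k106 6 (.s k67 k107 5 (.s k65 k66 0 (.d k105 k125 k124 5 6))))] (.c k124 (.l (.s k64 k106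
  6 (.s k67 k107 5 (.s k65 k66 0 (.s k105 k125 5 (.d k195 k60 k130 14 8)))))) .n)) .n))) (.c k43 (.q
  k23 [(.d k215 k151 k20 7 8), (.s k22 k214 7 (.s k21 k20 0 (.d k149 k212 k213 8 7)))] (.c k20 (.l
  (.s k151 k215 7 (.d k149 k148 k212 0 8))) (.c k40 (.q k41 [(.d k215 k151 k20 7 8), (.s k22 k214 7
  (.s k21 k20 0 (.d k149 k212 k213 8 7)))] (.c k20 (.l (.s k151 k215 7 (.d k149 k148 k212 0 8)))
  .n)) (.c k41 (.q k40 [(.d k20 k60 k215 5 8)] (.c k20 (.l (.s k151 k215 7 (.d k149 k148 k212 0 8)))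
  (.c k22 (.l (.s k60 k20 5 (.s k105 k195 14 (.d k170 k235 k255 8 14)))) (.c k60 (.l (.s k22 k214 7
  (.d k20 k21 k215 0 8))) (.c k215 (.l (.s k20 k60 5 (.d k22 k21 k214 0 7))) .n))))) .n)))) .n))))
  (.c k84 (.q k4 [(.s k166 k247 12 (.s k170 k255 14 (.s k162 k174 1 (.s k243 k81 12 (.d k12 k8 k89 1
  14))))), (.s k12 k8 1 (.s k166 k247 12 (.s k6 k246 11 (.s k3 k9 2 (.s k1 k2 0 (.d k169 k253 k252
  13 14)))))), (.s k166 k247 12 (.s k6 k246 11 (.s k5 k7 0 (.s k10 k15 2 (.s k170 k255 14 (.d k2 k14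
  k254 1 13)))))), (.s k12 k8 1 (.s k170 k255 14 (.s k2 k254 13 (.s k3 k1 0 (.s k6 k9 2 (.s k5 k7 0
  (.d k10 k14 k15 1 2)))))))] .n) (.c k87 (.q k4 [(.s k12 k8 1 (.s k255 k170 14 (.s k93 k174 12 (.s
  k89 k81 1 (.d k166 k247 k243 12 14))))), (.s k12 k8 1 (.s k166 k247 12 (.s k6 k246 11 (.s k3 k9 2
  (.s k1 k2 0 (.d k169 k253 k252 13 14)))))), (.s k166 k247 12 (.s k6 k246 11 (.s k170 k255 14 (.s
  k2 k254 13 (.s k10 k14 1 (.d k5 k7 k15 0 2)))))), (.s k12 k8 1 (.s k170 k255 14 (.s k2 k254 13 (.s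
  k3 k1 0 (.s k6 k9 2 (.s k10 k14 1 (.d k5 k7 k15 0 2)))))))] .n) (.c k168 (.l (.s k87 k84 0 (.s
  k255 k170 14 (.s k3 k171 13 (.s k169 k252 14 (.d k1 k2 k253 0 13)))))) (.c k169 (.q k4 [(.s k84
  k87 0 (.s k166 k247 12 (.s k6 k246 11 (.s k7 k5 0 (.d k244 k164 k165 11 12))))), (.s k12 k8 1 (.s
  k166 k247 12 (.s k89 k243 14 (.s k93 k81 1 (.d k255 k174 k170 12 14))))), (.s k12 k8 1 (.s k84 k87
  0 (.s k164 k244 11 (.s k88 k240 13 (.s k92 k80 1 (.d k252 k172 k168 11 13))))))] .n) (.c k170 (.f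
  k84 k87 0 (.q k64 [(.s k124 k104 5 (.s k105 k67 6 (.s k125 k65 5 (.d k127 k106 k126 6 0)))), (.s
  k104 k124 5 (.s k192 k128 7 (.s k60 k148 13 (.s k40 k20 5 (.d k168 k232 k252 7 13))))), (.s k106
  k127 6 (.s k192 k128 7 (.s k252 k168 13 (.s k169 k3 14 (.d k232 k43 k212 8 5)))))] (.c k106 (.q
  k234 [(.s k104 k124 5 (.s k192 k128 7 (.s k60 k148 13 (.s k40 k20 5 (.d k168 k232 k252 7 13))))),
  (.s k192 k128 7 (.s k213 k255 6 (.s k149 k21 7 (.s k212 k23 8 (.d k252 k232 k168 5 13))))), (.s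
  k124 k104 5 (.s k105 k67 6 (.s k65 k125 5 (.s k195 k130 8 (.s k252 k168 13 (.d k60 k150 k188 14
  7)))))), (.s k104 k124 5 (.s k192 k128 7 (.s k213 k255 6 (.s k149 k21 7 (.s k212 k23 8 (.d k148
  k20 k60 7 13))))))] (.c k149 (.f k192 k128 7 (.q k191 [(.s k104 k124 5 (.s k60 k148 13 (.s k40 k20
  5 (.d k168 k232 k252 7 13)))), (.s k252 k168 13 (.s k169 k3 14 (.s k253 k1 13 (.d k255 k254 k213 0
  6))))] (.c k148 (.l (.s k124 k104 5 (.s k105 k67 6 (.s k125 k65 5 (.s k255 k213 6 (.s k60 k190 8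
  (.d k252 k188 k168 7 13))))))) (.c k168 (.l (.s k104 k124 5 (.s k148 k60 13 (.s k212 k20 7 (.s
  k252 k232 5 (.s k169 k3 14 (.s k253 k1 13 (.d k255 k254 k213 0 6)))))))) (.c k188 (.l (.s k104
  k124 5 (.s k60 k148 13 (.s k168 k252 13 (.d k40 k20 k232 5 7))))) (.c k252 (.l (.s k104 k124 5 (.s
  k60 k148 13 (.s k20 k40 5 (.s k150 k215 8 (.s k105 k195 14 (.s k125 k65 5 (.d k255 k213 k190 6
  8)))))))) .n)))))) (.c k192 (.q k149 [(.s k212 k23 8 (.s k213 k21 7 (.s k215 k214 0 (.d k20 k148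
  k150 7 8)))), (.s k124 k104 5 (.s k105 k67 6 (.s k65 k125 5 (.s k195 k130 8 (.s k252 k168 13 (.d
  k60 k150 k188 14 7)))))), (.s k21 k213 7 (.s k23 k212 8 (.s k20 k22 0 (.s k60 k40 5 (.s k124 k104
  5 (.d k252 k168 k188 13 7))))))] .n) .n))) (.c k234 (.l (.s k106 k127 6 (.s k66 k126 5 (.s k67 k65
  0 (.d k124 k104 k105 5 6))))) .n)))) (.c k171 (.l (.s k84 k87 0 (.s k252 k168 13 (.s k3 k169 14
  (.s k170 k255 14 (.d k2 k1 k254 0 13)))))) (.c k252 (.f k84 k87 0 (.q k32 [(.s k48 k16 3 (.s k170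
  k255 14 (.s k101 k239 10 (.s k69 k117 3 (.d k207 k138 k154 10 14))))), (.s k16 k48 3 (.s k220 k152
  9 (.s k153 k19 10 (.s k221 k17 9 (.d k223 k222 k154 0 10))))), (.s k170 k255 14 (.s k101 k239 10
  (.s k116 k71 4 (.s k68 k100 3 (.s k117 k69 3 (.d k119 k118 k102 0 4))))))] (.c k126 (.q k189 [(.s
  k48 k16 3 (.s k170 k255 14 (.s k101 k239 10 (.s k69 k117 3 (.d k207 k138 k154 10 14))))), (.s k16
  k48 3 (.s k220 k152 9 (.s k153 k19 10 (.s k221 k17 9 (.d k223 k222 k154 0 10))))), (.s k170 k255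
  14 (.s k101 k239 10 (.s k116 k71 4 (.s k68 k100 3 (.s k117 k69 3 (.d k119 k118 k102 0 4))))))] (.c
  k223 (.l (.s k48 k16 3 (.s k170 k255 14 (.s k101 k239 10 (.s k207 k154 14 (.d k69 k117 k138 3
  10)))))) .n)) (.c k189 (.q k126 [(.s k48 k16 3 (.s k170 k255 14 (.s k101 k239 10 (.s k69 k117 3
  (.d k207 k138 k154 10 14))))), (.s k16 k48 3 (.s k220 k152 9 (.s k153 k19 10 (.s k221 k17 9 (.d
  k223 k222 k154 0 10))))), (.s k170 k255 14 (.s k101 k239 10 (.s k116 k71 4 (.s k68 k100 3 (.s k117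
  k69 3 (.d k119 k118 k102 0 4))))))] (.c k223 (.l (.s k48 k16 3 (.s k170 k255 14 (.s k101 k239 10
  (.s k207 k154 14 (.d k69 k117 k138 3 10)))))) .n)) (.c k223 (.l (.s k48 k16 3 (.s k170 k255 14 (.s
  k101 k239 10 (.s k207 k154 14 (.d k69 k117 k138 3 10)))))) .n))))) (.c k254 (.l (.s k87 k84 0 (.s
  k255 k170 14 (.s k3 k171 13 (.s k1 k2 0 (.d k169 k253 k252 13 14)))))) (.c k255 (.q k89 [(.s k83
  k92 2 (.s k87 k84 0 (.s k95 k91 1 (.s k80 k90 2 (.d k81 k82 k93 0 1))))), (.s k81 k93 1 (.s k84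
  k87 0 (.s k243 k162 12 (.s k252 k168 13 (.s k246 k249 2 (.d k166 k12 k6 14 11)))))), (.s k84 k87 0
  (.s k92 k83 2 (.s k252 k168 13 (.s k12 k172 11 (.s k4 k8 1 (.d k166 k247 k243 12 14)))))), (.s k81
  k93 1 (.s k83 k92 2 (.s k243 k162 12 (.s k3 k163 11 (.s k1 k2 0 (.d k169 k253 k252 13 14))))))]
  (.c k127 (.q k191 [(.s k83 k92 2 (.s k87 k84 0 (.s k95 k91 1 (.s k80 k90 2 (.d k81 k82 k93 0
  1))))), (.s k81 k93 1 (.s k84 k87 0 (.s k243 k162 12 (.s k252 k168 13 (.s k246 k249 2 (.d k166 k12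
  k6 14 11)))))), (.s k84 k87 0 (.s k92 k83 2 (.s k252 k168 13 (.s k12 k172 11 (.s k4 k8 1 (.d k166
  k247 k243 12 14)))))), (.s k81 k93 1 (.s k83 k92 2 (.s k243 k162 12 (.s k3 k163 11 (.s k1 k2 0 (.d
  k169 k253 k252 13 14))))))] .n) (.c k191 (.q k127 [(.s k81 k93 1 (.s k83 k92 2 (.s k80 k82 0 (.s
  k87 k84 0 (.d k95 k91 k90 1 2))))), (.s k64 k106 6 (.s k84 k87 0 (.s k124 k104 5 (.s k105 k67 6
  (.d k125 k126 k65 0 5))))), (.s k64 k106 6 (.s k81 k93 1 (.s k115 k98 4 (.s k102 k76 6 (.d k119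
  k123 k68 1 4)))))] .n) .n))) .n)))))))))))))

def t42_106 : T TT 256 :=
  (.f k170 k255 14 (.q k240 [(.s k80 k160 11 (.s k90 k95 2 (.s k10 k250 11 (.d k15 k5 k165 2 14))))]
  (.c k5 (.q k1 [(.s k169 k253 13 (.s k168 k171 0 (.s k252 k84 13 (.d k3 k2 k86 0 14)))), (.s k3 k2
  0 (.s k160 k80 11 (.s k161 k82 12 (.s k81 k241 11 (.d k162 k163 k243 0 12))))), (.s k80 k160 11
  (.s k90 k95 2 (.s k169 k253 13 (.s k248 k11 12 (.s k252 k244 1 (.d k168 k171 k84 0 13))))))] .n)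
  (.c k10 (.f k160 k80 11 (.q k138 [(.s k154 k186 3 (.s k16 k223 10 (.s k207 k69 10 (.d k48 k32 k101
  3 14)))), (.s k69 k207 10 (.s k165 k175 2 (.s k5 k245 11 (.s k133 k197 7 (.s k128 k143 2 (.d k149
  k191 k181 6 3)))))), (.s k154 k186 3 (.s k165 k175 2 (.s k176 k143 6 (.s k48 k112 7 (.d k16 k32
  k223 3 10)))))] (.c k26 (.q k58 [(.s k154 k186 3 (.s k16 k223 10 (.s k207 k69 10 (.d k48 k32 k101
  3 14)))), (.s k69 k207 10 (.s k165 k175 2 (.s k5 k245 11 (.s k133 k197 7 (.s k128 k143 2 (.d k149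
  k191 k181 6 3)))))), (.s k154 k186 3 (.s k165 k175 2 (.s k176 k143 6 (.s k48 k112 7 (.d k16 k32
  k223 3 10)))))] (.c k223 (.l (.s k154 k186 3 (.s k165 k175 2 (.s k15 k90 14 (.s k143 k176 6 (.d
  k207 k79 k69 7 10)))))) .n)) (.c k58 (.q k26 [(.s k207 k69 10 (.s k218 k229 6 (.d k154 k186 k90 3
  7))), (.s k154 k186 3 (.s k90 k218 7 (.d k165 k175 k15 2 14))), (.s k154 k186 3 (.s k16 k223 10
  (.s k48 k32 3 (.d k207 k69 k101 10 14))))] (.c k154 (.q k202 [(.s k165 k175 2 (.s k15 k90 14 (.s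
  k207 k69 10 (.s k229 k218 6 (.d k37 k48 k101 6 7))))), (.s k207 k69 10 (.s k192 k197 2 (.s k128
  k64 7 (.s k224 k208 3 (.s k96 k32 7 (.d k144 k176 k48 3 11)))))), (.s k165 k175 2 (.s k207 k69 10
  (.s k197 k192 2 (.s k229 k218 6 (.d k245 k213 k5 3 11))))), (.s k165 k175 2 (.s k15 k90 14 (.s k48
  k37 6 (.s k32 k16 3 (.s k96 k224 7 (.s k144 k192 11 (.d k176 k128 k112 3 7)))))))] .n) (.c k186
  (.l (.s k165 k175 2 (.s k207 k69 10 (.s k218 k229 6 (.d k90 k15 k154 14 7))))) (.c k202 (.l (.s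
  k154 k186 3 (.s k90 k218 7 (.d k165 k175 k15 2 14)))) .n)))) (.c k223 (.l (.s k154 k186 3 (.s k165
  k175 2 (.s k15 k90 14 (.s k143 k176 6 (.d k207 k79 k69 7 10)))))) .n))))) (.c k15 (.f k160 k80 11
  (.q k168 [(.s k164 k172 1 (.s k12 k88 13 (.s k4 k8 1 (.d k84 k244 k252 11 13)))), (.s k169 k171 0
  (.s k1 k253 13 (.s k3 k2 0 (.s k161 k82 12 (.d k165 k175 k173 2 1)))))] (.c k95 (.l (.s k175 k165
  2 (.s k84 k252 13 (.s k164 k172 1 (.s k4 k244 11 (.d k12 k8 k88 1 13)))))) (.c k175 (.q k95 [(.s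
  k164 k172 1 (.s k12 k88 13 (.s k4 k8 1 (.d k84 k244 k252 11 13)))), (.s k169 k171 0 (.s k1 k253 13
  (.s k3 k2 0 (.s k161 k82 12 (.s k81 k241 11 (.d k162 k163 k243 0 12))))))] (.c k252 (.l (.s k164
  k172 1 (.s k12 k88 13 (.s k4 k8 1 (.s k166 k247 12 (.s k243 k89 14 (.d k162 k174 k81 1 12)))))))
  .n)) (.c k252 (.l (.s k164 k172 1 (.s k12 k88 13 (.s k4 k8 1 (.s k166 k247 12 (.d k165 k167 k175 0
  2)))))) .n))))) (.c k80 (.q k2 [(.s k3 k1 0 (.s k86 k254 13 (.s k84 k87 0 (.d k252 k168 k169 13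
  14)))), (.s k3 k1 0 (.s k82 k161 12 (.s k162 k242 11 (.s k166 k174 1 (.s k4 k247 12 (.s k12 k8 1
  (.d k243 k81 k89 12 14)))))))] (.c k1 (.l (.s k86 k254 13 (.s k84 k87 0 (.s k252 k168 13 (.s k244
  k248 1 (.s k165 k7 12 (.s k5 k245 11 (.d k15 k10 k90 2 14)))))))) (.c k3 (.f k86 k254 13 (.q k252
  [(.d k84 k87 k168 0 13), (.s k244 k248 1 (.s k165 k7 12 (.s k5 k245 11 (.d k15 k10 k90 2 14))))]
  (.c k87 (.q k171 [(.d k168 k169 k84 0 13), (.s k244 k248 1 (.s k165 k7 12 (.s k5 k245 11 (.d k15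
  k10 k90 2 14))))] .n) (.c k171 (.l (.s k87 k84 0 (.s k244 k248 1 (.s k165 k7 12 (.s k5 k245 11 (.d
  k15 k10 k90 2 14)))))) .n)))) .n))) (.c k90 (.f k80 k160 11 (.q k3 [(.s k2 k1 0 (.s k82 k161 12
  (.s k81 k83 0 (.d k162 k242 k243 11 12)))), (.s k1 k2 0 (.s k169 k253 13 (.s k168 k171 0 (.d k252
  k84 k86 13 14)))), (.s k82 k161 12 (.s k81 k83 0 (.s k89 k93 1 (.s k8 k251 12 (.s k12 k4 1 (.d
  k243 k162 k166 12 14))))))] (.c k74 (.q k122 [(.s k2 k1 0 (.s k82 k161 12 (.s k81 k83 0 (.d k162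
  k242 k243 11 12)))), (.s k1 k2 0 (.s k169 k253 13 (.s k168 k171 0 (.d k252 k84 k86 13 14)))), (.s
  k82 k161 12 (.s k81 k83 0 (.s k89 k93 1 (.s k8 k251 12 (.s k12 k4 1 (.d k243 k162 k166 12
  14))))))] .n) (.c k122 (.q k74 [(.s k2 k1 0 (.s k82 k161 12 (.s k81 k83 0 (.d k162 k242 k243 11
  12)))), (.s k1 k2 0 (.s k169 k253 13 (.s k168 k171 0 (.d k252 k84 k86 13 14)))), (.s k82 k161 12
  (.s k81 k83 0 (.s k89 k93 1 (.s k8 k251 12 (.s k12 k4 1 (.d k243 k162 k166 12 14))))))] .n) .n))))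
  (.c k95 (.l (.s k160 k80 11 (.s k165 k175 2 (.s k15 k90 14 (.d k5 k10 k245 2 11))))) (.c k160 (.q
  k2 [(.s k3 k1 0 (.s k86 k254 13 (.s k84 k87 0 (.d k252 k168 k169 13 14)))), (.s k3 k1 0 (.s k82
  k161 12 (.s k162 k242 11 (.s k166 k174 1 (.s k4 k247 12 (.s k12 k8 1 (.d k243 k81 k89 12
  14)))))))] (.c k1 (.l (.s k86 k254 13 (.s k84 k87 0 (.s k252 k168 13 (.s k244 k248 1 (.s k165 k7
  12 (.s k5 k245 11 (.d k15 k10 k90 2 14)))))))) (.c k3 (.f k86 k254 13 (.q k252 [(.d k84 k87 k168 0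
  13), (.s k244 k248 1 (.s k165 k7 12 (.s k5 k245 11 (.d k15 k10 k90 2 14))))] (.c k87 (.q k171 [(.d
  k168 k169 k84 0 13), (.s k244 k248 1 (.s k165 k7 12 (.s k5 k245 11 (.d k15 k10 k90 2 14))))] .n)
  (.c k171 (.l (.s k87 k84 0 (.s k244 k248 1 (.s k165 k7 12 (.s k5 k245 11 (.d k15 k10 k90 2
  14)))))) .n)))) .n))) (.c k165 (.f k160 k80 11 (.q k168 [(.s k84 k252 13 (.s k164 k172 1 (.s k12
  k88 13 (.d k4 k8 k244 1 11)))), (.s k169 k171 0 (.s k1 k253 13 (.s k3 k2 0 (.s k161 k82 12 (.s k81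
  k241 11 (.d k162 k163 k243 0 12)))))), (.s k164 k172 1 (.s k12 k88 13 (.s k4 k8 1 (.s k166 k247 12
  (.s k162 k174 1 (.d k243 k81 k89 12 14))))))] (.c k47 (.q k224 [(.s k84 k252 13 (.s k164 k172 1
  (.s k12 k88 13 (.d k4 k8 k244 1 11)))), (.s k32 k96 7 (.s k48 k16 3 (.s k101 k239 10 (.s k69 k117
  3 (.d k207 k138 k154 10 14)))))] (.c k32 (.q k37 [(.s k84 k252 13 (.s k164 k172 1 (.s k12 k88 13
  (.d k4 k8 k244 1 11)))), (.s k164 k172 1 (.s k104 k44 9 (.s k40 k232 7 (.s k60 k20 5 (.d k192 k208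
  k148 3 13))))), (.s k169 k171 0 (.s k1 k253 13 (.s k3 k2 0 (.d k252 k84 k86 13 14))))] .n) (.c k37
  (.l (.s k32 k96 7 (.s k48 k16 3 (.s k101 k239 10 (.s k69 k117 3 (.d k207 k138 k154 10 14))))))
  .n))) (.c k224 (.q k47 [(.s k84 k252 13 (.s k164 k172 1 (.s k12 k88 13 (.d k4 k8 k244 1 11)))),
  (.s k169 k171 0 (.s k1 k253 13 (.s k3 k2 0 (.s k161 k82 12 (.s k81 k241 11 (.d k162 k163 k243 0
  12)))))), (.s k164 k172 1 (.s k12 k88 13 (.s k4 k8 1 (.s k166 k247 12 (.s k162 k174 1 (.d k243 k81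
  k89 12 14))))))] .n) .n)))) (.c k175 (.l (.s k80 k160 11 (.s k90 k95 2 (.s k15 k165 14 (.d k10 k5
  k250 2 11))))) (.c k250 (.l (.s k160 k80 11 (.s k165 k175 2 (.s k5 k245 11 (.d k15 k10 k90 2
  14))))) .n))))))))))))

def t42_107 : T TT 256 :=
  (.f k170 k255 14 (.q k252 [(.s k84 k168 13 (.s k86 k87 0 (.s k2 k254 13 (.d k3 k1 k169 0 14)))),
  (.s k168 k84 13 (.s k169 k171 0 (.s k1 k253 13 (.d k3 k2 k86 0 14))))] (.c k1 (.q k4 [(.s k12 k8 1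
  (.s k166 k247 12 (.s k162 k174 1 (.d k243 k81 k89 12 14)))), (.s k84 k168 13 (.s k86 k87 0 (.s
  k166 k247 12 (.s k6 k246 11 (.s k7 k5 0 (.d k244 k164 k165 11 12)))))), (.s k12 k8 1 (.s k84 k168
  13 (.s k92 k172 11 (.s k88 k80 1 (.d k164 k244 k240 11 13)))))] .n) (.c k2 (.f k168 k84 13 (.f
  k171 k169 0 (.q k8 [(.s k12 k4 1 (.s k89 k251 12 (.s k81 k93 1 (.d k243 k162 k166 12 14)))), (.s
  k248 k88 11 (.s k240 k244 1 (.s k80 k160 11 (.s k90 k95 2 (.s k10 k250 11 (.d k15 k5 k165 2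
  14)))))), (.s k88 k248 11 (.s k89 k251 12 (.s k81 k93 1 (.s k243 k162 12 (.s k12 k166 14 (.s k164
  k240 13 (.d k172 k160 k92 1 11)))))))] (.c k22 (.q k62 [(.s k12 k4 1 (.s k89 k251 12 (.s k81 k93 1
  (.d k243 k162 k166 12 14)))), (.s k248 k88 11 (.s k240 k244 1 (.s k80 k160 11 (.s k90 k95 2 (.s
  k10 k250 11 (.d k15 k5 k165 2 14)))))), (.s k88 k248 11 (.s k89 k251 12 (.s k81 k93 1 (.s k243
  k162 12 (.s k12 k166 14 (.s k164 k240 13 (.d k172 k160 k92 1 11)))))))] (.c k164 (.l (.s k89 k251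
  12 (.s k81 k93 1 (.s k243 k162 12 (.d k12 k4 k166 1 14))))) .n)) (.c k62 (.q k22 [(.s k12 k4 1 (.s
  k89 k251 12 (.s k81 k93 1 (.d k243 k162 k166 12 14)))), (.s k248 k88 11 (.s k240 k244 1 (.s k80
  k160 11 (.s k90 k95 2 (.s k10 k250 11 (.d k15 k5 k165 2 14)))))), (.s k88 k248 11 (.s k89 k251 12
  (.s k81 k93 1 (.s k243 k162 12 (.s k12 k166 14 (.s k164 k240 13 (.d k172 k160 k92 1 11)))))))] (.c
  k164 (.l (.s k89 k251 12 (.s k81 k93 1 (.s k243 k162 12 (.d k12 k4 k166 1 14))))) .n)) (.c k164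
  (.l (.s k89 k251 12 (.s k81 k93 1 (.s k243 k162 12 (.d k12 k4 k166 1 14))))) .n)))))) (.c k3 (.f
  k168 k84 13 (.f k171 k169 0 (.q k8 [(.s k89 k251 12 (.s k81 k93 1 (.s k243 k162 12 (.d k12 k4 k166
  1 14)))), (.s k248 k88 11 (.s k240 k244 1 (.s k80 k160 11 (.s k90 k95 2 (.s k10 k250 11 (.d k15 k5
  k165 2 14))))))] (.c k4 (.l (.s k88 k248 11 (.s k89 k251 12 (.s k81 k93 1 (.s k243 k162 12 (.s k12
  k166 14 (.s k164 k240 13 (.d k172 k160 k92 1 11)))))))) .n)))) (.c k84 (.q k165 [(.s k5 k245 11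
  (.s k15 k10 2 (.s k160 k175 2 (.d k240 k80 k90 11 14)))), (.s k160 k175 2 (.s k240 k80 11 (.s k244
  k248 1 (.s k86 k7 12 (.s k2 k254 13 (.d k3 k1 k169 0 14)))))), (.s k5 k245 11 (.s k15 k10 2 (.s
  k173 k94 12 (.s k169 k161 1 (.s k1 k253 13 (.d k3 k2 k86 0 14))))))] (.c k15 (.f k175 k160 2 (.q
  k1 [(.s k169 k253 13 (.d k3 k2 k86 0 14)), (.s k5 k245 11 (.s k13 k9 1 (.s k89 k241 13 (.s k8 k251
  12 (.s k12 k4 1 (.s k81 k93 1 (.d k243 k162 k166 12 14)))))))] (.c k253 (.l (.s k3 k2 0 (.s k5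
  k245 11 (.s k9 k13 1 (.s k86 k169 14 (.s k7 k244 12 (.d k6 k4 k12 0 2))))))) .n))) (.c k240 (.q
  k166 [(.s k4 k247 12 (.s k162 k174 1 (.s k243 k81 12 (.d k12 k8 k89 1 14)))), (.s k160 k175 2 (.s
  k164 k167 0 (.s k172 k168 1 (.s k163 k169 2 (.d k162 k161 k174 0 1))))), (.s k4 k247 12 (.s k12 k8
  1 (.s k160 k175 2 (.s k164 k167 0 (.d k172 k168 k92 1 11)))))] (.c k245 (.q k250 [(.s k162 k174 1
  (.s k243 k81 12 (.s k12 k89 14 (.d k4 k8 k247 1 12)))), (.s k10 k90 11 (.s k15 k5 2 (.s k173 k94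
  12 (.s k174 k162 1 (.d k175 k172 k160 0 2))))), (.s k4 k247 12 (.s k12 k8 1 (.s k160 k175 2 (.s
  k164 k167 0 (.d k172 k168 k92 1 11)))))] .n) (.c k250 (.l (.s k245 k5 11 (.s k4 k247 12 (.s k12 k8
  1 (.s k162 k174 1 (.d k243 k81 k89 12 14)))))) .n))) .n))) (.c k86 (.q k4 [(.s k166 k247 12 (.s
  k162 k174 1 (.s k243 k81 12 (.d k12 k8 k89 1 14)))), (.s k84 k168 13 (.s k244 k164 11 (.s k240
  k248 1 (.s k160 k80 11 (.s k165 k175 2 (.s k5 k245 11 (.d k15 k10 k90 2 14)))))))] (.c k8 (.l (.s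
  k166 k247 12 (.s k162 k174 1 (.s k168 k84 13 (.s k169 k171 0 (.s k172 k163 2 (.s k12 k92 11 (.d
  k243 k89 k81 14 12)))))))) .n)) (.c k87 (.l (.s k168 k84 13 (.s k169 k171 0 (.s k3 k86 14 (.d k1
  k2 k253 0 13))))) (.c k168 (.q k102 [(.s k34 k238 9 (.s k51 k17 4 (.s k68 k119 4 (.d k204 k136
  k153 9 14)))), (.s k68 k119 4 (.s k204 k136 9 (.s k236 k220 3 (.s k169 k35 10 (.s k1 k253 13 (.d
  k3 k2 k86 0 14)))))), (.s k34 k238 9 (.s k51 k17 4 (.s k118 k185 10 (.s k86 k70 3 (.s k2 k254 13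
  (.d k3 k1 k169 0 14))))))] (.c k51 (.q k149 [(.s k55 k196 12 (.s k119 k68 4 (.s k247 k183 7 (.s k4
  k166 12 (.d k21 k38 k213 4 7))))), (.s k128 k191 6 (.s k192 k64 7 (.s k212 k232 5 (.s k86 k23 8
  (.s k2 k254 13 (.d k3 k1 k169 0 14))))))] (.c k119 (.q k187 [(.s k128 k191 6 (.s k136 k153 4 (.s
  k192 k64 7 (.s k196 k55 12 (.d k204 k200 k68 1 9))))), (.s k21 k213 7 (.s k153 k136 4 (.s k17 k221
  9 (.s k29 k25 1 (.s k145 k157 1 (.d k209 k81 k89 7 9)))))), (.s k21 k213 7 (.s k55 k196 12 (.s k4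
  k38 4 (.s k191 k128 6 (.s k183 k179 1 (.d k166 k247 k132 12 4))))))] (.c k192 (.l (.s k128 k191 6
  (.s k136 k153 4 (.s k68 k204 9 (.s k132 k140 1 (.d k196 k4 k55 7 12)))))) .n)) (.c k187 (.l (.s
  k119 k68 4 (.s k21 k213 7 (.s k55 k196 12 (.s k4 k38 4 (.d k247 k183 k166 7 12)))))) .n))) (.c
  k204 (.q k118 [(.s k51 k185 10 (.d k34 k238 k17 9 4)), (.s k86 k70 3 (.s k2 k254 13 (.d k3 k1 k169
  0 14)))] (.c k221 (.l (.s k238 k34 9 (.s k86 k70 3 (.s k2 k254 13 (.d k3 k1 k169 0 14))))) (.c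
  k238 (.q k221 [(.s k17 k153 9 (.d k51 k34 k185 4 10)), (.s k86 k70 3 (.s k2 k254 13 (.d k3 k1 k169
  0 14)))] .n) .n))) .n))) (.c k169 (.q k4 [(.s k166 k247 12 (.s k162 k174 1 (.s k243 k81 12 (.d k12
  k8 k89 1 14)))), (.s k12 k8 1 (.s k84 k168 13 (.s k164 k244 11 (.s k88 k240 13 (.d k92 k80 k172 1
  11))))), (.s k84 k168 13 (.s k86 k87 0 (.s k166 k247 12 (.s k6 k246 11 (.s k7 k5 0 (.d k244 k164
  k165 11 12))))))] .n) (.c k171 (.l (.s k84 k168 13 (.s k86 k87 0 (.s k3 k169 14 (.d k2 k1 k254 0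
  13))))) .n)))))))))))

def t42_111 : T TT 256 :=
  (.f k170 k255 14 (.q k252 [(.s k84 k168 13 (.s k86 k87 0 (.s k2 k254 13 (.d k3 k1 k169 0 14))))]
  (.c k1 (.q k4 [(.s k12 k8 1 (.s k166 k247 12 (.s k162 k174 1 (.d k243 k81 k89 12 14)))), (.s k84
  k168 13 (.s k86 k87 0 (.s k166 k247 12 (.s k6 k246 11 (.s k7 k5 0 (.d k244 k164 k165 11 12)))))),
  (.s k12 k8 1 (.s k84 k168 13 (.s k92 k172 11 (.s k88 k80 1 (.d k164 k244 k240 11 13)))))] .n) (.c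
  k2 (.f k84 k168 13 (.f k86 k87 0 (.f k3 k169 14 (.q k22 [(.s k60 k41 6 (.s k150 k214 7 (.d k20 k40
  k215 5 8))), (.s k150 k214 7 (.s k20 k215 8 (.s k23 k21 0 (.d k212 k148 k149 7 8)))), (.s k60 k41
  6 (.s k124 k188 7 (.s k105 k67 6 (.d k150 k214 k195 7 14)))), (.s k60 k41 6 (.s k40 k20 5 (.s k105
  k235 8 (.d k124 k67 k188 6 7))))] .n)))) (.c k3 (.f k168 k84 13 (.q k240 [(.s k80 k160 11 (.s k90
  k95 2 (.s k10 k250 11 (.d k15 k5 k165 2 14)))), (.s k248 k244 1 (.s k8 k88 11 (.s k89 k251 12 (.s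
  k81 k93 1 (.s k243 k162 12 (.d k12 k4 k166 1 14))))))] (.c k80 (.l (.s k248 k244 1 (.s k88 k8 11
  (.s k164 k12 13 (.s k160 k172 1 (.s k165 k175 2 (.s k5 k245 11 (.d k15 k10 k90 2 14)))))))) (.c
  k87 (.l (.s k171 k169 0 (.s k80 k160 11 (.s k90 k95 2 (.s k10 k250 11 (.d k15 k5 k165 2 14))))))
  (.c k171 (.q k87 [(.s k80 k160 11 (.s k90 k95 2 (.s k10 k250 11 (.d k15 k5 k165 2 14)))), (.s k248
  k244 1 (.s k8 k88 11 (.s k89 k251 12 (.s k81 k93 1 (.s k243 k162 12 (.d k12 k4 k166 1 14))))))]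
  (.c k80 (.l (.s k248 k244 1 (.s k88 k8 11 (.s k164 k12 13 (.s k160 k172 1 (.s k165 k175 2 (.s k5
  k245 11 (.d k15 k10 k90 2 14)))))))) .n)) .n))))) (.c k84 (.q k90 [(.s k10 k250 11 (.s k15 k5 2
  (.s k240 k165 14 (.d k80 k95 k160 2 11)))), (.s k80 k95 2 (.s k240 k160 11 (.s k248 k244 1 (.s
  k169 k11 12 (.s k1 k253 13 (.d k3 k2 k86 0 14)))))), (.s k10 k250 11 (.s k15 k5 2 (.s k94 k173 12
  (.s k86 k82 1 (.s k2 k254 13 (.d k3 k1 k169 0 14))))))] (.c k15 (.f k95 k80 2 (.q k92 [(.s k93 k94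
  0 (.s k89 k81 1 (.s k83 k86 2 (.d k91 k88 k87 0 1)))), (.s k12 k172 11 (.s k4 k8 1 (.s k166 k247
  12 (.s k162 k174 1 (.d k243 k81 k89 12 14)))))] (.c k81 (.l (.s k12 k172 11 (.s k8 k4 1 (.s k89
  k251 12 (.s k83 k86 2 (.d k91 k88 k87 0 1)))))) (.c k89 (.l (.s k94 k93 0 (.s k86 k82 1 (.s k2
  k254 13 (.d k3 k1 k169 0 14))))) .n)))) (.c k240 (.q k128 [(.s k149 k191 6 (.s k192 k64 7 (.s k212
  k232 5 (.s k86 k23 8 (.s k2 k254 13 (.d k3 k1 k169 0 14)))))), (.s k80 k95 2 (.s k149 k191 6 (.s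
  k208 k31 10 (.s k16 k144 7 (.s k213 k21 7 (.d k223 k218 k154 2 10))))))] (.c k63 (.l (.s k64 k192
  7 (.s k80 k95 2 (.s k112 k96 3 (.s k79 k101 6 (.s k106 k127 6 (.s k191 k149 6 (.d k74 k69 k122 2
  3)))))))) (.c k127 (.l (.s k192 k64 7 (.s k149 k191 6 (.s k63 k106 14 (.s k31 k208 10 (.s k15 k47
  3 (.d k10 k5 k250 2 11))))))) (.c k149 (.l (.s k64 k192 7 (.s k80 k95 2 (.s k112 k96 3 (.s k79
  k101 6 (.s k106 k127 6 (.d k74 k69 k122 2 3))))))) (.c k191 (.l (.s k64 k192 7 (.s k80 k95 2 (.s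
  k112 k96 3 (.s k101 k79 6 (.s k127 k106 6 (.d k117 k122 k69 2 3))))))) (.c k245 (.l (.s k250 k10
  11 (.s k64 k192 7 (.s k80 k95 2 (.s k112 k96 3 (.s k79 k101 6 (.s k106 k127 6 (.d k74 k69 k122 2
  3)))))))) (.c k250 (.q k245 [(.s k5 k165 11 (.s k15 k10 2 (.s k94 k173 12 (.s k86 k82 1 (.s k2
  k254 13 (.d k3 k169 k1 14 0)))))), (.s k64 k192 7 (.s k80 k95 2 (.s k112 k96 3 (.s k79 k101 6 (.s
  k106 k127 6 (.d k74 k69 k122 2 3))))))] (.c k15 (.l (.s k5 k165 11 (.s k149 k191 6 (.s k21 k213 7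
  (.s k53 k37 3 (.s k101 k197 11 (.d k117 k69 k181 3 7))))))) .n)) .n))))))) .n))) (.c k86 (.q k4
  [(.s k166 k247 12 (.s k162 k174 1 (.s k243 k81 12 (.d k12 k8 k89 1 14)))), (.s k84 k168 13 (.s
  k244 k164 11 (.s k240 k248 1 (.s k160 k80 11 (.s k165 k175 2 (.s k5 k245 11 (.d k15 k10 k90 2
  14)))))))] (.c k8 (.l (.s k166 k247 12 (.s k162 k174 1 (.s k168 k84 13 (.s k169 k171 0 (.s k172
  k163 2 (.s k12 k92 11 (.d k243 k89 k81 14 12)))))))) .n)) (.c k87 (.l (.s k168 k84 13 (.s k169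
  k171 0 (.s k3 k86 14 (.d k1 k2 k253 0 13))))) (.c k168 (.q k154 [(.s k16 k223 10 (.s k138 k186 3
  (.s k207 k69 10 (.d k48 k32 k101 3 14)))), (.s k138 k186 3 (.s k207 k69 10 (.s k222 k237 4 (.s k86
  k18 9 (.s k2 k254 13 (.d k3 k1 k169 0 14)))))), (.s k16 k223 10 (.s k48 k32 3 (.s k184 k116 9 (.s
  k169 k139 4 (.s k1 k253 13 (.d k3 k2 k86 0 14))))))] (.c k48 (.q k153 [(.s k17 k221 9 (.s k136
  k187 4 (.s k204 k68 9 (.d k51 k34 k102 4 14)))), (.s k16 k223 10 (.s k152 k155 0 (.s k220 k84 9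
  (.s k19 k86 10 (.d k17 k18 k221 0 9))))), (.s k16 k223 10 (.s k136 k187 4 (.s k152 k155 0 (.s k204
  k68 9 (.d k220 k236 k84 3 9)))))] (.c k117 (.l (.s k186 k138 3 (.s k17 k221 9 (.s k51 k34 4 (.s
  k136 k187 4 (.d k204 k68 k102 9 14)))))) (.c k186 (.q k117 [(.s k17 k221 9 (.s k51 k34 4 (.s k204
  k102 14 (.d k136 k187 k68 4 9)))), (.s k16 k223 10 (.s k152 k155 0 (.s k220 k84 9 (.s k19 k86 10
  (.d k17 k18 k221 0 9))))), (.s k16 k223 10 (.s k136 k187 4 (.s k152 k155 0 (.s k204 k68 9 (.d k220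
  k236 k84 3 9)))))] .n) .n))) (.c k207 (.f k223 k16 10 (.q k149 [(.s k159 k144 2 (.s k213 k21 7 (.s
  k208 k218 2 (.d k31 k95 k90 7 10)))), (.s k128 k191 6 (.s k192 k64 7 (.s k212 k232 5 (.s k86 k23 8
  (.s k2 k254 13 (.d k3 k1 k169 0 14))))))] (.c k63 (.l (.s k159 k144 2 (.s k31 k95 7 (.s k208 k90
  10 (.d k213 k218 k21 2 7))))) (.c k159 (.q k63 [(.s k128 k191 6 (.d k192 k64 k106 7 14)), (.s k189
  k126 8 (.s k169 k129 5 (.s k1 k253 13 (.d k3 k2 k86 0 14))))] .n) .n)))) .n))) (.c k169 (.q k4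
  [(.s k166 k247 12 (.s k162 k174 1 (.s k243 k81 12 (.d k12 k8 k89 1 14)))), (.s k12 k8 1 (.s k84
  k168 13 (.s k164 k244 11 (.s k88 k240 13 (.d k92 k80 k172 1 11))))), (.s k84 k168 13 (.s k86 k87 0
  (.s k166 k247 12 (.s k6 k246 11 (.s k7 k5 0 (.d k244 k164 k165 11 12))))))] .n) (.c k171 (.l (.s
  k84 k168 13 (.s k86 k87 0 (.s k3 k169 14 (.d k2 k1 k254 0 13))))) (.c k254 (.l (.s k168 k84 13 (.s
  k169 k171 0 (.s k1 k253 13 (.d k3 k2 k86 0 14))))) .n))))))))))))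

def t42_127 : T TT 256 :=
  (.q k86 [(.s k84 k87 0 (.s k252 k168 13 (.s k169 k3 14 (.s k253 k1 13 (.d k255 k254 k170 0
  14))))), (.s k87 k84 0 (.s k255 k170 14 (.s k3 k171 13 (.s k1 k2 0 (.d k169 k253 k252 13 14)))))]
  (.c k1 (.q k4 [(.s k12 k8 1 (.s k166 k247 12 (.s k89 k243 14 (.s k93 k81 1 (.d k255 k174 k170 12
  14))))), (.s k84 k87 0 (.s k166 k247 12 (.s k6 k246 11 (.s k7 k5 0 (.d k244 k164 k165 11 12))))),
  (.s k12 k8 1 (.s k84 k87 0 (.s k164 k244 11 (.s k88 k240 13 (.s k92 k80 1 (.d k252 k172 k168 11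
  13))))))] .n) (.c k3 (.q k4 [(.s k87 k84 0 (.s k247 k166 12 (.s k7 k167 11 (.s k5 k6 0 (.d k165
  k245 k244 11 12))))), (.s k12 k8 1 (.s k166 k247 12 (.s k89 k243 14 (.s k93 k81 1 (.d k255 k174
  k170 12 14))))), (.s k12 k8 1 (.s k84 k87 0 (.s k164 k244 11 (.s k88 k240 13 (.s k92 k80 1 (.d
  k252 k172 k168 11 13))))))] (.c k12 (.l (.s k84 k87 0 (.s k166 k247 12 (.s k6 k246 11 (.s k7 k5 0
  (.d k244 k164 k165 11 12)))))) .n)) (.c k84 (.q k4 [(.s k12 k8 1 (.s k166 k247 12 (.s k89 k243 14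
  (.s k93 k81 1 (.d k255 k174 k170 12 14))))), (.s k166 k247 12 (.s k6 k246 11 (.s k5 k7 0 (.s k10
  k15 2 (.s k2 k14 1 (.d k170 k254 k255 13 14)))))), (.s k12 k8 1 (.s k166 k247 12 (.s k6 k246 11
  (.s k3 k9 2 (.s k1 k2 0 (.d k169 k253 k252 13 14)))))), (.s k12 k8 1 (.s k170 k255 14 (.s k2 k254
  13 (.s k3 k1 0 (.s k6 k9 2 (.s k5 k7 0 (.d k10 k14 k15 1 2)))))))] (.c k12 (.l (.s k166 k247 12
  (.s k6 k246 11 (.s k5 k7 0 (.s k10 k15 2 (.s k170 k255 14 (.d k2 k14 k254 1 13))))))) .n)) (.c k87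
  (.q k70 [(.s k102 k118 3 (.s k119 k68 4 (.s k255 k170 14 (.s k51 k187 9 (.s k17 k34 4 (.d k153
  k221 k204 9 14)))))), (.s k170 k255 14 (.s k2 k254 13 (.s k138 k206 9 (.s k69 k207 10 (.s k71 k68
  0 (.d k101 k117 k116 3 4)))))), (.s k102 k118 3 (.s k68 k119 4 (.s k204 k136 9 (.s k3 k137 10 (.s
  k1 k2 0 (.d k169 k253 k252 13 14))))))] (.c k67 (.q k107 [(.s k102 k118 3 (.s k119 k68 4 (.s k255
  k170 14 (.s k51 k187 9 (.s k17 k34 4 (.d k153 k221 k204 9 14)))))), (.s k170 k255 14 (.s k2 k254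
  13 (.s k138 k206 9 (.s k69 k207 10 (.s k71 k68 0 (.d k101 k117 k116 3 4)))))), (.s k102 k118 3 (.s
  k68 k119 4 (.s k204 k136 9 (.s k3 k137 10 (.s k1 k2 0 (.d k169 k253 k252 13 14))))))] (.c k68 (.l
  (.s k102 k118 3 (.s k170 k255 14 (.s k2 k254 13 (.s k34 k238 9 (.s k50 k18 3 (.d k206 k138 k154 9
  13))))))) (.c k204 (.l (.s k102 k118 3 (.s k68 k119 4 (.s k170 k255 14 (.s k2 k254 13 (.s k138
  k206 9 (.d k69 k71 k207 0 10))))))) .n))) (.c k68 (.l (.s k102 k118 3 (.s k170 k255 14 (.s k2 k254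
  13 (.s k34 k238 9 (.s k50 k18 3 (.d k206 k138 k154 9 13))))))) (.c k107 (.q k67 [(.s k76 k73 2 (.s
  k102 k118 3 (.s k105 k124 6 (.s k99 k108 2 (.d k115 k83 k89 3 6))))), (.s k102 k118 3 (.s k119 k68
  4 (.s k255 k170 14 (.s k51 k187 9 (.s k17 k34 4 (.d k153 k221 k204 9 14)))))), (.s k105 k124 6 (.s
  k125 k65 5 (.s k255 k170 14 (.s k60 k190 8 (.s k20 k40 5 (.d k150 k215 k195 8 14))))))] .n) (.c
  k204 (.l (.s k102 k118 3 (.s k68 k119 4 (.s k170 k255 14 (.s k2 k254 13 (.s k138 k206 9 (.d k69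
  k71 k207 0 10))))))) .n))))) (.c k168 (.l (.s k87 k84 0 (.s k255 k170 14 (.s k3 k171 13 (.s k169
  k252 14 (.d k1 k2 k253 0 13)))))) (.c k169 (.q k4 [(.s k12 k8 1 (.s k166 k247 12 (.s k89 k243 14
  (.s k93 k81 1 (.d k255 k174 k170 12 14))))), (.s k84 k87 0 (.s k166 k247 12 (.s k6 k246 11 (.s k7
  k5 0 (.d k244 k164 k165 11 12))))), (.s k12 k8 1 (.s k84 k87 0 (.s k164 k244 11 (.s k88 k240 13
  (.s k92 k80 1 (.d k252 k172 k168 11 13))))))] .n) (.c k170 (.q k204 [(.s k84 k87 0 (.s k136 k68 9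
  (.s k168 k252 13 (.s k152 k184 3 (.s k16 k220 9 (.d k48 k32 k100 3 13)))))), (.s k68 k136 9 (.s
  k102 k119 4 (.s k70 k118 3 (.s k3 k137 10 (.s k1 k2 0 (.d k169 k253 k252 13 14)))))), (.s k84 k87
  0 (.s k252 k168 13 (.s k220 k236 3 (.s k153 k19 10 (.s k17 k221 9 (.d k51 k34 k102 4 14))))))] (.c
  k106 (.q k234 [(.s k84 k87 0 (.s k136 k68 9 (.s k168 k252 13 (.s k152 k184 3 (.s k16 k220 9 (.d
  k48 k32 k100 3 13)))))), (.s k68 k136 9 (.s k102 k119 4 (.s k70 k118 3 (.s k3 k137 10 (.s k1 k2 0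
  (.d k169 k253 k252 13 14)))))), (.s k84 k87 0 (.s k252 k168 13 (.s k220 k236 3 (.s k153 k19 10 (.s
  k17 k221 9 (.d k51 k34 k102 4 14))))))] (.c k252 (.l (.s k68 k136 9 (.s k84 k87 0 (.s k102 k119 4
  (.s k70 k118 3 (.s k71 k69 0 (.d k116 k100 k101 3 4))))))) .n)) (.c k234 (.q k106 [(.s k84 k87 0
  (.s k136 k68 9 (.s k168 k252 13 (.s k152 k184 3 (.s k16 k220 9 (.d k48 k32 k100 3 13)))))), (.s
  k68 k136 9 (.s k102 k119 4 (.s k70 k118 3 (.s k3 k137 10 (.s k1 k2 0 (.d k169 k253 k252 13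
  14)))))), (.s k84 k87 0 (.s k252 k168 13 (.s k220 k236 3 (.s k153 k19 10 (.s k17 k221 9 (.d k51
  k34 k102 4 14))))))] (.c k252 (.l (.s k68 k136 9 (.s k84 k87 0 (.s k102 k119 4 (.s k70 k118 3 (.s
  k71 k69 0 (.d k116 k100 k101 3 4))))))) .n)) (.c k252 (.l (.s k68 k136 9 (.s k84 k87 0 (.s k102
  k119 4 (.s k70 k118 3 (.s k71 k69 0 (.d k116 k100 k101 3 4))))))) .n)))) (.c k171 (.l (.s k84 k87
  0 (.s k252 k168 13 (.s k3 k169 14 (.s k170 k255 14 (.d k2 k1 k254 0 13)))))) (.c k252 (.q k5 [(.s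
  k87 k84 0 (.s k165 k245 11 (.s k7 k244 12 (.s k4 k6 0 (.d k247 k167 k166 11 12))))), (.s k15 k10 2
  (.s k165 k245 11 (.s k170 k255 14 (.s k160 k175 2 (.d k240 k80 k90 11 14))))), (.s k15 k10 2 (.s
  k87 k84 0 (.s k255 k170 14 (.s k3 k171 13 (.s k7 k11 1 (.s k4 k6 0 (.d k247 k167 k166 11
  12)))))))] .n) (.c k253 (.l (.s k84 k87 0 (.s k170 k255 14 (.s k2 k254 13 (.s k252 k168 13 (.d k3
  k1 k169 0 14)))))) (.c k255 (.q k222 [(.s k87 k84 0 (.s k154 k18 9 (.s k223 k16 10 (.s k19 k155 9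
  (.d k220 k221 k153 0 10))))), (.s k84 k87 0 (.s k252 k168 13 (.s k3 k169 14 (.s k207 k237 4 (.s
  k69 k138 10 (.s k101 k117 3 (.d k71 k116 k139 4 9))))))), (.s k154 k18 9 (.s k16 k223 10 (.s k48
  k32 3 (.s k207 k101 14 (.s k252 k237 4 (.s k184 k116 9 (.d k169 k139 k3 4 14)))))))] (.c k63 (.q
  k191 [(.s k87 k84 0 (.s k154 k18 9 (.s k223 k16 10 (.s k19 k155 9 (.d k220 k221 k153 0 10))))),
  (.s k84 k87 0 (.s k252 k168 13 (.s k3 k169 14 (.s k207 k237 4 (.s k69 k138 10 (.s k101 k117 3 (.d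
  k71 k116 k139 4 9))))))), (.s k154 k18 9 (.s k16 k223 10 (.s k48 k32 3 (.s k207 k101 14 (.s k252
  k237 4 (.s k184 k116 9 (.d k169 k139 k3 4 14)))))))] .n) (.c k191 (.q k63 [(.s k87 k84 0 (.s k154
  k18 9 (.s k223 k16 10 (.s k19 k155 9 (.d k220 k221 k153 0 10))))), (.s k84 k87 0 (.s k252 k168 13
  (.s k3 k169 14 (.s k23 k43 5 (.s k126 k189 8 (.s k106 k66 5 (.d k149 k212 k192 8 14))))))), (.s
  k154 k18 9 (.s k16 k223 10 (.s k48 k32 3 (.s k207 k101 14 (.s k252 k237 4 (.s k184 k116 9 (.d k169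
  k139 k3 4 14)))))))] .n) .n))) .n))))))))))))

def t42_138 : T TT 256 :=
  (.f k170 k255 14 (.q k252 [(.s k84 k168 13 (.s k86 k87 0 (.s k2 k254 13 (.d k3 k1 k169 0 14))))]
  (.c k1 (.q k4 [(.s k166 k247 12 (.s k162 k174 1 (.s k243 k81 12 (.d k12 k8 k89 1 14)))), (.s k12
  k8 1 (.s k84 k168 13 (.s k92 k172 11 (.s k88 k80 1 (.d k164 k244 k240 11 13))))), (.s k84 k168 13
  (.s k86 k87 0 (.s k166 k247 12 (.s k6 k246 11 (.s k7 k5 0 (.d k244 k164 k165 11 12))))))] .n) (.c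
  k2 (.q k90 [(.s k10 k250 11 (.s k15 k5 2 (.s k80 k95 2 (.d k240 k160 k165 11 14)))), (.s k168 k84
  13 (.s k169 k171 0 (.s k248 k11 12 (.s k240 k244 1 (.d k80 k95 k160 2 11))))), (.s k84 k168 13 (.s
  k86 k87 0 (.s k94 k82 1 (.s k15 k173 12 (.d k10 k5 k250 2 11)))))] (.c k22 (.q k62 [(.s k10 k250
  11 (.s k15 k5 2 (.s k80 k95 2 (.d k240 k160 k165 11 14)))), (.s k168 k84 13 (.s k169 k171 0 (.s
  k248 k11 12 (.s k240 k244 1 (.d k80 k95 k160 2 11))))), (.s k84 k168 13 (.s k86 k87 0 (.s k94 k82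
  1 (.s k15 k173 12 (.d k10 k5 k250 2 11)))))] (.c k70 (.q k206 [(.s k10 k250 11 (.s k15 k5 2 (.s
  k80 k95 2 (.d k240 k160 k165 11 14)))), (.s k168 k84 13 (.s k169 k171 0 (.s k248 k11 12 (.s k240
  k244 1 (.d k80 k95 k160 2 11))))), (.s k84 k168 13 (.s k86 k87 0 (.s k94 k82 1 (.s k15 k173 12 (.d
  k10 k5 k250 2 11)))))] .n) (.c k206 (.q k70 [(.s k10 k250 11 (.s k15 k5 2 (.s k80 k95 2 (.d k240
  k160 k165 11 14)))), (.s k168 k84 13 (.s k169 k171 0 (.s k248 k11 12 (.s k240 k244 1 (.d k80 k95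
  k160 2 11))))), (.s k84 k168 13 (.s k86 k87 0 (.s k94 k82 1 (.s k15 k173 12 (.d k10 k5 k250 2
  11)))))] .n) .n))) (.c k62 (.q k22 [(.s k10 k250 11 (.s k15 k5 2 (.s k80 k95 2 (.d k240 k160 k165
  11 14)))), (.s k168 k84 13 (.s k169 k171 0 (.s k248 k11 12 (.s k240 k244 1 (.d k80 k95 k160 2
  11))))), (.s k84 k168 13 (.s k86 k87 0 (.s k94 k82 1 (.s k15 k173 12 (.d k10 k5 k250 2 11)))))]
  (.c k70 (.q k206 [(.s k10 k250 11 (.s k15 k5 2 (.s k80 k95 2 (.d k240 k160 k165 11 14)))), (.s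
  k168 k84 13 (.s k169 k171 0 (.s k248 k11 12 (.s k240 k244 1 (.d k80 k95 k160 2 11))))), (.s k84
  k168 13 (.s k86 k87 0 (.s k94 k82 1 (.s k15 k173 12 (.d k10 k5 k250 2 11)))))] .n) (.c k206 (.q
  k70 [(.s k10 k250 11 (.s k15 k5 2 (.s k80 k95 2 (.d k240 k160 k165 11 14)))), (.s k168 k84 13 (.s
  k169 k171 0 (.s k248 k11 12 (.s k240 k244 1 (.d k80 k95 k160 2 11))))), (.s k84 k168 13 (.s k86
  k87 0 (.s k94 k82 1 (.s k15 k173 12 (.d k10 k5 k250 2 11)))))] (.c k110 (.q k158 [(.s k10 k250 11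
  (.s k15 k5 2 (.s k80 k95 2 (.d k240 k160 k165 11 14)))), (.s k84 k168 13 (.s k86 k87 0 (.s k94 k82
  1 (.s k30 k222 7 (.d k150 k214 k210 7 9)))))] .n) (.c k158 (.q k110 [(.s k10 k250 11 (.s k15 k5 2
  (.s k80 k95 2 (.d k240 k160 k165 11 14)))), (.s k84 k168 13 (.s k86 k87 0 (.s k94 k82 1 (.s k78
  k126 3 (.d k102 k118 k114 3 5)))))] .n) .n))) .n))) (.c k70 (.q k206 [(.s k10 k250 11 (.s k15 k5 2
  (.s k80 k95 2 (.d k240 k160 k165 11 14)))), (.s k168 k84 13 (.s k169 k171 0 (.s k248 k11 12 (.s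
  k240 k244 1 (.d k80 k95 k160 2 11))))), (.s k84 k168 13 (.s k86 k87 0 (.s k94 k82 1 (.s k15 k173
  12 (.d k10 k5 k250 2 11)))))] (.c k22 (.q k62 [(.s k10 k250 11 (.s k15 k5 2 (.s k80 k95 2 (.d k240
  k160 k165 11 14)))), (.s k168 k84 13 (.s k169 k171 0 (.s k248 k11 12 (.s k240 k244 1 (.d k80 k95
  k160 2 11))))), (.s k84 k168 13 (.s k86 k87 0 (.s k94 k82 1 (.s k15 k173 12 (.d k10 k5 k250 2
  11)))))] .n) (.c k62 (.q k22 [(.s k10 k250 11 (.s k15 k5 2 (.s k80 k95 2 (.d k240 k160 k165 11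
  14)))), (.s k168 k84 13 (.s k169 k171 0 (.s k248 k11 12 (.s k240 k244 1 (.d k80 k95 k160 2
  11))))), (.s k84 k168 13 (.s k86 k87 0 (.s k94 k82 1 (.s k15 k173 12 (.d k10 k5 k250 2 11)))))]
  .n) .n))) (.c k206 (.q k70 [(.s k10 k250 11 (.s k15 k5 2 (.s k80 k95 2 (.d k240 k160 k165 11
  14)))), (.s k168 k84 13 (.s k169 k171 0 (.s k248 k11 12 (.s k240 k244 1 (.d k80 k95 k160 2
  11))))), (.s k84 k168 13 (.s k86 k87 0 (.s k94 k82 1 (.s k15 k173 12 (.d k10 k5 k250 2 11)))))]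
  (.c k22 (.q k62 [(.s k10 k250 11 (.s k15 k5 2 (.s k80 k95 2 (.d k240 k160 k165 11 14)))), (.s k168
  k84 13 (.s k169 k171 0 (.s k248 k11 12 (.s k240 k244 1 (.d k80 k95 k160 2 11))))), (.s k84 k168 13
  (.s k86 k87 0 (.s k94 k82 1 (.s k15 k173 12 (.d k10 k5 k250 2 11)))))] .n) (.c k62 (.q k22 [(.s
  k10 k250 11 (.s k15 k5 2 (.s k80 k95 2 (.d k240 k160 k165 11 14)))), (.s k168 k84 13 (.s k169 k171
  0 (.s k248 k11 12 (.s k240 k244 1 (.d k80 k95 k160 2 11))))), (.s k84 k168 13 (.s k86 k87 0 (.s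
  k94 k82 1 (.s k15 k173 12 (.d k10 k5 k250 2 11)))))] (.c k110 (.q k158 [(.s k10 k250 11 (.s k15 k5
  2 (.s k80 k95 2 (.d k240 k160 k165 11 14)))), (.s k84 k168 13 (.s k86 k87 0 (.s k94 k82 1 (.s k30
  k222 7 (.d k150 k214 k210 7 9)))))] .n) (.c k158 (.q k110 [(.s k10 k250 11 (.s k15 k5 2 (.s k80
  k95 2 (.d k240 k160 k165 11 14)))), (.s k84 k168 13 (.s k86 k87 0 (.s k94 k82 1 (.s k78 k126 3 (.d
  k102 k118 k114 3 5)))))] .n) .n))) .n))) .n))))) (.c k3 (.f k168 k84 13 (.q k160 [(.s k164 k172 1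
  (.s k240 k80 11 (.s k248 k244 1 (.d k88 k8 k12 11 13)))), (.s k165 k175 2 (.s k5 k245 11 (.s k15
  k10 2 (.s k173 k94 12 (.d k169 k171 k161 0 1)))))] (.c k87 (.l (.s k171 k169 0 (.s k164 k172 1 (.s
  k240 k80 11 (.s k88 k12 13 (.d k248 k244 k8 1 11)))))) (.c k171 (.q k87 [(.s k164 k172 1 (.s k240
  k80 11 (.s k248 k244 1 (.d k88 k8 k12 11 13)))), (.s k165 k175 2 (.s k5 k245 11 (.s k15 k10 2 (.d
  k240 k80 k90 11 14)))), (.s k172 k164 1 (.s k175 k165 2 (.s k174 k173 0 (.s k166 k162 1 (.s k4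
  k247 12 (.d k12 k8 k92 1 11))))))] .n) (.c k240 (.l (.s k172 k164 1 (.s k12 k92 11 (.s k4 k8 1 (.s
  k166 k247 12 (.d k169 k171 k163 0 2)))))) .n))))) (.c k84 (.q k166 [(.s k4 k247 12 (.s k162 k174 1
  (.s k243 k81 12 (.d k12 k8 k89 1 14)))), (.s k162 k174 1 (.s k243 k81 12 (.s k246 k249 2 (.s k86
  k6 11 (.s k2 k254 13 (.d k3 k1 k169 0 14)))))), (.s k4 k247 12 (.s k12 k8 1 (.s k172 k92 11 (.s
  k169 k163 2 (.s k1 k253 13 (.d k3 k2 k86 0 14))))))] (.c k12 (.q k160 [(.s k240 k80 11 (.s k165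
  k175 2 (.s k15 k90 14 (.d k5 k10 k245 2 11)))), (.s k165 k175 2 (.s k164 k167 0 (.s k172 k168 1
  (.s k163 k169 2 (.d k162 k174 k161 1 0))))), (.s k240 k80 11 (.s k244 k248 1 (.s k247 k4 12 (.s
  k246 k245 0 (.s k243 k249 2 (.d k162 k174 k81 1 12))))))] (.c k93 (.l (.s k174 k162 1 (.s k165
  k175 2 (.s k5 k245 11 (.s k15 k10 2 (.d k240 k80 k90 11 14)))))) (.c k174 (.q k93 [(.s k240 k80 11
  (.s k244 k248 1 (.s k247 k4 12 (.s k245 k246 0 (.d k165 k175 k5 2 11))))), (.s k81 k89 1 (.s k162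
  k243 12 (.s k161 k163 0 (.s k1 k241 11 (.s k3 k2 0 (.d k169 k253 k86 13 14))))))] (.c k165 (.l (.s
  k80 k240 11 (.s k81 k89 1 (.s k82 k83 0 (.s k90 k95 2 (.s k162 k243 12 (.d k242 k2 k14 11
  13))))))) (.c k240 (.l (.s k81 k89 1 (.s k162 k243 12 (.s k163 k161 0 (.s k165 k175 2 (.s k164
  k167 0 (.d k172 k168 k169 1 2))))))) (.c k247 (.l (.s k165 k175 2 (.s k5 k245 11 (.s k15 k10 2 (.d
  k240 k80 k90 11 14))))) .n)))) .n))) (.c k243 (.f k162 k174 1 (.q k12 [(.d k4 k247 k8 12 1), (.s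
  k172 k92 11 (.s k169 k163 2 (.s k1 k253 13 (.d k3 k2 k86 0 14))))] (.c k247 (.q k251 [(.d k8 k4
  k89 1 12), (.s k172 k92 11 (.s k169 k163 2 (.s k1 k253 13 (.d k3 k2 k86 0 14))))] .n) (.c k251 (.l
  (.s k247 k4 12 (.s k172 k92 11 (.s k169 k163 2 (.s k1 k253 13 (.d k3 k2 k86 0 14)))))) .n))))
  .n))) (.c k86 (.q k4 [(.s k166 k247 12 (.s k162 k174 1 (.s k243 k81 12 (.d k12 k8 k89 1 14)))),
  (.s k84 k168 13 (.s k244 k164 11 (.s k240 k248 1 (.s k160 k80 11 (.s k165 k175 2 (.s k5 k245 11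
  (.d k15 k10 k90 2 14)))))))] (.c k8 (.l (.s k166 k247 12 (.s k162 k174 1 (.s k168 k84 13 (.s k169
  k171 0 (.s k172 k163 2 (.s k12 k92 11 (.d k243 k89 k81 14 12)))))))) .n)) (.c k87 (.l (.s k168 k84
  13 (.s k169 k171 0 (.s k3 k86 14 (.d k1 k2 k253 0 13))))) (.c k168 (.q k166 [(.s k4 k247 12 (.s
  k162 k174 1 (.s k243 k81 12 (.d k12 k8 k89 1 14)))), (.s k162 k174 1 (.s k243 k81 12 (.s k246 k249
  2 (.s k86 k6 11 (.s k2 k254 13 (.d k3 k1 k169 0 14)))))), (.s k4 k247 12 (.s k12 k8 1 (.s k172 k92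
  11 (.s k169 k163 2 (.s k1 k253 13 (.d k3 k2 k86 0 14))))))] (.c k12 (.q k160 [(.s k240 k80 11 (.s
  k165 k175 2 (.s k15 k90 14 (.d k5 k10 k245 2 11)))), (.s k240 k80 11 (.s k244 k248 1 (.s k247 k4
  12 (.s k246 k245 0 (.s k243 k249 2 (.d k162 k174 k81 1 12)))))), (.s k4 k247 12 (.s k165 k175 2
  (.s k164 k167 0 (.s k244 k84 11 (.s k7 k86 12 (.d k5 k6 k245 0 11))))))] (.c k93 (.l (.s k174 k162
  1 (.s k165 k175 2 (.s k5 k245 11 (.s k15 k10 2 (.d k240 k80 k90 11 14)))))) (.c k174 (.q k93 [(.s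
  k240 k80 11 (.s k165 k175 2 (.s k15 k90 14 (.d k5 k10 k245 2 11)))), (.s k4 k247 12 (.s k240 k80
  11 (.s k244 k248 1 (.s k164 k84 11 (.d k165 k167 k175 0 2))))), (.s k80 k240 11 (.s k81 k89 1 (.s
  k82 k83 0 (.s k162 k243 12 (.s k242 k2 11 (.d k90 k95 k14 2 13)))))), (.s k4 k247 12 (.s k165 k175
  2 (.s k164 k167 0 (.s k244 k84 11 (.s k7 k86 12 (.d k5 k6 k245 0 11))))))] .n) (.c k245 (.l (.s k4
  k247 12 (.s k165 k175 2 (.s k164 k167 0 (.s k240 k80 11 (.d k244 k248 k84 1 11)))))) .n)))) (.c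
  k243 (.q k163 [(.s k172 k169 2 (.s k12 k92 11 (.d k4 k247 k8 12 1))), (.s k169 k172 2 (.s k1 k253
  13 (.d k3 k2 k86 0 14))), (.s k162 k174 1 (.s k160 k161 0 (.s k240 k80 11 (.s k244 k248 1 (.s k247
  k4 12 (.s k245 k246 0 (.d k165 k175 k5 2 11)))))))] (.c k247 (.q k251 [(.s k8 k89 12 (.s k12 k4 1
  (.d k172 k169 k92 2 11))), (.s k169 k172 2 (.s k1 k253 13 (.d k3 k2 k86 0 14))), (.s k8 k89 12 (.s
  k12 k4 1 (.s k162 k174 1 (.s k160 k161 0 (.s k240 k80 11 (.s k164 k88 13 (.d k165 k167 k175 0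
  2)))))))] .n) (.c k251 (.l (.s k247 k4 12 (.s k169 k172 2 (.s k1 k253 13 (.d k3 k2 k86 0 14)))))
  .n))) .n))) (.c k169 (.q k4 [(.s k166 k247 12 (.s k162 k174 1 (.s k243 k81 12 (.d k12 k8 k89 1
  14)))), (.s k12 k8 1 (.s k84 k168 13 (.s k164 k244 11 (.s k88 k240 13 (.d k92 k80 k172 1 11))))),
  (.s k84 k168 13 (.s k86 k87 0 (.s k166 k247 12 (.s k6 k246 11 (.s k7 k5 0 (.d k244 k164 k165 11
  12))))))] .n) (.c k171 (.l (.s k84 k168 13 (.s k86 k87 0 (.s k3 k169 14 (.d k2 k1 k254 0 13)))))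
  (.c k254 (.l (.s k168 k84 13 (.s k169 k171 0 (.s k1 k253 13 (.d k3 k2 k86 0 14))))) .n))))))))))))

def t42_139 : T TT 256 :=
  (.f k170 k255 14 (.q k195 [(.s k65 k130 8 (.s k105 k125 5 (.s k40 k235 8 (.d k60 k20 k150 5
  14))))] (.c k20 (.q k1 [(.s k3 k2 0 (.s k169 k253 13 (.s k252 k86 14 (.d k168 k171 k84 0 13)))),
  (.s k3 k2 0 (.s k65 k130 8 (.s k67 k131 7 (.s k66 k64 0 (.d k129 k193 k192 7 8))))), (.s k65 k130
  8 (.s k105 k125 5 (.s k169 k253 13 (.s k41 k233 7 (.s k61 k21 5 (.d k193 k129 k149 7 13))))))] (.c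
  k22 (.l (.s k169 k253 13 (.s k168 k171 0 (.s k252 k84 13 (.d k3 k2 k86 0 14))))) .n)) (.c k40 (.f
  k65 k130 8 (.f k105 k125 5 (.f k60 k150 14 (.q k41 [(.s k3 k22 6 (.s k169 k233 7 (.d k1 k2 k253 0
  13))), (.s k169 k233 7 (.s k1 k253 13 (.s k61 k21 5 (.d k193 k129 k149 7 13)))), (.s k3 k22 6 (.s
  k67 k131 7 (.s k86 k124 6 (.d k169 k233 k252 7 14)))), (.s k3 k22 6 (.s k2 k1 0 (.s k86 k254 13
  (.d k67 k124 k131 6 7))))] .n)))) (.c k60 (.f k130 k65 8 (.q k2 [(.s k3 k1 0 (.s k66 k194 7 (.s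
  k131 k67 7 (.d k129 k128 k192 0 8)))), (.s k86 k254 13 (.s k84 k87 0 (.s k252 k168 13 (.s k214
  k233 6 (.d k150 k190 k22 5 7)))))] (.c k3 (.l (.s k194 k66 7 (.s k192 k193 0 (.s k64 k128 7 (.s
  k106 k127 6 (.d k150 k190 k62 5 13)))))) (.c k125 (.l (.s k190 k150 5 (.s k3 k1 0 (.s k66 k194 7
  (.s k129 k192 8 (.d k131 k128 k67 0 7)))))) (.c k190 (.q k125 [(.s k3 k1 0 (.s k66 k194 7 (.s k131
  k67 7 (.d k129 k128 k192 0 8)))), (.s k86 k254 13 (.s k84 k87 0 (.s k252 k168 13 (.d k3 k1 k169 0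
  14))))] (.c k1 (.l (.s k66 k194 7 (.s k86 k254 13 (.s k84 k87 0 (.s k252 k168 13 (.s k3 k169 14
  (.s k129 k192 8 (.d k131 k128 k67 0 7)))))))) (.c k3 (.f k86 k254 13 (.l (.s k87 k84 0 (.s k194
  k66 7 (.s k192 k193 0 (.s k64 k128 7 (.s k127 k106 6 (.s k67 k107 5 (.d k124 k105 k126 6
  0))))))))) .n))) .n))))) (.c k65 (.q k4 [(.s k12 k8 1 (.s k166 k247 12 (.s k162 k174 1 (.d k243
  k81 k89 12 14)))), (.s k12 k8 1 (.s k134 k73 10 (.s k69 k199 8 (.s k101 k117 3 (.s k32 k239 10 (.s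
  k48 k16 3 (.d k207 k138 k154 10 14))))))), (.s k166 k247 12 (.s k162 k174 1 (.s k243 k81 12 (.s
  k227 k211 3 (.s k105 k44 10 (.s k40 k235 8 (.d k60 k20 k150 5 14)))))))] (.c k12 (.f k166 k247 12
  (.q k243 [(.d k162 k174 k81 1 12), (.s k227 k211 3 (.s k105 k44 10 (.s k40 k235 8 (.d k60 k20 k150
  5 14))))] (.c k93 (.l (.s k174 k162 1 (.s k227 k211 3 (.s k105 k44 10 (.s k40 k235 8 (.d k60 k20
  k150 5 14)))))) (.c k174 (.q k93 [(.d k81 k89 k162 1 12), (.s k227 k211 3 (.s k105 k44 10 (.s k40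
  k235 8 (.d k60 k20 k150 5 14))))] .n) .n)))) .n)) (.c k105 (.q k1 [(.s k169 k253 13 (.s k168 k171
  0 (.s k252 k84 13 (.d k3 k2 k86 0 14)))), (.s k3 k2 0 (.s k65 k130 8 (.s k67 k131 7 (.s k66 k64 0
  (.d k129 k193 k192 7 8)))))] (.c k2 (.l (.s k130 k65 8 (.s k150 k190 5 (.s k169 k253 13 (.s k131
  k188 6 (.s k3 k67 7 (.s k168 k171 0 (.d k252 k86 k84 14 13)))))))) (.c k3 (.l (.s k65 k130 8 (.s
  k193 k129 7 (.s k192 k194 0 (.s k128 k64 7 (.s k149 k191 6 (.s k213 k21 7 (.d k253 k233 k169 5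
  13)))))))) .n))) (.c k125 (.l (.s k130 k65 8 (.s k150 k190 5 (.s k60 k105 14 (.d k20 k40 k215 5
  8))))) (.c k130 (.q k4 [(.s k166 k247 12 (.s k162 k174 1 (.s k243 k81 12 (.d k12 k8 k89 1 14)))),
  (.s k12 k8 1 (.s k134 k73 10 (.s k69 k199 8 (.s k101 k117 3 (.s k32 k239 10 (.s k48 k16 3 (.d k207
  k138 k154 10 14)))))))] (.c k8 (.l (.s k166 k247 12 (.s k162 k174 1 (.s k243 k81 12 (.s k227 k211
  3 (.s k105 k44 10 (.s k40 k235 8 (.d k60 k20 k150 5 14)))))))) (.c k12 (.f k166 k247 12 (.q k243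
  [(.d k162 k174 k81 1 12), (.s k227 k211 3 (.s k105 k44 10 (.s k40 k235 8 (.d k60 k20 k150 5
  14))))] (.c k93 (.l (.s k174 k162 1 (.s k227 k211 3 (.s k105 k44 10 (.s k40 k235 8 (.d k60 k20
  k150 5 14)))))) (.c k174 (.q k93 [(.d k81 k89 k162 1 12), (.s k227 k211 3 (.s k105 k44 10 (.s k40
  k235 8 (.d k60 k20 k150 5 14))))] .n) .n)))) .n))) (.c k150 (.q k1 [(.s k169 k253 13 (.s k168 k171
  0 (.s k252 k84 13 (.d k3 k2 k86 0 14)))), (.s k3 k2 0 (.s k65 k130 8 (.s k129 k193 7 (.s k66 k192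
  8 (.d k67 k64 k131 0 7))))), (.s k65 k130 8 (.s k105 k125 5 (.s k169 k253 13 (.s k41 k233 7 (.s
  k61 k21 5 (.d k193 k129 k149 7 13))))))] .n) (.c k190 (.l (.s k65 k130 8 (.s k105 k125 5 (.s k60
  k150 14 (.d k40 k20 k235 5 8))))) (.c k235 (.l (.s k130 k65 8 (.s k150 k190 5 (.s k20 k215 8 (.d
  k60 k40 k105 5 14))))) .n))))))))))))

def t42_143 : T TT 256 :=
  (.f k170 k255 14 (.q k252 [(.s k84 k168 13 (.s k86 k87 0 (.s k2 k254 13 (.d k3 k1 k169 0 14))))]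
  (.c k1 (.q k4 [(.s k12 k8 1 (.s k166 k247 12 (.s k162 k174 1 (.d k243 k81 k89 12 14)))), (.s k84
  k168 13 (.s k86 k87 0 (.s k166 k247 12 (.s k6 k246 11 (.s k7 k5 0 (.d k244 k164 k165 11 12)))))),
  (.s k12 k8 1 (.s k84 k168 13 (.s k92 k172 11 (.s k88 k80 1 (.d k164 k244 k240 11 13)))))] .n) (.c
  k2 (.f k84 k168 13 (.f k86 k87 0 (.f k3 k169 14 (.q k22 [(.s k60 k41 6 (.s k150 k214 7 (.d k20 k40
  k215 5 8))), (.s k150 k214 7 (.s k20 k215 8 (.s k23 k21 0 (.d k212 k148 k149 7 8)))), (.s k60 k41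
  6 (.s k124 k188 7 (.s k105 k67 6 (.d k150 k214 k195 7 14)))), (.s k60 k41 6 (.s k40 k20 5 (.s k105
  k235 8 (.d k124 k67 k188 6 7))))] .n)))) (.c k3 (.f k84 k168 13 (.q k4 [(.s k166 k247 12 (.s k162
  k174 1 (.s k243 k81 12 (.d k12 k8 k89 1 14)))), (.s k244 k164 11 (.s k240 k248 1 (.s k160 k80 11
  (.s k165 k175 2 (.d k86 k87 k7 0 12)))))] (.c k8 (.l (.s k166 k247 12 (.s k162 k174 1 (.s k243 k81
  12 (.s k246 k249 2 (.d k86 k87 k6 0 11)))))) (.c k87 (.q k171 [(.s k12 k8 1 (.s k92 k172 11 (.s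
  k88 k80 1 (.d k164 k244 k240 11 13)))), (.s k166 k247 12 (.s k162 k174 1 (.s k243 k81 12 (.d k12
  k8 k89 1 14)))), (.s k244 k164 11 (.s k247 k166 12 (.s k245 k246 0 (.s k165 k5 11 (.s k160 k175 2
  (.d k240 k248 k80 1 11))))))] .n) (.c k171 (.l (.s k87 k86 0 (.s k12 k8 1 (.s k92 k172 11 (.s k88
  k80 1 (.d k164 k244 k240 11 13)))))) .n))))) (.c k84 (.q k89 [(.s k8 k251 12 (.s k81 k93 1 (.s
  k243 k162 12 (.d k12 k4 k166 1 14)))), (.s k81 k93 1 (.s k243 k162 12 (.s k249 k246 2 (.s k169 k9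
  11 (.s k1 k253 13 (.d k3 k2 k86 0 14)))))), (.s k8 k251 12 (.s k12 k4 1 (.s k92 k172 11 (.s k86
  k83 2 (.s k2 k254 13 (.d k3 k1 k169 0 14))))))] (.c k12 (.q k149 [(.s k29 k209 9 (.s k93 k81 1 (.s
  k221 k157 7 (.s k17 k153 9 (.d k21 k25 k213 1 7))))), (.s k128 k191 6 (.s k192 k64 7 (.s k212 k232
  5 (.s k86 k23 8 (.s k2 k254 13 (.d k3 k1 k169 0 14))))))] (.c k93 (.q k174 [(.s k166 k162 1 (.s
  k183 k132 4 (.s k191 k128 6 (.s k179 k187 1 (.d k140 k157 k153 4 6))))), (.s k128 k191 6 (.s k162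
  k166 1 (.s k192 k64 7 (.s k209 k29 9 (.d k243 k226 k81 4 12))))), (.s k21 k213 7 (.s k166 k162 1
  (.s k4 k247 12 (.s k55 k38 4 (.s k132 k183 4 (.d k196 k68 k102 7 12)))))), (.s k21 k213 7 (.s k29
  k209 9 (.s k17 k25 1 (.s k191 k128 6 (.s k157 k140 4 (.d k153 k221 k145 9 1))))))] (.c k192 (.l
  (.s k128 k191 6 (.s k162 k166 1 (.s k81 k243 12 (.s k145 k179 4 (.d k209 k17 k29 7 9)))))) .n))
  (.c k174 (.l (.s k93 k81 1 (.s k21 k213 7 (.s k29 k209 9 (.s k17 k25 1 (.d k221 k157 k153 7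
  9)))))) .n))) (.c k243 (.q k241 [(.s k81 k93 1 (.s k1 k161 11 (.s k3 k2 0 (.d k169 k253 k86 13
  14)))), (.s k165 k13 13 (.s k5 k245 11 (.s k15 k10 2 (.s k160 k175 2 (.d k240 k80 k90 11 14)))))]
  (.c k247 (.l (.s k251 k8 12 (.s k81 k93 1 (.s k1 k161 11 (.s k3 k2 0 (.d k169 k253 k86 13 14))))))
  (.c k251 (.q k247 [(.s k81 k93 1 (.s k1 k161 11 (.s k3 k2 0 (.d k169 k253 k86 13 14)))), (.s k165
  k13 13 (.s k5 k245 11 (.s k15 k10 2 (.s k160 k175 2 (.d k240 k80 k90 11 14)))))] .n) .n))) .n)))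
  (.c k86 (.q k4 [(.s k166 k247 12 (.s k162 k174 1 (.s k243 k81 12 (.d k12 k8 k89 1 14)))), (.s k84
  k168 13 (.s k244 k164 11 (.s k240 k248 1 (.s k160 k80 11 (.s k165 k175 2 (.s k5 k245 11 (.d k15
  k10 k90 2 14)))))))] (.c k8 (.l (.s k166 k247 12 (.s k162 k174 1 (.s k168 k84 13 (.s k169 k171 0
  (.s k172 k163 2 (.s k12 k92 11 (.d k243 k89 k81 14 12)))))))) .n)) (.c k87 (.l (.s k168 k84 13 (.s
  k169 k171 0 (.s k3 k86 14 (.d k1 k2 k253 0 13))))) (.c k168 (.q k102 [(.s k34 k238 9 (.s k51 k17 4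
  (.s k68 k119 4 (.d k204 k136 k153 9 14)))), (.s k68 k119 4 (.s k204 k136 9 (.s k236 k220 3 (.s
  k169 k35 10 (.s k1 k253 13 (.d k3 k2 k86 0 14)))))), (.s k34 k238 9 (.s k51 k17 4 (.s k118 k185 10
  (.s k86 k70 3 (.s k2 k254 13 (.d k3 k1 k169 0 14))))))] (.c k51 (.q k149 [(.s k55 k196 12 (.s k119
  k68 4 (.s k247 k183 7 (.s k4 k166 12 (.d k21 k38 k213 4 7))))), (.s k128 k191 6 (.s k192 k64 7 (.s
  k212 k232 5 (.s k86 k23 8 (.s k2 k254 13 (.d k3 k1 k169 0 14))))))] (.c k119 (.q k187 [(.s k128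
  k191 6 (.s k136 k153 4 (.s k192 k64 7 (.s k196 k55 12 (.d k204 k200 k68 1 9))))), (.s k21 k213 7
  (.s k153 k136 4 (.s k17 k221 9 (.s k29 k25 1 (.s k145 k157 1 (.d k209 k81 k89 7 9)))))), (.s k21
  k213 7 (.s k55 k196 12 (.s k4 k38 4 (.s k191 k128 6 (.s k183 k179 1 (.d k166 k247 k132 12 4))))))]
  (.c k192 (.l (.s k128 k191 6 (.s k136 k153 4 (.s k68 k204 9 (.s k132 k140 1 (.d k196 k4 k55 7
  12)))))) .n)) (.c k187 (.l (.s k119 k68 4 (.s k21 k213 7 (.s k55 k196 12 (.s k4 k38 4 (.d k247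
  k183 k166 7 12)))))) .n))) (.c k204 (.q k118 [(.s k51 k185 10 (.d k34 k238 k17 9 4)), (.s k86 k70
  3 (.s k2 k254 13 (.d k3 k1 k169 0 14)))] (.c k221 (.l (.s k238 k34 9 (.s k86 k70 3 (.s k2 k254 13
  (.d k3 k1 k169 0 14))))) (.c k238 (.q k221 [(.s k17 k153 9 (.d k51 k34 k185 4 10)), (.s k86 k70 3
  (.s k2 k254 13 (.d k3 k1 k169 0 14)))] .n) .n))) .n))) (.c k169 (.q k4 [(.s k166 k247 12 (.s k162
  k174 1 (.s k243 k81 12 (.d k12 k8 k89 1 14)))), (.s k12 k8 1 (.s k84 k168 13 (.s k164 k244 11 (.s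
  k88 k240 13 (.d k92 k80 k172 1 11))))), (.s k84 k168 13 (.s k86 k87 0 (.s k166 k247 12 (.s k6 k246
  11 (.s k7 k5 0 (.d k244 k164 k165 11 12))))))] .n) (.c k171 (.l (.s k84 k168 13 (.s k86 k87 0 (.s
  k3 k169 14 (.d k2 k1 k254 0 13))))) (.c k254 (.l (.s k168 k84 13 (.s k169 k171 0 (.s k1 k253 13
  (.d k3 k2 k86 0 14))))) .n))))))))))))

def t42_154 : T TT 256 :=
  (.f k170 k255 14 (.q k240 [(.s k80 k160 11 (.s k90 k95 2 (.s k10 k250 11 (.d k15 k5 k165 2 14))))]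
  (.c k5 (.q k1 [(.s k169 k253 13 (.s k168 k171 0 (.s k252 k84 13 (.d k3 k2 k86 0 14)))), (.s k3 k2
  0 (.s k160 k80 11 (.s k161 k82 12 (.s k81 k241 11 (.d k162 k163 k243 0 12))))), (.s k80 k160 11
  (.s k90 k95 2 (.s k169 k253 13 (.s k248 k11 12 (.s k252 k244 1 (.d k168 k171 k84 0 13))))))] .n)
  (.c k10 (.f k80 k160 11 (.q k64 [(.s k96 k112 3 (.s k192 k128 7 (.s k208 k224 3 (.d k144 k16 k48 7
  11)))), (.s k90 k95 2 (.s k106 k127 6 (.s k74 k122 3 (.s k79 k69 2 (.d k112 k96 k101 3 6))))), (.s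
  k90 k95 2 (.s k15 k165 14 (.s k106 k127 6 (.s k192 k128 7 (.d k74 k122 k133 3 10)))))] (.c k26 (.q
  k58 [(.s k96 k112 3 (.s k192 k128 7 (.s k208 k224 3 (.d k144 k16 k48 7 11)))), (.s k90 k95 2 (.s
  k106 k127 6 (.s k74 k122 3 (.s k79 k69 2 (.d k112 k96 k101 3 6))))), (.s k90 k95 2 (.s k15 k165 14
  (.s k106 k127 6 (.s k192 k128 7 (.d k74 k122 k133 3 10)))))] (.c k90 (.q k218 [(.s k96 k112 3 (.s
  k192 k128 7 (.s k208 k224 3 (.d k144 k16 k48 7 11)))), (.s k96 k112 3 (.s k106 k127 6 (.s k101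
  k111 2 (.s k207 k229 6 (.d k69 k117 k138 3 10))))), (.s k106 k127 6 (.s k192 k128 7 (.s k208 k224
  3 (.s k213 k223 2 (.d k149 k63 k21 14 7)))))] (.c k96 (.l (.s k192 k128 7 (.s k207 k229 6 (.s k69
  k138 10 (.s k74 k79 2 (.s k133 k15 10 (.d k197 k202 k5 2 7))))))) .n)) (.c k218 (.l (.s k90 k95 2
  (.s k15 k165 14 (.s k106 k127 6 (.s k74 k122 3 (.d k192 k128 k133 7 10)))))) .n))) (.c k58 (.q k26
  [(.s k90 k95 2 (.s k15 k165 14 (.s k112 k96 3 (.d k48 k176 k37 7 6)))), (.s k96 k112 3 (.s k192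
  k128 7 (.s k144 k48 11 (.d k208 k224 k16 3 7)))), (.s k90 k95 2 (.s k15 k165 14 (.s k106 k127 6
  (.s k192 k128 7 (.d k74 k122 k133 3 10)))))] (.c k106 (.q k202 [(.s k96 k112 3 (.s k192 k128 7 (.s
  k208 k224 3 (.d k144 k16 k48 7 11)))), (.s k90 k95 2 (.s k128 k192 7 (.s k149 k191 6 (.s k31 k208
  10 (.d k21 k213 k16 7 2))))), (.s k90 k95 2 (.s k15 k165 14 (.s k48 k37 6 (.d k112 k176 k96 7
  3))))] .n) (.c k176 (.l (.s k96 k112 3 (.s k192 k128 7 (.s k144 k48 11 (.d k208 k224 k16 3 7)))))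
  (.c k202 (.l (.s k106 k127 6 (.s k90 k95 2 (.s k15 k165 14 (.s k48 k37 6 (.d k112 k176 k96 7
  3)))))) .n)))) .n)))) (.c k15 (.f k160 k80 11 (.q k164 [(.s k12 k88 13 (.s k4 k8 1 (.s k84 k244 11
  (.d k168 k172 k252 1 13)))), (.s k168 k172 1 (.s k169 k171 0 (.s k1 k253 13 (.s k3 k2 0 (.s k161
  k82 12 (.d k165 k175 k173 2 1)))))), (.s k12 k88 13 (.s k8 k4 1 (.s k89 k251 12 (.s k81 k93 1 (.d
  k243 k162 k166 12 14)))))] (.c k95 (.l (.s k175 k165 2 (.s k12 k88 13 (.s k4 k8 1 (.s k84 k244 11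
  (.d k168 k172 k252 1 13)))))) (.c k175 (.q k95 [(.s k12 k88 13 (.s k4 k8 1 (.s k84 k244 11 (.d
  k168 k172 k252 1 13)))), (.s k168 k172 1 (.s k169 k171 0 (.s k1 k253 13 (.s k3 k2 0 (.d k252 k84
  k86 13 14))))), (.s k12 k88 13 (.s k8 k4 1 (.s k89 k251 12 (.s k81 k93 1 (.d k243 k162 k166 12
  14)))))] (.c k84 (.l (.s k172 k168 1 (.s k12 k88 13 (.s k92 k252 11 (.s k8 k4 1 (.s k89 k251 12
  (.d k93 k94 k81 0 1))))))) .n)) .n)))) (.c k80 (.q k2 [(.s k3 k1 0 (.s k86 k254 13 (.s k84 k87 0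
  (.d k252 k168 k169 13 14)))), (.s k3 k1 0 (.s k82 k161 12 (.s k162 k242 11 (.s k166 k174 1 (.s k4
  k247 12 (.s k12 k8 1 (.d k243 k81 k89 12 14)))))))] (.c k1 (.l (.s k86 k254 13 (.s k84 k87 0 (.s
  k252 k168 13 (.s k244 k248 1 (.s k165 k7 12 (.s k5 k245 11 (.d k15 k10 k90 2 14)))))))) (.c k3 (.f
  k86 k254 13 (.q k252 [(.d k84 k87 k168 0 13), (.s k244 k248 1 (.s k165 k7 12 (.s k5 k245 11 (.d
  k15 k10 k90 2 14))))] (.c k87 (.q k171 [(.d k168 k169 k84 0 13), (.s k244 k248 1 (.s k165 k7 12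
  (.s k5 k245 11 (.d k15 k10 k90 2 14))))] .n) (.c k171 (.l (.s k87 k84 0 (.s k244 k248 1 (.s k165
  k7 12 (.s k5 k245 11 (.d k15 k10 k90 2 14)))))) .n)))) .n))) (.c k90 (.f k160 k80 11 (.q k207 [(.s
  k69 k138 10 (.s k101 k117 3 (.s k165 k175 2 (.d k229 k218 k37 6 7)))), (.s k69 k138 10 (.s k165
  k175 2 (.s k5 k245 11 (.s k15 k10 2 (.s k79 k143 7 (.s k74 k64 2 (.d k133 k197 k192 7 10))))))),
  (.s k69 k138 10 (.s k101 k117 3 (.s k32 k239 10 (.s k48 k16 3 (.s k96 k224 7 (.s k144 k192 11 (.d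
  k176 k128 k112 3 7)))))))] (.c k26 (.f k218 k229 6 (.l (.s k69 k138 10 (.s k101 k117 3 (.s k32
  k239 10 (.s k48 k16 3 (.s k176 k112 7 (.s k144 k128 3 (.d k96 k224 k192 7 11))))))))) (.c k69 (.q
  k128 [(.s k144 k176 3 (.s k192 k64 7 (.s k96 k48 11 (.d k224 k208 k32 3 7)))), (.s k149 k191 6 (.s
  k165 k175 2 (.s k213 k21 7 (.s k245 k5 11 (.d k229 k197 k218 3 6))))), (.s k192 k64 7 (.s k224
  k208 3 (.s k96 k32 7 (.d k144 k176 k48 3 11))))] (.c k26 (.l (.s k218 k229 6 (.s k144 k176 3 (.s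
  k192 k64 7 (.s k96 k48 11 (.d k224 k208 k32 3 7)))))) (.c k218 (.q k26 [(.s k144 k176 3 (.s k192
  k64 7 (.s k96 k48 11 (.d k224 k208 k32 3 7)))), (.s k149 k191 6 (.s k165 k175 2 (.s k181 k133 3
  (.s k63 k122 10 (.d k192 k106 k64 14 7))))), (.s k149 k191 6 (.s k21 k213 7 (.s k16 k31 2 (.s k48
  k32 3 (.d k176 k144 k112 3 7)))))] (.c k192 (.l (.s k149 k191 6 (.s k176 k144 3 (.s k48 k112 7 (.s
  k16 k32 3 (.d k21 k31 k213 2 7)))))) .n)) .n))) (.c k138 (.q k192 [(.s k128 k64 7 (.s k144 k176 3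
  (.s k96 k48 11 (.d k224 k208 k32 3 7)))), (.s k165 k175 2 (.s k197 k202 2 (.s k245 k5 11 (.d k229
  k218 k213 6 3))))] (.c k26 (.l (.s k218 k229 6 (.s k64 k128 7 (.s k106 k127 6 (.s k165 k175 2 (.d
  k224 k208 k47 3 10)))))) (.c k165 (.l (.s k128 k64 7 (.s k224 k208 3 (.s k96 k32 7 (.d k144 k176
  k48 3 11))))) (.c k218 (.q k26 [(.s k128 k64 7 (.s k144 k176 3 (.s k96 k48 11 (.d k224 k208 k32 3
  7)))), (.s k165 k175 2 (.s k5 k245 11 (.s k197 k202 2 (.s k133 k69 7 (.d k15 k10 k74 2 10)))))]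
  (.c k165 (.l (.s k128 k64 7 (.s k224 k208 3 (.s k96 k32 7 (.d k144 k176 k48 3 11))))) .n)) .n))))
  (.c k218 (.q k26 [(.s k69 k138 10 (.s k101 k117 3 (.s k32 k239 10 (.s k48 k16 3 (.s k37 k15 6 (.d
  k165 k175 k229 2 7)))))), (.s k69 k138 10 (.s k165 k175 2 (.s k5 k245 11 (.s k15 k10 2 (.s k79
  k143 7 (.s k74 k64 2 (.d k133 k197 k192 7 10))))))), (.s k69 k138 10 (.s k101 k117 3 (.s k32 k239
  10 (.s k48 k16 3 (.s k96 k224 7 (.s k144 k192 11 (.d k176 k128 k112 3 7)))))))] (.c k69 (.q k1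
  [(.s k3 k2 0 (.s k169 k253 13 (.s k168 k171 0 (.d k252 k84 k86 13 14)))), (.s k165 k175 2 (.s k169
  k253 13 (.s k161 k173 1 (.s k81 k241 11 (.d k162 k163 k243 0 12))))), (.s k3 k2 0 (.s k161 k82 12
  (.s k81 k241 11 (.d k162 k163 k243 0 12))))] .n) (.c k138 (.q k1 [(.s k3 k2 0 (.s k169 k253 13 (.s
  k168 k171 0 (.d k252 k84 k86 13 14)))), (.s k165 k175 2 (.s k169 k253 13 (.s k161 k173 1 (.s k81
  k241 11 (.d k162 k163 k243 0 12))))), (.s k3 k2 0 (.s k161 k82 12 (.s k81 k241 11 (.d k162 k163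
  k243 0 12))))] .n) .n))) .n)))))) (.c k95 (.l (.s k160 k80 11 (.s k165 k175 2 (.s k15 k90 14 (.d
  k5 k10 k245 2 11))))) (.c k160 (.q k2 [(.s k3 k1 0 (.s k86 k254 13 (.s k84 k87 0 (.d k252 k168
  k169 13 14)))), (.s k3 k1 0 (.s k82 k161 12 (.s k162 k242 11 (.s k166 k174 1 (.s k4 k247 12 (.s
  k12 k8 1 (.d k243 k81 k89 12 14)))))))] (.c k1 (.l (.s k86 k254 13 (.s k84 k87 0 (.s k252 k168 13
  (.s k244 k248 1 (.s k165 k7 12 (.s k5 k245 11 (.d k15 k10 k90 2 14)))))))) (.c k3 (.f k86 k254 13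
  (.q k252 [(.d k84 k87 k168 0 13), (.s k244 k248 1 (.s k165 k7 12 (.s k5 k245 11 (.d k15 k10 k90 2
  14))))] (.c k87 (.q k171 [(.d k168 k169 k84 0 13), (.s k244 k248 1 (.s k165 k7 12 (.s k5 k245 11
  (.d k15 k10 k90 2 14))))] .n) (.c k171 (.l (.s k87 k84 0 (.s k244 k248 1 (.s k165 k7 12 (.s k5
  k245 11 (.d k15 k10 k90 2 14)))))) .n)))) .n))) (.c k165 (.f k160 k80 11 (.q k161 [(.s k3 k82 12
  (.s k162 k163 0 (.s k81 k243 12 (.d k1 k2 k241 0 11)))), (.s k162 k163 0 (.s k166 k174 1 (.s k4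
  k247 12 (.s k12 k8 1 (.d k243 k81 k89 12 14))))), (.s k3 k82 12 (.s k2 k1 0 (.s k86 k254 13 (.s
  k84 k87 0 (.d k252 k168 k169 13 14)))))] (.c k81 (.l (.s k82 k3 12 (.s k162 k163 0 (.s k166 k174 1
  (.s k4 k247 12 (.s k12 k8 1 (.s k242 k2 11 (.d k243 k241 k89 0 14)))))))) (.c k143 (.q k176 [(.s
  k3 k82 12 (.s k162 k163 0 (.s k81 k243 12 (.d k1 k2 k241 0 11)))), (.s k48 k112 7 (.s k32 k16 3
  (.s k96 k224 7 (.d k144 k128 k192 3 11))))] .n) (.c k176 (.q k143 [(.s k3 k82 12 (.s k162 k163 0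
  (.s k81 k243 12 (.d k1 k2 k241 0 11)))), (.s k162 k163 0 (.s k166 k174 1 (.s k4 k247 12 (.s k12 k8
  1 (.d k243 k81 k89 12 14))))), (.s k3 k82 12 (.s k2 k1 0 (.s k86 k254 13 (.s k84 k87 0 (.d k252
  k168 k169 13 14)))))] (.c k81 (.l (.s k82 k3 12 (.s k162 k163 0 (.s k166 k174 1 (.s k4 k247 12 (.s
  k12 k8 1 (.s k242 k2 11 (.d k243 k241 k89 0 14)))))))) .n)) .n))))) (.c k175 (.l (.s k80 k160 11
  (.s k90 k95 2 (.s k15 k165 14 (.d k10 k5 k250 2 11))))) (.c k250 (.l (.s k160 k80 11 (.s k165 k175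
  2 (.s k5 k245 11 (.d k15 k10 k90 2 14))))) .n))))))))))))

def t42_155 : T TT 256 :=
  (.f k170 k255 14 (.q k252 [(.s k84 k168 13 (.s k86 k87 0 (.s k2 k254 13 (.d k3 k1 k169 0 14)))),
  (.s k168 k84 13 (.s k169 k171 0 (.s k1 k253 13 (.d k3 k2 k86 0 14))))] (.c k1 (.q k4 [(.s k12 k8 1
  (.s k166 k247 12 (.s k162 k174 1 (.d k243 k81 k89 12 14)))), (.s k84 k168 13 (.s k86 k87 0 (.s
  k166 k247 12 (.s k6 k246 11 (.s k7 k5 0 (.d k244 k164 k165 11 12)))))), (.s k12 k8 1 (.s k84 k168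
  13 (.s k92 k172 11 (.s k88 k80 1 (.d k164 k244 k240 11 13)))))] .n) (.c k2 (.f k84 k168 13 (.q
  k105 [(.s k40 k235 8 (.s k60 k20 5 (.s k65 k125 5 (.d k195 k130 k150 8 14)))), (.s k86 k87 0 (.s
  k124 k67 6 (.s k60 k188 7 (.d k40 k20 k235 5 8)))), (.s k86 k87 0 (.s k3 k169 14 (.s k67 k124 6
  (.s k195 k131 7 (.d k65 k125 k130 5 8)))))] (.c k22 (.q k62 [(.s k40 k235 8 (.s k60 k20 5 (.s k65
  k125 5 (.d k195 k130 k150 8 14)))), (.s k86 k87 0 (.s k124 k67 6 (.s k60 k188 7 (.d k40 k20 k235 5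
  8)))), (.s k86 k87 0 (.s k3 k169 14 (.s k67 k124 6 (.s k195 k131 7 (.d k65 k125 k130 5 8)))))] .n)
  (.c k62 (.q k22 [(.s k40 k235 8 (.s k60 k20 5 (.s k65 k125 5 (.d k195 k130 k150 8 14)))), (.s k86
  k87 0 (.s k3 k169 14 (.s k60 k41 6 (.d k40 k20 k235 5 8)))), (.s k86 k87 0 (.s k214 k150 7 (.s
  k195 k233 6 (.d k65 k125 k130 5 8))))] .n) .n)))) (.c k3 (.f k84 k168 13 (.f k87 k86 0 (.q k4 [(.s
  k166 k247 12 (.s k162 k174 1 (.s k243 k81 12 (.d k12 k8 k89 1 14)))), (.s k244 k164 11 (.s k240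
  k248 1 (.s k160 k80 11 (.s k165 k175 2 (.s k5 k245 11 (.d k15 k10 k90 2 14))))))] (.c k8 (.l (.s
  k164 k244 11 (.s k166 k247 12 (.s k162 k174 1 (.s k243 k81 12 (.s k12 k89 14 (.s k88 k240 13 (.d
  k92 k80 k172 1 11)))))))) .n)))) (.c k84 (.q k150 [(.s k20 k215 8 (.s k130 k190 5 (.s k195 k65 8
  (.d k60 k40 k105 5 14)))), (.s k130 k190 5 (.s k195 k65 8 (.s k214 k233 6 (.s k86 k22 7 (.s k2
  k254 13 (.d k3 k1 k169 0 14)))))), (.s k20 k215 8 (.s k60 k40 5 (.s k188 k124 7 (.s k169 k131 6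
  (.s k1 k253 13 (.d k3 k2 k86 0 14))))))] (.c k60 (.q k212 [(.s k215 k20 8 (.s k214 k213 0 (.s k195
  k233 6 (.d k130 k190 k65 5 8)))), (.s k215 k20 8 (.s k213 k214 0 (.s k149 k21 7 (.s k23 k86 8 (.d
  k151 k148 k87 0 7))))), (.s k192 k232 5 (.s k64 k128 7 (.s k106 k127 6 (.s k194 k62 13 (.s k195
  k193 0 (.d k130 k190 k65 5 8))))))] (.c k125 (.l (.s k190 k130 5 (.s k192 k232 5 (.s k128 k64 7
  (.s k149 k191 6 (.s k213 k21 7 (.d k215 k214 k20 0 8))))))) (.c k190 (.q k125 [(.s k65 k105 5 (.s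
  k195 k130 8 (.s k215 k20 8 (.d k214 k213 k233 0 6)))), (.s k65 k105 5 (.s k192 k232 5 (.s k64 k128
  7 (.s k106 k127 6 (.s k194 k62 13 (.d k195 k193 k130 0 8)))))), (.s k192 k232 5 (.s k128 k64 7 (.s
  k149 k191 6 (.s k213 k21 7 (.d k215 k214 k20 0 8)))))] .n) .n))) (.c k195 (.q k146 [(.s k154 k158
  1 (.s k16 k223 10 (.s k48 k32 3 (.s k138 k186 3 (.d k207 k69 k101 10 14))))), (.s k130 k190 5 (.s
  k154 k158 1 (.s k138 k186 3 (.s k142 k134 1 (.d k178 k162 k166 3 5))))), (.s k130 k190 5 (.s k154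
  k158 1 (.s k16 k223 10 (.s k81 k211 8 (.d k162 k243 k178 12 3))))), (.s k130 k190 5 (.s k162 k178
  3 (.s k81 k243 12 (.s k89 k93 1 (.d k211 k16 k28 8 10)))))] (.c k215 (.q k235 [(.s k130 k190 5 (.s
  k154 k158 1 (.s k138 k186 3 (.s k178 k162 3 (.d k142 k134 k166 1 5))))), (.s k154 k158 1 (.s k16
  k223 10 (.s k48 k32 3 (.s k138 k186 3 (.d k207 k69 k101 10 14))))), (.s k130 k190 5 (.s k162 k178
  3 (.s k81 k243 12 (.s k89 k93 1 (.d k211 k16 k28 8 10))))), (.s k40 k105 8 (.s k20 k60 5 (.s k154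
  k158 1 (.s k16 k223 10 (.s k28 k24 1 (.d k211 k81 k89 8 10))))))] .n) (.c k235 (.l (.s k215 k20 8
  (.s k130 k190 5 (.s k154 k158 1 (.s k16 k223 10 (.s k81 k211 8 (.d k162 k243 k178 12 3)))))))
  .n))) .n))) (.c k86 (.q k4 [(.s k166 k247 12 (.s k162 k174 1 (.s k243 k81 12 (.d k12 k8 k89 1
  14)))), (.s k84 k168 13 (.s k244 k164 11 (.s k240 k248 1 (.s k160 k80 11 (.s k165 k175 2 (.s k5
  k245 11 (.d k15 k10 k90 2 14)))))))] (.c k8 (.l (.s k166 k247 12 (.s k162 k174 1 (.s k168 k84 13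
  (.s k169 k171 0 (.s k172 k163 2 (.s k12 k92 11 (.d k243 k89 k81 14 12)))))))) .n)) (.c k87 (.l (.s
  k168 k84 13 (.s k169 k171 0 (.s k3 k86 14 (.d k1 k2 k253 0 13))))) (.c k168 (.q k89 [(.s k8 k251
  12 (.s k12 k4 1 (.s k81 k93 1 (.d k243 k162 k166 12 14)))), (.s k81 k93 1 (.s k243 k162 12 (.s
  k249 k246 2 (.s k169 k9 11 (.s k1 k253 13 (.d k3 k2 k86 0 14)))))), (.s k8 k251 12 (.s k12 k4 1
  (.s k92 k172 11 (.s k86 k83 2 (.s k2 k254 13 (.d k3 k1 k169 0 14))))))] (.c k12 (.q k138 [(.s k154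
  k186 3 (.s k207 k69 10 (.s k48 k101 14 (.d k16 k32 k223 3 10)))), (.s k8 k251 12 (.s k154 k186 3
  (.s k24 k219 8 (.s k56 k40 3 (.d k203 k73 k105 8 12))))), (.s k8 k251 12 (.s k69 k207 10 (.s k73
  k203 8 (.s k77 k65 1 (.d k101 k117 k113 3 5)))))] (.c k93 (.q k174 [(.s k154 k186 3 (.s k207 k69
  10 (.s k48 k101 14 (.d k16 k32 k223 3 10)))), (.s k8 k251 12 (.s k154 k186 3 (.s k24 k219 8 (.s
  k56 k40 3 (.d k203 k73 k105 8 12))))), (.s k8 k251 12 (.s k69 k207 10 (.s k73 k203 8 (.s k77 k65 1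
  (.d k101 k117 k113 3 5)))))] (.c k117 (.l (.s k207 k69 10 (.s k154 k186 3 (.s k48 k101 14 (.d k16
  k32 k223 3 10))))) .n)) (.c k117 (.l (.s k207 k69 10 (.s k154 k186 3 (.s k48 k101 14 (.d k16 k32
  k223 3 10))))) (.c k174 (.l (.s k93 k81 1 (.s k154 k186 3 (.s k16 k223 10 (.s k48 k32 3 (.d k207
  k69 k101 10 14)))))) .n)))) (.c k243 (.q k101 [(.s k32 k239 10 (.s k48 k16 3 (.s k69 k117 3 (.d
  k207 k138 k154 10 14)))), (.s k81 k93 1 (.s k113 k77 5 (.s k65 k97 3 (.s k117 k69 3 (.d k125 k121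
  k105 1 5))))), (.s k32 k239 10 (.s k48 k16 3 (.s k77 k113 5 (.s k207 k154 14 (.s k12 k142 8 (.d k8
  k251 k4 12 1))))))] (.c k247 (.l (.s k251 k8 12 (.s k32 k239 10 (.s k48 k16 3 (.s k69 k117 3 (.d
  k207 k138 k154 10 14)))))) (.c k251 (.q k247 [(.s k32 k239 10 (.s k48 k16 3 (.s k69 k117 3 (.d
  k207 k138 k154 10 14)))), (.s k4 k166 12 (.s k117 k69 3 (.s k52 k182 8 (.s k20 k36 3 (.d k150 k215
  k199 8 12))))), (.s k4 k166 12 (.s k12 k8 1 (.s k32 k239 10 (.s k48 k16 3 (.s k24 k36 5 (.d k154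
  k207 k219 14 8))))))] .n) .n))) .n))) (.c k169 (.q k4 [(.s k166 k247 12 (.s k162 k174 1 (.s k243
  k81 12 (.d k12 k8 k89 1 14)))), (.s k12 k8 1 (.s k84 k168 13 (.s k164 k244 11 (.s k88 k240 13 (.d
  k92 k80 k172 1 11))))), (.s k84 k168 13 (.s k86 k87 0 (.s k166 k247 12 (.s k6 k246 11 (.s k7 k5 0
  (.d k244 k164 k165 11 12))))))] .n) (.c k171 (.l (.s k84 k168 13 (.s k86 k87 0 (.s k3 k169 14 (.d
  k2 k1 k254 0 13))))) .n)))))))))))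

def t42_159 : T TT 256 :=
  (.f k170 k255 14 (.q k252 [(.s k84 k168 13 (.s k86 k87 0 (.s k2 k254 13 (.d k3 k1 k169 0 14))))]
  (.c k1 (.q k4 [(.s k12 k8 1 (.s k166 k247 12 (.s k162 k174 1 (.d k243 k81 k89 12 14)))), (.s k84
  k168 13 (.s k86 k87 0 (.s k166 k247 12 (.s k6 k246 11 (.s k7 k5 0 (.d k244 k164 k165 11 12)))))),
  (.s k12 k8 1 (.s k84 k168 13 (.s k92 k172 11 (.s k88 k80 1 (.d k164 k244 k240 11 13)))))] .n) (.c
  k2 (.f k84 k168 13 (.f k86 k87 0 (.f k3 k169 14 (.q k22 [(.s k60 k41 6 (.s k150 k214 7 (.d k20 k40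
  k215 5 8))), (.s k150 k214 7 (.s k20 k215 8 (.s k23 k21 0 (.d k212 k148 k149 7 8)))), (.s k60 k41
  6 (.s k124 k188 7 (.s k105 k67 6 (.d k150 k214 k195 7 14)))), (.s k60 k41 6 (.s k40 k20 5 (.s k105
  k235 8 (.d k124 k67 k188 6 7))))] .n)))) (.c k3 (.f k84 k168 13 (.q k4 [(.s k166 k247 12 (.s k162
  k174 1 (.s k243 k81 12 (.d k12 k8 k89 1 14)))), (.s k244 k164 11 (.s k240 k248 1 (.s k160 k80 11
  (.s k165 k175 2 (.d k86 k87 k7 0 12)))))] (.c k8 (.l (.s k166 k247 12 (.s k162 k174 1 (.s k243 k81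
  12 (.s k246 k249 2 (.d k86 k87 k6 0 11)))))) (.c k87 (.q k171 [(.s k12 k8 1 (.s k92 k172 11 (.s
  k88 k80 1 (.d k164 k244 k240 11 13)))), (.s k166 k247 12 (.s k162 k174 1 (.s k243 k81 12 (.d k12
  k8 k89 1 14)))), (.s k244 k164 11 (.s k247 k166 12 (.s k245 k246 0 (.s k165 k5 11 (.s k160 k175 2
  (.d k240 k248 k80 1 11))))))] .n) (.c k171 (.l (.s k87 k86 0 (.s k12 k8 1 (.s k92 k172 11 (.s k88
  k80 1 (.d k164 k244 k240 11 13)))))) .n))))) (.c k84 (.q k105 [(.s k40 k235 8 (.s k65 k125 5 (.s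
  k195 k130 8 (.d k60 k20 k150 5 14)))), (.s k40 k235 8 (.s k60 k20 5 (.s k124 k188 7 (.s k86 k67 6
  (.s k2 k254 13 (.d k3 k1 k169 0 14)))))), (.s k65 k125 5 (.s k195 k130 8 (.s k60 k150 14 (.s k124
  k188 7 (.s k86 k67 6 (.s k2 k254 13 (.d k3 k169 k1 14 0)))))))] (.c k60 (.q k32 [(.s k101 k239 10
  (.s k69 k117 3 (.s k207 k138 10 (.d k48 k16 k154 3 14)))), (.s k40 k235 8 (.s k44 k36 1 (.s k166
  k227 10 (.s k174 k162 1 (.d k239 k109 k101 8 10)))))] (.c k101 (.l (.s k16 k48 3 (.s k40 k235 8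
  (.s k154 k223 10 (.s k56 k203 12 (.s k8 k24 3 (.s k186 k138 3 (.d k251 k121 k89 8 12)))))))) (.c
  k125 (.q k190 [(.s k101 k239 10 (.s k69 k117 3 (.s k207 k138 10 (.d k48 k16 k154 3 14)))), (.s
  k130 k150 5 (.s k195 k65 8 (.s k233 k214 6 (.s k169 k41 7 (.s k1 k253 13 (.d k3 k86 k2 14 0))))))]
  .n) (.c k190 (.l (.s k125 k65 5 (.s k48 k16 3 (.s k101 k239 10 (.s k69 k117 3 (.d k207 k138 k154
  10 14)))))) (.c k239 (.l (.s k40 k235 8 (.s k44 k36 1 (.s k48 k16 3 (.s k227 k166 10 (.s k97 k162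
  8 (.s k195 k146 12 (.d k65 k130 k125 8 5)))))))) .n))))) (.c k195 (.q k138 [(.s k154 k186 3 (.s
  k207 k69 10 (.s k48 k101 14 (.d k16 k32 k223 3 10)))), (.s k65 k125 5 (.s k69 k207 10 (.s k73 k77
  1 (.s k89 k121 3 (.d k8 k203 k251 8 12))))), (.s k154 k186 3 (.s k203 k56 12 (.s k8 k73 8 (.s k235
  k40 8 (.d k251 k219 k89 3 12)))))] (.c k117 (.l (.s k207 k69 10 (.s k154 k186 3 (.s k48 k101 14
  (.d k16 k32 k223 3 10))))) (.c k215 (.l (.s k235 k40 8 (.s k154 k186 3 (.s k16 k223 10 (.s k48 k32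
  3 (.d k207 k69 k101 10 14)))))) (.c k235 (.q k215 [(.s k154 k186 3 (.s k207 k69 10 (.s k48 k101 14
  (.d k16 k32 k223 3 10)))), (.s k20 k150 8 (.s k60 k40 5 (.s k124 k188 7 (.s k86 k67 6 (.s k2 k254
  13 (.d k3 k169 k1 14 0))))))] .n) .n)))) .n))) (.c k86 (.q k4 [(.s k166 k247 12 (.s k162 k174 1
  (.s k243 k81 12 (.d k12 k8 k89 1 14)))), (.s k84 k168 13 (.s k244 k164 11 (.s k240 k248 1 (.s k160
  k80 11 (.s k165 k175 2 (.s k5 k245 11 (.d k15 k10 k90 2 14)))))))] (.c k8 (.l (.s k166 k247 12 (.s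
  k162 k174 1 (.s k168 k84 13 (.s k169 k171 0 (.s k172 k163 2 (.s k12 k92 11 (.d k243 k89 k81 14
  12)))))))) .n)) (.c k87 (.l (.s k168 k84 13 (.s k169 k171 0 (.s k3 k86 14 (.d k1 k2 k253 0 13)))))
  (.c k168 (.q k89 [(.s k8 k251 12 (.s k12 k4 1 (.s k81 k93 1 (.d k243 k162 k166 12 14)))), (.s k81
  k93 1 (.s k243 k162 12 (.s k249 k246 2 (.s k169 k9 11 (.s k1 k253 13 (.d k3 k2 k86 0 14)))))), (.s
  k8 k251 12 (.s k12 k4 1 (.s k92 k172 11 (.s k86 k83 2 (.s k2 k254 13 (.d k3 k1 k169 0 14))))))]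
  (.c k12 (.q k138 [(.s k154 k186 3 (.s k207 k69 10 (.s k48 k101 14 (.d k16 k32 k223 3 10)))), (.s
  k8 k251 12 (.s k154 k186 3 (.s k24 k219 8 (.s k56 k40 3 (.d k203 k73 k105 8 12))))), (.s k8 k251
  12 (.s k69 k207 10 (.s k73 k203 8 (.s k77 k65 1 (.d k101 k117 k113 3 5)))))] (.c k93 (.q k174 [(.s
  k154 k186 3 (.s k207 k69 10 (.s k48 k101 14 (.d k16 k32 k223 3 10)))), (.s k8 k251 12 (.s k154
  k186 3 (.s k24 k219 8 (.s k56 k40 3 (.d k203 k73 k105 8 12))))), (.s k8 k251 12 (.s k69 k207 10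
  (.s k73 k203 8 (.s k77 k65 1 (.d k101 k117 k113 3 5)))))] (.c k117 (.l (.s k207 k69 10 (.s k154
  k186 3 (.s k48 k101 14 (.d k16 k32 k223 3 10))))) .n)) (.c k117 (.l (.s k207 k69 10 (.s k154 k186
  3 (.s k48 k101 14 (.d k16 k32 k223 3 10))))) (.c k174 (.l (.s k93 k81 1 (.s k154 k186 3 (.s k16
  k223 10 (.s k48 k32 3 (.d k207 k69 k101 10 14)))))) .n)))) (.c k243 (.q k101 [(.s k32 k239 10 (.s
  k48 k16 3 (.s k69 k117 3 (.d k207 k138 k154 10 14)))), (.s k81 k93 1 (.s k113 k77 5 (.s k65 k97 3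
  (.s k117 k69 3 (.d k125 k121 k105 1 5))))), (.s k32 k239 10 (.s k48 k16 3 (.s k77 k113 5 (.s k207
  k154 14 (.s k12 k142 8 (.d k8 k251 k4 12 1))))))] (.c k247 (.l (.s k251 k8 12 (.s k32 k239 10 (.s
  k48 k16 3 (.s k69 k117 3 (.d k207 k138 k154 10 14)))))) (.c k251 (.q k247 [(.s k32 k239 10 (.s k48
  k16 3 (.s k69 k117 3 (.d k207 k138 k154 10 14)))), (.s k4 k166 12 (.s k117 k69 3 (.s k52 k182 8
  (.s k20 k36 3 (.d k150 k215 k199 8 12))))), (.s k4 k166 12 (.s k12 k8 1 (.s k32 k239 10 (.s k48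
  k16 3 (.s k24 k36 5 (.d k154 k207 k219 14 8))))))] .n) .n))) .n))) (.c k169 (.q k4 [(.s k166 k247
  12 (.s k162 k174 1 (.s k243 k81 12 (.d k12 k8 k89 1 14)))), (.s k12 k8 1 (.s k84 k168 13 (.s k164
  k244 11 (.s k88 k240 13 (.d k92 k80 k172 1 11))))), (.s k84 k168 13 (.s k86 k87 0 (.s k166 k247 12
  (.s k6 k246 11 (.s k7 k5 0 (.d k244 k164 k165 11 12))))))] .n) (.c k171 (.l (.s k84 k168 13 (.s
  k86 k87 0 (.s k3 k169 14 (.d k2 k1 k254 0 13))))) (.c k254 (.l (.s k168 k84 13 (.s k169 k171 0 (.s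
  k1 k253 13 (.d k3 k2 k86 0 14))))) .n))))))))))))

def t42_171 : T TT 256 :=
  (.q k89 [(.s k81 k93 1 (.s k243 k162 12 (.s k12 k166 14 (.s k8 k4 1 (.d k170 k251 k255 12 14)))))]
  (.c k4 (.q k1 [(.s k81 k93 1 (.s k241 k161 11 (.s k13 k165 13 (.s k169 k253 13 (.d k9 k5 k249 1
  11))))), (.s k3 k2 0 (.s k81 k93 1 (.s k161 k241 11 (.s k82 k240 12 (.s k83 k80 0 (.d k243 k163
  k162 11 12)))))), (.s k3 k2 0 (.s k169 k253 13 (.s k9 k249 11 (.s k12 k6 2 (.s k86 k252 14 (.s k83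
  k92 2 (.d k243 k163 k166 11 14)))))))] (.c k241 (.l (.s k3 k2 0 (.s k81 k93 1 (.s k169 k253 13 (.s
  k86 k252 14 (.s k83 k92 2 (.d k243 k163 k162 11 12))))))) .n)) (.c k8 (.l (.s k81 k93 1 (.s k243
  k162 12 (.s k166 k12 14 (.s k247 k4 12 (.d k255 k251 k170 1 14)))))) (.c k12 (.q k5 [(.s k93 k81 1
  (.s k165 k245 11 (.s k13 k241 13 (.s k1 k9 1 (.d k253 k173 k169 11 13))))), (.s k15 k10 2 (.s k165
  k245 11 (.s k90 k240 14 (.s k95 k80 2 (.d k255 k175 k170 11 14)))))] (.c k165 (.l (.s k10 k15 2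
  (.s k170 k255 14 (.s k8 k251 12 (.s k11 k9 0 (.s k90 k250 11 (.s k88 k91 0 (.d k248 k168 k169 11
  12)))))))) (.c k245 (.l (.s k15 k10 2 (.s k81 k93 1 (.s k243 k162 12 (.s k91 k167 13 (.s k90 k88 0
  (.s k80 k95 2 (.d k240 k160 k165 11 14)))))))) .n))) (.c k81 (.q k15 [(.s k10 k5 2 (.s k170 k255
  14 (.s k90 k250 11 (.s k80 k95 2 (.d k240 k160 k165 11 14))))), (.s k5 k10 2 (.s k165 k245 11 (.s
  k13 k241 13 (.s k12 k14 0 (.s k4 k8 1 (.d k166 k247 k243 12 14)))))), (.s k170 k255 14 (.s k8 k251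
  12 (.s k12 k4 1 (.s k13 k14 0 (.s k165 k241 13 (.s k160 k175 2 (.d k240 k80 k90 11 14)))))))] (.c
  k165 (.l (.s k10 k5 2 (.s k170 k255 14 (.s k8 k251 12 (.s k11 k9 0 (.s k90 k250 11 (.s k88 k91 0
  (.d k248 k168 k169 11 12)))))))) .n)) (.c k93 (.q k15 [(.s k5 k10 2 (.s k165 k245 11 (.s k90 k240
  14 (.s k95 k80 2 (.d k255 k175 k170 11 14))))), (.s k5 k10 2 (.s k165 k245 11 (.s k13 k241 13 (.s
  k12 k14 0 (.s k4 k8 1 (.d k166 k247 k243 12 14)))))), (.s k170 k255 14 (.s k8 k251 12 (.s k12 k4 1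
  (.s k13 k14 0 (.s k165 k241 13 (.s k160 k175 2 (.d k240 k80 k90 11 14)))))))] (.c k165 (.l (.s k10
  k5 2 (.s k170 k255 14 (.s k8 k251 12 (.s k11 k9 0 (.s k90 k250 11 (.s k88 k91 0 (.d k248 k168 k169
  11 12)))))))) .n)) (.c k162 (.l (.s k93 k81 1 (.s k255 k170 14 (.s k12 k174 12 (.s k166 k243 14
  (.d k4 k8 k247 1 12)))))) (.c k166 (.q k1 [(.s k81 k93 1 (.s k241 k161 11 (.s k165 k13 13 (.s k245
  k5 11 (.d k253 k249 k169 1 13))))), (.s k3 k2 0 (.s k81 k93 1 (.s k161 k241 11 (.s k82 k240 12 (.s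
  k83 k80 0 (.d k243 k163 k162 11 12)))))), (.s k3 k2 0 (.s k169 k253 13 (.s k9 k249 11 (.s k12 k6 2
  (.s k8 k4 1 (.d k170 k251 k255 12 14))))))] (.c k241 (.l (.s k3 k2 0 (.s k81 k93 1 (.s k169 k253
  13 (.s k86 k252 14 (.s k83 k92 2 (.d k243 k163 k162 11 12))))))) .n)) (.c k170 (.f k81 k93 1 (.q
  k106 [(.s k64 k127 6 (.s k72 k123 4 (.s k76 k68 1 (.d k115 k98 k102 4 6)))), (.s k123 k72 4 (.s
  k243 k162 12 (.s k63 k183 9 (.s k149 k192 14 (.s k29 k209 9 (.d k12 k166 k46 14 4)))))), (.s k64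
  k127 6 (.s k192 k128 7 (.s k149 k63 14 (.s k209 k29 9 (.d k243 k226 k162 4 12)))))] (.c k168 (.q
  k169 [(.s k1 k253 13 (.s k9 k249 11 (.s k13 k5 1 (.d k241 k161 k165 11 13)))), (.s k64 k127 6 (.s
  k72 k123 4 (.s k76 k68 1 (.d k115 k98 k102 4 6))))] .n) (.c k169 (.q k168 [(.s k64 k127 6 (.s k72
  k123 4 (.s k76 k68 1 (.d k115 k98 k102 4 6)))), (.s k123 k72 4 (.s k243 k162 12 (.s k63 k183 9 (.s
  k149 k192 14 (.s k29 k209 9 (.d k12 k166 k46 14 4)))))), (.s k64 k127 6 (.s k192 k128 7 (.s k149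
  k63 14 (.s k209 k29 9 (.d k243 k226 k162 4 12)))))] .n) .n)))) (.c k174 (.l (.s k81 k93 1 (.s k243
  k162 12 (.s k12 k166 14 (.s k170 k255 14 (.d k8 k4 k251 1 12)))))) (.c k243 (.q k5 [(.s k93 k81 1
  (.s k165 k245 11 (.s k13 k241 13 (.s k1 k9 1 (.d k253 k173 k169 11 13))))), (.s k15 k10 2 (.s k165
  k245 11 (.s k170 k255 14 (.s k160 k175 2 (.d k240 k80 k90 11 14))))), (.s k15 k10 2 (.s k93 k81 1
  (.s k255 k170 14 (.s k12 k174 12 (.s k13 k14 0 (.s k1 k9 1 (.d k253 k169 k173 13 11)))))))] .n)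
  (.c k251 (.l (.s k93 k81 1 (.s k255 k170 14 (.s k12 k174 12 (.s k4 k8 1 (.d k166 k247 k243 12
  14)))))) (.c k255 (.q k3 [(.s k1 k2 0 (.s k93 k81 1 (.s k253 k169 13 (.s k13 k173 11 (.s k5 k9 1
  (.d k165 k245 k241 11 13)))))), (.s k81 k93 1 (.s k243 k162 12 (.s k83 k163 11 (.s k86 k92 2 (.s
  k84 k87 0 (.d k252 k168 k169 13 14)))))), (.s k1 k2 0 (.s k169 k253 13 (.s k9 k249 11 (.s k12 k6 2
  (.s k4 k8 1 (.d k166 k247 k243 12 14))))))] (.c k169 (.l (.s k1 k2 0 (.s k81 k93 1 (.s k161 k241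
  11 (.s k82 k240 12 (.s k83 k80 0 (.d k243 k163 k162 11 12))))))) .n)) .n)))))))))))))

def t42_175 : T TT 256 :=
  (.q k89 [(.s k81 k93 1 (.s k243 k162 12 (.s k166 k12 14 (.s k247 k4 12 (.d k255 k251 k170 1
  14)))))] (.c k4 (.q k1 [(.s k81 k93 1 (.s k169 k253 13 (.s k9 k249 11 (.s k13 k5 1 (.d k241 k161
  k165 11 13))))), (.s k3 k2 0 (.s k169 k253 13 (.s k86 k252 14 (.s k87 k84 0 (.d k255 k171 k170 13
  14))))), (.s k3 k2 0 (.s k81 k93 1 (.s k161 k241 11 (.s k82 k240 12 (.s k83 k80 0 (.d k243 k163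
  k162 11 12))))))] .n) (.c k12 (.q k1 [(.s k81 k93 1 (.s k169 k253 13 (.s k9 k249 11 (.s k13 k5 1
  (.d k241 k161 k165 11 13))))), (.s k3 k2 0 (.s k169 k253 13 (.s k86 k252 14 (.s k87 k84 0 (.d k255
  k171 k170 13 14))))), (.s k3 k2 0 (.s k81 k93 1 (.s k161 k241 11 (.s k82 k240 12 (.s k83 k80 0 (.d
  k243 k163 k162 11 12))))))] (.c k255 (.l (.s k93 k81 1 (.s k253 k169 13 (.s k13 k173 11 (.s k5 k9
  1 (.d k165 k245 k241 11 13)))))) .n)) (.c k81 (.q k1 [(.s k3 k2 0 (.s k169 k253 13 (.s k86 k252 14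
  (.s k87 k84 0 (.d k255 k171 k170 13 14))))), (.s k169 k253 13 (.s k9 k249 11 (.s k5 k13 1 (.s k10
  k15 2 (.s k8 k11 0 (.d k170 k255 k251 14 12)))))), (.s k3 k2 0 (.s k169 k253 13 (.s k9 k249 11 (.s
  k12 k6 2 (.s k4 k8 1 (.d k166 k247 k243 12 14)))))), (.s k3 k2 0 (.s k170 k255 14 (.s k8 k251 12
  (.s k12 k4 1 (.s k9 k6 2 (.s k5 k13 1 (.d k10 k15 k11 2 0)))))))] (.c k3 (.l (.s k169 k253 13 (.s
  k9 k249 11 (.s k5 k13 1 (.s k170 k255 14 (.s k8 k251 12 (.d k10 k15 k11 2 0))))))) .n)) (.c k93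
  (.q k1 [(.s k3 k2 0 (.s k169 k253 13 (.s k86 k252 14 (.s k87 k84 0 (.d k255 k171 k170 13 14))))),
  (.s k3 k2 0 (.s k169 k253 13 (.s k9 k249 11 (.s k12 k6 2 (.s k4 k8 1 (.d k166 k247 k243 12
  14)))))), (.s k169 k253 13 (.s k9 k249 11 (.s k170 k255 14 (.s k8 k251 12 (.s k10 k11 0 (.d k5 k13
  k15 1 2)))))), (.s k3 k2 0 (.s k170 k255 14 (.s k8 k251 12 (.s k12 k4 1 (.s k9 k6 2 (.s k10 k11 0
  (.d k5 k15 k13 2 1)))))))] (.c k13 (.l (.s k3 k2 0 (.s k255 k170 14 (.s k87 k171 13 (.s k86 k84 0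
  (.d k169 k253 k252 13 14)))))) .n)) (.c k162 (.l (.s k93 k81 1 (.s k255 k170 14 (.s k12 k174 12
  (.s k166 k243 14 (.d k4 k8 k247 1 12)))))) (.c k166 (.q k1 [(.s k81 k93 1 (.s k169 k253 13 (.s k9
  k249 11 (.s k13 k5 1 (.d k241 k161 k165 11 13))))), (.s k3 k2 0 (.s k169 k253 13 (.s k86 k252 14
  (.s k87 k84 0 (.d k255 k171 k170 13 14))))), (.s k3 k2 0 (.s k81 k93 1 (.s k161 k241 11 (.s k82
  k240 12 (.s k83 k80 0 (.d k243 k163 k162 11 12))))))] .n) (.c k170 (.f k81 k93 1 (.q k106 [(.s k64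
  k127 6 (.s k72 k123 4 (.s k76 k68 1 (.d k115 k98 k102 4 6)))), (.s k123 k72 4 (.s k243 k162 12 (.s
  k63 k183 9 (.s k149 k192 14 (.s k29 k209 9 (.d k12 k166 k46 14 4)))))), (.s k64 k127 6 (.s k192
  k128 7 (.s k149 k63 14 (.s k209 k29 9 (.d k243 k226 k162 4 12)))))] (.c k160 (.q k165 [(.s k64
  k127 6 (.s k72 k123 4 (.s k76 k68 1 (.d k115 k98 k102 4 6)))), (.s k241 k13 13 (.s k1 k161 11 (.s
  k245 k5 11 (.d k253 k249 k169 1 13))))] .n) (.c k165 (.q k160 [(.s k64 k127 6 (.s k72 k123 4 (.s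
  k76 k68 1 (.d k115 k98 k102 4 6)))), (.s k80 k240 11 (.s k83 k82 0 (.s k86 k92 2 (.s k87 k84 0 (.d
  k95 k90 k91 2 1)))))] .n) .n)))) (.c k174 (.l (.s k81 k93 1 (.s k243 k162 12 (.s k12 k166 14 (.s
  k170 k255 14 (.d k8 k4 k251 1 12)))))) (.c k243 (.q k2 [(.s k3 k1 0 (.s k170 k255 14 (.s k86 k254
  13 (.s k84 k87 0 (.d k252 k168 k169 13 14))))), (.s k1 k3 0 (.s k81 k93 1 (.s k169 k253 13 (.s k9
  k249 11 (.s k13 k5 1 (.d k241 k161 k165 11 13)))))), (.s k81 k93 1 (.s k170 k255 14 (.s k86 k254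
  13 (.s k83 k92 2 (.s k80 k82 0 (.s k87 k84 0 (.d k95 k91 k90 1 2)))))))] (.c k252 (.l (.s k1 k3 0
  (.s k81 k93 1 (.s k169 k253 13 (.s k241 k161 11 (.s k13 k165 13 (.d k9 k5 k249 1 11))))))) (.c
  k253 (.l (.s k3 k1 0 (.s k170 k255 14 (.s k86 k254 13 (.s k252 k169 14 (.d k84 k87 k168 0 13))))))
  .n))) (.c k247 (.l (.s k81 k93 1 (.s k170 k255 14 (.s k8 k251 12 (.s k243 k162 12 (.d k12 k4 k166
  1 14)))))) (.c k251 (.l (.s k93 k81 1 (.s k255 k170 14 (.s k12 k174 12 (.s k4 k8 1 (.d k166 k247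
  k243 12 14)))))) (.c k255 (.q k15 [(.s k81 k93 1 (.s k243 k162 12 (.s k12 k166 14 (.s k13 k14 0
  (.s k165 k241 13 (.d k5 k10 k245 2 11)))))), (.s k81 k93 1 (.s k243 k162 12 (.s k91 k167 13 (.s
  k90 k88 0 (.s k80 k95 2 (.d k240 k160 k165 11 14)))))), (.s k5 k10 2 (.s k93 k81 1 (.s k165 k245
  11 (.s k13 k241 13 (.s k1 k9 1 (.d k253 k173 k169 11 13)))))), (.s k5 k10 2 (.s k165 k245 11 (.s
  k13 k241 13 (.s k12 k14 0 (.s k4 k8 1 (.d k166 k247 k243 12 14))))))] (.c k165 (.f k5 k10 2 (.l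
  (.s k81 k93 1 (.s k243 k162 12 (.s k12 k166 14 (.s k4 k8 1 (.s k6 k7 0 (.s k9 k3 2 (.d k13 k14 k1
  0 1))))))))) .n)) .n)))))))))))))

def t42_191 : T TT 256 :=
  (.q k89 [(.s k81 k93 1 (.s k243 k162 12 (.s k166 k12 14 (.s k247 k4 12 (.d k255 k251 k170 1
  14)))))] (.c k4 (.q k1 [(.s k81 k93 1 (.s k169 k253 13 (.s k9 k249 11 (.s k13 k5 1 (.d k241 k161
  k165 11 13))))), (.s k3 k2 0 (.s k169 k253 13 (.s k86 k252 14 (.s k87 k84 0 (.d k255 k171 k170 13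
  14))))), (.s k3 k2 0 (.s k81 k93 1 (.s k161 k241 11 (.s k82 k240 12 (.s k83 k80 0 (.d k243 k163
  k162 11 12))))))] .n) (.c k12 (.q k1 [(.s k93 k81 1 (.s k253 k169 13 (.s k13 k173 11 (.s k5 k9 1
  (.d k165 k245 k241 11 13))))), (.s k3 k2 0 (.s k169 k253 13 (.s k86 k252 14 (.s k87 k84 0 (.d k255
  k171 k170 13 14))))), (.s k3 k2 0 (.s k81 k93 1 (.s k161 k241 11 (.s k82 k240 12 (.s k83 k80 0 (.d
  k243 k163 k162 11 12))))))] (.c k3 (.l (.s k81 k93 1 (.s k169 k253 13 (.s k9 k249 11 (.s k13 k5 1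
  (.d k241 k161 k165 11 13)))))) .n)) (.c k81 (.q k1 [(.s k3 k2 0 (.s k169 k253 13 (.s k86 k252 14
  (.s k87 k84 0 (.d k255 k171 k170 13 14))))), (.s k169 k253 13 (.s k9 k249 11 (.s k5 k13 1 (.s k10
  k15 2 (.s k8 k11 0 (.d k170 k251 k255 12 14)))))), (.s k3 k2 0 (.s k169 k253 13 (.s k9 k249 11 (.s
  k12 k6 2 (.s k4 k8 1 (.d k166 k247 k243 12 14)))))), (.s k3 k2 0 (.s k170 k255 14 (.s k8 k251 12
  (.s k12 k4 1 (.s k9 k6 2 (.s k5 k13 1 (.d k10 k11 k15 0 2)))))))] (.c k3 (.l (.s k169 k253 13 (.s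
  k9 k249 11 (.s k5 k13 1 (.s k10 k15 2 (.s k170 k255 14 (.d k8 k11 k251 0 12))))))) .n)) (.c k93
  (.q k1 [(.s k3 k2 0 (.s k169 k253 13 (.s k86 k252 14 (.s k87 k84 0 (.d k255 k171 k170 13 14))))),
  (.s k3 k2 0 (.s k169 k253 13 (.s k9 k249 11 (.s k12 k6 2 (.s k4 k8 1 (.d k166 k247 k243 12
  14)))))), (.s k169 k253 13 (.s k9 k249 11 (.s k170 k255 14 (.s k8 k251 12 (.s k10 k11 0 (.d k5 k13
  k15 1 2)))))), (.s k3 k2 0 (.s k170 k255 14 (.s k8 k251 12 (.s k12 k4 1 (.s k9 k6 2 (.s k10 k11 0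
  (.d k5 k13 k15 1 2)))))))] (.c k13 (.l (.s k3 k2 0 (.s k255 k170 14 (.s k87 k171 13 (.s k86 k84 0
  (.d k169 k253 k252 13 14)))))) .n)) (.c k162 (.l (.s k93 k81 1 (.s k255 k170 14 (.s k12 k174 12
  (.s k166 k243 14 (.d k4 k8 k247 1 12)))))) (.c k166 (.q k1 [(.s k81 k93 1 (.s k169 k253 13 (.s k9
  k249 11 (.s k13 k5 1 (.d k241 k161 k165 11 13))))), (.s k3 k2 0 (.s k169 k253 13 (.s k86 k252 14
  (.s k87 k84 0 (.d k255 k171 k170 13 14))))), (.s k3 k2 0 (.s k81 k93 1 (.s k161 k241 11 (.s k82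
  k240 12 (.s k83 k80 0 (.d k243 k163 k162 11 12))))))] .n) (.c k170 (.f k81 k93 1 (.q k149 [(.s
  k209 k29 9 (.s k17 k145 7 (.s k213 k21 7 (.d k221 k217 k153 1 9)))), (.s k21 k213 7 (.s k243 k162
  12 (.s k166 k12 14 (.s k4 k247 12 (.s k55 k38 4 (.s k132 k183 4 (.d k196 k68 k102 7 12))))))), (.s
  k209 k29 9 (.s k243 k162 12 (.s k192 k226 4 (.s k64 k128 7 (.d k106 k127 k63 6 14)))))] (.c k106
  (.q k234 [(.s k209 k29 9 (.s k17 k145 7 (.s k213 k21 7 (.d k221 k217 k153 1 9)))), (.s k213 k21 7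
  (.s k243 k162 12 (.s k166 k12 14 (.s k247 k4 12 (.d k255 k251 k192 1 6)))))] (.c k21 (.l (.s k209
  k29 9 (.s k17 k145 7 (.s k221 k153 9 (.s k213 k217 1 (.s k192 k255 6 (.d k243 k226 k162 4
  12))))))) (.c k213 (.l (.s k209 k29 9 (.s k145 k17 7 (.s k243 k162 12 (.s k192 k226 4 (.s k64 k128
  7 (.d k98 k115 k51 4 12))))))) .n))) (.c k234 (.q k106 [(.s k192 k63 14 (.d k64 k127 k128 6 7)),
  (.s k209 k29 9 (.s k17 k145 7 (.s k213 k21 7 (.d k221 k217 k153 1 9))))] .n) .n)))) (.c k174 (.l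
  (.s k81 k93 1 (.s k243 k162 12 (.s k12 k166 14 (.s k170 k255 14 (.d k8 k4 k251 1 12)))))) (.c k243
  (.q k2 [(.s k3 k1 0 (.s k170 k255 14 (.s k86 k254 13 (.s k84 k87 0 (.d k252 k168 k169 13 14))))),
  (.s k1 k3 0 (.s k81 k93 1 (.s k169 k253 13 (.s k241 k161 11 (.s k13 k165 13 (.d k9 k5 k249 1
  11)))))), (.s k81 k93 1 (.s k170 k255 14 (.s k86 k254 13 (.s k83 k92 2 (.s k80 k82 0 (.s k87 k84 0
  (.d k95 k91 k90 1 2)))))))] (.c k253 (.l (.s k3 k1 0 (.s k170 k255 14 (.s k86 k254 13 (.s k252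
  k169 14 (.d k84 k87 k168 0 13)))))) .n)) (.c k247 (.l (.s k81 k93 1 (.s k170 k255 14 (.s k8 k251
  12 (.s k243 k162 12 (.d k12 k4 k166 1 14)))))) (.c k251 (.l (.s k93 k81 1 (.s k255 k170 14 (.s k12
  k174 12 (.s k4 k8 1 (.d k166 k247 k243 12 14)))))) (.c k255 (.q k83 [(.s k86 k92 2 (.s k87 k84 0
  (.s k95 k91 1 (.s k80 k90 2 (.d k81 k82 k93 0 1))))), (.s k81 k93 1 (.s k82 k80 0 (.s k243 k162 12
  (.s k3 k163 11 (.s k1 k2 0 (.d k161 k241 k240 11 12)))))), (.s k86 k92 2 (.s k84 k87 0 (.s k252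
  k168 13 (.s k3 k169 14 (.s k243 k163 11 (.s k246 k249 2 (.d k166 k6 k12 11 14)))))))] (.c k63 (.q
  k127 [(.s k81 k93 1 (.s k80 k82 0 (.s k86 k92 2 (.s k87 k84 0 (.d k95 k91 k90 1 2))))), (.s k64
  k106 6 (.s k93 k81 1 (.s k76 k110 4 (.s k68 k72 1 (.d k102 k119 k115 4 6))))), (.s k64 k106 6 (.s
  k86 k92 2 (.s k84 k87 0 (.s k124 k104 5 (.s k105 k67 6 (.d k125 k126 k65 0 5))))))] .n) (.c k127
  (.q k63 [(.s k86 k92 2 (.s k87 k84 0 (.s k95 k91 1 (.s k80 k90 2 (.d k81 k82 k93 0 1))))), (.s k81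
  k93 1 (.s k82 k80 0 (.s k243 k162 12 (.s k3 k163 11 (.s k1 k2 0 (.d k161 k241 k240 11 12)))))),
  (.s k86 k92 2 (.s k84 k87 0 (.s k252 k168 13 (.s k3 k169 14 (.s k243 k163 11 (.s k246 k249 2 (.d
  k166 k6 k12 11 14)))))))] .n) .n))) .n)))))))))))))

def t42_202 : T TT 256 :=
  (.f k170 k255 14 (.q k252 [(.s k84 k168 13 (.s k86 k87 0 (.s k2 k254 13 (.d k3 k1 k169 0 14))))]
  (.c k1 (.q k4 [(.s k12 k8 1 (.s k166 k247 12 (.s k162 k174 1 (.d k243 k81 k89 12 14)))), (.s k84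
  k168 13 (.s k86 k87 0 (.s k166 k247 12 (.s k6 k246 11 (.s k7 k5 0 (.d k244 k164 k165 11 12)))))),
  (.s k12 k8 1 (.s k84 k168 13 (.s k92 k172 11 (.s k88 k80 1 (.d k164 k244 k240 11 13)))))] .n) (.c
  k2 (.f k84 k168 13 (.f k86 k87 0 (.f k3 k169 14 (.q k22 [(.s k60 k41 6 (.s k150 k214 7 (.d k20 k40
  k215 5 8))), (.s k150 k214 7 (.s k20 k215 8 (.s k23 k21 0 (.d k212 k148 k149 7 8)))), (.s k60 k41
  6 (.s k124 k188 7 (.s k105 k67 6 (.d k150 k214 k195 7 14)))), (.s k60 k41 6 (.s k40 k20 5 (.s k105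
  k235 8 (.d k124 k67 k188 6 7))))] .n)))) (.c k3 (.f k168 k84 13 (.q k240 [(.s k80 k160 11 (.s k90
  k95 2 (.s k15 k165 14 (.d k10 k5 k250 2 11)))), (.s k248 k244 1 (.s k8 k88 11 (.s k89 k251 12 (.s
  k81 k93 1 (.s k243 k162 12 (.d k12 k4 k166 1 14))))))] (.c k80 (.l (.s k248 k244 1 (.s k88 k8 11
  (.s k164 k12 13 (.s k160 k172 1 (.s k165 k175 2 (.s k5 k245 11 (.d k15 k10 k90 2 14)))))))) (.c
  k87 (.l (.s k171 k169 0 (.s k80 k160 11 (.s k90 k95 2 (.s k10 k250 11 (.d k15 k5 k165 2 14))))))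
  (.c k171 (.q k87 [(.s k80 k160 11 (.s k90 k95 2 (.s k15 k165 14 (.d k10 k5 k250 2 11)))), (.s k248
  k244 1 (.s k8 k88 11 (.s k89 k251 12 (.s k81 k93 1 (.s k243 k162 12 (.d k12 k4 k166 1 14))))))]
  (.c k80 (.l (.s k248 k244 1 (.s k88 k8 11 (.s k164 k12 13 (.s k160 k172 1 (.s k165 k175 2 (.s k5
  k245 11 (.d k15 k10 k90 2 14)))))))) .n)) .n))))) (.c k84 (.q k150 [(.s k20 k215 8 (.s k130 k190 5
  (.s k195 k65 8 (.d k60 k40 k105 5 14)))), (.s k130 k190 5 (.s k195 k65 8 (.s k214 k233 6 (.s k86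
  k22 7 (.s k2 k254 13 (.d k3 k1 k169 0 14)))))), (.s k20 k215 8 (.s k60 k40 5 (.s k188 k124 7 (.s
  k169 k131 6 (.s k1 k253 13 (.d k3 k2 k86 0 14))))))] (.c k60 (.q k212 [(.s k215 k20 8 (.s k214
  k213 0 (.s k195 k233 6 (.d k130 k190 k65 5 8)))), (.s k215 k20 8 (.s k213 k214 0 (.s k149 k21 7
  (.s k23 k86 8 (.d k151 k148 k87 0 7))))), (.s k192 k232 5 (.s k64 k128 7 (.s k106 k127 6 (.s k194
  k62 13 (.s k195 k193 0 (.d k130 k190 k65 5 8))))))] (.c k125 (.l (.s k190 k130 5 (.s k192 k232 5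
  (.s k128 k64 7 (.s k149 k191 6 (.s k213 k21 7 (.d k215 k214 k20 0 8))))))) (.c k190 (.q k125 [(.s
  k65 k105 5 (.s k195 k130 8 (.s k215 k20 8 (.d k214 k213 k233 0 6)))), (.s k65 k105 5 (.s k192 k232
  5 (.s k64 k128 7 (.s k106 k127 6 (.s k194 k62 13 (.d k195 k193 k130 0 8)))))), (.s k192 k232 5 (.s
  k128 k64 7 (.s k149 k191 6 (.s k213 k21 7 (.d k215 k214 k20 0 8)))))] .n) .n))) (.c k195 (.q k146
  [(.s k154 k158 1 (.s k16 k223 10 (.s k48 k32 3 (.s k138 k186 3 (.d k207 k69 k101 10 14))))), (.s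
  k130 k190 5 (.s k154 k158 1 (.s k138 k186 3 (.s k142 k134 1 (.d k178 k162 k166 3 5))))), (.s k130
  k190 5 (.s k154 k158 1 (.s k16 k223 10 (.s k81 k211 8 (.d k162 k243 k178 12 3))))), (.s k130 k190
  5 (.s k162 k178 3 (.s k81 k243 12 (.s k89 k93 1 (.d k211 k16 k28 8 10)))))] (.c k215 (.q k235 [(.s
  k130 k190 5 (.s k154 k158 1 (.s k138 k186 3 (.s k178 k162 3 (.d k142 k134 k166 1 5))))), (.s k154
  k158 1 (.s k16 k223 10 (.s k48 k32 3 (.s k138 k186 3 (.d k207 k69 k101 10 14))))), (.s k130 k190 5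
  (.s k162 k178 3 (.s k81 k243 12 (.s k89 k93 1 (.d k211 k16 k28 8 10))))), (.s k40 k105 8 (.s k20
  k60 5 (.s k154 k158 1 (.s k16 k223 10 (.s k28 k24 1 (.d k211 k81 k89 8 10))))))] .n) (.c k235 (.l
  (.s k215 k20 8 (.s k130 k190 5 (.s k154 k158 1 (.s k16 k223 10 (.s k81 k211 8 (.d k162 k243 k178
  12 3))))))) .n))) .n))) (.c k86 (.q k4 [(.s k166 k247 12 (.s k162 k174 1 (.s k243 k81 12 (.d k12
  k8 k89 1 14)))), (.s k84 k168 13 (.s k244 k164 11 (.s k240 k248 1 (.s k160 k80 11 (.s k165 k175 2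
  (.s k5 k245 11 (.d k15 k10 k90 2 14)))))))] (.c k8 (.l (.s k166 k247 12 (.s k162 k174 1 (.s k168
  k84 13 (.s k169 k171 0 (.s k172 k163 2 (.s k12 k92 11 (.d k243 k89 k81 14 12)))))))) .n)) (.c k87
  (.l (.s k168 k84 13 (.s k169 k171 0 (.s k3 k86 14 (.d k1 k2 k253 0 13))))) (.c k168 (.q k102 [(.s
  k34 k238 9 (.s k51 k17 4 (.s k68 k119 4 (.d k204 k136 k153 9 14)))), (.s k68 k119 4 (.s k204 k136
  9 (.s k236 k220 3 (.s k169 k35 10 (.s k1 k253 13 (.d k3 k2 k86 0 14)))))), (.s k34 k238 9 (.s k51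
  k17 4 (.s k118 k185 10 (.s k86 k70 3 (.s k2 k254 13 (.d k3 k1 k169 0 14))))))] (.c k51 (.q k149
  [(.s k55 k196 12 (.s k119 k68 4 (.s k247 k183 7 (.s k4 k166 12 (.d k21 k38 k213 4 7))))), (.s k128
  k191 6 (.s k192 k64 7 (.s k212 k232 5 (.s k86 k23 8 (.s k2 k254 13 (.d k3 k1 k169 0 14))))))] (.c
  k119 (.q k187 [(.s k128 k191 6 (.s k136 k153 4 (.s k192 k64 7 (.s k196 k55 12 (.d k204 k200 k68 1
  9))))), (.s k21 k213 7 (.s k153 k136 4 (.s k17 k221 9 (.s k29 k25 1 (.s k145 k157 1 (.d k209 k81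
  k89 7 9)))))), (.s k21 k213 7 (.s k55 k196 12 (.s k4 k38 4 (.s k191 k128 6 (.s k183 k179 1 (.d
  k166 k247 k132 12 4))))))] (.c k192 (.l (.s k128 k191 6 (.s k136 k153 4 (.s k68 k204 9 (.s k132
  k140 1 (.d k196 k4 k55 7 12)))))) .n)) (.c k187 (.l (.s k119 k68 4 (.s k21 k213 7 (.s k55 k196 12
  (.s k4 k38 4 (.d k247 k183 k166 7 12)))))) .n))) (.c k204 (.q k1 [(.s k169 k253 13 (.d k3 k2 k86 0
  14)), (.s k169 k253 13 (.s k236 k35 10 (.s k238 k34 9 (.s k237 k239 0 (.s k207 k222 4 (.s k69 k138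
  10 (.d k101 k33 k117 9 3))))))), (.s k2 k3 0 (.s k68 k119 4 (.s k86 k254 13 (.s k70 k118 3 (.s k69
  k71 0 (.d k138 k207 k206 10 9))))))] (.c k221 (.l (.s k238 k34 9 (.s k3 k2 0 (.d k169 k253 k86 13
  14)))) (.c k238 (.q k221 [(.s k169 k253 13 (.d k3 k2 k86 0 14)), (.s k17 k153 9 (.s k33 k49 3 (.s
  k34 k51 4 (.s k35 k32 0 (.d k169 k236 k253 10 13))))), (.s k2 k3 0 (.s k17 k153 9 (.s k51 k34 4
  (.s k86 k254 13 (.d k118 k70 k185 3 10)))))] .n) .n))) .n))) (.c k169 (.q k4 [(.s k166 k247 12 (.s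
  k162 k174 1 (.s k243 k81 12 (.d k12 k8 k89 1 14)))), (.s k12 k8 1 (.s k84 k168 13 (.s k164 k244 11
  (.s k88 k240 13 (.d k92 k80 k172 1 11))))), (.s k84 k168 13 (.s k86 k87 0 (.s k166 k247 12 (.s k6
  k246 11 (.s k7 k5 0 (.d k244 k164 k165 11 12))))))] .n) (.c k171 (.l (.s k84 k168 13 (.s k86 k87 0
  (.s k3 k169 14 (.d k2 k1 k254 0 13))))) (.c k254 (.l (.s k168 k84 13 (.s k169 k171 0 (.s k1 k253
  13 (.d k3 k2 k86 0 14))))) .n))))))))))))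

def t42_203 : T TT 256 :=
  (.f k170 k255 14 (.q k252 [(.s k84 k168 13 (.s k86 k87 0 (.s k2 k254 13 (.d k3 k1 k169 0 14))))]
  (.c k1 (.q k4 [(.s k166 k247 12 (.s k162 k174 1 (.s k243 k81 12 (.d k12 k8 k89 1 14)))), (.s k12
  k8 1 (.s k84 k168 13 (.s k92 k172 11 (.s k88 k80 1 (.d k164 k244 k240 11 13))))), (.s k84 k168 13
  (.s k86 k87 0 (.s k166 k247 12 (.s k6 k246 11 (.s k7 k5 0 (.d k244 k164 k165 11 12))))))] .n) (.c
  k2 (.f k84 k168 13 (.f k86 k87 0 (.f k3 k169 14 (.q k22 [(.s k60 k41 6 (.s k150 k214 7 (.d k20 k40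
  k215 5 8))), (.s k150 k214 7 (.s k20 k215 8 (.s k23 k21 0 (.d k212 k148 k149 7 8)))), (.s k60 k41
  6 (.s k124 k188 7 (.s k105 k67 6 (.d k150 k214 k195 7 14)))), (.s k60 k41 6 (.s k40 k20 5 (.s k105
  k235 8 (.d k124 k67 k188 6 7))))] .n)))) (.c k3 (.f k84 k168 13 (.q k4 [(.s k166 k247 12 (.s k162
  k174 1 (.s k243 k81 12 (.d k12 k8 k89 1 14)))), (.s k244 k164 11 (.s k240 k248 1 (.s k160 k80 11
  (.s k165 k175 2 (.d k86 k87 k7 0 12)))))] (.c k8 (.l (.s k166 k247 12 (.s k162 k174 1 (.s k243 k81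
  12 (.s k246 k249 2 (.d k86 k87 k6 0 11)))))) (.c k87 (.q k171 [(.s k166 k247 12 (.s k162 k174 1
  (.s k243 k81 12 (.d k12 k8 k89 1 14)))), (.s k12 k8 1 (.s k92 k172 11 (.s k88 k80 1 (.d k164 k244
  k240 11 13)))), (.s k244 k164 11 (.s k247 k166 12 (.s k245 k246 0 (.s k165 k5 11 (.s k160 k175 2
  (.d k240 k248 k80 1 11))))))] .n) (.c k171 (.l (.s k87 k86 0 (.s k12 k8 1 (.s k92 k172 11 (.s k88
  k80 1 (.d k164 k244 k240 11 13)))))) .n))))) (.c k84 (.q k150 [(.s k20 k215 8 (.s k130 k190 5 (.s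
  k195 k65 8 (.d k60 k40 k105 5 14)))), (.s k130 k190 5 (.s k195 k65 8 (.s k214 k233 6 (.s k86 k22 7
  (.s k2 k254 13 (.d k3 k1 k169 0 14)))))), (.s k20 k215 8 (.s k60 k40 5 (.s k188 k124 7 (.s k169
  k131 6 (.s k1 k253 13 (.d k3 k2 k86 0 14))))))] (.c k60 (.q k21 [(.s k20 k215 8 (.s k22 k23 0 (.s
  k214 k86 7 (.s k195 k233 6 (.d k130 k190 k65 5 8))))), (.s k149 k213 7 (.s k128 k191 6 (.s k148
  k151 0 (.s k188 k168 5 (.s k131 k169 6 (.d k130 k190 k129 5 0)))))), (.s k20 k215 8 (.s k22 k23 0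
  (.s k86 k214 7 (.s k2 k254 13 (.d k3 k1 k169 0 14)))))] (.c k125 (.l (.s k190 k130 5 (.s k20 k215
  8 (.s k22 k23 0 (.s k86 k214 7 (.s k2 k254 13 (.d k3 k1 k169 0 14))))))) (.c k151 (.l (.s k20 k215
  8 (.s k23 k22 0 (.s k149 k213 7 (.s k128 k191 6 (.s k192 k64 7 (.d k212 k232 k86 5 8))))))) (.c
  k190 (.q k125 [(.s k20 k215 8 (.s k22 k23 0 (.s k65 k105 5 (.s k195 k130 8 (.d k214 k233 k86 6
  7))))), (.s k105 k65 5 (.s k149 k213 7 (.s k61 k193 13 (.s k1 k41 5 (.d k253 k189 k169 7 13))))),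
  (.s k20 k215 8 (.s k22 k23 0 (.s k86 k214 7 (.s k2 k254 13 (.d k3 k1 k169 0 14)))))] (.c k22 (.l
  (.s k65 k105 5 (.s k195 k130 8 (.s k213 k149 7 (.s k214 k233 6 (.d k215 k212 k20 0 8)))))) .n))
  .n)))) (.c k195 (.f k215 k20 8 (.q k199 [(.s k52 k101 12 (.s k247 k231 3 (.s k166 k4 12 (.d k182
  k134 k117 3 8)))), (.s k101 k52 12 (.s k32 k239 10 (.s k48 k16 3 (.s k116 k184 9 (.s k86 k71 4 (.s
  k2 k254 13 (.d k3 k1 k169 0 14)))))))] (.c k4 (.l (.s k231 k247 3 (.s k101 k52 12 (.s k36 k166 8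
  (.s k32 k239 10 (.s k48 k16 3 (.s k207 k154 14 (.d k69 k117 k138 3 10)))))))) (.c k36 (.l (.s k52
  k101 12 (.s k247 k231 3 (.s k166 k4 12 (.d k182 k134 k117 3 8))))) (.c k52 (.l (.s k247 k231 3 (.s
  k4 k166 12 (.s k69 k134 8 (.s k101 k117 3 (.s k32 k239 10 (.s k48 k16 3 (.d k207 k138 k154 10
  14)))))))) (.c k101 (.l (.s k130 k190 5 (.s k247 k231 3 (.s k166 k4 12 (.s k134 k182 3 (.s k142
  k138 1 (.s k162 k174 1 (.d k178 k146 k154 3 5)))))))) (.c k148 (.q k212 [(.s k52 k101 12 (.s k247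
  k231 3 (.s k166 k4 12 (.d k182 k134 k117 3 8)))), (.s k192 k232 5 (.s k128 k64 7 (.s k149 k191 6
  (.d k213 k214 k21 0 7))))] .n) (.c k212 (.q k148 [(.s k52 k101 12 (.s k247 k231 3 (.s k166 k4 12
  (.d k182 k134 k117 3 8)))), (.s k130 k190 5 (.s k149 k151 0 (.s k128 k191 6 (.s k131 k129 0 (.d
  k188 k168 k169 5 6)))))] .n) .n)))))))) .n))) (.c k86 (.q k4 [(.s k166 k247 12 (.s k162 k174 1 (.s
  k243 k81 12 (.d k12 k8 k89 1 14)))), (.s k84 k168 13 (.s k244 k164 11 (.s k240 k248 1 (.s k160 k80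
  11 (.s k165 k175 2 (.s k5 k245 11 (.d k15 k10 k90 2 14)))))))] (.c k8 (.l (.s k166 k247 12 (.s
  k162 k174 1 (.s k168 k84 13 (.s k169 k171 0 (.s k172 k163 2 (.s k12 k92 11 (.d k243 k89 k81 14
  12)))))))) .n)) (.c k87 (.l (.s k168 k84 13 (.s k169 k171 0 (.s k3 k86 14 (.d k1 k2 k253 0 13)))))
  (.c k168 (.q k90 [(.s k10 k250 11 (.s k15 k5 2 (.s k80 k95 2 (.d k240 k160 k165 11 14)))), (.s k80
  k95 2 (.s k240 k160 11 (.s k248 k244 1 (.s k169 k11 12 (.s k1 k253 13 (.d k3 k2 k86 0 14)))))),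
  (.s k10 k250 11 (.s k15 k5 2 (.s k94 k173 12 (.s k86 k82 1 (.s k2 k254 13 (.d k3 k1 k169 0
  14))))))] (.c k15 (.q k149 [(.s k128 k191 6 (.s k192 k64 7 (.s k208 k31 10 (.s k240 k224 3 (.d k80
  k95 k160 2 11))))), (.s k31 k208 10 (.s k95 k80 2 (.s k223 k159 7 (.s k16 k154 10 (.d k21 k26 k213
  2 7))))), (.s k128 k191 6 (.s k192 k64 7 (.s k212 k232 5 (.s k86 k23 8 (.s k2 k254 13 (.d k3 k1
  k169 0 14))))))] (.c k95 (.q k175 [(.s k128 k191 6 (.s k160 k165 2 (.s k192 k64 7 (.s k208 k31 10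
  (.d k240 k224 k80 3 11))))), (.s k21 k213 7 (.s k165 k160 2 (.s k5 k245 11 (.s k53 k37 3 (.s k133
  k181 3 (.d k197 k69 k101 7 11)))))), (.s k21 k213 7 (.s k31 k208 10 (.s k16 k26 2 (.s k191 k128 6
  (.s k159 k143 3 (.d k154 k223 k144 10 2))))))] (.c k192 (.l (.s k128 k191 6 (.s k160 k165 2 (.s
  k80 k240 11 (.s k144 k176 3 (.d k208 k16 k31 7 10)))))) .n)) (.c k175 (.l (.s k95 k80 2 (.s k21
  k213 7 (.s k31 k208 10 (.s k16 k26 2 (.d k223 k159 k154 7 10)))))) .n))) (.c k240 (.q k93 [(.s k95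
  k80 2 (.s k94 k92 0 (.s k15 k173 12 (.d k10 k250 k5 11 2)))), (.s k89 k81 1 (.s k91 k88 0 (.s k250
  k10 11 (.s k251 k8 12 (.s k248 k249 0 (.d k11 k171 k169 11 12)))))), (.s k89 k81 1 (.s k8 k251 12
  (.s k12 k4 1 (.s k92 k172 11 (.d k95 k94 k80 0 2)))))] (.c k245 (.l (.s k250 k10 11 (.s k89 k81 1
  (.s k8 k251 12 (.s k12 k4 1 (.s k92 k172 11 (.d k95 k94 k80 0 2))))))) (.c k250 (.q k245 [(.s k5
  k165 11 (.s k95 k80 2 (.s k94 k92 0 (.d k15 k10 k173 2 12)))), (.s k89 k81 1 (.s k8 k251 12 (.s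
  k12 k4 1 (.s k92 k172 11 (.d k95 k94 k80 0 2))))), (.s k5 k165 11 (.s k15 k10 2 (.s k94 k173 12
  (.s k86 k82 1 (.s k2 k254 13 (.d k3 k169 k1 14 0))))))] (.c k94 (.l (.s k80 k95 2 (.s k81 k89 1
  (.s k82 k83 0 (.s k162 k243 12 (.s k166 k174 1 (.d k242 k14 k2 13 11))))))) .n)) .n))) .n))) (.c
  k169 (.q k4 [(.s k166 k247 12 (.s k162 k174 1 (.s k243 k81 12 (.d k12 k8 k89 1 14)))), (.s k12 k8
  1 (.s k84 k168 13 (.s k164 k244 11 (.s k88 k240 13 (.d k92 k80 k172 1 11))))), (.s k84 k168 13 (.s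
  k86 k87 0 (.s k166 k247 12 (.s k6 k246 11 (.s k7 k5 0 (.d k244 k164 k165 11 12))))))] .n) (.c k171
  (.l (.s k84 k168 13 (.s k86 k87 0 (.s k3 k169 14 (.d k2 k1 k254 0 13))))) (.c k254 (.l (.s k168
  k84 13 (.s k169 k171 0 (.s k1 k253 13 (.d k3 k2 k86 0 14))))) .n))))))))))))

def t42_207 : T TT 256 :=
  (.q k86 [(.s k84 k87 0 (.s k252 k168 13 (.s k3 k169 14 (.s k2 k1 0 (.d k170 k254 k255 13 14)))))]
  (.c k1 (.q k4 [(.s k84 k87 0 (.s k166 k247 12 (.s k6 k246 11 (.s k7 k5 0 (.d k244 k164 k165 11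
  12))))), (.s k12 k8 1 (.s k166 k247 12 (.s k89 k243 14 (.s k93 k81 1 (.d k255 k174 k170 12
  14))))), (.s k12 k8 1 (.s k84 k87 0 (.s k164 k244 11 (.s k88 k240 13 (.s k92 k80 1 (.d k252 k172
  k168 11 13))))))] .n) (.c k2 (.l (.s k84 k87 0 (.s k252 k168 13 (.s k169 k3 14 (.s k253 k1 13 (.d
  k255 k254 k170 0 14)))))) (.c k3 (.f k87 k84 0 (.q k81 [(.s k89 k93 1 (.s k83 k92 2 (.s k95 k91 1
  (.d k80 k82 k90 0 2)))), (.s k89 k93 1 (.s k170 k255 14 (.s k8 k251 12 (.s k12 k4 1 (.d k243 k162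
  k166 12 14))))), (.s k162 k243 12 (.s k170 k255 14 (.s k2 k254 13 (.s k82 k242 11 (.s k90 k94 1
  (.d k80 k83 k95 0 2))))))] (.c k71 (.q k139 [(.s k89 k93 1 (.s k83 k92 2 (.s k95 k91 1 (.d k80 k82
  k90 0 2)))), (.s k89 k93 1 (.s k170 k255 14 (.s k8 k251 12 (.s k12 k4 1 (.d k243 k162 k166 12
  14))))), (.s k162 k243 12 (.s k170 k255 14 (.s k2 k254 13 (.s k82 k242 11 (.s k90 k94 1 (.d k80
  k83 k95 0 2))))))] .n) (.c k139 (.q k71 [(.s k89 k93 1 (.s k83 k92 2 (.s k95 k91 1 (.d k80 k82 k90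
  0 2)))), (.s k101 k116 4 (.s k69 k117 3 (.s k68 k70 0 (.d k119 k103 k102 3 4))))] .n) .n)))) (.c
  k84 (.q k4 [(.s k166 k247 12 (.s k170 k255 14 (.s k162 k174 1 (.s k243 k81 12 (.d k12 k8 k89 1
  14))))), (.s k12 k8 1 (.s k166 k247 12 (.s k6 k246 11 (.s k3 k9 2 (.s k1 k2 0 (.d k169 k253 k252
  13 14)))))), (.s k166 k247 12 (.s k6 k246 11 (.s k5 k7 0 (.s k10 k15 2 (.s k170 k255 14 (.d k2 k14
  k254 1 13)))))), (.s k12 k8 1 (.s k170 k255 14 (.s k2 k254 13 (.s k3 k1 0 (.s k6 k9 2 (.s k5 k7 0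
  (.d k10 k14 k15 1 2)))))))] .n) (.c k87 (.q k4 [(.s k12 k8 1 (.s k255 k170 14 (.s k93 k174 12 (.s
  k89 k81 1 (.d k166 k247 k243 12 14))))), (.s k12 k8 1 (.s k166 k247 12 (.s k6 k246 11 (.s k3 k9 2
  (.s k1 k2 0 (.d k169 k253 k252 13 14)))))), (.s k166 k247 12 (.s k6 k246 11 (.s k170 k255 14 (.s
  k2 k254 13 (.s k10 k14 1 (.d k5 k7 k15 0 2)))))), (.s k12 k8 1 (.s k170 k255 14 (.s k2 k254 13 (.s
  k3 k1 0 (.s k6 k9 2 (.s k10 k14 1 (.d k5 k7 k15 0 2)))))))] .n) (.c k168 (.l (.s k87 k84 0 (.s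
  k255 k170 14 (.s k3 k171 13 (.s k169 k252 14 (.d k1 k2 k253 0 13)))))) (.c k169 (.q k4 [(.s k84
  k87 0 (.s k166 k247 12 (.s k6 k246 11 (.s k7 k5 0 (.d k244 k164 k165 11 12))))), (.s k12 k8 1 (.s
  k166 k247 12 (.s k89 k243 14 (.s k93 k81 1 (.d k255 k174 k170 12 14))))), (.s k12 k8 1 (.s k84 k87
  0 (.s k164 k244 11 (.s k88 k240 13 (.s k92 k80 1 (.d k252 k172 k168 11 13))))))] .n) (.c k170 (.q
  k106 [(.s k64 k127 6 (.s k66 k126 5 (.s k67 k65 0 (.s k84 k87 0 (.d k124 k104 k105 5 6))))), (.s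
  k84 k87 0 (.s k126 k66 5 (.s k252 k168 13 (.s k63 k189 8 (.s k149 k192 14 (.s k23 k212 8 (.d k3
  k169 k43 14 5))))))), (.s k64 k127 6 (.s k84 k87 0 (.s k192 k128 7 (.s k149 k63 14 (.s k212 k23 8
  (.d k252 k232 k168 5 13)))))), (.s k64 k127 6 (.s k66 k126 5 (.s k192 k128 7 (.s k3 k129 8 (.s k1
  k2 0 (.d k169 k253 k252 13 14))))))] .n) (.c k171 (.l (.s k84 k87 0 (.s k252 k168 13 (.s k3 k169
  14 (.s k170 k255 14 (.d k2 k1 k254 0 13)))))) (.c k252 (.f k255 k170 14 (.f k87 k84 0 (.q k106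
  [(.s k64 k127 6 (.s k192 k128 7 (.s k213 k234 6 (.d k149 k21 k63 7 14)))), (.s k126 k66 5 (.s k127
  k64 6 (.s k67 k107 5 (.d k124 k125 k105 0 6)))), (.s k3 k171 13 (.s k66 k126 5 (.s k192 k129 8 (.s
  k213 k234 6 (.d k149 k63 k21 14 7)))))] (.c k222 (.q k237 [(.s k64 k127 6 (.s k192 k128 7 (.s k213
  k234 6 (.d k149 k21 k63 7 14)))), (.s k126 k66 5 (.s k127 k64 6 (.s k67 k107 5 (.d k124 k125 k105
  0 6)))), (.s k3 k171 13 (.s k66 k126 5 (.s k192 k129 8 (.s k213 k234 6 (.d k149 k63 k21 14 7)))))]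
  .n) (.c k237 (.q k222 [(.s k64 k127 6 (.s k192 k128 7 (.s k213 k234 6 (.d k149 k21 k63 7 14)))),
  (.s k154 k18 9 (.s k223 k16 10 (.s k19 k155 9 (.d k220 k221 k153 0 10))))] .n) .n))))) (.c k254
  (.l (.s k87 k84 0 (.s k255 k170 14 (.s k3 k171 13 (.s k1 k2 0 (.d k169 k253 k252 13 14)))))) (.c
  k255 (.q k89 [(.s k83 k92 2 (.s k87 k84 0 (.s k95 k91 1 (.s k80 k90 2 (.d k81 k82 k93 0 1))))),
  (.s k81 k93 1 (.s k84 k87 0 (.s k243 k162 12 (.s k252 k168 13 (.s k246 k249 2 (.d k166 k12 k6 14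
  11)))))), (.s k84 k87 0 (.s k92 k83 2 (.s k252 k168 13 (.s k12 k172 11 (.s k4 k8 1 (.d k166 k247
  k243 12 14)))))), (.s k81 k93 1 (.s k83 k92 2 (.s k243 k162 12 (.s k3 k163 11 (.s k1 k2 0 (.d k169
  k253 k252 13 14))))))] (.c k223 (.q k239 [(.s k83 k92 2 (.s k87 k84 0 (.s k95 k91 1 (.s k80 k90 2
  (.d k81 k82 k93 0 1))))), (.s k81 k93 1 (.s k84 k87 0 (.s k243 k162 12 (.s k252 k168 13 (.s k246
  k249 2 (.d k166 k12 k6 14 11)))))), (.s k84 k87 0 (.s k92 k83 2 (.s k252 k168 13 (.s k12 k172 11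
  (.s k4 k8 1 (.d k166 k247 k243 12 14)))))), (.s k81 k93 1 (.s k83 k92 2 (.s k243 k162 12 (.s k3
  k163 11 (.s k1 k2 0 (.d k169 k253 k252 13 14))))))] .n) (.c k239 (.q k223 [(.s k81 k93 1 (.s k83
  k92 2 (.s k80 k82 0 (.s k87 k84 0 (.d k95 k91 k90 1 2))))), (.s k16 k154 10 (.s k84 k87 0 (.s k220
  k152 9 (.s k153 k19 10 (.d k221 k222 k17 0 9))))), (.s k16 k154 10 (.s k81 k93 1 (.s k211 k146 8
  (.s k150 k28 10 (.d k215 k219 k20 1 8)))))] .n) .n))) .n)))))))))))))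

def t42_218 : T TT 256 :=
  (.f k170 k255 14 (.q k252 [(.s k84 k168 13 (.s k86 k87 0 (.s k2 k254 13 (.d k3 k1 k169 0 14))))]
  (.c k1 (.q k4 [(.s k12 k8 1 (.s k166 k247 12 (.s k162 k174 1 (.d k243 k81 k89 12 14)))), (.s k84
  k168 13 (.s k86 k87 0 (.s k166 k247 12 (.s k6 k246 11 (.s k7 k5 0 (.d k244 k164 k165 11 12)))))),
  (.s k12 k8 1 (.s k84 k168 13 (.s k92 k172 11 (.s k88 k80 1 (.d k164 k244 k240 11 13)))))] .n) (.c
  k2 (.f k84 k168 13 (.f k86 k87 0 (.f k3 k169 14 (.q k22 [(.s k60 k41 6 (.s k150 k214 7 (.d k20 k40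
  k215 5 8))), (.s k150 k214 7 (.s k20 k215 8 (.s k23 k21 0 (.d k212 k148 k149 7 8)))), (.s k60 k41
  6 (.s k124 k188 7 (.s k105 k67 6 (.d k150 k214 k195 7 14)))), (.s k60 k41 6 (.s k40 k20 5 (.s k105
  k235 8 (.d k124 k67 k188 6 7))))] .n)))) (.c k3 (.f k84 k168 13 (.q k4 [(.s k166 k247 12 (.s k162
  k174 1 (.s k243 k81 12 (.d k12 k8 k89 1 14)))), (.s k244 k164 11 (.s k240 k248 1 (.s k160 k80 11
  (.s k165 k175 2 (.d k86 k87 k7 0 12)))))] (.c k8 (.l (.s k166 k247 12 (.s k162 k174 1 (.s k243 k81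
  12 (.s k246 k249 2 (.d k86 k87 k6 0 11)))))) (.c k87 (.q k171 [(.s k12 k8 1 (.s k92 k172 11 (.s
  k88 k80 1 (.d k164 k244 k240 11 13)))), (.s k166 k247 12 (.s k162 k174 1 (.s k243 k81 12 (.d k12
  k8 k89 1 14)))), (.s k244 k164 11 (.s k247 k166 12 (.s k245 k246 0 (.s k165 k5 11 (.s k160 k175 2
  (.d k240 k248 k80 1 11))))))] .n) (.c k171 (.l (.s k87 k86 0 (.s k12 k8 1 (.s k92 k172 11 (.s k88
  k80 1 (.d k164 k244 k240 11 13)))))) .n))))) (.c k84 (.q k150 [(.s k20 k215 8 (.s k130 k190 5 (.s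
  k195 k65 8 (.d k60 k40 k105 5 14)))), (.s k130 k190 5 (.s k195 k65 8 (.s k214 k233 6 (.s k86 k22 7
  (.s k2 k254 13 (.d k3 k1 k169 0 14)))))), (.s k20 k215 8 (.s k60 k40 5 (.s k188 k124 7 (.s k169
  k131 6 (.s k1 k253 13 (.d k3 k2 k86 0 14))))))] (.c k60 (.q k195 [(.d k130 k190 k65 5 8), (.s k214
  k233 6 (.s k86 k22 7 (.s k2 k254 13 (.d k3 k1 k169 0 14))))] (.c k125 (.l (.s k190 k130 5 (.s k214
  k233 6 (.s k86 k22 7 (.s k2 k254 13 (.d k3 k1 k169 0 14)))))) (.c k190 (.q k125 [(.d k65 k105 k130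
  5 8), (.s k214 k233 6 (.s k86 k22 7 (.s k2 k254 13 (.d k3 k1 k169 0 14))))] .n) .n))) (.c k195 (.q
  k146 [(.s k154 k158 1 (.s k16 k223 10 (.s k48 k32 3 (.s k138 k186 3 (.d k207 k69 k101 10 14))))),
  (.s k130 k190 5 (.s k154 k158 1 (.s k138 k186 3 (.s k142 k134 1 (.d k178 k162 k166 3 5))))), (.s
  k130 k190 5 (.s k154 k158 1 (.s k16 k223 10 (.s k81 k211 8 (.d k162 k243 k178 12 3))))), (.s k130
  k190 5 (.s k162 k178 3 (.s k81 k243 12 (.s k89 k93 1 (.d k211 k16 k28 8 10)))))] (.c k215 (.q k235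
  [(.s k130 k190 5 (.s k154 k158 1 (.s k138 k186 3 (.s k178 k162 3 (.d k142 k134 k166 1 5))))), (.s
  k154 k158 1 (.s k16 k223 10 (.s k48 k32 3 (.s k138 k186 3 (.d k207 k69 k101 10 14))))), (.s k130
  k190 5 (.s k162 k178 3 (.s k81 k243 12 (.s k89 k93 1 (.d k211 k16 k28 8 10))))), (.s k40 k105 8
  (.s k20 k60 5 (.s k154 k158 1 (.s k16 k223 10 (.s k28 k24 1 (.d k211 k81 k89 8 10))))))] .n) (.c
  k235 (.l (.s k215 k20 8 (.s k130 k190 5 (.s k154 k158 1 (.s k16 k223 10 (.s k81 k211 8 (.d k162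
  k243 k178 12 3))))))) .n))) .n))) (.c k86 (.q k4 [(.s k166 k247 12 (.s k162 k174 1 (.s k243 k81 12
  (.d k12 k8 k89 1 14)))), (.s k84 k168 13 (.s k244 k164 11 (.s k240 k248 1 (.s k160 k80 11 (.s k165
  k175 2 (.s k5 k245 11 (.d k15 k10 k90 2 14)))))))] (.c k8 (.l (.s k166 k247 12 (.s k162 k174 1 (.s
  k168 k84 13 (.s k169 k171 0 (.s k172 k163 2 (.s k12 k92 11 (.d k243 k89 k81 14 12)))))))) .n)) (.c
  k87 (.l (.s k168 k84 13 (.s k169 k171 0 (.s k3 k86 14 (.d k1 k2 k253 0 13))))) (.c k168 (.q k89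
  [(.s k8 k251 12 (.s k12 k4 1 (.s k81 k93 1 (.d k243 k162 k166 12 14)))), (.s k81 k93 1 (.s k243
  k162 12 (.s k249 k246 2 (.s k169 k9 11 (.s k1 k253 13 (.d k3 k2 k86 0 14)))))), (.s k8 k251 12 (.s
  k12 k4 1 (.s k92 k172 11 (.s k86 k83 2 (.s k2 k254 13 (.d k3 k1 k169 0 14))))))] (.c k12 (.q k138
  [(.s k207 k69 10 (.s k154 k186 3 (.s k48 k101 14 (.d k16 k32 k223 3 10)))), (.s k8 k251 12 (.s
  k154 k186 3 (.s k24 k219 8 (.s k56 k40 3 (.d k203 k73 k105 8 12))))), (.s k8 k251 12 (.s k69 k207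
  10 (.s k73 k203 8 (.s k77 k65 1 (.d k101 k117 k113 3 5)))))] (.c k93 (.q k174 [(.s k154 k186 3 (.s
  k207 k69 10 (.s k48 k101 14 (.d k16 k32 k223 3 10)))), (.s k8 k251 12 (.s k154 k186 3 (.s k24 k219
  8 (.s k56 k40 3 (.d k203 k73 k105 8 12))))), (.s k8 k251 12 (.s k69 k207 10 (.s k73 k203 8 (.s k77
  k65 1 (.d k101 k117 k113 3 5)))))] (.c k117 (.l (.s k207 k69 10 (.s k154 k186 3 (.s k48 k101 14
  (.d k16 k32 k223 3 10))))) .n)) (.c k117 (.l (.s k207 k69 10 (.s k154 k186 3 (.s k48 k101 14 (.d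
  k16 k32 k223 3 10))))) (.c k174 (.l (.s k93 k81 1 (.s k154 k186 3 (.s k16 k223 10 (.s k48 k32 3
  (.d k207 k69 k101 10 14)))))) .n)))) (.c k243 (.q k101 [(.s k32 k239 10 (.s k48 k16 3 (.s k69 k117
  3 (.d k207 k138 k154 10 14)))), (.s k81 k93 1 (.s k113 k77 5 (.s k65 k97 3 (.s k117 k69 3 (.d k125
  k121 k105 1 5))))), (.s k32 k239 10 (.s k48 k16 3 (.s k77 k113 5 (.s k207 k154 14 (.s k12 k142 8
  (.d k8 k251 k4 12 1))))))] (.c k247 (.l (.s k251 k8 12 (.s k32 k239 10 (.s k48 k16 3 (.s k69 k117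
  3 (.d k207 k138 k154 10 14)))))) (.c k251 (.q k247 [(.s k32 k239 10 (.s k48 k16 3 (.s k69 k117 3
  (.d k207 k138 k154 10 14)))), (.s k4 k166 12 (.s k117 k69 3 (.s k52 k182 8 (.s k20 k36 3 (.d k150
  k215 k199 8 12))))), (.s k4 k166 12 (.s k12 k8 1 (.s k32 k239 10 (.s k48 k16 3 (.s k24 k36 5 (.d
  k154 k207 k219 14 8))))))] .n) .n))) .n))) (.c k169 (.q k4 [(.s k166 k247 12 (.s k162 k174 1 (.s
  k243 k81 12 (.d k12 k8 k89 1 14)))), (.s k12 k8 1 (.s k84 k168 13 (.s k164 k244 11 (.s k88 k240 13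
  (.d k92 k80 k172 1 11))))), (.s k84 k168 13 (.s k86 k87 0 (.s k166 k247 12 (.s k6 k246 11 (.s k7
  k5 0 (.d k244 k164 k165 11 12))))))] .n) (.c k171 (.l (.s k84 k168 13 (.s k86 k87 0 (.s k3 k169 14
  (.d k2 k1 k254 0 13))))) (.c k254 (.l (.s k168 k84 13 (.s k169 k171 0 (.s k1 k253 13 (.d k3 k2 k86
  0 14))))) .n))))))))))))

def t42_219 : T TT 256 :=
  (.f k170 k255 14 (.q k252 [(.s k84 k168 13 (.s k86 k87 0 (.s k2 k254 13 (.d k3 k1 k169 0 14))))]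
  (.c k1 (.q k4 [(.s k12 k8 1 (.s k166 k247 12 (.s k162 k174 1 (.d k243 k81 k89 12 14)))), (.s k84
  k168 13 (.s k86 k87 0 (.s k166 k247 12 (.s k6 k246 11 (.s k7 k5 0 (.d k244 k164 k165 11 12)))))),
  (.s k12 k8 1 (.s k84 k168 13 (.s k92 k172 11 (.s k88 k80 1 (.d k164 k244 k240 11 13)))))] .n) (.c
  k2 (.f k84 k168 13 (.f k86 k87 0 (.f k3 k169 14 (.q k22 [(.s k60 k41 6 (.s k150 k214 7 (.d k20 k40
  k215 5 8))), (.s k150 k214 7 (.s k20 k215 8 (.s k23 k21 0 (.d k212 k148 k149 7 8)))), (.s k60 k41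
  6 (.s k124 k188 7 (.s k105 k67 6 (.d k150 k214 k195 7 14)))), (.s k60 k41 6 (.s k40 k20 5 (.s k105
  k235 8 (.d k124 k67 k188 6 7))))] .n)))) (.c k3 (.f k168 k84 13 (.q k240 [(.s k80 k160 11 (.s k90
  k95 2 (.s k10 k250 11 (.d k15 k5 k165 2 14)))), (.s k248 k244 1 (.s k8 k88 11 (.s k89 k251 12 (.s
  k81 k93 1 (.s k243 k162 12 (.d k12 k4 k166 1 14))))))] (.c k80 (.l (.s k248 k244 1 (.s k88 k8 11
  (.s k164 k12 13 (.s k160 k172 1 (.s k165 k175 2 (.s k5 k245 11 (.d k15 k10 k90 2 14)))))))) (.c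
  k87 (.l (.s k171 k169 0 (.s k80 k160 11 (.s k90 k95 2 (.s k10 k250 11 (.d k15 k5 k165 2 14))))))
  (.c k171 (.q k87 [(.s k80 k160 11 (.s k90 k95 2 (.s k10 k250 11 (.d k15 k5 k165 2 14)))), (.s k248
  k244 1 (.s k8 k88 11 (.s k89 k251 12 (.s k81 k93 1 (.s k243 k162 12 (.d k12 k4 k166 1 14))))))]
  (.c k80 (.l (.s k248 k244 1 (.s k88 k8 11 (.s k164 k12 13 (.s k160 k172 1 (.s k165 k175 2 (.s k5
  k245 11 (.d k15 k10 k90 2 14)))))))) .n)) .n))))) (.c k84 (.q k90 [(.s k10 k250 11 (.s k15 k5 2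
  (.s k80 k95 2 (.d k240 k160 k165 11 14)))), (.s k80 k95 2 (.s k240 k160 11 (.s k248 k244 1 (.s
  k169 k11 12 (.s k1 k253 13 (.d k3 k2 k86 0 14)))))), (.s k10 k250 11 (.s k15 k5 2 (.s k94 k173 12
  (.s k86 k82 1 (.s k2 k254 13 (.d k3 k1 k169 0 14))))))] (.c k15 (.q k149 [(.s k128 k191 6 (.s k192
  k64 7 (.s k208 k31 10 (.s k240 k224 3 (.d k80 k95 k160 2 11))))), (.s k31 k208 10 (.s k95 k80 2
  (.s k223 k159 7 (.s k16 k154 10 (.d k21 k26 k213 2 7))))), (.s k128 k191 6 (.s k192 k64 7 (.s k212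
  k232 5 (.s k86 k23 8 (.s k2 k254 13 (.d k3 k1 k169 0 14))))))] (.c k95 (.q k175 [(.s k165 k160 2
  (.s k181 k133 3 (.s k191 k128 6 (.s k176 k186 2 (.d k143 k159 k154 3 6))))), (.s k128 k191 6 (.s
  k160 k165 2 (.s k192 k64 7 (.s k208 k31 10 (.d k240 k224 k80 3 11))))), (.s k21 k213 7 (.s k165
  k160 2 (.s k5 k245 11 (.s k53 k37 3 (.s k133 k181 3 (.d k197 k69 k101 7 11)))))), (.s k21 k213 7
  (.s k31 k208 10 (.s k16 k26 2 (.s k191 k128 6 (.s k159 k143 3 (.d k154 k223 k144 10 2))))))] (.c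
  k192 (.l (.s k128 k191 6 (.s k160 k165 2 (.s k80 k240 11 (.s k144 k176 3 (.d k208 k16 k31 7
  10)))))) .n)) (.c k175 (.l (.s k95 k80 2 (.s k21 k213 7 (.s k31 k208 10 (.s k16 k26 2 (.d k223
  k159 k154 7 10)))))) .n))) (.c k240 (.q k128 [(.s k149 k191 6 (.s k192 k64 7 (.s k212 k232 5 (.s
  k86 k23 8 (.s k2 k254 13 (.d k3 k1 k169 0 14)))))), (.s k64 k192 7 (.s k80 k95 2 (.s k112 k96 3
  (.s k79 k101 6 (.s k74 k69 2 (.d k106 k122 k127 3 6)))))), (.s k80 k95 2 (.s k149 k191 6 (.s k208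
  k31 10 (.s k16 k144 7 (.s k213 k21 7 (.d k223 k218 k154 2 10))))))] (.c k127 (.l (.s k192 k64 7
  (.s k149 k191 6 (.s k63 k106 14 (.s k31 k208 10 (.s k15 k47 3 (.d k10 k5 k250 2 11))))))) (.c k245
  (.l (.s k250 k10 11 (.s k64 k192 7 (.s k80 k95 2 (.s k106 k127 6 (.s k74 k122 3 (.s k79 k69 2 (.d
  k112 k96 k101 3 6)))))))) (.c k250 (.q k245 [(.s k5 k165 11 (.s k15 k10 2 (.s k94 k173 12 (.s k86
  k82 1 (.s k2 k254 13 (.d k3 k169 k1 14 0)))))), (.s k64 k192 7 (.s k80 k95 2 (.s k106 k127 6 (.s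
  k74 k122 3 (.s k79 k69 2 (.d k112 k96 k101 3 6)))))), (.s k5 k165 11 (.s k149 k191 6 (.s k21 k213
  7 (.s k53 k37 3 (.s k101 k197 11 (.d k117 k69 k181 3 7))))))] .n) .n)))) .n))) (.c k86 (.q k4 [(.s
  k166 k247 12 (.s k162 k174 1 (.s k243 k81 12 (.d k12 k8 k89 1 14)))), (.s k84 k168 13 (.s k244
  k164 11 (.s k240 k248 1 (.s k160 k80 11 (.s k165 k175 2 (.s k5 k245 11 (.d k15 k10 k90 2
  14)))))))] (.c k8 (.l (.s k166 k247 12 (.s k162 k174 1 (.s k168 k84 13 (.s k169 k171 0 (.s k172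
  k163 2 (.s k12 k92 11 (.d k243 k89 k81 14 12)))))))) .n)) (.c k87 (.l (.s k168 k84 13 (.s k169
  k171 0 (.s k3 k86 14 (.d k1 k2 k253 0 13))))) (.c k168 (.q k166 [(.s k4 k247 12 (.s k162 k174 1
  (.s k243 k81 12 (.d k12 k8 k89 1 14)))), (.s k162 k174 1 (.s k243 k81 12 (.s k246 k249 2 (.s k86
  k6 11 (.s k2 k254 13 (.d k3 k1 k169 0 14)))))), (.s k4 k247 12 (.s k12 k8 1 (.s k172 k92 11 (.s
  k169 k163 2 (.s k1 k253 13 (.d k3 k2 k86 0 14))))))] (.c k12 (.q k1 [(.s k169 k253 13 (.d k3 k2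
  k86 0 14)), (.s k169 k253 13 (.s k172 k163 2 (.s k174 k162 1 (.s k173 k175 0 (.s k15 k94 12 (.s k5
  k10 2 (.d k165 k161 k245 1 11))))))), (.s k2 k3 0 (.s k4 k247 12 (.s k86 k254 13 (.s k6 k246 11
  (.s k5 k7 0 (.d k10 k15 k14 2 1))))))] (.c k93 (.l (.s k174 k162 1 (.s k3 k2 0 (.d k169 k253 k86
  13 14)))) (.c k174 (.q k93 [(.s k169 k253 13 (.d k3 k2 k86 0 14)), (.s k81 k89 1 (.s k161 k241 11
  (.s k162 k243 12 (.s k163 k160 0 (.d k169 k172 k253 2 13))))), (.s k2 k3 0 (.s k81 k89 1 (.s k86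
  k254 13 (.s k243 k162 12 (.d k246 k6 k249 11 2)))))] .n) .n))) (.c k243 (.f k247 k4 12 (.q k101
  [(.s k32 k239 10 (.s k48 k16 3 (.s k69 k117 3 (.d k207 k138 k154 10 14)))), (.s k117 k69 3 (.s k52
  k182 8 (.s k199 k150 12 (.d k231 k215 k36 3 8)))), (.s k32 k239 10 (.s k162 k174 1 (.s k227 k97 8
  (.s k44 k105 10 (.d k36 k231 k40 8 1)))))] (.c k207 (.l (.s k231 k36 8 (.s k117 k69 3 (.s k52 k182
  8 (.d k199 k215 k150 3 12))))) (.c k231 (.q k207 [(.d k69 k117 k138 3 10), (.s k32 k239 10 (.d k48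
  k16 k154 3 14))] .n) .n)))) .n))) (.c k169 (.q k4 [(.s k166 k247 12 (.s k162 k174 1 (.s k243 k81
  12 (.d k12 k8 k89 1 14)))), (.s k12 k8 1 (.s k84 k168 13 (.s k164 k244 11 (.s k88 k240 13 (.d k92
  k80 k172 1 11))))), (.s k84 k168 13 (.s k86 k87 0 (.s k166 k247 12 (.s k6 k246 11 (.s k7 k5 0 (.d
  k244 k164 k165 11 12))))))] .n) (.c k171 (.l (.s k84 k168 13 (.s k86 k87 0 (.s k3 k169 14 (.d k2
  k1 k254 0 13))))) (.c k254 (.l (.s k168 k84 13 (.s k169 k171 0 (.s k1 k253 13 (.d k3 k2 k86 0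
  14))))) .n))))))))))))

def t42_223 : T TT 256 :=
  (.q k86 [(.s k84 k87 0 (.s k252 k168 13 (.s k169 k3 14 (.s k253 k1 13 (.d k255 k254 k170 0
  14))))), (.s k87 k84 0 (.s k255 k170 14 (.s k3 k171 13 (.s k1 k2 0 (.d k169 k253 k252 13 14)))))]
  (.c k1 (.q k4 [(.s k12 k8 1 (.s k166 k247 12 (.s k89 k243 14 (.s k93 k81 1 (.d k255 k174 k170 12
  14))))), (.s k84 k87 0 (.s k166 k247 12 (.s k6 k246 11 (.s k7 k5 0 (.d k244 k164 k165 11 12))))),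
  (.s k12 k8 1 (.s k84 k87 0 (.s k164 k244 11 (.s k88 k240 13 (.s k92 k80 1 (.d k252 k172 k168 11
  13))))))] .n) (.c k3 (.q k4 [(.s k87 k84 0 (.s k247 k166 12 (.s k7 k167 11 (.s k5 k6 0 (.d k165
  k245 k244 11 12))))), (.s k12 k8 1 (.s k166 k247 12 (.s k89 k243 14 (.s k93 k81 1 (.d k255 k174
  k170 12 14))))), (.s k12 k8 1 (.s k84 k87 0 (.s k164 k244 11 (.s k88 k240 13 (.s k92 k80 1 (.d
  k252 k172 k168 11 13))))))] (.c k12 (.l (.s k84 k87 0 (.s k166 k247 12 (.s k6 k246 11 (.s k7 k5 0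
  (.d k244 k164 k165 11 12)))))) .n)) (.c k84 (.q k4 [(.s k12 k8 1 (.s k166 k247 12 (.s k89 k243 14
  (.s k93 k81 1 (.d k255 k174 k170 12 14))))), (.s k166 k247 12 (.s k6 k246 11 (.s k5 k7 0 (.s k10
  k15 2 (.s k2 k14 1 (.d k170 k254 k255 13 14)))))), (.s k12 k8 1 (.s k166 k247 12 (.s k6 k246 11
  (.s k3 k9 2 (.s k1 k2 0 (.d k169 k253 k252 13 14)))))), (.s k12 k8 1 (.s k170 k255 14 (.s k2 k254
  13 (.s k3 k1 0 (.s k6 k9 2 (.s k5 k7 0 (.d k10 k14 k15 1 2)))))))] (.c k12 (.l (.s k166 k247 12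
  (.s k6 k246 11 (.s k5 k7 0 (.s k10 k15 2 (.s k170 k255 14 (.d k2 k14 k254 1 13))))))) .n)) (.c k87
  (.q k68 [(.s k102 k119 4 (.s k204 k136 9 (.s k51 k153 14 (.s k34 k17 4 (.d k170 k238 k255 9
  14))))), (.s k102 k119 4 (.s k70 k118 3 (.s k204 k136 9 (.s k3 k137 10 (.s k1 k2 0 (.d k169 k253
  k252 13 14)))))), (.s k170 k255 14 (.s k2 k254 13 (.s k3 k1 0 (.s k204 k136 9 (.s k70 k137 10 (.s
  k138 k206 9 (.d k69 k207 k71 10 0))))))), (.s k102 k119 4 (.s k70 k118 3 (.s k170 k255 14 (.s k2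
  k254 13 (.s k138 k206 9 (.d k69 k71 k207 0 10))))))] (.c k19 (.q k155 [(.s k102 k119 4 (.s k204
  k136 9 (.s k51 k153 14 (.s k34 k17 4 (.d k170 k238 k255 9 14))))), (.s k102 k119 4 (.s k70 k118 3
  (.s k204 k136 9 (.s k3 k137 10 (.s k1 k2 0 (.d k169 k253 k252 13 14)))))), (.s k136 k204 9 (.s
  k170 k255 14 (.s k153 k187 4 (.s k152 k154 0 (.s k168 k184 3 (.s k252 k84 13 (.d k169 k171 k3 0
  14))))))), (.s k102 k119 4 (.s k70 k118 3 (.s k170 k255 14 (.s k2 k254 13 (.s k138 k206 9 (.d k69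
  k71 k207 0 10))))))] (.c k119 (.l (.s k136 k204 9 (.s k170 k255 14 (.s k2 k254 13 (.s k3 k1 0 (.s
  k187 k153 4 (.s k171 k139 3 (.d k169 k252 k168 14 0)))))))) .n)) (.c k71 (.l (.s k204 k136 9 (.s
  k255 k170 14 (.s k221 k238 4 (.s k153 k17 9 (.d k102 k119 k51 4 14)))))) (.c k155 (.q k19 [(.s
  k102 k119 4 (.s k204 k136 9 (.d k153 k220 k51 10 14))), (.s k136 k204 9 (.s k153 k220 10 (.d k170
  k187 k255 4 14))), (.s k102 k119 4 (.s k70 k118 3 (.s k170 k255 14 (.s k2 k254 13 (.s k3 k1 0 (.d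
  k204 k136 k137 9 10)))))), (.s k119 k102 4 (.s k153 k220 10 (.s k255 k170 14 (.s k51 k187 9 (.d
  k17 k34 k221 4 9)))))] .n) .n)))) (.c k168 (.l (.s k87 k84 0 (.s k255 k170 14 (.s k3 k171 13 (.s
  k169 k252 14 (.d k1 k2 k253 0 13)))))) (.c k169 (.q k4 [(.s k12 k8 1 (.s k166 k247 12 (.s k89 k243
  14 (.s k93 k81 1 (.d k255 k174 k170 12 14))))), (.s k84 k87 0 (.s k166 k247 12 (.s k6 k246 11 (.s
  k7 k5 0 (.d k244 k164 k165 11 12))))), (.s k12 k8 1 (.s k84 k87 0 (.s k164 k244 11 (.s k88 k240 13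
  (.s k92 k80 1 (.d k252 k172 k168 11 13))))))] .n) (.c k170 (.q k106 [(.s k87 k84 0 (.s k126 k66 5
  (.s k127 k64 6 (.s k67 k107 5 (.d k124 k125 k105 0 6))))), (.s k84 k87 0 (.s k126 k66 5 (.s k252
  k168 13 (.s k63 k189 8 (.s k149 k192 14 (.s k23 k212 8 (.d k3 k169 k43 14 5))))))), (.s k64 k127 6
  (.s k84 k87 0 (.s k192 k128 7 (.s k149 k63 14 (.s k212 k23 8 (.d k252 k232 k168 5 13)))))), (.s
  k64 k127 6 (.s k66 k126 5 (.s k192 k128 7 (.s k3 k129 8 (.s k1 k2 0 (.d k169 k253 k252 13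
  14))))))] .n) (.c k171 (.l (.s k84 k87 0 (.s k252 k168 13 (.s k3 k169 14 (.s k170 k255 14 (.d k2
  k1 k254 0 13)))))) (.c k252 (.q k5 [(.s k87 k84 0 (.s k165 k245 11 (.s k7 k244 12 (.s k4 k6 0 (.d
  k247 k167 k166 11 12))))), (.s k15 k10 2 (.s k165 k245 11 (.s k170 k255 14 (.s k160 k175 2 (.d
  k240 k80 k90 11 14))))), (.s k15 k10 2 (.s k87 k84 0 (.s k255 k170 14 (.s k3 k171 13 (.s k7 k11 1
  (.s k4 k6 0 (.d k247 k167 k166 11 12)))))))] .n) (.c k253 (.l (.s k84 k87 0 (.s k170 k255 14 (.s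
  k2 k254 13 (.s k252 k168 13 (.d k3 k1 k169 0 14)))))) (.c k255 (.q k207 [(.s k69 k138 10 (.s k84
  k87 0 (.s k101 k117 3 (.s k252 k168 13 (.s k222 k237 4 (.d k154 k48 k18 14 9)))))), (.s k69 k138
  10 (.s k87 k84 0 (.s k101 k117 3 (.s k71 k116 4 (.s k68 k70 0 (.d k119 k103 k102 3 4)))))), (.s
  k69 k138 10 (.s k84 k87 0 (.s k252 k168 13 (.s k3 k169 14 (.s k71 k139 9 (.s k68 k70 0 (.d k116
  k100 k101 3 4))))))), (.s k84 k87 0 (.s k252 k168 13 (.s k3 k169 14 (.s k71 k139 9 (.s k101 k116 4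
  (.s k154 k48 14 (.d k222 k237 k18 4 9))))))), (.s k69 k138 10 (.s k101 k117 3 (.s k71 k116 4 (.s
  k3 k139 9 (.s k1 k2 0 (.d k169 k253 k252 13 14))))))] (.c k101 (.q k2 [(.s k3 k1 0 (.s k84 k87 0
  (.d k252 k168 k169 13 14))), (.s k138 k69 10 (.s k170 k254 13 (.s k154 k186 3 (.s k18 k222 9 (.s
  k50 k34 3 (.d k206 k70 k102 9 13))))))] (.c k252 (.l (.s k3 k1 0 (.s k138 k69 10 (.s k70 k206 9
  (.s k137 k204 10 (.d k139 k136 k71 0 9)))))) .n)) .n)) .n))))))))))))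

def t42_234 : T TT 256 :=
  (.q k3 [(.s k1 k2 0 (.s k169 k253 13 (.s k86 k252 14 (.s k87 k84 0 (.d k255 k170 k171 14 13))))),
  (.s k2 k1 0 (.s k170 k255 14 (.s k86 k254 13 (.s k84 k87 0 (.d k252 k168 k169 13 14)))))] (.c k1
  (.f k255 k170 14 (.q k106 [(.s k64 k127 6 (.s k87 k171 13 (.s k86 k84 0 (.s k66 k126 5 (.d k192
  k128 k129 7 8))))), (.s k87 k171 13 (.s k127 k64 6 (.s k63 k191 7 (.s k23 k43 5 (.s k107 k67 5 (.d
  k151 k215 k195 7 13)))))), (.s k87 k171 13 (.s k86 k84 0 (.s k66 k126 5 (.s k169 k252 14 (.s k43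
  k232 8 (.s k63 k23 5 (.d k192 k129 k149 8 14))))))), (.s k64 k127 6 (.s k192 k128 7 (.s k66 k129 8
  (.s k86 k126 5 (.s k149 k63 14 (.s k212 k23 8 (.d k252 k232 k169 5 14)))))))] (.c k66 (.l (.s k87
  k171 13 (.s k86 k84 0 (.s k127 k64 6 (.s k63 k191 7 (.s k23 k43 5 (.d k149 k212 k192 8 14)))))))
  (.c k169 (.l (.s k64 k127 6 (.s k192 k128 7 (.s k66 k129 8 (.s k86 k126 5 (.d k87 k84 k171 0
  13)))))) .n)))) (.c k2 (.f k170 k255 14 (.q k192 [(.s k64 k128 7 (.s k106 k127 6 (.s k63 k149 14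
  (.s k43 k23 5 (.s k169 k232 8 (.s k168 k171 0 (.d k252 k86 k84 14 13))))))), (.s k64 k128 7 (.s
  k66 k129 8 (.s k65 k67 0 (.s k105 k125 5 (.s k40 k235 8 (.s k60 k20 5 (.d k195 k130 k150 8
  14))))))), (.s k64 k128 7 (.s k66 k129 8 (.s k106 k127 6 (.s k86 k126 5 (.s k84 k87 0 (.d k252
  k168 k169 13 14))))))] (.c k22 (.q k62 [(.s k64 k128 7 (.s k66 k129 8 (.s k65 k67 0 (.s k130 k195
  8 (.s k150 k190 5 (.d k106 k127 k194 6 13)))))), (.s k64 k128 7 (.s k106 k127 6 (.s k63 k149 14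
  (.s k60 k61 0 (.s k20 k40 5 (.d k150 k215 k194 8 13)))))), (.s k64 k128 7 (.s k66 k129 8 (.s k106
  k127 6 (.s k86 k126 5 (.s k84 k87 0 (.d k252 k168 k169 13 14))))))] (.c k64 (.q k1 [(.s k169 k253
  13 (.s k168 k171 0 (.d k252 k84 k86 13 14))), (.s k129 k66 8 (.s k65 k193 7 (.s k105 k125 5 (.s
  k40 k235 8 (.s k60 k20 5 (.d k195 k130 k150 8 14))))))] .n) (.c k106 (.l (.s k128 k64 7 (.s k129
  k66 8 (.s k149 k191 6 (.s k169 k189 5 (.s k168 k171 0 (.d k252 k86 k84 14 13))))))) (.c k127 (.l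
  (.s k128 k64 7 (.s k129 k66 8 (.s k130 k131 0 (.s k150 k190 5 (.s k106 k194 13 (.d k149 k191 k63 6
  14))))))) (.c k128 (.q k1 [(.s k169 k253 13 (.s k168 k171 0 (.d k252 k84 k86 13 14))), (.s k129
  k66 8 (.s k65 k193 7 (.s k105 k125 5 (.s k40 k235 8 (.s k60 k20 5 (.d k195 k130 k150 8 14))))))]
  .n) .n))))) (.c k62 (.q k22 [(.s k128 k64 7 (.s k149 k191 6 (.s k21 k213 7 (.s k23 k20 0 (.d k63
  k43 k106 5 14))))), (.s k60 k41 6 (.s k40 k20 5 (.s k105 k235 8 (.s k65 k125 5 (.d k195 k130 k150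
  8 14)))))] (.c k20 (.l (.s k60 k41 6 (.s k64 k128 7 (.s k66 k129 8 (.s k65 k67 0 (.s k105 k125 5
  (.d k195 k130 k150 8 14))))))) (.c k43 (.l (.s k60 k41 6 (.s k40 k20 5 (.s k105 k235 8 (.s k65
  k125 5 (.d k195 k130 k150 8 14)))))) .n))) (.c k64 (.f k66 k129 8 (.q k252 [(.s k84 k168 13 (.d
  k86 k87 k169 0 14)), (.s k86 k169 14 (.s k106 k126 5 (.s k149 k63 14 (.d k212 k232 k23 5 8)))),
  (.s k84 k168 13 (.s k212 k232 5 (.s k20 k148 7 (.s k150 k215 8 (.s k130 k190 5 (.s k195 k65 8 (.d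
  k60 k40 k105 5 14)))))))] (.c k22 (.q k62 [(.s k84 k168 13 (.d k86 k87 k169 0 14)), (.s k86 k169
  14 (.s k106 k126 5 (.s k149 k63 14 (.d k212 k232 k23 5 8))))] (.c k86 (.l (.s k84 k168 13 (.s k212
  k232 5 (.s k20 k148 7 (.s k150 k215 8 (.s k106 k194 13 (.s k63 k149 14 (.d k60 k40 k61 5 0))))))))
  (.c k169 (.l (.s k84 k168 13 (.s k86 k87 0 (.s k106 k126 5 (.s k149 k63 14 (.d k212 k232 k23 5
  8)))))) .n))) (.c k62 (.q k22 [(.s k84 k168 13 (.d k86 k87 k169 0 14)), (.s k60 k41 6 (.s k86 k169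
  14 (.s k150 k214 7 (.d k20 k40 k215 5 8)))), (.s k60 k41 6 (.s k40 k20 5 (.s k104 k148 13 (.d k168
  k84 k232 13 7))))] .n) .n)))) (.c k128 (.q k86 [(.s k84 k87 0 (.d k252 k168 k169 13 14)), (.s k66
  k129 8 (.s k106 k126 5 (.s k63 k149 14 (.s k43 k23 5 (.d k169 k232 k252 8 14))))), (.s k66 k129 8
  (.s k84 k87 0 (.s k106 k126 5 (.s k64 k127 6 (.s k67 k65 0 (.d k124 k104 k105 5 6))))))] (.c k22
  (.q k62 [(.s k84 k87 0 (.d k252 k168 k169 13 14)), (.s k66 k129 8 (.s k106 k126 5 (.s k63 k149 14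
  (.s k43 k23 5 (.d k169 k232 k252 8 14))))), (.s k66 k129 8 (.s k84 k87 0 (.s k106 k126 5 (.s k64
  k127 6 (.s k67 k65 0 (.d k124 k104 k105 5 6))))))] .n) (.c k62 (.q k22 [(.s k84 k87 0 (.d k252
  k168 k169 13 14)), (.s k60 k41 6 (.s k150 k214 7 (.d k20 k40 k215 5 8)))] .n) .n))) .n)))))) (.c
  k84 (.q k106 [(.s k1 k2 0 (.s k64 k127 6 (.s k169 k253 13 (.s k43 k232 8 (.s k63 k23 5 (.d k192
  k128 k149 7 14)))))), (.s k2 k1 0 (.s k64 k127 6 (.s k170 k255 14 (.s k192 k128 7 (.s k66 k129 8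
  (.d k86 k126 k254 5 13)))))), (.s k1 k2 0 (.s k169 k253 13 (.s k43 k232 8 (.s k63 k23 5 (.s k86
  k252 14 (.s k66 k126 5 (.d k192 k129 k149 8 14))))))), (.s k64 k127 6 (.s k192 k128 7 (.s k63 k149
  14 (.s k43 k23 5 (.s k66 k129 8 (.s k86 k126 5 (.d k169 k232 k252 8 14)))))))] (.c k63 (.l (.s k1
  k2 0 (.s k64 k127 6 (.s k169 k253 13 (.s k86 k252 14 (.s k192 k128 7 (.d k66 k126 k129 5 8)))))))
  (.c k192 (.l (.s k1 k2 0 (.s k127 k64 6 (.s k169 k253 13 (.s k43 k232 8 (.s k63 k23 5 (.d k255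
  k191 k170 7 14))))))) .n))) (.c k86 (.f k170 k255 14 (.q k192 [(.s k2 k1 0 (.s k64 k128 7 (.s k66
  k129 8 (.s k65 k67 0 (.d k130 k194 k195 7 8))))), (.s k1 k2 0 (.s k64 k128 7 (.s k106 k127 6 (.s
  k63 k149 14 (.s k169 k253 13 (.d k43 k23 k232 5 8)))))), (.s k64 k128 7 (.s k66 k129 8 (.s k65 k67
  0 (.s k105 k125 5 (.s k40 k235 8 (.s k60 k20 5 (.d k195 k130 k150 8 14))))))), (.s k1 k2 0 (.s
  k129 k66 8 (.s k65 k193 7 (.s k105 k125 5 (.s k40 k235 8 (.s k60 k20 5 (.d k195 k130 k150 8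
  14)))))))] .n)) (.c k87 (.l (.s k1 k2 0 (.s k169 k253 13 (.s k170 k255 14 (.s k168 k171 0 (.d k252
  k84 k86 13 14)))))) (.c k106 (.l (.s k170 k255 14 (.s k1 k2 0 (.s k169 k253 13 (.s k168 k171 0 (.d
  k252 k84 k86 13 14)))))) (.c k169 (.f k2 k1 0 (.f k170 k255 14 (.q k192 [(.s k64 k128 7 (.s k66
  k129 8 (.s k65 k67 0 (.d k130 k194 k195 7 8)))), (.s k86 k254 13 (.s k128 k64 7 (.s k149 k191 6
  (.s k23 k212 8 (.d k63 k43 k106 5 14))))), (.s k66 k129 8 (.s k130 k194 7 (.s k150 k190 5 (.s k20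
  k215 8 (.s k60 k40 5 (.d k195 k65 k105 8 14))))))] (.c k149 (.l (.s k64 k128 7 (.s k86 k254 13 (.s
  k106 k127 6 (.d k66 k126 k129 5 8))))) (.c k194 (.l (.s k64 k128 7 (.s k66 k129 8 (.s k106 k127 6
  (.d k86 k126 k254 5 13))))) .n))))) (.c k170 (.q k106 [(.s k1 k2 0 (.s k64 k127 6 (.s k169 k253 13
  (.s k43 k232 8 (.s k63 k23 5 (.d k192 k128 k149 7 14)))))), (.s k64 k127 6 (.s k192 k128 7 (.s k66
  k129 8 (.s k86 k126 5 (.s k84 k87 0 (.d k252 k168 k169 13 14)))))), (.s k1 k2 0 (.s k169 k253 13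
  (.s k43 k232 8 (.s k63 k23 5 (.s k86 k252 14 (.s k66 k126 5 (.d k192 k129 k149 8 14))))))), (.s k2
  k1 0 (.s k64 k127 6 (.s k192 k128 7 (.s k66 k129 8 (.s k65 k67 0 (.d k130 k194 k195 7 8))))))] (.c
  k149 (.l (.s k1 k2 0 (.s k64 k127 6 (.s k169 k253 13 (.s k86 k252 14 (.s k66 k126 5 (.d k192 k128
  k129 7 8))))))) (.c k192 (.f k1 k2 0 (.l (.s k64 k127 6 (.s k169 k253 13 (.s k86 k252 14 (.s k66
  k126 5 (.s k67 k65 0 (.s k84 k87 0 (.d k124 k104 k105 5 6))))))))) .n))) (.c k252 (.q k153 [(.s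
  k17 k221 9 (.s k51 k34 4 (.s k102 k204 14 (.s k119 k68 4 (.d k255 k170 k187 14 9))))), (.s k1 k2 0
  (.s k17 k221 9 (.s k49 k33 3 (.s k101 k205 13 (.s k117 k69 3 (.d k253 k185 k169 9 13)))))), (.s k1
  k2 0 (.s k169 k253 13 (.s k137 k185 3 (.s k204 k70 10 (.s k68 k136 9 (.d k102 k51 k119 14 4))))))]
  (.c k106 (.l (.s k170 k255 14 (.s k17 k221 9 (.s k51 k34 4 (.s k136 k187 4 (.d k204 k68 k102 9
  14)))))) (.c k170 (.q k106 [(.s k2 k1 0 (.s k17 k221 9 (.s k34 k51 4 (.s k18 k50 3 (.s k16 k19 0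
  (.d k48 k32 k33 3 4)))))), (.s k1 k2 0 (.s k64 k127 6 (.s k169 k253 13 (.s k43 k232 8 (.s k63 k23
  5 (.d k192 k128 k149 7 14)))))), (.s k17 k221 9 (.s k51 k34 4 (.s k59 k200 12 (.s k63 k55 1 (.s
  k64 k127 6 (.d k192 k128 k149 7 14))))))] .n) .n))) (.c k253 (.l (.s k2 k1 0 (.s k170 k255 14 (.s
  k86 k254 13 (.s k252 k169 14 (.d k84 k87 k168 0 13)))))) (.c k254 (.l (.s k1 k2 0 (.s k169 k253 13
  (.s k170 k255 14 (.s k252 k86 14 (.d k168 k171 k84 0 13)))))) (.c k255 (.q k192 [(.s k2 k1 0 (.s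
  k64 k128 7 (.s k66 k129 8 (.s k65 k67 0 (.d k130 k194 k195 7 8))))), (.s k1 k2 0 (.s k64 k128 7
  (.s k106 k127 6 (.s k63 k149 14 (.s k43 k23 5 (.d k169 k232 k253 8 13)))))), (.s k64 k128 7 (.s
  k66 k129 8 (.s k106 k127 6 (.s k86 k126 5 (.s k84 k87 0 (.d k252 k168 k169 13 14)))))), (.s k1 k2
  0 (.s k129 k66 8 (.s k169 k253 13 (.s k149 k189 5 (.s k21 k213 7 (.s k61 k41 5 (.d k193 k65 k105 7
  13)))))))] (.c k106 (.q k170 [(.s k1 k2 0 (.s k169 k253 13 (.s k168 k171 0 (.d k252 k84 k86 13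
  14)))), (.s k1 k2 0 (.s k128 k64 7 (.s k129 k66 8 (.s k65 k193 7 (.d k130 k131 k195 0 8))))), (.s
  k128 k64 7 (.s k129 k66 8 (.s k149 k191 6 (.s k169 k189 5 (.s k168 k171 0 (.d k252 k86 k84 14
  13))))))] (.c k86 (.l (.s k1 k2 0 (.s k128 k64 7 (.s k149 k191 6 (.s k169 k253 13 (.d k129 k189
  k66 5 8)))))) .n)) (.c k170 (.q k106 [(.d k64 k127 k128 6 7), (.s k1 k2 0 (.s k66 k129 8 (.s k86
  k126 5 (.d k169 k253 k252 13 14))))] .n) .n))) .n)))))))))))))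

def t42_235 : T TT 256 :=
  (.q k86 [(.s k84 k87 0 (.s k252 k168 13 (.s k169 k3 14 (.s k253 k1 13 (.d k255 k254 k170 0
  14)))))] (.c k1 (.q k4 [(.s k84 k87 0 (.s k166 k247 12 (.s k6 k246 11 (.s k7 k5 0 (.d k244 k164
  k165 11 12))))), (.s k12 k8 1 (.s k166 k247 12 (.s k89 k243 14 (.s k93 k81 1 (.d k255 k174 k170 12
  14))))), (.s k12 k8 1 (.s k84 k87 0 (.s k164 k244 11 (.s k88 k240 13 (.s k92 k80 1 (.d k252 k172
  k168 11 13))))))] .n) (.c k3 (.q k4 [(.s k87 k84 0 (.s k247 k166 12 (.s k7 k167 11 (.s k5 k6 0 (.d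
  k165 k245 k244 11 12))))), (.s k12 k8 1 (.s k166 k247 12 (.s k89 k243 14 (.s k93 k81 1 (.d k255
  k174 k170 12 14))))), (.s k12 k8 1 (.s k84 k87 0 (.s k164 k244 11 (.s k88 k240 13 (.s k92 k80 1
  (.d k252 k172 k168 11 13))))))] (.c k12 (.l (.s k84 k87 0 (.s k166 k247 12 (.s k6 k246 11 (.s k7
  k5 0 (.d k244 k164 k165 11 12)))))) .n)) (.c k84 (.q k4 [(.s k12 k8 1 (.s k166 k247 12 (.s k89
  k243 14 (.s k93 k81 1 (.d k255 k174 k170 12 14))))), (.s k166 k247 12 (.s k6 k246 11 (.s k5 k7 0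
  (.s k10 k15 2 (.s k2 k14 1 (.d k170 k254 k255 13 14)))))), (.s k12 k8 1 (.s k166 k247 12 (.s k6
  k246 11 (.s k3 k9 2 (.s k1 k2 0 (.d k169 k253 k252 13 14)))))), (.s k12 k8 1 (.s k170 k255 14 (.s
  k2 k254 13 (.s k3 k1 0 (.s k6 k9 2 (.s k5 k7 0 (.d k10 k14 k15 1 2)))))))] (.c k12 (.l (.s k166
  k247 12 (.s k6 k246 11 (.s k5 k7 0 (.s k10 k15 2 (.s k170 k255 14 (.d k2 k14 k254 1 13))))))) .n))
  (.c k87 (.q k4 [(.s k12 k8 1 (.s k166 k247 12 (.s k89 k243 14 (.s k93 k81 1 (.d k255 k174 k170 12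
  14))))), (.s k12 k8 1 (.s k166 k247 12 (.s k6 k246 11 (.s k3 k9 2 (.s k1 k2 0 (.d k169 k253 k252
  13 14)))))), (.s k166 k247 12 (.s k6 k246 11 (.s k170 k255 14 (.s k2 k254 13 (.s k10 k14 1 (.d k5
  k7 k15 0 2)))))), (.s k12 k8 1 (.s k170 k255 14 (.s k2 k254 13 (.s k3 k1 0 (.s k6 k9 2 (.s k10 k14
  1 (.d k5 k7 k15 0 2)))))))] (.c k7 (.l (.s k12 k8 1 (.s k255 k170 14 (.s k93 k174 12 (.s k89 k81 1
  (.d k166 k247 k243 12 14)))))) .n)) (.c k168 (.l (.s k87 k84 0 (.s k255 k170 14 (.s k3 k171 13 (.s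
  k169 k252 14 (.d k1 k2 k253 0 13)))))) (.c k169 (.q k4 [(.s k84 k87 0 (.s k166 k247 12 (.s k6 k246
  11 (.s k7 k5 0 (.d k244 k164 k165 11 12))))), (.s k12 k8 1 (.s k166 k247 12 (.s k89 k243 14 (.s
  k93 k81 1 (.d k255 k174 k170 12 14))))), (.s k12 k8 1 (.s k84 k87 0 (.s k164 k244 11 (.s k88 k240
  13 (.s k92 k80 1 (.d k252 k172 k168 11 13))))))] .n) (.c k170 (.f k84 k87 0 (.q k105 [(.s k124 k67
  6 (.s k64 k104 5 (.s k125 k65 5 (.d k127 k106 k126 6 0)))), (.s k65 k125 5 (.s k195 k130 8 (.s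
  k150 k60 14 (.s k214 k22 7 (.d k252 k233 k168 6 13))))), (.s k124 k67 6 (.s k252 k168 13 (.s k60
  k188 7 (.s k20 k40 5 (.d k150 k215 k195 8 14)))))] (.c k106 (.q k234 [(.s k65 k125 5 (.s k124 k67
  6 (.s k195 k130 8 (.s k252 k168 13 (.d k60 k150 k188 14 7))))), (.s k65 k125 5 (.s k195 k130 8 (.s
  k150 k60 14 (.s k214 k22 7 (.d k252 k233 k168 6 13))))), (.s k124 k67 6 (.s k104 k64 5 (.s k252
  k168 13 (.s k60 k188 7 (.s k20 k40 5 (.d k148 k212 k192 7 13)))))), (.s k65 k125 5 (.s k67 k124 6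
  (.s k66 k64 0 (.s k195 k130 8 (.s k3 k131 7 (.s k1 k2 0 (.d k129 k193 k192 7 8)))))))] (.c k65 (.l
  (.s k124 k67 6 (.s k252 k168 13 (.s k60 k188 7 (.s k20 k40 5 (.d k150 k215 k195 8 14)))))) .n))
  (.c k234 (.q k106 [(.s k64 k127 6 (.d k104 k107 k124 0 5)), (.s k65 k125 5 (.s k195 k130 8 (.s
  k150 k60 14 (.s k214 k22 7 (.d k252 k233 k168 6 13)))))] (.c k232 (.q k233 [(.s k64 k127 6 (.d
  k104 k107 k124 0 5)), (.s k169 k41 7 (.d k252 k168 k3 13 14))] .n) (.c k233 (.q k232 [(.s k64 k127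
  6 (.d k104 k107 k124 0 5)), (.s k252 k168 13 (.d k169 k43 k3 8 14))] .n) .n))) .n)))) (.c k171 (.l
  (.s k84 k87 0 (.s k252 k168 13 (.s k3 k169 14 (.s k170 k255 14 (.d k2 k1 k254 0 13)))))) (.c k252
  (.q k5 [(.s k87 k84 0 (.s k165 k245 11 (.s k7 k244 12 (.s k4 k6 0 (.d k247 k167 k166 11 12))))),
  (.s k15 k10 2 (.s k165 k245 11 (.s k170 k255 14 (.s k160 k175 2 (.d k240 k80 k90 11 14))))), (.s
  k15 k10 2 (.s k87 k84 0 (.s k255 k170 14 (.s k3 k171 13 (.s k7 k11 1 (.s k4 k6 0 (.d k247 k167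
  k166 11 12)))))))] .n) (.c k253 (.l (.s k84 k87 0 (.s k170 k255 14 (.s k2 k254 13 (.s k252 k168 13
  (.d k3 k1 k169 0 14)))))) (.c k254 (.l (.s k87 k84 0 (.s k255 k170 14 (.s k3 k171 13 (.s k1 k2 0
  (.d k169 k253 k252 13 14)))))) (.c k255 (.q k195 [(.s k65 k130 8 (.s k84 k87 0 (.s k105 k125 5 (.s
  k60 k150 14 (.s k252 k168 13 (.d k124 k67 k188 6 7)))))), (.s k84 k87 0 (.s k252 k168 13 (.s k214
  k233 6 (.s k150 k22 7 (.s k20 k215 8 (.d k60 k40 k105 5 14)))))), (.s k65 k130 8 (.s k87 k84 0 (.s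
  k105 k125 5 (.s k67 k124 6 (.s k64 k66 0 (.d k127 k107 k106 5 6)))))), (.s k65 k130 8 (.s k105
  k125 5 (.s k67 k124 6 (.s k3 k131 7 (.s k1 k2 0 (.d k169 k253 k252 13 14))))))] (.c k60 (.l (.s
  k65 k130 8 (.s k84 k87 0 (.s k252 k168 13 (.s k3 k169 14 (.s k67 k131 7 (.d k105 k125 k124 5
  6))))))) (.c k105 (.f k65 k130 8 (.l (.s k84 k87 0 (.s k252 k168 13 (.s k3 k169 14 (.s k1 k2 0 (.s
  k67 k131 7 (.s k66 k64 0 (.d k129 k193 k192 7 8))))))))) .n))) .n)))))))))))))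

def t42_239 : T TT 256 :=
  (.q k86 [(.s k84 k87 0 (.s k252 k168 13 (.s k169 k3 14 (.s k253 k1 13 (.d k255 k254 k170 0
  14)))))] (.c k1 (.q k4 [(.s k84 k87 0 (.s k166 k247 12 (.s k6 k246 11 (.s k7 k5 0 (.d k244 k164
  k165 11 12))))), (.s k12 k8 1 (.s k166 k247 12 (.s k89 k243 14 (.s k93 k81 1 (.d k255 k174 k170 12
  14))))), (.s k12 k8 1 (.s k84 k87 0 (.s k164 k244 11 (.s k88 k240 13 (.s k92 k80 1 (.d k252 k172
  k168 11 13))))))] .n) (.c k3 (.q k4 [(.s k87 k84 0 (.s k247 k166 12 (.s k7 k167 11 (.s k5 k6 0 (.d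
  k165 k245 k244 11 12))))), (.s k12 k8 1 (.s k166 k247 12 (.s k89 k243 14 (.s k93 k81 1 (.d k255
  k174 k170 12 14))))), (.s k12 k8 1 (.s k84 k87 0 (.s k164 k244 11 (.s k88 k240 13 (.s k92 k80 1
  (.d k252 k172 k168 11 13))))))] (.c k12 (.l (.s k84 k87 0 (.s k166 k247 12 (.s k6 k246 11 (.s k7
  k5 0 (.d k244 k164 k165 11 12)))))) .n)) (.c k84 (.q k4 [(.s k12 k8 1 (.s k166 k247 12 (.s k89
  k243 14 (.s k93 k81 1 (.d k255 k174 k170 12 14))))), (.s k166 k247 12 (.s k6 k246 11 (.s k5 k7 0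
  (.s k10 k15 2 (.s k2 k14 1 (.d k170 k254 k255 13 14)))))), (.s k12 k8 1 (.s k166 k247 12 (.s k6
  k246 11 (.s k3 k9 2 (.s k1 k2 0 (.d k169 k253 k252 13 14)))))), (.s k12 k8 1 (.s k170 k255 14 (.s
  k2 k254 13 (.s k3 k1 0 (.s k6 k9 2 (.s k5 k7 0 (.d k10 k14 k15 1 2)))))))] (.c k12 (.l (.s k166
  k247 12 (.s k6 k246 11 (.s k5 k7 0 (.s k10 k15 2 (.s k170 k255 14 (.d k2 k14 k254 1 13))))))) .n))
  (.c k87 (.q k4 [(.s k12 k8 1 (.s k166 k247 12 (.s k89 k243 14 (.s k93 k81 1 (.d k255 k174 k170 12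
  14))))), (.s k12 k8 1 (.s k166 k247 12 (.s k6 k246 11 (.s k3 k9 2 (.s k1 k2 0 (.d k169 k253 k252
  13 14)))))), (.s k166 k247 12 (.s k6 k246 11 (.s k170 k255 14 (.s k2 k254 13 (.s k10 k14 1 (.d k5
  k7 k15 0 2)))))), (.s k12 k8 1 (.s k170 k255 14 (.s k2 k254 13 (.s k3 k1 0 (.s k6 k9 2 (.s k10 k14
  1 (.d k5 k7 k15 0 2)))))))] (.c k7 (.l (.s k12 k8 1 (.s k255 k170 14 (.s k93 k174 12 (.s k89 k81 1
  (.d k166 k247 k243 12 14)))))) .n)) (.c k168 (.l (.s k87 k84 0 (.s k255 k170 14 (.s k3 k171 13 (.s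
  k169 k252 14 (.d k1 k2 k253 0 13)))))) (.c k169 (.q k4 [(.s k84 k87 0 (.s k166 k247 12 (.s k6 k246
  11 (.s k7 k5 0 (.d k244 k164 k165 11 12))))), (.s k12 k8 1 (.s k166 k247 12 (.s k89 k243 14 (.s
  k93 k81 1 (.d k255 k174 k170 12 14))))), (.s k12 k8 1 (.s k84 k87 0 (.s k164 k244 11 (.s k88 k240
  13 (.s k92 k80 1 (.d k252 k172 k168 11 13))))))] .n) (.c k170 (.f k84 k87 0 (.q k101 [(.s k116 k71
  4 (.s k68 k100 3 (.s k117 k69 3 (.d k119 k118 k102 0 4)))), (.s k69 k117 3 (.s k207 k138 10 (.s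
  k154 k48 14 (.s k222 k18 9 (.d k252 k237 k168 4 13))))), (.s k116 k71 4 (.s k252 k168 13 (.s k48
  k184 9 (.s k16 k32 3 (.d k154 k223 k207 10 14)))))] (.c k106 (.q k234 [(.s k116 k71 4 (.s k68 k100
  3 (.s k117 k69 3 (.d k119 k118 k102 0 4)))), (.s k69 k117 3 (.s k207 k138 10 (.s k154 k48 14 (.s
  k222 k18 9 (.d k252 k237 k168 4 13))))), (.s k116 k71 4 (.s k252 k168 13 (.s k48 k184 9 (.s k16
  k32 3 (.d k154 k223 k207 10 14)))))] .n) (.c k234 (.q k106 [(.s k116 k71 4 (.s k68 k100 3 (.s k117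
  k69 3 (.d k119 k118 k102 0 4)))), (.s k64 k127 6 (.s k66 k126 5 (.s k67 k65 0 (.d k124 k104 k105 5
  6))))] (.c k224 (.q k229 [(.s k116 k71 4 (.s k68 k100 3 (.s k117 k69 3 (.d k119 k118 k102 0 4)))),
  (.s k64 k127 6 (.s k66 k126 5 (.s k67 k65 0 (.d k124 k104 k105 5 6))))] .n) (.c k229 (.q k224 [(.s
  k116 k71 4 (.s k68 k100 3 (.s k117 k69 3 (.d k119 k118 k102 0 4)))), (.s k64 k127 6 (.s k66 k126 5
  (.s k67 k65 0 (.d k124 k104 k105 5 6))))] .n) .n))) .n)))) (.c k171 (.l (.s k84 k87 0 (.s k252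
  k168 13 (.s k3 k169 14 (.s k170 k255 14 (.d k2 k1 k254 0 13)))))) (.c k252 (.q k5 [(.s k87 k84 0
  (.s k165 k245 11 (.s k7 k244 12 (.s k4 k6 0 (.d k247 k167 k166 11 12))))), (.s k15 k10 2 (.s k165
  k245 11 (.s k170 k255 14 (.s k160 k175 2 (.d k240 k80 k90 11 14))))), (.s k15 k10 2 (.s k87 k84 0
  (.s k255 k170 14 (.s k3 k171 13 (.s k7 k11 1 (.s k4 k6 0 (.d k247 k167 k166 11 12)))))))] .n) (.c
  k253 (.l (.s k84 k87 0 (.s k170 k255 14 (.s k2 k254 13 (.s k252 k168 13 (.d k3 k1 k169 0 14))))))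
  (.c k254 (.l (.s k87 k84 0 (.s k255 k170 14 (.s k3 k171 13 (.s k1 k2 0 (.d k169 k253 k252 13
  14)))))) (.c k255 (.q k207 [(.s k69 k138 10 (.s k84 k87 0 (.s k101 k117 3 (.s k48 k154 14 (.s k252
  k168 13 (.d k116 k71 k184 4 9)))))), (.s k84 k87 0 (.s k252 k168 13 (.s k222 k237 4 (.s k154 k18 9
  (.s k16 k223 10 (.d k48 k32 k101 3 14)))))), (.s k69 k138 10 (.s k87 k84 0 (.s k101 k117 3 (.s k71
  k116 4 (.s k68 k70 0 (.d k119 k103 k102 3 4)))))), (.s k69 k138 10 (.s k101 k117 3 (.s k71 k116 4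
  (.s k3 k139 9 (.s k1 k2 0 (.d k169 k253 k252 13 14))))))] (.c k48 (.l (.s k69 k138 10 (.s k84 k87
  0 (.s k252 k168 13 (.s k3 k169 14 (.s k71 k139 9 (.d k101 k117 k116 3 4))))))) (.c k101 (.f k69
  k138 10 (.l (.s k84 k87 0 (.s k252 k168 13 (.s k3 k169 14 (.s k1 k2 0 (.s k71 k139 9 (.s k70 k68 0
  (.d k137 k205 k204 9 10))))))))) .n))) .n)))))))))))))

def t43_46 : T TT 256 :=
  (.f k255 k170 14 (.q k165 [(.s k5 k245 11 (.s k15 k10 2 (.s k90 k240 14 (.d k95 k80 k175 2 11))))]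
  (.c k5 (.q k84 [(.s k86 k87 0 (.s k252 k168 13 (.s k253 k254 0 (.d k169 k1 k3 13 14)))), (.s k86
  k87 0 (.s k244 k7 12 (.s k4 k164 11 (.s k12 k8 1 (.s k93 k174 12 (.s k89 k81 1 (.d k166 k247 k243
  12 14)))))))] (.c k86 (.f k252 k168 13 (.q k169 [(.d k253 k254 k1 0 13), (.s k173 k161 1 (.s k15
  k94 12 (.s k90 k240 14 (.d k95 k80 k175 2 11))))] (.c k2 (.l (.s k254 k253 0 (.s k173 k161 1 (.s
  k15 k94 12 (.s k90 k240 14 (.d k95 k80 k175 2 11)))))) (.c k254 (.q k2 [(.d k1 k3 k253 0 13), (.s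
  k173 k161 1 (.s k15 k94 12 (.s k95 k175 11 (.d k90 k80 k240 2 14))))] .n) .n)))) (.c k87 (.l (.s
  k252 k168 13 (.s k253 k254 0 (.s k169 k1 13 (.s k173 k161 1 (.s k15 k94 12 (.s k90 k240 14 (.d k95
  k80 k175 2 11)))))))) .n))) (.c k10 (.l (.s k245 k5 11 (.s k240 k250 2 (.s k90 k15 14 (.d k80 k95
  k160 2 11))))) (.c k15 (.q k1 [(.s k5 k245 11 (.s k13 k9 1 (.s k89 k241 13 (.s k93 k81 1 (.d k253
  k173 k169 11 13))))), (.s k3 k2 0 (.s k87 k171 13 (.s k86 k84 0 (.d k169 k253 k252 13 14)))), (.s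
  k3 k2 0 (.s k245 k5 11 (.s k240 k250 2 (.s k160 k80 11 (.s k161 k82 12 (.s k81 k241 11 (.d k162
  k163 k243 0 12)))))))] .n) (.c k80 (.q k1 [(.s k3 k2 0 (.s k169 k253 13 (.s k86 k252 14 (.d k87
  k84 k171 0 13)))), (.s k5 k245 11 (.s k13 k9 1 (.s k89 k241 13 (.s k93 k81 1 (.d k253 k173 k169 11
  13))))), (.s k3 k2 0 (.s k5 k245 11 (.s k9 k13 1 (.s k6 k12 2 (.s k7 k4 0 (.d k15 k11 k10 1
  2))))))] .n) (.c k90 (.f k245 k5 11 (.q k229 [(.s k101 k37 7 (.s k117 k69 3 (.s k53 k181 7 (.d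
  k197 k213 k149 3 11)))), (.s k101 k37 7 (.s k69 k117 3 (.s k207 k138 10 (.d k240 k250 k218 2
  6)))), (.s k213 k197 3 (.s k192 k234 6 (.s k64 k128 7 (.s k106 k127 6 (.d k149 k21 k63 7 14)))))]
  (.c k10 (.l (.s k250 k240 2 (.s k101 k37 7 (.s k117 k69 3 (.s k53 k181 7 (.d k197 k213 k149 3
  11)))))) (.c k21 (.l (.s k197 k213 3 (.s k101 k37 7 (.s k53 k149 11 (.d k117 k69 k181 3 7))))) (.c
  k69 (.l (.s k101 k37 7 (.s k197 k213 3 (.s k53 k149 11 (.s k117 k181 7 (.s k48 k186 10 (.s k16 k32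
  3 (.d k154 k223 k207 10 14)))))))) (.c k250 (.q k10 [(.s k101 k37 7 (.s k117 k69 3 (.s k53 k181 7
  (.d k197 k213 k149 3 11)))), (.s k213 k197 3 (.s k192 k234 6 (.s k64 k128 7 (.s k106 k127 6 (.d
  k149 k21 k63 7 14))))), (.s k101 k37 7 (.s k69 k117 3 (.s k207 k138 10 (.s k154 k48 14 (.d k223
  k239 k16 3 10)))))] (.c k21 (.l (.s k197 k213 3 (.s k101 k37 7 (.s k53 k149 11 (.d k117 k69 k181 3
  7))))) (.c k69 (.l (.s k101 k37 7 (.s k197 k213 3 (.s k53 k149 11 (.s k117 k181 7 (.s k48 k186 10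
  (.s k16 k32 3 (.d k154 k223 k207 10 14)))))))) .n))) .n)))))) (.c k95 (.q k1 [(.s k3 k2 0 (.s k169
  k253 13 (.s k86 k252 14 (.d k87 k84 k171 0 13)))), (.s k5 k245 11 (.s k13 k9 1 (.s k89 k241 13 (.s
  k93 k81 1 (.d k253 k173 k169 11 13))))), (.s k3 k2 0 (.s k5 k245 11 (.s k9 k13 1 (.s k6 k12 2 (.s
  k7 k4 0 (.d k15 k11 k10 1 2))))))] .n) (.c k175 (.l (.s k245 k5 11 (.s k240 k250 2 (.s k80 k160 11
  (.d k90 k95 k15 2 14))))) (.c k240 (.q k1 [(.s k3 k2 0 (.s k169 k253 13 (.s k86 k252 14 (.d k87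
  k84 k171 0 13)))), (.s k5 k245 11 (.s k13 k9 1 (.s k89 k241 13 (.s k93 k81 1 (.d k253 k173 k169 11
  13))))), (.s k3 k2 0 (.s k5 k245 11 (.s k9 k13 1 (.s k6 k12 2 (.s k7 k4 0 (.d k15 k11 k10 1
  2))))))] .n) (.c k245 (.q k81 [(.s k89 k93 1 (.s k243 k162 12 (.s k247 k251 1 (.d k166 k4 k12 12
  14)))), (.s k89 k93 1 (.s k241 k13 13 (.s k1 k161 11 (.s k3 k2 0 (.s k87 k171 13 (.s k86 k84 0 (.d
  k169 k253 k252 13 14)))))))] (.c k89 (.f k243 k162 12 (.q k166 [(.d k247 k251 k4 1 12), (.s k167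
  k164 0 (.s k15 k91 13 (.s k90 k240 14 (.d k95 k80 k175 2 11))))] (.c k8 (.l (.s k251 k247 1 (.s
  k167 k164 0 (.s k15 k91 13 (.s k90 k240 14 (.d k95 k80 k175 2 11)))))) (.c k251 (.q k8 [(.d k4 k12
  k247 1 12), (.s k167 k164 0 (.s k15 k91 13 (.s k95 k175 11 (.d k90 k80 k240 2 14))))] .n) .n))))
  (.c k93 (.l (.s k243 k162 12 (.s k247 k251 1 (.s k166 k4 12 (.s k167 k164 0 (.s k15 k91 13 (.s k90
  k240 14 (.d k95 k80 k175 2 11)))))))) .n))) (.c k250 (.l (.s k5 k245 11 (.s k15 k10 2 (.s k90 k240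
  14 (.d k95 k80 k175 2 11))))) .n))))))))))))

def t43_47 : T TT 256 :=
  (.q k102 [(.s k68 k119 4 (.s k204 k136 9 (.s k153 k51 14 (.s k221 k17 9 (.d k255 k238 k170 4
  14)))))] (.c k17 (.f k255 k170 14 (.q k169 [(.s k1 k253 13 (.s k3 k2 0 (.s k86 k252 14 (.d k87 k84
  k171 0 13)))), (.s k1 k253 13 (.s k35 k236 10 (.s k119 k68 4 (.s k51 k187 9 (.d k3 k2 k19 0
  3))))), (.s k35 k236 10 (.s k119 k68 4 (.s k51 k187 9 (.s k3 k19 3 (.s k86 k252 14 (.d k87 k84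
  k171 0 13))))))] (.c k3 (.l (.s k68 k119 4 (.s k204 k136 9 (.s k253 k1 13 (.s k252 k254 0 (.d k236
  k220 k35 3 10)))))) (.c k35 (.q k39 [(.s k1 k253 13 (.s k3 k2 0 (.s k86 k252 14 (.d k87 k84 k171 0
  13)))), (.s k119 k68 4 (.s k51 k187 9 (.s k15 k27 5 (.s k5 k10 2 (.d k165 k228 k245 8 11)))))] .n)
  (.c k39 (.l (.s k35 k236 10 (.s k1 k253 13 (.s k3 k2 0 (.s k51 k19 3 (.d k119 k68 k187 4 9))))))
  .n))))) (.c k35 (.q k39 [(.s k119 k68 4 (.s k255 k170 14 (.s k51 k187 9 (.s k153 k204 14 (.d k17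
  k34 k221 4 9))))), (.s k165 k228 8 (.s k5 k245 11 (.s k15 k10 2 (.s k90 k240 14 (.s k95 k80 2 (.d
  k255 k175 k170 11 14)))))), (.s k68 k119 4 (.s k165 k228 8 (.s k5 k245 11 (.s k15 k10 2 (.s k51
  k27 5 (.d k204 k136 k153 9 14))))))] (.c k204 (.l (.s k119 k68 4 (.s k165 k228 8 (.s k5 k245 11
  (.s k15 k10 2 (.s k51 k27 5 (.d k255 k187 k170 9 14))))))) .n)) (.c k39 (.q k35 [(.s k119 k68 4
  (.s k255 k170 14 (.s k51 k187 9 (.s k153 k204 14 (.d k17 k34 k221 4 9))))), (.s k169 k236 10 (.s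
  k1 k253 13 (.s k3 k2 0 (.s k86 k252 14 (.s k87 k84 0 (.d k255 k171 k170 13 14)))))), (.s k68 k119
  4 (.s k169 k236 10 (.s k1 k253 13 (.s k3 k2 0 (.s k51 k19 3 (.d k204 k136 k153 9 14))))))] (.c
  k204 (.l (.s k119 k68 4 (.s k169 k236 10 (.s k1 k253 13 (.s k3 k2 0 (.s k51 k19 3 (.d k255 k187
  k170 9 14))))))) .n)) (.c k51 (.f k119 k68 4 (.f k170 k255 14 (.q k35 [(.s k169 k236 10 (.s k1
  k253 13 (.s k3 k2 0 (.s k168 k171 0 (.d k252 k84 k86 13 14))))), (.s k34 k238 9 (.s k32 k33 0 (.s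
  k48 k16 3 (.s k101 k239 10 (.s k69 k117 3 (.d k207 k138 k154 10 14))))))] (.c k236 (.f k34 k238 9
  (.l (.s k32 k33 0 (.s k16 k48 3 (.s k154 k223 10 (.s k50 k206 13 (.s k186 k138 3 (.s k254 k118 9
  (.d k2 k18 k86 3 13))))))))) .n)))) (.c k68 (.q k35 [(.s k169 k236 10 (.s k1 k253 13 (.s k3 k2 0
  (.s k51 k19 3 (.s k17 k34 4 (.d k153 k221 k204 9 14)))))), (.s k170 k255 14 (.s k34 k238 9 (.s k32
  k33 0 (.s k48 k16 3 (.s k101 k239 10 (.s k69 k117 3 (.d k207 k138 k154 10 14))))))), (.s k169 k236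
  10 (.s k1 k253 13 (.s k3 k2 0 (.s k86 k252 14 (.s k87 k84 0 (.d k255 k171 k170 13 14))))))] (.c
  k204 (.l (.s k169 k236 10 (.s k1 k253 13 (.s k3 k2 0 (.s k51 k19 3 (.s k34 k17 4 (.d k170 k238
  k255 9 14))))))) (.c k236 (.l (.s k170 k255 14 (.s k34 k238 9 (.s k33 k32 0 (.s k51 k17 4 (.s k3
  k19 3 (.s k2 k1 0 (.d k18 k50 k48 3 4)))))))) .n))) (.c k119 (.q k35 [(.s k169 k236 10 (.s k1 k253
  13 (.s k3 k2 0 (.s k51 k19 3 (.s k17 k34 4 (.d k153 k221 k204 9 14)))))), (.s k170 k255 14 (.s k34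
  k238 9 (.s k32 k33 0 (.s k48 k16 3 (.s k101 k239 10 (.s k69 k117 3 (.d k207 k138 k154 10
  14))))))), (.s k169 k236 10 (.s k1 k253 13 (.s k3 k2 0 (.s k86 k252 14 (.s k87 k84 0 (.d k255 k171
  k170 13 14))))))] (.c k204 (.l (.s k169 k236 10 (.s k1 k253 13 (.s k3 k2 0 (.s k51 k19 3 (.s k34
  k17 4 (.d k170 k238 k255 9 14))))))) (.c k236 (.l (.s k170 k255 14 (.s k34 k238 9 (.s k33 k32 0
  (.s k51 k17 4 (.s k3 k19 3 (.s k2 k1 0 (.d k18 k50 k48 3 4)))))))) .n))) (.c k136 (.l (.s k119 k68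
  4 (.s k255 k170 14 (.s k51 k187 9 (.s k153 k204 14 (.d k17 k34 k221 4 9)))))) (.c k153 (.q k35
  [(.s k119 k68 4 (.s k169 k236 10 (.s k1 k253 13 (.s k3 k2 0 (.s k51 k19 3 (.d k255 k187 k170 9
  14)))))), (.s k170 k255 14 (.s k34 k238 9 (.s k32 k33 0 (.s k48 k16 3 (.s k101 k239 10 (.s k69
  k117 3 (.d k207 k138 k154 10 14)))))))] (.c k170 (.l (.s k68 k119 4 (.s k169 k236 10 (.s k1 k253
  13 (.s k3 k2 0 (.s k86 k252 14 (.s k70 k118 3 (.d k204 k136 k137 9 10)))))))) (.c k236 (.l (.s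
  k170 k255 14 (.s k34 k238 9 (.s k33 k32 0 (.s k51 k17 4 (.s k3 k19 3 (.s k2 k1 0 (.d k18 k50 k48 3
  4)))))))) (.c k255 (.l (.s k68 k119 4 (.s k169 k236 10 (.s k1 k253 13 (.s k3 k2 0 (.s k204 k136 9
  (.s k70 k137 10 (.d k86 k252 k118 14 3)))))))) .n)))) (.c k170 (.f k68 k119 4 (.q k169 [(.s k1
  k253 13 (.s k3 k2 0 (.s k35 k236 10 (.s k51 k19 3 (.d k204 k136 k153 9 14))))), (.s k1 k253 13 (.s
  k204 k136 9 (.s k153 k51 14 (.s k17 k221 9 (.s k49 k33 3 (.s k137 k185 3 (.d k205 k69 k101 9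
  13))))))), (.s k1 k253 13 (.s k3 k2 0 (.s k86 k252 14 (.s k70 k118 3 (.s k71 k69 0 (.s k84 k87 0
  (.d k116 k100 k101 3 4))))))), (.s k204 k136 9 (.s k153 k51 14 (.s k137 k185 3 (.s k3 k70 10 (.s
  k252 k86 14 (.d k236 k35 k220 10 3))))))] (.c k35 (.q k39 [(.s k165 k228 8 (.s k5 k245 11 (.s k15
  k10 2 (.s k51 k27 5 (.d k204 k136 k153 9 14))))), (.s k1 k253 13 (.s k3 k2 0 (.s k86 k252 14 (.s
  k70 k118 3 (.s k69 k71 0 (.d k137 k205 k204 9 10)))))), (.s k1 k253 13 (.s k165 k228 8 (.s k5 k245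
  11 (.s k13 k9 1 (.s k161 k173 1 (.d k241 k81 k89 11 13))))))] .n) (.c k39 (.l (.s k35 k236 10 (.s
  k1 k253 13 (.s k3 k2 0 (.s k51 k19 3 (.d k204 k136 k153 9 14)))))) (.c k51 (.l (.s k1 k253 13 (.s
  k3 k2 0 (.s k86 k252 14 (.s k204 k136 9 (.d k70 k118 k137 3 10)))))) .n))))) (.c k187 (.l (.s k68
  k119 4 (.s k204 k136 9 (.s k51 k153 14 (.s k170 k255 14 (.d k34 k17 k238 4 9)))))) (.c k204 (.f
  k255 k170 14 (.q k169 [(.s k253 k1 13 (.s k252 k254 0 (.s k84 k168 13 (.d k86 k87 k3 0 14)))), (.s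
  k35 k236 10 (.s k119 k68 4 (.s k51 k187 9 (.s k3 k19 3 (.s k87 k171 13 (.d k86 k252 k84 14
  0)))))), (.s k119 k68 4 (.s k51 k187 9 (.s k17 k34 4 (.s k153 k221 9 (.s k253 k1 13 (.s k252 k254
  0 (.d k185 k137 k118 3 10)))))))] (.c k35 (.q k39 [(.s k253 k1 13 (.s k252 k254 0 (.s k84 k168 13
  (.d k86 k87 k3 0 14)))), (.s k119 k68 4 (.s k51 k187 9 (.s k15 k27 5 (.s k5 k10 2 (.d k165 k228
  k245 8 11)))))] .n) (.c k39 (.l (.s k35 k236 10 (.s k1 k253 13 (.s k3 k2 0 (.s k51 k19 3 (.d k119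
  k68 k187 4 9)))))) (.c k86 (.l (.s k1 k253 13 (.s k35 k236 10 (.s k119 k68 4 (.s k51 k187 9 (.d k3
  k2 k19 0 3)))))) (.c k252 (.l (.s k1 k253 13 (.s k3 k2 0 (.s k119 k68 4 (.s k51 k187 9 (.d k35 k19
  k236 3 10)))))) .n)))))) (.c k221 (.l (.s k68 k119 4 (.s k170 k255 14 (.s k34 k238 9 (.s k204 k136
  9 (.d k51 k17 k153 4 14)))))) (.c k238 (.l (.s k119 k68 4 (.s k255 k170 14 (.s k51 k187 9 (.s k17
  k34 4 (.d k153 k221 k204 9 14)))))) (.c k255 (.f k68 k119 4 (.f k204 k136 9 (.f k51 k153 14 (.q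
  k35 [(.s k3 k19 3 (.s k1 k2 0 (.d k169 k236 k253 10 13))), (.s k34 k17 4 (.s k32 k33 0 (.s k236
  k169 10 (.s k100 k168 9 (.d k48 k152 k16 13 3))))), (.s k3 k19 3 (.s k2 k1 0 (.s k34 k17 4 (.s k18
  k50 3 (.d k33 k32 k48 0 4)))))] (.c k1 (.l (.s k3 k19 3 (.s k70 k137 10 (.s k86 k118 3 (.d k169
  k236 k252 10 14))))) (.c k170 (.q k187 [(.s k3 k19 3 (.s k1 k2 0 (.d k169 k236 k253 10 13))), (.s
  k34 k17 4 (.s k32 k33 0 (.s k236 k169 10 (.s k168 k100 9 (.d k252 k220 k84 3 13))))), (.s k3 k19 3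
  (.s k2 k1 0 (.s k34 k17 4 (.s k18 k50 3 (.d k33 k32 k48 0 4)))))] (.c k1 (.l (.s k3 k19 3 (.s k70
  k137 10 (.s k86 k118 3 (.d k169 k236 k252 10 14))))) (.c k220 (.l (.s k169 k236 10 (.s k1 k253 13
  (.d k3 k2 k19 0 3)))) .n))) (.c k187 (.q k170 [(.d k34 k17 k238 4 9), (.s k3 k19 3 (.s k1 k2 0 (.d
  k169 k236 k253 10 13)))] .n) .n))))))) .n)))))))))))))))

def t43_62 : T TT 256 :=
  (.f k255 k170 14 (.q k165 [(.s k5 k245 11 (.s k15 k10 2 (.s k90 k240 14 (.d k95 k80 k175 2 11))))]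
  (.c k5 (.q k93 [(.s k89 k81 1 (.s k12 k174 12 (.s k166 k243 14 (.d k4 k8 k247 1 12)))), (.s k89
  k81 1 (.s k13 k241 13 (.s k253 k173 11 (.s k252 k254 0 (.s k84 k168 13 (.s k86 k87 0 (.d k169 k1
  k3 13 14)))))))] (.c k81 (.l (.s k12 k174 12 (.s k4 k8 1 (.s k166 k247 12 (.s k164 k167 0 (.s k240
  k88 13 (.s k80 k160 11 (.d k90 k95 k15 2 14)))))))) (.c k89 (.f k12 k174 12 (.q k166 [(.d k4 k8
  k247 1 12), (.s k164 k167 0 (.s k240 k88 13 (.s k80 k160 11 (.d k90 k95 k15 2 14))))] (.c k8 (.q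
  k251 [(.d k247 k243 k4 1 12), (.s k164 k167 0 (.s k240 k88 13 (.s k80 k160 11 (.d k90 k95 k15 2
  14))))] .n) (.c k251 (.l (.s k8 k4 1 (.s k164 k167 0 (.s k240 k88 13 (.s k80 k160 11 (.d k90 k95
  k15 2 14)))))) .n)))) .n))) (.c k10 (.l (.s k245 k5 11 (.s k240 k250 2 (.s k90 k15 14 (.d k80 k95
  k160 2 11))))) (.c k15 (.q k1 [(.s k5 k245 11 (.s k13 k9 1 (.s k89 k241 13 (.s k93 k81 1 (.d k253
  k173 k169 11 13))))), (.s k3 k2 0 (.s k87 k171 13 (.s k86 k84 0 (.d k169 k253 k252 13 14)))), (.s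
  k3 k2 0 (.s k245 k5 11 (.s k240 k250 2 (.s k160 k80 11 (.s k161 k82 12 (.s k81 k241 11 (.d k162
  k163 k243 0 12)))))))] .n) (.c k80 (.q k1 [(.s k3 k2 0 (.s k169 k253 13 (.s k86 k252 14 (.d k87
  k84 k171 0 13)))), (.s k5 k245 11 (.s k13 k9 1 (.s k89 k241 13 (.s k93 k81 1 (.d k253 k173 k169 11
  13))))), (.s k3 k2 0 (.s k5 k245 11 (.s k9 k13 1 (.s k6 k12 2 (.s k7 k4 0 (.d k15 k11 k10 1
  2))))))] .n) (.c k90 (.f k245 k5 11 (.f k250 k240 2 (.q k81 [(.s k89 k93 1 (.s k241 k13 13 (.s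
  k253 k249 1 (.d k1 k161 k169 11 13)))), (.s k89 k93 1 (.s k243 k162 12 (.s k166 k12 14 (.d k247
  k251 k4 1 12)))), (.s k243 k162 12 (.s k251 k247 1 (.s k249 k248 0 (.s k252 k246 2 (.d k253 k254
  k241 0 1)))))] .n))) (.c k95 (.q k1 [(.s k5 k245 11 (.s k13 k9 1 (.s k89 k241 13 (.s k93 k81 1 (.d
  k253 k173 k169 11 13))))), (.s k3 k2 0 (.s k87 k171 13 (.s k86 k84 0 (.d k169 k253 k252 13 14)))),
  (.s k3 k2 0 (.s k5 k245 11 (.s k9 k13 1 (.s k6 k12 2 (.s k7 k4 0 (.d k15 k11 k10 1 2))))))] .n)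
  (.c k175 (.l (.s k245 k5 11 (.s k240 k250 2 (.s k80 k160 11 (.d k90 k95 k15 2 14))))) (.c k240 (.q
  k1 [(.s k5 k245 11 (.s k13 k9 1 (.s k89 k241 13 (.s k93 k81 1 (.d k253 k173 k169 11 13))))), (.s
  k3 k2 0 (.s k87 k171 13 (.s k86 k84 0 (.d k169 k253 k252 13 14)))), (.s k3 k2 0 (.s k5 k245 11 (.s
  k9 k13 1 (.s k6 k12 2 (.s k7 k4 0 (.d k15 k11 k10 1 2))))))] .n) (.c k245 (.q k247 [(.s k166 k4 12
  (.s k243 k251 1 (.s k81 k162 12 (.d k89 k93 k12 1 14)))), (.s k166 k4 12 (.s k167 k164 0 (.s k87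
  k7 11 (.s k3 k171 13 (.s k1 k2 0 (.s k169 k253 13 (.d k86 k84 k252 0 14)))))))] (.c k4 (.l (.s
  k243 k251 1 (.s k81 k162 12 (.s k89 k93 1 (.s k241 k13 13 (.s k240 k242 0 (.s k80 k160 11 (.d k90
  k95 k15 2 14)))))))) (.c k166 (.f k243 k251 1 (.q k89 [(.d k81 k162 k93 12 1), (.s k241 k13 13 (.s
  k240 k242 0 (.s k80 k160 11 (.d k90 k95 k15 2 14))))] (.c k162 (.q k174 [(.d k93 k81 k12 1 12),
  (.s k241 k13 13 (.s k240 k242 0 (.s k80 k160 11 (.d k90 k95 k15 2 14))))] .n) (.c k174 (.l (.s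
  k162 k81 12 (.s k241 k13 13 (.s k240 k242 0 (.s k80 k160 11 (.d k90 k95 k15 2 14)))))) .n))))
  .n))) (.c k250 (.l (.s k5 k245 11 (.s k15 k10 2 (.s k90 k240 14 (.d k95 k80 k175 2 11)))))
  .n))))))))))))

def t43_63 : T TT 256 :=
  (.q k3 [(.s k1 k2 0 (.s k169 k253 13 (.s k86 k252 14 (.s k87 k84 0 (.d k255 k171 k170 13 14))))),
  (.s k1 k2 0 (.s k169 k253 13 (.s k170 k255 14 (.s k168 k171 0 (.d k252 k84 k86 13 14)))))] (.c k1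
  (.q k5 [(.s k15 k10 2 (.s k165 k245 11 (.s k90 k240 14 (.s k95 k80 2 (.d k255 k175 k170 11
  14))))), (.s k165 k245 11 (.s k255 k170 14 (.s k87 k171 13 (.s k86 k84 0 (.s k7 k244 12 (.s k4 k6
  0 (.d k247 k167 k166 11 12))))))), (.s k15 k10 2 (.s k7 k11 1 (.s k4 k6 0 (.s k247 k166 12 (.s
  k255 k170 14 (.d k87 k167 k171 11 13)))))), (.s k15 k10 2 (.s k7 k11 1 (.s k165 k245 11 (.s k86
  k244 12 (.s k84 k87 0 (.d k252 k168 k169 13 14))))))] .n) (.c k2 (.q k5 [(.s k165 k245 11 (.s k170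
  k255 14 (.s k160 k175 2 (.s k240 k80 11 (.d k15 k10 k90 2 14))))), (.s k15 k10 2 (.s k7 k11 1 (.s
  k165 k245 11 (.s k86 k244 12 (.s k84 k87 0 (.d k252 k168 k169 13 14)))))), (.s k165 k245 11 (.s
  k255 k170 14 (.s k87 k171 13 (.s k86 k84 0 (.s k7 k244 12 (.s k247 k167 11 (.d k4 k6 k166 0
  12))))))), (.s k15 k10 2 (.s k7 k11 1 (.s k255 k170 14 (.s k87 k171 13 (.s k247 k167 11 (.d k4 k6
  k166 0 12))))))] .n) (.c k84 (.q k4 [(.s k2 k1 0 (.s k12 k8 1 (.s k6 k9 2 (.s k5 k7 0 (.d k10 k14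
  k15 1 2))))), (.s k12 k8 1 (.s k166 k247 12 (.s k89 k243 14 (.s k93 k81 1 (.d k255 k174 k170 12
  14))))), (.s k247 k166 12 (.s k255 k170 14 (.s k87 k171 13 (.s k7 k167 11 (.s k5 k6 0 (.d k15 k11
  k10 1 2))))))] .n) (.c k86 (.q k4 [(.s k2 k1 0 (.s k12 k8 1 (.s k6 k9 2 (.s k10 k14 1 (.d k5 k7
  k15 0 2))))), (.s k12 k8 1 (.s k166 k247 12 (.s k89 k243 14 (.s k93 k81 1 (.d k255 k174 k170 12
  14))))), (.s k247 k166 12 (.s k255 k170 14 (.s k87 k171 13 (.s k7 k167 11 (.s k15 k11 1 (.d k5 k6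
  k10 0 2))))))] .n) (.c k169 (.f k2 k1 0 (.f k170 k255 14 (.q k106 [(.s k42 k234 7 (.s k62 k22 5
  (.s k150 k194 13 (.s k190 k130 5 (.d k254 k126 k86 7 13))))), (.s k86 k254 13 (.s k87 k84 0 (.s
  k126 k66 5 (.s k127 k64 6 (.s k67 k107 5 (.d k124 k125 k105 0 6)))))), (.s k42 k234 7 (.s k62 k22
  5 (.s k194 k150 13 (.s k66 k130 7 (.s k192 k129 8 (.d k64 k127 k128 6 7))))))] (.c k86 (.l (.s k42
  k234 7 (.s k22 k62 5 (.s k60 k41 6 (.s k20 k40 5 (.s k150 k215 8 (.s k130 k190 5 (.d k195 k105 k65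
  14 8)))))))) (.c k127 (.q k191 [(.s k86 k254 13 (.s k128 k149 6 (.s k192 k64 7 (.d k66 k129 k126 8
  5)))), (.s k42 k234 7 (.s k22 k62 5 (.s k60 k41 6 (.s k20 k40 5 (.s k21 k23 0 (.d k149 k213 k128 7
  6)))))), (.s k234 k42 7 (.s k254 k86 13 (.s k194 k214 5 (.s k130 k66 7 (.d k150 k190 k62 5
  13)))))] .n) (.c k191 (.l (.s k127 k64 6 (.s k42 k234 7 (.s k62 k22 5 (.s k86 k254 13 (.s k66 k126
  5 (.d k194 k130 k150 7 13))))))) .n)))))) (.c k170 (.q k5 [(.s k2 k1 0 (.s k10 k15 2 (.s k6 k14 1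
  (.s k4 k7 0 (.d k12 k8 k9 1 2))))), (.s k1 k2 0 (.s k13 k9 1 (.s k165 k245 11 (.s k89 k241 13 (.s
  k93 k81 1 (.d k253 k173 k169 11 13)))))), (.s k15 k10 2 (.s k7 k11 1 (.s k165 k245 11 (.s k86 k244
  12 (.s k84 k87 0 (.d k252 k168 k169 13 14))))))] (.c k9 (.l (.s k1 k2 0 (.s k15 k10 2 (.s k11 k7 1
  (.s k165 k245 11 (.s k90 k240 14 (.d k169 k248 k253 12 13))))))) .n)) (.c k171 (.l (.s k2 k1 0 (.s
  k170 k255 14 (.s k86 k254 13 (.s k84 k87 0 (.d k252 k168 k169 13 14)))))) (.c k252 (.f k2 k1 0 (.f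
  k255 k170 14 (.f k171 k87 13 (.q k221 [(.s k153 k17 9 (.s k204 k238 4 (.s k68 k136 9 (.d k102 k119
  k51 4 14)))), (.s k204 k238 4 (.s k70 k137 10 (.s k138 k206 9 (.s k69 k207 10 (.d k68 k71 k136 0
  9))))), (.s k17 k153 9 (.s k34 k51 4 (.s k18 k50 3 (.s k16 k19 0 (.d k48 k32 k33 3 4)))))] (.c k34
  (.l (.s k153 k17 9 (.s k204 k238 4 (.s k102 k51 14 (.d k68 k119 k136 4 9))))) (.c k102 (.l (.s k17
  k153 9 (.s k34 k51 4 (.s k204 k238 4 (.s k18 k50 3 (.s k16 k19 0 (.d k48 k32 k33 3 4))))))) (.c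
  k126 (.q k189 [(.s k153 k17 9 (.s k204 k238 4 (.s k68 k136 9 (.d k102 k119 k51 4 14)))), (.s k204
  k238 4 (.s k70 k137 10 (.s k138 k206 9 (.s k69 k207 10 (.d k68 k71 k136 0 9))))), (.s k17 k153 9
  (.s k34 k51 4 (.s k18 k50 3 (.s k16 k19 0 (.d k48 k32 k33 3 4)))))] (.c k34 (.l (.s k153 k17 9 (.s
  k204 k238 4 (.s k102 k51 14 (.d k68 k119 k136 4 9))))) (.c k102 (.l (.s k17 k153 9 (.s k34 k51 4
  (.s k204 k238 4 (.s k18 k50 3 (.s k16 k19 0 (.d k48 k32 k33 3 4))))))) (.c k136 (.l (.s k153 k17 9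
  (.s k204 k238 4 (.s k70 k137 10 (.s k102 k51 14 (.s k68 k119 4 (.s k138 k206 9 (.d k69 k71 k207 0
  10)))))))) (.c k204 (.l (.s k17 k153 9 (.s k51 k34 4 (.s k35 k19 3 (.s k103 k239 9 (.s k155 k207
  13 (.d k187 k139 k119 3 9))))))) .n))))) (.c k136 (.l (.s k153 k17 9 (.s k204 k238 4 (.s k70 k137
  10 (.s k102 k51 14 (.s k68 k119 4 (.s k138 k206 9 (.d k69 k71 k207 0 10)))))))) (.c k189 (.q k126
  [(.s k153 k17 9 (.s k204 k238 4 (.s k68 k136 9 (.d k102 k119 k51 4 14)))), (.s k204 k238 4 (.s k70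
  k137 10 (.s k138 k206 9 (.s k69 k207 10 (.d k68 k71 k136 0 9))))), (.s k17 k153 9 (.s k34 k51 4
  (.s k18 k50 3 (.s k16 k19 0 (.d k48 k32 k33 3 4)))))] (.c k34 (.l (.s k153 k17 9 (.s k204 k238 4
  (.s k102 k51 14 (.d k68 k119 k136 4 9))))) (.c k102 (.l (.s k17 k153 9 (.s k34 k51 4 (.s k204 k238
  4 (.s k18 k50 3 (.s k16 k19 0 (.d k48 k32 k33 3 4))))))) (.c k136 (.l (.s k153 k17 9 (.s k204 k238
  4 (.s k70 k137 10 (.s k102 k51 14 (.s k68 k119 4 (.s k138 k206 9 (.d k69 k71 k207 0 10)))))))) (.c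
  k204 (.l (.s k17 k153 9 (.s k51 k34 4 (.s k35 k19 3 (.s k103 k239 9 (.s k155 k207 13 (.d k187 k139
  k119 3 9))))))) .n))))) (.c k204 (.l (.s k17 k153 9 (.s k51 k34 4 (.s k35 k19 3 (.s k103 k239 9
  (.s k155 k207 13 (.d k187 k139 k119 3 9))))))) .n)))))))))) (.c k253 (.l (.s k2 k1 0 (.s k170 k255
  14 (.s k86 k254 13 (.s k252 k169 14 (.d k84 k87 k168 0 13)))))) (.c k254 (.l (.s k1 k2 0 (.s k169
  k253 13 (.s k86 k252 14 (.s k255 k170 14 (.d k87 k84 k171 0 13)))))) (.c k255 (.f k1 k2 0 (.q k69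
  [(.s k137 k205 9 (.s k70 k204 10 (.s k71 k68 0 (.d k207 k139 k138 9 10)))), (.s k101 k117 3 (.s
  k169 k253 13 (.s k33 k237 9 (.s k49 k17 3 (.d k205 k137 k153 9 13))))), (.s k101 k117 3 (.s k169
  k253 13 (.s k207 k138 10 (.s k48 k154 14 (.d k33 k18 k237 4 9)))))] (.c k127 (.q k191 [(.s k137
  k205 9 (.s k70 k204 10 (.s k71 k68 0 (.d k207 k139 k138 9 10)))), (.s k101 k117 3 (.s k169 k253 13
  (.s k33 k237 9 (.s k49 k17 3 (.d k205 k137 k153 9 13))))), (.s k101 k117 3 (.s k169 k253 13 (.s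
  k207 k138 10 (.s k48 k154 14 (.d k33 k18 k237 4 9)))))] .n) (.c k191 (.q k127 [(.s k137 k205 9 (.s
  k70 k204 10 (.s k71 k68 0 (.d k207 k139 k138 9 10)))), (.s k64 k106 6 (.s k79 k74 2 (.s k101 k117
  3 (.s k90 k112 6 (.d k95 k80 k111 2 3)))))] .n) .n)))) .n))))))))))))

def t43_106 : T TT 256 :=
  (.q k169 [(.s k1 k253 13 (.s k3 k2 0 (.s k86 k252 14 (.s k87 k84 0 (.d k255 k171 k170 13 14)))))]
  (.c k1 (.q k4 [(.s k12 k8 1 (.s k166 k247 12 (.s k170 k255 14 (.s k162 k174 1 (.d k243 k81 k89 12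
  14))))), (.s k12 k8 1 (.s k166 k247 12 (.s k172 k163 2 (.s k252 k92 11 (.s k84 k168 13 (.d k86 k87
  k3 0 14)))))), (.s k166 k247 12 (.s k170 k255 14 (.s k168 k171 0 (.s k84 k252 13 (.s k164 k244 11
  (.d k172 k160 k163 1 2)))))), (.s k8 k12 1 (.s k170 k255 14 (.s k168 k171 0 (.s k248 k88 11 (.s
  k11 k90 12 (.s k9 k10 0 (.d k89 k249 k251 11 12)))))))] .n) (.c k2 (.l (.s k253 k1 13 (.s k255
  k170 14 (.s k252 k254 0 (.s k86 k3 14 (.d k84 k87 k168 0 13)))))) (.c k3 (.f k253 k1 13 (.q k65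
  [(.s k105 k125 5 (.s k195 k130 8 (.s k150 k60 14 (.s k215 k20 8 (.d k255 k235 k170 5 14))))), (.s
  k125 k105 5 (.s k189 k61 7 (.s k149 k129 5 (.s k21 k213 7 (.s k63 k42 6 (.s k252 k126 8 (.d k255
  k170 k254 14 0))))))), (.s k130 k195 8 (.s k170 k255 14 (.s k150 k190 5 (.s k131 k188 6 (.s k128
  k129 0 (.s k171 k168 0 (.d k191 k151 k149 5 6))))))), (.s k105 k125 5 (.s k195 k130 8 (.s k233 k41
  7 (.s k213 k193 5 (.s k214 k252 6 (.s k215 k212 0 (.d k150 k60 k20 14 8)))))))] (.c k23 (.q k63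
  [(.s k125 k105 5 (.s k61 k189 7 (.s k60 k62 0 (.d k255 k190 k170 8 14)))), (.s k21 k42 6 (.s k105
  k125 5 (.s k213 k149 7 (.d k233 k41 k193 7 5)))), (.s k21 k42 6 (.s k149 k213 7 (.s k189 k129 5
  (.s k252 k126 8 (.d k255 k170 k254 14 0)))))] (.c k170 (.l (.s k105 k125 5 (.s k233 k41 7 (.s k213
  k193 5 (.d k21 k42 k149 6 7))))) .n)) (.c k63 (.q k23 [(.s k105 k125 5 (.s k195 k130 8 (.s k60
  k150 14 (.s k40 k20 5 (.d k170 k235 k255 8 14))))), (.s k105 k125 5 (.s k195 k130 8 (.s k233 k41 7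
  (.s k213 k193 5 (.s k214 k252 6 (.s k212 k215 0 (.d k149 k21 k86 7 8))))))), (.s k105 k125 5 (.s
  k195 k130 8 (.s k255 k170 14 (.s k252 k254 0 (.d k233 k214 k41 6 7))))), (.s k125 k105 5 (.s k189
  k61 7 (.s k149 k129 5 (.s k21 k213 7 (.s k20 k22 0 (.s k60 k40 5 (.d k255 k170 k190 14 8)))))))]
  (.c k105 (.l (.s k130 k195 8 (.s k170 k255 14 (.s k150 k190 5 (.s k131 k188 6 (.s k128 k129 0 (.s
  k171 k168 0 (.d k191 k151 k149 5 6)))))))) (.c k125 (.l (.s k195 k130 8 (.s k255 k170 14 (.s k215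
  k235 5 (.s k87 k151 7 (.s k84 k86 0 (.d k252 k254 k168 0 13))))))) (.c k149 (.q k192 [(.s k105
  k125 5 (.s k195 k130 8 (.s k193 k194 0 (.d k233 k213 k41 5 7)))), (.s k105 k125 5 (.s k170 k255 14
  (.s k40 k235 8 (.s k60 k20 5 (.d k195 k130 k150 8 14))))), (.s k105 k125 5 (.s k233 k41 7 (.s k213
  k193 5 (.d k255 k234 k170 6 14)))), (.s k195 k130 8 (.s k193 k194 0 (.s k213 k233 5 (.d k255 k234
  k170 6 14))))] .n) (.c k192 (.q k149 [(.s k125 k105 5 (.d k189 k129 k61 5 7)), (.s k86 k212 8 (.s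
  k84 k87 0 (.s k252 k168 13 (.d k255 k254 k170 0 14))))] (.c k66 (.l (.s k129 k189 5 (.s k105 k125
  5 (.s k193 k61 13 (.d k213 k21 k233 7 5))))) (.c k129 (.q k66 [(.s k67 k64 0 (.s k105 k125 5 (.d
  k86 k124 k212 6 8))), (.s k105 k125 5 (.s k193 k61 13 (.d k213 k21 k233 7 5))), (.s k86 k212 8 (.s
  k84 k87 0 (.s k252 k168 13 (.d k255 k254 k170 0 14))))] .n) .n))) .n))))) (.c k125 (.l (.s k195
  k130 8 (.s k255 k170 14 (.s k215 k235 5 (.s k150 k20 8 (.s k105 k60 14 (.s k252 k254 0 (.d k233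
  k41 k214 7 6)))))))) .n))))) (.c k84 (.q k4 [(.s k12 k8 1 (.s k166 k247 12 (.s k89 k243 14 (.s k93
  k81 1 (.d k255 k174 k170 12 14))))), (.s k1 k253 13 (.s k3 k2 0 (.s k12 k8 1 (.s k6 k9 2 (.s k166
  k247 12 (.d k86 k246 k252 11 14)))))), (.s k1 k253 13 (.s k3 k2 0 (.s k166 k247 12 (.s k163 k172 2
  (.s k170 k255 14 (.s k243 k83 11 (.d k162 k174 k81 1 12))))))), (.s k1 k253 13 (.s k3 k2 0 (.s k12
  k8 1 (.s k9 k6 2 (.s k89 k249 11 (.s k93 k81 1 (.d k255 k174 k170 12 14)))))))] .n) (.c k86 (.f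
  k170 k255 14 (.f k171 k168 0 (.f k253 k1 13 (.q k153 [(.s k17 k221 9 (.s k51 k34 4 (.s k136 k187 4
  (.d k204 k68 k102 9 14)))), (.s k185 k137 3 (.s k187 k136 4 (.s k139 k155 3 (.d k184 k186 k154 0
  4)))), (.s k185 k137 3 (.s k49 k117 9 (.s k205 k101 13 (.d k221 k237 k17 3 9))))] (.c k66 (.q k126
  [(.s k17 k221 9 (.s k51 k34 4 (.s k136 k187 4 (.d k204 k68 k102 9 14)))), (.s k185 k137 3 (.s k187
  k136 4 (.s k139 k155 3 (.d k184 k186 k154 0 4)))), (.s k185 k137 3 (.s k49 k117 9 (.s k205 k101 13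
  (.d k221 k237 k17 3 9))))] .n) (.c k126 (.q k66 [(.s k17 k221 9 (.s k51 k34 4 (.s k136 k187 4 (.d
  k204 k68 k102 9 14)))), (.s k185 k137 3 (.s k187 k136 4 (.s k139 k155 3 (.d k184 k186 k154 0
  4)))), (.s k185 k137 3 (.s k49 k117 9 (.s k205 k101 13 (.d k221 k237 k17 3 9))))] .n) .n)))))) (.c
  k87 (.l (.s k1 k253 13 (.s k3 k2 0 (.s k170 k255 14 (.s k168 k171 0 (.d k252 k84 k86 13 14))))))
  (.c k170 (.f k1 k253 13 (.q k105 [(.s k41 k233 7 (.s k61 k21 5 (.s k65 k125 5 (.d k193 k129 k149 7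
  13)))), (.s k3 k2 0 (.s k65 k125 5 (.s k86 k252 14 (.s k67 k124 6 (.d k195 k131 k130 7 8))))), (.s
  k3 k2 0 (.s k41 k233 7 (.s k60 k22 6 (.s k20 k40 5 (.d k150 k215 k195 8 14)))))] (.c k42 (.q k234
  [(.s k41 k233 7 (.s k61 k21 5 (.s k65 k125 5 (.d k193 k129 k149 7 13)))), (.s k3 k2 0 (.s k86 k252
  14 (.s k67 k124 6 (.s k195 k131 7 (.d k65 k125 k130 5 8))))), (.s k3 k2 0 (.s k41 k233 7 (.s k86
  k252 14 (.s k67 k124 6 (.s k195 k131 7 (.d k60 k22 k150 6 14))))))] (.c k40 (.l (.s k41 k233 7 (.s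
  k61 k21 5 (.s k65 k125 5 (.d k193 k129 k149 7 13))))) (.c k41 (.q k40 [(.s k60 k20 5 (.s k65 k125
  5 (.d k195 k130 k150 8 14))), (.s k3 k2 0 (.s k60 k20 5 (.s k86 k252 14 (.s k67 k124 6 (.d k195
  k131 k150 7 14))))), (.s k3 k2 0 (.s k65 k125 5 (.s k86 k252 14 (.s k67 k124 6 (.d k195 k131 k130
  7 8)))))] (.c k60 (.l (.s k3 k2 0 (.s k65 k125 5 (.s k86 k252 14 (.s k195 k130 8 (.d k67 k124 k131
  6 7)))))) (.c k195 (.l (.s k3 k2 0 (.s k60 k20 5 (.s k86 k252 14 (.s k87 k84 0 (.s k125 k65 5 (.d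
  k255 k190 k171 8 13))))))) .n))) .n))) (.c k234 (.q k42 [(.s k21 k63 6 (.d k41 k61 k233 5 7)), (.s
  k3 k2 0 (.s k41 k233 7 (.s k60 k22 6 (.s k20 k40 5 (.d k150 k215 k195 8 14)))))] (.c k3 (.l (.s
  k41 k233 7 (.d k21 k61 k63 5 6))) (.c k41 (.l (.s k21 k63 6 (.s k65 k125 5 (.s k129 k193 7 (.d
  k149 k189 k213 5 7))))) (.c k233 (.l (.s k21 k63 6 (.s k61 k41 5 (.d k149 k213 k193 7 13))))
  .n)))) .n)))) (.c k171 (.l (.s k253 k1 13 (.s k255 k170 14 (.s k252 k254 0 (.s k84 k168 13 (.d k86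
  k87 k3 0 14)))))) (.c k252 (.q k4 [(.s k12 k8 1 (.s k166 k247 12 (.s k89 k243 14 (.s k93 k81 1 (.d
  k255 k174 k170 12 14))))), (.s k166 k247 12 (.s k170 k255 14 (.s k168 k171 0 (.s k172 k163 2 (.s
  k160 k164 1 (.s k174 k162 1 (.d k175 k173 k165 0 2))))))), (.s k1 k253 13 (.s k3 k2 0 (.s k12 k8 1
  (.s k9 k6 2 (.s k89 k249 11 (.s k81 k93 1 (.d k243 k162 k166 12 14)))))))] (.c k166 (.l (.s k1
  k253 13 (.s k3 k2 0 (.s k12 k8 1 (.s k9 k6 2 (.s k89 k249 11 (.s k93 k81 1 (.d k255 k174 k170 12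
  14)))))))) (.c k243 (.l (.s k1 k253 13 (.s k3 k2 0 (.s k12 k8 1 (.s k9 k6 2 (.s k255 k170 14 (.s
  k93 k174 12 (.d k89 k81 k249 1 11)))))))) (.c k255 (.l (.s k12 k8 1 (.s k166 k247 12 (.s k163 k172
  2 (.s k243 k89 14 (.s k3 k83 11 (.d k1 k2 k253 0 13))))))) .n)))) (.c k253 (.q k4 [(.s k12 k8 1
  (.s k166 k247 12 (.s k89 k243 14 (.s k93 k81 1 (.d k255 k174 k170 12 14))))), (.s k12 k8 1 (.s
  k166 k247 12 (.s k172 k163 2 (.s k252 k92 11 (.s k84 k168 13 (.d k86 k87 k3 0 14)))))), (.s k166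
  k247 12 (.s k170 k255 14 (.s k168 k171 0 (.s k172 k163 2 (.s k164 k160 1 (.d k84 k252 k244 13
  11)))))), (.s k8 k12 1 (.s k170 k255 14 (.s k168 k171 0 (.s k248 k88 11 (.s k11 k90 12 (.s k9 k10
  0 (.d k89 k249 k251 11 12)))))))] .n) (.c k254 (.l (.s k1 k253 13 (.s k3 k2 0 (.s k86 k252 14 (.s
  k255 k170 14 (.d k87 k84 k171 0 13)))))) (.c k255 (.q k5 [(.s k15 k10 2 (.s k165 k245 11 (.s k173
  k161 1 (.s k252 k94 12 (.s k84 k168 13 (.d k86 k87 k3 0 14)))))), (.s k1 k253 13 (.s k3 k2 0 (.s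
  k15 k10 2 (.s k7 k11 1 (.s k6 k4 0 (.d k9 k13 k12 1 2)))))), (.s k1 k253 13 (.s k13 k9 1 (.s k165
  k245 11 (.s k161 k173 1 (.d k241 k81 k89 11 13)))))] (.c k252 (.l (.s k15 k10 2 (.s k165 k245 11
  (.s k161 k173 1 (.s k240 k90 14 (.s k3 k82 12 (.d k1 k2 k253 0 13))))))) .n)) .n)))))))))))))

/-- roots with certificates -/
def certs : List (Cell TT 256 × Cell TT 256 × T TT 256) :=
  [(k27, k108, t27_108), (k27, k110, t27_110), (k27, k111, t27_111), (k27, k114, t27_114), (k27,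
  k122, t27_122), (k27, k123, t27_123), (k27, k126, t27_126), (k27, k127, t27_127), (k27, k162,
  t27_162), (k27, k163, t27_163), (k27, k166, t27_166), (k27, k167, t27_167), (k27, k168, t27_168),
  (k27, k169, t27_169), (k27, k171, t27_171), (k27, k172, t27_172), (k27, k173, t27_173), (k27,
  k174, t27_174), (k27, k175, t27_175), (k27, k177, t27_177), (k27, k178, t27_178), (k27, k179,
  t27_179), (k27, k180, t27_180), (k27, k182, t27_182), (k27, k183, t27_183), (k27, k186, t27_186),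
  (k27, k187, t27_187), (k27, k190, t27_190), (k27, k226, t27_226), (k27, k227, t27_227), (k27,
  k228, t27_228), (k27, k230, t27_230), (k27, k231, t27_231), (k27, k234, t27_234), (k27, k235,
  t27_235), (k27, k238, t27_238), (k42, k43, t42_43), (k42, k47, t42_47), (k42, k63, t42_63), (k42,
  k106, t42_106), (k42, k107, t42_107), (k42, k111, t42_111), (k42, k127, t42_127), (k42, k138,
  t42_138), (k42, k139, t42_139), (k42, k143, t42_143), (k42, k154, t42_154), (k42, k155, t42_155),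
  (k42, k159, t42_159), (k42, k171, t42_171), (k42, k175, t42_175), (k42, k191, t42_191), (k42,
  k202, t42_202), (k42, k203, t42_203), (k42, k207, t42_207), (k42, k218, t42_218), (k42, k219,
  t42_219), (k42, k223, t42_223), (k42, k234, t42_234), (k42, k235, t42_235), (k42, k239, t42_239),
  (k43, k46, t43_46), (k43, k47, t43_47), (k43, k62, t43_62), (k43, k63, t43_63), (k43, k106,
  t43_106)]

theorem c27_108 : rootOK k27 k108 t27_108 = true := by decide +kernel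

theorem c27_110 : rootOK k27 k110 t27_110 = true := by decide +kernel

theorem c27_111 : rootOK k27 k111 t27_111 = true := by decide +kernel

theorem c27_114 : rootOK k27 k114 t27_114 = true := by decide +kernel

theorem c27_122 : rootOK k27 k122 t27_122 = true := by decide +kernel

theorem c27_123 : rootOK k27 k123 t27_123 = true := by decide +kernel

theorem c27_126 : rootOK k27 k126 t27_126 = true := by decide +kernel

theorem c27_127 : rootOK k27 k127 t27_127 = true := by decide +kernel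

theorem c27_162 : rootOK k27 k162 t27_162 = true := by decide +kernel

theorem c27_163 : rootOK k27 k163 t27_163 = true := by decide +kernel

theorem c27_166 : rootOK k27 k166 t27_166 = true := by decide +kernel

theorem c27_167 : rootOK k27 k167 t27_167 = true := by decide +kernel

theorem c27_168 : rootOK k27 k168 t27_168 = true := by decide +kernel

theorem c27_169 : rootOK k27 k169 t27_169 = true := by decide +kernel

theorem c27_171 : rootOK k27 k171 t27_171 = true := by decide +kernel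

theorem c27_172 : rootOK k27 k172 t27_172 = true := by decide +kernel

theorem c27_173 : rootOK k27 k173 t27_173 = true := by decide +kernel

theorem c27_174 : rootOK k27 k174 t27_174 = true := by decide +kernel

theorem c27_175 : rootOK k27 k175 t27_175 = true := by decide +kernel

theorem c27_177 : rootOK k27 k177 t27_177 = true := by decide +kernel

theorem c27_178 : rootOK k27 k178 t27_178 = true := by decide +kernel

theorem c27_179 : rootOK k27 k179 t27_179 = true := by decide +kernel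

theorem c27_180 : rootOK k27 k180 t27_180 = true := by decide +kernel

theorem c27_182 : rootOK k27 k182 t27_182 = true := by decide +kernel

theorem c27_183 : rootOK k27 k183 t27_183 = true := by decide +kernel

theorem c27_186 : rootOK k27 k186 t27_186 = true := by decide +kernel

theorem c27_187 : rootOK k27 k187 t27_187 = true := by decide +kernel

theorem c27_190 : rootOK k27 k190 t27_190 = true := by decide +kernel

theorem c27_226 : rootOK k27 k226 t27_226 = true := by decide +kernel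

theorem c27_227 : rootOK k27 k227 t27_227 = true := by decide +kernel

theorem c27_228 : rootOK k27 k228 t27_228 = true := by decide +kernel

theorem c27_230 : rootOK k27 k230 t27_230 = true := by decide +kernel

theorem c27_231 : rootOK k27 k231 t27_231 = true := by decide +kernel

theorem c27_234 : rootOK k27 k234 t27_234 = true := by decide +kernel

theorem c27_235 : rootOK k27 k235 t27_235 = true := by decide +kernel

theorem c27_238 : rootOK k27 k238 t27_238 = true := by decide +kernel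

theorem c42_43 : rootOK k42 k43 t42_43 = true := by decide +kernel

theorem c42_47 : rootOK k42 k47 t42_47 = true := by decide +kernel

theorem c42_63 : rootOK k42 k63 t42_63 = true := by decide +kernel

theorem c42_106 : rootOK k42 k106 t42_106 = true := by decide +kernel

theorem c42_107 : rootOK k42 k107 t42_107 = true := by decide +kernel

theorem c42_111 : rootOK k42 k111 t42_111 = true := by decide +kernel

theorem c42_127 : rootOK k42 k127 t42_127 = true := by decide +kernel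

theorem c42_138 : rootOK k42 k138 t42_138 = true := by decide +kernel

theorem c42_139 : rootOK k42 k139 t42_139 = true := by decide +kernel

theorem c42_143 : rootOK k42 k143 t42_143 = true := by decide +kernel

theorem c42_154 : rootOK k42 k154 t42_154 = true := by decide +kernel

theorem c42_155 : rootOK k42 k155 t42_155 = true := by decide +kernel

theorem c42_159 : rootOK k42 k159 t42_159 = true := by decide +kernel

theorem c42_171 : rootOK k42 k171 t42_171 = true := by decide +kernel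

theorem c42_175 : rootOK k42 k175 t42_175 = true := by decide +kernel

theorem c42_191 : rootOK k42 k191 t42_191 = true := by decide +kernel

theorem c42_202 : rootOK k42 k202 t42_202 = true := by decide +kernel

theorem c42_203 : rootOK k42 k203 t42_203 = true := by decide +kernel

theorem c42_207 : rootOK k42 k207 t42_207 = true := by decide +kernel

theorem c42_218 : rootOK k42 k218 t42_218 = true := by decide +kernel

theorem c42_219 : rootOK k42 k219 t42_219 = true := by decide +kernel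

theorem c42_223 : rootOK k42 k223 t42_223 = true := by decide +kernel

theorem c42_234 : rootOK k42 k234 t42_234 = true := by decide +kernel

theorem c42_235 : rootOK k42 k235 t42_235 = true := by decide +kernel

theorem c42_239 : rootOK k42 k239 t42_239 = true := by decide +kernel

theorem c43_46 : rootOK k43 k46 t43_46 = true := by decide +kernel

theorem c43_47 : rootOK k43 k47 t43_47 = true := by decide +kernel

theorem c43_62 : rootOK k43 k62 t43_62 = true := by decide +kernel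

theorem c43_63 : rootOK k43 k63 t43_63 = true := by decide +kernel

theorem c43_106 : rootOK k43 k106 t43_106 = true := by decide +kernel

theorem ok : certsOK certs = true :=
  certsOK_cons c27_108 (certsOK_cons c27_110 (certsOK_cons c27_111 (certsOK_cons c27_114 (
  certsOK_cons c27_122 (certsOK_cons c27_123 (certsOK_cons c27_126 (certsOK_cons c27_127 (
  certsOK_cons c27_162 (certsOK_cons c27_163 (certsOK_cons c27_166 (certsOK_cons c27_167 (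
  certsOK_cons c27_168 (certsOK_cons c27_169 (certsOK_cons c27_171 (certsOK_cons c27_172 (
  certsOK_cons c27_173 (certsOK_cons c27_174 (certsOK_cons c27_175 (certsOK_cons c27_177 (
  certsOK_cons c27_178 (certsOK_cons c27_179 (certsOK_cons c27_180 (certsOK_cons c27_182 (
  certsOK_cons c27_183 (certsOK_cons c27_186 (certsOK_cons c27_187 (certsOK_cons c27_190 (
  certsOK_cons c27_226 (certsOK_cons c27_227 (certsOK_cons c27_228 (certsOK_cons c27_230 (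
  certsOK_cons c27_231 (certsOK_cons c27_234 (certsOK_cons c27_235 (certsOK_cons c27_238 (
  certsOK_cons c42_43 (certsOK_cons c42_47 (certsOK_cons c42_63 (certsOK_cons c42_106 (
  certsOK_cons c42_107 (certsOK_cons c42_111 (certsOK_cons c42_127 (certsOK_cons c42_138 (
  certsOK_cons c42_139 (certsOK_cons c42_143 (certsOK_cons c42_154 (certsOK_cons c42_155 (
  certsOK_cons c42_159 (certsOK_cons c42_171 (certsOK_cons c42_175 (certsOK_cons c42_191 (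
  certsOK_cons c42_202 (certsOK_cons c42_203 (certsOK_cons c42_207 (certsOK_cons c42_218 (
  certsOK_cons c42_219 (certsOK_cons c42_223 (certsOK_cons c42_234 (certsOK_cons c42_235 (
  certsOK_cons c42_239 (certsOK_cons c43_46 (certsOK_cons c43_47 (certsOK_cons c43_62 (
  certsOK_cons c43_63 (certsOK_cons c43_106 (certsOK_nil)))))))))))))))))))))))))))))))))))))))))
  )))))))))))))))))))))))))

theorem sound (k : Nat) (hk : (bits certs).testBit k = true) : PI k :=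
  certs_sound certs ok k hk

end Pool.Agent.TTT.A16
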