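import Pool.Agent.TTT.Sym

set_option autoImplicit false
set_option maxRecDepth 100000

namespace Pool.Agent.TTT.A17

def t43_107 : T TT 256 :=
  (.q k89 [(.s k81 k93 1 (.s k243 k162 12 (.s k166 k12 14 (.s k247 k4 12 (.d k255 k251 k170 1
  14)))))] (.c k4 (.f k170 k255 14 (.q k171 [(.s k169 k168 0 (.s k249 k9 11 (.s k251 k8 12 (.s k11
  k91 11 (.d k248 k250 k90 0 12))))), (.s k81 k93 1 (.s k169 k168 0 (.s k1 k253 13 (.s k9 k249 11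
  (.s k13 k5 1 (.d k241 k161 k165 11 13)))))), (.s k81 k93 1 (.s k243 k162 12 (.s k251 k8 12 (.s k91
  k11 11 (.s k15 k167 13 (.s k10 k5 2 (.d k90 k88 k250 0 11)))))))] (.c k9 (.l (.s k8 k251 12 (.s
  k168 k169 0 (.s k84 k252 13 (.s k86 k87 0 (.s k88 k248 11 (.d k92 k80 k83 1 2))))))) .n))) (.c k12
  (.f k255 k170 14 (.f k81 k93 1 (.q k171 [(.s k3 k87 13 (.s k1 k2 0 (.s k161 k241 11 (.s k162 k243
  12 (.s k160 k163 0 (.d k240 k80 k82 11 12)))))), (.s k243 k162 12 (.s k251 k247 1 (.s k91 k11 11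
  (.s k90 k88 0 (.s k95 k80 2 (.d k15 k175 k167 11 13)))))), (.s k3 k87 13 (.s k1 k2 0 (.s k169 k253
  13 (.s k9 k249 11 (.s k13 k5 1 (.d k241 k161 k165 11 13))))))] .n))) (.c k81 (.f k170 k255 14 (.f
  k8 k251 12 (.f k12 k4 1 (.f k243 k166 14 (.q k171 [(.s k169 k168 0 (.s k1 k253 13 (.s k3 k2 0 (.d
  k9 k6 k249 2 11)))), (.s k168 k169 0 (.s k88 k248 11 (.s k90 k91 0 (.s k80 k95 2 (.d k84 k92 k252
  1 13)))))] (.c k168 (.q k1 [(.s k3 k2 0 (.s k169 k253 13 (.d k9 k6 k249 2 11))), (.s k3 k2 0 (.s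
  k9 k6 2 (.s k5 k13 1 (.d k10 k11 k15 0 2)))), (.s k169 k253 13 (.s k9 k249 11 (.s k5 k13 1 (.d k10
  k11 k15 0 2))))] (.c k9 (.l (.s k3 k2 0 (.s k83 k163 11 (.s k86 k92 2 (.d k169 k253 k252 13
  14))))) .n)) (.c k169 (.q k106 [(.s k123 k72 4 (.s k63 k183 9 (.d k42 k21 k234 6 7))), (.s k64
  k127 6 (.s k72 k123 4 (.d k192 k128 k132 7 9))), (.s k42 k234 7 (.s k63 k21 6 (.s k29 k46 4 (.d
  k149 k192 k209 14 9))))] (.c k63 (.l (.s k72 k123 4 (.s k192 k132 9 (.d k64 k127 k128 6 7)))) (.c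
  k163 (.q k172 [(.s k123 k72 4 (.s k63 k183 9 (.d k42 k21 k234 6 7))), (.s k64 k127 6 (.s k72 k123
  4 (.d k192 k128 k132 7 9))), (.s k42 k234 7 (.s k63 k21 6 (.s k29 k46 4 (.d k149 k192 k209 14
  9))))] (.c k63 (.l (.s k72 k123 4 (.s k192 k132 9 (.d k64 k127 k128 6 7)))) .n)) (.c k172 (.q k163
  [(.s k123 k72 4 (.s k63 k183 9 (.d k42 k21 k234 6 7))), (.s k64 k127 6 (.s k72 k123 4 (.d k192
  k128 k132 7 9))), (.s k42 k234 7 (.s k63 k21 6 (.s k29 k46 4 (.d k149 k192 k209 14 9))))] (.c k63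
  (.l (.s k72 k123 4 (.s k192 k132 9 (.d k64 k127 k128 6 7)))) .n)) .n)))) (.c k249 (.l (.s k168
  k169 0 (.s k84 k252 13 (.s k86 k87 0 (.s k92 k83 2 (.d k88 k80 k248 1 11)))))) (.c k252 (.l (.s
  k169 k168 0 (.s k9 k249 11 (.s k3 k6 2 (.d k1 k2 k253 0 13))))) .n))))))))) (.c k93 (.f k170 k255
  14 (.f k8 k251 12 (.f k12 k4 1 (.f k243 k166 14 (.q k171 [(.s k169 k168 0 (.s k1 k253 13 (.s k3 k2
  0 (.d k9 k6 k249 2 11)))), (.s k168 k169 0 (.s k88 k248 11 (.s k90 k91 0 (.s k80 k95 2 (.d k84 k92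
  k252 1 13)))))] (.c k168 (.q k1 [(.s k3 k2 0 (.s k169 k253 13 (.d k9 k6 k249 2 11))), (.s k3 k2 0
  (.s k83 k163 11 (.s k86 k92 2 (.d k169 k253 k252 13 14)))), (.s k3 k2 0 (.s k9 k6 2 (.s k10 k11 0
  (.d k5 k13 k15 1 2)))), (.s k169 k253 13 (.s k9 k249 11 (.s k10 k11 0 (.d k5 k13 k15 1 2))))] .n)
  (.c k169 (.q k106 [(.s k123 k72 4 (.s k63 k183 9 (.d k42 k21 k234 6 7))), (.s k64 k127 6 (.s k72
  k123 4 (.d k192 k128 k132 7 9))), (.s k42 k234 7 (.s k63 k21 6 (.s k29 k46 4 (.d k149 k192 k209 14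
  9))))] (.c k63 (.l (.s k72 k123 4 (.s k192 k132 9 (.d k64 k127 k128 6 7)))) (.c k163 (.q k172 [(.s
  k123 k72 4 (.s k63 k183 9 (.d k42 k21 k234 6 7))), (.s k64 k127 6 (.s k72 k123 4 (.d k192 k128
  k132 7 9))), (.s k42 k234 7 (.s k63 k21 6 (.s k29 k46 4 (.d k149 k192 k209 14 9))))] (.c k63 (.l
  (.s k72 k123 4 (.s k192 k132 9 (.d k64 k127 k128 6 7)))) .n)) (.c k172 (.q k163 [(.s k123 k72 4
  (.s k63 k183 9 (.d k42 k21 k234 6 7))), (.s k162 k81 12 (.s k160 k161 0 (.d k175 k165 k167 2 1)))]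
  .n) .n)))) (.c k249 (.l (.s k168 k169 0 (.s k84 k252 13 (.s k86 k87 0 (.s k92 k83 2 (.d k88 k80
  k248 1 11)))))) (.c k252 (.l (.s k169 k168 0 (.s k9 k249 11 (.s k3 k6 2 (.d k1 k2 k253 0 13)))))
  .n))))))))) (.c k162 (.l (.s k93 k81 1 (.s k255 k170 14 (.s k12 k174 12 (.s k166 k243 14 (.d k4 k8
  k247 1 12)))))) (.c k166 (.f k170 k255 14 (.q k171 [(.s k169 k168 0 (.s k249 k9 11 (.s k251 k8 12
  (.s k11 k91 11 (.d k248 k250 k90 0 12))))), (.s k81 k93 1 (.s k169 k168 0 (.s k1 k253 13 (.s k9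
  k249 11 (.s k13 k5 1 (.d k241 k161 k165 11 13)))))), (.s k81 k93 1 (.s k243 k162 12 (.s k251 k8 12
  (.s k91 k11 11 (.s k15 k167 13 (.s k10 k5 2 (.d k90 k88 k250 0 11)))))))] (.c k9 (.l (.s k8 k251
  12 (.s k168 k169 0 (.s k84 k252 13 (.s k86 k87 0 (.s k88 k248 11 (.d k92 k80 k83 1 2))))))) .n)))
  (.c k170 (.f k81 k93 1 (.q k169 [(.s k1 k253 13 (.s k9 k249 11 (.s k13 k5 1 (.d k241 k161 k165 11
  13)))), (.s k243 k162 12 (.s k249 k9 11 (.s k252 k246 2 (.s k84 k168 13 (.d k86 k87 k3 0 14))))),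
  (.s k1 k253 13 (.s k3 k2 0 (.s k86 k252 14 (.s k83 k92 2 (.d k243 k163 k162 11 12)))))] (.c k171
  (.q k235 [(.s k1 k253 13 (.s k9 k249 11 (.s k13 k5 1 (.d k241 k161 k165 11 13)))), (.s k243 k162
  12 (.s k249 k9 11 (.s k252 k246 2 (.s k84 k168 13 (.d k86 k87 k3 0 14))))), (.s k1 k253 13 (.s k3
  k2 0 (.s k86 k252 14 (.s k83 k92 2 (.d k243 k163 k162 11 12)))))] .n) (.c k235 (.q k171 [(.s k1
  k253 13 (.s k9 k249 11 (.s k13 k5 1 (.d k241 k161 k165 11 13)))), (.s k243 k162 12 (.s k249 k9 11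
  (.s k252 k246 2 (.s k84 k168 13 (.d k86 k87 k3 0 14))))), (.s k1 k253 13 (.s k3 k2 0 (.s k86 k252
  14 (.d k87 k255 k84 13 0))))] (.c k40 (.q k105 [(.s k65 k125 5 (.s k73 k121 3 (.s k77 k69 1 (.d
  k113 k97 k101 3 5)))), (.s k1 k253 13 (.s k3 k2 0 (.s k86 k252 14 (.d k87 k255 k84 13 0))))] (.c
  k41 (.q k42 [(.s k65 k125 5 (.s k73 k121 3 (.s k77 k69 1 (.d k113 k97 k101 3 5)))), (.s k1 k253 13
  (.s k3 k2 0 (.s k86 k252 14 (.d k87 k255 k84 13 0))))] .n) (.c k42 (.l (.s k41 k233 7 (.s k1 k253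
  13 (.s k3 k2 0 (.s k86 k252 14 (.d k87 k255 k84 13 0)))))) .n))) (.c k105 (.q k40 [(.s k1 k253 13
  (.s k9 k249 11 (.s k13 k5 1 (.d k241 k161 k165 11 13)))), (.s k243 k162 12 (.s k249 k9 11 (.s k252
  k246 2 (.s k84 k168 13 (.d k86 k87 k3 0 14))))), (.s k1 k253 13 (.s k3 k2 0 (.s k86 k252 14 (.d
  k87 k255 k84 13 0))))] (.c k104 (.q k106 [(.s k1 k253 13 (.s k9 k249 11 (.s k13 k5 1 (.d k241 k161
  k165 11 13)))), (.s k64 k127 6 (.s k72 k123 4 (.s k76 k68 1 (.d k115 k98 k102 4 6))))] .n) (.c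
  k106 (.q k104 [(.s k1 k253 13 (.s k9 k249 11 (.s k13 k5 1 (.d k241 k161 k165 11 13)))), (.s k168
  k232 7 (.s k243 k162 12 (.s k249 k9 11 (.d k252 k246 k84 2 13)))), (.s k1 k253 13 (.s k3 k2 0 (.s
  k86 k252 14 (.d k87 k255 k84 13 0))))] (.c k42 (.q k234 [(.s k168 k232 7 (.s k243 k162 12 (.s k249
  k9 11 (.d k252 k246 k84 2 13)))), (.s k1 k253 13 (.s k3 k2 0 (.s k86 k252 14 (.d k87 k255 k84 13
  0)))), (.s k1 k253 13 (.s k9 k249 11 (.s k13 k5 1 (.d k241 k161 k165 11 13))))] .n) (.c k234 (.q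
  k42 [(.s k243 k162 12 (.s k249 k9 11 (.s k252 k246 2 (.d k168 k232 k84 7 13)))), (.s k1 k253 13
  (.s k3 k2 0 (.s k86 k252 14 (.d k87 k255 k84 13 0)))), (.s k1 k253 13 (.s k9 k249 11 (.s k13 k5 1
  (.d k241 k161 k165 11 13))))] (.c k232 (.q k233 [(.s k253 k1 13 (.s k213 k193 5 (.d k21 k149 k63 7
  6))), (.s k243 k162 12 (.s k249 k9 11 (.s k252 k246 2 (.s k84 k168 13 (.d k86 k87 k3 0 14)))))]
  .n) (.c k233 (.l (.s k232 k168 7 (.s k1 k253 13 (.s k3 k2 0 (.s k86 k252 14 (.d k87 k255 k84 13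
  0)))))) .n))) .n))) .n))) .n))) .n)))) (.c k171 (.q k235 [(.s k81 k93 1 (.s k243 k162 12 (.s k12
  k166 14 (.s k8 k4 1 (.d k170 k251 k255 12 14))))), (.s k170 k255 14 (.s k105 k40 8 (.s k121 k73 3
  (.s k251 k8 12 (.s k56 k186 8 (.d k203 k219 k154 3 12))))))] (.c k8 (.l (.s k81 k93 1 (.s k243
  k162 12 (.s k166 k12 14 (.s k247 k4 12 (.d k255 k251 k170 1 14)))))) (.c k170 (.q k169 [(.s k1
  k253 13 (.s k9 k249 11 (.s k13 k5 1 (.s k81 k93 1 (.d k241 k161 k165 11 13))))), (.s k81 k93 1 (.s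
  k243 k162 12 (.s k249 k9 11 (.s k252 k246 2 (.s k84 k168 13 (.d k86 k87 k3 0 14)))))), (.s k1 k253
  13 (.s k3 k2 0 (.s k81 k93 1 (.s k86 k252 14 (.s k83 k92 2 (.d k243 k163 k162 11 12)))))), (.s k1
  k253 13 (.s k3 k2 0 (.s k9 k249 11 (.s k12 k6 2 (.s k4 k8 1 (.d k166 k247 k243 12 14))))))] .n)
  (.c k251 (.l (.s k93 k81 1 (.s k255 k170 14 (.s k12 k174 12 (.s k4 k8 1 (.d k166 k247 k243 12
  14)))))) (.c k255 (.q k3 [(.s k1 k2 0 (.s k81 k93 1 (.s k161 k241 11 (.s k82 k240 12 (.s k83 k80 0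
  (.d k243 k163 k162 11 12)))))), (.s k1 k2 0 (.s k169 k253 13 (.s k9 k249 11 (.s k12 k6 2 (.s k4 k8
  1 (.d k166 k247 k243 12 14)))))), (.s k81 k93 1 (.s k243 k162 12 (.s k83 k163 11 (.s k86 k92 2 (.s
  k84 k87 0 (.d k252 k168 k169 13 14)))))), (.s k1 k2 0 (.s k93 k81 1 (.s k253 k169 13 (.s k13 k173
  11 (.s k5 k9 1 (.d k165 k245 k241 11 13))))))] .n) .n))))) (.c k174 (.l (.s k81 k93 1 (.s k243
  k162 12 (.s k12 k166 14 (.s k170 k255 14 (.d k8 k4 k251 1 12)))))) (.c k235 (.q k171 [(.s k81 k93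
  1 (.s k243 k162 12 (.s k166 k12 14 (.s k247 k4 12 (.d k255 k251 k170 1 14))))), (.s k170 k255 14
  (.s k169 k168 0 (.s k249 k9 11 (.s k251 k8 12 (.s k11 k91 11 (.d k248 k250 k90 0 12))))))] (.c
  k170 (.q k105 [(.s k65 k125 5 (.s k73 k121 3 (.s k77 k69 1 (.s k81 k93 1 (.d k113 k97 k101 3
  5))))), (.s k81 k93 1 (.s k121 k73 3 (.s k243 k162 12 (.s k60 k182 10 (.s k20 k40 5 (.d k150 k215
  k195 8 14)))))), (.s k65 k125 5 (.s k81 k93 1 (.s k195 k130 8 (.s k150 k60 14 (.s k211 k28 10 (.d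
  k243 k227 k162 3 12)))))), (.s k65 k125 5 (.s k73 k121 3 (.s k195 k130 8 (.s k12 k134 10 (.s k4 k8
  1 (.d k166 k247 k243 12 14))))))] .n) (.c k251 (.l (.s k93 k81 1 (.s k255 k170 14 (.s k12 k174 12
  (.s k4 k8 1 (.d k166 k247 k243 12 14)))))) (.c k255 (.q k195 [(.s k65 k130 8 (.s k81 k93 1 (.s k97
  k113 3 (.s k48 k146 12 (.s k32 k16 3 (.d k162 k227 k243 8 12)))))), (.s k65 k130 8 (.s k105 k125 5
  (.s k73 k121 3 (.s k12 k134 10 (.s k4 k8 1 (.d k166 k247 k243 12 14)))))), (.s k81 k93 1 (.s k243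
  k162 12 (.s k211 k227 3 (.s k150 k28 10 (.s k20 k215 8 (.d k60 k40 k105 5 14)))))), (.s k65 k130 8
  (.s k93 k81 1 (.s k125 k105 5 (.s k77 k109 3 (.s k69 k73 1 (.d k101 k117 k113 3 5))))))] .n)
  .n)))) (.c k243 (.f k93 k81 1 (.f k170 k255 14 (.f k251 k8 12 (.q k171 [(.s k169 k168 0 (.s k249
  k9 11 (.s k248 k250 0 (.d k11 k91 k90 11 12)))), (.s k168 k169 0 (.s k84 k252 13 (.s k86 k87 0 (.s
  k92 k83 2 (.s k80 k88 1 (.d k95 k94 k90 0 2)))))), (.s k169 k168 0 (.s k253 k1 13 (.s k13 k173 11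
  (.s k241 k165 13 (.d k249 k245 k9 1 11))))), (.s k91 k11 11 (.s k90 k88 0 (.s k95 k80 2 (.s k83
  k87 1 (.d k92 k94 k86 0 2)))))] (.c k88 (.l (.s k11 k91 11 (.s k169 k168 0 (.s k248 k90 12 (.d
  k249 k250 k9 0 11))))) (.c k168 (.q k248 [(.s k91 k11 11 (.s k90 k88 0 (.d k250 k10 k249 11 0))),
  (.s k249 k250 0 (.s k169 k9 11 (.s k253 k1 13 (.s k13 k173 11 (.d k241 k245 k165 1 13))))), (.s
  k91 k11 11 (.s k90 k88 0 (.s k95 k80 2 (.s k83 k87 1 (.d k92 k94 k86 0 2)))))] (.c k9 (.l (.s k11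
  k91 11 (.s k90 k169 12 (.d k250 k249 k10 0 11)))) (.c k10 (.l (.s k11 k91 11 (.s k169 k90 12 (.d
  k249 k250 k9 0 11)))) (.c k11 (.l (.s k250 k249 0 (.s k10 k90 11 (.s k5 k15 2 (.s k165 k245 11 (.s
  k13 k241 13 (.s k253 k173 11 (.d k1 k9 k169 1 13)))))))) .n)))) .n)))))) (.c k247 (.l (.s k81 k93
  1 (.s k170 k255 14 (.s k8 k251 12 (.s k243 k162 12 (.d k12 k4 k166 1 14)))))) (.c k251 (.l (.s k93
  k81 1 (.s k255 k170 14 (.s k12 k174 12 (.s k4 k8 1 (.d k166 k247 k243 12 14)))))) (.c k255 (.q k3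
  [(.s k1 k2 0 (.s k93 k81 1 (.s k253 k169 13 (.s k13 k173 11 (.s k5 k9 1 (.d k165 k245 k241 11
  13)))))), (.s k81 k93 1 (.s k243 k162 12 (.s k83 k163 11 (.s k86 k92 2 (.s k84 k87 0 (.d k252 k168
  k169 13 14)))))), (.s k1 k2 0 (.s k169 k253 13 (.s k9 k249 11 (.s k12 k6 2 (.s k4 k8 1 (.d k166
  k247 k243 12 14))))))] (.c k169 (.l (.s k1 k2 0 (.s k81 k93 1 (.s k161 k241 11 (.s k82 k240 12 (.s
  k83 k80 0 (.d k243 k163 k162 11 12))))))) (.c k171 (.q k235 [(.s k1 k2 0 (.s k81 k93 1 (.s k161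
  k241 11 (.s k82 k240 12 (.s k83 k80 0 (.d k243 k163 k162 11 12)))))), (.s k1 k2 0 (.s k169 k253 13
  (.s k9 k249 11 (.s k12 k6 2 (.s k4 k8 1 (.d k166 k247 k243 12 14)))))), (.s k81 k93 1 (.s k243
  k162 12 (.s k83 k163 11 (.s k86 k92 2 (.s k84 k87 0 (.d k252 k168 k169 13 14)))))), (.s k1 k2 0
  (.s k93 k81 1 (.s k253 k169 13 (.s k13 k173 11 (.s k5 k9 1 (.d k165 k245 k241 11 13))))))] .n) (.c
  k235 (.q k171 [(.s k1 k2 0 (.s k169 k253 13 (.s k252 k86 14 (.d k168 k170 k84 0 13)))), (.s k1 k2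
  0 (.s k81 k93 1 (.s k161 k241 11 (.s k82 k240 12 (.s k83 k80 0 (.d k243 k163 k162 11 12)))))), (.s
  k81 k93 1 (.s k243 k162 12 (.s k83 k163 11 (.s k86 k92 2 (.s k84 k87 0 (.d k252 k168 k169 13
  14))))))] (.c k195 (.q k215 [(.s k1 k2 0 (.s k169 k253 13 (.s k252 k86 14 (.d k168 k170 k84 0
  13)))), (.s k81 k93 1 (.s k150 k20 8 (.s k211 k28 10 (.s k16 k146 8 (.d k223 k219 k154 1 10)))))]
  (.c k63 (.q k151 [(.s k1 k2 0 (.s k87 k23 7 (.s k86 k84 0 (.d k169 k253 k252 13 14)))), (.s k20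
  k150 8 (.s k23 k87 7 (.s k22 k21 0 (.d k60 k40 k41 5 6)))), (.s k1 k2 0 (.s k150 k20 8 (.s k169
  k253 13 (.d k131 k191 k188 5 6))))] (.c k127 (.l (.s k191 k131 5 (.s k1 k2 0 (.s k87 k23 7 (.s k86
  k84 0 (.d k169 k253 k252 13 14)))))) (.c k191 (.q k127 [(.s k1 k2 0 (.s k87 k23 7 (.s k86 k84 0
  (.d k169 k253 k252 13 14)))), (.s k20 k150 8 (.s k23 k87 7 (.s k22 k21 0 (.d k60 k40 k41 5 6)))),
  (.s k1 k2 0 (.s k169 k253 13 (.s k168 k170 0 (.d k252 k86 k84 14 13))))] .n) .n))) (.c k151 (.q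
  k63 [(.s k1 k2 0 (.s k169 k253 13 (.s k252 k86 14 (.d k168 k170 k84 0 13)))), (.s k20 k150 8 (.s
  k21 k42 6 (.s k22 k23 0 (.d k60 k40 k41 5 6))))] .n) .n))) (.c k215 (.q k195 [(.s k1 k2 0 (.s k169
  k253 13 (.s k252 k86 14 (.d k168 k170 k84 0 13)))), (.s k1 k2 0 (.s k65 k130 8 (.s k67 k131 7 (.s
  k66 k64 0 (.d k129 k193 k192 7 8))))), (.s k65 k130 8 (.s k67 k131 7 (.s k105 k125 5 (.s k86 k124
  6 (.s k84 k87 0 (.d k252 k168 k169 13 14))))))] .n) .n))) .n)))) .n)))))))))))))))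

def t43_110 : T TT 256 :=
  (.f k255 k170 14 (.q k165 [(.s k5 k245 11 (.s k15 k10 2 (.s k90 k240 14 (.d k95 k80 k175 2 11))))]
  (.c k5 (.q k84 [(.s k86 k87 0 (.s k252 k168 13 (.s k253 k254 0 (.d k169 k1 k3 13 14)))), (.s k86
  k87 0 (.s k244 k7 12 (.s k4 k164 11 (.s k12 k8 1 (.s k93 k174 12 (.s k89 k81 1 (.d k166 k247 k243
  12 14)))))))] (.c k86 (.f k252 k168 13 (.q k169 [(.d k253 k254 k1 0 13), (.s k173 k161 1 (.s k15
  k94 12 (.s k90 k240 14 (.d k95 k80 k175 2 11))))] (.c k2 (.l (.s k254 k253 0 (.s k173 k161 1 (.s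
  k15 k94 12 (.s k90 k240 14 (.d k95 k80 k175 2 11)))))) (.c k254 (.q k2 [(.d k1 k3 k253 0 13), (.s
  k173 k161 1 (.s k15 k94 12 (.s k95 k175 11 (.d k90 k80 k240 2 14))))] .n) .n)))) (.c k87 (.l (.s
  k252 k168 13 (.s k253 k254 0 (.s k169 k1 13 (.s k173 k161 1 (.s k15 k94 12 (.s k90 k240 14 (.d k95
  k80 k175 2 11)))))))) .n))) (.c k10 (.l (.s k245 k5 11 (.s k240 k250 2 (.s k90 k15 14 (.d k80 k95
  k160 2 11))))) (.c k15 (.q k1 [(.s k5 k245 11 (.s k13 k9 1 (.s k89 k241 13 (.s k93 k81 1 (.d k253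
  k173 k169 11 13))))), (.s k3 k2 0 (.s k87 k171 13 (.s k86 k84 0 (.d k169 k253 k252 13 14)))), (.s
  k3 k2 0 (.s k245 k5 11 (.s k240 k250 2 (.s k160 k80 11 (.s k161 k82 12 (.s k81 k241 11 (.d k162
  k163 k243 0 12)))))))] .n) (.c k80 (.q k1 [(.s k3 k2 0 (.s k169 k253 13 (.s k86 k252 14 (.d k87
  k84 k171 0 13)))), (.s k5 k245 11 (.s k13 k9 1 (.s k89 k241 13 (.s k93 k81 1 (.d k253 k173 k169 11
  13))))), (.s k3 k2 0 (.s k5 k245 11 (.s k9 k13 1 (.s k6 k12 2 (.s k7 k4 0 (.d k15 k11 k10 1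
  2))))))] .n) (.c k90 (.f k245 k5 11 (.f k250 k240 2 (.q k81 [(.s k89 k93 1 (.s k241 k13 13 (.s
  k253 k249 1 (.d k1 k161 k169 11 13)))), (.s k243 k162 12 (.s k247 k251 1 (.s k166 k4 12 (.d k89
  k93 k12 1 14)))), (.s k243 k162 12 (.s k251 k247 1 (.s k249 k248 0 (.s k252 k246 2 (.d k253 k254
  k241 0 1)))))] .n))) (.c k95 (.q k1 [(.s k3 k2 0 (.s k169 k253 13 (.s k86 k252 14 (.d k87 k84 k171
  0 13)))), (.s k5 k245 11 (.s k13 k9 1 (.s k89 k241 13 (.s k93 k81 1 (.d k253 k173 k169 11 13))))),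
  (.s k3 k2 0 (.s k5 k245 11 (.s k9 k13 1 (.s k6 k12 2 (.s k7 k4 0 (.d k15 k11 k10 1 2))))))] .n)
  (.c k175 (.l (.s k245 k5 11 (.s k240 k250 2 (.s k80 k160 11 (.d k90 k95 k15 2 14))))) (.c k240 (.q
  k1 [(.s k3 k2 0 (.s k169 k253 13 (.s k86 k252 14 (.d k87 k84 k171 0 13)))), (.s k5 k245 11 (.s k13
  k9 1 (.s k89 k241 13 (.s k93 k81 1 (.d k253 k173 k169 11 13))))), (.s k3 k2 0 (.s k5 k245 11 (.s
  k9 k13 1 (.s k6 k12 2 (.s k7 k4 0 (.d k15 k11 k10 1 2))))))] .n) (.c k245 (.q k247 [(.s k166 k4 12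
  (.s k243 k251 1 (.s k81 k162 12 (.d k89 k93 k12 1 14)))), (.s k166 k4 12 (.s k167 k164 0 (.s k87
  k7 11 (.s k3 k171 13 (.s k1 k2 0 (.s k169 k253 13 (.d k86 k84 k252 0 14)))))))] (.c k4 (.l (.s
  k243 k251 1 (.s k81 k162 12 (.s k89 k93 1 (.s k241 k13 13 (.s k240 k242 0 (.s k80 k160 11 (.d k90
  k95 k15 2 14)))))))) (.c k166 (.f k243 k251 1 (.q k89 [(.d k81 k162 k93 12 1), (.s k241 k13 13 (.s
  k240 k242 0 (.s k80 k160 11 (.d k90 k95 k15 2 14))))] (.c k162 (.q k174 [(.d k93 k81 k12 1 12),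
  (.s k241 k13 13 (.s k240 k242 0 (.s k80 k160 11 (.d k90 k95 k15 2 14))))] .n) (.c k174 (.l (.s
  k162 k81 12 (.s k241 k13 13 (.s k240 k242 0 (.s k80 k160 11 (.d k90 k95 k15 2 14)))))) .n))))
  .n))) (.c k250 (.l (.s k5 k245 11 (.s k15 k10 2 (.s k90 k240 14 (.d k95 k80 k175 2 11)))))
  .n))))))))))))

def t43_111 : T TT 256 :=
  (.f k255 k170 14 (.q k165 [(.s k5 k245 11 (.s k15 k10 2 (.s k90 k240 14 (.d k95 k80 k175 2 11))))]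
  (.c k5 (.q k93 [(.s k89 k81 1 (.s k12 k174 12 (.s k166 k243 14 (.d k4 k8 k247 1 12)))), (.s k89
  k81 1 (.s k13 k241 13 (.s k253 k173 11 (.s k252 k254 0 (.s k84 k168 13 (.s k86 k87 0 (.d k169 k1
  k3 13 14)))))))] (.c k81 (.l (.s k12 k174 12 (.s k4 k8 1 (.s k166 k247 12 (.s k164 k167 0 (.s k240
  k88 13 (.s k80 k160 11 (.d k90 k95 k15 2 14)))))))) (.c k89 (.f k12 k174 12 (.q k166 [(.d k4 k8
  k247 1 12), (.s k164 k167 0 (.s k240 k88 13 (.s k80 k160 11 (.d k90 k95 k15 2 14))))] (.c k8 (.q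
  k251 [(.d k247 k243 k4 1 12), (.s k164 k167 0 (.s k240 k88 13 (.s k80 k160 11 (.d k90 k95 k15 2
  14))))] .n) (.c k251 (.l (.s k8 k4 1 (.s k164 k167 0 (.s k240 k88 13 (.s k80 k160 11 (.d k90 k95
  k15 2 14)))))) .n)))) .n))) (.c k10 (.l (.s k245 k5 11 (.s k240 k250 2 (.s k90 k15 14 (.d k80 k95
  k160 2 11))))) (.c k15 (.q k1 [(.s k5 k245 11 (.s k13 k9 1 (.s k89 k241 13 (.s k93 k81 1 (.d k253
  k173 k169 11 13))))), (.s k3 k2 0 (.s k87 k171 13 (.s k86 k84 0 (.d k169 k253 k252 13 14)))), (.s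
  k3 k2 0 (.s k245 k5 11 (.s k240 k250 2 (.s k160 k80 11 (.s k161 k82 12 (.s k81 k241 11 (.d k162
  k163 k243 0 12)))))))] .n) (.c k80 (.q k1 [(.s k3 k2 0 (.s k169 k253 13 (.s k86 k252 14 (.d k87
  k84 k171 0 13)))), (.s k5 k245 11 (.s k13 k9 1 (.s k89 k241 13 (.s k93 k81 1 (.d k253 k173 k169 11
  13))))), (.s k3 k2 0 (.s k5 k245 11 (.s k9 k13 1 (.s k6 k12 2 (.s k7 k4 0 (.d k15 k11 k10 1
  2))))))] .n) (.c k90 (.f k245 k5 11 (.f k250 k240 2 (.q k81 [(.s k89 k93 1 (.s k241 k13 13 (.s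
  k253 k249 1 (.d k1 k161 k169 11 13)))), (.s k89 k93 1 (.s k243 k162 12 (.s k166 k12 14 (.d k247
  k251 k4 1 12)))), (.s k243 k162 12 (.s k251 k247 1 (.s k249 k248 0 (.s k252 k246 2 (.d k253 k254
  k241 0 1)))))] .n))) (.c k95 (.q k127 [(.s k63 k191 7 (.s k106 k64 6 (.s k149 k192 14 (.d k21 k42
  k213 6 7)))), (.s k5 k245 11 (.s k15 k10 2 (.s k106 k64 6 (.s k47 k224 10 (.d k63 k31 k191 3
  7))))), (.s k63 k191 7 (.s k245 k5 11 (.s k240 k250 2 (.s k181 k122 10 (.s k149 k133 3 (.d k21 k42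
  k213 6 7))))))] (.c k63 (.l (.s k5 k245 11 (.s k15 k10 2 (.s k64 k106 6 (.s k192 k128 7 (.s k133
  k74 10 (.s k149 k181 3 (.d k213 k234 k21 6 7)))))))) (.c k191 (.l (.s k5 k245 11 (.s k15 k10 2 (.s
  k106 k64 6 (.s k47 k224 10 (.s k63 k31 3 (.s k21 k42 6 (.d k149 k213 k192 7 14)))))))) .n))) (.c
  k175 (.l (.s k245 k5 11 (.s k240 k250 2 (.s k80 k160 11 (.d k90 k95 k15 2 14))))) (.c k240 (.q k1
  [(.s k3 k2 0 (.s k169 k253 13 (.s k86 k252 14 (.d k87 k84 k171 0 13)))), (.s k5 k245 11 (.s k13 k9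
  1 (.s k89 k241 13 (.s k93 k81 1 (.d k253 k173 k169 11 13))))), (.s k3 k2 0 (.s k5 k245 11 (.s k9
  k13 1 (.s k6 k12 2 (.s k7 k4 0 (.d k15 k11 k10 1 2))))))] .n) (.c k245 (.q k247 [(.s k166 k4 12
  (.s k243 k251 1 (.s k81 k162 12 (.d k89 k93 k12 1 14)))), (.s k166 k4 12 (.s k167 k164 0 (.s k87
  k7 11 (.s k3 k171 13 (.s k1 k2 0 (.s k169 k253 13 (.d k86 k84 k252 0 14)))))))] (.c k4 (.l (.s
  k243 k251 1 (.s k81 k162 12 (.s k89 k93 1 (.s k241 k13 13 (.s k240 k242 0 (.s k80 k160 11 (.d k90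
  k95 k15 2 14)))))))) (.c k166 (.f k243 k251 1 (.q k89 [(.d k81 k162 k93 12 1), (.s k241 k13 13 (.s
  k240 k242 0 (.s k80 k160 11 (.d k90 k95 k15 2 14))))] (.c k162 (.q k174 [(.d k93 k81 k12 1 12),
  (.s k241 k13 13 (.s k240 k242 0 (.s k80 k160 11 (.d k90 k95 k15 2 14))))] .n) (.c k174 (.l (.s
  k162 k81 12 (.s k241 k13 13 (.s k240 k242 0 (.s k80 k160 11 (.d k90 k95 k15 2 14)))))) .n))))
  .n))) (.c k250 (.l (.s k5 k245 11 (.s k15 k10 2 (.s k90 k240 14 (.d k95 k80 k175 2 11)))))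
  .n))))))))))))

def t43_126 : T TT 256 :=
  (.f k255 k170 14 (.q k165 [(.s k5 k245 11 (.s k15 k10 2 (.s k90 k240 14 (.d k95 k80 k175 2 11))))]
  (.c k5 (.q k93 [(.s k89 k81 1 (.s k12 k174 12 (.s k166 k243 14 (.d k4 k8 k247 1 12)))), (.s k89
  k81 1 (.s k13 k241 13 (.s k253 k173 11 (.s k252 k254 0 (.s k84 k168 13 (.s k86 k87 0 (.d k169 k1
  k3 13 14)))))))] (.c k81 (.l (.s k12 k174 12 (.s k4 k8 1 (.s k166 k247 12 (.s k164 k167 0 (.s k240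
  k88 13 (.s k80 k160 11 (.d k90 k95 k15 2 14)))))))) (.c k89 (.f k12 k174 12 (.q k166 [(.d k4 k8
  k247 1 12), (.s k164 k167 0 (.s k240 k88 13 (.s k80 k160 11 (.d k90 k95 k15 2 14))))] (.c k8 (.q
  k251 [(.d k247 k243 k4 1 12), (.s k164 k167 0 (.s k240 k88 13 (.s k80 k160 11 (.d k90 k95 k15 2
  14))))] .n) (.c k251 (.l (.s k8 k4 1 (.s k164 k167 0 (.s k240 k88 13 (.s k80 k160 11 (.d k90 k95
  k15 2 14)))))) .n)))) .n))) (.c k10 (.l (.s k245 k5 11 (.s k240 k250 2 (.s k90 k15 14 (.d k80 k95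
  k160 2 11))))) (.c k15 (.q k1 [(.s k5 k245 11 (.s k13 k9 1 (.s k89 k241 13 (.s k93 k81 1 (.d k253
  k173 k169 11 13))))), (.s k3 k2 0 (.s k87 k171 13 (.s k86 k84 0 (.d k169 k253 k252 13 14)))), (.s
  k3 k2 0 (.s k245 k5 11 (.s k240 k250 2 (.s k160 k80 11 (.s k161 k82 12 (.s k81 k241 11 (.d k162
  k163 k243 0 12)))))))] .n) (.c k80 (.q k1 [(.s k3 k2 0 (.s k169 k253 13 (.s k86 k252 14 (.d k87
  k84 k171 0 13)))), (.s k5 k245 11 (.s k13 k9 1 (.s k89 k241 13 (.s k93 k81 1 (.d k253 k173 k169 11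
  13))))), (.s k3 k2 0 (.s k5 k245 11 (.s k9 k13 1 (.s k6 k12 2 (.s k7 k4 0 (.d k15 k11 k10 1
  2))))))] .n) (.c k90 (.f k245 k5 11 (.f k250 k240 2 (.q k81 [(.s k89 k93 1 (.s k241 k13 13 (.s
  k253 k249 1 (.d k1 k161 k169 11 13)))), (.s k89 k93 1 (.s k243 k162 12 (.s k166 k12 14 (.d k247
  k251 k4 1 12)))), (.s k243 k162 12 (.s k251 k247 1 (.s k249 k248 0 (.s k252 k246 2 (.d k253 k254
  k241 0 1)))))] .n))) (.c k95 (.q k1 [(.s k5 k245 11 (.s k13 k9 1 (.s k89 k241 13 (.s k93 k81 1 (.d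
  k253 k173 k169 11 13))))), (.s k3 k2 0 (.s k87 k171 13 (.s k86 k84 0 (.d k169 k253 k252 13 14)))),
  (.s k3 k2 0 (.s k5 k245 11 (.s k9 k13 1 (.s k6 k12 2 (.s k7 k4 0 (.d k15 k11 k10 1 2))))))] .n)
  (.c k175 (.l (.s k245 k5 11 (.s k240 k250 2 (.s k80 k160 11 (.d k90 k95 k15 2 14))))) (.c k240 (.q
  k1 [(.s k3 k2 0 (.s k87 k171 13 (.s k86 k84 0 (.d k169 k253 k252 13 14)))), (.s k5 k245 11 (.s k13
  k9 1 (.s k89 k241 13 (.s k93 k81 1 (.d k253 k173 k169 11 13))))), (.s k3 k2 0 (.s k5 k245 11 (.s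
  k9 k13 1 (.s k6 k12 2 (.s k7 k4 0 (.d k15 k11 k10 1 2))))))] .n) (.c k245 (.q k247 [(.s k166 k4 12
  (.s k243 k251 1 (.s k81 k162 12 (.d k89 k93 k12 1 14)))), (.s k166 k4 12 (.s k167 k164 0 (.s k87
  k7 11 (.s k3 k171 13 (.s k1 k2 0 (.s k169 k253 13 (.d k86 k84 k252 0 14)))))))] (.c k4 (.l (.s
  k243 k251 1 (.s k81 k162 12 (.s k89 k93 1 (.s k241 k13 13 (.s k240 k242 0 (.s k80 k160 11 (.d k90
  k95 k15 2 14)))))))) (.c k166 (.f k243 k251 1 (.q k89 [(.d k81 k162 k93 12 1), (.s k241 k13 13 (.s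
  k240 k242 0 (.s k80 k160 11 (.d k90 k95 k15 2 14))))] (.c k162 (.q k174 [(.d k93 k81 k12 1 12),
  (.s k241 k13 13 (.s k240 k242 0 (.s k80 k160 11 (.d k90 k95 k15 2 14))))] .n) (.c k174 (.l (.s
  k162 k81 12 (.s k241 k13 13 (.s k240 k242 0 (.s k80 k160 11 (.d k90 k95 k15 2 14)))))) .n))))
  .n))) (.c k250 (.l (.s k5 k245 11 (.s k15 k10 2 (.s k90 k240 14 (.d k95 k80 k175 2 11)))))
  .n))))))))))))

def t43_139 : T TT 256 :=
  (.f k255 k170 14 (.q k106 [(.s k64 k127 6 (.s k192 k128 7 (.s k213 k234 6 (.d k149 k21 k63 7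
  14))))] (.c k21 (.q k1 [(.s k3 k2 0 (.s k169 k253 13 (.s k86 k252 14 (.d k87 k84 k171 0 13)))),
  (.s k64 k127 6 (.s k192 k128 7 (.s k213 k234 6 (.s k253 k169 13 (.s k193 k233 5 (.s k65 k129 7 (.d
  k195 k130 k194 8 0))))))), (.s k3 k2 0 (.s k64 k127 6 (.s k192 k128 7 (.s k66 k129 8 (.s k86 k126
  5 (.d k87 k84 k171 0 13))))))] (.c k171 (.l (.s k3 k2 0 (.s k64 k127 6 (.s k169 k253 13 (.s k86
  k252 14 (.s k66 k126 5 (.d k192 k128 k129 7 8))))))) .n)) (.c k63 (.q k3 [(.s k1 k2 0 (.s k169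
  k253 13 (.s k86 k252 14 (.d k87 k84 k171 0 13)))), (.s k2 k1 0 (.s k64 k127 6 (.s k192 k128 7 (.s
  k66 k129 8 (.s k65 k67 0 (.d k130 k194 k195 7 8)))))), (.s k64 k127 6 (.s k87 k171 13 (.s k86 k84
  0 (.s k66 k126 5 (.d k192 k128 k129 7 8)))))] (.c k87 (.l (.s k1 k2 0 (.s k64 k127 6 (.s k169 k253
  13 (.s k86 k252 14 (.s k192 k128 7 (.d k66 k126 k129 5 8))))))) .n)) (.c k64 (.q k195 [(.s k65
  k130 8 (.s k105 k125 5 (.s k150 k60 14 (.d k215 k235 k20 5 8)))), (.s k65 k130 8 (.s k105 k125 5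
  (.s k107 k104 0 (.s k63 k151 13 (.s k21 k42 6 (.d k149 k213 k192 7 14)))))), (.s k215 k235 5 (.s
  k150 k20 8 (.s k194 k62 13 (.s k192 k193 0 (.s k149 k63 14 (.d k213 k234 k21 6 7))))))] (.c k105
  (.f k235 k215 5 (.q k1 [(.s k3 k2 0 (.s k169 k253 13 (.s k86 k252 14 (.d k87 k84 k171 0 13)))),
  (.s k65 k130 8 (.s k193 k129 7 (.s k192 k194 0 (.s k213 k234 6 (.d k149 k21 k63 7 14)))))] (.c k2
  (.l (.s k65 k130 8 (.s k193 k129 7 (.s k253 k169 13 (.s k233 k213 5 (.d k252 k214 k254 6 0))))))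
  (.c k254 (.l (.s k169 k253 13 (.s k3 k2 0 (.s k86 k252 14 (.d k87 k84 k171 0 13))))) .n)))) (.c
  k150 (.q k211 [(.s k243 k227 3 (.s k81 k162 12 (.s k89 k93 1 (.s k166 k12 14 (.d k247 k251 k4 1
  12))))), (.s k215 k235 5 (.s k219 k223 1 (.s k243 k227 3 (.s k231 k207 5 (.d k247 k251 k199 1
  3))))), (.s k215 k235 5 (.s k223 k219 1 (.s k16 k154 10 (.s k48 k32 3 (.d k146 k81 k97 8 12)))))]
  (.c k130 (.q k190 [(.s k243 k227 3 (.s k81 k162 12 (.s k89 k93 1 (.s k166 k12 14 (.d k247 k251 k4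
  1 12))))), (.s k215 k235 5 (.s k219 k223 1 (.s k243 k227 3 (.s k231 k207 5 (.d k247 k251 k199 1
  3))))), (.s k215 k235 5 (.s k223 k219 1 (.s k16 k154 10 (.s k48 k32 3 (.d k146 k81 k97 8 12)))))]
  (.c k251 (.l (.s k125 k60 8 (.s k65 k105 5 (.s k243 k227 3 (.s k81 k162 12 (.s k97 k113 3 (.d k146
  k16 k48 8 12))))))) .n)) (.c k190 (.l (.s k130 k65 8 (.s k215 k235 5 (.s k219 k223 1 (.s k243 k227
  3 (.s k231 k207 5 (.d k247 k251 k199 1 3))))))) (.c k251 (.l (.s k215 k235 5 (.s k243 k227 3 (.s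
  k81 k162 12 (.s k16 k146 8 (.d k223 k219 k154 1 10)))))) .n)))) .n))) (.c k127 (.q k204 [(.s k221
  k238 4 (.s k153 k17 9 (.s k102 k51 14 (.d k68 k119 k136 4 9)))), (.s k68 k136 9 (.s k102 k119 4
  (.s k110 k98 1 (.s k63 k157 12 (.s k21 k42 6 (.d k149 k213 k192 7 14)))))), (.s k221 k238 4 (.s
  k153 k17 9 (.s k200 k59 12 (.s k192 k196 1 (.s k149 k63 14 (.d k213 k234 k21 6 7))))))] (.c k102
  (.q k84 [(.s k252 k168 13 (.s k253 k254 0 (.s k169 k1 13 (.d k86 k87 k3 0 14)))), (.s k68 k136 9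
  (.s k100 k116 3 (.s k48 k152 13 (.s k32 k16 3 (.d k168 k236 k252 9 13)))))] (.c k34 (.l (.s k238
  k221 4 (.s k86 k87 0 (.s k252 k168 13 (.s k169 k3 14 (.d k253 k254 k1 0 13)))))) (.c k168 (.l (.s
  k68 k136 9 (.s k86 k87 0 (.s k100 k116 3 (.s k152 k48 13 (.s k220 k16 9 (.s k153 k19 10 (.d k221
  k17 k238 9 4)))))))) (.c k238 (.q k34 [(.s k252 k168 13 (.s k253 k254 0 (.s k169 k1 13 (.d k86 k87
  k3 0 14)))), (.s k17 k51 4 (.s k153 k221 9 (.s k200 k59 12 (.s k192 k196 1 (.s k213 k234 6 (.d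
  k149 k63 k21 14 7))))))] .n) (.c k252 (.l (.s k68 k136 9 (.s k87 k86 0 (.s k3 k171 13 (.s k2 k1 0
  (.s k70 k137 10 (.s k138 k206 9 (.d k69 k71 k207 0 10)))))))) .n))))) (.c k153 (.f k136 k68 9 (.q
  k4 [(.s k166 k247 12 (.s k12 k8 1 (.s k89 k243 14 (.d k93 k81 k174 1 12)))), (.s k8 k12 1 (.s k200
  k72 7 (.s k192 k196 1 (.s k149 k63 14 (.d k213 k234 k21 6 7))))), (.s k166 k247 12 (.s k46 k226 9
  (.s k238 k221 4 (.s k110 k174 7 (.s k63 k157 12 (.s k21 k42 6 (.d k149 k213 k192 7 14)))))))] .n))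
  .n))) (.c k128 (.l (.s k127 k64 6 (.s k63 k191 7 (.s k149 k192 14 (.d k21 k42 k213 6 7))))) (.c
  k149 (.f k127 k64 6 (.q k119 [(.s k102 k68 4 (.s k110 k98 1 (.s k76 k93 4 (.d k115 k123 k89 1
  6)))), (.s k51 k187 9 (.s k17 k34 4 (.s k153 k221 9 (.s k59 k200 12 (.d k63 k191 k55 7 1)))))] (.c
  k102 (.l (.s k123 k115 1 (.s k89 k72 4 (.s k81 k93 1 (.s k243 k162 12 (.d k63 k191 k183 7 9))))))
  (.c k128 (.l (.s k191 k63 7 (.s k51 k187 9 (.s k17 k34 4 (.s k102 k68 4 (.d k153 k221 k204 9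
  14)))))) (.c k191 (.q k128 [(.s k102 k68 4 (.s k110 k98 1 (.s k76 k93 4 (.d k115 k123 k89 1 6)))),
  (.s k51 k187 9 (.s k17 k34 4 (.s k153 k221 9 (.d k102 k68 k204 4 14)))), (.s k123 k115 1 (.s k187
  k51 9 (.s k251 k59 7 (.s k243 k247 1 (.s k81 k162 12 (.d k89 k93 k72 1 4))))))] .n) .n))))) (.c
  k191 (.l (.s k64 k127 6 (.s k192 k128 7 (.s k149 k63 14 (.d k213 k234 k21 6 7))))) (.c k192 (.q k4
  [(.s k12 k8 1 (.s k93 k174 12 (.s k89 k81 1 (.d k166 k247 k243 12 14)))), (.s k127 k64 6 (.s k63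
  k191 7 (.s k21 k42 6 (.s k55 k38 4 (.s k247 k166 12 (.s k119 k183 7 (.d k51 k187 k59 9 1))))))),
  (.s k12 k8 1 (.s k127 k64 6 (.s k63 k191 7 (.s k21 k42 6 (.s k29 k46 4 (.s k25 k17 1 (.d k38 k55
  k51 4 6)))))))] .n) (.c k213 (.q k3 [(.s k1 k2 0 (.s k169 k253 13 (.s k86 k252 14 (.d k87 k84 k171
  0 13)))), (.s k2 k1 0 (.s k64 k127 6 (.s k192 k128 7 (.s k66 k129 8 (.s k65 k67 0 (.d k130 k194
  k195 7 8)))))), (.s k64 k127 6 (.s k87 k171 13 (.s k86 k84 0 (.s k66 k126 5 (.d k192 k128 k129 7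
  8)))))] (.c k87 (.l (.s k1 k2 0 (.s k64 k127 6 (.s k169 k253 13 (.s k86 k252 14 (.s k66 k126 5 (.d
  k192 k128 k129 7 8))))))) .n)) (.c k234 (.l (.s k127 k64 6 (.s k63 k191 7 (.s k21 k42 6 (.d k149
  k213 k192 7 14))))) .n))))))))))))

def t43_142 : T TT 256 :=
  (.f k255 k170 14 (.q k106 [(.s k64 k127 6 (.s k192 k128 7 (.s k213 k234 6 (.d k149 k21 k63 7
  14))))] (.c k21 (.q k1 [(.s k3 k2 0 (.s k169 k253 13 (.s k86 k252 14 (.d k87 k84 k171 0 13)))),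
  (.s k64 k127 6 (.s k192 k128 7 (.s k213 k234 6 (.s k253 k169 13 (.s k193 k233 5 (.s k65 k129 7 (.d
  k195 k130 k194 8 0))))))), (.s k3 k2 0 (.s k64 k127 6 (.s k192 k128 7 (.s k66 k129 8 (.s k86 k126
  5 (.d k87 k84 k171 0 13))))))] (.c k171 (.l (.s k3 k2 0 (.s k64 k127 6 (.s k169 k253 13 (.s k86
  k252 14 (.s k66 k126 5 (.d k192 k128 k129 7 8))))))) .n)) (.c k63 (.q k3 [(.s k1 k2 0 (.s k169
  k253 13 (.s k86 k252 14 (.d k87 k84 k171 0 13)))), (.s k2 k1 0 (.s k64 k127 6 (.s k192 k128 7 (.s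
  k66 k129 8 (.s k65 k67 0 (.d k130 k194 k195 7 8)))))), (.s k64 k127 6 (.s k87 k171 13 (.s k86 k84
  0 (.s k66 k126 5 (.d k192 k128 k129 7 8)))))] (.c k87 (.l (.s k1 k2 0 (.s k64 k127 6 (.s k169 k253
  13 (.s k86 k252 14 (.s k192 k128 7 (.d k66 k126 k129 5 8))))))) .n)) (.c k64 (.q k3 [(.s k1 k2 0
  (.s k169 k253 13 (.s k86 k252 14 (.d k87 k84 k171 0 13)))), (.s k87 k171 13 (.s k86 k84 0 (.s k66
  k126 5 (.s k192 k129 8 (.s k213 k234 6 (.d k149 k21 k63 7 14)))))), (.s k1 k2 0 (.s k169 k253 13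
  (.s k86 k252 14 (.s k66 k126 5 (.s k192 k129 8 (.s k213 k234 6 (.d k149 k63 k21 14 7)))))))] (.c
  k86 (.q k83 [(.s k243 k163 11 (.s k81 k162 12 (.s k82 k80 0 (.s k161 k240 12 (.d k1 k2 k241 0
  11))))), (.s k87 k171 13 (.s k91 k95 1 (.s k243 k163 11 (.s k167 k15 13 (.d k247 k251 k7 1
  11))))), (.s k87 k171 13 (.s k95 k91 1 (.s k80 k90 2 (.s k82 k81 0 (.d k240 k160 k161 11 12)))))]
  (.c k2 (.q k254 [(.s k87 k171 13 (.s k91 k95 1 (.s k243 k163 11 (.s k167 k15 13 (.d k247 k251 k7 1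
  11))))), (.s k243 k163 11 (.s k81 k162 12 (.s k82 k80 0 (.s k161 k240 12 (.s k1 k241 11 (.d k253
  k252 k169 0 13)))))), (.s k87 k171 13 (.s k95 k91 1 (.s k80 k90 2 (.s k82 k81 0 (.d k240 k160 k161
  11 12)))))] (.c k169 (.l (.s k243 k163 11 (.s k81 k162 12 (.s k89 k93 1 (.s k166 k12 14 (.d k247
  k251 k4 1 12)))))) .n)) (.c k254 (.l (.s k2 k1 0 (.s k87 k171 13 (.s k91 k95 1 (.s k243 k163 11
  (.s k167 k15 13 (.d k247 k251 k7 1 11))))))) .n))) (.c k169 (.f k171 k87 13 (.q k12 [(.s k4 k8 1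
  (.s k166 k247 12 (.s k89 k243 14 (.d k93 k81 k174 1 12)))), (.s k1 k2 0 (.s k8 k4 1 (.s k9 k6 2
  (.s k5 k13 1 (.d k10 k11 k15 0 2))))), (.s k93 k174 12 (.s k89 k81 1 (.s k72 k123 4 (.s k192 k132
  9 (.s k149 k63 14 (.d k213 k234 k21 6 7))))))] .n)) .n))) (.c k127 (.q k204 [(.s k68 k136 9 (.s
  k221 k238 4 (.s k153 k17 9 (.d k102 k119 k51 4 14)))), (.s k68 k136 9 (.s k102 k119 4 (.s k110 k98
  1 (.s k63 k157 12 (.s k21 k42 6 (.d k149 k213 k192 7 14)))))), (.s k221 k238 4 (.s k153 k17 9 (.s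
  k200 k59 12 (.s k192 k196 1 (.s k149 k63 14 (.d k213 k234 k21 6 7))))))] (.c k102 (.q k200 [(.s
  k153 k59 12 (.d k221 k238 k17 4 9)), (.s k192 k196 1 (.s k149 k63 14 (.d k213 k234 k21 6 7)))] (.c
  k34 (.l (.s k238 k221 4 (.s k192 k196 1 (.s k149 k63 14 (.d k213 k234 k21 6 7))))) (.c k238 (.q
  k34 [(.s k17 k51 4 (.d k153 k221 k59 9 12)), (.s k192 k196 1 (.s k149 k63 14 (.d k213 k234 k21 6
  7)))] .n) .n))) (.c k153 (.q k102 [(.d k68 k136 k119 9 4), (.s k110 k98 1 (.s k63 k157 12 (.s k21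
  k42 6 (.d k149 k213 k192 7 14))))] (.c k136 (.q k187 [(.d k119 k68 k51 4 9), (.s k110 k98 1 (.s
  k63 k157 12 (.s k21 k42 6 (.d k149 k213 k192 7 14))))] .n) (.c k187 (.l (.s k136 k68 9 (.s k110
  k98 1 (.s k63 k157 12 (.s k21 k42 6 (.d k149 k213 k192 7 14)))))) .n))) .n))) (.c k128 (.l (.s
  k127 k64 6 (.s k63 k191 7 (.s k149 k192 14 (.d k21 k42 k213 6 7))))) (.c k149 (.f k127 k64 6 (.q
  k105 [(.s k65 k125 5 (.s k195 k130 8 (.s k150 k60 14 (.d k215 k235 k20 5 8)))), (.s k107 k104 0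
  (.s k87 k67 5 (.s k3 k171 13 (.s k1 k2 0 (.s k169 k253 13 (.d k86 k84 k252 0 14))))))] (.c k65 (.l
  (.s k107 k104 0 (.s k67 k87 5 (.s k124 k86 6 (.s k125 k126 0 (.s k60 k190 8 (.s k20 k40 5 (.d k150
  k215 k195 8 14)))))))) (.c k128 (.l (.s k191 k63 7 (.s k65 k125 5 (.s k195 k130 8 (.s k150 k60 14
  (.d k215 k235 k20 5 8)))))) (.c k191 (.q k128 [(.s k65 k125 5 (.s k195 k130 8 (.s k150 k60 14 (.d
  k215 k235 k20 5 8)))), (.s k107 k104 0 (.s k87 k67 5 (.s k3 k171 13 (.s k1 k2 0 (.s k169 k253 13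
  (.d k86 k84 k252 0 14))))))] (.c k65 (.l (.s k107 k104 0 (.s k67 k87 5 (.s k124 k86 6 (.s k125
  k126 0 (.s k60 k190 8 (.s k20 k40 5 (.d k150 k215 k195 8 14)))))))) .n)) .n))))) (.c k191 (.l (.s
  k64 k127 6 (.s k192 k128 7 (.s k149 k63 14 (.d k213 k234 k21 6 7))))) (.c k192 (.q k4 [(.s k12 k8
  1 (.s k166 k247 12 (.s k89 k243 14 (.d k93 k81 k174 1 12)))), (.s k127 k64 6 (.s k63 k191 7 (.s
  k21 k42 6 (.s k55 k38 4 (.s k247 k166 12 (.s k119 k183 7 (.d k51 k187 k59 9 1))))))), (.s k12 k8 1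
  (.s k127 k64 6 (.s k63 k191 7 (.s k21 k42 6 (.s k29 k46 4 (.s k25 k17 1 (.d k38 k55 k51 4
  6)))))))] .n) (.c k213 (.q k3 [(.s k1 k2 0 (.s k169 k253 13 (.s k86 k252 14 (.d k87 k84 k171 0
  13)))), (.s k2 k1 0 (.s k64 k127 6 (.s k192 k128 7 (.s k66 k129 8 (.s k65 k67 0 (.d k130 k194 k195
  7 8)))))), (.s k64 k127 6 (.s k87 k171 13 (.s k86 k84 0 (.s k66 k126 5 (.d k192 k128 k129 7
  8)))))] (.c k87 (.l (.s k1 k2 0 (.s k64 k127 6 (.s k169 k253 13 (.s k86 k252 14 (.s k66 k126 5 (.d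
  k192 k128 k129 7 8))))))) .n)) (.c k234 (.l (.s k127 k64 6 (.s k63 k191 7 (.s k21 k42 6 (.d k149
  k213 k192 7 14))))) .n))))))))))))

def t43_143 : T TT 256 :=
  (.f k255 k170 14 (.q k106 [(.s k64 k127 6 (.s k192 k128 7 (.s k213 k234 6 (.d k149 k21 k63 7
  14)))), (.s k127 k64 6 (.s k63 k191 7 (.s k149 k192 14 (.d k21 k42 k213 6 7))))] (.c k21 (.q k1
  [(.s k3 k2 0 (.s k169 k253 13 (.s k86 k252 14 (.d k87 k84 k171 0 13)))), (.s k64 k127 6 (.s k192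
  k128 7 (.s k213 k234 6 (.s k253 k169 13 (.s k193 k233 5 (.s k65 k129 7 (.d k195 k130 k194 8
  0))))))), (.s k3 k2 0 (.s k64 k127 6 (.s k192 k128 7 (.s k66 k129 8 (.s k86 k126 5 (.d k87 k84
  k171 0 13))))))] (.c k171 (.l (.s k3 k2 0 (.s k64 k127 6 (.s k169 k253 13 (.s k86 k252 14 (.s k66
  k126 5 (.d k192 k128 k129 7 8))))))) .n)) (.c k63 (.q k3 [(.s k1 k2 0 (.s k169 k253 13 (.s k86
  k252 14 (.d k87 k84 k171 0 13)))), (.s k2 k1 0 (.s k64 k127 6 (.s k192 k128 7 (.s k66 k129 8 (.s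
  k65 k67 0 (.d k130 k194 k195 7 8)))))), (.s k64 k127 6 (.s k87 k171 13 (.s k86 k84 0 (.s k66 k126
  5 (.d k192 k128 k129 7 8)))))] (.c k87 (.l (.s k1 k2 0 (.s k64 k127 6 (.s k169 k253 13 (.s k86
  k252 14 (.s k192 k128 7 (.d k66 k126 k129 5 8))))))) .n)) (.c k64 (.q k3 [(.s k1 k2 0 (.s k169
  k253 13 (.s k86 k252 14 (.d k87 k84 k171 0 13)))), (.s k87 k171 13 (.s k86 k84 0 (.s k66 k126 5
  (.s k192 k129 8 (.s k213 k234 6 (.d k149 k21 k63 7 14)))))), (.s k1 k2 0 (.s k169 k253 13 (.s k86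
  k252 14 (.s k66 k126 5 (.s k192 k129 8 (.s k213 k234 6 (.d k149 k63 k21 14 7)))))))] (.c k86 (.q
  k83 [(.s k243 k163 11 (.s k81 k162 12 (.s k82 k80 0 (.s k161 k240 12 (.d k1 k2 k241 0 11))))), (.s
  k87 k171 13 (.s k91 k95 1 (.s k243 k163 11 (.s k167 k15 13 (.d k247 k251 k7 1 11))))), (.s k87
  k171 13 (.s k95 k91 1 (.s k80 k90 2 (.s k82 k81 0 (.d k240 k160 k161 11 12)))))] (.c k2 (.q k254
  [(.s k243 k163 11 (.s k81 k162 12 (.s k89 k93 1 (.s k166 k12 14 (.d k247 k251 k4 1 12))))), (.s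
  k87 k171 13 (.s k91 k95 1 (.s k243 k163 11 (.s k167 k15 13 (.d k247 k251 k7 1 11))))), (.s k87
  k171 13 (.s k95 k91 1 (.s k80 k90 2 (.s k82 k81 0 (.d k240 k160 k161 11 12)))))] (.c k251 (.l (.s
  k243 k163 11 (.s k81 k162 12 (.s k82 k80 0 (.s k161 k240 12 (.s k1 k241 11 (.d k253 k252 k169 0
  13))))))) .n)) (.c k254 (.l (.s k2 k1 0 (.s k87 k171 13 (.s k91 k95 1 (.s k243 k163 11 (.s k167
  k15 13 (.d k247 k251 k7 1 11))))))) .n))) (.c k169 (.f k171 k87 13 (.q k12 [(.s k4 k8 1 (.s k93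
  k174 12 (.s k89 k81 1 (.d k166 k247 k243 12 14)))), (.s k1 k2 0 (.s k8 k4 1 (.s k9 k6 2 (.s k5 k13
  1 (.d k10 k11 k15 0 2))))), (.s k93 k174 12 (.s k89 k81 1 (.s k72 k123 4 (.s k192 k132 9 (.s k149
  k63 14 (.d k213 k234 k21 6 7))))))] .n)) .n))) (.c k127 (.q k204 [(.s k68 k136 9 (.s k221 k238 4
  (.s k153 k17 9 (.d k102 k119 k51 4 14)))), (.s k68 k136 9 (.s k102 k119 4 (.s k110 k98 1 (.s k63
  k157 12 (.s k21 k42 6 (.d k149 k213 k192 7 14)))))), (.s k221 k238 4 (.s k153 k17 9 (.s k200 k59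
  12 (.s k192 k196 1 (.s k149 k63 14 (.d k213 k234 k21 6 7))))))] (.c k102 (.q k200 [(.s k153 k59 12
  (.d k221 k238 k17 4 9)), (.s k192 k196 1 (.s k149 k63 14 (.d k213 k234 k21 6 7)))] (.c k34 (.l (.s
  k238 k221 4 (.s k192 k196 1 (.s k149 k63 14 (.d k213 k234 k21 6 7))))) (.c k238 (.q k34 [(.s k17
  k51 4 (.d k153 k221 k59 9 12)), (.s k192 k196 1 (.s k149 k63 14 (.d k213 k234 k21 6 7)))] .n)
  .n))) (.c k153 (.q k102 [(.d k68 k136 k119 9 4), (.s k110 k98 1 (.s k63 k157 12 (.s k21 k42 6 (.d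
  k149 k213 k192 7 14))))] (.c k136 (.q k187 [(.d k119 k68 k51 4 9), (.s k110 k98 1 (.s k63 k157 12
  (.s k21 k42 6 (.d k149 k213 k192 7 14))))] .n) (.c k187 (.l (.s k136 k68 9 (.s k110 k98 1 (.s k63
  k157 12 (.s k21 k42 6 (.d k149 k213 k192 7 14)))))) .n))) .n))) (.c k128 (.l (.s k127 k64 6 (.s
  k63 k191 7 (.s k149 k192 14 (.d k21 k42 k213 6 7))))) (.c k149 (.f k127 k64 6 (.f k191 k63 7 (.q
  k3 [(.s k1 k2 0 (.s k169 k253 13 (.s k86 k252 14 (.d k87 k84 k171 0 13)))), (.s k2 k1 0 (.s k171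
  k87 13 (.s k131 k151 5 (.s k195 k67 7 (.s k130 k65 8 (.s k66 k194 7 (.d k129 k128 k192 0 8))))))),
  (.s k87 k171 13 (.s k86 k84 0 (.s k126 k66 5 (.s k124 k125 0 (.d k67 k107 k105 5 6)))))] (.c k87
  (.f k1 k2 0 (.l (.s k169 k253 13 (.s k86 k252 14 (.s k126 k66 5 (.s k125 k124 0 (.s k60 k190 8 (.s
  k41 k22 6 (.d k105 k65 k233 5 7))))))))) (.c k171 (.l (.s k1 k2 0 (.s k169 k253 13 (.s k86 k252 14
  (.s k87 k84 0 (.s k126 k66 5 (.s k124 k125 0 (.d k67 k107 k105 5 6)))))))) .n))))) (.c k191 (.l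
  (.s k64 k127 6 (.s k192 k128 7 (.s k149 k63 14 (.d k213 k234 k21 6 7))))) (.c k192 (.q k4 [(.s k12
  k8 1 (.s k93 k174 12 (.s k89 k81 1 (.d k166 k247 k243 12 14)))), (.s k127 k64 6 (.s k63 k191 7 (.s
  k21 k42 6 (.s k55 k38 4 (.s k247 k166 12 (.s k119 k183 7 (.d k51 k187 k59 9 1))))))), (.s k12 k8 1
  (.s k127 k64 6 (.s k63 k191 7 (.s k21 k42 6 (.s k29 k46 4 (.s k25 k17 1 (.d k38 k55 k51 4
  6)))))))] .n) (.c k213 (.q k3 [(.s k1 k2 0 (.s k169 k253 13 (.s k86 k252 14 (.d k87 k84 k171 0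
  13)))), (.s k2 k1 0 (.s k64 k127 6 (.s k192 k128 7 (.s k66 k129 8 (.s k65 k67 0 (.d k130 k194 k195
  7 8)))))), (.s k64 k127 6 (.s k87 k171 13 (.s k86 k84 0 (.s k66 k126 5 (.d k192 k128 k129 7
  8)))))] (.c k87 (.l (.s k1 k2 0 (.s k64 k127 6 (.s k169 k253 13 (.s k86 k252 14 (.s k66 k126 5 (.d
  k192 k128 k129 7 8))))))) .n)) .n)))))))))))

def t43_154 : T TT 256 :=
  (.f k170 k255 14 (.q k252 [(.s k84 k168 13 (.s k86 k87 0 (.s k2 k254 13 (.d k3 k1 k169 0 14))))]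
  (.c k1 (.q k4 [(.s k12 k8 1 (.s k166 k247 12 (.s k162 k174 1 (.d k243 k81 k89 12 14)))), (.s k12
  k8 1 (.s k84 k168 13 (.s k92 k172 11 (.s k88 k80 1 (.d k164 k244 k240 11 13))))), (.s k84 k168 13
  (.s k86 k87 0 (.s k166 k247 12 (.s k6 k246 11 (.s k7 k5 0 (.d k244 k164 k165 11 12))))))] .n) (.c
  k2 (.q k4 [(.s k12 k8 1 (.s k166 k247 12 (.s k162 k174 1 (.d k243 k81 k89 12 14)))), (.s k12 k8 1
  (.s k84 k168 13 (.s k92 k172 11 (.s k88 k80 1 (.d k164 k244 k240 11 13))))), (.s k84 k168 13 (.s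
  k86 k87 0 (.s k166 k247 12 (.s k6 k246 11 (.s k7 k5 0 (.d k244 k164 k165 11 12))))))] .n) (.c k3
  (.q k63 [(.s k42 k21 6 (.s k106 k234 7 (.s k64 k127 6 (.d k192 k128 k149 7 14)))), (.s k21 k42 6
  (.s k149 k213 7 (.s k168 k84 13 (.s k189 k126 8 (.d k169 k171 k129 0 5)))))] (.c k21 (.f k84 k168
  13 (.q k127 [(.s k106 k64 6 (.s k126 k189 8 (.d k86 k87 k66 0 5))), (.s k64 k106 6 (.s k104 k124 5
  (.s k192 k128 7 (.s k148 k60 13 (.d k212 k232 k20 5 7))))), (.s k87 k86 0 (.s k107 k67 5 (.s k126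
  k189 8 (.s k195 k151 13 (.s k65 k130 8 (.d k125 k124 k105 0 5))))))] (.c k87 (.q k171 [(.s k64
  k106 6 (.s k126 k189 8 (.d k124 k125 k104 0 5))), (.s k126 k189 8 (.s k124 k125 0 (.s k60 k188 7
  (.s k20 k40 5 (.s k150 k215 8 (.s k190 k130 5 (.d k62 k61 k254 0 7))))))), (.s k64 k106 6 (.s k128
  k192 7 (.s k189 k126 8 (.s k191 k149 6 (.s k131 k151 5 (.s k190 k188 0 (.d k130 k129 k150 0
  5))))))), (.s k64 k106 6 (.s k104 k124 5 (.s k192 k128 7 (.s k148 k60 13 (.d k212 k232 k20 5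
  7)))))] (.c k232 (.l (.s k126 k189 8 (.s k124 k125 0 (.d k64 k104 k106 5 6)))) .n)) (.c k171 (.l
  (.s k87 k86 0 (.s k64 k106 6 (.s k124 k104 5 (.d k126 k125 k189 0 8))))) .n)))) (.c k42 (.f k84
  k168 13 (.f k126 k189 8 (.q k40 [(.s k105 k235 8 (.s k125 k65 5 (.s k124 k127 0 (.d k86 k87 k67 0
  6)))), (.s k60 k20 5 (.s k62 k61 0 (.s k254 k190 7 (.d k86 k87 k2 0 13))))] (.c k86 (.l (.s k60
  k20 5 (.s k105 k235 8 (.s k65 k125 5 (.d k195 k130 k150 8 14))))) (.c k87 (.q k171 [(.s k60 k20 5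
  (.s k105 k235 8 (.s k65 k125 5 (.d k195 k130 k150 8 14)))), (.s k60 k20 5 (.s k124 k188 7 (.s k64
  k104 5 (.s k106 k127 6 (.d k192 k128 k149 7 14))))), (.s k105 k235 8 (.s k125 k65 5 (.s k124 k127
  0 (.s k64 k104 5 (.s k192 k128 7 (.s k106 k149 14 (.d k86 k67 k66 6 5)))))))] .n) (.c k125 (.l (.s
  k60 k20 5 (.s k105 k235 8 (.s k124 k188 7 (.d k86 k87 k67 0 6))))) (.c k171 (.l (.s k87 k86 0 (.s
  k60 k20 5 (.s k124 k188 7 (.s k64 k104 5 (.d k127 k125 k106 0 6)))))) .n))))))) (.c k87 (.q k171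
  [(.d k168 k169 k84 0 13), (.s k21 k42 6 (.s k149 k213 7 (.s k128 k191 6 (.d k192 k64 k106 7
  14))))] .n) (.c k149 (.l (.s k42 k21 6 (.s k84 k168 13 (.s k106 k234 7 (.s k126 k189 8 (.d k86 k87
  k66 0 5)))))) (.c k171 (.q k87 [(.d k84 k86 k168 0 13), (.s k21 k42 6 (.s k149 k213 7 (.s k128
  k191 6 (.d k192 k64 k106 7 14))))] (.c k107 (.q k235 [(.d k84 k86 k168 0 13), (.s k21 k42 6 (.s
  k149 k213 7 (.s k128 k191 6 (.d k192 k64 k106 7 14))))] .n) (.c k235 (.q k107 [(.d k84 k86 k168 0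
  13), (.s k42 k21 6 (.s k106 k234 7 (.d k127 k67 k64 5 6)))] (.c k195 (.q k215 [(.d k84 k86 k168 0
  13), (.s k20 k150 8 (.s k21 k42 6 (.d k23 k22 k151 0 7)))] (.c k67 (.q k131 [(.d k84 k86 k168 0
  13), (.s k20 k150 8 (.s k21 k42 6 (.d k23 k22 k151 0 7)))] .n) (.c k131 (.l (.s k67 k127 5 (.d k84
  k86 k168 0 13))) .n))) (.c k215 (.l (.s k195 k151 13 (.d k84 k86 k168 0 13))) .n))) .n))) (.c k192
  (.f k84 k168 13 (.f k86 k87 0 (.q k171 [(.s k42 k21 6 (.s k126 k189 8 (.d k106 k66 k234 5 7))),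
  (.s k2 k254 13 (.s k42 k21 6 (.s k62 k22 5 (.s k60 k61 0 (.s k124 k188 7 (.s k105 k67 6 (.d k40
  k20 k235 5 8))))))), (.s k2 k254 13 (.s k126 k189 8 (.s k66 k106 5 (.s k130 k194 7 (.s k150 k190 5
  (.s k195 k65 8 (.d k214 k233 k22 6 7)))))))] (.c k66 (.q k129 [(.s k21 k42 6 (.s k189 k126 8 (.d
  k149 k213 k169 7 5))), (.s k189 k126 8 (.s k149 k169 5 (.s k191 k128 6 (.s k151 k131 5 (.s k212
  k23 8 (.d k148 k150 k20 0 7)))))), (.s k2 k254 13 (.s k42 k21 6 (.s k62 k22 5 (.s k60 k61 0 (.s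
  k20 k40 5 (.s k150 k215 8 (.d k106 k234 k194 7 13)))))))] (.c k213 (.q k234 [(.d k42 k21 k106 6
  7), (.s k189 k126 8 (.s k149 k169 5 (.s k191 k128 6 (.s k151 k131 5 (.s k212 k23 8 (.d k148 k150
  k20 0 7))))))] (.c k106 (.l (.s k2 k254 13 (.s k42 k21 6 (.s k62 k22 5 (.s k60 k61 0 (.s k124 k188
  7 (.s k105 k67 6 (.d k40 k20 k235 5 8)))))))) .n)) (.c k234 (.q k213 [(.d k21 k42 k149 6 7), (.s
  k189 k126 8 (.s k149 k169 5 (.s k212 k23 8 (.s k20 k148 7 (.d k215 k214 k150 0 8)))))] (.c k149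
  (.l (.s k2 k254 13 (.s k42 k21 6 (.s k62 k22 5 (.s k60 k61 0 (.s k20 k40 5 (.s k212 k148 7 (.d
  k215 k214 k150 0 8)))))))) .n)) .n))) (.c k129 (.q k66 [(.d k126 k106 k189 5 8)] (.c k106 (.l (.s
  k2 k254 13 (.s k42 k21 6 (.s k22 k62 5 (.s k130 k194 7 (.d k150 k190 k214 5 7)))))) (.c k126 (.l
  (.s k2 k254 13 (.s k42 k21 6 (.s k62 k22 5 (.s k194 k130 7 (.d k106 k234 k150 7 13)))))) (.c k189
  (.l (.s k42 k21 6 (.d k106 k126 k234 5 7))) (.c k213 (.q k234 [(.d k42 k21 k106 6 7), (.d k126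
  k106 k189 5 8)] (.c k106 (.l (.s k2 k254 13 (.s k42 k21 6 (.s k22 k62 5 (.s k130 k194 7 (.d k150
  k190 k214 5 7)))))) .n)) (.c k234 (.q k213 [(.d k21 k42 k149 6 7), (.d k126 k106 k189 5 8)] .n)
  .n)))))) (.c k213 (.q k234 [(.d k42 k21 k106 6 7), (.s k126 k189 8 (.s k254 k2 13 (.s k190 k62 7
  (.s k150 k130 5 (.d k214 k194 k22 5 7)))))] (.c k42 (.l (.s k126 k189 8 (.s k254 k2 13 (.s k62
  k190 7 (.s k194 k214 5 (.d k106 k66 k150 5 13)))))) (.c k66 (.q k129 [(.d k42 k21 k106 6 7), (.s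
  k189 k126 8 (.s k149 k169 5 (.s k191 k128 6 (.s k151 k131 5 (.s k212 k23 8 (.d k148 k150 k20 0
  7))))))] (.c k106 (.l (.s k2 k254 13 (.s k42 k21 6 (.s k62 k22 5 (.s k60 k61 0 (.s k124 k188 7 (.s
  k105 k67 6 (.d k40 k20 k235 5 8)))))))) .n)) (.c k129 (.q k66 [(.d k42 k21 k106 6 7), (.d k126
  k106 k189 5 8)] (.c k106 (.l (.s k2 k254 13 (.s k42 k21 6 (.s k22 k62 5 (.s k130 k194 7 (.d k150
  k190 k214 5 7)))))) .n)) .n)))) (.c k234 (.q k213 [(.d k21 k42 k149 6 7), (.s k126 k189 8 (.s k254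
  k2 13 (.s k190 k62 7 (.s k150 k130 5 (.s k215 k20 8 (.d k214 k22 k212 7 0))))))] (.c k42 (.l (.s
  k149 k21 7 (.s k212 k23 8 (.s k20 k148 7 (.d k215 k214 k150 0 8))))) (.c k66 (.q k129 [(.d k21 k42
  k149 6 7), (.s k189 k126 8 (.s k149 k169 5 (.s k212 k23 8 (.s k20 k148 7 (.d k215 k214 k150 0
  8)))))] (.c k149 (.l (.s k2 k254 13 (.s k42 k21 6 (.s k62 k22 5 (.s k60 k61 0 (.s k20 k40 5 (.s
  k212 k148 7 (.d k215 k214 k150 0 8)))))))) .n)) (.c k129 (.q k66 [(.d k21 k42 k149 6 7), (.d k126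
  k106 k189 5 8)] .n) .n)))) .n))))))) (.c k213 (.l (.s k42 k21 6 (.s k106 k234 7 (.s k192 k149 14
  (.d k64 k127 k128 6 7))))) (.c k234 (.l (.s k21 k42 6 (.s k149 k213 7 (.s k192 k106 14 (.d k128
  k191 k64 6 7))))) .n))))))))) (.c k84 (.q k102 [(.s k34 k238 9 (.s k51 k17 4 (.s k68 k119 4 (.d
  k204 k136 k153 9 14)))), (.s k68 k119 4 (.s k204 k136 9 (.s k236 k220 3 (.s k169 k35 10 (.s k1
  k253 13 (.d k3 k2 k86 0 14)))))), (.s k34 k238 9 (.s k51 k17 4 (.s k118 k185 10 (.s k86 k70 3 (.s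
  k2 k254 13 (.d k3 k1 k169 0 14))))))] (.c k51 (.q k166 [(.s k4 k247 12 (.s k12 k8 1 (.s k162 k174
  1 (.d k243 k81 k89 12 14)))), (.s k34 k238 9 (.s k38 k230 7 (.s k46 k42 1 (.s k162 k174 1 (.d k226
  k98 k106 7 9))))), (.s k4 k247 12 (.s k34 k238 9 (.s k38 k230 7 (.s k21 k55 4 (.d k42 k63 k46 6
  1)))))] (.c k119 (.q k187 [(.s k4 k247 12 (.s k12 k8 1 (.s k162 k174 1 (.d k243 k81 k89 12 14)))),
  (.s k34 k238 9 (.s k38 k230 7 (.s k46 k42 1 (.s k162 k174 1 (.d k226 k98 k106 7 9))))), (.s k4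
  k247 12 (.s k34 k238 9 (.s k38 k230 7 (.s k42 k46 1 (.d k21 k55 k63 4 6)))))] (.c k174 (.l (.s k4
  k247 12 (.s k12 k8 1 (.s k136 k153 4 (.s k204 k68 9 (.s k76 k140 7 (.d k89 k243 k115 14 6)))))))
  .n)) (.c k187 (.l (.s k119 k68 4 (.s k4 k247 12 (.s k12 k8 1 (.s k162 k174 1 (.d k243 k81 k89 12
  14)))))) .n))) (.c k204 (.q k101 [(.s k103 k100 0 (.s k117 k69 3 (.s k119 k68 4 (.s k116 k118 0
  (.d k71 k87 k86 3 4))))), (.s k32 k239 10 (.s k100 k103 0 (.s k236 k168 9 (.s k35 k169 10 (.d k34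
  k238 k33 9 0))))), (.s k32 k239 10 (.s k48 k16 3 (.s k116 k184 9 (.s k117 k69 3 (.d k119 k118 k68
  0 4)))))] (.c k221 (.l (.s k238 k34 9 (.s k69 k117 3 (.s k207 k138 10 (.s k237 k222 4 (.d k239
  k236 k32 0 10)))))) (.c k238 (.q k221 [(.s k17 k153 9 (.s k51 k34 4 (.s k69 k117 3 (.s k207 k138
  10 (.d k103 k155 k100 13 0))))), (.s k32 k239 10 (.s k48 k16 3 (.s k116 k184 9 (.s k117 k69 3 (.d
  k119 k118 k68 0 4))))), (.s k17 k153 9 (.s k51 k34 4 (.s k117 k69 3 (.s k118 k185 10 (.d k119 k116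
  k68 0 4))))), (.s k17 k153 9 (.s k32 k239 10 (.s k34 k51 4 (.s k33 k35 0 (.s k1 k49 3 (.d k169
  k237 k253 9 13))))))] (.c k152 (.l (.s k32 k239 10 (.s k117 k69 3 (.s k119 k68 4 (.s k116 k118 0
  (.d k48 k16 k184 3 9)))))) .n)) .n))) .n))) (.c k86 (.f k84 k168 13 (.q k124 [(.s k60 k188 7 (.s
  k104 k64 5 (.s k148 k192 13 (.d k20 k40 k212 5 7)))), (.s k60 k188 7 (.s k40 k20 5 (.s k105 k235 8
  (.s k65 k125 5 (.d k195 k130 k150 8 14))))), (.s k64 k104 5 (.s k106 k127 6 (.s k42 k234 7 (.s k63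
  k21 6 (.d k192 k128 k149 7 14)))))] (.c k18 (.q k222 [(.s k60 k188 7 (.s k104 k64 5 (.s k148 k192
  13 (.d k20 k40 k212 5 7)))), (.s k60 k188 7 (.s k207 k237 4 (.s k69 k138 10 (.s k109 k158 12 (.s
  k79 k94 4 (.d k64 k74 k104 2 5)))))), (.s k64 k104 5 (.s k106 k127 6 (.s k42 k234 7 (.s k63 k21 6
  (.d k192 k128 k149 7 14))))), (.s k60 k188 7 (.s k40 k20 5 (.s k105 k235 8 (.s k65 k125 5 (.d k195
  k130 k150 8 14)))))] (.c k128 (.l (.s k104 k64 5 (.s k60 k188 7 (.s k148 k192 13 (.d k20 k40 k212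
  5 7))))) .n)) (.c k40 (.l (.s k60 k188 7 (.s k104 k64 5 (.s k148 k192 13 (.s k20 k212 7 (.s k150
  k215 8 (.s k130 k190 5 (.d k195 k65 k105 8 14)))))))) (.c k128 (.l (.s k104 k64 5 (.s k60 k188 7
  (.s k148 k192 13 (.d k20 k40 k212 5 7))))) (.c k222 (.q k18 [(.s k60 k188 7 (.s k104 k64 5 (.s
  k148 k192 13 (.d k20 k40 k212 5 7)))), (.s k60 k188 7 (.s k40 k20 5 (.s k105 k235 8 (.s k65 k125 5
  (.d k195 k130 k150 8 14))))), (.s k64 k104 5 (.s k106 k127 6 (.s k42 k234 7 (.s k63 k21 6 (.d k192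
  k128 k149 7 14)))))] (.c k40 (.l (.s k60 k188 7 (.s k104 k64 5 (.s k148 k192 13 (.s k20 k212 7 (.s
  k150 k215 8 (.s k130 k190 5 (.d k195 k65 k105 8 14)))))))) (.c k128 (.l (.s k104 k64 5 (.s k60
  k188 7 (.s k148 k192 13 (.d k20 k40 k212 5 7))))) .n))) .n)))))) (.c k87 (.l (.s k168 k84 13 (.s
  k169 k171 0 (.s k3 k86 14 (.d k1 k2 k253 0 13))))) (.c k168 (.q k153 [(.s k17 k221 9 (.s k51 k34 4
  (.s k136 k187 4 (.d k204 k68 k102 9 14)))), (.s k136 k187 4 (.s k204 k68 9 (.s k220 k236 3 (.s k86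
  k19 10 (.s k2 k254 13 (.d k3 k1 k169 0 14)))))), (.s k17 k221 9 (.s k51 k34 4 (.s k185 k118 10 (.s
  k169 k137 3 (.s k1 k253 13 (.d k3 k2 k86 0 14))))))] (.c k51 (.q k25 [(.s k89 k217 7 (.s k8 k251
  12 (.s k12 k4 1 (.s k81 k93 1 (.d k243 k162 k166 12 14))))), (.s k17 k221 9 (.s k21 k29 1 (.s k42
  k63 6 (.s k59 k8 4 (.d k106 k234 k200 7 12))))), (.s k17 k221 9 (.s k29 k21 1 (.s k89 k217 7 (.s
  k81 k93 1 (.d k209 k145 k149 7 9))))), (.s k17 k221 9 (.s k89 k217 7 (.s k8 k251 12 (.s k42 k59 4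
  (.d k21 k63 k29 6 1)))))] (.c k119 (.l (.s k187 k136 4 (.s k17 k221 9 (.s k21 k29 1 (.s k42 k63 6
  (.s k59 k8 4 (.d k106 k200 k234 12 7))))))) (.c k187 (.q k119 [(.s k17 k221 9 (.s k29 k21 1 (.s
  k89 k217 7 (.s k81 k93 1 (.d k209 k145 k149 7 9))))), (.s k89 k217 7 (.s k8 k251 12 (.s k12 k4 1
  (.s k81 k93 1 (.d k243 k162 k166 12 14))))), (.s k17 k221 9 (.s k21 k29 1 (.s k42 k63 6 (.s k59 k8
  4 (.d k106 k234 k200 7 12))))), (.s k68 k102 4 (.s k89 k217 7 (.s k8 k251 12 (.s k59 k42 4 (.s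
  k136 k204 9 (.d k200 k72 k106 7 12))))))] .n) .n))) (.c k204 (.q k185 [(.s k51 k118 10 (.d k17
  k221 k34 9 4)), (.s k169 k137 3 (.s k1 k253 13 (.d k3 k2 k86 0 14)))] (.c k221 (.q k238 [(.s k51
  k118 10 (.d k34 k17 k102 4 9)), (.s k169 k137 3 (.s k1 k253 13 (.d k3 k2 k86 0 14)))] .n) (.c k238
  (.l (.s k221 k17 9 (.s k169 k137 3 (.s k1 k253 13 (.d k3 k2 k86 0 14))))) .n))) .n))) (.c k169 (.f
  k168 k84 13 (.q k232 [(.s k104 k40 7 (.s k192 k212 5 (.s k128 k64 7 (.d k148 k188 k60 5 13)))),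
  (.s k40 k104 7 (.s k105 k235 8 (.s k65 k125 5 (.s k195 k130 8 (.d k60 k20 k150 5 14))))), (.s k192
  k212 5 (.s k64 k128 7 (.s k106 k127 6 (.s k42 k234 7 (.d k63 k21 k149 6 14)))))] (.c k20 (.l (.s
  k104 k40 7 (.s k192 k212 5 (.s k148 k60 13 (.d k128 k188 k64 5 7))))) (.c k64 (.l (.s k104 k40 7
  (.s k192 k212 5 (.s k148 k60 13 (.s k128 k188 5 (.s k149 k191 6 (.s k21 k213 7 (.d k63 k42 k106 6
  14)))))))) (.c k139 (.q k184 [(.s k104 k40 7 (.s k192 k212 5 (.s k128 k64 7 (.d k148 k188 k60 5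
  13)))), (.s k48 k116 9 (.s k32 k16 3 (.s k100 k236 9 (.d k152 k136 k204 3 13))))] .n) (.c k184 (.q
  k139 [(.s k104 k40 7 (.s k192 k212 5 (.s k128 k64 7 (.d k148 k188 k60 5 13)))), (.s k40 k104 7 (.s
  k105 k235 8 (.s k65 k125 5 (.s k195 k130 8 (.d k60 k20 k150 5 14))))), (.s k192 k212 5 (.s k64
  k128 7 (.s k106 k127 6 (.s k42 k234 7 (.d k63 k21 k149 6 14)))))] (.c k20 (.l (.s k104 k40 7 (.s
  k192 k212 5 (.s k148 k60 13 (.d k128 k188 k64 5 7))))) (.c k64 (.l (.s k104 k40 7 (.s k192 k212 5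
  (.s k148 k60 13 (.s k128 k188 5 (.s k149 k191 6 (.s k21 k213 7 (.d k63 k42 k106 6 14)))))))) .n)))
  .n)))))) (.c k171 (.l (.s k84 k168 13 (.s k86 k87 0 (.s k3 k169 14 (.d k2 k1 k254 0 13))))) (.c
  k254 (.l (.s k168 k84 13 (.s k169 k171 0 (.s k1 k253 13 (.d k3 k2 k86 0 14))))) .n))))))))))))

def t43_155 : T TT 256 :=
  (.f k255 k170 14 (.q k106 [(.s k64 k127 6 (.s k192 k128 7 (.s k213 k234 6 (.d k149 k21 k63 7
  14))))] (.c k21 (.q k1 [(.s k3 k2 0 (.s k169 k253 13 (.s k86 k252 14 (.d k87 k84 k171 0 13)))),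
  (.s k64 k127 6 (.s k192 k128 7 (.s k213 k234 6 (.s k253 k169 13 (.s k193 k233 5 (.s k65 k129 7 (.d
  k195 k130 k194 8 0))))))), (.s k3 k2 0 (.s k64 k127 6 (.s k192 k128 7 (.s k66 k129 8 (.s k86 k126
  5 (.d k87 k84 k171 0 13))))))] (.c k171 (.l (.s k3 k2 0 (.s k64 k127 6 (.s k169 k253 13 (.s k86
  k252 14 (.s k66 k126 5 (.d k192 k128 k129 7 8))))))) .n)) (.c k63 (.q k3 [(.s k1 k2 0 (.s k169
  k253 13 (.s k86 k252 14 (.d k87 k84 k171 0 13)))), (.s k2 k1 0 (.s k64 k127 6 (.s k192 k128 7 (.s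
  k66 k129 8 (.s k65 k67 0 (.d k130 k194 k195 7 8)))))), (.s k64 k127 6 (.s k87 k171 13 (.s k86 k84
  0 (.s k66 k126 5 (.d k192 k128 k129 7 8)))))] (.c k87 (.l (.s k1 k2 0 (.s k64 k127 6 (.s k169 k253
  13 (.s k86 k252 14 (.s k192 k128 7 (.d k66 k126 k129 5 8))))))) .n)) (.c k64 (.q k3 [(.s k1 k2 0
  (.s k169 k253 13 (.s k86 k252 14 (.d k87 k84 k171 0 13)))), (.s k87 k171 13 (.s k86 k84 0 (.s k66
  k126 5 (.s k192 k129 8 (.s k213 k234 6 (.d k149 k21 k63 7 14)))))), (.s k1 k2 0 (.s k169 k253 13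
  (.s k86 k252 14 (.s k66 k126 5 (.s k192 k129 8 (.s k213 k234 6 (.d k149 k63 k21 14 7)))))))] (.c
  k86 (.q k127 [(.s k63 k191 7 (.s k149 k192 14 (.d k21 k42 k213 6 7))), (.s k87 k171 13 (.s k107
  k67 5 (.s k105 k104 0 (.s k65 k125 5 (.s k195 k130 8 (.s k150 k60 14 (.d k215 k235 k20 5 8)))))))]
  (.c k2 (.q k254 [(.s k63 k191 7 (.s k149 k192 14 (.d k21 k42 k213 6 7))), (.s k87 k171 13 (.s k107
  k67 5 (.s k105 k104 0 (.s k65 k125 5 (.s k195 k130 8 (.s k150 k60 14 (.d k215 k235 k20 5 8)))))))]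
  (.c k192 (.l (.s k63 k191 7 (.s k252 k253 0 (.s k126 k189 8 (.s k125 k124 0 (.d k190 k62 k60 7
  8)))))) .n)) (.c k192 (.l (.s k63 k191 7 (.s k87 k171 13 (.s k107 k67 5 (.s k105 k104 0 (.s k65
  k125 5 (.d k195 k151 k130 13 8))))))) (.c k254 (.l (.s k2 k1 0 (.s k63 k191 7 (.s k21 k42 6 (.d
  k149 k213 k192 7 14))))) .n)))) (.c k169 (.f k171 k87 13 (.q k51 [(.s k17 k34 4 (.s k119 k187 9
  (.s k153 k221 9 (.d k102 k68 k204 4 14)))), (.s k2 k1 0 (.s k34 k17 4 (.s k18 k50 3 (.s k33 k48 4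
  (.d k35 k19 k32 3 0))))), (.s k119 k187 9 (.s k102 k68 4 (.s k98 k110 1 (.s k192 k145 12 (.s k149
  k63 14 (.d k213 k234 k21 6 7))))))] (.c k19 (.q k223 [(.s k207 k239 3 (.s k69 k138 10 (.s k101
  k117 3 (.d k154 k16 k48 10 14)))), (.s k17 k34 4 (.s k119 k187 9 (.s k102 k68 4 (.d k153 k221 k204
  9 14))))] .n) (.c k223 (.l (.s k19 k35 3 (.s k1 k2 0 (.s k17 k34 4 (.s k18 k16 0 (.d k33 k49 k48 3
  4)))))) .n)))) .n))) (.c k127 (.q k204 [(.s k68 k136 9 (.s k221 k238 4 (.s k153 k17 9 (.d k102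
  k119 k51 4 14)))), (.s k68 k136 9 (.s k102 k119 4 (.s k110 k98 1 (.s k63 k157 12 (.s k21 k42 6 (.d
  k149 k213 k192 7 14)))))), (.s k221 k238 4 (.s k153 k17 9 (.s k200 k59 12 (.s k192 k196 1 (.s k149
  k63 14 (.d k213 k234 k21 6 7))))))] (.c k102 (.q k69 [(.s k207 k138 10 (.s k223 k239 3 (.s k154
  k16 10 (.d k101 k117 k48 3 14)))), (.s k68 k136 9 (.s k70 k71 0 (.s k3 k137 10 (.s k1 k2 0 (.s k87
  k171 13 (.s k86 k84 0 (.d k169 k253 k252 13 14)))))))] (.c k34 (.l (.s k238 k221 4 (.s k101 k117 3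
  (.s k207 k138 10 (.s k154 k48 14 (.d k223 k239 k16 3 10)))))) (.c k138 (.l (.s k68 k136 9 (.s k70
  k71 0 (.s k101 k117 3 (.s k137 k3 10 (.s k205 k1 9 (.s k153 k49 13 (.d k221 k17 k238 9 4))))))))
  (.c k238 (.q k34 [(.s k101 k117 3 (.s k207 k138 10 (.s k154 k48 14 (.d k223 k239 k16 3 10)))), (.s
  k17 k51 4 (.s k153 k221 9 (.s k200 k59 12 (.s k192 k196 1 (.s k213 k234 6 (.d k149 k63 k21 14
  7))))))] (.c k207 (.l (.s k51 k17 4 (.s k68 k136 9 (.s k71 k70 0 (.s k101 k117 3 (.s k86 k116 4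
  (.s k87 k84 0 (.d k119 k187 k103 9 3)))))))) .n)) .n)))) (.c k153 (.f k136 k68 9 (.q k152 [(.s k48
  k100 13 (.s k168 k184 3 (.s k84 k252 13 (.d k16 k32 k220 3 9)))), (.s k48 k100 13 (.s k117 k186 10
  (.s k101 k69 3 (.s k96 k111 2 (.s k192 k144 11 (.s k149 k63 14 (.d k213 k234 k21 6 7)))))))] (.c
  k48 (.l (.s k168 k184 3 (.s k221 k238 4 (.s k252 k84 13 (.s k220 k236 3 (.s k222 k223 0 (.s k237
  k207 4 (.d k253 k254 k205 0 3)))))))) (.c k84 (.l (.s k184 k168 3 (.s k48 k100 13 (.s k116 k252 9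
  (.s k117 k186 10 (.s k101 k69 3 (.s k154 k207 14 (.d k16 k32 k223 3 10)))))))) (.c k100 (.l (.s
  k168 k184 3 (.s k84 k252 13 (.s k16 k220 9 (.s k48 k32 3 (.s k117 k186 10 (.s k101 k69 3 (.d k154
  k223 k207 10 14)))))))) (.c k116 (.l (.s k100 k48 13 (.s k168 k184 3 (.s k252 k84 13 (.d k236 k220
  k32 3 9))))) .n)))))) .n))) (.c k128 (.l (.s k127 k64 6 (.s k63 k191 7 (.s k149 k192 14 (.d k21
  k42 k213 6 7))))) (.c k149 (.f k127 k64 6 (.q k119 [(.s k102 k68 4 (.s k110 k98 1 (.s k76 k93 4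
  (.d k115 k123 k89 1 6)))), (.s k51 k187 9 (.s k17 k34 4 (.s k153 k221 9 (.s k59 k200 12 (.d k63
  k191 k55 7 1)))))] (.c k102 (.l (.s k123 k115 1 (.s k89 k72 4 (.s k81 k93 1 (.s k243 k162 12 (.d
  k63 k191 k183 7 9)))))) (.c k128 (.l (.s k191 k63 7 (.s k51 k187 9 (.s k17 k34 4 (.s k102 k68 4
  (.d k153 k221 k204 9 14)))))) (.c k191 (.q k128 [(.s k102 k68 4 (.s k110 k98 1 (.s k76 k93 4 (.d
  k115 k123 k89 1 6)))), (.s k51 k187 9 (.s k17 k34 4 (.s k153 k221 9 (.d k102 k68 k204 4 14)))),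
  (.s k123 k115 1 (.s k187 k51 9 (.s k251 k59 7 (.s k243 k247 1 (.s k81 k162 12 (.d k89 k93 k72 1
  4))))))] .n) .n))))) (.c k191 (.l (.s k64 k127 6 (.s k192 k128 7 (.s k149 k63 14 (.d k213 k234 k21
  6 7))))) (.c k192 (.q k4 [(.s k12 k8 1 (.s k93 k174 12 (.s k89 k81 1 (.d k166 k247 k243 12 14)))),
  (.s k127 k64 6 (.s k63 k191 7 (.s k21 k42 6 (.s k55 k38 4 (.s k247 k166 12 (.s k119 k183 7 (.d k51
  k187 k59 9 1))))))), (.s k12 k8 1 (.s k127 k64 6 (.s k63 k191 7 (.s k21 k42 6 (.s k29 k46 4 (.s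
  k25 k17 1 (.d k38 k55 k51 4 6)))))))] .n) (.c k213 (.q k3 [(.s k1 k2 0 (.s k169 k253 13 (.s k86
  k252 14 (.d k87 k84 k171 0 13)))), (.s k2 k1 0 (.s k64 k127 6 (.s k192 k128 7 (.s k66 k129 8 (.s
  k65 k67 0 (.d k130 k194 k195 7 8)))))), (.s k64 k127 6 (.s k87 k171 13 (.s k86 k84 0 (.s k66 k126
  5 (.d k192 k128 k129 7 8)))))] (.c k87 (.l (.s k1 k2 0 (.s k64 k127 6 (.s k169 k253 13 (.s k86
  k252 14 (.s k66 k126 5 (.d k192 k128 k129 7 8))))))) .n)) (.c k234 (.l (.s k127 k64 6 (.s k63 k191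
  7 (.s k21 k42 6 (.d k149 k213 k192 7 14))))) .n))))))))))))

def t43_158 : T TT 256 :=
  (.f k255 k170 14 (.q k106 [(.s k64 k127 6 (.s k192 k128 7 (.s k213 k234 6 (.d k149 k21 k63 7
  14))))] (.c k21 (.q k1 [(.s k3 k2 0 (.s k169 k253 13 (.s k86 k252 14 (.d k87 k84 k171 0 13)))),
  (.s k64 k127 6 (.s k192 k128 7 (.s k213 k234 6 (.s k253 k169 13 (.s k193 k233 5 (.s k65 k129 7 (.d
  k195 k130 k194 8 0))))))), (.s k3 k2 0 (.s k64 k127 6 (.s k192 k128 7 (.s k66 k129 8 (.s k86 k126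
  5 (.d k87 k84 k171 0 13))))))] (.c k171 (.l (.s k3 k2 0 (.s k64 k127 6 (.s k169 k253 13 (.s k86
  k252 14 (.s k66 k126 5 (.d k192 k128 k129 7 8))))))) .n)) (.c k63 (.q k3 [(.s k1 k2 0 (.s k169
  k253 13 (.s k86 k252 14 (.d k87 k84 k171 0 13)))), (.s k2 k1 0 (.s k64 k127 6 (.s k192 k128 7 (.s
  k66 k129 8 (.s k65 k67 0 (.d k130 k194 k195 7 8)))))), (.s k64 k127 6 (.s k87 k171 13 (.s k86 k84
  0 (.s k66 k126 5 (.d k192 k128 k129 7 8)))))] (.c k87 (.l (.s k1 k2 0 (.s k64 k127 6 (.s k169 k253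
  13 (.s k86 k252 14 (.s k192 k128 7 (.d k66 k126 k129 5 8))))))) .n)) (.c k64 (.q k3 [(.s k1 k2 0
  (.s k169 k253 13 (.s k86 k252 14 (.d k87 k84 k171 0 13)))), (.s k87 k171 13 (.s k86 k84 0 (.s k66
  k126 5 (.s k192 k129 8 (.s k213 k234 6 (.d k149 k21 k63 7 14)))))), (.s k1 k2 0 (.s k169 k253 13
  (.s k86 k252 14 (.s k66 k126 5 (.s k192 k129 8 (.s k213 k234 6 (.d k149 k63 k21 14 7)))))))] (.c
  k86 (.q k83 [(.s k243 k163 11 (.s k81 k162 12 (.s k82 k80 0 (.s k161 k240 12 (.d k1 k2 k241 0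
  11))))), (.s k87 k171 13 (.s k91 k95 1 (.s k243 k163 11 (.s k167 k15 13 (.d k247 k251 k7 1
  11))))), (.s k87 k171 13 (.s k95 k91 1 (.s k80 k90 2 (.s k82 k81 0 (.d k240 k160 k161 11 12)))))]
  (.c k2 (.q k254 [(.s k87 k171 13 (.s k91 k95 1 (.s k243 k163 11 (.s k167 k15 13 (.d k247 k251 k7 1
  11))))), (.s k243 k163 11 (.s k81 k162 12 (.s k82 k80 0 (.s k161 k240 12 (.s k1 k241 11 (.d k253
  k252 k169 0 13)))))), (.s k87 k171 13 (.s k95 k91 1 (.s k80 k90 2 (.s k82 k81 0 (.d k240 k160 k161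
  11 12)))))] (.c k169 (.l (.s k243 k163 11 (.s k81 k162 12 (.s k89 k93 1 (.s k166 k12 14 (.d k247
  k251 k4 1 12)))))) .n)) (.c k254 (.l (.s k2 k1 0 (.s k87 k171 13 (.s k91 k95 1 (.s k243 k163 11
  (.s k167 k15 13 (.d k247 k251 k7 1 11))))))) .n))) (.c k169 (.f k171 k87 13 (.q k12 [(.s k4 k8 1
  (.s k166 k247 12 (.s k89 k243 14 (.d k93 k81 k174 1 12)))), (.s k1 k2 0 (.s k8 k4 1 (.s k9 k6 2
  (.s k5 k13 1 (.d k10 k11 k15 0 2))))), (.s k93 k174 12 (.s k89 k81 1 (.s k72 k123 4 (.s k192 k132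
  9 (.s k149 k63 14 (.d k213 k234 k21 6 7))))))] .n)) .n))) (.c k127 (.q k204 [(.s k68 k136 9 (.s
  k221 k238 4 (.s k153 k17 9 (.d k102 k119 k51 4 14)))), (.s k68 k136 9 (.s k102 k119 4 (.s k110 k98
  1 (.s k63 k157 12 (.s k21 k42 6 (.d k149 k213 k192 7 14)))))), (.s k221 k238 4 (.s k153 k17 9 (.s
  k200 k59 12 (.s k192 k196 1 (.s k149 k63 14 (.d k213 k234 k21 6 7))))))] (.c k102 (.q k200 [(.s
  k153 k59 12 (.d k221 k238 k17 4 9)), (.s k192 k196 1 (.s k149 k63 14 (.d k213 k234 k21 6 7)))] (.c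
  k34 (.l (.s k238 k221 4 (.s k192 k196 1 (.s k149 k63 14 (.d k213 k234 k21 6 7))))) (.c k238 (.q
  k34 [(.s k17 k51 4 (.d k153 k221 k59 9 12)), (.s k192 k196 1 (.s k149 k63 14 (.d k213 k234 k21 6
  7)))] .n) .n))) (.c k153 (.q k102 [(.d k68 k136 k119 9 4), (.s k110 k98 1 (.s k63 k157 12 (.s k21
  k42 6 (.d k149 k213 k192 7 14))))] (.c k136 (.q k187 [(.d k119 k68 k51 4 9), (.s k110 k98 1 (.s
  k63 k157 12 (.s k21 k42 6 (.d k149 k213 k192 7 14))))] .n) (.c k187 (.l (.s k136 k68 9 (.s k110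
  k98 1 (.s k63 k157 12 (.s k21 k42 6 (.d k149 k213 k192 7 14)))))) .n))) .n))) (.c k128 (.l (.s
  k127 k64 6 (.s k63 k191 7 (.s k149 k192 14 (.d k21 k42 k213 6 7))))) (.c k149 (.f k127 k64 6 (.q
  k117 [(.s k101 k69 3 (.s k111 k96 2 (.s k79 k95 3 (.d k112 k122 k90 2 6)))), (.s k48 k186 10 (.s
  k16 k32 3 (.s k154 k223 10 (.s k58 k202 11 (.d k63 k191 k53 7 2)))))] (.c k101 (.l (.s k122 k112 2
  (.s k90 k74 3 (.s k80 k95 2 (.s k240 k160 11 (.d k63 k191 k181 7 10)))))) (.c k128 (.l (.s k191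
  k63 7 (.s k48 k186 10 (.s k16 k32 3 (.s k101 k69 3 (.d k154 k223 k207 10 14)))))) (.c k191 (.q
  k128 [(.s k101 k69 3 (.s k111 k96 2 (.s k79 k95 3 (.d k112 k122 k90 2 6)))), (.s k48 k186 10 (.s
  k16 k32 3 (.s k154 k223 10 (.d k101 k69 k207 3 14)))), (.s k122 k112 2 (.s k186 k48 10 (.s k250
  k58 7 (.s k240 k245 2 (.s k80 k160 11 (.d k90 k95 k74 2 3))))))] .n) .n))))) (.c k191 (.l (.s k64
  k127 6 (.s k192 k128 7 (.s k149 k63 14 (.d k213 k234 k21 6 7))))) (.c k192 (.q k4 [(.s k12 k8 1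
  (.s k166 k247 12 (.s k89 k243 14 (.d k93 k81 k174 1 12)))), (.s k127 k64 6 (.s k63 k191 7 (.s k21
  k42 6 (.s k55 k38 4 (.s k247 k166 12 (.s k119 k183 7 (.d k51 k187 k59 9 1))))))), (.s k12 k8 1 (.s
  k127 k64 6 (.s k63 k191 7 (.s k21 k42 6 (.s k29 k46 4 (.s k25 k17 1 (.d k38 k55 k51 4 6)))))))]
  .n) (.c k213 (.q k3 [(.s k1 k2 0 (.s k169 k253 13 (.s k86 k252 14 (.d k87 k84 k171 0 13)))), (.s
  k2 k1 0 (.s k64 k127 6 (.s k192 k128 7 (.s k66 k129 8 (.s k65 k67 0 (.d k130 k194 k195 7 8)))))),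
  (.s k64 k127 6 (.s k87 k171 13 (.s k86 k84 0 (.s k66 k126 5 (.d k192 k128 k129 7 8)))))] (.c k87
  (.l (.s k1 k2 0 (.s k64 k127 6 (.s k169 k253 13 (.s k86 k252 14 (.s k66 k126 5 (.d k192 k128 k129
  7 8))))))) .n)) (.c k234 (.l (.s k127 k64 6 (.s k63 k191 7 (.s k21 k42 6 (.d k149 k213 k192 7
  14))))) .n))))))))))))

def t43_159 : T TT 256 :=
  (.f k255 k170 14 (.q k105 [(.s k65 k125 5 (.s k195 k130 8 (.s k150 k60 14 (.d k215 k235 k20 5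
  8))))] (.c k20 (.q k1 [(.s k3 k2 0 (.s k169 k253 13 (.s k86 k252 14 (.d k87 k84 k171 0 13)))), (.s
  k65 k125 5 (.s k169 k253 13 (.s k41 k233 7 (.s k61 k21 5 (.d k193 k129 k149 7 13))))), (.s k3 k2 0
  (.s k65 k125 5 (.s k129 k193 7 (.s k66 k192 8 (.s k67 k64 0 (.d k195 k131 k130 7 8))))))] .n) (.c
  k60 (.q k1 [(.s k3 k2 0 (.s k169 k253 13 (.s k86 k252 14 (.d k87 k84 k171 0 13)))), (.s k65 k125 5
  (.s k169 k253 13 (.s k41 k233 7 (.s k61 k21 5 (.d k193 k129 k149 7 13))))), (.s k3 k2 0 (.s k65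
  k125 5 (.s k129 k193 7 (.s k66 k192 8 (.s k67 k64 0 (.d k195 k131 k130 7 8))))))] .n) (.c k65 (.q
  k84 [(.s k86 k87 0 (.s k252 k168 13 (.s k253 k254 0 (.d k169 k1 k3 13 14)))), (.s k86 k87 0 (.s
  k124 k67 6 (.s k64 k104 5 (.s k192 k128 7 (.s k213 k234 6 (.s k149 k21 7 (.d k106 k127 k63 6
  14)))))))] (.c k86 (.f k252 k168 13 (.q k169 [(.d k253 k254 k1 0 13), (.s k233 k41 7 (.s k195 k214
  6 (.s k150 k60 14 (.d k215 k235 k20 5 8))))] (.c k2 (.l (.s k254 k253 0 (.s k233 k41 7 (.s k195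
  k214 6 (.s k150 k60 14 (.d k215 k235 k20 5 8)))))) (.c k254 (.q k2 [(.d k1 k3 k253 0 13), (.s k233
  k41 7 (.s k195 k214 6 (.s k215 k235 5 (.d k150 k20 k60 8 14))))] .n) .n)))) (.c k87 (.l (.s k252
  k168 13 (.s k253 k254 0 (.s k169 k1 13 (.s k233 k41 7 (.s k195 k214 6 (.s k150 k60 14 (.d k215
  k235 k20 5 8)))))))) .n))) (.c k125 (.q k84 [(.s k86 k87 0 (.s k252 k168 13 (.s k253 k254 0 (.d
  k169 k1 k3 13 14)))), (.s k86 k87 0 (.s k124 k67 6 (.s k64 k104 5 (.s k192 k128 7 (.s k213 k234 6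
  (.s k149 k21 7 (.d k106 k127 k63 6 14)))))))] (.c k86 (.f k252 k168 13 (.q k169 [(.d k253 k254 k1
  0 13), (.s k233 k41 7 (.s k195 k214 6 (.s k150 k60 14 (.d k215 k235 k20 5 8))))] (.c k2 (.l (.s
  k254 k253 0 (.s k233 k41 7 (.s k195 k214 6 (.s k150 k60 14 (.d k215 k235 k20 5 8)))))) (.c k254
  (.q k2 [(.d k1 k3 k253 0 13), (.s k233 k41 7 (.s k195 k214 6 (.s k215 k235 5 (.d k150 k20 k60 8
  14))))] .n) .n)))) (.c k87 (.l (.s k252 k168 13 (.s k253 k254 0 (.s k169 k1 13 (.s k233 k41 7 (.s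
  k195 k214 6 (.s k150 k60 14 (.d k215 k235 k20 5 8)))))))) .n))) (.c k130 (.l (.s k125 k65 5 (.s
  k60 k190 8 (.s k150 k195 14 (.d k20 k40 k215 5 8))))) (.c k150 (.f k125 k65 5 (.q k117 [(.s k101
  k69 3 (.s k109 k97 1 (.s k77 k93 3 (.d k113 k121 k89 1 5)))), (.s k48 k186 10 (.s k16 k32 3 (.s
  k154 k223 10 (.s k56 k203 12 (.d k60 k190 k52 8 1)))))] (.c k101 (.l (.s k121 k113 1 (.s k89 k73 3
  (.s k81 k93 1 (.s k243 k162 12 (.d k60 k190 k182 8 10)))))) (.c k130 (.l (.s k190 k60 8 (.s k48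
  k186 10 (.s k16 k32 3 (.s k101 k69 3 (.d k154 k223 k207 10 14)))))) (.c k190 (.q k130 [(.s k101
  k69 3 (.s k109 k97 1 (.s k77 k93 3 (.d k113 k121 k89 1 5)))), (.s k48 k186 10 (.s k16 k32 3 (.s
  k154 k223 10 (.d k101 k69 k207 3 14)))), (.s k121 k113 1 (.s k186 k48 10 (.s k251 k56 8 (.s k243
  k247 1 (.s k81 k162 12 (.d k89 k93 k73 1 3))))))] .n) .n))))) (.c k190 (.l (.s k65 k125 5 (.s k195
  k130 8 (.s k150 k60 14 (.d k215 k235 k20 5 8))))) (.c k195 (.q k1 [(.s k3 k2 0 (.s k169 k253 13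
  (.s k86 k252 14 (.d k87 k84 k171 0 13)))), (.s k65 k125 5 (.s k193 k129 7 (.s k149 k61 13 (.s k21
  k213 7 (.s k63 k42 6 (.s k106 k192 14 (.d k127 k64 k191 6 7)))))))] (.c k3 (.l (.s k65 k125 5 (.s
  k169 k253 13 (.s k41 k233 7 (.s k61 k21 5 (.d k193 k129 k149 7 13)))))) (.c k253 (.l (.s k3 k2 0
  (.s k65 k125 5 (.s k87 k171 13 (.s k86 k84 0 (.s k67 k124 6 (.s k64 k66 0 (.d k127 k107 k106 5
  6)))))))) .n))) (.c k215 (.q k1 [(.s k3 k2 0 (.s k169 k253 13 (.s k86 k252 14 (.d k87 k84 k171 0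
  13)))), (.s k65 k125 5 (.s k169 k253 13 (.s k41 k233 7 (.s k61 k21 5 (.d k193 k129 k149 7 13))))),
  (.s k3 k2 0 (.s k65 k125 5 (.s k129 k193 7 (.s k66 k192 8 (.s k67 k64 0 (.d k195 k131 k130 7
  8))))))] .n) (.c k235 (.l (.s k125 k65 5 (.s k60 k190 8 (.s k20 k40 5 (.d k150 k215 k195 8 14)))))
  .n))))))))))))

def t43_169 : T TT 256 :=
  (.q k106 [(.s k64 k127 6 (.s k170 k255 14 (.s k42 k234 7 (.s k63 k21 6 (.d k192 k128 k149 7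
  14)))))] (.c k21 (.q k2 [(.s k170 k255 14 (.s k42 k234 7 (.s k62 k22 5 (.s k150 k194 13 (.s k190
  k130 5 (.d k254 k126 k86 7 13)))))), (.s k3 k1 0 (.s k64 k127 6 (.s k192 k128 7 (.s k66 k129 8 (.s
  k65 k67 0 (.d k130 k194 k195 7 8)))))), (.s k3 k1 0 (.s k64 k127 6 (.s k170 k255 14 (.s k86 k254
  13 (.s k66 k126 5 (.d k192 k128 k129 7 8))))))] (.c k192 (.l (.s k64 k127 6 (.s k170 k255 14 (.s
  k86 k254 13 (.s k66 k126 5 (.s k65 k67 0 (.d k130 k194 k195 7 8))))))) .n)) (.c k42 (.l (.s k64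
  k127 6 (.s k192 k128 7 (.s k149 k63 14 (.s k213 k21 7 (.d k255 k234 k170 6 14)))))) (.c k63 (.f
  k170 k255 14 (.f k127 k64 6 (.q k86 [(.s k126 k66 5 (.s k87 k84 0 (.s k124 k125 0 (.d k67 k107
  k105 5 6)))), (.s k2 k254 13 (.s k42 k234 7 (.s k62 k22 5 (.s k66 k126 5 (.d k194 k130 k150 7
  13))))), (.s k2 k254 13 (.s k3 k1 0 (.s k87 k84 0 (.s k67 k107 5 (.s k195 k131 7 (.s k65 k130 8
  (.d k105 k124 k125 6 5)))))))] (.c k3 (.q k23 [(.s k87 k84 0 (.s k67 k107 5 (.s k124 k105 6 (.d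
  k126 k125 k66 0 5)))), (.s k2 k254 13 (.s k42 k234 7 (.s k22 k62 5 (.s k20 k21 0 (.d k150 k214
  k215 7 8)))))] (.c k87 (.q k171 [(.s k2 k254 13 (.s k66 k126 5 (.s k194 k130 7 (.s k62 k150 13 (.d
  k42 k22 k234 5 7))))), (.s k149 k212 8 (.s k21 k213 7 (.s k20 k22 0 (.s k191 k128 6 (.s k151 k131
  5 (.d k150 k215 k148 8 0)))))), (.s k2 k254 13 (.s k149 k212 8 (.s k21 k213 7 (.s k22 k20 0 (.d
  k42 k234 k62 7 5))))), (.s k126 k66 5 (.s k125 k124 0 (.s k65 k105 5 (.s k130 k195 8 (.s k254 k2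
  13 (.d k190 k150 k62 5 7))))))] .n) (.c k126 (.l (.s k2 k254 13 (.s k149 k212 8 (.s k21 k213 7 (.s
  k22 k20 0 (.d k42 k62 k234 5 7)))))) (.c k171 (.l (.s k87 k84 0 (.s k126 k66 5 (.s k124 k125 0 (.d
  k67 k107 k105 5 6))))) .n)))) (.c k23 (.q k3 [(.d k2 k1 k254 0 13), (.s k87 k84 0 (.s k67 k107 5
  (.s k124 k105 6 (.d k126 k125 k66 0 5))))] .n) .n))))) (.c k64 (.q k4 [(.s k12 k8 1 (.s k166 k247
  12 (.s k170 k255 14 (.s k162 k174 1 (.d k243 k81 k89 12 14))))), (.s k12 k8 1 (.s k166 k247 12 (.s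
  k46 k226 9 (.s k63 k29 4 (.s k21 k42 6 (.d k149 k213 k192 7 14)))))), (.s k166 k247 12 (.s k46
  k226 9 (.s k170 k255 14 (.s k42 k234 7 (.s k21 k63 6 (.d k38 k34 k55 1 4)))))), (.s k8 k12 1 (.s
  k170 k255 14 (.s k42 k234 7 (.s k59 k25 4 (.s k153 k200 12 (.s k187 k136 4 (.d k251 k123 k89 7
  12)))))))] .n) (.c k127 (.q k4 [(.s k12 k8 1 (.s k166 k247 12 (.s k89 k243 14 (.s k93 k81 1 (.d
  k255 k174 k170 12 14))))), (.s k12 k8 1 (.s k166 k247 12 (.s k46 k226 9 (.s k63 k29 4 (.s k21 k42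
  6 (.d k149 k213 k192 7 14)))))), (.s k166 k247 12 (.s k46 k226 9 (.s k170 k255 14 (.s k42 k234 7
  (.s k38 k34 1 (.d k21 k63 k55 6 4)))))), (.s k8 k12 1 (.s k170 k255 14 (.s k42 k234 7 (.s k59 k25
  4 (.s k153 k200 12 (.s k187 k136 4 (.d k251 k123 k89 7 12)))))))] .n) (.c k128 (.l (.s k127 k64 6
  (.s k255 k170 14 (.s k63 k191 7 (.s k149 k192 14 (.d k21 k42 k213 6 7)))))) (.c k149 (.f k127 k64
  6 (.f k170 k255 14 (.q k90 [(.s k10 k250 11 (.s k15 k5 2 (.s k80 k95 2 (.d k240 k160 k165 11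
  14)))), (.s k95 k80 2 (.s k79 k111 3 (.s k112 k101 6 (.d k122 k117 k74 2 3)))), (.s k10 k250 11
  (.s k42 k234 7 (.s k58 k26 3 (.s k74 k122 3 (.d k202 k138 k154 7 11)))))] (.c k129 (.q k189 [(.s
  k10 k250 11 (.s k15 k5 2 (.s k80 k95 2 (.d k240 k160 k165 11 14)))), (.s k95 k80 2 (.s k79 k111 3
  (.s k112 k101 6 (.d k122 k117 k74 2 3)))), (.s k10 k250 11 (.s k42 k234 7 (.s k58 k26 3 (.s k74
  k122 3 (.d k202 k138 k154 7 11)))))] .n) (.c k189 (.q k129 [(.s k10 k250 11 (.s k15 k5 2 (.s k80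
  k95 2 (.d k240 k160 k165 11 14)))), (.s k95 k80 2 (.s k79 k111 3 (.s k112 k101 6 (.d k122 k117 k74
  2 3)))), (.s k10 k250 11 (.s k42 k234 7 (.s k58 k26 3 (.s k74 k122 3 (.d k202 k138 k154 7 11)))))]
  .n) .n))))) (.c k170 (.q k105 [(.s k64 k127 6 (.s k65 k125 5 (.s k67 k66 0 (.s k104 k107 0 (.d
  k124 k84 k86 5 6))))), (.s k65 k125 5 (.s k107 k104 0 (.s k195 k130 8 (.s k63 k151 13 (.s k21 k42
  6 (.d k149 k213 k192 7 14)))))), (.s k64 k127 6 (.s k104 k107 0 (.s k192 k128 7 (.s k60 k148 13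
  (.s k20 k40 5 (.d k150 k215 k195 8 14)))))), (.s k64 k127 6 (.s k65 k125 5 (.s k192 k128 7 (.s
  k149 k63 14 (.s k193 k61 13 (.d k195 k194 k130 0 8))))))] (.c k168 (.q k171 [(.s k64 k127 6 (.s
  k65 k125 5 (.s k67 k66 0 (.s k104 k107 0 (.d k124 k84 k86 5 6))))), (.s k65 k125 5 (.s k107 k104 0
  (.s k195 k130 8 (.s k63 k151 13 (.s k21 k42 6 (.d k149 k213 k192 7 14)))))), (.s k64 k127 6 (.s
  k104 k107 0 (.s k192 k128 7 (.s k149 k63 14 (.s k193 k61 13 (.s k195 k194 0 (.d k60 k148 k150 13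
  14))))))), (.s k64 k127 6 (.s k65 k125 5 (.s k192 k128 7 (.s k149 k63 14 (.s k193 k61 13 (.d k195
  k194 k130 0 8))))))] .n) (.c k171 (.q k168 [(.s k64 k127 6 (.s k84 k252 13 (.d k104 k107 k124 0
  5))), (.s k65 k125 5 (.s k107 k104 0 (.s k195 k130 8 (.s k63 k151 13 (.s k21 k42 6 (.d k149 k213
  k192 7 14))))))] (.c k104 (.l (.s k64 k127 6 (.s k65 k125 5 (.s k66 k67 0 (.s k84 k252 13 (.d k86
  k87 k126 0 5)))))) (.c k107 (.q k235 [(.s k64 k127 6 (.s k84 k252 13 (.s k124 k104 5 (.d k86 k87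
  k67 0 6)))), (.s k65 k125 5 (.s k195 k130 8 (.s k150 k60 14 (.d k215 k255 k20 5 8))))] .n) (.c
  k235 (.l (.s k107 k104 0 (.s k84 k252 13 (.s k127 k64 6 (.d k87 k86 k67 0 5))))) .n)))) .n))) (.c
  k191 (.l (.s k64 k127 6 (.s k192 k128 7 (.s k63 k149 14 (.s k170 k255 14 (.d k42 k21 k234 6
  7)))))) (.c k192 (.q k65 [(.s k64 k127 6 (.s k105 k125 5 (.s k104 k107 0 (.s k124 k84 5 (.d k67
  k66 k86 0 6))))), (.s k105 k125 5 (.s k170 k255 14 (.s k195 k130 8 (.s k60 k150 14 (.d k40 k20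
  k235 5 8))))), (.s k64 k127 6 (.s k66 k67 0 (.s k130 k195 8 (.s k170 k255 14 (.s k194 k2 7 (.d
  k150 k190 k62 5 13))))))] (.c k235 (.l (.s k64 k127 6 (.s k67 k66 0 (.s k105 k125 5 (.s k124 k86 6
  (.d k104 k107 k84 0 5)))))) .n)) (.c k213 (.l (.s k64 k127 6 (.s k170 k255 14 (.s k42 k234 7 (.s
  k192 k128 7 (.d k63 k21 k149 6 14)))))) (.c k234 (.l (.s k127 k64 6 (.s k255 k170 14 (.s k63 k191
  7 (.s k21 k42 6 (.d k149 k213 k192 7 14)))))) (.c k255 (.q k65 [(.s k105 k125 5 (.s k107 k104 0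
  (.s k195 k130 8 (.s k63 k151 13 (.s k21 k42 6 (.d k149 k213 k192 7 14)))))), (.s k64 k127 6 (.s
  k66 k67 0 (.s k130 k195 8 (.s k2 k194 7 (.s k3 k1 0 (.d k192 k128 k129 7 8)))))), (.s k64 k127 6
  (.s k67 k66 0 (.s k105 k125 5 (.s k104 k107 0 (.d k124 k84 k86 5 6)))))] (.c k63 (.l (.s k105 k125
  5 (.s k104 k107 0 (.s k195 k130 8 (.s k60 k150 14 (.s k192 k148 13 (.d k64 k127 k128 6 7)))))))
  (.c k107 (.l (.s k64 k127 6 (.s k105 k125 5 (.s k192 k128 7 (.s k195 k130 8 (.s k193 k194 0 (.d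
  k149 k63 k61 14 13))))))) .n))) .n))))))))))))))

def t43_171 : T TT 256 :=
  (.q k105 [(.s k65 k125 5 (.s k195 k130 8 (.s k60 k150 14 (.s k40 k20 5 (.d k170 k235 k255 8
  14)))))] (.c k20 (.q k107 [(.s k106 k104 0 (.s k125 k65 5 (.s k127 k64 6 (.s k124 k126 0 (.d k67
  k87 k86 5 6))))), (.s k65 k125 5 (.s k195 k130 8 (.s k60 k150 14 (.s k63 k151 13 (.s k21 k42 6 (.s
  k149 k213 7 (.d k61 k62 k193 0 13))))))), (.s k106 k104 0 (.s k64 k127 6 (.s k170 k255 14 (.s k42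
  k234 7 (.s k63 k21 6 (.d k192 k128 k149 7 14))))))] .n) (.c k40 (.l (.s k65 k125 5 (.s k195 k130 8
  (.s k150 k60 14 (.s k215 k20 8 (.d k255 k235 k170 5 14)))))) (.c k60 (.q k106 [(.s k64 k127 6 (.s
  k192 k128 7 (.s k63 k149 14 (.s k42 k21 6 (.d k170 k234 k255 7 14))))), (.s k64 k127 6 (.s k65
  k125 5 (.s k67 k66 0 (.s k124 k86 6 (.d k104 k107 k84 0 5))))), (.s k65 k125 5 (.s k107 k104 0 (.s
  k195 k130 8 (.s k63 k151 13 (.s k21 k42 6 (.d k149 k192 k213 14 7))))))] (.c k107 (.q k235 [(.d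
  k170 k40 k255 8 14), (.s k64 k127 6 (.s k65 k125 5 (.s k192 k128 7 (.s k149 k63 14 (.s k195 k130 8
  (.d k193 k61 k194 13 0))))))] (.c k255 (.l (.s k64 k127 6 (.s k170 k40 8 (.s k42 k234 7 (.s k63
  k21 6 (.d k192 k128 k149 7 14)))))) .n)) (.c k235 (.l (.s k107 k104 0 (.s k125 k65 5 (.s k127 k64
  6 (.s k67 k87 5 (.d k124 k126 k86 0 6)))))) (.c k255 (.l (.s k107 k104 0 (.s k125 k65 5 (.s k127
  k64 6 (.s k124 k126 0 (.d k67 k87 k86 5 6)))))) .n)))) (.c k65 (.q k4 [(.s k12 k8 1 (.s k166 k247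
  12 (.s k89 k243 14 (.s k93 k81 1 (.d k255 k174 k170 12 14))))), (.s k12 k8 1 (.s k166 k247 12 (.s
  k44 k227 10 (.s k60 k28 3 (.s k20 k40 5 (.d k150 k215 k195 8 14)))))), (.s k166 k247 12 (.s k44
  k227 10 (.s k170 k255 14 (.s k174 k162 1 (.s k239 k109 8 (.s k32 k101 10 (.d k40 k235 k36 8
  1)))))))] (.c k107 (.q k235 [(.d k170 k40 k255 8 14), (.s k12 k8 1 (.s k166 k247 12 (.s k44 k227
  10 (.s k60 k28 3 (.s k20 k40 5 (.d k150 k215 k195 8 14))))))] (.c k40 (.l (.s k12 k8 1 (.s k166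
  k247 12 (.s k89 k243 14 (.s k93 k81 1 (.d k255 k174 k170 12 14)))))) .n)) (.c k166 (.l (.s k8 k12
  1 (.s k170 k255 14 (.s k89 k251 12 (.s k73 k121 3 (.s k203 k138 8 (.s k56 k154 12 (.d k40 k24 k235
  3 8)))))))) (.c k235 (.q k107 [(.s k12 k8 1 (.s k166 k247 12 (.s k89 k243 14 (.s k93 k81 1 (.d
  k255 k174 k170 12 14))))), (.s k106 k104 0 (.s k64 k127 6 (.s k170 k255 14 (.s k42 k234 7 (.s k63
  k21 6 (.d k192 k128 k149 7 14)))))), (.s k12 k8 1 (.s k166 k247 12 (.s k44 k227 10 (.s k60 k28 3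
  (.s k20 k40 5 (.d k150 k215 k195 8 14))))))] .n) (.c k247 (.l (.s k8 k12 1 (.s k170 k255 14 (.s
  k235 k40 8 (.s k251 k89 12 (.s k203 k219 3 (.s k138 k73 8 (.d k154 k186 k56 3 12)))))))) .n)))))
  (.c k107 (.q k235 [(.d k170 k40 k255 8 14), (.s k65 k125 5 (.s k195 k130 8 (.s k150 k60 14 (.d
  k215 k255 k20 5 8))))] (.c k255 (.l (.s k40 k170 8 (.s k60 k20 5 (.s k65 k125 5 (.d k195 k130 k150
  8 14))))) .n)) (.c k125 (.q k48 [(.s k16 k32 3 (.s k154 k223 10 (.s k101 k207 14 (.s k117 k69 3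
  (.d k255 k186 k170 10 14))))), (.s k16 k32 3 (.s k154 k223 10 (.s k56 k203 12 (.s k60 k52 1 (.s
  k20 k40 5 (.d k150 k215 k195 8 14)))))), (.s k255 k170 14 (.s k117 k186 10 (.s k101 k69 3 (.s k97
  k109 1 (.s k195 k146 12 (.s k150 k60 14 (.d k215 k235 k20 5 8)))))))] (.c k107 (.q k235 [(.d k170
  k40 k255 8 14), (.s k16 k32 3 (.s k154 k223 10 (.s k56 k203 12 (.s k60 k52 1 (.s k20 k40 5 (.d
  k150 k215 k195 8 14))))))] (.c k40 (.l (.s k16 k32 3 (.s k154 k223 10 (.s k101 k207 14 (.s k117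
  k69 3 (.d k255 k186 k170 10 14)))))) .n)) (.c k154 (.l (.s k32 k16 3 (.s k170 k255 14 (.s k101
  k239 10 (.s k97 k109 1 (.s k195 k146 12 (.s k130 k65 8 (.d k150 k190 k60 5 14)))))))) (.c k235 (.q
  k107 [(.s k16 k32 3 (.s k154 k223 10 (.s k101 k207 14 (.s k117 k69 3 (.d k255 k186 k170 10
  14))))), (.s k106 k104 0 (.s k64 k127 6 (.s k170 k255 14 (.s k42 k234 7 (.s k63 k21 6 (.d k192
  k128 k149 7 14)))))), (.s k16 k32 3 (.s k154 k223 10 (.s k56 k203 12 (.s k60 k52 1 (.s k20 k40 5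
  (.d k150 k215 k195 8 14))))))] .n) .n)))) (.c k130 (.l (.s k125 k65 5 (.s k255 k170 14 (.s k60
  k190 8 (.s k150 k195 14 (.d k20 k40 k215 5 8)))))) (.c k150 (.f k65 k125 5 (.q k107 [(.s k106 k104
  0 (.s k64 k127 6 (.s k192 k128 7 (.s k63 k149 14 (.d k195 k151 k130 13 8))))), (.s k106 k104 0 (.s
  k170 k255 14 (.s k42 k234 7 (.s k63 k21 6 (.d k195 k130 k151 8 13))))), (.s k106 k104 0 (.s k64
  k127 6 (.s k66 k67 0 (.s k130 k195 8 (.s k2 k194 7 (.s k3 k1 0 (.d k192 k128 k129 7 8))))))), (.s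
  k106 k104 0 (.s k64 k127 6 (.s k170 k255 14 (.s k42 k234 7 (.s k63 k21 6 (.d k192 k128 k149 7
  14))))))] (.c k104 (.l (.s k195 k130 8 (.s k63 k151 13 (.s k21 k42 6 (.s k149 k213 7 (.s k192 k106
  14 (.d k193 k194 k61 0 13))))))) (.c k106 (.f k170 k255 14 (.l (.s k40 k235 8 (.s k60 k20 5 (.s
  k195 k130 8 (.s k63 k151 13 (.s k21 k42 6 (.s k149 k213 7 (.d k61 k62 k193 0 13))))))))) (.c k192
  (.l (.s k106 k104 0 (.s k127 k64 6 (.s k195 k130 8 (.s k63 k151 13 (.d k255 k191 k170 7 14))))))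
  .n))))) (.c k170 (.f k65 k125 5 (.q k169 [(.s k1 k253 13 (.s k41 k233 7 (.s k61 k21 5 (.d k193
  k129 k149 7 13)))), (.s k195 k130 8 (.s k233 k41 7 (.s k252 k214 6 (.s k84 k168 13 (.d k86 k87 k3
  0 14))))), (.s k1 k253 13 (.s k3 k2 0 (.s k86 k252 14 (.s k67 k124 6 (.d k195 k131 k130 7 8)))))]
  (.c k107 (.q k235 [(.s k195 k130 8 (.s k150 k60 14 (.d k215 k255 k20 5 8))), (.s k1 k253 13 (.s
  k41 k233 7 (.s k61 k21 5 (.d k193 k129 k149 7 13))))] .n) (.c k235 (.q k107 [(.s k1 k253 13 (.s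
  k193 k129 7 (.s k61 k149 13 (.d k41 k21 k233 5 7)))), (.s k106 k104 0 (.s k64 k127 6 (.s k192 k128
  7 (.s k195 k130 8 (.d k63 k149 k151 14 13))))), (.s k1 k253 13 (.s k3 k2 0 (.s k41 k233 7 (.s k60
  k22 6 (.d k195 k130 k150 8 14)))))] .n) .n)))) (.c k190 (.l (.s k65 k125 5 (.s k195 k130 8 (.s k60
  k150 14 (.s k170 k255 14 (.d k40 k20 k235 5 8)))))) (.c k195 (.q k63 [(.s k42 k21 6 (.s k170 k255
  14 (.s k106 k234 7 (.s k64 k127 6 (.d k192 k128 k149 7 14))))), (.s k21 k42 6 (.s k125 k65 5 (.s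
  k149 k213 7 (.s k61 k193 13 (.s k253 k189 7 (.d k1 k41 k169 5 13)))))), (.s k65 k125 5 (.s k255
  k170 14 (.s k127 k191 7 (.s k64 k106 6 (.s k67 k66 0 (.s k86 k124 6 (.d k87 k107 k84 5 0)))))))]
  (.c k42 (.l (.s k125 k65 5 (.s k255 k170 14 (.s k60 k190 8 (.s k61 k62 0 (.s k127 k191 7 (.s k106
  k64 6 (.d k149 k193 k192 13 14)))))))) (.c k107 (.q k235 [(.d k170 k40 k255 8 14), (.s k21 k42 6
  (.s k125 k65 5 (.s k149 k213 7 (.s k61 k193 13 (.s k253 k189 7 (.d k1 k41 k169 5 13))))))] (.c k40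
  (.l (.s k42 k21 6 (.s k170 k255 14 (.s k106 k234 7 (.s k64 k127 6 (.d k192 k128 k149 7 14))))))
  .n)) (.c k149 (.l (.s k21 k42 6 (.s k125 k65 5 (.s k255 k170 14 (.s k60 k190 8 (.s k61 k62 0 (.s
  k253 k189 7 (.d k1 k41 k169 5 13)))))))) (.c k235 (.q k107 [(.s k42 k21 6 (.s k106 k104 0 (.d k170
  k255 k234 14 7))), (.s k125 k65 5 (.s k255 k170 14 (.s k127 k191 7 (.s k67 k87 5 (.d k124 k126 k86
  0 6)))))] (.c k170 (.l (.s k21 k42 6 (.s k106 k104 0 (.d k149 k213 k192 7 14)))) (.c k215 (.l (.s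
  k255 k170 14 (.s k106 k104 0 (.d k127 k64 k191 6 7)))) (.c k255 (.q k215 [(.s k106 k104 0 (.s k64
  k127 6 (.d k192 k128 k149 7 14))), (.s k20 k150 8 (.s k21 k42 6 (.s k149 k213 7 (.s k61 k193 13
  (.d k60 k40 k62 5 0))))), (.s k106 k104 0 (.s k125 k65 5 (.s k127 k64 6 (.s k124 k126 0 (.d k67
  k87 k86 5 6)))))] (.c k3 (.q k87 [(.s k67 k127 5 (.d k86 k84 k124 0 6)), (.s k20 k150 8 (.s k21
  k42 6 (.d k23 k22 k151 0 7)))] (.c k67 (.q k131 [(.s k106 k104 0 (.s k64 k127 6 (.d k192 k128 k149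
  7 14))), (.s k20 k150 8 (.s k21 k42 6 (.d k23 k22 k151 0 7)))] .n) (.c k131 (.l (.s k67 k127 5 (.d
  k86 k84 k124 0 6))) .n))) (.c k87 (.q k3 [(.s k106 k104 0 (.s k64 k127 6 (.d k192 k128 k149 7
  14))), (.s k1 k2 0 (.s k21 k42 6 (.s k41 k61 5 (.d k169 k233 k253 7 13))))] .n) .n))) .n))))
  .n))))) (.c k235 (.q k107 [(.s k106 k104 0 (.s k125 k65 5 (.s k127 k64 6 (.s k124 k126 0 (.d k67
  k87 k86 5 6))))), (.s k125 k65 5 (.s k255 k170 14 (.s k60 k190 8 (.s k20 k40 5 (.d k150 k215 k195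
  8 14))))), (.s k106 k104 0 (.s k64 k127 6 (.s k170 k255 14 (.s k42 k234 7 (.s k63 k21 6 (.d k192
  k128 k149 7 14))))))] .n) (.c k255 (.q k3 [(.s k1 k2 0 (.s k65 k125 5 (.s k129 k193 7 (.s k66 k192
  8 (.s k67 k64 0 (.d k195 k131 k130 7 8)))))), (.s k1 k2 0 (.s k169 k253 13 (.s k41 k233 7 (.s k60
  k22 6 (.s k20 k40 5 (.d k150 k215 k195 8 14)))))), (.s k65 k125 5 (.s k195 k130 8 (.s k67 k131 7
  (.s k86 k124 6 (.s k84 k87 0 (.d k252 k168 k169 13 14)))))), (.s k1 k2 0 (.s k125 k65 5 (.s k253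
  k169 13 (.s k61 k189 7 (.s k21 k41 5 (.d k149 k213 k193 7 13))))))] (.c k107 (.q k235 [(.s k65
  k125 5 (.s k195 k130 8 (.s k60 k150 14 (.d k40 k170 k20 8 5)))), (.s k2 k1 0 (.s k170 k40 8 (.s
  k86 k254 13 (.s k84 k87 0 (.d k252 k168 k169 13 14))))), (.s k1 k2 0 (.s k65 k125 5 (.s k129 k193
  7 (.s k66 k192 8 (.s k67 k64 0 (.d k195 k131 k130 7 8))))))] .n) (.c k235 (.q k107 [(.s k65 k125 5
  (.s k106 k104 0 (.s k127 k64 6 (.s k67 k87 5 (.d k195 k131 k130 7 8))))), (.s k1 k2 0 (.s k106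
  k104 0 (.s k127 k64 6 (.s k67 k87 5 (.s k169 k253 13 (.d k86 k124 k252 6 14)))))), (.s k1 k2 0 (.s
  k65 k125 5 (.s k129 k193 7 (.s k66 k192 8 (.s k67 k64 0 (.d k195 k131 k130 7 8))))))] (.c k64 (.l
  (.s k65 k125 5 (.s k195 k130 8 (.s k67 k131 7 (.s k86 k124 6 (.d k87 k84 k127 0 5)))))) (.c k67
  (.l (.s k1 k2 0 (.s k65 k125 5 (.s k106 k104 0 (.s k64 k127 6 (.s k129 k193 7 (.d k192 k128 k66 7
  8))))))) (.c k195 (.q k215 [(.s k1 k2 0 (.s k20 k150 8 (.s k60 k40 5 (.s k169 k253 13 (.d k41 k22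
  k233 6 7))))), (.s k106 k104 0 (.s k64 k127 6 (.s k192 k128 7 (.s k66 k129 8 (.d k65 k67 k125 0
  5)))))] .n) (.c k215 (.q k195 [(.d k65 k125 k130 5 8), (.s k67 k131 7 (.s k86 k124 6 (.d k87 k84
  k127 0 5)))] .n) .n))))) .n))) .n))))))))))))))

def t43_172 : T TT 256 :=
  (.f k255 k170 14 (.q k106 [(.s k64 k127 6 (.s k192 k128 7 (.s k213 k234 6 (.d k149 k21 k63 7
  14))))] (.c k21 (.q k1 [(.s k3 k2 0 (.s k169 k253 13 (.s k86 k252 14 (.d k87 k84 k171 0 13)))),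
  (.s k64 k127 6 (.s k192 k128 7 (.s k213 k234 6 (.s k253 k169 13 (.s k193 k233 5 (.s k65 k129 7 (.d
  k195 k130 k194 8 0))))))), (.s k3 k2 0 (.s k64 k127 6 (.s k192 k128 7 (.s k66 k129 8 (.s k86 k126
  5 (.d k87 k84 k171 0 13))))))] (.c k171 (.l (.s k3 k2 0 (.s k64 k127 6 (.s k169 k253 13 (.s k86
  k252 14 (.s k66 k126 5 (.d k192 k128 k129 7 8))))))) .n)) (.c k63 (.q k3 [(.s k1 k2 0 (.s k87 k171
  13 (.s k86 k84 0 (.d k169 k253 k252 13 14)))), (.s k2 k1 0 (.s k64 k127 6 (.s k192 k128 7 (.s k66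
  k129 8 (.s k65 k67 0 (.d k130 k194 k195 7 8)))))), (.s k64 k127 6 (.s k192 k128 7 (.s k66 k129 8
  (.s k86 k126 5 (.d k87 k84 k171 0 13)))))] (.c k87 (.l (.s k1 k2 0 (.s k64 k127 6 (.s k169 k253 13
  (.s k86 k252 14 (.s k192 k128 7 (.d k66 k126 k129 5 8))))))) .n)) (.c k64 (.q k3 [(.s k1 k2 0 (.s
  k169 k253 13 (.s k86 k252 14 (.d k87 k84 k171 0 13)))), (.s k87 k171 13 (.s k86 k84 0 (.s k66 k126
  5 (.s k192 k129 8 (.s k213 k234 6 (.d k149 k21 k63 7 14)))))), (.s k1 k2 0 (.s k169 k253 13 (.s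
  k86 k252 14 (.s k66 k126 5 (.s k192 k129 8 (.s k213 k234 6 (.d k149 k63 k21 14 7)))))))] (.c k86
  (.q k127 [(.s k63 k191 7 (.s k149 k192 14 (.d k21 k42 k213 6 7))), (.s k87 k171 13 (.s k107 k67 5
  (.s k105 k104 0 (.s k65 k125 5 (.s k195 k130 8 (.s k150 k60 14 (.d k215 k235 k20 5 8)))))))] (.c
  k2 (.q k254 [(.s k63 k191 7 (.s k149 k192 14 (.d k21 k42 k213 6 7))), (.s k87 k171 13 (.s k107 k67
  5 (.s k105 k104 0 (.s k65 k125 5 (.s k195 k130 8 (.s k150 k60 14 (.d k215 k235 k20 5 8)))))))] (.c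
  k192 (.l (.s k63 k191 7 (.s k252 k253 0 (.s k126 k189 8 (.s k125 k124 0 (.d k190 k62 k60 7 8))))))
  .n)) (.c k192 (.l (.s k63 k191 7 (.s k87 k171 13 (.s k107 k67 5 (.s k105 k104 0 (.s k65 k125 5 (.d
  k195 k151 k130 13 8))))))) (.c k254 (.l (.s k2 k1 0 (.s k63 k191 7 (.s k21 k42 6 (.d k149 k213
  k192 7 14))))) .n)))) (.c k169 (.f k171 k87 13 (.q k243 [(.s k81 k162 12 (.s k89 k93 1 (.s k247
  k251 1 (.d k166 k4 k12 12 14)))), (.s k163 k83 11 (.s k251 k247 1 (.s k91 k11 11 (.d k167 k175 k15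
  1 13)))), (.s k1 k2 0 (.s k81 k162 12 (.s k161 k241 11 (.s k82 k240 12 (.d k83 k163 k80 11 0)))))]
  (.c k163 (.q k166 [(.d k247 k251 k4 1 12), (.s k81 k162 12 (.d k89 k93 k12 1 14))] .n) (.c k166
  (.l (.s k163 k83 11 (.s k167 k175 1 (.s k91 k15 13 (.d k251 k247 k11 1 11))))) .n)))) .n))) (.c
  k127 (.q k204 [(.s k68 k136 9 (.s k221 k238 4 (.s k153 k17 9 (.d k102 k119 k51 4 14)))), (.s k68
  k136 9 (.s k102 k119 4 (.s k110 k98 1 (.s k63 k157 12 (.s k21 k42 6 (.d k149 k213 k192 7 14)))))),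
  (.s k221 k238 4 (.s k153 k17 9 (.s k200 k59 12 (.s k192 k196 1 (.s k149 k63 14 (.d k213 k234 k21 6
  7))))))] (.c k102 (.q k200 [(.s k153 k59 12 (.d k221 k238 k17 4 9)), (.s k192 k196 1 (.s k149 k63
  14 (.d k213 k234 k21 6 7)))] (.c k34 (.l (.s k238 k221 4 (.s k192 k196 1 (.s k149 k63 14 (.d k213
  k234 k21 6 7))))) (.c k238 (.q k34 [(.s k17 k51 4 (.d k153 k221 k59 9 12)), (.s k192 k196 1 (.s
  k149 k63 14 (.d k213 k234 k21 6 7)))] .n) .n))) (.c k153 (.q k102 [(.d k68 k136 k119 9 4), (.s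
  k110 k98 1 (.s k63 k157 12 (.s k21 k42 6 (.d k149 k213 k192 7 14))))] (.c k136 (.q k187 [(.d k119
  k68 k51 4 9), (.s k110 k98 1 (.s k63 k157 12 (.s k21 k42 6 (.d k149 k213 k192 7 14))))] .n) (.c
  k187 (.l (.s k136 k68 9 (.s k110 k98 1 (.s k63 k157 12 (.s k21 k42 6 (.d k149 k213 k192 7 14))))))
  .n))) .n))) (.c k128 (.l (.s k127 k64 6 (.s k63 k191 7 (.s k149 k192 14 (.d k21 k42 k213 6 7)))))
  (.c k149 (.f k127 k64 6 (.q k111 [(.s k79 k95 3 (.s k101 k96 2 (.s k117 k69 3 (.d k112 k122 k90 2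
  6)))), (.s k95 k79 3 (.s k15 k175 11 (.s k5 k10 2 (.s k165 k245 11 (.d k90 k80 k240 2 14))))), (.s
  k101 k96 2 (.s k69 k117 3 (.s k207 k138 10 (.d k63 k191 k159 7 11))))] (.c k69 (.l (.s k79 k95 3
  (.s k101 k96 2 (.s k112 k90 6 (.s k117 k122 2 (.s k48 k186 10 (.s k16 k32 3 (.d k154 k223 k207 10
  14)))))))) (.c k80 (.l (.s k79 k95 3 (.s k101 k96 2 (.s k112 k90 6 (.d k117 k122 k69 2 3))))) (.c
  k128 (.l (.s k191 k63 7 (.s k79 k95 3 (.s k101 k96 2 (.s k112 k90 6 (.d k117 k122 k69 2 3))))))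
  (.c k191 (.q k128 [(.s k79 k95 3 (.s k101 k96 2 (.s k117 k69 3 (.d k112 k122 k90 2 6)))), (.s k95
  k79 3 (.s k15 k175 11 (.s k5 k10 2 (.s k165 k245 11 (.d k90 k80 k240 2 14))))), (.s k101 k96 2 (.s
  k69 k117 3 (.s k207 k138 10 (.s k154 k48 14 (.d k223 k239 k16 3 10)))))] (.c k69 (.l (.s k79 k95 3
  (.s k101 k96 2 (.s k112 k90 6 (.s k117 k122 2 (.s k48 k186 10 (.s k16 k32 3 (.d k154 k223 k207 10
  14)))))))) (.c k80 (.l (.s k79 k95 3 (.s k101 k96 2 (.s k112 k90 6 (.d k117 k122 k69 2 3)))))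
  .n))) .n)))))) (.c k191 (.l (.s k64 k127 6 (.s k192 k128 7 (.s k149 k63 14 (.d k213 k234 k21 6
  7))))) (.c k192 (.q k4 [(.s k12 k8 1 (.s k166 k247 12 (.s k89 k243 14 (.d k93 k81 k174 1 12)))),
  (.s k127 k64 6 (.s k63 k191 7 (.s k21 k42 6 (.s k55 k38 4 (.s k247 k166 12 (.s k119 k183 7 (.d k51
  k187 k59 9 1))))))), (.s k12 k8 1 (.s k127 k64 6 (.s k63 k191 7 (.s k21 k42 6 (.s k29 k46 4 (.s
  k25 k17 1 (.d k38 k55 k51 4 6)))))))] .n) (.c k213 (.q k3 [(.s k1 k2 0 (.s k87 k171 13 (.s k86 k84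
  0 (.d k169 k253 k252 13 14)))), (.s k2 k1 0 (.s k64 k127 6 (.s k192 k128 7 (.s k66 k129 8 (.s k65
  k67 0 (.d k130 k194 k195 7 8)))))), (.s k64 k127 6 (.s k192 k128 7 (.s k66 k129 8 (.s k86 k126 5
  (.d k87 k84 k171 0 13)))))] (.c k87 (.l (.s k1 k2 0 (.s k64 k127 6 (.s k169 k253 13 (.s k86 k252
  14 (.s k66 k126 5 (.d k192 k128 k129 7 8))))))) .n)) (.c k234 (.l (.s k127 k64 6 (.s k63 k191 7
  (.s k21 k42 6 (.d k149 k213 k192 7 14))))) .n))))))))))))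

def t43_173 : T TT 256 :=
  (.f k255 k170 14 (.q k106 [(.s k64 k127 6 (.s k192 k128 7 (.s k213 k234 6 (.d k149 k21 k63 7
  14))))] (.c k21 (.q k1 [(.s k3 k2 0 (.s k87 k171 13 (.s k86 k84 0 (.d k169 k253 k252 13 14)))),
  (.s k64 k127 6 (.s k169 k253 13 (.s k192 k128 7 (.s k149 k63 14 (.s k129 k189 5 (.s k65 k193 7 (.d
  k66 k3 k67 8 0))))))), (.s k3 k2 0 (.s k64 k127 6 (.s k192 k128 7 (.s k66 k129 8 (.s k86 k126 5
  (.d k87 k84 k171 0 13))))))] (.c k3 (.l (.s k64 k127 6 (.s k192 k128 7 (.s k213 k234 6 (.s k253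
  k169 13 (.s k193 k233 5 (.s k65 k129 7 (.d k195 k130 k194 8 0)))))))) .n)) (.c k63 (.q k3 [(.s k1
  k2 0 (.s k87 k171 13 (.s k86 k84 0 (.d k169 k253 k252 13 14)))), (.s k2 k1 0 (.s k64 k127 6 (.s
  k192 k128 7 (.s k66 k129 8 (.s k65 k67 0 (.d k130 k194 k195 7 8)))))), (.s k64 k127 6 (.s k192
  k128 7 (.s k66 k129 8 (.s k86 k126 5 (.d k87 k84 k171 0 13)))))] (.c k87 (.l (.s k1 k2 0 (.s k64
  k127 6 (.s k169 k253 13 (.s k86 k252 14 (.s k192 k128 7 (.d k66 k126 k129 5 8))))))) .n)) (.c k64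
  (.q k3 [(.s k1 k2 0 (.s k169 k253 13 (.s k86 k252 14 (.d k87 k84 k171 0 13)))), (.s k87 k171 13
  (.s k86 k84 0 (.s k66 k126 5 (.s k192 k129 8 (.s k213 k234 6 (.d k149 k21 k63 7 14)))))), (.s k1
  k2 0 (.s k169 k253 13 (.s k86 k252 14 (.s k66 k126 5 (.s k192 k129 8 (.s k213 k234 6 (.d k149 k63
  k21 14 7)))))))] (.c k86 (.q k83 [(.s k243 k163 11 (.s k81 k162 12 (.s k82 k80 0 (.s k161 k240 12
  (.d k1 k2 k241 0 11))))), (.s k87 k171 13 (.s k91 k95 1 (.s k243 k163 11 (.s k167 k15 13 (.d k247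
  k251 k7 1 11))))), (.s k87 k171 13 (.s k95 k91 1 (.s k80 k90 2 (.s k82 k81 0 (.d k240 k160 k161 11
  12)))))] (.c k2 (.q k254 [(.s k87 k171 13 (.s k91 k95 1 (.s k243 k163 11 (.s k167 k15 13 (.d k247
  k251 k7 1 11))))), (.s k243 k163 11 (.s k81 k162 12 (.s k89 k93 1 (.s k166 k12 14 (.d k247 k251 k4
  1 12))))), (.s k87 k171 13 (.s k95 k91 1 (.s k80 k90 2 (.s k82 k81 0 (.d k240 k160 k161 11
  12)))))] (.c k251 (.l (.s k243 k163 11 (.s k81 k162 12 (.s k82 k80 0 (.s k161 k240 12 (.s k1 k241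
  11 (.d k253 k252 k169 0 13))))))) .n)) (.c k254 (.l (.s k2 k1 0 (.s k87 k171 13 (.s k91 k95 1 (.s
  k243 k163 11 (.s k167 k15 13 (.d k247 k251 k7 1 11))))))) .n))) (.c k169 (.f k171 k87 13 (.q k240
  [(.s k80 k160 11 (.s k245 k250 2 (.s k165 k5 11 (.d k90 k95 k15 2 14)))), (.s k1 k2 0 (.s k160 k80
  11 (.s k161 k82 12 (.s k81 k241 11 (.d k162 k163 k243 0 12))))), (.s k245 k250 2 (.s k165 k5 11
  (.s k224 k47 10 (.s k192 k208 3 (.s k149 k63 14 (.d k213 k234 k21 6 7))))))] (.c k161 (.q k165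
  [(.d k245 k250 k5 2 11), (.s k80 k160 11 (.d k90 k95 k15 2 14))] .n) (.c k165 (.l (.s k161 k82 12
  (.s k1 k2 0 (.s k81 k241 11 (.s k160 k80 11 (.d k162 k163 k243 0 12)))))) .n)))) .n))) (.c k127
  (.q k204 [(.s k68 k136 9 (.s k221 k238 4 (.s k153 k17 9 (.d k102 k119 k51 4 14)))), (.s k68 k136 9
  (.s k102 k119 4 (.s k110 k98 1 (.s k63 k157 12 (.s k21 k42 6 (.d k149 k213 k192 7 14)))))), (.s
  k221 k238 4 (.s k153 k17 9 (.s k200 k59 12 (.s k192 k196 1 (.s k149 k63 14 (.d k213 k234 k21 6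
  7))))))] (.c k102 (.q k200 [(.s k153 k59 12 (.d k221 k238 k17 4 9)), (.s k192 k196 1 (.s k149 k63
  14 (.d k213 k234 k21 6 7)))] (.c k34 (.l (.s k238 k221 4 (.s k192 k196 1 (.s k149 k63 14 (.d k213
  k234 k21 6 7))))) (.c k238 (.q k34 [(.s k17 k51 4 (.d k153 k221 k59 9 12)), (.s k192 k196 1 (.s
  k149 k63 14 (.d k213 k234 k21 6 7)))] .n) .n))) (.c k153 (.q k102 [(.d k68 k136 k119 9 4), (.s
  k110 k98 1 (.s k63 k157 12 (.s k21 k42 6 (.d k149 k213 k192 7 14))))] (.c k136 (.q k187 [(.d k119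
  k68 k51 4 9), (.s k110 k98 1 (.s k63 k157 12 (.s k21 k42 6 (.d k149 k213 k192 7 14))))] .n) (.c
  k187 (.l (.s k136 k68 9 (.s k110 k98 1 (.s k63 k157 12 (.s k21 k42 6 (.d k149 k213 k192 7 14))))))
  .n))) .n))) (.c k128 (.l (.s k127 k64 6 (.s k63 k191 7 (.s k149 k192 14 (.d k21 k42 k213 6 7)))))
  (.c k149 (.f k127 k64 6 (.q k111 [(.s k79 k95 3 (.s k101 k96 2 (.s k117 k69 3 (.d k112 k122 k90 2
  6)))), (.s k95 k79 3 (.s k15 k175 11 (.s k5 k10 2 (.s k165 k245 11 (.d k90 k80 k240 2 14))))), (.s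
  k101 k96 2 (.s k69 k117 3 (.s k207 k138 10 (.d k63 k191 k159 7 11))))] (.c k69 (.l (.s k79 k95 3
  (.s k101 k96 2 (.s k112 k90 6 (.s k117 k122 2 (.s k48 k186 10 (.s k16 k32 3 (.d k154 k223 k207 10
  14)))))))) (.c k80 (.l (.s k79 k95 3 (.s k101 k96 2 (.s k112 k90 6 (.d k117 k122 k69 2 3))))) (.c
  k128 (.l (.s k191 k63 7 (.s k79 k95 3 (.s k101 k96 2 (.s k112 k90 6 (.d k117 k122 k69 2 3))))))
  (.c k191 (.q k128 [(.s k79 k95 3 (.s k101 k96 2 (.s k117 k69 3 (.d k112 k122 k90 2 6)))), (.s k95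
  k79 3 (.s k15 k175 11 (.s k5 k10 2 (.s k165 k245 11 (.d k90 k80 k240 2 14))))), (.s k101 k96 2 (.s
  k69 k117 3 (.s k207 k138 10 (.s k154 k48 14 (.d k223 k239 k16 3 10)))))] (.c k69 (.l (.s k79 k95 3
  (.s k101 k96 2 (.s k112 k90 6 (.s k117 k122 2 (.s k48 k186 10 (.s k16 k32 3 (.d k154 k223 k207 10
  14)))))))) (.c k80 (.l (.s k79 k95 3 (.s k101 k96 2 (.s k112 k90 6 (.d k117 k122 k69 2 3)))))
  .n))) .n)))))) (.c k191 (.l (.s k64 k127 6 (.s k192 k128 7 (.s k149 k63 14 (.d k213 k234 k21 6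
  7))))) (.c k192 (.q k4 [(.s k12 k8 1 (.s k166 k247 12 (.s k89 k243 14 (.d k93 k81 k174 1 12)))),
  (.s k127 k64 6 (.s k63 k191 7 (.s k21 k42 6 (.s k55 k38 4 (.s k247 k166 12 (.s k119 k183 7 (.d k51
  k187 k59 9 1))))))), (.s k12 k8 1 (.s k127 k64 6 (.s k63 k191 7 (.s k21 k42 6 (.s k29 k46 4 (.s
  k25 k17 1 (.d k38 k55 k51 4 6)))))))] .n) (.c k213 (.q k3 [(.s k1 k2 0 (.s k87 k171 13 (.s k86 k84
  0 (.d k169 k253 k252 13 14)))), (.s k2 k1 0 (.s k64 k127 6 (.s k192 k128 7 (.s k66 k129 8 (.s k65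
  k67 0 (.d k130 k194 k195 7 8)))))), (.s k64 k127 6 (.s k192 k128 7 (.s k66 k129 8 (.s k86 k126 5
  (.d k87 k84 k171 0 13)))))] (.c k87 (.l (.s k1 k2 0 (.s k64 k127 6 (.s k169 k253 13 (.s k86 k252
  14 (.s k66 k126 5 (.d k192 k128 k129 7 8))))))) .n)) (.c k234 (.l (.s k127 k64 6 (.s k63 k191 7
  (.s k21 k42 6 (.d k149 k213 k192 7 14))))) .n))))))))))))

def t43_174 : T TT 256 :=
  (.q k86 [(.s k84 k87 0 (.s k252 k168 13 (.s k169 k3 14 (.s k253 k1 13 (.d k255 k254 k170 0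
  14))))), (.s k84 k87 0 (.s k252 k168 13 (.s k3 k169 14 (.s k2 k1 0 (.d k170 k254 k255 13 14)))))]
  (.c k1 (.q k4 [(.s k84 k87 0 (.s k244 k164 11 (.s k7 k165 12 (.s k166 k247 12 (.d k6 k5 k246 0
  11))))), (.s k12 k8 1 (.s k84 k87 0 (.s k164 k244 11 (.s k88 k240 13 (.s k92 k80 1 (.d k252 k172
  k168 11 13)))))), (.s k12 k8 1 (.s k166 k247 12 (.s k6 k246 11 (.s k3 k9 2 (.s k89 k243 14 (.s k92
  k83 2 (.d k252 k172 k169 11 14)))))))] (.c k244 (.l (.s k12 k8 1 (.s k84 k87 0 (.s k166 k247 12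
  (.s k89 k243 14 (.s k92 k83 2 (.d k252 k172 k168 11 13))))))) .n)) (.c k3 (.q k23 [(.s k87 k84 0
  (.s k212 k149 8 (.s k215 k151 7 (.s k150 k20 8 (.d k214 k213 k22 0 7))))), (.s k149 k212 8 (.s
  k170 k255 14 (.s k128 k191 6 (.s k192 k64 7 (.s k63 k106 14 (.d k21 k42 k213 6 7)))))), (.s k87
  k84 0 (.s k215 k151 7 (.s k255 k170 14 (.s k195 k235 5 (.s k65 k130 8 (.s k105 k125 5 (.d k150 k20
  k60 8 14)))))))] (.c k87 (.l (.s k149 k212 8 (.s k21 k213 7 (.s k22 k20 0 (.s k42 k63 6 (.s k2 k62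
  5 (.d k170 k254 k255 13 14))))))) .n)) (.c k84 (.q k15 [(.s k5 k10 2 (.s k165 k245 11 (.s k90 k240
  14 (.s k95 k80 2 (.d k255 k175 k170 11 14))))), (.s k5 k10 2 (.s k165 k245 11 (.s k7 k244 12 (.s
  k3 k11 1 (.s k1 k2 0 (.d k169 k253 k252 13 14)))))), (.s k170 k255 14 (.s k2 k254 13 (.s k3 k1 0
  (.s k7 k11 1 (.s k165 k244 12 (.s k160 k175 2 (.d k240 k80 k90 11 14)))))))] (.c k165 (.l (.s k10
  k5 2 (.s k170 k255 14 (.s k2 k254 13 (.s k3 k1 0 (.s k11 k7 1 (.s k9 k8 0 (.d k6 k14 k12 1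
  2)))))))) .n)) (.c k87 (.q k15 [(.s k5 k10 2 (.s k165 k245 11 (.s k90 k240 14 (.s k95 k80 2 (.d
  k255 k175 k170 11 14))))), (.s k5 k10 2 (.s k165 k245 11 (.s k7 k244 12 (.s k3 k11 1 (.s k1 k2 0
  (.d k169 k253 k252 13 14)))))), (.s k170 k255 14 (.s k2 k254 13 (.s k3 k1 0 (.s k7 k11 1 (.s k165
  k244 12 (.s k160 k175 2 (.d k240 k80 k90 11 14)))))))] (.c k165 (.l (.s k10 k5 2 (.s k170 k255 14
  (.s k2 k254 13 (.s k3 k1 0 (.s k11 k7 1 (.s k9 k8 0 (.d k6 k14 k12 1 2)))))))) .n)) (.c k168 (.l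
  (.s k87 k84 0 (.s k255 k170 14 (.s k3 k171 13 (.s k169 k252 14 (.d k1 k2 k253 0 13)))))) (.c k169
  (.q k106 [(.s k64 k127 6 (.s k66 k126 5 (.s k67 k65 0 (.s k84 k87 0 (.d k124 k104 k105 5 6))))),
  (.s k66 k126 5 (.s k170 k255 14 (.s k2 k254 13 (.s k42 k234 7 (.s k62 k22 5 (.d k194 k130 k150 7
  13)))))), (.s k64 k127 6 (.s k170 k255 14 (.s k42 k234 7 (.s k63 k21 6 (.d k192 k128 k149 7
  14)))))] .n) (.c k170 (.q k166 [(.s k4 k247 12 (.s k6 k246 11 (.s k7 k5 0 (.s k84 k87 0 (.d k244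
  k164 k165 11 12))))), (.s k84 k87 0 (.s k246 k6 11 (.s k252 k168 13 (.s k243 k249 2 (.s k81 k162
  12 (.d k89 k93 k12 1 14)))))), (.s k4 k247 12 (.s k12 k8 1 (.s k84 k87 0 (.s k89 k243 14 (.s k92
  k83 2 (.d k252 k172 k168 11 13)))))), (.s k4 k247 12 (.s k6 k246 11 (.s k12 k8 1 (.s k3 k9 2 (.s
  k1 k2 0 (.d k169 k253 k252 13 14))))))] .n) (.c k171 (.l (.s k84 k87 0 (.s k252 k168 13 (.s k3
  k169 14 (.s k170 k255 14 (.d k2 k1 k254 0 13)))))) (.c k252 (.q k5 [(.s k15 k10 2 (.s k165 k245 11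
  (.s k90 k240 14 (.s k95 k80 2 (.d k255 k175 k170 11 14))))), (.s k87 k84 0 (.s k165 k245 11 (.s k7
  k244 12 (.s k4 k6 0 (.d k247 k167 k166 11 12))))), (.s k15 k10 2 (.s k87 k84 0 (.s k255 k170 14
  (.s k3 k171 13 (.s k7 k11 1 (.s k4 k6 0 (.d k247 k166 k167 12 11)))))))] .n) (.c k254 (.l (.s k87
  k84 0 (.s k255 k170 14 (.s k3 k171 13 (.s k1 k2 0 (.d k169 k253 k252 13 14)))))) (.c k255 (.q k12
  [(.s k4 k8 1 (.s k87 k84 0 (.s k247 k166 12 (.s k7 k167 11 (.s k5 k6 0 (.d k165 k245 k244 11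
  12)))))), (.s k84 k87 0 (.s k252 k168 13 (.s k92 k172 11 (.s k89 k83 2 (.s k81 k93 1 (.d k243 k162
  k166 12 14)))))), (.s k4 k8 1 (.s k166 k247 12 (.s k6 k246 11 (.s k3 k9 2 (.s k1 k2 0 (.d k169
  k253 k252 13 14))))))] (.c k166 (.l (.s k4 k8 1 (.s k84 k87 0 (.s k164 k244 11 (.s k88 k240 13 (.s
  k92 k80 1 (.d k252 k172 k168 11 13))))))) .n)) .n))))))))))))

def t43_175 : T TT 256 :=
  (.q k86 [(.s k84 k87 0 (.s k252 k168 13 (.s k169 k3 14 (.s k253 k1 13 (.d k255 k254 k170 0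
  14))))), (.s k84 k87 0 (.s k252 k168 13 (.s k3 k169 14 (.s k2 k1 0 (.d k170 k254 k255 13 14)))))]
  (.c k1 (.q k4 [(.s k12 k8 1 (.s k166 k247 12 (.s k89 k243 14 (.s k93 k81 1 (.d k255 k174 k170 12
  14))))), (.s k84 k87 0 (.s k166 k247 12 (.s k6 k246 11 (.s k7 k5 0 (.d k244 k164 k165 11 12))))),
  (.s k12 k8 1 (.s k84 k87 0 (.s k164 k244 11 (.s k88 k240 13 (.s k92 k80 1 (.d k252 k172 k168 11
  13))))))] .n) (.c k3 (.q k23 [(.s k87 k84 0 (.s k212 k149 8 (.s k215 k151 7 (.s k150 k20 8 (.d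
  k214 k213 k22 0 7))))), (.s k149 k212 8 (.s k170 k255 14 (.s k128 k191 6 (.s k192 k64 7 (.s k63
  k106 14 (.d k21 k42 k213 6 7)))))), (.s k87 k84 0 (.s k215 k151 7 (.s k255 k170 14 (.s k195 k235 5
  (.s k65 k130 8 (.s k105 k125 5 (.d k150 k20 k60 8 14)))))))] (.c k87 (.l (.s k149 k212 8 (.s k21
  k213 7 (.s k22 k20 0 (.s k42 k63 6 (.s k2 k62 5 (.d k170 k254 k255 13 14))))))) .n)) (.c k84 (.q
  k4 [(.s k12 k8 1 (.s k166 k247 12 (.s k89 k243 14 (.s k93 k81 1 (.d k255 k174 k170 12 14))))), (.s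
  k12 k8 1 (.s k166 k247 12 (.s k6 k246 11 (.s k3 k9 2 (.s k1 k2 0 (.d k169 k253 k252 13 14)))))),
  (.s k166 k247 12 (.s k6 k246 11 (.s k5 k7 0 (.s k170 k255 14 (.s k2 k254 13 (.d k10 k15 k14 2
  1)))))), (.s k12 k8 1 (.s k170 k255 14 (.s k2 k254 13 (.s k3 k1 0 (.s k6 k9 2 (.s k5 k7 0 (.d k10
  k15 k14 2 1)))))))] .n) (.c k87 (.q k4 [(.s k12 k8 1 (.s k166 k247 12 (.s k89 k243 14 (.s k93 k81
  1 (.d k255 k174 k170 12 14))))), (.s k12 k8 1 (.s k166 k247 12 (.s k6 k246 11 (.s k3 k9 2 (.s k1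
  k2 0 (.d k169 k253 k252 13 14)))))), (.s k12 k8 1 (.s k170 k255 14 (.s k2 k254 13 (.s k3 k1 0 (.s
  k6 k9 2 (.s k10 k14 1 (.d k5 k15 k7 2 0))))))), (.s k166 k247 12 (.s k6 k246 11 (.s k170 k255 14
  (.s k2 k254 13 (.s k10 k14 1 (.d k5 k7 k15 0 2))))))] (.c k7 (.l (.s k12 k8 1 (.s k255 k170 14 (.s
  k93 k174 12 (.s k89 k81 1 (.d k166 k247 k243 12 14)))))) .n)) (.c k168 (.l (.s k87 k84 0 (.s k255
  k170 14 (.s k3 k171 13 (.s k169 k252 14 (.d k1 k2 k253 0 13)))))) (.c k169 (.q k106 [(.s k64 k127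
  6 (.s k66 k126 5 (.s k67 k65 0 (.s k84 k87 0 (.d k124 k104 k105 5 6))))), (.s k66 k126 5 (.s k170
  k255 14 (.s k2 k254 13 (.s k42 k234 7 (.s k62 k22 5 (.d k194 k130 k150 7 13)))))), (.s k64 k127 6
  (.s k170 k255 14 (.s k42 k234 7 (.s k63 k21 6 (.d k192 k128 k149 7 14)))))] .n) (.c k170 (.q k165
  [(.s k5 k245 11 (.s k7 k244 12 (.s k4 k6 0 (.s k87 k84 0 (.d k247 k167 k166 11 12))))), (.s k5
  k245 11 (.s k15 k10 2 (.s k84 k87 0 (.s k90 k240 14 (.s k94 k82 1 (.d k252 k173 k168 12 13)))))),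
  (.s k5 k245 11 (.s k7 k244 12 (.s k15 k10 2 (.s k3 k11 1 (.s k1 k2 0 (.d k169 k253 k252 13
  14)))))), (.s k84 k87 0 (.s k244 k7 12 (.s k252 k168 13 (.s k240 k248 1 (.s k80 k160 11 (.d k90
  k95 k15 2 14))))))] .n) (.c k171 (.l (.s k84 k87 0 (.s k252 k168 13 (.s k3 k169 14 (.s k170 k255
  14 (.d k2 k1 k254 0 13)))))) (.c k252 (.q k8 [(.s k12 k4 1 (.s k170 k255 14 (.s k89 k251 12 (.s
  k81 k93 1 (.d k243 k162 k166 12 14))))), (.s k4 k12 1 (.s k84 k87 0 (.s k166 k247 12 (.s k6 k246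
  11 (.s k7 k5 0 (.d k244 k164 k165 11 12)))))), (.s k84 k87 0 (.s k170 k255 14 (.s k89 k251 12 (.s
  k92 k83 2 (.s k80 k88 1 (.s k93 k81 1 (.d k95 k94 k90 0 2)))))))] (.c k243 (.l (.s k4 k12 1 (.s
  k84 k87 0 (.s k166 k247 12 (.s k244 k164 11 (.s k7 k165 12 (.d k6 k5 k246 0 11))))))) (.c k247 (.l
  (.s k12 k4 1 (.s k170 k255 14 (.s k89 k251 12 (.s k243 k166 14 (.d k81 k93 k162 1 12)))))) .n)))
  (.c k254 (.l (.s k87 k84 0 (.s k255 k170 14 (.s k3 k171 13 (.s k1 k2 0 (.d k169 k253 k252 13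
  14)))))) (.c k255 (.q k15 [(.s k5 k10 2 (.s k84 k87 0 (.s k165 k245 11 (.s k240 k90 14 (.s k252
  k168 13 (.d k244 k248 k7 1 12)))))), (.s k84 k87 0 (.s k252 k168 13 (.s k94 k173 12 (.s k90 k82 1
  (.s k80 k95 2 (.d k240 k160 k165 11 14)))))), (.s k5 k10 2 (.s k87 k84 0 (.s k165 k245 11 (.s k7
  k244 12 (.s k4 k6 0 (.d k247 k167 k166 11 12)))))), (.s k5 k10 2 (.s k165 k245 11 (.s k7 k244 12
  (.s k3 k11 1 (.s k1 k2 0 (.d k169 k253 k252 13 14))))))] (.c k165 (.f k5 k10 2 (.l (.s k84 k87 0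
  (.s k252 k168 13 (.s k3 k169 14 (.s k1 k2 0 (.s k7 k11 1 (.s k6 k4 0 (.d k9 k13 k12 1 2)))))))))
  (.c k240 (.l (.s k5 k10 2 (.s k84 k87 0 (.s k252 k168 13 (.s k3 k169 14 (.s k7 k11 1 (.d k165 k245
  k244 11 12))))))) .n))) .n))))))))))))

def t43_188 : T TT 256 :=
  (.f k255 k170 14 (.q k102 [(.s k68 k119 4 (.s k204 k136 9 (.s k153 k51 14 (.d k221 k238 k17 4
  9))))] (.c k17 (.q k1 [(.s k3 k2 0 (.s k169 k253 13 (.s k86 k252 14 (.d k87 k84 k171 0 13)))), (.s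
  k68 k119 4 (.s k204 k136 9 (.s k221 k238 4 (.s k253 k169 13 (.s k205 k237 3 (.s k69 k137 9 (.d
  k207 k138 k206 10 0))))))), (.s k3 k2 0 (.s k68 k119 4 (.s k204 k136 9 (.s k70 k137 10 (.s k86
  k118 3 (.d k87 k84 k171 0 13))))))] (.c k171 (.l (.s k3 k2 0 (.s k119 k68 4 (.s k51 k187 9 (.s k35
  k19 3 (.d k169 k236 k253 10 13)))))) .n)) (.c k51 (.q k1 [(.s k3 k2 0 (.s k87 k171 13 (.s k86 k84
  0 (.d k169 k253 k252 13 14)))), (.s k68 k119 4 (.s k204 k136 9 (.s k221 k238 4 (.s k253 k169 13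
  (.s k205 k237 3 (.s k69 k137 9 (.d k207 k138 k206 10 0))))))), (.s k3 k2 0 (.s k68 k119 4 (.s k204
  k136 9 (.s k70 k137 10 (.s k86 k118 3 (.d k87 k84 k171 0 13))))))] (.c k171 (.l (.s k3 k2 0 (.s
  k68 k119 4 (.s k169 k253 13 (.s k86 k252 14 (.s k204 k136 9 (.d k70 k118 k137 3 10))))))) .n)) (.c
  k68 (.q k4 [(.s k166 k247 12 (.s k12 k8 1 (.s k89 k243 14 (.d k93 k81 k174 1 12)))), (.s k166 k247
  12 (.s k38 k230 7 (.s k21 k55 4 (.s k63 k42 6 (.s k127 k191 7 (.s k106 k64 6 (.d k149 k213 k192 7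
  14)))))))] (.c k166 (.f k12 k8 1 (.q k89 [(.d k93 k174 k81 12 1), (.s k76 k115 6 (.s k204 k140 7
  (.s k153 k51 14 (.d k221 k238 k17 4 9))))] (.c k162 (.l (.s k174 k93 12 (.s k76 k115 6 (.s k204
  k140 7 (.s k153 k51 14 (.d k221 k238 k17 4 9)))))) (.c k174 (.q k162 [(.d k81 k93 k243 1 12), (.s
  k76 k115 6 (.s k204 k140 7 (.s k221 k238 4 (.d k153 k17 k51 9 14))))] .n) .n)))) (.c k247 (.l (.s
  k12 k8 1 (.s k93 k174 12 (.s k89 k81 1 (.s k76 k115 6 (.s k204 k140 7 (.s k153 k51 14 (.d k221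
  k238 k17 4 9)))))))) .n))) (.c k119 (.q k81 [(.s k89 k93 1 (.s k243 k162 12 (.s k166 k12 14 (.d
  k247 k251 k4 1 12)))), (.s k89 k93 1 (.s k115 k76 6 (.s k64 k98 4 (.s k192 k128 7 (.s k213 k234 6
  (.s k149 k21 7 (.d k106 k127 k63 6 14)))))))] (.c k89 (.f k243 k162 12 (.q k166 [(.d k247 k251 k4
  1 12), (.s k230 k38 7 (.s k204 k217 6 (.s k153 k51 14 (.d k221 k238 k17 4 9))))] (.c k8 (.l (.s
  k251 k247 1 (.s k230 k38 7 (.s k204 k217 6 (.s k153 k51 14 (.d k221 k238 k17 4 9)))))) (.c k251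
  (.q k8 [(.d k4 k12 k247 1 12), (.s k230 k38 7 (.s k204 k217 6 (.s k221 k238 4 (.d k153 k17 k51 9
  14))))] .n) .n)))) (.c k93 (.l (.s k243 k162 12 (.s k247 k251 1 (.s k166 k4 12 (.s k230 k38 7 (.s
  k204 k217 6 (.s k153 k51 14 (.d k221 k238 k17 4 9)))))))) .n))) (.c k136 (.l (.s k119 k68 4 (.s
  k51 k187 9 (.s k153 k204 14 (.d k17 k34 k221 4 9))))) (.c k153 (.f k119 k68 4 (.q k149 [(.s k21
  k213 7 (.s k55 k196 12 (.s k4 k38 4 (.d k247 k183 k166 7 12)))), (.s k21 k213 7 (.s k63 k42 6 (.s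
  k106 k192 14 (.d k127 k64 k191 6 7)))), (.s k55 k196 12 (.s k247 k183 7 (.s k243 k251 1 (.s k81
  k162 12 (.s k89 k93 1 (.d k166 k4 k12 12 14))))))] (.c k136 (.l (.s k187 k51 9 (.s k21 k213 7 (.s
  k55 k196 12 (.s k4 k38 4 (.d k247 k183 k166 7 12)))))) (.c k187 (.q k136 [(.s k21 k213 7 (.s k55
  k196 12 (.s k4 k38 4 (.d k247 k183 k166 7 12)))), (.s k21 k213 7 (.s k63 k42 6 (.s k106 k192 14
  (.d k127 k64 k191 6 7)))), (.s k55 k196 12 (.s k247 k183 7 (.s k243 k251 1 (.s k81 k162 12 (.s k89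
  k93 1 (.d k166 k4 k12 12 14))))))] .n) .n)))) (.c k187 (.l (.s k68 k119 4 (.s k204 k136 9 (.s k153
  k51 14 (.d k221 k238 k17 4 9))))) (.c k204 (.q k1 [(.s k3 k2 0 (.s k87 k171 13 (.s k86 k84 0 (.d
  k169 k253 k252 13 14)))), (.s k119 k68 4 (.s k51 k187 9 (.s k17 k34 4 (.s k49 k33 3 (.s k253 k169
  13 (.s k117 k185 9 (.d k48 k186 k50 10 0))))))), (.s k3 k2 0 (.s k119 k68 4 (.s k51 k187 9 (.s k17
  k34 4 (.s k19 k35 3 (.s k18 k16 0 (.d k33 k49 k48 3 4)))))))] .n) (.c k221 (.q k1 [(.s k3 k2 0 (.s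
  k87 k171 13 (.s k86 k84 0 (.d k169 k253 k252 13 14)))), (.s k68 k119 4 (.s k169 k253 13 (.s k204
  k136 9 (.s k153 k51 14 (.s k137 k185 3 (.s k70 k3 10 (.d k69 k205 k71 9 0))))))), (.s k3 k2 0 (.s
  k68 k119 4 (.s k204 k136 9 (.s k70 k137 10 (.s k86 k118 3 (.d k87 k84 k171 0 13))))))] (.c k3 (.l
  (.s k119 k68 4 (.s k51 k187 9 (.s k17 k34 4 (.s k49 k33 3 (.s k48 k50 0 (.s k117 k186 10 (.d k253
  k185 k169 9 13)))))))) .n)) (.c k238 (.l (.s k119 k68 4 (.s k51 k187 9 (.s k17 k34 4 (.d k153 k221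
  k204 9 14))))) .n))))))))))))

def t43_189 : T TT 256 :=
  (.f k255 k170 14 (.q k105 [(.s k65 k125 5 (.s k195 k130 8 (.s k150 k60 14 (.d k215 k235 k20 5
  8)))), (.s k125 k65 5 (.s k60 k190 8 (.s k20 k40 5 (.d k150 k215 k195 8 14))))] (.c k20 (.q k1
  [(.s k65 k125 5 (.s k193 k129 7 (.s k61 k149 13 (.s k169 k253 13 (.d k41 k21 k233 5 7))))), (.s k3
  k2 0 (.s k87 k171 13 (.s k86 k84 0 (.d k169 k253 k252 13 14))))] (.c k169 (.l (.s k3 k2 0 (.s k65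
  k125 5 (.s k129 k193 7 (.s k66 k192 8 (.s k67 k64 0 (.d k195 k131 k130 7 8))))))) (.c k253 (.l (.s
  k3 k2 0 (.s k87 k171 13 (.s k86 k84 0 (.s k67 k124 6 (.s k195 k131 7 (.d k65 k125 k130 5 8)))))))
  .n))) (.c k60 (.q k1 [(.s k3 k2 0 (.s k87 k171 13 (.s k86 k84 0 (.d k169 k253 k252 13 14)))), (.s
  k65 k125 5 (.s k193 k129 7 (.s k61 k149 13 (.s k169 k253 13 (.d k41 k21 k233 5 7)))))] (.c k169
  (.l (.s k3 k2 0 (.s k65 k125 5 (.s k129 k193 7 (.s k66 k192 8 (.s k67 k64 0 (.d k195 k131 k130 7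
  8))))))) (.c k253 (.l (.s k3 k2 0 (.s k87 k171 13 (.s k86 k84 0 (.s k67 k124 6 (.s k195 k131 7 (.d
  k65 k125 k130 5 8))))))) .n))) (.c k65 (.q k84 [(.s k86 k87 0 (.s k252 k168 13 (.s k253 k254 0 (.d
  k169 k1 k3 13 14)))), (.s k86 k87 0 (.s k124 k67 6 (.s k64 k104 5 (.s k192 k128 7 (.s k213 k234 6
  (.s k149 k21 7 (.d k106 k127 k63 6 14)))))))] (.c k86 (.f k252 k168 13 (.q k169 [(.d k253 k254 k1
  0 13), (.s k233 k41 7 (.s k195 k214 6 (.s k150 k60 14 (.d k215 k235 k20 5 8))))] (.c k2 (.l (.s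
  k254 k253 0 (.s k233 k41 7 (.s k195 k214 6 (.s k150 k60 14 (.d k215 k235 k20 5 8)))))) (.c k254
  (.q k2 [(.d k1 k3 k253 0 13), (.s k233 k41 7 (.s k195 k214 6 (.s k215 k235 5 (.d k150 k20 k60 8
  14))))] .n) .n)))) (.c k87 (.l (.s k252 k168 13 (.s k253 k254 0 (.s k169 k1 13 (.s k233 k41 7 (.s
  k195 k214 6 (.s k150 k60 14 (.d k215 k235 k20 5 8)))))))) .n))) (.c k125 (.q k169 [(.s k253 k1 13
  (.s k252 k254 0 (.s k84 k168 13 (.d k86 k87 k3 0 14)))), (.s k233 k41 7 (.s k253 k1 13 (.s k213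
  k193 5 (.s k192 k234 6 (.s k64 k128 7 (.s k106 k127 6 (.d k149 k21 k63 7 14)))))))] (.c k1 (.q
  k253 [(.s k252 k254 0 (.s k84 k168 13 (.d k86 k87 k3 0 14))), (.s k233 k41 7 (.s k213 k193 5 (.s
  k192 k234 6 (.s k64 k128 7 (.s k106 k127 6 (.d k149 k21 k63 7 14))))))] .n) (.c k61 (.l (.s k253
  k1 13 (.s k252 k254 0 (.s k84 k168 13 (.d k86 k87 k3 0 14))))) (.c k253 (.q k61 [(.s k41 k233 7
  (.s k21 k1 5 (.d k149 k213 k193 7 13))), (.s k149 k193 13 (.s k213 k21 7 (.s k192 k234 6 (.s k64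
  k128 7 (.d k106 k127 k63 6 14)))))] (.c k21 (.q k1 [(.s k3 k2 0 (.s k86 k252 14 (.d k87 k84 k171 0
  13))), (.s k193 k149 13 (.s k65 k129 7 (.s k195 k130 8 (.s k150 k60 14 (.d k215 k235 k20 5 8)))))]
  .n) (.c k149 (.l (.s k41 k233 7 (.s k1 k21 5 (.s k3 k2 0 (.s k86 k252 14 (.d k87 k84 k171 0
  13)))))) (.c k193 (.q k192 [(.s k41 k233 7 (.s k213 k234 6 (.d k21 k1 k149 5 7))), (.s k64 k128 7
  (.s k106 k127 6 (.s k104 k107 0 (.s k60 k148 13 (.d k63 k149 k62 14 0))))), (.s k233 k41 7 (.s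
  k234 k213 6 (.s k232 k235 0 (.s k252 k212 5 (.s k84 k168 13 (.d k86 k87 k3 0 14))))))] (.c k213
  (.l (.s k233 k41 7 (.s k64 k128 7 (.s k106 k127 6 (.s k104 k107 0 (.s k60 k148 13 (.d k63 k149 k62
  14 0))))))) (.c k233 (.l (.s k213 k234 6 (.s k64 k128 7 (.s k106 k127 6 (.d k149 k21 k63 7 14)))))
  (.c k235 (.l (.s k213 k234 6 (.s k21 k149 7 (.d k41 k233 k1 7 5)))) .n)))) (.c k213 (.l (.s k41
  k233 7 (.s k193 k149 13 (.s k1 k21 5 (.s k3 k2 0 (.s k86 k252 14 (.d k87 k84 k171 0 13))))))) (.c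
  k233 (.l (.s k149 k193 13 (.s k213 k21 7 (.s k192 k234 6 (.s k64 k128 7 (.d k106 k127 k63 6
  14)))))) .n)))))) .n)))) (.c k130 (.l (.s k125 k65 5 (.s k60 k190 8 (.s k150 k195 14 (.d k20 k40
  k215 5 8))))) (.c k150 (.f k125 k65 5 (.f k190 k60 8 (.q k86 [(.s k84 k87 0 (.s k124 k67 6 (.s k64
  k104 5 (.d k127 k126 k106 0 6)))), (.s k84 k87 0 (.s k252 k168 13 (.s k169 k3 14 (.d k253 k254 k1
  0 13)))), (.s k124 k67 6 (.s k127 k126 0 (.s k63 k191 7 (.s k21 k42 6 (.s k149 k213 7 (.d k106 k64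
  k192 6 14))))))] .n))) (.c k190 (.l (.s k65 k125 5 (.s k195 k130 8 (.s k150 k60 14 (.d k215 k235
  k20 5 8))))) (.c k195 (.q k3 [(.s k1 k2 0 (.s k87 k171 13 (.s k86 k84 0 (.d k169 k253 k252 13
  14)))), (.s k2 k1 0 (.s k125 k65 5 (.s k60 k190 8 (.s k20 k40 5 (.s k22 k41 6 (.s k42 k62 5 (.d
  k21 k23 k63 0 6))))))), (.s k65 k125 5 (.s k87 k171 13 (.s k86 k84 0 (.s k67 k124 6 (.s k64 k66 0
  (.d k127 k107 k106 5 6))))))] .n) (.c k215 (.q k1 [(.s k3 k2 0 (.s k87 k171 13 (.s k86 k84 0 (.d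
  k169 k253 k252 13 14)))), (.s k65 k125 5 (.s k193 k129 7 (.s k61 k149 13 (.s k169 k253 13 (.d k41
  k21 k233 5 7)))))] (.c k169 (.l (.s k3 k2 0 (.s k65 k125 5 (.s k129 k193 7 (.s k66 k192 8 (.s k67
  k64 0 (.d k195 k131 k130 7 8))))))) (.c k253 (.l (.s k3 k2 0 (.s k87 k171 13 (.s k86 k84 0 (.s k67
  k124 6 (.s k195 k131 7 (.d k65 k125 k130 5 8))))))) .n))) .n)))))))))))

def t43_190 : T TT 256 :=
  (.q k86 [(.s k84 k87 0 (.s k252 k168 13 (.s k169 k3 14 (.s k253 k1 13 (.d k255 k254 k170 0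
  14))))), (.s k84 k87 0 (.s k252 k168 13 (.s k3 k169 14 (.s k2 k1 0 (.d k170 k254 k255 13 14)))))]
  (.c k1 (.q k4 [(.s k12 k8 1 (.s k166 k247 12 (.s k89 k243 14 (.s k93 k81 1 (.d k255 k174 k170 12
  14))))), (.s k84 k87 0 (.s k166 k247 12 (.s k6 k246 11 (.s k7 k5 0 (.d k244 k164 k165 11 12))))),
  (.s k12 k8 1 (.s k84 k87 0 (.s k164 k244 11 (.s k88 k240 13 (.s k92 k80 1 (.d k252 k172 k168 11
  13))))))] .n) (.c k3 (.q k63 [(.s k21 k42 6 (.s k149 k213 7 (.s k106 k192 14 (.s k127 k64 6 (.d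
  k255 k191 k170 7 14))))), (.s k21 k42 6 (.s k87 k84 0 (.s k149 k213 7 (.s k23 k212 8 (.s k20 k22 0
  (.d k215 k151 k150 7 8)))))), (.s k84 k87 0 (.s k252 k168 13 (.s k126 k189 8 (.s k106 k66 5 (.s
  k64 k127 6 (.d k192 k128 k149 7 14))))))] (.c k149 (.l (.s k42 k21 6 (.s k84 k87 0 (.s k252 k168
  13 (.s k126 k189 8 (.s k106 k66 5 (.d k170 k255 k234 14 7))))))) .n)) (.c k84 (.q k4 [(.s k12 k8 1
  (.s k166 k247 12 (.s k89 k243 14 (.s k93 k81 1 (.d k255 k174 k170 12 14))))), (.s k12 k8 1 (.s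
  k166 k247 12 (.s k6 k246 11 (.s k3 k9 2 (.s k1 k2 0 (.d k169 k253 k252 13 14)))))), (.s k166 k247
  12 (.s k6 k246 11 (.s k5 k7 0 (.s k10 k15 2 (.s k170 k255 14 (.d k2 k14 k254 1 13)))))), (.s k12
  k8 1 (.s k170 k255 14 (.s k2 k254 13 (.s k3 k1 0 (.s k6 k9 2 (.s k5 k7 0 (.d k10 k14 k15 1
  2)))))))] .n) (.c k87 (.q k4 [(.s k12 k8 1 (.s k166 k247 12 (.s k89 k243 14 (.s k93 k81 1 (.d k255
  k174 k170 12 14))))), (.s k12 k8 1 (.s k166 k247 12 (.s k6 k246 11 (.s k3 k9 2 (.s k1 k2 0 (.d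
  k169 k253 k252 13 14)))))), (.s k12 k8 1 (.s k170 k255 14 (.s k2 k254 13 (.s k3 k1 0 (.s k6 k9 2
  (.s k10 k14 1 (.d k5 k7 k15 0 2))))))), (.s k166 k247 12 (.s k6 k246 11 (.s k170 k255 14 (.s k2
  k254 13 (.s k10 k14 1 (.d k5 k7 k15 0 2))))))] (.c k7 (.l (.s k12 k8 1 (.s k255 k170 14 (.s k93
  k174 12 (.s k89 k81 1 (.d k166 k247 k243 12 14)))))) .n)) (.c k168 (.l (.s k87 k84 0 (.s k255 k170
  14 (.s k3 k171 13 (.s k169 k252 14 (.d k1 k2 k253 0 13)))))) (.c k169 (.q k106 [(.s k64 k127 6 (.s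
  k66 k126 5 (.s k67 k65 0 (.s k84 k87 0 (.d k124 k104 k105 5 6))))), (.s k64 k127 6 (.s k170 k255
  14 (.s k42 k234 7 (.s k63 k21 6 (.d k192 k128 k149 7 14))))), (.s k66 k126 5 (.s k170 k255 14 (.s
  k42 k234 7 (.s k2 k254 13 (.s k62 k22 5 (.d k194 k130 k150 7 13))))))] (.c k125 (.l (.s k64 k127 6
  (.s k84 k87 0 (.s k66 k126 5 (.s k124 k104 5 (.d k67 k65 k105 0 6)))))) .n)) (.c k170 (.q k150
  [(.s k20 k215 8 (.s k22 k214 7 (.s k23 k21 0 (.s k84 k87 0 (.d k212 k148 k149 7 8))))), (.s k84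
  k87 0 (.s k214 k22 7 (.s k252 k168 13 (.s k195 k233 6 (.s k65 k130 8 (.d k105 k125 k60 5 14)))))),
  (.s k20 k215 8 (.s k60 k40 5 (.s k84 k87 0 (.s k105 k195 14 (.s k124 k67 6 (.d k252 k188 k168 7
  13)))))), (.s k20 k215 8 (.s k22 k214 7 (.s k60 k40 5 (.s k105 k195 14 (.s k124 k67 6 (.s k252
  k188 7 (.d k3 k41 k169 6 14)))))))] .n) (.c k171 (.l (.s k84 k87 0 (.s k252 k168 13 (.s k3 k169 14
  (.s k170 k255 14 (.d k2 k1 k254 0 13)))))) (.c k252 (.q k5 [(.s k15 k10 2 (.s k165 k245 11 (.s k90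
  k240 14 (.s k95 k80 2 (.d k255 k175 k170 11 14))))), (.s k87 k84 0 (.s k165 k245 11 (.s k7 k244 12
  (.s k4 k6 0 (.d k247 k167 k166 11 12))))), (.s k15 k10 2 (.s k87 k84 0 (.s k255 k170 14 (.s k3
  k171 13 (.s k7 k11 1 (.s k4 k6 0 (.d k247 k167 k166 11 12)))))))] .n) (.c k254 (.l (.s k87 k84 0
  (.s k255 k170 14 (.s k3 k171 13 (.s k1 k2 0 (.d k169 k253 k252 13 14)))))) (.c k255 (.q k60 [(.s
  k20 k40 5 (.s k87 k84 0 (.s k215 k150 8 (.s k23 k151 7 (.s k21 k22 0 (.d k149 k213 k212 7 8)))))),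
  (.s k84 k87 0 (.s k252 k168 13 (.s k124 k188 7 (.s k105 k67 6 (.s k65 k125 5 (.d k195 k130 k150 8
  14)))))), (.s k20 k40 5 (.s k150 k215 8 (.s k195 k105 14 (.s k214 k22 7 (.s k252 k233 6 (.s k188
  k124 7 (.d k169 k131 k3 6 14)))))))] (.c k150 (.l (.s k20 k40 5 (.s k84 k87 0 (.s k148 k212 7 (.s
  k104 k192 13 (.s k124 k64 5 (.d k252 k188 k168 7 13))))))) .n)) .n))))))))))))

def t43_191 : T TT 256 :=
  (.q k86 [(.s k84 k87 0 (.s k252 k168 13 (.s k169 k3 14 (.s k253 k1 13 (.d k255 k254 k170 0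
  14))))), (.s k84 k87 0 (.s k252 k168 13 (.s k3 k169 14 (.s k2 k1 0 (.d k170 k254 k255 13 14)))))]
  (.c k1 (.q k4 [(.s k12 k8 1 (.s k166 k247 12 (.s k89 k243 14 (.s k93 k81 1 (.d k255 k174 k170 12
  14))))), (.s k84 k87 0 (.s k166 k247 12 (.s k6 k246 11 (.s k7 k5 0 (.d k244 k164 k165 11 12))))),
  (.s k12 k8 1 (.s k84 k87 0 (.s k164 k244 11 (.s k88 k240 13 (.s k92 k80 1 (.d k252 k172 k168 11
  13))))))] .n) (.c k3 (.f k255 k170 14 (.q k149 [(.s k213 k21 7 (.s k192 k234 6 (.s k64 k128 7 (.d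
  k106 k63 k127 14 6)))), (.s k23 k212 8 (.s k87 k84 0 (.s k215 k151 7 (.s k195 k235 5 (.s k65 k130
  8 (.s k105 k125 5 (.d k150 k20 k60 8 14)))))))] (.c k23 (.q k63 [(.d k21 k42 k213 6 7), (.s k84
  k87 0 (.s k106 k192 14 (.s k252 k168 13 (.d k126 k66 k189 5 8))))] .n) (.c k63 (.l (.s k23 k212 8
  (.s k21 k213 7 (.s k20 k22 0 (.s k87 k84 0 (.d k215 k151 k150 7 8)))))) .n)))) (.c k84 (.q k4 [(.s
  k12 k8 1 (.s k166 k247 12 (.s k89 k243 14 (.s k93 k81 1 (.d k255 k174 k170 12 14))))), (.s k12 k8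
  1 (.s k166 k247 12 (.s k6 k246 11 (.s k3 k9 2 (.s k1 k2 0 (.d k169 k253 k252 13 14)))))), (.s k166
  k247 12 (.s k6 k246 11 (.s k5 k7 0 (.s k10 k15 2 (.s k170 k255 14 (.d k2 k14 k254 1 13)))))), (.s
  k12 k8 1 (.s k170 k255 14 (.s k2 k254 13 (.s k3 k1 0 (.s k6 k9 2 (.s k5 k7 0 (.d k10 k14 k15 1
  2)))))))] .n) (.c k87 (.q k4 [(.s k12 k8 1 (.s k166 k247 12 (.s k89 k243 14 (.s k93 k81 1 (.d k255
  k174 k170 12 14))))), (.s k12 k8 1 (.s k166 k247 12 (.s k6 k246 11 (.s k3 k9 2 (.s k1 k2 0 (.d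
  k169 k253 k252 13 14)))))), (.s k12 k8 1 (.s k170 k255 14 (.s k2 k254 13 (.s k3 k1 0 (.s k6 k9 2
  (.s k10 k14 1 (.d k5 k7 k15 0 2))))))), (.s k166 k247 12 (.s k6 k246 11 (.s k170 k255 14 (.s k2
  k254 13 (.s k10 k14 1 (.d k5 k7 k15 0 2))))))] (.c k7 (.l (.s k12 k8 1 (.s k255 k170 14 (.s k93
  k174 12 (.s k89 k81 1 (.d k166 k247 k243 12 14)))))) .n)) (.c k168 (.l (.s k87 k84 0 (.s k255 k170
  14 (.s k3 k171 13 (.s k169 k252 14 (.d k1 k2 k253 0 13)))))) (.c k169 (.q k106 [(.s k64 k127 6 (.s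
  k192 k128 7 (.s k63 k149 14 (.s k170 k255 14 (.d k42 k21 k234 6 7))))), (.s k87 k84 0 (.s k126 k66
  5 (.s k127 k64 6 (.s k67 k107 5 (.d k124 k125 k105 0 6))))), (.s k84 k87 0 (.s k126 k66 5 (.s k252
  k168 13 (.s k63 k189 8 (.s k21 k42 6 (.d k149 k213 k192 7 14))))))] .n) (.c k170 (.f k84 k87 0 (.q
  k64 [(.s k124 k104 5 (.s k105 k67 6 (.s k125 k65 5 (.d k127 k126 k106 0 6)))), (.s k104 k124 5 (.s
  k168 k252 13 (.s k40 k232 7 (.s k60 k20 5 (.d k192 k128 k148 7 13))))), (.s k106 k127 6 (.s k126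
  k66 5 (.s k252 k168 13 (.s k63 k189 8 (.d k192 k128 k149 7 14)))))] (.c k106 (.l (.s k124 k104 5
  (.s k105 k67 6 (.s k65 k125 5 (.s k195 k130 8 (.s k252 k168 13 (.d k60 k150 k188 14 7))))))) (.c
  k128 (.q k149 [(.s k21 k213 7 (.s k63 k42 6 (.d k106 k127 k192 6 14))), (.s k124 k104 5 (.s k67
  k105 6 (.s k66 k65 0 (.d k106 k126 k127 5 6)))), (.s k212 k23 8 (.s k20 k148 7 (.s k213 k21 7 (.d
  k215 k214 k150 0 8))))] .n) (.c k149 (.l (.s k128 k192 7 (.s k106 k127 6 (.s k66 k126 5 (.s k67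
  k65 0 (.d k124 k104 k105 5 6)))))) .n))))) (.c k171 (.l (.s k84 k87 0 (.s k252 k168 13 (.s k3 k169
  14 (.s k170 k255 14 (.d k2 k1 k254 0 13)))))) (.c k252 (.q k5 [(.s k15 k10 2 (.s k165 k245 11 (.s
  k90 k240 14 (.s k95 k80 2 (.d k255 k175 k170 11 14))))), (.s k87 k84 0 (.s k165 k245 11 (.s k7
  k244 12 (.s k4 k6 0 (.d k247 k167 k166 11 12))))), (.s k15 k10 2 (.s k87 k84 0 (.s k255 k170 14
  (.s k3 k171 13 (.s k7 k11 1 (.s k4 k6 0 (.d k247 k167 k166 11 12)))))))] .n) (.c k254 (.l (.s k87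
  k84 0 (.s k255 k170 14 (.s k3 k171 13 (.s k1 k2 0 (.d k169 k253 k252 13 14)))))) (.c k255 (.q k102
  [(.s k87 k84 0 (.s k118 k70 3 (.s k119 k68 4 (.s k71 k103 3 (.d k116 k117 k101 0 4))))), (.s k84
  k87 0 (.s k118 k70 3 (.s k252 k168 13 (.s k51 k185 10 (.s k17 k34 4 (.d k153 k221 k204 9 14)))))),
  (.s k68 k119 4 (.s k84 k87 0 (.s k204 k136 9 (.s k252 k168 13 (.s k220 k236 3 (.d k153 k51 k19 14
  10)))))), (.s k68 k119 4 (.s k70 k118 3 (.s k204 k136 9 (.s k3 k137 10 (.s k1 k2 0 (.d k169 k253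
  k252 13 14))))))] (.c k63 (.q k127 [(.s k68 k119 4 (.s k70 k118 3 (.s k71 k69 0 (.s k84 k87 0 (.d
  k116 k100 k101 3 4))))), (.s k64 k106 6 (.s k84 k87 0 (.s k124 k104 5 (.s k105 k67 6 (.d k125 k126
  k65 0 5))))), (.s k64 k106 6 (.s k68 k119 4 (.s k76 k72 1 (.s k89 k115 6 (.d k93 k81 k110 1
  4)))))] (.c k3 (.q k23 [(.s k68 k119 4 (.s k70 k118 3 (.s k71 k69 0 (.s k116 k101 4 (.d k84 k87
  k100 0 3))))), (.s k64 k106 6 (.s k87 k84 0 (.s k67 k107 5 (.s k65 k66 0 (.d k105 k125 k124 5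
  6)))))] (.c k84 (.l (.s k64 k106 6 (.s k68 k119 4 (.s k76 k72 1 (.s k89 k115 6 (.d k93 k81 k110 1
  4)))))) (.c k87 (.q k171 [(.s k106 k64 6 (.s k110 k98 1 (.s k76 k93 4 (.s k115 k89 6 (.d k119 k123
  k68 1 4))))), (.s k118 k70 3 (.s k149 k212 8 (.s k55 k196 12 (.s k7 k39 3 (.d k244 k181 k165 8
  12)))))] .n) (.c k171 (.l (.s k87 k84 0 (.s k106 k64 6 (.s k126 k66 5 (.s k124 k125 0 (.d k67 k107
  k105 5 6)))))) .n)))) (.c k23 (.q k3 [(.s k1 k2 0 (.d k169 k253 k252 13 14)), (.s k68 k119 4 (.s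
  k70 k118 3 (.d k204 k136 k137 9 10)))] .n) .n))) (.c k127 (.q k63 [(.s k87 k84 0 (.s k118 k70 3
  (.s k119 k68 4 (.s k71 k103 3 (.d k116 k117 k101 0 4))))), (.s k21 k42 6 (.s k84 k87 0 (.s k149
  k213 7 (.s k192 k106 14 (.s k212 k23 8 (.d k252 k232 k168 5 13)))))), (.s k21 k42 6 (.s k68 k119 4
  (.s k149 k213 7 (.s k55 k196 12 (.s k51 k59 1 (.d k204 k136 k153 9 14))))))] .n) .n)))
  .n))))))))))))

def t43_203 : T TT 256 :=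
  (.f k255 k170 14 (.q k165 [(.s k5 k245 11 (.s k15 k10 2 (.s k90 k240 14 (.d k95 k80 k175 2 11))))]
  (.c k5 (.q k84 [(.s k86 k87 0 (.s k252 k168 13 (.s k253 k254 0 (.d k169 k1 k3 13 14)))), (.s k86
  k87 0 (.s k244 k7 12 (.s k4 k164 11 (.s k12 k8 1 (.s k93 k174 12 (.s k89 k81 1 (.d k166 k247 k243
  12 14)))))))] (.c k86 (.f k252 k168 13 (.q k169 [(.d k253 k254 k1 0 13), (.s k173 k161 1 (.s k15
  k94 12 (.s k90 k240 14 (.d k95 k80 k175 2 11))))] (.c k2 (.l (.s k254 k253 0 (.s k173 k161 1 (.s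
  k15 k94 12 (.s k90 k240 14 (.d k95 k80 k175 2 11)))))) (.c k254 (.q k2 [(.d k1 k3 k253 0 13), (.s
  k173 k161 1 (.s k15 k94 12 (.s k95 k175 11 (.d k90 k80 k240 2 14))))] .n) .n)))) (.c k87 (.l (.s
  k252 k168 13 (.s k253 k254 0 (.s k169 k1 13 (.s k173 k161 1 (.s k15 k94 12 (.s k90 k240 14 (.d k95
  k80 k175 2 11)))))))) .n))) (.c k10 (.l (.s k245 k5 11 (.s k240 k250 2 (.s k90 k15 14 (.d k80 k95
  k160 2 11))))) (.c k15 (.q k1 [(.s k5 k245 11 (.s k13 k9 1 (.s k89 k241 13 (.s k93 k81 1 (.d k253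
  k173 k169 11 13))))), (.s k3 k2 0 (.s k87 k171 13 (.s k86 k84 0 (.d k169 k253 k252 13 14)))), (.s
  k3 k2 0 (.s k245 k5 11 (.s k240 k250 2 (.s k160 k80 11 (.s k161 k82 12 (.s k81 k241 11 (.d k162
  k163 k243 0 12)))))))] .n) (.c k80 (.q k1 [(.s k3 k2 0 (.s k169 k253 13 (.s k86 k252 14 (.d k87
  k84 k171 0 13)))), (.s k5 k245 11 (.s k13 k9 1 (.s k89 k241 13 (.s k93 k81 1 (.d k253 k173 k169 11
  13))))), (.s k3 k2 0 (.s k5 k245 11 (.s k9 k13 1 (.s k6 k12 2 (.s k7 k4 0 (.d k15 k11 k10 1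
  2))))))] .n) (.c k90 (.f k245 k5 11 (.f k250 k240 2 (.q k81 [(.s k89 k93 1 (.s k241 k13 13 (.s
  k253 k249 1 (.d k1 k161 k169 11 13)))), (.s k89 k93 1 (.s k243 k162 12 (.s k166 k12 14 (.d k247
  k251 k4 1 12)))), (.s k243 k162 12 (.s k251 k247 1 (.s k249 k248 0 (.s k252 k246 2 (.d k253 k254
  k241 0 1)))))] .n))) (.c k95 (.q k1 [(.s k3 k2 0 (.s k169 k253 13 (.s k86 k252 14 (.d k87 k84 k171
  0 13)))), (.s k5 k245 11 (.s k13 k9 1 (.s k89 k241 13 (.s k93 k81 1 (.d k253 k173 k169 11 13))))),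
  (.s k3 k2 0 (.s k5 k245 11 (.s k9 k13 1 (.s k6 k12 2 (.s k7 k4 0 (.d k15 k11 k10 1 2))))))] .n)
  (.c k175 (.l (.s k245 k5 11 (.s k240 k250 2 (.s k80 k160 11 (.d k90 k95 k15 2 14))))) (.c k240 (.q
  k1 [(.s k3 k2 0 (.s k169 k253 13 (.s k86 k252 14 (.d k87 k84 k171 0 13)))), (.s k5 k245 11 (.s k13
  k9 1 (.s k89 k241 13 (.s k93 k81 1 (.d k253 k173 k169 11 13))))), (.s k3 k2 0 (.s k5 k245 11 (.s
  k9 k13 1 (.s k6 k12 2 (.s k7 k4 0 (.d k15 k11 k10 1 2))))))] .n) (.c k245 (.q k84 [(.s k86 k87 0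
  (.s k252 k168 13 (.s k253 k254 0 (.d k169 k1 k3 13 14)))), (.s k86 k87 0 (.s k244 k7 12 (.s k4
  k164 11 (.s k12 k8 1 (.s k93 k174 12 (.s k89 k81 1 (.d k166 k247 k243 12 14)))))))] (.c k86 (.f
  k252 k168 13 (.q k169 [(.d k253 k254 k1 0 13), (.s k173 k161 1 (.s k15 k94 12 (.s k90 k240 14 (.d
  k95 k80 k175 2 11))))] (.c k2 (.l (.s k254 k253 0 (.s k173 k161 1 (.s k15 k94 12 (.s k90 k240 14
  (.d k95 k80 k175 2 11)))))) (.c k254 (.q k2 [(.d k1 k3 k253 0 13), (.s k173 k161 1 (.s k15 k94 12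
  (.s k95 k175 11 (.d k90 k80 k240 2 14))))] .n) .n)))) (.c k87 (.l (.s k252 k168 13 (.s k253 k254 0
  (.s k169 k1 13 (.s k173 k161 1 (.s k15 k94 12 (.s k90 k240 14 (.d k95 k80 k175 2 11)))))))) .n)))
  (.c k250 (.l (.s k5 k245 11 (.s k15 k10 2 (.s k90 k240 14 (.d k95 k80 k175 2 11)))))
  .n))))))))))))

def t43_206 : T TT 256 :=
  (.f k255 k170 14 (.q k105 [(.s k65 k125 5 (.s k195 k130 8 (.s k150 k60 14 (.d k215 k235 k20 5
  8))))] (.c k20 (.q k1 [(.s k3 k2 0 (.s k169 k253 13 (.s k86 k252 14 (.d k87 k84 k171 0 13)))), (.s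
  k65 k125 5 (.s k169 k253 13 (.s k41 k233 7 (.s k61 k21 5 (.d k193 k129 k149 7 13))))), (.s k3 k2 0
  (.s k65 k125 5 (.s k129 k193 7 (.s k66 k192 8 (.s k67 k64 0 (.d k195 k131 k130 7 8))))))] .n) (.c
  k60 (.q k1 [(.s k65 k125 5 (.s k169 k253 13 (.s k41 k233 7 (.s k61 k21 5 (.d k193 k129 k149 7
  13))))), (.s k3 k2 0 (.s k87 k171 13 (.s k86 k84 0 (.d k169 k253 k252 13 14)))), (.s k3 k2 0 (.s
  k65 k125 5 (.s k129 k193 7 (.s k66 k192 8 (.s k67 k64 0 (.d k195 k131 k130 7 8))))))] .n) (.c k65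
  (.q k213 [(.s k149 k21 7 (.s k192 k234 6 (.s k64 k128 7 (.d k106 k127 k63 6 14)))), (.s k149 k21 7
  (.s k193 k61 13 (.s k253 k233 5 (.s k252 k254 0 (.s k84 k168 13 (.s k86 k87 0 (.d k169 k1 k3 13
  14)))))))] (.c k21 (.l (.s k192 k234 6 (.s k64 k128 7 (.s k106 k127 6 (.s k104 k107 0 (.s k60 k148
  13 (.s k20 k40 5 (.d k150 k215 k195 8 14)))))))) (.c k149 (.f k192 k234 6 (.q k106 [(.d k64 k128
  k127 7 6), (.s k104 k107 0 (.s k60 k148 13 (.s k20 k40 5 (.d k150 k215 k195 8 14))))] (.c k128 (.q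
  k191 [(.d k127 k64 k63 6 7), (.s k104 k107 0 (.s k60 k148 13 (.s k20 k40 5 (.d k150 k215 k195 8
  14))))] .n) (.c k191 (.l (.s k128 k64 7 (.s k104 k107 0 (.s k60 k148 13 (.s k20 k40 5 (.d k150
  k215 k195 8 14)))))) .n)))) .n))) (.c k125 (.q k213 [(.s k149 k21 7 (.s k192 k234 6 (.s k64 k128 7
  (.d k106 k127 k63 6 14)))), (.s k149 k21 7 (.s k193 k61 13 (.s k253 k233 5 (.s k252 k254 0 (.s k84
  k168 13 (.s k86 k87 0 (.d k169 k1 k3 13 14)))))))] (.c k21 (.l (.s k192 k234 6 (.s k64 k128 7 (.s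
  k106 k127 6 (.s k104 k107 0 (.s k60 k148 13 (.s k20 k40 5 (.d k150 k215 k195 8 14)))))))) (.c k149
  (.f k192 k234 6 (.q k106 [(.d k64 k128 k127 7 6), (.s k104 k107 0 (.s k60 k148 13 (.s k20 k40 5
  (.d k150 k215 k195 8 14))))] (.c k128 (.q k191 [(.d k127 k64 k63 6 7), (.s k104 k107 0 (.s k60
  k148 13 (.s k20 k40 5 (.d k150 k215 k195 8 14))))] .n) (.c k191 (.l (.s k128 k64 7 (.s k104 k107 0
  (.s k60 k148 13 (.s k20 k40 5 (.d k150 k215 k195 8 14)))))) .n)))) .n))) (.c k130 (.l (.s k125 k65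
  5 (.s k60 k190 8 (.s k150 k195 14 (.d k20 k40 k215 5 8))))) (.c k150 (.f k125 k65 5 (.q k86 [(.s
  k84 k87 0 (.s k124 k67 6 (.s k64 k104 5 (.d k127 k126 k106 0 6)))), (.s k84 k87 0 (.s k252 k168 13
  (.s k169 k3 14 (.d k253 k254 k1 0 13)))), (.s k124 k67 6 (.s k127 k126 0 (.s k63 k191 7 (.s k21
  k42 6 (.s k149 k213 7 (.d k106 k64 k192 6 14))))))] (.c k130 (.l (.s k190 k60 8 (.s k84 k87 0 (.s
  k124 k67 6 (.s k64 k104 5 (.d k127 k126 k106 0 6)))))) (.c k190 (.q k130 [(.s k84 k87 0 (.s k124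
  k67 6 (.s k64 k104 5 (.d k127 k126 k106 0 6)))), (.s k84 k87 0 (.s k252 k168 13 (.s k169 k3 14 (.d
  k253 k254 k1 0 13)))), (.s k124 k67 6 (.s k127 k126 0 (.s k63 k191 7 (.s k21 k42 6 (.s k149 k213 7
  (.d k106 k64 k192 6 14))))))] .n) .n)))) (.c k190 (.l (.s k65 k125 5 (.s k195 k130 8 (.s k150 k60
  14 (.d k215 k235 k20 5 8))))) (.c k195 (.q k1 [(.s k3 k2 0 (.s k169 k253 13 (.s k86 k252 14 (.d
  k87 k84 k171 0 13)))), (.s k65 k125 5 (.s k193 k129 7 (.s k149 k61 13 (.s k21 k213 7 (.s k63 k42 6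
  (.s k106 k192 14 (.d k127 k64 k191 6 7)))))))] (.c k3 (.l (.s k65 k125 5 (.s k169 k253 13 (.s k41
  k233 7 (.s k61 k21 5 (.d k193 k129 k149 7 13)))))) (.c k253 (.l (.s k3 k2 0 (.s k65 k125 5 (.s k87
  k171 13 (.s k86 k84 0 (.s k67 k124 6 (.s k64 k66 0 (.d k127 k107 k106 5 6)))))))) .n))) (.c k215
  (.q k1 [(.s k3 k2 0 (.s k169 k253 13 (.s k86 k252 14 (.d k87 k84 k171 0 13)))), (.s k65 k125 5 (.s
  k169 k253 13 (.s k41 k233 7 (.s k61 k21 5 (.d k193 k129 k149 7 13))))), (.s k3 k2 0 (.s k65 k125 5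
  (.s k129 k193 7 (.s k66 k192 8 (.s k67 k64 0 (.d k195 k131 k130 7 8))))))] .n) (.c k235 (.l (.s
  k125 k65 5 (.s k60 k190 8 (.s k20 k40 5 (.d k150 k215 k195 8 14))))) .n))))))))))))

def t43_207 : T TT 256 :=
  (.f k255 k170 14 (.q k105 [(.s k65 k125 5 (.s k195 k130 8 (.s k150 k60 14 (.d k215 k235 k20 5
  8)))), (.s k125 k65 5 (.s k60 k190 8 (.s k150 k195 14 (.d k20 k40 k215 5 8))))] (.c k20 (.q k1
  [(.s k3 k2 0 (.s k169 k253 13 (.s k86 k252 14 (.d k87 k84 k171 0 13)))), (.s k65 k125 5 (.s k169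
  k253 13 (.s k41 k233 7 (.s k61 k21 5 (.d k193 k129 k149 7 13))))), (.s k3 k2 0 (.s k65 k125 5 (.s
  k129 k193 7 (.s k66 k192 8 (.s k67 k64 0 (.d k195 k131 k130 7 8))))))] .n) (.c k60 (.f k65 k125 5
  (.q k81 [(.s k243 k162 12 (.s k247 k251 1 (.s k166 k4 12 (.d k89 k93 k12 1 14)))), (.s k97 k113 3
  (.s k162 k243 12 (.s k32 k227 8 (.s k48 k16 3 (.d k195 k130 k146 8 12))))), (.s k89 k93 1 (.s k113
  k97 3 (.s k77 k101 5 (.d k73 k69 k121 1 3))))] (.c k109 (.q k158 [(.s k243 k162 12 (.s k247 k251 1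
  (.s k166 k4 12 (.d k89 k93 k12 1 14)))), (.s k113 k97 3 (.s k89 k93 1 (.s k77 k101 5 (.d k73 k69
  k121 1 3))))] (.c k77 (.l (.s k93 k89 1 (.s k113 k97 3 (.s k223 k28 8 (.s k16 k154 10 (.s k48 k32
  3 (.d k243 k162 k178 12 8))))))) (.c k89 (.l (.s k97 k113 3 (.s k162 k243 12 (.s k32 k227 8 (.s
  k48 k16 3 (.d k195 k130 k146 8 12)))))) (.c k93 (.q k77 [(.s k69 k73 1 (.s k101 k117 3 (.d k113
  k97 k89 3 5))), (.s k97 k113 3 (.s k162 k243 12 (.s k32 k227 8 (.s k48 k16 3 (.d k195 k130 k146 8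
  12))))), (.s k73 k69 1 (.s k195 k130 8 (.s k12 k134 10 (.s k243 k162 12 (.d k89 k166 k121 14
  3)))))] (.c k121 (.l (.s k69 k73 1 (.s k101 k117 3 (.d k113 k97 k89 3 5)))) .n)) .n)))) (.c k158
  (.q k109 [(.d k97 k101 k113 1 3), (.s k89 k93 1 (.s k243 k162 12 (.s k166 k12 14 (.d k247 k251 k4
  1 12))))] .n) .n)))) (.c k65 (.q k84 [(.s k86 k87 0 (.s k252 k168 13 (.s k253 k254 0 (.d k169 k1
  k3 13 14)))), (.s k86 k87 0 (.s k124 k67 6 (.s k64 k104 5 (.s k192 k128 7 (.s k213 k234 6 (.s k149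
  k21 7 (.d k106 k127 k63 6 14)))))))] (.c k86 (.f k252 k168 13 (.q k169 [(.d k253 k254 k1 0 13),
  (.s k233 k41 7 (.s k195 k214 6 (.s k150 k60 14 (.d k215 k235 k20 5 8))))] (.c k2 (.l (.s k254 k253
  0 (.s k233 k41 7 (.s k195 k214 6 (.s k150 k60 14 (.d k215 k235 k20 5 8)))))) (.c k254 (.q k2 [(.d
  k1 k3 k253 0 13), (.s k233 k41 7 (.s k195 k214 6 (.s k215 k235 5 (.d k150 k20 k60 8 14))))] .n)
  .n)))) (.c k87 (.l (.s k252 k168 13 (.s k253 k254 0 (.s k169 k1 13 (.s k233 k41 7 (.s k195 k214 6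
  (.s k150 k60 14 (.d k215 k235 k20 5 8)))))))) .n))) (.c k125 (.q k213 [(.s k149 k21 7 (.s k192
  k234 6 (.s k64 k128 7 (.d k106 k127 k63 6 14)))), (.s k149 k21 7 (.s k193 k61 13 (.s k253 k233 5
  (.s k252 k254 0 (.s k84 k168 13 (.s k86 k87 0 (.d k169 k1 k3 13 14)))))))] (.c k21 (.l (.s k192
  k234 6 (.s k64 k128 7 (.s k106 k127 6 (.s k104 k107 0 (.s k60 k148 13 (.s k20 k40 5 (.d k150 k215
  k195 8 14)))))))) (.c k149 (.f k192 k234 6 (.q k106 [(.d k64 k128 k127 7 6), (.s k104 k107 0 (.s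
  k60 k148 13 (.s k20 k40 5 (.d k150 k215 k195 8 14))))] (.c k128 (.q k191 [(.d k127 k64 k63 6 7),
  (.s k104 k107 0 (.s k60 k148 13 (.s k20 k40 5 (.d k150 k215 k195 8 14))))] .n) (.c k191 (.l (.s
  k128 k64 7 (.s k104 k107 0 (.s k60 k148 13 (.s k20 k40 5 (.d k150 k215 k195 8 14)))))) .n))))
  .n))) (.c k130 (.l (.s k125 k65 5 (.s k60 k190 8 (.s k150 k195 14 (.d k20 k40 k215 5 8))))) (.c
  k150 (.f k125 k65 5 (.q k61 [(.s k149 k193 13 (.s k21 k213 7 (.s k253 k189 7 (.d k1 k41 k169 5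
  13)))), (.s k149 k193 13 (.s k213 k21 7 (.s k192 k234 6 (.s k64 k128 7 (.d k106 k127 k63 6
  14))))), (.s k253 k189 7 (.s k169 k1 13 (.s k252 k254 0 (.s k84 k168 13 (.d k86 k87 k3 0 14))))),
  (.s k189 k253 7 (.s k190 k60 8 (.s k191 k188 0 (.s k63 k127 7 (.s k21 k42 6 (.d k149 k213 k193 7
  13))))))] (.c k130 (.l (.s k190 k60 8 (.s k149 k193 13 (.s k21 k213 7 (.s k1 k41 5 (.d k253 k189
  k169 7 13)))))) (.c k190 (.q k130 [(.s k149 k193 13 (.s k21 k213 7 (.s k1 k41 5 (.d k253 k189 k169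
  7 13)))), (.s k253 k189 7 (.s k252 k254 0 (.s k84 k168 13 (.s k86 k87 0 (.d k169 k1 k3 13 14))))),
  (.s k149 k193 13 (.s k213 k21 7 (.s k192 k234 6 (.s k64 k128 7 (.d k106 k127 k63 6 14)))))] (.c k1
  (.l (.s k189 k253 7 (.s k149 k193 13 (.s k129 k169 5 (.s k213 k21 7 (.s k192 k234 6 (.d k128 k131
  k64 0 7))))))) .n)) (.c k193 (.l (.s k253 k189 7 (.s k1 k169 13 (.s k3 k2 0 (.s k41 k21 5 (.d k60
  k22 k190 6 8)))))) .n))))) (.c k190 (.l (.s k65 k125 5 (.s k195 k130 8 (.s k150 k60 14 (.d k215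
  k235 k20 5 8))))) (.c k195 (.f k125 k65 5 (.q k121 [(.s k89 k73 3 (.s k93 k81 1 (.s k113 k117 1
  (.d k77 k109 k101 3 5)))), (.s k60 k190 8 (.s k243 k182 10 (.s k81 k162 12 (.d k89 k93 k73 1
  3)))), (.s k60 k190 8 (.s k117 k113 1 (.s k48 k186 10 (.s k52 k56 1 (.d k182 k247 k243 8 10)))))]
  (.c k81 (.l (.s k60 k190 8 (.s k89 k73 3 (.s k243 k182 10 (.s k247 k251 1 (.d k166 k12 k4 14
  12)))))) (.c k199 (.q k203 [(.s k56 k154 12 (.s k117 k113 1 (.d k186 k48 k251 10 8))), (.s k60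
  k190 8 (.s k89 k73 3 (.s k81 k93 1 (.d k243 k182 k162 10 12))))] (.c k81 (.l (.s k56 k154 12 (.s
  k186 k251 8 (.d k117 k48 k113 10 1)))) .n)) (.c k203 (.q k199 [(.s k60 k190 8 (.s k20 k40 5 (.s
  k150 k215 8 (.s k101 k52 12 (.d k117 k113 k69 1 3))))), (.s k89 k73 3 (.s k81 k93 1 (.s k243 k162
  12 (.d k60 k190 k182 8 10)))), (.s k89 k73 3 (.s k93 k81 1 (.s k113 k117 1 (.d k77 k109 k101 3
  5))))] (.c k69 (.l (.s k60 k190 8 (.s k243 k182 10 (.s k81 k162 12 (.d k89 k93 k73 1 3))))) .n))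
  .n))))) (.c k215 (.q k1 [(.s k3 k2 0 (.s k169 k253 13 (.s k86 k252 14 (.d k87 k84 k171 0 13)))),
  (.s k65 k125 5 (.s k169 k253 13 (.s k41 k233 7 (.s k61 k21 5 (.d k193 k129 k149 7 13))))), (.s k3
  k2 0 (.s k65 k125 5 (.s k129 k193 7 (.s k66 k192 8 (.s k67 k64 0 (.d k195 k131 k130 7 8))))))] .n)
  .n)))))))))))

def t43_218 : T TT 256 :=
  (.f k255 k170 14 (.q k105 [(.s k65 k125 5 (.s k195 k130 8 (.s k150 k60 14 (.d k215 k235 k20 5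
  8))))] (.c k20 (.q k1 [(.s k3 k2 0 (.s k169 k253 13 (.s k86 k252 14 (.d k87 k84 k171 0 13)))), (.s
  k65 k125 5 (.s k169 k253 13 (.s k41 k233 7 (.s k61 k21 5 (.d k193 k129 k149 7 13))))), (.s k3 k2 0
  (.s k65 k125 5 (.s k129 k193 7 (.s k66 k192 8 (.s k67 k64 0 (.d k195 k131 k130 7 8))))))] .n) (.c
  k60 (.q k1 [(.s k3 k2 0 (.s k169 k253 13 (.s k86 k252 14 (.d k87 k84 k171 0 13)))), (.s k65 k125 5
  (.s k169 k253 13 (.s k41 k233 7 (.s k61 k21 5 (.d k193 k129 k149 7 13))))), (.s k3 k2 0 (.s k65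
  k125 5 (.s k129 k193 7 (.s k66 k192 8 (.s k67 k64 0 (.d k195 k131 k130 7 8))))))] .n) (.c k65 (.q
  k84 [(.s k86 k87 0 (.s k252 k168 13 (.s k253 k254 0 (.d k169 k1 k3 13 14)))), (.s k86 k87 0 (.s
  k124 k67 6 (.s k64 k104 5 (.s k192 k128 7 (.s k213 k234 6 (.s k149 k21 7 (.d k106 k127 k63 6
  14)))))))] (.c k86 (.f k252 k168 13 (.q k169 [(.d k253 k254 k1 0 13), (.s k233 k41 7 (.s k195 k214
  6 (.s k150 k60 14 (.d k215 k235 k20 5 8))))] (.c k2 (.l (.s k254 k253 0 (.s k233 k41 7 (.s k195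
  k214 6 (.s k150 k60 14 (.d k215 k235 k20 5 8)))))) (.c k254 (.q k2 [(.d k1 k3 k253 0 13), (.s k233
  k41 7 (.s k195 k214 6 (.s k215 k235 5 (.d k150 k20 k60 8 14))))] .n) .n)))) (.c k87 (.l (.s k252
  k168 13 (.s k253 k254 0 (.s k169 k1 13 (.s k233 k41 7 (.s k195 k214 6 (.s k150 k60 14 (.d k215
  k235 k20 5 8)))))))) .n))) (.c k125 (.q k84 [(.s k86 k87 0 (.s k252 k168 13 (.s k253 k254 0 (.d
  k169 k1 k3 13 14)))), (.s k86 k87 0 (.s k124 k67 6 (.s k64 k104 5 (.s k192 k128 7 (.s k213 k234 6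
  (.s k149 k21 7 (.d k106 k127 k63 6 14)))))))] (.c k86 (.f k252 k168 13 (.q k169 [(.d k253 k254 k1
  0 13), (.s k233 k41 7 (.s k195 k214 6 (.s k150 k60 14 (.d k215 k235 k20 5 8))))] (.c k2 (.l (.s
  k254 k253 0 (.s k233 k41 7 (.s k195 k214 6 (.s k150 k60 14 (.d k215 k235 k20 5 8)))))) (.c k254
  (.q k2 [(.d k1 k3 k253 0 13), (.s k233 k41 7 (.s k195 k214 6 (.s k215 k235 5 (.d k150 k20 k60 8
  14))))] .n) .n)))) (.c k87 (.l (.s k252 k168 13 (.s k253 k254 0 (.s k169 k1 13 (.s k233 k41 7 (.s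
  k195 k214 6 (.s k150 k60 14 (.d k215 k235 k20 5 8)))))))) .n))) (.c k130 (.l (.s k125 k65 5 (.s
  k60 k190 8 (.s k150 k195 14 (.d k20 k40 k215 5 8))))) (.c k150 (.f k125 k65 5 (.q k86 [(.s k84 k87
  0 (.s k124 k67 6 (.s k64 k104 5 (.d k127 k126 k106 0 6)))), (.s k84 k87 0 (.s k252 k168 13 (.s
  k169 k3 14 (.d k253 k254 k1 0 13)))), (.s k124 k67 6 (.s k127 k126 0 (.s k63 k191 7 (.s k21 k42 6
  (.s k149 k213 7 (.d k106 k64 k192 6 14))))))] (.c k130 (.l (.s k190 k60 8 (.s k84 k87 0 (.s k124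
  k67 6 (.s k64 k104 5 (.d k127 k126 k106 0 6)))))) (.c k190 (.q k130 [(.s k84 k87 0 (.s k124 k67 6
  (.s k64 k104 5 (.d k127 k126 k106 0 6)))), (.s k84 k87 0 (.s k252 k168 13 (.s k169 k3 14 (.d k253
  k254 k1 0 13)))), (.s k124 k67 6 (.s k127 k126 0 (.s k63 k191 7 (.s k21 k42 6 (.s k149 k213 7 (.d
  k106 k64 k192 6 14))))))] .n) .n)))) (.c k190 (.l (.s k65 k125 5 (.s k195 k130 8 (.s k150 k60 14
  (.d k215 k235 k20 5 8))))) (.c k195 (.q k1 [(.s k3 k2 0 (.s k169 k253 13 (.s k86 k252 14 (.d k87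
  k84 k171 0 13)))), (.s k65 k125 5 (.s k193 k129 7 (.s k149 k61 13 (.s k21 k213 7 (.s k63 k42 6 (.s
  k106 k192 14 (.d k127 k64 k191 6 7)))))))] (.c k3 (.l (.s k65 k125 5 (.s k169 k253 13 (.s k41 k233
  7 (.s k61 k21 5 (.d k193 k129 k149 7 13)))))) (.c k253 (.l (.s k3 k2 0 (.s k65 k125 5 (.s k87 k171
  13 (.s k86 k84 0 (.s k67 k124 6 (.s k64 k66 0 (.d k127 k107 k106 5 6)))))))) .n))) (.c k215 (.q k1
  [(.s k3 k2 0 (.s k169 k253 13 (.s k86 k252 14 (.d k87 k84 k171 0 13)))), (.s k65 k125 5 (.s k169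
  k253 13 (.s k41 k233 7 (.s k61 k21 5 (.d k193 k129 k149 7 13))))), (.s k3 k2 0 (.s k65 k125 5 (.s
  k129 k193 7 (.s k66 k192 8 (.s k67 k64 0 (.d k195 k131 k130 7 8))))))] .n) (.c k235 (.l (.s k125
  k65 5 (.s k60 k190 8 (.s k20 k40 5 (.d k150 k215 k195 8 14))))) .n))))))))))))

def t43_219 : T TT 256 :=
  (.f k255 k170 14 (.q k165 [(.s k5 k245 11 (.s k15 k10 2 (.s k90 k240 14 (.d k95 k80 k175 2 11))))]
  (.c k5 (.q k4 [(.s k12 k8 1 (.s k93 k174 12 (.s k89 k81 1 (.d k166 k247 k243 12 14)))), (.s k166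
  k247 12 (.s k164 k167 0 (.s k84 k244 11 (.s k252 k168 13 (.s k253 k254 0 (.s k169 k1 13 (.d k86
  k87 k3 0 14)))))))] (.c k166 (.f k12 k8 1 (.q k89 [(.d k93 k174 k81 12 1), (.s k13 k241 13 (.s k15
  k14 0 (.s k90 k240 14 (.d k95 k80 k175 2 11))))] (.c k162 (.l (.s k174 k93 12 (.s k13 k241 13 (.s
  k15 k14 0 (.s k90 k240 14 (.d k95 k80 k175 2 11)))))) (.c k174 (.q k162 [(.d k81 k93 k243 1 12),
  (.s k13 k241 13 (.s k15 k14 0 (.s k95 k175 11 (.d k90 k80 k240 2 14))))] .n) .n)))) (.c k247 (.l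
  (.s k12 k8 1 (.s k93 k174 12 (.s k89 k81 1 (.s k13 k241 13 (.s k15 k14 0 (.s k90 k240 14 (.d k95
  k80 k175 2 11)))))))) .n))) (.c k10 (.l (.s k245 k5 11 (.s k240 k250 2 (.s k90 k15 14 (.d k80 k95
  k160 2 11))))) (.c k15 (.q k1 [(.s k5 k245 11 (.s k13 k9 1 (.s k89 k241 13 (.s k93 k81 1 (.d k253
  k173 k169 11 13))))), (.s k3 k2 0 (.s k87 k171 13 (.s k86 k84 0 (.d k169 k253 k252 13 14)))), (.s
  k3 k2 0 (.s k245 k5 11 (.s k240 k250 2 (.s k160 k80 11 (.s k161 k82 12 (.s k81 k241 11 (.d k162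
  k163 k243 0 12)))))))] .n) (.c k80 (.q k1 [(.s k3 k2 0 (.s k169 k253 13 (.s k86 k252 14 (.d k87
  k84 k171 0 13)))), (.s k5 k245 11 (.s k13 k9 1 (.s k89 k241 13 (.s k93 k81 1 (.d k253 k173 k169 11
  13))))), (.s k3 k2 0 (.s k5 k245 11 (.s k9 k13 1 (.s k6 k12 2 (.s k7 k4 0 (.d k15 k11 k10 1
  2))))))] .n) (.c k90 (.f k245 k5 11 (.q k229 [(.s k101 k37 7 (.s k117 k69 3 (.s k53 k181 7 (.d
  k197 k213 k149 3 11)))), (.s k101 k37 7 (.s k69 k117 3 (.s k207 k138 10 (.d k240 k250 k218 2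
  6)))), (.s k213 k197 3 (.s k192 k234 6 (.s k64 k128 7 (.s k106 k127 6 (.d k149 k21 k63 7 14)))))]
  (.c k10 (.l (.s k250 k240 2 (.s k101 k37 7 (.s k117 k69 3 (.s k53 k181 7 (.d k197 k213 k149 3
  11)))))) (.c k21 (.l (.s k197 k213 3 (.s k101 k37 7 (.s k53 k149 11 (.d k117 k69 k181 3 7))))) (.c
  k69 (.l (.s k101 k37 7 (.s k197 k213 3 (.s k53 k149 11 (.s k117 k181 7 (.s k48 k186 10 (.s k16 k32
  3 (.d k154 k223 k207 10 14)))))))) (.c k250 (.q k10 [(.s k101 k37 7 (.s k117 k69 3 (.s k53 k181 7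
  (.d k197 k213 k149 3 11)))), (.s k213 k197 3 (.s k192 k234 6 (.s k64 k128 7 (.s k106 k127 6 (.d
  k149 k21 k63 7 14))))), (.s k101 k37 7 (.s k69 k117 3 (.s k207 k138 10 (.s k154 k48 14 (.d k223
  k239 k16 3 10)))))] (.c k21 (.l (.s k197 k213 3 (.s k101 k37 7 (.s k53 k149 11 (.d k117 k69 k181 3
  7))))) (.c k69 (.l (.s k101 k37 7 (.s k197 k213 3 (.s k53 k149 11 (.s k117 k181 7 (.s k48 k186 10
  (.s k16 k32 3 (.d k154 k223 k207 10 14)))))))) .n))) .n)))))) (.c k95 (.q k1 [(.s k3 k2 0 (.s k169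
  k253 13 (.s k86 k252 14 (.d k87 k84 k171 0 13)))), (.s k5 k245 11 (.s k13 k9 1 (.s k89 k241 13 (.s
  k93 k81 1 (.d k253 k173 k169 11 13))))), (.s k3 k2 0 (.s k5 k245 11 (.s k9 k13 1 (.s k6 k12 2 (.s
  k7 k4 0 (.d k15 k11 k10 1 2))))))] .n) (.c k175 (.l (.s k245 k5 11 (.s k240 k250 2 (.s k80 k160 11
  (.d k90 k95 k15 2 14))))) (.c k240 (.q k1 [(.s k3 k2 0 (.s k169 k253 13 (.s k86 k252 14 (.d k87
  k84 k171 0 13)))), (.s k5 k245 11 (.s k13 k9 1 (.s k89 k241 13 (.s k93 k81 1 (.d k253 k173 k169 11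
  13))))), (.s k3 k2 0 (.s k5 k245 11 (.s k9 k13 1 (.s k6 k12 2 (.s k7 k4 0 (.d k15 k11 k10 1
  2))))))] .n) (.c k245 (.q k84 [(.s k86 k87 0 (.s k252 k168 13 (.s k253 k254 0 (.d k169 k1 k3 13
  14)))), (.s k86 k87 0 (.s k244 k7 12 (.s k4 k164 11 (.s k12 k8 1 (.s k93 k174 12 (.s k89 k81 1 (.d
  k166 k247 k243 12 14)))))))] (.c k86 (.f k252 k168 13 (.q k169 [(.d k253 k254 k1 0 13), (.s k173
  k161 1 (.s k15 k94 12 (.s k90 k240 14 (.d k95 k80 k175 2 11))))] (.c k2 (.l (.s k254 k253 0 (.s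
  k173 k161 1 (.s k15 k94 12 (.s k90 k240 14 (.d k95 k80 k175 2 11)))))) (.c k254 (.q k2 [(.d k1 k3
  k253 0 13), (.s k173 k161 1 (.s k15 k94 12 (.s k95 k175 11 (.d k90 k80 k240 2 14))))] .n) .n))))
  (.c k87 (.l (.s k252 k168 13 (.s k253 k254 0 (.s k169 k1 13 (.s k173 k161 1 (.s k15 k94 12 (.s k90
  k240 14 (.d k95 k80 k175 2 11)))))))) .n))) (.c k250 (.l (.s k5 k245 11 (.s k15 k10 2 (.s k90 k240
  14 (.d k95 k80 k175 2 11))))) .n))))))))))))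

def t43_222 : T TT 256 :=
  (.f k255 k170 14 (.q k105 [(.s k65 k125 5 (.s k195 k130 8 (.s k150 k60 14 (.d k215 k235 k20 5
  8))))] (.c k20 (.q k1 [(.s k3 k2 0 (.s k169 k253 13 (.s k86 k252 14 (.d k87 k84 k171 0 13)))), (.s
  k65 k125 5 (.s k169 k253 13 (.s k41 k233 7 (.s k61 k21 5 (.d k193 k129 k149 7 13))))), (.s k3 k2 0
  (.s k65 k125 5 (.s k129 k193 7 (.s k66 k192 8 (.s k67 k64 0 (.d k195 k131 k130 7 8))))))] .n) (.c
  k60 (.q k1 [(.s k3 k2 0 (.s k87 k171 13 (.s k86 k84 0 (.d k169 k253 k252 13 14)))), (.s k65 k125 5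
  (.s k169 k253 13 (.s k41 k233 7 (.s k61 k21 5 (.d k193 k129 k149 7 13))))), (.s k3 k2 0 (.s k65
  k125 5 (.s k129 k193 7 (.s k66 k192 8 (.s k67 k64 0 (.d k195 k131 k130 7 8))))))] .n) (.c k65 (.q
  k213 [(.s k149 k21 7 (.s k192 k234 6 (.s k64 k128 7 (.d k106 k127 k63 6 14)))), (.s k149 k21 7 (.s
  k193 k61 13 (.s k253 k233 5 (.s k252 k254 0 (.s k84 k168 13 (.s k86 k87 0 (.d k169 k1 k3 13
  14)))))))] (.c k21 (.l (.s k192 k234 6 (.s k64 k128 7 (.s k106 k127 6 (.s k104 k107 0 (.s k60 k148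
  13 (.s k20 k40 5 (.d k150 k215 k195 8 14)))))))) (.c k149 (.f k192 k234 6 (.q k106 [(.d k64 k128
  k127 7 6), (.s k104 k107 0 (.s k60 k148 13 (.s k20 k40 5 (.d k150 k215 k195 8 14))))] (.c k128 (.q
  k191 [(.d k127 k64 k63 6 7), (.s k104 k107 0 (.s k60 k148 13 (.s k20 k40 5 (.d k150 k215 k195 8
  14))))] .n) (.c k191 (.l (.s k128 k64 7 (.s k104 k107 0 (.s k60 k148 13 (.s k20 k40 5 (.d k150
  k215 k195 8 14)))))) .n)))) .n))) (.c k125 (.q k213 [(.s k149 k21 7 (.s k192 k234 6 (.s k64 k128 7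
  (.d k106 k127 k63 6 14)))), (.s k149 k21 7 (.s k193 k61 13 (.s k253 k233 5 (.s k252 k254 0 (.s k84
  k168 13 (.s k86 k87 0 (.d k169 k1 k3 13 14)))))))] (.c k21 (.l (.s k192 k234 6 (.s k64 k128 7 (.s
  k106 k127 6 (.s k104 k107 0 (.s k60 k148 13 (.s k20 k40 5 (.d k150 k215 k195 8 14)))))))) (.c k149
  (.f k192 k234 6 (.q k106 [(.d k64 k128 k127 7 6), (.s k104 k107 0 (.s k60 k148 13 (.s k20 k40 5
  (.d k150 k215 k195 8 14))))] (.c k128 (.q k191 [(.d k127 k64 k63 6 7), (.s k104 k107 0 (.s k60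
  k148 13 (.s k20 k40 5 (.d k150 k215 k195 8 14))))] .n) (.c k191 (.l (.s k128 k64 7 (.s k104 k107 0
  (.s k60 k148 13 (.s k20 k40 5 (.d k150 k215 k195 8 14)))))) .n)))) .n))) (.c k130 (.l (.s k125 k65
  5 (.s k60 k190 8 (.s k150 k195 14 (.d k20 k40 k215 5 8))))) (.c k150 (.f k125 k65 5 (.q k109 [(.s
  k77 k93 3 (.s k101 k97 1 (.s k117 k69 3 (.d k113 k121 k89 1 5)))), (.s k93 k77 3 (.s k12 k174 12
  (.s k4 k8 1 (.s k166 k247 12 (.d k89 k81 k243 1 14))))), (.s k101 k97 1 (.s k69 k117 3 (.s k207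
  k138 10 (.d k60 k190 k158 8 12))))] (.c k69 (.l (.s k77 k93 3 (.s k101 k97 1 (.s k113 k89 5 (.s
  k117 k121 1 (.s k48 k186 10 (.s k16 k32 3 (.d k154 k223 k207 10 14)))))))) (.c k81 (.l (.s k77 k93
  3 (.s k101 k97 1 (.s k113 k89 5 (.d k117 k121 k69 1 3))))) (.c k130 (.l (.s k190 k60 8 (.s k77 k93
  3 (.s k101 k97 1 (.s k113 k89 5 (.d k117 k121 k69 1 3)))))) (.c k190 (.q k130 [(.s k77 k93 3 (.s
  k101 k97 1 (.s k117 k69 3 (.d k113 k121 k89 1 5)))), (.s k93 k77 3 (.s k12 k174 12 (.s k4 k8 1 (.s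
  k166 k247 12 (.d k89 k81 k243 1 14))))), (.s k101 k97 1 (.s k69 k117 3 (.s k207 k138 10 (.s k154
  k48 14 (.d k223 k239 k16 3 10)))))] (.c k69 (.l (.s k77 k93 3 (.s k101 k97 1 (.s k113 k89 5 (.s
  k117 k121 1 (.s k48 k186 10 (.s k16 k32 3 (.d k154 k223 k207 10 14)))))))) (.c k81 (.l (.s k77 k93
  3 (.s k101 k97 1 (.s k113 k89 5 (.d k117 k121 k69 1 3))))) .n))) .n)))))) (.c k190 (.l (.s k65
  k125 5 (.s k195 k130 8 (.s k150 k60 14 (.d k215 k235 k20 5 8))))) (.c k195 (.q k1 [(.s k3 k2 0 (.s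
  k87 k171 13 (.s k86 k84 0 (.d k169 k253 k252 13 14)))), (.s k65 k125 5 (.s k193 k129 7 (.s k149
  k61 13 (.s k21 k213 7 (.s k63 k42 6 (.s k106 k192 14 (.d k127 k64 k191 6 7)))))))] (.c k3 (.l (.s
  k65 k125 5 (.s k169 k253 13 (.s k41 k233 7 (.s k61 k21 5 (.d k193 k129 k149 7 13)))))) (.c k253
  (.l (.s k3 k2 0 (.s k65 k125 5 (.s k87 k171 13 (.s k86 k84 0 (.s k67 k124 6 (.s k64 k66 0 (.d k127
  k107 k106 5 6)))))))) .n))) (.c k215 (.q k1 [(.s k3 k2 0 (.s k169 k253 13 (.s k86 k252 14 (.d k87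
  k84 k171 0 13)))), (.s k65 k125 5 (.s k169 k253 13 (.s k41 k233 7 (.s k61 k21 5 (.d k193 k129 k149
  7 13))))), (.s k3 k2 0 (.s k65 k125 5 (.s k129 k193 7 (.s k66 k192 8 (.s k67 k64 0 (.d k195 k131
  k130 7 8))))))] .n) (.c k235 (.l (.s k125 k65 5 (.s k60 k190 8 (.s k20 k40 5 (.d k150 k215 k195 8
  14))))) .n))))))))))))

def t43_232 : T TT 256 :=
  (.f k255 k170 14 (.q k106 [(.s k64 k127 6 (.s k192 k128 7 (.s k149 k63 14 (.d k213 k234 k21 6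
  7)))), (.s k127 k64 6 (.s k63 k191 7 (.s k149 k192 14 (.d k21 k42 k213 6 7))))] (.c k21 (.q k1
  [(.s k3 k2 0 (.s k169 k253 13 (.s k86 k252 14 (.d k87 k84 k171 0 13)))), (.s k64 k127 6 (.s k169
  k253 13 (.s k192 k128 7 (.s k149 k63 14 (.s k129 k189 5 (.s k65 k193 7 (.d k66 k3 k67 8 0))))))),
  (.s k3 k2 0 (.s k64 k127 6 (.s k192 k128 7 (.s k66 k129 8 (.s k86 k126 5 (.d k87 k84 k171 0
  13)))))), (.s k127 k64 6 (.s k63 k191 7 (.s k253 k169 13 (.s k252 k254 0 (.s k126 k189 8 (.s k86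
  k66 5 (.d k84 k168 k87 13 0)))))))] .n) (.c k63 (.q k3 [(.s k1 k2 0 (.s k87 k171 13 (.s k86 k84 0
  (.d k169 k253 k252 13 14)))), (.s k2 k1 0 (.s k64 k127 6 (.s k192 k128 7 (.s k66 k129 8 (.s k65
  k67 0 (.d k130 k194 k195 7 8)))))), (.s k64 k127 6 (.s k192 k128 7 (.s k66 k129 8 (.s k86 k126 5
  (.d k87 k84 k171 0 13)))))] (.c k87 (.l (.s k1 k2 0 (.s k64 k127 6 (.s k169 k253 13 (.s k86 k252
  14 (.s k192 k128 7 (.d k66 k126 k129 5 8))))))) .n)) (.c k64 (.q k3 [(.s k1 k2 0 (.s k169 k253 13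
  (.s k86 k252 14 (.d k87 k84 k171 0 13)))), (.s k87 k171 13 (.s k86 k84 0 (.s k66 k126 5 (.s k192
  k129 8 (.s k213 k234 6 (.d k149 k21 k63 7 14)))))), (.s k1 k2 0 (.s k169 k253 13 (.s k86 k252 14
  (.s k66 k126 5 (.s k192 k129 8 (.s k213 k234 6 (.d k149 k63 k21 14 7)))))))] (.c k86 (.q k71 [(.s
  k207 k139 9 (.s k69 k138 10 (.s k70 k68 0 (.s k137 k204 10 (.d k1 k2 k205 0 9))))), (.s k87 k171
  13 (.s k103 k119 3 (.s k207 k139 9 (.s k155 k51 13 (.d k223 k239 k19 3 9))))), (.s k87 k171 13 (.s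
  k119 k103 3 (.s k68 k102 4 (.s k70 k69 0 (.d k204 k136 k137 9 10)))))] (.c k2 (.q k254 [(.s k87
  k171 13 (.s k103 k119 3 (.s k207 k139 9 (.s k155 k51 13 (.d k223 k239 k19 3 9))))), (.s k207 k139
  9 (.s k69 k138 10 (.s k70 k68 0 (.s k137 k204 10 (.s k1 k205 9 (.d k253 k252 k169 0 13)))))), (.s
  k87 k171 13 (.s k119 k103 3 (.s k68 k102 4 (.s k70 k69 0 (.d k204 k136 k137 9 10)))))] (.c k169
  (.l (.s k207 k139 9 (.s k69 k138 10 (.s k101 k117 3 (.s k154 k48 14 (.d k223 k239 k16 3 10))))))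
  .n)) (.c k254 (.l (.s k2 k1 0 (.s k87 k171 13 (.s k103 k119 3 (.s k207 k139 9 (.s k155 k51 13 (.d
  k223 k239 k19 3 9))))))) .n))) (.c k169 (.f k171 k87 13 (.q k12 [(.s k4 k8 1 (.s k93 k174 12 (.s
  k89 k81 1 (.d k166 k247 k243 12 14)))), (.s k1 k2 0 (.s k8 k4 1 (.s k9 k6 2 (.s k5 k13 1 (.d k10
  k11 k15 0 2))))), (.s k93 k174 12 (.s k89 k81 1 (.s k72 k123 4 (.s k192 k132 9 (.s k149 k63 14 (.d
  k213 k234 k21 6 7))))))] .n)) (.c k192 (.l (.s k1 k2 0 (.s k87 k171 13 (.s k86 k84 0 (.d k169 k253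
  k252 13 14))))) .n)))) (.c k127 (.q k204 [(.s k68 k136 9 (.s k221 k238 4 (.s k153 k17 9 (.d k102
  k119 k51 4 14)))), (.s k68 k136 9 (.s k102 k119 4 (.s k110 k98 1 (.s k63 k157 12 (.s k21 k42 6 (.d
  k149 k213 k192 7 14)))))), (.s k221 k238 4 (.s k153 k17 9 (.s k200 k59 12 (.s k192 k196 1 (.s k149
  k63 14 (.d k213 k234 k21 6 7))))))] (.c k102 (.q k200 [(.s k153 k59 12 (.d k221 k238 k17 4 9)),
  (.s k192 k196 1 (.s k149 k63 14 (.d k213 k234 k21 6 7)))] (.c k34 (.l (.s k238 k221 4 (.s k192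
  k196 1 (.s k149 k63 14 (.d k213 k234 k21 6 7))))) (.c k238 (.q k34 [(.s k17 k51 4 (.d k153 k221
  k59 9 12)), (.s k192 k196 1 (.s k149 k63 14 (.d k213 k234 k21 6 7)))] .n) .n))) (.c k153 (.q k102
  [(.d k68 k136 k119 9 4), (.s k110 k98 1 (.s k63 k157 12 (.s k21 k42 6 (.d k149 k213 k192 7 14))))]
  (.c k136 (.q k187 [(.d k119 k68 k51 4 9), (.s k110 k98 1 (.s k63 k157 12 (.s k21 k42 6 (.d k149
  k213 k192 7 14))))] .n) (.c k187 (.l (.s k136 k68 9 (.s k110 k98 1 (.s k63 k157 12 (.s k21 k42 6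
  (.d k149 k213 k192 7 14)))))) .n))) .n))) (.c k128 (.l (.s k127 k64 6 (.s k63 k191 7 (.s k149 k192
  14 (.d k21 k42 k213 6 7))))) (.c k149 (.f k127 k64 6 (.q k105 [(.s k65 k125 5 (.s k195 k130 8 (.s
  k150 k60 14 (.d k215 k235 k20 5 8)))), (.s k107 k104 0 (.s k87 k67 5 (.s k3 k171 13 (.s k1 k2 0
  (.s k169 k253 13 (.d k86 k84 k252 0 14))))))] (.c k65 (.l (.s k107 k104 0 (.s k67 k87 5 (.s k124
  k86 6 (.s k125 k126 0 (.s k60 k190 8 (.s k150 k195 14 (.d k20 k40 k215 5 8)))))))) (.c k128 (.l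
  (.s k191 k63 7 (.s k65 k125 5 (.s k195 k130 8 (.s k150 k60 14 (.d k215 k235 k20 5 8)))))) (.c k191
  (.q k128 [(.s k65 k125 5 (.s k195 k130 8 (.s k150 k60 14 (.d k215 k235 k20 5 8)))), (.s k107 k104
  0 (.s k87 k67 5 (.s k3 k171 13 (.s k1 k2 0 (.s k169 k253 13 (.d k86 k84 k252 0 14))))))] (.c k65
  (.l (.s k107 k104 0 (.s k67 k87 5 (.s k124 k86 6 (.s k125 k126 0 (.s k60 k190 8 (.s k150 k195 14
  (.d k20 k40 k215 5 8)))))))) .n)) .n))))) (.c k191 (.l (.s k64 k127 6 (.s k192 k128 7 (.s k149 k63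
  14 (.d k213 k234 k21 6 7))))) (.c k192 (.q k252 [(.s k84 k168 13 (.s k86 k87 0 (.s k253 k254 0 (.d
  k169 k1 k3 13 14)))), (.s k127 k64 6 (.s k63 k191 7 (.s k126 k189 8 (.s k125 k124 0 (.s k190 k60 8
  (.d k254 k253 k62 0 7)))))), (.s k127 k64 6 (.s k63 k191 7 (.s k126 k189 8 (.s k86 k66 5 (.d k84
  k87 k168 0 13)))))] (.c k84 (.l (.s k127 k64 6 (.s k63 k191 7 (.s k126 k189 8 (.s k86 k66 5 (.s
  k253 k254 0 (.d k169 k3 k1 14 13))))))) .n)) (.c k213 (.q k3 [(.s k1 k2 0 (.s k87 k171 13 (.s k86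
  k84 0 (.d k169 k253 k252 13 14)))), (.s k2 k1 0 (.s k64 k127 6 (.s k192 k128 7 (.s k66 k129 8 (.s
  k65 k67 0 (.d k130 k194 k195 7 8)))))), (.s k64 k127 6 (.s k192 k128 7 (.s k66 k129 8 (.s k86 k126
  5 (.d k87 k84 k171 0 13)))))] (.c k87 (.l (.s k1 k2 0 (.s k64 k127 6 (.s k169 k253 13 (.s k86 k252
  14 (.s k66 k126 5 (.d k192 k128 k129 7 8))))))) .n)) .n)))))))))))

def t43_233 : T TT 256 :=
  (.f k255 k170 14 (.q k165 [(.s k5 k245 11 (.s k15 k10 2 (.s k90 k240 14 (.d k95 k80 k175 2 11))))]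
  (.c k5 (.q k93 [(.s k89 k81 1 (.s k12 k174 12 (.s k166 k243 14 (.d k4 k8 k247 1 12)))), (.s k89
  k81 1 (.s k13 k241 13 (.s k253 k173 11 (.s k252 k254 0 (.s k84 k168 13 (.s k86 k87 0 (.d k169 k1
  k3 13 14)))))))] (.c k81 (.l (.s k12 k174 12 (.s k4 k8 1 (.s k166 k247 12 (.s k164 k167 0 (.s k240
  k88 13 (.s k80 k160 11 (.d k90 k95 k15 2 14)))))))) (.c k89 (.f k12 k174 12 (.q k166 [(.d k4 k8
  k247 1 12), (.s k164 k167 0 (.s k240 k88 13 (.s k80 k160 11 (.d k90 k95 k15 2 14))))] (.c k8 (.q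
  k251 [(.d k247 k243 k4 1 12), (.s k164 k167 0 (.s k240 k88 13 (.s k80 k160 11 (.d k90 k95 k15 2
  14))))] .n) (.c k251 (.l (.s k8 k4 1 (.s k164 k167 0 (.s k240 k88 13 (.s k80 k160 11 (.d k90 k95
  k15 2 14)))))) .n)))) .n))) (.c k10 (.l (.s k245 k5 11 (.s k240 k250 2 (.s k90 k15 14 (.d k80 k95
  k160 2 11))))) (.c k15 (.q k1 [(.s k5 k245 11 (.s k13 k9 1 (.s k89 k241 13 (.s k93 k81 1 (.d k253
  k173 k169 11 13))))), (.s k3 k2 0 (.s k87 k171 13 (.s k86 k84 0 (.d k169 k253 k252 13 14)))), (.s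
  k3 k2 0 (.s k245 k5 11 (.s k240 k250 2 (.s k160 k80 11 (.s k161 k82 12 (.s k81 k241 11 (.d k162
  k163 k243 0 12)))))))] .n) (.c k80 (.q k1 [(.s k5 k245 11 (.s k13 k9 1 (.s k89 k241 13 (.s k93 k81
  1 (.d k253 k173 k169 11 13))))), (.s k3 k2 0 (.s k87 k171 13 (.s k86 k84 0 (.d k169 k253 k252 13
  14)))), (.s k3 k2 0 (.s k5 k245 11 (.s k9 k13 1 (.s k6 k12 2 (.s k7 k4 0 (.d k15 k11 k10 1
  2))))))] .n) (.c k90 (.f k245 k5 11 (.f k250 k240 2 (.q k81 [(.s k89 k93 1 (.s k243 k162 12 (.s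
  k166 k12 14 (.d k247 k251 k4 1 12)))), (.s k89 k93 1 (.s k241 k13 13 (.s k1 k161 11 (.d k253 k249
  k169 1 13)))), (.s k243 k162 12 (.s k251 k247 1 (.s k249 k248 0 (.s k252 k246 2 (.d k253 k254 k241
  0 1)))))] .n))) (.c k95 (.q k1 [(.s k5 k245 11 (.s k13 k9 1 (.s k89 k241 13 (.s k93 k81 1 (.d k253
  k173 k169 11 13))))), (.s k3 k2 0 (.s k87 k171 13 (.s k86 k84 0 (.d k169 k253 k252 13 14)))), (.s
  k3 k2 0 (.s k5 k245 11 (.s k9 k13 1 (.s k6 k12 2 (.s k7 k4 0 (.d k15 k11 k10 1 2))))))] .n) (.c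
  k175 (.l (.s k245 k5 11 (.s k240 k250 2 (.s k80 k160 11 (.d k90 k95 k15 2 14))))) (.c k240 (.q k1
  [(.s k3 k2 0 (.s k87 k171 13 (.s k86 k84 0 (.d k169 k253 k252 13 14)))), (.s k5 k245 11 (.s k13 k9
  1 (.s k89 k241 13 (.s k93 k81 1 (.d k253 k173 k169 11 13))))), (.s k3 k2 0 (.s k5 k245 11 (.s k9
  k13 1 (.s k6 k12 2 (.s k7 k4 0 (.d k15 k11 k10 1 2))))))] .n) (.c k245 (.q k247 [(.s k166 k4 12
  (.s k243 k251 1 (.s k81 k162 12 (.d k89 k93 k12 1 14)))), (.s k166 k4 12 (.s k167 k164 0 (.s k87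
  k7 11 (.s k3 k171 13 (.s k1 k2 0 (.s k169 k253 13 (.d k86 k84 k252 0 14)))))))] (.c k4 (.l (.s
  k243 k251 1 (.s k81 k162 12 (.s k89 k93 1 (.s k241 k13 13 (.s k240 k242 0 (.s k80 k160 11 (.d k90
  k95 k15 2 14)))))))) (.c k166 (.f k243 k251 1 (.q k89 [(.d k81 k162 k93 12 1), (.s k241 k13 13 (.s
  k240 k242 0 (.s k80 k160 11 (.d k90 k95 k15 2 14))))] (.c k162 (.q k174 [(.d k93 k81 k12 1 12),
  (.s k241 k13 13 (.s k240 k242 0 (.s k80 k160 11 (.d k90 k95 k15 2 14))))] .n) (.c k174 (.l (.s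
  k162 k81 12 (.s k241 k13 13 (.s k240 k242 0 (.s k80 k160 11 (.d k90 k95 k15 2 14)))))) .n))))
  .n))) (.c k250 (.l (.s k5 k245 11 (.s k15 k10 2 (.s k90 k240 14 (.d k95 k80 k175 2 11)))))
  .n))))))))))))

def t43_234 : T TT 256 :=
  (.q k86 [(.s k84 k87 0 (.s k252 k168 13 (.s k169 k3 14 (.s k253 k1 13 (.d k255 k254 k170 0
  14))))), (.s k87 k84 0 (.s k255 k170 14 (.s k3 k171 13 (.s k169 k252 14 (.d k1 k2 k253 0 13)))))]
  (.c k1 (.q k4 [(.s k12 k8 1 (.s k166 k247 12 (.s k89 k243 14 (.s k93 k81 1 (.d k255 k174 k170 12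
  14))))), (.s k84 k87 0 (.s k166 k247 12 (.s k6 k246 11 (.s k7 k5 0 (.d k244 k164 k165 11 12))))),
  (.s k12 k8 1 (.s k84 k87 0 (.s k164 k244 11 (.s k88 k240 13 (.s k92 k80 1 (.d k252 k172 k168 11
  13))))))] .n) (.c k3 (.q k23 [(.s k87 k84 0 (.s k212 k149 8 (.s k215 k151 7 (.s k150 k20 8 (.d
  k214 k213 k22 0 7))))), (.s k149 k212 8 (.s k170 k255 14 (.s k128 k191 6 (.s k192 k64 7 (.s k63
  k106 14 (.d k21 k213 k42 7 6)))))), (.s k87 k84 0 (.s k215 k151 7 (.s k255 k170 14 (.s k195 k235 5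
  (.s k65 k130 8 (.s k105 k125 5 (.d k150 k20 k60 8 14)))))))] (.c k87 (.l (.s k149 k212 8 (.s k21
  k213 7 (.s k22 k20 0 (.s k42 k63 6 (.s k2 k62 5 (.d k170 k255 k254 14 13))))))) .n)) (.c k84 (.q
  k4 [(.s k12 k8 1 (.s k166 k247 12 (.s k89 k243 14 (.s k93 k81 1 (.d k255 k174 k170 12 14))))), (.s
  k12 k8 1 (.s k166 k247 12 (.s k6 k246 11 (.s k3 k9 2 (.s k1 k2 0 (.d k169 k253 k252 13 14)))))),
  (.s k166 k247 12 (.s k6 k246 11 (.s k5 k7 0 (.s k10 k15 2 (.s k170 k255 14 (.d k2 k14 k254 1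
  13)))))), (.s k12 k8 1 (.s k170 k255 14 (.s k2 k254 13 (.s k3 k1 0 (.s k6 k9 2 (.s k5 k7 0 (.d k10
  k14 k15 1 2)))))))] .n) (.c k87 (.q k4 [(.s k12 k8 1 (.s k166 k247 12 (.s k89 k243 14 (.s k93 k81
  1 (.d k255 k174 k170 12 14))))), (.s k12 k8 1 (.s k166 k247 12 (.s k6 k246 11 (.s k3 k9 2 (.s k1
  k2 0 (.d k169 k253 k252 13 14)))))), (.s k12 k8 1 (.s k170 k255 14 (.s k2 k254 13 (.s k3 k1 0 (.s
  k6 k9 2 (.s k10 k14 1 (.d k5 k7 k15 0 2))))))), (.s k166 k247 12 (.s k6 k246 11 (.s k170 k255 14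
  (.s k2 k254 13 (.s k10 k14 1 (.d k5 k7 k15 0 2))))))] (.c k7 (.l (.s k12 k8 1 (.s k255 k170 14 (.s
  k93 k174 12 (.s k89 k81 1 (.d k166 k247 k243 12 14)))))) .n)) (.c k168 (.l (.s k87 k84 0 (.s k255
  k170 14 (.s k3 k171 13 (.s k169 k252 14 (.d k1 k2 k253 0 13)))))) (.c k169 (.q k106 [(.s k64 k127
  6 (.s k66 k126 5 (.s k67 k65 0 (.s k84 k87 0 (.d k124 k104 k105 5 6))))), (.s k127 k64 6 (.s k255
  k170 14 (.s k63 k191 7 (.s k21 k42 6 (.d k149 k213 k192 7 14))))), (.s k84 k87 0 (.s k126 k66 5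
  (.s k252 k168 13 (.s k63 k189 8 (.s k21 k42 6 (.d k149 k213 k192 7 14))))))] .n) (.c k170 (.q k106
  [(.s k64 k127 6 (.s k66 k126 5 (.s k67 k65 0 (.s k84 k87 0 (.d k124 k104 k105 5 6))))), (.s k84
  k87 0 (.s k126 k66 5 (.s k252 k168 13 (.s k63 k189 8 (.s k21 k42 6 (.d k149 k213 k192 7 14)))))),
  (.s k64 k127 6 (.s k84 k87 0 (.s k192 k128 7 (.s k149 k63 14 (.s k252 k168 13 (.d k212 k23 k232 8
  5)))))), (.s k64 k127 6 (.s k66 k126 5 (.s k192 k128 7 (.s k3 k129 8 (.s k1 k2 0 (.d k169 k253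
  k252 13 14))))))] .n) (.c k171 (.l (.s k84 k87 0 (.s k252 k168 13 (.s k3 k169 14 (.s k170 k255 14
  (.d k2 k1 k254 0 13)))))) (.c k252 (.q k5 [(.s k15 k10 2 (.s k165 k245 11 (.s k90 k240 14 (.s k95
  k80 2 (.d k255 k175 k170 11 14))))), (.s k87 k84 0 (.s k165 k245 11 (.s k7 k244 12 (.s k4 k6 0 (.d
  k247 k167 k166 11 12))))), (.s k15 k10 2 (.s k87 k84 0 (.s k255 k170 14 (.s k3 k171 13 (.s k7 k11
  1 (.s k4 k6 0 (.d k247 k167 k166 11 12)))))))] .n) (.c k253 (.l (.s k84 k87 0 (.s k170 k255 14 (.s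
  k2 k254 13 (.s k252 k168 13 (.d k3 k1 k169 0 14)))))) (.c k255 (.q k192 [(.s k64 k128 7 (.s k84
  k87 0 (.s k104 k124 5 (.s k60 k148 13 (.s k40 k20 5 (.d k168 k232 k252 7 13)))))), (.s k64 k128 7
  (.s k106 k127 6 (.s k66 k126 5 (.s k3 k129 8 (.s k1 k2 0 (.d k169 k253 k252 13 14)))))), (.s k84
  k87 0 (.s k252 k168 13 (.s k212 k232 5 (.s k149 k23 8 (.s k21 k213 7 (.d k63 k106 k42 14 6)))))),
  (.s k64 k128 7 (.s k87 k84 0 (.s k127 k106 6 (.s k67 k107 5 (.s k65 k66 0 (.d k105 k125 k124 5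
  6))))))] .n) .n))))))))))))

def t43_235 : T TT 256 :=
  (.q k149 [(.s k21 k213 7 (.s k63 k42 6 (.s k106 k192 14 (.s k127 k64 6 (.d k255 k191 k170 7
  14))))), (.s k21 k213 7 (.s k170 k255 14 (.s k128 k191 6 (.s k192 k64 7 (.d k63 k42 k106 6
  14)))))] (.c k21 (.f k170 k255 14 (.q k195 [(.s k130 k65 8 (.s k150 k190 5 (.s k20 k215 8 (.d k60
  k40 k105 5 14)))), (.s k128 k191 6 (.s k130 k65 8 (.s k129 k131 0 (.s k192 k64 7 (.s k66 k3 8 (.d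
  k194 k193 k2 0 7)))))), (.s k128 k191 6 (.s k192 k64 7 (.s k63 k106 14 (.s k193 k194 0 (.s k105
  k61 13 (.s k150 k60 14 (.d k151 k107 k148 13 0)))))))] (.c k107 (.q k171 [(.s k65 k130 8 (.s k169
  k168 0 (.s k129 k189 5 (.d k1 k193 k253 7 13)))), (.s k130 k65 8 (.s k150 k190 5 (.s k20 k215 8
  (.d k60 k40 k105 5 14)))), (.s k169 k168 0 (.s k1 k253 13 (.s k3 k2 0 (.s k131 k67 7 (.d k191 k151
  k128 5 6)))))] .n) (.c k171 (.q k107 [(.s k130 k65 8 (.s k150 k190 5 (.d k151 k148 k63 0 13))),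
  (.s k63 k151 13 (.s k192 k106 14 (.d k128 k191 k64 6 7))), (.s k130 k65 8 (.s k150 k190 5 (.s k20
  k215 8 (.d k60 k40 k105 5 14))))] (.c k3 (.q k87 [(.s k86 k84 0 (.s k23 k212 8 (.d k151 k63 k215
  13 7))), (.s k127 k67 5 (.s k64 k106 6 (.d k128 k191 k192 6 7)))] (.c k23 (.l (.s k63 k151 13 (.s
  k106 k192 14 (.d k127 k67 k64 5 6)))) (.c k63 (.q k23 [(.d k86 k84 k212 0 8), (.s k127 k67 5 (.s
  k64 k106 6 (.d k128 k191 k192 6 7)))] (.c k127 (.l (.s k191 k128 6 (.d k86 k84 k212 0 8))) (.c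
  k191 (.l (.s k127 k67 5 (.d k86 k84 k212 0 8))) .n))) .n))) (.c k87 (.q k3 [(.s k130 k65 8 (.s
  k131 k67 7 (.d k128 k129 k191 0 6))), (.s k130 k65 8 (.s k150 k190 5 (.d k151 k148 k63 0 13))),
  (.s k63 k151 13 (.s k192 k106 14 (.d k128 k191 k64 6 7)))] .n) .n))) .n)))) (.c k42 (.l (.s k213
  k21 7 (.s k255 k170 14 (.s k192 k234 6 (.s k106 k63 14 (.d k64 k127 k128 6 7)))))) (.c k63 (.f
  k213 k21 7 (.q k3 [(.s k1 k2 0 (.s k169 k253 13 (.s k86 k252 14 (.s k87 k84 0 (.d k255 k171 k170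
  13 14))))), (.s k1 k2 0 (.s k253 k169 13 (.s k193 k233 5 (.s k65 k129 7 (.d k105 k125 k61 5
  13))))), (.s k255 k170 14 (.s k192 k234 6 (.s k64 k128 7 (.s k66 k129 8 (.s k106 k127 6 (.s k86
  k126 5 (.d k87 k171 k84 13 0)))))))] (.c k107 (.q k171 [(.d k255 k87 k170 13 14), (.s k1 k2 0 (.s
  k169 k253 13 (.s k168 k170 0 (.d k252 k86 k84 14 13))))] (.c k151 (.q k195 [(.d k255 k87 k170 13
  14), (.s k1 k2 0 (.s k65 k130 8 (.s k105 k125 5 (.d k193 k129 k61 7 13))))] .n) (.c k170 (.l (.s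
  k1 k2 0 (.s k87 k255 13 (.s k86 k84 0 (.d k169 k253 k252 13 14))))) (.c k195 (.q k151 [(.d k255
  k87 k170 13 14)] (.c k87 (.l (.s k191 k131 5 (.d k170 k128 k255 6 14))) (.c k170 (.l (.s k87 k255
  13 (.s k215 k23 7 (.d k150 k20 k148 8 0)))) (.c k215 (.l (.d k255 k87 k170 13 14)) (.c k255 (.q
  k215 [(.d k150 k148 k20 0 8), (.s k23 k87 7 (.d k212 k214 k86 0 8))] (.c k127 (.l (.s k191 k131 5
  (.d k150 k148 k20 0 8))) (.c k191 (.q k127 [(.d k150 k148 k20 0 8), (.s k23 k87 7 (.d k212 k214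
  k86 0 8))] .n) .n))) .n))))) .n)))) (.c k171 (.q k107 [(.s k1 k2 0 (.s k169 k253 13 (.s k129 k189
  5 (.s k192 k66 8 (.d k255 k234 k170 6 14))))), (.s k2 k1 0 (.s k170 k255 14 (.s k86 k254 13 (.s
  k84 k87 0 (.s k212 k23 8 (.s k20 k148 7 (.d k215 k214 k150 0 8))))))), (.s k255 k170 14 (.s k192
  k234 6 (.s k64 k128 7 (.s k66 k129 8 (.s k65 k67 0 (.s k105 k125 5 (.d k106 k104 k127 0 6)))))))]
  (.c k170 (.l (.s k1 k2 0 (.s k169 k253 13 (.s k86 k252 14 (.s k84 k87 0 (.s k212 k23 8 (.s k20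
  k148 7 (.d k215 k214 k150 0 8)))))))) (.c k255 (.l (.s k1 k2 0 (.s k253 k169 13 (.s k193 k233 5
  (.s k65 k129 7 (.d k105 k125 k61 5 13)))))) .n))) .n)))) (.c k64 (.f k170 k255 14 (.f k191 k128 6
  (.q k171 [(.s k131 k151 5 (.s k169 k168 0 (.s k188 k150 6 (.d k189 k190 k129 0 5)))), (.s k168
  k169 0 (.s k84 k252 13 (.s k86 k87 0 (.s k212 k23 8 (.s k148 k20 7 (.d k151 k150 k131 0 5)))))),
  (.s k21 k213 7 (.s k169 k168 0 (.s k1 k253 13 (.s k61 k41 5 (.s k129 k189 5 (.d k193 k65 k105 7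
  13)))))), (.s k21 k213 7 (.s k63 k42 6 (.s k151 k131 5 (.s k195 k107 13 (.s k130 k65 8 (.d k150
  k148 k190 0 5))))))] (.c k148 (.l (.s k131 k151 5 (.s k169 k168 0 (.s k188 k150 6 (.d k189 k190
  k129 0 5))))) (.c k195 (.q k215 [(.s k150 k20 8 (.d k151 k148 k131 0 5)), (.s k151 k131 5 (.s k23
  k87 7 (.s k212 k86 8 (.d k213 k214 k21 0 7))))] (.c k131 (.l (.s k20 k150 8 (.s k21 k213 7 (.s k23
  k22 0 (.s k86 k212 8 (.d k87 k84 k151 0 7)))))) (.c k151 (.l (.s k150 k20 8 (.s k169 k168 0 (.s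
  k188 k131 6 (.d k189 k129 k190 5 0))))) .n))) (.c k215 (.q k195 [(.s k130 k65 8 (.s k150 k190 5
  (.d k151 k148 k131 0 5))), (.s k21 k213 7 (.s k63 k42 6 (.d k151 k131 k107 5 13))), (.s k130 k65 8
  (.s k169 k168 0 (.s k189 k129 5 (.d k190 k188 k150 0 5))))] .n) .n)))))) (.c k106 (.f k21 k213 7
  (.q k169 [(.s k1 k253 13 (.s k129 k189 5 (.s k193 k65 7 (.d k61 k41 k105 5 13)))), (.s k63 k42 6
  (.s k170 k255 14 (.s k189 k129 5 (.s k252 k126 8 (.d k168 k171 k84 0 13))))), (.s k1 k253 13 (.s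
  k3 k2 0 (.s k86 k252 14 (.s k87 k84 0 (.d k255 k171 k170 13 14)))))] (.c k107 (.q k171 [(.d k170
  k168 k255 0 14), (.s k1 k253 13 (.s k3 k2 0 (.s k86 k252 14 (.d k87 k255 k84 13 0))))] (.c k104
  (.q k105 [(.d k170 k168 k255 0 14), (.s k1 k253 13 (.d k41 k233 k61 7 5))] .n) (.c k105 (.q k104
  [(.d k170 k168 k255 0 14)] (.c k40 (.l (.d k170 k168 k255 0 14)) (.c k168 (.l (.s k1 k253 13 (.s
  k3 k2 0 (.d k255 k87 k170 13 14)))) (.c k170 (.q k40 [(.s k1 k253 13 (.s k60 k20 5 (.s k61 k41 5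
  (.d k63 k42 k62 6 0)))), (.s k20 k60 5 (.s k150 k215 8 (.s k131 k188 6 (.d k151 k148 k191 0 5)))),
  (.s k1 k253 13 (.s k3 k2 0 (.s k86 k252 14 (.d k87 k255 k84 13 0))))] (.c k42 (.q k234 [(.s k1
  k253 13 (.s k168 k232 7 (.s k252 k84 13 (.d k3 k2 k86 0 14)))), (.s k20 k60 5 (.s k150 k215 8 (.s
  k131 k188 6 (.d k151 k148 k191 0 5))))] (.c k252 (.l (.s k1 k253 13 (.s k3 k2 0 (.s k41 k61 5 (.d
  k60 k22 k20 6 5))))) .n)) (.c k234 (.l (.s k42 k63 6 (.s k1 k253 13 (.s k3 k2 0 (.s k41 k61 5 (.d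
  k60 k20 k22 5 6)))))) .n))) (.c k255 (.l (.s k1 k253 13 (.s k3 k2 0 (.s k252 k86 14 (.d k168 k170
  k84 0 13))))) .n))))) (.c k255 (.l (.s k1 k253 13 (.s k3 k2 0 (.s k168 k170 0 (.d k252 k86 k84 14
  13))))) .n)))) (.c k171 (.q k107 [(.s k1 k253 13 (.s k129 k189 5 (.s k193 k65 7 (.d k61 k41 k105 5
  13)))), (.s k63 k42 6 (.s k189 k129 5 (.s k252 k126 8 (.s k84 k168 13 (.d k86 k87 k3 0 14))))),
  (.s k253 k1 13 (.s k255 k170 14 (.s k252 k254 0 (.s k84 k168 13 (.d k86 k87 k3 0 14)))))] .n)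
  .n)))) (.c k107 (.q k171 [(.s k21 k213 7 (.s k63 k42 6 (.s k106 k192 14 (.s k127 k64 6 (.d k255
  k191 k170 7 14))))), (.s k170 k255 14 (.s k169 k168 0 (.s k189 k129 5 (.s k191 k128 6 (.s k188
  k190 0 (.d k131 k151 k150 5 6))))))] (.c k170 (.f k213 k21 7 (.q k105 [(.s k65 k125 5 (.s k193 k61
  13 (.s k1 k129 7 (.d k253 k233 k169 5 13)))), (.s k65 k125 5 (.s k195 k130 8 (.s k150 k60 14 (.s
  k151 k148 0 (.s k215 k20 8 (.s k23 k87 7 (.d k212 k214 k86 0 8)))))))] (.c k65 (.q k1 [(.s k193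
  k61 13 (.d k253 k233 k169 5 13)), (.s k3 k2 0 (.s k255 k87 13 (.s k192 k234 6 (.s k64 k128 7 (.d
  k106 k127 k63 6 14)))))] (.c k233 (.l (.s k3 k2 0 (.s k87 k255 13 (.s k86 k84 0 (.d k169 k253 k252
  13 14))))) .n)) (.c k125 (.l (.s k193 k61 13 (.s k253 k233 5 (.s k1 k169 13 (.s k3 k2 0 (.s k129
  k65 7 (.s k192 k66 8 (.d k255 k234 k87 6 13)))))))) .n)))) (.c k191 (.l (.s k213 k21 7 (.s k255
  k170 14 (.s k192 k234 6 (.s k64 k128 7 (.d k106 k127 k63 6 14)))))) (.c k255 (.f k21 k213 7 (.f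
  k63 k42 6 (.l (.s k192 k106 14 (.s k128 k64 7 (.s k170 k191 6 (.s k169 k168 0 (.s k1 k253 13 (.s
  k3 k2 0 (.d k129 k189 k66 5 8)))))))))) .n)))) (.c k127 (.l (.s k21 k213 7 (.s k63 k42 6 (.s k170
  k255 14 (.s k128 k191 6 (.d k192 k64 k106 7 14)))))) (.c k170 (.q k105 [(.s k65 k125 5 (.s k193
  k61 13 (.s k1 k129 7 (.s k213 k21 7 (.d k253 k233 k169 5 13))))), (.s k21 k213 7 (.s k63 k42 6 (.s
  k65 k125 5 (.s k106 k192 14 (.s k107 k104 0 (.d k195 k130 k151 8 13)))))), (.s k65 k125 5 (.s k193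
  k61 13 (.s k195 k130 8 (.s k192 k194 0 (.s k64 k128 7 (.d k106 k127 k63 6 14)))))), (.s k21 k213 7
  (.s k61 k193 13 (.s k63 k42 6 (.s k60 k62 0 (.s k150 k195 14 (.d k20 k40 k215 5 8))))))] (.c k107
  (.q k171 [(.s k65 k125 5 (.s k193 k61 13 (.s k1 k129 7 (.s k213 k21 7 (.d k253 k233 k169 5
  13))))), (.s k21 k213 7 (.s k61 k193 13 (.s k63 k42 6 (.s k60 k62 0 (.s k150 k195 14 (.d k20 k40
  k215 5 8)))))), (.s k65 k125 5 (.s k193 k61 13 (.s k195 k130 8 (.s k192 k194 0 (.s k64 k128 7 (.d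
  k106 k127 k63 6 14))))))] (.c k61 (.q k1 [(.s k65 k125 5 (.s k129 k193 7 (.d k169 k189 k253 5
  13))), (.s k3 k2 0 (.s k21 k213 7 (.s k63 k42 6 (.s k106 k192 14 (.s k127 k64 6 (.d k255 k191 k87
  7 13))))))] .n) (.c k193 (.q k1 [(.s k21 k213 7 (.s k41 k61 5 (.d k169 k233 k253 7 13))), (.s k3
  k2 0 (.s k65 k125 5 (.s k87 k255 13 (.s k86 k84 0 (.s k67 k124 6 (.d k195 k131 k130 7 8))))))] .n)
  (.c k253 (.q k1 [(.s k21 k213 7 (.d k61 k193 k41 13 5)), (.s k3 k2 0 (.s k65 k125 5 (.s k87 k255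
  13 (.s k86 k84 0 (.s k67 k124 6 (.d k195 k131 k130 7 8))))))] (.c k61 (.l (.s k3 k2 0 (.s k21 k213
  7 (.s k63 k42 6 (.s k106 k192 14 (.s k127 k64 6 (.d k255 k191 k87 7 13))))))) .n)) .n)))) (.c k171
  (.q k107 [(.s k106 k104 0 (.s k64 k127 6 (.d k192 k128 k63 7 14))), (.s k21 k213 7 (.s k61 k193 13
  (.s k1 k41 5 (.s k125 k65 5 (.d k253 k169 k189 13 7)))))] (.c k168 (.q k169 [(.s k1 k253 13 (.s
  k21 k213 7 (.d k41 k233 k61 7 5))), (.s k21 k213 7 (.s k63 k42 6 (.d k106 k104 k192 0 14))), (.s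
  k1 k253 13 (.s k65 k125 5 (.d k129 k189 k193 5 7)))] .n) (.c k169 (.q k168 [(.s k106 k104 0 (.s
  k64 k127 6 (.d k192 k128 k63 7 14))), (.s k21 k213 7 (.s k63 k42 6 (.s k65 k125 5 (.d k195 k130
  k151 8 13))))] (.c k63 (.l (.s k84 k252 13 (.s k86 k87 0 (.s k124 k67 6 (.d k104 k106 k64 0 5)))))
  (.c k106 (.q k232 [(.s k40 k104 7 (.s k60 k20 5 (.s k65 k125 5 (.d k195 k130 k150 8 14)))), (.s
  k84 k252 13 (.s k86 k87 0 (.s k104 k40 7 (.d k124 k64 k67 5 6)))), (.s k21 k213 7 (.s k65 k125 5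
  (.s k195 k130 8 (.d k63 k42 k151 6 13))))] (.c k42 (.q k234 [(.s k213 k21 7 (.s k252 k84 13 (.d
  k192 k212 k255 5 6))), (.s k40 k104 7 (.s k60 k20 5 (.s k65 k125 5 (.d k195 k130 k150 8 14))))]
  (.c k40 (.q k41 [(.s k21 k213 7 (.d k61 k1 k193 5 13)), (.s k65 k125 5 (.s k195 k130 8 (.s k150
  k60 14 (.d k151 k148 k63 0 13))))] .n) (.c k41 (.l (.s k40 k104 7 (.s k60 k20 5 (.s k65 k125 5 (.d
  k195 k130 k150 8 14))))) .n))) (.c k234 (.q k42 [(.d k21 k63 k213 6 7), (.s k40 k104 7 (.s k60 k20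
  5 (.s k65 k125 5 (.d k195 k130 k150 8 14))))] .n) .n))) (.c k232 (.l (.s k106 k104 0 (.s k21 k213
  7 (.d k63 k42 k192 6 14)))) .n)))) .n))) .n))) (.c k171 (.q k107 [(.s k21 k213 7 (.s k63 k42 6 (.s
  k106 k192 14 (.s k127 k64 6 (.d k255 k191 k170 7 14))))), (.s k21 k213 7 (.s k63 k42 6 (.s k195
  k151 13 (.s k65 k130 8 (.s k105 k125 5 (.s k60 k150 14 (.d k61 k62 k193 0 13))))))), (.s k21 k213
  7 (.s k170 k255 14 (.s k128 k191 6 (.s k192 k64 7 (.d k63 k42 k106 6 14))))), (.s k21 k213 7 (.s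
  k63 k42 6 (.s k106 k192 14 (.s k105 k104 0 (.s k65 k125 5 (.d k195 k130 k151 8 13))))))] (.c k21
  (.q k1 [(.s k3 k2 0 (.s k169 k253 13 (.s k129 k189 5 (.s k192 k66 8 (.s k64 k128 7 (.d k106 k127
  k63 6 14)))))), (.s k170 k255 14 (.s k128 k191 6 (.s k64 k192 7 (.s k127 k106 6 (.s k87 k67 5 (.s
  k86 k84 0 (.d k2 k3 k254 0 13))))))), (.s k169 k253 13 (.s k129 k189 5 (.s k65 k193 7 (.s k130
  k195 8 (.s k131 k128 0 (.s k150 k188 6 (.d k170 k190 k255 5 14)))))))] (.c k128 (.l (.s k3 k2 0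
  (.s k169 k253 13 (.s k129 k189 5 (.s k65 k193 7 (.s k66 k192 8 (.s k67 k64 0 (.d k195 k131 k130 7
  8)))))))) (.c k169 (.l (.s k3 k2 0 (.s k170 k255 14 (.s k128 k191 6 (.s k192 k64 7 (.s k129 k66 8
  (.s k65 k193 7 (.d k130 k131 k195 0 8)))))))) (.c k192 (.l (.s k169 k253 13 (.s k129 k189 5 (.s
  k65 k193 7 (.s k170 k255 14 (.s k128 k191 6 (.d k130 k131 k195 0 8))))))) .n)))) (.c k42 (.l (.s
  k213 k21 7 (.s k255 k170 14 (.s k192 k234 6 (.s k106 k63 14 (.d k64 k127 k128 6 7)))))) (.c k63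
  (.f k255 k170 14 (.f k213 k21 7 (.l (.s k192 k234 6 (.s k64 k128 7 (.s k106 k127 6 (.s k105 k104 0
  (.s k65 k125 5 (.s k193 k61 13 (.d k195 k194 k130 0 8)))))))))) (.c k213 (.q k4 [(.s k12 k8 1 (.s
  k166 k247 12 (.s k89 k243 14 (.s k93 k81 1 (.d k255 k174 k170 12 14))))), (.s k12 k8 1 (.s k166
  k247 12 (.s k132 k183 4 (.s k192 k72 9 (.s k64 k128 7 (.d k106 k127 k63 6 14)))))), (.s k12 k8 1
  (.s k170 k255 14 (.s k128 k191 6 (.s k192 k64 7 (.s k132 k72 9 (.s k136 k140 1 (.d k68 k196 k204 7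
  9))))))), (.s k166 k247 12 (.s k132 k183 4 (.s k170 k255 14 (.s k128 k191 6 (.s k136 k140 1 (.d
  k68 k196 k204 7 9))))))] (.c k196 (.l (.s k12 k8 1 (.s k255 k170 14 (.s k93 k174 12 (.s k89 k81 1
  (.d k166 k247 k243 12 14)))))) .n)) .n))))) (.c k191 (.l (.s k213 k21 7 (.s k255 k170 14 (.s k192
  k234 6 (.s k64 k128 7 (.d k106 k127 k63 6 14)))))) (.c k192 (.f k213 k21 7 (.q k90 [(.s k80 k95 2
  (.s k208 k31 10 (.s k223 k218 2 (.d k16 k144 k154 7 10)))), (.s k170 k255 14 (.s k10 k250 11 (.s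
  k5 k15 2 (.s k245 k165 11 (.s k197 k229 3 (.s k101 k53 11 (.d k69 k133 k117 7 3)))))))] (.c k95
  (.l (.s k208 k31 10 (.s k223 k218 2 (.s k255 k170 14 (.s k207 k239 3 (.s k69 k138 10 (.s k101 k117
  3 (.d k154 k16 k48 10 14)))))))) (.c k107 (.q k171 [(.s k80 k95 2 (.s k208 k31 10 (.s k223 k218 2
  (.d k16 k144 k154 7 10)))), (.s k170 k255 14 (.s k10 k250 11 (.s k169 k168 0 (.s k11 k248 12 (.s
  k8 k9 0 (.d k251 k91 k89 11 12))))))] .n) (.c k171 (.q k107 [(.s k80 k95 2 (.s k208 k31 10 (.s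
  k223 k218 2 (.d k16 k144 k154 7 10)))), (.s k170 k255 14 (.s k10 k250 11 (.s k5 k15 2 (.s k245
  k165 11 (.s k197 k229 3 (.s k101 k53 11 (.d k69 k133 k117 7 3)))))))] (.c k95 (.l (.s k208 k31 10
  (.s k223 k218 2 (.s k255 k170 14 (.s k207 k239 3 (.s k69 k138 10 (.s k101 k117 3 (.d k154 k16 k48
  10 14)))))))) .n)) .n))))) (.c k213 (.q k48 [(.s k16 k32 3 (.s k154 k223 10 (.s k101 k207 14 (.s
  k117 k69 3 (.d k255 k186 k170 10 14))))), (.s k16 k32 3 (.s k154 k223 10 (.s k144 k159 2 (.s k192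
  k96 11 (.s k64 k128 7 (.d k106 k127 k63 6 14)))))), (.s k170 k255 14 (.s k128 k191 6 (.s k192 k64
  7 (.s k144 k96 11 (.s k154 k159 2 (.s k138 k186 3 (.d k207 k69 k101 10 14)))))))] (.c k107 (.q
  k171 [(.s k16 k32 3 (.s k154 k223 10 (.s k101 k207 14 (.s k117 k69 3 (.d k255 k186 k170 10
  14))))), (.s k170 k255 14 (.s k169 k168 0 (.s k189 k129 5 (.s k191 k128 6 (.s k131 k151 5 (.d k188
  k190 k150 0 6)))))), (.s k16 k32 3 (.s k154 k223 10 (.s k144 k159 2 (.s k192 k96 11 (.s k64 k128 7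
  (.d k106 k127 k63 6 14))))))] .n) (.c k154 (.l (.s k16 k32 3 (.s k170 k255 14 (.s k128 k191 6 (.s
  k192 k64 7 (.s k144 k96 11 (.s k80 k208 7 (.d k160 k176 k240 3 11)))))))) (.c k171 (.q k107 [(.s
  k16 k32 3 (.s k154 k223 10 (.s k101 k207 14 (.s k117 k69 3 (.d k255 k186 k170 10 14))))), (.s k16
  k32 3 (.s k154 k223 10 (.s k144 k159 2 (.s k192 k96 11 (.s k64 k128 7 (.d k106 k127 k63 6
  14)))))), (.s k170 k255 14 (.s k128 k191 6 (.s k192 k64 7 (.s k144 k96 11 (.s k154 k159 2 (.s k138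
  k186 3 (.d k207 k69 k101 10 14)))))))] (.c k154 (.l (.s k16 k32 3 (.s k170 k255 14 (.s k128 k191 6
  (.s k192 k64 7 (.s k144 k96 11 (.s k80 k208 7 (.d k160 k176 k240 3 11)))))))) .n)) .n)))) (.c k234
  (.l (.s k21 k213 7 (.s k63 k42 6 (.s k106 k192 14 (.s k255 k170 14 (.d k127 k64 k191 6 7)))))) (.c
  k255 (.q k195 [(.s k21 k213 7 (.s k63 k42 6 (.s k65 k130 8 (.s k105 k125 5 (.s k107 k151 13 (.d
  k106 k192 k104 14 0)))))), (.s k65 k130 8 (.s k105 k125 5 (.s k193 k61 13 (.s k1 k129 7 (.s k213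
  k21 7 (.d k253 k233 k169 5 13)))))), (.s k21 k213 7 (.s k63 k42 6 (.s k65 k130 8 (.s k192 k106 14
  (.s k193 k194 0 (.s k1 k129 7 (.d k61 k41 k105 5 13))))))), (.s k65 k130 8 (.s k105 k125 5 (.s
  k193 k61 13 (.s k192 k194 0 (.s k64 k128 7 (.d k106 k127 k63 6 14)))))), (.s k21 k213 7 (.s k63
  k42 6 (.s k192 k106 14 (.s k193 k194 0 (.s k105 k61 13 (.s k150 k60 14 (.d k151 k107 k148 13
  0)))))))] (.c k105 (.f k21 k213 7 (.l (.s k63 k42 6 (.s k65 k130 8 (.s k192 k106 14 (.s k64 k128 7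
  (.s k66 k67 0 (.s k129 k3 8 (.d k193 k194 k1 0 7))))))))) (.c k107 (.q k171 [(.s k65 k130 8 (.s
  k105 k125 5 (.s k60 k150 14 (.s k61 k193 13 (.s k63 k62 0 (.d k21 k42 k213 6 7)))))), (.s k65 k130
  8 (.s k105 k125 5 (.s k193 k61 13 (.s k1 k129 7 (.s k213 k21 7 (.d k253 k233 k169 5 13)))))), (.s
  k21 k213 7 (.s k63 k42 6 (.s k130 k65 8 (.s k192 k106 14 (.s k128 k64 7 (.s k131 k129 0 (.d k191
  k170 k151 6 5))))))), (.s k65 k130 8 (.s k105 k125 5 (.s k193 k61 13 (.s k192 k194 0 (.s k64 k128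
  7 (.d k106 k127 k63 6 14))))))] (.c k65 (.q k1 [(.s k3 k2 0 (.s k169 k253 13 (.s k252 k86 14 (.d
  k168 k170 k84 0 13)))), (.s k21 k213 7 (.s k61 k41 5 (.s k105 k193 13 (.s k60 k150 14 (.d k63 k42
  k62 6 0)))))] (.c k253 (.l (.s k21 k213 7 (.s k61 k41 5 (.s k193 k105 13 (.s k192 k194 0 (.d k63
  k42 k106 6 14)))))) .n)) (.c k105 (.f k130 k65 8 (.q k106 [(.s k21 k213 7 (.d k63 k192 k42 14 6)),
  (.s k64 k127 6 (.d k192 k63 k128 14 7))] (.c k40 (.q k170 [(.s k21 k213 7 (.d k42 k234 k63 7 6)),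
  (.s k150 k190 5 (.s k151 k148 0 (.d k191 k131 k128 5 6)))] (.c k41 (.l (.s k42 k234 7 (.d k21 k213
  k63 7 6))) (.c k42 (.q k41 [(.s k128 k191 6 (.d k64 k127 k192 6 7)), (.s k21 k213 7 (.s k1 k61 5
  (.d k169 k168 k253 0 13)))] (.c k192 (.l (.s k128 k191 6 (.s k129 k131 0 (.d k169 k168 k189 0
  5)))) .n)) .n))) (.c k63 (.q k170 [(.s k150 k190 5 (.s k151 k148 0 (.d k191 k131 k128 5 6))), (.s
  k169 k168 0 (.s k129 k189 5 (.d k128 k191 k131 6 0)))] (.c k3 (.q k23 [(.s k191 k128 6 (.s k150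
  k190 5 (.d k151 k148 k131 0 5))), (.s k86 k212 8 (.s k2 k254 13 (.d k66 k126 k194 5 7)))] (.c k127
  (.l (.s k191 k128 6 (.s k150 k190 5 (.d k151 k148 k131 0 5)))) (.c k191 (.l (.s k127 k64 6 (.s k21
  k213 7 (.s k20 k22 0 (.d k150 k190 k215 5 8))))) .n))) (.c k23 (.q k3 [(.s k191 k128 6 (.d k131
  k151 k67 5 7)), (.s k1 k2 0 (.d k169 k168 k253 0 13))] (.c k127 (.l (.s k191 k128 6 (.d k131 k151
  k67 5 7))) (.c k191 (.l (.s k127 k64 6 (.s k1 k2 0 (.d k169 k168 k253 0 13)))) .n))) (.c k127 (.l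
  (.s k191 k128 6 (.s k150 k190 5 (.d k151 k148 k131 0 5)))) (.c k128 (.l (.s k127 k64 6 (.s k150
  k190 5 (.s k151 k148 0 (.s k131 k191 5 (.d k169 k168 k188 0 6)))))) (.c k131 (.l (.s k150 k190 5
  (.s k148 k151 0 (.s k168 k169 0 (.d k128 k188 k191 5 6))))) (.c k191 (.l (.s k127 k64 6 (.s k169
  k168 0 (.s k129 k189 5 (.s k131 k128 0 (.d k150 k190 k188 5 6)))))) .n))))))) (.c k170 (.q k40
  [(.s k21 k213 7 (.d k63 k192 k42 14 6)), (.s k64 k127 6 (.d k192 k63 k128 14 7)), (.s k20 k60 5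
  (.s k150 k215 8 (.s k148 k151 0 (.s k212 k84 7 (.s k23 k86 8 (.d k21 k22 k213 0 7))))))] .n) (.c
  k192 (.q k170 [(.s k128 k191 6 (.s k129 k131 0 (.d k169 k168 k189 0 5))), (.s k150 k190 5 (.s k151
  k148 0 (.d k191 k131 k128 5 6)))] (.c k128 (.l (.s k150 k190 5 (.s k151 k148 0 (.s k131 k191 5 (.d
  k169 k168 k188 0 6))))) (.c k131 (.l (.s k128 k191 6 (.s k150 k190 5 (.s k148 k151 0 (.d k168 k188
  k169 5 0))))) (.c k191 (.l (.s k169 k168 0 (.s k129 k189 5 (.s k131 k128 0 (.d k150 k190 k188 5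
  6))))) (.c k213 (.l (.s k234 k42 7 (.s k128 k191 6 (.s k129 k131 0 (.d k169 k168 k189 0 5))))) (.c
  k234 (.l (.s k213 k21 7 (.s k128 k191 6 (.s k129 k131 0 (.d k169 k168 k189 0 5))))) .n))))))
  .n)))))) (.c k130 (.q k1 [(.s k3 k2 0 (.s k169 k253 13 (.s k252 k86 14 (.d k168 k170 k84 0 13)))),
  (.s k21 k213 7 (.s k61 k41 5 (.s k105 k193 13 (.s k60 k150 14 (.d k63 k42 k62 6 0)))))] (.c k170
  (.l (.s k3 k2 0 (.s k131 k67 7 (.s k151 k191 5 (.s k150 k148 0 (.d k169 k188 k253 6 13)))))) (.c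
  k253 (.l (.s k21 k213 7 (.s k61 k41 5 (.s k193 k105 13 (.s k192 k194 0 (.d k63 k42 k106 6 14))))))
  .n))) (.c k193 (.q k1 [(.s k3 k2 0 (.s k169 k253 13 (.s k252 k86 14 (.d k168 k170 k84 0 13)))),
  (.s k3 k2 0 (.s k130 k65 8 (.s k131 k67 7 (.s k128 k129 0 (.d k191 k151 k170 5 6))))), (.s k21
  k213 7 (.s k41 k61 5 (.s k65 k130 8 (.s k105 k125 5 (.d k169 k233 k253 7 13)))))] .n) .n))))) (.c
  k171 (.q k107 [(.s k21 k213 7 (.d k63 k42 k151 6 13)), (.s k65 k130 8 (.s k105 k125 5 (.s k60 k150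
  14 (.s k104 k106 0 (.s k192 k148 13 (.d k193 k194 k61 0 13))))))] (.c k3 (.q k87 [(.s k21 k213 7
  (.d k63 k42 k151 6 13)), (.s k63 k151 13 (.s k127 k67 5 (.d k106 k64 k192 6 14)))] (.c k23 (.l (.s
  k63 k151 13 (.d k21 k42 k213 6 7))) (.c k63 (.q k23 [(.d k86 k84 k212 0 8), (.s k21 k213 7 (.s k20
  k22 0 (.d k215 k151 k150 7 8)))] (.c k127 (.q k191 [(.d k86 k84 k212 0 8), (.s k21 k213 7 (.s k20
  k22 0 (.d k215 k151 k150 7 8)))] .n) (.c k191 (.l (.s k127 k67 5 (.d k86 k84 k212 0 8))) .n))) (.c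
  k151 (.l (.s k21 k213 7 (.s k63 k42 6 (.s k127 k67 5 (.d k106 k192 k64 14 6))))) (.c k192 (.l (.s
  k63 k151 13 (.d k21 k42 k213 6 7))) .n))))) (.c k87 (.q k3 [(.s k21 k213 7 (.d k63 k42 k151 6
  13)), (.s k1 k2 0 (.s k65 k130 8 (.s k105 k125 5 (.d k193 k129 k61 7 13))))] .n) (.c k192 (.l (.s
  k63 k151 13 (.d k21 k42 k213 6 7))) .n)))) .n)))) .n)))))))))))))))

def t43_236 : T TT 256 :=
  (.f k255 k170 14 (.q k105 [(.s k65 k125 5 (.s k195 k130 8 (.s k150 k60 14 (.d k215 k235 k20 5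
  8))))] (.c k20 (.q k1 [(.s k3 k2 0 (.s k169 k253 13 (.s k86 k252 14 (.d k87 k84 k171 0 13)))), (.s
  k65 k125 5 (.s k169 k253 13 (.s k41 k233 7 (.s k61 k21 5 (.d k193 k129 k149 7 13))))), (.s k3 k2 0
  (.s k65 k125 5 (.s k129 k193 7 (.s k66 k192 8 (.s k67 k64 0 (.d k195 k131 k130 7 8))))))] .n) (.c
  k60 (.q k1 [(.s k3 k2 0 (.s k87 k171 13 (.s k86 k84 0 (.d k169 k253 k252 13 14)))), (.s k65 k125 5
  (.s k169 k253 13 (.s k41 k233 7 (.s k61 k21 5 (.d k193 k129 k149 7 13))))), (.s k3 k2 0 (.s k65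
  k125 5 (.s k129 k193 7 (.s k66 k192 8 (.s k67 k64 0 (.d k195 k131 k130 7 8))))))] .n) (.c k65 (.q
  k213 [(.s k149 k21 7 (.s k192 k234 6 (.s k64 k128 7 (.d k106 k127 k63 6 14)))), (.s k149 k21 7 (.s
  k193 k61 13 (.s k253 k233 5 (.s k252 k254 0 (.s k84 k168 13 (.s k86 k87 0 (.d k169 k1 k3 13
  14)))))))] (.c k21 (.l (.s k192 k234 6 (.s k64 k128 7 (.s k106 k127 6 (.s k104 k107 0 (.s k60 k148
  13 (.s k20 k40 5 (.d k150 k215 k195 8 14)))))))) (.c k149 (.f k192 k234 6 (.q k106 [(.d k64 k128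
  k127 7 6), (.s k104 k107 0 (.s k60 k148 13 (.s k20 k40 5 (.d k150 k215 k195 8 14))))] (.c k128 (.q
  k191 [(.d k127 k64 k63 6 7), (.s k104 k107 0 (.s k60 k148 13 (.s k20 k40 5 (.d k150 k215 k195 8
  14))))] .n) (.c k191 (.l (.s k128 k64 7 (.s k104 k107 0 (.s k60 k148 13 (.s k20 k40 5 (.d k150
  k215 k195 8 14)))))) .n)))) .n))) (.c k125 (.q k213 [(.s k149 k21 7 (.s k192 k234 6 (.s k64 k128 7
  (.d k106 k127 k63 6 14)))), (.s k149 k21 7 (.s k193 k61 13 (.s k253 k233 5 (.s k252 k254 0 (.s k84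
  k168 13 (.s k86 k87 0 (.d k169 k1 k3 13 14)))))))] (.c k21 (.l (.s k192 k234 6 (.s k64 k128 7 (.s
  k106 k127 6 (.s k104 k107 0 (.s k60 k148 13 (.s k20 k40 5 (.d k150 k215 k195 8 14)))))))) (.c k149
  (.f k192 k234 6 (.q k106 [(.d k64 k128 k127 7 6), (.s k104 k107 0 (.s k60 k148 13 (.s k20 k40 5
  (.d k150 k215 k195 8 14))))] (.c k128 (.q k191 [(.d k127 k64 k63 6 7), (.s k104 k107 0 (.s k60
  k148 13 (.s k20 k40 5 (.d k150 k215 k195 8 14))))] .n) (.c k191 (.l (.s k128 k64 7 (.s k104 k107 0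
  (.s k60 k148 13 (.s k20 k40 5 (.d k150 k215 k195 8 14)))))) .n)))) .n))) (.c k130 (.l (.s k125 k65
  5 (.s k60 k190 8 (.s k150 k195 14 (.d k20 k40 k215 5 8))))) (.c k150 (.f k125 k65 5 (.q k149 [(.s
  k213 k21 7 (.s k192 k234 6 (.s k64 k128 7 (.d k106 k127 k63 6 14)))), (.s k61 k193 13 (.s k253
  k189 7 (.s k252 k254 0 (.s k84 k168 13 (.s k86 k87 0 (.d k169 k1 k3 13 14))))))] (.c k130 (.l (.s
  k190 k60 8 (.s k21 k213 7 (.s k61 k193 13 (.s k1 k41 5 (.d k253 k189 k169 7 13)))))) (.c k190 (.q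
  k130 [(.s k213 k21 7 (.s k192 k234 6 (.s k64 k128 7 (.d k106 k127 k63 6 14)))), (.s k61 k193 13
  (.s k253 k189 7 (.s k252 k254 0 (.s k84 k168 13 (.s k86 k87 0 (.d k169 k1 k3 13 14))))))] .n)
  .n)))) (.c k190 (.l (.s k65 k125 5 (.s k195 k130 8 (.s k150 k60 14 (.d k215 k235 k20 5 8))))) (.c
  k195 (.q k1 [(.s k3 k2 0 (.s k87 k171 13 (.s k86 k84 0 (.d k169 k253 k252 13 14)))), (.s k65 k125
  5 (.s k193 k129 7 (.s k149 k61 13 (.s k21 k213 7 (.s k63 k42 6 (.s k106 k192 14 (.d k127 k64 k191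
  6 7)))))))] (.c k3 (.l (.s k65 k125 5 (.s k169 k253 13 (.s k41 k233 7 (.s k61 k21 5 (.d k193 k129
  k149 7 13)))))) (.c k253 (.l (.s k3 k2 0 (.s k65 k125 5 (.s k87 k171 13 (.s k86 k84 0 (.s k67 k124
  6 (.s k64 k66 0 (.d k127 k107 k106 5 6)))))))) .n))) (.c k215 (.q k1 [(.s k3 k2 0 (.s k169 k253 13
  (.s k86 k252 14 (.d k87 k84 k171 0 13)))), (.s k65 k125 5 (.s k169 k253 13 (.s k41 k233 7 (.s k61
  k21 5 (.d k193 k129 k149 7 13))))), (.s k3 k2 0 (.s k65 k125 5 (.s k129 k193 7 (.s k66 k192 8 (.s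
  k67 k64 0 (.d k195 k131 k130 7 8))))))] .n) (.c k235 (.l (.s k125 k65 5 (.s k60 k190 8 (.s k20 k40
  5 (.d k150 k215 k195 8 14))))) .n))))))))))))

def t43_238 : T TT 256 :=
  (.q k86 [(.s k84 k87 0 (.s k252 k168 13 (.s k169 k3 14 (.s k253 k1 13 (.d k255 k254 k170 0
  14))))), (.s k87 k84 0 (.s k255 k170 14 (.s k3 k171 13 (.s k169 k252 14 (.d k1 k2 k253 0 13)))))]
  (.c k1 (.q k4 [(.s k12 k8 1 (.s k166 k247 12 (.s k89 k243 14 (.s k93 k81 1 (.d k255 k174 k170 12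
  14))))), (.s k84 k87 0 (.s k166 k247 12 (.s k6 k246 11 (.s k7 k5 0 (.d k244 k164 k165 11 12))))),
  (.s k12 k8 1 (.s k84 k87 0 (.s k164 k244 11 (.s k88 k240 13 (.s k92 k80 1 (.d k252 k172 k168 11
  13))))))] .n) (.c k3 (.q k23 [(.s k87 k84 0 (.s k212 k149 8 (.s k215 k151 7 (.s k150 k20 8 (.d
  k214 k213 k22 0 7))))), (.s k149 k212 8 (.s k170 k255 14 (.s k128 k191 6 (.s k192 k64 7 (.s k63
  k106 14 (.d k21 k42 k213 6 7)))))), (.s k87 k84 0 (.s k215 k151 7 (.s k255 k170 14 (.s k195 k235 5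
  (.s k65 k130 8 (.s k105 k125 5 (.d k150 k20 k60 8 14)))))))] (.c k87 (.l (.s k149 k212 8 (.s k21
  k213 7 (.s k22 k20 0 (.s k42 k63 6 (.s k2 k62 5 (.d k170 k254 k255 13 14))))))) .n)) (.c k84 (.q
  k4 [(.s k12 k8 1 (.s k166 k247 12 (.s k89 k243 14 (.s k93 k81 1 (.d k255 k174 k170 12 14))))), (.s
  k12 k8 1 (.s k166 k247 12 (.s k6 k246 11 (.s k3 k9 2 (.s k1 k2 0 (.d k169 k253 k252 13 14)))))),
  (.s k166 k247 12 (.s k6 k246 11 (.s k5 k7 0 (.s k10 k15 2 (.s k170 k255 14 (.d k2 k14 k254 1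
  13)))))), (.s k12 k8 1 (.s k170 k255 14 (.s k2 k254 13 (.s k3 k1 0 (.s k6 k9 2 (.s k5 k7 0 (.d k10
  k14 k15 1 2)))))))] .n) (.c k87 (.q k4 [(.s k12 k8 1 (.s k166 k247 12 (.s k89 k243 14 (.s k93 k81
  1 (.d k255 k174 k170 12 14))))), (.s k12 k8 1 (.s k166 k247 12 (.s k6 k246 11 (.s k3 k9 2 (.s k1
  k2 0 (.d k169 k253 k252 13 14)))))), (.s k12 k8 1 (.s k170 k255 14 (.s k2 k254 13 (.s k3 k1 0 (.s
  k6 k9 2 (.s k10 k14 1 (.d k5 k7 k15 0 2))))))), (.s k166 k247 12 (.s k6 k246 11 (.s k170 k255 14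
  (.s k2 k254 13 (.s k10 k14 1 (.d k5 k7 k15 0 2))))))] (.c k7 (.l (.s k12 k8 1 (.s k255 k170 14 (.s
  k93 k174 12 (.s k89 k81 1 (.d k166 k247 k243 12 14)))))) .n)) (.c k168 (.l (.s k87 k84 0 (.s k255
  k170 14 (.s k3 k171 13 (.s k169 k252 14 (.d k1 k2 k253 0 13)))))) (.c k169 (.q k106 [(.s k64 k127
  6 (.s k66 k126 5 (.s k67 k65 0 (.s k84 k87 0 (.d k124 k104 k105 5 6))))), (.s k66 k126 5 (.s k170
  k255 14 (.s k2 k254 13 (.s k42 k234 7 (.s k62 k22 5 (.d k194 k130 k150 7 13)))))), (.s k64 k127 6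
  (.s k170 k255 14 (.s k42 k234 7 (.s k63 k21 6 (.d k192 k128 k149 7 14)))))] .n) (.c k170 (.q k102
  [(.s k68 k119 4 (.s k70 k118 3 (.s k71 k69 0 (.s k84 k87 0 (.d k116 k100 k101 3 4))))), (.s k84
  k87 0 (.s k118 k70 3 (.s k252 k168 13 (.s k51 k185 10 (.s k17 k34 4 (.d k153 k221 k204 9 14)))))),
  (.s k68 k119 4 (.s k84 k87 0 (.s k204 k136 9 (.s k153 k51 14 (.s k220 k19 10 (.d k252 k236 k168 3
  13)))))), (.s k68 k119 4 (.s k70 k118 3 (.s k204 k136 9 (.s k3 k137 10 (.s k1 k2 0 (.d k169 k253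
  k252 13 14))))))] .n) (.c k171 (.l (.s k84 k87 0 (.s k252 k168 13 (.s k3 k169 14 (.s k170 k255 14
  (.d k2 k1 k254 0 13)))))) (.c k252 (.q k5 [(.s k15 k10 2 (.s k165 k245 11 (.s k90 k240 14 (.s k95
  k80 2 (.d k255 k175 k170 11 14))))), (.s k87 k84 0 (.s k165 k245 11 (.s k7 k244 12 (.s k4 k6 0 (.d
  k247 k167 k166 11 12))))), (.s k15 k10 2 (.s k87 k84 0 (.s k255 k170 14 (.s k3 k171 13 (.s k7 k11
  1 (.s k4 k6 0 (.d k247 k167 k166 11 12)))))))] .n) (.c k253 (.l (.s k84 k87 0 (.s k170 k255 14 (.s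
  k2 k254 13 (.s k252 k168 13 (.d k3 k1 k169 0 14)))))) (.c k255 (.q k204 [(.s k68 k136 9 (.s k84
  k87 0 (.s k100 k116 3 (.s k48 k152 13 (.s k32 k16 3 (.d k168 k236 k252 9 13)))))), (.s k68 k136 9
  (.s k102 k119 4 (.s k70 k118 3 (.s k3 k137 10 (.s k1 k2 0 (.d k169 k253 k252 13 14)))))), (.s k84
  k87 0 (.s k252 k168 13 (.s k220 k236 3 (.s k153 k19 10 (.s k17 k221 9 (.d k51 k34 k102 4 14)))))),
  (.s k68 k136 9 (.s k87 k84 0 (.s k119 k102 4 (.s k71 k103 3 (.s k69 k70 0 (.d k101 k117 k116 3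
  4))))))] .n) .n))))))))))))

def t43_239 : T TT 256 :=
  (.q k86 [(.s k84 k87 0 (.s k252 k168 13 (.s k169 k3 14 (.s k253 k1 13 (.d k255 k254 k170 0
  14))))), (.s k87 k84 0 (.s k255 k170 14 (.s k3 k171 13 (.s k169 k252 14 (.d k1 k2 k253 0 13)))))]
  (.c k1 (.q k4 [(.s k12 k8 1 (.s k166 k247 12 (.s k89 k243 14 (.s k93 k81 1 (.d k255 k174 k170 12
  14))))), (.s k84 k87 0 (.s k166 k247 12 (.s k6 k246 11 (.s k7 k5 0 (.d k244 k164 k165 11 12))))),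
  (.s k12 k8 1 (.s k84 k87 0 (.s k164 k244 11 (.s k88 k240 13 (.s k92 k80 1 (.d k252 k172 k168 11
  13))))))] .n) (.c k3 (.q k23 [(.s k87 k84 0 (.s k212 k149 8 (.s k215 k151 7 (.s k150 k20 8 (.d
  k214 k213 k22 0 7))))), (.s k149 k212 8 (.s k170 k255 14 (.s k128 k191 6 (.s k192 k64 7 (.s k63
  k106 14 (.d k21 k42 k213 6 7)))))), (.s k87 k84 0 (.s k215 k151 7 (.s k255 k170 14 (.s k195 k235 5
  (.s k65 k130 8 (.s k105 k125 5 (.d k150 k20 k60 8 14)))))))] (.c k87 (.l (.s k149 k212 8 (.s k21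
  k213 7 (.s k22 k20 0 (.s k42 k63 6 (.s k2 k62 5 (.d k170 k254 k255 13 14))))))) .n)) (.c k84 (.q
  k4 [(.s k12 k8 1 (.s k166 k247 12 (.s k89 k243 14 (.s k93 k81 1 (.d k255 k174 k170 12 14))))), (.s
  k12 k8 1 (.s k166 k247 12 (.s k6 k246 11 (.s k3 k9 2 (.s k1 k2 0 (.d k169 k253 k252 13 14)))))),
  (.s k166 k247 12 (.s k6 k246 11 (.s k5 k7 0 (.s k10 k15 2 (.s k170 k255 14 (.d k2 k14 k254 1
  13)))))), (.s k12 k8 1 (.s k170 k255 14 (.s k2 k254 13 (.s k3 k1 0 (.s k6 k9 2 (.s k5 k7 0 (.d k10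
  k14 k15 1 2)))))))] .n) (.c k87 (.q k4 [(.s k12 k8 1 (.s k166 k247 12 (.s k89 k243 14 (.s k93 k81
  1 (.d k255 k174 k170 12 14))))), (.s k12 k8 1 (.s k166 k247 12 (.s k6 k246 11 (.s k3 k9 2 (.s k1
  k2 0 (.d k169 k253 k252 13 14)))))), (.s k12 k8 1 (.s k170 k255 14 (.s k2 k254 13 (.s k3 k1 0 (.s
  k6 k9 2 (.s k10 k14 1 (.d k5 k7 k15 0 2))))))), (.s k166 k247 12 (.s k6 k246 11 (.s k170 k255 14
  (.s k2 k254 13 (.s k10 k14 1 (.d k5 k7 k15 0 2))))))] (.c k7 (.l (.s k12 k8 1 (.s k255 k170 14 (.s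
  k93 k174 12 (.s k89 k81 1 (.d k166 k247 k243 12 14)))))) .n)) (.c k168 (.l (.s k87 k84 0 (.s k255
  k170 14 (.s k3 k171 13 (.s k169 k252 14 (.d k1 k2 k253 0 13)))))) (.c k169 (.q k106 [(.s k64 k127
  6 (.s k66 k126 5 (.s k67 k65 0 (.s k84 k87 0 (.d k124 k104 k105 5 6))))), (.s k66 k126 5 (.s k170
  k255 14 (.s k2 k254 13 (.s k42 k234 7 (.s k62 k22 5 (.d k194 k130 k150 7 13)))))), (.s k64 k127 6
  (.s k170 k255 14 (.s k42 k234 7 (.s k63 k21 6 (.d k192 k128 k149 7 14)))))] .n) (.c k170 (.q k101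
  [(.s k69 k117 3 (.s k71 k116 4 (.s k68 k70 0 (.s k87 k84 0 (.d k119 k103 k102 3 4))))), (.s k69
  k117 3 (.s k84 k87 0 (.s k207 k138 10 (.s k154 k48 14 (.s k222 k18 9 (.d k252 k237 k168 4
  13)))))), (.s k84 k87 0 (.s k116 k71 4 (.s k252 k168 13 (.s k48 k184 9 (.s k16 k32 3 (.d k154 k223
  k207 10 14)))))), (.s k69 k117 3 (.s k71 k116 4 (.s k207 k138 10 (.s k3 k139 9 (.s k1 k2 0 (.d
  k169 k253 k252 13 14))))))] .n) (.c k171 (.l (.s k84 k87 0 (.s k252 k168 13 (.s k3 k169 14 (.s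
  k170 k255 14 (.d k2 k1 k254 0 13)))))) (.c k252 (.q k5 [(.s k15 k10 2 (.s k165 k245 11 (.s k90
  k240 14 (.s k95 k80 2 (.d k255 k175 k170 11 14))))), (.s k87 k84 0 (.s k165 k245 11 (.s k7 k244 12
  (.s k4 k6 0 (.d k247 k167 k166 11 12))))), (.s k15 k10 2 (.s k87 k84 0 (.s k255 k170 14 (.s k3
  k171 13 (.s k7 k11 1 (.s k4 k6 0 (.d k247 k167 k166 11 12)))))))] .n) (.c k253 (.l (.s k84 k87 0
  (.s k170 k255 14 (.s k2 k254 13 (.s k252 k168 13 (.d k3 k1 k169 0 14)))))) (.c k255 (.q k207 [(.s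
  k69 k138 10 (.s k84 k87 0 (.s k101 k117 3 (.s k48 k154 14 (.s k252 k168 13 (.d k116 k71 k184 4
  9)))))), (.s k84 k87 0 (.s k252 k168 13 (.s k222 k237 4 (.s k154 k18 9 (.s k16 k223 10 (.d k48 k32
  k101 3 14)))))), (.s k69 k138 10 (.s k87 k84 0 (.s k101 k117 3 (.s k71 k116 4 (.s k68 k70 0 (.d
  k119 k103 k102 3 4)))))), (.s k69 k138 10 (.s k101 k117 3 (.s k71 k116 4 (.s k3 k139 9 (.s k1 k2 0
  (.d k169 k253 k252 13 14))))))] (.c k48 (.l (.s k69 k138 10 (.s k84 k87 0 (.s k252 k168 13 (.s k3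
  k169 14 (.s k71 k139 9 (.d k101 k117 k116 3 4))))))) (.c k101 (.f k69 k138 10 (.l (.s k84 k87 0
  (.s k252 k168 13 (.s k3 k169 14 (.s k1 k2 0 (.s k71 k139 9 (.s k70 k68 0 (.d k137 k205 k204 9
  10))))))))) .n))) .n))))))))))))

def t43_252 : T TT 256 :=
  (.f k255 k170 14 (.q k102 [(.s k68 k119 4 (.s k204 k136 9 (.s k221 k238 4 (.d k153 k17 k51 9
  14))))] (.c k17 (.q k4 [(.s k12 k8 1 (.s k93 k174 12 (.s k166 k247 12 (.d k89 k81 k243 1 14)))),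
  (.s k68 k119 4 (.s k166 k247 12 (.s k38 k230 7 (.s k55 k21 4 (.d k196 k132 k149 7 12))))), (.s k12
  k8 1 (.s k68 k119 4 (.s k132 k196 7 (.s k72 k192 9 (.s k76 k64 1 (.d k204 k140 k136 7 9))))))] .n)
  (.c k51 (.f k68 k119 4 (.q k69 [(.s k71 k70 0 (.s k101 k117 3 (.s k100 k103 0 (.d k116 k84 k86 3
  4)))), (.s k207 k138 10 (.s k223 k239 3 (.s k154 k16 10 (.d k101 k117 k48 3 14)))), (.s k70 k71 0
  (.s k138 k207 10 (.s k2 k206 9 (.s k3 k1 0 (.d k204 k136 k137 9 10)))))] (.c k118 (.q k185 [(.s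
  k207 k138 10 (.s k223 k239 3 (.s k154 k16 10 (.d k101 k117 k48 3 14)))), (.s k71 k70 0 (.s k101
  k117 3 (.s k116 k86 4 (.d k100 k103 k84 0 3))))] (.c k101 (.l (.s k70 k71 0 (.s k138 k207 10 (.s
  k2 k206 9 (.s k3 k1 0 (.d k204 k136 k137 9 10)))))) (.c k116 (.l (.s k117 k101 3 (.s k71 k70 0 (.s
  k207 k138 10 (.s k3 k139 9 (.s k253 k49 9 (.d k1 k2 k169 0 13))))))) (.c k117 (.q k116 [(.s k71
  k70 0 (.s k84 k100 3 (.d k86 k87 k101 0 4))), (.s k100 k84 3 (.s k204 k136 9 (.s k48 k152 13 (.s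
  k207 k138 10 (.d k101 k154 k103 14 0))))), (.s k70 k71 0 (.s k138 k207 10 (.s k2 k206 9 (.s k3 k1
  0 (.d k204 k136 k137 9 10)))))] .n) .n)))) (.c k185 (.q k118 [(.d k70 k71 k86 0 3), (.s k101 k117
  3 (.s k207 k138 10 (.s k154 k48 14 (.d k223 k239 k16 3 10))))] .n) (.c k207 (.l (.s k71 k70 0 (.s
  k101 k117 3 (.s k116 k86 4 (.d k100 k103 k84 0 3))))) .n))))) (.c k68 (.q k4 [(.s k12 k8 1 (.s k93
  k174 12 (.s k89 k81 1 (.d k166 k247 k243 12 14)))), (.s k166 k247 12 (.s k38 k230 7 (.s k21 k55 4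
  (.s k63 k42 6 (.s k127 k191 7 (.s k106 k64 6 (.d k149 k213 k192 7 14)))))))] (.c k166 (.f k12 k8 1
  (.q k89 [(.d k93 k174 k81 12 1), (.s k76 k115 6 (.s k204 k140 7 (.s k153 k51 14 (.d k221 k238 k17
  4 9))))] (.c k162 (.l (.s k174 k93 12 (.s k76 k115 6 (.s k204 k140 7 (.s k153 k51 14 (.d k221 k238
  k17 4 9)))))) (.c k174 (.q k162 [(.d k81 k93 k243 1 12), (.s k76 k115 6 (.s k204 k140 7 (.s k221
  k238 4 (.d k153 k17 k51 9 14))))] .n) .n)))) (.c k247 (.l (.s k12 k8 1 (.s k93 k174 12 (.s k89 k81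
  1 (.s k76 k115 6 (.s k204 k140 7 (.s k153 k51 14 (.d k221 k238 k17 4 9)))))))) .n))) (.c k119 (.q
  k247 [(.s k166 k4 12 (.s k243 k251 1 (.s k81 k162 12 (.d k89 k93 k12 1 14)))), (.s k166 k4 12 (.s
  k230 k38 7 (.s k213 k196 4 (.s k192 k234 6 (.s k64 k128 7 (.s k106 k127 6 (.d k149 k21 k63 7
  14)))))))] (.c k4 (.l (.s k243 k251 1 (.s k81 k162 12 (.s k89 k93 1 (.s k115 k76 6 (.s k51 k179 7
  (.s k17 k34 4 (.d k153 k221 k204 9 14)))))))) (.c k166 (.f k243 k251 1 (.q k89 [(.d k81 k162 k93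
  12 1), (.s k115 k76 6 (.s k51 k179 7 (.s k17 k34 4 (.d k153 k221 k204 9 14))))] (.c k162 (.q k174
  [(.d k93 k81 k12 1 12), (.s k115 k76 6 (.s k51 k179 7 (.s k17 k34 4 (.d k153 k221 k204 9 14))))]
  .n) (.c k174 (.l (.s k162 k81 12 (.s k115 k76 6 (.s k51 k179 7 (.s k17 k34 4 (.d k153 k221 k204 9
  14)))))) .n)))) .n))) (.c k136 (.l (.s k119 k68 4 (.s k51 k187 9 (.s k153 k204 14 (.d k17 k34 k221
  4 9))))) (.c k153 (.f k68 k119 4 (.q k149 [(.s k196 k55 12 (.s k4 k132 7 (.s k213 k21 7 (.d k247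
  k230 k166 4 12)))), (.s k21 k213 7 (.s k63 k42 6 (.s k106 k192 14 (.d k127 k64 k191 6 7)))), (.s
  k196 k55 12 (.s k4 k132 7 (.s k12 k8 1 (.s k93 k174 12 (.s k89 k81 1 (.d k166 k247 k243 12
  14))))))] (.c k136 (.q k187 [(.s k196 k55 12 (.s k4 k132 7 (.s k213 k21 7 (.d k247 k230 k166 4
  12)))), (.s k21 k213 7 (.s k63 k42 6 (.s k106 k192 14 (.d k127 k64 k191 6 7)))), (.s k196 k55 12
  (.s k4 k132 7 (.s k12 k8 1 (.s k93 k174 12 (.s k89 k81 1 (.d k166 k247 k243 12 14))))))] .n) (.c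
  k187 (.l (.s k136 k204 9 (.s k21 k213 7 (.s k63 k42 6 (.s k106 k192 14 (.d k127 k64 k191 6 7))))))
  .n)))) (.c k187 (.l (.s k68 k119 4 (.s k204 k136 9 (.s k153 k51 14 (.d k221 k238 k17 4 9))))) (.c
  k204 (.f k68 k119 4 (.q k64 [(.s k76 k72 1 (.s k89 k115 6 (.s k93 k81 1 (.d k127 k110 k106 4
  6)))), (.s k192 k128 7 (.s k213 k234 6 (.s k149 k21 7 (.d k106 k127 k63 6 14))))] (.c k106 (.l (.s
  k76 k72 1 (.s k89 k115 6 (.s k81 k93 1 (.s k243 k162 12 (.s k166 k12 14 (.d k247 k251 k4 1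
  12))))))) (.c k127 (.l (.s k72 k76 1 (.s k192 k128 7 (.s k213 k234 6 (.s k149 k21 7 (.s k196 k55
  12 (.d k132 k4 k12 7 9))))))) (.c k220 (.q k236 [(.s k76 k72 1 (.s k89 k115 6 (.s k93 k81 1 (.d
  k127 k110 k106 4 6)))), (.s k192 k128 7 (.s k213 k234 6 (.s k149 k21 7 (.d k106 k127 k63 6 14))))]
  (.c k106 (.l (.s k76 k72 1 (.s k89 k115 6 (.s k81 k93 1 (.s k243 k162 12 (.s k166 k12 14 (.d k247
  k251 k4 1 12))))))) (.c k127 (.l (.s k72 k76 1 (.s k192 k128 7 (.s k213 k234 6 (.s k149 k21 7 (.s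
  k196 k55 12 (.d k132 k4 k12 7 9))))))) .n))) (.c k236 (.q k220 [(.s k76 k72 1 (.s k89 k115 6 (.s
  k93 k81 1 (.d k127 k110 k106 4 6)))), (.s k192 k128 7 (.s k213 k234 6 (.s k149 k21 7 (.d k106 k127
  k63 6 14))))] (.c k106 (.l (.s k76 k72 1 (.s k89 k115 6 (.s k81 k93 1 (.s k243 k162 12 (.s k166
  k12 14 (.d k247 k251 k4 1 12))))))) (.c k127 (.l (.s k72 k76 1 (.s k192 k128 7 (.s k213 k234 6 (.s
  k149 k21 7 (.s k196 k55 12 (.d k132 k4 k12 7 9))))))) .n))) .n)))))) (.c k221 (.q k4 [(.s k12 k8 1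
  (.s k93 k174 12 (.s k89 k81 1 (.d k166 k247 k243 12 14)))), (.s k68 k119 4 (.s k166 k247 12 (.s
  k38 k230 7 (.s k55 k21 4 (.d k196 k132 k149 7 12))))), (.s k12 k8 1 (.s k68 k119 4 (.s k132 k196 7
  (.s k72 k192 9 (.s k76 k64 1 (.d k204 k140 k136 7 9))))))] .n) (.c k238 (.l (.s k119 k68 4 (.s k51
  k187 9 (.s k17 k34 4 (.d k153 k221 k204 9 14))))) .n))))))))))))

def t43_254 : T TT 256 :=
  (.q k89 [(.s k81 k93 1 (.s k243 k162 12 (.s k166 k12 14 (.s k247 k4 12 (.d k255 k251 k170 1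
  14)))))] (.c k4 (.q k1 [(.s k3 k2 0 (.s k169 k253 13 (.s k86 k252 14 (.s k255 k170 14 (.d k87 k84
  k171 0 13))))), (.s k81 k93 1 (.s k241 k161 11 (.s k13 k165 13 (.s k9 k5 1 (.d k169 k249 k253 11
  13))))), (.s k3 k2 0 (.s k81 k93 1 (.s k161 k241 11 (.s k82 k240 12 (.s k83 k80 0 (.d k243 k163
  k162 11 12))))))] .n) (.c k12 (.q k1 [(.s k3 k2 0 (.s k169 k253 13 (.s k86 k252 14 (.s k255 k170
  14 (.d k87 k84 k171 0 13))))), (.s k81 k93 1 (.s k241 k161 11 (.s k13 k165 13 (.s k9 k5 1 (.d k169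
  k249 k253 11 13))))), (.s k3 k2 0 (.s k81 k93 1 (.s k161 k241 11 (.s k82 k240 12 (.s k83 k80 0 (.d
  k243 k163 k162 11 12))))))] (.c k255 (.l (.s k93 k81 1 (.s k253 k169 13 (.s k13 k173 11 (.s k5 k9
  1 (.d k165 k245 k241 11 13)))))) .n)) (.c k81 (.q k15 [(.s k5 k10 2 (.s k165 k245 11 (.s k90 k240
  14 (.s k95 k80 2 (.d k255 k175 k170 11 14))))), (.s k5 k10 2 (.s k165 k245 11 (.s k13 k241 13 (.s
  k12 k14 0 (.s k4 k8 1 (.d k166 k247 k243 12 14)))))), (.s k170 k255 14 (.s k8 k251 12 (.s k12 k4 1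
  (.s k13 k14 0 (.s k165 k241 13 (.s k160 k175 2 (.d k240 k80 k90 11 14)))))))] (.c k165 (.l (.s k10
  k5 2 (.s k170 k255 14 (.s k8 k251 12 (.s k9 k11 0 (.s k12 k4 1 (.s k6 k3 2 (.d k14 k13 k2 0
  1)))))))) .n)) (.c k93 (.q k15 [(.s k5 k10 2 (.s k165 k245 11 (.s k90 k240 14 (.s k95 k80 2 (.d
  k255 k175 k170 11 14))))), (.s k5 k10 2 (.s k165 k245 11 (.s k13 k241 13 (.s k12 k14 0 (.s k4 k8 1
  (.d k166 k247 k243 12 14)))))), (.s k170 k255 14 (.s k8 k251 12 (.s k12 k4 1 (.s k13 k14 0 (.s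
  k165 k241 13 (.s k160 k175 2 (.d k240 k80 k90 11 14)))))))] (.c k165 (.l (.s k10 k5 2 (.s k170
  k255 14 (.s k8 k251 12 (.s k9 k11 0 (.s k12 k4 1 (.s k6 k3 2 (.d k14 k13 k2 0 1)))))))) .n)) (.c
  k162 (.l (.s k93 k81 1 (.s k255 k170 14 (.s k12 k174 12 (.s k166 k243 14 (.d k4 k8 k247 1 12))))))
  (.c k166 (.q k1 [(.s k3 k2 0 (.s k169 k253 13 (.s k86 k252 14 (.s k255 k170 14 (.d k87 k84 k171 0
  13))))), (.s k81 k93 1 (.s k241 k161 11 (.s k13 k165 13 (.s k9 k5 1 (.d k169 k249 k253 11 13))))),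
  (.s k3 k2 0 (.s k81 k93 1 (.s k161 k241 11 (.s k82 k240 12 (.s k83 k80 0 (.d k243 k163 k162 11
  12))))))] .n) (.c k170 (.q k86 [(.s k81 k93 1 (.s k83 k92 2 (.s k80 k82 0 (.s k87 k84 0 (.d k95
  k91 k90 1 2))))), (.s k81 k93 1 (.s k84 k87 0 (.s k243 k162 12 (.s k166 k12 14 (.s k246 k6 11 (.d
  k252 k249 k168 2 13)))))), (.s k84 k87 0 (.s k92 k83 2 (.s k252 k168 13 (.s k12 k172 11 (.s k4 k8
  1 (.d k166 k247 k243 12 14)))))), (.s k81 k93 1 (.s k83 k92 2 (.s k243 k162 12 (.s k3 k163 11 (.s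
  k1 k2 0 (.d k169 k253 k252 13 14))))))] .n) (.c k174 (.l (.s k81 k93 1 (.s k243 k162 12 (.s k12
  k166 14 (.s k170 k255 14 (.d k8 k4 k251 1 12)))))) (.c k243 (.q k13 [(.s k81 k93 1 (.s k241 k165
  13 (.s k1 k161 11 (.s k9 k5 1 (.d k169 k249 k253 11 13))))), (.s k165 k241 13 (.s k245 k5 11 (.s
  k255 k170 14 (.s k240 k250 2 (.s k80 k160 11 (.d k90 k95 k15 2 14)))))), (.s k93 k81 1 (.s k173
  k253 11 (.s k255 k170 14 (.s k12 k174 12 (.s k15 k14 0 (.s k94 k252 12 (.d k95 k92 k175 0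
  11)))))))] .n) (.c k247 (.l (.s k81 k93 1 (.s k170 k255 14 (.s k8 k251 12 (.s k243 k162 12 (.d k12
  k4 k166 1 14)))))) (.c k251 (.l (.s k93 k81 1 (.s k255 k170 14 (.s k12 k174 12 (.s k4 k8 1 (.d
  k166 k247 k243 12 14)))))) (.c k255 (.q k252 [(.s k81 k93 1 (.s k84 k168 13 (.s k86 k87 0 (.s k243
  k162 12 (.s k246 k249 2 (.d k166 k12 k6 14 11)))))), (.s k84 k168 13 (.s k86 k87 0 (.s k92 k83 2
  (.s k80 k88 1 (.s k93 k81 1 (.d k95 k94 k90 0 2)))))), (.s k81 k93 1 (.s k243 k162 12 (.s k249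
  k246 2 (.s k169 k9 11 (.s k1 k253 13 (.d k3 k2 k86 0 14)))))), (.s k84 k168 13 (.s k86 k87 0 (.s
  k92 k83 2 (.s k12 k172 11 (.s k4 k8 1 (.d k166 k247 k243 12 14))))))] (.c k3 (.l (.s k81 k93 1 (.s
  k84 k168 13 (.s k243 k162 12 (.s k12 k166 14 (.s k92 k172 11 (.d k86 k87 k83 0 2))))))) (.c k86
  (.f k81 k93 1 (.l (.s k84 k168 13 (.s k243 k162 12 (.s k12 k166 14 (.s k4 k8 1 (.s k92 k172 11 (.s
  k88 k80 1 (.d k164 k244 k240 11 13))))))))) .n))) .n)))))))))))))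

def t47_59 : T TT 256 :=
  (.f k255 k170 14 (.q k165 [(.s k5 k245 11 (.s k15 k10 2 (.s k90 k240 14 (.d k95 k80 k175 2 11))))]
  (.c k5 (.q k1 [(.s k169 k253 13 (.s k3 k2 0 (.s k86 k252 14 (.d k87 k84 k171 0 13)))), (.s k169
  k253 13 (.s k161 k173 1 (.s k81 k241 11 (.s k243 k162 12 (.s k247 k251 1 (.s k166 k4 12 (.d k89
  k93 k12 1 14)))))))] (.c k169 (.f k3 k2 0 (.q k86 [(.d k87 k171 k84 13 0), (.s k7 k244 12 (.s k15
  k11 1 (.s k90 k240 14 (.d k95 k80 k175 2 11))))] (.c k168 (.l (.s k171 k87 13 (.s k7 k244 12 (.s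
  k15 k11 1 (.s k90 k240 14 (.d k95 k80 k175 2 11)))))) (.c k171 (.q k168 [(.d k84 k87 k252 0 13),
  (.s k7 k244 12 (.s k15 k11 1 (.s k95 k175 11 (.d k90 k80 k240 2 14))))] .n) .n)))) (.c k253 (.l
  (.s k3 k2 0 (.s k87 k171 13 (.s k86 k84 0 (.s k7 k244 12 (.s k15 k11 1 (.s k90 k240 14 (.d k95 k80
  k175 2 11)))))))) .n))) (.c k10 (.l (.s k245 k5 11 (.s k240 k250 2 (.s k90 k15 14 (.d k80 k95 k160
  2 11))))) (.c k15 (.q k63 [(.s k127 k191 7 (.s k106 k64 6 (.s k149 k192 14 (.d k21 k42 k213 6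
  7)))), (.s k191 k127 7 (.s k245 k5 11 (.s k240 k250 2 (.s k181 k122 10 (.s k117 k53 7 (.d k186
  k176 k48 2 10)))))), (.s k21 k42 6 (.s k149 k213 7 (.s k181 k133 3 (.s k240 k122 10 (.d k245 k250
  k5 2 11)))))] (.c k21 (.l (.s k127 k191 7 (.s k106 k64 6 (.s k149 k192 14 (.s k245 k5 11 (.s k240
  k250 2 (.d k181 k133 k122 3 10))))))) .n)) (.c k80 (.q k1 [(.s k169 k253 13 (.s k3 k2 0 (.s k86
  k252 14 (.d k87 k84 k171 0 13)))), (.s k5 k245 11 (.s k13 k9 1 (.s k89 k241 13 (.s k93 k81 1 (.d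
  k253 k173 k169 11 13))))), (.s k3 k2 0 (.s k5 k245 11 (.s k9 k13 1 (.s k6 k12 2 (.s k7 k4 0 (.d
  k15 k11 k10 1 2))))))] .n) (.c k90 (.f k245 k5 11 (.q k89 [(.s k81 k93 1 (.s k243 k162 12 (.s k166
  k12 14 (.d k247 k251 k4 1 12)))), (.s k241 k13 13 (.s k253 k249 1 (.s k252 k254 0 (.s k84 k168 13
  (.s k86 k87 0 (.d k169 k1 k3 13 14))))))] (.c k10 (.l (.s k250 k240 2 (.s k81 k93 1 (.s k241 k13
  13 (.s k1 k161 11 (.d k253 k249 k169 1 13)))))) (.c k250 (.q k10 [(.s k81 k93 1 (.s k243 k162 12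
  (.s k166 k12 14 (.d k247 k251 k4 1 12)))), (.s k241 k13 13 (.s k253 k249 1 (.s k252 k254 0 (.s k84
  k168 13 (.s k86 k87 0 (.d k169 k1 k3 13 14))))))] (.c k251 (.l (.s k81 k93 1 (.s k241 k13 13 (.s
  k1 k161 11 (.d k253 k249 k169 1 13))))) .n)) .n)))) (.c k95 (.q k1 [(.s k169 k253 13 (.s k3 k2 0
  (.s k86 k252 14 (.d k87 k84 k171 0 13)))), (.s k5 k245 11 (.s k13 k9 1 (.s k89 k241 13 (.s k93 k81
  1 (.d k253 k173 k169 11 13))))), (.s k3 k2 0 (.s k5 k245 11 (.s k9 k13 1 (.s k6 k12 2 (.s k7 k4 0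
  (.d k15 k11 k10 1 2))))))] .n) (.c k175 (.l (.s k245 k5 11 (.s k240 k250 2 (.s k80 k160 11 (.d k90
  k95 k15 2 14))))) (.c k240 (.q k1 [(.s k3 k2 0 (.s k87 k171 13 (.s k86 k84 0 (.d k169 k253 k252 13
  14)))), (.s k5 k245 11 (.s k13 k9 1 (.s k89 k241 13 (.s k93 k81 1 (.d k253 k173 k169 11 13))))),
  (.s k3 k2 0 (.s k5 k245 11 (.s k9 k13 1 (.s k6 k12 2 (.s k7 k4 0 (.d k15 k11 k10 1 2))))))] .n)
  (.c k245 (.q k253 [(.s k169 k1 13 (.s k252 k254 0 (.s k84 k168 13 (.d k86 k87 k3 0 14)))), (.s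
  k169 k1 13 (.s k173 k161 1 (.s k93 k13 11 (.s k12 k174 12 (.s k4 k8 1 (.s k166 k247 12 (.d k89 k81
  k243 1 14)))))))] (.c k1 (.l (.s k252 k254 0 (.s k84 k168 13 (.s k86 k87 0 (.s k244 k7 12 (.s k240
  k248 1 (.s k80 k160 11 (.d k90 k95 k15 2 14)))))))) (.c k169 (.f k252 k254 0 (.q k86 [(.d k84 k168
  k87 13 0), (.s k244 k7 12 (.s k240 k248 1 (.s k80 k160 11 (.d k90 k95 k15 2 14))))] (.c k168 (.q
  k171 [(.d k87 k84 k3 0 13), (.s k244 k7 12 (.s k240 k248 1 (.s k80 k160 11 (.d k90 k95 k15 2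
  14))))] .n) (.c k171 (.l (.s k168 k84 13 (.s k244 k7 12 (.s k240 k248 1 (.s k80 k160 11 (.d k90
  k95 k15 2 14)))))) .n)))) .n))) (.c k250 (.l (.s k5 k245 11 (.s k15 k10 2 (.s k90 k240 14 (.d k95
  k80 k175 2 11))))) .n))))))))))))

def t47_63 : T TT 256 :=
  (.q k15 [(.s k5 k10 2 (.s k165 k245 11 (.s k90 k240 14 (.s k95 k80 2 (.d k255 k175 k170 11
  14))))), (.s k5 k10 2 (.s k165 k245 11 (.s k170 k255 14 (.s k160 k175 2 (.d k240 k80 k90 11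
  14)))))] (.c k5 (.q k3 [(.s k1 k2 0 (.s k169 k253 13 (.s k86 k252 14 (.s k87 k84 0 (.d k255 k171
  k170 13 14))))), (.s k1 k2 0 (.s k11 k7 1 (.s k169 k253 13 (.s k90 k248 12 (.s k80 k95 2 (.d k240
  k160 k165 11 14)))))), (.s k11 k7 1 (.s k255 k170 14 (.s k171 k87 13 (.s k91 k251 11 (.s k167 k243
  13 (.d k175 k163 k95 1 11))))))] .n) (.c k10 (.q k3 [(.s k2 k1 0 (.s k170 k255 14 (.s k86 k254 13
  (.s k84 k87 0 (.d k252 k168 k169 13 14))))), (.s k11 k7 1 (.s k255 k170 14 (.s k171 k87 13 (.s k91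
  k251 11 (.s k167 k243 13 (.d k175 k163 k95 1 11)))))), (.s k1 k2 0 (.s k11 k7 1 (.s k169 k253 13
  (.s k90 k248 12 (.s k80 k95 2 (.d k240 k160 k165 11 14))))))] .n) (.c k80 (.q k1 [(.s k3 k2 0 (.s
  k5 k10 2 (.s k7 k11 1 (.s k6 k4 0 (.d k9 k13 k12 1 2))))), (.s k3 k2 0 (.s k169 k253 13 (.s k86
  k252 14 (.s k87 k84 0 (.d k255 k171 k170 13 14))))), (.s k5 k10 2 (.s k13 k9 1 (.s k165 k245 11
  (.s k89 k241 13 (.s k93 k81 1 (.d k253 k173 k169 11 13))))))] .n) (.c k90 (.q k1 [(.s k3 k2 0 (.s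
  k169 k253 13 (.s k86 k252 14 (.s k87 k84 0 (.d k255 k171 k170 13 14))))), (.s k5 k10 2 (.s k13 k9
  1 (.s k165 k245 11 (.s k89 k241 13 (.s k93 k81 1 (.d k253 k173 k169 11 13)))))), (.s k3 k2 0 (.s
  k5 k10 2 (.s k9 k13 1 (.s k6 k12 2 (.d k7 k4 k11 0 1)))))] (.c k170 (.l (.s k3 k2 0 (.s k7 k11 1
  (.s k169 k253 13 (.s k86 k252 14 (.s k165 k244 12 (.d k5 k10 k245 2 11))))))) .n)) (.c k165 (.f
  k170 k255 14 (.f k10 k5 2 (.q k106 [(.s k42 k234 7 (.s k58 k26 3 (.s k154 k202 11 (.s k186 k138 3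
  (.d k250 k122 k90 7 11))))), (.s k90 k250 11 (.s k95 k80 2 (.s k122 k74 3 (.s k127 k64 6 (.s k79
  k111 3 (.d k112 k117 k101 2 6)))))), (.s k42 k234 7 (.s k58 k26 3 (.s k202 k154 11 (.s k74 k138 7
  (.s k192 k133 10 (.d k64 k127 k128 6 7))))))] (.c k90 (.l (.s k42 k234 7 (.s k26 k58 3 (.s k48 k37
  6 (.s k16 k32 3 (.s k154 k223 10 (.s k138 k186 3 (.d k207 k101 k69 14 10)))))))) (.c k127 (.q k191
  [(.s k90 k250 11 (.s k128 k149 6 (.s k192 k64 7 (.d k74 k133 k122 10 3)))), (.s k42 k234 7 (.s k26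
  k58 3 (.s k48 k37 6 (.s k16 k32 3 (.s k21 k31 2 (.d k149 k213 k128 7 6)))))), (.s k234 k42 7 (.s
  k250 k90 11 (.s k202 k218 3 (.s k138 k74 7 (.d k154 k186 k58 3 11)))))] .n) (.c k191 (.l (.s k127
  k64 6 (.s k42 k234 7 (.s k58 k26 3 (.s k90 k250 11 (.s k74 k122 3 (.d k202 k138 k154 7 11)))))))
  .n)))))) (.c k170 (.q k1 [(.s k3 k2 0 (.s k11 k7 1 (.s k169 k253 13 (.s k90 k248 12 (.s k80 k95 2
  (.d k240 k160 k165 11 14)))))), (.s k5 k10 2 (.s k13 k9 1 (.s k165 k245 11 (.s k89 k241 13 (.s k93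
  k81 1 (.d k253 k173 k169 11 13)))))), (.s k3 k2 0 (.s k5 k10 2 (.s k7 k11 1 (.s k6 k4 0 (.d k9 k13
  k12 1 2)))))] (.c k11 (.l (.s k3 k2 0 (.s k5 k10 2 (.s k165 k245 11 (.s k169 k253 13 (.s k161 k173
  1 (.d k240 k90 k82 14 12))))))) (.c k90 (.l (.s k3 k2 0 (.s k7 k11 1 (.s k169 k253 13 (.s k86 k252
  14 (.s k165 k244 12 (.d k5 k10 k245 2 11))))))) .n))) (.c k175 (.l (.s k10 k5 2 (.s k170 k255 14
  (.s k90 k250 11 (.s k80 k95 2 (.d k240 k160 k165 11 14)))))) (.c k240 (.f k255 k170 14 (.f k175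
  k95 11 (.f k10 k5 2 (.q k174 [(.s k12 k93 12 (.s k14 k13 0 (.s k173 k172 0 (.d k94 k254 k252 11
  12)))), (.s k93 k12 12 (.s k81 k89 1 (.s k243 k162 12 (.s k167 k91 13 (.s k171 k163 1 (.s k87 k3
  13 (.d k247 k251 k7 1 11))))))), (.s k173 k172 0 (.s k252 k94 12 (.s k84 k168 13 (.s k86 k87 0 (.s
  k169 k3 14 (.d k253 k254 k1 0 13))))))] (.c k93 (.l (.s k173 k172 0 (.s k94 k252 12 (.s k14 k254
  11 (.s k12 k13 0 (.s k8 k4 1 (.s k9 k11 0 (.d k6 k2 k3 1 2)))))))) (.c k122 (.q k181 [(.s k12 k93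
  12 (.s k14 k13 0 (.s k173 k172 0 (.d k94 k254 k252 11 12)))), (.s k93 k12 12 (.s k81 k89 1 (.s
  k243 k162 12 (.s k167 k91 13 (.s k171 k163 1 (.s k87 k3 13 (.d k247 k251 k7 1 11))))))), (.s k173
  k172 0 (.s k252 k94 12 (.s k84 k168 13 (.s k86 k87 0 (.s k169 k3 14 (.d k253 k254 k1 0 13))))))]
  (.c k93 (.l (.s k173 k172 0 (.s k94 k252 12 (.s k14 k254 11 (.s k12 k13 0 (.s k8 k4 1 (.s k9 k11 0
  (.d k6 k2 k3 1 2)))))))) .n)) (.c k181 (.q k122 [(.s k12 k93 12 (.s k14 k13 0 (.s k173 k172 0 (.d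
  k94 k254 k252 11 12)))), (.s k93 k12 12 (.s k81 k89 1 (.s k243 k162 12 (.s k167 k91 13 (.s k171
  k163 1 (.s k87 k3 13 (.d k247 k251 k7 1 11))))))), (.s k173 k172 0 (.s k252 k94 12 (.s k84 k168 13
  (.s k86 k87 0 (.s k169 k3 14 (.d k253 k254 k1 0 13))))))] (.c k93 (.l (.s k173 k172 0 (.s k94 k252
  12 (.s k14 k254 11 (.s k12 k13 0 (.s k8 k4 1 (.s k9 k11 0 (.d k6 k2 k3 1 2)))))))) .n)) .n)))))))
  (.c k245 (.l (.s k10 k5 2 (.s k170 k255 14 (.s k90 k250 11 (.s k240 k165 14 (.d k80 k95 k160 2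
  11)))))) (.c k250 (.l (.s k5 k10 2 (.s k165 k245 11 (.s k90 k240 14 (.s k255 k170 14 (.d k95 k80
  k175 2 11)))))) (.c k255 (.f k5 k10 2 (.q k89 [(.s k81 k93 1 (.s k165 k245 11 (.s k240 k90 14 (.s
  k243 k162 12 (.d k241 k242 k13 0 13))))), (.s k93 k81 1 (.s k165 k245 11 (.s k13 k241 13 (.s k1 k9
  1 (.d k253 k173 k169 11 13))))), (.s k81 k93 1 (.s k243 k162 12 (.s k12 k166 14 (.s k4 k8 1 (.s k6
  k7 0 (.s k9 k3 2 (.d k13 k14 k1 0 1))))))), (.s k165 k245 11 (.s k13 k241 13 (.s k12 k14 0 (.s k4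
  k8 1 (.d k166 k247 k243 12 14)))))] (.c k13 (.l (.s k81 k93 1 (.s k165 k245 11 (.s k243 k162 12
  (.s k91 k167 13 (.d k90 k240 k88 14 0)))))) (.c k127 (.q k191 [(.s k93 k81 1 (.s k165 k245 11 (.s
  k13 k241 13 (.s k1 k9 1 (.d k253 k173 k169 11 13))))), (.s k81 k93 1 (.s k165 k245 11 (.s k243
  k162 12 (.s k91 k167 13 (.d k90 k240 k88 14 0))))), (.s k81 k93 1 (.s k243 k162 12 (.s k12 k166 14
  (.s k4 k8 1 (.s k6 k7 0 (.s k9 k3 2 (.d k13 k14 k1 0 1))))))), (.s k165 k245 11 (.s k13 k241 13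
  (.s k12 k14 0 (.s k4 k8 1 (.d k166 k247 k243 12 14)))))] .n) (.c k191 (.q k127 [(.s k64 k106 6 (.s
  k81 k93 1 (.s k115 k98 4 (.s k102 k76 6 (.d k119 k123 k68 1 4))))), (.s k165 k245 11 (.s k13 k241
  13 (.s k12 k14 0 (.s k4 k8 1 (.d k166 k247 k243 12 14))))), (.s k93 k81 1 (.s k76 k110 4 (.s k102
  k115 6 (.s k68 k119 4 (.d k64 k72 k106 1 6)))))] .n) .n))))) .n))))))))))))

def t47_106 : T TT 256 :=
  (.q k165 [(.s k5 k245 11 (.s k15 k10 2 (.s k90 k240 14 (.s k95 k80 2 (.d k255 k175 k170 11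
  14)))))] (.c k5 (.q k1 [(.s k3 k2 0 (.s k169 k253 13 (.s k86 k252 14 (.s k87 k84 0 (.d k255 k171
  k170 13 14))))), (.s k3 k2 0 (.s k170 k255 14 (.s k160 k175 2 (.s k240 k80 11 (.s k161 k82 12 (.s
  k81 k241 11 (.d k162 k163 k243 0 12))))))), (.s k169 k253 13 (.s k161 k173 1 (.s k81 k241 11 (.s
  k162 k243 12 (.s k170 k255 14 (.d k160 k163 k175 0 2)))))), (.s k3 k2 0 (.s k169 k253 13 (.s k161
  k173 1 (.s k240 k82 12 (.s k80 k160 11 (.d k90 k95 k15 2 14))))))] .n) (.c k10 (.l (.s k245 k5 11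
  (.s k255 k170 14 (.s k240 k250 2 (.s k90 k15 14 (.d k80 k95 k160 2 11)))))) (.c k15 (.f k245 k5 11
  (.q k101 [(.s k117 k69 3 (.s k53 k181 7 (.s k197 k149 11 (.d k229 k213 k37 3 7)))), (.s k69 k117 3
  (.s k170 k255 14 (.s k32 k239 10 (.s k48 k16 3 (.d k207 k138 k154 10 14))))), (.s k229 k37 7 (.s
  k255 k170 14 (.s k240 k250 2 (.s k207 k218 6 (.s k223 k239 3 (.d k154 k48 k16 14 10))))))] (.c k31
  (.q k63 [(.s k21 k42 6 (.s k213 k149 7 (.d k229 k37 k197 7 3))), (.s k117 k69 3 (.s k53 k181 7 (.s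
  k48 k58 2 (.d k255 k186 k170 10 14))))] (.c k170 (.l (.s k229 k37 7 (.s k213 k197 3 (.d k21 k42
  k149 6 7)))) (.c k197 (.l (.s k255 k170 14 (.s k240 k250 2 (.s k181 k122 10 (.d k117 k69 k53 3
  7))))) .n))) (.c k63 (.q k31 [(.s k117 k69 3 (.s k229 k37 7 (.s k197 k213 3 (.d k53 k149 k181 11
  7)))), (.s k69 k117 3 (.s k170 k255 14 (.s k32 k239 10 (.s k48 k16 3 (.d k207 k138 k154 10
  14))))), (.s k69 k117 3 (.s k207 k138 10 (.s k255 k170 14 (.s k240 k250 2 (.d k229 k218 k37 6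
  7))))), (.s k229 k37 7 (.s k255 k170 14 (.s k240 k250 2 (.s k207 k218 6 (.s k223 k239 3 (.d k154
  k48 k16 14 10))))))] (.c k149 (.q k192 [(.s k69 k117 3 (.s k207 k138 10 (.s k197 k202 2 (.d k229
  k213 k37 3 7)))), (.s k229 k37 7 (.s k255 k170 14 (.d k213 k234 k197 6 3))), (.s k69 k117 3 (.s
  k170 k255 14 (.s k32 k239 10 (.s k48 k16 3 (.d k207 k138 k154 10 14)))))] .n) (.c k192 (.q k149
  [(.s k117 k69 3 (.d k53 k197 k181 11 7)), (.s k21 k213 7 (.s k16 k26 2 (.s k48 k32 3 (.d k154 k223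
  k207 10 14))))] (.c k74 (.l (.s k133 k181 3 (.s k197 k53 11 (.d k213 k21 k229 7 3)))) (.c k133 (.q
  k74 [(.s k213 k21 7 (.d k197 k53 k229 11 3)), (.s k69 k117 3 (.s k79 k64 2 (.d k90 k112 k208 6
  10)))] (.c k69 (.l (.s k197 k53 11 (.d k213 k21 k229 7 3))) (.c k197 (.l (.s k69 k117 3 (.s k79
  k64 2 (.d k90 k112 k208 6 10)))) .n))) .n))) .n))) .n)))) (.c k80 (.q k1 [(.s k3 k2 0 (.s k169
  k253 13 (.s k170 k255 14 (.s k168 k171 0 (.d k252 k84 k86 13 14))))), (.s k5 k245 11 (.s k13 k9 1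
  (.s k89 k241 13 (.s k93 k81 1 (.d k253 k173 k169 11 13))))), (.s k3 k2 0 (.s k5 k245 11 (.s k9 k13
  1 (.s k6 k12 2 (.s k7 k4 0 (.d k15 k11 k10 1 2))))))] .n) (.c k90 (.f k170 k255 14 (.f k175 k160 2
  (.f k245 k5 11 (.q k2 [(.s k3 k1 0 (.s k86 k254 13 (.s k84 k87 0 (.d k252 k168 k169 13 14)))), (.s
  k86 k254 13 (.s k244 k7 12 (.s k247 k246 0 (.s k4 k166 12 (.d k84 k87 k164 0 11))))), (.s k1 k3 0
  (.s k253 k169 13 (.s k241 k249 1 (.s k81 k161 11 (.d k89 k93 k13 1 13)))))] (.c k74 (.q k122 [(.s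
  k3 k1 0 (.s k86 k254 13 (.s k84 k87 0 (.d k252 k168 k169 13 14)))), (.s k86 k254 13 (.s k244 k7 12
  (.s k247 k246 0 (.s k4 k166 12 (.d k84 k87 k164 0 11))))), (.s k1 k3 0 (.s k253 k169 13 (.s k241
  k249 1 (.s k81 k161 11 (.d k89 k93 k13 1 13)))))] (.c k86 (.l (.s k1 k3 0 (.s k169 k253 13 (.s
  k171 k168 0 (.s k163 k167 1 (.s k172 k166 2 (.d k173 k174 k161 0 1))))))) (.c k87 (.l (.s k3 k1 0
  (.s k86 k254 13 (.s k244 k7 12 (.s k247 k246 0 (.s k4 k166 12 (.s k84 k164 11 (.d k252 k168 k169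
  13 14)))))))) (.c k252 (.l (.s k1 k3 0 (.s k86 k254 13 (.s k253 k169 13 (.s k241 k249 1 (.s k81
  k161 11 (.d k89 k93 k13 1 13))))))) (.c k253 (.l (.s k3 k1 0 (.s k86 k254 13 (.s k252 k169 14 (.d
  k84 k87 k168 0 13))))) .n))))) (.c k86 (.l (.s k1 k3 0 (.s k169 k253 13 (.s k171 k168 0 (.s k163
  k167 1 (.s k172 k166 2 (.d k173 k174 k161 0 1))))))) (.c k87 (.l (.s k3 k1 0 (.s k86 k254 13 (.s
  k244 k7 12 (.s k247 k246 0 (.s k4 k166 12 (.s k84 k164 11 (.d k252 k168 k169 13 14)))))))) (.c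
  k122 (.q k74 [(.s k3 k1 0 (.s k86 k254 13 (.s k84 k87 0 (.d k252 k168 k169 13 14)))), (.s k86 k254
  13 (.s k244 k7 12 (.s k247 k246 0 (.s k4 k166 12 (.d k84 k87 k164 0 11))))), (.s k1 k3 0 (.s k253
  k169 13 (.s k241 k249 1 (.s k81 k161 11 (.d k89 k93 k13 1 13)))))] (.c k86 (.l (.s k1 k3 0 (.s
  k169 k253 13 (.s k171 k168 0 (.s k163 k167 1 (.s k172 k166 2 (.d k173 k174 k161 0 1))))))) (.c k87
  (.l (.s k3 k1 0 (.s k86 k254 13 (.s k244 k7 12 (.s k247 k246 0 (.s k4 k166 12 (.s k84 k164 11 (.d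
  k252 k168 k169 13 14)))))))) (.c k252 (.l (.s k1 k3 0 (.s k86 k254 13 (.s k253 k169 13 (.s k241
  k249 1 (.s k81 k161 11 (.d k89 k93 k13 1 13))))))) (.c k253 (.l (.s k3 k1 0 (.s k86 k254 13 (.s
  k252 k169 14 (.d k84 k87 k168 0 13))))) .n))))) (.c k252 (.l (.s k1 k3 0 (.s k86 k254 13 (.s k253
  k169 13 (.s k241 k249 1 (.s k81 k161 11 (.d k89 k93 k13 1 13))))))) (.c k253 (.l (.s k3 k1 0 (.s
  k86 k254 13 (.s k252 k169 14 (.d k84 k87 k168 0 13))))) .n)))))))))) (.c k95 (.l (.s k5 k245 11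
  (.s k15 k10 2 (.s k170 k255 14 (.s k160 k175 2 (.d k240 k80 k90 11 14)))))) (.c k170 (.f k5 k245
  11 (.q k37 [(.s k53 k21 3 (.s k101 k229 7 (.s k69 k117 3 (.d k197 k133 k149 7 11)))), (.s k15 k10
  2 (.s k48 k26 6 (.s k16 k32 3 (.s k154 k223 10 (.d k101 k229 k207 7 14))))), (.s k15 k10 2 (.s k21
  k53 3 (.s k26 k48 6 (.s k16 k31 2 (.s k90 k240 14 (.d k154 k218 k223 7 10))))))] (.c k42 (.q k234
  [(.s k53 k21 3 (.s k101 k229 7 (.s k69 k117 3 (.d k197 k133 k149 7 11)))), (.s k15 k10 2 (.s k21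
  k53 3 (.s k26 k48 6 (.s k16 k31 2 (.s k90 k240 14 (.d k154 k218 k223 7 10)))))), (.s k15 k10 2 (.s
  k90 k240 14 (.s k101 k229 7 (.s k79 k112 6 (.s k207 k143 7 (.d k48 k26 k154 6 14))))))] .n) (.c
  k234 (.q k42 [(.d k21 k53 k63 3 6), (.s k15 k10 2 (.s k48 k26 6 (.s k16 k32 3 (.s k101 k229 7 (.d
  k154 k223 k207 10 14)))))] .n) .n)))) (.c k175 (.l (.s k245 k5 11 (.s k255 k170 14 (.s k240 k250 2
  (.s k80 k160 11 (.d k90 k95 k15 2 14)))))) (.c k240 (.q k1 [(.s k3 k2 0 (.s k169 k253 13 (.s k86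
  k252 14 (.s k87 k84 0 (.d k255 k171 k170 13 14))))), (.s k169 k253 13 (.s k161 k173 1 (.s k241 k81
  11 (.s k13 k89 13 (.d k5 k9 k245 1 11))))), (.s k3 k2 0 (.s k5 k245 11 (.s k9 k13 1 (.s k6 k12 2
  (.s k7 k4 0 (.d k15 k11 k10 1 2))))))] .n) (.c k245 (.q k1 [(.s k3 k2 0 (.s k169 k253 13 (.s k86
  k252 14 (.s k87 k84 0 (.d k255 k171 k170 13 14))))), (.s k3 k2 0 (.s k169 k253 13 (.s k161 k173 1
  (.s k240 k82 12 (.s k80 k160 11 (.d k90 k95 k15 2 14)))))), (.s k3 k2 0 (.s k170 k255 14 (.s k160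
  k175 2 (.s k240 k80 11 (.s k161 k82 12 (.s k162 k163 0 (.d k81 k241 k243 11 12))))))), (.s k169
  k253 13 (.s k161 k173 1 (.s k170 k255 14 (.s k160 k175 2 (.s k162 k163 0 (.d k81 k241 k243 11
  12))))))] (.c k241 (.l (.s k3 k2 0 (.s k255 k170 14 (.s k87 k171 13 (.s k86 k84 0 (.d k169 k253
  k252 13 14)))))) .n)) (.c k250 (.l (.s k5 k245 11 (.s k15 k10 2 (.s k90 k240 14 (.s k255 k170 14
  (.d k95 k80 k175 2 11)))))) (.c k255 (.q k1 [(.s k5 k245 11 (.s k13 k9 1 (.s k89 k241 13 (.s k93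
  k81 1 (.d k253 k173 k169 11 13))))), (.s k3 k2 0 (.s k169 k253 13 (.s k161 k173 1 (.s k240 k82 12
  (.s k80 k160 11 (.d k90 k95 k15 2 14)))))), (.s k3 k2 0 (.s k5 k245 11 (.s k15 k10 2 (.s k7 k11 1
  (.s k86 k244 12 (.d k169 k253 k252 13 14)))))), (.s k3 k2 0 (.s k5 k245 11 (.s k9 k13 1 (.s k6 k12
  2 (.s k7 k4 0 (.d k15 k11 k10 1 2))))))] (.c k240 (.l (.s k169 k253 13 (.s k161 k173 1 (.s k241
  k81 11 (.s k13 k89 13 (.d k5 k9 k245 1 11)))))) .n)) .n)))))))))))))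

def t47_107 : T TT 256 :=
  (.q k166 [(.s k4 k247 12 (.s k12 k8 1 (.s k89 k243 14 (.s k93 k81 1 (.d k255 k174 k170 12 14)))))]
  (.c k4 (.q k227 [(.s k105 k44 10 (.s k65 k125 5 (.s k195 k130 8 (.s k243 k211 3 (.s k81 k162 12
  (.d k89 k93 k12 1 14)))))), (.s k44 k105 10 (.s k170 k255 14 (.s k174 k162 1 (.s k239 k109 8 (.s
  k101 k32 10 (.d k231 k235 k36 1 8)))))), (.s k170 k255 14 (.s k162 k174 1 (.s k97 k32 8 (.s k243
  k81 12 (.s k195 k211 3 (.s k130 k65 8 (.d k146 k178 k48 3 12)))))))] (.c k162 (.l (.s k105 k44 10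
  (.s k65 k125 5 (.s k170 k255 14 (.s k40 k235 8 (.s k60 k20 5 (.d k195 k130 k150 8 14))))))) .n))
  (.c k8 (.l (.s k247 k4 12 (.s k255 k170 14 (.s k243 k251 1 (.s k89 k12 14 (.d k81 k93 k162 1
  12)))))) (.c k12 (.q k167 [(.s k165 k164 0 (.s k245 k5 11 (.s k247 k4 12 (.s k244 k246 0 (.d k7
  k87 k86 11 12))))), (.s k165 k164 0 (.s k170 k255 14 (.s k174 k162 1 (.s k175 k160 2 (.s k163 k171
  1 (.d k172 k173 k169 0 2)))))), (.s k247 k4 12 (.s k87 k7 11 (.s k255 k170 14 (.s k3 k171 13 (.s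
  k1 k2 0 (.s k169 k253 13 (.d k86 k84 k252 0 14)))))))] (.c k87 (.l (.s k165 k164 0 (.s k5 k245 11
  (.s k15 k10 2 (.s k170 k255 14 (.s k160 k175 2 (.d k240 k80 k90 11 14))))))) .n)) (.c k81 (.q k167
  [(.s k165 k164 0 (.s k245 k5 11 (.s k247 k4 12 (.s k244 k246 0 (.d k7 k87 k86 11 12))))), (.s k165
  k164 0 (.s k170 k255 14 (.s k174 k162 1 (.s k175 k160 2 (.s k163 k171 1 (.d k172 k173 k169 0
  2)))))), (.s k247 k4 12 (.s k87 k7 11 (.s k255 k170 14 (.s k3 k171 13 (.s k1 k2 0 (.s k169 k253 13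
  (.d k86 k84 k252 0 14)))))))] (.c k87 (.l (.s k4 k247 12 (.s k12 k8 1 (.s k165 k164 0 (.s k5 k245
  11 (.s k15 k10 2 (.d k243 k91 k89 13 14))))))) .n)) (.c k89 (.q k167 [(.s k165 k164 0 (.s k245 k5
  11 (.s k247 k4 12 (.s k244 k246 0 (.d k7 k87 k86 11 12))))), (.s k165 k164 0 (.s k170 k255 14 (.s
  k174 k162 1 (.s k175 k160 2 (.s k163 k171 1 (.d k172 k173 k169 0 2)))))), (.s k247 k4 12 (.s k87
  k7 11 (.s k255 k170 14 (.s k3 k171 13 (.s k1 k2 0 (.s k169 k253 13 (.d k86 k84 k252 0 14)))))))]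
  (.c k87 (.l (.s k165 k164 0 (.s k5 k245 11 (.s k15 k10 2 (.s k90 k240 14 (.s k95 k80 2 (.d k255
  k175 k170 11 14))))))) .n)) (.c k93 (.l (.s k4 k247 12 (.s k12 k8 1 (.s k170 k255 14 (.s k162 k174
  1 (.d k243 k81 k89 12 14)))))) (.c k167 (.q k227 [(.s k170 k255 14 (.s k162 k174 1 (.s k243 k81 12
  (.s k12 k89 14 (.d k4 k8 k247 1 12))))), (.s k44 k105 10 (.s k170 k255 14 (.s k174 k162 1 (.s k239
  k109 8 (.s k101 k32 10 (.d k231 k235 k36 1 8)))))), (.s k4 k247 12 (.s k12 k8 1 (.s k105 k44 10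
  (.s k65 k125 5 (.s k195 k130 8 (.d k243 k211 k89 3 14))))))] .n) (.c k170 (.f k4 k247 12 (.q k105
  [(.s k12 k8 1 (.s k65 k125 5 (.s k89 k243 14 (.s k195 k130 8 (.d k73 k121 k134 3 10))))), (.s k65
  k125 5 (.s k195 k130 8 (.s k150 k60 14 (.s k20 k215 8 (.s k52 k36 3 (.s k134 k182 3 (.d k199 k69
  k101 8 12))))))), (.s k12 k8 1 (.s k65 k125 5 (.s k89 k243 14 (.s k73 k121 3 (.s k77 k69 1 (.s k81
  k93 1 (.d k113 k97 k101 3 5))))))), (.s k12 k8 1 (.s k65 k125 5 (.s k195 k130 8 (.s k134 k73 10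
  (.d k150 k182 k60 3 14))))), (.s k12 k8 1 (.s k89 k243 14 (.s k73 k121 3 (.s k195 k134 10 (.s k60
  k150 14 (.d k44 k227 k28 10 3))))))] (.c k167 (.l (.s k227 k44 10 (.s k12 k8 1 (.s k65 k125 5 (.s
  k195 k130 8 (.d k243 k89 k211 14 3)))))) (.c k227 (.q k167 [(.s k12 k8 1 (.s k65 k125 5 (.s k89
  k243 14 (.s k195 k130 8 (.d k73 k121 k134 3 10))))), (.s k65 k125 5 (.s k165 k164 0 (.s k5 k245 11
  (.s k15 k10 2 (.s k45 k225 9 (.s k60 k30 4 (.d k195 k130 k150 8 14))))))), (.s k12 k8 1 (.s k165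
  k164 0 (.s k5 k245 11 (.s k15 k10 2 (.d k243 k89 k91 14 13)))))] .n) .n)))) (.c k174 (.l (.s k247
  k4 12 (.s k255 k170 14 (.s k243 k251 1 (.s k81 k162 12 (.d k89 k93 k12 1 14)))))) (.c k227 (.q
  k167 [(.s k4 k247 12 (.s k12 k8 1 (.s k170 k255 14 (.s k162 k174 1 (.d k243 k81 k89 12 14))))),
  (.s k165 k164 0 (.s k245 k5 11 (.s k247 k4 12 (.s k7 k87 11 (.d k244 k246 k86 0 12))))), (.s k165
  k164 0 (.s k5 k245 11 (.s k15 k10 2 (.s k90 k240 14 (.s k95 k80 2 (.d k255 k175 k170 11 14))))))]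
  .n) (.c k243 (.q k167 [(.s k165 k164 0 (.s k245 k5 11 (.s k247 k4 12 (.s k7 k87 11 (.d k244 k246
  k86 0 12))))), (.s k165 k164 0 (.s k5 k245 11 (.s k15 k10 2 (.s k90 k240 14 (.s k95 k80 2 (.d k255
  k175 k170 11 14)))))), (.s k247 k4 12 (.s k87 k7 11 (.s k255 k170 14 (.s k3 k171 13 (.s k1 k2 0
  (.s k169 k253 13 (.d k86 k84 k252 0 14)))))))] (.c k5 (.l (.s k165 k164 0 (.s k170 k255 14 (.s
  k174 k162 1 (.s k175 k160 2 (.s k163 k171 1 (.d k172 k173 k169 0 2))))))) .n)) (.c k247 (.q k227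
  [(.s k105 k44 10 (.s k65 k125 5 (.s k195 k130 8 (.s k60 k150 14 (.s k40 k20 5 (.d k170 k235 k255 8
  14)))))), (.s k170 k255 14 (.s k162 k174 1 (.s k32 k97 8 (.s k48 k16 3 (.s k101 k239 10 (.s k69
  k117 3 (.d k207 k138 k154 10 14))))))), (.s k105 k44 10 (.s k65 k125 5 (.s k195 k130 8 (.s k243
  k211 3 (.s k81 k162 12 (.d k89 k93 k12 1 14))))))] (.c k44 (.l (.s k170 k255 14 (.s k162 k174 1
  (.s k97 k32 8 (.s k243 k81 12 (.s k195 k211 3 (.s k130 k65 8 (.d k146 k178 k48 3 12)))))))) .n))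
  (.c k251 (.l (.s k4 k247 12 (.s k12 k8 1 (.s k89 k243 14 (.s k255 k170 14 (.d k93 k81 k174 1
  12)))))) (.c k255 (.q k165 [(.s k167 k164 0 (.s k245 k5 11 (.s k247 k4 12 (.s k244 k246 0 (.d k7
  k87 k86 11 12))))), (.s k5 k245 11 (.s k15 k10 2 (.s k167 k164 0 (.s k243 k91 13 (.s k81 k162 12
  (.d k89 k93 k12 1 14)))))), (.s k4 k247 12 (.s k12 k8 1 (.s k167 k164 0 (.s k243 k89 14 (.s k15
  k91 13 (.s k14 k13 0 (.d k90 k242 k240 13 14)))))))] (.c k164 (.l (.s k4 k247 12 (.s k5 k245 11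
  (.s k12 k8 1 (.s k15 k10 2 (.s k13 k14 0 (.d k89 k243 k241 14 13))))))) (.c k167 (.q k227 [(.s
  k105 k44 10 (.s k65 k125 5 (.s k195 k130 8 (.s k243 k211 3 (.s k81 k162 12 (.d k89 k93 k12 1
  14)))))), (.s k4 k247 12 (.s k5 k245 11 (.s k12 k8 1 (.s k15 k10 2 (.s k14 k13 0 (.d k90 k240 k242
  14 13)))))), (.s k5 k245 11 (.s k15 k10 2 (.s k105 k44 10 (.s k45 k225 9 (.s k60 k30 4 (.s k20 k40
  5 (.d k150 k215 k195 8 14)))))))] .n) (.c k227 (.l (.s k167 k164 0 (.s k245 k5 11 (.s k247 k4 12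
  (.s k7 k87 11 (.d k244 k246 k86 0 12)))))) .n)))) .n)))))))))))))))

def t47_122 : T TT 256 :=
  (.f k255 k170 14 (.q k105 [(.s k65 k125 5 (.s k195 k130 8 (.s k150 k60 14 (.d k215 k235 k20 5
  8))))] (.c k20 (.q k1 [(.s k169 k253 13 (.s k3 k2 0 (.s k86 k252 14 (.d k87 k84 k171 0 13)))), (.s
  k65 k125 5 (.s k169 k253 13 (.s k41 k233 7 (.s k61 k21 5 (.d k193 k129 k149 7 13))))), (.s k3 k2 0
  (.s k65 k125 5 (.s k129 k193 7 (.s k66 k192 8 (.s k67 k64 0 (.d k195 k131 k130 7 8))))))] .n) (.c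
  k60 (.q k1 [(.s k3 k2 0 (.s k87 k171 13 (.s k86 k84 0 (.d k169 k253 k252 13 14)))), (.s k65 k125 5
  (.s k169 k253 13 (.s k41 k233 7 (.s k61 k21 5 (.d k193 k129 k149 7 13))))), (.s k3 k2 0 (.s k65
  k125 5 (.s k129 k193 7 (.s k66 k192 8 (.s k67 k64 0 (.d k195 k131 k130 7 8))))))] .n) (.c k65 (.q
  k1 [(.s k169 k253 13 (.s k3 k2 0 (.s k86 k252 14 (.d k87 k84 k171 0 13)))), (.s k169 k253 13 (.s
  k41 k233 7 (.s k21 k61 5 (.s k63 k42 6 (.s k127 k191 7 (.s k106 k64 6 (.d k149 k213 k192 7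
  14)))))))] (.c k169 (.f k3 k2 0 (.q k86 [(.d k87 k171 k84 13 0), (.s k67 k124 6 (.s k195 k131 7
  (.s k150 k60 14 (.d k215 k235 k20 5 8))))] (.c k168 (.l (.s k171 k87 13 (.s k67 k124 6 (.s k195
  k131 7 (.s k150 k60 14 (.d k215 k235 k20 5 8)))))) (.c k171 (.q k168 [(.d k84 k87 k252 0 13), (.s
  k67 k124 6 (.s k195 k131 7 (.s k215 k235 5 (.d k150 k20 k60 8 14))))] .n) .n)))) (.c k253 (.l (.s
  k3 k2 0 (.s k87 k171 13 (.s k86 k84 0 (.s k67 k124 6 (.s k195 k131 7 (.s k150 k60 14 (.d k215 k235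
  k20 5 8)))))))) .n))) (.c k125 (.q k253 [(.s k169 k1 13 (.s k252 k254 0 (.s k84 k168 13 (.d k86
  k87 k3 0 14)))), (.s k169 k1 13 (.s k233 k41 7 (.s k213 k193 5 (.s k192 k234 6 (.s k64 k128 7 (.s
  k106 k127 6 (.d k149 k21 k63 7 14)))))))] (.c k1 (.l (.s k252 k254 0 (.s k84 k168 13 (.s k86 k87 0
  (.s k124 k67 6 (.s k60 k188 7 (.s k20 k40 5 (.d k150 k215 k195 8 14)))))))) (.c k169 (.f k252 k254
  0 (.q k86 [(.d k84 k168 k87 13 0), (.s k124 k67 6 (.s k60 k188 7 (.s k20 k40 5 (.d k150 k215 k195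
  8 14))))] (.c k168 (.q k171 [(.d k87 k84 k3 0 13), (.s k124 k67 6 (.s k60 k188 7 (.s k20 k40 5 (.d
  k150 k215 k195 8 14))))] .n) (.c k171 (.l (.s k168 k84 13 (.s k124 k67 6 (.s k60 k188 7 (.s k20
  k40 5 (.d k150 k215 k195 8 14)))))) .n)))) .n))) (.c k130 (.l (.s k125 k65 5 (.s k60 k190 8 (.s
  k150 k195 14 (.d k20 k40 k215 5 8))))) (.c k150 (.f k65 k125 5 (.q k64 [(.s k67 k66 0 (.s k86 k124
  6 (.s k87 k84 0 (.d k127 k107 k106 5 6)))), (.s k66 k67 0 (.s k130 k195 8 (.s k192 k128 7 (.s k3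
  k129 8 (.d k2 k1 k194 0 7))))), (.s k106 k127 6 (.s k192 k128 7 (.s k149 k63 14 (.d k213 k234 k21
  6 7))))] (.c k130 (.q k190 [(.s k67 k66 0 (.s k86 k124 6 (.s k87 k84 0 (.d k127 k107 k106 5 6)))),
  (.s k66 k67 0 (.s k192 k128 7 (.s k129 k3 8 (.s k193 k1 7 (.s k149 k61 13 (.d k213 k21 k234 7
  6)))))), (.s k106 k127 6 (.s k192 k128 7 (.s k149 k63 14 (.d k213 k234 k21 6 7))))] .n) (.c k190
  (.l (.s k130 k195 8 (.s k66 k67 0 (.s k2 k194 7 (.s k3 k1 0 (.d k192 k128 k129 7 8)))))) .n))))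
  (.c k190 (.l (.s k65 k125 5 (.s k195 k130 8 (.s k150 k60 14 (.d k215 k235 k20 5 8))))) (.c k195
  (.q k1 [(.s k3 k2 0 (.s k87 k171 13 (.s k86 k84 0 (.d k169 k253 k252 13 14)))), (.s k65 k125 5 (.s
  k169 k253 13 (.s k41 k233 7 (.s k61 k21 5 (.d k193 k129 k149 7 13))))), (.s k3 k2 0 (.s k125 k65 5
  (.s k60 k190 8 (.s k40 k20 5 (.s k41 k22 6 (.s k21 k61 5 (.d k42 k43 k63 0 6)))))))] .n) (.c k215
  (.q k1 [(.s k169 k253 13 (.s k3 k2 0 (.s k86 k252 14 (.d k87 k84 k171 0 13)))), (.s k65 k125 5 (.s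
  k169 k253 13 (.s k41 k233 7 (.s k61 k21 5 (.d k193 k129 k149 7 13))))), (.s k3 k2 0 (.s k65 k125 5
  (.s k129 k193 7 (.s k66 k192 8 (.s k67 k64 0 (.d k195 k131 k130 7 8))))))] .n) (.c k235 (.l (.s
  k125 k65 5 (.s k60 k190 8 (.s k20 k40 5 (.d k150 k215 k195 8 14))))) .n))))))))))))

def t47_143 : T TT 256 :=
  (.f k255 k170 14 (.q k106 [(.s k64 k127 6 (.s k192 k128 7 (.s k213 k234 6 (.d k149 k21 k63 7
  14)))), (.s k127 k64 6 (.s k63 k191 7 (.s k149 k192 14 (.d k21 k42 k213 6 7))))] (.c k21 (.q k1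
  [(.s k169 k253 13 (.s k3 k2 0 (.s k86 k252 14 (.d k87 k84 k171 0 13)))), (.s k64 k127 6 (.s k192
  k128 7 (.s k213 k234 6 (.s k253 k169 13 (.s k193 k233 5 (.s k65 k129 7 (.d k195 k130 k194 8
  0))))))), (.s k3 k2 0 (.s k64 k127 6 (.s k192 k128 7 (.s k66 k129 8 (.s k86 k126 5 (.d k87 k84
  k171 0 13))))))] (.c k171 (.l (.s k3 k2 0 (.s k127 k64 6 (.s k63 k191 7 (.s k43 k23 5 (.d k169
  k232 k253 8 13)))))) .n)) (.c k63 (.q k15 [(.s k5 k10 2 (.s k165 k245 11 (.s k90 k240 14 (.d k95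
  k80 k175 2 11)))), (.s k10 k5 2 (.s k64 k127 6 (.s k192 k128 7 (.s k74 k133 10 (.s k138 k202 7 (.d
  k69 k79 k207 2 10)))))), (.s k64 k127 6 (.s k95 k175 11 (.s k90 k80 2 (.s k74 k122 3 (.d k192 k128
  k133 7 10)))))] .n) (.c k64 (.q k3 [(.s k1 k2 0 (.s k87 k171 13 (.s k169 k253 13 (.d k86 k84 k252
  0 14)))), (.s k1 k2 0 (.s k169 k253 13 (.s k43 k232 8 (.s k63 k23 5 (.s k21 k42 6 (.d k149 k213
  k192 7 14)))))), (.s k87 k171 13 (.s k86 k84 0 (.s k66 k126 5 (.s k192 k129 8 (.s k149 k63 14 (.d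
  k213 k234 k21 6 7))))))] (.c k86 (.f k87 k171 13 (.q k169 [(.d k1 k2 k253 0 13), (.s k43 k232 8
  (.s k63 k23 5 (.s k21 k42 6 (.d k149 k213 k192 7 14))))] (.c k2 (.q k254 [(.d k253 k252 k1 0 13),
  (.s k43 k232 8 (.s k63 k23 5 (.s k21 k42 6 (.d k149 k213 k192 7 14))))] .n) (.c k254 (.l (.s k2 k1
  0 (.s k43 k232 8 (.s k63 k23 5 (.s k21 k42 6 (.d k149 k213 k192 7 14)))))) .n)))) (.c k169 (.q k66
  [(.s k86 k126 5 (.d k87 k171 k84 13 0)), (.s k192 k129 8 (.s k149 k63 14 (.d k213 k234 k21 6 7)))]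
  (.c k168 (.l (.s k171 k87 13 (.s k192 k129 8 (.s k149 k63 14 (.d k213 k234 k21 6 7))))) (.c k171
  (.q k168 [(.s k84 k252 13 (.d k86 k87 k126 0 5)), (.s k192 k129 8 (.s k149 k63 14 (.d k213 k234
  k21 6 7)))] .n) .n))) .n))) (.c k127 (.q k204 [(.s k68 k136 9 (.s k221 k238 4 (.s k153 k17 9 (.d
  k102 k119 k51 4 14)))), (.s k68 k136 9 (.s k102 k119 4 (.s k110 k98 1 (.s k63 k157 12 (.s k21 k42
  6 (.d k149 k213 k192 7 14)))))), (.s k221 k238 4 (.s k153 k17 9 (.s k200 k59 12 (.s k192 k196 1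
  (.s k149 k63 14 (.d k213 k234 k21 6 7))))))] (.c k102 (.q k200 [(.s k153 k59 12 (.d k221 k238 k17
  4 9)), (.s k192 k196 1 (.s k149 k63 14 (.d k213 k234 k21 6 7)))] (.c k34 (.l (.s k238 k221 4 (.s
  k192 k196 1 (.s k149 k63 14 (.d k213 k234 k21 6 7))))) (.c k238 (.q k34 [(.s k17 k51 4 (.d k153
  k221 k59 9 12)), (.s k192 k196 1 (.s k149 k63 14 (.d k213 k234 k21 6 7)))] .n) .n))) (.c k153 (.q
  k213 [(.s k149 k21 7 (.d k192 k234 k63 6 14)), (.s k221 k238 4 (.s k217 k209 1 (.s k243 k230 6 (.s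
  k81 k162 12 (.s k89 k93 1 (.s k166 k12 14 (.d k247 k251 k4 1 12)))))))] (.c k136 (.q k187 [(.s
  k149 k21 7 (.d k192 k234 k63 6 14)), (.s k192 k234 6 (.s k196 k200 1 (.s k221 k238 4 (.s k217 k209
  1 (.d k230 k247 k243 4 6))))), (.s k21 k149 7 (.s k63 k42 6 (.s k119 k51 9 (.s k102 k68 4 (.d k110
  k157 k98 12 1)))))] .n) (.c k187 (.l (.s k136 k68 9 (.s k149 k21 7 (.d k192 k234 k63 6 14)))) (.c
  k234 (.l (.s k149 k21 7 (.s k63 k192 14 (.s k110 k157 12 (.s k102 k98 1 (.d k68 k119 k136 4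
  9)))))) .n)))) .n))) (.c k128 (.l (.s k127 k64 6 (.s k63 k191 7 (.s k149 k192 14 (.d k21 k42 k213
  6 7))))) (.c k149 (.f k64 k127 6 (.f k128 k192 7 (.q k65 [(.s k195 k130 8 (.s k215 k235 5 (.s k150
  k20 8 (.d k105 k125 k60 5 14)))), (.s k66 k67 0 (.s k86 k126 5 (.s k87 k84 0 (.s k3 k171 13 (.s k1
  k2 0 (.d k169 k253 k252 13 14))))))] (.c k125 (.l (.s k67 k66 0 (.s k195 k130 8 (.s k3 k131 7 (.s
  k87 k171 13 (.s k86 k84 0 (.s k169 k252 14 (.d k1 k2 k253 0 13)))))))) .n)))) (.c k191 (.l (.s k64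
  k127 6 (.s k192 k128 7 (.s k149 k63 14 (.d k213 k234 k21 6 7))))) (.c k192 (.q k1 [(.s k3 k2 0 (.s
  k87 k171 13 (.s k86 k84 0 (.d k169 k253 k252 13 14)))), (.s k127 k64 6 (.s k63 k191 7 (.s k21 k42
  6 (.s k61 k41 5 (.s k253 k169 13 (.s k125 k189 7 (.d k60 k190 k62 8 0))))))), (.s k3 k2 0 (.s k127
  k64 6 (.s k63 k191 7 (.s k21 k42 6 (.s k23 k43 5 (.s k22 k20 0 (.d k41 k61 k60 5 6)))))))] .n) (.c
  k213 (.q k1 [(.s k3 k2 0 (.s k87 k171 13 (.s k86 k84 0 (.d k169 k253 k252 13 14)))), (.s k64 k127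
  6 (.s k169 k253 13 (.s k192 k128 7 (.s k149 k63 14 (.s k129 k189 5 (.s k66 k3 8 (.d k65 k193 k67 7
  0))))))), (.s k3 k2 0 (.s k64 k127 6 (.s k192 k128 7 (.s k66 k129 8 (.s k86 k126 5 (.d k87 k84
  k171 0 13))))))] (.c k3 (.l (.s k127 k64 6 (.s k63 k191 7 (.s k21 k42 6 (.s k61 k41 5 (.s k60 k62
  0 (.s k125 k190 8 (.d k253 k189 k169 7 13)))))))) .n)) .n)))))))))))

def t47_154 : T TT 256 :=
  (.f k170 k255 14 (.q k252 [(.s k84 k168 13 (.s k86 k87 0 (.s k2 k254 13 (.d k3 k1 k169 0 14))))]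
  (.c k1 (.q k4 [(.s k12 k8 1 (.s k166 k247 12 (.s k162 k174 1 (.d k243 k81 k89 12 14)))), (.s k12
  k8 1 (.s k84 k168 13 (.s k92 k172 11 (.s k88 k80 1 (.d k164 k244 k240 11 13))))), (.s k84 k168 13
  (.s k86 k87 0 (.s k166 k247 12 (.s k6 k246 11 (.s k7 k5 0 (.d k244 k164 k165 11 12))))))] .n) (.c
  k2 (.q k4 [(.s k12 k8 1 (.s k166 k247 12 (.s k162 k174 1 (.d k243 k81 k89 12 14)))), (.s k12 k8 1
  (.s k84 k168 13 (.s k92 k172 11 (.s k88 k80 1 (.d k164 k244 k240 11 13))))), (.s k84 k168 13 (.s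
  k86 k87 0 (.s k166 k247 12 (.s k6 k246 11 (.s k7 k5 0 (.d k244 k164 k165 11 12))))))] .n) (.c k3
  (.f k168 k84 13 (.q k248 [(.s k88 k8 11 (.s k240 k244 1 (.s k160 k80 11 (.d k164 k172 k12 1
  13)))), (.s k8 k88 11 (.s k89 k251 12 (.s k81 k93 1 (.s k243 k162 12 (.d k12 k4 k166 1 14))))),
  (.s k240 k244 1 (.s k80 k160 11 (.s k90 k95 2 (.d k169 k171 k11 0 12))))] (.c k4 (.l (.s k88 k8 11
  (.s k240 k244 1 (.s k164 k12 13 (.d k160 k172 k80 1 11))))) (.c k80 (.l (.s k88 k8 11 (.s k240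
  k244 1 (.s k164 k12 13 (.s k160 k172 1 (.s k165 k175 2 (.s k5 k245 11 (.d k15 k10 k90 2 14))))))))
  (.c k87 (.l (.s k171 k169 0 (.s k88 k8 11 (.s k240 k244 1 (.s k160 k80 11 (.d k164 k172 k12 1
  13)))))) (.c k171 (.q k87 [(.s k88 k8 11 (.s k240 k244 1 (.s k160 k80 11 (.d k164 k172 k12 1
  13)))), (.s k8 k88 11 (.s k89 k251 12 (.s k81 k93 1 (.s k243 k162 12 (.d k12 k4 k166 1 14))))),
  (.s k240 k244 1 (.s k80 k160 11 (.s k90 k95 2 (.s k10 k250 11 (.d k15 k5 k165 2 14)))))] (.c k4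
  (.l (.s k88 k8 11 (.s k240 k244 1 (.s k164 k12 13 (.d k160 k172 k80 1 11))))) (.c k80 (.l (.s k88
  k8 11 (.s k240 k244 1 (.s k164 k12 13 (.s k160 k172 1 (.s k165 k175 2 (.s k5 k245 11 (.d k15 k10
  k90 2 14)))))))) .n))) .n)))))) (.c k84 (.q k150 [(.s k20 k215 8 (.s k60 k40 5 (.s k130 k190 5 (.d
  k195 k65 k105 8 14)))), (.s k130 k190 5 (.s k195 k65 8 (.s k214 k233 6 (.s k86 k22 7 (.s k2 k254
  13 (.d k3 k1 k169 0 14)))))), (.s k20 k215 8 (.s k60 k40 5 (.s k188 k124 7 (.s k169 k131 6 (.s k1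
  k253 13 (.d k3 k2 k86 0 14))))))] (.c k60 (.q k169 [(.s k1 k253 13 (.d k3 k2 k86 0 14)), (.s k131
  k188 6 (.s k171 k168 0 (.s k191 k151 5 (.s k128 k149 6 (.d k130 k190 k129 5 0)))))] (.c k125 (.l
  (.s k190 k130 5 (.s k1 k253 13 (.d k3 k2 k86 0 14)))) (.c k190 (.q k125 [(.s k1 k253 13 (.d k3 k2
  k86 0 14)), (.s k3 k86 14 (.s k65 k105 5 (.s k131 k188 6 (.d k195 k67 k130 7 8)))), (.s k1 k253 13
  (.s k65 k105 5 (.s k129 k193 7 (.s k130 k195 8 (.d k131 k128 k188 0 6)))))] .n) .n))) (.c k195 (.q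
  k162 [(.s k166 k174 1 (.s k4 k247 12 (.s k12 k8 1 (.d k243 k81 k89 12 14)))), (.s k166 k174 1 (.s
  k182 k134 3 (.s k243 k81 12 (.s k60 k121 10 (.d k20 k215 k40 8 5))))), (.s k81 k243 12 (.s k130
  k190 5 (.s k146 k178 3 (.s k211 k16 8 (.d k89 k93 k28 1 10))))), (.s k166 k174 1 (.s k182 k134 3
  (.s k215 k20 8 (.s k247 k4 12 (.s k52 k117 8 (.d k199 k231 k101 3 12))))))] (.c k93 (.l (.s k243
  k81 12 (.s k166 k174 1 (.s k12 k89 14 (.d k4 k8 k247 1 12))))) (.c k166 (.l (.s k81 k243 12 (.s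
  k89 k93 1 (.s k130 k190 5 (.s k211 k28 10 (.d k146 k178 k16 3 8)))))) (.c k215 (.q k235 [(.s k243
  k81 12 (.s k166 k174 1 (.s k12 k89 14 (.d k4 k8 k247 1 12)))), (.s k105 k40 8 (.s k166 k174 1 (.s
  k227 k44 10 (.s k32 k97 8 (.d k239 k231 k101 1 10))))), (.s k40 k105 8 (.s k60 k20 5 (.s k243 k81
  12 (.s k182 k121 10 (.d k166 k174 k134 1 3)))))] (.c k166 (.l (.s k81 k243 12 (.s k89 k93 1 (.s
  k130 k190 5 (.s k211 k28 10 (.d k146 k178 k16 3 8)))))) (.c k174 (.l (.s k81 k243 12 (.s k130 k190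
  5 (.s k146 k178 3 (.s k211 k16 8 (.d k89 k93 k28 1 10)))))) .n))) (.c k235 (.l (.s k215 k20 8 (.s
  k166 k174 1 (.s k4 k247 12 (.s k12 k8 1 (.d k243 k81 k89 12 14)))))) .n))))) .n))) (.c k86 (.f k84
  k168 13 (.q k4 [(.s k12 k8 1 (.s k92 k172 11 (.s k88 k80 1 (.d k164 k244 k240 11 13)))), (.s k166
  k247 12 (.s k162 k174 1 (.s k243 k81 12 (.d k12 k8 k89 1 14))))] (.c k8 (.l (.s k164 k244 11 (.s
  k166 k247 12 (.s k162 k174 1 (.s k243 k81 12 (.s k12 k89 14 (.s k88 k240 13 (.d k92 k80 k172 1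
  11)))))))) (.c k12 (.l (.s k244 k164 11 (.s k240 k248 1 (.s k160 k80 11 (.s k165 k175 2 (.s k5
  k245 11 (.d k15 k10 k90 2 14))))))) (.c k18 (.q k222 [(.s k12 k8 1 (.s k92 k172 11 (.s k88 k80 1
  (.d k164 k244 k240 11 13)))), (.s k166 k247 12 (.s k162 k174 1 (.s k243 k81 12 (.d k12 k8 k89 1
  14)))), (.s k207 k237 4 (.s k69 k138 10 (.s k199 k134 8 (.s k244 k164 11 (.s k214 k229 4 (.d k195
  k233 k203 6 1))))))] .n) (.c k222 (.q k18 [(.s k12 k8 1 (.s k92 k172 11 (.s k88 k80 1 (.d k164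
  k244 k240 11 13)))), (.s k166 k247 12 (.s k162 k174 1 (.s k243 k81 12 (.d k12 k8 k89 1 14))))] (.c
  k8 (.l (.s k164 k244 11 (.s k166 k247 12 (.s k162 k174 1 (.s k243 k81 12 (.s k12 k89 14 (.s k88
  k240 13 (.d k92 k80 k172 1 11)))))))) (.c k12 (.l (.s k244 k164 11 (.s k240 k248 1 (.s k160 k80 11
  (.s k165 k175 2 (.s k5 k245 11 (.d k15 k10 k90 2 14))))))) .n))) .n)))))) (.c k87 (.l (.s k168 k84
  13 (.s k169 k171 0 (.s k3 k86 14 (.d k1 k2 k253 0 13))))) (.c k168 (.q k150 [(.s k20 k215 8 (.s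
  k130 k190 5 (.s k195 k65 8 (.d k60 k40 k105 5 14)))), (.s k130 k190 5 (.s k195 k65 8 (.s k214 k233
  6 (.s k86 k22 7 (.s k2 k254 13 (.d k3 k1 k169 0 14)))))), (.s k20 k215 8 (.s k60 k40 5 (.s k188
  k124 7 (.s k169 k131 6 (.s k1 k253 13 (.d k3 k2 k86 0 14))))))] (.c k60 (.q k166 [(.s k4 k247 12
  (.s k162 k174 1 (.s k243 k81 12 (.d k12 k8 k89 1 14)))), (.s k182 k134 3 (.s k215 k20 8 (.s k247
  k4 12 (.s k52 k117 8 (.d k199 k231 k101 3 12))))), (.s k134 k182 3 (.s k162 k174 1 (.s k243 k81 12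
  (.s k12 k89 14 (.s k195 k73 10 (.d k130 k190 k65 5 8))))))] (.c k125 (.l (.s k190 k130 5 (.s k4
  k247 12 (.s k12 k8 1 (.s k162 k174 1 (.d k243 k81 k89 12 14)))))) (.c k190 (.q k125 [(.s k4 k247
  12 (.s k162 k174 1 (.s k243 k81 12 (.d k12 k8 k89 1 14)))), (.s k182 k134 3 (.s k215 k20 8 (.s
  k247 k4 12 (.s k52 k117 8 (.d k199 k231 k101 3 12))))), (.s k65 k105 5 (.s k134 k182 3 (.s k162
  k174 1 (.s k195 k130 8 (.s k12 k73 10 (.d k243 k89 k81 14 12))))))] .n) .n))) (.c k195 (.q k166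
  [(.s k4 k247 12 (.s k162 k174 1 (.s k243 k81 12 (.d k12 k8 k89 1 14)))), (.s k4 k247 12 (.s k130
  k190 5 (.s k134 k182 3 (.s k69 k199 8 (.d k138 k207 k142 10 1))))), (.s k162 k174 1 (.s k182 k134
  3 (.s k243 k81 12 (.s k60 k121 10 (.d k20 k215 k40 8 5)))))] (.c k215 (.q k235 [(.s k162 k174 1
  (.s k243 k81 12 (.s k12 k89 14 (.d k4 k8 k247 1 12)))), (.s k4 k247 12 (.s k130 k190 5 (.s k134
  k182 3 (.s k138 k142 1 (.d k69 k199 k207 8 10))))), (.s k105 k40 8 (.s k162 k174 1 (.s k227 k44 10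
  (.s k32 k97 8 (.d k239 k231 k101 1 10)))))] (.c k174 (.l (.s k4 k247 12 (.s k12 k8 1 (.s k40 k105
  8 (.s k60 k20 5 (.s k28 k44 3 (.d k89 k243 k211 14 10))))))) .n)) (.c k235 (.l (.s k215 k20 8 (.s
  k4 k247 12 (.s k12 k8 1 (.s k162 k174 1 (.d k243 k81 k89 12 14)))))) (.c k243 (.l (.s k130 k190 5
  (.s k134 k182 3 (.s k138 k142 1 (.s k69 k207 10 (.d k4 k199 k247 8 12)))))) .n)))) .n))) (.c k169
  (.f k168 k84 13 (.q k192 [(.s k64 k128 7 (.s k106 k127 6 (.s k42 k234 7 (.d k63 k21 k149 6 14)))),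
  (.s k232 k212 5 (.s k40 k104 7 (.s k105 k235 8 (.s k65 k125 5 (.s k195 k130 8 (.d k60 k20 k150 5
  14))))))] (.c k64 (.l (.s k232 k212 5 (.s k104 k40 7 (.s k148 k60 13 (.s k128 k188 5 (.s k149 k191
  6 (.s k21 k213 7 (.d k63 k42 k106 6 14)))))))) (.c k139 (.q k184 [(.s k64 k128 7 (.s k106 k127 6
  (.s k42 k234 7 (.d k63 k21 k149 6 14)))), (.s k48 k116 9 (.s k32 k16 3 (.s k100 k236 9 (.d k152
  k136 k204 3 13))))] .n) (.c k184 (.q k139 [(.s k64 k128 7 (.s k106 k127 6 (.s k42 k234 7 (.d k63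
  k21 k149 6 14)))), (.s k232 k212 5 (.s k40 k104 7 (.s k105 k235 8 (.s k65 k125 5 (.s k195 k130 8
  (.d k60 k20 k150 5 14))))))] (.c k64 (.l (.s k232 k212 5 (.s k104 k40 7 (.s k148 k60 13 (.s k128
  k188 5 (.s k149 k191 6 (.s k21 k213 7 (.d k63 k42 k106 6 14)))))))) .n)) .n))))) (.c k171 (.l (.s
  k84 k168 13 (.s k86 k87 0 (.s k3 k169 14 (.d k2 k1 k254 0 13))))) (.c k254 (.l (.s k168 k84 13 (.s
  k169 k171 0 (.s k1 k253 13 (.d k3 k2 k86 0 14))))) .n))))))))))))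

def t47_155 : T TT 256 :=
  (.f k255 k170 14 (.q k106 [(.s k64 k127 6 (.s k192 k128 7 (.s k213 k234 6 (.d k149 k21 k63 7
  14))))] (.c k21 (.q k1 [(.s k3 k2 0 (.s k169 k253 13 (.s k86 k252 14 (.d k87 k84 k171 0 13)))),
  (.s k64 k127 6 (.s k192 k128 7 (.s k213 k234 6 (.s k253 k169 13 (.s k193 k233 5 (.s k65 k129 7 (.d
  k195 k130 k194 8 0))))))), (.s k3 k2 0 (.s k64 k127 6 (.s k192 k128 7 (.s k66 k129 8 (.s k86 k126
  5 (.d k87 k84 k171 0 13))))))] (.c k171 (.l (.s k3 k2 0 (.s k127 k64 6 (.s k63 k191 7 (.s k43 k23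
  5 (.d k169 k232 k253 8 13)))))) .n)) (.c k63 (.q k15 [(.s k5 k10 2 (.s k165 k245 11 (.s k90 k240
  14 (.d k95 k80 k175 2 11)))), (.s k10 k5 2 (.s k64 k127 6 (.s k192 k128 7 (.s k74 k133 10 (.s k69
  k79 2 (.d k138 k202 k207 7 10)))))), (.s k64 k127 6 (.s k95 k175 11 (.s k90 k80 2 (.s k74 k122 3
  (.d k192 k128 k133 7 10)))))] (.c k95 (.l (.s k5 k10 2 (.s k64 k127 6 (.s k165 k245 11 (.s k90
  k240 14 (.s k192 k128 7 (.d k74 k122 k133 3 10))))))) .n)) (.c k64 (.q k3 [(.s k1 k2 0 (.s k169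
  k253 13 (.s k86 k252 14 (.d k87 k84 k171 0 13)))), (.s k87 k171 13 (.s k86 k84 0 (.s k66 k126 5
  (.s k192 k129 8 (.s k149 k63 14 (.d k213 k234 k21 6 7)))))), (.s k1 k2 0 (.s k169 k253 13 (.s k43
  k232 8 (.s k63 k23 5 (.s k21 k42 6 (.d k149 k213 k192 7 14))))))] (.c k86 (.q k83 [(.s k243 k163
  11 (.s k81 k162 12 (.s k82 k80 0 (.s k161 k240 12 (.d k1 k2 k241 0 11))))), (.s k87 k171 13 (.s
  k91 k95 1 (.s k243 k163 11 (.s k167 k15 13 (.d k247 k251 k7 1 11))))), (.s k87 k171 13 (.s k95 k91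
  1 (.s k80 k90 2 (.s k82 k81 0 (.d k240 k160 k161 11 12)))))] (.c k2 (.q k254 [(.s k243 k163 11 (.s
  k81 k162 12 (.s k89 k93 1 (.s k166 k12 14 (.d k247 k251 k4 1 12))))), (.s k87 k171 13 (.s k91 k95
  1 (.s k243 k163 11 (.s k167 k15 13 (.d k247 k251 k7 1 11))))), (.s k87 k171 13 (.s k95 k91 1 (.s
  k80 k90 2 (.s k82 k81 0 (.d k240 k160 k161 11 12)))))] (.c k251 (.l (.s k243 k163 11 (.s k81 k162
  12 (.s k82 k80 0 (.s k161 k240 12 (.s k1 k241 11 (.d k253 k252 k169 0 13))))))) .n)) (.c k254 (.l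
  (.s k2 k1 0 (.s k87 k171 13 (.s k91 k95 1 (.s k243 k163 11 (.s k167 k15 13 (.d k247 k251 k7 1
  11))))))) .n))) (.c k169 (.f k171 k87 13 (.q k51 [(.s k17 k34 4 (.s k119 k187 9 (.s k153 k221 9
  (.d k102 k68 k204 4 14)))), (.s k2 k1 0 (.s k34 k17 4 (.s k18 k50 3 (.s k33 k48 4 (.d k35 k19 k32
  3 0))))), (.s k119 k187 9 (.s k102 k68 4 (.s k98 k110 1 (.s k192 k145 12 (.s k149 k63 14 (.d k213
  k234 k21 6 7))))))] (.c k19 (.q k223 [(.s k17 k34 4 (.s k119 k187 9 (.s k153 k221 9 (.d k102 k68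
  k204 4 14)))), (.s k207 k239 3 (.s k69 k138 10 (.s k101 k117 3 (.d k154 k16 k48 10 14))))] .n) (.c
  k223 (.l (.s k19 k35 3 (.s k1 k2 0 (.s k17 k34 4 (.s k18 k16 0 (.d k33 k49 k48 3 4)))))) .n))))
  .n))) (.c k127 (.q k204 [(.s k68 k136 9 (.s k221 k238 4 (.s k153 k17 9 (.d k102 k119 k51 4 14)))),
  (.s k68 k136 9 (.s k102 k119 4 (.s k110 k98 1 (.s k63 k157 12 (.s k21 k42 6 (.d k149 k213 k192 7
  14)))))), (.s k221 k238 4 (.s k153 k17 9 (.s k200 k59 12 (.s k192 k196 1 (.s k149 k63 14 (.d k213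
  k234 k21 6 7))))))] (.c k102 (.q k69 [(.s k101 k117 3 (.s k207 k138 10 (.s k154 k48 14 (.d k223
  k239 k16 3 10)))), (.s k68 k136 9 (.s k70 k71 0 (.s k3 k137 10 (.s k1 k2 0 (.s k87 k171 13 (.s k86
  k84 0 (.d k169 k253 k252 13 14)))))))] (.c k34 (.l (.s k238 k221 4 (.s k101 k117 3 (.s k207 k138
  10 (.s k154 k48 14 (.d k223 k239 k16 3 10)))))) (.c k138 (.l (.s k68 k136 9 (.s k70 k71 0 (.s k101
  k117 3 (.s k137 k3 10 (.s k205 k1 9 (.s k153 k49 13 (.d k221 k17 k238 9 4)))))))) (.c k238 (.q k34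
  [(.s k101 k117 3 (.s k207 k138 10 (.s k154 k48 14 (.d k223 k239 k16 3 10)))), (.s k17 k51 4 (.s
  k153 k221 9 (.s k200 k59 12 (.s k192 k196 1 (.s k213 k234 6 (.d k149 k63 k21 14 7))))))] (.c k207
  (.l (.s k51 k17 4 (.s k68 k136 9 (.s k71 k70 0 (.s k101 k117 3 (.s k86 k116 4 (.s k87 k84 0 (.d
  k119 k187 k103 9 3)))))))) .n)) .n)))) (.c k153 (.f k136 k68 9 (.q k152 [(.s k48 k100 13 (.s k168
  k184 3 (.s k84 k252 13 (.d k16 k32 k220 3 9)))), (.s k48 k100 13 (.s k117 k186 10 (.s k101 k69 3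
  (.s k96 k111 2 (.s k192 k144 11 (.s k149 k63 14 (.d k213 k234 k21 6 7)))))))] (.c k48 (.l (.s k168
  k184 3 (.s k221 k238 4 (.s k252 k84 13 (.s k220 k236 3 (.s k222 k223 0 (.s k237 k207 4 (.d k253
  k254 k205 0 3)))))))) (.c k84 (.l (.s k184 k168 3 (.s k48 k100 13 (.s k116 k252 9 (.s k117 k186 10
  (.s k101 k69 3 (.s k154 k207 14 (.d k16 k32 k223 3 10)))))))) (.c k100 (.l (.s k168 k184 3 (.s k84
  k252 13 (.s k16 k220 9 (.s k48 k32 3 (.s k117 k186 10 (.s k101 k69 3 (.d k154 k223 k207 10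
  14)))))))) (.c k116 (.l (.s k100 k48 13 (.s k168 k184 3 (.s k252 k84 13 (.d k236 k220 k32 3 9)))))
  .n)))))) .n))) (.c k128 (.l (.s k127 k64 6 (.s k63 k191 7 (.s k149 k192 14 (.d k21 k42 k213 6
  7))))) (.c k149 (.f k64 k127 6 (.f k128 k192 7 (.q k65 [(.s k195 k130 8 (.s k215 k235 5 (.s k150
  k20 8 (.d k105 k125 k60 5 14)))), (.s k66 k67 0 (.s k86 k126 5 (.s k87 k84 0 (.s k3 k171 13 (.s k1
  k2 0 (.d k169 k253 k252 13 14))))))] (.c k125 (.l (.s k67 k66 0 (.s k195 k130 8 (.s k3 k131 7 (.s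
  k87 k171 13 (.s k86 k84 0 (.s k169 k252 14 (.d k1 k2 k253 0 13)))))))) .n)))) (.c k191 (.l (.s k64
  k127 6 (.s k192 k128 7 (.s k149 k63 14 (.d k213 k234 k21 6 7))))) (.c k192 (.q k1 [(.s k3 k2 0 (.s
  k169 k253 13 (.s k86 k252 14 (.d k87 k84 k171 0 13)))), (.s k127 k64 6 (.s k63 k191 7 (.s k21 k42
  6 (.s k61 k41 5 (.s k253 k169 13 (.s k125 k189 7 (.d k60 k190 k62 8 0))))))), (.s k3 k2 0 (.s k127
  k64 6 (.s k63 k191 7 (.s k21 k42 6 (.s k23 k43 5 (.s k22 k20 0 (.d k41 k61 k60 5 6)))))))] .n) (.c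
  k213 (.q k1 [(.s k3 k2 0 (.s k169 k253 13 (.s k86 k252 14 (.d k87 k84 k171 0 13)))), (.s k127 k64
  6 (.s k63 k191 7 (.s k21 k42 6 (.s k61 k41 5 (.s k60 k62 0 (.s k125 k190 8 (.d k253 k189 k169 7
  13))))))), (.s k64 k127 6 (.s k169 k253 13 (.s k192 k128 7 (.s k149 k63 14 (.s k129 k189 5 (.s k66
  k3 8 (.d k65 k193 k67 7 0))))))), (.s k3 k2 0 (.s k64 k127 6 (.s k192 k128 7 (.s k66 k129 8 (.s
  k86 k126 5 (.d k87 k84 k171 0 13))))))] .n) (.c k234 (.l (.s k127 k64 6 (.s k63 k191 7 (.s k21 k42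
  6 (.d k149 k213 k192 7 14))))) .n))))))))))))

def t47_166 : T TT 256 :=
  (.f k170 k255 14 (.q k252 [(.s k84 k168 13 (.s k86 k87 0 (.s k2 k254 13 (.d k3 k1 k169 0 14))))]
  (.c k1 (.q k5 [(.s k15 k10 2 (.s k165 k245 11 (.s k160 k175 2 (.d k240 k80 k90 11 14)))), (.s k15
  k10 2 (.s k168 k84 13 (.s k169 k171 0 (.s k173 k94 12 (.d k165 k161 k245 1 11))))), (.s k84 k168
  13 (.s k86 k87 0 (.s k165 k245 11 (.s k244 k7 12 (.s k240 k248 1 (.d k160 k175 k80 2 11))))))] (.c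
  k165 (.l (.s k10 k15 2 (.s k90 k250 11 (.s k168 k84 13 (.s k169 k171 0 (.s k248 k11 12 (.s k240
  k244 1 (.d k80 k95 k160 2 11)))))))) (.c k245 (.l (.s k15 k10 2 (.s k84 k168 13 (.s k86 k87 0 (.s
  k3 k169 14 (.s k7 k11 1 (.s k4 k6 0 (.d k244 k164 k165 11 12)))))))) .n))) (.c k2 (.q k5 [(.s k165
  k245 11 (.s k160 k175 2 (.s k240 k80 11 (.d k15 k10 k90 2 14)))), (.s k15 k10 2 (.s k168 k84 13
  (.s k169 k171 0 (.s k173 k94 12 (.d k165 k161 k245 1 11))))), (.s k84 k168 13 (.s k86 k87 0 (.s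
  k165 k245 11 (.s k244 k7 12 (.s k240 k248 1 (.d k160 k175 k80 2 11)))))), (.s k10 k15 2 (.s k168
  k84 13 (.s k169 k171 0 (.s k1 k253 13 (.s k9 k13 1 (.s k8 k11 0 (.d k89 k251 k249 12 11)))))))]
  .n) (.c k3 (.f k84 k168 13 (.q k64 [(.s k104 k124 5 (.s k192 k128 7 (.s k212 k232 5 (.d k148 k20
  k60 7 13)))), (.s k106 k127 6 (.s k42 k234 7 (.s k63 k21 6 (.s k126 k189 8 (.d k86 k87 k66 0
  5)))))] (.c k87 (.q k171 [(.s k104 k124 5 (.s k192 k128 7 (.s k212 k232 5 (.d k148 k20 k60 7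
  13)))), (.s k106 k127 6 (.s k42 k234 7 (.s k63 k21 6 (.d k192 k128 k149 7 14)))), (.s k124 k104 5
  (.s k127 k106 6 (.s k125 k126 0 (.s k105 k65 5 (.s k40 k235 8 (.d k60 k20 k188 5 7))))))] .n) (.c
  k171 (.l (.s k87 k86 0 (.s k104 k124 5 (.s k192 k128 7 (.s k148 k60 13 (.d k212 k232 k20 5 7))))))
  (.c k192 (.l (.s k124 k104 5 (.s k60 k188 7 (.s k40 k20 5 (.s k105 k235 8 (.d k86 k87 k67 0
  6)))))) .n))))) (.c k84 (.q k154 [(.s k16 k223 10 (.s k138 k186 3 (.s k207 k69 10 (.d k48 k32 k101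
  3 14)))), (.s k138 k186 3 (.s k207 k69 10 (.s k222 k237 4 (.s k86 k18 9 (.s k2 k254 13 (.d k3 k1
  k169 0 14)))))), (.s k16 k223 10 (.s k48 k32 3 (.s k184 k116 9 (.s k169 k139 4 (.s k1 k253 13 (.d
  k3 k2 k86 0 14))))))] (.c k48 (.q k1 [(.s k3 k2 0 (.d k169 k253 k86 13 14)), (.s k169 k253 13 (.s
  k139 k184 4 (.s k171 k168 0 (.s k187 k155 3 (.s k136 k153 4 (.d k138 k186 k137 3 0)))))), (.s k2
  k3 0 (.s k16 k223 10 (.s k86 k254 13 (.s k18 k222 9 (.s k17 k19 0 (.d k34 k51 k50 4 3))))))] (.c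
  k117 (.l (.s k186 k138 3 (.s k3 k2 0 (.d k169 k253 k86 13 14)))) (.c k186 (.q k117 [(.s k3 k2 0
  (.d k169 k253 k86 13 14)), (.s k69 k101 3 (.s k137 k205 9 (.s k138 k207 10 (.s k139 k136 0 (.d
  k169 k184 k253 4 13))))), (.s k2 k3 0 (.s k69 k101 3 (.s k86 k254 13 (.s k207 k138 10 (.d k222 k18
  k237 9 4)))))] .n) .n))) (.c k207 (.q k149 [(.s k21 k213 7 (.s k63 k42 6 (.s k128 k191 6 (.d k192
  k64 k106 7 14)))), (.s k159 k144 2 (.s k186 k138 3 (.s k191 k128 6 (.s k143 k175 3 (.d k176 k181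
  k165 2 6))))), (.s k159 k144 2 (.s k213 k21 7 (.s k223 k16 10 (.s k31 k95 7 (.d k208 k218 k90 2
  10)))))] (.c k223 (.q k239 [(.s k21 k213 7 (.s k63 k42 6 (.s k128 k191 6 (.d k192 k64 k106 7
  14)))), (.s k159 k144 2 (.s k186 k138 3 (.s k191 k128 6 (.s k143 k175 3 (.d k176 k181 k165 2
  6))))), (.s k21 k213 7 (.s k32 k101 10 (.s k16 k48 3 (.s k31 k26 2 (.s k144 k159 2 (.d k208 k80
  k90 7 10))))))] .n) (.c k239 (.l (.s k223 k16 10 (.s k21 k213 7 (.s k63 k42 6 (.s k128 k191 6 (.d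
  k192 k64 k106 7 14)))))) .n))) .n))) (.c k86 (.f k84 k168 13 (.q k48 [(.s k32 k16 3 (.s k101 k239
  10 (.s k69 k117 3 (.d k207 k138 k154 10 14)))), (.s k116 k184 9 (.s k68 k100 3 (.s k102 k119 4 (.s
  k34 k238 9 (.s k51 k17 4 (.d k204 k136 k153 9 14))))))] (.c k6 (.q k246 [(.s k32 k16 3 (.s k101
  k239 10 (.s k69 k117 3 (.d k207 k138 k154 10 14)))), (.s k116 k184 9 (.s k68 k100 3 (.s k102 k119
  4 (.s k34 k238 9 (.s k51 k17 4 (.d k204 k136 k153 9 14))))))] (.c k32 (.l (.s k116 k184 9 (.s k100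
  k68 3 (.s k152 k204 13 (.s k16 k220 9 (.s k154 k223 10 (.s k138 k186 3 (.d k207 k69 k101 10
  14)))))))) .n)) (.c k32 (.l (.s k116 k184 9 (.s k100 k68 3 (.s k152 k204 13 (.s k16 k220 9 (.s
  k154 k223 10 (.s k138 k186 3 (.d k207 k69 k101 10 14)))))))) (.c k246 (.q k6 [(.s k32 k16 3 (.s
  k101 k239 10 (.s k69 k117 3 (.d k207 k138 k154 10 14)))), (.s k116 k184 9 (.s k68 k100 3 (.s k102
  k119 4 (.s k34 k238 9 (.s k51 k17 4 (.d k204 k136 k153 9 14))))))] (.c k32 (.l (.s k116 k184 9 (.s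
  k100 k68 3 (.s k152 k204 13 (.s k16 k220 9 (.s k154 k223 10 (.s k138 k186 3 (.d k207 k69 k101 10
  14)))))))) .n)) .n))))) (.c k87 (.l (.s k168 k84 13 (.s k169 k171 0 (.s k3 k86 14 (.d k1 k2 k253 0
  13))))) (.c k168 (.q k154 [(.s k16 k223 10 (.s k138 k186 3 (.s k207 k69 10 (.d k48 k32 k101 3
  14)))), (.s k138 k186 3 (.s k207 k69 10 (.s k222 k237 4 (.s k86 k18 9 (.s k2 k254 13 (.d k3 k1
  k169 0 14)))))), (.s k16 k223 10 (.s k48 k32 3 (.s k184 k116 9 (.s k169 k139 4 (.s k1 k253 13 (.d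
  k3 k2 k86 0 14))))))] (.c k48 (.q k80 [(.s k90 k95 2 (.s k10 k250 11 (.s k15 k5 2 (.d k240 k160
  k165 11 14)))), (.s k16 k223 10 (.s k90 k95 2 (.s k26 k218 7 (.s k31 k21 2 (.d k208 k144 k149 7
  10))))), (.s k16 k223 10 (.s k144 k208 7 (.s k160 k240 11 (.s k176 k128 3 (.d k165 k175 k143 2
  6)))))] (.c k117 (.l (.s k186 k138 3 (.s k90 k95 2 (.s k10 k250 11 (.s k15 k5 2 (.d k240 k160 k165
  11 14)))))) (.c k175 (.l (.s k240 k160 11 (.s k90 k95 2 (.s k15 k165 14 (.d k10 k5 k250 2 11)))))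
  (.c k186 (.q k117 [(.s k90 k95 2 (.s k10 k250 11 (.s k15 k5 2 (.d k240 k160 k165 11 14)))), (.s
  k16 k223 10 (.s k90 k95 2 (.s k26 k218 7 (.s k31 k21 2 (.d k208 k144 k149 7 10))))), (.s k16 k223
  10 (.s k144 k208 7 (.s k160 k240 11 (.s k176 k128 3 (.d k165 k175 k143 2 6)))))] (.c k175 (.l (.s
  k240 k160 11 (.s k90 k95 2 (.s k15 k165 14 (.d k10 k5 k250 2 11))))) .n)) .n)))) (.c k207 (.q k150
  [(.s k20 k215 8 (.s k130 k190 5 (.s k195 k65 8 (.d k60 k40 k105 5 14)))), (.s k158 k146 1 (.s k215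
  k20 8 (.s k223 k16 10 (.s k28 k93 8 (.d k211 k219 k89 1 10))))), (.s k130 k190 5 (.s k146 k158 1
  (.s k162 k178 3 (.s k81 k243 12 (.d k16 k223 k211 10 8)))))] (.c k223 (.q k239 [(.s k130 k190 5
  (.s k195 k65 8 (.s k60 k105 14 (.d k20 k40 k215 5 8)))), (.s k20 k215 8 (.s k32 k101 10 (.s k16
  k48 3 (.s k28 k24 1 (.s k211 k89 10 (.d k146 k158 k81 1 8)))))), (.s k32 k101 10 (.s k48 k16 3 (.s
  k130 k190 5 (.s k146 k158 1 (.d k195 k65 k97 8 12)))))] (.c k195 (.l (.s k32 k101 10 (.s k16 k48 3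
  (.s k130 k190 5 (.s k146 k158 1 (.s k81 k211 8 (.d k162 k243 k178 12 3))))))) .n)) (.c k239 (.l
  (.s k223 k16 10 (.s k20 k215 8 (.s k60 k40 5 (.s k130 k190 5 (.d k195 k65 k105 8 14)))))) .n)))
  .n))) (.c k169 (.f k84 k168 13 (.q k80 [(.s k90 k95 2 (.s k10 k250 11 (.s k15 k5 2 (.d k240 k160
  k165 11 14)))), (.s k88 k92 1 (.s k240 k160 11 (.s k164 k12 13 (.d k244 k248 k4 1 11)))), (.s k86
  k87 0 (.s k90 k95 2 (.s k82 k94 1 (.s k83 k81 0 (.d k92 k88 k89 1 2)))))] (.c k163 (.q k172 [(.d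
  k92 k88 k12 1 11), (.s k90 k95 2 (.s k10 k250 11 (.s k15 k5 2 (.d k240 k160 k165 11 14))))] .n)
  (.c k172 (.q k163 [(.s k90 k95 2 (.s k10 k250 11 (.s k15 k5 2 (.d k240 k160 k165 11 14)))), (.s
  k86 k87 0 (.s k2 k254 13 (.s k3 k1 0 (.s k83 k243 11 (.d k92 k89 k88 2 1)))))] (.c k160 (.q k164
  [(.s k4 k244 11 (.s k12 k8 1 (.d k88 k92 k240 1 13))), (.s k86 k87 0 (.s k90 k95 2 (.s k10 k250 11
  (.s k15 k5 2 (.d k94 k82 k173 1 12)))))] (.c k240 (.l (.s k4 k244 11 (.s k8 k12 1 (.s k86 k87 0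
  (.s k89 k251 12 (.d k92 k88 k83 1 2)))))) .n)) (.c k164 (.l (.s k160 k240 11 (.s k86 k87 0 (.s k2
  k254 13 (.s k3 k1 0 (.s k83 k243 11 (.d k92 k88 k89 1 2))))))) .n))) .n)))) (.c k171 (.l (.s k84
  k168 13 (.s k86 k87 0 (.s k3 k169 14 (.d k2 k1 k254 0 13))))) (.c k254 (.l (.s k168 k84 13 (.s
  k169 k171 0 (.s k1 k253 13 (.d k3 k2 k86 0 14))))) .n))))))))))))

def t47_167 : T TT 256 :=
  (.f k255 k170 14 (.q k105 [(.s k65 k125 5 (.s k195 k130 8 (.s k150 k60 14 (.d k215 k235 k20 5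
  8))))] (.c k20 (.q k107 [(.s k106 k104 0 (.s k64 k127 6 (.s k192 k128 7 (.s k149 k63 14 (.d k213
  k234 k21 6 7))))), (.s k106 k104 0 (.s k125 k65 5 (.s k127 k64 6 (.s k67 k87 5 (.d k124 k126 k86 0
  6))))), (.s k65 k125 5 (.s k195 k130 8 (.s k63 k151 13 (.s k127 k191 7 (.s k87 k67 5 (.s k171 k3
  13 (.d k235 k215 k43 5 7)))))))] (.c k127 (.l (.s k65 k125 5 (.s k106 k104 0 (.s k195 k130 8 (.s
  k63 k151 13 (.s k21 k42 6 (.d k149 k213 k192 7 14))))))) .n)) (.c k60 (.q k107 [(.s k65 k125 5 (.s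
  k106 k104 0 (.s k127 k64 6 (.s k63 k191 7 (.d k195 k130 k151 8 13))))), (.s k106 k104 0 (.s k125
  k65 5 (.s k127 k64 6 (.s k67 k87 5 (.d k124 k126 k86 0 6))))), (.s k65 k125 5 (.s k195 k130 8 (.s
  k63 k151 13 (.s k127 k191 7 (.s k87 k67 5 (.s k171 k3 13 (.d k235 k215 k43 5 7))))))), (.s k106
  k104 0 (.s k64 k127 6 (.s k192 k128 7 (.s k149 k63 14 (.d k213 k234 k21 6 7)))))] (.c k127 (.l (.s
  k65 k125 5 (.s k106 k104 0 (.s k195 k130 8 (.s k63 k151 13 (.s k21 k42 6 (.d k149 k192 k213 14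
  7))))))) .n)) (.c k65 (.q k84 [(.s k86 k87 0 (.s k252 k168 13 (.s k169 k3 14 (.d k253 k254 k1 0
  13)))), (.s k86 k87 0 (.s k124 k67 6 (.s k64 k104 5 (.s k192 k128 7 (.s k213 k234 6 (.s k149 k21 7
  (.d k106 k127 k63 6 14))))))), (.s k252 k168 13 (.s k253 k254 0 (.s k169 k1 13 (.s k233 k41 7 (.s
  k195 k214 6 (.s k150 k60 14 (.d k215 k235 k20 5 8)))))))] (.c k86 (.q k104 [(.s k64 k124 5 (.d
  k106 k107 k127 0 6)), (.s k168 k252 13 (.s k40 k232 7 (.s k60 k20 5 (.s k192 k148 13 (.s k213 k234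
  6 (.s k149 k21 7 (.d k106 k107 k63 0 14)))))))] (.c k2 (.q k254 [(.d k252 k253 k168 0 13), (.s k64
  k124 5 (.d k106 k107 k127 0 6))] (.c k107 (.q k227 [(.d k252 k253 k168 0 13), (.s k64 k124 5 (.s
  k106 k127 6 (.s k192 k128 7 (.s k149 k63 14 (.d k213 k234 k21 6 7)))))] .n) (.c k227 (.l (.s k107
  k106 0 (.d k252 k253 k168 0 13))) .n))) (.c k106 (.l (.s k64 k124 5 (.s k168 k252 13 (.s k40 k232
  7 (.s k60 k20 5 (.d k192 k128 k148 7 13)))))) (.c k107 (.q k227 [(.s k64 k124 5 (.s k168 k252 13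
  (.s k40 k232 7 (.s k60 k20 5 (.d k192 k128 k148 7 13))))), (.s k166 k44 10 (.s k4 k247 12 (.s k12
  k8 1 (.s k89 k243 14 (.d k93 k81 k174 1 12)))))] (.c k2 (.q k254 [(.d k252 k253 k168 0 13), (.s
  k64 k124 5 (.s k106 k127 6 (.s k192 k128 7 (.s k149 k63 14 (.d k213 k234 k21 6 7)))))] .n) (.c
  k254 (.q k2 [(.s k64 k124 5 (.s k168 k252 13 (.s k40 k232 7 (.s k60 k20 5 (.d k192 k128 k148 7
  13))))), (.s k166 k44 10 (.s k4 k247 12 (.s k12 k8 1 (.s k89 k243 14 (.d k93 k81 k174 1 12)))))]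
  .n) .n))) (.c k227 (.l (.s k107 k106 0 (.s k64 k124 5 (.s k168 k252 13 (.s k40 k232 7 (.s k60 k20
  5 (.d k192 k128 k148 7 13))))))) (.c k254 (.q k2 [(.s k64 k124 5 (.d k106 k107 k127 0 6)), (.s k1
  k3 0 (.s k168 k252 13 (.s k169 k253 13 (.s k232 k40 7 (.d k106 k107 k43 0 8)))))] (.c k106 (.l (.s
  k64 k124 5 (.s k168 k252 13 (.s k40 k232 7 (.s k60 k20 5 (.d k192 k128 k148 7 13)))))) (.c k107
  (.q k227 [(.s k64 k124 5 (.s k168 k252 13 (.s k40 k232 7 (.s k60 k20 5 (.d k192 k128 k148 7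
  13))))), (.s k166 k44 10 (.s k4 k247 12 (.s k12 k8 1 (.s k89 k243 14 (.d k93 k81 k174 1 12)))))]
  .n) (.c k227 (.l (.s k107 k106 0 (.s k64 k124 5 (.s k168 k252 13 (.s k40 k232 7 (.s k60 k20 5 (.d
  k192 k128 k148 7 13))))))) .n)))) .n)))))) (.c k107 (.q k227 [(.s k252 k168 13 (.s k253 k254 0 (.s
  k169 k1 13 (.d k86 k87 k3 0 14)))), (.s k166 k44 10 (.s k247 k4 12 (.s k243 k251 1 (.s k81 k162 12
  (.d k89 k93 k12 1 14)))))] .n) (.c k227 (.q k107 [(.s k87 k86 0 (.s k106 k104 0 (.d k127 k67 k64 5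
  6))), (.s k86 k87 0 (.s k252 k168 13 (.s k169 k3 14 (.d k253 k254 k1 0 13)))), (.s k106 k104 0 (.s
  k64 k127 6 (.s k192 k128 7 (.s k149 k63 14 (.d k213 k234 k21 6 7)))))] .n) .n)))) (.c k107 (.q
  k227 [(.s k65 k125 5 (.s k195 k130 8 (.s k150 k60 14 (.d k215 k235 k20 5 8)))), (.s k166 k44 10
  (.s k4 k247 12 (.s k12 k8 1 (.s k89 k243 14 (.d k93 k81 k174 1 12)))))] .n) (.c k125 (.q k84 [(.s
  k252 k168 13 (.s k253 k254 0 (.s k169 k1 13 (.d k86 k87 k3 0 14)))), (.s k86 k87 0 (.s k124 k67 6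
  (.s k64 k104 5 (.s k192 k128 7 (.s k213 k234 6 (.s k149 k21 7 (.d k106 k127 k63 6 14)))))))] (.c
  k86 (.q k104 [(.s k64 k124 5 (.d k106 k107 k127 0 6)), (.s k168 k252 13 (.s k40 k232 7 (.s k60 k20
  5 (.s k192 k148 13 (.s k213 k234 6 (.s k149 k21 7 (.d k106 k107 k63 0 14)))))))] (.c k2 (.q k254
  [(.d k252 k253 k168 0 13), (.s k64 k124 5 (.d k106 k107 k127 0 6))] (.c k107 (.q k227 [(.d k252
  k253 k168 0 13), (.s k64 k124 5 (.s k192 k128 7 (.s k60 k148 13 (.s k20 k40 5 (.d k150 k215 k195 8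
  14)))))] (.c k168 (.l (.s k64 k124 5 (.s k192 k128 7 (.s k148 k60 13 (.s k212 k20 7 (.d k252 k253
  k232 0 5)))))) .n)) (.c k227 (.l (.s k107 k106 0 (.d k252 k253 k168 0 13))) .n))) (.c k106 (.l (.s
  k64 k124 5 (.s k168 k252 13 (.s k40 k232 7 (.s k60 k20 5 (.d k192 k128 k148 7 13)))))) (.c k107
  (.q k227 [(.s k64 k124 5 (.s k192 k128 7 (.s k213 k234 6 (.s k149 k21 7 (.d k106 k127 k63 6
  14))))), (.s k166 k44 10 (.s k4 k247 12 (.s k12 k8 1 (.s k89 k243 14 (.d k93 k81 k174 1 12)))))]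
  (.c k2 (.q k254 [(.d k252 k253 k168 0 13), (.s k64 k124 5 (.s k192 k128 7 (.s k60 k148 13 (.s k20
  k40 5 (.d k150 k215 k195 8 14)))))] (.c k168 (.l (.s k64 k124 5 (.s k192 k128 7 (.s k148 k60 13
  (.s k212 k20 7 (.d k252 k253 k232 0 5)))))) .n)) (.c k254 (.q k2 [(.s k124 k64 5 (.s k252 k168 13
  (.s k60 k188 7 (.s k20 k40 5 (.d k148 k212 k192 7 13))))), (.s k166 k44 10 (.s k4 k247 12 (.s k12
  k8 1 (.s k89 k243 14 (.d k93 k81 k174 1 12)))))] .n) .n))) (.c k227 (.l (.s k107 k106 0 (.s k64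
  k124 5 (.s k168 k252 13 (.s k40 k232 7 (.s k60 k20 5 (.d k192 k128 k148 7 13))))))) (.c k254 (.q
  k2 [(.s k64 k124 5 (.d k106 k107 k127 0 6)), (.s k1 k3 0 (.s k168 k252 13 (.s k169 k253 13 (.s
  k232 k40 7 (.d k106 k107 k43 0 8)))))] (.c k106 (.l (.s k64 k124 5 (.s k168 k252 13 (.s k40 k232 7
  (.s k60 k20 5 (.d k192 k128 k148 7 13)))))) (.c k107 (.q k227 [(.s k124 k64 5 (.s k252 k168 13 (.s
  k60 k188 7 (.s k20 k40 5 (.d k148 k212 k192 7 13))))), (.s k166 k44 10 (.s k4 k247 12 (.s k12 k8 1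
  (.s k89 k243 14 (.d k93 k81 k174 1 12)))))] .n) (.c k227 (.l (.s k107 k106 0 (.s k64 k124 5 (.s
  k168 k252 13 (.s k40 k232 7 (.s k60 k20 5 (.d k192 k128 k148 7 13))))))) .n)))) .n)))))) (.c k87
  (.l (.s k252 k168 13 (.s k253 k254 0 (.s k169 k1 13 (.s k233 k41 7 (.s k195 k214 6 (.s k150 k60 14
  (.d k215 k235 k20 5 8)))))))) (.c k107 (.q k227 [(.s k252 k168 13 (.s k253 k254 0 (.s k169 k1 13
  (.d k86 k87 k3 0 14)))), (.s k166 k44 10 (.s k247 k4 12 (.s k243 k251 1 (.s k81 k162 12 (.d k89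
  k93 k12 1 14)))))] .n) (.c k227 (.q k107 [(.s k87 k86 0 (.s k106 k104 0 (.d k127 k67 k64 5 6))),
  (.s k86 k87 0 (.s k252 k168 13 (.s k169 k3 14 (.d k253 k254 k1 0 13)))), (.s k106 k104 0 (.s k64
  k127 6 (.s k192 k128 7 (.s k149 k63 14 (.d k213 k234 k21 6 7)))))] .n) .n))))) (.c k130 (.l (.s
  k125 k65 5 (.s k60 k190 8 (.s k150 k195 14 (.d k20 k40 k215 5 8))))) (.c k150 (.f k125 k65 5 (.f
  k190 k60 8 (.q k21 [(.s k149 k213 7 (.s k61 k193 13 (.s k1 k41 5 (.d k253 k189 k169 7 13)))), (.s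
  k63 k42 6 (.s k127 k191 7 (.s k106 k64 6 (.d k149 k213 k192 7 14)))), (.s k63 k42 6 (.s k191 k127
  7 (.s k189 k188 0 (.s k252 k126 8 (.d k253 k254 k61 0 7)))))] (.c k107 (.q k227 [(.s k149 k213 7
  (.s k61 k193 13 (.s k1 k41 5 (.d k253 k189 k169 7 13)))), (.s k63 k42 6 (.s k127 k191 7 (.s k106
  k64 6 (.d k149 k213 k192 7 14)))), (.s k63 k42 6 (.s k191 k127 7 (.s k189 k188 0 (.s k252 k126 8
  (.d k253 k254 k61 0 7)))))] .n) (.c k227 (.q k107 [(.s k106 k104 0 (.s k64 k127 6 (.s k149 k213 7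
  (.d k192 k128 k63 7 14)))), (.s k149 k213 7 (.s k61 k193 13 (.s k1 k41 5 (.d k253 k189 k169 7
  13)))), (.s k63 k42 6 (.s k106 k104 0 (.d k127 k64 k191 6 7)))] .n) .n))))) (.c k190 (.l (.s k65
  k125 5 (.s k195 k130 8 (.s k150 k60 14 (.d k215 k235 k20 5 8))))) (.c k195 (.f k125 k65 5 (.q k227
  [(.s k166 k44 10 (.s k247 k4 12 (.s k243 k251 1 (.s k81 k162 12 (.d k89 k93 k12 1 14))))), (.s k44
  k166 10 (.s k60 k190 8 (.s k12 k28 3 (.s k8 k4 1 (.s k40 k20 5 (.s k24 k56 3 (.d k36 k32 k48 1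
  5))))))), (.s k60 k190 8 (.s k20 k40 5 (.s k150 k215 8 (.s k166 k44 10 (.s k247 k4 12 (.s k243
  k251 1 (.d k182 k134 k121 3 10)))))))] (.c k4 (.q k1 [(.s k253 k169 13 (.s k61 k189 7 (.s k21 k41
  5 (.d k149 k213 k193 7 13)))), (.s k3 k2 0 (.s k60 k190 8 (.s k41 k22 6 (.d k169 k233 k253 7
  13)))), (.s k3 k2 0 (.s k60 k190 8 (.s k40 k20 5 (.s k41 k22 6 (.s k21 k61 5 (.d k42 k43 k63 0
  6))))))] (.c k41 (.l (.s k3 k2 0 (.s k87 k171 13 (.s k86 k84 0 (.d k169 k253 k252 13 14))))) .n))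
  (.c k8 (.l (.s k166 k44 10 (.s k247 k4 12 (.s k243 k251 1 (.s k89 k12 14 (.d k81 k93 k162 1
  12)))))) (.c k44 (.q k87 [(.s k3 k171 13 (.s k1 k2 0 (.s k86 k84 0 (.d k169 k253 k252 13 14)))),
  (.s k60 k190 8 (.s k20 k40 5 (.s k86 k84 0 (.s k150 k215 8 (.s k22 k214 7 (.d k3 k41 k171 6
  13)))))), (.s k3 k171 13 (.s k1 k2 0 (.s k60 k190 8 (.s k41 k22 6 (.d k169 k233 k253 7 13)))))]
  (.c k3 (.l (.s k60 k190 8 (.s k84 k86 0 (.s k252 k168 13 (.s k124 k188 7 (.s k64 k104 5 (.d k127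
  k126 k106 0 6))))))) (.c k45 (.q k46 [(.s k3 k171 13 (.s k1 k2 0 (.s k86 k84 0 (.d k169 k253 k252
  13 14)))), (.s k60 k190 8 (.s k20 k40 5 (.s k86 k84 0 (.s k150 k215 8 (.s k22 k214 7 (.d k3 k41
  k171 6 13)))))), (.s k3 k171 13 (.s k1 k2 0 (.s k60 k190 8 (.s k41 k22 6 (.d k169 k233 k253 7
  13)))))] (.c k3 (.l (.s k60 k190 8 (.s k84 k86 0 (.s k252 k168 13 (.s k124 k188 7 (.s k64 k104 5
  (.d k127 k126 k106 0 6))))))) (.c k86 (.l (.s k3 k171 13 (.s k60 k190 8 (.s k41 k22 6 (.s k169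
  k233 7 (.d k1 k2 k253 0 13)))))) (.c k171 (.l (.s k60 k190 8 (.s k86 k84 0 (.s k124 k67 6 (.s k252
  k188 7 (.s k253 k254 0 (.d k169 k3 k1 14 13))))))) .n)))) (.c k46 (.q k45 [(.s k3 k171 13 (.s k1
  k2 0 (.s k86 k84 0 (.d k169 k253 k252 13 14)))), (.s k60 k190 8 (.s k15 k30 4 (.s k5 k10 2 (.d
  k165 k225 k245 9 11))))] .n) (.c k86 (.l (.s k3 k171 13 (.s k60 k190 8 (.s k41 k22 6 (.s k169 k233
  7 (.d k1 k2 k253 0 13)))))) (.c k171 (.l (.s k60 k190 8 (.s k86 k84 0 (.s k124 k67 6 (.s k252 k188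
  7 (.s k253 k254 0 (.d k169 k3 k1 14 13))))))) .n)))))) (.c k166 (.q k165 [(.s k5 k245 11 (.s k15
  k10 2 (.s k90 k240 14 (.d k95 k80 k175 2 11)))), (.s k60 k190 8 (.s k20 k40 5 (.s k150 k215 8 (.s
  k245 k5 11 (.s k240 k250 2 (.d k180 k135 k120 4 9)))))), (.s k45 k225 9 (.s k60 k190 8 (.s k15 k30
  4 (.s k95 k175 11 (.d k90 k240 k80 14 2)))))] (.c k90 (.l (.s k5 k245 11 (.s k45 k225 9 (.s k60
  k190 8 (.d k15 k10 k30 2 4))))) (.c k162 (.q k174 [(.s k5 k245 11 (.s k15 k10 2 (.s k90 k240 14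
  (.d k95 k80 k175 2 11)))), (.s k60 k190 8 (.s k93 k12 12 (.s k109 k77 3 (.s k207 k158 12 (.d k239
  k223 k44 3 8)))))] .n) (.c k174 (.q k162 [(.s k5 k245 11 (.s k15 k10 2 (.s k90 k240 14 (.d k95 k80
  k175 2 11)))), (.s k32 k97 8 (.s k48 k16 3 (.s k117 k186 10 (.s k113 k121 1 (.d k243 k81 k178 12
  8)))))] .n) (.c k240 (.l (.s k5 k245 11 (.s k15 k10 2 (.s k60 k190 8 (.d k45 k30 k225 4 9)))))
  .n))))) .n)))))) (.c k215 (.q k166 [(.s k247 k4 12 (.s k243 k251 1 (.s k81 k162 12 (.d k89 k93 k12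
  1 14)))), (.s k65 k125 5 (.s k195 k130 8 (.s k227 k44 10 (.s k243 k211 3 (.d k247 k251 k4 1
  12))))), (.s k65 k125 5 (.s k195 k130 8 (.s k227 k44 10 (.s k243 k211 3 (.s k81 k162 12 (.d k89
  k93 k12 1 14))))))] (.c k107 (.l (.s k227 k44 10 (.s k4 k247 12 (.s k12 k8 1 (.s k89 k243 14 (.d
  k93 k81 k174 1 12)))))) (.c k227 (.q k107 [(.s k247 k4 12 (.s k243 k251 1 (.s k89 k12 14 (.d k81
  k93 k162 1 12)))), (.s k65 k125 5 (.s k106 k104 0 (.s k127 k64 6 (.s k63 k191 7 (.d k195 k130 k151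
  8 13)))))] .n) (.c k243 (.l (.s k4 k247 12 (.s k12 k8 1 (.s k125 k65 5 (.s k60 k190 8 (.d k44 k28
  k227 3 10)))))) .n)))) (.c k227 (.q k107 [(.s k65 k125 5 (.s k195 k130 8 (.s k150 k60 14 (.d k215
  k235 k20 5 8)))), (.s k106 k104 0 (.s k64 k127 6 (.s k192 k128 7 (.s k149 k63 14 (.d k213 k234 k21
  6 7)))))] .n) (.c k235 (.l (.s k125 k65 5 (.s k60 k190 8 (.s k20 k40 5 (.d k150 k215 k195 8
  14))))) .n))))))))))))))

def t47_171 : T TT 256 :=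
  (.q k89 [(.s k81 k93 1 (.s k243 k162 12 (.s k12 k166 14 (.s k8 k4 1 (.d k170 k251 k255 12 14)))))]
  (.c k4 (.q k1 [(.s k81 k93 1 (.s k169 k253 13 (.s k9 k249 11 (.s k241 k161 11 (.d k13 k5 k165 1
  13))))), (.s k3 k2 0 (.s k81 k93 1 (.s k161 k241 11 (.s k82 k240 12 (.s k83 k80 0 (.d k243 k163
  k162 11 12)))))), (.s k3 k2 0 (.s k169 k253 13 (.s k9 k249 11 (.s k12 k6 2 (.s k86 k252 14 (.s k83
  k92 2 (.d k243 k163 k166 11 14)))))))] (.c k241 (.l (.s k3 k2 0 (.s k81 k93 1 (.s k169 k253 13 (.s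
  k86 k252 14 (.s k83 k92 2 (.d k243 k163 k162 11 12))))))) .n)) (.c k8 (.l (.s k81 k93 1 (.s k243
  k162 12 (.s k166 k12 14 (.s k247 k4 12 (.d k255 k251 k170 1 14)))))) (.c k12 (.q k5 [(.s k15 k10 2
  (.s k165 k245 11 (.s k90 k240 14 (.s k95 k80 2 (.d k255 k175 k170 11 14))))), (.s k93 k81 1 (.s
  k165 k245 11 (.s k13 k241 13 (.s k1 k9 1 (.d k253 k173 k169 11 13)))))] (.c k165 (.l (.s k10 k15 2
  (.s k170 k255 14 (.s k8 k251 12 (.s k11 k9 0 (.s k90 k250 11 (.s k88 k91 0 (.d k248 k168 k169 11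
  12)))))))) (.c k245 (.l (.s k15 k10 2 (.s k81 k93 1 (.s k243 k162 12 (.s k91 k167 13 (.s k90 k88 0
  (.s k80 k95 2 (.d k240 k160 k165 11 14)))))))) .n))) (.c k81 (.q k15 [(.s k5 k10 2 (.s k165 k245
  11 (.s k90 k240 14 (.s k95 k80 2 (.d k255 k175 k170 11 14))))), (.s k5 k10 2 (.s k165 k245 11 (.s
  k13 k241 13 (.s k12 k14 0 (.s k4 k8 1 (.d k166 k247 k243 12 14)))))), (.s k170 k255 14 (.s k8 k251
  12 (.s k12 k4 1 (.s k13 k14 0 (.s k165 k241 13 (.s k160 k175 2 (.d k240 k80 k90 11 14)))))))] (.c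
  k165 (.l (.s k10 k5 2 (.s k170 k255 14 (.s k8 k251 12 (.s k11 k9 0 (.s k90 k250 11 (.s k88 k91 0
  (.d k248 k168 k169 11 12)))))))) .n)) (.c k93 (.q k15 [(.s k5 k10 2 (.s k165 k245 11 (.s k90 k240
  14 (.s k95 k80 2 (.d k255 k175 k170 11 14))))), (.s k5 k10 2 (.s k165 k245 11 (.s k13 k241 13 (.s
  k12 k14 0 (.s k4 k8 1 (.d k166 k247 k243 12 14)))))), (.s k170 k255 14 (.s k8 k251 12 (.s k12 k4 1
  (.s k13 k14 0 (.s k165 k241 13 (.s k160 k175 2 (.d k240 k80 k90 11 14)))))))] (.c k165 (.l (.s k10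
  k5 2 (.s k170 k255 14 (.s k8 k251 12 (.s k11 k9 0 (.s k90 k250 11 (.s k88 k91 0 (.d k248 k168 k169
  11 12)))))))) .n)) (.c k162 (.l (.s k93 k81 1 (.s k255 k170 14 (.s k12 k174 12 (.s k166 k243 14
  (.d k4 k8 k247 1 12)))))) (.c k166 (.q k1 [(.s k81 k93 1 (.s k241 k161 11 (.s k165 k13 13 (.s k245
  k5 11 (.d k253 k249 k169 1 13))))), (.s k3 k2 0 (.s k81 k93 1 (.s k161 k241 11 (.s k82 k240 12 (.s
  k83 k80 0 (.d k243 k163 k162 11 12)))))), (.s k3 k2 0 (.s k169 k253 13 (.s k9 k249 11 (.s k12 k6 2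
  (.s k8 k4 1 (.d k170 k251 k255 12 14))))))] (.c k241 (.l (.s k3 k2 0 (.s k81 k93 1 (.s k169 k253
  13 (.s k86 k252 14 (.s k83 k92 2 (.d k243 k163 k162 11 12))))))) .n)) (.c k170 (.q k169 [(.s k1
  k253 13 (.s k9 k249 11 (.s k13 k5 1 (.s k81 k93 1 (.d k241 k161 k165 11 13))))), (.s k81 k93 1 (.s
  k243 k162 12 (.s k249 k9 11 (.s k252 k246 2 (.s k84 k168 13 (.d k86 k87 k3 0 14)))))), (.s k1 k253
  13 (.s k3 k2 0 (.s k81 k93 1 (.s k86 k252 14 (.s k83 k92 2 (.d k243 k163 k162 11 12)))))), (.s k1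
  k253 13 (.s k3 k2 0 (.s k9 k249 11 (.s k12 k6 2 (.s k4 k8 1 (.d k166 k247 k243 12 14))))))] .n)
  (.c k174 (.l (.s k81 k93 1 (.s k243 k162 12 (.s k12 k166 14 (.s k170 k255 14 (.d k8 k4 k251 1
  12)))))) (.c k243 (.q k5 [(.s k15 k10 2 (.s k165 k245 11 (.s k90 k240 14 (.s k95 k80 2 (.d k255
  k175 k170 11 14))))), (.s k93 k81 1 (.s k165 k245 11 (.s k13 k241 13 (.s k1 k9 1 (.d k253 k173
  k169 11 13))))), (.s k15 k10 2 (.s k93 k81 1 (.s k255 k170 14 (.s k12 k174 12 (.s k13 k14 0 (.s k1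
  k9 1 (.d k253 k169 k173 13 11)))))))] .n) (.c k251 (.l (.s k93 k81 1 (.s k255 k170 14 (.s k12 k174
  12 (.s k4 k8 1 (.d k166 k247 k243 12 14)))))) (.c k255 (.q k3 [(.s k1 k2 0 (.s k81 k93 1 (.s k161
  k241 11 (.s k82 k240 12 (.s k83 k80 0 (.d k243 k163 k162 11 12)))))), (.s k1 k2 0 (.s k169 k253 13
  (.s k9 k249 11 (.s k12 k6 2 (.s k4 k8 1 (.d k166 k247 k243 12 14)))))), (.s k81 k93 1 (.s k243
  k162 12 (.s k83 k163 11 (.s k86 k92 2 (.s k84 k87 0 (.d k252 k168 k169 13 14)))))), (.s k1 k2 0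
  (.s k93 k81 1 (.s k253 k169 13 (.s k13 k173 11 (.s k5 k9 1 (.d k165 k245 k241 11 13))))))] .n)
  .n)))))))))))))

def t47_175 : T TT 256 :=
  (.q k101 [(.s k69 k117 3 (.s k207 k138 10 (.s k48 k154 14 (.s k32 k16 3 (.d k170 k239 k255 10
  14)))))] (.c k16 (.q k111 [(.s k106 k96 2 (.s k117 k69 3 (.s k127 k64 6 (.s k112 k122 2 (.d k79
  k95 k90 3 6))))), (.s k69 k117 3 (.s k207 k138 10 (.s k48 k154 14 (.s k63 k159 11 (.s k21 k42 6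
  (.s k149 k213 7 (.d k53 k58 k197 2 11))))))), (.s k106 k96 2 (.s k64 k127 6 (.s k170 k255 14 (.s
  k42 k234 7 (.s k63 k21 6 (.d k192 k128 k149 7 14))))))] .n) (.c k32 (.l (.s k69 k117 3 (.s k207
  k138 10 (.s k154 k48 14 (.s k223 k16 10 (.d k255 k239 k170 3 14)))))) (.c k48 (.f k117 k69 3 (.q
  k63 [(.s k21 k42 6 (.s k149 k213 7 (.s k53 k197 11 (.s k245 k181 7 (.d k5 k37 k165 3 11))))), (.s
  k255 k170 14 (.s k127 k191 7 (.s k106 k64 6 (.s k111 k96 2 (.s k79 k95 3 (.d k112 k122 k90 2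
  6)))))), (.s k42 k21 6 (.s k170 k255 14 (.s k106 k234 7 (.s k111 k96 2 (.s k127 k64 6 (.s k112
  k122 2 (.d k79 k95 k90 3 6)))))))] (.c k111 (.q k239 [(.d k170 k32 k255 10 14), (.s k21 k42 6 (.s
  k149 k213 7 (.s k53 k197 11 (.s k245 k181 7 (.d k5 k37 k165 3 11)))))] (.c k32 (.l (.s k42 k21 6
  (.s k170 k255 14 (.s k106 k234 7 (.s k64 k127 6 (.d k192 k128 k149 7 14)))))) .n)) (.c k239 (.q
  k111 [(.s k106 k96 2 (.s k64 k127 6 (.d k192 k128 k149 7 14))), (.s k42 k21 6 (.s k170 k255 14 (.d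
  k106 k96 k234 2 7))), (.s k255 k170 14 (.s k127 k191 7 (.s k79 k95 3 (.d k112 k122 k90 2 6))))]
  .n) .n)))) (.c k69 (.q k102 [(.s k68 k119 4 (.s k204 k136 9 (.s k51 k153 14 (.s k34 k17 4 (.d k170
  k238 k255 9 14))))), (.s k103 k100 0 (.s k170 k255 14 (.s k238 k34 9 (.s k239 k32 10 (.s k35 k171
  9 (.d k236 k237 k169 0 10)))))), (.s k68 k119 4 (.s k100 k103 0 (.s k204 k136 9 (.s k48 k152 13
  (.s k16 k32 3 (.d k154 k223 k207 10 14))))))] (.c k111 (.q k239 [(.d k170 k32 k255 10 14), (.s k68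
  k119 4 (.s k100 k103 0 (.s k204 k136 9 (.s k48 k152 13 (.s k16 k32 3 (.d k154 k223 k207 10
  14))))))] (.c k32 (.l (.s k68 k119 4 (.s k170 k255 14 (.s k34 k238 9 (.s k51 k17 4 (.d k204 k136
  k153 9 14)))))) .n)) (.c k239 (.q k111 [(.s k68 k119 4 (.s k204 k136 9 (.s k51 k153 14 (.s k34 k17
  4 (.d k170 k238 k255 9 14))))), (.s k96 k106 2 (.s k100 k103 0 (.s k108 k104 1 (.s k105 k99 2 (.d
  k109 k110 k97 0 1)))))] .n) .n))) (.c k111 (.q k239 [(.d k170 k32 k255 10 14), (.s k69 k117 3 (.s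
  k207 k138 10 (.s k154 k48 14 (.d k223 k255 k16 3 10))))] (.c k255 (.l (.s k32 k170 10 (.s k48 k16
  3 (.s k69 k117 3 (.d k207 k138 k154 10 14))))) .n)) (.c k117 (.q k102 [(.s k68 k119 4 (.s k204
  k136 9 (.s k51 k153 14 (.s k34 k17 4 (.d k170 k238 k255 9 14))))), (.s k103 k100 0 (.s k170 k255
  14 (.s k238 k34 9 (.s k239 k32 10 (.s k35 k171 9 (.d k236 k237 k169 0 10)))))), (.s k68 k119 4 (.s
  k100 k103 0 (.s k204 k136 9 (.s k48 k152 13 (.s k16 k32 3 (.d k154 k223 k207 10 14))))))] (.c k111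
  (.q k239 [(.d k170 k32 k255 10 14), (.s k68 k119 4 (.s k100 k103 0 (.s k204 k136 9 (.s k48 k152 13
  (.s k16 k32 3 (.d k154 k223 k207 10 14))))))] (.c k32 (.l (.s k68 k119 4 (.s k170 k255 14 (.s k34
  k238 9 (.s k51 k17 4 (.d k204 k136 k153 9 14)))))) .n)) (.c k239 (.q k111 [(.s k68 k119 4 (.s k204
  k136 9 (.s k51 k153 14 (.s k34 k17 4 (.d k170 k238 k255 9 14))))), (.s k96 k106 2 (.s k100 k103 0
  (.s k108 k104 1 (.s k105 k99 2 (.d k109 k110 k97 0 1)))))] .n) .n))) (.c k138 (.l (.s k117 k69 3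
  (.s k255 k170 14 (.s k48 k186 10 (.s k154 k207 14 (.d k16 k32 k223 3 10)))))) (.c k154 (.q k106
  [(.s k64 k127 6 (.s k69 k117 3 (.s k79 k74 2 (.s k112 k90 6 (.d k96 k111 k80 2 3))))), (.s k64
  k127 6 (.s k170 k255 14 (.s k42 k234 7 (.s k63 k21 6 (.d k192 k128 k149 7 14))))), (.s k69 k117 3
  (.s k111 k96 2 (.s k170 k255 14 (.s k42 k234 7 (.s k63 k21 6 (.d k207 k138 k159 10 11))))))] (.c
  k111 (.q k239 [(.d k170 k32 k255 10 14), (.s k64 k127 6 (.s k69 k117 3 (.s k192 k128 7 (.s k149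
  k63 14 (.s k197 k53 11 (.d k207 k202 k138 2 10))))))] (.c k255 (.l (.s k64 k127 6 (.s k170 k32 10
  (.s k42 k234 7 (.s k63 k21 6 (.d k192 k128 k149 7 14)))))) .n)) (.c k239 (.l (.s k111 k96 2 (.s
  k117 k69 3 (.s k127 k64 6 (.s k79 k95 3 (.d k112 k122 k90 2 6)))))) .n))) (.c k170 (.f k69 k117 3
  (.q k165 [(.s k5 k245 11 (.s k37 k229 7 (.s k53 k21 3 (.d k197 k133 k149 7 11)))), (.s k207 k138
  10 (.s k229 k37 7 (.s k240 k218 6 (.s k80 k160 11 (.d k90 k95 k15 2 14))))), (.s k5 k245 11 (.s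
  k15 k10 2 (.s k90 k240 14 (.s k79 k112 6 (.d k207 k143 k138 7 10)))))] (.c k111 (.q k239 [(.s k207
  k138 10 (.s k154 k48 14 (.d k223 k255 k16 3 10))), (.s k5 k245 11 (.s k37 k229 7 (.s k53 k21 3 (.d
  k197 k133 k149 7 11))))] .n) (.c k239 (.q k111 [(.s k5 k245 11 (.s k197 k133 7 (.s k53 k149 11 (.d
  k37 k21 k229 3 7)))), (.s k106 k96 2 (.s k64 k127 6 (.s k192 k128 7 (.s k207 k138 10 (.d k63 k149
  k159 14 11))))), (.s k5 k245 11 (.s k15 k10 2 (.s k37 k229 7 (.s k48 k26 6 (.d k207 k138 k154 10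
  14)))))] .n) .n)))) (.c k186 (.l (.s k69 k117 3 (.s k207 k138 10 (.s k48 k154 14 (.s k170 k255 14
  (.d k32 k16 k239 3 10)))))) (.c k207 (.q k63 [(.s k42 k21 6 (.s k170 k255 14 (.s k106 k234 7 (.s
  k64 k127 6 (.d k192 k128 k149 7 14))))), (.s k21 k42 6 (.s k117 k69 3 (.s k149 k213 7 (.s k53 k197
  11 (.s k245 k181 7 (.d k5 k37 k165 3 11)))))), (.s k69 k117 3 (.s k255 k170 14 (.s k127 k191 7 (.s
  k64 k106 6 (.s k79 k74 2 (.s k90 k112 6 (.d k95 k111 k80 3 2)))))))] (.c k42 (.l (.s k117 k69 3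
  (.s k255 k170 14 (.s k48 k186 10 (.s k53 k58 2 (.s k127 k191 7 (.s k106 k64 6 (.d k149 k197 k192
  11 14)))))))) (.c k111 (.q k239 [(.d k170 k32 k255 10 14), (.s k21 k42 6 (.s k117 k69 3 (.s k149
  k213 7 (.s k53 k197 11 (.s k245 k181 7 (.d k5 k37 k165 3 11))))))] (.c k32 (.l (.s k42 k21 6 (.s
  k170 k255 14 (.s k106 k234 7 (.s k64 k127 6 (.d k192 k128 k149 7 14)))))) .n)) (.c k149 (.l (.s
  k21 k42 6 (.s k117 k69 3 (.s k255 k170 14 (.s k48 k186 10 (.s k53 k58 2 (.s k245 k181 7 (.d k5 k37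
  k165 3 11)))))))) (.c k239 (.q k111 [(.s k42 k21 6 (.s k106 k96 2 (.d k170 k255 k234 14 7))), (.s
  k117 k69 3 (.s k255 k170 14 (.s k127 k191 7 (.s k79 k95 3 (.d k112 k122 k90 2 6)))))] (.c k170 (.l
  (.s k21 k42 6 (.s k106 k96 2 (.d k149 k213 k192 7 14)))) (.c k223 (.l (.s k255 k170 14 (.s k106
  k96 2 (.d k127 k64 k191 6 7)))) (.c k255 (.q k223 [(.s k106 k96 2 (.s k64 k127 6 (.d k192 k128
  k149 7 14))), (.s k16 k154 10 (.s k21 k42 6 (.s k149 k213 7 (.s k53 k197 11 (.d k48 k32 k58 3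
  2))))), (.s k106 k96 2 (.s k117 k69 3 (.s k127 k64 6 (.s k112 k122 2 (.d k79 k95 k90 3 6)))))] (.c
  k15 (.q k95 [(.s k79 k127 3 (.d k90 k80 k112 2 6)), (.s k16 k154 10 (.s k21 k42 6 (.d k31 k26 k159
  2 7)))] (.c k79 (.q k143 [(.s k106 k96 2 (.s k64 k127 6 (.d k192 k128 k149 7 14))), (.s k16 k154
  10 (.s k21 k42 6 (.d k31 k26 k159 2 7)))] .n) (.c k143 (.l (.s k79 k127 3 (.d k90 k80 k112 2 6)))
  .n))) (.c k95 (.q k15 [(.s k106 k96 2 (.s k64 k127 6 (.d k192 k128 k149 7 14))), (.s k5 k10 2 (.s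
  k21 k42 6 (.s k37 k53 3 (.d k165 k229 k245 7 11))))] .n) .n))) .n)))) .n))))) (.c k239 (.q k111
  [(.s k106 k96 2 (.s k117 k69 3 (.s k127 k64 6 (.s k112 k122 2 (.d k79 k95 k90 3 6))))), (.s k117
  k69 3 (.s k255 k170 14 (.s k48 k186 10 (.s k16 k32 3 (.d k154 k223 k207 10 14))))), (.s k106 k96 2
  (.s k64 k127 6 (.s k170 k255 14 (.s k42 k234 7 (.s k63 k21 6 (.d k192 k128 k149 7 14))))))] .n)
  (.c k255 (.q k15 [(.s k5 k10 2 (.s k69 k117 3 (.s k133 k197 7 (.s k74 k192 10 (.s k79 k64 2 (.d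
  k207 k143 k138 7 10)))))), (.s k5 k10 2 (.s k165 k245 11 (.s k37 k229 7 (.s k48 k26 6 (.s k16 k32
  3 (.d k154 k223 k207 10 14)))))), (.s k69 k117 3 (.s k207 k138 10 (.s k79 k143 7 (.s k90 k112 6
  (.s k80 k95 2 (.d k240 k160 k165 11 14)))))), (.s k5 k10 2 (.s k117 k69 3 (.s k245 k165 11 (.s k53
  k181 7 (.s k21 k37 3 (.d k149 k213 k197 7 11))))))] (.c k111 (.q k239 [(.s k69 k117 3 (.s k207
  k138 10 (.s k48 k154 14 (.d k32 k170 k16 10 3)))), (.s k10 k5 2 (.s k170 k32 10 (.s k90 k250 11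
  (.s k80 k95 2 (.d k240 k160 k165 11 14))))), (.s k5 k10 2 (.s k69 k117 3 (.s k133 k197 7 (.s k74
  k192 10 (.s k79 k64 2 (.d k207 k143 k138 7 10))))))] .n) (.c k239 (.q k111 [(.s k69 k117 3 (.s
  k106 k96 2 (.s k127 k64 6 (.s k79 k95 3 (.d k207 k143 k138 7 10))))), (.s k5 k10 2 (.s k106 k96 2
  (.s k127 k64 6 (.s k79 k95 3 (.s k165 k245 11 (.d k90 k112 k240 6 14)))))), (.s k5 k10 2 (.s k69
  k117 3 (.s k133 k197 7 (.s k74 k192 10 (.s k79 k64 2 (.d k207 k143 k138 7 10))))))] (.c k64 (.l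
  (.s k69 k117 3 (.s k207 k138 10 (.s k79 k143 7 (.s k90 k112 6 (.d k95 k80 k127 2 3)))))) (.c k79
  (.l (.s k5 k10 2 (.s k69 k117 3 (.s k106 k96 2 (.s k64 k127 6 (.s k133 k197 7 (.d k192 k128 k74 7
  10))))))) (.c k207 (.q k223 [(.s k5 k10 2 (.s k16 k154 10 (.s k48 k32 3 (.s k165 k245 11 (.d k37
  k26 k229 6 7))))), (.s k106 k96 2 (.s k64 k127 6 (.s k192 k128 7 (.s k74 k133 10 (.d k69 k79 k117
  2 3)))))] .n) (.c k223 (.q k207 [(.d k69 k117 k138 3 10), (.s k79 k143 7 (.s k90 k112 6 (.d k95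
  k80 k127 2 3)))] .n) .n))))) .n))) .n))))))))))))))

def t47_179 : T TT 256 :=
  (.f k255 k170 14 (.q k105 [(.s k65 k125 5 (.s k195 k130 8 (.s k150 k60 14 (.d k215 k235 k20 5
  8))))] (.c k20 (.q k1 [(.s k169 k253 13 (.s k3 k2 0 (.s k86 k252 14 (.d k87 k84 k171 0 13)))), (.s
  k65 k125 5 (.s k169 k253 13 (.s k41 k233 7 (.s k61 k21 5 (.d k193 k129 k149 7 13))))), (.s k3 k2 0
  (.s k65 k125 5 (.s k129 k193 7 (.s k66 k192 8 (.s k67 k64 0 (.d k195 k131 k130 7 8))))))] .n) (.c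
  k60 (.q k1 [(.s k3 k2 0 (.s k87 k171 13 (.s k86 k84 0 (.d k169 k253 k252 13 14)))), (.s k65 k125 5
  (.s k169 k253 13 (.s k41 k233 7 (.s k61 k21 5 (.d k193 k129 k149 7 13))))), (.s k3 k2 0 (.s k65
  k125 5 (.s k129 k193 7 (.s k66 k192 8 (.s k67 k64 0 (.d k195 k131 k130 7 8))))))] .n) (.c k65 (.q
  k1 [(.s k169 k253 13 (.s k3 k2 0 (.s k86 k252 14 (.d k87 k84 k171 0 13)))), (.s k169 k253 13 (.s
  k41 k233 7 (.s k21 k61 5 (.s k63 k42 6 (.s k127 k191 7 (.s k106 k64 6 (.d k149 k213 k192 7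
  14)))))))] (.c k169 (.f k3 k2 0 (.q k86 [(.d k87 k171 k84 13 0), (.s k67 k124 6 (.s k195 k131 7
  (.s k150 k60 14 (.d k215 k235 k20 5 8))))] (.c k168 (.l (.s k171 k87 13 (.s k67 k124 6 (.s k195
  k131 7 (.s k150 k60 14 (.d k215 k235 k20 5 8)))))) (.c k171 (.q k168 [(.d k84 k87 k252 0 13), (.s
  k67 k124 6 (.s k195 k131 7 (.s k215 k235 5 (.d k150 k20 k60 8 14))))] .n) .n)))) (.c k253 (.l (.s
  k3 k2 0 (.s k87 k171 13 (.s k86 k84 0 (.s k67 k124 6 (.s k195 k131 7 (.s k150 k60 14 (.d k215 k235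
  k20 5 8)))))))) .n))) (.c k125 (.q k253 [(.s k169 k1 13 (.s k252 k254 0 (.s k84 k168 13 (.d k86
  k87 k3 0 14)))), (.s k169 k1 13 (.s k233 k41 7 (.s k213 k193 5 (.s k192 k234 6 (.s k64 k128 7 (.s
  k106 k127 6 (.d k149 k21 k63 7 14)))))))] (.c k1 (.l (.s k252 k254 0 (.s k84 k168 13 (.s k86 k87 0
  (.s k124 k67 6 (.s k60 k188 7 (.s k20 k40 5 (.d k150 k215 k195 8 14)))))))) (.c k169 (.f k252 k254
  0 (.q k86 [(.d k84 k168 k87 13 0), (.s k124 k67 6 (.s k60 k188 7 (.s k20 k40 5 (.d k150 k215 k195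
  8 14))))] (.c k168 (.q k171 [(.d k87 k84 k3 0 13), (.s k124 k67 6 (.s k60 k188 7 (.s k20 k40 5 (.d
  k150 k215 k195 8 14))))] .n) (.c k171 (.l (.s k168 k84 13 (.s k124 k67 6 (.s k60 k188 7 (.s k20
  k40 5 (.d k150 k215 k195 8 14)))))) .n)))) .n))) (.c k130 (.l (.s k125 k65 5 (.s k60 k190 8 (.s
  k150 k195 14 (.d k20 k40 k215 5 8))))) (.c k150 (.f k125 k65 5 (.q k86 [(.s k84 k87 0 (.s k252
  k168 13 (.s k169 k3 14 (.d k253 k254 k1 0 13)))), (.s k124 k67 6 (.s k127 k126 0 (.s k63 k191 7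
  (.s k21 k42 6 (.s k149 k213 7 (.d k106 k64 k192 6 14))))))] (.c k130 (.l (.s k190 k60 8 (.s k84
  k87 0 (.s k124 k67 6 (.s k64 k104 5 (.d k127 k126 k106 0 6)))))) (.c k190 (.q k130 [(.s k84 k87 0
  (.s k252 k168 13 (.s k169 k3 14 (.d k253 k254 k1 0 13)))), (.s k124 k67 6 (.s k127 k126 0 (.s k63
  k191 7 (.s k21 k42 6 (.s k149 k213 7 (.d k106 k64 k192 6 14))))))] (.c k254 (.l (.s k84 k87 0 (.s
  k124 k67 6 (.s k64 k104 5 (.d k127 k126 k106 0 6))))) .n)) .n)))) (.c k190 (.l (.s k65 k125 5 (.s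
  k195 k130 8 (.s k150 k60 14 (.d k215 k235 k20 5 8))))) (.c k195 (.q k1 [(.s k3 k2 0 (.s k87 k171
  13 (.s k86 k84 0 (.d k169 k253 k252 13 14)))), (.s k65 k125 5 (.s k169 k253 13 (.s k41 k233 7 (.s
  k61 k21 5 (.d k193 k129 k149 7 13))))), (.s k3 k2 0 (.s k125 k65 5 (.s k60 k190 8 (.s k40 k20 5
  (.s k41 k22 6 (.s k21 k61 5 (.d k42 k43 k63 0 6)))))))] .n) (.c k215 (.q k1 [(.s k169 k253 13 (.s
  k3 k2 0 (.s k86 k252 14 (.d k87 k84 k171 0 13)))), (.s k65 k125 5 (.s k169 k253 13 (.s k41 k233 7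
  (.s k61 k21 5 (.d k193 k129 k149 7 13))))), (.s k3 k2 0 (.s k65 k125 5 (.s k129 k193 7 (.s k66
  k192 8 (.s k67 k64 0 (.d k195 k131 k130 7 8))))))] .n) (.c k235 (.l (.s k125 k65 5 (.s k60 k190 8
  (.s k20 k40 5 (.d k150 k215 k195 8 14))))) .n))))))))))))

def t47_182 : T TT 256 :=
  (.f k255 k170 14 (.q k102 [(.s k68 k119 4 (.s k204 k136 9 (.s k153 k51 14 (.d k221 k238 k17 4
  9))))] (.c k17 (.q k1 [(.s k169 k253 13 (.s k3 k2 0 (.s k86 k252 14 (.d k87 k84 k171 0 13)))), (.s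
  k68 k119 4 (.s k204 k136 9 (.s k221 k238 4 (.s k253 k169 13 (.s k205 k237 3 (.s k69 k137 9 (.d
  k207 k138 k206 10 0))))))), (.s k3 k2 0 (.s k68 k119 4 (.s k204 k136 9 (.s k70 k137 10 (.s k86
  k118 3 (.d k87 k84 k171 0 13))))))] (.c k171 (.l (.s k3 k2 0 (.s k119 k68 4 (.s k51 k187 9 (.s k35
  k19 3 (.d k169 k236 k253 10 13)))))) .n)) (.c k51 (.q k1 [(.s k3 k2 0 (.s k87 k171 13 (.s k86 k84
  0 (.d k169 k253 k252 13 14)))), (.s k68 k119 4 (.s k204 k136 9 (.s k221 k238 4 (.s k253 k169 13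
  (.s k205 k237 3 (.s k69 k137 9 (.d k207 k138 k206 10 0))))))), (.s k3 k2 0 (.s k68 k119 4 (.s k204
  k136 9 (.s k70 k137 10 (.s k86 k118 3 (.d k87 k84 k171 0 13))))))] (.c k171 (.l (.s k3 k2 0 (.s
  k68 k119 4 (.s k169 k253 13 (.s k86 k252 14 (.s k204 k136 9 (.d k70 k118 k137 3 10))))))) .n)) (.c
  k68 (.q k93 [(.s k12 k174 12 (.s k4 k8 1 (.s k89 k81 1 (.d k166 k247 k243 12 14)))), (.s k89 k81 1
  (.s k76 k115 6 (.s k127 k110 4 (.s k63 k191 7 (.s k21 k42 6 (.s k149 k213 7 (.d k106 k64 k192 6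
  14)))))))] (.c k81 (.l (.s k12 k174 12 (.s k4 k8 1 (.s k166 k247 12 (.s k38 k230 7 (.s k51 k25 6
  (.s k17 k34 4 (.d k153 k221 k204 9 14)))))))) (.c k89 (.f k12 k174 12 (.q k166 [(.d k4 k8 k247 1
  12), (.s k38 k230 7 (.s k51 k25 6 (.s k17 k34 4 (.d k153 k221 k204 9 14))))] (.c k8 (.q k251 [(.d
  k247 k243 k4 1 12), (.s k38 k230 7 (.s k51 k25 6 (.s k17 k34 4 (.d k153 k221 k204 9 14))))] .n)
  (.c k251 (.l (.s k8 k4 1 (.s k38 k230 7 (.s k51 k25 6 (.s k17 k34 4 (.d k153 k221 k204 9 14))))))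
  .n)))) .n))) (.c k119 (.q k81 [(.s k89 k93 1 (.s k243 k162 12 (.s k166 k12 14 (.d k247 k251 k4 1
  12)))), (.s k89 k93 1 (.s k115 k76 6 (.s k64 k98 4 (.s k192 k128 7 (.s k213 k234 6 (.s k149 k21 7
  (.d k106 k127 k63 6 14)))))))] (.c k89 (.f k243 k162 12 (.q k166 [(.d k247 k251 k4 1 12), (.s k230
  k38 7 (.s k204 k217 6 (.s k153 k51 14 (.d k221 k238 k17 4 9))))] (.c k8 (.l (.s k251 k247 1 (.s
  k230 k38 7 (.s k204 k217 6 (.s k153 k51 14 (.d k221 k238 k17 4 9)))))) (.c k251 (.q k8 [(.d k4 k12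
  k247 1 12), (.s k230 k38 7 (.s k204 k217 6 (.s k221 k238 4 (.d k153 k17 k51 9 14))))] .n) .n))))
  (.c k93 (.l (.s k243 k162 12 (.s k247 k251 1 (.s k166 k4 12 (.s k230 k38 7 (.s k204 k217 6 (.s
  k153 k51 14 (.d k221 k238 k17 4 9)))))))) .n))) (.c k136 (.l (.s k119 k68 4 (.s k51 k187 9 (.s
  k153 k204 14 (.d k17 k34 k221 4 9))))) (.c k153 (.f k68 k119 4 (.q k70 [(.s k71 k69 0 (.s k86 k118
  3 (.s k84 k87 0 (.d k116 k100 k101 3 4)))), (.s k69 k71 0 (.s k138 k207 10 (.s k2 k206 9 (.s k3 k1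
  0 (.d k204 k136 k137 9 10))))), (.s k86 k118 3 (.s k87 k84 0 (.s k3 k171 13 (.d k204 k136 k137 9
  10))))] (.c k87 (.l (.s k71 k69 0 (.s k86 k118 3 (.s k116 k101 4 (.s k84 k100 3 (.s k252 k168 13
  (.s k169 k3 14 (.d k253 k254 k1 0 13)))))))) (.c k136 (.q k187 [(.s k71 k69 0 (.s k86 k118 3 (.s
  k84 k87 0 (.d k116 k100 k101 3 4)))), (.s k69 k71 0 (.s k207 k138 10 (.s k223 k239 3 (.s k154 k16
  10 (.d k101 k117 k48 3 14))))), (.s k86 k118 3 (.s k87 k84 0 (.s k3 k171 13 (.s k1 k2 0 (.d k169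
  k253 k252 13 14)))))] (.c k87 (.l (.s k71 k69 0 (.s k86 k118 3 (.s k116 k101 4 (.s k84 k100 3 (.s
  k252 k168 13 (.s k169 k3 14 (.d k253 k254 k1 0 13)))))))) (.c k117 (.l (.s k71 k69 0 (.s k86 k118
  3 (.s k116 k101 4 (.d k84 k87 k100 0 3))))) .n))) (.c k187 (.l (.s k136 k204 9 (.s k71 k69 0 (.s
  k86 k118 3 (.s k84 k87 0 (.d k116 k100 k101 3 4)))))) .n))))) (.c k187 (.l (.s k68 k119 4 (.s k204
  k136 9 (.s k153 k51 14 (.d k221 k238 k17 4 9))))) (.c k204 (.q k1 [(.s k3 k2 0 (.s k87 k171 13 (.s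
  k86 k84 0 (.d k169 k253 k252 13 14)))), (.s k119 k68 4 (.s k51 k187 9 (.s k17 k34 4 (.s k49 k33 3
  (.s k253 k169 13 (.s k117 k185 9 (.d k48 k186 k50 10 0))))))), (.s k3 k2 0 (.s k119 k68 4 (.s k51
  k187 9 (.s k17 k34 4 (.s k19 k35 3 (.s k18 k16 0 (.d k33 k49 k48 3 4)))))))] .n) (.c k221 (.q k1
  [(.s k3 k2 0 (.s k87 k171 13 (.s k86 k84 0 (.d k169 k253 k252 13 14)))), (.s k68 k119 4 (.s k169
  k253 13 (.s k204 k136 9 (.s k153 k51 14 (.s k137 k185 3 (.s k70 k3 10 (.d k69 k205 k71 9 0))))))),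
  (.s k3 k2 0 (.s k68 k119 4 (.s k204 k136 9 (.s k70 k137 10 (.s k86 k118 3 (.d k87 k84 k171 0
  13))))))] (.c k3 (.l (.s k119 k68 4 (.s k51 k187 9 (.s k17 k34 4 (.s k49 k33 3 (.s k48 k50 0 (.s
  k117 k186 10 (.d k253 k185 k169 9 13)))))))) .n)) (.c k238 (.l (.s k119 k68 4 (.s k51 k187 9 (.s
  k17 k34 4 (.d k153 k221 k204 9 14))))) .n))))))))))))

def t47_186 : T TT 256 :=
  (.q k86 [(.s k84 k87 0 (.s k252 k168 13 (.s k169 k3 14 (.s k253 k1 13 (.d k255 k254 k170 0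
  14)))))] (.c k1 (.q k4 [(.s k12 k8 1 (.s k166 k247 12 (.s k89 k243 14 (.s k93 k81 1 (.d k255 k174
  k170 12 14))))), (.s k84 k87 0 (.s k166 k247 12 (.s k6 k246 11 (.s k7 k5 0 (.d k244 k164 k165 11
  12))))), (.s k12 k8 1 (.s k84 k87 0 (.s k164 k244 11 (.s k88 k240 13 (.s k92 k80 1 (.d k252 k172
  k168 11 13))))))] .n) (.c k3 (.q k4 [(.s k12 k8 1 (.s k166 k247 12 (.s k89 k243 14 (.s k93 k81 1
  (.d k255 k174 k170 12 14))))), (.s k84 k87 0 (.s k166 k247 12 (.s k6 k246 11 (.s k7 k5 0 (.d k244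
  k164 k165 11 12))))), (.s k12 k8 1 (.s k84 k87 0 (.s k164 k244 11 (.s k88 k240 13 (.s k92 k80 1
  (.d k252 k172 k168 11 13))))))] (.c k255 (.l (.s k87 k84 0 (.s k247 k166 12 (.s k7 k167 11 (.s k5
  k6 0 (.d k165 k245 k244 11 12)))))) .n)) (.c k84 (.q k4 [(.s k12 k8 1 (.s k166 k247 12 (.s k89
  k243 14 (.s k93 k81 1 (.d k255 k174 k170 12 14))))), (.s k12 k8 1 (.s k166 k247 12 (.s k6 k246 11
  (.s k3 k9 2 (.s k1 k2 0 (.d k169 k253 k252 13 14)))))), (.s k166 k247 12 (.s k6 k246 11 (.s k5 k7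
  0 (.s k10 k15 2 (.s k170 k255 14 (.d k2 k14 k254 1 13)))))), (.s k12 k8 1 (.s k170 k255 14 (.s k2
  k254 13 (.s k3 k1 0 (.s k6 k9 2 (.s k5 k7 0 (.d k10 k14 k15 1 2)))))))] .n) (.c k87 (.q k4 [(.s
  k12 k8 1 (.s k166 k247 12 (.s k89 k243 14 (.s k93 k81 1 (.d k255 k174 k170 12 14))))), (.s k12 k8
  1 (.s k166 k247 12 (.s k6 k246 11 (.s k3 k9 2 (.s k1 k2 0 (.d k169 k253 k252 13 14)))))), (.s k12
  k8 1 (.s k170 k255 14 (.s k2 k254 13 (.s k3 k1 0 (.s k6 k9 2 (.s k10 k14 1 (.d k5 k7 k15 0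
  2))))))), (.s k166 k247 12 (.s k6 k246 11 (.s k170 k255 14 (.s k2 k254 13 (.s k10 k14 1 (.d k5 k7
  k15 0 2))))))] (.c k7 (.l (.s k12 k8 1 (.s k255 k170 14 (.s k93 k174 12 (.s k89 k81 1 (.d k166
  k247 k243 12 14)))))) .n)) (.c k168 (.l (.s k87 k84 0 (.s k255 k170 14 (.s k3 k171 13 (.s k169
  k252 14 (.d k1 k2 k253 0 13)))))) (.c k169 (.q k4 [(.s k12 k8 1 (.s k166 k247 12 (.s k89 k243 14
  (.s k93 k81 1 (.d k255 k174 k170 12 14))))), (.s k84 k87 0 (.s k166 k247 12 (.s k6 k246 11 (.s k7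
  k5 0 (.d k244 k164 k165 11 12))))), (.s k12 k8 1 (.s k84 k87 0 (.s k164 k244 11 (.s k88 k240 13
  (.s k92 k80 1 (.d k252 k172 k168 11 13))))))] .n) (.c k170 (.q k154 [(.s k16 k223 10 (.s k18 k222
  9 (.s k19 k17 0 (.s k84 k87 0 (.d k220 k152 k153 9 10))))), (.s k84 k87 0 (.s k222 k18 9 (.s k252
  k168 13 (.s k207 k237 4 (.s k69 k138 10 (.d k101 k117 k48 3 14)))))), (.s k16 k223 10 (.s k48 k32
  3 (.s k84 k87 0 (.s k101 k207 14 (.s k116 k71 4 (.d k252 k184 k168 9 13)))))), (.s k16 k223 10 (.s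
  k18 k222 9 (.s k48 k32 3 (.s k3 k33 4 (.s k1 k2 0 (.d k169 k253 k252 13 14))))))] .n) (.c k171 (.l
  (.s k84 k87 0 (.s k252 k168 13 (.s k3 k169 14 (.s k170 k255 14 (.d k2 k1 k254 0 13)))))) (.c k252
  (.q k5 [(.s k15 k10 2 (.s k165 k245 11 (.s k90 k240 14 (.s k95 k80 2 (.d k255 k175 k170 11
  14))))), (.s k87 k84 0 (.s k165 k245 11 (.s k7 k244 12 (.s k4 k6 0 (.d k247 k167 k166 11 12))))),
  (.s k15 k10 2 (.s k87 k84 0 (.s k255 k170 14 (.s k3 k171 13 (.s k7 k11 1 (.s k4 k6 0 (.d k247 k167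
  k166 11 12)))))))] .n) (.c k253 (.l (.s k84 k87 0 (.s k170 k255 14 (.s k2 k254 13 (.s k252 k168 13
  (.d k3 k1 k169 0 14)))))) (.c k254 (.l (.s k87 k84 0 (.s k255 k170 14 (.s k3 k171 13 (.s k1 k2 0
  (.d k169 k253 k252 13 14)))))) (.c k255 (.q k48 [(.s k16 k32 3 (.s k87 k84 0 (.s k223 k154 10 (.s
  k19 k155 9 (.s k17 k18 0 (.d k153 k221 k220 9 10)))))), (.s k84 k87 0 (.s k252 k168 13 (.s k116
  k184 9 (.s k101 k71 4 (.s k69 k117 3 (.d k207 k138 k154 10 14)))))), (.s k16 k32 3 (.s k154 k223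
  10 (.s k18 k222 9 (.s k3 k33 4 (.s k1 k2 0 (.d k169 k253 k252 13 14))))))] (.c k154 (.l (.s k16
  k32 3 (.s k84 k87 0 (.s k152 k220 9 (.s k100 k204 13 (.s k116 k68 3 (.d k252 k184 k168 9 13)))))))
  .n)) .n)))))))))))))

def t47_187 : T TT 256 :=
  (.q k101 [(.s k69 k117 3 (.s k207 k138 10 (.s k154 k48 14 (.s k223 k16 10 (.d k255 k239 k170 3
  14)))))] (.c k16 (.q k1 [(.s k3 k2 0 (.s k169 k253 13 (.s k86 k252 14 (.s k87 k84 0 (.d k255 k171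
  k170 13 14))))), (.s k69 k117 3 (.s k169 k253 13 (.s k33 k237 9 (.s k49 k17 3 (.d k205 k137 k153 9
  13))))), (.s k3 k2 0 (.s k69 k117 3 (.s k137 k205 9 (.s k70 k204 10 (.s k71 k68 0 (.d k207 k139
  k138 9 10))))))] .n) (.c k48 (.q k1 [(.s k3 k2 0 (.s k169 k253 13 (.s k86 k252 14 (.s k87 k84 0
  (.d k255 k171 k170 13 14))))), (.s k69 k117 3 (.s k169 k253 13 (.s k33 k237 9 (.s k49 k17 3 (.d
  k205 k137 k153 9 13))))), (.s k3 k2 0 (.s k69 k117 3 (.s k137 k205 9 (.s k70 k204 10 (.s k71 k68 0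
  (.d k207 k139 k138 9 10))))))] (.c k255 (.l (.s k117 k69 3 (.s k253 k169 13 (.s k49 k185 9 (.s k17
  k33 3 (.d k153 k221 k205 9 13)))))) .n)) (.c k69 (.q k1 [(.s k3 k2 0 (.s k169 k253 13 (.s k86 k252
  14 (.s k87 k84 0 (.d k255 k171 k170 13 14))))), (.s k3 k2 0 (.s k169 k253 13 (.s k33 k237 9 (.s
  k48 k18 4 (.s k16 k32 3 (.d k154 k223 k207 10 14)))))), (.s k169 k253 13 (.s k33 k237 9 (.s k17
  k49 3 (.s k170 k255 14 (.s k32 k239 10 (.d k34 k51 k35 4 0)))))), (.s k3 k2 0 (.s k170 k255 14 (.s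
  k32 k239 10 (.s k48 k16 3 (.s k33 k18 4 (.s k17 k49 3 (.d k34 k51 k35 4 0)))))))] .n) (.c k117 (.q
  k1 [(.s k3 k2 0 (.s k169 k253 13 (.s k86 k252 14 (.s k87 k84 0 (.d k255 k171 k170 13 14))))), (.s
  k3 k2 0 (.s k169 k253 13 (.s k33 k237 9 (.s k48 k18 4 (.s k16 k32 3 (.d k154 k223 k207 10
  14)))))), (.s k3 k2 0 (.s k170 k255 14 (.s k32 k239 10 (.s k48 k16 3 (.s k33 k18 4 (.s k34 k35 0
  (.d k17 k51 k49 4 3))))))), (.s k169 k253 13 (.s k33 k237 9 (.s k170 k255 14 (.s k32 k239 10 (.s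
  k34 k35 0 (.d k17 k49 k51 3 4))))))] (.c k49 (.l (.s k3 k2 0 (.s k255 k170 14 (.s k87 k171 13 (.s
  k86 k84 0 (.d k169 k253 k252 13 14)))))) .n)) (.c k138 (.l (.s k117 k69 3 (.s k255 k170 14 (.s k48
  k186 10 (.s k154 k207 14 (.d k16 k32 k223 3 10)))))) (.c k154 (.q k1 [(.s k3 k2 0 (.s k169 k253 13
  (.s k86 k252 14 (.s k87 k84 0 (.d k255 k171 k170 13 14))))), (.s k69 k117 3 (.s k169 k253 13 (.s
  k33 k237 9 (.s k49 k17 3 (.d k205 k137 k153 9 13))))), (.s k3 k2 0 (.s k69 k117 3 (.s k137 k205 9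
  (.s k70 k204 10 (.s k71 k68 0 (.d k207 k139 k138 9 10))))))] .n) (.c k170 (.q k153 [(.s k17 k221 9
  (.s k49 k205 13 (.s k1 k33 3 (.s k117 k69 3 (.d k253 k185 k169 9 13))))), (.s k17 k221 9 (.s k51
  k34 4 (.s k69 k117 3 (.s k102 k204 14 (.s k103 k100 0 (.d k207 k138 k155 10 13)))))), (.s k17 k221
  9 (.s k49 k205 13 (.s k51 k34 4 (.s k48 k50 0 (.s k16 k32 3 (.d k154 k223 k207 10 14)))))), (.s
  k69 k117 3 (.s k205 k49 13 (.s k207 k138 10 (.s k204 k206 0 (.s k68 k136 9 (.d k102 k119 k51 4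
  14))))))] .n) (.c k186 (.l (.s k69 k117 3 (.s k207 k138 10 (.s k48 k154 14 (.s k170 k255 14 (.d
  k32 k16 k239 3 10)))))) (.c k207 (.q k2 [(.s k3 k1 0 (.s k170 k255 14 (.s k86 k254 13 (.s k84 k87
  0 (.d k252 k168 k169 13 14))))), (.s k1 k3 0 (.s k69 k117 3 (.s k169 k253 13 (.s k33 k237 9 (.s
  k49 k17 3 (.d k205 k137 k153 9 13)))))), (.s k69 k117 3 (.s k170 k255 14 (.s k86 k254 13 (.s k71
  k116 4 (.s k68 k70 0 (.s k87 k84 0 (.d k119 k103 k102 3 4)))))))] (.c k252 (.l (.s k1 k3 0 (.s k69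
  k117 3 (.s k169 k253 13 (.s k205 k137 9 (.s k49 k153 13 (.d k33 k17 k237 3 9))))))) (.c k253 (.l
  (.s k3 k1 0 (.s k170 k255 14 (.s k86 k254 13 (.s k252 k169 14 (.d k84 k87 k168 0 13)))))) .n)))
  (.c k223 (.l (.s k69 k117 3 (.s k170 k255 14 (.s k32 k239 10 (.s k207 k138 10 (.d k48 k16 k154 3
  14)))))) (.c k239 (.l (.s k117 k69 3 (.s k255 k170 14 (.s k48 k186 10 (.s k16 k32 3 (.d k154 k223
  k207 10 14)))))) (.c k255 (.q k51 [(.s k17 k34 4 (.s k69 k117 3 (.s k153 k221 9 (.s k204 k102 14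
  (.s k207 k138 10 (.d k205 k206 k49 0 13)))))), (.s k69 k117 3 (.s k207 k138 10 (.s k103 k155 13
  (.s k102 k100 0 (.s k68 k119 4 (.d k204 k136 k153 9 14)))))), (.s k17 k34 4 (.s k117 k69 3 (.s
  k153 k221 9 (.s k49 k205 13 (.s k1 k33 3 (.d k253 k185 k169 9 13)))))), (.s k17 k34 4 (.s k153
  k221 9 (.s k49 k205 13 (.s k48 k50 0 (.s k16 k32 3 (.d k154 k223 k207 10 14))))))] (.c k153 (.f
  k17 k34 4 (.l (.s k69 k117 3 (.s k207 k138 10 (.s k48 k154 14 (.s k16 k32 3 (.s k18 k19 0 (.s k33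
  k3 4 (.d k49 k50 k1 0 3))))))))) (.c k204 (.l (.s k17 k34 4 (.s k69 k117 3 (.s k207 k138 10 (.s
  k48 k154 14 (.s k49 k50 0 (.d k153 k221 k205 9 13))))))) .n))) .n)))))))))))))

def t47_191 : T TT 256 :=
  (.q k86 [(.s k84 k87 0 (.s k252 k168 13 (.s k169 k3 14 (.s k253 k1 13 (.d k255 k254 k170 0
  14)))))] (.c k1 (.q k4 [(.s k12 k8 1 (.s k166 k247 12 (.s k89 k243 14 (.s k93 k81 1 (.d k255 k174
  k170 12 14))))), (.s k84 k87 0 (.s k166 k247 12 (.s k6 k246 11 (.s k7 k5 0 (.d k244 k164 k165 11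
  12))))), (.s k12 k8 1 (.s k84 k87 0 (.s k164 k244 11 (.s k88 k240 13 (.s k92 k80 1 (.d k252 k172
  k168 11 13))))))] .n) (.c k3 (.q k4 [(.s k12 k8 1 (.s k166 k247 12 (.s k89 k243 14 (.s k93 k81 1
  (.d k255 k174 k170 12 14))))), (.s k84 k87 0 (.s k166 k247 12 (.s k6 k246 11 (.s k7 k5 0 (.d k244
  k164 k165 11 12))))), (.s k12 k8 1 (.s k84 k87 0 (.s k164 k244 11 (.s k88 k240 13 (.s k92 k80 1
  (.d k252 k172 k168 11 13))))))] (.c k255 (.l (.s k87 k84 0 (.s k247 k166 12 (.s k7 k167 11 (.s k5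
  k6 0 (.d k165 k245 k244 11 12)))))) .n)) (.c k84 (.q k4 [(.s k12 k8 1 (.s k166 k247 12 (.s k89
  k243 14 (.s k93 k81 1 (.d k255 k174 k170 12 14))))), (.s k12 k8 1 (.s k166 k247 12 (.s k6 k246 11
  (.s k3 k9 2 (.s k1 k2 0 (.d k169 k253 k252 13 14)))))), (.s k166 k247 12 (.s k6 k246 11 (.s k5 k7
  0 (.s k10 k15 2 (.s k170 k255 14 (.d k2 k14 k254 1 13)))))), (.s k12 k8 1 (.s k170 k255 14 (.s k2
  k254 13 (.s k3 k1 0 (.s k6 k9 2 (.s k5 k7 0 (.d k10 k14 k15 1 2)))))))] .n) (.c k87 (.q k4 [(.s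
  k12 k8 1 (.s k166 k247 12 (.s k89 k243 14 (.s k93 k81 1 (.d k255 k174 k170 12 14))))), (.s k12 k8
  1 (.s k166 k247 12 (.s k6 k246 11 (.s k3 k9 2 (.s k1 k2 0 (.d k169 k253 k252 13 14)))))), (.s k12
  k8 1 (.s k170 k255 14 (.s k2 k254 13 (.s k3 k1 0 (.s k6 k9 2 (.s k10 k14 1 (.d k5 k7 k15 0
  2))))))), (.s k166 k247 12 (.s k6 k246 11 (.s k170 k255 14 (.s k2 k254 13 (.s k10 k14 1 (.d k5 k7
  k15 0 2))))))] (.c k7 (.l (.s k12 k8 1 (.s k255 k170 14 (.s k93 k174 12 (.s k89 k81 1 (.d k166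
  k247 k243 12 14)))))) .n)) (.c k168 (.l (.s k87 k84 0 (.s k255 k170 14 (.s k3 k171 13 (.s k169
  k252 14 (.d k1 k2 k253 0 13)))))) (.c k169 (.q k4 [(.s k12 k8 1 (.s k166 k247 12 (.s k89 k243 14
  (.s k93 k81 1 (.d k255 k174 k170 12 14))))), (.s k84 k87 0 (.s k166 k247 12 (.s k6 k246 11 (.s k7
  k5 0 (.d k244 k164 k165 11 12))))), (.s k12 k8 1 (.s k84 k87 0 (.s k164 k244 11 (.s k88 k240 13
  (.s k92 k80 1 (.d k252 k172 k168 11 13))))))] .n) (.c k170 (.q k149 [(.s k21 k213 7 (.s k23 k212 8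
  (.s k20 k22 0 (.s k87 k84 0 (.d k215 k151 k150 7 8))))), (.s k21 k213 7 (.s k63 k42 6 (.s k84 k87
  0 (.s k106 k192 14 (.s k126 k66 5 (.d k252 k189 k168 8 13)))))), (.s k21 k213 7 (.s k23 k212 8 (.s
  k63 k42 6 (.s k3 k43 5 (.s k1 k2 0 (.d k169 k253 k252 13 14)))))), (.s k84 k87 0 (.s k212 k23 8
  (.s k252 k168 13 (.s k192 k232 5 (.s k64 k128 7 (.d k106 k127 k63 6 14))))))] .n) (.c k171 (.l (.s
  k84 k87 0 (.s k252 k168 13 (.s k3 k169 14 (.s k170 k255 14 (.d k2 k1 k254 0 13)))))) (.c k252 (.q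
  k5 [(.s k15 k10 2 (.s k165 k245 11 (.s k90 k240 14 (.s k95 k80 2 (.d k255 k175 k170 11 14))))),
  (.s k87 k84 0 (.s k165 k245 11 (.s k7 k244 12 (.s k4 k6 0 (.d k247 k167 k166 11 12))))), (.s k15
  k10 2 (.s k87 k84 0 (.s k255 k170 14 (.s k3 k171 13 (.s k7 k11 1 (.s k4 k6 0 (.d k247 k167 k166 11
  12)))))))] .n) (.c k253 (.l (.s k84 k87 0 (.s k170 k255 14 (.s k2 k254 13 (.s k252 k168 13 (.d k3
  k1 k169 0 14)))))) (.c k254 (.l (.s k87 k84 0 (.s k255 k170 14 (.s k3 k171 13 (.s k1 k2 0 (.d k169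
  k253 k252 13 14)))))) (.c k255 (.q k63 [(.s k84 k87 0 (.s k252 k168 13 (.s k126 k189 8 (.s k106
  k66 5 (.s k64 k127 6 (.d k192 k128 k149 7 14)))))), (.s k21 k42 6 (.s k87 k84 0 (.s k149 k213 7
  (.s k23 k212 8 (.s k20 k22 0 (.d k215 k151 k150 7 8)))))), (.s k21 k42 6 (.s k149 k213 7 (.s k23
  k212 8 (.s k3 k43 5 (.s k1 k2 0 (.d k169 k253 k252 13 14))))))] (.c k149 (.f k21 k42 6 (.l (.s k84
  k87 0 (.s k252 k168 13 (.s k3 k169 14 (.s k1 k2 0 (.s k23 k43 5 (.s k22 k20 0 (.d k41 k61 k60 5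
  6))))))))) (.c k192 (.l (.s k21 k42 6 (.s k84 k87 0 (.s k252 k168 13 (.s k3 k169 14 (.s k23 k43 5
  (.d k149 k213 k212 7 8))))))) .n))) .n)))))))))))))

def t47_207 : T TT 256 :=
  (.f k255 k170 14 (.q k105 [(.s k65 k125 5 (.s k195 k130 8 (.s k215 k235 5 (.d k150 k20 k60 8
  14))))] (.c k20 (.q k1 [(.s k3 k2 0 (.s k87 k171 13 (.s k169 k253 13 (.d k86 k84 k252 0 14)))),
  (.s k65 k125 5 (.s k169 k253 13 (.s k41 k233 7 (.s k61 k21 5 (.d k193 k129 k149 7 13))))), (.s k3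
  k2 0 (.s k65 k125 5 (.s k129 k193 7 (.s k66 k192 8 (.s k67 k64 0 (.d k195 k131 k130 7 8))))))] .n)
  (.c k60 (.f k65 k125 5 (.q k81 [(.s k243 k162 12 (.s k247 k251 1 (.s k166 k4 12 (.d k89 k93 k12 1
  14)))), (.s k97 k113 3 (.s k162 k243 12 (.s k32 k227 8 (.s k48 k16 3 (.d k195 k130 k146 8 12))))),
  (.s k89 k93 1 (.s k113 k97 3 (.s k77 k101 5 (.d k73 k69 k121 1 3))))] (.c k109 (.q k158 [(.s k243
  k162 12 (.s k247 k251 1 (.s k166 k4 12 (.d k89 k93 k12 1 14)))), (.s k113 k97 3 (.s k89 k93 1 (.s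
  k77 k101 5 (.d k73 k69 k121 1 3))))] (.c k77 (.l (.s k93 k89 1 (.s k113 k97 3 (.s k223 k28 8 (.s
  k16 k154 10 (.s k48 k32 3 (.d k243 k162 k178 12 8))))))) (.c k89 (.l (.s k97 k113 3 (.s k162 k243
  12 (.s k32 k227 8 (.s k48 k16 3 (.d k195 k130 k146 8 12)))))) (.c k93 (.q k77 [(.s k69 k73 1 (.s
  k101 k117 3 (.d k113 k97 k89 3 5))), (.s k97 k113 3 (.s k162 k243 12 (.s k32 k227 8 (.s k48 k16 3
  (.d k195 k130 k146 8 12))))), (.s k73 k69 1 (.s k195 k130 8 (.s k12 k134 10 (.s k243 k162 12 (.d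
  k89 k166 k121 14 3)))))] (.c k121 (.l (.s k69 k73 1 (.s k101 k117 3 (.d k113 k97 k89 3 5)))) .n))
  .n)))) (.c k158 (.q k109 [(.d k97 k101 k113 1 3), (.s k89 k93 1 (.s k243 k162 12 (.s k166 k12 14
  (.d k247 k251 k4 1 12))))] .n) .n)))) (.c k65 (.q k1 [(.s k3 k2 0 (.s k87 k171 13 (.s k86 k84 0
  (.d k169 k253 k252 13 14)))), (.s k169 k253 13 (.s k41 k233 7 (.s k21 k61 5 (.s k63 k42 6 (.s k127
  k191 7 (.s k106 k64 6 (.d k149 k213 k192 7 14)))))))] (.c k169 (.f k3 k2 0 (.q k86 [(.d k87 k171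
  k84 13 0), (.s k67 k124 6 (.s k195 k131 7 (.s k150 k60 14 (.d k215 k235 k20 5 8))))] (.c k168 (.l
  (.s k171 k87 13 (.s k67 k124 6 (.s k195 k131 7 (.s k150 k60 14 (.d k215 k235 k20 5 8)))))) (.c
  k171 (.q k168 [(.d k84 k87 k252 0 13), (.s k67 k124 6 (.s k195 k131 7 (.s k215 k235 5 (.d k150 k20
  k60 8 14))))] .n) .n)))) (.c k253 (.l (.s k3 k2 0 (.s k87 k171 13 (.s k86 k84 0 (.s k67 k124 6 (.s
  k195 k131 7 (.s k150 k60 14 (.d k215 k235 k20 5 8)))))))) .n))) (.c k125 (.q k253 [(.s k169 k1 13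
  (.s k252 k254 0 (.s k84 k168 13 (.d k86 k87 k3 0 14)))), (.s k169 k1 13 (.s k233 k41 7 (.s k213
  k193 5 (.s k192 k234 6 (.s k64 k128 7 (.s k106 k127 6 (.d k149 k21 k63 7 14)))))))] (.c k1 (.l (.s
  k252 k254 0 (.s k84 k168 13 (.s k86 k87 0 (.s k124 k67 6 (.s k60 k188 7 (.s k20 k40 5 (.d k150
  k215 k195 8 14)))))))) (.c k169 (.f k252 k254 0 (.q k86 [(.d k84 k168 k87 13 0), (.s k124 k67 6
  (.s k60 k188 7 (.s k20 k40 5 (.d k150 k215 k195 8 14))))] (.c k168 (.q k171 [(.d k87 k84 k3 0 13),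
  (.s k124 k67 6 (.s k60 k188 7 (.s k20 k40 5 (.d k150 k215 k195 8 14))))] .n) (.c k171 (.l (.s k168
  k84 13 (.s k124 k67 6 (.s k60 k188 7 (.s k20 k40 5 (.d k150 k215 k195 8 14)))))) .n)))) .n))) (.c
  k130 (.l (.s k125 k65 5 (.s k60 k190 8 (.s k150 k195 14 (.d k20 k40 k215 5 8))))) (.c k150 (.f k65
  k125 5 (.q k64 [(.s k67 k66 0 (.s k86 k124 6 (.s k87 k84 0 (.d k127 k107 k106 5 6)))), (.s k66 k67
  0 (.s k130 k195 8 (.s k192 k128 7 (.s k3 k129 8 (.d k2 k1 k194 0 7))))), (.s k106 k127 6 (.s k192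
  k128 7 (.s k149 k63 14 (.d k213 k234 k21 6 7))))] (.c k130 (.q k190 [(.s k67 k66 0 (.s k86 k124 6
  (.s k87 k84 0 (.d k127 k107 k106 5 6)))), (.s k66 k67 0 (.s k192 k128 7 (.s k129 k3 8 (.s k193 k1
  7 (.s k149 k61 13 (.d k213 k21 k234 7 6)))))), (.s k106 k127 6 (.s k192 k128 7 (.s k149 k63 14 (.d
  k213 k234 k21 6 7))))] .n) (.c k190 (.l (.s k130 k195 8 (.s k66 k67 0 (.s k2 k194 7 (.s k3 k1 0
  (.d k192 k128 k129 7 8)))))) .n)))) (.c k190 (.l (.s k65 k125 5 (.s k195 k130 8 (.s k150 k60 14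
  (.d k215 k235 k20 5 8))))) (.c k195 (.f k65 k125 5 (.q k1 [(.s k3 k2 0 (.s k87 k171 13 (.s k86 k84
  0 (.d k169 k253 k252 13 14)))), (.s k193 k129 7 (.s k149 k61 13 (.s k21 k213 7 (.s k63 k42 6 (.s
  k106 k192 14 (.d k127 k64 k191 6 7))))))] (.c k3 (.l (.s k169 k253 13 (.s k41 k233 7 (.s k61 k21 5
  (.d k193 k129 k149 7 13))))) (.c k199 (.q k203 [(.s k3 k2 0 (.s k87 k171 13 (.s k86 k84 0 (.d k169
  k253 k252 13 14)))), (.s k193 k129 7 (.s k149 k61 13 (.s k21 k213 7 (.s k63 k42 6 (.s k106 k192 14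
  (.d k127 k64 k191 6 7))))))] (.c k3 (.l (.s k169 k253 13 (.s k41 k233 7 (.s k61 k21 5 (.d k193
  k129 k149 7 13))))) (.c k253 (.l (.s k3 k2 0 (.s k87 k171 13 (.s k86 k84 0 (.s k67 k124 6 (.s k64
  k66 0 (.d k127 k107 k106 5 6))))))) .n))) (.c k203 (.q k199 [(.s k3 k2 0 (.s k87 k171 13 (.s k86
  k84 0 (.d k169 k253 k252 13 14)))), (.s k193 k129 7 (.s k149 k61 13 (.s k21 k213 7 (.s k63 k42 6
  (.s k106 k192 14 (.d k127 k64 k191 6 7))))))] (.c k3 (.l (.s k169 k253 13 (.s k41 k233 7 (.s k61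
  k21 5 (.d k193 k129 k149 7 13))))) (.c k253 (.l (.s k3 k2 0 (.s k87 k171 13 (.s k86 k84 0 (.s k67
  k124 6 (.s k64 k66 0 (.d k127 k107 k106 5 6))))))) .n))) (.c k253 (.l (.s k3 k2 0 (.s k87 k171 13
  (.s k86 k84 0 (.s k67 k124 6 (.s k64 k66 0 (.d k127 k107 k106 5 6))))))) .n)))))) (.c k215 (.q k1
  [(.s k3 k2 0 (.s k87 k171 13 (.s k86 k84 0 (.d k169 k253 k252 13 14)))), (.s k65 k125 5 (.s k169
  k253 13 (.s k41 k233 7 (.s k61 k21 5 (.d k193 k129 k149 7 13))))), (.s k3 k2 0 (.s k65 k125 5 (.s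
  k129 k193 7 (.s k66 k192 8 (.s k67 k64 0 (.d k195 k131 k130 7 8))))))] .n) (.c k235 (.l (.s k125
  k65 5 (.s k60 k190 8 (.s k20 k40 5 (.d k150 k215 k195 8 14))))) .n))))))))))))

def t47_218 : T TT 256 :=
  (.f k255 k170 14 (.q k105 [(.s k65 k125 5 (.s k195 k130 8 (.s k150 k60 14 (.d k215 k235 k20 5
  8))))] (.c k20 (.q k1 [(.s k169 k253 13 (.s k3 k2 0 (.s k86 k252 14 (.d k87 k84 k171 0 13)))), (.s
  k65 k125 5 (.s k169 k253 13 (.s k41 k233 7 (.s k61 k21 5 (.d k193 k129 k149 7 13))))), (.s k3 k2 0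
  (.s k65 k125 5 (.s k129 k193 7 (.s k66 k192 8 (.s k67 k64 0 (.d k195 k131 k130 7 8))))))] .n) (.c
  k60 (.q k1 [(.s k3 k2 0 (.s k87 k171 13 (.s k86 k84 0 (.d k169 k253 k252 13 14)))), (.s k65 k125 5
  (.s k169 k253 13 (.s k41 k233 7 (.s k61 k21 5 (.d k193 k129 k149 7 13))))), (.s k3 k2 0 (.s k65
  k125 5 (.s k129 k193 7 (.s k66 k192 8 (.s k67 k64 0 (.d k195 k131 k130 7 8))))))] .n) (.c k65 (.q
  k1 [(.s k169 k253 13 (.s k3 k2 0 (.s k86 k252 14 (.d k87 k84 k171 0 13)))), (.s k169 k253 13 (.s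
  k41 k233 7 (.s k21 k61 5 (.s k63 k42 6 (.s k127 k191 7 (.s k106 k64 6 (.d k149 k213 k192 7
  14)))))))] (.c k169 (.f k3 k2 0 (.q k86 [(.d k87 k171 k84 13 0), (.s k67 k124 6 (.s k195 k131 7
  (.s k150 k60 14 (.d k215 k235 k20 5 8))))] (.c k168 (.l (.s k171 k87 13 (.s k67 k124 6 (.s k195
  k131 7 (.s k150 k60 14 (.d k215 k235 k20 5 8)))))) (.c k171 (.q k168 [(.d k84 k87 k252 0 13), (.s
  k67 k124 6 (.s k195 k131 7 (.s k215 k235 5 (.d k150 k20 k60 8 14))))] .n) .n)))) (.c k253 (.l (.s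
  k3 k2 0 (.s k87 k171 13 (.s k86 k84 0 (.s k67 k124 6 (.s k195 k131 7 (.s k150 k60 14 (.d k215 k235
  k20 5 8)))))))) .n))) (.c k125 (.q k253 [(.s k169 k1 13 (.s k252 k254 0 (.s k84 k168 13 (.d k86
  k87 k3 0 14)))), (.s k169 k1 13 (.s k233 k41 7 (.s k213 k193 5 (.s k192 k234 6 (.s k64 k128 7 (.s
  k106 k127 6 (.d k149 k21 k63 7 14)))))))] (.c k1 (.l (.s k252 k254 0 (.s k84 k168 13 (.s k86 k87 0
  (.s k124 k67 6 (.s k60 k188 7 (.s k20 k40 5 (.d k150 k215 k195 8 14)))))))) (.c k169 (.f k252 k254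
  0 (.q k86 [(.d k84 k168 k87 13 0), (.s k124 k67 6 (.s k60 k188 7 (.s k20 k40 5 (.d k150 k215 k195
  8 14))))] (.c k168 (.q k171 [(.d k87 k84 k3 0 13), (.s k124 k67 6 (.s k60 k188 7 (.s k20 k40 5 (.d
  k150 k215 k195 8 14))))] .n) (.c k171 (.l (.s k168 k84 13 (.s k124 k67 6 (.s k60 k188 7 (.s k20
  k40 5 (.d k150 k215 k195 8 14)))))) .n)))) .n))) (.c k130 (.l (.s k125 k65 5 (.s k60 k190 8 (.s
  k150 k195 14 (.d k20 k40 k215 5 8))))) (.c k150 (.f k65 k125 5 (.q k1 [(.s k3 k2 0 (.s k87 k171 13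
  (.s k86 k84 0 (.d k169 k253 k252 13 14)))), (.s k169 k253 13 (.s k41 k233 7 (.s k61 k21 5 (.d k193
  k129 k149 7 13)))), (.s k3 k2 0 (.s k129 k193 7 (.s k66 k192 8 (.s k67 k64 0 (.d k195 k130 k131 8
  7)))))] (.c k130 (.q k190 [(.s k3 k2 0 (.s k87 k171 13 (.s k86 k84 0 (.d k169 k253 k252 13 14)))),
  (.s k169 k253 13 (.s k41 k233 7 (.s k61 k21 5 (.d k193 k129 k149 7 13)))), (.s k3 k2 0 (.s k129
  k193 7 (.s k66 k192 8 (.s k67 k64 0 (.s k86 k124 6 (.d k87 k84 k171 0 13))))))] .n) (.c k190 (.l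
  (.s k130 k195 8 (.s k3 k2 0 (.s k87 k171 13 (.s k86 k84 0 (.d k169 k253 k252 13 14)))))) .n))))
  (.c k190 (.l (.s k65 k125 5 (.s k195 k130 8 (.s k150 k60 14 (.d k215 k235 k20 5 8))))) (.c k195
  (.q k1 [(.s k3 k2 0 (.s k87 k171 13 (.s k86 k84 0 (.d k169 k253 k252 13 14)))), (.s k65 k125 5 (.s
  k169 k253 13 (.s k41 k233 7 (.s k61 k21 5 (.d k193 k129 k149 7 13))))), (.s k3 k2 0 (.s k125 k65 5
  (.s k60 k190 8 (.s k40 k20 5 (.s k41 k22 6 (.s k21 k61 5 (.d k42 k43 k63 0 6)))))))] .n) (.c k215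
  (.q k1 [(.s k169 k253 13 (.s k3 k2 0 (.s k86 k252 14 (.d k87 k84 k171 0 13)))), (.s k65 k125 5 (.s
  k169 k253 13 (.s k41 k233 7 (.s k61 k21 5 (.d k193 k129 k149 7 13))))), (.s k3 k2 0 (.s k65 k125 5
  (.s k129 k193 7 (.s k66 k192 8 (.s k67 k64 0 (.d k195 k131 k130 7 8))))))] .n) (.c k235 (.l (.s
  k125 k65 5 (.s k60 k190 8 (.s k20 k40 5 (.d k150 k215 k195 8 14))))) .n))))))))))))

def t47_227 : T TT 256 :=
  (.q k3 [(.s k1 k2 0 (.s k169 k253 13 (.s k86 k252 14 (.s k87 k84 0 (.d k255 k171 k170 13 14)))))]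
  (.c k1 (.f k255 k170 14 (.f k171 k87 13 (.q k63 [(.s k21 k42 6 (.s k127 k191 7 (.s k106 k64 6 (.d
  k149 k213 k192 7 14)))), (.s k43 k23 5 (.s k107 k235 7 (.s k151 k195 13 (.d k191 k131 k127 5
  7)))), (.s k21 k42 6 (.s k23 k43 5 (.s k20 k22 0 (.s k149 k213 7 (.s k150 k215 8 (.s k148 k151 0
  (.d k212 k84 k86 7 8)))))))] (.c k107 (.q k167 [(.s k127 k191 7 (.s k106 k64 6 (.s k149 k192 14
  (.d k21 k42 k213 6 7)))), (.s k163 k175 1 (.s k243 k83 11 (.s k91 k15 13 (.d k251 k247 k11 1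
  11))))] (.c k67 (.l (.s k127 k191 7 (.s k21 k42 6 (.s k106 k64 6 (.d k149 k213 k192 7 14))))) (.c
  k127 (.q k67 [(.s k163 k175 1 (.s k243 k83 11 (.s k91 k15 13 (.d k251 k247 k11 1 11)))), (.s k21
  k42 6 (.s k23 k43 5 (.s k20 k22 0 (.s k195 k131 7 (.d k215 k235 k150 5 8)))))] .n) .n))) (.c k167
  (.q k107 [(.d k43 k23 k235 5 7), (.s k151 k195 13 (.d k191 k131 k127 5 7))] (.c k7 (.q k247 [(.d
  k43 k23 k235 5 7), (.s k151 k195 13 (.d k191 k131 k127 5 7))] .n) (.c k247 (.q k7 [(.d k43 k23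
  k235 5 7), (.s k151 k195 13 (.d k191 k131 k127 5 7))] .n) .n))) .n))))) (.c k2 (.q k51 [(.s k34
  k17 4 (.s k170 k255 14 (.s k102 k238 9 (.s k68 k119 4 (.d k204 k136 k153 9 14))))), (.s k17 k34 4
  (.s k19 k35 3 (.s k153 k221 9 (.s k86 k220 10 (.s k84 k87 0 (.d k252 k168 k169 13 14)))))), (.s
  k19 k35 3 (.s k255 k170 14 (.s k87 k171 13 (.s k119 k187 9 (.s k103 k71 3 (.d k155 k223 k207 9
  13))))))] (.c k107 (.q k167 [(.s k34 k17 4 (.s k170 k255 14 (.s k102 k238 9 (.s k68 k119 4 (.d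
  k204 k136 k153 9 14))))), (.s k17 k34 4 (.s k19 k35 3 (.s k153 k221 9 (.s k86 k220 10 (.s k84 k87
  0 (.d k252 k168 k169 13 14)))))), (.s k19 k35 3 (.s k255 k170 14 (.s k87 k171 13 (.s k119 k187 9
  (.s k103 k71 3 (.d k155 k223 k207 9 13))))))] (.c k153 (.l (.s k17 k34 4 (.s k19 k35 3 (.s k255
  k170 14 (.s k87 k171 13 (.s k223 k155 9 (.d k16 k18 k154 0 10))))))) .n)) (.c k153 (.l (.s k17 k34
  4 (.s k19 k35 3 (.s k255 k170 14 (.s k87 k171 13 (.s k223 k155 9 (.d k16 k18 k154 0 10))))))) (.c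
  k167 (.q k107 [(.s k34 k17 4 (.s k170 k255 14 (.s k102 k238 9 (.s k68 k119 4 (.d k204 k136 k153 9
  14))))), (.s k17 k34 4 (.s k19 k35 3 (.s k153 k221 9 (.s k86 k220 10 (.s k84 k87 0 (.d k252 k168
  k169 13 14)))))), (.s k19 k35 3 (.s k255 k170 14 (.s k87 k171 13 (.s k119 k187 9 (.s k103 k71 3
  (.d k155 k223 k207 9 13))))))] (.c k153 (.l (.s k17 k34 4 (.s k19 k35 3 (.s k255 k170 14 (.s k87
  k171 13 (.s k223 k155 9 (.d k16 k18 k154 0 10))))))) .n)) .n)))) (.c k84 (.f k1 k2 0 (.f k253 k169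
  13 (.f k170 k255 14 (.q k153 [(.s k221 k17 9 (.s k205 k237 3 (.s k69 k137 9 (.d k101 k117 k49 3
  13)))), (.s k17 k221 9 (.s k51 k34 4 (.s k136 k187 4 (.d k204 k68 k102 9 14)))), (.s k136 k187 4
  (.s k204 k68 9 (.s k137 k70 10 (.s k69 k205 9 (.d k138 k139 k207 0 10)))))] (.c k107 (.q k167 [(.s
  k221 k17 9 (.s k205 k237 3 (.s k69 k137 9 (.d k101 k117 k49 3 13)))), (.s k17 k221 9 (.s k51 k34 4
  (.s k136 k187 4 (.d k204 k68 k102 9 14)))), (.s k136 k187 4 (.s k204 k68 9 (.s k137 k70 10 (.s k69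
  k205 9 (.d k138 k139 k207 0 10)))))] .n) (.c k167 (.q k107 [(.s k221 k17 9 (.s k205 k237 3 (.s k69
  k137 9 (.d k101 k117 k49 3 13)))), (.s k17 k221 9 (.s k51 k34 4 (.s k136 k187 4 (.d k204 k68 k102
  9 14)))), (.s k136 k187 4 (.s k204 k68 9 (.s k137 k70 10 (.s k69 k205 9 (.d k138 k139 k207 0
  10)))))] .n) .n)))))) (.c k86 (.f k2 k1 0 (.f k255 k170 14 (.q k60 [(.s k22 k41 6 (.s k42 k62 5
  (.s k21 k63 6 (.d k20 k23 k40 0 5)))), (.s k125 k190 8 (.s k65 k105 5 (.s k130 k195 8 (.s k66 k194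
  7 (.s k192 k129 8 (.d k64 k67 k128 0 7))))))] (.c k40 (.l (.s k22 k41 6 (.s k42 k62 5 (.s k21 k63
  6 (.s k20 k23 0 (.s k125 k190 8 (.s k105 k65 5 (.d k150 k215 k195 8 14)))))))) (.c k107 (.q k167
  [(.s k20 k40 5 (.s k125 k190 8 (.s k105 k65 5 (.d k150 k215 k195 8 14)))), (.s k87 k171 13 (.s k7
  k247 11 (.s k15 k11 1 (.s k91 k243 13 (.d k95 k83 k175 1 11)))))] (.c k195 (.l (.s k20 k40 5 (.s
  k22 k41 6 (.s k21 k23 0 (.d k42 k62 k63 5 6))))) (.c k235 (.l (.s k22 k41 6 (.s k42 k62 5 (.s k21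
  k63 6 (.d k20 k23 k40 0 5))))) .n))) (.c k167 (.q k107 [(.s k22 k41 6 (.s k42 k62 5 (.s k21 k63 6
  (.d k20 k23 k40 0 5)))), (.s k20 k40 5 (.s k125 k190 8 (.s k105 k65 5 (.d k150 k215 k195 8 14)))),
  (.s k22 k41 6 (.s k42 k62 5 (.s k87 k171 13 (.s k127 k67 5 (.d k63 k21 k191 6 7)))))] .n) .n))))))
  (.c k87 (.l (.s k1 k2 0 (.s k169 k253 13 (.s k170 k255 14 (.s k168 k171 0 (.d k252 k84 k86 13
  14)))))) (.c k107 (.q k167 [(.s k1 k2 0 (.s k169 k253 13 (.s k86 k252 14 (.s k87 k84 0 (.d k255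
  k171 k170 13 14))))), (.s k255 k170 14 (.s k171 k87 13 (.s k163 k175 1 (.s k243 k83 11 (.s k91 k15
  13 (.d k251 k247 k11 1 11))))))] (.c k87 (.l (.s k1 k2 0 (.s k169 k253 13 (.s k170 k255 14 (.s
  k168 k171 0 (.d k252 k84 k86 13 14)))))) (.c k170 (.f k1 k2 0 (.l (.s k169 k253 13 (.s k86 k252 14
  (.s k87 k84 0 (.s k7 k247 11 (.s k15 k11 1 (.s k5 k10 2 (.d k165 k245 k244 11 12))))))))) (.c k171
  (.l (.s k2 k1 0 (.s k170 k255 14 (.s k86 k254 13 (.s k84 k87 0 (.d k252 k168 k169 13 14)))))) (.c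
  k255 (.q k4 [(.s k12 k8 1 (.s k6 k9 2 (.s k7 k5 0 (.d k247 k87 k166 11 12)))), (.s k166 k247 12
  (.s k164 k165 0 (.s k84 k244 11 (.s k86 k87 0 (.d k252 k168 k169 13 14))))), (.s k2 k1 0 (.s k12
  k8 1 (.s k6 k9 2 (.s k5 k7 0 (.d k10 k14 k15 1 2)))))] (.c k7 (.l (.s k166 k247 12 (.s k164 k165 0
  (.s k84 k244 11 (.s k86 k87 0 (.d k252 k168 k169 13 14)))))) .n)) .n))))) (.c k167 (.q k107 [(.s
  k1 k2 0 (.s k169 k253 13 (.s k86 k252 14 (.s k87 k84 0 (.d k255 k171 k170 13 14))))), (.s k255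
  k170 14 (.s k171 k87 13 (.s k43 k235 7 (.s k63 k23 5 (.s k151 k195 13 (.d k191 k131 k127 5
  7))))))] (.c k87 (.l (.s k1 k2 0 (.s k169 k253 13 (.s k170 k255 14 (.s k168 k171 0 (.d k252 k84
  k86 13 14)))))) (.c k170 (.f k1 k2 0 (.l (.s k169 k253 13 (.s k86 k252 14 (.s k87 k84 0 (.s k67
  k127 5 (.s k105 k124 6 (.s k195 k131 7 (.d k65 k125 k130 5 8))))))))) (.c k171 (.l (.s k2 k1 0 (.s
  k170 k255 14 (.s k86 k254 13 (.s k84 k87 0 (.d k252 k168 k169 13 14)))))) (.c k255 (.q k5 [(.s k1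
  k2 0 (.s k9 k13 1 (.s k6 k12 2 (.s k7 k4 0 (.d k15 k11 k10 1 2))))), (.s k15 k10 2 (.s k7 k11 1
  (.s k165 k245 11 (.s k86 k244 12 (.s k84 k87 0 (.d k252 k168 k169 13 14)))))), (.s k1 k2 0 (.s k13
  k9 1 (.s k165 k245 11 (.s k89 k241 13 (.s k93 k81 1 (.d k253 k173 k169 11 13))))))] (.c k9 (.l (.s
  k1 k2 0 (.s k15 k10 2 (.s k11 k7 1 (.s k165 k245 11 (.s k169 k253 13 (.d k90 k240 k248 14
  12))))))) .n)) .n))))) (.c k169 (.f k1 k2 0 (.f k170 k255 14 (.q k137 [(.s k69 k205 9 (.s k70 k204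
  10 (.s k71 k68 0 (.d k207 k139 k138 9 10)))), (.s k69 k205 9 (.s k101 k117 3 (.s k32 k239 10 (.s
  k48 k16 3 (.d k207 k138 k154 10 14))))), (.s k204 k70 10 (.s k68 k136 9 (.s k102 k119 4 (.s k34
  k238 9 (.d k51 k17 k153 4 14)))))] (.c k107 (.q k167 [(.s k69 k205 9 (.s k70 k204 10 (.s k71 k68 0
  (.d k207 k139 k138 9 10)))), (.s k69 k205 9 (.s k101 k117 3 (.s k32 k239 10 (.s k48 k16 3 (.d k207
  k138 k154 10 14))))), (.s k204 k70 10 (.s k68 k136 9 (.s k102 k119 4 (.s k34 k238 9 (.d k51 k17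
  k153 4 14)))))] (.c k138 (.l (.s k69 k205 9 (.s k70 k204 10 (.s k71 k68 0 (.s k101 k117 3 (.s k32
  k239 10 (.s k48 k16 3 (.d k207 k139 k154 9 14)))))))) .n)) (.c k138 (.l (.s k69 k205 9 (.s k70
  k204 10 (.s k71 k68 0 (.s k101 k117 3 (.s k32 k239 10 (.s k48 k16 3 (.d k207 k139 k154 9
  14)))))))) (.c k167 (.q k107 [(.s k69 k205 9 (.s k70 k204 10 (.s k71 k68 0 (.d k207 k139 k138 9
  10)))), (.s k69 k205 9 (.s k101 k117 3 (.s k32 k239 10 (.s k48 k16 3 (.d k207 k138 k154 10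
  14))))), (.s k204 k70 10 (.s k68 k136 9 (.s k102 k119 4 (.s k34 k238 9 (.d k51 k17 k153 4 14)))))]
  (.c k138 (.l (.s k69 k205 9 (.s k70 k204 10 (.s k71 k68 0 (.s k101 k117 3 (.s k32 k239 10 (.s k48
  k16 3 (.d k207 k139 k154 9 14)))))))) .n)) .n)))))) (.c k170 (.q k35 [(.s k2 k1 0 (.s k51 k19 3
  (.s k34 k17 4 (.s k18 k50 3 (.d k33 k32 k48 0 4))))), (.s k1 k2 0 (.s k169 k253 13 (.s k86 k252 14
  (.s k102 k236 10 (.s k68 k119 4 (.s k204 k136 9 (.d k70 k118 k137 3 10))))))), (.s k51 k19 3 (.s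
  k17 k34 4 (.s k153 k221 9 (.s k102 k204 14 (.s k169 k236 10 (.s k185 k137 3 (.d k252 k118 k86 10
  14)))))))] (.c k107 (.q k167 [(.s k2 k1 0 (.s k51 k19 3 (.s k34 k17 4 (.s k18 k50 3 (.d k33 k32
  k48 0 4))))), (.s k1 k2 0 (.s k169 k253 13 (.s k86 k252 14 (.s k102 k236 10 (.s k68 k119 4 (.s
  k204 k136 9 (.d k70 k118 k137 3 10))))))), (.s k51 k19 3 (.s k17 k34 4 (.s k153 k221 9 (.s k102
  k204 14 (.s k169 k236 10 (.s k185 k137 3 (.d k252 k118 k86 10 14)))))))] .n) (.c k167 (.q k107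
  [(.s k2 k1 0 (.s k51 k19 3 (.s k34 k17 4 (.s k18 k50 3 (.d k33 k32 k48 0 4))))), (.s k1 k2 0 (.s
  k169 k253 13 (.s k86 k252 14 (.s k102 k236 10 (.s k68 k119 4 (.s k204 k136 9 (.d k70 k118 k137 3
  10))))))), (.s k51 k19 3 (.s k17 k34 4 (.s k153 k221 9 (.s k102 k204 14 (.s k169 k236 10 (.s k185
  k137 3 (.d k252 k118 k86 10 14)))))))] .n) .n))) (.c k171 (.l (.s k2 k1 0 (.s k170 k255 14 (.s k86
  k254 13 (.s k84 k87 0 (.d k252 k168 k169 13 14)))))) (.c k252 (.f k1 k2 0 (.f k253 k169 13 (.f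
  k170 k255 14 (.q k81 [(.s k89 k93 1 (.s k8 k251 12 (.s k12 k4 1 (.d k243 k162 k166 12 14)))), (.s
  k161 k241 11 (.s k82 k240 12 (.s k83 k80 0 (.d k243 k163 k162 11 12)))), (.s k89 k93 1 (.s k241
  k161 11 (.s k165 k13 13 (.d k245 k249 k5 1 11))))] (.c k107 (.q k167 [(.s k89 k93 1 (.s k8 k251 12
  (.s k12 k4 1 (.d k243 k162 k166 12 14)))), (.s k161 k241 11 (.s k82 k240 12 (.s k83 k80 0 (.d k243
  k163 k162 11 12)))), (.s k89 k93 1 (.s k241 k161 11 (.s k165 k13 13 (.d k245 k249 k5 1 11))))] .n)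
  (.c k167 (.q k107 [(.s k89 k93 1 (.s k8 k251 12 (.s k12 k4 1 (.d k243 k162 k166 12 14)))), (.s
  k161 k241 11 (.s k82 k240 12 (.s k83 k80 0 (.d k243 k163 k162 11 12)))), (.s k89 k93 1 (.s k241
  k161 11 (.s k165 k13 13 (.d k245 k249 k5 1 11))))] .n) .n)))))) (.c k253 (.l (.s k2 k1 0 (.s k170
  k255 14 (.s k86 k254 13 (.s k252 k169 14 (.d k84 k87 k168 0 13)))))) (.c k254 (.l (.s k1 k2 0 (.s
  k169 k253 13 (.s k86 k252 14 (.s k255 k170 14 (.d k87 k84 k171 0 13)))))) (.c k255 (.f k1 k2 0 (.f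
  k253 k169 13 (.q k5 [(.s k9 k13 1 (.s k6 k12 2 (.s k7 k4 0 (.d k15 k11 k10 1 2)))), (.s k13 k9 1
  (.s k93 k173 11 (.s k89 k81 1 (.d k165 k245 k241 11 13)))), (.s k15 k10 2 (.s k165 k245 11 (.s
  k240 k90 14 (.s k160 k80 11 (.s k161 k82 12 (.s k81 k241 11 (.d k162 k163 k243 0 12)))))))] (.c
  k107 (.q k167 [(.s k9 k13 1 (.s k6 k12 2 (.s k7 k4 0 (.d k15 k11 k10 1 2)))), (.s k13 k9 1 (.s k93
  k173 11 (.s k89 k81 1 (.d k165 k245 k241 11 13)))), (.s k15 k10 2 (.s k165 k245 11 (.s k166 k164 0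
  (.s k4 k247 12 (.d k7 k6 k11 0 1)))))] .n) (.c k167 (.q k107 [(.s k9 k13 1 (.s k6 k12 2 (.s k7 k4
  0 (.d k15 k11 k10 1 2)))), (.s k13 k9 1 (.s k93 k173 11 (.s k89 k81 1 (.d k165 k245 k241 11
  13)))), (.s k15 k10 2 (.s k165 k245 11 (.s k240 k90 14 (.s k160 k80 11 (.s k161 k82 12 (.s k81
  k241 11 (.d k162 k163 k243 0 12)))))))] .n) .n))))) .n)))))))))))))))

def t47_234 : T TT 256 :=
  (.q k86 [(.s k84 k87 0 (.s k252 k168 13 (.s k169 k3 14 (.s k253 k1 13 (.d k255 k254 k170 0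
  14)))))] (.c k1 (.q k4 [(.s k12 k8 1 (.s k166 k247 12 (.s k89 k243 14 (.s k93 k81 1 (.d k255 k174
  k170 12 14))))), (.s k84 k87 0 (.s k166 k247 12 (.s k6 k246 11 (.s k7 k5 0 (.d k244 k164 k165 11
  12))))), (.s k12 k8 1 (.s k84 k87 0 (.s k164 k244 11 (.s k88 k240 13 (.s k92 k80 1 (.d k252 k172
  k168 11 13))))))] .n) (.c k3 (.q k4 [(.s k12 k8 1 (.s k166 k247 12 (.s k89 k243 14 (.s k93 k81 1
  (.d k255 k174 k170 12 14))))), (.s k84 k87 0 (.s k166 k247 12 (.s k6 k246 11 (.s k7 k5 0 (.d k244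
  k164 k165 11 12))))), (.s k12 k8 1 (.s k84 k87 0 (.s k164 k244 11 (.s k88 k240 13 (.s k92 k80 1
  (.d k252 k172 k168 11 13))))))] (.c k255 (.l (.s k87 k84 0 (.s k247 k166 12 (.s k7 k167 11 (.s k5
  k6 0 (.d k165 k245 k244 11 12)))))) .n)) (.c k84 (.q k4 [(.s k12 k8 1 (.s k166 k247 12 (.s k89
  k243 14 (.s k93 k81 1 (.d k255 k174 k170 12 14))))), (.s k12 k8 1 (.s k166 k247 12 (.s k6 k246 11
  (.s k3 k9 2 (.s k1 k2 0 (.d k169 k253 k252 13 14)))))), (.s k166 k247 12 (.s k6 k246 11 (.s k5 k7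
  0 (.s k10 k15 2 (.s k170 k255 14 (.d k2 k14 k254 1 13)))))), (.s k12 k8 1 (.s k170 k255 14 (.s k2
  k254 13 (.s k3 k1 0 (.s k6 k9 2 (.s k5 k7 0 (.d k10 k14 k15 1 2)))))))] .n) (.c k87 (.q k4 [(.s
  k12 k8 1 (.s k166 k247 12 (.s k89 k243 14 (.s k93 k81 1 (.d k255 k174 k170 12 14))))), (.s k12 k8
  1 (.s k166 k247 12 (.s k6 k246 11 (.s k3 k9 2 (.s k1 k2 0 (.d k169 k253 k252 13 14)))))), (.s k12
  k8 1 (.s k170 k255 14 (.s k2 k254 13 (.s k3 k1 0 (.s k6 k9 2 (.s k10 k14 1 (.d k5 k7 k15 0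
  2))))))), (.s k166 k247 12 (.s k6 k246 11 (.s k170 k255 14 (.s k2 k254 13 (.s k10 k14 1 (.d k5 k7
  k15 0 2))))))] (.c k7 (.l (.s k12 k8 1 (.s k255 k170 14 (.s k93 k174 12 (.s k89 k81 1 (.d k166
  k247 k243 12 14)))))) .n)) (.c k168 (.l (.s k87 k84 0 (.s k255 k170 14 (.s k3 k171 13 (.s k169
  k252 14 (.d k1 k2 k253 0 13)))))) (.c k169 (.q k4 [(.s k12 k8 1 (.s k166 k247 12 (.s k89 k243 14
  (.s k93 k81 1 (.d k255 k174 k170 12 14))))), (.s k84 k87 0 (.s k166 k247 12 (.s k6 k246 11 (.s k7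
  k5 0 (.d k244 k164 k165 11 12))))), (.s k12 k8 1 (.s k84 k87 0 (.s k164 k244 11 (.s k88 k240 13
  (.s k92 k80 1 (.d k252 k172 k168 11 13))))))] .n) (.c k170 (.q k106 [(.s k64 k127 6 (.s k66 k126 5
  (.s k67 k65 0 (.s k84 k87 0 (.d k124 k104 k105 5 6))))), (.s k84 k87 0 (.s k126 k66 5 (.s k252
  k168 13 (.s k63 k189 8 (.s k21 k42 6 (.d k149 k213 k192 7 14)))))), (.s k64 k127 6 (.s k84 k87 0
  (.s k192 k128 7 (.s k149 k63 14 (.s k212 k23 8 (.d k252 k232 k168 5 13)))))), (.s k64 k127 6 (.s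
  k66 k126 5 (.s k192 k128 7 (.s k3 k129 8 (.s k1 k2 0 (.d k169 k253 k252 13 14))))))] .n) (.c k171
  (.l (.s k84 k87 0 (.s k252 k168 13 (.s k3 k169 14 (.s k170 k255 14 (.d k2 k1 k254 0 13)))))) (.c
  k252 (.q k5 [(.s k15 k10 2 (.s k165 k245 11 (.s k90 k240 14 (.s k95 k80 2 (.d k255 k175 k170 11
  14))))), (.s k87 k84 0 (.s k165 k245 11 (.s k7 k244 12 (.s k4 k6 0 (.d k247 k167 k166 11 12))))),
  (.s k15 k10 2 (.s k87 k84 0 (.s k255 k170 14 (.s k3 k171 13 (.s k7 k11 1 (.s k4 k6 0 (.d k247 k167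
  k166 11 12)))))))] .n) (.c k253 (.l (.s k84 k87 0 (.s k170 k255 14 (.s k2 k254 13 (.s k252 k168 13
  (.d k3 k1 k169 0 14)))))) (.c k254 (.l (.s k87 k84 0 (.s k255 k170 14 (.s k3 k171 13 (.s k1 k2 0
  (.d k169 k253 k252 13 14)))))) (.c k255 (.q k192 [(.s k64 k128 7 (.s k84 k87 0 (.s k104 k124 5 (.s
  k60 k148 13 (.s k40 k20 5 (.d k168 k232 k252 7 13)))))), (.s k64 k128 7 (.s k106 k127 6 (.s k66
  k126 5 (.s k3 k129 8 (.s k1 k2 0 (.d k169 k253 k252 13 14)))))), (.s k84 k87 0 (.s k252 k168 13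
  (.s k212 k232 5 (.s k149 k23 8 (.s k21 k213 7 (.d k63 k42 k106 6 14)))))), (.s k64 k128 7 (.s k87
  k84 0 (.s k127 k106 6 (.s k67 k107 5 (.s k65 k66 0 (.d k105 k125 k124 5 6))))))] .n)
  .n)))))))))))))

def t47_235 : T TT 256 :=
  (.q k86 [(.s k84 k87 0 (.s k252 k168 13 (.s k169 k3 14 (.s k253 k1 13 (.d k255 k254 k170 0
  14)))))] (.c k1 (.q k4 [(.s k12 k8 1 (.s k166 k247 12 (.s k89 k243 14 (.s k93 k81 1 (.d k255 k174
  k170 12 14))))), (.s k84 k87 0 (.s k166 k247 12 (.s k6 k246 11 (.s k7 k5 0 (.d k244 k164 k165 11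
  12))))), (.s k12 k8 1 (.s k84 k87 0 (.s k164 k244 11 (.s k88 k240 13 (.s k92 k80 1 (.d k252 k172
  k168 11 13))))))] .n) (.c k3 (.q k4 [(.s k12 k8 1 (.s k166 k247 12 (.s k89 k243 14 (.s k93 k81 1
  (.d k255 k174 k170 12 14))))), (.s k84 k87 0 (.s k166 k247 12 (.s k6 k246 11 (.s k7 k5 0 (.d k244
  k164 k165 11 12))))), (.s k12 k8 1 (.s k84 k87 0 (.s k164 k244 11 (.s k88 k240 13 (.s k92 k80 1
  (.d k252 k172 k168 11 13))))))] (.c k255 (.l (.s k87 k84 0 (.s k247 k166 12 (.s k7 k167 11 (.s k5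
  k6 0 (.d k165 k245 k244 11 12)))))) .n)) (.c k84 (.q k4 [(.s k12 k8 1 (.s k166 k247 12 (.s k89
  k243 14 (.s k93 k81 1 (.d k255 k174 k170 12 14))))), (.s k12 k8 1 (.s k166 k247 12 (.s k6 k246 11
  (.s k3 k9 2 (.s k1 k2 0 (.d k169 k253 k252 13 14)))))), (.s k166 k247 12 (.s k6 k246 11 (.s k5 k7
  0 (.s k10 k15 2 (.s k170 k255 14 (.d k2 k14 k254 1 13)))))), (.s k12 k8 1 (.s k170 k255 14 (.s k2
  k254 13 (.s k3 k1 0 (.s k6 k9 2 (.s k5 k7 0 (.d k10 k14 k15 1 2)))))))] .n) (.c k87 (.q k4 [(.s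
  k12 k8 1 (.s k166 k247 12 (.s k89 k243 14 (.s k93 k81 1 (.d k255 k174 k170 12 14))))), (.s k12 k8
  1 (.s k166 k247 12 (.s k6 k246 11 (.s k3 k9 2 (.s k1 k2 0 (.d k169 k253 k252 13 14)))))), (.s k12
  k8 1 (.s k170 k255 14 (.s k2 k254 13 (.s k3 k1 0 (.s k6 k9 2 (.s k10 k14 1 (.d k5 k7 k15 0
  2))))))), (.s k166 k247 12 (.s k6 k246 11 (.s k170 k255 14 (.s k2 k254 13 (.s k10 k14 1 (.d k5 k7
  k15 0 2))))))] (.c k7 (.l (.s k12 k8 1 (.s k255 k170 14 (.s k93 k174 12 (.s k89 k81 1 (.d k166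
  k247 k243 12 14)))))) .n)) (.c k168 (.l (.s k87 k84 0 (.s k255 k170 14 (.s k3 k171 13 (.s k169
  k252 14 (.d k1 k2 k253 0 13)))))) (.c k169 (.q k4 [(.s k12 k8 1 (.s k166 k247 12 (.s k89 k243 14
  (.s k93 k81 1 (.d k255 k174 k170 12 14))))), (.s k84 k87 0 (.s k166 k247 12 (.s k6 k246 11 (.s k7
  k5 0 (.d k244 k164 k165 11 12))))), (.s k12 k8 1 (.s k84 k87 0 (.s k164 k244 11 (.s k88 k240 13
  (.s k92 k80 1 (.d k252 k172 k168 11 13))))))] .n) (.c k170 (.q k105 [(.s k65 k125 5 (.s k67 k124 6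
  (.s k64 k66 0 (.s k87 k84 0 (.d k127 k107 k106 5 6))))), (.s k65 k125 5 (.s k84 k87 0 (.s k195
  k130 8 (.s k150 k60 14 (.s k214 k22 7 (.d k252 k233 k168 6 13)))))), (.s k84 k87 0 (.s k124 k67 6
  (.s k252 k168 13 (.s k60 k188 7 (.s k20 k40 5 (.d k150 k215 k195 8 14)))))), (.s k65 k125 5 (.s
  k67 k124 6 (.s k195 k130 8 (.s k3 k131 7 (.s k1 k2 0 (.d k169 k253 k252 13 14))))))] .n) (.c k171
  (.l (.s k84 k87 0 (.s k252 k168 13 (.s k3 k169 14 (.s k170 k255 14 (.d k2 k1 k254 0 13)))))) (.c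
  k252 (.q k5 [(.s k15 k10 2 (.s k165 k245 11 (.s k90 k240 14 (.s k95 k80 2 (.d k255 k175 k170 11
  14))))), (.s k87 k84 0 (.s k165 k245 11 (.s k7 k244 12 (.s k4 k6 0 (.d k247 k167 k166 11 12))))),
  (.s k15 k10 2 (.s k87 k84 0 (.s k255 k170 14 (.s k3 k171 13 (.s k7 k11 1 (.s k4 k6 0 (.d k247 k167
  k166 11 12)))))))] .n) (.c k253 (.l (.s k84 k87 0 (.s k170 k255 14 (.s k2 k254 13 (.s k252 k168 13
  (.d k3 k1 k169 0 14)))))) (.c k254 (.l (.s k87 k84 0 (.s k255 k170 14 (.s k3 k171 13 (.s k1 k2 0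
  (.d k169 k253 k252 13 14)))))) (.c k255 (.q k195 [(.s k65 k130 8 (.s k84 k87 0 (.s k105 k125 5 (.s
  k60 k150 14 (.s k252 k168 13 (.d k124 k67 k188 6 7)))))), (.s k84 k87 0 (.s k252 k168 13 (.s k214
  k233 6 (.s k150 k22 7 (.s k20 k215 8 (.d k60 k40 k105 5 14)))))), (.s k65 k130 8 (.s k87 k84 0 (.s
  k105 k125 5 (.s k67 k124 6 (.s k64 k66 0 (.d k127 k107 k106 5 6)))))), (.s k65 k130 8 (.s k105
  k125 5 (.s k67 k124 6 (.s k3 k131 7 (.s k1 k2 0 (.d k169 k253 k252 13 14))))))] (.c k60 (.l (.s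
  k65 k130 8 (.s k84 k87 0 (.s k252 k168 13 (.s k3 k169 14 (.s k67 k131 7 (.d k105 k125 k124 5
  6))))))) (.c k105 (.f k65 k130 8 (.l (.s k84 k87 0 (.s k252 k168 13 (.s k3 k169 14 (.s k1 k2 0 (.s
  k67 k131 7 (.s k66 k64 0 (.d k129 k193 k192 7 8))))))))) .n))) .n)))))))))))))

def t47_239 : T TT 256 :=
  (.q k192 [(.s k64 k128 7 (.s k106 k127 6 (.s k63 k149 14 (.s k42 k21 6 (.d k170 k234 k255 7
  14)))))] (.c k21 (.f k64 k128 7 (.f k170 k255 14 (.f k106 k127 6 (.f k63 k149 14 (.q k111 [(.s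
  k101 k96 2 (.s k207 k159 11 (.d k69 k117 k138 3 10))), (.s k96 k101 2 (.s k80 k112 3 (.s k90 k95 2
  (.s k122 k74 3 (.d k240 k181 k160 10 11))))), (.s k207 k159 11 (.s k138 k69 10 (.s k154 k186 3 (.d
  k202 k197 k58 2 11))))] (.c k117 (.l (.s k101 k96 2 (.s k207 k159 11 (.s k138 k69 10 (.d k154 k186
  k48 3 14))))) (.c k207 (.q k223 [(.s k16 k154 10 (.s k48 k32 3 (.d k96 k101 k144 2 11))), (.s k42
  k234 7 (.s k154 k16 10 (.s k58 k202 11 (.s k186 k138 3 (.s k250 k122 7 (.d k10 k26 k90 3 11)))))),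
  (.s k101 k96 2 (.s k69 k117 3 (.s k74 k79 2 (.s k15 k133 10 (.s k10 k5 2 (.d k90 k122 k250 3
  11))))))] .n) (.c k223 (.l (.s k207 k159 11 (.s k69 k138 10 (.d k101 k96 k117 2 3)))) .n))))))))
  (.c k42 (.l (.s k64 k128 7 (.s k106 k127 6 (.s k149 k63 14 (.s k213 k21 7 (.d k255 k234 k170 6
  14)))))) (.c k63 (.f k64 k128 7 (.q k15 [(.s k10 k5 2 (.s k74 k133 10 (.s k69 k79 2 (.d k138 k202
  k207 7 10)))), (.s k5 k10 2 (.s k165 k245 11 (.s k90 k240 14 (.s k95 k80 2 (.d k255 k175 k170 11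
  14))))), (.s k74 k133 10 (.s k106 k127 6 (.s k90 k122 3 (.s k80 k95 2 (.d k240 k160 k165 11
  14)))))] (.c k111 (.q k175 [(.d k255 k95 k170 11 14), (.s k5 k10 2 (.s k165 k245 11 (.s k160 k170
  2 (.d k240 k90 k80 14 11))))] (.c k159 (.q k207 [(.d k255 k95 k170 11 14), (.s k69 k138 10 (.d k74
  k133 k79 10 2))] .n) (.c k170 (.l (.s k5 k10 2 (.s k95 k255 11 (.s k90 k80 2 (.d k165 k245 k240 11
  14))))) (.c k207 (.q k159 [(.d k255 k95 k170 11 14)] (.c k95 (.l (.s k5 k10 2 (.s k165 k245 11 (.d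
  k170 k160 k255 2 14)))) (.c k170 (.l (.s k5 k10 2 (.s k165 k245 11 (.s k90 k240 14 (.d k95 k255
  k80 11 2))))) (.c k223 (.l (.d k255 k95 k170 11 14)) (.c k255 (.q k223 [(.s k5 k10 2 (.s k95 k31 7
  (.s k90 k80 2 (.d k165 k245 k240 11 14)))), (.s k16 k154 10 (.s k31 k95 7 (.s k26 k21 2 (.d k48
  k32 k37 3 6)))), (.s k5 k10 2 (.s k154 k16 10 (.s k165 k245 11 (.d k143 k191 k176 3 6))))] (.c
  k127 (.l (.s k191 k143 3 (.s k5 k10 2 (.s k95 k31 7 (.s k90 k80 2 (.d k165 k245 k240 11 14))))))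
  (.c k191 (.l (.s k127 k106 6 (.s k5 k10 2 (.s k95 k31 7 (.s k90 k80 2 (.d k165 k245 k240 11
  14)))))) .n))) .n))))) .n)))) (.c k175 (.q k111 [(.s k127 k106 6 (.s k79 k95 3 (.d k74 k69 k133 2
  10))), (.s k10 k5 2 (.s k74 k133 10 (.s k69 k79 2 (.d k138 k202 k207 7 10)))), (.s k5 k10 2 (.s
  k127 k106 6 (.s k95 k79 3 (.s k90 k80 2 (.d k165 k245 k240 11 14)))))] (.c k79 (.l (.s k5 k10 2
  (.s k74 k133 10 (.s k106 k127 6 (.s k90 k122 3 (.d k165 k240 k245 14 11)))))) .n)) .n)))) (.c k64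
  (.f k255 k170 14 (.q k101 [(.s k117 k69 3 (.s k48 k186 10 (.s k154 k207 14 (.d k16 k32 k223 3
  10)))), (.s k69 k117 3 (.s k213 k234 6 (.s k149 k21 7 (.s k197 k53 11 (.s k5 k133 7 (.d k245 k229
  k165 3 11)))))), (.s k213 k234 6 (.s k149 k21 7 (.s k106 k63 14 (.s k197 k53 11 (.s k207 k202 2
  (.s k48 k154 14 (.d k96 k111 k144 2 11)))))))] (.c k111 (.q k175 [(.s k15 k95 11 (.s k69 k117 3
  (.s k133 k74 10 (.d k5 k10 k197 2 7)))), (.s k117 k69 3 (.s k48 k186 10 (.s k16 k32 3 (.d k154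
  k223 k207 10 14)))), (.s k15 k95 11 (.s k5 k10 2 (.s k165 k245 11 (.s k37 k229 7 (.s k21 k53 3 (.d
  k213 k234 k149 6 7))))))] (.c k79 (.l (.s k69 k117 3 (.s k207 k138 10 (.s k197 k202 2 (.s k5 k133
  7 (.d k15 k10 k95 2 11)))))) (.c k117 (.l (.s k15 k95 11 (.s k5 k10 2 (.s k133 k74 10 (.s k165
  k245 11 (.s k213 k234 6 (.d k149 k181 k21 3 7))))))) .n))) (.c k175 (.q k111 [(.s k96 k106 2 (.s
  k48 k144 11 (.d k117 k69 k186 3 10))), (.s k106 k96 2 (.s k149 k63 14 (.d k213 k234 k21 6 7))),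
  (.s k117 k69 3 (.s k48 k186 10 (.s k16 k32 3 (.d k154 k223 k207 10 14))))] (.c k160 (.q k165 [(.s
  k96 k106 2 (.s k48 k144 11 (.d k117 k69 k186 3 10))), (.s k229 k37 7 (.s k245 k5 11 (.d k213 k197
  k234 3 6))), (.s k117 k69 3 (.s k48 k186 10 (.d k96 k106 k144 2 11)))] .n) (.c k165 (.q k160 [(.s
  k96 k106 2 (.s k224 k32 7 (.d k240 k208 k80 3 11))), (.s k117 k69 3 (.s k48 k186 10 (.d k96 k106
  k144 2 11)))] (.c k96 (.l (.s k117 k69 3 (.s k48 k186 10 (.s k16 k32 3 (.d k154 k223 k207 10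
  14))))) (.c k106 (.q k224 [(.d k240 k208 k80 3 11), (.s k96 k32 7 (.s k48 k144 11 (.d k117 k69
  k186 3 10)))] (.c k42 (.l (.s k234 k213 6 (.d k240 k208 k80 3 11))) (.c k234 (.q k42 [(.d k240
  k208 k80 3 11), (.s k63 k21 6 (.s k69 k117 3 (.d k207 k138 k159 10 11)))] .n) .n))) (.c k224 (.l
  (.s k106 k96 2 (.s k149 k63 14 (.d k213 k234 k21 6 7)))) .n)))) .n))) .n)))) (.c k106 (.q k165
  [(.s k5 k245 11 (.s k15 k10 2 (.s k90 k240 14 (.s k95 k80 2 (.d k255 k175 k170 11 14))))), (.s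
  k128 k64 7 (.s k170 k255 14 (.s k149 k191 6 (.s k133 k181 3 (.s k143 k138 2 (.s k176 k154 6 (.d
  k160 k175 k144 2 3))))))), (.s k5 k245 11 (.s k15 k10 2 (.s k128 k64 7 (.s k133 k74 10 (.s k69
  k197 7 (.d k138 k143 k207 2 10))))))] (.c k111 (.q k175 [(.d k170 k160 k255 2 14), (.s k5 k245 11
  (.s k15 k10 2 (.s k90 k240 14 (.d k95 k255 k80 11 2))))] (.c k96 (.q k101 [(.d k170 k160 k255 2
  14), (.s k5 k245 11 (.s k15 k10 2 (.s k69 k117 3 (.d k133 k197 k74 7 10))))] .n) (.c k101 (.q k96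
  [(.d k170 k160 k255 2 14)] (.c k32 (.l (.d k170 k160 k255 2 14)) (.c k160 (.l (.s k5 k245 11 (.s
  k15 k10 2 (.d k255 k95 k170 11 14)))) (.c k170 (.q k32 [(.d k48 k16 k144 3 11), (.s k64 k128 7 (.s
  k80 k112 3 (.d k160 k224 k240 7 11)))] (.c k42 (.q k234 [(.d k48 k16 k144 3 11), (.s k5 k245 11
  (.s k15 k10 2 (.d k255 k213 k95 6 11)))] .n) (.c k234 (.q k42 [(.d k48 k16 k144 3 11), (.s k64
  k128 7 (.s k80 k112 3 (.d k160 k224 k240 7 11)))] (.c k224 (.q k229 [(.d k48 k16 k144 3 11), (.s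
  k21 k63 6 (.s k213 k149 7 (.d k245 k197 k5 3 11)))] .n) (.c k229 (.l (.s k224 k160 7 (.d k48 k16
  k144 3 11))) .n))) .n))) (.c k255 (.l (.s k48 k144 11 (.s k32 k16 3 (.d k160 k170 k224 2 7))))
  .n))))) (.c k255 (.l (.s k5 k245 11 (.s k15 k10 2 (.s k160 k170 2 (.d k240 k90 k80 14 11)))))
  .n)))) (.c k175 (.q k111 [(.s k245 k5 11 (.s k255 k170 14 (.s k240 k250 2 (.s k80 k160 11 (.d k90
  k95 k15 2 14))))), (.s k5 k245 11 (.s k15 k10 2 (.s k128 k64 7 (.s k133 k74 10 (.s k69 k197 7 (.d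
  k138 k143 k207 2 10))))))] (.c k5 (.q k1 [(.s k3 k2 0 (.s k169 k253 13 (.s k86 k252 14 (.s k87 k84
  0 (.d k255 k171 k170 13 14))))), (.s k3 k2 0 (.s k128 k64 7 (.s k129 k66 8 (.s k65 k193 7 (.d k130
  k131 k195 0 8))))), (.s k128 k64 7 (.s k169 k253 13 (.s k170 k255 14 (.s k149 k191 6 (.s k129 k189
  5 (.s k65 k193 7 (.d k130 k131 k195 0 8)))))))] .n) (.c k10 (.l (.s k245 k5 11 (.s k255 k170 14
  (.s k240 k250 2 (.s k90 k15 14 (.d k80 k95 k160 2 11)))))) (.c k15 (.f k64 k128 7 (.l (.s k245 k5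
  11 (.s k255 k170 14 (.s k240 k250 2 (.s k80 k160 11 (.s k96 k112 3 (.s k144 k48 11 (.d k208 k224
  k16 3 7))))))))) (.c k90 (.l (.s k5 k245 11 (.s k15 k10 2 (.s k128 k64 7 (.s k170 k255 14 (.s k149
  k191 6 (.d k133 k181 k74 3 10))))))) (.c k245 (.l (.s k128 k64 7 (.s k170 k255 14 (.s k149 k191 6
  (.s k133 k181 3 (.s k15 k74 10 (.s k10 k5 2 (.d k90 k250 k240 11 14)))))))) .n)))))) .n))) (.c
  k111 (.q k175 [(.s k64 k128 7 (.s k106 k127 6 (.s k63 k149 14 (.s k42 k21 6 (.d k170 k234 k255 7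
  14))))), (.s k64 k128 7 (.s k170 k255 14 (.s k160 k165 2 (.s k80 k240 11 (.s k96 k112 3 (.s k48
  k144 11 (.d k32 k224 k16 7 3))))))), (.s k255 k170 14 (.s k15 k95 11 (.s k5 k10 2 (.s k133 k74 10
  (.s k165 k245 11 (.s k149 k181 3 (.d k213 k234 k21 6 7)))))))] (.c k170 (.q k101 [(.s k64 k128 7
  (.s k69 k117 3 (.s k74 k79 2 (.s k15 k133 10 (.s k10 k5 2 (.d k138 k202 k207 7 10)))))), (.s k69
  k117 3 (.s k207 k138 10 (.s k197 k202 2 (.s k149 k53 11 (.s k21 k213 7 (.d k63 k42 k106 6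
  14)))))), (.s k64 k128 7 (.s k117 k69 3 (.s k127 k106 6 (.s k112 k122 2 (.s k80 k96 3 (.d k90 k95
  k79 2 6))))))] (.c k69 (.q k3 [(.s k1 k2 0 (.s k129 k66 8 (.s k65 k193 7 (.s k130 k195 8 (.d k128
  k131 k64 0 7))))), (.s k1 k2 0 (.s k64 k128 7 (.s k106 k127 6 (.s k169 k253 13 (.s k43 k232 8 (.d
  k63 k149 k23 14 5)))))), (.s k64 k128 7 (.s k66 k129 8 (.s k106 k127 6 (.s k86 k126 5 (.s k84 k87
  0 (.d k252 k168 k169 13 14)))))), (.s k1 k2 0 (.s k129 k66 8 (.s k169 k253 13 (.s k149 k189 5 (.s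
  k21 k213 7 (.d k63 k42 k106 6 14))))))] (.c k86 (.l (.s k2 k1 0 (.s k64 k128 7 (.s k66 k129 8 (.s
  k65 k67 0 (.d k130 k194 k195 7 8)))))) .n)) (.c k74 (.l (.s k64 k128 7 (.s k69 k117 3 (.s k106
  k127 6 (.s k149 k63 14 (.s k197 k53 11 (.d k207 k202 k138 2 10))))))) (.c k117 (.q k3 [(.s k1 k2 0
  (.s k128 k64 7 (.s k129 k66 8 (.s k65 k193 7 (.d k130 k131 k195 0 8))))), (.s k1 k2 0 (.s k64 k128
  7 (.s k106 k127 6 (.s k169 k253 13 (.s k43 k232 8 (.d k63 k149 k23 14 5)))))), (.s k64 k128 7 (.s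
  k66 k129 8 (.s k106 k127 6 (.s k86 k126 5 (.s k84 k87 0 (.d k252 k168 k169 13 14)))))), (.s k1 k2
  0 (.s k129 k66 8 (.s k169 k253 13 (.s k149 k189 5 (.s k21 k213 7 (.d k63 k42 k106 6 14))))))] (.c
  k86 (.l (.s k2 k1 0 (.s k64 k128 7 (.s k66 k129 8 (.s k65 k67 0 (.d k130 k194 k195 7 8)))))) .n))
  (.c k149 (.l (.s k69 k117 3 (.s k128 k64 7 (.s k138 k207 10 (.s k133 k143 2 (.s k5 k197 7 (.d k15
  k10 k74 2 10))))))) .n))))) (.c k255 (.q k207 [(.s k128 k64 7 (.s k202 k197 2 (.s k138 k69 10 (.s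
  k74 k10 7 (.d k133 k143 k15 2 10))))), (.s k64 k128 7 (.s k106 k127 6 (.s k202 k197 2 (.s k154 k58
  11 (.s k16 k223 10 (.d k48 k32 k101 3 14)))))), (.s k69 k138 10 (.s k101 k117 3 (.s k197 k202 2
  (.s k149 k53 11 (.s k21 k213 7 (.d k63 k42 k106 6 14)))))), (.s k64 k128 7 (.s k69 k138 10 (.s
  k101 k117 3 (.s k48 k154 14 (.s k96 k144 11 (.s k112 k80 3 (.d k79 k74 k90 2 6)))))))] .n) .n)))
  (.c k127 (.l (.s k128 k64 7 (.s k170 k255 14 (.s k149 k191 6 (.s k63 k106 14 (.d k21 k42 k213 6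
  7)))))) (.c k128 (.q k68 [(.s k102 k119 4 (.s k204 k136 9 (.s k153 k51 14 (.s k221 k17 9 (.d k255
  k238 k170 4 14))))), (.s k102 k119 4 (.s k204 k136 9 (.s k196 k200 1 (.s k149 k55 12 (.s k21 k213
  7 (.d k63 k42 k106 6 14)))))), (.s k102 k119 4 (.s k255 k170 14 (.s k213 k234 6 (.s k149 k21 7 (.s
  k196 k55 12 (.s k247 k230 4 (.d k4 k132 k166 7 12))))))), (.s k204 k136 9 (.s k196 k200 1 (.s k255
  k170 14 (.s k213 k234 6 (.s k247 k230 4 (.d k4 k132 k166 7 12))))))] (.c k111 (.q k175 [(.s k102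
  k119 4 (.s k204 k136 9 (.s k153 k51 14 (.s k221 k17 9 (.d k255 k238 k170 4 14))))), (.s k102 k119
  4 (.s k204 k136 9 (.s k196 k200 1 (.s k149 k55 12 (.s k21 k213 7 (.d k63 k42 k106 6 14)))))), (.s
  k102 k119 4 (.s k255 k170 14 (.s k213 k234 6 (.s k149 k21 7 (.s k196 k55 12 (.s k247 k230 4 (.d k4
  k132 k166 7 12))))))), (.s k204 k136 9 (.s k196 k200 1 (.s k255 k170 14 (.s k213 k234 6 (.s k247
  k230 4 (.d k4 k132 k166 7 12))))))] (.c k132 (.l (.s k102 k119 4 (.s k170 k255 14 (.s k34 k238 9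
  (.s k51 k17 4 (.d k204 k136 k153 9 14)))))) .n)) (.c k132 (.l (.s k102 k119 4 (.s k170 k255 14 (.s
  k34 k238 9 (.s k51 k17 4 (.d k204 k136 k153 9 14)))))) (.c k175 (.q k111 [(.s k102 k119 4 (.s k204
  k136 9 (.s k51 k153 14 (.s k34 k17 4 (.d k170 k238 k255 9 14))))), (.s k102 k119 4 (.s k204 k136 9
  (.s k196 k200 1 (.s k149 k55 12 (.s k21 k213 7 (.d k63 k42 k106 6 14)))))), (.s k102 k119 4 (.s
  k255 k170 14 (.s k213 k234 6 (.s k149 k21 7 (.s k196 k55 12 (.s k247 k230 4 (.d k4 k132 k166 7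
  12))))))), (.s k204 k136 9 (.s k196 k200 1 (.s k255 k170 14 (.s k213 k234 6 (.s k247 k230 4 (.d k4
  k132 k166 7 12))))))] (.c k132 (.l (.s k102 k119 4 (.s k170 k255 14 (.s k34 k238 9 (.s k51 k17 4
  (.d k204 k136 k153 9 14)))))) .n)) .n)))) (.c k149 (.f k128 k64 7 (.q k87 [(.s k84 k86 0 (.s k168
  k252 13 (.s k148 k188 5 (.s k60 k104 13 (.d k20 k212 k40 7 5))))), (.s k255 k170 14 (.s k3 k171 13
  (.s k129 k66 8 (.s k130 k131 0 (.s k65 k195 8 (.d k1 k2 k193 0 7))))))] (.c k3 (.l (.s k84 k86 0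
  (.s k170 k255 14 (.s k168 k252 13 (.s k169 k171 0 (.s k148 k188 5 (.s k60 k104 13 (.d k20 k212 k40
  7 5)))))))) (.c k111 (.q k175 [(.s k84 k86 0 (.s k168 k252 13 (.s k148 k188 5 (.s k60 k104 13 (.d
  k20 k212 k40 7 5))))), (.s k170 k255 14 (.s k160 k165 2 (.s k80 k240 11 (.s k144 k176 3 (.s k16
  k208 7 (.d k48 k32 k96 3 11))))))] .n) (.c k168 (.l (.s k86 k84 0 (.s k255 k170 14 (.s k3 k171 13
  (.s k169 k252 14 (.d k1 k2 k253 0 13)))))) (.c k169 (.l (.s k84 k86 0 (.s k255 k170 14 (.s k3 k171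
  13 (.s k168 k252 13 (.s k148 k188 5 (.s k60 k104 13 (.d k20 k212 k40 7 5)))))))) (.c k175 (.q k111
  [(.s k84 k86 0 (.s k168 k252 13 (.s k148 k188 5 (.s k60 k104 13 (.d k20 k212 k40 7 5))))), (.s
  k255 k170 14 (.s k3 k171 13 (.s k129 k66 8 (.s k130 k131 0 (.s k65 k195 8 (.d k1 k2 k193 0
  7))))))] (.c k3 (.l (.s k84 k86 0 (.s k170 k255 14 (.s k168 k252 13 (.s k169 k171 0 (.s k148 k188
  5 (.s k60 k104 13 (.d k20 k212 k40 7 5)))))))) (.c k168 (.l (.s k86 k84 0 (.s k255 k170 14 (.s k3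
  k171 13 (.s k169 k252 14 (.d k1 k2 k253 0 13)))))) (.c k169 (.l (.s k84 k86 0 (.s k255 k170 14 (.s
  k3 k171 13 (.s k168 k252 13 (.s k148 k188 5 (.s k60 k104 13 (.d k20 k212 k40 7 5)))))))) .n))))
  .n))))))) (.c k170 (.q k101 [(.s k64 k128 7 (.s k69 k117 3 (.s k79 k74 2 (.s k90 k112 6 (.s k95
  k80 2 (.d k127 k111 k106 3 6)))))), (.s k69 k117 3 (.s k207 k138 10 (.s k197 k202 2 (.s k149 k53
  11 (.s k21 k213 7 (.d k63 k42 k106 6 14)))))), (.s k64 k128 7 (.s k106 k127 6 (.s k149 k63 14 (.s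
  k197 k53 11 (.s k207 k202 2 (.s k48 k154 14 (.d k96 k111 k144 2 11))))))), (.s k69 k117 3 (.s k128
  k64 7 (.s k138 k207 10 (.s k133 k143 2 (.s k5 k197 7 (.d k15 k10 k74 2 10))))))] (.c k111 (.q k175
  [(.s k64 k128 7 (.s k69 k117 3 (.s k74 k79 2 (.s k15 k133 10 (.s k10 k5 2 (.d k138 k202 k207 7
  10)))))), (.s k69 k117 3 (.s k207 k138 10 (.s k197 k202 2 (.s k149 k53 11 (.s k21 k213 7 (.d k63
  k42 k106 6 14)))))), (.s k64 k128 7 (.s k117 k69 3 (.s k127 k106 6 (.s k112 k122 2 (.s k80 k96 3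
  (.d k90 k95 k79 2 6))))))] (.c k69 (.q k3 [(.s k1 k2 0 (.s k129 k66 8 (.s k65 k193 7 (.s k130 k195
  8 (.d k128 k131 k64 0 7))))), (.s k1 k2 0 (.s k64 k128 7 (.s k106 k127 6 (.s k169 k253 13 (.s k43
  k232 8 (.d k63 k149 k23 14 5)))))), (.s k64 k128 7 (.s k66 k129 8 (.s k106 k127 6 (.s k86 k126 5
  (.s k84 k87 0 (.d k252 k168 k169 13 14)))))), (.s k1 k2 0 (.s k129 k66 8 (.s k169 k253 13 (.s k149
  k189 5 (.s k21 k213 7 (.d k63 k42 k106 6 14))))))] (.c k86 (.l (.s k2 k1 0 (.s k64 k128 7 (.s k66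
  k129 8 (.s k65 k67 0 (.d k130 k194 k195 7 8)))))) .n)) (.c k74 (.l (.s k64 k128 7 (.s k69 k117 3
  (.s k106 k127 6 (.s k149 k63 14 (.s k197 k53 11 (.d k207 k202 k138 2 10))))))) (.c k117 (.q k3
  [(.s k1 k2 0 (.s k128 k64 7 (.s k129 k66 8 (.s k65 k193 7 (.d k130 k131 k195 0 8))))), (.s k1 k2 0
  (.s k64 k128 7 (.s k106 k127 6 (.s k169 k253 13 (.s k43 k232 8 (.d k63 k149 k23 14 5)))))), (.s
  k64 k128 7 (.s k66 k129 8 (.s k106 k127 6 (.s k86 k126 5 (.s k84 k87 0 (.d k252 k168 k169 13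
  14)))))), (.s k1 k2 0 (.s k129 k66 8 (.s k169 k253 13 (.s k149 k189 5 (.s k21 k213 7 (.d k63 k42
  k106 6 14))))))] (.c k86 (.l (.s k2 k1 0 (.s k64 k128 7 (.s k66 k129 8 (.s k65 k67 0 (.d k130 k194
  k195 7 8)))))) .n)) (.c k149 (.l (.s k69 k117 3 (.s k128 k64 7 (.s k138 k207 10 (.s k133 k143 2
  (.s k5 k197 7 (.d k15 k10 k74 2 10))))))) .n))))) (.c k175 (.q k111 [(.s k106 k96 2 (.d k64 k127
  k128 6 7)), (.s k69 k117 3 (.s k96 k106 2 (.s k48 k144 11 (.d k207 k138 k154 10 14)))), (.s k64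
  k128 7 (.s k69 k117 3 (.s k79 k74 2 (.s k90 k112 6 (.d k95 k127 k80 3 2)))))] (.c k160 (.q k165
  [(.s k106 k96 2 (.d k64 k127 k128 6 7)), (.s k5 k245 11 (.s k15 k10 2 (.s k69 k117 3 (.d k133 k197
  k74 7 10))))] .n) (.c k165 (.q k160 [(.s k106 k96 2 (.d k64 k127 k128 6 7)), (.s k96 k106 2 (.s
  k224 k32 7 (.d k240 k208 k80 3 11)))] (.c k96 (.l (.s k64 k128 7 (.s k69 k117 3 (.s k79 k74 2 (.d
  k127 k95 k106 3 6))))) (.c k106 (.q k224 [(.d k240 k208 k80 3 11), (.s k96 k32 7 (.s k128 k64 7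
  (.d k144 k176 k48 3 11)))] (.c k42 (.q k234 [(.d k240 k208 k80 3 11), (.s k128 k64 7 (.s k144 k176
  3 (.d k96 k32 k48 7 11)))] (.c k32 (.q k37 [(.d k240 k208 k80 3 11), (.s k69 k117 3 (.s k128 k64 7
  (.s k144 k176 3 (.s k207 k138 10 (.d k48 k154 k96 14 11)))))] .n) (.c k37 (.l (.s k32 k96 7 (.d
  k240 k208 k80 3 11))) .n))) (.c k234 (.q k42 [(.d k240 k208 k80 3 11), (.s k63 k21 6 (.s k69 k117
  3 (.d k207 k138 k159 10 11)))] .n) .n))) (.c k224 (.l (.s k106 k96 2 (.d k64 k127 k128 6 7)))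
  .n)))) .n))) .n))) (.c k175 (.q k111 [(.s k64 k128 7 (.s k106 k127 6 (.s k63 k149 14 (.s k42 k21 6
  (.d k170 k234 k255 7 14))))), (.s k64 k128 7 (.s k106 k127 6 (.s k96 k101 2 (.s k48 k144 11 (.s
  k32 k16 3 (.s k80 k112 3 (.d k160 k224 k240 7 11)))))))] (.c k64 (.q k3 [(.s k1 k2 0 (.s k169 k253
  13 (.s k86 k252 14 (.s k87 k84 0 (.d k255 k171 k170 13 14))))), (.s k1 k2 0 (.s k129 k66 8 (.s
  k169 k253 13 (.s k149 k189 5 (.s k21 k213 7 (.d k63 k42 k106 6 14)))))), (.s k66 k129 8 (.s k255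
  k170 14 (.s k87 k171 13 (.s k86 k84 0 (.s k106 k126 5 (.s k149 k63 14 (.d k213 k234 k21 6
  7)))))))] (.c k169 (.l (.s k2 k1 0 (.s k66 k129 8 (.s k170 k255 14 (.s k86 k254 13 (.s k106 k126 5
  (.s k42 k234 7 (.d k63 k149 k21 14 6)))))))) .n)) (.c k106 (.f k128 k64 7 (.q k165 [(.s k245 k5 11
  (.s k255 k170 14 (.s k240 k250 2 (.s k80 k160 11 (.d k90 k95 k15 2 14))))), (.s k5 k245 11 (.s k15
  k10 2 (.s k133 k74 10 (.s k69 k197 7 (.d k138 k143 k207 2 10)))))] (.c k5 (.q k1 [(.s k3 k2 0 (.s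
  k129 k66 8 (.s k65 k193 7 (.d k130 k131 k195 0 8)))), (.s k3 k2 0 (.s k169 k253 13 (.s k86 k252 14
  (.s k87 k84 0 (.d k255 k171 k170 13 14))))), (.s k169 k253 13 (.s k170 k255 14 (.s k149 k191 6 (.s
  k129 k189 5 (.s k65 k193 7 (.d k130 k131 k195 0 8))))))] .n) (.c k10 (.l (.s k245 k5 11 (.s k255
  k170 14 (.s k240 k250 2 (.s k90 k15 14 (.d k80 k95 k160 2 11)))))) (.c k15 (.l (.s k245 k5 11 (.s
  k255 k170 14 (.s k240 k250 2 (.s k160 k80 11 (.s k144 k176 3 (.s k96 k48 11 (.d k224 k32 k208 7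
  3)))))))) (.c k90 (.l (.s k5 k245 11 (.s k15 k10 2 (.s k170 k255 14 (.s k149 k191 6 (.d k133 k181
  k74 3 10)))))) (.c k245 (.l (.s k170 k255 14 (.s k149 k191 6 (.s k133 k181 3 (.s k15 k74 10 (.s
  k10 k5 2 (.d k90 k250 k240 11 14))))))) .n))))))) (.c k127 (.l (.s k128 k64 7 (.s k170 k255 14 (.s
  k149 k191 6 (.s k63 k106 14 (.d k21 k42 k213 6 7)))))) (.c k128 (.q k3 [(.s k1 k2 0 (.s k169 k253
  13 (.s k86 k252 14 (.s k87 k84 0 (.d k255 k171 k170 13 14))))), (.s k1 k2 0 (.s k129 k66 8 (.s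
  k169 k253 13 (.s k149 k189 5 (.s k21 k213 7 (.d k63 k42 k106 6 14)))))), (.s k66 k129 8 (.s k255
  k170 14 (.s k87 k171 13 (.s k86 k84 0 (.s k106 k126 5 (.s k127 k64 6 (.d k63 k191 k149 7
  14)))))))] (.c k169 (.l (.s k2 k1 0 (.s k66 k129 8 (.s k170 k255 14 (.s k86 k254 13 (.s k106 k126
  5 (.s k42 k234 7 (.d k63 k149 k21 14 6)))))))) .n)) (.c k170 (.l (.s k64 k128 7 (.s k106 k127 6
  (.s k101 k96 2 (.s k69 k117 3 (.s k207 k138 10 (.d k63 k149 k159 14 11))))))) .n)))))) (.c k191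
  (.l (.s k64 k128 7 (.s k106 k127 6 (.s k63 k149 14 (.s k170 k255 14 (.d k42 k21 k234 6 7)))))) (.c
  k234 (.l (.s k128 k64 7 (.s k170 k255 14 (.s k149 k191 6 (.s k21 k213 7 (.d k63 k42 k106 6
  14)))))) (.c k255 (.f k64 k128 7 (.q k207 [(.s k69 k138 10 (.s k74 k79 2 (.s k197 k202 2 (.d k133
  k5 k15 7 10)))), (.s k106 k127 6 (.s k202 k197 2 (.s k154 k58 11 (.s k16 k223 10 (.d k48 k32 k101
  3 14))))), (.s k69 k138 10 (.s k101 k117 3 (.s k48 k154 14 (.s k96 k144 11 (.d k106 k111 k127 2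
  6)))))] (.c k111 (.q k175 [(.s k69 k138 10 (.s k197 k202 2 (.s k133 k5 7 (.d k74 k79 k15 2 10)))),
  (.s k106 k127 6 (.s k202 k197 2 (.s k154 k58 11 (.s k16 k223 10 (.d k48 k32 k101 3 14))))), (.s
  k69 k138 10 (.s k101 k117 3 (.s k48 k154 14 (.s k96 k144 11 (.s k112 k80 3 (.d k79 k74 k90 2
  6))))))] (.c k79 (.l (.s k69 k138 10 (.s k101 k117 3 (.s k197 k202 2 (.s k149 k53 11 (.d k106 k127
  k63 6 14)))))) .n)) (.c k175 (.q k111 [(.s k106 k127 6 (.d k63 k159 k149 11 14)), (.s k69 k138 10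
  (.s k74 k79 2 (.s k197 k202 2 (.d k133 k15 k5 10 7))))] (.c k15 (.q k95 [(.d k127 k79 k106 3 6),
  (.s k63 k159 11 (.s k21 k42 6 (.d k149 k213 k106 7 14)))] (.c k31 (.l (.s k63 k159 11 (.d k106
  k127 k149 6 14))) (.c k63 (.q k31 [(.d k127 k79 k106 3 6)] (.c k79 (.l (.s k69 k138 10 (.s k101
  k117 3 (.d k106 k96 k127 2 6)))) (.c k106 (.l (.s k69 k138 10 (.d k79 k74 k127 2 3))) (.c k127 (.q
  k191 [(.s k69 k138 10 (.s k223 k159 7 (.s k154 k16 10 (.d k101 k117 k48 3 14)))), (.s k80 k90 2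
  (.s k96 k112 3 (.s k48 k144 11 (.d k101 k106 k154 2 14)))), (.s k69 k138 10 (.s k79 k74 2 (.s k90
  k80 2 (.d k101 k117 k112 3 6)))), (.s k80 k90 2 (.s k223 k159 7 (.s k16 k154 10 (.s k144 k208 7
  (.d k48 k32 k96 3 11)))))] .n) (.c k191 (.l (.d k127 k79 k106 3 6)) .n))))) (.c k106 (.l (.s k69
  k138 10 (.d k79 k74 k127 2 3))) .n)))) (.c k95 (.q k15 [(.s k69 k138 10 (.d k74 k133 k79 10 2)),
  (.s k106 k127 6 (.d k63 k159 k149 11 14))] .n) .n))) .n)))) .n)))))))))))))))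

/-- roots with certificates -/
def certs : List (Cell TT 256 × Cell TT 256 × T TT 256) :=
  [(k43, k107, t43_107), (k43, k110, t43_110), (k43, k111, t43_111), (k43, k126, t43_126), (k43,
  k139, t43_139), (k43, k142, t43_142), (k43, k143, t43_143), (k43, k154, t43_154), (k43, k155,
  t43_155), (k43, k158, t43_158), (k43, k159, t43_159), (k43, k169, t43_169), (k43, k171, t43_171),
  (k43, k172, t43_172), (k43, k173, t43_173), (k43, k174, t43_174), (k43, k175, t43_175), (k43,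
  k188, t43_188), (k43, k189, t43_189), (k43, k190, t43_190), (k43, k191, t43_191), (k43, k203,
  t43_203), (k43, k206, t43_206), (k43, k207, t43_207), (k43, k218, t43_218), (k43, k219, t43_219),
  (k43, k222, t43_222), (k43, k232, t43_232), (k43, k233, t43_233), (k43, k234, t43_234), (k43,
  k235, t43_235), (k43, k236, t43_236), (k43, k238, t43_238), (k43, k239, t43_239), (k43, k252,
  t43_252), (k43, k254, t43_254), (k47, k59, t47_59), (k47, k63, t47_63), (k47, k106, t47_106),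
  (k47, k107, t47_107), (k47, k122, t47_122), (k47, k143, t47_143), (k47, k154, t47_154), (k47,
  k155, t47_155), (k47, k166, t47_166), (k47, k167, t47_167), (k47, k171, t47_171), (k47, k175,
  t47_175), (k47, k179, t47_179), (k47, k182, t47_182), (k47, k186, t47_186), (k47, k187, t47_187),
  (k47, k191, t47_191), (k47, k207, t47_207), (k47, k218, t47_218), (k47, k227, t47_227), (k47,
  k234, t47_234), (k47, k235, t47_235), (k47, k239, t47_239)]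

theorem c43_107 : rootOK k43 k107 t43_107 = true := by decide +kernel

theorem c43_110 : rootOK k43 k110 t43_110 = true := by decide +kernel

theorem c43_111 : rootOK k43 k111 t43_111 = true := by decide +kernel

theorem c43_126 : rootOK k43 k126 t43_126 = true := by decide +kernel

theorem c43_139 : rootOK k43 k139 t43_139 = true := by decide +kernel

theorem c43_142 : rootOK k43 k142 t43_142 = true := by decide +kernel

theorem c43_143 : rootOK k43 k143 t43_143 = true := by decide +kernel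

theorem c43_154 : rootOK k43 k154 t43_154 = true := by decide +kernel

theorem c43_155 : rootOK k43 k155 t43_155 = true := by decide +kernel

theorem c43_158 : rootOK k43 k158 t43_158 = true := by decide +kernel

theorem c43_159 : rootOK k43 k159 t43_159 = true := by decide +kernel

theorem c43_169 : rootOK k43 k169 t43_169 = true := by decide +kernel

theorem c43_171 : rootOK k43 k171 t43_171 = true := by decide +kernel

theorem c43_172 : rootOK k43 k172 t43_172 = true := by decide +kernel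

theorem c43_173 : rootOK k43 k173 t43_173 = true := by decide +kernel

theorem c43_174 : rootOK k43 k174 t43_174 = true := by decide +kernel

theorem c43_175 : rootOK k43 k175 t43_175 = true := by decide +kernel

theorem c43_188 : rootOK k43 k188 t43_188 = true := by decide +kernel

theorem c43_189 : rootOK k43 k189 t43_189 = true := by decide +kernel

theorem c43_190 : rootOK k43 k190 t43_190 = true := by decide +kernel

theorem c43_191 : rootOK k43 k191 t43_191 = true := by decide +kernel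

theorem c43_203 : rootOK k43 k203 t43_203 = true := by decide +kernel

theorem c43_206 : rootOK k43 k206 t43_206 = true := by decide +kernel

theorem c43_207 : rootOK k43 k207 t43_207 = true := by decide +kernel

theorem c43_218 : rootOK k43 k218 t43_218 = true := by decide +kernel

theorem c43_219 : rootOK k43 k219 t43_219 = true := by decide +kernel

theorem c43_222 : rootOK k43 k222 t43_222 = true := by decide +kernel

theorem c43_232 : rootOK k43 k232 t43_232 = true := by decide +kernel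

theorem c43_233 : rootOK k43 k233 t43_233 = true := by decide +kernel

theorem c43_234 : rootOK k43 k234 t43_234 = true := by decide +kernel

theorem c43_235 : rootOK k43 k235 t43_235 = true := by decide +kernel

theorem c43_236 : rootOK k43 k236 t43_236 = true := by decide +kernel

theorem c43_238 : rootOK k43 k238 t43_238 = true := by decide +kernel

theorem c43_239 : rootOK k43 k239 t43_239 = true := by decide +kernel

theorem c43_252 : rootOK k43 k252 t43_252 = true := by decide +kernel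

theorem c43_254 : rootOK k43 k254 t43_254 = true := by decide +kernel

theorem c47_59 : rootOK k47 k59 t47_59 = true := by decide +kernel

theorem c47_63 : rootOK k47 k63 t47_63 = true := by decide +kernel

theorem c47_106 : rootOK k47 k106 t47_106 = true := by decide +kernel

theorem c47_107 : rootOK k47 k107 t47_107 = true := by decide +kernel

theorem c47_122 : rootOK k47 k122 t47_122 = true := by decide +kernel

theorem c47_143 : rootOK k47 k143 t47_143 = true := by decide +kernel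

theorem c47_154 : rootOK k47 k154 t47_154 = true := by decide +kernel

theorem c47_155 : rootOK k47 k155 t47_155 = true := by decide +kernel

theorem c47_166 : rootOK k47 k166 t47_166 = true := by decide +kernel

theorem c47_167 : rootOK k47 k167 t47_167 = true := by decide +kernel

theorem c47_171 : rootOK k47 k171 t47_171 = true := by decide +kernel

theorem c47_175 : rootOK k47 k175 t47_175 = true := by decide +kernel

theorem c47_179 : rootOK k47 k179 t47_179 = true := by decide +kernel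

theorem c47_182 : rootOK k47 k182 t47_182 = true := by decide +kernel

theorem c47_186 : rootOK k47 k186 t47_186 = true := by decide +kernel

theorem c47_187 : rootOK k47 k187 t47_187 = true := by decide +kernel

theorem c47_191 : rootOK k47 k191 t47_191 = true := by decide +kernel

theorem c47_207 : rootOK k47 k207 t47_207 = true := by decide +kernel

theorem c47_218 : rootOK k47 k218 t47_218 = true := by decide +kernel

theorem c47_227 : rootOK k47 k227 t47_227 = true := by decide +kernel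

theorem c47_234 : rootOK k47 k234 t47_234 = true := by decide +kernel

theorem c47_235 : rootOK k47 k235 t47_235 = true := by decide +kernel

theorem c47_239 : rootOK k47 k239 t47_239 = true := by decide +kernel

theorem ok : certsOK certs = true :=
  certsOK_cons c43_107 (certsOK_cons c43_110 (certsOK_cons c43_111 (certsOK_cons c43_126 (
  certsOK_cons c43_139 (certsOK_cons c43_142 (certsOK_cons c43_143 (certsOK_cons c43_154 (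
  certsOK_cons c43_155 (certsOK_cons c43_158 (certsOK_cons c43_159 (certsOK_cons c43_169 (
  certsOK_cons c43_171 (certsOK_cons c43_172 (certsOK_cons c43_173 (certsOK_cons c43_174 (
  certsOK_cons c43_175 (certsOK_cons c43_188 (certsOK_cons c43_189 (certsOK_cons c43_190 (
  certsOK_cons c43_191 (certsOK_cons c43_203 (certsOK_cons c43_206 (certsOK_cons c43_207 (
  certsOK_cons c43_218 (certsOK_cons c43_219 (certsOK_cons c43_222 (certsOK_cons c43_232 (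
  certsOK_cons c43_233 (certsOK_cons c43_234 (certsOK_cons c43_235 (certsOK_cons c43_236 (
  certsOK_cons c43_238 (certsOK_cons c43_239 (certsOK_cons c43_252 (certsOK_cons c43_254 (
  certsOK_cons c47_59 (certsOK_cons c47_63 (certsOK_cons c47_106 (certsOK_cons c47_107 (
  certsOK_cons c47_122 (certsOK_cons c47_143 (certsOK_cons c47_154 (certsOK_cons c47_155 (
  certsOK_cons c47_166 (certsOK_cons c47_167 (certsOK_cons c47_171 (certsOK_cons c47_175 (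
  certsOK_cons c47_179 (certsOK_cons c47_182 (certsOK_cons c47_186 (certsOK_cons c47_187 (
  certsOK_cons c47_191 (certsOK_cons c47_207 (certsOK_cons c47_218 (certsOK_cons c47_227 (
  certsOK_cons c47_234 (certsOK_cons c47_235 (certsOK_cons c47_239 (certsOK_nil))))))))))))))))))
  )))))))))))))))))))))))))))))))))))))))))

theorem sound (k : Nat) (hk : (bits certs).testBit k = true) : PI k :=
  certs_sound certs ok k hk

end Pool.Agent.TTT.A17
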