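import Pool.Agent.TTT.Sym

set_option autoImplicit false
set_option maxRecDepth 100000

namespace Pool.Agent.TTT.A18

def t47_242 : T TT 256 :=
  (.f k255 k170 14 (.q k105 [(.s k65 k125 5 (.s k195 k130 8 (.s k150 k60 14 (.d k215 k235 k20 5
  8))))] (.c k20 (.q k1 [(.s k169 k253 13 (.s k3 k2 0 (.s k86 k252 14 (.d k87 k84 k171 0 13)))), (.s
  k65 k125 5 (.s k169 k253 13 (.s k41 k233 7 (.s k61 k21 5 (.d k193 k129 k149 7 13))))), (.s k3 k2 0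
  (.s k65 k125 5 (.s k129 k193 7 (.s k66 k192 8 (.s k67 k64 0 (.d k195 k131 k130 7 8))))))] .n) (.c
  k60 (.q k1 [(.s k3 k2 0 (.s k87 k171 13 (.s k86 k84 0 (.d k169 k253 k252 13 14)))), (.s k65 k125 5
  (.s k169 k253 13 (.s k41 k233 7 (.s k61 k21 5 (.d k193 k129 k149 7 13))))), (.s k3 k2 0 (.s k65
  k125 5 (.s k129 k193 7 (.s k66 k192 8 (.s k67 k64 0 (.d k195 k131 k130 7 8))))))] .n) (.c k65 (.q
  k213 [(.s k149 k21 7 (.s k192 k234 6 (.s k64 k128 7 (.d k106 k127 k63 6 14)))), (.s k149 k21 7 (.s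
  k193 k61 13 (.s k253 k233 5 (.s k252 k254 0 (.s k84 k168 13 (.s k86 k87 0 (.d k169 k1 k3 13
  14)))))))] (.c k21 (.l (.s k192 k234 6 (.s k64 k128 7 (.s k106 k127 6 (.s k104 k107 0 (.s k60 k148
  13 (.s k20 k40 5 (.d k150 k215 k195 8 14)))))))) (.c k149 (.f k192 k234 6 (.q k106 [(.d k64 k128
  k127 7 6), (.s k104 k107 0 (.s k60 k148 13 (.s k20 k40 5 (.d k150 k215 k195 8 14))))] (.c k128 (.q
  k191 [(.d k127 k64 k63 6 7), (.s k104 k107 0 (.s k60 k148 13 (.s k20 k40 5 (.d k150 k215 k195 8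
  14))))] .n) (.c k191 (.l (.s k128 k64 7 (.s k104 k107 0 (.s k60 k148 13 (.s k20 k40 5 (.d k150
  k215 k195 8 14)))))) .n)))) .n))) (.c k125 (.q k213 [(.s k149 k21 7 (.s k192 k234 6 (.s k64 k128 7
  (.d k106 k127 k63 6 14)))), (.s k149 k21 7 (.s k193 k61 13 (.s k253 k233 5 (.s k252 k254 0 (.s k84
  k168 13 (.s k86 k87 0 (.d k169 k1 k3 13 14)))))))] (.c k21 (.l (.s k192 k234 6 (.s k64 k128 7 (.s
  k106 k127 6 (.s k104 k107 0 (.s k60 k148 13 (.s k20 k40 5 (.d k150 k215 k195 8 14)))))))) (.c k149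
  (.f k192 k234 6 (.q k106 [(.d k64 k128 k127 7 6), (.s k104 k107 0 (.s k60 k148 13 (.s k20 k40 5
  (.d k150 k215 k195 8 14))))] (.c k128 (.q k191 [(.d k127 k64 k63 6 7), (.s k104 k107 0 (.s k60
  k148 13 (.s k20 k40 5 (.d k150 k215 k195 8 14))))] .n) (.c k191 (.l (.s k128 k64 7 (.s k104 k107 0
  (.s k60 k148 13 (.s k20 k40 5 (.d k150 k215 k195 8 14)))))) .n)))) .n))) (.c k130 (.l (.s k125 k65
  5 (.s k60 k190 8 (.s k150 k195 14 (.d k20 k40 k215 5 8))))) (.c k150 (.f k65 k125 5 (.q k1 [(.s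
  k169 k253 13 (.s k41 k233 7 (.s k61 k21 5 (.d k193 k129 k149 7 13)))), (.s k3 k2 0 (.s k87 k171 13
  (.s k86 k84 0 (.s k67 k124 6 (.d k195 k130 k131 8 7)))))] (.c k130 (.q k190 [(.s k169 k253 13 (.s
  k41 k233 7 (.s k61 k21 5 (.d k193 k129 k149 7 13)))), (.s k3 k2 0 (.s k87 k171 13 (.s k86 k84 0
  (.s k67 k124 6 (.s k127 k107 5 (.d k64 k66 k106 0 6))))))] (.c k169 (.l (.s k3 k2 0 (.s k129 k193
  7 (.s k66 k192 8 (.s k67 k64 0 (.s k86 k124 6 (.d k87 k84 k171 0 13))))))) .n)) (.c k169 (.l (.s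
  k3 k2 0 (.s k129 k193 7 (.s k66 k192 8 (.s k67 k64 0 (.d k195 k131 k130 7 8)))))) (.c k190 (.l (.s
  k130 k195 8 (.s k3 k2 0 (.s k87 k171 13 (.s k86 k84 0 (.d k169 k253 k252 13 14)))))) .n))))) (.c
  k190 (.l (.s k65 k125 5 (.s k195 k130 8 (.s k150 k60 14 (.d k215 k235 k20 5 8))))) (.c k195 (.q k1
  [(.s k3 k2 0 (.s k87 k171 13 (.s k86 k84 0 (.d k169 k253 k252 13 14)))), (.s k65 k125 5 (.s k169
  k253 13 (.s k41 k233 7 (.s k61 k21 5 (.d k193 k129 k149 7 13))))), (.s k3 k2 0 (.s k125 k65 5 (.s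
  k60 k190 8 (.s k40 k20 5 (.s k41 k22 6 (.s k21 k61 5 (.d k42 k43 k63 0 6)))))))] .n) (.c k215 (.q
  k1 [(.s k169 k253 13 (.s k3 k2 0 (.s k86 k252 14 (.d k87 k84 k171 0 13)))), (.s k65 k125 5 (.s
  k169 k253 13 (.s k41 k233 7 (.s k61 k21 5 (.d k193 k129 k149 7 13))))), (.s k3 k2 0 (.s k65 k125 5
  (.s k129 k193 7 (.s k66 k192 8 (.s k67 k64 0 (.d k195 k131 k130 7 8))))))] .n) (.c k235 (.l (.s
  k125 k65 5 (.s k60 k190 8 (.s k20 k40 5 (.d k150 k215 k195 8 14))))) .n))))))))))))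

def t47_243 : T TT 256 :=
  (.f k255 k170 14 (.q k101 [(.s k69 k117 3 (.s k207 k138 10 (.s k154 k48 14 (.d k223 k239 k16 3
  10)))), (.s k117 k69 3 (.s k48 k186 10 (.s k154 k207 14 (.d k16 k32 k223 3 10))))] (.c k16 (.q k1
  [(.s k3 k2 0 (.s k87 k171 13 (.s k169 k253 13 (.d k86 k84 k252 0 14)))), (.s k69 k117 3 (.s k169
  k253 13 (.s k33 k237 9 (.s k49 k17 3 (.d k205 k137 k153 9 13))))), (.s k3 k2 0 (.s k69 k117 3 (.s
  k137 k205 9 (.s k70 k204 10 (.s k71 k68 0 (.d k207 k139 k138 9 10))))))] .n) (.c k48 (.q k113 [(.s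
  k89 k77 5 (.s k81 k93 1 (.s k65 k97 3 (.s k117 k69 3 (.d k125 k121 k105 1 5))))), (.s k117 k69 3
  (.s k125 k121 1 (.s k60 k190 8 (.s k20 k40 5 (.s k150 k215 8 (.d k105 k65 k195 5 14)))))), (.s k89
  k77 5 (.s k81 k93 1 (.s k65 k97 3 (.s k195 k130 8 (.s k215 k235 5 (.s k150 k20 8 (.d k105 k125 k60
  5 14))))))), (.s k69 k117 3 (.s k77 k89 5 (.s k73 k65 1 (.s k207 k138 10 (.s k12 k142 8 (.s k134
  k195 10 (.d k4 k8 k199 1 8)))))))] (.c k65 (.q k1 [(.s k3 k2 0 (.s k87 k171 13 (.s k86 k84 0 (.d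
  k169 k253 k252 13 14)))), (.s k69 k117 3 (.s k169 k253 13 (.s k33 k237 9 (.s k49 k17 3 (.d k205
  k137 k153 9 13))))), (.s k3 k2 0 (.s k69 k117 3 (.s k137 k205 9 (.s k70 k204 10 (.s k71 k68 0 (.d
  k207 k139 k138 9 10))))))] .n) (.c k195 (.l (.s k69 k117 3 (.s k77 k89 5 (.s k65 k73 1 (.s k97 k81
  3 (.d k105 k109 k125 1 5)))))) .n))) (.c k69 (.q k1 [(.s k3 k2 0 (.s k87 k171 13 (.s k86 k84 0 (.d
  k169 k253 k252 13 14)))), (.s k169 k253 13 (.s k33 k237 9 (.s k17 k49 3 (.s k51 k34 4 (.s k119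
  k187 9 (.s k102 k68 4 (.d k153 k221 k204 9 14)))))))] (.c k169 (.f k3 k2 0 (.q k86 [(.d k87 k171
  k84 13 0), (.s k71 k116 4 (.s k207 k139 9 (.s k154 k48 14 (.d k223 k239 k16 3 10))))] (.c k168 (.l
  (.s k171 k87 13 (.s k71 k116 4 (.s k207 k139 9 (.s k154 k48 14 (.d k223 k239 k16 3 10)))))) (.c
  k171 (.q k168 [(.d k84 k87 k252 0 13), (.s k71 k116 4 (.s k207 k139 9 (.s k223 k239 3 (.d k154 k16
  k48 10 14))))] .n) .n)))) (.c k253 (.l (.s k3 k2 0 (.s k87 k171 13 (.s k86 k84 0 (.s k71 k116 4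
  (.s k207 k139 9 (.s k154 k48 14 (.d k223 k239 k16 3 10)))))))) .n))) (.c k117 (.q k253 [(.s k169
  k1 13 (.s k252 k254 0 (.s k84 k168 13 (.d k86 k87 k3 0 14)))), (.s k169 k1 13 (.s k237 k33 9 (.s
  k221 k205 3 (.s k204 k238 4 (.s k68 k136 9 (.s k102 k119 4 (.d k153 k17 k51 9 14)))))))] (.c k1
  (.l (.s k252 k254 0 (.s k84 k168 13 (.s k86 k87 0 (.s k116 k71 4 (.s k48 k184 9 (.s k16 k32 3 (.d
  k154 k223 k207 10 14)))))))) (.c k169 (.f k252 k254 0 (.q k86 [(.d k84 k168 k87 13 0), (.s k116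
  k71 4 (.s k48 k184 9 (.s k16 k32 3 (.d k154 k223 k207 10 14))))] (.c k168 (.q k171 [(.d k87 k84 k3
  0 13), (.s k116 k71 4 (.s k48 k184 9 (.s k16 k32 3 (.d k154 k223 k207 10 14))))] .n) (.c k171 (.l
  (.s k168 k84 13 (.s k116 k71 4 (.s k48 k184 9 (.s k16 k32 3 (.d k154 k223 k207 10 14)))))) .n))))
  .n))) (.c k138 (.l (.s k117 k69 3 (.s k48 k186 10 (.s k154 k207 14 (.d k16 k32 k223 3 10))))) (.c
  k154 (.f k69 k117 3 (.q k205 [(.s k1 k137 9 (.s k153 k49 13 (.s k221 k17 9 (.d k253 k237 k169 3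
  13)))), (.s k1 k137 9 (.s k3 k2 0 (.s k87 k171 13 (.s k86 k84 0 (.s k71 k116 4 (.d k207 k138 k139
  10 9)))))), (.s k153 k49 13 (.s k17 k221 9 (.s k51 k34 4 (.s k102 k204 14 (.d k119 k68 k187 4
  9)))))] (.c k138 (.q k186 [(.s k153 k49 13 (.s k221 k17 9 (.s k253 k237 3 (.d k1 k137 k169 9
  13)))), (.s k1 k137 9 (.s k3 k2 0 (.s k87 k171 13 (.s k86 k84 0 (.d k169 k253 k252 13 14))))), (.s
  k153 k49 13 (.s k17 k221 9 (.s k51 k34 4 (.s k102 k204 14 (.d k119 k68 k187 4 9)))))] (.c k253 (.l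
  (.s k137 k1 9 (.s k153 k49 13 (.s k185 k169 3 (.s k17 k221 9 (.s k51 k34 4 (.d k187 k184 k119 0
  9))))))) .n)) (.c k186 (.l (.s k138 k207 10 (.s k1 k137 9 (.s k49 k153 13 (.s k33 k17 3 (.d k169
  k237 k253 9 13)))))) .n)))) (.c k186 (.l (.s k69 k117 3 (.s k207 k138 10 (.s k154 k48 14 (.d k223
  k239 k16 3 10))))) (.c k207 (.f k69 k117 3 (.q k149 [(.s k197 k53 11 (.s k5 k133 7 (.s k213 k21 7
  (.d k245 k229 k165 3 11)))), (.s k21 k213 7 (.s k63 k42 6 (.s k127 k191 7 (.d k106 k64 k192 6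
  14)))), (.s k197 k53 11 (.s k5 k133 7 (.s k15 k10 2 (.s k95 k175 11 (.s k90 k80 2 (.d k165 k245
  k240 11 14))))))] (.c k219 (.q k231 [(.s k197 k53 11 (.s k5 k133 7 (.s k213 k21 7 (.d k245 k229
  k165 3 11)))), (.s k21 k213 7 (.s k63 k42 6 (.s k127 k191 7 (.d k106 k64 k192 6 14)))), (.s k166
  k36 8 (.s k4 k247 12 (.s k132 k183 4 (.s k134 k199 8 (.s k133 k135 0 (.d k197 k5 k53 7 11))))))]
  .n) (.c k231 (.q k219 [(.s k197 k53 11 (.s k5 k133 7 (.s k213 k21 7 (.d k245 k229 k165 3 11)))),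
  (.s k21 k213 7 (.s k63 k42 6 (.s k127 k191 7 (.d k106 k64 k192 6 14)))), (.s k197 k53 11 (.s k5
  k133 7 (.s k15 k10 2 (.s k95 k175 11 (.s k90 k80 2 (.d k165 k245 k240 11 14))))))] .n) .n)))) (.c
  k223 (.q k1 [(.s k3 k2 0 (.s k87 k171 13 (.s k86 k84 0 (.d k169 k253 k252 13 14)))), (.s k69 k117
  3 (.s k169 k253 13 (.s k33 k237 9 (.s k49 k17 3 (.d k205 k137 k153 9 13))))), (.s k3 k2 0 (.s k69
  k117 3 (.s k137 k205 9 (.s k70 k204 10 (.s k71 k68 0 (.d k207 k139 k138 9 10))))))] .n)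
  .n)))))))))))

def t47_250 : T TT 256 :=
  (.q k86 [(.s k84 k87 0 (.s k252 k168 13 (.s k169 k3 14 (.s k253 k1 13 (.d k255 k254 k170 0
  14)))))] (.c k1 (.q k4 [(.s k12 k8 1 (.s k166 k247 12 (.s k89 k243 14 (.s k93 k81 1 (.d k255 k174
  k170 12 14))))), (.s k84 k87 0 (.s k166 k247 12 (.s k6 k246 11 (.s k7 k5 0 (.d k244 k164 k165 11
  12))))), (.s k12 k8 1 (.s k84 k87 0 (.s k164 k244 11 (.s k88 k240 13 (.s k92 k80 1 (.d k252 k172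
  k168 11 13))))))] .n) (.c k3 (.q k4 [(.s k12 k8 1 (.s k166 k247 12 (.s k89 k243 14 (.s k93 k81 1
  (.d k255 k174 k170 12 14))))), (.s k84 k87 0 (.s k166 k247 12 (.s k6 k246 11 (.s k7 k5 0 (.d k244
  k164 k165 11 12))))), (.s k12 k8 1 (.s k84 k87 0 (.s k164 k244 11 (.s k88 k240 13 (.s k92 k80 1
  (.d k252 k172 k168 11 13))))))] (.c k255 (.l (.s k87 k84 0 (.s k247 k166 12 (.s k7 k167 11 (.s k5
  k6 0 (.d k165 k245 k244 11 12)))))) .n)) (.c k84 (.q k4 [(.s k12 k8 1 (.s k166 k247 12 (.s k89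
  k243 14 (.s k93 k81 1 (.d k255 k174 k170 12 14))))), (.s k12 k8 1 (.s k166 k247 12 (.s k6 k246 11
  (.s k3 k9 2 (.s k1 k2 0 (.d k169 k253 k252 13 14)))))), (.s k166 k247 12 (.s k6 k246 11 (.s k5 k7
  0 (.s k10 k15 2 (.s k170 k255 14 (.d k2 k254 k14 13 1)))))), (.s k12 k8 1 (.s k170 k255 14 (.s k2
  k254 13 (.s k3 k1 0 (.s k6 k9 2 (.s k5 k7 0 (.d k10 k14 k15 1 2)))))))] .n) (.c k87 (.q k12 [(.s
  k4 k8 1 (.s k166 k247 12 (.s k89 k243 14 (.s k93 k81 1 (.d k255 k174 k170 12 14))))), (.s k4 k8 1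
  (.s k166 k247 12 (.s k6 k246 11 (.s k3 k9 2 (.s k1 k2 0 (.d k169 k253 k252 13 14)))))), (.s k255
  k170 14 (.s k93 k174 12 (.s k89 k81 1 (.s k92 k83 2 (.s k252 k172 11 (.s k169 k3 14 (.d k253 k254
  k1 0 13)))))))] (.c k166 (.l (.s k4 k8 1 (.s k170 k255 14 (.s k2 k254 13 (.s k3 k1 0 (.s k6 k9 2
  (.s k5 k7 0 (.d k10 k14 k15 1 2)))))))) .n)) (.c k168 (.l (.s k87 k84 0 (.s k255 k170 14 (.s k3
  k171 13 (.s k169 k252 14 (.d k1 k2 k253 0 13)))))) (.c k169 (.q k4 [(.s k12 k8 1 (.s k166 k247 12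
  (.s k89 k243 14 (.s k93 k81 1 (.d k255 k174 k170 12 14))))), (.s k84 k87 0 (.s k166 k247 12 (.s k6
  k246 11 (.s k7 k5 0 (.d k244 k164 k165 11 12))))), (.s k12 k8 1 (.s k84 k87 0 (.s k164 k244 11 (.s
  k88 k240 13 (.s k92 k80 1 (.d k252 k172 k168 11 13))))))] .n) (.c k170 (.q k90 [(.s k80 k95 2 (.s
  k82 k94 1 (.s k83 k81 0 (.s k84 k87 0 (.d k92 k88 k89 1 2))))), (.s k84 k87 0 (.s k94 k82 1 (.s
  k252 k168 13 (.s k15 k173 12 (.s k5 k10 2 (.d k165 k245 k240 11 14)))))), (.s k80 k95 2 (.s k84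
  k87 0 (.s k240 k160 11 (.s k165 k15 14 (.s k244 k7 12 (.d k252 k248 k168 1 13)))))), (.s k80 k95 2
  (.s k82 k94 1 (.s k240 k160 11 (.s k3 k161 12 (.s k1 k2 0 (.d k169 k253 k252 13 14))))))] .n) (.c
  k171 (.l (.s k84 k87 0 (.s k252 k168 13 (.s k3 k169 14 (.s k170 k255 14 (.d k2 k1 k254 0 13))))))
  (.c k252 (.q k7 [(.s k84 k87 0 (.s k244 k165 12 (.s k4 k164 11 (.s k6 k5 0 (.d k166 k246 k247 11
  12))))), (.s k165 k244 12 (.s k5 k245 11 (.s k15 k10 2 (.s k3 k11 1 (.s k2 k1 0 (.d k170 k255 k254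
  14 13)))))), (.s k87 k84 0 (.s k167 k247 11 (.s k255 k170 14 (.s k3 k171 13 (.s k15 k11 1 (.s k91
  k243 13 (.d k95 k83 k175 1 11))))))), (.s k87 k84 0 (.s k165 k244 12 (.s k255 k170 14 (.s k3 k171
  13 (.s k15 k11 1 (.d k5 k10 k245 2 11))))))] .n) (.c k253 (.l (.s k84 k87 0 (.s k170 k255 14 (.s
  k2 k254 13 (.s k252 k168 13 (.d k3 k1 k169 0 14)))))) (.c k254 (.l (.s k87 k84 0 (.s k255 k170 14
  (.s k3 k171 13 (.s k1 k2 0 (.d k169 k253 k252 13 14)))))) (.c k255 (.q k240 [(.s k80 k160 11 (.s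
  k84 k87 0 (.s k88 k92 1 (.s k12 k164 13 (.s k8 k4 1 (.d k168 k248 k252 11 13)))))), (.s k80 k160
  11 (.s k90 k95 2 (.s k82 k94 1 (.s k3 k161 12 (.s k1 k2 0 (.d k169 k253 k252 13 14)))))), (.s k84
  k87 0 (.s k252 k168 13 (.s k244 k248 1 (.s k165 k7 12 (.s k5 k245 11 (.d k15 k10 k90 2 14)))))),
  (.s k80 k160 11 (.s k87 k84 0 (.s k95 k90 2 (.s k83 k91 1 (.s k81 k82 0 (.d k89 k93 k92 1 2))))))]
  .n) .n)))))))))))))

def t47_251 : T TT 256 :=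
  (.q k86 [(.s k84 k87 0 (.s k252 k168 13 (.s k169 k3 14 (.s k253 k1 13 (.d k255 k254 k170 0
  14)))))] (.c k1 (.q k4 [(.s k12 k8 1 (.s k166 k247 12 (.s k89 k243 14 (.s k255 k170 14 (.d k93 k81
  k174 1 12))))), (.s k84 k87 0 (.s k244 k164 11 (.s k7 k165 12 (.s k6 k5 0 (.d k166 k246 k247 11
  12))))), (.s k12 k8 1 (.s k84 k87 0 (.s k164 k244 11 (.s k88 k240 13 (.s k92 k80 1 (.d k252 k172
  k168 11 13))))))] .n) (.c k3 (.q k4 [(.s k12 k8 1 (.s k166 k247 12 (.s k89 k243 14 (.s k255 k170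
  14 (.d k93 k81 k174 1 12))))), (.s k84 k87 0 (.s k244 k164 11 (.s k7 k165 12 (.s k6 k5 0 (.d k166
  k246 k247 11 12))))), (.s k12 k8 1 (.s k84 k87 0 (.s k164 k244 11 (.s k88 k240 13 (.s k92 k80 1
  (.d k252 k172 k168 11 13))))))] (.c k255 (.l (.s k87 k84 0 (.s k247 k166 12 (.s k7 k167 11 (.s k5
  k6 0 (.d k165 k245 k244 11 12)))))) .n)) (.c k84 (.q k15 [(.s k5 k10 2 (.s k165 k245 11 (.s k90
  k240 14 (.s k95 k80 2 (.d k255 k175 k170 11 14))))), (.s k5 k10 2 (.s k165 k245 11 (.s k7 k244 12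
  (.s k3 k11 1 (.s k1 k2 0 (.d k169 k253 k252 13 14)))))), (.s k170 k255 14 (.s k2 k254 13 (.s k3 k1
  0 (.s k7 k11 1 (.s k165 k244 12 (.s k160 k175 2 (.d k240 k80 k90 11 14)))))))] (.c k165 (.l (.s
  k10 k5 2 (.s k170 k255 14 (.s k2 k254 13 (.s k3 k1 0 (.s k6 k14 1 (.s k9 k12 2 (.d k11 k8 k7 0
  1)))))))) .n)) (.c k87 (.q k15 [(.s k5 k10 2 (.s k165 k245 11 (.s k90 k240 14 (.s k95 k80 2 (.d
  k255 k175 k170 11 14))))), (.s k5 k10 2 (.s k165 k245 11 (.s k7 k244 12 (.s k3 k11 1 (.s k1 k2 0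
  (.d k169 k253 k252 13 14)))))), (.s k170 k255 14 (.s k2 k254 13 (.s k3 k1 0 (.s k7 k11 1 (.s k165
  k244 12 (.s k160 k175 2 (.d k240 k80 k90 11 14)))))))] (.c k165 (.l (.s k10 k5 2 (.s k170 k255 14
  (.s k2 k254 13 (.s k3 k1 0 (.s k6 k14 1 (.s k9 k12 2 (.d k11 k8 k7 0 1)))))))) .n)) (.c k168 (.l
  (.s k87 k84 0 (.s k255 k170 14 (.s k3 k171 13 (.s k169 k252 14 (.d k1 k2 k253 0 13)))))) (.c k169
  (.q k4 [(.s k12 k8 1 (.s k166 k247 12 (.s k89 k243 14 (.s k255 k170 14 (.d k93 k81 k174 1 12))))),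
  (.s k84 k87 0 (.s k244 k164 11 (.s k7 k165 12 (.s k6 k5 0 (.d k166 k246 k247 11 12))))), (.s k12
  k8 1 (.s k84 k87 0 (.s k164 k244 11 (.s k88 k240 13 (.s k92 k80 1 (.d k252 k172 k168 11 13))))))]
  .n) (.c k170 (.q k89 [(.s k81 k93 1 (.s k83 k92 2 (.s k80 k82 0 (.s k87 k84 0 (.d k95 k91 k90 1
  2))))), (.s k81 k93 1 (.s k84 k87 0 (.s k243 k162 12 (.s k166 k12 14 (.s k246 k6 11 (.d k252 k249
  k168 2 13)))))), (.s k84 k87 0 (.s k92 k83 2 (.s k252 k168 13 (.s k12 k172 11 (.s k4 k8 1 (.d k166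
  k247 k243 12 14)))))), (.s k81 k93 1 (.s k83 k92 2 (.s k243 k162 12 (.s k3 k163 11 (.s k1 k2 0 (.d
  k169 k253 k252 13 14))))))] .n) (.c k171 (.l (.s k84 k87 0 (.s k252 k168 13 (.s k3 k169 14 (.s
  k170 k255 14 (.d k2 k1 k254 0 13)))))) (.c k252 (.q k7 [(.s k84 k87 0 (.s k244 k165 12 (.s k4 k164
  11 (.s k6 k5 0 (.d k166 k246 k247 11 12))))), (.s k165 k244 12 (.s k245 k5 11 (.s k255 k170 14 (.s
  k240 k250 2 (.s k80 k160 11 (.d k90 k95 k15 2 14)))))), (.s k87 k84 0 (.s k167 k247 11 (.s k255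
  k170 14 (.s k3 k171 13 (.s k15 k11 1 (.s k91 k243 13 (.d k95 k83 k175 1 11)))))))] .n) (.c k253
  (.l (.s k84 k87 0 (.s k170 k255 14 (.s k2 k254 13 (.s k252 k168 13 (.d k3 k1 k169 0 14)))))) (.c
  k254 (.l (.s k87 k84 0 (.s k255 k170 14 (.s k3 k171 13 (.s k1 k2 0 (.d k169 k253 k252 13 14))))))
  (.c k255 (.q k243 [(.s k81 k162 12 (.s k84 k87 0 (.s k89 k93 1 (.s k12 k166 14 (.s k252 k168 13
  (.d k92 k83 k172 2 11)))))), (.s k84 k87 0 (.s k252 k168 13 (.s k246 k249 2 (.s k166 k6 11 (.s k4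
  k247 12 (.d k12 k8 k89 1 14)))))), (.s k81 k162 12 (.s k87 k84 0 (.s k89 k93 1 (.s k83 k92 2 (.s
  k80 k82 0 (.d k95 k91 k90 1 2)))))), (.s k81 k162 12 (.s k89 k93 1 (.s k83 k92 2 (.s k3 k163 11
  (.s k1 k2 0 (.d k169 k253 k252 13 14))))))] (.c k12 (.l (.s k81 k162 12 (.s k84 k87 0 (.s k252
  k168 13 (.s k3 k169 14 (.s k83 k163 11 (.d k89 k93 k92 1 2))))))) (.c k89 (.f k81 k162 12 (.l (.s
  k84 k87 0 (.s k252 k168 13 (.s k3 k169 14 (.s k1 k2 0 (.s k83 k163 11 (.s k82 k80 0 (.d k161 k241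
  k240 11 12))))))))) .n))) .n)))))))))))))

def t63_106 : T TT 256 :=
  (.q k89 [(.s k81 k93 1 (.s k243 k162 12 (.s k166 k12 14 (.s k247 k4 12 (.d k255 k251 k170 1
  14))))), (.s k93 k81 1 (.s k255 k170 14 (.s k12 k174 12 (.s k166 k243 14 (.d k4 k8 k247 1 12)))))]
  (.c k4 (.f k255 k170 14 (.f k81 k93 1 (.q k234 [(.s k213 k192 6 (.s k149 k21 7 (.s k209 k29 9 (.s
  k221 k217 1 (.d k17 k145 k153 7 9))))), (.s k162 k243 12 (.s k192 k213 6 (.s k64 k128 7 (.s k98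
  k115 4 (.s k51 k145 12 (.d k34 k17 k226 4 7)))))), (.s k192 k213 6 (.s k243 k162 12 (.s k226 k209
  4 (.s k230 k238 1 (.s k217 k204 6 (.d k251 k247 k200 1 4))))))] (.c k149 (.l (.s k192 k213 6 (.s
  k128 k64 7 (.s k162 k243 12 (.s k145 k179 4 (.s k17 k209 7 (.d k51 k34 k98 4 12))))))) (.c k192
  (.q k149 [(.s k209 k29 9 (.s k213 k21 7 (.s k221 k217 1 (.d k17 k145 k153 7 9)))), (.s k213 k21 7
  (.s k243 k162 12 (.s k247 k251 1 (.s k230 k196 4 (.s k204 k217 6 (.d k238 k226 k221 1 4)))))), (.s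
  k209 k29 9 (.s k17 k145 7 (.s k51 k34 4 (.s k119 k187 9 (.s k102 k68 4 (.d k153 k221 k204 9
  14))))))] (.c k221 (.l (.s k21 k213 7 (.s k243 k162 12 (.s k251 k247 1 (.s k29 k209 9 (.s k217
  k200 4 (.d k25 k153 k17 7 1))))))) .n)) (.c k213 (.l (.s k243 k162 12 (.s k251 k247 1 (.s k217
  k200 4 (.s k153 k25 7 (.s k221 k17 9 (.d k204 k230 k238 6 4))))))) .n)))))) (.c k12 (.q k169 [(.s
  k1 k253 13 (.s k9 k249 11 (.s k13 k5 1 (.s k81 k93 1 (.d k241 k161 k165 11 13))))), (.s k1 k253 13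
  (.s k3 k2 0 (.s k86 k252 14 (.s k87 k84 0 (.d k255 k171 k170 13 14))))), (.s k9 k249 11 (.s k170
  k255 14 (.s k8 k251 12 (.s k11 k10 0 (.s k168 k171 0 (.d k248 k88 k90 11 12))))))] (.c k29 (.q k46
  [(.s k1 k253 13 (.s k9 k249 11 (.s k13 k5 1 (.s k241 k165 13 (.d k81 k93 k161 1 11))))), (.s k1
  k253 13 (.s k3 k2 0 (.s k86 k252 14 (.s k87 k84 0 (.d k255 k171 k170 13 14))))), (.s k9 k249 11
  (.s k170 k255 14 (.s k8 k251 12 (.s k11 k10 0 (.s k168 k171 0 (.d k248 k88 k90 11 12))))))] (.c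
  k149 (.q k192 [(.s k1 k253 13 (.s k3 k2 0 (.s k86 k252 14 (.s k87 k84 0 (.d k255 k171 k170 13
  14))))), (.s k1 k253 13 (.s k9 k249 11 (.s k13 k5 1 (.s k241 k165 13 (.d k81 k93 k161 1 11))))),
  (.s k9 k249 11 (.s k170 k255 14 (.s k8 k251 12 (.s k11 k10 0 (.s k168 k171 0 (.d k248 k88 k90 11
  12))))))] .n) (.c k192 (.q k149 [(.s k1 k253 13 (.s k9 k249 11 (.s k13 k5 1 (.s k241 k165 13 (.d
  k81 k93 k161 1 11))))), (.s k1 k253 13 (.s k3 k2 0 (.s k86 k252 14 (.s k87 k84 0 (.d k255 k171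
  k170 13 14))))), (.s k9 k249 11 (.s k170 k255 14 (.s k8 k251 12 (.s k11 k10 0 (.s k168 k171 0 (.d
  k248 k88 k90 11 12))))))] (.c k72 (.q k132 [(.s k1 k253 13 (.s k9 k249 11 (.s k13 k5 1 (.s k241
  k165 13 (.d k81 k93 k161 1 11))))), (.s k21 k213 7 (.s k166 k183 4 (.s k4 k247 12 (.s k55 k38 4
  (.d k196 k68 k102 7 12)))))] .n) (.c k132 (.q k72 [(.s k1 k253 13 (.s k9 k249 11 (.s k13 k5 1 (.s
  k241 k165 13 (.d k81 k93 k161 1 11))))), (.s k1 k253 13 (.s k3 k2 0 (.s k86 k252 14 (.s k87 k84 0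
  (.d k255 k171 k170 13 14))))), (.s k9 k249 11 (.s k170 k255 14 (.s k8 k251 12 (.s k11 k10 0 (.s
  k168 k171 0 (.d k248 k88 k90 11 12))))))] .n) .n))) .n))) (.c k46 (.q k29 [(.s k149 k209 9 (.s k21
  k213 7 (.s k17 k25 1 (.s k93 k81 1 (.d k221 k157 k153 7 9))))), (.s k1 k253 13 (.s k3 k2 0 (.s k86
  k252 14 (.s k87 k84 0 (.d k255 k171 k170 13 14)))))] (.c k149 (.q k192 [(.s k1 k253 13 (.s k9 k249
  11 (.s k13 k5 1 (.s k81 k93 1 (.d k241 k161 k165 11 13))))), (.s k1 k253 13 (.s k3 k2 0 (.s k86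
  k252 14 (.s k87 k84 0 (.d k255 k171 k170 13 14))))), (.s k9 k249 11 (.s k170 k255 14 (.s k8 k251
  12 (.s k11 k10 0 (.s k168 k171 0 (.d k248 k88 k90 11 12))))))] (.c k166 (.q k226 [(.s k243 k209 4
  (.d k81 k93 k162 1 12)), (.s k1 k253 13 (.s k3 k2 0 (.s k86 k252 14 (.s k87 k84 0 (.d k255 k171
  k170 13 14)))))] (.c k132 (.q k183 [(.s k243 k209 4 (.d k81 k93 k162 1 12)), (.s k1 k253 13 (.s k3
  k2 0 (.s k86 k252 14 (.s k87 k84 0 (.d k255 k171 k170 13 14)))))] .n) (.c k183 (.q k132 [(.s k243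
  k209 4 (.d k81 k93 k162 1 12)), (.s k1 k253 13 (.s k3 k2 0 (.s k86 k252 14 (.s k87 k84 0 (.d k255
  k171 k170 13 14)))))] (.c k123 (.l (.s k243 k209 4 (.d k81 k93 k162 1 12))) (.c k243 (.q k123 [(.s
  k64 k128 7 (.s k81 k93 1 (.s k98 k115 4 (.s k34 k162 7 (.d k51 k145 k17 12 4))))), (.s k1 k253 13
  (.s k3 k2 0 (.s k86 k252 14 (.s k87 k84 0 (.d k255 k171 k170 13 14))))), (.s k1 k253 13 (.s k9
  k249 11 (.s k13 k5 1 (.s k241 k165 13 (.d k81 k93 k161 1 11)))))] .n) .n))) .n))) (.c k226 (.q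
  k166 [(.s k81 k93 1 (.s k162 k243 12 (.d k170 k174 k255 1 14))), (.s k1 k253 13 (.s k3 k2 0 (.s
  k86 k252 14 (.s k87 k84 0 (.d k255 k171 k170 13 14))))), (.s k1 k253 13 (.s k3 k2 0 (.s k163 k172
  2 (.s k83 k243 11 (.d k86 k92 k252 2 14)))))] .n) (.c k255 (.l (.s k1 k253 13 (.s k9 k249 11 (.s
  k13 k5 1 (.s k241 k165 13 (.d k81 k93 k161 1 11)))))) .n)))) (.c k166 (.q k226 [(.s k81 k93 1 (.s
  k243 k162 12 (.d k209 k192 k149 4 9))), (.s k1 k253 13 (.s k3 k2 0 (.s k86 k252 14 (.s k87 k84 0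
  (.d k255 k171 k170 13 14))))), (.s k149 k209 9 (.s k21 k213 7 (.s k17 k25 1 (.s k93 k81 1 (.d k221
  k157 k153 7 9)))))] (.c k149 (.q k192 [(.s k243 k209 4 (.d k81 k93 k162 1 12)), (.s k1 k253 13 (.s
  k3 k2 0 (.s k86 k252 14 (.s k87 k84 0 (.d k255 k171 k170 13 14)))))] (.c k132 (.q k183 [(.s k243
  k209 4 (.d k81 k93 k162 1 12)), (.s k1 k253 13 (.s k3 k2 0 (.s k86 k252 14 (.s k87 k84 0 (.d k255
  k171 k170 13 14)))))] .n) (.c k183 (.q k132 [(.s k243 k209 4 (.d k81 k93 k162 1 12)), (.s k1 k253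
  13 (.s k3 k2 0 (.s k86 k252 14 (.s k87 k84 0 (.d k255 k171 k170 13 14)))))] (.c k123 (.l (.s k243
  k209 4 (.d k81 k93 k162 1 12))) (.c k243 (.q k123 [(.s k64 k128 7 (.s k81 k93 1 (.s k98 k115 4 (.s
  k34 k162 7 (.d k51 k145 k17 12 4))))), (.s k1 k253 13 (.s k3 k2 0 (.s k86 k252 14 (.s k87 k84 0
  (.d k255 k171 k170 13 14))))), (.s k1 k253 13 (.s k9 k249 11 (.s k13 k5 1 (.s k241 k165 13 (.d k81
  k93 k161 1 11)))))] .n) .n))) .n))) (.c k192 (.l (.s k149 k209 9 (.s k21 k213 7 (.s k17 k25 1 (.s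
  k93 k81 1 (.d k221 k157 k153 7 9)))))) .n))) (.c k192 (.l (.s k149 k209 9 (.s k21 k213 7 (.s k17
  k25 1 (.s k93 k81 1 (.d k221 k157 k153 7 9)))))) (.c k226 (.q k166 [(.s k81 k93 1 (.s k162 k243 12
  (.d k170 k174 k255 1 14))), (.s k1 k253 13 (.s k3 k2 0 (.s k86 k252 14 (.s k87 k84 0 (.d k255 k171
  k170 13 14))))), (.s k1 k253 13 (.s k3 k2 0 (.s k163 k172 2 (.s k83 k243 11 (.d k86 k92 k252 2
  14)))))] (.c k149 (.q k192 [(.s k81 k93 1 (.s k162 k243 12 (.d k170 k174 k255 1 14))), (.s k1 k253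
  13 (.s k3 k2 0 (.s k86 k252 14 (.s k87 k84 0 (.d k255 k171 k170 13 14))))), (.s k1 k253 13 (.s k3
  k2 0 (.s k163 k172 2 (.s k83 k243 11 (.d k86 k92 k252 2 14)))))] .n) (.c k192 (.f k149 k209 9 (.q
  k243 [(.d k81 k93 k162 1 12), (.s k247 k4 12 (.d k255 k251 k170 1 14))] (.c k72 (.l (.s k132 k183
  4 (.d k81 k93 k162 1 12))) (.c k132 (.q k72 [(.d k81 k93 k162 1 12), (.s k247 k4 12 (.d k255 k251
  k170 1 14))] .n) .n)))) .n))) .n))))) (.c k149 (.q k192 [(.s k1 k253 13 (.s k9 k249 11 (.s k13 k5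
  1 (.s k81 k93 1 (.d k241 k161 k165 11 13))))), (.s k1 k253 13 (.s k3 k2 0 (.s k86 k252 14 (.s k87
  k84 0 (.d k255 k171 k170 13 14))))), (.s k9 k249 11 (.s k170 k255 14 (.s k8 k251 12 (.s k11 k10 0
  (.s k168 k171 0 (.d k248 k88 k90 11 12))))))] (.c k29 (.q k46 [(.s k1 k253 13 (.s k3 k2 0 (.s k86
  k252 14 (.s k87 k84 0 (.d k255 k171 k170 13 14))))), (.s k1 k253 13 (.s k9 k249 11 (.s k13 k5 1
  (.s k241 k165 13 (.d k81 k93 k161 1 11))))), (.s k9 k249 11 (.s k170 k255 14 (.s k8 k251 12 (.s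
  k11 k10 0 (.s k168 k171 0 (.d k248 k88 k90 11 12))))))] .n) (.c k46 (.q k29 [(.s k1 k253 13 (.s k9
  k249 11 (.s k13 k5 1 (.s k81 k93 1 (.d k241 k161 k165 11 13))))), (.s k1 k253 13 (.s k3 k2 0 (.s
  k86 k252 14 (.s k87 k84 0 (.d k255 k171 k170 13 14))))), (.s k9 k249 11 (.s k170 k255 14 (.s k8
  k251 12 (.s k11 k10 0 (.s k168 k171 0 (.d k248 k88 k90 11 12))))))] (.c k166 (.q k226 [(.s k243
  k209 4 (.d k81 k93 k162 1 12)), (.s k1 k253 13 (.s k3 k2 0 (.s k86 k252 14 (.s k87 k84 0 (.d k255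
  k171 k170 13 14)))))] (.c k132 (.q k183 [(.s k243 k209 4 (.d k81 k93 k162 1 12)), (.s k1 k253 13
  (.s k3 k2 0 (.s k86 k252 14 (.s k87 k84 0 (.d k255 k171 k170 13 14)))))] .n) (.c k183 (.q k132
  [(.s k243 k209 4 (.d k81 k93 k162 1 12)), (.s k1 k253 13 (.s k3 k2 0 (.s k86 k252 14 (.s k87 k84 0
  (.d k255 k171 k170 13 14)))))] (.c k123 (.l (.s k243 k209 4 (.d k81 k93 k162 1 12))) (.c k243 (.q
  k123 [(.s k64 k128 7 (.s k81 k93 1 (.s k98 k115 4 (.s k34 k162 7 (.d k51 k145 k17 12 4))))), (.s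
  k1 k253 13 (.s k3 k2 0 (.s k86 k252 14 (.s k87 k84 0 (.d k255 k171 k170 13 14))))), (.s k1 k253 13
  (.s k9 k249 11 (.s k13 k5 1 (.s k241 k165 13 (.d k81 k93 k161 1 11)))))] .n) .n))) .n))) (.c k226
  (.q k166 [(.s k81 k93 1 (.s k162 k243 12 (.d k170 k174 k255 1 14))), (.s k1 k253 13 (.s k3 k2 0
  (.s k86 k252 14 (.s k87 k84 0 (.d k255 k171 k170 13 14))))), (.s k1 k253 13 (.s k3 k2 0 (.s k163
  k172 2 (.s k83 k243 11 (.d k86 k92 k252 2 14)))))] .n) (.c k255 (.l (.s k1 k253 13 (.s k9 k249 11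
  (.s k13 k5 1 (.s k241 k165 13 (.d k81 k93 k161 1 11)))))) .n)))) (.c k255 (.l (.s k1 k253 13 (.s
  k9 k249 11 (.s k13 k5 1 (.s k241 k165 13 (.d k81 k93 k161 1 11)))))) .n)))) (.c k192 (.q k149 [(.s
  k1 k253 13 (.s k9 k249 11 (.s k13 k5 1 (.s k81 k93 1 (.d k241 k161 k165 11 13))))), (.s k1 k253 13
  (.s k3 k2 0 (.s k86 k252 14 (.s k87 k84 0 (.d k255 k171 k170 13 14))))), (.s k21 k213 7 (.s k29
  k209 9 (.s k17 k25 1 (.s k93 k81 1 (.d k221 k157 k153 7 9)))))] (.c k29 (.q k46 [(.s k1 k253 13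
  (.s k9 k249 11 (.s k13 k5 1 (.s k241 k165 13 (.d k81 k93 k161 1 11))))), (.s k1 k253 13 (.s k3 k2
  0 (.s k86 k252 14 (.s k87 k84 0 (.d k255 k171 k170 13 14))))), (.s k9 k249 11 (.s k170 k255 14 (.s
  k8 k251 12 (.s k11 k10 0 (.s k168 k171 0 (.d k248 k88 k90 11 12))))))] (.c k72 (.q k132 [(.s k1
  k253 13 (.s k9 k249 11 (.s k13 k5 1 (.s k241 k165 13 (.d k81 k93 k161 1 11))))), (.s k21 k213 7
  (.s k166 k183 4 (.s k4 k247 12 (.s k55 k38 4 (.d k196 k68 k102 7 12)))))] .n) (.c k132 (.q k72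
  [(.s k1 k253 13 (.s k9 k249 11 (.s k13 k5 1 (.s k241 k165 13 (.d k81 k93 k161 1 11))))), (.s k1
  k253 13 (.s k3 k2 0 (.s k86 k252 14 (.s k87 k84 0 (.d k255 k171 k170 13 14))))), (.s k9 k249 11
  (.s k170 k255 14 (.s k8 k251 12 (.s k11 k10 0 (.s k168 k171 0 (.d k248 k88 k90 11 12))))))] .n)
  .n))) (.c k46 (.l (.s k29 k209 9 (.s k21 k213 7 (.s k17 k25 1 (.s k93 k81 1 (.d k221 k157 k153 7
  9)))))) (.c k72 (.q k132 [(.s k1 k253 13 (.s k9 k249 11 (.s k13 k5 1 (.s k81 k93 1 (.d k241 k161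
  k165 11 13))))), (.s k1 k253 13 (.s k3 k2 0 (.s k86 k252 14 (.s k87 k84 0 (.d k255 k171 k170 13
  14))))), (.s k21 k213 7 (.s k29 k209 9 (.s k17 k25 1 (.s k93 k81 1 (.d k221 k157 k153 7 9)))))]
  (.c k29 (.q k46 [(.s k1 k253 13 (.s k9 k249 11 (.s k13 k5 1 (.s k241 k165 13 (.d k81 k93 k161 1
  11))))), (.s k21 k213 7 (.s k166 k183 4 (.s k4 k247 12 (.s k55 k38 4 (.d k196 k68 k102 7 12)))))]
  .n) (.c k46 (.l (.s k29 k209 9 (.s k21 k213 7 (.s k17 k25 1 (.s k93 k81 1 (.d k221 k157 k153 7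
  9)))))) (.c k255 (.l (.s k1 k253 13 (.s k9 k249 11 (.s k13 k5 1 (.s k241 k165 13 (.d k81 k93 k161
  1 11)))))) .n)))) (.c k132 (.q k72 [(.s k1 k253 13 (.s k9 k249 11 (.s k13 k5 1 (.s k81 k93 1 (.d
  k241 k161 k165 11 13))))), (.s k1 k253 13 (.s k3 k2 0 (.s k86 k252 14 (.s k87 k84 0 (.d k255 k171
  k170 13 14))))), (.s k21 k213 7 (.s k29 k209 9 (.s k17 k25 1 (.s k93 k81 1 (.d k221 k157 k153 7
  9)))))] (.c k29 (.q k46 [(.s k1 k253 13 (.s k9 k249 11 (.s k13 k5 1 (.s k241 k165 13 (.d k81 k93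
  k161 1 11))))), (.s k1 k253 13 (.s k3 k2 0 (.s k86 k252 14 (.s k87 k84 0 (.d k255 k171 k170 13
  14))))), (.s k9 k249 11 (.s k170 k255 14 (.s k8 k251 12 (.s k11 k10 0 (.s k168 k171 0 (.d k248 k88
  k90 11 12))))))] .n) (.c k46 (.l (.s k29 k209 9 (.s k21 k213 7 (.s k17 k25 1 (.s k93 k81 1 (.d
  k221 k157 k153 7 9)))))) (.c k255 (.l (.s k1 k253 13 (.s k9 k249 11 (.s k13 k5 1 (.s k241 k165 13
  (.d k81 k93 k161 1 11)))))) .n)))) (.c k255 (.l (.s k1 k253 13 (.s k9 k249 11 (.s k13 k5 1 (.s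
  k241 k165 13 (.d k81 k93 k161 1 11)))))) .n)))))) (.c k255 (.l (.s k1 k253 13 (.s k9 k249 11 (.s
  k13 k5 1 (.s k241 k165 13 (.d k81 k93 k161 1 11)))))) .n)))))) (.c k81 (.q k101 [(.s k117 k69 3
  (.s k255 k170 14 (.s k48 k186 10 (.s k16 k32 3 (.d k154 k223 k207 10 14))))), (.s k69 k117 3 (.s
  k77 k113 5 (.s k207 k138 10 (.s k12 k142 8 (.s k4 k8 1 (.d k166 k247 k243 12 14)))))), (.s k77
  k113 5 (.s k170 k255 14 (.s k8 k251 12 (.s k12 k4 1 (.s k32 k239 10 (.s k48 k16 3 (.d k207 k142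
  k154 8 14)))))))] (.c k149 (.q k192 [(.s k69 k117 3 (.s k170 k255 14 (.s k32 k239 10 (.s k207 k138
  10 (.d k48 k16 k154 3 14))))), (.s k64 k128 7 (.s k170 k255 14 (.s k8 k251 12 (.s k12 k4 1 (.s k72
  k132 9 (.s k68 k76 1 (.d k136 k200 k204 7 9))))))), (.s k69 k117 3 (.s k77 k113 5 (.s k207 k138 10
  (.s k12 k142 8 (.s k4 k8 1 (.d k166 k247 k243 12 14))))))] .n) (.c k192 (.q k149 [(.s k21 k213 7
  (.s k53 k197 11 (.s k5 k37 3 (.s k117 k69 3 (.d k245 k181 k165 7 11))))), (.s k77 k113 5 (.s k170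
  k255 14 (.s k8 k251 12 (.s k12 k4 1 (.s k32 k239 10 (.s k48 k16 3 (.d k207 k142 k154 8 14))))))),
  (.s k69 k117 3 (.s k197 k53 11 (.s k5 k133 7 (.s k213 k21 7 (.d k245 k229 k165 3 11)))))] (.c k213
  (.l (.s k69 k117 3 (.s k207 k138 10 (.s k48 k154 14 (.s k32 k16 3 (.d k170 k239 k255 10 14))))))
  .n)) (.c k207 (.l (.s k113 k77 5 (.s k117 k69 3 (.s k255 k170 14 (.s k48 k186 10 (.s k243 k178 8
  (.s k247 k251 1 (.d k166 k12 k4 14 12)))))))) .n)))) (.c k93 (.q k240 [(.s k80 k160 11 (.s k255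
  k170 14 (.s k245 k250 2 (.s k165 k5 11 (.d k90 k95 k15 2 14))))), (.s k80 k160 11 (.s k90 k95 2
  (.s k88 k91 0 (.s k12 k164 13 (.s k4 k8 1 (.d k166 k247 k243 12 14)))))), (.s k170 k255 14 (.s k8
  k251 12 (.s k12 k4 1 (.s k88 k164 13 (.s k90 k91 0 (.s k10 k250 11 (.d k15 k5 k165 2 14)))))))]
  (.c k90 (.l (.s k80 k160 11 (.s k170 k255 14 (.s k8 k251 12 (.s k12 k4 1 (.s k88 k164 13 (.s k84
  k92 1 (.d k168 k248 k252 11 13)))))))) (.c k149 (.q k192 [(.s k64 k128 7 (.s k80 k160 11 (.s k96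
  k112 3 (.s k144 k48 11 (.d k208 k224 k16 3 7))))), (.s k80 k160 11 (.s k90 k95 2 (.s k165 k15 14
  (.s k245 k5 11 (.d k255 k250 k170 2 14))))), (.s k224 k208 3 (.s k255 k170 14 (.s k234 k213 6 (.s
  k229 k239 2 (.s k218 k207 6 (.d k250 k245 k202 2 3))))))] (.c k170 (.l (.s k80 k160 11 (.s k208
  k224 3 (.s k144 k16 7 (.s k96 k48 11 (.d k64 k112 k128 3 7)))))) .n)) (.c k192 (.q k149 [(.s k80
  k160 11 (.s k255 k170 14 (.s k245 k250 2 (.s k165 k5 11 (.d k90 k95 k15 2 14))))), (.s k80 k160 11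
  (.s k90 k95 2 (.s k88 k91 0 (.s k12 k164 13 (.s k4 k8 1 (.d k166 k247 k243 12 14)))))), (.s k170
  k255 14 (.s k8 k251 12 (.s k12 k4 1 (.s k88 k164 13 (.s k90 k91 0 (.s k10 k250 11 (.d k15 k5 k165
  2 14)))))))] (.c k90 (.l (.s k80 k160 11 (.s k170 k255 14 (.s k8 k251 12 (.s k12 k4 1 (.s k88 k164
  13 (.s k84 k92 1 (.d k168 k248 k252 11 13)))))))) .n)) .n)))) (.c k149 (.q k192 [(.s k81 k93 1 (.s
  k243 k162 12 (.s k166 k12 14 (.s k247 k4 12 (.d k255 k251 k170 1 14))))), (.s k81 k93 1 (.s k128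
  k64 7 (.s k162 k243 12 (.s k145 k179 4 (.s k17 k209 7 (.d k51 k34 k98 4 12)))))), (.s k64 k128 7
  (.s k170 k255 14 (.s k8 k251 12 (.s k12 k4 1 (.s k72 k132 9 (.s k68 k76 1 (.d k136 k200 k204 7
  9)))))))] (.c k243 (.f k93 k81 1 (.l (.s k128 k64 7 (.s k255 k170 14 (.s k12 k174 12 (.s k4 k8 1
  (.s k132 k72 9 (.s k68 k196 7 (.d k136 k140 k204 1 9))))))))) .n)) (.c k162 (.l (.s k93 k81 1 (.s
  k255 k170 14 (.s k12 k174 12 (.s k166 k243 14 (.d k4 k8 k247 1 12)))))) (.c k166 (.q k64 [(.s k81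
  k93 1 (.s k98 k115 4 (.s k192 k128 7 (.s k51 k145 12 (.s k34 k17 4 (.d k162 k226 k243 7 12)))))),
  (.s k170 k255 14 (.s k8 k251 12 (.s k12 k4 1 (.s k192 k128 7 (.s k72 k132 9 (.s k68 k76 1 (.d k136
  k200 k204 7 9)))))))] (.c k46 (.q k226 [(.s k81 k93 1 (.s k192 k128 7 (.d k243 k209 k162 4 12))),
  (.s k170 k255 14 (.s k8 k251 12 (.s k12 k4 1 (.s k192 k128 7 (.s k72 k132 9 (.s k68 k76 1 (.d k136
  k200 k204 7 9)))))))] (.c k12 (.q k29 [(.s k192 k128 7 (.d k209 k149 k243 9 4)), (.s k81 k93 1 (.s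
  k98 k115 4 (.d k162 k34 k243 7 12)))] (.c k149 (.l (.s k192 k128 7 (.s k81 k93 1 (.d k243 k209
  k162 4 12)))) (.c k192 (.l (.s k149 k209 9 (.s k81 k93 1 (.s k98 k115 4 (.d k162 k34 k243 7
  12))))) (.c k243 (.l (.s k128 k192 7 (.s k149 k209 9 (.d k170 k191 k255 6 14)))) .n)))) (.c k29
  (.q k12 [(.s k8 k4 1 (.d k170 k251 k255 12 14)), (.s k81 k93 1 (.s k98 k115 4 (.d k162 k34 k243 7
  12)))] (.c k149 (.l (.s k192 k128 7 (.s k8 k4 1 (.d k170 k251 k255 12 14)))) (.c k192 (.q k149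
  [(.s k8 k4 1 (.d k170 k251 k255 12 14)), (.s k81 k93 1 (.s k98 k115 4 (.d k162 k34 k243 7 12)))]
  .n) .n))) (.c k128 (.l (.s k81 k93 1 (.s k98 k115 4 (.d k162 k34 k243 7 12)))) (.c k149 (.l (.s
  k192 k128 7 (.s k81 k93 1 (.d k243 k209 k162 4 12)))) (.c k192 (.q k149 [(.s k81 k93 1 (.s k98
  k115 4 (.d k162 k34 k243 7 12))), (.s k21 k213 7 (.s k29 k209 9 (.s k17 k25 1 (.s k93 k81 1 (.d
  k221 k157 k153 7 9)))))] (.c k12 (.l (.s k29 k209 9 (.s k81 k93 1 (.s k98 k115 4 (.d k162 k34 k243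
  7 12))))) (.c k29 (.q k12 [(.s k8 k4 1 (.d k170 k251 k255 12 14)), (.s k81 k93 1 (.s k98 k115 4
  (.d k162 k34 k243 7 12)))] .n) (.c k81 (.f k21 k213 7 (.l (.s k29 k209 9 (.s k17 k25 1 (.s k51 k34
  4 (.s k255 k170 14 (.s k119 k187 9 (.s k102 k68 4 (.d k153 k221 k204 9 14))))))))) (.c k93 (.q k12
  [(.s k8 k4 1 (.d k170 k251 k255 12 14)), (.s k209 k29 9 (.s k213 k21 7 (.s k221 k217 1 (.s k17
  k153 9 (.s k34 k51 4 (.s k81 k145 7 (.d k98 k115 k162 4 7)))))))] .n) .n))))) (.c k243 (.l (.s k81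
  k93 1 (.s k98 k115 4 (.s k34 k162 7 (.s k51 k17 4 (.d k192 k128 k145 7 12)))))) .n))))))) (.c k128
  (.l (.s k81 k93 1 (.s k115 k98 4 (.s k102 k76 6 (.s k68 k119 4 (.s k204 k136 9 (.s k51 k153 14 (.d
  k243 k179 k162 7 12)))))))) (.c k149 (.l (.s k192 k128 7 (.s k81 k93 1 (.s k98 k115 4 (.s k51 k145
  12 (.s k34 k17 4 (.d k162 k226 k243 7 12))))))) (.c k192 (.q k149 [(.s k81 k93 1 (.s k213 k21 7
  (.s k209 k29 9 (.s k221 k217 1 (.d k17 k145 k153 7 9))))), (.s k81 k93 1 (.s k115 k98 4 (.s k102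
  k76 6 (.s k68 k119 4 (.s k204 k136 9 (.s k51 k153 14 (.d k243 k179 k162 7 12)))))))] (.c k46 (.q
  k226 [(.s k81 k93 1 (.s k98 k115 4 (.d k162 k34 k243 7 12))), (.s k21 k213 7 (.s k29 k209 9 (.s
  k17 k25 1 (.s k93 k81 1 (.d k221 k157 k153 7 9)))))] (.c k12 (.l (.s k29 k209 9 (.s k81 k93 1 (.s
  k98 k115 4 (.d k162 k34 k243 7 12))))) (.c k29 (.q k12 [(.s k8 k4 1 (.d k170 k251 k255 12 14)),
  (.s k81 k93 1 (.s k98 k115 4 (.d k162 k34 k243 7 12)))] .n) (.c k81 (.f k21 k213 7 (.l (.s k29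
  k209 9 (.s k17 k25 1 (.s k51 k34 4 (.s k255 k170 14 (.s k119 k187 9 (.s k102 k68 4 (.d k153 k221
  k204 9 14))))))))) (.c k93 (.q k12 [(.s k8 k4 1 (.d k170 k251 k255 12 14)), (.s k209 k29 9 (.s
  k213 k21 7 (.s k221 k217 1 (.s k17 k153 9 (.s k34 k51 4 (.s k81 k145 7 (.d k98 k115 k162 4
  7)))))))] .n) .n))))) (.c k81 (.f k21 k213 7 (.l (.s k29 k209 9 (.s k17 k25 1 (.s k51 k34 4 (.s
  k255 k170 14 (.s k119 k187 9 (.s k102 k68 4 (.d k153 k221 k204 9 14))))))))) (.c k93 (.f k21 k213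
  7 (.l (.s k29 k209 9 (.s k17 k25 1 (.s k51 k34 4 (.s k255 k170 14 (.s k119 k187 9 (.s k102 k68 4
  (.d k153 k221 k204 9 14))))))))) (.c k145 (.l (.s k21 k213 7 (.s k29 k209 9 (.s k17 k25 1 (.s k93
  k81 1 (.d k221 k157 k153 7 9)))))) (.c k153 (.l (.s k81 k93 1 (.s k98 k115 4 (.s k162 k243 12 (.s
  k209 k29 9 (.s k17 k145 7 (.d k34 k51 k226 4 7))))))) (.c k226 (.q k46 [(.s k81 k93 1 (.s k209 k29
  9 (.s k213 k21 7 (.s k221 k217 1 (.d k17 k145 k153 7 9))))), (.s k81 k93 1 (.s k115 k98 4 (.s k102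
  k76 6 (.s k68 k119 4 (.s k204 k136 9 (.s k51 k153 14 (.d k243 k179 k162 7 12))))))), (.s k93 k81 1
  (.s k209 k29 9 (.s k213 k21 7 (.s k221 k217 1 (.s k255 k170 14 (.s k174 k12 12 (.d k238 k204 k110
  4 7)))))))] (.c k81 (.f k209 k29 9 (.l (.s k213 k21 7 (.s k221 k217 1 (.s k255 k170 14 (.s k204
  k238 4 (.s k68 k136 9 (.s k76 k72 1 (.d k102 k119 k115 4 6))))))))) (.c k93 (.f k209 k29 9 (.l (.s
  k213 k21 7 (.s k221 k217 1 (.s k255 k170 14 (.s k204 k238 4 (.s k68 k136 9 (.s k76 k72 1 (.d k102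
  k119 k115 4 6))))))))) (.c k209 (.q k243 [(.d k81 k93 k162 1 12), (.s k213 k21 7 (.s k255 k170 14
  (.s k247 k251 1 (.s k196 k230 4 (.s k102 k55 12 (.s k68 k119 4 (.d k76 k72 k115 1 6)))))))] (.c
  k162 (.l (.s k93 k81 1 (.s k255 k170 14 (.s k174 k12 12 (.s k110 k238 7 (.s k76 k127 4 (.s k102
  k115 6 (.d k68 k72 k119 1 4)))))))) .n)) (.c k243 (.l (.s k209 k29 9 (.s k81 k93 1 (.s k17 k145 7
  (.s k213 k21 7 (.d k221 k217 k153 1 9)))))) .n))))) .n))))))) (.c k226 (.q k46 [(.s k170 k255 14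
  (.s k8 k251 12 (.s k12 k4 1 (.s k192 k128 7 (.s k72 k132 9 (.s k68 k76 1 (.d k136 k200 k204 7
  9))))))), (.s k81 k93 1 (.s k115 k98 4 (.s k102 k76 6 (.s k119 k68 4 (.s k255 k170 14 (.s k51 k187
  9 (.d k243 k162 k179 12 7))))))), (.s k93 k81 1 (.s k255 k170 14 (.s k174 k12 12 (.s k110 k238 7
  (.s k76 k127 4 (.s k68 k72 1 (.d k102 k119 k115 4 6)))))))] (.c k68 (.l (.s k81 k93 1 (.s k115 k98
  4 (.s k102 k76 6 (.s k170 k255 14 (.s k34 k238 9 (.s k51 k17 4 (.d k243 k162 k179 12 7)))))))) (.c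
  k76 (.q k21 [(.s k149 k213 7 (.s k170 k255 14 (.d k128 k191 k192 6 7))), (.s k93 k81 1 (.s k149
  k213 7 (.s k29 k209 9 (.s k17 k25 1 (.d k221 k157 k153 7 9)))))] (.c k149 (.l (.s k192 k128 7 (.s
  k81 k93 1 (.s k98 k115 4 (.s k51 k145 12 (.s k17 k34 4 (.s k25 k29 1 (.d k153 k221 k217 9
  7)))))))) (.c k192 (.l (.s k149 k213 7 (.s k81 k93 1 (.s k162 k243 12 (.s k209 k29 9 (.s k145 k17
  7 (.s k128 k179 4 (.d k170 k255 k191 14 6)))))))) (.c k213 (.l (.s k81 k93 1 (.s k98 k115 4 (.s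
  k192 k128 7 (.s k51 k145 12 (.s k17 k34 4 (.s k25 k29 1 (.d k153 k221 k217 9 7)))))))) .n)))) (.c
  k127 (.f k81 k93 1 (.l (.s k98 k115 4 (.s k192 k128 7 (.s k145 k51 12 (.s k209 k17 7 (.s k149 k29
  9 (.s k255 k170 14 (.d k213 k234 k21 6 7))))))))) (.c k149 (.f k192 k128 7 (.l (.s k81 k93 1 (.s
  k115 k98 4 (.s k102 k76 6 (.s k68 k119 4 (.s k204 k136 9 (.s k51 k153 14 (.d k243 k179 k162 7
  12))))))))) (.c k170 (.f k81 k93 1 (.l (.s k115 k98 4 (.s k102 k76 6 (.s k68 k119 4 (.s k204 k136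
  9 (.s k153 k51 14 (.s k217 k25 7 (.d k243 k162 k230 12 6))))))))) (.c k192 (.q k149 [(.s k81 k93 1
  (.s k209 k29 9 (.s k213 k21 7 (.s k221 k217 1 (.d k17 k145 k153 7 9))))), (.s k81 k93 1 (.s k115
  k98 4 (.s k102 k76 6 (.s k68 k119 4 (.s k204 k136 9 (.s k51 k153 14 (.d k243 k179 k162 7
  12))))))), (.s k93 k81 1 (.s k209 k29 9 (.s k213 k21 7 (.s k221 k217 1 (.s k255 k170 14 (.s k174
  k12 12 (.d k238 k204 k110 4 7)))))))] (.c k81 (.f k209 k29 9 (.l (.s k213 k21 7 (.s k221 k217 1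
  (.s k255 k170 14 (.s k204 k238 4 (.s k68 k136 9 (.s k76 k72 1 (.d k102 k119 k115 4 6))))))))) (.c
  k93 (.f k209 k29 9 (.l (.s k213 k21 7 (.s k221 k217 1 (.s k255 k170 14 (.s k204 k238 4 (.s k68
  k136 9 (.s k76 k72 1 (.d k102 k119 k115 4 6))))))))) (.c k209 (.q k243 [(.d k81 k93 k162 1 12),
  (.s k213 k21 7 (.s k255 k170 14 (.s k247 k251 1 (.s k196 k230 4 (.s k102 k55 12 (.s k68 k119 4 (.d
  k76 k72 k115 1 6)))))))] (.c k162 (.l (.s k93 k81 1 (.s k255 k170 14 (.s k174 k12 12 (.s k110 k238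
  7 (.s k76 k127 4 (.s k102 k115 6 (.d k68 k72 k119 1 4)))))))) .n)) (.c k243 (.l (.s k209 k29 9 (.s
  k81 k93 1 (.s k17 k145 7 (.s k213 k21 7 (.d k221 k217 k153 1 9)))))) .n))))) (.c k255 (.l (.s k81
  k93 1 (.s k115 k98 4 (.s k102 k76 6 (.s k68 k119 4 (.s k204 k136 9 (.s k51 k153 14 (.d k243 k179
  k162 7 12)))))))) .n)))))))) (.c k243 (.f k81 k93 1 (.l (.s k115 k98 4 (.s k102 k76 6 (.s k68 k119
  4 (.s k170 k255 14 (.s k34 k238 9 (.s k51 k17 4 (.d k204 k136 k153 9 14))))))))) .n))))))) (.c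
  k170 (.f k81 k93 1 (.q k65 [(.s k113 k97 3 (.s k101 k77 5 (.s k117 k69 3 (.d k125 k121 k105 1
  5)))), (.s k97 k113 3 (.s k162 k243 12 (.s k32 k227 8 (.s k48 k16 3 (.d k195 k130 k146 8 12))))),
  (.s k105 k125 5 (.s k121 k73 3 (.s k195 k130 8 (.s k243 k162 12 (.d k60 k150 k182 14 10)))))] (.c
  k42 (.q k234 [(.s k113 k97 3 (.s k101 k77 5 (.s k117 k69 3 (.d k125 k121 k105 1 5)))), (.s k97
  k113 3 (.s k162 k243 12 (.s k32 k227 8 (.s k48 k16 3 (.d k195 k130 k146 8 12))))), (.s k105 k125 5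
  (.s k121 k73 3 (.s k195 k130 8 (.s k243 k162 12 (.d k60 k150 k182 14 10)))))] (.c k149 (.q k192
  [(.s k113 k97 3 (.s k101 k77 5 (.s k117 k69 3 (.d k125 k121 k105 1 5)))), (.s k243 k162 12 (.s
  k166 k12 14 (.s k247 k4 12 (.d k255 k251 k213 1 6))))] (.c k128 (.q k191 [(.s k113 k97 3 (.s k101
  k77 5 (.s k117 k69 3 (.d k125 k121 k105 1 5)))), (.s k243 k162 12 (.s k166 k12 14 (.s k247 k4 12
  (.d k255 k251 k213 1 6))))] .n) (.c k191 (.l (.s k128 k64 7 (.s k105 k125 5 (.s k73 k121 3 (.s k77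
  k69 1 (.d k113 k97 k101 3 5)))))) .n))) (.c k192 (.q k149 [(.s k113 k97 3 (.s k101 k77 5 (.s k117
  k69 3 (.d k125 k121 k105 1 5)))), (.s k209 k29 9 (.s k17 k145 7 (.s k213 k21 7 (.d k221 k217 k153
  1 9))))] .n) .n))) (.c k149 (.q k192 [(.s k113 k97 3 (.s k101 k77 5 (.s k117 k69 3 (.d k125 k121
  k105 1 5)))), (.s k97 k113 3 (.s k162 k243 12 (.s k32 k227 8 (.s k48 k16 3 (.d k195 k130 k146 8
  12))))), (.s k105 k125 5 (.s k121 k73 3 (.s k195 k130 8 (.s k243 k162 12 (.d k60 k150 k182 14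
  10)))))] (.c k42 (.q k234 [(.s k113 k97 3 (.s k101 k77 5 (.s k117 k69 3 (.d k125 k121 k105 1
  5)))), (.s k243 k162 12 (.s k166 k12 14 (.s k247 k4 12 (.d k255 k251 k213 1 6))))] (.c k128 (.q
  k191 [(.s k113 k97 3 (.s k101 k77 5 (.s k117 k69 3 (.d k125 k121 k105 1 5)))), (.s k243 k162 12
  (.s k166 k12 14 (.s k247 k4 12 (.d k255 k251 k213 1 6))))] .n) (.c k191 (.l (.s k128 k64 7 (.s
  k105 k125 5 (.s k73 k121 3 (.s k77 k69 1 (.d k113 k97 k101 3 5)))))) .n))) (.c k128 (.q k191 [(.s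
  k113 k97 3 (.s k101 k77 5 (.s k117 k69 3 (.d k125 k121 k105 1 5)))), (.s k97 k113 3 (.s k162 k243
  12 (.s k32 k227 8 (.s k48 k16 3 (.d k195 k130 k146 8 12))))), (.s k105 k125 5 (.s k121 k73 3 (.s
  k195 k130 8 (.s k243 k162 12 (.d k60 k150 k182 14 10)))))] (.c k42 (.q k234 [(.s k113 k97 3 (.s
  k101 k77 5 (.s k117 k69 3 (.d k125 k121 k105 1 5)))), (.s k243 k162 12 (.s k166 k12 14 (.s k247 k4
  12 (.d k255 k251 k213 1 6))))] .n) (.c k234 (.q k42 [(.s k113 k97 3 (.s k101 k77 5 (.s k117 k69 3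
  (.d k125 k121 k105 1 5)))), (.s k97 k113 3 (.s k162 k243 12 (.s k32 k227 8 (.s k48 k16 3 (.d k195
  k130 k146 8 12))))), (.s k105 k125 5 (.s k121 k73 3 (.s k195 k130 8 (.s k243 k162 12 (.d k60 k150
  k182 14 10)))))] .n) .n))) (.c k191 (.l (.s k128 k64 7 (.s k105 k125 5 (.s k73 k121 3 (.s k77 k69
  1 (.d k113 k97 k101 3 5)))))) (.c k234 (.q k42 [(.s k113 k97 3 (.s k101 k77 5 (.s k117 k69 3 (.d
  k125 k121 k105 1 5)))), (.s k97 k113 3 (.s k162 k243 12 (.s k32 k227 8 (.s k48 k16 3 (.d k195 k130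
  k146 8 12))))), (.s k105 k125 5 (.s k121 k73 3 (.s k195 k130 8 (.s k243 k162 12 (.d k60 k150 k182
  14 10)))))] (.c k128 (.q k191 [(.s k113 k97 3 (.s k101 k77 5 (.s k117 k69 3 (.d k125 k121 k105 1
  5)))), (.s k97 k113 3 (.s k162 k243 12 (.s k32 k227 8 (.s k48 k16 3 (.d k195 k130 k146 8 12))))),
  (.s k105 k125 5 (.s k121 k73 3 (.s k195 k130 8 (.s k243 k162 12 (.d k60 k150 k182 14 10)))))] .n)
  (.c k191 (.l (.s k128 k64 7 (.s k105 k125 5 (.s k73 k121 3 (.s k77 k69 1 (.d k113 k97 k101 3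
  5)))))) .n))) .n))))) (.c k192 (.q k149 [(.s k113 k97 3 (.s k101 k77 5 (.s k117 k69 3 (.d k125
  k121 k105 1 5)))), (.s k209 k29 9 (.s k17 k145 7 (.s k213 k21 7 (.d k221 k217 k153 1 9))))] (.c
  k42 (.q k234 [(.s k113 k97 3 (.s k101 k77 5 (.s k117 k69 3 (.d k125 k121 k105 1 5)))), (.s k209
  k29 9 (.s k17 k145 7 (.s k213 k21 7 (.d k221 k217 k153 1 9))))] .n) (.c k234 (.q k42 [(.s k113 k97
  3 (.s k101 k77 5 (.s k117 k69 3 (.d k125 k121 k105 1 5)))), (.s k209 k29 9 (.s k17 k145 7 (.s k213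
  k21 7 (.d k221 k217 k153 1 9))))] (.c k213 (.q k255 [(.s k243 k162 12 (.s k247 k251 1 (.d k166 k4
  k12 12 14))), (.s k105 k125 5 (.s k73 k121 3 (.s k77 k69 1 (.d k113 k97 k101 3 5))))] .n) (.c k255
  (.l (.s k213 k21 7 (.s k209 k29 9 (.s k17 k145 7 (.d k221 k217 k153 1 9))))) .n))) .n))) (.c k234
  (.q k42 [(.s k113 k97 3 (.s k101 k77 5 (.s k117 k69 3 (.d k125 k121 k105 1 5)))), (.s k97 k113 3
  (.s k162 k243 12 (.s k32 k227 8 (.s k48 k16 3 (.d k195 k130 k146 8 12))))), (.s k105 k125 5 (.s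
  k121 k73 3 (.s k195 k130 8 (.s k243 k162 12 (.d k60 k150 k182 14 10)))))] (.c k149 (.q k192 [(.s
  k113 k97 3 (.s k101 k77 5 (.s k117 k69 3 (.d k125 k121 k105 1 5)))), (.s k97 k113 3 (.s k162 k243
  12 (.s k32 k227 8 (.s k48 k16 3 (.d k195 k130 k146 8 12))))), (.s k105 k125 5 (.s k121 k73 3 (.s
  k195 k130 8 (.s k243 k162 12 (.d k60 k150 k182 14 10)))))] (.c k128 (.q k191 [(.s k113 k97 3 (.s
  k101 k77 5 (.s k117 k69 3 (.d k125 k121 k105 1 5)))), (.s k97 k113 3 (.s k162 k243 12 (.s k32 k227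
  8 (.s k48 k16 3 (.d k195 k130 k146 8 12))))), (.s k105 k125 5 (.s k121 k73 3 (.s k195 k130 8 (.s
  k243 k162 12 (.d k60 k150 k182 14 10)))))] .n) (.c k191 (.l (.s k128 k64 7 (.s k105 k125 5 (.s k73
  k121 3 (.s k77 k69 1 (.d k113 k97 k101 3 5)))))) .n))) (.c k192 (.q k149 [(.s k113 k97 3 (.s k101
  k77 5 (.s k117 k69 3 (.d k125 k121 k105 1 5)))), (.s k209 k29 9 (.s k17 k145 7 (.s k213 k21 7 (.d
  k221 k217 k153 1 9))))] (.c k213 (.q k255 [(.s k243 k162 12 (.s k247 k251 1 (.d k166 k4 k12 12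
  14))), (.s k105 k125 5 (.s k73 k121 3 (.s k77 k69 1 (.d k113 k97 k101 3 5))))] .n) (.c k255 (.l
  (.s k213 k21 7 (.s k209 k29 9 (.s k17 k145 7 (.d k221 k217 k153 1 9))))) .n))) .n))) .n)))))) (.c
  k174 (.l (.s k81 k93 1 (.s k243 k162 12 (.s k12 k166 14 (.s k170 k255 14 (.d k8 k4 k251 1 12))))))
  (.c k192 (.q k149 [(.s k81 k93 1 (.s k243 k162 12 (.s k12 k166 14 (.s k8 k4 1 (.d k170 k251 k255
  12 14))))), (.s k29 k209 9 (.s k93 k81 1 (.s k221 k157 7 (.s k17 k153 9 (.d k21 k25 k213 1 7))))),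
  (.s k81 k93 1 (.s k209 k29 9 (.s k17 k145 7 (.s k213 k21 7 (.d k221 k217 k153 1 9)))))] (.c k81
  (.q k1 [(.s k3 k2 0 (.s k169 k253 13 (.s k86 k252 14 (.s k87 k84 0 (.d k255 k171 k170 13 14))))),
  (.s k21 k213 7 (.s k29 k209 9 (.s k61 k41 5 (.s k13 k45 3 (.s k5 k9 1 (.d k165 k245 k241 11
  13))))))] (.c k255 (.l (.s k169 k253 13 (.s k129 k189 5 (.s k193 k65 7 (.s k61 k105 13 (.d k21 k41
  k213 5 7)))))) .n)) (.c k93 (.q k1 [(.s k3 k2 0 (.s k255 k170 14 (.s k87 k171 13 (.s k86 k84 0 (.d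
  k169 k253 k252 13 14))))), (.s k21 k213 7 (.s k29 k209 9 (.s k61 k41 5 (.s k13 k45 3 (.s k5 k9 1
  (.d k165 k245 k241 11 13)))))), (.s k169 k253 13 (.s k129 k189 5 (.s k193 k65 7 (.s k61 k105 13
  (.d k21 k41 k213 5 7)))))] .n) .n))) (.c k243 (.f k255 k170 14 (.f k93 k81 1 (.q k149 [(.s k21
  k213 7 (.s k29 k209 9 (.s k17 k25 1 (.d k221 k157 k153 7 9)))), (.s k12 k174 12 (.s k4 k8 1 (.s
  k21 k213 7 (.s k55 k38 4 (.s k102 k196 12 (.s k119 k68 4 (.d k247 k183 k166 7 12))))))), (.s k29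
  k209 9 (.s k221 k157 7 (.s k204 k238 4 (.s k68 k136 9 (.s k102 k119 4 (.d k153 k17 k51 9 14))))))]
  (.c k42 (.q k234 [(.d k213 k192 k21 6 7)] (.c k21 (.l (.s k12 k174 12 (.s k4 k8 1 (.s k166 k247 12
  (.s k192 k213 6 (.d k132 k183 k72 4 9)))))) (.c k123 (.q k183 [(.d k213 k192 k21 6 7), (.s k12
  k174 12 (.s k4 k8 1 (.d k166 k132 k247 4 12)))] .n) (.c k183 (.q k123 [(.d k213 k192 k21 6 7), (.s
  k29 k209 9 (.s k221 k157 7 (.s k204 k238 4 (.s k68 k136 9 (.s k102 k119 4 (.d k153 k17 k51 9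
  14))))))] (.c k192 (.l (.s k12 k174 12 (.s k4 k8 1 (.s k21 k213 7 (.s k55 k38 4 (.s k102 k196 12
  (.s k115 k76 6 (.d k119 k127 k68 1 4)))))))) .n)) (.c k192 (.l (.s k12 k174 12 (.s k4 k8 1 (.s k21
  k213 7 (.s k55 k38 4 (.s k102 k196 12 (.s k119 k68 4 (.d k247 k166 k183 12 7)))))))) (.c k213 (.l
  (.s k12 k174 12 (.s k29 k209 9 (.s k221 k157 7 (.s k17 k153 9 (.s k25 k21 1 (.d k51 k34 k38 4
  6))))))) .n)))))) (.c k123 (.q k183 [(.s k12 k174 12 (.s k4 k8 1 (.d k166 k132 k247 4 12))), (.s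
  k21 k213 7 (.s k29 k209 9 (.s k17 k25 1 (.d k221 k157 k153 7 9))))] (.c k42 (.q k234 [(.d k213
  k192 k21 6 7), (.s k12 k174 12 (.s k4 k8 1 (.d k166 k132 k247 4 12)))] .n) (.c k234 (.q k42 [(.s
  k12 k174 12 (.s k4 k8 1 (.d k166 k132 k247 4 12))), (.s k21 k213 7 (.s k29 k209 9 (.s k17 k25 1
  (.d k221 k157 k153 7 9))))] .n) .n))) (.c k183 (.q k123 [(.s k21 k213 7 (.s k29 k209 9 (.s k17 k25
  1 (.d k221 k157 k153 7 9)))), (.s k12 k174 12 (.s k4 k8 1 (.s k21 k213 7 (.s k55 k38 4 (.s k102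
  k196 12 (.s k115 k76 6 (.d k119 k127 k68 1 4))))))), (.s k29 k209 9 (.s k221 k157 7 (.s k204 k238
  4 (.s k68 k136 9 (.s k102 k119 4 (.d k153 k17 k51 9 14))))))] (.c k42 (.q k234 [(.d k213 k192 k21
  6 7), (.s k29 k209 9 (.s k221 k157 7 (.s k204 k238 4 (.s k68 k136 9 (.s k102 k119 4 (.d k153 k17
  k51 9 14))))))] (.c k192 (.l (.s k12 k174 12 (.s k4 k8 1 (.s k21 k213 7 (.s k55 k38 4 (.s k102
  k196 12 (.s k115 k76 6 (.d k119 k127 k68 1 4)))))))) .n)) (.c k234 (.q k42 [(.s k21 k213 7 (.s k29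
  k209 9 (.s k17 k25 1 (.d k221 k157 k153 7 9)))), (.s k12 k174 12 (.s k4 k8 1 (.s k21 k213 7 (.s
  k38 k55 4 (.s k34 k46 1 (.d k51 k17 k25 4 6)))))), (.s k29 k209 9 (.s k221 k157 7 (.s k204 k238 4
  (.s k68 k136 9 (.s k102 k119 4 (.d k153 k17 k51 9 14)))))), (.s k12 k174 12 (.s k8 k4 1 (.s k25
  k59 4 (.s k209 k29 9 (.s k213 k21 7 (.d k217 k153 k221 7 1))))))] .n) .n))) (.c k234 (.q k42 [(.s
  k21 k213 7 (.s k29 k209 9 (.s k17 k25 1 (.d k221 k157 k153 7 9)))), (.s k12 k174 12 (.s k4 k8 1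
  (.s k21 k213 7 (.s k38 k55 4 (.s k34 k46 1 (.d k51 k17 k25 4 6)))))), (.s k29 k209 9 (.s k221 k157
  7 (.s k204 k238 4 (.s k68 k136 9 (.s k102 k119 4 (.d k153 k17 k51 9 14)))))), (.s k12 k174 12 (.s
  k8 k4 1 (.s k25 k59 4 (.s k209 k29 9 (.s k213 k21 7 (.d k217 k153 k221 7 1))))))] (.c k123 (.q
  k183 [(.s k12 k174 12 (.s k4 k8 1 (.d k166 k132 k247 4 12))), (.s k21 k213 7 (.s k29 k209 9 (.s
  k17 k25 1 (.d k221 k157 k153 7 9))))] .n) (.c k183 (.q k123 [(.s k21 k213 7 (.s k29 k209 9 (.s k17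
  k25 1 (.d k221 k157 k153 7 9)))), (.s k12 k174 12 (.s k4 k8 1 (.s k21 k213 7 (.s k38 k55 4 (.s k34
  k46 1 (.d k51 k17 k25 4 6)))))), (.s k29 k209 9 (.s k221 k157 7 (.s k204 k238 4 (.s k68 k136 9 (.s
  k102 k119 4 (.d k153 k17 k51 9 14)))))), (.s k12 k174 12 (.s k8 k4 1 (.s k25 k59 4 (.s k209 k29 9
  (.s k213 k21 7 (.d k217 k153 k221 7 1))))))] .n) .n))) .n))))))) (.c k247 (.l (.s k81 k93 1 (.s
  k170 k255 14 (.s k8 k251 12 (.s k243 k162 12 (.d k12 k4 k166 1 14)))))) (.c k255 (.q k211 [(.s k28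
  k150 10 (.s k93 k81 1 (.s k223 k158 8 (.s k154 k16 10 (.d k219 k215 k24 1 8))))), (.s k150 k28 10
  (.s k20 k215 8 (.s k60 k40 5 (.s k195 k105 14 (.s k243 k227 3 (.s k182 k121 10 (.d k166 k134 k12 3
  14))))))), (.s k81 k93 1 (.s k146 k16 8 (.s k243 k162 12 (.s k195 k227 3 (.s k65 k130 8 (.d k97
  k113 k48 3 12))))))] (.c k127 (.q k191 [(.s k28 k150 10 (.s k93 k81 1 (.s k223 k158 8 (.s k154 k16
  10 (.d k219 k215 k24 1 8))))), (.s k150 k28 10 (.s k20 k215 8 (.s k60 k40 5 (.s k195 k105 14 (.s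
  k243 k227 3 (.s k182 k121 10 (.d k166 k134 k12 3 14))))))), (.s k81 k93 1 (.s k146 k16 8 (.s k243
  k162 12 (.s k195 k227 3 (.s k65 k130 8 (.d k97 k113 k48 3 12))))))] (.c k149 (.q k192 [(.s k28
  k150 10 (.s k93 k81 1 (.s k223 k158 8 (.s k154 k16 10 (.d k219 k215 k24 1 8))))), (.s k64 k128 7
  (.s k81 k93 1 (.s k98 k115 4 (.s k51 k145 12 (.s k34 k17 4 (.d k162 k226 k243 7 12)))))), (.s k128
  k64 7 (.s k150 k28 10 (.s k20 k215 8 (.s k60 k40 5 (.s k148 k104 13 (.s k84 k212 7 (.d k168 k188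
  k252 5 13)))))))] .n) (.c k192 (.q k149 [(.s k29 k209 9 (.s k93 k81 1 (.s k221 k157 7 (.s k17 k153
  9 (.d k21 k213 k25 7 1))))), (.s k28 k150 10 (.s k81 k93 1 (.s k16 k146 8 (.s k24 k20 1 (.d k154
  k219 k223 8 10))))), (.s k28 k150 10 (.s k29 k209 9 (.s k31 k30 0 (.s k90 k208 10 (.d k91 k88 k151
  0 9)))))] (.c k213 (.q k234 [(.s k81 k93 1 (.s k16 k146 8 (.s k150 k28 10 (.s k215 k20 8 (.d k223
  k219 k154 1 10))))), (.s k28 k150 10 (.s k29 k209 9 (.s k31 k30 0 (.s k91 k151 9 (.d k90 k88 k208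
  0 10))))), (.s k81 k93 1 (.s k128 k170 6 (.s k162 k243 12 (.s k145 k179 4 (.d k209 k17 k29 7
  9)))))] .n) (.c k234 (.l (.s k213 k21 7 (.s k81 k93 1 (.s k209 k29 9 (.s k17 k145 7 (.d k221 k217
  k153 1 9)))))) .n))) .n))) (.c k149 (.q k192 [(.s k81 k93 1 (.s k16 k146 8 (.s k150 k28 10 (.s
  k215 k20 8 (.d k223 k219 k154 1 10))))), (.s k64 k128 7 (.s k81 k93 1 (.s k98 k115 4 (.s k51 k145
  12 (.s k34 k17 4 (.d k162 k226 k243 7 12)))))), (.s k128 k64 7 (.s k150 k28 10 (.s k20 k215 8 (.s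
  k60 k40 5 (.s k148 k104 13 (.s k84 k212 7 (.d k168 k188 k252 5 13)))))))] (.c k127 (.q k191 [(.s
  k28 k150 10 (.s k93 k81 1 (.s k223 k158 8 (.s k154 k16 10 (.d k219 k215 k24 1 8))))), (.s k64 k128
  7 (.s k81 k93 1 (.s k98 k115 4 (.s k51 k145 12 (.s k34 k17 4 (.d k162 k226 k243 7 12)))))), (.s
  k128 k64 7 (.s k150 k28 10 (.s k20 k215 8 (.s k60 k40 5 (.s k148 k104 13 (.s k84 k212 7 (.d k168
  k188 k252 5 13)))))))] .n) (.c k191 (.q k127 [(.s k81 k93 1 (.s k16 k146 8 (.s k150 k28 10 (.s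
  k215 k20 8 (.d k223 k219 k154 1 10))))), (.s k93 k81 1 (.s k76 k110 4 (.s k102 k115 6 (.s k68 k119
  4 (.d k64 k128 k72 7 1))))), (.s k128 k64 7 (.s k150 k28 10 (.s k20 k215 8 (.s k60 k40 5 (.s k148
  k104 13 (.s k84 k212 7 (.d k168 k188 k252 5 13)))))))] (.c k128 (.q k170 [(.s k8 k251 12 (.s k12
  k4 1 (.s k81 k93 1 (.d k243 k162 k166 12 14)))), (.s k150 k28 10 (.s k20 k215 8 (.s k60 k40 5 (.s
  k130 k190 5 (.d k195 k65 k105 8 14)))))] .n) (.c k170 (.l (.s k128 k64 7 (.s k28 k150 10 (.s k81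
  k93 1 (.s k16 k146 8 (.s k24 k20 1 (.d k154 k219 k223 8 10))))))) .n))) .n))) (.c k191 (.q k127
  [(.s k28 k150 10 (.s k93 k81 1 (.s k223 k158 8 (.s k154 k16 10 (.d k219 k215 k24 1 8))))), (.s
  k150 k28 10 (.s k20 k215 8 (.s k60 k40 5 (.s k195 k105 14 (.s k243 k227 3 (.s k182 k121 10 (.d
  k166 k134 k12 3 14))))))), (.s k81 k93 1 (.s k146 k16 8 (.s k243 k162 12 (.s k195 k227 3 (.s k65
  k130 8 (.d k97 k113 k48 3 12))))))] (.c k149 (.q k192 [(.s k81 k93 1 (.s k16 k146 8 (.s k150 k28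
  10 (.s k215 k20 8 (.d k223 k219 k154 1 10))))), (.s k93 k81 1 (.s k76 k110 4 (.s k102 k115 6 (.s
  k68 k119 4 (.d k64 k128 k72 7 1))))), (.s k128 k64 7 (.s k150 k28 10 (.s k20 k215 8 (.s k60 k40 5
  (.s k148 k104 13 (.s k84 k212 7 (.d k168 k188 k252 5 13)))))))] (.c k128 (.q k170 [(.s k8 k251 12
  (.s k12 k4 1 (.s k81 k93 1 (.d k243 k162 k166 12 14)))), (.s k150 k28 10 (.s k20 k215 8 (.s k60
  k40 5 (.s k130 k190 5 (.d k195 k65 k105 8 14)))))] .n) (.c k170 (.l (.s k128 k64 7 (.s k28 k150 10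
  (.s k81 k93 1 (.s k16 k146 8 (.s k24 k20 1 (.d k154 k219 k223 8 10))))))) .n))) (.c k192 (.q k149
  [(.s k28 k150 10 (.s k81 k93 1 (.s k16 k146 8 (.s k24 k20 1 (.d k154 k219 k223 8 10))))), (.s k29
  k209 9 (.s k93 k81 1 (.s k221 k157 7 (.s k17 k153 9 (.d k21 k213 k25 7 1))))), (.s k28 k150 10 (.s
  k29 k209 9 (.s k31 k30 0 (.s k90 k208 10 (.d k91 k88 k151 0 9)))))] (.c k213 (.q k234 [(.s k81 k93
  1 (.s k16 k146 8 (.s k150 k28 10 (.s k215 k20 8 (.d k223 k219 k154 1 10))))), (.s k28 k150 10 (.s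
  k29 k209 9 (.s k31 k30 0 (.s k91 k151 9 (.d k90 k88 k208 0 10))))), (.s k81 k93 1 (.s k16 k146 8
  (.s k209 k29 9 (.s k208 k210 0 (.s k80 k144 7 (.d k90 k95 k31 2 10))))))] .n) (.c k234 (.l (.s
  k213 k21 7 (.s k81 k93 1 (.s k209 k29 9 (.s k17 k145 7 (.d k221 k217 k153 1 9)))))) .n))) .n)))
  (.c k192 (.q k149 [(.s k28 k150 10 (.s k81 k93 1 (.s k16 k146 8 (.s k24 k20 1 (.d k154 k219 k223 8
  10))))), (.s k29 k209 9 (.s k93 k81 1 (.s k221 k157 7 (.s k17 k153 9 (.d k21 k213 k25 7 1))))),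
  (.s k28 k150 10 (.s k29 k209 9 (.s k31 k30 0 (.s k90 k208 10 (.d k91 k88 k151 0 9)))))] (.c k127
  (.q k191 [(.s k29 k209 9 (.s k93 k81 1 (.s k221 k157 7 (.s k17 k153 9 (.d k21 k213 k25 7 1))))),
  (.s k28 k150 10 (.s k81 k93 1 (.s k16 k146 8 (.s k24 k20 1 (.d k154 k219 k223 8 10))))), (.s k28
  k150 10 (.s k29 k209 9 (.s k31 k30 0 (.s k90 k208 10 (.d k91 k88 k151 0 9)))))] (.c k213 (.q k234
  [(.s k81 k93 1 (.s k16 k146 8 (.s k150 k28 10 (.s k215 k20 8 (.d k223 k219 k154 1 10))))), (.s k28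
  k150 10 (.s k29 k209 9 (.s k31 k30 0 (.s k91 k151 9 (.d k90 k88 k208 0 10))))), (.s k81 k93 1 (.s
  k128 k170 6 (.s k162 k243 12 (.s k145 k179 4 (.d k209 k17 k29 7 9)))))] .n) (.c k234 (.l (.s k213
  k21 7 (.s k81 k93 1 (.s k209 k29 9 (.s k17 k145 7 (.d k221 k217 k153 1 9)))))) .n))) (.c k191 (.q
  k127 [(.s k28 k150 10 (.s k81 k93 1 (.s k16 k146 8 (.s k24 k20 1 (.d k154 k219 k223 8 10))))), (.s
  k29 k209 9 (.s k93 k81 1 (.s k221 k157 7 (.s k17 k153 9 (.d k21 k213 k25 7 1))))), (.s k28 k150 10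
  (.s k29 k209 9 (.s k31 k30 0 (.s k90 k208 10 (.d k91 k88 k151 0 9)))))] (.c k213 (.q k234 [(.s k81
  k93 1 (.s k16 k146 8 (.s k150 k28 10 (.s k215 k20 8 (.d k223 k219 k154 1 10))))), (.s k28 k150 10
  (.s k29 k209 9 (.s k31 k30 0 (.s k91 k151 9 (.d k90 k88 k208 0 10))))), (.s k81 k93 1 (.s k16 k146
  8 (.s k209 k29 9 (.s k208 k210 0 (.s k80 k144 7 (.d k90 k95 k31 2 10))))))] .n) (.c k234 (.l (.s
  k213 k21 7 (.s k81 k93 1 (.s k209 k29 9 (.s k17 k145 7 (.d k221 k217 k153 1 9)))))) .n))) (.c k213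
  (.q k234 [(.s k81 k93 1 (.s k16 k146 8 (.s k150 k28 10 (.s k215 k20 8 (.d k223 k219 k154 1
  10))))), (.s k28 k150 10 (.s k29 k209 9 (.s k31 k30 0 (.s k91 k151 9 (.d k90 k88 k208 0 10))))),
  (.s k81 k93 1 (.s k16 k146 8 (.s k209 k29 9 (.s k208 k210 0 (.s k80 k144 7 (.d k90 k95 k31 2
  10))))))] (.c k127 (.q k191 [(.s k81 k93 1 (.s k16 k146 8 (.s k150 k28 10 (.s k215 k20 8 (.d k223
  k219 k154 1 10))))), (.s k28 k150 10 (.s k29 k209 9 (.s k31 k30 0 (.s k91 k151 9 (.d k90 k88 k208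
  0 10))))), (.s k81 k93 1 (.s k128 k170 6 (.s k162 k243 12 (.s k145 k179 4 (.d k209 k17 k29 7
  9)))))] .n) (.c k191 (.q k127 [(.s k81 k93 1 (.s k16 k146 8 (.s k150 k28 10 (.s k215 k20 8 (.d
  k223 k219 k154 1 10))))), (.s k28 k150 10 (.s k29 k209 9 (.s k31 k30 0 (.s k91 k151 9 (.d k90 k88
  k208 0 10))))), (.s k81 k93 1 (.s k16 k146 8 (.s k209 k29 9 (.s k208 k210 0 (.s k80 k144 7 (.d k90
  k95 k31 2 10))))))] .n) .n))) (.c k234 (.l (.s k213 k21 7 (.s k81 k93 1 (.s k209 k29 9 (.s k17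
  k145 7 (.d k221 k217 k153 1 9)))))) .n))))) .n))))) .n))))))))))))))

def t63_154 : T TT 256 :=
  (.q k86 [(.s k84 k87 0 (.s k252 k168 13 (.s k169 k3 14 (.s k253 k1 13 (.d k255 k254 k170 0
  14))))), (.s k84 k87 0 (.s k252 k168 13 (.s k3 k169 14 (.s k2 k1 0 (.d k170 k254 k255 13 14)))))]
  (.c k1 (.q k4 [(.s k12 k8 1 (.s k166 k247 12 (.s k170 k255 14 (.s k162 k174 1 (.d k243 k81 k89 12
  14))))), (.s k84 k87 0 (.s k166 k247 12 (.s k6 k246 11 (.s k7 k5 0 (.d k244 k164 k165 11 12))))),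
  (.s k12 k8 1 (.s k84 k87 0 (.s k164 k244 11 (.s k88 k240 13 (.s k92 k80 1 (.d k252 k172 k168 11
  13))))))] .n) (.c k3 (.f k87 k84 0 (.f k170 k255 14 (.f k254 k2 13 (.q k127 [(.s k67 k107 5 (.s
  k105 k124 6 (.s k65 k125 5 (.d k64 k66 k106 0 6)))), (.s k106 k64 6 (.s k234 k42 7 (.s k194 k214 5
  (.s k62 k150 13 (.d k126 k66 k190 5 7))))), (.s k67 k107 5 (.s k105 k124 6 (.s k40 k235 8 (.s k60
  k20 5 (.s k65 k125 5 (.d k195 k130 k150 8 14))))))] (.c k23 (.q k43 [(.s k106 k64 6 (.s k169 k232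
  8 (.s k171 k168 0 (.d k107 k67 k235 5 7)))), (.s k106 k64 6 (.s k234 k42 7 (.s k194 k214 5 (.s k62
  k150 13 (.d k126 k66 k190 5 7))))), (.s k107 k67 5 (.s k171 k235 7 (.s k169 k168 0 (.d k106 k64
  k232 6 8))))] (.c k64 (.l (.s k67 k107 5 (.s k124 k105 6 (.s k126 k125 0 (.s k106 k66 5 (.s k234
  k42 7 (.s k194 k214 5 (.d k62 k190 k150 7 13)))))))) (.c k106 (.l (.s k67 k107 5 (.s k105 k124 6
  (.s k40 k235 8 (.s k60 k20 5 (.s k65 k125 5 (.d k195 k130 k150 8 14))))))) .n))) (.c k43 (.q k23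
  [(.s k149 k212 8 (.s k128 k191 6 (.d k64 k106 k192 6 7))), (.s k67 k107 5 (.s k105 k124 6 (.s k65
  k125 5 (.d k64 k66 k106 0 6)))), (.s k149 k212 8 (.s k21 k213 7 (.s k20 k22 0 (.d k215 k151 k150 7
  8))))] .n) (.c k64 (.l (.s k67 k107 5 (.s k124 k105 6 (.s k126 k125 0 (.s k106 k66 5 (.s k234 k42
  7 (.s k194 k214 5 (.d k62 k190 k150 7 13)))))))) (.c k104 (.l (.s k64 k106 6 (.s k67 k107 5 (.s
  k105 k124 6 (.d k65 k66 k125 0 5))))) (.c k124 (.l (.s k64 k106 6 (.s k67 k107 5 (.s k65 k66 0 (.s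
  k105 k125 5 (.s k40 k235 8 (.s k60 k20 5 (.d k195 k130 k150 8 14)))))))) .n))))))))) (.c k84 (.q
  k4 [(.s k12 k8 1 (.s k166 k247 12 (.s k89 k243 14 (.s k93 k81 1 (.d k255 k174 k170 12 14))))), (.s
  k12 k8 1 (.s k166 k247 12 (.s k6 k246 11 (.s k3 k9 2 (.s k1 k2 0 (.d k169 k253 k252 13 14)))))),
  (.s k166 k247 12 (.s k6 k246 11 (.s k5 k7 0 (.s k10 k15 2 (.s k170 k255 14 (.d k2 k14 k254 1
  13)))))), (.s k12 k8 1 (.s k170 k255 14 (.s k2 k254 13 (.s k3 k1 0 (.s k6 k9 2 (.s k5 k7 0 (.d k10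
  k14 k15 1 2)))))))] .n) (.c k87 (.q k4 [(.s k12 k8 1 (.s k255 k170 14 (.s k93 k174 12 (.s k89 k81
  1 (.d k166 k247 k243 12 14))))), (.s k12 k8 1 (.s k166 k247 12 (.s k6 k246 11 (.s k3 k9 2 (.s k1
  k2 0 (.d k169 k253 k252 13 14)))))), (.s k166 k247 12 (.s k6 k246 11 (.s k170 k255 14 (.s k2 k254
  13 (.s k10 k14 1 (.d k5 k7 k15 0 2)))))), (.s k12 k8 1 (.s k170 k255 14 (.s k2 k254 13 (.s k3 k1 0
  (.s k6 k9 2 (.s k10 k14 1 (.d k5 k7 k15 0 2)))))))] .n) (.c k168 (.l (.s k87 k84 0 (.s k255 k170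
  14 (.s k3 k171 13 (.s k169 k252 14 (.d k1 k2 k253 0 13)))))) (.c k169 (.f k87 k84 0 (.f k170 k255
  14 (.f k254 k2 13 (.q k127 [(.s k67 k107 5 (.s k105 k124 6 (.s k65 k125 5 (.d k64 k66 k106 0
  6)))), (.s k106 k64 6 (.s k234 k42 7 (.s k194 k214 5 (.s k62 k150 13 (.d k126 k66 k190 5 7))))),
  (.s k67 k107 5 (.s k105 k124 6 (.s k40 k235 8 (.s k60 k20 5 (.s k65 k125 5 (.d k195 k130 k150 8
  14))))))] (.c k64 (.l (.s k67 k107 5 (.s k124 k105 6 (.s k126 k125 0 (.s k106 k66 5 (.s k234 k42 7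
  (.s k194 k214 5 (.d k62 k190 k150 7 13)))))))) (.c k104 (.l (.s k64 k106 6 (.s k67 k107 5 (.s k105
  k124 6 (.d k65 k66 k125 0 5))))) (.c k124 (.l (.s k64 k106 6 (.s k67 k107 5 (.s k65 k66 0 (.s k105
  k125 5 (.s k40 k235 8 (.s k60 k20 5 (.d k195 k130 k150 8 14)))))))) (.c k139 (.q k184 [(.s k67
  k107 5 (.s k105 k124 6 (.s k65 k125 5 (.d k64 k66 k106 0 6)))), (.s k106 k64 6 (.s k234 k42 7 (.s
  k194 k214 5 (.s k62 k150 13 (.d k126 k66 k190 5 7))))), (.s k67 k107 5 (.s k105 k124 6 (.s k40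
  k235 8 (.s k60 k20 5 (.s k65 k125 5 (.d k195 k130 k150 8 14))))))] (.c k64 (.l (.s k67 k107 5 (.s
  k124 k105 6 (.s k126 k125 0 (.s k106 k66 5 (.s k234 k42 7 (.s k194 k214 5 (.d k62 k190 k150 7
  13)))))))) (.c k104 (.l (.s k64 k106 6 (.s k67 k107 5 (.s k105 k124 6 (.d k65 k66 k125 0 5)))))
  (.c k124 (.l (.s k64 k106 6 (.s k67 k107 5 (.s k65 k66 0 (.s k105 k125 5 (.s k40 k235 8 (.s k60
  k20 5 (.d k195 k130 k150 8 14)))))))) .n)))) (.c k184 (.q k139 [(.s k67 k107 5 (.s k105 k124 6 (.s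
  k65 k125 5 (.d k64 k66 k106 0 6)))), (.s k106 k64 6 (.s k234 k42 7 (.s k194 k214 5 (.s k62 k150 13
  (.d k126 k66 k190 5 7))))), (.s k67 k107 5 (.s k105 k124 6 (.s k40 k235 8 (.s k60 k20 5 (.s k65
  k125 5 (.d k195 k130 k150 8 14))))))] (.c k64 (.l (.s k67 k107 5 (.s k124 k105 6 (.s k126 k125 0
  (.s k106 k66 5 (.s k234 k42 7 (.s k194 k214 5 (.d k62 k190 k150 7 13)))))))) (.c k104 (.l (.s k64
  k106 6 (.s k67 k107 5 (.s k105 k124 6 (.d k65 k66 k125 0 5))))) (.c k124 (.l (.s k64 k106 6 (.s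
  k67 k107 5 (.s k65 k66 0 (.s k105 k125 5 (.s k40 k235 8 (.s k60 k20 5 (.d k195 k130 k150 8
  14)))))))) .n)))) .n))))))))) (.c k170 (.f k84 k87 0 (.q k118 [(.s k102 k70 3 (.s k252 k168 13 (.s
  k51 k185 10 (.s k17 k34 4 (.d k153 k221 k204 9 14))))), (.s k102 k70 3 (.s k68 k119 4 (.s k100
  k116 3 (.s k204 k136 9 (.s k153 k51 14 (.s k220 k19 10 (.d k152 k16 k48 9 13))))))), (.s k252 k168
  13 (.s k169 k3 14 (.s k185 k51 10 (.s k253 k1 13 (.s k117 k49 9 (.s k101 k69 3 (.d k116 k119 k71 0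
  4)))))))] (.c k51 (.l (.s k102 k70 3 (.s k68 k119 4 (.s k204 k136 9 (.s k252 k168 13 (.s k169 k3
  14 (.d k236 k35 k220 10 3))))))) (.c k138 (.q k186 [(.s k252 k168 13 (.s k169 k3 14 (.s k253 k1 13
  (.d k254 k255 k50 0 9)))), (.s k102 k70 3 (.s k68 k119 4 (.s k100 k116 3 (.s k204 k136 9 (.s k152
  k48 13 (.s k153 k51 14 (.d k220 k16 k19 9 10))))))), (.s k102 k70 3 (.s k68 k119 4 (.s k204 k136 9
  (.s k252 k168 13 (.d k51 k153 k185 14 10)))))] (.c k252 (.l (.s k50 k254 9 (.s k102 k70 3 (.s k68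
  k119 4 (.s k100 k116 3 (.s k204 k136 9 (.s k48 k152 13 (.d k51 k153 k49 14 0)))))))) .n)) (.c k186
  (.q k138 [(.s k102 k70 3 (.s k119 k68 4 (.s k117 k116 0 (.d k69 k101 k207 3 10)))), (.s k102 k70 3
  (.s k252 k168 13 (.s k51 k185 10 (.s k17 k34 4 (.d k153 k221 k204 9 14))))), (.s k69 k207 10 (.s
  k252 k168 13 (.s k169 k3 14 (.s k1 k253 13 (.s k137 k205 9 (.d k185 k153 k51 3 10))))))] .n)
  .n))))) (.c k171 (.l (.s k84 k87 0 (.s k252 k168 13 (.s k3 k169 14 (.s k170 k255 14 (.d k2 k1 k254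
  0 13)))))) (.c k252 (.f k255 k170 14 (.f k87 k84 0 (.q k138 [(.s k69 k207 10 (.s k101 k117 3 (.s
  k71 k116 4 (.s k68 k70 0 (.d k119 k103 k102 3 4))))), (.s k3 k171 13 (.s k2 k1 0 (.s k70 k206 9
  (.s k137 k204 10 (.s k139 k136 0 (.d k207 k71 k69 9 10)))))), (.s k3 k171 13 (.s k2 k1 0 (.s k70
  k206 9 (.s k102 k118 3 (.s k68 k119 4 (.d k204 k136 k137 9 10)))))), (.s k3 k171 13 (.s k207 k69
  10 (.s k71 k139 9 (.s k103 k119 3 (.s k155 k51 13 (.d k223 k239 k19 3 9))))))] (.c k126 (.q k189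
  [(.s k69 k207 10 (.s k101 k117 3 (.s k71 k116 4 (.s k68 k70 0 (.d k119 k103 k102 3 4))))), (.s k3
  k171 13 (.s k2 k1 0 (.s k70 k206 9 (.s k137 k204 10 (.s k139 k136 0 (.d k207 k71 k69 9 10)))))),
  (.s k3 k171 13 (.s k2 k1 0 (.s k70 k206 9 (.s k102 k118 3 (.s k68 k119 4 (.d k204 k136 k137 9
  10)))))), (.s k3 k171 13 (.s k207 k69 10 (.s k71 k139 9 (.s k103 k119 3 (.s k155 k51 13 (.d k223
  k239 k19 3 9))))))] .n) (.c k189 (.q k126 [(.s k106 k66 5 (.s k127 k64 6 (.s k67 k107 5 (.d k124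
  k125 k105 0 6)))), (.s k69 k207 10 (.s k101 k117 3 (.s k71 k116 4 (.s k68 k70 0 (.d k119 k103 k102
  3 4)))))] .n) .n))))) (.c k254 (.l (.s k87 k84 0 (.s k255 k170 14 (.s k3 k171 13 (.s k1 k2 0 (.d
  k169 k253 k252 13 14)))))) (.c k255 (.q k68 [(.s k87 k84 0 (.s k119 k102 4 (.s k71 k103 3 (.s k69
  k70 0 (.d k101 k117 k116 3 4))))), (.s k84 k87 0 (.s k100 k116 3 (.s k168 k252 13 (.s k32 k236 9
  (.s k48 k16 3 (.d k204 k136 k152 9 13)))))), (.s k102 k119 4 (.s k70 k118 3 (.s k204 k136 9 (.s k3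
  k137 10 (.s k1 k2 0 (.d k169 k253 k252 13 14))))))] (.c k116 (.l (.s k84 k87 0 (.s k102 k119 4 (.s
  k118 k70 3 (.s k204 k136 9 (.s k51 k153 14 (.d k252 k185 k168 10 13))))))) (.c k127 (.q k191 [(.s
  k87 k84 0 (.s k119 k102 4 (.s k71 k103 3 (.s k69 k70 0 (.d k101 k117 k116 3 4))))), (.s k84 k87 0
  (.s k100 k116 3 (.s k168 k252 13 (.s k32 k236 9 (.s k48 k16 3 (.d k204 k136 k152 9 13)))))), (.s
  k102 k119 4 (.s k70 k118 3 (.s k204 k136 9 (.s k3 k137 10 (.s k1 k2 0 (.d k169 k253 k252 13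
  14))))))] (.c k116 (.l (.s k84 k87 0 (.s k102 k119 4 (.s k118 k70 3 (.s k204 k136 9 (.s k51 k153
  14 (.d k252 k185 k168 10 13))))))) .n)) (.c k191 (.q k127 [(.s k84 k87 0 (.s k102 k119 4 (.s k70
  k118 3 (.s k71 k69 0 (.d k116 k100 k101 3 4))))), (.s k64 k106 6 (.s k76 k72 1 (.s k93 k110 4 (.s
  k89 k81 1 (.d k102 k119 k115 4 6))))), (.s k64 k106 6 (.s k84 k87 0 (.s k124 k104 5 (.s k105 k67 6
  (.d k125 k126 k65 0 5)))))] .n) .n)))) .n))))))))))))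

def t63_171 : T TT 256 :=
  (.q k89 [(.s k81 k93 1 (.s k243 k162 12 (.s k12 k166 14 (.s k8 k4 1 (.d k170 k251 k255 12 14)))))]
  (.c k4 (.q k1 [(.s k81 k93 1 (.s k241 k161 11 (.s k13 k165 13 (.s k169 k253 13 (.d k9 k5 k249 1
  11))))), (.s k3 k2 0 (.s k81 k93 1 (.s k161 k241 11 (.s k82 k240 12 (.s k83 k80 0 (.d k243 k163
  k162 11 12)))))), (.s k3 k2 0 (.s k169 k253 13 (.s k9 k249 11 (.s k12 k6 2 (.s k86 k252 14 (.s k83
  k92 2 (.d k243 k163 k166 11 14)))))))] (.c k241 (.l (.s k3 k2 0 (.s k81 k93 1 (.s k169 k253 13 (.s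
  k86 k252 14 (.s k83 k92 2 (.d k243 k163 k162 11 12))))))) .n)) (.c k8 (.l (.s k81 k93 1 (.s k243
  k162 12 (.s k166 k12 14 (.s k247 k4 12 (.d k255 k251 k170 1 14)))))) (.c k12 (.f k93 k81 1 (.q k60
  [(.s k20 k40 5 (.s k150 k215 8 (.s k28 k211 10 (.s k223 k158 8 (.d k16 k24 k154 1 10))))), (.s
  k255 k170 14 (.s k125 k190 8 (.s k77 k109 3 (.s k101 k113 5 (.s k69 k117 3 (.d k65 k73 k105 1
  5))))))] (.c k29 (.q k46 [(.s k20 k40 5 (.s k150 k215 8 (.s k28 k211 10 (.s k223 k158 8 (.d k16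
  k24 k154 1 10))))), (.s k255 k170 14 (.s k125 k190 8 (.s k77 k109 3 (.s k101 k113 5 (.s k69 k117 3
  (.d k65 k73 k105 1 5))))))] (.c k150 (.l (.s k40 k20 5 (.s k170 k255 14 (.s k8 k251 12 (.s k56 k24
  3 (.s k105 k235 8 (.s k73 k121 3 (.d k203 k138 k154 8 12)))))))) .n)) (.c k46 (.q k29 [(.s k149
  k209 9 (.s k21 k213 7 (.s k17 k25 1 (.d k221 k157 k153 7 9)))), (.s k20 k40 5 (.s k150 k215 8 (.s
  k28 k211 10 (.s k16 k24 1 (.d k223 k158 k154 8 10)))))] .n) (.c k150 (.l (.s k40 k20 5 (.s k170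
  k255 14 (.s k8 k251 12 (.s k56 k24 3 (.s k105 k235 8 (.s k73 k121 3 (.d k203 k138 k154 8
  12)))))))) .n))))) (.c k81 (.q k15 [(.s k5 k10 2 (.s k165 k245 11 (.s k90 k240 14 (.s k95 k80 2
  (.d k255 k175 k170 11 14))))), (.s k5 k10 2 (.s k165 k245 11 (.s k13 k241 13 (.s k12 k14 0 (.s k4
  k8 1 (.d k166 k247 k243 12 14)))))), (.s k170 k255 14 (.s k8 k251 12 (.s k12 k4 1 (.s k13 k14 0
  (.s k165 k241 13 (.s k160 k175 2 (.d k240 k80 k90 11 14)))))))] (.c k165 (.l (.s k10 k5 2 (.s k170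
  k255 14 (.s k8 k251 12 (.s k11 k9 0 (.s k90 k250 11 (.s k88 k91 0 (.d k248 k168 k169 11 12))))))))
  .n)) (.c k93 (.q k15 [(.s k5 k10 2 (.s k165 k245 11 (.s k90 k240 14 (.s k95 k80 2 (.d k255 k175
  k170 11 14))))), (.s k5 k10 2 (.s k165 k245 11 (.s k13 k241 13 (.s k12 k14 0 (.s k4 k8 1 (.d k166
  k247 k243 12 14)))))), (.s k170 k255 14 (.s k8 k251 12 (.s k12 k4 1 (.s k13 k14 0 (.s k165 k241 13
  (.s k160 k175 2 (.d k240 k80 k90 11 14)))))))] (.c k165 (.l (.s k10 k5 2 (.s k170 k255 14 (.s k8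
  k251 12 (.s k11 k9 0 (.s k90 k250 11 (.s k88 k91 0 (.d k248 k168 k169 11 12)))))))) .n)) (.c k162
  (.l (.s k93 k81 1 (.s k255 k170 14 (.s k12 k174 12 (.s k166 k243 14 (.d k4 k8 k247 1 12)))))) (.c
  k166 (.q k1 [(.s k81 k93 1 (.s k241 k161 11 (.s k165 k13 13 (.s k245 k5 11 (.d k253 k249 k169 1
  13))))), (.s k3 k2 0 (.s k81 k93 1 (.s k161 k241 11 (.s k82 k240 12 (.s k83 k80 0 (.d k243 k163
  k162 11 12)))))), (.s k3 k2 0 (.s k169 k253 13 (.s k9 k249 11 (.s k12 k6 2 (.s k8 k4 1 (.d k170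
  k251 k255 12 14))))))] (.c k241 (.l (.s k3 k2 0 (.s k81 k93 1 (.s k169 k253 13 (.s k86 k252 14 (.s
  k83 k92 2 (.d k243 k163 k162 11 12))))))) .n)) (.c k170 (.q k169 [(.s k1 k253 13 (.s k9 k249 11
  (.s k13 k5 1 (.s k81 k93 1 (.d k241 k161 k165 11 13))))), (.s k81 k93 1 (.s k243 k162 12 (.s k249
  k9 11 (.s k252 k246 2 (.s k84 k168 13 (.d k86 k87 k3 0 14)))))), (.s k1 k253 13 (.s k3 k2 0 (.s
  k81 k93 1 (.s k86 k252 14 (.s k83 k92 2 (.d k243 k163 k162 11 12)))))), (.s k1 k253 13 (.s k3 k2 0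
  (.s k9 k249 11 (.s k12 k6 2 (.s k4 k8 1 (.d k166 k247 k243 12 14))))))] .n) (.c k174 (.l (.s k81
  k93 1 (.s k243 k162 12 (.s k12 k166 14 (.s k170 k255 14 (.d k8 k4 k251 1 12)))))) (.c k243 (.f
  k255 k170 14 (.f k93 k81 1 (.q k168 [(.s k84 k252 13 (.s k86 k87 0 (.s k92 k83 2 (.s k80 k88 1 (.d
  k95 k94 k90 0 2))))), (.s k12 k174 12 (.s k8 k4 1 (.s k88 k248 11 (.s k164 k240 13 (.s k172 k160 1
  (.d k252 k92 k84 11 13)))))), (.s k12 k174 12 (.s k8 k4 1 (.s k88 k248 11 (.s k90 k91 0 (.s k80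
  k95 2 (.d k240 k160 k164 11 13))))))] (.c k88 (.l (.s k12 k174 12 (.s k252 k84 13 (.s k92 k172 11
  (.s k86 k83 2 (.s k253 k254 0 (.d k169 k3 k1 14 13))))))) (.c k123 (.q k183 [(.s k84 k252 13 (.s
  k86 k87 0 (.s k92 k83 2 (.s k80 k88 1 (.d k95 k94 k90 0 2))))), (.s k12 k174 12 (.s k8 k4 1 (.s
  k88 k248 11 (.s k164 k240 13 (.s k172 k160 1 (.d k252 k92 k84 11 13)))))), (.s k12 k174 12 (.s k8
  k4 1 (.s k88 k248 11 (.s k90 k91 0 (.s k80 k95 2 (.d k240 k160 k164 11 13))))))] (.c k88 (.l (.s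
  k12 k174 12 (.s k252 k84 13 (.s k92 k172 11 (.s k86 k83 2 (.s k253 k254 0 (.d k169 k3 k1 14
  13))))))) .n)) (.c k183 (.q k123 [(.s k106 k72 4 (.s k127 k64 6 (.s k76 k110 4 (.d k115 k119 k102
  1 6)))), (.s k84 k252 13 (.s k86 k87 0 (.s k92 k83 2 (.s k80 k88 1 (.d k95 k94 k90 0 2)))))] .n)
  .n)))))) (.c k251 (.l (.s k93 k81 1 (.s k255 k170 14 (.s k12 k174 12 (.s k4 k8 1 (.d k166 k247
  k243 12 14)))))) (.c k255 (.q k3 [(.s k1 k2 0 (.s k93 k81 1 (.s k253 k169 13 (.s k13 k173 11 (.s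
  k5 k9 1 (.d k165 k245 k241 11 13)))))), (.s k81 k93 1 (.s k243 k162 12 (.s k83 k163 11 (.s k86 k92
  2 (.s k84 k87 0 (.d k252 k168 k169 13 14)))))), (.s k1 k2 0 (.s k169 k253 13 (.s k9 k249 11 (.s
  k12 k6 2 (.s k4 k8 1 (.d k166 k247 k243 12 14))))))] (.c k127 (.q k191 [(.s k1 k2 0 (.s k93 k81 1
  (.s k253 k169 13 (.s k13 k173 11 (.s k5 k9 1 (.d k165 k245 k241 11 13)))))), (.s k81 k93 1 (.s
  k243 k162 12 (.s k83 k163 11 (.s k86 k92 2 (.s k84 k87 0 (.d k252 k168 k169 13 14)))))), (.s k1 k2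
  0 (.s k169 k253 13 (.s k9 k249 11 (.s k12 k6 2 (.s k4 k8 1 (.d k166 k247 k243 12 14))))))] (.c
  k169 (.l (.s k1 k2 0 (.s k81 k93 1 (.s k161 k241 11 (.s k82 k240 12 (.s k83 k80 0 (.d k243 k163
  k162 11 12))))))) .n)) (.c k169 (.l (.s k1 k2 0 (.s k81 k93 1 (.s k161 k241 11 (.s k82 k240 12 (.s
  k83 k80 0 (.d k243 k163 k162 11 12))))))) (.c k191 (.q k127 [(.s k93 k81 1 (.s k76 k110 4 (.s k106
  k64 6 (.s k115 k102 6 (.d k123 k119 k72 1 4))))), (.s k1 k2 0 (.s k169 k253 13 (.s k9 k249 11 (.s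
  k12 k6 2 (.s k4 k8 1 (.d k166 k247 k243 12 14))))))] (.c k131 (.q k151 [(.s k93 k81 1 (.s k76 k110
  4 (.s k106 k64 6 (.s k115 k102 6 (.d k123 k119 k72 1 4))))), (.s k1 k2 0 (.s k169 k253 13 (.s k9
  k249 11 (.s k12 k6 2 (.s k4 k8 1 (.d k166 k247 k243 12 14))))))] .n) (.c k151 (.q k131 [(.s k64
  k106 6 (.s k195 k67 7 (.s k130 k65 8 (.d k128 k192 k129 7 0)))), (.s k93 k81 1 (.s k76 k110 4 (.s
  k102 k115 6 (.s k68 k119 4 (.d k64 k72 k106 1 6)))))] (.c k64 (.l (.s k2 k1 0 (.s k195 k67 7 (.s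
  k130 k65 8 (.s k66 k194 7 (.d k129 k128 k192 0 8)))))) (.c k106 (.l (.s k2 k1 0 (.s k195 k67 7 (.s
  k130 k65 8 (.s k66 k194 7 (.d k129 k128 k192 0 8)))))) (.c k107 (.l (.s k195 k67 7 (.s k64 k106 6
  (.s k130 k65 8 (.d k128 k192 k129 7 0))))) (.c k195 (.q k107 [(.s k1 k2 0 (.s k87 k67 5 (.s k86
  k84 0 (.d k169 k253 k252 13 14)))), (.s k64 k106 6 (.s k81 k93 1 (.s k115 k98 4 (.s k102 k76 6 (.d
  k119 k123 k68 1 4)))))] (.c k215 (.q k235 [(.s k1 k2 0 (.s k87 k67 5 (.s k86 k84 0 (.d k169 k253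
  k252 13 14)))), (.s k64 k106 6 (.s k81 k93 1 (.s k115 k98 4 (.s k102 k76 6 (.d k119 k123 k68 1
  4)))))] (.c k23 (.l (.s k87 k67 5 (.s k1 k2 0 (.s k86 k84 0 (.d k169 k253 k252 13 14))))) (.c k87
  (.q k23 [(.s k93 k81 1 (.s k76 k110 4 (.s k106 k64 6 (.s k115 k102 6 (.d k123 k119 k72 1 4))))),
  (.s k1 k2 0 (.s k81 k93 1 (.s k161 k241 11 (.s k82 k240 12 (.s k83 k80 0 (.d k243 k163 k162 11
  12)))))), (.s k1 k2 0 (.s k106 k64 6 (.s k105 k104 0 (.s k169 k253 13 (.s k232 k43 8 (.d k233 k234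
  k41 0 7))))))] .n) .n))) (.c k235 (.q k215 [(.s k1 k2 0 (.s k150 k20 8 (.d k169 k188 k253 6 13))),
  (.s k64 k106 6 (.s k67 k87 5 (.s k66 k65 0 (.d k192 k128 k129 7 8))))] .n) .n))) .n))))) .n)))
  .n)))) .n)))))))))))))

def t63_175 : T TT 256 :=
  (.q k86 [(.s k84 k87 0 (.s k252 k168 13 (.s k3 k169 14 (.s k2 k1 0 (.d k170 k254 k255 13 14)))))]
  (.c k1 (.q k4 [(.s k84 k87 0 (.s k166 k247 12 (.s k6 k246 11 (.s k7 k5 0 (.d k244 k164 k165 11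
  12))))), (.s k12 k8 1 (.s k166 k247 12 (.s k89 k243 14 (.s k93 k81 1 (.d k255 k174 k170 12
  14))))), (.s k12 k8 1 (.s k84 k87 0 (.s k164 k244 11 (.s k88 k240 13 (.s k92 k80 1 (.d k252 k172
  k168 11 13))))))] .n) (.c k2 (.l (.s k84 k87 0 (.s k252 k168 13 (.s k169 k3 14 (.s k253 k1 13 (.d
  k255 k254 k170 0 14)))))) (.c k3 (.f k87 k84 0 (.f k255 k170 14 (.q k165 [(.s k245 k5 11 (.s k240
  k250 2 (.s k80 k160 11 (.d k90 k95 k15 2 14)))), (.s k7 k244 12 (.s k247 k167 11 (.s k243 k251 1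
  (.s k81 k162 12 (.s k89 k93 1 (.d k166 k4 k12 12 14))))))] (.c k23 (.q k43 [(.s k245 k5 11 (.s
  k240 k250 2 (.s k80 k160 11 (.d k90 k95 k15 2 14)))), (.s k7 k244 12 (.s k247 k167 11 (.s k243
  k251 1 (.s k81 k162 12 (.s k89 k93 1 (.d k166 k4 k12 12 14))))))] .n) (.c k43 (.q k23 [(.s k5 k245
  11 (.s k7 k244 12 (.s k4 k6 0 (.d k247 k167 k166 11 12)))), (.s k149 k212 8 (.s k21 k213 7 (.s k20
  k22 0 (.d k215 k151 k150 7 8))))] .n) .n))))) (.c k84 (.q k4 [(.s k12 k8 1 (.s k166 k247 12 (.s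
  k89 k243 14 (.s k93 k81 1 (.d k255 k174 k170 12 14))))), (.s k12 k8 1 (.s k166 k247 12 (.s k6 k246
  11 (.s k3 k9 2 (.s k1 k2 0 (.d k169 k253 k252 13 14)))))), (.s k166 k247 12 (.s k6 k246 11 (.s k5
  k7 0 (.s k170 k255 14 (.s k2 k254 13 (.d k10 k15 k14 2 1)))))), (.s k12 k8 1 (.s k170 k255 14 (.s
  k2 k254 13 (.s k3 k1 0 (.s k6 k9 2 (.s k5 k7 0 (.d k10 k15 k14 2 1)))))))] .n) (.c k87 (.q k4 [(.s
  k12 k8 1 (.s k166 k247 12 (.s k89 k243 14 (.s k93 k81 1 (.d k255 k174 k170 12 14))))), (.s k12 k8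
  1 (.s k166 k247 12 (.s k6 k246 11 (.s k3 k9 2 (.s k1 k2 0 (.d k169 k253 k252 13 14)))))), (.s k12
  k8 1 (.s k170 k255 14 (.s k2 k254 13 (.s k3 k1 0 (.s k6 k9 2 (.s k10 k14 1 (.d k5 k15 k7 2
  0))))))), (.s k166 k247 12 (.s k6 k246 11 (.s k170 k255 14 (.s k2 k254 13 (.s k10 k14 1 (.d k5 k7
  k15 0 2))))))] (.c k7 (.l (.s k12 k8 1 (.s k255 k170 14 (.s k93 k174 12 (.s k89 k81 1 (.d k166
  k247 k243 12 14)))))) .n)) (.c k168 (.l (.s k87 k84 0 (.s k255 k170 14 (.s k3 k171 13 (.s k169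
  k252 14 (.d k1 k2 k253 0 13)))))) (.c k169 (.q k4 [(.s k84 k87 0 (.s k166 k247 12 (.s k6 k246 11
  (.s k7 k5 0 (.d k244 k164 k165 11 12))))), (.s k12 k8 1 (.s k166 k247 12 (.s k89 k243 14 (.s k93
  k81 1 (.d k255 k174 k170 12 14))))), (.s k12 k8 1 (.s k84 k87 0 (.s k164 k244 11 (.s k88 k240 13
  (.s k92 k80 1 (.d k252 k172 k168 11 13))))))] .n) (.c k170 (.q k165 [(.s k5 k245 11 (.s k7 k244 12
  (.s k4 k6 0 (.s k87 k84 0 (.d k247 k167 k166 11 12))))), (.s k5 k245 11 (.s k15 k10 2 (.s k84 k87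
  0 (.s k90 k240 14 (.s k94 k82 1 (.d k252 k173 k168 12 13)))))), (.s k5 k245 11 (.s k7 k244 12 (.s
  k15 k10 2 (.s k3 k11 1 (.s k1 k2 0 (.d k169 k253 k252 13 14)))))), (.s k84 k87 0 (.s k244 k7 12
  (.s k252 k168 13 (.s k240 k248 1 (.s k80 k160 11 (.d k90 k95 k15 2 14))))))] .n) (.c k171 (.l (.s
  k84 k87 0 (.s k252 k168 13 (.s k3 k169 14 (.s k170 k255 14 (.d k2 k1 k254 0 13)))))) (.c k252 (.f
  k255 k170 14 (.f k87 k84 0 (.q k165 [(.s k245 k5 11 (.s k240 k250 2 (.s k80 k160 11 (.d k90 k95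
  k15 2 14)))), (.s k7 k244 12 (.s k247 k167 11 (.s k243 k251 1 (.s k81 k162 12 (.s k89 k93 1 (.d
  k166 k4 k12 12 14))))))] (.c k126 (.q k189 [(.s k245 k5 11 (.s k240 k250 2 (.s k80 k160 11 (.d k90
  k95 k15 2 14)))), (.s k7 k244 12 (.s k247 k167 11 (.s k243 k251 1 (.s k81 k162 12 (.s k89 k93 1
  (.d k166 k4 k12 12 14))))))] (.c k240 (.l (.s k3 k171 13 (.s k5 k245 11 (.s k15 k10 2 (.d k7 k11
  k244 1 12))))) .n)) (.c k189 (.q k126 [(.s k5 k245 11 (.s k7 k244 12 (.s k4 k6 0 (.d k247 k167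
  k166 11 12)))), (.s k106 k66 5 (.s k127 k64 6 (.s k67 k107 5 (.d k124 k125 k105 0 6))))] .n) (.c
  k240 (.l (.s k3 k171 13 (.s k5 k245 11 (.s k15 k10 2 (.d k7 k11 k244 1 12))))) .n)))))) (.c k254
  (.l (.s k87 k84 0 (.s k255 k170 14 (.s k3 k171 13 (.s k1 k2 0 (.d k169 k253 k252 13 14)))))) (.c
  k255 (.q k15 [(.s k5 k10 2 (.s k84 k87 0 (.s k165 k245 11 (.s k240 k90 14 (.s k252 k168 13 (.d
  k244 k248 k7 1 12)))))), (.s k84 k87 0 (.s k252 k168 13 (.s k94 k173 12 (.s k90 k82 1 (.s k80 k95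
  2 (.d k240 k160 k165 11 14)))))), (.s k5 k10 2 (.s k87 k84 0 (.s k165 k245 11 (.s k7 k244 12 (.s
  k4 k6 0 (.d k247 k167 k166 11 12)))))), (.s k5 k10 2 (.s k165 k245 11 (.s k7 k244 12 (.s k3 k11 1
  (.s k1 k2 0 (.d k169 k253 k252 13 14))))))] (.c k127 (.q k191 [(.s k5 k10 2 (.s k87 k84 0 (.s k165
  k245 11 (.s k7 k244 12 (.s k4 k6 0 (.d k247 k167 k166 11 12)))))), (.s k84 k87 0 (.s k252 k168 13
  (.s k94 k173 12 (.s k90 k82 1 (.s k80 k95 2 (.d k240 k160 k165 11 14)))))), (.s k5 k10 2 (.s k165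
  k245 11 (.s k7 k244 12 (.s k3 k11 1 (.s k1 k2 0 (.d k169 k253 k252 13 14))))))] (.c k165 (.f k5
  k10 2 (.l (.s k84 k87 0 (.s k252 k168 13 (.s k3 k169 14 (.s k1 k2 0 (.s k7 k11 1 (.s k6 k4 0 (.d
  k9 k13 k12 1 2))))))))) (.c k240 (.l (.s k5 k10 2 (.s k84 k87 0 (.s k252 k168 13 (.s k3 k169 14
  (.s k7 k11 1 (.d k165 k245 k244 11 12))))))) .n))) (.c k165 (.f k5 k10 2 (.l (.s k84 k87 0 (.s
  k252 k168 13 (.s k3 k169 14 (.s k1 k2 0 (.s k7 k11 1 (.s k6 k4 0 (.d k9 k13 k12 1 2))))))))) (.c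
  k191 (.q k127 [(.s k87 k84 0 (.s k67 k107 5 (.s k106 k64 6 (.s k124 k105 6 (.d k126 k125 k66 0
  5))))), (.s k5 k10 2 (.s k165 k245 11 (.s k7 k244 12 (.s k3 k11 1 (.s k1 k2 0 (.d k169 k253 k252
  13 14))))))] (.c k143 (.q k159 [(.s k87 k84 0 (.s k67 k107 5 (.s k106 k64 6 (.s k124 k105 6 (.d
  k126 k125 k66 0 5))))), (.s k5 k10 2 (.s k165 k245 11 (.s k7 k244 12 (.s k3 k11 1 (.s k1 k2 0 (.d
  k169 k253 k252 13 14))))))] .n) (.c k159 (.q k143 [(.s k64 k106 6 (.s k207 k79 7 (.s k138 k69 10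
  (.d k128 k192 k133 7 2)))), (.s k87 k84 0 (.s k67 k107 5 (.s k105 k124 6 (.s k65 k125 5 (.d k64
  k66 k106 0 6)))))] (.c k64 (.l (.s k10 k5 2 (.s k207 k79 7 (.s k138 k69 10 (.s k74 k202 7 (.d k133
  k128 k192 2 10)))))) (.c k106 (.l (.s k10 k5 2 (.s k207 k79 7 (.s k138 k69 10 (.s k74 k202 7 (.d
  k133 k128 k192 2 10)))))) (.c k111 (.l (.s k207 k79 7 (.s k64 k106 6 (.s k138 k69 10 (.d k128 k192
  k133 7 2))))) (.c k207 (.q k111 [(.s k5 k10 2 (.s k95 k79 3 (.s k90 k80 2 (.d k165 k245 k240 11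
  14)))), (.s k64 k106 6 (.s k84 k87 0 (.s k124 k104 5 (.s k105 k67 6 (.d k125 k126 k65 0 5)))))]
  (.c k223 (.q k239 [(.s k5 k10 2 (.s k95 k79 3 (.s k90 k80 2 (.d k165 k245 k240 11 14)))), (.s k64
  k106 6 (.s k84 k87 0 (.s k124 k104 5 (.s k105 k67 6 (.d k125 k126 k65 0 5)))))] (.c k31 (.l (.s
  k95 k79 3 (.s k5 k10 2 (.s k90 k80 2 (.d k165 k245 k240 11 14))))) (.c k95 (.q k31 [(.s k87 k84 0
  (.s k67 k107 5 (.s k106 k64 6 (.s k124 k105 6 (.d k126 k125 k66 0 5))))), (.s k5 k10 2 (.s k84 k87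
  0 (.s k165 k245 11 (.s k7 k244 12 (.s k3 k11 1 (.d k252 k168 k169 13 14)))))), (.s k5 k10 2 (.s
  k106 k64 6 (.s k101 k96 2 (.s k165 k245 11 (.s k224 k47 10 (.d k229 k234 k37 2 7))))))] .n) .n)))
  (.c k239 (.q k223 [(.s k5 k10 2 (.s k154 k16 10 (.d k165 k176 k245 6 11))), (.s k64 k106 6 (.s k79
  k95 3 (.s k74 k69 2 (.d k192 k128 k133 7 10))))] .n) .n))) .n))))) .n))) (.c k240 (.l (.s k5 k10 2
  (.s k84 k87 0 (.s k252 k168 13 (.s k3 k169 14 (.s k7 k11 1 (.d k165 k245 k244 11 12))))))) .n)))))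
  .n)))))))))))))

def t63_191 : T TT 256 :=
  (.f k255 k170 14 (.q k195 [(.s k65 k130 8 (.s k105 k125 5 (.s k215 k235 5 (.d k150 k20 k60 8
  14))))] (.c k20 (.q k149 [(.s k65 k130 8 (.s k105 k125 5 (.s k213 k21 7 (.s k192 k234 6 (.d k193
  k194 k61 0 13))))), (.s k213 k21 7 (.s k215 k235 5 (.s k214 k212 0 (.s k234 k192 6 (.s k252 k233 6
  (.d k254 k253 k194 0 5)))))), (.s k65 k130 8 (.s k105 k125 5 (.s k193 k61 13 (.s k129 k1 7 (.s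
  k192 k194 0 (.s k64 k128 7 (.d k66 k67 k3 0 8))))))), (.s k65 k130 8 (.s k105 k125 5 (.s k193 k61
  13 (.s k1 k129 7 (.s k213 k21 7 (.d k253 k233 k169 5 13))))))] (.c k21 (.l (.s k65 k130 8 (.s k105
  k125 5 (.s k193 k61 13 (.s k1 k129 7 (.s k192 k194 0 (.s k213 k234 6 (.d k253 k233 k169 5
  13)))))))) (.c k105 (.l (.s k65 k130 8 (.s k213 k21 7 (.s k192 k234 6 (.s k193 k194 0 (.s k1 k129
  7 (.d k253 k233 k169 5 13))))))) .n))) (.c k60 (.f k130 k65 8 (.q k128 [(.s k129 k131 0 (.s k192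
  k64 7 (.s k194 k193 0 (.d k66 k2 k3 7 8)))), (.s k192 k64 7 (.s k193 k194 0 (.s k213 k234 6 (.s
  k215 k235 5 (.s k214 k212 0 (.d k233 k253 k252 5 6)))))), (.s k131 k129 0 (.s k215 k235 5 (.s k150
  k20 8 (.s k169 k188 6 (.s k1 k253 13 (.d k3 k2 k67 0 7))))))] (.c k61 (.q k62 [(.s k64 k192 7 (.s
  k106 k127 6 (.s k150 k194 13 (.d k215 k235 k20 5 8)))), (.s k131 k129 0 (.s k3 k67 7 (.s k1 k2 0
  (.s k87 k171 13 (.s k86 k84 0 (.d k169 k253 k252 13 14))))))] (.c k64 (.l (.s k129 k131 0 (.s k215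
  k235 5 (.s k150 k20 8 (.s k194 k106 13 (.s k66 k2 7 (.d k192 k193 k3 0 8))))))) .n)) (.c k62 (.q
  k61 [(.s k129 k131 0 (.s k192 k64 7 (.s k194 k193 0 (.d k66 k2 k3 7 8)))), (.s k192 k64 7 (.s k193
  k194 0 (.s k149 k105 13 (.d k213 k234 k21 6 7)))), (.s k131 k129 0 (.s k215 k235 5 (.s k150 k20 8
  (.s k169 k188 6 (.s k1 k253 13 (.d k3 k2 k67 0 7))))))] (.c k67 (.l (.s k129 k131 0 (.s k192 k64 7
  (.s k66 k3 8 (.d k194 k193 k2 0 7))))) (.c k193 (.l (.s k129 k131 0 (.s k192 k64 7 (.s k213 k234 6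
  (.s k21 k149 7 (.s k1 k41 5 (.d k3 k66 k2 8 0))))))) .n))) (.c k67 (.l (.s k129 k131 0 (.s k192
  k64 7 (.s k66 k3 8 (.d k194 k193 k2 0 7))))) (.c k193 (.l (.s k129 k131 0 (.s k192 k64 7 (.s k213
  k234 6 (.s k149 k21 7 (.s k169 k189 5 (.s k1 k253 13 (.d k3 k66 k2 8 0)))))))) .n)))))) (.c k65
  (.f k235 k215 5 (.q k252 [(.s k233 k214 6 (.s k234 k232 0 (.s k213 k192 6 (.d k253 k254 k193 0
  5)))), (.s k84 k168 13 (.s k86 k87 0 (.s k169 k3 14 (.d k253 k254 k1 0 13)))), (.s k84 k168 13 (.s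
  k86 k87 0 (.s k169 k3 14 (.s k214 k233 6 (.s k150 k22 7 (.s k60 k105 14 (.d k188 k131 k124 6
  7)))))))] (.c k128 (.q k149 [(.s k213 k21 7 (.s k233 k214 6 (.d k234 k232 k192 0 6))), (.s k84
  k168 13 (.s k86 k87 0 (.s k169 k3 14 (.d k253 k254 k1 0 13))))] .n) (.c k149 (.q k128 [(.s k192
  k64 7 (.s k233 k214 6 (.d k232 k212 k234 5 0))), (.s k84 k168 13 (.s k86 k87 0 (.s k169 k3 14 (.d
  k253 k254 k1 0 13))))] (.c k106 (.l (.s k192 k64 7 (.s k232 k212 5 (.d k233 k214 k234 6 0)))) (.c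
  k192 (.q k106 [(.s k84 k168 13 (.s k86 k87 0 (.s k253 k254 0 (.d k169 k1 k3 13 14)))), (.s k168
  k84 13 (.s k188 k148 5 (.s k60 k124 7 (.s k233 k214 6 (.s k232 k234 0 (.d k40 k20 k104 5 7)))))),
  (.s k233 k214 6 (.s k253 k254 0 (.s k169 k1 13 (.d k232 k234 k43 0 8))))] (.c k254 (.l (.s k84
  k168 13 (.s k86 k87 0 (.s k169 k3 14 (.s k233 k214 6 (.d k232 k234 k43 0 8)))))) .n)) .n))) .n))))
  (.c k105 (.f k130 k65 8 (.f k235 k215 5 (.q k128 [(.s k129 k131 0 (.s k192 k64 7 (.s k66 k3 8 (.d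
  k194 k193 k2 0 7)))), (.s k192 k64 7 (.s k234 k213 6 (.s k233 k232 0 (.s k214 k252 6 (.d k194 k193
  k254 0 5))))), (.s k131 k129 0 (.s k3 k67 7 (.s k1 k2 0 (.s k87 k171 13 (.s k86 k84 0 (.d k169
  k253 k252 13 14))))))] (.c k64 (.q k66 [(.s k2 k194 7 (.s k3 k1 0 (.d k129 k131 k192 0 8))), (.s
  k129 k131 0 (.s k192 k3 8 (.s k194 k193 0 (.s k234 k213 6 (.s k233 k232 0 (.d k214 k254 k252 5
  6)))))), (.s k194 k2 7 (.s k192 k193 0 (.s k234 k213 6 (.s k233 k232 0 (.d k214 k254 k252 5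
  6))))), (.s k129 k131 0 (.s k3 k192 8 (.s k1 k2 0 (.s k169 k253 13 (.s k86 k252 14 (.d k87 k171
  k84 13 0))))))] (.c k129 (.l (.s k2 k194 7 (.s k1 k3 0 (.s k253 k169 13 (.s k252 k254 0 (.s k233
  k214 6 (.s k234 k232 0 (.d k213 k193 k192 5 6)))))))) (.c k192 (.l (.s k2 k194 7 (.s k3 k1 0 (.d
  k131 k129 k67 0 7)))) .n))) (.c k66 (.l (.s k64 k192 7 (.s k131 k129 0 (.s k3 k67 7 (.s k1 k2 0
  (.s k87 k171 13 (.s k86 k84 0 (.d k169 k253 k252 13 14)))))))) (.c k67 (.l (.s k129 k131 0 (.s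
  k192 k64 7 (.s k66 k3 8 (.d k194 k193 k2 0 7))))) (.c k193 (.l (.s k129 k131 0 (.s k192 k64 7 (.s
  k66 k3 8 (.s k194 k2 7 (.s k234 k213 6 (.s k233 k232 0 (.d k214 k254 k252 5 6)))))))) .n)))))))
  (.c k125 (.q k128 [(.s k130 k65 8 (.s k129 k131 0 (.s k192 k64 7 (.s k194 k193 0 (.d k66 k2 k3 7
  8))))), (.s k192 k64 7 (.s k193 k194 0 (.s k213 k234 6 (.s k215 k235 5 (.s k214 k212 0 (.d k233
  k253 k252 5 6)))))), (.s k130 k65 8 (.s k131 k129 0 (.s k215 k235 5 (.s k150 k20 8 (.s k169 k188 6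
  (.s k1 k253 13 (.d k3 k2 k67 0 7)))))))] (.c k193 (.l (.s k192 k64 7 (.s k213 k234 6 (.s k149 k21
  7 (.s k215 k235 5 (.s k150 k20 8 (.s k148 k151 0 (.d k60 k105 k104 14 13)))))))) .n)) (.c k128 (.q
  k149 [(.s k65 k130 8 (.s k105 k125 5 (.s k215 k235 5 (.d k150 k20 k60 8 14)))), (.s k213 k21 7 (.s
  k192 k234 6 (.s k193 k194 0 (.s k105 k61 13 (.d k65 k125 k130 5 8))))), (.s k21 k213 7 (.s k215
  k235 5 (.s k20 k150 8 (.s k23 k22 0 (.s k86 k212 8 (.d k87 k84 k151 0 7))))))] (.c k105 (.l (.s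
  k65 k130 8 (.s k213 k21 7 (.s k192 k234 6 (.s k193 k194 0 (.s k253 k233 5 (.d k1 k129 k169 7
  13))))))) (.c k130 (.l (.s k213 k21 7 (.s k192 k234 6 (.s k193 k194 0 (.s k105 k61 13 (.s k125 k65
  5 (.d k60 k190 k150 8 14))))))) .n))) (.c k130 (.f k215 k235 5 (.q k149 [(.s k150 k20 8 (.s k151
  k148 0 (.s k23 k87 7 (.s k212 k86 8 (.d k213 k214 k21 0 7))))), (.s k150 k20 8 (.s k105 k60 14 (.s
  k213 k21 7 (.s k192 k234 6 (.d k193 k61 k194 13 0))))), (.s k213 k21 7 (.s k192 k234 6 (.s k193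
  k194 0 (.s k214 k212 0 (.d k233 k253 k252 5 6)))))] (.c k21 (.f k150 k20 8 (.l (.s k105 k60 14 (.s
  k61 k193 13 (.s k125 k65 5 (.s k253 k189 7 (.s k252 k254 0 (.s k233 k214 6 (.d k169 k1 k41 13
  7))))))))) (.c k40 (.q k105 [(.d k150 k20 k60 8 14), (.s k213 k21 7 (.s k192 k234 6 (.d k193 k194
  k61 0 13)))] (.c k150 (.q k190 [(.d k125 k65 k60 5 8), (.s k213 k21 7 (.s k192 k234 6 (.d k193
  k194 k61 0 13)))] .n) (.c k190 (.l (.d k150 k20 k60 8 14)) .n))) (.c k105 (.q k40 [(.d k20 k150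
  k60 8 5), (.s k213 k21 7 (.s k192 k234 6 (.s k193 k194 0 (.s k214 k212 0 (.d k233 k253 k252 5
  6)))))] (.c k150 (.q k190 [(.d k60 k20 k125 5 8), (.s k213 k21 7 (.s k192 k234 6 (.s k193 k194 0
  (.s k214 k212 0 (.d k233 k253 k252 5 6)))))] .n) (.c k190 (.l (.s k150 k20 8 (.s k151 k148 0 (.s
  k23 k87 7 (.s k212 k86 8 (.d k213 k214 k21 0 7)))))) .n))) (.c k150 (.q k190 [(.s k213 k21 7 (.s
  k214 k212 0 (.s k234 k192 6 (.s k252 k233 6 (.d k254 k253 k194 0 5))))), (.s k21 k213 7 (.s k125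
  k60 8 (.s k105 k65 5 (.s k61 k193 13 (.s k1 k41 5 (.d k253 k189 k169 7 13)))))), (.s k125 k60 8
  (.s k105 k65 5 (.s k61 k193 13 (.s k253 k189 7 (.s k252 k254 0 (.s k233 k214 6 (.d k169 k1 k41 13
  7)))))))] (.c k40 (.q k105 [(.d k125 k65 k60 5 8), (.s k213 k21 7 (.s k192 k234 6 (.d k193 k194
  k61 0 13)))] .n) (.c k105 (.q k40 [(.d k60 k20 k125 5 8), (.s k213 k21 7 (.s k192 k234 6 (.s k193
  k194 0 (.s k214 k212 0 (.d k233 k253 k252 5 6)))))] .n) (.c k233 (.l (.s k21 k213 7 (.s k125 k60 8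
  (.s k105 k65 5 (.s k61 k193 13 (.s k253 k189 7 (.d k1 k41 k169 5 13))))))) (.c k253 (.l (.s k125
  k60 8 (.s k105 k65 5 (.s k213 k21 7 (.s k192 k234 6 (.d k193 k61 k194 13 0)))))) .n))))) (.c k190
  (.l (.s k150 k20 8 (.s k105 k60 14 (.s k213 k21 7 (.s k192 k234 6 (.d k193 k61 k194 13 0)))))) (.c
  k213 (.l (.s k150 k20 8 (.s k105 k60 14 (.s k151 k148 0 (.s k87 k23 7 (.s k3 k171 13 (.s k67 k131
  7 (.d k86 k84 k124 0 6)))))))) .n)))))))) (.c k149 (.q k128 [(.s k65 k130 8 (.s k105 k125 5 (.s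
  k215 k235 5 (.d k150 k20 k60 8 14)))), (.s k130 k65 8 (.s k129 k131 0 (.s k192 k64 7 (.s k66 k3 8
  (.d k194 k193 k2 0 7))))), (.s k192 k64 7 (.s k193 k194 0 (.s k213 k234 6 (.s k215 k235 5 (.s k214
  k212 0 (.d k233 k253 k252 5 6))))))] (.c k106 (.l (.s k192 k64 7 (.s k65 k130 8 (.s k105 k125 5
  (.s k150 k60 14 (.d k215 k235 k20 5 8)))))) (.c k192 (.q k106 [(.s k65 k130 8 (.s k105 k125 5 (.s
  k215 k235 5 (.d k150 k20 k60 8 14)))), (.s k130 k65 8 (.s k131 k129 0 (.s k3 k67 7 (.s k1 k2 0 (.s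
  k87 k171 13 (.s k86 k84 0 (.d k169 k253 k252 13 14)))))))] (.c k65 (.q k1 [(.s k3 k2 0 (.s k67
  k131 7 (.s k127 k64 6 (.d k87 k171 k107 13 5)))), (.s k169 k253 13 (.s k43 k232 8 (.s k235 k215 5
  (.s k171 k107 7 (.d k3 k2 k87 0 13))))), (.s k215 k235 5 (.s k20 k150 8 (.s k253 k169 13 (.s k252
  k254 0 (.s k214 k233 6 (.s k212 k213 0 (.d k84 k148 k168 7 13)))))))] (.c k2 (.l (.s k169 k253 13
  (.s k215 k235 5 (.s k150 k20 8 (.s k131 k188 6 (.s k3 k67 7 (.s k86 k252 14 (.d k87 k84 k171 0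
  13)))))))) (.c k171 (.l (.s k3 k2 0 (.s k131 k67 7 (.s k169 k253 13 (.s k150 k188 6 (.d k215 k235
  k20 5 8)))))) .n))) (.c k130 (.f k64 k127 6 (.l (.s k215 k235 5 (.s k150 k20 8 (.s k105 k60 14 (.s
  k65 k125 5 (.s k67 k66 0 (.s k104 k107 0 (.d k124 k84 k86 5 6))))))))) .n))) .n))) (.c k150 (.f
  k235 k215 5 (.f k130 k65 8 (.q k128 [(.s k192 k64 7 (.s k194 k193 0 (.s k66 k2 7 (.d k129 k131 k3
  0 8)))), (.s k192 k64 7 (.s k234 k213 6 (.s k233 k232 0 (.s k214 k252 6 (.d k194 k193 k254 0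
  5))))), (.s k131 k129 0 (.s k3 k67 7 (.s k1 k2 0 (.s k87 k171 13 (.s k86 k84 0 (.d k169 k253 k252
  13 14))))))] (.c k64 (.q k66 [(.s k2 k194 7 (.s k3 k1 0 (.d k129 k131 k192 0 8))), (.s k129 k131 0
  (.s k192 k3 8 (.s k194 k193 0 (.s k234 k213 6 (.s k233 k232 0 (.d k214 k254 k252 5 6)))))), (.s
  k194 k2 7 (.s k192 k193 0 (.s k234 k213 6 (.s k233 k232 0 (.d k214 k254 k252 5 6))))), (.s k129
  k131 0 (.s k3 k192 8 (.s k1 k2 0 (.s k169 k253 13 (.s k86 k252 14 (.d k87 k171 k84 13 0))))))] (.c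
  k129 (.l (.s k2 k194 7 (.s k1 k3 0 (.s k253 k169 13 (.s k252 k254 0 (.s k233 k214 6 (.s k234 k232
  0 (.d k213 k193 k192 5 6)))))))) (.c k192 (.l (.s k2 k194 7 (.s k3 k1 0 (.d k131 k129 k67 0 7))))
  .n))) (.c k66 (.l (.s k64 k192 7 (.s k131 k129 0 (.s k3 k67 7 (.s k1 k2 0 (.s k87 k171 13 (.s k86
  k84 0 (.d k169 k253 k252 13 14)))))))) (.c k67 (.l (.s k129 k131 0 (.s k192 k64 7 (.s k66 k3 8 (.d
  k194 k193 k2 0 7))))) (.c k193 (.l (.s k129 k131 0 (.s k192 k64 7 (.s k66 k3 8 (.s k194 k2 7 (.s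
  k234 k213 6 (.s k233 k232 0 (.d k214 k254 k252 5 6)))))))) (.c k254 (.l (.s k129 k131 0 (.s k192
  k64 7 (.s k66 k3 8 (.d k194 k193 k2 0 7))))) .n)))))))) (.c k190 (.l (.s k215 k235 5 (.s k65 k130
  8 (.s k150 k20 8 (.d k105 k125 k60 5 14))))) (.c k215 (.q k149 [(.s k65 k130 8 (.s k105 k125 5 (.s
  k213 k21 7 (.s k192 k234 6 (.d k193 k194 k61 0 13))))), (.s k65 k130 8 (.s k105 k125 5 (.s k193
  k61 13 (.s k1 k129 7 (.s k213 k21 7 (.d k253 k233 k169 5 13)))))), (.s k213 k21 7 (.s k192 k234 6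
  (.s k193 k194 0 (.s k61 k105 13 (.s k253 k233 5 (.s k169 k1 13 (.d k189 k129 k125 5 7))))))), (.s
  k65 k130 8 (.s k213 k21 7 (.s k192 k234 6 (.s k193 k194 0 (.s k1 k129 7 (.d k253 k233 k169 5
  13))))))] (.c k21 (.l (.s k65 k130 8 (.s k105 k125 5 (.s k193 k61 13 (.s k1 k129 7 (.s k192 k194 0
  (.s k213 k234 6 (.d k253 k233 k169 5 13)))))))) (.c k193 (.q k1 [(.s k3 k2 0 (.s k87 k171 13 (.s
  k86 k84 0 (.d k169 k253 k252 13 14)))), (.s k21 k213 7 (.s k41 k61 5 (.s k65 k130 8 (.s k105 k125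
  5 (.d k169 k233 k253 7 13))))), (.s k3 k2 0 (.s k65 k130 8 (.s k67 k131 7 (.s k66 k64 0 (.s k213
  k21 7 (.d k192 k129 k234 8 6))))))] .n) (.c k213 (.l (.s k65 k130 8 (.s k105 k125 5 (.s k193 k61
  13 (.s k129 k1 7 (.s k192 k194 0 (.s k64 k128 7 (.d k66 k67 k3 0 8)))))))) .n)))) (.c k235 (.f k65
  k130 8 (.f k105 k125 5 (.q k149 [(.s k213 k21 7 (.s k192 k234 6 (.d k193 k194 k61 0 13))), (.s k21
  k213 7 (.s k150 k60 14 (.s k20 k215 8 (.s k23 k22 0 (.s k148 k151 0 (.d k212 k84 k86 7 8))))))]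
  (.c k21 (.l (.s k193 k61 13 (.s k1 k129 7 (.s k192 k194 0 (.s k213 k234 6 (.d k253 k233 k169 5
  13)))))) (.c k61 (.l (.s k213 k21 7 (.s k192 k234 6 (.s k193 k194 0 (.s k1 k129 7 (.d k253 k233
  k169 5 13)))))) (.c k150 (.q k190 [(.s k213 k21 7 (.s k192 k234 6 (.d k193 k194 k61 0 13))), (.s
  k193 k61 13 (.s k1 k129 7 (.s k213 k21 7 (.d k253 k233 k169 5 13)))), (.s k213 k21 7 (.s k192 k234
  6 (.s k64 k128 7 (.s k67 k66 0 (.s k86 k124 6 (.s k87 k84 0 (.d k3 k131 k171 7 13))))))), (.s k193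
  k61 13 (.s k129 k1 7 (.s k192 k194 0 (.s k64 k128 7 (.d k66 k67 k3 0 8)))))] (.c k21 (.l (.s k193
  k61 13 (.s k1 k129 7 (.s k192 k194 0 (.s k213 k234 6 (.d k253 k233 k169 5 13)))))) .n)) (.c k190
  (.l (.s k150 k60 14 (.s k213 k21 7 (.s k192 k234 6 (.d k193 k61 k194 13 0))))) (.c k213 (.l (.s
  k193 k61 13 (.s k129 k1 7 (.s k192 k194 0 (.s k64 k128 7 (.d k66 k67 k3 0 8)))))) .n))))))))
  .n))))))))))))))

def t63_234 : T TT 256 :=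
  (.q k89 [(.s k81 k93 1 (.s k243 k162 12 (.s k12 k166 14 (.s k8 k4 1 (.d k170 k251 k255 12 14)))))]
  (.c k4 (.q k1 [(.s k81 k93 1 (.s k169 k253 13 (.s k9 k249 11 (.s k13 k5 1 (.d k241 k161 k165 11
  13))))), (.s k3 k2 0 (.s k169 k253 13 (.s k86 k252 14 (.s k87 k84 0 (.d k255 k171 k170 13 14))))),
  (.s k3 k2 0 (.s k81 k93 1 (.s k161 k241 11 (.s k82 k240 12 (.s k83 k80 0 (.d k243 k163 k162 11
  12))))))] .n) (.c k8 (.l (.s k81 k93 1 (.s k243 k162 12 (.s k166 k12 14 (.s k247 k4 12 (.d k255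
  k251 k170 1 14)))))) (.c k12 (.f k93 k81 1 (.q k69 [(.s k101 k117 3 (.s k77 k113 5 (.s k125 k109 3
  (.d k65 k73 k105 1 5)))), (.s k101 k117 3 (.s k170 k255 14 (.s k32 k239 10 (.s k48 k16 3 (.d k207
  k138 k154 10 14))))), (.s k138 k207 10 (.s k170 k255 14 (.s k8 k251 12 (.s k73 k203 8 (.s k105
  k121 3 (.d k65 k77 k125 1 5))))))] (.c k29 (.q k46 [(.s k101 k117 3 (.s k77 k113 5 (.s k125 k109 3
  (.d k65 k73 k105 1 5)))), (.s k101 k117 3 (.s k170 k255 14 (.s k32 k239 10 (.s k48 k16 3 (.d k207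
  k138 k154 10 14))))), (.s k138 k207 10 (.s k170 k255 14 (.s k8 k251 12 (.s k73 k203 8 (.s k105
  k121 3 (.d k65 k77 k125 1 5))))))] .n) (.c k46 (.q k29 [(.s k101 k117 3 (.s k77 k113 5 (.s k125
  k109 3 (.d k65 k73 k105 1 5)))), (.s k149 k209 9 (.s k21 k213 7 (.s k17 k25 1 (.d k221 k157 k153 7
  9))))] .n) .n)))) (.c k81 (.q k1 [(.s k3 k2 0 (.s k169 k253 13 (.s k86 k252 14 (.s k87 k84 0 (.d
  k255 k171 k170 13 14))))), (.s k3 k2 0 (.s k169 k253 13 (.s k9 k249 11 (.s k12 k6 2 (.s k4 k8 1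
  (.d k166 k247 k243 12 14)))))), (.s k169 k253 13 (.s k9 k249 11 (.s k5 k13 1 (.s k10 k15 2 (.s
  k170 k255 14 (.d k8 k11 k251 0 12)))))), (.s k3 k2 0 (.s k170 k255 14 (.s k8 k251 12 (.s k12 k4 1
  (.s k9 k6 2 (.s k5 k13 1 (.d k10 k11 k15 0 2)))))))] .n) (.c k93 (.q k1 [(.s k3 k2 0 (.s k255 k170
  14 (.s k87 k171 13 (.s k86 k84 0 (.d k169 k253 k252 13 14))))), (.s k3 k2 0 (.s k169 k253 13 (.s
  k9 k249 11 (.s k12 k6 2 (.s k4 k8 1 (.d k166 k247 k243 12 14)))))), (.s k169 k253 13 (.s k9 k249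
  11 (.s k170 k255 14 (.s k8 k251 12 (.s k10 k11 0 (.d k5 k13 k15 1 2)))))), (.s k3 k2 0 (.s k170
  k255 14 (.s k8 k251 12 (.s k12 k4 1 (.s k9 k6 2 (.s k10 k11 0 (.d k5 k13 k15 1 2)))))))] .n) (.c
  k162 (.l (.s k93 k81 1 (.s k255 k170 14 (.s k12 k174 12 (.s k166 k243 14 (.d k4 k8 k247 1 12))))))
  (.c k166 (.q k1 [(.s k81 k93 1 (.s k169 k253 13 (.s k9 k249 11 (.s k13 k5 1 (.d k241 k161 k165 11
  13))))), (.s k3 k2 0 (.s k169 k253 13 (.s k86 k252 14 (.s k87 k84 0 (.d k255 k171 k170 13 14))))),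
  (.s k3 k2 0 (.s k81 k93 1 (.s k161 k241 11 (.s k82 k240 12 (.s k83 k80 0 (.d k243 k163 k162 11
  12))))))] .n) (.c k170 (.f k81 k93 1 (.q k101 [(.s k113 k77 5 (.s k65 k97 3 (.s k117 k69 3 (.d
  k125 k121 k105 1 5)))), (.s k69 k117 3 (.s k207 k138 10 (.s k154 k48 14 (.s k219 k24 8 (.d k243
  k231 k162 5 12))))), (.s k113 k77 5 (.s k243 k162 12 (.s k48 k178 8 (.s k16 k32 3 (.d k154 k223
  k207 10 14)))))] (.c k42 (.q k106 [(.s k113 k77 5 (.s k65 k97 3 (.s k117 k69 3 (.d k125 k121 k105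
  1 5)))), (.s k64 k127 6 (.s k72 k123 4 (.s k76 k68 1 (.d k115 k98 k102 4 6))))] .n) (.c k106 (.q
  k42 [(.s k113 k77 5 (.s k65 k97 3 (.s k117 k69 3 (.d k125 k121 k105 1 5)))), (.s k69 k117 3 (.s
  k207 k138 10 (.s k154 k48 14 (.s k219 k24 8 (.d k243 k231 k162 5 12))))), (.s k113 k77 5 (.s k243
  k162 12 (.s k48 k178 8 (.s k16 k32 3 (.d k154 k223 k207 10 14)))))] (.c k149 (.q k192 [(.s k113
  k77 5 (.s k65 k97 3 (.s k117 k69 3 (.d k125 k121 k105 1 5)))), (.s k69 k117 3 (.s k207 k138 10 (.s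
  k154 k48 14 (.s k219 k24 8 (.d k243 k231 k162 5 12))))), (.s k113 k77 5 (.s k243 k162 12 (.s k48
  k178 8 (.s k16 k32 3 (.d k154 k223 k207 10 14)))))] (.c k128 (.q k191 [(.s k113 k77 5 (.s k65 k97
  3 (.s k117 k69 3 (.d k125 k121 k105 1 5)))), (.s k69 k117 3 (.s k207 k138 10 (.s k154 k48 14 (.s
  k219 k24 8 (.d k243 k231 k162 5 12))))), (.s k113 k77 5 (.s k243 k162 12 (.s k48 k178 8 (.s k16
  k32 3 (.d k154 k223 k207 10 14)))))] .n) (.c k191 (.l (.s k128 k64 7 (.s k113 k77 5 (.s k65 k97 3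
  (.s k117 k69 3 (.d k125 k121 k105 1 5)))))) .n))) (.c k192 (.q k149 [(.s k113 k77 5 (.s k65 k97 3
  (.s k117 k69 3 (.d k125 k121 k105 1 5)))), (.s k209 k29 9 (.s k17 k145 7 (.s k213 k21 7 (.d k221
  k217 k153 1 9))))] (.c k213 (.q k255 [(.s k243 k162 12 (.s k247 k251 1 (.d k166 k4 k12 12 14))),
  (.s k69 k117 3 (.s k207 k138 10 (.s k154 k48 14 (.d k223 k239 k16 3 10))))] .n) (.c k255 (.l (.s
  k213 k21 7 (.s k209 k29 9 (.s k17 k145 7 (.d k221 k217 k153 1 9))))) .n))) .n))) .n)))) (.c k174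
  (.l (.s k81 k93 1 (.s k243 k162 12 (.s k12 k166 14 (.s k170 k255 14 (.d k8 k4 k251 1 12)))))) (.c
  k243 (.f k81 k93 1 (.q k65 [(.s k105 k125 5 (.s k113 k97 3 (.s k77 k101 5 (.d k73 k69 k121 1
  3)))), (.s k195 k130 8 (.s k255 k170 14 (.s k215 k235 5 (.s k150 k20 8 (.d k105 k125 k60 5
  14)))))] (.c k105 (.l (.s k113 k97 3 (.s k101 k77 5 (.s k69 k117 3 (.s k170 k255 14 (.s k32 k239
  10 (.s k48 k16 3 (.d k207 k138 k154 10 14)))))))) (.c k123 (.q k183 [(.s k105 k125 5 (.s k113 k97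
  3 (.s k77 k101 5 (.d k73 k69 k121 1 3)))), (.s k195 k130 8 (.s k255 k170 14 (.s k215 k235 5 (.s
  k150 k20 8 (.d k105 k125 k60 5 14)))))] (.c k105 (.l (.s k113 k97 3 (.s k101 k77 5 (.s k69 k117 3
  (.s k170 k255 14 (.s k32 k239 10 (.s k48 k16 3 (.d k207 k138 k154 10 14)))))))) (.c k125 (.l (.s
  k97 k113 3 (.s k195 k130 8 (.s k255 k170 14 (.s k215 k235 5 (.s k150 k20 8 (.s k211 k28 10 (.d
  k146 k16 k48 8 12)))))))) .n))) (.c k125 (.l (.s k97 k113 3 (.s k195 k130 8 (.s k255 k170 14 (.s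
  k215 k235 5 (.s k150 k20 8 (.s k211 k28 10 (.d k146 k16 k48 8 12)))))))) (.c k183 (.q k123 [(.s
  k105 k125 5 (.s k113 k97 3 (.s k77 k101 5 (.d k73 k69 k121 1 3)))), (.s k195 k130 8 (.s k255 k170
  14 (.s k215 k235 5 (.s k150 k20 8 (.d k105 k125 k60 5 14))))), (.s k97 k113 3 (.s k106 k72 4 (.s
  k64 k127 6 (.s k67 k66 0 (.s k82 k112 4 (.s k83 k80 0 (.d k115 k99 k98 3 4)))))))] .n) .n))))))
  (.c k251 (.l (.s k93 k81 1 (.s k255 k170 14 (.s k12 k174 12 (.s k4 k8 1 (.d k166 k247 k243 12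
  14)))))) (.c k255 (.q k101 [(.s k77 k113 5 (.s k93 k81 1 (.s k125 k109 3 (.s k65 k105 5 (.d k69
  k73 k117 1 3))))), (.s k69 k117 3 (.s k81 k93 1 (.s k207 k138 10 (.s k243 k162 12 (.s k219 k231 5
  (.d k154 k48 k24 14 8)))))), (.s k81 k93 1 (.s k113 k77 5 (.s k243 k162 12 (.s k48 k178 8 (.s k16
  k32 3 (.d k154 k223 k207 10 14)))))), (.s k69 k117 3 (.s k77 k113 5 (.s k207 k138 10 (.s k12 k142
  8 (.s k4 k8 1 (.d k166 k247 k243 12 14))))))] (.c k127 (.q k191 [(.s k77 k113 5 (.s k93 k81 1 (.s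
  k125 k109 3 (.s k65 k105 5 (.d k69 k73 k117 1 3))))), (.s k69 k117 3 (.s k81 k93 1 (.s k207 k138
  10 (.s k243 k162 12 (.s k219 k231 5 (.d k154 k48 k24 14 8)))))), (.s k81 k93 1 (.s k113 k77 5 (.s
  k243 k162 12 (.s k48 k178 8 (.s k16 k32 3 (.d k154 k223 k207 10 14)))))), (.s k69 k117 3 (.s k77
  k113 5 (.s k207 k138 10 (.s k12 k142 8 (.s k4 k8 1 (.d k166 k247 k243 12 14))))))] (.c k192 (.q
  k213 [(.s k77 k113 5 (.s k93 k81 1 (.s k125 k109 3 (.s k65 k105 5 (.d k69 k73 k117 1 3))))), (.s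
  k69 k117 3 (.s k149 k21 7 (.s k197 k53 11 (.s k5 k133 7 (.d k245 k229 k165 3 11))))), (.s k81 k93
  1 (.s k149 k21 7 (.s k209 k29 9 (.s k17 k145 7 (.d k221 k217 k153 1 9)))))] (.c k106 (.l (.s k149
  k21 7 (.s k69 k117 3 (.s k197 k53 11 (.s k5 k133 7 (.d k245 k229 k165 3 11)))))) (.c k149 (.q k106
  [(.s k77 k113 5 (.s k93 k81 1 (.s k125 k109 3 (.s k65 k105 5 (.d k69 k73 k117 1 3))))), (.s k69
  k117 3 (.s k81 k93 1 (.s k207 k138 10 (.s k243 k162 12 (.s k219 k231 5 (.d k154 k48 k24 14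
  8)))))), (.s k81 k93 1 (.s k113 k77 5 (.s k243 k162 12 (.s k48 k178 8 (.s k16 k32 3 (.d k154 k223
  k207 10 14)))))), (.s k69 k117 3 (.s k77 k113 5 (.s k207 k138 10 (.s k12 k142 8 (.s k4 k8 1 (.d
  k166 k247 k243 12 14))))))] .n) .n))) (.c k213 (.q k192 [(.s k77 k113 5 (.s k93 k81 1 (.s k125
  k109 3 (.s k65 k105 5 (.d k69 k73 k117 1 3))))), (.s k69 k117 3 (.s k128 k64 7 (.s k149 k170 6 (.s
  k197 k53 11 (.d k207 k202 k138 2 10))))), (.s k81 k93 1 (.s k128 k64 7 (.s k149 k170 6 (.s k209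
  k29 9 (.d k243 k226 k162 4 12)))))] .n) .n))) (.c k191 (.q k127 [(.s k69 k117 3 (.s k77 k113 5 (.s
  k65 k73 1 (.s k93 k81 1 (.d k125 k109 k105 3 5))))), (.s k64 k106 6 (.s k81 k93 1 (.s k115 k98 4
  (.s k102 k76 6 (.d k119 k123 k68 1 4))))), (.s k64 k106 6 (.s k69 k117 3 (.s k79 k74 2 (.s k90
  k112 6 (.d k95 k80 k111 2 3)))))] (.c k192 (.q k213 [(.s k77 k113 5 (.s k93 k81 1 (.s k125 k109 3
  (.s k65 k105 5 (.d k69 k73 k117 1 3))))), (.s k69 k117 3 (.s k149 k21 7 (.s k197 k53 11 (.s k5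
  k133 7 (.d k245 k229 k165 3 11))))), (.s k81 k93 1 (.s k149 k21 7 (.s k209 k29 9 (.s k17 k145 7
  (.d k221 k217 k153 1 9)))))] (.c k106 (.l (.s k149 k21 7 (.s k69 k117 3 (.s k197 k53 11 (.s k5
  k133 7 (.d k245 k229 k165 3 11)))))) (.c k149 (.l (.s k106 k64 6 (.s k93 k81 1 (.s k76 k110 4 (.s
  k115 k102 6 (.d k123 k119 k72 1 4)))))) .n))) (.c k213 (.q k192 [(.d k64 k106 k128 6 7), (.s k69
  k117 3 (.s k77 k113 5 (.s k65 k73 1 (.s k93 k81 1 (.d k125 k109 k105 3 5)))))] .n) .n))) (.c k192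
  (.q k213 [(.s k77 k113 5 (.s k93 k81 1 (.s k125 k109 3 (.s k65 k105 5 (.d k69 k73 k117 1 3))))),
  (.s k69 k117 3 (.s k149 k21 7 (.s k197 k53 11 (.s k5 k133 7 (.d k245 k229 k165 3 11))))), (.s k81
  k93 1 (.s k149 k21 7 (.s k209 k29 9 (.s k17 k145 7 (.d k221 k217 k153 1 9)))))] (.c k106 (.l (.s
  k149 k21 7 (.s k69 k117 3 (.s k197 k53 11 (.s k5 k133 7 (.d k245 k229 k165 3 11)))))) (.c k127 (.q
  k191 [(.s k77 k113 5 (.s k93 k81 1 (.s k125 k109 3 (.s k65 k105 5 (.d k69 k73 k117 1 3))))), (.s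
  k69 k117 3 (.s k149 k21 7 (.s k197 k53 11 (.s k5 k133 7 (.d k245 k229 k165 3 11))))), (.s k81 k93
  1 (.s k149 k21 7 (.s k209 k29 9 (.s k17 k145 7 (.d k221 k217 k153 1 9)))))] (.c k106 (.l (.s k149
  k21 7 (.s k69 k117 3 (.s k197 k53 11 (.s k5 k133 7 (.d k245 k229 k165 3 11)))))) (.c k149 (.q k106
  [(.s k77 k113 5 (.s k93 k81 1 (.s k125 k109 3 (.s k65 k105 5 (.d k69 k73 k117 1 3))))), (.s k69
  k117 3 (.s k81 k93 1 (.s k207 k138 10 (.s k243 k162 12 (.s k219 k231 5 (.d k154 k48 k24 14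
  8)))))), (.s k81 k93 1 (.s k113 k77 5 (.s k243 k162 12 (.s k48 k178 8 (.s k16 k32 3 (.d k154 k223
  k207 10 14)))))), (.s k69 k117 3 (.s k77 k113 5 (.s k207 k138 10 (.s k12 k142 8 (.s k4 k8 1 (.d
  k166 k247 k243 12 14))))))] .n) .n))) (.c k149 (.q k106 [(.s k69 k117 3 (.s k77 k113 5 (.s k65 k73
  1 (.s k93 k81 1 (.d k125 k109 k105 3 5))))), (.s k93 k81 1 (.s k123 k72 4 (.s k127 k64 6 (.s k76
  k110 4 (.d k115 k119 k102 1 6))))), (.s k111 k96 2 (.s k117 k69 3 (.s k127 k64 6 (.s k79 k95 3 (.d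
  k112 k122 k90 2 6)))))] (.c k127 (.q k191 [(.s k77 k113 5 (.s k93 k81 1 (.s k125 k109 3 (.s k65
  k105 5 (.d k69 k73 k117 1 3))))), (.s k69 k117 3 (.s k81 k93 1 (.s k207 k138 10 (.s k243 k162 12
  (.s k219 k231 5 (.d k154 k48 k24 14 8)))))), (.s k81 k93 1 (.s k113 k77 5 (.s k243 k162 12 (.s k48
  k178 8 (.s k16 k32 3 (.d k154 k223 k207 10 14)))))), (.s k69 k117 3 (.s k77 k113 5 (.s k207 k138
  10 (.s k12 k142 8 (.s k4 k8 1 (.d k166 k247 k243 12 14))))))] .n) (.c k191 (.l (.s k127 k64 6 (.s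
  k93 k81 1 (.s k76 k110 4 (.s k115 k102 6 (.d k123 k119 k72 1 4)))))) .n))) (.c k191 (.q k127 [(.s
  k77 k113 5 (.s k93 k81 1 (.s k125 k109 3 (.s k65 k105 5 (.d k69 k73 k117 1 3))))), (.s k69 k117 3
  (.s k149 k21 7 (.s k197 k53 11 (.s k5 k133 7 (.d k245 k229 k165 3 11))))), (.s k81 k93 1 (.s k149
  k21 7 (.s k209 k29 9 (.s k17 k145 7 (.d k221 k217 k153 1 9)))))] (.c k106 (.l (.s k149 k21 7 (.s
  k69 k117 3 (.s k197 k53 11 (.s k5 k133 7 (.d k245 k229 k165 3 11)))))) (.c k149 (.l (.s k106 k64 6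
  (.s k93 k81 1 (.s k76 k110 4 (.s k115 k102 6 (.d k123 k119 k72 1 4)))))) .n))) .n))))) (.c k213
  (.q k192 [(.s k77 k113 5 (.s k93 k81 1 (.s k125 k109 3 (.s k65 k105 5 (.d k69 k73 k117 1 3))))),
  (.s k64 k128 7 (.s k69 k117 3 (.s k74 k79 2 (.s k15 k133 10 (.s k10 k5 2 (.d k138 k202 k207 7
  10)))))), (.s k64 k128 7 (.s k81 k93 1 (.s k98 k115 4 (.s k51 k145 12 (.s k34 k17 4 (.d k162 k226
  k243 7 12))))))] (.c k127 (.q k191 [(.s k77 k113 5 (.s k93 k81 1 (.s k125 k109 3 (.s k65 k105 5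
  (.d k69 k73 k117 1 3))))), (.s k69 k117 3 (.s k128 k64 7 (.s k149 k170 6 (.s k197 k53 11 (.d k207
  k202 k138 2 10))))), (.s k81 k93 1 (.s k128 k64 7 (.s k149 k170 6 (.s k209 k29 9 (.d k243 k226
  k162 4 12)))))] .n) (.c k191 (.q k127 [(.d k64 k106 k128 6 7), (.s k69 k117 3 (.s k77 k113 5 (.s
  k65 k73 1 (.s k93 k81 1 (.d k125 k109 k105 3 5)))))] .n) .n))) .n))))) .n)))))))))))))

def t63_235 : T TT 256 :=
  (.q k86 [(.s k84 k87 0 (.s k252 k168 13 (.s k3 k169 14 (.s k2 k1 0 (.d k170 k254 k255 13 14)))))]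
  (.c k1 (.q k4 [(.s k84 k87 0 (.s k166 k247 12 (.s k6 k246 11 (.s k7 k5 0 (.d k244 k164 k165 11
  12))))), (.s k12 k8 1 (.s k166 k247 12 (.s k89 k243 14 (.s k93 k81 1 (.d k255 k174 k170 12
  14))))), (.s k12 k8 1 (.s k84 k87 0 (.s k164 k244 11 (.s k88 k240 13 (.s k92 k80 1 (.d k252 k172
  k168 11 13))))))] .n) (.c k2 (.l (.s k84 k87 0 (.s k252 k168 13 (.s k169 k3 14 (.s k253 k1 13 (.d
  k255 k254 k170 0 14)))))) (.c k3 (.f k87 k84 0 (.q k69 [(.s k101 k117 3 (.s k71 k116 4 (.s k119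
  k103 3 (.d k68 k70 k102 0 4)))), (.s k101 k117 3 (.s k170 k255 14 (.s k32 k239 10 (.s k48 k16 3
  (.d k207 k138 k154 10 14))))), (.s k138 k207 10 (.s k170 k255 14 (.s k2 k254 13 (.s k70 k206 9 (.s
  k102 k118 3 (.d k68 k71 k119 0 4))))))] (.c k23 (.q k43 [(.s k101 k117 3 (.s k71 k116 4 (.s k119
  k103 3 (.d k68 k70 k102 0 4)))), (.s k101 k117 3 (.s k170 k255 14 (.s k32 k239 10 (.s k48 k16 3
  (.d k207 k138 k154 10 14))))), (.s k138 k207 10 (.s k170 k255 14 (.s k2 k254 13 (.s k70 k206 9 (.s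
  k102 k118 3 (.d k68 k71 k119 0 4))))))] .n) (.c k43 (.q k23 [(.s k101 k117 3 (.s k71 k116 4 (.s
  k119 k103 3 (.d k68 k70 k102 0 4)))), (.s k149 k212 8 (.s k21 k213 7 (.s k20 k22 0 (.d k215 k151
  k150 7 8))))] (.c k107 (.q k171 [(.s k149 k212 8 (.s k21 k213 7 (.s k20 k22 0 (.d k215 k151 k150 7
  8)))), (.s k101 k117 3 (.s k71 k116 4 (.s k68 k70 0 (.d k119 k103 k102 3 4))))] (.c k151 (.q k195
  [(.s k101 k117 3 (.s k71 k116 4 (.s k68 k70 0 (.d k119 k103 k102 3 4)))), (.s k65 k130 8 (.s k73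
  k77 1 (.s k12 k134 10 (.s k8 k4 1 (.d k138 k203 k207 8 10)))))] .n) (.c k195 (.l (.s k151 k215 7
  (.s k255 k170 14 (.s k101 k117 3 (.s k71 k116 4 (.s k68 k70 0 (.d k119 k103 k102 3 4))))))) .n)))
  (.c k171 (.q k107 [(.s k101 k117 3 (.s k71 k116 4 (.s k68 k70 0 (.d k119 k103 k102 3 4)))), (.s
  k149 k212 8 (.s k21 k213 7 (.s k20 k22 0 (.d k215 k151 k150 7 8))))] .n) .n))) .n)))) (.c k84 (.q
  k4 [(.s k12 k8 1 (.s k166 k247 12 (.s k89 k243 14 (.s k93 k81 1 (.d k255 k174 k170 12 14))))), (.s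
  k12 k8 1 (.s k166 k247 12 (.s k6 k246 11 (.s k3 k9 2 (.s k1 k2 0 (.d k169 k253 k252 13 14)))))),
  (.s k166 k247 12 (.s k6 k246 11 (.s k5 k7 0 (.s k10 k15 2 (.s k170 k255 14 (.d k2 k14 k254 1
  13)))))), (.s k12 k8 1 (.s k170 k255 14 (.s k2 k254 13 (.s k3 k1 0 (.s k6 k9 2 (.s k5 k7 0 (.d k10
  k14 k15 1 2)))))))] .n) (.c k87 (.q k4 [(.s k12 k8 1 (.s k255 k170 14 (.s k93 k174 12 (.s k89 k81
  1 (.d k166 k247 k243 12 14))))), (.s k12 k8 1 (.s k166 k247 12 (.s k6 k246 11 (.s k3 k9 2 (.s k1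
  k2 0 (.d k169 k253 k252 13 14)))))), (.s k166 k247 12 (.s k6 k246 11 (.s k170 k255 14 (.s k2 k254
  13 (.s k10 k14 1 (.d k5 k7 k15 0 2)))))), (.s k12 k8 1 (.s k170 k255 14 (.s k2 k254 13 (.s k3 k1 0
  (.s k6 k9 2 (.s k10 k14 1 (.d k5 k7 k15 0 2)))))))] .n) (.c k168 (.l (.s k87 k84 0 (.s k255 k170
  14 (.s k3 k171 13 (.s k169 k252 14 (.d k1 k2 k253 0 13)))))) (.c k169 (.q k4 [(.s k84 k87 0 (.s
  k166 k247 12 (.s k6 k246 11 (.s k7 k5 0 (.d k244 k164 k165 11 12))))), (.s k12 k8 1 (.s k166 k247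
  12 (.s k89 k243 14 (.s k93 k81 1 (.d k255 k174 k170 12 14))))), (.s k12 k8 1 (.s k84 k87 0 (.s
  k164 k244 11 (.s k88 k240 13 (.s k92 k80 1 (.d k252 k172 k168 11 13))))))] .n) (.c k170 (.q k105
  [(.s k65 k125 5 (.s k67 k124 6 (.s k64 k66 0 (.s k87 k84 0 (.d k127 k107 k106 5 6))))), (.s k65
  k125 5 (.s k84 k87 0 (.s k195 k130 8 (.s k150 k60 14 (.s k214 k22 7 (.d k252 k233 k168 6 13)))))),
  (.s k84 k87 0 (.s k124 k67 6 (.s k252 k168 13 (.s k60 k188 7 (.s k20 k40 5 (.d k150 k215 k195 8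
  14)))))), (.s k65 k125 5 (.s k67 k124 6 (.s k195 k130 8 (.s k3 k131 7 (.s k1 k2 0 (.d k169 k253
  k252 13 14))))))] .n) (.c k171 (.l (.s k84 k87 0 (.s k252 k168 13 (.s k3 k169 14 (.s k170 k255 14
  (.d k2 k1 k254 0 13)))))) (.c k252 (.f k255 k170 14 (.f k87 k84 0 (.q k105 [(.s k125 k65 5 (.s k60
  k190 8 (.s k20 k40 5 (.d k150 k215 k195 8 14)))), (.s k65 k125 5 (.s k67 k124 6 (.s k64 k66 0 (.d
  k127 k107 k106 5 6)))), (.s k3 k171 13 (.s k1 k2 0 (.s k67 k124 6 (.s k169 k253 13 (.s k41 k233 7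
  (.s k60 k22 6 (.d k195 k131 k150 7 14)))))))] (.c k60 (.l (.s k3 k171 13 (.s k65 k125 5 (.s k195
  k130 8 (.d k67 k124 k131 6 7))))) (.c k126 (.q k189 [(.s k3 k171 13 (.s k1 k2 0 (.s k125 k65 5 (.d
  k253 k169 k61 13 7)))), (.s k125 k65 5 (.s k60 k190 8 (.s k20 k40 5 (.d k150 k215 k195 8 14)))),
  (.s k3 k171 13 (.s k1 k2 0 (.s k169 k253 13 (.s k41 k233 7 (.s k21 k61 5 (.d k149 k213 k129 7
  5))))))] .n) (.c k189 (.q k126 [(.s k124 k67 6 (.d k125 k127 k65 0 5)), (.s k125 k65 5 (.s k60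
  k190 8 (.s k20 k40 5 (.d k150 k215 k195 8 14)))), (.s k67 k124 6 (.s k106 k66 5 (.d k107 k104 k127
  0 5)))] .n) .n)))))) (.c k254 (.l (.s k87 k84 0 (.s k255 k170 14 (.s k3 k171 13 (.s k1 k2 0 (.d
  k169 k253 k252 13 14)))))) (.c k255 (.q k195 [(.s k65 k130 8 (.s k84 k87 0 (.s k105 k125 5 (.s k60
  k150 14 (.s k252 k168 13 (.d k124 k67 k188 6 7)))))), (.s k84 k87 0 (.s k252 k168 13 (.s k214 k233
  6 (.s k150 k22 7 (.s k20 k215 8 (.d k60 k40 k105 5 14)))))), (.s k65 k130 8 (.s k87 k84 0 (.s k105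
  k125 5 (.s k67 k124 6 (.s k64 k66 0 (.d k127 k107 k106 5 6)))))), (.s k65 k130 8 (.s k105 k125 5
  (.s k67 k124 6 (.s k3 k131 7 (.s k1 k2 0 (.d k169 k253 k252 13 14))))))] (.c k60 (.l (.s k65 k130
  8 (.s k84 k87 0 (.s k252 k168 13 (.s k3 k169 14 (.s k67 k131 7 (.d k105 k125 k124 5 6))))))) (.c
  k105 (.f k65 k130 8 (.l (.s k84 k87 0 (.s k252 k168 13 (.s k3 k169 14 (.s k1 k2 0 (.s k67 k131 7
  (.s k66 k64 0 (.d k129 k193 k192 7 8))))))))) (.c k127 (.q k191 [(.s k65 k130 8 (.s k84 k87 0 (.s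
  k105 k125 5 (.s k60 k150 14 (.s k252 k168 13 (.d k124 k67 k188 6 7)))))), (.s k84 k87 0 (.s k252
  k168 13 (.s k214 k233 6 (.s k150 k22 7 (.s k20 k215 8 (.d k60 k40 k105 5 14)))))), (.s k65 k130 8
  (.s k105 k125 5 (.s k60 k150 14 (.s k124 k67 6 (.s k252 k188 7 (.d k84 k87 k168 0 13)))))), (.s
  k65 k130 8 (.s k105 k125 5 (.s k60 k150 14 (.s k124 k67 6 (.s k252 k188 7 (.s k169 k3 14 (.d k233
  k214 k41 6 7)))))))] (.c k60 (.l (.s k65 k130 8 (.s k84 k87 0 (.s k252 k168 13 (.s k3 k169 14 (.s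
  k67 k131 7 (.d k105 k125 k124 5 6))))))) (.c k67 (.q k3 [(.s k252 k169 14 (.d k84 k87 k168 0 13)),
  (.s k2 k1 0 (.s k130 k65 8 (.s k66 k194 7 (.s k129 k192 8 (.s k128 k131 0 (.d k170 k149 k254 6
  13))))))] (.c k87 (.q k107 [(.s k1 k2 0 (.d k169 k253 k252 13 14)), (.s k65 k130 8 (.s k105 k125 5
  (.s k60 k150 14 (.s k41 k22 6 (.d k169 k233 k252 7 14))))), (.s k1 k2 0 (.s k65 k130 8 (.s k105
  k125 5 (.s k106 k104 0 (.s k129 k193 7 (.d k66 k126 k192 5 8))))))] .n) (.c k107 (.l (.s k87 k84 0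
  (.s k1 k2 0 (.d k169 k253 k252 13 14)))) .n))) (.c k87 (.q k3 [(.s k1 k2 0 (.d k169 k253 k252 13
  14)), (.s k65 k130 8 (.s k67 k131 7 (.d k105 k125 k124 5 6)))] (.c k67 (.q k107 [(.s k1 k2 0 (.d
  k169 k253 k252 13 14)), (.s k65 k130 8 (.s k105 k125 5 (.s k60 k150 14 (.s k41 k22 6 (.d k169 k233
  k252 7 14))))), (.s k1 k2 0 (.s k65 k130 8 (.s k105 k125 5 (.s k106 k104 0 (.s k129 k193 7 (.d k66
  k126 k192 5 8))))))] .n) (.c k107 (.l (.s k67 k131 7 (.s k1 k2 0 (.d k169 k253 k252 13 14))))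
  .n))) (.c k105 (.f k65 k130 8 (.l (.s k84 k87 0 (.s k252 k168 13 (.s k3 k169 14 (.s k1 k2 0 (.s
  k67 k131 7 (.s k66 k64 0 (.d k129 k193 k192 7 8))))))))) (.c k107 (.f k65 k130 8 (.l (.s k87 k84 0
  (.s k105 k125 5 (.s k60 k150 14 (.s k124 k67 6 (.s k252 k188 7 (.s k169 k3 14 (.d k233 k214 k41 6
  7))))))))) (.c k150 (.l (.s k65 k130 8 (.s k84 k87 0 (.s k105 k125 5 (.s k252 k168 13 (.s k3 k169
  14 (.d k67 k124 k131 6 7))))))) (.c k252 (.f k84 k87 0 (.f k65 k130 8 (.l (.s k105 k125 5 (.s k60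
  k150 14 (.s k20 k40 5 (.s k148 k212 7 (.s k192 k104 13 (.s k64 k128 7 (.d k67 k124 k66 6
  0)))))))))) .n)))))))) (.c k191 (.q k127 [(.s k64 k106 6 (.s k65 k130 8 (.s k87 k84 0 (.d k67 k66
  k107 0 5)))), (.s k87 k84 0 (.s k67 k107 5 (.s k3 k131 7 (.s k1 k2 0 (.d k169 k253 k252 13
  14))))), (.s k65 k130 8 (.s k106 k64 6 (.s k125 k105 5 (.d k126 k124 k66 0 5))))] .n) .n)))))
  .n)))))))))))))

def t63_239 : T TT 256 :=
  (.q k86 [(.s k84 k87 0 (.s k252 k168 13 (.s k3 k169 14 (.s k2 k1 0 (.d k170 k254 k255 13 14)))))]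
  (.c k1 (.q k4 [(.s k84 k87 0 (.s k166 k247 12 (.s k6 k246 11 (.s k7 k5 0 (.d k244 k164 k165 11
  12))))), (.s k12 k8 1 (.s k166 k247 12 (.s k89 k243 14 (.s k93 k81 1 (.d k255 k174 k170 12
  14))))), (.s k12 k8 1 (.s k84 k87 0 (.s k164 k244 11 (.s k88 k240 13 (.s k92 k80 1 (.d k252 k172
  k168 11 13))))))] .n) (.c k2 (.l (.s k84 k87 0 (.s k252 k168 13 (.s k169 k3 14 (.s k253 k1 13 (.d
  k255 k254 k170 0 14)))))) (.c k3 (.f k255 k170 14 (.f k87 k84 0 (.q k101 [(.s k117 k69 3 (.s k48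
  k186 10 (.s k16 k32 3 (.d k154 k223 k207 10 14)))), (.s k71 k116 4 (.s k119 k103 3 (.s k51 k187 9
  (.s k17 k34 4 (.s k153 k221 9 (.d k102 k68 k204 4 14))))))] (.c k23 (.q k43 [(.s k117 k69 3 (.s
  k48 k186 10 (.s k16 k32 3 (.d k154 k223 k207 10 14)))), (.s k71 k116 4 (.s k119 k103 3 (.s k51
  k187 9 (.s k17 k34 4 (.s k153 k221 9 (.d k102 k68 k204 4 14))))))] .n) (.c k43 (.q k23 [(.s k117
  k69 3 (.s k48 k186 10 (.s k16 k32 3 (.d k154 k223 k207 10 14)))), (.s k149 k212 8 (.s k21 k213 7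
  (.s k20 k22 0 (.d k215 k151 k150 7 8))))] .n) .n))))) (.c k84 (.q k4 [(.s k12 k8 1 (.s k166 k247
  12 (.s k89 k243 14 (.s k93 k81 1 (.d k255 k174 k170 12 14))))), (.s k12 k8 1 (.s k166 k247 12 (.s
  k6 k246 11 (.s k3 k9 2 (.s k1 k2 0 (.d k169 k253 k252 13 14)))))), (.s k166 k247 12 (.s k6 k246 11
  (.s k5 k7 0 (.s k10 k15 2 (.s k170 k255 14 (.d k2 k14 k254 1 13)))))), (.s k12 k8 1 (.s k170 k255
  14 (.s k2 k254 13 (.s k3 k1 0 (.s k6 k9 2 (.s k5 k7 0 (.d k10 k14 k15 1 2)))))))] .n) (.c k87 (.q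
  k4 [(.s k12 k8 1 (.s k166 k247 12 (.s k89 k243 14 (.s k93 k81 1 (.d k255 k174 k170 12 14))))), (.s
  k12 k8 1 (.s k166 k247 12 (.s k6 k246 11 (.s k3 k9 2 (.s k1 k2 0 (.d k169 k253 k252 13 14)))))),
  (.s k12 k8 1 (.s k170 k255 14 (.s k2 k254 13 (.s k3 k1 0 (.s k6 k9 2 (.s k10 k14 1 (.d k5 k7 k15 0
  2))))))), (.s k166 k247 12 (.s k6 k246 11 (.s k170 k255 14 (.s k2 k254 13 (.s k10 k14 1 (.d k5 k7
  k15 0 2))))))] (.c k7 (.l (.s k12 k8 1 (.s k255 k170 14 (.s k93 k174 12 (.s k89 k81 1 (.d k166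
  k247 k243 12 14)))))) .n)) (.c k168 (.l (.s k87 k84 0 (.s k255 k170 14 (.s k3 k171 13 (.s k169
  k252 14 (.d k1 k2 k253 0 13)))))) (.c k169 (.q k4 [(.s k84 k87 0 (.s k166 k247 12 (.s k6 k246 11
  (.s k7 k5 0 (.d k244 k164 k165 11 12))))), (.s k12 k8 1 (.s k166 k247 12 (.s k89 k243 14 (.s k93
  k81 1 (.d k255 k174 k170 12 14))))), (.s k12 k8 1 (.s k84 k87 0 (.s k164 k244 11 (.s k88 k240 13
  (.s k92 k80 1 (.d k252 k172 k168 11 13))))))] .n) (.c k170 (.q k101 [(.s k69 k117 3 (.s k71 k116 4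
  (.s k68 k70 0 (.s k87 k84 0 (.d k119 k103 k102 3 4))))), (.s k69 k117 3 (.s k84 k87 0 (.s k207
  k138 10 (.s k154 k48 14 (.s k222 k18 9 (.d k252 k237 k168 4 13)))))), (.s k84 k87 0 (.s k116 k71 4
  (.s k252 k168 13 (.s k48 k184 9 (.s k16 k32 3 (.d k154 k223 k207 10 14)))))), (.s k69 k117 3 (.s
  k71 k116 4 (.s k207 k138 10 (.s k3 k139 9 (.s k1 k2 0 (.d k169 k253 k252 13 14))))))] .n) (.c k171
  (.l (.s k84 k87 0 (.s k252 k168 13 (.s k3 k169 14 (.s k170 k255 14 (.d k2 k1 k254 0 13)))))) (.c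
  k252 (.f k255 k170 14 (.f k84 k87 0 (.q k101 [(.s k116 k71 4 (.s k68 k100 3 (.s k117 k69 3 (.d
  k119 k118 k102 0 4)))), (.s k117 k69 3 (.s k48 k186 10 (.s k16 k32 3 (.d k154 k223 k207 10 14)))),
  (.s k116 k71 4 (.s k68 k100 3 (.s k204 k136 9 (.s k221 k238 4 (.s k153 k17 9 (.d k102 k119 k51 4
  14))))))] (.c k126 (.q k189 [(.s k116 k71 4 (.s k68 k100 3 (.s k117 k69 3 (.d k119 k118 k102 0
  4)))), (.s k117 k69 3 (.s k48 k186 10 (.s k16 k32 3 (.d k154 k223 k207 10 14)))), (.s k116 k71 4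
  (.s k68 k100 3 (.s k204 k136 9 (.s k221 k238 4 (.s k153 k17 9 (.d k102 k119 k51 4 14))))))] .n)
  (.c k189 (.q k126 [(.s k116 k71 4 (.s k68 k100 3 (.s k117 k69 3 (.d k119 k118 k102 0 4)))), (.s
  k117 k69 3 (.s k48 k186 10 (.s k16 k32 3 (.d k154 k223 k207 10 14)))), (.s k106 k66 5 (.s k64 k127
  6 (.s k96 k111 2 (.s k104 k124 5 (.s k100 k108 1 (.d k116 k68 k71 3 4))))))] .n) .n))))) (.c k254
  (.l (.s k87 k84 0 (.s k255 k170 14 (.s k3 k171 13 (.s k1 k2 0 (.d k169 k253 k252 13 14)))))) (.c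
  k255 (.q k207 [(.s k69 k138 10 (.s k84 k87 0 (.s k101 k117 3 (.s k48 k154 14 (.s k252 k168 13 (.d
  k116 k71 k184 4 9)))))), (.s k84 k87 0 (.s k252 k168 13 (.s k222 k237 4 (.s k154 k18 9 (.s k16
  k223 10 (.d k48 k32 k101 3 14)))))), (.s k69 k138 10 (.s k87 k84 0 (.s k101 k117 3 (.s k71 k116 4
  (.s k68 k70 0 (.d k119 k103 k102 3 4)))))), (.s k69 k138 10 (.s k101 k117 3 (.s k71 k116 4 (.s k3
  k139 9 (.s k1 k2 0 (.d k169 k253 k252 13 14))))))] (.c k48 (.l (.s k69 k138 10 (.s k84 k87 0 (.s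
  k252 k168 13 (.s k3 k169 14 (.s k71 k139 9 (.d k101 k117 k116 3 4))))))) (.c k101 (.f k69 k138 10
  (.l (.s k84 k87 0 (.s k252 k168 13 (.s k3 k169 14 (.s k1 k2 0 (.s k71 k139 9 (.s k70 k68 0 (.d
  k137 k205 k204 9 10))))))))) (.c k127 (.q k191 [(.s k69 k138 10 (.s k87 k84 0 (.s k101 k117 3 (.s
  k71 k116 4 (.s k68 k70 0 (.d k119 k103 k102 3 4)))))), (.s k84 k87 0 (.s k252 k168 13 (.s k222
  k237 4 (.s k154 k18 9 (.s k16 k223 10 (.d k48 k32 k101 3 14)))))), (.s k69 k138 10 (.s k101 k117 3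
  (.s k71 k116 4 (.s k3 k139 9 (.s k1 k2 0 (.d k169 k253 k252 13 14))))))] (.c k48 (.l (.s k69 k138
  10 (.s k84 k87 0 (.s k252 k168 13 (.s k3 k169 14 (.s k71 k139 9 (.d k101 k117 k116 3 4))))))) (.c
  k101 (.f k69 k138 10 (.l (.s k84 k87 0 (.s k252 k168 13 (.s k3 k169 14 (.s k1 k2 0 (.s k71 k139 9
  (.s k70 k68 0 (.d k137 k205 k204 9 10))))))))) .n))) (.c k191 (.q k127 [(.s k87 k84 0 (.s k67 k107
  5 (.s k106 k64 6 (.s k124 k105 6 (.d k126 k125 k66 0 5))))), (.s k69 k138 10 (.s k84 k87 0 (.s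
  k101 k117 3 (.s k48 k154 14 (.s k116 k71 4 (.d k252 k184 k168 9 13)))))), (.s k64 k106 6 (.s k69
  k138 10 (.s k74 k79 2 (.s k192 k128 7 (.s k133 k15 10 (.d k197 k202 k5 2 7))))))] .n) .n)))))
  .n)))))))))))))

def t171_174 : T TT 256 :=
  (.q k101 [(.s k69 k117 3 (.s k207 k138 10 (.s k48 k154 14 (.s k32 k16 3 (.d k170 k239 k255 10
  14)))))] (.c k16 (.q k1 [(.s k69 k117 3 (.s k205 k137 9 (.s k49 k153 13 (.s k169 k253 13 (.d k33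
  k17 k237 3 9))))), (.s k3 k2 0 (.s k69 k117 3 (.s k137 k205 9 (.s k70 k204 10 (.s k71 k68 0 (.d
  k207 k139 k138 9 10)))))), (.s k3 k2 0 (.s k169 k253 13 (.s k33 k237 9 (.s k48 k18 4 (.s k86 k252
  14 (.s k71 k116 4 (.d k207 k139 k154 9 14)))))))] (.c k205 (.l (.s k3 k2 0 (.s k69 k117 3 (.s k169
  k253 13 (.s k86 k252 14 (.s k71 k116 4 (.d k207 k139 k138 9 10))))))) .n)) (.c k32 (.l (.s k69
  k117 3 (.s k207 k138 10 (.s k154 k48 14 (.s k223 k16 10 (.d k255 k239 k170 3 14)))))) (.c k48 (.q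
  k5 [(.s k15 k10 2 (.s k165 k245 11 (.s k90 k240 14 (.s k95 k80 2 (.d k255 k175 k170 11 14))))),
  (.s k69 k117 3 (.s k165 k245 11 (.s k37 k229 7 (.s k53 k21 3 (.d k197 k133 k149 7 11))))), (.s k15
  k10 2 (.s k69 k117 3 (.s k133 k197 7 (.s k74 k192 10 (.s k79 k64 2 (.d k207 k143 k138 7 10))))))]
  (.c k255 (.l (.s k117 k69 3 (.s k245 k165 11 (.s k53 k181 7 (.s k21 k37 3 (.d k149 k213 k197 7
  11)))))) .n)) (.c k69 (.q k5 [(.s k15 k10 2 (.s k165 k245 11 (.s k90 k240 14 (.s k95 k80 2 (.d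
  k255 k175 k170 11 14))))), (.s k15 k10 2 (.s k165 k245 11 (.s k37 k229 7 (.s k48 k26 6 (.s k16 k32
  3 (.d k154 k223 k207 10 14)))))), (.s k165 k245 11 (.s k37 k229 7 (.s k21 k53 3 (.s k42 k63 6 (.s
  k170 k255 14 (.d k32 k47 k239 2 10)))))), (.s k15 k10 2 (.s k170 k255 14 (.s k32 k239 10 (.s k48
  k16 3 (.s k37 k26 6 (.s k21 k53 3 (.d k42 k47 k63 2 6)))))))] .n) (.c k117 (.q k5 [(.s k15 k10 2
  (.s k165 k245 11 (.s k90 k240 14 (.s k95 k80 2 (.d k255 k175 k170 11 14))))), (.s k15 k10 2 (.s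
  k165 k245 11 (.s k37 k229 7 (.s k48 k26 6 (.s k16 k32 3 (.d k154 k223 k207 10 14)))))), (.s k15
  k10 2 (.s k170 k255 14 (.s k32 k239 10 (.s k48 k16 3 (.s k37 k26 6 (.s k42 k47 2 (.d k21 k53 k63 3
  6))))))), (.s k165 k245 11 (.s k37 k229 7 (.s k170 k255 14 (.s k32 k239 10 (.s k42 k47 2 (.d k21
  k53 k63 3 6))))))] (.c k53 (.l (.s k15 k10 2 (.s k255 k170 14 (.s k95 k175 11 (.s k90 k80 2 (.d
  k165 k245 k240 11 14)))))) .n)) (.c k138 (.l (.s k117 k69 3 (.s k255 k170 14 (.s k48 k186 10 (.s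
  k154 k207 14 (.d k16 k32 k223 3 10)))))) (.c k154 (.q k1 [(.s k69 k117 3 (.s k205 k137 9 (.s k153
  k49 13 (.s k221 k17 9 (.d k253 k237 k169 3 13))))), (.s k3 k2 0 (.s k69 k117 3 (.s k137 k205 9 (.s
  k70 k204 10 (.s k71 k68 0 (.d k207 k139 k138 9 10)))))), (.s k3 k2 0 (.s k169 k253 13 (.s k33 k237
  9 (.s k48 k18 4 (.s k32 k16 3 (.d k170 k239 k255 10 14))))))] (.c k205 (.l (.s k3 k2 0 (.s k69
  k117 3 (.s k169 k253 13 (.s k86 k252 14 (.s k71 k116 4 (.d k207 k139 k138 9 10))))))) .n)) (.c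
  k170 (.f k69 k117 3 (.q k166 [(.s k4 k247 12 (.s k36 k231 8 (.s k52 k20 3 (.d k199 k134 k150 8
  12)))), (.s k207 k138 10 (.s k231 k36 8 (.s k243 k219 5 (.s k81 k162 12 (.d k89 k93 k12 1 14))))),
  (.s k4 k247 12 (.s k12 k8 1 (.s k89 k243 14 (.s k77 k113 5 (.d k207 k142 k138 8 10)))))] (.c k168
  (.q k169 [(.s k1 k253 13 (.s k33 k237 9 (.s k49 k17 3 (.d k205 k137 k153 9 13)))), (.s k4 k247 12
  (.s k36 k231 8 (.s k52 k20 3 (.d k199 k134 k150 8 12))))] .n) (.c k169 (.q k168 [(.s k4 k247 12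
  (.s k36 k231 8 (.s k52 k20 3 (.d k199 k134 k150 8 12)))), (.s k207 k138 10 (.s k231 k36 8 (.s k243
  k219 5 (.s k81 k162 12 (.d k89 k93 k12 1 14))))), (.s k4 k247 12 (.s k12 k8 1 (.s k89 k243 14 (.s
  k77 k113 5 (.d k207 k142 k138 8 10)))))] .n) .n)))) (.c k186 (.l (.s k69 k117 3 (.s k207 k138 10
  (.s k48 k154 14 (.s k170 k255 14 (.d k32 k16 k239 3 10)))))) (.c k207 (.q k10 [(.s k15 k5 2 (.s
  k170 k255 14 (.s k90 k250 11 (.s k80 k95 2 (.d k240 k160 k165 11 14))))), (.s k5 k15 2 (.s k69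
  k117 3 (.s k165 k245 11 (.s k197 k133 7 (.s k53 k149 11 (.d k37 k21 k229 3 7)))))), (.s k69 k117 3
  (.s k170 k255 14 (.s k90 k250 11 (.s k79 k112 6 (.s k64 k74 2 (.s k95 k80 2 (.d k127 k111 k106 3
  6)))))))] (.c k245 (.l (.s k15 k5 2 (.s k170 k255 14 (.s k90 k250 11 (.s k240 k165 14 (.d k80 k95
  k160 2 11)))))) .n)) (.c k239 (.l (.s k117 k69 3 (.s k255 k170 14 (.s k48 k186 10 (.s k16 k32 3
  (.d k154 k223 k207 10 14)))))) (.c k255 (.q k3 [(.s k1 k2 0 (.s k117 k69 3 (.s k253 k169 13 (.s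
  k49 k185 9 (.s k17 k33 3 (.d k153 k221 k205 9 13)))))), (.s k69 k117 3 (.s k207 k138 10 (.s k71
  k139 9 (.s k86 k116 4 (.s k84 k87 0 (.d k252 k168 k169 13 14)))))), (.s k1 k2 0 (.s k169 k253 13
  (.s k33 k237 9 (.s k48 k18 4 (.s k16 k32 3 (.d k154 k223 k207 10 14))))))] (.c k12 (.q k93 [(.s
  k89 k81 1 (.s k77 k113 5 (.s k125 k109 3 (.s k65 k105 5 (.d k69 k73 k117 1 3))))), (.s k1 k2 0 (.s
  k69 k117 3 (.s k137 k205 9 (.s k70 k204 10 (.s k71 k68 0 (.d k207 k139 k138 9 10)))))), (.s k1 k2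
  0 (.s k81 k89 1 (.s k161 k241 11 (.s k82 k240 12 (.s k83 k80 0 (.d k243 k163 k162 11 12))))))] .n)
  (.c k93 (.q k12 [(.s k2 k1 0 (.s k4 k8 1 (.s k6 k9 2 (.s k5 k7 0 (.d k10 k14 k15 1 2))))), (.s k1
  k2 0 (.s k69 k117 3 (.s k137 k205 9 (.s k70 k204 10 (.s k71 k68 0 (.d k207 k139 k138 9 10)))))),
  (.s k4 k8 1 (.s k6 k9 2 (.s k166 k247 12 (.s k86 k246 11 (.s k84 k87 0 (.d k252 k168 k169 13
  14))))))] .n) (.c k169 (.l (.s k1 k2 0 (.s k69 k117 3 (.s k137 k205 9 (.s k70 k204 10 (.s k71 k68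
  0 (.d k207 k139 k138 9 10))))))) .n)))) .n)))))))))))))

def t171_175 : T TT 256 :=
  (.q k243 [(.s k81 k162 12 (.s k89 k93 1 (.s k12 k166 14 (.s k8 k4 1 (.d k170 k251 k255 12 14)))))]
  (.c k4 (.f k81 k162 12 (.q k163 [(.s k3 k83 11 (.s k1 k2 0 (.s k89 k93 1 (.s k166 k12 14 (.d k169
  k172 k253 2 13))))), (.s k3 k83 11 (.s k2 k1 0 (.s k170 k255 14 (.s k86 k254 13 (.s k84 k87 0 (.d
  k252 k168 k169 13 14)))))), (.s k3 k83 11 (.s k89 k93 1 (.s k166 k12 14 (.s k169 k172 2 (.s k249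
  k9 11 (.d k252 k246 k86 2 14)))))), (.s k89 k93 1 (.s k166 k12 14 (.s k169 k172 2 (.s k1 k253 13
  (.s k9 k249 11 (.s k13 k5 1 (.d k241 k161 k165 11 13)))))))] (.c k169 (.l (.s k83 k3 11 (.s k80
  k82 0 (.s k89 k93 1 (.s k86 k92 2 (.s k87 k84 0 (.d k95 k91 k90 1 2))))))) (.c k255 (.l (.s k3 k83
  11 (.s k1 k2 0 (.s k89 k93 1 (.s k169 k253 13 (.d k166 k12 k172 14 2)))))) .n)))) (.c k8 (.l (.s
  k81 k162 12 (.s k89 k93 1 (.s k166 k12 14 (.s k247 k4 12 (.d k255 k251 k170 1 14)))))) (.c k12 (.f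
  k162 k81 12 (.q k64 [(.s k106 k127 6 (.s k192 k128 7 (.s k63 k149 14 (.s k42 k21 6 (.d k170 k234
  k255 7 14))))), (.s k128 k192 7 (.s k170 k255 14 (.s k179 k145 4 (.s k51 k115 7 (.s k17 k34 4 (.s
  k153 k221 9 (.d k166 k174 k140 1 6))))))), (.s k106 k127 6 (.s k192 k128 7 (.s k226 k209 4 (.s k34
  k98 7 (.s k46 k166 9 (.s k42 k38 1 (.d k63 k21 k149 6 14)))))))] (.c k128 (.l (.s k106 k127 6 (.s
  k170 k255 14 (.s k42 k234 7 (.s k63 k21 6 (.s k192 k149 14 (.s k226 k209 4 (.d k166 k174 k46 1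
  9)))))))) (.c k163 (.q k167 [(.s k106 k127 6 (.s k192 k128 7 (.s k63 k149 14 (.s k42 k21 6 (.d
  k170 k234 k255 7 14))))), (.s k15 k91 13 (.s k5 k10 2 (.s k165 k245 11 (.s k166 k164 0 (.d k170
  k174 k255 1 14))))), (.s k15 k91 13 (.s k10 k5 2 (.s k192 k128 7 (.s k74 k133 10 (.s k69 k79 2 (.d
  k138 k202 k207 7 10))))))] .n) (.c k167 (.q k163 [(.s k3 k83 11 (.s k2 k1 0 (.s k82 k242 11 (.d
  k161 k160 k240 0 12)))), (.s k106 k127 6 (.s k192 k128 7 (.s k63 k149 14 (.s k42 k21 6 (.d k170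
  k234 k255 7 14)))))] .n) (.c k192 (.l (.s k127 k106 6 (.s k255 k170 14 (.s k63 k191 7 (.s k123
  k183 9 (.s k119 k115 1 (.s k187 k51 9 (.d k251 k247 k59 1 7)))))))) .n)))))) (.c k81 (.q k153 [(.s
  k17 k221 9 (.s k51 k34 4 (.s k102 k204 14 (.s k119 k68 4 (.d k255 k187 k170 9 14))))), (.s k17
  k221 9 (.s k51 k34 4 (.s k179 k115 7 (.s k166 k140 6 (.s k4 k247 12 (.d k12 k8 k89 1 14)))))), (.s
  k170 k255 14 (.s k136 k187 4 (.s k204 k68 9 (.s k217 k230 6 (.s k89 k25 7 (.s k8 k251 12 (.d k12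
  k4 k166 1 14)))))))] (.c k51 (.l (.s k221 k17 9 (.s k255 k170 14 (.s k204 k238 4 (.s k217 k230 6
  (.s k89 k25 7 (.s k247 k251 1 (.d k166 k12 k4 14 12)))))))) (.c k163 (.q k167 [(.s k17 k221 9 (.s
  k51 k34 4 (.s k102 k204 14 (.s k119 k68 4 (.d k255 k187 k170 9 14))))), (.s k15 k91 13 (.s k5 k10
  2 (.s k165 k245 11 (.s k166 k164 0 (.s k4 k247 12 (.d k12 k8 k89 1 14))))))] .n) (.c k167 (.q k163
  [(.s k17 k221 9 (.s k51 k34 4 (.s k102 k204 14 (.s k119 k68 4 (.d k255 k187 k170 9 14))))), (.s k3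
  k83 11 (.s k1 k2 0 (.s k169 k253 13 (.s k166 k172 2 (.s k4 k247 12 (.d k12 k8 k89 1 14))))))] .n)
  .n)))) (.c k89 (.f k81 k162 12 (.q k1 [(.s k3 k2 0 (.s k161 k241 11 (.s k82 k240 12 (.d k83 k163
  k80 11 0)))), (.s k241 k161 11 (.s k253 k169 13 (.s k249 k245 1 (.s k252 k246 2 (.d k255 k170 k254
  14 0))))), (.s k3 k2 0 (.s k163 k83 11 (.s k169 k253 13 (.s k166 k172 2 (.s k247 k4 12 (.d k255
  k251 k170 1 14))))))] (.c k163 (.q k167 [(.s k15 k91 13 (.s k5 k10 2 (.s k161 k241 11 (.s k165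
  k245 11 (.d k169 k253 k173 13 1))))), (.s k3 k2 0 (.s k169 k253 13 (.s k86 k252 14 (.s k87 k84 0
  (.s k247 k7 11 (.d k255 k251 k170 1 14)))))), (.s k3 k2 0 (.s k15 k91 13 (.s k5 k10 2 (.s k9 k13 1
  (.s k6 k12 2 (.d k7 k11 k4 1 0))))))] (.c k160 (.l (.s k161 k241 11 (.s k15 k91 13 (.s k5 k10 2
  (.s k165 k245 11 (.d k169 k253 k173 13 1)))))) (.c k161 (.q k160 [(.s k15 k91 13 (.s k5 k10 2 (.s
  k165 k245 11 (.d k240 k90 k80 14 11)))), (.s k3 k2 0 (.s k169 k253 13 (.s k86 k252 14 (.s k87 k84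
  0 (.s k7 k247 11 (.d k15 k11 k91 1 13)))))), (.s k240 k80 11 (.s k241 k242 0 (.s k255 k170 14 (.s
  k245 k250 2 (.d k253 k169 k249 13 1)))))] .n) (.c k251 (.l (.s k3 k2 0 (.s k169 k253 13 (.s k86
  k252 14 (.s k87 k84 0 (.s k7 k247 11 (.d k15 k11 k91 1 13))))))) .n)))) (.c k167 (.q k163 [(.d k3
  k2 k83 0 11), (.s k169 k253 13 (.s k166 k172 2 (.s k247 k4 12 (.d k255 k251 k170 1 14))))] .n)
  .n)))) (.c k93 (.l (.s k162 k81 12 (.s k170 k255 14 (.s k166 k174 1 (.s k12 k89 14 (.d k4 k8 k247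
  1 12)))))) (.c k162 (.q k166 [(.s k4 k247 12 (.d k12 k8 k89 1 14)), (.s k247 k4 12 (.d k255 k251
  k170 1 14))] (.c k4 (.q k163 [(.s k3 k83 11 (.s k1 k2 0 (.d k169 k172 k253 2 13))), (.s k3 k83 11
  (.s k12 k89 14 (.s k6 k9 2 (.s k86 k246 11 (.d k169 k172 k252 2 14))))), (.s k89 k12 14 (.s k169
  k172 2 (.s k253 k1 13 (.s k255 k170 14 (.s k252 k254 0 (.d k249 k246 k9 2 11)))))), (.s k3 k83 11
  (.s k2 k1 0 (.s k12 k89 14 (.s k170 k255 14 (.s k86 k254 13 (.d k6 k9 k246 2 11))))))] .n) (.c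
  k163 (.q k167 [(.s k4 k247 12 (.d k12 k8 k89 1 14)), (.s k15 k91 13 (.s k5 k10 2 (.d k165 k164
  k245 0 11)))] (.c k160 (.q k161 [(.s k247 k4 12 (.d k255 k170 k251 14 1)), (.s k15 k91 13 (.s k5
  k10 2 (.d k165 k164 k245 0 11)))] (.c k165 (.l (.s k170 k255 14 (.s k4 k247 12 (.d k12 k8 k89 1
  14)))) (.c k170 (.l (.s k165 k164 0 (.s k4 k247 12 (.d k12 k8 k89 1 14)))) (.c k251 (.l (.s k4
  k247 12 (.d k12 k8 k89 1 14))) .n)))) (.c k161 (.q k160 [(.s k4 k247 12 (.d k12 k8 k89 1 14)), (.s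
  k12 k89 14 (.s k164 k165 0 (.d k240 k80 k88 11 13))), (.s k247 k4 12 (.d k255 k251 k170 1 14))]
  .n) .n))) (.c k167 (.q k163 [(.s k12 k89 14 (.d k4 k8 k247 1 12)), (.s k3 k83 11 (.s k1 k2 0 (.d
  k169 k172 k253 2 13)))] .n) (.c k247 (.q k163 [(.s k3 k83 11 (.s k1 k2 0 (.d k169 k172 k253 2
  13))), (.s k3 k83 11 (.s k12 k89 14 (.s k6 k9 2 (.s k86 k246 11 (.d k169 k172 k252 2 14))))), (.s
  k89 k12 14 (.s k169 k172 2 (.s k253 k1 13 (.s k255 k170 14 (.s k252 k254 0 (.d k249 k246 k9 2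
  11)))))), (.s k3 k83 11 (.s k2 k1 0 (.s k12 k89 14 (.s k170 k255 14 (.s k86 k254 13 (.d k6 k9 k246
  2 11))))))] .n) .n))))) (.c k163 (.q k167 [(.s k81 k162 12 (.s k89 k93 1 (.s k166 k12 14 (.s k247
  k4 12 (.d k255 k251 k170 1 14))))), (.s k15 k91 13 (.s k10 k5 2 (.s k170 k255 14 (.s k90 k250 11
  (.s k80 k95 2 (.d k240 k160 k165 11 14)))))), (.s k15 k91 13 (.s k5 k10 2 (.s k165 k245 11 (.s
  k166 k164 0 (.s k4 k247 12 (.d k12 k8 k89 1 14))))))] (.c k251 (.l (.s k162 k81 12 (.s k170 k255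
  14 (.s k166 k174 1 (.s k4 k247 12 (.d k12 k8 k89 1 14)))))) .n)) (.c k166 (.q k163 [(.s k3 k83 11
  (.s k2 k1 0 (.s k162 k81 12 (.s k82 k242 11 (.d k161 k160 k240 0 12))))), (.s k3 k83 11 (.s k2 k1
  0 (.s k170 k255 14 (.s k86 k254 13 (.s k84 k87 0 (.d k252 k168 k169 13 14)))))), (.s k81 k162 12
  (.s k83 k3 11 (.s k89 k93 1 (.s k86 k92 2 (.s k87 k84 0 (.s k95 k91 1 (.d k80 k82 k90 0 2)))))))]
  (.c k3 (.f k162 k81 12 (.f k160 k161 0 (.l (.s k240 k80 11 (.s k241 k242 0 (.s k255 k170 14 (.s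
  k245 k250 2 (.s k247 k251 1 (.s k246 k244 0 (.d k249 k253 k252 1 2)))))))))) (.c k83 (.q k16 [(.s
  k48 k32 3 (.s k154 k223 10 (.s k101 k207 14 (.s k117 k69 3 (.d k255 k186 k170 10 14))))), (.s k81
  k162 12 (.s k89 k93 1 (.s k154 k223 10 (.s k24 k219 8 (.s k28 k20 1 (.d k211 k146 k150 8 10)))))),
  (.s k48 k32 3 (.s k81 k162 12 (.s k146 k211 8 (.s k97 k195 12 (.d k113 k65 k178 3 8)))))] (.c k170
  (.l (.s k48 k32 3 (.s k113 k178 8 (.s k154 k223 10 (.s k101 k207 14 (.s k89 k77 5 (.d k81 k93 k162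
  1 12))))))) .n)) .n))) (.c k167 (.q k163 [(.s k3 k83 11 (.s k2 k1 0 (.s k162 k81 12 (.s k82 k242
  11 (.d k161 k160 k240 0 12))))), (.s k81 k162 12 (.s k89 k93 1 (.s k12 k166 14 (.s k8 k4 1 (.d
  k170 k251 k255 12 14))))), (.s k3 k83 11 (.s k1 k2 0 (.s k169 k253 13 (.s k166 k172 2 (.s k4 k247
  12 (.d k12 k8 k89 1 14))))))] .n) (.c k170 (.q k163 [(.s k3 k83 11 (.s k2 k1 0 (.s k162 k81 12 (.s
  k82 k242 11 (.d k161 k160 k240 0 12))))), (.s k3 k83 11 (.s k81 k162 12 (.s k89 k93 1 (.s k166 k12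
  14 (.s k169 k172 2 (.s k249 k9 11 (.d k252 k246 k86 2 14))))))), (.s k3 k83 11 (.s k1 k2 0 (.s
  k169 k253 13 (.s k166 k172 2 (.s k4 k247 12 (.d k12 k8 k89 1 14))))))] (.c k3 (.f k81 k162 12 (.l
  (.s k89 k93 1 (.s k166 k12 14 (.s k169 k172 2 (.s k1 k253 13 (.s k9 k249 11 (.s k13 k5 1 (.d k241
  k161 k165 11 13))))))))) (.c k83 (.f k81 k162 12 (.l (.s k89 k93 1 (.s k166 k12 14 (.s k169 k172 2
  (.s k1 k253 13 (.s k3 k2 0 (.s k249 k9 11 (.d k252 k86 k246 14 2))))))))) (.c k160 (.q k165 [(.s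
  k3 k83 11 (.s k81 k162 12 (.s k89 k93 1 (.s k241 k13 13 (.d k1 k2 k161 0 11))))), (.s k5 k245 11
  (.s k15 k10 2 (.s k81 k162 12 (.s k83 k3 11 (.s k80 k82 0 (.d k90 k240 k95 14 2)))))), (.s k5 k245
  11 (.s k15 k10 2 (.s k81 k162 12 (.s k89 k93 1 (.s k13 k241 13 (.d k12 k166 k14 14 0)))))), (.s k3
  k83 11 (.s k1 k2 0 (.s k169 k253 13 (.s k166 k172 2 (.s k4 k247 12 (.d k12 k8 k89 1 14)))))), (.s
  k3 k83 11 (.s k1 k2 0 (.s k5 k245 11 (.s k13 k9 1 (.s k89 k241 13 (.d k81 k93 k162 1 12))))))] (.c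
  k168 (.q k169 [(.s k1 k253 13 (.d k3 k2 k83 0 11)), (.s k81 k162 12 (.s k89 k93 1 (.d k166 k172
  k12 2 14)))] (.c k164 (.l (.s k172 k166 2 (.s k1 k253 13 (.d k3 k2 k83 0 11)))) (.c k172 (.q k164
  [(.s k1 k253 13 (.d k3 k2 k83 0 11)), (.s k5 k245 11 (.s k15 k10 2 (.d k167 k166 k91 0 13)))] (.c
  k173 (.q k174 [(.s k3 k83 11 (.d k1 k2 k253 0 13)), (.s k5 k245 11 (.s k15 k10 2 (.d k167 k166 k91
  0 13)))] .n) (.c k174 (.l (.s k173 k161 1 (.s k1 k253 13 (.d k3 k2 k83 0 11)))) .n))) .n))) (.c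
  k169 (.q k168 [(.s k81 k162 12 (.s k83 k3 11 (.s k89 k93 1 (.s k84 k252 13 (.d k86 k87 k92 0
  2))))), (.s k5 k245 11 (.s k15 k10 2 (.s k81 k162 12 (.s k89 k93 1 (.s k13 k241 13 (.d k12 k166
  k14 14 0)))))), (.s k3 k83 11 (.s k5 k245 11 (.s k15 k10 2 (.s k7 k11 1 (.s k84 k252 13 (.d k86
  k87 k244 0 12))))))] .n) .n))) (.c k165 (.q k160 [(.d k162 k161 k81 0 12), (.s k3 k83 11 (.s k1 k2
  0 (.s k169 k253 13 (.s k166 k172 2 (.s k4 k247 12 (.d k12 k8 k89 1 14))))))] (.c k168 (.q k169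
  [(.d k162 k161 k81 0 12), (.s k1 k253 13 (.d k3 k2 k83 0 11))] .n) (.c k169 (.q k168 [(.d k162
  k161 k81 0 12), (.s k80 k240 11 (.s k84 k252 13 (.s k86 k87 0 (.s k92 k88 1 (.d k83 k3 k89 11
  2)))))] (.c k161 (.q k173 [(.s k80 k240 11 (.s k81 k162 12 (.d k83 k82 k3 0 11))), (.s k81 k162 12
  (.s k89 k93 1 (.s k164 k172 1 (.s k240 k80 11 (.d k12 k166 k88 14 13))))), (.s k80 k240 11 (.s k84
  k252 13 (.s k86 k87 0 (.s k92 k88 1 (.d k83 k3 k89 11 2))))), (.s k81 k162 12 (.s k84 k252 13 (.s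
  k86 k87 0 (.s k89 k93 1 (.d k83 k3 k92 11 2)))))] .n) (.c k173 (.l (.s k161 k162 0 (.s k3 k83 11
  (.d k240 k80 k82 11 12)))) .n))) .n))) (.c k168 (.q k169 [(.s k1 k253 13 (.d k3 k2 k83 0 11)), (.s
  k81 k162 12 (.s k89 k93 1 (.d k166 k172 k12 2 14)))] (.c k160 (.q k165 [(.s k1 k253 13 (.d k3 k2
  k83 0 11)), (.s k81 k162 12 (.s k89 k93 1 (.d k166 k172 k12 2 14)))] (.c k164 (.l (.s k172 k166 2
  (.s k1 k253 13 (.d k3 k2 k83 0 11)))) (.c k172 (.q k164 [(.s k1 k253 13 (.d k3 k2 k83 0 11)), (.s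
  k5 k245 11 (.s k15 k10 2 (.d k167 k166 k91 0 13)))] (.c k173 (.q k174 [(.s k3 k83 11 (.d k1 k2
  k253 0 13)), (.s k5 k245 11 (.s k15 k10 2 (.d k167 k166 k91 0 13)))] .n) (.c k174 (.l (.s k173
  k161 1 (.s k1 k253 13 (.d k3 k2 k83 0 11)))) .n))) .n))) (.c k165 (.q k160 [(.d k162 k161 k81 0
  12), (.s k1 k253 13 (.d k3 k2 k83 0 11))] .n) .n))) (.c k169 (.q k168 [(.s k3 k83 11 (.s k2 k1 0
  (.s k162 k81 12 (.s k82 k242 11 (.d k161 k160 k240 0 12))))), (.s k81 k162 12 (.s k83 k3 11 (.s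
  k89 k93 1 (.s k84 k252 13 (.d k86 k87 k92 0 2)))))] (.c k3 (.l (.s k162 k81 12 (.s k160 k161 0 (.s
  k164 k172 1 (.s k240 k80 11 (.s k12 k88 13 (.s k4 k8 1 (.d k84 k244 k252 11 13)))))))) (.c k81 (.q
  k160 [(.s k3 k83 11 (.s k161 k162 0 (.d k240 k80 k82 11 12))), (.s k172 k164 1 (.s k252 k84 13 (.s
  k12 k92 11 (.s k4 k8 1 (.d k166 k89 k247 14 12)))))] (.c k80 (.l (.s k84 k252 13 (.s k164 k172 1
  (.s k4 k244 11 (.s k12 k8 1 (.d k166 k89 k247 14 12)))))) (.c k166 (.l (.s k80 k240 11 (.s k83 k3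
  11 (.s k95 k90 2 (.s k87 k91 1 (.d k84 k86 k252 0 13)))))) .n))) (.c k83 (.l (.s k84 k252 13 (.s
  k162 k81 12 (.s k160 k161 0 (.s k164 k172 1 (.s k4 k244 11 (.s k12 k8 1 (.d k166 k89 k247 14
  12)))))))) (.c k160 (.q k165 [(.s k81 k162 12 (.s k83 k3 11 (.s k89 k93 1 (.s k84 k252 13 (.d k86
  k87 k92 0 2))))), (.s k5 k245 11 (.s k15 k10 2 (.s k81 k162 12 (.s k89 k93 1 (.s k13 k241 13 (.d
  k12 k166 k14 14 0)))))), (.s k3 k83 11 (.s k5 k245 11 (.s k15 k10 2 (.s k7 k11 1 (.s k84 k252 13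
  (.d k86 k87 k244 0 12))))))] .n) (.c k162 (.q k165 [(.s k5 k245 11 (.s k15 k10 2 (.s k90 k240 14
  (.s k91 k167 13 (.s k95 k80 2 (.d k83 k87 k3 1 11)))))), (.s k84 k252 13 (.s k86 k87 0 (.s k244 k7
  12 (.s k4 k164 11 (.s k12 k8 1 (.d k166 k247 k89 12 14)))))), (.s k5 k245 11 (.s k15 k10 2 (.s
  k167 k91 13 (.s k166 k164 0 (.s k4 k247 12 (.d k12 k8 k89 1 14))))))] (.c k166 (.q k174 [(.s k5
  k245 11 (.s k15 k10 2 (.s k90 k240 14 (.s k91 k167 13 (.s k95 k80 2 (.d k83 k87 k3 1 11)))))), (.s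
  k245 k5 11 (.s k252 k84 13 (.s k246 k249 2 (.s k244 k247 0 (.s k240 k248 1 (.s k242 k241 0 (.d
  k250 k254 k255 1 2))))))), (.s k3 k83 11 (.s k1 k2 0 (.s k5 k245 11 (.s k9 k13 1 (.s k6 k12 2 (.s
  k7 k4 0 (.d k15 k11 k10 1 2)))))))] (.c k5 (.q k4 [(.s k84 k252 13 (.s k244 k164 11 (.d k86 k87 k7
  0 12))), (.s k12 k8 1 (.s k93 k255 12 (.s k89 k81 1 (.s k13 k241 13 (.s k15 k14 0 (.s k90 k240 14
  (.d k91 k88 k167 0 13)))))))] (.c k3 (.l (.s k12 k8 1 (.s k84 k252 13 (.s k86 k87 0 (.s k255 k93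
  12 (.d k244 k164 k7 11 12)))))) (.c k87 (.l (.s k12 k8 1 (.s k84 k252 13 (.s k164 k244 11 (.s k160
  k172 1 (.d k240 k80 k88 11 13)))))) .n))) (.c k245 (.q k4 [(.s k84 k252 13 (.s k244 k164 11 (.d
  k86 k87 k7 0 12))), (.s k3 k83 11 (.s k2 k1 0 (.s k12 k8 1 (.s k6 k9 2 (.s k5 k7 0 (.d k10 k14 k15
  1 2))))))] (.c k3 (.l (.s k12 k8 1 (.s k84 k252 13 (.s k86 k87 0 (.s k255 k93 12 (.d k244 k164 k7
  11 12)))))) (.c k7 (.l (.s k12 k8 1 (.s k84 k252 13 (.s k164 k244 11 (.s k160 k172 1 (.d k240 k80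
  k88 11 13)))))) .n))) .n))) (.c k167 (.l (.s k3 k83 11 (.s k5 k245 11 (.s k15 k10 2 (.s k7 k11 1
  (.s k84 k252 13 (.d k86 k87 k244 0 12))))))) (.c k174 (.q k166 [(.s k4 k247 12 (.d k12 k8 k89 1
  14)), (.s k5 k245 11 (.s k15 k10 2 (.d k167 k164 k91 0 13)))] (.c k172 (.q k173 [(.s k4 k247 12
  (.d k12 k8 k89 1 14)), (.s k5 k245 11 (.s k15 k10 2 (.d k167 k164 k91 0 13)))] .n) (.c k173 (.q
  k172 [(.d k164 k167 k160 0 1), (.s k4 k247 12 (.d k12 k8 k89 1 14))] .n) .n))) .n)))) (.c k165 (.q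
  k160 [(.d k162 k161 k81 0 12), (.s k80 k240 11 (.s k84 k252 13 (.s k86 k87 0 (.s k92 k88 1 (.d k83
  k3 k89 11 2)))))] (.c k161 (.q k173 [(.s k80 k240 11 (.s k81 k162 12 (.d k83 k82 k3 0 11))), (.s
  k81 k162 12 (.s k89 k93 1 (.s k164 k172 1 (.s k240 k80 11 (.d k12 k166 k88 14 13))))), (.s k80
  k240 11 (.s k84 k252 13 (.s k86 k87 0 (.s k92 k88 1 (.d k83 k3 k89 11 2))))), (.s k81 k162 12 (.s
  k84 k252 13 (.s k86 k87 0 (.s k89 k93 1 (.d k83 k3 k92 11 2)))))] .n) (.c k173 (.l (.s k161 k162 0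
  (.s k3 k83 11 (.d k240 k80 k82 11 12)))) .n))) .n))))))) .n))))))) (.c k174 (.l (.s k81 k162 12
  (.s k89 k93 1 (.s k12 k166 14 (.s k170 k255 14 (.d k8 k4 k251 1 12)))))) (.c k251 (.l (.s k162 k81
  12 (.s k170 k255 14 (.s k166 k174 1 (.s k4 k247 12 (.d k12 k8 k89 1 14)))))) (.c k255 (.f k81 k162
  12 (.q k15 [(.s k5 k10 2 (.s k165 k245 11 (.s k167 k91 13 (.s k166 k164 0 (.d k89 k93 k12 1
  14))))), (.s k5 k10 2 (.s k165 k245 11 (.s k240 k90 14 (.s k80 k160 11 (.s k82 k83 0 (.s k241 k242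
  0 (.d k161 k3 k1 12 11))))))), (.s k5 k10 2 (.s k89 k93 1 (.s k12 k166 14 (.s k4 k8 1 (.s k6 k7 0
  (.s k13 k14 0 (.d k9 k3 k1 2 1))))))), (.s k89 k93 1 (.s k12 k166 14 (.s k13 k14 0 (.s k165 k241
  13 (.s k90 k240 14 (.d k91 k167 k88 13 0))))))] (.c k3 (.q k87 [(.s k89 k93 1 (.s k167 k91 13 (.s
  k247 k7 11 (.d k166 k12 k4 14 12)))), (.s k5 k10 2 (.s k86 k84 0 (.s k165 k245 11 (.s k7 k244 12
  (.d k167 k247 k91 11 13))))), (.s k5 k10 2 (.s k89 k93 1 (.s k12 k166 14 (.s k13 k14 0 (.d k165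
  k245 k241 11 13)))))] (.c k163 (.l (.s k167 k91 13 (.s k89 k93 1 (.s k247 k7 11 (.d k166 k12 k4 14
  12))))) (.c k167 (.q k163 [(.s k5 k10 2 (.s k89 k93 1 (.s k165 k245 11 (.s k240 k90 14 (.d k241
  k242 k13 0 13))))), (.s k86 k84 0 (.s k89 k93 1 (.s k83 k92 2 (.s k80 k82 0 (.d k95 k91 k90 1
  2))))), (.s k5 k10 2 (.s k165 k245 11 (.s k240 k90 14 (.s k241 k242 0 (.s k1 k161 11 (.d k13 k9
  k89 1 13)))))), (.s k5 k10 2 (.s k89 k93 1 (.s k12 k166 14 (.s k165 k245 11 (.d k13 k14 k241 0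
  13)))))] (.c k89 (.q k1 [(.s k241 k161 11 (.s k240 k242 0 (.s k80 k160 11 (.d k90 k165 k95 14
  2)))), (.s k5 k10 2 (.s k13 k9 1 (.s k12 k14 0 (.s k169 k253 13 (.s k166 k172 2 (.d k4 k8 k247 1
  12))))))] (.c k2 (.l (.s k5 k10 2 (.s k161 k241 11 (.s k165 k245 11 (.d k169 k253 k173 13 1)))))
  .n)) (.c k240 (.l (.s k5 k10 2 (.s k89 k93 1 (.s k12 k166 14 (.s k13 k14 0 (.d k165 k245 k241 11
  13)))))) .n))) .n))) (.c k87 (.q k3 [(.s k1 k2 0 (.s k161 k241 11 (.s k82 k240 12 (.d k83 k163 k80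
  11 0)))), (.s k5 k10 2 (.s k7 k11 1 (.s k6 k4 0 (.s k89 k93 1 (.d k12 k9 k166 2 14)))))] (.c k163
  (.l (.s k167 k91 13 (.s k5 k10 2 (.s k89 k93 1 (.s k165 k245 11 (.d k166 k12 k164 14 0)))))) (.c
  k167 (.l (.s k163 k83 11 (.s k1 k2 0 (.s k89 k93 1 (.s k169 k253 13 (.d k166 k12 k172 14 2))))))
  .n))) (.c k163 (.l (.s k167 k91 13 (.s k5 k10 2 (.s k89 k93 1 (.s k165 k245 11 (.d k166 k12 k164
  14 0)))))) (.c k166 (.l (.s k5 k10 2 (.s k89 k93 1 (.s k165 k245 11 (.s k240 k90 14 (.d k241 k242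
  k13 0 13)))))) (.c k167 (.q k163 [(.s k5 k10 2 (.s k165 k245 11 (.s k240 k90 14 (.s k80 k160 11
  (.d k83 k3 k82 11 0))))), (.s k3 k83 11 (.s k1 k2 0 (.s k89 k93 1 (.s k169 k253 13 (.d k166 k12
  k172 14 2))))), (.s k5 k10 2 (.s k89 k93 1 (.s k12 k166 14 (.s k13 k14 0 (.d k165 k245 k241 11
  13)))))] (.c k3 (.q k87 [(.s k5 k10 2 (.s k89 k93 1 (.s k165 k245 11 (.s k240 k90 14 (.d k241 k242
  k13 0 13))))), (.s k86 k84 0 (.s k89 k93 1 (.s k83 k92 2 (.s k80 k82 0 (.d k95 k91 k90 1 2))))),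
  (.s k5 k10 2 (.s k165 k245 11 (.s k240 k90 14 (.s k241 k242 0 (.s k1 k161 11 (.d k13 k9 k89 1
  13)))))), (.s k5 k10 2 (.s k89 k93 1 (.s k12 k166 14 (.s k165 k245 11 (.d k13 k14 k241 0 13)))))]
  (.c k89 (.q k1 [(.s k241 k161 11 (.s k240 k242 0 (.s k80 k160 11 (.d k90 k165 k95 14 2)))), (.s k5
  k10 2 (.s k13 k9 1 (.s k12 k14 0 (.s k169 k253 13 (.s k166 k172 2 (.d k4 k8 k247 1 12))))))] (.c
  k2 (.l (.s k5 k10 2 (.s k161 k241 11 (.s k165 k245 11 (.d k169 k253 k173 13 1))))) .n)) (.c k240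
  (.l (.s k5 k10 2 (.s k89 k93 1 (.s k12 k166 14 (.s k13 k14 0 (.d k165 k245 k241 11 13)))))) .n)))
  (.c k87 (.l (.s k3 k83 11 (.s k1 k2 0 (.s k89 k93 1 (.s k169 k253 13 (.d k166 k12 k172 14 2))))))
  .n))) .n))))))) .n)))))))))))))))

def t171_190 : T TT 256 :=
  (.q k89 [(.s k81 k93 1 (.s k243 k162 12 (.s k12 k166 14 (.s k8 k4 1 (.d k170 k251 k255 12 14)))))]
  (.c k4 (.q k1 [(.s k81 k93 1 (.s k241 k161 11 (.s k13 k165 13 (.s k169 k253 13 (.d k9 k5 k249 1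
  11))))), (.s k3 k2 0 (.s k81 k93 1 (.s k161 k241 11 (.s k82 k240 12 (.s k83 k80 0 (.d k243 k163
  k162 11 12)))))), (.s k3 k2 0 (.s k169 k253 13 (.s k9 k249 11 (.s k12 k6 2 (.s k86 k252 14 (.s k83
  k92 2 (.d k243 k163 k166 11 14)))))))] (.c k241 (.l (.s k3 k2 0 (.s k81 k93 1 (.s k169 k253 13 (.s
  k86 k252 14 (.s k83 k92 2 (.d k243 k163 k162 11 12))))))) .n)) (.c k8 (.l (.s k81 k93 1 (.s k243
  k162 12 (.s k166 k12 14 (.s k247 k4 12 (.d k255 k251 k170 1 14)))))) (.c k12 (.q k5 [(.s k15 k10 2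
  (.s k165 k245 11 (.s k90 k240 14 (.s k95 k80 2 (.d k255 k175 k170 11 14))))), (.s k93 k81 1 (.s
  k165 k245 11 (.s k13 k241 13 (.s k1 k9 1 (.d k253 k173 k169 11 13)))))] (.c k165 (.l (.s k10 k15 2
  (.s k170 k255 14 (.s k8 k251 12 (.s k11 k9 0 (.s k90 k250 11 (.s k88 k91 0 (.d k248 k168 k169 11
  12)))))))) (.c k245 (.l (.s k15 k10 2 (.s k81 k93 1 (.s k243 k162 12 (.s k91 k167 13 (.s k90 k88 0
  (.s k80 k95 2 (.d k240 k160 k165 11 14)))))))) .n))) (.c k81 (.q k15 [(.s k5 k10 2 (.s k165 k245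
  11 (.s k90 k240 14 (.s k95 k80 2 (.d k255 k175 k170 11 14))))), (.s k5 k10 2 (.s k165 k245 11 (.s
  k13 k241 13 (.s k12 k14 0 (.s k4 k8 1 (.d k166 k247 k243 12 14)))))), (.s k170 k255 14 (.s k8 k251
  12 (.s k12 k4 1 (.s k13 k14 0 (.s k165 k241 13 (.s k160 k175 2 (.d k240 k80 k90 11 14)))))))] (.c
  k165 (.l (.s k10 k5 2 (.s k170 k255 14 (.s k8 k251 12 (.s k11 k9 0 (.s k90 k250 11 (.s k88 k91 0
  (.d k248 k168 k169 11 12)))))))) .n)) (.c k93 (.q k15 [(.s k5 k10 2 (.s k165 k245 11 (.s k90 k240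
  14 (.s k95 k80 2 (.d k255 k175 k170 11 14))))), (.s k5 k10 2 (.s k165 k245 11 (.s k13 k241 13 (.s
  k12 k14 0 (.s k4 k8 1 (.d k166 k247 k243 12 14)))))), (.s k170 k255 14 (.s k8 k251 12 (.s k12 k4 1
  (.s k13 k14 0 (.s k165 k241 13 (.s k160 k175 2 (.d k240 k80 k90 11 14)))))))] (.c k165 (.l (.s k10
  k5 2 (.s k170 k255 14 (.s k8 k251 12 (.s k11 k9 0 (.s k90 k250 11 (.s k88 k91 0 (.d k248 k168 k169
  11 12)))))))) .n)) (.c k162 (.l (.s k93 k81 1 (.s k255 k170 14 (.s k12 k174 12 (.s k166 k243 14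
  (.d k4 k8 k247 1 12)))))) (.c k166 (.q k1 [(.s k81 k93 1 (.s k241 k161 11 (.s k165 k13 13 (.s k245
  k5 11 (.d k253 k249 k169 1 13))))), (.s k3 k2 0 (.s k81 k93 1 (.s k161 k241 11 (.s k82 k240 12 (.s
  k83 k80 0 (.d k243 k163 k162 11 12)))))), (.s k3 k2 0 (.s k169 k253 13 (.s k9 k249 11 (.s k12 k6 2
  (.s k8 k4 1 (.d k170 k251 k255 12 14))))))] (.c k241 (.l (.s k3 k2 0 (.s k81 k93 1 (.s k169 k253
  13 (.s k86 k252 14 (.s k83 k92 2 (.d k243 k163 k162 11 12))))))) .n)) (.c k170 (.f k81 k93 1 (.q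
  k169 [(.s k1 k253 13 (.s k9 k249 11 (.s k13 k5 1 (.d k241 k161 k165 11 13)))), (.s k243 k162 12
  (.s k249 k9 11 (.s k252 k246 2 (.s k84 k168 13 (.d k86 k87 k3 0 14))))), (.s k1 k253 13 (.s k3 k2
  0 (.s k86 k252 14 (.s k83 k92 2 (.d k243 k163 k162 11 12)))))] (.c k130 (.q k150 [(.s k1 k253 13
  (.s k9 k249 11 (.s k13 k5 1 (.d k241 k161 k165 11 13)))), (.s k211 k28 10 (.s k16 k146 8 (.s k215
  k20 8 (.d k223 k219 k154 1 10))))] .n) (.c k150 (.q k130 [(.s k1 k253 13 (.s k9 k249 11 (.s k13 k5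
  1 (.d k241 k161 k165 11 13)))), (.s k65 k195 8 (.s k105 k125 5 (.s k73 k121 3 (.s k77 k69 1 (.d
  k113 k97 k101 3 5)))))] .n) .n)))) (.c k174 (.l (.s k81 k93 1 (.s k243 k162 12 (.s k12 k166 14 (.s
  k170 k255 14 (.d k8 k4 k251 1 12)))))) (.c k243 (.q k5 [(.s k15 k10 2 (.s k165 k245 11 (.s k90
  k240 14 (.s k95 k80 2 (.d k255 k175 k170 11 14))))), (.s k93 k81 1 (.s k165 k245 11 (.s k13 k241
  13 (.s k1 k9 1 (.d k253 k173 k169 11 13))))), (.s k15 k10 2 (.s k93 k81 1 (.s k255 k170 14 (.s k12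
  k174 12 (.s k13 k14 0 (.s k1 k9 1 (.d k253 k169 k173 13 11)))))))] .n) (.c k251 (.l (.s k93 k81 1
  (.s k255 k170 14 (.s k12 k174 12 (.s k4 k8 1 (.d k166 k247 k243 12 14)))))) (.c k255 (.q k3 [(.s
  k1 k2 0 (.s k93 k81 1 (.s k253 k169 13 (.s k13 k173 11 (.s k5 k9 1 (.d k165 k245 k241 11 13)))))),
  (.s k81 k93 1 (.s k243 k162 12 (.s k83 k163 11 (.s k86 k92 2 (.s k84 k87 0 (.d k252 k168 k169 13
  14)))))), (.s k1 k2 0 (.s k169 k253 13 (.s k9 k249 11 (.s k12 k6 2 (.s k4 k8 1 (.d k166 k247 k243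
  12 14))))))] (.c k60 (.q k125 [(.s k93 k81 1 (.s k77 k109 3 (.s k105 k65 5 (.s k113 k101 5 (.d
  k121 k117 k73 1 3))))), (.s k1 k2 0 (.s k81 k93 1 (.s k161 k241 11 (.s k82 k240 12 (.s k83 k80 0
  (.d k243 k163 k162 11 12)))))), (.s k1 k2 0 (.s k65 k105 5 (.s k129 k193 7 (.s k66 k192 8 (.s k67
  k64 0 (.d k195 k131 k130 7 8))))))] .n) (.c k125 (.q k60 [(.s k2 k1 0 (.s k20 k40 5 (.s k22 k41 6
  (.s k21 k23 0 (.d k42 k62 k63 5 6))))), (.s k1 k2 0 (.s k81 k93 1 (.s k161 k241 11 (.s k82 k240 12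
  (.s k83 k80 0 (.d k243 k163 k162 11 12)))))), (.s k20 k40 5 (.s k22 k41 6 (.s k150 k215 8 (.s k86
  k214 7 (.s k84 k87 0 (.d k252 k168 k169 13 14))))))] .n) (.c k169 (.l (.s k1 k2 0 (.s k81 k93 1
  (.s k161 k241 11 (.s k82 k240 12 (.s k83 k80 0 (.d k243 k163 k162 11 12))))))) .n))))
  .n)))))))))))))

def t171_191 : T TT 256 :=
  (.q k150 [(.s k20 k215 8 (.s k60 k40 5 (.s k105 k195 14 (.s k125 k65 5 (.d k255 k190 k170 8
  14)))))] (.c k20 (.q k48 [(.s k16 k32 3 (.s k154 k223 10 (.s k101 k207 14 (.s k117 k69 3 (.d k255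
  k186 k170 10 14))))), (.s k16 k32 3 (.s k170 k255 14 (.s k130 k190 5 (.s k195 k65 8 (.s k146 k97
  12 (.s k81 k211 8 (.d k162 k178 k243 3 12))))))), (.s k170 k255 14 (.s k130 k190 5 (.s k195 k65 8
  (.s k146 k97 12 (.s k154 k158 1 (.s k138 k186 3 (.d k207 k69 k101 10 14))))))), (.s k16 k32 3 (.s
  k154 k223 10 (.s k146 k158 1 (.s k195 k97 12 (.s k65 k130 8 (.d k105 k125 k60 5 14))))))] (.c k131
  (.q k151 [(.s k16 k32 3 (.s k154 k223 10 (.s k101 k207 14 (.s k117 k69 3 (.d k255 k186 k170 10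
  14))))), (.s k149 k148 0 (.s k21 k213 7 (.s k63 k42 6 (.s k170 k255 14 (.s k130 k190 5 (.d k195
  k65 k107 8 13)))))), (.s k16 k32 3 (.s k154 k223 10 (.s k146 k158 1 (.s k195 k97 12 (.s k65 k130 8
  (.d k105 k125 k60 5 14))))))] .n) (.c k151 (.q k131 [(.s k16 k32 3 (.s k154 k223 10 (.s k101 k207
  14 (.s k117 k69 3 (.d k255 k186 k170 10 14))))), (.s k169 k188 6 (.s k1 k253 13 (.s k3 k2 0 (.s
  k170 k255 14 (.s k195 k67 7 (.d k130 k190 k65 5 8)))))), (.s k16 k32 3 (.s k154 k223 10 (.s k146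
  k158 1 (.s k195 k97 12 (.s k65 k130 8 (.d k105 k125 k60 5 14))))))] .n) .n))) (.c k40 (.l (.s k215
  k20 8 (.s k255 k170 14 (.s k195 k235 5 (.s k105 k60 14 (.d k65 k125 k130 5 8)))))) (.c k60 (.f
  k215 k20 8 (.q k166 [(.s k182 k134 3 (.s k247 k4 12 (.s k52 k117 8 (.d k199 k231 k101 3 12)))),
  (.s k134 k182 3 (.s k255 k170 14 (.s k195 k235 5 (.s k12 k73 10 (.s k93 k174 12 (.d k89 k243 k81
  14 1)))))), (.s k4 k247 12 (.s k12 k8 1 (.s k170 k255 14 (.s k162 k174 1 (.d k243 k81 k89 12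
  14)))))] (.c k131 (.q k151 [(.s k149 k148 0 (.s k213 k21 7 (.s k212 k214 0 (.d k23 k87 k86 7
  8)))), (.s k182 k134 3 (.s k247 k4 12 (.s k52 k117 8 (.d k199 k231 k101 3 12))))] .n) (.c k151 (.q
  k131 [(.s k182 k134 3 (.s k247 k4 12 (.s k52 k117 8 (.d k199 k231 k101 3 12)))), (.s k134 k182 3
  (.s k140 k137 2 (.s k153 k179 6 (.s k156 k147 2 (.d k188 k172 k169 3 6))))), (.s k4 k247 12 (.s
  k12 k8 1 (.s k170 k255 14 (.s k162 k174 1 (.d k243 k81 k89 12 14)))))] .n) .n)))) (.c k65 (.f k215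
  k20 8 (.q k151 [(.s k149 k148 0 (.s k213 k21 7 (.s k212 k214 0 (.d k23 k87 k86 7 8)))), (.s k149
  k148 0 (.s k255 k170 14 (.s k195 k235 5 (.s k105 k60 14 (.s k193 k61 13 (.s k192 k194 0 (.d k63
  k107 k106 13 14))))))), (.s k87 k23 7 (.s k255 k170 14 (.s k195 k235 5 (.s k105 k60 14 (.s k107
  k63 13 (.s k67 k127 5 (.d k86 k84 k124 0 6)))))))] (.c k84 (.l (.s k23 k87 7 (.s k149 k148 0 (.s
  k212 k86 8 (.d k213 k214 k21 0 7))))) (.c k149 (.f k87 k23 7 (.l (.s k86 k84 0 (.s k22 k214 7 (.s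
  k170 k255 14 (.s k2 k254 13 (.s k62 k42 5 (.s k130 k190 5 (.d k194 k66 k106 7 13))))))))) .n))))
  (.c k105 (.f k215 k20 8 (.q k146 [(.s k154 k158 1 (.s k16 k223 10 (.s k48 k32 3 (.s k195 k97 12
  (.d k255 k235 k170 5 14))))), (.s k154 k158 1 (.s k170 k255 14 (.s k130 k190 5 (.s k138 k186 3 (.s
  k142 k134 1 (.d k178 k162 k166 3 5)))))), (.s k170 k255 14 (.s k130 k190 5 (.s k162 k178 3 (.s k81
  k243 12 (.s k89 k93 1 (.d k211 k16 k28 8 10)))))), (.s k154 k158 1 (.s k16 k223 10 (.s k48 k32 3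
  (.s k81 k211 8 (.s k97 k195 12 (.s k113 k65 3 (.d k243 k178 k162 8 12)))))))] (.c k48 (.l (.s k154
  k158 1 (.s k16 k223 10 (.s k81 k211 8 (.s k162 k243 12 (.s k170 k255 14 (.d k130 k178 k190 3
  5))))))) (.c k131 (.q k151 [(.s k149 k148 0 (.s k213 k21 7 (.s k212 k214 0 (.d k23 k87 k86 7
  8)))), (.s k154 k158 1 (.s k16 k223 10 (.s k48 k32 3 (.s k195 k97 12 (.d k255 k235 k170 5 14)))))]
  .n) (.c k151 (.q k131 [(.s k169 k188 6 (.s k1 k253 13 (.s k3 k2 0 (.s k195 k67 7 (.d k255 k235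
  k170 5 14))))), (.s k154 k158 1 (.s k16 k223 10 (.s k48 k32 3 (.s k195 k97 12 (.d k255 k235 k170 5
  14))))), (.s k154 k158 1 (.s k169 k188 6 (.s k139 k184 4 (.s k143 k135 1 (.d k176 k161 k165 4
  6)))))] .n) (.c k162 (.l (.s k154 k158 1 (.s k16 k223 10 (.s k48 k32 3 (.s k255 k170 14 (.d k195
  k235 k97 5 12)))))) .n)))))) (.c k125 (.l (.s k20 k215 8 (.s k60 k40 5 (.s k170 k255 14 (.s k130
  k190 5 (.d k195 k65 k105 8 14)))))) (.c k131 (.q k151 [(.s k20 k215 8 (.s k60 k40 5 (.s k195 k105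
  14 (.s k130 k65 8 (.d k170 k190 k255 5 14))))), (.s k149 k148 0 (.s k213 k21 7 (.s k215 k20 8 (.s
  k212 k214 0 (.d k23 k87 k86 7 8))))), (.s k149 k148 0 (.s k21 k213 7 (.s k63 k42 6 (.s k170 k255
  14 (.s k130 k190 5 (.d k195 k65 k107 8 13))))))] .n) (.c k151 (.q k131 [(.s k20 k215 8 (.s k60 k40
  5 (.s k195 k105 14 (.s k130 k65 8 (.d k170 k190 k255 5 14))))), (.s k169 k188 6 (.s k253 k1 13 (.s
  k255 k170 14 (.s k252 k254 0 (.s k84 k168 13 (.d k86 k87 k3 0 14)))))), (.s k215 k20 8 (.s k255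
  k170 14 (.s k195 k235 5 (.s k105 k60 14 (.d k65 k125 k130 5 8))))), (.s k20 k215 8 (.s k60 k40 5
  (.s k169 k188 6 (.s k1 k253 13 (.s k3 k2 0 (.d k195 k67 k105 7 14))))))] .n) (.c k170 (.f k20 k215
  8 (.q k169 [(.s k1 k253 13 (.s k3 k2 0 (.s k60 k40 5 (.s k131 k188 6 (.d k195 k105 k67 14 7))))),
  (.s k1 k253 13 (.s k60 k40 5 (.s k105 k195 14 (.s k41 k233 7 (.s k61 k21 5 (.s k65 k125 5 (.d k193
  k149 k129 13 7))))))), (.s k1 k253 13 (.s k3 k2 0 (.s k86 k252 14 (.s k22 k214 7 (.s k23 k21 0 (.s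
  k84 k87 0 (.d k212 k149 k148 8 7))))))), (.s k60 k40 5 (.s k105 k195 14 (.s k41 k233 7 (.s k3 k22
  6 (.s k252 k86 14 (.d k188 k131 k124 6 7))))))] (.c k128 (.q k149 [(.s k21 k213 7 (.s k23 k22 0
  (.s k212 k86 8 (.d k148 k151 k84 0 7)))), (.s k1 k253 13 (.s k3 k2 0 (.s k60 k40 5 (.s k131 k188 6
  (.d k195 k105 k67 14 7))))), (.s k1 k253 13 (.s k21 k213 7 (.s k22 k23 0 (.s k41 k61 5 (.d k60 k40
  k3 5 6)))))] (.c k131 (.l (.s k151 k148 0 (.s k21 k213 7 (.s k60 k40 5 (.s k63 k42 6 (.d k195 k105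
  k107 14 13)))))) (.c k151 (.l (.s k131 k188 6 (.s k1 k253 13 (.s k3 k2 0 (.s k60 k40 5 (.d k195
  k105 k67 14 7)))))) .n))) (.c k131 (.q k151 [(.s k1 k253 13 (.s k3 k2 0 (.s k86 k252 14 (.s k84
  k87 0 (.d k148 k149 k212 0 7))))), (.s k60 k40 5 (.s k149 k148 0 (.s k21 k213 7 (.s k63 k42 6 (.d
  k195 k105 k107 14 13))))), (.s k1 k253 13 (.s k3 k2 0 (.s k60 k40 5 (.s k22 k41 6 (.d k86 k214
  k252 7 14)))))] (.c k128 (.l (.s k149 k148 0 (.s k21 k213 7 (.s k60 k40 5 (.s k63 k42 6 (.d k195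
  k105 k107 14 13)))))) (.c k149 (.q k128 [(.s k1 k253 13 (.s k3 k2 0 (.s k60 k40 5 (.s k86 k252 14
  (.d k22 k41 k214 6 7))))), (.s k60 k40 5 (.s k192 k64 7 (.s k148 k104 13 (.s k84 k212 7 (.d k168
  k188 k252 5 13))))), (.s k1 k253 13 (.s k3 k2 0 (.s k86 k252 14 (.s k22 k214 7 (.s k21 k23 0 (.d
  k41 k61 k60 5 6)))))), (.s k1 k253 13 (.s k3 k2 0 (.s k60 k40 5 (.s k41 k22 6 (.d k105 k233 k195 7
  14)))))] (.c k60 (.f k1 k253 13 (.l (.s k3 k2 0 (.s k64 k192 7 (.s k86 k252 14 (.s k22 k214 7 (.s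
  k23 k21 0 (.s k43 k63 5 (.d k106 k127 k232 6 8))))))))) (.c k86 (.l (.s k1 k253 13 (.s k60 k40 5
  (.s k105 k195 14 (.s k41 k233 7 (.d k3 k2 k22 0 6)))))) .n))) .n))) (.c k149 (.q k128 [(.s k60 k40
  5 (.s k131 k188 6 (.s k130 k129 0 (.d k195 k105 k65 14 8)))), (.s k1 k253 13 (.s k3 k2 0 (.s k86
  k252 14 (.s k22 k214 7 (.d k60 k40 k41 5 6))))), (.s k1 k253 13 (.s k3 k2 0 (.s k131 k188 6 (.s
  k129 k130 0 (.d k192 k66 k64 8 7)))))] (.c k131 (.q k151 [(.s k1 k253 13 (.s k3 k2 0 (.s k60 k40 5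
  (.s k86 k252 14 (.d k22 k41 k214 6 7))))), (.s k60 k40 5 (.s k192 k64 7 (.s k148 k104 13 (.s k84
  k212 7 (.d k168 k188 k252 5 13))))), (.s k1 k253 13 (.s k3 k2 0 (.s k86 k252 14 (.s k22 k214 7 (.s
  k21 k23 0 (.d k41 k61 k60 5 6)))))), (.s k1 k253 13 (.s k3 k2 0 (.s k60 k40 5 (.s k41 k22 6 (.d
  k105 k233 k195 7 14)))))] (.c k60 (.f k1 k253 13 (.l (.s k3 k2 0 (.s k64 k192 7 (.s k86 k252 14
  (.s k22 k214 7 (.s k23 k21 0 (.s k43 k63 5 (.d k106 k127 k232 6 8))))))))) (.c k86 (.l (.s k1 k253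
  13 (.s k60 k40 5 (.s k105 k195 14 (.s k41 k233 7 (.d k3 k2 k22 0 6)))))) .n))) (.c k151 (.l (.s
  k131 k188 6 (.s k60 k40 5 (.s k130 k129 0 (.d k195 k105 k65 14 8))))) .n))) (.c k151 (.l (.s k131
  k188 6 (.s k1 k253 13 (.s k3 k2 0 (.s k60 k40 5 (.d k195 k105 k67 14 7)))))) (.c k195 (.l (.s k1
  k253 13 (.s k3 k2 0 (.s k60 k40 5 (.s k22 k41 6 (.d k86 k214 k252 7 14)))))) .n))))))) (.c k190
  (.l (.s k215 k20 8 (.s k255 k170 14 (.s k195 k235 5 (.s k65 k130 8 (.d k105 k125 k60 5 14))))))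
  (.c k195 (.q k151 [(.s k149 k148 0 (.s k213 k21 7 (.s k215 k20 8 (.s k23 k87 7 (.d k212 k214 k86 0
  8))))), (.s k149 k148 0 (.s k213 k21 7 (.s k255 k170 14 (.s k192 k234 6 (.s k64 k128 7 (.d k106
  k127 k63 6 14)))))), (.s k20 k215 8 (.s k60 k40 5 (.s k148 k149 0 (.s k192 k104 13 (.s k128 k64 7
  (.s k168 k188 5 (.d k84 k212 k252 7 13)))))))] (.c k148 (.q k4 [(.s k166 k247 12 (.s k134 k182 3
  (.s k199 k69 8 (.s k52 k101 12 (.d k20 k36 k215 3 8))))), (.s k12 k8 1 (.s k166 k247 12 (.s k89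
  k243 14 (.s k93 k81 1 (.d k255 k174 k170 12 14))))), (.s k12 k8 1 (.s k20 k215 8 (.s k36 k52 3 (.s
  k24 k48 5 (.s k28 k16 1 (.d k60 k44 k40 3 5))))))] .n) (.c k149 (.f k170 k255 14 (.f k130 k190 5
  (.l (.s k215 k20 8 (.s k87 k23 7 (.s k86 k84 0 (.s k2 k254 13 (.s k22 k214 7 (.s k62 k42 5 (.d
  k194 k66 k106 7 13)))))))))) (.c k255 (.l (.s k149 k148 0 (.s k213 k21 7 (.s k215 k20 8 (.s k212
  k214 0 (.d k23 k87 k86 7 8)))))) .n)))) (.c k215 (.q k151 [(.s k149 k148 0 (.s k213 k21 7 (.s k255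
  k170 14 (.s k192 k234 6 (.s k106 k63 14 (.d k64 k127 k128 6 7)))))), (.s k149 k148 0 (.s k21 k213
  7 (.s k63 k42 6 (.s k195 k107 13 (.s k65 k130 8 (.d k105 k125 k60 5 14))))))] (.c k21 (.q k3 [(.s
  k1 k2 0 (.s k148 k149 0 (.s k169 k253 13 (.s k188 k131 6 (.s k252 k86 14 (.d k168 k128 k84 5
  13)))))), (.s k1 k2 0 (.s k169 k253 13 (.s k131 k188 6 (.s k195 k67 7 (.s k65 k130 8 (.d k105 k125
  k60 5 14)))))), (.s k148 k149 0 (.s k170 k255 14 (.s k130 k190 5 (.s k195 k65 8 (.s k131 k67 7 (.s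
  k188 k169 6 (.d k128 k129 k168 0 5))))))), (.s k2 k1 0 (.s k170 k255 14 (.s k86 k254 13 (.s k84
  k87 0 (.d k252 k168 k169 13 14)))))] (.c k169 (.l (.s k2 k1 0 (.s k170 k255 14 (.s k86 k254 13 (.s
  k22 k214 7 (.s k62 k42 5 (.s k130 k190 5 (.d k194 k66 k106 7 13)))))))) .n)) (.c k42 (.l (.s k149
  k148 0 (.s k213 k21 7 (.s k255 k170 14 (.s k192 k234 6 (.s k106 k63 14 (.d k64 k127 k128 6
  7))))))) (.c k63 (.f k149 k148 0 (.f k213 k21 7 (.f k255 k170 14 (.l (.s k192 k234 6 (.s k64 k128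
  7 (.s k106 k127 6 (.s k194 k62 13 (.s k195 k193 0 (.s k65 k130 8 (.d k105 k60 k125 14 5)))))))))))
  (.c k148 (.q k4 [(.s k12 k8 1 (.s k166 k247 12 (.s k89 k243 14 (.s k93 k81 1 (.d k255 k174 k170 12
  14))))), (.s k12 k8 1 (.s k166 k247 12 (.s k134 k182 3 (.s k195 k73 10 (.s k65 k130 8 (.d k105
  k125 k60 5 14)))))), (.s k12 k8 1 (.s k170 k255 14 (.s k130 k190 5 (.s k195 k65 8 (.s k134 k73 10
  (.s k138 k142 1 (.d k69 k199 k207 8 10))))))), (.s k166 k247 12 (.s k134 k182 3 (.s k170 k255 14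
  (.s k130 k190 5 (.s k138 k142 1 (.d k69 k199 k207 8 10))))))] (.c k199 (.l (.s k12 k8 1 (.s k255
  k170 14 (.s k93 k174 12 (.s k89 k81 1 (.d k166 k247 k243 12 14)))))) .n)) (.c k149 (.f k170 k255
  14 (.l (.s k130 k190 5 (.s k195 k65 8 (.s k60 k105 14 (.s k63 k107 13 (.s k42 k21 6 (.s k106 k234
  7 (.d k62 k61 k194 0 13))))))))) (.c k213 (.l (.s k149 k148 0 (.s k170 k255 14 (.s k130 k190 5 (.s
  k195 k65 8 (.s k63 k107 13 (.s k42 k21 6 (.d k106 k234 k192 7 14)))))))) .n))))))) (.c k235 (.l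
  (.s k20 k215 8 (.s k60 k40 5 (.s k105 k195 14 (.s k255 k170 14 (.d k125 k65 k190 5 8)))))) (.c
  k255 (.q k63 [(.s k20 k215 8 (.s k21 k42 6 (.s k22 k23 0 (.s k60 k40 5 (.s k61 k62 0 (.d k41 k3 k1
  6 5)))))), (.s k21 k42 6 (.s k149 k213 7 (.s k151 k148 0 (.s k195 k107 13 (.s k65 k130 8 (.d k105
  k125 k60 5 14)))))), (.s k20 k215 8 (.s k60 k40 5 (.s k62 k61 0 (.s k106 k194 13 (.s k64 k127 6
  (.d k192 k128 k149 7 14))))))] (.c k3 (.q k87 [(.s k21 k42 6 (.s k86 k84 0 (.s k22 k214 7 (.d k20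
  k23 k215 0 8)))), (.s k20 k215 8 (.s k60 k40 5 (.s k62 k61 0 (.s k106 k194 13 (.s k64 k127 6 (.d
  k192 k128 k149 7 14))))))] (.c k20 (.l (.s k21 k42 6 (.s k149 k213 7 (.s k151 k148 0 (.s k23 k215
  7 (.d k86 k84 k212 0 8)))))) (.c k131 (.q k151 [(.d k215 k23 k20 7 8), (.s k21 k42 6 (.d k149 k148
  k213 0 7))] (.c k67 (.l (.s k195 k107 13 (.d k215 k23 k20 7 8))) (.c k195 (.q k67 [(.d k215 k23
  k20 7 8), (.s k21 k42 6 (.d k149 k148 k213 0 7))] (.c k215 (.q k235 [(.s k21 k42 6 (.d k149 k148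
  k213 0 7)), (.s k86 k84 0 (.s k105 k124 6 (.s k65 k125 5 (.s k64 k66 0 (.d k127 k107 k106 5
  6)))))] .n) (.c k235 (.l (.d k215 k23 k20 7 8)) .n))) .n))) (.c k151 (.q k131 [(.s k21 k42 6 (.s
  k86 k84 0 (.s k22 k214 7 (.d k20 k23 k215 0 8)))), (.s k21 k42 6 (.s k84 k86 0 (.s k149 k213 7 (.s
  k169 k188 6 (.s k189 k129 5 (.d k252 k126 k168 8 13)))))), (.s k20 k215 8 (.s k60 k40 5 (.s k84
  k86 0 (.s k188 k169 6 (.d k252 k168 k124 13 7))))), (.s k20 k215 8 (.s k21 k42 6 (.s k60 k40 5 (.s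
  k61 k62 0 (.s k149 k213 7 (.d k105 k195 k193 14 13))))))] .n) (.c k215 (.l (.s k21 k42 6 (.s k86
  k84 0 (.s k22 k214 7 (.s k23 k20 0 (.d k149 k213 k212 7 8)))))) .n))))) (.c k60 (.l (.s k20 k215 8
  (.s k21 k42 6 (.s k23 k22 0 (.s k149 k213 7 (.s k212 k86 8 (.d k148 k151 k84 0 7))))))) (.c k87
  (.q k3 [(.s k20 k215 8 (.s k21 k42 6 (.d k23 k22 k43 0 5))), (.s k1 k2 0 (.s k21 k42 6 (.s k41 k61
  5 (.s k22 k60 6 (.s k86 k214 7 (.d k169 k253 k252 13 14))))))] (.c k21 (.l (.s k1 k2 0 (.s k20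
  k215 8 (.s k60 k40 5 (.s k22 k41 6 (.s k86 k214 7 (.d k169 k253 k252 13 14))))))) (.c k22 (.l (.s
  k20 k215 8 (.s k40 k60 5 (.s k42 k21 6 (.d k43 k23 k41 5 0))))) (.c k42 (.l (.s k20 k215 8 (.s k23
  k43 5 (.s k22 k21 0 (.d k60 k40 k41 5 6))))) (.c k131 (.q k151 [(.s k21 k42 6 (.d k149 k148 k213 0
  7)), (.s k20 k215 8 (.s k60 k40 5 (.d k195 k107 k105 13 14)))] .n) (.c k151 (.q k131 [(.s k1 k2 0
  (.d k169 k188 k253 6 13)), (.s k20 k215 8 (.s k23 k43 5 (.d k21 k22 k42 0 6)))] (.c k23 (.l (.s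
  k215 k20 8 (.s k1 k2 0 (.d k169 k188 k253 6 13)))) (.c k215 (.l (.s k23 k43 5 (.s k1 k2 0 (.d k169
  k188 k253 6 13)))) .n))) .n)))))) (.c k131 (.q k151 [(.s k21 k42 6 (.d k149 k148 k213 0 7)), (.s
  k20 k215 8 (.s k60 k40 5 (.d k195 k107 k105 13 14)))] (.c k3 (.q k87 [(.d k215 k23 k20 7 8), (.s
  k21 k42 6 (.d k149 k148 k213 0 7))] (.c k67 (.l (.s k195 k107 13 (.d k215 k23 k20 7 8))) (.c k195
  (.q k67 [(.d k215 k23 k20 7 8), (.s k21 k42 6 (.d k149 k148 k213 0 7))] (.c k215 (.q k235 [(.s k21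
  k42 6 (.d k149 k148 k213 0 7)), (.s k86 k84 0 (.s k105 k124 6 (.s k65 k125 5 (.s k64 k66 0 (.d
  k127 k107 k106 5 6)))))] .n) (.c k235 (.l (.d k215 k23 k20 7 8)) .n))) .n))) (.c k87 (.q k3 [(.s
  k21 k42 6 (.d k149 k148 k213 0 7)), (.s k20 k215 8 (.s k60 k40 5 (.d k195 k107 k105 13 14)))] .n)
  .n))) (.c k151 (.q k131 [(.s k21 k42 6 (.s k149 k213 7 (.s k169 k188 6 (.s k192 k106 14 (.s k128
  k64 7 (.d k129 k189 k130 5 0)))))), (.s k20 k215 8 (.s k21 k42 6 (.s k23 k22 0 (.s k3 k43 5 (.s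
  k195 k67 7 (.d k60 k40 k105 5 14)))))), (.s k20 k215 8 (.s k60 k40 5 (.s k62 k61 0 (.s k106 k194
  13 (.s k64 k127 6 (.d k192 k128 k149 7 14))))))] (.c k3 (.q k87 [(.s k21 k42 6 (.s k86 k84 0 (.s
  k22 k214 7 (.d k20 k23 k215 0 8)))), (.s k21 k42 6 (.s k84 k86 0 (.s k149 k213 7 (.s k169 k188 6
  (.s k189 k129 5 (.d k252 k126 k168 8 13)))))), (.s k20 k215 8 (.s k60 k40 5 (.s k84 k86 0 (.s k188
  k169 6 (.d k252 k168 k124 13 7))))), (.s k20 k215 8 (.s k21 k42 6 (.s k60 k40 5 (.s k61 k62 0 (.s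
  k149 k213 7 (.d k105 k195 k193 14 13))))))] .n) (.c k87 (.q k3 [(.s k1 k2 0 (.d k169 k188 k253 6
  13)), (.s k20 k215 8 (.s k23 k43 5 (.d k21 k22 k42 0 6)))] (.c k23 (.l (.s k215 k20 8 (.s k1 k2 0
  (.d k169 k188 k253 6 13)))) (.c k215 (.l (.s k23 k43 5 (.s k1 k2 0 (.d k169 k188 k253 6 13))))
  .n))) .n))) (.c k195 (.f k21 k42 6 (.f k149 k213 7 (.l (.s k151 k148 0 (.s k215 k20 8 (.s k23 k87
  7 (.s k3 k43 5 (.s k1 k2 0 (.s k169 k253 13 (.d k86 k212 k252 8 14)))))))))) (.c k235 (.f k21 k42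
  6 (.l (.s k149 k213 7 (.s k151 k148 0 (.s k107 k195 13 (.s k215 k20 8 (.s k87 k23 7 (.s k127 k67 5
  (.d k106 k192 k64 14 6))))))))) .n)))))))) .n)))))))))))))))

def t171_254 : T TT 256 :=
  (.q k101 [(.s k69 k117 3 (.s k207 k138 10 (.s k48 k154 14 (.s k32 k16 3 (.d k170 k239 k255 10
  14)))))] (.c k16 (.q k1 [(.s k69 k117 3 (.s k205 k137 9 (.s k153 k49 13 (.s k221 k17 9 (.d k253
  k237 k169 3 13))))), (.s k3 k2 0 (.s k69 k117 3 (.s k137 k205 9 (.s k70 k204 10 (.s k71 k68 0 (.d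
  k207 k139 k138 9 10)))))), (.s k3 k2 0 (.s k169 k253 13 (.s k33 k237 9 (.s k48 k18 4 (.s k154 k207
  14 (.s k184 k139 4 (.d k252 k86 k116 14 9)))))))] (.c k205 (.l (.s k3 k2 0 (.s k69 k117 3 (.s k169
  k253 13 (.s k207 k138 10 (.s k48 k154 14 (.d k33 k237 k18 9 4))))))) .n)) (.c k32 (.l (.s k69 k117
  3 (.s k207 k138 10 (.s k154 k48 14 (.s k223 k16 10 (.d k255 k239 k170 3 14)))))) (.c k48 (.q k4
  [(.s k12 k8 1 (.s k166 k247 12 (.s k89 k243 14 (.s k93 k81 1 (.d k255 k174 k170 12 14))))), (.s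
  k69 k117 3 (.s k166 k247 12 (.s k36 k231 8 (.s k52 k20 3 (.d k199 k134 k150 8 12))))), (.s k12 k8
  1 (.s k69 k117 3 (.s k134 k199 8 (.s k73 k195 10 (.s k77 k65 1 (.d k207 k142 k138 8 10))))))] (.c
  k255 (.l (.s k117 k69 3 (.s k247 k166 12 (.s k52 k182 8 (.s k20 k36 3 (.d k150 k215 k199 8
  12)))))) .n)) (.c k69 (.q k4 [(.s k12 k8 1 (.s k166 k247 12 (.s k89 k243 14 (.s k93 k81 1 (.d k255
  k174 k170 12 14))))), (.s k12 k8 1 (.s k166 k247 12 (.s k36 k231 8 (.s k48 k24 5 (.s k16 k32 3 (.d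
  k154 k223 k207 10 14)))))), (.s k166 k247 12 (.s k36 k231 8 (.s k20 k52 3 (.s k40 k60 5 (.s k170
  k255 14 (.d k32 k44 k239 1 10)))))), (.s k12 k8 1 (.s k170 k255 14 (.s k32 k239 10 (.s k48 k16 3
  (.s k36 k24 5 (.s k20 k52 3 (.d k40 k44 k60 1 5)))))))] .n) (.c k117 (.q k4 [(.s k12 k8 1 (.s k166
  k247 12 (.s k89 k243 14 (.s k93 k81 1 (.d k255 k174 k170 12 14))))), (.s k12 k8 1 (.s k166 k247 12
  (.s k36 k231 8 (.s k48 k24 5 (.s k16 k32 3 (.d k154 k223 k207 10 14)))))), (.s k12 k8 1 (.s k170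
  k255 14 (.s k32 k239 10 (.s k48 k16 3 (.s k36 k24 5 (.s k40 k44 1 (.d k20 k52 k60 3 5))))))), (.s
  k166 k247 12 (.s k36 k231 8 (.s k170 k255 14 (.s k32 k239 10 (.s k40 k44 1 (.d k20 k52 k60 3
  5))))))] (.c k52 (.l (.s k12 k8 1 (.s k255 k170 14 (.s k93 k174 12 (.s k89 k81 1 (.d k166 k247
  k243 12 14)))))) .n)) (.c k138 (.l (.s k117 k69 3 (.s k255 k170 14 (.s k48 k186 10 (.s k154 k207
  14 (.d k16 k32 k223 3 10)))))) (.c k154 (.q k1 [(.s k69 k117 3 (.s k205 k137 9 (.s k153 k49 13 (.s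
  k221 k17 9 (.d k253 k237 k169 3 13))))), (.s k3 k2 0 (.s k69 k117 3 (.s k137 k205 9 (.s k70 k204
  10 (.s k71 k68 0 (.d k207 k139 k138 9 10)))))), (.s k3 k2 0 (.s k169 k253 13 (.s k33 k237 9 (.s
  k48 k18 4 (.s k32 k16 3 (.d k170 k255 k239 14 10))))))] (.c k205 (.l (.s k3 k2 0 (.s k69 k117 3
  (.s k169 k253 13 (.s k207 k138 10 (.s k71 k139 9 (.d k86 k252 k116 14 4))))))) .n)) (.c k170 (.f
  k69 k117 3 (.q k1 [(.s k205 k137 9 (.s k153 k49 13 (.s k221 k17 9 (.d k253 k169 k237 13 3)))), (.s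
  k137 k205 9 (.s k138 k207 10 (.s k136 k139 0 (.s k204 k68 9 (.d k3 k2 k70 0 10))))), (.s k169 k253
  13 (.s k207 k138 10 (.s k154 k48 14 (.s k139 k184 4 (.d k3 k2 k71 0 9)))))] (.c k2 (.q k86 [(.s
  k84 k87 0 (.s k252 k168 13 (.d k169 k3 k253 14 13))), (.s k71 k116 4 (.s k68 k70 0 (.s k87 k84 0
  (.d k119 k103 k102 3 4)))), (.s k71 k116 4 (.s k169 k253 13 (.s k207 k138 10 (.d k3 k252 k139 14
  9))))] (.c k168 (.l (.s k169 k253 13 (.s k33 k237 9 (.s k49 k17 3 (.d k205 k137 k153 9 13))))) (.c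
  k169 (.q k168 [(.d k84 k87 k252 0 13), (.s k71 k116 4 (.s k68 k70 0 (.s k136 k204 9 (.s k137 k205
  9 (.d k138 k207 k139 10 0)))))] .n) .n))) (.c k86 (.l (.s k2 k3 0 (.s k169 k253 13 (.s k33 k237 9
  (.s k49 k17 3 (.d k205 k137 k153 9 13)))))) (.c k168 (.l (.s k169 k253 13 (.s k33 k237 9 (.s k49
  k17 3 (.d k205 k137 k153 9 13))))) (.c k169 (.q k168 [(.s k84 k252 13 (.s k3 k2 0 (.s k86 k87 0
  (.s k71 k116 4 (.d k207 k139 k138 9 10))))), (.s k205 k137 9 (.s k153 k49 13 (.s k17 k221 9 (.s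
  k51 k34 4 (.s k207 k138 10 (.d k204 k102 k206 14 0)))))), (.s k84 k252 13 (.s k3 k2 0 (.s k86 k87
  0 (.s k71 k116 4 (.s k70 k68 0 (.d k137 k205 k204 9 10))))))] (.c k2 (.q k86 [(.d k84 k87 k252 0
  13), (.s k71 k116 4 (.s k68 k70 0 (.s k136 k204 9 (.s k137 k205 9 (.d k138 k207 k139 10 0)))))]
  .n) (.c k86 (.l (.s k2 k3 0 (.s k252 k84 13 (.s k205 k137 9 (.s k153 k49 13 (.s k207 k138 10 (.s
  k221 k17 9 (.d k237 k253 k222 3 4)))))))) (.c k253 (.l (.s k137 k205 9 (.s k138 k207 10 (.s k136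
  k139 0 (.s k204 k68 9 (.d k3 k2 k70 0 10)))))) .n)))) .n)))))) (.c k186 (.l (.s k69 k117 3 (.s
  k207 k138 10 (.s k48 k154 14 (.s k170 k255 14 (.d k32 k16 k239 3 10)))))) (.c k207 (.q k8 [(.s k4
  k12 1 (.s k69 k117 3 (.s k166 k247 12 (.s k199 k134 8 (.s k52 k150 12 (.d k36 k20 k231 3 8)))))),
  (.s k12 k4 1 (.s k170 k255 14 (.s k89 k251 12 (.s k81 k93 1 (.d k243 k162 k166 12 14))))), (.s k69
  k117 3 (.s k170 k255 14 (.s k89 k251 12 (.s k77 k113 5 (.s k65 k73 1 (.s k93 k81 1 (.d k125 k109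
  k105 3 5)))))))] (.c k247 (.l (.s k12 k4 1 (.s k170 k255 14 (.s k89 k251 12 (.s k243 k166 14 (.d
  k81 k93 k162 1 12)))))) .n)) (.c k239 (.l (.s k117 k69 3 (.s k255 k170 14 (.s k48 k186 10 (.s k16
  k32 3 (.d k154 k223 k207 10 14)))))) (.c k255 (.q k3 [(.s k1 k2 0 (.s k117 k69 3 (.s k253 k169 13
  (.s k49 k185 9 (.s k17 k33 3 (.d k153 k221 k205 9 13)))))), (.s k69 k117 3 (.s k207 k138 10 (.s
  k71 k139 9 (.s k86 k116 4 (.s k84 k87 0 (.d k252 k168 k169 13 14)))))), (.s k2 k1 0 (.s k69 k117 3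
  (.s k138 k207 10 (.s k70 k206 9 (.s k68 k71 0 (.d k204 k136 k137 9 10))))))] (.c k69 (.q k169 [(.d
  k1 k253 k2 13 0), (.s k33 k237 9 (.s k48 k18 4 (.s k16 k32 3 (.d k154 k223 k207 10 14))))] (.c
  k252 (.l (.s k253 k1 13 (.s k33 k237 9 (.s k48 k18 4 (.s k16 k32 3 (.d k154 k207 k223 14 10))))))
  (.c k253 (.l (.s k252 k86 14 (.s k33 k237 9 (.s k48 k18 4 (.s k16 k32 3 (.d k154 k223 k207 10
  14)))))) .n))) (.c k117 (.q k48 [(.s k16 k32 3 (.d k154 k223 k207 10 14)), (.s k1 k2 0 (.s k33 k18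
  4 (.d k169 k253 k237 13 9)))] (.c k252 (.q k253 [(.d k1 k2 k169 0 13), (.s k16 k32 3 (.d k154 k223
  k207 10 14))] .n) (.c k253 (.q k252 [(.s k16 k32 3 (.d k154 k223 k207 10 14)), (.s k33 k18 4 (.d
  k169 k237 k86 9 14))] (.c k49 (.q k185 [(.s k16 k32 3 (.d k154 k223 k207 10 14)), (.s k33 k18 4
  (.d k169 k237 k86 9 14))] .n) (.c k185 (.q k49 [(.s k16 k32 3 (.d k154 k223 k207 10 14)), (.s k1
  k2 0 (.d k33 k17 k18 3 4))] .n) .n))) .n))) (.c k137 (.l (.s k1 k2 0 (.s k69 k117 3 (.s k207 k138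
  10 (.s k48 k154 14 (.s k33 k18 4 (.d k169 k237 k253 9 13))))))) (.c k252 (.q k253 [(.d k1 k2 k169
  0 13), (.s k69 k117 3 (.s k207 k138 10 (.s k71 k139 9 (.s k68 k70 0 (.s k86 k116 4 (.s k87 k84 0
  (.d k119 k103 k102 3 4)))))))] (.c k2 (.l (.s k1 k169 13 (.s k69 k117 3 (.s k205 k137 9 (.s k153
  k49 13 (.d k221 k237 k17 3 9)))))) .n)) (.c k253 (.q k252 [(.s k84 k168 13 (.d k86 k169 k87 14
  0)), (.s k69 k117 3 (.s k207 k138 10 (.s k71 k139 9 (.d k86 k116 k169 4 14))))] (.c k86 (.l (.s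
  k69 k117 3 (.s k207 k138 10 (.s k237 k222 4 (.s k33 k169 9 (.d k48 k18 k154 4 14)))))) (.c k169
  (.l (.s k69 k117 3 (.s k207 k138 10 (.s k71 k139 9 (.s k86 k116 4 (.d k84 k87 k168 0 13))))))
  .n))) .n)))))) .n)))))))))))))

def t175_187 : T TT 256 :=
  (.q k86 [(.s k84 k87 0 (.s k252 k168 13 (.s k169 k3 14 (.s k253 k1 13 (.d k255 k254 k170 0
  14)))))] (.c k1 (.q k4 [(.s k12 k8 1 (.s k166 k247 12 (.s k89 k243 14 (.s k93 k81 1 (.d k255 k174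
  k170 12 14))))), (.s k84 k87 0 (.s k166 k247 12 (.s k6 k246 11 (.s k7 k5 0 (.d k244 k164 k165 11
  12))))), (.s k12 k8 1 (.s k84 k87 0 (.s k164 k244 11 (.s k88 k240 13 (.s k92 k80 1 (.d k252 k172
  k168 11 13))))))] .n) (.c k3 (.q k4 [(.s k12 k8 1 (.s k166 k247 12 (.s k89 k243 14 (.s k93 k81 1
  (.d k255 k174 k170 12 14))))), (.s k84 k87 0 (.s k166 k247 12 (.s k6 k246 11 (.s k7 k5 0 (.d k244
  k164 k165 11 12))))), (.s k12 k8 1 (.s k84 k87 0 (.s k164 k244 11 (.s k88 k240 13 (.s k92 k80 1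
  (.d k252 k172 k168 11 13))))))] (.c k255 (.l (.s k87 k84 0 (.s k247 k166 12 (.s k7 k167 11 (.s k5
  k6 0 (.d k165 k245 k244 11 12)))))) .n)) (.c k84 (.q k4 [(.s k12 k8 1 (.s k166 k247 12 (.s k89
  k243 14 (.s k93 k81 1 (.d k255 k174 k170 12 14))))), (.s k12 k8 1 (.s k166 k247 12 (.s k6 k246 11
  (.s k3 k9 2 (.s k1 k2 0 (.d k169 k253 k252 13 14)))))), (.s k166 k247 12 (.s k6 k246 11 (.s k5 k7
  0 (.s k170 k255 14 (.s k2 k254 13 (.d k10 k15 k14 2 1)))))), (.s k12 k8 1 (.s k170 k255 14 (.s k2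
  k254 13 (.s k3 k1 0 (.s k6 k9 2 (.s k5 k7 0 (.d k10 k15 k14 2 1)))))))] .n) (.c k87 (.q k4 [(.s
  k12 k8 1 (.s k166 k247 12 (.s k89 k243 14 (.s k93 k81 1 (.d k255 k174 k170 12 14))))), (.s k12 k8
  1 (.s k166 k247 12 (.s k6 k246 11 (.s k3 k9 2 (.s k1 k2 0 (.d k169 k253 k252 13 14)))))), (.s k12
  k8 1 (.s k170 k255 14 (.s k2 k254 13 (.s k3 k1 0 (.s k6 k9 2 (.s k10 k14 1 (.d k5 k15 k7 2
  0))))))), (.s k166 k247 12 (.s k6 k246 11 (.s k170 k255 14 (.s k2 k254 13 (.s k10 k14 1 (.d k5 k7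
  k15 0 2))))))] (.c k7 (.l (.s k12 k8 1 (.s k255 k170 14 (.s k93 k174 12 (.s k89 k81 1 (.d k166
  k247 k243 12 14)))))) .n)) (.c k168 (.l (.s k87 k84 0 (.s k255 k170 14 (.s k3 k171 13 (.s k169
  k252 14 (.d k1 k2 k253 0 13)))))) (.c k169 (.q k4 [(.s k12 k8 1 (.s k166 k247 12 (.s k89 k243 14
  (.s k93 k81 1 (.d k255 k174 k170 12 14))))), (.s k84 k87 0 (.s k166 k247 12 (.s k6 k246 11 (.s k7
  k5 0 (.d k244 k164 k165 11 12))))), (.s k12 k8 1 (.s k84 k87 0 (.s k164 k244 11 (.s k88 k240 13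
  (.s k92 k80 1 (.d k252 k172 k168 11 13))))))] .n) (.c k170 (.f k84 k87 0 (.q k165 [(.s k244 k7 12
  (.s k4 k164 11 (.s k245 k5 11 (.d k247 k246 k166 0 12)))), (.s k5 k245 11 (.s k15 k10 2 (.s k90
  k240 14 (.s k94 k82 1 (.d k252 k173 k168 12 13))))), (.s k244 k7 12 (.s k252 k168 13 (.s k240 k248
  1 (.s k80 k160 11 (.d k90 k95 k15 2 14)))))] (.c k136 (.q k153 [(.s k244 k7 12 (.s k4 k164 11 (.s
  k245 k5 11 (.d k247 k246 k166 0 12)))), (.s k220 k19 10 (.s k16 k152 9 (.s k221 k17 9 (.d k223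
  k222 k154 0 10))))] .n) (.c k153 (.q k136 [(.s k244 k7 12 (.s k4 k164 11 (.s k245 k5 11 (.d k247
  k246 k166 0 12)))), (.s k68 k204 9 (.s k102 k119 4 (.s k70 k118 3 (.s k71 k69 0 (.d k116 k100 k101
  3 4)))))] .n) .n)))) (.c k171 (.l (.s k84 k87 0 (.s k252 k168 13 (.s k3 k169 14 (.s k170 k255 14
  (.d k2 k1 k254 0 13)))))) (.c k252 (.q k8 [(.s k4 k12 1 (.s k84 k87 0 (.s k166 k247 12 (.s k6 k246
  11 (.s k7 k5 0 (.d k244 k164 k165 11 12)))))), (.s k12 k4 1 (.s k170 k255 14 (.s k89 k251 12 (.s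
  k81 k93 1 (.d k243 k162 k166 12 14))))), (.s k84 k87 0 (.s k170 k255 14 (.s k89 k251 12 (.s k92
  k83 2 (.s k80 k88 1 (.s k93 k81 1 (.d k95 k94 k90 0 2)))))))] (.c k243 (.l (.s k4 k12 1 (.s k84
  k87 0 (.s k166 k247 12 (.s k244 k164 11 (.s k7 k165 12 (.d k6 k5 k246 0 11))))))) (.c k247 (.l (.s
  k12 k4 1 (.s k170 k255 14 (.s k89 k251 12 (.s k243 k166 14 (.d k81 k93 k162 1 12)))))) .n))) (.c
  k253 (.l (.s k84 k87 0 (.s k170 k255 14 (.s k2 k254 13 (.s k252 k168 13 (.d k3 k1 k169 0 14))))))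
  (.c k254 (.l (.s k87 k84 0 (.s k255 k170 14 (.s k3 k171 13 (.s k1 k2 0 (.d k169 k253 k252 13
  14)))))) (.c k255 (.q k51 [(.s k17 k34 4 (.s k84 k87 0 (.s k153 k221 9 (.s k204 k102 14 (.s k252
  k168 13 (.d k220 k236 k19 3 10)))))), (.s k84 k87 0 (.s k252 k168 13 (.s k118 k185 10 (.s k102 k70
  3 (.s k68 k119 4 (.d k204 k136 k153 9 14)))))), (.s k17 k34 4 (.s k87 k84 0 (.s k153 k221 9 (.s
  k19 k220 10 (.s k16 k18 0 (.d k223 k155 k154 9 10)))))), (.s k17 k34 4 (.s k153 k221 9 (.s k19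
  k220 10 (.s k3 k35 3 (.s k1 k2 0 (.d k169 k253 k252 13 14))))))] (.c k15 (.q k95 [(.s k87 k84 0
  (.s k83 k91 1 (.s k90 k80 2 (.s k92 k89 2 (.d k94 k93 k82 0 1))))), (.s k17 k34 4 (.s k153 k221 9
  (.s k19 k220 10 (.s k3 k35 3 (.s k1 k2 0 (.d k169 k253 k252 13 14))))))] .n) (.c k95 (.q k15 [(.s
  k5 k10 2 (.s k17 k34 4 (.s k27 k39 5 (.s k153 k221 9 (.s k90 k216 8 (.d k165 k245 k240 11
  14)))))), (.s k5 k10 2 (.s k84 k87 0 (.s k165 k245 11 (.s k7 k244 12 (.s k3 k11 1 (.d k252 k168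
  k169 13 14)))))), (.s k17 k34 4 (.s k84 k87 0 (.s k153 k221 9 (.s k19 k220 10 (.s k3 k35 3 (.d
  k252 k168 k169 13 14))))))] .n) (.c k153 (.f k17 k34 4 (.l (.s k84 k87 0 (.s k252 k168 13 (.s k3
  k169 14 (.s k1 k2 0 (.s k19 k35 3 (.s k18 k16 0 (.d k33 k49 k48 3 4))))))))) (.c k204 (.l (.s k17
  k34 4 (.s k84 k87 0 (.s k252 k168 13 (.s k3 k169 14 (.s k19 k35 3 (.d k153 k221 k220 9 10)))))))
  .n))))) .n)))))))))))))

def t175_250 : T TT 256 :=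
  (.q k101 [(.s k69 k117 3 (.s k207 k138 10 (.s k48 k154 14 (.s k32 k16 3 (.d k170 k239 k255 10
  14)))))] (.c k16 (.q k1 [(.s k3 k2 0 (.s k169 k253 13 (.s k86 k252 14 (.s k87 k84 0 (.d k255 k171
  k170 13 14))))), (.s k69 k117 3 (.s k169 k253 13 (.s k33 k237 9 (.s k49 k17 3 (.d k205 k137 k153 9
  13))))), (.s k3 k2 0 (.s k69 k117 3 (.s k137 k205 9 (.s k70 k204 10 (.s k71 k68 0 (.d k207 k139
  k138 9 10))))))] .n) (.c k32 (.l (.s k69 k117 3 (.s k207 k138 10 (.s k154 k48 14 (.s k223 k16 10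
  (.d k255 k239 k170 3 14)))))) (.c k48 (.q k1 [(.s k3 k2 0 (.s k169 k253 13 (.s k86 k252 14 (.s k87
  k84 0 (.d k255 k171 k170 13 14))))), (.s k69 k117 3 (.s k169 k253 13 (.s k33 k237 9 (.s k49 k17 3
  (.d k205 k137 k153 9 13))))), (.s k3 k2 0 (.s k69 k117 3 (.s k137 k205 9 (.s k70 k204 10 (.s k71
  k68 0 (.d k207 k139 k138 9 10))))))] (.c k255 (.l (.s k117 k69 3 (.s k253 k169 13 (.s k49 k185 9
  (.s k17 k33 3 (.d k153 k221 k205 9 13)))))) .n)) (.c k69 (.q k1 [(.s k3 k2 0 (.s k169 k253 13 (.s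
  k86 k252 14 (.s k87 k84 0 (.d k255 k171 k170 13 14))))), (.s k3 k2 0 (.s k169 k253 13 (.s k33 k237
  9 (.s k48 k18 4 (.s k16 k32 3 (.d k154 k223 k207 10 14)))))), (.s k169 k253 13 (.s k33 k237 9 (.s
  k17 k49 3 (.s k34 k51 4 (.s k170 k255 14 (.d k32 k35 k239 0 10)))))), (.s k3 k2 0 (.s k170 k255 14
  (.s k32 k239 10 (.s k48 k16 3 (.s k33 k18 4 (.s k17 k49 3 (.d k34 k35 k51 0 4)))))))] .n) (.c k117
  (.q k1 [(.s k3 k2 0 (.s k169 k253 13 (.s k86 k252 14 (.s k87 k84 0 (.d k255 k171 k170 13 14))))),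
  (.s k3 k2 0 (.s k169 k253 13 (.s k33 k237 9 (.s k48 k18 4 (.s k16 k32 3 (.d k154 k223 k207 10
  14)))))), (.s k3 k2 0 (.s k170 k255 14 (.s k32 k239 10 (.s k48 k16 3 (.s k33 k18 4 (.s k34 k35 0
  (.d k17 k49 k51 3 4))))))), (.s k169 k253 13 (.s k33 k237 9 (.s k170 k255 14 (.s k32 k239 10 (.s
  k34 k35 0 (.d k17 k49 k51 3 4))))))] (.c k49 (.l (.s k3 k2 0 (.s k255 k170 14 (.s k87 k171 13 (.s
  k86 k84 0 (.d k169 k253 k252 13 14)))))) .n)) (.c k138 (.l (.s k117 k69 3 (.s k255 k170 14 (.s k48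
  k186 10 (.s k154 k207 14 (.d k16 k32 k223 3 10)))))) (.c k154 (.q k1 [(.s k3 k2 0 (.s k169 k253 13
  (.s k86 k252 14 (.s k87 k84 0 (.d k255 k171 k170 13 14))))), (.s k69 k117 3 (.s k169 k253 13 (.s
  k33 k237 9 (.s k49 k17 3 (.d k205 k137 k153 9 13))))), (.s k3 k2 0 (.s k69 k117 3 (.s k137 k205 9
  (.s k70 k204 10 (.s k71 k68 0 (.d k207 k139 k138 9 10))))))] .n) (.c k170 (.f k69 k117 3 (.q k90
  [(.s k79 k112 6 (.s k64 k74 2 (.s k95 k80 2 (.d k127 k111 k106 3 6)))), (.s k80 k95 2 (.s k207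
  k138 10 (.s k154 k48 14 (.s k218 k26 7 (.d k240 k160 k229 11 6))))), (.s k79 k112 6 (.s k207 k138
  10 (.s k15 k143 7 (.s k5 k10 2 (.d k165 k245 k240 11 14)))))] (.c k160 (.q k165 [(.s k15 k240 14
  (.d k5 k245 k10 11 2)), (.s k79 k112 6 (.s k64 k74 2 (.s k95 k80 2 (.d k127 k111 k106 3 6))))] .n)
  (.c k165 (.q k160 [(.d k80 k95 k240 2 11), (.s k79 k112 6 (.s k207 k138 10 (.s k15 k143 7 (.s k5
  k10 2 (.s k133 k197 7 (.d k74 k64 k192 2 10))))))] .n) .n)))) (.c k186 (.l (.s k69 k117 3 (.s k207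
  k138 10 (.s k48 k154 14 (.s k170 k255 14 (.d k32 k16 k239 3 10)))))) (.c k207 (.q k2 [(.s k1 k3 0
  (.s k69 k117 3 (.s k169 k253 13 (.s k205 k137 9 (.s k49 k153 13 (.d k33 k17 k237 3 9)))))), (.s k3
  k1 0 (.s k170 k255 14 (.s k86 k254 13 (.s k84 k87 0 (.d k252 k168 k169 13 14))))), (.s k69 k117 3
  (.s k170 k255 14 (.s k86 k254 13 (.s k71 k116 4 (.s k68 k70 0 (.s k87 k84 0 (.d k119 k103 k102 3
  4)))))))] (.c k253 (.l (.s k3 k1 0 (.s k170 k255 14 (.s k86 k254 13 (.s k252 k169 14 (.d k84 k87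
  k168 0 13)))))) .n)) (.c k239 (.l (.s k117 k69 3 (.s k255 k170 14 (.s k48 k186 10 (.s k16 k32 3
  (.d k154 k223 k207 10 14)))))) (.c k255 (.q k15 [(.s k5 k10 2 (.s k117 k69 3 (.s k245 k165 11 (.s
  k53 k181 7 (.s k21 k37 3 (.d k149 k213 k197 7 11)))))), (.s k69 k117 3 (.s k207 k138 10 (.s k79
  k143 7 (.s k90 k112 6 (.s k80 k95 2 (.d k240 k160 k165 11 14)))))), (.s k10 k5 2 (.s k69 k117 3
  (.s k138 k207 10 (.s k74 k202 7 (.s k64 k79 2 (.d k192 k128 k133 7 10))))))] (.c k69 (.q k165 [(.d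
  k5 k245 k10 11 2), (.s k37 k229 7 (.s k48 k26 6 (.s k16 k32 3 (.d k154 k223 k207 10 14))))] (.c
  k240 (.l (.s k245 k5 11 (.s k37 k229 7 (.s k48 k26 6 (.s k16 k32 3 (.d k154 k207 k223 14 10))))))
  (.c k245 (.l (.s k240 k90 14 (.s k37 k229 7 (.s k48 k26 6 (.s k16 k32 3 (.d k154 k223 k207 10
  14)))))) .n))) (.c k117 (.q k48 [(.s k16 k32 3 (.d k154 k223 k207 10 14)), (.s k5 k10 2 (.s k37
  k26 6 (.d k165 k245 k229 11 7)))] (.c k240 (.q k245 [(.d k5 k10 k165 2 11), (.s k16 k32 3 (.d k154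
  k223 k207 10 14))] .n) (.c k245 (.q k240 [(.s k16 k32 3 (.d k154 k223 k207 10 14)), (.s k37 k26 6
  (.d k165 k229 k90 7 14))] (.c k53 (.q k181 [(.s k16 k32 3 (.d k154 k223 k207 10 14)), (.s k37 k26
  6 (.d k165 k229 k90 7 14))] .n) (.c k181 (.q k53 [(.s k16 k32 3 (.d k154 k223 k207 10 14)), (.s k5
  k10 2 (.d k37 k21 k26 3 6))] .n) .n))) .n))) (.c k133 (.l (.s k5 k10 2 (.s k69 k117 3 (.s k207
  k138 10 (.s k48 k154 14 (.s k37 k26 6 (.d k165 k229 k245 7 11))))))) (.c k240 (.q k245 [(.d k5 k10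
  k165 2 11), (.s k69 k117 3 (.s k207 k138 10 (.s k79 k143 7 (.s k64 k74 2 (.s k90 k112 6 (.s k95
  k80 2 (.d k127 k111 k106 3 6)))))))] (.c k10 (.l (.s k5 k165 11 (.s k69 k117 3 (.s k197 k133 7 (.s
  k149 k53 11 (.d k213 k229 k21 3 7)))))) .n)) (.c k245 (.q k240 [(.s k80 k160 11 (.d k90 k165 k95
  14 2)), (.s k69 k117 3 (.s k207 k138 10 (.s k79 k143 7 (.d k90 k112 k165 6 14))))] (.c k90 (.l (.s
  k69 k117 3 (.s k207 k138 10 (.s k229 k218 6 (.s k37 k165 7 (.d k48 k26 k154 6 14)))))) (.c k165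
  (.l (.s k69 k117 3 (.s k207 k138 10 (.s k79 k143 7 (.s k90 k112 6 (.d k80 k95 k160 2 11))))))
  .n))) .n)))))) .n)))))))))))))

/-- roots with certificates -/
def certs : List (Cell TT 256 × Cell TT 256 × T TT 256) :=
  [(k47, k242, t47_242), (k47, k243, t47_243), (k47, k250, t47_250), (k47, k251, t47_251), (k63,
  k106, t63_106), (k63, k154, t63_154), (k63, k171, t63_171), (k63, k175, t63_175), (k63, k191,
  t63_191), (k63, k234, t63_234), (k63, k235, t63_235), (k63, k239, t63_239), (k171, k174,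
  t171_174), (k171, k175, t171_175), (k171, k190, t171_190), (k171, k191, t171_191), (k171, k254,
  t171_254), (k175, k187, t175_187), (k175, k250, t175_250)]

theorem c47_242 : rootOK k47 k242 t47_242 = true := by decide +kernel

theorem c47_243 : rootOK k47 k243 t47_243 = true := by decide +kernel

theorem c47_250 : rootOK k47 k250 t47_250 = true := by decide +kernel

theorem c47_251 : rootOK k47 k251 t47_251 = true := by decide +kernel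

theorem c63_106 : rootOK k63 k106 t63_106 = true := by decide +kernel

theorem c63_154 : rootOK k63 k154 t63_154 = true := by decide +kernel

theorem c63_171 : rootOK k63 k171 t63_171 = true := by decide +kernel

theorem c63_175 : rootOK k63 k175 t63_175 = true := by decide +kernel

theorem c63_191 : rootOK k63 k191 t63_191 = true := by decide +kernel

theorem c63_234 : rootOK k63 k234 t63_234 = true := by decide +kernel

theorem c63_235 : rootOK k63 k235 t63_235 = true := by decide +kernel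

theorem c63_239 : rootOK k63 k239 t63_239 = true := by decide +kernel

theorem c171_174 : rootOK k171 k174 t171_174 = true := by decide +kernel

theorem c171_175 : rootOK k171 k175 t171_175 = true := by decide +kernel

theorem c171_190 : rootOK k171 k190 t171_190 = true := by decide +kernel

theorem c171_191 : rootOK k171 k191 t171_191 = true := by decide +kernel

theorem c171_254 : rootOK k171 k254 t171_254 = true := by decide +kernel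

theorem c175_187 : rootOK k175 k187 t175_187 = true := by decide +kernel

theorem c175_250 : rootOK k175 k250 t175_250 = true := by decide +kernel

theorem ok : certsOK certs = true :=
  certsOK_cons c47_242 (certsOK_cons c47_243 (certsOK_cons c47_250 (certsOK_cons c47_251 (
  certsOK_cons c63_106 (certsOK_cons c63_154 (certsOK_cons c63_171 (certsOK_cons c63_175 (
  certsOK_cons c63_191 (certsOK_cons c63_234 (certsOK_cons c63_235 (certsOK_cons c63_239 (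
  certsOK_cons c171_174 (certsOK_cons c171_175 (certsOK_cons c171_190 (certsOK_cons c171_191 (
  certsOK_cons c171_254 (certsOK_cons c175_187 (certsOK_cons c175_250 (certsOK_nil)))))))))))))))
  ))))

theorem sound (k : Nat) (hk : (bits certs).testBit k = true) : PI k :=
  certs_sound certs ok k hk

end Pool.Agent.TTT.A18
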