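import Pool.Agent.TTT.Sym

set_option autoImplicit false
set_option maxRecDepth 100000

namespace Pool.Agent.TTT.B01

def s1_170_2 : T TT 256 :=
  (.q k86 [(.s k84 k87 0 (.s k150 k215 8 (.s k22 k214 7 (.s k212 k148 7 (.d k23 k21 k149 0 8))))),
  (.s k60 k40 5 (.s k84 k87 0 (.s k148 k212 7 (.s k104 k192 13 (.s k124 k64 5 (.d k252 k188 k168 7
  13)))))), (.s k60 k40 5 (.s k150 k215 8 (.s k22 k214 7 (.s k3 k41 6 (.s k105 k195 14 (.s k124 k67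
  6 (.d k252 k188 k169 7 14)))))))] (.c k212 (.l (.s k60 k40 5 (.s k84 k87 0 (.s k150 k215 8 (.s
  k105 k195 14 (.s k124 k67 6 (.d k252 k188 k168 7 13))))))) .n))

def s1_170_3 : T TT 256 :=
  (.q k4 [(.s k52 k36 3 (.s k150 k215 8 (.s k101 k199 12 (.s k117 k69 3 (.d k247 k182 k166 8
  12))))), (.s k12 k8 1 (.s k36 k52 3 (.s k24 k48 5 (.s k28 k16 1 (.d k60 k44 k40 3 5))))), (.s k12
  k8 1 (.s k60 k40 5 (.s k44 k28 3 (.s k150 k215 8 (.s k105 k195 14 (.d k166 k227 k247 10 12))))))]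
  .n)

def s1_170_4 : T TT 256 :=
  (.q k16 [(.s k28 k24 1 (.s k150 k215 8 (.s k154 k223 10 (.s k146 k158 1 (.d k211 k81 k89 8
  10))))), (.s k48 k32 3 (.s k60 k40 5 (.s k56 k52 1 (.s k154 k223 10 (.s k105 k203 12 (.s k65 k125
  5 (.d k195 k130 k150 8 14)))))))] (.c k150 (.l (.s k24 k28 1 (.s k48 k32 3 (.s k12 k36 5 (.s k154
  k223 10 (.s k89 k219 8 (.s k243 k166 14 (.d k81 k93 k162 1 12)))))))) (.c k154 (.l (.s k28 k24 1
  (.s k60 k40 5 (.s k12 k44 3 (.s k150 k215 8 (.s k89 k211 10 (.s k81 k93 1 (.d k243 k162 k166 12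
  14)))))))) (.c k223 (.l (.s k28 k24 1 (.s k48 k32 3 (.s k60 k40 5 (.s k150 k215 8 (.s k211 k89 10
  (.s k146 k81 8 (.d k195 k105 k97 14 12)))))))) .n))))

def s1_170_5 : T TT 256 :=
  (.f k40 k60 5 (.f k150 k215 8 (.q k4 [(.s k36 k52 3 (.s k32 k44 1 (.s k48 k16 3 (.d k12 k8 k24 1
  5)))), (.s k52 k36 3 (.s k101 k199 12 (.s k117 k69 3 (.d k247 k182 k166 8 12)))), (.s k12 k8 1 (.s
  k166 k247 12 (.s k89 k243 14 (.s k28 k211 10 (.s k16 k24 1 (.s k93 k81 1 (.d k223 k158 k154 8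
  10)))))))] (.c k9 (.q k13 [(.s k36 k52 3 (.s k32 k44 1 (.s k48 k16 3 (.d k12 k8 k24 1 5)))), (.s
  k52 k36 3 (.s k101 k199 12 (.s k117 k69 3 (.d k247 k182 k166 8 12)))), (.s k12 k8 1 (.s k15 k14 0
  (.s k166 k247 12 (.s k89 k243 14 (.s k165 k241 13 (.s k164 k167 0 (.d k240 k88 k90 13 14)))))))]
  .n) (.c k13 (.q k9 [(.s k36 k52 3 (.s k32 k44 1 (.s k48 k16 3 (.d k12 k8 k24 1 5)))), (.s k52 k36
  3 (.s k101 k199 12 (.s k117 k69 3 (.d k247 k182 k166 8 12)))), (.s k12 k8 1 (.s k3 k6 2 (.s k166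
  k247 12 (.s k89 k243 14 (.s k169 k249 11 (.s k172 k163 2 (.d k252 k92 k86 11 14)))))))] .n)
  .n)))))

def s1_170_6 : T TT 256 :=
  (.q k4 [(.s k36 k52 3 (.s k40 k60 5 (.s k32 k44 1 (.s k48 k16 3 (.d k12 k8 k24 1 5))))), (.s k52
  k36 3 (.s k150 k215 8 (.s k101 k199 12 (.s k117 k69 3 (.d k247 k182 k166 8 12))))), (.s k12 k8 1
  (.s k60 k40 5 (.s k44 k28 3 (.s k150 k215 8 (.s k105 k195 14 (.d k166 k227 k247 10 12))))))] .n)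

def s1_170_7 : T TT 256 :=
  (.q k4 [(.s k36 k52 3 (.s k40 k60 5 (.s k32 k44 1 (.s k48 k16 3 (.d k12 k8 k24 1 5))))), (.s k52
  k36 3 (.s k150 k215 8 (.s k101 k199 12 (.s k117 k69 3 (.d k247 k182 k166 8 12))))), (.s k12 k8 1
  (.s k60 k40 5 (.s k44 k28 3 (.s k150 k215 8 (.s k105 k195 14 (.d k166 k227 k247 10 12))))))] .n)

def s1_170_8 : T TT 256 :=
  (.q k89 [(.s k93 k81 1 (.s k150 k215 8 (.s k28 k211 10 (.s k223 k158 8 (.d k16 k24 k154 1 10))))),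
  (.s k60 k40 5 (.s k81 k93 1 (.s k243 k162 12 (.s k121 k182 10 (.s k105 k73 3 (.s k65 k125 5 (.d
  k195 k130 k150 8 14))))))), (.s k60 k40 5 (.s k150 k215 8 (.s k28 k211 10 (.s k12 k44 3 (.s k105
  k195 14 (.s k121 k73 3 (.d k243 k182 k166 10 14)))))))] (.c k24 (.l (.s k81 k93 1 (.s k150 k215 8
  (.s k211 k28 10 (.s k243 k162 12 (.s k195 k227 3 (.d k60 k40 k105 5 14))))))) (.c k150 (.f k60 k40
  5 (.f k81 k93 1 (.l (.s k243 k162 12 (.s k121 k182 10 (.s k105 k73 3 (.s k65 k125 5 (.s k166 k12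
  14 (.s k227 k44 10 (.d k195 k211 k130 3 8)))))))))) .n)))

def s1_170_9 : T TT 256 :=
  (.f k40 k60 5 (.f k150 k215 8 (.q k4 [(.s k36 k52 3 (.s k32 k44 1 (.s k48 k16 3 (.d k12 k8 k24 1
  5)))), (.s k52 k36 3 (.s k101 k199 12 (.s k117 k69 3 (.d k247 k182 k166 8 12)))), (.s k12 k8 1 (.s
  k166 k247 12 (.s k89 k243 14 (.s k28 k211 10 (.s k16 k24 1 (.s k93 k81 1 (.d k223 k158 k154 8
  10)))))))] (.c k5 (.q k13 [(.s k36 k52 3 (.s k32 k44 1 (.s k48 k16 3 (.d k12 k8 k24 1 5)))), (.s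
  k52 k36 3 (.s k101 k199 12 (.s k117 k69 3 (.d k247 k182 k166 8 12)))), (.s k12 k8 1 (.s k15 k14 0
  (.s k166 k247 12 (.s k89 k243 14 (.s k165 k241 13 (.s k164 k167 0 (.d k240 k88 k90 13 14)))))))]
  .n) (.c k13 (.q k5 [(.s k36 k52 3 (.s k32 k44 1 (.s k48 k16 3 (.d k12 k8 k24 1 5)))), (.s k7 k6 0
  (.s k165 k245 11 (.s k86 k244 12 (.s k87 k84 0 (.d k247 k167 k166 11 12)))))] (.c k12 (.l (.s k52
  k36 3 (.s k101 k199 12 (.s k117 k69 3 (.d k247 k182 k166 8 12))))) .n)) .n)))))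

def s1_170_10 : T TT 256 :=
  (.f k150 k215 8 (.q k90 [(.s k30 k210 9 (.s k60 k40 5 (.s k15 k45 4 (.s k80 k95 2 (.d k240 k160
  k165 11 14))))), (.s k80 k95 2 (.s k240 k160 11 (.s k165 k15 14 (.s k180 k135 4 (.d k60 k40 k120 5
  9))))), (.s k30 k210 9 (.s k60 k40 5 (.s k15 k45 4 (.s k105 k195 14 (.s k120 k75 4 (.d k240 k180
  k165 9 14)))))), (.s k80 k95 2 (.s k210 k30 9 (.s k240 k160 11 (.s k195 k225 4 (.s k65 k130 8 (.d
  k105 k125 k60 5 14))))))] (.c k60 (.q k4 [(.s k52 k36 3 (.s k101 k199 12 (.s k117 k69 3 (.d k247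
  k182 k166 8 12)))), (.s k12 k8 1 (.s k80 k95 2 (.s k240 k160 11 (.s k88 k164 13 (.s k89 k91 0 (.s
  k81 k93 1 (.d k243 k162 k166 12 14)))))))] (.c k166 (.l (.s k52 k36 3 (.s k80 k95 2 (.s k101 k199
  12 (.s k112 k79 6 (.s k64 k96 3 (.s k117 k69 3 (.d k127 k122 k106 2 6)))))))) .n)) (.c k165 (.l
  (.s k60 k40 5 (.s k80 k95 2 (.s k105 k195 14 (.s k120 k75 4 (.d k240 k180 k160 9 11)))))) (.c k240
  (.l (.s k30 k210 9 (.s k60 k40 5 (.s k15 k45 4 (.s k95 k80 2 (.s k255 k175 11 (.s k125 k190 8 (.d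
  k105 k195 k65 14 5)))))))) .n)))))

def s1_170_11 : T TT 256 :=
  (.q k4 [(.s k36 k52 3 (.s k40 k60 5 (.s k32 k44 1 (.s k48 k16 3 (.d k12 k8 k24 1 5))))), (.s k52
  k36 3 (.s k150 k215 8 (.s k101 k199 12 (.s k117 k69 3 (.d k247 k182 k166 8 12))))), (.s k12 k8 1
  (.s k60 k40 5 (.s k44 k28 3 (.s k150 k215 8 (.s k105 k195 14 (.d k166 k227 k247 10 12))))))] .n)

def s1_170_12 : T TT 256 :=
  (.q k21 [(.s k23 k22 0 (.s k149 k213 7 (.s k86 k212 8 (.s k87 k84 0 (.d k215 k151 k150 7 8))))),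
  (.s k60 k40 5 (.s k63 k42 6 (.s k62 k61 0 (.s k150 k215 8 (.s k106 k194 13 (.s k64 k127 6 (.d k192
  k128 k149 7 14)))))))] (.c k149 (.l (.s k22 k23 0 (.s k60 k40 5 (.s k3 k41 6 (.s k150 k215 8 (.s
  k86 k214 7 (.s k252 k169 14 (.d k84 k87 k168 0 13)))))))) (.c k150 (.l (.s k23 k22 0 (.s k63 k42 6
  (.s k3 k43 5 (.s k149 k213 7 (.s k86 k212 8 (.s k84 k87 0 (.d k252 k168 k169 13 14)))))))) (.c
  k215 (.l (.s k23 k22 0 (.s k60 k40 5 (.s k63 k42 6 (.s k149 k213 7 (.s k212 k86 8 (.s k148 k84 7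
  (.d k192 k106 k104 14 13)))))))) .n))))

def s1_170_13 : T TT 256 :=
  (.f k40 k60 5 (.f k150 k215 8 (.q k4 [(.s k36 k52 3 (.s k32 k44 1 (.s k48 k16 3 (.d k12 k8 k24 1
  5)))), (.s k52 k36 3 (.s k101 k199 12 (.s k117 k69 3 (.d k247 k182 k166 8 12)))), (.s k12 k8 1 (.s
  k166 k247 12 (.s k89 k243 14 (.s k28 k211 10 (.s k16 k24 1 (.s k93 k81 1 (.d k223 k158 k154 8
  10)))))))] (.c k5 (.q k9 [(.s k36 k52 3 (.s k32 k44 1 (.s k48 k16 3 (.d k12 k8 k24 1 5)))), (.s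
  k52 k36 3 (.s k101 k199 12 (.s k117 k69 3 (.d k247 k182 k166 8 12)))), (.s k12 k8 1 (.s k3 k6 2
  (.s k166 k247 12 (.s k89 k243 14 (.s k169 k249 11 (.s k172 k163 2 (.d k252 k92 k86 11 14)))))))]
  .n) (.c k9 (.q k5 [(.s k36 k52 3 (.s k32 k44 1 (.s k48 k16 3 (.d k12 k8 k24 1 5)))), (.s k7 k6 0
  (.s k165 k245 11 (.s k86 k244 12 (.s k87 k84 0 (.d k247 k167 k166 11 12)))))] (.c k12 (.l (.s k52
  k36 3 (.s k101 k199 12 (.s k117 k69 3 (.d k247 k182 k166 8 12))))) .n)) .n)))))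

def s1_170_14 : T TT 256 :=
  (.q k4 [(.s k36 k52 3 (.s k40 k60 5 (.s k32 k44 1 (.s k48 k16 3 (.d k12 k8 k24 1 5))))), (.s k52
  k36 3 (.s k150 k215 8 (.s k101 k199 12 (.s k117 k69 3 (.d k247 k182 k166 8 12))))), (.s k12 k8 1
  (.s k60 k40 5 (.s k44 k28 3 (.s k150 k215 8 (.s k105 k195 14 (.d k166 k227 k247 10 12))))))] .n)

def s1_170_15 : T TT 256 :=
  (.q k4 [(.s k52 k36 3 (.s k150 k215 8 (.s k101 k199 12 (.s k117 k69 3 (.d k247 k182 k166 8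
  12))))), (.s k12 k8 1 (.s k36 k52 3 (.s k24 k48 5 (.s k28 k16 1 (.d k60 k44 k40 3 5))))), (.s k12
  k8 1 (.s k60 k40 5 (.s k44 k28 3 (.s k150 k215 8 (.s k105 k195 14 (.d k166 k227 k247 10 12))))))]
  .n)

def s1_170_16 : T TT 256 :=
  (.q k4 [(.s k52 k36 3 (.s k150 k215 8 (.s k166 k247 12 (.s k134 k182 3 (.d k199 k69 k101 8
  12))))), (.s k12 k8 1 (.s k60 k40 5 (.s k44 k28 3 (.s k166 k247 12 (.s k105 k227 10 (.s k65 k125 5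
  (.d k195 k130 k150 8 14)))))))] (.c k150 (.l (.s k12 k8 1 (.s k36 k52 3 (.s k48 k24 5 (.s k166
  k247 12 (.s k101 k231 8 (.s k207 k154 14 (.d k69 k117 k138 3 10)))))))) (.c k166 (.l (.s k52 k36 3
  (.s k60 k40 5 (.s k48 k56 1 (.s k150 k215 8 (.s k101 k199 12 (.s k69 k117 3 (.d k207 k138 k154 10
  14)))))))) (.c k247 (.l (.s k12 k8 1 (.s k52 k36 3 (.s k60 k40 5 (.s k150 k215 8 (.s k199 k101 12
  (.s k134 k69 8 (.d k195 k105 k73 14 10)))))))) .n))))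

def s1_170_17 : T TT 256 :=
  (.f k40 k60 5 (.f k150 k215 8 (.q k4 [(.s k12 k8 1 (.s k36 k52 3 (.s k32 k44 1 (.d k48 k16 k24 3
  5)))), (.s k52 k36 3 (.s k101 k199 12 (.s k117 k69 3 (.d k247 k182 k166 8 12)))), (.s k12 k8 1 (.s
  k166 k247 12 (.s k89 k243 14 (.s k28 k211 10 (.s k16 k24 1 (.s k93 k81 1 (.d k223 k158 k154 8
  10)))))))] (.c k33 (.q k49 [(.s k12 k8 1 (.s k36 k52 3 (.s k32 k44 1 (.d k48 k16 k24 3 5)))), (.s
  k52 k36 3 (.s k101 k199 12 (.s k117 k69 3 (.d k247 k182 k166 8 12)))), (.s k12 k8 1 (.s k166 k247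
  12 (.s k89 k243 14 (.s k28 k211 10 (.s k16 k24 1 (.s k93 k81 1 (.d k223 k158 k154 8 10)))))))] .n)
  (.c k49 (.q k33 [(.s k12 k8 1 (.s k36 k52 3 (.s k32 k44 1 (.d k48 k16 k24 3 5)))), (.s k52 k36 3
  (.s k101 k199 12 (.s k117 k69 3 (.d k247 k182 k166 8 12)))), (.s k12 k8 1 (.s k166 k247 12 (.s k89
  k243 14 (.s k28 k211 10 (.s k16 k24 1 (.s k93 k81 1 (.d k223 k158 k154 8 10)))))))] .n) .n)))))

def s1_170_18 : T TT 256 :=
  (.q k4 [(.s k12 k8 1 (.s k36 k52 3 (.s k40 k60 5 (.s k32 k44 1 (.d k48 k16 k24 3 5))))), (.s k52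
  k36 3 (.s k150 k215 8 (.s k101 k199 12 (.s k117 k69 3 (.d k247 k182 k166 8 12))))), (.s k12 k8 1
  (.s k60 k40 5 (.s k44 k28 3 (.s k150 k215 8 (.s k105 k195 14 (.d k166 k227 k247 10 12))))))] .n)

def s1_170_19 : T TT 256 :=
  (.q k4 [(.s k52 k36 3 (.s k150 k215 8 (.s k101 k199 12 (.s k117 k69 3 (.d k247 k182 k166 8
  12))))), (.s k12 k8 1 (.s k36 k52 3 (.s k24 k48 5 (.s k28 k16 1 (.d k60 k44 k40 3 5))))), (.s k12
  k8 1 (.s k60 k40 5 (.s k44 k28 3 (.s k150 k215 8 (.s k105 k195 14 (.d k166 k227 k247 10 12))))))]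
  .n)

def s1_170_21 : T TT 256 :=
  (.f k150 k215 8 (.q k4 [(.s k52 k36 3 (.s k166 k247 12 (.s k134 k182 3 (.d k199 k69 k101 8 12)))),
  (.s k12 k8 1 (.s k60 k40 5 (.s k44 k28 3 (.s k105 k195 14 (.d k166 k227 k247 10 12))))), (.s k12
  k8 1 (.s k36 k52 3 (.s k24 k48 5 (.s k28 k16 1 (.d k60 k44 k40 3 5)))))] (.c k41 (.q k61 [(.s k52
  k36 3 (.s k166 k247 12 (.s k134 k182 3 (.d k199 k69 k101 8 12)))), (.s k12 k8 1 (.s k60 k40 5 (.s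
  k44 k28 3 (.s k105 k195 14 (.d k166 k227 k247 10 12))))), (.s k12 k8 1 (.s k36 k52 3 (.s k24 k48 5
  (.s k28 k16 1 (.d k60 k44 k40 3 5)))))] .n) (.c k61 (.q k41 [(.s k52 k36 3 (.s k166 k247 12 (.s
  k134 k182 3 (.d k199 k69 k101 8 12)))), (.s k12 k8 1 (.s k60 k40 5 (.s k44 k28 3 (.s k105 k195 14
  (.d k166 k227 k247 10 12))))), (.s k12 k8 1 (.s k36 k52 3 (.s k24 k48 5 (.s k28 k16 1 (.d k60 k44
  k40 3 5)))))] .n) .n))))

def s1_170_22 : T TT 256 :=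
  (.q k4 [(.s k52 k36 3 (.s k150 k215 8 (.s k101 k199 12 (.s k117 k69 3 (.d k247 k182 k166 8
  12))))), (.s k12 k8 1 (.s k36 k52 3 (.s k24 k48 5 (.s k28 k16 1 (.d k60 k44 k40 3 5))))), (.s k12
  k8 1 (.s k60 k40 5 (.s k44 k28 3 (.s k150 k215 8 (.s k105 k195 14 (.d k166 k227 k247 10 12))))))]
  .n)

def s1_170_23 : T TT 256 :=
  (.q k4 [(.s k36 k52 3 (.s k40 k60 5 (.s k32 k44 1 (.s k48 k16 3 (.d k12 k8 k24 1 5))))), (.s k52
  k36 3 (.s k150 k215 8 (.s k101 k199 12 (.s k117 k69 3 (.d k247 k182 k166 8 12))))), (.s k12 k8 1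
  (.s k60 k40 5 (.s k44 k28 3 (.s k150 k215 8 (.s k105 k195 14 (.d k166 k227 k247 10 12))))))] .n)

def s1_170_24 : T TT 256 :=
  (.q k21 [(.s k23 k22 0 (.s k149 k213 7 (.s k86 k212 8 (.s k87 k84 0 (.d k215 k151 k150 7 8))))),
  (.s k60 k40 5 (.s k63 k42 6 (.s k62 k61 0 (.s k150 k215 8 (.s k106 k194 13 (.s k64 k127 6 (.d k192
  k128 k149 7 14)))))))] (.c k149 (.l (.s k22 k23 0 (.s k60 k40 5 (.s k3 k41 6 (.s k150 k215 8 (.s
  k86 k214 7 (.s k252 k169 14 (.d k84 k87 k168 0 13)))))))) (.c k150 (.l (.s k23 k22 0 (.s k63 k42 6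
  (.s k3 k43 5 (.s k149 k213 7 (.s k86 k212 8 (.s k84 k87 0 (.d k252 k168 k169 13 14)))))))) (.c
  k215 (.l (.s k23 k22 0 (.s k60 k40 5 (.s k63 k42 6 (.s k149 k213 7 (.s k212 k86 8 (.s k148 k84 7
  (.d k192 k106 k104 14 13)))))))) .n))))

def s1_170_25 : T TT 256 :=
  (.q k4 [(.s k36 k52 3 (.s k40 k60 5 (.s k32 k44 1 (.s k48 k16 3 (.d k12 k8 k24 1 5))))), (.s k52
  k36 3 (.s k150 k215 8 (.s k101 k199 12 (.s k117 k69 3 (.d k247 k182 k166 8 12))))), (.s k12 k8 1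
  (.s k60 k40 5 (.s k44 k28 3 (.s k150 k215 8 (.s k105 k195 14 (.d k166 k227 k247 10 12))))))] .n)

def s1_170_26 : T TT 256 :=
  (.q k4 [(.s k52 k36 3 (.s k150 k215 8 (.s k101 k199 12 (.s k117 k69 3 (.d k247 k182 k166 8
  12))))), (.s k12 k8 1 (.s k36 k52 3 (.s k24 k48 5 (.s k28 k16 1 (.d k60 k44 k40 3 5))))), (.s k12
  k8 1 (.s k60 k40 5 (.s k44 k28 3 (.s k150 k215 8 (.s k105 k195 14 (.d k166 k227 k247 10 12))))))]
  .n)

def s1_170_27 : T TT 256 :=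
  (.q k4 [(.s k36 k52 3 (.s k40 k60 5 (.s k32 k44 1 (.s k48 k16 3 (.d k12 k8 k24 1 5))))), (.s k52
  k36 3 (.s k150 k215 8 (.s k101 k199 12 (.s k117 k69 3 (.d k247 k182 k166 8 12))))), (.s k12 k8 1
  (.s k60 k40 5 (.s k44 k28 3 (.s k150 k215 8 (.s k105 k195 14 (.d k166 k227 k247 10 12))))))] .n)

def s1_170_28 : T TT 256 :=
  (.q k4 [(.s k12 k8 1 (.s k36 k52 3 (.s k40 k60 5 (.s k32 k44 1 (.d k48 k16 k24 3 5))))), (.s k52
  k36 3 (.s k150 k215 8 (.s k101 k199 12 (.s k117 k69 3 (.d k247 k182 k166 8 12))))), (.s k12 k8 1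
  (.s k60 k40 5 (.s k150 k215 8 (.s k166 k247 12 (.s k182 k134 3 (.d k243 k89 k121 14 10))))))] .n)

def s1_170_29 : T TT 256 :=
  (.q k4 [(.s k36 k52 3 (.s k40 k60 5 (.s k32 k44 1 (.s k48 k16 3 (.d k12 k8 k24 1 5))))), (.s k52
  k36 3 (.s k150 k215 8 (.s k101 k199 12 (.s k117 k69 3 (.d k247 k182 k166 8 12))))), (.s k12 k8 1
  (.s k60 k40 5 (.s k44 k28 3 (.s k150 k215 8 (.s k105 k195 14 (.d k166 k227 k247 10 12))))))] .n)

def s1_170_30 : T TT 256 :=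
  (.q k4 [(.s k12 k8 1 (.s k36 k52 3 (.s k24 k48 5 (.s k28 k16 1 (.d k60 k44 k40 3 5))))), (.s k52
  k36 3 (.s k150 k215 8 (.s k101 k199 12 (.s k117 k69 3 (.d k247 k182 k166 8 12))))), (.s k12 k8 1
  (.s k60 k40 5 (.s k44 k28 3 (.s k150 k215 8 (.s k105 k195 14 (.d k166 k227 k247 10 12))))))] .n)

def s1_170_31 : T TT 256 :=
  (.q k4 [(.s k52 k36 3 (.s k150 k215 8 (.s k101 k199 12 (.s k117 k69 3 (.d k247 k182 k166 8
  12))))), (.s k12 k8 1 (.s k36 k52 3 (.s k24 k48 5 (.s k28 k16 1 (.d k60 k44 k40 3 5))))), (.s k12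
  k8 1 (.s k60 k40 5 (.s k44 k28 3 (.s k150 k215 8 (.s k105 k195 14 (.d k166 k227 k247 10 12))))))]
  .n)

def s1_170_32 : T TT 256 :=
  (.f k150 k215 8 (.q k101 [(.s k52 k199 12 (.s k117 k69 3 (.s k247 k182 8 (.d k4 k36 k166 3 12)))),
  (.s k60 k40 5 (.s k69 k117 3 (.s k105 k195 14 (.s k109 k97 1 (.d k207 k138 k158 10 12))))), (.s
  k52 k199 12 (.s k60 k40 5 (.s k48 k56 1 (.s k105 k195 14 (.s k109 k97 1 (.d k207 k158 k154 12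
  14))))))] (.c k36 (.l (.s k69 k117 3 (.s k199 k52 12 (.s k207 k138 10 (.s k195 k203 1 (.d k60 k40
  k105 5 14)))))) .n)))

def s1_170_33 : T TT 256 :=
  (.f k40 k60 5 (.f k150 k215 8 (.q k4 [(.s k36 k52 3 (.s k32 k44 1 (.s k48 k16 3 (.d k12 k8 k24 1
  5)))), (.s k52 k36 3 (.s k101 k199 12 (.s k117 k69 3 (.d k247 k182 k166 8 12)))), (.s k12 k8 1 (.s
  k166 k247 12 (.s k89 k243 14 (.s k28 k211 10 (.s k16 k24 1 (.s k93 k81 1 (.d k223 k158 k154 8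
  10)))))))] (.c k17 (.q k49 [(.s k12 k8 1 (.s k36 k52 3 (.s k32 k44 1 (.d k48 k16 k24 3 5)))), (.s
  k52 k36 3 (.s k101 k199 12 (.s k117 k69 3 (.d k247 k182 k166 8 12)))), (.s k12 k8 1 (.s k166 k247
  12 (.s k89 k243 14 (.s k28 k211 10 (.s k16 k24 1 (.s k93 k81 1 (.d k223 k158 k154 8 10)))))))] .n)
  (.c k49 (.q k17 [(.s k36 k52 3 (.s k32 k44 1 (.s k48 k16 3 (.d k12 k8 k24 1 5)))), (.s k52 k36 3
  (.s k101 k199 12 (.s k117 k69 3 (.d k247 k182 k166 8 12)))), (.s k12 k8 1 (.s k51 k34 4 (.s k25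
  k38 6 (.s k153 k221 9 (.s k89 k217 7 (.d k166 k247 k243 12 14))))))] .n) .n)))))

def s1_170_34 : T TT 256 :=
  (.f k150 k215 8 (.q k102 [(.s k54 k198 11 (.s k60 k40 5 (.s k51 k57 2 (.s k68 k119 4 (.d k204 k136
  k153 9 14))))), (.s k68 k119 4 (.s k204 k136 9 (.s k153 k51 14 (.s k156 k147 2 (.d k60 k40 k108 5
  11))))), (.s k54 k198 11 (.s k60 k40 5 (.s k51 k57 2 (.s k105 k195 14 (.s k108 k99 2 (.d k204 k156
  k153 11 14)))))), (.s k68 k119 4 (.s k198 k54 11 (.s k204 k136 9 (.s k195 k201 2 (.s k65 k130 8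
  (.d k105 k125 k60 5 14))))))] (.c k60 (.q k4 [(.s k52 k36 3 (.s k101 k199 12 (.s k117 k69 3 (.d
  k247 k182 k166 8 12)))), (.s k52 k36 3 (.s k54 k198 11 (.s k55 k53 0 (.s k21 k38 4 (.d k149 k213
  k196 7 12))))), (.s k54 k198 11 (.s k166 k247 12 (.s k38 k230 7 (.s k21 k55 4 (.d k22 k23 k6 0
  3)))))] .n) (.c k153 (.l (.s k60 k40 5 (.s k68 k119 4 (.s k105 k195 14 (.s k108 k99 2 (.d k204
  k136 k156 9 11)))))) (.c k204 (.l (.s k54 k198 11 (.s k60 k40 5 (.s k51 k57 2 (.s k119 k68 4 (.s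
  k255 k187 9 (.s k125 k190 8 (.d k105 k195 k65 14 5)))))))) .n)))))

def s1_170_35 : T TT 256 :=
  (.q k4 [(.s k12 k8 1 (.s k36 k52 3 (.s k24 k48 5 (.s k28 k16 1 (.d k60 k44 k40 3 5))))), (.s k52
  k36 3 (.s k150 k215 8 (.s k101 k199 12 (.s k117 k69 3 (.d k247 k182 k166 8 12))))), (.s k12 k8 1
  (.s k60 k40 5 (.s k44 k28 3 (.s k150 k215 8 (.s k105 k195 14 (.d k166 k227 k247 10 12))))))] .n)

def s1_170_36 : T TT 256 :=
  (.q k21 [(.s k23 k22 0 (.s k149 k213 7 (.s k86 k212 8 (.s k87 k84 0 (.d k215 k151 k150 7 8))))),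
  (.s k60 k40 5 (.s k63 k42 6 (.s k62 k61 0 (.s k150 k215 8 (.s k106 k194 13 (.s k64 k127 6 (.d k192
  k128 k149 7 14)))))))] (.c k149 (.l (.s k22 k23 0 (.s k60 k40 5 (.s k3 k41 6 (.s k150 k215 8 (.s
  k86 k214 7 (.s k252 k169 14 (.d k84 k87 k168 0 13)))))))) (.c k150 (.l (.s k23 k22 0 (.s k63 k42 6
  (.s k3 k43 5 (.s k149 k213 7 (.s k86 k212 8 (.s k84 k87 0 (.d k252 k168 k169 13 14)))))))) (.c
  k215 (.l (.s k23 k22 0 (.s k60 k40 5 (.s k63 k42 6 (.s k149 k213 7 (.s k212 k86 8 (.s k148 k84 7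
  (.d k192 k106 k104 14 13)))))))) .n))))

def s1_170_37 : T TT 256 :=
  (.q k4 [(.s k36 k52 3 (.s k40 k60 5 (.s k32 k44 1 (.s k48 k16 3 (.d k12 k8 k24 1 5))))), (.s k52
  k36 3 (.s k150 k215 8 (.s k101 k199 12 (.s k117 k69 3 (.d k247 k182 k166 8 12))))), (.s k12 k8 1
  (.s k60 k40 5 (.s k44 k28 3 (.s k150 k215 8 (.s k105 k195 14 (.d k166 k227 k247 10 12))))))] .n)

def s1_170_38 : T TT 256 :=
  (.q k4 [(.s k12 k8 1 (.s k36 k52 3 (.s k24 k48 5 (.s k28 k16 1 (.d k60 k44 k40 3 5))))), (.s k52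
  k36 3 (.s k150 k215 8 (.s k101 k199 12 (.s k117 k69 3 (.d k247 k182 k166 8 12))))), (.s k12 k8 1
  (.s k60 k40 5 (.s k44 k28 3 (.s k150 k215 8 (.s k105 k195 14 (.d k166 k227 k247 10 12))))))] .n)

def s1_170_39 : T TT 256 :=
  (.q k4 [(.s k36 k52 3 (.s k40 k60 5 (.s k32 k44 1 (.s k48 k16 3 (.d k12 k8 k24 1 5))))), (.s k52
  k36 3 (.s k150 k215 8 (.s k101 k199 12 (.s k117 k69 3 (.d k247 k182 k166 8 12))))), (.s k12 k8 1
  (.s k60 k40 5 (.s k44 k28 3 (.s k150 k215 8 (.s k105 k195 14 (.d k166 k227 k247 10 12))))))] .n)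

def s1_170_40 : T TT 256 :=
  (.f k150 k215 8 (.q k4 [(.s k52 k36 3 (.s k166 k247 12 (.s k134 k182 3 (.d k199 k69 k101 8 12)))),
  (.s k12 k8 1 (.s k36 k52 3 (.s k24 k48 5 (.s k28 k16 1 (.s k89 k211 10 (.s k81 k93 1 (.d k243 k162
  k166 12 14))))))), (.s k12 k8 1 (.s k166 k247 12 (.s k89 k243 14 (.s k28 k211 10 (.s k93 k81 1 (.s
  k223 k158 8 (.d k16 k24 k154 1 10)))))))] (.c k105 (.q k235 [(.s k52 k36 3 (.s k166 k247 12 (.s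
  k134 k182 3 (.d k199 k69 k101 8 12)))), (.s k12 k8 1 (.s k36 k52 3 (.s k24 k48 5 (.s k28 k16 1 (.s
  k89 k211 10 (.s k81 k93 1 (.d k243 k162 k166 12 14))))))), (.s k12 k8 1 (.s k166 k247 12 (.s k89
  k243 14 (.s k28 k211 10 (.s k93 k81 1 (.s k223 k158 8 (.d k16 k24 k154 1 10)))))))] (.c k166 (.f
  k52 k36 3 (.f k101 k199 12 (.l (.s k69 k117 3 (.s k207 k138 10 (.s k154 k48 14 (.s k16 k223 10 (.s
  k146 k158 1 (.s k211 k81 8 (.d k28 k24 k89 1 10)))))))))) .n)) (.c k166 (.f k12 k8 1 (.f k36 k52 3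
  (.f k24 k48 5 (.l (.s k28 k16 1 (.s k60 k44 3 (.s k89 k211 10 (.s k81 k93 1 (.s k105 k195 14 (.s
  k121 k73 3 (.d k243 k182 k162 10 12))))))))))) (.c k235 (.q k105 [(.s k65 k125 5 (.d k195 k130 k60
  8 14)), (.s k52 k36 3 (.s k101 k199 12 (.s k117 k69 3 (.d k247 k182 k166 8 12))))] (.c k195 (.q
  k255 [(.s k12 k8 1 (.s k93 k174 12 (.s k89 k81 1 (.d k166 k247 k243 12 14)))), (.s k52 k36 3 (.s
  k101 k199 12 (.s k117 k69 3 (.d k247 k182 k166 8 12)))), (.s k12 k8 1 (.s k36 k52 3 (.s k24 k48 5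
  (.s k28 k16 1 (.s k60 k44 3 (.d k125 k65 k190 5 8))))))] .n) (.c k255 (.l (.s k195 k60 14 (.d k65
  k125 k130 5 8))) .n))) .n)))))

def s1_170_41 : T TT 256 :=
  (.q k149 [(.s k21 k213 7 (.s k150 k215 8 (.s k148 k151 0 (.s k212 k84 7 (.d k23 k22 k86 0 8))))),
  (.s k60 k40 5 (.s k150 k215 8 (.s k105 k195 14 (.s k61 k193 13 (.s k63 k62 0 (.d k21 k42 k213 6
  7))))))] (.c k21 (.q k61 [(.s k105 k193 13 (.s k150 k215 8 (.d k60 k40 k195 5 14))), (.s k150 k215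
  8 (.s k148 k151 0 (.s k84 k212 7 (.s k168 k252 13 (.s k128 k188 5 (.s k192 k64 7 (.d k60 k40 k104
  5 13))))))), (.s k60 k40 5 (.s k63 k62 0 (.s k105 k193 13 (.s k65 k125 5 (.s k106 k192 14 (.s k107
  k104 0 (.d k195 k130 k151 8 13)))))))] (.c k40 (.l (.s k105 k193 13 (.s k65 k125 5 (.s k150 k215 8
  (.d k195 k130 k60 8 14))))) (.c k60 (.f k150 k215 8 (.q k3 [(.s k148 k151 0 (.s k84 k212 7 (.s
  k252 k168 13 (.d k86 k87 k169 0 14)))), (.s k105 k193 13 (.s k65 k125 5 (.s k195 k130 8 (.s k67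
  k131 7 (.s k64 k66 0 (.s k106 k127 6 (.d k192 k128 k63 7 14)))))))] .n)) .n))) (.c k61 (.l (.s k21
  k213 7 (.s k23 k22 0 (.s k86 k212 8 (.s k87 k84 0 (.d k215 k151 k150 7 8)))))) (.c k150 (.l (.s
  k21 k213 7 (.s k23 k22 0 (.s k63 k42 6 (.s k86 k212 8 (.s k84 k87 0 (.s k252 k168 13 (.d k3 k43
  k169 5 14)))))))) (.c k213 (.l (.s k60 k40 5 (.s k150 k215 8 (.s k148 k151 0 (.s k192 k104 13 (.s
  k64 k128 7 (.d k106 k127 k63 6 14))))))) (.c k215 (.l (.s k21 k213 7 (.s k23 k22 0 (.s k60 k40 5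
  (.s k212 k86 8 (.s k148 k84 7 (.s k192 k104 13 (.d k63 k42 k106 6 14)))))))) .n))))))

def s1_170_42 : T TT 256 :=
  (.f k150 k215 8 (.q k106 [(.s k60 k40 5 (.s k62 k194 13 (.s k63 k61 0 (.s k64 k127 6 (.d k192 k128
  k149 7 14))))), (.s k64 k127 6 (.s k192 k128 7 (.s k149 k63 14 (.s k148 k151 0 (.s k84 k212 7 (.d
  k104 k124 k60 5 13)))))), (.s k60 k40 5 (.s k62 k194 13 (.s k63 k61 0 (.s k105 k195 14 (.s k104
  k107 0 (.d k192 k148 k149 13 14))))))] (.c k60 (.l (.s k64 k127 6 (.s k192 k128 7 (.s k149 k63 14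
  (.s k21 k213 7 (.s k23 k22 0 (.s k148 k151 0 (.d k212 k84 k86 7 8)))))))) (.c k63 (.l (.s k60 k40
  5 (.s k64 k127 6 (.s k105 k195 14 (.s k192 k128 7 (.d k104 k107 k148 0 13)))))) (.c k149 (.l (.s
  k60 k40 5 (.s k64 k127 6 (.s k105 k195 14 (.s k104 k107 0 (.d k192 k128 k148 7 13)))))) (.c k192
  (.l (.s k60 k40 5 (.s k62 k194 13 (.s k63 k61 0 (.s k127 k64 6 (.s k255 k191 7 (.s k125 k190 8 (.d
  k105 k195 k65 14 5)))))))) .n))))))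

def s1_170_43 : T TT 256 :=
  (.q k4 [(.s k36 k52 3 (.s k40 k60 5 (.s k32 k44 1 (.s k48 k16 3 (.d k12 k8 k24 1 5))))), (.s k52
  k36 3 (.s k150 k215 8 (.s k101 k199 12 (.s k117 k69 3 (.d k247 k182 k166 8 12))))), (.s k12 k8 1
  (.s k60 k40 5 (.s k44 k28 3 (.s k150 k215 8 (.s k105 k195 14 (.d k166 k227 k247 10 12))))))] .n)

def s1_170_44 : T TT 256 :=
  (.q k16 [(.s k24 k28 1 (.s k48 k32 3 (.s k12 k36 5 (.s k40 k60 5 (.d k8 k4 k56 1 3))))), (.s k28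
  k24 1 (.s k150 k215 8 (.s k89 k211 10 (.s k93 k81 1 (.d k223 k158 k154 8 10))))), (.s k48 k32 3
  (.s k150 k215 8 (.s k154 k223 10 (.s k101 k207 14 (.s k52 k199 12 (.d k60 k40 k56 5 1))))))] .n)

def s1_170_45 : T TT 256 :=
  (.q k4 [(.s k12 k8 1 (.s k36 k52 3 (.s k24 k48 5 (.s k28 k16 1 (.d k60 k44 k40 3 5))))), (.s k52
  k36 3 (.s k150 k215 8 (.s k101 k199 12 (.s k117 k69 3 (.d k247 k182 k166 8 12))))), (.s k12 k8 1
  (.s k60 k40 5 (.s k44 k28 3 (.s k150 k215 8 (.s k105 k195 14 (.d k166 k227 k247 10 12))))))] .n)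

def s1_170_46 : T TT 256 :=
  (.q k4 [(.s k12 k8 1 (.s k36 k52 3 (.s k24 k48 5 (.s k28 k16 1 (.d k60 k44 k40 3 5))))), (.s k52
  k36 3 (.s k150 k215 8 (.s k101 k199 12 (.s k117 k69 3 (.d k247 k182 k166 8 12))))), (.s k12 k8 1
  (.s k60 k40 5 (.s k44 k28 3 (.s k150 k215 8 (.s k105 k195 14 (.d k166 k227 k247 10 12))))))] .n)

def s1_170_47 : T TT 256 :=
  (.q k4 [(.s k12 k8 1 (.s k36 k52 3 (.s k24 k48 5 (.s k28 k16 1 (.d k60 k44 k40 3 5))))), (.s k52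
  k36 3 (.s k150 k215 8 (.s k101 k199 12 (.s k117 k69 3 (.d k247 k182 k166 8 12))))), (.s k12 k8 1
  (.s k60 k40 5 (.s k44 k28 3 (.s k150 k215 8 (.s k105 k195 14 (.d k166 k227 k247 10 12))))))] .n)

def s1_170_48 : T TT 256 :=
  (.q k21 [(.s k23 k22 0 (.s k149 k213 7 (.s k86 k212 8 (.s k87 k84 0 (.d k215 k151 k150 7 8))))),
  (.s k60 k40 5 (.s k63 k42 6 (.s k62 k61 0 (.s k150 k215 8 (.s k106 k194 13 (.s k64 k127 6 (.d k192
  k128 k149 7 14)))))))] (.c k149 (.l (.s k22 k23 0 (.s k60 k40 5 (.s k3 k41 6 (.s k150 k215 8 (.s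
  k86 k214 7 (.s k252 k169 14 (.d k84 k87 k168 0 13)))))))) (.c k150 (.l (.s k23 k22 0 (.s k63 k42 6
  (.s k3 k43 5 (.s k149 k213 7 (.s k86 k212 8 (.s k84 k87 0 (.d k252 k168 k169 13 14)))))))) (.c
  k215 (.l (.s k23 k22 0 (.s k60 k40 5 (.s k63 k42 6 (.s k149 k213 7 (.s k212 k86 8 (.s k148 k84 7
  (.d k192 k106 k104 14 13)))))))) .n))))

def s1_170_49 : T TT 256 :=
  (.f k40 k60 5 (.f k150 k215 8 (.q k4 [(.s k36 k52 3 (.s k32 k44 1 (.s k48 k16 3 (.d k12 k8 k24 1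
  5)))), (.s k52 k36 3 (.s k101 k199 12 (.s k117 k69 3 (.d k247 k182 k166 8 12)))), (.s k12 k8 1 (.s
  k166 k247 12 (.s k89 k243 14 (.s k28 k211 10 (.s k16 k24 1 (.s k93 k81 1 (.d k223 k158 k154 8
  10)))))))] (.c k17 (.q k33 [(.s k12 k8 1 (.s k36 k52 3 (.s k32 k44 1 (.d k48 k16 k24 3 5)))), (.s
  k52 k36 3 (.s k101 k199 12 (.s k117 k69 3 (.d k247 k182 k166 8 12)))), (.s k12 k8 1 (.s k166 k247
  12 (.s k89 k243 14 (.s k28 k211 10 (.s k16 k24 1 (.s k93 k81 1 (.d k223 k158 k154 8 10)))))))] .n)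
  (.c k33 (.q k17 [(.s k36 k52 3 (.s k32 k44 1 (.s k48 k16 3 (.d k12 k8 k24 1 5)))), (.s k52 k36 3
  (.s k101 k199 12 (.s k117 k69 3 (.d k247 k182 k166 8 12)))), (.s k12 k8 1 (.s k51 k34 4 (.s k25
  k38 6 (.s k153 k221 9 (.s k89 k217 7 (.d k166 k247 k243 12 14))))))] .n) .n)))))

def s1_170_50 : T TT 256 :=
  (.q k4 [(.s k36 k52 3 (.s k40 k60 5 (.s k32 k44 1 (.s k48 k16 3 (.d k12 k8 k24 1 5))))), (.s k52
  k36 3 (.s k150 k215 8 (.s k101 k199 12 (.s k117 k69 3 (.d k247 k182 k166 8 12))))), (.s k12 k8 1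
  (.s k60 k40 5 (.s k44 k28 3 (.s k150 k215 8 (.s k105 k195 14 (.d k166 k227 k247 10 12))))))] .n)

def s1_170_51 : T TT 256 :=
  (.q k4 [(.s k52 k36 3 (.s k150 k215 8 (.s k101 k199 12 (.s k117 k69 3 (.d k247 k182 k166 8
  12))))), (.s k12 k8 1 (.s k36 k52 3 (.s k24 k48 5 (.s k28 k16 1 (.d k60 k44 k40 3 5))))), (.s k12
  k8 1 (.s k60 k40 5 (.s k44 k28 3 (.s k150 k215 8 (.s k105 k195 14 (.d k166 k227 k247 10 12))))))]
  .n)

def s1_170_52 : T TT 256 :=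
  (.q k16 [(.s k24 k28 1 (.s k40 k60 5 (.s k8 k56 3 (.s k48 k32 3 (.d k12 k4 k36 1 5))))), (.s k28
  k24 1 (.s k150 k215 8 (.s k89 k211 10 (.s k93 k81 1 (.d k223 k158 k154 8 10))))), (.s k48 k32 3
  (.s k60 k40 5 (.s k150 k215 8 (.s k154 k223 10 (.s k158 k146 1 (.d k207 k101 k109 14 12))))))] .n)

def s1_170_53 : T TT 256 :=
  (.q k4 [(.s k52 k36 3 (.s k150 k215 8 (.s k101 k199 12 (.s k117 k69 3 (.d k247 k182 k166 8
  12))))), (.s k12 k8 1 (.s k36 k52 3 (.s k24 k48 5 (.s k28 k16 1 (.d k60 k44 k40 3 5))))), (.s k12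
  k8 1 (.s k60 k40 5 (.s k44 k28 3 (.s k150 k215 8 (.s k105 k195 14 (.d k166 k227 k247 10 12))))))]
  .n)

def s1_170_54 : T TT 256 :=
  (.q k4 [(.s k52 k36 3 (.s k150 k215 8 (.s k101 k199 12 (.s k117 k69 3 (.d k247 k182 k166 8
  12))))), (.s k12 k8 1 (.s k36 k52 3 (.s k24 k48 5 (.s k28 k16 1 (.d k60 k44 k40 3 5))))), (.s k12
  k8 1 (.s k60 k40 5 (.s k44 k28 3 (.s k150 k215 8 (.s k105 k195 14 (.d k166 k227 k247 10 12))))))]
  .n)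

def s1_170_55 : T TT 256 :=
  (.q k4 [(.s k36 k52 3 (.s k40 k60 5 (.s k32 k44 1 (.s k48 k16 3 (.d k12 k8 k24 1 5))))), (.s k52
  k36 3 (.s k150 k215 8 (.s k101 k199 12 (.s k117 k69 3 (.d k247 k182 k166 8 12))))), (.s k12 k8 1
  (.s k60 k40 5 (.s k44 k28 3 (.s k150 k215 8 (.s k105 k195 14 (.d k166 k227 k247 10 12))))))] .n)

def s1_170_56 : T TT 256 :=
  (.q k4 [(.s k12 k8 1 (.s k36 k52 3 (.s k40 k60 5 (.s k48 k24 5 (.d k32 k44 k16 1 3))))), (.s k52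
  k36 3 (.s k150 k215 8 (.s k101 k199 12 (.s k117 k69 3 (.d k247 k182 k166 8 12))))), (.s k12 k8 1
  (.s k150 k215 8 (.s k166 k247 12 (.s k89 k243 14 (.s k28 k211 10 (.d k60 k40 k44 5 3))))))] .n)

def s1_170_57 : T TT 256 :=
  (.q k4 [(.s k12 k8 1 (.s k36 k52 3 (.s k24 k48 5 (.s k28 k16 1 (.d k60 k44 k40 3 5))))), (.s k52
  k36 3 (.s k150 k215 8 (.s k101 k199 12 (.s k117 k69 3 (.d k247 k182 k166 8 12))))), (.s k12 k8 1
  (.s k60 k40 5 (.s k44 k28 3 (.s k150 k215 8 (.s k105 k195 14 (.d k166 k227 k247 10 12))))))] .n)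

def s1_170_58 : T TT 256 :=
  (.q k4 [(.s k36 k52 3 (.s k40 k60 5 (.s k32 k44 1 (.s k48 k16 3 (.d k12 k8 k24 1 5))))), (.s k52
  k36 3 (.s k150 k215 8 (.s k101 k199 12 (.s k117 k69 3 (.d k247 k182 k166 8 12))))), (.s k12 k8 1
  (.s k60 k40 5 (.s k44 k28 3 (.s k150 k215 8 (.s k105 k195 14 (.d k166 k227 k247 10 12))))))] .n)

def s1_170_59 : T TT 256 :=
  (.q k4 [(.s k36 k52 3 (.s k40 k60 5 (.s k32 k44 1 (.s k48 k16 3 (.d k12 k8 k24 1 5))))), (.s k52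
  k36 3 (.s k150 k215 8 (.s k101 k199 12 (.s k117 k69 3 (.d k247 k182 k166 8 12))))), (.s k12 k8 1
  (.s k60 k40 5 (.s k44 k28 3 (.s k150 k215 8 (.s k105 k195 14 (.d k166 k227 k247 10 12))))))] .n)

def s1_170_60 : T TT 256 :=
  (.f k150 k215 8 (.q k4 [(.s k52 k36 3 (.s k101 k199 12 (.s k117 k69 3 (.d k247 k182 k166 8 12)))),
  (.s k12 k8 1 (.s k166 k247 12 (.s k89 k243 14 (.s k28 k211 10 (.s k16 k24 1 (.s k93 k81 1 (.d k223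
  k158 k154 8 10))))))), (.s k12 k8 1 (.s k36 k52 3 (.s k48 k24 5 (.s k16 k32 3 (.s k154 k223 10 (.s
  k101 k207 14 (.d k166 k231 k247 8 12)))))))] (.c k166 (.f k52 k36 3 (.f k101 k199 12 (.l (.s k69
  k117 3 (.s k207 k138 10 (.s k154 k48 14 (.s k16 k223 10 (.s k146 k158 1 (.s k211 k81 8 (.d k28 k24
  k89 1 10)))))))))) (.c k231 (.l (.s k52 k36 3 (.s k101 k199 12 (.s k247 k166 12 (.d k117 k69 k182
  3 8))))) (.c k247 (.f k52 k36 3 (.f k12 k8 1 (.f k199 k101 12 (.l (.s k134 k69 8 (.s k166 k182 3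
  (.s k195 k73 10 (.s k65 k130 8 (.s k105 k125 5 (.s k227 k44 10 (.d k243 k211 k89 3 14)))))))))))
  .n)))))

def s1_170_61 : T TT 256 :=
  (.f k150 k215 8 (.q k21 [(.s k23 k22 0 (.s k149 k213 7 (.s k148 k151 0 (.d k212 k84 k86 7 8)))),
  (.s k60 k40 5 (.s k63 k42 6 (.s k149 k213 7 (.s k151 k148 0 (.d k195 k105 k107 14 13))))), (.s k22
  k23 0 (.s k60 k40 5 (.s k3 k41 6 (.s k86 k214 7 (.s k252 k169 14 (.d k84 k87 k168 0 13))))))] (.c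
  k151 (.l (.s k23 k22 0 (.s k60 k40 5 (.s k63 k42 6 (.s k149 k213 7 (.s k212 k86 8 (.s k148 k84 7
  (.d k192 k106 k104 14 13)))))))) (.c k212 (.l (.s k22 k23 0 (.s k60 k40 5 (.s k3 k41 6 (.s k86
  k214 7 (.s k213 k149 7 (.s k252 k169 14 (.d k84 k87 k168 0 13)))))))) (.c k213 (.f k22 k23 0 (.l
  (.s k60 k40 5 (.s k3 k41 6 (.s k105 k195 14 (.s k125 k65 5 (.s k255 k190 8 (.s k87 k171 13 (.d k86
  k84 k214 0 7))))))))) (.c k214 (.l (.s k23 k22 0 (.s k149 k213 7 (.s k212 k86 8 (.d k148 k151 k84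
  0 7))))) .n))))))

def s1_170_62 : T TT 256 :=
  (.q k4 [(.s k12 k8 1 (.s k36 k52 3 (.s k24 k48 5 (.s k28 k16 1 (.d k60 k44 k40 3 5))))), (.s k52
  k36 3 (.s k150 k215 8 (.s k101 k199 12 (.s k117 k69 3 (.d k247 k182 k166 8 12))))), (.s k12 k8 1
  (.s k60 k40 5 (.s k44 k28 3 (.s k150 k215 8 (.s k105 k195 14 (.d k166 k227 k247 10 12))))))] .n)

def s1_170_63 : T TT 256 :=
  (.q k4 [(.s k52 k36 3 (.s k150 k215 8 (.s k101 k199 12 (.s k117 k69 3 (.d k247 k182 k166 8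
  12))))), (.s k12 k8 1 (.s k36 k52 3 (.s k24 k48 5 (.s k28 k16 1 (.d k60 k44 k40 3 5))))), (.s k12
  k8 1 (.s k60 k40 5 (.s k44 k28 3 (.s k150 k215 8 (.s k105 k195 14 (.d k166 k227 k247 10 12))))))]
  .n)

def s1_170_64 : T TT 256 :=
  (.q k4 [(.s k36 k52 3 (.s k40 k60 5 (.s k32 k44 1 (.s k48 k16 3 (.d k12 k8 k24 1 5))))), (.s k52
  k36 3 (.s k150 k215 8 (.s k101 k199 12 (.s k117 k69 3 (.d k247 k182 k166 8 12))))), (.s k12 k8 1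
  (.s k60 k40 5 (.s k44 k28 3 (.s k150 k215 8 (.s k105 k195 14 (.d k166 k227 k247 10 12))))))] .n)

def s1_170_65 : T TT 256 :=
  (.f k40 k60 5 (.f k150 k215 8 (.q k16 [(.s k24 k28 1 (.s k8 k56 3 (.s k12 k4 1 (.d k48 k32 k36 3
  5)))), (.s k28 k24 1 (.s k89 k211 10 (.s k93 k81 1 (.d k223 k158 k154 8 10)))), (.s k48 k32 3 (.s
  k154 k223 10 (.s k101 k207 14 (.s k52 k199 12 (.s k4 k36 3 (.s k117 k69 3 (.d k247 k182 k166 8
  12)))))))] (.c k129 (.q k193 [(.s k24 k28 1 (.s k8 k56 3 (.s k12 k4 1 (.d k48 k32 k36 3 5)))), (.s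
  k28 k24 1 (.s k89 k211 10 (.s k93 k81 1 (.d k223 k158 k154 8 10)))), (.s k48 k32 3 (.s k154 k223
  10 (.s k101 k207 14 (.s k52 k199 12 (.s k4 k36 3 (.s k117 k69 3 (.d k247 k182 k166 8 12)))))))]
  .n) (.c k193 (.q k129 [(.s k24 k28 1 (.s k8 k56 3 (.s k12 k4 1 (.d k48 k32 k36 3 5)))), (.s k28
  k24 1 (.s k89 k211 10 (.s k93 k81 1 (.d k223 k158 k154 8 10)))), (.s k48 k32 3 (.s k154 k223 10
  (.s k101 k207 14 (.s k52 k199 12 (.s k4 k36 3 (.s k117 k69 3 (.d k247 k182 k166 8 12)))))))] .n)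
  .n)))))

def s1_170_66 : T TT 256 :=
  (.q k4 [(.s k36 k52 3 (.s k40 k60 5 (.s k32 k44 1 (.s k48 k16 3 (.d k12 k8 k24 1 5))))), (.s k52
  k36 3 (.s k150 k215 8 (.s k101 k199 12 (.s k117 k69 3 (.d k247 k182 k166 8 12))))), (.s k12 k8 1
  (.s k60 k40 5 (.s k44 k28 3 (.s k150 k215 8 (.s k105 k195 14 (.d k166 k227 k247 10 12))))))] .n)

def s1_170_67 : T TT 256 :=
  (.q k4 [(.s k36 k52 3 (.s k40 k60 5 (.s k32 k44 1 (.s k48 k16 3 (.d k12 k8 k24 1 5))))), (.s k52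
  k36 3 (.s k150 k215 8 (.s k101 k199 12 (.s k117 k69 3 (.d k247 k182 k166 8 12))))), (.s k12 k8 1
  (.s k60 k40 5 (.s k44 k28 3 (.s k150 k215 8 (.s k105 k195 14 (.d k166 k227 k247 10 12))))))] .n)

def s1_170_68 : T TT 256 :=
  (.q k4 [(.s k36 k52 3 (.s k40 k60 5 (.s k32 k44 1 (.s k48 k16 3 (.d k12 k8 k24 1 5))))), (.s k52
  k36 3 (.s k150 k215 8 (.s k101 k199 12 (.s k117 k69 3 (.d k247 k182 k166 8 12))))), (.s k12 k8 1
  (.s k60 k40 5 (.s k44 k28 3 (.s k150 k215 8 (.s k105 k195 14 (.d k166 k227 k247 10 12))))))] .n)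

def s1_170_69 : T TT 256 :=
  (.f k150 k215 8 (.q k86 [(.s k22 k214 7 (.s k84 k87 0 (.s k212 k148 7 (.d k23 k21 k149 0 8)))),
  (.s k60 k40 5 (.s k84 k87 0 (.s k105 k195 14 (.s k124 k67 6 (.d k252 k188 k168 7 13))))), (.s k22
  k214 7 (.s k60 k40 5 (.s k3 k41 6 (.s k105 k195 14 (.s k124 k67 6 (.d k252 k188 k169 7 14))))))]
  (.c k137 (.q k205 [(.s k22 k214 7 (.s k84 k87 0 (.s k212 k148 7 (.d k23 k21 k149 0 8)))), (.s k60
  k40 5 (.s k84 k87 0 (.s k105 k195 14 (.s k124 k67 6 (.d k252 k188 k168 7 13))))), (.s k22 k214 7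
  (.s k60 k40 5 (.s k3 k41 6 (.s k105 k195 14 (.s k124 k67 6 (.d k252 k188 k169 7 14))))))] .n) (.c
  k205 (.q k137 [(.s k22 k214 7 (.s k84 k87 0 (.s k212 k148 7 (.d k23 k21 k149 0 8)))), (.s k60 k40
  5 (.s k84 k87 0 (.s k105 k195 14 (.s k124 k67 6 (.d k252 k188 k168 7 13))))), (.s k22 k214 7 (.s
  k60 k40 5 (.s k3 k41 6 (.s k105 k195 14 (.s k124 k67 6 (.d k252 k188 k169 7 14))))))] .n) .n))))

def s1_170_70 : T TT 256 :=
  (.q k4 [(.s k36 k52 3 (.s k40 k60 5 (.s k32 k44 1 (.s k48 k16 3 (.d k12 k8 k24 1 5))))), (.s k52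
  k36 3 (.s k150 k215 8 (.s k101 k199 12 (.s k117 k69 3 (.d k247 k182 k166 8 12))))), (.s k12 k8 1
  (.s k60 k40 5 (.s k44 k28 3 (.s k150 k215 8 (.s k105 k195 14 (.d k166 k227 k247 10 12))))))] .n)

def s1_170_71 : T TT 256 :=
  (.q k4 [(.s k36 k52 3 (.s k40 k60 5 (.s k32 k44 1 (.s k48 k16 3 (.d k12 k8 k24 1 5))))), (.s k52
  k36 3 (.s k150 k215 8 (.s k101 k199 12 (.s k117 k69 3 (.d k247 k182 k166 8 12))))), (.s k12 k8 1
  (.s k60 k40 5 (.s k44 k28 3 (.s k150 k215 8 (.s k105 k195 14 (.d k166 k227 k247 10 12))))))] .n)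

def s1_170_72 : T TT 256 :=
  (.q k4 [(.s k36 k52 3 (.s k40 k60 5 (.s k32 k44 1 (.s k48 k16 3 (.d k12 k8 k24 1 5))))), (.s k52
  k36 3 (.s k150 k215 8 (.s k101 k199 12 (.s k117 k69 3 (.d k247 k182 k166 8 12))))), (.s k12 k8 1
  (.s k60 k40 5 (.s k44 k28 3 (.s k150 k215 8 (.s k105 k195 14 (.d k166 k227 k247 10 12))))))] .n)

def s1_170_73 : T TT 256 :=
  (.q k4 [(.s k36 k52 3 (.s k40 k60 5 (.s k32 k44 1 (.s k48 k16 3 (.d k12 k8 k24 1 5))))), (.s k52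
  k36 3 (.s k150 k215 8 (.s k101 k199 12 (.s k117 k69 3 (.d k247 k182 k166 8 12))))), (.s k12 k8 1
  (.s k60 k40 5 (.s k44 k28 3 (.s k150 k215 8 (.s k105 k195 14 (.d k166 k227 k247 10 12))))))] .n)

def s1_170_74 : T TT 256 :=
  (.q k4 [(.s k36 k52 3 (.s k40 k60 5 (.s k32 k44 1 (.s k48 k16 3 (.d k12 k8 k24 1 5))))), (.s k52
  k36 3 (.s k150 k215 8 (.s k101 k199 12 (.s k117 k69 3 (.d k247 k182 k166 8 12))))), (.s k12 k8 1
  (.s k60 k40 5 (.s k44 k28 3 (.s k150 k215 8 (.s k105 k195 14 (.d k166 k227 k247 10 12))))))] .n)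

def s1_170_75 : T TT 256 :=
  (.q k4 [(.s k36 k52 3 (.s k40 k60 5 (.s k32 k44 1 (.s k48 k16 3 (.d k12 k8 k24 1 5))))), (.s k52
  k36 3 (.s k150 k215 8 (.s k101 k199 12 (.s k117 k69 3 (.d k247 k182 k166 8 12))))), (.s k12 k8 1
  (.s k60 k40 5 (.s k44 k28 3 (.s k150 k215 8 (.s k105 k195 14 (.d k166 k227 k247 10 12))))))] .n)

def s1_170_76 : T TT 256 :=
  (.q k4 [(.s k36 k52 3 (.s k40 k60 5 (.s k32 k44 1 (.s k48 k16 3 (.d k12 k8 k24 1 5))))), (.s k52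
  k36 3 (.s k150 k215 8 (.s k101 k199 12 (.s k117 k69 3 (.d k247 k182 k166 8 12))))), (.s k12 k8 1
  (.s k60 k40 5 (.s k44 k28 3 (.s k150 k215 8 (.s k105 k195 14 (.d k166 k227 k247 10 12))))))] .n)

def s1_170_77 : T TT 256 :=
  (.q k4 [(.s k36 k52 3 (.s k40 k60 5 (.s k32 k44 1 (.s k48 k16 3 (.d k12 k8 k24 1 5))))), (.s k52
  k36 3 (.s k150 k215 8 (.s k101 k199 12 (.s k117 k69 3 (.d k247 k182 k166 8 12))))), (.s k12 k8 1
  (.s k60 k40 5 (.s k44 k28 3 (.s k150 k215 8 (.s k105 k195 14 (.d k166 k227 k247 10 12))))))] .n)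

def s1_170_78 : T TT 256 :=
  (.q k4 [(.s k36 k52 3 (.s k40 k60 5 (.s k32 k44 1 (.s k48 k16 3 (.d k12 k8 k24 1 5))))), (.s k52
  k36 3 (.s k150 k215 8 (.s k101 k199 12 (.s k117 k69 3 (.d k247 k182 k166 8 12))))), (.s k12 k8 1
  (.s k60 k40 5 (.s k44 k28 3 (.s k150 k215 8 (.s k105 k195 14 (.d k166 k227 k247 10 12))))))] .n)

def s1_170_79 : T TT 256 :=
  (.q k4 [(.s k36 k52 3 (.s k40 k60 5 (.s k32 k44 1 (.s k48 k16 3 (.d k12 k8 k24 1 5))))), (.s k52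
  k36 3 (.s k150 k215 8 (.s k101 k199 12 (.s k117 k69 3 (.d k247 k182 k166 8 12))))), (.s k12 k8 1
  (.s k60 k40 5 (.s k44 k28 3 (.s k150 k215 8 (.s k105 k195 14 (.d k166 k227 k247 10 12))))))] .n)

def s1_170_80 : T TT 256 :=
  (.q k4 [(.s k52 k36 3 (.s k150 k215 8 (.s k101 k199 12 (.s k117 k69 3 (.d k247 k182 k166 8
  12))))), (.s k12 k8 1 (.s k36 k52 3 (.s k24 k48 5 (.s k28 k16 1 (.d k60 k44 k40 3 5))))), (.s k12
  k8 1 (.s k60 k40 5 (.s k44 k28 3 (.s k150 k215 8 (.s k105 k195 14 (.d k166 k227 k247 10 12))))))]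
  .n)

def s1_170_81 : T TT 256 :=
  (.f k150 k215 8 (.q k64 [(.s k60 k40 5 (.s k105 k195 14 (.s k106 k127 6 (.s k192 k128 7 (.d k104
  k107 k148 0 13))))), (.s k60 k40 5 (.s k106 k127 6 (.s k62 k194 13 (.s k63 k61 0 (.d k192 k128
  k149 7 14))))), (.s k106 k127 6 (.s k192 k128 7 (.s k149 k63 14 (.s k21 k213 7 (.s k23 k22 0 (.s
  k148 k151 0 (.d k212 k84 k86 7 8))))))), (.s k60 k40 5 (.s k105 k195 14 (.s k65 k125 5 (.s k67 k66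
  0 (.s k86 k124 6 (.s k87 k84 0 (.d k127 k107 k106 5 6))))))), (.s k60 k40 5 (.s k105 k195 14 (.s
  k65 k125 5 (.s k67 k66 0 (.s k192 k128 7 (.s k104 k148 13 (.d k124 k84 k86 5 6)))))))] (.c k161
  (.q k241 [(.s k60 k40 5 (.s k105 k195 14 (.s k106 k127 6 (.s k192 k128 7 (.d k104 k107 k148 0
  13))))), (.s k60 k40 5 (.s k106 k127 6 (.s k62 k194 13 (.s k63 k61 0 (.d k192 k128 k149 7 14))))),
  (.s k106 k127 6 (.s k192 k128 7 (.s k149 k63 14 (.s k21 k213 7 (.s k23 k22 0 (.s k148 k151 0 (.d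
  k212 k84 k86 7 8))))))), (.s k60 k40 5 (.s k105 k195 14 (.s k65 k125 5 (.s k67 k66 0 (.s k86 k124
  6 (.s k87 k84 0 (.d k127 k107 k106 5 6))))))), (.s k60 k40 5 (.s k105 k195 14 (.s k65 k125 5 (.s
  k67 k66 0 (.s k192 k128 7 (.s k104 k148 13 (.d k124 k84 k86 5 6)))))))] .n) (.c k241 (.q k161 [(.s
  k60 k40 5 (.s k105 k195 14 (.s k106 k127 6 (.s k192 k128 7 (.d k104 k107 k148 0 13))))), (.s k60
  k40 5 (.s k106 k127 6 (.s k62 k194 13 (.s k63 k61 0 (.d k192 k128 k149 7 14))))), (.s k106 k127 6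
  (.s k192 k128 7 (.s k149 k63 14 (.s k21 k213 7 (.s k23 k22 0 (.s k148 k151 0 (.d k212 k84 k86 7
  8))))))), (.s k60 k40 5 (.s k105 k195 14 (.s k65 k125 5 (.s k67 k66 0 (.s k86 k124 6 (.s k87 k84 0
  (.d k127 k107 k106 5 6))))))), (.s k60 k40 5 (.s k105 k195 14 (.s k65 k125 5 (.s k67 k66 0 (.s
  k192 k128 7 (.s k104 k148 13 (.d k124 k84 k86 5 6)))))))] .n) .n))))

def s1_170_82 : T TT 256 :=
  (.q k4 [(.s k36 k52 3 (.s k40 k60 5 (.s k32 k44 1 (.s k48 k16 3 (.d k12 k8 k24 1 5))))), (.s k52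
  k36 3 (.s k150 k215 8 (.s k101 k199 12 (.s k117 k69 3 (.d k247 k182 k166 8 12))))), (.s k12 k8 1
  (.s k60 k40 5 (.s k44 k28 3 (.s k150 k215 8 (.s k105 k195 14 (.d k166 k227 k247 10 12))))))] .n)

def s1_170_83 : T TT 256 :=
  (.q k4 [(.s k36 k52 3 (.s k40 k60 5 (.s k32 k44 1 (.s k48 k16 3 (.d k12 k8 k24 1 5))))), (.s k52
  k36 3 (.s k150 k215 8 (.s k101 k199 12 (.s k117 k69 3 (.d k247 k182 k166 8 12))))), (.s k12 k8 1
  (.s k60 k40 5 (.s k44 k28 3 (.s k150 k215 8 (.s k105 k195 14 (.d k166 k227 k247 10 12))))))] .n)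

def s1_170_84 : T TT 256 :=
  (.q k4 [(.s k52 k36 3 (.s k150 k215 8 (.s k101 k199 12 (.s k117 k69 3 (.d k247 k182 k166 8
  12))))), (.s k12 k8 1 (.s k36 k52 3 (.s k24 k48 5 (.s k28 k16 1 (.d k60 k44 k40 3 5))))), (.s k12
  k8 1 (.s k60 k40 5 (.s k44 k28 3 (.s k150 k215 8 (.s k105 k195 14 (.d k166 k227 k247 10 12))))))]
  .n)

def s1_170_86 : T TT 256 :=
  (.f k150 k215 8 (.f k40 k60 5 (.q k16 [(.s k24 k28 1 (.s k8 k56 3 (.s k12 k4 1 (.d k48 k32 k36 3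
  5)))), (.s k28 k24 1 (.s k89 k211 10 (.s k93 k81 1 (.d k223 k158 k154 8 10)))), (.s k48 k32 3 (.s
  k154 k223 10 (.s k101 k207 14 (.s k52 k199 12 (.s k4 k36 3 (.s k117 k69 3 (.d k247 k182 k166 8
  12)))))))] (.c k2 (.q k254 [(.s k24 k28 1 (.s k8 k56 3 (.s k12 k4 1 (.d k48 k32 k36 3 5)))), (.s
  k28 k24 1 (.s k89 k211 10 (.s k93 k81 1 (.d k223 k158 k154 8 10)))), (.s k48 k32 3 (.s k154 k223
  10 (.s k101 k207 14 (.s k52 k199 12 (.s k4 k36 3 (.s k117 k69 3 (.d k247 k182 k166 8 12)))))))]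
  .n) (.c k254 (.q k2 [(.s k24 k28 1 (.s k8 k56 3 (.s k12 k4 1 (.d k48 k32 k36 3 5)))), (.s k28 k24
  1 (.s k89 k211 10 (.s k93 k81 1 (.d k223 k158 k154 8 10)))), (.s k48 k32 3 (.s k154 k223 10 (.s
  k101 k207 14 (.s k52 k199 12 (.s k4 k36 3 (.s k117 k69 3 (.d k247 k182 k166 8 12)))))))] .n)
  .n)))))

def s1_170_87 : T TT 256 :=
  (.q k4 [(.s k36 k52 3 (.s k40 k60 5 (.s k32 k44 1 (.s k48 k16 3 (.d k12 k8 k24 1 5))))), (.s k52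
  k36 3 (.s k150 k215 8 (.s k101 k199 12 (.s k117 k69 3 (.d k247 k182 k166 8 12))))), (.s k12 k8 1
  (.s k60 k40 5 (.s k44 k28 3 (.s k150 k215 8 (.s k105 k195 14 (.d k166 k227 k247 10 12))))))] .n)

def s1_170_88 : T TT 256 :=
  (.q k4 [(.s k36 k52 3 (.s k40 k60 5 (.s k32 k44 1 (.s k48 k16 3 (.d k12 k8 k24 1 5))))), (.s k52
  k36 3 (.s k150 k215 8 (.s k101 k199 12 (.s k117 k69 3 (.d k247 k182 k166 8 12))))), (.s k12 k8 1
  (.s k60 k40 5 (.s k44 k28 3 (.s k150 k215 8 (.s k105 k195 14 (.d k166 k227 k247 10 12))))))] .n)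

def s1_170_89 : T TT 256 :=
  (.q k4 [(.s k36 k52 3 (.s k40 k60 5 (.s k32 k44 1 (.s k48 k16 3 (.d k12 k8 k24 1 5))))), (.s k52
  k36 3 (.s k150 k215 8 (.s k101 k199 12 (.s k117 k69 3 (.d k247 k182 k166 8 12))))), (.s k60 k40 5
  (.s k150 k215 8 (.s k105 k195 14 (.s k166 k247 12 (.s k44 k227 10 (.d k12 k8 k28 1 3))))))] (.c k8
  (.q k251 [(.s k52 k36 3 (.s k150 k215 8 (.s k166 k247 12 (.s k134 k182 3 (.d k199 k69 k101 8
  12))))), (.s k60 k40 5 (.s k150 k215 8 (.s k105 k195 14 (.s k125 k65 5 (.s k247 k166 12 (.d k255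
  k243 k190 1 8)))))), (.s k52 k36 3 (.s k60 k40 5 (.s k247 k166 12 (.s k182 k117 8 (.d k243 k255
  k121 1 10)))))] (.c k166 (.l (.s k52 k36 3 (.s k60 k40 5 (.s k150 k215 8 (.s k101 k199 12 (.s k69
  k117 3 (.s k207 k138 10 (.d k48 k56 k154 1 14)))))))) (.c k247 (.l (.s k52 k36 3 (.s k60 k40 5 (.s
  k150 k215 8 (.s k199 k101 12 (.s k69 k134 8 (.s k207 k138 10 (.d k195 k203 k105 1 14)))))))) .n)))
  (.c k251 (.l (.s k8 k12 1 (.s k52 k36 3 (.s k150 k215 8 (.s k101 k199 12 (.s k117 k69 3 (.d k247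
  k166 k182 12 8))))))) .n)))

def s1_170_90 : T TT 256 :=
  (.f k40 k60 5 (.f k150 k215 8 (.q k4 [(.s k36 k52 3 (.s k32 k44 1 (.s k48 k16 3 (.d k12 k8 k24 1
  5)))), (.s k52 k36 3 (.s k101 k199 12 (.s k117 k69 3 (.d k247 k182 k166 8 12)))), (.s k12 k8 1 (.s
  k166 k247 12 (.s k89 k243 14 (.s k28 k211 10 (.s k16 k24 1 (.s k93 k81 1 (.d k223 k158 k154 8
  10)))))))] (.c k10 (.q k250 [(.s k36 k52 3 (.s k32 k44 1 (.s k48 k16 3 (.d k12 k8 k24 1 5)))), (.s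
  k52 k36 3 (.s k101 k199 12 (.s k117 k69 3 (.d k247 k182 k166 8 12)))), (.s k12 k8 1 (.s k166 k247
  12 (.s k89 k243 14 (.s k28 k211 10 (.s k16 k24 1 (.s k93 k81 1 (.d k223 k158 k154 8 10)))))))] .n)
  (.c k250 (.q k10 [(.s k36 k52 3 (.s k32 k44 1 (.s k48 k16 3 (.d k12 k8 k24 1 5)))), (.s k5 k15 2
  (.s k7 k6 0 (.s k165 k245 11 (.s k86 k244 12 (.s k87 k84 0 (.d k247 k167 k166 11 12))))))] .n)
  .n)))))

def s1_170_91 : T TT 256 :=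
  (.q k4 [(.s k36 k52 3 (.s k40 k60 5 (.s k32 k44 1 (.s k48 k16 3 (.d k12 k8 k24 1 5))))), (.s k52
  k36 3 (.s k150 k215 8 (.s k101 k199 12 (.s k117 k69 3 (.d k247 k182 k166 8 12))))), (.s k12 k8 1
  (.s k60 k40 5 (.s k44 k28 3 (.s k150 k215 8 (.s k105 k195 14 (.d k166 k227 k247 10 12))))))] .n)

def s1_170_92 : T TT 256 :=
  (.q k4 [(.s k36 k52 3 (.s k40 k60 5 (.s k32 k44 1 (.s k48 k16 3 (.d k12 k8 k24 1 5))))), (.s k52
  k36 3 (.s k150 k215 8 (.s k101 k199 12 (.s k117 k69 3 (.d k247 k182 k166 8 12))))), (.s k12 k8 1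
  (.s k60 k40 5 (.s k44 k28 3 (.s k150 k215 8 (.s k105 k195 14 (.d k166 k227 k247 10 12))))))] .n)

def s1_170_93 : T TT 256 :=
  (.q k4 [(.s k36 k52 3 (.s k40 k60 5 (.s k32 k44 1 (.s k48 k16 3 (.d k12 k8 k24 1 5))))), (.s k52
  k36 3 (.s k150 k215 8 (.s k101 k199 12 (.s k117 k69 3 (.d k247 k182 k166 8 12))))), (.s k12 k8 1
  (.s k60 k40 5 (.s k44 k28 3 (.s k150 k215 8 (.s k105 k195 14 (.d k166 k227 k247 10 12))))))] .n)

def s1_170_94 : T TT 256 :=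
  (.q k4 [(.s k36 k52 3 (.s k40 k60 5 (.s k32 k44 1 (.s k48 k16 3 (.d k12 k8 k24 1 5))))), (.s k52
  k36 3 (.s k150 k215 8 (.s k101 k199 12 (.s k117 k69 3 (.d k247 k182 k166 8 12))))), (.s k12 k8 1
  (.s k60 k40 5 (.s k44 k28 3 (.s k150 k215 8 (.s k105 k195 14 (.d k166 k227 k247 10 12))))))] .n)

def s1_170_95 : T TT 256 :=
  (.q k4 [(.s k36 k52 3 (.s k40 k60 5 (.s k32 k44 1 (.s k48 k16 3 (.d k12 k8 k24 1 5))))), (.s k52
  k36 3 (.s k150 k215 8 (.s k101 k199 12 (.s k117 k69 3 (.d k247 k182 k166 8 12))))), (.s k12 k8 1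
  (.s k60 k40 5 (.s k44 k28 3 (.s k150 k215 8 (.s k105 k195 14 (.d k166 k227 k247 10 12))))))] .n)

def s1_170_96 : T TT 256 :=
  (.q k4 [(.s k36 k52 3 (.s k40 k60 5 (.s k32 k44 1 (.s k48 k16 3 (.d k12 k8 k24 1 5))))), (.s k52
  k36 3 (.s k150 k215 8 (.s k101 k199 12 (.s k117 k69 3 (.d k247 k182 k166 8 12))))), (.s k12 k8 1
  (.s k60 k40 5 (.s k44 k28 3 (.s k150 k215 8 (.s k105 k195 14 (.d k166 k227 k247 10 12))))))] .n)

def s1_170_97 : T TT 256 :=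
  (.q k4 [(.s k36 k52 3 (.s k40 k60 5 (.s k32 k44 1 (.s k48 k16 3 (.d k12 k8 k24 1 5))))), (.s k52
  k36 3 (.s k150 k215 8 (.s k101 k199 12 (.s k117 k69 3 (.d k247 k182 k166 8 12))))), (.s k12 k8 1
  (.s k60 k40 5 (.s k44 k28 3 (.s k150 k215 8 (.s k105 k195 14 (.d k166 k227 k247 10 12))))))] .n)

def s1_170_98 : T TT 256 :=
  (.q k4 [(.s k36 k52 3 (.s k40 k60 5 (.s k32 k44 1 (.s k48 k16 3 (.d k12 k8 k24 1 5))))), (.s k52
  k36 3 (.s k150 k215 8 (.s k101 k199 12 (.s k117 k69 3 (.d k247 k182 k166 8 12))))), (.s k12 k8 1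
  (.s k60 k40 5 (.s k44 k28 3 (.s k150 k215 8 (.s k105 k195 14 (.d k166 k227 k247 10 12))))))] .n)

def s1_170_99 : T TT 256 :=
  (.q k4 [(.s k36 k52 3 (.s k40 k60 5 (.s k32 k44 1 (.s k48 k16 3 (.d k12 k8 k24 1 5))))), (.s k52
  k36 3 (.s k150 k215 8 (.s k101 k199 12 (.s k117 k69 3 (.d k247 k182 k166 8 12))))), (.s k12 k8 1
  (.s k60 k40 5 (.s k44 k28 3 (.s k150 k215 8 (.s k105 k195 14 (.d k166 k227 k247 10 12))))))] .n)

def s1_170_100 : T TT 256 :=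
  (.q k4 [(.s k36 k52 3 (.s k40 k60 5 (.s k32 k44 1 (.s k48 k16 3 (.d k12 k8 k24 1 5))))), (.s k52
  k36 3 (.s k150 k215 8 (.s k101 k199 12 (.s k117 k69 3 (.d k247 k182 k166 8 12))))), (.s k12 k8 1
  (.s k60 k40 5 (.s k44 k28 3 (.s k150 k215 8 (.s k105 k195 14 (.d k166 k227 k247 10 12))))))] .n)

def s1_170_101 : T TT 256 :=
  (.f k150 k215 8 (.q k16 [(.s k28 k24 1 (.s k154 k223 10 (.s k146 k158 1 (.d k211 k81 k89 8 10)))),
  (.s k24 k28 1 (.s k40 k60 5 (.s k8 k56 3 (.s k12 k4 1 (.d k48 k32 k36 3 5))))), (.s k60 k40 5 (.s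
  k105 k195 14 (.s k154 k223 10 (.s k56 k203 12 (.d k48 k32 k52 3 1)))))] (.c k32 (.q k239 [(.s k28
  k24 1 (.s k154 k223 10 (.s k146 k158 1 (.d k211 k81 k89 8 10)))), (.s k60 k40 5 (.s k105 k195 14
  (.s k125 k65 5 (.s k223 k154 10 (.d k255 k207 k190 3 8)))))] (.c k154 (.l (.s k28 k24 1 (.s k60
  k40 5 (.s k89 k211 10 (.s k81 k93 1 (.s k243 k162 12 (.d k12 k44 k166 3 14))))))) (.c k223 (.l (.s
  k28 k24 1 (.s k60 k40 5 (.s k211 k89 10 (.s k81 k146 8 (.s k243 k162 12 (.d k195 k227 k105 3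
  14))))))) .n))) (.c k239 (.l (.s k32 k48 3 (.s k28 k24 1 (.s k89 k211 10 (.s k93 k81 1 (.d k223
  k154 k158 10 8)))))) .n))))

def s1_170_102 : T TT 256 :=
  (.f k40 k60 5 (.f k150 k215 8 (.q k4 [(.s k36 k52 3 (.s k32 k44 1 (.s k48 k16 3 (.d k12 k8 k24 1
  5)))), (.s k52 k36 3 (.s k101 k199 12 (.s k117 k69 3 (.d k247 k182 k166 8 12)))), (.s k12 k8 1 (.s
  k166 k247 12 (.s k89 k243 14 (.s k28 k211 10 (.s k16 k24 1 (.s k93 k81 1 (.d k223 k158 k154 8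
  10)))))))] (.c k34 (.q k238 [(.s k36 k52 3 (.s k32 k44 1 (.s k48 k16 3 (.d k12 k8 k24 1 5)))), (.s
  k52 k36 3 (.s k101 k199 12 (.s k117 k69 3 (.d k247 k182 k166 8 12)))), (.s k12 k8 1 (.s k166 k247
  12 (.s k89 k243 14 (.s k28 k211 10 (.s k16 k24 1 (.s k93 k81 1 (.d k223 k158 k154 8 10)))))))] .n)
  (.c k238 (.q k34 [(.s k36 k52 3 (.s k32 k44 1 (.s k48 k16 3 (.d k12 k8 k24 1 5)))), (.s k52 k36 3
  (.s k101 k199 12 (.s k117 k69 3 (.d k247 k182 k166 8 12)))), (.s k12 k8 1 (.s k51 k17 4 (.s k38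
  k25 6 (.s k21 k55 4 (.d k42 k46 k63 1 6)))))] .n) .n)))))

def s1_170_103 : T TT 256 :=
  (.q k4 [(.s k36 k52 3 (.s k40 k60 5 (.s k32 k44 1 (.s k48 k16 3 (.d k12 k8 k24 1 5))))), (.s k52
  k36 3 (.s k150 k215 8 (.s k101 k199 12 (.s k117 k69 3 (.d k247 k182 k166 8 12))))), (.s k12 k8 1
  (.s k60 k40 5 (.s k44 k28 3 (.s k150 k215 8 (.s k105 k195 14 (.d k166 k227 k247 10 12))))))] .n)

def s1_170_104 : T TT 256 :=
  (.q k4 [(.s k12 k8 1 (.s k36 k52 3 (.s k24 k48 5 (.s k28 k16 1 (.d k60 k44 k40 3 5))))), (.s k52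
  k36 3 (.s k150 k215 8 (.s k101 k199 12 (.s k117 k69 3 (.d k247 k182 k166 8 12))))), (.s k12 k8 1
  (.s k60 k40 5 (.s k44 k28 3 (.s k150 k215 8 (.s k105 k195 14 (.d k166 k227 k247 10 12))))))] .n)

def s1_170_105 : T TT 256 :=
  (.q k4 [(.s k12 k8 1 (.s k36 k52 3 (.s k24 k48 5 (.s k28 k16 1 (.d k60 k40 k44 5 3))))), (.s k52
  k36 3 (.s k150 k215 8 (.s k101 k199 12 (.s k117 k69 3 (.d k247 k182 k166 8 12))))), (.s k12 k8 1
  (.s k150 k215 8 (.s k166 k247 12 (.s k89 k243 14 (.s k28 k211 10 (.d k60 k40 k44 5 3))))))] (.c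
  k40 (.q k235 [(.s k52 k36 3 (.s k150 k215 8 (.s k166 k247 12 (.s k134 k182 3 (.d k199 k69 k101 8
  12))))), (.s k12 k8 1 (.s k166 k247 12 (.s k89 k243 14 (.s k93 k81 1 (.s k215 k150 8 (.d k255 k195
  k174 5 12)))))), (.s k12 k8 1 (.s k215 k150 8 (.s k195 k255 5 (.s k130 k65 8 (.s k134 k73 10 (.s
  k69 k199 8 (.d k138 k142 k207 1 10))))))), (.s k12 k8 1 (.s k36 k52 3 (.s k24 k48 5 (.s k16 k28 1
  (.s k154 k223 10 (.s k166 k247 12 (.d k89 k219 k243 8 14)))))))] .n) (.c k235 (.l (.s k40 k60 5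
  (.s k12 k8 1 (.s k36 k52 3 (.s k32 k44 1 (.d k48 k16 k24 3 5)))))) .n)))

def s1_170_106 : T TT 256 :=
  (.f k40 k60 5 (.f k150 k215 8 (.q k4 [(.s k36 k52 3 (.s k32 k44 1 (.s k48 k16 3 (.d k12 k8 k24 1
  5)))), (.s k52 k36 3 (.s k101 k199 12 (.s k117 k69 3 (.d k247 k182 k166 8 12)))), (.s k12 k8 1 (.s
  k166 k247 12 (.s k89 k243 14 (.s k28 k211 10 (.s k16 k24 1 (.s k93 k81 1 (.d k223 k158 k154 8
  10)))))))] (.c k42 (.q k234 [(.s k36 k52 3 (.s k32 k44 1 (.s k48 k16 3 (.d k12 k8 k24 1 5)))), (.s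
  k52 k36 3 (.s k101 k199 12 (.s k117 k69 3 (.d k247 k182 k166 8 12)))), (.s k12 k8 1 (.s k166 k247
  12 (.s k89 k243 14 (.s k28 k211 10 (.s k16 k24 1 (.s k93 k81 1 (.d k223 k158 k154 8 10)))))))] .n)
  (.c k234 (.q k42 [(.s k36 k52 3 (.s k32 k44 1 (.s k48 k16 3 (.d k12 k8 k24 1 5)))), (.s k52 k36 3
  (.s k101 k199 12 (.s k117 k69 3 (.d k247 k182 k166 8 12)))), (.s k12 k8 1 (.s k21 k63 6 (.s k38
  k55 4 (.s k34 k46 1 (.d k51 k17 k25 4 6)))))] .n) .n)))))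

def s1_170_107 : T TT 256 :=
  (.q k4 [(.s k36 k52 3 (.s k40 k60 5 (.s k32 k44 1 (.s k48 k16 3 (.d k12 k8 k24 1 5))))), (.s k52
  k36 3 (.s k150 k215 8 (.s k101 k199 12 (.s k117 k69 3 (.d k247 k182 k166 8 12))))), (.s k12 k8 1
  (.s k60 k40 5 (.s k44 k28 3 (.s k150 k215 8 (.s k105 k195 14 (.d k166 k227 k247 10 12))))))] .n)

def s1_170_108 : T TT 256 :=
  (.q k4 [(.s k12 k8 1 (.s k36 k52 3 (.s k24 k48 5 (.s k28 k16 1 (.d k60 k44 k40 3 5))))), (.s k52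
  k36 3 (.s k150 k215 8 (.s k101 k199 12 (.s k117 k69 3 (.d k247 k182 k166 8 12))))), (.s k12 k8 1
  (.s k60 k40 5 (.s k44 k28 3 (.s k150 k215 8 (.s k105 k195 14 (.d k166 k227 k247 10 12))))))] .n)

def s1_170_109 : T TT 256 :=
  (.q k4 [(.s k12 k8 1 (.s k36 k52 3 (.s k24 k48 5 (.s k28 k16 1 (.d k60 k44 k40 3 5))))), (.s k52
  k36 3 (.s k150 k215 8 (.s k101 k199 12 (.s k117 k69 3 (.d k247 k182 k166 8 12))))), (.s k12 k8 1
  (.s k60 k40 5 (.s k44 k28 3 (.s k150 k215 8 (.s k105 k195 14 (.d k166 k227 k247 10 12))))))] .n)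

def s1_170_110 : T TT 256 :=
  (.q k4 [(.s k36 k52 3 (.s k40 k60 5 (.s k32 k44 1 (.s k48 k16 3 (.d k12 k8 k24 1 5))))), (.s k52
  k36 3 (.s k150 k215 8 (.s k101 k199 12 (.s k117 k69 3 (.d k247 k182 k166 8 12))))), (.s k12 k8 1
  (.s k60 k40 5 (.s k44 k28 3 (.s k150 k215 8 (.s k105 k195 14 (.d k166 k227 k247 10 12))))))] .n)

def s1_170_111 : T TT 256 :=
  (.q k4 [(.s k36 k52 3 (.s k40 k60 5 (.s k32 k44 1 (.s k48 k16 3 (.d k12 k8 k24 1 5))))), (.s k52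
  k36 3 (.s k150 k215 8 (.s k101 k199 12 (.s k117 k69 3 (.d k247 k182 k166 8 12))))), (.s k12 k8 1
  (.s k60 k40 5 (.s k44 k28 3 (.s k150 k215 8 (.s k105 k195 14 (.d k166 k227 k247 10 12))))))] .n)

def s1_170_112 : T TT 256 :=
  (.q k4 [(.s k36 k52 3 (.s k40 k60 5 (.s k32 k44 1 (.s k48 k16 3 (.d k12 k8 k24 1 5))))), (.s k52
  k36 3 (.s k150 k215 8 (.s k101 k199 12 (.s k117 k69 3 (.d k247 k182 k166 8 12))))), (.s k12 k8 1
  (.s k60 k40 5 (.s k44 k28 3 (.s k150 k215 8 (.s k105 k195 14 (.d k166 k227 k247 10 12))))))] .n)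

def s1_170_113 : T TT 256 :=
  (.q k4 [(.s k36 k52 3 (.s k40 k60 5 (.s k32 k44 1 (.s k48 k16 3 (.d k12 k8 k24 1 5))))), (.s k52
  k36 3 (.s k150 k215 8 (.s k101 k199 12 (.s k117 k69 3 (.d k247 k182 k166 8 12))))), (.s k12 k8 1
  (.s k60 k40 5 (.s k44 k28 3 (.s k150 k215 8 (.s k105 k195 14 (.d k166 k227 k247 10 12))))))] .n)

def s1_170_114 : T TT 256 :=
  (.q k4 [(.s k36 k52 3 (.s k40 k60 5 (.s k32 k44 1 (.s k48 k16 3 (.d k12 k8 k24 1 5))))), (.s k52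
  k36 3 (.s k150 k215 8 (.s k101 k199 12 (.s k117 k69 3 (.d k247 k182 k166 8 12))))), (.s k12 k8 1
  (.s k60 k40 5 (.s k44 k28 3 (.s k150 k215 8 (.s k105 k195 14 (.d k166 k227 k247 10 12))))))] .n)

def s1_170_115 : T TT 256 :=
  (.q k4 [(.s k36 k52 3 (.s k40 k60 5 (.s k32 k44 1 (.s k48 k16 3 (.d k12 k8 k24 1 5))))), (.s k52
  k36 3 (.s k150 k215 8 (.s k101 k199 12 (.s k117 k69 3 (.d k247 k182 k166 8 12))))), (.s k12 k8 1
  (.s k60 k40 5 (.s k44 k28 3 (.s k150 k215 8 (.s k105 k195 14 (.d k166 k227 k247 10 12))))))] .n)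

def s1_170_116 : T TT 256 :=
  (.q k4 [(.s k52 k36 3 (.s k150 k215 8 (.s k101 k199 12 (.s k117 k69 3 (.d k247 k182 k166 8
  12))))), (.s k12 k8 1 (.s k36 k52 3 (.s k24 k48 5 (.s k28 k16 1 (.d k60 k44 k40 3 5))))), (.s k12
  k8 1 (.s k60 k40 5 (.s k44 k28 3 (.s k150 k215 8 (.s k105 k195 14 (.d k166 k227 k247 10 12))))))]
  .n)

def s1_170_117 : T TT 256 :=
  (.q k4 [(.s k52 k36 3 (.s k150 k215 8 (.s k166 k247 12 (.s k134 k182 3 (.d k199 k69 k101 8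
  12))))), (.s k12 k8 1 (.s k60 k40 5 (.s k28 k44 3 (.s k24 k16 1 (.d k36 k52 k48 3 5))))), (.s k12
  k8 1 (.s k60 k40 5 (.s k44 k28 3 (.s k150 k215 8 (.s k105 k195 14 (.d k166 k227 k247 10 12))))))]
  .n)

def s1_170_118 : T TT 256 :=
  (.q k4 [(.s k36 k52 3 (.s k40 k60 5 (.s k32 k44 1 (.s k48 k16 3 (.d k12 k8 k24 1 5))))), (.s k52
  k36 3 (.s k150 k215 8 (.s k101 k199 12 (.s k117 k69 3 (.d k247 k182 k166 8 12))))), (.s k12 k8 1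
  (.s k60 k40 5 (.s k44 k28 3 (.s k150 k215 8 (.s k105 k195 14 (.d k166 k227 k247 10 12))))))] .n)

def s1_170_119 : T TT 256 :=
  (.q k4 [(.s k36 k52 3 (.s k40 k60 5 (.s k32 k44 1 (.s k48 k16 3 (.d k12 k8 k24 1 5))))), (.s k52
  k36 3 (.s k150 k215 8 (.s k101 k199 12 (.s k117 k69 3 (.d k247 k182 k166 8 12))))), (.s k12 k8 1
  (.s k60 k40 5 (.s k44 k28 3 (.s k150 k215 8 (.s k105 k195 14 (.d k166 k227 k247 10 12))))))] .n)

def s1_170_120 : T TT 256 :=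
  (.q k4 [(.s k12 k8 1 (.s k36 k52 3 (.s k24 k48 5 (.s k28 k16 1 (.d k60 k44 k40 3 5))))), (.s k52
  k36 3 (.s k150 k215 8 (.s k101 k199 12 (.s k117 k69 3 (.d k247 k182 k166 8 12))))), (.s k12 k8 1
  (.s k60 k40 5 (.s k44 k28 3 (.s k150 k215 8 (.s k105 k195 14 (.d k166 k227 k247 10 12))))))] .n)

def s1_170_121 : T TT 256 :=
  (.q k4 [(.s k12 k8 1 (.s k36 k52 3 (.s k24 k48 5 (.s k28 k16 1 (.d k60 k44 k40 3 5))))), (.s k52
  k36 3 (.s k150 k215 8 (.s k101 k199 12 (.s k117 k69 3 (.d k247 k182 k166 8 12))))), (.s k12 k8 1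
  (.s k60 k40 5 (.s k44 k28 3 (.s k150 k215 8 (.s k105 k195 14 (.d k166 k227 k247 10 12))))))] .n)

def s1_170_122 : T TT 256 :=
  (.q k4 [(.s k36 k52 3 (.s k40 k60 5 (.s k32 k44 1 (.s k48 k16 3 (.d k12 k8 k24 1 5))))), (.s k52
  k36 3 (.s k150 k215 8 (.s k101 k199 12 (.s k117 k69 3 (.d k247 k182 k166 8 12))))), (.s k12 k8 1
  (.s k60 k40 5 (.s k44 k28 3 (.s k150 k215 8 (.s k105 k195 14 (.d k166 k227 k247 10 12))))))] .n)

def s1_170_123 : T TT 256 :=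
  (.q k4 [(.s k36 k52 3 (.s k40 k60 5 (.s k32 k44 1 (.s k48 k16 3 (.d k12 k8 k24 1 5))))), (.s k52
  k36 3 (.s k150 k215 8 (.s k101 k199 12 (.s k117 k69 3 (.d k247 k182 k166 8 12))))), (.s k12 k8 1
  (.s k60 k40 5 (.s k44 k28 3 (.s k150 k215 8 (.s k105 k195 14 (.d k166 k227 k247 10 12))))))] .n)

def s1_170_124 : T TT 256 :=
  (.q k4 [(.s k12 k8 1 (.s k36 k52 3 (.s k24 k48 5 (.s k28 k16 1 (.d k60 k44 k40 3 5))))), (.s k52
  k36 3 (.s k150 k215 8 (.s k101 k199 12 (.s k117 k69 3 (.d k247 k182 k166 8 12))))), (.s k12 k8 1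
  (.s k60 k40 5 (.s k44 k28 3 (.s k150 k215 8 (.s k105 k195 14 (.d k166 k227 k247 10 12))))))] .n)

def s1_170_125 : T TT 256 :=
  (.q k4 [(.s k12 k8 1 (.s k36 k52 3 (.s k24 k48 5 (.s k28 k16 1 (.d k60 k44 k40 3 5))))), (.s k52
  k36 3 (.s k150 k215 8 (.s k101 k199 12 (.s k117 k69 3 (.d k247 k182 k166 8 12))))), (.s k12 k8 1
  (.s k60 k40 5 (.s k44 k28 3 (.s k150 k215 8 (.s k105 k195 14 (.d k166 k227 k247 10 12))))))] .n)

def s1_170_126 : T TT 256 :=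
  (.q k4 [(.s k36 k52 3 (.s k40 k60 5 (.s k32 k44 1 (.s k48 k16 3 (.d k12 k8 k24 1 5))))), (.s k52
  k36 3 (.s k150 k215 8 (.s k101 k199 12 (.s k117 k69 3 (.d k247 k182 k166 8 12))))), (.s k12 k8 1
  (.s k60 k40 5 (.s k44 k28 3 (.s k150 k215 8 (.s k105 k195 14 (.d k166 k227 k247 10 12))))))] .n)

def s1_170_127 : T TT 256 :=
  (.q k4 [(.s k36 k52 3 (.s k40 k60 5 (.s k32 k44 1 (.s k48 k16 3 (.d k12 k8 k24 1 5))))), (.s k52
  k36 3 (.s k150 k215 8 (.s k101 k199 12 (.s k117 k69 3 (.d k247 k182 k166 8 12))))), (.s k12 k8 1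
  (.s k60 k40 5 (.s k44 k28 3 (.s k150 k215 8 (.s k105 k195 14 (.d k166 k227 k247 10 12))))))] .n)

def s1_170_128 : T TT 256 :=
  (.q k149 [(.s k21 k213 7 (.s k23 k22 0 (.s k86 k212 8 (.s k87 k84 0 (.d k215 k151 k150 7 8))))),
  (.s k60 k40 5 (.s k150 k215 8 (.s k105 k195 14 (.s k61 k193 13 (.s k63 k62 0 (.s k148 k151 0 (.d
  k192 k104 k106 13 14))))))), (.s k21 k213 7 (.s k60 k40 5 (.s k63 k42 6 (.s k61 k62 0 (.s k105
  k193 13 (.d k150 k215 k195 8 14))))))] (.c k150 (.l (.s k21 k213 7 (.s k23 k22 0 (.s k63 k42 6 (.s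
  k3 k43 5 (.s k86 k212 8 (.s k84 k87 0 (.d k252 k168 k169 13 14)))))))) (.c k215 (.l (.s k21 k213 7
  (.s k23 k22 0 (.s k60 k40 5 (.s k63 k42 6 (.s k212 k86 8 (.s k148 k84 7 (.d k192 k106 k104 14
  13)))))))) .n)))

def s1_170_129 : T TT 256 :=
  (.f k40 k60 5 (.f k150 k215 8 (.q k4 [(.s k36 k52 3 (.s k32 k44 1 (.s k48 k16 3 (.d k12 k8 k24 1
  5)))), (.s k52 k36 3 (.s k101 k199 12 (.s k117 k69 3 (.d k247 k182 k166 8 12)))), (.s k12 k8 1 (.s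
  k166 k247 12 (.s k89 k243 14 (.s k28 k211 10 (.s k16 k24 1 (.s k93 k81 1 (.d k223 k158 k154 8
  10)))))))] (.c k65 (.q k193 [(.s k36 k52 3 (.s k32 k44 1 (.s k48 k16 3 (.d k12 k8 k24 1 5)))), (.s
  k52 k36 3 (.s k101 k199 12 (.s k117 k69 3 (.d k247 k182 k166 8 12)))), (.s k12 k8 1 (.s k166 k247
  12 (.s k89 k243 14 (.s k28 k211 10 (.s k16 k24 1 (.s k93 k81 1 (.d k223 k158 k154 8 10)))))))] .n)
  (.c k193 (.q k65 [(.s k36 k52 3 (.s k32 k44 1 (.s k48 k16 3 (.d k12 k8 k24 1 5)))), (.s k12 k8 1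
  (.s k166 k247 12 (.s k195 k130 8 (.d k134 k182 k73 3 10)))), (.s k36 k52 3 (.s k44 k32 1 (.s k105
  k125 5 (.d k166 k227 k247 10 12))))] .n) .n)))))

def s1_170_130 : T TT 256 :=
  (.f k40 k60 5 (.f k150 k215 8 (.q k4 [(.s k36 k52 3 (.s k32 k44 1 (.s k48 k16 3 (.d k12 k8 k24 1
  5)))), (.s k52 k36 3 (.s k101 k199 12 (.s k117 k69 3 (.d k247 k182 k166 8 12)))), (.s k12 k8 1 (.s
  k166 k247 12 (.s k89 k243 14 (.s k28 k211 10 (.s k16 k24 1 (.s k93 k81 1 (.d k223 k158 k154 8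
  10)))))))] .n)))

def s1_170_131 : T TT 256 :=
  (.q k4 [(.s k36 k52 3 (.s k40 k60 5 (.s k32 k44 1 (.s k48 k16 3 (.d k12 k8 k24 1 5))))), (.s k52
  k36 3 (.s k150 k215 8 (.s k101 k199 12 (.s k117 k69 3 (.d k247 k182 k166 8 12))))), (.s k12 k8 1
  (.s k60 k40 5 (.s k44 k28 3 (.s k150 k215 8 (.s k105 k195 14 (.d k166 k227 k247 10 12))))))] .n)

def s1_170_132 : T TT 256 :=
  (.q k4 [(.s k36 k52 3 (.s k40 k60 5 (.s k32 k44 1 (.s k48 k16 3 (.d k12 k8 k24 1 5))))), (.s k52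
  k36 3 (.s k150 k215 8 (.s k101 k199 12 (.s k117 k69 3 (.d k247 k182 k166 8 12))))), (.s k12 k8 1
  (.s k60 k40 5 (.s k44 k28 3 (.s k150 k215 8 (.s k105 k195 14 (.d k166 k227 k247 10 12))))))] .n)

def s1_170_133 : T TT 256 :=
  (.q k4 [(.s k36 k52 3 (.s k40 k60 5 (.s k32 k44 1 (.s k48 k16 3 (.d k12 k8 k24 1 5))))), (.s k52
  k36 3 (.s k150 k215 8 (.s k101 k199 12 (.s k117 k69 3 (.d k247 k182 k166 8 12))))), (.s k12 k8 1
  (.s k60 k40 5 (.s k44 k28 3 (.s k150 k215 8 (.s k105 k195 14 (.d k166 k227 k247 10 12))))))] .n)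

def s1_170_134 : T TT 256 :=
  (.q k4 [(.s k36 k52 3 (.s k40 k60 5 (.s k32 k44 1 (.s k48 k16 3 (.d k12 k8 k24 1 5))))), (.s k52
  k36 3 (.s k150 k215 8 (.s k101 k199 12 (.s k117 k69 3 (.d k247 k182 k166 8 12))))), (.s k12 k8 1
  (.s k60 k40 5 (.s k44 k28 3 (.s k150 k215 8 (.s k105 k195 14 (.d k166 k227 k247 10 12))))))] .n)

def s1_170_135 : T TT 256 :=
  (.q k4 [(.s k36 k52 3 (.s k40 k60 5 (.s k32 k44 1 (.s k48 k16 3 (.d k12 k8 k24 1 5))))), (.s k52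
  k36 3 (.s k150 k215 8 (.s k101 k199 12 (.s k117 k69 3 (.d k247 k182 k166 8 12))))), (.s k12 k8 1
  (.s k60 k40 5 (.s k44 k28 3 (.s k150 k215 8 (.s k105 k195 14 (.d k166 k227 k247 10 12))))))] .n)

def s1_170_136 : T TT 256 :=
  (.f k150 k215 8 (.q k153 [(.s k17 k221 9 (.s k51 k34 4 (.s k60 k40 5 (.s k54 k57 2 (.d k102 k198
  k204 11 14))))), (.s k17 k221 9 (.s k51 k34 4 (.s k147 k156 2 (.s k195 k99 11 (.s k65 k130 8 (.d
  k105 k125 k60 5 14)))))), (.s k60 k40 5 (.s k105 k195 14 (.s k57 k201 11 (.s k51 k54 2 (.s k156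
  k147 2 (.d k204 k108 k102 11 14))))))] (.c k51 (.l (.s k60 k40 5 (.s k105 k195 14 (.s k125 k65 5
  (.s k221 k17 9 (.s k255 k190 8 (.s k204 k238 4 (.d k156 k147 k108 2 11)))))))) (.c k60 (.q k12
  [(.s k4 k8 1 (.s k52 k36 3 (.s k101 k199 12 (.s k117 k69 3 (.d k247 k182 k166 8 12))))), (.s k17
  k221 9 (.s k51 k34 4 (.s k25 k38 6 (.s k89 k217 7 (.s k81 k93 1 (.d k243 k162 k166 12 14)))))),
  (.s k8 k4 1 (.s k17 k221 9 (.s k51 k34 4 (.s k25 k38 6 (.s k21 k29 1 (.d k42 k59 k63 4 6))))))]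
  .n) (.c k102 (.l (.s k17 k221 9 (.s k60 k40 5 (.s k105 k195 14 (.s k57 k201 11 (.d k51 k54 k34 2
  4)))))) (.c k105 (.l (.s k17 k221 9 (.s k51 k34 4 (.s k102 k204 14 (.s k54 k198 11 (.d k60 k57 k40
  2 5)))))) .n))))))

def s1_170_137 : T TT 256 :=
  (.f k150 k215 8 (.q k101 [(.s k52 k199 12 (.s k4 k36 3 (.s k247 k166 12 (.d k117 k69 k182 3 8)))),
  (.s k60 k40 5 (.s k69 k117 3 (.s k105 k195 14 (.s k109 k97 1 (.d k207 k138 k158 10 12)))))] (.c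
  k69 (.q k205 [(.s k60 k40 5 (.s k105 k195 14 (.s k109 k97 1 (.s k207 k158 12 (.s k48 k154 14 (.d
  k52 k56 k199 1 12)))))), (.s k153 k49 13 (.s k17 k221 9 (.s k51 k34 4 (.s k147 k156 2 (.s k195 k99
  11 (.s k65 k130 8 (.d k105 k125 k60 5 14)))))))] (.c k60 (.q k4 [(.d k52 k36 k199 3 12), (.s k12
  k8 1 (.s k153 k49 13 (.s k17 k221 9 (.s k51 k34 4 (.s k25 k38 6 (.s k89 k217 7 (.d k166 k247 k243
  12 14)))))))] .n) (.c k105 (.l (.s k153 k49 13 (.s k17 k221 9 (.s k51 k34 4 (.s k102 k204 14 (.s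
  k54 k198 11 (.d k60 k57 k40 2 5))))))) (.c k195 (.l (.s k52 k199 12 (.s k60 k40 5 (.s k48 k56 1
  (.s k16 k32 3 (.d k154 k207 k223 14 10)))))) .n)))) (.c k117 (.l (.s k52 k199 12 (.s k60 k40 5 (.s
  k48 k56 1 (.s k16 k32 3 (.d k154 k223 k207 10 14)))))) (.c k205 (.l (.s k69 k117 3 (.s k52 k199 12
  (.s k60 k40 5 (.s k48 k56 1 (.d k207 k138 k154 10 14)))))) .n)))))

def s1_170_138 : T TT 256 :=
  (.q k154 [(.s k16 k223 10 (.s k28 k24 1 (.s k150 k215 8 (.s k146 k158 1 (.d k211 k81 k89 8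
  10))))), (.s k60 k40 5 (.s k150 k215 8 (.s k105 k195 14 (.s k56 k203 12 (.s k48 k52 1 (.s k158
  k146 1 (.d k207 k109 k101 12 14))))))), (.s k16 k223 10 (.s k48 k32 3 (.s k60 k40 5 (.s k52 k56 1
  (.s k36 k4 3 (.d k24 k28 k12 1 5))))))] .n)

def s1_170_139 : T TT 256 :=
  (.q k4 [(.s k36 k52 3 (.s k40 k60 5 (.s k32 k44 1 (.s k48 k16 3 (.d k12 k8 k24 1 5))))), (.s k52
  k36 3 (.s k150 k215 8 (.s k101 k199 12 (.s k117 k69 3 (.d k247 k182 k166 8 12))))), (.s k12 k8 1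
  (.s k60 k40 5 (.s k44 k28 3 (.s k150 k215 8 (.s k105 k195 14 (.d k166 k227 k247 10 12))))))] .n)

def s1_170_140 : T TT 256 :=
  (.q k4 [(.s k36 k52 3 (.s k40 k60 5 (.s k32 k44 1 (.s k48 k16 3 (.d k12 k8 k24 1 5))))), (.s k52
  k36 3 (.s k150 k215 8 (.s k101 k199 12 (.s k117 k69 3 (.d k247 k182 k166 8 12))))), (.s k12 k8 1
  (.s k60 k40 5 (.s k44 k28 3 (.s k150 k215 8 (.s k105 k195 14 (.d k166 k227 k247 10 12))))))] .n)

def s1_170_141 : T TT 256 :=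
  (.q k4 [(.s k36 k52 3 (.s k40 k60 5 (.s k32 k44 1 (.s k48 k16 3 (.d k12 k8 k24 1 5))))), (.s k52
  k36 3 (.s k150 k215 8 (.s k101 k199 12 (.s k117 k69 3 (.d k247 k182 k166 8 12))))), (.s k12 k8 1
  (.s k60 k40 5 (.s k44 k28 3 (.s k150 k215 8 (.s k105 k195 14 (.d k166 k227 k247 10 12))))))] .n)

def s1_170_142 : T TT 256 :=
  (.q k4 [(.s k36 k52 3 (.s k40 k60 5 (.s k32 k44 1 (.s k48 k16 3 (.d k12 k8 k24 1 5))))), (.s k52
  k36 3 (.s k150 k215 8 (.s k101 k199 12 (.s k117 k69 3 (.d k247 k182 k166 8 12))))), (.s k12 k8 1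
  (.s k60 k40 5 (.s k44 k28 3 (.s k150 k215 8 (.s k105 k195 14 (.d k166 k227 k247 10 12))))))] .n)

def s1_170_143 : T TT 256 :=
  (.q k4 [(.s k36 k52 3 (.s k40 k60 5 (.s k32 k44 1 (.s k48 k16 3 (.d k12 k8 k24 1 5))))), (.s k52
  k36 3 (.s k150 k215 8 (.s k101 k199 12 (.s k117 k69 3 (.d k247 k182 k166 8 12))))), (.s k12 k8 1
  (.s k60 k40 5 (.s k44 k28 3 (.s k150 k215 8 (.s k105 k195 14 (.d k166 k227 k247 10 12))))))] .n)

def s1_170_144 : T TT 256 :=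
  (.q k4 [(.s k52 k36 3 (.s k150 k215 8 (.s k101 k199 12 (.s k117 k69 3 (.d k247 k182 k166 8
  12))))), (.s k12 k8 1 (.s k36 k52 3 (.s k24 k48 5 (.s k28 k16 1 (.d k60 k44 k40 3 5))))), (.s k12
  k8 1 (.s k60 k40 5 (.s k44 k28 3 (.s k150 k215 8 (.s k105 k195 14 (.d k166 k227 k247 10 12))))))]
  .n)

def s1_170_145 : T TT 256 :=
  (.q k4 [(.s k36 k52 3 (.s k40 k60 5 (.s k32 k44 1 (.s k48 k16 3 (.d k12 k8 k24 1 5))))), (.s k52
  k36 3 (.s k150 k215 8 (.s k101 k199 12 (.s k117 k69 3 (.d k247 k182 k166 8 12))))), (.s k12 k8 1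
  (.s k60 k40 5 (.s k44 k28 3 (.s k150 k215 8 (.s k105 k195 14 (.d k166 k227 k247 10 12))))))] .n)

def s1_170_146 : T TT 256 :=
  (.q k4 [(.s k52 k36 3 (.s k150 k215 8 (.s k101 k199 12 (.s k117 k69 3 (.d k247 k182 k166 8
  12))))), (.s k12 k8 1 (.s k36 k52 3 (.s k24 k48 5 (.s k28 k16 1 (.d k60 k44 k40 3 5))))), (.s k12
  k8 1 (.s k60 k40 5 (.s k44 k28 3 (.s k150 k215 8 (.s k105 k195 14 (.d k166 k227 k247 10 12))))))]
  .n)

def s1_170_147 : T TT 256 :=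
  (.q k4 [(.s k36 k52 3 (.s k40 k60 5 (.s k32 k44 1 (.s k48 k16 3 (.d k12 k8 k24 1 5))))), (.s k52
  k36 3 (.s k150 k215 8 (.s k101 k199 12 (.s k117 k69 3 (.d k247 k182 k166 8 12))))), (.s k12 k8 1
  (.s k60 k40 5 (.s k44 k28 3 (.s k150 k215 8 (.s k105 k195 14 (.d k166 k227 k247 10 12))))))] .n)

def s1_170_148 : T TT 256 :=
  (.q k4 [(.s k52 k36 3 (.s k150 k215 8 (.s k101 k199 12 (.s k117 k69 3 (.d k247 k182 k166 8
  12))))), (.s k12 k8 1 (.s k36 k52 3 (.s k24 k48 5 (.s k28 k16 1 (.d k60 k44 k40 3 5))))), (.s k12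
  k8 1 (.s k60 k40 5 (.s k44 k28 3 (.s k150 k215 8 (.s k105 k195 14 (.d k166 k227 k247 10 12))))))]
  .n)

def s1_170_149 : T TT 256 :=
  (.f k40 k60 5 (.f k150 k215 8 (.q k16 [(.s k24 k28 1 (.s k8 k56 3 (.s k12 k4 1 (.d k48 k32 k36 3
  5)))), (.s k28 k24 1 (.s k89 k211 10 (.s k93 k81 1 (.d k223 k158 k154 8 10)))), (.s k48 k32 3 (.s
  k154 k223 10 (.s k101 k207 14 (.s k52 k199 12 (.s k4 k36 3 (.s k117 k69 3 (.d k247 k182 k166 8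
  12)))))))] (.c k128 (.q k191 [(.s k24 k28 1 (.s k8 k56 3 (.s k12 k4 1 (.d k48 k32 k36 3 5)))), (.s
  k28 k24 1 (.s k89 k211 10 (.s k93 k81 1 (.d k223 k158 k154 8 10)))), (.s k48 k32 3 (.s k154 k223
  10 (.s k101 k207 14 (.s k52 k199 12 (.s k4 k36 3 (.s k117 k69 3 (.d k247 k182 k166 8 12)))))))]
  .n) (.c k191 (.q k128 [(.s k24 k28 1 (.s k8 k56 3 (.s k12 k4 1 (.d k48 k32 k36 3 5)))), (.s k28
  k24 1 (.s k89 k211 10 (.s k93 k81 1 (.d k223 k158 k154 8 10)))), (.s k48 k32 3 (.s k192 k64 7 (.s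
  k144 k96 11 (.s k80 k208 7 (.d k160 k176 k240 3 11)))))] .n) .n)))))

def s1_170_150 : T TT 256 :=
  (.q k12 [(.s k8 k4 1 (.s k40 k60 5 (.s k24 k56 3 (.s k48 k36 5 (.d k16 k28 k32 1 3))))), (.s k4 k8
  1 (.s k36 k52 3 (.s k48 k24 5 (.s k166 k247 12 (.s k101 k231 8 (.s k207 k154 14 (.d k69 k117 k138
  3 10)))))))] (.c k4 (.q k252 [(.s k60 k40 5 (.s k84 k168 13 (.s k148 k212 7 (.s k104 k192 13 (.d
  k124 k64 k188 5 7))))), (.s k84 k168 13 (.s k86 k87 0 (.s k92 k172 11 (.s k89 k83 2 (.s k81 k93 1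
  (.d k243 k162 k166 12 14)))))), (.s k60 k40 5 (.s k28 k44 3 (.s k92 k172 11 (.s k124 k188 7 (.s
  k108 k76 3 (.d k156 k220 k204 7 11))))))] (.c k130 (.q k190 [(.s k60 k40 5 (.s k84 k168 13 (.s
  k148 k212 7 (.s k104 k192 13 (.d k124 k64 k188 5 7))))), (.s k84 k168 13 (.s k86 k87 0 (.s k92
  k172 11 (.s k89 k83 2 (.s k81 k93 1 (.d k243 k162 k166 12 14)))))), (.s k60 k40 5 (.s k28 k44 3
  (.s k16 k24 1 (.s k223 k154 10 (.s k255 k125 8 (.d k93 k158 k174 8 12))))))] .n) (.c k169 (.l (.s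
  k60 k40 5 (.s k28 k44 3 (.s k16 k24 1 (.s k92 k172 11 (.s k220 k156 7 (.d k84 k152 k168 9
  13))))))) (.c k190 (.q k130 [(.s k60 k40 5 (.s k84 k168 13 (.s k148 k212 7 (.s k104 k192 13 (.d
  k124 k64 k188 5 7))))), (.s k84 k168 13 (.s k86 k87 0 (.s k92 k172 11 (.s k89 k83 2 (.s k81 k93 1
  (.d k243 k162 k166 12 14)))))), (.s k60 k40 5 (.s k28 k44 3 (.s k92 k172 11 (.s k124 k188 7 (.s
  k108 k76 3 (.d k156 k220 k204 7 11))))))] (.c k169 (.l (.s k60 k40 5 (.s k28 k44 3 (.s k16 k24 1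
  (.s k92 k172 11 (.s k220 k156 7 (.d k84 k152 k168 9 13))))))) .n)) .n)))) (.c k8 (.q k89 [(.s k81
  k93 1 (.d k243 k162 k166 12 14)), (.s k40 k60 5 (.s k166 k243 14 (.s k4 k247 12 (.s k36 k52 3 (.s
  k32 k44 1 (.d k48 k16 k24 3 5)))))), (.s k60 k40 5 (.s k28 k44 3 (.s k93 k81 1 (.s k223 k158 8 (.d
  k16 k24 k154 1 10)))))] (.c k130 (.q k190 [(.s k81 k93 1 (.d k243 k162 k166 12 14)), (.s k60 k40 5
  (.s k44 k28 3 (.s k125 k255 8 (.s k105 k65 5 (.d k166 k227 k243 10 14))))), (.s k60 k40 5 (.s k93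
  k81 1 (.d k255 k125 k174 8 12)))] .n) (.c k190 (.q k130 [(.s k81 k93 1 (.d k243 k162 k166 12 14)),
  (.s k60 k40 5 (.s k44 k28 3 (.s k65 k195 8 (.s k105 k125 5 (.d k166 k227 k243 10 14))))), (.s k60
  k40 5 (.s k28 k44 3 (.s k93 k81 1 (.s k223 k158 8 (.d k16 k24 k154 1 10)))))] .n) .n))) (.c k24
  (.f k4 k8 1 (.l (.s k36 k52 3 (.s k166 k247 12 (.s k89 k243 14 (.s k101 k231 8 (.s k77 k113 5 (.s
  k207 k142 8 (.d k69 k117 k138 3 10))))))))) (.c k36 (.f k8 k4 1 (.l (.s k40 k60 5 (.s k24 k56 3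
  (.s k16 k28 1 (.s k154 k223 10 (.s k89 k219 8 (.s k243 k166 14 (.d k81 k93 k162 1 12))))))))) (.c
  k40 (.l (.s k4 k8 1 (.s k36 k52 3 (.s k24 k48 5 (.s k16 k28 1 (.s k154 k223 10 (.s k89 k219 8 (.d
  k166 k247 k243 12 14)))))))) (.c k48 (.f k4 k8 1 (.l (.s k60 k40 5 (.s k28 k44 3 (.s k166 k247 12
  (.s k89 k243 14 (.s k93 k81 1 (.s k223 k158 8 (.d k16 k24 k154 1 10))))))))) (.c k52 (.l (.s k8 k4
  1 (.s k40 k60 5 (.s k24 k56 3 (.s k48 k36 5 (.d k16 k28 k32 1 3)))))) (.c k56 (.l (.s k4 k8 1 (.s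
  k36 k52 3 (.s k24 k48 5 (.s k60 k40 5 (.d k28 k16 k44 1 3)))))) (.c k130 (.q k190 [(.s k8 k4 1 (.s
  k40 k60 5 (.s k24 k56 3 (.s k48 k36 5 (.d k16 k28 k32 1 3))))), (.s k4 k8 1 (.s k166 k247 12 (.s
  k89 k243 14 (.s k93 k81 1 (.s k255 k174 12 (.d k60 k40 k125 5 8)))))), (.s k60 k40 5 (.s k28 k44 3
  (.s k255 k125 8 (.s k93 k174 12 (.s k223 k158 8 (.d k16 k154 k24 10 1))))))] (.c k40 (.l (.s k4 k8
  1 (.s k36 k52 3 (.s k24 k48 5 (.s k16 k28 1 (.s k154 k223 10 (.s k89 k219 8 (.d k166 k247 k243 12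
  14)))))))) (.c k60 (.l (.s k4 k8 1 (.s k36 k52 3 (.s k48 k24 5 (.s k16 k32 3 (.s k154 k223 10 (.s
  k101 k207 14 (.d k166 k231 k247 8 12)))))))) .n))) (.c k190 (.q k130 [(.s k4 k8 1 (.s k36 k52 3
  (.s k24 k48 5 (.s k28 k16 1 (.d k60 k44 k40 3 5))))), (.s k4 k8 1 (.s k195 k65 8 (.s k134 k73 10
  (.s k138 k142 1 (.d k69 k199 k207 8 10))))), (.s k8 k4 1 (.s k40 k60 5 (.s k24 k56 3 (.s k48 k36 5
  (.d k16 k28 k32 1 3)))))] (.c k4 (.q k3 [(.s k9 k6 2 (.s k60 k40 5 (.s k41 k22 6 (.s k25 k57 3 (.s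
  k38 k51 6 (.d k44 k35 k28 2 3)))))), (.s k6 k9 2 (.s k195 k65 8 (.s k131 k67 7 (.s k134 k73 10 (.s
  k137 k140 2 (.d k70 k198 k204 7 10)))))), (.s k60 k40 5 (.s k22 k41 6 (.s k21 k23 0 (.s k28 k44 3
  (.s k25 k19 2 (.s k17 k29 1 (.d k51 k38 k34 6 4)))))))] .n) (.c k8 (.q k89 [(.s k81 k93 1 (.d k243
  k162 k166 12 14)), (.s k60 k40 5 (.s k44 k28 3 (.s k65 k195 8 (.s k105 k125 5 (.d k166 k227 k243
  10 14))))), (.s k60 k40 5 (.s k28 k44 3 (.s k93 k81 1 (.s k223 k158 8 (.d k16 k24 k154 1 10)))))]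
  .n) .n))) .n)))))))))))

def s1_170_151 : T TT 256 :=
  (.q k4 [(.s k36 k52 3 (.s k40 k60 5 (.s k32 k44 1 (.s k48 k16 3 (.d k12 k8 k24 1 5))))), (.s k52
  k36 3 (.s k150 k215 8 (.s k101 k199 12 (.s k117 k69 3 (.d k247 k182 k166 8 12))))), (.s k12 k8 1
  (.s k60 k40 5 (.s k44 k28 3 (.s k150 k215 8 (.s k105 k195 14 (.d k166 k227 k247 10 12))))))] .n)

def s1_170_152 : T TT 256 :=
  (.q k4 [(.s k52 k36 3 (.s k150 k215 8 (.s k101 k199 12 (.s k117 k69 3 (.d k247 k182 k166 8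
  12))))), (.s k12 k8 1 (.s k36 k52 3 (.s k24 k48 5 (.s k28 k16 1 (.d k60 k44 k40 3 5))))), (.s k12
  k8 1 (.s k60 k40 5 (.s k44 k28 3 (.s k150 k215 8 (.s k105 k195 14 (.d k166 k227 k247 10 12))))))]
  .n)

def s1_170_153 : T TT 256 :=
  (.f k40 k60 5 (.f k150 k215 8 (.q k4 [(.s k36 k52 3 (.s k32 k44 1 (.s k48 k16 3 (.d k12 k8 k24 1
  5)))), (.s k52 k36 3 (.s k101 k199 12 (.s k117 k69 3 (.d k247 k182 k166 8 12)))), (.s k12 k8 1 (.s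
  k166 k247 12 (.s k89 k243 14 (.s k28 k211 10 (.s k16 k24 1 (.s k93 k81 1 (.d k223 k158 k154 8
  10)))))))] (.c k136 (.q k187 [(.s k36 k52 3 (.s k32 k44 1 (.s k48 k16 3 (.d k12 k8 k24 1 5)))),
  (.s k52 k36 3 (.s k101 k199 12 (.s k117 k69 3 (.d k247 k182 k166 8 12)))), (.s k12 k8 1 (.s k166
  k247 12 (.s k89 k243 14 (.s k28 k211 10 (.s k16 k24 1 (.s k93 k81 1 (.d k223 k158 k154 8
  10)))))))] .n) (.c k187 (.q k136 [(.s k36 k52 3 (.s k32 k44 1 (.s k48 k16 3 (.d k12 k8 k24 1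
  5)))), (.s k52 k36 3 (.s k101 k199 12 (.s k117 k69 3 (.d k247 k182 k166 8 12)))), (.s k12 k8 1 (.s
  k68 k204 9 (.s k132 k196 7 (.s k128 k140 1 (.d k192 k64 k72 7 9)))))] .n) .n)))))

def s1_170_154 : T TT 256 :=
  (.f k150 k215 8 (.q k106 [(.s k60 k40 5 (.s k62 k194 13 (.s k64 k127 6 (.s k192 k128 7 (.d k63
  k149 k61 14 0))))), (.s k64 k127 6 (.s k192 k128 7 (.s k149 k63 14 (.s k21 k213 7 (.s k23 k22 0
  (.s k148 k151 0 (.d k212 k84 k86 7 8))))))), (.s k60 k40 5 (.s k62 k194 13 (.s k63 k61 0 (.s k21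
  k42 6 (.s k149 k213 7 (.s k151 k148 0 (.d k195 k105 k107 14 13)))))))] (.c k63 (.l (.s k60 k40 5
  (.s k64 k127 6 (.s k105 k195 14 (.s k192 k128 7 (.d k104 k107 k148 0 13)))))) (.c k138 (.q k186
  [(.s k60 k40 5 (.s k62 k194 13 (.s k63 k61 0 (.s k21 k42 6 (.d k149 k213 k192 7 14))))), (.s k64
  k127 6 (.s k192 k128 7 (.s k149 k63 14 (.s k148 k151 0 (.s k84 k212 7 (.d k104 k124 k60 5
  13)))))), (.s k60 k40 5 (.s k64 k127 6 (.s k105 k195 14 (.s k104 k107 0 (.d k192 k128 k148 7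
  13)))))] (.c k60 (.l (.s k64 k127 6 (.s k192 k128 7 (.s k149 k63 14 (.s k21 k213 7 (.s k23 k22 0
  (.s k148 k151 0 (.d k212 k84 k86 7 8)))))))) (.c k63 (.l (.s k60 k40 5 (.s k64 k127 6 (.s k105
  k195 14 (.s k192 k128 7 (.d k104 k107 k148 0 13)))))) (.c k192 (.l (.s k60 k40 5 (.s k62 k194 13
  (.s k63 k61 0 (.s k21 k42 6 (.s k149 k213 7 (.s k151 k148 0 (.d k195 k105 k107 14 13))))))))
  .n)))) (.c k149 (.l (.s k60 k40 5 (.s k64 k127 6 (.s k105 k195 14 (.s k104 k107 0 (.d k192 k128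
  k148 7 13)))))) (.c k186 (.q k138 [(.s k60 k40 5 (.s k62 k194 13 (.s k64 k127 6 (.s k192 k128 7
  (.d k63 k149 k61 14 0))))), (.s k64 k127 6 (.s k69 k207 10 (.s k79 k74 2 (.s k101 k117 3 (.s k96
  k111 2 (.d k112 k80 k90 3 6)))))), (.s k60 k40 5 (.s k62 k194 13 (.s k63 k61 0 (.s k21 k42 6 (.d
  k149 k213 k192 7 14)))))] (.c k63 (.l (.s k60 k40 5 (.s k64 k127 6 (.s k105 k195 14 (.s k192 k128
  7 (.d k104 k107 k148 0 13)))))) .n)) .n))))))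

def s1_170_155 : T TT 256 :=
  (.q k4 [(.s k36 k52 3 (.s k40 k60 5 (.s k32 k44 1 (.s k48 k16 3 (.d k12 k8 k24 1 5))))), (.s k52
  k36 3 (.s k150 k215 8 (.s k101 k199 12 (.s k117 k69 3 (.d k247 k182 k166 8 12))))), (.s k12 k8 1
  (.s k60 k40 5 (.s k44 k28 3 (.s k150 k215 8 (.s k105 k195 14 (.d k166 k227 k247 10 12))))))] .n)

def s1_170_156 : T TT 256 :=
  (.q k4 [(.s k12 k8 1 (.s k36 k52 3 (.s k24 k48 5 (.s k28 k16 1 (.d k60 k44 k40 3 5))))), (.s k52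
  k36 3 (.s k150 k215 8 (.s k101 k199 12 (.s k117 k69 3 (.d k247 k182 k166 8 12))))), (.s k12 k8 1
  (.s k60 k40 5 (.s k44 k28 3 (.s k150 k215 8 (.s k105 k195 14 (.d k166 k227 k247 10 12))))))] .n)

def s1_170_157 : T TT 256 :=
  (.q k4 [(.s k36 k52 3 (.s k40 k60 5 (.s k32 k44 1 (.s k48 k16 3 (.d k12 k8 k24 1 5))))), (.s k52
  k36 3 (.s k150 k215 8 (.s k101 k199 12 (.s k117 k69 3 (.d k247 k182 k166 8 12))))), (.s k12 k8 1
  (.s k60 k40 5 (.s k44 k28 3 (.s k150 k215 8 (.s k105 k195 14 (.d k166 k227 k247 10 12))))))] .n)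

def s1_170_158 : T TT 256 :=
  (.q k4 [(.s k12 k8 1 (.s k36 k52 3 (.s k24 k48 5 (.s k28 k16 1 (.d k60 k44 k40 3 5))))), (.s k52
  k36 3 (.s k150 k215 8 (.s k101 k199 12 (.s k117 k69 3 (.d k247 k182 k166 8 12))))), (.s k12 k8 1
  (.s k60 k40 5 (.s k44 k28 3 (.s k150 k215 8 (.s k105 k195 14 (.d k166 k227 k247 10 12))))))] .n)

def s1_170_159 : T TT 256 :=
  (.q k4 [(.s k36 k52 3 (.s k40 k60 5 (.s k32 k44 1 (.s k48 k16 3 (.d k12 k8 k24 1 5))))), (.s k52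
  k36 3 (.s k150 k215 8 (.s k101 k199 12 (.s k117 k69 3 (.d k247 k182 k166 8 12))))), (.s k12 k8 1
  (.s k60 k40 5 (.s k44 k28 3 (.s k150 k215 8 (.s k105 k195 14 (.d k166 k227 k247 10 12))))))] .n)

def s1_170_160 : T TT 256 :=
  (.f k150 k215 8 (.q k165 [(.s k5 k245 11 (.s k15 k10 2 (.s k60 k40 5 (.s k30 k45 4 (.d k90 k210
  k240 9 14))))), (.s k5 k245 11 (.s k15 k10 2 (.s k135 k180 4 (.s k195 k75 9 (.s k65 k130 8 (.d
  k105 k125 k60 5 14)))))), (.s k60 k40 5 (.s k105 k195 14 (.s k45 k225 9 (.s k15 k30 4 (.s k180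
  k135 4 (.d k240 k120 k90 9 14))))))] (.c k15 (.l (.s k60 k40 5 (.s k105 k195 14 (.s k125 k65 5 (.s
  k245 k5 11 (.s k255 k190 8 (.s k240 k250 2 (.d k180 k135 k120 4 9)))))))) (.c k60 (.q k4 [(.s k52
  k36 3 (.s k101 k199 12 (.s k117 k69 3 (.d k247 k182 k166 8 12)))), (.s k5 k245 11 (.s k7 k6 0 (.s
  k86 k244 12 (.s k87 k84 0 (.d k247 k167 k166 11 12))))), (.s k5 k245 11 (.s k7 k6 0 (.s k52 k36 3
  (.s k22 k37 4 (.d k86 k214 k244 7 12)))))] .n) (.c k90 (.l (.s k5 k245 11 (.s k60 k40 5 (.s k105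
  k195 14 (.s k45 k225 9 (.d k15 k10 k30 2 4)))))) (.c k105 (.l (.s k5 k245 11 (.s k15 k10 2 (.s k90
  k240 14 (.s k30 k210 9 (.d k60 k45 k40 4 5)))))) .n))))))

def s1_170_161 : T TT 256 :=
  (.f k150 k215 8 (.q k243 [(.s k60 k40 5 (.s k105 k195 14 (.s k121 k182 10 (.s k89 k73 3 (.d k81
  k93 k162 1 12))))), (.s k81 k162 12 (.s k89 k93 1 (.s k211 k28 10 (.s k195 k227 3 (.s k65 k130 8
  (.d k105 k125 k60 5 14)))))), (.s k81 k162 12 (.s k89 k93 1 (.s k166 k12 14 (.s k4 k247 12 (.s k52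
  k36 3 (.s k134 k182 3 (.d k199 k69 k101 8 12))))))), (.s k60 k40 5 (.s k105 k195 14 (.s k125 k65 5
  (.s k182 k121 10 (.s k166 k134 3 (.s k247 k4 12 (.d k255 k251 k190 1 8)))))))] (.c k81 (.q k241
  [(.s k60 k40 5 (.s k182 k121 10 (.s k166 k134 3 (.s k4 k247 12 (.d k12 k8 k89 1 14))))), (.s k240
  k242 0 (.s k80 k160 11 (.s k90 k95 2 (.s k165 k15 14 (.s k180 k135 4 (.d k60 k40 k120 5 9)))))),
  (.s k240 k242 0 (.s k80 k160 11 (.s k90 k95 2 (.s k165 k15 14 (.s k89 k13 13 (.s k12 k166 14 (.d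
  k88 k91 k164 0 13)))))))] .n) (.c k241 (.l (.s k81 k162 12 (.s k60 k40 5 (.s k89 k93 1 (.s k28
  k211 10 (.d k12 k166 k44 14 3)))))) .n))))

def s1_170_162 : T TT 256 :=
  (.q k166 [(.s k4 k247 12 (.s k52 k36 3 (.s k150 k215 8 (.s k134 k182 3 (.d k199 k69 k101 8
  12))))), (.s k60 k40 5 (.s k150 k215 8 (.s k105 k195 14 (.s k44 k227 10 (.s k12 k28 3 (.s k182
  k134 3 (.d k243 k121 k89 10 14))))))), (.s k4 k247 12 (.s k12 k8 1 (.s k60 k40 5 (.s k28 k44 3 (.s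
  k24 k16 1 (.d k36 k52 k48 3 5))))))] .n)

def s1_170_163 : T TT 256 :=
  (.q k4 [(.s k36 k52 3 (.s k40 k60 5 (.s k32 k44 1 (.s k48 k16 3 (.d k12 k8 k24 1 5))))), (.s k52
  k36 3 (.s k150 k215 8 (.s k101 k199 12 (.s k117 k69 3 (.d k247 k182 k166 8 12))))), (.s k12 k8 1
  (.s k60 k40 5 (.s k44 k28 3 (.s k150 k215 8 (.s k105 k195 14 (.d k166 k227 k247 10 12))))))] .n)

def s1_170_164 : T TT 256 :=
  (.q k4 [(.s k12 k8 1 (.s k36 k52 3 (.s k24 k48 5 (.s k28 k16 1 (.d k60 k44 k40 3 5))))), (.s k52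
  k36 3 (.s k150 k215 8 (.s k101 k199 12 (.s k117 k69 3 (.d k247 k182 k166 8 12))))), (.s k12 k8 1
  (.s k60 k40 5 (.s k44 k28 3 (.s k150 k215 8 (.s k105 k195 14 (.d k166 k227 k247 10 12))))))] .n)

def s1_170_165 : T TT 256 :=
  (.f k40 k60 5 (.f k150 k215 8 (.q k4 [(.s k36 k52 3 (.s k32 k44 1 (.s k48 k16 3 (.d k12 k8 k24 1
  5)))), (.s k52 k36 3 (.s k101 k199 12 (.s k117 k69 3 (.d k247 k182 k166 8 12)))), (.s k12 k8 1 (.s
  k166 k247 12 (.s k89 k243 14 (.s k28 k211 10 (.s k16 k24 1 (.s k93 k81 1 (.d k223 k158 k154 8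
  10)))))))] (.c k160 (.q k175 [(.s k36 k52 3 (.s k32 k44 1 (.s k48 k16 3 (.d k12 k8 k24 1 5)))),
  (.s k52 k36 3 (.s k101 k199 12 (.s k117 k69 3 (.d k247 k182 k166 8 12)))), (.s k12 k8 1 (.s k166
  k247 12 (.s k89 k243 14 (.s k28 k211 10 (.s k16 k24 1 (.s k93 k81 1 (.d k223 k158 k154 8
  10)))))))] .n) (.c k175 (.q k160 [(.s k36 k52 3 (.s k32 k44 1 (.s k48 k16 3 (.d k12 k8 k24 1
  5)))), (.s k52 k36 3 (.s k101 k199 12 (.s k117 k69 3 (.d k247 k182 k166 8 12)))), (.s k12 k8 1 (.s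
  k240 k80 11 (.s k164 k88 13 (.s k84 k244 11 (.d k168 k172 k252 1 13)))))] .n) .n)))))

def s1_170_166 : T TT 256 :=
  (.f k150 k215 8 (.q k149 [(.s k21 k213 7 (.s k23 k22 0 (.s k148 k151 0 (.d k212 k84 k86 7 8)))),
  (.s k60 k40 5 (.s k105 k195 14 (.s k61 k193 13 (.s k63 k62 0 (.d k21 k42 k213 6 7))))), (.s k60
  k40 5 (.s k148 k151 0 (.s k192 k104 13 (.s k64 k128 7 (.d k106 k127 k63 6 14)))))] (.c k162 (.q
  k174 [(.s k21 k213 7 (.s k23 k22 0 (.s k148 k151 0 (.d k212 k84 k86 7 8)))), (.s k60 k40 5 (.s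
  k105 k195 14 (.s k61 k193 13 (.s k63 k62 0 (.d k21 k42 k213 6 7))))), (.s k60 k40 5 (.s k148 k151
  0 (.s k192 k104 13 (.s k64 k128 7 (.d k106 k127 k63 6 14)))))] .n) (.c k174 (.q k162 [(.s k21 k213
  7 (.s k23 k22 0 (.s k148 k151 0 (.d k212 k84 k86 7 8)))), (.s k60 k40 5 (.s k105 k195 14 (.s k61
  k193 13 (.s k63 k62 0 (.d k21 k42 k213 6 7))))), (.s k60 k40 5 (.s k148 k151 0 (.s k192 k104 13
  (.s k64 k128 7 (.d k106 k127 k63 6 14)))))] .n) .n))))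

def s1_170_167 : T TT 256 :=
  (.q k4 [(.s k36 k52 3 (.s k40 k60 5 (.s k32 k44 1 (.s k48 k16 3 (.d k12 k8 k24 1 5))))), (.s k52
  k36 3 (.s k150 k215 8 (.s k101 k199 12 (.s k117 k69 3 (.d k247 k182 k166 8 12))))), (.s k12 k8 1
  (.s k60 k40 5 (.s k44 k28 3 (.s k150 k215 8 (.s k105 k195 14 (.d k166 k227 k247 10 12))))))] .n)

def s1_170_168 : T TT 256 :=
  (.f k150 k215 8 (.f k40 k60 5 (.q k4 [(.s k36 k52 3 (.s k32 k44 1 (.s k48 k16 3 (.d k12 k8 k24 1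
  5)))), (.s k52 k36 3 (.s k101 k199 12 (.s k117 k69 3 (.d k247 k182 k166 8 12)))), (.s k12 k8 1 (.s
  k166 k247 12 (.s k89 k243 14 (.s k28 k211 10 (.s k16 k24 1 (.s k93 k81 1 (.d k223 k158 k154 8
  10)))))))] (.c k169 (.q k171 [(.s k36 k52 3 (.s k32 k44 1 (.s k48 k16 3 (.d k12 k8 k24 1 5)))),
  (.s k52 k36 3 (.s k101 k199 12 (.s k117 k69 3 (.d k247 k182 k166 8 12)))), (.s k12 k8 1 (.s k166
  k247 12 (.s k89 k243 14 (.s k28 k211 10 (.s k16 k24 1 (.s k93 k81 1 (.d k223 k158 k154 8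
  10)))))))] .n) (.c k171 (.q k169 [(.s k36 k52 3 (.s k32 k44 1 (.s k48 k16 3 (.d k12 k8 k24 1
  5)))), (.s k131 k188 6 (.s k166 k247 12 (.s k163 k172 2 (.s k179 k147 3 (.s k140 k153 6 (.d k134
  k137 k182 2 3))))))] .n) .n)))))

def s1_170_169 : T TT 256 :=
  (.f k150 k215 8 (.q k84 [(.s k86 k87 0 (.s k22 k214 7 (.s k212 k148 7 (.d k23 k21 k149 0 8)))),
  (.s k60 k40 5 (.s k86 k87 0 (.s k105 k195 14 (.s k124 k67 6 (.d k252 k168 k188 13 7))))), (.s k60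
  k40 5 (.s k148 k212 7 (.s k104 k192 13 (.s k124 k64 5 (.d k252 k168 k188 13 7)))))] (.c k168 (.q
  k171 [(.s k86 k87 0 (.s k22 k214 7 (.s k23 k21 0 (.d k212 k148 k149 7 8)))), (.s k60 k40 5 (.s k87
  k86 0 (.s k105 k195 14 (.s k125 k65 5 (.d k255 k3 k190 13 8))))), (.s k60 k40 5 (.s k105 k195 14
  (.s k148 k212 7 (.s k104 k192 13 (.s k64 k124 5 (.d k106 k107 k127 0 6))))))] .n) (.c k171 (.l (.s
  k168 k252 13 (.s k60 k40 5 (.s k148 k212 7 (.s k128 k188 5 (.d k192 k64 k104 7 13)))))) .n))))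

def s1_170_171 : T TT 256 :=
  (.q k84 [(.s k60 k40 5 (.s k148 k212 7 (.s k104 k192 13 (.s k124 k64 5 (.d k252 k168 k188 13
  7))))), (.s k86 k87 0 (.s k150 k215 8 (.s k22 k214 7 (.s k23 k21 0 (.d k212 k148 k149 7 8))))),
  (.s k60 k40 5 (.s k86 k87 0 (.s k150 k215 8 (.s k105 k195 14 (.s k124 k67 6 (.d k252 k168 k188 13
  7))))))] (.c k168 (.q k169 [(.s k86 k87 0 (.s k150 k215 8 (.s k22 k214 7 (.s k23 k21 0 (.d k212
  k148 k149 7 8))))), (.s k60 k40 5 (.s k148 k212 7 (.s k104 k192 13 (.s k124 k64 5 (.s k150 k215 8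
  (.d k188 k252 k131 7 6)))))), (.s k60 k40 5 (.s k86 k87 0 (.s k150 k215 8 (.s k188 k131 6 (.d k252
  k3 k124 14 7))))), (.s k60 k40 5 (.s k86 k87 0 (.s k3 k252 14 (.s k22 k41 6 (.s k212 k148 7 (.d
  k23 k21 k149 0 8))))))] .n) (.c k169 (.l (.s k168 k252 13 (.s k60 k40 5 (.s k148 k212 7 (.s k128
  k188 5 (.d k192 k64 k104 7 13)))))) .n)))

def s1_170_172 : T TT 256 :=
  (.q k4 [(.s k12 k8 1 (.s k36 k52 3 (.s k24 k48 5 (.s k28 k16 1 (.d k60 k44 k40 3 5))))), (.s k52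
  k36 3 (.s k150 k215 8 (.s k101 k199 12 (.s k117 k69 3 (.d k247 k182 k166 8 12))))), (.s k12 k8 1
  (.s k60 k40 5 (.s k44 k28 3 (.s k150 k215 8 (.s k105 k195 14 (.d k166 k227 k247 10 12))))))] .n)

def s1_170_173 : T TT 256 :=
  (.q k4 [(.s k36 k52 3 (.s k40 k60 5 (.s k32 k44 1 (.s k48 k16 3 (.d k12 k8 k24 1 5))))), (.s k52
  k36 3 (.s k150 k215 8 (.s k101 k199 12 (.s k117 k69 3 (.d k247 k182 k166 8 12))))), (.s k12 k8 1
  (.s k60 k40 5 (.s k44 k28 3 (.s k150 k215 8 (.s k105 k195 14 (.d k166 k227 k247 10 12))))))] .n)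

def s1_170_174 : T TT 256 :=
  (.q k166 [(.s k4 k247 12 (.s k52 k36 3 (.s k150 k215 8 (.s k134 k182 3 (.d k199 k69 k101 8
  12))))), (.s k60 k40 5 (.s k150 k215 8 (.s k182 k134 3 (.s k243 k121 10 (.s k81 k162 12 (.d k89
  k93 k12 1 14)))))), (.s k4 k247 12 (.s k12 k8 1 (.s k60 k40 5 (.s k28 k44 3 (.s k24 k16 1 (.d k36
  k52 k48 3 5))))))] .n)

def s1_170_175 : T TT 256 :=
  (.f k150 k215 8 (.q k165 [(.s k60 k40 5 (.s k180 k135 4 (.s k240 k120 9 (.s k80 k160 11 (.d k90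
  k95 k15 2 14))))), (.s k5 k245 11 (.s k15 k10 2 (.s k90 k240 14 (.s k30 k210 9 (.d k60 k45 k40 4
  5))))), (.s k5 k245 11 (.s k15 k10 2 (.s k135 k180 4 (.s k195 k75 9 (.s k65 k130 8 (.d k105 k125
  k60 5 14))))))] (.c k15 (.l (.s k60 k40 5 (.s k105 k195 14 (.s k125 k65 5 (.s k245 k5 11 (.s k255
  k190 8 (.s k240 k250 2 (.d k180 k135 k120 4 9)))))))) (.c k60 (.q k4 [(.s k52 k36 3 (.s k101 k199
  12 (.s k117 k69 3 (.d k247 k182 k166 8 12)))), (.s k5 k245 11 (.s k7 k6 0 (.s k86 k244 12 (.s k87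
  k84 0 (.d k247 k167 k166 11 12))))), (.s k5 k245 11 (.s k7 k6 0 (.s k52 k36 3 (.s k22 k37 4 (.d
  k86 k214 k244 7 12)))))] .n) (.c k90 (.l (.s k5 k245 11 (.s k60 k40 5 (.s k105 k195 14 (.s k45
  k225 9 (.d k15 k10 k30 2 4)))))) .n)))))

def s1_170_176 : T TT 256 :=
  (.q k4 [(.s k36 k52 3 (.s k40 k60 5 (.s k32 k44 1 (.s k48 k16 3 (.d k12 k8 k24 1 5))))), (.s k52
  k36 3 (.s k150 k215 8 (.s k101 k199 12 (.s k117 k69 3 (.d k247 k182 k166 8 12))))), (.s k12 k8 1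
  (.s k60 k40 5 (.s k44 k28 3 (.s k150 k215 8 (.s k105 k195 14 (.d k166 k227 k247 10 12))))))] .n)

def s1_170_177 : T TT 256 :=
  (.q k4 [(.s k36 k52 3 (.s k40 k60 5 (.s k32 k44 1 (.s k48 k16 3 (.d k12 k8 k24 1 5))))), (.s k52
  k36 3 (.s k150 k215 8 (.s k101 k199 12 (.s k117 k69 3 (.d k247 k182 k166 8 12))))), (.s k12 k8 1
  (.s k60 k40 5 (.s k44 k28 3 (.s k150 k215 8 (.s k105 k195 14 (.d k166 k227 k247 10 12))))))] .n)

def s1_170_178 : T TT 256 :=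
  (.q k4 [(.s k36 k52 3 (.s k40 k60 5 (.s k32 k44 1 (.s k48 k16 3 (.d k12 k8 k24 1 5))))), (.s k52
  k36 3 (.s k150 k215 8 (.s k101 k199 12 (.s k117 k69 3 (.d k247 k182 k166 8 12))))), (.s k12 k8 1
  (.s k60 k40 5 (.s k44 k28 3 (.s k150 k215 8 (.s k105 k195 14 (.d k166 k227 k247 10 12))))))] .n)

def s1_170_179 : T TT 256 :=
  (.q k4 [(.s k36 k52 3 (.s k40 k60 5 (.s k32 k44 1 (.s k48 k16 3 (.d k12 k8 k24 1 5))))), (.s k52
  k36 3 (.s k150 k215 8 (.s k101 k199 12 (.s k117 k69 3 (.d k247 k182 k166 8 12))))), (.s k12 k8 1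
  (.s k60 k40 5 (.s k44 k28 3 (.s k150 k215 8 (.s k105 k195 14 (.d k166 k227 k247 10 12))))))] .n)

def s1_170_180 : T TT 256 :=
  (.q k4 [(.s k52 k36 3 (.s k150 k215 8 (.s k101 k199 12 (.s k117 k69 3 (.d k247 k182 k166 8
  12))))), (.s k12 k8 1 (.s k36 k52 3 (.s k24 k48 5 (.s k28 k16 1 (.d k60 k44 k40 3 5))))), (.s k12
  k8 1 (.s k60 k40 5 (.s k44 k28 3 (.s k150 k215 8 (.s k105 k195 14 (.d k166 k227 k247 10 12))))))]
  .n)

def s1_170_181 : T TT 256 :=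
  (.q k4 [(.s k36 k52 3 (.s k40 k60 5 (.s k32 k44 1 (.s k48 k16 3 (.d k12 k8 k24 1 5))))), (.s k52
  k36 3 (.s k150 k215 8 (.s k101 k199 12 (.s k117 k69 3 (.d k247 k182 k166 8 12))))), (.s k12 k8 1
  (.s k60 k40 5 (.s k44 k28 3 (.s k150 k215 8 (.s k105 k195 14 (.d k166 k227 k247 10 12))))))] .n)

def s1_170_182 : T TT 256 :=
  (.q k4 [(.s k12 k8 1 (.s k36 k52 3 (.s k24 k48 5 (.s k28 k16 1 (.d k60 k44 k40 3 5))))), (.s k52
  k36 3 (.s k60 k40 5 (.s k150 k215 8 (.s k101 k199 12 (.s k69 k117 3 (.s k207 k138 10 (.d k48 k154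
  k56 14 1))))))), (.s k12 k8 1 (.s k60 k40 5 (.s k44 k28 3 (.s k150 k215 8 (.s k105 k195 14 (.d
  k166 k227 k247 10 12)))))), (.s k12 k8 1 (.s k36 k52 3 (.s k24 k48 5 (.s k16 k28 1 (.s k154 k223
  10 (.s k89 k219 8 (.d k166 k247 k243 12 14)))))))] (.c k56 (.l (.s k12 k8 1 (.s k36 k52 3 (.s k24
  k48 5 (.s k60 k40 5 (.d k28 k16 k44 1 3)))))) (.c k60 (.l (.s k12 k8 1 (.s k36 k52 3 (.s k48 k24 5
  (.s k16 k32 3 (.s k154 k223 10 (.s k101 k207 14 (.d k166 k247 k231 12 8)))))))) (.c k247 (.l (.s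
  k12 k8 1 (.s k60 k40 5 (.s k28 k44 3 (.s k24 k16 1 (.d k36 k52 k48 3 5)))))) .n))))

def s1_170_183 : T TT 256 :=
  (.q k4 [(.s k36 k52 3 (.s k40 k60 5 (.s k32 k44 1 (.s k48 k16 3 (.d k12 k8 k24 1 5))))), (.s k52
  k36 3 (.s k150 k215 8 (.s k101 k199 12 (.s k117 k69 3 (.d k247 k182 k166 8 12))))), (.s k12 k8 1
  (.s k60 k40 5 (.s k44 k28 3 (.s k150 k215 8 (.s k105 k195 14 (.d k166 k227 k247 10 12))))))] .n)

def s1_170_184 : T TT 256 :=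
  (.q k4 [(.s k36 k52 3 (.s k40 k60 5 (.s k32 k44 1 (.s k48 k16 3 (.d k12 k8 k24 1 5))))), (.s k52
  k36 3 (.s k150 k215 8 (.s k101 k199 12 (.s k117 k69 3 (.d k247 k182 k166 8 12))))), (.s k12 k8 1
  (.s k60 k40 5 (.s k44 k28 3 (.s k150 k215 8 (.s k105 k195 14 (.d k166 k227 k247 10 12))))))] .n)

def s1_170_185 : T TT 256 :=
  (.q k4 [(.s k36 k52 3 (.s k40 k60 5 (.s k32 k44 1 (.s k48 k16 3 (.d k12 k8 k24 1 5))))), (.s k52
  k36 3 (.s k150 k215 8 (.s k101 k199 12 (.s k117 k69 3 (.d k247 k182 k166 8 12))))), (.s k12 k8 1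
  (.s k60 k40 5 (.s k44 k28 3 (.s k150 k215 8 (.s k105 k195 14 (.d k166 k227 k247 10 12))))))] .n)

def s1_170_186 : T TT 256 :=
  (.q k154 [(.s k16 k223 10 (.s k28 k24 1 (.s k150 k215 8 (.s k146 k158 1 (.d k211 k81 k89 8
  10))))), (.s k60 k40 5 (.s k150 k215 8 (.s k158 k146 1 (.s k207 k109 12 (.s k69 k138 10 (.d k101
  k117 k48 3 14)))))), (.s k16 k223 10 (.s k48 k32 3 (.s k60 k40 5 (.s k52 k56 1 (.s k36 k4 3 (.d
  k24 k28 k12 1 5))))))] .n)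

def s1_170_187 : T TT 256 :=
  (.f k150 k215 8 (.q k153 [(.s k60 k40 5 (.s k156 k147 2 (.s k204 k108 11 (.s k68 k136 9 (.d k102
  k119 k51 4 14))))), (.s k17 k221 9 (.s k51 k34 4 (.s k102 k204 14 (.s k54 k198 11 (.d k60 k57 k40
  2 5))))), (.s k17 k221 9 (.s k51 k34 4 (.s k147 k156 2 (.s k195 k99 11 (.s k65 k130 8 (.d k105
  k125 k60 5 14))))))] (.c k51 (.l (.s k60 k40 5 (.s k105 k195 14 (.s k125 k65 5 (.s k221 k17 9 (.s
  k255 k190 8 (.s k204 k238 4 (.d k156 k147 k108 2 11)))))))) (.c k60 (.q k12 [(.s k4 k8 1 (.s k52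
  k36 3 (.s k101 k199 12 (.s k117 k69 3 (.d k247 k182 k166 8 12))))), (.s k17 k221 9 (.s k51 k34 4
  (.s k25 k38 6 (.s k89 k217 7 (.s k81 k93 1 (.d k243 k162 k166 12 14)))))), (.s k8 k4 1 (.s k17
  k221 9 (.s k51 k34 4 (.s k25 k38 6 (.s k21 k29 1 (.d k42 k59 k63 4 6))))))] .n) (.c k102 (.l (.s
  k17 k221 9 (.s k60 k40 5 (.s k105 k195 14 (.s k57 k201 11 (.d k51 k54 k34 2 4)))))) .n)))))

def s1_170_188 : T TT 256 :=
  (.q k4 [(.s k12 k8 1 (.s k36 k52 3 (.s k24 k48 5 (.s k28 k16 1 (.d k60 k44 k40 3 5))))), (.s k52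
  k36 3 (.s k150 k215 8 (.s k101 k199 12 (.s k117 k69 3 (.d k247 k182 k166 8 12))))), (.s k12 k8 1
  (.s k60 k40 5 (.s k44 k28 3 (.s k150 k215 8 (.s k105 k195 14 (.d k166 k227 k247 10 12))))))] .n)

def s1_170_189 : T TT 256 :=
  (.q k4 [(.s k36 k52 3 (.s k40 k60 5 (.s k32 k44 1 (.s k48 k16 3 (.d k12 k8 k24 1 5))))), (.s k52
  k36 3 (.s k150 k215 8 (.s k101 k199 12 (.s k117 k69 3 (.d k247 k182 k166 8 12))))), (.s k12 k8 1
  (.s k60 k40 5 (.s k44 k28 3 (.s k150 k215 8 (.s k105 k195 14 (.d k166 k227 k247 10 12))))))] .n)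

def s1_170_190 : T TT 256 :=
  (.q k4 [(.s k52 k36 3 (.s k150 k215 8 (.s k101 k199 12 (.s k117 k69 3 (.d k247 k182 k166 8
  12))))), (.s k12 k8 1 (.s k36 k52 3 (.s k24 k48 5 (.s k28 k16 1 (.d k60 k44 k40 3 5))))), (.s k12
  k8 1 (.s k60 k40 5 (.s k44 k28 3 (.s k150 k215 8 (.s k105 k195 14 (.d k166 k227 k247 10 12))))))]
  (.c k130 (.l (.s k150 k215 8 (.s k52 k36 3 (.s k101 k199 12 (.s k117 k69 3 (.d k247 k182 k166 8
  12)))))) (.c k150 (.q k130 [(.s k12 k8 1 (.s k36 k52 3 (.s k24 k48 5 (.s k28 k16 1 (.d k60 k44 k40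
  3 5))))), (.s k12 k8 1 (.s k195 k65 8 (.s k134 k73 10 (.s k138 k142 1 (.d k69 k199 k207 8 10))))),
  (.s k36 k52 3 (.s k40 k60 5 (.s k44 k32 1 (.s k166 k247 12 (.s k65 k195 8 (.d k105 k125 k227 5
  10))))))] (.c k199 (.l (.s k12 k8 1 (.s k60 k40 5 (.s k28 k44 3 (.s k24 k16 1 (.d k36 k52 k48 3
  5)))))) .n)) .n)))

def s1_170_191 : T TT 256 :=
  (.q k149 [(.s k21 k213 7 (.s k23 k22 0 (.s k86 k212 8 (.s k87 k84 0 (.d k215 k151 k150 7 8))))),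
  (.s k60 k40 5 (.s k150 k215 8 (.s k148 k151 0 (.s k192 k104 13 (.s k64 k128 7 (.d k106 k127 k63 6
  14)))))), (.s k21 k213 7 (.s k60 k40 5 (.s k63 k42 6 (.s k61 k62 0 (.s k105 k193 13 (.d k150 k215
  k195 8 14))))))] (.c k150 (.l (.s k21 k213 7 (.s k23 k22 0 (.s k63 k42 6 (.s k3 k43 5 (.s k86 k212
  8 (.s k84 k87 0 (.d k252 k168 k169 13 14)))))))) (.c k215 (.l (.s k21 k213 7 (.s k23 k22 0 (.s k60
  k40 5 (.s k63 k42 6 (.s k212 k86 8 (.s k148 k84 7 (.d k192 k106 k104 14 13)))))))) .n)))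

def s1_170_192 : T TT 256 :=
  (.q k4 [(.s k52 k36 3 (.s k150 k215 8 (.s k101 k199 12 (.s k117 k69 3 (.d k247 k182 k166 8
  12))))), (.s k12 k8 1 (.s k36 k52 3 (.s k24 k48 5 (.s k28 k16 1 (.d k60 k44 k40 3 5))))), (.s k12
  k8 1 (.s k60 k40 5 (.s k44 k28 3 (.s k150 k215 8 (.s k105 k195 14 (.d k166 k227 k247 10 12))))))]
  .n)

def s1_170_193 : T TT 256 :=
  (.f k40 k60 5 (.f k150 k215 8 (.q k4 [(.s k36 k52 3 (.s k32 k44 1 (.s k48 k16 3 (.d k12 k8 k24 1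
  5)))), (.s k52 k36 3 (.s k101 k199 12 (.s k117 k69 3 (.d k247 k182 k166 8 12)))), (.s k12 k8 1 (.s
  k166 k247 12 (.s k89 k243 14 (.s k28 k211 10 (.s k16 k24 1 (.s k93 k81 1 (.d k223 k158 k154 8
  10)))))))] (.c k65 (.q k129 [(.s k36 k52 3 (.s k32 k44 1 (.s k48 k16 3 (.d k12 k8 k24 1 5)))), (.s
  k52 k36 3 (.s k101 k199 12 (.s k117 k69 3 (.d k247 k182 k166 8 12)))), (.s k12 k8 1 (.s k166 k247
  12 (.s k89 k243 14 (.s k28 k211 10 (.s k16 k24 1 (.s k93 k81 1 (.d k223 k158 k154 8 10)))))))] .n)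
  (.c k129 (.q k65 [(.s k36 k52 3 (.s k32 k44 1 (.s k48 k16 3 (.d k12 k8 k24 1 5)))), (.s k12 k8 1
  (.s k166 k247 12 (.s k195 k130 8 (.d k134 k182 k73 3 10)))), (.s k36 k52 3 (.s k44 k32 1 (.s k105
  k125 5 (.d k166 k227 k247 10 12))))] .n) .n)))))

def s1_170_194 : T TT 256 :=
  (.q k4 [(.s k36 k52 3 (.s k40 k60 5 (.s k32 k44 1 (.s k48 k16 3 (.d k12 k8 k24 1 5))))), (.s k52
  k36 3 (.s k150 k215 8 (.s k101 k199 12 (.s k117 k69 3 (.d k247 k182 k166 8 12))))), (.s k12 k8 1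
  (.s k60 k40 5 (.s k44 k28 3 (.s k150 k215 8 (.s k105 k195 14 (.d k166 k227 k247 10 12))))))] .n)

def s1_170_195 : T TT 256 :=
  (.q k4 [(.s k36 k52 3 (.s k40 k60 5 (.s k32 k44 1 (.s k48 k16 3 (.d k12 k8 k24 1 5))))), (.s k52
  k36 3 (.s k150 k215 8 (.s k101 k199 12 (.s k117 k69 3 (.d k247 k182 k166 8 12))))), (.s k12 k8 1
  (.s k60 k40 5 (.s k150 k215 8 (.s k166 k247 12 (.s k89 k243 14 (.d k28 k211 k44 10 3))))))] (.c
  k150 (.l (.s k12 k8 1 (.s k36 k52 3 (.s k24 k48 5 (.s k28 k16 1 (.d k60 k44 k40 3 5)))))) .n))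

def s1_170_196 : T TT 256 :=
  (.q k4 [(.s k36 k52 3 (.s k40 k60 5 (.s k32 k44 1 (.s k48 k16 3 (.d k12 k8 k24 1 5))))), (.s k52
  k36 3 (.s k150 k215 8 (.s k101 k199 12 (.s k117 k69 3 (.d k247 k182 k166 8 12))))), (.s k12 k8 1
  (.s k60 k40 5 (.s k44 k28 3 (.s k150 k215 8 (.s k105 k195 14 (.d k166 k227 k247 10 12))))))] .n)

def s1_170_197 : T TT 256 :=
  (.q k4 [(.s k36 k52 3 (.s k40 k60 5 (.s k32 k44 1 (.s k48 k16 3 (.d k12 k8 k24 1 5))))), (.s k52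
  k36 3 (.s k150 k215 8 (.s k101 k199 12 (.s k117 k69 3 (.d k247 k182 k166 8 12))))), (.s k12 k8 1
  (.s k60 k40 5 (.s k44 k28 3 (.s k150 k215 8 (.s k105 k195 14 (.d k166 k227 k247 10 12))))))] .n)

def s1_170_198 : T TT 256 :=
  (.q k4 [(.s k36 k52 3 (.s k40 k60 5 (.s k32 k44 1 (.s k48 k16 3 (.d k12 k8 k24 1 5))))), (.s k52
  k36 3 (.s k150 k215 8 (.s k101 k199 12 (.s k117 k69 3 (.d k247 k182 k166 8 12))))), (.s k12 k8 1
  (.s k60 k40 5 (.s k44 k28 3 (.s k150 k215 8 (.s k105 k195 14 (.d k166 k227 k247 10 12))))))] .n)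

def s1_170_199 : T TT 256 :=
  (.q k12 [(.s k8 k4 1 (.s k40 k60 5 (.s k24 k56 3 (.s k16 k28 1 (.d k48 k32 k36 3 5))))), (.s k60
  k40 5 (.s k28 k44 3 (.s k150 k215 8 (.s k89 k211 10 (.s k81 k93 1 (.d k243 k162 k166 12 14)))))),
  (.s k4 k8 1 (.s k60 k40 5 (.s k44 k28 3 (.s k150 k215 8 (.s k105 k195 14 (.d k166 k247 k227 12
  10)))))), (.s k4 k8 1 (.s k36 k52 3 (.s k48 k24 5 (.s k16 k32 3 (.s k154 k223 10 (.s k101 k207 14
  (.d k166 k231 k247 8 12)))))))] (.c k40 (.l (.s k4 k8 1 (.s k36 k52 3 (.s k24 k48 5 (.s k16 k28 1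
  (.s k154 k223 10 (.s k89 k219 8 (.d k166 k247 k243 12 14)))))))) .n))

def s1_170_200 : T TT 256 :=
  (.q k4 [(.s k36 k52 3 (.s k40 k60 5 (.s k32 k44 1 (.s k48 k16 3 (.d k12 k8 k24 1 5))))), (.s k52
  k36 3 (.s k150 k215 8 (.s k101 k199 12 (.s k117 k69 3 (.d k247 k182 k166 8 12))))), (.s k12 k8 1
  (.s k60 k40 5 (.s k44 k28 3 (.s k150 k215 8 (.s k105 k195 14 (.d k166 k227 k247 10 12))))))] .n)

def s1_170_201 : T TT 256 :=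
  (.q k4 [(.s k36 k52 3 (.s k40 k60 5 (.s k32 k44 1 (.s k48 k16 3 (.d k12 k8 k24 1 5))))), (.s k52
  k36 3 (.s k150 k215 8 (.s k101 k199 12 (.s k117 k69 3 (.d k247 k182 k166 8 12))))), (.s k12 k8 1
  (.s k60 k40 5 (.s k44 k28 3 (.s k150 k215 8 (.s k105 k195 14 (.d k166 k227 k247 10 12))))))] .n)

def s1_170_202 : T TT 256 :=
  (.q k4 [(.s k36 k52 3 (.s k40 k60 5 (.s k32 k44 1 (.s k48 k16 3 (.d k12 k8 k24 1 5))))), (.s k52
  k36 3 (.s k150 k215 8 (.s k101 k199 12 (.s k117 k69 3 (.d k247 k182 k166 8 12))))), (.s k12 k8 1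
  (.s k60 k40 5 (.s k44 k28 3 (.s k150 k215 8 (.s k105 k195 14 (.d k166 k227 k247 10 12))))))] .n)

def s1_170_203 : T TT 256 :=
  (.q k4 [(.s k36 k52 3 (.s k40 k60 5 (.s k32 k44 1 (.s k48 k16 3 (.d k12 k8 k24 1 5))))), (.s k52
  k36 3 (.s k150 k215 8 (.s k101 k199 12 (.s k117 k69 3 (.d k247 k182 k166 8 12))))), (.s k12 k8 1
  (.s k60 k40 5 (.s k44 k28 3 (.s k150 k215 8 (.s k105 k195 14 (.d k166 k227 k247 10 12))))))] .n)

def s1_170_204 : T TT 256 :=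
  (.q k4 [(.s k52 k36 3 (.s k150 k215 8 (.s k101 k199 12 (.s k117 k69 3 (.d k247 k182 k166 8
  12))))), (.s k12 k8 1 (.s k36 k52 3 (.s k24 k48 5 (.s k28 k16 1 (.d k60 k44 k40 3 5))))), (.s k12
  k8 1 (.s k60 k40 5 (.s k44 k28 3 (.s k150 k215 8 (.s k105 k195 14 (.d k166 k227 k247 10 12))))))]
  .n)

def s1_170_205 : T TT 256 :=
  (.f k150 k215 8 (.q k69 [(.s k60 k40 5 (.s k101 k117 3 (.s k105 k195 14 (.s k207 k138 10 (.d k109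
  k97 k158 1 12))))), (.s k60 k40 5 (.s k101 k117 3 (.s k52 k199 12 (.s k36 k4 3 (.s k48 k56 1 (.s
  k16 k32 3 (.d k24 k28 k12 1 5))))))), (.s k101 k117 3 (.s k199 k52 12 (.s k134 k4 8 (.s k207 k138
  10 (.s k195 k203 1 (.s k65 k130 8 (.d k73 k77 k12 1 10)))))))] (.c k101 (.f k60 k40 5 (.l (.s k105
  k195 14 (.s k125 k65 5 (.s k207 k138 10 (.s k158 k109 12 (.s k154 k146 1 (.s k223 k16 10 (.d k255
  k239 k190 3 8))))))))) (.c k117 (.l (.s k60 k40 5 (.s k207 k138 10 (.s k158 k109 12 (.s k154 k146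
  1 (.s k16 k223 10 (.d k48 k32 k101 3 14))))))) .n))))

def s1_170_206 : T TT 256 :=
  (.q k4 [(.s k36 k52 3 (.s k40 k60 5 (.s k32 k44 1 (.s k48 k16 3 (.d k12 k8 k24 1 5))))), (.s k52
  k36 3 (.s k150 k215 8 (.s k101 k199 12 (.s k117 k69 3 (.d k247 k182 k166 8 12))))), (.s k12 k8 1
  (.s k60 k40 5 (.s k44 k28 3 (.s k150 k215 8 (.s k105 k195 14 (.d k166 k227 k247 10 12))))))] .n)

def s1_170_207 : T TT 256 :=
  (.q k4 [(.s k36 k52 3 (.s k40 k60 5 (.s k32 k44 1 (.s k48 k16 3 (.d k12 k8 k24 1 5))))), (.s k52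
  k36 3 (.s k150 k215 8 (.s k101 k199 12 (.s k117 k69 3 (.d k247 k182 k166 8 12))))), (.s k12 k8 1
  (.s k60 k40 5 (.s k44 k28 3 (.s k150 k215 8 (.s k105 k195 14 (.d k166 k227 k247 10 12))))))] .n)

def s1_170_208 : T TT 256 :=
  (.q k4 [(.s k52 k36 3 (.s k150 k215 8 (.s k101 k199 12 (.s k117 k69 3 (.d k247 k182 k166 8
  12))))), (.s k12 k8 1 (.s k36 k52 3 (.s k24 k48 5 (.s k28 k16 1 (.d k60 k44 k40 3 5))))), (.s k12
  k8 1 (.s k60 k40 5 (.s k44 k28 3 (.s k150 k215 8 (.s k105 k195 14 (.d k166 k227 k247 10 12))))))]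
  .n)

def s1_170_209 : T TT 256 :=
  (.q k4 [(.s k36 k52 3 (.s k40 k60 5 (.s k32 k44 1 (.s k48 k16 3 (.d k12 k8 k24 1 5))))), (.s k52
  k36 3 (.s k150 k215 8 (.s k101 k199 12 (.s k117 k69 3 (.d k247 k182 k166 8 12))))), (.s k12 k8 1
  (.s k60 k40 5 (.s k44 k28 3 (.s k150 k215 8 (.s k105 k195 14 (.d k166 k227 k247 10 12))))))] .n)

def s1_170_210 : T TT 256 :=
  (.q k4 [(.s k36 k52 3 (.s k40 k60 5 (.s k32 k44 1 (.s k48 k16 3 (.d k12 k8 k24 1 5))))), (.s k52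
  k36 3 (.s k150 k215 8 (.s k101 k199 12 (.s k117 k69 3 (.d k247 k182 k166 8 12))))), (.s k12 k8 1
  (.s k60 k40 5 (.s k44 k28 3 (.s k150 k215 8 (.s k105 k195 14 (.d k166 k227 k247 10 12))))))] .n)

def s1_170_211 : T TT 256 :=
  (.q k4 [(.s k12 k8 1 (.s k36 k52 3 (.s k40 k60 5 (.s k32 k44 1 (.d k48 k16 k24 3 5))))), (.s k52
  k36 3 (.s k150 k215 8 (.s k101 k199 12 (.s k117 k69 3 (.d k247 k182 k166 8 12))))), (.s k12 k8 1
  (.s k60 k40 5 (.s k44 k28 3 (.s k150 k215 8 (.s k105 k195 14 (.d k166 k227 k247 10 12))))))] .n)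

def s1_170_212 : T TT 256 :=
  (.q k4 [(.s k36 k52 3 (.s k40 k60 5 (.s k32 k44 1 (.s k48 k16 3 (.d k12 k8 k24 1 5))))), (.s k52
  k36 3 (.s k150 k215 8 (.s k101 k199 12 (.s k117 k69 3 (.d k247 k182 k166 8 12))))), (.s k12 k8 1
  (.s k60 k40 5 (.s k44 k28 3 (.s k150 k215 8 (.s k105 k195 14 (.d k166 k227 k247 10 12))))))] .n)

def s1_170_213 : T TT 256 :=
  (.q k4 [(.s k36 k52 3 (.s k40 k60 5 (.s k32 k44 1 (.s k48 k16 3 (.d k12 k8 k24 1 5))))), (.s k52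
  k36 3 (.s k150 k215 8 (.s k101 k199 12 (.s k117 k69 3 (.d k247 k182 k166 8 12))))), (.s k12 k8 1
  (.s k60 k40 5 (.s k44 k28 3 (.s k150 k215 8 (.s k105 k195 14 (.d k166 k227 k247 10 12))))))] .n)

def s1_170_214 : T TT 256 :=
  (.q k4 [(.s k36 k52 3 (.s k40 k60 5 (.s k32 k44 1 (.s k48 k16 3 (.d k12 k8 k24 1 5))))), (.s k52
  k36 3 (.s k150 k215 8 (.s k101 k199 12 (.s k117 k69 3 (.d k247 k182 k166 8 12))))), (.s k12 k8 1
  (.s k60 k40 5 (.s k44 k28 3 (.s k150 k215 8 (.s k105 k195 14 (.d k166 k227 k247 10 12))))))] .n)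

def s1_170_215 : T TT 256 :=
  (.q k12 [(.s k8 k4 1 (.s k40 k60 5 (.s k24 k56 3 (.s k16 k28 1 (.d k48 k32 k36 3 5))))), (.s k4 k8
  1 (.s k60 k40 5 (.s k44 k28 3 (.s k166 k247 12 (.s k105 k227 10 (.s k65 k125 5 (.d k195 k130 k150
  8 14))))))), (.s k4 k8 1 (.s k36 k52 3 (.s k48 k24 5 (.s k16 k32 3 (.s k154 k223 10 (.s k101 k207
  14 (.d k166 k231 k247 8 12)))))))] (.c k4 (.q k15 [(.s k5 k10 2 (.s k60 k40 5 (.s k45 k30 4 (.s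
  k165 k245 11 (.s k105 k225 9 (.s k65 k125 5 (.d k195 k130 k150 8 14))))))), (.s k5 k10 2 (.s k13
  k14 0 (.s k165 k245 11 (.s k89 k241 13 (.s k81 k93 1 (.d k243 k162 k166 12 14)))))), (.s k13 k14 0
  (.s k60 k40 5 (.s k44 k28 3 (.s k45 k30 4 (.s k29 k61 3 (.d k46 k47 k63 0 4))))))] .n) (.c k8 (.q
  k89 [(.s k81 k93 1 (.d k243 k162 k166 12 14)), (.s k40 k60 5 (.s k166 k243 14 (.s k4 k247 12 (.s
  k36 k52 3 (.s k32 k44 1 (.d k48 k16 k24 3 5)))))), (.s k60 k40 5 (.s k28 k44 3 (.s k81 k93 1 (.s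
  k211 k150 10 (.d k16 k24 k146 1 8)))))] .n) (.c k24 (.q k5 [(.s k15 k10 2 (.s k14 k13 0 (.s k165
  k245 11 (.s k90 k240 14 (.s k166 k242 13 (.d k4 k8 k247 1 12)))))), (.s k4 k8 1 (.s k7 k6 0 (.s
  k165 k245 11 (.s k86 k244 12 (.s k87 k84 0 (.d k247 k167 k166 11 12)))))), (.s k4 k8 1 (.s k7 k6 0
  (.s k15 k10 2 (.s k52 k36 3 (.s k37 k22 4 (.s k48 k26 6 (.d k60 k56 k40 1 5))))))), (.s k15 k10 2
  (.s k13 k14 0 (.s k165 k245 11 (.s k89 k241 13 (.s k81 k93 1 (.d k243 k162 k166 12 14))))))] .n)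
  (.c k40 (.l (.s k4 k8 1 (.s k36 k52 3 (.s k24 k48 5 (.s k16 k28 1 (.s k154 k223 10 (.s k166 k247
  12 (.d k89 k219 k243 8 14)))))))) (.c k56 (.l (.s k4 k8 1 (.s k36 k52 3 (.s k24 k48 5 (.s k60 k40
  5 (.d k28 k16 k44 1 3)))))) .n))))))

def s1_170_216 : T TT 256 :=
  (.q k4 [(.s k36 k52 3 (.s k40 k60 5 (.s k32 k44 1 (.s k48 k16 3 (.d k12 k8 k24 1 5))))), (.s k52
  k36 3 (.s k150 k215 8 (.s k101 k199 12 (.s k117 k69 3 (.d k247 k182 k166 8 12))))), (.s k12 k8 1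
  (.s k60 k40 5 (.s k44 k28 3 (.s k150 k215 8 (.s k105 k195 14 (.d k166 k227 k247 10 12))))))] .n)

def s1_170_217 : T TT 256 :=
  (.q k4 [(.s k36 k52 3 (.s k40 k60 5 (.s k32 k44 1 (.s k48 k16 3 (.d k12 k8 k24 1 5))))), (.s k52
  k36 3 (.s k150 k215 8 (.s k101 k199 12 (.s k117 k69 3 (.d k247 k182 k166 8 12))))), (.s k12 k8 1
  (.s k60 k40 5 (.s k44 k28 3 (.s k150 k215 8 (.s k105 k195 14 (.d k166 k227 k247 10 12))))))] .n)

def s1_170_218 : T TT 256 :=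
  (.q k4 [(.s k36 k52 3 (.s k40 k60 5 (.s k32 k44 1 (.s k48 k16 3 (.d k12 k8 k24 1 5))))), (.s k52
  k36 3 (.s k150 k215 8 (.s k101 k199 12 (.s k117 k69 3 (.d k247 k182 k166 8 12))))), (.s k12 k8 1
  (.s k60 k40 5 (.s k44 k28 3 (.s k150 k215 8 (.s k105 k195 14 (.d k166 k227 k247 10 12))))))] .n)

def s1_170_219 : T TT 256 :=
  (.q k4 [(.s k36 k52 3 (.s k40 k60 5 (.s k32 k44 1 (.s k48 k16 3 (.d k12 k8 k24 1 5))))), (.s k52
  k36 3 (.s k150 k215 8 (.s k101 k199 12 (.s k117 k69 3 (.d k247 k182 k166 8 12))))), (.s k12 k8 1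
  (.s k60 k40 5 (.s k44 k28 3 (.s k150 k215 8 (.s k105 k195 14 (.d k166 k227 k247 10 12))))))] .n)

def s1_170_220 : T TT 256 :=
  (.q k4 [(.s k52 k36 3 (.s k150 k215 8 (.s k101 k199 12 (.s k117 k69 3 (.d k247 k182 k166 8
  12))))), (.s k12 k8 1 (.s k36 k52 3 (.s k24 k48 5 (.s k28 k16 1 (.d k60 k44 k40 3 5))))), (.s k12
  k8 1 (.s k60 k40 5 (.s k44 k28 3 (.s k150 k215 8 (.s k105 k195 14 (.d k166 k227 k247 10 12))))))]
  .n)

def s1_170_221 : T TT 256 :=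
  (.q k4 [(.s k36 k52 3 (.s k40 k60 5 (.s k32 k44 1 (.s k48 k16 3 (.d k12 k8 k24 1 5))))), (.s k52
  k36 3 (.s k150 k215 8 (.s k101 k199 12 (.s k117 k69 3 (.d k247 k182 k166 8 12))))), (.s k12 k8 1
  (.s k60 k40 5 (.s k44 k28 3 (.s k150 k215 8 (.s k105 k195 14 (.d k166 k227 k247 10 12))))))] .n)

def s1_170_222 : T TT 256 :=
  (.q k4 [(.s k36 k52 3 (.s k40 k60 5 (.s k32 k44 1 (.s k48 k16 3 (.d k12 k8 k24 1 5))))), (.s k52
  k36 3 (.s k150 k215 8 (.s k101 k199 12 (.s k117 k69 3 (.d k247 k182 k166 8 12))))), (.s k12 k8 1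
  (.s k60 k40 5 (.s k44 k28 3 (.s k150 k215 8 (.s k105 k195 14 (.d k166 k227 k247 10 12))))))] .n)

def s1_170_223 : T TT 256 :=
  (.q k4 [(.s k36 k52 3 (.s k40 k60 5 (.s k32 k44 1 (.s k48 k16 3 (.d k12 k8 k24 1 5))))), (.s k52
  k36 3 (.s k150 k215 8 (.s k101 k199 12 (.s k117 k69 3 (.d k247 k182 k166 8 12))))), (.s k12 k8 1
  (.s k60 k40 5 (.s k44 k28 3 (.s k150 k215 8 (.s k105 k195 14 (.d k166 k227 k247 10 12))))))] .n)

def s1_170_224 : T TT 256 :=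
  (.q k4 [(.s k12 k8 1 (.s k36 k52 3 (.s k24 k48 5 (.s k28 k16 1 (.d k60 k44 k40 3 5))))), (.s k52
  k36 3 (.s k150 k215 8 (.s k101 k199 12 (.s k117 k69 3 (.d k247 k182 k166 8 12))))), (.s k12 k8 1
  (.s k60 k40 5 (.s k44 k28 3 (.s k150 k215 8 (.s k105 k195 14 (.d k166 k227 k247 10 12))))))] .n)

def s1_170_225 : T TT 256 :=
  (.q k4 [(.s k36 k52 3 (.s k40 k60 5 (.s k32 k44 1 (.s k48 k16 3 (.d k12 k8 k24 1 5))))), (.s k52
  k36 3 (.s k150 k215 8 (.s k101 k199 12 (.s k117 k69 3 (.d k247 k182 k166 8 12))))), (.s k12 k8 1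
  (.s k60 k40 5 (.s k44 k28 3 (.s k150 k215 8 (.s k105 k195 14 (.d k166 k227 k247 10 12))))))] .n)

def s1_170_226 : T TT 256 :=
  (.q k4 [(.s k36 k52 3 (.s k40 k60 5 (.s k32 k44 1 (.s k48 k16 3 (.d k12 k8 k24 1 5))))), (.s k52
  k36 3 (.s k150 k215 8 (.s k101 k199 12 (.s k117 k69 3 (.d k247 k182 k166 8 12))))), (.s k12 k8 1
  (.s k60 k40 5 (.s k44 k28 3 (.s k150 k215 8 (.s k105 k195 14 (.d k166 k227 k247 10 12))))))] .n)

def s1_170_227 : T TT 256 :=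
  (.q k4 [(.s k12 k8 1 (.s k36 k52 3 (.s k24 k48 5 (.s k28 k16 1 (.d k60 k44 k40 3 5))))), (.s k52
  k36 3 (.s k150 k215 8 (.s k101 k199 12 (.s k117 k69 3 (.d k247 k182 k166 8 12))))), (.s k12 k8 1
  (.s k60 k40 5 (.s k150 k215 8 (.s k166 k247 12 (.s k89 k243 14 (.d k28 k211 k44 10 3))))))] .n)

def s1_170_228 : T TT 256 :=
  (.q k4 [(.s k36 k52 3 (.s k40 k60 5 (.s k32 k44 1 (.s k48 k16 3 (.d k12 k8 k24 1 5))))), (.s k52
  k36 3 (.s k150 k215 8 (.s k101 k199 12 (.s k117 k69 3 (.d k247 k182 k166 8 12))))), (.s k12 k8 1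
  (.s k60 k40 5 (.s k44 k28 3 (.s k150 k215 8 (.s k105 k195 14 (.d k166 k227 k247 10 12))))))] .n)

def s1_170_229 : T TT 256 :=
  (.q k4 [(.s k36 k52 3 (.s k40 k60 5 (.s k32 k44 1 (.s k48 k16 3 (.d k12 k8 k24 1 5))))), (.s k52
  k36 3 (.s k150 k215 8 (.s k101 k199 12 (.s k117 k69 3 (.d k247 k182 k166 8 12))))), (.s k12 k8 1
  (.s k60 k40 5 (.s k44 k28 3 (.s k150 k215 8 (.s k105 k195 14 (.d k166 k227 k247 10 12))))))] .n)

def s1_170_230 : T TT 256 :=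
  (.q k4 [(.s k36 k52 3 (.s k40 k60 5 (.s k32 k44 1 (.s k48 k16 3 (.d k12 k8 k24 1 5))))), (.s k52
  k36 3 (.s k150 k215 8 (.s k101 k199 12 (.s k117 k69 3 (.d k247 k182 k166 8 12))))), (.s k12 k8 1
  (.s k60 k40 5 (.s k44 k28 3 (.s k150 k215 8 (.s k105 k195 14 (.d k166 k227 k247 10 12))))))] .n)

def s1_170_231 : T TT 256 :=
  (.q k4 [(.s k52 k36 3 (.s k150 k215 8 (.s k101 k199 12 (.s k247 k166 12 (.d k117 k69 k182 3
  8))))), (.s k12 k8 1 (.s k36 k52 3 (.s k24 k48 5 (.s k28 k16 1 (.d k60 k44 k40 3 5))))), (.s k12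
  k8 1 (.s k60 k40 5 (.s k44 k28 3 (.s k150 k215 8 (.s k105 k195 14 (.d k166 k247 k227 12 10))))))]
  .n)

def s1_170_232 : T TT 256 :=
  (.q k4 [(.s k36 k52 3 (.s k40 k60 5 (.s k32 k44 1 (.s k48 k16 3 (.d k12 k8 k24 1 5))))), (.s k52
  k36 3 (.s k150 k215 8 (.s k101 k199 12 (.s k117 k69 3 (.d k247 k182 k166 8 12))))), (.s k12 k8 1
  (.s k60 k40 5 (.s k44 k28 3 (.s k150 k215 8 (.s k105 k195 14 (.d k166 k227 k247 10 12))))))] .n)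

def s1_170_233 : T TT 256 :=
  (.q k4 [(.s k36 k52 3 (.s k40 k60 5 (.s k32 k44 1 (.s k48 k16 3 (.d k12 k8 k24 1 5))))), (.s k52
  k36 3 (.s k150 k215 8 (.s k101 k199 12 (.s k117 k69 3 (.d k247 k182 k166 8 12))))), (.s k12 k8 1
  (.s k60 k40 5 (.s k44 k28 3 (.s k150 k215 8 (.s k105 k195 14 (.d k166 k227 k247 10 12))))))] .n)

def s1_170_234 : T TT 256 :=
  (.f k150 k215 8 (.q k106 [(.s k60 k40 5 (.s k64 k127 6 (.s k105 k195 14 (.s k192 k128 7 (.d k104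
  k107 k148 0 13))))), (.s k60 k40 5 (.s k62 k194 13 (.s k63 k61 0 (.s k21 k42 6 (.d k149 k213 k192
  7 14))))), (.s k64 k127 6 (.s k192 k128 7 (.s k149 k63 14 (.s k21 k213 7 (.s k23 k22 0 (.s k148
  k151 0 (.d k212 k84 k86 7 8)))))))] (.c k149 (.l (.s k60 k40 5 (.s k64 k127 6 (.s k105 k195 14 (.s
  k104 k107 0 (.d k192 k128 k148 7 13)))))) (.c k192 (.l (.s k60 k40 5 (.s k62 k194 13 (.s k63 k61 0
  (.s k127 k64 6 (.s k255 k191 7 (.s k125 k190 8 (.d k105 k195 k65 14 5)))))))) .n))))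

def s1_170_235 : T TT 256 :=
  (.q k4 [(.s k36 k52 3 (.s k40 k60 5 (.s k32 k44 1 (.s k48 k16 3 (.d k12 k8 k24 1 5))))), (.s k52
  k36 3 (.s k150 k215 8 (.s k101 k199 12 (.s k117 k69 3 (.d k247 k182 k166 8 12))))), (.s k12 k8 1
  (.s k150 k215 8 (.s k166 k247 12 (.s k89 k243 14 (.s k28 k211 10 (.d k60 k40 k44 5 3))))))] (.c
  k40 (.q k105 [(.s k65 k125 5 (.s k150 k215 8 (.d k195 k130 k60 8 14))), (.s k12 k8 1 (.s k36 k52 3
  (.s k24 k48 5 (.s k28 k16 1 (.s k166 k247 12 (.d k44 k60 k227 3 10))))))] (.c k60 (.l (.s k52 k36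
  3 (.s k150 k215 8 (.s k101 k199 12 (.s k117 k69 3 (.d k247 k182 k166 8 12)))))) .n)) (.c k105 (.l
  (.s k40 k60 5 (.s k12 k8 1 (.s k36 k52 3 (.s k32 k44 1 (.d k48 k16 k24 3 5)))))) .n)))

def s1_170_236 : T TT 256 :=
  (.q k4 [(.s k12 k8 1 (.s k36 k52 3 (.s k24 k48 5 (.s k28 k16 1 (.d k60 k44 k40 3 5))))), (.s k52
  k36 3 (.s k150 k215 8 (.s k101 k199 12 (.s k117 k69 3 (.d k247 k182 k166 8 12))))), (.s k12 k8 1
  (.s k60 k40 5 (.s k44 k28 3 (.s k150 k215 8 (.s k105 k195 14 (.d k166 k227 k247 10 12))))))] .n)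

def s1_170_237 : T TT 256 :=
  (.q k4 [(.s k36 k52 3 (.s k40 k60 5 (.s k32 k44 1 (.s k48 k16 3 (.d k12 k8 k24 1 5))))), (.s k52
  k36 3 (.s k150 k215 8 (.s k101 k199 12 (.s k117 k69 3 (.d k247 k182 k166 8 12))))), (.s k12 k8 1
  (.s k60 k40 5 (.s k44 k28 3 (.s k150 k215 8 (.s k105 k195 14 (.d k166 k227 k247 10 12))))))] .n)

def s1_170_238 : T TT 256 :=
  (.f k150 k215 8 (.q k102 [(.s k54 k198 11 (.s k60 k40 5 (.s k51 k57 2 (.s k17 k34 4 (.d k153 k221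
  k204 9 14))))), (.s k68 k119 4 (.s k204 k136 9 (.s k153 k51 14 (.s k156 k147 2 (.d k60 k40 k108 5
  11))))), (.s k68 k119 4 (.s k198 k54 11 (.s k204 k136 9 (.s k195 k201 2 (.s k65 k130 8 (.d k105
  k125 k60 5 14))))))] (.c k60 (.q k4 [(.s k52 k36 3 (.s k101 k199 12 (.s k117 k69 3 (.d k247 k182
  k166 8 12)))), (.s k52 k36 3 (.s k54 k198 11 (.s k55 k53 0 (.s k21 k38 4 (.d k149 k213 k196 7
  12))))), (.s k54 k198 11 (.s k166 k247 12 (.s k38 k230 7 (.s k21 k55 4 (.d k22 k23 k6 0 3)))))]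
  .n) (.c k153 (.l (.s k60 k40 5 (.s k68 k119 4 (.s k105 k195 14 (.s k108 k99 2 (.d k204 k136 k156 9
  11)))))) (.c k204 (.l (.s k54 k198 11 (.s k60 k40 5 (.s k51 k57 2 (.s k119 k68 4 (.s k255 k187 9
  (.s k125 k190 8 (.d k105 k195 k65 14 5)))))))) .n)))))

def s1_170_239 : T TT 256 :=
  (.q k101 [(.s k150 k215 8 (.s k52 k199 12 (.s k4 k36 3 (.s k247 k166 12 (.d k117 k69 k182 3
  8))))), (.s k60 k40 5 (.s k69 k117 3 (.s k207 k138 10 (.s k109 k158 12 (.s k105 k97 1 (.s k65 k125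
  5 (.d k195 k130 k150 8 14))))))), (.s k60 k40 5 (.s k150 k215 8 (.s k52 k199 12 (.s k48 k56 1 (.s
  k16 k32 3 (.d k154 k223 k207 10 14))))))] (.c k150 (.f k60 k40 5 (.f k69 k117 3 (.l (.s k207 k138
  10 (.s k109 k158 12 (.s k105 k97 1 (.s k65 k125 5 (.s k154 k48 14 (.s k203 k56 12 (.d k195 k199
  k130 1 8)))))))))) .n))

def s1_170_240 : T TT 256 :=
  (.q k4 [(.s k52 k36 3 (.s k150 k215 8 (.s k101 k199 12 (.s k117 k69 3 (.d k247 k182 k166 8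
  12))))), (.s k12 k8 1 (.s k36 k52 3 (.s k24 k48 5 (.s k28 k16 1 (.d k60 k44 k40 3 5))))), (.s k12
  k8 1 (.s k60 k40 5 (.s k44 k28 3 (.s k150 k215 8 (.s k105 k195 14 (.d k166 k227 k247 10 12))))))]
  .n)

def s1_170_241 : T TT 256 :=
  (.f k150 k215 8 (.q k81 [(.s k60 k40 5 (.s k89 k93 1 (.s k105 k195 14 (.s k243 k162 12 (.d k121
  k73 k182 3 10))))), (.s k60 k40 5 (.s k89 k93 1 (.s k28 k211 10 (.s k12 k44 3 (.s k4 k8 1 (.s k24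
  k16 1 (.d k36 k52 k48 3 5))))))), (.s k89 k93 1 (.s k211 k28 10 (.s k146 k16 8 (.s k243 k162 12
  (.s k195 k227 3 (.s k65 k130 8 (.d k97 k113 k48 3 12)))))))] (.c k89 (.f k60 k40 5 (.l (.s k105
  k195 14 (.s k125 k65 5 (.s k243 k162 12 (.s k182 k121 10 (.s k166 k134 3 (.s k247 k4 12 (.d k255
  k251 k190 1 8))))))))) (.c k93 (.l (.s k60 k40 5 (.s k243 k162 12 (.s k182 k121 10 (.s k166 k134 3
  (.s k4 k247 12 (.d k12 k8 k89 1 14))))))) .n))))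

def s1_170_242 : T TT 256 :=
  (.q k4 [(.s k36 k52 3 (.s k40 k60 5 (.s k32 k44 1 (.s k48 k16 3 (.d k12 k8 k24 1 5))))), (.s k52
  k36 3 (.s k150 k215 8 (.s k101 k199 12 (.s k117 k69 3 (.d k247 k182 k166 8 12))))), (.s k12 k8 1
  (.s k60 k40 5 (.s k44 k28 3 (.s k150 k215 8 (.s k105 k195 14 (.d k166 k227 k247 10 12))))))] .n)

def s1_170_243 : T TT 256 :=
  (.q k4 [(.s k52 k36 3 (.s k150 k215 8 (.s k101 k199 12 (.s k117 k69 3 (.d k247 k182 k166 8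
  12))))), (.s k12 k8 1 (.s k36 k52 3 (.s k24 k48 5 (.s k28 k16 1 (.d k60 k44 k40 3 5))))), (.s k12
  k8 1 (.s k60 k40 5 (.s k44 k28 3 (.s k150 k215 8 (.s k105 k195 14 (.d k166 k227 k247 10 12))))))]
  .n)

def s1_170_244 : T TT 256 :=
  (.q k4 [(.s k36 k52 3 (.s k40 k60 5 (.s k32 k44 1 (.s k48 k16 3 (.d k12 k8 k24 1 5))))), (.s k52
  k36 3 (.s k150 k215 8 (.s k101 k199 12 (.s k117 k69 3 (.d k247 k182 k166 8 12))))), (.s k12 k8 1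
  (.s k60 k40 5 (.s k44 k28 3 (.s k150 k215 8 (.s k105 k195 14 (.d k166 k227 k247 10 12))))))] .n)

def s1_170_245 : T TT 256 :=
  (.q k4 [(.s k36 k52 3 (.s k40 k60 5 (.s k32 k44 1 (.s k48 k16 3 (.d k12 k8 k24 1 5))))), (.s k52
  k36 3 (.s k150 k215 8 (.s k101 k199 12 (.s k117 k69 3 (.d k247 k182 k166 8 12))))), (.s k12 k8 1
  (.s k60 k40 5 (.s k44 k28 3 (.s k150 k215 8 (.s k105 k195 14 (.d k166 k227 k247 10 12))))))] .n)

def s1_170_246 : T TT 256 :=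
  (.q k4 [(.s k36 k52 3 (.s k40 k60 5 (.s k32 k44 1 (.s k48 k16 3 (.d k12 k8 k24 1 5))))), (.s k52
  k36 3 (.s k150 k215 8 (.s k101 k199 12 (.s k117 k69 3 (.d k247 k182 k166 8 12))))), (.s k12 k8 1
  (.s k60 k40 5 (.s k44 k28 3 (.s k150 k215 8 (.s k105 k195 14 (.d k166 k227 k247 10 12))))))] .n)

def s1_170_247 : T TT 256 :=
  (.q k16 [(.s k24 k28 1 (.s k40 k60 5 (.s k8 k56 3 (.s k12 k4 1 (.d k48 k32 k36 3 5))))), (.s k28
  k24 1 (.s k150 k215 8 (.s k89 k211 10 (.s k93 k81 1 (.d k223 k158 k154 8 10))))), (.s k48 k32 3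
  (.s k60 k40 5 (.s k56 k52 1 (.s k150 k215 8 (.s k105 k195 14 (.d k154 k223 k203 10 12))))))] .n)

def s1_170_248 : T TT 256 :=
  (.q k4 [(.s k36 k52 3 (.s k40 k60 5 (.s k32 k44 1 (.s k48 k16 3 (.d k12 k8 k24 1 5))))), (.s k52
  k36 3 (.s k150 k215 8 (.s k101 k199 12 (.s k117 k69 3 (.d k247 k182 k166 8 12))))), (.s k12 k8 1
  (.s k60 k40 5 (.s k44 k28 3 (.s k150 k215 8 (.s k105 k195 14 (.d k166 k227 k247 10 12))))))] .n)

def s1_170_249 : T TT 256 :=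
  (.q k4 [(.s k36 k52 3 (.s k40 k60 5 (.s k32 k44 1 (.s k48 k16 3 (.d k12 k8 k24 1 5))))), (.s k52
  k36 3 (.s k150 k215 8 (.s k101 k199 12 (.s k117 k69 3 (.d k247 k182 k166 8 12))))), (.s k12 k8 1
  (.s k60 k40 5 (.s k44 k28 3 (.s k150 k215 8 (.s k105 k195 14 (.d k166 k227 k247 10 12))))))] .n)

def s1_170_250 : T TT 256 :=
  (.f k150 k215 8 (.q k90 [(.s k30 k210 9 (.s k60 k40 5 (.s k15 k45 4 (.s k5 k10 2 (.d k165 k245
  k240 11 14))))), (.s k80 k95 2 (.s k240 k160 11 (.s k165 k15 14 (.s k180 k135 4 (.d k60 k40 k120 5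
  9))))), (.s k80 k95 2 (.s k210 k30 9 (.s k240 k160 11 (.s k195 k225 4 (.s k65 k130 8 (.d k105 k125
  k60 5 14))))))] (.c k60 (.q k4 [(.s k52 k36 3 (.s k101 k199 12 (.s k117 k69 3 (.d k247 k182 k166 8
  12)))), (.s k12 k8 1 (.s k80 k95 2 (.s k240 k160 11 (.s k88 k164 13 (.s k89 k91 0 (.s k81 k93 1
  (.d k243 k162 k166 12 14)))))))] (.c k166 (.l (.s k52 k36 3 (.s k80 k95 2 (.s k101 k199 12 (.s
  k112 k79 6 (.s k64 k96 3 (.s k117 k69 3 (.d k127 k122 k106 2 6)))))))) .n)) (.c k165 (.l (.s k60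
  k40 5 (.s k80 k95 2 (.s k105 k195 14 (.s k120 k75 4 (.d k240 k180 k160 9 11)))))) (.c k240 (.l (.s
  k30 k210 9 (.s k60 k40 5 (.s k15 k45 4 (.s k95 k80 2 (.s k255 k175 11 (.s k125 k190 8 (.d k105
  k195 k65 14 5)))))))) .n)))))

def s1_170_251 : T TT 256 :=
  (.q k4 [(.s k36 k52 3 (.s k40 k60 5 (.s k32 k44 1 (.s k48 k16 3 (.d k12 k8 k24 1 5))))), (.s k52
  k36 3 (.s k150 k215 8 (.s k101 k199 12 (.s k117 k69 3 (.d k247 k182 k166 8 12))))), (.s k60 k40 5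
  (.s k150 k215 8 (.s k105 k195 14 (.s k166 k247 12 (.s k44 k227 10 (.d k12 k8 k28 1 3))))))] (.c k8
  (.q k89 [(.s k81 k93 1 (.s k166 k247 12 (.d k243 k162 k12 12 14))), (.s k52 k36 3 (.s k150 k215 8
  (.s k101 k199 12 (.s k117 k69 3 (.d k247 k182 k166 8 12))))), (.s k93 k81 1 (.s k150 k215 8 (.s
  k28 k211 10 (.s k16 k24 1 (.d k223 k158 k154 8 10)))))] .n) (.c k89 (.l (.s k8 k12 1 (.s k52 k36 3
  (.s k150 k215 8 (.s k101 k199 12 (.s k117 k69 3 (.d k247 k166 k182 12 8))))))) .n)))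

def s1_170_252 : T TT 256 :=
  (.q k4 [(.s k52 k36 3 (.s k150 k215 8 (.s k101 k199 12 (.s k117 k69 3 (.d k247 k182 k166 8
  12))))), (.s k12 k8 1 (.s k36 k52 3 (.s k24 k48 5 (.s k28 k16 1 (.d k60 k44 k40 3 5))))), (.s k12
  k8 1 (.s k60 k40 5 (.s k44 k28 3 (.s k150 k215 8 (.s k105 k195 14 (.d k166 k227 k247 10 12))))))]
  .n)

def s1_170_253 : T TT 256 :=
  (.q k4 [(.s k36 k52 3 (.s k40 k60 5 (.s k32 k44 1 (.s k48 k16 3 (.d k12 k8 k24 1 5))))), (.s k52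
  k36 3 (.s k150 k215 8 (.s k101 k199 12 (.s k117 k69 3 (.d k247 k182 k166 8 12))))), (.s k12 k8 1
  (.s k60 k40 5 (.s k44 k28 3 (.s k150 k215 8 (.s k105 k195 14 (.d k166 k227 k247 10 12))))))] .n)

def s1_170_254 : T TT 256 :=
  (.q k86 [(.s k84 k87 0 (.s k212 k148 7 (.s k149 k23 8 (.s k213 k21 7 (.d k215 k214 k150 0 8))))),
  (.s k60 k40 5 (.s k84 k87 0 (.s k148 k212 7 (.s k104 k192 13 (.s k124 k64 5 (.d k252 k188 k168 7
  13)))))), (.s k60 k40 5 (.s k150 k215 8 (.s k22 k214 7 (.s k3 k41 6 (.s k105 k195 14 (.s k124 k67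
  6 (.d k252 k188 k169 7 14)))))))] (.c k212 (.l (.s k60 k40 5 (.s k84 k87 0 (.s k150 k215 8 (.s
  k105 k195 14 (.s k124 k67 6 (.d k252 k188 k168 7 13))))))) .n))

def s1_170_255 : T TT 256 :=
  (.q k4 [(.s k36 k52 3 (.s k40 k60 5 (.s k32 k44 1 (.s k48 k16 3 (.d k12 k8 k24 1 5))))), (.s k52
  k36 3 (.s k150 k215 8 (.s k101 k199 12 (.s k117 k69 3 (.d k247 k182 k166 8 12))))), (.s k12 k8 1
  (.s k60 k40 5 (.s k44 k28 3 (.s k150 k215 8 (.s k166 k247 12 (.d k105 k195 k227 14 10))))))] .n)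

def t1_170 : T TT 256 :=
  (.q k20 [] (.c k2 s1_170_2 (.c k3 s1_170_3 (.c k4 s1_170_4 (.c k5 s1_170_5 (.c k6 s1_170_6 (.c k7
  s1_170_7 (.c k8 s1_170_8 (.c k9 s1_170_9 (.c k10 s1_170_10 (.c k11 s1_170_11 (.c k12 s1_170_12 (.c
  k13 s1_170_13 (.c k14 s1_170_14 (.c k15 s1_170_15 (.c k16 s1_170_16 (.c k17 s1_170_17 (.c k18
  s1_170_18 (.c k19 s1_170_19 (.c k21 s1_170_21 (.c k22 s1_170_22 (.c k23 s1_170_23 (.c k24
  s1_170_24 (.c k25 s1_170_25 (.c k26 s1_170_26 (.c k27 s1_170_27 (.c k28 s1_170_28 (.c k29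
  s1_170_29 (.c k30 s1_170_30 (.c k31 s1_170_31 (.c k32 s1_170_32 (.c k33 s1_170_33 (.c k34
  s1_170_34 (.c k35 s1_170_35 (.c k36 s1_170_36 (.c k37 s1_170_37 (.c k38 s1_170_38 (.c k39
  s1_170_39 (.c k40 s1_170_40 (.c k41 s1_170_41 (.c k42 s1_170_42 (.c k43 s1_170_43 (.c k44
  s1_170_44 (.c k45 s1_170_45 (.c k46 s1_170_46 (.c k47 s1_170_47 (.c k48 s1_170_48 (.c k49
  s1_170_49 (.c k50 s1_170_50 (.c k51 s1_170_51 (.c k52 s1_170_52 (.c k53 s1_170_53 (.c k54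
  s1_170_54 (.c k55 s1_170_55 (.c k56 s1_170_56 (.c k57 s1_170_57 (.c k58 s1_170_58 (.c k59
  s1_170_59 (.c k60 s1_170_60 (.c k61 s1_170_61 (.c k62 s1_170_62 (.c k63 s1_170_63 (.c k64
  s1_170_64 (.c k65 s1_170_65 (.c k66 s1_170_66 (.c k67 s1_170_67 (.c k68 s1_170_68 (.c k69
  s1_170_69 (.c k70 s1_170_70 (.c k71 s1_170_71 (.c k72 s1_170_72 (.c k73 s1_170_73 (.c k74
  s1_170_74 (.c k75 s1_170_75 (.c k76 s1_170_76 (.c k77 s1_170_77 (.c k78 s1_170_78 (.c k79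
  s1_170_79 (.c k80 s1_170_80 (.c k81 s1_170_81 (.c k82 s1_170_82 (.c k83 s1_170_83 (.c k84
  s1_170_84 (.c k86 s1_170_86 (.c k87 s1_170_87 (.c k88 s1_170_88 (.c k89 s1_170_89 (.c k90
  s1_170_90 (.c k91 s1_170_91 (.c k92 s1_170_92 (.c k93 s1_170_93 (.c k94 s1_170_94 (.c k95
  s1_170_95 (.c k96 s1_170_96 (.c k97 s1_170_97 (.c k98 s1_170_98 (.c k99 s1_170_99 (.c k100
  s1_170_100 (.c k101 s1_170_101 (.c k102 s1_170_102 (.c k103 s1_170_103 (.c k104 s1_170_104 (.c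
  k105 s1_170_105 (.c k106 s1_170_106 (.c k107 s1_170_107 (.c k108 s1_170_108 (.c k109 s1_170_109
  (.c k110 s1_170_110 (.c k111 s1_170_111 (.c k112 s1_170_112 (.c k113 s1_170_113 (.c k114
  s1_170_114 (.c k115 s1_170_115 (.c k116 s1_170_116 (.c k117 s1_170_117 (.c k118 s1_170_118 (.c
  k119 s1_170_119 (.c k120 s1_170_120 (.c k121 s1_170_121 (.c k122 s1_170_122 (.c k123 s1_170_123
  (.c k124 s1_170_124 (.c k125 s1_170_125 (.c k126 s1_170_126 (.c k127 s1_170_127 (.c k128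
  s1_170_128 (.c k129 s1_170_129 (.c k130 s1_170_130 (.c k131 s1_170_131 (.c k132 s1_170_132 (.c
  k133 s1_170_133 (.c k134 s1_170_134 (.c k135 s1_170_135 (.c k136 s1_170_136 (.c k137 s1_170_137
  (.c k138 s1_170_138 (.c k139 s1_170_139 (.c k140 s1_170_140 (.c k141 s1_170_141 (.c k142
  s1_170_142 (.c k143 s1_170_143 (.c k144 s1_170_144 (.c k145 s1_170_145 (.c k146 s1_170_146 (.c
  k147 s1_170_147 (.c k148 s1_170_148 (.c k149 s1_170_149 (.c k150 s1_170_150 (.c k151 s1_170_151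
  (.c k152 s1_170_152 (.c k153 s1_170_153 (.c k154 s1_170_154 (.c k155 s1_170_155 (.c k156
  s1_170_156 (.c k157 s1_170_157 (.c k158 s1_170_158 (.c k159 s1_170_159 (.c k160 s1_170_160 (.c
  k161 s1_170_161 (.c k162 s1_170_162 (.c k163 s1_170_163 (.c k164 s1_170_164 (.c k165 s1_170_165
  (.c k166 s1_170_166 (.c k167 s1_170_167 (.c k168 s1_170_168 (.c k169 s1_170_169 (.c k171
  s1_170_171 (.c k172 s1_170_172 (.c k173 s1_170_173 (.c k174 s1_170_174 (.c k175 s1_170_175 (.c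
  k176 s1_170_176 (.c k177 s1_170_177 (.c k178 s1_170_178 (.c k179 s1_170_179 (.c k180 s1_170_180
  (.c k181 s1_170_181 (.c k182 s1_170_182 (.c k183 s1_170_183 (.c k184 s1_170_184 (.c k185
  s1_170_185 (.c k186 s1_170_186 (.c k187 s1_170_187 (.c k188 s1_170_188 (.c k189 s1_170_189 (.c
  k190 s1_170_190 (.c k191 s1_170_191 (.c k192 s1_170_192 (.c k193 s1_170_193 (.c k194 s1_170_194
  (.c k195 s1_170_195 (.c k196 s1_170_196 (.c k197 s1_170_197 (.c k198 s1_170_198 (.c k199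
  s1_170_199 (.c k200 s1_170_200 (.c k201 s1_170_201 (.c k202 s1_170_202 (.c k203 s1_170_203 (.c
  k204 s1_170_204 (.c k205 s1_170_205 (.c k206 s1_170_206 (.c k207 s1_170_207 (.c k208 s1_170_208
  (.c k209 s1_170_209 (.c k210 s1_170_210 (.c k211 s1_170_211 (.c k212 s1_170_212 (.c k213
  s1_170_213 (.c k214 s1_170_214 (.c k215 s1_170_215 (.c k216 s1_170_216 (.c k217 s1_170_217 (.c
  k218 s1_170_218 (.c k219 s1_170_219 (.c k220 s1_170_220 (.c k221 s1_170_221 (.c k222 s1_170_222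
  (.c k223 s1_170_223 (.c k224 s1_170_224 (.c k225 s1_170_225 (.c k226 s1_170_226 (.c k227
  s1_170_227 (.c k228 s1_170_228 (.c k229 s1_170_229 (.c k230 s1_170_230 (.c k231 s1_170_231 (.c
  k232 s1_170_232 (.c k233 s1_170_233 (.c k234 s1_170_234 (.c k235 s1_170_235 (.c k236 s1_170_236
  (.c k237 s1_170_237 (.c k238 s1_170_238 (.c k239 s1_170_239 (.c k240 s1_170_240 (.c k241
  s1_170_241 (.c k242 s1_170_242 (.c k243 s1_170_243 (.c k244 s1_170_244 (.c k245 s1_170_245 (.c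
  k246 s1_170_246 (.c k247 s1_170_247 (.c k248 s1_170_248 (.c k249 s1_170_249 (.c k250 s1_170_250
  (.c k251 s1_170_251 (.c k252 s1_170_252 (.c k253 s1_170_253 (.c k254 s1_170_254 (.c k255
  s1_170_255 .n))))))))))))))))))))))))))))))))))))))))))))))))))))))))))))))))))))))))))))))))
  ))))))))))))))))))))))))))))))))))))))))))))))))))))))))))))))))))))))))))))))))
  )))))))))))))))))))))))))))))))))))))))))))))))))))))))))))))))))))))))))))))))) ))))))))))))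

def s1_255_2 : T TT 256 :=
  (.q k4 [(.s k7 k6 0 (.s k247 k166 12 (.s k87 k167 11 (.s k86 k84 0 (.d k165 k245 k244 11 12))))),
  (.s k12 k8 1 (.s k15 k10 2 (.s k14 k13 0 (.s k166 k247 12 (.s k90 k242 13 (.s k80 k95 2 (.d k240
  k160 k165 11 14))))))), (.s k165 k245 11 (.s k166 k247 12 (.s k164 k167 0 (.s k244 k84 11 (.d k7
  k6 k86 0 12)))))] (.c k6 (.l (.s k12 k8 1 (.s k15 k10 2 (.s k14 k13 0 (.s k165 k245 11 (.s k166
  k247 12 (.d k90 k240 k242 14 13))))))) (.c k165 (.l (.s k6 k7 0 (.s k12 k8 1 (.s k3 k9 2 (.s k166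
  k247 12 (.s k86 k246 11 (.s k252 k169 14 (.d k84 k87 k168 0 13)))))))) (.c k166 (.l (.s k7 k6 0
  (.s k165 k245 11 (.s k86 k244 12 (.s k84 k87 0 (.s k252 k168 13 (.s k3 k169 14 (.d k15 k10 k11 2
  1)))))))) (.c k247 (.l (.s k7 k6 0 (.s k12 k8 1 (.s k165 k245 11 (.s k244 k86 12 (.s k164 k84 11
  (.s k240 k88 13 (.d k15 k10 k90 2 14)))))))) .n)))))

def s1_255_3 : T TT 256 :=
  (.f k15 k10 2 (.f k245 k165 11 (.q k21 [(.s k53 k37 3 (.s k117 k181 7 (.s k101 k69 3 (.d k149 k213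
  k197 7 11)))), (.s k37 k53 3 (.s k42 k63 6 (.s k32 k47 2 (.d k48 k16 k26 3 6)))), (.s k63 k42 6
  (.s k149 k213 7 (.s k192 k106 14 (.s k128 k64 7 (.s k133 k74 10 (.s k69 k197 7 (.d k138 k143 k207
  2 10)))))))] (.c k87 (.q k171 [(.s k53 k37 3 (.s k117 k181 7 (.s k101 k69 3 (.d k149 k213 k197 7
  11)))), (.s k37 k53 3 (.s k42 k63 6 (.s k32 k47 2 (.d k48 k16 k26 3 6)))), (.s k63 k42 6 (.s k149
  k213 7 (.s k192 k106 14 (.s k128 k64 7 (.s k133 k74 10 (.s k69 k197 7 (.d k138 k143 k207 2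
  10)))))))] .n) (.c k171 (.q k87 [(.s k53 k37 3 (.s k117 k181 7 (.s k101 k69 3 (.d k149 k213 k197 7
  11)))), (.s k37 k53 3 (.s k42 k63 6 (.s k32 k47 2 (.d k48 k16 k26 3 6)))), (.s k86 k84 0 (.s k149
  k213 7 (.s k23 k212 8 (.s k20 k22 0 (.d k215 k151 k150 7 8)))))] .n) .n)))))

def s1_255_4 : T TT 256 :=
  (.q k21 [(.s k15 k10 2 (.s k37 k53 3 (.s k26 k48 6 (.s k31 k16 2 (.d k63 k47 k42 3 6))))), (.s k53
  k37 3 (.s k149 k213 7 (.s k101 k197 11 (.s k117 k69 3 (.d k245 k181 k165 7 11))))), (.s k15 k10 2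
  (.s k63 k42 6 (.s k47 k31 3 (.s k149 k213 7 (.s k165 k245 11 (.d k106 k192 k224 14 10))))))] .n)

def s1_255_6 : T TT 256 :=
  (.q k21 [(.s k37 k53 3 (.s k42 k63 6 (.s k32 k47 2 (.s k48 k16 3 (.d k15 k10 k26 2 6))))), (.s k53
  k37 3 (.s k149 k213 7 (.s k101 k197 11 (.s k117 k69 3 (.d k245 k181 k165 7 11))))), (.s k15 k10 2
  (.s k63 k42 6 (.s k47 k31 3 (.s k149 k213 7 (.s k165 k245 11 (.d k106 k192 k224 14 10))))))] .n)

def s1_255_7 : T TT 256 :=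
  (.q k21 [(.s k15 k10 2 (.s k37 k53 3 (.s k26 k48 6 (.s k31 k16 2 (.d k63 k47 k42 3 6))))), (.s k53
  k37 3 (.s k149 k213 7 (.s k101 k197 11 (.s k117 k69 3 (.d k245 k181 k165 7 11))))), (.s k15 k10 2
  (.s k63 k42 6 (.s k47 k31 3 (.s k149 k213 7 (.s k165 k245 11 (.d k106 k192 k224 14 10))))))] .n)

def s1_255_8 : T TT 256 :=
  (.q k21 [(.s k37 k53 3 (.s k42 k63 6 (.s k32 k47 2 (.s k48 k16 3 (.d k15 k10 k26 2 6))))), (.s k53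
  k37 3 (.s k149 k213 7 (.s k101 k197 11 (.s k117 k69 3 (.d k245 k181 k165 7 11))))), (.s k15 k10 2
  (.s k63 k42 6 (.s k47 k31 3 (.s k149 k213 7 (.s k165 k245 11 (.d k106 k192 k224 14 10))))))] .n)

def s1_255_9 : T TT 256 :=
  (.q k21 [(.s k37 k53 3 (.s k42 k63 6 (.s k32 k47 2 (.s k48 k16 3 (.d k15 k10 k26 2 6))))), (.s k53
  k37 3 (.s k149 k213 7 (.s k101 k197 11 (.s k117 k69 3 (.d k245 k181 k165 7 11))))), (.s k15 k10 2
  (.s k63 k42 6 (.s k47 k31 3 (.s k149 k213 7 (.s k165 k245 11 (.d k106 k192 k224 14 10))))))] .n)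

def s1_255_10 : T TT 256 :=
  (.q k21 [(.s k53 k37 3 (.s k149 k213 7 (.s k101 k197 11 (.s k245 k165 11 (.d k117 k69 k181 3
  7))))), (.s k63 k42 6 (.s k149 k213 7 (.s k165 k245 11 (.s k181 k133 3 (.s k240 k122 10 (.s k80
  k160 11 (.d k90 k95 k15 2 14))))))), (.s k53 k37 3 (.s k63 k42 6 (.s k149 k213 7 (.s k101 k197 11
  (.s k69 k117 3 (.s k207 k138 10 (.d k48 k58 k154 2 14))))))), (.s k53 k37 3 (.s k245 k165 11 (.s
  k117 k181 7 (.s k101 k69 3 (.d k149 k213 k197 7 11)))))] (.c k149 (.q k4 [(.s k7 k6 0 (.s k55 k38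
  4 (.s k23 k39 3 (.s k22 k20 0 (.d k37 k53 k52 3 4))))), (.s k12 k8 1 (.s k38 k55 4 (.s k25 k51 6
  (.s k29 k17 1 (.d k63 k46 k42 4 6))))), (.s k7 k6 0 (.s k165 k245 11 (.s k86 k244 12 (.s k87 k84 0
  (.d k247 k167 k166 11 12)))))] .n) (.c k197 (.q k4 [(.s k7 k6 0 (.s k55 k38 4 (.s k23 k39 3 (.s
  k22 k20 0 (.d k37 k53 k52 3 4))))), (.s k12 k8 1 (.s k38 k55 4 (.s k25 k51 6 (.s k29 k17 1 (.d k63
  k46 k42 4 6))))), (.s k7 k6 0 (.s k165 k245 11 (.s k86 k244 12 (.s k87 k84 0 (.d k247 k167 k166 11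
  12)))))] .n) (.c k213 (.f k53 k37 3 (.f k245 k165 11 (.f k63 k42 6 (.f k117 k181 7 (.l (.s k101
  k69 3 (.s k149 k197 11 (.s k192 k106 14 (.s k128 k64 7 (.s k170 k191 6 (.s k32 k239 10 (.d k48 k58
  k16 2 3)))))))))))) (.c k229 (.l (.s k53 k37 3 (.s k149 k213 7 (.s k101 k197 11 (.s k245 k165 11
  (.d k117 k69 k181 3 7)))))) (.c k245 (.l (.s k53 k37 3 (.s k63 k42 6 (.s k149 k213 7 (.s k192 k106
  14 (.s k197 k101 11 (.s k69 k133 7 (.d k207 k202 k138 2 10)))))))) .n))))))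

def s1_255_11 : T TT 256 :=
  (.q k21 [(.s k37 k53 3 (.s k42 k63 6 (.s k32 k47 2 (.s k48 k16 3 (.d k15 k10 k26 2 6))))), (.s k53
  k37 3 (.s k149 k213 7 (.s k101 k197 11 (.s k117 k69 3 (.d k245 k181 k165 7 11))))), (.s k15 k10 2
  (.s k63 k42 6 (.s k47 k31 3 (.s k149 k213 7 (.s k165 k245 11 (.d k106 k192 k224 14 10))))))] .n)

def s1_255_12 : T TT 256 :=
  (.f k245 k165 11 (.f k15 k10 2 (.q k21 [(.s k53 k37 3 (.s k117 k181 7 (.s k101 k69 3 (.d k149 k213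
  k197 7 11)))), (.s k37 k53 3 (.s k42 k63 6 (.s k32 k47 2 (.d k48 k16 k26 3 6)))), (.s k63 k42 6
  (.s k149 k213 7 (.s k192 k106 14 (.s k128 k64 7 (.s k133 k74 10 (.s k69 k197 7 (.d k138 k143 k207
  2 10)))))))] (.c k93 (.q k174 [(.s k53 k37 3 (.s k117 k181 7 (.s k101 k69 3 (.d k149 k213 k197 7
  11)))), (.s k37 k53 3 (.s k42 k63 6 (.s k32 k47 2 (.d k48 k16 k26 3 6)))), (.s k63 k42 6 (.s k149
  k213 7 (.s k192 k106 14 (.s k128 k64 7 (.s k133 k74 10 (.s k69 k197 7 (.d k138 k143 k207 2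
  10)))))))] .n) (.c k174 (.q k93 [(.s k53 k37 3 (.s k117 k181 7 (.s k101 k69 3 (.d k149 k213 k197 7
  11)))), (.s k37 k53 3 (.s k42 k63 6 (.s k32 k47 2 (.d k48 k16 k26 3 6)))), (.s k89 k81 1 (.s k149
  k213 7 (.s k29 k209 9 (.s k17 k25 1 (.d k221 k157 k153 7 9)))))] .n) .n)))))

def s1_255_13 : T TT 256 :=
  (.q k21 [(.s k15 k10 2 (.s k37 k53 3 (.s k26 k48 6 (.s k31 k16 2 (.d k63 k47 k42 3 6))))), (.s k53
  k37 3 (.s k149 k213 7 (.s k101 k197 11 (.s k117 k69 3 (.d k245 k181 k165 7 11))))), (.s k15 k10 2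
  (.s k63 k42 6 (.s k47 k31 3 (.s k149 k213 7 (.s k165 k245 11 (.d k106 k192 k224 14 10))))))] .n)

def s1_255_14 : T TT 256 :=
  (.q k21 [(.s k37 k53 3 (.s k42 k63 6 (.s k32 k47 2 (.s k48 k16 3 (.d k15 k10 k26 2 6))))), (.s k53
  k37 3 (.s k149 k213 7 (.s k101 k197 11 (.s k117 k69 3 (.d k245 k181 k165 7 11))))), (.s k15 k10 2
  (.s k63 k42 6 (.s k47 k31 3 (.s k149 k213 7 (.s k165 k245 11 (.d k106 k192 k224 14 10))))))] .n)

def s1_255_15 : T TT 256 :=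
  (.q k101 [(.s k117 k69 3 (.s k245 k165 11 (.s k53 k181 7 (.s k149 k197 11 (.d k21 k37 k213 3
  7))))), (.s k69 k117 3 (.s k197 k133 7 (.s k149 k53 11 (.s k207 k138 10 (.s k192 k202 2 (.s k106
  k63 14 (.d k64 k127 k128 6 7)))))))] (.c k53 (.f k69 k117 3 (.l (.s k197 k133 7 (.s k207 k138 10
  (.s k48 k154 14 (.s k192 k202 2 (.s k96 k144 11 (.s k106 k111 2 (.d k64 k128 k127 7 6))))))))) (.c
  k69 (.q k205 [(.s k153 k49 13 (.s k17 k221 9 (.s k51 k34 4 (.s k204 k102 14 (.s k207 k206 0 (.s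
  k155 k103 13 (.d k154 k152 k48 0 14))))))), (.s k49 k153 13 (.s k165 k245 11 (.s k37 k229 7 (.s
  k13 k25 5 (.s k89 k241 13 (.d k77 k113 k141 5 7))))))] (.c k49 (.q k17 [(.s k51 k34 4 (.s k153
  k221 9 (.s k204 k102 14 (.s k207 k206 0 (.s k155 k103 13 (.d k154 k152 k48 0 14)))))), (.s k165
  k245 11 (.s k229 k37 7 (.s k241 k217 5 (.s k13 k89 13 (.s k141 k77 7 (.d k153 k177 k221 5 9))))))]
  (.c k48 (.l (.s k153 k221 9 (.s k165 k245 11 (.s k141 k177 5 (.s k13 k77 7 (.s k241 k89 13 (.d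
  k229 k217 k37 5 7))))))) (.c k95 (.q k175 [(.s k51 k34 4 (.s k153 k221 9 (.s k165 k245 11 (.s k170
  k160 2 (.s k136 k187 4 (.d k204 k68 k102 9 14)))))), (.s k165 k245 11 (.s k37 k229 7 (.s k21 k53 3
  (.s k42 k63 6 (.s k170 k160 2 (.d k32 k47 k239 2 10)))))), (.s k51 k34 4 (.s k153 k221 9 (.s k204
  k102 14 (.s k207 k206 0 (.s k154 k48 14 (.d k155 k152 k103 0 13))))))] (.c k170 (.l (.s k153 k221
  9 (.s k165 k245 11 (.s k141 k177 5 (.s k13 k77 7 (.s k229 k37 7 (.d k241 k217 k89 5 13))))))) .n))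
  (.c k153 (.f k51 k34 4 (.l (.s k165 k245 11 (.s k37 k229 7 (.s k21 k53 3 (.s k25 k29 1 (.s k12 k38
  6 (.s k8 k4 1 (.d k42 k59 k63 4 6))))))))) (.c k175 (.q k95 [(.s k51 k34 4 (.s k80 k90 2 (.s k153
  k221 9 (.s k165 k245 11 (.s k240 k160 11 (.d k177 k141 k114 5 8)))))), (.s k51 k34 4 (.s k153 k221
  9 (.s k204 k102 14 (.s k207 k206 0 (.s k154 k48 14 (.d k155 k152 k103 0 13)))))), (.s k153 k221 9
  (.s k165 k245 11 (.s k141 k177 5 (.s k13 k77 7 (.s k229 k37 7 (.d k241 k217 k89 5 13)))))), (.s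
  k51 k34 4 (.s k80 k90 2 (.s k165 k245 11 (.s k240 k160 11 (.s k177 k114 8 (.d k153 k141 k221 5
  9))))))] (.c k153 (.q k4 [(.s k7 k6 0 (.s k165 k245 11 (.s k86 k244 12 (.s k87 k84 0 (.d k247 k167
  k166 11 12))))), (.s k12 k8 1 (.s k51 k34 4 (.s k25 k38 6 (.s k21 k29 1 (.s k53 k37 3 (.d k149
  k213 k197 7 11))))))] .n) (.c k221 (.f k51 k34 4 (.l (.s k165 k245 11 (.s k37 k229 7 (.s k21 k53 3
  (.s k25 k29 1 (.s k12 k38 6 (.s k8 k4 1 (.d k42 k59 k63 4 6))))))))) .n))) (.c k221 (.f k51 k34 4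
  (.l (.s k165 k245 11 (.s k37 k229 7 (.s k21 k53 3 (.s k25 k29 1 (.s k12 k38 6 (.s k8 k4 1 (.d k42
  k59 k63 4 6))))))))) .n)))))) (.c k95 (.q k175 [(.s k153 k49 13 (.s k17 k221 9 (.s k51 k34 4 (.s
  k204 k102 14 (.s k136 k68 9 (.s k170 k187 4 (.d k165 k160 k245 2 11))))))), (.s k165 k245 11 (.s
  k37 k229 7 (.s k21 k53 3 (.s k42 k63 6 (.s k170 k160 2 (.d k32 k47 k239 2 10)))))), (.s k153 k49
  13 (.s k17 k221 9 (.s k51 k34 4 (.s k204 k102 14 (.s k207 k206 0 (.s k154 k48 14 (.d k155 k152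
  k103 0 13)))))))] (.c k170 (.l (.s k49 k153 13 (.s k165 k245 11 (.s k37 k229 7 (.s k13 k25 5 (.s
  k77 k141 7 (.d k89 k113 k241 5 13))))))) .n)) (.c k153 (.f k165 k245 11 (.f k229 k37 7 (.f k241
  k217 5 (.l (.s k89 k13 13 (.s k77 k113 5 (.s k81 k93 1 (.s k243 k162 12 (.s k12 k166 14 (.s k207
  k142 8 (.d k240 k242 k218 0 6))))))))))) (.c k175 (.q k95 [(.s k80 k90 2 (.s k153 k49 13 (.s k17
  k221 9 (.s k51 k34 4 (.s k165 k245 11 (.s k240 k160 11 (.d k177 k141 k114 5 8))))))), (.s k49 k153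
  13 (.s k165 k245 11 (.s k229 k37 7 (.s k241 k217 5 (.s k89 k13 13 (.d k113 k77 k177 5 7)))))), (.s
  k153 k49 13 (.s k17 k221 9 (.s k51 k34 4 (.s k204 k102 14 (.s k207 k206 0 (.s k154 k48 14 (.d k155
  k152 k103 0 13)))))))] (.c k49 (.f k80 k90 2 (.l (.s k165 k245 11 (.s k37 k229 7 (.s k21 k53 3 (.s
  k63 k42 6 (.s k240 k160 11 (.s k181 k122 10 (.d k149 k213 k133 7 3))))))))) (.c k153 (.q k4 [(.s
  k7 k6 0 (.s k165 k245 11 (.s k86 k244 12 (.s k87 k84 0 (.d k247 k167 k166 11 12))))), (.s k12 k8 1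
  (.s k166 k247 12 (.s k36 k231 8 (.s k48 k24 5 (.s k16 k32 3 (.d k154 k223 k207 10 14)))))), (.s k7
  k6 0 (.s k165 k245 11 (.s k37 k229 7 (.s k52 k22 4 (.s k20 k36 3 (.d k150 k215 k199 8 12))))))]
  .n) .n))) .n))))) (.c k95 (.q k175 [(.s k69 k117 3 (.s k207 k138 10 (.s k48 k154 14 (.s k32 k16 3
  (.s k170 k239 10 (.d k165 k160 k245 2 11)))))), (.s k117 k69 3 (.s k245 k165 11 (.s k53 k181 7 (.s
  k149 k197 11 (.d k21 k37 k213 3 7))))), (.s k165 k245 11 (.s k37 k229 7 (.s k170 k160 2 (.s k32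
  k239 10 (.s k42 k47 2 (.d k21 k63 k53 6 3))))))] (.c k165 (.l (.s k69 k117 3 (.s k197 k133 7 (.s
  k149 k53 11 (.s k21 k213 7 (.s k63 k42 6 (.s k192 k106 14 (.d k207 k202 k138 2 10)))))))) (.c k245
  (.l (.s k69 k117 3 (.s k197 k133 7 (.s k53 k149 11 (.s k21 k37 3 (.s k63 k42 6 (.s k48 k58 2 (.d
  k207 k138 k154 10 14)))))))) .n))) (.c k117 (.f k165 k245 11 (.f k37 k229 7 (.f k53 k21 3 (.f k197
  k149 11 (.f k69 k133 7 (.l (.s k207 k138 10 (.s k48 k154 14 (.s k32 k16 3 (.s k47 k42 2 (.s k63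
  k58 2 (.s k106 k224 10 (.d k111 k159 k96 11 2))))))))))))) (.c k133 (.l (.s k117 k69 3 (.s k245
  k165 11 (.s k53 k181 7 (.s k149 k197 11 (.d k21 k37 k213 3 7)))))) (.c k149 (.f k69 k117 3 (.l (.s
  k165 k245 11 (.s k37 k229 7 (.s k207 k138 10 (.s k48 k154 14 (.s k32 k16 3 (.s k42 k47 2 (.d k21
  k53 k63 3 6))))))))) (.c k175 (.q k95 [(.s k90 k80 2 (.s k79 k112 6 (.s k127 k111 3 (.s k64 k106 6
  (.d k69 k74 k117 2 3))))), (.s k69 k117 3 (.s k165 k245 11 (.s k37 k229 7 (.s k53 k21 3 (.d k197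
  k133 k149 7 11)))))] (.c k69 (.f k80 k90 2 (.l (.s k165 k245 11 (.s k37 k229 7 (.s k21 k53 3 (.s
  k63 k42 6 (.s k240 k160 11 (.s k181 k122 10 (.d k149 k213 k133 7 3))))))))) (.c k117 (.q k48 [(.s
  k16 k32 3 (.d k154 k223 k207 10 14)), (.s k32 k16 3 (.s k165 k245 11 (.s k37 k229 7 (.s k42 k47 2
  (.d k21 k53 k63 3 6))))), (.s k80 k90 2 (.s k154 k207 14 (.s k165 k245 11 (.s k240 k160 11 (.d
  k176 k143 k112 6 7)))))] .n) .n))) (.c k181 (.l (.s k69 k117 3 (.s k197 k133 7 (.s k53 k149 11 (.s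
  k165 k245 11 (.d k37 k21 k229 3 7)))))) (.c k197 (.f k117 k69 3 (.l (.s k245 k165 11 (.s k53 k181
  7 (.s k21 k37 3 (.s k63 k42 6 (.s k48 k58 2 (.s k154 k207 14 (.d k16 k32 k223 3 10))))))))) (.c
  k245 (.l (.s k69 k117 3 (.s k197 k133 7 (.s k53 k149 11 (.s k21 k37 3 (.s k63 k42 6 (.s k48 k58 2
  (.d k207 k138 k154 10 14)))))))) .n)))))))))))

def s1_255_16 : T TT 256 :=
  (.q k4 [(.s k7 k6 0 (.s k165 k245 11 (.s k86 k244 12 (.s k247 k166 12 (.d k87 k84 k167 0 11))))),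
  (.s k12 k8 1 (.s k15 k10 2 (.s k14 k13 0 (.s k166 k247 12 (.s k90 k242 13 (.s k80 k95 2 (.d k240
  k160 k165 11 14))))))), (.s k6 k7 0 (.s k12 k8 1 (.s k3 k9 2 (.s k166 k247 12 (.s k86 k246 11 (.s
  k252 k169 14 (.d k84 k87 k168 0 13))))))), (.s k7 k6 0 (.s k12 k8 1 (.s k15 k10 2 (.s k165 k245 11
  (.s k240 k90 14 (.s k164 k88 13 (.d k244 k84 k86 11 12)))))))] .n)

def s1_255_17 : T TT 256 :=
  (.f k15 k10 2 (.f k245 k165 11 (.q k21 [(.s k37 k53 3 (.s k26 k48 6 (.s k63 k42 6 (.d k31 k16 k47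
  2 3)))), (.s k53 k37 3 (.s k117 k181 7 (.s k101 k69 3 (.d k149 k213 k197 7 11)))), (.s k63 k42 6
  (.s k149 k213 7 (.s k192 k106 14 (.s k128 k64 7 (.s k133 k74 10 (.s k69 k197 7 (.d k138 k143 k207
  2 10)))))))] (.c k33 (.q k49 [(.s k37 k53 3 (.s k42 k63 6 (.s k32 k47 2 (.d k48 k16 k26 3 6)))),
  (.s k53 k37 3 (.s k117 k181 7 (.s k101 k69 3 (.d k149 k213 k197 7 11)))), (.s k63 k42 6 (.s k149
  k213 7 (.s k192 k106 14 (.s k128 k64 7 (.s k133 k74 10 (.s k69 k197 7 (.d k138 k143 k207 2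
  10)))))))] .n) (.c k49 (.q k33 [(.s k53 k37 3 (.s k117 k181 7 (.s k101 k69 3 (.d k149 k213 k197 7
  11)))), (.s k37 k53 3 (.s k42 k63 6 (.s k32 k47 2 (.d k48 k16 k26 3 6)))), (.s k63 k42 6 (.s k149
  k213 7 (.s k192 k106 14 (.s k128 k64 7 (.s k133 k74 10 (.s k69 k197 7 (.d k138 k143 k207 2
  10)))))))] .n) .n)))))

def s1_255_18 : T TT 256 :=
  (.q k4 [(.s k7 k6 0 (.s k247 k166 12 (.s k87 k167 11 (.s k86 k84 0 (.d k165 k245 k244 11 12))))),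
  (.s k12 k8 1 (.s k15 k10 2 (.s k14 k13 0 (.s k166 k247 12 (.s k90 k242 13 (.s k80 k95 2 (.d k240
  k160 k165 11 14))))))), (.s k7 k6 0 (.s k12 k8 1 (.s k15 k10 2 (.s k165 k245 11 (.s k240 k90 14
  (.s k164 k88 13 (.d k244 k84 k86 11 12)))))))] (.c k165 (.l (.s k6 k7 0 (.s k12 k8 1 (.s k3 k9 2
  (.s k166 k247 12 (.s k86 k246 11 (.s k252 k169 14 (.d k84 k87 k168 0 13)))))))) .n))

def s1_255_19 : T TT 256 :=
  (.q k4 [(.s k7 k6 0 (.s k247 k166 12 (.s k87 k167 11 (.s k86 k84 0 (.d k165 k245 k244 11 12))))),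
  (.s k12 k8 1 (.s k15 k10 2 (.s k14 k13 0 (.s k166 k247 12 (.s k90 k242 13 (.s k80 k95 2 (.d k240
  k160 k165 11 14))))))), (.s k7 k6 0 (.s k12 k8 1 (.s k15 k10 2 (.s k165 k245 11 (.s k240 k90 14
  (.s k164 k88 13 (.d k244 k84 k86 11 12)))))))] (.c k165 (.l (.s k6 k7 0 (.s k12 k8 1 (.s k3 k9 2
  (.s k166 k247 12 (.s k86 k246 11 (.s k252 k169 14 (.d k84 k87 k168 0 13)))))))) .n))

def s1_255_20 : T TT 256 :=
  (.q k4 [(.s k7 k6 0 (.s k165 k245 11 (.s k86 k244 12 (.s k247 k166 12 (.d k87 k84 k167 0 11))))),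
  (.s k12 k8 1 (.s k15 k10 2 (.s k14 k13 0 (.s k166 k247 12 (.s k90 k242 13 (.s k80 k95 2 (.d k240
  k160 k165 11 14))))))), (.s k6 k7 0 (.s k12 k8 1 (.s k3 k9 2 (.s k166 k247 12 (.s k86 k246 11 (.s
  k252 k169 14 (.d k84 k87 k168 0 13))))))), (.s k7 k6 0 (.s k12 k8 1 (.s k15 k10 2 (.s k165 k245 11
  (.s k240 k90 14 (.s k164 k88 13 (.d k244 k84 k86 11 12)))))))] .n)

def s1_255_21 : T TT 256 :=
  (.f k15 k10 2 (.q k69 [(.s k133 k197 7 (.s k74 k192 10 (.s k79 k64 2 (.d k207 k143 k138 7 10)))),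
  (.s k101 k117 3 (.s k165 k245 11 (.s k37 k229 7 (.s k48 k26 6 (.d k207 k138 k154 10 14))))), (.s
  k101 k117 3 (.s k165 k245 11 (.s k207 k138 10 (.s k48 k154 14 (.d k37 k26 k229 6 7)))))] (.c k41
  (.q k61 [(.s k133 k197 7 (.s k74 k192 10 (.s k79 k64 2 (.d k207 k143 k138 7 10)))), (.s k101 k117
  3 (.s k165 k245 11 (.s k37 k229 7 (.s k48 k26 6 (.d k207 k138 k154 10 14))))), (.s k101 k117 3 (.s
  k165 k245 11 (.s k207 k138 10 (.s k48 k154 14 (.d k37 k26 k229 6 7)))))] (.c k138 (.l (.s k101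
  k117 3 (.s k133 k197 7 (.s k74 k192 10 (.s k79 k64 2 (.s k90 k112 6 (.d k165 k245 k240 11
  14))))))) (.c k207 (.l (.s k133 k197 7 (.s k165 k245 11 (.s k149 k181 3 (.s k192 k74 10 (.s k64
  k128 7 (.d k106 k127 k63 6 14))))))) .n))) (.c k61 (.q k41 [(.s k133 k197 7 (.s k74 k192 10 (.s
  k79 k64 2 (.d k207 k143 k138 7 10)))), (.s k101 k117 3 (.s k165 k245 11 (.s k37 k229 7 (.s k48 k26
  6 (.d k207 k138 k154 10 14))))), (.s k101 k117 3 (.s k165 k245 11 (.s k207 k138 10 (.s k48 k154 14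
  (.d k37 k26 k229 6 7)))))] (.c k138 (.l (.s k101 k117 3 (.s k133 k197 7 (.s k74 k192 10 (.s k79
  k64 2 (.s k90 k112 6 (.d k165 k245 k240 11 14))))))) (.c k207 (.l (.s k133 k197 7 (.s k165 k245 11
  (.s k149 k181 3 (.s k192 k74 10 (.s k64 k128 7 (.d k106 k127 k63 6 14))))))) .n))) (.c k138 (.l
  (.s k101 k117 3 (.s k133 k197 7 (.s k74 k192 10 (.s k79 k64 2 (.s k90 k112 6 (.d k165 k245 k240 11
  14))))))) (.c k207 (.l (.s k133 k197 7 (.s k165 k245 11 (.s k149 k181 3 (.s k192 k74 10 (.s k64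
  k128 7 (.d k106 k127 k63 6 14))))))) .n))))))

def s1_255_22 : T TT 256 :=
  (.q k4 [(.s k7 k6 0 (.s k247 k166 12 (.s k87 k167 11 (.s k86 k84 0 (.d k165 k245 k244 11 12))))),
  (.s k12 k8 1 (.s k15 k10 2 (.s k14 k13 0 (.s k166 k247 12 (.s k90 k242 13 (.s k80 k95 2 (.d k240
  k160 k165 11 14))))))), (.s k7 k6 0 (.s k12 k8 1 (.s k15 k10 2 (.s k165 k245 11 (.s k240 k90 14
  (.s k164 k88 13 (.d k244 k84 k86 11 12)))))))] (.c k165 (.l (.s k6 k7 0 (.s k12 k8 1 (.s k3 k9 2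
  (.s k166 k247 12 (.s k86 k246 11 (.s k252 k169 14 (.d k84 k87 k168 0 13)))))))) .n))

def s1_255_23 : T TT 256 :=
  (.q k4 [(.s k7 k6 0 (.s k247 k166 12 (.s k87 k167 11 (.s k86 k84 0 (.d k165 k245 k244 11 12))))),
  (.s k12 k8 1 (.s k15 k10 2 (.s k14 k13 0 (.s k166 k247 12 (.s k90 k242 13 (.s k80 k95 2 (.d k240
  k160 k165 11 14))))))), (.s k7 k6 0 (.s k12 k8 1 (.s k15 k10 2 (.s k165 k245 11 (.s k240 k90 14
  (.s k164 k88 13 (.d k244 k84 k86 11 12)))))))] (.c k165 (.l (.s k6 k7 0 (.s k12 k8 1 (.s k3 k9 2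
  (.s k166 k247 12 (.s k86 k246 11 (.s k252 k169 14 (.d k84 k87 k168 0 13)))))))) .n))

def s1_255_24 : T TT 256 :=
  (.q k4 [(.s k7 k6 0 (.s k247 k166 12 (.s k87 k167 11 (.s k86 k84 0 (.d k165 k245 k244 11 12))))),
  (.s k12 k8 1 (.s k15 k10 2 (.s k14 k13 0 (.s k166 k247 12 (.s k90 k242 13 (.s k80 k95 2 (.d k240
  k160 k165 11 14))))))), (.s k7 k6 0 (.s k12 k8 1 (.s k15 k10 2 (.s k165 k245 11 (.s k240 k90 14
  (.s k164 k88 13 (.d k244 k84 k86 11 12)))))))] (.c k165 (.l (.s k6 k7 0 (.s k12 k8 1 (.s k3 k9 2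
  (.s k166 k247 12 (.s k86 k246 11 (.s k252 k169 14 (.d k84 k87 k168 0 13)))))))) .n))

def s1_255_25 : T TT 256 :=
  (.q k4 [(.s k7 k6 0 (.s k247 k166 12 (.s k87 k167 11 (.s k86 k84 0 (.d k165 k245 k244 11 12))))),
  (.s k12 k8 1 (.s k15 k10 2 (.s k14 k13 0 (.s k166 k247 12 (.s k90 k242 13 (.s k80 k95 2 (.d k240
  k160 k165 11 14))))))), (.s k7 k6 0 (.s k12 k8 1 (.s k15 k10 2 (.s k165 k245 11 (.s k240 k90 14
  (.s k164 k88 13 (.d k244 k84 k86 11 12)))))))] (.c k165 (.l (.s k6 k7 0 (.s k12 k8 1 (.s k3 k9 2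
  (.s k166 k247 12 (.s k86 k246 11 (.s k252 k169 14 (.d k84 k87 k168 0 13)))))))) .n))

def s1_255_26 : T TT 256 :=
  (.q k4 [(.s k7 k6 0 (.s k247 k166 12 (.s k87 k167 11 (.s k86 k84 0 (.d k165 k245 k244 11 12))))),
  (.s k12 k8 1 (.s k15 k10 2 (.s k14 k13 0 (.s k166 k247 12 (.s k90 k242 13 (.s k80 k95 2 (.d k240
  k160 k165 11 14))))))), (.s k7 k6 0 (.s k12 k8 1 (.s k15 k10 2 (.s k165 k245 11 (.s k240 k90 14
  (.s k164 k88 13 (.d k244 k84 k86 11 12)))))))] (.c k165 (.l (.s k6 k7 0 (.s k12 k8 1 (.s k3 k9 2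
  (.s k166 k247 12 (.s k86 k246 11 (.s k252 k169 14 (.d k84 k87 k168 0 13)))))))) .n))

def s1_255_27 : T TT 256 :=
  (.q k4 [(.s k7 k6 0 (.s k247 k166 12 (.s k87 k167 11 (.s k86 k84 0 (.d k165 k245 k244 11 12))))),
  (.s k12 k8 1 (.s k15 k10 2 (.s k14 k13 0 (.s k166 k247 12 (.s k90 k242 13 (.s k80 k95 2 (.d k240
  k160 k165 11 14))))))), (.s k7 k6 0 (.s k12 k8 1 (.s k15 k10 2 (.s k165 k245 11 (.s k240 k90 14
  (.s k164 k88 13 (.d k244 k84 k86 11 12)))))))] (.c k165 (.l (.s k6 k7 0 (.s k12 k8 1 (.s k3 k9 2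
  (.s k166 k247 12 (.s k86 k246 11 (.s k252 k169 14 (.d k84 k87 k168 0 13)))))))) .n))

def s1_255_28 : T TT 256 :=
  (.q k4 [(.s k7 k6 0 (.s k247 k166 12 (.s k87 k167 11 (.s k86 k84 0 (.d k165 k245 k244 11 12))))),
  (.s k12 k8 1 (.s k15 k10 2 (.s k14 k13 0 (.s k166 k247 12 (.s k90 k242 13 (.s k80 k95 2 (.d k240
  k160 k165 11 14))))))), (.s k7 k6 0 (.s k12 k8 1 (.s k15 k10 2 (.s k165 k245 11 (.s k240 k90 14
  (.s k164 k88 13 (.d k244 k84 k86 11 12)))))))] (.c k165 (.l (.s k6 k7 0 (.s k12 k8 1 (.s k3 k9 2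
  (.s k166 k247 12 (.s k86 k246 11 (.s k252 k169 14 (.d k84 k87 k168 0 13)))))))) .n))

def s1_255_29 : T TT 256 :=
  (.q k4 [(.s k7 k6 0 (.s k247 k166 12 (.s k87 k167 11 (.s k86 k84 0 (.d k165 k245 k244 11 12))))),
  (.s k12 k8 1 (.s k15 k10 2 (.s k14 k13 0 (.s k166 k247 12 (.s k90 k242 13 (.s k80 k95 2 (.d k240
  k160 k165 11 14))))))), (.s k7 k6 0 (.s k12 k8 1 (.s k15 k10 2 (.s k165 k245 11 (.s k240 k90 14
  (.s k164 k88 13 (.d k244 k84 k86 11 12)))))))] (.c k165 (.l (.s k6 k7 0 (.s k12 k8 1 (.s k3 k9 2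
  (.s k166 k247 12 (.s k86 k246 11 (.s k252 k169 14 (.d k84 k87 k168 0 13)))))))) .n))

def s1_255_30 : T TT 256 :=
  (.q k4 [(.s k7 k6 0 (.s k247 k166 12 (.s k87 k167 11 (.s k86 k84 0 (.d k165 k245 k244 11 12))))),
  (.s k12 k8 1 (.s k15 k10 2 (.s k14 k13 0 (.s k166 k247 12 (.s k90 k242 13 (.s k80 k95 2 (.d k240
  k160 k165 11 14))))))), (.s k7 k6 0 (.s k12 k8 1 (.s k15 k10 2 (.s k165 k245 11 (.s k240 k90 14
  (.s k164 k88 13 (.d k244 k84 k86 11 12)))))))] (.c k165 (.l (.s k6 k7 0 (.s k12 k8 1 (.s k3 k9 2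
  (.s k166 k247 12 (.s k86 k246 11 (.s k252 k169 14 (.d k84 k87 k168 0 13)))))))) .n))

def s1_255_31 : T TT 256 :=
  (.q k4 [(.s k7 k6 0 (.s k247 k166 12 (.s k87 k167 11 (.s k86 k84 0 (.d k165 k245 k244 11 12))))),
  (.s k12 k8 1 (.s k15 k10 2 (.s k14 k13 0 (.s k166 k247 12 (.s k90 k242 13 (.s k80 k95 2 (.d k240
  k160 k165 11 14))))))), (.s k7 k6 0 (.s k12 k8 1 (.s k15 k10 2 (.s k165 k245 11 (.s k240 k90 14
  (.s k164 k88 13 (.d k244 k84 k86 11 12)))))))] (.c k165 (.l (.s k6 k7 0 (.s k12 k8 1 (.s k3 k9 2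
  (.s k166 k247 12 (.s k86 k246 11 (.s k252 k169 14 (.d k84 k87 k168 0 13)))))))) .n))

def s1_255_32 : T TT 256 :=
  (.q k4 [(.s k7 k6 0 (.s k247 k166 12 (.s k87 k167 11 (.s k86 k84 0 (.d k165 k245 k244 11 12))))),
  (.s k12 k8 1 (.s k15 k10 2 (.s k14 k13 0 (.s k166 k247 12 (.s k90 k242 13 (.s k80 k95 2 (.d k240
  k160 k165 11 14))))))), (.s k7 k6 0 (.s k12 k8 1 (.s k15 k10 2 (.s k165 k245 11 (.s k240 k90 14
  (.s k164 k88 13 (.d k244 k84 k86 11 12)))))))] (.c k165 (.l (.s k6 k7 0 (.s k12 k8 1 (.s k3 k9 2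
  (.s k166 k247 12 (.s k86 k246 11 (.s k252 k169 14 (.d k84 k87 k168 0 13)))))))) .n))

def s1_255_33 : T TT 256 :=
  (.f k245 k165 11 (.f k15 k10 2 (.q k21 [(.s k37 k53 3 (.s k26 k48 6 (.s k31 k16 2 (.d k63 k47 k42
  3 6)))), (.s k53 k37 3 (.s k117 k181 7 (.s k101 k69 3 (.d k149 k213 k197 7 11)))), (.s k63 k42 6
  (.s k149 k213 7 (.s k192 k106 14 (.s k128 k64 7 (.s k133 k74 10 (.s k69 k197 7 (.d k138 k143 k207
  2 10)))))))] (.c k17 (.q k49 [(.s k37 k53 3 (.s k42 k63 6 (.s k32 k47 2 (.d k48 k16 k26 3 6)))),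
  (.s k53 k37 3 (.s k117 k181 7 (.s k101 k69 3 (.d k149 k213 k197 7 11)))), (.s k63 k42 6 (.s k149
  k213 7 (.s k192 k106 14 (.s k128 k64 7 (.s k133 k74 10 (.s k69 k197 7 (.d k138 k143 k207 2
  10)))))))] .n) (.c k49 (.q k17 [(.s k25 k29 1 (.s k42 k63 6 (.s k8 k59 4 (.s k12 k4 1 (.d k51 k34
  k38 4 6))))), (.s k53 k37 3 (.s k117 k181 7 (.s k101 k69 3 (.d k149 k213 k197 7 11))))] (.c k25
  (.l (.s k37 k53 3 (.s k26 k48 6 (.s k31 k16 2 (.d k63 k47 k42 3 6))))) .n)) .n)))))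

def s1_255_34 : T TT 256 :=
  (.q k4 [(.s k7 k6 0 (.s k247 k166 12 (.s k87 k167 11 (.s k86 k84 0 (.d k165 k245 k244 11 12))))),
  (.s k12 k8 1 (.s k15 k10 2 (.s k14 k13 0 (.s k166 k247 12 (.s k90 k242 13 (.s k80 k95 2 (.d k240
  k160 k165 11 14))))))), (.s k7 k6 0 (.s k12 k8 1 (.s k15 k10 2 (.s k165 k245 11 (.s k240 k90 14
  (.s k164 k88 13 (.d k244 k84 k86 11 12)))))))] (.c k165 (.l (.s k6 k7 0 (.s k12 k8 1 (.s k3 k9 2
  (.s k166 k247 12 (.s k86 k246 11 (.s k252 k169 14 (.d k84 k87 k168 0 13)))))))) .n))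

def s1_255_35 : T TT 256 :=
  (.q k4 [(.s k7 k6 0 (.s k247 k166 12 (.s k87 k167 11 (.s k86 k84 0 (.d k165 k245 k244 11 12))))),
  (.s k12 k8 1 (.s k15 k10 2 (.s k14 k13 0 (.s k166 k247 12 (.s k90 k242 13 (.s k80 k95 2 (.d k240
  k160 k165 11 14))))))), (.s k7 k6 0 (.s k12 k8 1 (.s k15 k10 2 (.s k165 k245 11 (.s k240 k90 14
  (.s k164 k88 13 (.d k244 k84 k86 11 12)))))))] (.c k165 (.l (.s k6 k7 0 (.s k12 k8 1 (.s k3 k9 2
  (.s k166 k247 12 (.s k86 k246 11 (.s k252 k169 14 (.d k84 k87 k168 0 13)))))))) .n))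

def s1_255_36 : T TT 256 :=
  (.q k4 [(.s k7 k6 0 (.s k165 k245 11 (.s k86 k244 12 (.s k87 k84 0 (.d k247 k167 k166 11 12))))),
  (.s k12 k8 1 (.s k15 k10 2 (.s k14 k13 0 (.s k166 k247 12 (.s k90 k242 13 (.s k80 k95 2 (.d k240
  k160 k165 11 14))))))), (.s k6 k7 0 (.s k12 k8 1 (.s k3 k9 2 (.s k166 k247 12 (.s k86 k246 11 (.s
  k252 k169 14 (.d k84 k87 k168 0 13))))))), (.s k7 k6 0 (.s k12 k8 1 (.s k15 k10 2 (.s k165 k245 11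
  (.s k240 k90 14 (.s k164 k88 13 (.d k244 k84 k86 11 12)))))))] .n)

def s1_255_37 : T TT 256 :=
  (.q k4 [(.s k7 k6 0 (.s k247 k166 12 (.s k87 k167 11 (.s k86 k84 0 (.d k165 k245 k244 11 12))))),
  (.s k12 k8 1 (.s k15 k10 2 (.s k14 k13 0 (.s k166 k247 12 (.s k90 k242 13 (.s k80 k95 2 (.d k240
  k160 k165 11 14))))))), (.s k7 k6 0 (.s k12 k8 1 (.s k15 k10 2 (.s k165 k245 11 (.s k240 k90 14
  (.s k164 k88 13 (.d k244 k84 k86 11 12)))))))] (.c k165 (.l (.s k6 k7 0 (.s k12 k8 1 (.s k3 k9 2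
  (.s k166 k247 12 (.s k86 k246 11 (.s k252 k169 14 (.d k84 k87 k168 0 13)))))))) .n))

def s1_255_38 : T TT 256 :=
  (.q k4 [(.s k7 k6 0 (.s k165 k245 11 (.s k86 k244 12 (.s k87 k84 0 (.d k247 k167 k166 11 12))))),
  (.s k12 k8 1 (.s k15 k10 2 (.s k14 k13 0 (.s k166 k247 12 (.s k90 k242 13 (.s k80 k95 2 (.d k240
  k160 k165 11 14))))))), (.s k6 k7 0 (.s k12 k8 1 (.s k3 k9 2 (.s k166 k247 12 (.s k86 k246 11 (.s
  k252 k169 14 (.d k84 k87 k168 0 13))))))), (.s k7 k6 0 (.s k12 k8 1 (.s k15 k10 2 (.s k165 k245 11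
  (.s k240 k90 14 (.s k164 k88 13 (.d k244 k84 k86 11 12)))))))] .n)

def s1_255_39 : T TT 256 :=
  (.q k4 [(.s k7 k6 0 (.s k165 k245 11 (.s k86 k244 12 (.s k87 k84 0 (.d k247 k167 k166 11 12))))),
  (.s k12 k8 1 (.s k15 k10 2 (.s k14 k13 0 (.s k166 k247 12 (.s k90 k242 13 (.s k80 k95 2 (.d k240
  k160 k165 11 14))))))), (.s k6 k7 0 (.s k12 k8 1 (.s k3 k9 2 (.s k166 k247 12 (.s k86 k246 11 (.s
  k252 k169 14 (.d k84 k87 k168 0 13))))))), (.s k7 k6 0 (.s k12 k8 1 (.s k15 k10 2 (.s k165 k245 11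
  (.s k240 k90 14 (.s k164 k88 13 (.d k244 k84 k86 11 12)))))))] .n)

def s1_255_40 : T TT 256 :=
  (.q k4 [(.s k7 k6 0 (.s k247 k166 12 (.s k87 k167 11 (.s k86 k84 0 (.d k165 k245 k244 11 12))))),
  (.s k12 k8 1 (.s k15 k10 2 (.s k14 k13 0 (.s k166 k247 12 (.s k90 k242 13 (.s k80 k95 2 (.d k240
  k160 k165 11 14))))))), (.s k7 k6 0 (.s k12 k8 1 (.s k15 k10 2 (.s k165 k245 11 (.s k240 k90 14
  (.s k164 k88 13 (.d k244 k84 k86 11 12)))))))] (.c k165 (.l (.s k6 k7 0 (.s k12 k8 1 (.s k3 k9 2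
  (.s k166 k247 12 (.s k86 k246 11 (.s k252 k169 14 (.d k84 k87 k168 0 13)))))))) .n))

def s1_255_41 : T TT 256 :=
  (.q k21 [(.s k15 k10 2 (.s k37 k53 3 (.s k26 k48 6 (.s k31 k16 2 (.d k63 k47 k42 3 6))))), (.s k53
  k37 3 (.s k149 k213 7 (.s k101 k197 11 (.s k117 k69 3 (.d k245 k181 k165 7 11))))), (.s k15 k10 2
  (.s k63 k42 6 (.s k47 k31 3 (.s k149 k213 7 (.s k165 k245 11 (.d k106 k192 k224 14 10))))))] .n)

def s1_255_42 : T TT 256 :=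
  (.q k4 [(.s k7 k6 0 (.s k247 k166 12 (.s k87 k167 11 (.s k86 k84 0 (.d k165 k245 k244 11 12))))),
  (.s k12 k8 1 (.s k15 k10 2 (.s k14 k13 0 (.s k166 k247 12 (.s k90 k242 13 (.s k80 k95 2 (.d k240
  k160 k165 11 14))))))), (.s k7 k6 0 (.s k12 k8 1 (.s k15 k10 2 (.s k165 k245 11 (.s k240 k90 14
  (.s k164 k88 13 (.d k244 k84 k86 11 12)))))))] (.c k165 (.l (.s k6 k7 0 (.s k12 k8 1 (.s k3 k9 2
  (.s k166 k247 12 (.s k86 k246 11 (.s k252 k169 14 (.d k84 k87 k168 0 13)))))))) .n))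

def s1_255_43 : T TT 256 :=
  (.q k4 [(.s k7 k6 0 (.s k247 k166 12 (.s k87 k167 11 (.s k86 k84 0 (.d k165 k245 k244 11 12))))),
  (.s k12 k8 1 (.s k15 k10 2 (.s k14 k13 0 (.s k166 k247 12 (.s k90 k242 13 (.s k80 k95 2 (.d k240
  k160 k165 11 14))))))), (.s k7 k6 0 (.s k12 k8 1 (.s k15 k10 2 (.s k165 k245 11 (.s k240 k90 14
  (.s k164 k88 13 (.d k244 k84 k86 11 12)))))))] (.c k165 (.l (.s k6 k7 0 (.s k12 k8 1 (.s k3 k9 2
  (.s k166 k247 12 (.s k86 k246 11 (.s k252 k169 14 (.d k84 k87 k168 0 13)))))))) .n))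

def s1_255_44 : T TT 256 :=
  (.q k4 [(.s k7 k6 0 (.s k165 k245 11 (.s k86 k244 12 (.s k87 k84 0 (.d k247 k167 k166 11 12))))),
  (.s k12 k8 1 (.s k15 k10 2 (.s k14 k13 0 (.s k166 k247 12 (.s k90 k242 13 (.s k80 k95 2 (.d k240
  k160 k165 11 14))))))), (.s k6 k7 0 (.s k12 k8 1 (.s k3 k9 2 (.s k166 k247 12 (.s k86 k246 11 (.s
  k252 k169 14 (.d k84 k87 k168 0 13))))))), (.s k7 k6 0 (.s k12 k8 1 (.s k15 k10 2 (.s k165 k245 11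
  (.s k240 k90 14 (.s k164 k88 13 (.d k244 k84 k86 11 12)))))))] .n)

def s1_255_45 : T TT 256 :=
  (.q k4 [(.s k7 k6 0 (.s k247 k166 12 (.s k87 k167 11 (.s k86 k84 0 (.d k165 k245 k244 11 12))))),
  (.s k12 k8 1 (.s k15 k10 2 (.s k14 k13 0 (.s k166 k247 12 (.s k90 k242 13 (.s k80 k95 2 (.d k240
  k160 k165 11 14))))))), (.s k7 k6 0 (.s k12 k8 1 (.s k15 k10 2 (.s k165 k245 11 (.s k240 k90 14
  (.s k164 k88 13 (.d k244 k84 k86 11 12)))))))] (.c k165 (.l (.s k6 k7 0 (.s k12 k8 1 (.s k3 k9 2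
  (.s k166 k247 12 (.s k86 k246 11 (.s k252 k169 14 (.d k84 k87 k168 0 13)))))))) .n))

def s1_255_46 : T TT 256 :=
  (.q k4 [(.s k7 k6 0 (.s k165 k245 11 (.s k86 k244 12 (.s k87 k84 0 (.d k247 k167 k166 11 12))))),
  (.s k12 k8 1 (.s k15 k10 2 (.s k14 k13 0 (.s k166 k247 12 (.s k90 k242 13 (.s k80 k95 2 (.d k240
  k160 k165 11 14))))))), (.s k6 k7 0 (.s k12 k8 1 (.s k3 k9 2 (.s k166 k247 12 (.s k86 k246 11 (.s
  k252 k169 14 (.d k84 k87 k168 0 13))))))), (.s k7 k6 0 (.s k12 k8 1 (.s k15 k10 2 (.s k165 k245 11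
  (.s k240 k90 14 (.s k164 k88 13 (.d k244 k84 k86 11 12)))))))] .n)

def s1_255_47 : T TT 256 :=
  (.q k4 [(.s k7 k6 0 (.s k165 k245 11 (.s k86 k244 12 (.s k87 k84 0 (.d k247 k167 k166 11 12))))),
  (.s k12 k8 1 (.s k15 k10 2 (.s k14 k13 0 (.s k166 k247 12 (.s k90 k242 13 (.s k80 k95 2 (.d k240
  k160 k165 11 14))))))), (.s k6 k7 0 (.s k12 k8 1 (.s k3 k9 2 (.s k166 k247 12 (.s k86 k246 11 (.s
  k252 k169 14 (.d k84 k87 k168 0 13))))))), (.s k7 k6 0 (.s k12 k8 1 (.s k15 k10 2 (.s k165 k245 11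
  (.s k240 k90 14 (.s k164 k88 13 (.d k244 k84 k86 11 12)))))))] .n)

def s1_255_48 : T TT 256 :=
  (.q k69 [(.s k197 k133 7 (.s k245 k165 11 (.s k213 k229 3 (.s k149 k21 7 (.d k101 k117 k53 3
  11))))), (.s k15 k10 2 (.s k133 k197 7 (.s k74 k192 10 (.s k79 k64 2 (.d k207 k143 k138 7 10))))),
  (.s k15 k10 2 (.s k165 k245 11 (.s k207 k138 10 (.s k240 k90 14 (.s k229 k218 6 (.d k101 k117 k37
  3 7))))))] (.c k117 (.q k186 [(.s k15 k10 2 (.s k133 k197 7 (.s k74 k192 10 (.s k79 k64 2 (.d k207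
  k143 k138 7 10))))), (.s k15 k10 2 (.s k138 k207 10 (.s k165 k245 11 (.s k240 k90 14 (.s k160 k80
  11 (.d k170 k154 k175 3 2)))))), (.s k133 k197 7 (.s k138 k207 10 (.s k143 k128 2 (.s k154 k170 3
  (.d k165 k176 k245 6 11)))))] (.c k138 (.l (.s k15 k10 2 (.s k133 k197 7 (.s k74 k192 10 (.s k64
  k79 2 (.s k106 k127 6 (.s k165 k245 11 (.d k90 k122 k240 3 14)))))))) (.c k207 (.l (.s k15 k10 2
  (.s k133 k197 7 (.s k165 k245 11 (.s k192 k74 10 (.s k64 k128 7 (.s k106 k127 6 (.d k149 k181 k63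
  3 14)))))))) .n))) (.c k186 (.l (.s k117 k101 3 (.s k15 k10 2 (.s k133 k197 7 (.s k74 k192 10 (.s
  k79 k64 2 (.d k207 k143 k138 7 10))))))) .n)))

def s1_255_49 : T TT 256 :=
  (.f k245 k165 11 (.f k15 k10 2 (.q k21 [(.s k53 k37 3 (.s k117 k181 7 (.s k101 k69 3 (.d k149 k213
  k197 7 11)))), (.s k37 k53 3 (.s k42 k63 6 (.s k32 k47 2 (.d k48 k16 k26 3 6)))), (.s k63 k42 6
  (.s k149 k213 7 (.s k192 k106 14 (.s k128 k64 7 (.s k133 k74 10 (.s k69 k197 7 (.d k138 k143 k207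
  2 10)))))))] (.c k17 (.q k33 [(.s k53 k37 3 (.s k117 k181 7 (.s k101 k69 3 (.d k149 k213 k197 7
  11)))), (.s k37 k53 3 (.s k42 k63 6 (.s k32 k47 2 (.d k48 k16 k26 3 6)))), (.s k63 k42 6 (.s k149
  k213 7 (.s k192 k106 14 (.s k128 k64 7 (.s k133 k74 10 (.s k69 k197 7 (.d k138 k143 k207 2
  10)))))))] .n) (.c k33 (.q k17 [(.s k25 k29 1 (.s k42 k63 6 (.s k8 k59 4 (.s k12 k4 1 (.d k51 k34
  k38 4 6))))), (.s k53 k37 3 (.s k117 k181 7 (.s k101 k69 3 (.d k149 k213 k197 7 11))))] (.c k25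
  (.l (.s k37 k53 3 (.s k26 k48 6 (.s k31 k16 2 (.d k63 k47 k42 3 6))))) .n)) .n)))))

def s1_255_50 : T TT 256 :=
  (.q k4 [(.s k7 k6 0 (.s k247 k166 12 (.s k87 k167 11 (.s k86 k84 0 (.d k165 k245 k244 11 12))))),
  (.s k12 k8 1 (.s k15 k10 2 (.s k14 k13 0 (.s k166 k247 12 (.s k90 k242 13 (.s k80 k95 2 (.d k240
  k160 k165 11 14))))))), (.s k7 k6 0 (.s k12 k8 1 (.s k15 k10 2 (.s k165 k245 11 (.s k240 k90 14
  (.s k164 k88 13 (.d k244 k84 k86 11 12)))))))] (.c k165 (.l (.s k6 k7 0 (.s k12 k8 1 (.s k3 k9 2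
  (.s k166 k247 12 (.s k86 k246 11 (.s k252 k169 14 (.d k84 k87 k168 0 13)))))))) .n))

def s1_255_51 : T TT 256 :=
  (.f k245 k165 11 (.f k15 k10 2 (.q k21 [(.s k53 k37 3 (.s k117 k181 7 (.s k101 k69 3 (.d k149 k213
  k197 7 11)))), (.s k37 k53 3 (.s k42 k63 6 (.s k32 k47 2 (.d k48 k16 k26 3 6)))), (.s k63 k42 6
  (.s k149 k213 7 (.s k192 k106 14 (.s k128 k64 7 (.s k133 k74 10 (.s k69 k197 7 (.d k138 k143 k207
  2 10)))))))] (.c k119 (.q k187 [(.s k53 k37 3 (.s k117 k181 7 (.s k101 k69 3 (.d k149 k213 k197 7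
  11)))), (.s k37 k53 3 (.s k42 k63 6 (.s k32 k47 2 (.d k48 k16 k26 3 6)))), (.s k63 k42 6 (.s k149
  k213 7 (.s k192 k106 14 (.s k128 k64 7 (.s k133 k74 10 (.s k69 k197 7 (.d k138 k143 k207 2
  10)))))))] .n) (.c k187 (.q k119 [(.s k53 k37 3 (.s k117 k181 7 (.s k101 k69 3 (.d k149 k213 k197
  7 11)))), (.s k37 k53 3 (.s k42 k63 6 (.s k32 k47 2 (.d k48 k16 k26 3 6)))), (.s k102 k68 4 (.s
  k149 k213 7 (.s k55 k196 12 (.s k4 k38 4 (.d k247 k183 k166 7 12)))))] .n) .n)))))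

def s1_255_52 : T TT 256 :=
  (.q k4 [(.s k7 k6 0 (.s k247 k166 12 (.s k87 k167 11 (.s k86 k84 0 (.d k165 k245 k244 11 12))))),
  (.s k12 k8 1 (.s k15 k10 2 (.s k14 k13 0 (.s k166 k247 12 (.s k90 k242 13 (.s k80 k95 2 (.d k240
  k160 k165 11 14))))))), (.s k7 k6 0 (.s k12 k8 1 (.s k15 k10 2 (.s k165 k245 11 (.s k240 k90 14
  (.s k164 k88 13 (.d k244 k84 k86 11 12)))))))] (.c k165 (.l (.s k6 k7 0 (.s k12 k8 1 (.s k3 k9 2
  (.s k166 k247 12 (.s k86 k246 11 (.s k252 k169 14 (.d k84 k87 k168 0 13)))))))) .n))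

def s1_255_53 : T TT 256 :=
  (.q k4 [(.s k7 k6 0 (.s k247 k166 12 (.s k87 k167 11 (.s k86 k84 0 (.d k165 k245 k244 11 12))))),
  (.s k12 k8 1 (.s k15 k10 2 (.s k14 k13 0 (.s k166 k247 12 (.s k90 k242 13 (.s k80 k95 2 (.d k240
  k160 k165 11 14))))))), (.s k7 k6 0 (.s k12 k8 1 (.s k15 k10 2 (.s k165 k245 11 (.s k240 k90 14
  (.s k164 k88 13 (.d k244 k84 k86 11 12)))))))] (.c k165 (.l (.s k6 k7 0 (.s k12 k8 1 (.s k3 k9 2
  (.s k166 k247 12 (.s k86 k246 11 (.s k252 k169 14 (.d k84 k87 k168 0 13)))))))) .n))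

def s1_255_54 : T TT 256 :=
  (.q k4 [(.s k7 k6 0 (.s k247 k166 12 (.s k87 k167 11 (.s k86 k84 0 (.d k165 k245 k244 11 12))))),
  (.s k12 k8 1 (.s k15 k10 2 (.s k14 k13 0 (.s k166 k247 12 (.s k90 k242 13 (.s k80 k95 2 (.d k240
  k160 k165 11 14))))))), (.s k7 k6 0 (.s k12 k8 1 (.s k15 k10 2 (.s k165 k245 11 (.s k240 k90 14
  (.s k164 k88 13 (.d k244 k84 k86 11 12)))))))] (.c k165 (.l (.s k6 k7 0 (.s k12 k8 1 (.s k3 k9 2
  (.s k166 k247 12 (.s k86 k246 11 (.s k252 k169 14 (.d k84 k87 k168 0 13)))))))) .n))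

def s1_255_55 : T TT 256 :=
  (.q k4 [(.s k7 k6 0 (.s k247 k166 12 (.s k87 k167 11 (.s k86 k84 0 (.d k165 k245 k244 11 12))))),
  (.s k12 k8 1 (.s k15 k10 2 (.s k14 k13 0 (.s k166 k247 12 (.s k90 k242 13 (.s k80 k95 2 (.d k240
  k160 k165 11 14))))))), (.s k7 k6 0 (.s k12 k8 1 (.s k15 k10 2 (.s k165 k245 11 (.s k240 k90 14
  (.s k164 k88 13 (.d k244 k84 k86 11 12)))))))] (.c k165 (.l (.s k6 k7 0 (.s k12 k8 1 (.s k3 k9 2
  (.s k166 k247 12 (.s k86 k246 11 (.s k252 k169 14 (.d k84 k87 k168 0 13)))))))) .n))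

def s1_255_56 : T TT 256 :=
  (.q k4 [(.s k7 k6 0 (.s k247 k166 12 (.s k87 k167 11 (.s k86 k84 0 (.d k165 k245 k244 11 12))))),
  (.s k12 k8 1 (.s k15 k10 2 (.s k14 k13 0 (.s k166 k247 12 (.s k90 k242 13 (.s k80 k95 2 (.d k240
  k160 k165 11 14))))))), (.s k7 k6 0 (.s k12 k8 1 (.s k15 k10 2 (.s k165 k245 11 (.s k240 k90 14
  (.s k164 k88 13 (.d k244 k84 k86 11 12)))))))] (.c k165 (.l (.s k6 k7 0 (.s k12 k8 1 (.s k3 k9 2
  (.s k166 k247 12 (.s k86 k246 11 (.s k252 k169 14 (.d k84 k87 k168 0 13)))))))) .n))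

def s1_255_57 : T TT 256 :=
  (.q k4 [(.s k7 k6 0 (.s k247 k166 12 (.s k87 k167 11 (.s k86 k84 0 (.d k165 k245 k244 11 12))))),
  (.s k12 k8 1 (.s k15 k10 2 (.s k14 k13 0 (.s k166 k247 12 (.s k90 k242 13 (.s k80 k95 2 (.d k240
  k160 k165 11 14))))))), (.s k7 k6 0 (.s k12 k8 1 (.s k15 k10 2 (.s k165 k245 11 (.s k240 k90 14
  (.s k164 k88 13 (.d k244 k84 k86 11 12)))))))] (.c k165 (.l (.s k6 k7 0 (.s k12 k8 1 (.s k3 k9 2
  (.s k166 k247 12 (.s k86 k246 11 (.s k252 k169 14 (.d k84 k87 k168 0 13)))))))) .n))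

def s1_255_58 : T TT 256 :=
  (.q k4 [(.s k7 k6 0 (.s k247 k166 12 (.s k87 k167 11 (.s k86 k84 0 (.d k165 k245 k244 11 12))))),
  (.s k12 k8 1 (.s k15 k10 2 (.s k14 k13 0 (.s k166 k247 12 (.s k90 k242 13 (.s k80 k95 2 (.d k240
  k160 k165 11 14))))))), (.s k7 k6 0 (.s k12 k8 1 (.s k15 k10 2 (.s k165 k245 11 (.s k240 k90 14
  (.s k164 k88 13 (.d k244 k84 k86 11 12)))))))] (.c k165 (.l (.s k6 k7 0 (.s k12 k8 1 (.s k3 k9 2
  (.s k166 k247 12 (.s k86 k246 11 (.s k252 k169 14 (.d k84 k87 k168 0 13)))))))) .n))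

def s1_255_59 : T TT 256 :=
  (.q k4 [(.s k7 k6 0 (.s k247 k166 12 (.s k87 k167 11 (.s k86 k84 0 (.d k165 k245 k244 11 12))))),
  (.s k12 k8 1 (.s k15 k10 2 (.s k14 k13 0 (.s k166 k247 12 (.s k90 k242 13 (.s k80 k95 2 (.d k240
  k160 k165 11 14))))))), (.s k7 k6 0 (.s k12 k8 1 (.s k15 k10 2 (.s k165 k245 11 (.s k240 k90 14
  (.s k164 k88 13 (.d k244 k84 k86 11 12)))))))] (.c k165 (.l (.s k6 k7 0 (.s k12 k8 1 (.s k3 k9 2
  (.s k166 k247 12 (.s k86 k246 11 (.s k252 k169 14 (.d k84 k87 k168 0 13)))))))) .n))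

def s1_255_60 : T TT 256 :=
  (.f k245 k165 11 (.f k15 k10 2 (.q k21 [(.s k53 k37 3 (.s k117 k181 7 (.s k101 k69 3 (.d k149 k213
  k197 7 11)))), (.s k37 k53 3 (.s k42 k63 6 (.s k32 k47 2 (.d k48 k16 k26 3 6)))), (.s k63 k42 6
  (.s k149 k213 7 (.s k192 k106 14 (.s k128 k64 7 (.s k133 k74 10 (.s k69 k197 7 (.d k138 k143 k207
  2 10)))))))] (.c k125 (.q k190 [(.s k53 k37 3 (.s k117 k181 7 (.s k101 k69 3 (.d k149 k213 k197 7
  11)))), (.s k37 k53 3 (.s k42 k63 6 (.s k32 k47 2 (.d k48 k16 k26 3 6)))), (.s k63 k42 6 (.s k149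
  k213 7 (.s k192 k106 14 (.s k128 k64 7 (.s k133 k74 10 (.s k69 k197 7 (.d k138 k143 k207 2
  10)))))))] .n) (.c k190 (.q k125 [(.s k53 k37 3 (.s k117 k181 7 (.s k101 k69 3 (.d k149 k213 k197
  7 11)))), (.s k37 k53 3 (.s k42 k63 6 (.s k32 k47 2 (.d k48 k16 k26 3 6)))), (.s k63 k42 6 (.s
  k149 k213 7 (.s k192 k106 14 (.s k128 k64 7 (.s k133 k74 10 (.s k69 k197 7 (.d k138 k143 k207 2
  10)))))))] .n) .n)))))

def s1_255_61 : T TT 256 :=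
  (.q k21 [(.s k15 k10 2 (.s k63 k42 6 (.s k31 k47 3 (.s k26 k16 2 (.d k37 k53 k48 3 6))))), (.s k53
  k37 3 (.s k149 k213 7 (.s k101 k197 11 (.s k117 k69 3 (.d k245 k181 k165 7 11))))), (.s k15 k10 2
  (.s k63 k42 6 (.s k47 k31 3 (.s k149 k213 7 (.s k165 k245 11 (.d k106 k192 k224 14 10))))))] .n)

def s1_255_62 : T TT 256 :=
  (.q k4 [(.s k7 k6 0 (.s k247 k166 12 (.s k87 k167 11 (.s k86 k84 0 (.d k165 k245 k244 11 12))))),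
  (.s k12 k8 1 (.s k15 k10 2 (.s k14 k13 0 (.s k166 k247 12 (.s k90 k242 13 (.s k80 k95 2 (.d k240
  k160 k165 11 14))))))), (.s k7 k6 0 (.s k12 k8 1 (.s k15 k10 2 (.s k165 k245 11 (.s k240 k90 14
  (.s k164 k88 13 (.d k244 k84 k86 11 12)))))))] (.c k165 (.l (.s k6 k7 0 (.s k12 k8 1 (.s k3 k9 2
  (.s k166 k247 12 (.s k86 k246 11 (.s k252 k169 14 (.d k84 k87 k168 0 13)))))))) .n))

def s1_255_63 : T TT 256 :=
  (.f k15 k10 2 (.q k143 [(.s k165 k245 11 (.s k154 k176 6 (.s k16 k223 10 (.s k48 k32 3 (.d k207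
  k79 k101 7 14))))), (.s k207 k79 7 (.s k69 k138 10 (.s k101 k117 3 (.s k48 k154 14 (.s k37 k26 6
  (.s k53 k21 3 (.d k197 k133 k149 7 11))))))), (.s k165 k245 11 (.s k176 k154 6 (.s k240 k90 14 (.s
  k160 k80 11 (.s k128 k144 3 (.s k133 k138 2 (.d k192 k74 k64 10 7))))))), (.s k165 k245 11 (.s
  k207 k79 7 (.s k69 k138 10 (.s k101 k117 3 (.s k229 k37 7 (.d k240 k218 k90 6 14))))))] (.c k127
  (.q k191 [(.s k165 k245 11 (.s k240 k90 14 (.s k160 k80 11 (.d k175 k170 k159 2 3)))), (.s k159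
  k175 3 (.s k207 k79 7 (.s k69 k138 10 (.s k101 k117 3 (.s k197 k133 7 (.s k149 k53 11 (.d k154 k48
  k144 14 2))))))), (.s k165 k245 11 (.s k154 k176 6 (.s k16 k223 10 (.s k48 k32 3 (.d k207 k79 k101
  7 14)))))] (.c k245 (.l (.s k175 k159 3 (.s k207 k79 7 (.s k138 k69 10 (.s k128 k133 2 (.s k170
  k149 6 (.s k154 k186 3 (.d k165 k160 k176 2 6)))))))) .n)) (.c k191 (.q k127 [(.s k64 k106 6 (.s
  k192 k128 7 (.s k74 k133 10 (.d k79 k69 k207 2 7)))), (.s k165 k245 11 (.s k154 k176 6 (.s k16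
  k223 10 (.s k48 k32 3 (.d k207 k79 k101 7 14))))), (.s k64 k106 6 (.s k165 k245 11 (.s k176 k154 6
  (.s k240 k90 14 (.s k80 k160 11 (.d k112 k96 k48 3 7))))))] .n) .n))))

def s1_255_64 : T TT 256 :=
  (.q k4 [(.s k7 k6 0 (.s k165 k245 11 (.s k86 k244 12 (.s k247 k166 12 (.d k87 k84 k167 0 11))))),
  (.s k12 k8 1 (.s k15 k10 2 (.s k14 k13 0 (.s k166 k247 12 (.s k90 k242 13 (.s k80 k95 2 (.d k240
  k160 k165 11 14))))))), (.s k6 k7 0 (.s k12 k8 1 (.s k3 k9 2 (.s k166 k247 12 (.s k86 k246 11 (.s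
  k252 k169 14 (.d k84 k87 k168 0 13))))))), (.s k7 k6 0 (.s k12 k8 1 (.s k15 k10 2 (.s k165 k245 11
  (.s k240 k90 14 (.s k164 k88 13 (.d k244 k84 k86 11 12)))))))] .n)

def s1_255_65 : T TT 256 :=
  (.f k15 k10 2 (.f k245 k165 11 (.q k21 [(.s k37 k53 3 (.s k26 k48 6 (.s k31 k16 2 (.d k63 k47 k42
  3 6)))), (.s k53 k37 3 (.s k117 k181 7 (.s k101 k69 3 (.d k149 k213 k197 7 11)))), (.s k63 k42 6
  (.s k149 k213 7 (.s k192 k106 14 (.s k128 k64 7 (.s k133 k74 10 (.s k69 k197 7 (.d k138 k143 k207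
  2 10)))))))] (.c k129 (.q k193 [(.s k37 k53 3 (.s k26 k48 6 (.s k31 k16 2 (.d k63 k47 k42 3 6)))),
  (.s k213 k149 7 (.s k253 k233 5 (.s k241 k249 1 (.s k209 k225 3 (.s k217 k221 1 (.d k229 k197 k205
  3 5))))))] .n) (.c k193 (.q k129 [(.s k37 k53 3 (.s k26 k48 6 (.s k31 k16 2 (.d k63 k47 k42 3
  6)))), (.s k53 k37 3 (.s k117 k181 7 (.s k101 k69 3 (.d k149 k213 k197 7 11)))), (.s k63 k42 6 (.s
  k149 k213 7 (.s k169 k189 5 (.s k192 k106 14 (.s k3 k66 8 (.s k23 k43 5 (.d k86 k212 k252 8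
  14)))))))] .n) .n)))))

def s1_255_66 : T TT 256 :=
  (.q k4 [(.s k7 k6 0 (.s k247 k166 12 (.s k87 k167 11 (.s k86 k84 0 (.d k165 k245 k244 11 12))))),
  (.s k12 k8 1 (.s k15 k10 2 (.s k14 k13 0 (.s k166 k247 12 (.s k90 k242 13 (.s k80 k95 2 (.d k240
  k160 k165 11 14))))))), (.s k7 k6 0 (.s k12 k8 1 (.s k15 k10 2 (.s k165 k245 11 (.s k240 k90 14
  (.s k164 k88 13 (.d k244 k84 k86 11 12)))))))] (.c k165 (.l (.s k6 k7 0 (.s k12 k8 1 (.s k3 k9 2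
  (.s k166 k247 12 (.s k86 k246 11 (.s k252 k169 14 (.d k84 k87 k168 0 13)))))))) .n))

def s1_255_67 : T TT 256 :=
  (.q k4 [(.s k7 k6 0 (.s k247 k166 12 (.s k87 k167 11 (.s k86 k84 0 (.d k165 k245 k244 11 12))))),
  (.s k12 k8 1 (.s k15 k10 2 (.s k14 k13 0 (.s k166 k247 12 (.s k90 k242 13 (.s k80 k95 2 (.d k240
  k160 k165 11 14))))))), (.s k7 k6 0 (.s k12 k8 1 (.s k15 k10 2 (.s k165 k245 11 (.s k240 k90 14
  (.s k164 k88 13 (.d k244 k84 k86 11 12)))))))] (.c k165 (.l (.s k6 k7 0 (.s k12 k8 1 (.s k3 k9 2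
  (.s k166 k247 12 (.s k86 k246 11 (.s k252 k169 14 (.d k84 k87 k168 0 13)))))))) .n))

def s1_255_68 : T TT 256 :=
  (.q k4 [(.s k7 k6 0 (.s k165 k245 11 (.s k86 k244 12 (.s k247 k166 12 (.d k87 k84 k167 0 11))))),
  (.s k12 k8 1 (.s k15 k10 2 (.s k14 k13 0 (.s k166 k247 12 (.s k90 k242 13 (.s k80 k95 2 (.d k240
  k160 k165 11 14))))))), (.s k6 k7 0 (.s k12 k8 1 (.s k3 k9 2 (.s k166 k247 12 (.s k86 k246 11 (.s
  k252 k169 14 (.d k84 k87 k168 0 13))))))), (.s k7 k6 0 (.s k12 k8 1 (.s k15 k10 2 (.s k165 k245 11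
  (.s k240 k90 14 (.s k164 k88 13 (.d k244 k84 k86 11 12)))))))] .n)

def s1_255_69 : T TT 256 :=
  (.f k15 k10 2 (.q k48 [(.s k32 k16 3 (.s k37 k26 6 (.s k21 k53 3 (.d k42 k47 k63 2 6)))), (.s k16
  k32 3 (.s k154 k223 10 (.s k165 k245 11 (.s k143 k176 6 (.d k207 k79 k101 7 14))))), (.s k37 k26 6
  (.s k165 k245 11 (.s k101 k229 7 (.s k154 k207 14 (.s k176 k143 6 (.d k240 k112 k90 7 14))))))]
  (.c k137 (.q k205 [(.s k32 k16 3 (.s k37 k26 6 (.s k21 k53 3 (.d k42 k47 k63 2 6)))), (.s k16 k32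
  3 (.s k154 k223 10 (.s k165 k245 11 (.s k143 k176 6 (.d k207 k79 k101 7 14))))), (.s k37 k26 6 (.s
  k165 k245 11 (.s k101 k229 7 (.s k154 k207 14 (.s k176 k143 6 (.d k240 k112 k90 7 14))))))] .n)
  (.c k205 (.q k137 [(.s k32 k16 3 (.s k37 k26 6 (.s k21 k53 3 (.d k42 k47 k63 2 6)))), (.s k16 k32
  3 (.s k154 k223 10 (.s k165 k245 11 (.s k143 k176 6 (.d k207 k79 k101 7 14))))), (.s k37 k26 6 (.s
  k165 k245 11 (.s k101 k229 7 (.s k154 k207 14 (.s k176 k143 6 (.d k240 k112 k90 7 14))))))] .n)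
  .n))))

def s1_255_70 : T TT 256 :=
  (.q k4 [(.s k7 k6 0 (.s k247 k166 12 (.s k87 k167 11 (.s k86 k84 0 (.d k165 k245 k244 11 12))))),
  (.s k12 k8 1 (.s k15 k10 2 (.s k14 k13 0 (.s k166 k247 12 (.s k90 k242 13 (.s k80 k95 2 (.d k240
  k160 k165 11 14))))))), (.s k7 k6 0 (.s k12 k8 1 (.s k15 k10 2 (.s k165 k245 11 (.s k240 k90 14
  (.s k164 k88 13 (.d k244 k84 k86 11 12)))))))] (.c k165 (.l (.s k6 k7 0 (.s k12 k8 1 (.s k3 k9 2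
  (.s k166 k247 12 (.s k86 k246 11 (.s k252 k169 14 (.d k84 k87 k168 0 13)))))))) .n))

def s1_255_71 : T TT 256 :=
  (.q k4 [(.s k7 k6 0 (.s k247 k166 12 (.s k87 k167 11 (.s k86 k84 0 (.d k165 k245 k244 11 12))))),
  (.s k12 k8 1 (.s k15 k10 2 (.s k14 k13 0 (.s k166 k247 12 (.s k90 k242 13 (.s k80 k95 2 (.d k240
  k160 k165 11 14))))))), (.s k7 k6 0 (.s k12 k8 1 (.s k15 k10 2 (.s k165 k245 11 (.s k240 k90 14
  (.s k164 k88 13 (.d k244 k84 k86 11 12)))))))] (.c k165 (.l (.s k6 k7 0 (.s k12 k8 1 (.s k3 k9 2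
  (.s k166 k247 12 (.s k86 k246 11 (.s k252 k169 14 (.d k84 k87 k168 0 13)))))))) .n))

def s1_255_72 : T TT 256 :=
  (.q k4 [(.s k7 k6 0 (.s k247 k166 12 (.s k87 k167 11 (.s k86 k84 0 (.d k165 k245 k244 11 12))))),
  (.s k12 k8 1 (.s k15 k10 2 (.s k14 k13 0 (.s k166 k247 12 (.s k90 k242 13 (.s k80 k95 2 (.d k240
  k160 k165 11 14))))))), (.s k7 k6 0 (.s k12 k8 1 (.s k15 k10 2 (.s k165 k245 11 (.s k240 k90 14
  (.s k164 k88 13 (.d k244 k84 k86 11 12)))))))] (.c k165 (.l (.s k6 k7 0 (.s k12 k8 1 (.s k3 k9 2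
  (.s k166 k247 12 (.s k86 k246 11 (.s k252 k169 14 (.d k84 k87 k168 0 13)))))))) .n))

def s1_255_73 : T TT 256 :=
  (.q k4 [(.s k7 k6 0 (.s k247 k166 12 (.s k87 k167 11 (.s k86 k84 0 (.d k165 k245 k244 11 12))))),
  (.s k12 k8 1 (.s k15 k10 2 (.s k14 k13 0 (.s k166 k247 12 (.s k90 k242 13 (.s k80 k95 2 (.d k240
  k160 k165 11 14))))))), (.s k7 k6 0 (.s k12 k8 1 (.s k15 k10 2 (.s k165 k245 11 (.s k240 k90 14
  (.s k164 k88 13 (.d k244 k84 k86 11 12)))))))] (.c k165 (.l (.s k6 k7 0 (.s k12 k8 1 (.s k3 k9 2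
  (.s k166 k247 12 (.s k86 k246 11 (.s k252 k169 14 (.d k84 k87 k168 0 13)))))))) .n))

def s1_255_74 : T TT 256 :=
  (.q k4 [(.s k7 k6 0 (.s k247 k166 12 (.s k87 k167 11 (.s k86 k84 0 (.d k165 k245 k244 11 12))))),
  (.s k12 k8 1 (.s k15 k10 2 (.s k14 k13 0 (.s k166 k247 12 (.s k90 k242 13 (.s k80 k95 2 (.d k240
  k160 k165 11 14))))))), (.s k7 k6 0 (.s k12 k8 1 (.s k15 k10 2 (.s k165 k245 11 (.s k240 k90 14
  (.s k164 k88 13 (.d k244 k84 k86 11 12)))))))] (.c k165 (.l (.s k6 k7 0 (.s k12 k8 1 (.s k3 k9 2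
  (.s k166 k247 12 (.s k86 k246 11 (.s k252 k169 14 (.d k84 k87 k168 0 13)))))))) .n))

def s1_255_75 : T TT 256 :=
  (.q k4 [(.s k7 k6 0 (.s k247 k166 12 (.s k87 k167 11 (.s k86 k84 0 (.d k165 k245 k244 11 12))))),
  (.s k12 k8 1 (.s k15 k10 2 (.s k14 k13 0 (.s k166 k247 12 (.s k90 k242 13 (.s k80 k95 2 (.d k240
  k160 k165 11 14))))))), (.s k7 k6 0 (.s k12 k8 1 (.s k15 k10 2 (.s k165 k245 11 (.s k240 k90 14
  (.s k164 k88 13 (.d k244 k84 k86 11 12)))))))] (.c k165 (.l (.s k6 k7 0 (.s k12 k8 1 (.s k3 k9 2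
  (.s k166 k247 12 (.s k86 k246 11 (.s k252 k169 14 (.d k84 k87 k168 0 13)))))))) .n))

def s1_255_76 : T TT 256 :=
  (.q k4 [(.s k7 k6 0 (.s k247 k166 12 (.s k87 k167 11 (.s k86 k84 0 (.d k165 k245 k244 11 12))))),
  (.s k12 k8 1 (.s k15 k10 2 (.s k14 k13 0 (.s k166 k247 12 (.s k90 k242 13 (.s k80 k95 2 (.d k240
  k160 k165 11 14))))))), (.s k7 k6 0 (.s k12 k8 1 (.s k15 k10 2 (.s k165 k245 11 (.s k240 k90 14
  (.s k164 k88 13 (.d k244 k84 k86 11 12)))))))] (.c k165 (.l (.s k6 k7 0 (.s k12 k8 1 (.s k3 k9 2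
  (.s k166 k247 12 (.s k86 k246 11 (.s k252 k169 14 (.d k84 k87 k168 0 13)))))))) .n))

def s1_255_77 : T TT 256 :=
  (.q k4 [(.s k7 k6 0 (.s k247 k166 12 (.s k87 k167 11 (.s k86 k84 0 (.d k165 k245 k244 11 12))))),
  (.s k12 k8 1 (.s k15 k10 2 (.s k14 k13 0 (.s k166 k247 12 (.s k90 k242 13 (.s k80 k95 2 (.d k240
  k160 k165 11 14))))))), (.s k7 k6 0 (.s k12 k8 1 (.s k15 k10 2 (.s k165 k245 11 (.s k240 k90 14
  (.s k164 k88 13 (.d k244 k84 k86 11 12)))))))] (.c k165 (.l (.s k6 k7 0 (.s k12 k8 1 (.s k3 k9 2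
  (.s k166 k247 12 (.s k86 k246 11 (.s k252 k169 14 (.d k84 k87 k168 0 13)))))))) .n))

def s1_255_78 : T TT 256 :=
  (.q k4 [(.s k7 k6 0 (.s k247 k166 12 (.s k87 k167 11 (.s k86 k84 0 (.d k165 k245 k244 11 12))))),
  (.s k12 k8 1 (.s k15 k10 2 (.s k14 k13 0 (.s k166 k247 12 (.s k90 k242 13 (.s k80 k95 2 (.d k240
  k160 k165 11 14))))))), (.s k7 k6 0 (.s k12 k8 1 (.s k15 k10 2 (.s k165 k245 11 (.s k240 k90 14
  (.s k164 k88 13 (.d k244 k84 k86 11 12)))))))] (.c k165 (.l (.s k6 k7 0 (.s k12 k8 1 (.s k3 k9 2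
  (.s k166 k247 12 (.s k86 k246 11 (.s k252 k169 14 (.d k84 k87 k168 0 13)))))))) .n))

def s1_255_79 : T TT 256 :=
  (.q k4 [(.s k7 k6 0 (.s k247 k166 12 (.s k87 k167 11 (.s k86 k84 0 (.d k165 k245 k244 11 12))))),
  (.s k12 k8 1 (.s k15 k10 2 (.s k14 k13 0 (.s k166 k247 12 (.s k90 k242 13 (.s k80 k95 2 (.d k240
  k160 k165 11 14))))))), (.s k7 k6 0 (.s k12 k8 1 (.s k15 k10 2 (.s k165 k245 11 (.s k240 k90 14
  (.s k164 k88 13 (.d k244 k84 k86 11 12)))))))] (.c k165 (.l (.s k6 k7 0 (.s k12 k8 1 (.s k3 k9 2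
  (.s k166 k247 12 (.s k86 k246 11 (.s k252 k169 14 (.d k84 k87 k168 0 13)))))))) .n))

def s1_255_80 : T TT 256 :=
  (.q k21 [(.s k15 k10 2 (.s k37 k53 3 (.s k42 k63 6 (.s k32 k47 2 (.d k48 k16 k26 3 6))))), (.s k53
  k37 3 (.s k149 k213 7 (.s k101 k197 11 (.s k117 k69 3 (.d k245 k181 k165 7 11))))), (.s k15 k10 2
  (.s k63 k42 6 (.s k47 k31 3 (.s k149 k213 7 (.s k165 k245 11 (.d k106 k192 k224 14 10))))))] .n)

def s1_255_81 : T TT 256 :=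
  (.f k15 k10 2 (.q k143 [(.s k165 k245 11 (.s k154 k176 6 (.s k16 k223 10 (.s k48 k32 3 (.d k207
  k79 k101 7 14))))), (.s k207 k79 7 (.s k69 k138 10 (.s k101 k117 3 (.s k48 k154 14 (.s k37 k26 6
  (.s k53 k21 3 (.d k197 k133 k149 7 11))))))), (.s k165 k245 11 (.s k176 k154 6 (.s k240 k90 14 (.s
  k160 k80 11 (.s k128 k144 3 (.s k133 k138 2 (.d k192 k74 k64 10 7))))))), (.s k165 k245 11 (.s
  k207 k79 7 (.s k69 k138 10 (.s k101 k117 3 (.s k229 k37 7 (.d k240 k218 k90 6 14))))))] (.c k161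
  (.q k241 [(.s k165 k245 11 (.s k154 k176 6 (.s k16 k223 10 (.s k48 k32 3 (.d k207 k79 k101 7
  14))))), (.s k165 k245 11 (.s k89 k13 13 (.s k240 k90 14 (.s k243 k242 0 (.s k166 k12 14 (.d k167
  k164 k91 0 13)))))), (.s k207 k79 7 (.s k69 k138 10 (.s k101 k117 3 (.s k48 k154 14 (.s k37 k26 6
  (.s k53 k21 3 (.d k197 k133 k149 7 11)))))))] .n) (.c k241 (.q k161 [(.s k165 k245 11 (.s k154
  k176 6 (.s k16 k223 10 (.s k48 k32 3 (.d k207 k79 k101 7 14))))), (.s k165 k245 11 (.s k169 k173 1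
  (.s k240 k90 14 (.s k3 k82 12 (.s k7 k11 1 (.d k86 k244 k252 12 14)))))), (.s k207 k79 7 (.s k69
  k138 10 (.s k101 k117 3 (.s k48 k154 14 (.s k37 k26 6 (.s k53 k21 3 (.d k197 k133 k149 7
  11)))))))] .n) .n))))

def s1_255_82 : T TT 256 :=
  (.q k4 [(.s k7 k6 0 (.s k247 k166 12 (.s k87 k167 11 (.s k86 k84 0 (.d k165 k245 k244 11 12))))),
  (.s k12 k8 1 (.s k15 k10 2 (.s k14 k13 0 (.s k166 k247 12 (.s k90 k242 13 (.s k80 k95 2 (.d k240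
  k160 k165 11 14))))))), (.s k7 k6 0 (.s k12 k8 1 (.s k15 k10 2 (.s k165 k245 11 (.s k240 k90 14
  (.s k164 k88 13 (.d k244 k86 k84 12 11)))))))] (.c k165 (.l (.s k6 k7 0 (.s k12 k8 1 (.s k3 k9 2
  (.s k166 k247 12 (.s k86 k246 11 (.s k252 k169 14 (.d k84 k87 k168 0 13)))))))) .n))

def s1_255_83 : T TT 256 :=
  (.q k4 [(.s k7 k6 0 (.s k247 k166 12 (.s k87 k167 11 (.s k86 k84 0 (.d k165 k245 k244 11 12))))),
  (.s k12 k8 1 (.s k15 k10 2 (.s k14 k13 0 (.s k166 k247 12 (.s k90 k242 13 (.s k80 k95 2 (.d k240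
  k160 k165 11 14))))))), (.s k7 k6 0 (.s k12 k8 1 (.s k15 k10 2 (.s k165 k245 11 (.s k240 k90 14
  (.s k164 k88 13 (.d k244 k84 k86 11 12)))))))] (.c k165 (.l (.s k6 k7 0 (.s k12 k8 1 (.s k3 k9 2
  (.s k166 k247 12 (.s k86 k246 11 (.s k252 k169 14 (.d k84 k87 k168 0 13)))))))) .n))

def s1_255_84 : T TT 256 :=
  (.q k21 [(.s k15 k10 2 (.s k37 k53 3 (.s k42 k63 6 (.s k32 k47 2 (.d k48 k16 k26 3 6))))), (.s k53
  k37 3 (.s k149 k213 7 (.s k101 k197 11 (.s k117 k69 3 (.d k245 k181 k165 7 11))))), (.s k15 k10 2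
  (.s k63 k42 6 (.s k47 k31 3 (.s k149 k213 7 (.s k165 k245 11 (.d k106 k192 k224 14 10))))))] .n)

def s1_255_86 : T TT 256 :=
  (.q k21 [(.s k15 k10 2 (.s k37 k53 3 (.s k26 k48 6 (.s k31 k16 2 (.d k63 k47 k42 3 6))))), (.s k53
  k37 3 (.s k149 k213 7 (.s k101 k197 11 (.s k117 k69 3 (.d k245 k181 k165 7 11))))), (.s k15 k10 2
  (.s k63 k42 6 (.s k47 k31 3 (.s k149 k213 7 (.s k165 k245 11 (.d k106 k192 k224 14 10))))))] .n)

def s1_255_87 : T TT 256 :=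
  (.f k15 k10 2 (.f k245 k165 11 (.q k21 [(.s k37 k53 3 (.s k26 k48 6 (.s k31 k16 2 (.d k63 k47 k42
  3 6)))), (.s k53 k37 3 (.s k117 k181 7 (.s k101 k69 3 (.d k149 k213 k197 7 11)))), (.s k63 k42 6
  (.s k149 k213 7 (.s k192 k106 14 (.s k128 k64 7 (.s k133 k74 10 (.s k69 k197 7 (.d k138 k143 k207
  2 10)))))))] (.c k3 (.q k171 [(.s k53 k37 3 (.s k117 k181 7 (.s k101 k69 3 (.d k149 k213 k197 7
  11)))), (.s k37 k53 3 (.s k42 k63 6 (.s k32 k47 2 (.d k48 k16 k26 3 6)))), (.s k63 k42 6 (.s k149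
  k213 7 (.s k192 k106 14 (.s k128 k64 7 (.s k133 k74 10 (.s k69 k197 7 (.d k138 k143 k207 2
  10)))))))] .n) (.c k171 (.q k3 [(.s k37 k53 3 (.s k26 k48 6 (.s k31 k16 2 (.d k63 k47 k42 3 6)))),
  (.s k53 k37 3 (.s k117 k181 7 (.s k101 k69 3 (.d k149 k213 k197 7 11)))), (.s k7 k11 1 (.s k4 k6 0
  (.s k55 k38 4 (.s k63 k42 6 (.d k23 k39 k43 3 5)))))] .n) .n)))))

def s1_255_88 : T TT 256 :=
  (.q k4 [(.s k7 k6 0 (.s k165 k245 11 (.s k86 k244 12 (.s k247 k166 12 (.d k87 k84 k167 0 11))))),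
  (.s k12 k8 1 (.s k15 k10 2 (.s k14 k13 0 (.s k166 k247 12 (.s k90 k242 13 (.s k80 k95 2 (.d k240
  k160 k165 11 14))))))), (.s k6 k7 0 (.s k12 k8 1 (.s k3 k9 2 (.s k166 k247 12 (.s k86 k246 11 (.s
  k252 k169 14 (.d k84 k87 k168 0 13)))))))] (.c k166 (.l (.s k7 k6 0 (.s k15 k10 2 (.s k3 k11 1 (.s
  k165 k245 11 (.s k86 k244 12 (.s k84 k87 0 (.d k252 k168 k169 13 14)))))))) (.c k247 (.l (.s k7 k6
  0 (.s k15 k10 2 (.s k165 k245 11 (.s k240 k90 14 (.s k244 k86 12 (.s k84 k164 11 (.d k252 k248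
  k168 1 13)))))))) .n)))

def s1_255_89 : T TT 256 :=
  (.q k21 [(.s k15 k10 2 (.s k37 k53 3 (.s k26 k48 6 (.s k31 k16 2 (.d k63 k47 k42 3 6))))), (.s k53
  k37 3 (.s k149 k213 7 (.s k101 k197 11 (.s k117 k69 3 (.d k245 k181 k165 7 11))))), (.s k15 k10 2
  (.s k63 k42 6 (.s k47 k31 3 (.s k149 k213 7 (.s k165 k245 11 (.d k106 k192 k224 14 10))))))] .n)

def s1_255_90 : T TT 256 :=
  (.q k21 [(.s k37 k53 3 (.s k42 k63 6 (.s k32 k47 2 (.s k48 k16 3 (.d k15 k10 k26 2 6))))), (.s k53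
  k37 3 (.s k149 k213 7 (.s k101 k197 11 (.s k117 k69 3 (.d k245 k181 k165 7 11))))), (.s k15 k10 2
  (.s k63 k42 6 (.s k47 k31 3 (.s k149 k213 7 (.s k165 k245 11 (.d k106 k192 k224 14 10))))))] .n)

def s1_255_91 : T TT 256 :=
  (.q k4 [(.s k7 k6 0 (.s k165 k245 11 (.s k86 k244 12 (.s k87 k84 0 (.d k247 k167 k166 11 12))))),
  (.s k12 k8 1 (.s k15 k10 2 (.s k14 k13 0 (.s k166 k247 12 (.s k90 k242 13 (.s k80 k95 2 (.d k240
  k160 k165 11 14))))))), (.s k6 k7 0 (.s k12 k8 1 (.s k3 k9 2 (.s k166 k247 12 (.s k86 k246 11 (.s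
  k252 k169 14 (.d k84 k87 k168 0 13))))))), (.s k7 k6 0 (.s k12 k8 1 (.s k15 k10 2 (.s k165 k245 11
  (.s k240 k90 14 (.s k244 k86 12 (.d k164 k88 k84 13 11)))))))] (.c k166 (.l (.s k7 k6 0 (.s k15
  k10 2 (.s k3 k11 1 (.s k165 k245 11 (.s k86 k244 12 (.s k84 k87 0 (.d k252 k168 k169 13 14))))))))
  .n))

def s1_255_92 : T TT 256 :=
  (.q k4 [(.s k7 k6 0 (.s k165 k245 11 (.s k86 k244 12 (.s k247 k166 12 (.d k87 k84 k167 0 11))))),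
  (.s k12 k8 1 (.s k15 k10 2 (.s k14 k13 0 (.s k166 k247 12 (.s k90 k242 13 (.s k80 k95 2 (.d k240
  k160 k165 11 14))))))), (.s k6 k7 0 (.s k12 k8 1 (.s k3 k9 2 (.s k166 k247 12 (.s k86 k246 11 (.s
  k252 k169 14 (.d k84 k87 k168 0 13))))))), (.s k7 k6 0 (.s k12 k8 1 (.s k15 k10 2 (.s k165 k245 11
  (.s k240 k90 14 (.s k164 k88 13 (.d k244 k84 k86 11 12)))))))] .n)

def s1_255_93 : T TT 256 :=
  (.q k12 [(.s k4 k8 1 (.s k7 k6 0 (.s k247 k166 12 (.s k87 k167 11 (.s k86 k84 0 (.d k165 k245 k244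
  11 12)))))), (.s k4 k8 1 (.s k15 k10 2 (.s k14 k13 0 (.s k166 k247 12 (.s k90 k242 13 (.s k80 k95
  2 (.d k240 k160 k165 11 14))))))), (.s k15 k10 2 (.s k13 k14 0 (.s k165 k245 11 (.s k89 k241 13
  (.s k166 k243 14 (.s k164 k167 0 (.d k240 k88 k90 13 14))))))), (.s k4 k8 1 (.s k7 k6 0 (.s k15
  k10 2 (.s k165 k245 11 (.s k240 k90 14 (.s k164 k88 13 (.d k244 k84 k86 11 12)))))))] (.c k165 (.l
  (.s k4 k8 1 (.s k6 k7 0 (.s k3 k9 2 (.s k166 k247 12 (.s k86 k246 11 (.s k252 k169 14 (.d k84 k87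
  k168 0 13)))))))) .n))

def s1_255_94 : T TT 256 :=
  (.q k4 [(.s k7 k6 0 (.s k247 k166 12 (.s k87 k167 11 (.s k86 k84 0 (.d k165 k245 k244 11 12))))),
  (.s k12 k8 1 (.s k15 k10 2 (.s k14 k13 0 (.s k166 k247 12 (.s k90 k242 13 (.s k80 k95 2 (.d k240
  k160 k165 11 14))))))), (.s k7 k6 0 (.s k12 k8 1 (.s k15 k10 2 (.s k165 k245 11 (.s k240 k90 14
  (.s k164 k88 13 (.d k244 k86 k84 12 11)))))))] (.c k165 (.l (.s k6 k7 0 (.s k12 k8 1 (.s k3 k9 2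
  (.s k166 k247 12 (.s k86 k246 11 (.s k252 k169 14 (.d k84 k87 k168 0 13)))))))) .n))

def s1_255_95 : T TT 256 :=
  (.f k245 k165 11 (.f k15 k10 2 (.q k21 [(.s k37 k53 3 (.s k26 k48 6 (.s k31 k16 2 (.d k63 k47 k42
  3 6)))), (.s k53 k37 3 (.s k117 k181 7 (.s k101 k69 3 (.d k149 k213 k197 7 11)))), (.s k63 k42 6
  (.s k149 k213 7 (.s k192 k106 14 (.s k128 k64 7 (.s k133 k74 10 (.s k69 k197 7 (.d k138 k143 k207
  2 10)))))))] .n)))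

def s1_255_96 : T TT 256 :=
  (.q k4 [(.s k7 k6 0 (.s k247 k166 12 (.s k87 k167 11 (.s k86 k84 0 (.d k165 k245 k244 11 12))))),
  (.s k12 k8 1 (.s k15 k10 2 (.s k14 k13 0 (.s k166 k247 12 (.s k90 k242 13 (.s k80 k95 2 (.d k240
  k160 k165 11 14))))))), (.s k7 k6 0 (.s k12 k8 1 (.s k15 k10 2 (.s k165 k245 11 (.s k240 k90 14
  (.s k164 k88 13 (.d k244 k84 k86 11 12)))))))] (.c k165 (.l (.s k6 k7 0 (.s k12 k8 1 (.s k3 k9 2
  (.s k166 k247 12 (.s k86 k246 11 (.s k252 k169 14 (.d k84 k87 k168 0 13)))))))) .n))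

def s1_255_97 : T TT 256 :=
  (.q k4 [(.s k7 k6 0 (.s k247 k166 12 (.s k87 k167 11 (.s k86 k84 0 (.d k165 k245 k244 11 12))))),
  (.s k12 k8 1 (.s k15 k10 2 (.s k14 k13 0 (.s k166 k247 12 (.s k90 k242 13 (.s k80 k95 2 (.d k240
  k160 k165 11 14))))))), (.s k7 k6 0 (.s k12 k8 1 (.s k15 k10 2 (.s k165 k245 11 (.s k240 k90 14
  (.s k164 k88 13 (.d k244 k84 k86 11 12)))))))] (.c k165 (.l (.s k6 k7 0 (.s k12 k8 1 (.s k3 k9 2
  (.s k166 k247 12 (.s k86 k246 11 (.s k252 k169 14 (.d k84 k87 k168 0 13)))))))) .n))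

def s1_255_98 : T TT 256 :=
  (.q k4 [(.s k7 k6 0 (.s k247 k166 12 (.s k87 k167 11 (.s k86 k84 0 (.d k165 k245 k244 11 12))))),
  (.s k12 k8 1 (.s k15 k10 2 (.s k14 k13 0 (.s k166 k247 12 (.s k90 k242 13 (.s k80 k95 2 (.d k240
  k160 k165 11 14))))))), (.s k7 k6 0 (.s k12 k8 1 (.s k15 k10 2 (.s k165 k245 11 (.s k240 k90 14
  (.s k164 k88 13 (.d k244 k84 k86 11 12)))))))] (.c k165 (.l (.s k6 k7 0 (.s k12 k8 1 (.s k3 k9 2
  (.s k166 k247 12 (.s k86 k246 11 (.s k252 k169 14 (.d k84 k87 k168 0 13)))))))) .n))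

def s1_255_99 : T TT 256 :=
  (.q k4 [(.s k7 k6 0 (.s k247 k166 12 (.s k87 k167 11 (.s k86 k84 0 (.d k165 k245 k244 11 12))))),
  (.s k12 k8 1 (.s k15 k10 2 (.s k14 k13 0 (.s k166 k247 12 (.s k90 k242 13 (.s k80 k95 2 (.d k240
  k160 k165 11 14))))))), (.s k7 k6 0 (.s k12 k8 1 (.s k15 k10 2 (.s k165 k245 11 (.s k240 k90 14
  (.s k164 k88 13 (.d k244 k84 k86 11 12)))))))] (.c k165 (.l (.s k6 k7 0 (.s k12 k8 1 (.s k3 k9 2
  (.s k166 k247 12 (.s k86 k246 11 (.s k252 k169 14 (.d k84 k87 k168 0 13)))))))) .n))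

def s1_255_100 : T TT 256 :=
  (.q k4 [(.s k7 k6 0 (.s k165 k245 11 (.s k86 k244 12 (.s k247 k166 12 (.d k87 k84 k167 0 11))))),
  (.s k12 k8 1 (.s k15 k10 2 (.s k14 k13 0 (.s k166 k247 12 (.s k90 k242 13 (.s k80 k95 2 (.d k240
  k160 k165 11 14))))))), (.s k6 k7 0 (.s k12 k8 1 (.s k3 k9 2 (.s k166 k247 12 (.s k86 k246 11 (.s
  k252 k169 14 (.d k84 k87 k168 0 13))))))), (.s k7 k6 0 (.s k12 k8 1 (.s k15 k10 2 (.s k165 k245 11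
  (.s k240 k90 14 (.s k164 k88 13 (.d k244 k84 k86 11 12)))))))] .n)

def s1_255_101 : T TT 256 :=
  (.q k4 [(.s k7 k6 0 (.s k165 k245 11 (.s k86 k244 12 (.s k87 k84 0 (.d k247 k167 k166 11 12))))),
  (.s k12 k8 1 (.s k15 k10 2 (.s k14 k13 0 (.s k166 k247 12 (.s k90 k242 13 (.s k80 k95 2 (.d k240
  k160 k165 11 14))))))), (.s k6 k7 0 (.s k12 k8 1 (.s k3 k9 2 (.s k166 k247 12 (.s k86 k246 11 (.s
  k252 k169 14 (.d k84 k87 k168 0 13))))))), (.s k7 k6 0 (.s k12 k8 1 (.s k15 k10 2 (.s k165 k245 11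
  (.s k240 k90 14 (.s k164 k88 13 (.d k244 k84 k86 11 12)))))))] .n)

def s1_255_102 : T TT 256 :=
  (.q k4 [(.s k7 k6 0 (.s k165 k245 11 (.s k86 k244 12 (.s k87 k84 0 (.d k247 k167 k166 11 12))))),
  (.s k12 k8 1 (.s k15 k10 2 (.s k14 k13 0 (.s k166 k247 12 (.s k90 k242 13 (.s k80 k95 2 (.d k240
  k160 k165 11 14))))))), (.s k6 k7 0 (.s k12 k8 1 (.s k3 k9 2 (.s k166 k247 12 (.s k86 k246 11 (.s
  k252 k169 14 (.d k84 k87 k168 0 13))))))), (.s k7 k6 0 (.s k12 k8 1 (.s k15 k10 2 (.s k165 k245 11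
  (.s k240 k90 14 (.s k164 k88 13 (.d k244 k84 k86 11 12)))))))] .n)

def s1_255_103 : T TT 256 :=
  (.q k4 [(.s k7 k6 0 (.s k165 k245 11 (.s k86 k244 12 (.s k87 k84 0 (.d k247 k167 k166 11 12))))),
  (.s k12 k8 1 (.s k15 k10 2 (.s k14 k13 0 (.s k166 k247 12 (.s k90 k242 13 (.s k80 k95 2 (.d k240
  k160 k165 11 14))))))), (.s k6 k7 0 (.s k12 k8 1 (.s k3 k9 2 (.s k166 k247 12 (.s k86 k246 11 (.s
  k252 k169 14 (.d k84 k87 k168 0 13))))))), (.s k7 k6 0 (.s k12 k8 1 (.s k15 k10 2 (.s k165 k245 11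
  (.s k240 k90 14 (.s k164 k88 13 (.d k244 k84 k86 11 12)))))))] .n)

def s1_255_104 : T TT 256 :=
  (.q k4 [(.s k7 k6 0 (.s k165 k245 11 (.s k86 k244 12 (.s k247 k166 12 (.d k87 k84 k167 0 11))))),
  (.s k12 k8 1 (.s k15 k10 2 (.s k14 k13 0 (.s k166 k247 12 (.s k90 k242 13 (.s k80 k95 2 (.d k240
  k160 k165 11 14))))))), (.s k6 k7 0 (.s k12 k8 1 (.s k3 k9 2 (.s k166 k247 12 (.s k86 k246 11 (.s
  k252 k169 14 (.d k84 k87 k168 0 13))))))), (.s k7 k6 0 (.s k12 k8 1 (.s k15 k10 2 (.s k165 k245 11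
  (.s k240 k90 14 (.s k164 k88 13 (.d k244 k84 k86 11 12)))))))] .n)

def s1_255_105 : T TT 256 :=
  (.q k4 [(.s k7 k6 0 (.s k165 k245 11 (.s k86 k244 12 (.s k87 k84 0 (.d k247 k167 k166 11 12))))),
  (.s k12 k8 1 (.s k15 k10 2 (.s k14 k13 0 (.s k166 k247 12 (.s k90 k242 13 (.s k80 k95 2 (.d k240
  k160 k165 11 14))))))), (.s k6 k7 0 (.s k12 k8 1 (.s k3 k9 2 (.s k166 k247 12 (.s k86 k246 11 (.s
  k252 k169 14 (.d k84 k87 k168 0 13))))))), (.s k7 k6 0 (.s k12 k8 1 (.s k15 k10 2 (.s k165 k245 11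
  (.s k240 k90 14 (.s k164 k88 13 (.d k244 k84 k86 11 12)))))))] .n)

def s1_255_106 : T TT 256 :=
  (.q k4 [(.s k7 k6 0 (.s k165 k245 11 (.s k86 k244 12 (.s k87 k84 0 (.d k247 k167 k166 11 12))))),
  (.s k12 k8 1 (.s k15 k10 2 (.s k14 k13 0 (.s k166 k247 12 (.s k90 k242 13 (.s k80 k95 2 (.d k240
  k160 k165 11 14))))))), (.s k6 k7 0 (.s k12 k8 1 (.s k3 k9 2 (.s k166 k247 12 (.s k86 k246 11 (.s
  k252 k169 14 (.d k84 k87 k168 0 13))))))), (.s k7 k6 0 (.s k12 k8 1 (.s k15 k10 2 (.s k165 k245 11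
  (.s k240 k90 14 (.s k164 k88 13 (.d k244 k84 k86 11 12)))))))] .n)

def s1_255_107 : T TT 256 :=
  (.q k4 [(.s k7 k6 0 (.s k165 k245 11 (.s k86 k244 12 (.s k87 k84 0 (.d k247 k167 k166 11 12))))),
  (.s k12 k8 1 (.s k15 k10 2 (.s k14 k13 0 (.s k166 k247 12 (.s k90 k242 13 (.s k80 k95 2 (.d k240
  k160 k165 11 14))))))), (.s k6 k7 0 (.s k12 k8 1 (.s k3 k9 2 (.s k166 k247 12 (.s k86 k246 11 (.s
  k252 k169 14 (.d k84 k87 k168 0 13))))))), (.s k7 k6 0 (.s k12 k8 1 (.s k15 k10 2 (.s k165 k245 11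
  (.s k240 k90 14 (.s k164 k88 13 (.d k244 k84 k86 11 12)))))))] .n)

def s1_255_108 : T TT 256 :=
  (.q k4 [(.s k7 k6 0 (.s k247 k166 12 (.s k87 k167 11 (.s k86 k84 0 (.d k165 k245 k244 11 12))))),
  (.s k12 k8 1 (.s k15 k10 2 (.s k14 k13 0 (.s k166 k247 12 (.s k90 k242 13 (.s k80 k95 2 (.d k240
  k160 k165 11 14))))))), (.s k7 k6 0 (.s k12 k8 1 (.s k15 k10 2 (.s k165 k245 11 (.s k240 k90 14
  (.s k164 k88 13 (.d k244 k84 k86 11 12)))))))] (.c k165 (.l (.s k6 k7 0 (.s k12 k8 1 (.s k3 k9 2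
  (.s k166 k247 12 (.s k86 k246 11 (.s k252 k169 14 (.d k84 k87 k168 0 13)))))))) .n))

def s1_255_109 : T TT 256 :=
  (.q k4 [(.s k7 k6 0 (.s k247 k166 12 (.s k87 k167 11 (.s k86 k84 0 (.d k165 k245 k244 11 12))))),
  (.s k12 k8 1 (.s k15 k10 2 (.s k14 k13 0 (.s k166 k247 12 (.s k90 k242 13 (.s k80 k95 2 (.d k240
  k160 k165 11 14))))))), (.s k7 k6 0 (.s k12 k8 1 (.s k15 k10 2 (.s k165 k245 11 (.s k240 k90 14
  (.s k164 k88 13 (.d k244 k84 k86 11 12)))))))] (.c k165 (.l (.s k6 k7 0 (.s k12 k8 1 (.s k3 k9 2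
  (.s k166 k247 12 (.s k86 k246 11 (.s k252 k169 14 (.d k84 k87 k168 0 13)))))))) .n))

def s1_255_110 : T TT 256 :=
  (.q k4 [(.s k7 k6 0 (.s k247 k166 12 (.s k87 k167 11 (.s k86 k84 0 (.d k165 k245 k244 11 12))))),
  (.s k12 k8 1 (.s k15 k10 2 (.s k14 k13 0 (.s k166 k247 12 (.s k90 k242 13 (.s k80 k95 2 (.d k240
  k160 k165 11 14))))))), (.s k7 k6 0 (.s k12 k8 1 (.s k15 k10 2 (.s k165 k245 11 (.s k240 k90 14
  (.s k164 k88 13 (.d k244 k84 k86 11 12)))))))] (.c k165 (.l (.s k6 k7 0 (.s k12 k8 1 (.s k3 k9 2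
  (.s k166 k247 12 (.s k86 k246 11 (.s k252 k169 14 (.d k84 k87 k168 0 13)))))))) .n))

def s1_255_111 : T TT 256 :=
  (.q k4 [(.s k7 k6 0 (.s k247 k166 12 (.s k87 k167 11 (.s k86 k84 0 (.d k165 k245 k244 11 12))))),
  (.s k12 k8 1 (.s k15 k10 2 (.s k14 k13 0 (.s k166 k247 12 (.s k90 k242 13 (.s k80 k95 2 (.d k240
  k160 k165 11 14))))))), (.s k7 k6 0 (.s k12 k8 1 (.s k15 k10 2 (.s k165 k245 11 (.s k240 k90 14
  (.s k164 k88 13 (.d k244 k84 k86 11 12)))))))] (.c k165 (.l (.s k6 k7 0 (.s k12 k8 1 (.s k3 k9 2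
  (.s k166 k247 12 (.s k86 k246 11 (.s k252 k169 14 (.d k84 k87 k168 0 13)))))))) .n))

def s1_255_112 : T TT 256 :=
  (.q k4 [(.s k7 k6 0 (.s k247 k166 12 (.s k87 k167 11 (.s k86 k84 0 (.d k165 k245 k244 11 12))))),
  (.s k12 k8 1 (.s k15 k10 2 (.s k14 k13 0 (.s k166 k247 12 (.s k90 k242 13 (.s k80 k95 2 (.d k240
  k160 k165 11 14))))))), (.s k7 k6 0 (.s k12 k8 1 (.s k15 k10 2 (.s k165 k245 11 (.s k240 k90 14
  (.s k164 k88 13 (.d k244 k84 k86 11 12)))))))] (.c k165 (.l (.s k6 k7 0 (.s k12 k8 1 (.s k3 k9 2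
  (.s k166 k247 12 (.s k86 k246 11 (.s k252 k169 14 (.d k84 k87 k168 0 13)))))))) .n))

def s1_255_113 : T TT 256 :=
  (.q k4 [(.s k7 k6 0 (.s k247 k166 12 (.s k87 k167 11 (.s k86 k84 0 (.d k165 k245 k244 11 12))))),
  (.s k12 k8 1 (.s k15 k10 2 (.s k14 k13 0 (.s k166 k247 12 (.s k90 k242 13 (.s k80 k95 2 (.d k240
  k160 k165 11 14))))))), (.s k7 k6 0 (.s k12 k8 1 (.s k15 k10 2 (.s k165 k245 11 (.s k240 k90 14
  (.s k164 k88 13 (.d k244 k84 k86 11 12)))))))] (.c k165 (.l (.s k6 k7 0 (.s k12 k8 1 (.s k3 k9 2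
  (.s k166 k247 12 (.s k86 k246 11 (.s k252 k169 14 (.d k84 k87 k168 0 13)))))))) .n))

def s1_255_114 : T TT 256 :=
  (.q k4 [(.s k7 k6 0 (.s k247 k166 12 (.s k87 k167 11 (.s k86 k84 0 (.d k165 k245 k244 11 12))))),
  (.s k12 k8 1 (.s k15 k10 2 (.s k14 k13 0 (.s k166 k247 12 (.s k90 k242 13 (.s k80 k95 2 (.d k240
  k160 k165 11 14))))))), (.s k7 k6 0 (.s k12 k8 1 (.s k15 k10 2 (.s k165 k245 11 (.s k240 k90 14
  (.s k164 k88 13 (.d k244 k84 k86 11 12)))))))] (.c k165 (.l (.s k6 k7 0 (.s k12 k8 1 (.s k3 k9 2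
  (.s k166 k247 12 (.s k86 k246 11 (.s k252 k169 14 (.d k84 k87 k168 0 13)))))))) .n))

def s1_255_115 : T TT 256 :=
  (.q k4 [(.s k7 k6 0 (.s k247 k166 12 (.s k87 k167 11 (.s k86 k84 0 (.d k165 k245 k244 11 12))))),
  (.s k12 k8 1 (.s k15 k10 2 (.s k14 k13 0 (.s k166 k247 12 (.s k90 k242 13 (.s k80 k95 2 (.d k240
  k160 k165 11 14))))))), (.s k7 k6 0 (.s k12 k8 1 (.s k15 k10 2 (.s k165 k245 11 (.s k240 k90 14
  (.s k164 k88 13 (.d k244 k84 k86 11 12)))))))] (.c k165 (.l (.s k6 k7 0 (.s k12 k8 1 (.s k3 k9 2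
  (.s k166 k247 12 (.s k86 k246 11 (.s k252 k169 14 (.d k84 k87 k168 0 13)))))))) .n))

def s1_255_116 : T TT 256 :=
  (.q k4 [(.s k7 k6 0 (.s k247 k166 12 (.s k87 k167 11 (.s k86 k84 0 (.d k165 k245 k244 11 12))))),
  (.s k12 k8 1 (.s k15 k10 2 (.s k14 k13 0 (.s k166 k247 12 (.s k90 k242 13 (.s k80 k95 2 (.d k240
  k160 k165 11 14))))))), (.s k7 k6 0 (.s k12 k8 1 (.s k15 k10 2 (.s k165 k245 11 (.s k240 k90 14
  (.s k164 k88 13 (.d k244 k84 k86 11 12)))))))] (.c k165 (.l (.s k6 k7 0 (.s k12 k8 1 (.s k3 k9 2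
  (.s k166 k247 12 (.s k86 k246 11 (.s k252 k169 14 (.d k84 k87 k168 0 13)))))))) .n))

def s1_255_117 : T TT 256 :=
  (.q k48 [(.s k15 k10 2 (.s k32 k16 3 (.s k37 k26 6 (.s k42 k47 2 (.d k21 k53 k63 3 6))))), (.s k16
  k32 3 (.s k154 k223 10 (.s k165 k245 11 (.s k176 k143 6 (.s k240 k112 7 (.s k80 k160 11 (.d k90
  k95 k15 2 14))))))), (.s k15 k10 2 (.s k37 k26 6 (.s k165 k245 11 (.s k101 k229 7 (.s k154 k207 14
  (.s k176 k143 6 (.d k240 k112 k90 7 14)))))))] (.c k15 (.f k245 k165 11 (.f k16 k32 3 (.f k154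
  k223 10 (.l (.s k207 k101 14 (.s k69 k138 10 (.s k197 k133 7 (.s k192 k202 2 (.s k144 k96 11 (.s
  k149 k159 2 (.d k213 k229 k21 3 7))))))))))) (.c k53 (.l (.s k15 k10 2 (.s k16 k32 3 (.s k26 k37 6
  (.s k154 k223 10 (.s k90 k218 7 (.d k165 k245 k240 11 14))))))) .n)))

def s1_255_118 : T TT 256 :=
  (.q k4 [(.s k7 k6 0 (.s k247 k166 12 (.s k87 k167 11 (.s k86 k84 0 (.d k165 k245 k244 11 12))))),
  (.s k12 k8 1 (.s k15 k10 2 (.s k14 k13 0 (.s k166 k247 12 (.s k90 k242 13 (.s k80 k95 2 (.d k240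
  k160 k165 11 14))))))), (.s k7 k6 0 (.s k12 k8 1 (.s k15 k10 2 (.s k165 k245 11 (.s k240 k90 14
  (.s k164 k88 13 (.d k244 k84 k86 11 12)))))))] (.c k165 (.l (.s k6 k7 0 (.s k12 k8 1 (.s k3 k9 2
  (.s k166 k247 12 (.s k86 k246 11 (.s k252 k169 14 (.d k84 k87 k168 0 13)))))))) .n))

def s1_255_119 : T TT 256 :=
  (.f k15 k10 2 (.q k51 [(.s k17 k34 4 (.s k27 k39 5 (.s k153 k221 9 (.s k90 k216 8 (.d k165 k245
  k240 11 14))))), (.s k17 k34 4 (.s k165 k245 11 (.s k240 k90 14 (.s k177 k114 8 (.d k153 k141 k221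
  5 9))))), (.s k39 k27 5 (.s k165 k245 11 (.s k102 k228 8 (.s k204 k153 14 (.s k78 k141 8 (.d k90
  k240 k114 14 5))))))] (.c k90 (.l (.s k17 k34 4 (.s k39 k27 5 (.s k153 k221 9 (.s k165 k245 11 (.d
  k102 k204 k228 14 8)))))) (.c k153 (.l (.s k34 k17 4 (.s k39 k27 5 (.s k165 k245 11 (.s k102 k228
  8 (.s k170 k238 9 (.s k160 k175 2 (.d k240 k90 k80 14 11)))))))) (.c k165 (.q k4 [(.s k7 k6 0 (.s
  k39 k27 5 (.s k55 k23 3 (.s k21 k38 4 (.d k63 k59 k42 1 6))))), (.s k12 k8 1 (.s k34 k17 4 (.s k38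
  k25 6 (.s k21 k55 4 (.d k42 k46 k63 1 6))))), (.s k7 k6 0 (.s k3 k11 1 (.s k35 k19 3 (.s k39 k27 5
  (.s k23 k55 3 (.d k43 k47 k63 1 5)))))), (.s k12 k8 1 (.s k13 k14 0 (.s k17 k34 4 (.s k25 k38 6
  (.s k21 k29 1 (.d k37 k53 k49 3 5))))))] .n) (.c k240 (.l (.s k17 k34 4 (.s k153 k221 9 (.s k204
  k102 14 (.s k141 k78 8 (.d k165 k177 k245 5 11)))))) (.c k245 (.l (.s k17 k34 4 (.s k27 k39 5 (.s
  k153 k221 9 (.s k90 k216 8 (.s k80 k95 2 (.d k240 k160 k165 11 14))))))) .n)))))))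

def s1_255_120 : T TT 256 :=
  (.q k4 [(.s k7 k6 0 (.s k247 k166 12 (.s k87 k167 11 (.s k86 k84 0 (.d k165 k245 k244 11 12))))),
  (.s k12 k8 1 (.s k15 k10 2 (.s k14 k13 0 (.s k166 k247 12 (.s k90 k242 13 (.s k80 k95 2 (.d k240
  k160 k165 11 14))))))), (.s k7 k6 0 (.s k12 k8 1 (.s k15 k10 2 (.s k165 k245 11 (.s k240 k90 14
  (.s k164 k88 13 (.d k244 k84 k86 11 12)))))))] (.c k165 (.l (.s k6 k7 0 (.s k12 k8 1 (.s k3 k9 2
  (.s k166 k247 12 (.s k86 k246 11 (.s k252 k169 14 (.d k84 k87 k168 0 13)))))))) .n))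

def s1_255_121 : T TT 256 :=
  (.q k4 [(.s k7 k6 0 (.s k247 k166 12 (.s k87 k167 11 (.s k86 k84 0 (.d k165 k245 k244 11 12))))),
  (.s k12 k8 1 (.s k15 k10 2 (.s k14 k13 0 (.s k166 k247 12 (.s k90 k242 13 (.s k80 k95 2 (.d k240
  k160 k165 11 14))))))), (.s k7 k6 0 (.s k12 k8 1 (.s k15 k10 2 (.s k165 k245 11 (.s k240 k90 14
  (.s k164 k88 13 (.d k244 k84 k86 11 12)))))))] (.c k165 (.l (.s k6 k7 0 (.s k12 k8 1 (.s k3 k9 2
  (.s k166 k247 12 (.s k86 k246 11 (.s k252 k169 14 (.d k84 k87 k168 0 13)))))))) .n))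

def s1_255_122 : T TT 256 :=
  (.q k4 [(.s k7 k6 0 (.s k247 k166 12 (.s k87 k167 11 (.s k86 k84 0 (.d k165 k245 k244 11 12))))),
  (.s k12 k8 1 (.s k15 k10 2 (.s k14 k13 0 (.s k166 k247 12 (.s k90 k242 13 (.s k80 k95 2 (.d k240
  k160 k165 11 14))))))), (.s k7 k6 0 (.s k12 k8 1 (.s k15 k10 2 (.s k165 k245 11 (.s k240 k90 14
  (.s k164 k88 13 (.d k244 k84 k86 11 12)))))))] (.c k165 (.l (.s k6 k7 0 (.s k12 k8 1 (.s k3 k9 2
  (.s k166 k247 12 (.s k86 k246 11 (.s k252 k169 14 (.d k84 k87 k168 0 13)))))))) .n))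

def s1_255_123 : T TT 256 :=
  (.q k4 [(.s k7 k6 0 (.s k247 k166 12 (.s k87 k167 11 (.s k86 k84 0 (.d k165 k245 k244 11 12))))),
  (.s k12 k8 1 (.s k15 k10 2 (.s k14 k13 0 (.s k166 k247 12 (.s k90 k242 13 (.s k80 k95 2 (.d k240
  k160 k165 11 14))))))), (.s k7 k6 0 (.s k12 k8 1 (.s k15 k10 2 (.s k165 k245 11 (.s k240 k90 14
  (.s k164 k88 13 (.d k244 k84 k86 11 12)))))))] (.c k165 (.l (.s k6 k7 0 (.s k12 k8 1 (.s k3 k9 2
  (.s k166 k247 12 (.s k86 k246 11 (.s k252 k169 14 (.d k84 k87 k168 0 13)))))))) .n))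

def s1_255_124 : T TT 256 :=
  (.q k4 [(.s k7 k6 0 (.s k165 k245 11 (.s k86 k244 12 (.s k247 k166 12 (.d k87 k84 k167 0 11))))),
  (.s k12 k8 1 (.s k15 k10 2 (.s k14 k13 0 (.s k166 k247 12 (.s k90 k242 13 (.s k80 k95 2 (.d k240
  k160 k165 11 14))))))), (.s k6 k7 0 (.s k12 k8 1 (.s k3 k9 2 (.s k166 k247 12 (.s k86 k246 11 (.s
  k252 k169 14 (.d k84 k87 k168 0 13))))))), (.s k7 k6 0 (.s k12 k8 1 (.s k15 k10 2 (.s k165 k245 11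
  (.s k240 k90 14 (.s k164 k88 13 (.d k244 k84 k86 11 12)))))))] .n)

def s1_255_125 : T TT 256 :=
  (.f k15 k10 2 (.q k60 [(.s k20 k40 5 (.s k30 k45 4 (.s k150 k215 8 (.s k90 k210 9 (.d k165 k245
  k240 11 14))))), (.s k20 k40 5 (.s k165 k245 11 (.s k240 k90 14 (.s k180 k120 9 (.d k150 k135 k215
  4 8))))), (.s k45 k30 4 (.s k165 k245 11 (.s k105 k225 9 (.s k195 k150 14 (.s k75 k135 9 (.d k90
  k240 k120 14 4))))))] (.c k90 (.l (.s k20 k40 5 (.s k45 k30 4 (.s k150 k215 8 (.s k165 k245 11 (.d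
  k105 k195 k225 14 9)))))) (.c k150 (.l (.s k40 k20 5 (.s k45 k30 4 (.s k165 k245 11 (.s k105 k225
  9 (.s k170 k235 8 (.s k160 k175 2 (.d k240 k90 k80 14 11)))))))) (.c k165 (.q k4 [(.s k12 k8 1 (.s
  k20 k40 5 (.s k28 k44 3 (.s k24 k16 1 (.d k36 k52 k48 3 5))))), (.s k7 k6 0 (.s k3 k11 1 (.s k22
  k41 6 (.s k30 k45 4 (.s k26 k18 1 (.d k37 k52 k48 4 6)))))), (.s k7 k6 0 (.s k20 k40 5 (.s k52 k36
  3 (.s k22 k37 4 (.d k3 k11 k41 1 6)))))] (.c k11 (.l (.s k7 k6 0 (.s k20 k40 5 (.s k52 k36 3 (.s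
  k37 k22 4 (.d k48 k56 k26 1 6)))))) (.c k52 (.l (.s k12 k8 1 (.s k13 k14 0 (.s k44 k28 3 (.s k45
  k30 4 (.s k29 k61 3 (.d k46 k47 k63 0 4))))))) .n))) (.c k240 (.l (.s k20 k40 5 (.s k150 k215 8
  (.s k195 k105 14 (.s k135 k75 9 (.d k165 k180 k245 4 11)))))) (.c k245 (.l (.s k20 k40 5 (.s k30
  k45 4 (.s k150 k215 8 (.s k90 k210 9 (.s k80 k95 2 (.d k240 k160 k165 11 14))))))) .n)))))))

def s1_255_126 : T TT 256 :=
  (.q k4 [(.s k7 k6 0 (.s k247 k166 12 (.s k87 k167 11 (.s k86 k84 0 (.d k165 k245 k244 11 12))))),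
  (.s k12 k8 1 (.s k15 k10 2 (.s k14 k13 0 (.s k166 k247 12 (.s k90 k242 13 (.s k80 k95 2 (.d k240
  k160 k165 11 14))))))), (.s k7 k6 0 (.s k12 k8 1 (.s k15 k10 2 (.s k165 k245 11 (.s k240 k90 14
  (.s k164 k88 13 (.d k244 k84 k86 11 12)))))))] (.c k165 (.l (.s k6 k7 0 (.s k12 k8 1 (.s k3 k9 2
  (.s k166 k247 12 (.s k86 k246 11 (.s k252 k169 14 (.d k84 k87 k168 0 13)))))))) .n))

def s1_255_127 : T TT 256 :=
  (.q k63 [(.s k15 k10 2 (.s k21 k42 6 (.s k31 k47 3 (.s k26 k16 2 (.d k37 k53 k48 3 6))))), (.s k15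
  k10 2 (.s k47 k31 3 (.s k165 k245 11 (.s k106 k224 10 (.s k149 k192 14 (.s k181 k133 3 (.d k240
  k122 k90 10 14))))))), (.s k21 k42 6 (.s k53 k37 3 (.s k149 k213 7 (.s k101 k197 11 (.s k117 k69 3
  (.d k245 k181 k165 7 11))))))] (.c k47 (.l (.s k15 k10 2 (.s k21 k42 6 (.s k149 k213 7 (.s k165
  k245 11 (.s k133 k181 3 (.d k192 k74 k106 10 14))))))) .n))

def s1_255_128 : T TT 256 :=
  (.q k4 [(.s k7 k6 0 (.s k247 k166 12 (.s k87 k167 11 (.s k86 k84 0 (.d k165 k245 k244 11 12))))),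
  (.s k12 k8 1 (.s k15 k10 2 (.s k14 k13 0 (.s k166 k247 12 (.s k90 k242 13 (.s k80 k95 2 (.d k240
  k160 k165 11 14))))))), (.s k7 k6 0 (.s k12 k8 1 (.s k15 k10 2 (.s k165 k245 11 (.s k240 k90 14
  (.s k164 k88 13 (.d k244 k84 k86 11 12)))))))] (.c k165 (.l (.s k6 k7 0 (.s k12 k8 1 (.s k3 k9 2
  (.s k166 k247 12 (.s k86 k246 11 (.s k252 k169 14 (.d k84 k87 k168 0 13)))))))) .n))

def s1_255_129 : T TT 256 :=
  (.f k245 k165 11 (.f k15 k10 2 (.q k21 [(.s k37 k53 3 (.s k26 k48 6 (.s k31 k16 2 (.d k63 k47 k42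
  3 6)))), (.s k53 k37 3 (.s k117 k181 7 (.s k101 k69 3 (.d k149 k213 k197 7 11)))), (.s k63 k42 6
  (.s k149 k213 7 (.s k192 k106 14 (.s k128 k64 7 (.s k133 k74 10 (.s k69 k197 7 (.d k138 k143 k207
  2 10)))))))] (.c k65 (.q k193 [(.s k37 k53 3 (.s k26 k48 6 (.s k31 k16 2 (.d k63 k47 k42 3 6)))),
  (.s k213 k149 7 (.s k253 k233 5 (.s k241 k249 1 (.s k209 k225 3 (.s k217 k221 1 (.d k229 k197 k205
  3 5))))))] .n) (.c k193 (.q k65 [(.s k37 k53 3 (.s k26 k48 6 (.s k31 k16 2 (.d k63 k47 k42 3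
  6)))), (.s k53 k37 3 (.s k117 k181 7 (.s k101 k69 3 (.d k149 k213 k197 7 11)))), (.s k63 k42 6 (.s
  k105 k125 5 (.s k149 k213 7 (.s k195 k130 8 (.s k107 k151 13 (.d k106 k192 k104 14 0))))))] .n)
  .n)))))

def s1_255_130 : T TT 256 :=
  (.q k4 [(.s k7 k6 0 (.s k247 k166 12 (.s k87 k167 11 (.s k86 k84 0 (.d k165 k245 k244 11 12))))),
  (.s k12 k8 1 (.s k15 k10 2 (.s k14 k13 0 (.s k166 k247 12 (.s k90 k242 13 (.s k80 k95 2 (.d k240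
  k160 k165 11 14))))))), (.s k7 k6 0 (.s k12 k8 1 (.s k15 k10 2 (.s k165 k245 11 (.s k240 k90 14
  (.s k164 k88 13 (.d k244 k84 k86 11 12)))))))] (.c k165 (.l (.s k6 k7 0 (.s k12 k8 1 (.s k3 k9 2
  (.s k166 k247 12 (.s k86 k246 11 (.s k252 k169 14 (.d k84 k87 k168 0 13)))))))) .n))

def s1_255_131 : T TT 256 :=
  (.q k4 [(.s k7 k6 0 (.s k247 k166 12 (.s k87 k167 11 (.s k86 k84 0 (.d k165 k245 k244 11 12))))),
  (.s k12 k8 1 (.s k15 k10 2 (.s k14 k13 0 (.s k166 k247 12 (.s k90 k242 13 (.s k80 k95 2 (.d k240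
  k160 k165 11 14))))))), (.s k7 k6 0 (.s k12 k8 1 (.s k15 k10 2 (.s k165 k245 11 (.s k240 k90 14
  (.s k164 k88 13 (.d k244 k84 k86 11 12)))))))] (.c k165 (.l (.s k6 k7 0 (.s k12 k8 1 (.s k3 k9 2
  (.s k166 k247 12 (.s k86 k246 11 (.s k252 k169 14 (.d k84 k87 k168 0 13)))))))) .n))

def s1_255_132 : T TT 256 :=
  (.q k4 [(.s k7 k6 0 (.s k165 k245 11 (.s k86 k244 12 (.s k87 k84 0 (.d k247 k167 k166 11 12))))),
  (.s k12 k8 1 (.s k15 k10 2 (.s k14 k13 0 (.s k166 k247 12 (.s k90 k242 13 (.s k80 k95 2 (.d k240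
  k160 k165 11 14))))))), (.s k6 k7 0 (.s k12 k8 1 (.s k3 k9 2 (.s k166 k247 12 (.s k86 k246 11 (.s
  k252 k169 14 (.d k84 k87 k168 0 13))))))), (.s k7 k6 0 (.s k12 k8 1 (.s k15 k10 2 (.s k165 k245 11
  (.s k240 k90 14 (.s k164 k88 13 (.d k244 k84 k86 11 12)))))))] .n)

def s1_255_133 : T TT 256 :=
  (.q k4 [(.s k7 k6 0 (.s k247 k166 12 (.s k87 k167 11 (.s k86 k84 0 (.d k165 k245 k244 11 12))))),
  (.s k12 k8 1 (.s k15 k10 2 (.s k14 k13 0 (.s k166 k247 12 (.s k90 k242 13 (.s k80 k95 2 (.d k240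
  k160 k165 11 14))))))), (.s k7 k6 0 (.s k12 k8 1 (.s k15 k10 2 (.s k165 k245 11 (.s k240 k90 14
  (.s k164 k88 13 (.d k244 k84 k86 11 12)))))))] (.c k165 (.l (.s k6 k7 0 (.s k12 k8 1 (.s k3 k9 2
  (.s k166 k247 12 (.s k86 k246 11 (.s k252 k169 14 (.d k84 k87 k168 0 13)))))))) .n))

def s1_255_134 : T TT 256 :=
  (.q k4 [(.s k7 k6 0 (.s k165 k245 11 (.s k86 k244 12 (.s k87 k84 0 (.d k247 k167 k166 11 12))))),
  (.s k12 k8 1 (.s k15 k10 2 (.s k14 k13 0 (.s k166 k247 12 (.s k90 k242 13 (.s k80 k95 2 (.d k240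
  k160 k165 11 14))))))), (.s k6 k7 0 (.s k12 k8 1 (.s k3 k9 2 (.s k166 k247 12 (.s k86 k246 11 (.s
  k252 k169 14 (.d k84 k87 k168 0 13))))))), (.s k7 k6 0 (.s k12 k8 1 (.s k15 k10 2 (.s k165 k245 11
  (.s k240 k90 14 (.s k164 k88 13 (.d k244 k84 k86 11 12)))))))] .n)

def s1_255_135 : T TT 256 :=
  (.q k4 [(.s k7 k6 0 (.s k165 k245 11 (.s k86 k244 12 (.s k87 k84 0 (.d k247 k167 k166 11 12))))),
  (.s k12 k8 1 (.s k15 k10 2 (.s k14 k13 0 (.s k166 k247 12 (.s k90 k242 13 (.s k80 k95 2 (.d k240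
  k160 k165 11 14))))))), (.s k6 k7 0 (.s k12 k8 1 (.s k3 k9 2 (.s k166 k247 12 (.s k86 k246 11 (.s
  k252 k169 14 (.d k84 k87 k168 0 13))))))), (.s k7 k6 0 (.s k12 k8 1 (.s k15 k10 2 (.s k165 k245 11
  (.s k240 k90 14 (.s k164 k88 13 (.d k244 k84 k86 11 12)))))))] .n)

def s1_255_136 : T TT 256 :=
  (.q k4 [(.s k7 k6 0 (.s k247 k166 12 (.s k87 k167 11 (.s k86 k84 0 (.d k165 k245 k244 11 12))))),
  (.s k12 k8 1 (.s k15 k10 2 (.s k14 k13 0 (.s k166 k247 12 (.s k90 k242 13 (.s k80 k95 2 (.d k240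
  k160 k165 11 14))))))), (.s k7 k6 0 (.s k12 k8 1 (.s k15 k10 2 (.s k165 k245 11 (.s k240 k90 14
  (.s k164 k88 13 (.d k244 k84 k86 11 12)))))))] (.c k165 (.l (.s k6 k7 0 (.s k12 k8 1 (.s k3 k9 2
  (.s k166 k247 12 (.s k86 k246 11 (.s k252 k169 14 (.d k84 k87 k168 0 13)))))))) .n))

def s1_255_137 : T TT 256 :=
  (.q k69 [(.s k15 k10 2 (.s k133 k197 7 (.s k74 k192 10 (.s k79 k64 2 (.d k207 k143 k138 7 10))))),
  (.s k101 k117 3 (.s k165 k245 11 (.s k37 k229 7 (.s k53 k21 3 (.d k197 k133 k149 7 11))))), (.s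
  k15 k10 2 (.s k101 k117 3 (.s k165 k245 11 (.s k207 k138 10 (.s k48 k154 14 (.d k37 k26 k229 6
  7))))))] .n)

def s1_255_138 : T TT 256 :=
  (.q k4 [(.s k7 k6 0 (.s k247 k166 12 (.s k87 k167 11 (.s k86 k84 0 (.d k165 k245 k244 11 12))))),
  (.s k12 k8 1 (.s k15 k10 2 (.s k14 k13 0 (.s k166 k247 12 (.s k90 k242 13 (.s k80 k95 2 (.d k240
  k160 k165 11 14))))))), (.s k7 k6 0 (.s k12 k8 1 (.s k15 k10 2 (.s k165 k245 11 (.s k240 k90 14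
  (.s k164 k88 13 (.d k244 k84 k86 11 12)))))))] (.c k165 (.l (.s k6 k7 0 (.s k12 k8 1 (.s k3 k9 2
  (.s k166 k247 12 (.s k86 k246 11 (.s k252 k169 14 (.d k84 k87 k168 0 13)))))))) .n))

def s1_255_139 : T TT 256 :=
  (.q k4 [(.s k7 k6 0 (.s k247 k166 12 (.s k87 k167 11 (.s k86 k84 0 (.d k165 k245 k244 11 12))))),
  (.s k12 k8 1 (.s k15 k10 2 (.s k14 k13 0 (.s k166 k247 12 (.s k90 k242 13 (.s k80 k95 2 (.d k240
  k160 k165 11 14))))))), (.s k7 k6 0 (.s k12 k8 1 (.s k15 k10 2 (.s k165 k245 11 (.s k240 k90 14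
  (.s k164 k88 13 (.d k244 k84 k86 11 12)))))))] (.c k165 (.l (.s k6 k7 0 (.s k12 k8 1 (.s k3 k9 2
  (.s k166 k247 12 (.s k86 k246 11 (.s k252 k169 14 (.d k84 k87 k168 0 13)))))))) .n))

def s1_255_140 : T TT 256 :=
  (.q k4 [(.s k7 k6 0 (.s k165 k245 11 (.s k86 k244 12 (.s k87 k84 0 (.d k247 k167 k166 11 12))))),
  (.s k12 k8 1 (.s k15 k10 2 (.s k14 k13 0 (.s k166 k247 12 (.s k90 k242 13 (.s k80 k95 2 (.d k240
  k160 k165 11 14))))))), (.s k6 k7 0 (.s k12 k8 1 (.s k3 k9 2 (.s k166 k247 12 (.s k86 k246 11 (.s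
  k252 k169 14 (.d k84 k87 k168 0 13))))))), (.s k7 k6 0 (.s k12 k8 1 (.s k15 k10 2 (.s k165 k245 11
  (.s k240 k90 14 (.s k164 k88 13 (.d k244 k84 k86 11 12)))))))] .n)

def s1_255_141 : T TT 256 :=
  (.q k4 [(.s k7 k6 0 (.s k247 k166 12 (.s k87 k167 11 (.s k86 k84 0 (.d k165 k245 k244 11 12))))),
  (.s k12 k8 1 (.s k15 k10 2 (.s k14 k13 0 (.s k166 k247 12 (.s k90 k242 13 (.s k80 k95 2 (.d k240
  k160 k165 11 14))))))), (.s k7 k6 0 (.s k12 k8 1 (.s k15 k10 2 (.s k165 k245 11 (.s k240 k90 14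
  (.s k164 k88 13 (.d k244 k84 k86 11 12)))))))] (.c k165 (.l (.s k6 k7 0 (.s k12 k8 1 (.s k3 k9 2
  (.s k166 k247 12 (.s k86 k246 11 (.s k252 k169 14 (.d k84 k87 k168 0 13)))))))) .n))

def s1_255_142 : T TT 256 :=
  (.q k4 [(.s k7 k6 0 (.s k165 k245 11 (.s k86 k244 12 (.s k87 k84 0 (.d k247 k167 k166 11 12))))),
  (.s k12 k8 1 (.s k15 k10 2 (.s k14 k13 0 (.s k166 k247 12 (.s k90 k242 13 (.s k80 k95 2 (.d k240
  k160 k165 11 14))))))), (.s k6 k7 0 (.s k12 k8 1 (.s k3 k9 2 (.s k166 k247 12 (.s k86 k246 11 (.s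
  k252 k169 14 (.d k84 k87 k168 0 13))))))), (.s k7 k6 0 (.s k12 k8 1 (.s k15 k10 2 (.s k165 k245 11
  (.s k240 k90 14 (.s k164 k88 13 (.d k244 k84 k86 11 12)))))))] .n)

def s1_255_143 : T TT 256 :=
  (.q k4 [(.s k7 k6 0 (.s k165 k245 11 (.s k86 k244 12 (.s k87 k84 0 (.d k247 k167 k166 11 12))))),
  (.s k12 k8 1 (.s k15 k10 2 (.s k14 k13 0 (.s k166 k247 12 (.s k90 k242 13 (.s k80 k95 2 (.d k240
  k160 k165 11 14))))))), (.s k6 k7 0 (.s k12 k8 1 (.s k3 k9 2 (.s k166 k247 12 (.s k86 k246 11 (.s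
  k252 k169 14 (.d k84 k87 k168 0 13))))))), (.s k7 k6 0 (.s k12 k8 1 (.s k15 k10 2 (.s k165 k245 11
  (.s k240 k90 14 (.s k164 k88 13 (.d k244 k84 k86 11 12)))))))] .n)

def s1_255_144 : T TT 256 :=
  (.q k4 [(.s k7 k6 0 (.s k247 k166 12 (.s k87 k167 11 (.s k86 k84 0 (.d k165 k245 k244 11 12))))),
  (.s k12 k8 1 (.s k15 k10 2 (.s k14 k13 0 (.s k166 k247 12 (.s k90 k242 13 (.s k80 k95 2 (.d k240
  k160 k165 11 14))))))), (.s k7 k6 0 (.s k12 k8 1 (.s k15 k10 2 (.s k165 k245 11 (.s k240 k90 14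
  (.s k164 k88 13 (.d k244 k84 k86 11 12)))))))] (.c k165 (.l (.s k6 k7 0 (.s k12 k8 1 (.s k3 k9 2
  (.s k166 k247 12 (.s k86 k246 11 (.s k252 k169 14 (.d k84 k87 k168 0 13)))))))) .n))

def s1_255_145 : T TT 256 :=
  (.q k4 [(.s k7 k6 0 (.s k247 k166 12 (.s k87 k167 11 (.s k86 k84 0 (.d k165 k245 k244 11 12))))),
  (.s k12 k8 1 (.s k15 k10 2 (.s k14 k13 0 (.s k166 k247 12 (.s k90 k242 13 (.s k80 k95 2 (.d k240
  k160 k165 11 14))))))), (.s k7 k6 0 (.s k12 k8 1 (.s k15 k10 2 (.s k165 k245 11 (.s k240 k90 14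
  (.s k164 k88 13 (.d k244 k84 k86 11 12)))))))] (.c k165 (.l (.s k6 k7 0 (.s k12 k8 1 (.s k3 k9 2
  (.s k166 k247 12 (.s k86 k246 11 (.s k252 k169 14 (.d k84 k87 k168 0 13)))))))) .n))

def s1_255_146 : T TT 256 :=
  (.q k4 [(.s k7 k6 0 (.s k247 k166 12 (.s k87 k167 11 (.s k86 k84 0 (.d k165 k245 k244 11 12))))),
  (.s k12 k8 1 (.s k15 k10 2 (.s k14 k13 0 (.s k166 k247 12 (.s k90 k242 13 (.s k80 k95 2 (.d k240
  k160 k165 11 14))))))), (.s k7 k6 0 (.s k12 k8 1 (.s k15 k10 2 (.s k165 k245 11 (.s k240 k90 14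
  (.s k164 k88 13 (.d k244 k84 k86 11 12)))))))] (.c k165 (.l (.s k6 k7 0 (.s k12 k8 1 (.s k3 k9 2
  (.s k166 k247 12 (.s k86 k246 11 (.s k252 k169 14 (.d k84 k87 k168 0 13)))))))) .n))

def s1_255_147 : T TT 256 :=
  (.q k4 [(.s k7 k6 0 (.s k247 k166 12 (.s k87 k167 11 (.s k86 k84 0 (.d k165 k245 k244 11 12))))),
  (.s k12 k8 1 (.s k15 k10 2 (.s k14 k13 0 (.s k166 k247 12 (.s k90 k242 13 (.s k80 k95 2 (.d k240
  k160 k165 11 14))))))), (.s k7 k6 0 (.s k12 k8 1 (.s k15 k10 2 (.s k165 k245 11 (.s k240 k90 14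
  (.s k164 k88 13 (.d k244 k84 k86 11 12)))))))] (.c k165 (.l (.s k6 k7 0 (.s k12 k8 1 (.s k3 k9 2
  (.s k166 k247 12 (.s k86 k246 11 (.s k252 k169 14 (.d k84 k87 k168 0 13)))))))) .n))

def s1_255_148 : T TT 256 :=
  (.q k4 [(.s k7 k6 0 (.s k165 k245 11 (.s k86 k244 12 (.s k247 k166 12 (.d k87 k84 k167 0 11))))),
  (.s k12 k8 1 (.s k15 k10 2 (.s k14 k13 0 (.s k166 k247 12 (.s k90 k242 13 (.s k80 k95 2 (.d k240
  k160 k165 11 14))))))), (.s k6 k7 0 (.s k12 k8 1 (.s k3 k9 2 (.s k166 k247 12 (.s k86 k246 11 (.s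
  k252 k169 14 (.d k84 k87 k168 0 13))))))), (.s k7 k6 0 (.s k12 k8 1 (.s k15 k10 2 (.s k165 k245 11
  (.s k240 k90 14 (.s k164 k88 13 (.d k244 k84 k86 11 12)))))))] .n)

def s1_255_149 : T TT 256 :=
  (.q k4 [(.s k7 k6 0 (.s k165 k245 11 (.s k86 k244 12 (.s k87 k84 0 (.d k247 k167 k166 11 12))))),
  (.s k12 k8 1 (.s k15 k10 2 (.s k14 k13 0 (.s k166 k247 12 (.s k90 k242 13 (.s k80 k95 2 (.d k240
  k160 k165 11 14))))))), (.s k6 k7 0 (.s k12 k8 1 (.s k3 k9 2 (.s k166 k247 12 (.s k86 k246 11 (.s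
  k252 k169 14 (.d k84 k87 k168 0 13))))))), (.s k7 k6 0 (.s k12 k8 1 (.s k15 k10 2 (.s k165 k245 11
  (.s k240 k90 14 (.s k164 k88 13 (.d k244 k84 k86 11 12)))))))] .n)

def s1_255_150 : T TT 256 :=
  (.q k4 [(.s k7 k6 0 (.s k165 k245 11 (.s k86 k244 12 (.s k87 k84 0 (.d k247 k167 k166 11 12))))),
  (.s k12 k8 1 (.s k15 k10 2 (.s k14 k13 0 (.s k166 k247 12 (.s k90 k242 13 (.s k80 k95 2 (.d k240
  k160 k165 11 14))))))), (.s k6 k7 0 (.s k12 k8 1 (.s k3 k9 2 (.s k166 k247 12 (.s k86 k246 11 (.s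
  k252 k169 14 (.d k84 k87 k168 0 13))))))), (.s k7 k6 0 (.s k12 k8 1 (.s k15 k10 2 (.s k165 k245 11
  (.s k240 k90 14 (.s k164 k88 13 (.d k244 k84 k86 11 12)))))))] .n)

def s1_255_151 : T TT 256 :=
  (.q k4 [(.s k7 k6 0 (.s k165 k245 11 (.s k86 k244 12 (.s k87 k84 0 (.d k247 k167 k166 11 12))))),
  (.s k12 k8 1 (.s k15 k10 2 (.s k14 k13 0 (.s k166 k247 12 (.s k90 k242 13 (.s k80 k95 2 (.d k240
  k160 k165 11 14))))))), (.s k6 k7 0 (.s k12 k8 1 (.s k3 k9 2 (.s k166 k247 12 (.s k86 k246 11 (.s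
  k252 k169 14 (.d k84 k87 k168 0 13))))))), (.s k7 k6 0 (.s k12 k8 1 (.s k15 k10 2 (.s k165 k245 11
  (.s k240 k90 14 (.s k164 k88 13 (.d k244 k84 k86 11 12)))))))] .n)

def s1_255_152 : T TT 256 :=
  (.q k4 [(.s k7 k6 0 (.s k165 k245 11 (.s k86 k244 12 (.s k247 k166 12 (.d k87 k84 k167 0 11))))),
  (.s k12 k8 1 (.s k15 k10 2 (.s k14 k13 0 (.s k166 k247 12 (.s k90 k242 13 (.s k80 k95 2 (.d k240
  k160 k165 11 14))))))), (.s k6 k7 0 (.s k12 k8 1 (.s k3 k9 2 (.s k166 k247 12 (.s k86 k246 11 (.s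
  k252 k169 14 (.d k84 k87 k168 0 13))))))), (.s k7 k6 0 (.s k12 k8 1 (.s k15 k10 2 (.s k165 k245 11
  (.s k240 k90 14 (.s k164 k88 13 (.d k244 k84 k86 11 12)))))))] .n)

def s1_255_153 : T TT 256 :=
  (.q k4 [(.s k7 k6 0 (.s k165 k245 11 (.s k86 k244 12 (.s k87 k84 0 (.d k247 k167 k166 11 12))))),
  (.s k12 k8 1 (.s k15 k10 2 (.s k14 k13 0 (.s k166 k247 12 (.s k90 k242 13 (.s k80 k95 2 (.d k240
  k160 k165 11 14))))))), (.s k6 k7 0 (.s k12 k8 1 (.s k3 k9 2 (.s k166 k247 12 (.s k86 k246 11 (.s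
  k252 k169 14 (.d k84 k87 k168 0 13))))))), (.s k7 k6 0 (.s k12 k8 1 (.s k15 k10 2 (.s k165 k245 11
  (.s k240 k90 14 (.s k164 k88 13 (.d k244 k84 k86 11 12)))))))] .n)

def s1_255_154 : T TT 256 :=
  (.q k4 [(.s k7 k6 0 (.s k165 k245 11 (.s k86 k244 12 (.s k87 k84 0 (.d k247 k167 k166 11 12))))),
  (.s k12 k8 1 (.s k15 k10 2 (.s k14 k13 0 (.s k166 k247 12 (.s k90 k242 13 (.s k80 k95 2 (.d k240
  k160 k165 11 14))))))), (.s k6 k7 0 (.s k12 k8 1 (.s k3 k9 2 (.s k166 k247 12 (.s k86 k246 11 (.s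
  k252 k169 14 (.d k84 k87 k168 0 13))))))), (.s k7 k6 0 (.s k12 k8 1 (.s k15 k10 2 (.s k165 k245 11
  (.s k240 k90 14 (.s k164 k88 13 (.d k244 k84 k86 11 12)))))))] .n)

def s1_255_155 : T TT 256 :=
  (.q k4 [(.s k7 k6 0 (.s k165 k245 11 (.s k86 k244 12 (.s k87 k84 0 (.d k247 k167 k166 11 12))))),
  (.s k12 k8 1 (.s k15 k10 2 (.s k14 k13 0 (.s k166 k247 12 (.s k90 k242 13 (.s k80 k95 2 (.d k240
  k160 k165 11 14))))))), (.s k6 k7 0 (.s k12 k8 1 (.s k3 k9 2 (.s k166 k247 12 (.s k86 k246 11 (.s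
  k252 k169 14 (.d k84 k87 k168 0 13))))))), (.s k7 k6 0 (.s k12 k8 1 (.s k15 k10 2 (.s k165 k245 11
  (.s k240 k90 14 (.s k164 k88 13 (.d k244 k84 k86 11 12)))))))] .n)

def s1_255_156 : T TT 256 :=
  (.q k4 [(.s k7 k6 0 (.s k247 k166 12 (.s k87 k167 11 (.s k86 k84 0 (.d k165 k245 k244 11 12))))),
  (.s k12 k8 1 (.s k15 k10 2 (.s k14 k13 0 (.s k166 k247 12 (.s k90 k242 13 (.s k80 k95 2 (.d k240
  k160 k165 11 14))))))), (.s k7 k6 0 (.s k12 k8 1 (.s k15 k10 2 (.s k165 k245 11 (.s k240 k90 14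
  (.s k164 k88 13 (.d k244 k84 k86 11 12)))))))] (.c k165 (.l (.s k6 k7 0 (.s k12 k8 1 (.s k3 k9 2
  (.s k166 k247 12 (.s k86 k246 11 (.s k252 k169 14 (.d k84 k87 k168 0 13)))))))) .n))

def s1_255_157 : T TT 256 :=
  (.q k4 [(.s k7 k6 0 (.s k247 k166 12 (.s k87 k167 11 (.s k86 k84 0 (.d k165 k245 k244 11 12))))),
  (.s k12 k8 1 (.s k15 k10 2 (.s k14 k13 0 (.s k166 k247 12 (.s k90 k242 13 (.s k80 k95 2 (.d k240
  k160 k165 11 14))))))), (.s k7 k6 0 (.s k12 k8 1 (.s k15 k10 2 (.s k165 k245 11 (.s k240 k90 14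
  (.s k164 k88 13 (.d k244 k84 k86 11 12)))))))] (.c k165 (.l (.s k6 k7 0 (.s k12 k8 1 (.s k3 k9 2
  (.s k166 k247 12 (.s k86 k246 11 (.s k252 k169 14 (.d k84 k87 k168 0 13)))))))) .n))

def s1_255_158 : T TT 256 :=
  (.q k4 [(.s k7 k6 0 (.s k247 k166 12 (.s k87 k167 11 (.s k86 k84 0 (.d k165 k245 k244 11 12))))),
  (.s k12 k8 1 (.s k15 k10 2 (.s k14 k13 0 (.s k166 k247 12 (.s k90 k242 13 (.s k80 k95 2 (.d k240
  k160 k165 11 14))))))), (.s k7 k6 0 (.s k12 k8 1 (.s k15 k10 2 (.s k165 k245 11 (.s k240 k90 14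
  (.s k164 k88 13 (.d k244 k84 k86 11 12)))))))] (.c k165 (.l (.s k6 k7 0 (.s k12 k8 1 (.s k3 k9 2
  (.s k166 k247 12 (.s k86 k246 11 (.s k252 k169 14 (.d k84 k87 k168 0 13)))))))) .n))

def s1_255_159 : T TT 256 :=
  (.q k4 [(.s k7 k6 0 (.s k247 k166 12 (.s k87 k167 11 (.s k86 k84 0 (.d k165 k245 k244 11 12))))),
  (.s k12 k8 1 (.s k15 k10 2 (.s k14 k13 0 (.s k166 k247 12 (.s k90 k242 13 (.s k80 k95 2 (.d k240
  k160 k165 11 14))))))), (.s k7 k6 0 (.s k12 k8 1 (.s k15 k10 2 (.s k165 k245 11 (.s k240 k90 14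
  (.s k164 k88 13 (.d k244 k84 k86 11 12)))))))] (.c k165 (.l (.s k6 k7 0 (.s k12 k8 1 (.s k3 k9 2
  (.s k166 k247 12 (.s k86 k246 11 (.s k252 k169 14 (.d k84 k87 k168 0 13)))))))) .n))

def s1_255_160 : T TT 256 :=
  (.q k21 [(.s k15 k10 2 (.s k37 k53 3 (.s k26 k48 6 (.s k31 k16 2 (.d k63 k47 k42 3 6))))), (.s k53
  k37 3 (.s k149 k213 7 (.s k101 k197 11 (.s k117 k69 3 (.d k245 k181 k165 7 11))))), (.s k15 k10 2
  (.s k63 k42 6 (.s k47 k31 3 (.s k149 k213 7 (.s k165 k245 11 (.d k106 k192 k224 14 10))))))] .n)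

def s1_255_161 : T TT 256 :=
  (.f k165 k245 11 (.f k15 k10 2 (.f k240 k90 14 (.q k89 [(.s k241 k13 13 (.s k243 k242 0 (.d k81
  k93 k162 1 12))), (.s k81 k93 1 (.s k243 k162 12 (.s k167 k91 13 (.d k166 k12 k164 14 0)))), (.s
  k241 k13 13 (.s k243 k242 0 (.s k167 k91 13 (.d k166 k164 k12 0 14))))] (.c k81 (.l (.s k241 k13
  13 (.s k243 k242 0 (.s k166 k12 14 (.d k167 k164 k91 0 13))))) (.c k166 (.l (.s k81 k93 1 (.s k241
  k13 13 (.d k243 k242 k162 0 12)))) (.c k170 (.q k250 [(.s k241 k13 13 (.s k243 k242 0 (.d k81 k93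
  k162 1 12))), (.s k81 k93 1 (.s k243 k162 12 (.s k167 k91 13 (.d k166 k12 k164 14 0)))), (.s k241
  k13 13 (.s k243 k242 0 (.s k167 k91 13 (.d k166 k164 k12 0 14))))] (.c k81 (.l (.s k241 k13 13 (.s
  k243 k242 0 (.s k166 k12 14 (.d k167 k164 k91 0 13))))) (.c k166 (.l (.s k81 k93 1 (.s k241 k13 13
  (.d k243 k242 k162 0 12)))) (.c k241 (.l (.s k81 k93 1 (.s k243 k162 12 (.s k167 k91 13 (.d k166
  k12 k164 14 0))))) (.c k243 (.l (.s k13 k241 13 (.s k81 k93 1 (.s k12 k14 0 (.s k4 k8 1 (.s k164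
  k88 13 (.d k166 k167 k247 0 12))))))) .n))))) (.c k241 (.l (.s k81 k93 1 (.s k243 k162 12 (.s k167
  k91 13 (.d k166 k12 k164 14 0))))) (.c k243 (.l (.s k13 k241 13 (.s k81 k93 1 (.s k12 k14 0 (.s k4
  k8 1 (.s k164 k88 13 (.d k166 k167 k247 0 12))))))) (.c k250 (.q k170 [(.d k160 k175 k80 2 11),
  (.s k8 k251 12 (.s k12 k4 1 (.d k13 k241 k14 13 0)))] (.c k81 (.l (.s k241 k13 13 (.d k160 k175
  k80 2 11))) (.c k241 (.l (.s k81 k93 1 (.d k160 k175 k80 2 11))) .n))) .n))))))))))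

def s1_255_162 : T TT 256 :=
  (.q k4 [(.s k7 k6 0 (.s k165 k245 11 (.s k86 k244 12 (.s k87 k84 0 (.d k247 k167 k166 11 12))))),
  (.s k12 k8 1 (.s k15 k10 2 (.s k14 k13 0 (.s k166 k247 12 (.s k90 k242 13 (.s k80 k95 2 (.d k240
  k160 k165 11 14))))))), (.s k6 k7 0 (.s k12 k8 1 (.s k3 k9 2 (.s k166 k247 12 (.s k86 k246 11 (.s
  k252 k169 14 (.d k84 k87 k168 0 13))))))), (.s k7 k6 0 (.s k12 k8 1 (.s k15 k10 2 (.s k165 k245 11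
  (.s k240 k90 14 (.s k164 k88 13 (.d k244 k84 k86 11 12)))))))] .n)

def s1_255_163 : T TT 256 :=
  (.q k4 [(.s k7 k6 0 (.s k165 k245 11 (.s k86 k244 12 (.s k87 k84 0 (.d k247 k167 k166 11 12))))),
  (.s k12 k8 1 (.s k15 k10 2 (.s k14 k13 0 (.s k166 k247 12 (.s k90 k242 13 (.s k80 k95 2 (.d k240
  k160 k165 11 14))))))), (.s k6 k7 0 (.s k12 k8 1 (.s k3 k9 2 (.s k166 k247 12 (.s k86 k246 11 (.s
  k252 k169 14 (.d k84 k87 k168 0 13))))))), (.s k7 k6 0 (.s k12 k8 1 (.s k15 k10 2 (.s k165 k245 11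
  (.s k240 k90 14 (.s k164 k88 13 (.d k244 k84 k86 11 12)))))))] .n)

def s1_255_164 : T TT 256 :=
  (.q k4 [(.s k7 k6 0 (.s k165 k245 11 (.s k86 k244 12 (.s k87 k84 0 (.d k247 k167 k166 11 12))))),
  (.s k12 k8 1 (.s k15 k10 2 (.s k14 k13 0 (.s k166 k247 12 (.s k90 k242 13 (.s k80 k95 2 (.d k240
  k160 k165 11 14))))))), (.s k6 k7 0 (.s k12 k8 1 (.s k3 k9 2 (.s k166 k247 12 (.s k86 k246 11 (.s
  k252 k169 14 (.d k84 k87 k168 0 13)))))))] (.c k166 (.l (.s k7 k6 0 (.s k15 k10 2 (.s k3 k11 1 (.s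
  k165 k245 11 (.s k86 k244 12 (.s k84 k87 0 (.d k252 k168 k169 13 14)))))))) (.c k247 (.l (.s k12
  k8 1 (.s k15 k10 2 (.s k13 k14 0 (.s k165 k245 11 (.s k89 k241 13 (.s k81 k93 1 (.d k243 k162 k166
  12 14)))))))) .n)))

def s1_255_165 : T TT 256 :=
  (.f k15 k10 2 (.q k21 [(.s k37 k53 3 (.s k26 k48 6 (.s k31 k16 2 (.d k63 k47 k42 3 6)))), (.s k63
  k42 6 (.s k149 k213 7 (.s k192 k106 14 (.s k128 k64 7 (.s k133 k74 10 (.s k69 k197 7 (.d k138 k143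
  k207 2 10))))))), (.s k53 k37 3 (.s k149 k213 7 (.s k101 k197 11 (.s k69 k117 3 (.s k207 k138 10
  (.s k48 k154 14 (.d k63 k58 k42 2 6)))))))] (.c k42 (.f k53 k37 3 (.f k149 k213 7 (.f k101 k197 11
  (.l (.s k69 k117 3 (.s k207 k138 10 (.s k79 k143 7 (.s k90 k112 6 (.s k31 k208 10 (.s k26 k16 2
  (.d k154 k218 k48 7 14))))))))))) (.c k58 (.l (.s k37 k53 3 (.s k26 k48 6 (.s k63 k42 6 (.d k31
  k16 k47 2 3))))) (.c k63 (.f k37 k53 3 (.f k48 k26 6 (.l (.s k16 k32 3 (.s k154 k223 10 (.s k207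
  k101 14 (.s k69 k138 10 (.s k79 k143 7 (.s k74 k64 2 (.d k133 k197 k192 7 10)))))))))) .n)))))

def s1_255_166 : T TT 256 :=
  (.q k21 [(.s k15 k10 2 (.s k37 k53 3 (.s k26 k48 6 (.s k31 k16 2 (.d k63 k47 k42 3 6))))), (.s k53
  k37 3 (.s k149 k213 7 (.s k101 k197 11 (.s k117 k69 3 (.d k245 k181 k165 7 11))))), (.s k15 k10 2
  (.s k63 k42 6 (.s k47 k31 3 (.s k149 k213 7 (.s k165 k245 11 (.d k106 k192 k224 14 10))))))] .n)

def s1_255_167 : T TT 256 :=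
  (.q k21 [(.s k15 k10 2 (.s k37 k53 3 (.s k26 k48 6 (.s k31 k16 2 (.d k63 k47 k42 3 6))))), (.s k53
  k37 3 (.s k149 k213 7 (.s k101 k197 11 (.s k117 k69 3 (.d k245 k181 k165 7 11))))), (.s k15 k10 2
  (.s k63 k42 6 (.s k47 k31 3 (.s k149 k213 7 (.s k165 k245 11 (.d k106 k192 k224 14 10))))))] .n)

def s1_255_168 : T TT 256 :=
  (.q k21 [(.s k15 k10 2 (.s k37 k53 3 (.s k26 k48 6 (.s k31 k16 2 (.d k63 k47 k42 3 6))))), (.s k53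
  k37 3 (.s k149 k213 7 (.s k101 k197 11 (.s k117 k69 3 (.d k245 k181 k165 7 11))))), (.s k15 k10 2
  (.s k63 k42 6 (.s k47 k31 3 (.s k149 k213 7 (.s k165 k245 11 (.d k106 k192 k224 14 10))))))] .n)

def s1_255_169 : T TT 256 :=
  (.q k21 [(.s k15 k10 2 (.s k37 k53 3 (.s k26 k48 6 (.s k31 k16 2 (.d k63 k47 k42 3 6))))), (.s k53
  k37 3 (.s k149 k213 7 (.s k101 k197 11 (.s k117 k69 3 (.d k245 k181 k165 7 11))))), (.s k15 k10 2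
  (.s k63 k42 6 (.s k47 k31 3 (.s k149 k213 7 (.s k165 k245 11 (.d k106 k192 k224 14 10))))))] .n)

def s1_255_170 : T TT 256 :=
  (.q k4 [(.s k7 k6 0 (.s k165 k245 11 (.s k86 k244 12 (.s k87 k84 0 (.d k247 k167 k166 11 12))))),
  (.s k12 k8 1 (.s k15 k10 2 (.s k14 k13 0 (.s k166 k247 12 (.s k90 k242 13 (.s k80 k95 2 (.d k240
  k160 k165 11 14))))))), (.s k6 k7 0 (.s k12 k8 1 (.s k3 k9 2 (.s k166 k247 12 (.s k86 k246 11 (.s
  k252 k169 14 (.d k84 k87 k168 0 13)))))))] (.c k166 (.l (.s k7 k6 0 (.s k15 k10 2 (.s k3 k11 1 (.s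
  k165 k245 11 (.s k86 k244 12 (.s k84 k87 0 (.d k252 k168 k169 13 14)))))))) (.c k247 (.l (.s k7 k6
  0 (.s k12 k8 1 (.s k15 k10 2 (.s k165 k245 11 (.s k244 k86 12 (.s k164 k84 11 (.d k240 k90 k88 14
  13)))))))) .n)))

def s1_255_171 : T TT 256 :=
  (.f k15 k10 2 (.f k245 k165 11 (.q k21 [(.s k37 k53 3 (.s k26 k48 6 (.s k31 k16 2 (.d k63 k47 k42
  3 6)))), (.s k53 k37 3 (.s k117 k181 7 (.s k101 k69 3 (.d k149 k213 k197 7 11)))), (.s k63 k42 6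
  (.s k149 k213 7 (.s k192 k106 14 (.s k128 k64 7 (.s k133 k74 10 (.s k69 k197 7 (.d k138 k143 k207
  2 10)))))))] (.c k3 (.q k87 [(.s k53 k37 3 (.s k117 k181 7 (.s k101 k69 3 (.d k149 k213 k197 7
  11)))), (.s k37 k53 3 (.s k42 k63 6 (.s k32 k47 2 (.d k48 k16 k26 3 6)))), (.s k86 k84 0 (.s k149
  k213 7 (.s k23 k212 8 (.s k20 k22 0 (.d k215 k151 k150 7 8)))))] .n) (.c k87 (.q k3 [(.s k37 k53 3
  (.s k26 k48 6 (.s k31 k16 2 (.d k63 k47 k42 3 6)))), (.s k53 k37 3 (.s k117 k181 7 (.s k101 k69 3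
  (.d k149 k213 k197 7 11)))), (.s k7 k11 1 (.s k4 k6 0 (.s k55 k38 4 (.s k63 k42 6 (.d k23 k39 k43
  3 5)))))] .n) .n)))))

def s1_255_172 : T TT 256 :=
  (.q k4 [(.s k7 k6 0 (.s k165 k245 11 (.s k86 k244 12 (.s k87 k84 0 (.d k247 k167 k166 11 12))))),
  (.s k12 k8 1 (.s k15 k10 2 (.s k14 k13 0 (.s k166 k247 12 (.s k90 k242 13 (.s k80 k95 2 (.d k240
  k160 k165 11 14))))))), (.s k6 k7 0 (.s k12 k8 1 (.s k3 k9 2 (.s k166 k247 12 (.s k86 k246 11 (.s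
  k252 k169 14 (.d k84 k87 k168 0 13))))))), (.s k7 k6 0 (.s k12 k8 1 (.s k15 k10 2 (.s k165 k245 11
  (.s k240 k90 14 (.s k164 k88 13 (.d k244 k84 k86 11 12)))))))] .n)

def s1_255_173 : T TT 256 :=
  (.q k21 [(.s k15 k10 2 (.s k37 k53 3 (.s k26 k48 6 (.s k31 k16 2 (.d k63 k47 k42 3 6))))), (.s k53
  k37 3 (.s k149 k213 7 (.s k101 k197 11 (.s k117 k69 3 (.d k245 k181 k165 7 11))))), (.s k15 k10 2
  (.s k63 k42 6 (.s k47 k31 3 (.s k149 k213 7 (.s k165 k245 11 (.d k106 k192 k224 14 10))))))] .n)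

def s1_255_174 : T TT 256 :=
  (.q k12 [(.s k4 k8 1 (.s k7 k6 0 (.s k165 k245 11 (.s k86 k244 12 (.s k87 k84 0 (.d k247 k167 k166
  11 12)))))), (.s k15 k10 2 (.s k13 k14 0 (.s k165 k245 11 (.s k89 k241 13 (.s k81 k93 1 (.d k243
  k162 k166 12 14)))))), (.s k4 k8 1 (.s k6 k7 0 (.s k3 k9 2 (.s k166 k247 12 (.s k86 k246 11 (.s
  k252 k169 14 (.d k84 k87 k168 0 13))))))), (.s k4 k8 1 (.s k15 k10 2 (.s k14 k13 0 (.s k166 k247
  12 (.s k90 k242 13 (.s k80 k95 2 (.d k240 k160 k165 11 14)))))))] (.c k166 (.l (.s k4 k8 1 (.s k7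
  k6 0 (.s k15 k10 2 (.s k165 k245 11 (.s k240 k90 14 (.s k164 k88 13 (.d k244 k86 k84 12 11))))))))
  .n))

def s1_255_175 : T TT 256 :=
  (.q k69 [(.s k15 k10 2 (.s k133 k197 7 (.s k74 k192 10 (.s k79 k64 2 (.d k207 k143 k138 7 10))))),
  (.s k101 k117 3 (.s k165 k245 11 (.s k37 k229 7 (.s k53 k21 3 (.d k197 k133 k149 7 11))))), (.s
  k15 k10 2 (.s k101 k117 3 (.s k165 k245 11 (.s k207 k138 10 (.s k48 k154 14 (.d k37 k26 k229 6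
  7))))))] (.c k15 (.q k95 [(.s k90 k80 2 (.s k101 k117 3 (.s k79 k112 6 (.s k64 k74 2 (.d k127 k111
  k106 3 6))))), (.s k101 k117 3 (.s k165 k245 11 (.s k37 k229 7 (.s k53 k21 3 (.d k197 k133 k149 7
  11))))), (.s k80 k90 2 (.s k197 k133 7 (.s k207 k138 10 (.s k240 k160 11 (.s k229 k218 6 (.d k245
  k165 k213 11 3))))))] (.c k133 (.l (.s k90 k80 2 (.s k101 k117 3 (.s k79 k112 6 (.s k127 k111 3
  (.d k64 k74 k106 2 6)))))) .n)) (.c k95 (.l (.s k15 k10 2 (.s k133 k197 7 (.s k74 k192 10 (.s k79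
  k64 2 (.d k207 k143 k138 7 10)))))) .n)))

def s1_255_176 : T TT 256 :=
  (.q k4 [(.s k7 k6 0 (.s k247 k166 12 (.s k87 k167 11 (.s k86 k84 0 (.d k165 k245 k244 11 12))))),
  (.s k12 k8 1 (.s k15 k10 2 (.s k14 k13 0 (.s k166 k247 12 (.s k90 k242 13 (.s k80 k95 2 (.d k240
  k160 k165 11 14))))))), (.s k7 k6 0 (.s k12 k8 1 (.s k15 k10 2 (.s k165 k245 11 (.s k240 k90 14
  (.s k164 k88 13 (.d k244 k84 k86 11 12)))))))] (.c k165 (.l (.s k6 k7 0 (.s k12 k8 1 (.s k3 k9 2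
  (.s k166 k247 12 (.s k86 k246 11 (.s k252 k169 14 (.d k84 k87 k168 0 13)))))))) .n))

def s1_255_177 : T TT 256 :=
  (.q k4 [(.s k7 k6 0 (.s k247 k166 12 (.s k87 k167 11 (.s k86 k84 0 (.d k165 k245 k244 11 12))))),
  (.s k12 k8 1 (.s k15 k10 2 (.s k14 k13 0 (.s k166 k247 12 (.s k90 k242 13 (.s k80 k95 2 (.d k240
  k160 k165 11 14))))))), (.s k7 k6 0 (.s k12 k8 1 (.s k15 k10 2 (.s k165 k245 11 (.s k240 k90 14
  (.s k164 k88 13 (.d k244 k84 k86 11 12)))))))] (.c k165 (.l (.s k6 k7 0 (.s k12 k8 1 (.s k3 k9 2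
  (.s k166 k247 12 (.s k86 k246 11 (.s k252 k169 14 (.d k84 k87 k168 0 13)))))))) .n))

def s1_255_178 : T TT 256 :=
  (.q k4 [(.s k7 k6 0 (.s k165 k245 11 (.s k86 k244 12 (.s k87 k84 0 (.d k247 k167 k166 11 12))))),
  (.s k12 k8 1 (.s k15 k10 2 (.s k14 k13 0 (.s k166 k247 12 (.s k90 k242 13 (.s k80 k95 2 (.d k240
  k160 k165 11 14))))))), (.s k6 k7 0 (.s k12 k8 1 (.s k3 k9 2 (.s k166 k247 12 (.s k86 k246 11 (.s
  k252 k169 14 (.d k84 k87 k168 0 13))))))), (.s k7 k6 0 (.s k12 k8 1 (.s k15 k10 2 (.s k165 k245 11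
  (.s k240 k90 14 (.s k164 k88 13 (.d k244 k84 k86 11 12)))))))] .n)

def s1_255_179 : T TT 256 :=
  (.q k4 [(.s k7 k6 0 (.s k165 k245 11 (.s k86 k244 12 (.s k87 k84 0 (.d k247 k167 k166 11 12))))),
  (.s k12 k8 1 (.s k15 k10 2 (.s k14 k13 0 (.s k166 k247 12 (.s k90 k242 13 (.s k80 k95 2 (.d k240
  k160 k165 11 14))))))), (.s k6 k7 0 (.s k12 k8 1 (.s k3 k9 2 (.s k166 k247 12 (.s k86 k246 11 (.s
  k252 k169 14 (.d k84 k87 k168 0 13))))))), (.s k7 k6 0 (.s k12 k8 1 (.s k15 k10 2 (.s k165 k245 11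
  (.s k240 k90 14 (.s k164 k88 13 (.d k244 k84 k86 11 12)))))))] .n)

def s1_255_180 : T TT 256 :=
  (.q k4 [(.s k7 k6 0 (.s k247 k166 12 (.s k87 k167 11 (.s k86 k84 0 (.d k165 k245 k244 11 12))))),
  (.s k12 k8 1 (.s k15 k10 2 (.s k14 k13 0 (.s k166 k247 12 (.s k90 k242 13 (.s k80 k95 2 (.d k240
  k160 k165 11 14))))))), (.s k7 k6 0 (.s k12 k8 1 (.s k15 k10 2 (.s k165 k245 11 (.s k240 k90 14
  (.s k164 k88 13 (.d k244 k84 k86 11 12)))))))] (.c k165 (.l (.s k6 k7 0 (.s k12 k8 1 (.s k3 k9 2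
  (.s k166 k247 12 (.s k86 k246 11 (.s k252 k169 14 (.d k84 k87 k168 0 13)))))))) .n))

def s1_255_181 : T TT 256 :=
  (.q k4 [(.s k7 k6 0 (.s k247 k166 12 (.s k87 k167 11 (.s k86 k84 0 (.d k165 k245 k244 11 12))))),
  (.s k12 k8 1 (.s k15 k10 2 (.s k14 k13 0 (.s k166 k247 12 (.s k90 k242 13 (.s k80 k95 2 (.d k240
  k160 k165 11 14))))))), (.s k7 k6 0 (.s k12 k8 1 (.s k15 k10 2 (.s k165 k245 11 (.s k240 k90 14
  (.s k164 k88 13 (.d k244 k84 k86 11 12)))))))] (.c k165 (.l (.s k6 k7 0 (.s k12 k8 1 (.s k3 k9 2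
  (.s k166 k247 12 (.s k86 k246 11 (.s k252 k169 14 (.d k84 k87 k168 0 13)))))))) .n))

def s1_255_182 : T TT 256 :=
  (.q k4 [(.s k7 k6 0 (.s k165 k245 11 (.s k86 k244 12 (.s k87 k84 0 (.d k247 k167 k166 11 12))))),
  (.s k12 k8 1 (.s k15 k10 2 (.s k14 k13 0 (.s k166 k247 12 (.s k90 k242 13 (.s k80 k95 2 (.d k240
  k160 k165 11 14))))))), (.s k6 k7 0 (.s k12 k8 1 (.s k3 k9 2 (.s k166 k247 12 (.s k86 k246 11 (.s
  k252 k169 14 (.d k84 k87 k168 0 13))))))), (.s k7 k6 0 (.s k12 k8 1 (.s k15 k10 2 (.s k165 k245 11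
  (.s k240 k90 14 (.s k164 k88 13 (.d k244 k84 k86 11 12)))))))] .n)

def s1_255_183 : T TT 256 :=
  (.q k4 [(.s k7 k6 0 (.s k165 k245 11 (.s k86 k244 12 (.s k87 k84 0 (.d k247 k167 k166 11 12))))),
  (.s k12 k8 1 (.s k15 k10 2 (.s k14 k13 0 (.s k166 k247 12 (.s k90 k242 13 (.s k80 k95 2 (.d k240
  k160 k165 11 14))))))), (.s k6 k7 0 (.s k12 k8 1 (.s k3 k9 2 (.s k166 k247 12 (.s k86 k246 11 (.s
  k252 k169 14 (.d k84 k87 k168 0 13))))))), (.s k7 k6 0 (.s k12 k8 1 (.s k15 k10 2 (.s k165 k245 11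
  (.s k240 k90 14 (.s k164 k88 13 (.d k244 k84 k86 11 12)))))))] .n)

def s1_255_184 : T TT 256 :=
  (.q k4 [(.s k7 k6 0 (.s k247 k166 12 (.s k87 k167 11 (.s k86 k84 0 (.d k165 k245 k244 11 12))))),
  (.s k12 k8 1 (.s k15 k10 2 (.s k14 k13 0 (.s k166 k247 12 (.s k90 k242 13 (.s k80 k95 2 (.d k240
  k160 k165 11 14))))))), (.s k7 k6 0 (.s k12 k8 1 (.s k15 k10 2 (.s k165 k245 11 (.s k240 k90 14
  (.s k164 k88 13 (.d k244 k84 k86 11 12)))))))] (.c k165 (.l (.s k6 k7 0 (.s k12 k8 1 (.s k3 k9 2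
  (.s k166 k247 12 (.s k86 k246 11 (.s k252 k169 14 (.d k84 k87 k168 0 13)))))))) .n))

def s1_255_185 : T TT 256 :=
  (.q k4 [(.s k7 k6 0 (.s k247 k166 12 (.s k87 k167 11 (.s k86 k84 0 (.d k165 k245 k244 11 12))))),
  (.s k12 k8 1 (.s k15 k10 2 (.s k14 k13 0 (.s k166 k247 12 (.s k90 k242 13 (.s k80 k95 2 (.d k240
  k160 k165 11 14))))))), (.s k7 k6 0 (.s k12 k8 1 (.s k15 k10 2 (.s k165 k245 11 (.s k240 k90 14
  (.s k164 k88 13 (.d k244 k84 k86 11 12)))))))] (.c k165 (.l (.s k6 k7 0 (.s k12 k8 1 (.s k3 k9 2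
  (.s k166 k247 12 (.s k86 k246 11 (.s k252 k169 14 (.d k84 k87 k168 0 13)))))))) .n))

def s1_255_186 : T TT 256 :=
  (.q k69 [(.s k15 k10 2 (.s k133 k197 7 (.s k74 k192 10 (.s k79 k64 2 (.d k207 k143 k138 7 10))))),
  (.s k197 k133 7 (.s k245 k165 11 (.s k213 k229 3 (.s k149 k21 7 (.d k101 k117 k53 3 11))))), (.s
  k15 k10 2 (.s k165 k245 11 (.s k207 k138 10 (.s k143 k79 7 (.s k154 k176 6 (.d k101 k117 k48 3
  14))))))] (.c k48 (.l (.s k117 k101 3 (.s k15 k10 2 (.s k133 k197 7 (.s k74 k192 10 (.s k79 k64 2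
  (.d k207 k143 k138 7 10))))))) (.c k117 (.q k48 [(.s k16 k32 3 (.s k154 k223 10 (.d k207 k138 k101
  10 14))), (.s k15 k10 2 (.s k32 k16 3 (.s k37 k26 6 (.s k21 k53 3 (.d k42 k47 k63 2 6))))), (.s
  k15 k10 2 (.s k37 k26 6 (.s k165 k245 11 (.s k101 k229 7 (.d k207 k138 k154 10 14)))))] .n) .n)))

def s1_255_187 : T TT 256 :=
  (.f k15 k10 2 (.q k51 [(.s k17 k34 4 (.s k27 k39 5 (.s k153 k221 9 (.s k90 k216 8 (.d k165 k245
  k240 11 14))))), (.s k39 k27 5 (.s k165 k245 11 (.s k102 k228 8 (.s k68 k119 4 (.d k204 k136 k153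
  9 14))))), (.s k17 k34 4 (.s k165 k245 11 (.s k240 k90 14 (.s k177 k114 8 (.d k153 k141 k221 5
  9)))))] (.c k153 (.l (.s k34 k17 4 (.s k39 k27 5 (.s k165 k245 11 (.s k102 k228 8 (.s k170 k238 9
  (.s k160 k175 2 (.d k240 k90 k80 14 11)))))))) (.c k165 (.q k4 [(.s k12 k8 1 (.s k34 k17 4 (.s k38
  k25 6 (.s k21 k55 4 (.d k42 k46 k63 1 6))))), (.s k7 k6 0 (.s k39 k27 5 (.s k55 k23 3 (.s k21 k38
  4 (.d k63 k59 k42 1 6))))), (.s k7 k6 0 (.s k3 k11 1 (.s k35 k19 3 (.s k39 k27 5 (.s k23 k55 3 (.d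
  k43 k47 k63 1 5)))))), (.s k12 k8 1 (.s k13 k14 0 (.s k17 k34 4 (.s k25 k38 6 (.s k21 k29 1 (.d
  k37 k53 k49 3 5))))))] .n) (.c k240 (.l (.s k17 k34 4 (.s k153 k221 9 (.s k204 k102 14 (.s k141
  k78 8 (.d k165 k177 k245 5 11)))))) (.c k245 (.l (.s k17 k34 4 (.s k27 k39 5 (.s k153 k221 9 (.s
  k90 k216 8 (.s k80 k95 2 (.d k240 k160 k165 11 14))))))) .n))))))

def s1_255_188 : T TT 256 :=
  (.q k4 [(.s k7 k6 0 (.s k247 k166 12 (.s k87 k167 11 (.s k86 k84 0 (.d k165 k245 k244 11 12))))),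
  (.s k12 k8 1 (.s k15 k10 2 (.s k14 k13 0 (.s k166 k247 12 (.s k90 k242 13 (.s k80 k95 2 (.d k240
  k160 k165 11 14))))))), (.s k7 k6 0 (.s k12 k8 1 (.s k15 k10 2 (.s k165 k245 11 (.s k240 k90 14
  (.s k164 k88 13 (.d k244 k84 k86 11 12)))))))] (.c k165 (.l (.s k6 k7 0 (.s k12 k8 1 (.s k3 k9 2
  (.s k166 k247 12 (.s k86 k246 11 (.s k252 k169 14 (.d k84 k87 k168 0 13)))))))) .n))

def s1_255_189 : T TT 256 :=
  (.q k4 [(.s k7 k6 0 (.s k247 k166 12 (.s k87 k167 11 (.s k86 k84 0 (.d k165 k245 k244 11 12))))),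
  (.s k12 k8 1 (.s k15 k10 2 (.s k14 k13 0 (.s k166 k247 12 (.s k90 k242 13 (.s k80 k95 2 (.d k240
  k160 k165 11 14))))))), (.s k7 k6 0 (.s k12 k8 1 (.s k15 k10 2 (.s k165 k245 11 (.s k240 k90 14
  (.s k164 k88 13 (.d k244 k84 k86 11 12)))))))] (.c k165 (.l (.s k6 k7 0 (.s k12 k8 1 (.s k3 k9 2
  (.s k166 k247 12 (.s k86 k246 11 (.s k252 k169 14 (.d k84 k87 k168 0 13)))))))) .n))

def s1_255_190 : T TT 256 :=
  (.f k15 k10 2 (.q k60 [(.s k20 k40 5 (.s k30 k45 4 (.s k150 k215 8 (.s k90 k210 9 (.d k165 k245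
  k240 11 14))))), (.s k45 k30 4 (.s k165 k245 11 (.s k105 k225 9 (.s k65 k125 5 (.d k195 k130 k150
  8 14))))), (.s k20 k40 5 (.s k165 k245 11 (.s k240 k90 14 (.s k180 k120 9 (.d k150 k135 k215 4
  8)))))] (.c k150 (.l (.s k40 k20 5 (.s k45 k30 4 (.s k165 k245 11 (.s k105 k225 9 (.s k170 k235 8
  (.s k160 k175 2 (.d k240 k90 k80 14 11)))))))) (.c k165 (.q k4 [(.s k12 k8 1 (.s k20 k40 5 (.s k28
  k44 3 (.s k24 k16 1 (.d k36 k52 k48 3 5))))), (.s k7 k6 0 (.s k3 k11 1 (.s k22 k41 6 (.s k30 k45 4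
  (.s k26 k18 1 (.d k37 k52 k48 4 6)))))), (.s k7 k6 0 (.s k20 k40 5 (.s k52 k36 3 (.s k22 k37 4 (.d
  k3 k11 k41 1 6)))))] (.c k11 (.l (.s k7 k6 0 (.s k20 k40 5 (.s k52 k36 3 (.s k37 k22 4 (.d k48 k56
  k26 1 6)))))) (.c k52 (.l (.s k12 k8 1 (.s k13 k14 0 (.s k44 k28 3 (.s k45 k30 4 (.s k29 k61 3 (.d
  k46 k47 k63 0 4))))))) .n))) (.c k240 (.l (.s k20 k40 5 (.s k150 k215 8 (.s k195 k105 14 (.s k135
  k75 9 (.d k165 k180 k245 4 11)))))) (.c k245 (.l (.s k20 k40 5 (.s k30 k45 4 (.s k150 k215 8 (.s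
  k90 k210 9 (.s k80 k95 2 (.d k240 k160 k165 11 14))))))) .n))))))

def s1_255_191 : T TT 256 :=
  (.q k63 [(.s k15 k10 2 (.s k21 k42 6 (.s k31 k47 3 (.s k26 k16 2 (.d k37 k53 k48 3 6))))), (.s k15
  k10 2 (.s k47 k31 3 (.s k165 k245 11 (.s k106 k224 10 (.s k64 k127 6 (.d k192 k128 k149 7
  14)))))), (.s k21 k42 6 (.s k53 k37 3 (.s k149 k213 7 (.s k101 k197 11 (.s k117 k69 3 (.d k245
  k181 k165 7 11))))))] (.c k47 (.l (.s k15 k10 2 (.s k21 k42 6 (.s k149 k213 7 (.s k165 k245 11 (.s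
  k133 k181 3 (.d k192 k74 k106 10 14))))))) .n))

def s1_255_192 : T TT 256 :=
  (.q k21 [(.s k53 k37 3 (.s k245 k165 11 (.s k117 k181 7 (.s k101 k69 3 (.d k149 k213 k197 7
  11))))), (.s k15 k10 2 (.s k37 k53 3 (.s k26 k48 6 (.s k31 k16 2 (.d k63 k47 k42 3 6))))), (.s k15
  k10 2 (.s k63 k42 6 (.s k165 k245 11 (.s k240 k90 14 (.s k181 k122 10 (.d k149 k213 k133 7
  3))))))] (.c k213 (.q k234 [(.s k15 k10 2 (.s k37 k53 3 (.s k26 k48 6 (.s k31 k16 2 (.d k63 k47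
  k42 3 6))))), (.s k15 k10 2 (.s k42 k63 6 (.s k165 k245 11 (.s k240 k90 14 (.s k160 k80 11 (.d
  k170 k106 k175 7 2)))))), (.s k37 k53 3 (.s k42 k63 6 (.s k47 k32 2 (.s k106 k170 7 (.d k165 k224
  k245 10 11)))))] (.c k42 (.l (.s k15 k10 2 (.s k37 k53 3 (.s k26 k48 6 (.s k16 k31 2 (.s k154 k223
  10 (.s k165 k245 11 (.d k90 k218 k240 7 14)))))))) (.c k63 (.l (.s k15 k10 2 (.s k37 k53 3 (.s k48
  k26 6 (.s k16 k32 3 (.s k154 k223 10 (.s k165 k245 11 (.d k101 k229 k207 7 14)))))))) .n))) (.c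
  k234 (.l (.s k213 k149 7 (.s k15 k10 2 (.s k37 k53 3 (.s k26 k48 6 (.s k31 k16 2 (.d k63 k47 k42 3
  6))))))) .n)))

def s1_255_193 : T TT 256 :=
  (.f k245 k165 11 (.f k15 k10 2 (.q k21 [(.s k37 k53 3 (.s k26 k48 6 (.s k31 k16 2 (.d k63 k47 k42
  3 6)))), (.s k53 k37 3 (.s k117 k181 7 (.s k101 k69 3 (.d k149 k213 k197 7 11)))), (.s k63 k42 6
  (.s k149 k213 7 (.s k192 k106 14 (.s k128 k64 7 (.s k133 k74 10 (.s k69 k197 7 (.d k138 k143 k207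
  2 10)))))))] (.c k65 (.q k129 [(.s k37 k53 3 (.s k26 k48 6 (.s k31 k16 2 (.d k63 k47 k42 3 6)))),
  (.s k53 k37 3 (.s k117 k181 7 (.s k101 k69 3 (.d k149 k213 k197 7 11)))), (.s k63 k42 6 (.s k149
  k213 7 (.s k169 k189 5 (.s k192 k106 14 (.s k3 k66 8 (.s k23 k43 5 (.d k86 k212 k252 8 14)))))))]
  .n) (.c k129 (.q k65 [(.s k37 k53 3 (.s k26 k48 6 (.s k31 k16 2 (.d k63 k47 k42 3 6)))), (.s k53
  k37 3 (.s k117 k181 7 (.s k101 k69 3 (.d k149 k213 k197 7 11)))), (.s k63 k42 6 (.s k105 k125 5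
  (.s k149 k213 7 (.s k195 k130 8 (.s k107 k151 13 (.d k106 k192 k104 14 0))))))] .n) .n)))))

def s1_255_194 : T TT 256 :=
  (.q k4 [(.s k7 k6 0 (.s k247 k166 12 (.s k87 k167 11 (.s k86 k84 0 (.d k165 k245 k244 11 12))))),
  (.s k12 k8 1 (.s k15 k10 2 (.s k14 k13 0 (.s k166 k247 12 (.s k90 k242 13 (.s k80 k95 2 (.d k240
  k160 k165 11 14))))))), (.s k7 k6 0 (.s k12 k8 1 (.s k15 k10 2 (.s k165 k245 11 (.s k240 k90 14
  (.s k164 k88 13 (.d k244 k84 k86 11 12)))))))] (.c k165 (.l (.s k6 k7 0 (.s k12 k8 1 (.s k3 k9 2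
  (.s k166 k247 12 (.s k86 k246 11 (.s k252 k169 14 (.d k84 k87 k168 0 13)))))))) .n))

def s1_255_195 : T TT 256 :=
  (.f k245 k165 11 (.f k15 k10 2 (.q k21 [(.s k53 k37 3 (.s k117 k181 7 (.s k101 k69 3 (.d k149 k213
  k197 7 11)))), (.s k37 k53 3 (.s k42 k63 6 (.s k32 k47 2 (.d k48 k16 k26 3 6)))), (.s k63 k42 6
  (.s k149 k213 7 (.s k192 k106 14 (.s k128 k64 7 (.s k133 k74 10 (.s k69 k197 7 (.d k138 k143 k207
  2 10)))))))] (.c k215 (.q k235 [(.s k53 k37 3 (.s k117 k181 7 (.s k101 k69 3 (.d k149 k213 k197 7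
  11)))), (.s k37 k53 3 (.s k42 k63 6 (.s k32 k47 2 (.d k48 k16 k26 3 6)))), (.s k63 k42 6 (.s k149
  k213 7 (.s k192 k106 14 (.s k128 k64 7 (.s k133 k74 10 (.s k69 k197 7 (.d k138 k143 k207 2
  10)))))))] .n) (.c k235 (.q k215 [(.s k53 k37 3 (.s k117 k181 7 (.s k101 k69 3 (.d k149 k213 k197
  7 11)))), (.s k37 k53 3 (.s k42 k63 6 (.s k32 k47 2 (.d k48 k16 k26 3 6)))), (.s k20 k150 8 (.s
  k23 k22 0 (.s k87 k151 7 (.s k86 k84 0 (.d k149 k213 k212 7 8)))))] .n) .n)))))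

def s1_255_196 : T TT 256 :=
  (.q k4 [(.s k7 k6 0 (.s k247 k166 12 (.s k87 k167 11 (.s k86 k84 0 (.d k165 k245 k244 11 12))))),
  (.s k12 k8 1 (.s k15 k10 2 (.s k14 k13 0 (.s k166 k247 12 (.s k90 k242 13 (.s k80 k95 2 (.d k240
  k160 k165 11 14))))))), (.s k7 k6 0 (.s k12 k8 1 (.s k15 k10 2 (.s k165 k245 11 (.s k240 k90 14
  (.s k164 k88 13 (.d k244 k84 k86 11 12)))))))] (.c k165 (.l (.s k6 k7 0 (.s k12 k8 1 (.s k3 k9 2
  (.s k166 k247 12 (.s k86 k246 11 (.s k252 k169 14 (.d k84 k87 k168 0 13)))))))) .n))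

def s1_255_197 : T TT 256 :=
  (.q k4 [(.s k7 k6 0 (.s k247 k166 12 (.s k87 k167 11 (.s k86 k84 0 (.d k165 k245 k244 11 12))))),
  (.s k12 k8 1 (.s k15 k10 2 (.s k14 k13 0 (.s k166 k247 12 (.s k90 k242 13 (.s k80 k95 2 (.d k240
  k160 k165 11 14))))))), (.s k7 k6 0 (.s k12 k8 1 (.s k15 k10 2 (.s k165 k245 11 (.s k240 k90 14
  (.s k164 k88 13 (.d k244 k84 k86 11 12)))))))] (.c k165 (.l (.s k6 k7 0 (.s k12 k8 1 (.s k3 k9 2
  (.s k166 k247 12 (.s k86 k246 11 (.s k252 k169 14 (.d k84 k87 k168 0 13)))))))) .n))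

def s1_255_198 : T TT 256 :=
  (.q k4 [(.s k7 k6 0 (.s k247 k166 12 (.s k87 k167 11 (.s k86 k84 0 (.d k165 k245 k244 11 12))))),
  (.s k12 k8 1 (.s k15 k10 2 (.s k14 k13 0 (.s k166 k247 12 (.s k90 k242 13 (.s k80 k95 2 (.d k240
  k160 k165 11 14))))))), (.s k7 k6 0 (.s k12 k8 1 (.s k15 k10 2 (.s k165 k245 11 (.s k240 k90 14
  (.s k164 k88 13 (.d k244 k84 k86 11 12)))))))] (.c k165 (.l (.s k6 k7 0 (.s k12 k8 1 (.s k3 k9 2
  (.s k166 k247 12 (.s k86 k246 11 (.s k252 k169 14 (.d k84 k87 k168 0 13)))))))) .n))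

def s1_255_199 : T TT 256 :=
  (.q k4 [(.s k7 k6 0 (.s k247 k166 12 (.s k87 k167 11 (.s k86 k84 0 (.d k165 k245 k244 11 12))))),
  (.s k12 k8 1 (.s k15 k10 2 (.s k14 k13 0 (.s k166 k247 12 (.s k90 k242 13 (.s k80 k95 2 (.d k240
  k160 k165 11 14))))))), (.s k7 k6 0 (.s k12 k8 1 (.s k15 k10 2 (.s k165 k245 11 (.s k240 k90 14
  (.s k164 k88 13 (.d k244 k84 k86 11 12)))))))] (.c k165 (.l (.s k6 k7 0 (.s k12 k8 1 (.s k3 k9 2
  (.s k166 k247 12 (.s k86 k246 11 (.s k252 k169 14 (.d k84 k87 k168 0 13)))))))) .n))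

def s1_255_200 : T TT 256 :=
  (.q k4 [(.s k7 k6 0 (.s k247 k166 12 (.s k87 k167 11 (.s k86 k84 0 (.d k165 k245 k244 11 12))))),
  (.s k12 k8 1 (.s k15 k10 2 (.s k14 k13 0 (.s k166 k247 12 (.s k90 k242 13 (.s k80 k95 2 (.d k240
  k160 k165 11 14))))))), (.s k7 k6 0 (.s k12 k8 1 (.s k15 k10 2 (.s k165 k245 11 (.s k240 k90 14
  (.s k164 k88 13 (.d k244 k84 k86 11 12)))))))] (.c k165 (.l (.s k6 k7 0 (.s k12 k8 1 (.s k3 k9 2
  (.s k166 k247 12 (.s k86 k246 11 (.s k252 k169 14 (.d k84 k87 k168 0 13)))))))) .n))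

def s1_255_201 : T TT 256 :=
  (.q k4 [(.s k7 k6 0 (.s k247 k166 12 (.s k87 k167 11 (.s k86 k84 0 (.d k165 k245 k244 11 12))))),
  (.s k12 k8 1 (.s k15 k10 2 (.s k14 k13 0 (.s k166 k247 12 (.s k90 k242 13 (.s k80 k95 2 (.d k240
  k160 k165 11 14))))))), (.s k7 k6 0 (.s k12 k8 1 (.s k15 k10 2 (.s k165 k245 11 (.s k240 k90 14
  (.s k164 k88 13 (.d k244 k84 k86 11 12)))))))] (.c k165 (.l (.s k6 k7 0 (.s k12 k8 1 (.s k3 k9 2
  (.s k166 k247 12 (.s k86 k246 11 (.s k252 k169 14 (.d k84 k87 k168 0 13)))))))) .n))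

def s1_255_202 : T TT 256 :=
  (.q k4 [(.s k7 k6 0 (.s k247 k166 12 (.s k87 k167 11 (.s k86 k84 0 (.d k165 k245 k244 11 12))))),
  (.s k12 k8 1 (.s k15 k10 2 (.s k14 k13 0 (.s k166 k247 12 (.s k90 k242 13 (.s k80 k95 2 (.d k240
  k160 k165 11 14))))))), (.s k7 k6 0 (.s k12 k8 1 (.s k15 k10 2 (.s k165 k245 11 (.s k240 k90 14
  (.s k164 k88 13 (.d k244 k84 k86 11 12)))))))] (.c k165 (.l (.s k6 k7 0 (.s k12 k8 1 (.s k3 k9 2
  (.s k166 k247 12 (.s k86 k246 11 (.s k252 k169 14 (.d k84 k87 k168 0 13)))))))) .n))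

def s1_255_203 : T TT 256 :=
  (.q k4 [(.s k7 k6 0 (.s k247 k166 12 (.s k87 k167 11 (.s k86 k84 0 (.d k165 k245 k244 11 12))))),
  (.s k12 k8 1 (.s k15 k10 2 (.s k14 k13 0 (.s k166 k247 12 (.s k90 k242 13 (.s k80 k95 2 (.d k240
  k160 k165 11 14))))))), (.s k7 k6 0 (.s k12 k8 1 (.s k15 k10 2 (.s k165 k245 11 (.s k240 k90 14
  (.s k164 k88 13 (.d k244 k84 k86 11 12)))))))] (.c k165 (.l (.s k6 k7 0 (.s k12 k8 1 (.s k3 k9 2
  (.s k166 k247 12 (.s k86 k246 11 (.s k252 k169 14 (.d k84 k87 k168 0 13)))))))) .n))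

def s1_255_204 : T TT 256 :=
  (.f k245 k165 11 (.f k15 k10 2 (.q k21 [(.s k53 k37 3 (.s k117 k181 7 (.s k101 k69 3 (.d k149 k213
  k197 7 11)))), (.s k37 k53 3 (.s k42 k63 6 (.s k32 k47 2 (.d k48 k16 k26 3 6)))), (.s k63 k42 6
  (.s k149 k213 7 (.s k192 k106 14 (.s k128 k64 7 (.s k133 k74 10 (.s k69 k197 7 (.d k138 k143 k207
  2 10)))))))] (.c k221 (.q k238 [(.s k53 k37 3 (.s k117 k181 7 (.s k101 k69 3 (.d k149 k213 k197 7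
  11)))), (.s k37 k53 3 (.s k42 k63 6 (.s k32 k47 2 (.d k48 k16 k26 3 6)))), (.s k63 k42 6 (.s k149
  k213 7 (.s k192 k106 14 (.s k128 k64 7 (.s k133 k74 10 (.s k69 k197 7 (.d k138 k143 k207 2
  10)))))))] .n) (.c k238 (.q k221 [(.s k53 k37 3 (.s k117 k181 7 (.s k101 k69 3 (.d k149 k213 k197
  7 11)))), (.s k37 k53 3 (.s k42 k63 6 (.s k32 k47 2 (.d k48 k16 k26 3 6)))), (.s k17 k153 9 (.s
  k29 k25 1 (.s k93 k157 7 (.s k89 k81 1 (.d k149 k213 k209 7 9)))))] .n) .n)))))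

def s1_255_205 : T TT 256 :=
  (.q k69 [(.s k15 k10 2 (.s k207 k138 10 (.s k79 k143 7 (.s k74 k64 2 (.d k133 k197 k192 7 10))))),
  (.s k101 k117 3 (.s k165 k245 11 (.s k37 k229 7 (.s k53 k21 3 (.d k197 k133 k149 7 11))))), (.s
  k15 k10 2 (.s k101 k117 3 (.s k165 k245 11 (.s k207 k138 10 (.s k48 k154 14 (.d k37 k26 k229 6
  7))))))] .n)

def s1_255_206 : T TT 256 :=
  (.q k4 [(.s k7 k6 0 (.s k247 k166 12 (.s k87 k167 11 (.s k86 k84 0 (.d k165 k245 k244 11 12))))),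
  (.s k12 k8 1 (.s k15 k10 2 (.s k14 k13 0 (.s k166 k247 12 (.s k90 k242 13 (.s k80 k95 2 (.d k240
  k160 k165 11 14))))))), (.s k7 k6 0 (.s k12 k8 1 (.s k15 k10 2 (.s k165 k245 11 (.s k240 k90 14
  (.s k164 k88 13 (.d k244 k84 k86 11 12)))))))] (.c k165 (.l (.s k6 k7 0 (.s k12 k8 1 (.s k3 k9 2
  (.s k166 k247 12 (.s k86 k246 11 (.s k252 k169 14 (.d k84 k87 k168 0 13)))))))) .n))

def s1_255_207 : T TT 256 :=
  (.f k15 k10 2 (.q k48 [(.s k32 k16 3 (.s k37 k26 6 (.s k21 k53 3 (.d k42 k47 k63 2 6)))), (.s k16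
  k32 3 (.s k165 k245 11 (.s k240 k90 14 (.s k176 k112 7 (.d k154 k223 k143 10 6))))), (.s k37 k26 6
  (.s k165 k245 11 (.s k101 k229 7 (.s k69 k117 3 (.s k197 k133 7 (.d k53 k21 k149 3 11))))))] (.c
  k223 (.q k239 [(.s k32 k16 3 (.s k37 k26 6 (.s k21 k53 3 (.d k42 k47 k63 2 6)))), (.s k32 k16 3
  (.s k165 k245 11 (.s k170 k101 10 (.s k160 k175 2 (.d k240 k80 k90 11 14)))))] (.c k16 (.l (.s k37
  k26 6 (.s k21 k53 3 (.s k42 k63 6 (.s k32 k47 2 (.s k101 k170 10 (.d k165 k229 k245 7 11)))))))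
  (.c k32 (.l (.s k37 k26 6 (.s k53 k21 3 (.s k165 k245 11 (.s k101 k229 7 (.s k69 k117 3 (.d k197
  k133 k149 7 11))))))) .n))) (.c k239 (.q k223 [(.d k16 k32 k154 3 10), (.s k37 k26 6 (.s k165 k245
  11 (.s k101 k229 7 (.s k69 k117 3 (.s k197 k133 7 (.d k53 k21 k149 3 11))))))] .n) .n))))

def s1_255_208 : T TT 256 :=
  (.q k4 [(.s k7 k6 0 (.s k247 k166 12 (.s k87 k167 11 (.s k86 k84 0 (.d k165 k245 k244 11 12))))),
  (.s k12 k8 1 (.s k15 k10 2 (.s k14 k13 0 (.s k166 k247 12 (.s k90 k242 13 (.s k80 k95 2 (.d k240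
  k160 k165 11 14))))))), (.s k7 k6 0 (.s k12 k8 1 (.s k15 k10 2 (.s k165 k245 11 (.s k240 k90 14
  (.s k164 k88 13 (.d k244 k84 k86 11 12)))))))] (.c k165 (.l (.s k6 k7 0 (.s k12 k8 1 (.s k3 k9 2
  (.s k166 k247 12 (.s k86 k246 11 (.s k252 k169 14 (.d k84 k87 k168 0 13)))))))) .n))

def s1_255_209 : T TT 256 :=
  (.q k4 [(.s k7 k6 0 (.s k247 k166 12 (.s k87 k167 11 (.s k86 k84 0 (.d k165 k245 k244 11 12))))),
  (.s k12 k8 1 (.s k15 k10 2 (.s k14 k13 0 (.s k166 k247 12 (.s k90 k242 13 (.s k80 k95 2 (.d k240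
  k160 k165 11 14))))))), (.s k7 k6 0 (.s k12 k8 1 (.s k15 k10 2 (.s k165 k245 11 (.s k240 k90 14
  (.s k164 k88 13 (.d k244 k84 k86 11 12)))))))] (.c k165 (.l (.s k6 k7 0 (.s k12 k8 1 (.s k3 k9 2
  (.s k166 k247 12 (.s k86 k246 11 (.s k252 k169 14 (.d k84 k87 k168 0 13)))))))) .n))

def s1_255_210 : T TT 256 :=
  (.q k4 [(.s k7 k6 0 (.s k247 k166 12 (.s k87 k167 11 (.s k86 k84 0 (.d k165 k245 k244 11 12))))),
  (.s k12 k8 1 (.s k15 k10 2 (.s k14 k13 0 (.s k166 k247 12 (.s k90 k242 13 (.s k80 k95 2 (.d k240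
  k160 k165 11 14))))))), (.s k7 k6 0 (.s k12 k8 1 (.s k15 k10 2 (.s k165 k245 11 (.s k240 k90 14
  (.s k164 k88 13 (.d k244 k84 k86 11 12)))))))] (.c k165 (.l (.s k6 k7 0 (.s k12 k8 1 (.s k3 k9 2
  (.s k166 k247 12 (.s k86 k246 11 (.s k252 k169 14 (.d k84 k87 k168 0 13)))))))) .n))

def s1_255_211 : T TT 256 :=
  (.q k4 [(.s k7 k6 0 (.s k247 k166 12 (.s k87 k167 11 (.s k86 k84 0 (.d k165 k245 k244 11 12))))),
  (.s k12 k8 1 (.s k15 k10 2 (.s k14 k13 0 (.s k166 k247 12 (.s k90 k242 13 (.s k80 k95 2 (.d k240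
  k160 k165 11 14))))))), (.s k7 k6 0 (.s k12 k8 1 (.s k15 k10 2 (.s k165 k245 11 (.s k240 k90 14
  (.s k164 k88 13 (.d k244 k84 k86 11 12)))))))] (.c k165 (.l (.s k6 k7 0 (.s k12 k8 1 (.s k3 k9 2
  (.s k166 k247 12 (.s k86 k246 11 (.s k252 k169 14 (.d k84 k87 k168 0 13)))))))) .n))

def s1_255_212 : T TT 256 :=
  (.q k4 [(.s k7 k6 0 (.s k247 k166 12 (.s k87 k167 11 (.s k86 k84 0 (.d k165 k245 k244 11 12))))),
  (.s k12 k8 1 (.s k15 k10 2 (.s k14 k13 0 (.s k166 k247 12 (.s k90 k242 13 (.s k80 k95 2 (.d k240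
  k160 k165 11 14))))))), (.s k7 k6 0 (.s k12 k8 1 (.s k15 k10 2 (.s k165 k245 11 (.s k240 k90 14
  (.s k164 k88 13 (.d k244 k84 k86 11 12)))))))] (.c k165 (.l (.s k6 k7 0 (.s k12 k8 1 (.s k3 k9 2
  (.s k166 k247 12 (.s k86 k246 11 (.s k252 k169 14 (.d k84 k87 k168 0 13)))))))) .n))

def s1_255_213 : T TT 256 :=
  (.q k192 [(.s k15 k10 2 (.s k128 k64 7 (.s k133 k74 10 (.s k138 k143 2 (.d k69 k197 k207 7
  10))))), (.s k64 k128 7 (.s k106 k127 6 (.s k165 k245 11 (.s k224 k47 10 (.s k240 k208 3 (.s k80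
  k160 11 (.d k90 k95 k15 2 14))))))), (.s k15 k10 2 (.s k133 k74 10 (.s k165 k245 11 (.s k149 k181
  3 (.s k63 k106 14 (.s k31 k47 3 (.d k90 k240 k208 14 10)))))))] (.c k15 (.q k80 [(.s k64 k128 7
  (.s k96 k112 3 (.s k48 k144 11 (.s k32 k16 3 (.d k160 k224 k240 7 11))))), (.s k165 k245 11 (.s
  k240 k160 11 (.s k224 k208 3 (.s k106 k47 10 (.s k63 k149 14 (.s k122 k181 10 (.d k90 k95 k74 2
  3))))))), (.s k64 k128 7 (.s k112 k96 3 (.s k127 k106 6 (.s k117 k122 2 (.s k101 k69 3 (.d k90 k95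
  k79 2 6))))))] (.c k95 (.q k175 [(.s k160 k240 11 (.d k165 k245 k170 11 2)), (.s k64 k128 7 (.s
  k96 k112 3 (.s k48 k144 11 (.s k32 k16 3 (.d k160 k224 k240 7 11))))), (.s k64 k128 7 (.s k96 k112
  3 (.s k106 k127 6 (.s k111 k101 2 (.s k47 k239 7 (.d k165 k224 k245 10 11))))))] .n) (.c k175 (.l
  (.s k95 k90 2 (.s k64 k128 7 (.s k96 k112 3 (.s k48 k144 11 (.s k32 k16 3 (.d k160 k240 k224 11
  7))))))) .n))) (.c k197 (.l (.s k15 k10 2 (.s k64 k128 7 (.s k74 k133 10 (.s k106 k127 6 (.s k90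
  k122 3 (.d k165 k245 k240 11 14))))))) .n)))

def s1_255_214 : T TT 256 :=
  (.q k4 [(.s k7 k6 0 (.s k247 k166 12 (.s k87 k167 11 (.s k86 k84 0 (.d k165 k245 k244 11 12))))),
  (.s k12 k8 1 (.s k15 k10 2 (.s k14 k13 0 (.s k166 k247 12 (.s k90 k242 13 (.s k80 k95 2 (.d k240
  k160 k165 11 14))))))), (.s k7 k6 0 (.s k12 k8 1 (.s k15 k10 2 (.s k165 k245 11 (.s k240 k90 14
  (.s k164 k88 13 (.d k244 k84 k86 11 12)))))))] (.c k165 (.l (.s k6 k7 0 (.s k12 k8 1 (.s k3 k9 2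
  (.s k166 k247 12 (.s k86 k246 11 (.s k252 k169 14 (.d k84 k87 k168 0 13)))))))) .n))

def s1_255_215 : T TT 256 :=
  (.f k15 k10 2 (.q k195 [(.s k65 k130 8 (.s k75 k135 9 (.s k105 k125 5 (.s k90 k120 4 (.d k165 k245
  k240 11 14))))), (.s k65 k130 8 (.s k165 k245 11 (.s k240 k90 14 (.s k225 k210 4 (.d k105 k125 k45
  5 9))))), (.s k135 k75 9 (.s k165 k245 11 (.s k150 k180 4 (.s k60 k105 14 (.s k30 k45 4 (.d k90
  k240 k210 14 9))))))] (.c k90 (.l (.s k65 k130 8 (.s k105 k125 5 (.s k60 k150 14 (.s k165 k245 11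
  (.d k45 k30 k225 4 9)))))) (.c k105 (.l (.s k130 k65 8 (.s k135 k75 9 (.s k165 k245 11 (.s k150
  k180 4 (.s k170 k190 5 (.s k160 k175 2 (.d k240 k90 k80 14 11)))))))) (.c k165 (.q k4 [(.s k7 k6 0
  (.s k135 k75 9 (.s k199 k71 7 (.s k69 k134 8 (.d k207 k203 k138 1 10))))), (.s k12 k8 1 (.s k130
  k65 8 (.s k134 k73 10 (.s k69 k199 8 (.d k138 k142 k207 1 10))))), (.s k7 k6 0 (.s k3 k11 1 (.s
  k131 k67 7 (.s k135 k75 9 (.s k71 k199 7 (.d k139 k143 k207 1 9)))))), (.s k12 k8 1 (.s k13 k14 0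
  (.s k65 k130 8 (.s k73 k134 10 (.s k69 k77 1 (.d k133 k197 k193 7 9))))))] .n) (.c k240 (.l (.s
  k65 k130 8 (.s k105 k125 5 (.s k60 k150 14 (.s k45 k30 4 (.d k165 k225 k245 9 11)))))) (.c k245
  (.l (.s k65 k130 8 (.s k75 k135 9 (.s k105 k125 5 (.s k90 k120 4 (.s k80 k95 2 (.d k240 k160 k165
  11 14))))))) .n)))))))

def s1_255_216 : T TT 256 :=
  (.q k4 [(.s k7 k6 0 (.s k247 k166 12 (.s k87 k167 11 (.s k86 k84 0 (.d k165 k245 k244 11 12))))),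
  (.s k12 k8 1 (.s k15 k10 2 (.s k14 k13 0 (.s k166 k247 12 (.s k90 k242 13 (.s k80 k95 2 (.d k240
  k160 k165 11 14))))))), (.s k7 k6 0 (.s k12 k8 1 (.s k15 k10 2 (.s k165 k245 11 (.s k240 k90 14
  (.s k164 k88 13 (.d k244 k84 k86 11 12)))))))] (.c k165 (.l (.s k6 k7 0 (.s k12 k8 1 (.s k3 k9 2
  (.s k166 k247 12 (.s k86 k246 11 (.s k252 k169 14 (.d k84 k87 k168 0 13)))))))) .n))

def s1_255_217 : T TT 256 :=
  (.q k4 [(.s k7 k6 0 (.s k247 k166 12 (.s k87 k167 11 (.s k86 k84 0 (.d k165 k245 k244 11 12))))),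
  (.s k12 k8 1 (.s k15 k10 2 (.s k14 k13 0 (.s k166 k247 12 (.s k90 k242 13 (.s k80 k95 2 (.d k240
  k160 k165 11 14))))))), (.s k7 k6 0 (.s k12 k8 1 (.s k15 k10 2 (.s k165 k245 11 (.s k240 k90 14
  (.s k164 k88 13 (.d k244 k84 k86 11 12)))))))] (.c k165 (.l (.s k6 k7 0 (.s k12 k8 1 (.s k3 k9 2
  (.s k166 k247 12 (.s k86 k246 11 (.s k252 k169 14 (.d k84 k87 k168 0 13)))))))) .n))

def s1_255_218 : T TT 256 :=
  (.q k4 [(.s k7 k6 0 (.s k247 k166 12 (.s k87 k167 11 (.s k86 k84 0 (.d k165 k245 k244 11 12))))),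
  (.s k12 k8 1 (.s k15 k10 2 (.s k14 k13 0 (.s k166 k247 12 (.s k90 k242 13 (.s k80 k95 2 (.d k240
  k160 k165 11 14))))))), (.s k7 k6 0 (.s k12 k8 1 (.s k15 k10 2 (.s k165 k245 11 (.s k240 k90 14
  (.s k164 k88 13 (.d k244 k84 k86 11 12)))))))] (.c k165 (.l (.s k6 k7 0 (.s k12 k8 1 (.s k3 k9 2
  (.s k166 k247 12 (.s k86 k246 11 (.s k252 k169 14 (.d k84 k87 k168 0 13)))))))) .n))

def s1_255_219 : T TT 256 :=
  (.q k4 [(.s k7 k6 0 (.s k247 k166 12 (.s k87 k167 11 (.s k86 k84 0 (.d k165 k245 k244 11 12))))),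
  (.s k12 k8 1 (.s k15 k10 2 (.s k14 k13 0 (.s k166 k247 12 (.s k90 k242 13 (.s k80 k95 2 (.d k240
  k160 k165 11 14))))))), (.s k7 k6 0 (.s k12 k8 1 (.s k15 k10 2 (.s k165 k245 11 (.s k240 k90 14
  (.s k164 k88 13 (.d k244 k84 k86 11 12)))))))] (.c k165 (.l (.s k6 k7 0 (.s k12 k8 1 (.s k3 k9 2
  (.s k166 k247 12 (.s k86 k246 11 (.s k252 k169 14 (.d k84 k87 k168 0 13)))))))) .n))

def s1_255_220 : T TT 256 :=
  (.q k4 [(.s k7 k6 0 (.s k165 k245 11 (.s k86 k244 12 (.s k247 k166 12 (.d k87 k84 k167 0 11))))),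
  (.s k12 k8 1 (.s k15 k10 2 (.s k14 k13 0 (.s k166 k247 12 (.s k90 k242 13 (.s k80 k95 2 (.d k240
  k160 k165 11 14))))))), (.s k6 k7 0 (.s k12 k8 1 (.s k3 k9 2 (.s k166 k247 12 (.s k86 k246 11 (.s
  k252 k169 14 (.d k84 k87 k168 0 13))))))), (.s k7 k6 0 (.s k12 k8 1 (.s k15 k10 2 (.s k165 k245 11
  (.s k240 k90 14 (.s k164 k88 13 (.d k244 k84 k86 11 12)))))))] .n)

def s1_255_221 : T TT 256 :=
  (.f k15 k10 2 (.q k204 [(.s k68 k136 9 (.s k78 k141 8 (.s k102 k119 4 (.s k90 k114 5 (.d k165 k245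
  k240 11 14))))), (.s k68 k136 9 (.s k165 k245 11 (.s k240 k90 14 (.s k228 k216 5 (.d k102 k119 k39
  4 8))))), (.s k141 k78 8 (.s k165 k245 11 (.s k153 k177 5 (.s k51 k102 14 (.s k27 k39 5 (.d k90
  k240 k216 14 8))))))] (.c k90 (.l (.s k68 k136 9 (.s k102 k119 4 (.s k51 k153 14 (.s k165 k245 11
  (.d k39 k27 k228 5 8)))))) (.c k102 (.l (.s k136 k68 9 (.s k141 k78 8 (.s k165 k245 11 (.s k153
  k177 5 (.s k170 k187 4 (.s k160 k175 2 (.d k240 k90 k80 14 11)))))))) (.c k165 (.q k4 [(.s k12 k8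
  1 (.s k68 k136 9 (.s k76 k140 7 (.s k72 k64 1 (.d k132 k196 k192 7 9))))), (.s k7 k6 0 (.s k3 k11
  1 (.s k70 k137 10 (.s k78 k141 8 (.s k74 k66 1 (.d k133 k196 k192 8 10)))))), (.s k7 k6 0 (.s k68
  k136 9 (.s k196 k132 7 (.s k70 k133 8 (.d k3 k11 k137 1 10)))))] (.c k11 (.l (.s k7 k6 0 (.s k68
  k136 9 (.s k196 k132 7 (.s k133 k70 8 (.d k192 k200 k74 1 10)))))) (.c k196 (.l (.s k12 k8 1 (.s
  k13 k14 0 (.s k140 k76 7 (.s k141 k78 8 (.s k77 k205 7 (.d k142 k143 k207 0 8))))))) .n))) (.c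
  k240 (.l (.s k68 k136 9 (.s k102 k119 4 (.s k51 k153 14 (.s k39 k27 5 (.d k165 k228 k245 8
  11)))))) (.c k245 (.l (.s k68 k136 9 (.s k78 k141 8 (.s k102 k119 4 (.s k90 k114 5 (.s k80 k95 2
  (.d k240 k160 k165 11 14))))))) .n)))))))

def s1_255_222 : T TT 256 :=
  (.q k4 [(.s k7 k6 0 (.s k247 k166 12 (.s k87 k167 11 (.s k86 k84 0 (.d k165 k245 k244 11 12))))),
  (.s k12 k8 1 (.s k15 k10 2 (.s k14 k13 0 (.s k166 k247 12 (.s k90 k242 13 (.s k80 k95 2 (.d k240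
  k160 k165 11 14))))))), (.s k7 k6 0 (.s k12 k8 1 (.s k15 k10 2 (.s k165 k245 11 (.s k240 k90 14
  (.s k164 k88 13 (.d k244 k84 k86 11 12)))))))] (.c k165 (.l (.s k6 k7 0 (.s k12 k8 1 (.s k3 k9 2
  (.s k166 k247 12 (.s k86 k246 11 (.s k252 k169 14 (.d k84 k87 k168 0 13)))))))) .n))

def s1_255_223 : T TT 256 :=
  (.q k207 [(.s k15 k10 2 (.s k69 k138 10 (.s k79 k143 7 (.s k74 k64 2 (.d k133 k197 k192 7 10))))),
  (.s k69 k138 10 (.s k101 k117 3 (.s k165 k245 11 (.s k37 k229 7 (.s k53 k21 3 (.d k197 k133 k149 7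
  11)))))), (.s k15 k10 2 (.s k143 k79 7 (.s k165 k245 11 (.s k154 k176 6 (.s k48 k101 14 (.s k26
  k37 6 (.d k90 k240 k218 14 7)))))))] .n)

def s1_255_224 : T TT 256 :=
  (.q k4 [(.s k7 k6 0 (.s k247 k166 12 (.s k87 k167 11 (.s k86 k84 0 (.d k165 k245 k244 11 12))))),
  (.s k12 k8 1 (.s k15 k10 2 (.s k14 k13 0 (.s k166 k247 12 (.s k90 k242 13 (.s k80 k95 2 (.d k240
  k160 k165 11 14))))))), (.s k7 k6 0 (.s k12 k8 1 (.s k15 k10 2 (.s k165 k245 11 (.s k240 k90 14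
  (.s k164 k88 13 (.d k244 k84 k86 11 12)))))))] (.c k165 (.l (.s k6 k7 0 (.s k12 k8 1 (.s k3 k9 2
  (.s k166 k247 12 (.s k86 k246 11 (.s k252 k169 14 (.d k84 k87 k168 0 13)))))))) .n))

def s1_255_225 : T TT 256 :=
  (.q k4 [(.s k7 k6 0 (.s k247 k166 12 (.s k87 k167 11 (.s k86 k84 0 (.d k165 k245 k244 11 12))))),
  (.s k12 k8 1 (.s k15 k10 2 (.s k14 k13 0 (.s k166 k247 12 (.s k90 k242 13 (.s k80 k95 2 (.d k240
  k160 k165 11 14))))))), (.s k7 k6 0 (.s k12 k8 1 (.s k15 k10 2 (.s k165 k245 11 (.s k240 k90 14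
  (.s k164 k88 13 (.d k244 k84 k86 11 12)))))))] (.c k165 (.l (.s k6 k7 0 (.s k12 k8 1 (.s k3 k9 2
  (.s k166 k247 12 (.s k86 k246 11 (.s k252 k169 14 (.d k84 k87 k168 0 13)))))))) .n))

def s1_255_226 : T TT 256 :=
  (.q k4 [(.s k7 k6 0 (.s k165 k245 11 (.s k86 k244 12 (.s k87 k84 0 (.d k247 k167 k166 11 12))))),
  (.s k12 k8 1 (.s k15 k10 2 (.s k14 k13 0 (.s k166 k247 12 (.s k90 k242 13 (.s k80 k95 2 (.d k240
  k160 k165 11 14))))))), (.s k6 k7 0 (.s k12 k8 1 (.s k3 k9 2 (.s k166 k247 12 (.s k86 k246 11 (.s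
  k252 k169 14 (.d k84 k87 k168 0 13))))))), (.s k7 k6 0 (.s k12 k8 1 (.s k15 k10 2 (.s k165 k245 11
  (.s k240 k90 14 (.s k164 k88 13 (.d k244 k84 k86 11 12)))))))] .n)

def s1_255_227 : T TT 256 :=
  (.q k4 [(.s k7 k6 0 (.s k165 k245 11 (.s k86 k244 12 (.s k87 k84 0 (.d k247 k167 k166 11 12))))),
  (.s k12 k8 1 (.s k15 k10 2 (.s k14 k13 0 (.s k166 k247 12 (.s k90 k242 13 (.s k80 k95 2 (.d k240
  k160 k165 11 14))))))), (.s k6 k7 0 (.s k12 k8 1 (.s k3 k9 2 (.s k166 k247 12 (.s k86 k246 11 (.s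
  k252 k169 14 (.d k84 k87 k168 0 13))))))), (.s k7 k6 0 (.s k12 k8 1 (.s k15 k10 2 (.s k165 k245 11
  (.s k240 k90 14 (.s k164 k88 13 (.d k244 k84 k86 11 12)))))))] .n)

def s1_255_228 : T TT 256 :=
  (.q k4 [(.s k7 k6 0 (.s k247 k166 12 (.s k87 k167 11 (.s k86 k84 0 (.d k165 k245 k244 11 12))))),
  (.s k12 k8 1 (.s k15 k10 2 (.s k14 k13 0 (.s k166 k247 12 (.s k90 k242 13 (.s k80 k95 2 (.d k240
  k160 k165 11 14))))))), (.s k7 k6 0 (.s k12 k8 1 (.s k15 k10 2 (.s k165 k245 11 (.s k240 k90 14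
  (.s k164 k88 13 (.d k244 k84 k86 11 12)))))))] (.c k165 (.l (.s k6 k7 0 (.s k12 k8 1 (.s k3 k9 2
  (.s k166 k247 12 (.s k86 k246 11 (.s k252 k169 14 (.d k84 k87 k168 0 13)))))))) .n))

def s1_255_229 : T TT 256 :=
  (.q k4 [(.s k7 k6 0 (.s k247 k166 12 (.s k87 k167 11 (.s k86 k84 0 (.d k165 k245 k244 11 12))))),
  (.s k12 k8 1 (.s k15 k10 2 (.s k14 k13 0 (.s k166 k247 12 (.s k90 k242 13 (.s k80 k95 2 (.d k240
  k160 k165 11 14))))))), (.s k7 k6 0 (.s k12 k8 1 (.s k15 k10 2 (.s k165 k245 11 (.s k240 k90 14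
  (.s k164 k88 13 (.d k244 k84 k86 11 12)))))))] (.c k165 (.l (.s k6 k7 0 (.s k12 k8 1 (.s k3 k9 2
  (.s k166 k247 12 (.s k86 k246 11 (.s k252 k169 14 (.d k84 k87 k168 0 13)))))))) .n))

def s1_255_230 : T TT 256 :=
  (.q k4 [(.s k7 k6 0 (.s k165 k245 11 (.s k86 k244 12 (.s k87 k84 0 (.d k247 k167 k166 11 12))))),
  (.s k12 k8 1 (.s k15 k10 2 (.s k14 k13 0 (.s k166 k247 12 (.s k90 k242 13 (.s k80 k95 2 (.d k240
  k160 k165 11 14))))))), (.s k6 k7 0 (.s k12 k8 1 (.s k3 k9 2 (.s k166 k247 12 (.s k86 k246 11 (.s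
  k252 k169 14 (.d k84 k87 k168 0 13))))))), (.s k7 k6 0 (.s k12 k8 1 (.s k15 k10 2 (.s k165 k245 11
  (.s k240 k90 14 (.s k164 k88 13 (.d k244 k84 k86 11 12)))))))] .n)

def s1_255_231 : T TT 256 :=
  (.q k4 [(.s k7 k6 0 (.s k165 k245 11 (.s k86 k244 12 (.s k87 k84 0 (.d k247 k167 k166 11 12))))),
  (.s k12 k8 1 (.s k15 k10 2 (.s k14 k13 0 (.s k166 k247 12 (.s k90 k242 13 (.s k80 k95 2 (.d k240
  k160 k165 11 14))))))), (.s k6 k7 0 (.s k12 k8 1 (.s k3 k9 2 (.s k166 k247 12 (.s k86 k246 11 (.s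
  k252 k169 14 (.d k84 k87 k168 0 13))))))), (.s k7 k6 0 (.s k12 k8 1 (.s k15 k10 2 (.s k165 k245 11
  (.s k240 k90 14 (.s k164 k88 13 (.d k244 k84 k86 11 12)))))))] .n)

def s1_255_232 : T TT 256 :=
  (.q k4 [(.s k7 k6 0 (.s k247 k166 12 (.s k87 k167 11 (.s k86 k84 0 (.d k165 k245 k244 11 12))))),
  (.s k12 k8 1 (.s k15 k10 2 (.s k14 k13 0 (.s k166 k247 12 (.s k90 k242 13 (.s k80 k95 2 (.d k240
  k160 k165 11 14))))))), (.s k7 k6 0 (.s k12 k8 1 (.s k15 k10 2 (.s k165 k245 11 (.s k240 k90 14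
  (.s k164 k88 13 (.d k244 k84 k86 11 12)))))))] (.c k165 (.l (.s k6 k7 0 (.s k12 k8 1 (.s k3 k9 2
  (.s k166 k247 12 (.s k86 k246 11 (.s k252 k169 14 (.d k84 k87 k168 0 13)))))))) .n))

def s1_255_233 : T TT 256 :=
  (.q k4 [(.s k7 k6 0 (.s k247 k166 12 (.s k87 k167 11 (.s k86 k84 0 (.d k165 k245 k244 11 12))))),
  (.s k12 k8 1 (.s k15 k10 2 (.s k14 k13 0 (.s k166 k247 12 (.s k90 k242 13 (.s k80 k95 2 (.d k240
  k160 k165 11 14))))))), (.s k7 k6 0 (.s k12 k8 1 (.s k15 k10 2 (.s k165 k245 11 (.s k240 k90 14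
  (.s k164 k88 13 (.d k244 k84 k86 11 12)))))))] (.c k165 (.l (.s k6 k7 0 (.s k12 k8 1 (.s k3 k9 2
  (.s k166 k247 12 (.s k86 k246 11 (.s k252 k169 14 (.d k84 k87 k168 0 13)))))))) .n))

def s1_255_234 : T TT 256 :=
  (.q k192 [(.s k15 k10 2 (.s k128 k64 7 (.s k133 k74 10 (.s k69 k197 7 (.d k138 k143 k207 2
  10))))), (.s k64 k128 7 (.s k106 k127 6 (.s k165 k245 11 (.s k224 k47 10 (.s k240 k208 3 (.s k80
  k160 11 (.d k90 k95 k15 2 14))))))), (.s k15 k10 2 (.s k133 k74 10 (.s k165 k245 11 (.s k149 k181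
  3 (.s k21 k213 7 (.d k63 k42 k106 6 14))))))] (.c k15 (.q k80 [(.s k64 k128 7 (.s k96 k112 3 (.s
  k48 k144 11 (.s k32 k16 3 (.d k160 k224 k240 7 11))))), (.s k165 k245 11 (.s k240 k160 11 (.s k224
  k208 3 (.s k106 k47 10 (.s k63 k149 14 (.s k122 k181 10 (.d k90 k95 k74 2 3))))))), (.s k64 k128 7
  (.s k112 k96 3 (.s k127 k106 6 (.s k117 k122 2 (.s k101 k69 3 (.d k90 k95 k79 2 6))))))] (.c k95
  (.q k175 [(.s k160 k240 11 (.d k165 k245 k170 11 2)), (.s k64 k128 7 (.s k96 k112 3 (.s k48 k144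
  11 (.s k32 k16 3 (.d k160 k224 k240 7 11))))), (.s k64 k128 7 (.s k96 k112 3 (.s k106 k127 6 (.s
  k111 k101 2 (.s k47 k239 7 (.d k165 k224 k245 10 11))))))] .n) (.c k175 (.l (.s k95 k90 2 (.s k64
  k128 7 (.s k96 k112 3 (.s k48 k144 11 (.s k32 k16 3 (.d k160 k240 k224 11 7))))))) .n))) .n))

def s1_255_235 : T TT 256 :=
  (.f k15 k10 2 (.q k195 [(.s k65 k130 8 (.s k75 k135 9 (.s k105 k125 5 (.s k90 k120 4 (.d k165 k245
  k240 11 14))))), (.s k135 k75 9 (.s k165 k245 11 (.s k150 k180 4 (.s k20 k215 8 (.d k60 k40 k105 5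
  14))))), (.s k65 k130 8 (.s k165 k245 11 (.s k240 k90 14 (.s k225 k210 4 (.d k105 k125 k45 5
  9)))))] (.c k105 (.l (.s k130 k65 8 (.s k135 k75 9 (.s k165 k245 11 (.s k150 k180 4 (.s k170 k190
  5 (.s k160 k175 2 (.d k240 k90 k80 14 11)))))))) (.c k165 (.q k4 [(.s k12 k8 1 (.s k130 k65 8 (.s
  k134 k73 10 (.s k69 k199 8 (.d k138 k142 k207 1 10))))), (.s k7 k6 0 (.s k135 k75 9 (.s k199 k71 7
  (.s k69 k134 8 (.d k207 k203 k138 1 10))))), (.s k7 k6 0 (.s k3 k11 1 (.s k131 k67 7 (.s k135 k75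
  9 (.s k71 k199 7 (.d k139 k143 k207 1 9)))))), (.s k12 k8 1 (.s k13 k14 0 (.s k65 k130 8 (.s k73
  k134 10 (.s k69 k77 1 (.d k133 k197 k193 7 9))))))] .n) (.c k240 (.l (.s k65 k130 8 (.s k105 k125
  5 (.s k60 k150 14 (.s k45 k30 4 (.d k165 k225 k245 9 11)))))) (.c k245 (.l (.s k65 k130 8 (.s k75
  k135 9 (.s k105 k125 5 (.s k90 k120 4 (.s k80 k95 2 (.d k240 k160 k165 11 14))))))) .n))))))

def s1_255_236 : T TT 256 :=
  (.q k4 [(.s k7 k6 0 (.s k247 k166 12 (.s k87 k167 11 (.s k86 k84 0 (.d k165 k245 k244 11 12))))),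
  (.s k12 k8 1 (.s k15 k10 2 (.s k14 k13 0 (.s k166 k247 12 (.s k90 k242 13 (.s k80 k95 2 (.d k240
  k160 k165 11 14))))))), (.s k7 k6 0 (.s k12 k8 1 (.s k15 k10 2 (.s k165 k245 11 (.s k240 k90 14
  (.s k164 k88 13 (.d k244 k84 k86 11 12)))))))] (.c k165 (.l (.s k6 k7 0 (.s k12 k8 1 (.s k3 k9 2
  (.s k166 k247 12 (.s k86 k246 11 (.s k252 k169 14 (.d k84 k87 k168 0 13)))))))) .n))

def s1_255_237 : T TT 256 :=
  (.q k4 [(.s k7 k6 0 (.s k247 k166 12 (.s k87 k167 11 (.s k86 k84 0 (.d k165 k245 k244 11 12))))),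
  (.s k12 k8 1 (.s k15 k10 2 (.s k14 k13 0 (.s k166 k247 12 (.s k90 k242 13 (.s k80 k95 2 (.d k240
  k160 k165 11 14))))))), (.s k7 k6 0 (.s k12 k8 1 (.s k15 k10 2 (.s k165 k245 11 (.s k240 k90 14
  (.s k164 k88 13 (.d k244 k84 k86 11 12)))))))] (.c k165 (.l (.s k6 k7 0 (.s k12 k8 1 (.s k3 k9 2
  (.s k166 k247 12 (.s k86 k246 11 (.s k252 k169 14 (.d k84 k87 k168 0 13)))))))) .n))

def s1_255_238 : T TT 256 :=
  (.f k15 k10 2 (.q k204 [(.s k68 k136 9 (.s k78 k141 8 (.s k102 k119 4 (.s k90 k114 5 (.d k165 k245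
  k240 11 14))))), (.s k141 k78 8 (.s k165 k245 11 (.s k153 k177 5 (.s k17 k221 9 (.d k51 k34 k102 4
  14))))), (.s k68 k136 9 (.s k165 k245 11 (.s k240 k90 14 (.s k228 k216 5 (.d k102 k119 k39 4
  8)))))] (.c k102 (.l (.s k136 k68 9 (.s k141 k78 8 (.s k165 k245 11 (.s k153 k177 5 (.s k170 k187
  4 (.s k160 k175 2 (.d k240 k90 k80 14 11)))))))) (.c k165 (.q k4 [(.s k12 k8 1 (.s k68 k136 9 (.s
  k76 k140 7 (.s k72 k64 1 (.d k132 k196 k192 7 9))))), (.s k7 k6 0 (.s k3 k11 1 (.s k70 k137 10 (.s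
  k78 k141 8 (.s k74 k66 1 (.d k133 k196 k192 8 10)))))), (.s k7 k6 0 (.s k68 k136 9 (.s k196 k132 7
  (.s k70 k133 8 (.d k3 k11 k137 1 10)))))] (.c k11 (.l (.s k7 k6 0 (.s k68 k136 9 (.s k196 k132 7
  (.s k133 k70 8 (.d k192 k200 k74 1 10)))))) (.c k196 (.l (.s k12 k8 1 (.s k13 k14 0 (.s k140 k76 7
  (.s k141 k78 8 (.s k77 k205 7 (.d k142 k143 k207 0 8))))))) .n))) (.c k240 (.l (.s k68 k136 9 (.s
  k102 k119 4 (.s k51 k153 14 (.s k39 k27 5 (.d k165 k228 k245 8 11)))))) (.c k245 (.l (.s k68 k136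
  9 (.s k78 k141 8 (.s k102 k119 4 (.s k90 k114 5 (.s k80 k95 2 (.d k240 k160 k165 11 14)))))))
  .n))))))

def s1_255_239 : T TT 256 :=
  (.q k207 [(.s k15 k10 2 (.s k69 k138 10 (.s k79 k143 7 (.s k74 k64 2 (.d k133 k197 k192 7 10))))),
  (.s k69 k138 10 (.s k101 k117 3 (.s k165 k245 11 (.s k37 k229 7 (.s k53 k21 3 (.d k197 k133 k149 7
  11)))))), (.s k15 k10 2 (.s k143 k79 7 (.s k165 k245 11 (.s k154 k176 6 (.s k16 k223 10 (.d k48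
  k32 k101 3 14))))))] .n)

def s1_255_240 : T TT 256 :=
  (.f k15 k10 2 (.f k245 k165 11 (.q k21 [(.s k53 k37 3 (.s k149 k213 7 (.s k101 k197 11 (.d k117
  k69 k181 3 7)))), (.s k37 k53 3 (.s k26 k48 6 (.s k31 k16 2 (.d k63 k47 k42 3 6)))), (.s k63 k42 6
  (.s k149 k213 7 (.s k192 k106 14 (.s k128 k64 7 (.s k133 k74 10 (.s k69 k197 7 (.d k138 k143 k207
  2 10)))))))] .n)))

def s1_255_241 : T TT 256 :=
  (.f k15 k10 2 (.q k143 [(.s k165 k245 11 (.s k154 k176 6 (.s k16 k223 10 (.s k48 k32 3 (.d k207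
  k79 k101 7 14))))), (.s k207 k79 7 (.s k69 k138 10 (.s k101 k117 3 (.s k48 k154 14 (.s k37 k26 6
  (.s k53 k21 3 (.d k197 k133 k149 7 11))))))), (.s k165 k245 11 (.s k176 k154 6 (.s k240 k90 14 (.s
  k160 k80 11 (.s k128 k144 3 (.s k133 k138 2 (.d k192 k74 k64 10 7))))))), (.s k165 k245 11 (.s
  k207 k79 7 (.s k69 k138 10 (.s k101 k117 3 (.s k229 k37 7 (.d k240 k218 k90 6 14))))))] (.c k81
  (.q k161 [(.s k165 k245 11 (.s k154 k176 6 (.s k16 k223 10 (.s k48 k32 3 (.d k207 k79 k101 7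
  14))))), (.s k165 k245 11 (.s k169 k173 1 (.s k240 k90 14 (.s k3 k82 12 (.s k7 k11 1 (.d k86 k244
  k252 12 14)))))), (.s k207 k79 7 (.s k69 k138 10 (.s k101 k117 3 (.s k48 k154 14 (.s k37 k26 6 (.s
  k53 k21 3 (.d k197 k133 k149 7 11)))))))] .n) (.c k161 (.q k81 [(.s k89 k93 1 (.s k243 k162 12 (.s
  k91 k167 13 (.s k90 k88 0 (.d k165 k245 k240 11 14))))), (.s k165 k245 11 (.s k154 k176 6 (.s k16
  k223 10 (.s k48 k32 3 (.d k207 k79 k101 7 14))))), (.s k207 k79 7 (.s k243 k162 12 (.s k167 k91 13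
  (.s k155 k179 5 (.s k103 k51 13 (.d k231 k219 k39 5 7))))))] .n) .n))))

def s1_255_242 : T TT 256 :=
  (.q k21 [(.s k15 k10 2 (.s k37 k53 3 (.s k26 k48 6 (.s k31 k16 2 (.d k63 k47 k42 3 6))))), (.s k53
  k37 3 (.s k149 k213 7 (.s k101 k197 11 (.s k117 k69 3 (.d k245 k181 k165 7 11))))), (.s k15 k10 2
  (.s k63 k42 6 (.s k47 k31 3 (.s k149 k213 7 (.s k165 k245 11 (.d k106 k192 k224 14 10))))))] .n)

def s1_255_243 : T TT 256 :=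
  (.f k245 k165 11 (.f k15 k10 2 (.q k21 [(.s k53 k37 3 (.s k117 k181 7 (.s k101 k69 3 (.d k149 k213
  k197 7 11)))), (.s k37 k53 3 (.s k42 k63 6 (.s k32 k47 2 (.d k48 k16 k26 3 6)))), (.s k63 k42 6
  (.s k149 k213 7 (.s k192 k106 14 (.s k128 k64 7 (.s k133 k74 10 (.s k69 k197 7 (.d k138 k143 k207
  2 10)))))))] (.c k247 (.q k251 [(.s k53 k37 3 (.s k117 k181 7 (.s k101 k69 3 (.d k149 k213 k197 7
  11)))), (.s k37 k53 3 (.s k42 k63 6 (.s k32 k47 2 (.d k48 k16 k26 3 6)))), (.s k63 k42 6 (.s k149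
  k213 7 (.s k192 k106 14 (.s k128 k64 7 (.s k133 k74 10 (.s k69 k197 7 (.d k138 k143 k207 2
  10)))))))] .n) (.c k251 (.q k247 [(.s k53 k37 3 (.s k117 k181 7 (.s k101 k69 3 (.d k149 k213 k197
  7 11)))), (.s k37 k53 3 (.s k42 k63 6 (.s k32 k47 2 (.d k48 k16 k26 3 6)))), (.s k4 k166 12 (.s
  k55 k38 4 (.s k119 k183 7 (.s k102 k68 4 (.d k149 k213 k196 7 12)))))] .n) .n)))))

def s1_255_244 : T TT 256 :=
  (.q k21 [(.s k15 k10 2 (.s k37 k53 3 (.s k26 k48 6 (.s k31 k16 2 (.d k63 k47 k42 3 6))))), (.s k53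
  k37 3 (.s k149 k213 7 (.s k101 k197 11 (.s k117 k69 3 (.d k245 k181 k165 7 11))))), (.s k15 k10 2
  (.s k63 k42 6 (.s k47 k31 3 (.s k149 k213 7 (.s k165 k245 11 (.d k106 k192 k224 14 10))))))] .n)

def s1_255_245 : T TT 256 :=
  (.f k15 k10 2 (.q k21 [(.s k63 k42 6 (.s k31 k47 3 (.s k26 k16 2 (.d k37 k53 k48 3 6)))), (.s k53
  k37 3 (.s k149 k213 7 (.s k197 k101 11 (.s k133 k69 7 (.s k192 k74 10 (.d k63 k42 k106 6 14)))))),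
  (.s k63 k42 6 (.s k149 k213 7 (.s k192 k106 14 (.s k128 k64 7 (.s k133 k74 10 (.s k138 k143 2 (.d
  k69 k197 k207 7 10)))))))] (.c k42 (.l (.s k37 k53 3 (.s k26 k48 6 (.s k16 k31 2 (.s k154 k223 10
  (.s k90 k218 7 (.s k240 k165 14 (.d k80 k95 k160 2 11)))))))) (.c k63 (.f k37 k53 3 (.f k48 k26 6
  (.l (.s k16 k32 3 (.s k154 k223 10 (.s k207 k101 14 (.s k69 k138 10 (.s k79 k143 7 (.s k74 k64 2
  (.d k133 k197 k192 7 10)))))))))) (.c k240 (.q k250 [(.s k63 k42 6 (.s k31 k47 3 (.s k26 k16 2 (.d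
  k37 k53 k48 3 6)))), (.s k53 k37 3 (.s k149 k213 7 (.s k197 k101 11 (.s k133 k69 7 (.s k192 k74 10
  (.s k64 k128 7 (.d k106 k127 k63 6 14))))))), (.s k63 k42 6 (.s k149 k213 7 (.s k192 k106 14 (.s
  k128 k64 7 (.s k133 k74 10 (.s k138 k143 2 (.d k69 k197 k207 7 10)))))))] (.c k63 (.f k37 k53 3
  (.f k48 k26 6 (.l (.s k16 k32 3 (.s k154 k223 10 (.s k207 k101 14 (.s k69 k138 10 (.s k79 k143 7
  (.s k74 k64 2 (.d k133 k197 k192 7 10)))))))))) .n)) (.c k250 (.q k240 [(.s k80 k160 11 (.d k90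
  k95 k165 2 14)), (.s k37 k53 3 (.s k26 k48 6 (.s k31 k16 2 (.d k63 k47 k42 3 6))))] (.c k90 (.q
  k170 [(.s k63 k42 6 (.s k31 k47 3 (.s k26 k16 2 (.d k37 k53 k48 3 6)))), (.s k149 k213 7 (.s k128
  k191 6 (.s k192 k64 7 (.d k63 k42 k106 6 14))))] (.c k42 (.l (.s k37 k53 3 (.s k149 k213 7 (.s
  k128 k191 6 (.s k160 k80 11 (.s k176 k144 3 (.d k48 k26 k112 6 7))))))) (.c k63 (.l (.s k37 k53 3
  (.s k48 k26 6 (.s k16 k32 3 (.s k154 k223 10 (.s k138 k186 3 (.d k207 k69 k101 10 14))))))) .n)))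
  (.c k170 (.l (.s k90 k165 14 (.d k80 k160 k95 11 2))) .n))) .n))))))

def s1_255_246 : T TT 256 :=
  (.q k21 [(.s k15 k10 2 (.s k37 k53 3 (.s k26 k48 6 (.s k31 k16 2 (.d k63 k47 k42 3 6))))), (.s k53
  k37 3 (.s k149 k213 7 (.s k101 k197 11 (.s k117 k69 3 (.d k245 k181 k165 7 11))))), (.s k15 k10 2
  (.s k63 k42 6 (.s k47 k31 3 (.s k149 k213 7 (.s k165 k245 11 (.d k106 k192 k224 14 10))))))] .n)

def s1_255_247 : T TT 256 :=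
  (.f k15 k10 2 (.q k243 [(.s k81 k162 12 (.s k89 k93 1 (.s k91 k167 13 (.s k90 k88 0 (.d k165 k245
  k240 11 14))))), (.s k81 k162 12 (.s k165 k245 11 (.s k240 k90 14 (.s k241 k242 0 (.d k89 k93 k13
  1 13))))), (.s k165 k245 11 (.s k167 k91 13 (.s k166 k164 0 (.s k12 k89 14 (.s k14 k13 0 (.d k90
  k240 k242 14 13))))))] (.c k89 (.l (.s k162 k81 12 (.s k165 k245 11 (.s k167 k91 13 (.s k166 k164
  0 (.s k170 k174 1 (.s k160 k175 2 (.d k240 k90 k80 14 11)))))))) (.c k90 (.l (.s k81 k162 12 (.s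
  k89 k93 1 (.s k12 k166 14 (.s k165 k245 11 (.d k13 k14 k241 0 13)))))) (.c k165 (.q k16 [(.s k48
  k32 3 (.s k81 k162 12 (.s k113 k178 8 (.s k146 k211 8 (.d k97 k65 k195 3 12))))), (.s k48 k32 3
  (.s k26 k37 6 (.s k31 k21 2 (.s k154 k223 10 (.s k90 k218 7 (.s k80 k95 2 (.d k208 k144 k149 7
  10))))))), (.s k81 k162 12 (.s k89 k93 1 (.s k154 k223 10 (.s k24 k219 8 (.s k28 k20 1 (.d k211
  k146 k150 8 10))))))] .n) (.c k240 (.l (.s k81 k162 12 (.s k89 k93 1 (.s k12 k166 14 (.s k13 k14 0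
  (.d k165 k245 k241 11 13)))))) (.c k245 (.l (.s k81 k162 12 (.s k89 k93 1 (.s k91 k167 13 (.s k90
  k88 0 (.s k80 k95 2 (.d k240 k160 k165 11 14))))))) .n)))))))

def s1_255_248 : T TT 256 :=
  (.q k4 [(.s k7 k6 0 (.s k247 k166 12 (.s k87 k167 11 (.s k86 k84 0 (.d k165 k245 k244 11 12))))),
  (.s k12 k8 1 (.s k15 k10 2 (.s k14 k13 0 (.s k166 k247 12 (.s k90 k242 13 (.s k80 k95 2 (.d k240
  k160 k165 11 14)))))))] (.c k165 (.l (.s k6 k7 0 (.s k12 k8 1 (.s k3 k9 2 (.s k166 k247 12 (.s k86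
  k246 11 (.s k252 k169 14 (.d k84 k87 k168 0 13)))))))) (.c k166 (.l (.s k7 k6 0 (.s k15 k10 2 (.s
  k3 k11 1 (.s k165 k245 11 (.s k86 k244 12 (.s k84 k87 0 (.d k252 k169 k168 14 13)))))))) (.c k247
  (.l (.s k7 k6 0 (.s k12 k8 1 (.s k15 k10 2 (.s k165 k245 11 (.s k240 k90 14 (.s k244 k86 12 (.d
  k164 k88 k84 13 11)))))))) .n))))

def s1_255_249 : T TT 256 :=
  (.q k21 [(.s k15 k10 2 (.s k37 k53 3 (.s k26 k48 6 (.s k31 k16 2 (.d k63 k47 k42 3 6))))), (.s k53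
  k37 3 (.s k149 k213 7 (.s k101 k197 11 (.s k117 k69 3 (.d k245 k181 k165 7 11))))), (.s k15 k10 2
  (.s k63 k42 6 (.s k47 k31 3 (.s k149 k213 7 (.s k165 k245 11 (.d k106 k192 k224 14 10))))))] .n)

def s1_255_250 : T TT 256 :=
  (.q k69 [(.s k245 k165 11 (.s k101 k117 3 (.s k197 k133 7 (.s k149 k53 11 (.d k213 k229 k21 3
  7))))), (.s k15 k10 2 (.s k133 k197 7 (.s k138 k207 10 (.s k128 k143 2 (.d k192 k64 k74 7 10))))),
  (.s k15 k10 2 (.s k101 k117 3 (.s k207 k138 10 (.s k48 k154 14 (.s k37 k26 6 (.d k165 k245 k229 11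
  7))))))] (.c k240 (.l (.s k245 k165 11 (.s k101 k117 3 (.s k197 k133 7 (.s k149 k53 11 (.d k213
  k229 k21 3 7)))))) (.c k245 (.q k240 [(.s k15 k10 2 (.s k80 k160 11 (.d k90 k95 k165 2 14))), (.s
  k133 k197 7 (.s k138 k207 10 (.s k128 k143 2 (.s k192 k64 7 (.d k15 k10 k74 2 10))))), (.s k80
  k160 11 (.s k101 k117 3 (.s k207 k138 10 (.s k48 k154 14 (.s k112 k176 7 (.d k90 k95 k79 2
  6))))))] .n) .n)))

def s1_255_251 : T TT 256 :=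
  (.f k15 k10 2 (.q k243 [(.s k81 k162 12 (.s k89 k93 1 (.s k91 k167 13 (.s k90 k88 0 (.d k165 k245
  k240 11 14))))), (.s k165 k245 11 (.s k167 k91 13 (.s k166 k164 0 (.s k4 k247 12 (.d k12 k8 k89 1
  14))))), (.s k81 k162 12 (.s k89 k93 1 (.s k12 k166 14 (.s k13 k14 0 (.d k165 k245 k241 11
  13)))))] (.c k12 (.l (.s k81 k162 12 (.s k165 k245 11 (.s k240 k90 14 (.s k241 k242 0 (.d k89 k93
  k13 1 13)))))) (.c k89 (.l (.s k162 k81 12 (.s k165 k245 11 (.s k167 k91 13 (.s k166 k164 0 (.s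
  k170 k174 1 (.s k160 k175 2 (.d k240 k90 k80 14 11)))))))) (.c k165 (.q k3 [(.s k7 k11 1 (.s k4 k6
  0 (.s k166 k247 12 (.d k12 k8 k89 1 14)))), (.s k81 k162 12 (.s k83 k163 11 (.s k80 k82 0 (.s k95
  k90 2 (.d k91 k87 k167 1 13))))), (.s k81 k162 12 (.s k89 k93 1 (.s k12 k166 14 (.s k4 k8 1 (.d k6
  k9 k7 2 0)))))] .n) (.c k245 (.l (.s k81 k162 12 (.s k89 k93 1 (.s k91 k167 13 (.s k90 k88 0 (.s
  k80 k95 2 (.d k240 k160 k165 11 14))))))) .n))))))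

def s1_255_252 : T TT 256 :=
  (.f k15 k10 2 (.f k245 k165 11 (.q k21 [(.s k53 k37 3 (.s k117 k181 7 (.s k101 k69 3 (.d k149 k213
  k197 7 11)))), (.s k37 k53 3 (.s k42 k63 6 (.s k32 k47 2 (.d k48 k16 k26 3 6)))), (.s k63 k42 6
  (.s k149 k213 7 (.s k192 k106 14 (.s k128 k64 7 (.s k133 k74 10 (.s k69 k197 7 (.d k138 k143 k207
  2 10)))))))] (.c k253 (.q k254 [(.s k53 k37 3 (.s k117 k181 7 (.s k101 k69 3 (.d k149 k213 k197 7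
  11)))), (.s k37 k53 3 (.s k42 k63 6 (.s k32 k47 2 (.d k48 k16 k26 3 6)))), (.s k63 k42 6 (.s k149
  k213 7 (.s k192 k106 14 (.s k128 k64 7 (.s k133 k74 10 (.s k69 k197 7 (.d k138 k143 k207 2
  10)))))))] .n) (.c k254 (.q k253 [(.s k53 k37 3 (.s k117 k181 7 (.s k101 k69 3 (.d k149 k213 k197
  7 11)))), (.s k37 k53 3 (.s k42 k63 6 (.s k32 k47 2 (.d k48 k16 k26 3 6)))), (.s k213 k149 7 (.s
  k193 k233 5 (.s k241 k249 1 (.s k209 k225 3 (.s k217 k221 1 (.d k229 k197 k205 3 5))))))] .n)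
  .n)))))

def s1_255_253 : T TT 256 :=
  (.f k15 k10 2 (.q k252 [(.s k84 k168 13 (.s k86 k87 0 (.s k94 k173 12 (.s k90 k82 1 (.d k165 k245
  k240 11 14))))), (.s k84 k168 13 (.s k165 k245 11 (.s k240 k90 14 (.s k80 k160 11 (.s k88 k92 1
  (.s k164 k12 13 (.d k244 k248 k4 1 11))))))), (.s k165 k245 11 (.s k173 k94 12 (.s k169 k161 1 (.s
  k3 k86 14 (.s k11 k7 1 (.d k90 k240 k248 14 12)))))), (.s k84 k168 13 (.s k86 k87 0 (.s k3 k169 14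
  (.s k7 k11 1 (.s k4 k6 0 (.d k244 k164 k165 11 12))))))] (.c k90 (.l (.s k84 k168 13 (.s k86 k87 0
  (.s k3 k169 14 (.s k165 k245 11 (.d k7 k11 k244 1 12)))))) (.c k165 (.q k4 [(.s k6 k7 0 (.s k84
  k168 13 (.s k86 k87 0 (.d k166 k247 k246 12 11)))), (.s k12 k8 1 (.s k84 k168 13 (.s k92 k172 11
  (.s k88 k80 1 (.d k164 k244 k240 11 13))))), (.s k6 k7 0 (.s k12 k8 1 (.s k166 k247 12 (.s k86
  k246 11 (.d k3 k9 k169 2 14)))))] (.c k244 (.l (.s k7 k6 0 (.s k3 k11 1 (.s k84 k168 13 (.d k86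
  k87 k169 0 14))))) .n)) .n))))

def s1_255_254 : T TT 256 :=
  (.f k15 k10 2 (.q k252 [(.s k84 k168 13 (.s k86 k87 0 (.s k94 k173 12 (.s k90 k82 1 (.d k165 k245
  k240 11 14))))), (.s k84 k168 13 (.s k165 k245 11 (.s k240 k90 14 (.s k80 k160 11 (.s k88 k92 1
  (.s k164 k12 13 (.d k244 k248 k4 1 11))))))), (.s k165 k245 11 (.s k173 k94 12 (.s k169 k161 1 (.s
  k3 k86 14 (.s k11 k7 1 (.d k90 k240 k248 14 12)))))), (.s k84 k168 13 (.s k86 k87 0 (.s k3 k169 14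
  (.s k7 k11 1 (.s k4 k6 0 (.d k244 k164 k165 11 12))))))] (.c k90 (.l (.s k84 k168 13 (.s k86 k87 0
  (.s k3 k169 14 (.s k165 k245 11 (.d k7 k11 k244 1 12)))))) (.c k165 (.q k4 [(.s k6 k7 0 (.s k84
  k168 13 (.s k86 k87 0 (.d k166 k247 k246 12 11)))), (.s k12 k8 1 (.s k84 k168 13 (.s k92 k172 11
  (.s k88 k80 1 (.d k164 k244 k240 11 13))))), (.s k6 k7 0 (.s k12 k8 1 (.s k166 k247 12 (.s k86
  k246 11 (.d k3 k9 k169 2 14)))))] (.c k244 (.l (.s k7 k6 0 (.s k3 k11 1 (.s k84 k168 13 (.d k86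
  k87 k169 0 14))))) .n)) .n))))

def t1_255 : T TT 256 :=
  (.q k5 [] (.c k2 s1_255_2 (.c k3 s1_255_3 (.c k4 s1_255_4 (.c k6 s1_255_6 (.c k7 s1_255_7 (.c k8
  s1_255_8 (.c k9 s1_255_9 (.c k10 s1_255_10 (.c k11 s1_255_11 (.c k12 s1_255_12 (.c k13 s1_255_13
  (.c k14 s1_255_14 (.c k15 s1_255_15 (.c k16 s1_255_16 (.c k17 s1_255_17 (.c k18 s1_255_18 (.c k19
  s1_255_19 (.c k20 s1_255_20 (.c k21 s1_255_21 (.c k22 s1_255_22 (.c k23 s1_255_23 (.c k24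
  s1_255_24 (.c k25 s1_255_25 (.c k26 s1_255_26 (.c k27 s1_255_27 (.c k28 s1_255_28 (.c k29
  s1_255_29 (.c k30 s1_255_30 (.c k31 s1_255_31 (.c k32 s1_255_32 (.c k33 s1_255_33 (.c k34
  s1_255_34 (.c k35 s1_255_35 (.c k36 s1_255_36 (.c k37 s1_255_37 (.c k38 s1_255_38 (.c k39
  s1_255_39 (.c k40 s1_255_40 (.c k41 s1_255_41 (.c k42 s1_255_42 (.c k43 s1_255_43 (.c k44
  s1_255_44 (.c k45 s1_255_45 (.c k46 s1_255_46 (.c k47 s1_255_47 (.c k48 s1_255_48 (.c k49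
  s1_255_49 (.c k50 s1_255_50 (.c k51 s1_255_51 (.c k52 s1_255_52 (.c k53 s1_255_53 (.c k54
  s1_255_54 (.c k55 s1_255_55 (.c k56 s1_255_56 (.c k57 s1_255_57 (.c k58 s1_255_58 (.c k59
  s1_255_59 (.c k60 s1_255_60 (.c k61 s1_255_61 (.c k62 s1_255_62 (.c k63 s1_255_63 (.c k64
  s1_255_64 (.c k65 s1_255_65 (.c k66 s1_255_66 (.c k67 s1_255_67 (.c k68 s1_255_68 (.c k69
  s1_255_69 (.c k70 s1_255_70 (.c k71 s1_255_71 (.c k72 s1_255_72 (.c k73 s1_255_73 (.c k74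
  s1_255_74 (.c k75 s1_255_75 (.c k76 s1_255_76 (.c k77 s1_255_77 (.c k78 s1_255_78 (.c k79
  s1_255_79 (.c k80 s1_255_80 (.c k81 s1_255_81 (.c k82 s1_255_82 (.c k83 s1_255_83 (.c k84
  s1_255_84 (.c k86 s1_255_86 (.c k87 s1_255_87 (.c k88 s1_255_88 (.c k89 s1_255_89 (.c k90
  s1_255_90 (.c k91 s1_255_91 (.c k92 s1_255_92 (.c k93 s1_255_93 (.c k94 s1_255_94 (.c k95
  s1_255_95 (.c k96 s1_255_96 (.c k97 s1_255_97 (.c k98 s1_255_98 (.c k99 s1_255_99 (.c k100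
  s1_255_100 (.c k101 s1_255_101 (.c k102 s1_255_102 (.c k103 s1_255_103 (.c k104 s1_255_104 (.c
  k105 s1_255_105 (.c k106 s1_255_106 (.c k107 s1_255_107 (.c k108 s1_255_108 (.c k109 s1_255_109
  (.c k110 s1_255_110 (.c k111 s1_255_111 (.c k112 s1_255_112 (.c k113 s1_255_113 (.c k114
  s1_255_114 (.c k115 s1_255_115 (.c k116 s1_255_116 (.c k117 s1_255_117 (.c k118 s1_255_118 (.c
  k119 s1_255_119 (.c k120 s1_255_120 (.c k121 s1_255_121 (.c k122 s1_255_122 (.c k123 s1_255_123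
  (.c k124 s1_255_124 (.c k125 s1_255_125 (.c k126 s1_255_126 (.c k127 s1_255_127 (.c k128
  s1_255_128 (.c k129 s1_255_129 (.c k130 s1_255_130 (.c k131 s1_255_131 (.c k132 s1_255_132 (.c
  k133 s1_255_133 (.c k134 s1_255_134 (.c k135 s1_255_135 (.c k136 s1_255_136 (.c k137 s1_255_137
  (.c k138 s1_255_138 (.c k139 s1_255_139 (.c k140 s1_255_140 (.c k141 s1_255_141 (.c k142
  s1_255_142 (.c k143 s1_255_143 (.c k144 s1_255_144 (.c k145 s1_255_145 (.c k146 s1_255_146 (.c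
  k147 s1_255_147 (.c k148 s1_255_148 (.c k149 s1_255_149 (.c k150 s1_255_150 (.c k151 s1_255_151
  (.c k152 s1_255_152 (.c k153 s1_255_153 (.c k154 s1_255_154 (.c k155 s1_255_155 (.c k156
  s1_255_156 (.c k157 s1_255_157 (.c k158 s1_255_158 (.c k159 s1_255_159 (.c k160 s1_255_160 (.c
  k161 s1_255_161 (.c k162 s1_255_162 (.c k163 s1_255_163 (.c k164 s1_255_164 (.c k165 s1_255_165
  (.c k166 s1_255_166 (.c k167 s1_255_167 (.c k168 s1_255_168 (.c k169 s1_255_169 (.c k170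
  s1_255_170 (.c k171 s1_255_171 (.c k172 s1_255_172 (.c k173 s1_255_173 (.c k174 s1_255_174 (.c
  k175 s1_255_175 (.c k176 s1_255_176 (.c k177 s1_255_177 (.c k178 s1_255_178 (.c k179 s1_255_179
  (.c k180 s1_255_180 (.c k181 s1_255_181 (.c k182 s1_255_182 (.c k183 s1_255_183 (.c k184
  s1_255_184 (.c k185 s1_255_185 (.c k186 s1_255_186 (.c k187 s1_255_187 (.c k188 s1_255_188 (.c
  k189 s1_255_189 (.c k190 s1_255_190 (.c k191 s1_255_191 (.c k192 s1_255_192 (.c k193 s1_255_193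
  (.c k194 s1_255_194 (.c k195 s1_255_195 (.c k196 s1_255_196 (.c k197 s1_255_197 (.c k198
  s1_255_198 (.c k199 s1_255_199 (.c k200 s1_255_200 (.c k201 s1_255_201 (.c k202 s1_255_202 (.c
  k203 s1_255_203 (.c k204 s1_255_204 (.c k205 s1_255_205 (.c k206 s1_255_206 (.c k207 s1_255_207
  (.c k208 s1_255_208 (.c k209 s1_255_209 (.c k210 s1_255_210 (.c k211 s1_255_211 (.c k212
  s1_255_212 (.c k213 s1_255_213 (.c k214 s1_255_214 (.c k215 s1_255_215 (.c k216 s1_255_216 (.c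
  k217 s1_255_217 (.c k218 s1_255_218 (.c k219 s1_255_219 (.c k220 s1_255_220 (.c k221 s1_255_221
  (.c k222 s1_255_222 (.c k223 s1_255_223 (.c k224 s1_255_224 (.c k225 s1_255_225 (.c k226
  s1_255_226 (.c k227 s1_255_227 (.c k228 s1_255_228 (.c k229 s1_255_229 (.c k230 s1_255_230 (.c
  k231 s1_255_231 (.c k232 s1_255_232 (.c k233 s1_255_233 (.c k234 s1_255_234 (.c k235 s1_255_235
  (.c k236 s1_255_236 (.c k237 s1_255_237 (.c k238 s1_255_238 (.c k239 s1_255_239 (.c k240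
  s1_255_240 (.c k241 s1_255_241 (.c k242 s1_255_242 (.c k243 s1_255_243 (.c k244 s1_255_244 (.c
  k245 s1_255_245 (.c k246 s1_255_246 (.c k247 s1_255_247 (.c k248 s1_255_248 (.c k249 s1_255_249
  (.c k250 s1_255_250 (.c k251 s1_255_251 (.c k252 s1_255_252 (.c k253 s1_255_253 (.c k254
  s1_255_254 .n))))))))))))))))))))))))))))))))))))))))))))))))))))))))))))))))))))))))))))))))
  ))))))))))))))))))))))))))))))))))))))))))))))))))))))))))))))))))))))))))))))))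
  )))))))))))))))))))))))))))))))))))))))))))))))))))))))))))))))))))))))))))))))) ))))))))))))

def s2_170_1 : T TT 256 :=
  (.q k4 [(.s k84 k87 0 (.s k166 k247 12 (.s k6 k246 11 (.s k244 k164 11 (.d k7 k5 k165 0 12))))),
  (.s k12 k8 1 (.s k84 k87 0 (.s k164 k244 11 (.s k88 k240 13 (.s k92 k80 1 (.d k252 k172 k168 11
  13)))))), (.s k12 k8 1 (.s k166 k247 12 (.s k6 k246 11 (.s k3 k9 2 (.s k89 k243 14 (.s k92 k83 2
  (.d k252 k172 k169 11 14)))))))] (.c k244 (.l (.s k12 k8 1 (.s k84 k87 0 (.s k166 k247 12 (.s k89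
  k243 14 (.s k92 k83 2 (.d k252 k172 k168 11 13))))))) .n))

def s2_170_3 : T TT 256 :=
  (.f k84 k87 0 (.q k64 [(.s k106 k127 6 (.s k66 k126 5 (.s k67 k65 0 (.d k124 k104 k105 5 6)))),
  (.s k104 k124 5 (.s k168 k252 13 (.s k40 k232 7 (.s k60 k20 5 (.d k192 k128 k148 7 13))))), (.s
  k106 k127 6 (.s k126 k66 5 (.s k192 k128 7 (.s k252 k168 13 (.d k63 k149 k189 14 8)))))] (.c k171
  (.q k255 [(.s k106 k127 6 (.s k66 k126 5 (.s k67 k65 0 (.d k124 k104 k105 5 6)))), (.s k192 k128 7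
  (.s k213 k234 6 (.s k149 k21 7 (.d k106 k127 k63 6 14)))), (.s k104 k124 5 (.s k168 k252 13 (.s
  k40 k232 7 (.s k60 k20 5 (.d k192 k128 k148 7 13)))))] (.c k168 (.q k169 [(.s k106 k127 6 (.s k66
  k126 5 (.s k67 k65 0 (.d k124 k104 k105 5 6)))), (.s k192 k128 7 (.s k213 k234 6 (.s k149 k21 7
  (.d k106 k127 k63 6 14)))), (.s k104 k124 5 (.s k192 k128 7 (.s k148 k60 13 (.s k212 k20 7 (.s
  k149 k23 8 (.d k213 k21 k234 7 6))))))] .n) (.c k169 (.l (.s k168 k252 13 (.s k104 k124 5 (.s k40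
  k232 7 (.s k60 k20 5 (.d k192 k128 k148 7 13)))))) .n))) (.c k255 (.q k171 [(.s k124 k104 5 (.s
  k67 k105 6 (.s k66 k65 0 (.d k106 k126 k127 5 6)))), (.s k104 k124 5 (.s k168 k252 13 (.s k40 k232
  7 (.s k60 k20 5 (.d k192 k128 k148 7 13))))), (.s k106 k127 6 (.s k126 k66 5 (.s k192 k128 7 (.s
  k252 k168 13 (.d k63 k149 k189 14 8)))))] .n) .n))))

def s2_170_4 : T TT 256 :=
  (.q k16 [(.s k84 k87 0 (.s k220 k152 9 (.s k153 k19 10 (.s k221 k17 9 (.d k223 k222 k154 0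
  10))))), (.s k48 k32 3 (.s k84 k87 0 (.s k152 k220 9 (.s k100 k204 13 (.s k116 k68 3 (.d k252 k184
  k168 9 13)))))), (.s k48 k32 3 (.s k154 k223 10 (.s k18 k222 9 (.s k3 k33 4 (.s k101 k207 14 (.s
  k116 k71 4 (.d k252 k184 k169 9 14)))))))] (.c k220 (.l (.s k48 k32 3 (.s k84 k87 0 (.s k154 k223
  10 (.s k101 k207 14 (.s k116 k71 4 (.d k252 k184 k168 9 13))))))) .n))

def s2_170_5 : T TT 256 :=
  (.q k4 [(.s k84 k87 0 (.s k164 k244 11 (.s k168 k252 13 (.s k160 k172 1 (.s k240 k80 11 (.d k12 k8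
  k88 1 13)))))), (.s k84 k87 0 (.s k166 k247 12 (.s k246 k6 11 (.s k252 k168 13 (.s k243 k249 2 (.s
  k81 k162 12 (.d k89 k93 k12 1 14))))))), (.s k12 k8 1 (.s k166 k247 12 (.s k6 k246 11 (.s k3 k9 2
  (.s k89 k243 14 (.s k92 k83 2 (.d k252 k172 k169 11 14)))))))] (.c k12 (.l (.s k84 k87 0 (.s k244
  k164 11 (.s k165 k7 12 (.s k252 k168 13 (.s k240 k248 1 (.s k90 k15 14 (.d k80 k160 k95 11
  2)))))))) (.c k252 (.l (.s k12 k8 1 (.s k84 k87 0 (.s k164 k244 11 (.s k166 k247 12 (.s k89 k243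
  14 (.s k92 k83 2 (.d k88 k240 k80 13 1)))))))) .n)))

def s2_170_6 : T TT 256 :=
  (.f k84 k87 0 (.q k80 [(.s k92 k88 1 (.s k89 k83 2 (.s k93 k81 1 (.d k95 k94 k90 0 2)))), (.s k88
  k92 1 (.s k168 k252 13 (.s k8 k248 11 (.s k12 k4 1 (.d k240 k160 k164 11 13))))), (.s k90 k95 2
  (.s k94 k82 1 (.s k240 k160 11 (.s k252 k168 13 (.d k15 k165 k173 14 12)))))] (.c k10 (.q k14 [(.s
  k92 k88 1 (.s k89 k83 2 (.s k93 k81 1 (.d k95 k90 k94 2 0)))), (.s k88 k92 1 (.s k168 k252 13 (.s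
  k8 k248 11 (.s k12 k4 1 (.d k240 k160 k164 11 13))))), (.s k90 k95 2 (.s k94 k82 1 (.s k240 k160
  11 (.s k252 k168 13 (.d k15 k165 k173 14 12)))))] (.c k90 (.q k250 [(.s k88 k92 1 (.s k168 k252 13
  (.s k240 k160 11 (.s k12 k164 13 (.d k8 k4 k248 1 11))))), (.s k252 k168 13 (.s k169 k3 14 (.s
  k253 k1 13 (.s k255 k254 0 (.d k240 k245 k160 2 11))))), (.s k92 k88 1 (.s k89 k83 2 (.s k81 k93 1
  (.s k243 k162 12 (.s k252 k168 13 (.d k12 k166 k172 14 11)))))), (.s k240 k160 11 (.s k245 k255 2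
  (.s k165 k5 11 (.s k244 k7 12 (.s k4 k164 11 (.d k247 k246 k166 0 12))))))] (.c k168 (.l (.s k88
  k92 1 (.s k240 k160 11 (.s k164 k12 13 (.s k244 k4 11 (.s k245 k255 2 (.d k165 k5 k7 11 12)))))))
  .n)) (.c k250 (.l (.s k90 k95 2 (.s k82 k94 1 (.s k83 k81 0 (.d k92 k88 k89 1 2))))) .n))) (.c k14
  (.q k10 [(.s k90 k95 2 (.s k240 k160 11 (.d k15 k165 k5 14 2))), (.s k90 k95 2 (.s k82 k94 1 (.s
  k83 k81 0 (.d k92 k88 k89 1 2)))), (.s k5 k15 2 (.s k165 k245 11 (.s k240 k160 11 (.s k244 k7 12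
  (.d k252 k248 k168 1 13)))))] .n) .n))))

def s2_170_7 : T TT 256 :=
  (.q k16 [(.s k84 k87 0 (.s k220 k152 9 (.s k153 k19 10 (.s k221 k17 9 (.d k223 k222 k154 0
  10))))), (.s k48 k32 3 (.s k154 k223 10 (.s k18 k222 9 (.s k3 k33 4 (.s k101 k207 14 (.s k116 k71
  4 (.d k252 k184 k169 9 14))))))), (.s k48 k32 3 (.s k84 k87 0 (.s k152 k220 9 (.s k100 k204 13 (.s
  k116 k68 3 (.d k252 k184 k168 9 13))))))] (.c k220 (.l (.s k48 k32 3 (.s k84 k87 0 (.s k154 k223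
  10 (.s k101 k207 14 (.s k116 k71 4 (.d k252 k184 k168 9 13))))))) .n))

def s2_170_8 : T TT 256 :=
  (.q k89 [(.s k84 k87 0 (.s k93 k81 1 (.s k92 k83 2 (.s k95 k94 0 (.d k80 k88 k90 1 2))))), (.s k81
  k93 1 (.s k84 k87 0 (.s k243 k162 12 (.s k166 k12 14 (.s k246 k6 11 (.d k252 k249 k168 2 13)))))),
  (.s k84 k87 0 (.s k92 k83 2 (.s k252 k168 13 (.s k12 k172 11 (.s k166 k243 14 (.s k6 k246 11 (.d
  k3 k169 k9 14 2))))))), (.s k81 k93 1 (.s k83 k92 2 (.s k243 k162 12 (.s k3 k163 11 (.s k166 k12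
  14 (.s k246 k6 11 (.d k252 k249 k169 2 14)))))))] .n)

def s2_170_9 : T TT 256 :=
  (.q k16 [(.s k84 k87 0 (.s k220 k152 9 (.s k153 k19 10 (.s k221 k17 9 (.d k223 k222 k154 0
  10))))), (.s k48 k32 3 (.s k84 k87 0 (.s k152 k220 9 (.s k100 k204 13 (.s k116 k68 3 (.d k252 k184
  k168 9 13)))))), (.s k48 k32 3 (.s k154 k223 10 (.s k18 k222 9 (.s k3 k33 4 (.s k101 k207 14 (.s
  k116 k71 4 (.d k252 k184 k169 9 14)))))))] (.c k220 (.l (.s k48 k32 3 (.s k84 k87 0 (.s k154 k223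
  10 (.s k101 k207 14 (.s k116 k71 4 (.d k252 k184 k168 9 13))))))) .n))

def s2_170_10 : T TT 256 :=
  (.f k84 k87 0 (.q k90 [(.s k80 k95 2 (.s k82 k94 1 (.s k83 k81 0 (.d k92 k88 k89 1 2)))), (.s k94
  k82 1 (.s k252 k168 13 (.s k15 k173 12 (.s k165 k240 14 (.s k7 k244 12 (.d k3 k169 k11 14 1)))))),
  (.s k80 k95 2 (.s k240 k160 11 (.s k165 k15 14 (.s k244 k7 12 (.d k252 k248 k168 1 13)))))] (.c k6
  (.q k14 [(.s k80 k95 2 (.s k82 k94 1 (.s k83 k81 0 (.d k92 k88 k89 1 2)))), (.s k94 k82 1 (.s k252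
  k168 13 (.s k169 k3 14 (.s k253 k1 13 (.d k254 k255 k174 0 11))))), (.s k80 k95 2 (.s k240 k160 11
  (.s k165 k15 14 (.s k244 k7 12 (.d k252 k248 k168 1 13)))))] .n) (.c k14 (.q k6 [(.s k166 k246 11
  (.s k4 k247 12 (.s k7 k5 0 (.d k244 k164 k165 11 12)))), (.s k80 k95 2 (.s k82 k94 1 (.s k83 k81 0
  (.d k92 k88 k89 1 2))))] .n) .n))))

def s2_170_11 : T TT 256 :=
  (.q k4 [(.s k84 k87 0 (.s k166 k247 12 (.s k6 k246 11 (.s k7 k5 0 (.d k244 k164 k165 11 12))))),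
  (.s k12 k8 1 (.s k84 k87 0 (.s k164 k244 11 (.s k88 k240 13 (.s k92 k80 1 (.d k252 k172 k168 11
  13)))))), (.s k12 k8 1 (.s k166 k247 12 (.s k6 k246 11 (.s k89 k243 14 (.s k92 k83 2 (.s k252 k172
  11 (.d k3 k9 k169 2 14)))))))] (.c k244 (.l (.s k12 k8 1 (.s k84 k87 0 (.s k166 k247 12 (.s k89
  k243 14 (.s k92 k83 2 (.d k252 k172 k168 11 13))))))) .n))

def s2_170_12 : T TT 256 :=
  (.q k16 [(.s k84 k87 0 (.s k220 k152 9 (.s k153 k19 10 (.s k221 k17 9 (.d k223 k222 k154 0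
  10))))), (.s k48 k32 3 (.s k84 k87 0 (.s k152 k220 9 (.s k100 k204 13 (.s k116 k68 3 (.d k252 k184
  k168 9 13)))))), (.s k48 k32 3 (.s k154 k223 10 (.s k18 k222 9 (.s k3 k33 4 (.s k101 k207 14 (.s
  k116 k71 4 (.d k252 k184 k169 9 14)))))))] (.c k220 (.l (.s k48 k32 3 (.s k84 k87 0 (.s k154 k223
  10 (.s k101 k207 14 (.s k116 k71 4 (.d k252 k184 k168 9 13))))))) .n))

def s2_170_13 : T TT 256 :=
  (.q k4 [(.s k84 k87 0 (.s k166 k247 12 (.s k6 k246 11 (.s k244 k164 11 (.d k7 k5 k165 0 12))))),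
  (.s k12 k8 1 (.s k84 k87 0 (.s k164 k244 11 (.s k88 k240 13 (.s k92 k80 1 (.d k252 k172 k168 11
  13)))))), (.s k12 k8 1 (.s k166 k247 12 (.s k6 k246 11 (.s k3 k9 2 (.s k89 k243 14 (.s k92 k83 2
  (.d k252 k172 k169 11 14)))))))] (.c k244 (.l (.s k12 k8 1 (.s k84 k87 0 (.s k166 k247 12 (.s k89
  k243 14 (.s k92 k83 2 (.d k252 k172 k168 11 13))))))) .n))

def s2_170_14 : T TT 256 :=
  (.f k84 k87 0 (.q k166 [(.s k4 k247 12 (.s k6 k246 11 (.s k7 k5 0 (.d k244 k164 k165 11 12)))),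
  (.s k252 k168 13 (.s k169 k3 14 (.s k172 k163 2 (.s k12 k92 11 (.s k243 k89 14 (.d k246 k6 k249 11
  2))))))] (.c k6 (.q k10 [(.s k4 k247 12 (.s k5 k15 2 (.s k164 k244 11 (.d k165 k167 k245 0 11)))),
  (.s k252 k168 13 (.s k169 k3 14 (.s k172 k163 2 (.s k12 k92 11 (.d k4 k8 k247 1 12))))), (.s k15
  k5 2 (.s k252 k168 13 (.s k94 k173 12 (.s k90 k82 1 (.s k80 k95 2 (.d k240 k160 k165 11 14))))))]
  (.c k4 (.f k5 k15 2 (.l (.s k165 k245 11 (.s k244 k7 12 (.s k252 k168 13 (.s k240 k248 1 (.s k80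
  k160 11 (.s k88 k92 1 (.d k164 k167 k12 0 13))))))))) .n)) (.c k10 (.l (.s k6 k246 11 (.s k4 k247
  12 (.s k7 k5 0 (.d k244 k164 k165 11 12))))) (.c k246 (.l (.s k4 k247 12 (.s k12 k8 1 (.s k89 k243
  14 (.s k92 k83 2 (.d k252 k172 k168 11 13)))))) .n)))))

def s2_170_15 : T TT 256 :=
  (.q k4 [(.s k84 k87 0 (.s k166 k247 12 (.s k6 k246 11 (.s k7 k5 0 (.d k244 k164 k165 11 12))))),
  (.s k12 k8 1 (.s k84 k87 0 (.s k164 k244 11 (.s k168 k252 13 (.s k160 k172 1 (.d k240 k80 k88 11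
  13)))))), (.s k12 k8 1 (.s k166 k247 12 (.s k6 k246 11 (.s k3 k9 2 (.s k89 k243 14 (.s k92 k83 2
  (.d k252 k172 k169 11 14)))))))] (.c k244 (.l (.s k12 k8 1 (.s k84 k87 0 (.s k166 k247 12 (.s k89
  k243 14 (.s k92 k83 2 (.d k252 k172 k168 11 13))))))) .n))

def s2_170_16 : T TT 256 :=
  (.q k4 [(.s k84 k87 0 (.s k244 k164 11 (.s k165 k7 12 (.s k245 k5 11 (.d k247 k246 k166 0 12))))),
  (.s k12 k8 1 (.s k84 k87 0 (.s k164 k244 11 (.s k88 k240 13 (.s k92 k80 1 (.d k252 k172 k168 11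
  13)))))), (.s k12 k8 1 (.s k166 k247 12 (.s k6 k246 11 (.s k3 k9 2 (.s k89 k243 14 (.s k92 k83 2
  (.d k252 k172 k169 11 14)))))))] (.c k244 (.l (.s k12 k8 1 (.s k84 k87 0 (.s k166 k247 12 (.s k89
  k243 14 (.s k92 k83 2 (.d k252 k172 k168 11 13))))))) .n))

def s2_170_17 : T TT 256 :=
  (.q k4 [(.s k84 k87 0 (.s k244 k164 11 (.s k165 k7 12 (.s k245 k5 11 (.d k247 k246 k166 0 12))))),
  (.s k12 k8 1 (.s k84 k87 0 (.s k164 k244 11 (.s k88 k240 13 (.s k92 k80 1 (.d k252 k172 k168 11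
  13)))))), (.s k12 k8 1 (.s k166 k247 12 (.s k6 k246 11 (.s k3 k9 2 (.s k89 k243 14 (.s k92 k83 2
  (.d k252 k172 k169 11 14)))))))] (.c k244 (.l (.s k12 k8 1 (.s k84 k87 0 (.s k166 k247 12 (.s k89
  k243 14 (.s k92 k83 2 (.d k252 k172 k168 11 13))))))) .n))

def s2_170_18 : T TT 256 :=
  (.f k84 k87 0 (.q k68 [(.s k116 k100 3 (.s k101 k71 4 (.s k117 k69 3 (.d k119 k118 k102 0 4)))),
  (.s k100 k116 3 (.s k168 k252 13 (.s k32 k236 9 (.s k48 k16 3 (.d k204 k136 k152 9 13))))), (.s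
  k102 k119 4 (.s k118 k70 3 (.s k204 k136 9 (.s k252 k168 13 (.d k51 k153 k185 14 10)))))] (.c k34
  (.q k50 [(.s k116 k100 3 (.s k101 k71 4 (.s k117 k69 3 (.d k119 k102 k118 4 0)))), (.s k100 k116 3
  (.s k168 k252 13 (.s k32 k236 9 (.s k48 k16 3 (.d k204 k136 k152 9 13))))), (.s k102 k119 4 (.s
  k118 k70 3 (.s k204 k136 9 (.s k252 k168 13 (.d k51 k153 k185 14 10)))))] (.c k102 (.q k238 [(.s
  k100 k116 3 (.s k168 k252 13 (.s k204 k136 9 (.s k48 k152 13 (.d k32 k16 k236 3 9))))), (.s k252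
  k168 13 (.s k169 k3 14 (.s k253 k1 13 (.s k255 k254 0 (.d k204 k221 k136 4 9))))), (.s k116 k100 3
  (.s k101 k71 4 (.s k69 k117 3 (.s k207 k138 10 (.s k252 k168 13 (.d k48 k154 k184 14 9)))))), (.s
  k204 k136 9 (.s k221 k255 4 (.s k153 k17 9 (.s k220 k19 10 (.s k16 k152 9 (.d k223 k222 k154 0
  10))))))] (.c k168 (.l (.s k100 k116 3 (.s k204 k136 9 (.s k152 k48 13 (.s k220 k16 9 (.s k221
  k255 4 (.d k153 k17 k19 9 10))))))) .n)) (.c k238 (.l (.s k102 k119 4 (.s k70 k118 3 (.s k71 k69 0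
  (.d k116 k100 k101 3 4))))) .n))) (.c k50 (.q k34 [(.s k102 k119 4 (.s k204 k136 9 (.d k51 k153
  k17 14 4))), (.s k102 k119 4 (.s k70 k118 3 (.s k71 k69 0 (.d k116 k100 k101 3 4)))), (.s k17 k51
  4 (.s k153 k221 9 (.s k204 k136 9 (.s k220 k19 10 (.d k252 k236 k168 3 13)))))] .n) .n))))

def s2_170_19 : T TT 256 :=
  (.q k4 [(.s k84 k87 0 (.s k244 k164 11 (.s k165 k7 12 (.s k245 k5 11 (.d k247 k246 k166 0 12))))),
  (.s k12 k8 1 (.s k166 k247 12 (.s k6 k246 11 (.s k3 k9 2 (.s k89 k243 14 (.s k92 k83 2 (.d k252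
  k172 k169 11 14))))))), (.s k12 k8 1 (.s k84 k87 0 (.s k164 k244 11 (.s k88 k240 13 (.s k92 k80 1
  (.d k252 k172 k168 11 13))))))] (.c k244 (.l (.s k12 k8 1 (.s k84 k87 0 (.s k166 k247 12 (.s k89
  k243 14 (.s k92 k83 2 (.d k252 k172 k168 11 13))))))) .n))

def s2_170_20 : T TT 256 :=
  (.q k4 [(.s k84 k87 0 (.s k244 k164 11 (.s k165 k7 12 (.s k245 k5 11 (.d k247 k246 k166 0 12))))),
  (.s k12 k8 1 (.s k84 k87 0 (.s k164 k244 11 (.s k88 k240 13 (.s k92 k80 1 (.d k252 k172 k168 11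
  13)))))), (.s k12 k8 1 (.s k166 k247 12 (.s k6 k246 11 (.s k3 k9 2 (.s k89 k243 14 (.s k92 k83 2
  (.d k252 k172 k169 11 14)))))))] (.c k244 (.l (.s k12 k8 1 (.s k84 k87 0 (.s k166 k247 12 (.s k89
  k243 14 (.s k92 k83 2 (.d k252 k172 k168 11 13))))))) .n))

def s2_170_21 : T TT 256 :=
  (.q k4 [(.s k84 k87 0 (.s k166 k247 12 (.s k6 k246 11 (.s k244 k164 11 (.d k7 k5 k165 0 12))))),
  (.s k12 k8 1 (.s k84 k87 0 (.s k164 k244 11 (.s k88 k240 13 (.s k92 k80 1 (.d k252 k172 k168 11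
  13)))))), (.s k12 k8 1 (.s k166 k247 12 (.s k6 k246 11 (.s k3 k9 2 (.s k89 k243 14 (.s k92 k83 2
  (.d k252 k172 k169 11 14)))))))] (.c k244 (.l (.s k12 k8 1 (.s k84 k87 0 (.s k166 k247 12 (.s k89
  k243 14 (.s k92 k83 2 (.d k252 k172 k168 11 13))))))) .n))

def s2_170_22 : T TT 256 :=
  (.f k84 k87 0 (.q k64 [(.s k124 k104 5 (.s k105 k67 6 (.s k125 k65 5 (.d k127 k126 k106 0 6)))),
  (.s k104 k124 5 (.s k168 k252 13 (.s k40 k232 7 (.s k60 k20 5 (.d k192 k128 k148 7 13))))), (.s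
  k106 k127 6 (.s k126 k66 5 (.s k192 k128 7 (.s k252 k168 13 (.d k63 k149 k189 14 8)))))] (.c k42
  (.q k62 [(.s k124 k104 5 (.s k105 k67 6 (.s k125 k65 5 (.d k127 k106 k126 6 0)))), (.s k104 k124 5
  (.s k168 k252 13 (.s k40 k232 7 (.s k60 k20 5 (.d k192 k128 k148 7 13))))), (.s k106 k127 6 (.s
  k126 k66 5 (.s k192 k128 7 (.s k252 k168 13 (.d k63 k149 k189 14 8)))))] (.c k106 (.q k234 [(.s
  k104 k124 5 (.s k168 k252 13 (.s k192 k128 7 (.s k60 k148 13 (.d k40 k20 k232 5 7))))), (.s k252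
  k168 13 (.s k169 k3 14 (.s k253 k1 13 (.s k255 k254 0 (.d k192 k213 k128 6 7))))), (.s k124 k104 5
  (.s k105 k67 6 (.s k65 k125 5 (.s k195 k130 8 (.s k252 k168 13 (.d k60 k150 k188 14 7)))))), (.s
  k192 k128 7 (.s k213 k255 6 (.s k149 k21 7 (.s k212 k23 8 (.s k20 k148 7 (.d k215 k214 k150 0
  8))))))] (.c k168 (.l (.s k104 k124 5 (.s k192 k128 7 (.s k148 k60 13 (.s k212 k20 7 (.s k213 k255
  6 (.d k149 k21 k23 7 8))))))) .n)) (.c k234 (.l (.s k106 k127 6 (.s k66 k126 5 (.s k67 k65 0 (.d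
  k124 k104 k105 5 6))))) .n))) (.c k62 (.q k42 [(.s k106 k127 6 (.s k192 k128 7 (.d k63 k149 k21 14
  6))), (.s k106 k127 6 (.s k66 k126 5 (.s k67 k65 0 (.d k124 k104 k105 5 6)))), (.s k21 k63 6 (.s
  k149 k213 7 (.s k192 k128 7 (.s k212 k23 8 (.d k252 k232 k168 5 13)))))] .n) .n))))

def s2_170_23 : T TT 256 :=
  (.q k4 [(.s k87 k84 0 (.s k247 k166 12 (.s k7 k167 11 (.s k165 k244 12 (.d k5 k6 k245 0 11))))),
  (.s k12 k8 1 (.s k84 k87 0 (.s k164 k244 11 (.s k88 k240 13 (.s k92 k80 1 (.d k252 k172 k168 11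
  13)))))), (.s k12 k8 1 (.s k166 k247 12 (.s k6 k246 11 (.s k3 k9 2 (.s k89 k243 14 (.s k92 k83 2
  (.d k252 k172 k169 11 14)))))))] (.c k244 (.l (.s k12 k8 1 (.s k84 k87 0 (.s k166 k247 12 (.s k89
  k243 14 (.s k92 k83 2 (.d k252 k172 k168 11 13))))))) .n))

def s2_170_24 : T TT 256 :=
  (.q k4 [(.s k84 k87 0 (.s k244 k164 11 (.s k165 k7 12 (.s k245 k5 11 (.d k247 k246 k166 0 12))))),
  (.s k12 k8 1 (.s k84 k87 0 (.s k164 k244 11 (.s k88 k240 13 (.s k92 k80 1 (.d k252 k172 k168 11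
  13)))))), (.s k12 k8 1 (.s k166 k247 12 (.s k6 k246 11 (.s k3 k9 2 (.s k89 k243 14 (.s k92 k83 2
  (.d k252 k172 k169 11 14)))))))] (.c k244 (.l (.s k12 k8 1 (.s k84 k87 0 (.s k166 k247 12 (.s k89
  k243 14 (.s k92 k83 2 (.d k252 k172 k168 11 13))))))) .n))

def s2_170_25 : T TT 256 :=
  (.q k4 [(.s k84 k87 0 (.s k244 k164 11 (.s k165 k7 12 (.s k245 k5 11 (.d k247 k246 k166 0 12))))),
  (.s k12 k8 1 (.s k84 k87 0 (.s k164 k244 11 (.s k88 k240 13 (.s k92 k80 1 (.d k252 k172 k168 11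
  13)))))), (.s k12 k8 1 (.s k166 k247 12 (.s k6 k246 11 (.s k3 k9 2 (.s k89 k243 14 (.s k92 k83 2
  (.d k252 k172 k169 11 14)))))))] (.c k244 (.l (.s k12 k8 1 (.s k84 k87 0 (.s k166 k247 12 (.s k89
  k243 14 (.s k92 k83 2 (.d k252 k172 k168 11 13))))))) .n))

def s2_170_26 : T TT 256 :=
  (.q k4 [(.s k84 k87 0 (.s k244 k164 11 (.s k165 k7 12 (.s k245 k5 11 (.d k247 k246 k166 0 12))))),
  (.s k12 k8 1 (.s k84 k87 0 (.s k164 k244 11 (.s k88 k240 13 (.s k92 k80 1 (.d k252 k172 k168 11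
  13)))))), (.s k12 k8 1 (.s k166 k247 12 (.s k6 k246 11 (.s k3 k9 2 (.s k89 k243 14 (.s k92 k83 2
  (.d k252 k172 k169 11 14)))))))] (.c k244 (.l (.s k12 k8 1 (.s k84 k87 0 (.s k166 k247 12 (.s k89
  k243 14 (.s k92 k83 2 (.d k252 k172 k168 11 13))))))) .n))

def s2_170_27 : T TT 256 :=
  (.q k4 [(.s k84 k87 0 (.s k244 k164 11 (.s k165 k7 12 (.s k245 k5 11 (.d k247 k246 k166 0 12))))),
  (.s k12 k8 1 (.s k84 k87 0 (.s k164 k244 11 (.s k88 k240 13 (.s k92 k80 1 (.d k252 k172 k168 11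
  13)))))), (.s k12 k8 1 (.s k166 k247 12 (.s k6 k246 11 (.s k3 k9 2 (.s k89 k243 14 (.s k92 k83 2
  (.d k252 k172 k169 11 14)))))))] (.c k244 (.l (.s k12 k8 1 (.s k84 k87 0 (.s k166 k247 12 (.s k89
  k243 14 (.s k92 k83 2 (.d k252 k172 k168 11 13))))))) .n))

def s2_170_28 : T TT 256 :=
  (.q k4 [(.s k84 k87 0 (.s k244 k164 11 (.s k165 k7 12 (.s k245 k5 11 (.d k247 k246 k166 0 12))))),
  (.s k12 k8 1 (.s k84 k87 0 (.s k164 k244 11 (.s k88 k240 13 (.s k92 k80 1 (.d k252 k172 k168 11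
  13)))))), (.s k12 k8 1 (.s k166 k247 12 (.s k6 k246 11 (.s k3 k9 2 (.s k89 k243 14 (.s k92 k83 2
  (.d k252 k172 k169 11 14)))))))] (.c k244 (.l (.s k12 k8 1 (.s k84 k87 0 (.s k166 k247 12 (.s k89
  k243 14 (.s k92 k83 2 (.d k252 k172 k168 11 13))))))) .n))

def s2_170_29 : T TT 256 :=
  (.q k4 [(.s k84 k87 0 (.s k244 k164 11 (.s k165 k7 12 (.s k245 k5 11 (.d k247 k246 k166 0 12))))),
  (.s k12 k8 1 (.s k84 k87 0 (.s k164 k244 11 (.s k88 k240 13 (.s k92 k80 1 (.d k252 k172 k168 11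
  13)))))), (.s k12 k8 1 (.s k166 k247 12 (.s k6 k246 11 (.s k3 k9 2 (.s k89 k243 14 (.s k92 k83 2
  (.d k252 k172 k169 11 14)))))))] (.c k244 (.l (.s k12 k8 1 (.s k84 k87 0 (.s k166 k247 12 (.s k89
  k243 14 (.s k92 k83 2 (.d k252 k172 k168 11 13))))))) .n))

def s2_170_30 : T TT 256 :=
  (.q k4 [(.s k84 k87 0 (.s k244 k164 11 (.s k165 k7 12 (.s k245 k5 11 (.d k247 k246 k166 0 12))))),
  (.s k12 k8 1 (.s k84 k87 0 (.s k164 k244 11 (.s k88 k240 13 (.s k92 k80 1 (.d k252 k172 k168 11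
  13)))))), (.s k12 k8 1 (.s k166 k247 12 (.s k6 k246 11 (.s k3 k9 2 (.s k89 k243 14 (.s k92 k83 2
  (.d k252 k172 k169 11 14)))))))] (.c k244 (.l (.s k12 k8 1 (.s k84 k87 0 (.s k166 k247 12 (.s k89
  k243 14 (.s k92 k83 2 (.d k252 k172 k168 11 13))))))) .n))

def s2_170_31 : T TT 256 :=
  (.q k4 [(.s k84 k87 0 (.s k244 k164 11 (.s k165 k7 12 (.s k245 k5 11 (.d k247 k246 k166 0 12))))),
  (.s k12 k8 1 (.s k84 k87 0 (.s k164 k244 11 (.s k88 k240 13 (.s k92 k80 1 (.d k252 k172 k168 11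
  13)))))), (.s k12 k8 1 (.s k166 k247 12 (.s k6 k246 11 (.s k3 k9 2 (.s k89 k243 14 (.s k92 k83 2
  (.d k252 k172 k169 11 14)))))))] (.c k244 (.l (.s k12 k8 1 (.s k84 k87 0 (.s k166 k247 12 (.s k89
  k243 14 (.s k92 k83 2 (.d k252 k172 k168 11 13))))))) .n))

def s2_170_32 : T TT 256 :=
  (.q k101 [(.s k84 k87 0 (.s k117 k69 3 (.s k116 k71 4 (.s k119 k118 0 (.d k68 k100 k102 3 4))))),
  (.s k69 k117 3 (.s k84 k87 0 (.s k207 k138 10 (.s k154 k48 14 (.s k222 k18 9 (.d k252 k237 k168 4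
  13)))))), (.s k84 k87 0 (.s k116 k71 4 (.s k252 k168 13 (.s k48 k184 9 (.s k154 k207 14 (.s k18
  k222 9 (.d k3 k169 k33 14 4))))))), (.s k69 k117 3 (.s k71 k116 4 (.s k207 k138 10 (.s k3 k139 9
  (.s k154 k48 14 (.s k222 k18 9 (.d k252 k237 k169 4 14)))))))] .n)

def s2_170_33 : T TT 256 :=
  (.q k4 [(.s k84 k87 0 (.s k244 k164 11 (.s k165 k7 12 (.s k245 k5 11 (.d k247 k246 k166 0 12))))),
  (.s k12 k8 1 (.s k84 k87 0 (.s k164 k244 11 (.s k88 k240 13 (.s k92 k80 1 (.d k252 k172 k168 11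
  13)))))), (.s k12 k8 1 (.s k166 k247 12 (.s k6 k246 11 (.s k3 k9 2 (.s k89 k243 14 (.s k92 k83 2
  (.d k252 k172 k169 11 14)))))))] (.c k244 (.l (.s k12 k8 1 (.s k84 k87 0 (.s k166 k247 12 (.s k89
  k243 14 (.s k92 k83 2 (.d k252 k172 k168 11 13))))))) .n))

def s2_170_34 : T TT 256 :=
  (.f k84 k87 0 (.q k102 [(.s k68 k119 4 (.s k70 k118 3 (.s k71 k69 0 (.d k116 k100 k101 3 4)))),
  (.s k118 k70 3 (.s k252 k168 13 (.s k51 k185 10 (.s k153 k204 14 (.s k19 k220 10 (.d k3 k169 k35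
  14 3)))))), (.s k68 k119 4 (.s k204 k136 9 (.s k153 k51 14 (.s k220 k19 10 (.d k252 k236 k168 3
  13)))))] (.c k18 (.q k50 [(.s k68 k119 4 (.s k70 k118 3 (.s k71 k69 0 (.d k116 k100 k101 3 4)))),
  (.s k118 k70 3 (.s k252 k168 13 (.s k169 k3 14 (.s k253 k1 13 (.d k254 k255 k186 0 9))))), (.s k68
  k119 4 (.s k204 k136 9 (.s k153 k51 14 (.s k220 k19 10 (.d k252 k236 k168 3 13)))))] .n) (.c k50
  (.q k18 [(.s k154 k222 9 (.s k16 k223 10 (.s k19 k17 0 (.d k220 k152 k153 9 10)))), (.s k68 k119 4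
  (.s k70 k118 3 (.s k71 k69 0 (.d k116 k100 k101 3 4))))] .n) .n))))

def s2_170_35 : T TT 256 :=
  (.q k4 [(.s k84 k87 0 (.s k244 k164 11 (.s k165 k7 12 (.s k245 k5 11 (.d k247 k246 k166 0 12))))),
  (.s k12 k8 1 (.s k84 k87 0 (.s k164 k244 11 (.s k88 k240 13 (.s k92 k80 1 (.d k252 k172 k168 11
  13)))))), (.s k12 k8 1 (.s k166 k247 12 (.s k6 k246 11 (.s k3 k9 2 (.s k89 k243 14 (.s k92 k83 2
  (.d k252 k172 k169 11 14)))))))] (.c k244 (.l (.s k12 k8 1 (.s k84 k87 0 (.s k166 k247 12 (.s k89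
  k243 14 (.s k92 k83 2 (.d k252 k172 k168 11 13))))))) .n))

def s2_170_36 : T TT 256 :=
  (.q k4 [(.s k84 k87 0 (.s k166 k247 12 (.s k6 k246 11 (.s k7 k5 0 (.d k244 k164 k165 11 12))))),
  (.s k12 k8 1 (.s k84 k87 0 (.s k164 k244 11 (.s k88 k240 13 (.s k92 k80 1 (.d k252 k172 k168 11
  13)))))), (.s k12 k8 1 (.s k166 k247 12 (.s k6 k246 11 (.s k3 k9 2 (.s k89 k243 14 (.s k92 k83 2
  (.d k252 k172 k169 11 14)))))))] (.c k244 (.l (.s k12 k8 1 (.s k84 k87 0 (.s k166 k247 12 (.s k89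
  k243 14 (.s k92 k83 2 (.d k252 k172 k168 11 13))))))) .n))

def s2_170_37 : T TT 256 :=
  (.q k4 [(.s k84 k87 0 (.s k166 k247 12 (.s k6 k246 11 (.s k244 k164 11 (.d k7 k5 k165 0 12))))),
  (.s k12 k8 1 (.s k84 k87 0 (.s k164 k244 11 (.s k88 k240 13 (.s k92 k80 1 (.d k252 k172 k168 11
  13)))))), (.s k12 k8 1 (.s k166 k247 12 (.s k6 k246 11 (.s k3 k9 2 (.s k89 k243 14 (.s k92 k83 2
  (.d k252 k172 k169 11 14)))))))] (.c k244 (.l (.s k12 k8 1 (.s k84 k87 0 (.s k166 k247 12 (.s k89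
  k243 14 (.s k92 k83 2 (.d k252 k172 k168 11 13))))))) .n))

def s2_170_38 : T TT 256 :=
  (.q k4 [(.s k84 k87 0 (.s k244 k164 11 (.s k165 k7 12 (.s k245 k5 11 (.d k247 k246 k166 0 12))))),
  (.s k12 k8 1 (.s k84 k87 0 (.s k164 k244 11 (.s k88 k240 13 (.s k92 k80 1 (.d k252 k172 k168 11
  13)))))), (.s k12 k8 1 (.s k166 k247 12 (.s k6 k246 11 (.s k3 k9 2 (.s k89 k243 14 (.s k92 k83 2
  (.d k252 k172 k169 11 14)))))))] (.c k244 (.l (.s k12 k8 1 (.s k84 k87 0 (.s k166 k247 12 (.s k89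
  k243 14 (.s k92 k83 2 (.d k252 k172 k168 11 13))))))) .n))

def s2_170_39 : T TT 256 :=
  (.q k4 [(.s k84 k87 0 (.s k166 k247 12 (.s k6 k246 11 (.s k7 k5 0 (.d k244 k164 k165 11 12))))),
  (.s k12 k8 1 (.s k84 k87 0 (.s k164 k244 11 (.s k88 k240 13 (.s k92 k80 1 (.d k252 k172 k168 11
  13)))))), (.s k12 k8 1 (.s k166 k247 12 (.s k6 k246 11 (.s k3 k9 2 (.s k89 k243 14 (.s k92 k83 2
  (.d k252 k172 k169 11 14)))))))] (.c k244 (.l (.s k12 k8 1 (.s k84 k87 0 (.s k166 k247 12 (.s k89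
  k243 14 (.s k92 k83 2 (.d k252 k172 k168 11 13))))))) .n))

def s2_170_40 : T TT 256 :=
  (.q k105 [(.s k84 k87 0 (.s k125 k65 5 (.s k124 k67 6 (.s k127 k126 0 (.d k64 k104 k106 5 6))))),
  (.s k65 k125 5 (.s k84 k87 0 (.s k195 k130 8 (.s k150 k60 14 (.s k214 k22 7 (.d k252 k233 k168 6
  13)))))), (.s k84 k87 0 (.s k124 k67 6 (.s k252 k168 13 (.s k60 k188 7 (.s k150 k195 14 (.s k22
  k214 7 (.d k3 k169 k41 14 6))))))), (.s k65 k125 5 (.s k67 k124 6 (.s k195 k130 8 (.s k3 k131 7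
  (.s k150 k60 14 (.s k214 k22 7 (.d k252 k233 k169 6 14)))))))] .n)

def s2_170_41 : T TT 256 :=
  (.q k4 [(.s k84 k87 0 (.s k244 k164 11 (.s k165 k7 12 (.s k245 k5 11 (.d k247 k246 k166 0 12))))),
  (.s k12 k8 1 (.s k84 k87 0 (.s k164 k244 11 (.s k88 k240 13 (.s k92 k80 1 (.d k252 k172 k168 11
  13)))))), (.s k12 k8 1 (.s k166 k247 12 (.s k6 k246 11 (.s k3 k9 2 (.s k89 k243 14 (.s k92 k83 2
  (.d k252 k172 k169 11 14)))))))] (.c k244 (.l (.s k12 k8 1 (.s k84 k87 0 (.s k166 k247 12 (.s k89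
  k243 14 (.s k92 k83 2 (.d k252 k172 k168 11 13))))))) .n))

def s2_170_42 : T TT 256 :=
  (.f k84 k87 0 (.q k106 [(.s k64 k127 6 (.s k66 k126 5 (.s k67 k65 0 (.d k124 k104 k105 5 6)))),
  (.s k126 k66 5 (.s k252 k168 13 (.s k63 k189 8 (.s k149 k192 14 (.s k23 k212 8 (.d k3 k169 k43 14
  5)))))), (.s k64 k127 6 (.s k192 k128 7 (.s k149 k63 14 (.s k212 k23 8 (.d k252 k232 k168 5
  13)))))] (.c k22 (.q k62 [(.s k64 k127 6 (.s k66 k126 5 (.s k67 k65 0 (.d k124 k104 k105 5 6)))),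
  (.s k126 k66 5 (.s k252 k168 13 (.s k169 k3 14 (.s k253 k1 13 (.d k254 k255 k190 0 7))))), (.s k64
  k127 6 (.s k192 k128 7 (.s k149 k63 14 (.s k212 k23 8 (.d k252 k232 k168 5 13)))))] .n) (.c k62
  (.q k22 [(.s k150 k214 7 (.s k20 k215 8 (.s k23 k21 0 (.d k212 k148 k149 7 8)))), (.s k64 k127 6
  (.s k66 k126 5 (.s k67 k65 0 (.d k124 k104 k105 5 6))))] .n) .n))))

def s2_170_43 : T TT 256 :=
  (.q k4 [(.s k84 k87 0 (.s k244 k164 11 (.s k165 k7 12 (.s k245 k5 11 (.d k247 k246 k166 0 12))))),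
  (.s k12 k8 1 (.s k84 k87 0 (.s k164 k244 11 (.s k88 k240 13 (.s k92 k80 1 (.d k252 k172 k168 11
  13)))))), (.s k12 k8 1 (.s k166 k247 12 (.s k6 k246 11 (.s k3 k9 2 (.s k89 k243 14 (.s k92 k83 2
  (.d k252 k172 k169 11 14)))))))] (.c k244 (.l (.s k12 k8 1 (.s k84 k87 0 (.s k166 k247 12 (.s k89
  k243 14 (.s k92 k83 2 (.d k252 k172 k168 11 13))))))) .n))

def s2_170_44 : T TT 256 :=
  (.q k4 [(.s k84 k87 0 (.s k166 k247 12 (.s k6 k246 11 (.s k7 k5 0 (.d k244 k164 k165 11 12))))),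
  (.s k12 k8 1 (.s k84 k87 0 (.s k164 k244 11 (.s k88 k240 13 (.s k92 k80 1 (.d k252 k172 k168 11
  13)))))), (.s k12 k8 1 (.s k166 k247 12 (.s k6 k246 11 (.s k3 k9 2 (.s k89 k243 14 (.s k92 k83 2
  (.d k252 k172 k169 11 14)))))))] (.c k244 (.l (.s k12 k8 1 (.s k84 k87 0 (.s k166 k247 12 (.s k89
  k243 14 (.s k92 k83 2 (.d k252 k172 k168 11 13))))))) .n))

def s2_170_45 : T TT 256 :=
  (.q k4 [(.s k84 k87 0 (.s k244 k164 11 (.s k165 k7 12 (.s k245 k5 11 (.d k247 k246 k166 0 12))))),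
  (.s k12 k8 1 (.s k84 k87 0 (.s k164 k244 11 (.s k88 k240 13 (.s k92 k80 1 (.d k252 k172 k168 11
  13)))))), (.s k12 k8 1 (.s k166 k247 12 (.s k6 k246 11 (.s k3 k9 2 (.s k89 k243 14 (.s k92 k83 2
  (.d k252 k172 k169 11 14)))))))] (.c k244 (.l (.s k12 k8 1 (.s k84 k87 0 (.s k166 k247 12 (.s k89
  k243 14 (.s k92 k83 2 (.d k252 k172 k168 11 13))))))) .n))

def s2_170_46 : T TT 256 :=
  (.q k4 [(.s k84 k87 0 (.s k244 k164 11 (.s k165 k7 12 (.s k245 k5 11 (.d k247 k246 k166 0 12))))),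
  (.s k12 k8 1 (.s k84 k87 0 (.s k164 k244 11 (.s k88 k240 13 (.s k92 k80 1 (.d k252 k172 k168 11
  13)))))), (.s k12 k8 1 (.s k166 k247 12 (.s k6 k246 11 (.s k3 k9 2 (.s k89 k243 14 (.s k92 k83 2
  (.d k252 k172 k169 11 14)))))))] (.c k244 (.l (.s k12 k8 1 (.s k84 k87 0 (.s k166 k247 12 (.s k89
  k243 14 (.s k92 k83 2 (.d k252 k172 k168 11 13))))))) .n))

def s2_170_47 : T TT 256 :=
  (.q k4 [(.s k84 k87 0 (.s k244 k164 11 (.s k165 k7 12 (.s k245 k5 11 (.d k247 k246 k166 0 12))))),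
  (.s k12 k8 1 (.s k84 k87 0 (.s k164 k244 11 (.s k88 k240 13 (.s k92 k80 1 (.d k252 k172 k168 11
  13)))))), (.s k12 k8 1 (.s k166 k247 12 (.s k6 k246 11 (.s k3 k9 2 (.s k89 k243 14 (.s k92 k83 2
  (.d k252 k172 k169 11 14)))))))] (.c k244 (.l (.s k12 k8 1 (.s k84 k87 0 (.s k166 k247 12 (.s k89
  k243 14 (.s k92 k83 2 (.d k252 k172 k168 11 13))))))) .n))

def s2_170_48 : T TT 256 :=
  (.q k4 [(.s k84 k87 0 (.s k244 k164 11 (.s k165 k7 12 (.s k245 k5 11 (.d k247 k246 k166 0 12))))),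
  (.s k12 k8 1 (.s k84 k87 0 (.s k164 k244 11 (.s k88 k240 13 (.s k92 k80 1 (.d k252 k172 k168 11
  13)))))), (.s k12 k8 1 (.s k166 k247 12 (.s k6 k246 11 (.s k3 k9 2 (.s k89 k243 14 (.s k92 k83 2
  (.d k252 k172 k169 11 14)))))))] (.c k244 (.l (.s k12 k8 1 (.s k84 k87 0 (.s k166 k247 12 (.s k89
  k243 14 (.s k92 k83 2 (.d k252 k172 k168 11 13))))))) .n))

def s2_170_49 : T TT 256 :=
  (.q k4 [(.s k84 k87 0 (.s k244 k164 11 (.s k165 k7 12 (.s k245 k5 11 (.d k247 k246 k166 0 12))))),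
  (.s k12 k8 1 (.s k84 k87 0 (.s k164 k244 11 (.s k88 k240 13 (.s k92 k80 1 (.d k252 k172 k168 11
  13)))))), (.s k12 k8 1 (.s k166 k247 12 (.s k6 k246 11 (.s k3 k9 2 (.s k89 k243 14 (.s k92 k83 2
  (.d k252 k172 k169 11 14)))))))] (.c k244 (.l (.s k12 k8 1 (.s k84 k87 0 (.s k166 k247 12 (.s k89
  k243 14 (.s k92 k83 2 (.d k252 k172 k168 11 13))))))) .n))

def s2_170_50 : T TT 256 :=
  (.f k84 k87 0 (.q k154 [(.s k16 k223 10 (.s k18 k222 9 (.s k19 k17 0 (.d k220 k152 k153 9 10)))),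
  (.s k252 k168 13 (.s k169 k3 14 (.s k184 k139 4 (.s k48 k116 9 (.s k207 k101 14 (.d k222 k18 k237
  9 4))))))] (.c k18 (.q k34 [(.s k16 k223 10 (.s k17 k51 4 (.s k152 k220 9 (.d k153 k155 k221 0
  9)))), (.s k252 k168 13 (.s k169 k3 14 (.s k184 k139 4 (.s k48 k116 9 (.d k16 k32 k223 3 10))))),
  (.s k51 k17 4 (.s k252 k168 13 (.s k118 k185 10 (.s k102 k70 3 (.s k68 k119 4 (.d k204 k136 k153 9
  14))))))] (.c k16 (.f k17 k51 4 (.l (.s k153 k221 9 (.s k220 k19 10 (.s k252 k168 13 (.s k204 k236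
  3 (.s k68 k136 9 (.s k100 k116 3 (.d k152 k155 k48 0 13))))))))) .n)) (.c k34 (.l (.s k18 k222 9
  (.s k16 k223 10 (.s k19 k17 0 (.d k220 k152 k153 9 10))))) (.c k222 (.l (.s k16 k223 10 (.s k48
  k32 3 (.s k101 k207 14 (.s k116 k71 4 (.d k252 k184 k168 9 13)))))) .n)))))

def s2_170_51 : T TT 256 :=
  (.q k4 [(.s k84 k87 0 (.s k244 k164 11 (.s k165 k7 12 (.s k245 k5 11 (.d k247 k246 k166 0 12))))),
  (.s k12 k8 1 (.s k84 k87 0 (.s k164 k244 11 (.s k88 k240 13 (.s k92 k80 1 (.d k252 k172 k168 11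
  13)))))), (.s k12 k8 1 (.s k166 k247 12 (.s k6 k246 11 (.s k3 k9 2 (.s k89 k243 14 (.s k92 k83 2
  (.d k252 k172 k169 11 14)))))))] (.c k244 (.l (.s k12 k8 1 (.s k84 k87 0 (.s k166 k247 12 (.s k89
  k243 14 (.s k92 k83 2 (.d k252 k172 k168 11 13))))))) .n))

def s2_170_52 : T TT 256 :=
  (.q k4 [(.s k84 k87 0 (.s k244 k164 11 (.s k165 k7 12 (.s k245 k5 11 (.d k247 k246 k166 0 12))))),
  (.s k12 k8 1 (.s k84 k87 0 (.s k164 k244 11 (.s k88 k240 13 (.s k92 k80 1 (.d k252 k172 k168 11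
  13)))))), (.s k12 k8 1 (.s k166 k247 12 (.s k6 k246 11 (.s k3 k9 2 (.s k89 k243 14 (.s k92 k83 2
  (.d k252 k172 k169 11 14)))))))] (.c k244 (.l (.s k12 k8 1 (.s k84 k87 0 (.s k166 k247 12 (.s k89
  k243 14 (.s k92 k83 2 (.d k252 k172 k168 11 13))))))) .n))

def s2_170_53 : T TT 256 :=
  (.q k4 [(.s k84 k87 0 (.s k166 k247 12 (.s k6 k246 11 (.s k244 k164 11 (.d k7 k5 k165 0 12))))),
  (.s k12 k8 1 (.s k84 k87 0 (.s k164 k244 11 (.s k88 k240 13 (.s k92 k80 1 (.d k252 k172 k168 11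
  13)))))), (.s k12 k8 1 (.s k166 k247 12 (.s k6 k246 11 (.s k3 k9 2 (.s k89 k243 14 (.s k92 k83 2
  (.d k252 k172 k169 11 14)))))))] (.c k244 (.l (.s k12 k8 1 (.s k84 k87 0 (.s k166 k247 12 (.s k89
  k243 14 (.s k92 k83 2 (.d k252 k172 k168 11 13))))))) .n))

def s2_170_54 : T TT 256 :=
  (.q k4 [(.s k84 k87 0 (.s k244 k164 11 (.s k165 k7 12 (.s k245 k5 11 (.d k247 k246 k166 0 12))))),
  (.s k12 k8 1 (.s k84 k87 0 (.s k164 k244 11 (.s k88 k240 13 (.s k92 k80 1 (.d k252 k172 k168 11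
  13)))))), (.s k12 k8 1 (.s k166 k247 12 (.s k6 k246 11 (.s k3 k9 2 (.s k89 k243 14 (.s k92 k83 2
  (.d k252 k172 k169 11 14)))))))] (.c k244 (.l (.s k12 k8 1 (.s k84 k87 0 (.s k166 k247 12 (.s k89
  k243 14 (.s k92 k83 2 (.d k252 k172 k168 11 13))))))) .n))

def s2_170_55 : T TT 256 :=
  (.q k4 [(.s k84 k87 0 (.s k244 k164 11 (.s k165 k7 12 (.s k245 k5 11 (.d k247 k246 k166 0 12))))),
  (.s k12 k8 1 (.s k84 k87 0 (.s k164 k244 11 (.s k88 k240 13 (.s k92 k80 1 (.d k252 k172 k168 11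
  13)))))), (.s k12 k8 1 (.s k166 k247 12 (.s k6 k246 11 (.s k3 k9 2 (.s k89 k243 14 (.s k92 k83 2
  (.d k252 k172 k169 11 14)))))))] (.c k244 (.l (.s k12 k8 1 (.s k84 k87 0 (.s k166 k247 12 (.s k89
  k243 14 (.s k92 k83 2 (.d k252 k172 k168 11 13))))))) .n))

def s2_170_56 : T TT 256 :=
  (.q k4 [(.s k84 k87 0 (.s k244 k164 11 (.s k165 k7 12 (.s k245 k5 11 (.d k247 k246 k166 0 12))))),
  (.s k12 k8 1 (.s k84 k87 0 (.s k164 k244 11 (.s k88 k240 13 (.s k92 k80 1 (.d k252 k172 k168 11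
  13)))))), (.s k12 k8 1 (.s k166 k247 12 (.s k6 k246 11 (.s k3 k9 2 (.s k89 k243 14 (.s k92 k83 2
  (.d k252 k172 k169 11 14)))))))] (.c k244 (.l (.s k12 k8 1 (.s k84 k87 0 (.s k166 k247 12 (.s k89
  k243 14 (.s k92 k83 2 (.d k252 k172 k168 11 13))))))) .n))

def s2_170_57 : T TT 256 :=
  (.q k4 [(.s k84 k87 0 (.s k244 k164 11 (.s k165 k7 12 (.s k245 k5 11 (.d k247 k246 k166 0 12))))),
  (.s k12 k8 1 (.s k84 k87 0 (.s k164 k244 11 (.s k88 k240 13 (.s k92 k80 1 (.d k252 k172 k168 11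
  13)))))), (.s k12 k8 1 (.s k166 k247 12 (.s k6 k246 11 (.s k3 k9 2 (.s k89 k243 14 (.s k92 k83 2
  (.d k252 k172 k169 11 14)))))))] (.c k244 (.l (.s k12 k8 1 (.s k84 k87 0 (.s k166 k247 12 (.s k89
  k243 14 (.s k92 k83 2 (.d k252 k172 k168 11 13))))))) .n))

def s2_170_58 : T TT 256 :=
  (.q k4 [(.s k84 k87 0 (.s k244 k164 11 (.s k165 k7 12 (.s k245 k5 11 (.d k247 k246 k166 0 12))))),
  (.s k12 k8 1 (.s k84 k87 0 (.s k164 k244 11 (.s k88 k240 13 (.s k92 k80 1 (.d k252 k172 k168 11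
  13)))))), (.s k12 k8 1 (.s k166 k247 12 (.s k6 k246 11 (.s k3 k9 2 (.s k89 k243 14 (.s k92 k83 2
  (.d k252 k172 k169 11 14)))))))] (.c k244 (.l (.s k12 k8 1 (.s k84 k87 0 (.s k166 k247 12 (.s k89
  k243 14 (.s k92 k83 2 (.d k252 k172 k168 11 13))))))) .n))

def s2_170_59 : T TT 256 :=
  (.q k4 [(.s k84 k87 0 (.s k244 k164 11 (.s k165 k7 12 (.s k245 k5 11 (.d k247 k246 k166 0 12))))),
  (.s k12 k8 1 (.s k84 k87 0 (.s k164 k244 11 (.s k88 k240 13 (.s k92 k80 1 (.d k252 k172 k168 11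
  13)))))), (.s k12 k8 1 (.s k166 k247 12 (.s k6 k246 11 (.s k3 k9 2 (.s k89 k243 14 (.s k92 k83 2
  (.d k252 k172 k169 11 14)))))))] (.c k244 (.l (.s k12 k8 1 (.s k84 k87 0 (.s k166 k247 12 (.s k89
  k243 14 (.s k92 k83 2 (.d k252 k172 k168 11 13))))))) .n))

def s2_170_60 : T TT 256 :=
  (.q k4 [(.s k84 k87 0 (.s k244 k164 11 (.s k165 k7 12 (.s k245 k5 11 (.d k247 k246 k166 0 12))))),
  (.s k12 k8 1 (.s k84 k87 0 (.s k164 k244 11 (.s k88 k240 13 (.s k92 k80 1 (.d k252 k172 k168 11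
  13)))))), (.s k12 k8 1 (.s k166 k247 12 (.s k6 k246 11 (.s k3 k9 2 (.s k89 k243 14 (.s k92 k83 2
  (.d k252 k172 k169 11 14)))))))] (.c k244 (.l (.s k12 k8 1 (.s k84 k87 0 (.s k166 k247 12 (.s k89
  k243 14 (.s k92 k83 2 (.d k252 k172 k168 11 13))))))) .n))

def s2_170_61 : T TT 256 :=
  (.q k4 [(.s k84 k87 0 (.s k244 k164 11 (.s k165 k7 12 (.s k245 k5 11 (.d k247 k246 k166 0 12))))),
  (.s k12 k8 1 (.s k84 k87 0 (.s k164 k244 11 (.s k88 k240 13 (.s k92 k80 1 (.d k252 k172 k168 11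
  13)))))), (.s k12 k8 1 (.s k166 k247 12 (.s k6 k246 11 (.s k3 k9 2 (.s k89 k243 14 (.s k92 k83 2
  (.d k252 k172 k169 11 14)))))))] (.c k244 (.l (.s k12 k8 1 (.s k84 k87 0 (.s k166 k247 12 (.s k89
  k243 14 (.s k92 k83 2 (.d k252 k172 k168 11 13))))))) .n))

def s2_170_62 : T TT 256 :=
  (.f k84 k87 0 (.q k150 [(.s k20 k215 8 (.s k22 k214 7 (.s k23 k21 0 (.d k212 k148 k149 7 8)))),
  (.s k252 k168 13 (.s k169 k3 14 (.s k188 k131 6 (.s k60 k124 7 (.s k195 k105 14 (.d k214 k22 k233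
  7 6))))))] (.c k22 (.q k42 [(.s k20 k215 8 (.s k21 k63 6 (.s k148 k212 7 (.d k149 k151 k213 0
  7)))), (.s k252 k168 13 (.s k169 k3 14 (.s k188 k131 6 (.s k60 k124 7 (.d k20 k40 k215 5 8))))),
  (.s k63 k21 6 (.s k252 k168 13 (.s k126 k189 8 (.s k106 k66 5 (.s k64 k127 6 (.d k192 k128 k149 7
  14))))))] (.c k20 (.f k21 k63 6 (.l (.s k149 k213 7 (.s k212 k23 8 (.s k252 k168 13 (.s k192 k232
  5 (.s k64 k128 7 (.s k104 k124 5 (.d k148 k151 k60 0 13))))))))) .n)) (.c k42 (.l (.s k22 k214 7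
  (.s k20 k215 8 (.s k23 k21 0 (.d k212 k148 k149 7 8))))) (.c k214 (.l (.s k20 k215 8 (.s k60 k40 5
  (.s k105 k195 14 (.s k124 k67 6 (.d k252 k188 k168 7 13)))))) .n)))))

def s2_170_63 : T TT 256 :=
  (.q k4 [(.s k84 k87 0 (.s k244 k164 11 (.s k165 k7 12 (.s k245 k5 11 (.d k247 k246 k166 0 12))))),
  (.s k12 k8 1 (.s k84 k87 0 (.s k164 k244 11 (.s k88 k240 13 (.s k92 k80 1 (.d k252 k172 k168 11
  13)))))), (.s k12 k8 1 (.s k166 k247 12 (.s k6 k246 11 (.s k3 k9 2 (.s k89 k243 14 (.s k92 k83 2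
  (.d k252 k172 k169 11 14)))))))] (.c k244 (.l (.s k12 k8 1 (.s k84 k87 0 (.s k166 k247 12 (.s k89
  k243 14 (.s k92 k83 2 (.d k252 k172 k168 11 13))))))) .n))

def s2_170_64 : T TT 256 :=
  (.q k4 [(.s k84 k87 0 (.s k244 k164 11 (.s k165 k7 12 (.s k245 k5 11 (.d k247 k246 k166 0 12))))),
  (.s k12 k8 1 (.s k84 k87 0 (.s k164 k244 11 (.s k88 k240 13 (.s k92 k80 1 (.d k252 k172 k168 11
  13)))))), (.s k12 k8 1 (.s k166 k247 12 (.s k6 k246 11 (.s k3 k9 2 (.s k89 k243 14 (.s k92 k83 2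
  (.d k252 k172 k169 11 14)))))))] (.c k244 (.l (.s k12 k8 1 (.s k84 k87 0 (.s k166 k247 12 (.s k89
  k243 14 (.s k92 k83 2 (.d k252 k172 k168 11 13))))))) .n))

def s2_170_65 : T TT 256 :=
  (.q k4 [(.s k84 k87 0 (.s k244 k164 11 (.s k165 k7 12 (.s k245 k5 11 (.d k247 k246 k166 0 12))))),
  (.s k12 k8 1 (.s k84 k87 0 (.s k164 k244 11 (.s k88 k240 13 (.s k92 k80 1 (.d k252 k172 k168 11
  13)))))), (.s k12 k8 1 (.s k166 k247 12 (.s k6 k246 11 (.s k3 k9 2 (.s k89 k243 14 (.s k92 k83 2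
  (.d k252 k172 k169 11 14)))))))] (.c k244 (.l (.s k12 k8 1 (.s k84 k87 0 (.s k166 k247 12 (.s k89
  k243 14 (.s k92 k83 2 (.d k252 k172 k168 11 13))))))) .n))

def s2_170_66 : T TT 256 :=
  (.f k84 k87 0 (.q k150 [(.s k20 k215 8 (.s k22 k214 7 (.s k23 k21 0 (.d k212 k148 k149 7 8)))),
  (.s k214 k22 7 (.s k252 k168 13 (.s k195 k233 6 (.s k105 k60 14 (.d k65 k130 k125 8 5))))), (.s
  k20 k215 8 (.s k60 k40 5 (.s k105 k195 14 (.s k124 k67 6 (.d k252 k188 k168 7 13)))))] (.c k130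
  (.q k194 [(.s k20 k215 8 (.s k22 k214 7 (.s k23 k21 0 (.d k212 k148 k149 7 8)))), (.s k214 k22 7
  (.s k252 k168 13 (.s k169 k3 14 (.s k253 k1 13 (.d k254 k255 k234 0 5))))), (.s k20 k215 8 (.s k60
  k40 5 (.s k105 k195 14 (.s k124 k67 6 (.d k252 k188 k168 7 13)))))] .n) (.c k194 (.q k130 [(.s k20
  k215 8 (.s k60 k40 5 (.d k195 k105 k65 14 8))), (.s k195 k65 8 (.s k214 k22 7 (.d k252 k233 k168 6
  13))), (.s k20 k215 8 (.s k22 k214 7 (.s k23 k21 0 (.d k212 k148 k149 7 8))))] .n) .n))))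

def s2_170_67 : T TT 256 :=
  (.q k4 [(.s k84 k87 0 (.s k244 k164 11 (.s k165 k7 12 (.s k245 k5 11 (.d k247 k246 k166 0 12))))),
  (.s k12 k8 1 (.s k166 k247 12 (.s k6 k246 11 (.s k3 k9 2 (.s k89 k243 14 (.s k92 k83 2 (.d k252
  k172 k169 11 14))))))), (.s k12 k8 1 (.s k84 k87 0 (.s k164 k244 11 (.s k88 k240 13 (.s k92 k80 1
  (.d k252 k172 k168 11 13))))))] (.c k244 (.l (.s k12 k8 1 (.s k84 k87 0 (.s k166 k247 12 (.s k89
  k243 14 (.s k92 k83 2 (.d k252 k172 k168 11 13))))))) .n))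

def s2_170_68 : T TT 256 :=
  (.q k4 [(.s k84 k87 0 (.s k244 k164 11 (.s k165 k7 12 (.s k245 k5 11 (.d k247 k246 k166 0 12))))),
  (.s k12 k8 1 (.s k84 k87 0 (.s k164 k244 11 (.s k88 k240 13 (.s k92 k80 1 (.d k252 k172 k168 11
  13)))))), (.s k12 k8 1 (.s k166 k247 12 (.s k6 k246 11 (.s k3 k9 2 (.s k89 k243 14 (.s k92 k83 2
  (.d k252 k172 k169 11 14)))))))] (.c k244 (.l (.s k12 k8 1 (.s k84 k87 0 (.s k166 k247 12 (.s k89
  k243 14 (.s k92 k83 2 (.d k252 k172 k168 11 13))))))) .n))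

def s2_170_69 : T TT 256 :=
  (.q k4 [(.s k84 k87 0 (.s k166 k247 12 (.s k6 k246 11 (.s k244 k164 11 (.d k7 k5 k165 0 12))))),
  (.s k12 k8 1 (.s k84 k87 0 (.s k164 k244 11 (.s k88 k240 13 (.s k92 k80 1 (.d k252 k172 k168 11
  13)))))), (.s k12 k8 1 (.s k166 k247 12 (.s k6 k246 11 (.s k3 k9 2 (.s k89 k243 14 (.s k92 k83 2
  (.d k252 k172 k169 11 14)))))))] (.c k244 (.l (.s k12 k8 1 (.s k84 k87 0 (.s k166 k247 12 (.s k89
  k243 14 (.s k92 k83 2 (.d k252 k172 k168 11 13))))))) .n))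

def s2_170_70 : T TT 256 :=
  (.f k84 k87 0 (.q k154 [(.s k16 k223 10 (.s k18 k222 9 (.s k19 k17 0 (.d k220 k152 k153 9 10)))),
  (.s k222 k18 9 (.s k252 k168 13 (.s k207 k237 4 (.s k101 k48 14 (.d k69 k138 k117 10 3))))), (.s
  k16 k223 10 (.s k48 k32 3 (.s k101 k207 14 (.s k116 k71 4 (.d k252 k184 k168 9 13)))))] (.c k138
  (.q k206 [(.s k16 k223 10 (.s k18 k222 9 (.s k19 k17 0 (.d k220 k152 k153 9 10)))), (.s k222 k18 9
  (.s k252 k168 13 (.s k169 k3 14 (.s k253 k1 13 (.d k254 k255 k238 0 3))))), (.s k16 k223 10 (.s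
  k48 k32 3 (.s k101 k207 14 (.s k116 k71 4 (.d k252 k184 k168 9 13)))))] .n) (.c k206 (.q k138 [(.s
  k16 k223 10 (.s k48 k32 3 (.d k207 k101 k69 14 10))), (.s k207 k69 10 (.s k222 k18 9 (.d k252 k237
  k168 4 13))), (.s k16 k223 10 (.s k18 k222 9 (.s k19 k17 0 (.d k220 k152 k153 9 10))))] .n) .n))))

def s2_170_71 : T TT 256 :=
  (.q k4 [(.s k87 k84 0 (.s k247 k166 12 (.s k7 k167 11 (.s k165 k244 12 (.d k5 k6 k245 0 11))))),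
  (.s k12 k8 1 (.s k84 k87 0 (.s k164 k244 11 (.s k88 k240 13 (.s k92 k80 1 (.d k252 k172 k168 11
  13)))))), (.s k12 k8 1 (.s k166 k247 12 (.s k6 k246 11 (.s k3 k9 2 (.s k89 k243 14 (.s k92 k83 2
  (.d k252 k172 k169 11 14)))))))] (.c k244 (.l (.s k12 k8 1 (.s k84 k87 0 (.s k166 k247 12 (.s k89
  k243 14 (.s k92 k83 2 (.d k252 k172 k168 11 13))))))) .n))

def s2_170_72 : T TT 256 :=
  (.q k4 [(.s k84 k87 0 (.s k244 k164 11 (.s k165 k7 12 (.s k245 k5 11 (.d k247 k246 k166 0 12))))),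
  (.s k12 k8 1 (.s k84 k87 0 (.s k164 k244 11 (.s k88 k240 13 (.s k92 k80 1 (.d k252 k172 k168 11
  13)))))), (.s k12 k8 1 (.s k166 k247 12 (.s k6 k246 11 (.s k3 k9 2 (.s k89 k243 14 (.s k92 k83 2
  (.d k252 k172 k169 11 14)))))))] (.c k244 (.l (.s k12 k8 1 (.s k84 k87 0 (.s k166 k247 12 (.s k89
  k243 14 (.s k92 k83 2 (.d k252 k172 k168 11 13))))))) .n))

def s2_170_73 : T TT 256 :=
  (.q k4 [(.s k84 k87 0 (.s k244 k164 11 (.s k165 k7 12 (.s k245 k5 11 (.d k247 k246 k166 0 12))))),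
  (.s k12 k8 1 (.s k84 k87 0 (.s k164 k244 11 (.s k88 k240 13 (.s k92 k80 1 (.d k252 k172 k168 11
  13)))))), (.s k12 k8 1 (.s k166 k247 12 (.s k6 k246 11 (.s k3 k9 2 (.s k89 k243 14 (.s k92 k83 2
  (.d k252 k172 k169 11 14)))))))] (.c k244 (.l (.s k12 k8 1 (.s k84 k87 0 (.s k166 k247 12 (.s k89
  k243 14 (.s k92 k83 2 (.d k252 k172 k168 11 13))))))) .n))

def s2_170_74 : T TT 256 :=
  (.q k4 [(.s k84 k87 0 (.s k244 k164 11 (.s k165 k7 12 (.s k245 k5 11 (.d k247 k246 k166 0 12))))),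
  (.s k12 k8 1 (.s k84 k87 0 (.s k164 k244 11 (.s k88 k240 13 (.s k92 k80 1 (.d k252 k172 k168 11
  13)))))), (.s k12 k8 1 (.s k166 k247 12 (.s k6 k246 11 (.s k3 k9 2 (.s k89 k243 14 (.s k92 k83 2
  (.d k252 k172 k169 11 14)))))))] (.c k244 (.l (.s k12 k8 1 (.s k84 k87 0 (.s k166 k247 12 (.s k89
  k243 14 (.s k92 k83 2 (.d k252 k172 k168 11 13))))))) .n))

def s2_170_75 : T TT 256 :=
  (.q k4 [(.s k84 k87 0 (.s k244 k164 11 (.s k165 k7 12 (.s k245 k5 11 (.d k247 k246 k166 0 12))))),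
  (.s k12 k8 1 (.s k84 k87 0 (.s k164 k244 11 (.s k88 k240 13 (.s k92 k80 1 (.d k252 k172 k168 11
  13)))))), (.s k12 k8 1 (.s k166 k247 12 (.s k6 k246 11 (.s k3 k9 2 (.s k89 k243 14 (.s k92 k83 2
  (.d k252 k172 k169 11 14)))))))] (.c k244 (.l (.s k12 k8 1 (.s k84 k87 0 (.s k166 k247 12 (.s k89
  k243 14 (.s k92 k83 2 (.d k252 k172 k168 11 13))))))) .n))

def s2_170_76 : T TT 256 :=
  (.q k4 [(.s k84 k87 0 (.s k244 k164 11 (.s k165 k7 12 (.s k245 k5 11 (.d k247 k246 k166 0 12))))),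
  (.s k12 k8 1 (.s k84 k87 0 (.s k164 k244 11 (.s k88 k240 13 (.s k92 k80 1 (.d k252 k172 k168 11
  13)))))), (.s k12 k8 1 (.s k166 k247 12 (.s k6 k246 11 (.s k3 k9 2 (.s k89 k243 14 (.s k92 k83 2
  (.d k252 k172 k169 11 14)))))))] (.c k244 (.l (.s k12 k8 1 (.s k84 k87 0 (.s k166 k247 12 (.s k89
  k243 14 (.s k92 k83 2 (.d k252 k172 k168 11 13))))))) .n))

def s2_170_77 : T TT 256 :=
  (.q k4 [(.s k84 k87 0 (.s k244 k164 11 (.s k165 k7 12 (.s k245 k5 11 (.d k247 k246 k166 0 12))))),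
  (.s k12 k8 1 (.s k84 k87 0 (.s k164 k244 11 (.s k88 k240 13 (.s k92 k80 1 (.d k252 k172 k168 11
  13)))))), (.s k12 k8 1 (.s k166 k247 12 (.s k6 k246 11 (.s k3 k9 2 (.s k89 k243 14 (.s k92 k83 2
  (.d k252 k172 k169 11 14)))))))] (.c k244 (.l (.s k12 k8 1 (.s k84 k87 0 (.s k166 k247 12 (.s k89
  k243 14 (.s k92 k83 2 (.d k252 k172 k168 11 13))))))) .n))

def s2_170_78 : T TT 256 :=
  (.q k4 [(.s k84 k87 0 (.s k244 k164 11 (.s k165 k7 12 (.s k245 k5 11 (.d k247 k246 k166 0 12))))),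
  (.s k12 k8 1 (.s k84 k87 0 (.s k164 k244 11 (.s k88 k240 13 (.s k92 k80 1 (.d k252 k172 k168 11
  13)))))), (.s k12 k8 1 (.s k166 k247 12 (.s k6 k246 11 (.s k3 k9 2 (.s k89 k243 14 (.s k92 k83 2
  (.d k252 k172 k169 11 14)))))))] (.c k244 (.l (.s k12 k8 1 (.s k84 k87 0 (.s k166 k247 12 (.s k89
  k243 14 (.s k92 k83 2 (.d k252 k172 k168 11 13))))))) .n))

def s2_170_79 : T TT 256 :=
  (.q k4 [(.s k84 k87 0 (.s k244 k164 11 (.s k165 k7 12 (.s k245 k5 11 (.d k247 k246 k166 0 12))))),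
  (.s k12 k8 1 (.s k84 k87 0 (.s k164 k244 11 (.s k88 k240 13 (.s k92 k80 1 (.d k252 k172 k168 11
  13)))))), (.s k12 k8 1 (.s k166 k247 12 (.s k6 k246 11 (.s k3 k9 2 (.s k89 k243 14 (.s k92 k83 2
  (.d k252 k172 k169 11 14)))))))] (.c k244 (.l (.s k12 k8 1 (.s k84 k87 0 (.s k166 k247 12 (.s k89
  k243 14 (.s k92 k83 2 (.d k252 k172 k168 11 13))))))) .n))

def s2_170_80 : T TT 256 :=
  (.q k4 [(.s k84 k87 0 (.s k244 k164 11 (.s k165 k7 12 (.s k245 k5 11 (.d k247 k246 k166 0 12))))),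
  (.s k12 k8 1 (.s k84 k87 0 (.s k252 k168 13 (.s k92 k172 11 (.s k89 k83 2 (.d k166 k247 k243 12
  14)))))), (.s k12 k8 1 (.s k166 k247 12 (.s k6 k246 11 (.s k3 k9 2 (.s k89 k243 14 (.s k92 k83 2
  (.d k252 k172 k169 11 14)))))))] (.c k166 (.l (.s k84 k87 0 (.s k244 k164 11 (.s k165 k7 12 (.s k5
  k245 11 (.s k15 k10 2 (.s k252 k168 13 (.d k240 k90 k248 14 1)))))))) (.c k247 (.l (.s k12 k8 1
  (.s k84 k87 0 (.s k244 k164 11 (.s k7 k165 12 (.s k6 k5 0 (.s k3 k9 2 (.d k252 k168 k169 13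
  14)))))))) .n)))

def s2_170_81 : T TT 256 :=
  (.q k4 [(.s k84 k87 0 (.s k244 k164 11 (.s k165 k7 12 (.s k245 k5 11 (.d k247 k246 k166 0 12))))),
  (.s k12 k8 1 (.s k84 k87 0 (.s k164 k244 11 (.s k88 k240 13 (.s k92 k80 1 (.d k252 k172 k168 11
  13)))))), (.s k12 k8 1 (.s k166 k247 12 (.s k6 k246 11 (.s k3 k9 2 (.s k89 k243 14 (.s k92 k83 2
  (.d k252 k172 k169 11 14)))))))] (.c k244 (.l (.s k12 k8 1 (.s k84 k87 0 (.s k166 k247 12 (.s k89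
  k243 14 (.s k92 k83 2 (.d k252 k172 k168 11 13))))))) .n))

def s2_170_82 : T TT 256 :=
  (.f k84 k87 0 (.q k166 [(.s k4 k247 12 (.s k6 k246 11 (.s k7 k5 0 (.d k244 k164 k165 11 12)))),
  (.s k246 k6 11 (.s k252 k168 13 (.s k243 k249 2 (.s k89 k12 14 (.d k81 k162 k93 12 1))))), (.s k4
  k247 12 (.s k12 k8 1 (.s k89 k243 14 (.s k92 k83 2 (.d k252 k172 k168 11 13)))))] (.c k162 (.q
  k242 [(.s k4 k247 12 (.s k6 k246 11 (.s k7 k5 0 (.d k244 k164 k165 11 12)))), (.s k246 k6 11 (.s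
  k252 k168 13 (.s k169 k3 14 (.s k253 k1 13 (.d k254 k255 k250 0 1))))), (.s k4 k247 12 (.s k12 k8
  1 (.s k89 k243 14 (.s k92 k83 2 (.d k252 k172 k168 11 13)))))] .n) (.c k242 (.q k162 [(.s k4 k247
  12 (.s k12 k8 1 (.d k243 k89 k81 14 12))), (.s k243 k81 12 (.s k246 k6 11 (.d k252 k249 k168 2
  13))), (.s k4 k247 12 (.s k6 k246 11 (.s k7 k5 0 (.d k244 k164 k165 11 12))))] .n) .n))))

def s2_170_83 : T TT 256 :=
  (.q k16 [(.s k87 k84 0 (.s k223 k154 10 (.s k19 k155 9 (.s k153 k220 10 (.d k17 k18 k221 0 9))))),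
  (.s k48 k32 3 (.s k84 k87 0 (.s k152 k220 9 (.s k100 k204 13 (.s k116 k68 3 (.d k252 k184 k168 9
  13)))))), (.s k48 k32 3 (.s k154 k223 10 (.s k18 k222 9 (.s k3 k33 4 (.s k101 k207 14 (.s k116 k71
  4 (.d k252 k184 k169 9 14)))))))] (.c k220 (.l (.s k48 k32 3 (.s k84 k87 0 (.s k154 k223 10 (.s
  k101 k207 14 (.s k116 k71 4 (.d k252 k184 k168 9 13))))))) .n))

def s2_170_84 : T TT 256 :=
  (.q k64 [(.s k106 k127 6 (.s k192 k128 7 (.s k149 k63 14 (.s k212 k23 8 (.s k252 k232 5 (.s k3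
  k169 14 (.d k66 k126 k129 5 8))))))), (.s k106 k127 6 (.s k66 k126 5 (.s k65 k67 0 (.s k192 k128 7
  (.s k129 k3 8 (.s k193 k1 7 (.d k195 k194 k130 0 8)))))))] (.c k3 (.q k20 [(.s k60 k40 5 (.s k150
  k215 8 (.s k105 k195 14 (.s k65 k125 5 (.d k67 k66 k124 0 6))))), (.s k106 k127 6 (.s k192 k128 7
  (.s k149 k63 14 (.s k21 k213 7 (.d k23 k22 k212 0 8)))))] (.c k255 (.l (.s k60 k40 5 (.s k106 k127
  6 (.s k66 k126 5 (.s k65 k67 0 (.s k150 k215 8 (.d k105 k125 k195 5 14))))))) .n)) (.c k66 (.f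
  k192 k128 7 (.f k106 k127 6 (.l (.s k149 k63 14 (.s k21 k213 7 (.s k23 k212 8 (.s k20 k22 0 (.s
  k60 k40 5 (.s k148 k104 13 (.d k150 k215 k151 8 0)))))))))) (.c k106 (.q k65 [(.s k105 k125 5 (.d
  k67 k66 k124 0 6)), (.s k66 k67 0 (.s k192 k128 7 (.s k129 k3 8 (.s k193 k1 7 (.d k195 k194 k130 0
  8)))))] (.c k42 (.q k234 [(.s k105 k125 5 (.d k67 k66 k124 0 6)), (.s k66 k67 0 (.s k192 k128 7
  (.s k129 k3 8 (.s k193 k1 7 (.d k195 k194 k130 0 8)))))] (.c k22 (.q k62 [(.s k105 k125 5 (.d k67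
  k66 k124 0 6)), (.s k105 k125 5 (.s k192 k128 7 (.s k213 k255 6 (.s k149 k21 7 (.s k193 k61 13 (.d
  k195 k194 k130 0 8)))))), (.s k66 k67 0 (.s k192 k128 7 (.s k129 k3 8 (.s k193 k1 7 (.d k195 k194
  k130 0 8)))))] .n) (.c k62 (.q k22 [(.s k105 k125 5 (.d k67 k66 k124 0 6)), (.s k192 k128 7 (.s
  k195 k130 8 (.s k194 k193 0 (.d k214 k150 k254 7 5))))] (.c k66 (.l (.s k105 k125 5 (.s k150 k214
  7 (.d k195 k130 k60 8 14)))) (.c k150 (.q k194 [(.s k67 k66 0 (.d k105 k125 k124 5 6)), (.s k192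
  k128 7 (.d k195 k130 k193 8 0))] (.c k130 (.q k190 [(.s k67 k66 0 (.d k105 k125 k124 5 6)), (.s
  k125 k105 5 (.s k192 k128 7 (.d k255 k60 k213 8 6))), (.s k66 k67 0 (.s k192 k128 7 (.s k129 k3 8
  (.d k193 k195 k1 0 7))))] .n) (.c k190 (.l (.s k130 k195 8 (.s k67 k66 0 (.d k105 k125 k124 5
  6)))) .n))) (.c k194 (.l (.s k150 k214 7 (.s k105 k125 5 (.d k67 k66 k124 0 6)))) .n)))) (.c k66
  (.l (.s k105 k125 5 (.s k192 k128 7 (.s k195 k130 8 (.s k194 k193 0 (.s k150 k60 14 (.d k214 k254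
  k22 5 7))))))) (.c k67 (.l (.s k105 k125 5 (.s k192 k128 7 (.s k195 k130 8 (.s k150 k60 14 (.s
  k194 k193 0 (.d k214 k254 k22 5 7))))))) .n))))) (.c k66 (.f k105 k125 5 (.f k67 k124 6 (.l (.s
  k192 k128 7 (.s k195 k130 8 (.s k194 k193 0 (.s k150 k60 14 (.s k214 k22 7 (.s k252 k233 6 (.d k3
  k131 k169 7 14)))))))))) (.c k67 (.f k105 k125 5 (.l (.s k192 k128 7 (.s k195 k130 8 (.s k150 k60
  14 (.s k214 k22 7 (.s k215 k20 8 (.s k212 k213 0 (.d k252 k232 k233 5 6))))))))) (.c k234 (.q k42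
  [(.s k105 k125 5 (.d k67 k66 k124 0 6)), (.s k21 k63 6 (.s k105 k125 5 (.s k149 k213 7 (.s k192
  k128 7 (.s k193 k61 13 (.d k195 k194 k130 0 8)))))), (.s k66 k67 0 (.s k192 k128 7 (.s k129 k3 8
  (.s k193 k1 7 (.d k195 k194 k130 0 8)))))] .n) .n))))) (.c k126 (.q k12 [(.s k192 k128 7 (.s k72
  k132 9 (.s k68 k76 1 (.s k136 k204 9 (.d k8 k4 k200 1 7))))), (.s k4 k8 1 (.s k166 k247 12 (.s k6
  k246 11 (.s k3 k9 2 (.s k89 k243 14 (.s k92 k83 2 (.d k252 k172 k169 11 14))))))), (.s k106 k127 6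
  (.s k192 k128 7 (.s k72 k132 9 (.s k89 k123 4 (.s k81 k93 1 (.d k243 k162 k166 12 14))))))] .n)
  (.c k127 (.q k68 [(.s k72 k76 1 (.s k192 k128 7 (.s k12 k132 9 (.s k136 k204 9 (.d k8 k4 k200 1
  7))))), (.s k76 k72 1 (.s k102 k119 4 (.s k70 k118 3 (.s k67 k73 2 (.s k65 k66 0 (.d k105 k125
  k124 5 6)))))), (.s k102 k119 4 (.s k70 k118 3 (.s k69 k71 0 (.s k204 k136 9 (.s k137 k3 10 (.s
  k205 k1 9 (.d k207 k206 k138 0 10)))))))] .n) (.c k128 (.f k106 k127 6 (.q k149 [(.s k21 k213 7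
  (.d k63 k42 k192 6 14)), (.s k23 k212 8 (.s k63 k192 14 (.s k3 k43 5 (.s k126 k66 5 (.d k252 k189
  k169 8 14)))))] (.c k63 (.f k21 k213 7 (.l (.s k23 k212 8 (.s k20 k22 0 (.s k60 k40 5 (.s k66 k126
  5 (.s k65 k67 0 (.s k195 k130 8 (.d k105 k125 k150 5 14))))))))) (.c k192 (.l (.s k21 k213 7 (.s
  k23 k212 8 (.s k63 k42 6 (.s k3 k43 5 (.s k126 k66 5 (.d k252 k189 k169 8 14))))))) .n)))) (.c
  k129 (.q k12 [(.s k4 k8 1 (.s k106 k127 6 (.s k166 k247 12 (.s k46 k226 9 (.s k63 k29 4 (.d k192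
  k128 k149 7 14)))))), (.s k8 k4 1 (.s k192 k128 7 (.s k72 k132 9 (.s k68 k76 1 (.d k136 k200 k204
  7 9))))), (.s k4 k8 1 (.s k166 k247 12 (.s k6 k246 11 (.s k3 k9 2 (.s k89 k243 14 (.s k92 k83 2
  (.d k252 k172 k169 11 14))))))), (.s k106 k127 6 (.s k192 k128 7 (.s k72 k132 9 (.s k89 k123 4 (.s
  k81 k93 1 (.d k243 k162 k166 12 14))))))] .n) (.c k149 (.q k90 [(.s k80 k95 2 (.s k112 k96 3 (.s
  k101 k79 6 (.s k117 k69 3 (.d k127 k122 k106 2 6))))), (.s k80 k95 2 (.s k82 k94 1 (.s k112 k96 3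
  (.s k67 k97 4 (.s k65 k66 0 (.d k105 k125 k124 5 6)))))), (.s k82 k94 1 (.s k106 k127 6 (.s k66
  k126 5 (.s k74 k122 3 (.s k78 k70 1 (.d k114 k98 k102 3 5))))))] (.c k112 (.l (.s k80 k95 2 (.s
  k82 k94 1 (.s k81 k83 0 (.s k98 k115 4 (.s k106 k127 6 (.d k66 k114 k126 3 5))))))) (.c k128 (.q
  k191 [(.s k80 k95 2 (.s k112 k96 3 (.s k101 k79 6 (.s k117 k69 3 (.d k127 k122 k106 2 6))))), (.s
  k80 k95 2 (.s k82 k94 1 (.s k112 k96 3 (.s k67 k97 4 (.s k65 k66 0 (.d k105 k125 k124 5 6)))))),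
  (.s k82 k94 1 (.s k106 k127 6 (.s k66 k126 5 (.s k74 k122 3 (.s k78 k70 1 (.d k114 k98 k102 3
  5))))))] (.c k112 (.l (.s k80 k95 2 (.s k82 k94 1 (.s k81 k83 0 (.s k98 k115 4 (.s k106 k127 6 (.d
  k66 k114 k126 3 5))))))) .n)) (.c k191 (.l (.s k128 k192 7 (.s k80 k95 2 (.s k106 k127 6 (.s k74
  k122 3 (.s k79 k69 2 (.d k112 k96 k101 3 6))))))) .n)))) (.c k191 (.q k149 [(.s k192 k128 7 (.d
  k106 k127 k63 6 14)), (.s k21 k213 7 (.s k23 k212 8 (.s k20 k22 0 (.s k60 k40 5 (.s k192 k128 7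
  (.s k148 k104 13 (.d k150 k215 k151 8 0))))))), (.s k21 k213 7 (.s k23 k212 8 (.s k63 k42 6 (.s k3
  k43 5 (.s k106 k127 6 (.s k126 k66 5 (.d k252 k189 k169 8 14)))))))] .n) (.c k192 (.q k68 [(.s
  k102 k119 4 (.s k106 k127 6 (.s k98 k110 1 (.s k115 k81 4 (.d k76 k72 k89 1 6))))), (.s k76 k72 1
  (.s k102 k119 4 (.s k70 k118 3 (.s k67 k73 2 (.s k65 k66 0 (.d k105 k125 k124 5 6)))))), (.s k102
  k119 4 (.s k70 k118 3 (.s k69 k71 0 (.s k74 k79 2 (.s k106 k127 6 (.d k66 k78 k126 1 5)))))), (.s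
  k76 k72 1 (.s k106 k127 6 (.s k66 k126 5 (.s k67 k65 0 (.s k70 k73 2 (.s k69 k71 0 (.d k74 k78 k79
  1 2)))))))] .n) .n)))))))))))

def s2_170_87 : T TT 256 :=
  (.q k154 [(.s k16 k223 10 (.s k18 k222 9 (.s k48 k32 3 (.s k3 k33 4 (.s k169 k252 14 (.s k139 k184
  4 (.d k207 k101 k71 14 9))))))), (.s k16 k223 10 (.s k48 k32 3 (.s k101 k207 14 (.s k116 k71 4 (.s
  k252 k184 9 (.s k3 k169 14 (.d k18 k33 k222 4 9)))))))] (.c k3 (.f k223 k16 10 (.q k255 [(.s k207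
  k239 3 (.s k69 k138 10 (.d k101 k117 k48 3 14))), (.s k222 k18 9 (.s k221 k220 0 (.s k204 k238 4
  (.s k68 k136 9 (.s k102 k119 4 (.d k153 k17 k51 9 14))))))] (.c k48 (.q k33 [(.s k207 k239 3 (.s
  k69 k138 10 (.s k101 k117 3 (.s k237 k169 9 (.d k222 k252 k18 4 9))))), (.s k222 k18 9 (.s k221
  k220 0 (.s k204 k238 4 (.s k68 k136 9 (.s k102 k119 4 (.d k153 k17 k51 9 14)))))), (.s k207 k239 3
  (.s k69 k138 10 (.s k101 k117 3 (.s k169 k237 9 (.s k1 k253 13 (.s k205 k137 9 (.d k49 k17 k153 3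
  13)))))))] .n) .n))) (.c k16 (.q k90 [(.s k18 k222 9 (.s k26 k218 7 (.s k30 k22 1 (.s k82 k94 1
  (.d k210 k146 k150 7 9))))), (.s k80 k95 2 (.s k218 k26 7 (.s k240 k160 11 (.s k207 k229 6 (.s k69
  k138 10 (.d k101 k117 k48 3 14)))))), (.s k80 k95 2 (.s k82 k94 1 (.s k240 k160 11 (.s k3 k161 12
  (.s k165 k15 14 (.s k244 k7 12 (.d k252 k248 k169 1 14)))))))] .n) (.c k18 (.f k16 k223 10 (.l (.s
  k48 k32 3 (.s k101 k207 14 (.s k116 k71 4 (.s k252 k184 9 (.s k84 k168 13 (.s k100 k68 3 (.d k152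
  k220 k204 9 13))))))))) (.c k19 (.q k3 [(.s k18 k222 9 (.s k48 k33 4 (.d k16 k223 k32 10 3))), (.s
  k169 k252 14 (.s k139 k184 4 (.s k207 k71 9 (.s k48 k101 14 (.d k16 k32 k223 3 10))))), (.s k18
  k222 9 (.s k48 k33 4 (.s k101 k207 14 (.s k116 k71 4 (.d k252 k184 k169 9 14)))))] (.c k48 (.l (.s
  k222 k18 9 (.s k252 k169 14 (.s k207 k237 4 (.s k69 k138 10 (.s k71 k139 9 (.d k101 k117 k116 3
  4))))))) (.c k155 (.l (.s k223 k16 10 (.s k18 k222 9 (.s k48 k33 4 (.s k101 k207 14 (.s k116 k71 4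
  (.d k252 k184 k169 9 14))))))) (.c k223 (.q k155 [(.s k18 k222 9 (.s k48 k33 4 (.s k169 k252 14
  (.s k139 k184 4 (.d k207 k71 k101 9 14))))), (.s k153 k152 0 (.s k17 k221 9 (.s k51 k34 4 (.s k169
  k252 14 (.s k137 k185 3 (.d k204 k102 k70 14 10)))))), (.s k169 k252 14 (.s k139 k184 4 (.s k207
  k71 9 (.s k69 k138 10 (.d k101 k48 k117 14 3))))), (.s k153 k152 0 (.s k17 k221 9 (.s k51 k34 4
  (.s k207 k103 13 (.s k48 k101 14 (.d k18 k222 k33 9 4))))))] .n) .n)))) (.c k32 (.q k207 [(.s k101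
  k48 14 (.d k69 k117 k138 3 10)), (.s k101 k48 14 (.s k71 k116 4 (.s k3 k139 9 (.s k222 k18 9 (.d
  k252 k237 k169 4 14)))))] (.c k48 (.l (.s k69 k138 10 (.s k101 k117 3 (.s k71 k116 4 (.s k3 k139 9
  (.s k222 k18 9 (.d k252 k237 k169 4 14))))))) (.c k101 (.q k239 [(.d k223 k255 k16 3 10), (.s k222
  k18 9 (.s k237 k252 4 (.s k238 k236 0 (.s k206 k254 3 (.s k204 k205 0 (.s k68 k136 9 (.d k102 k50
  k119 13 4)))))))] (.c k255 (.q k3 [(.s k139 k71 9 (.d k169 k184 k252 4 14)), (.s k222 k18 9 (.d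
  k252 k237 k169 4 14)), (.s k16 k223 10 (.s k18 k222 9 (.s k19 k17 0 (.s k51 k35 3 (.s k155 k103 13
  (.d k153 k220 k152 10 0))))))] .n) .n)) (.c k239 (.l (.s k101 k48 14 (.d k69 k117 k138 3 10)))
  .n)))) (.c k33 (.q k12 [(.s k4 k8 1 (.s k166 k247 12 (.s k89 k243 14 (.s k24 k219 8 (.s k48 k36 5
  (.d k16 k32 k223 3 10)))))), (.s k8 k4 1 (.s k16 k223 10 (.s k48 k32 3 (.s k24 k36 5 (.s k20 k28 1
  (.d k40 k56 k60 3 5)))))), (.s k4 k8 1 (.s k166 k247 12 (.s k6 k246 11 (.s k3 k9 2 (.s k89 k243 14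
  (.s k92 k83 2 (.d k252 k172 k169 11 14))))))), (.s k16 k223 10 (.s k48 k32 3 (.s k24 k36 5 (.s k89
  k219 8 (.s k81 k93 1 (.d k243 k162 k166 12 14))))))] .n) (.c k48 (.q k20 [(.s k16 k223 10 (.s k150
  k215 8 (.s k146 k158 1 (.s k211 k81 8 (.d k28 k24 k89 1 10))))), (.s k18 k222 9 (.s k150 k215 8
  (.s k22 k214 7 (.s k30 k26 1 (.s k146 k158 1 (.d k210 k82 k90 7 9)))))), (.s k16 k223 10 (.s k18
  k222 9 (.s k19 k17 0 (.s k28 k24 1 (.s k22 k25 2 (.d k150 k214 k215 7 8)))))), (.s k16 k223 10 (.s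
  k18 k222 9 (.s k19 k17 0 (.s k28 k24 1 (.s k22 k25 2 (.s k26 k30 1 (.d k21 k23 k31 0 2)))))))] .n)
  (.c k71 (.f k16 k223 10 (.l (.s k18 k222 9 (.s k19 k17 0 (.s k48 k32 3 (.s k3 k33 4 (.s k220 k153
  10 (.s k84 k152 9 (.d k252 k168 k169 13 14))))))))) (.c k101 (.f k16 k223 10 (.f k18 k222 9 (.l
  (.s k19 k17 0 (.s k220 k153 10 (.s k84 k152 9 (.s k252 k168 13 (.s k169 k3 14 (.s k184 k139 4 (.d
  k48 k32 k116 3 9)))))))))) (.c k139 (.l (.s k16 k223 10 (.s k18 k222 9 (.s k48 k32 3 (.s k3 k33 4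
  (.s k101 k207 14 (.s k116 k71 4 (.d k252 k184 k169 9 14)))))))) (.c k155 (.f k18 k222 9 (.l (.s
  k16 k223 10 (.s k19 k17 0 (.s k48 k32 3 (.s k3 k33 4 (.s k101 k207 14 (.s k116 k71 4 (.d k252 k184
  k169 9 14))))))))) (.c k169 (.q k252 [(.s k16 k223 10 (.s k48 k32 3 (.s k116 k184 9 (.d k101 k71
  k207 4 14)))), (.s k222 k18 9 (.s k207 k237 4 (.s k69 k138 10 (.d k101 k117 k48 3 14)))), (.s k16
  k223 10 (.s k18 k222 9 (.s k19 k17 0 (.s k220 k153 10 (.d k84 k168 k152 13 9)))))] (.c k168 (.q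
  k171 [(.s k222 k18 9 (.s k207 k237 4 (.s k69 k138 10 (.d k101 k117 k48 3 14)))), (.s k16 k223 10
  (.s k48 k32 3 (.s k101 k207 14 (.d k116 k71 k184 4 9)))), (.s k16 k223 10 (.s k18 k222 9 (.s k19
  k17 0 (.s k220 k153 10 (.s k152 k84 9 (.s k204 k236 3 (.d k48 k32 k100 3 13)))))))] (.c k48 (.l
  (.s k222 k18 9 (.s k207 k237 4 (.s k223 k16 10 (.s k221 k220 0 (.s k255 k239 3 (.s k238 k204 4 (.d
  k254 k253 k206 0 3)))))))) .n)) (.c k171 (.l (.s k168 k84 13 (.s k16 k223 10 (.s k48 k32 3 (.s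
  k101 k207 14 (.d k116 k71 k184 4 9)))))) .n))) (.c k184 (.q k12 [(.s k4 k8 1 (.s k166 k247 12 (.s
  k89 k243 14 (.s k24 k219 8 (.s k48 k36 5 (.d k16 k32 k223 3 10)))))), (.s k8 k4 1 (.s k16 k223 10
  (.s k48 k32 3 (.s k24 k36 5 (.s k20 k28 1 (.d k40 k56 k60 3 5)))))), (.s k4 k8 1 (.s k166 k247 12
  (.s k6 k246 11 (.s k3 k9 2 (.s k89 k243 14 (.s k92 k83 2 (.d k252 k172 k169 11 14))))))), (.s k16
  k223 10 (.s k48 k32 3 (.s k24 k36 5 (.s k89 k219 8 (.s k81 k93 1 (.d k243 k162 k166 12 14))))))]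
  .n) (.c k207 (.q k12 [(.s k4 k8 1 (.s k16 k223 10 (.s k48 k32 3 (.s k166 k247 12 (.s k178 k142 5
  (.d k243 k89 k113 14 8)))))), (.s k4 k8 1 (.s k166 k247 12 (.s k6 k246 11 (.s k3 k9 2 (.s k89 k243
  14 (.s k92 k83 2 (.d k252 k172 k169 11 14))))))), (.s k8 k4 1 (.s k16 k223 10 (.s k48 k32 3 (.s
  k24 k36 5 (.s k20 k28 1 (.d k40 k56 k60 3 5)))))), (.s k16 k223 10 (.s k48 k32 3 (.s k24 k36 5 (.s
  k89 k219 8 (.s k81 k93 1 (.d k243 k162 k166 12 14))))))] (.c k255 (.l (.s k4 k8 1 (.s k18 k222 9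
  (.s k166 k247 12 (.s k6 k246 11 (.s k3 k9 2 (.s k48 k33 4 (.d k16 k32 k223 3 10)))))))) .n)) (.c
  k222 (.q k12 [(.s k4 k8 1 (.s k166 k247 12 (.s k89 k243 14 (.s k24 k219 8 (.s k48 k36 5 (.d k16
  k32 k223 3 10)))))), (.s k8 k4 1 (.s k16 k223 10 (.s k48 k32 3 (.s k24 k36 5 (.s k20 k28 1 (.d k40
  k56 k60 3 5)))))), (.s k4 k8 1 (.s k166 k247 12 (.s k6 k246 11 (.s k3 k9 2 (.s k89 k243 14 (.s k92
  k83 2 (.d k252 k172 k169 11 14))))))), (.s k16 k223 10 (.s k48 k32 3 (.s k24 k36 5 (.s k89 k219 8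
  (.s k81 k93 1 (.d k243 k162 k166 12 14))))))] .n) (.c k223 (.f k18 k222 9 (.q k17 [(.s k19 k16 0
  (.d k153 k221 k220 9 10))] (.c k16 (.l (.s k51 k34 4 (.s k153 k221 9 (.s k220 k19 10 (.s k155 k152
  0 (.s k207 k103 13 (.s k69 k138 10 (.d k101 k117 k48 3 14)))))))) (.c k19 (.q k155 [(.d k153 k221
  k152 9 0), (.s k51 k34 4 (.s k207 k103 13 (.s k69 k138 10 (.d k101 k117 k48 3 14))))] (.c k220 (.l
  (.s k221 k153 9 (.s k51 k34 4 (.s k207 k103 13 (.s k69 k138 10 (.d k101 k117 k48 3 14)))))) (.c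
  k221 (.q k220 [(.s k51 k34 4 (.s k207 k103 13 (.s k101 k48 14 (.d k69 k117 k138 3 10)))), (.s k152
  k153 0 (.s k84 k16 9 (.s k252 k168 13 (.s k204 k236 3 (.s k100 k48 13 (.d k68 k136 k116 9 3))))))]
  (.c k48 (.l (.s k51 k34 4 (.s k153 k152 0 (.s k207 k103 13 (.s k69 k138 10 (.s k101 k117 3 (.s
  k205 k49 13 (.d k204 k206 k102 0 14)))))))) .n)) .n))) (.c k153 (.l (.s k19 k16 0 (.s k51 k34 4
  (.s k3 k35 3 (.s k33 k48 4 (.s k1 k49 3 (.d k169 k253 k252 13 14))))))) (.c k155 (.l (.s k19 k16 0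
  (.d k153 k221 k220 9 10))) (.c k220 (.l (.s k221 k153 9 (.s k19 k16 0 (.s k51 k34 4 (.s k3 k35 3
  (.s k33 k48 4 (.s k1 k49 3 (.d k169 k253 k252 13 14)))))))) (.c k221 (.q k220 [(.d k19 k16 k153 0
  10)] (.c k16 (.l (.s k19 k153 10 (.s k51 k34 4 (.s k3 k35 3 (.s k33 k48 4 (.s k1 k49 3 (.d k169
  k253 k252 13 14))))))) (.c k19 (.q k155 [(.s k51 k34 4 (.s k207 k103 13 (.s k101 k48 14 (.d k69
  k117 k138 3 10)))), (.s k152 k153 0 (.s k84 k16 9 (.s k252 k168 13 (.s k204 k236 3 (.s k100 k48 13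
  (.d k68 k136 k116 9 3))))))] (.c k48 (.l (.s k51 k34 4 (.s k153 k152 0 (.s k207 k103 13 (.s k69
  k138 10 (.s k101 k117 3 (.s k205 k49 13 (.d k204 k206 k102 0 14)))))))) .n)) (.c k153 (.l (.s k19
  k16 0 (.s k51 k34 4 (.s k3 k35 3 (.s k33 k48 4 (.s k1 k49 3 (.d k169 k253 k252 13 14))))))) (.c
  k155 (.l (.d k19 k16 k153 0 10)) .n))))) .n)))))))) (.c k239 (.f k223 k16 10 (.f k18 k222 9 (.q
  k101 [(.s k69 k117 3 (.d k207 k138 k48 10 14)), (.s k48 k207 14 (.s k3 k33 4 (.s k116 k71 4 (.d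
  k252 k184 k169 9 14))))] (.c k48 (.l (.s k69 k117 3 (.s k71 k116 4 (.s k68 k70 0 (.s k204 k136 9
  (.s k207 k138 10 (.s k206 k205 0 (.d k102 k119 k50 4 13)))))))) (.c k207 (.f k116 k71 4 (.l (.s
  k117 k69 3 (.s k119 k118 0 (.s k68 k102 4 (.s k84 k100 3 (.s k252 k168 13 (.s k48 k184 9 (.d k3
  k169 k33 14 4))))))))) .n))))) (.c k252 (.q k17 [(.s k16 k223 10 (.d k18 k19 k222 0 9)), (.s k51
  k34 4 (.s k153 k221 9 (.s k155 k152 0 (.s k207 k103 13 (.s k69 k138 10 (.d k101 k117 k48 3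
  14))))))] (.c k18 (.l (.s k16 k223 10 (.s k48 k32 3 (.s k51 k34 4 (.s k50 k49 0 (.s k102 k206 13
  (.d k153 k221 k204 9 14))))))) (.c k155 (.l (.s k18 k222 9 (.d k16 k19 k223 0 10))) .n)))
  .n)))))))))))))))))))

def s2_170_88 : T TT 256 :=
  (.q k4 [(.s k84 k87 0 (.s k166 k247 12 (.s k6 k246 11 (.s k7 k5 0 (.d k244 k164 k165 11 12))))),
  (.s k12 k8 1 (.s k166 k247 12 (.s k6 k246 11 (.s k3 k9 2 (.s k89 k243 14 (.s k92 k83 2 (.d k252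
  k172 k169 11 14))))))), (.s k12 k8 1 (.s k84 k87 0 (.s k166 k247 12 (.s k89 k243 14 (.s k92 k83 2
  (.d k252 k168 k172 13 11))))))] (.c k166 (.l (.s k84 k87 0 (.s k244 k164 11 (.s k165 k7 12 (.s k5
  k245 11 (.s k15 k10 2 (.s k252 k168 13 (.d k240 k248 k90 1 14)))))))) (.c k247 (.l (.s k12 k8 1
  (.s k84 k87 0 (.s k244 k164 11 (.s k7 k165 12 (.s k6 k5 0 (.s k3 k9 2 (.d k252 k168 k169 13
  14)))))))) .n)))

def s2_170_89 : T TT 256 :=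
  (.f k84 k87 0 (.q k4 [(.s k244 k164 11 (.s k165 k7 12 (.s k245 k5 11 (.d k247 k246 k166 0 12)))),
  (.s k164 k244 11 (.s k168 k252 13 (.s k160 k172 1 (.s k240 k80 11 (.d k12 k8 k88 1 13))))), (.s
  k166 k247 12 (.s k252 k168 13 (.s k169 k3 14 (.s k172 k163 2 (.d k12 k8 k92 1 11)))))] (.c k8 (.q
  k251 [(.s k244 k164 11 (.s k165 k7 12 (.s k245 k5 11 (.d k247 k246 k166 0 12)))), (.s k247 k166 12
  (.s k252 k168 13 (.s k169 k3 14 (.s k253 k1 13 (.d k255 k243 k254 1 0)))))] (.c k166 (.l (.s k244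
  k164 11 (.s k165 k7 12 (.s k5 k245 11 (.s k15 k10 2 (.s k252 k168 13 (.d k240 k248 k90 1 14)))))))
  (.c k247 (.l (.s k244 k164 11 (.s k7 k165 12 (.s k6 k5 0 (.s k252 k168 13 (.s k248 k240 1 (.s k249
  k250 0 (.d k246 k166 k243 11 2)))))))) .n))) (.c k251 (.l (.s k8 k12 1 (.s k166 k247 12 (.s k6
  k246 11 (.s k7 k5 0 (.d k244 k164 k165 11 12)))))) .n))))

def s2_170_90 : T TT 256 :=
  (.f k84 k87 0 (.q k166 [(.s k4 k247 12 (.s k6 k246 11 (.s k7 k5 0 (.d k244 k164 k165 11 12)))),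
  (.s k246 k6 11 (.s k252 k168 13 (.s k243 k249 2 (.s k81 k162 12 (.d k89 k93 k12 1 14))))), (.s k4
  k247 12 (.s k12 k8 1 (.s k89 k243 14 (.s k92 k83 2 (.d k252 k172 k168 11 13)))))] (.c k10 (.q k250
  [(.s k4 k247 12 (.s k6 k246 11 (.s k7 k5 0 (.d k244 k164 k165 11 12)))), (.s k252 k168 13 (.s k169
  k3 14 (.s k172 k163 2 (.s k12 k92 11 (.s k243 k89 14 (.d k246 k6 k249 11 2))))))] (.c k6 (.q k14
  [(.s k252 k168 13 (.s k169 k3 14 (.s k172 k163 2 (.s k12 k92 11 (.d k4 k8 k247 1 12))))), (.s k4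
  k247 12 (.s k12 k8 1 (.s k13 k15 0 (.s k89 k243 14 (.s k164 k244 11 (.d k165 k167 k241 0 13)))))),
  (.s k4 k247 12 (.s k164 k244 11 (.s k168 k252 13 (.s k160 k172 1 (.s k240 k80 11 (.d k12 k8 k88 1
  13))))))] (.c k4 (.q k165 [(.s k164 k167 0 (.s k168 k252 13 (.s k160 k172 1 (.s k240 k80 11 (.d
  k245 k5 k255 11 2))))), (.s k5 k245 11 (.s k252 k168 13 (.s k169 k3 14 (.s k1 k253 13 (.s k161
  k173 1 (.s k241 k81 11 (.d k13 k9 k89 1 13))))))), (.s k7 k244 12 (.s k164 k167 0 (.s k245 k5 11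
  (.s k240 k255 2 (.s k80 k160 11 (.d k88 k92 k12 1 13))))))] (.c k5 (.l (.s k7 k244 12 (.s k252
  k168 13 (.s k169 k3 14 (.s k172 k163 2 (.s k12 k92 11 (.s k13 k15 0 (.d k89 k243 k241 14
  13)))))))) (.c k7 (.l (.s k5 k245 11 (.s k252 k168 13 (.s k169 k3 14 (.s k1 k253 13 (.s k161 k173
  1 (.s k241 k81 11 (.d k13 k9 k89 1 13)))))))) (.c k12 (.l (.s k7 k244 12 (.s k164 k167 0 (.s k168
  k252 13 (.s k245 k5 11 (.s k240 k255 2 (.d k160 k172 k80 1 11))))))) (.c k245 (.l (.s k252 k168 13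
  (.s k169 k3 14 (.s k172 k163 2 (.s k12 k92 11 (.s k13 k15 0 (.d k89 k243 k241 14 13))))))) (.c
  k255 (.l (.s k5 k245 11 (.s k244 k7 12 (.s k252 k168 13 (.s k240 k248 1 (.s k80 k160 11 (.s k88
  k92 1 (.d k164 k167 k12 0 13)))))))) .n)))))) (.c k8 (.l (.s k4 k247 12 (.s k164 k244 11 (.s k168
  k252 13 (.s k160 k172 1 (.s k240 k80 11 (.s k245 k255 2 (.d k165 k167 k5 0 11)))))))) (.c k12 (.l
  (.s k4 k247 12 (.s k244 k164 11 (.s k252 k168 13 (.s k240 k248 1 (.s k245 k255 2 (.d k165 k7 k5 12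
  11))))))) (.c k247 (.q k167 [(.s k252 k168 13 (.s k169 k3 14 (.s k172 k163 2 (.s k12 k92 11 (.s
  k15 k13 0 (.d k243 k91 k89 13 14)))))), (.s k165 k164 0 (.s k244 k7 12 (.s k252 k168 13 (.s k240
  k248 1 (.d k245 k5 k255 11 2))))), (.s k164 k165 0 (.s k4 k244 11 (.s k12 k8 1 (.s k15 k13 0 (.d
  k243 k89 k91 14 13)))))] .n) .n))))) (.c k14 (.l (.s k6 k246 11 (.s k4 k247 12 (.s k7 k5 0 (.d
  k244 k164 k165 11 12))))) (.c k246 (.l (.s k4 k247 12 (.s k12 k8 1 (.s k89 k243 14 (.s k92 k83 2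
  (.d k252 k172 k168 11 13)))))) .n)))) (.c k250 (.q k10 [(.s k4 k247 12 (.s k5 k15 2 (.d k6 k7 k246
  0 11))), (.s k246 k6 11 (.s k252 k168 13 (.s k243 k249 2 (.s k81 k162 12 (.d k89 k93 k12 1
  14)))))] (.c k6 (.l (.s k4 k247 12 (.s k5 k15 2 (.s k164 k244 11 (.d k165 k167 k245 0 11))))) (.c
  k246 (.l (.s k4 k247 12 (.s k5 k15 2 (.s k7 k6 0 (.d k165 k245 k244 11 12))))) .n))) .n))))

def s2_170_91 : T TT 256 :=
  (.q k4 [(.s k84 k87 0 (.s k244 k164 11 (.s k165 k7 12 (.s k245 k5 11 (.d k247 k246 k166 0 12))))),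
  (.s k12 k8 1 (.s k84 k87 0 (.s k164 k244 11 (.s k88 k240 13 (.s k92 k80 1 (.d k252 k172 k168 11
  13)))))), (.s k12 k8 1 (.s k166 k247 12 (.s k6 k246 11 (.s k3 k9 2 (.s k89 k243 14 (.s k252 k169
  14 (.d k92 k83 k172 2 11)))))))] (.c k83 (.l (.s k87 k84 0 (.s k247 k166 12 (.s k7 k167 11 (.s k5
  k6 0 (.d k165 k245 k244 11 12)))))) (.c k244 (.l (.s k12 k8 1 (.s k84 k87 0 (.s k166 k247 12 (.s
  k89 k243 14 (.s k252 k168 13 (.d k92 k83 k172 2 11))))))) .n)))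

def s2_170_92 : T TT 256 :=
  (.q k4 [(.s k84 k87 0 (.s k244 k164 11 (.s k165 k7 12 (.s k245 k5 11 (.d k247 k246 k166 0 12))))),
  (.s k12 k8 1 (.s k84 k87 0 (.s k164 k244 11 (.s k168 k252 13 (.s k160 k172 1 (.d k240 k80 k88 11
  13)))))), (.s k12 k8 1 (.s k166 k247 12 (.s k6 k246 11 (.s k3 k9 2 (.s k169 k252 14 (.s k163 k172
  2 (.d k243 k89 k83 14 11)))))))] (.c k244 (.l (.s k12 k8 1 (.s k84 k87 0 (.s k166 k247 12 (.s k246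
  k6 11 (.s k252 k168 13 (.d k243 k89 k249 14 2))))))) .n))

def s2_170_93 : T TT 256 :=
  (.q k4 [(.s k84 k87 0 (.s k244 k164 11 (.s k165 k7 12 (.s k245 k5 11 (.d k247 k246 k166 0 12))))),
  (.s k12 k8 1 (.s k84 k87 0 (.s k164 k244 11 (.s k88 k240 13 (.s k92 k80 1 (.d k252 k172 k168 11
  13)))))), (.s k12 k8 1 (.s k166 k247 12 (.s k6 k246 11 (.s k3 k9 2 (.s k89 k243 14 (.s k92 k83 2
  (.d k252 k172 k169 11 14)))))))] (.c k244 (.l (.s k12 k8 1 (.s k84 k87 0 (.s k166 k247 12 (.s k89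
  k243 14 (.s k92 k83 2 (.d k252 k172 k168 11 13))))))) .n))

def s2_170_94 : T TT 256 :=
  (.q k4 [(.s k84 k87 0 (.s k244 k164 11 (.s k165 k7 12 (.s k245 k5 11 (.d k247 k246 k166 0 12))))),
  (.s k12 k8 1 (.s k84 k87 0 (.s k164 k244 11 (.s k88 k240 13 (.s k92 k80 1 (.d k252 k172 k168 11
  13)))))), (.s k12 k8 1 (.s k166 k247 12 (.s k6 k246 11 (.s k3 k9 2 (.s k89 k243 14 (.s k92 k83 2
  (.d k252 k172 k169 11 14)))))))] (.c k244 (.l (.s k12 k8 1 (.s k84 k87 0 (.s k166 k247 12 (.s k89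
  k243 14 (.s k92 k83 2 (.d k252 k172 k168 11 13))))))) .n))

def s2_170_95 : T TT 256 :=
  (.q k4 [(.s k84 k87 0 (.s k244 k164 11 (.s k165 k7 12 (.s k245 k5 11 (.d k247 k246 k166 0 12))))),
  (.s k12 k8 1 (.s k84 k87 0 (.s k164 k244 11 (.s k88 k240 13 (.s k92 k80 1 (.d k252 k172 k168 11
  13)))))), (.s k12 k8 1 (.s k166 k247 12 (.s k6 k246 11 (.s k3 k9 2 (.s k89 k243 14 (.s k252 k169
  14 (.d k92 k83 k172 2 11)))))))] (.c k83 (.l (.s k87 k84 0 (.s k247 k166 12 (.s k7 k167 11 (.s k5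
  k6 0 (.d k165 k245 k244 11 12)))))) (.c k244 (.l (.s k12 k8 1 (.s k84 k87 0 (.s k166 k247 12 (.s
  k89 k243 14 (.s k252 k168 13 (.d k92 k83 k172 2 11))))))) .n)))

def s2_170_96 : T TT 256 :=
  (.q k4 [(.s k84 k87 0 (.s k244 k164 11 (.s k165 k7 12 (.s k245 k5 11 (.d k247 k246 k166 0 12))))),
  (.s k12 k8 1 (.s k84 k87 0 (.s k164 k244 11 (.s k88 k240 13 (.s k92 k80 1 (.d k252 k172 k168 11
  13)))))), (.s k12 k8 1 (.s k166 k247 12 (.s k6 k246 11 (.s k3 k9 2 (.s k89 k243 14 (.s k92 k83 2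
  (.d k252 k172 k169 11 14)))))))] (.c k244 (.l (.s k12 k8 1 (.s k84 k87 0 (.s k166 k247 12 (.s k89
  k243 14 (.s k92 k83 2 (.d k252 k172 k168 11 13))))))) .n))

def s2_170_97 : T TT 256 :=
  (.q k4 [(.s k84 k87 0 (.s k244 k164 11 (.s k165 k7 12 (.s k245 k5 11 (.d k247 k246 k166 0 12))))),
  (.s k12 k8 1 (.s k84 k87 0 (.s k164 k244 11 (.s k88 k240 13 (.s k92 k80 1 (.d k252 k172 k168 11
  13)))))), (.s k12 k8 1 (.s k166 k247 12 (.s k6 k246 11 (.s k3 k9 2 (.s k89 k243 14 (.s k92 k83 2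
  (.d k252 k172 k169 11 14)))))))] (.c k244 (.l (.s k12 k8 1 (.s k84 k87 0 (.s k166 k247 12 (.s k89
  k243 14 (.s k92 k83 2 (.d k252 k172 k168 11 13))))))) .n))

def s2_170_98 : T TT 256 :=
  (.q k4 [(.s k84 k87 0 (.s k244 k164 11 (.s k165 k7 12 (.s k245 k5 11 (.d k247 k246 k166 0 12))))),
  (.s k12 k8 1 (.s k84 k87 0 (.s k164 k244 11 (.s k88 k240 13 (.s k92 k80 1 (.d k252 k172 k168 11
  13)))))), (.s k12 k8 1 (.s k166 k247 12 (.s k6 k246 11 (.s k3 k9 2 (.s k89 k243 14 (.s k92 k83 2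
  (.d k252 k172 k169 11 14)))))))] (.c k244 (.l (.s k12 k8 1 (.s k84 k87 0 (.s k166 k247 12 (.s k89
  k243 14 (.s k92 k83 2 (.d k252 k172 k168 11 13))))))) .n))

def s2_170_99 : T TT 256 :=
  (.q k4 [(.s k84 k87 0 (.s k244 k164 11 (.s k165 k7 12 (.s k245 k5 11 (.d k247 k246 k166 0 12))))),
  (.s k12 k8 1 (.s k84 k87 0 (.s k164 k244 11 (.s k88 k240 13 (.s k92 k80 1 (.d k252 k172 k168 11
  13)))))), (.s k12 k8 1 (.s k166 k247 12 (.s k6 k246 11 (.s k3 k9 2 (.s k89 k243 14 (.s k92 k83 2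
  (.d k252 k172 k169 11 14)))))))] (.c k244 (.l (.s k12 k8 1 (.s k84 k87 0 (.s k166 k247 12 (.s k89
  k243 14 (.s k92 k83 2 (.d k252 k172 k168 11 13))))))) .n))

def s2_170_100 : T TT 256 :=
  (.q k4 [(.s k84 k87 0 (.s k166 k247 12 (.s k6 k246 11 (.s k7 k5 0 (.d k244 k164 k165 11 12))))),
  (.s k12 k8 1 (.s k84 k87 0 (.s k164 k244 11 (.s k88 k240 13 (.s k92 k80 1 (.d k252 k172 k168 11
  13)))))), (.s k12 k8 1 (.s k166 k247 12 (.s k6 k246 11 (.s k3 k9 2 (.s k89 k243 14 (.s k92 k83 2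
  (.d k252 k172 k169 11 14)))))))] (.c k244 (.l (.s k12 k8 1 (.s k84 k87 0 (.s k166 k247 12 (.s k89
  k243 14 (.s k92 k83 2 (.d k252 k172 k168 11 13))))))) .n))

def s2_170_101 : T TT 256 :=
  (.f k84 k87 0 (.q k16 [(.s k220 k152 9 (.s k153 k19 10 (.s k221 k17 9 (.d k223 k222 k154 0 10)))),
  (.s k152 k220 9 (.s k168 k252 13 (.s k136 k184 3 (.s k204 k68 9 (.d k48 k32 k100 3 13))))), (.s
  k154 k223 10 (.s k252 k168 13 (.s k169 k3 14 (.s k184 k139 4 (.d k48 k32 k116 3 9)))))] (.c k32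
  (.q k239 [(.s k220 k152 9 (.s k153 k19 10 (.s k221 k17 9 (.d k223 k222 k154 0 10)))), (.s k223
  k154 10 (.s k252 k168 13 (.s k169 k3 14 (.s k253 k1 13 (.d k255 k207 k254 3 0)))))] (.c k154 (.l
  (.s k220 k152 9 (.s k153 k19 10 (.s k17 k221 9 (.s k51 k34 4 (.s k252 k168 13 (.d k204 k236 k102 3
  14))))))) (.c k223 (.l (.s k220 k152 9 (.s k19 k153 10 (.s k18 k17 0 (.s k252 k168 13 (.s k236
  k204 3 (.s k237 k238 0 (.d k222 k154 k207 9 4)))))))) .n))) (.c k239 (.l (.s k32 k48 3 (.s k154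
  k223 10 (.s k18 k222 9 (.s k19 k17 0 (.d k220 k152 k153 9 10)))))) .n))))

def s2_170_102 : T TT 256 :=
  (.f k84 k87 0 (.q k154 [(.s k16 k223 10 (.s k18 k222 9 (.s k19 k17 0 (.d k220 k152 k153 9 10)))),
  (.s k222 k18 9 (.s k252 k168 13 (.s k207 k237 4 (.s k69 k138 10 (.d k101 k117 k48 3 14))))), (.s
  k16 k223 10 (.s k48 k32 3 (.s k101 k207 14 (.s k116 k71 4 (.d k252 k184 k168 9 13)))))] (.c k34
  (.q k238 [(.s k16 k223 10 (.s k18 k222 9 (.s k19 k17 0 (.d k220 k152 k153 9 10)))), (.s k252 k168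
  13 (.s k169 k3 14 (.s k184 k139 4 (.s k48 k116 9 (.s k207 k101 14 (.d k222 k18 k237 9 4))))))] (.c
  k18 (.q k50 [(.s k252 k168 13 (.s k169 k3 14 (.s k184 k139 4 (.s k48 k116 9 (.d k16 k32 k223 3
  10))))), (.s k16 k223 10 (.s k48 k32 3 (.s k49 k51 0 (.s k101 k207 14 (.s k152 k220 9 (.d k153
  k155 k205 0 13)))))), (.s k16 k223 10 (.s k152 k220 9 (.s k168 k252 13 (.s k136 k184 3 (.s k204
  k68 9 (.d k48 k32 k100 3 13))))))] (.c k16 (.q k153 [(.s k152 k155 0 (.s k168 k252 13 (.s k136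
  k184 3 (.s k204 k68 9 (.d k221 k17 k255 9 4))))), (.s k17 k221 9 (.s k252 k168 13 (.s k169 k3 14
  (.s k1 k253 13 (.s k137 k185 3 (.s k205 k69 9 (.d k49 k33 k101 3 13))))))), (.s k19 k220 10 (.s
  k152 k155 0 (.s k221 k17 9 (.s k204 k255 4 (.s k68 k136 9 (.d k100 k116 k48 3 13))))))] (.c k17
  (.l (.s k19 k220 10 (.s k252 k168 13 (.s k169 k3 14 (.s k184 k139 4 (.s k48 k116 9 (.s k49 k51 0
  (.d k101 k207 k205 14 13)))))))) (.c k19 (.l (.s k17 k221 9 (.s k252 k168 13 (.s k169 k3 14 (.s k1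
  k253 13 (.s k137 k185 3 (.s k205 k69 9 (.d k49 k33 k101 3 13)))))))) (.c k48 (.l (.s k19 k220 10
  (.s k152 k155 0 (.s k168 k252 13 (.s k221 k17 9 (.s k204 k255 4 (.d k136 k184 k68 3 9))))))) (.c
  k221 (.l (.s k252 k168 13 (.s k169 k3 14 (.s k184 k139 4 (.s k48 k116 9 (.s k49 k51 0 (.d k101
  k207 k205 14 13))))))) (.c k255 (.l (.s k17 k221 9 (.s k220 k19 10 (.s k252 k168 13 (.s k204 k236
  3 (.s k68 k136 9 (.s k100 k116 3 (.d k152 k155 k48 0 13)))))))) .n)))))) (.c k32 (.l (.s k16 k223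
  10 (.s k152 k220 9 (.s k168 k252 13 (.s k136 k184 3 (.s k204 k68 9 (.s k221 k255 4 (.d k153 k155
  k17 0 9)))))))) (.c k48 (.l (.s k16 k223 10 (.s k220 k152 9 (.s k252 k168 13 (.s k204 k236 3 (.s
  k221 k255 4 (.d k153 k19 k17 10 9))))))) (.c k223 (.q k155 [(.s k252 k168 13 (.s k169 k3 14 (.s
  k184 k139 4 (.s k48 k116 9 (.s k51 k49 0 (.d k207 k103 k101 13 14)))))), (.s k153 k152 0 (.s k220
  k19 10 (.s k252 k168 13 (.s k204 k236 3 (.d k221 k17 k255 9 4))))), (.s k152 k153 0 (.s k16 k220 9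
  (.s k48 k32 3 (.s k51 k49 0 (.d k207 k101 k103 14 13)))))] .n) .n))))) (.c k50 (.l (.s k18 k222 9
  (.s k16 k223 10 (.s k19 k17 0 (.d k220 k152 k153 9 10))))) (.c k222 (.l (.s k16 k223 10 (.s k48
  k32 3 (.s k101 k207 14 (.s k116 k71 4 (.d k252 k184 k168 9 13)))))) .n)))) (.c k238 (.q k34 [(.s
  k16 k223 10 (.s k17 k51 4 (.d k18 k19 k222 0 9))), (.s k222 k18 9 (.s k252 k168 13 (.s k207 k237 4
  (.s k69 k138 10 (.d k101 k117 k48 3 14)))))] (.c k18 (.l (.s k16 k223 10 (.s k17 k51 4 (.s k152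
  k220 9 (.d k153 k155 k221 0 9))))) (.c k222 (.l (.s k16 k223 10 (.s k17 k51 4 (.s k19 k18 0 (.d
  k153 k221 k220 9 10))))) .n))) .n))))

def s2_170_103 : T TT 256 :=
  (.q k4 [(.s k84 k87 0 (.s k244 k164 11 (.s k165 k7 12 (.s k245 k5 11 (.d k247 k246 k166 0 12))))),
  (.s k12 k8 1 (.s k166 k247 12 (.s k6 k246 11 (.s k3 k9 2 (.s k89 k243 14 (.s k92 k83 2 (.d k252
  k172 k169 11 14))))))), (.s k12 k8 1 (.s k84 k87 0 (.s k164 k244 11 (.s k88 k240 13 (.s k92 k80 1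
  (.d k252 k172 k168 11 13))))))] (.c k244 (.l (.s k12 k8 1 (.s k84 k87 0 (.s k166 k247 12 (.s k89
  k243 14 (.s k92 k83 2 (.d k252 k172 k168 11 13))))))) .n))

def s2_170_104 : T TT 256 :=
  (.q k4 [(.s k84 k87 0 (.s k166 k247 12 (.s k6 k246 11 (.s k7 k5 0 (.d k244 k164 k165 11 12))))),
  (.s k12 k8 1 (.s k84 k87 0 (.s k164 k244 11 (.s k88 k240 13 (.s k92 k80 1 (.d k252 k172 k168 11
  13)))))), (.s k12 k8 1 (.s k166 k247 12 (.s k6 k246 11 (.s k3 k9 2 (.s k89 k243 14 (.s k92 k83 2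
  (.d k252 k172 k169 11 14)))))))] (.c k244 (.l (.s k12 k8 1 (.s k84 k87 0 (.s k166 k247 12 (.s k89
  k243 14 (.s k92 k83 2 (.d k252 k172 k168 11 13))))))) .n))

def s2_170_105 : T TT 256 :=
  (.f k84 k87 0 (.q k20 [(.s k212 k148 7 (.s k149 k23 8 (.s k213 k21 7 (.d k215 k214 k150 0 8)))),
  (.s k148 k212 7 (.s k168 k252 13 (.s k128 k188 5 (.s k192 k64 7 (.d k60 k40 k104 5 13))))), (.s
  k150 k215 8 (.s k252 k168 13 (.s k169 k3 14 (.s k188 k131 6 (.d k60 k40 k124 5 7)))))] (.c k40 (.q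
  k235 [(.s k212 k148 7 (.s k149 k23 8 (.s k213 k21 7 (.d k215 k214 k150 0 8)))), (.s k215 k150 8
  (.s k252 k168 13 (.s k169 k3 14 (.s k253 k1 13 (.d k255 k195 k254 5 0)))))] (.c k150 (.l (.s k212
  k148 7 (.s k149 k23 8 (.s k21 k213 7 (.s k63 k42 6 (.s k252 k168 13 (.d k192 k232 k106 5 14)))))))
  (.c k215 (.l (.s k212 k148 7 (.s k23 k149 8 (.s k22 k21 0 (.s k252 k168 13 (.s k232 k192 5 (.s
  k233 k234 0 (.d k214 k150 k195 7 6)))))))) .n))) (.c k235 (.l (.s k40 k60 5 (.s k150 k215 8 (.s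
  k22 k214 7 (.s k23 k21 0 (.d k212 k148 k149 7 8)))))) .n))))

def s2_170_106 : T TT 256 :=
  (.f k84 k87 0 (.q k150 [(.s k20 k215 8 (.s k22 k214 7 (.s k23 k21 0 (.d k212 k148 k149 7 8)))),
  (.s k214 k22 7 (.s k252 k168 13 (.s k195 k233 6 (.s k65 k130 8 (.d k105 k125 k60 5 14))))), (.s
  k20 k215 8 (.s k60 k40 5 (.s k105 k195 14 (.s k124 k67 6 (.d k252 k188 k168 7 13)))))] (.c k42 (.q
  k234 [(.s k20 k215 8 (.s k22 k214 7 (.s k23 k21 0 (.d k212 k148 k149 7 8)))), (.s k252 k168 13 (.s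
  k169 k3 14 (.s k188 k131 6 (.s k60 k124 7 (.s k195 k105 14 (.d k214 k22 k233 7 6))))))] (.c k22
  (.q k62 [(.s k252 k168 13 (.s k169 k3 14 (.s k188 k131 6 (.s k60 k124 7 (.d k20 k40 k215 5 8))))),
  (.s k20 k215 8 (.s k60 k40 5 (.s k61 k63 0 (.s k105 k195 14 (.s k148 k212 7 (.d k149 k151 k193 0
  13)))))), (.s k20 k215 8 (.s k148 k212 7 (.s k168 k252 13 (.s k128 k188 5 (.s k192 k64 7 (.d k60
  k40 k104 5 13))))))] (.c k20 (.q k149 [(.s k148 k151 0 (.s k168 k252 13 (.s k128 k188 5 (.s k192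
  k64 7 (.d k213 k21 k255 7 6))))), (.s k21 k213 7 (.s k252 k168 13 (.s k169 k3 14 (.s k1 k253 13
  (.s k129 k189 5 (.s k193 k65 7 (.d k61 k41 k105 5 13))))))), (.s k23 k212 8 (.s k148 k151 0 (.s
  k213 k21 7 (.s k192 k255 6 (.s k64 k128 7 (.d k104 k124 k60 5 13))))))] (.c k21 (.l (.s k23 k212 8
  (.s k252 k168 13 (.s k169 k3 14 (.s k188 k131 6 (.s k60 k124 7 (.s k61 k63 0 (.d k105 k195 k193 14
  13)))))))) (.c k23 (.l (.s k21 k213 7 (.s k252 k168 13 (.s k169 k3 14 (.s k1 k253 13 (.s k129 k189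
  5 (.s k193 k65 7 (.d k61 k41 k105 5 13)))))))) (.c k60 (.l (.s k23 k212 8 (.s k148 k151 0 (.s k168
  k252 13 (.s k213 k21 7 (.s k192 k255 6 (.d k128 k188 k64 5 7))))))) (.c k213 (.l (.s k252 k168 13
  (.s k169 k3 14 (.s k188 k131 6 (.s k60 k124 7 (.s k61 k63 0 (.d k105 k195 k193 14 13))))))) (.c
  k255 (.l (.s k21 k213 7 (.s k212 k23 8 (.s k252 k168 13 (.s k192 k232 5 (.s k64 k128 7 (.s k104
  k124 5 (.d k148 k151 k60 0 13)))))))) .n)))))) (.c k40 (.l (.s k20 k215 8 (.s k148 k212 7 (.s k168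
  k252 13 (.s k128 k188 5 (.s k192 k64 7 (.s k213 k255 6 (.d k149 k151 k21 0 7)))))))) (.c k60 (.l
  (.s k20 k215 8 (.s k212 k148 7 (.s k252 k168 13 (.s k192 k232 5 (.s k213 k255 6 (.d k149 k23 k21 8
  7))))))) (.c k215 (.q k151 [(.s k252 k168 13 (.s k169 k3 14 (.s k188 k131 6 (.s k60 k124 7 (.s k63
  k61 0 (.d k195 k107 k105 13 14)))))), (.s k149 k148 0 (.s k212 k23 8 (.s k252 k168 13 (.s k192
  k232 5 (.d k213 k21 k255 7 6))))), (.s k148 k149 0 (.s k20 k212 7 (.s k60 k40 5 (.s k63 k61 0 (.d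
  k195 k105 k107 14 13)))))] .n) .n))))) (.c k62 (.l (.s k22 k214 7 (.s k20 k215 8 (.s k23 k21 0 (.d
  k212 k148 k149 7 8))))) (.c k214 (.l (.s k20 k215 8 (.s k60 k40 5 (.s k105 k195 14 (.s k124 k67 6
  (.d k252 k188 k168 7 13)))))) .n)))) (.c k234 (.q k42 [(.s k20 k215 8 (.s k21 k63 6 (.d k22 k23
  k214 0 7))), (.s k214 k22 7 (.s k252 k168 13 (.s k195 k233 6 (.s k65 k130 8 (.d k105 k125 k60 5
  14)))))] (.c k22 (.l (.s k20 k215 8 (.s k21 k63 6 (.s k148 k212 7 (.d k149 k151 k213 0 7))))) (.c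
  k214 (.l (.s k20 k215 8 (.s k21 k63 6 (.s k23 k22 0 (.d k149 k213 k212 7 8))))) .n))) .n))))

def s2_170_107 : T TT 256 :=
  (.q k4 [(.s k84 k87 0 (.s k244 k164 11 (.s k165 k7 12 (.s k245 k5 11 (.d k247 k246 k166 0 12))))),
  (.s k12 k8 1 (.s k166 k247 12 (.s k6 k246 11 (.s k3 k9 2 (.s k89 k243 14 (.s k92 k83 2 (.d k252
  k172 k169 11 14))))))), (.s k12 k8 1 (.s k84 k87 0 (.s k164 k244 11 (.s k88 k240 13 (.s k92 k80 1
  (.d k252 k172 k168 11 13))))))] (.c k244 (.l (.s k12 k8 1 (.s k84 k87 0 (.s k166 k247 12 (.s k89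
  k243 14 (.s k92 k83 2 (.d k252 k172 k168 11 13))))))) .n))

def s2_170_108 : T TT 256 :=
  (.q k4 [(.s k84 k87 0 (.s k244 k164 11 (.s k165 k7 12 (.s k245 k5 11 (.d k247 k246 k166 0 12))))),
  (.s k12 k8 1 (.s k84 k87 0 (.s k164 k244 11 (.s k88 k240 13 (.s k92 k80 1 (.d k252 k172 k168 11
  13)))))), (.s k12 k8 1 (.s k166 k247 12 (.s k6 k246 11 (.s k3 k9 2 (.s k89 k243 14 (.s k92 k83 2
  (.d k252 k172 k169 11 14)))))))] (.c k244 (.l (.s k12 k8 1 (.s k84 k87 0 (.s k166 k247 12 (.s k89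
  k243 14 (.s k92 k83 2 (.d k252 k172 k168 11 13))))))) .n))

def s2_170_109 : T TT 256 :=
  (.q k4 [(.s k84 k87 0 (.s k244 k164 11 (.s k165 k7 12 (.s k245 k5 11 (.d k247 k246 k166 0 12))))),
  (.s k12 k8 1 (.s k84 k87 0 (.s k164 k244 11 (.s k88 k240 13 (.s k92 k80 1 (.d k252 k172 k168 11
  13)))))), (.s k12 k8 1 (.s k166 k247 12 (.s k6 k246 11 (.s k3 k9 2 (.s k89 k243 14 (.s k92 k83 2
  (.d k252 k172 k169 11 14)))))))] (.c k244 (.l (.s k12 k8 1 (.s k84 k87 0 (.s k166 k247 12 (.s k89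
  k243 14 (.s k92 k83 2 (.d k252 k172 k168 11 13))))))) .n))

def s2_170_110 : T TT 256 :=
  (.q k4 [(.s k84 k87 0 (.s k244 k164 11 (.s k165 k7 12 (.s k245 k5 11 (.d k247 k246 k166 0 12))))),
  (.s k12 k8 1 (.s k84 k87 0 (.s k164 k244 11 (.s k88 k240 13 (.s k92 k80 1 (.d k252 k172 k168 11
  13)))))), (.s k12 k8 1 (.s k166 k247 12 (.s k6 k246 11 (.s k3 k9 2 (.s k89 k243 14 (.s k92 k83 2
  (.d k252 k172 k169 11 14)))))))] (.c k244 (.l (.s k12 k8 1 (.s k84 k87 0 (.s k166 k247 12 (.s k89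
  k243 14 (.s k92 k83 2 (.d k252 k172 k168 11 13))))))) .n))

def s2_170_111 : T TT 256 :=
  (.q k4 [(.s k84 k87 0 (.s k244 k164 11 (.s k165 k7 12 (.s k245 k5 11 (.d k247 k246 k166 0 12))))),
  (.s k12 k8 1 (.s k84 k87 0 (.s k164 k244 11 (.s k88 k240 13 (.s k92 k80 1 (.d k252 k172 k168 11
  13)))))), (.s k12 k8 1 (.s k166 k247 12 (.s k6 k246 11 (.s k3 k9 2 (.s k89 k243 14 (.s k92 k83 2
  (.d k252 k172 k169 11 14)))))))] (.c k244 (.l (.s k12 k8 1 (.s k84 k87 0 (.s k166 k247 12 (.s k89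
  k243 14 (.s k92 k83 2 (.d k252 k172 k168 11 13))))))) .n))

def s2_170_112 : T TT 256 :=
  (.q k4 [(.s k84 k87 0 (.s k244 k164 11 (.s k165 k7 12 (.s k245 k5 11 (.d k247 k246 k166 0 12))))),
  (.s k12 k8 1 (.s k84 k87 0 (.s k164 k244 11 (.s k88 k240 13 (.s k92 k80 1 (.d k252 k172 k168 11
  13)))))), (.s k12 k8 1 (.s k166 k247 12 (.s k6 k246 11 (.s k3 k9 2 (.s k89 k243 14 (.s k92 k83 2
  (.d k252 k172 k169 11 14)))))))] (.c k244 (.l (.s k12 k8 1 (.s k84 k87 0 (.s k166 k247 12 (.s k89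
  k243 14 (.s k92 k83 2 (.d k252 k172 k168 11 13))))))) .n))

def s2_170_113 : T TT 256 :=
  (.q k4 [(.s k84 k87 0 (.s k244 k164 11 (.s k165 k7 12 (.s k245 k5 11 (.d k247 k246 k166 0 12))))),
  (.s k12 k8 1 (.s k84 k87 0 (.s k164 k244 11 (.s k88 k240 13 (.s k92 k80 1 (.d k252 k172 k168 11
  13)))))), (.s k12 k8 1 (.s k166 k247 12 (.s k6 k246 11 (.s k3 k9 2 (.s k89 k243 14 (.s k92 k83 2
  (.d k252 k172 k169 11 14)))))))] (.c k244 (.l (.s k12 k8 1 (.s k84 k87 0 (.s k166 k247 12 (.s k89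
  k243 14 (.s k92 k83 2 (.d k252 k172 k168 11 13))))))) .n))

def s2_170_114 : T TT 256 :=
  (.q k4 [(.s k84 k87 0 (.s k244 k164 11 (.s k165 k7 12 (.s k245 k5 11 (.d k247 k246 k166 0 12))))),
  (.s k12 k8 1 (.s k84 k87 0 (.s k164 k244 11 (.s k88 k240 13 (.s k92 k80 1 (.d k252 k172 k168 11
  13)))))), (.s k12 k8 1 (.s k166 k247 12 (.s k6 k246 11 (.s k3 k9 2 (.s k89 k243 14 (.s k92 k83 2
  (.d k252 k172 k169 11 14)))))))] (.c k244 (.l (.s k12 k8 1 (.s k84 k87 0 (.s k166 k247 12 (.s k89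
  k243 14 (.s k92 k83 2 (.d k252 k172 k168 11 13))))))) .n))

def s2_170_115 : T TT 256 :=
  (.q k4 [(.s k84 k87 0 (.s k244 k164 11 (.s k165 k7 12 (.s k245 k5 11 (.d k247 k246 k166 0 12))))),
  (.s k12 k8 1 (.s k84 k87 0 (.s k164 k244 11 (.s k88 k240 13 (.s k92 k80 1 (.d k252 k172 k168 11
  13)))))), (.s k12 k8 1 (.s k166 k247 12 (.s k6 k246 11 (.s k3 k9 2 (.s k89 k243 14 (.s k92 k83 2
  (.d k252 k172 k169 11 14)))))))] (.c k244 (.l (.s k12 k8 1 (.s k84 k87 0 (.s k166 k247 12 (.s k89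
  k243 14 (.s k92 k83 2 (.d k252 k172 k168 11 13))))))) .n))

def s2_170_116 : T TT 256 :=
  (.q k4 [(.s k84 k87 0 (.s k244 k164 11 (.s k165 k7 12 (.s k245 k5 11 (.d k247 k246 k166 0 12))))),
  (.s k12 k8 1 (.s k84 k87 0 (.s k164 k244 11 (.s k88 k240 13 (.s k92 k80 1 (.d k252 k172 k168 11
  13)))))), (.s k12 k8 1 (.s k166 k247 12 (.s k6 k246 11 (.s k3 k9 2 (.s k89 k243 14 (.s k92 k83 2
  (.d k252 k172 k169 11 14)))))))] (.c k244 (.l (.s k12 k8 1 (.s k84 k87 0 (.s k166 k247 12 (.s k89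
  k243 14 (.s k92 k83 2 (.d k252 k172 k168 11 13))))))) .n))

def s2_170_117 : T TT 256 :=
  (.q k4 [(.s k84 k87 0 (.s k244 k164 11 (.s k165 k7 12 (.s k245 k5 11 (.d k247 k246 k166 0 12))))),
  (.s k12 k8 1 (.s k84 k87 0 (.s k164 k244 11 (.s k88 k240 13 (.s k92 k80 1 (.d k252 k172 k168 11
  13)))))), (.s k12 k8 1 (.s k166 k247 12 (.s k6 k246 11 (.s k3 k9 2 (.s k89 k243 14 (.s k92 k83 2
  (.d k252 k172 k169 11 14)))))))] (.c k244 (.l (.s k12 k8 1 (.s k84 k87 0 (.s k166 k247 12 (.s k89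
  k243 14 (.s k92 k83 2 (.d k252 k172 k168 11 13))))))) .n))

def s2_170_118 : T TT 256 :=
  (.q k4 [(.s k84 k87 0 (.s k244 k164 11 (.s k165 k7 12 (.s k245 k5 11 (.d k247 k246 k166 0 12))))),
  (.s k12 k8 1 (.s k84 k87 0 (.s k164 k244 11 (.s k88 k240 13 (.s k92 k80 1 (.d k252 k172 k168 11
  13)))))), (.s k12 k8 1 (.s k166 k247 12 (.s k6 k246 11 (.s k3 k9 2 (.s k89 k243 14 (.s k92 k83 2
  (.d k252 k172 k169 11 14)))))))] (.c k244 (.l (.s k12 k8 1 (.s k84 k87 0 (.s k166 k247 12 (.s k89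
  k243 14 (.s k92 k83 2 (.d k252 k172 k168 11 13))))))) .n))

def s2_170_119 : T TT 256 :=
  (.q k4 [(.s k84 k87 0 (.s k244 k164 11 (.s k165 k7 12 (.s k245 k5 11 (.d k247 k246 k166 0 12))))),
  (.s k12 k8 1 (.s k166 k247 12 (.s k6 k246 11 (.s k3 k9 2 (.s k89 k243 14 (.s k92 k83 2 (.d k252
  k172 k169 11 14))))))), (.s k12 k8 1 (.s k84 k87 0 (.s k164 k244 11 (.s k88 k240 13 (.s k92 k80 1
  (.d k252 k172 k168 11 13))))))] (.c k244 (.l (.s k12 k8 1 (.s k84 k87 0 (.s k166 k247 12 (.s k89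
  k243 14 (.s k92 k83 2 (.d k252 k172 k168 11 13))))))) .n))

def s2_170_120 : T TT 256 :=
  (.q k4 [(.s k84 k87 0 (.s k244 k164 11 (.s k165 k7 12 (.s k245 k5 11 (.d k247 k246 k166 0 12))))),
  (.s k12 k8 1 (.s k84 k87 0 (.s k164 k244 11 (.s k88 k240 13 (.s k92 k80 1 (.d k252 k172 k168 11
  13)))))), (.s k12 k8 1 (.s k166 k247 12 (.s k6 k246 11 (.s k3 k9 2 (.s k89 k243 14 (.s k92 k83 2
  (.d k252 k172 k169 11 14)))))))] (.c k244 (.l (.s k12 k8 1 (.s k84 k87 0 (.s k166 k247 12 (.s k89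
  k243 14 (.s k92 k83 2 (.d k252 k172 k168 11 13))))))) .n))

def s2_170_121 : T TT 256 :=
  (.q k4 [(.s k84 k87 0 (.s k244 k164 11 (.s k165 k7 12 (.s k245 k5 11 (.d k247 k246 k166 0 12))))),
  (.s k12 k8 1 (.s k84 k87 0 (.s k164 k244 11 (.s k88 k240 13 (.s k92 k80 1 (.d k252 k172 k168 11
  13)))))), (.s k12 k8 1 (.s k166 k247 12 (.s k6 k246 11 (.s k3 k9 2 (.s k89 k243 14 (.s k92 k83 2
  (.d k252 k172 k169 11 14)))))))] (.c k244 (.l (.s k12 k8 1 (.s k84 k87 0 (.s k166 k247 12 (.s k89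
  k243 14 (.s k92 k83 2 (.d k252 k172 k168 11 13))))))) .n))

def s2_170_122 : T TT 256 :=
  (.q k4 [(.s k84 k87 0 (.s k244 k164 11 (.s k165 k7 12 (.s k245 k5 11 (.d k247 k246 k166 0 12))))),
  (.s k12 k8 1 (.s k84 k87 0 (.s k164 k244 11 (.s k88 k240 13 (.s k92 k80 1 (.d k252 k172 k168 11
  13)))))), (.s k12 k8 1 (.s k166 k247 12 (.s k6 k246 11 (.s k3 k9 2 (.s k89 k243 14 (.s k92 k83 2
  (.d k252 k172 k169 11 14)))))))] (.c k244 (.l (.s k12 k8 1 (.s k84 k87 0 (.s k166 k247 12 (.s k89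
  k243 14 (.s k92 k83 2 (.d k252 k172 k168 11 13))))))) .n))

def s2_170_123 : T TT 256 :=
  (.q k4 [(.s k84 k87 0 (.s k244 k164 11 (.s k165 k7 12 (.s k245 k5 11 (.d k247 k246 k166 0 12))))),
  (.s k12 k8 1 (.s k84 k87 0 (.s k164 k244 11 (.s k88 k240 13 (.s k92 k80 1 (.d k252 k172 k168 11
  13)))))), (.s k12 k8 1 (.s k166 k247 12 (.s k6 k246 11 (.s k3 k9 2 (.s k89 k243 14 (.s k92 k83 2
  (.d k252 k172 k169 11 14)))))))] (.c k244 (.l (.s k12 k8 1 (.s k84 k87 0 (.s k166 k247 12 (.s k89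
  k243 14 (.s k92 k83 2 (.d k252 k172 k168 11 13))))))) .n))

def s2_170_124 : T TT 256 :=
  (.q k4 [(.s k84 k87 0 (.s k244 k164 11 (.s k165 k7 12 (.s k245 k5 11 (.d k247 k246 k166 0 12))))),
  (.s k12 k8 1 (.s k84 k87 0 (.s k164 k244 11 (.s k88 k240 13 (.s k92 k80 1 (.d k252 k172 k168 11
  13)))))), (.s k12 k8 1 (.s k166 k247 12 (.s k6 k246 11 (.s k3 k9 2 (.s k89 k243 14 (.s k92 k83 2
  (.d k252 k172 k169 11 14)))))))] (.c k244 (.l (.s k12 k8 1 (.s k84 k87 0 (.s k166 k247 12 (.s k89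
  k243 14 (.s k92 k83 2 (.d k252 k172 k168 11 13))))))) .n))

def s2_170_125 : T TT 256 :=
  (.q k4 [(.s k84 k87 0 (.s k244 k164 11 (.s k165 k7 12 (.s k245 k5 11 (.d k247 k246 k166 0 12))))),
  (.s k12 k8 1 (.s k84 k87 0 (.s k164 k244 11 (.s k88 k240 13 (.s k92 k80 1 (.d k252 k172 k168 11
  13)))))), (.s k12 k8 1 (.s k166 k247 12 (.s k6 k246 11 (.s k3 k9 2 (.s k89 k243 14 (.s k92 k83 2
  (.d k252 k172 k169 11 14)))))))] (.c k244 (.l (.s k12 k8 1 (.s k84 k87 0 (.s k166 k247 12 (.s k89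
  k243 14 (.s k92 k83 2 (.d k252 k172 k168 11 13))))))) .n))

def s2_170_126 : T TT 256 :=
  (.q k4 [(.s k84 k87 0 (.s k244 k164 11 (.s k165 k7 12 (.s k245 k5 11 (.d k247 k246 k166 0 12))))),
  (.s k12 k8 1 (.s k84 k87 0 (.s k164 k244 11 (.s k88 k240 13 (.s k92 k80 1 (.d k252 k172 k168 11
  13)))))), (.s k12 k8 1 (.s k166 k247 12 (.s k6 k246 11 (.s k3 k9 2 (.s k89 k243 14 (.s k92 k83 2
  (.d k252 k172 k169 11 14)))))))] (.c k244 (.l (.s k12 k8 1 (.s k84 k87 0 (.s k166 k247 12 (.s k89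
  k243 14 (.s k92 k83 2 (.d k252 k172 k168 11 13))))))) .n))

def s2_170_127 : T TT 256 :=
  (.q k4 [(.s k84 k87 0 (.s k244 k164 11 (.s k165 k7 12 (.s k245 k5 11 (.d k247 k246 k166 0 12))))),
  (.s k12 k8 1 (.s k166 k247 12 (.s k6 k246 11 (.s k3 k9 2 (.s k89 k243 14 (.s k92 k83 2 (.d k252
  k172 k169 11 14))))))), (.s k12 k8 1 (.s k84 k87 0 (.s k164 k244 11 (.s k88 k240 13 (.s k92 k80 1
  (.d k252 k172 k168 11 13))))))] (.c k244 (.l (.s k12 k8 1 (.s k84 k87 0 (.s k166 k247 12 (.s k89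
  k243 14 (.s k92 k83 2 (.d k252 k172 k168 11 13))))))) .n))

def s2_170_128 : T TT 256 :=
  (.q k149 [(.s k21 k213 7 (.s k23 k212 8 (.s k87 k84 0 (.s k215 k151 7 (.d k20 k22 k150 0 8))))),
  (.s k21 k213 7 (.s k63 k42 6 (.s k84 k87 0 (.s k106 k192 14 (.s k126 k66 5 (.d k252 k189 k168 8
  13)))))), (.s k84 k87 0 (.s k212 k23 8 (.s k252 k168 13 (.s k169 k3 14 (.s k189 k129 5 (.s k63
  k126 8 (.d k192 k232 k106 5 14))))))), (.s k21 k213 7 (.s k23 k212 8 (.s k63 k42 6 (.s k3 k43 5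
  (.s k106 k192 14 (.s k126 k66 5 (.d k252 k189 k169 8 14)))))))] .n)

def s2_170_129 : T TT 256 :=
  (.q k4 [(.s k84 k87 0 (.s k244 k164 11 (.s k165 k7 12 (.s k245 k5 11 (.d k247 k246 k166 0 12))))),
  (.s k12 k8 1 (.s k84 k87 0 (.s k164 k244 11 (.s k88 k240 13 (.s k92 k80 1 (.d k252 k172 k168 11
  13)))))), (.s k12 k8 1 (.s k166 k247 12 (.s k6 k246 11 (.s k3 k9 2 (.s k89 k243 14 (.s k92 k83 2
  (.d k252 k172 k169 11 14)))))))] (.c k244 (.l (.s k12 k8 1 (.s k84 k87 0 (.s k166 k247 12 (.s k89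
  k243 14 (.s k92 k83 2 (.d k252 k172 k168 11 13))))))) .n))

def s2_170_130 : T TT 256 :=
  (.f k84 k87 0 (.q k150 [(.s k20 k215 8 (.s k22 k214 7 (.s k23 k21 0 (.d k212 k148 k149 7 8)))),
  (.s k214 k22 7 (.s k252 k168 13 (.s k169 k3 14 (.s k188 k131 6 (.s k60 k124 7 (.d k195 k233 k105 6
  14)))))), (.s k20 k215 8 (.s k60 k40 5 (.s k105 k195 14 (.s k124 k67 6 (.d k252 k188 k168 7
  13)))))] (.c k66 (.q k194 [(.s k20 k215 8 (.s k22 k214 7 (.s k23 k21 0 (.d k212 k148 k149 7 8)))),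
  (.s k214 k22 7 (.s k252 k168 13 (.s k169 k3 14 (.s k253 k1 13 (.d k254 k255 k234 0 5))))), (.s k20
  k215 8 (.s k60 k40 5 (.s k105 k195 14 (.s k124 k67 6 (.d k252 k188 k168 7 13)))))] .n) (.c k194
  (.q k66 [(.s k106 k126 5 (.s k64 k127 6 (.s k67 k65 0 (.d k124 k104 k105 5 6)))), (.s k20 k215 8
  (.s k22 k214 7 (.s k23 k21 0 (.d k212 k148 k149 7 8))))] .n) .n))))

def s2_170_131 : T TT 256 :=
  (.q k4 [(.s k84 k87 0 (.s k244 k164 11 (.s k165 k7 12 (.s k245 k5 11 (.d k247 k246 k166 0 12))))),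
  (.s k12 k8 1 (.s k84 k87 0 (.s k164 k244 11 (.s k88 k240 13 (.s k92 k80 1 (.d k252 k172 k168 11
  13)))))), (.s k12 k8 1 (.s k166 k247 12 (.s k6 k246 11 (.s k3 k9 2 (.s k89 k243 14 (.s k92 k83 2
  (.d k252 k172 k169 11 14)))))))] (.c k244 (.l (.s k12 k8 1 (.s k84 k87 0 (.s k166 k247 12 (.s k89
  k243 14 (.s k92 k83 2 (.d k252 k172 k168 11 13))))))) .n))

def s2_170_132 : T TT 256 :=
  (.q k4 [(.s k84 k87 0 (.s k166 k247 12 (.s k6 k246 11 (.s k7 k5 0 (.d k244 k164 k165 11 12))))),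
  (.s k12 k8 1 (.s k84 k87 0 (.s k164 k244 11 (.s k88 k240 13 (.s k92 k80 1 (.d k252 k172 k168 11
  13)))))), (.s k12 k8 1 (.s k166 k247 12 (.s k6 k246 11 (.s k3 k9 2 (.s k89 k243 14 (.s k92 k83 2
  (.d k252 k172 k169 11 14)))))))] (.c k244 (.l (.s k12 k8 1 (.s k84 k87 0 (.s k166 k247 12 (.s k89
  k243 14 (.s k92 k83 2 (.d k252 k172 k168 11 13))))))) .n))

def s2_170_133 : T TT 256 :=
  (.q k4 [(.s k84 k87 0 (.s k166 k247 12 (.s k6 k246 11 (.s k244 k164 11 (.d k7 k5 k165 0 12))))),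
  (.s k12 k8 1 (.s k84 k87 0 (.s k164 k244 11 (.s k88 k240 13 (.s k92 k80 1 (.d k252 k172 k168 11
  13)))))), (.s k12 k8 1 (.s k166 k247 12 (.s k6 k246 11 (.s k3 k9 2 (.s k89 k243 14 (.s k92 k83 2
  (.d k252 k172 k169 11 14)))))))] (.c k244 (.l (.s k12 k8 1 (.s k84 k87 0 (.s k166 k247 12 (.s k89
  k243 14 (.s k92 k83 2 (.d k252 k172 k168 11 13))))))) .n))

def s2_170_134 : T TT 256 :=
  (.q k4 [(.s k84 k87 0 (.s k244 k164 11 (.s k165 k7 12 (.s k245 k5 11 (.d k247 k246 k166 0 12))))),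
  (.s k12 k8 1 (.s k84 k87 0 (.s k164 k244 11 (.s k88 k240 13 (.s k92 k80 1 (.d k252 k172 k168 11
  13)))))), (.s k12 k8 1 (.s k166 k247 12 (.s k6 k246 11 (.s k3 k9 2 (.s k89 k243 14 (.s k92 k83 2
  (.d k252 k172 k169 11 14)))))))] (.c k244 (.l (.s k12 k8 1 (.s k84 k87 0 (.s k166 k247 12 (.s k89
  k243 14 (.s k92 k83 2 (.d k252 k172 k168 11 13))))))) .n))

def s2_170_135 : T TT 256 :=
  (.q k4 [(.s k84 k87 0 (.s k166 k247 12 (.s k6 k246 11 (.s k7 k5 0 (.d k244 k164 k165 11 12))))),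
  (.s k12 k8 1 (.s k84 k87 0 (.s k164 k244 11 (.s k88 k240 13 (.s k92 k80 1 (.d k252 k172 k168 11
  13)))))), (.s k12 k8 1 (.s k166 k247 12 (.s k6 k246 11 (.s k3 k9 2 (.s k89 k243 14 (.s k92 k83 2
  (.d k252 k172 k169 11 14)))))))] (.c k244 (.l (.s k12 k8 1 (.s k84 k87 0 (.s k166 k247 12 (.s k89
  k243 14 (.s k92 k83 2 (.d k252 k172 k168 11 13))))))) .n))

def s2_170_136 : T TT 256 :=
  (.q k153 [(.s k17 k221 9 (.s k19 k220 10 (.s k87 k84 0 (.s k223 k155 9 (.d k16 k18 k154 0 10))))),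
  (.s k17 k221 9 (.s k51 k34 4 (.s k84 k87 0 (.s k102 k204 14 (.s k118 k70 3 (.d k252 k185 k168 10
  13)))))), (.s k84 k87 0 (.s k220 k19 10 (.s k252 k168 13 (.s k169 k3 14 (.s k185 k137 3 (.s k51
  k118 10 (.d k204 k236 k102 3 14))))))), (.s k17 k221 9 (.s k19 k220 10 (.s k51 k34 4 (.s k3 k35 3
  (.s k102 k204 14 (.s k118 k70 3 (.d k252 k185 k169 10 14)))))))] .n)

def s2_170_137 : T TT 256 :=
  (.q k4 [(.s k84 k87 0 (.s k244 k164 11 (.s k165 k7 12 (.s k245 k5 11 (.d k247 k246 k166 0 12))))),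
  (.s k12 k8 1 (.s k84 k87 0 (.s k164 k244 11 (.s k88 k240 13 (.s k92 k80 1 (.d k252 k172 k168 11
  13)))))), (.s k12 k8 1 (.s k166 k247 12 (.s k6 k246 11 (.s k3 k9 2 (.s k89 k243 14 (.s k92 k83 2
  (.d k252 k172 k169 11 14)))))))] (.c k244 (.l (.s k12 k8 1 (.s k84 k87 0 (.s k166 k247 12 (.s k89
  k243 14 (.s k92 k83 2 (.d k252 k172 k168 11 13))))))) .n))

def s2_170_138 : T TT 256 :=
  (.f k84 k87 0 (.q k154 [(.s k16 k223 10 (.s k18 k222 9 (.s k19 k17 0 (.d k220 k152 k153 9 10)))),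
  (.s k222 k18 9 (.s k252 k168 13 (.s k169 k3 14 (.s k184 k139 4 (.s k48 k116 9 (.d k207 k237 k101 4
  14)))))), (.s k16 k223 10 (.s k48 k32 3 (.s k101 k207 14 (.s k116 k71 4 (.d k252 k184 k168 9
  13)))))] (.c k70 (.q k206 [(.s k16 k223 10 (.s k18 k222 9 (.s k19 k17 0 (.d k220 k152 k153 9
  10)))), (.s k222 k18 9 (.s k252 k168 13 (.s k169 k3 14 (.s k253 k1 13 (.d k254 k255 k238 0 3))))),
  (.s k16 k223 10 (.s k48 k32 3 (.s k101 k207 14 (.s k116 k71 4 (.d k252 k184 k168 9 13)))))] .n)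
  (.c k206 (.q k70 [(.s k102 k118 3 (.s k68 k119 4 (.s k71 k69 0 (.d k116 k100 k101 3 4)))), (.s k16
  k223 10 (.s k18 k222 9 (.s k19 k17 0 (.d k220 k152 k153 9 10))))] .n) .n))))

def s2_170_139 : T TT 256 :=
  (.q k4 [(.s k84 k87 0 (.s k244 k164 11 (.s k165 k7 12 (.s k245 k5 11 (.d k247 k246 k166 0 12))))),
  (.s k12 k8 1 (.s k84 k87 0 (.s k164 k244 11 (.s k88 k240 13 (.s k92 k80 1 (.d k252 k172 k168 11
  13)))))), (.s k12 k8 1 (.s k166 k247 12 (.s k6 k246 11 (.s k3 k9 2 (.s k89 k243 14 (.s k92 k83 2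
  (.d k252 k172 k169 11 14)))))))] (.c k244 (.l (.s k12 k8 1 (.s k84 k87 0 (.s k166 k247 12 (.s k89
  k243 14 (.s k92 k83 2 (.d k252 k172 k168 11 13))))))) .n))

def s2_170_140 : T TT 256 :=
  (.q k4 [(.s k84 k87 0 (.s k166 k247 12 (.s k6 k246 11 (.s k7 k5 0 (.d k244 k164 k165 11 12))))),
  (.s k12 k8 1 (.s k84 k87 0 (.s k164 k244 11 (.s k88 k240 13 (.s k92 k80 1 (.d k252 k172 k168 11
  13)))))), (.s k12 k8 1 (.s k166 k247 12 (.s k6 k246 11 (.s k3 k9 2 (.s k89 k243 14 (.s k92 k83 2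
  (.d k252 k172 k169 11 14)))))))] (.c k244 (.l (.s k12 k8 1 (.s k84 k87 0 (.s k166 k247 12 (.s k89
  k243 14 (.s k92 k83 2 (.d k252 k172 k168 11 13))))))) .n))

def s2_170_141 : T TT 256 :=
  (.q k4 [(.s k84 k87 0 (.s k244 k164 11 (.s k165 k7 12 (.s k245 k5 11 (.d k247 k246 k166 0 12))))),
  (.s k12 k8 1 (.s k84 k87 0 (.s k164 k244 11 (.s k88 k240 13 (.s k92 k80 1 (.d k252 k172 k168 11
  13)))))), (.s k12 k8 1 (.s k166 k247 12 (.s k6 k246 11 (.s k3 k9 2 (.s k89 k243 14 (.s k92 k83 2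
  (.d k252 k172 k169 11 14)))))))] (.c k244 (.l (.s k12 k8 1 (.s k84 k87 0 (.s k166 k247 12 (.s k89
  k243 14 (.s k92 k83 2 (.d k252 k172 k168 11 13))))))) .n))

def s2_170_142 : T TT 256 :=
  (.q k4 [(.s k84 k87 0 (.s k244 k164 11 (.s k165 k7 12 (.s k245 k5 11 (.d k247 k246 k166 0 12))))),
  (.s k12 k8 1 (.s k84 k87 0 (.s k164 k244 11 (.s k88 k240 13 (.s k92 k80 1 (.d k252 k172 k168 11
  13)))))), (.s k12 k8 1 (.s k166 k247 12 (.s k6 k246 11 (.s k3 k9 2 (.s k89 k243 14 (.s k92 k83 2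
  (.d k252 k172 k169 11 14)))))))] (.c k244 (.l (.s k12 k8 1 (.s k84 k87 0 (.s k166 k247 12 (.s k89
  k243 14 (.s k92 k83 2 (.d k252 k172 k168 11 13))))))) .n))

def s2_170_143 : T TT 256 :=
  (.q k4 [(.s k84 k87 0 (.s k244 k164 11 (.s k165 k7 12 (.s k245 k5 11 (.d k247 k246 k166 0 12))))),
  (.s k12 k8 1 (.s k84 k87 0 (.s k164 k244 11 (.s k88 k240 13 (.s k92 k80 1 (.d k252 k172 k168 11
  13)))))), (.s k12 k8 1 (.s k166 k247 12 (.s k6 k246 11 (.s k3 k9 2 (.s k89 k243 14 (.s k92 k83 2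
  (.d k252 k172 k169 11 14)))))))] (.c k244 (.l (.s k12 k8 1 (.s k84 k87 0 (.s k166 k247 12 (.s k89
  k243 14 (.s k92 k83 2 (.d k252 k172 k168 11 13))))))) .n))

def s2_170_144 : T TT 256 :=
  (.q k4 [(.s k84 k87 0 (.s k244 k164 11 (.s k165 k7 12 (.s k245 k5 11 (.d k247 k246 k166 0 12))))),
  (.s k12 k8 1 (.s k84 k87 0 (.s k164 k244 11 (.s k88 k240 13 (.s k92 k80 1 (.d k252 k172 k168 11
  13)))))), (.s k12 k8 1 (.s k166 k247 12 (.s k6 k246 11 (.s k3 k9 2 (.s k89 k243 14 (.s k92 k83 2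
  (.d k252 k172 k169 11 14)))))))] (.c k244 (.l (.s k12 k8 1 (.s k84 k87 0 (.s k166 k247 12 (.s k89
  k243 14 (.s k92 k83 2 (.d k252 k172 k168 11 13))))))) .n))

def s2_170_145 : T TT 256 :=
  (.q k4 [(.s k84 k87 0 (.s k244 k164 11 (.s k165 k7 12 (.s k245 k5 11 (.d k247 k246 k166 0 12))))),
  (.s k12 k8 1 (.s k84 k87 0 (.s k164 k244 11 (.s k88 k240 13 (.s k92 k80 1 (.d k252 k172 k168 11
  13)))))), (.s k12 k8 1 (.s k166 k247 12 (.s k6 k246 11 (.s k3 k9 2 (.s k89 k243 14 (.s k92 k83 2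
  (.d k252 k172 k169 11 14)))))))] (.c k244 (.l (.s k12 k8 1 (.s k84 k87 0 (.s k166 k247 12 (.s k89
  k243 14 (.s k92 k83 2 (.d k252 k172 k168 11 13))))))) .n))

def s2_170_146 : T TT 256 :=
  (.q k4 [(.s k84 k87 0 (.s k244 k164 11 (.s k165 k7 12 (.s k245 k5 11 (.d k247 k246 k166 0 12))))),
  (.s k12 k8 1 (.s k84 k87 0 (.s k164 k244 11 (.s k88 k240 13 (.s k92 k80 1 (.d k252 k172 k168 11
  13)))))), (.s k12 k8 1 (.s k166 k247 12 (.s k6 k246 11 (.s k3 k9 2 (.s k89 k243 14 (.s k92 k83 2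
  (.d k252 k172 k169 11 14)))))))] (.c k244 (.l (.s k12 k8 1 (.s k84 k87 0 (.s k166 k247 12 (.s k89
  k243 14 (.s k92 k83 2 (.d k252 k172 k168 11 13))))))) .n))

def s2_170_147 : T TT 256 :=
  (.q k4 [(.s k84 k87 0 (.s k244 k164 11 (.s k165 k7 12 (.s k245 k5 11 (.d k247 k246 k166 0 12))))),
  (.s k12 k8 1 (.s k84 k87 0 (.s k164 k244 11 (.s k88 k240 13 (.s k92 k80 1 (.d k252 k172 k168 11
  13)))))), (.s k12 k8 1 (.s k166 k247 12 (.s k6 k246 11 (.s k3 k9 2 (.s k89 k243 14 (.s k92 k83 2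
  (.d k252 k172 k169 11 14)))))))] (.c k244 (.l (.s k12 k8 1 (.s k84 k87 0 (.s k166 k247 12 (.s k89
  k243 14 (.s k92 k83 2 (.d k252 k172 k168 11 13))))))) .n))

def s2_170_148 : T TT 256 :=
  (.q k4 [(.s k84 k87 0 (.s k166 k247 12 (.s k6 k246 11 (.s k7 k5 0 (.d k244 k164 k165 11 12))))),
  (.s k12 k8 1 (.s k84 k87 0 (.s k164 k244 11 (.s k88 k240 13 (.s k92 k80 1 (.d k252 k172 k168 11
  13)))))), (.s k12 k8 1 (.s k166 k247 12 (.s k6 k246 11 (.s k3 k9 2 (.s k89 k243 14 (.s k92 k83 2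
  (.d k252 k172 k169 11 14)))))))] (.c k244 (.l (.s k12 k8 1 (.s k84 k87 0 (.s k166 k247 12 (.s k89
  k243 14 (.s k92 k83 2 (.d k252 k172 k168 11 13))))))) .n))

def s2_170_149 : T TT 256 :=
  (.f k84 k87 0 (.q k64 [(.s k124 k104 5 (.s k105 k67 6 (.s k125 k65 5 (.d k127 k126 k106 0 6)))),
  (.s k104 k124 5 (.s k168 k252 13 (.s k40 k232 7 (.s k60 k20 5 (.d k192 k128 k148 7 13))))), (.s
  k106 k127 6 (.s k252 k168 13 (.s k169 k3 14 (.s k232 k43 8 (.d k192 k128 k212 7 5)))))] (.c k128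
  (.q k191 [(.s k124 k104 5 (.s k105 k67 6 (.s k125 k65 5 (.d k127 k126 k106 0 6)))), (.s k127 k106
  6 (.s k252 k168 13 (.s k169 k3 14 (.s k253 k1 13 (.d k255 k63 k254 7 0)))))] (.c k106 (.l (.s k124
  k104 5 (.s k105 k67 6 (.s k65 k125 5 (.s k195 k130 8 (.s k252 k168 13 (.d k60 k188 k150 7
  14))))))) (.c k127 (.l (.s k124 k104 5 (.s k67 k105 6 (.s k66 k65 0 (.s k252 k168 13 (.s k188 k60
  7 (.s k189 k190 0 (.d k126 k106 k63 5 8)))))))) .n))) (.c k191 (.l (.s k128 k192 7 (.s k106 k127 6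
  (.s k66 k126 5 (.s k67 k65 0 (.d k124 k104 k105 5 6)))))) .n))))

def s2_170_150 : T TT 256 :=
  (.f k84 k87 0 (.q k106 [(.s k64 k127 6 (.s k66 k126 5 (.s k67 k65 0 (.d k124 k104 k105 5 6)))),
  (.s k126 k66 5 (.s k252 k168 13 (.s k63 k189 8 (.s k21 k42 6 (.d k149 k213 k192 7 14))))), (.s k64
  k127 6 (.s k192 k128 7 (.s k149 k63 14 (.s k212 k23 8 (.d k252 k232 k168 5 13)))))] (.c k130 (.q
  k190 [(.s k64 k127 6 (.s k66 k126 5 (.s k67 k65 0 (.d k124 k104 k105 5 6)))), (.s k252 k168 13 (.s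
  k169 k3 14 (.s k232 k43 8 (.s k192 k212 5 (.s k63 k149 14 (.d k126 k66 k189 5 8))))))] (.c k66 (.q
  k194 [(.s k252 k168 13 (.s k169 k3 14 (.s k232 k43 8 (.s k192 k212 5 (.d k64 k127 k128 6 7))))),
  (.s k64 k127 6 (.s k104 k124 5 (.s k107 k105 0 (.s k192 k128 7 (.s k195 k193 0 (.d k63 k149 k151
  14 13)))))), (.s k64 k127 6 (.s k104 k124 5 (.s k168 k252 13 (.s k40 k232 7 (.s k60 k20 5 (.s k125
  k255 8 (.d k105 k107 k65 0 5)))))))] (.c k63 (.l (.s k64 k127 6 (.s k192 k128 7 (.s k252 k168 13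
  (.s k169 k3 14 (.d k232 k43 k212 8 5)))))) (.c k64 (.q k105 [(.s k104 k107 0 (.s k168 k252 13 (.s
  k40 k232 7 (.s k60 k20 5 (.d k125 k65 k255 5 8))))), (.s k65 k125 5 (.s k252 k168 13 (.s k169 k3
  14 (.s k1 k253 13 (.s k41 k233 7 (.s k61 k21 5 (.d k193 k129 k149 7 13))))))), (.s k67 k124 6 (.s
  k104 k107 0 (.s k125 k65 5 (.s k60 k255 8 (.s k20 k40 5 (.d k148 k212 k192 7 13))))))] (.c k65 (.l
  (.s k67 k124 6 (.s k252 k168 13 (.s k169 k3 14 (.s k232 k43 8 (.s k192 k212 5 (.s k193 k195 0 (.d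
  k149 k63 k61 14 13)))))))) (.c k67 (.l (.s k65 k125 5 (.s k252 k168 13 (.s k169 k3 14 (.s k1 k253
  13 (.s k41 k233 7 (.s k61 k21 5 (.d k193 k129 k149 7 13)))))))) (.c k125 (.l (.s k252 k168 13 (.s
  k169 k3 14 (.s k232 k43 8 (.s k192 k212 5 (.s k193 k195 0 (.d k149 k63 k61 14 13))))))) (.c k192
  (.l (.s k67 k124 6 (.s k104 k107 0 (.s k125 k65 5 (.s k60 k255 8 (.s k40 k20 5 (.d k168 k232 k252
  7 13))))))) (.c k255 (.l (.s k65 k125 5 (.s k124 k67 6 (.s k252 k168 13 (.s k60 k188 7 (.s k20 k40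
  5 (.s k148 k212 7 (.d k104 k107 k192 0 13)))))))) .n)))))) (.c k127 (.q k107 [(.s k105 k104 0 (.s
  k252 k168 13 (.s k169 k3 14 (.s k253 k1 13 (.s k255 k254 0 (.d k125 k65 k60 5 8)))))), (.s k104
  k105 0 (.s k64 k124 5 (.s k192 k128 7 (.s k195 k193 0 (.d k63 k149 k151 14 13))))), (.s k252 k168
  13 (.s k169 k3 14 (.s k232 k43 8 (.s k192 k212 5 (.s k63 k149 14 (.d k195 k151 k193 13 0)))))),
  (.s k105 k104 0 (.s k124 k67 6 (.s k252 k168 13 (.s k60 k188 7 (.d k125 k65 k255 5 8)))))] .n) (.c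
  k192 (.l (.s k64 k127 6 (.s k124 k104 5 (.s k252 k168 13 (.s k60 k188 7 (.s k125 k255 8 (.d k105
  k67 k65 6 5))))))) .n))))) (.c k126 (.l (.s k64 k127 6 (.s k192 k128 7 (.s k149 k63 14 (.s k212
  k23 8 (.d k252 k232 k168 5 13)))))) (.c k194 (.l (.s k66 k126 5 (.s k64 k127 6 (.s k67 k65 0 (.d
  k124 k104 k105 5 6))))) .n)))) (.c k190 (.q k130 [(.s k64 k127 6 (.s k65 k195 8 (.d k66 k67 k126 0
  5))), (.s k126 k66 5 (.s k252 k168 13 (.s k63 k189 8 (.s k21 k42 6 (.d k149 k213 k192 7 14)))))]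
  (.c k66 (.l (.s k64 k127 6 (.s k65 k195 8 (.s k104 k124 5 (.d k105 k107 k125 0 5))))) (.c k126 (.l
  (.s k64 k127 6 (.s k65 k195 8 (.s k67 k66 0 (.d k105 k125 k124 5 6))))) .n))) .n))))

def s2_170_151 : T TT 256 :=
  (.q k4 [(.s k84 k87 0 (.s k244 k164 11 (.s k165 k7 12 (.s k245 k5 11 (.d k247 k246 k166 0 12))))),
  (.s k12 k8 1 (.s k166 k247 12 (.s k6 k246 11 (.s k3 k9 2 (.s k89 k243 14 (.s k92 k83 2 (.d k252
  k172 k169 11 14))))))), (.s k12 k8 1 (.s k84 k87 0 (.s k164 k244 11 (.s k88 k240 13 (.s k92 k80 1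
  (.d k252 k172 k168 11 13))))))] (.c k244 (.l (.s k12 k8 1 (.s k84 k87 0 (.s k166 k247 12 (.s k89
  k243 14 (.s k92 k83 2 (.d k252 k172 k168 11 13))))))) .n))

def s2_170_152 : T TT 256 :=
  (.q k4 [(.s k84 k87 0 (.s k166 k247 12 (.s k6 k246 11 (.s k7 k5 0 (.d k244 k164 k165 11 12))))),
  (.s k12 k8 1 (.s k84 k87 0 (.s k164 k244 11 (.s k88 k240 13 (.s k92 k80 1 (.d k252 k172 k168 11
  13)))))), (.s k12 k8 1 (.s k166 k247 12 (.s k6 k246 11 (.s k3 k9 2 (.s k89 k243 14 (.s k92 k83 2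
  (.d k252 k172 k169 11 14)))))))] (.c k244 (.l (.s k12 k8 1 (.s k84 k87 0 (.s k166 k247 12 (.s k89
  k243 14 (.s k92 k83 2 (.d k252 k172 k168 11 13))))))) .n))

def s2_170_153 : T TT 256 :=
  (.f k84 k87 0 (.q k68 [(.s k116 k100 3 (.s k101 k71 4 (.s k117 k69 3 (.d k119 k118 k102 0 4)))),
  (.s k100 k116 3 (.s k168 k252 13 (.s k32 k236 9 (.s k48 k16 3 (.d k204 k136 k152 9 13))))), (.s
  k102 k119 4 (.s k252 k168 13 (.s k169 k3 14 (.s k236 k35 10 (.d k204 k136 k220 9 3)))))] (.c k136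
  (.q k187 [(.s k116 k100 3 (.s k101 k71 4 (.s k117 k69 3 (.d k119 k118 k102 0 4)))), (.s k119 k102
  4 (.s k252 k168 13 (.s k169 k3 14 (.s k253 k1 13 (.d k255 k51 k254 9 0)))))] (.c k102 (.l (.s k116
  k100 3 (.s k101 k71 4 (.s k69 k117 3 (.s k207 k138 10 (.s k252 k168 13 (.d k48 k184 k154 9
  14))))))) (.c k119 (.l (.s k116 k100 3 (.s k71 k101 4 (.s k70 k69 0 (.s k252 k168 13 (.s k184 k48
  9 (.s k185 k186 0 (.d k118 k102 k51 3 10)))))))) .n))) (.c k187 (.l (.s k136 k204 9 (.s k102 k119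
  4 (.s k70 k118 3 (.s k71 k69 0 (.d k116 k100 k101 3 4)))))) .n))))

def s2_170_154 : T TT 256 :=
  (.f k84 k87 0 (.q k102 [(.s k68 k119 4 (.s k70 k118 3 (.s k71 k69 0 (.d k116 k100 k101 3 4)))),
  (.s k118 k70 3 (.s k252 k168 13 (.s k51 k185 10 (.s k17 k34 4 (.d k153 k221 k204 9 14))))), (.s
  k68 k119 4 (.s k204 k136 9 (.s k153 k51 14 (.s k220 k19 10 (.d k252 k236 k168 3 13)))))] (.c k138
  (.q k186 [(.s k68 k119 4 (.s k70 k118 3 (.s k71 k69 0 (.d k116 k100 k101 3 4)))), (.s k252 k168 13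
  (.s k169 k3 14 (.s k236 k35 10 (.s k204 k220 3 (.s k51 k153 14 (.d k118 k70 k185 3 10))))))] (.c
  k70 (.q k206 [(.s k252 k168 13 (.s k169 k3 14 (.s k236 k35 10 (.s k204 k220 3 (.d k68 k119 k136 4
  9))))), (.s k68 k119 4 (.s k100 k116 3 (.s k103 k101 0 (.s k204 k136 9 (.s k207 k205 0 (.d k51
  k153 k155 14 13)))))), (.s k68 k119 4 (.s k100 k116 3 (.s k168 k252 13 (.s k32 k236 9 (.s k48 k16
  3 (.s k117 k255 10 (.d k101 k103 k69 0 3)))))))] (.c k51 (.l (.s k68 k119 4 (.s k204 k136 9 (.s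
  k252 k168 13 (.s k169 k3 14 (.d k236 k35 k220 10 3)))))) (.c k68 (.q k101 [(.s k100 k103 0 (.s
  k168 k252 13 (.s k32 k236 9 (.s k48 k16 3 (.d k117 k69 k255 3 10))))), (.s k69 k117 3 (.s k252
  k168 13 (.s k169 k3 14 (.s k1 k253 13 (.s k33 k237 9 (.s k49 k17 3 (.d k205 k137 k153 9 13))))))),
  (.s k71 k116 4 (.s k100 k103 0 (.s k117 k69 3 (.s k48 k255 10 (.s k16 k32 3 (.d k152 k220 k204 9
  13))))))] (.c k69 (.l (.s k71 k116 4 (.s k252 k168 13 (.s k169 k3 14 (.s k236 k35 10 (.s k204 k220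
  3 (.s k205 k207 0 (.d k153 k51 k49 14 13)))))))) (.c k71 (.l (.s k69 k117 3 (.s k252 k168 13 (.s
  k169 k3 14 (.s k1 k253 13 (.s k33 k237 9 (.s k49 k17 3 (.d k205 k137 k153 9 13)))))))) (.c k117
  (.l (.s k252 k168 13 (.s k169 k3 14 (.s k236 k35 10 (.s k204 k220 3 (.s k205 k207 0 (.d k153 k51
  k49 14 13))))))) (.c k204 (.l (.s k71 k116 4 (.s k100 k103 0 (.s k117 k69 3 (.s k48 k255 10 (.s
  k32 k16 3 (.d k168 k236 k252 9 13))))))) (.c k255 (.l (.s k69 k117 3 (.s k116 k71 4 (.s k252 k168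
  13 (.s k48 k184 9 (.s k16 k32 3 (.s k152 k220 9 (.d k100 k103 k204 0 13)))))))) .n)))))) (.c k119
  (.q k103 [(.s k101 k100 0 (.s k252 k168 13 (.s k169 k3 14 (.s k253 k1 13 (.s k255 k254 0 (.d k117
  k69 k48 3 10)))))), (.s k100 k101 0 (.s k68 k116 3 (.s k204 k136 9 (.s k207 k205 0 (.d k51 k153
  k155 14 13))))), (.s k252 k168 13 (.s k169 k3 14 (.s k236 k35 10 (.s k204 k220 3 (.s k51 k153 14
  (.d k207 k155 k205 13 0)))))), (.s k101 k100 0 (.s k116 k71 4 (.s k252 k168 13 (.s k48 k184 9 (.d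
  k117 k69 k255 3 10)))))] .n) (.c k204 (.l (.s k68 k119 4 (.s k116 k100 3 (.s k252 k168 13 (.s k48
  k184 9 (.s k117 k255 10 (.d k101 k71 k69 4 3))))))) .n))))) (.c k118 (.l (.s k68 k119 4 (.s k204
  k136 9 (.s k153 k51 14 (.s k220 k19 10 (.d k252 k236 k168 3 13)))))) (.c k206 (.l (.s k70 k118 3
  (.s k68 k119 4 (.s k71 k69 0 (.d k116 k100 k101 3 4))))) .n)))) (.c k186 (.q k138 [(.s k68 k119 4
  (.s k69 k207 10 (.d k70 k71 k118 0 3))), (.s k118 k70 3 (.s k252 k168 13 (.s k51 k185 10 (.s k17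
  k34 4 (.d k153 k221 k204 9 14)))))] (.c k70 (.l (.s k68 k119 4 (.s k69 k207 10 (.s k100 k116 3 (.d
  k101 k103 k117 0 3))))) (.c k118 (.l (.s k68 k119 4 (.s k69 k207 10 (.s k71 k70 0 (.d k101 k117
  k116 3 4))))) .n))) .n))))

def s2_170_155 : T TT 256 :=
  (.q k4 [(.s k84 k87 0 (.s k244 k164 11 (.s k165 k7 12 (.s k245 k5 11 (.d k247 k246 k166 0 12))))),
  (.s k12 k8 1 (.s k166 k247 12 (.s k6 k246 11 (.s k3 k9 2 (.s k89 k243 14 (.s k92 k83 2 (.d k252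
  k172 k169 11 14))))))), (.s k12 k8 1 (.s k84 k87 0 (.s k164 k244 11 (.s k88 k240 13 (.s k92 k80 1
  (.d k252 k172 k168 11 13))))))] (.c k244 (.l (.s k12 k8 1 (.s k84 k87 0 (.s k166 k247 12 (.s k89
  k243 14 (.s k92 k83 2 (.d k252 k172 k168 11 13))))))) .n))

def s2_170_156 : T TT 256 :=
  (.q k4 [(.s k84 k87 0 (.s k244 k164 11 (.s k165 k7 12 (.s k245 k5 11 (.d k247 k246 k166 0 12))))),
  (.s k12 k8 1 (.s k84 k87 0 (.s k164 k244 11 (.s k88 k240 13 (.s k92 k80 1 (.d k252 k172 k168 11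
  13)))))), (.s k12 k8 1 (.s k166 k247 12 (.s k6 k246 11 (.s k3 k9 2 (.s k89 k243 14 (.s k92 k83 2
  (.d k252 k172 k169 11 14)))))))] (.c k244 (.l (.s k12 k8 1 (.s k84 k87 0 (.s k166 k247 12 (.s k89
  k243 14 (.s k92 k83 2 (.d k252 k172 k168 11 13))))))) .n))

def s2_170_157 : T TT 256 :=
  (.q k4 [(.s k84 k87 0 (.s k244 k164 11 (.s k165 k7 12 (.s k245 k5 11 (.d k247 k246 k166 0 12))))),
  (.s k12 k8 1 (.s k84 k87 0 (.s k164 k244 11 (.s k88 k240 13 (.s k92 k80 1 (.d k252 k172 k168 11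
  13)))))), (.s k12 k8 1 (.s k166 k247 12 (.s k6 k246 11 (.s k3 k9 2 (.s k89 k243 14 (.s k92 k83 2
  (.d k252 k172 k169 11 14)))))))] (.c k244 (.l (.s k12 k8 1 (.s k84 k87 0 (.s k166 k247 12 (.s k89
  k243 14 (.s k92 k83 2 (.d k252 k172 k168 11 13))))))) .n))

def s2_170_158 : T TT 256 :=
  (.q k4 [(.s k84 k87 0 (.s k244 k164 11 (.s k165 k7 12 (.s k245 k5 11 (.d k247 k246 k166 0 12))))),
  (.s k12 k8 1 (.s k84 k87 0 (.s k164 k244 11 (.s k88 k240 13 (.s k92 k80 1 (.d k252 k172 k168 11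
  13)))))), (.s k12 k8 1 (.s k166 k247 12 (.s k6 k246 11 (.s k3 k9 2 (.s k89 k243 14 (.s k92 k83 2
  (.d k252 k172 k169 11 14)))))))] (.c k244 (.l (.s k12 k8 1 (.s k84 k87 0 (.s k166 k247 12 (.s k89
  k243 14 (.s k92 k83 2 (.d k252 k172 k168 11 13))))))) .n))

def s2_170_159 : T TT 256 :=
  (.q k4 [(.s k84 k87 0 (.s k244 k164 11 (.s k165 k7 12 (.s k245 k5 11 (.d k247 k246 k166 0 12))))),
  (.s k12 k8 1 (.s k84 k87 0 (.s k164 k244 11 (.s k88 k240 13 (.s k92 k80 1 (.d k252 k172 k168 11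
  13)))))), (.s k12 k8 1 (.s k166 k247 12 (.s k6 k246 11 (.s k3 k9 2 (.s k89 k243 14 (.s k92 k83 2
  (.d k252 k172 k169 11 14)))))))] (.c k244 (.l (.s k12 k8 1 (.s k84 k87 0 (.s k166 k247 12 (.s k89
  k243 14 (.s k92 k83 2 (.d k252 k172 k168 11 13))))))) .n))

def s2_170_160 : T TT 256 :=
  (.q k165 [(.s k5 k245 11 (.s k7 k244 12 (.s k87 k84 0 (.s k247 k167 11 (.d k4 k6 k166 0 12))))),
  (.s k5 k245 11 (.s k15 k10 2 (.s k84 k87 0 (.s k90 k240 14 (.s k94 k82 1 (.d k252 k173 k168 12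
  13)))))), (.s k84 k87 0 (.s k244 k7 12 (.s k252 k168 13 (.s k169 k3 14 (.s k173 k161 1 (.s k15 k94
  12 (.d k240 k248 k90 1 14))))))), (.s k5 k245 11 (.s k7 k244 12 (.s k15 k10 2 (.s k3 k11 1 (.s k90
  k240 14 (.s k94 k82 1 (.d k252 k173 k169 12 14)))))))] .n)

def s2_170_161 : T TT 256 :=
  (.q k4 [(.s k84 k87 0 (.s k244 k164 11 (.s k165 k7 12 (.s k245 k5 11 (.d k247 k246 k166 0 12))))),
  (.s k12 k8 1 (.s k84 k87 0 (.s k164 k244 11 (.s k88 k240 13 (.s k92 k80 1 (.d k252 k172 k168 11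
  13)))))), (.s k12 k8 1 (.s k166 k247 12 (.s k6 k246 11 (.s k3 k9 2 (.s k89 k243 14 (.s k92 k83 2
  (.d k252 k172 k169 11 14)))))))] (.c k244 (.l (.s k12 k8 1 (.s k84 k87 0 (.s k166 k247 12 (.s k89
  k243 14 (.s k92 k83 2 (.d k252 k172 k168 11 13))))))) .n))

def s2_170_162 : T TT 256 :=
  (.f k84 k87 0 (.q k166 [(.s k4 k247 12 (.s k6 k246 11 (.s k7 k5 0 (.d k244 k164 k165 11 12)))),
  (.s k246 k6 11 (.s k252 k168 13 (.s k169 k3 14 (.s k172 k163 2 (.s k12 k92 11 (.d k243 k249 k89 2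
  14)))))), (.s k4 k247 12 (.s k12 k8 1 (.s k89 k243 14 (.s k92 k83 2 (.d k252 k172 k168 11 13)))))]
  (.c k82 (.q k242 [(.s k4 k247 12 (.s k6 k246 11 (.s k7 k5 0 (.d k244 k164 k165 11 12)))), (.s k246
  k6 11 (.s k252 k168 13 (.s k169 k3 14 (.s k253 k1 13 (.d k254 k255 k250 0 1))))), (.s k4 k247 12
  (.s k12 k8 1 (.s k89 k243 14 (.s k92 k83 2 (.d k252 k172 k168 11 13)))))] .n) (.c k242 (.q k82
  [(.s k90 k94 1 (.s k80 k95 2 (.s k83 k81 0 (.d k92 k88 k89 1 2)))), (.s k4 k247 12 (.s k6 k246 11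
  (.s k7 k5 0 (.d k244 k164 k165 11 12))))] .n) .n))))

def s2_170_163 : T TT 256 :=
  (.q k4 [(.s k84 k87 0 (.s k244 k164 11 (.s k165 k7 12 (.s k245 k5 11 (.d k247 k246 k166 0 12))))),
  (.s k12 k8 1 (.s k84 k87 0 (.s k164 k244 11 (.s k88 k240 13 (.s k92 k80 1 (.d k252 k172 k168 11
  13)))))), (.s k12 k8 1 (.s k166 k247 12 (.s k6 k246 11 (.s k3 k9 2 (.s k89 k243 14 (.s k92 k83 2
  (.d k252 k172 k169 11 14)))))))] (.c k244 (.l (.s k12 k8 1 (.s k84 k87 0 (.s k166 k247 12 (.s k89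
  k243 14 (.s k252 k168 13 (.d k92 k83 k172 2 11))))))) .n))

def s2_170_164 : T TT 256 :=
  (.q k16 [(.s k84 k87 0 (.s k154 k223 10 (.s k18 k222 9 (.s k19 k17 0 (.d k220 k152 k153 9 10))))),
  (.s k48 k32 3 (.s k84 k87 0 (.s k152 k220 9 (.s k100 k204 13 (.s k116 k68 3 (.d k252 k184 k168 9
  13)))))), (.s k48 k32 3 (.s k154 k223 10 (.s k18 k222 9 (.s k3 k33 4 (.s k101 k207 14 (.s k116 k71
  4 (.d k252 k184 k169 9 14)))))))] (.c k220 (.l (.s k48 k32 3 (.s k84 k87 0 (.s k154 k223 10 (.s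
  k101 k207 14 (.s k116 k71 4 (.d k252 k184 k168 9 13))))))) .n))

def s2_170_165 : T TT 256 :=
  (.f k84 k87 0 (.q k80 [(.s k92 k88 1 (.s k89 k83 2 (.s k93 k81 1 (.d k95 k94 k90 0 2)))), (.s k88
  k92 1 (.s k168 k252 13 (.s k8 k248 11 (.s k12 k4 1 (.d k240 k160 k164 11 13))))), (.s k90 k95 2
  (.s k252 k168 13 (.s k169 k3 14 (.s k248 k11 12 (.d k240 k160 k244 11 1)))))] (.c k160 (.q k175
  [(.s k92 k88 1 (.s k89 k83 2 (.s k93 k81 1 (.d k95 k94 k90 0 2)))), (.s k95 k90 2 (.s k252 k168 13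
  (.s k169 k3 14 (.s k253 k1 13 (.d k255 k15 k254 11 0)))))] (.c k90 (.l (.s k92 k88 1 (.s k89 k83 2
  (.s k81 k93 1 (.s k243 k162 12 (.s k252 k168 13 (.d k12 k172 k166 11 14))))))) (.c k95 (.l (.s k92
  k88 1 (.s k83 k89 2 (.s k82 k81 0 (.s k252 k168 13 (.s k172 k12 11 (.s k173 k174 0 (.d k94 k90 k15
  1 12)))))))) .n))) (.c k175 (.l (.s k160 k240 11 (.s k90 k95 2 (.s k82 k94 1 (.s k83 k81 0 (.d k92
  k88 k89 1 2)))))) .n))))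

def s2_170_166 : T TT 256 :=
  (.f k84 k87 0 (.q k90 [(.s k80 k95 2 (.s k82 k94 1 (.s k83 k81 0 (.d k92 k88 k89 1 2)))), (.s k94
  k82 1 (.s k252 k168 13 (.s k15 k173 12 (.s k5 k10 2 (.d k165 k245 k240 11 14))))), (.s k80 k95 2
  (.s k240 k160 11 (.s k165 k15 14 (.s k244 k7 12 (.d k252 k248 k168 1 13)))))] (.c k162 (.q k174
  [(.s k80 k95 2 (.s k82 k94 1 (.s k83 k81 0 (.d k92 k88 k89 1 2)))), (.s k252 k168 13 (.s k169 k3
  14 (.s k248 k11 12 (.s k240 k244 1 (.s k15 k165 14 (.d k94 k82 k173 1 12))))))] (.c k82 (.q k242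
  [(.s k252 k168 13 (.s k169 k3 14 (.s k248 k11 12 (.s k240 k244 1 (.d k80 k95 k160 2 11))))), (.s
  k80 k95 2 (.s k88 k92 1 (.s k91 k89 0 (.s k240 k160 11 (.s k243 k241 0 (.d k15 k165 k167 14
  13)))))), (.s k80 k95 2 (.s k88 k92 1 (.s k168 k252 13 (.s k8 k248 11 (.s k12 k4 1 (.s k93 k255 12
  (.d k89 k91 k81 0 1)))))))] (.c k15 (.l (.s k80 k95 2 (.s k240 k160 11 (.s k252 k168 13 (.s k169
  k3 14 (.d k248 k11 k244 12 1)))))) (.c k80 (.q k89 [(.s k88 k91 0 (.s k168 k252 13 (.s k8 k248 11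
  (.s k12 k4 1 (.d k93 k81 k255 1 12))))), (.s k81 k93 1 (.s k252 k168 13 (.s k169 k3 14 (.s k1 k253
  13 (.s k9 k249 11 (.s k13 k5 1 (.d k241 k161 k165 11 13))))))), (.s k83 k92 2 (.s k88 k91 0 (.s
  k93 k81 1 (.s k12 k255 12 (.s k4 k8 1 (.d k164 k244 k240 11 13))))))] (.c k81 (.l (.s k83 k92 2
  (.s k252 k168 13 (.s k169 k3 14 (.s k248 k11 12 (.s k240 k244 1 (.s k241 k243 0 (.d k165 k15 k13
  14 13)))))))) (.c k83 (.l (.s k81 k93 1 (.s k252 k168 13 (.s k169 k3 14 (.s k1 k253 13 (.s k9 k249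
  11 (.s k13 k5 1 (.d k241 k161 k165 11 13)))))))) (.c k93 (.l (.s k252 k168 13 (.s k169 k3 14 (.s
  k248 k11 12 (.s k240 k244 1 (.s k241 k243 0 (.d k165 k15 k13 14 13))))))) (.c k240 (.l (.s k83 k92
  2 (.s k88 k91 0 (.s k93 k81 1 (.s k12 k255 12 (.s k8 k4 1 (.d k168 k248 k252 11 13))))))) (.c k255
  (.l (.s k81 k93 1 (.s k92 k83 2 (.s k252 k168 13 (.s k12 k172 11 (.s k4 k8 1 (.s k164 k244 11 (.d
  k88 k91 k240 0 13)))))))) .n)))))) (.c k95 (.q k91 [(.s k89 k88 0 (.s k252 k168 13 (.s k169 k3 14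
  (.s k253 k1 13 (.s k255 k254 0 (.d k93 k81 k12 1 12)))))), (.s k88 k89 0 (.s k80 k92 1 (.s k240
  k160 11 (.s k243 k241 0 (.d k15 k165 k167 14 13))))), (.s k252 k168 13 (.s k169 k3 14 (.s k248 k11
  12 (.s k240 k244 1 (.s k15 k165 14 (.d k243 k167 k241 13 0)))))), (.s k89 k88 0 (.s k92 k83 2 (.s
  k252 k168 13 (.s k12 k172 11 (.d k93 k81 k255 1 12)))))] .n) (.c k240 (.l (.s k80 k95 2 (.s k92
  k88 1 (.s k252 k168 13 (.s k12 k172 11 (.s k93 k255 12 (.d k89 k83 k81 2 1))))))) .n))))) (.c k94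
  (.l (.s k80 k95 2 (.s k240 k160 11 (.s k165 k15 14 (.s k244 k7 12 (.d k252 k248 k168 1 13))))))
  (.c k242 (.l (.s k82 k94 1 (.s k80 k95 2 (.s k83 k81 0 (.d k92 k88 k89 1 2))))) .n)))) (.c k174
  (.q k162 [(.s k80 k95 2 (.s k81 k243 12 (.d k82 k83 k94 0 1))), (.s k94 k82 1 (.s k252 k168 13 (.s
  k15 k173 12 (.s k5 k10 2 (.d k165 k245 k240 11 14)))))] (.c k82 (.l (.s k80 k95 2 (.s k81 k243 12
  (.s k88 k92 1 (.d k89 k91 k93 0 1))))) (.c k94 (.l (.s k80 k95 2 (.s k81 k243 12 (.s k83 k82 0 (.d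
  k89 k93 k92 1 2))))) .n))) .n))))

def s2_170_167 : T TT 256 :=
  (.q k16 [(.s k84 k87 0 (.s k220 k152 9 (.s k153 k19 10 (.s k221 k17 9 (.d k223 k222 k154 0
  10))))), (.s k48 k32 3 (.s k154 k223 10 (.s k18 k222 9 (.s k3 k33 4 (.s k101 k207 14 (.s k116 k71
  4 (.d k252 k184 k169 9 14))))))), (.s k48 k32 3 (.s k84 k87 0 (.s k152 k220 9 (.s k100 k204 13 (.s
  k116 k68 3 (.d k252 k184 k168 9 13))))))] (.c k220 (.l (.s k48 k32 3 (.s k84 k87 0 (.s k154 k223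
  10 (.s k101 k207 14 (.s k116 k71 4 (.d k252 k184 k168 9 13))))))) .n))

def s2_170_168 : T TT 256 :=
  (.f k84 k87 0 (.q k4 [(.s k166 k247 12 (.s k6 k246 11 (.s k7 k5 0 (.d k244 k164 k165 11 12)))),
  (.s k12 k8 1 (.s k164 k244 11 (.s k88 k240 13 (.s k92 k80 1 (.s k89 k83 2 (.s k81 k93 1 (.d k243
  k162 k166 12 14))))))), (.s k12 k8 1 (.s k166 k247 12 (.s k89 k243 14 (.s k92 k83 2 (.s k93 k81 1
  (.s k95 k94 0 (.d k80 k88 k90 1 2)))))))] (.c k166 (.f k244 k164 11 (.f k165 k7 12 (.l (.s k5 k245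
  11 (.s k15 k10 2 (.s k90 k240 14 (.s k80 k95 2 (.s k82 k94 1 (.s k83 k81 0 (.d k92 k88 k89 1
  2)))))))))) (.c k169 (.q k171 [(.s k166 k247 12 (.s k6 k246 11 (.s k7 k5 0 (.d k244 k164 k165 11
  12)))), (.s k12 k8 1 (.s k164 k244 11 (.s k88 k240 13 (.s k92 k80 1 (.s k89 k83 2 (.s k81 k93 1
  (.d k243 k162 k166 12 14))))))), (.s k12 k8 1 (.s k166 k247 12 (.s k89 k243 14 (.s k92 k83 2 (.s
  k93 k81 1 (.s k95 k94 0 (.d k80 k88 k90 1 2)))))))] (.c k166 (.f k244 k164 11 (.f k165 k7 12 (.l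
  (.s k5 k245 11 (.s k15 k10 2 (.s k90 k240 14 (.s k80 k95 2 (.s k82 k94 1 (.s k83 k81 0 (.d k92 k88
  k89 1 2)))))))))) .n)) (.c k171 (.q k169 [(.s k166 k247 12 (.s k6 k246 11 (.s k7 k5 0 (.d k244
  k164 k165 11 12)))), (.s k3 k252 14 (.s k12 k8 1 (.s k6 k9 2 (.d k166 k246 k247 11 12)))), (.s k3
  k252 14 (.s k12 k8 1 (.s k6 k9 2 (.s k7 k5 0 (.d k244 k164 k165 11 12)))))] (.c k3 (.q k255 [(.s
  k166 k247 12 (.s k6 k246 11 (.s k7 k5 0 (.d k244 k164 k165 11 12)))), (.s k12 k8 1 (.s k93 k174 12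
  (.s k89 k81 1 (.s k92 k83 2 (.s k95 k94 0 (.d k80 k88 k90 1 2))))))] (.c k166 (.l (.s k12 k8 1 (.s
  k164 k244 11 (.s k88 k240 13 (.s k92 k80 1 (.s k89 k83 2 (.d k93 k81 k174 1 12))))))) .n)) (.c k6
  (.l (.s k12 k8 1 (.s k166 k247 12 (.s k172 k163 2 (.d k252 k92 k3 11 14))))) (.c k255 (.l (.s k3
  k252 14 (.s k12 k8 1 (.s k6 k9 2 (.d k166 k246 k247 11 12))))) .n)))) .n)))))

def s2_170_169 : T TT 256 :=
  (.f k84 k87 0 (.f k168 k252 13 (.q k4 [(.s k12 k8 1 (.s k164 k244 11 (.s k240 k88 13 (.d k160 k172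
  k80 1 11)))), (.s k166 k247 12 (.s k6 k246 11 (.s k7 k5 0 (.d k244 k164 k165 11 12)))), (.s k12 k8
  1 (.s k166 k247 12 (.s k89 k243 14 (.s k92 k83 2 (.s k80 k88 1 (.s k93 k81 1 (.d k95 k94 k90 0
  2)))))))] .n)))

def s2_170_171 : T TT 256 :=
  (.f k84 k87 0 (.f k168 k252 13 (.q k4 [(.s k164 k244 11 (.s k160 k172 1 (.s k240 k80 11 (.d k12 k8
  k88 1 13)))), (.s k166 k247 12 (.s k6 k246 11 (.s k7 k5 0 (.d k244 k164 k165 11 12)))), (.s k12 k8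
  1 (.s k166 k247 12 (.s k89 k243 14 (.s k92 k83 2 (.s k80 k88 1 (.s k93 k81 1 (.d k95 k94 k90 0
  2)))))))] (.c k3 (.q k255 [(.s k12 k8 1 (.s k93 k174 12 (.s k89 k81 1 (.d k166 k247 k243 12
  14)))), (.s k164 k244 11 (.s k160 k172 1 (.s k240 k80 11 (.d k12 k8 k88 1 13)))), (.s k166 k247 12
  (.s k6 k246 11 (.s k7 k5 0 (.d k244 k164 k165 11 12))))] .n) (.c k255 (.q k3 [(.s k12 k8 1 (.s k6
  k9 2 (.d k166 k246 k247 11 12))), (.s k164 k244 11 (.s k160 k172 1 (.s k240 k80 11 (.d k12 k8 k88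
  1 13)))), (.s k166 k247 12 (.s k6 k246 11 (.s k7 k5 0 (.d k244 k164 k165 11 12))))] (.c k253 (.q
  k254 [(.s k12 k8 1 (.s k6 k9 2 (.d k166 k246 k247 11 12))), (.s k164 k244 11 (.s k160 k172 1 (.s
  k240 k80 11 (.d k12 k8 k88 1 13)))), (.s k166 k247 12 (.s k6 k246 11 (.s k7 k5 0 (.d k244 k164
  k165 11 12))))] .n) (.c k254 (.q k253 [(.s k12 k8 1 (.s k6 k9 2 (.d k166 k246 k247 11 12))), (.s
  k164 k244 11 (.s k160 k172 1 (.s k240 k80 11 (.d k12 k8 k88 1 13)))), (.s k164 k244 11 (.s k166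
  k247 12 (.s k169 k1 13 (.d k172 k160 k163 1 2))))] .n) .n))) .n)))))

def s2_170_172 : T TT 256 :=
  (.q k16 [(.s k84 k87 0 (.s k220 k152 9 (.s k153 k19 10 (.s k221 k17 9 (.d k223 k222 k154 0
  10))))), (.s k48 k32 3 (.s k84 k87 0 (.s k152 k220 9 (.s k100 k204 13 (.s k116 k68 3 (.d k252 k184
  k168 9 13)))))), (.s k48 k32 3 (.s k154 k223 10 (.s k18 k222 9 (.s k3 k33 4 (.s k101 k207 14 (.s
  k116 k71 4 (.d k252 k184 k169 9 14)))))))] (.c k220 (.l (.s k48 k32 3 (.s k84 k87 0 (.s k154 k223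
  10 (.s k101 k207 14 (.s k116 k71 4 (.d k252 k184 k168 9 13))))))) .n))

def s2_170_173 : T TT 256 :=
  (.q k4 [(.s k84 k87 0 (.s k244 k164 11 (.s k165 k7 12 (.s k245 k5 11 (.d k247 k246 k166 0 12))))),
  (.s k12 k8 1 (.s k84 k87 0 (.s k164 k244 11 (.s k88 k240 13 (.s k92 k80 1 (.d k252 k172 k168 11
  13)))))), (.s k12 k8 1 (.s k166 k247 12 (.s k6 k246 11 (.s k3 k9 2 (.s k89 k243 14 (.s k92 k83 2
  (.d k252 k172 k169 11 14)))))))] (.c k244 (.l (.s k12 k8 1 (.s k84 k87 0 (.s k166 k247 12 (.s k89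
  k243 14 (.s k92 k83 2 (.d k252 k172 k168 11 13))))))) .n))

def s2_170_174 : T TT 256 :=
  (.q k166 [(.s k4 k247 12 (.s k6 k246 11 (.s k7 k5 0 (.s k84 k87 0 (.d k244 k164 k165 11 12))))),
  (.s k84 k87 0 (.s k246 k6 11 (.s k252 k168 13 (.s k243 k249 2 (.s k81 k162 12 (.d k89 k93 k12 1
  14)))))), (.s k4 k247 12 (.s k12 k8 1 (.s k84 k87 0 (.s k89 k243 14 (.s k92 k83 2 (.d k252 k172
  k168 11 13)))))), (.s k4 k247 12 (.s k6 k246 11 (.s k12 k8 1 (.s k3 k9 2 (.s k89 k243 14 (.s k92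
  k83 2 (.d k252 k172 k169 11 14)))))))] .n)

def s2_170_175 : T TT 256 :=
  (.q k165 [(.s k84 k87 0 (.s k244 k7 12 (.s k4 k164 11 (.s k245 k5 11 (.d k247 k246 k166 0 12))))),
  (.s k5 k245 11 (.s k15 k10 2 (.s k84 k87 0 (.s k90 k240 14 (.s k94 k82 1 (.d k252 k173 k168 12
  13)))))), (.s k84 k87 0 (.s k244 k7 12 (.s k252 k168 13 (.s k240 k248 1 (.s k80 k160 11 (.d k90
  k95 k15 2 14)))))), (.s k5 k245 11 (.s k7 k244 12 (.s k15 k10 2 (.s k3 k11 1 (.s k90 k240 14 (.s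
  k94 k82 1 (.d k252 k173 k169 12 14)))))))] .n)

def s2_170_176 : T TT 256 :=
  (.q k4 [(.s k84 k87 0 (.s k166 k247 12 (.s k6 k246 11 (.s k7 k5 0 (.d k244 k164 k165 11 12))))),
  (.s k12 k8 1 (.s k84 k87 0 (.s k164 k244 11 (.s k88 k240 13 (.s k92 k80 1 (.d k252 k172 k168 11
  13)))))), (.s k12 k8 1 (.s k166 k247 12 (.s k6 k246 11 (.s k3 k9 2 (.s k89 k243 14 (.s k92 k83 2
  (.d k252 k172 k169 11 14)))))))] (.c k244 (.l (.s k12 k8 1 (.s k84 k87 0 (.s k166 k247 12 (.s k89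
  k243 14 (.s k92 k83 2 (.d k252 k172 k168 11 13))))))) .n))

def s2_170_177 : T TT 256 :=
  (.q k4 [(.s k84 k87 0 (.s k244 k164 11 (.s k165 k7 12 (.s k245 k5 11 (.d k247 k246 k166 0 12))))),
  (.s k12 k8 1 (.s k84 k87 0 (.s k164 k244 11 (.s k88 k240 13 (.s k92 k80 1 (.d k252 k172 k168 11
  13)))))), (.s k12 k8 1 (.s k166 k247 12 (.s k6 k246 11 (.s k3 k9 2 (.s k89 k243 14 (.s k92 k83 2
  (.d k252 k172 k169 11 14)))))))] (.c k244 (.l (.s k12 k8 1 (.s k84 k87 0 (.s k166 k247 12 (.s k89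
  k243 14 (.s k92 k83 2 (.d k252 k172 k168 11 13))))))) .n))

def s2_170_178 : T TT 256 :=
  (.q k4 [(.s k84 k87 0 (.s k244 k164 11 (.s k165 k7 12 (.s k245 k5 11 (.d k247 k246 k166 0 12))))),
  (.s k12 k8 1 (.s k84 k87 0 (.s k164 k244 11 (.s k88 k240 13 (.s k92 k80 1 (.d k252 k172 k168 11
  13)))))), (.s k12 k8 1 (.s k166 k247 12 (.s k6 k246 11 (.s k3 k9 2 (.s k89 k243 14 (.s k92 k83 2
  (.d k252 k172 k169 11 14)))))))] (.c k244 (.l (.s k12 k8 1 (.s k84 k87 0 (.s k166 k247 12 (.s k89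
  k243 14 (.s k92 k83 2 (.d k252 k172 k168 11 13))))))) .n))

def s2_170_179 : T TT 256 :=
  (.q k4 [(.s k84 k87 0 (.s k244 k164 11 (.s k165 k7 12 (.s k245 k5 11 (.d k247 k246 k166 0 12))))),
  (.s k12 k8 1 (.s k84 k87 0 (.s k164 k244 11 (.s k88 k240 13 (.s k92 k80 1 (.d k252 k172 k168 11
  13)))))), (.s k12 k8 1 (.s k166 k247 12 (.s k6 k246 11 (.s k3 k9 2 (.s k89 k243 14 (.s k92 k83 2
  (.d k252 k172 k169 11 14)))))))] (.c k244 (.l (.s k12 k8 1 (.s k84 k87 0 (.s k166 k247 12 (.s k89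
  k243 14 (.s k92 k83 2 (.d k252 k172 k168 11 13))))))) .n))

def s2_170_180 : T TT 256 :=
  (.q k4 [(.s k84 k87 0 (.s k166 k247 12 (.s k6 k246 11 (.s k7 k5 0 (.d k244 k164 k165 11 12))))),
  (.s k12 k8 1 (.s k84 k87 0 (.s k164 k244 11 (.s k88 k240 13 (.s k92 k80 1 (.d k252 k172 k168 11
  13)))))), (.s k12 k8 1 (.s k166 k247 12 (.s k6 k246 11 (.s k3 k9 2 (.s k89 k243 14 (.s k92 k83 2
  (.d k252 k172 k169 11 14)))))))] (.c k244 (.l (.s k12 k8 1 (.s k84 k87 0 (.s k166 k247 12 (.s k89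
  k243 14 (.s k92 k83 2 (.d k252 k172 k168 11 13))))))) .n))

def s2_170_181 : T TT 256 :=
  (.q k4 [(.s k84 k87 0 (.s k244 k164 11 (.s k165 k7 12 (.s k245 k5 11 (.d k247 k246 k166 0 12))))),
  (.s k12 k8 1 (.s k84 k87 0 (.s k164 k244 11 (.s k88 k240 13 (.s k92 k80 1 (.d k252 k172 k168 11
  13)))))), (.s k12 k8 1 (.s k166 k247 12 (.s k6 k246 11 (.s k3 k9 2 (.s k89 k243 14 (.s k92 k83 2
  (.d k252 k172 k169 11 14)))))))] (.c k244 (.l (.s k12 k8 1 (.s k84 k87 0 (.s k166 k247 12 (.s k89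
  k243 14 (.s k92 k83 2 (.d k252 k172 k168 11 13))))))) .n))

def s2_170_182 : T TT 256 :=
  (.q k4 [(.s k84 k87 0 (.s k244 k164 11 (.s k165 k7 12 (.s k245 k5 11 (.d k247 k246 k166 0 12))))),
  (.s k12 k8 1 (.s k84 k87 0 (.s k164 k244 11 (.s k88 k240 13 (.s k92 k80 1 (.d k252 k172 k168 11
  13)))))), (.s k12 k8 1 (.s k166 k247 12 (.s k6 k246 11 (.s k3 k9 2 (.s k89 k243 14 (.s k92 k83 2
  (.d k252 k172 k169 11 14)))))))] (.c k244 (.l (.s k12 k8 1 (.s k84 k87 0 (.s k166 k247 12 (.s k89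
  k243 14 (.s k92 k83 2 (.d k252 k172 k168 11 13))))))) .n))

def s2_170_183 : T TT 256 :=
  (.q k4 [(.s k84 k87 0 (.s k244 k164 11 (.s k165 k7 12 (.s k245 k5 11 (.d k247 k246 k166 0 12))))),
  (.s k12 k8 1 (.s k84 k87 0 (.s k164 k244 11 (.s k88 k240 13 (.s k92 k80 1 (.d k252 k172 k168 11
  13)))))), (.s k12 k8 1 (.s k166 k247 12 (.s k6 k246 11 (.s k3 k9 2 (.s k89 k243 14 (.s k92 k83 2
  (.d k252 k172 k169 11 14)))))))] (.c k244 (.l (.s k12 k8 1 (.s k84 k87 0 (.s k166 k247 12 (.s k89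
  k243 14 (.s k92 k83 2 (.d k252 k172 k168 11 13))))))) .n))

def s2_170_184 : T TT 256 :=
  (.q k4 [(.s k84 k87 0 (.s k244 k164 11 (.s k165 k7 12 (.s k245 k5 11 (.d k247 k246 k166 0 12))))),
  (.s k12 k8 1 (.s k84 k87 0 (.s k164 k244 11 (.s k88 k240 13 (.s k92 k80 1 (.d k252 k172 k168 11
  13)))))), (.s k12 k8 1 (.s k166 k247 12 (.s k6 k246 11 (.s k3 k9 2 (.s k89 k243 14 (.s k92 k83 2
  (.d k252 k172 k169 11 14)))))))] (.c k244 (.l (.s k12 k8 1 (.s k84 k87 0 (.s k166 k247 12 (.s k89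
  k243 14 (.s k92 k83 2 (.d k252 k172 k168 11 13))))))) .n))

def s2_170_185 : T TT 256 :=
  (.q k4 [(.s k84 k87 0 (.s k244 k164 11 (.s k165 k7 12 (.s k245 k5 11 (.d k247 k246 k166 0 12))))),
  (.s k12 k8 1 (.s k84 k87 0 (.s k164 k244 11 (.s k88 k240 13 (.s k92 k80 1 (.d k252 k172 k168 11
  13)))))), (.s k12 k8 1 (.s k166 k247 12 (.s k6 k246 11 (.s k3 k9 2 (.s k89 k243 14 (.s k92 k83 2
  (.d k252 k172 k169 11 14)))))))] (.c k244 (.l (.s k12 k8 1 (.s k84 k87 0 (.s k166 k247 12 (.s k89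
  k243 14 (.s k92 k83 2 (.d k252 k172 k168 11 13))))))) .n))

def s2_170_186 : T TT 256 :=
  (.q k154 [(.s k16 k223 10 (.s k18 k222 9 (.s k19 k17 0 (.s k84 k87 0 (.d k220 k152 k153 9 10))))),
  (.s k84 k87 0 (.s k222 k18 9 (.s k252 k168 13 (.s k207 k237 4 (.s k69 k138 10 (.d k101 k117 k48 3
  14)))))), (.s k16 k223 10 (.s k48 k32 3 (.s k84 k87 0 (.s k101 k207 14 (.s k116 k71 4 (.d k252
  k184 k168 9 13)))))), (.s k16 k223 10 (.s k18 k222 9 (.s k48 k32 3 (.s k3 k33 4 (.s k101 k207 14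
  (.s k116 k71 4 (.d k252 k184 k169 9 14)))))))] .n)

def s2_170_187 : T TT 256 :=
  (.q k153 [(.s k84 k87 0 (.s k220 k19 10 (.s k16 k152 9 (.s k221 k17 9 (.d k223 k222 k154 0
  10))))), (.s k17 k221 9 (.s k51 k34 4 (.s k84 k87 0 (.s k102 k204 14 (.s k118 k70 3 (.d k252 k185
  k168 10 13)))))), (.s k84 k87 0 (.s k220 k19 10 (.s k252 k168 13 (.s k204 k236 3 (.s k68 k136 9
  (.d k102 k119 k51 4 14)))))), (.s k17 k221 9 (.s k19 k220 10 (.s k51 k34 4 (.s k3 k35 3 (.s k102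
  k204 14 (.s k118 k70 3 (.d k252 k185 k169 10 14)))))))] .n)

def s2_170_188 : T TT 256 :=
  (.q k4 [(.s k84 k87 0 (.s k244 k164 11 (.s k165 k7 12 (.s k245 k5 11 (.d k247 k246 k166 0 12))))),
  (.s k12 k8 1 (.s k84 k87 0 (.s k164 k244 11 (.s k88 k240 13 (.s k92 k80 1 (.d k252 k172 k168 11
  13)))))), (.s k12 k8 1 (.s k166 k247 12 (.s k6 k246 11 (.s k3 k9 2 (.s k89 k243 14 (.s k92 k83 2
  (.d k252 k172 k169 11 14)))))))] (.c k244 (.l (.s k12 k8 1 (.s k84 k87 0 (.s k166 k247 12 (.s k89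
  k243 14 (.s k92 k83 2 (.d k252 k172 k168 11 13))))))) .n))

def s2_170_189 : T TT 256 :=
  (.q k4 [(.s k84 k87 0 (.s k244 k164 11 (.s k165 k7 12 (.s k245 k5 11 (.d k247 k246 k166 0 12))))),
  (.s k12 k8 1 (.s k84 k87 0 (.s k164 k244 11 (.s k88 k240 13 (.s k92 k80 1 (.d k252 k172 k168 11
  13)))))), (.s k12 k8 1 (.s k166 k247 12 (.s k6 k246 11 (.s k3 k9 2 (.s k89 k243 14 (.s k92 k83 2
  (.d k252 k172 k169 11 14)))))))] (.c k244 (.l (.s k12 k8 1 (.s k84 k87 0 (.s k166 k247 12 (.s k89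
  k243 14 (.s k92 k83 2 (.d k252 k172 k168 11 13))))))) .n))

def s2_170_190 : T TT 256 :=
  (.q k150 [(.s k20 k215 8 (.s k22 k214 7 (.s k23 k21 0 (.s k84 k87 0 (.d k212 k148 k149 7 8))))),
  (.s k84 k87 0 (.s k214 k22 7 (.s k252 k168 13 (.s k195 k233 6 (.s k65 k130 8 (.d k105 k125 k60 5
  14)))))), (.s k20 k215 8 (.s k60 k40 5 (.s k84 k87 0 (.s k105 k195 14 (.s k124 k67 6 (.d k252 k188
  k168 7 13)))))), (.s k20 k215 8 (.s k22 k214 7 (.s k60 k40 5 (.s k3 k41 6 (.s k105 k195 14 (.s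
  k124 k67 6 (.d k252 k188 k169 7 14)))))))] .n)

def s2_170_191 : T TT 256 :=
  (.q k149 [(.s k84 k87 0 (.s k212 k23 8 (.s k20 k148 7 (.s k213 k21 7 (.d k215 k214 k150 0 8))))),
  (.s k21 k213 7 (.s k63 k42 6 (.s k84 k87 0 (.s k106 k192 14 (.s k126 k66 5 (.d k252 k189 k168 8
  13)))))), (.s k84 k87 0 (.s k212 k23 8 (.s k252 k168 13 (.s k192 k232 5 (.s k64 k128 7 (.d k106
  k127 k63 6 14)))))), (.s k21 k213 7 (.s k23 k212 8 (.s k63 k42 6 (.s k3 k43 5 (.s k106 k192 14 (.s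
  k126 k66 5 (.d k252 k189 k169 8 14)))))))] .n)

def s2_170_192 : T TT 256 :=
  (.q k4 [(.s k84 k87 0 (.s k244 k164 11 (.s k165 k7 12 (.s k245 k5 11 (.d k247 k246 k166 0 12))))),
  (.s k12 k8 1 (.s k84 k87 0 (.s k164 k244 11 (.s k88 k240 13 (.s k92 k80 1 (.d k252 k172 k168 11
  13)))))), (.s k12 k8 1 (.s k166 k247 12 (.s k6 k246 11 (.s k3 k9 2 (.s k89 k243 14 (.s k92 k83 2
  (.d k252 k172 k169 11 14)))))))] (.c k244 (.l (.s k12 k8 1 (.s k84 k87 0 (.s k166 k247 12 (.s k89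
  k243 14 (.s k92 k83 2 (.d k252 k172 k168 11 13))))))) .n))

def s2_170_193 : T TT 256 :=
  (.q k4 [(.s k84 k87 0 (.s k244 k164 11 (.s k165 k7 12 (.s k245 k5 11 (.d k247 k246 k166 0 12))))),
  (.s k12 k8 1 (.s k84 k87 0 (.s k164 k244 11 (.s k88 k240 13 (.s k92 k80 1 (.d k252 k172 k168 11
  13)))))), (.s k12 k8 1 (.s k166 k247 12 (.s k6 k246 11 (.s k3 k9 2 (.s k89 k243 14 (.s k92 k83 2
  (.d k252 k172 k169 11 14)))))))] (.c k244 (.l (.s k12 k8 1 (.s k84 k87 0 (.s k166 k247 12 (.s k89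
  k243 14 (.s k92 k83 2 (.d k252 k172 k168 11 13))))))) .n))

def s2_170_194 : T TT 256 :=
  (.f k84 k87 0 (.q k106 [(.s k64 k127 6 (.s k66 k126 5 (.s k67 k65 0 (.d k124 k104 k105 5 6)))),
  (.s k252 k168 13 (.s k169 k3 14 (.s k232 k43 8 (.s k192 k212 5 (.s k63 k149 14 (.d k126 k66 k189 5
  8))))))] (.c k66 (.q k130 [(.s k64 k127 6 (.s k65 k195 8 (.s k104 k124 5 (.d k105 k107 k125 0
  5)))), (.s k252 k168 13 (.s k169 k3 14 (.s k232 k43 8 (.s k192 k212 5 (.d k64 k127 k128 6 7))))),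
  (.s k195 k65 8 (.s k252 k168 13 (.s k214 k233 6 (.s k150 k22 7 (.s k20 k215 8 (.d k60 k40 k105 5
  14))))))] (.c k64 (.f k65 k195 8 (.l (.s k105 k125 5 (.s k124 k67 6 (.s k252 k168 13 (.s k60 k188
  7 (.s k20 k40 5 (.s k148 k212 7 (.d k104 k107 k192 0 13))))))))) .n)) (.c k126 (.l (.s k64 k127 6
  (.s k192 k128 7 (.s k149 k63 14 (.s k212 k23 8 (.d k252 k232 k168 5 13)))))) (.c k130 (.l (.s k66
  k126 5 (.s k64 k127 6 (.s k67 k65 0 (.d k124 k104 k105 5 6))))) .n)))))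

def s2_170_195 : T TT 256 :=
  (.q k4 [(.s k84 k87 0 (.s k244 k164 11 (.s k165 k7 12 (.s k245 k5 11 (.d k247 k246 k166 0 12))))),
  (.s k12 k8 1 (.s k84 k87 0 (.s k164 k244 11 (.s k88 k240 13 (.s k92 k80 1 (.d k252 k172 k168 11
  13)))))), (.s k12 k8 1 (.s k166 k247 12 (.s k6 k246 11 (.s k3 k9 2 (.s k89 k243 14 (.s k92 k83 2
  (.d k252 k172 k169 11 14)))))))] (.c k244 (.l (.s k12 k8 1 (.s k84 k87 0 (.s k166 k247 12 (.s k89
  k243 14 (.s k92 k83 2 (.d k252 k172 k168 11 13))))))) .n))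

def s2_170_196 : T TT 256 :=
  (.q k4 [(.s k84 k87 0 (.s k244 k164 11 (.s k165 k7 12 (.s k245 k5 11 (.d k247 k246 k166 0 12))))),
  (.s k12 k8 1 (.s k84 k87 0 (.s k164 k244 11 (.s k88 k240 13 (.s k92 k80 1 (.d k252 k172 k168 11
  13)))))), (.s k12 k8 1 (.s k166 k247 12 (.s k6 k246 11 (.s k3 k9 2 (.s k89 k243 14 (.s k92 k83 2
  (.d k252 k172 k169 11 14)))))))] (.c k244 (.l (.s k12 k8 1 (.s k84 k87 0 (.s k166 k247 12 (.s k89
  k243 14 (.s k92 k83 2 (.d k252 k172 k168 11 13))))))) .n))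

def s2_170_197 : T TT 256 :=
  (.q k4 [(.s k84 k87 0 (.s k166 k247 12 (.s k6 k246 11 (.s k244 k164 11 (.d k7 k5 k165 0 12))))),
  (.s k12 k8 1 (.s k84 k87 0 (.s k164 k244 11 (.s k88 k240 13 (.s k92 k80 1 (.d k252 k172 k168 11
  13)))))), (.s k12 k8 1 (.s k166 k247 12 (.s k6 k246 11 (.s k3 k9 2 (.s k89 k243 14 (.s k92 k83 2
  (.d k252 k172 k169 11 14)))))))] (.c k244 (.l (.s k12 k8 1 (.s k84 k87 0 (.s k166 k247 12 (.s k89
  k243 14 (.s k92 k83 2 (.d k252 k172 k168 11 13))))))) .n))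

def s2_170_198 : T TT 256 :=
  (.q k4 [(.s k84 k87 0 (.s k244 k164 11 (.s k165 k7 12 (.s k245 k5 11 (.d k247 k246 k166 0 12))))),
  (.s k12 k8 1 (.s k84 k87 0 (.s k164 k244 11 (.s k88 k240 13 (.s k92 k80 1 (.d k252 k172 k168 11
  13)))))), (.s k12 k8 1 (.s k166 k247 12 (.s k6 k246 11 (.s k3 k9 2 (.s k89 k243 14 (.s k92 k83 2
  (.d k252 k172 k169 11 14)))))))] (.c k244 (.l (.s k12 k8 1 (.s k84 k87 0 (.s k166 k247 12 (.s k89
  k243 14 (.s k92 k83 2 (.d k252 k172 k168 11 13))))))) .n))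

def s2_170_199 : T TT 256 :=
  (.q k4 [(.s k84 k87 0 (.s k244 k164 11 (.s k165 k7 12 (.s k245 k5 11 (.d k247 k246 k166 0 12))))),
  (.s k12 k8 1 (.s k84 k87 0 (.s k164 k244 11 (.s k88 k240 13 (.s k92 k80 1 (.d k252 k172 k168 11
  13)))))), (.s k12 k8 1 (.s k166 k247 12 (.s k6 k246 11 (.s k3 k9 2 (.s k89 k243 14 (.s k92 k83 2
  (.d k252 k172 k169 11 14)))))))] (.c k244 (.l (.s k12 k8 1 (.s k84 k87 0 (.s k166 k247 12 (.s k89
  k243 14 (.s k92 k83 2 (.d k252 k172 k168 11 13))))))) .n))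

def s2_170_200 : T TT 256 :=
  (.q k4 [(.s k84 k87 0 (.s k244 k164 11 (.s k165 k7 12 (.s k245 k5 11 (.d k247 k246 k166 0 12))))),
  (.s k12 k8 1 (.s k84 k87 0 (.s k164 k244 11 (.s k88 k240 13 (.s k92 k80 1 (.d k252 k172 k168 11
  13)))))), (.s k12 k8 1 (.s k166 k247 12 (.s k6 k246 11 (.s k3 k9 2 (.s k89 k243 14 (.s k92 k83 2
  (.d k252 k172 k169 11 14)))))))] (.c k244 (.l (.s k12 k8 1 (.s k84 k87 0 (.s k166 k247 12 (.s k89
  k243 14 (.s k92 k83 2 (.d k252 k172 k168 11 13))))))) .n))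

def s2_170_201 : T TT 256 :=
  (.q k4 [(.s k84 k87 0 (.s k244 k164 11 (.s k165 k7 12 (.s k245 k5 11 (.d k247 k246 k166 0 12))))),
  (.s k12 k8 1 (.s k84 k87 0 (.s k164 k244 11 (.s k88 k240 13 (.s k92 k80 1 (.d k252 k172 k168 11
  13)))))), (.s k12 k8 1 (.s k166 k247 12 (.s k6 k246 11 (.s k3 k9 2 (.s k89 k243 14 (.s k92 k83 2
  (.d k252 k172 k169 11 14)))))))] (.c k244 (.l (.s k12 k8 1 (.s k84 k87 0 (.s k166 k247 12 (.s k89
  k243 14 (.s k92 k83 2 (.d k252 k172 k168 11 13))))))) .n))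

def s2_170_202 : T TT 256 :=
  (.q k4 [(.s k84 k87 0 (.s k244 k164 11 (.s k165 k7 12 (.s k245 k5 11 (.d k247 k246 k166 0 12))))),
  (.s k12 k8 1 (.s k84 k87 0 (.s k164 k244 11 (.s k88 k240 13 (.s k92 k80 1 (.d k252 k172 k168 11
  13)))))), (.s k12 k8 1 (.s k166 k247 12 (.s k6 k246 11 (.s k3 k9 2 (.s k89 k243 14 (.s k92 k83 2
  (.d k252 k172 k169 11 14)))))))] (.c k244 (.l (.s k12 k8 1 (.s k84 k87 0 (.s k166 k247 12 (.s k89
  k243 14 (.s k92 k83 2 (.d k252 k172 k168 11 13))))))) .n))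

def s2_170_203 : T TT 256 :=
  (.q k4 [(.s k84 k87 0 (.s k244 k164 11 (.s k165 k7 12 (.s k245 k5 11 (.d k247 k246 k166 0 12))))),
  (.s k12 k8 1 (.s k84 k87 0 (.s k164 k244 11 (.s k88 k240 13 (.s k92 k80 1 (.d k252 k172 k168 11
  13)))))), (.s k12 k8 1 (.s k166 k247 12 (.s k6 k246 11 (.s k3 k9 2 (.s k89 k243 14 (.s k92 k83 2
  (.d k252 k172 k169 11 14)))))))] (.c k244 (.l (.s k12 k8 1 (.s k84 k87 0 (.s k166 k247 12 (.s k89
  k243 14 (.s k92 k83 2 (.d k252 k172 k168 11 13))))))) .n))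

def s2_170_204 : T TT 256 :=
  (.q k4 [(.s k84 k87 0 (.s k244 k164 11 (.s k165 k7 12 (.s k245 k5 11 (.d k247 k246 k166 0 12))))),
  (.s k12 k8 1 (.s k84 k87 0 (.s k164 k244 11 (.s k88 k240 13 (.s k92 k80 1 (.d k252 k172 k168 11
  13)))))), (.s k12 k8 1 (.s k166 k247 12 (.s k6 k246 11 (.s k3 k9 2 (.s k89 k243 14 (.s k92 k83 2
  (.d k252 k172 k169 11 14)))))))] (.c k244 (.l (.s k12 k8 1 (.s k84 k87 0 (.s k166 k247 12 (.s k89
  k243 14 (.s k92 k83 2 (.d k252 k172 k168 11 13))))))) .n))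

def s2_170_205 : T TT 256 :=
  (.q k4 [(.s k84 k87 0 (.s k244 k164 11 (.s k165 k7 12 (.s k245 k5 11 (.d k247 k246 k166 0 12))))),
  (.s k12 k8 1 (.s k84 k87 0 (.s k164 k244 11 (.s k88 k240 13 (.s k92 k80 1 (.d k252 k172 k168 11
  13)))))), (.s k12 k8 1 (.s k166 k247 12 (.s k6 k246 11 (.s k3 k9 2 (.s k89 k243 14 (.s k92 k83 2
  (.d k252 k172 k169 11 14)))))))] (.c k244 (.l (.s k12 k8 1 (.s k84 k87 0 (.s k166 k247 12 (.s k89
  k243 14 (.s k92 k83 2 (.d k252 k172 k168 11 13))))))) .n))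

def s2_170_206 : T TT 256 :=
  (.f k84 k87 0 (.q k102 [(.s k68 k119 4 (.s k70 k118 3 (.s k71 k69 0 (.d k116 k100 k101 3 4)))),
  (.s k252 k168 13 (.s k169 k3 14 (.s k236 k35 10 (.s k204 k220 3 (.s k51 k153 14 (.d k118 k70 k185
  3 10))))))] (.c k70 (.q k138 [(.s k68 k119 4 (.s k69 k207 10 (.s k100 k116 3 (.d k101 k103 k117 0
  3)))), (.s k252 k168 13 (.s k169 k3 14 (.s k236 k35 10 (.s k204 k220 3 (.d k68 k119 k136 4 9))))),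
  (.s k207 k69 10 (.s k252 k168 13 (.s k222 k237 4 (.s k154 k18 9 (.s k16 k223 10 (.d k48 k32 k101 3
  14))))))] (.c k68 (.f k69 k207 10 (.l (.s k101 k117 3 (.s k116 k71 4 (.s k252 k168 13 (.s k48 k184
  9 (.s k16 k32 3 (.s k152 k220 9 (.d k100 k103 k204 0 13))))))))) .n)) (.c k118 (.l (.s k68 k119 4
  (.s k204 k136 9 (.s k153 k51 14 (.s k220 k19 10 (.d k252 k236 k168 3 13)))))) (.c k138 (.l (.s k70
  k118 3 (.s k68 k119 4 (.s k71 k69 0 (.d k116 k100 k101 3 4))))) .n)))))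

def s2_170_207 : T TT 256 :=
  (.q k4 [(.s k84 k87 0 (.s k244 k164 11 (.s k165 k7 12 (.s k245 k5 11 (.d k247 k246 k166 0 12))))),
  (.s k12 k8 1 (.s k84 k87 0 (.s k164 k244 11 (.s k88 k240 13 (.s k92 k80 1 (.d k252 k172 k168 11
  13)))))), (.s k12 k8 1 (.s k166 k247 12 (.s k6 k246 11 (.s k3 k9 2 (.s k89 k243 14 (.s k92 k83 2
  (.d k252 k172 k169 11 14)))))))] (.c k244 (.l (.s k12 k8 1 (.s k84 k87 0 (.s k166 k247 12 (.s k89
  k243 14 (.s k92 k83 2 (.d k252 k172 k168 11 13))))))) .n))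

def s2_170_208 : T TT 256 :=
  (.q k4 [(.s k84 k87 0 (.s k244 k164 11 (.s k165 k7 12 (.s k245 k5 11 (.d k247 k246 k166 0 12))))),
  (.s k12 k8 1 (.s k84 k87 0 (.s k164 k244 11 (.s k88 k240 13 (.s k92 k80 1 (.d k252 k172 k168 11
  13)))))), (.s k12 k8 1 (.s k166 k247 12 (.s k6 k246 11 (.s k3 k9 2 (.s k89 k243 14 (.s k92 k83 2
  (.d k252 k172 k169 11 14)))))))] (.c k244 (.l (.s k12 k8 1 (.s k84 k87 0 (.s k166 k247 12 (.s k89
  k243 14 (.s k92 k83 2 (.d k252 k172 k168 11 13))))))) .n))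

def s2_170_209 : T TT 256 :=
  (.q k4 [(.s k84 k87 0 (.s k244 k164 11 (.s k165 k7 12 (.s k245 k5 11 (.d k247 k246 k166 0 12))))),
  (.s k12 k8 1 (.s k84 k87 0 (.s k164 k244 11 (.s k88 k240 13 (.s k92 k80 1 (.d k252 k172 k168 11
  13)))))), (.s k12 k8 1 (.s k166 k247 12 (.s k6 k246 11 (.s k3 k9 2 (.s k89 k243 14 (.s k92 k83 2
  (.d k252 k172 k169 11 14)))))))] (.c k244 (.l (.s k12 k8 1 (.s k84 k87 0 (.s k166 k247 12 (.s k89
  k243 14 (.s k92 k83 2 (.d k252 k172 k168 11 13))))))) .n))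

def s2_170_210 : T TT 256 :=
  (.q k4 [(.s k84 k87 0 (.s k244 k164 11 (.s k165 k7 12 (.s k245 k5 11 (.d k247 k246 k166 0 12))))),
  (.s k12 k8 1 (.s k84 k87 0 (.s k164 k244 11 (.s k88 k240 13 (.s k92 k80 1 (.d k252 k172 k168 11
  13)))))), (.s k12 k8 1 (.s k166 k247 12 (.s k6 k246 11 (.s k3 k9 2 (.s k89 k243 14 (.s k92 k83 2
  (.d k252 k172 k169 11 14)))))))] (.c k244 (.l (.s k12 k8 1 (.s k84 k87 0 (.s k166 k247 12 (.s k89
  k243 14 (.s k92 k83 2 (.d k252 k172 k168 11 13))))))) .n))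

def s2_170_211 : T TT 256 :=
  (.q k4 [(.s k84 k87 0 (.s k244 k164 11 (.s k165 k7 12 (.s k245 k5 11 (.d k247 k246 k166 0 12))))),
  (.s k12 k8 1 (.s k84 k87 0 (.s k164 k244 11 (.s k88 k240 13 (.s k92 k80 1 (.d k252 k172 k168 11
  13)))))), (.s k12 k8 1 (.s k166 k247 12 (.s k6 k246 11 (.s k3 k9 2 (.s k89 k243 14 (.s k92 k83 2
  (.d k252 k172 k169 11 14)))))))] (.c k244 (.l (.s k12 k8 1 (.s k84 k87 0 (.s k166 k247 12 (.s k89
  k243 14 (.s k92 k83 2 (.d k252 k172 k168 11 13))))))) .n))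

def s2_170_212 : T TT 256 :=
  (.q k4 [(.s k84 k87 0 (.s k244 k164 11 (.s k165 k7 12 (.s k245 k5 11 (.d k247 k246 k166 0 12))))),
  (.s k12 k8 1 (.s k84 k87 0 (.s k164 k244 11 (.s k88 k240 13 (.s k92 k80 1 (.d k252 k172 k168 11
  13)))))), (.s k12 k8 1 (.s k166 k247 12 (.s k6 k246 11 (.s k3 k9 2 (.s k89 k243 14 (.s k92 k83 2
  (.d k252 k172 k169 11 14)))))))] (.c k244 (.l (.s k12 k8 1 (.s k84 k87 0 (.s k166 k247 12 (.s k89
  k243 14 (.s k92 k83 2 (.d k252 k172 k168 11 13))))))) .n))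

def s2_170_213 : T TT 256 :=
  (.q k4 [(.s k84 k87 0 (.s k244 k164 11 (.s k165 k7 12 (.s k245 k5 11 (.d k247 k246 k166 0 12))))),
  (.s k12 k8 1 (.s k84 k87 0 (.s k164 k244 11 (.s k88 k240 13 (.s k92 k80 1 (.d k252 k172 k168 11
  13)))))), (.s k12 k8 1 (.s k166 k247 12 (.s k6 k246 11 (.s k3 k9 2 (.s k89 k243 14 (.s k92 k83 2
  (.d k252 k172 k169 11 14)))))))] (.c k244 (.l (.s k12 k8 1 (.s k84 k87 0 (.s k166 k247 12 (.s k89
  k243 14 (.s k92 k83 2 (.d k252 k172 k168 11 13))))))) .n))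

def s2_170_214 : T TT 256 :=
  (.q k4 [(.s k84 k87 0 (.s k244 k164 11 (.s k165 k7 12 (.s k245 k5 11 (.d k247 k246 k166 0 12))))),
  (.s k12 k8 1 (.s k84 k87 0 (.s k164 k244 11 (.s k88 k240 13 (.s k92 k80 1 (.d k252 k172 k168 11
  13)))))), (.s k12 k8 1 (.s k166 k247 12 (.s k6 k246 11 (.s k3 k9 2 (.s k89 k243 14 (.s k92 k83 2
  (.d k252 k172 k169 11 14)))))))] (.c k244 (.l (.s k12 k8 1 (.s k84 k87 0 (.s k166 k247 12 (.s k89
  k243 14 (.s k92 k83 2 (.d k252 k172 k168 11 13))))))) .n))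

def s2_170_215 : T TT 256 :=
  (.q k4 [(.s k84 k87 0 (.s k244 k164 11 (.s k165 k7 12 (.s k245 k5 11 (.d k247 k246 k166 0 12))))),
  (.s k12 k8 1 (.s k166 k247 12 (.s k6 k246 11 (.s k3 k9 2 (.s k89 k243 14 (.s k92 k83 2 (.d k252
  k172 k169 11 14))))))), (.s k12 k8 1 (.s k84 k87 0 (.s k164 k244 11 (.s k88 k240 13 (.s k92 k80 1
  (.d k252 k172 k168 11 13))))))] (.c k244 (.l (.s k12 k8 1 (.s k84 k87 0 (.s k166 k247 12 (.s k89
  k243 14 (.s k92 k83 2 (.d k252 k172 k168 11 13))))))) .n))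

def s2_170_216 : T TT 256 :=
  (.q k4 [(.s k84 k87 0 (.s k244 k164 11 (.s k165 k7 12 (.s k245 k5 11 (.d k247 k246 k166 0 12))))),
  (.s k12 k8 1 (.s k84 k87 0 (.s k164 k244 11 (.s k88 k240 13 (.s k92 k80 1 (.d k252 k172 k168 11
  13)))))), (.s k12 k8 1 (.s k166 k247 12 (.s k6 k246 11 (.s k3 k9 2 (.s k89 k243 14 (.s k92 k83 2
  (.d k252 k172 k169 11 14)))))))] (.c k244 (.l (.s k12 k8 1 (.s k84 k87 0 (.s k166 k247 12 (.s k89
  k243 14 (.s k92 k83 2 (.d k252 k172 k168 11 13))))))) .n))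

def s2_170_217 : T TT 256 :=
  (.q k4 [(.s k84 k87 0 (.s k244 k164 11 (.s k165 k7 12 (.s k245 k5 11 (.d k247 k246 k166 0 12))))),
  (.s k12 k8 1 (.s k84 k87 0 (.s k164 k244 11 (.s k88 k240 13 (.s k92 k80 1 (.d k252 k172 k168 11
  13)))))), (.s k12 k8 1 (.s k166 k247 12 (.s k6 k246 11 (.s k3 k9 2 (.s k89 k243 14 (.s k92 k83 2
  (.d k252 k172 k169 11 14)))))))] (.c k244 (.l (.s k12 k8 1 (.s k84 k87 0 (.s k166 k247 12 (.s k89
  k243 14 (.s k92 k83 2 (.d k252 k172 k168 11 13))))))) .n))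

def s2_170_218 : T TT 256 :=
  (.q k4 [(.s k84 k87 0 (.s k244 k164 11 (.s k165 k7 12 (.s k245 k5 11 (.d k247 k246 k166 0 12))))),
  (.s k12 k8 1 (.s k84 k87 0 (.s k164 k244 11 (.s k88 k240 13 (.s k92 k80 1 (.d k252 k172 k168 11
  13)))))), (.s k12 k8 1 (.s k166 k247 12 (.s k6 k246 11 (.s k3 k9 2 (.s k89 k243 14 (.s k92 k83 2
  (.d k252 k172 k169 11 14)))))))] (.c k244 (.l (.s k12 k8 1 (.s k84 k87 0 (.s k166 k247 12 (.s k89
  k243 14 (.s k92 k83 2 (.d k252 k172 k168 11 13))))))) .n))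

def s2_170_219 : T TT 256 :=
  (.q k4 [(.s k84 k87 0 (.s k244 k164 11 (.s k165 k7 12 (.s k245 k5 11 (.d k247 k246 k166 0 12))))),
  (.s k12 k8 1 (.s k84 k87 0 (.s k164 k244 11 (.s k88 k240 13 (.s k92 k80 1 (.d k252 k172 k168 11
  13)))))), (.s k12 k8 1 (.s k166 k247 12 (.s k6 k246 11 (.s k3 k9 2 (.s k89 k243 14 (.s k92 k83 2
  (.d k252 k172 k169 11 14)))))))] (.c k244 (.l (.s k12 k8 1 (.s k84 k87 0 (.s k166 k247 12 (.s k89
  k243 14 (.s k92 k83 2 (.d k252 k172 k168 11 13))))))) .n))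

def s2_170_220 : T TT 256 :=
  (.q k4 [(.s k84 k87 0 (.s k244 k164 11 (.s k165 k7 12 (.s k245 k5 11 (.d k247 k246 k166 0 12))))),
  (.s k12 k8 1 (.s k84 k87 0 (.s k164 k244 11 (.s k88 k240 13 (.s k92 k80 1 (.d k252 k172 k168 11
  13)))))), (.s k12 k8 1 (.s k166 k247 12 (.s k6 k246 11 (.s k3 k9 2 (.s k89 k243 14 (.s k92 k83 2
  (.d k252 k172 k169 11 14)))))))] (.c k244 (.l (.s k12 k8 1 (.s k84 k87 0 (.s k166 k247 12 (.s k89
  k243 14 (.s k92 k83 2 (.d k252 k172 k168 11 13))))))) .n))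

def s2_170_221 : T TT 256 :=
  (.q k4 [(.s k84 k87 0 (.s k244 k164 11 (.s k165 k7 12 (.s k245 k5 11 (.d k247 k246 k166 0 12))))),
  (.s k12 k8 1 (.s k84 k87 0 (.s k164 k244 11 (.s k88 k240 13 (.s k92 k80 1 (.d k252 k172 k168 11
  13)))))), (.s k12 k8 1 (.s k166 k247 12 (.s k6 k246 11 (.s k3 k9 2 (.s k89 k243 14 (.s k92 k83 2
  (.d k252 k172 k169 11 14)))))))] (.c k244 (.l (.s k12 k8 1 (.s k84 k87 0 (.s k166 k247 12 (.s k89
  k243 14 (.s k92 k83 2 (.d k252 k172 k168 11 13))))))) .n))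

def s2_170_222 : T TT 256 :=
  (.q k4 [(.s k84 k87 0 (.s k244 k164 11 (.s k165 k7 12 (.s k245 k5 11 (.d k247 k246 k166 0 12))))),
  (.s k12 k8 1 (.s k84 k87 0 (.s k164 k244 11 (.s k88 k240 13 (.s k92 k80 1 (.d k252 k172 k168 11
  13)))))), (.s k12 k8 1 (.s k166 k247 12 (.s k6 k246 11 (.s k3 k9 2 (.s k89 k243 14 (.s k92 k83 2
  (.d k252 k172 k169 11 14)))))))] (.c k244 (.l (.s k12 k8 1 (.s k84 k87 0 (.s k166 k247 12 (.s k89
  k243 14 (.s k92 k83 2 (.d k252 k172 k168 11 13))))))) .n))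

def s2_170_223 : T TT 256 :=
  (.q k4 [(.s k84 k87 0 (.s k244 k164 11 (.s k165 k7 12 (.s k245 k5 11 (.d k247 k246 k166 0 12))))),
  (.s k12 k8 1 (.s k166 k247 12 (.s k6 k246 11 (.s k3 k9 2 (.s k89 k243 14 (.s k92 k83 2 (.d k252
  k172 k169 11 14))))))), (.s k12 k8 1 (.s k84 k87 0 (.s k164 k244 11 (.s k88 k240 13 (.s k92 k80 1
  (.d k252 k172 k168 11 13))))))] (.c k244 (.l (.s k12 k8 1 (.s k84 k87 0 (.s k166 k247 12 (.s k89
  k243 14 (.s k92 k83 2 (.d k252 k172 k168 11 13))))))) .n))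

def s2_170_224 : T TT 256 :=
  (.q k4 [(.s k84 k87 0 (.s k166 k247 12 (.s k6 k246 11 (.s k7 k5 0 (.d k244 k164 k165 11 12))))),
  (.s k12 k8 1 (.s k84 k87 0 (.s k164 k244 11 (.s k88 k240 13 (.s k92 k80 1 (.d k252 k172 k168 11
  13)))))), (.s k12 k8 1 (.s k166 k247 12 (.s k6 k246 11 (.s k3 k9 2 (.s k89 k243 14 (.s k92 k83 2
  (.d k252 k172 k169 11 14)))))))] (.c k244 (.l (.s k12 k8 1 (.s k84 k87 0 (.s k166 k247 12 (.s k89
  k243 14 (.s k92 k83 2 (.d k252 k172 k168 11 13))))))) .n))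

def s2_170_225 : T TT 256 :=
  (.q k4 [(.s k84 k87 0 (.s k244 k164 11 (.s k165 k7 12 (.s k245 k5 11 (.d k247 k246 k166 0 12))))),
  (.s k12 k8 1 (.s k84 k87 0 (.s k164 k244 11 (.s k88 k240 13 (.s k92 k80 1 (.d k252 k172 k168 11
  13)))))), (.s k12 k8 1 (.s k166 k247 12 (.s k6 k246 11 (.s k3 k9 2 (.s k89 k243 14 (.s k92 k83 2
  (.d k252 k172 k169 11 14)))))))] (.c k244 (.l (.s k12 k8 1 (.s k84 k87 0 (.s k166 k247 12 (.s k89
  k243 14 (.s k92 k83 2 (.d k252 k172 k168 11 13))))))) .n))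

def s2_170_226 : T TT 256 :=
  (.q k4 [(.s k84 k87 0 (.s k244 k164 11 (.s k165 k7 12 (.s k245 k5 11 (.d k247 k246 k166 0 12))))),
  (.s k12 k8 1 (.s k84 k87 0 (.s k164 k244 11 (.s k88 k240 13 (.s k92 k80 1 (.d k252 k172 k168 11
  13)))))), (.s k12 k8 1 (.s k166 k247 12 (.s k6 k246 11 (.s k3 k9 2 (.s k89 k243 14 (.s k92 k83 2
  (.d k252 k172 k169 11 14)))))))] (.c k244 (.l (.s k12 k8 1 (.s k84 k87 0 (.s k166 k247 12 (.s k89
  k243 14 (.s k92 k83 2 (.d k252 k172 k168 11 13))))))) .n))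

def s2_170_227 : T TT 256 :=
  (.q k4 [(.s k84 k87 0 (.s k244 k164 11 (.s k165 k7 12 (.s k245 k5 11 (.d k247 k246 k166 0 12))))),
  (.s k12 k8 1 (.s k84 k87 0 (.s k164 k244 11 (.s k88 k240 13 (.s k92 k80 1 (.d k252 k172 k168 11
  13)))))), (.s k12 k8 1 (.s k166 k247 12 (.s k6 k246 11 (.s k3 k9 2 (.s k89 k243 14 (.s k92 k83 2
  (.d k252 k172 k169 11 14)))))))] (.c k244 (.l (.s k12 k8 1 (.s k84 k87 0 (.s k166 k247 12 (.s k89
  k243 14 (.s k92 k83 2 (.d k252 k172 k168 11 13))))))) .n))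

def s2_170_228 : T TT 256 :=
  (.q k4 [(.s k84 k87 0 (.s k166 k247 12 (.s k6 k246 11 (.s k7 k5 0 (.d k244 k164 k165 11 12))))),
  (.s k12 k8 1 (.s k84 k87 0 (.s k164 k244 11 (.s k88 k240 13 (.s k92 k80 1 (.d k252 k172 k168 11
  13)))))), (.s k12 k8 1 (.s k166 k247 12 (.s k6 k246 11 (.s k3 k9 2 (.s k89 k243 14 (.s k92 k83 2
  (.d k252 k172 k169 11 14)))))))] (.c k244 (.l (.s k12 k8 1 (.s k84 k87 0 (.s k166 k247 12 (.s k89
  k243 14 (.s k92 k83 2 (.d k252 k172 k168 11 13))))))) .n))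

def s2_170_229 : T TT 256 :=
  (.q k4 [(.s k84 k87 0 (.s k244 k164 11 (.s k165 k7 12 (.s k245 k5 11 (.d k247 k246 k166 0 12))))),
  (.s k12 k8 1 (.s k84 k87 0 (.s k164 k244 11 (.s k88 k240 13 (.s k92 k80 1 (.d k252 k172 k168 11
  13)))))), (.s k12 k8 1 (.s k166 k247 12 (.s k6 k246 11 (.s k3 k9 2 (.s k89 k243 14 (.s k92 k83 2
  (.d k252 k172 k169 11 14)))))))] (.c k244 (.l (.s k12 k8 1 (.s k84 k87 0 (.s k166 k247 12 (.s k89
  k243 14 (.s k92 k83 2 (.d k252 k172 k168 11 13))))))) .n))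

def s2_170_230 : T TT 256 :=
  (.q k4 [(.s k84 k87 0 (.s k244 k164 11 (.s k165 k7 12 (.s k245 k5 11 (.d k247 k246 k166 0 12))))),
  (.s k12 k8 1 (.s k84 k87 0 (.s k164 k244 11 (.s k88 k240 13 (.s k92 k80 1 (.d k252 k172 k168 11
  13)))))), (.s k12 k8 1 (.s k166 k247 12 (.s k6 k246 11 (.s k3 k9 2 (.s k89 k243 14 (.s k92 k83 2
  (.d k252 k172 k169 11 14)))))))] (.c k244 (.l (.s k12 k8 1 (.s k84 k87 0 (.s k166 k247 12 (.s k89
  k243 14 (.s k92 k83 2 (.d k252 k172 k168 11 13))))))) .n))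

def s2_170_231 : T TT 256 :=
  (.q k4 [(.s k84 k87 0 (.s k244 k164 11 (.s k165 k7 12 (.s k245 k5 11 (.d k247 k246 k166 0 12))))),
  (.s k12 k8 1 (.s k84 k87 0 (.s k164 k244 11 (.s k88 k240 13 (.s k92 k80 1 (.d k252 k172 k168 11
  13)))))), (.s k12 k8 1 (.s k166 k247 12 (.s k6 k246 11 (.s k3 k9 2 (.s k89 k243 14 (.s k92 k83 2
  (.d k252 k172 k169 11 14)))))))] (.c k244 (.l (.s k12 k8 1 (.s k84 k87 0 (.s k166 k247 12 (.s k89
  k243 14 (.s k92 k83 2 (.d k252 k172 k168 11 13))))))) .n))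

def s2_170_232 : T TT 256 :=
  (.q k4 [(.s k84 k87 0 (.s k244 k164 11 (.s k165 k7 12 (.s k245 k5 11 (.d k247 k246 k166 0 12))))),
  (.s k12 k8 1 (.s k84 k87 0 (.s k164 k244 11 (.s k88 k240 13 (.s k92 k80 1 (.d k252 k172 k168 11
  13)))))), (.s k12 k8 1 (.s k166 k247 12 (.s k6 k246 11 (.s k3 k9 2 (.s k89 k243 14 (.s k92 k83 2
  (.d k252 k172 k169 11 14)))))))] (.c k244 (.l (.s k12 k8 1 (.s k84 k87 0 (.s k166 k247 12 (.s k89
  k243 14 (.s k92 k83 2 (.d k252 k172 k168 11 13))))))) .n))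

def s2_170_233 : T TT 256 :=
  (.q k4 [(.s k84 k87 0 (.s k244 k164 11 (.s k165 k7 12 (.s k245 k5 11 (.d k247 k246 k166 0 12))))),
  (.s k12 k8 1 (.s k84 k87 0 (.s k164 k244 11 (.s k88 k240 13 (.s k92 k80 1 (.d k252 k172 k168 11
  13)))))), (.s k12 k8 1 (.s k166 k247 12 (.s k6 k246 11 (.s k3 k9 2 (.s k89 k243 14 (.s k92 k83 2
  (.d k252 k172 k169 11 14)))))))] (.c k244 (.l (.s k12 k8 1 (.s k84 k87 0 (.s k166 k247 12 (.s k89
  k243 14 (.s k92 k83 2 (.d k252 k172 k168 11 13))))))) .n))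

def s2_170_234 : T TT 256 :=
  (.q k106 [(.s k64 k127 6 (.s k66 k126 5 (.s k67 k65 0 (.s k84 k87 0 (.d k124 k104 k105 5 6))))),
  (.s k84 k87 0 (.s k126 k66 5 (.s k252 k168 13 (.s k63 k189 8 (.s k21 k42 6 (.d k149 k213 k192 7
  14)))))), (.s k64 k127 6 (.s k84 k87 0 (.s k192 k128 7 (.s k149 k63 14 (.s k212 k23 8 (.d k252
  k232 k168 5 13)))))), (.s k64 k127 6 (.s k66 k126 5 (.s k192 k128 7 (.s k3 k129 8 (.s k149 k63 14
  (.s k212 k23 8 (.d k252 k232 k169 5 14)))))))] .n)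

def s2_170_235 : T TT 256 :=
  (.q k105 [(.s k84 k87 0 (.s k124 k67 6 (.s k64 k104 5 (.s k125 k65 5 (.d k127 k126 k106 0 6))))),
  (.s k65 k125 5 (.s k84 k87 0 (.s k195 k130 8 (.s k150 k60 14 (.s k214 k22 7 (.d k252 k233 k168 6
  13)))))), (.s k84 k87 0 (.s k124 k67 6 (.s k252 k168 13 (.s k60 k188 7 (.s k20 k40 5 (.d k150 k215
  k195 8 14)))))), (.s k65 k125 5 (.s k67 k124 6 (.s k195 k130 8 (.s k3 k131 7 (.s k150 k60 14 (.s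
  k214 k22 7 (.d k252 k233 k169 6 14)))))))] .n)

def s2_170_236 : T TT 256 :=
  (.q k4 [(.s k84 k87 0 (.s k244 k164 11 (.s k165 k7 12 (.s k245 k5 11 (.d k247 k246 k166 0 12))))),
  (.s k12 k8 1 (.s k84 k87 0 (.s k164 k244 11 (.s k88 k240 13 (.s k92 k80 1 (.d k252 k172 k168 11
  13)))))), (.s k12 k8 1 (.s k166 k247 12 (.s k6 k246 11 (.s k3 k9 2 (.s k89 k243 14 (.s k92 k83 2
  (.d k252 k172 k169 11 14)))))))] (.c k244 (.l (.s k12 k8 1 (.s k84 k87 0 (.s k166 k247 12 (.s k89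
  k243 14 (.s k92 k83 2 (.d k252 k172 k168 11 13))))))) .n))

def s2_170_237 : T TT 256 :=
  (.q k4 [(.s k84 k87 0 (.s k244 k164 11 (.s k165 k7 12 (.s k245 k5 11 (.d k247 k246 k166 0 12))))),
  (.s k12 k8 1 (.s k84 k87 0 (.s k164 k244 11 (.s k88 k240 13 (.s k92 k80 1 (.d k252 k172 k168 11
  13)))))), (.s k12 k8 1 (.s k166 k247 12 (.s k6 k246 11 (.s k3 k9 2 (.s k89 k243 14 (.s k92 k83 2
  (.d k252 k172 k169 11 14)))))))] (.c k244 (.l (.s k12 k8 1 (.s k84 k87 0 (.s k166 k247 12 (.s k89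
  k243 14 (.s k92 k83 2 (.d k252 k172 k168 11 13))))))) .n))

def s2_170_238 : T TT 256 :=
  (.q k102 [(.s k68 k119 4 (.s k70 k118 3 (.s k71 k69 0 (.s k84 k87 0 (.d k116 k100 k101 3 4))))),
  (.s k84 k87 0 (.s k118 k70 3 (.s k252 k168 13 (.s k51 k185 10 (.s k17 k34 4 (.d k153 k221 k204 9
  14)))))), (.s k68 k119 4 (.s k84 k87 0 (.s k204 k136 9 (.s k153 k51 14 (.s k220 k19 10 (.d k252
  k236 k168 3 13)))))), (.s k68 k119 4 (.s k70 k118 3 (.s k204 k136 9 (.s k3 k137 10 (.s k153 k51 14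
  (.s k220 k19 10 (.d k252 k236 k169 3 14)))))))] .n)

def s2_170_239 : T TT 256 :=
  (.q k101 [(.s k84 k87 0 (.s k116 k71 4 (.s k68 k100 3 (.s k117 k69 3 (.d k119 k118 k102 0 4))))),
  (.s k69 k117 3 (.s k84 k87 0 (.s k207 k138 10 (.s k154 k48 14 (.s k222 k18 9 (.d k252 k237 k168 4
  13)))))), (.s k84 k87 0 (.s k116 k71 4 (.s k252 k168 13 (.s k48 k184 9 (.s k16 k32 3 (.d k154 k223
  k207 10 14)))))), (.s k69 k117 3 (.s k71 k116 4 (.s k207 k138 10 (.s k3 k139 9 (.s k154 k48 14 (.s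
  k222 k18 9 (.d k252 k237 k169 4 14)))))))] .n)

def s2_170_240 : T TT 256 :=
  (.q k12 [(.s k4 k8 1 (.s k84 k87 0 (.s k166 k247 12 (.s k6 k246 11 (.s k7 k5 0 (.d k244 k164 k165
  11 12)))))), (.s k84 k87 0 (.s k252 k168 13 (.s k92 k172 11 (.s k89 k83 2 (.s k81 k93 1 (.d k243
  k162 k166 12 14)))))), (.s k4 k8 1 (.s k166 k247 12 (.s k6 k246 11 (.s k3 k9 2 (.s k89 k243 14 (.s
  k92 k83 2 (.d k252 k172 k169 11 14)))))))] (.c k89 (.l (.s k84 k87 0 (.s k252 k168 13 (.s k169 k3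
  14 (.s k172 k92 11 (.s k166 k163 2 (.d k4 k8 k247 1 12))))))) (.c k166 (.l (.s k84 k87 0 (.s k252
  k168 13 (.s k92 k172 11 (.s k80 k88 1 (.s k83 k89 2 (.s k82 k81 0 (.d k90 k94 k95 1 2))))))))
  .n)))

def s2_170_241 : T TT 256 :=
  (.q k4 [(.s k84 k87 0 (.s k244 k164 11 (.s k165 k7 12 (.s k245 k5 11 (.d k247 k246 k166 0 12))))),
  (.s k12 k8 1 (.s k84 k87 0 (.s k164 k244 11 (.s k88 k240 13 (.s k92 k80 1 (.d k252 k172 k168 11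
  13)))))), (.s k12 k8 1 (.s k166 k247 12 (.s k6 k246 11 (.s k3 k9 2 (.s k89 k243 14 (.s k92 k83 2
  (.d k252 k172 k169 11 14)))))))] (.c k244 (.l (.s k12 k8 1 (.s k84 k87 0 (.s k166 k247 12 (.s k89
  k243 14 (.s k92 k83 2 (.d k252 k172 k168 11 13))))))) .n))

def s2_170_242 : T TT 256 :=
  (.f k84 k87 0 (.q k90 [(.s k80 k95 2 (.s k82 k94 1 (.s k83 k81 0 (.d k92 k88 k89 1 2)))), (.s k252
  k168 13 (.s k169 k3 14 (.s k248 k11 12 (.s k240 k244 1 (.s k15 k165 14 (.d k94 k82 k173 1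
  12))))))] (.c k82 (.q k162 [(.s k80 k95 2 (.s k81 k243 12 (.s k88 k92 1 (.d k89 k91 k93 0 1)))),
  (.s k252 k168 13 (.s k169 k3 14 (.s k248 k11 12 (.s k240 k244 1 (.d k80 k95 k160 2 11))))), (.s
  k243 k81 12 (.s k252 k168 13 (.s k246 k249 2 (.s k166 k6 11 (.s k4 k247 12 (.d k12 k8 k89 1
  14))))))] (.c k80 (.f k81 k243 12 (.l (.s k89 k93 1 (.s k92 k83 2 (.s k252 k168 13 (.s k12 k172 11
  (.s k4 k8 1 (.s k164 k244 11 (.d k88 k91 k240 0 13))))))))) .n)) (.c k94 (.l (.s k80 k95 2 (.s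
  k240 k160 11 (.s k165 k15 14 (.s k244 k7 12 (.d k252 k248 k168 1 13)))))) (.c k162 (.l (.s k82 k94
  1 (.s k80 k95 2 (.s k83 k81 0 (.d k92 k88 k89 1 2))))) .n)))))

def s2_170_243 : T TT 256 :=
  (.q k16 [(.s k84 k87 0 (.s k220 k152 9 (.s k153 k19 10 (.s k221 k17 9 (.d k223 k222 k154 0
  10))))), (.s k48 k32 3 (.s k84 k87 0 (.s k152 k220 9 (.s k100 k204 13 (.s k116 k68 3 (.d k252 k184
  k168 9 13)))))), (.s k48 k32 3 (.s k154 k223 10 (.s k18 k222 9 (.s k3 k33 4 (.s k101 k207 14 (.s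
  k116 k71 4 (.d k252 k184 k169 9 14)))))))] (.c k220 (.l (.s k48 k32 3 (.s k84 k87 0 (.s k154 k223
  10 (.s k101 k207 14 (.s k116 k71 4 (.d k252 k184 k168 9 13))))))) .n))

def s2_170_244 : T TT 256 :=
  (.q k16 [(.s k84 k87 0 (.s k220 k152 9 (.s k153 k19 10 (.s k221 k17 9 (.d k223 k222 k154 0
  10))))), (.s k48 k32 3 (.s k84 k87 0 (.s k152 k220 9 (.s k100 k204 13 (.s k116 k68 3 (.d k252 k184
  k168 9 13)))))), (.s k48 k32 3 (.s k154 k223 10 (.s k18 k222 9 (.s k3 k33 4 (.s k101 k207 14 (.s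
  k116 k71 4 (.d k252 k184 k169 9 14)))))))] (.c k220 (.l (.s k48 k32 3 (.s k84 k87 0 (.s k154 k223
  10 (.s k101 k207 14 (.s k116 k71 4 (.d k252 k184 k168 9 13))))))) .n))

def s2_170_245 : T TT 256 :=
  (.q k4 [(.s k84 k87 0 (.s k166 k247 12 (.s k6 k246 11 (.s k244 k164 11 (.d k7 k5 k165 0 12))))),
  (.s k12 k8 1 (.s k84 k87 0 (.s k252 k168 13 (.s k92 k172 11 (.s k88 k80 1 (.d k164 k244 k240 11
  13)))))), (.s k12 k8 1 (.s k166 k247 12 (.s k89 k243 14 (.s k92 k83 2 (.s k252 k172 11 (.s k3 k169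
  14 (.d k6 k246 k9 11 2)))))))] (.c k244 (.l (.s k12 k8 1 (.s k84 k87 0 (.s k166 k247 12 (.s k246
  k6 11 (.s k252 k168 13 (.d k243 k89 k249 14 2))))))) .n))

def s2_170_246 : T TT 256 :=
  (.q k16 [(.s k84 k87 0 (.s k220 k152 9 (.s k153 k19 10 (.s k221 k17 9 (.d k223 k222 k154 0
  10))))), (.s k48 k32 3 (.s k84 k87 0 (.s k152 k220 9 (.s k100 k204 13 (.s k116 k68 3 (.d k252 k184
  k168 9 13)))))), (.s k48 k32 3 (.s k154 k223 10 (.s k18 k222 9 (.s k3 k33 4 (.s k101 k207 14 (.s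
  k116 k71 4 (.d k252 k184 k169 9 14)))))))] (.c k220 (.l (.s k48 k32 3 (.s k84 k87 0 (.s k154 k223
  10 (.s k101 k207 14 (.s k116 k71 4 (.d k252 k184 k168 9 13))))))) .n))

def s2_170_247 : T TT 256 :=
  (.q k16 [(.s k84 k87 0 (.s k220 k152 9 (.s k153 k19 10 (.s k221 k17 9 (.d k223 k222 k154 0
  10))))), (.s k48 k32 3 (.s k154 k223 10 (.s k18 k222 9 (.s k3 k33 4 (.s k101 k207 14 (.s k116 k71
  4 (.d k252 k184 k169 9 14))))))), (.s k48 k32 3 (.s k84 k87 0 (.s k152 k220 9 (.s k100 k204 13 (.s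
  k116 k68 3 (.d k252 k184 k168 9 13))))))] (.c k220 (.l (.s k48 k32 3 (.s k84 k87 0 (.s k154 k223
  10 (.s k101 k207 14 (.s k116 k71 4 (.d k252 k184 k168 9 13))))))) .n))

def s2_170_248 : T TT 256 :=
  (.q k4 [(.s k84 k87 0 (.s k244 k164 11 (.s k165 k7 12 (.s k245 k5 11 (.d k247 k246 k166 0 12))))),
  (.s k12 k8 1 (.s k84 k87 0 (.s k164 k244 11 (.s k88 k240 13 (.s k252 k168 13 (.d k92 k80 k172 1
  11)))))), (.s k12 k8 1 (.s k166 k247 12 (.s k6 k246 11 (.s k3 k9 2 (.s k89 k243 14 (.s k92 k83 2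
  (.d k252 k172 k169 11 14)))))))] (.c k244 (.l (.s k12 k8 1 (.s k84 k87 0 (.s k166 k247 12 (.s k89
  k243 14 (.s k92 k83 2 (.d k252 k168 k172 13 11))))))) .n))

def s2_170_249 : T TT 256 :=
  (.q k4 [(.s k84 k87 0 (.s k244 k164 11 (.s k165 k7 12 (.s k245 k5 11 (.d k247 k246 k166 0 12))))),
  (.s k12 k8 1 (.s k84 k87 0 (.s k164 k244 11 (.s k88 k240 13 (.s k92 k80 1 (.d k252 k172 k168 11
  13)))))), (.s k12 k8 1 (.s k166 k247 12 (.s k6 k246 11 (.s k3 k9 2 (.s k89 k243 14 (.s k252 k169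
  14 (.d k92 k83 k172 2 11)))))))] (.c k244 (.l (.s k12 k8 1 (.s k84 k87 0 (.s k166 k247 12 (.s k89
  k243 14 (.s k92 k83 2 (.d k252 k172 k168 11 13))))))) .n))

def s2_170_250 : T TT 256 :=
  (.q k90 [(.s k80 k95 2 (.s k82 k94 1 (.s k83 k81 0 (.s k84 k87 0 (.d k92 k88 k89 1 2))))), (.s k84
  k87 0 (.s k94 k82 1 (.s k252 k168 13 (.s k15 k173 12 (.s k5 k10 2 (.d k165 k245 k240 11 14)))))),
  (.s k80 k95 2 (.s k84 k87 0 (.s k240 k160 11 (.s k165 k15 14 (.s k244 k7 12 (.d k252 k248 k168 1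
  13)))))), (.s k80 k95 2 (.s k82 k94 1 (.s k240 k160 11 (.s k3 k161 12 (.s k165 k15 14 (.s k244 k7
  12 (.d k252 k248 k169 1 14)))))))] .n)

def s2_170_251 : T TT 256 :=
  (.q k89 [(.s k84 k87 0 (.s k92 k83 2 (.s k80 k88 1 (.s k93 k81 1 (.d k95 k94 k90 0 2))))), (.s k81
  k93 1 (.s k84 k87 0 (.s k243 k162 12 (.s k166 k12 14 (.s k246 k6 11 (.d k252 k249 k168 2 13)))))),
  (.s k84 k87 0 (.s k92 k83 2 (.s k252 k168 13 (.s k12 k172 11 (.s k4 k8 1 (.d k166 k247 k243 12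
  14)))))), (.s k81 k93 1 (.s k83 k92 2 (.s k243 k162 12 (.s k3 k163 11 (.s k166 k12 14 (.s k246 k6
  11 (.d k252 k249 k169 2 14)))))))] .n)

def s2_170_252 : T TT 256 :=
  (.f k84 k87 0 (.q k4 [(.s k244 k164 11 (.s k165 k7 12 (.s k245 k5 11 (.d k247 k246 k166 0 12)))),
  (.s k12 k8 1 (.s k166 k247 12 (.s k89 k243 14 (.s k92 k83 2 (.s k80 k88 1 (.s k93 k81 1 (.d k95
  k94 k90 0 2))))))), (.s k12 k8 1 (.s k164 k244 11 (.s k240 k88 13 (.s k80 k160 11 (.s k90 k95 2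
  (.s k165 k15 14 (.d k166 k167 k247 0 12)))))))] (.c k166 (.f k244 k164 11 (.f k165 k7 12 (.l (.s
  k5 k245 11 (.s k15 k10 2 (.s k90 k240 14 (.s k80 k95 2 (.s k82 k94 1 (.s k83 k81 0 (.d k92 k88 k89
  1 2)))))))))) (.c k167 (.l (.s k244 k164 11 (.s k7 k165 12 (.s k166 k247 12 (.d k6 k5 k246 0
  11))))) (.c k247 (.f k12 k8 1 (.f k164 k244 11 (.f k240 k88 13 (.l (.s k80 k160 11 (.s k90 k95 2
  (.s k82 k94 1 (.s k3 k161 12 (.s k6 k9 2 (.s k7 k5 0 (.d k15 k11 k165 1 14))))))))))) .n)))))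

def s2_170_253 : T TT 256 :=
  (.q k4 [(.s k84 k87 0 (.s k244 k164 11 (.s k165 k7 12 (.s k245 k5 11 (.d k247 k246 k166 0 12))))),
  (.s k12 k8 1 (.s k84 k87 0 (.s k164 k244 11 (.s k88 k240 13 (.s k92 k80 1 (.d k252 k172 k168 11
  13)))))), (.s k12 k8 1 (.s k166 k247 12 (.s k6 k246 11 (.s k3 k9 2 (.s k89 k243 14 (.s k92 k83 2
  (.d k252 k172 k169 11 14)))))))] (.c k244 (.l (.s k12 k8 1 (.s k84 k87 0 (.s k166 k247 12 (.s k89
  k243 14 (.s k92 k83 2 (.d k252 k172 k168 11 13))))))) .n))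

def s2_170_254 : T TT 256 :=
  (.q k4 [(.s k84 k87 0 (.s k244 k164 11 (.s k165 k7 12 (.s k245 k5 11 (.d k247 k246 k166 0 12))))),
  (.s k12 k8 1 (.s k84 k87 0 (.s k164 k244 11 (.s k88 k240 13 (.s k92 k80 1 (.d k252 k172 k168 11
  13)))))), (.s k12 k8 1 (.s k166 k247 12 (.s k6 k246 11 (.s k3 k9 2 (.s k89 k243 14 (.s k92 k83 2
  (.d k252 k172 k169 11 14)))))))] (.c k244 (.l (.s k12 k8 1 (.s k84 k87 0 (.s k166 k247 12 (.s k89
  k243 14 (.s k92 k83 2 (.d k252 k172 k168 11 13))))))) .n))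

def s2_170_255 : T TT 256 :=
  (.q k4 [(.s k84 k87 0 (.s k244 k164 11 (.s k165 k7 12 (.s k245 k5 11 (.d k247 k246 k166 0 12))))),
  (.s k12 k8 1 (.s k166 k247 12 (.s k6 k246 11 (.s k3 k9 2 (.s k169 k252 14 (.s k163 k172 2 (.d k243
  k89 k83 14 11))))))), (.s k12 k8 1 (.s k84 k87 0 (.s k164 k244 11 (.s k88 k240 13 (.s k92 k80 1
  (.d k252 k172 k168 11 13)))))), (.s k12 k8 1 (.s k84 k87 0 (.s k166 k247 12 (.s k246 k6 11 (.s
  k252 k168 13 (.d k243 k89 k249 14 2))))))] (.c k3 (.l (.s k87 k84 0 (.s k247 k166 12 (.s k7 k167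
  11 (.s k5 k6 0 (.d k165 k245 k244 11 12)))))) .n))

def t2_170 : T TT 256 :=
  (.q k86 [] (.c k1 s2_170_1 (.c k3 s2_170_3 (.c k4 s2_170_4 (.c k5 s2_170_5 (.c k6 s2_170_6 (.c k7
  s2_170_7 (.c k8 s2_170_8 (.c k9 s2_170_9 (.c k10 s2_170_10 (.c k11 s2_170_11 (.c k12 s2_170_12 (.c
  k13 s2_170_13 (.c k14 s2_170_14 (.c k15 s2_170_15 (.c k16 s2_170_16 (.c k17 s2_170_17 (.c k18
  s2_170_18 (.c k19 s2_170_19 (.c k20 s2_170_20 (.c k21 s2_170_21 (.c k22 s2_170_22 (.c k23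
  s2_170_23 (.c k24 s2_170_24 (.c k25 s2_170_25 (.c k26 s2_170_26 (.c k27 s2_170_27 (.c k28
  s2_170_28 (.c k29 s2_170_29 (.c k30 s2_170_30 (.c k31 s2_170_31 (.c k32 s2_170_32 (.c k33
  s2_170_33 (.c k34 s2_170_34 (.c k35 s2_170_35 (.c k36 s2_170_36 (.c k37 s2_170_37 (.c k38
  s2_170_38 (.c k39 s2_170_39 (.c k40 s2_170_40 (.c k41 s2_170_41 (.c k42 s2_170_42 (.c k43
  s2_170_43 (.c k44 s2_170_44 (.c k45 s2_170_45 (.c k46 s2_170_46 (.c k47 s2_170_47 (.c k48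
  s2_170_48 (.c k49 s2_170_49 (.c k50 s2_170_50 (.c k51 s2_170_51 (.c k52 s2_170_52 (.c k53
  s2_170_53 (.c k54 s2_170_54 (.c k55 s2_170_55 (.c k56 s2_170_56 (.c k57 s2_170_57 (.c k58
  s2_170_58 (.c k59 s2_170_59 (.c k60 s2_170_60 (.c k61 s2_170_61 (.c k62 s2_170_62 (.c k63
  s2_170_63 (.c k64 s2_170_64 (.c k65 s2_170_65 (.c k66 s2_170_66 (.c k67 s2_170_67 (.c k68
  s2_170_68 (.c k69 s2_170_69 (.c k70 s2_170_70 (.c k71 s2_170_71 (.c k72 s2_170_72 (.c k73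
  s2_170_73 (.c k74 s2_170_74 (.c k75 s2_170_75 (.c k76 s2_170_76 (.c k77 s2_170_77 (.c k78
  s2_170_78 (.c k79 s2_170_79 (.c k80 s2_170_80 (.c k81 s2_170_81 (.c k82 s2_170_82 (.c k83
  s2_170_83 (.c k84 s2_170_84 (.c k87 s2_170_87 (.c k88 s2_170_88 (.c k89 s2_170_89 (.c k90
  s2_170_90 (.c k91 s2_170_91 (.c k92 s2_170_92 (.c k93 s2_170_93 (.c k94 s2_170_94 (.c k95
  s2_170_95 (.c k96 s2_170_96 (.c k97 s2_170_97 (.c k98 s2_170_98 (.c k99 s2_170_99 (.c k100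
  s2_170_100 (.c k101 s2_170_101 (.c k102 s2_170_102 (.c k103 s2_170_103 (.c k104 s2_170_104 (.c
  k105 s2_170_105 (.c k106 s2_170_106 (.c k107 s2_170_107 (.c k108 s2_170_108 (.c k109 s2_170_109
  (.c k110 s2_170_110 (.c k111 s2_170_111 (.c k112 s2_170_112 (.c k113 s2_170_113 (.c k114
  s2_170_114 (.c k115 s2_170_115 (.c k116 s2_170_116 (.c k117 s2_170_117 (.c k118 s2_170_118 (.c
  k119 s2_170_119 (.c k120 s2_170_120 (.c k121 s2_170_121 (.c k122 s2_170_122 (.c k123 s2_170_123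
  (.c k124 s2_170_124 (.c k125 s2_170_125 (.c k126 s2_170_126 (.c k127 s2_170_127 (.c k128
  s2_170_128 (.c k129 s2_170_129 (.c k130 s2_170_130 (.c k131 s2_170_131 (.c k132 s2_170_132 (.c
  k133 s2_170_133 (.c k134 s2_170_134 (.c k135 s2_170_135 (.c k136 s2_170_136 (.c k137 s2_170_137
  (.c k138 s2_170_138 (.c k139 s2_170_139 (.c k140 s2_170_140 (.c k141 s2_170_141 (.c k142
  s2_170_142 (.c k143 s2_170_143 (.c k144 s2_170_144 (.c k145 s2_170_145 (.c k146 s2_170_146 (.c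
  k147 s2_170_147 (.c k148 s2_170_148 (.c k149 s2_170_149 (.c k150 s2_170_150 (.c k151 s2_170_151
  (.c k152 s2_170_152 (.c k153 s2_170_153 (.c k154 s2_170_154 (.c k155 s2_170_155 (.c k156
  s2_170_156 (.c k157 s2_170_157 (.c k158 s2_170_158 (.c k159 s2_170_159 (.c k160 s2_170_160 (.c
  k161 s2_170_161 (.c k162 s2_170_162 (.c k163 s2_170_163 (.c k164 s2_170_164 (.c k165 s2_170_165
  (.c k166 s2_170_166 (.c k167 s2_170_167 (.c k168 s2_170_168 (.c k169 s2_170_169 (.c k171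
  s2_170_171 (.c k172 s2_170_172 (.c k173 s2_170_173 (.c k174 s2_170_174 (.c k175 s2_170_175 (.c
  k176 s2_170_176 (.c k177 s2_170_177 (.c k178 s2_170_178 (.c k179 s2_170_179 (.c k180 s2_170_180
  (.c k181 s2_170_181 (.c k182 s2_170_182 (.c k183 s2_170_183 (.c k184 s2_170_184 (.c k185
  s2_170_185 (.c k186 s2_170_186 (.c k187 s2_170_187 (.c k188 s2_170_188 (.c k189 s2_170_189 (.c
  k190 s2_170_190 (.c k191 s2_170_191 (.c k192 s2_170_192 (.c k193 s2_170_193 (.c k194 s2_170_194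
  (.c k195 s2_170_195 (.c k196 s2_170_196 (.c k197 s2_170_197 (.c k198 s2_170_198 (.c k199
  s2_170_199 (.c k200 s2_170_200 (.c k201 s2_170_201 (.c k202 s2_170_202 (.c k203 s2_170_203 (.c
  k204 s2_170_204 (.c k205 s2_170_205 (.c k206 s2_170_206 (.c k207 s2_170_207 (.c k208 s2_170_208
  (.c k209 s2_170_209 (.c k210 s2_170_210 (.c k211 s2_170_211 (.c k212 s2_170_212 (.c k213
  s2_170_213 (.c k214 s2_170_214 (.c k215 s2_170_215 (.c k216 s2_170_216 (.c k217 s2_170_217 (.c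
  k218 s2_170_218 (.c k219 s2_170_219 (.c k220 s2_170_220 (.c k221 s2_170_221 (.c k222 s2_170_222
  (.c k223 s2_170_223 (.c k224 s2_170_224 (.c k225 s2_170_225 (.c k226 s2_170_226 (.c k227
  s2_170_227 (.c k228 s2_170_228 (.c k229 s2_170_229 (.c k230 s2_170_230 (.c k231 s2_170_231 (.c
  k232 s2_170_232 (.c k233 s2_170_233 (.c k234 s2_170_234 (.c k235 s2_170_235 (.c k236 s2_170_236
  (.c k237 s2_170_237 (.c k238 s2_170_238 (.c k239 s2_170_239 (.c k240 s2_170_240 (.c k241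
  s2_170_241 (.c k242 s2_170_242 (.c k243 s2_170_243 (.c k244 s2_170_244 (.c k245 s2_170_245 (.c
  k246 s2_170_246 (.c k247 s2_170_247 (.c k248 s2_170_248 (.c k249 s2_170_249 (.c k250 s2_170_250
  (.c k251 s2_170_251 (.c k252 s2_170_252 (.c k253 s2_170_253 (.c k254 s2_170_254 (.c k255
  s2_170_255 .n))))))))))))))))))))))))))))))))))))))))))))))))))))))))))))))))))))))))))))))))
  ))))))))))))))))))))))))))))))))))))))))))))))))))))))))))))))))))))))))))))))))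
  )))))))))))))))))))))))))))))))))))))))))))))))))))))))))))))))))))))))))))))))) ))))))))))))

/-- roots with certificates -/
def certs : List (Cell TT 256 × Cell TT 256 × T TT 256) :=
  [(k1, k170, t1_170), (k1, k255, t1_255), (k2, k170, t2_170)]

theorem c1_170 : rootOK k1 k170 t1_170 = true := by decide +kernel

theorem c1_255 : rootOK k1 k255 t1_255 = true := by decide +kernel

theorem c2_170 : rootOK k2 k170 t2_170 = true := by decide +kernel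

theorem ok : certsOK certs = true :=
  certsOK_cons c1_170 (certsOK_cons c1_255 (certsOK_cons c2_170 (certsOK_nil)))

theorem sound (k : Nat) (hk : (bits certs).testBit k = true) : PI k :=
  certs_sound certs ok k hk

end Pool.Agent.TTT.B01
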