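import Pool.Agent.TTT.Sym

set_option autoImplicit false
set_option maxRecDepth 100000

namespace Pool.Agent.TTT.B02

def s2_255_1 : T TT 256 :=
  (.q k21 [(.s k5 k10 2 (.s k37 k53 3 (.s k26 k48 6 (.s k31 k16 2 (.d k63 k47 k42 3 6))))), (.s k63
  k42 6 (.s k31 k47 3 (.s k149 k213 7 (.s k90 k208 10 (.s k80 k95 2 (.d k240 k160 k165 11 14)))))),
  (.s k5 k10 2 (.s k53 k37 3 (.s k149 k213 7 (.s k101 k197 11 (.s k117 k69 3 (.d k245 k181 k165 7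
  11))))))] (.c k37 (.l (.s k5 k10 2 (.s k63 k42 6 (.s k47 k31 3 (.s k149 k213 7 (.s k165 k245 11
  (.d k106 k192 k224 14 10))))))) .n))

def s2_255_3 : T TT 256 :=
  (.q k207 [(.s k10 k5 2 (.s k143 k79 7 (.s k138 k69 10 (.s k133 k128 2 (.d k74 k202 k192 7 10))))),
  (.s k5 k10 2 (.s k143 k79 7 (.s k165 k245 11 (.s k154 k176 6 (.s k16 k223 10 (.d k48 k32 k101 3
  14)))))), (.s k69 k138 10 (.s k79 k143 7 (.s k101 k117 3 (.s k90 k112 6 (.s k80 k95 2 (.d k240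
  k160 k165 11 14)))))), (.s k5 k10 2 (.s k69 k138 10 (.s k101 k117 3 (.s k48 k154 14 (.s k37 k26 6
  (.d k165 k229 k245 7 11))))))] (.c k87 (.q k171 [(.s k10 k5 2 (.s k143 k79 7 (.s k138 k69 10 (.s
  k133 k128 2 (.d k74 k202 k192 7 10))))), (.s k5 k10 2 (.s k143 k79 7 (.s k165 k245 11 (.s k154
  k176 6 (.s k16 k223 10 (.d k48 k32 k101 3 14)))))), (.s k69 k138 10 (.s k79 k143 7 (.s k101 k117 3
  (.s k90 k112 6 (.s k80 k95 2 (.d k240 k160 k165 11 14)))))), (.s k5 k10 2 (.s k69 k138 10 (.s k101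
  k117 3 (.s k48 k154 14 (.s k37 k26 6 (.d k165 k229 k245 7 11))))))] .n) (.c k171 (.q k87 [(.s k10
  k5 2 (.s k143 k79 7 (.s k138 k69 10 (.s k133 k128 2 (.d k74 k202 k192 7 10))))), (.s k5 k10 2 (.s
  k86 k84 0 (.s k165 k245 11 (.s k7 k244 12 (.s k247 k167 11 (.d k4 k6 k166 0 12)))))), (.s k69 k138
  10 (.s k79 k143 7 (.s k101 k117 3 (.s k90 k112 6 (.s k80 k95 2 (.d k240 k160 k165 11 14))))))] .n)
  .n)))

def s2_255_4 : T TT 256 :=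
  (.q k21 [(.s k5 k10 2 (.s k37 k53 3 (.s k26 k48 6 (.s k31 k16 2 (.d k63 k47 k42 3 6))))), (.s k63
  k42 6 (.s k31 k47 3 (.s k149 k213 7 (.s k90 k208 10 (.s k80 k95 2 (.d k240 k160 k165 11 14)))))),
  (.s k5 k10 2 (.s k53 k37 3 (.s k149 k213 7 (.s k101 k197 11 (.s k117 k69 3 (.d k245 k181 k165 7
  11))))))] (.c k37 (.l (.s k5 k10 2 (.s k63 k42 6 (.s k47 k31 3 (.s k149 k213 7 (.s k165 k245 11
  (.d k106 k192 k224 14 10))))))) .n))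

def s2_255_5 : T TT 256 :=
  (.q k80 [(.s k90 k95 2 (.d k240 k160 k165 11 14))] (.c k90 (.f k240 k160 11 (.q k81 [(.s k82 k83 0
  (.s k161 k3 12 (.s k243 k162 12 (.d k241 k242 k1 0 11)))), (.s k89 k93 1 (.s k243 k162 12 (.s k12
  k166 14 (.s k8 k4 1 (.s k88 k164 13 (.s k84 k92 1 (.d k168 k248 k252 11 13)))))))] (.c k82 (.f k89
  k93 1 (.l (.s k243 k162 12 (.s k242 k241 0 (.s k12 k166 14 (.s k8 k4 1 (.s k88 k164 13 (.s k84 k92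
  1 (.d k168 k248 k252 11 13))))))))) (.c k161 (.l (.s k83 k82 0 (.s k89 k93 1 (.s k86 k92 2 (.s k84
  k87 0 (.s k252 k168 13 (.s k3 k169 14 (.d k243 k162 k163 12 11)))))))) (.c k162 (.l (.s k82 k83 0
  (.s k89 k93 1 (.s k161 k3 12 (.s k241 k1 11 (.s k13 k165 13 (.s k12 k14 0 (.d k243 k242 k166 0
  14)))))))) (.c k163 (.l (.s k82 k83 0 (.s k161 k3 12 (.s k243 k162 12 (.d k241 k242 k1 0 11)))))
  (.c k242 (.l (.s k82 k83 0 (.s k89 k93 1 (.s k161 k3 12 (.s k241 k1 11 (.s k13 k165 13 (.s k243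
  k162 12 (.d k12 k14 k166 0 14)))))))) (.c k243 (.f k83 k82 0 (.l (.s k89 k93 1 (.s k86 k92 2 (.s
  k84 k87 0 (.s k252 k168 13 (.s k244 k248 1 (.s k7 k165 12 (.d k3 k11 k169 1 14))))))))) .n))))))))
  (.c k95 (.q k16 [(.s k48 k32 3 (.s k144 k208 7 (.s k96 k192 11 (.s k112 k64 3 (.d k240 k176 k160 7
  11))))), (.s k154 k223 10 (.s k208 k144 7 (.s k240 k160 11 (.s k90 k165 14 (.s k26 k218 7 (.d k31
  k21 k149 2 10)))))), (.s k48 k32 3 (.s k26 k37 6 (.s k240 k160 11 (.s k90 k165 14 (.d k154 k218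
  k223 7 10))))), (.s k48 k32 3 (.s k26 k37 6 (.s k21 k31 2 (.s k144 k208 7 (.s k149 k213 7 (.d k154
  k159 k223 2 10))))))] .n) (.c k160 (.q k16 [(.s k48 k32 3 (.s k26 k37 6 (.s k90 k95 2 (.d k154
  k218 k223 7 10)))), (.s k90 k95 2 (.s k154 k223 10 (.s k26 k218 7 (.s k208 k144 7 (.d k31 k21 k149
  2 10))))), (.s k48 k32 3 (.s k26 k37 6 (.s k90 k95 2 (.s k208 k144 7 (.d k31 k21 k149 2 10)))))]
  (.c k21 (.l (.s k48 k32 3 (.s k90 k95 2 (.s k154 k223 10 (.d k26 k37 k218 6 7))))) (.c k26 (.l (.s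
  k90 k95 2 (.s k208 k144 7 (.s k149 k31 10 (.s k213 k21 7 (.d k223 k218 k154 2 10)))))) (.c k90 (.l
  (.s k48 k32 3 (.s k26 k37 6 (.s k21 k31 2 (.s k144 k208 7 (.s k149 k213 7 (.d k154 k223 k159 10
  2))))))) (.c k95 (.l (.s k48 k32 3 (.s k26 k37 6 (.s k21 k31 2 (.s k144 k208 7 (.s k149 k213 7 (.d
  k154 k159 k223 2 10))))))) .n))))) (.c k165 (.q k16 [(.s k48 k32 3 (.s k90 k95 2 (.s k154 k223 10
  (.d k26 k37 k218 6 7)))), (.s k48 k32 3 (.s k144 k208 7 (.s k96 k192 11 (.s k112 k64 3 (.d k240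
  k176 k160 7 11))))), (.s k90 k95 2 (.s k154 k223 10 (.s k26 k218 7 (.s k31 k21 2 (.d k208 k144
  k149 7 10)))))] .n) (.c k240 (.f k90 k95 2 (.q k64 [(.s k192 k128 7 (.s k74 k133 10 (.d k106 k122
  k127 3 6))), (.s k112 k96 3 (.s k79 k101 6 (.s k69 k74 2 (.d k207 k143 k138 7 10)))), (.s k106
  k127 6 (.s k74 k122 3 (.d k192 k128 k133 7 10)))] (.c k74 (.l (.s k112 k96 3 (.s k101 k79 6 (.s
  k117 k69 3 (.d k127 k122 k106 2 6))))) (.c k106 (.l (.s k112 k96 3 (.s k192 k128 7 (.s k74 k133 10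
  (.d k79 k69 k101 2 6))))) (.c k245 (.q k250 [(.s k192 k128 7 (.s k74 k133 10 (.d k106 k122 k127 3
  6))), (.s k112 k96 3 (.s k79 k101 6 (.s k69 k74 2 (.d k207 k143 k138 7 10)))), (.s k106 k127 6 (.s
  k74 k122 3 (.d k192 k128 k133 7 10)))] (.c k74 (.l (.s k112 k96 3 (.s k101 k79 6 (.s k117 k69 3
  (.d k127 k122 k106 2 6))))) (.c k106 (.l (.s k112 k96 3 (.s k192 k128 7 (.s k74 k133 10 (.d k79
  k69 k101 2 6))))) .n))) (.c k250 (.q k245 [(.s k106 k127 6 (.s k192 k128 7 (.d k74 k122 k133 3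
  10))), (.s k112 k96 3 (.s k79 k101 6 (.s k69 k74 2 (.d k207 k143 k138 7 10)))), (.s k192 k128 7
  (.s k74 k133 10 (.d k106 k122 k127 3 6)))] (.c k74 (.l (.s k112 k96 3 (.s k101 k79 6 (.s k117 k69
  3 (.d k127 k122 k106 2 6))))) (.c k106 (.l (.s k112 k96 3 (.s k192 k128 7 (.s k74 k133 10 (.d k79
  k69 k101 2 6))))) .n))) .n)))))) .n))))))

def s2_255_6 : T TT 256 :=
  (.q k48 [(.s k16 k32 3 (.s k26 k37 6 (.s k21 k31 2 (.s k42 k63 6 (.d k10 k5 k58 2 3))))), (.s k16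
  k32 3 (.s k154 k223 10 (.s k207 k101 14 (.s k143 k79 7 (.s k165 k176 6 (.d k5 k10 k245 2 11))))))]
  (.c k5 (.l (.s k16 k32 3 (.s k26 k37 6 (.s k154 k223 10 (.s k90 k218 7 (.s k80 k95 2 (.d k240 k160
  k165 11 14))))))) (.c k10 (.q k14 [(.s k12 k13 0 (.s k24 k36 5 (.s k26 k37 6 (.s k25 k27 0 (.d k38
  k50 k51 5 6))))), (.s k16 k32 3 (.s k26 k37 6 (.s k154 k223 10 (.s k90 k218 7 (.s k80 k95 2 (.d
  k240 k160 k165 11 14)))))), (.s k12 k13 0 (.s k4 k8 1 (.s k32 k16 3 (.s k36 k24 5 (.s k20 k52 3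
  (.d k40 k44 k60 1 5))))))] .n) (.c k14 (.l (.s k10 k5 2 (.s k16 k32 3 (.s k26 k37 6 (.s k21 k31 2
  (.d k42 k58 k63 3 6)))))) (.c k16 (.q k12 [(.s k14 k13 0 (.s k24 k36 5 (.s k26 k37 6 (.s k25 k27 0
  (.d k38 k50 k51 5 6))))), (.s k4 k8 1 (.s k5 k10 2 (.s k14 k13 0 (.s k165 k245 11 (.s k166 k247 12
  (.d k90 k240 k242 14 13))))))] (.c k10 (.l (.s k14 k13 0 (.s k24 k36 5 (.s k26 k37 6 (.s k25 k27 0
  (.d k38 k50 k51 5 6)))))) (.c k13 (.l (.s k4 k8 1 (.s k36 k24 5 (.s k37 k26 6 (.s k38 k39 0 (.s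
  k21 k55 4 (.d k5 k10 k53 2 3))))))) (.c k14 (.l (.s k10 k5 2 (.s k24 k36 5 (.s k26 k37 6 (.s k25
  k27 0 (.s k42 k58 3 (.d k8 k4 k59 1 4))))))) .n)))) (.c k32 (.q k12 [(.s k36 k24 5 (.s k37 k26 6
  (.s k38 k39 0 (.s k25 k51 6 (.d k13 k14 k49 0 5))))), (.s k4 k8 1 (.s k5 k10 2 (.s k14 k13 0 (.s
  k165 k245 11 (.s k166 k247 12 (.d k90 k240 k242 14 13))))))] (.c k10 (.l (.s k14 k13 0 (.s k24 k36
  5 (.s k26 k37 6 (.s k25 k27 0 (.d k38 k50 k51 5 6)))))) (.c k13 (.l (.s k4 k8 1 (.s k36 k24 5 (.s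
  k37 k26 6 (.s k38 k39 0 (.s k21 k55 4 (.d k5 k10 k53 2 3))))))) (.c k14 (.l (.s k10 k5 2 (.s k24
  k36 5 (.s k26 k37 6 (.s k25 k27 0 (.s k42 k58 3 (.d k8 k4 k59 1 4))))))) .n)))) .n))))))

def s2_255_7 : T TT 256 :=
  (.q k21 [(.s k5 k10 2 (.s k37 k53 3 (.s k26 k48 6 (.s k31 k16 2 (.d k63 k47 k42 3 6))))), (.s k63
  k42 6 (.s k31 k47 3 (.s k149 k213 7 (.s k90 k208 10 (.s k80 k95 2 (.d k240 k160 k165 11 14)))))),
  (.s k5 k10 2 (.s k53 k37 3 (.s k149 k213 7 (.s k101 k197 11 (.s k117 k69 3 (.d k245 k181 k165 7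
  11))))))] (.c k37 (.l (.s k5 k10 2 (.s k63 k42 6 (.s k47 k31 3 (.s k149 k213 7 (.s k165 k245 11
  (.d k106 k192 k224 14 10))))))) .n))

def s2_255_8 : T TT 256 :=
  (.q k21 [(.s k10 k5 2 (.s k42 k63 6 (.s k26 k58 3 (.s k16 k31 2 (.d k48 k32 k37 3 6))))), (.s k5
  k10 2 (.s k53 k37 3 (.s k149 k213 7 (.s k101 k197 11 (.s k117 k69 3 (.d k245 k181 k165 7 11)))))),
  (.s k63 k42 6 (.s k31 k47 3 (.s k149 k213 7 (.s k90 k208 10 (.s k80 k95 2 (.d k240 k160 k165 11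
  14))))))] (.c k37 (.l (.s k5 k10 2 (.s k63 k42 6 (.s k47 k31 3 (.s k149 k213 7 (.s k165 k245 11
  (.d k106 k192 k224 14 10))))))) .n))

def s2_255_9 : T TT 256 :=
  (.q k21 [(.s k10 k5 2 (.s k42 k63 6 (.s k26 k58 3 (.s k16 k31 2 (.d k48 k32 k37 3 6))))), (.s k5
  k10 2 (.s k53 k37 3 (.s k149 k213 7 (.s k101 k197 11 (.s k117 k69 3 (.d k245 k181 k165 7 11)))))),
  (.s k63 k42 6 (.s k31 k47 3 (.s k149 k213 7 (.s k90 k208 10 (.s k80 k95 2 (.d k240 k160 k165 11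
  14))))))] (.c k37 (.l (.s k5 k10 2 (.s k63 k42 6 (.s k47 k31 3 (.s k149 k213 7 (.s k165 k245 11
  (.d k106 k192 k224 14 10))))))) .n))

def s2_255_10 : T TT 256 :=
  (.q k90 [(.s k80 k95 2 (.d k240 k160 k165 11 14))] (.c k6 (.q k14 [(.s k80 k95 2 (.d k240 k160
  k165 11 14)), (.s k12 k13 0 (.s k4 k8 1 (.d k166 k247 k242 12 13)))] .n) (.c k14 (.q k6 [(.s k80
  k95 2 (.d k240 k160 k165 11 14))] (.c k80 (.q k3 [(.s k7 k11 1 (.s k4 k5 0 (.d k12 k8 k9 1 2))),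
  (.s k240 k165 14 (.s k82 k161 12 (.s k86 k94 1 (.s k84 k87 0 (.d k252 k169 k168 14 13)))))] .n)
  (.c k95 (.q k3 [(.s k7 k11 1 (.s k4 k5 0 (.d k12 k8 k9 1 2))), (.s k240 k165 14 (.s k82 k161 12
  (.s k86 k94 1 (.s k84 k87 0 (.d k252 k169 k168 14 13)))))] .n) (.c k160 (.q k3 [(.s k7 k11 1 (.s
  k4 k5 0 (.d k12 k8 k9 1 2))), (.s k240 k165 14 (.s k82 k161 12 (.s k86 k94 1 (.s k84 k87 0 (.d
  k252 k169 k168 14 13)))))] .n) (.c k165 (.q k3 [(.s k7 k11 1 (.s k4 k5 0 (.d k12 k8 k9 1 2))), (.s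
  k80 k95 2 (.s k240 k160 11 (.s k82 k161 12 (.s k86 k94 1 (.s k84 k87 0 (.d k252 k169 k168 14
  13))))))] .n) (.c k240 (.f k95 k80 2 (.q k154 [(.s k16 k223 10 (.s k48 k32 3 (.d k26 k37 k218 6
  7))), (.s k218 k26 7 (.s k223 k16 10 (.s k31 k159 7 (.d k208 k213 k149 2 10)))), (.s k26 k218 7
  (.s k48 k37 6 (.s k207 k101 14 (.s k69 k138 10 (.s k79 k143 7 (.s k127 k111 3 (.d k64 k74 k106 2
  6))))))), (.s k16 k223 10 (.s k48 k32 3 (.s k207 k101 14 (.s k69 k138 10 (.s k79 k143 7 (.s k127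
  k111 3 (.d k64 k74 k106 2 6)))))))] (.c k245 (.q k250 [(.s k16 k223 10 (.s k48 k32 3 (.d k26 k37
  k218 6 7))), (.s k218 k26 7 (.s k223 k16 10 (.s k31 k159 7 (.d k208 k213 k149 2 10)))), (.s k26
  k218 7 (.s k48 k37 6 (.s k207 k101 14 (.s k69 k138 10 (.s k79 k143 7 (.s k127 k111 3 (.d k64 k74
  k106 2 6))))))), (.s k16 k223 10 (.s k48 k32 3 (.s k207 k101 14 (.s k69 k138 10 (.s k79 k143 7 (.s
  k127 k111 3 (.d k64 k74 k106 2 6)))))))] .n) (.c k250 (.q k245 [(.s k16 k223 10 (.s k48 k32 3 (.d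
  k26 k37 k218 6 7))), (.s k218 k26 7 (.s k223 k16 10 (.s k31 k159 7 (.d k208 k213 k149 2 10)))),
  (.s k26 k218 7 (.s k48 k37 6 (.s k165 k5 11 (.s k143 k176 6 (.d k207 k79 k101 7 14))))), (.s k16
  k223 10 (.s k48 k32 3 (.s k165 k5 11 (.s k143 k176 6 (.d k207 k79 k101 7 14)))))] .n) .n))))
  .n)))))) (.c k80 (.q k14 [(.s k12 k13 0 (.s k4 k8 1 (.d k166 k247 k242 12 13))), (.s k12 k13 0 (.s
  k165 k240 14 (.s k166 k242 13 (.s k167 k164 0 (.d k243 k91 k89 13 14))))), (.s k165 k240 14 (.s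
  k166 k242 13 (.s k4 k247 12 (.s k164 k167 0 (.s k244 k84 11 (.s k7 k86 12 (.d k5 k245 k6 11
  0)))))))] (.c k166 (.l (.s k13 k12 0 (.s k165 k240 14 (.s k89 k241 13 (.s k93 k81 1 (.s k253 k173
  11 (.s k1 k169 13 (.d k5 k245 k9 11 1)))))))) (.c k242 (.l (.s k12 k13 0 (.s k4 k8 1 (.s k165 k240
  14 (.s k166 k247 12 (.s k167 k164 0 (.d k243 k91 k89 13 14))))))) .n))) (.c k95 (.q k14 [(.s k12
  k13 0 (.s k4 k8 1 (.d k166 k247 k242 12 13))), (.s k12 k13 0 (.s k165 k240 14 (.s k166 k242 13 (.s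
  k167 k164 0 (.d k243 k91 k89 13 14))))), (.s k165 k240 14 (.s k166 k242 13 (.s k4 k247 12 (.s k164
  k167 0 (.s k244 k84 11 (.s k7 k86 12 (.d k5 k245 k6 11 0))))))), (.s k12 k13 0 (.s k4 k8 1 (.s
  k240 k165 14 (.s k160 k80 11 (.s k164 k88 13 (.s k84 k244 11 (.d k168 k172 k252 1 13)))))))] .n)
  (.c k160 (.q k14 [(.s k12 k13 0 (.s k4 k8 1 (.d k166 k247 k242 12 13))), (.s k13 k12 0 (.s k95 k80
  2 (.s k165 k240 14 (.s k89 k241 13 (.s k93 k81 1 (.s k94 k92 0 (.d k173 k252 k253 12 11))))))),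
  (.s k165 k240 14 (.s k166 k242 13 (.s k4 k247 12 (.s k164 k167 0 (.s k244 k84 11 (.s k7 k86 12 (.d
  k5 k245 k6 11 0)))))))] (.c k242 (.l (.s k12 k13 0 (.s k4 k8 1 (.s k165 k240 14 (.s k166 k247 12
  (.s k167 k164 0 (.d k243 k91 k89 13 14))))))) .n)) (.c k165 (.f k80 k95 2 (.q k12 [(.s k4 k8 1 (.s
  k14 k13 0 (.d k166 k247 k242 12 13))), (.s k8 k4 1 (.s k240 k160 11 (.s k88 k164 13 (.s k84 k92 1
  (.d k168 k248 k252 11 13))))), (.s k14 k13 0 (.s k166 k242 13 (.s k89 k243 14 (.s k88 k91 0 (.d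
  k240 k160 k164 11 13)))))] (.c k6 (.l (.s k14 k13 0 (.s k4 k8 1 (.d k166 k247 k242 12 13)))) (.c
  k14 (.q k6 [(.s k4 k8 1 (.s k7 k5 0 (.d k3 k11 k9 1 2))), (.s k240 k160 11 (.s k88 k164 13 (.s k89
  k91 0 (.s k81 k93 1 (.d k243 k166 k162 14 12)))))] .n) (.c k166 (.l (.s k4 k8 1 (.s k240 k160 11
  (.s k164 k88 13 (.s k84 k244 11 (.s k86 k87 0 (.s k94 k82 1 (.d k252 k168 k173 13 12))))))))
  .n))))) (.c k240 (.f k95 k80 2 (.q k106 [(.s k64 k127 6 (.s k192 k128 7 (.d k74 k122 k133 3 10))),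
  (.s k122 k74 3 (.s k127 k64 6 (.s k79 k111 3 (.d k112 k117 k101 2 6)))), (.s k74 k122 3 (.s k192
  k133 10 (.s k63 k149 14 (.s k21 k42 6 (.s k31 k47 3 (.s k223 k159 7 (.d k16 k26 k154 2 10))))))),
  (.s k64 k127 6 (.s k192 k128 7 (.s k63 k149 14 (.s k21 k42 6 (.s k31 k47 3 (.s k223 k159 7 (.d k16
  k26 k154 2 10)))))))] (.c k6 (.q k14 [(.s k12 k13 0 (.s k4 k8 1 (.d k166 k247 k242 12 13))), (.s
  k64 k127 6 (.s k74 k122 3 (.d k192 k128 k133 7 10)))] (.c k245 (.q k250 [(.s k12 k13 0 (.s k4 k8 1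
  (.d k166 k247 k242 12 13))), (.s k64 k127 6 (.s k74 k122 3 (.d k192 k128 k133 7 10)))] .n) (.c
  k250 (.q k245 [(.s k12 k13 0 (.s k4 k8 1 (.d k166 k247 k242 12 13))), (.s k64 k127 6 (.s k74 k122
  3 (.d k192 k128 k133 7 10)))] .n) .n))) (.c k14 (.q k6 [(.s k64 k127 6 (.s k192 k128 7 (.d k74
  k122 k133 3 10))), (.s k122 k74 3 (.s k127 k64 6 (.s k79 k111 3 (.d k112 k117 k101 2 6)))), (.s
  k74 k122 3 (.s k192 k133 10 (.s k63 k149 14 (.s k21 k42 6 (.s k31 k47 3 (.s k223 k159 7 (.d k16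
  k26 k154 2 10))))))), (.s k64 k127 6 (.s k192 k128 7 (.s k63 k149 14 (.s k21 k42 6 (.s k31 k47 3
  (.s k223 k159 7 (.d k16 k26 k154 2 10)))))))] (.c k245 (.q k250 [(.s k64 k127 6 (.s k192 k128 7
  (.d k74 k122 k133 3 10))), (.s k122 k74 3 (.s k127 k64 6 (.s k79 k111 3 (.d k112 k117 k101 2
  6)))), (.s k74 k122 3 (.s k192 k133 10 (.s k63 k149 14 (.s k21 k42 6 (.s k31 k47 3 (.s k223 k159 7
  (.d k16 k26 k154 2 10))))))), (.s k64 k127 6 (.s k192 k128 7 (.s k63 k149 14 (.s k21 k42 6 (.s k31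
  k47 3 (.s k223 k159 7 (.d k16 k26 k154 2 10)))))))] .n) (.c k250 (.q k245 [(.s k64 k127 6 (.s k192
  k128 7 (.d k74 k122 k133 3 10))), (.s k122 k74 3 (.s k127 k64 6 (.s k79 k111 3 (.d k112 k117 k101
  2 6)))), (.s k74 k122 3 (.s k165 k5 11 (.s k47 k224 10 (.s k63 k31 3 (.d k192 k133 k149 10
  14))))), (.s k64 k127 6 (.s k165 k5 11 (.s k47 k224 10 (.s k63 k31 3 (.d k192 k128 k149 7 14)))))]
  .n) .n))) (.c k245 (.q k250 [(.s k64 k127 6 (.s k192 k128 7 (.d k74 k122 k133 3 10))), (.s k122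
  k74 3 (.s k127 k64 6 (.s k79 k111 3 (.d k112 k117 k101 2 6)))), (.s k74 k122 3 (.s k192 k133 10
  (.s k63 k149 14 (.s k21 k42 6 (.s k31 k47 3 (.s k223 k159 7 (.d k16 k26 k154 2 10))))))), (.s k64
  k127 6 (.s k192 k128 7 (.s k63 k149 14 (.s k21 k42 6 (.s k31 k47 3 (.s k223 k159 7 (.d k16 k26
  k154 2 10)))))))] (.c k6 (.q k14 [(.s k12 k13 0 (.s k4 k8 1 (.d k166 k247 k242 12 13))), (.s k64
  k127 6 (.s k74 k122 3 (.d k192 k128 k133 7 10)))] .n) (.c k14 (.q k6 [(.s k64 k127 6 (.s k192 k128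
  7 (.d k74 k122 k133 3 10))), (.s k122 k74 3 (.s k127 k64 6 (.s k79 k111 3 (.d k112 k117 k101 2
  6)))), (.s k74 k122 3 (.s k192 k133 10 (.s k63 k149 14 (.s k21 k42 6 (.s k31 k47 3 (.s k223 k159 7
  (.d k16 k26 k154 2 10))))))), (.s k64 k127 6 (.s k192 k128 7 (.s k63 k149 14 (.s k21 k42 6 (.s k31
  k47 3 (.s k223 k159 7 (.d k16 k26 k154 2 10)))))))] .n) .n))) (.c k250 (.q k245 [(.s k64 k127 6
  (.s k192 k128 7 (.d k74 k122 k133 3 10))), (.s k122 k74 3 (.s k127 k64 6 (.s k79 k111 3 (.d k112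
  k117 k101 2 6)))), (.s k74 k122 3 (.s k165 k5 11 (.s k47 k224 10 (.s k63 k31 3 (.d k192 k133 k149
  10 14))))), (.s k64 k127 6 (.s k165 k5 11 (.s k47 k224 10 (.s k63 k31 3 (.d k192 k128 k149 7
  14)))))] (.c k6 (.q k14 [(.s k12 k13 0 (.s k4 k8 1 (.d k166 k247 k242 12 13))), (.s k64 k127 6 (.s
  k74 k122 3 (.d k192 k128 k133 7 10)))] .n) (.c k14 (.q k6 [(.s k64 k127 6 (.s k192 k128 7 (.d k74
  k122 k133 3 10))), (.s k122 k74 3 (.s k127 k64 6 (.s k79 k111 3 (.d k112 k117 k101 2 6)))), (.s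
  k74 k122 3 (.s k165 k5 11 (.s k47 k224 10 (.s k63 k31 3 (.d k192 k133 k149 10 14))))), (.s k64
  k127 6 (.s k165 k5 11 (.s k47 k224 10 (.s k63 k31 3 (.d k192 k128 k149 7 14)))))] .n) .n)))
  .n)))))) .n))))))))

def s2_255_11 : T TT 256 :=
  (.q k21 [(.s k10 k5 2 (.s k42 k63 6 (.s k26 k58 3 (.s k16 k31 2 (.d k48 k32 k37 3 6))))), (.s k5
  k10 2 (.s k53 k37 3 (.s k149 k213 7 (.s k101 k197 11 (.s k117 k69 3 (.d k245 k181 k165 7 11)))))),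
  (.s k63 k42 6 (.s k31 k47 3 (.s k149 k213 7 (.s k90 k208 10 (.s k80 k95 2 (.d k240 k160 k165 11
  14))))))] (.c k37 (.l (.s k5 k10 2 (.s k63 k42 6 (.s k47 k31 3 (.s k149 k213 7 (.s k165 k245 11
  (.d k106 k192 k224 14 10))))))) .n))

def s2_255_12 : T TT 256 :=
  (.q k149 [(.s k5 k10 2 (.s k21 k213 7 (.s k53 k37 3 (.s k101 k197 11 (.s k117 k69 3 (.d k245 k181
  k165 7 11)))))), (.s k21 k213 7 (.s k63 k42 6 (.s k31 k47 3 (.s k90 k208 10 (.s k80 k95 2 (.d k240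
  k160 k165 11 14)))))), (.s k5 k10 2 (.s k165 k245 11 (.s k133 k181 3 (.s k192 k74 10 (.s k64 k128
  7 (.d k106 k127 k63 6 14))))))] (.c k93 (.q k174 [(.s k5 k10 2 (.s k21 k213 7 (.s k53 k37 3 (.s
  k101 k197 11 (.s k117 k69 3 (.d k245 k181 k165 7 11)))))), (.s k21 k213 7 (.s k63 k42 6 (.s k31
  k47 3 (.s k90 k208 10 (.s k80 k95 2 (.d k240 k160 k165 11 14)))))), (.s k5 k10 2 (.s k165 k245 11
  (.s k133 k181 3 (.s k192 k74 10 (.s k64 k128 7 (.d k106 k127 k63 6 14))))))] (.c k165 (.l (.s k5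
  k10 2 (.s k21 k213 7 (.s k37 k53 3 (.s k26 k48 6 (.s k31 k16 2 (.d k63 k47 k42 3 6))))))) (.c k192
  (.l (.s k5 k10 2 (.s k165 k245 11 (.s k133 k181 3 (.s k197 k69 7 (.s k53 k101 11 (.d k21 k37 k213
  3 7))))))) .n))) (.c k165 (.l (.s k5 k10 2 (.s k21 k213 7 (.s k37 k53 3 (.s k26 k48 6 (.s k31 k16
  2 (.d k63 k47 k42 3 6))))))) (.c k174 (.q k93 [(.s k89 k81 1 (.s k29 k209 9 (.s k221 k157 7 (.s
  k17 k153 9 (.d k21 k25 k213 1 7))))), (.s k5 k10 2 (.s k21 k213 7 (.s k37 k53 3 (.s k26 k48 6 (.s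
  k31 k16 2 (.d k63 k47 k42 3 6)))))), (.s k5 k10 2 (.s k89 k81 1 (.s k165 k245 11 (.s k13 k241 13
  (.s k1 k9 1 (.d k253 k173 k169 11 13))))))] .n) (.c k192 (.l (.s k5 k10 2 (.s k165 k245 11 (.s
  k133 k181 3 (.s k197 k69 7 (.s k53 k101 11 (.d k21 k37 k213 3 7))))))) .n)))))

def s2_255_13 : T TT 256 :=
  (.q k21 [(.s k5 k10 2 (.s k37 k53 3 (.s k26 k48 6 (.s k31 k16 2 (.d k63 k47 k42 3 6))))), (.s k63
  k42 6 (.s k31 k47 3 (.s k149 k213 7 (.s k90 k208 10 (.s k80 k95 2 (.d k240 k160 k165 11 14)))))),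
  (.s k5 k10 2 (.s k53 k37 3 (.s k149 k213 7 (.s k101 k197 11 (.s k117 k69 3 (.d k245 k181 k165 7
  11))))))] (.c k37 (.l (.s k5 k10 2 (.s k63 k42 6 (.s k47 k31 3 (.s k149 k213 7 (.s k165 k245 11
  (.d k106 k192 k224 14 10))))))) .n))

def s2_255_14 : T TT 256 :=
  (.f k5 k10 2 (.q k6 [(.s k7 k4 0 (.s k165 k245 11 (.s k86 k244 12 (.s k84 k87 0 (.s k252 k168 13
  (.d k3 k11 k169 1 14)))))), (.s k4 k7 0 (.s k12 k8 1 (.s k166 k247 12 (.s k243 k89 14 (.s k167 k91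
  13 (.d k165 k164 k245 0 11)))))), (.s k4 k7 0 (.s k12 k8 1 (.s k9 k3 2 (.s k1 k13 1 (.s k166 k247
  12 (.s k169 k253 13 (.d k89 k243 k249 14 11))))))), (.s k7 k4 0 (.s k3 k11 1 (.s k9 k12 2 (.s k1
  k13 1 (.s k165 k245 11 (.s k169 k253 13 (.d k86 k252 k244 14 12)))))))] (.c k4 (.q k1 [(.s k13 k9
  1 (.s k253 k169 13 (.s k93 k173 11 (.s k89 k81 1 (.d k165 k245 k241 11 13))))), (.s k165 k245 11
  (.s k169 k253 13 (.s k173 k161 1 (.s k252 k94 12 (.s k84 k168 13 (.d k86 k87 k3 0 14)))))), (.s k9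
  k13 1 (.s k3 k12 2 (.s k7 k11 1 (.s k165 k245 11 (.s k86 k244 12 (.d k169 k253 k252 13 14))))))]
  (.c k165 (.l (.s k9 k13 1 (.s k12 k3 2 (.s k169 k253 13 (.s k89 k249 11 (.s k243 k166 14 (.d k81
  k93 k162 1 12))))))) (.c k169 (.l (.s k13 k9 1 (.s k165 k245 11 (.s k89 k241 13 (.s k81 k93 1 (.s
  k243 k162 12 (.s k91 k167 13 (.d k90 k240 k88 14 0)))))))) (.c k245 (.l (.s k9 k13 1 (.s k3 k12 2
  (.s k11 k7 1 (.s k169 k253 13 (.s k90 k248 12 (.s k80 k95 2 (.d k240 k160 k165 11 14)))))))) (.c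
  k253 (.l (.s k13 k9 1 (.s k165 k245 11 (.s k240 k90 14 (.s k241 k89 13 (.s k81 k161 11 (.d k243
  k242 k162 0 12))))))) .n))))) (.c k7 (.q k1 [(.s k13 k9 1 (.s k253 k169 13 (.s k93 k173 11 (.s k89
  k81 1 (.d k165 k245 k241 11 13))))), (.s k9 k13 1 (.s k12 k3 2 (.s k4 k8 1 (.s k165 k245 11 (.s
  k166 k247 12 (.s k167 k164 0 (.d k243 k91 k89 13 14))))))), (.s k165 k245 11 (.s k169 k253 13 (.s
  k173 k161 1 (.s k252 k94 12 (.s k84 k168 13 (.d k86 k87 k3 0 14)))))), (.s k9 k13 1 (.s k12 k3 2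
  (.s k4 k8 1 (.s k166 k247 12 (.s k169 k253 13 (.d k89 k243 k249 14 11))))))] .n) (.c k11 (.l (.s
  k4 k7 0 (.s k165 k245 11 (.s k166 k247 12 (.s k167 k164 0 (.s k243 k91 13 (.d k12 k8 k89 1
  14))))))) .n)))))

def s2_255_16 : T TT 256 :=
  (.q k4 [(.s k5 k10 2 (.s k6 k7 0 (.s k12 k8 1 (.s k13 k14 0 (.d k9 k1 k3 1 2))))), (.s k12 k8 1
  (.s k14 k13 0 (.s k166 k247 12 (.s k90 k242 13 (.s k80 k95 2 (.d k240 k160 k165 11 14)))))), (.s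
  k5 k10 2 (.s k165 k245 11 (.s k166 k247 12 (.s k164 k167 0 (.s k244 k84 11 (.d k7 k6 k86 0
  12))))))] (.c k14 (.l (.s k12 k8 1 (.s k166 k247 12 (.s k243 k89 14 (.s k167 k91 13 (.s k165 k164
  0 (.d k5 k10 k245 2 11))))))) .n))

def s2_255_17 : T TT 256 :=
  (.q k4 [(.s k5 k10 2 (.s k6 k7 0 (.s k12 k8 1 (.s k13 k14 0 (.d k9 k1 k3 1 2))))), (.s k12 k8 1
  (.s k14 k13 0 (.s k166 k247 12 (.s k90 k242 13 (.s k80 k95 2 (.d k240 k160 k165 11 14)))))), (.s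
  k5 k10 2 (.s k165 k245 11 (.s k166 k247 12 (.s k164 k167 0 (.s k244 k84 11 (.d k7 k6 k86 0
  12))))))] (.c k14 (.l (.s k12 k8 1 (.s k166 k247 12 (.s k243 k89 14 (.s k167 k91 13 (.s k165 k164
  0 (.d k5 k10 k245 2 11))))))) .n))

def s2_255_18 : T TT 256 :=
  (.q k12 [(.s k4 k8 1 (.s k5 k10 2 (.s k6 k7 0 (.s k13 k14 0 (.d k9 k1 k3 1 2))))), (.s k4 k8 1 (.s
  k14 k13 0 (.s k166 k247 12 (.s k90 k242 13 (.s k80 k95 2 (.d k240 k160 k165 11 14)))))), (.s k5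
  k10 2 (.s k165 k245 11 (.s k240 k90 14 (.s k164 k88 13 (.s k166 k167 0 (.s k89 k243 14 (.d k13 k14
  k241 0 13))))))), (.s k4 k8 1 (.s k166 k247 12 (.s k243 k89 14 (.s k167 k91 13 (.s k165 k164 0 (.d
  k5 k10 k245 2 11))))))] (.c k34 (.q k50 [(.s k4 k8 1 (.s k5 k10 2 (.s k6 k7 0 (.s k13 k14 0 (.d k9
  k1 k3 1 2))))), (.s k4 k8 1 (.s k14 k13 0 (.s k166 k247 12 (.s k90 k242 13 (.s k80 k95 2 (.d k240
  k160 k165 11 14)))))), (.s k5 k10 2 (.s k14 k13 0 (.s k26 k38 5 (.s k37 k48 6 (.s k21 k53 3 (.s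
  k31 k16 2 (.d k63 k42 k47 6 3))))))), (.s k4 k8 1 (.s k166 k247 12 (.s k243 k89 14 (.s k167 k91 13
  (.s k165 k164 0 (.d k5 k10 k245 2 11))))))] .n) (.c k50 (.q k34 [(.s k4 k8 1 (.s k5 k10 2 (.s k6
  k7 0 (.s k13 k14 0 (.d k9 k1 k3 1 2))))), (.s k4 k8 1 (.s k51 k17 4 (.s k38 k25 6 (.s k21 k55 4
  (.d k42 k46 k63 1 6))))), (.s k13 k14 0 (.s k51 k17 4 (.s k27 k39 5 (.s k25 k38 6 (.s k26 k24 0
  (.d k37 k49 k48 5 6))))))] (.c k38 (.l (.s k4 k8 1 (.s k5 k10 2 (.s k6 k7 0 (.s k9 k3 2 (.d k13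
  k14 k1 0 1)))))) .n)) .n)))

def s2_255_19 : T TT 256 :=
  (.q k4 [(.s k5 k10 2 (.s k6 k7 0 (.s k12 k8 1 (.s k13 k14 0 (.d k9 k1 k3 1 2))))), (.s k12 k8 1
  (.s k14 k13 0 (.s k166 k247 12 (.s k90 k242 13 (.s k80 k95 2 (.d k240 k160 k165 11 14)))))), (.s
  k5 k10 2 (.s k165 k245 11 (.s k166 k247 12 (.s k164 k167 0 (.s k244 k84 11 (.d k7 k6 k86 0
  12))))))] (.c k14 (.l (.s k12 k8 1 (.s k166 k247 12 (.s k243 k89 14 (.s k167 k91 13 (.s k165 k164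
  0 (.d k5 k10 k245 2 11))))))) .n))

def s2_255_20 : T TT 256 :=
  (.q k4 [(.s k5 k10 2 (.s k6 k7 0 (.s k12 k8 1 (.s k13 k14 0 (.d k9 k1 k3 1 2))))), (.s k12 k8 1
  (.s k14 k13 0 (.s k166 k247 12 (.s k90 k242 13 (.s k80 k95 2 (.d k240 k160 k165 11 14)))))), (.s
  k5 k10 2 (.s k165 k245 11 (.s k166 k247 12 (.s k164 k167 0 (.s k244 k84 11 (.d k7 k6 k86 0
  12))))))] (.c k14 (.l (.s k12 k8 1 (.s k166 k247 12 (.s k243 k89 14 (.s k167 k91 13 (.s k165 k164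
  0 (.d k5 k10 k245 2 11))))))) .n))

def s2_255_21 : T TT 256 :=
  (.q k4 [(.s k5 k10 2 (.s k6 k7 0 (.s k12 k8 1 (.s k13 k14 0 (.d k9 k1 k3 1 2))))), (.s k12 k8 1
  (.s k14 k13 0 (.s k166 k247 12 (.s k90 k242 13 (.s k80 k95 2 (.d k240 k160 k165 11 14)))))), (.s
  k5 k10 2 (.s k165 k245 11 (.s k166 k247 12 (.s k164 k167 0 (.s k244 k84 11 (.d k7 k6 k86 0
  12))))))] (.c k14 (.l (.s k12 k8 1 (.s k166 k247 12 (.s k243 k89 14 (.s k167 k91 13 (.s k165 k164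
  0 (.d k5 k10 k245 2 11))))))) .n))

def s2_255_22 : T TT 256 :=
  (.q k4 [(.s k5 k10 2 (.s k6 k7 0 (.s k12 k8 1 (.s k13 k14 0 (.d k9 k1 k3 1 2))))), (.s k12 k8 1
  (.s k14 k13 0 (.s k166 k247 12 (.s k90 k242 13 (.s k80 k95 2 (.d k240 k160 k165 11 14)))))), (.s
  k5 k10 2 (.s k165 k245 11 (.s k166 k247 12 (.s k164 k167 0 (.s k244 k84 11 (.d k7 k6 k86 0
  12))))))] (.c k14 (.l (.s k12 k8 1 (.s k166 k247 12 (.s k243 k89 14 (.s k167 k91 13 (.s k165 k164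
  0 (.d k5 k10 k245 2 11))))))) (.c k42 (.q k62 [(.s k5 k10 2 (.s k6 k7 0 (.s k12 k8 1 (.s k13 k14 0
  (.d k9 k1 k3 1 2))))), (.s k12 k8 1 (.s k14 k13 0 (.s k166 k247 12 (.s k90 k242 13 (.s k80 k95 2
  (.d k240 k160 k165 11 14)))))), (.s k5 k10 2 (.s k165 k245 11 (.s k166 k247 12 (.s k164 k167 0 (.s
  k244 k84 11 (.d k7 k6 k86 0 12))))))] (.c k14 (.l (.s k12 k8 1 (.s k166 k247 12 (.s k243 k89 14
  (.s k167 k91 13 (.s k165 k164 0 (.d k5 k10 k245 2 11))))))) .n)) (.c k62 (.q k42 [(.s k5 k10 2 (.s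
  k6 k7 0 (.s k12 k8 1 (.s k13 k14 0 (.d k9 k1 k3 1 2))))), (.s k10 k5 2 (.s k21 k63 6 (.s k26 k58 3
  (.s k16 k31 2 (.d k48 k32 k37 3 6))))), (.s k12 k8 1 (.s k21 k63 6 (.s k38 k55 4 (.s k34 k46 1 (.d
  k51 k17 k25 4 6)))))] .n) .n))))

def s2_255_23 : T TT 256 :=
  (.q k4 [(.s k5 k10 2 (.s k6 k7 0 (.s k12 k8 1 (.s k13 k14 0 (.d k9 k1 k3 1 2))))), (.s k12 k8 1
  (.s k14 k13 0 (.s k166 k247 12 (.s k90 k242 13 (.s k80 k95 2 (.d k240 k160 k165 11 14)))))), (.s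
  k5 k10 2 (.s k165 k245 11 (.s k166 k247 12 (.s k164 k167 0 (.s k244 k84 11 (.d k7 k6 k86 0
  12))))))] (.c k14 (.l (.s k12 k8 1 (.s k166 k247 12 (.s k243 k89 14 (.s k167 k91 13 (.s k165 k164
  0 (.d k5 k10 k245 2 11))))))) .n))

def s2_255_24 : T TT 256 :=
  (.q k4 [(.s k5 k10 2 (.s k6 k7 0 (.s k12 k8 1 (.s k13 k14 0 (.d k9 k1 k3 1 2))))), (.s k5 k10 2
  (.s k165 k245 11 (.s k166 k247 12 (.s k164 k167 0 (.s k244 k84 11 (.d k7 k6 k86 0 12)))))), (.s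
  k12 k8 1 (.s k14 k13 0 (.s k166 k247 12 (.s k90 k242 13 (.s k80 k95 2 (.d k240 k160 k165 11
  14))))))] (.c k14 (.l (.s k12 k8 1 (.s k166 k247 12 (.s k243 k89 14 (.s k167 k91 13 (.s k165 k164
  0 (.d k5 k10 k245 2 11))))))) .n))

def s2_255_25 : T TT 256 :=
  (.q k4 [(.s k5 k10 2 (.s k6 k7 0 (.s k12 k8 1 (.s k13 k14 0 (.d k9 k1 k3 1 2))))), (.s k5 k10 2
  (.s k165 k245 11 (.s k166 k247 12 (.s k164 k167 0 (.s k244 k84 11 (.d k7 k6 k86 0 12)))))), (.s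
  k12 k8 1 (.s k14 k13 0 (.s k166 k247 12 (.s k90 k242 13 (.s k80 k95 2 (.d k240 k160 k165 11
  14))))))] (.c k14 (.l (.s k12 k8 1 (.s k166 k247 12 (.s k243 k89 14 (.s k167 k91 13 (.s k165 k164
  0 (.d k5 k10 k245 2 11))))))) .n))

def s2_255_26 : T TT 256 :=
  (.q k4 [(.s k5 k10 2 (.s k6 k7 0 (.s k12 k8 1 (.s k9 k3 2 (.d k13 k14 k1 0 1))))), (.s k12 k8 1
  (.s k14 k13 0 (.s k166 k247 12 (.s k90 k242 13 (.s k80 k95 2 (.d k240 k160 k165 11 14)))))), (.s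
  k5 k10 2 (.s k165 k245 11 (.s k166 k247 12 (.s k164 k167 0 (.s k244 k84 11 (.d k7 k6 k86 0
  12))))))] (.c k14 (.l (.s k12 k8 1 (.s k166 k247 12 (.s k243 k89 14 (.s k167 k91 13 (.s k165 k164
  0 (.d k5 k10 k245 2 11))))))) .n))

def s2_255_27 : T TT 256 :=
  (.q k4 [(.s k5 k10 2 (.s k6 k7 0 (.s k12 k8 1 (.s k13 k14 0 (.d k9 k1 k3 1 2))))), (.s k12 k8 1
  (.s k14 k13 0 (.s k166 k247 12 (.s k90 k242 13 (.s k80 k95 2 (.d k240 k160 k165 11 14)))))), (.s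
  k5 k10 2 (.s k165 k245 11 (.s k166 k247 12 (.s k164 k167 0 (.s k244 k84 11 (.d k7 k6 k86 0
  12))))))] (.c k14 (.l (.s k12 k8 1 (.s k166 k247 12 (.s k243 k89 14 (.s k167 k91 13 (.s k165 k164
  0 (.d k5 k10 k245 2 11))))))) .n))

def s2_255_28 : T TT 256 :=
  (.q k4 [(.s k5 k10 2 (.s k6 k7 0 (.s k12 k8 1 (.s k13 k14 0 (.d k9 k1 k3 1 2))))), (.s k12 k8 1
  (.s k14 k13 0 (.s k166 k247 12 (.s k90 k242 13 (.s k80 k95 2 (.d k240 k160 k165 11 14)))))), (.s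
  k5 k10 2 (.s k165 k245 11 (.s k166 k247 12 (.s k164 k167 0 (.s k244 k84 11 (.d k7 k6 k86 0
  12))))))] (.c k14 (.l (.s k12 k8 1 (.s k166 k247 12 (.s k243 k89 14 (.s k167 k91 13 (.s k165 k164
  0 (.d k5 k10 k245 2 11))))))) .n))

def s2_255_29 : T TT 256 :=
  (.q k4 [(.s k5 k10 2 (.s k6 k7 0 (.s k12 k8 1 (.s k13 k14 0 (.d k9 k1 k3 1 2))))), (.s k12 k8 1
  (.s k14 k13 0 (.s k166 k247 12 (.s k90 k242 13 (.s k80 k95 2 (.d k240 k160 k165 11 14)))))), (.s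
  k5 k10 2 (.s k165 k245 11 (.s k166 k247 12 (.s k164 k167 0 (.s k244 k84 11 (.d k7 k6 k86 0
  12))))))] (.c k14 (.l (.s k12 k8 1 (.s k166 k247 12 (.s k243 k89 14 (.s k167 k91 13 (.s k165 k164
  0 (.d k5 k10 k245 2 11))))))) .n))

def s2_255_30 : T TT 256 :=
  (.q k4 [(.s k5 k10 2 (.s k6 k7 0 (.s k12 k8 1 (.s k9 k3 2 (.d k13 k14 k1 0 1))))), (.s k12 k8 1
  (.s k14 k13 0 (.s k166 k247 12 (.s k90 k242 13 (.s k80 k95 2 (.d k240 k160 k165 11 14)))))), (.s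
  k5 k10 2 (.s k165 k245 11 (.s k166 k247 12 (.s k164 k167 0 (.s k244 k84 11 (.d k7 k6 k86 0
  12))))))] (.c k14 (.l (.s k12 k8 1 (.s k166 k247 12 (.s k243 k89 14 (.s k167 k91 13 (.s k165 k164
  0 (.d k5 k10 k245 2 11))))))) .n))

def s2_255_31 : T TT 256 :=
  (.q k4 [(.s k5 k10 2 (.s k6 k7 0 (.s k12 k8 1 (.s k13 k14 0 (.d k9 k1 k3 1 2))))), (.s k12 k8 1
  (.s k14 k13 0 (.s k166 k247 12 (.s k90 k242 13 (.s k80 k95 2 (.d k240 k160 k165 11 14)))))), (.s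
  k5 k10 2 (.s k165 k245 11 (.s k166 k247 12 (.s k164 k167 0 (.s k244 k84 11 (.d k7 k6 k86 0
  12))))))] (.c k14 (.l (.s k12 k8 1 (.s k166 k247 12 (.s k243 k89 14 (.s k167 k91 13 (.s k165 k164
  0 (.d k5 k10 k245 2 11))))))) .n))

def s2_255_32 : T TT 256 :=
  (.q k4 [(.s k5 k10 2 (.s k6 k7 0 (.s k12 k8 1 (.s k13 k14 0 (.d k9 k1 k3 1 2))))), (.s k12 k8 1
  (.s k14 k13 0 (.s k166 k247 12 (.s k90 k242 13 (.s k80 k95 2 (.d k240 k160 k165 11 14)))))), (.s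
  k5 k10 2 (.s k165 k245 11 (.s k166 k247 12 (.s k164 k167 0 (.s k244 k84 11 (.d k7 k6 k86 0
  12))))))] (.c k14 (.l (.s k12 k8 1 (.s k166 k247 12 (.s k243 k89 14 (.s k167 k91 13 (.s k165 k164
  0 (.d k5 k10 k245 2 11))))))) .n))

def s2_255_33 : T TT 256 :=
  (.q k4 [(.s k5 k10 2 (.s k6 k7 0 (.s k12 k8 1 (.s k13 k14 0 (.d k9 k1 k3 1 2))))), (.s k12 k8 1
  (.s k14 k13 0 (.s k166 k247 12 (.s k90 k242 13 (.s k80 k95 2 (.d k240 k160 k165 11 14)))))), (.s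
  k5 k10 2 (.s k165 k245 11 (.s k166 k247 12 (.s k164 k167 0 (.s k244 k84 11 (.d k7 k6 k86 0
  12))))))] (.c k14 (.l (.s k12 k8 1 (.s k166 k247 12 (.s k243 k89 14 (.s k167 k91 13 (.s k165 k164
  0 (.d k5 k10 k245 2 11))))))) .n))

def s2_255_34 : T TT 256 :=
  (.q k166 [(.s k4 k247 12 (.s k12 k8 1 (.s k14 k13 0 (.s k90 k242 13 (.s k80 k95 2 (.d k240 k160
  k165 11 14)))))), (.s k4 k247 12 (.s k5 k10 2 (.s k165 k245 11 (.s k164 k167 0 (.s k244 k84 11 (.d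
  k7 k6 k86 0 12)))))), (.s k5 k10 2 (.s k165 k245 11 (.s k167 k164 0 (.s k243 k91 13 (.s k81 k162
  12 (.d k89 k93 k12 1 14)))))), (.s k4 k247 12 (.s k5 k10 2 (.s k6 k7 0 (.s k12 k8 1 (.s k9 k3 2
  (.d k13 k14 k1 0 1))))))] (.c k14 (.l (.s k4 k247 12 (.s k12 k8 1 (.s k243 k89 14 (.s k167 k91 13
  (.s k165 k164 0 (.d k5 k10 k245 2 11))))))) (.c k18 (.q k50 [(.s k4 k247 12 (.s k12 k8 1 (.s k14
  k13 0 (.s k90 k242 13 (.s k80 k95 2 (.d k240 k160 k165 11 14)))))), (.s k4 k247 12 (.s k5 k10 2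
  (.s k165 k245 11 (.s k164 k167 0 (.s k244 k84 11 (.d k7 k6 k86 0 12)))))), (.s k5 k10 2 (.s k165
  k245 11 (.s k167 k164 0 (.s k243 k91 13 (.s k81 k162 12 (.d k89 k93 k12 1 14)))))), (.s k4 k247 12
  (.s k5 k10 2 (.s k6 k7 0 (.s k12 k8 1 (.s k9 k3 2 (.d k13 k14 k1 0 1))))))] (.c k14 (.l (.s k4
  k247 12 (.s k12 k8 1 (.s k243 k89 14 (.s k167 k91 13 (.s k165 k164 0 (.d k5 k10 k245 2 11)))))))
  (.c k243 (.l (.s k5 k10 2 (.s k165 k245 11 (.s k164 k167 0 (.s k240 k90 14 (.s k12 k88 13 (.d k4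
  k8 k247 1 12))))))) .n))) (.c k50 (.q k18 [(.s k4 k247 12 (.s k12 k8 1 (.s k243 k89 14 (.s k167
  k91 13 (.s k165 k164 0 (.d k5 k10 k245 2 11)))))), (.s k4 k247 12 (.s k12 k8 1 (.s k14 k13 0 (.s
  k90 k242 13 (.s k80 k95 2 (.d k240 k160 k165 11 14)))))), (.s k5 k10 2 (.s k165 k245 11 (.s k167
  k164 0 (.s k243 k91 13 (.s k81 k162 12 (.d k89 k93 k12 1 14))))))] (.c k12 (.l (.s k4 k247 12 (.s
  k5 k10 2 (.s k165 k245 11 (.s k164 k167 0 (.s k244 k84 11 (.d k7 k6 k86 0 12))))))) (.c k165 (.l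
  (.s k4 k247 12 (.s k5 k10 2 (.s k6 k7 0 (.s k12 k8 1 (.s k9 k3 2 (.d k13 k14 k1 0 1))))))) (.c
  k243 (.l (.s k5 k10 2 (.s k165 k245 11 (.s k164 k167 0 (.s k240 k90 14 (.s k12 k88 13 (.d k4 k8
  k247 1 12))))))) .n)))) (.c k243 (.l (.s k5 k10 2 (.s k165 k245 11 (.s k164 k167 0 (.s k240 k90 14
  (.s k12 k88 13 (.d k4 k8 k247 1 12))))))) .n)))))

def s2_255_35 : T TT 256 :=
  (.q k4 [(.s k5 k10 2 (.s k6 k7 0 (.s k12 k8 1 (.s k13 k14 0 (.d k9 k1 k3 1 2))))), (.s k12 k8 1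
  (.s k14 k13 0 (.s k166 k247 12 (.s k90 k242 13 (.s k80 k95 2 (.d k240 k160 k165 11 14)))))), (.s
  k5 k10 2 (.s k165 k245 11 (.s k166 k247 12 (.s k164 k167 0 (.s k244 k84 11 (.d k7 k6 k86 0
  12))))))] (.c k14 (.l (.s k12 k8 1 (.s k166 k247 12 (.s k243 k89 14 (.s k167 k91 13 (.s k165 k164
  0 (.d k5 k10 k245 2 11))))))) .n))

def s2_255_36 : T TT 256 :=
  (.q k4 [(.s k5 k10 2 (.s k6 k7 0 (.s k12 k8 1 (.s k13 k14 0 (.d k9 k1 k3 1 2))))), (.s k12 k8 1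
  (.s k14 k13 0 (.s k166 k247 12 (.s k90 k242 13 (.s k80 k95 2 (.d k240 k160 k165 11 14)))))), (.s
  k5 k10 2 (.s k165 k245 11 (.s k166 k247 12 (.s k164 k167 0 (.s k244 k84 11 (.d k7 k6 k86 0
  12))))))] (.c k14 (.l (.s k12 k8 1 (.s k166 k247 12 (.s k243 k89 14 (.s k167 k91 13 (.s k165 k164
  0 (.d k5 k10 k245 2 11))))))) .n))

def s2_255_37 : T TT 256 :=
  (.q k4 [(.s k5 k10 2 (.s k6 k7 0 (.s k12 k8 1 (.s k13 k14 0 (.d k9 k1 k3 1 2))))), (.s k12 k8 1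
  (.s k14 k13 0 (.s k166 k247 12 (.s k90 k242 13 (.s k80 k95 2 (.d k240 k160 k165 11 14)))))), (.s
  k5 k10 2 (.s k165 k245 11 (.s k166 k247 12 (.s k164 k167 0 (.s k244 k84 11 (.d k7 k6 k86 0
  12))))))] (.c k14 (.l (.s k12 k8 1 (.s k166 k247 12 (.s k243 k89 14 (.s k167 k91 13 (.s k165 k164
  0 (.d k5 k10 k245 2 11))))))) .n))

def s2_255_38 : T TT 256 :=
  (.q k4 [(.s k5 k10 2 (.s k6 k7 0 (.s k12 k8 1 (.s k9 k3 2 (.d k13 k14 k1 0 1))))), (.s k12 k8 1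
  (.s k14 k13 0 (.s k166 k247 12 (.s k90 k242 13 (.s k80 k95 2 (.d k240 k160 k165 11 14)))))), (.s
  k5 k10 2 (.s k165 k245 11 (.s k166 k247 12 (.s k164 k167 0 (.s k244 k84 11 (.d k7 k6 k86 0
  12))))))] (.c k14 (.l (.s k12 k8 1 (.s k166 k247 12 (.s k243 k89 14 (.s k167 k91 13 (.s k165 k164
  0 (.d k5 k10 k245 2 11))))))) .n))

def s2_255_39 : T TT 256 :=
  (.q k4 [(.s k5 k10 2 (.s k6 k7 0 (.s k12 k8 1 (.s k13 k14 0 (.d k9 k1 k3 1 2))))), (.s k12 k8 1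
  (.s k14 k13 0 (.s k166 k247 12 (.s k90 k242 13 (.s k80 k95 2 (.d k240 k160 k165 11 14)))))), (.s
  k5 k10 2 (.s k165 k245 11 (.s k166 k247 12 (.s k164 k167 0 (.s k244 k84 11 (.d k7 k6 k86 0
  12))))))] (.c k14 (.l (.s k12 k8 1 (.s k166 k247 12 (.s k243 k89 14 (.s k167 k91 13 (.s k165 k164
  0 (.d k5 k10 k245 2 11))))))) .n))

def s2_255_40 : T TT 256 :=
  (.q k4 [(.s k5 k10 2 (.s k6 k7 0 (.s k12 k8 1 (.s k13 k14 0 (.d k9 k1 k3 1 2))))), (.s k5 k10 2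
  (.s k165 k245 11 (.s k166 k247 12 (.s k164 k167 0 (.s k244 k84 11 (.d k7 k6 k86 0 12)))))), (.s
  k12 k8 1 (.s k14 k13 0 (.s k166 k247 12 (.s k90 k242 13 (.s k80 k95 2 (.d k240 k160 k165 11
  14))))))] (.c k14 (.l (.s k12 k8 1 (.s k166 k247 12 (.s k243 k89 14 (.s k167 k91 13 (.s k165 k164
  0 (.d k5 k10 k245 2 11))))))) .n))

def s2_255_41 : T TT 256 :=
  (.q k4 [(.s k5 k10 2 (.s k6 k7 0 (.s k12 k8 1 (.s k13 k14 0 (.d k9 k1 k3 1 2))))), (.s k12 k8 1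
  (.s k14 k13 0 (.s k166 k247 12 (.s k90 k242 13 (.s k80 k95 2 (.d k240 k160 k165 11 14)))))), (.s
  k5 k10 2 (.s k165 k245 11 (.s k166 k247 12 (.s k164 k167 0 (.s k244 k84 11 (.d k7 k6 k86 0
  12))))))] (.c k14 (.l (.s k12 k8 1 (.s k166 k247 12 (.s k243 k89 14 (.s k167 k91 13 (.s k165 k164
  0 (.d k5 k10 k245 2 11))))))) .n))

def s2_255_42 : T TT 256 :=
  (.q k4 [(.s k5 k10 2 (.s k6 k7 0 (.s k12 k8 1 (.s k13 k14 0 (.d k9 k1 k3 1 2))))), (.s k12 k8 1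
  (.s k14 k13 0 (.s k166 k247 12 (.s k90 k242 13 (.s k80 k95 2 (.d k240 k160 k165 11 14)))))), (.s
  k5 k10 2 (.s k165 k245 11 (.s k166 k247 12 (.s k164 k167 0 (.s k244 k84 11 (.d k7 k6 k86 0
  12))))))] (.c k14 (.l (.s k12 k8 1 (.s k166 k247 12 (.s k243 k89 14 (.s k167 k91 13 (.s k165 k164
  0 (.d k5 k10 k245 2 11))))))) (.c k22 (.q k62 [(.s k5 k10 2 (.s k6 k7 0 (.s k12 k8 1 (.s k13 k14 0
  (.d k9 k1 k3 1 2))))), (.s k12 k8 1 (.s k14 k13 0 (.s k166 k247 12 (.s k90 k242 13 (.s k80 k95 2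
  (.d k240 k160 k165 11 14)))))), (.s k5 k10 2 (.s k165 k245 11 (.s k166 k247 12 (.s k164 k167 0 (.s
  k244 k84 11 (.d k7 k6 k86 0 12))))))] (.c k14 (.l (.s k12 k8 1 (.s k166 k247 12 (.s k243 k89 14
  (.s k167 k91 13 (.s k165 k164 0 (.d k5 k10 k245 2 11))))))) .n)) (.c k62 (.q k22 [(.s k5 k10 2 (.s
  k6 k7 0 (.s k12 k8 1 (.s k9 k3 2 (.d k13 k14 k1 0 1))))), (.s k12 k8 1 (.s k14 k13 0 (.s k166 k247
  12 (.s k90 k242 13 (.s k80 k95 2 (.d k240 k160 k165 11 14)))))), (.s k5 k10 2 (.s k165 k245 11 (.s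
  k166 k247 12 (.s k164 k167 0 (.s k244 k84 11 (.d k7 k6 k86 0 12))))))] (.c k14 (.l (.s k12 k8 1
  (.s k166 k247 12 (.s k243 k89 14 (.s k167 k91 13 (.s k165 k164 0 (.d k5 k10 k245 2 11))))))) .n))
  .n))))

def s2_255_43 : T TT 256 :=
  (.q k4 [(.s k5 k10 2 (.s k6 k7 0 (.s k12 k8 1 (.s k13 k14 0 (.d k9 k1 k3 1 2))))), (.s k12 k8 1
  (.s k14 k13 0 (.s k166 k247 12 (.s k90 k242 13 (.s k80 k95 2 (.d k240 k160 k165 11 14)))))), (.s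
  k5 k10 2 (.s k165 k245 11 (.s k166 k247 12 (.s k164 k167 0 (.s k244 k84 11 (.d k7 k6 k86 0
  12))))))] (.c k14 (.l (.s k12 k8 1 (.s k166 k247 12 (.s k243 k89 14 (.s k167 k91 13 (.s k165 k164
  0 (.d k5 k10 k245 2 11))))))) .n))

def s2_255_44 : T TT 256 :=
  (.q k4 [(.s k5 k10 2 (.s k6 k7 0 (.s k12 k8 1 (.s k13 k14 0 (.d k9 k1 k3 1 2))))), (.s k12 k8 1
  (.s k14 k13 0 (.s k166 k247 12 (.s k90 k242 13 (.s k80 k95 2 (.d k240 k160 k165 11 14)))))), (.s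
  k5 k10 2 (.s k165 k245 11 (.s k166 k247 12 (.s k164 k167 0 (.s k244 k84 11 (.d k7 k6 k86 0
  12))))))] (.c k14 (.l (.s k12 k8 1 (.s k166 k247 12 (.s k243 k89 14 (.s k167 k91 13 (.s k165 k164
  0 (.d k5 k10 k245 2 11))))))) .n))

def s2_255_45 : T TT 256 :=
  (.q k4 [(.s k5 k10 2 (.s k6 k7 0 (.s k12 k8 1 (.s k13 k14 0 (.d k9 k1 k3 1 2))))), (.s k12 k8 1
  (.s k14 k13 0 (.s k166 k247 12 (.s k90 k242 13 (.s k80 k95 2 (.d k240 k160 k165 11 14)))))), (.s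
  k5 k10 2 (.s k165 k245 11 (.s k166 k247 12 (.s k164 k167 0 (.s k244 k84 11 (.d k7 k6 k86 0
  12))))))] (.c k14 (.l (.s k12 k8 1 (.s k166 k247 12 (.s k243 k89 14 (.s k167 k91 13 (.s k165 k164
  0 (.d k5 k10 k245 2 11))))))) .n))

def s2_255_46 : T TT 256 :=
  (.q k4 [(.s k5 k10 2 (.s k6 k7 0 (.s k12 k8 1 (.s k9 k3 2 (.d k13 k14 k1 0 1))))), (.s k12 k8 1
  (.s k14 k13 0 (.s k166 k247 12 (.s k90 k242 13 (.s k80 k95 2 (.d k240 k160 k165 11 14)))))), (.s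
  k5 k10 2 (.s k165 k245 11 (.s k166 k247 12 (.s k164 k167 0 (.s k244 k84 11 (.d k7 k6 k86 0
  12))))))] (.c k14 (.l (.s k12 k8 1 (.s k166 k247 12 (.s k243 k89 14 (.s k167 k91 13 (.s k165 k164
  0 (.d k5 k10 k245 2 11))))))) .n))

def s2_255_47 : T TT 256 :=
  (.q k4 [(.s k5 k10 2 (.s k6 k7 0 (.s k12 k8 1 (.s k13 k14 0 (.d k9 k1 k3 1 2))))), (.s k12 k8 1
  (.s k14 k13 0 (.s k166 k247 12 (.s k90 k242 13 (.s k80 k95 2 (.d k240 k160 k165 11 14)))))), (.s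
  k5 k10 2 (.s k165 k245 11 (.s k166 k247 12 (.s k164 k167 0 (.s k244 k84 11 (.d k7 k6 k86 0
  12))))))] (.c k14 (.l (.s k12 k8 1 (.s k166 k247 12 (.s k243 k89 14 (.s k167 k91 13 (.s k165 k164
  0 (.d k5 k10 k245 2 11))))))) .n))

def s2_255_48 : T TT 256 :=
  (.q k4 [(.s k5 k10 2 (.s k6 k7 0 (.s k12 k8 1 (.s k13 k14 0 (.d k9 k1 k3 1 2))))), (.s k12 k8 1
  (.s k14 k13 0 (.s k166 k247 12 (.s k90 k242 13 (.s k80 k95 2 (.d k240 k160 k165 11 14)))))), (.s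
  k5 k10 2 (.s k165 k245 11 (.s k166 k247 12 (.s k164 k167 0 (.s k244 k84 11 (.d k7 k6 k86 0
  12))))))] (.c k14 (.l (.s k12 k8 1 (.s k166 k247 12 (.s k243 k89 14 (.s k167 k91 13 (.s k165 k164
  0 (.d k5 k10 k245 2 11))))))) (.c k117 (.q k186 [(.s k5 k10 2 (.s k6 k7 0 (.s k12 k8 1 (.s k13 k14
  0 (.d k9 k1 k3 1 2))))), (.s k12 k8 1 (.s k14 k13 0 (.s k166 k247 12 (.s k90 k242 13 (.s k80 k95 2
  (.d k240 k160 k165 11 14)))))), (.s k5 k10 2 (.s k165 k245 11 (.s k166 k247 12 (.s k164 k167 0 (.s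
  k244 k84 11 (.d k7 k6 k86 0 12))))))] (.c k14 (.l (.s k12 k8 1 (.s k166 k247 12 (.s k243 k89 14
  (.s k167 k91 13 (.s k165 k164 0 (.d k5 k10 k245 2 11))))))) .n)) (.c k186 (.q k117 [(.s k5 k10 2
  (.s k6 k7 0 (.s k12 k8 1 (.s k13 k14 0 (.d k9 k1 k3 1 2))))), (.s k101 k69 3 (.s k247 k166 12 (.s
  k52 k182 8 (.s k150 k199 12 (.d k20 k36 k215 3 8)))))] .n) .n))))

def s2_255_49 : T TT 256 :=
  (.q k4 [(.s k5 k10 2 (.s k6 k7 0 (.s k12 k8 1 (.s k13 k14 0 (.d k9 k1 k3 1 2))))), (.s k12 k8 1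
  (.s k14 k13 0 (.s k166 k247 12 (.s k90 k242 13 (.s k80 k95 2 (.d k240 k160 k165 11 14)))))), (.s
  k5 k10 2 (.s k165 k245 11 (.s k166 k247 12 (.s k164 k167 0 (.s k244 k84 11 (.d k7 k6 k86 0
  12))))))] (.c k14 (.l (.s k12 k8 1 (.s k166 k247 12 (.s k243 k89 14 (.s k167 k91 13 (.s k165 k164
  0 (.d k5 k10 k245 2 11))))))) .n))

def s2_255_50 : T TT 256 :=
  (.q k192 [(.s k10 k5 2 (.s k64 k128 7 (.s k74 k133 10 (.s k69 k79 2 (.d k138 k202 k207 7 10))))),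
  (.s k5 k10 2 (.s k64 k128 7 (.s k106 k127 6 (.s k63 k149 14 (.s k47 k31 3 (.d k165 k224 k245 10
  11)))))), (.s k64 k128 7 (.s k74 k133 10 (.s k106 k127 6 (.s k90 k122 3 (.s k80 k95 2 (.d k240
  k160 k165 11 14)))))), (.s k5 k10 2 (.s k133 k74 10 (.s k165 k245 11 (.s k149 k181 3 (.s k21 k213
  7 (.d k63 k42 k106 6 14))))))] (.c k18 (.q k34 [(.s k10 k5 2 (.s k64 k128 7 (.s k74 k133 10 (.s
  k69 k79 2 (.d k138 k202 k207 7 10))))), (.s k51 k17 4 (.s k64 k128 7 (.s k98 k145 12 (.s k81 k115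
  4 (.d k162 k226 k243 7 12))))), (.s k5 k10 2 (.s k133 k74 10 (.s k165 k245 11 (.s k149 k181 3 (.s
  k21 k213 7 (.d k63 k42 k106 6 14))))))] .n) (.c k34 (.q k18 [(.s k10 k5 2 (.s k64 k128 7 (.s k74
  k133 10 (.s k69 k79 2 (.d k138 k202 k207 7 10))))), (.s k5 k10 2 (.s k64 k128 7 (.s k106 k127 6
  (.s k63 k149 14 (.s k47 k31 3 (.d k165 k224 k245 10 11)))))), (.s k64 k128 7 (.s k74 k133 10 (.s
  k106 k127 6 (.s k90 k122 3 (.s k80 k95 2 (.d k240 k160 k165 11 14)))))), (.s k5 k10 2 (.s k133 k74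
  10 (.s k165 k245 11 (.s k149 k181 3 (.s k21 k213 7 (.d k63 k42 k106 6 14))))))] .n) .n)))

def s2_255_51 : T TT 256 :=
  (.q k21 [(.s k10 k5 2 (.s k42 k63 6 (.s k26 k58 3 (.s k16 k31 2 (.d k48 k32 k37 3 6))))), (.s k5
  k10 2 (.s k53 k37 3 (.s k149 k213 7 (.s k101 k197 11 (.s k117 k69 3 (.d k245 k181 k165 7 11)))))),
  (.s k63 k42 6 (.s k31 k47 3 (.s k149 k213 7 (.s k90 k208 10 (.s k80 k95 2 (.d k240 k160 k165 11
  14))))))] (.c k37 (.l (.s k5 k10 2 (.s k63 k42 6 (.s k47 k31 3 (.s k149 k213 7 (.s k165 k245 11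
  (.d k106 k192 k224 14 10))))))) (.c k119 (.q k187 [(.s k10 k5 2 (.s k42 k63 6 (.s k26 k58 3 (.s
  k16 k31 2 (.d k48 k32 k37 3 6))))), (.s k5 k10 2 (.s k53 k37 3 (.s k149 k213 7 (.s k101 k197 11
  (.s k117 k69 3 (.d k245 k181 k165 7 11)))))), (.s k63 k42 6 (.s k31 k47 3 (.s k149 k213 7 (.s k90
  k208 10 (.s k80 k95 2 (.d k240 k160 k165 11 14))))))] (.c k37 (.l (.s k5 k10 2 (.s k63 k42 6 (.s
  k47 k31 3 (.s k149 k213 7 (.s k165 k245 11 (.d k106 k192 k224 14 10))))))) .n)) (.c k187 (.q k119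
  [(.s k10 k5 2 (.s k42 k63 6 (.s k26 k58 3 (.s k16 k31 2 (.d k48 k32 k37 3 6))))), (.s k102 k68 4
  (.s k149 k213 7 (.s k55 k196 12 (.s k4 k38 4 (.d k247 k183 k166 7 12)))))] (.c k55 (.l (.s k5 k10
  2 (.s k37 k53 3 (.s k26 k48 6 (.s k31 k16 2 (.d k63 k47 k42 3 6)))))) .n)) .n))))

def s2_255_52 : T TT 256 :=
  (.q k4 [(.s k5 k10 2 (.s k6 k7 0 (.s k12 k8 1 (.s k13 k14 0 (.d k9 k1 k3 1 2))))), (.s k12 k8 1
  (.s k14 k13 0 (.s k166 k247 12 (.s k90 k242 13 (.s k80 k95 2 (.d k240 k160 k165 11 14)))))), (.s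
  k5 k10 2 (.s k165 k245 11 (.s k166 k247 12 (.s k164 k167 0 (.s k244 k84 11 (.d k7 k6 k86 0
  12))))))] (.c k14 (.l (.s k12 k8 1 (.s k166 k247 12 (.s k243 k89 14 (.s k167 k91 13 (.s k165 k164
  0 (.d k5 k10 k245 2 11))))))) .n))

def s2_255_53 : T TT 256 :=
  (.q k4 [(.s k5 k10 2 (.s k6 k7 0 (.s k12 k8 1 (.s k13 k14 0 (.d k9 k1 k3 1 2))))), (.s k12 k8 1
  (.s k14 k13 0 (.s k166 k247 12 (.s k90 k242 13 (.s k80 k95 2 (.d k240 k160 k165 11 14)))))), (.s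
  k5 k10 2 (.s k165 k245 11 (.s k166 k247 12 (.s k164 k167 0 (.s k244 k84 11 (.d k7 k6 k86 0
  12))))))] (.c k14 (.l (.s k12 k8 1 (.s k166 k247 12 (.s k243 k89 14 (.s k167 k91 13 (.s k165 k164
  0 (.d k5 k10 k245 2 11))))))) .n))

def s2_255_54 : T TT 256 :=
  (.q k4 [(.s k5 k10 2 (.s k6 k7 0 (.s k12 k8 1 (.s k13 k14 0 (.d k9 k1 k3 1 2))))), (.s k12 k8 1
  (.s k14 k13 0 (.s k166 k247 12 (.s k90 k242 13 (.s k80 k95 2 (.d k240 k160 k165 11 14)))))), (.s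
  k5 k10 2 (.s k165 k245 11 (.s k166 k247 12 (.s k164 k167 0 (.s k244 k84 11 (.d k7 k6 k86 0
  12))))))] (.c k14 (.l (.s k12 k8 1 (.s k166 k247 12 (.s k243 k89 14 (.s k167 k91 13 (.s k165 k164
  0 (.d k5 k10 k245 2 11))))))) .n))

def s2_255_55 : T TT 256 :=
  (.q k4 [(.s k5 k10 2 (.s k6 k7 0 (.s k12 k8 1 (.s k13 k14 0 (.d k9 k1 k3 1 2))))), (.s k12 k8 1
  (.s k14 k13 0 (.s k166 k247 12 (.s k90 k242 13 (.s k80 k95 2 (.d k240 k160 k165 11 14)))))), (.s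
  k5 k10 2 (.s k165 k245 11 (.s k166 k247 12 (.s k164 k167 0 (.s k244 k84 11 (.d k7 k6 k86 0
  12))))))] (.c k14 (.l (.s k12 k8 1 (.s k166 k247 12 (.s k243 k89 14 (.s k167 k91 13 (.s k165 k164
  0 (.d k5 k10 k245 2 11))))))) .n))

def s2_255_56 : T TT 256 :=
  (.q k4 [(.s k5 k10 2 (.s k6 k7 0 (.s k12 k8 1 (.s k13 k14 0 (.d k9 k1 k3 1 2))))), (.s k5 k10 2
  (.s k165 k245 11 (.s k166 k247 12 (.s k164 k167 0 (.s k244 k84 11 (.d k7 k6 k86 0 12)))))), (.s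
  k12 k8 1 (.s k14 k13 0 (.s k166 k247 12 (.s k90 k242 13 (.s k80 k95 2 (.d k240 k160 k165 11
  14))))))] (.c k14 (.l (.s k12 k8 1 (.s k166 k247 12 (.s k243 k89 14 (.s k167 k91 13 (.s k165 k164
  0 (.d k5 k10 k245 2 11))))))) .n))

def s2_255_57 : T TT 256 :=
  (.q k4 [(.s k5 k10 2 (.s k6 k7 0 (.s k12 k8 1 (.s k13 k14 0 (.d k9 k1 k3 1 2))))), (.s k12 k8 1
  (.s k14 k13 0 (.s k166 k247 12 (.s k90 k242 13 (.s k80 k95 2 (.d k240 k160 k165 11 14)))))), (.s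
  k5 k10 2 (.s k165 k245 11 (.s k166 k247 12 (.s k164 k167 0 (.s k244 k84 11 (.d k7 k6 k86 0
  12))))))] (.c k14 (.l (.s k12 k8 1 (.s k166 k247 12 (.s k243 k89 14 (.s k167 k91 13 (.s k165 k164
  0 (.d k5 k10 k245 2 11))))))) .n))

def s2_255_58 : T TT 256 :=
  (.q k4 [(.s k5 k10 2 (.s k6 k7 0 (.s k12 k8 1 (.s k13 k14 0 (.d k9 k1 k3 1 2))))), (.s k12 k8 1
  (.s k14 k13 0 (.s k166 k247 12 (.s k90 k242 13 (.s k80 k95 2 (.d k240 k160 k165 11 14)))))), (.s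
  k5 k10 2 (.s k165 k245 11 (.s k166 k247 12 (.s k164 k167 0 (.s k244 k84 11 (.d k7 k6 k86 0
  12))))))] (.c k14 (.l (.s k12 k8 1 (.s k166 k247 12 (.s k243 k89 14 (.s k167 k91 13 (.s k165 k164
  0 (.d k5 k10 k245 2 11))))))) .n))

def s2_255_59 : T TT 256 :=
  (.q k4 [(.s k5 k10 2 (.s k6 k7 0 (.s k12 k8 1 (.s k13 k14 0 (.d k9 k1 k3 1 2))))), (.s k5 k10 2
  (.s k165 k245 11 (.s k166 k247 12 (.s k164 k167 0 (.s k244 k84 11 (.d k7 k6 k86 0 12)))))), (.s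
  k12 k8 1 (.s k14 k13 0 (.s k166 k247 12 (.s k90 k242 13 (.s k80 k95 2 (.d k240 k160 k165 11
  14))))))] (.c k14 (.l (.s k12 k8 1 (.s k166 k247 12 (.s k243 k89 14 (.s k167 k91 13 (.s k165 k164
  0 (.d k5 k10 k245 2 11))))))) .n))

def s2_255_60 : T TT 256 :=
  (.q k21 [(.s k10 k5 2 (.s k42 k63 6 (.s k26 k58 3 (.s k16 k31 2 (.d k48 k32 k37 3 6))))), (.s k5
  k10 2 (.s k53 k37 3 (.s k149 k213 7 (.s k101 k197 11 (.s k117 k69 3 (.d k245 k181 k165 7 11)))))),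
  (.s k63 k42 6 (.s k31 k47 3 (.s k149 k213 7 (.s k90 k208 10 (.s k80 k95 2 (.d k240 k160 k165 11
  14))))))] (.c k37 (.l (.s k5 k10 2 (.s k63 k42 6 (.s k47 k31 3 (.s k149 k213 7 (.s k165 k245 11
  (.d k106 k192 k224 14 10))))))) (.c k125 (.q k190 [(.s k10 k5 2 (.s k42 k63 6 (.s k26 k58 3 (.s
  k16 k31 2 (.d k48 k32 k37 3 6))))), (.s k5 k10 2 (.s k53 k37 3 (.s k149 k213 7 (.s k101 k197 11
  (.s k117 k69 3 (.d k245 k181 k165 7 11)))))), (.s k63 k42 6 (.s k31 k47 3 (.s k149 k213 7 (.s k90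
  k208 10 (.s k80 k95 2 (.d k240 k160 k165 11 14))))))] (.c k37 (.l (.s k5 k10 2 (.s k63 k42 6 (.s
  k47 k31 3 (.s k149 k213 7 (.s k165 k245 11 (.d k106 k192 k224 14 10))))))) .n)) (.c k190 (.q k125
  [(.s k10 k5 2 (.s k42 k63 6 (.s k26 k58 3 (.s k16 k31 2 (.d k48 k32 k37 3 6))))), (.s k105 k65 5
  (.s k149 k213 7 (.s k61 k193 13 (.s k1 k41 5 (.d k253 k189 k169 7 13)))))] (.c k61 (.l (.s k5 k10
  2 (.s k37 k53 3 (.s k26 k48 6 (.s k31 k16 2 (.d k63 k47 k42 3 6)))))) .n)) .n))))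

def s2_255_61 : T TT 256 :=
  (.q k4 [(.s k5 k10 2 (.s k6 k7 0 (.s k12 k8 1 (.s k13 k14 0 (.d k9 k1 k3 1 2))))), (.s k12 k8 1
  (.s k14 k13 0 (.s k166 k247 12 (.s k90 k242 13 (.s k80 k95 2 (.d k240 k160 k165 11 14)))))), (.s
  k5 k10 2 (.s k165 k245 11 (.s k166 k247 12 (.s k164 k167 0 (.s k244 k84 11 (.d k7 k6 k86 0
  12))))))] (.c k14 (.l (.s k12 k8 1 (.s k166 k247 12 (.s k243 k89 14 (.s k167 k91 13 (.s k165 k164
  0 (.d k5 k10 k245 2 11))))))) .n))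

def s2_255_62 : T TT 256 :=
  (.q k4 [(.s k5 k10 2 (.s k6 k7 0 (.s k12 k8 1 (.s k9 k3 2 (.d k13 k14 k1 0 1))))), (.s k12 k8 1
  (.s k14 k13 0 (.s k166 k247 12 (.s k90 k242 13 (.s k80 k95 2 (.d k240 k160 k165 11 14)))))), (.s
  k5 k10 2 (.s k165 k245 11 (.s k166 k247 12 (.s k164 k167 0 (.s k244 k84 11 (.d k7 k6 k86 0
  12))))))] (.c k14 (.l (.s k12 k8 1 (.s k166 k247 12 (.s k243 k89 14 (.s k167 k91 13 (.s k165 k164
  0 (.d k5 k10 k245 2 11))))))) (.c k22 (.q k42 [(.s k5 k10 2 (.s k6 k7 0 (.s k12 k8 1 (.s k13 k14 0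
  (.d k9 k1 k3 1 2))))), (.s k10 k5 2 (.s k21 k63 6 (.s k26 k58 3 (.s k16 k31 2 (.d k48 k32 k37 3
  6))))), (.s k12 k8 1 (.s k21 k63 6 (.s k38 k55 4 (.s k34 k46 1 (.d k51 k17 k25 4 6)))))] .n) (.c
  k42 (.q k22 [(.s k5 k10 2 (.s k6 k7 0 (.s k12 k8 1 (.s k9 k3 2 (.d k13 k14 k1 0 1))))), (.s k12 k8
  1 (.s k14 k13 0 (.s k166 k247 12 (.s k90 k242 13 (.s k80 k95 2 (.d k240 k160 k165 11 14)))))), (.s
  k5 k10 2 (.s k165 k245 11 (.s k166 k247 12 (.s k164 k167 0 (.s k244 k84 11 (.d k7 k6 k86 0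
  12))))))] (.c k14 (.l (.s k12 k8 1 (.s k166 k247 12 (.s k243 k89 14 (.s k167 k91 13 (.s k165 k164
  0 (.d k5 k10 k245 2 11))))))) .n)) .n))))

def s2_255_63 : T TT 256 :=
  (.q k207 [(.s k10 k5 2 (.s k143 k79 7 (.s k138 k69 10 (.s k133 k128 2 (.d k74 k202 k192 7 10))))),
  (.s k5 k10 2 (.s k143 k79 7 (.s k165 k245 11 (.s k154 k176 6 (.s k16 k223 10 (.d k48 k32 k101 3
  14)))))), (.s k69 k138 10 (.s k79 k143 7 (.s k101 k117 3 (.s k90 k112 6 (.s k80 k95 2 (.d k240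
  k160 k165 11 14)))))), (.s k5 k10 2 (.s k69 k138 10 (.s k101 k117 3 (.s k48 k154 14 (.s k37 k26 6
  (.d k165 k229 k245 7 11))))))] (.c k127 (.q k191 [(.s k10 k5 2 (.s k143 k79 7 (.s k138 k69 10 (.s
  k133 k128 2 (.d k74 k202 k192 7 10))))), (.s k69 k138 10 (.s k79 k143 7 (.s k101 k117 3 (.s k48
  k154 14 (.s k37 k26 6 (.s k165 k229 7 (.d k90 k112 k240 6 14))))))), (.s k5 k10 2 (.s k143 k79 7
  (.s k165 k245 11 (.s k154 k176 6 (.s k16 k223 10 (.d k48 k32 k101 3 14)))))), (.s k5 k10 2 (.s k69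
  k138 10 (.s k101 k117 3 (.s k48 k154 14 (.s k37 k26 6 (.d k165 k229 k245 7 11))))))] .n) (.c k191
  (.q k127 [(.s k64 k106 6 (.s k138 k69 10 (.s k143 k79 7 (.d k128 k192 k133 7 2)))), (.s k5 k10 2
  (.s k79 k143 7 (.s k95 k111 3 (.s k90 k80 2 (.d k165 k245 k240 11 14))))), (.s k5 k10 2 (.s k64
  k106 6 (.s k69 k138 10 (.s k133 k197 7 (.d k192 k74 k128 10 7)))))] .n) .n)))

def s2_255_64 : T TT 256 :=
  (.q k4 [(.s k5 k10 2 (.s k6 k7 0 (.s k12 k8 1 (.s k13 k14 0 (.d k9 k1 k3 1 2))))), (.s k12 k8 1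
  (.s k14 k13 0 (.s k166 k247 12 (.s k90 k242 13 (.s k80 k95 2 (.d k240 k160 k165 11 14)))))), (.s
  k5 k10 2 (.s k165 k245 11 (.s k166 k247 12 (.s k164 k167 0 (.s k244 k84 11 (.d k7 k6 k86 0
  12))))))] (.c k14 (.l (.s k12 k8 1 (.s k166 k247 12 (.s k243 k89 14 (.s k167 k91 13 (.s k165 k164
  0 (.d k5 k10 k245 2 11))))))) .n))

def s2_255_65 : T TT 256 :=
  (.q k4 [(.s k5 k10 2 (.s k6 k7 0 (.s k12 k8 1 (.s k13 k14 0 (.d k9 k1 k3 1 2))))), (.s k12 k8 1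
  (.s k14 k13 0 (.s k166 k247 12 (.s k90 k242 13 (.s k80 k95 2 (.d k240 k160 k165 11 14)))))), (.s
  k5 k10 2 (.s k165 k245 11 (.s k166 k247 12 (.s k164 k167 0 (.s k244 k84 11 (.d k7 k6 k86 0
  12))))))] (.c k14 (.l (.s k12 k8 1 (.s k166 k247 12 (.s k243 k89 14 (.s k167 k91 13 (.s k165 k164
  0 (.d k5 k10 k245 2 11))))))) .n))

def s2_255_66 : T TT 256 :=
  (.q k4 [(.s k5 k10 2 (.s k6 k7 0 (.s k12 k8 1 (.s k13 k14 0 (.d k9 k1 k3 1 2))))), (.s k12 k8 1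
  (.s k14 k13 0 (.s k166 k247 12 (.s k90 k242 13 (.s k80 k95 2 (.d k240 k160 k165 11 14)))))), (.s
  k5 k10 2 (.s k165 k245 11 (.s k166 k247 12 (.s k164 k167 0 (.s k244 k84 11 (.d k7 k6 k86 0
  12))))))] (.c k14 (.l (.s k12 k8 1 (.s k166 k247 12 (.s k243 k89 14 (.s k167 k91 13 (.s k165 k164
  0 (.d k5 k10 k245 2 11))))))) (.c k130 (.q k194 [(.s k5 k10 2 (.s k6 k7 0 (.s k12 k8 1 (.s k13 k14
  0 (.d k9 k1 k3 1 2))))), (.s k12 k8 1 (.s k14 k13 0 (.s k166 k247 12 (.s k90 k242 13 (.s k80 k95 2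
  (.d k240 k160 k165 11 14)))))), (.s k5 k10 2 (.s k165 k245 11 (.s k166 k247 12 (.s k164 k167 0 (.s
  k244 k84 11 (.d k7 k6 k86 0 12))))))] (.c k14 (.l (.s k12 k8 1 (.s k166 k247 12 (.s k243 k89 14
  (.s k167 k91 13 (.s k165 k164 0 (.d k5 k10 k245 2 11))))))) .n)) (.c k194 (.q k130 [(.s k5 k10 2
  (.s k6 k7 0 (.s k12 k8 1 (.s k13 k14 0 (.d k9 k1 k3 1 2))))), (.s k12 k8 1 (.s k195 k65 8 (.s k134
  k73 10 (.s k69 k199 8 (.d k138 k142 k207 1 10))))), (.s k5 k10 2 (.s k165 k245 11 (.s k166 k247 12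
  (.s k164 k167 0 (.s k244 k84 11 (.d k7 k6 k86 0 12))))))] .n) .n))))

def s2_255_67 : T TT 256 :=
  (.q k4 [(.s k5 k10 2 (.s k6 k7 0 (.s k12 k8 1 (.s k13 k14 0 (.d k9 k1 k3 1 2))))), (.s k12 k8 1
  (.s k14 k13 0 (.s k166 k247 12 (.s k90 k242 13 (.s k80 k95 2 (.d k240 k160 k165 11 14)))))), (.s
  k5 k10 2 (.s k165 k245 11 (.s k166 k247 12 (.s k164 k167 0 (.s k244 k84 11 (.d k7 k6 k86 0
  12))))))] (.c k14 (.l (.s k12 k8 1 (.s k166 k247 12 (.s k243 k89 14 (.s k167 k91 13 (.s k165 k164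
  0 (.d k5 k10 k245 2 11))))))) .n))

def s2_255_68 : T TT 256 :=
  (.q k4 [(.s k5 k10 2 (.s k6 k7 0 (.s k12 k8 1 (.s k13 k14 0 (.d k9 k1 k3 1 2))))), (.s k12 k8 1
  (.s k14 k13 0 (.s k166 k247 12 (.s k90 k242 13 (.s k80 k95 2 (.d k240 k160 k165 11 14)))))), (.s
  k5 k10 2 (.s k165 k245 11 (.s k166 k247 12 (.s k164 k167 0 (.s k244 k84 11 (.d k7 k6 k86 0
  12))))))] (.c k14 (.l (.s k12 k8 1 (.s k166 k247 12 (.s k243 k89 14 (.s k167 k91 13 (.s k165 k164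
  0 (.d k5 k10 k245 2 11))))))) .n))

def s2_255_69 : T TT 256 :=
  (.q k4 [(.s k5 k10 2 (.s k6 k7 0 (.s k12 k8 1 (.s k13 k14 0 (.d k9 k1 k3 1 2))))), (.s k12 k8 1
  (.s k14 k13 0 (.s k166 k247 12 (.s k90 k242 13 (.s k80 k95 2 (.d k240 k160 k165 11 14)))))), (.s
  k5 k10 2 (.s k165 k245 11 (.s k166 k247 12 (.s k164 k167 0 (.s k244 k84 11 (.d k7 k6 k86 0
  12))))))] (.c k14 (.l (.s k12 k8 1 (.s k166 k247 12 (.s k243 k89 14 (.s k167 k91 13 (.s k165 k164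
  0 (.d k5 k10 k245 2 11))))))) .n))

def s2_255_70 : T TT 256 :=
  (.q k4 [(.s k5 k10 2 (.s k6 k7 0 (.s k12 k8 1 (.s k13 k14 0 (.d k9 k1 k3 1 2))))), (.s k12 k8 1
  (.s k14 k13 0 (.s k166 k247 12 (.s k90 k242 13 (.s k80 k95 2 (.d k240 k160 k165 11 14)))))), (.s
  k5 k10 2 (.s k165 k245 11 (.s k166 k247 12 (.s k164 k167 0 (.s k244 k84 11 (.d k7 k6 k86 0
  12))))))] (.c k14 (.l (.s k12 k8 1 (.s k166 k247 12 (.s k243 k89 14 (.s k167 k91 13 (.s k165 k164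
  0 (.d k5 k10 k245 2 11))))))) (.c k138 (.q k206 [(.s k5 k10 2 (.s k6 k7 0 (.s k12 k8 1 (.s k13 k14
  0 (.d k9 k1 k3 1 2))))), (.s k12 k8 1 (.s k14 k13 0 (.s k166 k247 12 (.s k90 k242 13 (.s k80 k95 2
  (.d k240 k160 k165 11 14)))))), (.s k5 k10 2 (.s k165 k245 11 (.s k166 k247 12 (.s k164 k167 0 (.s
  k244 k84 11 (.d k7 k6 k86 0 12))))))] (.c k14 (.l (.s k12 k8 1 (.s k166 k247 12 (.s k243 k89 14
  (.s k167 k91 13 (.s k165 k164 0 (.d k5 k10 k245 2 11))))))) .n)) (.c k206 (.q k138 [(.s k5 k10 2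
  (.s k6 k7 0 (.s k12 k8 1 (.s k13 k14 0 (.d k9 k1 k3 1 2))))), (.s k10 k5 2 (.s k69 k207 10 (.s k74
  k202 7 (.s k64 k79 2 (.d k192 k128 k133 7 10))))), (.s k12 k8 1 (.s k69 k207 10 (.s k134 k199 8
  (.s k130 k142 1 (.d k195 k65 k73 8 10)))))] .n) .n))))

def s2_255_71 : T TT 256 :=
  (.q k4 [(.s k5 k10 2 (.s k6 k7 0 (.s k12 k8 1 (.s k13 k14 0 (.d k9 k1 k3 1 2))))), (.s k12 k8 1
  (.s k14 k13 0 (.s k166 k247 12 (.s k90 k242 13 (.s k80 k95 2 (.d k240 k160 k165 11 14)))))), (.s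
  k5 k10 2 (.s k165 k245 11 (.s k166 k247 12 (.s k164 k167 0 (.s k244 k84 11 (.d k7 k6 k86 0
  12))))))] (.c k14 (.l (.s k12 k8 1 (.s k166 k247 12 (.s k243 k89 14 (.s k167 k91 13 (.s k165 k164
  0 (.d k5 k10 k245 2 11))))))) .n))

def s2_255_72 : T TT 256 :=
  (.q k4 [(.s k5 k10 2 (.s k6 k7 0 (.s k12 k8 1 (.s k13 k14 0 (.d k9 k1 k3 1 2))))), (.s k5 k10 2
  (.s k165 k245 11 (.s k166 k247 12 (.s k164 k167 0 (.s k244 k84 11 (.d k7 k6 k86 0 12)))))), (.s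
  k12 k8 1 (.s k14 k13 0 (.s k166 k247 12 (.s k90 k242 13 (.s k80 k95 2 (.d k240 k160 k165 11
  14))))))] (.c k14 (.l (.s k12 k8 1 (.s k166 k247 12 (.s k243 k89 14 (.s k167 k91 13 (.s k165 k164
  0 (.d k5 k10 k245 2 11))))))) .n))

def s2_255_73 : T TT 256 :=
  (.q k4 [(.s k5 k10 2 (.s k6 k7 0 (.s k12 k8 1 (.s k13 k14 0 (.d k9 k1 k3 1 2))))), (.s k5 k10 2
  (.s k165 k245 11 (.s k166 k247 12 (.s k164 k167 0 (.s k244 k84 11 (.d k7 k6 k86 0 12)))))), (.s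
  k12 k8 1 (.s k14 k13 0 (.s k166 k247 12 (.s k90 k242 13 (.s k80 k95 2 (.d k240 k160 k165 11
  14))))))] (.c k14 (.l (.s k12 k8 1 (.s k166 k247 12 (.s k243 k89 14 (.s k167 k91 13 (.s k165 k164
  0 (.d k5 k10 k245 2 11))))))) .n))

def s2_255_74 : T TT 256 :=
  (.q k4 [(.s k5 k10 2 (.s k6 k7 0 (.s k12 k8 1 (.s k9 k3 2 (.d k13 k14 k1 0 1))))), (.s k12 k8 1
  (.s k14 k13 0 (.s k166 k247 12 (.s k90 k242 13 (.s k80 k95 2 (.d k240 k160 k165 11 14)))))), (.s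
  k5 k10 2 (.s k165 k245 11 (.s k166 k247 12 (.s k164 k167 0 (.s k244 k84 11 (.d k7 k6 k86 0
  12))))))] (.c k14 (.l (.s k12 k8 1 (.s k166 k247 12 (.s k243 k89 14 (.s k167 k91 13 (.s k165 k164
  0 (.d k5 k10 k245 2 11))))))) .n))

def s2_255_75 : T TT 256 :=
  (.q k4 [(.s k5 k10 2 (.s k6 k7 0 (.s k12 k8 1 (.s k13 k14 0 (.d k9 k1 k3 1 2))))), (.s k12 k8 1
  (.s k14 k13 0 (.s k166 k247 12 (.s k90 k242 13 (.s k80 k95 2 (.d k240 k160 k165 11 14)))))), (.s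
  k5 k10 2 (.s k165 k245 11 (.s k166 k247 12 (.s k164 k167 0 (.s k244 k84 11 (.d k7 k6 k86 0
  12))))))] (.c k14 (.l (.s k12 k8 1 (.s k166 k247 12 (.s k243 k89 14 (.s k167 k91 13 (.s k165 k164
  0 (.d k5 k10 k245 2 11))))))) .n))

def s2_255_76 : T TT 256 :=
  (.q k4 [(.s k5 k10 2 (.s k6 k7 0 (.s k12 k8 1 (.s k13 k14 0 (.d k9 k1 k3 1 2))))), (.s k12 k8 1
  (.s k14 k13 0 (.s k166 k247 12 (.s k90 k242 13 (.s k80 k95 2 (.d k240 k160 k165 11 14)))))), (.s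
  k5 k10 2 (.s k165 k245 11 (.s k166 k247 12 (.s k164 k167 0 (.s k244 k84 11 (.d k7 k6 k86 0
  12))))))] (.c k14 (.l (.s k12 k8 1 (.s k166 k247 12 (.s k243 k89 14 (.s k167 k91 13 (.s k165 k164
  0 (.d k5 k10 k245 2 11))))))) .n))

def s2_255_77 : T TT 256 :=
  (.q k4 [(.s k5 k10 2 (.s k6 k7 0 (.s k12 k8 1 (.s k13 k14 0 (.d k9 k1 k3 1 2))))), (.s k12 k8 1
  (.s k14 k13 0 (.s k166 k247 12 (.s k90 k242 13 (.s k80 k95 2 (.d k240 k160 k165 11 14)))))), (.s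
  k5 k10 2 (.s k165 k245 11 (.s k166 k247 12 (.s k164 k167 0 (.s k244 k84 11 (.d k7 k6 k86 0
  12))))))] (.c k14 (.l (.s k12 k8 1 (.s k166 k247 12 (.s k243 k89 14 (.s k167 k91 13 (.s k165 k164
  0 (.d k5 k10 k245 2 11))))))) .n))

def s2_255_78 : T TT 256 :=
  (.q k4 [(.s k5 k10 2 (.s k6 k7 0 (.s k12 k8 1 (.s k9 k3 2 (.d k13 k14 k1 0 1))))), (.s k12 k8 1
  (.s k14 k13 0 (.s k166 k247 12 (.s k90 k242 13 (.s k80 k95 2 (.d k240 k160 k165 11 14)))))), (.s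
  k5 k10 2 (.s k165 k245 11 (.s k166 k247 12 (.s k164 k167 0 (.s k244 k84 11 (.d k7 k6 k86 0
  12))))))] (.c k14 (.l (.s k12 k8 1 (.s k166 k247 12 (.s k243 k89 14 (.s k167 k91 13 (.s k165 k164
  0 (.d k5 k10 k245 2 11))))))) .n))

def s2_255_79 : T TT 256 :=
  (.q k4 [(.s k5 k10 2 (.s k6 k7 0 (.s k12 k8 1 (.s k13 k14 0 (.d k9 k1 k3 1 2))))), (.s k12 k8 1
  (.s k14 k13 0 (.s k166 k247 12 (.s k90 k242 13 (.s k80 k95 2 (.d k240 k160 k165 11 14)))))), (.s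
  k5 k10 2 (.s k165 k245 11 (.s k166 k247 12 (.s k164 k167 0 (.s k244 k84 11 (.d k7 k6 k86 0
  12))))))] (.c k14 (.l (.s k12 k8 1 (.s k166 k247 12 (.s k243 k89 14 (.s k167 k91 13 (.s k165 k164
  0 (.d k5 k10 k245 2 11))))))) .n))

def s2_255_80 : T TT 256 :=
  (.q k4 [(.s k5 k10 2 (.s k6 k7 0 (.s k12 k8 1 (.s k13 k14 0 (.d k9 k1 k3 1 2))))), (.s k12 k8 1
  (.s k14 k13 0 (.s k166 k247 12 (.s k90 k242 13 (.s k165 k240 14 (.s k167 k164 0 (.d k243 k91 k89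
  13 14))))))), (.s k5 k10 2 (.s k165 k245 11 (.s k166 k247 12 (.s k164 k167 0 (.s k244 k84 11 (.d
  k7 k6 k86 0 12))))))] (.c k14 (.l (.s k12 k8 1 (.s k166 k247 12 (.s k243 k89 14 (.s k167 k91 13
  (.s k165 k164 0 (.d k5 k10 k245 2 11))))))) .n))

def s2_255_81 : T TT 256 :=
  (.q k4 [(.s k5 k10 2 (.s k6 k7 0 (.s k12 k8 1 (.s k13 k14 0 (.d k9 k1 k3 1 2))))), (.s k12 k8 1
  (.s k14 k13 0 (.s k166 k247 12 (.s k90 k242 13 (.s k80 k95 2 (.d k240 k160 k165 11 14)))))), (.s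
  k5 k10 2 (.s k165 k245 11 (.s k166 k247 12 (.s k164 k167 0 (.s k244 k84 11 (.d k7 k6 k86 0
  12))))))] (.c k14 (.l (.s k12 k8 1 (.s k166 k247 12 (.s k243 k89 14 (.s k167 k91 13 (.s k165 k164
  0 (.d k5 k10 k245 2 11))))))) .n))

def s2_255_82 : T TT 256 :=
  (.q k4 [(.s k5 k10 2 (.s k6 k7 0 (.s k12 k8 1 (.s k13 k14 0 (.d k9 k1 k3 1 2))))), (.s k12 k8 1
  (.s k14 k13 0 (.s k166 k247 12 (.s k243 k89 14 (.s k167 k91 13 (.s k165 k164 0 (.d k90 k242 k240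
  13 14))))))), (.s k5 k10 2 (.s k165 k245 11 (.s k166 k247 12 (.s k164 k167 0 (.s k244 k84 11 (.d
  k7 k6 k86 0 12))))))] (.c k14 (.l (.s k12 k8 1 (.s k166 k247 12 (.s k243 k89 14 (.s k167 k91 13
  (.s k165 k164 0 (.d k5 k10 k245 2 11))))))) (.c k162 (.q k242 [(.s k12 k8 1 (.s k14 k13 0 (.d k166
  k247 k90 12 13))), (.s k5 k10 2 (.s k165 k245 11 (.s k166 k247 12 (.d k90 k14 k240 13 14)))), (.s
  k5 k10 2 (.s k6 k7 0 (.s k12 k8 1 (.s k9 k3 2 (.d k13 k14 k1 0 1)))))] (.c k14 (.l (.s k12 k8 1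
  (.s k166 k247 12 (.s k243 k89 14 (.s k167 k91 13 (.s k164 k165 0 (.d k240 k241 k88 0 13)))))))
  .n)) (.c k242 (.q k162 [(.s k12 k8 1 (.s k166 k247 12 (.d k243 k81 k89 12 14))), (.s k5 k10 2 (.s
  k6 k7 0 (.s k12 k8 1 (.s k9 k3 2 (.d k13 k14 k1 0 1))))), (.s k5 k10 2 (.s k165 k245 11 (.s k166
  k247 12 (.s k167 k164 0 (.d k243 k81 k91 12 13)))))] .n) .n))))

def s2_255_83 : T TT 256 :=
  (.q k4 [(.s k5 k10 2 (.s k6 k7 0 (.s k12 k8 1 (.s k13 k14 0 (.d k9 k1 k3 1 2))))), (.s k12 k8 1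
  (.s k14 k13 0 (.s k166 k247 12 (.s k90 k242 13 (.s k80 k95 2 (.d k240 k160 k165 11 14)))))), (.s
  k5 k10 2 (.s k165 k245 11 (.s k166 k247 12 (.s k164 k167 0 (.s k244 k84 11 (.d k7 k6 k86 0
  12))))))] (.c k14 (.l (.s k12 k8 1 (.s k166 k247 12 (.s k243 k89 14 (.s k167 k91 13 (.s k165 k164
  0 (.d k5 k10 k245 2 11))))))) .n))

def s2_255_84 : T TT 256 :=
  (.q k12 [(.s k4 k8 1 (.s k5 k10 2 (.s k6 k7 0 (.s k13 k14 0 (.d k9 k1 k3 1 2))))), (.s k4 k8 1 (.s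
  k14 k13 0 (.s k166 k247 12 (.s k90 k242 13 (.s k80 k95 2 (.d k240 k160 k165 11 14)))))), (.s k5
  k10 2 (.s k165 k245 11 (.s k240 k90 14 (.s k164 k88 13 (.s k166 k167 0 (.s k89 k243 14 (.d k13 k14
  k241 0 13))))))), (.s k4 k8 1 (.s k166 k247 12 (.s k243 k89 14 (.s k167 k91 13 (.s k165 k164 0 (.d
  k5 k10 k245 2 11))))))] .n)

def s2_255_86 : T TT 256 :=
  (.q k63 [(.s k10 k5 2 (.s k47 k31 3 (.s k42 k21 6 (.s k37 k32 2 (.d k26 k58 k48 3 6))))), (.s k5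
  k10 2 (.s k47 k31 3 (.s k165 k245 11 (.s k106 k224 10 (.s k64 k127 6 (.d k192 k128 k149 7
  14)))))), (.s k21 k42 6 (.s k31 k47 3 (.s k149 k213 7 (.s k90 k208 10 (.s k80 k95 2 (.d k240 k160
  k165 11 14)))))), (.s k5 k10 2 (.s k21 k42 6 (.s k149 k213 7 (.s k165 k245 11 (.s k133 k181 3 (.d
  k192 k74 k106 10 14))))))] (.c k170 (.q k254 [(.s k10 k5 2 (.s k42 k21 6 (.s k26 k58 3 (.s k37 k48
  6 (.d k47 k32 k31 2 3))))), (.s k5 k10 2 (.s k47 k31 3 (.s k165 k245 11 (.s k106 k224 10 (.s k64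
  k127 6 (.d k192 k128 k149 7 14)))))), (.s k21 k42 6 (.s k31 k47 3 (.s k149 k213 7 (.s k90 k208 10
  (.s k80 k95 2 (.d k240 k160 k165 11 14)))))), (.s k5 k10 2 (.s k21 k42 6 (.s k149 k213 7 (.s k165
  k245 11 (.s k133 k181 3 (.d k192 k106 k74 14 10))))))] .n) (.c k254 (.q k170 [(.s k5 k10 2 (.s
  k165 k245 11 (.s k160 k175 2 (.d k240 k80 k90 11 14)))), (.s k21 k42 6 (.s k149 k213 7 (.s k128
  k191 6 (.d k192 k64 k106 7 14))))] (.c k252 (.q k253 [(.s k5 k10 2 (.s k165 k245 11 (.s k160 k175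
  2 (.d k240 k80 k90 11 14)))), (.s k21 k42 6 (.s k149 k213 7 (.s k128 k191 6 (.d k192 k64 k106 7
  14))))] (.c k3 (.l (.s k169 k1 13 (.s k5 k10 2 (.s k165 k245 11 (.s k160 k175 2 (.d k240 k80 k90
  11 14)))))) (.c k169 (.q k3 [(.s k5 k10 2 (.s k165 k245 11 (.s k160 k175 2 (.d k240 k80 k90 11
  14)))), (.s k21 k42 6 (.s k149 k213 7 (.s k128 k191 6 (.d k192 k64 k106 7 14))))] .n) .n))) (.c
  k253 (.q k252 [(.s k10 k5 2 (.s k90 k250 11 (.s k80 k95 2 (.d k240 k160 k165 11 14)))), (.s k21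
  k42 6 (.s k149 k213 7 (.s k128 k191 6 (.d k192 k64 k106 7 14))))] .n) .n))) .n)))

def s2_255_87 : T TT 256 :=
  (.q k63 [(.s k10 k5 2 (.s k47 k31 3 (.s k42 k21 6 (.s k37 k32 2 (.d k26 k58 k48 3 6))))), (.s k5
  k10 2 (.s k47 k31 3 (.s k165 k245 11 (.s k106 k224 10 (.s k64 k127 6 (.d k192 k128 k149 7
  14)))))), (.s k21 k42 6 (.s k31 k47 3 (.s k149 k213 7 (.s k90 k208 10 (.s k80 k95 2 (.d k240 k160
  k165 11 14)))))), (.s k5 k10 2 (.s k21 k42 6 (.s k149 k213 7 (.s k165 k245 11 (.s k133 k181 3 (.d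
  k192 k74 k106 10 14))))))] (.c k3 (.q k171 [(.s k10 k5 2 (.s k47 k31 3 (.s k42 k21 6 (.s k37 k32 2
  (.d k26 k58 k48 3 6))))), (.s k5 k10 2 (.s k47 k31 3 (.s k165 k245 11 (.s k106 k224 10 (.s k64
  k127 6 (.d k192 k128 k149 7 14)))))), (.s k21 k42 6 (.s k31 k47 3 (.s k149 k213 7 (.s k90 k208 10
  (.s k80 k95 2 (.d k240 k160 k165 11 14)))))), (.s k5 k10 2 (.s k21 k42 6 (.s k149 k213 7 (.s k165
  k245 11 (.s k133 k181 3 (.d k192 k74 k106 10 14))))))] .n) (.c k171 (.q k3 [(.s k5 k10 2 (.s k21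
  k42 6 (.s k31 k47 3 (.s k26 k16 2 (.d k37 k53 k48 3 6))))), (.s k7 k11 1 (.s k23 k43 5 (.s k31 k47
  3 (.s k27 k19 1 (.d k39 k55 k51 3 5))))), (.s k5 k10 2 (.s k7 k11 1 (.s k21 k42 6 (.s k23 k43 5
  (.s k22 k20 0 (.d k37 k53 k52 3 4))))))] .n) .n)))

def s2_255_88 : T TT 256 :=
  (.q k4 [(.s k5 k10 2 (.s k6 k7 0 (.s k12 k8 1 (.s k13 k14 0 (.d k9 k1 k3 1 2))))), (.s k5 k10 2
  (.s k165 k245 11 (.s k166 k247 12 (.s k164 k167 0 (.s k244 k84 11 (.d k7 k6 k86 0 12)))))), (.s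
  k12 k8 1 (.s k14 k13 0 (.s k166 k247 12 (.s k90 k242 13 (.s k80 k95 2 (.d k240 k160 k165 11
  14))))))] (.c k14 (.l (.s k5 k10 2 (.s k6 k7 0 (.s k12 k8 1 (.s k165 k245 11 (.s k166 k247 12 (.s
  k167 k164 0 (.d k243 k91 k89 13 14)))))))) .n))

def s2_255_89 : T TT 256 :=
  (.q k21 [(.s k10 k5 2 (.s k42 k63 6 (.s k26 k58 3 (.s k16 k31 2 (.d k48 k32 k37 3 6))))), (.s k5
  k10 2 (.s k53 k37 3 (.s k149 k213 7 (.s k101 k197 11 (.s k117 k69 3 (.d k245 k181 k165 7 11)))))),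
  (.s k63 k42 6 (.s k31 k47 3 (.s k149 k213 7 (.s k90 k208 10 (.s k80 k95 2 (.d k240 k160 k165 11
  14))))))] (.c k37 (.l (.s k5 k10 2 (.s k63 k42 6 (.s k47 k31 3 (.s k149 k213 7 (.s k165 k245 11
  (.d k106 k192 k224 14 10))))))) .n))

def s2_255_90 : T TT 256 :=
  (.f k10 k5 2 (.q k192 [(.s k64 k128 7 (.s k74 k133 10 (.s k138 k202 7 (.d k69 k79 k207 2 10)))),
  (.s k64 k128 7 (.s k106 k127 6 (.s k63 k149 14 (.s k42 k21 6 (.s k26 k58 3 (.s k37 k48 6 (.d k47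
  k31 k32 3 2)))))))] (.c k64 (.q k4 [(.s k12 k8 1 (.s k74 k133 10 (.s k138 k202 7 (.s k69 k207 10
  (.s k134 k199 8 (.d k14 k13 k194 0 9)))))), (.s k12 k8 1 (.s k132 k72 9 (.s k166 k247 12 (.s k149
  k183 4 (.s k21 k213 7 (.d k63 k42 k106 6 14)))))), (.s k74 k133 10 (.s k138 k202 7 (.s k69 k207 10
  (.s k134 k199 8 (.s k194 k14 9 (.s k195 k193 0 (.d k130 k142 k65 1 8)))))))] .n) (.c k128 (.q k4
  [(.s k12 k8 1 (.s k74 k133 10 (.s k138 k202 7 (.s k69 k207 10 (.s k134 k199 8 (.d k14 k13 k194 0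
  9)))))), (.s k12 k8 1 (.s k132 k72 9 (.s k166 k247 12 (.s k149 k183 4 (.s k21 k213 7 (.d k63 k42
  k106 6 14)))))), (.s k74 k133 10 (.s k138 k202 7 (.s k69 k207 10 (.s k134 k199 8 (.s k194 k14 9
  (.s k195 k193 0 (.d k130 k142 k65 1 8)))))))] .n) .n))))

def s2_255_91 : T TT 256 :=
  (.q k4 [(.s k5 k10 2 (.s k6 k7 0 (.s k12 k8 1 (.s k13 k14 0 (.d k9 k1 k3 1 2))))), (.s k12 k8 1
  (.s k14 k13 0 (.s k166 k247 12 (.s k90 k242 13 (.s k80 k95 2 (.d k240 k160 k165 11 14)))))), (.s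
  k5 k10 2 (.s k165 k245 11 (.s k166 k247 12 (.s k164 k167 0 (.s k244 k84 11 (.d k7 k6 k86 0
  12))))))] (.c k14 (.l (.s k5 k10 2 (.s k6 k7 0 (.s k12 k8 1 (.s k165 k245 11 (.s k166 k247 12 (.s
  k240 k90 14 (.d k164 k167 k88 0 13)))))))) .n))

def s2_255_92 : T TT 256 :=
  (.q k4 [(.s k5 k10 2 (.s k6 k7 0 (.s k12 k8 1 (.s k13 k14 0 (.d k9 k1 k3 1 2))))), (.s k12 k8 1
  (.s k14 k13 0 (.s k166 k247 12 (.s k90 k242 13 (.s k80 k95 2 (.d k240 k160 k165 11 14)))))), (.s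
  k5 k10 2 (.s k165 k245 11 (.s k166 k247 12 (.s k164 k167 0 (.s k244 k84 11 (.d k7 k6 k86 0
  12))))))] (.c k14 (.l (.s k12 k8 1 (.s k166 k247 12 (.s k243 k89 14 (.s k167 k91 13 (.s k165 k164
  0 (.d k5 k10 k245 2 11))))))) .n))

def s2_255_93 : T TT 256 :=
  (.q k12 [(.s k4 k8 1 (.s k5 k10 2 (.s k6 k7 0 (.s k13 k14 0 (.d k9 k1 k3 1 2))))), (.s k4 k8 1 (.s
  k14 k13 0 (.s k166 k247 12 (.s k90 k242 13 (.s k80 k95 2 (.d k240 k160 k165 11 14)))))), (.s k5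
  k10 2 (.s k165 k245 11 (.s k240 k90 14 (.s k164 k88 13 (.s k166 k167 0 (.s k89 k243 14 (.d k13 k14
  k241 0 13))))))), (.s k4 k8 1 (.s k166 k247 12 (.s k243 k89 14 (.s k167 k91 13 (.s k165 k164 0 (.d
  k5 k10 k245 2 11))))))] .n)

def s2_255_94 : T TT 256 :=
  (.q k4 [(.s k5 k10 2 (.s k6 k7 0 (.s k12 k8 1 (.s k9 k3 2 (.d k13 k14 k1 0 1))))), (.s k12 k8 1
  (.s k14 k13 0 (.s k166 k247 12 (.s k90 k242 13 (.s k80 k95 2 (.d k240 k160 k165 11 14)))))), (.s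
  k5 k10 2 (.s k165 k245 11 (.s k166 k247 12 (.s k164 k167 0 (.s k244 k84 11 (.d k7 k6 k86 0
  12))))))] (.c k14 (.l (.s k12 k8 1 (.s k166 k247 12 (.s k243 k89 14 (.s k167 k91 13 (.s k165 k164
  0 (.d k5 k10 k245 2 11))))))) .n))

def s2_255_95 : T TT 256 :=
  (.q k4 [(.s k5 k10 2 (.s k6 k7 0 (.s k12 k8 1 (.s k13 k14 0 (.d k9 k1 k3 1 2))))), (.s k12 k8 1
  (.s k14 k13 0 (.s k166 k247 12 (.s k90 k242 13 (.s k165 k240 14 (.s k167 k164 0 (.d k243 k91 k89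
  13 14))))))), (.s k5 k10 2 (.s k165 k245 11 (.s k166 k247 12 (.s k164 k167 0 (.s k244 k84 11 (.d
  k7 k6 k86 0 12))))))] (.c k14 (.l (.s k12 k8 1 (.s k166 k247 12 (.s k243 k89 14 (.s k167 k91 13
  (.s k165 k164 0 (.d k5 k10 k245 2 11))))))) .n))

def s2_255_96 : T TT 256 :=
  (.q k4 [(.s k5 k10 2 (.s k6 k7 0 (.s k12 k8 1 (.s k13 k14 0 (.d k9 k1 k3 1 2))))), (.s k12 k8 1
  (.s k14 k13 0 (.s k166 k247 12 (.s k90 k242 13 (.s k80 k95 2 (.d k240 k160 k165 11 14)))))), (.s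
  k5 k10 2 (.s k165 k245 11 (.s k166 k247 12 (.s k164 k167 0 (.s k244 k84 11 (.d k7 k6 k86 0
  12))))))] (.c k14 (.l (.s k12 k8 1 (.s k166 k247 12 (.s k243 k89 14 (.s k167 k91 13 (.s k165 k164
  0 (.d k5 k10 k245 2 11))))))) .n))

def s2_255_97 : T TT 256 :=
  (.q k4 [(.s k5 k10 2 (.s k6 k7 0 (.s k12 k8 1 (.s k13 k14 0 (.d k9 k1 k3 1 2))))), (.s k12 k8 1
  (.s k14 k13 0 (.s k166 k247 12 (.s k90 k242 13 (.s k80 k95 2 (.d k240 k160 k165 11 14)))))), (.s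
  k5 k10 2 (.s k165 k245 11 (.s k166 k247 12 (.s k164 k167 0 (.s k244 k84 11 (.d k7 k6 k86 0
  12))))))] (.c k14 (.l (.s k12 k8 1 (.s k166 k247 12 (.s k243 k89 14 (.s k167 k91 13 (.s k165 k164
  0 (.d k5 k10 k245 2 11))))))) .n))

def s2_255_98 : T TT 256 :=
  (.q k4 [(.s k5 k10 2 (.s k6 k7 0 (.s k12 k8 1 (.s k13 k14 0 (.d k9 k1 k3 1 2))))), (.s k12 k8 1
  (.s k14 k13 0 (.s k166 k247 12 (.s k90 k242 13 (.s k80 k95 2 (.d k240 k160 k165 11 14)))))), (.s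
  k5 k10 2 (.s k165 k245 11 (.s k166 k247 12 (.s k164 k167 0 (.s k244 k84 11 (.d k7 k6 k86 0
  12))))))] (.c k14 (.l (.s k12 k8 1 (.s k166 k247 12 (.s k243 k89 14 (.s k167 k91 13 (.s k165 k164
  0 (.d k5 k10 k245 2 11))))))) .n))

def s2_255_99 : T TT 256 :=
  (.q k4 [(.s k5 k10 2 (.s k6 k7 0 (.s k12 k8 1 (.s k13 k14 0 (.d k9 k1 k3 1 2))))), (.s k12 k8 1
  (.s k14 k13 0 (.s k166 k247 12 (.s k90 k242 13 (.s k80 k95 2 (.d k240 k160 k165 11 14)))))), (.s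
  k5 k10 2 (.s k165 k245 11 (.s k166 k247 12 (.s k164 k167 0 (.s k244 k84 11 (.d k7 k6 k86 0
  12))))))] (.c k14 (.l (.s k12 k8 1 (.s k166 k247 12 (.s k243 k89 14 (.s k167 k91 13 (.s k165 k164
  0 (.d k5 k10 k245 2 11))))))) .n))

def s2_255_100 : T TT 256 :=
  (.q k4 [(.s k5 k10 2 (.s k6 k7 0 (.s k12 k8 1 (.s k13 k14 0 (.d k9 k1 k3 1 2))))), (.s k12 k8 1
  (.s k14 k13 0 (.s k166 k247 12 (.s k90 k242 13 (.s k80 k95 2 (.d k240 k160 k165 11 14)))))), (.s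
  k5 k10 2 (.s k165 k245 11 (.s k166 k247 12 (.s k164 k167 0 (.s k244 k84 11 (.d k7 k6 k86 0
  12))))))] (.c k14 (.l (.s k12 k8 1 (.s k166 k247 12 (.s k243 k89 14 (.s k167 k91 13 (.s k165 k164
  0 (.d k5 k10 k245 2 11))))))) .n))

def s2_255_101 : T TT 256 :=
  (.q k4 [(.s k5 k10 2 (.s k6 k7 0 (.s k12 k8 1 (.s k13 k14 0 (.d k9 k1 k3 1 2))))), (.s k12 k8 1
  (.s k14 k13 0 (.s k166 k247 12 (.s k90 k242 13 (.s k80 k95 2 (.d k240 k160 k165 11 14)))))), (.s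
  k5 k10 2 (.s k165 k245 11 (.s k166 k247 12 (.s k164 k167 0 (.s k244 k84 11 (.d k7 k6 k86 0
  12))))))] (.c k14 (.l (.s k12 k8 1 (.s k166 k247 12 (.s k243 k89 14 (.s k167 k91 13 (.s k165 k164
  0 (.d k5 k10 k245 2 11))))))) .n))

def s2_255_102 : T TT 256 :=
  (.q k4 [(.s k5 k10 2 (.s k6 k7 0 (.s k12 k8 1 (.s k13 k14 0 (.d k9 k1 k3 1 2))))), (.s k12 k8 1
  (.s k14 k13 0 (.s k166 k247 12 (.s k90 k242 13 (.s k80 k95 2 (.d k240 k160 k165 11 14)))))), (.s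
  k5 k10 2 (.s k165 k245 11 (.s k166 k247 12 (.s k164 k167 0 (.s k244 k84 11 (.d k7 k6 k86 0
  12))))))] (.c k14 (.l (.s k12 k8 1 (.s k166 k247 12 (.s k243 k89 14 (.s k167 k91 13 (.s k165 k164
  0 (.d k5 k10 k245 2 11))))))) .n))

def s2_255_103 : T TT 256 :=
  (.q k4 [(.s k5 k10 2 (.s k6 k7 0 (.s k12 k8 1 (.s k13 k14 0 (.d k9 k1 k3 1 2))))), (.s k12 k8 1
  (.s k14 k13 0 (.s k166 k247 12 (.s k90 k242 13 (.s k80 k95 2 (.d k240 k160 k165 11 14)))))), (.s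
  k5 k10 2 (.s k165 k245 11 (.s k166 k247 12 (.s k164 k167 0 (.s k244 k84 11 (.d k7 k6 k86 0
  12))))))] (.c k14 (.l (.s k12 k8 1 (.s k166 k247 12 (.s k243 k89 14 (.s k167 k91 13 (.s k165 k164
  0 (.d k5 k10 k245 2 11))))))) .n))

def s2_255_104 : T TT 256 :=
  (.q k4 [(.s k5 k10 2 (.s k6 k7 0 (.s k12 k8 1 (.s k13 k14 0 (.d k9 k1 k3 1 2))))), (.s k12 k8 1
  (.s k14 k13 0 (.s k166 k247 12 (.s k90 k242 13 (.s k80 k95 2 (.d k240 k160 k165 11 14)))))), (.s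
  k5 k10 2 (.s k165 k245 11 (.s k166 k247 12 (.s k164 k167 0 (.s k244 k84 11 (.d k7 k6 k86 0
  12))))))] (.c k14 (.l (.s k12 k8 1 (.s k166 k247 12 (.s k243 k89 14 (.s k167 k91 13 (.s k165 k164
  0 (.d k5 k10 k245 2 11))))))) .n))

def s2_255_105 : T TT 256 :=
  (.q k4 [(.s k5 k10 2 (.s k6 k7 0 (.s k12 k8 1 (.s k13 k14 0 (.d k9 k1 k3 1 2))))), (.s k12 k8 1
  (.s k14 k13 0 (.s k166 k247 12 (.s k90 k242 13 (.s k80 k95 2 (.d k240 k160 k165 11 14)))))), (.s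
  k5 k10 2 (.s k165 k245 11 (.s k166 k247 12 (.s k164 k167 0 (.s k244 k84 11 (.d k7 k6 k86 0
  12))))))] (.c k14 (.l (.s k12 k8 1 (.s k166 k247 12 (.s k243 k89 14 (.s k167 k91 13 (.s k165 k164
  0 (.d k5 k10 k245 2 11))))))) .n))

def s2_255_106 : T TT 256 :=
  (.q k4 [(.s k5 k10 2 (.s k6 k7 0 (.s k12 k8 1 (.s k13 k14 0 (.d k9 k1 k3 1 2))))), (.s k12 k8 1
  (.s k14 k13 0 (.s k166 k247 12 (.s k90 k242 13 (.s k80 k95 2 (.d k240 k160 k165 11 14)))))), (.s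
  k5 k10 2 (.s k165 k245 11 (.s k166 k247 12 (.s k164 k167 0 (.s k244 k84 11 (.d k7 k6 k86 0
  12))))))] (.c k14 (.l (.s k12 k8 1 (.s k166 k247 12 (.s k243 k89 14 (.s k167 k91 13 (.s k165 k164
  0 (.d k5 k10 k245 2 11))))))) .n))

def s2_255_107 : T TT 256 :=
  (.q k4 [(.s k5 k10 2 (.s k6 k7 0 (.s k12 k8 1 (.s k13 k14 0 (.d k9 k1 k3 1 2))))), (.s k12 k8 1
  (.s k14 k13 0 (.s k166 k247 12 (.s k90 k242 13 (.s k80 k95 2 (.d k240 k160 k165 11 14)))))), (.s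
  k5 k10 2 (.s k165 k245 11 (.s k166 k247 12 (.s k164 k167 0 (.s k244 k84 11 (.d k7 k6 k86 0
  12))))))] (.c k14 (.l (.s k12 k8 1 (.s k166 k247 12 (.s k243 k89 14 (.s k167 k91 13 (.s k165 k164
  0 (.d k5 k10 k245 2 11))))))) .n))

def s2_255_108 : T TT 256 :=
  (.q k4 [(.s k5 k10 2 (.s k6 k7 0 (.s k12 k8 1 (.s k13 k14 0 (.d k9 k1 k3 1 2))))), (.s k12 k8 1
  (.s k14 k13 0 (.s k166 k247 12 (.s k90 k242 13 (.s k80 k95 2 (.d k240 k160 k165 11 14)))))), (.s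
  k5 k10 2 (.s k165 k245 11 (.s k166 k247 12 (.s k164 k167 0 (.s k244 k84 11 (.d k7 k6 k86 0
  12))))))] (.c k14 (.l (.s k12 k8 1 (.s k166 k247 12 (.s k243 k89 14 (.s k167 k91 13 (.s k165 k164
  0 (.d k5 k10 k245 2 11))))))) .n))

def s2_255_109 : T TT 256 :=
  (.q k4 [(.s k5 k10 2 (.s k6 k7 0 (.s k12 k8 1 (.s k13 k14 0 (.d k9 k1 k3 1 2))))), (.s k12 k8 1
  (.s k14 k13 0 (.s k166 k247 12 (.s k90 k242 13 (.s k80 k95 2 (.d k240 k160 k165 11 14)))))), (.s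
  k5 k10 2 (.s k165 k245 11 (.s k166 k247 12 (.s k164 k167 0 (.s k244 k84 11 (.d k7 k6 k86 0
  12))))))] (.c k14 (.l (.s k12 k8 1 (.s k166 k247 12 (.s k243 k89 14 (.s k167 k91 13 (.s k165 k164
  0 (.d k5 k10 k245 2 11))))))) .n))

def s2_255_110 : T TT 256 :=
  (.q k4 [(.s k5 k10 2 (.s k6 k7 0 (.s k12 k8 1 (.s k13 k14 0 (.d k9 k1 k3 1 2))))), (.s k12 k8 1
  (.s k14 k13 0 (.s k166 k247 12 (.s k90 k242 13 (.s k80 k95 2 (.d k240 k160 k165 11 14)))))), (.s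
  k5 k10 2 (.s k165 k245 11 (.s k166 k247 12 (.s k164 k167 0 (.s k244 k84 11 (.d k7 k6 k86 0
  12))))))] (.c k14 (.l (.s k12 k8 1 (.s k166 k247 12 (.s k243 k89 14 (.s k167 k91 13 (.s k165 k164
  0 (.d k5 k10 k245 2 11))))))) .n))

def s2_255_111 : T TT 256 :=
  (.q k4 [(.s k5 k10 2 (.s k6 k7 0 (.s k12 k8 1 (.s k13 k14 0 (.d k9 k1 k3 1 2))))), (.s k12 k8 1
  (.s k14 k13 0 (.s k166 k247 12 (.s k90 k242 13 (.s k80 k95 2 (.d k240 k160 k165 11 14)))))), (.s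
  k5 k10 2 (.s k165 k245 11 (.s k166 k247 12 (.s k164 k167 0 (.s k244 k84 11 (.d k7 k6 k86 0
  12))))))] (.c k14 (.l (.s k12 k8 1 (.s k166 k247 12 (.s k243 k89 14 (.s k167 k91 13 (.s k165 k164
  0 (.d k5 k10 k245 2 11))))))) .n))

def s2_255_112 : T TT 256 :=
  (.q k4 [(.s k5 k10 2 (.s k6 k7 0 (.s k12 k8 1 (.s k13 k14 0 (.d k9 k1 k3 1 2))))), (.s k12 k8 1
  (.s k14 k13 0 (.s k166 k247 12 (.s k90 k242 13 (.s k80 k95 2 (.d k240 k160 k165 11 14)))))), (.s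
  k5 k10 2 (.s k165 k245 11 (.s k166 k247 12 (.s k164 k167 0 (.s k244 k84 11 (.d k7 k6 k86 0
  12))))))] (.c k14 (.l (.s k12 k8 1 (.s k166 k247 12 (.s k243 k89 14 (.s k167 k91 13 (.s k165 k164
  0 (.d k5 k10 k245 2 11))))))) .n))

def s2_255_113 : T TT 256 :=
  (.q k4 [(.s k5 k10 2 (.s k6 k7 0 (.s k12 k8 1 (.s k13 k14 0 (.d k9 k1 k3 1 2))))), (.s k12 k8 1
  (.s k14 k13 0 (.s k166 k247 12 (.s k90 k242 13 (.s k80 k95 2 (.d k240 k160 k165 11 14)))))), (.s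
  k5 k10 2 (.s k165 k245 11 (.s k166 k247 12 (.s k164 k167 0 (.s k244 k84 11 (.d k7 k6 k86 0
  12))))))] (.c k14 (.l (.s k12 k8 1 (.s k166 k247 12 (.s k243 k89 14 (.s k167 k91 13 (.s k165 k164
  0 (.d k5 k10 k245 2 11))))))) .n))

def s2_255_114 : T TT 256 :=
  (.q k4 [(.s k5 k10 2 (.s k6 k7 0 (.s k12 k8 1 (.s k13 k14 0 (.d k9 k1 k3 1 2))))), (.s k12 k8 1
  (.s k14 k13 0 (.s k166 k247 12 (.s k90 k242 13 (.s k80 k95 2 (.d k240 k160 k165 11 14)))))), (.s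
  k5 k10 2 (.s k165 k245 11 (.s k166 k247 12 (.s k164 k167 0 (.s k244 k84 11 (.d k7 k6 k86 0
  12))))))] (.c k14 (.l (.s k12 k8 1 (.s k166 k247 12 (.s k243 k89 14 (.s k167 k91 13 (.s k165 k164
  0 (.d k5 k10 k245 2 11))))))) .n))

def s2_255_115 : T TT 256 :=
  (.q k4 [(.s k5 k10 2 (.s k6 k7 0 (.s k12 k8 1 (.s k13 k14 0 (.d k9 k1 k3 1 2))))), (.s k12 k8 1
  (.s k14 k13 0 (.s k166 k247 12 (.s k90 k242 13 (.s k80 k95 2 (.d k240 k160 k165 11 14)))))), (.s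
  k5 k10 2 (.s k165 k245 11 (.s k166 k247 12 (.s k164 k167 0 (.s k244 k84 11 (.d k7 k6 k86 0
  12))))))] (.c k14 (.l (.s k12 k8 1 (.s k166 k247 12 (.s k243 k89 14 (.s k167 k91 13 (.s k165 k164
  0 (.d k5 k10 k245 2 11))))))) .n))

def s2_255_116 : T TT 256 :=
  (.q k4 [(.s k5 k10 2 (.s k6 k7 0 (.s k12 k8 1 (.s k13 k14 0 (.d k9 k1 k3 1 2))))), (.s k12 k8 1
  (.s k14 k13 0 (.s k166 k247 12 (.s k90 k242 13 (.s k80 k95 2 (.d k240 k160 k165 11 14)))))), (.s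
  k5 k10 2 (.s k165 k245 11 (.s k166 k247 12 (.s k164 k167 0 (.s k244 k84 11 (.d k7 k6 k86 0
  12))))))] (.c k14 (.l (.s k12 k8 1 (.s k166 k247 12 (.s k243 k89 14 (.s k167 k91 13 (.s k165 k164
  0 (.d k5 k10 k245 2 11))))))) .n))

def s2_255_117 : T TT 256 :=
  (.q k48 [(.s k10 k5 2 (.s k16 k32 3 (.s k26 k37 6 (.s k21 k31 2 (.d k42 k58 k63 3 6))))), (.s k5
  k10 2 (.s k16 k32 3 (.s k154 k223 10 (.s k165 k245 11 (.s k143 k176 6 (.d k207 k79 k101 7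
  14)))))), (.s k16 k32 3 (.s k26 k37 6 (.s k154 k223 10 (.s k90 k218 7 (.s k80 k95 2 (.d k240 k160
  k165 11 14)))))), (.s k5 k10 2 (.s k37 k26 6 (.s k165 k245 11 (.s k101 k229 7 (.s k154 k207 14 (.s
  k176 k143 6 (.d k240 k112 k90 7 14)))))))] .n)

def s2_255_118 : T TT 256 :=
  (.q k4 [(.s k5 k10 2 (.s k6 k7 0 (.s k12 k8 1 (.s k13 k14 0 (.d k9 k1 k3 1 2))))), (.s k12 k8 1
  (.s k14 k13 0 (.s k166 k247 12 (.s k90 k242 13 (.s k80 k95 2 (.d k240 k160 k165 11 14)))))), (.s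
  k5 k10 2 (.s k165 k245 11 (.s k166 k247 12 (.s k164 k167 0 (.s k244 k84 11 (.d k7 k6 k86 0
  12))))))] (.c k14 (.l (.s k12 k8 1 (.s k166 k247 12 (.s k243 k89 14 (.s k167 k91 13 (.s k165 k164
  0 (.d k5 k10 k245 2 11))))))) .n))

def s2_255_119 : T TT 256 :=
  (.q k69 [(.s k10 k5 2 (.s k138 k207 10 (.s k74 k202 7 (.s k64 k79 2 (.d k192 k128 k133 7 10))))),
  (.s k5 k10 2 (.s k101 k117 3 (.s k165 k245 11 (.s k37 k229 7 (.s k53 k21 3 (.d k197 k133 k149 7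
  11)))))), (.s k101 k117 3 (.s k207 k138 10 (.s k79 k143 7 (.s k90 k112 6 (.s k80 k95 2 (.d k240
  k160 k165 11 14))))))] (.c k51 (.q k187 [(.s k10 k5 2 (.s k138 k207 10 (.s k74 k202 7 (.s k64 k79
  2 (.d k192 k128 k133 7 10))))), (.s k5 k10 2 (.s k101 k117 3 (.s k165 k245 11 (.s k37 k229 7 (.s
  k53 k21 3 (.d k197 k133 k149 7 11)))))), (.s k101 k117 3 (.s k207 k138 10 (.s k79 k143 7 (.s k90
  k112 6 (.s k80 k95 2 (.d k240 k160 k165 11 14))))))] (.c k133 (.l (.s k5 k10 2 (.s k101 k117 3 (.s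
  k165 k245 11 (.s k37 k229 7 (.s k48 k26 6 (.d k207 k138 k154 10 14))))))) .n)) (.c k133 (.l (.s k5
  k10 2 (.s k101 k117 3 (.s k165 k245 11 (.s k37 k229 7 (.s k48 k26 6 (.d k207 k138 k154 10
  14))))))) (.c k187 (.q k51 [(.s k10 k5 2 (.s k138 k207 10 (.s k74 k202 7 (.s k64 k79 2 (.d k192
  k128 k133 7 10))))), (.s k17 k34 4 (.s k27 k39 5 (.s k153 k221 9 (.s k90 k216 8 (.s k80 k95 2 (.d
  k240 k160 k165 11 14))))))] .n) .n))))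

def s2_255_120 : T TT 256 :=
  (.q k4 [(.s k5 k10 2 (.s k6 k7 0 (.s k12 k8 1 (.s k13 k14 0 (.d k9 k1 k3 1 2))))), (.s k12 k8 1
  (.s k14 k13 0 (.s k166 k247 12 (.s k90 k242 13 (.s k80 k95 2 (.d k240 k160 k165 11 14)))))), (.s
  k5 k10 2 (.s k165 k245 11 (.s k166 k247 12 (.s k164 k167 0 (.s k244 k84 11 (.d k7 k6 k86 0
  12))))))] (.c k14 (.l (.s k12 k8 1 (.s k166 k247 12 (.s k243 k89 14 (.s k167 k91 13 (.s k165 k164
  0 (.d k5 k10 k245 2 11))))))) .n))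

def s2_255_121 : T TT 256 :=
  (.q k4 [(.s k5 k10 2 (.s k6 k7 0 (.s k12 k8 1 (.s k13 k14 0 (.d k9 k1 k3 1 2))))), (.s k12 k8 1
  (.s k14 k13 0 (.s k166 k247 12 (.s k90 k242 13 (.s k80 k95 2 (.d k240 k160 k165 11 14)))))), (.s
  k5 k10 2 (.s k165 k245 11 (.s k166 k247 12 (.s k164 k167 0 (.s k244 k84 11 (.d k7 k6 k86 0
  12))))))] (.c k14 (.l (.s k12 k8 1 (.s k166 k247 12 (.s k243 k89 14 (.s k167 k91 13 (.s k165 k164
  0 (.d k5 k10 k245 2 11))))))) .n))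

def s2_255_122 : T TT 256 :=
  (.q k4 [(.s k5 k10 2 (.s k6 k7 0 (.s k12 k8 1 (.s k13 k14 0 (.d k9 k1 k3 1 2))))), (.s k12 k8 1
  (.s k14 k13 0 (.s k166 k247 12 (.s k90 k242 13 (.s k80 k95 2 (.d k240 k160 k165 11 14)))))), (.s
  k5 k10 2 (.s k165 k245 11 (.s k166 k247 12 (.s k164 k167 0 (.s k244 k84 11 (.d k7 k6 k86 0
  12))))))] (.c k14 (.l (.s k12 k8 1 (.s k166 k247 12 (.s k243 k89 14 (.s k167 k91 13 (.s k165 k164
  0 (.d k5 k10 k245 2 11))))))) .n))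

def s2_255_123 : T TT 256 :=
  (.q k4 [(.s k5 k10 2 (.s k6 k7 0 (.s k12 k8 1 (.s k13 k14 0 (.d k9 k1 k3 1 2))))), (.s k12 k8 1
  (.s k14 k13 0 (.s k166 k247 12 (.s k90 k242 13 (.s k80 k95 2 (.d k240 k160 k165 11 14)))))), (.s
  k5 k10 2 (.s k165 k245 11 (.s k166 k247 12 (.s k164 k167 0 (.s k244 k84 11 (.d k7 k6 k86 0
  12))))))] (.c k14 (.l (.s k12 k8 1 (.s k166 k247 12 (.s k243 k89 14 (.s k167 k91 13 (.s k165 k164
  0 (.d k5 k10 k245 2 11))))))) .n))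

def s2_255_124 : T TT 256 :=
  (.q k4 [(.s k5 k10 2 (.s k6 k7 0 (.s k12 k8 1 (.s k13 k14 0 (.d k9 k1 k3 1 2))))), (.s k12 k8 1
  (.s k14 k13 0 (.s k166 k247 12 (.s k90 k242 13 (.s k80 k95 2 (.d k240 k160 k165 11 14)))))), (.s
  k5 k10 2 (.s k165 k245 11 (.s k166 k247 12 (.s k164 k167 0 (.s k244 k84 11 (.d k7 k6 k86 0
  12))))))] (.c k14 (.l (.s k12 k8 1 (.s k166 k247 12 (.s k243 k89 14 (.s k167 k91 13 (.s k165 k164
  0 (.d k5 k10 k245 2 11))))))) .n))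

def s2_255_125 : T TT 256 :=
  (.q k69 [(.s k10 k5 2 (.s k138 k207 10 (.s k74 k202 7 (.s k64 k79 2 (.d k192 k128 k133 7 10))))),
  (.s k5 k10 2 (.s k101 k117 3 (.s k165 k245 11 (.s k37 k229 7 (.s k53 k21 3 (.d k197 k133 k149 7
  11)))))), (.s k101 k117 3 (.s k207 k138 10 (.s k79 k143 7 (.s k90 k112 6 (.s k80 k95 2 (.d k240
  k160 k165 11 14))))))] (.c k60 (.q k190 [(.s k10 k5 2 (.s k138 k207 10 (.s k74 k202 7 (.s k64 k79
  2 (.d k192 k128 k133 7 10))))), (.s k5 k10 2 (.s k101 k117 3 (.s k165 k245 11 (.s k37 k229 7 (.s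
  k53 k21 3 (.d k197 k133 k149 7 11)))))), (.s k101 k117 3 (.s k207 k138 10 (.s k79 k143 7 (.s k90
  k112 6 (.s k80 k95 2 (.d k240 k160 k165 11 14))))))] (.c k133 (.l (.s k5 k10 2 (.s k101 k117 3 (.s
  k165 k245 11 (.s k37 k229 7 (.s k48 k26 6 (.d k207 k138 k154 10 14))))))) .n)) (.c k133 (.l (.s k5
  k10 2 (.s k101 k117 3 (.s k165 k245 11 (.s k37 k229 7 (.s k48 k26 6 (.d k207 k138 k154 10
  14))))))) (.c k190 (.q k60 [(.s k10 k5 2 (.s k138 k207 10 (.s k74 k202 7 (.s k64 k79 2 (.d k192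
  k128 k133 7 10))))), (.s k20 k40 5 (.s k30 k45 4 (.s k150 k215 8 (.s k90 k210 9 (.s k80 k95 2 (.d
  k240 k160 k165 11 14))))))] .n) .n))))

def s2_255_126 : T TT 256 :=
  (.q k4 [(.s k5 k10 2 (.s k6 k7 0 (.s k12 k8 1 (.s k13 k14 0 (.d k9 k1 k3 1 2))))), (.s k12 k8 1
  (.s k14 k13 0 (.s k166 k247 12 (.s k90 k242 13 (.s k80 k95 2 (.d k240 k160 k165 11 14)))))), (.s
  k5 k10 2 (.s k165 k245 11 (.s k166 k247 12 (.s k164 k167 0 (.s k244 k84 11 (.d k7 k6 k86 0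
  12))))))] (.c k14 (.l (.s k12 k8 1 (.s k166 k247 12 (.s k243 k89 14 (.s k167 k91 13 (.s k165 k164
  0 (.d k5 k10 k245 2 11))))))) .n))

def s2_255_127 : T TT 256 :=
  (.q k63 [(.s k10 k5 2 (.s k47 k31 3 (.s k42 k21 6 (.s k37 k32 2 (.d k26 k58 k48 3 6))))), (.s k5
  k10 2 (.s k47 k31 3 (.s k165 k245 11 (.s k106 k224 10 (.s k149 k192 14 (.s k181 k133 3 (.d k240
  k122 k90 10 14))))))), (.s k21 k42 6 (.s k31 k47 3 (.s k149 k213 7 (.s k90 k208 10 (.s k80 k95 2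
  (.d k240 k160 k165 11 14)))))), (.s k5 k10 2 (.s k21 k42 6 (.s k149 k213 7 (.s k165 k245 11 (.s
  k133 k181 3 (.d k192 k74 k106 10 14))))))] .n)

def s2_255_128 : T TT 256 :=
  (.q k4 [(.s k5 k10 2 (.s k6 k7 0 (.s k12 k8 1 (.s k13 k14 0 (.d k9 k1 k3 1 2))))), (.s k12 k8 1
  (.s k14 k13 0 (.s k166 k247 12 (.s k90 k242 13 (.s k80 k95 2 (.d k240 k160 k165 11 14)))))), (.s
  k5 k10 2 (.s k165 k245 11 (.s k166 k247 12 (.s k164 k167 0 (.s k244 k84 11 (.d k7 k6 k86 0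
  12))))))] (.c k14 (.l (.s k12 k8 1 (.s k166 k247 12 (.s k243 k89 14 (.s k167 k91 13 (.s k165 k164
  0 (.d k5 k10 k245 2 11))))))) .n))

def s2_255_129 : T TT 256 :=
  (.q k4 [(.s k5 k10 2 (.s k6 k7 0 (.s k12 k8 1 (.s k13 k14 0 (.d k9 k1 k3 1 2))))), (.s k12 k8 1
  (.s k14 k13 0 (.s k166 k247 12 (.s k90 k242 13 (.s k80 k95 2 (.d k240 k160 k165 11 14)))))), (.s
  k5 k10 2 (.s k165 k245 11 (.s k166 k247 12 (.s k164 k167 0 (.s k244 k84 11 (.d k7 k6 k86 0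
  12))))))] (.c k14 (.l (.s k12 k8 1 (.s k166 k247 12 (.s k243 k89 14 (.s k167 k91 13 (.s k165 k164
  0 (.d k5 k10 k245 2 11))))))) .n))

def s2_255_130 : T TT 256 :=
  (.q k149 [(.s k10 k5 2 (.s k21 k213 7 (.s k42 k63 6 (.s k26 k58 3 (.s k16 k31 2 (.d k48 k32 k37 3
  6)))))), (.s k5 k10 2 (.s k165 k245 11 (.s k133 k181 3 (.s k192 k74 10 (.s k64 k128 7 (.d k106
  k127 k63 6 14)))))), (.s k21 k213 7 (.s k63 k42 6 (.s k31 k47 3 (.s k90 k208 10 (.s k80 k95 2 (.d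
  k240 k160 k165 11 14)))))), (.s k5 k10 2 (.s k165 k245 11 (.s k133 k181 3 (.s k197 k69 7 (.s k53
  k101 11 (.d k21 k37 k213 3 7))))))] (.c k66 (.q k194 [(.s k10 k5 2 (.s k21 k213 7 (.s k42 k63 6
  (.s k26 k58 3 (.s k16 k31 2 (.d k48 k32 k37 3 6)))))), (.s k5 k10 2 (.s k165 k245 11 (.s k133 k181
  3 (.s k192 k74 10 (.s k64 k128 7 (.d k106 k127 k63 6 14)))))), (.s k21 k213 7 (.s k63 k42 6 (.s
  k31 k47 3 (.s k90 k208 10 (.s k80 k95 2 (.d k240 k160 k165 11 14)))))), (.s k5 k10 2 (.s k165 k245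
  11 (.s k133 k181 3 (.s k197 k69 7 (.s k53 k101 11 (.d k21 k37 k213 3 7))))))] .n) (.c k194 (.q k66
  [(.s k10 k5 2 (.s k21 k213 7 (.s k42 k63 6 (.s k26 k58 3 (.s k16 k31 2 (.d k48 k32 k37 3 6)))))),
  (.s k5 k10 2 (.s k165 k245 11 (.s k133 k181 3 (.s k192 k74 10 (.s k64 k128 7 (.d k106 k127 k63 6
  14)))))), (.s k21 k213 7 (.s k63 k42 6 (.s k31 k47 3 (.s k90 k208 10 (.s k80 k95 2 (.d k240 k160
  k165 11 14)))))), (.s k5 k10 2 (.s k165 k245 11 (.s k133 k181 3 (.s k197 k69 7 (.s k53 k101 11 (.d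
  k21 k37 k213 3 7))))))] .n) .n)))

def s2_255_131 : T TT 256 :=
  (.q k4 [(.s k5 k10 2 (.s k6 k7 0 (.s k12 k8 1 (.s k13 k14 0 (.d k9 k1 k3 1 2))))), (.s k12 k8 1
  (.s k14 k13 0 (.s k166 k247 12 (.s k90 k242 13 (.s k80 k95 2 (.d k240 k160 k165 11 14)))))), (.s
  k5 k10 2 (.s k165 k245 11 (.s k166 k247 12 (.s k164 k167 0 (.s k244 k84 11 (.d k7 k6 k86 0
  12))))))] (.c k14 (.l (.s k12 k8 1 (.s k166 k247 12 (.s k243 k89 14 (.s k167 k91 13 (.s k165 k164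
  0 (.d k5 k10 k245 2 11))))))) .n))

def s2_255_132 : T TT 256 :=
  (.q k4 [(.s k5 k10 2 (.s k6 k7 0 (.s k12 k8 1 (.s k13 k14 0 (.d k9 k1 k3 1 2))))), (.s k12 k8 1
  (.s k14 k13 0 (.s k166 k247 12 (.s k90 k242 13 (.s k80 k95 2 (.d k240 k160 k165 11 14)))))), (.s
  k5 k10 2 (.s k165 k245 11 (.s k166 k247 12 (.s k164 k167 0 (.s k244 k84 11 (.d k7 k6 k86 0
  12))))))] (.c k14 (.l (.s k12 k8 1 (.s k166 k247 12 (.s k243 k89 14 (.s k167 k91 13 (.s k165 k164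
  0 (.d k5 k10 k245 2 11))))))) .n))

def s2_255_133 : T TT 256 :=
  (.q k4 [(.s k5 k10 2 (.s k6 k7 0 (.s k12 k8 1 (.s k13 k14 0 (.d k9 k1 k3 1 2))))), (.s k12 k8 1
  (.s k14 k13 0 (.s k166 k247 12 (.s k90 k242 13 (.s k80 k95 2 (.d k240 k160 k165 11 14)))))), (.s
  k5 k10 2 (.s k165 k245 11 (.s k166 k247 12 (.s k164 k167 0 (.s k244 k84 11 (.d k7 k6 k86 0
  12))))))] (.c k14 (.l (.s k12 k8 1 (.s k166 k247 12 (.s k243 k89 14 (.s k167 k91 13 (.s k165 k164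
  0 (.d k5 k10 k245 2 11))))))) .n))

def s2_255_134 : T TT 256 :=
  (.q k4 [(.s k5 k10 2 (.s k6 k7 0 (.s k12 k8 1 (.s k9 k3 2 (.d k13 k14 k1 0 1))))), (.s k12 k8 1
  (.s k14 k13 0 (.s k166 k247 12 (.s k90 k242 13 (.s k80 k95 2 (.d k240 k160 k165 11 14)))))), (.s
  k5 k10 2 (.s k165 k245 11 (.s k166 k247 12 (.s k164 k167 0 (.s k244 k84 11 (.d k7 k6 k86 0
  12))))))] (.c k14 (.l (.s k12 k8 1 (.s k166 k247 12 (.s k243 k89 14 (.s k167 k91 13 (.s k165 k164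
  0 (.d k5 k10 k245 2 11))))))) .n))

def s2_255_135 : T TT 256 :=
  (.q k4 [(.s k5 k10 2 (.s k6 k7 0 (.s k12 k8 1 (.s k13 k14 0 (.d k9 k1 k3 1 2))))), (.s k12 k8 1
  (.s k14 k13 0 (.s k166 k247 12 (.s k90 k242 13 (.s k80 k95 2 (.d k240 k160 k165 11 14)))))), (.s
  k5 k10 2 (.s k165 k245 11 (.s k166 k247 12 (.s k164 k167 0 (.s k244 k84 11 (.d k7 k6 k86 0
  12))))))] (.c k14 (.l (.s k12 k8 1 (.s k166 k247 12 (.s k243 k89 14 (.s k167 k91 13 (.s k165 k164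
  0 (.d k5 k10 k245 2 11))))))) .n))

def s2_255_136 : T TT 256 :=
  (.q k4 [(.s k5 k10 2 (.s k6 k7 0 (.s k12 k8 1 (.s k13 k14 0 (.d k9 k1 k3 1 2))))), (.s k5 k10 2
  (.s k165 k245 11 (.s k166 k247 12 (.s k164 k167 0 (.s k244 k84 11 (.d k7 k6 k86 0 12)))))), (.s
  k12 k8 1 (.s k14 k13 0 (.s k166 k247 12 (.s k90 k242 13 (.s k80 k95 2 (.d k240 k160 k165 11
  14))))))] (.c k14 (.l (.s k12 k8 1 (.s k166 k247 12 (.s k243 k89 14 (.s k167 k91 13 (.s k165 k164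
  0 (.d k5 k10 k245 2 11))))))) .n))

def s2_255_137 : T TT 256 :=
  (.q k4 [(.s k5 k10 2 (.s k6 k7 0 (.s k12 k8 1 (.s k13 k14 0 (.d k9 k1 k3 1 2))))), (.s k12 k8 1
  (.s k14 k13 0 (.s k166 k247 12 (.s k90 k242 13 (.s k80 k95 2 (.d k240 k160 k165 11 14)))))), (.s
  k5 k10 2 (.s k165 k245 11 (.s k166 k247 12 (.s k164 k167 0 (.s k244 k84 11 (.d k7 k6 k86 0
  12))))))] (.c k14 (.l (.s k12 k8 1 (.s k166 k247 12 (.s k243 k89 14 (.s k167 k91 13 (.s k165 k164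
  0 (.d k5 k10 k245 2 11))))))) .n))

def s2_255_138 : T TT 256 :=
  (.q k4 [(.s k5 k10 2 (.s k6 k7 0 (.s k12 k8 1 (.s k13 k14 0 (.d k9 k1 k3 1 2))))), (.s k12 k8 1
  (.s k14 k13 0 (.s k166 k247 12 (.s k90 k242 13 (.s k80 k95 2 (.d k240 k160 k165 11 14)))))), (.s
  k5 k10 2 (.s k165 k245 11 (.s k166 k247 12 (.s k164 k167 0 (.s k244 k84 11 (.d k7 k6 k86 0
  12))))))] (.c k14 (.l (.s k12 k8 1 (.s k166 k247 12 (.s k243 k89 14 (.s k167 k91 13 (.s k165 k164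
  0 (.d k5 k10 k245 2 11))))))) (.c k70 (.q k206 [(.s k5 k10 2 (.s k6 k7 0 (.s k12 k8 1 (.s k13 k14
  0 (.d k9 k1 k3 1 2))))), (.s k12 k8 1 (.s k14 k13 0 (.s k166 k247 12 (.s k90 k242 13 (.s k80 k95 2
  (.d k240 k160 k165 11 14)))))), (.s k5 k10 2 (.s k165 k245 11 (.s k166 k247 12 (.s k164 k167 0 (.s
  k244 k84 11 (.d k7 k6 k86 0 12))))))] (.c k14 (.l (.s k12 k8 1 (.s k166 k247 12 (.s k243 k89 14
  (.s k167 k91 13 (.s k165 k164 0 (.d k5 k10 k245 2 11))))))) .n)) (.c k206 (.q k70 [(.s k5 k10 2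
  (.s k6 k7 0 (.s k12 k8 1 (.s k9 k3 2 (.d k13 k14 k1 0 1))))), (.s k12 k8 1 (.s k14 k13 0 (.s k166
  k247 12 (.s k90 k242 13 (.s k80 k95 2 (.d k240 k160 k165 11 14)))))), (.s k5 k10 2 (.s k165 k245
  11 (.s k166 k247 12 (.s k164 k167 0 (.s k244 k84 11 (.d k7 k6 k86 0 12))))))] (.c k14 (.l (.s k12
  k8 1 (.s k166 k247 12 (.s k243 k89 14 (.s k167 k91 13 (.s k165 k164 0 (.d k5 k10 k245 2 11)))))))
  .n)) .n))))

def s2_255_139 : T TT 256 :=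
  (.q k4 [(.s k5 k10 2 (.s k6 k7 0 (.s k12 k8 1 (.s k13 k14 0 (.d k9 k1 k3 1 2))))), (.s k12 k8 1
  (.s k14 k13 0 (.s k166 k247 12 (.s k90 k242 13 (.s k80 k95 2 (.d k240 k160 k165 11 14)))))), (.s
  k5 k10 2 (.s k165 k245 11 (.s k166 k247 12 (.s k164 k167 0 (.s k244 k84 11 (.d k7 k6 k86 0
  12))))))] (.c k14 (.l (.s k12 k8 1 (.s k166 k247 12 (.s k243 k89 14 (.s k167 k91 13 (.s k165 k164
  0 (.d k5 k10 k245 2 11))))))) .n))

def s2_255_140 : T TT 256 :=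
  (.q k4 [(.s k5 k10 2 (.s k6 k7 0 (.s k12 k8 1 (.s k13 k14 0 (.d k9 k1 k3 1 2))))), (.s k12 k8 1
  (.s k14 k13 0 (.s k166 k247 12 (.s k90 k242 13 (.s k80 k95 2 (.d k240 k160 k165 11 14)))))), (.s
  k5 k10 2 (.s k165 k245 11 (.s k166 k247 12 (.s k164 k167 0 (.s k244 k84 11 (.d k7 k6 k86 0
  12))))))] (.c k14 (.l (.s k12 k8 1 (.s k166 k247 12 (.s k243 k89 14 (.s k167 k91 13 (.s k165 k164
  0 (.d k5 k10 k245 2 11))))))) .n))

def s2_255_141 : T TT 256 :=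
  (.q k4 [(.s k5 k10 2 (.s k6 k7 0 (.s k12 k8 1 (.s k13 k14 0 (.d k9 k1 k3 1 2))))), (.s k12 k8 1
  (.s k14 k13 0 (.s k166 k247 12 (.s k90 k242 13 (.s k80 k95 2 (.d k240 k160 k165 11 14)))))), (.s
  k5 k10 2 (.s k165 k245 11 (.s k166 k247 12 (.s k164 k167 0 (.s k244 k84 11 (.d k7 k6 k86 0
  12))))))] (.c k14 (.l (.s k12 k8 1 (.s k166 k247 12 (.s k243 k89 14 (.s k167 k91 13 (.s k165 k164
  0 (.d k5 k10 k245 2 11))))))) .n))

def s2_255_142 : T TT 256 :=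
  (.q k4 [(.s k5 k10 2 (.s k6 k7 0 (.s k12 k8 1 (.s k9 k3 2 (.d k13 k14 k1 0 1))))), (.s k12 k8 1
  (.s k14 k13 0 (.s k166 k247 12 (.s k90 k242 13 (.s k80 k95 2 (.d k240 k160 k165 11 14)))))), (.s
  k5 k10 2 (.s k165 k245 11 (.s k166 k247 12 (.s k164 k167 0 (.s k244 k84 11 (.d k7 k6 k86 0
  12))))))] (.c k14 (.l (.s k12 k8 1 (.s k166 k247 12 (.s k243 k89 14 (.s k167 k91 13 (.s k165 k164
  0 (.d k5 k10 k245 2 11))))))) .n))

def s2_255_143 : T TT 256 :=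
  (.q k4 [(.s k5 k10 2 (.s k6 k7 0 (.s k12 k8 1 (.s k13 k14 0 (.d k9 k1 k3 1 2))))), (.s k12 k8 1
  (.s k14 k13 0 (.s k166 k247 12 (.s k90 k242 13 (.s k80 k95 2 (.d k240 k160 k165 11 14)))))), (.s
  k5 k10 2 (.s k165 k245 11 (.s k166 k247 12 (.s k164 k167 0 (.s k244 k84 11 (.d k7 k6 k86 0
  12))))))] (.c k14 (.l (.s k12 k8 1 (.s k166 k247 12 (.s k243 k89 14 (.s k167 k91 13 (.s k165 k164
  0 (.d k5 k10 k245 2 11))))))) .n))

def s2_255_144 : T TT 256 :=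
  (.q k4 [(.s k5 k10 2 (.s k6 k7 0 (.s k12 k8 1 (.s k13 k14 0 (.d k9 k1 k3 1 2))))), (.s k12 k8 1
  (.s k14 k13 0 (.s k166 k247 12 (.s k90 k242 13 (.s k80 k95 2 (.d k240 k160 k165 11 14)))))), (.s
  k5 k10 2 (.s k165 k245 11 (.s k166 k247 12 (.s k164 k167 0 (.s k244 k84 11 (.d k7 k6 k86 0
  12))))))] (.c k14 (.l (.s k12 k8 1 (.s k166 k247 12 (.s k243 k89 14 (.s k167 k91 13 (.s k165 k164
  0 (.d k5 k10 k245 2 11))))))) .n))

def s2_255_145 : T TT 256 :=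
  (.q k4 [(.s k5 k10 2 (.s k6 k7 0 (.s k12 k8 1 (.s k13 k14 0 (.d k9 k1 k3 1 2))))), (.s k12 k8 1
  (.s k14 k13 0 (.s k166 k247 12 (.s k90 k242 13 (.s k80 k95 2 (.d k240 k160 k165 11 14)))))), (.s
  k5 k10 2 (.s k165 k245 11 (.s k166 k247 12 (.s k164 k167 0 (.s k244 k84 11 (.d k7 k6 k86 0
  12))))))] (.c k14 (.l (.s k12 k8 1 (.s k166 k247 12 (.s k243 k89 14 (.s k167 k91 13 (.s k165 k164
  0 (.d k5 k10 k245 2 11))))))) .n))

def s2_255_146 : T TT 256 :=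
  (.q k4 [(.s k5 k10 2 (.s k6 k7 0 (.s k12 k8 1 (.s k13 k14 0 (.d k9 k1 k3 1 2))))), (.s k12 k8 1
  (.s k14 k13 0 (.s k166 k247 12 (.s k90 k242 13 (.s k80 k95 2 (.d k240 k160 k165 11 14)))))), (.s
  k5 k10 2 (.s k165 k245 11 (.s k166 k247 12 (.s k164 k167 0 (.s k244 k84 11 (.d k7 k6 k86 0
  12))))))] (.c k14 (.l (.s k12 k8 1 (.s k166 k247 12 (.s k243 k89 14 (.s k167 k91 13 (.s k165 k164
  0 (.d k5 k10 k245 2 11))))))) .n))

def s2_255_147 : T TT 256 :=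
  (.q k4 [(.s k5 k10 2 (.s k6 k7 0 (.s k12 k8 1 (.s k13 k14 0 (.d k9 k1 k3 1 2))))), (.s k12 k8 1
  (.s k14 k13 0 (.s k166 k247 12 (.s k90 k242 13 (.s k80 k95 2 (.d k240 k160 k165 11 14)))))), (.s
  k5 k10 2 (.s k165 k245 11 (.s k166 k247 12 (.s k164 k167 0 (.s k244 k84 11 (.d k7 k6 k86 0
  12))))))] (.c k14 (.l (.s k12 k8 1 (.s k166 k247 12 (.s k243 k89 14 (.s k167 k91 13 (.s k165 k164
  0 (.d k5 k10 k245 2 11))))))) .n))

def s2_255_148 : T TT 256 :=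
  (.q k4 [(.s k5 k10 2 (.s k6 k7 0 (.s k12 k8 1 (.s k13 k14 0 (.d k9 k1 k3 1 2))))), (.s k12 k8 1
  (.s k14 k13 0 (.s k166 k247 12 (.s k90 k242 13 (.s k80 k95 2 (.d k240 k160 k165 11 14)))))), (.s
  k5 k10 2 (.s k165 k245 11 (.s k166 k247 12 (.s k164 k167 0 (.s k244 k84 11 (.d k7 k6 k86 0
  12))))))] (.c k14 (.l (.s k12 k8 1 (.s k166 k247 12 (.s k243 k89 14 (.s k167 k91 13 (.s k165 k164
  0 (.d k5 k10 k245 2 11))))))) .n))

def s2_255_149 : T TT 256 :=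
  (.q k4 [(.s k5 k10 2 (.s k6 k7 0 (.s k12 k8 1 (.s k13 k14 0 (.d k9 k1 k3 1 2))))), (.s k12 k8 1
  (.s k14 k13 0 (.s k166 k247 12 (.s k90 k242 13 (.s k80 k95 2 (.d k240 k160 k165 11 14)))))), (.s
  k5 k10 2 (.s k165 k245 11 (.s k166 k247 12 (.s k164 k167 0 (.s k244 k84 11 (.d k7 k6 k86 0
  12))))))] (.c k14 (.l (.s k12 k8 1 (.s k166 k247 12 (.s k243 k89 14 (.s k167 k91 13 (.s k165 k164
  0 (.d k5 k10 k245 2 11))))))) .n))

def s2_255_150 : T TT 256 :=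
  (.q k4 [(.s k5 k10 2 (.s k6 k7 0 (.s k12 k8 1 (.s k13 k14 0 (.d k9 k1 k3 1 2))))), (.s k12 k8 1
  (.s k14 k13 0 (.s k166 k247 12 (.s k90 k242 13 (.s k80 k95 2 (.d k240 k160 k165 11 14)))))), (.s
  k5 k10 2 (.s k165 k245 11 (.s k166 k247 12 (.s k164 k167 0 (.s k244 k84 11 (.d k7 k6 k86 0
  12))))))] (.c k14 (.l (.s k12 k8 1 (.s k166 k247 12 (.s k243 k89 14 (.s k167 k91 13 (.s k165 k164
  0 (.d k5 k10 k245 2 11))))))) .n))

def s2_255_151 : T TT 256 :=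
  (.q k4 [(.s k5 k10 2 (.s k6 k7 0 (.s k12 k8 1 (.s k13 k14 0 (.d k9 k1 k3 1 2))))), (.s k12 k8 1
  (.s k14 k13 0 (.s k166 k247 12 (.s k90 k242 13 (.s k80 k95 2 (.d k240 k160 k165 11 14)))))), (.s
  k5 k10 2 (.s k165 k245 11 (.s k166 k247 12 (.s k164 k167 0 (.s k244 k84 11 (.d k7 k6 k86 0
  12))))))] (.c k14 (.l (.s k12 k8 1 (.s k166 k247 12 (.s k243 k89 14 (.s k167 k91 13 (.s k165 k164
  0 (.d k5 k10 k245 2 11))))))) .n))

def s2_255_152 : T TT 256 :=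
  (.q k4 [(.s k5 k10 2 (.s k6 k7 0 (.s k12 k8 1 (.s k13 k14 0 (.d k9 k1 k3 1 2))))), (.s k12 k8 1
  (.s k14 k13 0 (.s k166 k247 12 (.s k90 k242 13 (.s k80 k95 2 (.d k240 k160 k165 11 14)))))), (.s
  k5 k10 2 (.s k165 k245 11 (.s k166 k247 12 (.s k164 k167 0 (.s k244 k84 11 (.d k7 k6 k86 0
  12))))))] (.c k14 (.l (.s k12 k8 1 (.s k166 k247 12 (.s k243 k89 14 (.s k167 k91 13 (.s k165 k164
  0 (.d k5 k10 k245 2 11))))))) .n))

def s2_255_153 : T TT 256 :=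
  (.q k4 [(.s k5 k10 2 (.s k6 k7 0 (.s k12 k8 1 (.s k13 k14 0 (.d k9 k1 k3 1 2))))), (.s k12 k8 1
  (.s k14 k13 0 (.s k166 k247 12 (.s k90 k242 13 (.s k80 k95 2 (.d k240 k160 k165 11 14)))))), (.s
  k5 k10 2 (.s k165 k245 11 (.s k166 k247 12 (.s k164 k167 0 (.s k244 k84 11 (.d k7 k6 k86 0
  12))))))] (.c k14 (.l (.s k12 k8 1 (.s k166 k247 12 (.s k243 k89 14 (.s k167 k91 13 (.s k165 k164
  0 (.d k5 k10 k245 2 11))))))) .n))

def s2_255_154 : T TT 256 :=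
  (.q k4 [(.s k5 k10 2 (.s k6 k7 0 (.s k12 k8 1 (.s k13 k14 0 (.d k9 k1 k3 1 2))))), (.s k12 k8 1
  (.s k14 k13 0 (.s k166 k247 12 (.s k90 k242 13 (.s k80 k95 2 (.d k240 k160 k165 11 14)))))), (.s
  k5 k10 2 (.s k165 k245 11 (.s k166 k247 12 (.s k164 k167 0 (.s k244 k84 11 (.d k7 k6 k86 0
  12))))))] (.c k14 (.l (.s k12 k8 1 (.s k166 k247 12 (.s k243 k89 14 (.s k167 k91 13 (.s k165 k164
  0 (.d k5 k10 k245 2 11))))))) .n))

def s2_255_155 : T TT 256 :=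
  (.q k4 [(.s k5 k10 2 (.s k6 k7 0 (.s k12 k8 1 (.s k13 k14 0 (.d k9 k1 k3 1 2))))), (.s k12 k8 1
  (.s k14 k13 0 (.s k166 k247 12 (.s k90 k242 13 (.s k80 k95 2 (.d k240 k160 k165 11 14)))))), (.s
  k5 k10 2 (.s k165 k245 11 (.s k166 k247 12 (.s k164 k167 0 (.s k244 k84 11 (.d k7 k6 k86 0
  12))))))] (.c k14 (.l (.s k12 k8 1 (.s k166 k247 12 (.s k243 k89 14 (.s k167 k91 13 (.s k165 k164
  0 (.d k5 k10 k245 2 11))))))) .n))

def s2_255_156 : T TT 256 :=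
  (.q k4 [(.s k5 k10 2 (.s k6 k7 0 (.s k12 k8 1 (.s k13 k14 0 (.d k9 k1 k3 1 2))))), (.s k12 k8 1
  (.s k14 k13 0 (.s k166 k247 12 (.s k90 k242 13 (.s k80 k95 2 (.d k240 k160 k165 11 14)))))), (.s
  k5 k10 2 (.s k165 k245 11 (.s k166 k247 12 (.s k164 k167 0 (.s k244 k84 11 (.d k7 k6 k86 0
  12))))))] (.c k14 (.l (.s k12 k8 1 (.s k166 k247 12 (.s k243 k89 14 (.s k167 k91 13 (.s k165 k164
  0 (.d k5 k10 k245 2 11))))))) .n))

def s2_255_157 : T TT 256 :=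
  (.q k4 [(.s k5 k10 2 (.s k6 k7 0 (.s k12 k8 1 (.s k13 k14 0 (.d k9 k1 k3 1 2))))), (.s k12 k8 1
  (.s k14 k13 0 (.s k166 k247 12 (.s k90 k242 13 (.s k80 k95 2 (.d k240 k160 k165 11 14)))))), (.s
  k5 k10 2 (.s k165 k245 11 (.s k166 k247 12 (.s k164 k167 0 (.s k244 k84 11 (.d k7 k6 k86 0
  12))))))] (.c k14 (.l (.s k12 k8 1 (.s k166 k247 12 (.s k243 k89 14 (.s k167 k91 13 (.s k165 k164
  0 (.d k5 k10 k245 2 11))))))) .n))

def s2_255_158 : T TT 256 :=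
  (.q k4 [(.s k5 k10 2 (.s k6 k7 0 (.s k12 k8 1 (.s k13 k14 0 (.d k9 k1 k3 1 2))))), (.s k12 k8 1
  (.s k14 k13 0 (.s k166 k247 12 (.s k90 k242 13 (.s k80 k95 2 (.d k240 k160 k165 11 14)))))), (.s
  k5 k10 2 (.s k165 k245 11 (.s k166 k247 12 (.s k164 k167 0 (.s k244 k84 11 (.d k7 k6 k86 0
  12))))))] (.c k14 (.l (.s k12 k8 1 (.s k166 k247 12 (.s k243 k89 14 (.s k167 k91 13 (.s k165 k164
  0 (.d k5 k10 k245 2 11))))))) .n))

def s2_255_159 : T TT 256 :=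
  (.q k4 [(.s k5 k10 2 (.s k6 k7 0 (.s k12 k8 1 (.s k13 k14 0 (.d k9 k1 k3 1 2))))), (.s k12 k8 1
  (.s k14 k13 0 (.s k166 k247 12 (.s k90 k242 13 (.s k80 k95 2 (.d k240 k160 k165 11 14)))))), (.s
  k5 k10 2 (.s k165 k245 11 (.s k166 k247 12 (.s k164 k167 0 (.s k244 k84 11 (.d k7 k6 k86 0
  12))))))] (.c k14 (.l (.s k12 k8 1 (.s k166 k247 12 (.s k243 k89 14 (.s k167 k91 13 (.s k165 k164
  0 (.d k5 k10 k245 2 11))))))) .n))

def s2_255_160 : T TT 256 :=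
  (.q k4 [(.s k5 k10 2 (.s k6 k7 0 (.s k12 k8 1 (.s k13 k14 0 (.d k9 k1 k3 1 2))))), (.s k12 k8 1
  (.s k14 k13 0 (.s k166 k247 12 (.s k90 k242 13 (.s k165 k240 14 (.s k167 k164 0 (.d k243 k91 k89
  13 14))))))), (.s k5 k10 2 (.s k165 k245 11 (.s k166 k247 12 (.s k164 k167 0 (.s k244 k84 11 (.d
  k7 k6 k86 0 12))))))] (.c k14 (.l (.s k12 k8 1 (.s k166 k247 12 (.s k243 k89 14 (.s k167 k91 13
  (.s k165 k164 0 (.d k5 k10 k245 2 11))))))) .n))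

def s2_255_161 : T TT 256 :=
  (.q k4 [(.s k5 k10 2 (.s k6 k7 0 (.s k12 k8 1 (.s k13 k14 0 (.d k9 k1 k3 1 2))))), (.s k12 k8 1
  (.s k14 k13 0 (.s k166 k247 12 (.s k90 k242 13 (.s k80 k95 2 (.d k240 k160 k165 11 14)))))), (.s
  k5 k10 2 (.s k165 k245 11 (.s k166 k247 12 (.s k164 k167 0 (.s k244 k84 11 (.d k7 k6 k86 0
  12))))))] (.c k14 (.l (.s k12 k8 1 (.s k166 k247 12 (.s k243 k89 14 (.s k167 k91 13 (.s k165 k164
  0 (.d k5 k10 k245 2 11))))))) .n))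

def s2_255_162 : T TT 256 :=
  (.q k4 [(.s k5 k10 2 (.s k6 k7 0 (.s k12 k8 1 (.s k13 k14 0 (.d k9 k1 k3 1 2))))), (.s k12 k8 1
  (.s k14 k13 0 (.s k166 k247 12 (.s k243 k89 14 (.s k167 k91 13 (.s k165 k164 0 (.d k90 k242 k240
  13 14))))))), (.s k5 k10 2 (.s k165 k245 11 (.s k166 k247 12 (.s k164 k167 0 (.s k244 k84 11 (.d
  k7 k6 k86 0 12))))))] (.c k14 (.l (.s k12 k8 1 (.s k166 k247 12 (.s k243 k89 14 (.s k167 k91 13
  (.s k165 k164 0 (.d k5 k10 k245 2 11))))))) (.c k82 (.q k242 [(.s k12 k8 1 (.s k14 k13 0 (.d k166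
  k247 k90 12 13))), (.s k5 k10 2 (.s k165 k245 11 (.s k166 k247 12 (.d k90 k14 k240 13 14)))), (.s
  k5 k10 2 (.s k6 k7 0 (.s k12 k8 1 (.s k9 k3 2 (.d k13 k14 k1 0 1)))))] (.c k14 (.l (.s k12 k8 1
  (.s k166 k247 12 (.s k243 k89 14 (.s k167 k91 13 (.s k164 k165 0 (.d k240 k241 k88 0 13)))))))
  .n)) (.c k242 (.q k82 [(.s k5 k10 2 (.s k6 k7 0 (.s k12 k8 1 (.s k9 k3 2 (.d k13 k14 k1 0 1))))),
  (.s k12 k8 1 (.s k166 k247 12 (.s k243 k89 14 (.s k167 k91 13 (.s k165 k164 0 (.d k5 k10 k245 2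
  11)))))), (.s k5 k10 2 (.s k165 k245 11 (.s k240 k90 14 (.s k3 k161 12 (.d k7 k6 k11 0 1)))))] (.c
  k5 (.q k3 [(.s k240 k161 12 (.s k90 k165 14 (.d k80 k160 k95 11 2))), (.s k12 k8 1 (.s k6 k9 2 (.s
  k166 k247 12 (.s k86 k246 11 (.s k84 k87 0 (.d k252 k168 k169 13 14))))))] (.c k169 (.l (.s k12 k8
  1 (.s k166 k247 12 (.s k240 k161 12 (.s k164 k88 13 (.d k165 k167 k90 0 14)))))) .n)) (.c k10 (.q
  k6 [(.s k7 k5 0 (.s k3 k11 1 (.d k12 k8 k9 1 2))), (.s k166 k247 12 (.s k86 k246 11 (.s k90 k94 1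
  (.s k80 k95 2 (.d k240 k160 k165 11 14)))))] .n) .n))) .n))))

def s2_255_163 : T TT 256 :=
  (.q k4 [(.s k5 k10 2 (.s k6 k7 0 (.s k12 k8 1 (.s k13 k14 0 (.d k9 k1 k3 1 2))))), (.s k12 k8 1
  (.s k14 k13 0 (.s k166 k247 12 (.s k90 k242 13 (.s k80 k95 2 (.d k240 k160 k165 11 14)))))), (.s
  k5 k10 2 (.s k165 k245 11 (.s k166 k247 12 (.s k164 k167 0 (.s k244 k84 11 (.d k7 k6 k86 0
  12))))))] (.c k14 (.l (.s k12 k8 1 (.s k166 k247 12 (.s k243 k89 14 (.s k167 k91 13 (.s k165 k164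
  0 (.d k5 k10 k245 2 11))))))) .n))

def s2_255_164 : T TT 256 :=
  (.q k21 [(.s k10 k5 2 (.s k42 k63 6 (.s k26 k58 3 (.s k16 k31 2 (.d k48 k32 k37 3 6))))), (.s k5
  k10 2 (.s k53 k37 3 (.s k149 k213 7 (.s k101 k197 11 (.s k117 k69 3 (.d k245 k181 k165 7 11)))))),
  (.s k63 k42 6 (.s k31 k47 3 (.s k149 k213 7 (.s k90 k208 10 (.s k80 k95 2 (.d k240 k160 k165 11
  14))))))] (.c k37 (.l (.s k5 k10 2 (.s k63 k42 6 (.s k47 k31 3 (.s k149 k213 7 (.s k165 k245 11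
  (.d k106 k192 k224 14 10))))))) .n))

def s2_255_165 : T TT 256 :=
  (.f k10 k5 2 (.q k21 [(.s k42 k63 6 (.s k26 k58 3 (.s k16 k31 2 (.d k48 k32 k37 3 6)))), (.s k63
  k42 6 (.s k149 k213 7 (.s k192 k106 14 (.s k64 k128 7 (.s k74 k133 10 (.s k69 k79 2 (.d k138 k202
  k207 7 10)))))))] (.c k42 (.q k20 [(.s k149 k213 7 (.s k150 k215 8 (.s k148 k151 0 (.s k212 k84 7
  (.d k23 k22 k86 0 8))))), (.s k22 k23 0 (.s k60 k40 5 (.s k30 k45 4 (.s k26 k18 1 (.s k16 k31 2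
  (.d k48 k32 k37 3 6))))))] (.c k22 (.q k62 [(.s k60 k40 5 (.s k63 k61 0 (.s k150 k215 8 (.s k106
  k194 13 (.d k149 k213 k192 7 14))))), (.s k60 k40 5 (.s k30 k45 4 (.s k46 k14 3 (.s k63 k61 0 (.s
  k29 k12 4 (.d k31 k28 k47 0 3)))))), (.s k149 k213 7 (.s k150 k215 8 (.s k106 k194 13 (.s k64 k127
  6 (.d k192 k63 k128 14 7)))))] (.c k63 (.l (.s k60 k40 5 (.s k30 k45 4 (.s k150 k215 8 (.s k90
  k210 9 (.s k170 k250 11 (.s k130 k190 5 (.d k195 k105 k65 14 8)))))))) .n)) (.c k23 (.l (.s k60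
  k40 5 (.s k30 k45 4 (.s k150 k215 8 (.s k90 k210 9 (.s k170 k250 11 (.s k130 k190 5 (.d k195 k105
  k65 14 8)))))))) (.c k62 (.l (.s k22 k23 0 (.s k60 k40 5 (.s k30 k45 4 (.s k26 k18 1 (.s k16 k31 2
  (.d k48 k32 k37 3 6))))))) .n)))) (.c k63 (.q k4 [(.s k55 k38 4 (.s k149 k213 7 (.s k102 k196 12
  (.s k119 k68 4 (.d k247 k183 k166 7 12))))), (.s k12 k8 1 (.s k14 k13 0 (.s k166 k247 12 (.s k90
  k242 13 (.s k170 k250 11 (.s k162 k174 1 (.d k243 k89 k81 14 12))))))), (.s k12 k8 1 (.s k14 k13 0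
  (.s k38 k55 4 (.s k26 k50 5 (.s k16 k31 2 (.d k48 k32 k37 3 6))))))] (.c k127 (.q k191 [(.s k55
  k38 4 (.s k149 k213 7 (.s k102 k196 12 (.s k119 k68 4 (.d k247 k183 k166 7 12))))), (.s k12 k8 1
  (.s k14 k13 0 (.s k38 k55 4 (.s k26 k50 5 (.s k16 k31 2 (.d k48 k32 k37 3 6)))))), (.s k12 k8 1
  (.s k14 k13 0 (.s k149 k213 7 (.s k166 k247 12 (.s k90 k242 13 (.d k170 k128 k250 6 11))))))] .n)
  (.c k191 (.q k127 [(.s k55 k38 4 (.s k149 k213 7 (.s k102 k196 12 (.s k119 k68 4 (.d k247 k183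
  k166 7 12))))), (.s k64 k106 6 (.s k192 k128 7 (.s k74 k133 10 (.s k69 k79 2 (.d k138 k202 k207 7
  10))))), (.s k12 k8 1 (.s k14 k13 0 (.s k38 k55 4 (.s k26 k50 5 (.s k16 k31 2 (.d k48 k32 k37 3
  6))))))] .n) .n))) .n))))

def s2_255_166 : T TT 256 :=
  (.q k21 [(.s k10 k5 2 (.s k42 k63 6 (.s k26 k58 3 (.s k16 k31 2 (.d k48 k32 k37 3 6))))), (.s k5
  k10 2 (.s k53 k37 3 (.s k149 k213 7 (.s k101 k197 11 (.s k117 k69 3 (.d k245 k181 k165 7 11)))))),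
  (.s k63 k42 6 (.s k31 k47 3 (.s k149 k213 7 (.s k90 k208 10 (.s k80 k95 2 (.d k240 k160 k165 11
  14))))))] (.c k37 (.l (.s k5 k10 2 (.s k63 k42 6 (.s k47 k31 3 (.s k149 k213 7 (.s k165 k245 11
  (.d k106 k192 k224 14 10))))))) .n))

def s2_255_167 : T TT 256 :=
  (.q k21 [(.s k10 k5 2 (.s k42 k63 6 (.s k26 k58 3 (.s k16 k31 2 (.d k48 k32 k37 3 6))))), (.s k5
  k10 2 (.s k53 k37 3 (.s k149 k213 7 (.s k101 k197 11 (.s k117 k69 3 (.d k245 k181 k165 7 11)))))),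
  (.s k63 k42 6 (.s k31 k47 3 (.s k149 k213 7 (.s k90 k208 10 (.s k80 k95 2 (.d k240 k160 k165 11
  14))))))] (.c k37 (.l (.s k5 k10 2 (.s k63 k42 6 (.s k47 k31 3 (.s k149 k213 7 (.s k165 k245 11
  (.d k106 k192 k224 14 10))))))) .n))

def s2_255_168 : T TT 256 :=
  (.q k4 [(.s k5 k10 2 (.s k6 k7 0 (.s k12 k8 1 (.s k13 k14 0 (.d k9 k1 k3 1 2))))), (.s k5 k10 2
  (.s k165 k245 11 (.s k166 k247 12 (.s k164 k167 0 (.s k244 k84 11 (.d k7 k6 k86 0 12)))))), (.s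
  k12 k8 1 (.s k14 k13 0 (.s k166 k247 12 (.s k90 k242 13 (.s k80 k95 2 (.d k240 k160 k165 11
  14))))))] (.c k14 (.l (.s k12 k8 1 (.s k166 k247 12 (.s k243 k89 14 (.s k167 k91 13 (.s k165 k164
  0 (.d k5 k10 k245 2 11))))))) .n))

def s2_255_169 : T TT 256 :=
  (.q k4 [(.s k5 k10 2 (.s k6 k7 0 (.s k12 k8 1 (.s k13 k14 0 (.d k9 k1 k3 1 2))))), (.s k12 k8 1
  (.s k14 k13 0 (.s k166 k247 12 (.s k90 k242 13 (.s k80 k95 2 (.d k240 k160 k165 11 14)))))), (.s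
  k5 k10 2 (.s k165 k245 11 (.s k166 k247 12 (.s k164 k167 0 (.s k244 k84 11 (.d k7 k6 k86 0
  12))))))] (.c k14 (.l (.s k12 k8 1 (.s k166 k247 12 (.s k243 k89 14 (.s k167 k91 13 (.s k165 k164
  0 (.d k5 k10 k245 2 11))))))) .n))

def s2_255_170 : T TT 256 :=
  (.q k207 [(.s k10 k5 2 (.s k138 k69 10 (.s k74 k202 7 (.s k133 k192 10 (.d k143 k128 k79 2 7))))),
  (.s k5 k10 2 (.s k143 k79 7 (.s k165 k245 11 (.s k154 k176 6 (.s k16 k223 10 (.d k48 k32 k101 3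
  14)))))), (.s k69 k138 10 (.s k79 k143 7 (.s k101 k117 3 (.s k90 k112 6 (.s k80 k95 2 (.d k240
  k160 k165 11 14)))))), (.s k5 k10 2 (.s k69 k138 10 (.s k101 k117 3 (.s k165 k245 11 (.s k37 k229
  7 (.d k48 k154 k26 14 6))))))] (.c k86 (.q k254 [(.s k10 k5 2 (.s k138 k69 10 (.s k74 k202 7 (.s
  k133 k192 10 (.d k143 k128 k79 2 7))))), (.s k5 k10 2 (.s k143 k79 7 (.s k165 k245 11 (.s k154
  k176 6 (.s k16 k223 10 (.d k48 k32 k101 3 14)))))), (.s k69 k138 10 (.s k79 k143 7 (.s k101 k117 3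
  (.s k90 k112 6 (.s k80 k95 2 (.d k240 k160 k165 11 14)))))), (.s k5 k10 2 (.s k69 k138 10 (.s k101
  k117 3 (.s k165 k245 11 (.s k37 k229 7 (.d k48 k154 k26 14 6))))))] .n) (.c k254 (.q k86 [(.s k10
  k5 2 (.s k138 k69 10 (.s k74 k202 7 (.s k133 k192 10 (.d k143 k128 k79 2 7))))), (.s k5 k10 2 (.s
  k84 k87 0 (.s k165 k245 11 (.s k7 k244 12 (.s k3 k11 1 (.d k252 k168 k169 13 14)))))), (.s k69
  k138 10 (.s k79 k143 7 (.s k101 k117 3 (.s k90 k112 6 (.s k80 k95 2 (.d k240 k160 k165 11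
  14))))))] (.c k252 (.q k253 [(.s k10 k5 2 (.s k143 k79 7 (.s k138 k69 10 (.s k133 k128 2 (.d k74
  k202 k192 7 10))))), (.s k1 k169 13 (.s k69 k138 10 (.s k101 k117 3 (.s k205 k137 9 (.s k153 k49
  13 (.d k221 k237 k17 3 9)))))), (.s k1 k169 13 (.s k5 k10 2 (.s k13 k9 1 (.s k93 k173 11 (.s k89
  k81 1 (.d k165 k245 k241 11 13))))))] .n) (.c k253 (.q k252 [(.d k84 k87 k168 0 13), (.s k5 k10 2
  (.s k94 k173 12 (.s k90 k82 1 (.d k165 k245 k240 11 14))))] .n) .n))) .n)))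

def s2_255_171 : T TT 256 :=
  (.q k192 [(.s k10 k5 2 (.s k64 k128 7 (.s k74 k133 10 (.s k69 k79 2 (.d k138 k202 k207 7 10))))),
  (.s k5 k10 2 (.s k64 k128 7 (.s k106 k127 6 (.s k63 k149 14 (.s k47 k31 3 (.d k165 k224 k245 10
  11)))))), (.s k64 k128 7 (.s k74 k133 10 (.s k106 k127 6 (.s k90 k122 3 (.s k80 k95 2 (.d k240
  k160 k165 11 14)))))), (.s k5 k10 2 (.s k133 k74 10 (.s k165 k245 11 (.s k149 k181 3 (.s k21 k213
  7 (.d k63 k42 k106 6 14))))))] (.c k3 (.q k87 [(.s k10 k5 2 (.s k64 k128 7 (.s k74 k133 10 (.s k69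
  k79 2 (.d k138 k202 k207 7 10))))), (.s k5 k10 2 (.s k86 k84 0 (.s k165 k245 11 (.s k7 k244 12 (.s
  k247 k167 11 (.d k4 k6 k166 0 12)))))), (.s k64 k128 7 (.s k74 k133 10 (.s k106 k127 6 (.s k90
  k122 3 (.s k80 k95 2 (.d k240 k160 k165 11 14))))))] .n) (.c k87 (.q k3 [(.s k5 k10 2 (.s k128 k64
  7 (.s k133 k74 10 (.s k69 k197 7 (.d k138 k143 k207 2 10))))), (.s k7 k11 1 (.s k129 k66 8 (.s
  k133 k74 10 (.s k70 k196 8 (.d k137 k141 k204 1 10))))), (.s k5 k10 2 (.s k64 k128 7 (.s k106 k127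
  6 (.s k63 k149 14 (.s k47 k31 3 (.d k165 k224 k245 10 11))))))] .n) .n)))

def s2_255_172 : T TT 256 :=
  (.q k4 [(.s k5 k10 2 (.s k6 k7 0 (.s k12 k8 1 (.s k13 k14 0 (.d k9 k1 k3 1 2))))), (.s k12 k8 1
  (.s k14 k13 0 (.s k166 k247 12 (.s k90 k242 13 (.s k80 k95 2 (.d k240 k160 k165 11 14)))))), (.s
  k5 k10 2 (.s k165 k245 11 (.s k166 k247 12 (.s k164 k167 0 (.s k244 k84 11 (.d k7 k6 k86 0
  12))))))] (.c k14 (.l (.s k12 k8 1 (.s k166 k247 12 (.s k243 k89 14 (.s k167 k91 13 (.s k165 k164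
  0 (.d k5 k10 k245 2 11))))))) .n))

def s2_255_173 : T TT 256 :=
  (.q k4 [(.s k5 k10 2 (.s k6 k7 0 (.s k12 k8 1 (.s k13 k14 0 (.d k9 k1 k3 1 2))))), (.s k12 k8 1
  (.s k14 k13 0 (.s k166 k247 12 (.s k90 k242 13 (.s k80 k95 2 (.d k240 k160 k165 11 14)))))), (.s
  k5 k10 2 (.s k165 k245 11 (.s k166 k247 12 (.s k164 k167 0 (.s k244 k84 11 (.d k7 k6 k86 0
  12))))))] (.c k14 (.l (.s k12 k8 1 (.s k166 k247 12 (.s k243 k89 14 (.s k167 k91 13 (.s k165 k164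
  0 (.d k5 k10 k245 2 11))))))) .n))

def s2_255_174 : T TT 256 :=
  (.q k12 [(.s k4 k8 1 (.s k5 k10 2 (.s k6 k7 0 (.s k9 k3 2 (.d k13 k14 k1 0 1))))), (.s k4 k8 1 (.s
  k14 k13 0 (.s k166 k247 12 (.s k90 k242 13 (.s k80 k95 2 (.d k240 k160 k165 11 14)))))), (.s k5
  k10 2 (.s k165 k245 11 (.s k240 k90 14 (.s k164 k88 13 (.s k166 k167 0 (.s k89 k243 14 (.d k13 k14
  k241 0 13))))))), (.s k4 k8 1 (.s k166 k247 12 (.s k243 k89 14 (.s k167 k91 13 (.s k165 k164 0 (.d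
  k5 k10 k245 2 11))))))] .n)

def s2_255_175 : T TT 256 :=
  (.q k4 [(.s k5 k10 2 (.s k6 k7 0 (.s k12 k8 1 (.s k13 k14 0 (.d k9 k1 k3 1 2))))), (.s k12 k8 1
  (.s k14 k13 0 (.s k166 k247 12 (.s k90 k242 13 (.s k80 k95 2 (.d k240 k160 k165 11 14)))))), (.s
  k5 k10 2 (.s k165 k245 11 (.s k166 k247 12 (.s k164 k167 0 (.s k244 k84 11 (.d k7 k6 k86 0
  12))))))] (.c k14 (.l (.s k12 k8 1 (.s k166 k247 12 (.s k243 k89 14 (.s k167 k91 13 (.s k165 k164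
  0 (.d k5 k10 k245 2 11))))))) .n))

def s2_255_176 : T TT 256 :=
  (.q k4 [(.s k5 k10 2 (.s k6 k7 0 (.s k12 k8 1 (.s k13 k14 0 (.d k9 k1 k3 1 2))))), (.s k12 k8 1
  (.s k14 k13 0 (.s k166 k247 12 (.s k90 k242 13 (.s k80 k95 2 (.d k240 k160 k165 11 14)))))), (.s
  k5 k10 2 (.s k165 k245 11 (.s k166 k247 12 (.s k164 k167 0 (.s k244 k84 11 (.d k7 k6 k86 0
  12))))))] (.c k14 (.l (.s k12 k8 1 (.s k166 k247 12 (.s k243 k89 14 (.s k167 k91 13 (.s k165 k164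
  0 (.d k5 k10 k245 2 11))))))) .n))

def s2_255_177 : T TT 256 :=
  (.q k4 [(.s k5 k10 2 (.s k6 k7 0 (.s k12 k8 1 (.s k13 k14 0 (.d k9 k1 k3 1 2))))), (.s k12 k8 1
  (.s k14 k13 0 (.s k166 k247 12 (.s k90 k242 13 (.s k80 k95 2 (.d k240 k160 k165 11 14)))))), (.s
  k5 k10 2 (.s k165 k245 11 (.s k166 k247 12 (.s k164 k167 0 (.s k244 k84 11 (.d k7 k6 k86 0
  12))))))] (.c k14 (.l (.s k12 k8 1 (.s k166 k247 12 (.s k243 k89 14 (.s k167 k91 13 (.s k165 k164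
  0 (.d k5 k10 k245 2 11))))))) .n))

def s2_255_178 : T TT 256 :=
  (.q k4 [(.s k5 k10 2 (.s k6 k7 0 (.s k12 k8 1 (.s k13 k14 0 (.d k9 k1 k3 1 2))))), (.s k12 k8 1
  (.s k14 k13 0 (.s k166 k247 12 (.s k90 k242 13 (.s k80 k95 2 (.d k240 k160 k165 11 14)))))), (.s
  k5 k10 2 (.s k165 k245 11 (.s k166 k247 12 (.s k164 k167 0 (.s k244 k84 11 (.d k7 k6 k86 0
  12))))))] (.c k14 (.l (.s k12 k8 1 (.s k166 k247 12 (.s k243 k89 14 (.s k167 k91 13 (.s k165 k164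
  0 (.d k5 k10 k245 2 11))))))) .n))

def s2_255_179 : T TT 256 :=
  (.q k4 [(.s k5 k10 2 (.s k6 k7 0 (.s k12 k8 1 (.s k13 k14 0 (.d k9 k1 k3 1 2))))), (.s k12 k8 1
  (.s k14 k13 0 (.s k166 k247 12 (.s k90 k242 13 (.s k80 k95 2 (.d k240 k160 k165 11 14)))))), (.s
  k5 k10 2 (.s k165 k245 11 (.s k166 k247 12 (.s k164 k167 0 (.s k244 k84 11 (.d k7 k6 k86 0
  12))))))] (.c k14 (.l (.s k12 k8 1 (.s k166 k247 12 (.s k243 k89 14 (.s k167 k91 13 (.s k165 k164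
  0 (.d k5 k10 k245 2 11))))))) .n))

def s2_255_180 : T TT 256 :=
  (.q k4 [(.s k5 k10 2 (.s k6 k7 0 (.s k12 k8 1 (.s k13 k14 0 (.d k9 k1 k3 1 2))))), (.s k12 k8 1
  (.s k14 k13 0 (.s k166 k247 12 (.s k90 k242 13 (.s k80 k95 2 (.d k240 k160 k165 11 14)))))), (.s
  k5 k10 2 (.s k165 k245 11 (.s k166 k247 12 (.s k164 k167 0 (.s k244 k84 11 (.d k7 k6 k86 0
  12))))))] (.c k14 (.l (.s k12 k8 1 (.s k166 k247 12 (.s k243 k89 14 (.s k167 k91 13 (.s k165 k164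
  0 (.d k5 k10 k245 2 11))))))) .n))

def s2_255_181 : T TT 256 :=
  (.q k4 [(.s k5 k10 2 (.s k6 k7 0 (.s k12 k8 1 (.s k13 k14 0 (.d k9 k1 k3 1 2))))), (.s k12 k8 1
  (.s k14 k13 0 (.s k166 k247 12 (.s k90 k242 13 (.s k80 k95 2 (.d k240 k160 k165 11 14)))))), (.s
  k5 k10 2 (.s k165 k245 11 (.s k166 k247 12 (.s k164 k167 0 (.s k244 k84 11 (.d k7 k6 k86 0
  12))))))] (.c k14 (.l (.s k12 k8 1 (.s k166 k247 12 (.s k243 k89 14 (.s k167 k91 13 (.s k165 k164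
  0 (.d k5 k10 k245 2 11))))))) .n))

def s2_255_182 : T TT 256 :=
  (.q k4 [(.s k5 k10 2 (.s k6 k7 0 (.s k12 k8 1 (.s k13 k14 0 (.d k9 k1 k3 1 2))))), (.s k12 k8 1
  (.s k14 k13 0 (.s k166 k247 12 (.s k90 k242 13 (.s k80 k95 2 (.d k240 k160 k165 11 14)))))), (.s
  k5 k10 2 (.s k165 k245 11 (.s k166 k247 12 (.s k164 k167 0 (.s k244 k84 11 (.d k7 k6 k86 0
  12))))))] (.c k14 (.l (.s k12 k8 1 (.s k166 k247 12 (.s k243 k89 14 (.s k167 k91 13 (.s k165 k164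
  0 (.d k5 k10 k245 2 11))))))) .n))

def s2_255_183 : T TT 256 :=
  (.q k4 [(.s k5 k10 2 (.s k6 k7 0 (.s k12 k8 1 (.s k13 k14 0 (.d k9 k1 k3 1 2))))), (.s k12 k8 1
  (.s k14 k13 0 (.s k166 k247 12 (.s k90 k242 13 (.s k80 k95 2 (.d k240 k160 k165 11 14)))))), (.s
  k5 k10 2 (.s k165 k245 11 (.s k166 k247 12 (.s k164 k167 0 (.s k244 k84 11 (.d k7 k6 k86 0
  12))))))] (.c k14 (.l (.s k12 k8 1 (.s k166 k247 12 (.s k243 k89 14 (.s k167 k91 13 (.s k165 k164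
  0 (.d k5 k10 k245 2 11))))))) .n))

def s2_255_184 : T TT 256 :=
  (.q k4 [(.s k5 k10 2 (.s k6 k7 0 (.s k12 k8 1 (.s k13 k14 0 (.d k9 k1 k3 1 2))))), (.s k12 k8 1
  (.s k14 k13 0 (.s k166 k247 12 (.s k90 k242 13 (.s k80 k95 2 (.d k240 k160 k165 11 14)))))), (.s
  k5 k10 2 (.s k165 k245 11 (.s k166 k247 12 (.s k164 k167 0 (.s k244 k84 11 (.d k7 k6 k86 0
  12))))))] (.c k14 (.l (.s k12 k8 1 (.s k166 k247 12 (.s k243 k89 14 (.s k167 k91 13 (.s k165 k164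
  0 (.d k5 k10 k245 2 11))))))) .n))

def s2_255_185 : T TT 256 :=
  (.q k4 [(.s k5 k10 2 (.s k6 k7 0 (.s k12 k8 1 (.s k13 k14 0 (.d k9 k1 k3 1 2))))), (.s k12 k8 1
  (.s k14 k13 0 (.s k166 k247 12 (.s k90 k242 13 (.s k80 k95 2 (.d k240 k160 k165 11 14)))))), (.s
  k5 k10 2 (.s k165 k245 11 (.s k166 k247 12 (.s k164 k167 0 (.s k244 k84 11 (.d k7 k6 k86 0
  12))))))] (.c k14 (.l (.s k12 k8 1 (.s k166 k247 12 (.s k243 k89 14 (.s k167 k91 13 (.s k165 k164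
  0 (.d k5 k10 k245 2 11))))))) .n))

def s2_255_186 : T TT 256 :=
  (.q k48 [(.s k10 k5 2 (.s k16 k32 3 (.s k26 k37 6 (.s k21 k31 2 (.d k42 k58 k63 3 6))))), (.s k5
  k10 2 (.s k16 k32 3 (.s k154 k223 10 (.s k165 k245 11 (.s k143 k176 6 (.d k207 k79 k101 7
  14)))))), (.s k16 k32 3 (.s k26 k37 6 (.s k154 k223 10 (.s k90 k218 7 (.s k80 k95 2 (.d k240 k160
  k165 11 14)))))), (.s k5 k10 2 (.s k37 k26 6 (.s k165 k245 11 (.s k101 k229 7 (.s k69 k117 3 (.d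
  k207 k138 k154 10 14))))))] .n)

def s2_255_187 : T TT 256 :=
  (.q k192 [(.s k10 k5 2 (.s k64 k128 7 (.s k74 k133 10 (.s k69 k79 2 (.d k138 k202 k207 7 10))))),
  (.s k5 k10 2 (.s k64 k128 7 (.s k106 k127 6 (.s k63 k149 14 (.s k47 k31 3 (.d k165 k224 k245 10
  11)))))), (.s k64 k128 7 (.s k74 k133 10 (.s k106 k127 6 (.s k90 k122 3 (.s k80 k95 2 (.d k240
  k160 k165 11 14)))))), (.s k5 k10 2 (.s k133 k74 10 (.s k165 k245 11 (.s k149 k181 3 (.s k21 k213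
  7 (.d k63 k42 k106 6 14))))))] (.c k51 (.q k119 [(.s k10 k5 2 (.s k64 k128 7 (.s k74 k133 10 (.s
  k69 k79 2 (.d k138 k202 k207 7 10))))), (.s k64 k128 7 (.s k68 k102 4 (.s k72 k76 1 (.s k12 k132 9
  (.s k8 k4 1 (.d k136 k204 k200 9 7)))))), (.s k5 k10 2 (.s k133 k74 10 (.s k165 k245 11 (.s k149
  k181 3 (.s k21 k213 7 (.d k63 k42 k106 6 14))))))] .n) (.c k119 (.q k51 [(.s k10 k5 2 (.s k64 k128
  7 (.s k74 k133 10 (.s k69 k79 2 (.d k138 k202 k207 7 10))))), (.s k17 k34 4 (.s k128 k64 7 (.s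
  k145 k98 12 (.s k81 k209 7 (.d k162 k179 k243 4 12))))), (.s k5 k10 2 (.s k17 k34 4 (.s k27 k39 5
  (.s k153 k221 9 (.s k90 k216 8 (.d k165 k245 k240 11 14))))))] .n) .n)))

def s2_255_188 : T TT 256 :=
  (.q k4 [(.s k5 k10 2 (.s k6 k7 0 (.s k12 k8 1 (.s k13 k14 0 (.d k9 k1 k3 1 2))))), (.s k12 k8 1
  (.s k14 k13 0 (.s k166 k247 12 (.s k90 k242 13 (.s k80 k95 2 (.d k240 k160 k165 11 14)))))), (.s
  k5 k10 2 (.s k165 k245 11 (.s k166 k247 12 (.s k164 k167 0 (.s k244 k84 11 (.d k7 k6 k86 0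
  12))))))] (.c k14 (.l (.s k12 k8 1 (.s k166 k247 12 (.s k243 k89 14 (.s k167 k91 13 (.s k165 k164
  0 (.d k5 k10 k245 2 11))))))) .n))

def s2_255_189 : T TT 256 :=
  (.q k4 [(.s k5 k10 2 (.s k6 k7 0 (.s k12 k8 1 (.s k13 k14 0 (.d k9 k1 k3 1 2))))), (.s k12 k8 1
  (.s k14 k13 0 (.s k166 k247 12 (.s k90 k242 13 (.s k80 k95 2 (.d k240 k160 k165 11 14)))))), (.s
  k5 k10 2 (.s k165 k245 11 (.s k166 k247 12 (.s k164 k167 0 (.s k244 k84 11 (.d k7 k6 k86 0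
  12))))))] (.c k14 (.l (.s k12 k8 1 (.s k166 k247 12 (.s k243 k89 14 (.s k167 k91 13 (.s k165 k164
  0 (.d k5 k10 k245 2 11))))))) .n))

def s2_255_190 : T TT 256 :=
  (.q k192 [(.s k10 k5 2 (.s k64 k128 7 (.s k74 k133 10 (.s k69 k79 2 (.d k138 k202 k207 7 10))))),
  (.s k5 k10 2 (.s k64 k128 7 (.s k106 k127 6 (.s k63 k149 14 (.s k47 k31 3 (.d k165 k224 k245 10
  11)))))), (.s k64 k128 7 (.s k74 k133 10 (.s k106 k127 6 (.s k90 k122 3 (.s k80 k95 2 (.d k240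
  k160 k165 11 14)))))), (.s k5 k10 2 (.s k133 k74 10 (.s k165 k245 11 (.s k149 k181 3 (.s k21 k213
  7 (.d k63 k42 k106 6 14))))))] (.c k60 (.q k125 [(.s k10 k5 2 (.s k64 k128 7 (.s k74 k133 10 (.s
  k69 k79 2 (.d k138 k202 k207 7 10))))), (.s k64 k128 7 (.s k65 k105 5 (.s k66 k67 0 (.s k129 k3 8
  (.s k193 k1 7 (.d k195 k194 k130 0 8)))))), (.s k5 k10 2 (.s k133 k74 10 (.s k165 k245 11 (.s k149
  k181 3 (.s k21 k213 7 (.d k63 k42 k106 6 14))))))] .n) (.c k125 (.q k60 [(.s k20 k40 5 (.s k128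
  k64 7 (.s k148 k104 13 (.s k84 k212 7 (.d k168 k188 k252 5 13))))), (.s k5 k10 2 (.s k128 k64 7
  (.s k133 k74 10 (.s k69 k197 7 (.d k138 k143 k207 2 10))))), (.s k5 k10 2 (.s k20 k40 5 (.s k30
  k45 4 (.s k150 k215 8 (.s k90 k210 9 (.d k165 k245 k240 11 14))))))] .n) .n)))

def s2_255_191 : T TT 256 :=
  (.q k63 [(.s k10 k5 2 (.s k47 k31 3 (.s k42 k21 6 (.s k37 k32 2 (.d k26 k58 k48 3 6))))), (.s k5
  k10 2 (.s k47 k31 3 (.s k165 k245 11 (.s k106 k224 10 (.s k64 k127 6 (.d k192 k128 k149 7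
  14)))))), (.s k21 k42 6 (.s k31 k47 3 (.s k149 k213 7 (.s k90 k208 10 (.s k80 k95 2 (.d k240 k160
  k165 11 14)))))), (.s k5 k10 2 (.s k21 k42 6 (.s k149 k213 7 (.s k165 k245 11 (.s k133 k181 3 (.d
  k192 k74 k106 10 14))))))] .n)

def s2_255_192 : T TT 256 :=
  (.q k48 [(.s k10 k5 2 (.s k16 k32 3 (.s k26 k37 6 (.s k21 k31 2 (.d k42 k58 k63 3 6))))), (.s k5
  k10 2 (.s k16 k32 3 (.s k154 k223 10 (.s k165 k245 11 (.s k143 k176 6 (.d k207 k79 k101 7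
  14)))))), (.s k16 k32 3 (.s k26 k37 6 (.s k154 k223 10 (.s k90 k218 7 (.s k80 k95 2 (.d k240 k160
  k165 11 14)))))), (.s k5 k10 2 (.s k37 k26 6 (.s k165 k245 11 (.s k101 k229 7 (.s k69 k117 3 (.d
  k207 k138 k154 10 14))))))] (.c k213 (.q k234 [(.s k10 k5 2 (.s k16 k32 3 (.s k26 k37 6 (.s k21
  k31 2 (.d k42 k58 k63 3 6))))), (.s k5 k10 2 (.s k16 k32 3 (.s k154 k223 10 (.s k165 k245 11 (.s
  k143 k176 6 (.d k207 k79 k101 7 14))))))] (.c k5 (.l (.s k16 k32 3 (.s k26 k37 6 (.s k21 k31 2 (.s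
  k42 k63 6 (.s k58 k10 3 (.s k106 k170 7 (.d k154 k223 k202 10 11)))))))) (.c k10 (.l (.s k16 k32 3
  (.s k26 k37 6 (.s k31 k21 2 (.s k154 k223 10 (.s k90 k218 7 (.s k208 k149 10 (.d k80 k95 k144 2
  7)))))))) (.c k16 (.l (.s k5 k10 2 (.s k37 k26 6 (.s k21 k53 3 (.s k42 k63 6 (.s k47 k32 2 (.s
  k106 k170 7 (.d k165 k224 k245 10 11)))))))) (.c k32 (.l (.s k5 k10 2 (.s k37 k26 6 (.s k53 k21 3
  (.s k165 k245 11 (.s k101 k229 7 (.s k197 k149 11 (.d k69 k117 k133 3 7)))))))) .n))))) (.c k234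
  (.q k213 [(.s k16 k32 3 (.s k21 k149 7 (.d k26 k31 k37 2 6))), (.s k5 k10 2 (.s k16 k32 3 (.s k26
  k37 6 (.s k154 k223 10 (.s k90 k218 7 (.d k165 k245 k240 11 14)))))), (.s k5 k10 2 (.s k21 k149 7
  (.s k53 k37 3 (.d k63 k58 k42 2 6))))] (.c k37 (.l (.s k16 k32 3 (.s k21 k149 7 (.s k31 k26 2 (.d
  k63 k47 k42 3 6))))) .n)) .n)))

def s2_255_193 : T TT 256 :=
  (.q k4 [(.s k5 k10 2 (.s k6 k7 0 (.s k12 k8 1 (.s k13 k14 0 (.d k9 k1 k3 1 2))))), (.s k12 k8 1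
  (.s k14 k13 0 (.s k166 k247 12 (.s k90 k242 13 (.s k80 k95 2 (.d k240 k160 k165 11 14)))))), (.s
  k5 k10 2 (.s k165 k245 11 (.s k166 k247 12 (.s k164 k167 0 (.s k244 k84 11 (.d k7 k6 k86 0
  12))))))] (.c k14 (.l (.s k12 k8 1 (.s k166 k247 12 (.s k243 k89 14 (.s k167 k91 13 (.s k165 k164
  0 (.d k5 k10 k245 2 11))))))) .n))

def s2_255_194 : T TT 256 :=
  (.q k21 [(.s k10 k5 2 (.s k42 k63 6 (.s k26 k58 3 (.s k16 k31 2 (.d k48 k32 k37 3 6))))), (.s k5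
  k10 2 (.s k53 k37 3 (.s k149 k213 7 (.s k101 k197 11 (.s k117 k69 3 (.d k245 k181 k165 7 11)))))),
  (.s k63 k42 6 (.s k31 k47 3 (.s k149 k213 7 (.s k90 k208 10 (.s k80 k95 2 (.d k240 k160 k165 11
  14))))))] (.c k37 (.l (.s k5 k10 2 (.s k63 k42 6 (.s k47 k31 3 (.s k149 k213 7 (.s k165 k245 11
  (.d k106 k192 k224 14 10))))))) (.c k66 (.q k130 [(.s k10 k5 2 (.s k42 k63 6 (.s k26 k58 3 (.s k16
  k31 2 (.d k48 k32 k37 3 6))))), (.s k5 k10 2 (.s k53 k37 3 (.s k149 k213 7 (.s k101 k197 11 (.s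
  k117 k69 3 (.d k245 k181 k165 7 11)))))), (.s k63 k42 6 (.s k31 k47 3 (.s k149 k213 7 (.s k90 k208
  10 (.s k80 k95 2 (.d k240 k160 k165 11 14))))))] (.c k37 (.l (.s k5 k10 2 (.s k63 k42 6 (.s k47
  k31 3 (.s k149 k213 7 (.s k165 k245 11 (.d k106 k192 k224 14 10))))))) .n)) (.c k130 (.q k66 [(.s
  k10 k5 2 (.s k42 k63 6 (.s k26 k58 3 (.s k16 k31 2 (.d k48 k32 k37 3 6))))), (.s k5 k10 2 (.s k53
  k37 3 (.s k149 k213 7 (.s k101 k197 11 (.s k117 k69 3 (.d k245 k181 k165 7 11)))))), (.s k63 k42 6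
  (.s k31 k47 3 (.s k149 k213 7 (.s k90 k208 10 (.s k80 k95 2 (.d k240 k160 k165 11 14))))))] (.c
  k37 (.l (.s k5 k10 2 (.s k63 k42 6 (.s k47 k31 3 (.s k149 k213 7 (.s k165 k245 11 (.d k106 k192
  k224 14 10))))))) .n)) .n))))

def s2_255_195 : T TT 256 :=
  (.q k21 [(.s k10 k5 2 (.s k42 k63 6 (.s k26 k58 3 (.s k16 k31 2 (.d k48 k32 k37 3 6))))), (.s k5
  k10 2 (.s k53 k37 3 (.s k149 k213 7 (.s k101 k197 11 (.s k117 k69 3 (.d k245 k181 k165 7 11)))))),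
  (.s k63 k42 6 (.s k31 k47 3 (.s k149 k213 7 (.s k90 k208 10 (.s k80 k95 2 (.d k240 k160 k165 11
  14))))))] (.c k37 (.l (.s k5 k10 2 (.s k63 k42 6 (.s k47 k31 3 (.s k149 k213 7 (.s k165 k245 11
  (.d k106 k192 k224 14 10))))))) (.c k215 (.q k235 [(.s k10 k5 2 (.s k42 k63 6 (.s k26 k58 3 (.s
  k16 k31 2 (.d k48 k32 k37 3 6))))), (.s k5 k10 2 (.s k53 k37 3 (.s k149 k213 7 (.s k101 k197 11
  (.s k117 k69 3 (.d k245 k181 k165 7 11)))))), (.s k63 k42 6 (.s k31 k47 3 (.s k149 k213 7 (.s k90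
  k208 10 (.s k80 k95 2 (.d k240 k160 k165 11 14))))))] (.c k37 (.l (.s k5 k10 2 (.s k63 k42 6 (.s
  k47 k31 3 (.s k149 k213 7 (.s k165 k245 11 (.d k106 k192 k224 14 10))))))) .n)) (.c k235 (.q k215
  [(.s k10 k5 2 (.s k42 k63 6 (.s k26 k58 3 (.s k16 k31 2 (.d k48 k32 k37 3 6))))), (.s k20 k150 8
  (.s k23 k22 0 (.s k149 k213 7 (.s k86 k212 8 (.d k87 k84 k151 0 7))))), (.s k5 k10 2 (.s k53 k37 3
  (.s k149 k213 7 (.s k101 k197 11 (.s k117 k69 3 (.d k245 k181 k165 7 11))))))] .n) .n))))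

def s2_255_196 : T TT 256 :=
  (.q k4 [(.s k5 k10 2 (.s k6 k7 0 (.s k12 k8 1 (.s k13 k14 0 (.d k9 k1 k3 1 2))))), (.s k12 k8 1
  (.s k14 k13 0 (.s k166 k247 12 (.s k90 k242 13 (.s k80 k95 2 (.d k240 k160 k165 11 14)))))), (.s
  k5 k10 2 (.s k165 k245 11 (.s k166 k247 12 (.s k164 k167 0 (.s k244 k84 11 (.d k7 k6 k86 0
  12))))))] (.c k14 (.l (.s k12 k8 1 (.s k166 k247 12 (.s k243 k89 14 (.s k167 k91 13 (.s k165 k164
  0 (.d k5 k10 k245 2 11))))))) .n))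

def s2_255_197 : T TT 256 :=
  (.q k4 [(.s k5 k10 2 (.s k6 k7 0 (.s k12 k8 1 (.s k13 k14 0 (.d k9 k1 k3 1 2))))), (.s k12 k8 1
  (.s k14 k13 0 (.s k166 k247 12 (.s k90 k242 13 (.s k80 k95 2 (.d k240 k160 k165 11 14)))))), (.s
  k5 k10 2 (.s k165 k245 11 (.s k166 k247 12 (.s k164 k167 0 (.s k244 k84 11 (.d k7 k6 k86 0
  12))))))] (.c k14 (.l (.s k12 k8 1 (.s k166 k247 12 (.s k243 k89 14 (.s k167 k91 13 (.s k165 k164
  0 (.d k5 k10 k245 2 11))))))) .n))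

def s2_255_198 : T TT 256 :=
  (.q k4 [(.s k5 k10 2 (.s k6 k7 0 (.s k12 k8 1 (.s k13 k14 0 (.d k9 k1 k3 1 2))))), (.s k12 k8 1
  (.s k14 k13 0 (.s k166 k247 12 (.s k90 k242 13 (.s k80 k95 2 (.d k240 k160 k165 11 14)))))), (.s
  k5 k10 2 (.s k165 k245 11 (.s k166 k247 12 (.s k164 k167 0 (.s k244 k84 11 (.d k7 k6 k86 0
  12))))))] (.c k14 (.l (.s k12 k8 1 (.s k166 k247 12 (.s k243 k89 14 (.s k167 k91 13 (.s k165 k164
  0 (.d k5 k10 k245 2 11))))))) .n))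

def s2_255_199 : T TT 256 :=
  (.q k4 [(.s k5 k10 2 (.s k6 k7 0 (.s k12 k8 1 (.s k13 k14 0 (.d k9 k1 k3 1 2))))), (.s k12 k8 1
  (.s k14 k13 0 (.s k166 k247 12 (.s k90 k242 13 (.s k80 k95 2 (.d k240 k160 k165 11 14)))))), (.s
  k5 k10 2 (.s k165 k245 11 (.s k166 k247 12 (.s k164 k167 0 (.s k244 k84 11 (.d k7 k6 k86 0
  12))))))] (.c k14 (.l (.s k12 k8 1 (.s k166 k247 12 (.s k243 k89 14 (.s k167 k91 13 (.s k165 k164
  0 (.d k5 k10 k245 2 11))))))) .n))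

def s2_255_200 : T TT 256 :=
  (.q k4 [(.s k5 k10 2 (.s k6 k7 0 (.s k12 k8 1 (.s k13 k14 0 (.d k9 k1 k3 1 2))))), (.s k5 k10 2
  (.s k165 k245 11 (.s k166 k247 12 (.s k164 k167 0 (.s k244 k84 11 (.d k7 k6 k86 0 12)))))), (.s
  k12 k8 1 (.s k14 k13 0 (.s k166 k247 12 (.s k90 k242 13 (.s k80 k95 2 (.d k240 k160 k165 11
  14))))))] (.c k14 (.l (.s k12 k8 1 (.s k166 k247 12 (.s k243 k89 14 (.s k167 k91 13 (.s k165 k164
  0 (.d k5 k10 k245 2 11))))))) .n))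

def s2_255_201 : T TT 256 :=
  (.q k4 [(.s k5 k10 2 (.s k6 k7 0 (.s k12 k8 1 (.s k13 k14 0 (.d k9 k1 k3 1 2))))), (.s k12 k8 1
  (.s k14 k13 0 (.s k166 k247 12 (.s k90 k242 13 (.s k80 k95 2 (.d k240 k160 k165 11 14)))))), (.s
  k5 k10 2 (.s k165 k245 11 (.s k166 k247 12 (.s k164 k167 0 (.s k244 k84 11 (.d k7 k6 k86 0
  12))))))] (.c k14 (.l (.s k12 k8 1 (.s k166 k247 12 (.s k243 k89 14 (.s k167 k91 13 (.s k165 k164
  0 (.d k5 k10 k245 2 11))))))) .n))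

def s2_255_202 : T TT 256 :=
  (.q k4 [(.s k5 k10 2 (.s k6 k7 0 (.s k12 k8 1 (.s k13 k14 0 (.d k9 k1 k3 1 2))))), (.s k12 k8 1
  (.s k14 k13 0 (.s k166 k247 12 (.s k90 k242 13 (.s k80 k95 2 (.d k240 k160 k165 11 14)))))), (.s
  k5 k10 2 (.s k165 k245 11 (.s k166 k247 12 (.s k164 k167 0 (.s k244 k84 11 (.d k7 k6 k86 0
  12))))))] (.c k14 (.l (.s k12 k8 1 (.s k166 k247 12 (.s k243 k89 14 (.s k167 k91 13 (.s k165 k164
  0 (.d k5 k10 k245 2 11))))))) .n))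

def s2_255_203 : T TT 256 :=
  (.q k4 [(.s k5 k10 2 (.s k6 k7 0 (.s k12 k8 1 (.s k13 k14 0 (.d k9 k1 k3 1 2))))), (.s k5 k10 2
  (.s k165 k245 11 (.s k166 k247 12 (.s k164 k167 0 (.s k244 k84 11 (.d k7 k6 k86 0 12)))))), (.s
  k12 k8 1 (.s k14 k13 0 (.s k166 k247 12 (.s k90 k242 13 (.s k80 k95 2 (.d k240 k160 k165 11
  14))))))] (.c k14 (.l (.s k12 k8 1 (.s k166 k247 12 (.s k243 k89 14 (.s k167 k91 13 (.s k165 k164
  0 (.d k5 k10 k245 2 11))))))) .n))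

def s2_255_204 : T TT 256 :=
  (.q k21 [(.s k10 k5 2 (.s k42 k63 6 (.s k26 k58 3 (.s k16 k31 2 (.d k48 k32 k37 3 6))))), (.s k5
  k10 2 (.s k53 k37 3 (.s k149 k213 7 (.s k101 k197 11 (.s k117 k69 3 (.d k245 k181 k165 7 11)))))),
  (.s k63 k42 6 (.s k31 k47 3 (.s k149 k213 7 (.s k90 k208 10 (.s k80 k95 2 (.d k240 k160 k165 11
  14))))))] (.c k37 (.l (.s k5 k10 2 (.s k63 k42 6 (.s k47 k31 3 (.s k149 k213 7 (.s k165 k245 11
  (.d k106 k192 k224 14 10))))))) (.c k221 (.q k238 [(.s k10 k5 2 (.s k42 k63 6 (.s k26 k58 3 (.s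
  k16 k31 2 (.d k48 k32 k37 3 6))))), (.s k5 k10 2 (.s k53 k37 3 (.s k149 k213 7 (.s k101 k197 11
  (.s k117 k69 3 (.d k245 k181 k165 7 11)))))), (.s k63 k42 6 (.s k31 k47 3 (.s k149 k213 7 (.s k90
  k208 10 (.s k80 k95 2 (.d k240 k160 k165 11 14))))))] (.c k37 (.l (.s k5 k10 2 (.s k63 k42 6 (.s
  k47 k31 3 (.s k149 k213 7 (.s k165 k245 11 (.d k106 k192 k224 14 10))))))) .n)) (.c k238 (.q k221
  [(.s k10 k5 2 (.s k42 k63 6 (.s k26 k58 3 (.s k16 k31 2 (.d k48 k32 k37 3 6))))), (.s k17 k153 9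
  (.s k29 k25 1 (.s k149 k213 7 (.s k89 k209 9 (.d k93 k81 k157 1 7)))))] (.c k157 (.l (.s k5 k10 2
  (.s k37 k53 3 (.s k26 k48 6 (.s k31 k16 2 (.d k63 k47 k42 3 6)))))) .n)) .n))))

def s2_255_205 : T TT 256 :=
  (.q k4 [(.s k5 k10 2 (.s k6 k7 0 (.s k12 k8 1 (.s k13 k14 0 (.d k9 k1 k3 1 2))))), (.s k12 k8 1
  (.s k14 k13 0 (.s k166 k247 12 (.s k90 k242 13 (.s k80 k95 2 (.d k240 k160 k165 11 14)))))), (.s
  k5 k10 2 (.s k165 k245 11 (.s k166 k247 12 (.s k164 k167 0 (.s k244 k84 11 (.d k7 k6 k86 0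
  12))))))] (.c k14 (.l (.s k12 k8 1 (.s k166 k247 12 (.s k243 k89 14 (.s k167 k91 13 (.s k165 k164
  0 (.d k5 k10 k245 2 11))))))) .n))

def s2_255_206 : T TT 256 :=
  (.q k21 [(.s k10 k5 2 (.s k42 k63 6 (.s k26 k58 3 (.s k16 k31 2 (.d k48 k32 k37 3 6))))), (.s k5
  k10 2 (.s k53 k37 3 (.s k149 k213 7 (.s k101 k197 11 (.s k117 k69 3 (.d k245 k181 k165 7 11)))))),
  (.s k63 k42 6 (.s k31 k47 3 (.s k149 k213 7 (.s k90 k208 10 (.s k80 k95 2 (.d k240 k160 k165 11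
  14))))))] (.c k37 (.l (.s k5 k10 2 (.s k63 k42 6 (.s k47 k31 3 (.s k149 k213 7 (.s k165 k245 11
  (.d k106 k192 k224 14 10))))))) (.c k70 (.q k138 [(.s k10 k5 2 (.s k42 k63 6 (.s k26 k58 3 (.s k16
  k31 2 (.d k48 k32 k37 3 6))))), (.s k63 k42 6 (.s k149 k213 7 (.s k192 k106 14 (.s k128 k64 7 (.d
  k133 k143 k74 2 10))))), (.s k5 k10 2 (.s k37 k53 3 (.s k69 k207 10 (.s k101 k117 3 (.d k165 k245
  k229 11 7)))))] .n) (.c k138 (.q k70 [(.s k10 k5 2 (.s k42 k63 6 (.s k26 k58 3 (.s k16 k31 2 (.d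
  k48 k32 k37 3 6))))), (.s k5 k10 2 (.s k53 k37 3 (.s k149 k213 7 (.s k101 k197 11 (.s k117 k69 3
  (.d k245 k181 k165 7 11)))))), (.s k63 k42 6 (.s k31 k47 3 (.s k149 k213 7 (.s k90 k208 10 (.s k80
  k95 2 (.d k240 k160 k165 11 14))))))] (.c k37 (.l (.s k5 k10 2 (.s k63 k42 6 (.s k47 k31 3 (.s
  k149 k213 7 (.s k165 k245 11 (.d k106 k192 k224 14 10))))))) .n)) .n))))

def s2_255_207 : T TT 256 :=
  (.q k12 [(.s k4 k8 1 (.s k5 k10 2 (.s k6 k7 0 (.s k13 k14 0 (.d k9 k1 k3 1 2))))), (.s k4 k8 1 (.s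
  k14 k13 0 (.s k166 k247 12 (.s k90 k242 13 (.s k80 k95 2 (.d k240 k160 k165 11 14)))))), (.s k5
  k10 2 (.s k165 k245 11 (.s k240 k90 14 (.s k164 k88 13 (.s k166 k167 0 (.s k89 k243 14 (.d k13 k14
  k241 0 13))))))), (.s k4 k8 1 (.s k166 k247 12 (.s k243 k89 14 (.s k167 k91 13 (.s k165 k164 0 (.d
  k5 k10 k245 2 11))))))] (.c k223 (.q k239 [(.s k4 k8 1 (.s k5 k10 2 (.s k6 k7 0 (.s k13 k14 0 (.d
  k9 k1 k3 1 2))))), (.s k4 k8 1 (.s k14 k13 0 (.s k166 k247 12 (.s k90 k242 13 (.s k80 k95 2 (.d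
  k240 k160 k165 11 14)))))), (.s k5 k10 2 (.s k165 k245 11 (.s k240 k90 14 (.s k164 k88 13 (.s k166
  k167 0 (.s k89 k243 14 (.d k13 k14 k241 0 13))))))), (.s k4 k8 1 (.s k166 k247 12 (.s k243 k89 14
  (.s k167 k91 13 (.s k165 k164 0 (.d k5 k10 k245 2 11))))))] .n) (.c k239 (.q k223 [(.s k4 k8 1 (.s
  k5 k10 2 (.s k6 k7 0 (.s k13 k14 0 (.d k9 k1 k3 1 2))))), (.s k10 k5 2 (.s k16 k154 10 (.s k48 k32
  3 (.s k26 k37 6 (.s k21 k31 2 (.d k42 k58 k63 3 6)))))), (.s k4 k8 1 (.s k14 k13 0 (.s k166 k247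
  12 (.s k90 k242 13 (.s k80 k95 2 (.d k240 k160 k165 11 14))))))] .n) .n)))

def s2_255_208 : T TT 256 :=
  (.q k4 [(.s k5 k10 2 (.s k6 k7 0 (.s k12 k8 1 (.s k13 k14 0 (.d k9 k1 k3 1 2))))), (.s k12 k8 1
  (.s k14 k13 0 (.s k166 k247 12 (.s k90 k242 13 (.s k80 k95 2 (.d k240 k160 k165 11 14)))))), (.s
  k5 k10 2 (.s k165 k245 11 (.s k166 k247 12 (.s k164 k167 0 (.s k244 k84 11 (.d k7 k6 k86 0
  12))))))] (.c k14 (.l (.s k12 k8 1 (.s k166 k247 12 (.s k243 k89 14 (.s k167 k91 13 (.s k165 k164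
  0 (.d k5 k10 k245 2 11))))))) .n))

def s2_255_209 : T TT 256 :=
  (.q k4 [(.s k5 k10 2 (.s k6 k7 0 (.s k12 k8 1 (.s k13 k14 0 (.d k9 k1 k3 1 2))))), (.s k12 k8 1
  (.s k14 k13 0 (.s k166 k247 12 (.s k90 k242 13 (.s k80 k95 2 (.d k240 k160 k165 11 14)))))), (.s
  k5 k10 2 (.s k165 k245 11 (.s k166 k247 12 (.s k164 k167 0 (.s k244 k84 11 (.d k7 k6 k86 0
  12))))))] (.c k14 (.l (.s k12 k8 1 (.s k166 k247 12 (.s k243 k89 14 (.s k167 k91 13 (.s k165 k164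
  0 (.d k5 k10 k245 2 11))))))) .n))

def s2_255_210 : T TT 256 :=
  (.q k4 [(.s k5 k10 2 (.s k6 k7 0 (.s k12 k8 1 (.s k13 k14 0 (.d k9 k1 k3 1 2))))), (.s k12 k8 1
  (.s k14 k13 0 (.s k166 k247 12 (.s k90 k242 13 (.s k80 k95 2 (.d k240 k160 k165 11 14)))))), (.s
  k5 k10 2 (.s k165 k245 11 (.s k166 k247 12 (.s k164 k167 0 (.s k244 k84 11 (.d k7 k6 k86 0
  12))))))] (.c k14 (.l (.s k12 k8 1 (.s k166 k247 12 (.s k243 k89 14 (.s k167 k91 13 (.s k165 k164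
  0 (.d k5 k10 k245 2 11))))))) .n))

def s2_255_211 : T TT 256 :=
  (.q k4 [(.s k5 k10 2 (.s k6 k7 0 (.s k12 k8 1 (.s k13 k14 0 (.d k9 k1 k3 1 2))))), (.s k12 k8 1
  (.s k14 k13 0 (.s k166 k247 12 (.s k90 k242 13 (.s k80 k95 2 (.d k240 k160 k165 11 14)))))), (.s
  k5 k10 2 (.s k165 k245 11 (.s k166 k247 12 (.s k164 k167 0 (.s k244 k84 11 (.d k7 k6 k86 0
  12))))))] (.c k14 (.l (.s k12 k8 1 (.s k166 k247 12 (.s k243 k89 14 (.s k167 k91 13 (.s k165 k164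
  0 (.d k5 k10 k245 2 11))))))) .n))

def s2_255_212 : T TT 256 :=
  (.q k4 [(.s k5 k10 2 (.s k6 k7 0 (.s k12 k8 1 (.s k13 k14 0 (.d k9 k1 k3 1 2))))), (.s k12 k8 1
  (.s k14 k13 0 (.s k166 k247 12 (.s k90 k242 13 (.s k80 k95 2 (.d k240 k160 k165 11 14)))))), (.s
  k5 k10 2 (.s k165 k245 11 (.s k166 k247 12 (.s k164 k167 0 (.s k244 k84 11 (.d k7 k6 k86 0
  12))))))] (.c k14 (.l (.s k12 k8 1 (.s k166 k247 12 (.s k243 k89 14 (.s k167 k91 13 (.s k165 k164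
  0 (.d k5 k10 k245 2 11))))))) .n))

def s2_255_213 : T TT 256 :=
  (.q k192 [(.s k10 k5 2 (.s k64 k128 7 (.s k74 k133 10 (.s k69 k79 2 (.d k138 k202 k207 7 10))))),
  (.s k5 k10 2 (.s k64 k128 7 (.s k106 k127 6 (.s k63 k149 14 (.s k47 k31 3 (.d k165 k224 k245 10
  11)))))), (.s k64 k128 7 (.s k74 k133 10 (.s k106 k127 6 (.s k90 k122 3 (.s k80 k95 2 (.d k240
  k160 k165 11 14)))))), (.s k5 k10 2 (.s k133 k74 10 (.s k165 k245 11 (.s k149 k181 3 (.s k63 k106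
  14 (.s k31 k47 3 (.d k90 k240 k208 14 10)))))))] .n)

def s2_255_214 : T TT 256 :=
  (.q k4 [(.s k5 k10 2 (.s k6 k7 0 (.s k12 k8 1 (.s k13 k14 0 (.d k9 k1 k3 1 2))))), (.s k12 k8 1
  (.s k14 k13 0 (.s k166 k247 12 (.s k90 k242 13 (.s k80 k95 2 (.d k240 k160 k165 11 14)))))), (.s
  k5 k10 2 (.s k165 k245 11 (.s k166 k247 12 (.s k164 k167 0 (.s k244 k84 11 (.d k7 k6 k86 0
  12))))))] (.c k14 (.l (.s k12 k8 1 (.s k166 k247 12 (.s k243 k89 14 (.s k167 k91 13 (.s k165 k164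
  0 (.d k5 k10 k245 2 11))))))) .n))

def s2_255_215 : T TT 256 :=
  (.q k21 [(.s k10 k5 2 (.s k42 k63 6 (.s k26 k58 3 (.s k16 k31 2 (.d k48 k32 k37 3 6))))), (.s k5
  k10 2 (.s k53 k37 3 (.s k149 k213 7 (.s k101 k197 11 (.s k117 k69 3 (.d k245 k181 k165 7 11)))))),
  (.s k63 k42 6 (.s k31 k47 3 (.s k149 k213 7 (.s k90 k208 10 (.s k80 k95 2 (.d k240 k160 k165 11
  14))))))] (.c k37 (.l (.s k5 k10 2 (.s k63 k42 6 (.s k47 k31 3 (.s k149 k213 7 (.s k165 k245 11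
  (.d k106 k192 k224 14 10))))))) (.c k195 (.q k235 [(.s k10 k5 2 (.s k42 k63 6 (.s k26 k58 3 (.s
  k16 k31 2 (.d k48 k32 k37 3 6))))), (.s k5 k10 2 (.s k53 k37 3 (.s k149 k213 7 (.s k101 k197 11
  (.s k117 k69 3 (.d k245 k181 k165 7 11)))))), (.s k63 k42 6 (.s k31 k47 3 (.s k149 k213 7 (.s k90
  k208 10 (.s k80 k95 2 (.d k240 k160 k165 11 14))))))] (.c k37 (.l (.s k5 k10 2 (.s k63 k42 6 (.s
  k47 k31 3 (.s k149 k213 7 (.s k165 k245 11 (.d k106 k192 k224 14 10))))))) .n)) (.c k235 (.q k195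
  [(.s k10 k5 2 (.s k42 k63 6 (.s k26 k58 3 (.s k16 k31 2 (.d k48 k32 k37 3 6))))), (.s k5 k10 2 (.s
  k53 k37 3 (.s k149 k213 7 (.s k101 k197 11 (.s k117 k69 3 (.d k245 k181 k165 7 11)))))), (.s k63
  k42 6 (.s k31 k47 3 (.s k135 k75 9 (.s k151 k107 13 (.s k91 k211 9 (.d k167 k183 k243 3 13))))))]
  (.c k37 (.l (.s k5 k10 2 (.s k63 k42 6 (.s k47 k31 3 (.s k149 k213 7 (.s k165 k245 11 (.d k106
  k192 k224 14 10))))))) .n)) .n))))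

def s2_255_216 : T TT 256 :=
  (.q k4 [(.s k5 k10 2 (.s k6 k7 0 (.s k12 k8 1 (.s k13 k14 0 (.d k9 k1 k3 1 2))))), (.s k12 k8 1
  (.s k14 k13 0 (.s k166 k247 12 (.s k90 k242 13 (.s k80 k95 2 (.d k240 k160 k165 11 14)))))), (.s
  k5 k10 2 (.s k165 k245 11 (.s k166 k247 12 (.s k164 k167 0 (.s k244 k84 11 (.d k7 k6 k86 0
  12))))))] (.c k14 (.l (.s k12 k8 1 (.s k166 k247 12 (.s k243 k89 14 (.s k167 k91 13 (.s k165 k164
  0 (.d k5 k10 k245 2 11))))))) .n))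

def s2_255_217 : T TT 256 :=
  (.q k4 [(.s k5 k10 2 (.s k6 k7 0 (.s k12 k8 1 (.s k13 k14 0 (.d k9 k1 k3 1 2))))), (.s k12 k8 1
  (.s k14 k13 0 (.s k166 k247 12 (.s k90 k242 13 (.s k80 k95 2 (.d k240 k160 k165 11 14)))))), (.s
  k5 k10 2 (.s k165 k245 11 (.s k166 k247 12 (.s k164 k167 0 (.s k244 k84 11 (.d k7 k6 k86 0
  12))))))] (.c k14 (.l (.s k12 k8 1 (.s k166 k247 12 (.s k243 k89 14 (.s k167 k91 13 (.s k165 k164
  0 (.d k5 k10 k245 2 11))))))) .n))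

def s2_255_218 : T TT 256 :=
  (.q k4 [(.s k5 k10 2 (.s k6 k7 0 (.s k12 k8 1 (.s k13 k14 0 (.d k9 k1 k3 1 2))))), (.s k12 k8 1
  (.s k14 k13 0 (.s k166 k247 12 (.s k90 k242 13 (.s k80 k95 2 (.d k240 k160 k165 11 14)))))), (.s
  k5 k10 2 (.s k165 k245 11 (.s k166 k247 12 (.s k164 k167 0 (.s k244 k84 11 (.d k7 k6 k86 0
  12))))))] (.c k14 (.l (.s k12 k8 1 (.s k166 k247 12 (.s k243 k89 14 (.s k167 k91 13 (.s k165 k164
  0 (.d k5 k10 k245 2 11))))))) .n))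

def s2_255_219 : T TT 256 :=
  (.q k4 [(.s k5 k10 2 (.s k6 k7 0 (.s k12 k8 1 (.s k13 k14 0 (.d k9 k1 k3 1 2))))), (.s k12 k8 1
  (.s k14 k13 0 (.s k166 k247 12 (.s k90 k242 13 (.s k80 k95 2 (.d k240 k160 k165 11 14)))))), (.s
  k5 k10 2 (.s k165 k245 11 (.s k166 k247 12 (.s k164 k167 0 (.s k244 k84 11 (.d k7 k6 k86 0
  12))))))] (.c k14 (.l (.s k12 k8 1 (.s k166 k247 12 (.s k243 k89 14 (.s k167 k91 13 (.s k165 k164
  0 (.d k5 k10 k245 2 11))))))) .n))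

def s2_255_220 : T TT 256 :=
  (.q k4 [(.s k5 k10 2 (.s k6 k7 0 (.s k12 k8 1 (.s k13 k14 0 (.d k9 k1 k3 1 2))))), (.s k12 k8 1
  (.s k14 k13 0 (.s k166 k247 12 (.s k90 k242 13 (.s k80 k95 2 (.d k240 k160 k165 11 14)))))), (.s
  k5 k10 2 (.s k165 k245 11 (.s k166 k247 12 (.s k164 k167 0 (.s k244 k84 11 (.d k7 k6 k86 0
  12))))))] (.c k14 (.l (.s k12 k8 1 (.s k166 k247 12 (.s k243 k89 14 (.s k167 k91 13 (.s k165 k164
  0 (.d k5 k10 k245 2 11))))))) .n))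

def s2_255_221 : T TT 256 :=
  (.q k21 [(.s k10 k5 2 (.s k42 k63 6 (.s k26 k58 3 (.s k16 k31 2 (.d k48 k32 k37 3 6))))), (.s k5
  k10 2 (.s k53 k37 3 (.s k149 k213 7 (.s k101 k197 11 (.s k117 k69 3 (.d k245 k181 k165 7 11)))))),
  (.s k63 k42 6 (.s k31 k47 3 (.s k149 k213 7 (.s k90 k208 10 (.s k80 k95 2 (.d k240 k160 k165 11
  14))))))] (.c k37 (.l (.s k5 k10 2 (.s k63 k42 6 (.s k47 k31 3 (.s k149 k213 7 (.s k165 k245 11
  (.d k106 k192 k224 14 10))))))) (.c k204 (.q k238 [(.s k10 k5 2 (.s k42 k63 6 (.s k26 k58 3 (.s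
  k16 k31 2 (.d k48 k32 k37 3 6))))), (.s k5 k10 2 (.s k53 k37 3 (.s k149 k213 7 (.s k101 k197 11
  (.s k117 k69 3 (.d k245 k181 k165 7 11)))))), (.s k63 k42 6 (.s k31 k47 3 (.s k149 k213 7 (.s k90
  k208 10 (.s k80 k95 2 (.d k240 k160 k165 11 14))))))] (.c k37 (.l (.s k5 k10 2 (.s k63 k42 6 (.s
  k47 k31 3 (.s k149 k213 7 (.s k165 k245 11 (.d k106 k192 k224 14 10))))))) .n)) (.c k238 (.q k204
  [(.s k10 k5 2 (.s k42 k63 6 (.s k26 k58 3 (.s k16 k31 2 (.d k48 k32 k37 3 6))))), (.s k5 k10 2 (.s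
  k53 k37 3 (.s k149 k213 7 (.s k101 k197 11 (.s k117 k69 3 (.d k245 k181 k165 7 11)))))), (.s k63
  k42 6 (.s k31 k47 3 (.s k141 k78 8 (.s k157 k110 12 (.s k94 k220 8 (.d k173 k189 k252 3 12))))))]
  (.c k37 (.l (.s k5 k10 2 (.s k63 k42 6 (.s k47 k31 3 (.s k149 k213 7 (.s k165 k245 11 (.d k106
  k192 k224 14 10))))))) .n)) .n))))

def s2_255_222 : T TT 256 :=
  (.q k4 [(.s k5 k10 2 (.s k6 k7 0 (.s k12 k8 1 (.s k13 k14 0 (.d k9 k1 k3 1 2))))), (.s k12 k8 1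
  (.s k14 k13 0 (.s k166 k247 12 (.s k90 k242 13 (.s k80 k95 2 (.d k240 k160 k165 11 14)))))), (.s
  k5 k10 2 (.s k165 k245 11 (.s k166 k247 12 (.s k164 k167 0 (.s k244 k84 11 (.d k7 k6 k86 0
  12))))))] (.c k14 (.l (.s k12 k8 1 (.s k166 k247 12 (.s k243 k89 14 (.s k167 k91 13 (.s k165 k164
  0 (.d k5 k10 k245 2 11))))))) .n))

def s2_255_223 : T TT 256 :=
  (.q k207 [(.s k10 k5 2 (.s k143 k79 7 (.s k138 k69 10 (.s k133 k128 2 (.d k74 k202 k192 7 10))))),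
  (.s k5 k10 2 (.s k143 k79 7 (.s k165 k245 11 (.s k154 k176 6 (.s k48 k101 14 (.s k26 k37 6 (.d k90
  k240 k218 14 7))))))), (.s k69 k138 10 (.s k79 k143 7 (.s k101 k117 3 (.s k90 k112 6 (.s k80 k95 2
  (.d k240 k160 k165 11 14)))))), (.s k5 k10 2 (.s k69 k138 10 (.s k101 k117 3 (.s k48 k154 14 (.s
  k37 k26 6 (.d k165 k229 k245 7 11))))))] .n)

def s2_255_224 : T TT 256 :=
  (.q k4 [(.s k5 k10 2 (.s k6 k7 0 (.s k12 k8 1 (.s k13 k14 0 (.d k9 k1 k3 1 2))))), (.s k12 k8 1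
  (.s k14 k13 0 (.s k166 k247 12 (.s k90 k242 13 (.s k80 k95 2 (.d k240 k160 k165 11 14)))))), (.s
  k5 k10 2 (.s k165 k245 11 (.s k166 k247 12 (.s k164 k167 0 (.s k244 k84 11 (.d k7 k6 k86 0
  12))))))] (.c k14 (.l (.s k12 k8 1 (.s k166 k247 12 (.s k243 k89 14 (.s k167 k91 13 (.s k165 k164
  0 (.d k5 k10 k245 2 11))))))) .n))

def s2_255_225 : T TT 256 :=
  (.q k4 [(.s k5 k10 2 (.s k6 k7 0 (.s k12 k8 1 (.s k13 k14 0 (.d k9 k1 k3 1 2))))), (.s k12 k8 1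
  (.s k14 k13 0 (.s k166 k247 12 (.s k90 k242 13 (.s k80 k95 2 (.d k240 k160 k165 11 14)))))), (.s
  k5 k10 2 (.s k165 k245 11 (.s k166 k247 12 (.s k164 k167 0 (.s k244 k84 11 (.d k7 k6 k86 0
  12))))))] (.c k14 (.l (.s k12 k8 1 (.s k166 k247 12 (.s k243 k89 14 (.s k167 k91 13 (.s k165 k164
  0 (.d k5 k10 k245 2 11))))))) .n))

def s2_255_226 : T TT 256 :=
  (.q k4 [(.s k5 k10 2 (.s k6 k7 0 (.s k12 k8 1 (.s k13 k14 0 (.d k9 k1 k3 1 2))))), (.s k12 k8 1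
  (.s k14 k13 0 (.s k166 k247 12 (.s k90 k242 13 (.s k80 k95 2 (.d k240 k160 k165 11 14)))))), (.s
  k5 k10 2 (.s k165 k245 11 (.s k166 k247 12 (.s k164 k167 0 (.s k244 k84 11 (.d k7 k6 k86 0
  12))))))] (.c k14 (.l (.s k12 k8 1 (.s k166 k247 12 (.s k243 k89 14 (.s k167 k91 13 (.s k165 k164
  0 (.d k5 k10 k245 2 11))))))) .n))

def s2_255_227 : T TT 256 :=
  (.q k4 [(.s k5 k10 2 (.s k6 k7 0 (.s k12 k8 1 (.s k13 k14 0 (.d k9 k1 k3 1 2))))), (.s k12 k8 1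
  (.s k14 k13 0 (.s k166 k247 12 (.s k90 k242 13 (.s k80 k95 2 (.d k240 k160 k165 11 14)))))), (.s
  k5 k10 2 (.s k165 k245 11 (.s k166 k247 12 (.s k164 k167 0 (.s k244 k84 11 (.d k7 k6 k86 0
  12))))))] (.c k14 (.l (.s k12 k8 1 (.s k166 k247 12 (.s k243 k89 14 (.s k167 k91 13 (.s k165 k164
  0 (.d k5 k10 k245 2 11))))))) .n))

def s2_255_228 : T TT 256 :=
  (.q k4 [(.s k5 k10 2 (.s k6 k7 0 (.s k12 k8 1 (.s k13 k14 0 (.d k9 k1 k3 1 2))))), (.s k12 k8 1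
  (.s k14 k13 0 (.s k166 k247 12 (.s k90 k242 13 (.s k80 k95 2 (.d k240 k160 k165 11 14)))))), (.s
  k5 k10 2 (.s k165 k245 11 (.s k166 k247 12 (.s k164 k167 0 (.s k244 k84 11 (.d k7 k6 k86 0
  12))))))] (.c k14 (.l (.s k12 k8 1 (.s k166 k247 12 (.s k243 k89 14 (.s k167 k91 13 (.s k165 k164
  0 (.d k5 k10 k245 2 11))))))) .n))

def s2_255_229 : T TT 256 :=
  (.q k4 [(.s k5 k10 2 (.s k6 k7 0 (.s k12 k8 1 (.s k13 k14 0 (.d k9 k1 k3 1 2))))), (.s k12 k8 1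
  (.s k14 k13 0 (.s k166 k247 12 (.s k90 k242 13 (.s k80 k95 2 (.d k240 k160 k165 11 14)))))), (.s
  k5 k10 2 (.s k165 k245 11 (.s k166 k247 12 (.s k164 k167 0 (.s k244 k84 11 (.d k7 k6 k86 0
  12))))))] (.c k14 (.l (.s k12 k8 1 (.s k166 k247 12 (.s k243 k89 14 (.s k167 k91 13 (.s k165 k164
  0 (.d k5 k10 k245 2 11))))))) .n))

def s2_255_230 : T TT 256 :=
  (.q k4 [(.s k5 k10 2 (.s k6 k7 0 (.s k12 k8 1 (.s k13 k14 0 (.d k9 k1 k3 1 2))))), (.s k12 k8 1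
  (.s k14 k13 0 (.s k166 k247 12 (.s k90 k242 13 (.s k80 k95 2 (.d k240 k160 k165 11 14)))))), (.s
  k5 k10 2 (.s k165 k245 11 (.s k166 k247 12 (.s k164 k167 0 (.s k244 k84 11 (.d k7 k6 k86 0
  12))))))] (.c k14 (.l (.s k12 k8 1 (.s k166 k247 12 (.s k243 k89 14 (.s k167 k91 13 (.s k165 k164
  0 (.d k5 k10 k245 2 11))))))) .n))

def s2_255_231 : T TT 256 :=
  (.q k4 [(.s k5 k10 2 (.s k6 k7 0 (.s k12 k8 1 (.s k13 k14 0 (.d k9 k1 k3 1 2))))), (.s k12 k8 1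
  (.s k14 k13 0 (.s k166 k247 12 (.s k90 k242 13 (.s k80 k95 2 (.d k240 k160 k165 11 14)))))), (.s
  k5 k10 2 (.s k165 k245 11 (.s k166 k247 12 (.s k164 k167 0 (.s k244 k84 11 (.d k7 k6 k86 0
  12))))))] (.c k14 (.l (.s k12 k8 1 (.s k166 k247 12 (.s k243 k89 14 (.s k167 k91 13 (.s k165 k164
  0 (.d k5 k10 k245 2 11))))))) .n))

def s2_255_232 : T TT 256 :=
  (.q k4 [(.s k5 k10 2 (.s k6 k7 0 (.s k12 k8 1 (.s k13 k14 0 (.d k9 k1 k3 1 2))))), (.s k12 k8 1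
  (.s k14 k13 0 (.s k166 k247 12 (.s k90 k242 13 (.s k80 k95 2 (.d k240 k160 k165 11 14)))))), (.s
  k5 k10 2 (.s k165 k245 11 (.s k166 k247 12 (.s k164 k167 0 (.s k244 k84 11 (.d k7 k6 k86 0
  12))))))] (.c k14 (.l (.s k12 k8 1 (.s k166 k247 12 (.s k243 k89 14 (.s k167 k91 13 (.s k165 k164
  0 (.d k5 k10 k245 2 11))))))) .n))

def s2_255_233 : T TT 256 :=
  (.q k4 [(.s k5 k10 2 (.s k6 k7 0 (.s k12 k8 1 (.s k13 k14 0 (.d k9 k1 k3 1 2))))), (.s k12 k8 1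
  (.s k14 k13 0 (.s k166 k247 12 (.s k90 k242 13 (.s k80 k95 2 (.d k240 k160 k165 11 14)))))), (.s
  k5 k10 2 (.s k165 k245 11 (.s k166 k247 12 (.s k164 k167 0 (.s k244 k84 11 (.d k7 k6 k86 0
  12))))))] (.c k14 (.l (.s k12 k8 1 (.s k166 k247 12 (.s k243 k89 14 (.s k167 k91 13 (.s k165 k164
  0 (.d k5 k10 k245 2 11))))))) .n))

def s2_255_234 : T TT 256 :=
  (.q k192 [(.s k10 k5 2 (.s k64 k128 7 (.s k74 k133 10 (.s k69 k79 2 (.d k138 k202 k207 7 10))))),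
  (.s k5 k10 2 (.s k64 k128 7 (.s k106 k127 6 (.s k63 k149 14 (.s k47 k31 3 (.d k165 k224 k245 10
  11)))))), (.s k64 k128 7 (.s k74 k133 10 (.s k106 k127 6 (.s k90 k122 3 (.s k80 k95 2 (.d k240
  k160 k165 11 14)))))), (.s k5 k10 2 (.s k133 k74 10 (.s k165 k245 11 (.s k149 k181 3 (.s k21 k213
  7 (.d k63 k42 k106 6 14))))))] .n)

def s2_255_235 : T TT 256 :=
  (.q k195 [(.s k65 k130 8 (.s k75 k135 9 (.s k105 k125 5 (.s k90 k120 4 (.s k80 k95 2 (.d k240 k160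
  k165 11 14)))))), (.s k5 k10 2 (.s k135 k75 9 (.s k165 k245 11 (.s k150 k180 4 (.s k20 k215 8 (.d
  k60 k40 k105 5 14)))))), (.s k5 k10 2 (.s k65 k130 8 (.s k165 k245 11 (.s k240 k90 14 (.s k225
  k210 4 (.d k105 k125 k45 5 9))))))] (.c k105 (.f k5 k10 2 (.l (.s k130 k65 8 (.s k135 k75 9 (.s
  k165 k245 11 (.s k150 k180 4 (.s k170 k190 5 (.s k160 k175 2 (.d k240 k90 k80 14 11))))))))) (.c
  k165 (.q k8 [(.s k12 k4 1 (.s k65 k130 8 (.s k73 k134 10 (.s k69 k77 1 (.d k138 k203 k207 8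
  10))))), (.s k10 k5 2 (.s k11 k9 0 (.s k3 k7 1 (.s k67 k131 7 (.s k75 k135 9 (.s k71 k79 1 (.d
  k139 k203 k207 7 9))))))), (.s k10 k5 2 (.s k11 k9 0 (.s k12 k4 1 (.s k75 k135 9 (.s k203 k139 7
  (.d k73 k138 k134 8 10))))))] (.c k4 (.l (.s k10 k5 2 (.s k11 k9 0 (.s k75 k135 9 (.s k203 k139 7
  (.s k138 k73 8 (.d k207 k199 k69 1 10))))))) (.c k203 (.l (.s k12 k4 1 (.s k13 k14 0 (.s k73 k134
  10 (.s k75 k135 9 (.s k74 k72 0 (.d k133 k193 k192 9 10))))))) .n))) (.c k240 (.l (.s k5 k10 2 (.s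
  k65 k130 8 (.s k105 k125 5 (.s k60 k150 14 (.s k45 k30 4 (.d k165 k225 k245 9 11))))))) .n))))

def s2_255_236 : T TT 256 :=
  (.q k4 [(.s k5 k10 2 (.s k6 k7 0 (.s k12 k8 1 (.s k13 k14 0 (.d k9 k1 k3 1 2))))), (.s k12 k8 1
  (.s k14 k13 0 (.s k166 k247 12 (.s k90 k242 13 (.s k80 k95 2 (.d k240 k160 k165 11 14)))))), (.s
  k5 k10 2 (.s k165 k245 11 (.s k166 k247 12 (.s k164 k167 0 (.s k244 k84 11 (.d k7 k6 k86 0
  12))))))] (.c k14 (.l (.s k12 k8 1 (.s k166 k247 12 (.s k243 k89 14 (.s k167 k91 13 (.s k165 k164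
  0 (.d k5 k10 k245 2 11))))))) .n))

def s2_255_237 : T TT 256 :=
  (.q k4 [(.s k5 k10 2 (.s k6 k7 0 (.s k12 k8 1 (.s k13 k14 0 (.d k9 k1 k3 1 2))))), (.s k12 k8 1
  (.s k14 k13 0 (.s k166 k247 12 (.s k90 k242 13 (.s k80 k95 2 (.d k240 k160 k165 11 14)))))), (.s
  k5 k10 2 (.s k165 k245 11 (.s k166 k247 12 (.s k164 k167 0 (.s k244 k84 11 (.d k7 k6 k86 0
  12))))))] (.c k14 (.l (.s k12 k8 1 (.s k166 k247 12 (.s k243 k89 14 (.s k167 k91 13 (.s k165 k164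
  0 (.d k5 k10 k245 2 11))))))) .n))

def s2_255_238 : T TT 256 :=
  (.q k4 [(.s k5 k10 2 (.s k6 k7 0 (.s k12 k8 1 (.s k13 k14 0 (.d k9 k1 k3 1 2))))), (.s k12 k8 1
  (.s k14 k13 0 (.s k166 k247 12 (.s k90 k242 13 (.s k80 k95 2 (.d k240 k160 k165 11 14)))))), (.s
  k5 k10 2 (.s k165 k245 11 (.s k166 k247 12 (.s k164 k167 0 (.s k244 k84 11 (.d k7 k6 k86 0
  12))))))] (.c k14 (.l (.s k12 k8 1 (.s k166 k247 12 (.s k243 k89 14 (.s k167 k91 13 (.s k165 k164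
  0 (.d k5 k10 k245 2 11))))))) (.c k204 (.q k221 [(.s k5 k10 2 (.s k6 k7 0 (.s k12 k8 1 (.s k13 k14
  0 (.d k9 k1 k3 1 2))))), (.s k12 k8 1 (.s k14 k13 0 (.s k166 k247 12 (.s k90 k242 13 (.s k80 k95 2
  (.d k240 k160 k165 11 14)))))), (.s k5 k10 2 (.s k165 k245 11 (.s k166 k247 12 (.s k164 k167 0 (.s
  k244 k84 11 (.d k7 k6 k86 0 12))))))] (.c k14 (.l (.s k12 k8 1 (.s k166 k247 12 (.s k243 k89 14
  (.s k167 k91 13 (.s k165 k164 0 (.d k5 k10 k245 2 11))))))) .n)) (.c k221 (.q k204 [(.s k5 k10 2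
  (.s k6 k7 0 (.s k12 k8 1 (.s k13 k14 0 (.d k9 k1 k3 1 2))))), (.s k12 k8 1 (.s k68 k136 9 (.s k76
  k140 7 (.s k72 k64 1 (.d k132 k196 k192 7 9))))), (.s k5 k10 2 (.s k68 k136 9 (.s k78 k141 8 (.s
  k102 k119 4 (.s k90 k114 5 (.d k165 k245 k240 11 14))))))] .n) .n))))

def s2_255_239 : T TT 256 :=
  (.q k207 [(.s k10 k5 2 (.s k143 k79 7 (.s k138 k69 10 (.s k133 k128 2 (.d k74 k202 k192 7 10))))),
  (.s k5 k10 2 (.s k143 k79 7 (.s k165 k245 11 (.s k154 k176 6 (.s k16 k223 10 (.d k48 k32 k101 3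
  14)))))), (.s k69 k138 10 (.s k79 k143 7 (.s k101 k117 3 (.s k90 k112 6 (.s k80 k95 2 (.d k240
  k160 k165 11 14)))))), (.s k5 k10 2 (.s k69 k138 10 (.s k101 k117 3 (.s k48 k154 14 (.s k37 k26 6
  (.d k165 k229 k245 7 11))))))] .n)

def s2_255_240 : T TT 256 :=
  (.f k5 k10 2 (.f k245 k165 11 (.q k69 [(.s k101 k117 3 (.s k197 k133 7 (.s k149 k53 11 (.d k213
  k229 k21 3 7)))), (.s k133 k197 7 (.s k74 k192 10 (.s k79 k64 2 (.d k207 k143 k138 7 10)))), (.s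
  k101 k117 3 (.s k207 k138 10 (.s k48 k154 14 (.s k32 k16 3 (.s k37 k26 6 (.s k21 k53 3 (.d k42 k47
  k63 2 6)))))))] (.c k6 (.q k14 [(.s k101 k117 3 (.s k197 k133 7 (.s k149 k53 11 (.d k213 k229 k21
  3 7)))), (.s k12 k13 0 (.s k4 k8 1 (.s k134 k199 8 (.s k73 k195 10 (.s k77 k65 1 (.d k207 k142
  k138 8 10))))))] .n) (.c k14 (.q k6 [(.s k101 k117 3 (.s k197 k133 7 (.s k149 k53 11 (.d k213 k229
  k21 3 7)))), (.s k4 k7 0 (.s k12 k8 1 (.s k134 k199 8 (.s k73 k195 10 (.s k77 k65 1 (.d k207 k142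
  k138 8 10))))))] .n) .n)))))

def s2_255_241 : T TT 256 :=
  (.q k4 [(.s k5 k10 2 (.s k6 k7 0 (.s k12 k8 1 (.s k13 k14 0 (.d k9 k1 k3 1 2))))), (.s k12 k8 1
  (.s k14 k13 0 (.s k166 k247 12 (.s k90 k242 13 (.s k80 k95 2 (.d k240 k165 k160 14 11)))))), (.s
  k5 k10 2 (.s k165 k245 11 (.s k166 k247 12 (.s k164 k167 0 (.s k244 k84 11 (.d k7 k6 k86 0
  12))))))] (.c k14 (.l (.s k12 k8 1 (.s k166 k247 12 (.s k243 k89 14 (.s k167 k91 13 (.s k165 k164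
  0 (.d k5 k10 k245 2 11))))))) .n))

def s2_255_242 : T TT 256 :=
  (.q k63 [(.s k10 k5 2 (.s k47 k31 3 (.s k42 k21 6 (.s k37 k32 2 (.d k26 k58 k48 3 6))))), (.s k5
  k10 2 (.s k47 k31 3 (.s k165 k245 11 (.s k106 k224 10 (.s k64 k127 6 (.d k192 k128 k149 7
  14)))))), (.s k21 k42 6 (.s k31 k47 3 (.s k149 k213 7 (.s k90 k208 10 (.s k80 k95 2 (.d k240 k160
  k165 11 14)))))), (.s k5 k10 2 (.s k21 k42 6 (.s k149 k213 7 (.s k165 k245 11 (.s k133 k181 3 (.d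
  k192 k74 k106 10 14))))))] (.c k82 (.q k162 [(.s k10 k5 2 (.s k47 k31 3 (.s k42 k21 6 (.s k37 k32
  2 (.d k26 k58 k48 3 6))))), (.s k5 k10 2 (.s k47 k31 3 (.s k165 k245 11 (.s k106 k224 10 (.s k64
  k127 6 (.d k192 k128 k149 7 14)))))), (.s k21 k42 6 (.s k31 k47 3 (.s k149 k213 7 (.s k90 k208 10
  (.s k80 k95 2 (.d k240 k160 k165 11 14)))))), (.s k5 k10 2 (.s k21 k42 6 (.s k149 k213 7 (.s k165
  k245 11 (.s k133 k181 3 (.d k192 k74 k106 10 14))))))] .n) (.c k162 (.q k82 [(.s k10 k5 2 (.s k42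
  k21 6 (.s k26 k58 3 (.s k37 k48 6 (.d k47 k32 k31 2 3))))), (.s k5 k10 2 (.s k47 k31 3 (.s k165
  k245 11 (.s k106 k224 10 (.s k64 k127 6 (.d k192 k128 k149 7 14)))))), (.s k21 k42 6 (.s k31 k47 3
  (.s k149 k213 7 (.s k90 k208 10 (.s k80 k95 2 (.d k240 k160 k165 11 14)))))), (.s k5 k10 2 (.s k21
  k42 6 (.s k149 k213 7 (.s k165 k245 11 (.s k133 k181 3 (.d k192 k74 k106 10 14))))))] .n) .n)))

def s2_255_243 : T TT 256 :=
  (.q k149 [(.s k5 k10 2 (.s k21 k213 7 (.s k53 k37 3 (.s k101 k197 11 (.s k117 k69 3 (.d k245 k181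
  k165 7 11)))))), (.s k21 k213 7 (.s k63 k42 6 (.s k31 k47 3 (.s k90 k208 10 (.s k80 k95 2 (.d k240
  k160 k165 11 14)))))), (.s k5 k10 2 (.s k165 k245 11 (.s k133 k181 3 (.s k192 k74 10 (.s k64 k128
  7 (.d k106 k127 k63 6 14))))))] (.c k165 (.l (.s k5 k10 2 (.s k21 k213 7 (.s k37 k53 3 (.s k26 k48
  6 (.s k31 k16 2 (.d k63 k47 k42 3 6))))))) (.c k192 (.l (.s k5 k10 2 (.s k165 k245 11 (.s k133
  k181 3 (.s k197 k69 7 (.s k53 k101 11 (.d k21 k37 k213 3 7))))))) (.c k247 (.q k251 [(.s k5 k10 2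
  (.s k21 k213 7 (.s k53 k37 3 (.s k101 k197 11 (.s k117 k69 3 (.d k245 k181 k165 7 11)))))), (.s
  k21 k213 7 (.s k63 k42 6 (.s k31 k47 3 (.s k90 k208 10 (.s k80 k95 2 (.d k240 k160 k165 11
  14)))))), (.s k5 k10 2 (.s k165 k245 11 (.s k133 k181 3 (.s k192 k74 10 (.s k64 k128 7 (.d k106
  k127 k63 6 14))))))] (.c k165 (.l (.s k5 k10 2 (.s k21 k213 7 (.s k37 k53 3 (.s k26 k48 6 (.s k31
  k16 2 (.d k63 k47 k42 3 6))))))) (.c k192 (.l (.s k5 k10 2 (.s k165 k245 11 (.s k133 k181 3 (.s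
  k197 k69 7 (.s k53 k101 11 (.d k21 k37 k213 3 7))))))) .n))) (.c k251 (.q k247 [(.s k166 k4 12 (.s
  k183 k132 4 (.s k55 k119 7 (.s k196 k102 12 (.d k213 k230 k21 4 7))))), (.s k5 k10 2 (.s k21 k213
  7 (.s k37 k53 3 (.s k26 k48 6 (.s k31 k16 2 (.d k63 k47 k42 3 6)))))), (.s k4 k166 12 (.s k5 k10 2
  (.s k6 k7 0 (.s k12 k8 1 (.s k9 k3 2 (.d k13 k14 k1 0 1))))))] .n) .n)))))

def s2_255_244 : T TT 256 :=
  (.q k21 [(.s k10 k5 2 (.s k42 k63 6 (.s k26 k58 3 (.s k16 k31 2 (.d k48 k32 k37 3 6))))), (.s k5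
  k10 2 (.s k53 k37 3 (.s k149 k213 7 (.s k101 k197 11 (.s k117 k69 3 (.d k245 k181 k165 7 11)))))),
  (.s k63 k42 6 (.s k31 k47 3 (.s k149 k213 7 (.s k90 k208 10 (.s k80 k95 2 (.d k240 k160 k165 11
  14))))))] (.c k37 (.l (.s k5 k10 2 (.s k63 k42 6 (.s k47 k31 3 (.s k149 k213 7 (.s k165 k245 11
  (.d k106 k192 k224 14 10))))))) .n))

def s2_255_245 : T TT 256 :=
  (.f k10 k5 2 (.q k21 [(.s k42 k63 6 (.s k26 k58 3 (.s k16 k31 2 (.d k48 k32 k37 3 6)))), (.s k63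
  k42 6 (.s k149 k213 7 (.s k192 k106 14 (.s k64 k128 7 (.s k74 k133 10 (.s k69 k79 2 (.d k138 k202
  k207 7 10)))))))] (.c k42 (.q k90 [(.s k80 k95 2 (.d k240 k160 k165 11 14)), (.s k149 k213 7 (.s
  k31 k208 10 (.s k63 k47 3 (.s k192 k106 14 (.s k128 k64 7 (.d k170 k250 k191 11 6))))))] (.c k22
  (.q k62 [(.s k80 k95 2 (.d k240 k160 k165 11 14)), (.s k149 k213 7 (.s k31 k208 10 (.s k63 k47 3
  (.s k192 k106 14 (.s k128 k64 7 (.d k170 k250 k191 11 6))))))] (.c k165 (.l (.s k95 k80 2 (.s k149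
  k213 7 (.s k31 k208 10 (.s k16 k26 2 (.d k223 k159 k154 7 10)))))) (.c k240 (.l (.s k250 k170 11
  (.s k95 k80 2 (.s k149 k213 7 (.s k31 k208 10 (.s k16 k26 2 (.d k223 k159 k154 7 10))))))) (.c
  k250 (.l (.s k240 k165 14 (.d k80 k95 k160 2 11))) .n)))) (.c k62 (.q k22 [(.s k80 k95 2 (.d k240
  k160 k165 11 14)), (.s k20 k23 0 (.s k60 k40 5 (.s k30 k45 4 (.d k150 k215 k210 8 9))))] (.c k240
  (.l (.s k250 k170 11 (.s k20 k23 0 (.s k60 k40 5 (.s k30 k45 4 (.d k150 k215 k210 8 9)))))) (.c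
  k250 (.l (.s k240 k165 14 (.d k80 k95 k160 2 11))) .n))) (.c k165 (.l (.s k95 k80 2 (.s k149 k213
  7 (.s k31 k208 10 (.s k16 k26 2 (.d k223 k159 k154 7 10)))))) (.c k240 (.l (.s k250 k170 11 (.s
  k95 k80 2 (.s k149 k213 7 (.s k31 k208 10 (.s k16 k26 2 (.d k223 k159 k154 7 10))))))) (.c k250
  (.l (.s k240 k165 14 (.d k80 k95 k160 2 11))) .n)))))) (.c k63 (.q k90 [(.s k80 k95 2 (.d k240
  k160 k165 11 14)), (.s k149 k213 7 (.s k170 k250 11 (.s k240 k165 14 (.s k208 k31 10 (.s k192 k224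
  3 (.d k128 k191 k64 6 7))))))] (.c k127 (.q k191 [(.s k240 k165 14 (.d k80 k95 k160 2 11)), (.s
  k149 k213 7 (.d k170 k250 k128 11 6))] (.c k240 (.l (.s k250 k170 11 (.s k95 k80 2 (.s k149 k213 7
  (.s k31 k208 10 (.s k16 k26 2 (.d k223 k159 k154 7 10))))))) (.c k250 (.l (.s k240 k165 14 (.d k80
  k95 k160 2 11))) .n))) (.c k165 (.l (.s k95 k80 2 (.s k149 k213 7 (.s k31 k208 10 (.s k16 k26 2
  (.d k223 k159 k154 7 10)))))) (.c k191 (.q k127 [(.s k80 k95 2 (.d k240 k160 k165 11 14)), (.s k64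
  k106 6 (.s k149 k213 7 (.s k192 k128 7 (.s k133 k74 10 (.d k165 k240 k181 14 3)))))] (.c k165 (.l
  (.s k64 k106 6 (.s k80 k95 2 (.s k112 k96 3 (.s k101 k79 6 (.d k117 k122 k69 2 3)))))) (.c k240
  (.l (.s k250 k170 11 (.s k64 k106 6 (.s k80 k95 2 (.s k112 k96 3 (.s k101 k79 6 (.d k117 k122 k69
  2 3))))))) (.c k250 (.l (.s k240 k165 14 (.d k80 k95 k160 2 11))) .n)))) (.c k240 (.l (.s k250
  k170 11 (.s k95 k80 2 (.s k149 k213 7 (.s k31 k208 10 (.s k16 k26 2 (.d k223 k159 k154 7 10)))))))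
  (.c k250 (.l (.s k240 k165 14 (.d k80 k95 k160 2 11))) .n)))))) (.c k240 (.q k250 [(.s k42 k63 6
  (.s k26 k58 3 (.s k16 k31 2 (.d k48 k32 k37 3 6)))), (.s k63 k42 6 (.s k149 k213 7 (.s k170 k90 11
  (.s k128 k191 6 (.d k192 k64 k106 7 14))))), (.s k90 k170 11 (.s k95 k80 2 (.s k149 k213 7 (.s k31
  k208 10 (.s k16 k26 2 (.d k223 k159 k154 7 10))))))] .n) (.c k250 (.q k240 [(.s k80 k160 11 (.d
  k90 k95 k165 2 14)), (.s k42 k63 6 (.s k26 k58 3 (.s k16 k31 2 (.d k48 k32 k37 3 6))))] .n)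
  .n))))))

def s2_255_246 : T TT 256 :=
  (.q k12 [(.s k4 k8 1 (.s k5 k10 2 (.s k6 k7 0 (.s k13 k14 0 (.d k9 k1 k3 1 2))))), (.s k4 k8 1 (.s
  k14 k13 0 (.s k166 k247 12 (.s k90 k242 13 (.s k80 k95 2 (.d k240 k160 k165 11 14)))))), (.s k5
  k10 2 (.s k165 k245 11 (.s k240 k90 14 (.s k164 k88 13 (.s k166 k167 0 (.s k89 k243 14 (.d k13 k14
  k241 0 13))))))), (.s k4 k8 1 (.s k166 k247 12 (.s k243 k89 14 (.s k167 k91 13 (.s k165 k164 0 (.d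
  k5 k245 k10 11 2))))))] .n)

def s2_255_247 : T TT 256 :=
  (.f k5 k10 2 (.q k243 [(.s k165 k245 11 (.s k167 k91 13 (.s k166 k164 0 (.s k12 k89 14 (.s k14 k13
  0 (.d k90 k240 k242 14 13)))))), (.s k81 k162 12 (.s k89 k93 1 (.s k12 k166 14 (.s k4 k8 1 (.s k6
  k7 0 (.s k9 k3 2 (.d k13 k14 k1 0 1))))))), (.s k81 k162 12 (.s k165 k245 11 (.s k240 k90 14 (.s
  k80 k160 11 (.s k82 k83 0 (.s k161 k3 12 (.d k241 k242 k1 0 11)))))))] (.c k6 (.q k14 [(.s k12 k13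
  0 (.s k81 k162 12 (.d k89 k93 k166 1 14))), (.s k165 k245 11 (.s k167 k91 13 (.s k166 k164 0 (.d
  k90 k240 k242 14 13))))] (.c k166 (.l (.s k13 k12 0 (.s k81 k162 12 (.s k165 k245 11 (.d k89 k93
  k241 1 13))))) (.c k242 (.l (.s k12 k13 0 (.s k89 k166 14 (.d k81 k93 k162 1 12)))) .n))) (.c k14
  (.q k6 [(.s k4 k7 0 (.s k81 k162 12 (.s k89 k93 1 (.d k12 k8 k166 1 14)))), (.s k7 k4 0 (.s k165
  k245 11 (.s k167 k91 13 (.s k166 k164 0 (.d k86 k246 k244 11 12))))), (.s k81 k162 12 (.s k89 k93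
  1 (.s k91 k167 13 (.s k90 k88 0 (.d k165 k245 k240 11 14)))))] (.c k7 (.l (.s k81 k162 12 (.s k89
  k93 1 (.s k165 k245 11 (.s k167 k91 13 (.d k166 k12 k164 14 0)))))) (.c k167 (.l (.s k81 k162 12
  (.s k89 k93 1 (.s k12 k166 14 (.d k4 k7 k8 0 1))))) .n))) (.c k242 (.l (.s k165 k245 11 (.s k167
  k91 13 (.s k166 k164 0 (.s k89 k12 14 (.d k81 k93 k162 1 12)))))) .n)))))

def s2_255_248 : T TT 256 :=
  (.q k4 [(.s k5 k10 2 (.s k6 k7 0 (.s k12 k8 1 (.s k13 k14 0 (.d k9 k1 k3 1 2))))), (.s k5 k10 2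
  (.s k165 k245 11 (.s k166 k247 12 (.s k164 k167 0 (.s k244 k84 11 (.d k7 k6 k86 0 12)))))), (.s
  k12 k8 1 (.s k14 k13 0 (.s k166 k247 12 (.s k90 k242 13 (.s k80 k95 2 (.d k240 k160 k165 11
  14))))))] (.c k14 (.l (.s k12 k8 1 (.s k166 k247 12 (.s k243 k89 14 (.s k167 k91 13 (.s k165 k164
  0 (.d k5 k10 k245 2 11))))))) .n))

def s2_255_249 : T TT 256 :=
  (.q k4 [(.s k5 k10 2 (.s k6 k7 0 (.s k12 k8 1 (.s k13 k14 0 (.d k9 k1 k3 1 2))))), (.s k12 k8 1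
  (.s k14 k13 0 (.s k166 k247 12 (.s k90 k242 13 (.s k80 k95 2 (.d k240 k160 k165 11 14)))))), (.s
  k5 k10 2 (.s k165 k245 11 (.s k166 k247 12 (.s k164 k167 0 (.s k244 k84 11 (.d k7 k6 k86 0
  12))))))] (.c k14 (.l (.s k12 k8 1 (.s k166 k247 12 (.s k243 k89 14 (.s k167 k91 13 (.s k165 k164
  0 (.d k5 k10 k245 2 11))))))) .n))

def s2_255_250 : T TT 256 :=
  (.q k69 [(.s k10 k5 2 (.s k138 k207 10 (.s k74 k202 7 (.s k64 k79 2 (.d k192 k128 k133 7 10))))),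
  (.s k5 k10 2 (.s k101 k117 3 (.s k197 k133 7 (.s k53 k149 11 (.s k37 k21 3 (.d k165 k245 k229 11
  7)))))), (.s k101 k117 3 (.s k207 k138 10 (.s k79 k143 7 (.s k90 k112 6 (.s k80 k95 2 (.d k240
  k160 k165 11 14))))))] (.c k133 (.l (.s k5 k10 2 (.s k101 k117 3 (.s k207 k138 10 (.s k48 k154 14
  (.s k37 k26 6 (.d k165 k229 k245 7 11))))))) (.c k240 (.q k245 [(.d k5 k10 k165 2 11), (.s k101
  k117 3 (.s k207 k138 10 (.s k79 k143 7 (.s k64 k74 2 (.s k90 k112 6 (.s k95 k80 2 (.d k127 k111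
  k106 3 6)))))))] (.c k10 (.l (.s k5 k165 11 (.s k101 k117 3 (.s k197 k133 7 (.s k149 k53 11 (.d
  k213 k229 k21 3 7)))))) .n)) (.c k245 (.q k240 [(.s k80 k160 11 (.d k90 k95 k165 2 14)), (.s k10
  k5 2 (.s k138 k207 10 (.s k74 k202 7 (.s k64 k79 2 (.d k192 k128 k133 7 10)))))] .n) .n))))

def s2_255_251 : T TT 256 :=
  (.f k5 k10 2 (.q k243 [(.s k165 k245 11 (.s k240 k90 14 (.s k241 k242 0 (.s k89 k13 13 (.d k81
  k162 k93 12 1))))), (.s k165 k245 11 (.s k167 k91 13 (.s k166 k164 0 (.s k4 k247 12 (.d k12 k8 k89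
  1 14))))), (.s k81 k162 12 (.s k89 k93 1 (.s k12 k166 14 (.s k4 k8 1 (.s k6 k7 0 (.s k9 k3 2 (.d
  k13 k14 k1 0 1))))))), (.s k81 k162 12 (.s k165 k245 11 (.s k240 k90 14 (.s k80 k160 11 (.s k82
  k83 0 (.s k161 k3 12 (.d k241 k242 k1 0 11)))))))] (.c k6 (.q k14 [(.s k12 k13 0 (.s k81 k162 12
  (.d k89 k93 k166 1 14))), (.s k165 k245 11 (.s k167 k91 13 (.s k166 k164 0 (.d k90 k240 k242 14
  13))))] (.c k166 (.l (.s k13 k12 0 (.s k81 k162 12 (.s k165 k245 11 (.d k89 k93 k241 1 13))))) (.c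
  k242 (.l (.s k12 k13 0 (.s k4 k8 1 (.d k166 k89 k247 14 12)))) .n))) (.c k14 (.q k6 [(.s k4 k7 0
  (.s k166 k247 12 (.d k12 k8 k89 1 14))), (.s k81 k162 12 (.s k89 k93 1 (.s k91 k167 13 (.s k90 k88
  0 (.d k165 k245 k240 11 14))))), (.s k4 k7 0 (.s k165 k245 11 (.s k166 k247 12 (.d k167 k164 k91 0
  13))))] (.c k167 (.l (.s k4 k7 0 (.s k12 k8 1 (.d k166 k247 k89 12 14)))) .n)) .n))))

def s2_255_252 : T TT 256 :=
  (.q k4 [(.s k5 k10 2 (.s k6 k7 0 (.s k12 k8 1 (.s k13 k14 0 (.d k9 k1 k3 1 2))))), (.s k12 k8 1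
  (.s k14 k13 0 (.s k166 k247 12 (.s k90 k242 13 (.s k80 k95 2 (.d k240 k160 k165 11 14)))))), (.s
  k5 k10 2 (.s k165 k245 11 (.s k166 k247 12 (.s k164 k167 0 (.s k244 k84 11 (.d k7 k6 k86 0
  12))))))] (.c k14 (.l (.s k12 k8 1 (.s k166 k247 12 (.s k243 k89 14 (.s k167 k91 13 (.s k165 k164
  0 (.d k5 k10 k245 2 11))))))) (.c k253 (.q k254 [(.s k5 k10 2 (.s k6 k7 0 (.s k12 k8 1 (.s k13 k14
  0 (.d k9 k1 k3 1 2))))), (.s k12 k8 1 (.s k14 k13 0 (.s k166 k247 12 (.s k90 k242 13 (.s k80 k95 2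
  (.d k240 k160 k165 11 14)))))), (.s k5 k10 2 (.s k165 k245 11 (.s k166 k247 12 (.s k164 k167 0 (.s
  k244 k84 11 (.d k7 k6 k86 0 12))))))] (.c k14 (.l (.s k12 k8 1 (.s k166 k247 12 (.s k243 k89 14
  (.s k167 k91 13 (.s k165 k164 0 (.d k5 k10 k245 2 11))))))) .n)) (.c k254 (.q k253 [(.s k1 k169 13
  (.s k5 k10 2 (.s k12 k8 1 (.d k13 k14 k9 0 1)))), (.s k5 k10 2 (.s k165 k245 11 (.s k166 k247 12
  (.s k164 k167 0 (.s k244 k84 11 (.d k7 k6 k86 0 12)))))), (.s k12 k8 1 (.s k14 k13 0 (.s k166 k247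
  12 (.s k90 k242 13 (.s k80 k95 2 (.d k240 k160 k165 11 14))))))] (.c k14 (.l (.s k1 k169 13 (.s k5
  k10 2 (.s k6 k7 0 (.s k9 k13 1 (.d k12 k3 k8 2 1)))))) (.c k86 (.q k170 [(.s k5 k10 2 (.s k165
  k245 11 (.s k160 k175 2 (.d k240 k80 k90 11 14)))), (.s k12 k8 1 (.s k166 k247 12 (.s k162 k174 1
  (.d k243 k81 k89 12 14))))] (.c k3 (.l (.s k169 k1 13 (.s k5 k10 2 (.s k165 k245 11 (.s k160 k175
  2 (.d k240 k80 k90 11 14)))))) (.c k14 (.l (.s k10 k5 2 (.s k90 k250 11 (.s k80 k95 2 (.d k240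
  k160 k165 11 14))))) (.c k169 (.q k3 [(.s k5 k10 2 (.d k7 k6 k11 0 1)), (.s k12 k8 1 (.s k166 k247
  12 (.s k162 k174 1 (.d k243 k81 k89 12 14))))] (.c k14 (.l (.s k7 k11 1 (.d k5 k6 k10 0 2))) .n))
  .n)))) (.c k170 (.q k86 [(.s k5 k10 2 (.s k6 k7 0 (.d k166 k246 k247 11 12))), (.s k84 k87 0 (.s
  k244 k164 11 (.s k165 k7 12 (.d k5 k10 k245 2 11)))), (.s k12 k8 1 (.s k13 k14 0 (.s k93 k173 11
  (.s k89 k81 1 (.d k166 k247 k243 12 14)))))] (.c k10 (.l (.s k12 k8 1 (.s k166 k247 12 (.s k6 k246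
  11 (.s k7 k5 0 (.d k3 k11 k9 1 2)))))) (.c k247 (.l (.s k5 k10 2 (.s k165 k245 11 (.d k7 k6 k244 0
  12)))) .n))) .n)))) .n))))

def s2_255_253 : T TT 256 :=
  (.q k252 [(.s k84 k168 13 (.s k86 k87 0 (.s k3 k169 14 (.s k7 k11 1 (.s k165 k244 12 (.d k5 k10
  k245 2 11)))))), (.s k84 k168 13 (.s k86 k87 0 (.s k94 k173 12 (.s k90 k82 1 (.s k80 k95 2 (.d
  k240 k160 k165 11 14)))))), (.s k5 k10 2 (.s k165 k245 11 (.s k173 k94 12 (.s k169 k161 1 (.s k3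
  k86 14 (.s k11 k7 1 (.d k90 k240 k248 14 12)))))))] (.c k3 (.l (.s k5 k10 2 (.s k84 k168 13 (.s
  k165 k245 11 (.s k240 k90 14 (.s k244 k248 1 (.d k86 k87 k7 0 12))))))) (.c k86 (.f k5 k10 2 (.l
  (.s k84 k168 13 (.s k165 k245 11 (.s k240 k90 14 (.s k80 k160 11 (.s k88 k92 1 (.s k164 k12 13 (.d
  k244 k248 k4 1 11))))))))) (.c k90 (.l (.s k5 k10 2 (.s k84 k168 13 (.s k86 k87 0 (.s k3 k169 14
  (.s k165 k245 11 (.d k7 k11 k244 1 12))))))) (.c k165 (.q k4 [(.s k12 k8 1 (.s k84 k168 13 (.s k92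
  k172 11 (.s k88 k80 1 (.d k164 k244 k240 11 13))))), (.s k5 k10 2 (.s k6 k7 0 (.s k12 k8 1 (.s k9
  k3 2 (.d k13 k14 k1 0 1))))), (.s k5 k10 2 (.s k6 k7 0 (.s k84 k168 13 (.s k86 k87 0 (.d k166 k247
  k246 12 11)))))] (.c k244 (.l (.s k5 k10 2 (.s k84 k168 13 (.s k6 k7 0 (.s k86 k87 0 (.d k166 k247
  k246 12 11)))))) .n)) .n)))))

def s2_255_254 : T TT 256 :=
  (.q k252 [(.s k84 k168 13 (.s k86 k87 0 (.s k3 k169 14 (.s k7 k11 1 (.s k165 k244 12 (.d k5 k10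
  k245 2 11)))))), (.s k84 k168 13 (.s k86 k87 0 (.s k94 k173 12 (.s k90 k82 1 (.s k80 k95 2 (.d
  k240 k160 k165 11 14)))))), (.s k5 k10 2 (.s k84 k168 13 (.s k165 k245 11 (.s k240 k90 14 (.s k244
  k248 1 (.s k4 k164 11 (.d k7 k6 k86 0 12))))))), (.s k5 k10 2 (.s k165 k245 11 (.s k173 k94 12 (.s
  k169 k161 1 (.s k86 k3 14 (.s k240 k90 14 (.d k244 k248 k7 1 12)))))))] (.c k86 (.q k170 [(.s k5
  k10 2 (.s k165 k245 11 (.s k160 k175 2 (.d k240 k80 k90 11 14)))), (.s k168 k84 13 (.s k169 k171 0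
  (.s k173 k94 12 (.s k165 k161 1 (.s k160 k175 2 (.d k240 k90 k80 14 11)))))), (.s k5 k10 2 (.s
  k165 k245 11 (.s k168 k84 13 (.s k169 k171 0 (.d k173 k161 k94 1 12))))), (.s k10 k5 2 (.s k90
  k250 11 (.s k80 k95 2 (.s k168 k84 13 (.s k169 k171 0 (.s k240 k160 11 (.d k248 k244 k11 1
  12)))))))] (.c k240 (.l (.s k5 k10 2 (.s k168 k84 13 (.s k169 k171 0 (.s k173 k94 12 (.d k165 k161
  k245 1 11)))))) .n)) (.c k90 (.l (.s k5 k10 2 (.s k84 k168 13 (.s k86 k87 0 (.s k3 k169 14 (.s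
  k165 k245 11 (.d k7 k11 k244 1 12))))))) (.c k165 (.f k84 k168 13 (.l (.s k86 k87 0 (.s k94 k173
  12 (.s k90 k82 1 (.s k80 k95 2 (.s k240 k160 11 (.s k248 k244 1 (.d k169 k3 k11 14 12))))))))) (.c
  k170 (.q k86 [(.d k84 k87 k168 0 13), (.s k5 k10 2 (.s k94 k173 12 (.s k90 k82 1 (.d k165 k245
  k240 11 14))))] .n) .n)))))

def t2_255 : T TT 256 :=
  (.q k15 [] (.c k1 s2_255_1 (.c k3 s2_255_3 (.c k4 s2_255_4 (.c k5 s2_255_5 (.c k6 s2_255_6 (.c k7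
  s2_255_7 (.c k8 s2_255_8 (.c k9 s2_255_9 (.c k10 s2_255_10 (.c k11 s2_255_11 (.c k12 s2_255_12 (.c
  k13 s2_255_13 (.c k14 s2_255_14 (.c k16 s2_255_16 (.c k17 s2_255_17 (.c k18 s2_255_18 (.c k19
  s2_255_19 (.c k20 s2_255_20 (.c k21 s2_255_21 (.c k22 s2_255_22 (.c k23 s2_255_23 (.c k24
  s2_255_24 (.c k25 s2_255_25 (.c k26 s2_255_26 (.c k27 s2_255_27 (.c k28 s2_255_28 (.c k29
  s2_255_29 (.c k30 s2_255_30 (.c k31 s2_255_31 (.c k32 s2_255_32 (.c k33 s2_255_33 (.c k34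
  s2_255_34 (.c k35 s2_255_35 (.c k36 s2_255_36 (.c k37 s2_255_37 (.c k38 s2_255_38 (.c k39
  s2_255_39 (.c k40 s2_255_40 (.c k41 s2_255_41 (.c k42 s2_255_42 (.c k43 s2_255_43 (.c k44
  s2_255_44 (.c k45 s2_255_45 (.c k46 s2_255_46 (.c k47 s2_255_47 (.c k48 s2_255_48 (.c k49
  s2_255_49 (.c k50 s2_255_50 (.c k51 s2_255_51 (.c k52 s2_255_52 (.c k53 s2_255_53 (.c k54
  s2_255_54 (.c k55 s2_255_55 (.c k56 s2_255_56 (.c k57 s2_255_57 (.c k58 s2_255_58 (.c k59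
  s2_255_59 (.c k60 s2_255_60 (.c k61 s2_255_61 (.c k62 s2_255_62 (.c k63 s2_255_63 (.c k64
  s2_255_64 (.c k65 s2_255_65 (.c k66 s2_255_66 (.c k67 s2_255_67 (.c k68 s2_255_68 (.c k69
  s2_255_69 (.c k70 s2_255_70 (.c k71 s2_255_71 (.c k72 s2_255_72 (.c k73 s2_255_73 (.c k74
  s2_255_74 (.c k75 s2_255_75 (.c k76 s2_255_76 (.c k77 s2_255_77 (.c k78 s2_255_78 (.c k79
  s2_255_79 (.c k80 s2_255_80 (.c k81 s2_255_81 (.c k82 s2_255_82 (.c k83 s2_255_83 (.c k84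
  s2_255_84 (.c k86 s2_255_86 (.c k87 s2_255_87 (.c k88 s2_255_88 (.c k89 s2_255_89 (.c k90
  s2_255_90 (.c k91 s2_255_91 (.c k92 s2_255_92 (.c k93 s2_255_93 (.c k94 s2_255_94 (.c k95
  s2_255_95 (.c k96 s2_255_96 (.c k97 s2_255_97 (.c k98 s2_255_98 (.c k99 s2_255_99 (.c k100
  s2_255_100 (.c k101 s2_255_101 (.c k102 s2_255_102 (.c k103 s2_255_103 (.c k104 s2_255_104 (.c
  k105 s2_255_105 (.c k106 s2_255_106 (.c k107 s2_255_107 (.c k108 s2_255_108 (.c k109 s2_255_109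
  (.c k110 s2_255_110 (.c k111 s2_255_111 (.c k112 s2_255_112 (.c k113 s2_255_113 (.c k114
  s2_255_114 (.c k115 s2_255_115 (.c k116 s2_255_116 (.c k117 s2_255_117 (.c k118 s2_255_118 (.c
  k119 s2_255_119 (.c k120 s2_255_120 (.c k121 s2_255_121 (.c k122 s2_255_122 (.c k123 s2_255_123
  (.c k124 s2_255_124 (.c k125 s2_255_125 (.c k126 s2_255_126 (.c k127 s2_255_127 (.c k128
  s2_255_128 (.c k129 s2_255_129 (.c k130 s2_255_130 (.c k131 s2_255_131 (.c k132 s2_255_132 (.c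
  k133 s2_255_133 (.c k134 s2_255_134 (.c k135 s2_255_135 (.c k136 s2_255_136 (.c k137 s2_255_137
  (.c k138 s2_255_138 (.c k139 s2_255_139 (.c k140 s2_255_140 (.c k141 s2_255_141 (.c k142
  s2_255_142 (.c k143 s2_255_143 (.c k144 s2_255_144 (.c k145 s2_255_145 (.c k146 s2_255_146 (.c
  k147 s2_255_147 (.c k148 s2_255_148 (.c k149 s2_255_149 (.c k150 s2_255_150 (.c k151 s2_255_151
  (.c k152 s2_255_152 (.c k153 s2_255_153 (.c k154 s2_255_154 (.c k155 s2_255_155 (.c k156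
  s2_255_156 (.c k157 s2_255_157 (.c k158 s2_255_158 (.c k159 s2_255_159 (.c k160 s2_255_160 (.c
  k161 s2_255_161 (.c k162 s2_255_162 (.c k163 s2_255_163 (.c k164 s2_255_164 (.c k165 s2_255_165
  (.c k166 s2_255_166 (.c k167 s2_255_167 (.c k168 s2_255_168 (.c k169 s2_255_169 (.c k170
  s2_255_170 (.c k171 s2_255_171 (.c k172 s2_255_172 (.c k173 s2_255_173 (.c k174 s2_255_174 (.c
  k175 s2_255_175 (.c k176 s2_255_176 (.c k177 s2_255_177 (.c k178 s2_255_178 (.c k179 s2_255_179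
  (.c k180 s2_255_180 (.c k181 s2_255_181 (.c k182 s2_255_182 (.c k183 s2_255_183 (.c k184
  s2_255_184 (.c k185 s2_255_185 (.c k186 s2_255_186 (.c k187 s2_255_187 (.c k188 s2_255_188 (.c
  k189 s2_255_189 (.c k190 s2_255_190 (.c k191 s2_255_191 (.c k192 s2_255_192 (.c k193 s2_255_193
  (.c k194 s2_255_194 (.c k195 s2_255_195 (.c k196 s2_255_196 (.c k197 s2_255_197 (.c k198
  s2_255_198 (.c k199 s2_255_199 (.c k200 s2_255_200 (.c k201 s2_255_201 (.c k202 s2_255_202 (.c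
  k203 s2_255_203 (.c k204 s2_255_204 (.c k205 s2_255_205 (.c k206 s2_255_206 (.c k207 s2_255_207
  (.c k208 s2_255_208 (.c k209 s2_255_209 (.c k210 s2_255_210 (.c k211 s2_255_211 (.c k212
  s2_255_212 (.c k213 s2_255_213 (.c k214 s2_255_214 (.c k215 s2_255_215 (.c k216 s2_255_216 (.c
  k217 s2_255_217 (.c k218 s2_255_218 (.c k219 s2_255_219 (.c k220 s2_255_220 (.c k221 s2_255_221
  (.c k222 s2_255_222 (.c k223 s2_255_223 (.c k224 s2_255_224 (.c k225 s2_255_225 (.c k226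
  s2_255_226 (.c k227 s2_255_227 (.c k228 s2_255_228 (.c k229 s2_255_229 (.c k230 s2_255_230 (.c
  k231 s2_255_231 (.c k232 s2_255_232 (.c k233 s2_255_233 (.c k234 s2_255_234 (.c k235 s2_255_235
  (.c k236 s2_255_236 (.c k237 s2_255_237 (.c k238 s2_255_238 (.c k239 s2_255_239 (.c k240
  s2_255_240 (.c k241 s2_255_241 (.c k242 s2_255_242 (.c k243 s2_255_243 (.c k244 s2_255_244 (.c
  k245 s2_255_245 (.c k246 s2_255_246 (.c k247 s2_255_247 (.c k248 s2_255_248 (.c k249 s2_255_249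
  (.c k250 s2_255_250 (.c k251 s2_255_251 (.c k252 s2_255_252 (.c k253 s2_255_253 (.c k254
  s2_255_254 .n))))))))))))))))))))))))))))))))))))))))))))))))))))))))))))))))))))))))))))))))
  ))))))))))))))))))))))))))))))))))))))))))))))))))))))))))))))))))))))))))))))))
  )))))))))))))))))))))))))))))))))))))))))))))))))))))))))))))))))))))))))))))))) ))))))))))))

def s3_15_1 : T TT 256 :=
  (.l (.s k20 k40 5 (.s k150 k215 8 (.s k105 k195 14 (.s k125 k65 5 (.d k255 k190 k170 8 14))))))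

def s3_15_2 : T TT 256 :=
  (.l (.s k20 k40 5 (.s k150 k215 8 (.s k105 k195 14 (.s k125 k65 5 (.d k255 k190 k170 8 14))))))

def s3_15_4 : T TT 256 :=
  (.l (.s k20 k40 5 (.s k150 k215 8 (.s k105 k195 14 (.s k125 k65 5 (.d k255 k190 k170 8 14))))))

def s3_15_5 : T TT 256 :=
  (.l (.s k20 k40 5 (.s k150 k215 8 (.s k105 k195 14 (.s k125 k65 5 (.d k255 k190 k170 8 14))))))

def s3_15_6 : T TT 256 :=
  (.l (.s k20 k40 5 (.s k150 k215 8 (.s k105 k195 14 (.s k125 k65 5 (.d k255 k190 k170 8 14))))))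

def s3_15_7 : T TT 256 :=
  (.q k11 [(.s k20 k40 5 (.s k150 k215 8 (.s k105 k195 14 (.s k125 k65 5 (.d k255 k190 k170 8
  14))))), (.s k20 k40 5 (.s k150 k215 8 (.s k170 k255 14 (.s k130 k190 5 (.d k195 k65 k105 8
  14)))))] (.c k20 (.q k12 [(.s k4 k8 1 (.s k255 k170 14 (.s k93 k174 12 (.s k89 k81 1 (.d k166 k247
  k243 12 14))))), (.s k4 k8 1 (.s k44 k28 3 (.s k166 k247 12 (.s k105 k227 10 (.s k65 k125 5 (.d
  k195 k130 k150 8 14)))))), (.s k44 k28 3 (.s k255 k170 14 (.s k174 k93 12 (.s k109 k239 8 (.s k158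
  k207 12 (.d k190 k142 k125 3 8))))))] .n) (.c k40 (.q k12 [(.s k4 k8 1 (.s k44 k28 3 (.s k166 k247
  12 (.s k105 k227 10 (.s k65 k125 5 (.d k195 k130 k150 8 14)))))), (.s k44 k28 3 (.s k255 k170 14
  (.s k174 k93 12 (.s k109 k239 8 (.s k158 k207 12 (.d k190 k142 k125 3 8)))))), (.s k4 k8 1 (.s
  k166 k247 12 (.s k89 k243 14 (.s k93 k81 1 (.d k255 k174 k170 12 14)))))] .n) (.c k65 (.q k4 [(.s
  k12 k8 1 (.s k20 k40 5 (.s k28 k44 3 (.s k24 k16 1 (.d k36 k52 k48 3 5))))), (.s k12 k8 1 (.s k166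
  k247 12 (.s k89 k243 14 (.s k93 k81 1 (.d k255 k174 k170 12 14))))), (.s k20 k40 5 (.s k52 k36 3
  (.s k150 k215 8 (.s k101 k199 12 (.s k117 k69 3 (.d k247 k182 k166 8 12))))))] .n) (.c k105 (.q k4
  [(.s k12 k8 1 (.s k20 k40 5 (.s k28 k44 3 (.s k24 k16 1 (.d k36 k52 k48 3 5))))), (.s k12 k8 1 (.s
  k166 k247 12 (.s k89 k243 14 (.s k93 k81 1 (.d k255 k174 k170 12 14))))), (.s k20 k40 5 (.s k52
  k36 3 (.s k150 k215 8 (.s k101 k199 12 (.s k117 k69 3 (.d k247 k182 k166 8 12))))))] (.c k166 (.l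
  (.s k12 k8 1 (.s k20 k40 5 (.s k36 k52 3 (.s k24 k48 5 (.d k28 k16 k44 1 3)))))) (.c k170 (.l (.s
  k12 k8 1 (.s k28 k44 3 (.s k166 k247 12 (.s k89 k243 14 (.s k150 k211 10 (.d k20 k40 k215 5
  8))))))) .n))) (.c k150 (.q k4 [(.s k12 k8 1 (.s k20 k40 5 (.s k28 k44 3 (.s k24 k16 1 (.d k36 k52
  k48 3 5))))), (.s k12 k8 1 (.s k166 k247 12 (.s k89 k243 14 (.s k93 k81 1 (.d k255 k174 k170 12
  14))))), (.s k20 k40 5 (.s k52 k36 3 (.s k247 k166 12 (.s k182 k117 8 (.s k243 k121 10 (.d k255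
  k251 k170 1 14))))))] .n) (.c k170 (.q k4 [(.s k12 k8 1 (.s k20 k40 5 (.s k28 k44 3 (.s k24 k16 1
  (.d k36 k52 k48 3 5))))), (.s k12 k8 1 (.s k44 k28 3 (.s k166 k247 12 (.s k105 k227 10 (.s k65
  k125 5 (.d k195 k130 k150 8 14)))))), (.s k20 k40 5 (.s k52 k36 3 (.s k150 k215 8 (.s k101 k199 12
  (.s k117 k69 3 (.d k247 k182 k166 8 12))))))] (.c k44 (.l (.s k12 k8 1 (.s k20 k40 5 (.s k150 k215
  8 (.s k166 k247 12 (.s k134 k182 3 (.d k195 k105 k73 14 10))))))) (.c k105 (.l (.s k12 k8 1 (.s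
  k28 k44 3 (.s k166 k247 12 (.s k89 k243 14 (.s k150 k211 10 (.d k20 k40 k215 5 8))))))) .n))) (.c
  k190 (.l (.s k40 k20 5 (.s k170 k255 14 (.s k105 k235 8 (.s k65 k125 5 (.d k195 k130 k150 8
  14)))))) (.c k195 (.f k20 k40 5 (.q k207 [(.s k69 k138 10 (.s k101 k117 3 (.s k48 k154 14 (.s k32
  k16 3 (.d k170 k239 k255 10 14))))), (.s k150 k215 8 (.s k158 k109 12 (.s k154 k146 1 (.s k16 k223
  10 (.d k48 k32 k101 3 14))))), (.s k69 k138 10 (.s k101 k117 3 (.s k48 k154 14 (.s k52 k56 1 (.d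
  k150 k215 k199 8 12)))))] (.c k48 (.l (.s k150 k215 8 (.s k158 k109 12 (.s k255 k170 14 (.s k223
  k239 3 (.d k154 k146 k16 1 10)))))) (.c k67 (.q k131 [(.s k69 k138 10 (.s k101 k117 3 (.s k48 k154
  14 (.s k32 k16 3 (.d k170 k239 k255 10 14))))), (.s k150 k215 8 (.s k158 k109 12 (.s k154 k146 1
  (.s k16 k223 10 (.d k48 k32 k101 3 14))))), (.s k69 k138 10 (.s k101 k117 3 (.s k48 k154 14 (.s
  k52 k56 1 (.d k150 k215 k199 8 12)))))] (.c k48 (.l (.s k150 k215 8 (.s k158 k109 12 (.s k255 k170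
  14 (.s k223 k239 3 (.d k154 k146 k16 1 10)))))) (.c k75 (.q k135 [(.s k143 k139 1 (.s k150 k215 8
  (.s k158 k109 12 (.d k188 k173 k169 4 6)))), (.s k69 k138 10 (.s k101 k117 3 (.s k48 k154 14 (.s
  k32 k16 3 (.d k170 k239 k255 10 14)))))] (.c k71 (.q k79 [(.s k143 k139 1 (.s k150 k215 8 (.s k158
  k109 12 (.d k188 k173 k169 4 6)))), (.s k69 k138 10 (.s k101 k117 3 (.s k48 k154 14 (.s k32 k16 3
  (.d k170 k239 k255 10 14)))))] (.c k255 (.l (.s k143 k139 1 (.s k158 k109 12 (.s k188 k173 4 (.d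
  k150 k169 k215 6 8))))) .n)) (.c k79 (.q k71 [(.s k69 k138 10 (.s k101 k117 3 (.s k48 k154 14 (.s
  k32 k16 3 (.d k170 k239 k255 10 14))))), (.s k143 k139 1 (.s k158 k109 12 (.s k188 k173 4 (.d k150
  k169 k215 6 8))))] .n) (.c k255 (.l (.s k143 k139 1 (.s k158 k109 12 (.s k188 k173 4 (.d k150 k169
  k215 6 8))))) .n)))) (.c k101 (.l (.s k138 k69 10 (.s k150 k215 8 (.s k158 k109 12 (.s k154 k146 1
  (.d k170 k255 k186 14 3)))))) (.c k135 (.q k75 [(.s k69 k138 10 (.s k101 k117 3 (.s k48 k154 14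
  (.s k32 k16 3 (.d k170 k239 k255 10 14))))), (.s k139 k203 7 (.s k150 k215 8 (.s k158 k109 12 (.s
  k169 k188 6 (.d k154 k146 k184 1 4)))))] (.c k71 (.q k199 [(.s k69 k138 10 (.s k101 k117 3 (.d
  k150 k215 k52 8 12))), (.s k69 k138 10 (.s k4 k134 8 (.s k215 k150 8 (.d k247 k166 k231 12 3)))),
  (.s k150 k215 8 (.s k101 k52 12 (.s k154 k48 14 (.d k158 k146 k109 1 12)))), (.s k69 k138 10 (.s
  k4 k134 8 (.s k36 k52 3 (.s k101 k117 3 (.d k166 k247 k231 12 8)))))] .n) (.c k154 (.l (.s k69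
  k138 10 (.s k101 k117 3 (.s k109 k158 12 (.s k105 k97 1 (.s k125 k65 5 (.d k255 k170 k190 14
  8))))))) (.c k199 (.q k71 [(.s k69 k138 10 (.s k101 k117 3 (.s k48 k154 14 (.s k32 k16 3 (.d k170
  k239 k255 10 14))))), (.s k139 k203 7 (.s k150 k215 8 (.s k158 k109 12 (.s k169 k188 6 (.d k154
  k146 k184 1 4))))), (.s k69 k138 10 (.s k68 k70 0 (.s k101 k117 3 (.s k86 k116 4 (.s k87 k84 0 (.d
  k119 k103 k102 3 4))))))] .n) (.c k255 (.l (.s k69 k138 10 (.s k101 k117 3 (.s k48 k154 14 (.s k52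
  k56 1 (.d k150 k215 k199 8 12)))))) .n))))) (.c k154 (.l (.s k69 k138 10 (.s k101 k117 3 (.s k109
  k158 12 (.s k105 k97 1 (.s k125 k65 5 (.d k255 k170 k190 14 8))))))) .n)))))) (.c k75 (.q k135
  [(.s k69 k138 10 (.s k101 k117 3 (.s k48 k154 14 (.s k32 k16 3 (.d k170 k239 k255 10 14))))), (.s
  k150 k215 8 (.s k158 k109 12 (.s k154 k146 1 (.s k16 k223 10 (.d k48 k32 k101 3 14))))), (.s k69
  k138 10 (.s k101 k117 3 (.s k48 k154 14 (.s k52 k56 1 (.d k150 k215 k199 8 12)))))] (.c k48 (.l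
  (.s k150 k215 8 (.s k158 k109 12 (.s k255 k170 14 (.s k223 k239 3 (.d k154 k146 k16 1 10)))))) (.c
  k67 (.q k131 [(.s k143 k139 1 (.s k150 k215 8 (.s k158 k109 12 (.d k188 k173 k169 4 6)))), (.s k69
  k138 10 (.s k101 k117 3 (.s k48 k154 14 (.s k32 k16 3 (.d k170 k239 k255 10 14)))))] (.c k71 (.q
  k79 [(.s k143 k139 1 (.s k150 k215 8 (.s k158 k109 12 (.d k188 k173 k169 4 6)))), (.s k69 k138 10
  (.s k101 k117 3 (.s k48 k154 14 (.s k32 k16 3 (.d k170 k239 k255 10 14)))))] (.c k255 (.l (.s k143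
  k139 1 (.s k158 k109 12 (.s k188 k173 4 (.d k150 k169 k215 6 8))))) .n)) (.c k79 (.q k71 [(.s k69
  k138 10 (.s k101 k117 3 (.s k48 k154 14 (.s k32 k16 3 (.d k170 k239 k255 10 14))))), (.s k143 k139
  1 (.s k158 k109 12 (.s k188 k173 4 (.d k150 k169 k215 6 8))))] .n) (.c k255 (.l (.s k143 k139 1
  (.s k158 k109 12 (.s k188 k173 4 (.d k150 k169 k215 6 8))))) .n)))) (.c k101 (.l (.s k138 k69 10
  (.s k150 k215 8 (.s k158 k109 12 (.s k154 k146 1 (.d k170 k255 k186 14 3)))))) (.c k131 (.q k67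
  [(.s k69 k138 10 (.s k101 k117 3 (.s k48 k154 14 (.s k32 k16 3 (.d k170 k239 k255 10 14))))), (.s
  k150 k215 8 (.s k158 k109 12 (.s k154 k146 1 (.s k16 k223 10 (.d k48 k32 k101 3 14))))), (.s k69
  k138 10 (.s k101 k117 3 (.s k48 k154 14 (.s k52 k56 1 (.d k150 k215 k199 8 12)))))] (.c k48 (.l
  (.s k150 k215 8 (.s k158 k109 12 (.s k255 k170 14 (.s k223 k239 3 (.d k154 k146 k16 1 10)))))) (.c
  k101 (.l (.s k138 k69 10 (.s k150 k215 8 (.s k158 k109 12 (.s k154 k146 1 (.d k170 k255 k186 14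
  3)))))) (.c k154 (.l (.s k69 k138 10 (.s k101 k117 3 (.s k109 k158 12 (.s k105 k97 1 (.s k125 k65
  5 (.d k255 k170 k190 14 8))))))) .n)))) (.c k154 (.l (.s k69 k138 10 (.s k101 k117 3 (.s k109 k158
  12 (.s k105 k97 1 (.s k125 k65 5 (.d k255 k170 k190 14 8))))))) .n)))))) (.c k101 (.l (.s k138 k69
  10 (.s k150 k215 8 (.s k158 k109 12 (.s k154 k146 1 (.d k170 k255 k186 14 3)))))) (.c k131 (.q k67
  [(.s k69 k138 10 (.s k101 k117 3 (.s k48 k154 14 (.s k32 k16 3 (.d k170 k239 k255 10 14))))), (.s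
  k150 k215 8 (.s k158 k109 12 (.s k154 k146 1 (.s k16 k223 10 (.d k48 k32 k101 3 14))))), (.s k69
  k138 10 (.s k101 k117 3 (.s k48 k154 14 (.s k52 k56 1 (.d k150 k215 k199 8 12)))))] (.c k48 (.l
  (.s k150 k215 8 (.s k158 k109 12 (.s k255 k170 14 (.s k223 k239 3 (.d k154 k146 k16 1 10)))))) (.c
  k75 (.q k135 [(.s k69 k138 10 (.s k101 k117 3 (.s k48 k154 14 (.s k32 k16 3 (.d k170 k239 k255 10
  14))))), (.s k150 k215 8 (.s k158 k109 12 (.s k154 k146 1 (.s k16 k223 10 (.d k48 k32 k101 3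
  14))))), (.s k69 k138 10 (.s k101 k117 3 (.s k48 k154 14 (.s k52 k56 1 (.d k150 k215 k199 8
  12)))))] (.c k48 (.l (.s k150 k215 8 (.s k158 k109 12 (.s k255 k170 14 (.s k223 k239 3 (.d k154
  k146 k16 1 10)))))) (.c k101 (.l (.s k138 k69 10 (.s k150 k215 8 (.s k158 k109 12 (.s k154 k146 1
  (.d k170 k255 k186 14 3)))))) (.c k154 (.l (.s k69 k138 10 (.s k101 k117 3 (.s k109 k158 12 (.s
  k105 k97 1 (.s k125 k65 5 (.d k255 k170 k190 14 8))))))) .n)))) (.c k101 (.l (.s k138 k69 10 (.s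
  k150 k215 8 (.s k158 k109 12 (.s k154 k146 1 (.d k170 k255 k186 14 3)))))) (.c k135 (.q k75 [(.s
  k69 k138 10 (.s k101 k117 3 (.s k48 k154 14 (.s k32 k16 3 (.d k170 k239 k255 10 14))))), (.s k69
  k138 10 (.s k71 k79 1 (.s k101 k117 3 (.s k86 k116 4 (.s k105 k124 6 (.d k109 k97 k158 1 12)))))),
  (.s k150 k215 8 (.s k158 k109 12 (.s k255 k170 14 (.s k223 k239 3 (.d k154 k146 k16 1 10)))))] (.c
  k71 (.q k199 [(.s k69 k138 10 (.s k101 k117 3 (.d k150 k215 k52 8 12))), (.s k69 k138 10 (.s k4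
  k134 8 (.s k215 k150 8 (.d k247 k166 k231 12 3)))), (.s k150 k215 8 (.s k101 k52 12 (.s k154 k48
  14 (.d k158 k146 k109 1 12)))), (.s k69 k138 10 (.s k4 k134 8 (.s k36 k52 3 (.s k101 k117 3 (.d
  k166 k247 k231 12 8)))))] (.c k139 (.q k143 [(.s k69 k138 10 (.s k101 k117 3 (.d k150 k215 k52 8
  12))), (.s k150 k215 8 (.s k101 k52 12 (.s k154 k48 14 (.d k158 k146 k109 1 12)))), (.s k69 k138
  10 (.s k4 k134 8 (.s k215 k150 8 (.d k247 k166 k231 12 3)))), (.s k69 k138 10 (.s k4 k134 8 (.s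
  k36 k52 3 (.s k101 k117 3 (.d k166 k247 k231 12 8)))))] .n) (.c k143 (.l (.s k139 k203 7 (.s k69
  k138 10 (.s k101 k117 3 (.d k150 k215 k52 8 12))))) .n))) (.c k101 (.l (.s k138 k69 10 (.s k150
  k215 8 (.s k158 k109 12 (.s k154 k146 1 (.d k170 k255 k186 14 3)))))) (.c k139 (.q k143 [(.s k69
  k138 10 (.s k101 k117 3 (.s k48 k154 14 (.s k32 k16 3 (.d k170 k239 k255 10 14))))), (.s k150 k215
  8 (.s k158 k109 12 (.s k154 k146 1 (.s k16 k223 10 (.d k48 k32 k101 3 14))))), (.s k69 k138 10 (.s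
  k71 k79 1 (.s k101 k117 3 (.s k86 k116 4 (.s k105 k124 6 (.d k109 k97 k158 1 12))))))] (.c k71 (.q
  k199 [(.s k69 k138 10 (.s k101 k117 3 (.d k150 k215 k52 8 12))), (.s k150 k215 8 (.s k101 k52 12
  (.s k154 k48 14 (.d k158 k146 k109 1 12)))), (.s k69 k138 10 (.s k4 k134 8 (.s k215 k150 8 (.d
  k247 k166 k231 12 3)))), (.s k69 k138 10 (.s k4 k134 8 (.s k36 k52 3 (.s k101 k117 3 (.d k166 k247
  k231 12 8)))))] .n) (.c k101 (.l (.s k138 k69 10 (.s k150 k215 8 (.s k158 k109 12 (.s k154 k146 1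
  (.d k170 k255 k186 14 3)))))) (.c k199 (.l (.s k71 k79 1 (.s k69 k138 10 (.s k101 k117 3 (.s k48
  k154 14 (.s k32 k16 3 (.d k170 k239 k255 10 14))))))) .n)))) (.c k143 (.l (.s k139 k203 7 (.s k69
  k138 10 (.s k101 k117 3 (.s k48 k154 14 (.s k32 k16 3 (.d k170 k239 k255 10 14))))))) (.c k199 (.l
  (.s k71 k79 1 (.s k69 k138 10 (.s k101 k117 3 (.s k48 k154 14 (.s k32 k16 3 (.d k170 k239 k255 10
  14))))))) .n)))))) (.c k154 (.l (.s k69 k138 10 (.s k101 k117 3 (.s k109 k158 12 (.s k105 k97 1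
  (.s k125 k65 5 (.d k255 k170 k190 14 8))))))) .n)))))) (.c k135 (.q k75 [(.s k69 k138 10 (.s k101
  k117 3 (.s k48 k154 14 (.s k32 k16 3 (.d k170 k239 k255 10 14))))), (.s k150 k215 8 (.s k158 k109
  12 (.s k154 k146 1 (.s k16 k223 10 (.d k48 k32 k101 3 14))))), (.s k69 k138 10 (.s k101 k117 3 (.s
  k48 k154 14 (.s k52 k56 1 (.d k150 k199 k215 12 8)))))] (.c k48 (.l (.s k150 k215 8 (.s k158 k109
  12 (.s k255 k170 14 (.s k223 k239 3 (.d k154 k146 k16 1 10)))))) (.c k67 (.q k131 [(.s k69 k138 10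
  (.s k101 k117 3 (.s k48 k154 14 (.s k32 k16 3 (.d k170 k239 k255 10 14))))), (.s k139 k203 7 (.s
  k150 k215 8 (.s k158 k109 12 (.s k169 k188 6 (.d k154 k146 k184 1 4)))))] (.c k71 (.q k199 [(.s
  k69 k138 10 (.s k101 k117 3 (.d k150 k215 k52 8 12))), (.s k69 k138 10 (.s k4 k134 8 (.s k215 k150
  8 (.d k247 k166 k231 12 3)))), (.s k150 k215 8 (.s k101 k52 12 (.s k154 k48 14 (.d k158 k146 k109
  1 12)))), (.s k69 k138 10 (.s k4 k134 8 (.s k36 k52 3 (.s k101 k117 3 (.d k166 k247 k231 12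
  8)))))] .n) (.c k154 (.l (.s k69 k138 10 (.s k101 k117 3 (.s k109 k158 12 (.s k105 k97 1 (.s k125
  k65 5 (.d k255 k170 k190 14 8))))))) (.c k199 (.q k71 [(.s k69 k138 10 (.s k101 k117 3 (.s k48
  k154 14 (.s k32 k16 3 (.d k170 k239 k255 10 14))))), (.s k139 k203 7 (.s k150 k215 8 (.s k158 k109
  12 (.s k169 k188 6 (.d k154 k146 k184 1 4))))), (.s k69 k138 10 (.s k68 k70 0 (.s k101 k117 3 (.s
  k86 k116 4 (.s k87 k84 0 (.d k119 k103 k102 3 4))))))] .n) (.c k255 (.l (.s k69 k138 10 (.s k101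
  k117 3 (.s k48 k154 14 (.s k52 k56 1 (.d k150 k215 k199 8 12)))))) .n))))) (.c k71 (.q k199 [(.s
  k69 k138 10 (.s k101 k117 3 (.d k150 k215 k52 8 12))), (.s k69 k138 10 (.s k4 k134 8 (.s k215 k150
  8 (.d k247 k166 k231 12 3)))), (.s k150 k215 8 (.s k101 k52 12 (.s k154 k48 14 (.d k158 k146 k109
  1 12)))), (.s k69 k138 10 (.s k4 k134 8 (.s k36 k52 3 (.s k101 k117 3 (.d k166 k247 k231 12
  8)))))] (.c k67 (.q k131 [(.s k69 k138 10 (.s k101 k117 3 (.d k150 k215 k52 8 12))), (.s k69 k138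
  10 (.s k4 k134 8 (.s k215 k150 8 (.d k247 k166 k231 12 3)))), (.s k150 k215 8 (.s k101 k52 12 (.s
  k154 k48 14 (.d k158 k146 k109 1 12)))), (.s k69 k138 10 (.s k4 k134 8 (.s k36 k52 3 (.s k101 k117
  3 (.d k166 k247 k231 12 8)))))] .n) (.c k131 (.q k67 [(.s k69 k138 10 (.s k101 k117 3 (.d k150
  k215 k52 8 12))), (.s k69 k138 10 (.s k4 k134 8 (.s k215 k150 8 (.d k247 k166 k231 12 3)))), (.s
  k150 k215 8 (.s k101 k52 12 (.s k154 k48 14 (.d k158 k146 k109 1 12)))), (.s k69 k138 10 (.s k4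
  k134 8 (.s k36 k52 3 (.s k101 k117 3 (.d k166 k247 k231 12 8)))))] (.c k139 (.q k143 [(.s k69 k138
  10 (.s k101 k117 3 (.d k150 k215 k52 8 12))), (.s k150 k215 8 (.s k101 k52 12 (.s k154 k48 14 (.d
  k158 k146 k109 1 12)))), (.s k69 k138 10 (.s k4 k134 8 (.s k215 k150 8 (.d k247 k166 k231 12
  3)))), (.s k69 k138 10 (.s k4 k134 8 (.s k36 k52 3 (.s k101 k117 3 (.d k166 k247 k231 12 8)))))]
  .n) (.c k143 (.l (.s k139 k203 7 (.s k69 k138 10 (.s k101 k117 3 (.d k150 k215 k52 8 12))))) .n)))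
  .n))) (.c k101 (.l (.s k138 k69 10 (.s k150 k215 8 (.s k158 k109 12 (.s k154 k146 1 (.d k170 k255
  k186 14 3)))))) (.c k131 (.q k67 [(.s k69 k138 10 (.s k101 k117 3 (.s k48 k154 14 (.s k32 k16 3
  (.d k170 k239 k255 10 14))))), (.s k69 k138 10 (.s k71 k79 1 (.s k101 k117 3 (.s k86 k116 4 (.s
  k105 k124 6 (.d k109 k97 k158 1 12)))))), (.s k150 k215 8 (.s k158 k109 12 (.s k255 k170 14 (.s
  k223 k239 3 (.d k154 k146 k16 1 10)))))] (.c k71 (.q k199 [(.s k69 k138 10 (.s k101 k117 3 (.d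
  k150 k215 k52 8 12))), (.s k69 k138 10 (.s k4 k134 8 (.s k215 k150 8 (.d k247 k166 k231 12 3)))),
  (.s k150 k215 8 (.s k101 k52 12 (.s k154 k48 14 (.d k158 k146 k109 1 12)))), (.s k69 k138 10 (.s
  k4 k134 8 (.s k36 k52 3 (.s k101 k117 3 (.d k166 k247 k231 12 8)))))] (.c k139 (.q k143 [(.s k69
  k138 10 (.s k101 k117 3 (.d k150 k215 k52 8 12))), (.s k150 k215 8 (.s k101 k52 12 (.s k154 k48 14
  (.d k158 k146 k109 1 12)))), (.s k69 k138 10 (.s k4 k134 8 (.s k215 k150 8 (.d k247 k166 k231 12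
  3)))), (.s k69 k138 10 (.s k4 k134 8 (.s k36 k52 3 (.s k101 k117 3 (.d k166 k247 k231 12 8)))))]
  .n) (.c k143 (.l (.s k139 k203 7 (.s k69 k138 10 (.s k101 k117 3 (.d k150 k215 k52 8 12))))) .n)))
  (.c k101 (.l (.s k138 k69 10 (.s k150 k215 8 (.s k158 k109 12 (.s k154 k146 1 (.d k170 k255 k186
  14 3)))))) (.c k139 (.q k143 [(.s k69 k138 10 (.s k101 k117 3 (.s k48 k154 14 (.s k32 k16 3 (.d
  k170 k239 k255 10 14))))), (.s k150 k215 8 (.s k158 k109 12 (.s k154 k146 1 (.s k16 k223 10 (.d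
  k48 k32 k101 3 14))))), (.s k69 k138 10 (.s k71 k79 1 (.s k101 k117 3 (.s k86 k116 4 (.s k105 k124
  6 (.d k109 k97 k158 1 12))))))] (.c k71 (.q k199 [(.s k69 k138 10 (.s k101 k117 3 (.d k150 k215
  k52 8 12))), (.s k150 k215 8 (.s k101 k52 12 (.s k154 k48 14 (.d k158 k146 k109 1 12)))), (.s k69
  k138 10 (.s k4 k134 8 (.s k215 k150 8 (.d k247 k166 k231 12 3)))), (.s k69 k138 10 (.s k4 k134 8
  (.s k36 k52 3 (.s k101 k117 3 (.d k166 k247 k231 12 8)))))] .n) (.c k101 (.l (.s k138 k69 10 (.s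
  k150 k215 8 (.s k158 k109 12 (.s k154 k146 1 (.d k170 k255 k186 14 3)))))) (.c k199 (.l (.s k71
  k79 1 (.s k69 k138 10 (.s k101 k117 3 (.s k48 k154 14 (.s k32 k16 3 (.d k170 k239 k255 10
  14))))))) .n)))) (.c k143 (.l (.s k139 k203 7 (.s k69 k138 10 (.s k101 k117 3 (.s k48 k154 14 (.s
  k32 k16 3 (.d k170 k239 k255 10 14))))))) (.c k199 (.l (.s k71 k79 1 (.s k69 k138 10 (.s k101 k117
  3 (.s k48 k154 14 (.s k32 k16 3 (.d k170 k239 k255 10 14))))))) .n)))))) (.c k154 (.l (.s k69 k138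
  10 (.s k101 k117 3 (.s k109 k158 12 (.s k105 k97 1 (.s k125 k65 5 (.d k255 k170 k190 14 8)))))))
  (.c k199 (.q k71 [(.s k69 k138 10 (.s k101 k117 3 (.s k48 k154 14 (.s k32 k16 3 (.d k170 k239 k255
  10 14))))), (.s k67 k79 1 (.s k69 k138 10 (.s k101 k117 3 (.s k86 k116 4 (.s k105 k124 6 (.d k109
  k97 k158 1 12)))))), (.s k150 k215 8 (.s k158 k109 12 (.s k255 k170 14 (.s k223 k239 3 (.d k154
  k146 k16 1 10)))))] (.c k67 (.q k131 [(.s k69 k138 10 (.s k101 k117 3 (.s k48 k154 14 (.s k32 k16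
  3 (.d k170 k239 k255 10 14))))), (.s k139 k203 7 (.s k150 k215 8 (.s k158 k109 12 (.s k169 k188 6
  (.d k154 k146 k184 1 4))))), (.s k69 k138 10 (.s k68 k70 0 (.s k101 k117 3 (.s k86 k116 4 (.s k87
  k84 0 (.d k119 k103 k102 3 4))))))] .n) (.c k101 (.l (.s k138 k69 10 (.s k150 k215 8 (.s k158 k109
  12 (.s k154 k146 1 (.d k170 k255 k186 14 3)))))) (.c k131 (.l (.s k67 k79 1 (.s k69 k138 10 (.s
  k101 k117 3 (.s k48 k154 14 (.s k32 k16 3 (.d k170 k239 k255 10 14))))))) .n)))) .n)))))))) (.c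
  k154 (.l (.s k69 k138 10 (.s k101 k117 3 (.s k109 k158 12 (.s k105 k97 1 (.s k125 k65 5 (.d k255
  k170 k190 14 8))))))) .n))))))))) (.c k215 (.l (.s k40 k20 5 (.s k170 k255 14 (.s k105 k235 8 (.s
  k195 k150 14 (.d k65 k125 k130 5 8)))))) (.c k235 (.l (.s k20 k40 5 (.s k150 k215 8 (.s k105 k195
  14 (.s k255 k170 14 (.d k125 k65 k190 5 8)))))) (.c k255 (.f k20 k40 5 (.q k243 [(.s k81 k162 12
  (.s k89 k93 1 (.s k121 k182 10 (.s k105 k73 3 (.d k150 k215 k195 8 14))))), (.s k81 k162 12 (.s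
  k150 k215 8 (.s k195 k105 14 (.s k65 k130 8 (.s k97 k113 3 (.s k146 k48 12 (.d k211 k227 k16 3
  8))))))), (.s k150 k215 8 (.s k182 k121 10 (.s k166 k134 3 (.s k4 k247 12 (.d k12 k8 k89 1
  14))))), (.s k81 k162 12 (.s k89 k93 1 (.s k12 k166 14 (.s k4 k8 1 (.s k28 k44 3 (.s k24 k16 1 (.d
  k36 k52 k48 3 5)))))))] (.c k87 (.q k171 [(.s k81 k162 12 (.s k89 k93 1 (.s k121 k182 10 (.s k105
  k73 3 (.d k150 k215 k195 8 14))))), (.s k81 k162 12 (.s k89 k93 1 (.s k12 k166 14 (.s k8 k4 1 (.d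
  k251 k170 k91 12 11))))), (.s k150 k215 8 (.s k182 k121 10 (.s k166 k134 3 (.s k12 k89 14 (.d k4
  k247 k8 12 1))))), (.s k81 k162 12 (.s k150 k215 8 (.s k195 k105 14 (.s k65 k130 8 (.s k97 k113 3
  (.s k146 k48 12 (.d k211 k227 k16 3 8)))))))] (.c k95 (.q k175 [(.s k81 k162 12 (.s k89 k93 1 (.s
  k12 k166 14 (.s k8 k4 1 (.d k251 k91 k170 11 12))))), (.s k81 k162 12 (.s k150 k215 8 (.s k195
  k105 14 (.s k65 k130 8 (.s k97 k113 3 (.s k146 k48 12 (.d k211 k227 k16 3 8))))))), (.s k150 k215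
  8 (.s k182 k121 10 (.s k166 k134 3 (.s k12 k89 14 (.d k4 k247 k8 12 1)))))] (.c k83 (.l (.s k91
  k251 11 (.s k81 k162 12 (.s k89 k93 1 (.s k12 k166 14 (.s k28 k44 3 (.d k150 k215 k211 8 10)))))))
  (.c k91 (.q k83 [(.s k81 k162 12 (.s k89 k93 1 (.s k121 k182 10 (.s k105 k73 3 (.d k150 k215 k195
  8 14))))), (.s k81 k162 12 (.s k80 k82 0 (.s k150 k215 8 (.s k195 k105 14 (.s k130 k65 8 (.s k170
  k190 5 (.d k160 k240 k165 11 2))))))), (.s k81 k162 12 (.s k80 k82 0 (.s k89 k93 1 (.s k12 k166 14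
  (.s k8 k4 1 (.s k170 k251 12 (.d k160 k240 k165 11 2))))))), (.s k150 k215 8 (.s k182 k121 10 (.s
  k166 k134 3 (.s k12 k89 14 (.d k4 k247 k8 12 1)))))] (.c k167 (.q k247 [(.s k4 k166 12 (.s k182
  k121 10 (.d k52 k36 k117 3 8))), (.s k81 k162 12 (.s k89 k93 1 (.d k166 k12 k4 14 12))), (.s k81
  k162 12 (.s k89 k93 1 (.s k121 k182 10 (.s k105 k73 3 (.d k150 k215 k195 8 14)))))] .n) (.c k247
  (.l (.s k167 k163 1 (.s k81 k162 12 (.s k89 k93 1 (.s k12 k166 14 (.s k28 k44 3 (.d k150 k215 k211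
  8 10))))))) .n))) (.c k167 (.q k247 [(.s k4 k166 12 (.s k182 k121 10 (.d k52 k36 k117 3 8))), (.s
  k81 k162 12 (.s k89 k93 1 (.d k166 k12 k4 14 12))), (.s k81 k162 12 (.s k89 k93 1 (.s k121 k182 10
  (.s k105 k73 3 (.d k150 k215 k195 8 14)))))] (.c k83 (.l (.s k91 k251 11 (.s k4 k166 12 (.s k52
  k36 3 (.d k182 k117 k121 8 10))))) (.c k91 (.q k83 [(.s k4 k166 12 (.s k182 k121 10 (.d k52 k36
  k117 3 8))), (.s k81 k162 12 (.s k89 k93 1 (.d k166 k12 k4 14 12))), (.s k81 k162 12 (.s k89 k93 1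
  (.s k121 k182 10 (.s k105 k73 3 (.d k150 k215 k195 8 14)))))] .n) .n))) (.c k247 (.l (.s k167 k163
  1 (.s k81 k162 12 (.s k89 k93 1 (.s k12 k166 14 (.s k8 k4 1 (.d k251 k170 k91 12 11))))))) .n)))))
  (.c k167 (.q k247 [(.s k81 k162 12 (.s k89 k93 1 (.d k166 k12 k4 14 12))), (.s k4 k166 12 (.s k52
  k36 3 (.d k182 k117 k121 8 10))), (.s k81 k162 12 (.s k89 k93 1 (.s k121 k182 10 (.s k105 k73 3
  (.d k150 k215 k195 8 14)))))] (.c k95 (.q k175 [(.s k4 k166 12 (.s k182 k121 10 (.d k52 k36 k117 3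
  8))), (.s k81 k162 12 (.s k89 k93 1 (.d k166 k12 k4 14 12))), (.s k81 k162 12 (.s k89 k93 1 (.s
  k121 k182 10 (.s k105 k73 3 (.d k150 k215 k195 8 14)))))] (.c k83 (.l (.s k91 k251 11 (.s k4 k166
  12 (.s k52 k36 3 (.d k182 k117 k121 8 10))))) (.c k91 (.q k83 [(.s k4 k166 12 (.s k182 k121 10 (.d
  k52 k36 k117 3 8))), (.s k81 k162 12 (.s k89 k93 1 (.d k166 k12 k4 14 12))), (.s k81 k162 12 (.s
  k89 k93 1 (.s k121 k182 10 (.s k105 k73 3 (.d k150 k215 k195 8 14)))))] .n) .n))) (.c k175 (.q k95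
  [(.s k81 k162 12 (.s k89 k93 1 (.d k166 k12 k4 14 12))), (.s k4 k166 12 (.s k52 k36 3 (.d k182
  k117 k121 8 10))), (.s k81 k162 12 (.s k89 k93 1 (.s k90 k80 2 (.d k91 k88 k251 0 11))))] .n)
  .n))) (.c k175 (.q k95 [(.s k81 k162 12 (.s k90 k80 2 (.s k91 k251 11 (.d k89 k88 k93 0 1)))), (.s
  k150 k215 8 (.s k182 k121 10 (.s k166 k134 3 (.s k12 k89 14 (.d k4 k247 k8 12 1)))))] (.c k89 (.l
  (.s k90 k80 2 (.s k150 k215 8 (.s k169 k248 12 (.s k168 k170 0 (.s k188 k131 6 (.d k252 k124 k84 7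
  13))))))) (.c k167 (.q k247 [(.s k81 k162 12 (.s k89 k93 1 (.d k166 k12 k4 14 12))), (.s k4 k166
  12 (.s k52 k36 3 (.d k182 k117 k121 8 10))), (.s k81 k162 12 (.s k89 k93 1 (.s k90 k80 2 (.d k91
  k88 k251 0 11))))] .n) (.c k247 (.q k167 [(.s k81 k162 12 (.s k90 k80 2 (.s k91 k251 11 (.d k89
  k88 k93 0 1)))), (.s k90 k80 2 (.s k150 k215 8 (.s k169 k248 12 (.s k168 k170 0 (.s k188 k131 6
  (.d k252 k124 k84 7 13)))))), (.s k81 k162 12 (.s k89 k93 1 (.s k12 k166 14 (.s k8 k4 1 (.d k251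
  k170 k91 12 11)))))] .n) .n)))) (.c k247 (.q k167 [(.s k81 k162 12 (.s k89 k93 1 (.s k12 k166 14
  (.s k8 k4 1 (.d k251 k170 k91 12 11))))), (.s k150 k215 8 (.s k182 k121 10 (.s k166 k134 3 (.s k12
  k89 14 (.s k44 k28 3 (.d k105 k195 k227 14 10)))))), (.s k81 k162 12 (.s k150 k215 8 (.s k195 k105
  14 (.s k65 k130 8 (.s k97 k113 3 (.s k146 k48 12 (.d k211 k227 k16 3 8)))))))] (.c k95 (.l (.s
  k175 k163 1 (.s k81 k162 12 (.s k89 k93 1 (.s k12 k166 14 (.s k8 k4 1 (.d k251 k170 k91 12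
  11))))))) (.c k175 (.q k95 [(.s k81 k162 12 (.s k90 k80 2 (.s k91 k251 11 (.d k89 k88 k93 0 1)))),
  (.s k90 k80 2 (.s k150 k215 8 (.s k169 k248 12 (.s k168 k170 0 (.s k188 k131 6 (.d k252 k124 k84 7
  13)))))), (.s k81 k162 12 (.s k89 k93 1 (.s k12 k166 14 (.s k8 k4 1 (.d k251 k170 k91 12 11)))))]
  .n) .n))) .n))))) (.c k95 (.q k175 [(.s k81 k162 12 (.s k150 k215 8 (.s k182 k121 10 (.s k166 k134
  3 (.d k89 k93 k12 1 14))))), (.s k81 k162 12 (.s k150 k215 8 (.s k195 k105 14 (.s k65 k130 8 (.s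
  k97 k113 3 (.s k146 k48 12 (.d k211 k227 k16 3 8))))))), (.s k81 k162 12 (.s k89 k93 1 (.s k12
  k166 14 (.s k4 k8 1 (.s k28 k44 3 (.s k24 k16 1 (.d k36 k52 k48 3 5))))))), (.s k150 k215 8 (.s
  k182 k121 10 (.s k166 k134 3 (.s k4 k247 12 (.d k12 k8 k89 1 14)))))] (.c k87 (.q k171 [(.s k81
  k162 12 (.s k89 k93 1 (.s k12 k166 14 (.s k8 k4 1 (.d k251 k91 k170 11 12))))), (.s k81 k162 12
  (.s k150 k215 8 (.s k195 k105 14 (.s k65 k130 8 (.s k97 k113 3 (.s k146 k48 12 (.d k211 k227 k16 3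
  8))))))), (.s k150 k215 8 (.s k182 k121 10 (.s k166 k134 3 (.s k12 k89 14 (.d k4 k247 k8 12
  1)))))] (.c k83 (.l (.s k91 k251 11 (.s k81 k162 12 (.s k89 k93 1 (.s k12 k166 14 (.s k28 k44 3
  (.d k150 k215 k211 8 10))))))) (.c k91 (.q k83 [(.s k81 k162 12 (.s k89 k93 1 (.s k121 k182 10 (.s
  k105 k73 3 (.d k150 k215 k195 8 14))))), (.s k81 k162 12 (.s k80 k82 0 (.s k150 k215 8 (.s k195
  k105 14 (.s k130 k65 8 (.s k170 k190 5 (.d k160 k240 k165 11 2))))))), (.s k81 k162 12 (.s k80 k82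
  0 (.s k89 k93 1 (.s k12 k166 14 (.s k8 k4 1 (.s k170 k251 12 (.d k160 k240 k165 11 2))))))), (.s
  k150 k215 8 (.s k182 k121 10 (.s k166 k134 3 (.s k12 k89 14 (.d k4 k247 k8 12 1)))))] (.c k167 (.q
  k247 [(.s k4 k166 12 (.s k182 k121 10 (.d k52 k36 k117 3 8))), (.s k81 k162 12 (.s k89 k93 1 (.d
  k166 k12 k4 14 12))), (.s k81 k162 12 (.s k89 k93 1 (.s k121 k182 10 (.s k105 k73 3 (.d k150 k215
  k195 8 14)))))] .n) (.c k247 (.l (.s k167 k163 1 (.s k81 k162 12 (.s k89 k93 1 (.s k12 k166 14 (.s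
  k28 k44 3 (.d k150 k215 k211 8 10))))))) .n))) (.c k167 (.q k247 [(.s k4 k166 12 (.s k182 k121 10
  (.d k52 k36 k117 3 8))), (.s k81 k162 12 (.s k89 k93 1 (.d k166 k12 k4 14 12))), (.s k81 k162 12
  (.s k89 k93 1 (.s k121 k182 10 (.s k105 k73 3 (.d k150 k215 k195 8 14)))))] (.c k83 (.l (.s k91
  k251 11 (.s k4 k166 12 (.s k52 k36 3 (.d k182 k117 k121 8 10))))) (.c k91 (.q k83 [(.s k4 k166 12
  (.s k182 k121 10 (.d k52 k36 k117 3 8))), (.s k81 k162 12 (.s k89 k93 1 (.d k166 k12 k4 14 12))),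
  (.s k81 k162 12 (.s k89 k93 1 (.s k121 k182 10 (.s k105 k73 3 (.d k150 k215 k195 8 14)))))] .n)
  .n))) (.c k247 (.l (.s k167 k163 1 (.s k81 k162 12 (.s k89 k93 1 (.s k12 k166 14 (.s k8 k4 1 (.d
  k251 k170 k91 12 11))))))) .n))))) (.c k171 (.q k87 [(.s k81 k162 12 (.s k150 k215 8 (.s k182 k121
  10 (.s k166 k134 3 (.d k89 k93 k12 1 14))))), (.s k84 k86 0 (.s k148 k212 7 (.s k104 k192 13 (.s
  k124 k64 5 (.d k252 k188 k168 7 13)))))] .n) .n))) (.c k171 (.q k87 [(.s k81 k162 12 (.s k89 k93 1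
  (.s k121 k182 10 (.s k105 k73 3 (.d k150 k215 k195 8 14))))), (.s k84 k86 0 (.s k148 k212 7 (.s
  k104 k192 13 (.s k124 k64 5 (.d k252 k188 k168 7 13)))))] (.c k95 (.q k175 [(.s k81 k162 12 (.s
  k150 k215 8 (.s k182 k121 10 (.s k166 k134 3 (.d k89 k93 k12 1 14))))), (.s k84 k86 0 (.s k148
  k212 7 (.s k104 k192 13 (.s k124 k64 5 (.d k252 k188 k168 7 13)))))] .n) (.c k175 (.q k95 [(.s k81
  k162 12 (.s k83 k91 1 (.d k80 k82 k90 0 2))), (.s k81 k162 12 (.s k83 k91 1 (.s k86 k84 0 (.d k89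
  k93 k92 1 2)))), (.s k83 k91 1 (.s k86 k84 0 (.s k90 k80 2 (.s k92 k89 2 (.d k94 k93 k82 0 1)))))]
  (.c k83 (.l (.s k80 k90 2 (.s k81 k162 12 (.s k84 k86 0 (.s k92 k88 1 (.d k93 k94 k89 0 1))))))
  (.c k91 (.l (.s k80 k90 2 (.s k81 k162 12 (.s k83 k82 0 (.s k86 k84 0 (.d k89 k93 k92 1 2))))))
  (.c k163 (.q k167 [(.s k81 k162 12 (.s k83 k91 1 (.d k80 k82 k90 0 2))), (.s k83 k91 1 (.s k86 k84
  0 (.s k90 k80 2 (.s k92 k89 2 (.d k94 k93 k82 0 1))))), (.s k81 k162 12 (.s k83 k91 1 (.s k86 k84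
  0 (.d k89 k93 k92 1 2))))] (.c k83 (.l (.s k80 k90 2 (.s k81 k162 12 (.s k84 k86 0 (.s k92 k88 1
  (.d k93 k94 k89 0 1)))))) (.c k91 (.l (.s k80 k90 2 (.s k81 k162 12 (.s k83 k82 0 (.s k86 k84 0
  (.d k89 k93 k92 1 2)))))) .n))) (.c k167 (.q k163 [(.s k81 k162 12 (.s k83 k91 1 (.d k80 k82 k90 0
  2))), (.s k81 k162 12 (.s k83 k91 1 (.s k86 k84 0 (.d k89 k93 k92 1 2)))), (.s k83 k91 1 (.s k86
  k84 0 (.s k90 k80 2 (.s k92 k89 2 (.d k94 k93 k82 0 1))))), (.s k80 k90 2 (.s k162 k81 12 (.d k160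
  k240 k161 11 0)))] .n) .n))))) .n))) (.c k175 (.q k95 [(.s k81 k162 12 (.s k89 k93 1 (.s k121 k182
  10 (.s k105 k73 3 (.d k150 k215 k195 8 14))))), (.s k80 k90 2 (.s k121 k182 10 (.s k240 k160 11
  (.s k120 k180 9 (.s k122 k123 0 (.s k181 k63 10 (.d k241 k242 k61 0 9))))))), (.s k81 k162 12 (.s
  k89 k93 1 (.s k12 k166 14 (.s k28 k44 3 (.d k150 k215 k211 8 10)))))] (.c k87 (.q k171 [(.s k81
  k162 12 (.s k90 k80 2 (.s k91 k251 11 (.d k89 k88 k93 0 1)))), (.s k150 k215 8 (.s k182 k121 10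
  (.s k166 k134 3 (.s k12 k89 14 (.d k4 k247 k8 12 1)))))] (.c k89 (.l (.s k90 k80 2 (.s k150 k215 8
  (.s k169 k248 12 (.s k168 k170 0 (.s k188 k131 6 (.d k252 k124 k84 7 13))))))) (.c k167 (.q k247
  [(.s k81 k162 12 (.s k89 k93 1 (.d k166 k12 k4 14 12))), (.s k4 k166 12 (.s k52 k36 3 (.d k182
  k117 k121 8 10))), (.s k81 k162 12 (.s k89 k93 1 (.s k90 k80 2 (.d k91 k88 k251 0 11))))] .n) (.c
  k247 (.q k167 [(.s k81 k162 12 (.s k90 k80 2 (.s k91 k251 11 (.d k89 k88 k93 0 1)))), (.s k90 k80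
  2 (.s k150 k215 8 (.s k169 k248 12 (.s k168 k170 0 (.s k188 k131 6 (.d k252 k124 k84 7 13)))))),
  (.s k81 k162 12 (.s k89 k93 1 (.s k12 k166 14 (.s k8 k4 1 (.d k251 k170 k91 12 11)))))] .n) .n))))
  (.c k171 (.q k87 [(.s k81 k162 12 (.s k83 k91 1 (.d k80 k82 k90 0 2))), (.s k81 k162 12 (.s k83
  k91 1 (.s k86 k84 0 (.d k89 k93 k92 1 2)))), (.s k83 k91 1 (.s k86 k84 0 (.s k90 k80 2 (.s k92 k89
  2 (.d k94 k93 k82 0 1)))))] (.c k83 (.l (.s k80 k90 2 (.s k81 k162 12 (.s k84 k86 0 (.s k92 k88 1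
  (.d k93 k94 k89 0 1)))))) (.c k91 (.l (.s k80 k90 2 (.s k81 k162 12 (.s k83 k82 0 (.s k86 k84 0
  (.d k89 k93 k92 1 2)))))) (.c k163 (.q k167 [(.s k81 k162 12 (.s k83 k91 1 (.d k80 k82 k90 0 2))),
  (.s k83 k91 1 (.s k86 k84 0 (.s k90 k80 2 (.s k92 k89 2 (.d k94 k93 k82 0 1))))), (.s k81 k162 12
  (.s k83 k91 1 (.s k86 k84 0 (.d k89 k93 k92 1 2))))] (.c k83 (.l (.s k80 k90 2 (.s k81 k162 12 (.s
  k84 k86 0 (.s k92 k88 1 (.d k93 k94 k89 0 1)))))) (.c k91 (.l (.s k80 k90 2 (.s k81 k162 12 (.s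
  k83 k82 0 (.s k86 k84 0 (.d k89 k93 k92 1 2)))))) .n))) (.c k167 (.q k163 [(.s k81 k162 12 (.s k83
  k91 1 (.d k80 k82 k90 0 2))), (.s k81 k162 12 (.s k83 k91 1 (.s k86 k84 0 (.d k89 k93 k92 1 2)))),
  (.s k83 k91 1 (.s k86 k84 0 (.s k90 k80 2 (.s k92 k89 2 (.d k94 k93 k82 0 1))))), (.s k80 k90 2
  (.s k162 k81 12 (.d k160 k240 k161 11 0)))] .n) .n))))) .n))) .n)))))) .n))))))))))))

def s3_15_8 : T TT 256 :=
  (.l (.s k20 k40 5 (.s k150 k215 8 (.s k105 k195 14 (.s k125 k65 5 (.d k255 k190 k170 8 14))))))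

def s3_15_9 : T TT 256 :=
  (.l (.s k20 k40 5 (.s k150 k215 8 (.s k105 k195 14 (.s k125 k65 5 (.d k255 k190 k170 8 14))))))

def s3_15_10 : T TT 256 :=
  (.l (.s k20 k40 5 (.s k150 k215 8 (.s k105 k195 14 (.s k125 k65 5 (.d k255 k190 k170 8 14))))))

def s3_15_11 : T TT 256 :=
  (.q k7 [(.s k20 k40 5 (.s k150 k215 8 (.s k105 k195 14 (.s k125 k65 5 (.d k255 k190 k170 8
  14))))), (.s k20 k40 5 (.s k150 k215 8 (.s k170 k255 14 (.s k130 k190 5 (.d k195 k65 k105 8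
  14)))))] (.c k20 (.q k4 [(.s k6 k5 0 (.s k166 k247 12 (.s k86 k246 11 (.s k84 k87 0 (.d k244 k164
  k165 11 12))))), (.s k12 k8 1 (.s k44 k28 3 (.s k255 k170 14 (.s k174 k93 12 (.s k109 k239 8 (.s
  k158 k207 12 (.d k190 k142 k125 3 8)))))))] (.c k255 (.l (.s k5 k6 0 (.s k165 k245 11 (.s k86 k244
  12 (.s k87 k84 0 (.d k247 k167 k166 11 12)))))) .n)) (.c k40 (.q k4 [(.s k5 k6 0 (.s k165 k245 11
  (.s k86 k244 12 (.s k87 k84 0 (.d k247 k167 k166 11 12))))), (.s k12 k8 1 (.s k44 k28 3 (.s k255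
  k170 14 (.s k174 k93 12 (.s k109 k239 8 (.s k158 k207 12 (.d k190 k142 k125 3 8))))))), (.s k6 k5
  0 (.s k166 k247 12 (.s k86 k246 11 (.s k84 k87 0 (.d k244 k164 k165 11 12)))))] .n) (.c k65 (.q k4
  [(.s k5 k6 0 (.s k165 k245 11 (.s k86 k244 12 (.s k87 k84 0 (.d k247 k167 k166 11 12))))), (.s k12
  k8 1 (.s k20 k40 5 (.s k28 k44 3 (.s k24 k16 1 (.d k36 k52 k48 3 5))))), (.s k6 k5 0 (.s k166 k247
  12 (.s k86 k246 11 (.s k84 k87 0 (.d k244 k164 k165 11 12)))))] .n) (.c k105 (.q k4 [(.s k5 k6 0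
  (.s k165 k245 11 (.s k86 k244 12 (.s k87 k84 0 (.d k247 k167 k166 11 12))))), (.s k12 k8 1 (.s k20
  k40 5 (.s k36 k52 3 (.s k24 k48 5 (.d k28 k16 k44 1 3))))), (.s k6 k5 0 (.s k166 k247 12 (.s k86
  k246 11 (.s k84 k87 0 (.d k244 k164 k165 11 12)))))] .n) (.c k150 (.q k4 [(.s k5 k6 0 (.s k165
  k245 11 (.s k86 k244 12 (.s k87 k84 0 (.d k247 k167 k166 11 12))))), (.s k12 k8 1 (.s k20 k40 5
  (.s k28 k44 3 (.s k24 k16 1 (.d k36 k52 k48 3 5))))), (.s k6 k5 0 (.s k166 k247 12 (.s k86 k246 11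
  (.s k84 k87 0 (.d k244 k164 k165 11 12)))))] .n) (.c k170 (.q k4 [(.s k5 k6 0 (.s k165 k245 11 (.s
  k86 k244 12 (.s k87 k84 0 (.d k247 k167 k166 11 12))))), (.s k12 k8 1 (.s k20 k40 5 (.s k28 k44 3
  (.s k24 k16 1 (.d k36 k52 k48 3 5))))), (.s k6 k5 0 (.s k166 k247 12 (.s k86 k246 11 (.s k84 k87 0
  (.d k244 k164 k165 11 12)))))] .n) (.c k190 (.l (.s k40 k20 5 (.s k170 k255 14 (.s k105 k235 8 (.s
  k65 k125 5 (.d k195 k130 k150 8 14)))))) (.c k195 (.f k255 k170 14 (.q k207 [(.s k69 k138 10 (.s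
  k101 k117 3 (.s k223 k239 3 (.d k154 k16 k48 10 14)))), (.s k109 k158 12 (.s k125 k190 8 (.s k65
  k105 5 (.s k77 k93 3 (.d k69 k73 k138 1 10))))), (.s k20 k40 5 (.s k150 k215 8 (.s k158 k109 12
  (.s k223 k239 3 (.d k154 k146 k16 1 10)))))] (.c k67 (.q k131 [(.s k69 k138 10 (.s k101 k117 3 (.s
  k223 k239 3 (.d k154 k16 k48 10 14)))), (.s k109 k158 12 (.s k125 k190 8 (.s k65 k105 5 (.s k77
  k93 3 (.d k69 k73 k138 1 10))))), (.s k20 k40 5 (.s k150 k215 8 (.s k158 k109 12 (.s k223 k239 3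
  (.d k154 k146 k16 1 10)))))] (.c k75 (.q k135 [(.s k69 k138 10 (.s k101 k117 3 (.s k223 k239 3 (.d
  k154 k16 k48 10 14)))), (.s k20 k40 5 (.s k150 k215 8 (.s k158 k109 12 (.s k188 k169 6 (.d k143
  k139 k173 1 4)))))] (.c k71 (.q k79 [(.s k69 k138 10 (.s k101 k117 3 (.s k223 k239 3 (.d k154 k16
  k48 10 14)))), (.s k20 k40 5 (.s k109 k158 12 (.s k124 k94 4 (.s k150 k215 8 (.d k188 k252 k169 7
  6)))))] (.c k139 (.q k203 [(.s k69 k138 10 (.s k101 k117 3 (.s k223 k239 3 (.d k154 k16 k48 10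
  14)))), (.s k20 k40 5 (.s k109 k158 12 (.s k124 k94 4 (.s k150 k215 8 (.d k188 k252 k169 7 6)))))]
  .n) (.c k203 (.l (.s k139 k143 1 (.s k69 k138 10 (.s k101 k117 3 (.s k154 k48 14 (.d k223 k239 k16
  3 10)))))) .n))) (.c k79 (.l (.s k71 k199 7 (.s k69 k138 10 (.s k101 k117 3 (.s k154 k48 14 (.d
  k223 k239 k16 3 10)))))) (.c k139 (.q k203 [(.s k69 k138 10 (.s k101 k117 3 (.s k223 k239 3 (.d
  k154 k16 k48 10 14)))), (.s k109 k158 12 (.s k125 k190 8 (.s k65 k105 5 (.s k77 k93 3 (.d k69 k73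
  k138 1 10))))), (.s k125 k190 8 (.s k105 k65 5 (.s k154 k56 12 (.d k223 k239 k16 3 10))))] (.c k71
  (.q k79 [(.s k69 k138 10 (.s k101 k117 3 (.s k223 k239 3 (.d k154 k16 k48 10 14)))), (.s k20 k40 5
  (.s k109 k158 12 (.s k124 k94 4 (.s k150 k215 8 (.d k188 k252 k169 7 6)))))] .n) (.c k79 (.l (.s
  k71 k199 7 (.s k69 k138 10 (.s k101 k117 3 (.s k154 k48 14 (.d k223 k239 k16 3 10)))))) (.c k223
  (.l (.s k20 k40 5 (.s k69 k138 10 (.s k101 k117 3 (.s k150 k215 8 (.d k199 k71 k52 7 12))))))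
  .n)))) (.c k203 (.l (.s k139 k143 1 (.s k69 k138 10 (.s k101 k117 3 (.s k154 k48 14 (.d k223 k239
  k16 3 10)))))) .n))))) (.c k135 (.q k75 [(.s k69 k138 10 (.s k101 k117 3 (.s k223 k239 3 (.d k154
  k16 k48 10 14)))), (.s k109 k158 12 (.s k125 k190 8 (.s k65 k105 5 (.s k77 k93 3 (.d k69 k73 k138
  1 10))))), (.s k20 k40 5 (.s k150 k215 8 (.s k158 k109 12 (.s k223 k239 3 (.d k154 k146 k16 1
  10)))))] (.c k223 (.l (.s k69 k138 10 (.s k101 k117 3 (.s k109 k158 12 (.s k105 k97 1 (.d k125 k65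
  k190 5 8)))))) .n)) (.c k223 (.l (.s k69 k138 10 (.s k101 k117 3 (.s k109 k158 12 (.s k105 k97 1
  (.d k125 k65 k190 5 8)))))) .n)))) (.c k75 (.q k135 [(.s k69 k138 10 (.s k101 k117 3 (.s k223 k239
  3 (.d k154 k16 k48 10 14)))), (.s k20 k40 5 (.s k150 k215 8 (.s k199 k71 7 (.s k101 k52 12 (.d k69
  k117 k138 3 10))))), (.s k20 k40 5 (.s k150 k215 8 (.s k158 k109 12 (.s k154 k146 1 (.d k223 k239
  k16 3 10)))))] (.c k67 (.q k131 [(.s k69 k138 10 (.s k101 k117 3 (.s k223 k239 3 (.d k154 k16 k48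
  10 14)))), (.s k20 k40 5 (.s k150 k215 8 (.s k158 k109 12 (.s k188 k169 6 (.d k143 k139 k173 1
  4)))))] (.c k71 (.q k79 [(.s k69 k138 10 (.s k101 k117 3 (.s k223 k239 3 (.d k154 k16 k48 10
  14)))), (.s k20 k40 5 (.s k109 k158 12 (.s k124 k94 4 (.s k150 k215 8 (.d k188 k252 k169 7 6)))))]
  (.c k139 (.q k203 [(.s k69 k138 10 (.s k101 k117 3 (.s k223 k239 3 (.d k154 k16 k48 10 14)))), (.s
  k20 k40 5 (.s k109 k158 12 (.s k124 k94 4 (.s k150 k215 8 (.d k188 k252 k169 7 6)))))] .n) (.c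
  k203 (.l (.s k139 k143 1 (.s k69 k138 10 (.s k101 k117 3 (.s k154 k48 14 (.d k223 k239 k16 3
  10)))))) .n))) (.c k79 (.l (.s k71 k199 7 (.s k69 k138 10 (.s k101 k117 3 (.s k154 k48 14 (.d k223
  k239 k16 3 10)))))) (.c k139 (.q k203 [(.s k69 k138 10 (.s k101 k117 3 (.s k223 k239 3 (.d k154
  k16 k48 10 14)))), (.s k109 k158 12 (.s k125 k190 8 (.s k65 k105 5 (.s k77 k93 3 (.d k69 k73 k138
  1 10))))), (.s k125 k190 8 (.s k105 k65 5 (.s k154 k56 12 (.d k223 k239 k16 3 10))))] (.c k71 (.q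
  k79 [(.s k69 k138 10 (.s k101 k117 3 (.s k223 k239 3 (.d k154 k16 k48 10 14)))), (.s k20 k40 5 (.s
  k109 k158 12 (.s k124 k94 4 (.s k150 k215 8 (.d k188 k252 k169 7 6)))))] .n) (.c k79 (.l (.s k71
  k199 7 (.s k69 k138 10 (.s k101 k117 3 (.s k154 k48 14 (.d k223 k239 k16 3 10)))))) (.c k223 (.l
  (.s k20 k40 5 (.s k69 k138 10 (.s k101 k117 3 (.s k150 k215 8 (.d k199 k71 k52 7 12)))))) .n))))
  (.c k203 (.l (.s k139 k143 1 (.s k69 k138 10 (.s k101 k117 3 (.s k154 k48 14 (.d k223 k239 k16 3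
  10)))))) .n))))) (.c k131 (.q k67 [(.s k69 k138 10 (.s k101 k117 3 (.s k223 k239 3 (.d k154 k16
  k48 10 14)))), (.s k20 k40 5 (.s k150 k215 8 (.s k199 k71 7 (.s k101 k52 12 (.d k69 k117 k138 3
  10))))), (.s k20 k40 5 (.s k150 k215 8 (.s k158 k109 12 (.s k154 k146 1 (.d k223 k239 k16 3
  10)))))] (.c k139 (.q k203 [(.s k69 k138 10 (.s k101 k117 3 (.s k223 k239 3 (.d k154 k16 k48 10
  14)))), (.s k125 k190 8 (.s k105 k65 5 (.s k154 k56 12 (.d k223 k239 k16 3 10)))), (.s k20 k40 5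
  (.s k150 k215 8 (.s k199 k71 7 (.s k101 k52 12 (.d k69 k117 k138 3 10)))))] .n) (.c k203 (.q k139
  [(.s k69 k138 10 (.s k101 k117 3 (.s k223 k239 3 (.d k154 k16 k48 10 14)))), (.s k20 k40 5 (.s
  k150 k215 8 (.s k199 k71 7 (.s k101 k52 12 (.d k69 k117 k138 3 10))))), (.s k20 k40 5 (.s k150
  k215 8 (.s k158 k109 12 (.s k154 k146 1 (.d k223 k239 k16 3 10)))))] .n) .n))) (.c k139 (.q k203
  [(.s k69 k138 10 (.s k101 k117 3 (.s k223 k239 3 (.d k154 k16 k48 10 14)))), (.s k125 k190 8 (.s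
  k105 k65 5 (.s k154 k56 12 (.d k223 k239 k16 3 10)))), (.s k20 k40 5 (.s k150 k215 8 (.s k199 k71
  7 (.s k101 k52 12 (.d k69 k117 k138 3 10)))))] (.c k67 (.q k131 [(.s k69 k138 10 (.s k101 k117 3
  (.s k223 k239 3 (.d k154 k16 k48 10 14)))), (.s k109 k158 12 (.s k125 k190 8 (.s k65 k105 5 (.s
  k77 k93 3 (.d k69 k73 k138 1 10))))), (.s k125 k190 8 (.s k105 k65 5 (.s k154 k56 12 (.d k223 k239
  k16 3 10))))] (.c k71 (.q k79 [(.s k69 k138 10 (.s k101 k117 3 (.s k223 k239 3 (.d k154 k16 k48 10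
  14)))), (.s k20 k40 5 (.s k109 k158 12 (.s k124 k94 4 (.s k150 k215 8 (.d k188 k252 k169 7 6)))))]
  .n) (.c k79 (.l (.s k71 k199 7 (.s k69 k138 10 (.s k101 k117 3 (.s k154 k48 14 (.d k223 k239 k16 3
  10)))))) (.c k223 (.l (.s k20 k40 5 (.s k69 k138 10 (.s k101 k117 3 (.s k150 k215 8 (.d k199 k71
  k52 7 12)))))) .n)))) (.c k131 (.q k67 [(.s k69 k138 10 (.s k101 k117 3 (.s k223 k239 3 (.d k154
  k16 k48 10 14)))), (.s k125 k190 8 (.s k105 k65 5 (.s k154 k56 12 (.d k223 k239 k16 3 10)))), (.s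
  k20 k40 5 (.s k150 k215 8 (.s k199 k71 7 (.s k101 k52 12 (.d k69 k117 k138 3 10)))))] .n) .n)))
  (.c k203 (.q k139 [(.s k69 k138 10 (.s k101 k117 3 (.s k223 k239 3 (.d k154 k16 k48 10 14)))), (.s
  k20 k40 5 (.s k150 k215 8 (.s k199 k71 7 (.s k101 k52 12 (.d k69 k117 k138 3 10))))), (.s k20 k40
  5 (.s k150 k215 8 (.s k158 k109 12 (.s k154 k146 1 (.d k223 k239 k16 3 10)))))] (.c k67 (.l (.s
  k131 k143 1 (.s k69 k138 10 (.s k101 k117 3 (.s k154 k48 14 (.d k223 k239 k16 3 10)))))) (.c k131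
  (.q k67 [(.s k69 k138 10 (.s k101 k117 3 (.s k223 k239 3 (.d k154 k16 k48 10 14)))), (.s k20 k40 5
  (.s k150 k215 8 (.s k199 k71 7 (.s k101 k52 12 (.d k69 k117 k138 3 10))))), (.s k20 k40 5 (.s k150
  k215 8 (.s k158 k109 12 (.s k154 k146 1 (.d k223 k239 k16 3 10)))))] .n) .n))) .n))))) (.c k131
  (.q k67 [(.s k69 k138 10 (.s k101 k117 3 (.s k223 k239 3 (.d k154 k16 k48 10 14)))), (.s k109 k158
  12 (.s k125 k190 8 (.s k65 k105 5 (.s k77 k93 3 (.d k69 k73 k138 1 10))))), (.s k20 k40 5 (.s k150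
  k215 8 (.s k158 k109 12 (.s k223 k239 3 (.d k154 k146 k16 1 10)))))] (.c k75 (.q k135 [(.s k69
  k138 10 (.s k101 k117 3 (.s k223 k239 3 (.d k154 k16 k48 10 14)))), (.s k20 k40 5 (.s k150 k215 8
  (.s k199 k71 7 (.s k101 k52 12 (.d k69 k117 k138 3 10))))), (.s k20 k40 5 (.s k150 k215 8 (.s k158
  k109 12 (.s k154 k146 1 (.d k223 k239 k16 3 10)))))] (.c k139 (.q k203 [(.s k69 k138 10 (.s k101
  k117 3 (.s k223 k239 3 (.d k154 k16 k48 10 14)))), (.s k125 k190 8 (.s k105 k65 5 (.s k154 k56 12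
  (.d k223 k239 k16 3 10)))), (.s k20 k40 5 (.s k150 k215 8 (.s k199 k71 7 (.s k101 k52 12 (.d k69
  k117 k138 3 10)))))] .n) (.c k203 (.q k139 [(.s k69 k138 10 (.s k101 k117 3 (.s k223 k239 3 (.d
  k154 k16 k48 10 14)))), (.s k20 k40 5 (.s k150 k215 8 (.s k199 k71 7 (.s k101 k52 12 (.d k69 k117
  k138 3 10))))), (.s k20 k40 5 (.s k150 k215 8 (.s k158 k109 12 (.s k154 k146 1 (.d k223 k239 k16 3
  10)))))] .n) .n))) (.c k135 (.q k75 [(.s k69 k138 10 (.s k101 k117 3 (.s k223 k239 3 (.d k154 k16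
  k48 10 14)))), (.s k79 k71 1 (.s k109 k158 12 (.s k124 k94 4 (.s k105 k86 6 (.d k125 k65 k190 5
  8)))))] (.c k101 (.l (.s k20 k40 5 (.s k150 k215 8 (.s k158 k109 12 (.s k154 k146 1 (.d k223 k239
  k16 3 10)))))) (.c k139 (.q k143 [(.s k69 k138 10 (.s k101 k117 3 (.s k223 k239 3 (.d k154 k16 k48
  10 14)))), (.s k79 k71 1 (.s k109 k158 12 (.s k124 k94 4 (.s k105 k86 6 (.d k125 k65 k190 5
  8)))))] (.c k101 (.l (.s k20 k40 5 (.s k150 k215 8 (.s k158 k109 12 (.s k154 k146 1 (.d k223 k239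
  k16 3 10)))))) .n)) (.c k143 (.q k139 [(.s k69 k138 10 (.s k101 k117 3 (.s k223 k239 3 (.d k154
  k16 k48 10 14)))), (.s k79 k71 1 (.s k109 k158 12 (.s k124 k94 4 (.s k105 k86 6 (.d k125 k65 k190
  5 8)))))] (.c k101 (.l (.s k20 k40 5 (.s k150 k215 8 (.s k158 k109 12 (.s k154 k146 1 (.d k223
  k239 k16 3 10)))))) .n)) .n)))) (.c k223 (.l (.s k69 k138 10 (.s k101 k117 3 (.s k109 k158 12 (.s
  k105 k97 1 (.d k125 k65 k190 5 8)))))) .n)))) (.c k135 (.q k75 [(.s k69 k138 10 (.s k101 k117 3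
  (.s k223 k239 3 (.d k154 k16 k48 10 14)))), (.s k109 k158 12 (.s k125 k190 8 (.s k65 k105 5 (.s
  k77 k93 3 (.d k69 k73 k138 1 10))))), (.s k20 k40 5 (.s k150 k215 8 (.s k158 k109 12 (.s k223 k239
  3 (.d k154 k146 k16 1 10)))))] (.c k67 (.q k131 [(.s k69 k138 10 (.s k101 k117 3 (.s k223 k239 3
  (.d k154 k16 k48 10 14)))), (.s k109 k158 12 (.s k125 k190 8 (.s k65 k105 5 (.s k77 k93 3 (.d k69
  k73 k138 1 10))))), (.s k20 k40 5 (.s k150 k215 8 (.s k158 k109 12 (.s k223 k239 3 (.d k154 k146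
  k16 1 10)))))] (.c k223 (.l (.s k69 k138 10 (.s k101 k117 3 (.s k109 k158 12 (.s k105 k97 1 (.d
  k125 k65 k190 5 8)))))) .n)) (.c k131 (.q k67 [(.s k69 k138 10 (.s k101 k117 3 (.s k223 k239 3 (.d
  k154 k16 k48 10 14)))), (.s k79 k71 1 (.s k109 k158 12 (.s k124 k94 4 (.s k105 k86 6 (.d k125 k65
  k190 5 8)))))] (.c k101 (.l (.s k20 k40 5 (.s k150 k215 8 (.s k158 k109 12 (.s k154 k146 1 (.d
  k223 k239 k16 3 10)))))) (.c k139 (.q k143 [(.s k69 k138 10 (.s k101 k117 3 (.s k223 k239 3 (.d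
  k154 k16 k48 10 14)))), (.s k79 k71 1 (.s k109 k158 12 (.s k124 k94 4 (.s k105 k86 6 (.d k125 k65
  k190 5 8)))))] (.c k101 (.l (.s k20 k40 5 (.s k150 k215 8 (.s k158 k109 12 (.s k154 k146 1 (.d
  k223 k239 k16 3 10)))))) .n)) (.c k143 (.q k139 [(.s k69 k138 10 (.s k101 k117 3 (.s k223 k239 3
  (.d k154 k16 k48 10 14)))), (.s k79 k71 1 (.s k109 k158 12 (.s k124 k94 4 (.s k105 k86 6 (.d k125
  k65 k190 5 8)))))] (.c k101 (.l (.s k20 k40 5 (.s k150 k215 8 (.s k158 k109 12 (.s k154 k146 1 (.d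
  k223 k239 k16 3 10)))))) .n)) .n)))) (.c k223 (.l (.s k69 k138 10 (.s k101 k117 3 (.s k109 k158 12
  (.s k105 k97 1 (.d k125 k65 k190 5 8)))))) .n)))) (.c k223 (.l (.s k69 k138 10 (.s k101 k117 3 (.s
  k109 k158 12 (.s k105 k97 1 (.d k125 k65 k190 5 8)))))) .n))))))) (.c k215 (.l (.s k40 k20 5 (.s
  k170 k255 14 (.s k105 k235 8 (.s k195 k150 14 (.d k65 k125 k130 5 8)))))) (.c k235 (.l (.s k20 k40
  5 (.s k150 k215 8 (.s k105 k195 14 (.s k255 k170 14 (.d k125 k65 k190 5 8)))))) (.c k255 (.f k20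
  k40 5 (.f k215 k150 8 (.q k87 [(.s k86 k84 0 (.s k23 k151 7 (.s k149 k212 8 (.d k21 k22 k213 0
  7)))), (.s k86 k84 0 (.s k165 k244 12 (.s k5 k245 11 (.s k4 k6 0 (.d k247 k167 k166 11 12))))),
  (.s k23 k151 7 (.s k22 k21 0 (.s k52 k37 4 (.s k4 k36 3 (.d k247 k167 k166 11 12)))))] (.c k95 (.q
  k175 [(.s k86 k84 0 (.s k23 k151 7 (.s k149 k212 8 (.d k21 k22 k213 0 7)))), (.s k86 k84 0 (.s
  k165 k244 12 (.s k5 k245 11 (.s k4 k6 0 (.d k247 k167 k166 11 12))))), (.s k23 k151 7 (.s k22 k21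
  0 (.s k52 k37 4 (.s k4 k36 3 (.d k247 k167 k166 11 12)))))] .n) (.c k175 (.q k95 [(.s k86 k84 0
  (.s k23 k151 7 (.s k149 k212 8 (.d k21 k22 k213 0 7)))), (.s k80 k90 2 (.s k83 k91 1 (.s k81 k82 0
  (.s k86 k84 0 (.d k89 k93 k92 1 2))))), (.s k23 k151 7 (.s k22 k21 0 (.s k52 k37 4 (.s k4 k36 3
  (.d k247 k167 k166 11 12)))))] .n) .n))))) .n))))))))))))

def s3_15_12 : T TT 256 :=
  (.l (.s k20 k40 5 (.s k150 k215 8 (.s k105 k195 14 (.s k125 k65 5 (.d k255 k190 k170 8 14))))))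

def s3_15_13 : T TT 256 :=
  (.l (.s k20 k40 5 (.s k150 k215 8 (.s k105 k195 14 (.s k125 k65 5 (.d k255 k190 k170 8 14))))))

def s3_15_14 : T TT 256 :=
  (.l (.s k20 k40 5 (.s k150 k215 8 (.s k105 k195 14 (.s k125 k65 5 (.d k255 k190 k170 8 14))))))

def s3_15_16 : T TT 256 :=
  (.l (.s k20 k40 5 (.s k150 k215 8 (.s k105 k195 14 (.s k125 k65 5 (.d k255 k190 k170 8 14))))))

def s3_15_17 : T TT 256 :=
  (.l (.s k20 k40 5 (.s k150 k215 8 (.s k105 k195 14 (.s k125 k65 5 (.d k255 k190 k170 8 14))))))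

def s3_15_18 : T TT 256 :=
  (.l (.s k20 k40 5 (.s k150 k215 8 (.s k105 k195 14 (.s k125 k65 5 (.d k255 k190 k170 8 14))))))

def s3_15_19 : T TT 256 :=
  (.l (.s k20 k40 5 (.s k150 k215 8 (.s k105 k195 14 (.s k125 k65 5 (.d k255 k190 k170 8 14))))))

def s3_15_20 : T TT 256 :=
  (.f k255 k170 14 (.f k190 k125 8 (.q k12 [(.s k4 k8 1 (.s k93 k174 12 (.s k89 k81 1 (.d k166 k247
  k243 12 14)))), (.s k44 k28 3 (.s k174 k93 12 (.s k109 k239 8 (.d k158 k142 k207 3 12)))), (.s k4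
  k8 1 (.s k28 k44 3 (.s k166 k247 12 (.s k89 k243 14 (.s k150 k211 10 (.s k134 k182 3 (.d k195 k73
  k105 10 14)))))))] (.c k7 (.q k11 [(.s k4 k8 1 (.s k93 k174 12 (.s k89 k81 1 (.d k166 k247 k243 12
  14)))), (.s k44 k28 3 (.s k174 k93 12 (.s k109 k239 8 (.d k158 k142 k207 3 12)))), (.s k4 k8 1 (.s
  k28 k44 3 (.s k166 k247 12 (.s k89 k243 14 (.s k150 k211 10 (.s k134 k182 3 (.d k195 k73 k105 10
  14)))))))] .n) (.c k11 (.q k7 [(.s k4 k8 1 (.s k93 k174 12 (.s k89 k81 1 (.d k166 k247 k243 12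
  14)))), (.s k44 k28 3 (.s k174 k93 12 (.s k109 k239 8 (.d k158 k142 k207 3 12)))), (.s k4 k8 1 (.s
  k5 k6 0 (.s k165 k245 11 (.s k86 k244 12 (.s k87 k84 0 (.d k247 k167 k166 11 12))))))] .n) .n)))))

def s3_15_21 : T TT 256 :=
  (.l (.s k20 k40 5 (.s k150 k215 8 (.s k105 k195 14 (.s k125 k65 5 (.d k255 k190 k170 8 14))))))

def s3_15_22 : T TT 256 :=
  (.l (.s k20 k40 5 (.s k150 k215 8 (.s k105 k195 14 (.s k125 k65 5 (.d k255 k190 k170 8 14))))))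

def s3_15_23 : T TT 256 :=
  (.l (.s k20 k40 5 (.s k150 k215 8 (.s k105 k195 14 (.s k125 k65 5 (.d k255 k190 k170 8 14))))))

def s3_15_24 : T TT 256 :=
  (.l (.s k20 k40 5 (.s k150 k215 8 (.s k105 k195 14 (.s k125 k65 5 (.d k255 k190 k170 8 14))))))

def s3_15_25 : T TT 256 :=
  (.l (.s k20 k40 5 (.s k150 k215 8 (.s k105 k195 14 (.s k125 k65 5 (.d k255 k190 k170 8 14))))))

def s3_15_26 : T TT 256 :=
  (.l (.s k20 k40 5 (.s k150 k215 8 (.s k105 k195 14 (.s k125 k65 5 (.d k255 k190 k170 8 14))))))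

def s3_15_27 : T TT 256 :=
  (.l (.s k20 k40 5 (.s k150 k215 8 (.s k105 k195 14 (.s k125 k65 5 (.d k255 k190 k170 8 14))))))

def s3_15_28 : T TT 256 :=
  (.l (.s k20 k40 5 (.s k150 k215 8 (.s k105 k195 14 (.s k125 k65 5 (.d k255 k190 k170 8 14))))))

def s3_15_29 : T TT 256 :=
  (.l (.s k20 k40 5 (.s k150 k215 8 (.s k105 k195 14 (.s k125 k65 5 (.d k255 k190 k170 8 14))))))

def s3_15_30 : T TT 256 :=
  (.l (.s k20 k40 5 (.s k150 k215 8 (.s k105 k195 14 (.s k125 k65 5 (.d k255 k190 k170 8 14))))))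

def s3_15_31 : T TT 256 :=
  (.l (.s k20 k40 5 (.s k150 k215 8 (.s k105 k195 14 (.s k125 k65 5 (.d k255 k190 k170 8 14))))))

def s3_15_32 : T TT 256 :=
  (.l (.s k20 k40 5 (.s k150 k215 8 (.s k105 k195 14 (.s k125 k65 5 (.d k255 k190 k170 8 14))))))

def s3_15_33 : T TT 256 :=
  (.l (.s k20 k40 5 (.s k150 k215 8 (.s k105 k195 14 (.s k125 k65 5 (.d k255 k190 k170 8 14))))))

def s3_15_34 : T TT 256 :=
  (.l (.s k20 k40 5 (.s k150 k215 8 (.s k105 k195 14 (.s k125 k65 5 (.d k255 k190 k170 8 14))))))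

def s3_15_35 : T TT 256 :=
  (.l (.s k20 k40 5 (.s k150 k215 8 (.s k105 k195 14 (.s k125 k65 5 (.d k255 k190 k170 8 14))))))

def s3_15_36 : T TT 256 :=
  (.l (.s k20 k40 5 (.s k150 k215 8 (.s k105 k195 14 (.s k125 k65 5 (.d k255 k190 k170 8 14))))))

def s3_15_37 : T TT 256 :=
  (.l (.s k20 k40 5 (.s k150 k215 8 (.s k105 k195 14 (.s k125 k65 5 (.d k255 k190 k170 8 14))))))

def s3_15_38 : T TT 256 :=
  (.l (.s k20 k40 5 (.s k150 k215 8 (.s k105 k195 14 (.s k125 k65 5 (.d k255 k190 k170 8 14))))))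

def s3_15_39 : T TT 256 :=
  (.l (.s k20 k40 5 (.s k150 k215 8 (.s k105 k195 14 (.s k125 k65 5 (.d k255 k190 k170 8 14))))))

def s3_15_40 : T TT 256 :=
  (.q k109 [(.s k207 k158 12 (.s k69 k138 10 (.s k101 k117 3 (.s k105 k97 1 (.s k65 k125 5 (.d k195
  k130 k150 8 14)))))), (.s k158 k207 12 (.s k255 k170 14 (.s k190 k125 8 (.s k174 k142 3 (.s k12
  k93 12 (.d k44 k28 k239 3 8)))))), (.s k170 k255 14 (.s k207 k158 12 (.s k69 k138 10 (.s k101 k117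
  3 (.s k32 k239 10 (.d k48 k16 k154 3 14)))))), (.s k255 k170 14 (.s k125 k190 8 (.s k77 k93 3 (.s
  k105 k65 5 (.s k101 k97 1 (.s k113 k89 5 (.d k117 k121 k69 1 3)))))))] (.c k7 (.q k11 [(.s k207
  k158 12 (.s k69 k138 10 (.s k101 k117 3 (.s k105 k97 1 (.s k65 k125 5 (.d k195 k130 k150 8
  14)))))), (.s k158 k207 12 (.s k255 k170 14 (.s k190 k125 8 (.s k174 k142 3 (.s k12 k93 12 (.d k44
  k28 k239 3 8)))))), (.s k170 k255 14 (.s k207 k158 12 (.s k69 k138 10 (.s k101 k117 3 (.s k32 k239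
  10 (.d k48 k16 k154 3 14)))))), (.s k255 k170 14 (.s k125 k190 8 (.s k77 k93 3 (.s k105 k65 5 (.s
  k101 k97 1 (.s k113 k89 5 (.d k117 k121 k69 1 3)))))))] .n) (.c k11 (.q k7 [(.s k207 k158 12 (.s
  k69 k138 10 (.s k101 k117 3 (.s k105 k97 1 (.s k65 k125 5 (.d k195 k130 k150 8 14)))))), (.s k158
  k207 12 (.s k255 k170 14 (.s k190 k125 8 (.s k174 k142 3 (.s k12 k93 12 (.d k44 k28 k239 3
  8)))))), (.s k170 k255 14 (.s k207 k158 12 (.s k69 k138 10 (.s k101 k117 3 (.s k32 k239 10 (.d k48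
  k16 k154 3 14)))))), (.s k255 k170 14 (.s k125 k190 8 (.s k77 k93 3 (.s k105 k65 5 (.s k101 k97 1
  (.s k113 k89 5 (.d k117 k121 k69 1 3)))))))] .n) .n)))

def s3_15_41 : T TT 256 :=
  (.l (.s k20 k40 5 (.s k150 k215 8 (.s k105 k195 14 (.s k125 k65 5 (.d k255 k190 k170 8 14))))))

def s3_15_42 : T TT 256 :=
  (.l (.s k20 k40 5 (.s k150 k215 8 (.s k105 k195 14 (.s k125 k65 5 (.d k255 k190 k170 8 14))))))

def s3_15_43 : T TT 256 :=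
  (.l (.s k20 k40 5 (.s k150 k215 8 (.s k105 k195 14 (.s k125 k65 5 (.d k255 k190 k170 8 14))))))

def s3_15_44 : T TT 256 :=
  (.l (.s k20 k40 5 (.s k150 k215 8 (.s k105 k195 14 (.s k125 k65 5 (.d k255 k190 k170 8 14))))))

def s3_15_45 : T TT 256 :=
  (.l (.s k20 k40 5 (.s k150 k215 8 (.s k105 k195 14 (.s k125 k65 5 (.d k255 k190 k170 8 14))))))

def s3_15_46 : T TT 256 :=
  (.l (.s k20 k40 5 (.s k150 k215 8 (.s k105 k195 14 (.s k125 k65 5 (.d k255 k190 k170 8 14))))))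

def s3_15_47 : T TT 256 :=
  (.l (.s k20 k40 5 (.s k150 k215 8 (.s k105 k195 14 (.s k125 k65 5 (.d k255 k190 k170 8 14))))))

def s3_15_48 : T TT 256 :=
  (.l (.s k20 k40 5 (.s k150 k215 8 (.s k105 k195 14 (.s k125 k65 5 (.d k255 k190 k170 8 14))))))

def s3_15_49 : T TT 256 :=
  (.l (.s k20 k40 5 (.s k150 k215 8 (.s k105 k195 14 (.s k125 k65 5 (.d k255 k190 k170 8 14))))))

def s3_15_50 : T TT 256 :=
  (.l (.s k20 k40 5 (.s k150 k215 8 (.s k105 k195 14 (.s k125 k65 5 (.d k255 k190 k170 8 14))))))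

def s3_15_51 : T TT 256 :=
  (.l (.s k20 k40 5 (.s k150 k215 8 (.s k105 k195 14 (.s k125 k65 5 (.d k255 k190 k170 8 14))))))

def s3_15_52 : T TT 256 :=
  (.l (.s k20 k40 5 (.s k150 k215 8 (.s k105 k195 14 (.s k125 k65 5 (.d k255 k190 k170 8 14))))))

def s3_15_53 : T TT 256 :=
  (.l (.s k20 k40 5 (.s k150 k215 8 (.s k105 k195 14 (.s k125 k65 5 (.d k255 k190 k170 8 14))))))

def s3_15_54 : T TT 256 :=
  (.l (.s k20 k40 5 (.s k150 k215 8 (.s k105 k195 14 (.s k125 k65 5 (.d k255 k190 k170 8 14))))))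

def s3_15_55 : T TT 256 :=
  (.l (.s k20 k40 5 (.s k150 k215 8 (.s k105 k195 14 (.s k125 k65 5 (.d k255 k190 k170 8 14))))))

def s3_15_56 : T TT 256 :=
  (.l (.s k20 k40 5 (.s k150 k215 8 (.s k105 k195 14 (.s k125 k65 5 (.d k255 k190 k170 8 14))))))

def s3_15_57 : T TT 256 :=
  (.l (.s k20 k40 5 (.s k150 k215 8 (.s k105 k195 14 (.s k125 k65 5 (.d k255 k190 k170 8 14))))))

def s3_15_58 : T TT 256 :=
  (.l (.s k20 k40 5 (.s k150 k215 8 (.s k105 k195 14 (.s k125 k65 5 (.d k255 k190 k170 8 14))))))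

def s3_15_59 : T TT 256 :=
  (.l (.s k20 k40 5 (.s k150 k215 8 (.s k105 k195 14 (.s k125 k65 5 (.d k255 k190 k170 8 14))))))

def s3_15_61 : T TT 256 :=
  (.l (.s k20 k40 5 (.s k150 k215 8 (.s k105 k195 14 (.s k125 k65 5 (.d k255 k190 k170 8 14))))))

def s3_15_62 : T TT 256 :=
  (.l (.s k20 k40 5 (.s k150 k215 8 (.s k105 k195 14 (.s k125 k65 5 (.d k255 k190 k170 8 14))))))

def s3_15_63 : T TT 256 :=
  (.l (.s k20 k40 5 (.s k150 k215 8 (.s k105 k195 14 (.s k125 k65 5 (.d k255 k190 k170 8 14))))))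

def s3_15_64 : T TT 256 :=
  (.l (.s k20 k40 5 (.s k150 k215 8 (.s k105 k195 14 (.s k125 k65 5 (.d k255 k190 k170 8 14))))))

def s3_15_65 : T TT 256 :=
  (.f k255 k170 14 (.f k190 k125 8 (.f k40 k20 5 (.q k186 [(.s k48 k117 10 (.s k56 k52 1 (.s k182
  k178 1 (.d k121 k251 k243 8 10)))), (.s k117 k48 10 (.s k69 k101 3 (.s k207 k138 10 (.s k158 k109
  12 (.s k174 k142 3 (.s k93 k12 12 (.d k223 k239 k28 3 8))))))), (.s k182 k178 1 (.s k243 k121 10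
  (.s k81 k162 12 (.s k89 k93 1 (.s k166 k12 14 (.d k247 k251 k4 1 12))))))] (.c k7 (.q k11 [(.s k48
  k117 10 (.s k182 k178 1 (.s k121 k243 10 (.d k56 k52 k251 1 8)))), (.s k117 k48 10 (.s k69 k101 3
  (.s k207 k138 10 (.s k158 k109 12 (.s k174 k142 3 (.s k93 k12 12 (.d k223 k239 k28 3 8)))))))] (.c
  k48 (.l (.s k182 k178 1 (.s k243 k121 10 (.s k81 k162 12 (.s k89 k93 1 (.s k166 k12 14 (.d k247
  k251 k4 1 12))))))) (.c k117 (.l (.s k182 k178 1 (.s k121 k243 10 (.s k56 k251 8 (.s k48 k52 1 (.s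
  k32 k16 3 (.s k36 k44 1 (.d k24 k8 k12 3 5)))))))) .n))) (.c k11 (.q k7 [(.s k48 k117 10 (.s k56
  k52 1 (.s k182 k178 1 (.d k121 k251 k243 8 10)))), (.s k117 k48 10 (.s k69 k101 3 (.s k207 k138 10
  (.s k158 k109 12 (.s k174 k142 3 (.s k93 k12 12 (.d k223 k239 k28 3 8))))))), (.s k182 k178 1 (.s
  k243 k121 10 (.s k81 k162 12 (.s k89 k93 1 (.s k166 k12 14 (.d k247 k251 k4 1 12))))))] (.c k117
  (.l (.s k182 k178 1 (.s k121 k243 10 (.s k56 k251 8 (.s k48 k52 1 (.s k32 k16 3 (.s k36 k44 1 (.d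
  k24 k8 k12 3 5)))))))) .n)) (.c k117 (.l (.s k182 k178 1 (.s k121 k243 10 (.s k56 k251 8 (.s k48
  k52 1 (.s k32 k16 3 (.s k36 k44 1 (.d k24 k8 k12 3 5)))))))) .n)))))))

def s3_15_66 : T TT 256 :=
  (.l (.s k20 k40 5 (.s k150 k215 8 (.s k105 k195 14 (.s k125 k65 5 (.d k255 k190 k170 8 14))))))

def s3_15_67 : T TT 256 :=
  (.l (.s k20 k40 5 (.s k150 k215 8 (.s k170 k255 14 (.s k130 k190 5 (.d k195 k65 k105 8 14))))))

def s3_15_68 : T TT 256 :=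
  (.l (.s k20 k40 5 (.s k150 k215 8 (.s k105 k195 14 (.s k125 k65 5 (.d k255 k190 k170 8 14))))))

def s3_15_69 : T TT 256 :=
  (.l (.s k20 k40 5 (.s k150 k215 8 (.s k105 k195 14 (.s k125 k65 5 (.d k255 k190 k170 8 14))))))

def s3_15_70 : T TT 256 :=
  (.l (.s k20 k40 5 (.s k150 k215 8 (.s k105 k195 14 (.s k125 k65 5 (.d k255 k190 k170 8 14))))))

def s3_15_71 : T TT 256 :=
  (.l (.s k20 k40 5 (.s k150 k215 8 (.s k105 k195 14 (.s k125 k65 5 (.d k255 k190 k170 8 14))))))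

def s3_15_72 : T TT 256 :=
  (.l (.s k20 k40 5 (.s k150 k215 8 (.s k105 k195 14 (.s k125 k65 5 (.d k255 k190 k170 8 14))))))

def s3_15_73 : T TT 256 :=
  (.l (.s k20 k40 5 (.s k150 k215 8 (.s k105 k195 14 (.s k125 k65 5 (.d k255 k190 k170 8 14))))))

def s3_15_74 : T TT 256 :=
  (.l (.s k20 k40 5 (.s k150 k215 8 (.s k105 k195 14 (.s k125 k65 5 (.d k255 k190 k170 8 14))))))

def s3_15_75 : T TT 256 :=
  (.l (.s k20 k40 5 (.s k150 k215 8 (.s k170 k255 14 (.s k130 k190 5 (.d k195 k65 k105 8 14))))))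

def s3_15_76 : T TT 256 :=
  (.l (.s k20 k40 5 (.s k150 k215 8 (.s k105 k195 14 (.s k125 k65 5 (.d k255 k190 k170 8 14))))))

def s3_15_77 : T TT 256 :=
  (.l (.s k20 k40 5 (.s k150 k215 8 (.s k105 k195 14 (.s k125 k65 5 (.d k255 k190 k170 8 14))))))

def s3_15_78 : T TT 256 :=
  (.l (.s k20 k40 5 (.s k150 k215 8 (.s k105 k195 14 (.s k125 k65 5 (.d k255 k190 k170 8 14))))))

def s3_15_79 : T TT 256 :=
  (.l (.s k20 k40 5 (.s k150 k215 8 (.s k105 k195 14 (.s k125 k65 5 (.d k255 k190 k170 8 14))))))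

def s3_15_80 : T TT 256 :=
  (.l (.s k20 k40 5 (.s k150 k215 8 (.s k105 k195 14 (.s k125 k65 5 (.d k255 k190 k170 8 14))))))

def s3_15_81 : T TT 256 :=
  (.l (.s k20 k40 5 (.s k150 k215 8 (.s k105 k195 14 (.s k125 k65 5 (.d k255 k190 k170 8 14))))))

def s3_15_82 : T TT 256 :=
  (.l (.s k20 k40 5 (.s k150 k215 8 (.s k105 k195 14 (.s k125 k65 5 (.d k255 k190 k170 8 14))))))

def s3_15_83 : T TT 256 :=
  (.l (.s k20 k40 5 (.s k150 k215 8 (.s k105 k195 14 (.s k125 k65 5 (.d k255 k190 k170 8 14))))))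

def s3_15_84 : T TT 256 :=
  (.l (.s k20 k40 5 (.s k150 k215 8 (.s k105 k195 14 (.s k125 k65 5 (.d k255 k190 k170 8 14))))))

def s3_15_86 : T TT 256 :=
  (.l (.s k20 k40 5 (.s k150 k215 8 (.s k105 k195 14 (.s k125 k65 5 (.d k255 k190 k170 8 14))))))

def s3_15_87 : T TT 256 :=
  (.l (.s k20 k40 5 (.s k150 k215 8 (.s k105 k195 14 (.s k125 k65 5 (.d k255 k190 k170 8 14))))))

def s3_15_88 : T TT 256 :=
  (.l (.s k20 k40 5 (.s k150 k215 8 (.s k105 k195 14 (.s k125 k65 5 (.d k255 k190 k170 8 14))))))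

def s3_15_89 : T TT 256 :=
  (.l (.s k20 k40 5 (.s k150 k215 8 (.s k105 k195 14 (.s k125 k65 5 (.d k255 k190 k170 8 14))))))

def s3_15_90 : T TT 256 :=
  (.l (.s k20 k40 5 (.s k150 k215 8 (.s k105 k195 14 (.s k125 k65 5 (.d k255 k190 k170 8 14))))))

def s3_15_91 : T TT 256 :=
  (.l (.s k20 k40 5 (.s k150 k215 8 (.s k105 k195 14 (.s k125 k65 5 (.d k255 k190 k170 8 14))))))

def s3_15_92 : T TT 256 :=
  (.l (.s k20 k40 5 (.s k150 k215 8 (.s k105 k195 14 (.s k125 k65 5 (.d k255 k190 k170 8 14))))))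

def s3_15_93 : T TT 256 :=
  (.l (.s k20 k40 5 (.s k150 k215 8 (.s k105 k195 14 (.s k125 k65 5 (.d k255 k190 k170 8 14))))))

def s3_15_94 : T TT 256 :=
  (.l (.s k20 k40 5 (.s k150 k215 8 (.s k105 k195 14 (.s k125 k65 5 (.d k255 k190 k170 8 14))))))

def s3_15_95 : T TT 256 :=
  (.l (.s k20 k40 5 (.s k150 k215 8 (.s k105 k195 14 (.s k125 k65 5 (.d k255 k190 k170 8 14))))))

def s3_15_96 : T TT 256 :=
  (.l (.s k20 k40 5 (.s k150 k215 8 (.s k105 k195 14 (.s k125 k65 5 (.d k255 k190 k170 8 14))))))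

def s3_15_97 : T TT 256 :=
  (.l (.s k20 k40 5 (.s k150 k215 8 (.s k105 k195 14 (.s k125 k65 5 (.d k255 k190 k170 8 14))))))

def s3_15_98 : T TT 256 :=
  (.l (.s k20 k40 5 (.s k150 k215 8 (.s k105 k195 14 (.s k125 k65 5 (.d k255 k190 k170 8 14))))))

def s3_15_99 : T TT 256 :=
  (.l (.s k20 k40 5 (.s k150 k215 8 (.s k105 k195 14 (.s k125 k65 5 (.d k255 k190 k170 8 14))))))

def s3_15_100 : T TT 256 :=
  (.l (.s k20 k40 5 (.s k150 k215 8 (.s k105 k195 14 (.s k125 k65 5 (.d k255 k190 k170 8 14))))))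

def s3_15_101 : T TT 256 :=
  (.l (.s k20 k40 5 (.s k150 k215 8 (.s k105 k195 14 (.s k125 k65 5 (.d k255 k190 k170 8 14))))))

def s3_15_102 : T TT 256 :=
  (.l (.s k20 k40 5 (.s k150 k215 8 (.s k105 k195 14 (.s k125 k65 5 (.d k255 k190 k170 8 14))))))

def s3_15_103 : T TT 256 :=
  (.l (.s k20 k40 5 (.s k150 k215 8 (.s k105 k195 14 (.s k125 k65 5 (.d k255 k190 k170 8 14))))))

def s3_15_104 : T TT 256 :=
  (.l (.s k20 k40 5 (.s k150 k215 8 (.s k105 k195 14 (.s k125 k65 5 (.d k255 k190 k170 8 14))))))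

def s3_15_105 : T TT 256 :=
  (.f k255 k170 14 (.f k40 k20 5 (.f k190 k125 8 (.q k12 [(.s k4 k8 1 (.s k93 k174 12 (.s k89 k81 1
  (.d k166 k247 k243 12 14)))), (.s k44 k28 3 (.s k174 k93 12 (.s k109 k239 8 (.d k158 k142 k207 3
  12)))), (.s k8 k4 1 (.s k24 k56 3 (.s k36 k48 5 (.d k44 k32 k28 1 3))))] (.c k7 (.q k11 [(.s k4 k8
  1 (.s k93 k174 12 (.s k89 k81 1 (.d k166 k247 k243 12 14)))), (.s k44 k28 3 (.s k174 k93 12 (.s
  k109 k239 8 (.d k158 k142 k207 3 12)))), (.s k8 k4 1 (.s k24 k56 3 (.s k36 k48 5 (.d k44 k32 k28 1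
  3))))] .n) (.c k11 (.q k7 [(.s k4 k8 1 (.s k93 k174 12 (.s k89 k81 1 (.d k166 k247 k243 12 14)))),
  (.s k44 k28 3 (.s k174 k93 12 (.s k109 k239 8 (.d k158 k142 k207 3 12)))), (.s k8 k4 1 (.s k24 k56
  3 (.s k36 k48 5 (.d k44 k32 k28 1 3))))] .n) .n))))))

def s3_15_106 : T TT 256 :=
  (.l (.s k20 k40 5 (.s k150 k215 8 (.s k105 k195 14 (.s k125 k65 5 (.d k255 k190 k170 8 14))))))

def s3_15_107 : T TT 256 :=
  (.l (.s k20 k40 5 (.s k150 k215 8 (.s k105 k195 14 (.s k125 k65 5 (.d k255 k190 k170 8 14))))))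

def s3_15_108 : T TT 256 :=
  (.l (.s k20 k40 5 (.s k150 k215 8 (.s k105 k195 14 (.s k125 k65 5 (.d k255 k190 k170 8 14))))))

def s3_15_109 : T TT 256 :=
  (.l (.s k20 k40 5 (.s k150 k215 8 (.s k105 k195 14 (.s k125 k65 5 (.d k255 k190 k170 8 14))))))

def s3_15_110 : T TT 256 :=
  (.l (.s k20 k40 5 (.s k150 k215 8 (.s k105 k195 14 (.s k125 k65 5 (.d k255 k190 k170 8 14))))))

def s3_15_111 : T TT 256 :=
  (.l (.s k20 k40 5 (.s k150 k215 8 (.s k105 k195 14 (.s k125 k65 5 (.d k255 k190 k170 8 14))))))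

def s3_15_112 : T TT 256 :=
  (.l (.s k20 k40 5 (.s k150 k215 8 (.s k105 k195 14 (.s k125 k65 5 (.d k255 k190 k170 8 14))))))

def s3_15_113 : T TT 256 :=
  (.l (.s k20 k40 5 (.s k150 k215 8 (.s k105 k195 14 (.s k125 k65 5 (.d k255 k190 k170 8 14))))))

def s3_15_114 : T TT 256 :=
  (.l (.s k20 k40 5 (.s k150 k215 8 (.s k105 k195 14 (.s k125 k65 5 (.d k255 k190 k170 8 14))))))

def s3_15_115 : T TT 256 :=
  (.l (.s k20 k40 5 (.s k150 k215 8 (.s k105 k195 14 (.s k125 k65 5 (.d k255 k190 k170 8 14))))))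

def s3_15_116 : T TT 256 :=
  (.l (.s k20 k40 5 (.s k150 k215 8 (.s k105 k195 14 (.s k125 k65 5 (.d k255 k190 k170 8 14))))))

def s3_15_117 : T TT 256 :=
  (.l (.s k20 k40 5 (.s k150 k215 8 (.s k105 k195 14 (.s k125 k65 5 (.d k255 k190 k170 8 14))))))

def s3_15_118 : T TT 256 :=
  (.l (.s k20 k40 5 (.s k150 k215 8 (.s k105 k195 14 (.s k125 k65 5 (.d k255 k190 k170 8 14))))))

def s3_15_119 : T TT 256 :=
  (.l (.s k20 k40 5 (.s k150 k215 8 (.s k105 k195 14 (.s k125 k65 5 (.d k255 k190 k170 8 14))))))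

def s3_15_120 : T TT 256 :=
  (.l (.s k20 k40 5 (.s k150 k215 8 (.s k105 k195 14 (.s k125 k65 5 (.d k255 k190 k170 8 14))))))

def s3_15_121 : T TT 256 :=
  (.l (.s k20 k40 5 (.s k150 k215 8 (.s k105 k195 14 (.s k125 k65 5 (.d k255 k190 k170 8 14))))))

def s3_15_122 : T TT 256 :=
  (.l (.s k20 k40 5 (.s k150 k215 8 (.s k105 k195 14 (.s k125 k65 5 (.d k255 k190 k170 8 14))))))

def s3_15_123 : T TT 256 :=
  (.l (.s k20 k40 5 (.s k150 k215 8 (.s k105 k195 14 (.s k125 k65 5 (.d k255 k190 k170 8 14))))))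

def s3_15_124 : T TT 256 :=
  (.l (.s k20 k40 5 (.s k150 k215 8 (.s k105 k195 14 (.s k125 k65 5 (.d k255 k190 k170 8 14))))))

def s3_15_125 : T TT 256 :=
  (.l (.s k20 k40 5 (.s k150 k215 8 (.s k170 k255 14 (.s k130 k190 5 (.d k195 k65 k105 8 14))))))

def s3_15_126 : T TT 256 :=
  (.l (.s k20 k40 5 (.s k150 k215 8 (.s k105 k195 14 (.s k125 k65 5 (.d k255 k190 k170 8 14))))))

def s3_15_127 : T TT 256 :=
  (.l (.s k20 k40 5 (.s k150 k215 8 (.s k105 k195 14 (.s k125 k65 5 (.d k255 k190 k170 8 14))))))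

def s3_15_128 : T TT 256 :=
  (.l (.s k20 k40 5 (.s k150 k215 8 (.s k105 k195 14 (.s k125 k65 5 (.d k255 k190 k170 8 14))))))

def s3_15_129 : T TT 256 :=
  (.l (.s k20 k40 5 (.s k150 k215 8 (.s k105 k195 14 (.s k125 k65 5 (.d k255 k190 k170 8 14))))))

def s3_15_130 : T TT 256 :=
  (.l (.s k20 k40 5 (.s k150 k215 8 (.s k105 k195 14 (.s k125 k65 5 (.d k255 k190 k170 8 14))))))

def s3_15_131 : T TT 256 :=
  (.l (.s k20 k40 5 (.s k150 k215 8 (.s k170 k255 14 (.s k130 k190 5 (.d k195 k65 k105 8 14))))))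

def s3_15_132 : T TT 256 :=
  (.l (.s k20 k40 5 (.s k150 k215 8 (.s k105 k195 14 (.s k125 k65 5 (.d k255 k190 k170 8 14))))))

def s3_15_133 : T TT 256 :=
  (.l (.s k20 k40 5 (.s k150 k215 8 (.s k105 k195 14 (.s k125 k65 5 (.d k255 k190 k170 8 14))))))

def s3_15_134 : T TT 256 :=
  (.l (.s k20 k40 5 (.s k150 k215 8 (.s k105 k195 14 (.s k125 k65 5 (.d k255 k190 k170 8 14))))))

def s3_15_135 : T TT 256 :=
  (.l (.s k20 k40 5 (.s k150 k215 8 (.s k170 k255 14 (.s k130 k190 5 (.d k195 k65 k105 8 14))))))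

def s3_15_136 : T TT 256 :=
  (.l (.s k20 k40 5 (.s k150 k215 8 (.s k105 k195 14 (.s k125 k65 5 (.d k255 k190 k170 8 14))))))

def s3_15_137 : T TT 256 :=
  (.l (.s k20 k40 5 (.s k150 k215 8 (.s k105 k195 14 (.s k125 k65 5 (.d k255 k190 k170 8 14))))))

def s3_15_138 : T TT 256 :=
  (.l (.s k20 k40 5 (.s k150 k215 8 (.s k105 k195 14 (.s k125 k65 5 (.d k255 k190 k170 8 14))))))

def s3_15_139 : T TT 256 :=
  (.l (.s k20 k40 5 (.s k150 k215 8 (.s k105 k195 14 (.s k125 k65 5 (.d k255 k190 k170 8 14))))))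

def s3_15_140 : T TT 256 :=
  (.l (.s k20 k40 5 (.s k150 k215 8 (.s k105 k195 14 (.s k125 k65 5 (.d k255 k190 k170 8 14))))))

def s3_15_141 : T TT 256 :=
  (.l (.s k20 k40 5 (.s k150 k215 8 (.s k105 k195 14 (.s k125 k65 5 (.d k255 k190 k170 8 14))))))

def s3_15_142 : T TT 256 :=
  (.l (.s k20 k40 5 (.s k150 k215 8 (.s k105 k195 14 (.s k125 k65 5 (.d k255 k190 k170 8 14))))))

def s3_15_143 : T TT 256 :=
  (.l (.s k20 k40 5 (.s k150 k215 8 (.s k105 k195 14 (.s k125 k65 5 (.d k255 k190 k170 8 14))))))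

def s3_15_144 : T TT 256 :=
  (.l (.s k20 k40 5 (.s k150 k215 8 (.s k105 k195 14 (.s k125 k65 5 (.d k255 k190 k170 8 14))))))

def s3_15_145 : T TT 256 :=
  (.l (.s k20 k40 5 (.s k150 k215 8 (.s k105 k195 14 (.s k125 k65 5 (.d k255 k190 k170 8 14))))))

def s3_15_146 : T TT 256 :=
  (.l (.s k20 k40 5 (.s k150 k215 8 (.s k105 k195 14 (.s k125 k65 5 (.d k255 k190 k170 8 14))))))

def s3_15_147 : T TT 256 :=
  (.l (.s k20 k40 5 (.s k150 k215 8 (.s k105 k195 14 (.s k125 k65 5 (.d k255 k190 k170 8 14))))))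

def s3_15_148 : T TT 256 :=
  (.l (.s k20 k40 5 (.s k150 k215 8 (.s k105 k195 14 (.s k125 k65 5 (.d k255 k190 k170 8 14))))))

def s3_15_149 : T TT 256 :=
  (.l (.s k20 k40 5 (.s k150 k215 8 (.s k105 k195 14 (.s k125 k65 5 (.d k255 k190 k170 8 14))))))

def s3_15_150 : T TT 256 :=
  (.f k40 k20 5 (.f k255 k170 14 (.f k190 k125 8 (.q k182 [(.s k121 k243 10 (.s k186 k178 1 (.s k48
  k117 10 (.d k56 k52 k251 1 8)))), (.s k243 k121 10 (.s k81 k162 12 (.s k89 k93 1 (.s k166 k12 14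
  (.d k247 k251 k4 1 12))))), (.s k186 k178 1 (.s k48 k117 10 (.s k32 k16 3 (.s k36 k44 1 (.s k24
  k12 5 (.d k56 k52 k8 1 3))))))] (.c k7 (.q k11 [(.s k121 k243 10 (.s k186 k178 1 (.s k48 k117 10
  (.d k56 k52 k251 1 8)))), (.s k243 k121 10 (.s k81 k162 12 (.s k89 k93 1 (.s k166 k12 14 (.d k247
  k251 k4 1 12))))), (.s k186 k178 1 (.s k48 k117 10 (.s k32 k16 3 (.s k36 k44 1 (.s k24 k12 5 (.d
  k56 k52 k8 1 3))))))] (.c k113 (.l (.s k121 k243 10 (.s k186 k178 1 (.s k48 k117 10 (.d k56 k52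
  k251 1 8))))) (.c k117 (.l (.s k121 k243 10 (.s k186 k178 1 (.s k56 k251 8 (.s k48 k52 1 (.s k32
  k16 3 (.s k36 k44 1 (.d k24 k8 k12 3 5)))))))) (.c k121 (.l (.s k186 k178 1 (.s k117 k48 10 (.s
  k247 k52 8 (.s k243 k251 1 (.s k81 k162 12 (.s k89 k93 1 (.d k166 k4 k12 12 14)))))))) .n)))) (.c
  k11 (.q k7 [(.s k121 k243 10 (.s k186 k178 1 (.s k48 k117 10 (.d k56 k52 k251 1 8)))), (.s k243
  k121 10 (.s k81 k162 12 (.s k89 k93 1 (.s k166 k12 14 (.d k247 k251 k4 1 12))))), (.s k186 k178 1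
  (.s k48 k117 10 (.s k32 k16 3 (.s k36 k44 1 (.s k24 k12 5 (.d k56 k52 k8 1 3))))))] (.c k113 (.l
  (.s k121 k243 10 (.s k186 k178 1 (.s k48 k117 10 (.d k56 k52 k251 1 8))))) (.c k117 (.l (.s k121
  k243 10 (.s k186 k178 1 (.s k56 k251 8 (.s k48 k52 1 (.s k32 k16 3 (.s k36 k44 1 (.d k24 k8 k12 3
  5)))))))) (.c k121 (.l (.s k186 k178 1 (.s k117 k48 10 (.s k247 k52 8 (.s k243 k251 1 (.s k81 k162
  12 (.s k89 k93 1 (.d k166 k4 k12 12 14)))))))) .n)))) (.c k113 (.l (.s k121 k243 10 (.s k186 k178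
  1 (.s k48 k117 10 (.d k56 k52 k251 1 8))))) (.c k117 (.l (.s k121 k243 10 (.s k186 k178 1 (.s k56
  k251 8 (.s k48 k52 1 (.s k32 k16 3 (.s k36 k44 1 (.d k24 k8 k12 3 5)))))))) (.c k121 (.l (.s k186
  k178 1 (.s k117 k48 10 (.s k247 k52 8 (.s k243 k251 1 (.s k81 k162 12 (.s k89 k93 1 (.d k166 k4
  k12 12 14)))))))) .n)))))))))

def s3_15_151 : T TT 256 :=
  (.l (.s k20 k40 5 (.s k150 k215 8 (.s k105 k195 14 (.s k125 k65 5 (.d k255 k190 k170 8 14))))))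

def s3_15_152 : T TT 256 :=
  (.l (.s k20 k40 5 (.s k150 k215 8 (.s k105 k195 14 (.s k125 k65 5 (.d k255 k190 k170 8 14))))))

def s3_15_153 : T TT 256 :=
  (.l (.s k20 k40 5 (.s k150 k215 8 (.s k105 k195 14 (.s k125 k65 5 (.d k255 k190 k170 8 14))))))

def s3_15_154 : T TT 256 :=
  (.l (.s k20 k40 5 (.s k150 k215 8 (.s k105 k195 14 (.s k125 k65 5 (.d k255 k190 k170 8 14))))))

def s3_15_155 : T TT 256 :=
  (.l (.s k20 k40 5 (.s k150 k215 8 (.s k105 k195 14 (.s k125 k65 5 (.d k255 k190 k170 8 14))))))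

def s3_15_156 : T TT 256 :=
  (.l (.s k20 k40 5 (.s k150 k215 8 (.s k105 k195 14 (.s k125 k65 5 (.d k255 k190 k170 8 14))))))

def s3_15_157 : T TT 256 :=
  (.l (.s k20 k40 5 (.s k150 k215 8 (.s k105 k195 14 (.s k125 k65 5 (.d k255 k190 k170 8 14))))))

def s3_15_158 : T TT 256 :=
  (.l (.s k20 k40 5 (.s k150 k215 8 (.s k105 k195 14 (.s k125 k65 5 (.d k255 k190 k170 8 14))))))

def s3_15_159 : T TT 256 :=
  (.l (.s k20 k40 5 (.s k150 k215 8 (.s k105 k195 14 (.s k125 k65 5 (.d k255 k190 k170 8 14))))))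

def s3_15_160 : T TT 256 :=
  (.l (.s k20 k40 5 (.s k150 k215 8 (.s k105 k195 14 (.s k125 k65 5 (.d k255 k190 k170 8 14))))))

def s3_15_161 : T TT 256 :=
  (.l (.s k20 k40 5 (.s k150 k215 8 (.s k105 k195 14 (.s k125 k65 5 (.d k255 k190 k170 8 14))))))

def s3_15_162 : T TT 256 :=
  (.l (.s k20 k40 5 (.s k150 k215 8 (.s k105 k195 14 (.s k125 k65 5 (.d k255 k190 k170 8 14))))))

def s3_15_163 : T TT 256 :=
  (.l (.s k20 k40 5 (.s k150 k215 8 (.s k105 k195 14 (.s k125 k65 5 (.d k255 k190 k170 8 14))))))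

def s3_15_164 : T TT 256 :=
  (.l (.s k20 k40 5 (.s k150 k215 8 (.s k105 k195 14 (.s k125 k65 5 (.d k255 k190 k170 8 14))))))

def s3_15_165 : T TT 256 :=
  (.l (.s k20 k40 5 (.s k150 k215 8 (.s k105 k195 14 (.s k125 k65 5 (.d k255 k190 k170 8 14))))))

def s3_15_166 : T TT 256 :=
  (.l (.s k20 k40 5 (.s k150 k215 8 (.s k105 k195 14 (.s k125 k65 5 (.d k255 k190 k170 8 14))))))

def s3_15_167 : T TT 256 :=
  (.l (.s k20 k40 5 (.s k150 k215 8 (.s k105 k195 14 (.s k125 k65 5 (.d k255 k190 k170 8 14))))))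

def s3_15_168 : T TT 256 :=
  (.l (.s k20 k40 5 (.s k150 k215 8 (.s k105 k195 14 (.s k125 k65 5 (.d k255 k190 k170 8 14))))))

def s3_15_169 : T TT 256 :=
  (.l (.s k20 k40 5 (.s k150 k215 8 (.s k105 k195 14 (.s k125 k65 5 (.d k255 k190 k170 8 14))))))

def s3_15_170 : T TT 256 :=
  (.q k4 [(.s k12 k8 1 (.s k44 k28 3 (.s k166 k247 12 (.s k105 k227 10 (.s k65 k125 5 (.d k195 k130
  k150 8 14)))))), (.s k20 k40 5 (.s k52 k36 3 (.s k150 k215 8 (.s k101 k199 12 (.s k117 k69 3 (.d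
  k247 k182 k166 8 12)))))), (.s k12 k8 1 (.s k20 k40 5 (.s k28 k44 3 (.s k24 k16 1 (.d k36 k52 k48
  3 5)))))] (.c k7 (.q k11 [(.s k12 k8 1 (.s k20 k40 5 (.s k28 k44 3 (.s k24 k16 1 (.d k36 k52 k48 3
  5))))), (.s k12 k8 1 (.s k44 k28 3 (.s k166 k247 12 (.s k105 k227 10 (.s k65 k125 5 (.d k195 k130
  k150 8 14)))))), (.s k20 k40 5 (.s k52 k36 3 (.s k150 k215 8 (.s k101 k199 12 (.s k117 k69 3 (.d
  k247 k182 k166 8 12))))))] (.c k44 (.l (.s k12 k8 1 (.s k20 k40 5 (.s k150 k215 8 (.s k166 k247 12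
  (.s k134 k182 3 (.d k195 k105 k73 14 10))))))) (.c k105 (.l (.s k12 k8 1 (.s k28 k44 3 (.s k166
  k247 12 (.s k89 k243 14 (.s k150 k211 10 (.d k20 k40 k215 5 8))))))) .n))) (.c k11 (.q k7 [(.s k5
  k6 0 (.s k165 k245 11 (.s k86 k244 12 (.s k87 k84 0 (.d k247 k167 k166 11 12))))), (.s k12 k8 1
  (.s k20 k40 5 (.s k28 k44 3 (.s k24 k16 1 (.d k36 k52 k48 3 5))))), (.s k6 k5 0 (.s k166 k247 12
  (.s k86 k246 11 (.s k84 k87 0 (.d k244 k164 k165 11 12)))))] .n) (.c k44 (.l (.s k12 k8 1 (.s k20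
  k40 5 (.s k150 k215 8 (.s k166 k247 12 (.s k134 k182 3 (.d k195 k105 k73 14 10))))))) (.c k105 (.l
  (.s k12 k8 1 (.s k28 k44 3 (.s k166 k247 12 (.s k89 k243 14 (.s k150 k211 10 (.d k20 k40 k215 5
  8))))))) .n)))))

def s3_15_171 : T TT 256 :=
  (.l (.s k20 k40 5 (.s k150 k215 8 (.s k105 k195 14 (.s k125 k65 5 (.d k255 k190 k170 8 14))))))

def s3_15_172 : T TT 256 :=
  (.l (.s k20 k40 5 (.s k150 k215 8 (.s k105 k195 14 (.s k125 k65 5 (.d k255 k190 k170 8 14))))))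

def s3_15_173 : T TT 256 :=
  (.l (.s k20 k40 5 (.s k150 k215 8 (.s k105 k195 14 (.s k125 k65 5 (.d k255 k190 k170 8 14))))))

def s3_15_174 : T TT 256 :=
  (.l (.s k20 k40 5 (.s k150 k215 8 (.s k105 k195 14 (.s k125 k65 5 (.d k255 k190 k170 8 14))))))

def s3_15_175 : T TT 256 :=
  (.l (.s k20 k40 5 (.s k150 k215 8 (.s k105 k195 14 (.s k125 k65 5 (.d k255 k190 k170 8 14))))))

def s3_15_176 : T TT 256 :=
  (.l (.s k20 k40 5 (.s k150 k215 8 (.s k105 k195 14 (.s k125 k65 5 (.d k255 k190 k170 8 14))))))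

def s3_15_177 : T TT 256 :=
  (.l (.s k20 k40 5 (.s k150 k215 8 (.s k105 k195 14 (.s k125 k65 5 (.d k255 k190 k170 8 14))))))

def s3_15_178 : T TT 256 :=
  (.l (.s k20 k40 5 (.s k150 k215 8 (.s k105 k195 14 (.s k125 k65 5 (.d k255 k190 k170 8 14))))))

def s3_15_179 : T TT 256 :=
  (.l (.s k20 k40 5 (.s k150 k215 8 (.s k105 k195 14 (.s k125 k65 5 (.d k255 k190 k170 8 14))))))

def s3_15_180 : T TT 256 :=
  (.l (.s k20 k40 5 (.s k150 k215 8 (.s k105 k195 14 (.s k125 k65 5 (.d k255 k190 k170 8 14))))))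

def s3_15_181 : T TT 256 :=
  (.l (.s k20 k40 5 (.s k150 k215 8 (.s k105 k195 14 (.s k125 k65 5 (.d k255 k190 k170 8 14))))))

def s3_15_182 : T TT 256 :=
  (.l (.s k20 k40 5 (.s k150 k215 8 (.s k105 k195 14 (.s k125 k65 5 (.d k255 k190 k170 8 14))))))

def s3_15_183 : T TT 256 :=
  (.l (.s k20 k40 5 (.s k150 k215 8 (.s k105 k195 14 (.s k125 k65 5 (.d k255 k190 k170 8 14))))))

def s3_15_184 : T TT 256 :=
  (.l (.s k20 k40 5 (.s k150 k215 8 (.s k105 k195 14 (.s k125 k65 5 (.d k255 k190 k170 8 14))))))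

def s3_15_185 : T TT 256 :=
  (.l (.s k20 k40 5 (.s k150 k215 8 (.s k105 k195 14 (.s k125 k65 5 (.d k255 k190 k170 8 14))))))

def s3_15_186 : T TT 256 :=
  (.l (.s k20 k40 5 (.s k150 k215 8 (.s k105 k195 14 (.s k125 k65 5 (.d k255 k190 k170 8 14))))))

def s3_15_187 : T TT 256 :=
  (.l (.s k20 k40 5 (.s k150 k215 8 (.s k105 k195 14 (.s k125 k65 5 (.d k255 k190 k170 8 14))))))

def s3_15_188 : T TT 256 :=
  (.l (.s k20 k40 5 (.s k150 k215 8 (.s k105 k195 14 (.s k125 k65 5 (.d k255 k190 k170 8 14))))))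

def s3_15_189 : T TT 256 :=
  (.l (.s k20 k40 5 (.s k150 k215 8 (.s k105 k195 14 (.s k125 k65 5 (.d k255 k190 k170 8 14))))))

def s3_15_190 : T TT 256 :=
  (.l (.s k40 k20 5 (.s k170 k255 14 (.s k105 k235 8 (.s k65 k125 5 (.d k195 k130 k150 8 14))))))

def s3_15_191 : T TT 256 :=
  (.l (.s k20 k40 5 (.s k150 k215 8 (.s k105 k195 14 (.s k125 k65 5 (.d k255 k190 k170 8 14))))))

def s3_15_192 : T TT 256 :=
  (.l (.s k20 k40 5 (.s k150 k215 8 (.s k105 k195 14 (.s k125 k65 5 (.d k255 k190 k170 8 14))))))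

def s3_15_193 : T TT 256 :=
  (.l (.s k20 k40 5 (.s k150 k215 8 (.s k105 k195 14 (.s k125 k65 5 (.d k255 k190 k170 8 14))))))

def s3_15_194 : T TT 256 :=
  (.l (.s k20 k40 5 (.s k150 k215 8 (.s k105 k195 14 (.s k125 k65 5 (.d k255 k190 k170 8 14))))))

def s3_15_195 : T TT 256 :=
  (.f k255 k170 14 (.q k207 [(.s k69 k138 10 (.s k101 k117 3 (.s k223 k239 3 (.d k154 k16 k48 10
  14)))), (.s k109 k158 12 (.s k125 k190 8 (.s k65 k105 5 (.s k77 k93 3 (.d k69 k73 k138 1 10))))),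
  (.s k20 k40 5 (.s k150 k215 8 (.s k158 k109 12 (.s k223 k239 3 (.d k154 k146 k16 1 10)))))] (.c k7
  (.q k11 [(.s k69 k138 10 (.s k101 k117 3 (.s k223 k239 3 (.d k154 k16 k48 10 14)))), (.s k109 k158
  12 (.s k125 k190 8 (.s k65 k105 5 (.s k77 k93 3 (.d k69 k73 k138 1 10))))), (.s k20 k40 5 (.s k150
  k215 8 (.s k158 k109 12 (.s k223 k239 3 (.d k154 k146 k16 1 10)))))] (.c k67 (.q k131 [(.s k69
  k138 10 (.s k101 k117 3 (.s k223 k239 3 (.d k154 k16 k48 10 14)))), (.s k109 k158 12 (.s k125 k190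
  8 (.s k65 k105 5 (.s k77 k93 3 (.d k69 k73 k138 1 10))))), (.s k20 k40 5 (.s k150 k215 8 (.s k158
  k109 12 (.s k223 k239 3 (.d k154 k146 k16 1 10)))))] (.c k75 (.q k135 [(.s k69 k138 10 (.s k101
  k117 3 (.s k223 k239 3 (.d k154 k16 k48 10 14)))), (.s k20 k40 5 (.s k143 k139 1 (.s k150 k215 8
  (.s k158 k109 12 (.d k188 k173 k169 4 6)))))] (.c k71 (.q k79 [(.s k69 k138 10 (.s k101 k117 3 (.s
  k223 k239 3 (.d k154 k16 k48 10 14)))), (.s k20 k40 5 (.s k109 k158 12 (.s k124 k94 4 (.s k150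
  k215 8 (.d k188 k252 k169 7 6)))))] .n) (.c k79 (.q k71 [(.s k69 k138 10 (.s k101 k117 3 (.s k223
  k239 3 (.d k154 k16 k48 10 14)))), (.s k20 k40 5 (.s k143 k139 1 (.s k150 k215 8 (.s k158 k109 12
  (.d k188 k173 k169 4 6)))))] .n) .n))) (.c k135 (.q k75 [(.s k69 k138 10 (.s k101 k117 3 (.s k223
  k239 3 (.d k154 k16 k48 10 14)))), (.s k109 k158 12 (.s k125 k190 8 (.s k65 k105 5 (.s k77 k93 3
  (.d k69 k73 k138 1 10))))), (.s k20 k40 5 (.s k150 k215 8 (.s k158 k109 12 (.s k223 k239 3 (.d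
  k154 k146 k16 1 10)))))] (.c k71 (.q k199 [(.s k20 k40 5 (.s k69 k138 10 (.s k101 k117 3 (.d k150
  k215 k52 8 12)))), (.s k69 k138 10 (.s k101 k117 3 (.s k154 k48 14 (.d k223 k239 k16 3 10)))), (.s
  k20 k40 5 (.s k150 k215 8 (.s k101 k52 12 (.s k154 k48 14 (.d k158 k146 k109 1 12)))))] (.c k101
  (.l (.s k20 k40 5 (.s k69 k138 10 (.s k4 k134 8 (.s k215 k150 8 (.d k247 k166 k231 12 3)))))) (.c
  k154 (.l (.s k20 k40 5 (.s k150 k215 8 (.s k101 k52 12 (.d k69 k117 k138 3 10))))) .n))) (.c k199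
  (.q k71 [(.s k69 k138 10 (.s k101 k117 3 (.s k223 k239 3 (.d k154 k16 k48 10 14)))), (.s k109 k158
  12 (.s k125 k190 8 (.s k65 k105 5 (.s k77 k93 3 (.d k69 k73 k138 1 10))))), (.s k20 k40 5 (.s k150
  k215 8 (.s k158 k109 12 (.s k223 k239 3 (.d k154 k146 k16 1 10)))))] (.c k223 (.l (.s k69 k138 10
  (.s k68 k70 0 (.s k119 k102 4 (.s k51 k187 9 (.d k103 k87 k155 3 13)))))) .n)) (.c k223 (.l (.s
  k69 k138 10 (.s k101 k117 3 (.s k109 k158 12 (.s k105 k97 1 (.d k125 k65 k190 5 8)))))) .n)))) (.c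
  k223 (.l (.s k69 k138 10 (.s k101 k117 3 (.s k109 k158 12 (.s k105 k97 1 (.d k125 k65 k190 5
  8)))))) .n)))) (.c k75 (.q k135 [(.s k69 k138 10 (.s k101 k117 3 (.s k223 k239 3 (.d k154 k16 k48
  10 14)))), (.s k109 k158 12 (.s k125 k190 8 (.s k65 k105 5 (.s k77 k93 3 (.d k69 k73 k138 1
  10))))), (.s k20 k40 5 (.s k150 k215 8 (.s k158 k109 12 (.s k223 k239 3 (.d k154 k146 k16 1
  10)))))] (.c k67 (.q k131 [(.s k69 k138 10 (.s k101 k117 3 (.s k223 k239 3 (.d k154 k16 k48 10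
  14)))), (.s k20 k40 5 (.s k143 k139 1 (.s k150 k215 8 (.s k158 k109 12 (.d k188 k173 k169 4
  6)))))] (.c k71 (.q k79 [(.s k69 k138 10 (.s k101 k117 3 (.s k223 k239 3 (.d k154 k16 k48 10
  14)))), (.s k20 k40 5 (.s k109 k158 12 (.s k124 k94 4 (.s k150 k215 8 (.d k188 k252 k169 7 6)))))]
  .n) (.c k79 (.q k71 [(.s k69 k138 10 (.s k101 k117 3 (.s k223 k239 3 (.d k154 k16 k48 10 14)))),
  (.s k20 k40 5 (.s k143 k139 1 (.s k150 k215 8 (.s k158 k109 12 (.d k188 k173 k169 4 6)))))] .n)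
  .n))) (.c k131 (.q k67 [(.s k69 k138 10 (.s k101 k117 3 (.s k223 k239 3 (.d k154 k16 k48 10
  14)))), (.s k109 k158 12 (.s k125 k190 8 (.s k65 k105 5 (.s k77 k93 3 (.d k69 k73 k138 1 10))))),
  (.s k20 k40 5 (.s k150 k215 8 (.s k158 k109 12 (.s k223 k239 3 (.d k154 k146 k16 1 10)))))] (.c
  k223 (.l (.s k69 k138 10 (.s k101 k117 3 (.s k109 k158 12 (.s k105 k97 1 (.d k125 k65 k190 5
  8)))))) .n)) (.c k223 (.l (.s k69 k138 10 (.s k101 k117 3 (.s k109 k158 12 (.s k105 k97 1 (.d k125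
  k65 k190 5 8)))))) .n)))) (.c k131 (.q k67 [(.s k69 k138 10 (.s k101 k117 3 (.s k223 k239 3 (.d
  k154 k16 k48 10 14)))), (.s k109 k158 12 (.s k125 k190 8 (.s k65 k105 5 (.s k77 k93 3 (.d k69 k73
  k138 1 10))))), (.s k20 k40 5 (.s k150 k215 8 (.s k158 k109 12 (.s k223 k239 3 (.d k154 k146 k16 1
  10)))))] (.c k75 (.q k135 [(.s k69 k138 10 (.s k101 k117 3 (.s k223 k239 3 (.d k154 k16 k48 10
  14)))), (.s k109 k158 12 (.s k125 k190 8 (.s k65 k105 5 (.s k77 k93 3 (.d k69 k73 k138 1 10))))),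
  (.s k20 k40 5 (.s k150 k215 8 (.s k158 k109 12 (.s k223 k239 3 (.d k154 k146 k16 1 10)))))] (.c
  k223 (.l (.s k69 k138 10 (.s k101 k117 3 (.s k109 k158 12 (.s k105 k97 1 (.d k125 k65 k190 5
  8)))))) .n)) (.c k135 (.q k75 [(.s k69 k138 10 (.s k101 k117 3 (.s k223 k239 3 (.d k154 k16 k48 10
  14)))), (.s k109 k158 12 (.s k125 k190 8 (.s k65 k105 5 (.s k77 k93 3 (.d k69 k73 k138 1 10))))),
  (.s k20 k40 5 (.s k150 k215 8 (.s k158 k109 12 (.s k223 k239 3 (.d k154 k146 k16 1 10)))))] (.c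
  k71 (.q k199 [(.s k20 k40 5 (.s k69 k138 10 (.s k101 k117 3 (.d k150 k215 k52 8 12)))), (.s k69
  k138 10 (.s k101 k117 3 (.s k154 k48 14 (.d k223 k239 k16 3 10)))), (.s k20 k40 5 (.s k150 k215 8
  (.s k101 k52 12 (.s k154 k48 14 (.d k158 k146 k109 1 12)))))] (.c k101 (.l (.s k20 k40 5 (.s k69
  k138 10 (.s k4 k134 8 (.s k215 k150 8 (.d k247 k166 k231 12 3)))))) (.c k139 (.q k143 [(.s k20 k40
  5 (.s k150 k215 8 (.s k101 k52 12 (.d k69 k117 k138 3 10)))), (.s k69 k138 10 (.s k101 k117 3 (.s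
  k154 k48 14 (.d k223 k239 k16 3 10)))), (.s k20 k40 5 (.s k150 k215 8 (.s k101 k52 12 (.s k154 k48
  14 (.d k158 k146 k109 1 12))))), (.s k20 k40 5 (.s k69 k138 10 (.s k4 k134 8 (.s k215 k150 8 (.d
  k247 k166 k231 12 3)))))] .n) (.c k143 (.l (.s k139 k203 7 (.s k20 k40 5 (.s k69 k138 10 (.s k101
  k117 3 (.d k150 k215 k52 8 12)))))) (.c k154 (.l (.s k20 k40 5 (.s k150 k215 8 (.s k101 k52 12 (.d
  k69 k117 k138 3 10))))) .n))))) (.c k139 (.q k143 [(.s k69 k138 10 (.s k101 k117 3 (.s k223 k239 3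
  (.d k154 k16 k48 10 14)))), (.s k109 k158 12 (.s k125 k190 8 (.s k65 k105 5 (.s k77 k93 3 (.d k69
  k73 k138 1 10))))), (.s k20 k40 5 (.s k150 k215 8 (.s k158 k109 12 (.s k223 k239 3 (.d k154 k146
  k16 1 10)))))] (.c k71 (.q k199 [(.s k20 k40 5 (.s k150 k215 8 (.s k101 k52 12 (.d k69 k117 k138 3
  10)))), (.s k69 k138 10 (.s k101 k117 3 (.s k154 k48 14 (.d k223 k239 k16 3 10)))), (.s k20 k40 5
  (.s k150 k215 8 (.s k101 k52 12 (.s k154 k48 14 (.d k158 k146 k109 1 12))))), (.s k20 k40 5 (.s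
  k69 k138 10 (.s k4 k134 8 (.s k215 k150 8 (.d k247 k166 k231 12 3)))))] .n) (.c k199 (.l (.s k71
  k79 1 (.s k69 k138 10 (.s k101 k117 3 (.s k154 k48 14 (.d k223 k239 k16 3 10)))))) (.c k223 (.l
  (.s k69 k138 10 (.s k101 k117 3 (.s k109 k158 12 (.s k105 k97 1 (.d k125 k65 k190 5 8)))))) .n))))
  (.c k143 (.l (.s k139 k203 7 (.s k69 k138 10 (.s k101 k117 3 (.s k154 k48 14 (.d k223 k239 k16 3
  10)))))) (.c k199 (.l (.s k71 k79 1 (.s k69 k138 10 (.s k101 k117 3 (.s k154 k48 14 (.d k223 k239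
  k16 3 10)))))) (.c k223 (.l (.s k69 k138 10 (.s k101 k117 3 (.s k109 k158 12 (.s k105 k97 1 (.d
  k125 k65 k190 5 8)))))) .n)))))) (.c k223 (.l (.s k69 k138 10 (.s k101 k117 3 (.s k109 k158 12 (.s
  k105 k97 1 (.d k125 k65 k190 5 8)))))) .n)))) (.c k135 (.q k75 [(.s k69 k138 10 (.s k101 k117 3
  (.s k223 k239 3 (.d k154 k16 k48 10 14)))), (.s k109 k158 12 (.s k125 k190 8 (.s k65 k105 5 (.s
  k77 k93 3 (.d k69 k73 k138 1 10))))), (.s k20 k40 5 (.s k150 k215 8 (.s k158 k109 12 (.s k223 k239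
  3 (.d k154 k146 k16 1 10)))))] (.c k67 (.q k131 [(.s k69 k138 10 (.s k101 k117 3 (.s k223 k239 3
  (.d k154 k16 k48 10 14)))), (.s k109 k158 12 (.s k125 k190 8 (.s k65 k105 5 (.s k77 k93 3 (.d k69
  k73 k138 1 10))))), (.s k20 k40 5 (.s k150 k215 8 (.s k158 k109 12 (.s k223 k239 3 (.d k154 k146
  k16 1 10)))))] (.c k71 (.q k199 [(.s k20 k40 5 (.s k69 k138 10 (.s k101 k117 3 (.d k150 k215 k52 8
  12)))), (.s k69 k138 10 (.s k101 k117 3 (.s k154 k48 14 (.d k223 k239 k16 3 10)))), (.s k20 k40 5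
  (.s k150 k215 8 (.s k101 k52 12 (.s k154 k48 14 (.d k158 k146 k109 1 12)))))] (.c k101 (.l (.s k20
  k40 5 (.s k69 k138 10 (.s k4 k134 8 (.s k215 k150 8 (.d k247 k166 k231 12 3)))))) (.c k154 (.l (.s
  k20 k40 5 (.s k150 k215 8 (.s k101 k52 12 (.d k69 k117 k138 3 10))))) .n))) (.c k199 (.q k71 [(.s
  k69 k138 10 (.s k101 k117 3 (.s k223 k239 3 (.d k154 k16 k48 10 14)))), (.s k109 k158 12 (.s k125
  k190 8 (.s k65 k105 5 (.s k77 k93 3 (.d k69 k73 k138 1 10))))), (.s k20 k40 5 (.s k150 k215 8 (.s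
  k158 k109 12 (.s k223 k239 3 (.d k154 k146 k16 1 10)))))] (.c k223 (.l (.s k69 k138 10 (.s k68 k70
  0 (.s k119 k102 4 (.s k51 k187 9 (.d k103 k87 k155 3 13)))))) .n)) (.c k223 (.l (.s k69 k138 10
  (.s k101 k117 3 (.s k109 k158 12 (.s k105 k97 1 (.d k125 k65 k190 5 8)))))) .n)))) (.c k71 (.q
  k199 [(.s k20 k40 5 (.s k69 k138 10 (.s k101 k117 3 (.d k150 k215 k52 8 12)))), (.s k69 k138 10
  (.s k101 k117 3 (.s k154 k48 14 (.d k223 k239 k16 3 10)))), (.s k20 k40 5 (.s k150 k215 8 (.s k101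
  k52 12 (.s k154 k48 14 (.d k158 k146 k109 1 12)))))] (.c k67 (.q k131 [(.s k20 k40 5 (.s k69 k138
  10 (.s k101 k117 3 (.d k150 k215 k52 8 12)))), (.s k69 k138 10 (.s k101 k117 3 (.s k154 k48 14 (.d
  k223 k239 k16 3 10)))), (.s k20 k40 5 (.s k150 k215 8 (.s k101 k52 12 (.s k154 k48 14 (.d k158
  k146 k109 1 12)))))] (.c k101 (.l (.s k20 k40 5 (.s k69 k138 10 (.s k4 k134 8 (.s k215 k150 8 (.d
  k247 k166 k231 12 3)))))) (.c k154 (.l (.s k20 k40 5 (.s k150 k215 8 (.s k101 k52 12 (.d k69 k117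
  k138 3 10))))) .n))) (.c k101 (.l (.s k20 k40 5 (.s k69 k138 10 (.s k4 k134 8 (.s k215 k150 8 (.d
  k247 k166 k231 12 3)))))) (.c k131 (.q k67 [(.s k20 k40 5 (.s k69 k138 10 (.s k101 k117 3 (.d k150
  k215 k52 8 12)))), (.s k69 k138 10 (.s k101 k117 3 (.s k154 k48 14 (.d k223 k239 k16 3 10)))), (.s
  k20 k40 5 (.s k150 k215 8 (.s k101 k52 12 (.s k154 k48 14 (.d k158 k146 k109 1 12)))))] (.c k101
  (.l (.s k20 k40 5 (.s k69 k138 10 (.s k4 k134 8 (.s k215 k150 8 (.d k247 k166 k231 12 3)))))) (.c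
  k139 (.q k143 [(.s k20 k40 5 (.s k150 k215 8 (.s k101 k52 12 (.d k69 k117 k138 3 10)))), (.s k69
  k138 10 (.s k101 k117 3 (.s k154 k48 14 (.d k223 k239 k16 3 10)))), (.s k20 k40 5 (.s k150 k215 8
  (.s k101 k52 12 (.s k154 k48 14 (.d k158 k146 k109 1 12))))), (.s k20 k40 5 (.s k69 k138 10 (.s k4
  k134 8 (.s k215 k150 8 (.d k247 k166 k231 12 3)))))] .n) (.c k143 (.l (.s k139 k203 7 (.s k20 k40
  5 (.s k69 k138 10 (.s k101 k117 3 (.d k150 k215 k52 8 12)))))) (.c k154 (.l (.s k20 k40 5 (.s k150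
  k215 8 (.s k101 k52 12 (.d k69 k117 k138 3 10))))) .n))))) (.c k154 (.l (.s k20 k40 5 (.s k150
  k215 8 (.s k101 k52 12 (.d k69 k117 k138 3 10))))) .n))))) (.c k131 (.q k67 [(.s k69 k138 10 (.s
  k101 k117 3 (.s k223 k239 3 (.d k154 k16 k48 10 14)))), (.s k109 k158 12 (.s k125 k190 8 (.s k65
  k105 5 (.s k77 k93 3 (.d k69 k73 k138 1 10))))), (.s k20 k40 5 (.s k150 k215 8 (.s k158 k109 12
  (.s k223 k239 3 (.d k154 k146 k16 1 10)))))] (.c k71 (.q k199 [(.s k20 k40 5 (.s k69 k138 10 (.s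
  k101 k117 3 (.d k150 k215 k52 8 12)))), (.s k69 k138 10 (.s k101 k117 3 (.s k154 k48 14 (.d k223
  k239 k16 3 10)))), (.s k20 k40 5 (.s k150 k215 8 (.s k101 k52 12 (.s k154 k48 14 (.d k158 k146
  k109 1 12)))))] (.c k101 (.l (.s k20 k40 5 (.s k69 k138 10 (.s k4 k134 8 (.s k215 k150 8 (.d k247
  k166 k231 12 3)))))) (.c k139 (.q k143 [(.s k20 k40 5 (.s k150 k215 8 (.s k101 k52 12 (.d k69 k117
  k138 3 10)))), (.s k69 k138 10 (.s k101 k117 3 (.s k154 k48 14 (.d k223 k239 k16 3 10)))), (.s k20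
  k40 5 (.s k150 k215 8 (.s k101 k52 12 (.s k154 k48 14 (.d k158 k146 k109 1 12))))), (.s k20 k40 5
  (.s k69 k138 10 (.s k4 k134 8 (.s k215 k150 8 (.d k247 k166 k231 12 3)))))] .n) (.c k143 (.l (.s
  k139 k203 7 (.s k20 k40 5 (.s k69 k138 10 (.s k101 k117 3 (.d k150 k215 k52 8 12)))))) (.c k154
  (.l (.s k20 k40 5 (.s k150 k215 8 (.s k101 k52 12 (.d k69 k117 k138 3 10))))) .n))))) (.c k139 (.q
  k143 [(.s k69 k138 10 (.s k101 k117 3 (.s k223 k239 3 (.d k154 k16 k48 10 14)))), (.s k109 k158 12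
  (.s k125 k190 8 (.s k65 k105 5 (.s k77 k93 3 (.d k69 k73 k138 1 10))))), (.s k20 k40 5 (.s k150
  k215 8 (.s k158 k109 12 (.s k223 k239 3 (.d k154 k146 k16 1 10)))))] (.c k71 (.q k199 [(.s k20 k40
  5 (.s k150 k215 8 (.s k101 k52 12 (.d k69 k117 k138 3 10)))), (.s k69 k138 10 (.s k101 k117 3 (.s
  k154 k48 14 (.d k223 k239 k16 3 10)))), (.s k20 k40 5 (.s k150 k215 8 (.s k101 k52 12 (.s k154 k48
  14 (.d k158 k146 k109 1 12))))), (.s k20 k40 5 (.s k69 k138 10 (.s k4 k134 8 (.s k215 k150 8 (.d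
  k247 k166 k231 12 3)))))] .n) (.c k199 (.l (.s k71 k79 1 (.s k69 k138 10 (.s k101 k117 3 (.s k154
  k48 14 (.d k223 k239 k16 3 10)))))) (.c k223 (.l (.s k69 k138 10 (.s k101 k117 3 (.s k109 k158 12
  (.s k105 k97 1 (.d k125 k65 k190 5 8)))))) .n)))) (.c k143 (.l (.s k139 k203 7 (.s k69 k138 10 (.s
  k101 k117 3 (.s k154 k48 14 (.d k223 k239 k16 3 10)))))) (.c k199 (.l (.s k71 k79 1 (.s k69 k138
  10 (.s k101 k117 3 (.s k154 k48 14 (.d k223 k239 k16 3 10)))))) (.c k223 (.l (.s k69 k138 10 (.s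
  k101 k117 3 (.s k109 k158 12 (.s k105 k97 1 (.d k125 k65 k190 5 8)))))) .n)))))) (.c k199 (.q k71
  [(.s k69 k138 10 (.s k101 k117 3 (.s k223 k239 3 (.d k154 k16 k48 10 14)))), (.s k109 k158 12 (.s
  k125 k190 8 (.s k65 k105 5 (.s k77 k93 3 (.d k69 k73 k138 1 10))))), (.s k20 k40 5 (.s k150 k215 8
  (.s k158 k109 12 (.s k223 k239 3 (.d k154 k146 k16 1 10)))))] (.c k67 (.q k131 [(.s k69 k138 10
  (.s k101 k117 3 (.s k223 k239 3 (.d k154 k16 k48 10 14)))), (.s k109 k158 12 (.s k125 k190 8 (.s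
  k65 k105 5 (.s k77 k93 3 (.d k69 k73 k138 1 10))))), (.s k20 k40 5 (.s k150 k215 8 (.s k158 k109
  12 (.s k223 k239 3 (.d k154 k146 k16 1 10)))))] (.c k223 (.l (.s k69 k138 10 (.s k68 k70 0 (.s
  k119 k102 4 (.s k51 k187 9 (.d k103 k87 k155 3 13)))))) .n)) (.c k131 (.l (.s k67 k79 1 (.s k69
  k138 10 (.s k101 k117 3 (.s k154 k48 14 (.d k223 k239 k16 3 10)))))) (.c k223 (.l (.s k69 k138 10
  (.s k68 k70 0 (.s k119 k102 4 (.s k51 k187 9 (.d k103 k87 k155 3 13)))))) .n)))) (.c k223 (.l (.s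
  k69 k138 10 (.s k101 k117 3 (.s k109 k158 12 (.s k105 k97 1 (.d k125 k65 k190 5 8)))))) .n))))))
  (.c k223 (.l (.s k69 k138 10 (.s k101 k117 3 (.s k109 k158 12 (.s k105 k97 1 (.d k125 k65 k190 5
  8)))))) .n)))))) (.c k11 (.q k7 [(.s k69 k138 10 (.s k101 k117 3 (.s k223 k239 3 (.d k154 k16 k48
  10 14)))), (.s k109 k158 12 (.s k125 k190 8 (.s k65 k105 5 (.s k77 k93 3 (.d k69 k73 k138 1
  10))))), (.s k20 k40 5 (.s k150 k215 8 (.s k158 k109 12 (.s k223 k239 3 (.d k154 k146 k16 1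
  10)))))] (.c k67 (.q k131 [(.s k69 k138 10 (.s k101 k117 3 (.s k223 k239 3 (.d k154 k16 k48 10
  14)))), (.s k109 k158 12 (.s k125 k190 8 (.s k65 k105 5 (.s k77 k93 3 (.d k69 k73 k138 1 10))))),
  (.s k20 k40 5 (.s k150 k215 8 (.s k158 k109 12 (.s k223 k239 3 (.d k154 k146 k16 1 10)))))] (.c
  k75 (.q k135 [(.s k69 k138 10 (.s k101 k117 3 (.s k223 k239 3 (.d k154 k16 k48 10 14)))), (.s k20
  k40 5 (.s k150 k215 8 (.s k158 k109 12 (.s k188 k169 6 (.d k143 k139 k173 1 4)))))] (.c k71 (.q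
  k79 [(.s k69 k138 10 (.s k101 k117 3 (.s k223 k239 3 (.d k154 k16 k48 10 14)))), (.s k20 k40 5 (.s
  k109 k158 12 (.s k124 k94 4 (.s k150 k215 8 (.d k188 k252 k169 7 6)))))] (.c k139 (.q k203 [(.s
  k69 k138 10 (.s k101 k117 3 (.s k223 k239 3 (.d k154 k16 k48 10 14)))), (.s k20 k40 5 (.s k109
  k158 12 (.s k124 k94 4 (.s k150 k215 8 (.d k188 k252 k169 7 6)))))] .n) (.c k203 (.l (.s k139 k143
  1 (.s k69 k138 10 (.s k101 k117 3 (.s k154 k48 14 (.d k223 k239 k16 3 10)))))) .n))) (.c k79 (.l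
  (.s k71 k199 7 (.s k69 k138 10 (.s k101 k117 3 (.s k154 k48 14 (.d k223 k239 k16 3 10)))))) (.c
  k139 (.q k203 [(.s k69 k138 10 (.s k101 k117 3 (.s k223 k239 3 (.d k154 k16 k48 10 14)))), (.s
  k109 k158 12 (.s k125 k190 8 (.s k65 k105 5 (.s k77 k93 3 (.d k69 k73 k138 1 10))))), (.s k125
  k190 8 (.s k105 k65 5 (.s k154 k56 12 (.d k223 k239 k16 3 10))))] (.c k71 (.q k79 [(.s k69 k138 10
  (.s k101 k117 3 (.s k223 k239 3 (.d k154 k16 k48 10 14)))), (.s k20 k40 5 (.s k109 k158 12 (.s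
  k124 k94 4 (.s k150 k215 8 (.d k188 k252 k169 7 6)))))] .n) (.c k79 (.l (.s k71 k199 7 (.s k69
  k138 10 (.s k101 k117 3 (.s k154 k48 14 (.d k223 k239 k16 3 10)))))) (.c k223 (.l (.s k20 k40 5
  (.s k69 k138 10 (.s k101 k117 3 (.s k150 k215 8 (.d k199 k71 k52 7 12)))))) .n)))) (.c k203 (.l
  (.s k139 k143 1 (.s k69 k138 10 (.s k101 k117 3 (.s k154 k48 14 (.d k223 k239 k16 3 10))))))
  .n))))) (.c k135 (.q k75 [(.s k69 k138 10 (.s k101 k117 3 (.s k223 k239 3 (.d k154 k16 k48 10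
  14)))), (.s k109 k158 12 (.s k125 k190 8 (.s k65 k105 5 (.s k77 k93 3 (.d k69 k73 k138 1 10))))),
  (.s k20 k40 5 (.s k150 k215 8 (.s k158 k109 12 (.s k223 k239 3 (.d k154 k146 k16 1 10)))))] (.c
  k223 (.l (.s k69 k138 10 (.s k101 k117 3 (.s k109 k158 12 (.s k105 k97 1 (.d k125 k65 k190 5
  8)))))) .n)) (.c k223 (.l (.s k69 k138 10 (.s k101 k117 3 (.s k109 k158 12 (.s k105 k97 1 (.d k125
  k65 k190 5 8)))))) .n)))) (.c k75 (.q k135 [(.s k69 k138 10 (.s k101 k117 3 (.s k223 k239 3 (.d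
  k154 k16 k48 10 14)))), (.s k20 k40 5 (.s k150 k215 8 (.s k199 k71 7 (.s k101 k52 12 (.d k69 k117
  k138 3 10))))), (.s k20 k40 5 (.s k150 k215 8 (.s k158 k109 12 (.s k154 k146 1 (.d k223 k239 k16 3
  10)))))] (.c k67 (.q k131 [(.s k69 k138 10 (.s k101 k117 3 (.s k223 k239 3 (.d k154 k16 k48 10
  14)))), (.s k20 k40 5 (.s k150 k215 8 (.s k158 k109 12 (.s k188 k169 6 (.d k143 k139 k173 1
  4)))))] (.c k71 (.q k79 [(.s k69 k138 10 (.s k101 k117 3 (.s k223 k239 3 (.d k154 k16 k48 10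
  14)))), (.s k20 k40 5 (.s k109 k158 12 (.s k124 k94 4 (.s k150 k215 8 (.d k188 k252 k169 7 6)))))]
  (.c k139 (.q k203 [(.s k69 k138 10 (.s k101 k117 3 (.s k223 k239 3 (.d k154 k16 k48 10 14)))), (.s
  k20 k40 5 (.s k109 k158 12 (.s k124 k94 4 (.s k150 k215 8 (.d k188 k252 k169 7 6)))))] .n) (.c
  k203 (.l (.s k139 k143 1 (.s k69 k138 10 (.s k101 k117 3 (.s k154 k48 14 (.d k223 k239 k16 3
  10)))))) .n))) (.c k79 (.l (.s k71 k199 7 (.s k69 k138 10 (.s k101 k117 3 (.s k154 k48 14 (.d k223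
  k239 k16 3 10)))))) (.c k139 (.q k203 [(.s k69 k138 10 (.s k101 k117 3 (.s k223 k239 3 (.d k154
  k16 k48 10 14)))), (.s k109 k158 12 (.s k125 k190 8 (.s k65 k105 5 (.s k77 k93 3 (.d k69 k73 k138
  1 10))))), (.s k125 k190 8 (.s k105 k65 5 (.s k154 k56 12 (.d k223 k239 k16 3 10))))] (.c k71 (.q
  k79 [(.s k69 k138 10 (.s k101 k117 3 (.s k223 k239 3 (.d k154 k16 k48 10 14)))), (.s k20 k40 5 (.s
  k109 k158 12 (.s k124 k94 4 (.s k150 k215 8 (.d k188 k252 k169 7 6)))))] .n) (.c k79 (.l (.s k71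
  k199 7 (.s k69 k138 10 (.s k101 k117 3 (.s k154 k48 14 (.d k223 k239 k16 3 10)))))) (.c k223 (.l
  (.s k20 k40 5 (.s k69 k138 10 (.s k101 k117 3 (.s k150 k215 8 (.d k199 k71 k52 7 12)))))) .n))))
  (.c k203 (.l (.s k139 k143 1 (.s k69 k138 10 (.s k101 k117 3 (.s k154 k48 14 (.d k223 k239 k16 3
  10)))))) .n))))) (.c k131 (.q k67 [(.s k69 k138 10 (.s k101 k117 3 (.s k223 k239 3 (.d k154 k16
  k48 10 14)))), (.s k20 k40 5 (.s k150 k215 8 (.s k199 k71 7 (.s k101 k52 12 (.d k69 k117 k138 3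
  10))))), (.s k20 k40 5 (.s k150 k215 8 (.s k158 k109 12 (.s k154 k146 1 (.d k223 k239 k16 3
  10)))))] (.c k139 (.q k203 [(.s k69 k138 10 (.s k101 k117 3 (.s k223 k239 3 (.d k154 k16 k48 10
  14)))), (.s k125 k190 8 (.s k105 k65 5 (.s k154 k56 12 (.d k223 k239 k16 3 10)))), (.s k20 k40 5
  (.s k150 k215 8 (.s k199 k71 7 (.s k101 k52 12 (.d k69 k117 k138 3 10)))))] .n) (.c k203 (.q k139
  [(.s k69 k138 10 (.s k101 k117 3 (.s k223 k239 3 (.d k154 k16 k48 10 14)))), (.s k20 k40 5 (.s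
  k150 k215 8 (.s k199 k71 7 (.s k101 k52 12 (.d k69 k117 k138 3 10))))), (.s k20 k40 5 (.s k150
  k215 8 (.s k158 k109 12 (.s k154 k146 1 (.d k223 k239 k16 3 10)))))] .n) .n))) (.c k139 (.q k203
  [(.s k69 k138 10 (.s k101 k117 3 (.s k223 k239 3 (.d k154 k16 k48 10 14)))), (.s k125 k190 8 (.s
  k105 k65 5 (.s k154 k56 12 (.d k223 k239 k16 3 10)))), (.s k20 k40 5 (.s k150 k215 8 (.s k199 k71
  7 (.s k101 k52 12 (.d k69 k117 k138 3 10)))))] (.c k67 (.q k131 [(.s k69 k138 10 (.s k101 k117 3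
  (.s k223 k239 3 (.d k154 k16 k48 10 14)))), (.s k109 k158 12 (.s k125 k190 8 (.s k65 k105 5 (.s
  k77 k93 3 (.d k69 k73 k138 1 10))))), (.s k125 k190 8 (.s k105 k65 5 (.s k154 k56 12 (.d k223 k239
  k16 3 10))))] (.c k71 (.q k79 [(.s k69 k138 10 (.s k101 k117 3 (.s k223 k239 3 (.d k154 k16 k48 10
  14)))), (.s k20 k40 5 (.s k109 k158 12 (.s k124 k94 4 (.s k150 k215 8 (.d k188 k252 k169 7 6)))))]
  .n) (.c k79 (.l (.s k71 k199 7 (.s k69 k138 10 (.s k101 k117 3 (.s k154 k48 14 (.d k223 k239 k16 3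
  10)))))) (.c k223 (.l (.s k20 k40 5 (.s k69 k138 10 (.s k101 k117 3 (.s k150 k215 8 (.d k199 k71
  k52 7 12)))))) .n)))) (.c k131 (.q k67 [(.s k69 k138 10 (.s k101 k117 3 (.s k223 k239 3 (.d k154
  k16 k48 10 14)))), (.s k125 k190 8 (.s k105 k65 5 (.s k154 k56 12 (.d k223 k239 k16 3 10)))), (.s
  k20 k40 5 (.s k150 k215 8 (.s k199 k71 7 (.s k101 k52 12 (.d k69 k117 k138 3 10)))))] .n) .n)))
  (.c k203 (.q k139 [(.s k69 k138 10 (.s k101 k117 3 (.s k223 k239 3 (.d k154 k16 k48 10 14)))), (.s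
  k20 k40 5 (.s k150 k215 8 (.s k199 k71 7 (.s k101 k52 12 (.d k69 k117 k138 3 10))))), (.s k20 k40
  5 (.s k150 k215 8 (.s k158 k109 12 (.s k154 k146 1 (.d k223 k239 k16 3 10)))))] (.c k67 (.l (.s
  k131 k143 1 (.s k69 k138 10 (.s k101 k117 3 (.s k154 k48 14 (.d k223 k239 k16 3 10)))))) (.c k131
  (.q k67 [(.s k69 k138 10 (.s k101 k117 3 (.s k223 k239 3 (.d k154 k16 k48 10 14)))), (.s k20 k40 5
  (.s k150 k215 8 (.s k199 k71 7 (.s k101 k52 12 (.d k69 k117 k138 3 10))))), (.s k20 k40 5 (.s k150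
  k215 8 (.s k158 k109 12 (.s k154 k146 1 (.d k223 k239 k16 3 10)))))] .n) .n))) .n))))) (.c k131
  (.q k67 [(.s k69 k138 10 (.s k101 k117 3 (.s k223 k239 3 (.d k154 k16 k48 10 14)))), (.s k109 k158
  12 (.s k125 k190 8 (.s k65 k105 5 (.s k77 k93 3 (.d k69 k73 k138 1 10))))), (.s k20 k40 5 (.s k150
  k215 8 (.s k158 k109 12 (.s k223 k239 3 (.d k154 k146 k16 1 10)))))] (.c k75 (.q k135 [(.s k69
  k138 10 (.s k101 k117 3 (.s k223 k239 3 (.d k154 k16 k48 10 14)))), (.s k20 k40 5 (.s k150 k215 8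
  (.s k199 k71 7 (.s k101 k52 12 (.d k69 k117 k138 3 10))))), (.s k20 k40 5 (.s k150 k215 8 (.s k158
  k109 12 (.s k154 k146 1 (.d k223 k239 k16 3 10)))))] (.c k139 (.q k203 [(.s k69 k138 10 (.s k101
  k117 3 (.s k223 k239 3 (.d k154 k16 k48 10 14)))), (.s k125 k190 8 (.s k105 k65 5 (.s k154 k56 12
  (.d k223 k239 k16 3 10)))), (.s k20 k40 5 (.s k150 k215 8 (.s k199 k71 7 (.s k101 k52 12 (.d k69
  k117 k138 3 10)))))] .n) (.c k203 (.q k139 [(.s k69 k138 10 (.s k101 k117 3 (.s k223 k239 3 (.d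
  k154 k16 k48 10 14)))), (.s k20 k40 5 (.s k150 k215 8 (.s k199 k71 7 (.s k101 k52 12 (.d k69 k117
  k138 3 10))))), (.s k20 k40 5 (.s k150 k215 8 (.s k158 k109 12 (.s k154 k146 1 (.d k223 k239 k16 3
  10)))))] .n) .n))) (.c k135 (.q k75 [(.s k69 k138 10 (.s k101 k117 3 (.s k223 k239 3 (.d k154 k16
  k48 10 14)))), (.s k79 k71 1 (.s k109 k158 12 (.s k124 k94 4 (.s k105 k86 6 (.d k125 k65 k190 5
  8)))))] (.c k101 (.l (.s k20 k40 5 (.s k150 k215 8 (.s k158 k109 12 (.s k154 k146 1 (.d k223 k239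
  k16 3 10)))))) (.c k139 (.q k143 [(.s k69 k138 10 (.s k101 k117 3 (.s k223 k239 3 (.d k154 k16 k48
  10 14)))), (.s k79 k71 1 (.s k109 k158 12 (.s k124 k94 4 (.s k105 k86 6 (.d k125 k65 k190 5
  8)))))] (.c k101 (.l (.s k20 k40 5 (.s k150 k215 8 (.s k158 k109 12 (.s k154 k146 1 (.d k223 k239
  k16 3 10)))))) .n)) (.c k143 (.q k139 [(.s k69 k138 10 (.s k101 k117 3 (.s k223 k239 3 (.d k154
  k16 k48 10 14)))), (.s k79 k71 1 (.s k109 k158 12 (.s k124 k94 4 (.s k105 k86 6 (.d k125 k65 k190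
  5 8)))))] (.c k101 (.l (.s k20 k40 5 (.s k150 k215 8 (.s k158 k109 12 (.s k154 k146 1 (.d k223
  k239 k16 3 10)))))) .n)) .n)))) (.c k223 (.l (.s k69 k138 10 (.s k101 k117 3 (.s k109 k158 12 (.s
  k105 k97 1 (.d k125 k65 k190 5 8)))))) .n)))) (.c k135 (.q k75 [(.s k69 k138 10 (.s k101 k117 3
  (.s k223 k239 3 (.d k154 k16 k48 10 14)))), (.s k109 k158 12 (.s k125 k190 8 (.s k65 k105 5 (.s
  k77 k93 3 (.d k69 k73 k138 1 10))))), (.s k20 k40 5 (.s k150 k215 8 (.s k158 k109 12 (.s k223 k239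
  3 (.d k154 k146 k16 1 10)))))] (.c k67 (.q k131 [(.s k69 k138 10 (.s k101 k117 3 (.s k223 k239 3
  (.d k154 k16 k48 10 14)))), (.s k109 k158 12 (.s k125 k190 8 (.s k65 k105 5 (.s k77 k93 3 (.d k69
  k73 k138 1 10))))), (.s k20 k40 5 (.s k150 k215 8 (.s k158 k109 12 (.s k223 k239 3 (.d k154 k146
  k16 1 10)))))] (.c k223 (.l (.s k69 k138 10 (.s k101 k117 3 (.s k109 k158 12 (.s k105 k97 1 (.d
  k125 k65 k190 5 8)))))) .n)) (.c k131 (.q k67 [(.s k69 k138 10 (.s k101 k117 3 (.s k223 k239 3 (.d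
  k154 k16 k48 10 14)))), (.s k79 k71 1 (.s k109 k158 12 (.s k124 k94 4 (.s k105 k86 6 (.d k125 k65
  k190 5 8)))))] (.c k101 (.l (.s k20 k40 5 (.s k150 k215 8 (.s k158 k109 12 (.s k154 k146 1 (.d
  k223 k239 k16 3 10)))))) (.c k139 (.q k143 [(.s k69 k138 10 (.s k101 k117 3 (.s k223 k239 3 (.d
  k154 k16 k48 10 14)))), (.s k79 k71 1 (.s k109 k158 12 (.s k124 k94 4 (.s k105 k86 6 (.d k125 k65
  k190 5 8)))))] (.c k101 (.l (.s k20 k40 5 (.s k150 k215 8 (.s k158 k109 12 (.s k154 k146 1 (.d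
  k223 k239 k16 3 10)))))) .n)) (.c k143 (.q k139 [(.s k69 k138 10 (.s k101 k117 3 (.s k223 k239 3
  (.d k154 k16 k48 10 14)))), (.s k79 k71 1 (.s k109 k158 12 (.s k124 k94 4 (.s k105 k86 6 (.d k125
  k65 k190 5 8)))))] (.c k101 (.l (.s k20 k40 5 (.s k150 k215 8 (.s k158 k109 12 (.s k154 k146 1 (.d
  k223 k239 k16 3 10)))))) .n)) .n)))) (.c k223 (.l (.s k69 k138 10 (.s k101 k117 3 (.s k109 k158 12
  (.s k105 k97 1 (.d k125 k65 k190 5 8)))))) .n)))) (.c k223 (.l (.s k69 k138 10 (.s k101 k117 3 (.s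
  k109 k158 12 (.s k105 k97 1 (.d k125 k65 k190 5 8)))))) .n)))))) (.c k67 (.q k131 [(.s k69 k138 10
  (.s k101 k117 3 (.s k223 k239 3 (.d k154 k16 k48 10 14)))), (.s k109 k158 12 (.s k125 k190 8 (.s
  k65 k105 5 (.s k77 k93 3 (.d k69 k73 k138 1 10))))), (.s k20 k40 5 (.s k150 k215 8 (.s k158 k109
  12 (.s k223 k239 3 (.d k154 k146 k16 1 10)))))] (.c k7 (.q k11 [(.s k69 k138 10 (.s k101 k117 3
  (.s k223 k239 3 (.d k154 k16 k48 10 14)))), (.s k109 k158 12 (.s k125 k190 8 (.s k65 k105 5 (.s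
  k77 k93 3 (.d k69 k73 k138 1 10))))), (.s k20 k40 5 (.s k150 k215 8 (.s k158 k109 12 (.s k223 k239
  3 (.d k154 k146 k16 1 10)))))] (.c k75 (.q k135 [(.s k69 k138 10 (.s k101 k117 3 (.s k223 k239 3
  (.d k154 k16 k48 10 14)))), (.s k20 k40 5 (.s k143 k139 1 (.s k150 k215 8 (.s k158 k109 12 (.d
  k188 k173 k169 4 6)))))] (.c k71 (.q k79 [(.s k69 k138 10 (.s k101 k117 3 (.s k223 k239 3 (.d k154
  k16 k48 10 14)))), (.s k20 k40 5 (.s k109 k158 12 (.s k124 k94 4 (.s k150 k215 8 (.d k188 k252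
  k169 7 6)))))] .n) (.c k79 (.q k71 [(.s k69 k138 10 (.s k101 k117 3 (.s k223 k239 3 (.d k154 k16
  k48 10 14)))), (.s k20 k40 5 (.s k143 k139 1 (.s k150 k215 8 (.s k158 k109 12 (.d k188 k173 k169 4
  6)))))] .n) .n))) (.c k135 (.q k75 [(.s k69 k138 10 (.s k101 k117 3 (.s k223 k239 3 (.d k154 k16
  k48 10 14)))), (.s k109 k158 12 (.s k125 k190 8 (.s k65 k105 5 (.s k77 k93 3 (.d k69 k73 k138 1
  10))))), (.s k20 k40 5 (.s k150 k215 8 (.s k158 k109 12 (.s k223 k239 3 (.d k154 k146 k16 1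
  10)))))] (.c k71 (.q k199 [(.s k20 k40 5 (.s k69 k138 10 (.s k101 k117 3 (.d k150 k215 k52 8
  12)))), (.s k69 k138 10 (.s k101 k117 3 (.s k154 k48 14 (.d k223 k239 k16 3 10)))), (.s k20 k40 5
  (.s k150 k215 8 (.s k101 k52 12 (.s k154 k48 14 (.d k158 k146 k109 1 12)))))] (.c k101 (.l (.s k20
  k40 5 (.s k69 k138 10 (.s k4 k134 8 (.s k215 k150 8 (.d k247 k166 k231 12 3)))))) (.c k154 (.l (.s
  k20 k40 5 (.s k150 k215 8 (.s k101 k52 12 (.d k69 k117 k138 3 10))))) .n))) (.c k199 (.q k71 [(.s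
  k69 k138 10 (.s k101 k117 3 (.s k223 k239 3 (.d k154 k16 k48 10 14)))), (.s k109 k158 12 (.s k125
  k190 8 (.s k65 k105 5 (.s k77 k93 3 (.d k69 k73 k138 1 10))))), (.s k20 k40 5 (.s k150 k215 8 (.s
  k158 k109 12 (.s k223 k239 3 (.d k154 k146 k16 1 10)))))] (.c k223 (.l (.s k69 k138 10 (.s k68 k70
  0 (.s k119 k102 4 (.s k51 k187 9 (.d k103 k87 k155 3 13)))))) .n)) (.c k223 (.l (.s k69 k138 10
  (.s k101 k117 3 (.s k109 k158 12 (.s k105 k97 1 (.d k125 k65 k190 5 8)))))) .n)))) (.c k223 (.l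
  (.s k69 k138 10 (.s k101 k117 3 (.s k109 k158 12 (.s k105 k97 1 (.d k125 k65 k190 5 8)))))) .n))))
  (.c k11 (.q k7 [(.s k69 k138 10 (.s k101 k117 3 (.s k223 k239 3 (.d k154 k16 k48 10 14)))), (.s
  k109 k158 12 (.s k125 k190 8 (.s k65 k105 5 (.s k77 k93 3 (.d k69 k73 k138 1 10))))), (.s k20 k40
  5 (.s k150 k215 8 (.s k158 k109 12 (.s k223 k239 3 (.d k154 k146 k16 1 10)))))] (.c k75 (.q k135
  [(.s k69 k138 10 (.s k101 k117 3 (.s k223 k239 3 (.d k154 k16 k48 10 14)))), (.s k20 k40 5 (.s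
  k150 k215 8 (.s k158 k109 12 (.s k188 k169 6 (.d k143 k139 k173 1 4)))))] (.c k71 (.q k79 [(.s k69
  k138 10 (.s k101 k117 3 (.s k223 k239 3 (.d k154 k16 k48 10 14)))), (.s k20 k40 5 (.s k109 k158 12
  (.s k124 k94 4 (.s k150 k215 8 (.d k188 k252 k169 7 6)))))] (.c k139 (.q k203 [(.s k69 k138 10 (.s
  k101 k117 3 (.s k223 k239 3 (.d k154 k16 k48 10 14)))), (.s k20 k40 5 (.s k109 k158 12 (.s k124
  k94 4 (.s k150 k215 8 (.d k188 k252 k169 7 6)))))] .n) (.c k203 (.l (.s k139 k143 1 (.s k69 k138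
  10 (.s k101 k117 3 (.s k154 k48 14 (.d k223 k239 k16 3 10)))))) .n))) (.c k79 (.l (.s k71 k199 7
  (.s k69 k138 10 (.s k101 k117 3 (.s k154 k48 14 (.d k223 k239 k16 3 10)))))) (.c k139 (.q k203
  [(.s k69 k138 10 (.s k101 k117 3 (.s k223 k239 3 (.d k154 k16 k48 10 14)))), (.s k109 k158 12 (.s
  k125 k190 8 (.s k65 k105 5 (.s k77 k93 3 (.d k69 k73 k138 1 10))))), (.s k125 k190 8 (.s k105 k65
  5 (.s k154 k56 12 (.d k223 k239 k16 3 10))))] (.c k71 (.q k79 [(.s k69 k138 10 (.s k101 k117 3 (.s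
  k223 k239 3 (.d k154 k16 k48 10 14)))), (.s k20 k40 5 (.s k109 k158 12 (.s k124 k94 4 (.s k150
  k215 8 (.d k188 k252 k169 7 6)))))] .n) (.c k79 (.l (.s k71 k199 7 (.s k69 k138 10 (.s k101 k117 3
  (.s k154 k48 14 (.d k223 k239 k16 3 10)))))) (.c k223 (.l (.s k20 k40 5 (.s k69 k138 10 (.s k101
  k117 3 (.s k150 k215 8 (.d k199 k71 k52 7 12)))))) .n)))) (.c k203 (.l (.s k139 k143 1 (.s k69
  k138 10 (.s k101 k117 3 (.s k154 k48 14 (.d k223 k239 k16 3 10)))))) .n))))) (.c k135 (.q k75 [(.s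
  k69 k138 10 (.s k101 k117 3 (.s k223 k239 3 (.d k154 k16 k48 10 14)))), (.s k109 k158 12 (.s k125
  k190 8 (.s k65 k105 5 (.s k77 k93 3 (.d k69 k73 k138 1 10))))), (.s k20 k40 5 (.s k150 k215 8 (.s
  k158 k109 12 (.s k223 k239 3 (.d k154 k146 k16 1 10)))))] (.c k223 (.l (.s k69 k138 10 (.s k101
  k117 3 (.s k109 k158 12 (.s k105 k97 1 (.d k125 k65 k190 5 8)))))) .n)) (.c k223 (.l (.s k69 k138
  10 (.s k101 k117 3 (.s k109 k158 12 (.s k105 k97 1 (.d k125 k65 k190 5 8)))))) .n)))) (.c k75 (.q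
  k135 [(.s k69 k138 10 (.s k101 k117 3 (.s k223 k239 3 (.d k154 k16 k48 10 14)))), (.s k20 k40 5
  (.s k143 k139 1 (.s k150 k215 8 (.s k158 k109 12 (.d k188 k173 k169 4 6)))))] (.c k7 (.q k11 [(.s
  k69 k138 10 (.s k101 k117 3 (.s k223 k239 3 (.d k154 k16 k48 10 14)))), (.s k20 k40 5 (.s k143
  k139 1 (.s k150 k215 8 (.s k158 k109 12 (.d k188 k173 k169 4 6)))))] (.c k71 (.q k79 [(.s k69 k138
  10 (.s k101 k117 3 (.s k223 k239 3 (.d k154 k16 k48 10 14)))), (.s k20 k40 5 (.s k109 k158 12 (.s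
  k124 k94 4 (.s k150 k215 8 (.d k188 k252 k169 7 6)))))] .n) (.c k79 (.q k71 [(.s k69 k138 10 (.s
  k101 k117 3 (.s k223 k239 3 (.d k154 k16 k48 10 14)))), (.s k20 k40 5 (.s k143 k139 1 (.s k150
  k215 8 (.s k158 k109 12 (.d k188 k173 k169 4 6)))))] .n) .n))) (.c k11 (.q k7 [(.s k69 k138 10 (.s
  k101 k117 3 (.s k223 k239 3 (.d k154 k16 k48 10 14)))), (.s k20 k40 5 (.s k150 k215 8 (.s k158
  k109 12 (.s k188 k169 6 (.d k143 k139 k173 1 4)))))] (.c k71 (.q k79 [(.s k69 k138 10 (.s k101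
  k117 3 (.s k223 k239 3 (.d k154 k16 k48 10 14)))), (.s k20 k40 5 (.s k109 k158 12 (.s k124 k94 4
  (.s k150 k215 8 (.d k188 k252 k169 7 6)))))] (.c k139 (.q k203 [(.s k69 k138 10 (.s k101 k117 3
  (.s k223 k239 3 (.d k154 k16 k48 10 14)))), (.s k20 k40 5 (.s k109 k158 12 (.s k124 k94 4 (.s k150
  k215 8 (.d k188 k252 k169 7 6)))))] .n) (.c k203 (.l (.s k139 k143 1 (.s k69 k138 10 (.s k101 k117
  3 (.s k154 k48 14 (.d k223 k239 k16 3 10)))))) .n))) (.c k79 (.l (.s k71 k199 7 (.s k69 k138 10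
  (.s k101 k117 3 (.s k154 k48 14 (.d k223 k239 k16 3 10)))))) (.c k139 (.q k203 [(.s k69 k138 10
  (.s k101 k117 3 (.s k223 k239 3 (.d k154 k16 k48 10 14)))), (.s k109 k158 12 (.s k125 k190 8 (.s
  k65 k105 5 (.s k77 k93 3 (.d k69 k73 k138 1 10))))), (.s k125 k190 8 (.s k105 k65 5 (.s k154 k56
  12 (.d k223 k239 k16 3 10))))] (.c k71 (.q k79 [(.s k69 k138 10 (.s k101 k117 3 (.s k223 k239 3
  (.d k154 k16 k48 10 14)))), (.s k20 k40 5 (.s k109 k158 12 (.s k124 k94 4 (.s k150 k215 8 (.d k188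
  k252 k169 7 6)))))] .n) (.c k79 (.l (.s k71 k199 7 (.s k69 k138 10 (.s k101 k117 3 (.s k154 k48 14
  (.d k223 k239 k16 3 10)))))) (.c k223 (.l (.s k20 k40 5 (.s k69 k138 10 (.s k101 k117 3 (.s k150
  k215 8 (.d k199 k71 k52 7 12)))))) .n)))) (.c k203 (.l (.s k139 k143 1 (.s k69 k138 10 (.s k101
  k117 3 (.s k154 k48 14 (.d k223 k239 k16 3 10)))))) .n))))) (.c k71 (.q k79 [(.s k69 k138 10 (.s
  k101 k117 3 (.s k223 k239 3 (.d k154 k16 k48 10 14)))), (.s k20 k40 5 (.s k109 k158 12 (.s k124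
  k94 4 (.s k150 k215 8 (.d k188 k252 k169 7 6)))))] (.c k7 (.q k11 [(.s k69 k138 10 (.s k101 k117 3
  (.s k223 k239 3 (.d k154 k16 k48 10 14)))), (.s k20 k40 5 (.s k109 k158 12 (.s k124 k94 4 (.s k150
  k215 8 (.d k188 k252 k169 7 6)))))] .n) (.c k11 (.q k7 [(.s k69 k138 10 (.s k101 k117 3 (.s k223
  k239 3 (.d k154 k16 k48 10 14)))), (.s k20 k40 5 (.s k109 k158 12 (.s k124 k94 4 (.s k150 k215 8
  (.d k188 k252 k169 7 6)))))] (.c k139 (.q k203 [(.s k69 k138 10 (.s k101 k117 3 (.s k223 k239 3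
  (.d k154 k16 k48 10 14)))), (.s k20 k40 5 (.s k109 k158 12 (.s k124 k94 4 (.s k150 k215 8 (.d k188
  k252 k169 7 6)))))] .n) (.c k203 (.l (.s k139 k143 1 (.s k69 k138 10 (.s k101 k117 3 (.s k154 k48
  14 (.d k223 k239 k16 3 10)))))) .n))) .n))) (.c k79 (.q k71 [(.s k69 k138 10 (.s k101 k117 3 (.s
  k223 k239 3 (.d k154 k16 k48 10 14)))), (.s k20 k40 5 (.s k143 k139 1 (.s k150 k215 8 (.s k158
  k109 12 (.d k188 k173 k169 4 6)))))] (.c k7 (.q k11 [(.s k69 k138 10 (.s k101 k117 3 (.s k223 k239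
  3 (.d k154 k16 k48 10 14)))), (.s k20 k40 5 (.s k143 k139 1 (.s k150 k215 8 (.s k158 k109 12 (.d
  k188 k173 k169 4 6)))))] .n) (.c k11 (.l (.s k7 k199 7 (.s k69 k138 10 (.s k101 k117 3 (.s k154
  k48 14 (.d k223 k239 k16 3 10)))))) .n))) .n))))) (.c k135 (.q k75 [(.s k69 k138 10 (.s k101 k117
  3 (.s k223 k239 3 (.d k154 k16 k48 10 14)))), (.s k109 k158 12 (.s k125 k190 8 (.s k65 k105 5 (.s
  k77 k93 3 (.d k69 k73 k138 1 10))))), (.s k20 k40 5 (.s k150 k215 8 (.s k158 k109 12 (.s k223 k239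
  3 (.d k154 k146 k16 1 10)))))] (.c k7 (.q k11 [(.s k69 k138 10 (.s k101 k117 3 (.s k223 k239 3 (.d
  k154 k16 k48 10 14)))), (.s k109 k158 12 (.s k125 k190 8 (.s k65 k105 5 (.s k77 k93 3 (.d k69 k73
  k138 1 10))))), (.s k20 k40 5 (.s k150 k215 8 (.s k158 k109 12 (.s k223 k239 3 (.d k154 k146 k16 1
  10)))))] (.c k71 (.q k199 [(.s k20 k40 5 (.s k69 k138 10 (.s k101 k117 3 (.d k150 k215 k52 8
  12)))), (.s k69 k138 10 (.s k101 k117 3 (.s k154 k48 14 (.d k223 k239 k16 3 10)))), (.s k20 k40 5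
  (.s k150 k215 8 (.s k101 k52 12 (.s k154 k48 14 (.d k158 k146 k109 1 12)))))] (.c k101 (.l (.s k20
  k40 5 (.s k69 k138 10 (.s k4 k134 8 (.s k215 k150 8 (.d k247 k166 k231 12 3)))))) (.c k154 (.l (.s
  k20 k40 5 (.s k150 k215 8 (.s k101 k52 12 (.d k69 k117 k138 3 10))))) .n))) (.c k199 (.q k71 [(.s
  k69 k138 10 (.s k101 k117 3 (.s k223 k239 3 (.d k154 k16 k48 10 14)))), (.s k109 k158 12 (.s k125
  k190 8 (.s k65 k105 5 (.s k77 k93 3 (.d k69 k73 k138 1 10))))), (.s k20 k40 5 (.s k150 k215 8 (.s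
  k158 k109 12 (.s k223 k239 3 (.d k154 k146 k16 1 10)))))] (.c k223 (.l (.s k69 k138 10 (.s k68 k70
  0 (.s k119 k102 4 (.s k51 k187 9 (.d k103 k87 k155 3 13)))))) .n)) (.c k223 (.l (.s k69 k138 10
  (.s k101 k117 3 (.s k109 k158 12 (.s k105 k97 1 (.d k125 k65 k190 5 8)))))) .n)))) (.c k11 (.q k7
  [(.s k69 k138 10 (.s k101 k117 3 (.s k223 k239 3 (.d k154 k16 k48 10 14)))), (.s k109 k158 12 (.s
  k125 k190 8 (.s k65 k105 5 (.s k77 k93 3 (.d k69 k73 k138 1 10))))), (.s k20 k40 5 (.s k150 k215 8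
  (.s k158 k109 12 (.s k223 k239 3 (.d k154 k146 k16 1 10)))))] (.c k223 (.l (.s k69 k138 10 (.s
  k101 k117 3 (.s k109 k158 12 (.s k105 k97 1 (.d k125 k65 k190 5 8)))))) .n)) (.c k223 (.l (.s k69
  k138 10 (.s k101 k117 3 (.s k109 k158 12 (.s k105 k97 1 (.d k125 k65 k190 5 8)))))) .n)))) (.c
  k223 (.l (.s k69 k138 10 (.s k101 k117 3 (.s k109 k158 12 (.s k105 k97 1 (.d k125 k65 k190 5
  8)))))) .n)))))) (.c k75 (.q k135 [(.s k69 k138 10 (.s k101 k117 3 (.s k223 k239 3 (.d k154 k16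
  k48 10 14)))), (.s k109 k158 12 (.s k125 k190 8 (.s k65 k105 5 (.s k77 k93 3 (.d k69 k73 k138 1
  10))))), (.s k20 k40 5 (.s k150 k215 8 (.s k158 k109 12 (.s k223 k239 3 (.d k154 k146 k16 1
  10)))))] (.c k7 (.q k11 [(.s k69 k138 10 (.s k101 k117 3 (.s k223 k239 3 (.d k154 k16 k48 10
  14)))), (.s k109 k158 12 (.s k125 k190 8 (.s k65 k105 5 (.s k77 k93 3 (.d k69 k73 k138 1 10))))),
  (.s k20 k40 5 (.s k150 k215 8 (.s k158 k109 12 (.s k223 k239 3 (.d k154 k146 k16 1 10)))))] (.c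
  k67 (.q k131 [(.s k69 k138 10 (.s k101 k117 3 (.s k223 k239 3 (.d k154 k16 k48 10 14)))), (.s k20
  k40 5 (.s k143 k139 1 (.s k150 k215 8 (.s k158 k109 12 (.d k188 k173 k169 4 6)))))] (.c k71 (.q
  k79 [(.s k69 k138 10 (.s k101 k117 3 (.s k223 k239 3 (.d k154 k16 k48 10 14)))), (.s k20 k40 5 (.s
  k109 k158 12 (.s k124 k94 4 (.s k150 k215 8 (.d k188 k252 k169 7 6)))))] .n) (.c k79 (.q k71 [(.s
  k69 k138 10 (.s k101 k117 3 (.s k223 k239 3 (.d k154 k16 k48 10 14)))), (.s k20 k40 5 (.s k143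
  k139 1 (.s k150 k215 8 (.s k158 k109 12 (.d k188 k173 k169 4 6)))))] .n) .n))) (.c k131 (.q k67
  [(.s k69 k138 10 (.s k101 k117 3 (.s k223 k239 3 (.d k154 k16 k48 10 14)))), (.s k109 k158 12 (.s
  k125 k190 8 (.s k65 k105 5 (.s k77 k93 3 (.d k69 k73 k138 1 10))))), (.s k20 k40 5 (.s k150 k215 8
  (.s k158 k109 12 (.s k223 k239 3 (.d k154 k146 k16 1 10)))))] (.c k223 (.l (.s k69 k138 10 (.s
  k101 k117 3 (.s k109 k158 12 (.s k105 k97 1 (.d k125 k65 k190 5 8)))))) .n)) (.c k223 (.l (.s k69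
  k138 10 (.s k101 k117 3 (.s k109 k158 12 (.s k105 k97 1 (.d k125 k65 k190 5 8)))))) .n)))) (.c k11
  (.q k7 [(.s k69 k138 10 (.s k101 k117 3 (.s k223 k239 3 (.d k154 k16 k48 10 14)))), (.s k20 k40 5
  (.s k150 k215 8 (.s k199 k71 7 (.s k101 k52 12 (.d k69 k117 k138 3 10))))), (.s k20 k40 5 (.s k150
  k215 8 (.s k158 k109 12 (.s k154 k146 1 (.d k223 k239 k16 3 10)))))] (.c k67 (.q k131 [(.s k69
  k138 10 (.s k101 k117 3 (.s k223 k239 3 (.d k154 k16 k48 10 14)))), (.s k20 k40 5 (.s k150 k215 8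
  (.s k158 k109 12 (.s k188 k169 6 (.d k143 k139 k173 1 4)))))] (.c k71 (.q k79 [(.s k69 k138 10 (.s
  k101 k117 3 (.s k223 k239 3 (.d k154 k16 k48 10 14)))), (.s k20 k40 5 (.s k109 k158 12 (.s k124
  k94 4 (.s k150 k215 8 (.d k188 k252 k169 7 6)))))] (.c k139 (.q k203 [(.s k69 k138 10 (.s k101
  k117 3 (.s k223 k239 3 (.d k154 k16 k48 10 14)))), (.s k20 k40 5 (.s k109 k158 12 (.s k124 k94 4
  (.s k150 k215 8 (.d k188 k252 k169 7 6)))))] .n) (.c k203 (.l (.s k139 k143 1 (.s k69 k138 10 (.s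
  k101 k117 3 (.s k154 k48 14 (.d k223 k239 k16 3 10)))))) .n))) (.c k79 (.l (.s k71 k199 7 (.s k69
  k138 10 (.s k101 k117 3 (.s k154 k48 14 (.d k223 k239 k16 3 10)))))) (.c k139 (.q k203 [(.s k69
  k138 10 (.s k101 k117 3 (.s k223 k239 3 (.d k154 k16 k48 10 14)))), (.s k109 k158 12 (.s k125 k190
  8 (.s k65 k105 5 (.s k77 k93 3 (.d k69 k73 k138 1 10))))), (.s k125 k190 8 (.s k105 k65 5 (.s k154
  k56 12 (.d k223 k239 k16 3 10))))] (.c k71 (.q k79 [(.s k69 k138 10 (.s k101 k117 3 (.s k223 k239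
  3 (.d k154 k16 k48 10 14)))), (.s k20 k40 5 (.s k109 k158 12 (.s k124 k94 4 (.s k150 k215 8 (.d
  k188 k252 k169 7 6)))))] .n) (.c k79 (.l (.s k71 k199 7 (.s k69 k138 10 (.s k101 k117 3 (.s k154
  k48 14 (.d k223 k239 k16 3 10)))))) (.c k223 (.l (.s k20 k40 5 (.s k69 k138 10 (.s k101 k117 3 (.s
  k150 k215 8 (.d k199 k71 k52 7 12)))))) .n)))) (.c k203 (.l (.s k139 k143 1 (.s k69 k138 10 (.s
  k101 k117 3 (.s k154 k48 14 (.d k223 k239 k16 3 10)))))) .n))))) (.c k131 (.q k67 [(.s k69 k138 10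
  (.s k101 k117 3 (.s k223 k239 3 (.d k154 k16 k48 10 14)))), (.s k20 k40 5 (.s k150 k215 8 (.s k199
  k71 7 (.s k101 k52 12 (.d k69 k117 k138 3 10))))), (.s k20 k40 5 (.s k150 k215 8 (.s k158 k109 12
  (.s k154 k146 1 (.d k223 k239 k16 3 10)))))] (.c k139 (.q k203 [(.s k69 k138 10 (.s k101 k117 3
  (.s k223 k239 3 (.d k154 k16 k48 10 14)))), (.s k125 k190 8 (.s k105 k65 5 (.s k154 k56 12 (.d
  k223 k239 k16 3 10)))), (.s k20 k40 5 (.s k150 k215 8 (.s k199 k71 7 (.s k101 k52 12 (.d k69 k117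
  k138 3 10)))))] .n) (.c k203 (.q k139 [(.s k69 k138 10 (.s k101 k117 3 (.s k223 k239 3 (.d k154
  k16 k48 10 14)))), (.s k20 k40 5 (.s k150 k215 8 (.s k199 k71 7 (.s k101 k52 12 (.d k69 k117 k138
  3 10))))), (.s k20 k40 5 (.s k150 k215 8 (.s k158 k109 12 (.s k154 k146 1 (.d k223 k239 k16 3
  10)))))] .n) .n))) (.c k139 (.q k203 [(.s k69 k138 10 (.s k101 k117 3 (.s k223 k239 3 (.d k154 k16
  k48 10 14)))), (.s k125 k190 8 (.s k105 k65 5 (.s k154 k56 12 (.d k223 k239 k16 3 10)))), (.s k20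
  k40 5 (.s k150 k215 8 (.s k199 k71 7 (.s k101 k52 12 (.d k69 k117 k138 3 10)))))] (.c k67 (.q k131
  [(.s k69 k138 10 (.s k101 k117 3 (.s k223 k239 3 (.d k154 k16 k48 10 14)))), (.s k109 k158 12 (.s
  k125 k190 8 (.s k65 k105 5 (.s k77 k93 3 (.d k69 k73 k138 1 10))))), (.s k125 k190 8 (.s k105 k65
  5 (.s k154 k56 12 (.d k223 k239 k16 3 10))))] (.c k71 (.q k79 [(.s k69 k138 10 (.s k101 k117 3 (.s
  k223 k239 3 (.d k154 k16 k48 10 14)))), (.s k20 k40 5 (.s k109 k158 12 (.s k124 k94 4 (.s k150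
  k215 8 (.d k188 k252 k169 7 6)))))] .n) (.c k79 (.l (.s k71 k199 7 (.s k69 k138 10 (.s k101 k117 3
  (.s k154 k48 14 (.d k223 k239 k16 3 10)))))) (.c k223 (.l (.s k20 k40 5 (.s k69 k138 10 (.s k101
  k117 3 (.s k150 k215 8 (.d k199 k71 k52 7 12)))))) .n)))) (.c k131 (.q k67 [(.s k69 k138 10 (.s
  k101 k117 3 (.s k223 k239 3 (.d k154 k16 k48 10 14)))), (.s k125 k190 8 (.s k105 k65 5 (.s k154
  k56 12 (.d k223 k239 k16 3 10)))), (.s k20 k40 5 (.s k150 k215 8 (.s k199 k71 7 (.s k101 k52 12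
  (.d k69 k117 k138 3 10)))))] .n) .n))) (.c k203 (.q k139 [(.s k69 k138 10 (.s k101 k117 3 (.s k223
  k239 3 (.d k154 k16 k48 10 14)))), (.s k20 k40 5 (.s k150 k215 8 (.s k199 k71 7 (.s k101 k52 12
  (.d k69 k117 k138 3 10))))), (.s k20 k40 5 (.s k150 k215 8 (.s k158 k109 12 (.s k154 k146 1 (.d
  k223 k239 k16 3 10)))))] (.c k67 (.l (.s k131 k143 1 (.s k69 k138 10 (.s k101 k117 3 (.s k154 k48
  14 (.d k223 k239 k16 3 10)))))) (.c k131 (.q k67 [(.s k69 k138 10 (.s k101 k117 3 (.s k223 k239 3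
  (.d k154 k16 k48 10 14)))), (.s k20 k40 5 (.s k150 k215 8 (.s k199 k71 7 (.s k101 k52 12 (.d k69
  k117 k138 3 10))))), (.s k20 k40 5 (.s k150 k215 8 (.s k158 k109 12 (.s k154 k146 1 (.d k223 k239
  k16 3 10)))))] .n) .n))) .n))))) (.c k67 (.q k131 [(.s k69 k138 10 (.s k101 k117 3 (.s k223 k239 3
  (.d k154 k16 k48 10 14)))), (.s k20 k40 5 (.s k143 k139 1 (.s k150 k215 8 (.s k158 k109 12 (.d
  k188 k173 k169 4 6)))))] (.c k7 (.q k11 [(.s k69 k138 10 (.s k101 k117 3 (.s k223 k239 3 (.d k154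
  k16 k48 10 14)))), (.s k20 k40 5 (.s k143 k139 1 (.s k150 k215 8 (.s k158 k109 12 (.d k188 k173
  k169 4 6)))))] (.c k71 (.q k79 [(.s k69 k138 10 (.s k101 k117 3 (.s k223 k239 3 (.d k154 k16 k48
  10 14)))), (.s k20 k40 5 (.s k109 k158 12 (.s k124 k94 4 (.s k150 k215 8 (.d k188 k252 k169 7
  6)))))] .n) (.c k79 (.q k71 [(.s k69 k138 10 (.s k101 k117 3 (.s k223 k239 3 (.d k154 k16 k48 10
  14)))), (.s k20 k40 5 (.s k143 k139 1 (.s k150 k215 8 (.s k158 k109 12 (.d k188 k173 k169 4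
  6)))))] .n) .n))) (.c k11 (.q k7 [(.s k69 k138 10 (.s k101 k117 3 (.s k223 k239 3 (.d k154 k16 k48
  10 14)))), (.s k20 k40 5 (.s k150 k215 8 (.s k158 k109 12 (.s k188 k169 6 (.d k143 k139 k173 1
  4)))))] (.c k71 (.q k79 [(.s k69 k138 10 (.s k101 k117 3 (.s k223 k239 3 (.d k154 k16 k48 10
  14)))), (.s k20 k40 5 (.s k109 k158 12 (.s k124 k94 4 (.s k150 k215 8 (.d k188 k252 k169 7 6)))))]
  (.c k139 (.q k203 [(.s k69 k138 10 (.s k101 k117 3 (.s k223 k239 3 (.d k154 k16 k48 10 14)))), (.s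
  k20 k40 5 (.s k109 k158 12 (.s k124 k94 4 (.s k150 k215 8 (.d k188 k252 k169 7 6)))))] .n) (.c
  k203 (.l (.s k139 k143 1 (.s k69 k138 10 (.s k101 k117 3 (.s k154 k48 14 (.d k223 k239 k16 3
  10)))))) .n))) (.c k79 (.l (.s k71 k199 7 (.s k69 k138 10 (.s k101 k117 3 (.s k154 k48 14 (.d k223
  k239 k16 3 10)))))) (.c k139 (.q k203 [(.s k69 k138 10 (.s k101 k117 3 (.s k223 k239 3 (.d k154
  k16 k48 10 14)))), (.s k109 k158 12 (.s k125 k190 8 (.s k65 k105 5 (.s k77 k93 3 (.d k69 k73 k138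
  1 10))))), (.s k125 k190 8 (.s k105 k65 5 (.s k154 k56 12 (.d k223 k239 k16 3 10))))] (.c k71 (.q
  k79 [(.s k69 k138 10 (.s k101 k117 3 (.s k223 k239 3 (.d k154 k16 k48 10 14)))), (.s k20 k40 5 (.s
  k109 k158 12 (.s k124 k94 4 (.s k150 k215 8 (.d k188 k252 k169 7 6)))))] .n) (.c k79 (.l (.s k71
  k199 7 (.s k69 k138 10 (.s k101 k117 3 (.s k154 k48 14 (.d k223 k239 k16 3 10)))))) (.c k223 (.l
  (.s k20 k40 5 (.s k69 k138 10 (.s k101 k117 3 (.s k150 k215 8 (.d k199 k71 k52 7 12)))))) .n))))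
  (.c k203 (.l (.s k139 k143 1 (.s k69 k138 10 (.s k101 k117 3 (.s k154 k48 14 (.d k223 k239 k16 3
  10)))))) .n))))) (.c k71 (.q k79 [(.s k69 k138 10 (.s k101 k117 3 (.s k223 k239 3 (.d k154 k16 k48
  10 14)))), (.s k20 k40 5 (.s k109 k158 12 (.s k124 k94 4 (.s k150 k215 8 (.d k188 k252 k169 7
  6)))))] (.c k7 (.q k11 [(.s k69 k138 10 (.s k101 k117 3 (.s k223 k239 3 (.d k154 k16 k48 10
  14)))), (.s k20 k40 5 (.s k109 k158 12 (.s k124 k94 4 (.s k150 k215 8 (.d k188 k252 k169 7 6)))))]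
  .n) (.c k11 (.q k7 [(.s k69 k138 10 (.s k101 k117 3 (.s k223 k239 3 (.d k154 k16 k48 10 14)))),
  (.s k20 k40 5 (.s k109 k158 12 (.s k124 k94 4 (.s k150 k215 8 (.d k188 k252 k169 7 6)))))] (.c
  k139 (.q k203 [(.s k69 k138 10 (.s k101 k117 3 (.s k223 k239 3 (.d k154 k16 k48 10 14)))), (.s k20
  k40 5 (.s k109 k158 12 (.s k124 k94 4 (.s k150 k215 8 (.d k188 k252 k169 7 6)))))] .n) (.c k203
  (.l (.s k139 k143 1 (.s k69 k138 10 (.s k101 k117 3 (.s k154 k48 14 (.d k223 k239 k16 3 10))))))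
  .n))) .n))) (.c k79 (.q k71 [(.s k69 k138 10 (.s k101 k117 3 (.s k223 k239 3 (.d k154 k16 k48 10
  14)))), (.s k20 k40 5 (.s k143 k139 1 (.s k150 k215 8 (.s k158 k109 12 (.d k188 k173 k169 4
  6)))))] (.c k7 (.q k11 [(.s k69 k138 10 (.s k101 k117 3 (.s k223 k239 3 (.d k154 k16 k48 10
  14)))), (.s k20 k40 5 (.s k143 k139 1 (.s k150 k215 8 (.s k158 k109 12 (.d k188 k173 k169 4
  6)))))] .n) (.c k11 (.l (.s k7 k199 7 (.s k69 k138 10 (.s k101 k117 3 (.s k154 k48 14 (.d k223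
  k239 k16 3 10)))))) .n))) .n))))) (.c k131 (.q k67 [(.s k69 k138 10 (.s k101 k117 3 (.s k223 k239
  3 (.d k154 k16 k48 10 14)))), (.s k109 k158 12 (.s k125 k190 8 (.s k65 k105 5 (.s k77 k93 3 (.d
  k69 k73 k138 1 10))))), (.s k20 k40 5 (.s k150 k215 8 (.s k158 k109 12 (.s k223 k239 3 (.d k154
  k146 k16 1 10)))))] (.c k7 (.q k11 [(.s k69 k138 10 (.s k101 k117 3 (.s k223 k239 3 (.d k154 k16
  k48 10 14)))), (.s k109 k158 12 (.s k125 k190 8 (.s k65 k105 5 (.s k77 k93 3 (.d k69 k73 k138 1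
  10))))), (.s k20 k40 5 (.s k150 k215 8 (.s k158 k109 12 (.s k223 k239 3 (.d k154 k146 k16 1
  10)))))] (.c k223 (.l (.s k69 k138 10 (.s k101 k117 3 (.s k109 k158 12 (.s k105 k97 1 (.d k125 k65
  k190 5 8)))))) .n)) (.c k11 (.q k7 [(.s k69 k138 10 (.s k101 k117 3 (.s k223 k239 3 (.d k154 k16
  k48 10 14)))), (.s k20 k40 5 (.s k150 k215 8 (.s k199 k71 7 (.s k101 k52 12 (.d k69 k117 k138 3
  10))))), (.s k20 k40 5 (.s k150 k215 8 (.s k158 k109 12 (.s k154 k146 1 (.d k223 k239 k16 3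
  10)))))] (.c k139 (.q k203 [(.s k69 k138 10 (.s k101 k117 3 (.s k223 k239 3 (.d k154 k16 k48 10
  14)))), (.s k125 k190 8 (.s k105 k65 5 (.s k154 k56 12 (.d k223 k239 k16 3 10)))), (.s k20 k40 5
  (.s k150 k215 8 (.s k199 k71 7 (.s k101 k52 12 (.d k69 k117 k138 3 10)))))] .n) (.c k203 (.q k139
  [(.s k69 k138 10 (.s k101 k117 3 (.s k223 k239 3 (.d k154 k16 k48 10 14)))), (.s k20 k40 5 (.s
  k150 k215 8 (.s k199 k71 7 (.s k101 k52 12 (.d k69 k117 k138 3 10))))), (.s k20 k40 5 (.s k150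
  k215 8 (.s k158 k109 12 (.s k154 k146 1 (.d k223 k239 k16 3 10)))))] .n) .n))) (.c k223 (.l (.s
  k69 k138 10 (.s k101 k117 3 (.s k109 k158 12 (.s k105 k97 1 (.d k125 k65 k190 5 8)))))) .n)))) (.c
  k223 (.l (.s k69 k138 10 (.s k101 k117 3 (.s k109 k158 12 (.s k105 k97 1 (.d k125 k65 k190 5
  8)))))) .n)))))) (.c k131 (.q k67 [(.s k69 k138 10 (.s k101 k117 3 (.s k223 k239 3 (.d k154 k16
  k48 10 14)))), (.s k109 k158 12 (.s k125 k190 8 (.s k65 k105 5 (.s k77 k93 3 (.d k69 k73 k138 1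
  10))))), (.s k20 k40 5 (.s k150 k215 8 (.s k158 k109 12 (.s k223 k239 3 (.d k154 k146 k16 1
  10)))))] (.c k7 (.q k11 [(.s k69 k138 10 (.s k101 k117 3 (.s k223 k239 3 (.d k154 k16 k48 10
  14)))), (.s k109 k158 12 (.s k125 k190 8 (.s k65 k105 5 (.s k77 k93 3 (.d k69 k73 k138 1 10))))),
  (.s k20 k40 5 (.s k150 k215 8 (.s k158 k109 12 (.s k223 k239 3 (.d k154 k146 k16 1 10)))))] (.c
  k75 (.q k135 [(.s k69 k138 10 (.s k101 k117 3 (.s k223 k239 3 (.d k154 k16 k48 10 14)))), (.s k109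
  k158 12 (.s k125 k190 8 (.s k65 k105 5 (.s k77 k93 3 (.d k69 k73 k138 1 10))))), (.s k20 k40 5 (.s
  k150 k215 8 (.s k158 k109 12 (.s k223 k239 3 (.d k154 k146 k16 1 10)))))] (.c k223 (.l (.s k69
  k138 10 (.s k101 k117 3 (.s k109 k158 12 (.s k105 k97 1 (.d k125 k65 k190 5 8)))))) .n)) (.c k135
  (.q k75 [(.s k69 k138 10 (.s k101 k117 3 (.s k223 k239 3 (.d k154 k16 k48 10 14)))), (.s k109 k158
  12 (.s k125 k190 8 (.s k65 k105 5 (.s k77 k93 3 (.d k69 k73 k138 1 10))))), (.s k20 k40 5 (.s k150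
  k215 8 (.s k158 k109 12 (.s k223 k239 3 (.d k154 k146 k16 1 10)))))] (.c k71 (.q k199 [(.s k20 k40
  5 (.s k69 k138 10 (.s k101 k117 3 (.d k150 k215 k52 8 12)))), (.s k69 k138 10 (.s k101 k117 3 (.s
  k154 k48 14 (.d k223 k239 k16 3 10)))), (.s k20 k40 5 (.s k150 k215 8 (.s k101 k52 12 (.s k154 k48
  14 (.d k158 k146 k109 1 12)))))] (.c k101 (.l (.s k20 k40 5 (.s k69 k138 10 (.s k4 k134 8 (.s k215
  k150 8 (.d k247 k166 k231 12 3)))))) (.c k139 (.q k143 [(.s k20 k40 5 (.s k150 k215 8 (.s k101 k52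
  12 (.d k69 k117 k138 3 10)))), (.s k69 k138 10 (.s k101 k117 3 (.s k154 k48 14 (.d k223 k239 k16 3
  10)))), (.s k20 k40 5 (.s k150 k215 8 (.s k101 k52 12 (.s k154 k48 14 (.d k158 k146 k109 1
  12))))), (.s k20 k40 5 (.s k69 k138 10 (.s k4 k134 8 (.s k215 k150 8 (.d k247 k166 k231 12 3)))))]
  .n) (.c k143 (.l (.s k139 k203 7 (.s k20 k40 5 (.s k69 k138 10 (.s k101 k117 3 (.d k150 k215 k52 8
  12)))))) (.c k154 (.l (.s k20 k40 5 (.s k150 k215 8 (.s k101 k52 12 (.d k69 k117 k138 3 10)))))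
  .n))))) (.c k139 (.q k143 [(.s k69 k138 10 (.s k101 k117 3 (.s k223 k239 3 (.d k154 k16 k48 10
  14)))), (.s k109 k158 12 (.s k125 k190 8 (.s k65 k105 5 (.s k77 k93 3 (.d k69 k73 k138 1 10))))),
  (.s k20 k40 5 (.s k150 k215 8 (.s k158 k109 12 (.s k223 k239 3 (.d k154 k146 k16 1 10)))))] (.c
  k71 (.q k199 [(.s k20 k40 5 (.s k150 k215 8 (.s k101 k52 12 (.d k69 k117 k138 3 10)))), (.s k69
  k138 10 (.s k101 k117 3 (.s k154 k48 14 (.d k223 k239 k16 3 10)))), (.s k20 k40 5 (.s k150 k215 8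
  (.s k101 k52 12 (.s k154 k48 14 (.d k158 k146 k109 1 12))))), (.s k20 k40 5 (.s k69 k138 10 (.s k4
  k134 8 (.s k215 k150 8 (.d k247 k166 k231 12 3)))))] .n) (.c k199 (.l (.s k71 k79 1 (.s k69 k138
  10 (.s k101 k117 3 (.s k154 k48 14 (.d k223 k239 k16 3 10)))))) (.c k223 (.l (.s k69 k138 10 (.s
  k101 k117 3 (.s k109 k158 12 (.s k105 k97 1 (.d k125 k65 k190 5 8)))))) .n)))) (.c k143 (.l (.s
  k139 k203 7 (.s k69 k138 10 (.s k101 k117 3 (.s k154 k48 14 (.d k223 k239 k16 3 10)))))) (.c k199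
  (.l (.s k71 k79 1 (.s k69 k138 10 (.s k101 k117 3 (.s k154 k48 14 (.d k223 k239 k16 3 10)))))) (.c
  k223 (.l (.s k69 k138 10 (.s k101 k117 3 (.s k109 k158 12 (.s k105 k97 1 (.d k125 k65 k190 5
  8)))))) .n)))))) (.c k223 (.l (.s k69 k138 10 (.s k101 k117 3 (.s k109 k158 12 (.s k105 k97 1 (.d
  k125 k65 k190 5 8)))))) .n)))) (.c k11 (.q k7 [(.s k69 k138 10 (.s k101 k117 3 (.s k223 k239 3 (.d
  k154 k16 k48 10 14)))), (.s k109 k158 12 (.s k125 k190 8 (.s k65 k105 5 (.s k77 k93 3 (.d k69 k73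
  k138 1 10))))), (.s k20 k40 5 (.s k150 k215 8 (.s k158 k109 12 (.s k223 k239 3 (.d k154 k146 k16 1
  10)))))] (.c k75 (.q k135 [(.s k69 k138 10 (.s k101 k117 3 (.s k223 k239 3 (.d k154 k16 k48 10
  14)))), (.s k20 k40 5 (.s k150 k215 8 (.s k199 k71 7 (.s k101 k52 12 (.d k69 k117 k138 3 10))))),
  (.s k20 k40 5 (.s k150 k215 8 (.s k158 k109 12 (.s k154 k146 1 (.d k223 k239 k16 3 10)))))] (.c
  k139 (.q k203 [(.s k69 k138 10 (.s k101 k117 3 (.s k223 k239 3 (.d k154 k16 k48 10 14)))), (.s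
  k125 k190 8 (.s k105 k65 5 (.s k154 k56 12 (.d k223 k239 k16 3 10)))), (.s k20 k40 5 (.s k150 k215
  8 (.s k199 k71 7 (.s k101 k52 12 (.d k69 k117 k138 3 10)))))] .n) (.c k203 (.q k139 [(.s k69 k138
  10 (.s k101 k117 3 (.s k223 k239 3 (.d k154 k16 k48 10 14)))), (.s k20 k40 5 (.s k150 k215 8 (.s
  k199 k71 7 (.s k101 k52 12 (.d k69 k117 k138 3 10))))), (.s k20 k40 5 (.s k150 k215 8 (.s k158
  k109 12 (.s k154 k146 1 (.d k223 k239 k16 3 10)))))] .n) .n))) (.c k135 (.q k75 [(.s k69 k138 10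
  (.s k101 k117 3 (.s k223 k239 3 (.d k154 k16 k48 10 14)))), (.s k79 k71 1 (.s k109 k158 12 (.s
  k124 k94 4 (.s k105 k86 6 (.d k125 k65 k190 5 8)))))] (.c k101 (.l (.s k20 k40 5 (.s k150 k215 8
  (.s k158 k109 12 (.s k154 k146 1 (.d k223 k239 k16 3 10)))))) (.c k139 (.q k143 [(.s k69 k138 10
  (.s k101 k117 3 (.s k223 k239 3 (.d k154 k16 k48 10 14)))), (.s k79 k71 1 (.s k109 k158 12 (.s
  k124 k94 4 (.s k105 k86 6 (.d k125 k65 k190 5 8)))))] (.c k101 (.l (.s k20 k40 5 (.s k150 k215 8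
  (.s k158 k109 12 (.s k154 k146 1 (.d k223 k239 k16 3 10)))))) .n)) (.c k143 (.q k139 [(.s k69 k138
  10 (.s k101 k117 3 (.s k223 k239 3 (.d k154 k16 k48 10 14)))), (.s k79 k71 1 (.s k109 k158 12 (.s
  k124 k94 4 (.s k105 k86 6 (.d k125 k65 k190 5 8)))))] (.c k101 (.l (.s k20 k40 5 (.s k150 k215 8
  (.s k158 k109 12 (.s k154 k146 1 (.d k223 k239 k16 3 10)))))) .n)) .n)))) (.c k223 (.l (.s k69
  k138 10 (.s k101 k117 3 (.s k109 k158 12 (.s k105 k97 1 (.d k125 k65 k190 5 8)))))) .n)))) (.c k75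
  (.q k135 [(.s k69 k138 10 (.s k101 k117 3 (.s k223 k239 3 (.d k154 k16 k48 10 14)))), (.s k109
  k158 12 (.s k125 k190 8 (.s k65 k105 5 (.s k77 k93 3 (.d k69 k73 k138 1 10))))), (.s k20 k40 5 (.s
  k150 k215 8 (.s k158 k109 12 (.s k223 k239 3 (.d k154 k146 k16 1 10)))))] (.c k7 (.q k11 [(.s k69
  k138 10 (.s k101 k117 3 (.s k223 k239 3 (.d k154 k16 k48 10 14)))), (.s k109 k158 12 (.s k125 k190
  8 (.s k65 k105 5 (.s k77 k93 3 (.d k69 k73 k138 1 10))))), (.s k20 k40 5 (.s k150 k215 8 (.s k158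
  k109 12 (.s k223 k239 3 (.d k154 k146 k16 1 10)))))] (.c k223 (.l (.s k69 k138 10 (.s k101 k117 3
  (.s k109 k158 12 (.s k105 k97 1 (.d k125 k65 k190 5 8)))))) .n)) (.c k11 (.q k7 [(.s k69 k138 10
  (.s k101 k117 3 (.s k223 k239 3 (.d k154 k16 k48 10 14)))), (.s k20 k40 5 (.s k150 k215 8 (.s k199
  k71 7 (.s k101 k52 12 (.d k69 k117 k138 3 10))))), (.s k20 k40 5 (.s k150 k215 8 (.s k158 k109 12
  (.s k154 k146 1 (.d k223 k239 k16 3 10)))))] (.c k139 (.q k203 [(.s k69 k138 10 (.s k101 k117 3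
  (.s k223 k239 3 (.d k154 k16 k48 10 14)))), (.s k125 k190 8 (.s k105 k65 5 (.s k154 k56 12 (.d
  k223 k239 k16 3 10)))), (.s k20 k40 5 (.s k150 k215 8 (.s k199 k71 7 (.s k101 k52 12 (.d k69 k117
  k138 3 10)))))] .n) (.c k203 (.q k139 [(.s k69 k138 10 (.s k101 k117 3 (.s k223 k239 3 (.d k154
  k16 k48 10 14)))), (.s k20 k40 5 (.s k150 k215 8 (.s k199 k71 7 (.s k101 k52 12 (.d k69 k117 k138
  3 10))))), (.s k20 k40 5 (.s k150 k215 8 (.s k158 k109 12 (.s k154 k146 1 (.d k223 k239 k16 3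
  10)))))] .n) .n))) (.c k223 (.l (.s k69 k138 10 (.s k101 k117 3 (.s k109 k158 12 (.s k105 k97 1
  (.d k125 k65 k190 5 8)))))) .n)))) (.c k135 (.q k75 [(.s k69 k138 10 (.s k101 k117 3 (.s k223 k239
  3 (.d k154 k16 k48 10 14)))), (.s k79 k71 1 (.s k109 k158 12 (.s k124 k94 4 (.s k105 k86 6 (.d
  k125 k65 k190 5 8)))))] (.c k7 (.q k11 [(.s k69 k138 10 (.s k101 k117 3 (.s k223 k239 3 (.d k154
  k16 k48 10 14)))), (.s k109 k158 12 (.s k125 k190 8 (.s k65 k105 5 (.s k77 k93 3 (.d k69 k73 k138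
  1 10))))), (.s k20 k40 5 (.s k150 k215 8 (.s k158 k109 12 (.s k223 k239 3 (.d k154 k146 k16 1
  10)))))] (.c k71 (.q k199 [(.s k20 k40 5 (.s k69 k138 10 (.s k101 k117 3 (.d k150 k215 k52 8
  12)))), (.s k69 k138 10 (.s k101 k117 3 (.s k154 k48 14 (.d k223 k239 k16 3 10)))), (.s k20 k40 5
  (.s k150 k215 8 (.s k101 k52 12 (.s k154 k48 14 (.d k158 k146 k109 1 12)))))] (.c k101 (.l (.s k20
  k40 5 (.s k69 k138 10 (.s k4 k134 8 (.s k215 k150 8 (.d k247 k166 k231 12 3)))))) (.c k139 (.q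
  k143 [(.s k20 k40 5 (.s k150 k215 8 (.s k101 k52 12 (.d k69 k117 k138 3 10)))), (.s k69 k138 10
  (.s k101 k117 3 (.s k154 k48 14 (.d k223 k239 k16 3 10)))), (.s k20 k40 5 (.s k150 k215 8 (.s k101
  k52 12 (.s k154 k48 14 (.d k158 k146 k109 1 12))))), (.s k20 k40 5 (.s k69 k138 10 (.s k4 k134 8
  (.s k215 k150 8 (.d k247 k166 k231 12 3)))))] .n) (.c k143 (.l (.s k139 k203 7 (.s k20 k40 5 (.s
  k69 k138 10 (.s k101 k117 3 (.d k150 k215 k52 8 12)))))) (.c k154 (.l (.s k20 k40 5 (.s k150 k215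
  8 (.s k101 k52 12 (.d k69 k117 k138 3 10))))) .n))))) (.c k139 (.q k143 [(.s k69 k138 10 (.s k101
  k117 3 (.s k223 k239 3 (.d k154 k16 k48 10 14)))), (.s k109 k158 12 (.s k125 k190 8 (.s k65 k105 5
  (.s k77 k93 3 (.d k69 k73 k138 1 10))))), (.s k20 k40 5 (.s k150 k215 8 (.s k158 k109 12 (.s k223
  k239 3 (.d k154 k146 k16 1 10)))))] (.c k71 (.q k199 [(.s k20 k40 5 (.s k150 k215 8 (.s k101 k52
  12 (.d k69 k117 k138 3 10)))), (.s k69 k138 10 (.s k101 k117 3 (.s k154 k48 14 (.d k223 k239 k16 3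
  10)))), (.s k20 k40 5 (.s k150 k215 8 (.s k101 k52 12 (.s k154 k48 14 (.d k158 k146 k109 1
  12))))), (.s k20 k40 5 (.s k69 k138 10 (.s k4 k134 8 (.s k215 k150 8 (.d k247 k166 k231 12 3)))))]
  .n) (.c k199 (.l (.s k71 k79 1 (.s k69 k138 10 (.s k101 k117 3 (.s k154 k48 14 (.d k223 k239 k16 3
  10)))))) (.c k223 (.l (.s k69 k138 10 (.s k101 k117 3 (.s k109 k158 12 (.s k105 k97 1 (.d k125 k65
  k190 5 8)))))) .n)))) (.c k143 (.l (.s k139 k203 7 (.s k69 k138 10 (.s k101 k117 3 (.s k154 k48 14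
  (.d k223 k239 k16 3 10)))))) (.c k199 (.l (.s k71 k79 1 (.s k69 k138 10 (.s k101 k117 3 (.s k154
  k48 14 (.d k223 k239 k16 3 10)))))) (.c k223 (.l (.s k69 k138 10 (.s k101 k117 3 (.s k109 k158 12
  (.s k105 k97 1 (.d k125 k65 k190 5 8)))))) .n)))))) (.c k11 (.q k7 [(.s k69 k138 10 (.s k101 k117
  3 (.s k223 k239 3 (.d k154 k16 k48 10 14)))), (.s k79 k71 1 (.s k109 k158 12 (.s k124 k94 4 (.s
  k105 k86 6 (.d k125 k65 k190 5 8)))))] (.c k101 (.l (.s k20 k40 5 (.s k150 k215 8 (.s k158 k109 12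
  (.s k154 k146 1 (.d k223 k239 k16 3 10)))))) (.c k139 (.q k143 [(.s k69 k138 10 (.s k101 k117 3
  (.s k223 k239 3 (.d k154 k16 k48 10 14)))), (.s k79 k71 1 (.s k109 k158 12 (.s k124 k94 4 (.s k105
  k86 6 (.d k125 k65 k190 5 8)))))] (.c k101 (.l (.s k20 k40 5 (.s k150 k215 8 (.s k158 k109 12 (.s
  k154 k146 1 (.d k223 k239 k16 3 10)))))) .n)) (.c k143 (.q k139 [(.s k69 k138 10 (.s k101 k117 3
  (.s k223 k239 3 (.d k154 k16 k48 10 14)))), (.s k79 k71 1 (.s k109 k158 12 (.s k124 k94 4 (.s k105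
  k86 6 (.d k125 k65 k190 5 8)))))] (.c k101 (.l (.s k20 k40 5 (.s k150 k215 8 (.s k158 k109 12 (.s
  k154 k146 1 (.d k223 k239 k16 3 10)))))) .n)) .n)))) (.c k101 (.l (.s k20 k40 5 (.s k150 k215 8
  (.s k158 k109 12 (.s k154 k146 1 (.d k223 k239 k16 3 10)))))) (.c k139 (.q k143 [(.s k69 k138 10
  (.s k101 k117 3 (.s k223 k239 3 (.d k154 k16 k48 10 14)))), (.s k79 k71 1 (.s k109 k158 12 (.s
  k124 k94 4 (.s k105 k86 6 (.d k125 k65 k190 5 8)))))] (.c k7 (.q k11 [(.s k69 k138 10 (.s k101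
  k117 3 (.s k223 k239 3 (.d k154 k16 k48 10 14)))), (.s k109 k158 12 (.s k125 k190 8 (.s k65 k105 5
  (.s k77 k93 3 (.d k69 k73 k138 1 10))))), (.s k20 k40 5 (.s k150 k215 8 (.s k158 k109 12 (.s k223
  k239 3 (.d k154 k146 k16 1 10)))))] (.c k71 (.q k199 [(.s k20 k40 5 (.s k150 k215 8 (.s k101 k52
  12 (.d k69 k117 k138 3 10)))), (.s k69 k138 10 (.s k101 k117 3 (.s k154 k48 14 (.d k223 k239 k16 3
  10)))), (.s k20 k40 5 (.s k150 k215 8 (.s k101 k52 12 (.s k154 k48 14 (.d k158 k146 k109 1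
  12))))), (.s k20 k40 5 (.s k69 k138 10 (.s k4 k134 8 (.s k215 k150 8 (.d k247 k166 k231 12 3)))))]
  .n) (.c k199 (.l (.s k71 k79 1 (.s k69 k138 10 (.s k101 k117 3 (.s k154 k48 14 (.d k223 k239 k16 3
  10)))))) (.c k223 (.l (.s k69 k138 10 (.s k101 k117 3 (.s k109 k158 12 (.s k105 k97 1 (.d k125 k65
  k190 5 8)))))) .n)))) (.c k11 (.q k7 [(.s k69 k138 10 (.s k101 k117 3 (.s k223 k239 3 (.d k154 k16
  k48 10 14)))), (.s k79 k71 1 (.s k109 k158 12 (.s k124 k94 4 (.s k105 k86 6 (.d k125 k65 k190 5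
  8)))))] (.c k101 (.l (.s k20 k40 5 (.s k150 k215 8 (.s k158 k109 12 (.s k154 k146 1 (.d k223 k239
  k16 3 10)))))) .n)) (.c k101 (.l (.s k20 k40 5 (.s k150 k215 8 (.s k158 k109 12 (.s k154 k146 1
  (.d k223 k239 k16 3 10)))))) .n)))) (.c k143 (.q k139 [(.s k69 k138 10 (.s k101 k117 3 (.s k223
  k239 3 (.d k154 k16 k48 10 14)))), (.s k79 k71 1 (.s k109 k158 12 (.s k124 k94 4 (.s k105 k86 6
  (.d k125 k65 k190 5 8)))))] (.c k7 (.l (.s k11 k203 7 (.s k69 k138 10 (.s k101 k117 3 (.s k154 k48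
  14 (.d k223 k239 k16 3 10)))))) (.c k11 (.q k7 [(.s k69 k138 10 (.s k101 k117 3 (.s k223 k239 3
  (.d k154 k16 k48 10 14)))), (.s k79 k71 1 (.s k109 k158 12 (.s k124 k94 4 (.s k105 k86 6 (.d k125
  k65 k190 5 8)))))] (.c k101 (.l (.s k20 k40 5 (.s k150 k215 8 (.s k158 k109 12 (.s k154 k146 1 (.d
  k223 k239 k16 3 10)))))) .n)) (.c k101 (.l (.s k20 k40 5 (.s k150 k215 8 (.s k158 k109 12 (.s k154
  k146 1 (.d k223 k239 k16 3 10)))))) .n)))) .n)))))) (.c k223 (.l (.s k69 k138 10 (.s k101 k117 3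
  (.s k109 k158 12 (.s k105 k97 1 (.d k125 k65 k190 5 8)))))) .n)))))) (.c k135 (.q k75 [(.s k69
  k138 10 (.s k101 k117 3 (.s k223 k239 3 (.d k154 k16 k48 10 14)))), (.s k109 k158 12 (.s k125 k190
  8 (.s k65 k105 5 (.s k77 k93 3 (.d k69 k73 k138 1 10))))), (.s k20 k40 5 (.s k150 k215 8 (.s k158
  k109 12 (.s k223 k239 3 (.d k154 k146 k16 1 10)))))] (.c k7 (.q k11 [(.s k69 k138 10 (.s k101 k117
  3 (.s k223 k239 3 (.d k154 k16 k48 10 14)))), (.s k109 k158 12 (.s k125 k190 8 (.s k65 k105 5 (.s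
  k77 k93 3 (.d k69 k73 k138 1 10))))), (.s k20 k40 5 (.s k150 k215 8 (.s k158 k109 12 (.s k223 k239
  3 (.d k154 k146 k16 1 10)))))] (.c k67 (.q k131 [(.s k69 k138 10 (.s k101 k117 3 (.s k223 k239 3
  (.d k154 k16 k48 10 14)))), (.s k109 k158 12 (.s k125 k190 8 (.s k65 k105 5 (.s k77 k93 3 (.d k69
  k73 k138 1 10))))), (.s k20 k40 5 (.s k150 k215 8 (.s k158 k109 12 (.s k223 k239 3 (.d k154 k146
  k16 1 10)))))] (.c k71 (.q k199 [(.s k20 k40 5 (.s k69 k138 10 (.s k101 k117 3 (.d k150 k215 k52 8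
  12)))), (.s k69 k138 10 (.s k101 k117 3 (.s k154 k48 14 (.d k223 k239 k16 3 10)))), (.s k20 k40 5
  (.s k150 k215 8 (.s k101 k52 12 (.s k154 k48 14 (.d k158 k146 k109 1 12)))))] (.c k101 (.l (.s k20
  k40 5 (.s k69 k138 10 (.s k4 k134 8 (.s k215 k150 8 (.d k247 k166 k231 12 3)))))) (.c k154 (.l (.s
  k20 k40 5 (.s k150 k215 8 (.s k101 k52 12 (.d k69 k117 k138 3 10))))) .n))) (.c k199 (.q k71 [(.s
  k69 k138 10 (.s k101 k117 3 (.s k223 k239 3 (.d k154 k16 k48 10 14)))), (.s k109 k158 12 (.s k125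
  k190 8 (.s k65 k105 5 (.s k77 k93 3 (.d k69 k73 k138 1 10))))), (.s k20 k40 5 (.s k150 k215 8 (.s
  k158 k109 12 (.s k223 k239 3 (.d k154 k146 k16 1 10)))))] (.c k223 (.l (.s k69 k138 10 (.s k68 k70
  0 (.s k119 k102 4 (.s k51 k187 9 (.d k103 k87 k155 3 13)))))) .n)) (.c k223 (.l (.s k69 k138 10
  (.s k101 k117 3 (.s k109 k158 12 (.s k105 k97 1 (.d k125 k65 k190 5 8)))))) .n)))) (.c k71 (.q
  k199 [(.s k20 k40 5 (.s k69 k138 10 (.s k101 k117 3 (.d k150 k215 k52 8 12)))), (.s k69 k138 10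
  (.s k101 k117 3 (.s k154 k48 14 (.d k223 k239 k16 3 10)))), (.s k20 k40 5 (.s k150 k215 8 (.s k101
  k52 12 (.s k154 k48 14 (.d k158 k146 k109 1 12)))))] (.c k67 (.q k131 [(.s k20 k40 5 (.s k69 k138
  10 (.s k101 k117 3 (.d k150 k215 k52 8 12)))), (.s k69 k138 10 (.s k101 k117 3 (.s k154 k48 14 (.d
  k223 k239 k16 3 10)))), (.s k20 k40 5 (.s k150 k215 8 (.s k101 k52 12 (.s k154 k48 14 (.d k158
  k146 k109 1 12)))))] (.c k101 (.l (.s k20 k40 5 (.s k69 k138 10 (.s k4 k134 8 (.s k215 k150 8 (.d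
  k247 k166 k231 12 3)))))) (.c k154 (.l (.s k20 k40 5 (.s k150 k215 8 (.s k101 k52 12 (.d k69 k117
  k138 3 10))))) .n))) (.c k101 (.l (.s k20 k40 5 (.s k69 k138 10 (.s k4 k134 8 (.s k215 k150 8 (.d
  k247 k166 k231 12 3)))))) (.c k131 (.q k67 [(.s k20 k40 5 (.s k69 k138 10 (.s k101 k117 3 (.d k150
  k215 k52 8 12)))), (.s k69 k138 10 (.s k101 k117 3 (.s k154 k48 14 (.d k223 k239 k16 3 10)))), (.s
  k20 k40 5 (.s k150 k215 8 (.s k101 k52 12 (.s k154 k48 14 (.d k158 k146 k109 1 12)))))] (.c k101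
  (.l (.s k20 k40 5 (.s k69 k138 10 (.s k4 k134 8 (.s k215 k150 8 (.d k247 k166 k231 12 3)))))) (.c
  k139 (.q k143 [(.s k20 k40 5 (.s k150 k215 8 (.s k101 k52 12 (.d k69 k117 k138 3 10)))), (.s k69
  k138 10 (.s k101 k117 3 (.s k154 k48 14 (.d k223 k239 k16 3 10)))), (.s k20 k40 5 (.s k150 k215 8
  (.s k101 k52 12 (.s k154 k48 14 (.d k158 k146 k109 1 12))))), (.s k20 k40 5 (.s k69 k138 10 (.s k4
  k134 8 (.s k215 k150 8 (.d k247 k166 k231 12 3)))))] .n) (.c k143 (.l (.s k139 k203 7 (.s k20 k40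
  5 (.s k69 k138 10 (.s k101 k117 3 (.d k150 k215 k52 8 12)))))) (.c k154 (.l (.s k20 k40 5 (.s k150
  k215 8 (.s k101 k52 12 (.d k69 k117 k138 3 10))))) .n))))) (.c k154 (.l (.s k20 k40 5 (.s k150
  k215 8 (.s k101 k52 12 (.d k69 k117 k138 3 10))))) .n))))) (.c k131 (.q k67 [(.s k69 k138 10 (.s
  k101 k117 3 (.s k223 k239 3 (.d k154 k16 k48 10 14)))), (.s k109 k158 12 (.s k125 k190 8 (.s k65
  k105 5 (.s k77 k93 3 (.d k69 k73 k138 1 10))))), (.s k20 k40 5 (.s k150 k215 8 (.s k158 k109 12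
  (.s k223 k239 3 (.d k154 k146 k16 1 10)))))] (.c k71 (.q k199 [(.s k20 k40 5 (.s k69 k138 10 (.s
  k101 k117 3 (.d k150 k215 k52 8 12)))), (.s k69 k138 10 (.s k101 k117 3 (.s k154 k48 14 (.d k223
  k239 k16 3 10)))), (.s k20 k40 5 (.s k150 k215 8 (.s k101 k52 12 (.s k154 k48 14 (.d k158 k146
  k109 1 12)))))] (.c k101 (.l (.s k20 k40 5 (.s k69 k138 10 (.s k4 k134 8 (.s k215 k150 8 (.d k247
  k166 k231 12 3)))))) (.c k139 (.q k143 [(.s k20 k40 5 (.s k150 k215 8 (.s k101 k52 12 (.d k69 k117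
  k138 3 10)))), (.s k69 k138 10 (.s k101 k117 3 (.s k154 k48 14 (.d k223 k239 k16 3 10)))), (.s k20
  k40 5 (.s k150 k215 8 (.s k101 k52 12 (.s k154 k48 14 (.d k158 k146 k109 1 12))))), (.s k20 k40 5
  (.s k69 k138 10 (.s k4 k134 8 (.s k215 k150 8 (.d k247 k166 k231 12 3)))))] .n) (.c k143 (.l (.s
  k139 k203 7 (.s k20 k40 5 (.s k69 k138 10 (.s k101 k117 3 (.d k150 k215 k52 8 12)))))) (.c k154
  (.l (.s k20 k40 5 (.s k150 k215 8 (.s k101 k52 12 (.d k69 k117 k138 3 10))))) .n))))) (.c k139 (.q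
  k143 [(.s k69 k138 10 (.s k101 k117 3 (.s k223 k239 3 (.d k154 k16 k48 10 14)))), (.s k109 k158 12
  (.s k125 k190 8 (.s k65 k105 5 (.s k77 k93 3 (.d k69 k73 k138 1 10))))), (.s k20 k40 5 (.s k150
  k215 8 (.s k158 k109 12 (.s k223 k239 3 (.d k154 k146 k16 1 10)))))] (.c k71 (.q k199 [(.s k20 k40
  5 (.s k150 k215 8 (.s k101 k52 12 (.d k69 k117 k138 3 10)))), (.s k69 k138 10 (.s k101 k117 3 (.s
  k154 k48 14 (.d k223 k239 k16 3 10)))), (.s k20 k40 5 (.s k150 k215 8 (.s k101 k52 12 (.s k154 k48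
  14 (.d k158 k146 k109 1 12))))), (.s k20 k40 5 (.s k69 k138 10 (.s k4 k134 8 (.s k215 k150 8 (.d
  k247 k166 k231 12 3)))))] .n) (.c k199 (.l (.s k71 k79 1 (.s k69 k138 10 (.s k101 k117 3 (.s k154
  k48 14 (.d k223 k239 k16 3 10)))))) (.c k223 (.l (.s k69 k138 10 (.s k101 k117 3 (.s k109 k158 12
  (.s k105 k97 1 (.d k125 k65 k190 5 8)))))) .n)))) (.c k143 (.l (.s k139 k203 7 (.s k69 k138 10 (.s
  k101 k117 3 (.s k154 k48 14 (.d k223 k239 k16 3 10)))))) (.c k199 (.l (.s k71 k79 1 (.s k69 k138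
  10 (.s k101 k117 3 (.s k154 k48 14 (.d k223 k239 k16 3 10)))))) (.c k223 (.l (.s k69 k138 10 (.s
  k101 k117 3 (.s k109 k158 12 (.s k105 k97 1 (.d k125 k65 k190 5 8)))))) .n)))))) (.c k199 (.q k71
  [(.s k69 k138 10 (.s k101 k117 3 (.s k223 k239 3 (.d k154 k16 k48 10 14)))), (.s k109 k158 12 (.s
  k125 k190 8 (.s k65 k105 5 (.s k77 k93 3 (.d k69 k73 k138 1 10))))), (.s k20 k40 5 (.s k150 k215 8
  (.s k158 k109 12 (.s k223 k239 3 (.d k154 k146 k16 1 10)))))] (.c k67 (.q k131 [(.s k69 k138 10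
  (.s k101 k117 3 (.s k223 k239 3 (.d k154 k16 k48 10 14)))), (.s k109 k158 12 (.s k125 k190 8 (.s
  k65 k105 5 (.s k77 k93 3 (.d k69 k73 k138 1 10))))), (.s k20 k40 5 (.s k150 k215 8 (.s k158 k109
  12 (.s k223 k239 3 (.d k154 k146 k16 1 10)))))] (.c k223 (.l (.s k69 k138 10 (.s k68 k70 0 (.s
  k119 k102 4 (.s k51 k187 9 (.d k103 k87 k155 3 13)))))) .n)) (.c k131 (.l (.s k67 k79 1 (.s k69
  k138 10 (.s k101 k117 3 (.s k154 k48 14 (.d k223 k239 k16 3 10)))))) (.c k223 (.l (.s k69 k138 10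
  (.s k68 k70 0 (.s k119 k102 4 (.s k51 k187 9 (.d k103 k87 k155 3 13)))))) .n)))) (.c k223 (.l (.s
  k69 k138 10 (.s k101 k117 3 (.s k109 k158 12 (.s k105 k97 1 (.d k125 k65 k190 5 8)))))) .n))))))
  (.c k11 (.q k7 [(.s k69 k138 10 (.s k101 k117 3 (.s k223 k239 3 (.d k154 k16 k48 10 14)))), (.s
  k109 k158 12 (.s k125 k190 8 (.s k65 k105 5 (.s k77 k93 3 (.d k69 k73 k138 1 10))))), (.s k20 k40
  5 (.s k150 k215 8 (.s k158 k109 12 (.s k223 k239 3 (.d k154 k146 k16 1 10)))))] (.c k67 (.q k131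
  [(.s k69 k138 10 (.s k101 k117 3 (.s k223 k239 3 (.d k154 k16 k48 10 14)))), (.s k109 k158 12 (.s
  k125 k190 8 (.s k65 k105 5 (.s k77 k93 3 (.d k69 k73 k138 1 10))))), (.s k20 k40 5 (.s k150 k215 8
  (.s k158 k109 12 (.s k223 k239 3 (.d k154 k146 k16 1 10)))))] (.c k223 (.l (.s k69 k138 10 (.s
  k101 k117 3 (.s k109 k158 12 (.s k105 k97 1 (.d k125 k65 k190 5 8)))))) .n)) (.c k131 (.q k67 [(.s
  k69 k138 10 (.s k101 k117 3 (.s k223 k239 3 (.d k154 k16 k48 10 14)))), (.s k79 k71 1 (.s k109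
  k158 12 (.s k124 k94 4 (.s k105 k86 6 (.d k125 k65 k190 5 8)))))] (.c k101 (.l (.s k20 k40 5 (.s
  k150 k215 8 (.s k158 k109 12 (.s k154 k146 1 (.d k223 k239 k16 3 10)))))) (.c k139 (.q k143 [(.s
  k69 k138 10 (.s k101 k117 3 (.s k223 k239 3 (.d k154 k16 k48 10 14)))), (.s k79 k71 1 (.s k109
  k158 12 (.s k124 k94 4 (.s k105 k86 6 (.d k125 k65 k190 5 8)))))] (.c k101 (.l (.s k20 k40 5 (.s
  k150 k215 8 (.s k158 k109 12 (.s k154 k146 1 (.d k223 k239 k16 3 10)))))) .n)) (.c k143 (.q k139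
  [(.s k69 k138 10 (.s k101 k117 3 (.s k223 k239 3 (.d k154 k16 k48 10 14)))), (.s k79 k71 1 (.s
  k109 k158 12 (.s k124 k94 4 (.s k105 k86 6 (.d k125 k65 k190 5 8)))))] (.c k101 (.l (.s k20 k40 5
  (.s k150 k215 8 (.s k158 k109 12 (.s k154 k146 1 (.d k223 k239 k16 3 10)))))) .n)) .n)))) (.c k223
  (.l (.s k69 k138 10 (.s k101 k117 3 (.s k109 k158 12 (.s k105 k97 1 (.d k125 k65 k190 5 8))))))
  .n)))) (.c k67 (.q k131 [(.s k69 k138 10 (.s k101 k117 3 (.s k223 k239 3 (.d k154 k16 k48 10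
  14)))), (.s k109 k158 12 (.s k125 k190 8 (.s k65 k105 5 (.s k77 k93 3 (.d k69 k73 k138 1 10))))),
  (.s k20 k40 5 (.s k150 k215 8 (.s k158 k109 12 (.s k223 k239 3 (.d k154 k146 k16 1 10)))))] (.c k7
  (.q k11 [(.s k69 k138 10 (.s k101 k117 3 (.s k223 k239 3 (.d k154 k16 k48 10 14)))), (.s k109 k158
  12 (.s k125 k190 8 (.s k65 k105 5 (.s k77 k93 3 (.d k69 k73 k138 1 10))))), (.s k20 k40 5 (.s k150
  k215 8 (.s k158 k109 12 (.s k223 k239 3 (.d k154 k146 k16 1 10)))))] (.c k71 (.q k199 [(.s k20 k40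
  5 (.s k69 k138 10 (.s k101 k117 3 (.d k150 k215 k52 8 12)))), (.s k69 k138 10 (.s k101 k117 3 (.s
  k154 k48 14 (.d k223 k239 k16 3 10)))), (.s k20 k40 5 (.s k150 k215 8 (.s k101 k52 12 (.s k154 k48
  14 (.d k158 k146 k109 1 12)))))] (.c k101 (.l (.s k20 k40 5 (.s k69 k138 10 (.s k4 k134 8 (.s k215
  k150 8 (.d k247 k166 k231 12 3)))))) (.c k154 (.l (.s k20 k40 5 (.s k150 k215 8 (.s k101 k52 12
  (.d k69 k117 k138 3 10))))) .n))) (.c k199 (.q k71 [(.s k69 k138 10 (.s k101 k117 3 (.s k223 k239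
  3 (.d k154 k16 k48 10 14)))), (.s k109 k158 12 (.s k125 k190 8 (.s k65 k105 5 (.s k77 k93 3 (.d
  k69 k73 k138 1 10))))), (.s k20 k40 5 (.s k150 k215 8 (.s k158 k109 12 (.s k223 k239 3 (.d k154
  k146 k16 1 10)))))] (.c k223 (.l (.s k69 k138 10 (.s k68 k70 0 (.s k119 k102 4 (.s k51 k187 9 (.d
  k103 k87 k155 3 13)))))) .n)) (.c k223 (.l (.s k69 k138 10 (.s k101 k117 3 (.s k109 k158 12 (.s
  k105 k97 1 (.d k125 k65 k190 5 8)))))) .n)))) (.c k11 (.q k7 [(.s k69 k138 10 (.s k101 k117 3 (.s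
  k223 k239 3 (.d k154 k16 k48 10 14)))), (.s k109 k158 12 (.s k125 k190 8 (.s k65 k105 5 (.s k77
  k93 3 (.d k69 k73 k138 1 10))))), (.s k20 k40 5 (.s k150 k215 8 (.s k158 k109 12 (.s k223 k239 3
  (.d k154 k146 k16 1 10)))))] (.c k223 (.l (.s k69 k138 10 (.s k101 k117 3 (.s k109 k158 12 (.s
  k105 k97 1 (.d k125 k65 k190 5 8)))))) .n)) (.c k223 (.l (.s k69 k138 10 (.s k101 k117 3 (.s k109
  k158 12 (.s k105 k97 1 (.d k125 k65 k190 5 8)))))) .n)))) (.c k131 (.q k67 [(.s k69 k138 10 (.s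
  k101 k117 3 (.s k223 k239 3 (.d k154 k16 k48 10 14)))), (.s k79 k71 1 (.s k109 k158 12 (.s k124
  k94 4 (.s k105 k86 6 (.d k125 k65 k190 5 8)))))] (.c k7 (.q k11 [(.s k69 k138 10 (.s k101 k117 3
  (.s k223 k239 3 (.d k154 k16 k48 10 14)))), (.s k109 k158 12 (.s k125 k190 8 (.s k65 k105 5 (.s
  k77 k93 3 (.d k69 k73 k138 1 10))))), (.s k20 k40 5 (.s k150 k215 8 (.s k158 k109 12 (.s k223 k239
  3 (.d k154 k146 k16 1 10)))))] (.c k71 (.q k199 [(.s k20 k40 5 (.s k69 k138 10 (.s k101 k117 3 (.d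
  k150 k215 k52 8 12)))), (.s k69 k138 10 (.s k101 k117 3 (.s k154 k48 14 (.d k223 k239 k16 3
  10)))), (.s k20 k40 5 (.s k150 k215 8 (.s k101 k52 12 (.s k154 k48 14 (.d k158 k146 k109 1
  12)))))] (.c k101 (.l (.s k20 k40 5 (.s k69 k138 10 (.s k4 k134 8 (.s k215 k150 8 (.d k247 k166
  k231 12 3)))))) (.c k139 (.q k143 [(.s k20 k40 5 (.s k150 k215 8 (.s k101 k52 12 (.d k69 k117 k138
  3 10)))), (.s k69 k138 10 (.s k101 k117 3 (.s k154 k48 14 (.d k223 k239 k16 3 10)))), (.s k20 k40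
  5 (.s k150 k215 8 (.s k101 k52 12 (.s k154 k48 14 (.d k158 k146 k109 1 12))))), (.s k20 k40 5 (.s
  k69 k138 10 (.s k4 k134 8 (.s k215 k150 8 (.d k247 k166 k231 12 3)))))] .n) (.c k143 (.l (.s k139
  k203 7 (.s k20 k40 5 (.s k69 k138 10 (.s k101 k117 3 (.d k150 k215 k52 8 12)))))) (.c k154 (.l (.s
  k20 k40 5 (.s k150 k215 8 (.s k101 k52 12 (.d k69 k117 k138 3 10))))) .n))))) (.c k139 (.q k143
  [(.s k69 k138 10 (.s k101 k117 3 (.s k223 k239 3 (.d k154 k16 k48 10 14)))), (.s k109 k158 12 (.s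
  k125 k190 8 (.s k65 k105 5 (.s k77 k93 3 (.d k69 k73 k138 1 10))))), (.s k20 k40 5 (.s k150 k215 8
  (.s k158 k109 12 (.s k223 k239 3 (.d k154 k146 k16 1 10)))))] (.c k71 (.q k199 [(.s k20 k40 5 (.s
  k150 k215 8 (.s k101 k52 12 (.d k69 k117 k138 3 10)))), (.s k69 k138 10 (.s k101 k117 3 (.s k154
  k48 14 (.d k223 k239 k16 3 10)))), (.s k20 k40 5 (.s k150 k215 8 (.s k101 k52 12 (.s k154 k48 14
  (.d k158 k146 k109 1 12))))), (.s k20 k40 5 (.s k69 k138 10 (.s k4 k134 8 (.s k215 k150 8 (.d k247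
  k166 k231 12 3)))))] .n) (.c k199 (.l (.s k71 k79 1 (.s k69 k138 10 (.s k101 k117 3 (.s k154 k48
  14 (.d k223 k239 k16 3 10)))))) (.c k223 (.l (.s k69 k138 10 (.s k101 k117 3 (.s k109 k158 12 (.s
  k105 k97 1 (.d k125 k65 k190 5 8)))))) .n)))) (.c k143 (.l (.s k139 k203 7 (.s k69 k138 10 (.s
  k101 k117 3 (.s k154 k48 14 (.d k223 k239 k16 3 10)))))) (.c k199 (.l (.s k71 k79 1 (.s k69 k138
  10 (.s k101 k117 3 (.s k154 k48 14 (.d k223 k239 k16 3 10)))))) (.c k223 (.l (.s k69 k138 10 (.s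
  k101 k117 3 (.s k109 k158 12 (.s k105 k97 1 (.d k125 k65 k190 5 8)))))) .n)))))) (.c k11 (.q k7
  [(.s k69 k138 10 (.s k101 k117 3 (.s k223 k239 3 (.d k154 k16 k48 10 14)))), (.s k79 k71 1 (.s
  k109 k158 12 (.s k124 k94 4 (.s k105 k86 6 (.d k125 k65 k190 5 8)))))] (.c k101 (.l (.s k20 k40 5
  (.s k150 k215 8 (.s k158 k109 12 (.s k154 k146 1 (.d k223 k239 k16 3 10)))))) (.c k139 (.q k143
  [(.s k69 k138 10 (.s k101 k117 3 (.s k223 k239 3 (.d k154 k16 k48 10 14)))), (.s k79 k71 1 (.s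
  k109 k158 12 (.s k124 k94 4 (.s k105 k86 6 (.d k125 k65 k190 5 8)))))] (.c k101 (.l (.s k20 k40 5
  (.s k150 k215 8 (.s k158 k109 12 (.s k154 k146 1 (.d k223 k239 k16 3 10)))))) .n)) (.c k143 (.q
  k139 [(.s k69 k138 10 (.s k101 k117 3 (.s k223 k239 3 (.d k154 k16 k48 10 14)))), (.s k79 k71 1
  (.s k109 k158 12 (.s k124 k94 4 (.s k105 k86 6 (.d k125 k65 k190 5 8)))))] (.c k101 (.l (.s k20
  k40 5 (.s k150 k215 8 (.s k158 k109 12 (.s k154 k146 1 (.d k223 k239 k16 3 10)))))) .n)) .n))))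
  (.c k101 (.l (.s k20 k40 5 (.s k150 k215 8 (.s k158 k109 12 (.s k154 k146 1 (.d k223 k239 k16 3
  10)))))) (.c k139 (.q k143 [(.s k69 k138 10 (.s k101 k117 3 (.s k223 k239 3 (.d k154 k16 k48 10
  14)))), (.s k79 k71 1 (.s k109 k158 12 (.s k124 k94 4 (.s k105 k86 6 (.d k125 k65 k190 5 8)))))]
  (.c k7 (.q k11 [(.s k69 k138 10 (.s k101 k117 3 (.s k223 k239 3 (.d k154 k16 k48 10 14)))), (.s
  k109 k158 12 (.s k125 k190 8 (.s k65 k105 5 (.s k77 k93 3 (.d k69 k73 k138 1 10))))), (.s k20 k40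
  5 (.s k150 k215 8 (.s k158 k109 12 (.s k223 k239 3 (.d k154 k146 k16 1 10)))))] (.c k71 (.q k199
  [(.s k20 k40 5 (.s k150 k215 8 (.s k101 k52 12 (.d k69 k117 k138 3 10)))), (.s k69 k138 10 (.s
  k101 k117 3 (.s k154 k48 14 (.d k223 k239 k16 3 10)))), (.s k20 k40 5 (.s k150 k215 8 (.s k101 k52
  12 (.s k154 k48 14 (.d k158 k146 k109 1 12))))), (.s k20 k40 5 (.s k69 k138 10 (.s k4 k134 8 (.s
  k215 k150 8 (.d k247 k166 k231 12 3)))))] .n) (.c k199 (.l (.s k71 k79 1 (.s k69 k138 10 (.s k101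
  k117 3 (.s k154 k48 14 (.d k223 k239 k16 3 10)))))) (.c k223 (.l (.s k69 k138 10 (.s k101 k117 3
  (.s k109 k158 12 (.s k105 k97 1 (.d k125 k65 k190 5 8)))))) .n)))) (.c k11 (.q k7 [(.s k69 k138 10
  (.s k101 k117 3 (.s k223 k239 3 (.d k154 k16 k48 10 14)))), (.s k79 k71 1 (.s k109 k158 12 (.s
  k124 k94 4 (.s k105 k86 6 (.d k125 k65 k190 5 8)))))] (.c k101 (.l (.s k20 k40 5 (.s k150 k215 8
  (.s k158 k109 12 (.s k154 k146 1 (.d k223 k239 k16 3 10)))))) .n)) (.c k101 (.l (.s k20 k40 5 (.s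
  k150 k215 8 (.s k158 k109 12 (.s k154 k146 1 (.d k223 k239 k16 3 10)))))) .n)))) (.c k143 (.q k139
  [(.s k69 k138 10 (.s k101 k117 3 (.s k223 k239 3 (.d k154 k16 k48 10 14)))), (.s k79 k71 1 (.s
  k109 k158 12 (.s k124 k94 4 (.s k105 k86 6 (.d k125 k65 k190 5 8)))))] (.c k7 (.l (.s k11 k203 7
  (.s k69 k138 10 (.s k101 k117 3 (.s k154 k48 14 (.d k223 k239 k16 3 10)))))) (.c k11 (.q k7 [(.s
  k69 k138 10 (.s k101 k117 3 (.s k223 k239 3 (.d k154 k16 k48 10 14)))), (.s k79 k71 1 (.s k109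
  k158 12 (.s k124 k94 4 (.s k105 k86 6 (.d k125 k65 k190 5 8)))))] (.c k101 (.l (.s k20 k40 5 (.s
  k150 k215 8 (.s k158 k109 12 (.s k154 k146 1 (.d k223 k239 k16 3 10)))))) .n)) (.c k101 (.l (.s
  k20 k40 5 (.s k150 k215 8 (.s k158 k109 12 (.s k154 k146 1 (.d k223 k239 k16 3 10)))))) .n))))
  .n)))))) (.c k223 (.l (.s k69 k138 10 (.s k101 k117 3 (.s k109 k158 12 (.s k105 k97 1 (.d k125 k65
  k190 5 8)))))) .n)))))) (.c k223 (.l (.s k69 k138 10 (.s k101 k117 3 (.s k109 k158 12 (.s k105 k97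
  1 (.d k125 k65 k190 5 8)))))) .n)))))))))

def s3_15_196 : T TT 256 :=
  (.l (.s k20 k40 5 (.s k150 k215 8 (.s k105 k195 14 (.s k125 k65 5 (.d k255 k190 k170 8 14))))))

def s3_15_197 : T TT 256 :=
  (.l (.s k20 k40 5 (.s k150 k215 8 (.s k105 k195 14 (.s k125 k65 5 (.d k255 k190 k170 8 14))))))

def s3_15_198 : T TT 256 :=
  (.l (.s k20 k40 5 (.s k150 k215 8 (.s k105 k195 14 (.s k125 k65 5 (.d k255 k190 k170 8 14))))))

def s3_15_199 : T TT 256 :=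
  (.l (.s k20 k40 5 (.s k150 k215 8 (.s k105 k195 14 (.s k125 k65 5 (.d k255 k190 k170 8 14))))))

def s3_15_200 : T TT 256 :=
  (.l (.s k20 k40 5 (.s k150 k215 8 (.s k105 k195 14 (.s k125 k65 5 (.d k255 k190 k170 8 14))))))

def s3_15_201 : T TT 256 :=
  (.l (.s k20 k40 5 (.s k150 k215 8 (.s k105 k195 14 (.s k125 k65 5 (.d k255 k190 k170 8 14))))))

def s3_15_202 : T TT 256 :=
  (.l (.s k20 k40 5 (.s k150 k215 8 (.s k105 k195 14 (.s k125 k65 5 (.d k255 k190 k170 8 14))))))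

def s3_15_203 : T TT 256 :=
  (.l (.s k20 k40 5 (.s k150 k215 8 (.s k105 k195 14 (.s k125 k65 5 (.d k255 k190 k170 8 14))))))

def s3_15_204 : T TT 256 :=
  (.l (.s k20 k40 5 (.s k150 k215 8 (.s k105 k195 14 (.s k125 k65 5 (.d k255 k190 k170 8 14))))))

def s3_15_205 : T TT 256 :=
  (.l (.s k20 k40 5 (.s k150 k215 8 (.s k105 k195 14 (.s k125 k65 5 (.d k255 k190 k170 8 14))))))

def s3_15_206 : T TT 256 :=
  (.l (.s k20 k40 5 (.s k150 k215 8 (.s k105 k195 14 (.s k125 k65 5 (.d k255 k190 k170 8 14))))))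

def s3_15_207 : T TT 256 :=
  (.l (.s k20 k40 5 (.s k150 k215 8 (.s k105 k195 14 (.s k125 k65 5 (.d k255 k190 k170 8 14))))))

def s3_15_208 : T TT 256 :=
  (.l (.s k20 k40 5 (.s k150 k215 8 (.s k105 k195 14 (.s k125 k65 5 (.d k255 k190 k170 8 14))))))

def s3_15_209 : T TT 256 :=
  (.l (.s k20 k40 5 (.s k150 k215 8 (.s k105 k195 14 (.s k125 k65 5 (.d k255 k190 k170 8 14))))))

def s3_15_210 : T TT 256 :=
  (.l (.s k20 k40 5 (.s k150 k215 8 (.s k105 k195 14 (.s k125 k65 5 (.d k255 k190 k170 8 14))))))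

def s3_15_211 : T TT 256 :=
  (.l (.s k20 k40 5 (.s k150 k215 8 (.s k105 k195 14 (.s k125 k65 5 (.d k255 k190 k170 8 14))))))

def s3_15_212 : T TT 256 :=
  (.l (.s k20 k40 5 (.s k150 k215 8 (.s k105 k195 14 (.s k125 k65 5 (.d k255 k190 k170 8 14))))))

def s3_15_213 : T TT 256 :=
  (.l (.s k20 k40 5 (.s k150 k215 8 (.s k105 k195 14 (.s k125 k65 5 (.d k255 k190 k170 8 14))))))

def s3_15_214 : T TT 256 :=
  (.l (.s k20 k40 5 (.s k150 k215 8 (.s k105 k195 14 (.s k125 k65 5 (.d k255 k190 k170 8 14))))))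

def s3_15_215 : T TT 256 :=
  (.l (.s k40 k20 5 (.s k170 k255 14 (.s k105 k235 8 (.s k195 k150 14 (.d k65 k125 k130 5 8))))))

def s3_15_216 : T TT 256 :=
  (.l (.s k20 k40 5 (.s k150 k215 8 (.s k105 k195 14 (.s k125 k65 5 (.d k255 k190 k170 8 14))))))

def s3_15_217 : T TT 256 :=
  (.l (.s k20 k40 5 (.s k150 k215 8 (.s k105 k195 14 (.s k125 k65 5 (.d k255 k190 k170 8 14))))))

def s3_15_218 : T TT 256 :=
  (.l (.s k20 k40 5 (.s k150 k215 8 (.s k105 k195 14 (.s k125 k65 5 (.d k255 k190 k170 8 14))))))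

def s3_15_219 : T TT 256 :=
  (.l (.s k20 k40 5 (.s k150 k215 8 (.s k105 k195 14 (.s k125 k65 5 (.d k255 k190 k170 8 14))))))

def s3_15_220 : T TT 256 :=
  (.l (.s k20 k40 5 (.s k150 k215 8 (.s k105 k195 14 (.s k125 k65 5 (.d k255 k190 k170 8 14))))))

def s3_15_221 : T TT 256 :=
  (.l (.s k20 k40 5 (.s k150 k215 8 (.s k105 k195 14 (.s k125 k65 5 (.d k255 k190 k170 8 14))))))

def s3_15_222 : T TT 256 :=
  (.l (.s k20 k40 5 (.s k150 k215 8 (.s k105 k195 14 (.s k125 k65 5 (.d k255 k190 k170 8 14))))))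

def s3_15_223 : T TT 256 :=
  (.l (.s k20 k40 5 (.s k150 k215 8 (.s k105 k195 14 (.s k125 k65 5 (.d k255 k190 k170 8 14))))))

def s3_15_224 : T TT 256 :=
  (.l (.s k20 k40 5 (.s k150 k215 8 (.s k105 k195 14 (.s k125 k65 5 (.d k255 k190 k170 8 14))))))

def s3_15_225 : T TT 256 :=
  (.l (.s k20 k40 5 (.s k150 k215 8 (.s k105 k195 14 (.s k125 k65 5 (.d k255 k190 k170 8 14))))))

def s3_15_226 : T TT 256 :=
  (.l (.s k20 k40 5 (.s k150 k215 8 (.s k105 k195 14 (.s k125 k65 5 (.d k255 k190 k170 8 14))))))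

def s3_15_227 : T TT 256 :=
  (.l (.s k20 k40 5 (.s k150 k215 8 (.s k105 k195 14 (.s k125 k65 5 (.d k255 k190 k170 8 14))))))

def s3_15_228 : T TT 256 :=
  (.l (.s k20 k40 5 (.s k150 k215 8 (.s k105 k195 14 (.s k125 k65 5 (.d k255 k190 k170 8 14))))))

def s3_15_229 : T TT 256 :=
  (.l (.s k20 k40 5 (.s k150 k215 8 (.s k105 k195 14 (.s k125 k65 5 (.d k255 k190 k170 8 14))))))

def s3_15_230 : T TT 256 :=
  (.l (.s k20 k40 5 (.s k150 k215 8 (.s k105 k195 14 (.s k125 k65 5 (.d k255 k190 k170 8 14))))))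

def s3_15_231 : T TT 256 :=
  (.l (.s k20 k40 5 (.s k150 k215 8 (.s k105 k195 14 (.s k125 k65 5 (.d k255 k190 k170 8 14))))))

def s3_15_232 : T TT 256 :=
  (.l (.s k20 k40 5 (.s k150 k215 8 (.s k105 k195 14 (.s k125 k65 5 (.d k255 k190 k170 8 14))))))

def s3_15_233 : T TT 256 :=
  (.l (.s k20 k40 5 (.s k150 k215 8 (.s k105 k195 14 (.s k125 k65 5 (.d k255 k190 k170 8 14))))))

def s3_15_234 : T TT 256 :=
  (.l (.s k20 k40 5 (.s k150 k215 8 (.s k105 k195 14 (.s k125 k65 5 (.d k255 k190 k170 8 14))))))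

def s3_15_235 : T TT 256 :=
  (.l (.s k20 k40 5 (.s k150 k215 8 (.s k105 k195 14 (.s k255 k170 14 (.d k125 k65 k190 5 8))))))

def s3_15_236 : T TT 256 :=
  (.l (.s k20 k40 5 (.s k150 k215 8 (.s k105 k195 14 (.s k125 k65 5 (.d k255 k190 k170 8 14))))))

def s3_15_237 : T TT 256 :=
  (.l (.s k20 k40 5 (.s k150 k215 8 (.s k105 k195 14 (.s k125 k65 5 (.d k255 k190 k170 8 14))))))

def s3_15_238 : T TT 256 :=
  (.l (.s k20 k40 5 (.s k150 k215 8 (.s k105 k195 14 (.s k125 k65 5 (.d k255 k190 k170 8 14))))))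

def s3_15_239 : T TT 256 :=
  (.l (.s k20 k40 5 (.s k150 k215 8 (.s k105 k195 14 (.s k125 k65 5 (.d k255 k190 k170 8 14))))))

def s3_15_240 : T TT 256 :=
  (.l (.s k20 k40 5 (.s k150 k215 8 (.s k105 k195 14 (.s k125 k65 5 (.d k255 k190 k170 8 14))))))

def s3_15_241 : T TT 256 :=
  (.l (.s k20 k40 5 (.s k150 k215 8 (.s k105 k195 14 (.s k125 k65 5 (.d k255 k190 k170 8 14))))))

def s3_15_242 : T TT 256 :=
  (.l (.s k20 k40 5 (.s k150 k215 8 (.s k105 k195 14 (.s k125 k65 5 (.d k255 k190 k170 8 14))))))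

def s3_15_243 : T TT 256 :=
  (.l (.s k20 k40 5 (.s k150 k215 8 (.s k105 k195 14 (.s k125 k65 5 (.d k255 k190 k170 8 14))))))

def s3_15_244 : T TT 256 :=
  (.l (.s k20 k40 5 (.s k150 k215 8 (.s k105 k195 14 (.s k125 k65 5 (.d k255 k190 k170 8 14))))))

def s3_15_245 : T TT 256 :=
  (.l (.s k20 k40 5 (.s k150 k215 8 (.s k105 k195 14 (.s k125 k65 5 (.d k255 k190 k170 8 14))))))

def s3_15_246 : T TT 256 :=
  (.l (.s k20 k40 5 (.s k150 k215 8 (.s k105 k195 14 (.s k125 k65 5 (.d k255 k190 k170 8 14))))))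

def s3_15_247 : T TT 256 :=
  (.l (.s k20 k40 5 (.s k150 k215 8 (.s k105 k195 14 (.s k125 k65 5 (.d k255 k190 k170 8 14))))))

def s3_15_248 : T TT 256 :=
  (.l (.s k20 k40 5 (.s k150 k215 8 (.s k105 k195 14 (.s k125 k65 5 (.d k255 k190 k170 8 14))))))

def s3_15_249 : T TT 256 :=
  (.l (.s k20 k40 5 (.s k150 k215 8 (.s k105 k195 14 (.s k125 k65 5 (.d k255 k190 k170 8 14))))))

def s3_15_250 : T TT 256 :=
  (.l (.s k20 k40 5 (.s k150 k215 8 (.s k105 k195 14 (.s k125 k65 5 (.d k255 k190 k170 8 14))))))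

def s3_15_251 : T TT 256 :=
  (.l (.s k20 k40 5 (.s k150 k215 8 (.s k105 k195 14 (.s k125 k65 5 (.d k255 k190 k170 8 14))))))

def s3_15_252 : T TT 256 :=
  (.l (.s k20 k40 5 (.s k150 k215 8 (.s k105 k195 14 (.s k125 k65 5 (.d k255 k190 k170 8 14))))))

def s3_15_253 : T TT 256 :=
  (.l (.s k20 k40 5 (.s k150 k215 8 (.s k105 k195 14 (.s k125 k65 5 (.d k255 k190 k170 8 14))))))

def s3_15_254 : T TT 256 :=
  (.l (.s k20 k40 5 (.s k150 k215 8 (.s k105 k195 14 (.s k125 k65 5 (.d k255 k190 k170 8 14))))))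

def s3_15_255 : T TT 256 :=
  (.f k20 k40 5 (.q k243 [(.s k81 k162 12 (.s k89 k93 1 (.s k121 k182 10 (.s k105 k73 3 (.d k150
  k215 k195 8 14))))), (.s k81 k162 12 (.s k150 k215 8 (.s k195 k105 14 (.s k65 k130 8 (.s k97 k113
  3 (.s k146 k48 12 (.d k211 k227 k16 3 8))))))), (.s k150 k215 8 (.s k182 k121 10 (.s k166 k134 3
  (.s k4 k247 12 (.d k12 k8 k89 1 14))))), (.s k81 k162 12 (.s k89 k93 1 (.s k12 k166 14 (.s k4 k8 1
  (.s k28 k44 3 (.s k24 k16 1 (.d k36 k52 k48 3 5)))))))] (.c k7 (.q k11 [(.s k81 k162 12 (.s k89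
  k93 1 (.s k121 k182 10 (.s k105 k73 3 (.d k150 k215 k195 8 14))))), (.s k81 k162 12 (.s k150 k215
  8 (.s k195 k105 14 (.s k65 k130 8 (.s k97 k113 3 (.s k146 k48 12 (.d k211 k227 k16 3 8))))))), (.s
  k150 k215 8 (.s k182 k121 10 (.s k166 k134 3 (.s k4 k247 12 (.d k12 k8 k89 1 14))))), (.s k81 k162
  12 (.s k89 k93 1 (.s k12 k166 14 (.s k4 k8 1 (.s k28 k44 3 (.s k24 k16 1 (.d k36 k52 k48 3
  5)))))))] (.c k87 (.q k171 [(.s k81 k162 12 (.s k89 k93 1 (.s k121 k182 10 (.s k105 k73 3 (.d k150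
  k215 k195 8 14))))), (.s k81 k162 12 (.s k89 k93 1 (.s k12 k166 14 (.s k8 k4 1 (.d k251 k170 k91
  12 11))))), (.s k150 k215 8 (.s k182 k121 10 (.s k166 k134 3 (.s k12 k89 14 (.d k4 k247 k8 12
  1))))), (.s k81 k162 12 (.s k150 k215 8 (.s k195 k105 14 (.s k65 k130 8 (.s k97 k113 3 (.s k146
  k48 12 (.d k211 k227 k16 3 8)))))))] (.c k95 (.q k175 [(.s k81 k162 12 (.s k89 k93 1 (.s k12 k166
  14 (.s k8 k4 1 (.d k251 k91 k170 11 12))))), (.s k81 k162 12 (.s k150 k215 8 (.s k195 k105 14 (.s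
  k65 k130 8 (.s k97 k113 3 (.s k146 k48 12 (.d k211 k227 k16 3 8))))))), (.s k150 k215 8 (.s k182
  k121 10 (.s k166 k134 3 (.s k12 k89 14 (.d k4 k247 k8 12 1)))))] (.c k83 (.l (.s k91 k251 11 (.s
  k81 k162 12 (.s k89 k93 1 (.s k12 k166 14 (.s k28 k44 3 (.d k150 k215 k211 8 10))))))) (.c k91 (.q
  k83 [(.s k81 k162 12 (.s k89 k93 1 (.s k121 k182 10 (.s k105 k73 3 (.d k150 k215 k195 8 14))))),
  (.s k81 k162 12 (.s k80 k82 0 (.s k150 k215 8 (.s k195 k105 14 (.s k130 k65 8 (.s k170 k190 5 (.d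
  k160 k240 k165 11 2))))))), (.s k81 k162 12 (.s k80 k82 0 (.s k89 k93 1 (.s k12 k166 14 (.s k8 k4
  1 (.s k170 k251 12 (.d k160 k240 k165 11 2))))))), (.s k150 k215 8 (.s k182 k121 10 (.s k166 k134
  3 (.s k12 k89 14 (.d k4 k247 k8 12 1)))))] (.c k167 (.q k247 [(.s k4 k166 12 (.s k182 k121 10 (.d
  k52 k36 k117 3 8))), (.s k81 k162 12 (.s k89 k93 1 (.d k166 k12 k4 14 12))), (.s k81 k162 12 (.s
  k89 k93 1 (.s k121 k182 10 (.s k105 k73 3 (.d k150 k215 k195 8 14)))))] .n) (.c k247 (.l (.s k167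
  k163 1 (.s k81 k162 12 (.s k89 k93 1 (.s k12 k166 14 (.s k28 k44 3 (.d k150 k215 k211 8 10)))))))
  .n))) (.c k167 (.q k247 [(.s k4 k166 12 (.s k182 k121 10 (.d k52 k36 k117 3 8))), (.s k81 k162 12
  (.s k89 k93 1 (.d k166 k12 k4 14 12))), (.s k81 k162 12 (.s k89 k93 1 (.s k121 k182 10 (.s k105
  k73 3 (.d k150 k215 k195 8 14)))))] (.c k83 (.l (.s k91 k251 11 (.s k4 k166 12 (.s k52 k36 3 (.d
  k182 k117 k121 8 10))))) (.c k91 (.q k83 [(.s k4 k166 12 (.s k182 k121 10 (.d k52 k36 k117 3 8))),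
  (.s k81 k162 12 (.s k89 k93 1 (.d k166 k12 k4 14 12))), (.s k81 k162 12 (.s k89 k93 1 (.s k121
  k182 10 (.s k105 k73 3 (.d k150 k215 k195 8 14)))))] .n) .n))) (.c k247 (.l (.s k167 k163 1 (.s
  k81 k162 12 (.s k89 k93 1 (.s k12 k166 14 (.s k8 k4 1 (.d k251 k170 k91 12 11))))))) .n))))) (.c
  k167 (.q k247 [(.s k81 k162 12 (.s k89 k93 1 (.d k166 k12 k4 14 12))), (.s k4 k166 12 (.s k52 k36
  3 (.d k182 k117 k121 8 10))), (.s k81 k162 12 (.s k89 k93 1 (.s k121 k182 10 (.s k105 k73 3 (.d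
  k150 k215 k195 8 14)))))] (.c k95 (.q k175 [(.s k4 k166 12 (.s k182 k121 10 (.d k52 k36 k117 3
  8))), (.s k81 k162 12 (.s k89 k93 1 (.d k166 k12 k4 14 12))), (.s k81 k162 12 (.s k89 k93 1 (.s
  k121 k182 10 (.s k105 k73 3 (.d k150 k215 k195 8 14)))))] (.c k83 (.l (.s k91 k251 11 (.s k4 k166
  12 (.s k52 k36 3 (.d k182 k117 k121 8 10))))) (.c k91 (.q k83 [(.s k4 k166 12 (.s k182 k121 10 (.d
  k52 k36 k117 3 8))), (.s k81 k162 12 (.s k89 k93 1 (.d k166 k12 k4 14 12))), (.s k81 k162 12 (.s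
  k89 k93 1 (.s k121 k182 10 (.s k105 k73 3 (.d k150 k215 k195 8 14)))))] .n) .n))) (.c k175 (.q k95
  [(.s k81 k162 12 (.s k89 k93 1 (.d k166 k12 k4 14 12))), (.s k4 k166 12 (.s k52 k36 3 (.d k182
  k117 k121 8 10))), (.s k81 k162 12 (.s k89 k93 1 (.s k90 k80 2 (.d k91 k88 k251 0 11))))] .n)
  .n))) (.c k175 (.q k95 [(.s k81 k162 12 (.s k90 k80 2 (.s k91 k251 11 (.d k89 k88 k93 0 1)))), (.s
  k150 k215 8 (.s k182 k121 10 (.s k166 k134 3 (.s k12 k89 14 (.d k4 k247 k8 12 1)))))] (.c k89 (.l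
  (.s k90 k80 2 (.s k150 k215 8 (.s k169 k248 12 (.s k168 k170 0 (.s k188 k131 6 (.d k252 k124 k84 7
  13))))))) (.c k167 (.q k247 [(.s k81 k162 12 (.s k89 k93 1 (.d k166 k12 k4 14 12))), (.s k4 k166
  12 (.s k52 k36 3 (.d k182 k117 k121 8 10))), (.s k81 k162 12 (.s k89 k93 1 (.s k90 k80 2 (.d k91
  k88 k251 0 11))))] .n) (.c k247 (.q k167 [(.s k81 k162 12 (.s k90 k80 2 (.s k91 k251 11 (.d k89
  k88 k93 0 1)))), (.s k90 k80 2 (.s k150 k215 8 (.s k169 k248 12 (.s k168 k170 0 (.s k188 k131 6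
  (.d k252 k124 k84 7 13)))))), (.s k81 k162 12 (.s k89 k93 1 (.s k12 k166 14 (.s k8 k4 1 (.d k251
  k170 k91 12 11)))))] .n) .n)))) (.c k247 (.q k167 [(.s k81 k162 12 (.s k89 k93 1 (.s k12 k166 14
  (.s k8 k4 1 (.d k251 k170 k91 12 11))))), (.s k150 k215 8 (.s k182 k121 10 (.s k166 k134 3 (.s k12
  k89 14 (.s k44 k28 3 (.d k105 k195 k227 14 10)))))), (.s k81 k162 12 (.s k150 k215 8 (.s k195 k105
  14 (.s k65 k130 8 (.s k97 k113 3 (.s k146 k48 12 (.d k211 k227 k16 3 8)))))))] (.c k95 (.l (.s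
  k175 k163 1 (.s k81 k162 12 (.s k89 k93 1 (.s k12 k166 14 (.s k8 k4 1 (.d k251 k170 k91 12
  11))))))) (.c k175 (.q k95 [(.s k81 k162 12 (.s k90 k80 2 (.s k91 k251 11 (.d k89 k88 k93 0 1)))),
  (.s k90 k80 2 (.s k150 k215 8 (.s k169 k248 12 (.s k168 k170 0 (.s k188 k131 6 (.d k252 k124 k84 7
  13)))))), (.s k81 k162 12 (.s k89 k93 1 (.s k12 k166 14 (.s k8 k4 1 (.d k251 k170 k91 12 11)))))]
  .n) .n))) .n))))) (.c k95 (.q k175 [(.s k81 k162 12 (.s k150 k215 8 (.s k182 k121 10 (.s k166 k134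
  3 (.d k89 k93 k12 1 14))))), (.s k81 k162 12 (.s k150 k215 8 (.s k195 k105 14 (.s k65 k130 8 (.s
  k97 k113 3 (.s k146 k48 12 (.d k211 k227 k16 3 8))))))), (.s k81 k162 12 (.s k89 k93 1 (.s k12
  k166 14 (.s k4 k8 1 (.s k28 k44 3 (.s k24 k16 1 (.d k36 k52 k48 3 5))))))), (.s k150 k215 8 (.s
  k182 k121 10 (.s k166 k134 3 (.s k4 k247 12 (.d k12 k8 k89 1 14)))))] (.c k87 (.q k171 [(.s k81
  k162 12 (.s k89 k93 1 (.s k12 k166 14 (.s k8 k4 1 (.d k251 k91 k170 11 12))))), (.s k81 k162 12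
  (.s k150 k215 8 (.s k195 k105 14 (.s k65 k130 8 (.s k97 k113 3 (.s k146 k48 12 (.d k211 k227 k16 3
  8))))))), (.s k150 k215 8 (.s k182 k121 10 (.s k166 k134 3 (.s k12 k89 14 (.d k4 k247 k8 12
  1)))))] (.c k83 (.l (.s k91 k251 11 (.s k81 k162 12 (.s k89 k93 1 (.s k12 k166 14 (.s k28 k44 3
  (.d k150 k215 k211 8 10))))))) (.c k91 (.q k83 [(.s k81 k162 12 (.s k89 k93 1 (.s k121 k182 10 (.s
  k105 k73 3 (.d k150 k215 k195 8 14))))), (.s k81 k162 12 (.s k80 k82 0 (.s k150 k215 8 (.s k195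
  k105 14 (.s k130 k65 8 (.s k170 k190 5 (.d k160 k240 k165 11 2))))))), (.s k81 k162 12 (.s k80 k82
  0 (.s k89 k93 1 (.s k12 k166 14 (.s k8 k4 1 (.s k170 k251 12 (.d k160 k240 k165 11 2))))))), (.s
  k150 k215 8 (.s k182 k121 10 (.s k166 k134 3 (.s k12 k89 14 (.d k4 k247 k8 12 1)))))] (.c k167 (.q
  k247 [(.s k4 k166 12 (.s k182 k121 10 (.d k52 k36 k117 3 8))), (.s k81 k162 12 (.s k89 k93 1 (.d
  k166 k12 k4 14 12))), (.s k81 k162 12 (.s k89 k93 1 (.s k121 k182 10 (.s k105 k73 3 (.d k150 k215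
  k195 8 14)))))] .n) (.c k247 (.l (.s k167 k163 1 (.s k81 k162 12 (.s k89 k93 1 (.s k12 k166 14 (.s
  k28 k44 3 (.d k150 k215 k211 8 10))))))) .n))) (.c k167 (.q k247 [(.s k4 k166 12 (.s k182 k121 10
  (.d k52 k36 k117 3 8))), (.s k81 k162 12 (.s k89 k93 1 (.d k166 k12 k4 14 12))), (.s k81 k162 12
  (.s k89 k93 1 (.s k121 k182 10 (.s k105 k73 3 (.d k150 k215 k195 8 14)))))] (.c k83 (.l (.s k91
  k251 11 (.s k4 k166 12 (.s k52 k36 3 (.d k182 k117 k121 8 10))))) (.c k91 (.q k83 [(.s k4 k166 12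
  (.s k182 k121 10 (.d k52 k36 k117 3 8))), (.s k81 k162 12 (.s k89 k93 1 (.d k166 k12 k4 14 12))),
  (.s k81 k162 12 (.s k89 k93 1 (.s k121 k182 10 (.s k105 k73 3 (.d k150 k215 k195 8 14)))))] .n)
  .n))) (.c k247 (.l (.s k167 k163 1 (.s k81 k162 12 (.s k89 k93 1 (.s k12 k166 14 (.s k8 k4 1 (.d
  k251 k170 k91 12 11))))))) .n))))) (.c k171 (.q k87 [(.s k81 k162 12 (.s k150 k215 8 (.s k182 k121
  10 (.s k166 k134 3 (.d k89 k93 k12 1 14))))), (.s k84 k86 0 (.s k148 k212 7 (.s k104 k192 13 (.s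
  k124 k64 5 (.d k252 k188 k168 7 13)))))] .n) .n))) (.c k171 (.q k87 [(.s k81 k162 12 (.s k89 k93 1
  (.s k121 k182 10 (.s k105 k73 3 (.d k150 k215 k195 8 14))))), (.s k84 k86 0 (.s k148 k212 7 (.s
  k104 k192 13 (.s k124 k64 5 (.d k252 k188 k168 7 13)))))] (.c k95 (.q k175 [(.s k81 k162 12 (.s
  k150 k215 8 (.s k182 k121 10 (.s k166 k134 3 (.d k89 k93 k12 1 14))))), (.s k84 k86 0 (.s k148
  k212 7 (.s k104 k192 13 (.s k124 k64 5 (.d k252 k188 k168 7 13)))))] .n) (.c k175 (.q k95 [(.s k81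
  k162 12 (.s k83 k91 1 (.d k80 k82 k90 0 2))), (.s k81 k162 12 (.s k83 k91 1 (.s k86 k84 0 (.d k89
  k93 k92 1 2)))), (.s k83 k91 1 (.s k86 k84 0 (.s k90 k80 2 (.s k92 k89 2 (.d k94 k93 k82 0 1)))))]
  (.c k83 (.l (.s k80 k90 2 (.s k81 k162 12 (.s k84 k86 0 (.s k92 k88 1 (.d k93 k94 k89 0 1))))))
  (.c k91 (.l (.s k80 k90 2 (.s k81 k162 12 (.s k83 k82 0 (.s k86 k84 0 (.d k89 k93 k92 1 2))))))
  (.c k163 (.q k167 [(.s k81 k162 12 (.s k83 k91 1 (.d k80 k82 k90 0 2))), (.s k83 k91 1 (.s k86 k84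
  0 (.s k90 k80 2 (.s k92 k89 2 (.d k94 k93 k82 0 1))))), (.s k81 k162 12 (.s k83 k91 1 (.s k86 k84
  0 (.d k89 k93 k92 1 2))))] (.c k83 (.l (.s k80 k90 2 (.s k81 k162 12 (.s k84 k86 0 (.s k92 k88 1
  (.d k93 k94 k89 0 1)))))) (.c k91 (.l (.s k80 k90 2 (.s k81 k162 12 (.s k83 k82 0 (.s k86 k84 0
  (.d k89 k93 k92 1 2)))))) .n))) (.c k167 (.q k163 [(.s k81 k162 12 (.s k83 k91 1 (.d k80 k82 k90 0
  2))), (.s k81 k162 12 (.s k83 k91 1 (.s k86 k84 0 (.d k89 k93 k92 1 2)))), (.s k83 k91 1 (.s k86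
  k84 0 (.s k90 k80 2 (.s k92 k89 2 (.d k94 k93 k82 0 1))))), (.s k80 k90 2 (.s k162 k81 12 (.d k160
  k240 k161 11 0)))] .n) .n))))) .n))) (.c k175 (.q k95 [(.s k81 k162 12 (.s k89 k93 1 (.s k121 k182
  10 (.s k105 k73 3 (.d k150 k215 k195 8 14))))), (.s k80 k90 2 (.s k121 k182 10 (.s k240 k160 11
  (.s k120 k180 9 (.s k122 k123 0 (.s k181 k63 10 (.d k241 k242 k61 0 9))))))), (.s k81 k162 12 (.s
  k89 k93 1 (.s k12 k166 14 (.s k28 k44 3 (.d k150 k215 k211 8 10)))))] (.c k87 (.q k171 [(.s k81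
  k162 12 (.s k90 k80 2 (.s k91 k251 11 (.d k89 k88 k93 0 1)))), (.s k150 k215 8 (.s k182 k121 10
  (.s k166 k134 3 (.s k12 k89 14 (.d k4 k247 k8 12 1)))))] (.c k89 (.l (.s k90 k80 2 (.s k150 k215 8
  (.s k169 k248 12 (.s k168 k170 0 (.s k188 k131 6 (.d k252 k124 k84 7 13))))))) (.c k167 (.q k247
  [(.s k81 k162 12 (.s k89 k93 1 (.d k166 k12 k4 14 12))), (.s k4 k166 12 (.s k52 k36 3 (.d k182
  k117 k121 8 10))), (.s k81 k162 12 (.s k89 k93 1 (.s k90 k80 2 (.d k91 k88 k251 0 11))))] .n) (.c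
  k247 (.q k167 [(.s k81 k162 12 (.s k90 k80 2 (.s k91 k251 11 (.d k89 k88 k93 0 1)))), (.s k90 k80
  2 (.s k150 k215 8 (.s k169 k248 12 (.s k168 k170 0 (.s k188 k131 6 (.d k252 k124 k84 7 13)))))),
  (.s k81 k162 12 (.s k89 k93 1 (.s k12 k166 14 (.s k8 k4 1 (.d k251 k170 k91 12 11)))))] .n) .n))))
  (.c k171 (.q k87 [(.s k81 k162 12 (.s k83 k91 1 (.d k80 k82 k90 0 2))), (.s k81 k162 12 (.s k83
  k91 1 (.s k86 k84 0 (.d k89 k93 k92 1 2)))), (.s k83 k91 1 (.s k86 k84 0 (.s k90 k80 2 (.s k92 k89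
  2 (.d k94 k93 k82 0 1)))))] (.c k83 (.l (.s k80 k90 2 (.s k81 k162 12 (.s k84 k86 0 (.s k92 k88 1
  (.d k93 k94 k89 0 1)))))) (.c k91 (.l (.s k80 k90 2 (.s k81 k162 12 (.s k83 k82 0 (.s k86 k84 0
  (.d k89 k93 k92 1 2)))))) (.c k163 (.q k167 [(.s k81 k162 12 (.s k83 k91 1 (.d k80 k82 k90 0 2))),
  (.s k83 k91 1 (.s k86 k84 0 (.s k90 k80 2 (.s k92 k89 2 (.d k94 k93 k82 0 1))))), (.s k81 k162 12
  (.s k83 k91 1 (.s k86 k84 0 (.d k89 k93 k92 1 2))))] (.c k83 (.l (.s k80 k90 2 (.s k81 k162 12 (.s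
  k84 k86 0 (.s k92 k88 1 (.d k93 k94 k89 0 1)))))) (.c k91 (.l (.s k80 k90 2 (.s k81 k162 12 (.s
  k83 k82 0 (.s k86 k84 0 (.d k89 k93 k92 1 2)))))) .n))) (.c k167 (.q k163 [(.s k81 k162 12 (.s k83
  k91 1 (.d k80 k82 k90 0 2))), (.s k81 k162 12 (.s k83 k91 1 (.s k86 k84 0 (.d k89 k93 k92 1 2)))),
  (.s k83 k91 1 (.s k86 k84 0 (.s k90 k80 2 (.s k92 k89 2 (.d k94 k93 k82 0 1))))), (.s k80 k90 2
  (.s k162 k81 12 (.d k160 k240 k161 11 0)))] .n) .n))))) .n))) .n))))) (.c k11 (.q k7 [(.s k81 k162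
  12 (.s k89 k93 1 (.s k121 k182 10 (.s k105 k73 3 (.d k150 k215 k195 8 14))))), (.s k81 k162 12 (.s
  k150 k215 8 (.s k195 k105 14 (.s k65 k130 8 (.s k97 k113 3 (.s k146 k48 12 (.d k211 k227 k16 3
  8))))))), (.s k150 k215 8 (.s k182 k121 10 (.s k166 k134 3 (.s k4 k247 12 (.d k12 k8 k89 1
  14))))), (.s k81 k162 12 (.s k89 k93 1 (.s k12 k166 14 (.s k4 k8 1 (.s k28 k44 3 (.s k24 k16 1 (.d
  k36 k52 k48 3 5)))))))] (.c k87 (.q k171 [(.s k81 k162 12 (.s k89 k93 1 (.s k121 k182 10 (.s k105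
  k73 3 (.d k150 k215 k195 8 14))))), (.s k81 k162 12 (.s k150 k215 8 (.s k195 k105 14 (.s k65 k130
  8 (.s k97 k113 3 (.s k146 k48 12 (.d k211 k227 k16 3 8))))))), (.s k150 k215 8 (.s k182 k121 10
  (.s k166 k134 3 (.s k4 k247 12 (.d k12 k8 k89 1 14))))), (.s k81 k162 12 (.s k89 k93 1 (.s k12
  k166 14 (.s k4 k8 1 (.s k28 k44 3 (.s k24 k16 1 (.d k36 k52 k48 3 5)))))))] (.c k95 (.q k175 [(.s
  k81 k162 12 (.s k89 k93 1 (.s k121 k182 10 (.s k105 k73 3 (.d k150 k215 k195 8 14))))), (.s k162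
  k81 12 (.s k163 k167 1 (.s k160 k161 0 (.s k170 k165 2 (.s k166 k174 1 (.d k169 k168 k172 0
  2)))))), (.s k150 k215 8 (.s k182 k121 10 (.s k166 k134 3 (.s k4 k247 12 (.d k12 k8 k89 1 14)))))]
  (.c k12 (.l (.s k81 k162 12 (.s k150 k215 8 (.s k195 k105 14 (.s k211 k227 3 (.d k89 k93 k28 1
  10)))))) (.c k83 (.q k91 [(.s k81 k162 12 (.s k89 k93 1 (.s k121 k182 10 (.s k105 k73 3 (.d k150
  k215 k195 8 14))))), (.s k162 k81 12 (.s k163 k167 1 (.s k160 k161 0 (.s k170 k165 2 (.s k166 k174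
  1 (.d k169 k168 k172 0 2)))))), (.s k150 k215 8 (.s k182 k121 10 (.s k166 k134 3 (.s k4 k247 12
  (.d k12 k8 k89 1 14)))))] (.c k12 (.l (.s k81 k162 12 (.s k150 k215 8 (.s k195 k105 14 (.s k211
  k227 3 (.d k89 k93 k28 1 10)))))) .n)) (.c k91 (.q k83 [(.s k81 k162 12 (.s k89 k93 1 (.s k121
  k182 10 (.s k105 k73 3 (.d k150 k215 k195 8 14))))), (.s k162 k81 12 (.s k163 k167 1 (.s k160 k161
  0 (.s k170 k165 2 (.s k166 k174 1 (.d k169 k168 k172 0 2)))))), (.s k150 k215 8 (.s k182 k121 10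
  (.s k166 k134 3 (.s k4 k247 12 (.d k12 k8 k89 1 14)))))] (.c k12 (.l (.s k81 k162 12 (.s k150 k215
  8 (.s k195 k105 14 (.s k211 k227 3 (.d k89 k93 k28 1 10)))))) .n)) .n)))) (.c k175 (.q k95 [(.s
  k81 k162 12 (.s k89 k93 1 (.s k121 k182 10 (.s k105 k73 3 (.d k150 k215 k195 8 14))))), (.s k80
  k90 2 (.s k121 k182 10 (.s k240 k160 11 (.s k120 k180 9 (.s k122 k123 0 (.s k181 k63 10 (.d k241
  k242 k61 0 9))))))), (.s k81 k162 12 (.s k89 k93 1 (.s k12 k166 14 (.s k28 k44 3 (.d k150 k215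
  k211 8 10)))))] .n) .n))) (.c k95 (.q k175 [(.s k81 k162 12 (.s k150 k215 8 (.s k182 k121 10 (.s
  k166 k134 3 (.d k89 k93 k12 1 14))))), (.s k81 k162 12 (.s k150 k215 8 (.s k195 k105 14 (.s k65
  k130 8 (.s k97 k113 3 (.s k146 k48 12 (.d k211 k227 k16 3 8))))))), (.s k81 k162 12 (.s k89 k93 1
  (.s k12 k166 14 (.s k4 k8 1 (.s k28 k44 3 (.s k24 k16 1 (.d k36 k52 k48 3 5))))))), (.s k150 k215
  8 (.s k182 k121 10 (.s k166 k134 3 (.s k4 k247 12 (.d k12 k8 k89 1 14)))))] (.c k87 (.q k171 [(.s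
  k81 k162 12 (.s k89 k93 1 (.s k121 k182 10 (.s k105 k73 3 (.d k150 k215 k195 8 14))))), (.s k162
  k81 12 (.s k163 k167 1 (.s k160 k161 0 (.s k170 k165 2 (.s k166 k174 1 (.d k169 k168 k172 0
  2)))))), (.s k150 k215 8 (.s k182 k121 10 (.s k166 k134 3 (.s k4 k247 12 (.d k12 k8 k89 1 14)))))]
  (.c k12 (.l (.s k81 k162 12 (.s k150 k215 8 (.s k195 k105 14 (.s k211 k227 3 (.d k89 k93 k28 1
  10)))))) (.c k83 (.q k91 [(.s k81 k162 12 (.s k89 k93 1 (.s k121 k182 10 (.s k105 k73 3 (.d k150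
  k215 k195 8 14))))), (.s k162 k81 12 (.s k163 k167 1 (.s k160 k161 0 (.s k170 k165 2 (.s k166 k174
  1 (.d k169 k168 k172 0 2)))))), (.s k150 k215 8 (.s k182 k121 10 (.s k166 k134 3 (.s k4 k247 12
  (.d k12 k8 k89 1 14)))))] (.c k12 (.l (.s k81 k162 12 (.s k150 k215 8 (.s k195 k105 14 (.s k211
  k227 3 (.d k89 k93 k28 1 10)))))) .n)) (.c k91 (.q k83 [(.s k81 k162 12 (.s k89 k93 1 (.s k121
  k182 10 (.s k105 k73 3 (.d k150 k215 k195 8 14))))), (.s k162 k81 12 (.s k163 k167 1 (.s k160 k161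
  0 (.s k170 k165 2 (.s k166 k174 1 (.d k169 k168 k172 0 2)))))), (.s k150 k215 8 (.s k182 k121 10
  (.s k166 k134 3 (.s k4 k247 12 (.d k12 k8 k89 1 14)))))] (.c k12 (.l (.s k81 k162 12 (.s k150 k215
  8 (.s k195 k105 14 (.s k211 k227 3 (.d k89 k93 k28 1 10)))))) .n)) .n)))) (.c k171 (.q k87 [(.s
  k81 k162 12 (.s k247 k167 11 (.s k166 k4 12 (.d k89 k93 k12 1 14)))), (.s k150 k215 8 (.s k182
  k121 10 (.s k166 k134 3 (.d k247 k167 k4 11 12)))), (.s k81 k162 12 (.s k89 k93 1 (.s k121 k182 10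
  (.s k105 k73 3 (.d k150 k215 k195 8 14)))))] (.c k91 (.q k251 [(.s k81 k162 12 (.s k247 k167 11
  (.s k166 k4 12 (.d k89 k93 k12 1 14)))), (.s k150 k215 8 (.s k182 k121 10 (.s k166 k134 3 (.d k247
  k167 k4 11 12)))), (.s k81 k162 12 (.s k86 k84 0 (.s k89 k93 1 (.s k170 k8 12 (.d k165 k160 k244 2
  12)))))] .n) (.c k251 (.q k91 [(.s k81 k162 12 (.s k247 k167 11 (.s k166 k4 12 (.d k89 k93 k12 1
  14)))), (.s k150 k215 8 (.s k182 k121 10 (.s k166 k134 3 (.d k247 k167 k4 11 12)))), (.s k81 k162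
  12 (.s k89 k93 1 (.s k121 k182 10 (.s k105 k73 3 (.d k150 k215 k195 8 14)))))] .n) .n))) .n))) (.c
  k171 (.q k87 [(.s k81 k162 12 (.s k247 k167 11 (.s k166 k4 12 (.d k89 k93 k12 1 14)))), (.s k150
  k215 8 (.s k182 k121 10 (.s k166 k134 3 (.d k247 k167 k4 11 12)))), (.s k81 k162 12 (.s k89 k93 1
  (.s k121 k182 10 (.s k105 k73 3 (.d k150 k215 k195 8 14)))))] (.c k91 (.q k251 [(.s k81 k162 12
  (.s k89 k93 1 (.s k12 k166 14 (.d k8 k170 k4 12 1)))), (.s k150 k215 8 (.s k182 k121 10 (.s k166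
  k134 3 (.d k247 k167 k4 11 12)))), (.s k81 k162 12 (.s k89 k93 1 (.s k121 k182 10 (.s k105 k73 3
  (.d k150 k215 k195 8 14)))))] (.c k95 (.q k175 [(.s k81 k162 12 (.s k247 k167 11 (.s k166 k4 12
  (.d k89 k93 k12 1 14)))), (.s k150 k215 8 (.s k182 k121 10 (.s k166 k134 3 (.d k247 k167 k4 11
  12)))), (.s k81 k162 12 (.s k86 k84 0 (.s k89 k93 1 (.s k170 k8 12 (.d k165 k160 k244 2 12)))))]
  .n) (.c k175 (.q k95 [(.s k150 k215 8 (.s k182 k121 10 (.s k166 k134 3 (.d k247 k167 k4 11 12)))),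
  (.s k80 k90 2 (.s k81 k162 12 (.s k83 k82 0 (.s k86 k84 0 (.d k89 k93 k92 1 2)))))] (.c k163 (.l
  (.s k167 k247 11 (.s k81 k162 12 (.s k89 k93 1 (.s k8 k170 12 (.d k12 k166 k4 14 1)))))) (.c k167
  (.q k163 [(.s k162 k81 12 (.s k160 k161 0 (.d k80 k240 k90 11 2))), (.s k84 k86 0 (.s k148 k212 7
  (.s k104 k192 13 (.s k124 k64 5 (.d k252 k188 k168 7 13)))))] .n) .n))) .n))) (.c k95 (.q k175
  [(.s k81 k162 12 (.s k247 k167 11 (.s k166 k4 12 (.d k89 k93 k12 1 14)))), (.s k150 k215 8 (.s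
  k182 k121 10 (.s k166 k134 3 (.d k247 k167 k4 11 12)))), (.s k81 k162 12 (.s k89 k93 1 (.s k121
  k182 10 (.s k105 k73 3 (.d k150 k215 k195 8 14)))))] (.c k91 (.q k251 [(.s k81 k162 12 (.s k247
  k167 11 (.s k166 k4 12 (.d k89 k93 k12 1 14)))), (.s k150 k215 8 (.s k182 k121 10 (.s k166 k134 3
  (.d k247 k167 k4 11 12)))), (.s k81 k162 12 (.s k86 k84 0 (.s k89 k93 1 (.s k170 k8 12 (.d k165
  k160 k244 2 12)))))] .n) (.c k251 (.q k91 [(.s k81 k162 12 (.s k247 k167 11 (.s k166 k4 12 (.d k89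
  k93 k12 1 14)))), (.s k150 k215 8 (.s k182 k121 10 (.s k166 k134 3 (.d k247 k167 k4 11 12)))), (.s
  k81 k162 12 (.s k89 k93 1 (.s k121 k182 10 (.s k105 k73 3 (.d k150 k215 k195 8 14)))))] .n) .n)))
  (.c k175 (.q k95 [(.s k80 k90 2 (.s k81 k162 12 (.d k83 k91 k82 1 0))), (.s k150 k215 8 (.s k182
  k121 10 (.s k166 k134 3 (.d k247 k167 k4 11 12))))] (.c k91 (.q k251 [(.s k150 k215 8 (.s k182
  k121 10 (.s k166 k134 3 (.d k247 k167 k4 11 12)))), (.s k80 k90 2 (.s k81 k162 12 (.s k83 k82 0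
  (.s k86 k84 0 (.d k89 k93 k92 1 2)))))] (.c k163 (.l (.s k167 k247 11 (.s k81 k162 12 (.s k89 k93
  1 (.s k8 k170 12 (.d k12 k166 k4 14 1)))))) (.c k167 (.q k163 [(.s k162 k81 12 (.s k160 k161 0 (.d
  k80 k240 k90 11 2))), (.s k84 k86 0 (.s k148 k212 7 (.s k104 k192 13 (.s k124 k64 5 (.d k252 k188
  k168 7 13)))))] .n) .n))) (.c k163 (.l (.s k167 k247 11 (.s k80 k90 2 (.s k81 k162 12 (.d k83 k82
  k91 0 1))))) (.c k167 (.q k163 [(.s k80 k90 2 (.s k81 k162 12 (.d k83 k91 k82 1 0))), (.s k84 k86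
  0 (.s k148 k212 7 (.s k104 k192 13 (.s k124 k64 5 (.d k252 k188 k168 7 13)))))] (.c k91 (.q k251
  [(.s k162 k81 12 (.s k160 k161 0 (.d k80 k240 k90 11 2))), (.s k84 k86 0 (.s k148 k212 7 (.s k104
  k192 13 (.s k124 k64 5 (.d k252 k188 k168 7 13)))))] .n) (.c k169 (.l (.s k162 k81 12 (.s k160
  k161 0 (.d k80 k240 k90 11 2)))) (.c k251 (.l (.s k91 k83 1 (.s k80 k90 2 (.s k162 k81 12 (.d k160
  k240 k161 11 0))))) .n)))) (.c k251 (.l (.s k91 k83 1 (.s k81 k162 12 (.s k89 k93 1 (.d k90 k88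
  k80 0 2))))) .n))))) (.c k251 (.q k91 [(.s k81 k162 12 (.s k95 k83 1 (.s k90 k80 2 (.d k89 k88 k93
  0 1)))), (.s k150 k215 8 (.s k182 k121 10 (.s k166 k134 3 (.d k247 k167 k4 11 12))))] (.c k95 (.q
  k175 [(.s k81 k162 12 (.s k247 k167 11 (.s k166 k4 12 (.d k89 k93 k12 1 14)))), (.s k150 k215 8
  (.s k182 k121 10 (.s k166 k134 3 (.d k247 k167 k4 11 12)))), (.s k81 k162 12 (.s k89 k93 1 (.s
  k121 k182 10 (.s k105 k73 3 (.d k150 k215 k195 8 14)))))] .n) (.c k175 (.l (.s k95 k83 1 (.s k81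
  k162 12 (.s k89 k93 1 (.d k90 k88 k80 0 2))))) .n))) .n))))) (.c k175 (.q k95 [(.s k81 k162 12 (.s
  k89 k93 1 (.s k121 k182 10 (.s k105 k73 3 (.d k150 k215 k195 8 14))))), (.s k80 k90 2 (.s k121
  k182 10 (.s k240 k160 11 (.s k120 k180 9 (.s k122 k123 0 (.s k181 k63 10 (.d k241 k242 k61 0
  9))))))), (.s k81 k162 12 (.s k89 k93 1 (.s k12 k166 14 (.s k28 k44 3 (.d k150 k215 k211 8
  10)))))] (.c k87 (.q k171 [(.s k81 k162 12 (.s k89 k93 1 (.s k121 k182 10 (.s k105 k73 3 (.d k150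
  k215 k195 8 14))))), (.s k80 k90 2 (.s k121 k182 10 (.s k240 k160 11 (.s k120 k180 9 (.s k122 k123
  0 (.s k181 k63 10 (.d k241 k242 k61 0 9))))))), (.s k81 k162 12 (.s k89 k93 1 (.s k12 k166 14 (.s
  k28 k44 3 (.d k150 k215 k211 8 10)))))] .n) (.c k171 (.q k87 [(.s k80 k90 2 (.s k81 k162 12 (.d
  k83 k91 k82 1 0))), (.s k150 k215 8 (.s k182 k121 10 (.s k166 k134 3 (.d k247 k167 k4 11 12))))]
  (.c k91 (.q k251 [(.s k150 k215 8 (.s k182 k121 10 (.s k166 k134 3 (.d k247 k167 k4 11 12)))), (.s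
  k80 k90 2 (.s k81 k162 12 (.s k83 k82 0 (.s k86 k84 0 (.d k89 k93 k92 1 2)))))] (.c k163 (.l (.s
  k167 k247 11 (.s k81 k162 12 (.s k89 k93 1 (.s k8 k170 12 (.d k12 k166 k4 14 1)))))) (.c k167 (.q
  k163 [(.s k162 k81 12 (.s k160 k161 0 (.d k80 k240 k90 11 2))), (.s k84 k86 0 (.s k148 k212 7 (.s
  k104 k192 13 (.s k124 k64 5 (.d k252 k188 k168 7 13)))))] .n) .n))) (.c k163 (.l (.s k167 k247 11
  (.s k80 k90 2 (.s k81 k162 12 (.d k83 k82 k91 0 1))))) (.c k167 (.q k163 [(.s k80 k90 2 (.s k81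
  k162 12 (.d k83 k91 k82 1 0))), (.s k84 k86 0 (.s k148 k212 7 (.s k104 k192 13 (.s k124 k64 5 (.d
  k252 k188 k168 7 13)))))] (.c k91 (.q k251 [(.s k162 k81 12 (.s k160 k161 0 (.d k80 k240 k90 11
  2))), (.s k84 k86 0 (.s k148 k212 7 (.s k104 k192 13 (.s k124 k64 5 (.d k252 k188 k168 7 13)))))]
  .n) (.c k169 (.l (.s k162 k81 12 (.s k160 k161 0 (.d k80 k240 k90 11 2)))) (.c k251 (.l (.s k91
  k83 1 (.s k80 k90 2 (.s k162 k81 12 (.d k160 k240 k161 11 0))))) .n)))) (.c k251 (.l (.s k91 k83 1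
  (.s k81 k162 12 (.s k89 k93 1 (.d k90 k88 k80 0 2))))) .n))))) .n))) .n))))) (.c k87 (.q k171 [(.s
  k81 k162 12 (.s k89 k93 1 (.s k121 k182 10 (.s k105 k73 3 (.d k150 k215 k195 8 14))))), (.s k81
  k162 12 (.s k150 k215 8 (.s k195 k105 14 (.s k65 k130 8 (.s k97 k113 3 (.s k146 k48 12 (.d k211
  k227 k16 3 8))))))), (.s k150 k215 8 (.s k182 k121 10 (.s k166 k134 3 (.s k4 k247 12 (.d k12 k8
  k89 1 14))))), (.s k81 k162 12 (.s k89 k93 1 (.s k12 k166 14 (.s k4 k8 1 (.s k28 k44 3 (.s k24 k16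
  1 (.d k36 k52 k48 3 5)))))))] (.c k7 (.q k11 [(.s k81 k162 12 (.s k89 k93 1 (.s k121 k182 10 (.s
  k105 k73 3 (.d k150 k215 k195 8 14))))), (.s k81 k162 12 (.s k89 k93 1 (.s k12 k166 14 (.s k8 k4 1
  (.d k251 k170 k91 12 11))))), (.s k150 k215 8 (.s k182 k121 10 (.s k166 k134 3 (.s k12 k89 14 (.d
  k4 k247 k8 12 1))))), (.s k81 k162 12 (.s k150 k215 8 (.s k195 k105 14 (.s k65 k130 8 (.s k97 k113
  3 (.s k146 k48 12 (.d k211 k227 k16 3 8)))))))] (.c k95 (.q k175 [(.s k81 k162 12 (.s k89 k93 1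
  (.s k12 k166 14 (.s k8 k4 1 (.d k251 k91 k170 11 12))))), (.s k81 k162 12 (.s k150 k215 8 (.s k195
  k105 14 (.s k65 k130 8 (.s k97 k113 3 (.s k146 k48 12 (.d k211 k227 k16 3 8))))))), (.s k150 k215
  8 (.s k182 k121 10 (.s k166 k134 3 (.s k12 k89 14 (.d k4 k247 k8 12 1)))))] (.c k83 (.l (.s k91
  k251 11 (.s k81 k162 12 (.s k89 k93 1 (.s k12 k166 14 (.s k28 k44 3 (.d k150 k215 k211 8 10)))))))
  (.c k91 (.q k83 [(.s k81 k162 12 (.s k89 k93 1 (.s k121 k182 10 (.s k105 k73 3 (.d k150 k215 k195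
  8 14))))), (.s k81 k162 12 (.s k80 k82 0 (.s k150 k215 8 (.s k195 k105 14 (.s k130 k65 8 (.s k170
  k190 5 (.d k160 k240 k165 11 2))))))), (.s k81 k162 12 (.s k80 k82 0 (.s k89 k93 1 (.s k12 k166 14
  (.s k8 k4 1 (.s k170 k251 12 (.d k160 k240 k165 11 2))))))), (.s k150 k215 8 (.s k182 k121 10 (.s
  k166 k134 3 (.s k12 k89 14 (.d k4 k247 k8 12 1)))))] (.c k167 (.q k247 [(.s k4 k166 12 (.s k182
  k121 10 (.d k52 k36 k117 3 8))), (.s k81 k162 12 (.s k89 k93 1 (.d k166 k12 k4 14 12))), (.s k81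
  k162 12 (.s k89 k93 1 (.s k121 k182 10 (.s k105 k73 3 (.d k150 k215 k195 8 14)))))] .n) (.c k247
  (.l (.s k167 k163 1 (.s k81 k162 12 (.s k89 k93 1 (.s k12 k166 14 (.s k28 k44 3 (.d k150 k215 k211
  8 10))))))) .n))) (.c k167 (.q k247 [(.s k4 k166 12 (.s k182 k121 10 (.d k52 k36 k117 3 8))), (.s
  k81 k162 12 (.s k89 k93 1 (.d k166 k12 k4 14 12))), (.s k81 k162 12 (.s k89 k93 1 (.s k121 k182 10
  (.s k105 k73 3 (.d k150 k215 k195 8 14)))))] (.c k83 (.l (.s k91 k251 11 (.s k4 k166 12 (.s k52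
  k36 3 (.d k182 k117 k121 8 10))))) (.c k91 (.q k83 [(.s k4 k166 12 (.s k182 k121 10 (.d k52 k36
  k117 3 8))), (.s k81 k162 12 (.s k89 k93 1 (.d k166 k12 k4 14 12))), (.s k81 k162 12 (.s k89 k93 1
  (.s k121 k182 10 (.s k105 k73 3 (.d k150 k215 k195 8 14)))))] .n) .n))) (.c k247 (.l (.s k167 k163
  1 (.s k81 k162 12 (.s k89 k93 1 (.s k12 k166 14 (.s k8 k4 1 (.d k251 k170 k91 12 11))))))) .n)))))
  (.c k167 (.q k247 [(.s k81 k162 12 (.s k89 k93 1 (.d k166 k12 k4 14 12))), (.s k4 k166 12 (.s k52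
  k36 3 (.d k182 k117 k121 8 10))), (.s k81 k162 12 (.s k89 k93 1 (.s k121 k182 10 (.s k105 k73 3
  (.d k150 k215 k195 8 14)))))] (.c k95 (.q k175 [(.s k4 k166 12 (.s k182 k121 10 (.d k52 k36 k117 3
  8))), (.s k81 k162 12 (.s k89 k93 1 (.d k166 k12 k4 14 12))), (.s k81 k162 12 (.s k89 k93 1 (.s
  k121 k182 10 (.s k105 k73 3 (.d k150 k215 k195 8 14)))))] (.c k83 (.l (.s k91 k251 11 (.s k4 k166
  12 (.s k52 k36 3 (.d k182 k117 k121 8 10))))) (.c k91 (.q k83 [(.s k4 k166 12 (.s k182 k121 10 (.d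
  k52 k36 k117 3 8))), (.s k81 k162 12 (.s k89 k93 1 (.d k166 k12 k4 14 12))), (.s k81 k162 12 (.s
  k89 k93 1 (.s k121 k182 10 (.s k105 k73 3 (.d k150 k215 k195 8 14)))))] .n) .n))) (.c k175 (.q k95
  [(.s k81 k162 12 (.s k89 k93 1 (.d k166 k12 k4 14 12))), (.s k4 k166 12 (.s k52 k36 3 (.d k182
  k117 k121 8 10))), (.s k81 k162 12 (.s k89 k93 1 (.s k90 k80 2 (.d k91 k88 k251 0 11))))] .n)
  .n))) (.c k175 (.q k95 [(.s k81 k162 12 (.s k90 k80 2 (.s k91 k251 11 (.d k89 k88 k93 0 1)))), (.s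
  k150 k215 8 (.s k182 k121 10 (.s k166 k134 3 (.s k12 k89 14 (.d k4 k247 k8 12 1)))))] (.c k89 (.l
  (.s k90 k80 2 (.s k150 k215 8 (.s k169 k248 12 (.s k168 k170 0 (.s k188 k131 6 (.d k252 k124 k84 7
  13))))))) (.c k167 (.q k247 [(.s k81 k162 12 (.s k89 k93 1 (.d k166 k12 k4 14 12))), (.s k4 k166
  12 (.s k52 k36 3 (.d k182 k117 k121 8 10))), (.s k81 k162 12 (.s k89 k93 1 (.s k90 k80 2 (.d k91
  k88 k251 0 11))))] .n) (.c k247 (.q k167 [(.s k81 k162 12 (.s k90 k80 2 (.s k91 k251 11 (.d k89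
  k88 k93 0 1)))), (.s k90 k80 2 (.s k150 k215 8 (.s k169 k248 12 (.s k168 k170 0 (.s k188 k131 6
  (.d k252 k124 k84 7 13)))))), (.s k81 k162 12 (.s k89 k93 1 (.s k12 k166 14 (.s k8 k4 1 (.d k251
  k170 k91 12 11)))))] .n) .n)))) (.c k247 (.q k167 [(.s k81 k162 12 (.s k89 k93 1 (.s k12 k166 14
  (.s k8 k4 1 (.d k251 k170 k91 12 11))))), (.s k150 k215 8 (.s k182 k121 10 (.s k166 k134 3 (.s k12
  k89 14 (.s k44 k28 3 (.d k105 k195 k227 14 10)))))), (.s k81 k162 12 (.s k150 k215 8 (.s k195 k105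
  14 (.s k65 k130 8 (.s k97 k113 3 (.s k146 k48 12 (.d k211 k227 k16 3 8)))))))] (.c k95 (.l (.s
  k175 k163 1 (.s k81 k162 12 (.s k89 k93 1 (.s k12 k166 14 (.s k8 k4 1 (.d k251 k170 k91 12
  11))))))) (.c k175 (.q k95 [(.s k81 k162 12 (.s k90 k80 2 (.s k91 k251 11 (.d k89 k88 k93 0 1)))),
  (.s k90 k80 2 (.s k150 k215 8 (.s k169 k248 12 (.s k168 k170 0 (.s k188 k131 6 (.d k252 k124 k84 7
  13)))))), (.s k81 k162 12 (.s k89 k93 1 (.s k12 k166 14 (.s k8 k4 1 (.d k251 k170 k91 12 11)))))]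
  .n) .n))) .n))))) (.c k11 (.q k7 [(.s k81 k162 12 (.s k89 k93 1 (.s k121 k182 10 (.s k105 k73 3
  (.d k150 k215 k195 8 14))))), (.s k81 k162 12 (.s k150 k215 8 (.s k195 k105 14 (.s k65 k130 8 (.s
  k97 k113 3 (.s k146 k48 12 (.d k211 k227 k16 3 8))))))), (.s k150 k215 8 (.s k182 k121 10 (.s k166
  k134 3 (.s k4 k247 12 (.d k12 k8 k89 1 14))))), (.s k81 k162 12 (.s k89 k93 1 (.s k12 k166 14 (.s
  k4 k8 1 (.s k28 k44 3 (.s k24 k16 1 (.d k36 k52 k48 3 5)))))))] (.c k95 (.q k175 [(.s k81 k162 12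
  (.s k89 k93 1 (.s k121 k182 10 (.s k105 k73 3 (.d k150 k215 k195 8 14))))), (.s k162 k81 12 (.s
  k163 k167 1 (.s k160 k161 0 (.s k170 k165 2 (.s k166 k174 1 (.d k169 k168 k172 0 2)))))), (.s k150
  k215 8 (.s k182 k121 10 (.s k166 k134 3 (.s k4 k247 12 (.d k12 k8 k89 1 14)))))] (.c k12 (.l (.s
  k81 k162 12 (.s k150 k215 8 (.s k195 k105 14 (.s k211 k227 3 (.d k89 k93 k28 1 10)))))) (.c k83
  (.q k91 [(.s k81 k162 12 (.s k89 k93 1 (.s k121 k182 10 (.s k105 k73 3 (.d k150 k215 k195 8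
  14))))), (.s k162 k81 12 (.s k163 k167 1 (.s k160 k161 0 (.s k170 k165 2 (.s k166 k174 1 (.d k169
  k168 k172 0 2)))))), (.s k150 k215 8 (.s k182 k121 10 (.s k166 k134 3 (.s k4 k247 12 (.d k12 k8
  k89 1 14)))))] (.c k12 (.l (.s k81 k162 12 (.s k150 k215 8 (.s k195 k105 14 (.s k211 k227 3 (.d
  k89 k93 k28 1 10)))))) .n)) (.c k91 (.q k83 [(.s k81 k162 12 (.s k89 k93 1 (.s k121 k182 10 (.s
  k105 k73 3 (.d k150 k215 k195 8 14))))), (.s k162 k81 12 (.s k163 k167 1 (.s k160 k161 0 (.s k170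
  k165 2 (.s k166 k174 1 (.d k169 k168 k172 0 2)))))), (.s k150 k215 8 (.s k182 k121 10 (.s k166
  k134 3 (.s k4 k247 12 (.d k12 k8 k89 1 14)))))] (.c k12 (.l (.s k81 k162 12 (.s k150 k215 8 (.s
  k195 k105 14 (.s k211 k227 3 (.d k89 k93 k28 1 10)))))) .n)) .n)))) (.c k175 (.q k95 [(.s k81 k162
  12 (.s k89 k93 1 (.s k121 k182 10 (.s k105 k73 3 (.d k150 k215 k195 8 14))))), (.s k80 k90 2 (.s
  k121 k182 10 (.s k240 k160 11 (.s k120 k180 9 (.s k122 k123 0 (.s k181 k63 10 (.d k241 k242 k61 0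
  9))))))), (.s k81 k162 12 (.s k89 k93 1 (.s k12 k166 14 (.s k28 k44 3 (.d k150 k215 k211 8
  10)))))] .n) .n))) (.c k95 (.q k175 [(.s k81 k162 12 (.s k89 k93 1 (.s k121 k182 10 (.s k105 k73 3
  (.d k150 k215 k195 8 14))))), (.s k162 k81 12 (.s k163 k167 1 (.s k160 k161 0 (.s k170 k165 2 (.s
  k166 k174 1 (.d k169 k168 k172 0 2)))))), (.s k150 k215 8 (.s k182 k121 10 (.s k166 k134 3 (.s k4
  k247 12 (.d k12 k8 k89 1 14)))))] (.c k7 (.q k11 [(.s k81 k162 12 (.s k89 k93 1 (.s k12 k166 14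
  (.s k8 k4 1 (.d k251 k91 k170 11 12))))), (.s k81 k162 12 (.s k150 k215 8 (.s k195 k105 14 (.s k65
  k130 8 (.s k97 k113 3 (.s k146 k48 12 (.d k211 k227 k16 3 8))))))), (.s k150 k215 8 (.s k182 k121
  10 (.s k166 k134 3 (.s k12 k89 14 (.d k4 k247 k8 12 1)))))] (.c k83 (.l (.s k91 k251 11 (.s k81
  k162 12 (.s k89 k93 1 (.s k12 k166 14 (.s k28 k44 3 (.d k150 k215 k211 8 10))))))) (.c k91 (.q k83
  [(.s k81 k162 12 (.s k89 k93 1 (.s k121 k182 10 (.s k105 k73 3 (.d k150 k215 k195 8 14))))), (.s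
  k81 k162 12 (.s k80 k82 0 (.s k150 k215 8 (.s k195 k105 14 (.s k130 k65 8 (.s k170 k190 5 (.d k160
  k240 k165 11 2))))))), (.s k81 k162 12 (.s k80 k82 0 (.s k89 k93 1 (.s k12 k166 14 (.s k8 k4 1 (.s
  k170 k251 12 (.d k160 k240 k165 11 2))))))), (.s k150 k215 8 (.s k182 k121 10 (.s k166 k134 3 (.s
  k12 k89 14 (.d k4 k247 k8 12 1)))))] (.c k167 (.q k247 [(.s k4 k166 12 (.s k182 k121 10 (.d k52
  k36 k117 3 8))), (.s k81 k162 12 (.s k89 k93 1 (.d k166 k12 k4 14 12))), (.s k81 k162 12 (.s k89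
  k93 1 (.s k121 k182 10 (.s k105 k73 3 (.d k150 k215 k195 8 14)))))] .n) (.c k247 (.l (.s k167 k163
  1 (.s k81 k162 12 (.s k89 k93 1 (.s k12 k166 14 (.s k28 k44 3 (.d k150 k215 k211 8 10))))))) .n)))
  (.c k167 (.q k247 [(.s k4 k166 12 (.s k182 k121 10 (.d k52 k36 k117 3 8))), (.s k81 k162 12 (.s
  k89 k93 1 (.d k166 k12 k4 14 12))), (.s k81 k162 12 (.s k89 k93 1 (.s k121 k182 10 (.s k105 k73 3
  (.d k150 k215 k195 8 14)))))] (.c k83 (.l (.s k91 k251 11 (.s k4 k166 12 (.s k52 k36 3 (.d k182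
  k117 k121 8 10))))) (.c k91 (.q k83 [(.s k4 k166 12 (.s k182 k121 10 (.d k52 k36 k117 3 8))), (.s
  k81 k162 12 (.s k89 k93 1 (.d k166 k12 k4 14 12))), (.s k81 k162 12 (.s k89 k93 1 (.s k121 k182 10
  (.s k105 k73 3 (.d k150 k215 k195 8 14)))))] .n) .n))) (.c k247 (.l (.s k167 k163 1 (.s k81 k162
  12 (.s k89 k93 1 (.s k12 k166 14 (.s k8 k4 1 (.d k251 k170 k91 12 11))))))) .n))))) (.c k11 (.q k7
  [(.s k81 k162 12 (.s k89 k93 1 (.s k121 k182 10 (.s k105 k73 3 (.d k150 k215 k195 8 14))))), (.s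
  k162 k81 12 (.s k163 k167 1 (.s k160 k161 0 (.s k170 k165 2 (.s k166 k174 1 (.d k169 k168 k172 0
  2)))))), (.s k150 k215 8 (.s k182 k121 10 (.s k166 k134 3 (.s k4 k247 12 (.d k12 k8 k89 1 14)))))]
  (.c k12 (.l (.s k81 k162 12 (.s k150 k215 8 (.s k195 k105 14 (.s k211 k227 3 (.d k89 k93 k28 1
  10)))))) (.c k83 (.q k91 [(.s k81 k162 12 (.s k89 k93 1 (.s k121 k182 10 (.s k105 k73 3 (.d k150
  k215 k195 8 14))))), (.s k162 k81 12 (.s k163 k167 1 (.s k160 k161 0 (.s k170 k165 2 (.s k166 k174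
  1 (.d k169 k168 k172 0 2)))))), (.s k150 k215 8 (.s k182 k121 10 (.s k166 k134 3 (.s k4 k247 12
  (.d k12 k8 k89 1 14)))))] (.c k12 (.l (.s k81 k162 12 (.s k150 k215 8 (.s k195 k105 14 (.s k211
  k227 3 (.d k89 k93 k28 1 10)))))) .n)) (.c k91 (.q k83 [(.s k81 k162 12 (.s k89 k93 1 (.s k121
  k182 10 (.s k105 k73 3 (.d k150 k215 k195 8 14))))), (.s k162 k81 12 (.s k163 k167 1 (.s k160 k161
  0 (.s k170 k165 2 (.s k166 k174 1 (.d k169 k168 k172 0 2)))))), (.s k150 k215 8 (.s k182 k121 10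
  (.s k166 k134 3 (.s k4 k247 12 (.d k12 k8 k89 1 14)))))] (.c k12 (.l (.s k81 k162 12 (.s k150 k215
  8 (.s k195 k105 14 (.s k211 k227 3 (.d k89 k93 k28 1 10)))))) .n)) .n)))) (.c k12 (.l (.s k81 k162
  12 (.s k150 k215 8 (.s k195 k105 14 (.s k211 k227 3 (.d k89 k93 k28 1 10)))))) (.c k83 (.q k91
  [(.s k81 k162 12 (.s k89 k93 1 (.s k12 k166 14 (.s k8 k4 1 (.d k251 k11 k170 11 12))))), (.s k150
  k215 8 (.s k182 k121 10 (.s k166 k134 3 (.s k4 k247 12 (.d k12 k8 k89 1 14))))), (.s k81 k162 12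
  (.s k150 k215 8 (.s k195 k105 14 (.s k211 k227 3 (.d k89 k93 k28 1 10)))))] (.c k7 (.l (.s k11
  k251 11 (.s k81 k162 12 (.s k89 k93 1 (.s k12 k166 14 (.s k28 k44 3 (.d k150 k215 k211 8 10)))))))
  (.c k11 (.q k7 [(.s k81 k162 12 (.s k89 k93 1 (.s k121 k182 10 (.s k105 k73 3 (.d k150 k215 k195 8
  14))))), (.s k162 k81 12 (.s k163 k167 1 (.s k160 k161 0 (.s k170 k165 2 (.s k166 k174 1 (.d k169
  k168 k172 0 2)))))), (.s k150 k215 8 (.s k182 k121 10 (.s k166 k134 3 (.s k4 k247 12 (.d k12 k8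
  k89 1 14)))))] (.c k12 (.l (.s k81 k162 12 (.s k150 k215 8 (.s k195 k105 14 (.s k211 k227 3 (.d
  k89 k93 k28 1 10)))))) .n)) (.c k89 (.l (.s k162 k81 12 (.s k163 k167 1 (.s k160 k161 0 (.s k170
  k165 2 (.s k166 k174 1 (.d k169 k168 k172 0 2))))))) (.c k166 (.l (.s k81 k162 12 (.s k89 k93 1
  (.s k121 k182 10 (.s k105 k73 3 (.d k150 k215 k195 8 14)))))) .n))))) (.c k91 (.q k83 [(.s k81
  k162 12 (.s k89 k93 1 (.s k121 k182 10 (.s k105 k73 3 (.d k150 k215 k195 8 14))))), (.s k162 k81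
  12 (.s k163 k167 1 (.s k160 k161 0 (.s k170 k165 2 (.s k166 k174 1 (.d k169 k168 k172 0 2)))))),
  (.s k150 k215 8 (.s k182 k121 10 (.s k166 k134 3 (.s k4 k247 12 (.d k12 k8 k89 1 14)))))] (.c k7
  (.q k11 [(.s k81 k162 12 (.s k89 k93 1 (.s k121 k182 10 (.s k105 k73 3 (.d k150 k215 k195 8
  14))))), (.s k81 k162 12 (.s k80 k82 0 (.s k150 k215 8 (.s k195 k105 14 (.s k130 k65 8 (.s k170
  k190 5 (.d k160 k240 k165 11 2))))))), (.s k81 k162 12 (.s k80 k82 0 (.s k89 k93 1 (.s k12 k166 14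
  (.s k8 k4 1 (.s k170 k251 12 (.d k160 k240 k165 11 2))))))), (.s k150 k215 8 (.s k182 k121 10 (.s
  k166 k134 3 (.s k12 k89 14 (.d k4 k247 k8 12 1)))))] (.c k167 (.q k247 [(.s k4 k166 12 (.s k182
  k121 10 (.d k52 k36 k117 3 8))), (.s k81 k162 12 (.s k89 k93 1 (.d k166 k12 k4 14 12))), (.s k81
  k162 12 (.s k89 k93 1 (.s k121 k182 10 (.s k105 k73 3 (.d k150 k215 k195 8 14)))))] .n) (.c k247
  (.l (.s k167 k163 1 (.s k81 k162 12 (.s k89 k93 1 (.s k12 k166 14 (.s k28 k44 3 (.d k150 k215 k211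
  8 10))))))) .n))) (.c k11 (.q k7 [(.s k81 k162 12 (.s k89 k93 1 (.s k121 k182 10 (.s k105 k73 3
  (.d k150 k215 k195 8 14))))), (.s k162 k81 12 (.s k163 k167 1 (.s k160 k161 0 (.s k170 k165 2 (.s
  k166 k174 1 (.d k169 k168 k172 0 2)))))), (.s k150 k215 8 (.s k182 k121 10 (.s k166 k134 3 (.s k4
  k247 12 (.d k12 k8 k89 1 14)))))] (.c k12 (.l (.s k81 k162 12 (.s k150 k215 8 (.s k195 k105 14 (.s
  k211 k227 3 (.d k89 k93 k28 1 10)))))) .n)) (.c k12 (.l (.s k81 k162 12 (.s k150 k215 8 (.s k195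
  k105 14 (.s k211 k227 3 (.d k89 k93 k28 1 10)))))) .n)))) .n)))))) (.c k175 (.q k95 [(.s k81 k162
  12 (.s k89 k93 1 (.s k121 k182 10 (.s k105 k73 3 (.d k150 k215 k195 8 14))))), (.s k80 k90 2 (.s
  k121 k182 10 (.s k240 k160 11 (.s k120 k180 9 (.s k122 k123 0 (.s k181 k63 10 (.d k241 k242 k61 0
  9))))))), (.s k81 k162 12 (.s k89 k93 1 (.s k12 k166 14 (.s k28 k44 3 (.d k150 k215 k211 8
  10)))))] (.c k7 (.q k11 [(.s k81 k162 12 (.s k90 k80 2 (.s k91 k251 11 (.d k89 k88 k93 0 1)))),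
  (.s k150 k215 8 (.s k182 k121 10 (.s k166 k134 3 (.s k12 k89 14 (.d k4 k247 k8 12 1)))))] (.c k89
  (.l (.s k90 k80 2 (.s k150 k215 8 (.s k169 k248 12 (.s k168 k170 0 (.s k188 k131 6 (.d k252 k124
  k84 7 13))))))) (.c k167 (.q k247 [(.s k81 k162 12 (.s k89 k93 1 (.d k166 k12 k4 14 12))), (.s k4
  k166 12 (.s k52 k36 3 (.d k182 k117 k121 8 10))), (.s k81 k162 12 (.s k89 k93 1 (.s k90 k80 2 (.d
  k91 k88 k251 0 11))))] .n) (.c k247 (.q k167 [(.s k81 k162 12 (.s k90 k80 2 (.s k91 k251 11 (.d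
  k89 k88 k93 0 1)))), (.s k90 k80 2 (.s k150 k215 8 (.s k169 k248 12 (.s k168 k170 0 (.s k188 k131
  6 (.d k252 k124 k84 7 13)))))), (.s k81 k162 12 (.s k89 k93 1 (.s k12 k166 14 (.s k8 k4 1 (.d k251
  k170 k91 12 11)))))] .n) .n)))) (.c k11 (.q k7 [(.s k81 k162 12 (.s k89 k93 1 (.s k121 k182 10 (.s
  k105 k73 3 (.d k150 k215 k195 8 14))))), (.s k80 k90 2 (.s k121 k182 10 (.s k240 k160 11 (.s k120
  k180 9 (.s k122 k123 0 (.s k181 k63 10 (.d k241 k242 k61 0 9))))))), (.s k81 k162 12 (.s k89 k93 1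
  (.s k12 k166 14 (.s k28 k44 3 (.d k150 k215 k211 8 10)))))] .n) .n))) .n))))) (.c k95 (.q k175
  [(.s k81 k162 12 (.s k150 k215 8 (.s k182 k121 10 (.s k166 k134 3 (.d k89 k93 k12 1 14))))), (.s
  k81 k162 12 (.s k150 k215 8 (.s k195 k105 14 (.s k65 k130 8 (.s k97 k113 3 (.s k146 k48 12 (.d
  k211 k227 k16 3 8))))))), (.s k81 k162 12 (.s k89 k93 1 (.s k12 k166 14 (.s k4 k8 1 (.s k28 k44 3
  (.s k24 k16 1 (.d k36 k52 k48 3 5))))))), (.s k150 k215 8 (.s k182 k121 10 (.s k166 k134 3 (.s k4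
  k247 12 (.d k12 k8 k89 1 14)))))] (.c k7 (.q k11 [(.s k81 k162 12 (.s k150 k215 8 (.s k182 k121 10
  (.s k166 k134 3 (.d k89 k93 k12 1 14))))), (.s k81 k162 12 (.s k150 k215 8 (.s k195 k105 14 (.s
  k65 k130 8 (.s k97 k113 3 (.s k146 k48 12 (.d k211 k227 k16 3 8))))))), (.s k81 k162 12 (.s k89
  k93 1 (.s k12 k166 14 (.s k4 k8 1 (.s k28 k44 3 (.s k24 k16 1 (.d k36 k52 k48 3 5))))))), (.s k150
  k215 8 (.s k182 k121 10 (.s k166 k134 3 (.s k4 k247 12 (.d k12 k8 k89 1 14)))))] (.c k87 (.q k171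
  [(.s k81 k162 12 (.s k89 k93 1 (.s k12 k166 14 (.s k8 k4 1 (.d k251 k91 k170 11 12))))), (.s k81
  k162 12 (.s k150 k215 8 (.s k195 k105 14 (.s k65 k130 8 (.s k97 k113 3 (.s k146 k48 12 (.d k211
  k227 k16 3 8))))))), (.s k150 k215 8 (.s k182 k121 10 (.s k166 k134 3 (.s k12 k89 14 (.d k4 k247
  k8 12 1)))))] (.c k83 (.l (.s k91 k251 11 (.s k81 k162 12 (.s k89 k93 1 (.s k12 k166 14 (.s k28
  k44 3 (.d k150 k215 k211 8 10))))))) (.c k91 (.q k83 [(.s k81 k162 12 (.s k89 k93 1 (.s k121 k182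
  10 (.s k105 k73 3 (.d k150 k215 k195 8 14))))), (.s k81 k162 12 (.s k80 k82 0 (.s k150 k215 8 (.s
  k195 k105 14 (.s k130 k65 8 (.s k170 k190 5 (.d k160 k240 k165 11 2))))))), (.s k81 k162 12 (.s
  k80 k82 0 (.s k89 k93 1 (.s k12 k166 14 (.s k8 k4 1 (.s k170 k251 12 (.d k160 k240 k165 11
  2))))))), (.s k150 k215 8 (.s k182 k121 10 (.s k166 k134 3 (.s k12 k89 14 (.d k4 k247 k8 12
  1)))))] (.c k167 (.q k247 [(.s k4 k166 12 (.s k182 k121 10 (.d k52 k36 k117 3 8))), (.s k81 k162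
  12 (.s k89 k93 1 (.d k166 k12 k4 14 12))), (.s k81 k162 12 (.s k89 k93 1 (.s k121 k182 10 (.s k105
  k73 3 (.d k150 k215 k195 8 14)))))] .n) (.c k247 (.l (.s k167 k163 1 (.s k81 k162 12 (.s k89 k93 1
  (.s k12 k166 14 (.s k28 k44 3 (.d k150 k215 k211 8 10))))))) .n))) (.c k167 (.q k247 [(.s k4 k166
  12 (.s k182 k121 10 (.d k52 k36 k117 3 8))), (.s k81 k162 12 (.s k89 k93 1 (.d k166 k12 k4 14
  12))), (.s k81 k162 12 (.s k89 k93 1 (.s k121 k182 10 (.s k105 k73 3 (.d k150 k215 k195 8 14)))))]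
  (.c k83 (.l (.s k91 k251 11 (.s k4 k166 12 (.s k52 k36 3 (.d k182 k117 k121 8 10))))) (.c k91 (.q
  k83 [(.s k4 k166 12 (.s k182 k121 10 (.d k52 k36 k117 3 8))), (.s k81 k162 12 (.s k89 k93 1 (.d
  k166 k12 k4 14 12))), (.s k81 k162 12 (.s k89 k93 1 (.s k121 k182 10 (.s k105 k73 3 (.d k150 k215
  k195 8 14)))))] .n) .n))) (.c k247 (.l (.s k167 k163 1 (.s k81 k162 12 (.s k89 k93 1 (.s k12 k166
  14 (.s k8 k4 1 (.d k251 k170 k91 12 11))))))) .n))))) (.c k171 (.q k87 [(.s k81 k162 12 (.s k150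
  k215 8 (.s k182 k121 10 (.s k166 k134 3 (.d k89 k93 k12 1 14))))), (.s k84 k86 0 (.s k148 k212 7
  (.s k104 k192 13 (.s k124 k64 5 (.d k252 k188 k168 7 13)))))] .n) .n))) (.c k11 (.q k7 [(.s k81
  k162 12 (.s k150 k215 8 (.s k182 k121 10 (.s k166 k134 3 (.d k89 k93 k12 1 14))))), (.s k81 k162
  12 (.s k150 k215 8 (.s k195 k105 14 (.s k65 k130 8 (.s k97 k113 3 (.s k146 k48 12 (.d k211 k227
  k16 3 8))))))), (.s k81 k162 12 (.s k89 k93 1 (.s k12 k166 14 (.s k4 k8 1 (.s k28 k44 3 (.s k24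
  k16 1 (.d k36 k52 k48 3 5))))))), (.s k150 k215 8 (.s k182 k121 10 (.s k166 k134 3 (.s k4 k247 12
  (.d k12 k8 k89 1 14)))))] (.c k87 (.q k171 [(.s k81 k162 12 (.s k89 k93 1 (.s k121 k182 10 (.s
  k105 k73 3 (.d k150 k215 k195 8 14))))), (.s k162 k81 12 (.s k163 k167 1 (.s k160 k161 0 (.s k170
  k165 2 (.s k166 k174 1 (.d k169 k168 k172 0 2)))))), (.s k150 k215 8 (.s k182 k121 10 (.s k166
  k134 3 (.s k4 k247 12 (.d k12 k8 k89 1 14)))))] (.c k12 (.l (.s k81 k162 12 (.s k150 k215 8 (.s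
  k195 k105 14 (.s k211 k227 3 (.d k89 k93 k28 1 10)))))) (.c k83 (.q k91 [(.s k81 k162 12 (.s k89
  k93 1 (.s k121 k182 10 (.s k105 k73 3 (.d k150 k215 k195 8 14))))), (.s k162 k81 12 (.s k163 k167
  1 (.s k160 k161 0 (.s k170 k165 2 (.s k166 k174 1 (.d k169 k168 k172 0 2)))))), (.s k150 k215 8
  (.s k182 k121 10 (.s k166 k134 3 (.s k4 k247 12 (.d k12 k8 k89 1 14)))))] (.c k12 (.l (.s k81 k162
  12 (.s k150 k215 8 (.s k195 k105 14 (.s k211 k227 3 (.d k89 k93 k28 1 10)))))) .n)) (.c k91 (.q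
  k83 [(.s k81 k162 12 (.s k89 k93 1 (.s k121 k182 10 (.s k105 k73 3 (.d k150 k215 k195 8 14))))),
  (.s k162 k81 12 (.s k163 k167 1 (.s k160 k161 0 (.s k170 k165 2 (.s k166 k174 1 (.d k169 k168 k172
  0 2)))))), (.s k150 k215 8 (.s k182 k121 10 (.s k166 k134 3 (.s k4 k247 12 (.d k12 k8 k89 1
  14)))))] (.c k12 (.l (.s k81 k162 12 (.s k150 k215 8 (.s k195 k105 14 (.s k211 k227 3 (.d k89 k93
  k28 1 10)))))) .n)) .n)))) (.c k171 (.q k87 [(.s k81 k162 12 (.s k247 k167 11 (.s k166 k4 12 (.d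
  k89 k93 k12 1 14)))), (.s k150 k215 8 (.s k182 k121 10 (.s k166 k134 3 (.d k247 k167 k4 11 12)))),
  (.s k81 k162 12 (.s k89 k93 1 (.s k121 k182 10 (.s k105 k73 3 (.d k150 k215 k195 8 14)))))] (.c
  k91 (.q k251 [(.s k81 k162 12 (.s k247 k167 11 (.s k166 k4 12 (.d k89 k93 k12 1 14)))), (.s k150
  k215 8 (.s k182 k121 10 (.s k166 k134 3 (.d k247 k167 k4 11 12)))), (.s k81 k162 12 (.s k86 k84 0
  (.s k89 k93 1 (.s k170 k8 12 (.d k165 k160 k244 2 12)))))] .n) (.c k251 (.q k91 [(.s k81 k162 12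
  (.s k247 k167 11 (.s k166 k4 12 (.d k89 k93 k12 1 14)))), (.s k150 k215 8 (.s k182 k121 10 (.s
  k166 k134 3 (.d k247 k167 k4 11 12)))), (.s k81 k162 12 (.s k89 k93 1 (.s k121 k182 10 (.s k105
  k73 3 (.d k150 k215 k195 8 14)))))] .n) .n))) .n))) (.c k87 (.q k171 [(.s k81 k162 12 (.s k89 k93
  1 (.s k121 k182 10 (.s k105 k73 3 (.d k150 k215 k195 8 14))))), (.s k162 k81 12 (.s k163 k167 1
  (.s k160 k161 0 (.s k170 k165 2 (.s k166 k174 1 (.d k169 k168 k172 0 2)))))), (.s k150 k215 8 (.s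
  k182 k121 10 (.s k166 k134 3 (.s k4 k247 12 (.d k12 k8 k89 1 14)))))] (.c k7 (.q k11 [(.s k81 k162
  12 (.s k89 k93 1 (.s k12 k166 14 (.s k8 k4 1 (.d k251 k91 k170 11 12))))), (.s k81 k162 12 (.s
  k150 k215 8 (.s k195 k105 14 (.s k65 k130 8 (.s k97 k113 3 (.s k146 k48 12 (.d k211 k227 k16 3
  8))))))), (.s k150 k215 8 (.s k182 k121 10 (.s k166 k134 3 (.s k12 k89 14 (.d k4 k247 k8 12
  1)))))] (.c k83 (.l (.s k91 k251 11 (.s k81 k162 12 (.s k89 k93 1 (.s k12 k166 14 (.s k28 k44 3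
  (.d k150 k215 k211 8 10))))))) (.c k91 (.q k83 [(.s k81 k162 12 (.s k89 k93 1 (.s k121 k182 10 (.s
  k105 k73 3 (.d k150 k215 k195 8 14))))), (.s k81 k162 12 (.s k80 k82 0 (.s k150 k215 8 (.s k195
  k105 14 (.s k130 k65 8 (.s k170 k190 5 (.d k160 k240 k165 11 2))))))), (.s k81 k162 12 (.s k80 k82
  0 (.s k89 k93 1 (.s k12 k166 14 (.s k8 k4 1 (.s k170 k251 12 (.d k160 k240 k165 11 2))))))), (.s
  k150 k215 8 (.s k182 k121 10 (.s k166 k134 3 (.s k12 k89 14 (.d k4 k247 k8 12 1)))))] (.c k167 (.q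
  k247 [(.s k4 k166 12 (.s k182 k121 10 (.d k52 k36 k117 3 8))), (.s k81 k162 12 (.s k89 k93 1 (.d
  k166 k12 k4 14 12))), (.s k81 k162 12 (.s k89 k93 1 (.s k121 k182 10 (.s k105 k73 3 (.d k150 k215
  k195 8 14)))))] .n) (.c k247 (.l (.s k167 k163 1 (.s k81 k162 12 (.s k89 k93 1 (.s k12 k166 14 (.s
  k28 k44 3 (.d k150 k215 k211 8 10))))))) .n))) (.c k167 (.q k247 [(.s k4 k166 12 (.s k182 k121 10
  (.d k52 k36 k117 3 8))), (.s k81 k162 12 (.s k89 k93 1 (.d k166 k12 k4 14 12))), (.s k81 k162 12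
  (.s k89 k93 1 (.s k121 k182 10 (.s k105 k73 3 (.d k150 k215 k195 8 14)))))] (.c k83 (.l (.s k91
  k251 11 (.s k4 k166 12 (.s k52 k36 3 (.d k182 k117 k121 8 10))))) (.c k91 (.q k83 [(.s k4 k166 12
  (.s k182 k121 10 (.d k52 k36 k117 3 8))), (.s k81 k162 12 (.s k89 k93 1 (.d k166 k12 k4 14 12))),
  (.s k81 k162 12 (.s k89 k93 1 (.s k121 k182 10 (.s k105 k73 3 (.d k150 k215 k195 8 14)))))] .n)
  .n))) (.c k247 (.l (.s k167 k163 1 (.s k81 k162 12 (.s k89 k93 1 (.s k12 k166 14 (.s k8 k4 1 (.d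
  k251 k170 k91 12 11))))))) .n))))) (.c k11 (.q k7 [(.s k81 k162 12 (.s k89 k93 1 (.s k121 k182 10
  (.s k105 k73 3 (.d k150 k215 k195 8 14))))), (.s k162 k81 12 (.s k163 k167 1 (.s k160 k161 0 (.s
  k170 k165 2 (.s k166 k174 1 (.d k169 k168 k172 0 2)))))), (.s k150 k215 8 (.s k182 k121 10 (.s
  k166 k134 3 (.s k4 k247 12 (.d k12 k8 k89 1 14)))))] (.c k12 (.l (.s k81 k162 12 (.s k150 k215 8
  (.s k195 k105 14 (.s k211 k227 3 (.d k89 k93 k28 1 10)))))) (.c k83 (.q k91 [(.s k81 k162 12 (.s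
  k89 k93 1 (.s k121 k182 10 (.s k105 k73 3 (.d k150 k215 k195 8 14))))), (.s k162 k81 12 (.s k163
  k167 1 (.s k160 k161 0 (.s k170 k165 2 (.s k166 k174 1 (.d k169 k168 k172 0 2)))))), (.s k150 k215
  8 (.s k182 k121 10 (.s k166 k134 3 (.s k4 k247 12 (.d k12 k8 k89 1 14)))))] (.c k12 (.l (.s k81
  k162 12 (.s k150 k215 8 (.s k195 k105 14 (.s k211 k227 3 (.d k89 k93 k28 1 10)))))) .n)) (.c k91
  (.q k83 [(.s k81 k162 12 (.s k89 k93 1 (.s k121 k182 10 (.s k105 k73 3 (.d k150 k215 k195 8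
  14))))), (.s k162 k81 12 (.s k163 k167 1 (.s k160 k161 0 (.s k170 k165 2 (.s k166 k174 1 (.d k169
  k168 k172 0 2)))))), (.s k150 k215 8 (.s k182 k121 10 (.s k166 k134 3 (.s k4 k247 12 (.d k12 k8
  k89 1 14)))))] (.c k12 (.l (.s k81 k162 12 (.s k150 k215 8 (.s k195 k105 14 (.s k211 k227 3 (.d
  k89 k93 k28 1 10)))))) .n)) .n)))) (.c k12 (.l (.s k81 k162 12 (.s k150 k215 8 (.s k195 k105 14
  (.s k211 k227 3 (.d k89 k93 k28 1 10)))))) (.c k83 (.q k91 [(.s k81 k162 12 (.s k89 k93 1 (.s k12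
  k166 14 (.s k8 k4 1 (.d k251 k11 k170 11 12))))), (.s k150 k215 8 (.s k182 k121 10 (.s k166 k134 3
  (.s k4 k247 12 (.d k12 k8 k89 1 14))))), (.s k81 k162 12 (.s k150 k215 8 (.s k195 k105 14 (.s k211
  k227 3 (.d k89 k93 k28 1 10)))))] (.c k7 (.l (.s k11 k251 11 (.s k81 k162 12 (.s k89 k93 1 (.s k12
  k166 14 (.s k28 k44 3 (.d k150 k215 k211 8 10))))))) (.c k11 (.q k7 [(.s k81 k162 12 (.s k89 k93 1
  (.s k121 k182 10 (.s k105 k73 3 (.d k150 k215 k195 8 14))))), (.s k162 k81 12 (.s k163 k167 1 (.s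
  k160 k161 0 (.s k170 k165 2 (.s k166 k174 1 (.d k169 k168 k172 0 2)))))), (.s k150 k215 8 (.s k182
  k121 10 (.s k166 k134 3 (.s k4 k247 12 (.d k12 k8 k89 1 14)))))] (.c k12 (.l (.s k81 k162 12 (.s
  k150 k215 8 (.s k195 k105 14 (.s k211 k227 3 (.d k89 k93 k28 1 10)))))) .n)) (.c k89 (.l (.s k162
  k81 12 (.s k163 k167 1 (.s k160 k161 0 (.s k170 k165 2 (.s k166 k174 1 (.d k169 k168 k172 0
  2))))))) (.c k166 (.l (.s k81 k162 12 (.s k89 k93 1 (.s k121 k182 10 (.s k105 k73 3 (.d k150 k215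
  k195 8 14)))))) .n))))) (.c k91 (.q k83 [(.s k81 k162 12 (.s k89 k93 1 (.s k121 k182 10 (.s k105
  k73 3 (.d k150 k215 k195 8 14))))), (.s k162 k81 12 (.s k163 k167 1 (.s k160 k161 0 (.s k170 k165
  2 (.s k166 k174 1 (.d k169 k168 k172 0 2)))))), (.s k150 k215 8 (.s k182 k121 10 (.s k166 k134 3
  (.s k4 k247 12 (.d k12 k8 k89 1 14)))))] (.c k7 (.q k11 [(.s k81 k162 12 (.s k89 k93 1 (.s k121
  k182 10 (.s k105 k73 3 (.d k150 k215 k195 8 14))))), (.s k81 k162 12 (.s k80 k82 0 (.s k150 k215 8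
  (.s k195 k105 14 (.s k130 k65 8 (.s k170 k190 5 (.d k160 k240 k165 11 2))))))), (.s k81 k162 12
  (.s k80 k82 0 (.s k89 k93 1 (.s k12 k166 14 (.s k8 k4 1 (.s k170 k251 12 (.d k160 k240 k165 11
  2))))))), (.s k150 k215 8 (.s k182 k121 10 (.s k166 k134 3 (.s k12 k89 14 (.d k4 k247 k8 12
  1)))))] (.c k167 (.q k247 [(.s k4 k166 12 (.s k182 k121 10 (.d k52 k36 k117 3 8))), (.s k81 k162
  12 (.s k89 k93 1 (.d k166 k12 k4 14 12))), (.s k81 k162 12 (.s k89 k93 1 (.s k121 k182 10 (.s k105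
  k73 3 (.d k150 k215 k195 8 14)))))] .n) (.c k247 (.l (.s k167 k163 1 (.s k81 k162 12 (.s k89 k93 1
  (.s k12 k166 14 (.s k28 k44 3 (.d k150 k215 k211 8 10))))))) .n))) (.c k11 (.q k7 [(.s k81 k162 12
  (.s k89 k93 1 (.s k121 k182 10 (.s k105 k73 3 (.d k150 k215 k195 8 14))))), (.s k162 k81 12 (.s
  k163 k167 1 (.s k160 k161 0 (.s k170 k165 2 (.s k166 k174 1 (.d k169 k168 k172 0 2)))))), (.s k150
  k215 8 (.s k182 k121 10 (.s k166 k134 3 (.s k4 k247 12 (.d k12 k8 k89 1 14)))))] (.c k12 (.l (.s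
  k81 k162 12 (.s k150 k215 8 (.s k195 k105 14 (.s k211 k227 3 (.d k89 k93 k28 1 10)))))) .n)) (.c
  k12 (.l (.s k81 k162 12 (.s k150 k215 8 (.s k195 k105 14 (.s k211 k227 3 (.d k89 k93 k28 1
  10)))))) .n)))) .n)))))) (.c k171 (.q k87 [(.s k81 k162 12 (.s k150 k215 8 (.s k182 k121 10 (.s
  k166 k134 3 (.d k89 k93 k12 1 14))))), (.s k84 k86 0 (.s k148 k212 7 (.s k104 k192 13 (.s k124 k64
  5 (.d k252 k188 k168 7 13)))))] (.c k7 (.q k11 [(.s k81 k162 12 (.s k150 k215 8 (.s k182 k121 10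
  (.s k166 k134 3 (.d k89 k93 k12 1 14))))), (.s k84 k86 0 (.s k148 k212 7 (.s k104 k192 13 (.s k124
  k64 5 (.d k252 k188 k168 7 13)))))] .n) (.c k11 (.q k7 [(.s k81 k162 12 (.s k247 k167 11 (.s k166
  k4 12 (.d k89 k93 k12 1 14)))), (.s k150 k215 8 (.s k182 k121 10 (.s k166 k134 3 (.d k247 k167 k4
  11 12)))), (.s k81 k162 12 (.s k89 k93 1 (.s k121 k182 10 (.s k105 k73 3 (.d k150 k215 k195 8
  14)))))] (.c k91 (.q k251 [(.s k81 k162 12 (.s k247 k167 11 (.s k166 k4 12 (.d k89 k93 k12 1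
  14)))), (.s k150 k215 8 (.s k182 k121 10 (.s k166 k134 3 (.d k247 k167 k4 11 12)))), (.s k81 k162
  12 (.s k86 k84 0 (.s k89 k93 1 (.s k170 k8 12 (.d k165 k160 k244 2 12)))))] .n) (.c k251 (.q k91
  [(.s k81 k162 12 (.s k247 k167 11 (.s k166 k4 12 (.d k89 k93 k12 1 14)))), (.s k150 k215 8 (.s
  k182 k121 10 (.s k166 k134 3 (.d k247 k167 k4 11 12)))), (.s k81 k162 12 (.s k89 k93 1 (.s k121
  k182 10 (.s k105 k73 3 (.d k150 k215 k195 8 14)))))] .n) .n))) .n))) .n))))) (.c k171 (.q k87 [(.s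
  k81 k162 12 (.s k89 k93 1 (.s k121 k182 10 (.s k105 k73 3 (.d k150 k215 k195 8 14))))), (.s k84
  k86 0 (.s k148 k212 7 (.s k104 k192 13 (.s k124 k64 5 (.d k252 k188 k168 7 13)))))] (.c k7 (.q k11
  [(.s k81 k162 12 (.s k89 k93 1 (.s k121 k182 10 (.s k105 k73 3 (.d k150 k215 k195 8 14))))), (.s
  k84 k86 0 (.s k148 k212 7 (.s k104 k192 13 (.s k124 k64 5 (.d k252 k188 k168 7 13)))))] (.c k95
  (.q k175 [(.s k81 k162 12 (.s k150 k215 8 (.s k182 k121 10 (.s k166 k134 3 (.d k89 k93 k12 1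
  14))))), (.s k84 k86 0 (.s k148 k212 7 (.s k104 k192 13 (.s k124 k64 5 (.d k252 k188 k168 7
  13)))))] .n) (.c k175 (.q k95 [(.s k81 k162 12 (.s k83 k91 1 (.d k80 k82 k90 0 2))), (.s k81 k162
  12 (.s k83 k91 1 (.s k86 k84 0 (.d k89 k93 k92 1 2)))), (.s k83 k91 1 (.s k86 k84 0 (.s k90 k80 2
  (.s k92 k89 2 (.d k94 k93 k82 0 1)))))] (.c k83 (.l (.s k80 k90 2 (.s k81 k162 12 (.s k84 k86 0
  (.s k92 k88 1 (.d k93 k94 k89 0 1)))))) (.c k91 (.l (.s k80 k90 2 (.s k81 k162 12 (.s k83 k82 0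
  (.s k86 k84 0 (.d k89 k93 k92 1 2)))))) (.c k163 (.q k167 [(.s k81 k162 12 (.s k83 k91 1 (.d k80
  k82 k90 0 2))), (.s k83 k91 1 (.s k86 k84 0 (.s k90 k80 2 (.s k92 k89 2 (.d k94 k93 k82 0 1))))),
  (.s k81 k162 12 (.s k83 k91 1 (.s k86 k84 0 (.d k89 k93 k92 1 2))))] (.c k83 (.l (.s k80 k90 2 (.s
  k81 k162 12 (.s k84 k86 0 (.s k92 k88 1 (.d k93 k94 k89 0 1)))))) (.c k91 (.l (.s k80 k90 2 (.s
  k81 k162 12 (.s k83 k82 0 (.s k86 k84 0 (.d k89 k93 k92 1 2)))))) .n))) (.c k167 (.q k163 [(.s k81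
  k162 12 (.s k83 k91 1 (.d k80 k82 k90 0 2))), (.s k81 k162 12 (.s k83 k91 1 (.s k86 k84 0 (.d k89
  k93 k92 1 2)))), (.s k83 k91 1 (.s k86 k84 0 (.s k90 k80 2 (.s k92 k89 2 (.d k94 k93 k82 0 1))))),
  (.s k80 k90 2 (.s k162 k81 12 (.d k160 k240 k161 11 0)))] .n) .n))))) .n))) (.c k11 (.q k7 [(.s
  k81 k162 12 (.s k247 k167 11 (.s k166 k4 12 (.d k89 k93 k12 1 14)))), (.s k150 k215 8 (.s k182
  k121 10 (.s k166 k134 3 (.d k247 k167 k4 11 12)))), (.s k81 k162 12 (.s k89 k93 1 (.s k121 k182 10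
  (.s k105 k73 3 (.d k150 k215 k195 8 14)))))] (.c k91 (.q k251 [(.s k81 k162 12 (.s k89 k93 1 (.s
  k12 k166 14 (.d k8 k170 k4 12 1)))), (.s k150 k215 8 (.s k182 k121 10 (.s k166 k134 3 (.d k247
  k167 k4 11 12)))), (.s k81 k162 12 (.s k89 k93 1 (.s k121 k182 10 (.s k105 k73 3 (.d k150 k215
  k195 8 14)))))] (.c k95 (.q k175 [(.s k81 k162 12 (.s k247 k167 11 (.s k166 k4 12 (.d k89 k93 k12
  1 14)))), (.s k150 k215 8 (.s k182 k121 10 (.s k166 k134 3 (.d k247 k167 k4 11 12)))), (.s k81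
  k162 12 (.s k86 k84 0 (.s k89 k93 1 (.s k170 k8 12 (.d k165 k160 k244 2 12)))))] .n) (.c k175 (.q
  k95 [(.s k150 k215 8 (.s k182 k121 10 (.s k166 k134 3 (.d k247 k167 k4 11 12)))), (.s k80 k90 2
  (.s k81 k162 12 (.s k83 k82 0 (.s k86 k84 0 (.d k89 k93 k92 1 2)))))] (.c k163 (.l (.s k167 k247
  11 (.s k81 k162 12 (.s k89 k93 1 (.s k8 k170 12 (.d k12 k166 k4 14 1)))))) (.c k167 (.q k163 [(.s
  k162 k81 12 (.s k160 k161 0 (.d k80 k240 k90 11 2))), (.s k84 k86 0 (.s k148 k212 7 (.s k104 k192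
  13 (.s k124 k64 5 (.d k252 k188 k168 7 13)))))] .n) .n))) .n))) (.c k95 (.q k175 [(.s k81 k162 12
  (.s k247 k167 11 (.s k166 k4 12 (.d k89 k93 k12 1 14)))), (.s k150 k215 8 (.s k182 k121 10 (.s
  k166 k134 3 (.d k247 k167 k4 11 12)))), (.s k81 k162 12 (.s k89 k93 1 (.s k121 k182 10 (.s k105
  k73 3 (.d k150 k215 k195 8 14)))))] (.c k91 (.q k251 [(.s k81 k162 12 (.s k247 k167 11 (.s k166 k4
  12 (.d k89 k93 k12 1 14)))), (.s k150 k215 8 (.s k182 k121 10 (.s k166 k134 3 (.d k247 k167 k4 11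
  12)))), (.s k81 k162 12 (.s k86 k84 0 (.s k89 k93 1 (.s k170 k8 12 (.d k165 k160 k244 2 12)))))]
  .n) (.c k251 (.q k91 [(.s k81 k162 12 (.s k247 k167 11 (.s k166 k4 12 (.d k89 k93 k12 1 14)))),
  (.s k150 k215 8 (.s k182 k121 10 (.s k166 k134 3 (.d k247 k167 k4 11 12)))), (.s k81 k162 12 (.s
  k89 k93 1 (.s k121 k182 10 (.s k105 k73 3 (.d k150 k215 k195 8 14)))))] .n) .n))) (.c k175 (.q k95
  [(.s k80 k90 2 (.s k81 k162 12 (.d k83 k91 k82 1 0))), (.s k150 k215 8 (.s k182 k121 10 (.s k166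
  k134 3 (.d k247 k167 k4 11 12))))] (.c k91 (.q k251 [(.s k150 k215 8 (.s k182 k121 10 (.s k166
  k134 3 (.d k247 k167 k4 11 12)))), (.s k80 k90 2 (.s k81 k162 12 (.s k83 k82 0 (.s k86 k84 0 (.d
  k89 k93 k92 1 2)))))] (.c k163 (.l (.s k167 k247 11 (.s k81 k162 12 (.s k89 k93 1 (.s k8 k170 12
  (.d k12 k166 k4 14 1)))))) (.c k167 (.q k163 [(.s k162 k81 12 (.s k160 k161 0 (.d k80 k240 k90 11
  2))), (.s k84 k86 0 (.s k148 k212 7 (.s k104 k192 13 (.s k124 k64 5 (.d k252 k188 k168 7 13)))))]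
  .n) .n))) (.c k163 (.l (.s k167 k247 11 (.s k80 k90 2 (.s k81 k162 12 (.d k83 k82 k91 0 1))))) (.c
  k167 (.q k163 [(.s k80 k90 2 (.s k81 k162 12 (.d k83 k91 k82 1 0))), (.s k84 k86 0 (.s k148 k212 7
  (.s k104 k192 13 (.s k124 k64 5 (.d k252 k188 k168 7 13)))))] (.c k91 (.q k251 [(.s k162 k81 12
  (.s k160 k161 0 (.d k80 k240 k90 11 2))), (.s k84 k86 0 (.s k148 k212 7 (.s k104 k192 13 (.s k124
  k64 5 (.d k252 k188 k168 7 13)))))] .n) (.c k169 (.l (.s k162 k81 12 (.s k160 k161 0 (.d k80 k240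
  k90 11 2)))) (.c k251 (.l (.s k91 k83 1 (.s k80 k90 2 (.s k162 k81 12 (.d k160 k240 k161 11 0)))))
  .n)))) (.c k251 (.l (.s k91 k83 1 (.s k81 k162 12 (.s k89 k93 1 (.d k90 k88 k80 0 2))))) .n)))))
  (.c k251 (.q k91 [(.s k81 k162 12 (.s k95 k83 1 (.s k90 k80 2 (.d k89 k88 k93 0 1)))), (.s k150
  k215 8 (.s k182 k121 10 (.s k166 k134 3 (.d k247 k167 k4 11 12))))] (.c k95 (.q k175 [(.s k81 k162
  12 (.s k247 k167 11 (.s k166 k4 12 (.d k89 k93 k12 1 14)))), (.s k150 k215 8 (.s k182 k121 10 (.s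
  k166 k134 3 (.d k247 k167 k4 11 12)))), (.s k81 k162 12 (.s k89 k93 1 (.s k121 k182 10 (.s k105
  k73 3 (.d k150 k215 k195 8 14)))))] .n) (.c k175 (.l (.s k95 k83 1 (.s k81 k162 12 (.s k89 k93 1
  (.d k90 k88 k80 0 2))))) .n))) .n))))) (.c k95 (.q k175 [(.s k81 k162 12 (.s k150 k215 8 (.s k182
  k121 10 (.s k166 k134 3 (.d k89 k93 k12 1 14))))), (.s k84 k86 0 (.s k148 k212 7 (.s k104 k192 13
  (.s k124 k64 5 (.d k252 k188 k168 7 13)))))] (.c k7 (.q k11 [(.s k81 k162 12 (.s k150 k215 8 (.s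
  k182 k121 10 (.s k166 k134 3 (.d k89 k93 k12 1 14))))), (.s k84 k86 0 (.s k148 k212 7 (.s k104
  k192 13 (.s k124 k64 5 (.d k252 k188 k168 7 13)))))] .n) (.c k11 (.q k7 [(.s k81 k162 12 (.s k247
  k167 11 (.s k166 k4 12 (.d k89 k93 k12 1 14)))), (.s k150 k215 8 (.s k182 k121 10 (.s k166 k134 3
  (.d k247 k167 k4 11 12)))), (.s k81 k162 12 (.s k89 k93 1 (.s k121 k182 10 (.s k105 k73 3 (.d k150
  k215 k195 8 14)))))] (.c k91 (.q k251 [(.s k81 k162 12 (.s k247 k167 11 (.s k166 k4 12 (.d k89 k93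
  k12 1 14)))), (.s k150 k215 8 (.s k182 k121 10 (.s k166 k134 3 (.d k247 k167 k4 11 12)))), (.s k81
  k162 12 (.s k86 k84 0 (.s k89 k93 1 (.s k170 k8 12 (.d k165 k160 k244 2 12)))))] .n) (.c k251 (.q
  k91 [(.s k81 k162 12 (.s k247 k167 11 (.s k166 k4 12 (.d k89 k93 k12 1 14)))), (.s k150 k215 8 (.s
  k182 k121 10 (.s k166 k134 3 (.d k247 k167 k4 11 12)))), (.s k81 k162 12 (.s k89 k93 1 (.s k121
  k182 10 (.s k105 k73 3 (.d k150 k215 k195 8 14)))))] .n) .n))) .n))) (.c k175 (.q k95 [(.s k81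
  k162 12 (.s k83 k91 1 (.d k80 k82 k90 0 2))), (.s k81 k162 12 (.s k83 k91 1 (.s k86 k84 0 (.d k89
  k93 k92 1 2)))), (.s k83 k91 1 (.s k86 k84 0 (.s k90 k80 2 (.s k92 k89 2 (.d k94 k93 k82 0 1))))),
  (.s k80 k90 2 (.s k81 k162 12 (.s k84 k86 0 (.s k92 k88 1 (.d k93 k94 k89 0 1)))))] (.c k7 (.q k11
  [(.s k81 k162 12 (.s k83 k91 1 (.d k80 k82 k90 0 2))), (.s k81 k162 12 (.s k83 k91 1 (.s k86 k84 0
  (.d k89 k93 k92 1 2)))), (.s k83 k91 1 (.s k86 k84 0 (.s k90 k80 2 (.s k92 k89 2 (.d k94 k93 k82 0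
  1)))))] (.c k83 (.l (.s k80 k90 2 (.s k81 k162 12 (.s k84 k86 0 (.s k92 k88 1 (.d k93 k94 k89 0
  1)))))) (.c k91 (.l (.s k80 k90 2 (.s k81 k162 12 (.s k83 k82 0 (.s k86 k84 0 (.d k89 k93 k92 1
  2)))))) (.c k163 (.q k167 [(.s k81 k162 12 (.s k83 k91 1 (.d k80 k82 k90 0 2))), (.s k83 k91 1 (.s
  k86 k84 0 (.s k90 k80 2 (.s k92 k89 2 (.d k94 k93 k82 0 1))))), (.s k81 k162 12 (.s k83 k91 1 (.s
  k86 k84 0 (.d k89 k93 k92 1 2))))] (.c k83 (.l (.s k80 k90 2 (.s k81 k162 12 (.s k84 k86 0 (.s k92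
  k88 1 (.d k93 k94 k89 0 1)))))) (.c k91 (.l (.s k80 k90 2 (.s k81 k162 12 (.s k83 k82 0 (.s k86
  k84 0 (.d k89 k93 k92 1 2)))))) .n))) (.c k167 (.q k163 [(.s k81 k162 12 (.s k83 k91 1 (.d k80 k82
  k90 0 2))), (.s k81 k162 12 (.s k83 k91 1 (.s k86 k84 0 (.d k89 k93 k92 1 2)))), (.s k83 k91 1 (.s
  k86 k84 0 (.s k90 k80 2 (.s k92 k89 2 (.d k94 k93 k82 0 1))))), (.s k80 k90 2 (.s k162 k81 12 (.d
  k160 k240 k161 11 0)))] .n) .n))))) (.c k11 (.q k7 [(.s k80 k90 2 (.s k81 k162 12 (.d k83 k91 k82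
  1 0))), (.s k150 k215 8 (.s k182 k121 10 (.s k166 k134 3 (.d k247 k167 k4 11 12))))] (.c k91 (.q
  k251 [(.s k150 k215 8 (.s k182 k121 10 (.s k166 k134 3 (.d k247 k167 k4 11 12)))), (.s k80 k90 2
  (.s k81 k162 12 (.s k83 k82 0 (.s k86 k84 0 (.d k89 k93 k92 1 2)))))] (.c k163 (.l (.s k167 k247
  11 (.s k81 k162 12 (.s k89 k93 1 (.s k8 k170 12 (.d k12 k166 k4 14 1)))))) (.c k167 (.q k163 [(.s
  k162 k81 12 (.s k160 k161 0 (.d k80 k240 k90 11 2))), (.s k84 k86 0 (.s k148 k212 7 (.s k104 k192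
  13 (.s k124 k64 5 (.d k252 k188 k168 7 13)))))] .n) .n))) (.c k163 (.l (.s k167 k247 11 (.s k80
  k90 2 (.s k81 k162 12 (.d k83 k82 k91 0 1))))) (.c k167 (.q k163 [(.s k80 k90 2 (.s k81 k162 12
  (.d k83 k91 k82 1 0))), (.s k84 k86 0 (.s k148 k212 7 (.s k104 k192 13 (.s k124 k64 5 (.d k252
  k188 k168 7 13)))))] (.c k91 (.q k251 [(.s k162 k81 12 (.s k160 k161 0 (.d k80 k240 k90 11 2))),
  (.s k84 k86 0 (.s k148 k212 7 (.s k104 k192 13 (.s k124 k64 5 (.d k252 k188 k168 7 13)))))] .n)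
  (.c k169 (.l (.s k162 k81 12 (.s k160 k161 0 (.d k80 k240 k90 11 2)))) (.c k251 (.l (.s k91 k83 1
  (.s k80 k90 2 (.s k162 k81 12 (.d k160 k240 k161 11 0))))) .n)))) (.c k251 (.l (.s k91 k83 1 (.s
  k81 k162 12 (.s k89 k93 1 (.d k90 k88 k80 0 2))))) .n))))) (.c k91 (.l (.s k80 k90 2 (.s k81 k162
  12 (.s k83 k82 0 (.s k86 k84 0 (.d k89 k93 k92 1 2)))))) (.c k163 (.q k167 [(.s k150 k215 8 (.s
  k182 k121 10 (.s k166 k134 3 (.d k247 k7 k4 11 12)))), (.s k80 k90 2 (.s k81 k162 12 (.d k83 k82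
  k91 0 1)))] (.c k7 (.q k11 [(.s k81 k162 12 (.s k83 k91 1 (.d k80 k82 k90 0 2))), (.s k83 k91 1
  (.s k86 k84 0 (.s k90 k80 2 (.s k92 k89 2 (.d k94 k93 k82 0 1))))), (.s k81 k162 12 (.s k83 k91 1
  (.s k86 k84 0 (.d k89 k93 k92 1 2))))] (.c k83 (.l (.s k80 k90 2 (.s k81 k162 12 (.s k84 k86 0 (.s
  k92 k88 1 (.d k93 k94 k89 0 1)))))) (.c k91 (.l (.s k80 k90 2 (.s k81 k162 12 (.s k83 k82 0 (.s
  k86 k84 0 (.d k89 k93 k92 1 2)))))) .n))) (.c k11 (.l (.s k7 k247 11 (.s k80 k90 2 (.s k81 k162 12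
  (.d k83 k82 k91 0 1))))) .n))) (.c k167 (.q k163 [(.s k80 k90 2 (.s k162 k81 12 (.d k160 k240 k161
  11 0))), (.s k81 k162 12 (.s k83 k91 1 (.s k86 k84 0 (.d k89 k93 k92 1 2)))), (.s k83 k91 1 (.s
  k86 k84 0 (.s k90 k80 2 (.s k92 k89 2 (.d k94 k93 k82 0 1)))))] (.c k7 (.q k11 [(.s k81 k162 12
  (.s k83 k91 1 (.d k80 k82 k90 0 2))), (.s k81 k162 12 (.s k83 k91 1 (.s k86 k84 0 (.d k89 k93 k92
  1 2)))), (.s k83 k91 1 (.s k86 k84 0 (.s k90 k80 2 (.s k92 k89 2 (.d k94 k93 k82 0 1))))), (.s k80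
  k90 2 (.s k162 k81 12 (.d k160 k240 k161 11 0)))] .n) (.c k11 (.q k7 [(.s k80 k90 2 (.s k81 k162
  12 (.d k83 k91 k82 1 0))), (.s k84 k86 0 (.s k148 k212 7 (.s k104 k192 13 (.s k124 k64 5 (.d k252
  k188 k168 7 13)))))] (.c k91 (.q k251 [(.s k162 k81 12 (.s k160 k161 0 (.d k80 k240 k90 11 2))),
  (.s k84 k86 0 (.s k148 k212 7 (.s k104 k192 13 (.s k124 k64 5 (.d k252 k188 k168 7 13)))))] .n)
  (.c k169 (.l (.s k162 k81 12 (.s k160 k161 0 (.d k80 k240 k90 11 2)))) (.c k251 (.l (.s k91 k83 1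
  (.s k80 k90 2 (.s k162 k81 12 (.d k160 k240 k161 11 0))))) .n)))) .n))) .n)))))) .n))))) (.c k175
  (.q k95 [(.s k81 k162 12 (.s k89 k93 1 (.s k121 k182 10 (.s k105 k73 3 (.d k150 k215 k195 8
  14))))), (.s k80 k90 2 (.s k121 k182 10 (.s k240 k160 11 (.s k120 k180 9 (.s k122 k123 0 (.s k181
  k63 10 (.d k241 k242 k61 0 9))))))), (.s k81 k162 12 (.s k89 k93 1 (.s k12 k166 14 (.s k28 k44 3
  (.d k150 k215 k211 8 10)))))] (.c k7 (.q k11 [(.s k81 k162 12 (.s k89 k93 1 (.s k121 k182 10 (.s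
  k105 k73 3 (.d k150 k215 k195 8 14))))), (.s k80 k90 2 (.s k121 k182 10 (.s k240 k160 11 (.s k120
  k180 9 (.s k122 k123 0 (.s k181 k63 10 (.d k241 k242 k61 0 9))))))), (.s k81 k162 12 (.s k89 k93 1
  (.s k12 k166 14 (.s k28 k44 3 (.d k150 k215 k211 8 10)))))] (.c k87 (.q k171 [(.s k81 k162 12 (.s
  k90 k80 2 (.s k91 k251 11 (.d k89 k88 k93 0 1)))), (.s k150 k215 8 (.s k182 k121 10 (.s k166 k134
  3 (.s k12 k89 14 (.d k4 k247 k8 12 1)))))] (.c k89 (.l (.s k90 k80 2 (.s k150 k215 8 (.s k169 k248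
  12 (.s k168 k170 0 (.s k188 k131 6 (.d k252 k124 k84 7 13))))))) (.c k167 (.q k247 [(.s k81 k162
  12 (.s k89 k93 1 (.d k166 k12 k4 14 12))), (.s k4 k166 12 (.s k52 k36 3 (.d k182 k117 k121 8
  10))), (.s k81 k162 12 (.s k89 k93 1 (.s k90 k80 2 (.d k91 k88 k251 0 11))))] .n) (.c k247 (.q
  k167 [(.s k81 k162 12 (.s k90 k80 2 (.s k91 k251 11 (.d k89 k88 k93 0 1)))), (.s k90 k80 2 (.s
  k150 k215 8 (.s k169 k248 12 (.s k168 k170 0 (.s k188 k131 6 (.d k252 k124 k84 7 13)))))), (.s k81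
  k162 12 (.s k89 k93 1 (.s k12 k166 14 (.s k8 k4 1 (.d k251 k170 k91 12 11)))))] .n) .n)))) (.c
  k171 (.q k87 [(.s k81 k162 12 (.s k83 k91 1 (.d k80 k82 k90 0 2))), (.s k81 k162 12 (.s k83 k91 1
  (.s k86 k84 0 (.d k89 k93 k92 1 2)))), (.s k83 k91 1 (.s k86 k84 0 (.s k90 k80 2 (.s k92 k89 2 (.d
  k94 k93 k82 0 1)))))] (.c k83 (.l (.s k80 k90 2 (.s k81 k162 12 (.s k84 k86 0 (.s k92 k88 1 (.d
  k93 k94 k89 0 1)))))) (.c k91 (.l (.s k80 k90 2 (.s k81 k162 12 (.s k83 k82 0 (.s k86 k84 0 (.d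
  k89 k93 k92 1 2)))))) (.c k163 (.q k167 [(.s k81 k162 12 (.s k83 k91 1 (.d k80 k82 k90 0 2))), (.s
  k83 k91 1 (.s k86 k84 0 (.s k90 k80 2 (.s k92 k89 2 (.d k94 k93 k82 0 1))))), (.s k81 k162 12 (.s
  k83 k91 1 (.s k86 k84 0 (.d k89 k93 k92 1 2))))] (.c k83 (.l (.s k80 k90 2 (.s k81 k162 12 (.s k84
  k86 0 (.s k92 k88 1 (.d k93 k94 k89 0 1)))))) (.c k91 (.l (.s k80 k90 2 (.s k81 k162 12 (.s k83
  k82 0 (.s k86 k84 0 (.d k89 k93 k92 1 2)))))) .n))) (.c k167 (.q k163 [(.s k81 k162 12 (.s k83 k91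
  1 (.d k80 k82 k90 0 2))), (.s k81 k162 12 (.s k83 k91 1 (.s k86 k84 0 (.d k89 k93 k92 1 2)))), (.s
  k83 k91 1 (.s k86 k84 0 (.s k90 k80 2 (.s k92 k89 2 (.d k94 k93 k82 0 1))))), (.s k80 k90 2 (.s
  k162 k81 12 (.d k160 k240 k161 11 0)))] .n) .n))))) .n))) (.c k11 (.q k7 [(.s k81 k162 12 (.s k89
  k93 1 (.s k121 k182 10 (.s k105 k73 3 (.d k150 k215 k195 8 14))))), (.s k80 k90 2 (.s k121 k182 10
  (.s k240 k160 11 (.s k120 k180 9 (.s k122 k123 0 (.s k181 k63 10 (.d k241 k242 k61 0 9))))))), (.s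
  k81 k162 12 (.s k89 k93 1 (.s k12 k166 14 (.s k28 k44 3 (.d k150 k215 k211 8 10)))))] (.c k87 (.q
  k171 [(.s k81 k162 12 (.s k89 k93 1 (.s k121 k182 10 (.s k105 k73 3 (.d k150 k215 k195 8 14))))),
  (.s k80 k90 2 (.s k121 k182 10 (.s k240 k160 11 (.s k120 k180 9 (.s k122 k123 0 (.s k181 k63 10
  (.d k241 k242 k61 0 9))))))), (.s k81 k162 12 (.s k89 k93 1 (.s k12 k166 14 (.s k28 k44 3 (.d k150
  k215 k211 8 10)))))] .n) (.c k171 (.q k87 [(.s k80 k90 2 (.s k81 k162 12 (.d k83 k91 k82 1 0))),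
  (.s k150 k215 8 (.s k182 k121 10 (.s k166 k134 3 (.d k247 k167 k4 11 12))))] (.c k91 (.q k251 [(.s
  k150 k215 8 (.s k182 k121 10 (.s k166 k134 3 (.d k247 k167 k4 11 12)))), (.s k80 k90 2 (.s k81
  k162 12 (.s k83 k82 0 (.s k86 k84 0 (.d k89 k93 k92 1 2)))))] (.c k163 (.l (.s k167 k247 11 (.s
  k81 k162 12 (.s k89 k93 1 (.s k8 k170 12 (.d k12 k166 k4 14 1)))))) (.c k167 (.q k163 [(.s k162
  k81 12 (.s k160 k161 0 (.d k80 k240 k90 11 2))), (.s k84 k86 0 (.s k148 k212 7 (.s k104 k192 13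
  (.s k124 k64 5 (.d k252 k188 k168 7 13)))))] .n) .n))) (.c k163 (.l (.s k167 k247 11 (.s k80 k90 2
  (.s k81 k162 12 (.d k83 k82 k91 0 1))))) (.c k167 (.q k163 [(.s k80 k90 2 (.s k81 k162 12 (.d k83
  k91 k82 1 0))), (.s k84 k86 0 (.s k148 k212 7 (.s k104 k192 13 (.s k124 k64 5 (.d k252 k188 k168 7
  13)))))] (.c k91 (.q k251 [(.s k162 k81 12 (.s k160 k161 0 (.d k80 k240 k90 11 2))), (.s k84 k86 0
  (.s k148 k212 7 (.s k104 k192 13 (.s k124 k64 5 (.d k252 k188 k168 7 13)))))] .n) (.c k169 (.l (.s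
  k162 k81 12 (.s k160 k161 0 (.d k80 k240 k90 11 2)))) (.c k251 (.l (.s k91 k83 1 (.s k80 k90 2 (.s
  k162 k81 12 (.d k160 k240 k161 11 0))))) .n)))) (.c k251 (.l (.s k91 k83 1 (.s k81 k162 12 (.s k89
  k93 1 (.d k90 k88 k80 0 2))))) .n))))) .n))) (.c k87 (.q k171 [(.s k81 k162 12 (.s k89 k93 1 (.s
  k121 k182 10 (.s k105 k73 3 (.d k150 k215 k195 8 14))))), (.s k80 k90 2 (.s k121 k182 10 (.s k240
  k160 11 (.s k120 k180 9 (.s k122 k123 0 (.s k181 k63 10 (.d k241 k242 k61 0 9))))))), (.s k81 k162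
  12 (.s k89 k93 1 (.s k12 k166 14 (.s k28 k44 3 (.d k150 k215 k211 8 10)))))] (.c k7 (.q k11 [(.s
  k81 k162 12 (.s k90 k80 2 (.s k91 k251 11 (.d k89 k88 k93 0 1)))), (.s k150 k215 8 (.s k182 k121
  10 (.s k166 k134 3 (.s k12 k89 14 (.d k4 k247 k8 12 1)))))] (.c k89 (.l (.s k90 k80 2 (.s k150
  k215 8 (.s k169 k248 12 (.s k168 k170 0 (.s k188 k131 6 (.d k252 k124 k84 7 13))))))) (.c k167 (.q
  k247 [(.s k81 k162 12 (.s k89 k93 1 (.d k166 k12 k4 14 12))), (.s k4 k166 12 (.s k52 k36 3 (.d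
  k182 k117 k121 8 10))), (.s k81 k162 12 (.s k89 k93 1 (.s k90 k80 2 (.d k91 k88 k251 0 11))))] .n)
  (.c k247 (.q k167 [(.s k81 k162 12 (.s k90 k80 2 (.s k91 k251 11 (.d k89 k88 k93 0 1)))), (.s k90
  k80 2 (.s k150 k215 8 (.s k169 k248 12 (.s k168 k170 0 (.s k188 k131 6 (.d k252 k124 k84 7
  13)))))), (.s k81 k162 12 (.s k89 k93 1 (.s k12 k166 14 (.s k8 k4 1 (.d k251 k170 k91 12 11)))))]
  .n) .n)))) (.c k11 (.q k7 [(.s k81 k162 12 (.s k89 k93 1 (.s k121 k182 10 (.s k105 k73 3 (.d k150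
  k215 k195 8 14))))), (.s k80 k90 2 (.s k121 k182 10 (.s k240 k160 11 (.s k120 k180 9 (.s k122 k123
  0 (.s k181 k63 10 (.d k241 k242 k61 0 9))))))), (.s k81 k162 12 (.s k89 k93 1 (.s k12 k166 14 (.s
  k28 k44 3 (.d k150 k215 k211 8 10)))))] .n) .n))) (.c k171 (.q k87 [(.s k81 k162 12 (.s k83 k91 1
  (.d k80 k82 k90 0 2))), (.s k81 k162 12 (.s k83 k91 1 (.s k86 k84 0 (.d k89 k93 k92 1 2)))), (.s
  k83 k91 1 (.s k86 k84 0 (.s k90 k80 2 (.s k92 k89 2 (.d k94 k93 k82 0 1))))), (.s k80 k90 2 (.s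
  k81 k162 12 (.s k84 k86 0 (.s k92 k88 1 (.d k93 k94 k89 0 1)))))] (.c k7 (.q k11 [(.s k81 k162 12
  (.s k83 k91 1 (.d k80 k82 k90 0 2))), (.s k81 k162 12 (.s k83 k91 1 (.s k86 k84 0 (.d k89 k93 k92
  1 2)))), (.s k83 k91 1 (.s k86 k84 0 (.s k90 k80 2 (.s k92 k89 2 (.d k94 k93 k82 0 1)))))] (.c k83
  (.l (.s k80 k90 2 (.s k81 k162 12 (.s k84 k86 0 (.s k92 k88 1 (.d k93 k94 k89 0 1)))))) (.c k91
  (.l (.s k80 k90 2 (.s k81 k162 12 (.s k83 k82 0 (.s k86 k84 0 (.d k89 k93 k92 1 2)))))) (.c k163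
  (.q k167 [(.s k81 k162 12 (.s k83 k91 1 (.d k80 k82 k90 0 2))), (.s k83 k91 1 (.s k86 k84 0 (.s
  k90 k80 2 (.s k92 k89 2 (.d k94 k93 k82 0 1))))), (.s k81 k162 12 (.s k83 k91 1 (.s k86 k84 0 (.d
  k89 k93 k92 1 2))))] (.c k83 (.l (.s k80 k90 2 (.s k81 k162 12 (.s k84 k86 0 (.s k92 k88 1 (.d k93
  k94 k89 0 1)))))) (.c k91 (.l (.s k80 k90 2 (.s k81 k162 12 (.s k83 k82 0 (.s k86 k84 0 (.d k89
  k93 k92 1 2)))))) .n))) (.c k167 (.q k163 [(.s k81 k162 12 (.s k83 k91 1 (.d k80 k82 k90 0 2))),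
  (.s k81 k162 12 (.s k83 k91 1 (.s k86 k84 0 (.d k89 k93 k92 1 2)))), (.s k83 k91 1 (.s k86 k84 0
  (.s k90 k80 2 (.s k92 k89 2 (.d k94 k93 k82 0 1))))), (.s k80 k90 2 (.s k162 k81 12 (.d k160 k240
  k161 11 0)))] .n) .n))))) (.c k11 (.q k7 [(.s k80 k90 2 (.s k81 k162 12 (.d k83 k91 k82 1 0))),
  (.s k150 k215 8 (.s k182 k121 10 (.s k166 k134 3 (.d k247 k167 k4 11 12))))] (.c k91 (.q k251 [(.s
  k150 k215 8 (.s k182 k121 10 (.s k166 k134 3 (.d k247 k167 k4 11 12)))), (.s k80 k90 2 (.s k81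
  k162 12 (.s k83 k82 0 (.s k86 k84 0 (.d k89 k93 k92 1 2)))))] (.c k163 (.l (.s k167 k247 11 (.s
  k81 k162 12 (.s k89 k93 1 (.s k8 k170 12 (.d k12 k166 k4 14 1)))))) (.c k167 (.q k163 [(.s k162
  k81 12 (.s k160 k161 0 (.d k80 k240 k90 11 2))), (.s k84 k86 0 (.s k148 k212 7 (.s k104 k192 13
  (.s k124 k64 5 (.d k252 k188 k168 7 13)))))] .n) .n))) (.c k163 (.l (.s k167 k247 11 (.s k80 k90 2
  (.s k81 k162 12 (.d k83 k82 k91 0 1))))) (.c k167 (.q k163 [(.s k80 k90 2 (.s k81 k162 12 (.d k83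
  k91 k82 1 0))), (.s k84 k86 0 (.s k148 k212 7 (.s k104 k192 13 (.s k124 k64 5 (.d k252 k188 k168 7
  13)))))] (.c k91 (.q k251 [(.s k162 k81 12 (.s k160 k161 0 (.d k80 k240 k90 11 2))), (.s k84 k86 0
  (.s k148 k212 7 (.s k104 k192 13 (.s k124 k64 5 (.d k252 k188 k168 7 13)))))] .n) (.c k169 (.l (.s
  k162 k81 12 (.s k160 k161 0 (.d k80 k240 k90 11 2)))) (.c k251 (.l (.s k91 k83 1 (.s k80 k90 2 (.s
  k162 k81 12 (.d k160 k240 k161 11 0))))) .n)))) (.c k251 (.l (.s k91 k83 1 (.s k81 k162 12 (.s k89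
  k93 1 (.d k90 k88 k80 0 2))))) .n))))) (.c k91 (.l (.s k80 k90 2 (.s k81 k162 12 (.s k83 k82 0 (.s
  k86 k84 0 (.d k89 k93 k92 1 2)))))) (.c k163 (.q k167 [(.s k150 k215 8 (.s k182 k121 10 (.s k166
  k134 3 (.d k247 k7 k4 11 12)))), (.s k80 k90 2 (.s k81 k162 12 (.d k83 k82 k91 0 1)))] (.c k7 (.q
  k11 [(.s k81 k162 12 (.s k83 k91 1 (.d k80 k82 k90 0 2))), (.s k83 k91 1 (.s k86 k84 0 (.s k90 k80
  2 (.s k92 k89 2 (.d k94 k93 k82 0 1))))), (.s k81 k162 12 (.s k83 k91 1 (.s k86 k84 0 (.d k89 k93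
  k92 1 2))))] (.c k83 (.l (.s k80 k90 2 (.s k81 k162 12 (.s k84 k86 0 (.s k92 k88 1 (.d k93 k94 k89
  0 1)))))) (.c k91 (.l (.s k80 k90 2 (.s k81 k162 12 (.s k83 k82 0 (.s k86 k84 0 (.d k89 k93 k92 1
  2)))))) .n))) (.c k11 (.l (.s k7 k247 11 (.s k80 k90 2 (.s k81 k162 12 (.d k83 k82 k91 0 1)))))
  .n))) (.c k167 (.q k163 [(.s k80 k90 2 (.s k162 k81 12 (.d k160 k240 k161 11 0))), (.s k81 k162 12
  (.s k83 k91 1 (.s k86 k84 0 (.d k89 k93 k92 1 2)))), (.s k83 k91 1 (.s k86 k84 0 (.s k90 k80 2 (.s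
  k92 k89 2 (.d k94 k93 k82 0 1)))))] (.c k7 (.q k11 [(.s k81 k162 12 (.s k83 k91 1 (.d k80 k82 k90
  0 2))), (.s k81 k162 12 (.s k83 k91 1 (.s k86 k84 0 (.d k89 k93 k92 1 2)))), (.s k83 k91 1 (.s k86
  k84 0 (.s k90 k80 2 (.s k92 k89 2 (.d k94 k93 k82 0 1))))), (.s k80 k90 2 (.s k162 k81 12 (.d k160
  k240 k161 11 0)))] .n) (.c k11 (.q k7 [(.s k80 k90 2 (.s k81 k162 12 (.d k83 k91 k82 1 0))), (.s
  k84 k86 0 (.s k148 k212 7 (.s k104 k192 13 (.s k124 k64 5 (.d k252 k188 k168 7 13)))))] (.c k91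
  (.q k251 [(.s k162 k81 12 (.s k160 k161 0 (.d k80 k240 k90 11 2))), (.s k84 k86 0 (.s k148 k212 7
  (.s k104 k192 13 (.s k124 k64 5 (.d k252 k188 k168 7 13)))))] .n) (.c k169 (.l (.s k162 k81 12 (.s
  k160 k161 0 (.d k80 k240 k90 11 2)))) (.c k251 (.l (.s k91 k83 1 (.s k80 k90 2 (.s k162 k81 12 (.d
  k160 k240 k161 11 0))))) .n)))) .n))) .n)))))) .n))))) .n))))))))

def t3_15 : T TT 256 :=
  (.q k60 [] (.c k1 s3_15_1 (.c k2 s3_15_2 (.c k4 s3_15_4 (.c k5 s3_15_5 (.c k6 s3_15_6 (.c k7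
  s3_15_7 (.c k8 s3_15_8 (.c k9 s3_15_9 (.c k10 s3_15_10 (.c k11 s3_15_11 (.c k12 s3_15_12 (.c k13
  s3_15_13 (.c k14 s3_15_14 (.c k16 s3_15_16 (.c k17 s3_15_17 (.c k18 s3_15_18 (.c k19 s3_15_19 (.c
  k20 s3_15_20 (.c k21 s3_15_21 (.c k22 s3_15_22 (.c k23 s3_15_23 (.c k24 s3_15_24 (.c k25 s3_15_25
  (.c k26 s3_15_26 (.c k27 s3_15_27 (.c k28 s3_15_28 (.c k29 s3_15_29 (.c k30 s3_15_30 (.c k31
  s3_15_31 (.c k32 s3_15_32 (.c k33 s3_15_33 (.c k34 s3_15_34 (.c k35 s3_15_35 (.c k36 s3_15_36 (.c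
  k37 s3_15_37 (.c k38 s3_15_38 (.c k39 s3_15_39 (.c k40 s3_15_40 (.c k41 s3_15_41 (.c k42 s3_15_42
  (.c k43 s3_15_43 (.c k44 s3_15_44 (.c k45 s3_15_45 (.c k46 s3_15_46 (.c k47 s3_15_47 (.c k48
  s3_15_48 (.c k49 s3_15_49 (.c k50 s3_15_50 (.c k51 s3_15_51 (.c k52 s3_15_52 (.c k53 s3_15_53 (.c
  k54 s3_15_54 (.c k55 s3_15_55 (.c k56 s3_15_56 (.c k57 s3_15_57 (.c k58 s3_15_58 (.c k59 s3_15_59
  (.c k61 s3_15_61 (.c k62 s3_15_62 (.c k63 s3_15_63 (.c k64 s3_15_64 (.c k65 s3_15_65 (.c k66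
  s3_15_66 (.c k67 s3_15_67 (.c k68 s3_15_68 (.c k69 s3_15_69 (.c k70 s3_15_70 (.c k71 s3_15_71 (.c
  k72 s3_15_72 (.c k73 s3_15_73 (.c k74 s3_15_74 (.c k75 s3_15_75 (.c k76 s3_15_76 (.c k77 s3_15_77
  (.c k78 s3_15_78 (.c k79 s3_15_79 (.c k80 s3_15_80 (.c k81 s3_15_81 (.c k82 s3_15_82 (.c k83
  s3_15_83 (.c k84 s3_15_84 (.c k86 s3_15_86 (.c k87 s3_15_87 (.c k88 s3_15_88 (.c k89 s3_15_89 (.c
  k90 s3_15_90 (.c k91 s3_15_91 (.c k92 s3_15_92 (.c k93 s3_15_93 (.c k94 s3_15_94 (.c k95 s3_15_95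
  (.c k96 s3_15_96 (.c k97 s3_15_97 (.c k98 s3_15_98 (.c k99 s3_15_99 (.c k100 s3_15_100 (.c k101
  s3_15_101 (.c k102 s3_15_102 (.c k103 s3_15_103 (.c k104 s3_15_104 (.c k105 s3_15_105 (.c k106
  s3_15_106 (.c k107 s3_15_107 (.c k108 s3_15_108 (.c k109 s3_15_109 (.c k110 s3_15_110 (.c k111
  s3_15_111 (.c k112 s3_15_112 (.c k113 s3_15_113 (.c k114 s3_15_114 (.c k115 s3_15_115 (.c k116
  s3_15_116 (.c k117 s3_15_117 (.c k118 s3_15_118 (.c k119 s3_15_119 (.c k120 s3_15_120 (.c k121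
  s3_15_121 (.c k122 s3_15_122 (.c k123 s3_15_123 (.c k124 s3_15_124 (.c k125 s3_15_125 (.c k126
  s3_15_126 (.c k127 s3_15_127 (.c k128 s3_15_128 (.c k129 s3_15_129 (.c k130 s3_15_130 (.c k131
  s3_15_131 (.c k132 s3_15_132 (.c k133 s3_15_133 (.c k134 s3_15_134 (.c k135 s3_15_135 (.c k136
  s3_15_136 (.c k137 s3_15_137 (.c k138 s3_15_138 (.c k139 s3_15_139 (.c k140 s3_15_140 (.c k141
  s3_15_141 (.c k142 s3_15_142 (.c k143 s3_15_143 (.c k144 s3_15_144 (.c k145 s3_15_145 (.c k146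
  s3_15_146 (.c k147 s3_15_147 (.c k148 s3_15_148 (.c k149 s3_15_149 (.c k150 s3_15_150 (.c k151
  s3_15_151 (.c k152 s3_15_152 (.c k153 s3_15_153 (.c k154 s3_15_154 (.c k155 s3_15_155 (.c k156
  s3_15_156 (.c k157 s3_15_157 (.c k158 s3_15_158 (.c k159 s3_15_159 (.c k160 s3_15_160 (.c k161
  s3_15_161 (.c k162 s3_15_162 (.c k163 s3_15_163 (.c k164 s3_15_164 (.c k165 s3_15_165 (.c k166
  s3_15_166 (.c k167 s3_15_167 (.c k168 s3_15_168 (.c k169 s3_15_169 (.c k170 s3_15_170 (.c k171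
  s3_15_171 (.c k172 s3_15_172 (.c k173 s3_15_173 (.c k174 s3_15_174 (.c k175 s3_15_175 (.c k176
  s3_15_176 (.c k177 s3_15_177 (.c k178 s3_15_178 (.c k179 s3_15_179 (.c k180 s3_15_180 (.c k181
  s3_15_181 (.c k182 s3_15_182 (.c k183 s3_15_183 (.c k184 s3_15_184 (.c k185 s3_15_185 (.c k186
  s3_15_186 (.c k187 s3_15_187 (.c k188 s3_15_188 (.c k189 s3_15_189 (.c k190 s3_15_190 (.c k191
  s3_15_191 (.c k192 s3_15_192 (.c k193 s3_15_193 (.c k194 s3_15_194 (.c k195 s3_15_195 (.c k196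
  s3_15_196 (.c k197 s3_15_197 (.c k198 s3_15_198 (.c k199 s3_15_199 (.c k200 s3_15_200 (.c k201
  s3_15_201 (.c k202 s3_15_202 (.c k203 s3_15_203 (.c k204 s3_15_204 (.c k205 s3_15_205 (.c k206
  s3_15_206 (.c k207 s3_15_207 (.c k208 s3_15_208 (.c k209 s3_15_209 (.c k210 s3_15_210 (.c k211
  s3_15_211 (.c k212 s3_15_212 (.c k213 s3_15_213 (.c k214 s3_15_214 (.c k215 s3_15_215 (.c k216
  s3_15_216 (.c k217 s3_15_217 (.c k218 s3_15_218 (.c k219 s3_15_219 (.c k220 s3_15_220 (.c k221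
  s3_15_221 (.c k222 s3_15_222 (.c k223 s3_15_223 (.c k224 s3_15_224 (.c k225 s3_15_225 (.c k226
  s3_15_226 (.c k227 s3_15_227 (.c k228 s3_15_228 (.c k229 s3_15_229 (.c k230 s3_15_230 (.c k231
  s3_15_231 (.c k232 s3_15_232 (.c k233 s3_15_233 (.c k234 s3_15_234 (.c k235 s3_15_235 (.c k236
  s3_15_236 (.c k237 s3_15_237 (.c k238 s3_15_238 (.c k239 s3_15_239 (.c k240 s3_15_240 (.c k241
  s3_15_241 (.c k242 s3_15_242 (.c k243 s3_15_243 (.c k244 s3_15_244 (.c k245 s3_15_245 (.c k246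
  s3_15_246 (.c k247 s3_15_247 (.c k248 s3_15_248 (.c k249 s3_15_249 (.c k250 s3_15_250 (.c k251
  s3_15_251 (.c k252 s3_15_252 (.c k253 s3_15_253 (.c k254 s3_15_254 (.c k255 s3_15_255
  .n))))))))))))))))))))))))))))))))))))))))))))))))))))))))))))))))))))))))))))))))
  ))))))))))))))))))))))))))))))))))))))))))))))))))))))))))))))))))))))))))))))))
  )))))))))))))))))))))))))))))))))))))))))))))))))))))))))))))))))))))))))))))))) ))))))))))))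

/-- roots with certificates -/
def certs : List (Cell TT 256 × Cell TT 256 × T TT 256) :=
  [(k2, k255, t2_255), (k3, k15, t3_15)]

theorem c2_255 : rootOK k2 k255 t2_255 = true := by decide +kernel

theorem c3_15 : rootOK k3 k15 t3_15 = true := by decide +kernel

theorem ok : certsOK certs = true :=
  certsOK_cons c2_255 (certsOK_cons c3_15 (certsOK_nil))

theorem sound (k : Nat) (hk : (bits certs).testBit k = true) : PI k :=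
  certs_sound certs ok k hk

end Pool.Agent.TTT.B02
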