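import Pool.Agent.TTT.Sym

set_option autoImplicit false
set_option maxRecDepth 100000

namespace Pool.Agent.TTT.B03

def s3_170_1 : T TT 256 :=
  (.q k21 [(.s k53 k37 3 (.s k149 k213 7 (.s k101 k197 11 (.s k117 k69 3 (.d k245 k181 k165 7
  11))))), (.s k15 k10 2 (.s k37 k53 3 (.s k26 k48 6 (.s k31 k16 2 (.d k63 k47 k42 3 6))))), (.s k15
  k10 2 (.s k63 k42 6 (.s k47 k31 3 (.s k149 k213 7 (.s k106 k192 14 (.d k165 k224 k245 10 11))))))]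
  .n)

def s3_170_2 : T TT 256 :=
  (.f k165 k245 11 (.q k86 [(.s k7 k244 12 (.s k87 k84 0 (.s k247 k167 11 (.d k4 k6 k166 0 12)))),
  (.s k15 k10 2 (.s k84 k87 0 (.s k90 k240 14 (.s k252 k168 13 (.d k94 k82 k173 1 12))))), (.s k7
  k244 12 (.s k4 k6 0 (.s k12 k8 1 (.s k15 k10 2 (.s k14 k13 0 (.s k90 k240 14 (.d k166 k247 k242 12
  13)))))))] (.c k6 (.l (.s k84 k87 0 (.s k244 k7 12 (.s k252 k168 13 (.s k240 k248 1 (.d k15 k10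
  k90 2 14)))))) .n)))

def s3_170_4 : T TT 256 :=
  (.q k21 [(.s k53 k37 3 (.s k149 k213 7 (.s k101 k197 11 (.s k117 k69 3 (.d k245 k181 k165 7
  11))))), (.s k15 k10 2 (.s k37 k53 3 (.s k26 k48 6 (.s k31 k16 2 (.d k63 k47 k42 3 6))))), (.s k15
  k10 2 (.s k63 k42 6 (.s k47 k31 3 (.s k149 k213 7 (.s k106 k192 14 (.d k165 k224 k245 10 11))))))]
  .n)

def s3_170_6 : T TT 256 :=
  (.f k165 k245 11 (.q k12 [(.s k15 k10 2 (.s k14 k13 0 (.s k90 k240 14 (.s k166 k242 13 (.d k4 k8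
  k247 1 12))))), (.s k4 k8 1 (.s k166 k247 12 (.s k164 k167 0 (.s k240 k88 13 (.s k80 k160 11 (.d
  k90 k95 k15 2 14)))))), (.s k15 k10 2 (.s k14 k13 0 (.s k90 k240 14 (.s k166 k242 13 (.s k167 k164
  0 (.d k243 k91 k89 13 14)))))), (.s k4 k8 1 (.s k166 k247 12 (.s k89 k243 14 (.s k13 k241 13 (.s
  k1 k9 1 (.s k93 k81 1 (.d k253 k173 k169 11 13)))))))] (.c k166 (.q k86 [(.s k4 k8 1 (.s k84 k87 0
  (.d k244 k164 k7 11 12))), (.s k15 k10 2 (.s k14 k13 0 (.s k90 k240 14 (.s k95 k80 2 (.s k255 k175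
  11 (.s k174 k93 12 (.d k94 k82 k254 1 11)))))))] (.c k162 (.q k174 [(.s k4 k8 1 (.s k84 k87 0 (.d
  k244 k164 k7 11 12))), (.s k15 k10 2 (.s k14 k13 0 (.s k90 k240 14 (.d k94 k82 k254 1 11))))] (.c
  k255 (.l (.s k4 k8 1 (.s k244 k7 12 (.d k84 k87 k164 0 11)))) .n)) (.c k174 (.q k162 [(.s k4 k8 1
  (.s k84 k87 0 (.d k244 k164 k7 11 12))), (.s k15 k10 2 (.s k81 k243 12 (.s k89 k93 1 (.d k13 k14
  k241 0 13))))] (.c k89 (.l (.s k84 k87 0 (.s k244 k7 12 (.d k4 k8 k164 1 11)))) .n)) (.c k255 (.l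
  (.s k4 k8 1 (.s k244 k7 12 (.d k84 k87 k164 0 11)))) .n)))) (.c k240 (.l (.s k4 k8 1 (.s k15 k10 2
  (.s k166 k247 12 (.s k89 k243 14 (.d k13 k14 k241 0 13)))))) .n))))

def s3_170_7 : T TT 256 :=
  (.f k15 k10 2 (.f k165 k245 11 (.q k133 [(.s k149 k181 3 (.s k21 k213 7 (.s k197 k69 7 (.d k53 k37
  k101 3 11)))), (.s k69 k197 7 (.s k74 k192 10 (.s k79 k64 2 (.d k207 k143 k138 7 10)))), (.s k149
  k181 3 (.s k192 k74 10 (.s k64 k128 7 (.d k106 k127 k63 6 14))))] (.c k90 (.q k250 [(.s k149 k181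
  3 (.s k21 k213 7 (.s k197 k69 7 (.d k53 k37 k101 3 11)))), (.s k69 k197 7 (.s k74 k192 10 (.s k79
  k64 2 (.d k207 k143 k138 7 10)))), (.s k149 k181 3 (.s k192 k74 10 (.s k64 k128 7 (.d k106 k127
  k63 6 14))))] .n) (.c k250 (.f k90 k240 14 (.q k255 [(.d k95 k80 k175 2 11), (.s k149 k181 3 (.s
  k192 k74 10 (.d k213 k234 k21 6 7)))] (.c k82 (.q k161 [(.d k95 k80 k175 2 11), (.s k149 k181 3
  (.s k192 k74 10 (.d k213 k234 k21 6 7)))] .n) (.c k161 (.q k82 [(.d k95 k80 k175 2 11), (.s k149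
  k181 3 (.s k192 k74 10 (.d k213 k234 k21 6 7)))] .n) .n)))) .n)))))

def s3_170_8 : T TT 256 :=
  (.q k89 [(.s k93 k81 1 (.s k165 k245 11 (.s k13 k241 13 (.s k253 k173 11 (.d k1 k9 k169 1 13))))),
  (.s k15 k10 2 (.s k81 k93 1 (.s k243 k162 12 (.s k91 k167 13 (.s k90 k88 0 (.s k80 k95 2 (.d k240
  k160 k165 11 14))))))), (.s k15 k10 2 (.s k165 k245 11 (.s k13 k241 13 (.s k12 k14 0 (.s k90 k240
  14 (.s k91 k88 0 (.d k243 k167 k166 13 14)))))))] (.c k9 (.l (.s k81 k93 1 (.s k165 k245 11 (.s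
  k241 k13 13 (.s k243 k162 12 (.s k240 k242 0 (.d k15 k10 k90 2 14))))))) (.c k165 (.f k81 k93 1
  (.f k15 k10 2 (.l (.s k243 k162 12 (.s k91 k167 13 (.s k90 k88 0 (.s k80 k95 2 (.s k166 k12 14 (.s
  k242 k14 13 (.d k240 k241 k160 0 11)))))))))) .n)))

def s3_170_9 : T TT 256 :=
  (.f k165 k245 11 (.q k106 [(.s k15 k10 2 (.s k47 k224 10 (.s k63 k31 3 (.s k64 k127 6 (.d k192
  k128 k149 7 14))))), (.s k64 k127 6 (.s k192 k128 7 (.s k149 k63 14 (.s k21 k213 7 (.s k53 k37 3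
  (.s k133 k181 3 (.d k197 k69 k101 7 11))))))), (.s k15 k10 2 (.s k47 k224 10 (.s k63 k31 3 (.s k21
  k42 6 (.s k149 k213 7 (.s k181 k133 3 (.d k240 k90 k122 14 10)))))))] (.c k6 (.q k12 [(.s k15 k10
  2 (.s k47 k224 10 (.s k63 k31 3 (.s k21 k42 6 (.d k149 k213 k192 7 14))))), (.s k8 k4 1 (.s k64
  k127 6 (.s k192 k128 7 (.s k72 k132 9 (.s k68 k76 1 (.d k136 k200 k204 7 9)))))), (.s k4 k8 1 (.s
  k166 k247 12 (.s k89 k243 14 (.s k13 k241 13 (.d k15 k10 k14 2 0)))))] (.c k8 (.l (.s k64 k127 6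
  (.s k192 k128 7 (.s k149 k63 14 (.s k133 k181 3 (.d k15 k10 k74 2 10)))))) .n)) (.c k12 (.q k6
  [(.s k15 k10 2 (.s k47 k224 10 (.s k63 k31 3 (.s k64 k127 6 (.d k192 k128 k149 7 14))))), (.s k7
  k4 0 (.s k64 k127 6 (.s k86 k244 12 (.s k66 k126 5 (.s k67 k65 0 (.s k84 k87 0 (.d k124 k104 k105
  5 6))))))), (.s k15 k10 2 (.s k47 k224 10 (.s k63 k31 3 (.s k21 k42 6 (.d k149 k213 k192 7
  14)))))] .n) (.c k63 (.l (.s k15 k10 2 (.s k64 k127 6 (.s k90 k240 14 (.s k192 k128 7 (.d k74 k122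
  k133 3 10)))))) (.c k149 (.l (.s k15 k10 2 (.s k64 k127 6 (.s k90 k240 14 (.s k74 k122 3 (.d k192
  k128 k133 7 10)))))) .n))))))

def s3_170_10 : T TT 256 :=
  (.f k165 k245 11 (.q k69 [(.s k101 k117 3 (.s k37 k229 7 (.s k53 k21 3 (.d k197 k133 k149 7
  11)))), (.s k101 k117 3 (.s k207 k138 10 (.s k229 k37 7 (.s k240 k218 6 (.s k80 k160 11 (.d k90
  k95 k15 2 14)))))), (.s k133 k197 7 (.s k138 k207 10 (.s k128 k143 2 (.s k149 k181 3 (.s k192 k64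
  7 (.s k63 k106 14 (.d k21 k42 k213 6 7)))))))] (.c k53 (.f k117 k101 3 (.l (.s k133 k197 7 (.s
  k149 k181 3 (.s k138 k207 10 (.s k128 k143 2 (.s k192 k64 7 (.s k63 k106 14 (.d k21 k42 k213 6
  7))))))))) (.c k90 (.q k250 [(.s k101 k117 3 (.s k37 k229 7 (.s k53 k21 3 (.d k197 k133 k149 7
  11)))), (.s k197 k133 7 (.s k207 k138 10 (.s k202 k192 2 (.s k218 k234 3 (.s k229 k240 6 (.d k101
  k117 k37 3 7)))))), (.s k133 k197 7 (.s k138 k207 10 (.s k128 k143 2 (.s k149 k181 3 (.s k192 k64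
  7 (.s k63 k106 14 (.d k21 k42 k213 6 7))))))), (.s k101 k117 3 (.s k197 k133 7 (.s k53 k149 11 (.s
  k21 k37 3 (.s k63 k42 6 (.s k207 k138 10 (.d k48 k58 k154 2 14)))))))] (.c k117 (.f k197 k133 7
  (.q k53 [(.s k21 k37 3 (.d k149 k213 k101 7 11))] (.c k21 (.l (.s k101 k149 11 (.s k207 k138 10
  (.s k202 k192 2 (.s k218 k234 3 (.d k229 k240 k37 6 7)))))) (.c k37 (.l (.s k149 k101 11 (.s k21
  k213 7 (.s k63 k42 6 (.s k207 k138 10 (.d k192 k202 k106 2 14)))))) (.c k101 (.l (.s k21 k37 3 (.s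
  k63 k42 6 (.s k149 k213 7 (.s k207 k138 10 (.d k192 k202 k106 2 14)))))) (.c k149 (.l (.s k37 k21
  3 (.s k207 k138 10 (.s k202 k192 2 (.s k218 k234 3 (.d k229 k240 k101 6 7)))))) (.c k213 (.l (.s
  k37 k21 3 (.d k101 k229 k149 7 11))) .n))))))) (.c k133 (.q k1 [(.s k169 k253 13 (.s k161 k173 1
  (.s k241 k81 11 (.d k13 k9 k89 1 13)))), (.s k13 k9 1 (.s k101 k117 3 (.s k37 k229 7 (.s k49 k25 5
  (.d k205 k137 k153 9 13))))), (.s k101 k117 3 (.s k169 k253 13 (.s k33 k237 9 (.s k49 k17 3 (.d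
  k205 k137 k153 9 13)))))] .n) (.c k197 (.f k207 k138 10 (.f k101 k117 3 (.l (.s k154 k48 14 (.s
  k223 k16 10 (.s k229 k37 7 (.s k218 k240 6 (.s k213 k208 2 (.s k255 k239 3 (.d k234 k192 k202 6
  3)))))))))) .n)))) (.c k117 (.f k133 k197 7 (.f k138 k207 10 (.f k128 k143 2 (.l (.s k192 k64 7
  (.s k15 k74 10 (.s k90 k240 14 (.s k95 k80 2 (.s k255 k175 11 (.s k213 k234 6 (.d k149 k181 k21 3
  7))))))))))) (.c k181 (.l (.s k197 k133 7 (.s k101 k117 3 (.s k53 k149 11 (.d k37 k21 k229 3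
  7))))) (.c k229 (.l (.s k101 k117 3 (.s k197 k133 7 (.s k53 k149 11 (.s k21 k37 3 (.s k63 k42 6
  (.s k207 k138 10 (.d k48 k58 k154 2 14)))))))) (.c k250 (.q k90 [(.s k80 k95 2 (.d k240 k160 k15
  11 14)), (.s k101 k117 3 (.s k37 k229 7 (.s k53 k21 3 (.d k197 k133 k149 7 11))))] (.c k240 (.q
  k255 [(.s k197 k133 7 (.s k101 k117 3 (.s k53 k149 11 (.d k37 k21 k229 3 7)))), (.s k207 k138 10
  (.s k223 k239 3 (.s k154 k16 10 (.d k101 k117 k48 3 14)))), (.s k95 k80 2 (.s k15 k175 11 (.s k133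
  k197 7 (.s k74 k192 10 (.s k64 k79 2 (.d k106 k122 k127 3 6))))))] (.c k82 (.q k161 [(.s k101 k117
  3 (.s k197 k133 7 (.s k53 k149 11 (.d k37 k21 k229 3 7)))), (.s k169 k173 1 (.s k1 k253 13 (.s k13
  k9 1 (.d k241 k81 k89 11 13))))] .n) (.c k161 (.q k82 [(.s k197 k133 7 (.s k101 k117 3 (.s k53
  k149 11 (.d k37 k21 k229 3 7)))), (.s k80 k95 2 (.s k83 k81 0 (.s k86 k94 1 (.s k84 k87 0 (.d k92
  k88 k89 1 2)))))] .n) .n))) (.c k255 (.l (.s k240 k15 14 (.d k80 k95 k160 2 11))) .n))) .n))))))))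

def s3_170_11 : T TT 256 :=
  (.q k133 [(.s k165 k245 11 (.s k149 k181 3 (.s k21 k213 7 (.s k53 k37 3 (.d k197 k69 k101 7
  11))))), (.s k15 k10 2 (.s k69 k197 7 (.s k74 k192 10 (.s k79 k64 2 (.d k207 k143 k138 7 10))))),
  (.s k15 k10 2 (.s k165 k245 11 (.s k149 k181 3 (.s k192 k74 10 (.s k63 k106 14 (.d k21 k42 k213 6
  7))))))] (.c k7 (.l (.s k15 k10 2 (.s k69 k197 7 (.s k74 k192 10 (.s k79 k64 2 (.d k207 k143 k138
  7 10)))))) (.c k15 (.q k7 [(.s k4 k6 0 (.s k69 k197 7 (.s k70 k196 8 (.s k71 k68 0 (.d k199 k135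
  k134 7 8))))), (.s k165 k245 11 (.s k149 k181 3 (.s k21 k213 7 (.s k53 k37 3 (.d k197 k69 k101 7
  11))))), (.s k4 k6 0 (.s k165 k245 11 (.s k86 k244 12 (.s k87 k84 0 (.d k247 k167 k166 11 12)))))]
  .n) .n)))

def s3_170_12 : T TT 256 :=
  (.f k165 k245 11 (.q k37 [(.s k53 k21 3 (.s k101 k229 7 (.s k69 k117 3 (.d k197 k133 k149 7
  11)))), (.s k15 k10 2 (.s k21 k53 3 (.s k26 k48 6 (.s k31 k16 2 (.d k63 k47 k42 3 6))))), (.s k15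
  k10 2 (.s k48 k26 6 (.s k16 k32 3 (.s k101 k229 7 (.d k154 k223 k207 10 14)))))] (.c k6 (.q k9
  [(.s k53 k21 3 (.s k101 k229 7 (.s k69 k117 3 (.d k197 k133 k149 7 11)))), (.s k15 k10 2 (.s k21
  k53 3 (.s k26 k48 6 (.s k31 k16 2 (.d k63 k47 k42 3 6))))), (.s k15 k10 2 (.s k48 k26 6 (.s k16
  k32 3 (.s k101 k229 7 (.d k154 k223 k207 10 14)))))] .n) (.c k9 (.q k6 [(.s k53 k21 3 (.s k101
  k229 7 (.s k69 k117 3 (.d k197 k133 k149 7 11)))), (.s k15 k10 2 (.s k21 k53 3 (.s k26 k48 6 (.s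
  k31 k16 2 (.d k63 k47 k42 3 6))))), (.s k15 k10 2 (.s k48 k26 6 (.s k16 k32 3 (.s k101 k229 7 (.d
  k154 k223 k207 10 14)))))] .n) .n))))

def s3_170_13 : T TT 256 :=
  (.q k21 [(.s k53 k37 3 (.s k149 k213 7 (.s k101 k197 11 (.s k117 k69 3 (.d k245 k181 k165 7
  11))))), (.s k15 k10 2 (.s k37 k53 3 (.s k26 k48 6 (.s k31 k16 2 (.d k63 k47 k42 3 6))))), (.s k15
  k10 2 (.s k63 k42 6 (.s k47 k31 3 (.s k149 k213 7 (.s k106 k192 14 (.d k165 k224 k245 10 11))))))]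
  .n)

def s3_170_14 : T TT 256 :=
  (.q k21 [(.s k53 k37 3 (.s k149 k213 7 (.s k101 k197 11 (.s k117 k69 3 (.d k245 k181 k165 7
  11))))), (.s k15 k10 2 (.s k37 k53 3 (.s k26 k48 6 (.s k31 k16 2 (.d k63 k47 k42 3 6))))), (.s k15
  k10 2 (.s k63 k42 6 (.s k47 k31 3 (.s k149 k213 7 (.s k106 k192 14 (.d k165 k224 k245 10 11))))))]
  .n)

def s3_170_15 : T TT 256 :=
  (.f k165 k245 11 (.q k7 [(.s k4 k6 0 (.s k86 k244 12 (.s k87 k84 0 (.d k247 k167 k166 11 12)))),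
  (.s k86 k244 12 (.s k87 k84 0 (.s k247 k167 11 (.d k4 k6 k166 0 12))))] (.c k4 (.q k16 [(.s k86
  k244 12 (.s k154 k223 10 (.s k18 k222 9 (.s k19 k17 0 (.s k220 k153 10 (.d k84 k87 k152 0 9)))))),
  (.s k48 k32 3 (.s k154 k223 10 (.s k101 k207 14 (.s k37 k229 7 (.s k53 k21 3 (.s k69 k117 3 (.d
  k197 k133 k149 7 11))))))), (.s k48 k32 3 (.s k86 k244 12 (.s k84 k87 0 (.s k152 k220 9 (.s k100
  k204 13 (.s k116 k68 3 (.d k252 k184 k168 9 13)))))))] .n) (.c k6 (.q k135 [(.s k150 k180 4 (.s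
  k199 k71 7 (.s k101 k52 12 (.s k229 k37 7 (.d k244 k214 k86 4 12))))), (.s k86 k244 12 (.s k87 k84
  0 (.s k150 k180 4 (.s k215 k20 8 (.s k151 k23 7 (.d k167 k247 k183 11 3)))))), (.s k150 k180 4 (.s
  k199 k71 7 (.s k215 k20 8 (.s k247 k231 3 (.s k166 k4 12 (.d k167 k164 k87 0 11))))))] (.c k9 (.q
  k12 [(.s k86 k244 12 (.s k87 k84 0 (.s k247 k167 11 (.d k4 k8 k166 1 12)))), (.s k4 k8 1 (.s k150
  k180 4 (.s k20 k215 8 (.s k52 k36 3 (.d k199 k71 k101 7 12))))), (.s k86 k244 12 (.s k150 k180 4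
  (.s k22 k214 7 (.s k52 k37 4 (.d k199 k71 k101 7 12)))))] .n) (.c k12 (.q k9 [(.s k150 k180 4 (.s
  k199 k71 7 (.s k101 k52 12 (.s k229 k37 7 (.d k244 k214 k86 4 12))))), (.s k86 k244 12 (.s k87 k84
  0 (.s k150 k180 4 (.s k215 k20 8 (.s k151 k23 7 (.d k167 k247 k183 11 3)))))), (.s k150 k180 4 (.s
  k199 k71 7 (.s k215 k20 8 (.s k247 k231 3 (.s k166 k4 12 (.d k167 k164 k87 0 11))))))] (.c k13 (.q
  k14 [(.s k86 k244 12 (.s k150 k180 4 (.s k22 k214 7 (.s k199 k71 7 (.d k52 k37 k101 4 12))))), (.s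
  k150 k180 4 (.s k199 k71 7 (.s k215 k20 8 (.s k247 k231 3 (.s k166 k4 12 (.d k167 k164 k87 0
  11)))))), (.s k86 k244 12 (.s k87 k84 0 (.s k150 k180 4 (.s k215 k20 8 (.s k151 k23 7 (.d k167
  k247 k183 11 3))))))] (.c k52 (.l (.s k86 k244 12 (.s k87 k84 0 (.s k199 k71 7 (.s k247 k167 11
  (.s k215 k231 3 (.d k150 k180 k20 4 8))))))) (.c k150 (.l (.s k71 k199 7 (.s k86 k244 12 (.s k101
  k116 4 (.s k69 k117 3 (.s k70 k68 0 (.d k133 k197 k196 7 8))))))) (.c k180 (.l (.s k71 k199 7 (.s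
  k86 k244 12 (.s k84 k87 0 (.s k116 k101 4 (.s k68 k100 3 (.s k70 k69 0 (.d k102 k118 k119 3
  4)))))))) (.c k247 (.l (.s k150 k180 4 (.s k199 k71 7 (.s k52 k101 12 (.s k22 k37 4 (.d k86 k214
  k244 7 12)))))) .n))))) (.c k14 (.l (.s k13 k1 1 (.s k86 k244 12 (.s k150 k180 4 (.s k22 k214 7
  (.s k52 k37 4 (.d k199 k71 k101 7 12))))))) (.c k52 (.l (.s k86 k244 12 (.s k87 k84 0 (.s k199 k71
  7 (.s k247 k167 11 (.s k215 k231 3 (.d k150 k180 k20 4 8))))))) (.c k150 (.l (.s k71 k199 7 (.s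
  k86 k244 12 (.s k101 k116 4 (.s k69 k117 3 (.s k70 k68 0 (.d k133 k197 k196 7 8))))))) (.c k180
  (.l (.s k71 k199 7 (.s k86 k244 12 (.s k84 k87 0 (.s k116 k101 4 (.s k68 k100 3 (.s k70 k69 0 (.d
  k102 k118 k119 3 4)))))))) .n)))))) (.c k52 (.l (.s k86 k244 12 (.s k87 k84 0 (.s k199 k71 7 (.s
  k247 k167 11 (.s k215 k231 3 (.d k150 k180 k20 4 8))))))) (.c k150 (.l (.s k71 k199 7 (.s k86 k244
  12 (.s k101 k116 4 (.s k69 k117 3 (.s k70 k68 0 (.d k133 k197 k196 7 8))))))) (.c k180 (.l (.s k71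
  k199 7 (.s k86 k244 12 (.s k84 k87 0 (.s k116 k101 4 (.s k68 k100 3 (.s k70 k69 0 (.d k102 k118
  k119 3 4)))))))) .n)))))) (.c k84 (.q k1 [(.s k13 k9 1 (.s k89 k241 13 (.s k93 k81 1 (.d k253 k173
  k169 11 13)))), (.s k4 k6 0 (.s k12 k8 1 (.s k13 k9 1 (.s k166 k247 12 (.d k89 k241 k243 13
  14))))), (.s k169 k253 13 (.s k161 k173 1 (.s k241 k81 11 (.d k13 k9 k89 1 13))))] (.c k9 (.l (.s
  k4 k6 0 (.s k12 k8 1 (.s k166 k247 12 (.s k89 k243 14 (.s k81 k93 1 (.d k241 k161 k13 11 13)))))))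
  (.c k13 (.l (.s k4 k6 0 (.s k12 k8 1 (.s k166 k247 12 (.s k89 k243 14 (.s k81 k93 1 (.s k161 k241
  11 (.d k169 k173 k253 1 13)))))))) (.c k89 (.l (.s k4 k6 0 (.s k166 k247 12 (.s k169 k253 13 (.s
  k161 k173 1 (.s k163 k172 2 (.s k162 k160 0 (.d k81 k241 k243 11 12)))))))) (.c k241 (.l (.s k4 k6
  0 (.s k9 k13 1 (.s k12 k8 1 (.s k166 k247 12 (.s k89 k243 14 (.d k169 k249 k253 11 13)))))))
  .n))))) (.c k86 (.f k4 k6 0 (.l (.s k12 k8 1 (.s k166 k247 12 (.s k89 k243 14 (.s k13 k241 13 (.s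
  k1 k9 1 (.s k93 k81 1 (.d k253 k173 k169 11 13))))))))) (.c k87 (.l (.s k4 k6 0 (.s k166 k247 12
  (.s k164 k167 0 (.d k244 k84 k86 11 12))))) (.c k166 (.f k4 k6 0 (.f k12 k8 1 (.f k86 k244 12 (.l
  (.s k84 k87 0 (.s k252 k168 13 (.s k92 k172 11 (.s k89 k83 2 (.s k93 k81 1 (.s k95 k94 0 (.d k80
  k88 k90 1 2))))))))))) (.c k167 (.f k4 k6 0 (.l (.s k12 k8 1 (.s k86 k244 12 (.s k84 k87 0 (.s
  k252 k168 13 (.s k92 k172 11 (.s k89 k83 2 (.d k166 k247 k243 12 14))))))))) (.c k244 (.q k69 [(.s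
  k101 k117 3 (.s k37 k229 7 (.s k53 k21 3 (.d k197 k133 k149 7 11)))), (.s k4 k6 0 (.s k101 k117 3
  (.s k199 k134 8 (.s k135 k71 7 (.d k150 k180 k52 4 12))))), (.s k4 k6 0 (.s k133 k197 7 (.s k70
  k196 8 (.s k71 k68 0 (.d k199 k135 k134 7 8)))))] (.c k199 (.l (.s k101 k117 3 (.s k197 k133 7 (.s
  k53 k149 11 (.d k37 k21 k229 3 7))))) (.c k246 (.q k247 [(.d k4 k6 k166 0 12), (.s k101 k117 3 (.s
  k37 k229 7 (.s k53 k21 3 (.d k197 k133 k149 7 11))))] .n) (.c k247 (.q k246 [(.s k101 k117 3 (.s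
  k37 k229 7 (.s k53 k21 3 (.d k197 k133 k149 7 11)))), (.s k4 k6 0 (.s k133 k197 7 (.s k70 k196 8
  (.s k71 k68 0 (.d k199 k135 k134 7 8))))), (.s k4 k6 0 (.s k101 k117 3 (.s k199 k134 8 (.s k135
  k71 7 (.d k150 k52 k180 12 4)))))] (.c k199 (.l (.s k101 k117 3 (.s k197 k133 7 (.s k53 k149 11
  (.d k37 k21 k229 3 7))))) .n)) .n)))) (.c k246 (.l (.s k4 k6 0 (.s k86 k244 12 (.s k247 k166 12
  (.d k87 k84 k167 0 11))))) (.c k247 (.q k69 [(.s k101 k117 3 (.s k37 k229 7 (.s k53 k21 3 (.d k197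
  k133 k149 7 11)))), (.s k4 k6 0 (.s k133 k197 7 (.s k70 k196 8 (.s k71 k68 0 (.d k199 k135 k134 7
  8))))), (.s k4 k6 0 (.s k101 k117 3 (.s k199 k134 8 (.s k71 k135 7 (.d k86 k244 k116 12 4)))))]
  (.c k133 (.l (.s k4 k6 0 (.s k101 k117 3 (.s k37 k229 7 (.s k52 k22 4 (.d k199 k134 k150 8
  12)))))) (.c k244 (.q k246 [(.s k101 k117 3 (.s k37 k229 7 (.s k53 k21 3 (.d k197 k133 k149 7
  11)))), (.s k4 k6 0 (.s k133 k197 7 (.s k70 k196 8 (.s k71 k68 0 (.d k199 k135 k134 7 8))))), (.s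
  k4 k6 0 (.s k101 k117 3 (.s k199 k134 8 (.s k135 k71 7 (.d k150 k52 k180 12 4)))))] (.c k199 (.l
  (.s k101 k117 3 (.s k197 k133 7 (.s k53 k149 11 (.d k37 k21 k229 3 7))))) .n)) (.c k246 (.l (.s
  k244 k86 12 (.s k101 k117 3 (.s k37 k229 7 (.s k53 k21 3 (.d k197 k133 k149 7 11)))))) .n))))
  .n))))))))))))

def s3_170_16 : T TT 256 :=
  (.q k21 [(.s k53 k37 3 (.s k149 k213 7 (.s k101 k197 11 (.s k117 k69 3 (.d k245 k181 k165 7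
  11))))), (.s k15 k10 2 (.s k63 k42 6 (.s k47 k31 3 (.s k165 k245 11 (.s k106 k224 10 (.s k64 k127
  6 (.d k192 k128 k149 7 14)))))))] (.c k149 (.l (.s k15 k10 2 (.s k37 k53 3 (.s k48 k26 6 (.s k165
  k245 11 (.s k101 k229 7 (.s k207 k154 14 (.d k69 k117 k138 3 10)))))))) (.c k165 (.l (.s k53 k37 3
  (.s k63 k42 6 (.s k48 k58 2 (.s k149 k213 7 (.s k101 k197 11 (.s k69 k117 3 (.d k207 k138 k154 10
  14)))))))) (.c k245 (.l (.s k15 k10 2 (.s k53 k37 3 (.s k63 k42 6 (.s k149 k213 7 (.s k197 k101 11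
  (.s k133 k69 7 (.d k192 k106 k74 14 10)))))))) .n))))

def s3_170_17 : T TT 256 :=
  (.q k21 [(.s k53 k37 3 (.s k149 k213 7 (.s k101 k197 11 (.s k117 k69 3 (.d k245 k181 k165 7
  11))))), (.s k15 k10 2 (.s k37 k53 3 (.s k26 k48 6 (.s k31 k16 2 (.d k63 k47 k42 3 6))))), (.s k15
  k10 2 (.s k63 k42 6 (.s k47 k31 3 (.s k149 k213 7 (.s k106 k192 14 (.d k165 k224 k245 10 11))))))]
  .n)

def s3_170_18 : T TT 256 :=
  (.f k165 k245 11 (.q k48 [(.s k15 k10 2 (.s k16 k32 3 (.s k154 k223 10 (.s k143 k176 6 (.d k207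
  k101 k79 14 7))))), (.s k15 k10 2 (.s k32 k16 3 (.s k37 k26 6 (.s k21 k53 3 (.d k42 k47 k63 2
  6))))), (.s k16 k32 3 (.s k154 k223 10 (.s k101 k207 14 (.s k37 k229 7 (.s k53 k21 3 (.s k69 k117
  3 (.d k197 k133 k149 7 11))))))), (.s k15 k10 2 (.s k37 k26 6 (.s k101 k229 7 (.s k69 k117 3 (.d
  k207 k138 k154 10 14)))))] .n))

def s3_170_19 : T TT 256 :=
  (.f k165 k245 11 (.q k51 [(.s k15 k10 2 (.s k17 k34 4 (.s k153 k221 9 (.s k141 k177 5 (.d k204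
  k102 k78 14 8))))), (.s k15 k10 2 (.s k39 k27 5 (.s k90 k240 14 (.s k95 k80 2 (.s k102 k228 8 (.s
  k119 k68 4 (.d k255 k187 k175 9 11))))))), (.s k17 k34 4 (.s k153 k221 9 (.s k177 k141 5 (.s k240
  k114 8 (.s k80 k160 11 (.d k90 k95 k15 2 14))))))] (.c k15 (.q k7 [(.s k4 k6 0 (.s k86 k244 12 (.s
  k87 k84 0 (.d k247 k167 k166 11 12)))), (.s k4 k6 0 (.s k12 k8 1 (.s k34 k17 4 (.s k38 k25 6 (.s
  k21 k55 4 (.d k42 k46 k63 1 6)))))), (.s k17 k34 4 (.s k86 k244 12 (.s k84 k87 0 (.s k153 k221 9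
  (.s k102 k204 14 (.s k252 k168 13 (.d k118 k70 k185 3 10)))))))] .n) (.c k90 (.l (.s k17 k34 4 (.s
  k153 k221 9 (.s k102 k204 14 (.s k39 k228 8 (.d k15 k10 k27 2 5)))))) (.c k102 (.l (.s k15 k10 2
  (.s k27 k39 5 (.s k90 k240 14 (.s k153 k216 8 (.d k17 k34 k221 4 9)))))) .n)))))

def s3_170_20 : T TT 256 :=
  (.q k21 [(.s k53 k37 3 (.s k149 k213 7 (.s k101 k197 11 (.s k117 k69 3 (.d k245 k181 k165 7
  11))))), (.s k15 k10 2 (.s k37 k53 3 (.s k26 k48 6 (.s k31 k16 2 (.d k63 k47 k42 3 6))))), (.s k15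
  k10 2 (.s k63 k42 6 (.s k47 k31 3 (.s k149 k213 7 (.s k106 k192 14 (.d k165 k224 k245 10 11))))))]
  .n)

def s3_170_21 : T TT 256 :=
  (.q k69 [(.s k133 k197 7 (.s k138 k207 10 (.s k128 k143 2 (.s k192 k64 7 (.d k15 k10 k74 2
  10))))), (.s k101 k117 3 (.s k165 k245 11 (.s k207 k138 10 (.s k229 k37 7 (.s k240 k218 6 (.s k80
  k160 11 (.d k90 k95 k15 2 14))))))), (.s k15 k10 2 (.s k101 k117 3 (.s k133 k197 7 (.s k165 k245
  11 (.s k90 k240 14 (.s k79 k112 6 (.d k74 k64 k192 2 10)))))))] (.c k15 (.l (.s k101 k117 3 (.s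
  k197 k133 7 (.s k149 k53 11 (.s k207 k138 10 (.s k192 k202 2 (.s k106 k63 14 (.d k64 k128 k127 7
  6)))))))) .n))

def s3_170_22 : T TT 256 :=
  (.f k165 k245 11 (.q k60 [(.s k15 k10 2 (.s k20 k40 5 (.s k150 k215 8 (.s k135 k180 4 (.d k195
  k105 k75 14 9))))), (.s k15 k10 2 (.s k45 k30 4 (.s k90 k240 14 (.s k95 k80 2 (.s k105 k225 9 (.s
  k125 k65 5 (.d k255 k190 k175 8 11))))))), (.s k20 k40 5 (.s k150 k215 8 (.s k180 k135 4 (.s k240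
  k120 9 (.s k80 k160 11 (.d k90 k95 k15 2 14))))))] (.c k15 (.q k7 [(.s k86 k244 12 (.s k87 k84 0
  (.s k247 k167 11 (.d k4 k6 k166 0 12)))), (.s k4 k6 0 (.s k12 k8 1 (.s k20 k40 5 (.s k28 k44 3 (.s
  k24 k16 1 (.d k36 k52 k48 3 5)))))), (.s k20 k40 5 (.s k86 k244 12 (.s k84 k87 0 (.s k148 k212 7
  (.s k104 k192 13 (.s k124 k64 5 (.d k252 k188 k168 7 13)))))))] .n) (.c k90 (.l (.s k20 k40 5 (.s
  k150 k215 8 (.s k105 k195 14 (.s k45 k225 9 (.d k15 k10 k30 2 4)))))) (.c k105 (.l (.s k15 k10 2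
  (.s k30 k45 4 (.s k90 k240 14 (.s k150 k210 9 (.d k20 k40 k215 5 8)))))) .n)))))

def s3_170_23 : T TT 256 :=
  (.q k63 [(.s k15 k10 2 (.s k21 k42 6 (.s k31 k47 3 (.s k26 k16 2 (.d k37 k53 k48 3 6))))), (.s k15
  k10 2 (.s k47 k31 3 (.s k165 k245 11 (.s k106 k224 10 (.s k64 k127 6 (.d k192 k128 k149 7
  14)))))), (.s k21 k42 6 (.s k53 k37 3 (.s k149 k213 7 (.s k101 k197 11 (.s k117 k69 3 (.d k245
  k181 k165 7 11))))))] (.c k47 (.l (.s k15 k10 2 (.s k21 k42 6 (.s k149 k213 7 (.s k165 k245 11 (.s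
  k133 k181 3 (.d k192 k106 k74 14 10))))))) (.c k106 (.l (.s k15 k10 2 (.s k31 k47 3 (.s k165 k245
  11 (.s k90 k240 14 (.s k149 k208 10 (.d k21 k42 k213 6 7))))))) .n)))

def s3_170_24 : T TT 256 :=
  (.q k21 [(.s k53 k37 3 (.s k149 k213 7 (.s k101 k197 11 (.s k117 k69 3 (.d k245 k181 k165 7
  11))))), (.s k15 k10 2 (.s k37 k53 3 (.s k26 k48 6 (.s k31 k16 2 (.d k63 k47 k42 3 6))))), (.s k15
  k10 2 (.s k63 k42 6 (.s k47 k31 3 (.s k149 k213 7 (.s k106 k192 14 (.d k165 k224 k245 10 11))))))]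
  .n)

def s3_170_25 : T TT 256 :=
  (.q k21 [(.s k53 k37 3 (.s k149 k213 7 (.s k101 k197 11 (.s k117 k69 3 (.d k245 k181 k165 7
  11))))), (.s k15 k10 2 (.s k37 k53 3 (.s k26 k48 6 (.s k31 k16 2 (.d k63 k47 k42 3 6))))), (.s k15
  k10 2 (.s k63 k42 6 (.s k47 k31 3 (.s k149 k213 7 (.s k106 k192 14 (.d k165 k224 k245 10 11))))))]
  .n)

def s3_170_26 : T TT 256 :=
  (.q k69 [(.s k101 k117 3 (.s k165 k245 11 (.s k37 k229 7 (.s k53 k21 3 (.d k197 k133 k149 7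
  11))))), (.s k15 k10 2 (.s k133 k197 7 (.s k74 k192 10 (.s k79 k64 2 (.d k207 k143 k138 7 10))))),
  (.s k15 k10 2 (.s k101 k117 3 (.s k165 k245 11 (.s k90 k240 14 (.s k79 k112 6 (.d k207 k143 k138 7
  10))))))] .n)

def s3_170_27 : T TT 256 :=
  (.q k21 [(.s k53 k37 3 (.s k149 k213 7 (.s k101 k197 11 (.s k117 k69 3 (.d k245 k181 k165 7
  11))))), (.s k15 k10 2 (.s k37 k53 3 (.s k26 k48 6 (.s k31 k16 2 (.d k63 k47 k42 3 6))))), (.s k15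
  k10 2 (.s k63 k42 6 (.s k47 k31 3 (.s k149 k213 7 (.s k106 k192 14 (.d k165 k224 k245 10 11))))))]
  .n)

def s3_170_28 : T TT 256 :=
  (.q k21 [(.s k53 k37 3 (.s k149 k213 7 (.s k101 k197 11 (.s k117 k69 3 (.d k245 k181 k165 7
  11))))), (.s k15 k10 2 (.s k37 k53 3 (.s k26 k48 6 (.s k31 k16 2 (.d k63 k47 k42 3 6))))), (.s k15
  k10 2 (.s k63 k42 6 (.s k47 k31 3 (.s k149 k213 7 (.s k106 k192 14 (.d k165 k224 k245 10 11))))))]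
  .n)

def s3_170_29 : T TT 256 :=
  (.q k21 [(.s k53 k37 3 (.s k149 k213 7 (.s k101 k197 11 (.s k117 k69 3 (.d k245 k181 k165 7
  11))))), (.s k15 k10 2 (.s k37 k53 3 (.s k26 k48 6 (.s k31 k16 2 (.d k63 k47 k42 3 6))))), (.s k15
  k10 2 (.s k63 k42 6 (.s k47 k31 3 (.s k149 k213 7 (.s k106 k192 14 (.d k165 k224 k245 10 11))))))]
  .n)

def s3_170_30 : T TT 256 :=
  (.q k21 [(.s k53 k37 3 (.s k149 k213 7 (.s k101 k197 11 (.s k117 k69 3 (.d k245 k181 k165 7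
  11))))), (.s k15 k10 2 (.s k37 k53 3 (.s k26 k48 6 (.s k31 k16 2 (.d k63 k47 k42 3 6))))), (.s k15
  k10 2 (.s k63 k42 6 (.s k47 k31 3 (.s k149 k213 7 (.s k106 k192 14 (.d k165 k224 k245 10 11))))))]
  .n)

def s3_170_31 : T TT 256 :=
  (.q k21 [(.s k53 k37 3 (.s k149 k213 7 (.s k101 k197 11 (.s k117 k69 3 (.d k245 k181 k165 7
  11))))), (.s k15 k10 2 (.s k37 k53 3 (.s k42 k63 6 (.s k32 k47 2 (.d k48 k16 k26 3 6))))), (.s k15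
  k10 2 (.s k63 k42 6 (.s k149 k213 7 (.s k165 k245 11 (.s k181 k133 3 (.d k240 k90 k122 14
  10))))))] .n)

def s3_170_32 : T TT 256 :=
  (.q k101 [(.s k69 k117 3 (.s k197 k133 7 (.s k149 k53 11 (.s k213 k21 7 (.d k245 k229 k165 3
  11))))), (.s k15 k10 2 (.s k69 k117 3 (.s k133 k197 7 (.s k74 k192 10 (.s k79 k64 2 (.d k207 k143
  k138 7 10)))))), (.s k15 k10 2 (.s k165 k245 11 (.s k37 k229 7 (.s k48 k26 6 (.s k90 k240 14 (.s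
  k79 k112 6 (.d k207 k143 k154 7 14)))))))] (.c k197 (.l (.s k15 k10 2 (.s k69 k117 3 (.s k165 k245
  11 (.s k90 k240 14 (.s k79 k112 6 (.d k207 k143 k138 7 10))))))) .n))

def s3_170_33 : T TT 256 :=
  (.f k165 k245 11 (.q k48 [(.s k15 k10 2 (.s k16 k32 3 (.s k154 k223 10 (.s k143 k176 6 (.d k207
  k101 k79 14 7))))), (.s k15 k10 2 (.s k32 k16 3 (.s k37 k26 6 (.s k21 k53 3 (.d k42 k47 k63 2
  6))))), (.s k16 k32 3 (.s k154 k223 10 (.s k101 k207 14 (.s k37 k229 7 (.s k53 k21 3 (.s k69 k117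
  3 (.d k197 k133 k149 7 11))))))), (.s k15 k10 2 (.s k37 k26 6 (.s k101 k229 7 (.s k69 k117 3 (.d
  k207 k138 k154 10 14)))))] .n))

def s3_170_34 : T TT 256 :=
  (.f k165 k245 11 (.q k102 [(.s k15 k10 2 (.s k39 k228 8 (.s k51 k27 5 (.s k68 k119 4 (.d k204 k136
  k153 9 14))))), (.s k68 k119 4 (.s k204 k136 9 (.s k153 k51 14 (.s k141 k177 5 (.d k15 k10 k78 2
  8))))), (.s k15 k10 2 (.s k39 k228 8 (.s k51 k27 5 (.s k90 k240 14 (.s k78 k114 5 (.d k204 k141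
  k153 8 14)))))), (.s k68 k119 4 (.s k204 k136 9 (.s k228 k39 8 (.s k240 k216 5 (.s k80 k160 11 (.d
  k90 k95 k15 2 14))))))] (.c k15 (.q k7 [(.s k4 k6 0 (.s k86 k244 12 (.s k87 k84 0 (.d k247 k167
  k166 11 12)))), (.s k39 k228 8 (.s k55 k23 3 (.s k86 k244 12 (.s k70 k118 3 (.d k196 k133 k149 8
  12))))), (.s k4 k6 0 (.s k39 k228 8 (.s k55 k23 3 (.s k21 k38 4 (.d k149 k213 k196 7 12)))))] .n)
  (.c k153 (.l (.s k15 k10 2 (.s k68 k119 4 (.s k90 k240 14 (.s k78 k114 5 (.d k204 k141 k136 8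
  9)))))) (.c k204 (.l (.s k15 k10 2 (.s k39 k228 8 (.s k51 k27 5 (.s k119 k68 4 (.s k255 k187 9 (.s
  k95 k175 11 (.d k90 k240 k80 14 2)))))))) .n)))))

def s3_170_35 : T TT 256 :=
  (.f k165 k245 11 (.q k51 [(.s k15 k10 2 (.s k39 k27 5 (.s k102 k228 8 (.s k68 k119 4 (.d k204 k136
  k153 9 14))))), (.s k17 k34 4 (.s k153 k221 9 (.s k177 k141 5 (.s k240 k114 8 (.s k80 k160 11 (.d
  k90 k95 k15 2 14))))))] (.c k15 (.q k7 [(.s k4 k6 0 (.s k86 k244 12 (.s k87 k84 0 (.d k247 k167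
  k166 11 12)))), (.s k4 k6 0 (.s k12 k8 1 (.s k34 k17 4 (.s k38 k25 6 (.s k21 k55 4 (.d k42 k46 k63
  1 6)))))), (.s k17 k34 4 (.s k86 k244 12 (.s k84 k87 0 (.s k153 k221 9 (.s k102 k204 14 (.s k252
  k168 13 (.d k118 k70 k185 3 10)))))))] .n) (.c k90 (.l (.s k17 k34 4 (.s k153 k221 9 (.s k102 k204
  14 (.s k39 k228 8 (.d k15 k10 k27 2 5)))))) (.c k102 (.l (.s k15 k10 2 (.s k27 k39 5 (.s k90 k240
  14 (.s k153 k216 8 (.d k17 k34 k221 4 9)))))) (.c k153 (.l (.s k15 k10 2 (.s k39 k27 5 (.s k90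
  k240 14 (.s k95 k80 2 (.s k102 k228 8 (.s k119 k68 4 (.d k255 k187 k175 9 11)))))))) .n))))))

def s3_170_36 : T TT 256 :=
  (.q k21 [(.s k53 k37 3 (.s k149 k213 7 (.s k101 k197 11 (.s k117 k69 3 (.d k245 k181 k165 7
  11))))), (.s k15 k10 2 (.s k37 k53 3 (.s k26 k48 6 (.s k31 k16 2 (.d k63 k47 k42 3 6))))), (.s k15
  k10 2 (.s k63 k42 6 (.s k47 k31 3 (.s k149 k213 7 (.s k106 k192 14 (.d k165 k224 k245 10 11))))))]
  .n)

def s3_170_37 : T TT 256 :=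
  (.q k69 [(.s k101 k117 3 (.s k197 k133 7 (.s k149 k53 11 (.s k213 k21 7 (.d k245 k229 k165 3
  11))))), (.s k15 k10 2 (.s k133 k197 7 (.s k74 k192 10 (.s k79 k64 2 (.d k207 k143 k138 7 10))))),
  (.s k15 k10 2 (.s k101 k117 3 (.s k165 k245 11 (.s k90 k240 14 (.s k79 k112 6 (.d k207 k143 k138 7
  10))))))] .n)

def s3_170_38 : T TT 256 :=
  (.q k21 [(.s k53 k37 3 (.s k149 k213 7 (.s k101 k197 11 (.s k117 k69 3 (.d k245 k181 k165 7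
  11))))), (.s k15 k10 2 (.s k37 k53 3 (.s k26 k48 6 (.s k31 k16 2 (.d k63 k47 k42 3 6))))), (.s k15
  k10 2 (.s k63 k42 6 (.s k47 k31 3 (.s k149 k213 7 (.s k106 k192 14 (.d k165 k224 k245 10 11))))))]
  .n)

def s3_170_39 : T TT 256 :=
  (.q k21 [(.s k53 k37 3 (.s k149 k213 7 (.s k101 k197 11 (.s k117 k69 3 (.d k245 k181 k165 7
  11))))), (.s k15 k10 2 (.s k37 k53 3 (.s k26 k48 6 (.s k31 k16 2 (.d k63 k47 k42 3 6))))), (.s k15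
  k10 2 (.s k63 k42 6 (.s k47 k31 3 (.s k149 k213 7 (.s k106 k192 14 (.d k165 k224 k245 10 11))))))]
  .n)

def s3_170_40 : T TT 256 :=
  (.f k165 k245 11 (.q k105 [(.s k15 k10 2 (.s k45 k225 9 (.s k60 k30 4 (.s k65 k125 5 (.d k195 k130
  k150 8 14))))), (.s k65 k125 5 (.s k195 k130 8 (.s k150 k60 14 (.s k135 k180 4 (.d k15 k10 k75 2
  9))))), (.s k15 k10 2 (.s k45 k225 9 (.s k60 k30 4 (.s k90 k240 14 (.s k75 k120 4 (.d k195 k135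
  k150 9 14)))))), (.s k65 k125 5 (.s k195 k130 8 (.s k225 k45 9 (.s k240 k210 4 (.s k80 k160 11 (.d
  k90 k95 k15 2 14))))))] (.c k15 (.f k65 k125 5 (.l (.s k195 k130 8 (.s k225 k45 9 (.s k240 k210 4
  (.s k80 k160 11 (.s k90 k95 2 (.s k120 k75 4 (.d k60 k150 k180 14 9))))))))) (.c k150 (.l (.s k15
  k10 2 (.s k65 k125 5 (.s k90 k240 14 (.s k75 k120 4 (.d k195 k130 k135 8 9)))))) (.c k195 (.l (.s
  k15 k10 2 (.s k45 k225 9 (.s k60 k30 4 (.s k125 k65 5 (.s k255 k190 8 (.s k95 k175 11 (.d k90 k240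
  k80 14 2)))))))) .n)))))

def s3_170_41 : T TT 256 :=
  (.f k165 k245 11 (.q k60 [(.s k15 k10 2 (.s k45 k30 4 (.s k105 k225 9 (.s k65 k125 5 (.d k195 k130
  k150 8 14))))), (.s k20 k40 5 (.s k150 k215 8 (.s k180 k135 4 (.s k240 k120 9 (.s k80 k160 11 (.d
  k90 k95 k15 2 14))))))] (.c k15 (.q k7 [(.s k4 k6 0 (.s k86 k244 12 (.s k87 k84 0 (.d k247 k167
  k166 11 12)))), (.s k4 k6 0 (.s k12 k8 1 (.s k20 k40 5 (.s k28 k44 3 (.s k24 k16 1 (.d k36 k52 k48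
  3 5)))))), (.s k20 k40 5 (.s k86 k244 12 (.s k150 k215 8 (.s k22 k214 7 (.s k21 k23 0 (.d k37 k53
  k52 3 4))))))] .n) (.c k90 (.l (.s k20 k40 5 (.s k150 k215 8 (.s k105 k195 14 (.s k45 k225 9 (.d
  k15 k10 k30 2 4)))))) (.c k105 (.l (.s k15 k10 2 (.s k30 k45 4 (.s k90 k240 14 (.s k150 k210 9 (.d
  k20 k40 k215 5 8)))))) (.c k150 (.l (.s k15 k10 2 (.s k45 k30 4 (.s k90 k240 14 (.s k95 k80 2 (.s
  k105 k225 9 (.s k125 k65 5 (.d k255 k190 k175 8 11)))))))) .n))))))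

def s3_170_42 : T TT 256 :=
  (.f k165 k245 11 (.q k106 [(.s k15 k10 2 (.s k47 k224 10 (.s k63 k31 3 (.s k64 k127 6 (.d k192
  k128 k149 7 14))))), (.s k64 k127 6 (.s k192 k128 7 (.s k149 k63 14 (.s k133 k181 3 (.s k69 k197 7
  (.d k74 k79 k15 2 10)))))), (.s k15 k10 2 (.s k47 k224 10 (.s k63 k31 3 (.s k90 k240 14 (.s k74
  k122 3 (.d k192 k133 k149 10 14))))))] (.c k15 (.l (.s k64 k127 6 (.s k192 k128 7 (.s k149 k63 14
  (.s k21 k213 7 (.s k53 k37 3 (.s k133 k181 3 (.d k197 k69 k101 7 11)))))))) (.c k63 (.l (.s k15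
  k10 2 (.s k64 k127 6 (.s k90 k240 14 (.s k192 k128 7 (.d k74 k122 k133 3 10)))))) (.c k149 (.l (.s
  k15 k10 2 (.s k64 k127 6 (.s k90 k240 14 (.s k74 k122 3 (.d k192 k128 k133 7 10)))))) (.c k192 (.l
  (.s k15 k10 2 (.s k47 k224 10 (.s k63 k31 3 (.s k127 k64 6 (.s k255 k191 7 (.s k95 k175 11 (.d k90
  k240 k80 14 2)))))))) .n))))))

def s3_170_43 : T TT 256 :=
  (.q k63 [(.s k15 k10 2 (.s k47 k31 3 (.s k165 k245 11 (.s k106 k224 10 (.s k64 k127 6 (.d k192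
  k128 k149 7 14)))))), (.s k21 k42 6 (.s k53 k37 3 (.s k149 k213 7 (.s k101 k197 11 (.s k117 k69 3
  (.d k245 k181 k165 7 11)))))), (.s k15 k10 2 (.s k21 k42 6 (.s k31 k47 3 (.s k26 k16 2 (.d k37 k53
  k48 3 6)))))] (.c k47 (.l (.s k15 k10 2 (.s k21 k42 6 (.s k149 k213 7 (.s k165 k245 11 (.s k133
  k181 3 (.d k192 k106 k74 14 10))))))) (.c k106 (.l (.s k15 k10 2 (.s k31 k47 3 (.s k165 k245 11
  (.s k90 k240 14 (.s k149 k208 10 (.d k21 k42 k213 6 7))))))) .n)))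

def s3_170_44 : T TT 256 :=
  (.q k21 [(.s k53 k37 3 (.s k149 k213 7 (.s k101 k197 11 (.s k117 k69 3 (.d k245 k181 k165 7
  11))))), (.s k15 k10 2 (.s k37 k53 3 (.s k26 k48 6 (.s k31 k16 2 (.d k63 k47 k42 3 6))))), (.s k15
  k10 2 (.s k63 k42 6 (.s k47 k31 3 (.s k149 k213 7 (.s k106 k192 14 (.d k165 k224 k245 10 11))))))]
  .n)

def s3_170_45 : T TT 256 :=
  (.q k21 [(.s k53 k37 3 (.s k149 k213 7 (.s k101 k197 11 (.s k117 k69 3 (.d k245 k181 k165 7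
  11))))), (.s k15 k10 2 (.s k37 k53 3 (.s k42 k63 6 (.s k32 k47 2 (.d k48 k16 k26 3 6))))), (.s k15
  k10 2 (.s k63 k42 6 (.s k47 k31 3 (.s k149 k213 7 (.s k106 k192 14 (.d k165 k224 k245 10 11))))))]
  .n)

def s3_170_46 : T TT 256 :=
  (.q k21 [(.s k53 k37 3 (.s k149 k213 7 (.s k101 k197 11 (.s k117 k69 3 (.d k245 k181 k165 7
  11))))), (.s k15 k10 2 (.s k37 k53 3 (.s k26 k48 6 (.s k31 k16 2 (.d k63 k47 k42 3 6))))), (.s k15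
  k10 2 (.s k63 k42 6 (.s k47 k31 3 (.s k149 k213 7 (.s k106 k192 14 (.d k165 k224 k245 10 11))))))]
  .n)

def s3_170_47 : T TT 256 :=
  (.q k69 [(.s k101 k117 3 (.s k165 k245 11 (.s k37 k229 7 (.s k53 k21 3 (.d k197 k133 k149 7
  11))))), (.s k15 k10 2 (.s k133 k197 7 (.s k74 k192 10 (.s k79 k64 2 (.d k207 k143 k138 7 10))))),
  (.s k15 k10 2 (.s k101 k117 3 (.s k165 k245 11 (.s k90 k240 14 (.s k79 k112 6 (.d k207 k143 k138 7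
  10))))))] .n)

def s3_170_48 : T TT 256 :=
  (.f k165 k245 11 (.q k106 [(.s k15 k10 2 (.s k47 k224 10 (.s k63 k31 3 (.s k64 k127 6 (.d k192
  k128 k149 7 14))))), (.s k64 k127 6 (.s k192 k128 7 (.s k149 k63 14 (.s k21 k213 7 (.s k133 k181 3
  (.s k197 k69 7 (.d k53 k37 k101 3 11))))))), (.s k15 k10 2 (.s k47 k224 10 (.s k63 k31 3 (.s k21
  k42 6 (.s k149 k213 7 (.s k181 k133 3 (.d k240 k90 k122 14 10)))))))] (.c k18 (.q k33 [(.s k15 k10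
  2 (.s k47 k224 10 (.s k63 k31 3 (.s k64 k127 6 (.d k192 k128 k149 7 14))))), (.s k64 k127 6 (.s
  k192 k128 7 (.s k149 k63 14 (.s k21 k213 7 (.s k133 k181 3 (.s k197 k69 7 (.d k53 k37 k101 3
  11))))))), (.s k15 k10 2 (.s k47 k224 10 (.s k63 k31 3 (.s k21 k42 6 (.s k149 k213 7 (.s k181 k133
  3 (.d k240 k90 k122 14 10)))))))] (.c k63 (.l (.s k15 k10 2 (.s k64 k127 6 (.s k90 k240 14 (.s
  k192 k128 7 (.d k74 k122 k133 3 10)))))) (.c k149 (.l (.s k15 k10 2 (.s k64 k127 6 (.s k90 k240 14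
  (.s k74 k122 3 (.d k192 k128 k133 7 10)))))) .n))) (.c k33 (.q k18 [(.s k15 k10 2 (.s k47 k224 10
  (.s k63 k31 3 (.s k64 k127 6 (.d k192 k128 k149 7 14))))), (.s k64 k127 6 (.s k192 k128 7 (.s k149
  k63 14 (.s k21 k213 7 (.s k133 k181 3 (.s k197 k69 7 (.d k53 k37 k101 3 11))))))), (.s k15 k10 2
  (.s k47 k224 10 (.s k63 k31 3 (.s k21 k42 6 (.s k149 k213 7 (.s k181 k133 3 (.d k240 k90 k122 14
  10)))))))] (.c k63 (.l (.s k15 k10 2 (.s k64 k127 6 (.s k90 k240 14 (.s k192 k128 7 (.d k74 k122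
  k133 3 10)))))) (.c k149 (.l (.s k15 k10 2 (.s k64 k127 6 (.s k90 k240 14 (.s k74 k122 3 (.d k192
  k128 k133 7 10)))))) .n))) (.c k63 (.l (.s k15 k10 2 (.s k64 k127 6 (.s k90 k240 14 (.s k192 k128
  7 (.d k74 k122 k133 3 10)))))) (.c k149 (.l (.s k15 k10 2 (.s k64 k127 6 (.s k90 k240 14 (.s k74
  k122 3 (.d k192 k128 k133 7 10)))))) .n))))))

def s3_170_49 : T TT 256 :=
  (.q k21 [(.s k53 k37 3 (.s k149 k213 7 (.s k101 k197 11 (.s k117 k69 3 (.d k245 k181 k165 7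
  11))))), (.s k15 k10 2 (.s k37 k53 3 (.s k26 k48 6 (.s k31 k16 2 (.d k63 k47 k42 3 6))))), (.s k15
  k10 2 (.s k63 k42 6 (.s k47 k31 3 (.s k149 k213 7 (.s k106 k192 14 (.d k165 k224 k245 10 11))))))]
  .n)

def s3_170_50 : T TT 256 :=
  (.q k21 [(.s k53 k37 3 (.s k149 k213 7 (.s k101 k197 11 (.s k117 k69 3 (.d k245 k181 k165 7
  11))))), (.s k15 k10 2 (.s k37 k53 3 (.s k26 k48 6 (.s k31 k16 2 (.d k63 k47 k42 3 6))))), (.s k15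
  k10 2 (.s k63 k42 6 (.s k47 k31 3 (.s k149 k213 7 (.s k106 k192 14 (.d k165 k224 k245 10 11))))))]
  .n)

def s3_170_51 : T TT 256 :=
  (.f k165 k245 11 (.q k48 [(.s k15 k10 2 (.s k16 k32 3 (.s k154 k223 10 (.s k143 k176 6 (.d k207
  k101 k79 14 7))))), (.s k15 k10 2 (.s k32 k16 3 (.s k37 k26 6 (.s k21 k53 3 (.d k42 k47 k63 2
  6))))), (.s k16 k32 3 (.s k154 k223 10 (.s k101 k207 14 (.s k37 k229 7 (.s k53 k21 3 (.s k69 k117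
  3 (.d k197 k133 k149 7 11))))))), (.s k15 k10 2 (.s k37 k26 6 (.s k101 k229 7 (.s k69 k117 3 (.d
  k207 k138 k154 10 14)))))] (.c k19 (.q k35 [(.s k15 k10 2 (.s k16 k32 3 (.s k154 k223 10 (.s k143
  k176 6 (.d k207 k101 k79 14 7))))), (.s k15 k10 2 (.s k32 k16 3 (.s k37 k26 6 (.s k21 k53 3 (.d
  k42 k47 k63 2 6))))), (.s k16 k32 3 (.s k154 k223 10 (.s k101 k207 14 (.s k37 k229 7 (.s k53 k21 3
  (.s k69 k117 3 (.d k197 k133 k149 7 11))))))), (.s k15 k10 2 (.s k37 k26 6 (.s k101 k229 7 (.s k69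
  k117 3 (.d k207 k138 k154 10 14)))))] .n) (.c k35 (.q k19 [(.s k15 k10 2 (.s k16 k32 3 (.s k154
  k223 10 (.s k143 k176 6 (.d k207 k101 k79 14 7))))), (.s k15 k10 2 (.s k32 k16 3 (.s k37 k26 6 (.s
  k21 k53 3 (.d k42 k47 k63 2 6))))), (.s k16 k32 3 (.s k17 k18 0 (.s k153 k221 9 (.s k86 k220 10
  (.s k87 k84 0 (.d k223 k155 k154 9 10)))))), (.s k15 k10 2 (.s k37 k26 6 (.s k101 k229 7 (.s k69
  k117 3 (.d k207 k138 k154 10 14)))))] .n) .n))))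

def s3_170_52 : T TT 256 :=
  (.q k21 [(.s k53 k37 3 (.s k149 k213 7 (.s k101 k197 11 (.s k117 k69 3 (.d k245 k181 k165 7
  11))))), (.s k15 k10 2 (.s k37 k53 3 (.s k26 k48 6 (.s k31 k16 2 (.d k63 k47 k42 3 6))))), (.s k15
  k10 2 (.s k63 k42 6 (.s k47 k31 3 (.s k149 k213 7 (.s k106 k192 14 (.d k165 k224 k245 10 11))))))]
  .n)

def s3_170_53 : T TT 256 :=
  (.q k12 [(.s k4 k8 1 (.s k7 k6 0 (.s k165 k245 11 (.s k86 k244 12 (.s k87 k84 0 (.d k247 k167 k166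
  11 12)))))), (.s k15 k10 2 (.s k13 k14 0 (.s k165 k245 11 (.s k89 k241 13 (.s k81 k93 1 (.d k243
  k162 k166 12 14)))))), (.s k4 k8 1 (.s k15 k10 2 (.s k14 k13 0 (.s k166 k247 12 (.s k90 k242 13
  (.s k80 k95 2 (.d k240 k160 k165 11 14)))))))] (.c k89 (.l (.s k15 k10 2 (.s k14 k13 0 (.s k165
  k245 11 (.s k90 k240 14 (.s k166 k242 13 (.d k4 k8 k247 1 12))))))) (.c k165 (.f k4 k8 1 (.l (.s
  k15 k10 2 (.s k13 k14 0 (.s k166 k247 12 (.s k89 k243 14 (.s k93 k81 1 (.s k253 k173 11 (.d k1 k9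
  k169 1 13))))))))) (.c k166 (.l (.s k15 k10 2 (.s k13 k14 0 (.s k1 k9 1 (.s k165 k245 11 (.s k89
  k241 13 (.s k93 k81 1 (.d k253 k173 k169 11 13)))))))) .n))))

def s3_170_54 : T TT 256 :=
  (.q k21 [(.s k53 k37 3 (.s k149 k213 7 (.s k101 k197 11 (.s k117 k69 3 (.d k245 k181 k165 7
  11))))), (.s k15 k10 2 (.s k37 k53 3 (.s k26 k48 6 (.s k31 k16 2 (.d k63 k47 k42 3 6))))), (.s k15
  k10 2 (.s k63 k42 6 (.s k47 k31 3 (.s k149 k213 7 (.s k106 k192 14 (.d k165 k224 k245 10 11))))))]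
  .n)

def s3_170_55 : T TT 256 :=
  (.q k21 [(.s k53 k37 3 (.s k149 k213 7 (.s k101 k197 11 (.s k117 k69 3 (.d k245 k181 k165 7
  11))))), (.s k15 k10 2 (.s k37 k53 3 (.s k26 k48 6 (.s k31 k16 2 (.d k63 k47 k42 3 6))))), (.s k15
  k10 2 (.s k63 k42 6 (.s k47 k31 3 (.s k149 k213 7 (.s k106 k192 14 (.d k165 k224 k245 10 11))))))]
  .n)

def s3_170_56 : T TT 256 :=
  (.q k21 [(.s k53 k37 3 (.s k149 k213 7 (.s k101 k197 11 (.s k117 k69 3 (.d k245 k181 k165 7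
  11))))), (.s k15 k10 2 (.s k37 k53 3 (.s k26 k48 6 (.s k31 k16 2 (.d k63 k47 k42 3 6))))), (.s k15
  k10 2 (.s k63 k42 6 (.s k47 k31 3 (.s k149 k213 7 (.s k106 k192 14 (.d k165 k224 k245 10 11))))))]
  .n)

def s3_170_57 : T TT 256 :=
  (.q k21 [(.s k53 k37 3 (.s k149 k213 7 (.s k101 k197 11 (.s k117 k69 3 (.d k245 k181 k165 7
  11))))), (.s k15 k10 2 (.s k37 k53 3 (.s k26 k48 6 (.s k31 k16 2 (.d k63 k47 k42 3 6))))), (.s k15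
  k10 2 (.s k63 k42 6 (.s k47 k31 3 (.s k149 k213 7 (.s k106 k192 14 (.d k165 k224 k245 10 11))))))]
  .n)

def s3_170_58 : T TT 256 :=
  (.q k21 [(.s k53 k37 3 (.s k149 k213 7 (.s k101 k197 11 (.s k117 k69 3 (.d k245 k181 k165 7
  11))))), (.s k15 k10 2 (.s k37 k53 3 (.s k26 k48 6 (.s k63 k42 6 (.d k31 k16 k47 2 3))))), (.s k15
  k10 2 (.s k149 k213 7 (.s k165 k245 11 (.s k90 k240 14 (.s k31 k208 10 (.d k63 k42 k47 6 3))))))]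
  .n)

def s3_170_59 : T TT 256 :=
  (.q k21 [(.s k53 k37 3 (.s k149 k213 7 (.s k101 k197 11 (.s k117 k69 3 (.d k245 k181 k165 7
  11))))), (.s k15 k10 2 (.s k37 k53 3 (.s k26 k48 6 (.s k31 k16 2 (.d k63 k47 k42 3 6))))), (.s k15
  k10 2 (.s k63 k42 6 (.s k47 k31 3 (.s k149 k213 7 (.s k106 k192 14 (.d k165 k224 k245 10 11))))))]
  .n)

def s3_170_60 : T TT 256 :=
  (.f k165 k245 11 (.q k48 [(.s k15 k10 2 (.s k16 k32 3 (.s k154 k223 10 (.s k143 k176 6 (.d k207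
  k101 k79 14 7))))), (.s k15 k10 2 (.s k32 k16 3 (.s k37 k26 6 (.s k21 k53 3 (.d k42 k47 k63 2
  6))))), (.s k16 k32 3 (.s k154 k223 10 (.s k101 k207 14 (.s k37 k229 7 (.s k53 k21 3 (.s k69 k117
  3 (.d k197 k133 k149 7 11))))))), (.s k15 k10 2 (.s k37 k26 6 (.s k101 k229 7 (.s k69 k117 3 (.d
  k207 k138 k154 10 14)))))] (.c k22 (.q k41 [(.s k15 k10 2 (.s k16 k32 3 (.s k154 k223 10 (.s k143
  k176 6 (.d k207 k101 k79 14 7))))), (.s k15 k10 2 (.s k32 k16 3 (.s k37 k26 6 (.s k21 k53 3 (.d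
  k42 k47 k63 2 6))))), (.s k16 k32 3 (.s k154 k223 10 (.s k101 k207 14 (.s k37 k229 7 (.s k53 k21 3
  (.s k69 k117 3 (.d k197 k133 k149 7 11))))))), (.s k15 k10 2 (.s k37 k26 6 (.s k101 k229 7 (.s k69
  k117 3 (.d k207 k138 k154 10 14)))))] .n) (.c k41 (.q k22 [(.s k15 k10 2 (.s k16 k32 3 (.s k154
  k223 10 (.s k143 k176 6 (.d k207 k101 k79 14 7))))), (.s k15 k10 2 (.s k32 k16 3 (.s k37 k26 6 (.s
  k21 k53 3 (.d k42 k47 k63 2 6))))), (.s k16 k32 3 (.s k154 k223 10 (.s k101 k207 14 (.s k37 k229 7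
  (.s k53 k21 3 (.s k69 k117 3 (.d k197 k133 k149 7 11))))))), (.s k15 k10 2 (.s k37 k26 6 (.s k101
  k229 7 (.s k69 k117 3 (.d k207 k138 k154 10 14)))))] .n) .n))))

def s3_170_61 : T TT 256 :=
  (.q k21 [(.s k53 k37 3 (.s k149 k213 7 (.s k101 k197 11 (.s k117 k69 3 (.d k245 k181 k165 7
  11))))), (.s k15 k10 2 (.s k37 k53 3 (.s k26 k48 6 (.s k31 k16 2 (.d k63 k47 k42 3 6))))), (.s k15
  k10 2 (.s k63 k42 6 (.s k47 k31 3 (.s k149 k213 7 (.s k106 k192 14 (.d k165 k224 k245 10 11))))))]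
  .n)

def s3_170_62 : T TT 256 :=
  (.q k21 [(.s k53 k37 3 (.s k149 k213 7 (.s k101 k197 11 (.s k117 k69 3 (.d k245 k181 k165 7
  11))))), (.s k15 k10 2 (.s k37 k53 3 (.s k26 k48 6 (.s k31 k16 2 (.d k63 k47 k42 3 6))))), (.s k15
  k10 2 (.s k63 k42 6 (.s k47 k31 3 (.s k149 k213 7 (.s k106 k192 14 (.d k165 k224 k245 10 11))))))]
  .n)

def s3_170_63 : T TT 256 :=
  (.f k165 k245 11 (.q k133 [(.s k149 k181 3 (.s k21 k213 7 (.s k53 k37 3 (.d k197 k69 k101 7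
  11)))), (.s k15 k10 2 (.s k192 k74 10 (.s k64 k128 7 (.s k106 k127 6 (.s k224 k47 10 (.d k240 k90
  k208 14 3)))))), (.s k15 k10 2 (.s k69 k197 7 (.s k138 k207 10 (.s k128 k143 2 (.d k192 k64 k74 7
  10)))))] (.c k23 (.q k43 [(.s k149 k181 3 (.s k21 k213 7 (.s k53 k37 3 (.d k197 k69 k101 7 11)))),
  (.s k15 k10 2 (.s k192 k74 10 (.s k64 k128 7 (.s k106 k127 6 (.s k224 k47 10 (.d k240 k90 k208 14
  3)))))), (.s k15 k10 2 (.s k69 k197 7 (.s k138 k207 10 (.s k128 k143 2 (.d k192 k64 k74 7 10)))))]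
  .n) (.c k43 (.q k23 [(.s k149 k181 3 (.s k21 k213 7 (.s k53 k37 3 (.d k197 k69 k101 7 11)))), (.s
  k15 k10 2 (.s k192 k74 10 (.s k128 k64 7 (.s k138 k143 2 (.d k69 k197 k207 7 10))))), (.s k149
  k181 3 (.s k86 k212 8 (.s k7 k244 12 (.s k55 k39 3 (.d k196 k70 k102 8 12)))))] .n) .n))))

def s3_170_64 : T TT 256 :=
  (.q k21 [(.s k53 k37 3 (.s k149 k213 7 (.s k101 k197 11 (.s k117 k69 3 (.d k245 k181 k165 7
  11))))), (.s k15 k10 2 (.s k37 k53 3 (.s k26 k48 6 (.s k31 k16 2 (.d k63 k47 k42 3 6))))), (.s k15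
  k10 2 (.s k63 k42 6 (.s k47 k31 3 (.s k149 k213 7 (.s k106 k192 14 (.d k165 k224 k245 10 11))))))]
  .n)

def s3_170_65 : T TT 256 :=
  (.q k21 [(.s k53 k37 3 (.s k149 k213 7 (.s k101 k197 11 (.s k117 k69 3 (.d k245 k181 k165 7
  11))))), (.s k15 k10 2 (.s k37 k53 3 (.s k26 k48 6 (.s k31 k16 2 (.d k63 k47 k42 3 6))))), (.s k15
  k10 2 (.s k63 k42 6 (.s k47 k31 3 (.s k149 k213 7 (.s k106 k192 14 (.d k165 k224 k245 10 11))))))]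
  .n)

def s3_170_66 : T TT 256 :=
  (.f k165 k245 11 (.q k192 [(.s k15 k10 2 (.s k64 k128 7 (.s k106 k127 6 (.s k47 k224 10 (.d k63
  k149 k31 14 3))))), (.s k15 k10 2 (.s k128 k64 7 (.s k133 k74 10 (.s k69 k197 7 (.d k138 k143 k207
  2 10))))), (.s k64 k128 7 (.s k106 k127 6 (.s k149 k63 14 (.s k21 k213 7 (.s k53 k37 3 (.s k133
  k181 3 (.d k197 k69 k101 7 11))))))), (.s k15 k10 2 (.s k133 k74 10 (.s k149 k181 3 (.s k21 k213 7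
  (.d k63 k42 k106 6 14)))))] .n))

def s3_170_67 : T TT 256 :=
  (.f k165 k245 11 (.q k195 [(.s k15 k10 2 (.s k65 k130 8 (.s k105 k125 5 (.s k45 k225 9 (.d k60
  k150 k30 14 4))))), (.s k15 k10 2 (.s k90 k240 14 (.s k95 k80 2 (.s k135 k75 9 (.s k150 k180 4 (.s
  k215 k20 8 (.d k255 k235 k175 5 11))))))), (.s k65 k130 8 (.s k105 k125 5 (.s k225 k45 9 (.s k240
  k210 4 (.s k80 k160 11 (.d k90 k95 k15 2 14))))))] (.c k15 (.q k7 [(.s k4 k6 0 (.s k86 k244 12 (.s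
  k87 k84 0 (.d k247 k167 k166 11 12)))), (.s k4 k6 0 (.s k12 k8 1 (.s k130 k65 8 (.s k134 k73 10
  (.s k69 k199 8 (.d k138 k142 k207 1 10)))))), (.s k65 k130 8 (.s k86 k244 12 (.s k84 k87 0 (.s
  k105 k125 5 (.s k150 k60 14 (.s k252 k168 13 (.d k214 k22 k233 7 6)))))))] .n) (.c k90 (.l (.s k65
  k130 8 (.s k105 k125 5 (.s k150 k60 14 (.s k135 k180 4 (.d k15 k10 k75 2 9)))))) (.c k150 (.l (.s
  k15 k10 2 (.s k75 k135 9 (.s k90 k240 14 (.s k105 k120 4 (.d k65 k125 k130 5 8)))))) .n)))))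

def s3_170_68 : T TT 256 :=
  (.q k21 [(.s k53 k37 3 (.s k149 k213 7 (.s k101 k197 11 (.s k117 k69 3 (.d k245 k181 k165 7
  11))))), (.s k15 k10 2 (.s k37 k53 3 (.s k26 k48 6 (.s k31 k16 2 (.d k63 k47 k42 3 6))))), (.s k15
  k10 2 (.s k63 k42 6 (.s k47 k31 3 (.s k149 k213 7 (.s k106 k192 14 (.d k165 k224 k245 10 11))))))]
  .n)

def s3_170_69 : T TT 256 :=
  (.q k21 [(.s k37 k53 3 (.s k42 k63 6 (.s k32 k47 2 (.s k48 k16 3 (.d k15 k10 k26 2 6))))), (.s k63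
  k42 6 (.s k149 k213 7 (.s k165 k245 11 (.s k181 k133 3 (.s k240 k122 10 (.s k80 k160 11 (.d k90
  k95 k15 2 14)))))))] (.c k15 (.l (.s k53 k37 3 (.s k63 k42 6 (.s k48 k58 2 (.s k149 k213 7 (.s
  k101 k197 11 (.s k154 k207 14 (.d k16 k32 k223 3 10)))))))) (.c k42 (.l (.s k15 k10 2 (.s k37 k53
  3 (.s k26 k48 6 (.s k16 k31 2 (.s k154 k223 10 (.s k90 k218 7 (.d k165 k245 k240 11 14)))))))) (.c
  k63 (.l (.s k15 k10 2 (.s k37 k53 3 (.s k48 k26 6 (.s k16 k32 3 (.s k154 k223 10 (.s k101 k207 14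
  (.d k165 k229 k245 7 11)))))))) .n))))

def s3_170_70 : T TT 256 :=
  (.f k165 k245 11 (.q k204 [(.s k15 k10 2 (.s k68 k136 9 (.s k102 k119 4 (.s k39 k228 8 (.d k51
  k153 k27 14 5))))), (.s k15 k10 2 (.s k90 k240 14 (.s k95 k80 2 (.s k141 k78 8 (.s k153 k177 5 (.s
  k221 k17 9 (.d k255 k238 k175 4 11))))))), (.s k68 k136 9 (.s k102 k119 4 (.s k228 k39 8 (.s k240
  k216 5 (.s k80 k160 11 (.d k90 k95 k15 2 14))))))] (.c k15 (.q k7 [(.s k86 k244 12 (.s k87 k84 0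
  (.s k247 k167 11 (.d k4 k6 k166 0 12)))), (.s k4 k6 0 (.s k12 k8 1 (.s k68 k136 9 (.s k76 k140 7
  (.s k72 k64 1 (.d k132 k196 k192 7 9)))))), (.s k68 k136 9 (.s k86 k244 12 (.s k84 k87 0 (.s k100
  k116 3 (.s k48 k152 13 (.s k32 k16 3 (.d k168 k236 k252 9 13)))))))] .n) (.c k90 (.l (.s k68 k136
  9 (.s k102 k119 4 (.s k153 k51 14 (.s k141 k177 5 (.d k15 k10 k78 2 8)))))) (.c k153 (.l (.s k15
  k10 2 (.s k78 k141 8 (.s k90 k240 14 (.s k102 k114 5 (.d k68 k119 k136 4 9)))))) .n)))))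

def s3_170_71 : T TT 256 :=
  (.q k207 [(.s k15 k10 2 (.s k69 k138 10 (.s k79 k143 7 (.s k74 k64 2 (.d k133 k197 k192 7 10))))),
  (.s k69 k138 10 (.s k101 k117 3 (.s k165 k245 11 (.s k37 k229 7 (.s k53 k21 3 (.d k197 k133 k149 7
  11)))))), (.s k15 k10 2 (.s k143 k79 7 (.s k165 k245 11 (.s k154 k176 6 (.s k16 k223 10 (.d k48
  k32 k101 3 14))))))] (.c k154 (.l (.s k15 k10 2 (.s k79 k143 7 (.s k165 k245 11 (.s k90 k240 14
  (.s k101 k112 6 (.d k69 k117 k138 3 10))))))) .n))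

def s3_170_72 : T TT 256 :=
  (.q k21 [(.s k53 k37 3 (.s k149 k213 7 (.s k101 k197 11 (.s k117 k69 3 (.d k245 k181 k165 7
  11))))), (.s k15 k10 2 (.s k37 k53 3 (.s k26 k48 6 (.s k31 k16 2 (.d k63 k47 k42 3 6))))), (.s k15
  k10 2 (.s k63 k42 6 (.s k47 k31 3 (.s k149 k213 7 (.s k106 k192 14 (.d k165 k224 k245 10 11))))))]
  .n)

def s3_170_73 : T TT 256 :=
  (.q k21 [(.s k53 k37 3 (.s k149 k213 7 (.s k101 k197 11 (.s k117 k69 3 (.d k245 k181 k165 7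
  11))))), (.s k15 k10 2 (.s k37 k53 3 (.s k26 k48 6 (.s k31 k16 2 (.d k63 k47 k42 3 6))))), (.s k15
  k10 2 (.s k63 k42 6 (.s k47 k31 3 (.s k149 k213 7 (.s k106 k192 14 (.d k165 k224 k245 10 11))))))]
  .n)

def s3_170_74 : T TT 256 :=
  (.q k21 [(.s k53 k37 3 (.s k149 k213 7 (.s k101 k197 11 (.s k117 k69 3 (.d k245 k181 k165 7
  11))))), (.s k15 k10 2 (.s k37 k53 3 (.s k26 k48 6 (.s k31 k16 2 (.d k63 k47 k42 3 6))))), (.s k15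
  k10 2 (.s k63 k42 6 (.s k47 k31 3 (.s k149 k213 7 (.s k106 k192 14 (.d k165 k224 k245 10 11))))))]
  .n)

def s3_170_75 : T TT 256 :=
  (.q k21 [(.s k53 k37 3 (.s k149 k213 7 (.s k101 k197 11 (.s k117 k69 3 (.d k245 k181 k165 7
  11))))), (.s k15 k10 2 (.s k37 k53 3 (.s k26 k48 6 (.s k31 k16 2 (.d k63 k47 k42 3 6))))), (.s k15
  k10 2 (.s k63 k42 6 (.s k47 k31 3 (.s k149 k213 7 (.s k106 k192 14 (.d k165 k224 k245 10 11))))))]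
  .n)

def s3_170_76 : T TT 256 :=
  (.q k21 [(.s k53 k37 3 (.s k149 k213 7 (.s k101 k197 11 (.s k117 k69 3 (.d k245 k181 k165 7
  11))))), (.s k15 k10 2 (.s k37 k53 3 (.s k26 k48 6 (.s k31 k16 2 (.d k63 k47 k42 3 6))))), (.s k15
  k10 2 (.s k63 k42 6 (.s k47 k31 3 (.s k149 k213 7 (.s k106 k192 14 (.d k165 k224 k245 10 11))))))]
  .n)

def s3_170_77 : T TT 256 :=
  (.q k21 [(.s k53 k37 3 (.s k149 k213 7 (.s k101 k197 11 (.s k117 k69 3 (.d k245 k181 k165 7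
  11))))), (.s k15 k10 2 (.s k37 k53 3 (.s k26 k48 6 (.s k31 k16 2 (.d k63 k47 k42 3 6))))), (.s k15
  k10 2 (.s k63 k42 6 (.s k47 k31 3 (.s k149 k213 7 (.s k106 k192 14 (.d k165 k224 k245 10 11))))))]
  .n)

def s3_170_78 : T TT 256 :=
  (.q k21 [(.s k53 k37 3 (.s k149 k213 7 (.s k101 k197 11 (.s k117 k69 3 (.d k245 k181 k165 7
  11))))), (.s k15 k10 2 (.s k37 k53 3 (.s k26 k48 6 (.s k31 k16 2 (.d k63 k47 k42 3 6))))), (.s k15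
  k10 2 (.s k63 k42 6 (.s k47 k31 3 (.s k149 k213 7 (.s k106 k192 14 (.d k165 k224 k245 10 11))))))]
  .n)

def s3_170_79 : T TT 256 :=
  (.q k21 [(.s k53 k37 3 (.s k149 k213 7 (.s k101 k197 11 (.s k117 k69 3 (.d k245 k181 k165 7
  11))))), (.s k15 k10 2 (.s k37 k53 3 (.s k26 k48 6 (.s k31 k16 2 (.d k63 k47 k42 3 6))))), (.s k15
  k10 2 (.s k63 k42 6 (.s k47 k31 3 (.s k149 k213 7 (.s k106 k192 14 (.d k165 k224 k245 10 11))))))]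
  .n)

def s3_170_80 : T TT 256 :=
  (.q k21 [(.s k53 k37 3 (.s k149 k213 7 (.s k101 k197 11 (.s k117 k69 3 (.d k245 k181 k165 7
  11))))), (.s k15 k10 2 (.s k37 k53 3 (.s k26 k48 6 (.s k31 k16 2 (.d k63 k47 k42 3 6))))), (.s k15
  k10 2 (.s k63 k42 6 (.s k47 k31 3 (.s k149 k213 7 (.s k106 k192 14 (.d k165 k224 k245 10 11))))))]
  .n)

def s3_170_81 : T TT 256 :=
  (.q k21 [(.s k53 k37 3 (.s k149 k213 7 (.s k101 k197 11 (.s k117 k69 3 (.d k245 k181 k165 7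
  11))))), (.s k15 k10 2 (.s k37 k53 3 (.s k26 k48 6 (.s k31 k16 2 (.d k63 k47 k42 3 6))))), (.s k15
  k10 2 (.s k63 k42 6 (.s k47 k31 3 (.s k149 k213 7 (.s k106 k192 14 (.d k165 k224 k245 10 11))))))]
  .n)

def s3_170_82 : T TT 256 :=
  (.f k165 k245 11 (.q k240 [(.d k15 k10 k90 2 14)] (.c k10 (.l (.s k80 k160 11 (.d k90 k95 k15 2
  14))) (.c k15 (.q k7 [(.s k4 k6 0 (.s k86 k244 12 (.s k87 k84 0 (.d k247 k167 k166 11 12)))), (.s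
  k80 k160 11 (.s k244 k86 12 (.s k252 k248 1 (.s k84 k168 13 (.s k88 k92 1 (.d k164 k4 k12 11
  13)))))), (.s k4 k6 0 (.s k12 k8 1 (.s k164 k88 13 (.d k166 k167 k247 0 12)))), (.s k80 k160 11
  (.s k86 k244 12 (.s k84 k87 0 (.s k92 k88 1 (.s k89 k83 2 (.s k93 k81 1 (.d k95 k94 k90 0
  2)))))))] .n) (.c k90 (.f k80 k160 11 (.q k86 [(.s k244 k7 12 (.s k252 k248 1 (.d k84 k87 k168 0
  13))), (.s k7 k244 12 (.s k4 k6 0 (.s k12 k8 1 (.s k164 k88 13 (.d k166 k247 k167 12 0))))), (.s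
  k84 k87 0 (.s k88 k92 1 (.s k12 k164 13 (.s k8 k4 1 (.d k168 k248 k252 11 13))))), (.s k7 k244 12
  (.s k4 k6 0 (.s k87 k84 0 (.d k247 k167 k166 11 12))))] (.c k10 (.q k250 [(.s k244 k7 12 (.s k252
  k248 1 (.d k84 k87 k168 0 13))), (.s k7 k244 12 (.s k4 k6 0 (.s k87 k84 0 (.d k247 k167 k166 11
  12)))), (.s k84 k87 0 (.s k88 k92 1 (.s k12 k164 13 (.s k8 k4 1 (.d k168 k248 k252 11 13))))), (.s
  k7 k244 12 (.s k4 k6 0 (.s k12 k8 1 (.s k164 k88 13 (.d k166 k247 k167 12 0)))))] .n) (.c k250 (.l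
  (.s k10 k15 2 (.s k84 k87 0 (.s k252 k168 13 (.d k244 k7 k248 12 1))))) .n)))) .n)))))

def s3_170_83 : T TT 256 :=
  (.f k165 k245 11 (.q k243 [(.s k15 k10 2 (.s k81 k162 12 (.s k89 k93 1 (.s k13 k241 13 (.d k12
  k166 k14 14 0))))), (.s k81 k162 12 (.s k89 k93 1 (.s k166 k12 14 (.s k4 k247 12 (.s k164 k167 0
  (.s k244 k84 11 (.d k7 k6 k86 0 12))))))), (.s k15 k10 2 (.s k167 k91 13 (.s k166 k164 0 (.s k4
  k247 12 (.d k12 k8 k89 1 14)))))] (.c k12 (.l (.s k15 k10 2 (.s k81 k162 12 (.s k89 k93 1 (.s k90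
  k240 14 (.d k91 k88 k167 0 13)))))) (.c k89 (.l (.s k15 k10 2 (.s k90 k240 14 (.s k95 k80 2 (.s
  k167 k91 13 (.s k166 k164 0 (.s k247 k4 12 (.d k255 k251 k175 1 11)))))))) (.c k166 (.l (.s k15
  k10 2 (.s k90 k240 14 (.s k91 k167 13 (.s k89 k88 0 (.d k81 k93 k162 1 12)))))) .n)))))

def s3_170_84 : T TT 256 :=
  (.q k21 [(.s k53 k37 3 (.s k149 k213 7 (.s k101 k197 11 (.s k117 k69 3 (.d k245 k181 k165 7
  11))))), (.s k15 k10 2 (.s k37 k53 3 (.s k26 k48 6 (.s k31 k16 2 (.d k63 k47 k42 3 6))))), (.s k15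
  k10 2 (.s k63 k42 6 (.s k47 k31 3 (.s k149 k213 7 (.s k106 k192 14 (.d k165 k224 k245 10 11))))))]
  .n)

def s3_170_86 : T TT 256 :=
  (.q k69 [(.s k101 k117 3 (.s k165 k245 11 (.s k37 k229 7 (.s k53 k21 3 (.d k197 k133 k149 7
  11))))), (.s k15 k10 2 (.s k133 k197 7 (.s k74 k192 10 (.s k79 k64 2 (.d k207 k143 k138 7 10))))),
  (.s k15 k10 2 (.s k101 k117 3 (.s k165 k245 11 (.s k90 k240 14 (.s k79 k112 6 (.d k207 k143 k138 7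
  10))))))] (.c k2 (.q k254 [(.s k101 k117 3 (.s k165 k245 11 (.s k37 k229 7 (.s k53 k21 3 (.d k197
  k133 k149 7 11))))), (.s k15 k10 2 (.s k133 k197 7 (.s k74 k192 10 (.s k79 k64 2 (.d k207 k143
  k138 7 10))))), (.s k15 k10 2 (.s k101 k117 3 (.s k165 k245 11 (.s k90 k240 14 (.s k79 k112 6 (.d
  k207 k143 k138 7 10))))))] (.c k169 (.q k252 [(.s k101 k117 3 (.s k165 k245 11 (.s k37 k229 7 (.s
  k53 k21 3 (.d k197 k133 k149 7 11))))), (.s k15 k10 2 (.s k133 k197 7 (.s k74 k192 10 (.s k79 k64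
  2 (.d k207 k143 k138 7 10))))), (.s k15 k10 2 (.s k165 k245 11 (.s k90 k240 14 (.s k95 k80 2 (.d
  k255 k253 k175 0 11)))))] (.c k168 (.q k171 [(.s k101 k117 3 (.s k165 k245 11 (.s k37 k229 7 (.s
  k53 k21 3 (.d k197 k133 k149 7 11))))), (.s k15 k10 2 (.s k133 k197 7 (.s k74 k192 10 (.s k79 k64
  2 (.d k207 k143 k138 7 10))))), (.s k15 k10 2 (.s k165 k245 11 (.s k90 k240 14 (.s k95 k80 2 (.d
  k255 k253 k175 0 11)))))] .n) (.c k171 (.l (.s k168 k84 13 (.s k15 k10 2 (.s k133 k197 7 (.s k74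
  k192 10 (.s k79 k64 2 (.d k207 k143 k138 7 10))))))) .n))) (.c k252 (.q k169 [(.s k1 k253 13 (.s
  k101 k117 3 (.s k33 k237 9 (.s k49 k17 3 (.d k205 k137 k153 9 13))))), (.s k15 k10 2 (.s k133 k197
  7 (.s k74 k192 10 (.s k79 k64 2 (.d k207 k143 k138 7 10)))))] (.c k207 (.l (.s k1 k253 13 (.s k13
  k9 1 (.s k165 k245 11 (.s k161 k173 1 (.d k241 k81 k89 11 13)))))) .n)) .n))) (.c k169 (.q k252
  [(.s k101 k117 3 (.s k165 k245 11 (.s k37 k229 7 (.s k53 k21 3 (.d k197 k133 k149 7 11))))), (.s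
  k15 k10 2 (.s k133 k197 7 (.s k74 k192 10 (.s k79 k64 2 (.d k207 k143 k138 7 10))))), (.s k15 k10
  2 (.s k101 k117 3 (.s k165 k245 11 (.s k90 k240 14 (.s k79 k112 6 (.d k207 k143 k138 7 10))))))]
  (.c k2 (.q k254 [(.s k101 k117 3 (.s k165 k245 11 (.s k37 k229 7 (.s k53 k21 3 (.d k197 k133 k149
  7 11))))), (.s k15 k10 2 (.s k133 k197 7 (.s k74 k192 10 (.s k79 k64 2 (.d k207 k143 k138 7
  10))))), (.s k15 k10 2 (.s k165 k245 11 (.s k90 k240 14 (.s k95 k80 2 (.d k255 k253 k175 0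
  11)))))] (.c k168 (.q k171 [(.s k101 k117 3 (.s k165 k245 11 (.s k37 k229 7 (.s k53 k21 3 (.d k197
  k133 k149 7 11))))), (.s k15 k10 2 (.s k133 k197 7 (.s k74 k192 10 (.s k79 k64 2 (.d k207 k143
  k138 7 10))))), (.s k15 k10 2 (.s k165 k245 11 (.s k90 k240 14 (.s k95 k80 2 (.d k255 k253 k175 0
  11)))))] .n) (.c k171 (.l (.s k168 k84 13 (.s k15 k10 2 (.s k133 k197 7 (.s k74 k192 10 (.s k79
  k64 2 (.d k207 k143 k138 7 10))))))) .n))) (.c k168 (.q k171 [(.s k101 k117 3 (.s k165 k245 11 (.s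
  k37 k229 7 (.s k53 k21 3 (.d k197 k133 k149 7 11))))), (.s k15 k10 2 (.s k133 k197 7 (.s k74 k192
  10 (.s k79 k64 2 (.d k207 k143 k138 7 10))))), (.s k15 k10 2 (.s k101 k117 3 (.s k165 k245 11 (.s
  k90 k240 14 (.s k79 k112 6 (.d k207 k143 k138 7 10))))))] (.c k2 (.q k254 [(.s k101 k117 3 (.s
  k165 k245 11 (.s k37 k229 7 (.s k53 k21 3 (.d k197 k133 k149 7 11))))), (.s k15 k10 2 (.s k133
  k197 7 (.s k74 k192 10 (.s k79 k64 2 (.d k207 k143 k138 7 10))))), (.s k15 k10 2 (.s k165 k245 11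
  (.s k90 k240 14 (.s k95 k80 2 (.d k255 k253 k175 0 11)))))] .n) (.c k254 (.q k2 [(.s k101 k117 3
  (.s k165 k245 11 (.s k37 k229 7 (.s k53 k21 3 (.d k197 k133 k149 7 11))))), (.s k10 k15 2 (.s k6
  k14 1 (.s k138 k207 10 (.s k70 k206 9 (.s k134 k198 7 (.d k4 k7 k199 0 8))))))] .n) .n))) (.c k171
  (.l (.s k168 k84 13 (.s k15 k10 2 (.s k133 k197 7 (.s k74 k192 10 (.s k79 k64 2 (.d k207 k143 k138
  7 10))))))) (.c k254 (.q k2 [(.s k101 k117 3 (.s k165 k245 11 (.s k37 k229 7 (.s k53 k21 3 (.d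
  k197 k133 k149 7 11))))), (.s k10 k15 2 (.s k6 k14 1 (.s k138 k207 10 (.s k70 k206 9 (.s k134 k198
  7 (.d k4 k7 k199 0 8))))))] (.c k168 (.q k171 [(.s k101 k117 3 (.s k165 k245 11 (.s k37 k229 7 (.s
  k53 k21 3 (.d k197 k133 k149 7 11))))), (.s k10 k15 2 (.s k6 k14 1 (.s k138 k207 10 (.s k70 k206 9
  (.s k134 k198 7 (.d k4 k7 k199 0 8))))))] .n) (.c k171 (.l (.s k168 k84 13 (.s k15 k10 2 (.s k133
  k197 7 (.s k74 k192 10 (.s k79 k64 2 (.d k207 k143 k138 7 10))))))) .n))) .n))))) (.c k252 (.q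
  k169 [(.s k1 k253 13 (.s k101 k117 3 (.s k33 k237 9 (.s k49 k17 3 (.d k205 k137 k153 9 13))))),
  (.s k15 k10 2 (.s k133 k197 7 (.s k74 k192 10 (.s k79 k64 2 (.d k207 k143 k138 7 10)))))] (.c k2
  (.q k254 [(.s k1 k253 13 (.s k101 k117 3 (.s k33 k237 9 (.s k49 k17 3 (.d k205 k137 k153 9
  13))))), (.s k15 k10 2 (.s k133 k197 7 (.s k74 k192 10 (.s k79 k64 2 (.d k207 k143 k138 7 10)))))]
  (.c k207 (.l (.s k1 k253 13 (.s k13 k9 1 (.s k165 k245 11 (.s k161 k173 1 (.d k241 k81 k89 11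
  13)))))) .n)) (.c k207 (.l (.s k1 k253 13 (.s k13 k9 1 (.s k165 k245 11 (.s k161 k173 1 (.d k241
  k81 k89 11 13)))))) (.c k254 (.q k2 [(.s k101 k117 3 (.s k165 k245 11 (.s k37 k229 7 (.s k53 k21 3
  (.d k197 k133 k149 7 11))))), (.s k10 k15 2 (.s k6 k14 1 (.s k138 k207 10 (.s k70 k206 9 (.s k134
  k198 7 (.d k4 k7 k199 0 8))))))] (.c k253 (.q k255 [(.s k15 k10 2 (.s k95 k175 11 (.s k90 k80 2
  (.d k165 k245 k240 11 14)))), (.s k101 k117 3 (.s k207 k138 10 (.s k154 k48 14 (.d k223 k239 k16 3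
  10))))] .n) (.c k255 (.l (.s k253 k1 13 (.s k15 k10 2 (.s k133 k197 7 (.s k74 k192 10 (.s k79 k64
  2 (.d k207 k143 k138 7 10))))))) .n))) .n)))) (.c k254 (.q k2 [(.s k101 k117 3 (.s k165 k245 11
  (.s k37 k229 7 (.s k53 k21 3 (.d k197 k133 k149 7 11))))), (.s k10 k15 2 (.s k6 k14 1 (.s k138
  k207 10 (.s k70 k206 9 (.s k134 k198 7 (.d k4 k7 k199 0 8))))))] (.c k169 (.q k252 [(.s k101 k117
  3 (.s k165 k245 11 (.s k37 k229 7 (.s k53 k21 3 (.d k197 k133 k149 7 11))))), (.s k10 k15 2 (.s k6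
  k14 1 (.s k138 k207 10 (.s k70 k206 9 (.s k134 k198 7 (.d k4 k7 k199 0 8))))))] (.c k168 (.q k171
  [(.s k101 k117 3 (.s k165 k245 11 (.s k37 k229 7 (.s k53 k21 3 (.d k197 k133 k149 7 11))))), (.s
  k10 k15 2 (.s k6 k14 1 (.s k138 k207 10 (.s k70 k206 9 (.s k134 k198 7 (.d k4 k7 k199 0 8))))))]
  .n) (.c k171 (.l (.s k168 k84 13 (.s k15 k10 2 (.s k133 k197 7 (.s k74 k192 10 (.s k79 k64 2 (.d
  k207 k143 k138 7 10))))))) .n))) (.c k252 (.q k169 [(.s k101 k117 3 (.s k165 k245 11 (.s k37 k229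
  7 (.s k53 k21 3 (.d k197 k133 k149 7 11))))), (.s k10 k15 2 (.s k6 k14 1 (.s k138 k207 10 (.s k70
  k206 9 (.s k134 k198 7 (.d k4 k7 k199 0 8))))))] (.c k253 (.q k255 [(.s k15 k10 2 (.s k95 k175 11
  (.s k90 k80 2 (.d k165 k245 k240 11 14)))), (.s k101 k117 3 (.s k207 k138 10 (.s k154 k48 14 (.d
  k223 k239 k16 3 10))))] .n) (.c k255 (.l (.s k253 k1 13 (.s k15 k10 2 (.s k133 k197 7 (.s k74 k192
  10 (.s k79 k64 2 (.d k207 k143 k138 7 10))))))) .n))) .n))) .n)))))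

def s3_170_87 : T TT 256 :=
  (.f k165 k245 11 (.q k37 [(.s k53 k21 3 (.s k101 k229 7 (.s k69 k117 3 (.d k197 k133 k149 7
  11)))), (.s k15 k10 2 (.s k21 k53 3 (.s k26 k48 6 (.s k31 k16 2 (.d k63 k47 k42 3 6))))), (.s k15
  k10 2 (.s k48 k26 6 (.s k16 k32 3 (.s k101 k229 7 (.d k154 k223 k207 10 14)))))] (.c k171 (.q k255
  [(.s k15 k10 2 (.s k90 k240 14 (.d k95 k80 k175 2 11))), (.s k53 k21 3 (.s k101 k229 7 (.s k69
  k117 3 (.d k197 k133 k149 7 11))))] (.c k168 (.q k169 [(.s k15 k10 2 (.s k90 k240 14 (.d k95 k80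
  k175 2 11))), (.s k1 k253 13 (.s k13 k9 1 (.s k161 k173 1 (.d k241 k81 k89 11 13))))] (.c k161 (.l
  (.s k15 k10 2 (.s k95 k175 11 (.d k90 k80 k240 2 14)))) .n)) (.c k169 (.q k168 [(.s k15 k10 2 (.s
  k90 k240 14 (.d k95 k80 k175 2 11))), (.s k53 k21 3 (.s k101 k229 7 (.s k69 k117 3 (.d k197 k133
  k149 7 11))))] (.c k86 (.l (.s k252 k84 13 (.s k15 k10 2 (.s k90 k240 14 (.d k95 k80 k175 2
  11))))) (.c k252 (.q k86 [(.s k53 k21 3 (.s k101 k229 7 (.s k69 k117 3 (.d k197 k133 k149 7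
  11)))), (.s k15 k10 2 (.s k90 k240 14 (.d k95 k80 k175 2 11)))] .n) .n))) .n))) (.c k255 (.q k171
  [(.s k53 k21 3 (.s k101 k229 7 (.s k69 k117 3 (.d k197 k133 k149 7 11)))), (.s k15 k10 2 (.s k48
  k26 6 (.s k16 k32 3 (.s k101 k229 7 (.d k154 k223 k207 10 14))))), (.s k15 k10 2 (.s k21 k53 3 (.s
  k26 k48 6 (.s k31 k16 2 (.d k63 k47 k42 3 6)))))] (.c k48 (.l (.s k53 k21 3 (.s k101 k229 7 (.s
  k197 k149 11 (.d k69 k117 k133 3 7))))) (.c k240 (.q k250 [(.s k53 k21 3 (.s k101 k229 7 (.s k69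
  k117 3 (.d k197 k133 k149 7 11)))), (.s k15 k10 2 (.s k21 k53 3 (.s k26 k48 6 (.s k31 k16 2 (.d
  k63 k47 k42 3 6))))), (.s k15 k10 2 (.s k48 k26 6 (.s k16 k32 3 (.s k101 k229 7 (.d k154 k207 k223
  14 10)))))] (.c k48 (.l (.s k53 k21 3 (.s k101 k229 7 (.s k197 k149 11 (.d k69 k117 k133 3 7)))))
  (.c k82 (.q k161 [(.s k53 k21 3 (.s k101 k229 7 (.s k69 k117 3 (.d k197 k133 k149 7 11)))), (.s
  k169 k173 1 (.s k1 k253 13 (.s k13 k9 1 (.d k241 k81 k89 11 13))))] .n) (.c k161 (.q k82 [(.s k53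
  k21 3 (.s k101 k229 7 (.s k69 k117 3 (.d k197 k133 k149 7 11)))), (.s k15 k10 2 (.s k21 k53 3 (.s
  k26 k48 6 (.s k31 k16 2 (.d k63 k47 k42 3 6))))), (.s k15 k10 2 (.s k48 k26 6 (.s k16 k32 3 (.s
  k101 k229 7 (.d k154 k207 k223 14 10)))))] (.c k48 (.l (.s k53 k21 3 (.s k101 k229 7 (.s k197 k149
  11 (.d k69 k117 k133 3 7))))) .n)) .n)))) (.c k250 (.q k240 [(.d k15 k10 k90 2 14)] (.c k10 (.l
  (.s k90 k15 14 (.d k80 k95 k160 2 11))) (.c k15 (.l (.s k21 k53 3 (.s k63 k42 6 (.s k149 k213 7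
  (.d k181 k133 k122 3 10))))) (.c k90 (.l (.s k10 k15 2 (.s k21 k53 3 (.s k63 k42 6 (.s k149 k213 7
  (.d k181 k133 k122 3 10)))))) .n)))) .n)))) .n))))

def s3_170_88 : T TT 256 :=
  (.q k21 [(.s k53 k37 3 (.s k149 k213 7 (.s k101 k197 11 (.s k117 k69 3 (.d k245 k181 k165 7
  11))))), (.s k15 k10 2 (.s k37 k53 3 (.s k26 k48 6 (.s k31 k16 2 (.d k63 k47 k42 3 6))))), (.s k15
  k10 2 (.s k63 k42 6 (.s k47 k31 3 (.s k149 k213 7 (.s k106 k192 14 (.d k165 k224 k245 10 11))))))]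
  .n)

def s3_170_89 : T TT 256 :=
  (.f k165 k245 11 (.q k4 [(.s k166 k247 12 (.s k164 k167 0 (.s k244 k84 11 (.d k7 k6 k86 0 12)))),
  (.s k15 k10 2 (.s k90 k240 14 (.s k166 k247 12 (.s k14 k242 13 (.d k12 k8 k13 1 0)))))] (.c k8 (.q
  k251 [(.s k166 k247 12 (.s k164 k167 0 (.s k244 k84 11 (.d k7 k6 k86 0 12)))), (.s k15 k10 2 (.s
  k90 k240 14 (.s k95 k80 2 (.s k247 k166 12 (.d k255 k243 k175 1 11)))))] (.c k166 (.l (.s k7 k6 0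
  (.s k15 k10 2 (.s k86 k244 12 (.s k84 k87 0 (.s k90 k240 14 (.s k252 k168 13 (.d k94 k82 k173 1
  12)))))))) (.c k247 (.l (.s k7 k6 0 (.s k15 k10 2 (.s k244 k86 12 (.s k84 k164 11 (.s k252 k168 13
  (.d k240 k248 k90 1 14))))))) .n))) (.c k166 (.l (.s k7 k6 0 (.s k15 k10 2 (.s k86 k244 12 (.s k84
  k87 0 (.s k90 k240 14 (.s k252 k168 13 (.d k94 k82 k173 1 12)))))))) (.c k244 (.l (.s k6 k7 0 (.s
  k15 k10 2 (.s k90 k240 14 (.s k166 k247 12 (.s k246 k86 11 (.s k14 k242 13 (.d k12 k13 k8 0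
  1)))))))) (.c k246 (.l (.s k7 k6 0 (.s k86 k244 12 (.s k247 k166 12 (.d k87 k84 k167 0 11))))) (.c
  k247 (.l (.s k7 k6 0 (.s k15 k10 2 (.s k244 k86 12 (.s k84 k164 11 (.s k252 k168 13 (.d k240 k90
  k248 14 1))))))) (.c k251 (.l (.s k8 k12 1 (.s k166 k247 12 (.s k164 k167 0 (.s k244 k84 11 (.d k7
  k6 k86 0 12)))))) .n))))))))

def s3_170_90 : T TT 256 :=
  (.q k21 [(.s k53 k37 3 (.s k149 k213 7 (.s k101 k197 11 (.s k117 k69 3 (.d k245 k181 k165 7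
  11))))), (.s k37 k53 3 (.s k42 k63 6 (.s k32 k47 2 (.s k48 k16 3 (.d k15 k10 k26 2 6))))), (.s k63
  k42 6 (.s k149 k213 7 (.s k106 k192 14 (.s k165 k245 11 (.s k47 k224 10 (.d k15 k10 k31 2 3))))))]
  (.c k10 (.q k250 [(.s k53 k37 3 (.s k149 k213 7 (.s k101 k197 11 (.s k117 k69 3 (.d k245 k181 k165
  7 11))))), (.s k63 k42 6 (.s k149 k213 7 (.s k106 k192 14 (.s k127 k64 6 (.s k245 k165 11 (.d k255
  k240 k191 2 7)))))), (.s k53 k37 3 (.s k63 k42 6 (.s k245 k165 11 (.s k181 k117 7 (.d k240 k255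
  k122 2 10)))))] (.c k165 (.l (.s k53 k37 3 (.s k63 k42 6 (.s k149 k213 7 (.s k101 k197 11 (.s k69
  k117 3 (.s k207 k138 10 (.d k48 k58 k154 2 14)))))))) (.c k245 (.l (.s k53 k37 3 (.s k63 k42 6 (.s
  k149 k213 7 (.s k197 k101 11 (.s k69 k133 7 (.s k207 k138 10 (.d k192 k202 k106 2 14)))))))) .n)))
  (.c k250 (.l (.s k10 k15 2 (.s k53 k37 3 (.s k149 k213 7 (.s k101 k197 11 (.s k117 k69 3 (.d k245
  k165 k181 11 7))))))) .n)))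

def s3_170_91 : T TT 256 :=
  (.q k21 [(.s k53 k37 3 (.s k149 k213 7 (.s k101 k197 11 (.s k117 k69 3 (.d k245 k181 k165 7
  11))))), (.s k15 k10 2 (.s k37 k53 3 (.s k26 k48 6 (.s k31 k16 2 (.d k63 k47 k42 3 6))))), (.s k15
  k10 2 (.s k63 k42 6 (.s k47 k31 3 (.s k149 k213 7 (.s k106 k192 14 (.d k165 k224 k245 10 11))))))]
  .n)

def s3_170_92 : T TT 256 :=
  (.q k21 [(.s k53 k37 3 (.s k149 k213 7 (.s k101 k197 11 (.s k117 k69 3 (.d k245 k181 k165 7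
  11))))), (.s k15 k10 2 (.s k37 k53 3 (.s k26 k48 6 (.s k31 k16 2 (.d k63 k47 k42 3 6))))), (.s k15
  k10 2 (.s k63 k42 6 (.s k47 k31 3 (.s k149 k213 7 (.s k106 k192 14 (.d k165 k224 k245 10 11))))))]
  .n)

def s3_170_93 : T TT 256 :=
  (.q k21 [(.s k53 k37 3 (.s k149 k213 7 (.s k101 k197 11 (.s k117 k69 3 (.d k245 k181 k165 7
  11))))), (.s k15 k10 2 (.s k37 k53 3 (.s k26 k48 6 (.s k31 k16 2 (.d k63 k47 k42 3 6))))), (.s k15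
  k10 2 (.s k63 k42 6 (.s k47 k31 3 (.s k149 k213 7 (.s k106 k192 14 (.d k165 k224 k245 10 11))))))]
  .n)

def s3_170_94 : T TT 256 :=
  (.q k21 [(.s k53 k37 3 (.s k149 k213 7 (.s k101 k197 11 (.s k117 k69 3 (.d k245 k181 k165 7
  11))))), (.s k15 k10 2 (.s k37 k53 3 (.s k26 k48 6 (.s k31 k16 2 (.d k63 k47 k42 3 6))))), (.s k15
  k10 2 (.s k63 k42 6 (.s k47 k31 3 (.s k149 k213 7 (.s k106 k192 14 (.d k165 k224 k245 10 11))))))]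
  .n)

def s3_170_95 : T TT 256 :=
  (.q k21 [(.s k53 k37 3 (.s k149 k213 7 (.s k101 k197 11 (.s k117 k69 3 (.d k245 k181 k165 7
  11))))), (.s k15 k10 2 (.s k37 k53 3 (.s k26 k48 6 (.s k31 k16 2 (.d k63 k47 k42 3 6))))), (.s k15
  k10 2 (.s k63 k42 6 (.s k47 k31 3 (.s k149 k213 7 (.s k106 k192 14 (.d k165 k224 k245 10 11))))))]
  .n)

def s3_170_96 : T TT 256 :=
  (.q k21 [(.s k53 k37 3 (.s k149 k213 7 (.s k101 k197 11 (.s k117 k69 3 (.d k245 k181 k165 7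
  11))))), (.s k15 k10 2 (.s k37 k53 3 (.s k26 k48 6 (.s k31 k16 2 (.d k63 k47 k42 3 6))))), (.s k15
  k10 2 (.s k63 k42 6 (.s k47 k31 3 (.s k149 k213 7 (.s k106 k192 14 (.d k165 k224 k245 10 11))))))]
  .n)

def s3_170_97 : T TT 256 :=
  (.q k21 [(.s k53 k37 3 (.s k149 k213 7 (.s k101 k197 11 (.s k117 k69 3 (.d k245 k181 k165 7
  11))))), (.s k15 k10 2 (.s k37 k53 3 (.s k26 k48 6 (.s k31 k16 2 (.d k63 k47 k42 3 6))))), (.s k15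
  k10 2 (.s k63 k42 6 (.s k47 k31 3 (.s k149 k213 7 (.s k106 k192 14 (.d k165 k224 k245 10 11))))))]
  .n)

def s3_170_98 : T TT 256 :=
  (.q k21 [(.s k53 k37 3 (.s k149 k213 7 (.s k101 k197 11 (.s k117 k69 3 (.d k245 k181 k165 7
  11))))), (.s k15 k10 2 (.s k37 k53 3 (.s k26 k48 6 (.s k31 k16 2 (.d k63 k47 k42 3 6))))), (.s k15
  k10 2 (.s k63 k42 6 (.s k47 k31 3 (.s k149 k213 7 (.s k106 k192 14 (.d k165 k224 k245 10 11))))))]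
  .n)

def s3_170_99 : T TT 256 :=
  (.q k21 [(.s k53 k37 3 (.s k149 k213 7 (.s k101 k197 11 (.s k117 k69 3 (.d k245 k181 k165 7
  11))))), (.s k15 k10 2 (.s k37 k53 3 (.s k26 k48 6 (.s k31 k16 2 (.d k63 k47 k42 3 6))))), (.s k15
  k10 2 (.s k63 k42 6 (.s k47 k31 3 (.s k149 k213 7 (.s k106 k192 14 (.d k165 k224 k245 10 11))))))]
  .n)

def s3_170_100 : T TT 256 :=
  (.q k21 [(.s k53 k37 3 (.s k149 k213 7 (.s k101 k197 11 (.s k117 k69 3 (.d k245 k181 k165 7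
  11))))), (.s k15 k10 2 (.s k37 k53 3 (.s k26 k48 6 (.s k31 k16 2 (.d k63 k47 k42 3 6))))), (.s k15
  k10 2 (.s k63 k42 6 (.s k47 k31 3 (.s k149 k213 7 (.s k106 k192 14 (.d k165 k224 k245 10 11))))))]
  .n)

def s3_170_101 : T TT 256 :=
  (.f k165 k245 11 (.q k4 [(.s k166 k247 12 (.s k164 k167 0 (.s k244 k84 11 (.d k7 k6 k86 0 12)))),
  (.s k12 k8 1 (.s k15 k10 2 (.s k14 k13 0 (.s k90 k240 14 (.d k166 k247 k242 12 13)))))] (.c k32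
  (.q k239 [(.s k166 k247 12 (.s k164 k167 0 (.s k244 k84 11 (.d k7 k6 k86 0 12)))), (.s k12 k8 1
  (.s k15 k10 2 (.s k14 k13 0 (.s k90 k240 14 (.d k166 k247 k242 12 13)))))] (.c k166 (.l (.s k7 k6
  0 (.s k15 k10 2 (.s k86 k244 12 (.s k84 k87 0 (.s k90 k240 14 (.s k252 k168 13 (.d k94 k82 k173 1
  12)))))))) (.c k247 (.l (.s k7 k6 0 (.s k12 k8 1 (.s k15 k10 2 (.s k244 k86 12 (.s k164 k84 11 (.d
  k240 k90 k88 14 13))))))) .n))) (.c k166 (.l (.s k7 k6 0 (.s k15 k10 2 (.s k86 k244 12 (.s k84 k87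
  0 (.s k90 k240 14 (.s k252 k168 13 (.d k94 k82 k173 1 12)))))))) (.c k239 (.q k32 [(.s k166 k247
  12 (.s k164 k167 0 (.s k244 k84 11 (.d k7 k6 k86 0 12)))), (.s k12 k8 1 (.s k48 k16 3 (.s k36 k24
  5 (.s k20 k52 3 (.d k40 k44 k60 1 5)))))] .n) (.c k247 (.l (.s k7 k6 0 (.s k12 k8 1 (.s k15 k10 2
  (.s k244 k86 12 (.s k164 k84 11 (.d k240 k90 k88 14 13))))))) .n))))))

def s3_170_102 : T TT 256 :=
  (.f k165 k245 11 (.q k21 [(.s k53 k37 3 (.s k149 k213 7 (.s k133 k181 3 (.d k197 k69 k101 7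
  11)))), (.s k15 k10 2 (.s k63 k42 6 (.s k47 k31 3 (.s k106 k224 10 (.d k149 k213 k192 7 14))))),
  (.s k15 k10 2 (.s k37 k53 3 (.s k26 k48 6 (.s k31 k16 2 (.d k63 k47 k42 3 6)))))] (.c k34 (.q k238
  [(.s k53 k37 3 (.s k149 k213 7 (.s k133 k181 3 (.d k197 k69 k101 7 11)))), (.s k15 k10 2 (.s k63
  k42 6 (.s k47 k31 3 (.s k106 k224 10 (.d k149 k213 k192 7 14))))), (.s k15 k10 2 (.s k37 k53 3 (.s
  k26 k48 6 (.s k31 k16 2 (.d k63 k47 k42 3 6)))))] .n) (.c k238 (.q k34 [(.s k53 k37 3 (.s k149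
  k213 7 (.s k133 k181 3 (.d k197 k69 k101 7 11)))), (.s k15 k10 2 (.s k63 k42 6 (.s k47 k31 3 (.s
  k106 k224 10 (.d k149 k213 k192 7 14))))), (.s k15 k10 2 (.s k37 k53 3 (.s k26 k48 6 (.s k31 k16 2
  (.d k63 k47 k42 3 6)))))] .n) .n))))

def s3_170_103 : T TT 256 :=
  (.q k21 [(.s k53 k37 3 (.s k149 k213 7 (.s k101 k197 11 (.s k117 k69 3 (.d k245 k181 k165 7
  11))))), (.s k15 k10 2 (.s k37 k53 3 (.s k26 k48 6 (.s k31 k16 2 (.d k63 k47 k42 3 6))))), (.s k15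
  k10 2 (.s k63 k42 6 (.s k47 k31 3 (.s k149 k213 7 (.s k106 k192 14 (.d k165 k224 k245 10 11))))))]
  .n)

def s3_170_104 : T TT 256 :=
  (.q k21 [(.s k53 k37 3 (.s k149 k213 7 (.s k101 k197 11 (.s k117 k69 3 (.d k245 k181 k165 7
  11))))), (.s k15 k10 2 (.s k37 k53 3 (.s k26 k48 6 (.s k31 k16 2 (.d k63 k47 k42 3 6))))), (.s k15
  k10 2 (.s k63 k42 6 (.s k47 k31 3 (.s k149 k213 7 (.s k106 k192 14 (.d k165 k224 k245 10 11))))))]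
  .n)

def s3_170_105 : T TT 256 :=
  (.f k165 k245 11 (.q k21 [(.s k53 k37 3 (.s k149 k213 7 (.s k133 k181 3 (.d k197 k69 k101 7
  11)))), (.s k15 k10 2 (.s k63 k42 6 (.s k47 k31 3 (.s k106 k224 10 (.d k149 k213 k192 7 14))))),
  (.s k15 k10 2 (.s k37 k53 3 (.s k26 k48 6 (.s k31 k16 2 (.d k63 k47 k42 3 6)))))] (.c k40 (.q k235
  [(.s k53 k37 3 (.s k149 k213 7 (.s k133 k181 3 (.d k197 k69 k101 7 11)))), (.s k15 k10 2 (.s k63
  k42 6 (.s k47 k31 3 (.s k106 k224 10 (.d k149 k213 k192 7 14))))), (.s k15 k10 2 (.s k37 k53 3 (.s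
  k26 k48 6 (.s k31 k16 2 (.d k63 k47 k42 3 6)))))] .n) (.c k235 (.q k40 [(.s k53 k37 3 (.s k149
  k213 7 (.s k133 k181 3 (.d k197 k69 k101 7 11)))), (.s k15 k10 2 (.s k63 k42 6 (.s k47 k31 3 (.s
  k106 k224 10 (.d k149 k213 k192 7 14))))), (.s k15 k10 2 (.s k37 k53 3 (.s k26 k48 6 (.s k31 k16 2
  (.d k63 k47 k42 3 6)))))] .n) .n))))

def s3_170_106 : T TT 256 :=
  (.f k165 k245 11 (.q k21 [(.s k53 k37 3 (.s k149 k213 7 (.s k133 k181 3 (.d k197 k69 k101 7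
  11)))), (.s k15 k10 2 (.s k37 k53 3 (.s k26 k48 6 (.s k31 k16 2 (.d k63 k42 k47 6 3))))), (.s k15
  k10 2 (.s k90 k240 14 (.s k149 k213 7 (.s k31 k208 10 (.d k63 k42 k47 6 3)))))] (.c k42 (.q k234
  [(.s k149 k213 7 (.s k133 k181 3 (.s k197 k69 7 (.d k53 k37 k101 3 11)))), (.s k15 k10 2 (.s k90
  k240 14 (.s k95 k80 2 (.s k213 k149 7 (.d k255 k192 k175 6 11))))), (.s k15 k10 2 (.s k37 k53 3
  (.s k26 k48 6 (.s k16 k31 2 (.s k90 k240 14 (.d k154 k218 k223 7 10))))))] .n) (.c k234 (.l (.s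
  k42 k63 6 (.s k15 k10 2 (.s k37 k53 3 (.s k32 k47 2 (.d k48 k16 k26 3 6)))))) .n))))

def s3_170_107 : T TT 256 :=
  (.q k21 [(.s k53 k37 3 (.s k149 k213 7 (.s k101 k197 11 (.s k117 k69 3 (.d k245 k181 k165 7
  11))))), (.s k15 k10 2 (.s k37 k53 3 (.s k26 k48 6 (.s k31 k16 2 (.d k63 k47 k42 3 6))))), (.s k15
  k10 2 (.s k63 k42 6 (.s k47 k31 3 (.s k149 k213 7 (.s k106 k192 14 (.d k165 k224 k245 10 11))))))]
  .n)

def s3_170_108 : T TT 256 :=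
  (.q k21 [(.s k53 k37 3 (.s k149 k213 7 (.s k101 k197 11 (.s k117 k69 3 (.d k245 k181 k165 7
  11))))), (.s k15 k10 2 (.s k37 k53 3 (.s k26 k48 6 (.s k31 k16 2 (.d k63 k47 k42 3 6))))), (.s k15
  k10 2 (.s k63 k42 6 (.s k47 k31 3 (.s k149 k213 7 (.s k106 k192 14 (.d k165 k224 k245 10 11))))))]
  .n)

def s3_170_109 : T TT 256 :=
  (.q k21 [(.s k53 k37 3 (.s k149 k213 7 (.s k101 k197 11 (.s k117 k69 3 (.d k245 k181 k165 7
  11))))), (.s k15 k10 2 (.s k37 k53 3 (.s k26 k48 6 (.s k31 k16 2 (.d k63 k47 k42 3 6))))), (.s k15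
  k10 2 (.s k63 k42 6 (.s k47 k31 3 (.s k149 k213 7 (.s k106 k192 14 (.d k165 k224 k245 10 11))))))]
  .n)

def s3_170_110 : T TT 256 :=
  (.q k21 [(.s k53 k37 3 (.s k149 k213 7 (.s k101 k197 11 (.s k117 k69 3 (.d k245 k181 k165 7
  11))))), (.s k15 k10 2 (.s k37 k53 3 (.s k26 k48 6 (.s k31 k16 2 (.d k63 k47 k42 3 6))))), (.s k15
  k10 2 (.s k63 k42 6 (.s k47 k31 3 (.s k149 k213 7 (.s k106 k192 14 (.d k165 k224 k245 10 11))))))]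
  .n)

def s3_170_111 : T TT 256 :=
  (.q k21 [(.s k53 k37 3 (.s k149 k213 7 (.s k101 k197 11 (.s k117 k69 3 (.d k245 k181 k165 7
  11))))), (.s k15 k10 2 (.s k37 k53 3 (.s k26 k48 6 (.s k31 k16 2 (.d k63 k47 k42 3 6))))), (.s k15
  k10 2 (.s k63 k42 6 (.s k47 k31 3 (.s k149 k213 7 (.s k106 k192 14 (.d k165 k224 k245 10 11))))))]
  .n)

def s3_170_112 : T TT 256 :=
  (.q k21 [(.s k53 k37 3 (.s k149 k213 7 (.s k101 k197 11 (.s k117 k69 3 (.d k245 k181 k165 7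
  11))))), (.s k15 k10 2 (.s k37 k53 3 (.s k26 k48 6 (.s k31 k16 2 (.d k63 k47 k42 3 6))))), (.s k15
  k10 2 (.s k63 k42 6 (.s k47 k31 3 (.s k149 k213 7 (.s k106 k192 14 (.d k165 k224 k245 10 11))))))]
  .n)

def s3_170_113 : T TT 256 :=
  (.q k21 [(.s k53 k37 3 (.s k149 k213 7 (.s k101 k197 11 (.s k117 k69 3 (.d k245 k181 k165 7
  11))))), (.s k15 k10 2 (.s k37 k53 3 (.s k26 k48 6 (.s k31 k16 2 (.d k63 k47 k42 3 6))))), (.s k15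
  k10 2 (.s k63 k42 6 (.s k47 k31 3 (.s k149 k213 7 (.s k106 k192 14 (.d k165 k224 k245 10 11))))))]
  .n)

def s3_170_114 : T TT 256 :=
  (.q k21 [(.s k53 k37 3 (.s k149 k213 7 (.s k101 k197 11 (.s k117 k69 3 (.d k245 k181 k165 7
  11))))), (.s k15 k10 2 (.s k37 k53 3 (.s k26 k48 6 (.s k31 k16 2 (.d k63 k47 k42 3 6))))), (.s k15
  k10 2 (.s k63 k42 6 (.s k47 k31 3 (.s k149 k213 7 (.s k106 k192 14 (.d k165 k224 k245 10 11))))))]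
  .n)

def s3_170_115 : T TT 256 :=
  (.q k21 [(.s k53 k37 3 (.s k149 k213 7 (.s k101 k197 11 (.s k117 k69 3 (.d k245 k181 k165 7
  11))))), (.s k15 k10 2 (.s k37 k53 3 (.s k26 k48 6 (.s k31 k16 2 (.d k63 k47 k42 3 6))))), (.s k15
  k10 2 (.s k63 k42 6 (.s k47 k31 3 (.s k149 k213 7 (.s k106 k192 14 (.d k165 k224 k245 10 11))))))]
  .n)

def s3_170_116 : T TT 256 :=
  (.q k21 [(.s k53 k37 3 (.s k149 k213 7 (.s k101 k197 11 (.s k117 k69 3 (.d k245 k181 k165 7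
  11))))), (.s k15 k10 2 (.s k37 k53 3 (.s k26 k48 6 (.s k31 k16 2 (.d k63 k47 k42 3 6))))), (.s k15
  k10 2 (.s k63 k42 6 (.s k47 k31 3 (.s k149 k213 7 (.s k106 k192 14 (.d k165 k224 k245 10 11))))))]
  .n)

def s3_170_117 : T TT 256 :=
  (.q k21 [(.s k53 k37 3 (.s k149 k213 7 (.s k165 k245 11 (.s k133 k181 3 (.d k197 k69 k101 7
  11))))), (.s k15 k10 2 (.s k63 k42 6 (.s k31 k47 3 (.s k26 k16 2 (.d k37 k53 k48 3 6))))), (.s k15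
  k10 2 (.s k63 k42 6 (.s k47 k31 3 (.s k149 k213 7 (.s k106 k192 14 (.d k165 k224 k245 10 11))))))]
  .n)

def s3_170_118 : T TT 256 :=
  (.q k21 [(.s k53 k37 3 (.s k149 k213 7 (.s k101 k197 11 (.s k117 k69 3 (.d k245 k181 k165 7
  11))))), (.s k15 k10 2 (.s k37 k53 3 (.s k26 k48 6 (.s k31 k16 2 (.d k63 k47 k42 3 6))))), (.s k15
  k10 2 (.s k63 k42 6 (.s k47 k31 3 (.s k149 k213 7 (.s k106 k192 14 (.d k165 k224 k245 10 11))))))]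
  .n)

def s3_170_119 : T TT 256 :=
  (.q k21 [(.s k53 k37 3 (.s k149 k213 7 (.s k101 k197 11 (.s k117 k69 3 (.d k245 k181 k165 7
  11))))), (.s k15 k10 2 (.s k37 k53 3 (.s k26 k48 6 (.s k31 k16 2 (.d k63 k47 k42 3 6))))), (.s k15
  k10 2 (.s k63 k42 6 (.s k47 k31 3 (.s k149 k213 7 (.s k106 k192 14 (.d k165 k224 k245 10 11))))))]
  .n)

def s3_170_120 : T TT 256 :=
  (.q k21 [(.s k53 k37 3 (.s k149 k213 7 (.s k101 k197 11 (.s k117 k69 3 (.d k245 k181 k165 7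
  11))))), (.s k15 k10 2 (.s k37 k53 3 (.s k26 k48 6 (.s k31 k16 2 (.d k63 k47 k42 3 6))))), (.s k15
  k10 2 (.s k63 k42 6 (.s k47 k31 3 (.s k149 k213 7 (.s k106 k192 14 (.d k165 k224 k245 10 11))))))]
  .n)

def s3_170_121 : T TT 256 :=
  (.q k21 [(.s k53 k37 3 (.s k149 k213 7 (.s k101 k197 11 (.s k117 k69 3 (.d k245 k181 k165 7
  11))))), (.s k15 k10 2 (.s k37 k53 3 (.s k26 k48 6 (.s k31 k16 2 (.d k63 k47 k42 3 6))))), (.s k15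
  k10 2 (.s k63 k42 6 (.s k47 k31 3 (.s k149 k213 7 (.s k106 k192 14 (.d k165 k224 k245 10 11))))))]
  .n)

def s3_170_122 : T TT 256 :=
  (.q k21 [(.s k53 k37 3 (.s k149 k213 7 (.s k101 k197 11 (.s k117 k69 3 (.d k245 k181 k165 7
  11))))), (.s k15 k10 2 (.s k37 k53 3 (.s k26 k48 6 (.s k31 k16 2 (.d k63 k47 k42 3 6))))), (.s k15
  k10 2 (.s k63 k42 6 (.s k47 k31 3 (.s k149 k213 7 (.s k106 k192 14 (.d k165 k224 k245 10 11))))))]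
  .n)

def s3_170_123 : T TT 256 :=
  (.q k21 [(.s k53 k37 3 (.s k149 k213 7 (.s k101 k197 11 (.s k117 k69 3 (.d k245 k181 k165 7
  11))))), (.s k15 k10 2 (.s k37 k53 3 (.s k26 k48 6 (.s k31 k16 2 (.d k63 k47 k42 3 6))))), (.s k15
  k10 2 (.s k63 k42 6 (.s k47 k31 3 (.s k149 k213 7 (.s k106 k192 14 (.d k165 k224 k245 10 11))))))]
  .n)

def s3_170_124 : T TT 256 :=
  (.q k21 [(.s k53 k37 3 (.s k149 k213 7 (.s k101 k197 11 (.s k117 k69 3 (.d k245 k181 k165 7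
  11))))), (.s k15 k10 2 (.s k37 k53 3 (.s k26 k48 6 (.s k31 k16 2 (.d k63 k47 k42 3 6))))), (.s k15
  k10 2 (.s k63 k42 6 (.s k47 k31 3 (.s k149 k213 7 (.s k106 k192 14 (.d k165 k224 k245 10 11))))))]
  .n)

def s3_170_125 : T TT 256 :=
  (.q k21 [(.s k53 k37 3 (.s k149 k213 7 (.s k101 k197 11 (.s k117 k69 3 (.d k245 k181 k165 7
  11))))), (.s k15 k10 2 (.s k37 k53 3 (.s k26 k48 6 (.s k31 k16 2 (.d k63 k47 k42 3 6))))), (.s k15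
  k10 2 (.s k63 k42 6 (.s k47 k31 3 (.s k149 k213 7 (.s k106 k192 14 (.d k165 k224 k245 10 11))))))]
  .n)

def s3_170_126 : T TT 256 :=
  (.q k21 [(.s k53 k37 3 (.s k149 k213 7 (.s k101 k197 11 (.s k117 k69 3 (.d k245 k181 k165 7
  11))))), (.s k15 k10 2 (.s k37 k53 3 (.s k26 k48 6 (.s k31 k16 2 (.d k63 k47 k42 3 6))))), (.s k15
  k10 2 (.s k63 k42 6 (.s k47 k31 3 (.s k149 k213 7 (.s k106 k192 14 (.d k165 k224 k245 10 11))))))]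
  .n)

def s3_170_127 : T TT 256 :=
  (.q k21 [(.s k53 k37 3 (.s k149 k213 7 (.s k101 k197 11 (.s k117 k69 3 (.d k245 k181 k165 7
  11))))), (.s k15 k10 2 (.s k37 k53 3 (.s k26 k48 6 (.s k31 k16 2 (.d k63 k47 k42 3 6))))), (.s k15
  k10 2 (.s k63 k42 6 (.s k47 k31 3 (.s k149 k213 7 (.s k106 k192 14 (.d k165 k224 k245 10 11))))))]
  .n)

def s3_170_128 : T TT 256 :=
  (.q k149 [(.s k21 k213 7 (.s k53 k37 3 (.s k101 k197 11 (.s k117 k69 3 (.d k245 k181 k165 7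
  11))))), (.s k15 k10 2 (.s k21 k213 7 (.s k37 k53 3 (.s k26 k48 6 (.s k31 k16 2 (.d k63 k47 k42 3
  6)))))), (.s k15 k10 2 (.s k165 k245 11 (.s k90 k240 14 (.s k31 k208 10 (.s k63 k47 3 (.s k133
  k181 3 (.d k192 k74 k106 10 14)))))))] (.c k53 (.l (.s k15 k10 2 (.s k21 k213 7 (.s k63 k42 6 (.s
  k31 k47 3 (.s k90 k208 10 (.d k165 k245 k240 11 14))))))) .n))

def s3_170_129 : T TT 256 :=
  (.f k165 k245 11 (.q k192 [(.s k15 k10 2 (.s k64 k128 7 (.s k106 k127 6 (.s k47 k224 10 (.d k63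
  k149 k31 14 3))))), (.s k15 k10 2 (.s k128 k64 7 (.s k133 k74 10 (.s k69 k197 7 (.d k138 k143 k207
  2 10))))), (.s k64 k128 7 (.s k106 k127 6 (.s k149 k63 14 (.s k21 k213 7 (.s k53 k37 3 (.s k133
  k181 3 (.d k197 k69 k101 7 11))))))), (.s k15 k10 2 (.s k133 k74 10 (.s k149 k181 3 (.s k21 k213 7
  (.d k63 k42 k106 6 14)))))] .n))

def s3_170_130 : T TT 256 :=
  (.f k165 k245 11 (.q k150 [(.s k15 k10 2 (.s k20 k215 8 (.s k60 k40 5 (.s k30 k45 4 (.d k90 k210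
  k240 9 14))))), (.s k20 k215 8 (.s k60 k40 5 (.s k180 k135 4 (.s k240 k120 9 (.s k80 k160 11 (.d
  k90 k95 k15 2 14)))))), (.s k15 k10 2 (.s k90 k240 14 (.s k30 k210 9 (.s k60 k45 4 (.s k135 k180 4
  (.d k195 k75 k105 9 14))))))] (.c k15 (.q k7 [(.s k4 k6 0 (.s k86 k244 12 (.s k87 k84 0 (.d k247
  k167 k166 11 12)))), (.s k4 k6 0 (.s k20 k215 8 (.s k52 k36 3 (.s k37 k22 4 (.d k101 k229 k199 7
  12))))), (.s k20 k215 8 (.s k86 k244 12 (.s k22 k214 7 (.s k21 k23 0 (.d k37 k53 k52 3 4)))))] .n)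
  (.c k60 (.l (.s k15 k10 2 (.s k90 k240 14 (.s k95 k80 2 (.s k215 k20 8 (.s k255 k175 11 (.s k195
  k235 5 (.d k135 k180 k75 4 9)))))))) (.c k90 (.l (.s k20 k215 8 (.s k60 k40 5 (.s k105 k195 14 (.s
  k45 k225 9 (.d k15 k10 k30 2 4)))))) (.c k105 (.l (.s k15 k10 2 (.s k20 k215 8 (.s k90 k240 14 (.s
  k30 k210 9 (.d k60 k45 k40 4 5)))))) (.c k240 (.l (.s k15 k10 2 (.s k20 k215 8 (.s k60 k40 5 (.s
  k45 k30 4 (.d k105 k225 k195 9 14)))))) .n)))))))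

def s3_170_131 : T TT 256 :=
  (.f k165 k245 11 (.q k195 [(.s k15 k10 2 (.s k135 k75 9 (.s k150 k180 4 (.s k20 k215 8 (.d k60 k40
  k105 5 14))))), (.s k65 k130 8 (.s k105 k125 5 (.s k225 k45 9 (.s k240 k210 4 (.s k80 k160 11 (.d
  k90 k95 k15 2 14))))))] (.c k15 (.q k7 [(.s k4 k6 0 (.s k86 k244 12 (.s k87 k84 0 (.d k247 k167
  k166 11 12)))), (.s k4 k6 0 (.s k12 k8 1 (.s k130 k65 8 (.s k134 k73 10 (.s k69 k199 8 (.d k138
  k142 k207 1 10)))))), (.s k65 k130 8 (.s k86 k244 12 (.s k84 k87 0 (.s k105 k125 5 (.s k124 k67 6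
  (.s k252 k168 13 (.d k60 k150 k188 14 7)))))))] .n) (.c k90 (.l (.s k65 k130 8 (.s k105 k125 5 (.s
  k150 k60 14 (.s k135 k180 4 (.d k15 k10 k75 2 9)))))) (.c k105 (.l (.s k15 k10 2 (.s k90 k240 14
  (.s k95 k80 2 (.s k135 k75 9 (.s k150 k180 4 (.s k215 k20 8 (.d k255 k235 k175 5 11)))))))) (.c
  k150 (.l (.s k15 k10 2 (.s k75 k135 9 (.s k90 k240 14 (.s k105 k120 4 (.d k65 k125 k130 5 8))))))
  .n))))))

def s3_170_132 : T TT 256 :=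
  (.q k21 [(.s k53 k37 3 (.s k149 k213 7 (.s k101 k197 11 (.s k117 k69 3 (.d k245 k181 k165 7
  11))))), (.s k15 k10 2 (.s k37 k53 3 (.s k26 k48 6 (.s k31 k16 2 (.d k63 k47 k42 3 6))))), (.s k15
  k10 2 (.s k63 k42 6 (.s k47 k31 3 (.s k149 k213 7 (.s k106 k192 14 (.d k165 k224 k245 10 11))))))]
  .n)

def s3_170_133 : T TT 256 :=
  (.q k21 [(.s k53 k37 3 (.s k149 k213 7 (.s k101 k197 11 (.s k117 k69 3 (.d k245 k181 k165 7
  11))))), (.s k15 k10 2 (.s k37 k53 3 (.s k26 k48 6 (.s k31 k16 2 (.d k63 k47 k42 3 6))))), (.s k15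
  k10 2 (.s k63 k42 6 (.s k47 k31 3 (.s k149 k213 7 (.s k106 k192 14 (.d k165 k224 k245 10 11))))))]
  .n)

def s3_170_134 : T TT 256 :=
  (.q k21 [(.s k53 k37 3 (.s k149 k213 7 (.s k101 k197 11 (.s k117 k69 3 (.d k245 k181 k165 7
  11))))), (.s k15 k10 2 (.s k37 k53 3 (.s k26 k48 6 (.s k31 k16 2 (.d k63 k47 k42 3 6))))), (.s k15
  k10 2 (.s k63 k42 6 (.s k47 k31 3 (.s k149 k213 7 (.s k106 k192 14 (.d k165 k224 k245 10 11))))))]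
  .n)

def s3_170_135 : T TT 256 :=
  (.q k21 [(.s k53 k37 3 (.s k149 k213 7 (.s k101 k197 11 (.s k117 k69 3 (.d k245 k181 k165 7
  11))))), (.s k15 k10 2 (.s k37 k53 3 (.s k26 k48 6 (.s k31 k16 2 (.d k63 k47 k42 3 6))))), (.s k15
  k10 2 (.s k63 k42 6 (.s k47 k31 3 (.s k149 k213 7 (.s k106 k192 14 (.d k165 k224 k245 10 11))))))]
  .n)

def s3_170_136 : T TT 256 :=
  (.f k165 k245 11 (.q k153 [(.s k15 k10 2 (.s k17 k221 9 (.s k51 k34 4 (.s k27 k39 5 (.d k90 k216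
  k240 8 14))))), (.s k17 k221 9 (.s k51 k34 4 (.s k177 k141 5 (.s k240 k114 8 (.s k80 k160 11 (.d
  k90 k95 k15 2 14)))))), (.s k15 k10 2 (.s k90 k240 14 (.s k27 k216 8 (.s k51 k39 5 (.s k141 k177 5
  (.d k204 k78 k102 8 14))))))] (.c k15 (.f k17 k221 9 (.l (.s k51 k34 4 (.s k177 k141 5 (.s k240
  k114 8 (.s k80 k160 11 (.s k90 k95 2 (.s k216 k27 8 (.d k204 k102 k228 14 5))))))))) (.c k51 (.l
  (.s k15 k10 2 (.s k90 k240 14 (.s k95 k80 2 (.s k221 k17 9 (.s k255 k175 11 (.s k204 k238 4 (.d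
  k141 k177 k78 5 8)))))))) (.c k90 (.l (.s k17 k221 9 (.s k51 k34 4 (.s k102 k204 14 (.s k39 k228 8
  (.d k15 k10 k27 2 5)))))) (.c k102 (.l (.s k15 k10 2 (.s k17 k221 9 (.s k90 k240 14 (.s k27 k216 8
  (.d k51 k34 k39 4 5)))))) (.c k240 (.l (.s k15 k10 2 (.s k17 k221 9 (.s k51 k34 4 (.s k39 k27 5
  (.d k102 k228 k204 8 14)))))) .n)))))))

def s3_170_137 : T TT 256 :=
  (.f k165 k245 11 (.q k204 [(.s k15 k10 2 (.s k141 k78 8 (.s k153 k177 5 (.s k17 k221 9 (.d k51 k34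
  k102 4 14))))), (.s k68 k136 9 (.s k102 k119 4 (.s k228 k39 8 (.s k240 k216 5 (.s k80 k160 11 (.d
  k90 k95 k15 2 14))))))] (.c k15 (.q k7 [(.s k4 k6 0 (.s k86 k244 12 (.s k87 k84 0 (.d k247 k167
  k166 11 12)))), (.s k4 k6 0 (.s k12 k8 1 (.s k68 k136 9 (.s k76 k140 7 (.s k72 k64 1 (.d k132 k196
  k192 7 9)))))), (.s k68 k136 9 (.s k86 k244 12 (.s k102 k119 4 (.s k70 k118 3 (.s k69 k71 0 (.d
  k133 k197 k196 7 8))))))] .n) (.c k90 (.l (.s k68 k136 9 (.s k102 k119 4 (.s k153 k51 14 (.s k141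
  k177 5 (.d k15 k10 k78 2 8)))))) (.c k102 (.l (.s k15 k10 2 (.s k90 k240 14 (.s k95 k80 2 (.s k141
  k78 8 (.s k153 k177 5 (.s k221 k17 9 (.d k255 k238 k175 4 11)))))))) (.c k153 (.l (.s k15 k10 2
  (.s k78 k141 8 (.s k90 k240 14 (.s k102 k114 5 (.d k68 k119 k136 4 9)))))) .n))))))

def s3_170_138 : T TT 256 :=
  (.f k165 k245 11 (.q k154 [(.s k15 k10 2 (.s k16 k223 10 (.s k48 k32 3 (.s k143 k176 6 (.d k207
  k101 k79 14 7))))), (.s k16 k223 10 (.s k48 k32 3 (.s k101 k207 14 (.s k37 k229 7 (.s k53 k21 3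
  (.s k69 k117 3 (.d k197 k133 k149 7 11))))))), (.s k15 k10 2 (.s k90 k240 14 (.s k26 k218 7 (.s
  k48 k37 6 (.s k143 k176 6 (.d k207 k79 k101 7 14)))))), (.s k15 k10 2 (.s k16 k223 10 (.s k90 k240
  14 (.s k26 k218 7 (.s k31 k21 2 (.s k80 k95 2 (.d k208 k144 k149 7 10)))))))] (.c k207 (.l (.s k15
  k10 2 (.s k16 k223 10 (.s k48 k32 3 (.s k26 k37 6 (.d k90 k218 k240 7 14)))))) .n)))

def s3_170_139 : T TT 256 :=
  (.q k207 [(.s k15 k10 2 (.s k143 k79 7 (.s k165 k245 11 (.s k154 k176 6 (.s k16 k223 10 (.d k48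
  k32 k101 3 14)))))), (.s k69 k138 10 (.s k101 k117 3 (.s k165 k245 11 (.s k37 k229 7 (.s k53 k21 3
  (.d k197 k133 k149 7 11)))))), (.s k15 k10 2 (.s k69 k138 10 (.s k79 k143 7 (.s k74 k64 2 (.d k133
  k197 k192 7 10)))))] (.c k154 (.l (.s k15 k10 2 (.s k79 k143 7 (.s k165 k245 11 (.s k90 k240 14
  (.s k101 k112 6 (.d k69 k117 k138 3 10))))))) .n))

def s3_170_140 : T TT 256 :=
  (.q k21 [(.s k53 k37 3 (.s k149 k213 7 (.s k101 k197 11 (.s k117 k69 3 (.d k245 k181 k165 7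
  11))))), (.s k15 k10 2 (.s k37 k53 3 (.s k26 k48 6 (.s k31 k16 2 (.d k63 k47 k42 3 6))))), (.s k15
  k10 2 (.s k63 k42 6 (.s k47 k31 3 (.s k149 k213 7 (.s k106 k192 14 (.d k165 k224 k245 10 11))))))]
  .n)

def s3_170_141 : T TT 256 :=
  (.q k21 [(.s k53 k37 3 (.s k149 k213 7 (.s k101 k197 11 (.s k117 k69 3 (.d k245 k181 k165 7
  11))))), (.s k15 k10 2 (.s k37 k53 3 (.s k26 k48 6 (.s k31 k16 2 (.d k63 k47 k42 3 6))))), (.s k15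
  k10 2 (.s k63 k42 6 (.s k47 k31 3 (.s k149 k213 7 (.s k106 k192 14 (.d k165 k224 k245 10 11))))))]
  .n)

def s3_170_142 : T TT 256 :=
  (.q k21 [(.s k53 k37 3 (.s k149 k213 7 (.s k101 k197 11 (.s k117 k69 3 (.d k245 k181 k165 7
  11))))), (.s k15 k10 2 (.s k37 k53 3 (.s k26 k48 6 (.s k31 k16 2 (.d k63 k47 k42 3 6))))), (.s k15
  k10 2 (.s k63 k42 6 (.s k47 k31 3 (.s k149 k213 7 (.s k106 k192 14 (.d k165 k224 k245 10 11))))))]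
  .n)

def s3_170_143 : T TT 256 :=
  (.q k21 [(.s k53 k37 3 (.s k149 k213 7 (.s k101 k197 11 (.s k117 k69 3 (.d k245 k181 k165 7
  11))))), (.s k15 k10 2 (.s k37 k53 3 (.s k26 k48 6 (.s k31 k16 2 (.d k63 k47 k42 3 6))))), (.s k15
  k10 2 (.s k63 k42 6 (.s k47 k31 3 (.s k149 k213 7 (.s k106 k192 14 (.d k165 k224 k245 10 11))))))]
  .n)

def s3_170_144 : T TT 256 :=
  (.q k21 [(.s k53 k37 3 (.s k149 k213 7 (.s k101 k197 11 (.s k117 k69 3 (.d k245 k181 k165 7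
  11))))), (.s k15 k10 2 (.s k37 k53 3 (.s k26 k48 6 (.s k31 k16 2 (.d k63 k47 k42 3 6))))), (.s k15
  k10 2 (.s k63 k42 6 (.s k47 k31 3 (.s k149 k213 7 (.s k106 k192 14 (.d k165 k224 k245 10 11))))))]
  .n)

def s3_170_145 : T TT 256 :=
  (.q k21 [(.s k53 k37 3 (.s k149 k213 7 (.s k101 k197 11 (.s k117 k69 3 (.d k245 k181 k165 7
  11))))), (.s k15 k10 2 (.s k37 k53 3 (.s k26 k48 6 (.s k31 k16 2 (.d k63 k47 k42 3 6))))), (.s k15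
  k10 2 (.s k63 k42 6 (.s k47 k31 3 (.s k149 k213 7 (.s k106 k192 14 (.d k165 k224 k245 10 11))))))]
  .n)

def s3_170_146 : T TT 256 :=
  (.q k21 [(.s k53 k37 3 (.s k149 k213 7 (.s k101 k197 11 (.s k117 k69 3 (.d k245 k181 k165 7
  11))))), (.s k15 k10 2 (.s k37 k53 3 (.s k26 k48 6 (.s k31 k16 2 (.d k63 k47 k42 3 6))))), (.s k15
  k10 2 (.s k63 k42 6 (.s k47 k31 3 (.s k149 k213 7 (.s k106 k192 14 (.d k165 k224 k245 10 11))))))]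
  .n)

def s3_170_147 : T TT 256 :=
  (.q k21 [(.s k53 k37 3 (.s k149 k213 7 (.s k101 k197 11 (.s k117 k69 3 (.d k245 k181 k165 7
  11))))), (.s k15 k10 2 (.s k37 k53 3 (.s k26 k48 6 (.s k31 k16 2 (.d k63 k47 k42 3 6))))), (.s k15
  k10 2 (.s k63 k42 6 (.s k47 k31 3 (.s k149 k213 7 (.s k106 k192 14 (.d k165 k224 k245 10 11))))))]
  .n)

def s3_170_148 : T TT 256 :=
  (.q k21 [(.s k53 k37 3 (.s k149 k213 7 (.s k101 k197 11 (.s k117 k69 3 (.d k245 k181 k165 7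
  11))))), (.s k15 k10 2 (.s k37 k53 3 (.s k26 k48 6 (.s k31 k16 2 (.d k63 k47 k42 3 6))))), (.s k15
  k10 2 (.s k63 k42 6 (.s k47 k31 3 (.s k149 k213 7 (.s k106 k192 14 (.d k165 k224 k245 10 11))))))]
  .n)

def s3_170_149 : T TT 256 :=
  (.f k165 k245 11 (.q k4 [(.s k166 k247 12 (.s k164 k167 0 (.s k244 k84 11 (.d k7 k6 k86 0 12)))),
  (.s k12 k8 1 (.s k15 k10 2 (.s k14 k13 0 (.s k90 k240 14 (.d k166 k247 k242 12 13)))))] (.c k128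
  (.q k191 [(.s k166 k247 12 (.s k164 k167 0 (.s k244 k84 11 (.d k7 k6 k86 0 12)))), (.s k12 k8 1
  (.s k15 k10 2 (.s k14 k13 0 (.s k90 k240 14 (.d k166 k247 k242 12 13)))))] (.c k166 (.l (.s k7 k6
  0 (.s k15 k10 2 (.s k86 k244 12 (.s k84 k87 0 (.s k90 k240 14 (.s k252 k168 13 (.d k94 k82 k173 1
  12)))))))) (.c k247 (.l (.s k7 k6 0 (.s k12 k8 1 (.s k15 k10 2 (.s k244 k86 12 (.s k164 k84 11 (.d
  k240 k90 k88 14 13))))))) .n))) (.c k166 (.l (.s k7 k6 0 (.s k15 k10 2 (.s k86 k244 12 (.s k84 k87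
  0 (.s k90 k240 14 (.s k252 k168 13 (.d k94 k82 k173 1 12)))))))) (.c k191 (.q k128 [(.s k166 k247
  12 (.s k164 k167 0 (.s k244 k84 11 (.d k7 k6 k86 0 12)))), (.s k12 k8 1 (.s k192 k64 7 (.s k132
  k72 9 (.s k68 k196 7 (.d k136 k140 k204 1 9)))))] .n) (.c k247 (.l (.s k7 k6 0 (.s k12 k8 1 (.s
  k15 k10 2 (.s k244 k86 12 (.s k164 k84 11 (.d k240 k90 k88 14 13))))))) .n))))))

def s3_170_150 : T TT 256 :=
  (.f k165 k245 11 (.q k21 [(.s k53 k37 3 (.s k149 k213 7 (.s k133 k181 3 (.d k197 k69 k101 7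
  11)))), (.s k15 k10 2 (.s k63 k42 6 (.s k47 k31 3 (.s k106 k224 10 (.d k149 k213 k192 7 14))))),
  (.s k15 k10 2 (.s k37 k53 3 (.s k26 k48 6 (.s k31 k16 2 (.d k63 k47 k42 3 6)))))] (.c k130 (.q
  k190 [(.s k53 k37 3 (.s k149 k213 7 (.s k133 k181 3 (.d k197 k69 k101 7 11)))), (.s k15 k10 2 (.s
  k63 k42 6 (.s k47 k31 3 (.s k106 k224 10 (.d k149 k213 k192 7 14))))), (.s k15 k10 2 (.s k37 k53 3
  (.s k26 k48 6 (.s k31 k16 2 (.d k63 k47 k42 3 6)))))] .n) (.c k190 (.q k130 [(.s k53 k37 3 (.s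
  k149 k213 7 (.s k133 k181 3 (.d k197 k69 k101 7 11)))), (.s k15 k10 2 (.s k63 k42 6 (.s k47 k31 3
  (.s k106 k224 10 (.d k149 k213 k192 7 14))))), (.s k15 k10 2 (.s k37 k53 3 (.s k26 k48 6 (.s k31
  k16 2 (.d k63 k47 k42 3 6)))))] .n) .n))))

def s3_170_151 : T TT 256 :=
  (.q k21 [(.s k53 k37 3 (.s k149 k213 7 (.s k101 k197 11 (.s k117 k69 3 (.d k245 k181 k165 7
  11))))), (.s k15 k10 2 (.s k37 k53 3 (.s k26 k48 6 (.s k31 k16 2 (.d k63 k47 k42 3 6))))), (.s k15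
  k10 2 (.s k63 k42 6 (.s k47 k31 3 (.s k149 k213 7 (.s k106 k192 14 (.d k165 k224 k245 10 11))))))]
  .n)

def s3_170_152 : T TT 256 :=
  (.q k21 [(.s k53 k37 3 (.s k149 k213 7 (.s k101 k197 11 (.s k117 k69 3 (.d k245 k181 k165 7
  11))))), (.s k15 k10 2 (.s k37 k53 3 (.s k26 k48 6 (.s k31 k16 2 (.d k63 k47 k42 3 6))))), (.s k15
  k10 2 (.s k63 k42 6 (.s k47 k31 3 (.s k149 k213 7 (.s k106 k192 14 (.d k165 k224 k245 10 11))))))]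
  .n)

def s3_170_153 : T TT 256 :=
  (.f k165 k245 11 (.q k48 [(.s k15 k10 2 (.s k16 k32 3 (.s k154 k223 10 (.s k143 k176 6 (.d k207
  k101 k79 14 7))))), (.s k15 k10 2 (.s k32 k16 3 (.s k37 k26 6 (.s k21 k53 3 (.d k42 k47 k63 2
  6))))), (.s k16 k32 3 (.s k154 k223 10 (.s k101 k207 14 (.s k37 k229 7 (.s k53 k21 3 (.s k69 k117
  3 (.d k197 k133 k149 7 11))))))), (.s k15 k10 2 (.s k37 k26 6 (.s k101 k229 7 (.s k69 k117 3 (.d
  k207 k138 k154 10 14)))))] (.c k136 (.q k187 [(.s k15 k10 2 (.s k16 k32 3 (.s k154 k223 10 (.s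
  k143 k176 6 (.d k207 k101 k79 14 7))))), (.s k15 k10 2 (.s k32 k16 3 (.s k37 k26 6 (.s k21 k53 3
  (.d k42 k47 k63 2 6))))), (.s k16 k32 3 (.s k154 k223 10 (.s k101 k207 14 (.s k37 k229 7 (.s k53
  k21 3 (.s k69 k117 3 (.d k197 k133 k149 7 11))))))), (.s k15 k10 2 (.s k37 k26 6 (.s k101 k229 7
  (.s k69 k117 3 (.d k207 k138 k154 10 14)))))] .n) (.c k187 (.q k136 [(.s k15 k10 2 (.s k16 k32 3
  (.s k154 k223 10 (.s k143 k176 6 (.d k207 k101 k79 14 7))))), (.s k16 k32 3 (.s k204 k68 9 (.s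
  k152 k100 13 (.s k84 k220 9 (.d k168 k184 k252 3 13))))), (.s k15 k10 2 (.s k37 k26 6 (.s k101
  k229 7 (.s k69 k117 3 (.d k207 k138 k154 10 14)))))] (.c k101 (.l (.s k15 k10 2 (.s k26 k37 6 (.s
  k90 k240 14 (.s k154 k218 7 (.d k16 k32 k223 3 10)))))) .n)) .n))))

def s3_170_154 : T TT 256 :=
  (.q k69 [(.s k101 k117 3 (.s k165 k245 11 (.s k37 k229 7 (.s k53 k21 3 (.d k197 k133 k149 7
  11))))), (.s k15 k10 2 (.s k133 k197 7 (.s k74 k192 10 (.s k79 k64 2 (.d k207 k138 k143 10 7))))),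
  (.s k15 k10 2 (.s k101 k117 3 (.s k165 k245 11 (.s k90 k240 14 (.s k79 k112 6 (.d k207 k138 k143
  10 7))))))] (.c k138 (.q k186 [(.s k101 k117 3 (.s k165 k245 11 (.s k37 k229 7 (.s k53 k21 3 (.d
  k197 k133 k149 7 11))))), (.s k15 k10 2 (.s k117 k101 3 (.s k165 k245 11 (.s k90 k240 14 (.s k95
  k80 2 (.d k255 k48 k175 10 11)))))), (.s k15 k10 2 (.s k133 k197 7 (.s k74 k192 10 (.s k64 k79 2
  (.s k106 k127 6 (.s k165 k245 11 (.d k90 k122 k240 3 14))))))), (.s k15 k10 2 (.s k117 k101 3 (.s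
  k48 k255 10 (.s k32 k16 3 (.s k37 k26 6 (.s k21 k53 3 (.d k42 k47 k63 2 6)))))))] .n) (.c k186 (.l
  (.s k138 k207 10 (.s k15 k10 2 (.s k133 k197 7 (.s k128 k143 2 (.d k192 k64 k74 7 10)))))) .n)))

def s3_170_155 : T TT 256 :=
  (.q k21 [(.s k53 k37 3 (.s k149 k213 7 (.s k101 k197 11 (.s k117 k69 3 (.d k245 k181 k165 7
  11))))), (.s k15 k10 2 (.s k37 k53 3 (.s k26 k48 6 (.s k31 k16 2 (.d k63 k47 k42 3 6))))), (.s k15
  k10 2 (.s k63 k42 6 (.s k47 k31 3 (.s k149 k213 7 (.s k106 k192 14 (.d k165 k224 k245 10 11))))))]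
  .n)

def s3_170_156 : T TT 256 :=
  (.q k21 [(.s k53 k37 3 (.s k149 k213 7 (.s k101 k197 11 (.s k117 k69 3 (.d k245 k181 k165 7
  11))))), (.s k15 k10 2 (.s k37 k53 3 (.s k26 k48 6 (.s k31 k16 2 (.d k63 k47 k42 3 6))))), (.s k15
  k10 2 (.s k63 k42 6 (.s k47 k31 3 (.s k149 k213 7 (.s k106 k192 14 (.d k165 k224 k245 10 11))))))]
  .n)

def s3_170_157 : T TT 256 :=
  (.q k21 [(.s k53 k37 3 (.s k149 k213 7 (.s k101 k197 11 (.s k117 k69 3 (.d k245 k181 k165 7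
  11))))), (.s k15 k10 2 (.s k37 k53 3 (.s k26 k48 6 (.s k31 k16 2 (.d k63 k47 k42 3 6))))), (.s k15
  k10 2 (.s k63 k42 6 (.s k47 k31 3 (.s k149 k213 7 (.s k106 k192 14 (.d k165 k224 k245 10 11))))))]
  .n)

def s3_170_158 : T TT 256 :=
  (.q k21 [(.s k53 k37 3 (.s k149 k213 7 (.s k101 k197 11 (.s k117 k69 3 (.d k245 k181 k165 7
  11))))), (.s k15 k10 2 (.s k37 k53 3 (.s k26 k48 6 (.s k31 k16 2 (.d k63 k47 k42 3 6))))), (.s k15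
  k10 2 (.s k63 k42 6 (.s k47 k31 3 (.s k149 k213 7 (.s k106 k192 14 (.d k165 k224 k245 10 11))))))]
  .n)

def s3_170_159 : T TT 256 :=
  (.q k21 [(.s k53 k37 3 (.s k149 k213 7 (.s k101 k197 11 (.s k117 k69 3 (.d k245 k181 k165 7
  11))))), (.s k15 k10 2 (.s k37 k53 3 (.s k26 k48 6 (.s k31 k16 2 (.d k63 k47 k42 3 6))))), (.s k15
  k10 2 (.s k63 k42 6 (.s k47 k31 3 (.s k149 k213 7 (.s k106 k192 14 (.d k165 k224 k245 10 11))))))]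
  .n)

def s3_170_160 : T TT 256 :=
  (.q k63 [(.s k15 k10 2 (.s k47 k31 3 (.s k165 k245 11 (.s k106 k224 10 (.s k64 k127 6 (.d k192
  k128 k149 7 14)))))), (.s k21 k42 6 (.s k53 k37 3 (.s k149 k213 7 (.s k101 k197 11 (.s k117 k69 3
  (.d k245 k165 k181 11 7)))))), (.s k15 k10 2 (.s k21 k42 6 (.s k31 k47 3 (.s k26 k16 2 (.d k37 k53
  k48 3 6))))), (.s k15 k10 2 (.s k31 k47 3 (.s k165 k245 11 (.s k90 k240 14 (.s k149 k208 10 (.d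
  k21 k42 k213 6 7))))))] (.c k47 (.l (.s k15 k10 2 (.s k21 k42 6 (.s k149 k213 7 (.s k165 k245 11
  (.s k133 k181 3 (.d k192 k106 k74 14 10))))))) (.c k165 (.q k175 [(.s k21 k42 6 (.s k149 k213 7
  (.s k106 k192 14 (.s k127 k64 6 (.s k255 k191 7 (.d k15 k10 k95 2 11)))))), (.s k15 k10 2 (.s k47
  k31 3 (.s k95 k255 11 (.s k111 k239 7 (.s k79 k127 3 (.d k207 k143 k159 7 11)))))), (.s k21 k42 6
  (.s k53 k37 3 (.s k149 k213 7 (.s k101 k197 11 (.s k69 k117 3 (.s k207 k138 10 (.d k48 k154 k58 14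
  2)))))))] .n) (.c k175 (.l (.s k165 k245 11 (.s k15 k10 2 (.s k21 k42 6 (.s k31 k47 3 (.s k26 k16
  2 (.d k37 k53 k48 3 6))))))) .n))))

def s3_170_161 : T TT 256 :=
  (.f k165 k245 11 (.q k149 [(.s k21 k213 7 (.s k53 k37 3 (.s k133 k181 3 (.d k197 k69 k101 7
  11)))), (.s k15 k10 2 (.s k133 k181 3 (.s k192 k74 10 (.s k64 k128 7 (.d k106 k127 k63 6 14))))),
  (.s k15 k10 2 (.s k21 k213 7 (.s k63 k42 6 (.s k47 k31 3 (.d k106 k224 k192 10 14)))))] (.c k82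
  (.q k240 [(.d k15 k10 k90 2 14), (.s k21 k213 7 (.s k63 k42 6 (.d k181 k133 k122 3 10)))] .n) (.c
  k240 (.q k82 [(.s k21 k213 7 (.s k53 k37 3 (.s k133 k181 3 (.d k197 k69 k101 7 11)))), (.s k15 k10
  2 (.s k133 k181 3 (.s k192 k74 10 (.s k64 k128 7 (.d k106 k63 k127 14 6))))), (.s k15 k10 2 (.s
  k21 k213 7 (.s k63 k42 6 (.s k47 k31 3 (.d k106 k224 k192 10 14)))))] (.c k63 (.l (.s k21 k213 7
  (.s k53 k37 3 (.s k197 k101 11 (.d k133 k181 k69 3 7))))) (.c k250 (.q k255 [(.s k21 k213 7 (.s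
  k53 k37 3 (.s k133 k181 3 (.d k197 k69 k101 7 11)))), (.s k21 k213 7 (.s k63 k42 6 (.s k106 k192
  14 (.d k127 k64 k191 6 7)))), (.s k133 k181 3 (.s k213 k21 7 (.s k192 k234 6 (.d k15 k10 k74 2
  10))))] (.c k10 (.q k90 [(.s k21 k213 7 (.s k53 k37 3 (.s k133 k181 3 (.d k197 k69 k101 7 11)))),
  (.s k80 k95 2 (.s k83 k81 0 (.s k86 k94 1 (.s k84 k87 0 (.d k92 k88 k89 1 2)))))] .n) (.c k21 (.l
  (.s k133 k181 3 (.s k69 k197 7 (.s k138 k207 10 (.s k128 k143 2 (.s k192 k64 7 (.d k15 k10 k74 2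
  10))))))) (.c k63 (.l (.s k21 k213 7 (.s k53 k37 3 (.s k197 k101 11 (.d k133 k181 k69 3 7))))) (.c
  k90 (.l (.s k10 k15 2 (.s k21 k213 7 (.s k53 k37 3 (.s k133 k181 3 (.d k197 k69 k101 7 11))))))
  (.c k213 (.l (.s k133 k181 3 (.s k197 k69 7 (.s k53 k101 11 (.s k21 k37 3 (.s k63 k42 6 (.s k106
  k192 14 (.d k127 k64 k191 6 7)))))))) .n)))))) (.c k255 (.q k250 [(.s k21 k213 7 (.s k53 k37 3 (.s
  k133 k181 3 (.d k197 k69 k101 7 11)))), (.s k15 k10 2 (.s k133 k181 3 (.s k192 k74 10 (.s k64 k128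
  7 (.d k106 k63 k127 14 6))))), (.s k15 k10 2 (.s k21 k213 7 (.s k63 k42 6 (.s k47 k31 3 (.d k106
  k192 k224 14 10)))))] (.c k63 (.l (.s k21 k213 7 (.s k53 k37 3 (.s k197 k101 11 (.d k133 k181 k69
  3 7))))) (.c k87 (.q k171 [(.s k21 k213 7 (.s k53 k37 3 (.s k133 k181 3 (.d k197 k69 k101 7
  11)))), (.s k15 k10 2 (.s k133 k181 3 (.s k192 k74 10 (.s k64 k128 7 (.d k106 k63 k127 14 6))))),
  (.s k15 k10 2 (.s k21 k213 7 (.s k63 k42 6 (.s k47 k31 3 (.d k106 k192 k224 14 10)))))] (.c k63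
  (.l (.s k21 k213 7 (.s k53 k37 3 (.s k197 k101 11 (.d k133 k181 k69 3 7))))) (.c k192 (.l (.s k133
  k181 3 (.s k197 k69 7 (.s k53 k101 11 (.d k21 k37 k213 3 7))))) .n))) (.c k171 (.q k87 [(.s k21
  k213 7 (.s k53 k37 3 (.s k133 k181 3 (.d k197 k69 k101 7 11)))), (.s k86 k84 0 (.s k7 k244 12 (.s
  k4 k6 0 (.d k247 k167 k166 11 12))))] (.c k168 (.q k169 [(.s k21 k213 7 (.s k53 k37 3 (.s k133
  k181 3 (.d k197 k69 k101 7 11)))), (.s k86 k84 0 (.s k7 k244 12 (.s k4 k6 0 (.d k247 k167 k166 11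
  12))))] .n) (.c k169 (.q k168 [(.d k84 k86 k252 0 13)] (.c k84 (.l (.s k21 k213 7 (.s k53 k37 3
  (.s k133 k181 3 (.d k197 k69 k101 7 11))))) (.c k86 (.l (.s k252 k84 13 (.s k21 k213 7 (.s k53 k37
  3 (.s k133 k181 3 (.d k197 k69 k101 7 11)))))) (.c k252 (.l (.s k86 k84 0 (.s k21 k213 7 (.s k23
  k212 8 (.s k20 k22 0 (.d k215 k151 k150 7 8)))))) .n)))) .n))) (.c k192 (.l (.s k133 k181 3 (.s
  k197 k69 7 (.s k53 k101 11 (.d k21 k37 k213 3 7))))) .n))))) .n)))) .n))))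

def s3_170_162 : T TT 256 :=
  (.f k165 k245 11 (.q k166 [(.s k4 k247 12 (.s k164 k167 0 (.s k244 k84 11 (.d k7 k6 k86 0 12)))),
  (.s k15 k10 2 (.s k90 k240 14 (.s k14 k242 13 (.s k12 k13 0 (.s k167 k164 0 (.d k243 k91 k89 13
  14)))))), (.s k4 k247 12 (.s k12 k8 1 (.s k15 k10 2 (.s k14 k13 0 (.d k90 k242 k240 13 14)))))]
  .n))

def s3_170_163 : T TT 256 :=
  (.f k165 k245 11 (.q k243 [(.s k15 k10 2 (.s k167 k91 13 (.s k166 k164 0 (.s k4 k247 12 (.d k12 k8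
  k89 1 14))))), (.s k81 k162 12 (.s k89 k93 1 (.s k241 k13 13 (.s k240 k242 0 (.s k90 k15 14 (.d
  k80 k160 k95 11 2)))))), (.s k81 k162 12 (.s k89 k93 1 (.s k166 k12 14 (.s k4 k247 12 (.s k164
  k167 0 (.s k244 k84 11 (.d k7 k6 k86 0 12)))))))] (.c k12 (.l (.s k15 k10 2 (.s k81 k162 12 (.s
  k89 k93 1 (.s k90 k240 14 (.d k91 k88 k167 0 13)))))) (.c k89 (.l (.s k15 k10 2 (.s k90 k240 14
  (.s k95 k80 2 (.s k167 k91 13 (.s k166 k164 0 (.s k247 k4 12 (.d k255 k251 k175 1 11)))))))) (.c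
  k166 (.l (.s k15 k10 2 (.s k90 k240 14 (.s k91 k167 13 (.s k89 k88 0 (.d k81 k93 k162 1 12))))))
  .n)))))

def s3_170_164 : T TT 256 :=
  (.q k21 [(.s k53 k37 3 (.s k149 k213 7 (.s k101 k197 11 (.s k117 k69 3 (.d k245 k181 k165 7
  11))))), (.s k15 k10 2 (.s k37 k53 3 (.s k26 k48 6 (.s k31 k16 2 (.d k63 k47 k42 3 6))))), (.s k15
  k10 2 (.s k63 k42 6 (.s k47 k31 3 (.s k149 k213 7 (.s k106 k192 14 (.d k165 k224 k245 10 11))))))]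
  .n)

def s3_170_165 : T TT 256 :=
  (.q k21 [(.s k15 k10 2 (.s k37 k53 3 (.s k26 k48 6 (.s k31 k16 2 (.d k63 k47 k42 3 6))))), (.s k53
  k37 3 (.s k63 k42 6 (.s k149 k213 7 (.s k101 k197 11 (.s k69 k117 3 (.s k207 k138 10 (.d k48 k154
  k58 14 2)))))))] (.c k37 (.f k149 k213 7 (.f k63 k42 6 (.f k15 k10 2 (.f k106 k192 14 (.f k47 k31
  3 (.l (.s k127 k64 6 (.s k255 k191 7 (.s k175 k95 11 (.s k111 k239 7 (.s k101 k96 2 (.s k69 k117 3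
  (.d k197 k133 k53 7 11))))))))))))) (.c k42 (.f k37 k53 3 (.f k149 k213 7 (.f k15 k10 2 (.f k26
  k48 6 (.l (.s k31 k16 2 (.s k63 k47 3 (.s k90 k208 10 (.s k80 k95 2 (.s k106 k192 14 (.s k122 k74
  3 (.d k240 k181 k160 10 11)))))))))))) (.c k47 (.f k53 k37 3 (.l (.s k149 k213 7 (.s k101 k197 11
  (.s k69 k117 3 (.s k207 k138 10 (.s k154 k48 14 (.s k159 k144 2 (.d k63 k42 k111 6 11))))))))) (.c
  k48 (.f k15 k10 2 (.l (.s k63 k42 6 (.s k31 k47 3 (.s k149 k213 7 (.s k90 k208 10 (.s k95 k80 2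
  (.s k223 k159 7 (.d k16 k26 k154 2 10))))))))) (.c k53 (.f k15 k10 2 (.l (.s k63 k42 6 (.s k31 k47
  3 (.s k149 k213 7 (.s k90 k208 10 (.s k95 k80 2 (.s k223 k159 7 (.d k16 k26 k154 2 10))))))))) (.c
  k58 (.l (.s k15 k10 2 (.s k37 k53 3 (.s k26 k48 6 (.s k63 k42 6 (.d k31 k16 k47 2 3)))))) (.c k63
  (.f k53 k37 3 (.f k15 k10 2 (.f k149 k213 7 (.f k101 k197 11 (.l (.s k69 k117 3 (.s k207 k138 10
  (.s k79 k143 7 (.s k90 k112 6 (.s k31 k208 10 (.s k16 k26 2 (.d k48 k154 k32 14 3)))))))))))) (.c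
  k160 (.q k175 [(.s k15 k10 2 (.s k37 k53 3 (.s k26 k48 6 (.s k31 k16 2 (.d k63 k47 k42 3 6))))),
  (.s k53 k37 3 (.s k63 k42 6 (.s k149 k213 7 (.s k101 k197 11 (.s k69 k117 3 (.s k207 k138 10 (.d
  k48 k154 k58 14 2))))))), (.s k15 k10 2 (.s k95 k255 11 (.s k90 k80 2 (.s k149 k213 7 (.s k31 k208
  10 (.d k63 k47 k42 3 6)))))), (.s k15 k10 2 (.s k37 k53 3 (.s k95 k255 11 (.s k90 k80 2 (.s k149
  k213 7 (.s k31 k208 10 (.d k26 k16 k48 2 6)))))))] .n) (.c k175 (.q k160 [(.s k15 k10 2 (.s k37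
  k53 3 (.s k26 k48 6 (.s k31 k16 2 (.d k63 k47 k42 3 6))))), (.s k53 k37 3 (.s k63 k42 6 (.s k149
  k213 7 (.s k101 k197 11 (.s k69 k117 3 (.s k207 k138 10 (.d k48 k154 k58 14 2))))))), (.s k15 k10
  2 (.s k80 k240 11 (.s k90 k95 2 (.s k149 k213 7 (.s k31 k208 10 (.d k63 k47 k42 3 6)))))), (.s k15
  k10 2 (.s k37 k53 3 (.s k80 k240 11 (.s k90 k95 2 (.s k149 k213 7 (.s k31 k208 10 (.d k26 k16 k48
  2 6)))))))] .n) .n))))))))))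

def s3_170_166 : T TT 256 :=
  (.f k165 k245 11 (.q k207 [(.s k15 k10 2 (.s k143 k79 7 (.s k154 k176 6 (.s k16 k223 10 (.d k48
  k32 k101 3 14))))), (.s k69 k138 10 (.s k101 k117 3 (.s k37 k229 7 (.s k53 k21 3 (.d k197 k133
  k149 7 11)))))] (.c k101 (.l (.s k15 k10 2 (.s k69 k138 10 (.s k79 k143 7 (.s k74 k64 2 (.d k133
  k197 k192 7 10)))))) (.c k154 (.l (.s k15 k10 2 (.s k79 k143 7 (.s k90 k240 14 (.s k101 k112 6 (.d
  k69 k117 k138 3 10)))))) (.c k162 (.q k174 [(.s k15 k10 2 (.s k143 k79 7 (.s k154 k176 6 (.s k16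
  k223 10 (.d k48 k32 k101 3 14))))), (.s k69 k138 10 (.s k101 k117 3 (.s k37 k229 7 (.s k53 k21 3
  (.d k197 k133 k149 7 11)))))] (.c k101 (.l (.s k15 k10 2 (.s k69 k138 10 (.s k79 k143 7 (.s k74
  k64 2 (.d k133 k197 k192 7 10)))))) (.c k154 (.l (.s k15 k10 2 (.s k79 k143 7 (.s k90 k240 14 (.s
  k101 k112 6 (.d k69 k117 k138 3 10)))))) .n))) (.c k174 (.q k162 [(.s k15 k10 2 (.s k143 k79 7 (.s
  k154 k176 6 (.s k16 k223 10 (.d k48 k32 k101 3 14))))), (.s k69 k138 10 (.s k101 k117 3 (.s k37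
  k229 7 (.s k53 k21 3 (.d k197 k133 k149 7 11)))))] (.c k101 (.l (.s k15 k10 2 (.s k69 k138 10 (.s
  k79 k143 7 (.s k74 k64 2 (.d k133 k197 k192 7 10)))))) (.c k154 (.l (.s k15 k10 2 (.s k79 k143 7
  (.s k90 k240 14 (.s k101 k112 6 (.d k69 k117 k138 3 10)))))) .n))) .n))))))

def s3_170_167 : T TT 256 :=
  (.q k21 [(.s k53 k37 3 (.s k149 k213 7 (.s k101 k197 11 (.s k117 k69 3 (.d k245 k181 k165 7
  11))))), (.s k15 k10 2 (.s k37 k53 3 (.s k26 k48 6 (.s k31 k16 2 (.d k63 k47 k42 3 6))))), (.s k15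
  k10 2 (.s k63 k42 6 (.s k47 k31 3 (.s k149 k213 7 (.s k106 k192 14 (.d k165 k224 k245 10 11))))))]
  .n)

def s3_170_168 : T TT 256 :=
  (.f k165 k245 11 (.q k86 [(.s k7 k244 12 (.s k87 k84 0 (.s k247 k167 11 (.d k4 k6 k166 0 12)))),
  (.s k15 k10 2 (.s k84 k87 0 (.s k90 k240 14 (.s k80 k95 2 (.s k82 k94 1 (.s k83 k81 0 (.d k92 k88
  k89 1 2))))))), (.s k7 k244 12 (.s k4 k6 0 (.s k12 k8 1 (.s k15 k10 2 (.s k14 k13 0 (.s k90 k240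
  14 (.d k166 k247 k242 12 13)))))))] (.c k169 (.q k171 [(.s k7 k244 12 (.s k87 k84 0 (.s k247 k167
  11 (.d k4 k6 k166 0 12)))), (.s k15 k10 2 (.s k84 k87 0 (.s k90 k240 14 (.s k80 k95 2 (.s k82 k94
  1 (.s k83 k81 0 (.d k92 k88 k89 1 2))))))), (.s k7 k244 12 (.s k4 k6 0 (.s k12 k8 1 (.s k15 k10 2
  (.s k14 k13 0 (.s k90 k240 14 (.d k166 k247 k242 12 13)))))))] .n) (.c k171 (.q k169 [(.s k7 k244
  12 (.s k4 k6 0 (.s k87 k84 0 (.d k247 k167 k166 11 12)))), (.s k1 k253 13 (.s k161 k173 1 (.s k241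
  k81 11 (.d k13 k9 k89 1 13))))] (.c k9 (.l (.s k7 k244 12 (.s k87 k84 0 (.s k247 k167 11 (.d k4 k6
  k166 0 12))))) (.c k87 (.q k255 [(.s k15 k10 2 (.s k90 k240 14 (.d k95 k80 k175 2 11))), (.s k1
  k253 13 (.s k13 k9 1 (.s k161 k173 1 (.d k241 k81 k89 11 13))))] (.c k161 (.l (.s k15 k10 2 (.s
  k95 k175 11 (.d k90 k80 k240 2 14)))) .n)) (.c k255 (.l (.s k87 k84 0 (.s k7 k244 12 (.s k4 k6 0
  (.d k247 k167 k166 11 12))))) .n)))) .n))))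

def s3_170_169 : T TT 256 :=
  (.f k165 k245 11 (.q k86 [(.s k7 k244 12 (.s k87 k84 0 (.s k247 k167 11 (.d k4 k6 k166 0 12)))),
  (.s k15 k10 2 (.s k84 k87 0 (.s k90 k240 14 (.s k80 k95 2 (.s k82 k94 1 (.s k83 k81 0 (.d k92 k88
  k89 1 2))))))), (.s k7 k244 12 (.s k4 k6 0 (.s k12 k8 1 (.s k15 k10 2 (.s k14 k13 0 (.s k90 k240
  14 (.d k166 k247 k242 12 13)))))))] (.c k168 (.q k171 [(.s k7 k244 12 (.s k87 k84 0 (.s k247 k167
  11 (.d k4 k6 k166 0 12)))), (.s k15 k10 2 (.s k84 k87 0 (.s k90 k240 14 (.s k80 k95 2 (.s k82 k94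
  1 (.s k83 k81 0 (.d k92 k88 k89 1 2))))))), (.s k7 k244 12 (.s k4 k6 0 (.s k12 k8 1 (.s k15 k10 2
  (.s k14 k13 0 (.s k90 k240 14 (.d k166 k247 k242 12 13)))))))] .n) (.c k171 (.q k168 [(.d k84 k87
  k252 0 13)] (.c k84 (.l (.s k7 k244 12 (.s k4 k6 0 (.s k12 k8 1 (.s k15 k10 2 (.s k14 k13 0 (.s
  k90 k240 14 (.d k166 k247 k242 12 13)))))))) (.c k87 (.q k255 [(.s k15 k10 2 (.s k90 k240 14 (.d
  k95 k80 k175 2 11))), (.s k7 k244 12 (.s k4 k6 0 (.s k12 k8 1 (.s k93 k174 12 (.s k89 k81 1 (.d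
  k166 k247 k243 12 14))))))] .n) (.c k252 (.l (.s k7 k244 12 (.s k4 k6 0 (.s k87 k84 0 (.d k247
  k167 k166 11 12))))) (.c k255 (.l (.s k87 k84 0 (.s k7 k244 12 (.s k4 k6 0 (.d k247 k167 k166 11
  12))))) .n))))) .n))))

def s3_170_171 : T TT 256 :=
  (.f k165 k245 11 (.q k87 [(.s k86 k84 0 (.s k7 k244 12 (.s k4 k6 0 (.d k247 k167 k166 11 12)))),
  (.s k15 k10 2 (.s k86 k84 0 (.s k90 k240 14 (.s k95 k80 2 (.s k83 k91 1 (.s k92 k89 2 (.d k94 k82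
  k93 1 0))))))), (.s k15 k10 2 (.s k90 k240 14 (.s k95 k80 2 (.s k91 k83 1 (.s k243 k167 13 (.s k81
  k162 12 (.d k89 k88 k93 0 1)))))))] (.c k168 (.q k169 [(.s k1 k253 13 (.s k161 k173 1 (.s k241 k81
  11 (.d k13 k9 k89 1 13)))), (.s k86 k84 0 (.s k7 k244 12 (.s k247 k167 11 (.d k4 k6 k166 0 12))))]
  .n) (.c k169 (.q k168 [(.d k84 k86 k252 0 13)] (.c k84 (.l (.s k15 k10 2 (.s k90 k240 14 (.s k95
  k80 2 (.s k91 k83 1 (.s k243 k167 13 (.s k81 k162 12 (.d k89 k88 k93 0 1)))))))) (.c k86 (.f k252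
  k84 13 (.l (.s k15 k10 2 (.s k90 k240 14 (.s k95 k80 2 (.s k91 k83 1 (.s k243 k167 13 (.s k81 k162
  12 (.d k89 k88 k93 0 1))))))))) (.c k252 (.l (.s k86 k84 0 (.s k7 k244 12 (.s k4 k6 0 (.d k247
  k167 k166 11 12))))) .n)))) .n))))

def s3_170_172 : T TT 256 :=
  (.q k21 [(.s k53 k37 3 (.s k149 k213 7 (.s k101 k197 11 (.s k117 k69 3 (.d k245 k181 k165 7
  11))))), (.s k15 k10 2 (.s k37 k53 3 (.s k26 k48 6 (.s k31 k16 2 (.d k63 k47 k42 3 6))))), (.s k15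
  k10 2 (.s k63 k42 6 (.s k47 k31 3 (.s k149 k213 7 (.s k106 k192 14 (.d k165 k224 k245 10 11))))))]
  .n)

def s3_170_173 : T TT 256 :=
  (.q k21 [(.s k53 k37 3 (.s k149 k213 7 (.s k101 k197 11 (.s k117 k69 3 (.d k245 k181 k165 7
  11))))), (.s k15 k10 2 (.s k37 k53 3 (.s k26 k48 6 (.s k31 k16 2 (.d k63 k47 k42 3 6))))), (.s k15
  k10 2 (.s k63 k42 6 (.s k47 k31 3 (.s k149 k213 7 (.s k106 k192 14 (.d k165 k224 k245 10 11))))))]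
  .n)

def s3_170_174 : T TT 256 :=
  (.q k166 [(.s k4 k247 12 (.s k165 k245 11 (.s k164 k167 0 (.s k244 k84 11 (.d k7 k6 k86 0 12))))),
  (.s k4 k247 12 (.s k12 k8 1 (.s k15 k10 2 (.s k14 k13 0 (.s k90 k242 13 (.s k80 k95 2 (.d k240
  k160 k165 11 14))))))), (.s k15 k10 2 (.s k165 k245 11 (.s k167 k164 0 (.s k243 k91 13 (.s k81
  k162 12 (.d k89 k93 k12 1 14))))))] (.c k165 (.f k4 k247 12 (.l (.s k12 k8 1 (.s k15 k10 2 (.s k13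
  k14 0 (.s k89 k243 14 (.s k93 k81 1 (.s k253 k173 11 (.d k1 k9 k169 1 13))))))))) .n))

def s3_170_175 : T TT 256 :=
  (.q k21 [(.s k53 k37 3 (.s k149 k213 7 (.s k101 k197 11 (.s k117 k69 3 (.d k245 k165 k181 11
  7))))), (.s k15 k10 2 (.s k37 k53 3 (.s k26 k48 6 (.s k31 k16 2 (.d k63 k47 k42 3 6))))), (.s k15
  k10 2 (.s k63 k42 6 (.s k47 k31 3 (.s k149 k213 7 (.s k106 k192 14 (.d k165 k224 k245 10 11))))))]
  (.c k160 (.l (.s k165 k245 11 (.s k53 k37 3 (.s k149 k213 7 (.s k133 k181 3 (.d k197 k69 k101 7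
  11)))))) (.c k165 (.q k160 [(.s k15 k10 2 (.s k37 k53 3 (.s k26 k48 6 (.s k31 k16 2 (.d k63 k47
  k42 3 6))))), (.s k53 k37 3 (.s k63 k42 6 (.s k149 k213 7 (.s k101 k197 11 (.s k69 k117 3 (.s k207
  k138 10 (.d k48 k154 k58 14 2))))))), (.s k15 k10 2 (.s k80 k240 11 (.s k90 k95 2 (.s k149 k213 7
  (.s k31 k208 10 (.d k63 k47 k42 3 6)))))), (.s k15 k10 2 (.s k37 k53 3 (.s k80 k240 11 (.s k90 k95
  2 (.s k149 k213 7 (.s k31 k208 10 (.d k26 k16 k48 2 6)))))))] .n) .n)))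

def s3_170_176 : T TT 256 :=
  (.q k21 [(.s k53 k37 3 (.s k149 k213 7 (.s k101 k197 11 (.s k117 k69 3 (.d k245 k181 k165 7
  11))))), (.s k15 k10 2 (.s k37 k53 3 (.s k26 k48 6 (.s k31 k16 2 (.d k63 k47 k42 3 6))))), (.s k15
  k10 2 (.s k63 k42 6 (.s k47 k31 3 (.s k149 k213 7 (.s k106 k192 14 (.d k165 k224 k245 10 11))))))]
  .n)

def s3_170_177 : T TT 256 :=
  (.q k21 [(.s k53 k37 3 (.s k149 k213 7 (.s k101 k197 11 (.s k117 k69 3 (.d k245 k181 k165 7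
  11))))), (.s k15 k10 2 (.s k37 k53 3 (.s k26 k48 6 (.s k31 k16 2 (.d k63 k47 k42 3 6))))), (.s k15
  k10 2 (.s k63 k42 6 (.s k47 k31 3 (.s k149 k213 7 (.s k106 k192 14 (.d k165 k224 k245 10 11))))))]
  .n)

def s3_170_178 : T TT 256 :=
  (.q k21 [(.s k53 k37 3 (.s k149 k213 7 (.s k101 k197 11 (.s k117 k69 3 (.d k245 k181 k165 7
  11))))), (.s k15 k10 2 (.s k37 k53 3 (.s k26 k48 6 (.s k31 k16 2 (.d k63 k47 k42 3 6))))), (.s k15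
  k10 2 (.s k63 k42 6 (.s k47 k31 3 (.s k149 k213 7 (.s k106 k192 14 (.d k165 k224 k245 10 11))))))]
  .n)

def s3_170_179 : T TT 256 :=
  (.q k21 [(.s k53 k37 3 (.s k149 k213 7 (.s k101 k197 11 (.s k117 k69 3 (.d k245 k181 k165 7
  11))))), (.s k15 k10 2 (.s k37 k53 3 (.s k26 k48 6 (.s k31 k16 2 (.d k63 k47 k42 3 6))))), (.s k15
  k10 2 (.s k63 k42 6 (.s k47 k31 3 (.s k149 k213 7 (.s k106 k192 14 (.d k165 k224 k245 10 11))))))]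
  .n)

def s3_170_180 : T TT 256 :=
  (.q k21 [(.s k53 k37 3 (.s k149 k213 7 (.s k101 k197 11 (.s k117 k69 3 (.d k245 k181 k165 7
  11))))), (.s k15 k10 2 (.s k37 k53 3 (.s k26 k48 6 (.s k31 k16 2 (.d k63 k47 k42 3 6))))), (.s k15
  k10 2 (.s k63 k42 6 (.s k47 k31 3 (.s k149 k213 7 (.s k106 k192 14 (.d k165 k224 k245 10 11))))))]
  .n)

def s3_170_181 : T TT 256 :=
  (.q k21 [(.s k15 k10 2 (.s k63 k42 6 (.s k31 k47 3 (.s k26 k16 2 (.d k37 k53 k48 3 6))))), (.s k15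
  k10 2 (.s k149 k213 7 (.s k165 k245 11 (.s k90 k240 14 (.s k31 k208 10 (.d k63 k47 k42 3 6)))))),
  (.s k53 k37 3 (.s k63 k42 6 (.s k149 k213 7 (.s k101 k197 11 (.s k69 k117 3 (.s k207 k138 10 (.d
  k48 k154 k58 14 2))))))), (.s k15 k10 2 (.s k37 k53 3 (.s k26 k48 6 (.s k16 k31 2 (.s k154 k223 10
  (.s k90 k218 7 (.d k165 k245 k240 11 14)))))))] (.c k53 (.l (.s k15 k10 2 (.s k63 k42 6 (.s k31
  k47 3 (.s k149 k213 7 (.s k90 k208 10 (.d k165 k245 k240 11 14))))))) (.c k63 (.l (.s k15 k10 2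
  (.s k37 k53 3 (.s k48 k26 6 (.s k16 k32 3 (.s k154 k223 10 (.s k101 k207 14 (.d k165 k245 k229 11
  7)))))))) .n)))

def s3_170_182 : T TT 256 :=
  (.q k21 [(.s k53 k37 3 (.s k149 k213 7 (.s k101 k197 11 (.s k117 k69 3 (.d k245 k181 k165 7
  11))))), (.s k15 k10 2 (.s k37 k53 3 (.s k26 k48 6 (.s k31 k16 2 (.d k63 k47 k42 3 6))))), (.s k15
  k10 2 (.s k63 k42 6 (.s k47 k31 3 (.s k149 k213 7 (.s k106 k192 14 (.d k165 k224 k245 10 11))))))]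
  .n)

def s3_170_183 : T TT 256 :=
  (.q k21 [(.s k53 k37 3 (.s k149 k213 7 (.s k101 k197 11 (.s k117 k69 3 (.d k245 k181 k165 7
  11))))), (.s k15 k10 2 (.s k37 k53 3 (.s k26 k48 6 (.s k31 k16 2 (.d k63 k47 k42 3 6))))), (.s k15
  k10 2 (.s k63 k42 6 (.s k47 k31 3 (.s k149 k213 7 (.s k106 k192 14 (.d k165 k224 k245 10 11))))))]
  .n)

def s3_170_184 : T TT 256 :=
  (.q k21 [(.s k53 k37 3 (.s k149 k213 7 (.s k101 k197 11 (.s k117 k69 3 (.d k245 k181 k165 7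
  11))))), (.s k15 k10 2 (.s k37 k53 3 (.s k26 k48 6 (.s k31 k16 2 (.d k63 k47 k42 3 6))))), (.s k15
  k10 2 (.s k63 k42 6 (.s k47 k31 3 (.s k149 k213 7 (.s k106 k192 14 (.d k165 k224 k245 10 11))))))]
  .n)

def s3_170_185 : T TT 256 :=
  (.q k21 [(.s k53 k37 3 (.s k149 k213 7 (.s k101 k197 11 (.s k117 k69 3 (.d k245 k181 k165 7
  11))))), (.s k15 k10 2 (.s k37 k53 3 (.s k26 k48 6 (.s k31 k16 2 (.d k63 k47 k42 3 6))))), (.s k15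
  k10 2 (.s k63 k42 6 (.s k47 k31 3 (.s k149 k213 7 (.s k106 k192 14 (.d k165 k224 k245 10 11))))))]
  .n)

def s3_170_186 : T TT 256 :=
  (.f k165 k245 11 (.q k154 [(.s k15 k10 2 (.s k16 k223 10 (.s k48 k32 3 (.s k26 k37 6 (.d k90 k218
  k240 7 14))))), (.s k15 k10 2 (.s k143 k176 6 (.s k207 k79 7 (.s k69 k138 10 (.d k101 k117 k48 3
  14))))), (.s k16 k223 10 (.s k48 k32 3 (.s k101 k207 14 (.s k37 k229 7 (.s k53 k21 3 (.s k69 k117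
  3 (.d k197 k133 k149 7 11))))))), (.s k15 k10 2 (.s k16 k223 10 (.s k90 k240 14 (.s k26 k218 7 (.s
  k31 k21 2 (.s k80 k95 2 (.d k208 k144 k149 7 10)))))))] .n))

def s3_170_187 : T TT 256 :=
  (.f k165 k245 11 (.q k153 [(.s k15 k10 2 (.s k141 k177 5 (.s k204 k78 8 (.s k68 k136 9 (.d k102
  k119 k51 4 14))))), (.s k17 k221 9 (.s k51 k34 4 (.s k102 k204 14 (.s k39 k228 8 (.d k15 k10 k27 2
  5))))), (.s k17 k221 9 (.s k51 k34 4 (.s k177 k141 5 (.s k240 k114 8 (.s k80 k160 11 (.d k90 k95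
  k15 2 14))))))] (.c k15 (.f k17 k221 9 (.l (.s k51 k34 4 (.s k177 k141 5 (.s k240 k114 8 (.s k80
  k160 11 (.s k90 k95 2 (.s k216 k27 8 (.d k204 k102 k228 14 5))))))))) (.c k51 (.l (.s k15 k10 2
  (.s k90 k240 14 (.s k95 k80 2 (.s k221 k17 9 (.s k255 k175 11 (.s k204 k238 4 (.d k141 k177 k78 5
  8)))))))) (.c k102 (.l (.s k15 k10 2 (.s k17 k221 9 (.s k90 k240 14 (.s k27 k216 8 (.d k51 k34 k39
  4 5)))))) .n)))))

def s3_170_188 : T TT 256 :=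
  (.q k21 [(.s k53 k37 3 (.s k149 k213 7 (.s k101 k197 11 (.s k117 k69 3 (.d k245 k181 k165 7
  11))))), (.s k15 k10 2 (.s k37 k53 3 (.s k26 k48 6 (.s k31 k16 2 (.d k63 k47 k42 3 6))))), (.s k15
  k10 2 (.s k63 k42 6 (.s k47 k31 3 (.s k149 k213 7 (.s k106 k192 14 (.d k165 k224 k245 10 11))))))]
  .n)

def s3_170_189 : T TT 256 :=
  (.q k21 [(.s k53 k37 3 (.s k149 k213 7 (.s k101 k197 11 (.s k117 k69 3 (.d k245 k181 k165 7
  11))))), (.s k15 k10 2 (.s k37 k53 3 (.s k26 k48 6 (.s k31 k16 2 (.d k63 k47 k42 3 6))))), (.s k15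
  k10 2 (.s k63 k42 6 (.s k47 k31 3 (.s k149 k213 7 (.s k106 k192 14 (.d k165 k224 k245 10 11))))))]
  .n)

def s3_170_190 : T TT 256 :=
  (.f k165 k245 11 (.q k150 [(.s k15 k10 2 (.s k135 k180 4 (.s k195 k75 9 (.s k65 k130 8 (.d k105
  k125 k60 5 14))))), (.s k20 k215 8 (.s k60 k40 5 (.s k105 k195 14 (.s k45 k225 9 (.d k15 k10 k30 2
  4))))), (.s k20 k215 8 (.s k60 k40 5 (.s k180 k135 4 (.s k240 k120 9 (.s k80 k160 11 (.d k90 k95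
  k15 2 14))))))] (.c k15 (.q k7 [(.s k4 k6 0 (.s k86 k244 12 (.s k87 k84 0 (.d k247 k167 k166 11
  12)))), (.s k4 k6 0 (.s k20 k215 8 (.s k52 k36 3 (.s k37 k22 4 (.d k101 k229 k199 7 12))))), (.s
  k20 k215 8 (.s k86 k244 12 (.s k22 k214 7 (.s k21 k23 0 (.d k37 k53 k52 3 4)))))] .n) (.c k60 (.l
  (.s k15 k10 2 (.s k90 k240 14 (.s k95 k80 2 (.s k215 k20 8 (.s k255 k175 11 (.s k195 k235 5 (.d
  k135 k180 k75 4 9)))))))) (.c k105 (.l (.s k15 k10 2 (.s k20 k215 8 (.s k90 k240 14 (.s k30 k210 9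
  (.d k60 k45 k40 4 5)))))) .n)))))

def s3_170_191 : T TT 256 :=
  (.q k149 [(.s k21 k213 7 (.s k53 k37 3 (.s k101 k197 11 (.s k117 k69 3 (.d k245 k181 k165 7
  11))))), (.s k15 k10 2 (.s k21 k213 7 (.s k37 k53 3 (.s k26 k48 6 (.s k31 k16 2 (.d k63 k47 k42 3
  6)))))), (.s k15 k10 2 (.s k165 k245 11 (.s k133 k181 3 (.s k192 k74 10 (.s k64 k128 7 (.d k106
  k127 k63 6 14))))))] (.c k53 (.l (.s k15 k10 2 (.s k21 k213 7 (.s k63 k42 6 (.s k31 k47 3 (.s k90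
  k208 10 (.d k165 k245 k240 11 14))))))) .n))

def s3_170_192 : T TT 256 :=
  (.f k165 k245 11 (.q k16 [(.s k15 k10 2 (.s k48 k32 3 (.s k154 k223 10 (.s k143 k176 6 (.d k207
  k101 k79 14 7))))), (.s k48 k32 3 (.s k154 k223 10 (.s k101 k207 14 (.s k37 k229 7 (.s k53 k21 3
  (.s k69 k117 3 (.d k197 k133 k149 7 11))))))), (.s k15 k10 2 (.s k90 k240 14 (.s k80 k95 2 (.s
  k154 k223 10 (.s k26 k218 7 (.s k31 k21 2 (.d k208 k144 k149 7 10))))))), (.s k15 k10 2 (.s k48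
  k32 3 (.s k26 k37 6 (.s k31 k21 2 (.s k90 k240 14 (.s k80 k95 2 (.d k208 k144 k149 7 10)))))))]
  (.c k66 (.q k129 [(.s k15 k10 2 (.s k48 k32 3 (.s k154 k223 10 (.s k143 k176 6 (.d k207 k101 k79
  14 7))))), (.s k48 k32 3 (.s k154 k223 10 (.s k101 k207 14 (.s k37 k229 7 (.s k53 k21 3 (.s k69
  k117 3 (.d k197 k133 k149 7 11))))))), (.s k15 k10 2 (.s k90 k240 14 (.s k80 k95 2 (.s k154 k223
  10 (.s k26 k218 7 (.s k31 k21 2 (.d k208 k144 k149 7 10))))))), (.s k15 k10 2 (.s k48 k32 3 (.s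
  k26 k37 6 (.s k31 k21 2 (.s k90 k240 14 (.s k80 k95 2 (.d k208 k144 k149 7 10)))))))] .n) (.c k129
  (.q k66 [(.s k15 k10 2 (.s k48 k32 3 (.s k154 k223 10 (.s k143 k176 6 (.d k207 k101 k79 14 7))))),
  (.s k48 k32 3 (.s k154 k223 10 (.s k101 k207 14 (.s k37 k229 7 (.s k53 k21 3 (.s k69 k117 3 (.d
  k197 k133 k149 7 11))))))), (.s k15 k10 2 (.s k90 k240 14 (.s k80 k95 2 (.s k154 k223 10 (.s k26
  k218 7 (.s k31 k21 2 (.d k208 k144 k149 7 10))))))), (.s k15 k10 2 (.s k48 k32 3 (.s k26 k37 6 (.s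
  k31 k21 2 (.s k90 k240 14 (.s k80 k95 2 (.d k208 k144 k149 7 10)))))))] .n) .n))))

def s3_170_193 : T TT 256 :=
  (.q k21 [(.s k37 k53 3 (.s k42 k63 6 (.s k32 k47 2 (.s k48 k16 3 (.d k15 k10 k26 2 6))))), (.s k53
  k37 3 (.s k149 k213 7 (.s k101 k197 11 (.s k117 k69 3 (.d k245 k181 k165 7 11))))), (.s k15 k10 2
  (.s k63 k42 6 (.s k47 k31 3 (.s k149 k213 7 (.s k106 k192 14 (.d k165 k224 k245 10 11))))))] .n)

def s3_170_194 : T TT 256 :=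
  (.q k21 [(.s k53 k37 3 (.s k149 k213 7 (.s k101 k197 11 (.s k117 k69 3 (.d k245 k181 k165 7
  11))))), (.s k15 k10 2 (.s k37 k53 3 (.s k26 k48 6 (.s k31 k16 2 (.d k63 k47 k42 3 6))))), (.s k15
  k10 2 (.s k63 k42 6 (.s k47 k31 3 (.s k149 k213 7 (.s k106 k192 14 (.d k165 k224 k245 10 11))))))]
  .n)

def s3_170_195 : T TT 256 :=
  (.f k165 k245 11 (.q k4 [(.s k166 k247 12 (.s k164 k167 0 (.s k244 k84 11 (.d k7 k6 k86 0 12)))),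
  (.s k12 k8 1 (.s k15 k10 2 (.s k14 k13 0 (.s k90 k240 14 (.d k166 k247 k242 12 13)))))] (.c k67
  (.q k131 [(.s k166 k247 12 (.s k164 k167 0 (.s k244 k84 11 (.d k7 k6 k86 0 12)))), (.s k12 k8 1
  (.s k15 k10 2 (.s k14 k13 0 (.s k90 k240 14 (.d k166 k247 k242 12 13)))))] (.c k166 (.l (.s k7 k6
  0 (.s k15 k10 2 (.s k86 k244 12 (.s k84 k87 0 (.s k90 k240 14 (.s k252 k168 13 (.d k94 k82 k173 1
  12)))))))) (.c k247 (.l (.s k7 k6 0 (.s k12 k8 1 (.s k15 k10 2 (.s k244 k86 12 (.s k164 k84 11 (.d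
  k240 k90 k88 14 13))))))) .n))) (.c k131 (.q k67 [(.s k166 k247 12 (.s k164 k167 0 (.s k244 k84 11
  (.d k7 k6 k86 0 12)))), (.s k12 k8 1 (.s k15 k10 2 (.s k14 k13 0 (.s k90 k240 14 (.d k166 k247
  k242 12 13)))))] (.c k166 (.l (.s k7 k6 0 (.s k15 k10 2 (.s k86 k244 12 (.s k84 k87 0 (.s k90 k240
  14 (.s k252 k168 13 (.d k94 k82 k173 1 12)))))))) (.c k247 (.l (.s k7 k6 0 (.s k12 k8 1 (.s k15
  k10 2 (.s k244 k86 12 (.s k164 k84 11 (.d k240 k90 k88 14 13))))))) .n))) (.c k166 (.l (.s k7 k6 0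
  (.s k15 k10 2 (.s k86 k244 12 (.s k84 k87 0 (.s k90 k240 14 (.s k252 k168 13 (.d k94 k82 k173 1
  12)))))))) (.c k247 (.l (.s k7 k6 0 (.s k12 k8 1 (.s k15 k10 2 (.s k244 k86 12 (.s k164 k84 11 (.d
  k240 k90 k88 14 13))))))) .n))))))

def s3_170_196 : T TT 256 :=
  (.q k21 [(.s k37 k53 3 (.s k42 k63 6 (.s k32 k47 2 (.s k48 k16 3 (.d k15 k10 k26 2 6))))), (.s k53
  k37 3 (.s k149 k213 7 (.s k101 k197 11 (.s k117 k69 3 (.d k245 k181 k165 7 11))))), (.s k15 k10 2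
  (.s k63 k42 6 (.s k47 k31 3 (.s k149 k213 7 (.s k106 k192 14 (.d k165 k224 k245 10 11))))))] .n)

def s3_170_197 : T TT 256 :=
  (.q k89 [(.s k93 k81 1 (.s k165 k245 11 (.s k13 k241 13 (.s k253 k173 11 (.d k1 k9 k169 1 13))))),
  (.s k15 k10 2 (.s k81 k93 1 (.s k243 k162 12 (.s k91 k167 13 (.s k90 k88 0 (.s k80 k95 2 (.d k240
  k160 k165 11 14))))))), (.s k15 k10 2 (.s k165 k245 11 (.s k13 k241 13 (.s k12 k14 0 (.s k4 k8 1
  (.d k166 k247 k243 12 14))))))] (.c k165 (.q k80 [(.s k15 k10 2 (.s k81 k93 1 (.s k90 k95 2 (.s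
  k91 k88 0 (.d k243 k162 k167 12 13))))), (.s k81 k93 1 (.s k83 k82 0 (.s k86 k92 2 (.s k87 k84 0
  (.d k95 k91 k90 1 2))))), (.s k15 k10 2 (.s k90 k95 2 (.s k91 k88 0 (.s k243 k167 13 (.s k166 k12
  14 (.s k242 k14 13 (.d k240 k160 k241 11 0))))))), (.s k81 k93 1 (.s k83 k82 0 (.s k86 k92 2 (.s
  k243 k162 12 (.s k166 k12 14 (.s k4 k247 12 (.d k6 k7 k246 0 11)))))))] (.c k95 (.l (.s k15 k10 2
  (.s k81 k93 1 (.s k83 k82 0 (.s k92 k86 2 (.s k88 k84 1 (.s k243 k162 12 (.d k91 k90 k167 0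
  13)))))))) (.c k160 (.q k175 [(.s k15 k10 2 (.d k95 k90 k255 2 11)), (.s k81 k93 1 (.s k83 k82 0
  (.s k86 k92 2 (.s k87 k84 0 (.d k95 k91 k90 1 2)))))] (.c k90 (.l (.s k81 k93 1 (.s k83 k82 0 (.s
  k86 k92 2 (.s k87 k84 0 (.s k95 k91 1 (.d k15 k10 k255 2 11))))))) (.c k95 (.l (.s k15 k10 2 (.s
  k81 k93 1 (.s k83 k82 0 (.s k92 k86 2 (.s k88 k84 1 (.s k243 k162 12 (.d k91 k90 k167 0 13))))))))
  .n))) (.c k175 (.l (.s k160 k240 11 (.s k15 k10 2 (.s k81 k93 1 (.s k90 k95 2 (.s k91 k88 0 (.d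
  k243 k162 k167 12 13))))))) .n)))) .n))

def s3_170_198 : T TT 256 :=
  (.q k21 [(.s k53 k37 3 (.s k149 k213 7 (.s k101 k197 11 (.s k117 k69 3 (.d k245 k181 k165 7
  11))))), (.s k15 k10 2 (.s k37 k53 3 (.s k26 k48 6 (.s k31 k16 2 (.d k63 k47 k42 3 6))))), (.s k15
  k10 2 (.s k63 k42 6 (.s k47 k31 3 (.s k149 k213 7 (.s k106 k192 14 (.d k165 k224 k245 10 11))))))]
  .n)

def s3_170_199 : T TT 256 :=
  (.q k21 [(.s k37 k53 3 (.s k42 k63 6 (.s k32 k47 2 (.s k48 k16 3 (.d k15 k10 k26 2 6))))), (.s k53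
  k37 3 (.s k149 k213 7 (.s k101 k197 11 (.s k117 k69 3 (.d k245 k181 k165 7 11))))), (.s k15 k10 2
  (.s k63 k42 6 (.s k47 k31 3 (.s k149 k213 7 (.s k106 k192 14 (.d k165 k224 k245 10 11))))))] .n)

def s3_170_200 : T TT 256 :=
  (.q k21 [(.s k53 k37 3 (.s k149 k213 7 (.s k101 k197 11 (.s k117 k69 3 (.d k245 k181 k165 7
  11))))), (.s k15 k10 2 (.s k37 k53 3 (.s k26 k48 6 (.s k31 k16 2 (.d k63 k47 k42 3 6))))), (.s k15
  k10 2 (.s k63 k42 6 (.s k47 k31 3 (.s k149 k213 7 (.s k106 k192 14 (.d k165 k224 k245 10 11))))))]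
  .n)

def s3_170_201 : T TT 256 :=
  (.q k21 [(.s k53 k37 3 (.s k149 k213 7 (.s k101 k197 11 (.s k117 k69 3 (.d k245 k181 k165 7
  11))))), (.s k15 k10 2 (.s k37 k53 3 (.s k26 k48 6 (.s k31 k16 2 (.d k63 k47 k42 3 6))))), (.s k15
  k10 2 (.s k63 k42 6 (.s k47 k31 3 (.s k149 k213 7 (.s k106 k192 14 (.d k165 k224 k245 10 11))))))]
  .n)

def s3_170_202 : T TT 256 :=
  (.q k21 [(.s k53 k37 3 (.s k149 k213 7 (.s k101 k197 11 (.s k117 k69 3 (.d k245 k181 k165 7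
  11))))), (.s k15 k10 2 (.s k37 k53 3 (.s k26 k48 6 (.s k31 k16 2 (.d k63 k47 k42 3 6))))), (.s k15
  k10 2 (.s k63 k42 6 (.s k47 k31 3 (.s k149 k213 7 (.s k106 k192 14 (.d k165 k224 k245 10 11))))))]
  .n)

def s3_170_203 : T TT 256 :=
  (.q k21 [(.s k53 k37 3 (.s k149 k213 7 (.s k101 k197 11 (.s k117 k69 3 (.d k245 k181 k165 7
  11))))), (.s k15 k10 2 (.s k37 k53 3 (.s k26 k48 6 (.s k31 k16 2 (.d k63 k47 k42 3 6))))), (.s k15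
  k10 2 (.s k63 k42 6 (.s k47 k31 3 (.s k149 k213 7 (.s k106 k192 14 (.d k165 k224 k245 10 11))))))]
  .n)

def s3_170_204 : T TT 256 :=
  (.f k165 k245 11 (.q k48 [(.s k15 k10 2 (.s k16 k32 3 (.s k154 k223 10 (.s k143 k176 6 (.d k207
  k101 k79 14 7))))), (.s k15 k10 2 (.s k32 k16 3 (.s k37 k26 6 (.s k21 k53 3 (.d k42 k47 k63 2
  6))))), (.s k16 k32 3 (.s k154 k223 10 (.s k101 k207 14 (.s k37 k229 7 (.s k53 k21 3 (.s k69 k117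
  3 (.d k197 k133 k149 7 11))))))), (.s k15 k10 2 (.s k37 k26 6 (.s k101 k229 7 (.s k69 k117 3 (.d
  k207 k138 k154 10 14)))))] (.c k70 (.q k137 [(.s k15 k10 2 (.s k16 k32 3 (.s k154 k223 10 (.s k143
  k176 6 (.d k207 k101 k79 14 7))))), (.s k15 k10 2 (.s k32 k16 3 (.s k37 k26 6 (.s k21 k53 3 (.d
  k42 k47 k63 2 6))))), (.s k16 k32 3 (.s k154 k223 10 (.s k101 k207 14 (.s k37 k229 7 (.s k53 k21 3
  (.s k69 k117 3 (.d k197 k133 k149 7 11))))))), (.s k15 k10 2 (.s k37 k26 6 (.s k101 k229 7 (.s k69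
  k117 3 (.d k207 k138 k154 10 14)))))] .n) (.c k137 (.q k70 [(.s k15 k10 2 (.s k16 k32 3 (.s k154
  k223 10 (.s k143 k176 6 (.d k207 k101 k79 14 7))))), (.s k15 k10 2 (.s k32 k16 3 (.s k37 k26 6 (.s
  k21 k53 3 (.d k42 k47 k63 2 6))))), (.s k16 k32 3 (.s k154 k223 10 (.s k101 k207 14 (.s k37 k229 7
  (.s k53 k21 3 (.s k69 k117 3 (.d k197 k133 k149 7 11))))))), (.s k15 k10 2 (.s k37 k26 6 (.s k101
  k229 7 (.s k69 k117 3 (.d k207 k138 k154 10 14)))))] .n) .n))))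

def s3_170_205 : T TT 256 :=
  (.q k21 [(.s k37 k53 3 (.s k42 k63 6 (.s k32 k47 2 (.s k48 k16 3 (.d k15 k10 k26 2 6))))), (.s k53
  k37 3 (.s k149 k213 7 (.s k101 k197 11 (.s k117 k69 3 (.d k245 k181 k165 7 11))))), (.s k15 k10 2
  (.s k63 k42 6 (.s k47 k31 3 (.s k149 k213 7 (.s k106 k192 14 (.d k165 k224 k245 10 11))))))] .n)

def s3_170_206 : T TT 256 :=
  (.q k21 [(.s k53 k37 3 (.s k149 k213 7 (.s k101 k197 11 (.s k117 k69 3 (.d k245 k181 k165 7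
  11))))), (.s k15 k10 2 (.s k37 k53 3 (.s k26 k48 6 (.s k31 k16 2 (.d k63 k47 k42 3 6))))), (.s k15
  k10 2 (.s k63 k42 6 (.s k47 k31 3 (.s k149 k213 7 (.s k106 k192 14 (.d k165 k224 k245 10 11))))))]
  .n)

def s3_170_207 : T TT 256 :=
  (.f k165 k245 11 (.q k4 [(.s k166 k247 12 (.s k164 k167 0 (.s k244 k84 11 (.d k7 k6 k86 0 12)))),
  (.s k12 k8 1 (.s k15 k10 2 (.s k14 k13 0 (.s k90 k240 14 (.d k166 k247 k242 12 13)))))] (.c k71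
  (.q k139 [(.s k166 k247 12 (.s k164 k167 0 (.s k244 k84 11 (.d k7 k6 k86 0 12)))), (.s k12 k8 1
  (.s k15 k10 2 (.s k14 k13 0 (.s k90 k240 14 (.d k166 k247 k242 12 13)))))] (.c k166 (.l (.s k7 k6
  0 (.s k15 k10 2 (.s k86 k244 12 (.s k84 k87 0 (.s k90 k240 14 (.s k252 k168 13 (.d k94 k82 k173 1
  12)))))))) (.c k247 (.l (.s k7 k6 0 (.s k12 k8 1 (.s k15 k10 2 (.s k244 k86 12 (.s k164 k84 11 (.d
  k240 k90 k88 14 13))))))) .n))) (.c k139 (.q k71 [(.s k166 k247 12 (.s k164 k167 0 (.s k244 k84 11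
  (.d k7 k6 k86 0 12)))), (.s k12 k8 1 (.s k15 k10 2 (.s k14 k13 0 (.s k90 k240 14 (.d k166 k247
  k242 12 13))))), (.s k7 k6 0 (.s k199 k135 7 (.s k69 k134 8 (.s k70 k68 0 (.d k133 k197 k196 7
  8)))))] .n) (.c k166 (.l (.s k7 k6 0 (.s k15 k10 2 (.s k86 k244 12 (.s k84 k87 0 (.s k90 k240 14
  (.s k252 k168 13 (.d k94 k82 k173 1 12)))))))) (.c k247 (.l (.s k7 k6 0 (.s k12 k8 1 (.s k15 k10 2
  (.s k244 k86 12 (.s k164 k84 11 (.d k240 k90 k88 14 13))))))) .n))))))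

def s3_170_208 : T TT 256 :=
  (.q k21 [(.s k53 k37 3 (.s k149 k213 7 (.s k101 k197 11 (.s k117 k69 3 (.d k245 k181 k165 7
  11))))), (.s k15 k10 2 (.s k37 k53 3 (.s k26 k48 6 (.s k31 k16 2 (.d k63 k47 k42 3 6))))), (.s k15
  k10 2 (.s k63 k42 6 (.s k47 k31 3 (.s k149 k213 7 (.s k106 k192 14 (.d k165 k224 k245 10 11))))))]
  .n)

def s3_170_209 : T TT 256 :=
  (.q k21 [(.s k53 k37 3 (.s k149 k213 7 (.s k101 k197 11 (.s k117 k69 3 (.d k245 k181 k165 7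
  11))))), (.s k15 k10 2 (.s k37 k53 3 (.s k26 k48 6 (.s k31 k16 2 (.d k63 k47 k42 3 6))))), (.s k15
  k10 2 (.s k63 k42 6 (.s k47 k31 3 (.s k149 k213 7 (.s k106 k192 14 (.d k165 k224 k245 10 11))))))]
  .n)

def s3_170_210 : T TT 256 :=
  (.q k21 [(.s k53 k37 3 (.s k149 k213 7 (.s k101 k197 11 (.s k117 k69 3 (.d k245 k181 k165 7
  11))))), (.s k15 k10 2 (.s k37 k53 3 (.s k26 k48 6 (.s k31 k16 2 (.d k63 k47 k42 3 6))))), (.s k15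
  k10 2 (.s k63 k42 6 (.s k47 k31 3 (.s k149 k213 7 (.s k106 k192 14 (.d k165 k224 k245 10 11))))))]
  .n)

def s3_170_211 : T TT 256 :=
  (.q k21 [(.s k53 k37 3 (.s k149 k213 7 (.s k101 k197 11 (.s k117 k69 3 (.d k245 k181 k165 7
  11))))), (.s k15 k10 2 (.s k37 k53 3 (.s k26 k48 6 (.s k31 k16 2 (.d k63 k47 k42 3 6))))), (.s k15
  k10 2 (.s k63 k42 6 (.s k47 k31 3 (.s k149 k213 7 (.s k106 k192 14 (.d k165 k224 k245 10 11))))))]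
  .n)

def s3_170_212 : T TT 256 :=
  (.q k21 [(.s k53 k37 3 (.s k149 k213 7 (.s k101 k197 11 (.s k117 k69 3 (.d k245 k181 k165 7
  11))))), (.s k15 k10 2 (.s k37 k53 3 (.s k26 k48 6 (.s k31 k16 2 (.d k63 k47 k42 3 6))))), (.s k15
  k10 2 (.s k63 k42 6 (.s k47 k31 3 (.s k149 k213 7 (.s k106 k192 14 (.d k165 k224 k245 10 11))))))]
  .n)

def s3_170_213 : T TT 256 :=
  (.q k37 [(.s k53 k21 3 (.s k165 k245 11 (.s k101 k229 7 (.s k197 k149 11 (.d k69 k117 k133 3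
  7))))), (.s k15 k10 2 (.s k21 k53 3 (.s k26 k48 6 (.s k31 k16 2 (.d k63 k47 k42 3 6))))), (.s k15
  k10 2 (.s k48 k26 6 (.s k16 k32 3 (.s k154 k223 10 (.s k101 k207 14 (.d k165 k229 k245 7 11))))))]
  .n)

def s3_170_214 : T TT 256 :=
  (.q k21 [(.s k53 k37 3 (.s k149 k213 7 (.s k101 k197 11 (.s k117 k69 3 (.d k245 k181 k165 7
  11))))), (.s k15 k10 2 (.s k37 k53 3 (.s k26 k48 6 (.s k31 k16 2 (.d k63 k47 k42 3 6))))), (.s k15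
  k10 2 (.s k63 k42 6 (.s k47 k31 3 (.s k149 k213 7 (.s k106 k192 14 (.d k165 k224 k245 10 11))))))]
  .n)

def s3_170_215 : T TT 256 :=
  (.q k21 [(.s k53 k37 3 (.s k149 k213 7 (.s k101 k197 11 (.s k117 k69 3 (.d k245 k181 k165 7
  11))))), (.s k15 k10 2 (.s k37 k53 3 (.s k26 k48 6 (.s k31 k16 2 (.d k63 k47 k42 3 6))))), (.s k15
  k10 2 (.s k63 k42 6 (.s k47 k31 3 (.s k149 k213 7 (.s k106 k192 14 (.d k165 k224 k245 10 11))))))]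
  .n)

def s3_170_216 : T TT 256 :=
  (.q k21 [(.s k53 k37 3 (.s k149 k213 7 (.s k101 k197 11 (.s k117 k69 3 (.d k245 k181 k165 7
  11))))), (.s k15 k10 2 (.s k37 k53 3 (.s k26 k48 6 (.s k31 k16 2 (.d k63 k47 k42 3 6))))), (.s k15
  k10 2 (.s k63 k42 6 (.s k47 k31 3 (.s k149 k213 7 (.s k106 k192 14 (.d k165 k224 k245 10 11))))))]
  .n)

def s3_170_217 : T TT 256 :=
  (.q k21 [(.s k53 k37 3 (.s k149 k213 7 (.s k101 k197 11 (.s k117 k69 3 (.d k245 k181 k165 7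
  11))))), (.s k15 k10 2 (.s k37 k53 3 (.s k26 k48 6 (.s k31 k16 2 (.d k63 k47 k42 3 6))))), (.s k15
  k10 2 (.s k63 k42 6 (.s k47 k31 3 (.s k149 k213 7 (.s k106 k192 14 (.d k165 k224 k245 10 11))))))]
  .n)

def s3_170_218 : T TT 256 :=
  (.q k21 [(.s k53 k37 3 (.s k149 k213 7 (.s k101 k197 11 (.s k117 k69 3 (.d k245 k181 k165 7
  11))))), (.s k15 k10 2 (.s k37 k53 3 (.s k26 k48 6 (.s k31 k16 2 (.d k63 k47 k42 3 6))))), (.s k15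
  k10 2 (.s k63 k42 6 (.s k47 k31 3 (.s k149 k213 7 (.s k106 k192 14 (.d k165 k224 k245 10 11))))))]
  .n)

def s3_170_219 : T TT 256 :=
  (.q k21 [(.s k53 k37 3 (.s k149 k213 7 (.s k101 k197 11 (.s k117 k69 3 (.d k245 k181 k165 7
  11))))), (.s k15 k10 2 (.s k37 k53 3 (.s k26 k48 6 (.s k31 k16 2 (.d k63 k47 k42 3 6))))), (.s k15
  k10 2 (.s k63 k42 6 (.s k47 k31 3 (.s k149 k213 7 (.s k106 k192 14 (.d k165 k224 k245 10 11))))))]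
  .n)

def s3_170_220 : T TT 256 :=
  (.q k21 [(.s k53 k37 3 (.s k149 k213 7 (.s k101 k197 11 (.s k117 k69 3 (.d k245 k181 k165 7
  11))))), (.s k15 k10 2 (.s k37 k53 3 (.s k26 k48 6 (.s k31 k16 2 (.d k63 k47 k42 3 6))))), (.s k15
  k10 2 (.s k63 k42 6 (.s k47 k31 3 (.s k149 k213 7 (.s k106 k192 14 (.d k165 k224 k245 10 11))))))]
  .n)

def s3_170_221 : T TT 256 :=
  (.q k21 [(.s k53 k37 3 (.s k149 k213 7 (.s k101 k197 11 (.s k117 k69 3 (.d k245 k181 k165 7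
  11))))), (.s k15 k10 2 (.s k37 k53 3 (.s k26 k48 6 (.s k31 k16 2 (.d k63 k47 k42 3 6))))), (.s k15
  k10 2 (.s k63 k42 6 (.s k47 k31 3 (.s k149 k213 7 (.s k106 k192 14 (.d k165 k224 k245 10 11))))))]
  .n)

def s3_170_222 : T TT 256 :=
  (.q k21 [(.s k53 k37 3 (.s k149 k213 7 (.s k101 k197 11 (.s k117 k69 3 (.d k245 k181 k165 7
  11))))), (.s k15 k10 2 (.s k37 k53 3 (.s k26 k48 6 (.s k31 k16 2 (.d k63 k47 k42 3 6))))), (.s k15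
  k10 2 (.s k63 k42 6 (.s k47 k31 3 (.s k149 k213 7 (.s k106 k192 14 (.d k165 k224 k245 10 11))))))]
  .n)

def s3_170_223 : T TT 256 :=
  (.q k21 [(.s k53 k37 3 (.s k149 k213 7 (.s k101 k197 11 (.s k117 k69 3 (.d k245 k181 k165 7
  11))))), (.s k15 k10 2 (.s k37 k53 3 (.s k26 k48 6 (.s k31 k16 2 (.d k63 k47 k42 3 6))))), (.s k15
  k10 2 (.s k63 k42 6 (.s k47 k31 3 (.s k149 k213 7 (.s k106 k192 14 (.d k165 k224 k245 10 11))))))]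
  .n)

def s3_170_224 : T TT 256 :=
  (.q k21 [(.s k53 k37 3 (.s k149 k213 7 (.s k101 k197 11 (.s k117 k69 3 (.d k245 k181 k165 7
  11))))), (.s k15 k10 2 (.s k37 k53 3 (.s k26 k48 6 (.s k31 k16 2 (.d k63 k47 k42 3 6))))), (.s k15
  k10 2 (.s k63 k42 6 (.s k149 k213 7 (.s k165 k245 11 (.s k90 k240 14 (.d k31 k208 k47 10 3))))))]
  .n)

def s3_170_225 : T TT 256 :=
  (.q k21 [(.s k53 k37 3 (.s k149 k213 7 (.s k101 k197 11 (.s k117 k69 3 (.d k245 k181 k165 7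
  11))))), (.s k15 k10 2 (.s k37 k53 3 (.s k26 k48 6 (.s k31 k16 2 (.d k63 k47 k42 3 6))))), (.s k15
  k10 2 (.s k63 k42 6 (.s k47 k31 3 (.s k149 k213 7 (.s k106 k192 14 (.d k165 k224 k245 10 11))))))]
  .n)

def s3_170_226 : T TT 256 :=
  (.q k21 [(.s k53 k37 3 (.s k149 k213 7 (.s k101 k197 11 (.s k117 k69 3 (.d k245 k181 k165 7
  11))))), (.s k15 k10 2 (.s k37 k53 3 (.s k26 k48 6 (.s k31 k16 2 (.d k63 k47 k42 3 6))))), (.s k15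
  k10 2 (.s k63 k42 6 (.s k47 k31 3 (.s k149 k213 7 (.s k106 k192 14 (.d k165 k224 k245 10 11))))))]
  .n)

def s3_170_227 : T TT 256 :=
  (.q k21 [(.s k53 k37 3 (.s k149 k213 7 (.s k101 k197 11 (.s k117 k69 3 (.d k245 k181 k165 7
  11))))), (.s k15 k10 2 (.s k37 k53 3 (.s k26 k48 6 (.s k31 k16 2 (.d k63 k47 k42 3 6))))), (.s k15
  k10 2 (.s k63 k42 6 (.s k47 k31 3 (.s k149 k213 7 (.s k106 k192 14 (.d k165 k224 k245 10 11))))))]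
  .n)

def s3_170_228 : T TT 256 :=
  (.q k21 [(.s k53 k37 3 (.s k149 k213 7 (.s k101 k197 11 (.s k117 k69 3 (.d k245 k181 k165 7
  11))))), (.s k15 k10 2 (.s k37 k53 3 (.s k26 k48 6 (.s k31 k16 2 (.d k63 k47 k42 3 6))))), (.s k15
  k10 2 (.s k63 k42 6 (.s k47 k31 3 (.s k149 k213 7 (.s k106 k192 14 (.d k165 k224 k245 10 11))))))]
  .n)

def s3_170_229 : T TT 256 :=
  (.q k21 [(.s k53 k37 3 (.s k149 k213 7 (.s k101 k197 11 (.s k245 k165 11 (.d k117 k69 k181 3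
  7))))), (.s k15 k10 2 (.s k37 k53 3 (.s k26 k48 6 (.s k31 k16 2 (.d k63 k47 k42 3 6))))), (.s k15
  k10 2 (.s k63 k42 6 (.s k47 k31 3 (.s k149 k213 7 (.s k106 k192 14 (.d k165 k245 k224 11 10))))))]
  .n)

def s3_170_230 : T TT 256 :=
  (.q k21 [(.s k53 k37 3 (.s k149 k213 7 (.s k101 k197 11 (.s k117 k69 3 (.d k245 k181 k165 7
  11))))), (.s k15 k10 2 (.s k37 k53 3 (.s k26 k48 6 (.s k31 k16 2 (.d k63 k47 k42 3 6))))), (.s k15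
  k10 2 (.s k63 k42 6 (.s k47 k31 3 (.s k149 k213 7 (.s k106 k192 14 (.d k165 k224 k245 10 11))))))]
  .n)

def s3_170_231 : T TT 256 :=
  (.q k21 [(.s k53 k37 3 (.s k149 k213 7 (.s k101 k197 11 (.s k117 k69 3 (.d k245 k181 k165 7
  11))))), (.s k15 k10 2 (.s k37 k53 3 (.s k26 k48 6 (.s k31 k16 2 (.d k63 k47 k42 3 6))))), (.s k15
  k10 2 (.s k63 k42 6 (.s k47 k31 3 (.s k149 k213 7 (.s k106 k192 14 (.d k165 k224 k245 10 11))))))]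
  .n)

def s3_170_232 : T TT 256 :=
  (.q k21 [(.s k53 k37 3 (.s k149 k213 7 (.s k101 k197 11 (.s k117 k69 3 (.d k245 k181 k165 7
  11))))), (.s k15 k10 2 (.s k37 k53 3 (.s k26 k48 6 (.s k31 k16 2 (.d k63 k47 k42 3 6))))), (.s k15
  k10 2 (.s k63 k42 6 (.s k47 k31 3 (.s k149 k213 7 (.s k106 k192 14 (.d k165 k224 k245 10 11))))))]
  .n)

def s3_170_233 : T TT 256 :=
  (.q k21 [(.s k53 k37 3 (.s k149 k213 7 (.s k101 k197 11 (.s k117 k69 3 (.d k245 k181 k165 7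
  11))))), (.s k15 k10 2 (.s k37 k53 3 (.s k26 k48 6 (.s k31 k16 2 (.d k63 k47 k42 3 6))))), (.s k15
  k10 2 (.s k63 k42 6 (.s k47 k31 3 (.s k149 k213 7 (.s k106 k192 14 (.d k165 k224 k245 10 11))))))]
  .n)

def s3_170_234 : T TT 256 :=
  (.f k165 k245 11 (.q k106 [(.s k15 k10 2 (.s k47 k224 10 (.s k63 k31 3 (.s k64 k127 6 (.d k192
  k128 k149 7 14))))), (.s k64 k127 6 (.s k192 k128 7 (.s k149 k63 14 (.s k21 k213 7 (.s k53 k37 3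
  (.s k133 k181 3 (.d k197 k69 k101 7 11))))))), (.s k15 k10 2 (.s k47 k224 10 (.s k63 k31 3 (.s k21
  k42 6 (.d k149 k213 k192 7 14))))), (.s k15 k10 2 (.s k64 k127 6 (.s k90 k240 14 (.s k74 k122 3
  (.d k192 k128 k133 7 10)))))] (.c k63 (.l (.s k15 k10 2 (.s k64 k127 6 (.s k90 k240 14 (.s k192
  k128 7 (.d k74 k122 k133 3 10)))))) (.c k192 (.l (.s k15 k10 2 (.s k47 k224 10 (.s k63 k31 3 (.s
  k127 k64 6 (.s k255 k191 7 (.s k95 k175 11 (.d k90 k240 k80 14 2)))))))) .n))))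

def s3_170_235 : T TT 256 :=
  (.f k165 k245 11 (.q k105 [(.s k15 k10 2 (.s k45 k225 9 (.s k60 k30 4 (.s k20 k40 5 (.d k150 k215
  k195 8 14))))), (.s k65 k125 5 (.s k195 k130 8 (.s k150 k60 14 (.s k135 k180 4 (.d k15 k10 k75 2
  9))))), (.s k65 k125 5 (.s k195 k130 8 (.s k225 k45 9 (.s k240 k210 4 (.s k80 k160 11 (.d k90 k95
  k15 2 14))))))] (.c k15 (.f k65 k125 5 (.l (.s k195 k130 8 (.s k225 k45 9 (.s k240 k210 4 (.s k80
  k160 11 (.s k90 k95 2 (.s k120 k75 4 (.d k60 k150 k180 14 9))))))))) (.c k150 (.l (.s k15 k10 2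
  (.s k65 k125 5 (.s k90 k240 14 (.s k75 k120 4 (.d k195 k130 k135 8 9)))))) (.c k195 (.l (.s k15
  k10 2 (.s k45 k225 9 (.s k60 k30 4 (.s k125 k65 5 (.s k255 k190 8 (.s k95 k175 11 (.d k90 k240 k80
  14 2)))))))) .n)))))

def s3_170_236 : T TT 256 :=
  (.q k21 [(.s k53 k37 3 (.s k149 k213 7 (.s k101 k197 11 (.s k117 k69 3 (.d k245 k181 k165 7
  11))))), (.s k15 k10 2 (.s k37 k53 3 (.s k26 k48 6 (.s k31 k16 2 (.d k63 k47 k42 3 6))))), (.s k15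
  k10 2 (.s k63 k42 6 (.s k47 k31 3 (.s k149 k213 7 (.s k106 k192 14 (.d k165 k224 k245 10 11))))))]
  .n)

def s3_170_237 : T TT 256 :=
  (.q k21 [(.s k53 k37 3 (.s k149 k213 7 (.s k101 k197 11 (.s k117 k69 3 (.d k245 k181 k165 7
  11))))), (.s k15 k10 2 (.s k37 k53 3 (.s k26 k48 6 (.s k31 k16 2 (.d k63 k47 k42 3 6))))), (.s k15
  k10 2 (.s k63 k42 6 (.s k47 k31 3 (.s k149 k213 7 (.s k106 k192 14 (.d k165 k224 k245 10 11))))))]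
  .n)

def s3_170_238 : T TT 256 :=
  (.f k165 k245 11 (.q k102 [(.s k15 k10 2 (.s k39 k228 8 (.s k51 k27 5 (.s k17 k34 4 (.d k153 k221
  k204 9 14))))), (.s k68 k119 4 (.s k204 k136 9 (.s k153 k51 14 (.s k141 k177 5 (.d k15 k10 k78 2
  8))))), (.s k68 k119 4 (.s k204 k136 9 (.s k228 k39 8 (.s k240 k216 5 (.s k80 k160 11 (.d k90 k95
  k15 2 14))))))] (.c k15 (.q k7 [(.s k4 k6 0 (.s k86 k244 12 (.s k87 k84 0 (.d k247 k167 k166 11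
  12)))), (.s k39 k228 8 (.s k55 k23 3 (.s k86 k244 12 (.s k70 k118 3 (.d k196 k133 k149 8 12))))),
  (.s k4 k6 0 (.s k39 k228 8 (.s k55 k23 3 (.s k21 k38 4 (.d k149 k213 k196 7 12)))))] .n) (.c k153
  (.l (.s k15 k10 2 (.s k68 k119 4 (.s k90 k240 14 (.s k78 k114 5 (.d k204 k141 k136 8 9)))))) (.c
  k204 (.l (.s k15 k10 2 (.s k39 k228 8 (.s k51 k27 5 (.s k119 k68 4 (.s k255 k187 9 (.s k95 k175 11
  (.d k90 k240 k80 14 2)))))))) .n)))))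

def s3_170_239 : T TT 256 :=
  (.q k101 [(.s k69 k117 3 (.s k197 k133 7 (.s k149 k53 11 (.s k213 k21 7 (.d k245 k229 k165 3
  11))))), (.s k15 k10 2 (.s k69 k117 3 (.s k133 k197 7 (.s k74 k192 10 (.s k79 k64 2 (.d k207 k143
  k138 7 10)))))), (.s k15 k10 2 (.s k165 k245 11 (.s k37 k229 7 (.s k48 k26 6 (.s k16 k32 3 (.d
  k154 k223 k207 10 14))))))] (.c k197 (.l (.s k15 k10 2 (.s k69 k117 3 (.s k165 k245 11 (.s k90
  k240 14 (.s k79 k112 6 (.d k207 k143 k138 7 10))))))) .n))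

def s3_170_240 : T TT 256 :=
  (.q k101 [(.s k69 k117 3 (.s k197 k133 7 (.s k149 k53 11 (.s k213 k21 7 (.d k245 k229 k165 3
  11))))), (.s k15 k10 2 (.s k69 k117 3 (.s k133 k197 7 (.s k74 k192 10 (.s k79 k64 2 (.d k207 k143
  k138 7 10)))))), (.s k15 k10 2 (.s k165 k245 11 (.s k37 k229 7 (.s k48 k26 6 (.s k16 k32 3 (.d
  k154 k207 k223 14 10))))))] (.c k82 (.q k161 [(.s k69 k117 3 (.s k197 k133 7 (.s k149 k53 11 (.s
  k213 k21 7 (.d k245 k229 k165 3 11))))), (.s k165 k245 11 (.s k169 k173 1 (.s k1 k253 13 (.s k13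
  k9 1 (.d k241 k81 k89 11 13))))), (.s k15 k10 2 (.s k69 k117 3 (.s k133 k197 7 (.s k74 k192 10 (.s
  k79 k64 2 (.d k207 k143 k138 7 10))))))] .n) (.c k161 (.q k82 [(.s k69 k117 3 (.s k197 k133 7 (.s
  k149 k53 11 (.s k213 k21 7 (.d k245 k229 k165 3 11))))), (.s k15 k10 2 (.s k69 k117 3 (.s k133
  k197 7 (.s k74 k192 10 (.s k79 k64 2 (.d k207 k143 k138 7 10)))))), (.s k15 k10 2 (.s k165 k245 11
  (.s k37 k229 7 (.s k48 k26 6 (.s k16 k32 3 (.d k154 k207 k223 14 10))))))] (.c k197 (.l (.s k15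
  k10 2 (.s k69 k117 3 (.s k165 k245 11 (.s k207 k138 10 (.s k143 k79 7 (.d k154 k176 k48 6
  14))))))) .n)) (.c k197 (.l (.s k15 k10 2 (.s k69 k117 3 (.s k165 k245 11 (.s k207 k138 10 (.s
  k143 k79 7 (.d k154 k176 k48 6 14))))))) .n))))

def s3_170_241 : T TT 256 :=
  (.q k21 [(.s k53 k37 3 (.s k149 k213 7 (.s k101 k197 11 (.s k117 k69 3 (.d k245 k181 k165 7
  11))))), (.s k15 k10 2 (.s k37 k53 3 (.s k26 k48 6 (.s k31 k16 2 (.d k63 k47 k42 3 6))))), (.s k15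
  k10 2 (.s k63 k42 6 (.s k47 k31 3 (.s k149 k213 7 (.s k106 k192 14 (.d k165 k224 k245 10 11))))))]
  .n)

def s3_170_242 : T TT 256 :=
  (.q k21 [(.s k53 k37 3 (.s k149 k213 7 (.s k101 k197 11 (.s k117 k69 3 (.d k245 k181 k165 7
  11))))), (.s k15 k10 2 (.s k37 k53 3 (.s k26 k48 6 (.s k31 k16 2 (.d k63 k47 k42 3 6))))), (.s k15
  k10 2 (.s k63 k42 6 (.s k47 k31 3 (.s k149 k213 7 (.s k106 k192 14 (.d k165 k224 k245 10 11))))))]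
  .n)

def s3_170_243 : T TT 256 :=
  (.f k165 k245 11 (.q k21 [(.s k53 k37 3 (.s k149 k213 7 (.s k133 k181 3 (.d k197 k69 k101 7
  11)))), (.s k15 k10 2 (.s k63 k42 6 (.s k47 k31 3 (.s k106 k224 10 (.d k149 k213 k192 7 14))))),
  (.s k15 k10 2 (.s k37 k53 3 (.s k26 k48 6 (.s k31 k16 2 (.d k63 k47 k42 3 6)))))] (.c k83 (.q k163
  [(.s k53 k37 3 (.s k149 k213 7 (.s k133 k181 3 (.d k197 k69 k101 7 11)))), (.s k15 k10 2 (.s k63
  k42 6 (.s k47 k31 3 (.s k106 k224 10 (.d k149 k213 k192 7 14))))), (.s k15 k10 2 (.s k37 k53 3 (.s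
  k26 k48 6 (.s k31 k16 2 (.d k63 k47 k42 3 6)))))] .n) (.c k163 (.q k83 [(.s k53 k37 3 (.s k149
  k213 7 (.s k133 k181 3 (.d k197 k69 k101 7 11)))), (.s k15 k10 2 (.s k63 k42 6 (.s k47 k31 3 (.s
  k106 k224 10 (.d k149 k213 k192 7 14))))), (.s k15 k10 2 (.s k37 k53 3 (.s k26 k48 6 (.s k31 k16 2
  (.d k63 k47 k42 3 6)))))] .n) .n))))

def s3_170_244 : T TT 256 :=
  (.q k21 [(.s k53 k37 3 (.s k149 k213 7 (.s k101 k197 11 (.s k117 k69 3 (.d k245 k181 k165 7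
  11))))), (.s k15 k10 2 (.s k37 k53 3 (.s k26 k48 6 (.s k31 k16 2 (.d k63 k47 k42 3 6))))), (.s k15
  k10 2 (.s k63 k42 6 (.s k47 k31 3 (.s k149 k213 7 (.s k106 k192 14 (.d k165 k224 k245 10 11))))))]
  .n)

def s3_170_245 : T TT 256 :=
  (.q k21 [(.s k37 k53 3 (.s k42 k63 6 (.s k32 k47 2 (.s k48 k16 3 (.d k15 k10 k26 2 6))))), (.s k53
  k37 3 (.s k63 k42 6 (.s k149 k213 7 (.s k197 k101 11 (.s k69 k133 7 (.s k207 k138 10 (.d k192 k106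
  k202 14 2)))))))] (.c k32 (.l (.s k15 k10 2 (.s k37 k53 3 (.s k26 k48 6 (.s k31 k16 2 (.d k63 k47
  k42 3 6)))))) (.c k37 (.q k4 [(.s k38 k55 4 (.s k42 k63 6 (.s k34 k46 1 (.s k51 k17 4 (.d k12 k8
  k25 1 6))))), (.s k55 k38 4 (.s k149 k213 7 (.s k102 k196 12 (.s k119 k68 4 (.d k247 k183 k166 7
  12))))), (.s k12 k8 1 (.s k63 k42 6 (.s k46 k29 4 (.s k149 k213 7 (.s k106 k192 14 (.d k166 k226
  k247 9 12))))))] .n) (.c k42 (.f k15 k10 2 (.l (.s k37 k53 3 (.s k26 k48 6 (.s k16 k31 2 (.s k154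
  k223 10 (.s k90 k218 7 (.s k240 k165 14 (.d k80 k95 k160 2 11))))))))) (.c k47 (.l (.s k15 k10 2
  (.s k53 k37 3 (.s k149 k213 7 (.s k197 k101 11 (.s k133 k69 7 (.s k192 k74 10 (.d k63 k42 k106 6
  14)))))))) (.c k53 (.l (.s k15 k10 2 (.s k63 k42 6 (.s k31 k47 3 (.s k149 k213 7 (.s k90 k208 10
  (.s k80 k95 2 (.d k240 k160 k165 11 14)))))))) (.c k63 (.f k15 k10 2 (.f k37 k53 3 (.l (.s k48 k26
  6 (.s k16 k32 3 (.s k154 k223 10 (.s k101 k207 14 (.s k165 k229 7 (.s k176 k143 6 (.d k240 k112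
  k90 7 14)))))))))) .n)))))))

def s3_170_246 : T TT 256 :=
  (.q k21 [(.s k53 k37 3 (.s k149 k213 7 (.s k101 k197 11 (.s k117 k69 3 (.d k245 k181 k165 7
  11))))), (.s k15 k10 2 (.s k37 k53 3 (.s k26 k48 6 (.s k31 k16 2 (.d k63 k47 k42 3 6))))), (.s k15
  k10 2 (.s k63 k42 6 (.s k47 k31 3 (.s k149 k213 7 (.s k106 k192 14 (.d k165 k224 k245 10 11))))))]
  .n)

def s3_170_247 : T TT 256 :=
  (.q k21 [(.s k53 k37 3 (.s k149 k213 7 (.s k101 k197 11 (.s k117 k69 3 (.d k245 k181 k165 7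
  11))))), (.s k15 k10 2 (.s k37 k53 3 (.s k26 k48 6 (.s k31 k16 2 (.d k63 k47 k42 3 6))))), (.s k15
  k10 2 (.s k63 k42 6 (.s k47 k31 3 (.s k149 k213 7 (.s k106 k192 14 (.d k165 k224 k245 10 11))))))]
  .n)

def s3_170_248 : T TT 256 :=
  (.q k21 [(.s k53 k37 3 (.s k149 k213 7 (.s k101 k197 11 (.s k117 k69 3 (.d k245 k181 k165 7
  11))))), (.s k15 k10 2 (.s k37 k53 3 (.s k26 k48 6 (.s k31 k16 2 (.d k63 k47 k42 3 6))))), (.s k15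
  k10 2 (.s k63 k42 6 (.s k47 k31 3 (.s k149 k213 7 (.s k106 k192 14 (.d k165 k224 k245 10 11))))))]
  .n)

def s3_170_249 : T TT 256 :=
  (.q k21 [(.s k53 k37 3 (.s k149 k213 7 (.s k101 k197 11 (.s k117 k69 3 (.d k245 k181 k165 7
  11))))), (.s k15 k10 2 (.s k37 k53 3 (.s k26 k48 6 (.s k31 k16 2 (.d k63 k47 k42 3 6))))), (.s k15
  k10 2 (.s k63 k42 6 (.s k47 k31 3 (.s k149 k213 7 (.s k106 k192 14 (.d k165 k224 k245 10 11))))))]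
  .n)

def s3_170_250 : T TT 256 :=
  (.q k21 [(.s k53 k37 3 (.s k149 k213 7 (.s k101 k197 11 (.s k117 k69 3 (.d k245 k181 k165 7
  11))))), (.s k37 k53 3 (.s k42 k63 6 (.s k32 k47 2 (.s k48 k16 3 (.d k15 k10 k26 2 6))))), (.s k63
  k42 6 (.s k149 k213 7 (.s k106 k192 14 (.s k165 k245 11 (.s k47 k224 10 (.d k15 k10 k31 2 3))))))]
  (.c k10 (.q k90 [(.s k80 k95 2 (.s k165 k245 11 (.d k240 k160 k15 11 14))), (.s k53 k37 3 (.s k149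
  k213 7 (.s k101 k197 11 (.s k117 k69 3 (.d k245 k181 k165 7 11))))), (.s k95 k80 2 (.s k149 k213 7
  (.s k31 k208 10 (.s k16 k26 2 (.d k223 k159 k154 7 10)))))] .n) (.c k90 (.l (.s k10 k15 2 (.s k53
  k37 3 (.s k149 k213 7 (.s k101 k197 11 (.s k117 k69 3 (.d k245 k165 k181 11 7))))))) .n)))

def s3_170_251 : T TT 256 :=
  (.f k165 k245 11 (.q k89 [(.s k13 k241 13 (.s k93 k81 1 (.s k253 k173 11 (.d k1 k9 k169 1 13)))),
  (.s k15 k10 2 (.s k81 k93 1 (.s k90 k240 14 (.s k91 k88 0 (.d k243 k162 k167 12 13))))), (.s k13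
  k241 13 (.s k15 k10 2 (.s k12 k14 0 (.s k4 k8 1 (.d k166 k247 k243 12 14)))))] .n))

def s3_170_252 : T TT 256 :=
  (.f k165 k245 11 (.q k89 [(.s k13 k241 13 (.s k1 k9 1 (.s k93 k81 1 (.d k253 k169 k173 13 11)))),
  (.s k15 k10 2 (.s k81 k93 1 (.s k90 k240 14 (.s k91 k88 0 (.d k243 k162 k167 12 13))))), (.s k13
  k241 13 (.s k15 k10 2 (.s k12 k14 0 (.s k4 k8 1 (.d k166 k247 k243 12 14)))))] (.c k12 (.l (.s k13
  k241 13 (.s k93 k81 1 (.s k253 k173 11 (.d k1 k9 k169 1 13))))) (.c k86 (.q k169 [(.s k1 k253 13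
  (.d k9 k249 k13 11 1)), (.s k15 k10 2 (.s k81 k93 1 (.s k90 k240 14 (.s k91 k88 0 (.d k243 k162
  k167 12 13)))))] (.c k2 (.q k254 [(.s k1 k253 13 (.d k9 k249 k13 11 1)), (.s k15 k10 2 (.s k81 k93
  1 (.s k90 k240 14 (.s k91 k88 0 (.d k243 k162 k167 12 13)))))] .n) (.c k254 (.q k2 [(.s k13 k241
  13 (.d k1 k253 k9 13 1)), (.s k15 k10 2 (.s k81 k93 1 (.s k90 k240 14 (.s k91 k88 0 (.d k243 k162
  k167 12 13)))))] (.c k253 (.q k255 [(.s k15 k10 2 (.s k95 k175 11 (.d k90 k80 k240 2 14))), (.s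
  k81 k93 1 (.s k243 k162 12 (.s k166 k12 14 (.d k247 k251 k4 1 12))))] (.c k241 (.l (.s k249 k9 11
  (.s k15 k10 2 (.s k90 k240 14 (.d k95 k80 k175 2 11))))) (.c k249 (.l (.s k241 k13 13 (.s k15 k10
  2 (.s k90 k240 14 (.d k95 k80 k175 2 11))))) .n))) (.c k255 (.l (.s k253 k1 13 (.s k13 k241 13 (.d
  k93 k81 k173 1 11)))) .n))) (.c k255 (.l (.s k9 k249 11 (.d k1 k253 k13 13 1))) .n)))) (.c k169
  (.q k86 [(.s k7 k244 12 (.s k4 k6 0 (.s k12 k8 1 (.d k166 k247 k243 12 14)))), (.s k13 k241 13 (.s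
  k15 k10 2 (.s k81 k93 1 (.s k243 k162 12 (.d k12 k166 k14 14 0))))), (.s k7 k244 12 (.s k87 k84 0
  (.s k247 k167 11 (.d k4 k6 k166 0 12))))] (.c k166 (.l (.s k7 k244 12 (.s k4 k6 0 (.s k12 k8 1 (.s
  k13 k241 13 (.d k15 k14 k10 0 2)))))) (.c k168 (.q k171 [(.s k7 k244 12 (.s k87 k84 0 (.s k247
  k167 11 (.d k4 k6 k166 0 12)))), (.s k13 k241 13 (.s k15 k10 2 (.s k81 k93 1 (.s k243 k162 12 (.d
  k12 k166 k14 14 0)))))] (.c k166 (.l (.s k7 k244 12 (.s k4 k6 0 (.s k12 k8 1 (.s k13 k241 13 (.d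
  k15 k14 k10 0 2)))))) .n)) (.c k171 (.q k168 [(.s k7 k244 12 (.s k4 k6 0 (.s k12 k8 1 (.d k166
  k247 k243 12 14)))), (.s k13 k241 13 (.s k15 k10 2 (.s k81 k93 1 (.s k243 k162 12 (.d k12 k166 k14
  14 0))))), (.s k7 k244 12 (.s k87 k84 0 (.s k247 k167 11 (.d k4 k6 k166 0 12))))] (.c k87 (.q k255
  [(.s k15 k10 2 (.s k95 k175 11 (.d k90 k80 k240 2 14))), (.s k7 k244 12 (.s k4 k6 0 (.s k12 k8 1
  (.d k93 k81 k174 1 12))))] (.c k240 (.l (.s k13 k241 13 (.s k15 k10 2 (.s k12 k14 0 (.d k93 k81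
  k174 1 12))))) .n)) (.c k166 (.l (.s k7 k244 12 (.s k4 k6 0 (.s k12 k8 1 (.s k13 k241 13 (.d k15
  k14 k10 0 2)))))) (.c k255 (.l (.s k87 k84 0 (.s k7 k244 12 (.s k4 k6 0 (.d k247 k167 k166 11
  12))))) .n)))) .n)))) .n)))))

def s3_170_253 : T TT 256 :=
  (.q k21 [(.s k53 k37 3 (.s k149 k213 7 (.s k101 k197 11 (.s k117 k69 3 (.d k245 k181 k165 7
  11))))), (.s k15 k10 2 (.s k37 k53 3 (.s k26 k48 6 (.s k31 k16 2 (.d k63 k47 k42 3 6))))), (.s k15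
  k10 2 (.s k63 k42 6 (.s k47 k31 3 (.s k149 k213 7 (.s k106 k192 14 (.d k165 k224 k245 10 11))))))]
  .n)

def s3_170_254 : T TT 256 :=
  (.f k165 k245 11 (.q k86 [(.s k7 k244 12 (.s k87 k84 0 (.s k247 k167 11 (.d k4 k6 k166 0 12)))),
  (.s k15 k10 2 (.s k84 k87 0 (.s k90 k240 14 (.s k252 k168 13 (.d k94 k82 k173 1 12))))), (.s k7
  k244 12 (.s k4 k6 0 (.s k12 k8 1 (.s k15 k10 2 (.s k14 k13 0 (.s k90 k240 14 (.d k166 k247 k242 12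
  13)))))))] .n))

def s3_170_255 : T TT 256 :=
  (.q k69 [(.s k101 k117 3 (.s k197 k133 7 (.s k53 k149 11 (.s k37 k21 3 (.d k165 k229 k245 7
  11))))), (.s k15 k10 2 (.s k133 k197 7 (.s k74 k192 10 (.s k79 k64 2 (.d k207 k143 k138 7 10)))))]
  (.c k87 (.q k171 [(.s k101 k117 3 (.s k197 k133 7 (.s k53 k149 11 (.s k37 k21 3 (.d k165 k229 k245
  7 11))))), (.s k15 k10 2 (.s k133 k197 7 (.s k74 k192 10 (.s k79 k64 2 (.d k207 k143 k138 7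
  10)))))] (.c k133 (.l (.s k15 k10 2 (.s k101 k117 3 (.s k165 k245 11 (.s k37 k229 7 (.s k48 k26 6
  (.d k207 k138 k154 10 14))))))) (.c k197 (.l (.s k15 k10 2 (.s k101 k117 3 (.s k165 k245 11 (.s
  k207 k138 10 (.s k79 k143 7 (.d k90 k240 k112 14 6))))))) .n))) (.c k133 (.l (.s k15 k10 2 (.s
  k101 k117 3 (.s k165 k245 11 (.s k37 k229 7 (.s k48 k26 6 (.d k207 k138 k154 10 14))))))) (.c k171
  (.q k87 [(.s k86 k84 0 (.s k101 k117 3 (.s k71 k116 4 (.s k68 k70 0 (.d k119 k103 k102 3 4))))),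
  (.s k15 k10 2 (.s k133 k197 7 (.s k74 k192 10 (.s k79 k64 2 (.d k207 k143 k138 7 10)))))] (.c k168
  (.q k169 [(.s k1 k253 13 (.s k101 k117 3 (.s k33 k237 9 (.s k49 k17 3 (.d k205 k137 k153 9
  13))))), (.s k15 k10 2 (.s k133 k197 7 (.s k74 k192 10 (.s k79 k64 2 (.d k207 k143 k138 7 10)))))]
  .n) (.c k169 (.q k168 [(.d k84 k86 k252 0 13)] (.c k84 (.l (.s k15 k10 2 (.s k133 k197 7 (.s k74
  k192 10 (.s k79 k64 2 (.d k207 k143 k138 7 10)))))) (.c k86 (.l (.s k252 k84 13 (.s k15 k10 2 (.s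
  k133 k197 7 (.s k74 k192 10 (.s k79 k64 2 (.d k207 k143 k138 7 10))))))) (.c k252 (.l (.s k86 k84
  0 (.s k101 k117 3 (.s k71 k116 4 (.s k68 k70 0 (.d k119 k103 k102 3 4)))))) .n)))) .n))) (.c k197
  (.l (.s k15 k10 2 (.s k101 k117 3 (.s k165 k245 11 (.s k207 k138 10 (.s k79 k143 7 (.d k90 k240
  k112 14 6))))))) .n)))))

def t3_170 : T TT 256 :=
  (.q k5 [] (.c k1 s3_170_1 (.c k2 s3_170_2 (.c k4 s3_170_4 (.c k6 s3_170_6 (.c k7 s3_170_7 (.c k8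
  s3_170_8 (.c k9 s3_170_9 (.c k10 s3_170_10 (.c k11 s3_170_11 (.c k12 s3_170_12 (.c k13 s3_170_13
  (.c k14 s3_170_14 (.c k15 s3_170_15 (.c k16 s3_170_16 (.c k17 s3_170_17 (.c k18 s3_170_18 (.c k19
  s3_170_19 (.c k20 s3_170_20 (.c k21 s3_170_21 (.c k22 s3_170_22 (.c k23 s3_170_23 (.c k24
  s3_170_24 (.c k25 s3_170_25 (.c k26 s3_170_26 (.c k27 s3_170_27 (.c k28 s3_170_28 (.c k29
  s3_170_29 (.c k30 s3_170_30 (.c k31 s3_170_31 (.c k32 s3_170_32 (.c k33 s3_170_33 (.c k34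
  s3_170_34 (.c k35 s3_170_35 (.c k36 s3_170_36 (.c k37 s3_170_37 (.c k38 s3_170_38 (.c k39
  s3_170_39 (.c k40 s3_170_40 (.c k41 s3_170_41 (.c k42 s3_170_42 (.c k43 s3_170_43 (.c k44
  s3_170_44 (.c k45 s3_170_45 (.c k46 s3_170_46 (.c k47 s3_170_47 (.c k48 s3_170_48 (.c k49
  s3_170_49 (.c k50 s3_170_50 (.c k51 s3_170_51 (.c k52 s3_170_52 (.c k53 s3_170_53 (.c k54
  s3_170_54 (.c k55 s3_170_55 (.c k56 s3_170_56 (.c k57 s3_170_57 (.c k58 s3_170_58 (.c k59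
  s3_170_59 (.c k60 s3_170_60 (.c k61 s3_170_61 (.c k62 s3_170_62 (.c k63 s3_170_63 (.c k64
  s3_170_64 (.c k65 s3_170_65 (.c k66 s3_170_66 (.c k67 s3_170_67 (.c k68 s3_170_68 (.c k69
  s3_170_69 (.c k70 s3_170_70 (.c k71 s3_170_71 (.c k72 s3_170_72 (.c k73 s3_170_73 (.c k74
  s3_170_74 (.c k75 s3_170_75 (.c k76 s3_170_76 (.c k77 s3_170_77 (.c k78 s3_170_78 (.c k79
  s3_170_79 (.c k80 s3_170_80 (.c k81 s3_170_81 (.c k82 s3_170_82 (.c k83 s3_170_83 (.c k84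
  s3_170_84 (.c k86 s3_170_86 (.c k87 s3_170_87 (.c k88 s3_170_88 (.c k89 s3_170_89 (.c k90
  s3_170_90 (.c k91 s3_170_91 (.c k92 s3_170_92 (.c k93 s3_170_93 (.c k94 s3_170_94 (.c k95
  s3_170_95 (.c k96 s3_170_96 (.c k97 s3_170_97 (.c k98 s3_170_98 (.c k99 s3_170_99 (.c k100
  s3_170_100 (.c k101 s3_170_101 (.c k102 s3_170_102 (.c k103 s3_170_103 (.c k104 s3_170_104 (.c
  k105 s3_170_105 (.c k106 s3_170_106 (.c k107 s3_170_107 (.c k108 s3_170_108 (.c k109 s3_170_109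
  (.c k110 s3_170_110 (.c k111 s3_170_111 (.c k112 s3_170_112 (.c k113 s3_170_113 (.c k114
  s3_170_114 (.c k115 s3_170_115 (.c k116 s3_170_116 (.c k117 s3_170_117 (.c k118 s3_170_118 (.c
  k119 s3_170_119 (.c k120 s3_170_120 (.c k121 s3_170_121 (.c k122 s3_170_122 (.c k123 s3_170_123
  (.c k124 s3_170_124 (.c k125 s3_170_125 (.c k126 s3_170_126 (.c k127 s3_170_127 (.c k128
  s3_170_128 (.c k129 s3_170_129 (.c k130 s3_170_130 (.c k131 s3_170_131 (.c k132 s3_170_132 (.c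
  k133 s3_170_133 (.c k134 s3_170_134 (.c k135 s3_170_135 (.c k136 s3_170_136 (.c k137 s3_170_137
  (.c k138 s3_170_138 (.c k139 s3_170_139 (.c k140 s3_170_140 (.c k141 s3_170_141 (.c k142
  s3_170_142 (.c k143 s3_170_143 (.c k144 s3_170_144 (.c k145 s3_170_145 (.c k146 s3_170_146 (.c
  k147 s3_170_147 (.c k148 s3_170_148 (.c k149 s3_170_149 (.c k150 s3_170_150 (.c k151 s3_170_151
  (.c k152 s3_170_152 (.c k153 s3_170_153 (.c k154 s3_170_154 (.c k155 s3_170_155 (.c k156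
  s3_170_156 (.c k157 s3_170_157 (.c k158 s3_170_158 (.c k159 s3_170_159 (.c k160 s3_170_160 (.c
  k161 s3_170_161 (.c k162 s3_170_162 (.c k163 s3_170_163 (.c k164 s3_170_164 (.c k165 s3_170_165
  (.c k166 s3_170_166 (.c k167 s3_170_167 (.c k168 s3_170_168 (.c k169 s3_170_169 (.c k171
  s3_170_171 (.c k172 s3_170_172 (.c k173 s3_170_173 (.c k174 s3_170_174 (.c k175 s3_170_175 (.c
  k176 s3_170_176 (.c k177 s3_170_177 (.c k178 s3_170_178 (.c k179 s3_170_179 (.c k180 s3_170_180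
  (.c k181 s3_170_181 (.c k182 s3_170_182 (.c k183 s3_170_183 (.c k184 s3_170_184 (.c k185
  s3_170_185 (.c k186 s3_170_186 (.c k187 s3_170_187 (.c k188 s3_170_188 (.c k189 s3_170_189 (.c
  k190 s3_170_190 (.c k191 s3_170_191 (.c k192 s3_170_192 (.c k193 s3_170_193 (.c k194 s3_170_194
  (.c k195 s3_170_195 (.c k196 s3_170_196 (.c k197 s3_170_197 (.c k198 s3_170_198 (.c k199
  s3_170_199 (.c k200 s3_170_200 (.c k201 s3_170_201 (.c k202 s3_170_202 (.c k203 s3_170_203 (.c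
  k204 s3_170_204 (.c k205 s3_170_205 (.c k206 s3_170_206 (.c k207 s3_170_207 (.c k208 s3_170_208
  (.c k209 s3_170_209 (.c k210 s3_170_210 (.c k211 s3_170_211 (.c k212 s3_170_212 (.c k213
  s3_170_213 (.c k214 s3_170_214 (.c k215 s3_170_215 (.c k216 s3_170_216 (.c k217 s3_170_217 (.c
  k218 s3_170_218 (.c k219 s3_170_219 (.c k220 s3_170_220 (.c k221 s3_170_221 (.c k222 s3_170_222
  (.c k223 s3_170_223 (.c k224 s3_170_224 (.c k225 s3_170_225 (.c k226 s3_170_226 (.c k227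
  s3_170_227 (.c k228 s3_170_228 (.c k229 s3_170_229 (.c k230 s3_170_230 (.c k231 s3_170_231 (.c
  k232 s3_170_232 (.c k233 s3_170_233 (.c k234 s3_170_234 (.c k235 s3_170_235 (.c k236 s3_170_236
  (.c k237 s3_170_237 (.c k238 s3_170_238 (.c k239 s3_170_239 (.c k240 s3_170_240 (.c k241
  s3_170_241 (.c k242 s3_170_242 (.c k243 s3_170_243 (.c k244 s3_170_244 (.c k245 s3_170_245 (.c
  k246 s3_170_246 (.c k247 s3_170_247 (.c k248 s3_170_248 (.c k249 s3_170_249 (.c k250 s3_170_250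
  (.c k251 s3_170_251 (.c k252 s3_170_252 (.c k253 s3_170_253 (.c k254 s3_170_254 (.c k255
  s3_170_255 .n))))))))))))))))))))))))))))))))))))))))))))))))))))))))))))))))))))))))))))))))
  ))))))))))))))))))))))))))))))))))))))))))))))))))))))))))))))))))))))))))))))))
  )))))))))))))))))))))))))))))))))))))))))))))))))))))))))))))))))))))))))))))))) ))))))))))))

def s5_170_1 : T TT 256 :=
  (.f k153 k221 9 (.q k89 [(.s k25 k217 7 (.s k81 k93 1 (.s k209 k145 7 (.d k29 k21 k149 1 9)))),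
  (.s k25 k217 7 (.s k51 k34 4 (.s k12 k38 6 (.s k4 k8 1 (.d k166 k247 k243 12 14))))), (.s k51 k34
  4 (.s k81 k93 1 (.s k102 k204 14 (.s k115 k76 6 (.d k243 k179 k162 7 12)))))] (.c k9 (.q k13 [(.s
  k25 k217 7 (.s k81 k93 1 (.s k209 k145 7 (.d k29 k21 k149 1 9)))), (.s k25 k217 7 (.s k51 k34 4
  (.s k12 k38 6 (.s k4 k8 1 (.d k166 k247 k243 12 14))))), (.s k51 k34 4 (.s k81 k93 1 (.s k102 k204
  14 (.s k115 k76 6 (.d k243 k179 k162 7 12)))))] .n) (.c k13 (.q k9 [(.s k25 k217 7 (.s k81 k93 1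
  (.s k209 k145 7 (.d k29 k21 k149 1 9)))), (.s k25 k217 7 (.s k51 k34 4 (.s k12 k38 6 (.s k4 k8 1
  (.d k166 k247 k243 12 14))))), (.s k51 k34 4 (.s k81 k93 1 (.s k102 k204 14 (.s k115 k76 6 (.d
  k243 k179 k162 7 12)))))] .n) .n))))

def s5_170_2 : T TT 256 :=
  (.f k153 k221 9 (.q k86 [(.s k19 k220 10 (.s k87 k84 0 (.s k223 k155 9 (.d k16 k18 k154 0 10)))),
  (.s k51 k34 4 (.s k84 k87 0 (.s k102 k204 14 (.s k118 k70 3 (.d k252 k185 k168 10 13))))), (.s k19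
  k220 10 (.s k51 k34 4 (.s k3 k35 3 (.s k102 k204 14 (.s k118 k70 3 (.d k252 k185 k169 10 14))))))]
  (.c k18 (.l (.s k84 k87 0 (.s k220 k19 10 (.s k252 k168 13 (.s k204 k236 3 (.d k51 k34 k102 4
  14)))))) .n)))

def s5_170_3 : T TT 256 :=
  (.q k21 [(.s k29 k25 1 (.s k149 k213 7 (.s k89 k209 9 (.s k93 k81 1 (.d k221 k157 k153 7 9))))),
  (.s k25 k29 1 (.s k42 k63 6 (.s k8 k59 4 (.s k12 k4 1 (.d k51 k34 k38 4 6))))), (.s k51 k34 4 (.s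
  k63 k42 6 (.s k59 k55 1 (.s k149 k213 7 (.s k106 k192 14 (.d k153 k221 k200 9 12))))))] .n)

def s5_170_4 : T TT 256 :=
  (.f k34 k51 4 (.f k153 k221 9 (.q k16 [(.s k19 k18 0 (.s k86 k220 10 (.s k87 k84 0 (.d k223 k155
  k154 9 10)))), (.s k18 k19 0 (.s k2 k50 3 (.s k3 k1 0 (.d k48 k32 k33 3 4)))), (.s k48 k32 3 (.s
  k154 k223 10 (.s k101 k207 14 (.s k49 k205 13 (.s k1 k33 3 (.s k117 k69 3 (.d k253 k185 k169 9
  13)))))))] (.c k6 (.q k7 [(.s k19 k18 0 (.s k86 k220 10 (.s k87 k84 0 (.d k223 k155 k154 9 10)))),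
  (.s k18 k19 0 (.s k2 k50 3 (.s k3 k1 0 (.d k48 k32 k33 3 4)))), (.s k48 k32 3 (.s k154 k223 10 (.s
  k101 k207 14 (.s k49 k205 13 (.s k1 k33 3 (.s k117 k69 3 (.d k253 k185 k169 9 13)))))))] .n) (.c
  k7 (.q k6 [(.s k19 k18 0 (.s k86 k220 10 (.s k87 k84 0 (.d k223 k155 k154 9 10)))), (.s k18 k19 0
  (.s k2 k50 3 (.s k3 k1 0 (.d k48 k32 k33 3 4)))), (.s k48 k32 3 (.s k154 k223 10 (.s k101 k207 14
  (.s k49 k205 13 (.s k1 k33 3 (.s k117 k69 3 (.d k253 k185 k169 9 13)))))))] .n) .n)))))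

def s5_170_6 : T TT 256 :=
  (.f k153 k221 9 (.q k4 [(.s k12 k8 1 (.s k51 k34 4 (.s k166 k247 12 (.s k140 k179 6 (.d k204 k102
  k76 14 7))))), (.s k51 k34 4 (.s k102 k204 14 (.s k68 k119 4 (.s k166 k247 12 (.s k38 k230 7 (.s
  k55 k21 4 (.d k196 k132 k149 7 12))))))), (.s k12 k8 1 (.s k166 k247 12 (.s k89 k243 14 (.s k25
  k217 7 (.s k29 k21 1 (.s k81 k93 1 (.d k209 k145 k149 7 9))))))), (.s k12 k8 1 (.s k51 k34 4 (.s
  k25 k38 6 (.s k29 k21 1 (.s k89 k217 7 (.s k81 k93 1 (.d k209 k145 k149 7 9)))))))] .n))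

def s5_170_7 : T TT 256 :=
  (.f k153 k221 9 (.q k4 [(.s k12 k8 1 (.s k51 k34 4 (.s k166 k247 12 (.s k140 k179 6 (.d k204 k102
  k76 14 7))))), (.s k12 k8 1 (.s k51 k34 4 (.s k25 k38 6 (.s k29 k21 1 (.s k89 k217 7 (.s k81 k93 1
  (.d k209 k145 k149 7 9))))))), (.s k51 k34 4 (.s k102 k204 14 (.s k68 k119 4 (.s k166 k247 12 (.s
  k38 k230 7 (.s k55 k21 4 (.d k196 k132 k149 7 12))))))), (.s k12 k8 1 (.s k166 k247 12 (.s k89
  k243 14 (.s k25 k217 7 (.s k29 k21 1 (.s k81 k93 1 (.d k209 k145 k149 7 9)))))))] .n))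

def s5_170_8 : T TT 256 :=
  (.q k89 [(.s k81 k93 1 (.s k153 k221 9 (.s k25 k217 7 (.s k209 k145 7 (.d k29 k21 k149 1 9))))),
  (.s k51 k34 4 (.s k81 k93 1 (.s k145 k209 7 (.s k98 k192 12 (.s k115 k64 4 (.d k243 k179 k162 7
  12)))))), (.s k51 k34 4 (.s k153 k221 9 (.s k25 k217 7 (.s k12 k38 6 (.s k102 k204 14 (.s k115 k76
  6 (.d k243 k179 k166 7 14)))))))] (.c k209 (.l (.s k51 k34 4 (.s k81 k93 1 (.s k153 k221 9 (.s
  k102 k204 14 (.s k115 k76 6 (.d k243 k179 k162 7 12))))))) .n))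

def s5_170_9 : T TT 256 :=
  (.q k1 [(.s k33 k49 3 (.s k34 k51 4 (.s k32 k35 0 (.s k48 k16 3 (.d k3 k2 k18 0 4))))), (.s k49
  k33 3 (.s k153 k221 9 (.s k101 k205 13 (.s k117 k69 3 (.d k253 k185 k169 9 13))))), (.s k3 k2 0
  (.s k51 k34 4 (.s k35 k19 3 (.s k153 k221 9 (.s k102 k204 14 (.d k169 k236 k253 10 13))))))] .n)

def s5_170_10 : T TT 256 :=
  (.f k153 k221 9 (.q k90 [(.s k27 k216 8 (.s k51 k34 4 (.s k15 k39 5 (.s k80 k95 2 (.d k240 k160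
  k165 11 14))))), (.s k80 k95 2 (.s k240 k160 11 (.s k165 k15 14 (.s k177 k141 5 (.d k51 k34 k114 4
  8))))), (.s k27 k216 8 (.s k51 k34 4 (.s k15 k39 5 (.s k102 k204 14 (.s k114 k78 5 (.d k240 k177
  k165 8 14)))))), (.s k80 k95 2 (.s k216 k27 8 (.s k240 k160 11 (.s k204 k228 5 (.s k68 k136 9 (.d
  k102 k119 k51 4 14))))))] (.c k51 (.q k1 [(.s k49 k33 3 (.s k101 k205 13 (.s k117 k69 3 (.d k253
  k185 k169 9 13)))), (.s k3 k2 0 (.s k80 k95 2 (.s k240 k160 11 (.s k82 k161 12 (.s k86 k94 1 (.s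
  k84 k87 0 (.d k252 k168 k169 13 14)))))))] (.c k169 (.l (.s k49 k33 3 (.s k80 k95 2 (.s k101 k205
  13 (.s k112 k79 6 (.s k64 k96 3 (.s k117 k69 3 (.d k127 k122 k106 2 6)))))))) .n)) (.c k165 (.l
  (.s k51 k34 4 (.s k80 k95 2 (.s k102 k204 14 (.s k114 k78 5 (.d k240 k177 k160 8 11)))))) (.c k240
  (.l (.s k27 k216 8 (.s k51 k34 4 (.s k15 k39 5 (.s k95 k80 2 (.s k255 k175 11 (.s k119 k187 9 (.d
  k102 k204 k68 14 4)))))))) .n)))))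

def s5_170_11 : T TT 256 :=
  (.q k1 [(.s k33 k49 3 (.s k34 k51 4 (.s k32 k35 0 (.s k48 k16 3 (.d k3 k2 k18 0 4))))), (.s k49
  k33 3 (.s k153 k221 9 (.s k101 k205 13 (.s k117 k69 3 (.d k253 k185 k169 9 13))))), (.s k3 k2 0
  (.s k51 k34 4 (.s k35 k19 3 (.s k153 k221 9 (.s k102 k204 14 (.d k169 k236 k253 10 13))))))] .n)

def s5_170_12 : T TT 256 :=
  (.q k1 [(.s k49 k33 3 (.s k153 k221 9 (.s k101 k205 13 (.s k117 k69 3 (.d k253 k185 k169 9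
  13))))), (.s k3 k2 0 (.s k33 k49 3 (.s k18 k48 4 (.s k19 k16 0 (.d k51 k35 k34 3 4))))), (.s k3 k2
  0 (.s k51 k34 4 (.s k35 k19 3 (.s k153 k221 9 (.s k102 k204 14 (.d k169 k236 k253 10 13))))))] .n)

def s5_170_13 : T TT 256 :=
  (.q k1 [(.s k33 k49 3 (.s k34 k51 4 (.s k32 k35 0 (.s k48 k16 3 (.d k3 k2 k18 0 4))))), (.s k49
  k33 3 (.s k153 k221 9 (.s k101 k205 13 (.s k117 k69 3 (.d k253 k185 k169 9 13))))), (.s k3 k2 0
  (.s k51 k34 4 (.s k35 k19 3 (.s k153 k221 9 (.s k102 k204 14 (.d k169 k236 k253 10 13))))))] .n)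

def s5_170_14 : T TT 256 :=
  (.q k1 [(.s k33 k49 3 (.s k34 k51 4 (.s k32 k35 0 (.s k48 k16 3 (.d k3 k2 k18 0 4))))), (.s k49
  k33 3 (.s k153 k221 9 (.s k101 k205 13 (.s k117 k69 3 (.d k253 k185 k169 9 13))))), (.s k3 k2 0
  (.s k51 k34 4 (.s k35 k19 3 (.s k153 k221 9 (.s k102 k204 14 (.d k169 k236 k253 10 13))))))] .n)

def s5_170_15 : T TT 256 :=
  (.q k1 [(.s k49 k33 3 (.s k153 k221 9 (.s k101 k205 13 (.s k117 k69 3 (.d k253 k185 k169 9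
  13))))), (.s k3 k2 0 (.s k33 k49 3 (.s k18 k48 4 (.s k19 k16 0 (.d k51 k35 k34 3 4))))), (.s k3 k2
  0 (.s k51 k34 4 (.s k35 k19 3 (.s k153 k221 9 (.s k102 k204 14 (.d k169 k236 k253 10 13))))))] .n)

def s5_170_16 : T TT 256 :=
  (.q k1 [(.s k49 k33 3 (.s k153 k221 9 (.s k169 k253 13 (.s k137 k185 3 (.d k205 k69 k101 9
  13))))), (.s k3 k2 0 (.s k51 k34 4 (.s k35 k19 3 (.s k169 k253 13 (.s k102 k236 10 (.s k68 k119 4
  (.d k204 k136 k153 9 14)))))))] (.c k153 (.l (.s k3 k2 0 (.s k33 k49 3 (.s k48 k18 4 (.s k169 k253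
  13 (.s k101 k237 9 (.s k207 k154 14 (.d k69 k117 k138 3 10)))))))) (.c k169 (.l (.s k49 k33 3 (.s
  k51 k34 4 (.s k48 k50 0 (.s k153 k221 9 (.s k101 k205 13 (.s k69 k117 3 (.d k207 k138 k154 10
  14)))))))) (.c k253 (.l (.s k3 k2 0 (.s k49 k33 3 (.s k51 k34 4 (.s k153 k221 9 (.s k205 k101 13
  (.s k137 k69 9 (.d k204 k102 k70 14 10)))))))) .n))))

def s5_170_18 : T TT 256 :=
  (.q k21 [(.s k29 k25 1 (.s k149 k213 7 (.s k89 k209 9 (.s k93 k81 1 (.d k221 k157 k153 7 9))))),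
  (.s k25 k29 1 (.s k42 k63 6 (.s k8 k59 4 (.s k12 k4 1 (.d k51 k34 k38 4 6))))), (.s k51 k34 4 (.s
  k63 k42 6 (.s k59 k55 1 (.s k149 k213 7 (.s k106 k192 14 (.d k153 k221 k200 9 12))))))] .n)

def s5_170_19 : T TT 256 :=
  (.q k1 [(.s k3 k2 0 (.s k33 k49 3 (.s k34 k51 4 (.s k32 k35 0 (.d k48 k16 k18 3 4))))), (.s k49
  k33 3 (.s k153 k221 9 (.s k101 k205 13 (.s k117 k69 3 (.d k253 k185 k169 9 13))))), (.s k3 k2 0
  (.s k51 k34 4 (.s k153 k221 9 (.s k169 k253 13 (.s k185 k137 3 (.d k252 k86 k118 14 10))))))] .n)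

def s5_170_20 : T TT 256 :=
  (.q k1 [(.s k49 k33 3 (.s k153 k221 9 (.s k101 k205 13 (.s k117 k69 3 (.d k253 k185 k169 9
  13))))), (.s k3 k2 0 (.s k33 k49 3 (.s k18 k48 4 (.s k19 k16 0 (.d k51 k35 k34 3 4))))), (.s k3 k2
  0 (.s k51 k34 4 (.s k35 k19 3 (.s k153 k221 9 (.s k102 k204 14 (.d k169 k236 k253 10 13))))))] .n)

def s5_170_21 : T TT 256 :=
  (.f k153 k221 9 (.f k34 k51 4 (.q k16 [(.s k19 k18 0 (.s k86 k220 10 (.s k87 k84 0 (.d k223 k155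
  k154 9 10)))), (.s k18 k19 0 (.s k2 k50 3 (.s k3 k1 0 (.d k48 k32 k33 3 4)))), (.s k48 k32 3 (.s
  k154 k223 10 (.s k101 k207 14 (.s k49 k205 13 (.s k1 k33 3 (.s k117 k69 3 (.d k253 k185 k169 9
  13)))))))] (.c k37 (.q k53 [(.s k19 k18 0 (.s k86 k220 10 (.s k87 k84 0 (.d k223 k155 k154 9
  10)))), (.s k18 k19 0 (.s k2 k50 3 (.s k3 k1 0 (.d k48 k32 k33 3 4)))), (.s k48 k32 3 (.s k63 k58
  2 (.s k154 k223 10 (.s k101 k207 14 (.s k149 k197 11 (.s k144 k159 2 (.d k192 k96 k106 11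
  14)))))))] .n) (.c k53 (.q k37 [(.s k19 k18 0 (.s k86 k220 10 (.s k87 k84 0 (.d k223 k155 k154 9
  10)))), (.s k32 k48 3 (.s k42 k47 2 (.s k38 k46 1 (.s k36 k39 0 (.s k44 k40 1 (.d k35 k33 k41 0
  2))))))] .n) .n)))))

def s5_170_22 : T TT 256 :=
  (.q k1 [(.s k33 k49 3 (.s k34 k51 4 (.s k32 k35 0 (.s k48 k16 3 (.d k3 k2 k18 0 4))))), (.s k49
  k33 3 (.s k153 k221 9 (.s k101 k205 13 (.s k117 k69 3 (.d k253 k185 k169 9 13))))), (.s k3 k2 0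
  (.s k51 k34 4 (.s k35 k19 3 (.s k153 k221 9 (.s k102 k204 14 (.d k169 k236 k253 10 13))))))] .n)

def s5_170_23 : T TT 256 :=
  (.q k1 [(.s k33 k49 3 (.s k34 k51 4 (.s k32 k35 0 (.s k48 k16 3 (.d k3 k2 k18 0 4))))), (.s k49
  k33 3 (.s k153 k221 9 (.s k101 k205 13 (.s k117 k69 3 (.d k253 k185 k169 9 13))))), (.s k3 k2 0
  (.s k51 k34 4 (.s k35 k19 3 (.s k153 k221 9 (.s k102 k204 14 (.d k169 k236 k253 10 13))))))] .n)

def s5_170_24 : T TT 256 :=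
  (.q k1 [(.s k49 k33 3 (.s k153 k221 9 (.s k101 k205 13 (.s k117 k69 3 (.d k253 k185 k169 9
  13))))), (.s k3 k2 0 (.s k33 k49 3 (.s k18 k48 4 (.s k19 k16 0 (.d k51 k35 k34 3 4))))), (.s k3 k2
  0 (.s k51 k34 4 (.s k35 k19 3 (.s k153 k221 9 (.s k102 k204 14 (.d k169 k236 k253 10 13))))))] .n)

def s5_170_25 : T TT 256 :=
  (.q k1 [(.s k49 k33 3 (.s k153 k221 9 (.s k101 k205 13 (.s k117 k69 3 (.d k253 k185 k169 9
  13))))), (.s k3 k2 0 (.s k33 k49 3 (.s k18 k48 4 (.s k19 k16 0 (.d k51 k35 k34 3 4))))), (.s k3 k2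
  0 (.s k51 k34 4 (.s k35 k19 3 (.s k153 k221 9 (.s k102 k204 14 (.d k169 k236 k253 10 13))))))] .n)

def s5_170_26 : T TT 256 :=
  (.q k1 [(.s k49 k33 3 (.s k153 k221 9 (.s k101 k205 13 (.s k117 k69 3 (.d k253 k185 k169 9
  13))))), (.s k3 k2 0 (.s k33 k49 3 (.s k18 k48 4 (.s k19 k16 0 (.d k51 k35 k34 3 4))))), (.s k3 k2
  0 (.s k51 k34 4 (.s k35 k19 3 (.s k153 k221 9 (.s k102 k204 14 (.d k169 k236 k253 10 13))))))] .n)

def s5_170_27 : T TT 256 :=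
  (.q k1 [(.s k3 k2 0 (.s k33 k49 3 (.s k18 k48 4 (.s k19 k16 0 (.d k51 k35 k34 3 4))))), (.s k49
  k33 3 (.s k153 k221 9 (.s k101 k205 13 (.s k117 k69 3 (.d k253 k185 k169 9 13))))), (.s k3 k2 0
  (.s k51 k34 4 (.s k35 k19 3 (.s k153 k221 9 (.s k102 k204 14 (.d k169 k236 k253 10 13))))))] .n)

def s5_170_28 : T TT 256 :=
  (.q k1 [(.s k49 k33 3 (.s k153 k221 9 (.s k101 k205 13 (.s k117 k69 3 (.d k253 k185 k169 9
  13))))), (.s k3 k2 0 (.s k33 k49 3 (.s k18 k48 4 (.s k19 k16 0 (.d k51 k35 k34 3 4))))), (.s k3 k2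
  0 (.s k51 k34 4 (.s k35 k19 3 (.s k153 k221 9 (.s k102 k204 14 (.d k169 k236 k253 10 13))))))] .n)

def s5_170_29 : T TT 256 :=
  (.q k1 [(.s k33 k49 3 (.s k34 k51 4 (.s k32 k35 0 (.s k48 k16 3 (.d k3 k2 k18 0 4))))), (.s k49
  k33 3 (.s k153 k221 9 (.s k101 k205 13 (.s k117 k69 3 (.d k253 k185 k169 9 13))))), (.s k3 k2 0
  (.s k51 k34 4 (.s k35 k19 3 (.s k153 k221 9 (.s k102 k204 14 (.d k169 k236 k253 10 13))))))] .n)

def s5_170_30 : T TT 256 :=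
  (.q k1 [(.s k33 k49 3 (.s k34 k51 4 (.s k32 k35 0 (.s k48 k16 3 (.d k3 k2 k18 0 4))))), (.s k49
  k33 3 (.s k153 k221 9 (.s k101 k205 13 (.s k117 k69 3 (.d k253 k185 k169 9 13))))), (.s k3 k2 0
  (.s k51 k34 4 (.s k35 k19 3 (.s k153 k221 9 (.s k102 k204 14 (.d k169 k236 k253 10 13))))))] .n)

def s5_170_31 : T TT 256 :=
  (.q k1 [(.s k49 k33 3 (.s k153 k221 9 (.s k101 k205 13 (.s k117 k69 3 (.d k253 k185 k169 9
  13))))), (.s k3 k2 0 (.s k33 k49 3 (.s k18 k48 4 (.s k19 k16 0 (.d k51 k35 k34 3 4))))), (.s k3 k2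
  0 (.s k51 k34 4 (.s k35 k19 3 (.s k153 k221 9 (.s k102 k204 14 (.d k169 k236 k253 10 13))))))] .n)

def s5_170_32 : T TT 256 :=
  (.q k101 [(.s k117 k69 3 (.s k153 k221 9 (.s k49 k205 13 (.s k253 k185 9 (.d k1 k33 k169 3
  13))))), (.s k51 k34 4 (.s k69 k117 3 (.s k207 k138 10 (.s k103 k155 13 (.s k102 k100 0 (.s k68
  k119 4 (.d k204 k136 k153 9 14))))))), (.s k51 k34 4 (.s k153 k221 9 (.s k49 k205 13 (.s k48 k50 0
  (.s k102 k204 14 (.s k103 k100 0 (.d k207 k155 k154 13 14)))))))] (.c k33 (.l (.s k69 k117 3 (.s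
  k153 k221 9 (.s k205 k49 13 (.s k207 k138 10 (.s k204 k206 0 (.d k51 k34 k102 4 14))))))) (.c k153
  (.f k51 k34 4 (.f k69 k117 3 (.l (.s k207 k138 10 (.s k103 k155 13 (.s k102 k100 0 (.s k68 k119 4
  (.s k154 k48 14 (.s k206 k50 13 (.d k204 k205 k136 0 9)))))))))) .n)))

def s5_170_33 : T TT 256 :=
  (.q k21 [(.s k29 k25 1 (.s k149 k213 7 (.s k89 k209 9 (.s k93 k81 1 (.d k221 k157 k153 7 9))))),
  (.s k25 k29 1 (.s k42 k63 6 (.s k8 k59 4 (.s k12 k4 1 (.d k51 k34 k38 4 6))))), (.s k51 k34 4 (.s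
  k63 k42 6 (.s k59 k55 1 (.s k149 k213 7 (.s k106 k192 14 (.d k153 k221 k200 9 12))))))] .n)

def s5_170_34 : T TT 256 :=
  (.f k153 k221 9 (.q k1 [(.s k49 k33 3 (.s k169 k253 13 (.s k137 k185 3 (.d k205 k69 k101 9 13)))),
  (.s k3 k2 0 (.s k33 k49 3 (.s k18 k48 4 (.s k19 k16 0 (.s k86 k220 10 (.s k84 k87 0 (.d k252 k168
  k169 13 14))))))), (.s k3 k2 0 (.s k169 k253 13 (.s k86 k252 14 (.s k19 k220 10 (.s k87 k84 0 (.s
  k223 k155 9 (.d k16 k18 k154 0 10)))))))] (.c k102 (.q k238 [(.s k49 k33 3 (.s k169 k253 13 (.s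
  k137 k185 3 (.d k205 k69 k101 9 13)))), (.s k3 k2 0 (.s k33 k49 3 (.s k18 k48 4 (.s k19 k16 0 (.s
  k86 k220 10 (.s k84 k87 0 (.d k252 k168 k169 13 14))))))), (.s k3 k2 0 (.s k169 k253 13 (.s k86
  k252 14 (.s k19 k220 10 (.s k87 k84 0 (.s k223 k155 9 (.d k16 k18 k154 0 10)))))))] (.c k169 (.f
  k49 k33 3 (.f k101 k205 13 (.l (.s k69 k117 3 (.s k207 k138 10 (.s k154 k48 14 (.s k16 k223 10 (.s
  k152 k155 0 (.s k220 k84 9 (.d k19 k18 k86 0 10)))))))))) .n)) (.c k169 (.f k3 k2 0 (.f k49 k33 3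
  (.f k101 k205 13 (.l (.s k69 k117 3 (.s k207 k138 10 (.s k71 k139 9 (.s k86 k116 4 (.s k19 k220 10
  (.s k18 k16 0 (.d k154 k222 k48 9 14))))))))))) (.c k238 (.q k102 [(.s k68 k119 4 (.d k204 k136
  k51 9 14)), (.s k49 k33 3 (.s k101 k205 13 (.s k117 k69 3 (.d k253 k185 k169 9 13))))] (.c k204
  (.q k255 [(.s k3 k2 0 (.s k87 k171 13 (.s k86 k84 0 (.d k169 k253 k252 13 14)))), (.s k49 k33 3
  (.s k101 k205 13 (.s k117 k69 3 (.d k253 k185 k169 9 13)))), (.s k3 k2 0 (.s k33 k49 3 (.s k18 k48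
  4 (.s k19 k16 0 (.s k51 k35 3 (.d k119 k68 k187 4 9))))))] .n) (.c k255 (.l (.s k204 k51 14 (.d
  k68 k119 k136 4 9))) .n))) .n)))))

def s5_170_35 : T TT 256 :=
  (.q k16 [(.s k19 k18 0 (.s k153 k221 9 (.s k86 k220 10 (.s k87 k84 0 (.d k223 k155 k154 9 10))))),
  (.s k18 k19 0 (.s k48 k32 3 (.s k3 k33 4 (.s k34 k51 4 (.d k2 k1 k50 0 3))))), (.s k48 k32 3 (.s
  k153 k221 9 (.s k154 k223 10 (.s k101 k207 14 (.s k49 k205 13 (.d k51 k34 k50 4 0))))))] .n)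

def s5_170_36 : T TT 256 :=
  (.q k1 [(.s k33 k49 3 (.s k34 k51 4 (.s k32 k35 0 (.s k48 k16 3 (.d k3 k2 k18 0 4))))), (.s k49
  k33 3 (.s k153 k221 9 (.s k101 k205 13 (.s k117 k69 3 (.d k253 k185 k169 9 13))))), (.s k3 k2 0
  (.s k51 k34 4 (.s k35 k19 3 (.s k153 k221 9 (.s k102 k204 14 (.d k169 k236 k253 10 13))))))] .n)

def s5_170_37 : T TT 256 :=
  (.q k21 [(.s k29 k25 1 (.s k149 k213 7 (.s k89 k209 9 (.s k93 k81 1 (.d k221 k157 k153 7 9))))),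
  (.s k25 k29 1 (.s k42 k63 6 (.s k8 k59 4 (.s k12 k4 1 (.d k51 k34 k38 4 6))))), (.s k51 k34 4 (.s
  k63 k42 6 (.s k59 k55 1 (.s k149 k213 7 (.s k106 k192 14 (.d k153 k221 k200 9 12))))))] .n)

def s5_170_38 : T TT 256 :=
  (.q k1 [(.s k3 k2 0 (.s k33 k49 3 (.s k18 k48 4 (.s k19 k16 0 (.d k51 k35 k34 3 4))))), (.s k49
  k33 3 (.s k153 k221 9 (.s k101 k205 13 (.s k117 k69 3 (.d k253 k185 k169 9 13))))), (.s k3 k2 0
  (.s k51 k34 4 (.s k35 k19 3 (.s k153 k221 9 (.s k102 k204 14 (.d k169 k236 k253 10 13))))))] .n)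

def s5_170_39 : T TT 256 :=
  (.q k1 [(.s k3 k2 0 (.s k33 k49 3 (.s k18 k48 4 (.s k19 k16 0 (.d k51 k35 k34 3 4))))), (.s k49
  k33 3 (.s k153 k221 9 (.s k101 k205 13 (.s k117 k69 3 (.d k253 k185 k169 9 13))))), (.s k3 k2 0
  (.s k51 k34 4 (.s k35 k19 3 (.s k153 k221 9 (.s k102 k204 14 (.d k169 k236 k253 10 13))))))] .n)

def s5_170_40 : T TT 256 :=
  (.f k153 k221 9 (.q k105 [(.s k51 k34 4 (.s k57 k201 11 (.s k60 k54 2 (.s k65 k125 5 (.d k195 k130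
  k150 8 14))))), (.s k65 k125 5 (.s k195 k130 8 (.s k150 k60 14 (.s k147 k156 2 (.d k51 k34 k99 4
  11))))), (.s k51 k34 4 (.s k57 k201 11 (.s k60 k54 2 (.s k102 k204 14 (.s k99 k108 2 (.d k195 k147
  k150 11 14)))))), (.s k65 k125 5 (.s k195 k130 8 (.s k201 k57 11 (.s k204 k198 2 (.s k68 k136 9
  (.d k102 k119 k51 4 14))))))] (.c k51 (.q k1 [(.s k49 k33 3 (.s k101 k205 13 (.s k117 k69 3 (.d
  k253 k185 k169 9 13)))), (.s k49 k33 3 (.s k57 k201 11 (.s k61 k53 1 (.s k21 k41 5 (.d k149 k213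
  k193 7 13))))), (.s k57 k201 11 (.s k169 k253 13 (.s k41 k233 7 (.s k21 k61 5 (.d k25 k29 k9 1
  3)))))] .n) (.c k150 (.l (.s k51 k34 4 (.s k65 k125 5 (.s k102 k204 14 (.s k99 k108 2 (.d k195
  k130 k147 8 11)))))) (.c k195 (.l (.s k51 k34 4 (.s k57 k201 11 (.s k60 k54 2 (.s k125 k65 5 (.s
  k255 k190 8 (.s k119 k187 9 (.d k102 k204 k68 14 4)))))))) .n)))))

def s5_170_41 : T TT 256 :=
  (.q k1 [(.s k3 k2 0 (.s k33 k49 3 (.s k18 k48 4 (.s k19 k16 0 (.d k51 k35 k34 3 4))))), (.s k49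
  k33 3 (.s k153 k221 9 (.s k101 k205 13 (.s k117 k69 3 (.d k253 k185 k169 9 13))))), (.s k3 k2 0
  (.s k51 k34 4 (.s k35 k19 3 (.s k153 k221 9 (.s k102 k204 14 (.d k169 k236 k253 10 13))))))] .n)

def s5_170_42 : T TT 256 :=
  (.f k153 k221 9 (.q k106 [(.s k51 k34 4 (.s k59 k200 12 (.s k63 k55 1 (.s k64 k127 6 (.d k192 k128
  k149 7 14))))), (.s k64 k127 6 (.s k192 k128 7 (.s k149 k63 14 (.s k145 k157 1 (.s k81 k209 7 (.d
  k98 k115 k51 4 12)))))), (.s k51 k34 4 (.s k59 k200 12 (.s k63 k55 1 (.s k102 k204 14 (.s k98 k110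
  1 (.d k192 k145 k149 12 14))))))] (.c k51 (.l (.s k64 k127 6 (.s k192 k128 7 (.s k149 k63 14 (.s
  k21 k213 7 (.s k29 k25 1 (.s k145 k157 1 (.d k209 k81 k89 7 9)))))))) (.c k63 (.l (.s k51 k34 4
  (.s k64 k127 6 (.s k102 k204 14 (.s k192 k128 7 (.d k98 k110 k145 1 12)))))) (.c k149 (.l (.s k51
  k34 4 (.s k64 k127 6 (.s k102 k204 14 (.s k98 k110 1 (.d k192 k128 k145 7 12)))))) (.c k192 (.l
  (.s k51 k34 4 (.s k59 k200 12 (.s k63 k55 1 (.s k127 k64 6 (.s k255 k191 7 (.s k119 k187 9 (.d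
  k102 k204 k68 14 4)))))))) .n))))))

def s5_170_43 : T TT 256 :=
  (.q k1 [(.s k3 k2 0 (.s k33 k49 3 (.s k18 k48 4 (.s k19 k16 0 (.d k51 k35 k34 3 4))))), (.s k49
  k33 3 (.s k153 k221 9 (.s k101 k205 13 (.s k117 k69 3 (.d k253 k185 k169 9 13))))), (.s k3 k2 0
  (.s k51 k34 4 (.s k35 k19 3 (.s k153 k221 9 (.s k102 k204 14 (.d k169 k236 k253 10 13))))))] .n)

def s5_170_44 : T TT 256 :=
  (.q k1 [(.s k3 k2 0 (.s k33 k49 3 (.s k18 k48 4 (.s k19 k16 0 (.d k51 k35 k34 3 4))))), (.s k49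
  k33 3 (.s k153 k221 9 (.s k101 k205 13 (.s k117 k69 3 (.d k253 k185 k169 9 13))))), (.s k3 k2 0
  (.s k51 k34 4 (.s k35 k19 3 (.s k153 k221 9 (.s k102 k204 14 (.d k169 k236 k253 10 13))))))] .n)

def s5_170_45 : T TT 256 :=
  (.q k1 [(.s k33 k49 3 (.s k34 k51 4 (.s k32 k35 0 (.s k48 k16 3 (.d k3 k2 k18 0 4))))), (.s k49
  k33 3 (.s k153 k221 9 (.s k101 k205 13 (.s k117 k69 3 (.d k253 k185 k169 9 13))))), (.s k3 k2 0
  (.s k51 k34 4 (.s k35 k19 3 (.s k153 k221 9 (.s k102 k204 14 (.d k169 k236 k253 10 13))))))] .n)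

def s5_170_46 : T TT 256 :=
  (.q k1 [(.s k33 k49 3 (.s k34 k51 4 (.s k32 k35 0 (.s k48 k16 3 (.d k3 k2 k18 0 4))))), (.s k49
  k33 3 (.s k153 k221 9 (.s k101 k205 13 (.s k117 k69 3 (.d k253 k185 k169 9 13))))), (.s k3 k2 0
  (.s k51 k34 4 (.s k35 k19 3 (.s k153 k221 9 (.s k102 k204 14 (.d k169 k236 k253 10 13))))))] .n)

def s5_170_47 : T TT 256 :=
  (.q k1 [(.s k3 k2 0 (.s k33 k49 3 (.s k18 k48 4 (.s k19 k16 0 (.d k51 k35 k34 3 4))))), (.s k49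
  k33 3 (.s k153 k221 9 (.s k101 k205 13 (.s k117 k69 3 (.d k253 k185 k169 9 13))))), (.s k3 k2 0
  (.s k51 k34 4 (.s k35 k19 3 (.s k153 k221 9 (.s k102 k204 14 (.d k169 k236 k253 10 13))))))] .n)

def s5_170_48 : T TT 256 :=
  (.q k21 [(.s k29 k25 1 (.s k149 k213 7 (.s k89 k209 9 (.s k93 k81 1 (.d k221 k157 k153 7 9))))),
  (.s k25 k29 1 (.s k42 k63 6 (.s k8 k59 4 (.s k12 k4 1 (.d k51 k34 k38 4 6))))), (.s k51 k34 4 (.s
  k63 k42 6 (.s k59 k55 1 (.s k149 k213 7 (.s k106 k192 14 (.d k153 k221 k200 9 12))))))] .n)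

def s5_170_49 : T TT 256 :=
  (.q k16 [(.s k19 k18 0 (.s k153 k221 9 (.s k86 k220 10 (.s k87 k84 0 (.d k223 k155 k154 9 10))))),
  (.s k18 k19 0 (.s k34 k51 4 (.s k2 k50 3 (.s k48 k32 3 (.d k3 k1 k33 0 4))))), (.s k48 k32 3 (.s
  k51 k34 4 (.s k153 k221 9 (.s k154 k223 10 (.s k155 k152 0 (.d k207 k101 k103 14 13))))))] .n)

def s5_170_50 : T TT 256 :=
  (.q k1 [(.s k3 k2 0 (.s k33 k49 3 (.s k34 k51 4 (.s k48 k18 4 (.d k32 k35 k16 0 3))))), (.s k49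
  k33 3 (.s k153 k221 9 (.s k101 k205 13 (.s k117 k69 3 (.d k253 k185 k169 9 13))))), (.s k3 k2 0
  (.s k153 k221 9 (.s k169 k253 13 (.s k86 k252 14 (.s k19 k220 10 (.d k51 k34 k35 4 3))))))] .n)

def s5_170_51 : T TT 256 :=
  (.f k153 k221 9 (.q k1 [(.s k49 k33 3 (.s k101 k205 13 (.s k117 k69 3 (.d k253 k185 k169 9 13)))),
  (.s k3 k2 0 (.s k169 k253 13 (.s k86 k252 14 (.s k19 k220 10 (.s k16 k18 0 (.s k87 k84 0 (.d k223
  k155 k154 9 10))))))), (.s k3 k2 0 (.s k33 k49 3 (.s k48 k18 4 (.s k16 k32 3 (.s k154 k223 10 (.s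
  k101 k207 14 (.d k169 k237 k253 9 13)))))))] (.c k169 (.f k3 k2 0 (.f k49 k33 3 (.f k101 k205 13
  (.l (.s k69 k117 3 (.s k207 k138 10 (.s k71 k139 9 (.s k86 k116 4 (.s k19 k220 10 (.s k16 k18 0
  (.d k48 k154 k32 14 3))))))))))) (.c k237 (.l (.s k49 k33 3 (.s k101 k205 13 (.s k253 k169 13 (.d
  k117 k69 k185 3 9))))) (.c k253 (.f k3 k2 0 (.f k49 k33 3 (.f k205 k101 13 (.l (.s k137 k69 9 (.s
  k169 k185 3 (.s k204 k70 10 (.s k68 k136 9 (.s k102 k119 4 (.s k236 k35 10 (.d k252 k220 k86 3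
  14))))))))))) .n)))))

def s5_170_52 : T TT 256 :=
  (.q k1 [(.s k33 k49 3 (.s k34 k51 4 (.s k32 k35 0 (.s k48 k16 3 (.d k3 k2 k18 0 4))))), (.s k49
  k33 3 (.s k153 k221 9 (.s k101 k205 13 (.s k117 k69 3 (.d k253 k185 k169 9 13))))), (.s k3 k2 0
  (.s k51 k34 4 (.s k35 k19 3 (.s k153 k221 9 (.s k102 k204 14 (.d k169 k236 k253 10 13))))))] .n)

def s5_170_53 : T TT 256 :=
  (.q k21 [(.s k29 k25 1 (.s k149 k213 7 (.s k89 k209 9 (.s k93 k81 1 (.d k221 k157 k153 7 9))))),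
  (.s k25 k29 1 (.s k42 k63 6 (.s k8 k59 4 (.s k12 k4 1 (.d k51 k34 k38 4 6))))), (.s k51 k34 4 (.s
  k63 k42 6 (.s k59 k55 1 (.s k149 k213 7 (.s k106 k192 14 (.d k153 k221 k200 9 12))))))] .n)

def s5_170_54 : T TT 256 :=
  (.q k1 [(.s k3 k2 0 (.s k33 k49 3 (.s k18 k48 4 (.s k19 k16 0 (.d k51 k35 k34 3 4))))), (.s k49
  k33 3 (.s k153 k221 9 (.s k101 k205 13 (.s k117 k69 3 (.d k253 k185 k169 9 13))))), (.s k3 k2 0
  (.s k51 k34 4 (.s k35 k19 3 (.s k153 k221 9 (.s k102 k204 14 (.d k169 k236 k253 10 13))))))] .n)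

def s5_170_55 : T TT 256 :=
  (.q k1 [(.s k3 k2 0 (.s k33 k49 3 (.s k18 k48 4 (.s k19 k16 0 (.d k51 k35 k34 3 4))))), (.s k49
  k33 3 (.s k153 k221 9 (.s k101 k205 13 (.s k117 k69 3 (.d k253 k185 k169 9 13))))), (.s k3 k2 0
  (.s k51 k34 4 (.s k35 k19 3 (.s k153 k221 9 (.s k102 k204 14 (.d k169 k236 k253 10 13))))))] .n)

def s5_170_56 : T TT 256 :=
  (.q k1 [(.s k33 k49 3 (.s k34 k51 4 (.s k32 k35 0 (.s k48 k16 3 (.d k3 k2 k18 0 4))))), (.s k49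
  k33 3 (.s k153 k221 9 (.s k101 k205 13 (.s k117 k69 3 (.d k253 k185 k169 9 13))))), (.s k3 k2 0
  (.s k51 k34 4 (.s k35 k19 3 (.s k153 k221 9 (.s k102 k204 14 (.d k169 k236 k253 10 13))))))] .n)

def s5_170_57 : T TT 256 :=
  (.q k1 [(.s k49 k33 3 (.s k153 k221 9 (.s k101 k205 13 (.s k117 k69 3 (.d k253 k185 k169 9
  13))))), (.s k3 k2 0 (.s k33 k49 3 (.s k18 k48 4 (.s k19 k16 0 (.d k51 k35 k34 3 4))))), (.s k3 k2
  0 (.s k51 k34 4 (.s k35 k19 3 (.s k153 k221 9 (.s k102 k204 14 (.d k169 k236 k253 10 13))))))] .n)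

def s5_170_58 : T TT 256 :=
  (.q k1 [(.s k33 k49 3 (.s k34 k51 4 (.s k32 k35 0 (.s k48 k16 3 (.d k3 k2 k18 0 4))))), (.s k49
  k33 3 (.s k153 k221 9 (.s k101 k205 13 (.s k117 k69 3 (.d k253 k185 k169 9 13))))), (.s k3 k2 0
  (.s k51 k34 4 (.s k35 k19 3 (.s k153 k221 9 (.s k102 k204 14 (.d k169 k236 k253 10 13))))))] .n)

def s5_170_59 : T TT 256 :=
  (.q k1 [(.s k3 k2 0 (.s k33 k49 3 (.s k18 k48 4 (.s k19 k16 0 (.d k51 k35 k34 3 4))))), (.s k49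
  k33 3 (.s k153 k221 9 (.s k101 k205 13 (.s k117 k69 3 (.d k253 k185 k169 9 13))))), (.s k3 k2 0
  (.s k51 k34 4 (.s k35 k19 3 (.s k153 k221 9 (.s k102 k204 14 (.d k169 k236 k253 10 13))))))] .n)

def s5_170_60 : T TT 256 :=
  (.q k1 [(.s k49 k33 3 (.s k153 k221 9 (.s k101 k205 13 (.s k117 k69 3 (.d k253 k185 k169 9
  13))))), (.s k3 k2 0 (.s k33 k49 3 (.s k18 k48 4 (.s k19 k16 0 (.d k51 k35 k34 3 4))))), (.s k3 k2
  0 (.s k51 k34 4 (.s k35 k19 3 (.s k153 k221 9 (.s k102 k204 14 (.d k169 k236 k253 10 13))))))] .n)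

def s5_170_61 : T TT 256 :=
  (.q k1 [(.s k33 k49 3 (.s k34 k51 4 (.s k32 k35 0 (.s k48 k16 3 (.d k3 k2 k18 0 4))))), (.s k49
  k33 3 (.s k153 k221 9 (.s k101 k205 13 (.s k117 k69 3 (.d k253 k185 k169 9 13))))), (.s k3 k2 0
  (.s k51 k34 4 (.s k35 k19 3 (.s k153 k221 9 (.s k102 k204 14 (.d k169 k236 k253 10 13))))))] .n)

def s5_170_62 : T TT 256 :=
  (.q k1 [(.s k33 k49 3 (.s k34 k51 4 (.s k32 k35 0 (.s k48 k16 3 (.d k3 k2 k18 0 4))))), (.s k49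
  k33 3 (.s k153 k221 9 (.s k101 k205 13 (.s k117 k69 3 (.d k253 k185 k169 9 13))))), (.s k3 k2 0
  (.s k51 k34 4 (.s k35 k19 3 (.s k153 k221 9 (.s k102 k204 14 (.d k169 k236 k253 10 13))))))] .n)

def s5_170_63 : T TT 256 :=
  (.q k1 [(.s k49 k33 3 (.s k153 k221 9 (.s k101 k205 13 (.s k117 k69 3 (.d k253 k185 k169 9
  13))))), (.s k3 k2 0 (.s k33 k49 3 (.s k18 k48 4 (.s k19 k16 0 (.d k51 k35 k34 3 4))))), (.s k3 k2
  0 (.s k51 k34 4 (.s k35 k19 3 (.s k153 k221 9 (.s k102 k204 14 (.d k169 k236 k253 10 13))))))] .n)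

def s5_170_64 : T TT 256 :=
  (.q k1 [(.s k33 k49 3 (.s k34 k51 4 (.s k32 k35 0 (.s k48 k16 3 (.d k3 k2 k18 0 4))))), (.s k49
  k33 3 (.s k153 k221 9 (.s k101 k205 13 (.s k117 k69 3 (.d k253 k185 k169 9 13))))), (.s k3 k2 0
  (.s k51 k34 4 (.s k35 k19 3 (.s k153 k221 9 (.s k102 k204 14 (.d k169 k236 k253 10 13))))))] .n)

def s5_170_65 : T TT 256 :=
  (.q k1 [(.s k33 k49 3 (.s k34 k51 4 (.s k32 k35 0 (.s k48 k16 3 (.d k3 k2 k18 0 4))))), (.s k49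
  k33 3 (.s k153 k221 9 (.s k101 k205 13 (.s k117 k69 3 (.d k253 k185 k169 9 13))))), (.s k3 k2 0
  (.s k51 k34 4 (.s k35 k19 3 (.s k153 k221 9 (.s k102 k204 14 (.d k169 k236 k253 10 13))))))] .n)

def s5_170_66 : T TT 256 :=
  (.q k1 [(.s k33 k49 3 (.s k34 k51 4 (.s k32 k35 0 (.s k48 k16 3 (.d k3 k2 k18 0 4))))), (.s k49
  k33 3 (.s k153 k221 9 (.s k101 k205 13 (.s k117 k69 3 (.d k253 k185 k169 9 13))))), (.s k3 k2 0
  (.s k51 k34 4 (.s k35 k19 3 (.s k153 k221 9 (.s k102 k204 14 (.d k169 k236 k253 10 13))))))] .n)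

def s5_170_67 : T TT 256 :=
  (.q k1 [(.s k33 k49 3 (.s k34 k51 4 (.s k32 k35 0 (.s k48 k16 3 (.d k3 k2 k18 0 4))))), (.s k49
  k33 3 (.s k153 k221 9 (.s k101 k205 13 (.s k117 k69 3 (.d k253 k185 k169 9 13))))), (.s k3 k2 0
  (.s k51 k34 4 (.s k35 k19 3 (.s k153 k221 9 (.s k102 k204 14 (.d k169 k236 k253 10 13))))))] .n)

def s5_170_68 : T TT 256 :=
  (.q k1 [(.s k33 k49 3 (.s k34 k51 4 (.s k32 k35 0 (.s k48 k16 3 (.d k3 k2 k18 0 4))))), (.s k49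
  k33 3 (.s k153 k221 9 (.s k101 k205 13 (.s k117 k69 3 (.d k253 k185 k169 9 13))))), (.s k3 k2 0
  (.s k51 k34 4 (.s k35 k19 3 (.s k153 k221 9 (.s k102 k204 14 (.d k169 k236 k253 10 13))))))] .n)

def s5_170_69 : T TT 256 :=
  (.f k153 k221 9 (.q k1 [(.s k33 k49 3 (.s k34 k51 4 (.s k32 k35 0 (.s k48 k16 3 (.d k3 k2 k18 0
  4))))), (.s k51 k34 4 (.s k169 k253 13 (.s k185 k137 3 (.s k252 k118 10 (.s k84 k168 13 (.d k86
  k87 k3 0 14)))))), (.s k3 k2 0 (.s k33 k49 3 (.s k169 k253 13 (.s k86 k252 14 (.s k19 k220 10 (.d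
  k18 k16 k48 0 4))))))] (.c k3 (.l (.s k49 k33 3 (.s k51 k34 4 (.s k48 k50 0 (.s k101 k205 13 (.s
  k154 k207 14 (.d k16 k32 k223 3 10))))))) (.c k133 (.q k197 [(.s k33 k49 3 (.s k34 k51 4 (.s k32
  k35 0 (.s k48 k16 3 (.d k3 k2 k18 0 4))))), (.s k51 k34 4 (.s k169 k253 13 (.s k185 k137 3 (.s
  k252 k118 10 (.s k84 k168 13 (.d k86 k87 k3 0 14)))))), (.s k3 k2 0 (.s k33 k49 3 (.s k169 k253 13
  (.s k86 k252 14 (.s k19 k220 10 (.d k18 k16 k48 0 4))))))] (.c k3 (.l (.s k49 k33 3 (.s k51 k34 4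
  (.s k48 k50 0 (.s k101 k205 13 (.s k154 k207 14 (.d k16 k32 k223 3 10))))))) .n)) (.c k197 (.q
  k133 [(.s k33 k49 3 (.s k34 k51 4 (.s k32 k35 0 (.s k48 k16 3 (.d k3 k2 k18 0 4))))), (.s k51 k34
  4 (.s k169 k253 13 (.s k185 k137 3 (.s k252 k118 10 (.s k84 k168 13 (.d k86 k87 k3 0 14)))))), (.s
  k3 k2 0 (.s k33 k49 3 (.s k169 k253 13 (.s k86 k252 14 (.s k19 k220 10 (.d k18 k16 k48 0 4))))))]
  (.c k3 (.l (.s k49 k33 3 (.s k51 k34 4 (.s k48 k50 0 (.s k101 k205 13 (.s k154 k207 14 (.d k16 k32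
  k223 3 10))))))) .n)) .n)))))

def s5_170_70 : T TT 256 :=
  (.q k1 [(.s k33 k49 3 (.s k34 k51 4 (.s k32 k35 0 (.s k48 k16 3 (.d k3 k2 k18 0 4))))), (.s k49
  k33 3 (.s k153 k221 9 (.s k101 k205 13 (.s k117 k69 3 (.d k253 k185 k169 9 13))))), (.s k3 k2 0
  (.s k51 k34 4 (.s k35 k19 3 (.s k153 k221 9 (.s k102 k204 14 (.d k169 k236 k253 10 13))))))] .n)

def s5_170_71 : T TT 256 :=
  (.q k1 [(.s k33 k49 3 (.s k34 k51 4 (.s k32 k35 0 (.s k48 k16 3 (.d k3 k2 k18 0 4))))), (.s k49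
  k33 3 (.s k153 k221 9 (.s k101 k205 13 (.s k117 k69 3 (.d k253 k185 k169 9 13))))), (.s k3 k2 0
  (.s k51 k34 4 (.s k35 k19 3 (.s k153 k221 9 (.s k102 k204 14 (.d k169 k236 k253 10 13))))))] .n)

def s5_170_72 : T TT 256 :=
  (.q k1 [(.s k33 k49 3 (.s k34 k51 4 (.s k32 k35 0 (.s k48 k16 3 (.d k3 k2 k18 0 4))))), (.s k49
  k33 3 (.s k153 k221 9 (.s k101 k205 13 (.s k117 k69 3 (.d k253 k185 k169 9 13))))), (.s k3 k2 0
  (.s k51 k34 4 (.s k35 k19 3 (.s k153 k221 9 (.s k102 k204 14 (.d k169 k236 k253 10 13))))))] .n)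

def s5_170_73 : T TT 256 :=
  (.q k1 [(.s k33 k49 3 (.s k34 k51 4 (.s k32 k35 0 (.s k48 k16 3 (.d k3 k2 k18 0 4))))), (.s k49
  k33 3 (.s k153 k221 9 (.s k101 k205 13 (.s k117 k69 3 (.d k253 k185 k169 9 13))))), (.s k3 k2 0
  (.s k51 k34 4 (.s k35 k19 3 (.s k153 k221 9 (.s k102 k204 14 (.d k169 k236 k253 10 13))))))] .n)

def s5_170_74 : T TT 256 :=
  (.q k1 [(.s k33 k49 3 (.s k34 k51 4 (.s k32 k35 0 (.s k48 k16 3 (.d k3 k2 k18 0 4))))), (.s k49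
  k33 3 (.s k153 k221 9 (.s k101 k205 13 (.s k117 k69 3 (.d k253 k185 k169 9 13))))), (.s k3 k2 0
  (.s k51 k34 4 (.s k35 k19 3 (.s k153 k221 9 (.s k102 k204 14 (.d k169 k236 k253 10 13))))))] .n)

def s5_170_75 : T TT 256 :=
  (.q k1 [(.s k33 k49 3 (.s k34 k51 4 (.s k32 k35 0 (.s k48 k16 3 (.d k3 k2 k18 0 4))))), (.s k49
  k33 3 (.s k153 k221 9 (.s k101 k205 13 (.s k117 k69 3 (.d k253 k185 k169 9 13))))), (.s k3 k2 0
  (.s k51 k34 4 (.s k35 k19 3 (.s k153 k221 9 (.s k102 k204 14 (.d k169 k236 k253 10 13))))))] .n)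

def s5_170_76 : T TT 256 :=
  (.q k1 [(.s k33 k49 3 (.s k34 k51 4 (.s k32 k35 0 (.s k48 k16 3 (.d k3 k2 k18 0 4))))), (.s k49
  k33 3 (.s k153 k221 9 (.s k101 k205 13 (.s k117 k69 3 (.d k253 k185 k169 9 13))))), (.s k3 k2 0
  (.s k51 k34 4 (.s k35 k19 3 (.s k153 k221 9 (.s k102 k204 14 (.d k169 k236 k253 10 13))))))] .n)

def s5_170_77 : T TT 256 :=
  (.q k1 [(.s k33 k49 3 (.s k34 k51 4 (.s k32 k35 0 (.s k48 k16 3 (.d k3 k2 k18 0 4))))), (.s k49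
  k33 3 (.s k153 k221 9 (.s k101 k205 13 (.s k117 k69 3 (.d k253 k185 k169 9 13))))), (.s k3 k2 0
  (.s k51 k34 4 (.s k35 k19 3 (.s k153 k221 9 (.s k102 k204 14 (.d k169 k236 k253 10 13))))))] .n)

def s5_170_78 : T TT 256 :=
  (.q k1 [(.s k33 k49 3 (.s k34 k51 4 (.s k32 k35 0 (.s k48 k16 3 (.d k3 k2 k18 0 4))))), (.s k49
  k33 3 (.s k153 k221 9 (.s k101 k205 13 (.s k117 k69 3 (.d k253 k185 k169 9 13))))), (.s k3 k2 0
  (.s k51 k34 4 (.s k35 k19 3 (.s k153 k221 9 (.s k102 k204 14 (.d k169 k236 k253 10 13))))))] .n)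

def s5_170_79 : T TT 256 :=
  (.q k1 [(.s k33 k49 3 (.s k34 k51 4 (.s k32 k35 0 (.s k48 k16 3 (.d k3 k2 k18 0 4))))), (.s k49
  k33 3 (.s k153 k221 9 (.s k101 k205 13 (.s k117 k69 3 (.d k253 k185 k169 9 13))))), (.s k3 k2 0
  (.s k51 k34 4 (.s k35 k19 3 (.s k153 k221 9 (.s k102 k204 14 (.d k169 k236 k253 10 13))))))] .n)

def s5_170_80 : T TT 256 :=
  (.q k1 [(.s k49 k33 3 (.s k153 k221 9 (.s k101 k205 13 (.s k117 k69 3 (.d k253 k185 k169 9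
  13))))), (.s k3 k2 0 (.s k33 k49 3 (.s k18 k48 4 (.s k19 k16 0 (.d k51 k35 k34 3 4))))), (.s k3 k2
  0 (.s k51 k34 4 (.s k35 k19 3 (.s k153 k221 9 (.s k102 k204 14 (.d k169 k236 k253 10 13))))))] .n)

def s5_170_81 : T TT 256 :=
  (.q k1 [(.s k49 k33 3 (.s k153 k221 9 (.s k101 k205 13 (.s k117 k69 3 (.d k253 k185 k169 9
  13))))), (.s k3 k2 0 (.s k33 k49 3 (.s k18 k48 4 (.s k19 k16 0 (.d k51 k35 k34 3 4))))), (.s k3 k2
  0 (.s k51 k34 4 (.s k35 k19 3 (.s k153 k221 9 (.s k102 k204 14 (.d k169 k236 k253 10 13))))))] .n)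

def s5_170_82 : T TT 256 :=
  (.q k1 [(.s k33 k49 3 (.s k34 k51 4 (.s k32 k35 0 (.s k48 k16 3 (.d k3 k2 k18 0 4))))), (.s k49
  k33 3 (.s k153 k221 9 (.s k101 k205 13 (.s k117 k69 3 (.d k253 k185 k169 9 13))))), (.s k3 k2 0
  (.s k51 k34 4 (.s k35 k19 3 (.s k153 k221 9 (.s k102 k204 14 (.d k169 k236 k253 10 13))))))] .n)

def s5_170_83 : T TT 256 :=
  (.q k1 [(.s k33 k49 3 (.s k34 k51 4 (.s k32 k35 0 (.s k48 k16 3 (.d k3 k2 k18 0 4))))), (.s k49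
  k33 3 (.s k153 k221 9 (.s k101 k205 13 (.s k117 k69 3 (.d k253 k185 k169 9 13))))), (.s k3 k2 0
  (.s k51 k34 4 (.s k35 k19 3 (.s k153 k221 9 (.s k102 k204 14 (.d k169 k236 k253 10 13))))))] .n)

def s5_170_84 : T TT 256 :=
  (.q k1 [(.s k49 k33 3 (.s k153 k221 9 (.s k101 k205 13 (.s k117 k69 3 (.d k253 k185 k169 9
  13))))), (.s k3 k2 0 (.s k33 k49 3 (.s k18 k48 4 (.s k19 k16 0 (.d k51 k35 k34 3 4))))), (.s k3 k2
  0 (.s k51 k34 4 (.s k35 k19 3 (.s k153 k221 9 (.s k102 k204 14 (.d k169 k236 k253 10 13))))))] .n)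

def s5_170_86 : T TT 256 :=
  (.q k1 [(.s k33 k49 3 (.s k34 k51 4 (.s k32 k35 0 (.s k48 k16 3 (.d k3 k2 k18 0 4))))), (.s k49
  k33 3 (.s k153 k221 9 (.s k101 k205 13 (.s k117 k69 3 (.d k253 k185 k169 9 13))))), (.s k51 k34 4
  (.s k153 k221 9 (.s k102 k204 14 (.s k169 k253 13 (.s k35 k236 10 (.d k3 k2 k19 0 3))))))] (.c k2
  (.q k254 [(.s k49 k33 3 (.s k153 k221 9 (.s k169 k253 13 (.s k137 k185 3 (.d k205 k69 k101 9
  13))))), (.s k51 k34 4 (.s k153 k221 9 (.s k102 k204 14 (.s k119 k68 4 (.s k253 k169 13 (.d k255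
  k252 k187 0 9)))))), (.s k49 k33 3 (.s k51 k34 4 (.s k253 k169 13 (.s k185 k117 9 (.d k252 k255
  k118 0 10)))))] (.c k169 (.l (.s k49 k33 3 (.s k51 k34 4 (.s k153 k221 9 (.s k101 k205 13 (.s k69
  k117 3 (.s k207 k138 10 (.d k48 k50 k154 0 14)))))))) (.c k253 (.l (.s k49 k33 3 (.s k51 k34 4 (.s
  k153 k221 9 (.s k205 k101 13 (.s k69 k137 9 (.s k207 k138 10 (.d k204 k206 k102 0 14)))))))) .n)))
  (.c k254 (.l (.s k2 k3 0 (.s k49 k33 3 (.s k153 k221 9 (.s k101 k205 13 (.s k117 k69 3 (.d k253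
  k169 k185 13 9))))))) .n)))

def s5_170_87 : T TT 256 :=
  (.q k1 [(.s k33 k49 3 (.s k34 k51 4 (.s k32 k35 0 (.s k48 k16 3 (.d k3 k2 k18 0 4))))), (.s k49
  k33 3 (.s k153 k221 9 (.s k101 k205 13 (.s k117 k69 3 (.d k253 k185 k169 9 13))))), (.s k3 k2 0
  (.s k51 k34 4 (.s k35 k19 3 (.s k153 k221 9 (.s k102 k204 14 (.d k169 k236 k253 10 13))))))] .n)

def s5_170_88 : T TT 256 :=
  (.q k1 [(.s k33 k49 3 (.s k34 k51 4 (.s k32 k35 0 (.s k48 k16 3 (.d k3 k2 k18 0 4))))), (.s k49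
  k33 3 (.s k153 k221 9 (.s k101 k205 13 (.s k117 k69 3 (.d k253 k185 k169 9 13))))), (.s k3 k2 0
  (.s k51 k34 4 (.s k35 k19 3 (.s k153 k221 9 (.s k102 k204 14 (.d k169 k236 k253 10 13))))))] .n)

def s5_170_89 : T TT 256 :=
  (.f k34 k51 4 (.f k153 k221 9 (.q k16 [(.s k19 k18 0 (.s k86 k220 10 (.s k87 k84 0 (.d k223 k155
  k154 9 10)))), (.s k18 k19 0 (.s k2 k50 3 (.s k3 k1 0 (.d k48 k32 k33 3 4)))), (.s k48 k32 3 (.s
  k154 k223 10 (.s k101 k207 14 (.s k49 k205 13 (.s k1 k33 3 (.s k117 k69 3 (.d k253 k185 k169 9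
  13)))))))] (.c k8 (.q k251 [(.s k19 k18 0 (.s k86 k220 10 (.s k87 k84 0 (.d k223 k155 k154 9
  10)))), (.s k18 k19 0 (.s k2 k50 3 (.s k3 k1 0 (.d k48 k32 k33 3 4)))), (.s k48 k32 3 (.s k154
  k223 10 (.s k101 k207 14 (.s k49 k205 13 (.s k1 k33 3 (.s k117 k69 3 (.d k253 k185 k169 9
  13)))))))] .n) (.c k251 (.q k8 [(.s k19 k18 0 (.s k86 k220 10 (.s k87 k84 0 (.d k223 k155 k154 9
  10)))), (.s k12 k4 1 (.s k48 k32 3 (.s k24 k36 5 (.s k20 k28 1 (.d k40 k56 k60 3 5)))))] .n)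
  .n)))))

def s5_170_90 : T TT 256 :=
  (.f k153 k221 9 (.f k34 k51 4 (.q k16 [(.s k19 k18 0 (.s k86 k220 10 (.s k87 k84 0 (.d k223 k155
  k154 9 10)))), (.s k18 k19 0 (.s k2 k50 3 (.s k3 k1 0 (.d k48 k32 k33 3 4)))), (.s k48 k32 3 (.s
  k154 k223 10 (.s k101 k207 14 (.s k49 k205 13 (.s k1 k33 3 (.s k117 k69 3 (.d k253 k185 k169 9
  13)))))))] (.c k10 (.q k250 [(.s k19 k18 0 (.s k86 k220 10 (.s k87 k84 0 (.d k223 k155 k154 9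
  10)))), (.s k18 k19 0 (.s k2 k50 3 (.s k3 k1 0 (.d k48 k32 k33 3 4)))), (.s k48 k32 3 (.s k154
  k223 10 (.s k101 k207 14 (.s k49 k205 13 (.s k1 k33 3 (.s k117 k69 3 (.d k253 k185 k169 9
  13)))))))] .n) (.c k250 (.q k10 [(.s k19 k18 0 (.s k86 k220 10 (.s k87 k84 0 (.d k223 k155 k154 9
  10)))), (.s k18 k19 0 (.s k2 k50 3 (.s k3 k1 0 (.d k48 k32 k33 3 4)))), (.s k48 k32 3 (.s k154
  k223 10 (.s k101 k207 14 (.s k49 k205 13 (.s k1 k33 3 (.s k117 k69 3 (.d k253 k185 k169 9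
  13)))))))] .n) .n)))))

def s5_170_91 : T TT 256 :=
  (.q k1 [(.s k33 k49 3 (.s k34 k51 4 (.s k32 k35 0 (.s k48 k16 3 (.d k3 k2 k18 0 4))))), (.s k49
  k33 3 (.s k153 k221 9 (.s k101 k205 13 (.s k117 k69 3 (.d k253 k185 k169 9 13))))), (.s k3 k2 0
  (.s k51 k34 4 (.s k35 k19 3 (.s k153 k221 9 (.s k102 k204 14 (.d k169 k236 k253 10 13))))))] .n)

def s5_170_92 : T TT 256 :=
  (.q k1 [(.s k33 k49 3 (.s k34 k51 4 (.s k32 k35 0 (.s k48 k16 3 (.d k3 k2 k18 0 4))))), (.s k49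
  k33 3 (.s k153 k221 9 (.s k101 k205 13 (.s k117 k69 3 (.d k253 k185 k169 9 13))))), (.s k3 k2 0
  (.s k51 k34 4 (.s k35 k19 3 (.s k153 k221 9 (.s k102 k204 14 (.d k169 k236 k253 10 13))))))] .n)

def s5_170_93 : T TT 256 :=
  (.q k1 [(.s k33 k49 3 (.s k34 k51 4 (.s k32 k35 0 (.s k48 k16 3 (.d k3 k2 k18 0 4))))), (.s k49
  k33 3 (.s k153 k221 9 (.s k101 k205 13 (.s k117 k69 3 (.d k253 k185 k169 9 13))))), (.s k3 k2 0
  (.s k51 k34 4 (.s k35 k19 3 (.s k153 k221 9 (.s k102 k204 14 (.d k169 k236 k253 10 13))))))] .n)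

def s5_170_94 : T TT 256 :=
  (.q k1 [(.s k33 k49 3 (.s k34 k51 4 (.s k32 k35 0 (.s k48 k16 3 (.d k3 k2 k18 0 4))))), (.s k49
  k33 3 (.s k153 k221 9 (.s k101 k205 13 (.s k117 k69 3 (.d k253 k185 k169 9 13))))), (.s k3 k2 0
  (.s k51 k34 4 (.s k35 k19 3 (.s k153 k221 9 (.s k102 k204 14 (.d k169 k236 k253 10 13))))))] .n)

def s5_170_95 : T TT 256 :=
  (.q k1 [(.s k33 k49 3 (.s k34 k51 4 (.s k32 k35 0 (.s k48 k16 3 (.d k3 k2 k18 0 4))))), (.s k49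
  k33 3 (.s k153 k221 9 (.s k101 k205 13 (.s k117 k69 3 (.d k253 k185 k169 9 13))))), (.s k3 k2 0
  (.s k51 k34 4 (.s k35 k19 3 (.s k153 k221 9 (.s k102 k204 14 (.d k169 k236 k253 10 13))))))] .n)

def s5_170_96 : T TT 256 :=
  (.q k1 [(.s k33 k49 3 (.s k34 k51 4 (.s k32 k35 0 (.s k48 k16 3 (.d k3 k2 k18 0 4))))), (.s k49
  k33 3 (.s k153 k221 9 (.s k101 k205 13 (.s k117 k69 3 (.d k253 k185 k169 9 13))))), (.s k3 k2 0
  (.s k51 k34 4 (.s k35 k19 3 (.s k153 k221 9 (.s k102 k204 14 (.d k169 k236 k253 10 13))))))] .n)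

def s5_170_97 : T TT 256 :=
  (.q k1 [(.s k33 k49 3 (.s k34 k51 4 (.s k32 k35 0 (.s k48 k16 3 (.d k3 k2 k18 0 4))))), (.s k49
  k33 3 (.s k153 k221 9 (.s k101 k205 13 (.s k117 k69 3 (.d k253 k185 k169 9 13))))), (.s k3 k2 0
  (.s k51 k34 4 (.s k35 k19 3 (.s k153 k221 9 (.s k102 k204 14 (.d k169 k236 k253 10 13))))))] .n)

def s5_170_98 : T TT 256 :=
  (.q k1 [(.s k3 k2 0 (.s k33 k49 3 (.s k18 k48 4 (.s k19 k16 0 (.d k51 k35 k34 3 4))))), (.s k49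
  k33 3 (.s k153 k221 9 (.s k101 k205 13 (.s k117 k69 3 (.d k253 k185 k169 9 13))))), (.s k3 k2 0
  (.s k51 k34 4 (.s k35 k19 3 (.s k153 k221 9 (.s k102 k204 14 (.d k169 k236 k253 10 13))))))] .n)

def s5_170_99 : T TT 256 :=
  (.q k1 [(.s k3 k2 0 (.s k33 k49 3 (.s k18 k48 4 (.s k19 k16 0 (.d k51 k35 k34 3 4))))), (.s k49
  k33 3 (.s k153 k221 9 (.s k101 k205 13 (.s k117 k69 3 (.d k253 k185 k169 9 13))))), (.s k3 k2 0
  (.s k51 k34 4 (.s k35 k19 3 (.s k153 k221 9 (.s k102 k204 14 (.d k169 k236 k253 10 13))))))] .n)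

def s5_170_100 : T TT 256 :=
  (.q k1 [(.s k33 k49 3 (.s k34 k51 4 (.s k32 k35 0 (.s k48 k16 3 (.d k3 k2 k18 0 4))))), (.s k49
  k33 3 (.s k153 k221 9 (.s k101 k205 13 (.s k117 k69 3 (.d k253 k185 k169 9 13))))), (.s k3 k2 0
  (.s k51 k34 4 (.s k35 k19 3 (.s k153 k221 9 (.s k102 k204 14 (.d k169 k236 k253 10 13))))))] .n)

def s5_170_101 : T TT 256 :=
  (.f k153 k221 9 (.q k16 [(.s k19 k18 0 (.s k86 k220 10 (.s k87 k84 0 (.d k223 k155 k154 9 10)))),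
  (.s k18 k19 0 (.s k34 k51 4 (.s k2 k50 3 (.s k3 k1 0 (.d k48 k32 k33 3 4))))), (.s k51 k34 4 (.s
  k102 k204 14 (.s k154 k223 10 (.s k50 k206 13 (.d k48 k32 k49 3 0)))))] (.c k32 (.q k239 [(.s k19
  k18 0 (.s k86 k220 10 (.s k87 k84 0 (.d k223 k155 k154 9 10)))), (.s k51 k34 4 (.s k102 k204 14
  (.s k119 k68 4 (.s k223 k154 10 (.d k255 k207 k187 3 9)))))] (.c k154 (.l (.s k19 k18 0 (.s k51
  k34 4 (.s k86 k220 10 (.s k84 k87 0 (.s k252 k168 13 (.d k3 k35 k169 3 14))))))) (.c k223 (.l (.s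
  k19 k18 0 (.s k51 k34 4 (.s k220 k86 10 (.s k84 k152 9 (.s k252 k168 13 (.d k204 k236 k102 3
  14))))))) .n))) (.c k239 (.l (.s k32 k48 3 (.s k19 k18 0 (.s k86 k220 10 (.s k87 k84 0 (.d k223
  k154 k155 10 9)))))) .n))))

def s5_170_102 : T TT 256 :=
  (.q k81 [(.s k145 k209 7 (.s k162 k243 12 (.s k128 k179 4 (.s k192 k64 7 (.d k51 k34 k98 4
  12))))), (.s k89 k93 1 (.s k153 k221 9 (.s k25 k217 7 (.s k29 k21 1 (.d k209 k145 k149 7 9))))),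
  (.s k89 k93 1 (.s k153 k221 9 (.s k243 k162 12 (.s k166 k12 14 (.s k179 k140 6 (.d k51 k34 k115 4
  7))))))] (.c k34 (.q k238 [(.s k89 k93 1 (.s k153 k221 9 (.s k25 k217 7 (.s k209 k145 7 (.d k29
  k21 k149 1 9))))), (.s k89 k93 1 (.s k221 k153 9 (.s k243 k162 12 (.s k166 k12 14 (.s k247 k4 12
  (.d k255 k204 k251 4 1)))))), (.s k209 k145 7 (.s k221 k153 9 (.s k204 k255 4 (.s k217 k213 1 (.d
  k243 k230 k162 6 12)))))] (.c k153 (.l (.s k89 k93 1 (.s k209 k145 7 (.s k149 k29 9 (.s k21 k213 7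
  (.s k63 k42 6 (.s k243 k162 12 (.d k192 k226 k106 4 14)))))))) (.c k221 (.l (.s k89 k93 1 (.s k209
  k145 7 (.s k29 k149 9 (.s k21 k25 1 (.s k63 k42 6 (.s k243 k162 12 (.d k12 k46 k166 4 14))))))))
  .n))) (.c k238 (.l (.s k34 k51 4 (.s k89 k93 1 (.s k153 k221 9 (.s k25 k217 7 (.s k29 k21 1 (.d
  k209 k145 k149 7 9))))))) .n)))

def s5_170_103 : T TT 256 :=
  (.q k1 [(.s k3 k2 0 (.s k33 k49 3 (.s k18 k48 4 (.s k19 k16 0 (.d k51 k35 k34 3 4))))), (.s k49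
  k33 3 (.s k153 k221 9 (.s k101 k205 13 (.s k117 k69 3 (.d k253 k185 k169 9 13))))), (.s k3 k2 0
  (.s k51 k34 4 (.s k35 k19 3 (.s k153 k221 9 (.s k102 k204 14 (.d k169 k236 k253 10 13))))))] .n)

def s5_170_104 : T TT 256 :=
  (.q k1 [(.s k33 k49 3 (.s k34 k51 4 (.s k32 k35 0 (.s k48 k16 3 (.d k3 k2 k18 0 4))))), (.s k49
  k33 3 (.s k153 k221 9 (.s k101 k205 13 (.s k117 k69 3 (.d k253 k185 k169 9 13))))), (.s k3 k2 0
  (.s k51 k34 4 (.s k35 k19 3 (.s k153 k221 9 (.s k102 k204 14 (.d k169 k236 k253 10 13))))))] .n)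

def s5_170_105 : T TT 256 :=
  (.f k34 k51 4 (.f k153 k221 9 (.q k16 [(.s k19 k18 0 (.s k86 k220 10 (.s k87 k84 0 (.d k223 k155
  k154 9 10)))), (.s k18 k19 0 (.s k2 k50 3 (.s k3 k1 0 (.d k48 k32 k33 3 4)))), (.s k48 k32 3 (.s
  k154 k223 10 (.s k101 k207 14 (.s k49 k205 13 (.s k1 k33 3 (.s k117 k69 3 (.d k253 k185 k169 9
  13)))))))] (.c k40 (.q k235 [(.s k19 k18 0 (.s k86 k220 10 (.s k87 k84 0 (.d k223 k155 k154 9
  10)))), (.s k18 k19 0 (.s k2 k50 3 (.s k3 k1 0 (.d k48 k32 k33 3 4)))), (.s k48 k32 3 (.s k154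
  k223 10 (.s k101 k207 14 (.s k49 k205 13 (.s k1 k33 3 (.s k117 k69 3 (.d k253 k185 k169 9
  13)))))))] .n) (.c k235 (.q k40 [(.s k19 k18 0 (.s k86 k220 10 (.s k87 k84 0 (.d k223 k155 k154 9
  10)))), (.s k20 k60 5 (.s k24 k28 1 (.s k8 k56 3 (.s k12 k4 1 (.d k48 k32 k36 3 5)))))] (.c k154
  (.l (.s k18 k19 0 (.s k2 k50 3 (.s k3 k1 0 (.d k48 k32 k33 3 4))))) .n)) .n)))))

def s5_170_106 : T TT 256 :=
  (.f k153 k221 9 (.q k21 [(.s k29 k25 1 (.s k149 k213 7 (.s k145 k157 1 (.d k209 k81 k89 7 9)))),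
  (.s k25 k29 1 (.s k51 k34 4 (.s k12 k38 6 (.s k8 k4 1 (.d k42 k59 k63 4 6))))), (.s k51 k34 4 (.s
  k102 k204 14 (.s k149 k213 7 (.s k55 k196 12 (.d k63 k42 k59 6 1)))))] (.c k42 (.q k234 [(.s k149
  k213 7 (.s k145 k157 1 (.s k209 k81 7 (.d k29 k25 k89 1 9)))), (.s k51 k34 4 (.s k102 k204 14 (.s
  k119 k68 4 (.s k213 k149 7 (.d k255 k192 k187 6 9))))), (.s k25 k29 1 (.s k51 k34 4 (.s k38 k12 6
  (.s k4 k55 4 (.s k102 k204 14 (.d k166 k230 k247 7 12))))))] .n) (.c k234 (.l (.s k42 k63 6 (.s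
  k25 k29 1 (.s k8 k59 4 (.s k12 k4 1 (.d k51 k34 k38 4 6)))))) .n))))

def s5_170_107 : T TT 256 :=
  (.q k1 [(.s k33 k49 3 (.s k34 k51 4 (.s k32 k35 0 (.s k48 k16 3 (.d k3 k2 k18 0 4))))), (.s k49
  k33 3 (.s k153 k221 9 (.s k101 k205 13 (.s k117 k69 3 (.d k253 k185 k169 9 13))))), (.s k3 k2 0
  (.s k51 k34 4 (.s k35 k19 3 (.s k153 k221 9 (.s k102 k204 14 (.d k169 k236 k253 10 13))))))] .n)

def s5_170_108 : T TT 256 :=
  (.q k1 [(.s k33 k49 3 (.s k34 k51 4 (.s k32 k35 0 (.s k48 k16 3 (.d k3 k2 k18 0 4))))), (.s k49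
  k33 3 (.s k153 k221 9 (.s k101 k205 13 (.s k117 k69 3 (.d k253 k185 k169 9 13))))), (.s k3 k2 0
  (.s k51 k34 4 (.s k35 k19 3 (.s k153 k221 9 (.s k102 k204 14 (.d k169 k236 k253 10 13))))))] .n)

def s5_170_109 : T TT 256 :=
  (.q k1 [(.s k33 k49 3 (.s k34 k51 4 (.s k32 k35 0 (.s k48 k16 3 (.d k3 k2 k18 0 4))))), (.s k49
  k33 3 (.s k153 k221 9 (.s k101 k205 13 (.s k117 k69 3 (.d k253 k185 k169 9 13))))), (.s k3 k2 0
  (.s k51 k34 4 (.s k35 k19 3 (.s k153 k221 9 (.s k102 k204 14 (.d k169 k236 k253 10 13))))))] .n)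

def s5_170_110 : T TT 256 :=
  (.q k1 [(.s k33 k49 3 (.s k34 k51 4 (.s k32 k35 0 (.s k48 k16 3 (.d k3 k2 k18 0 4))))), (.s k49
  k33 3 (.s k153 k221 9 (.s k101 k205 13 (.s k117 k69 3 (.d k253 k185 k169 9 13))))), (.s k3 k2 0
  (.s k51 k34 4 (.s k35 k19 3 (.s k153 k221 9 (.s k102 k204 14 (.d k169 k236 k253 10 13))))))] .n)

def s5_170_111 : T TT 256 :=
  (.q k1 [(.s k33 k49 3 (.s k34 k51 4 (.s k32 k35 0 (.s k48 k16 3 (.d k3 k2 k18 0 4))))), (.s k49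
  k33 3 (.s k153 k221 9 (.s k101 k205 13 (.s k117 k69 3 (.d k253 k185 k169 9 13))))), (.s k3 k2 0
  (.s k51 k34 4 (.s k35 k19 3 (.s k153 k221 9 (.s k102 k204 14 (.d k169 k236 k253 10 13))))))] .n)

def s5_170_112 : T TT 256 :=
  (.q k1 [(.s k33 k49 3 (.s k34 k51 4 (.s k32 k35 0 (.s k48 k16 3 (.d k3 k2 k18 0 4))))), (.s k49
  k33 3 (.s k153 k221 9 (.s k101 k205 13 (.s k117 k69 3 (.d k253 k185 k169 9 13))))), (.s k3 k2 0
  (.s k51 k34 4 (.s k35 k19 3 (.s k153 k221 9 (.s k102 k204 14 (.d k169 k236 k253 10 13))))))] .n)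

def s5_170_113 : T TT 256 :=
  (.q k1 [(.s k49 k33 3 (.s k153 k221 9 (.s k101 k205 13 (.s k117 k69 3 (.d k253 k185 k169 9
  13))))), (.s k3 k2 0 (.s k33 k49 3 (.s k18 k48 4 (.s k19 k16 0 (.d k51 k35 k34 3 4))))), (.s k3 k2
  0 (.s k51 k34 4 (.s k35 k19 3 (.s k153 k221 9 (.s k102 k204 14 (.d k169 k236 k253 10 13))))))] .n)

def s5_170_114 : T TT 256 :=
  (.q k1 [(.s k3 k2 0 (.s k33 k49 3 (.s k18 k48 4 (.s k19 k16 0 (.d k51 k35 k34 3 4))))), (.s k49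
  k33 3 (.s k153 k221 9 (.s k101 k205 13 (.s k117 k69 3 (.d k253 k185 k169 9 13))))), (.s k3 k2 0
  (.s k51 k34 4 (.s k35 k19 3 (.s k153 k221 9 (.s k102 k204 14 (.d k169 k236 k253 10 13))))))] .n)

def s5_170_115 : T TT 256 :=
  (.q k1 [(.s k3 k2 0 (.s k33 k49 3 (.s k18 k48 4 (.s k19 k16 0 (.d k51 k35 k34 3 4))))), (.s k49
  k33 3 (.s k153 k221 9 (.s k101 k205 13 (.s k117 k69 3 (.d k253 k185 k169 9 13))))), (.s k3 k2 0
  (.s k51 k34 4 (.s k35 k19 3 (.s k153 k221 9 (.s k102 k204 14 (.d k169 k236 k253 10 13))))))] .n)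

def s5_170_116 : T TT 256 :=
  (.q k1 [(.s k33 k49 3 (.s k34 k51 4 (.s k32 k35 0 (.s k48 k16 3 (.d k3 k2 k18 0 4))))), (.s k49
  k33 3 (.s k153 k221 9 (.s k101 k205 13 (.s k117 k69 3 (.d k253 k185 k169 9 13))))), (.s k3 k2 0
  (.s k51 k34 4 (.s k35 k19 3 (.s k153 k221 9 (.s k102 k204 14 (.d k169 k236 k253 10 13))))))] .n)

def s5_170_117 : T TT 256 :=
  (.q k1 [(.s k49 k33 3 (.s k153 k221 9 (.s k169 k253 13 (.s k137 k185 3 (.d k205 k69 k101 9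
  13))))), (.s k3 k2 0 (.s k51 k34 4 (.s k19 k35 3 (.s k18 k16 0 (.d k33 k49 k48 3 4))))), (.s k3 k2
  0 (.s k51 k34 4 (.s k35 k19 3 (.s k153 k221 9 (.s k102 k204 14 (.d k169 k236 k253 10 13))))))] .n)

def s5_170_118 : T TT 256 :=
  (.q k1 [(.s k3 k2 0 (.s k33 k49 3 (.s k18 k48 4 (.s k19 k16 0 (.d k51 k35 k34 3 4))))), (.s k49
  k33 3 (.s k153 k221 9 (.s k101 k205 13 (.s k117 k69 3 (.d k253 k185 k169 9 13))))), (.s k3 k2 0
  (.s k51 k34 4 (.s k35 k19 3 (.s k153 k221 9 (.s k102 k204 14 (.d k169 k236 k253 10 13))))))] .n)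

def s5_170_119 : T TT 256 :=
  (.q k1 [(.s k3 k2 0 (.s k33 k49 3 (.s k18 k48 4 (.s k19 k16 0 (.d k51 k35 k34 3 4))))), (.s k49
  k33 3 (.s k153 k221 9 (.s k101 k205 13 (.s k117 k69 3 (.d k253 k185 k169 9 13))))), (.s k3 k2 0
  (.s k51 k34 4 (.s k35 k19 3 (.s k153 k221 9 (.s k102 k204 14 (.d k169 k236 k253 10 13))))))] .n)

def s5_170_120 : T TT 256 :=
  (.q k1 [(.s k33 k49 3 (.s k34 k51 4 (.s k32 k35 0 (.s k48 k16 3 (.d k3 k2 k18 0 4))))), (.s k49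
  k33 3 (.s k153 k221 9 (.s k101 k205 13 (.s k117 k69 3 (.d k253 k185 k169 9 13))))), (.s k3 k2 0
  (.s k51 k34 4 (.s k35 k19 3 (.s k153 k221 9 (.s k102 k204 14 (.d k169 k236 k253 10 13))))))] .n)

def s5_170_121 : T TT 256 :=
  (.q k1 [(.s k33 k49 3 (.s k34 k51 4 (.s k32 k35 0 (.s k48 k16 3 (.d k3 k2 k18 0 4))))), (.s k49
  k33 3 (.s k153 k221 9 (.s k101 k205 13 (.s k117 k69 3 (.d k253 k185 k169 9 13))))), (.s k3 k2 0
  (.s k51 k34 4 (.s k35 k19 3 (.s k153 k221 9 (.s k102 k204 14 (.d k169 k236 k253 10 13))))))] .n)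

def s5_170_122 : T TT 256 :=
  (.q k1 [(.s k33 k49 3 (.s k34 k51 4 (.s k32 k35 0 (.s k48 k16 3 (.d k3 k2 k18 0 4))))), (.s k49
  k33 3 (.s k153 k221 9 (.s k101 k205 13 (.s k117 k69 3 (.d k253 k185 k169 9 13))))), (.s k3 k2 0
  (.s k51 k34 4 (.s k35 k19 3 (.s k153 k221 9 (.s k102 k204 14 (.d k169 k236 k253 10 13))))))] .n)

def s5_170_123 : T TT 256 :=
  (.q k1 [(.s k33 k49 3 (.s k34 k51 4 (.s k32 k35 0 (.s k48 k16 3 (.d k3 k2 k18 0 4))))), (.s k49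
  k33 3 (.s k153 k221 9 (.s k101 k205 13 (.s k117 k69 3 (.d k253 k185 k169 9 13))))), (.s k3 k2 0
  (.s k51 k34 4 (.s k35 k19 3 (.s k153 k221 9 (.s k102 k204 14 (.d k169 k236 k253 10 13))))))] .n)

def s5_170_124 : T TT 256 :=
  (.q k1 [(.s k33 k49 3 (.s k34 k51 4 (.s k32 k35 0 (.s k48 k16 3 (.d k3 k2 k18 0 4))))), (.s k49
  k33 3 (.s k153 k221 9 (.s k101 k205 13 (.s k117 k69 3 (.d k253 k185 k169 9 13))))), (.s k3 k2 0
  (.s k51 k34 4 (.s k35 k19 3 (.s k153 k221 9 (.s k102 k204 14 (.d k169 k236 k253 10 13))))))] .n)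

def s5_170_125 : T TT 256 :=
  (.q k1 [(.s k33 k49 3 (.s k34 k51 4 (.s k32 k35 0 (.s k48 k16 3 (.d k3 k2 k18 0 4))))), (.s k49
  k33 3 (.s k153 k221 9 (.s k101 k205 13 (.s k117 k69 3 (.d k253 k185 k169 9 13))))), (.s k3 k2 0
  (.s k51 k34 4 (.s k35 k19 3 (.s k153 k221 9 (.s k102 k204 14 (.d k169 k236 k253 10 13))))))] .n)

def s5_170_126 : T TT 256 :=
  (.q k1 [(.s k33 k49 3 (.s k34 k51 4 (.s k32 k35 0 (.s k48 k16 3 (.d k3 k2 k18 0 4))))), (.s k49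
  k33 3 (.s k153 k221 9 (.s k101 k205 13 (.s k117 k69 3 (.d k253 k185 k169 9 13))))), (.s k3 k2 0
  (.s k51 k34 4 (.s k35 k19 3 (.s k153 k221 9 (.s k102 k204 14 (.d k169 k236 k253 10 13))))))] .n)

def s5_170_127 : T TT 256 :=
  (.q k1 [(.s k33 k49 3 (.s k34 k51 4 (.s k32 k35 0 (.s k48 k16 3 (.d k3 k2 k18 0 4))))), (.s k49
  k33 3 (.s k153 k221 9 (.s k101 k205 13 (.s k117 k69 3 (.d k253 k185 k169 9 13))))), (.s k3 k2 0
  (.s k51 k34 4 (.s k35 k19 3 (.s k153 k221 9 (.s k102 k204 14 (.d k169 k236 k253 10 13))))))] .n)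

def s5_170_128 : T TT 256 :=
  (.q k149 [(.s k21 k213 7 (.s k29 k25 1 (.s k89 k209 9 (.s k93 k81 1 (.d k221 k157 k153 7 9))))),
  (.s k21 k213 7 (.s k25 k29 1 (.s k42 k63 6 (.s k8 k59 4 (.s k12 k4 1 (.d k51 k34 k38 4 6)))))),
  (.s k51 k34 4 (.s k153 k221 9 (.s k102 k204 14 (.s k55 k196 12 (.s k63 k59 1 (.s k145 k157 1 (.d
  k192 k98 k106 12 14)))))))] (.c k29 (.l (.s k21 k213 7 (.s k51 k34 4 (.s k63 k42 6 (.s k55 k59 1
  (.s k102 k196 12 (.d k153 k221 k204 9 14))))))) .n))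

def s5_170_129 : T TT 256 :=
  (.q k1 [(.s k33 k49 3 (.s k34 k51 4 (.s k32 k35 0 (.s k48 k16 3 (.d k3 k2 k18 0 4))))), (.s k49
  k33 3 (.s k153 k221 9 (.s k101 k205 13 (.s k117 k69 3 (.d k253 k185 k169 9 13))))), (.s k3 k2 0
  (.s k51 k34 4 (.s k35 k19 3 (.s k153 k221 9 (.s k102 k204 14 (.d k169 k236 k253 10 13))))))] .n)

def s5_170_130 : T TT 256 :=
  (.f k153 k221 9 (.q k150 [(.s k20 k215 8 (.s k51 k34 4 (.s k60 k40 5 (.s k54 k57 2 (.d k102 k198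
  k204 11 14))))), (.s k20 k215 8 (.s k60 k40 5 (.s k156 k147 2 (.s k204 k108 11 (.s k68 k136 9 (.d
  k102 k119 k51 4 14)))))), (.s k51 k34 4 (.s k102 k204 14 (.s k54 k198 11 (.s k60 k57 2 (.s k147
  k156 2 (.d k195 k99 k105 11 14))))))] (.c k51 (.q k1 [(.s k49 k33 3 (.s k101 k205 13 (.s k117 k69
  3 (.d k253 k185 k169 9 13)))), (.s k3 k2 0 (.s k20 k215 8 (.s k60 k40 5 (.s k22 k41 6 (.s k86 k214
  7 (.s k84 k87 0 (.d k252 k168 k169 13 14)))))))] (.c k169 (.l (.s k20 k215 8 (.s k49 k33 3 (.s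
  k101 k205 13 (.s k52 k199 12 (.s k4 k36 3 (.s k117 k69 3 (.d k247 k182 k166 8 12)))))))) .n)) (.c
  k60 (.l (.s k51 k34 4 (.s k102 k204 14 (.s k119 k68 4 (.s k215 k20 8 (.s k255 k187 9 (.s k195 k235
  5 (.d k147 k156 k99 2 11)))))))) (.c k102 (.l (.s k20 k215 8 (.s k60 k40 5 (.s k105 k195 14 (.s
  k57 k201 11 (.d k51 k54 k34 2 4)))))) (.c k105 (.l (.s k20 k215 8 (.s k51 k34 4 (.s k102 k204 14
  (.s k54 k198 11 (.d k60 k57 k40 2 5)))))) (.c k204 (.l (.s k20 k215 8 (.s k51 k34 4 (.s k60 k40 5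
  (.s k57 k54 2 (.d k105 k201 k195 11 14)))))) .n)))))))

def s5_170_131 : T TT 256 :=
  (.q k1 [(.s k33 k49 3 (.s k34 k51 4 (.s k32 k35 0 (.s k48 k16 3 (.d k3 k2 k18 0 4))))), (.s k49
  k33 3 (.s k153 k221 9 (.s k101 k205 13 (.s k117 k69 3 (.d k253 k185 k169 9 13))))), (.s k3 k2 0
  (.s k51 k34 4 (.s k35 k19 3 (.s k153 k221 9 (.s k102 k204 14 (.d k169 k236 k253 10 13))))))] .n)

def s5_170_132 : T TT 256 :=
  (.q k1 [(.s k33 k49 3 (.s k34 k51 4 (.s k32 k35 0 (.s k48 k16 3 (.d k3 k2 k18 0 4))))), (.s k49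
  k33 3 (.s k153 k221 9 (.s k101 k205 13 (.s k117 k69 3 (.d k253 k185 k169 9 13))))), (.s k3 k2 0
  (.s k51 k34 4 (.s k35 k19 3 (.s k153 k221 9 (.s k102 k204 14 (.d k169 k236 k253 10 13))))))] .n)

def s5_170_133 : T TT 256 :=
  (.f k153 k221 9 (.q k101 [(.s k49 k205 13 (.s k1 k33 3 (.s k253 k169 13 (.d k117 k69 k185 3 9)))),
  (.s k51 k34 4 (.s k69 k117 3 (.s k102 k204 14 (.s k103 k100 0 (.d k207 k138 k155 10 13)))))] (.c
  k69 (.q k197 [(.s k149 k53 11 (.s k21 k213 7 (.s k29 k25 1 (.s k145 k157 1 (.d k209 k81 k89 7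
  9))))), (.s k49 k205 13 (.s k51 k34 4 (.s k48 k50 0 (.s k16 k32 3 (.d k154 k223 k207 10 14)))))]
  .n) (.c k117 (.l (.s k49 k205 13 (.s k51 k34 4 (.s k48 k50 0 (.s k16 k32 3 (.d k154 k223 k207 10
  14)))))) (.c k197 (.l (.s k69 k117 3 (.s k49 k205 13 (.s k51 k34 4 (.s k48 k50 0 (.d k207 k138
  k154 10 14)))))) .n)))))

def s5_170_134 : T TT 256 :=
  (.q k1 [(.s k33 k49 3 (.s k34 k51 4 (.s k32 k35 0 (.s k48 k16 3 (.d k3 k2 k18 0 4))))), (.s k49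
  k33 3 (.s k153 k221 9 (.s k101 k205 13 (.s k117 k69 3 (.d k253 k185 k169 9 13))))), (.s k3 k2 0
  (.s k51 k34 4 (.s k35 k19 3 (.s k153 k221 9 (.s k102 k204 14 (.d k169 k236 k253 10 13))))))] .n)

def s5_170_135 : T TT 256 :=
  (.q k1 [(.s k33 k49 3 (.s k34 k51 4 (.s k32 k35 0 (.s k48 k16 3 (.d k3 k2 k18 0 4))))), (.s k49
  k33 3 (.s k153 k221 9 (.s k101 k205 13 (.s k117 k69 3 (.d k253 k185 k169 9 13))))), (.s k3 k2 0
  (.s k51 k34 4 (.s k35 k19 3 (.s k153 k221 9 (.s k102 k204 14 (.d k169 k236 k253 10 13))))))] .n)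

def s5_170_136 : T TT 256 :=
  (.f k34 k51 4 (.f k153 k221 9 (.q k1 [(.s k33 k49 3 (.s k32 k35 0 (.s k48 k16 3 (.d k3 k2 k18 0
  4)))), (.s k49 k33 3 (.s k101 k205 13 (.s k117 k69 3 (.d k253 k185 k169 9 13)))), (.s k3 k2 0 (.s
  k169 k253 13 (.s k86 k252 14 (.s k19 k220 10 (.s k16 k18 0 (.s k87 k84 0 (.d k223 k155 k154 9
  10)))))))] .n)))

def s5_170_137 : T TT 256 :=
  (.q k1 [(.s k33 k49 3 (.s k34 k51 4 (.s k32 k35 0 (.s k48 k16 3 (.d k3 k2 k18 0 4))))), (.s k49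
  k33 3 (.s k153 k221 9 (.s k101 k205 13 (.s k117 k69 3 (.d k253 k185 k169 9 13))))), (.s k3 k2 0
  (.s k51 k34 4 (.s k35 k19 3 (.s k153 k221 9 (.s k102 k204 14 (.d k169 k236 k253 10 13))))))] .n)

def s5_170_138 : T TT 256 :=
  (.q k154 [(.s k16 k223 10 (.s k19 k18 0 (.s k153 k221 9 (.s k152 k155 0 (.d k220 k84 k86 9
  10))))), (.s k51 k34 4 (.s k153 k221 9 (.s k102 k204 14 (.s k50 k206 13 (.s k48 k49 0 (.s k155
  k152 0 (.d k207 k103 k101 13 14))))))), (.s k16 k223 10 (.s k48 k32 3 (.s k51 k34 4 (.s k49 k50 0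
  (.s k33 k1 3 (.d k18 k19 k3 0 4))))))] .n)

def s5_170_139 : T TT 256 :=
  (.q k1 [(.s k33 k49 3 (.s k34 k51 4 (.s k32 k35 0 (.s k48 k16 3 (.d k3 k2 k18 0 4))))), (.s k49
  k33 3 (.s k153 k221 9 (.s k101 k205 13 (.s k117 k69 3 (.d k253 k185 k169 9 13))))), (.s k3 k2 0
  (.s k51 k34 4 (.s k35 k19 3 (.s k153 k221 9 (.s k102 k204 14 (.d k169 k236 k253 10 13))))))] .n)

def s5_170_140 : T TT 256 :=
  (.q k1 [(.s k33 k49 3 (.s k34 k51 4 (.s k32 k35 0 (.s k48 k16 3 (.d k3 k2 k18 0 4))))), (.s k49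
  k33 3 (.s k153 k221 9 (.s k101 k205 13 (.s k117 k69 3 (.d k253 k185 k169 9 13))))), (.s k3 k2 0
  (.s k51 k34 4 (.s k35 k19 3 (.s k153 k221 9 (.s k102 k204 14 (.d k169 k236 k253 10 13))))))] .n)

def s5_170_141 : T TT 256 :=
  (.q k1 [(.s k33 k49 3 (.s k34 k51 4 (.s k32 k35 0 (.s k48 k16 3 (.d k3 k2 k18 0 4))))), (.s k49
  k33 3 (.s k153 k221 9 (.s k101 k205 13 (.s k117 k69 3 (.d k253 k185 k169 9 13))))), (.s k3 k2 0
  (.s k51 k34 4 (.s k35 k19 3 (.s k153 k221 9 (.s k102 k204 14 (.d k169 k236 k253 10 13))))))] .n)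

def s5_170_142 : T TT 256 :=
  (.q k1 [(.s k33 k49 3 (.s k34 k51 4 (.s k32 k35 0 (.s k48 k16 3 (.d k3 k2 k18 0 4))))), (.s k49
  k33 3 (.s k153 k221 9 (.s k101 k205 13 (.s k117 k69 3 (.d k253 k185 k169 9 13))))), (.s k3 k2 0
  (.s k51 k34 4 (.s k35 k19 3 (.s k153 k221 9 (.s k102 k204 14 (.d k169 k236 k253 10 13))))))] .n)

def s5_170_143 : T TT 256 :=
  (.q k1 [(.s k33 k49 3 (.s k34 k51 4 (.s k32 k35 0 (.s k48 k16 3 (.d k3 k2 k18 0 4))))), (.s k49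
  k33 3 (.s k153 k221 9 (.s k101 k205 13 (.s k117 k69 3 (.d k253 k185 k169 9 13))))), (.s k3 k2 0
  (.s k51 k34 4 (.s k35 k19 3 (.s k153 k221 9 (.s k102 k204 14 (.d k169 k236 k253 10 13))))))] .n)

def s5_170_144 : T TT 256 :=
  (.q k1 [(.s k49 k33 3 (.s k153 k221 9 (.s k101 k205 13 (.s k117 k69 3 (.d k253 k185 k169 9
  13))))), (.s k3 k2 0 (.s k33 k49 3 (.s k18 k48 4 (.s k19 k16 0 (.d k51 k35 k34 3 4))))), (.s k3 k2
  0 (.s k51 k34 4 (.s k35 k19 3 (.s k153 k221 9 (.s k102 k204 14 (.d k169 k236 k253 10 13))))))] .n)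

def s5_170_145 : T TT 256 :=
  (.q k1 [(.s k49 k33 3 (.s k153 k221 9 (.s k101 k205 13 (.s k117 k69 3 (.d k253 k185 k169 9
  13))))), (.s k3 k2 0 (.s k33 k49 3 (.s k18 k48 4 (.s k19 k16 0 (.d k51 k35 k34 3 4))))), (.s k3 k2
  0 (.s k51 k34 4 (.s k35 k19 3 (.s k153 k221 9 (.s k102 k204 14 (.d k169 k236 k253 10 13))))))] .n)

def s5_170_146 : T TT 256 :=
  (.q k1 [(.s k49 k33 3 (.s k153 k221 9 (.s k101 k205 13 (.s k117 k69 3 (.d k253 k185 k169 9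
  13))))), (.s k3 k2 0 (.s k33 k49 3 (.s k18 k48 4 (.s k19 k16 0 (.d k51 k35 k34 3 4))))), (.s k3 k2
  0 (.s k51 k34 4 (.s k35 k19 3 (.s k153 k221 9 (.s k102 k204 14 (.d k169 k236 k253 10 13))))))] .n)

def s5_170_147 : T TT 256 :=
  (.q k1 [(.s k3 k2 0 (.s k33 k49 3 (.s k18 k48 4 (.s k19 k16 0 (.d k51 k35 k34 3 4))))), (.s k49
  k33 3 (.s k153 k221 9 (.s k101 k205 13 (.s k117 k69 3 (.d k253 k185 k169 9 13))))), (.s k3 k2 0
  (.s k51 k34 4 (.s k35 k19 3 (.s k153 k221 9 (.s k102 k204 14 (.d k169 k236 k253 10 13))))))] .n)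

def s5_170_148 : T TT 256 :=
  (.q k1 [(.s k33 k49 3 (.s k34 k51 4 (.s k32 k35 0 (.s k48 k16 3 (.d k3 k2 k18 0 4))))), (.s k49
  k33 3 (.s k153 k221 9 (.s k101 k205 13 (.s k117 k69 3 (.d k253 k185 k169 9 13))))), (.s k3 k2 0
  (.s k51 k34 4 (.s k35 k19 3 (.s k153 k221 9 (.s k102 k204 14 (.d k169 k236 k253 10 13))))))] .n)

def s5_170_149 : T TT 256 :=
  (.f k34 k51 4 (.f k153 k221 9 (.q k16 [(.s k19 k18 0 (.s k86 k220 10 (.s k87 k84 0 (.d k223 k155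
  k154 9 10)))), (.s k18 k19 0 (.s k2 k50 3 (.s k3 k1 0 (.d k48 k32 k33 3 4)))), (.s k48 k32 3 (.s
  k154 k223 10 (.s k101 k207 14 (.s k49 k205 13 (.s k1 k33 3 (.s k117 k69 3 (.d k253 k185 k169 9
  13)))))))] (.c k128 (.q k191 [(.s k19 k18 0 (.s k86 k220 10 (.s k87 k84 0 (.d k223 k155 k154 9
  10)))), (.s k18 k19 0 (.s k2 k50 3 (.s k3 k1 0 (.d k48 k32 k33 3 4)))), (.s k48 k32 3 (.s k154
  k223 10 (.s k101 k207 14 (.s k49 k205 13 (.s k1 k33 3 (.s k117 k69 3 (.d k253 k185 k169 9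
  13)))))))] .n) (.c k191 (.q k128 [(.s k19 k18 0 (.s k86 k220 10 (.s k87 k84 0 (.d k223 k155 k154 9
  10)))), (.s k48 k32 3 (.s k192 k64 7 (.s k144 k96 11 (.s k80 k208 7 (.d k160 k176 k240 3 11)))))]
  .n) .n)))))

def s5_170_150 : T TT 256 :=
  (.f k34 k51 4 (.f k153 k221 9 (.q k16 [(.s k19 k18 0 (.s k86 k220 10 (.s k87 k84 0 (.d k223 k155
  k154 9 10)))), (.s k18 k19 0 (.s k2 k50 3 (.s k3 k1 0 (.d k48 k32 k33 3 4)))), (.s k48 k32 3 (.s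
  k154 k223 10 (.s k101 k207 14 (.s k49 k205 13 (.s k1 k33 3 (.s k117 k69 3 (.d k253 k185 k169 9
  13)))))))] (.c k130 (.q k190 [(.s k19 k18 0 (.s k86 k220 10 (.s k87 k84 0 (.d k223 k155 k154 9
  10)))), (.s k18 k19 0 (.s k2 k50 3 (.s k3 k1 0 (.d k48 k32 k33 3 4)))), (.s k48 k32 3 (.s k154
  k223 10 (.s k101 k207 14 (.s k49 k205 13 (.s k1 k33 3 (.s k117 k69 3 (.d k253 k185 k169 9
  13)))))))] .n) (.c k190 (.q k130 [(.s k19 k18 0 (.s k86 k220 10 (.s k87 k84 0 (.d k223 k155 k154 9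
  10)))), (.s k48 k32 3 (.s k195 k65 8 (.s k146 k97 12 (.s k81 k211 8 (.d k162 k178 k243 3 12)))))]
  .n) .n)))))

def s5_170_151 : T TT 256 :=
  (.q k1 [(.s k33 k49 3 (.s k34 k51 4 (.s k32 k35 0 (.s k48 k16 3 (.d k3 k2 k18 0 4))))), (.s k49
  k33 3 (.s k153 k221 9 (.s k101 k205 13 (.s k117 k69 3 (.d k253 k185 k169 9 13))))), (.s k3 k2 0
  (.s k51 k34 4 (.s k35 k19 3 (.s k153 k221 9 (.s k102 k204 14 (.d k169 k236 k253 10 13))))))] .n)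

def s5_170_152 : T TT 256 :=
  (.q k1 [(.s k49 k33 3 (.s k153 k221 9 (.s k101 k205 13 (.s k117 k69 3 (.d k253 k185 k169 9
  13))))), (.s k3 k2 0 (.s k33 k49 3 (.s k18 k48 4 (.s k19 k16 0 (.d k51 k35 k34 3 4))))), (.s k3 k2
  0 (.s k51 k34 4 (.s k35 k19 3 (.s k153 k221 9 (.s k102 k204 14 (.d k169 k236 k253 10 13))))))] .n)

def s5_170_153 : T TT 256 :=
  (.q k3 [(.s k1 k2 0 (.s k33 k49 3 (.s k18 k48 4 (.s k19 k16 0 (.d k51 k35 k34 3 4))))), (.s k2 k1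
  0 (.s k34 k51 4 (.s k18 k50 3 (.s k48 k33 4 (.d k16 k19 k32 0 3))))), (.s k1 k2 0 (.s k33 k49 3
  (.s k48 k18 4 (.s k169 k253 13 (.s k101 k237 9 (.s k207 k154 14 (.d k69 k117 k138 3 10)))))))] (.c
  k1 (.q k12 [(.s k51 k34 4 (.s k25 k38 6 (.s k21 k29 1 (.s k42 k63 6 (.d k8 k4 k59 1 4))))), (.s k4
  k8 1 (.s k9 k6 2 (.s k166 k247 12 (.s k89 k243 14 (.s k169 k249 11 (.s k172 k163 2 (.d k252 k92
  k86 11 14))))))), (.s k51 k34 4 (.s k19 k35 3 (.s k25 k38 6 (.s k22 k28 2 (.s k41 k60 6 (.d k9 k6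
  k57 2 3))))))] (.c k9 (.q k13 [(.s k51 k34 4 (.s k25 k38 6 (.s k21 k29 1 (.s k42 k63 6 (.d k8 k4
  k59 1 4))))), (.s k4 k8 1 (.s k15 k14 0 (.s k166 k247 12 (.s k89 k243 14 (.s k165 k241 13 (.s k164
  k167 0 (.d k240 k88 k90 13 14))))))), (.s k15 k14 0 (.s k51 k34 4 (.s k25 k38 6 (.s k27 k39 5 (.s
  k26 k24 0 (.d k37 k49 k48 5 6))))))] (.c k136 (.q k187 [(.s k51 k34 4 (.s k25 k38 6 (.s k21 k29 1
  (.s k42 k63 6 (.d k8 k4 k59 1 4))))), (.s k4 k8 1 (.s k15 k14 0 (.s k166 k247 12 (.s k89 k243 14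
  (.s k165 k241 13 (.s k164 k167 0 (.d k240 k88 k90 13 14))))))), (.s k15 k14 0 (.s k51 k34 4 (.s
  k25 k38 6 (.s k27 k39 5 (.s k26 k24 0 (.d k37 k49 k48 5 6))))))] .n) (.c k187 (.q k136 [(.s k8 k4
  1 (.s k51 k34 4 (.s k25 k38 6 (.s k21 k29 1 (.d k42 k59 k63 4 6))))), (.s k4 k8 1 (.s k68 k204 9
  (.s k132 k196 7 (.s k128 k140 1 (.d k192 k64 k72 7 9))))), (.s k15 k14 0 (.s k51 k34 4 (.s k25 k38
  6 (.s k27 k39 5 (.s k26 k24 0 (.d k37 k49 k48 5 6)))))), (.s k8 k4 1 (.s k72 k200 7 (.s k132 k192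
  9 (.s k140 k128 1 (.d k204 k76 k68 7 9)))))] .n) .n))) (.c k13 (.l (.s k9 k6 2 (.s k51 k34 4 (.s
  k19 k35 3 (.s k25 k38 6 (.s k22 k28 2 (.d k41 k57 k60 3 6))))))) (.c k136 (.q k187 [(.s k51 k34 4
  (.s k25 k38 6 (.s k21 k29 1 (.s k42 k63 6 (.d k8 k4 k59 1 4))))), (.s k4 k8 1 (.s k9 k6 2 (.s k166
  k247 12 (.s k89 k243 14 (.s k169 k249 11 (.s k172 k163 2 (.d k252 k92 k86 11 14))))))), (.s k51
  k34 4 (.s k19 k35 3 (.s k16 k18 0 (.s k223 k154 10 (.s k255 k119 9 (.d k87 k155 k171 9 13))))))]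
  (.c k9 (.q k13 [(.s k51 k34 4 (.s k25 k38 6 (.s k21 k29 1 (.s k42 k63 6 (.d k8 k4 k59 1 4))))),
  (.s k4 k8 1 (.s k15 k14 0 (.s k166 k247 12 (.s k89 k243 14 (.s k165 k241 13 (.s k164 k167 0 (.d
  k240 k88 k90 13 14))))))), (.s k15 k14 0 (.s k51 k34 4 (.s k25 k38 6 (.s k27 k39 5 (.s k26 k24 0
  (.d k37 k49 k48 5 6))))))] .n) (.c k13 (.l (.s k9 k6 2 (.s k51 k34 4 (.s k19 k35 3 (.s k25 k38 6
  (.s k22 k28 2 (.d k41 k57 k60 3 6))))))) .n))) (.c k187 (.q k136 [(.s k4 k8 1 (.s k68 k204 9 (.s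
  k132 k196 7 (.s k192 k72 9 (.d k128 k140 k64 1 7))))), (.s k51 k34 4 (.s k19 k35 3 (.s k25 k38 6
  (.s k22 k28 2 (.s k41 k60 6 (.d k9 k6 k57 2 3)))))), (.s k8 k4 1 (.s k72 k200 7 (.s k132 k192 9
  (.s k140 k128 1 (.d k204 k76 k68 7 9)))))] (.c k9 (.q k13 [(.s k8 k4 1 (.s k51 k34 4 (.s k25 k38 6
  (.s k21 k29 1 (.d k42 k59 k63 4 6))))), (.s k4 k8 1 (.s k68 k204 9 (.s k132 k196 7 (.s k128 k140 1
  (.d k192 k64 k72 7 9))))), (.s k15 k14 0 (.s k51 k34 4 (.s k25 k38 6 (.s k27 k39 5 (.s k26 k24 0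
  (.d k37 k49 k48 5 6)))))), (.s k8 k4 1 (.s k72 k200 7 (.s k132 k192 9 (.s k140 k128 1 (.d k204 k76
  k68 7 9)))))] .n) (.c k13 (.l (.s k9 k6 2 (.s k4 k8 1 (.s k68 k204 9 (.s k132 k196 7 (.s k128 k140
  1 (.d k192 k64 k72 7 9))))))) .n))) .n))))) (.c k2 (.q k86 [(.s k84 k87 0 (.d k252 k168 k169 13
  14)), (.s k34 k51 4 (.s k169 k252 14 (.s k1 k253 13 (.s k33 k49 3 (.s k32 k35 0 (.d k48 k16 k18 3
  4)))))), (.s k51 k34 4 (.s k19 k35 3 (.s k87 k84 0 (.s k223 k155 9 (.d k16 k18 k154 0 10)))))] (.c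
  k136 (.q k187 [(.s k84 k87 0 (.d k252 k168 k169 13 14)), (.s k51 k34 4 (.s k35 k19 3 (.s k119 k255
  9 (.s k102 k68 4 (.d k169 k236 k252 10 14))))), (.s k51 k34 4 (.s k87 k84 0 (.d k255 k119 k171 9
  13)))] .n) (.c k187 (.q k136 [(.s k84 k87 0 (.d k252 k168 k169 13 14)), (.s k51 k34 4 (.s k35 k19
  3 (.s k68 k204 9 (.s k102 k119 4 (.d k169 k236 k252 10 14))))), (.s k51 k34 4 (.s k19 k35 3 (.s
  k87 k84 0 (.s k223 k155 9 (.d k16 k18 k154 0 10)))))] .n) .n))) (.c k18 (.f k1 k2 0 (.l (.s k33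
  k49 3 (.s k169 k253 13 (.s k86 k252 14 (.s k101 k237 9 (.s k71 k116 4 (.s k207 k139 9 (.d k69 k117
  k138 3 10))))))))) (.c k33 (.f k2 k1 0 (.l (.s k34 k51 4 (.s k18 k50 3 (.s k16 k19 0 (.s k154 k223
  10 (.s k86 k222 9 (.s k252 k169 14 (.d k84 k87 k168 0 13))))))))) (.c k34 (.l (.s k1 k2 0 (.s k33
  k49 3 (.s k18 k48 4 (.s k16 k19 0 (.s k154 k223 10 (.s k86 k222 9 (.d k169 k253 k252 13 14))))))))
  (.c k48 (.f k1 k2 0 (.l (.s k51 k34 4 (.s k19 k35 3 (.s k169 k253 13 (.s k86 k252 14 (.s k87 k84 0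
  (.s k223 k155 9 (.d k16 k18 k154 0 10))))))))) (.c k49 (.l (.s k2 k1 0 (.s k34 k51 4 (.s k18 k50 3
  (.s k48 k33 4 (.d k16 k19 k32 0 3)))))) (.c k50 (.l (.s k1 k2 0 (.s k33 k49 3 (.s k18 k48 4 (.s
  k51 k34 4 (.d k19 k16 k35 0 3)))))) (.c k136 (.q k187 [(.s k1 k2 0 (.s k169 k253 13 (.s k86 k252
  14 (.s k87 k84 0 (.s k255 k171 13 (.d k51 k34 k119 4 9)))))), (.s k2 k1 0 (.s k34 k51 4 (.s k18
  k50 3 (.s k48 k33 4 (.d k16 k19 k32 0 3))))), (.s k51 k34 4 (.s k19 k35 3 (.s k255 k119 9 (.s k87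
  k171 13 (.s k223 k155 9 (.d k16 k154 k18 10 0))))))] (.c k34 (.l (.s k1 k2 0 (.s k33 k49 3 (.s k18
  k48 4 (.s k16 k19 0 (.s k154 k223 10 (.s k86 k222 9 (.d k169 k253 k252 13 14)))))))) (.c k51 (.l
  (.s k1 k2 0 (.s k33 k49 3 (.s k48 k18 4 (.s k16 k32 3 (.s k154 k223 10 (.s k101 k207 14 (.d k169
  k237 k253 9 13)))))))) .n))) (.c k187 (.q k136 [(.s k1 k2 0 (.s k33 k49 3 (.s k18 k48 4 (.s k19
  k16 0 (.d k51 k35 k34 3 4))))), (.s k1 k2 0 (.s k204 k68 9 (.s k137 k70 10 (.s k138 k139 0 (.d k69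
  k205 k207 9 10))))), (.s k2 k1 0 (.s k34 k51 4 (.s k18 k50 3 (.s k48 k33 4 (.d k16 k19 k32 0
  3)))))] (.c k1 (.q k9 [(.s k12 k6 2 (.s k4 k8 1 (.s k68 k204 9 (.s k132 k196 7 (.s k192 k72 9 (.d
  k128 k140 k64 1 7)))))), (.s k204 k68 9 (.s k137 k70 10 (.s k73 k201 7 (.s k138 k139 0 (.s k8 k203
  8 (.s k11 k10 0 (.d k200 k72 k74 7 8))))))), (.s k12 k6 2 (.s k51 k34 4 (.s k19 k35 3 (.s k25 k38
  6 (.s k22 k28 2 (.d k41 k57 k60 3 6))))))] .n) (.c k2 (.q k86 [(.s k84 k87 0 (.d k252 k168 k169 13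
  14)), (.s k51 k34 4 (.s k35 k19 3 (.s k68 k204 9 (.s k102 k119 4 (.d k169 k236 k252 10 14))))),
  (.s k51 k34 4 (.s k19 k35 3 (.s k87 k84 0 (.s k223 k155 9 (.d k16 k18 k154 0 10)))))] .n) .n)))
  .n)))))))))))

def s5_170_154 : T TT 256 :=
  (.f k153 k221 9 (.q k145 [(.s k149 k157 1 (.s k21 k213 7 (.s k29 k25 1 (.d k209 k81 k89 7 9)))),
  (.s k51 k34 4 (.s k81 k209 7 (.s k98 k192 12 (.s k115 k64 4 (.d k243 k179 k162 7 12))))), (.s k51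
  k34 4 (.s k149 k157 1 (.s k192 k98 12 (.s k64 k128 7 (.d k106 k127 k63 6 14)))))] (.c k138 (.q
  k186 [(.s k149 k157 1 (.s k21 k213 7 (.s k29 k25 1 (.d k209 k81 k89 7 9)))), (.s k51 k34 4 (.s k81
  k209 7 (.s k98 k192 12 (.s k115 k64 4 (.d k243 k179 k162 7 12))))), (.s k51 k34 4 (.s k149 k157 1
  (.s k192 k98 12 (.s k64 k128 7 (.d k106 k127 k63 6 14)))))] .n) (.c k186 (.q k138 [(.s k149 k157 1
  (.s k21 k213 7 (.s k29 k25 1 (.d k209 k81 k89 7 9)))), (.s k51 k34 4 (.s k81 k209 7 (.s k98 k192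
  12 (.s k115 k64 4 (.d k243 k179 k162 7 12))))), (.s k51 k34 4 (.s k149 k157 1 (.s k192 k98 12 (.s
  k64 k128 7 (.d k106 k127 k63 6 14)))))] .n) .n))))

def s5_170_155 : T TT 256 :=
  (.q k1 [(.s k3 k2 0 (.s k33 k49 3 (.s k18 k48 4 (.s k19 k16 0 (.d k51 k35 k34 3 4))))), (.s k49
  k33 3 (.s k153 k221 9 (.s k101 k205 13 (.s k117 k69 3 (.d k253 k185 k169 9 13))))), (.s k3 k2 0
  (.s k51 k34 4 (.s k35 k19 3 (.s k153 k221 9 (.s k102 k204 14 (.d k169 k236 k253 10 13))))))] .n)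

def s5_170_156 : T TT 256 :=
  (.q k1 [(.s k33 k49 3 (.s k34 k51 4 (.s k32 k35 0 (.s k48 k16 3 (.d k3 k2 k18 0 4))))), (.s k49
  k33 3 (.s k153 k221 9 (.s k101 k205 13 (.s k117 k69 3 (.d k253 k185 k169 9 13))))), (.s k3 k2 0
  (.s k51 k34 4 (.s k35 k19 3 (.s k153 k221 9 (.s k102 k204 14 (.d k169 k236 k253 10 13))))))] .n)

def s5_170_157 : T TT 256 :=
  (.q k1 [(.s k33 k49 3 (.s k34 k51 4 (.s k32 k35 0 (.s k48 k16 3 (.d k3 k2 k18 0 4))))), (.s k49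
  k33 3 (.s k153 k221 9 (.s k101 k205 13 (.s k117 k69 3 (.d k253 k185 k169 9 13))))), (.s k3 k2 0
  (.s k51 k34 4 (.s k35 k19 3 (.s k153 k221 9 (.s k102 k204 14 (.d k169 k236 k253 10 13))))))] .n)

def s5_170_158 : T TT 256 :=
  (.q k1 [(.s k33 k49 3 (.s k34 k51 4 (.s k32 k35 0 (.s k48 k16 3 (.d k3 k2 k18 0 4))))), (.s k49
  k33 3 (.s k153 k221 9 (.s k101 k205 13 (.s k117 k69 3 (.d k253 k185 k169 9 13))))), (.s k3 k2 0
  (.s k51 k34 4 (.s k35 k19 3 (.s k153 k221 9 (.s k102 k204 14 (.d k169 k236 k253 10 13))))))] .n)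

def s5_170_159 : T TT 256 :=
  (.q k1 [(.s k33 k49 3 (.s k34 k51 4 (.s k32 k35 0 (.s k48 k16 3 (.d k3 k2 k18 0 4))))), (.s k49
  k33 3 (.s k153 k221 9 (.s k101 k205 13 (.s k117 k69 3 (.d k253 k185 k169 9 13))))), (.s k3 k2 0
  (.s k51 k34 4 (.s k35 k19 3 (.s k153 k221 9 (.s k102 k204 14 (.d k169 k236 k253 10 13))))))] .n)

def s5_170_160 : T TT 256 :=
  (.f k153 k221 9 (.f k34 k51 4 (.q k1 [(.s k33 k49 3 (.s k32 k35 0 (.s k48 k16 3 (.d k3 k2 k18 0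
  4)))), (.s k49 k33 3 (.s k101 k205 13 (.s k117 k69 3 (.d k253 k185 k169 9 13)))), (.s k3 k2 0 (.s
  k169 k253 13 (.s k86 k252 14 (.s k19 k220 10 (.s k16 k18 0 (.s k87 k84 0 (.d k223 k155 k154 9
  10)))))))] (.c k165 (.q k175 [(.s k33 k49 3 (.s k32 k35 0 (.s k48 k16 3 (.d k3 k2 k18 0 4)))), (.s
  k49 k33 3 (.s k101 k205 13 (.s k117 k69 3 (.d k253 k185 k169 9 13)))), (.s k3 k2 0 (.s k169 k253
  13 (.s k86 k252 14 (.s k19 k220 10 (.s k16 k18 0 (.s k87 k84 0 (.d k223 k155 k154 9 10)))))))] .n)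
  (.c k175 (.q k165 [(.s k33 k49 3 (.s k32 k35 0 (.s k48 k16 3 (.d k3 k2 k18 0 4)))), (.s k169 k253
  13 (.s k161 k173 1 (.s k81 k241 11 (.s k145 k209 7 (.d k177 k129 k141 3 5)))))] .n) .n)))))

def s5_170_161 : T TT 256 :=
  (.q k1 [(.s k3 k2 0 (.s k33 k49 3 (.s k18 k48 4 (.s k19 k16 0 (.d k51 k35 k34 3 4))))), (.s k49
  k33 3 (.s k153 k221 9 (.s k101 k205 13 (.s k117 k69 3 (.d k253 k185 k169 9 13))))), (.s k3 k2 0
  (.s k51 k34 4 (.s k35 k19 3 (.s k153 k221 9 (.s k102 k204 14 (.d k169 k236 k253 10 13))))))] .n)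

def s5_170_162 : T TT 256 :=
  (.f k153 k221 9 (.q k166 [(.s k4 k247 12 (.s k12 k8 1 (.s k51 k34 4 (.s k89 k243 14 (.d k25 k38
  k217 6 7))))), (.s k4 k247 12 (.s k12 k8 1 (.s k89 k243 14 (.s k25 k217 7 (.s k29 k21 1 (.s k81
  k93 1 (.d k209 k145 k149 7 9))))))), (.s k4 k247 12 (.s k51 k34 4 (.s k102 k204 14 (.s k38 k230 7
  (.s k55 k21 4 (.s k68 k119 4 (.d k196 k132 k149 7 12))))))), (.s k4 k247 12 (.s k12 k8 1 (.s k51
  k34 4 (.s k140 k179 6 (.d k204 k102 k76 14 7))))), (.s k51 k34 4 (.s k102 k204 14 (.s k38 k230 7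
  (.s k12 k25 6 (.s k179 k140 6 (.d k243 k115 k89 7 14))))))] .n))

def s5_170_163 : T TT 256 :=
  (.q k1 [(.s k3 k2 0 (.s k33 k49 3 (.s k18 k48 4 (.s k19 k16 0 (.d k51 k35 k34 3 4))))), (.s k49
  k33 3 (.s k153 k221 9 (.s k101 k205 13 (.s k117 k69 3 (.d k253 k185 k169 9 13))))), (.s k3 k2 0
  (.s k51 k34 4 (.s k35 k19 3 (.s k153 k221 9 (.s k102 k204 14 (.d k169 k236 k253 10 13))))))] .n)

def s5_170_164 : T TT 256 :=
  (.q k1 [(.s k33 k49 3 (.s k34 k51 4 (.s k32 k35 0 (.s k48 k16 3 (.d k3 k2 k18 0 4))))), (.s k49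
  k33 3 (.s k153 k221 9 (.s k101 k205 13 (.s k117 k69 3 (.d k253 k185 k169 9 13))))), (.s k3 k2 0
  (.s k51 k34 4 (.s k35 k19 3 (.s k153 k221 9 (.s k102 k204 14 (.d k169 k236 k253 10 13))))))] .n)

def s5_170_165 : T TT 256 :=
  (.f k153 k221 9 (.f k34 k51 4 (.q k16 [(.s k19 k18 0 (.s k86 k220 10 (.s k87 k84 0 (.d k223 k155
  k154 9 10)))), (.s k18 k19 0 (.s k2 k50 3 (.s k3 k1 0 (.d k48 k32 k33 3 4)))), (.s k48 k32 3 (.s
  k154 k223 10 (.s k101 k207 14 (.s k49 k205 13 (.s k1 k33 3 (.s k117 k69 3 (.d k253 k185 k169 9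
  13)))))))] (.c k160 (.q k175 [(.s k19 k18 0 (.s k86 k220 10 (.s k87 k84 0 (.d k223 k155 k154 9
  10)))), (.s k18 k19 0 (.s k2 k50 3 (.s k3 k1 0 (.d k48 k32 k33 3 4)))), (.s k48 k32 3 (.s k154
  k223 10 (.s k101 k207 14 (.s k49 k205 13 (.s k1 k33 3 (.s k117 k69 3 (.d k253 k185 k169 9
  13)))))))] .n) (.c k175 (.q k160 [(.s k19 k18 0 (.s k86 k220 10 (.s k87 k84 0 (.d k223 k155 k154 9
  10)))), (.s k48 k32 3 (.s k80 k240 11 (.s k144 k208 7 (.s k128 k176 3 (.d k192 k64 k96 7 11)))))]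
  (.c k154 (.l (.s k18 k19 0 (.s k2 k50 3 (.s k3 k1 0 (.d k48 k32 k33 3 4))))) .n)) .n)))))

def s5_170_166 : T TT 256 :=
  (.q k81 [(.s k51 k34 4 (.s k145 k209 7 (.s k98 k192 12 (.s k115 k64 4 (.d k243 k162 k179 12
  7))))), (.s k89 k93 1 (.s k153 k221 9 (.s k25 k217 7 (.s k29 k21 1 (.d k209 k145 k149 7 9))))),
  (.s k51 k34 4 (.s k89 k93 1 (.s k153 k221 9 (.s k102 k204 14 (.s k115 k76 6 (.d k243 k162 k179 12
  7))))))] (.c k162 (.q k174 [(.s k89 k93 1 (.s k153 k221 9 (.s k25 k217 7 (.s k29 k21 1 (.d k209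
  k145 k149 7 9))))), (.s k51 k34 4 (.s k93 k89 1 (.s k153 k221 9 (.s k102 k204 14 (.s k119 k68 4
  (.d k255 k12 k187 12 9)))))), (.s k51 k34 4 (.s k145 k209 7 (.s k98 k192 12 (.s k64 k115 4 (.s
  k106 k127 6 (.s k153 k221 9 (.d k102 k110 k204 1 14))))))), (.s k51 k34 4 (.s k93 k89 1 (.s k12
  k255 12 (.s k8 k4 1 (.s k25 k38 6 (.s k21 k29 1 (.d k42 k59 k63 4 6)))))))] .n) (.c k174 (.l (.s
  k162 k243 12 (.s k51 k34 4 (.s k145 k209 7 (.s k128 k179 4 (.d k192 k64 k98 7 12)))))) .n)))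

def s5_170_167 : T TT 256 :=
  (.q k1 [(.s k33 k49 3 (.s k34 k51 4 (.s k32 k35 0 (.s k48 k16 3 (.d k3 k2 k18 0 4))))), (.s k49
  k33 3 (.s k153 k221 9 (.s k101 k205 13 (.s k117 k69 3 (.d k253 k185 k169 9 13))))), (.s k3 k2 0
  (.s k51 k34 4 (.s k35 k19 3 (.s k153 k221 9 (.s k102 k204 14 (.d k169 k236 k253 10 13))))))] .n)

def s5_170_168 : T TT 256 :=
  (.q k169 [(.s k1 k253 13 (.s k49 k33 3 (.s k153 k221 9 (.s k137 k185 3 (.d k205 k69 k101 9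
  13))))), (.s k51 k34 4 (.s k153 k221 9 (.s k102 k204 14 (.s k35 k236 10 (.s k3 k19 3 (.s k185 k137
  3 (.d k252 k118 k86 10 14))))))), (.s k1 k253 13 (.s k3 k2 0 (.s k51 k34 4 (.s k19 k35 3 (.s k18
  k16 0 (.d k33 k49 k48 3 4))))))] .n)

def s5_170_169 : T TT 256 :=
  (.f k153 k221 9 (.q k101 [(.s k51 k34 4 (.s k69 k117 3 (.s k102 k204 14 (.s k207 k138 10 (.d k103
  k100 k155 0 13))))), (.s k49 k205 13 (.s k33 k1 3 (.s k51 k34 4 (.s k48 k50 0 (.s k16 k32 3 (.d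
  k18 k19 k3 0 4)))))), (.s k69 k117 3 (.s k205 k49 13 (.s k137 k1 9 (.s k207 k138 10 (.s k204 k206
  0 (.s k68 k136 9 (.d k70 k71 k3 0 10)))))))] (.c k69 (.l (.s k49 k205 13 (.s k51 k34 4 (.s k48 k50
  0 (.s k16 k32 3 (.d k154 k223 k207 10 14)))))) (.c k168 (.q k171 [(.s k51 k34 4 (.s k69 k117 3 (.s
  k102 k204 14 (.s k207 k138 10 (.d k103 k100 k155 0 13))))), (.s k49 k205 13 (.s k33 k1 3 (.s k51
  k34 4 (.s k48 k50 0 (.s k16 k32 3 (.d k18 k19 k3 0 4)))))), (.s k69 k117 3 (.s k205 k49 13 (.s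
  k137 k1 9 (.s k207 k138 10 (.s k204 k206 0 (.s k68 k136 9 (.d k70 k71 k3 0 10)))))))] (.c k69 (.l
  (.s k49 k205 13 (.s k51 k34 4 (.s k48 k50 0 (.s k16 k32 3 (.d k154 k223 k207 10 14)))))) .n)) (.c
  k171 (.q k168 [(.s k51 k34 4 (.s k69 k117 3 (.s k102 k204 14 (.s k103 k100 0 (.d k207 k138 k155 10
  13))))), (.s k49 k205 13 (.s k51 k34 4 (.s k48 k50 0 (.s k16 k32 3 (.d k154 k223 k207 10 14))))),
  (.s k69 k117 3 (.s k84 k252 13 (.s k207 k138 10 (.s k154 k48 14 (.s k16 k223 10 (.d k152 k220 k155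
  9 0)))))), (.s k49 k205 13 (.s k51 k34 4 (.s k117 k69 3 (.s k252 k84 13 (.d k185 k253 k118 9
  10)))))] .n) .n)))))

def s5_170_171 : T TT 256 :=
  (.q k169 [(.s k1 k253 13 (.s k49 k33 3 (.s k153 k221 9 (.s k137 k185 3 (.d k205 k69 k101 9
  13))))), (.s k51 k34 4 (.s k153 k221 9 (.s k185 k137 3 (.s k252 k118 10 (.s k84 k168 13 (.d k86
  k87 k3 0 14)))))), (.s k1 k253 13 (.s k3 k2 0 (.s k51 k34 4 (.s k19 k35 3 (.s k18 k16 0 (.d k33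
  k49 k48 3 4))))))] .n)

def s5_170_172 : T TT 256 :=
  (.q k1 [(.s k33 k49 3 (.s k34 k51 4 (.s k32 k35 0 (.s k48 k16 3 (.d k3 k2 k18 0 4))))), (.s k49
  k33 3 (.s k153 k221 9 (.s k101 k205 13 (.s k117 k69 3 (.d k253 k185 k169 9 13))))), (.s k3 k2 0
  (.s k51 k34 4 (.s k35 k19 3 (.s k153 k221 9 (.s k102 k204 14 (.d k169 k236 k253 10 13))))))] .n)

def s5_170_173 : T TT 256 :=
  (.q k1 [(.s k33 k49 3 (.s k34 k51 4 (.s k32 k35 0 (.s k48 k16 3 (.d k3 k2 k18 0 4))))), (.s k49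
  k33 3 (.s k153 k221 9 (.s k101 k205 13 (.s k117 k69 3 (.d k253 k185 k169 9 13))))), (.s k3 k2 0
  (.s k51 k34 4 (.s k35 k19 3 (.s k153 k221 9 (.s k102 k204 14 (.d k169 k236 k253 10 13))))))] .n)

def s5_170_174 : T TT 256 :=
  (.f k153 k221 9 (.q k166 [(.s k4 k247 12 (.s k12 k8 1 (.s k51 k34 4 (.s k140 k179 6 (.d k204 k102
  k76 14 7))))), (.s k4 k247 12 (.s k51 k34 4 (.s k102 k204 14 (.s k38 k230 7 (.s k55 k21 4 (.s k68
  k119 4 (.d k196 k132 k149 7 12))))))), (.s k4 k247 12 (.s k12 k8 1 (.s k89 k243 14 (.s k25 k217 7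
  (.s k29 k21 1 (.s k81 k93 1 (.d k209 k145 k149 7 9))))))), (.s k51 k34 4 (.s k179 k140 6 (.s k243
  k115 7 (.s k81 k162 12 (.d k89 k93 k12 1 14)))))] .n))

def s5_170_175 : T TT 256 :=
  (.f k34 k51 4 (.f k153 k221 9 (.q k16 [(.s k19 k18 0 (.s k86 k220 10 (.s k87 k84 0 (.d k223 k155
  k154 9 10)))), (.s k18 k19 0 (.s k2 k50 3 (.s k3 k1 0 (.d k48 k32 k33 3 4)))), (.s k48 k32 3 (.s
  k154 k223 10 (.s k101 k207 14 (.s k49 k205 13 (.s k1 k33 3 (.s k117 k69 3 (.d k253 k185 k169 9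
  13)))))))] (.c k160 (.q k165 [(.s k19 k18 0 (.s k86 k220 10 (.s k87 k84 0 (.d k223 k155 k154 9
  10)))), (.s k18 k19 0 (.s k2 k50 3 (.s k3 k1 0 (.d k48 k32 k33 3 4)))), (.s k141 k177 5 (.s k154
  k223 10 (.s k143 k176 6 (.s k140 k142 0 (.s k155 k152 0 (.d k179 k167 k166 5 6))))))] .n) (.c k165
  (.q k160 [(.s k19 k18 0 (.s k86 k220 10 (.s k87 k84 0 (.d k223 k155 k154 9 10)))), (.s k48 k32 3
  (.s k80 k240 11 (.s k144 k208 7 (.s k128 k176 3 (.d k192 k64 k96 7 11)))))] (.c k154 (.l (.s k18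
  k19 0 (.s k2 k50 3 (.s k3 k1 0 (.d k48 k32 k33 3 4))))) .n)) .n)))))

def s5_170_176 : T TT 256 :=
  (.q k1 [(.s k33 k49 3 (.s k34 k51 4 (.s k32 k35 0 (.s k48 k16 3 (.d k3 k2 k18 0 4))))), (.s k49
  k33 3 (.s k153 k221 9 (.s k101 k205 13 (.s k117 k69 3 (.d k253 k185 k169 9 13))))), (.s k3 k2 0
  (.s k51 k34 4 (.s k35 k19 3 (.s k153 k221 9 (.s k102 k204 14 (.d k169 k236 k253 10 13))))))] .n)

def s5_170_177 : T TT 256 :=
  (.q k1 [(.s k49 k33 3 (.s k153 k221 9 (.s k101 k205 13 (.s k117 k69 3 (.d k253 k185 k169 9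
  13))))), (.s k3 k2 0 (.s k33 k49 3 (.s k18 k48 4 (.s k19 k16 0 (.d k51 k35 k34 3 4))))), (.s k3 k2
  0 (.s k51 k34 4 (.s k35 k19 3 (.s k153 k221 9 (.s k102 k204 14 (.d k169 k236 k253 10 13))))))] .n)

def s5_170_178 : T TT 256 :=
  (.q k1 [(.s k33 k49 3 (.s k34 k51 4 (.s k32 k35 0 (.s k48 k16 3 (.d k3 k2 k18 0 4))))), (.s k49
  k33 3 (.s k153 k221 9 (.s k101 k205 13 (.s k117 k69 3 (.d k253 k185 k169 9 13))))), (.s k3 k2 0
  (.s k51 k34 4 (.s k35 k19 3 (.s k153 k221 9 (.s k102 k204 14 (.d k169 k236 k253 10 13))))))] .n)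

def s5_170_179 : T TT 256 :=
  (.q k1 [(.s k3 k2 0 (.s k33 k49 3 (.s k18 k48 4 (.s k19 k16 0 (.d k51 k35 k34 3 4))))), (.s k49
  k33 3 (.s k153 k221 9 (.s k101 k205 13 (.s k117 k69 3 (.d k253 k185 k169 9 13))))), (.s k3 k2 0
  (.s k51 k34 4 (.s k35 k19 3 (.s k153 k221 9 (.s k102 k204 14 (.d k169 k236 k253 10 13))))))] .n)

def s5_170_180 : T TT 256 :=
  (.q k1 [(.s k33 k49 3 (.s k34 k51 4 (.s k32 k35 0 (.s k48 k16 3 (.d k3 k2 k18 0 4))))), (.s k49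
  k33 3 (.s k153 k221 9 (.s k101 k205 13 (.s k117 k69 3 (.d k253 k185 k169 9 13))))), (.s k3 k2 0
  (.s k51 k34 4 (.s k35 k19 3 (.s k153 k221 9 (.s k102 k204 14 (.d k169 k236 k253 10 13))))))] .n)

def s5_170_181 : T TT 256 :=
  (.q k1 [(.s k33 k49 3 (.s k34 k51 4 (.s k32 k35 0 (.s k48 k16 3 (.d k3 k2 k18 0 4))))), (.s k49
  k33 3 (.s k153 k221 9 (.s k101 k205 13 (.s k117 k69 3 (.d k253 k185 k169 9 13))))), (.s k3 k2 0
  (.s k51 k34 4 (.s k35 k19 3 (.s k153 k221 9 (.s k102 k204 14 (.d k169 k236 k253 10 13))))))] .n)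

def s5_170_182 : T TT 256 :=
  (.q k1 [(.s k33 k49 3 (.s k34 k51 4 (.s k32 k35 0 (.s k48 k16 3 (.d k3 k2 k18 0 4))))), (.s k49
  k33 3 (.s k153 k221 9 (.s k101 k205 13 (.s k117 k69 3 (.d k253 k185 k169 9 13))))), (.s k3 k2 0
  (.s k51 k34 4 (.s k35 k19 3 (.s k153 k221 9 (.s k102 k204 14 (.d k169 k236 k253 10 13))))))] .n)

def s5_170_183 : T TT 256 :=
  (.q k1 [(.s k33 k49 3 (.s k34 k51 4 (.s k32 k35 0 (.s k48 k16 3 (.d k3 k2 k18 0 4))))), (.s k49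
  k33 3 (.s k153 k221 9 (.s k101 k205 13 (.s k117 k69 3 (.d k253 k185 k169 9 13))))), (.s k3 k2 0
  (.s k51 k34 4 (.s k35 k19 3 (.s k153 k221 9 (.s k102 k204 14 (.d k169 k236 k253 10 13))))))] .n)

def s5_170_184 : T TT 256 :=
  (.q k1 [(.s k33 k49 3 (.s k34 k51 4 (.s k32 k35 0 (.s k48 k16 3 (.d k3 k2 k18 0 4))))), (.s k49
  k33 3 (.s k153 k221 9 (.s k101 k205 13 (.s k117 k69 3 (.d k253 k185 k169 9 13))))), (.s k3 k2 0
  (.s k51 k34 4 (.s k35 k19 3 (.s k153 k221 9 (.s k102 k204 14 (.d k169 k236 k253 10 13))))))] .n)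

def s5_170_185 : T TT 256 :=
  (.q k1 [(.s k3 k2 0 (.s k33 k49 3 (.s k18 k48 4 (.s k19 k16 0 (.d k51 k35 k34 3 4))))), (.s k49
  k33 3 (.s k51 k34 4 (.s k153 k221 9 (.s k101 k205 13 (.s k69 k117 3 (.s k207 k138 10 (.d k48 k154
  k50 14 0))))))), (.s k3 k2 0 (.s k51 k34 4 (.s k35 k19 3 (.s k153 k221 9 (.s k102 k204 14 (.d k169
  k236 k253 10 13)))))), (.s k3 k2 0 (.s k33 k49 3 (.s k18 k48 4 (.s k16 k19 0 (.s k154 k223 10 (.s
  k86 k222 9 (.d k169 k253 k252 13 14)))))))] (.c k50 (.l (.s k3 k2 0 (.s k33 k49 3 (.s k18 k48 4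
  (.s k51 k34 4 (.d k19 k16 k35 0 3)))))) (.c k51 (.l (.s k3 k2 0 (.s k33 k49 3 (.s k48 k18 4 (.s
  k16 k32 3 (.s k154 k223 10 (.s k101 k207 14 (.d k169 k253 k237 13 9)))))))) (.c k253 (.l (.s k3 k2
  0 (.s k51 k34 4 (.s k19 k35 3 (.s k18 k16 0 (.d k33 k49 k48 3 4)))))) .n))))

def s5_170_186 : T TT 256 :=
  (.q k154 [(.s k16 k223 10 (.s k19 k18 0 (.s k153 k221 9 (.s k152 k155 0 (.d k220 k84 k86 9
  10))))), (.s k51 k34 4 (.s k153 k221 9 (.s k155 k152 0 (.s k207 k103 13 (.s k69 k138 10 (.d k101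
  k117 k48 3 14)))))), (.s k16 k223 10 (.s k48 k32 3 (.s k51 k34 4 (.s k49 k50 0 (.s k33 k1 3 (.d
  k18 k19 k3 0 4))))))] .n)

def s5_170_187 : T TT 256 :=
  (.f k153 k221 9 (.q k1 [(.s k49 k33 3 (.s k101 k205 13 (.s k117 k69 3 (.d k253 k185 k169 9 13)))),
  (.s k3 k2 0 (.s k51 k34 4 (.s k35 k19 3 (.s k102 k204 14 (.d k169 k236 k253 10 13))))), (.s k3 k2
  0 (.s k33 k49 3 (.s k18 k48 4 (.s k19 k16 0 (.d k51 k35 k34 3 4)))))] .n))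

def s5_170_188 : T TT 256 :=
  (.q k1 [(.s k33 k49 3 (.s k34 k51 4 (.s k32 k35 0 (.s k48 k16 3 (.d k3 k2 k18 0 4))))), (.s k49
  k33 3 (.s k153 k221 9 (.s k101 k205 13 (.s k117 k69 3 (.d k253 k185 k169 9 13))))), (.s k3 k2 0
  (.s k51 k34 4 (.s k35 k19 3 (.s k153 k221 9 (.s k102 k204 14 (.d k169 k236 k253 10 13))))))] .n)

def s5_170_189 : T TT 256 :=
  (.q k1 [(.s k33 k49 3 (.s k34 k51 4 (.s k32 k35 0 (.s k48 k16 3 (.d k3 k2 k18 0 4))))), (.s k49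
  k33 3 (.s k153 k221 9 (.s k101 k205 13 (.s k117 k69 3 (.d k253 k185 k169 9 13))))), (.s k3 k2 0
  (.s k51 k34 4 (.s k35 k19 3 (.s k153 k221 9 (.s k102 k204 14 (.d k169 k236 k253 10 13))))))] .n)

def s5_170_190 : T TT 256 :=
  (.f k153 k221 9 (.q k150 [(.s k51 k34 4 (.s k147 k156 2 (.s k195 k99 11 (.s k65 k130 8 (.d k105
  k125 k60 5 14))))), (.s k20 k215 8 (.s k60 k40 5 (.s k105 k195 14 (.s k57 k201 11 (.d k51 k54 k34
  2 4))))), (.s k20 k215 8 (.s k60 k40 5 (.s k156 k147 2 (.s k204 k108 11 (.s k68 k136 9 (.d k102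
  k119 k51 4 14))))))] (.c k51 (.q k1 [(.s k49 k33 3 (.s k101 k205 13 (.s k117 k69 3 (.d k253 k185
  k169 9 13)))), (.s k3 k2 0 (.s k20 k215 8 (.s k60 k40 5 (.s k22 k41 6 (.s k86 k214 7 (.s k84 k87 0
  (.d k252 k168 k169 13 14)))))))] (.c k169 (.l (.s k20 k215 8 (.s k49 k33 3 (.s k101 k205 13 (.s
  k52 k199 12 (.s k4 k36 3 (.s k117 k69 3 (.d k247 k182 k166 8 12)))))))) .n)) (.c k60 (.l (.s k51
  k34 4 (.s k102 k204 14 (.s k119 k68 4 (.s k215 k20 8 (.s k255 k187 9 (.s k195 k235 5 (.d k147 k156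
  k99 2 11)))))))) (.c k105 (.l (.s k20 k215 8 (.s k51 k34 4 (.s k102 k204 14 (.s k54 k198 11 (.d
  k60 k57 k40 2 5)))))) .n)))))

def s5_170_191 : T TT 256 :=
  (.q k149 [(.s k21 k213 7 (.s k29 k25 1 (.s k89 k209 9 (.s k93 k81 1 (.d k221 k157 k153 7 9))))),
  (.s k21 k213 7 (.s k25 k29 1 (.s k42 k63 6 (.s k8 k59 4 (.s k12 k4 1 (.d k51 k34 k38 4 6)))))),
  (.s k51 k34 4 (.s k153 k221 9 (.s k145 k157 1 (.s k192 k98 12 (.s k64 k128 7 (.d k106 k127 k63 6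
  14))))))] (.c k29 (.l (.s k21 k213 7 (.s k51 k34 4 (.s k63 k42 6 (.s k55 k59 1 (.s k102 k196 12
  (.d k153 k221 k204 9 14))))))) .n))

def s5_170_192 : T TT 256 :=
  (.q k1 [(.s k49 k33 3 (.s k153 k221 9 (.s k101 k205 13 (.s k117 k69 3 (.d k253 k185 k169 9
  13))))), (.s k3 k2 0 (.s k33 k49 3 (.s k18 k48 4 (.s k19 k16 0 (.d k51 k35 k34 3 4))))), (.s k3 k2
  0 (.s k51 k34 4 (.s k35 k19 3 (.s k153 k221 9 (.s k102 k204 14 (.d k169 k236 k253 10 13))))))] .n)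

def s5_170_193 : T TT 256 :=
  (.q k1 [(.s k49 k33 3 (.s k153 k221 9 (.s k101 k205 13 (.s k117 k69 3 (.d k253 k185 k169 9
  13))))), (.s k3 k2 0 (.s k33 k49 3 (.s k18 k48 4 (.s k19 k16 0 (.d k51 k35 k34 3 4))))), (.s k3 k2
  0 (.s k51 k34 4 (.s k35 k19 3 (.s k153 k221 9 (.s k102 k204 14 (.d k169 k236 k253 10 13))))))] .n)

def s5_170_194 : T TT 256 :=
  (.q k1 [(.s k33 k49 3 (.s k34 k51 4 (.s k32 k35 0 (.s k48 k16 3 (.d k3 k2 k18 0 4))))), (.s k49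
  k33 3 (.s k153 k221 9 (.s k101 k205 13 (.s k117 k69 3 (.d k253 k185 k169 9 13))))), (.s k3 k2 0
  (.s k51 k34 4 (.s k35 k19 3 (.s k153 k221 9 (.s k102 k204 14 (.d k169 k236 k253 10 13))))))] .n)

def s5_170_195 : T TT 256 :=
  (.q k1 [(.s k49 k33 3 (.s k153 k221 9 (.s k101 k205 13 (.s k117 k69 3 (.d k253 k185 k169 9
  13))))), (.s k3 k2 0 (.s k33 k49 3 (.s k18 k48 4 (.s k19 k16 0 (.d k51 k35 k34 3 4))))), (.s k3 k2
  0 (.s k51 k34 4 (.s k35 k19 3 (.s k153 k221 9 (.s k102 k204 14 (.d k169 k236 k253 10 13))))))] .n)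

def s5_170_196 : T TT 256 :=
  (.q k1 [(.s k33 k49 3 (.s k34 k51 4 (.s k32 k35 0 (.s k48 k16 3 (.d k3 k2 k18 0 4))))), (.s k49
  k33 3 (.s k153 k221 9 (.s k101 k205 13 (.s k117 k69 3 (.d k253 k185 k169 9 13))))), (.s k3 k2 0
  (.s k51 k34 4 (.s k35 k19 3 (.s k153 k221 9 (.s k102 k204 14 (.d k169 k236 k253 10 13))))))] .n)

def s5_170_197 : T TT 256 :=
  (.f k153 k221 9 (.q k69 [(.s k51 k34 4 (.s k101 k117 3 (.s k102 k204 14 (.s k207 k138 10 (.d k103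
  k100 k155 0 13))))), (.s k51 k34 4 (.s k101 k117 3 (.s k49 k205 13 (.s k33 k1 3 (.s k48 k50 0 (.s
  k16 k32 3 (.d k18 k19 k3 0 4))))))), (.s k101 k117 3 (.s k205 k49 13 (.s k137 k1 9 (.s k207 k138
  10 (.s k204 k206 0 (.s k68 k136 9 (.d k70 k71 k3 0 10)))))))] (.c k101 (.f k51 k34 4 (.l (.s k102
  k204 14 (.s k119 k68 4 (.s k207 k138 10 (.s k155 k103 13 (.s k154 k152 0 (.s k223 k16 10 (.d k255
  k239 k187 3 9))))))))) (.c k117 (.l (.s k51 k34 4 (.s k207 k138 10 (.s k155 k103 13 (.s k154 k152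
  0 (.s k16 k223 10 (.d k48 k32 k101 3 14))))))) .n))))

def s5_170_198 : T TT 256 :=
  (.q k1 [(.s k33 k49 3 (.s k34 k51 4 (.s k32 k35 0 (.s k48 k16 3 (.d k3 k2 k18 0 4))))), (.s k49
  k33 3 (.s k153 k221 9 (.s k101 k205 13 (.s k117 k69 3 (.d k253 k185 k169 9 13))))), (.s k3 k2 0
  (.s k51 k34 4 (.s k35 k19 3 (.s k153 k221 9 (.s k102 k204 14 (.d k169 k236 k253 10 13))))))] .n)

def s5_170_199 : T TT 256 :=
  (.q k1 [(.s k33 k49 3 (.s k34 k51 4 (.s k32 k35 0 (.s k48 k16 3 (.d k3 k2 k18 0 4))))), (.s k49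
  k33 3 (.s k153 k221 9 (.s k101 k205 13 (.s k117 k69 3 (.d k253 k185 k169 9 13))))), (.s k3 k2 0
  (.s k51 k34 4 (.s k35 k19 3 (.s k153 k221 9 (.s k102 k204 14 (.d k169 k236 k253 10 13))))))] .n)

def s5_170_200 : T TT 256 :=
  (.q k1 [(.s k33 k49 3 (.s k34 k51 4 (.s k32 k35 0 (.s k48 k16 3 (.d k3 k2 k18 0 4))))), (.s k49
  k33 3 (.s k153 k221 9 (.s k101 k205 13 (.s k117 k69 3 (.d k253 k185 k169 9 13))))), (.s k3 k2 0
  (.s k51 k34 4 (.s k35 k19 3 (.s k153 k221 9 (.s k102 k204 14 (.d k169 k236 k253 10 13))))))] .n)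

def s5_170_201 : T TT 256 :=
  (.q k1 [(.s k33 k49 3 (.s k34 k51 4 (.s k32 k35 0 (.s k48 k16 3 (.d k3 k2 k18 0 4))))), (.s k49
  k33 3 (.s k153 k221 9 (.s k101 k205 13 (.s k117 k69 3 (.d k253 k185 k169 9 13))))), (.s k3 k2 0
  (.s k51 k34 4 (.s k35 k19 3 (.s k153 k221 9 (.s k102 k204 14 (.d k169 k236 k253 10 13))))))] .n)

def s5_170_202 : T TT 256 :=
  (.q k1 [(.s k33 k49 3 (.s k34 k51 4 (.s k32 k35 0 (.s k48 k16 3 (.d k3 k2 k18 0 4))))), (.s k49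
  k33 3 (.s k153 k221 9 (.s k101 k205 13 (.s k117 k69 3 (.d k253 k185 k169 9 13))))), (.s k3 k2 0
  (.s k51 k34 4 (.s k35 k19 3 (.s k153 k221 9 (.s k102 k204 14 (.d k169 k236 k253 10 13))))))] .n)

def s5_170_203 : T TT 256 :=
  (.q k1 [(.s k33 k49 3 (.s k34 k51 4 (.s k32 k35 0 (.s k48 k16 3 (.d k3 k2 k18 0 4))))), (.s k49
  k33 3 (.s k153 k221 9 (.s k101 k205 13 (.s k117 k69 3 (.d k253 k185 k169 9 13))))), (.s k3 k2 0
  (.s k51 k34 4 (.s k35 k19 3 (.s k153 k221 9 (.s k102 k204 14 (.d k169 k236 k253 10 13))))))] .n)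

def s5_170_204 : T TT 256 :=
  (.q k1 [(.s k33 k49 3 (.s k34 k51 4 (.s k32 k35 0 (.s k48 k16 3 (.d k3 k2 k18 0 4))))), (.s k49
  k33 3 (.s k153 k221 9 (.s k101 k205 13 (.s k117 k69 3 (.d k253 k185 k169 9 13))))), (.s k3 k2 0
  (.s k51 k34 4 (.s k153 k221 9 (.s k169 k253 13 (.s k86 k252 14 (.d k19 k220 k35 10 3))))))] (.c
  k153 (.l (.s k3 k2 0 (.s k33 k49 3 (.s k18 k48 4 (.s k19 k16 0 (.d k51 k35 k34 3 4)))))) .n))

def s5_170_205 : T TT 256 :=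
  (.q k3 [(.s k1 k2 0 (.s k33 k49 3 (.s k18 k48 4 (.s k19 k16 0 (.d k51 k35 k34 3 4))))), (.s k51
  k34 4 (.s k19 k35 3 (.s k153 k221 9 (.s k86 k220 10 (.s k84 k87 0 (.d k252 k168 k169 13 14)))))),
  (.s k2 k1 0 (.s k34 k51 4 (.s k18 k50 3 (.s k16 k19 0 (.d k48 k32 k33 3 4))))), (.s k1 k2 0 (.s
  k33 k49 3 (.s k48 k18 4 (.s k16 k32 3 (.s k154 k223 10 (.s k101 k207 14 (.d k169 k237 k253 9
  13)))))))] (.c k33 (.l (.s k1 k2 0 (.s k51 k34 4 (.s k35 k19 3 (.s k153 k221 9 (.s k102 k204 14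
  (.d k169 k253 k236 13 10))))))) (.c k34 (.l (.s k1 k2 0 (.s k33 k49 3 (.s k18 k48 4 (.s k16 k19 0
  (.s k154 k223 10 (.s k86 k222 9 (.d k169 k253 k252 13 14)))))))) .n)))

def s5_170_206 : T TT 256 :=
  (.q k1 [(.s k33 k49 3 (.s k34 k51 4 (.s k32 k35 0 (.s k48 k16 3 (.d k3 k2 k18 0 4))))), (.s k49
  k33 3 (.s k153 k221 9 (.s k101 k205 13 (.s k117 k69 3 (.d k253 k185 k169 9 13))))), (.s k3 k2 0
  (.s k51 k34 4 (.s k35 k19 3 (.s k153 k221 9 (.s k102 k204 14 (.d k169 k236 k253 10 13))))))] .n)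

def s5_170_207 : T TT 256 :=
  (.q k1 [(.s k33 k49 3 (.s k34 k51 4 (.s k32 k35 0 (.s k48 k16 3 (.d k3 k2 k18 0 4))))), (.s k49
  k33 3 (.s k153 k221 9 (.s k101 k205 13 (.s k117 k69 3 (.d k253 k185 k169 9 13))))), (.s k3 k2 0
  (.s k51 k34 4 (.s k35 k19 3 (.s k153 k221 9 (.s k102 k204 14 (.d k169 k236 k253 10 13))))))] .n)

def s5_170_208 : T TT 256 :=
  (.q k1 [(.s k49 k33 3 (.s k153 k221 9 (.s k101 k205 13 (.s k117 k69 3 (.d k253 k185 k169 9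
  13))))), (.s k3 k2 0 (.s k33 k49 3 (.s k18 k48 4 (.s k19 k16 0 (.d k51 k35 k34 3 4))))), (.s k3 k2
  0 (.s k51 k34 4 (.s k35 k19 3 (.s k153 k221 9 (.s k102 k204 14 (.d k169 k236 k253 10 13))))))] .n)

def s5_170_209 : T TT 256 :=
  (.q k1 [(.s k33 k49 3 (.s k34 k51 4 (.s k32 k35 0 (.s k48 k16 3 (.d k3 k2 k18 0 4))))), (.s k49
  k33 3 (.s k153 k221 9 (.s k101 k205 13 (.s k117 k69 3 (.d k253 k185 k169 9 13))))), (.s k3 k2 0
  (.s k51 k34 4 (.s k35 k19 3 (.s k153 k221 9 (.s k102 k204 14 (.d k169 k236 k253 10 13))))))] .n)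

def s5_170_210 : T TT 256 :=
  (.q k1 [(.s k33 k49 3 (.s k34 k51 4 (.s k32 k35 0 (.s k48 k16 3 (.d k3 k2 k18 0 4))))), (.s k49
  k33 3 (.s k153 k221 9 (.s k101 k205 13 (.s k117 k69 3 (.d k253 k185 k169 9 13))))), (.s k3 k2 0
  (.s k51 k34 4 (.s k35 k19 3 (.s k153 k221 9 (.s k102 k204 14 (.d k169 k236 k253 10 13))))))] .n)

def s5_170_211 : T TT 256 :=
  (.q k1 [(.s k49 k33 3 (.s k153 k221 9 (.s k101 k205 13 (.s k117 k69 3 (.d k253 k185 k169 9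
  13))))), (.s k3 k2 0 (.s k33 k49 3 (.s k18 k48 4 (.s k19 k16 0 (.d k51 k35 k34 3 4))))), (.s k3 k2
  0 (.s k51 k34 4 (.s k35 k19 3 (.s k153 k221 9 (.s k102 k204 14 (.d k169 k236 k253 10 13))))))] .n)

def s5_170_212 : T TT 256 :=
  (.q k1 [(.s k33 k49 3 (.s k34 k51 4 (.s k32 k35 0 (.s k48 k16 3 (.d k3 k2 k18 0 4))))), (.s k49
  k33 3 (.s k153 k221 9 (.s k101 k205 13 (.s k117 k69 3 (.d k253 k185 k169 9 13))))), (.s k3 k2 0
  (.s k51 k34 4 (.s k35 k19 3 (.s k153 k221 9 (.s k102 k204 14 (.d k169 k236 k253 10 13))))))] .n)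

def s5_170_213 : T TT 256 :=
  (.q k1 [(.s k33 k49 3 (.s k34 k51 4 (.s k32 k35 0 (.s k48 k16 3 (.d k3 k2 k18 0 4))))), (.s k49
  k33 3 (.s k153 k221 9 (.s k101 k205 13 (.s k117 k69 3 (.d k253 k185 k169 9 13))))), (.s k3 k2 0
  (.s k51 k34 4 (.s k35 k19 3 (.s k153 k221 9 (.s k102 k204 14 (.d k169 k236 k253 10 13))))))] .n)

def s5_170_214 : T TT 256 :=
  (.q k1 [(.s k33 k49 3 (.s k34 k51 4 (.s k32 k35 0 (.s k48 k16 3 (.d k3 k2 k18 0 4))))), (.s k49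
  k33 3 (.s k153 k221 9 (.s k101 k205 13 (.s k117 k69 3 (.d k253 k185 k169 9 13))))), (.s k3 k2 0
  (.s k51 k34 4 (.s k35 k19 3 (.s k153 k221 9 (.s k102 k204 14 (.d k169 k236 k253 10 13))))))] .n)

def s5_170_215 : T TT 256 :=
  (.q k1 [(.s k33 k49 3 (.s k34 k51 4 (.s k32 k35 0 (.s k48 k16 3 (.d k3 k2 k18 0 4))))), (.s k49
  k33 3 (.s k153 k221 9 (.s k101 k205 13 (.s k117 k69 3 (.d k253 k185 k169 9 13))))), (.s k3 k2 0
  (.s k51 k34 4 (.s k35 k19 3 (.s k153 k221 9 (.s k102 k204 14 (.d k169 k236 k253 10 13))))))] .n)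

def s5_170_216 : T TT 256 :=
  (.q k1 [(.s k33 k49 3 (.s k34 k51 4 (.s k32 k35 0 (.s k48 k16 3 (.d k3 k2 k18 0 4))))), (.s k49
  k33 3 (.s k153 k221 9 (.s k101 k205 13 (.s k117 k69 3 (.d k253 k185 k169 9 13))))), (.s k3 k2 0
  (.s k51 k34 4 (.s k35 k19 3 (.s k153 k221 9 (.s k102 k204 14 (.d k169 k236 k253 10 13))))))] .n)

def s5_170_217 : T TT 256 :=
  (.q k1 [(.s k33 k49 3 (.s k34 k51 4 (.s k32 k35 0 (.s k48 k16 3 (.d k3 k2 k18 0 4))))), (.s k49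
  k33 3 (.s k153 k221 9 (.s k101 k205 13 (.s k117 k69 3 (.d k253 k185 k169 9 13))))), (.s k3 k2 0
  (.s k51 k34 4 (.s k35 k19 3 (.s k153 k221 9 (.s k102 k204 14 (.d k169 k236 k253 10 13))))))] .n)

def s5_170_218 : T TT 256 :=
  (.q k1 [(.s k33 k49 3 (.s k34 k51 4 (.s k32 k35 0 (.s k48 k16 3 (.d k3 k2 k18 0 4))))), (.s k49
  k33 3 (.s k153 k221 9 (.s k101 k205 13 (.s k117 k69 3 (.d k253 k185 k169 9 13))))), (.s k3 k2 0
  (.s k51 k34 4 (.s k35 k19 3 (.s k153 k221 9 (.s k102 k204 14 (.d k169 k236 k253 10 13))))))] .n)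

def s5_170_219 : T TT 256 :=
  (.q k1 [(.s k33 k49 3 (.s k34 k51 4 (.s k32 k35 0 (.s k48 k16 3 (.d k3 k2 k18 0 4))))), (.s k49
  k33 3 (.s k153 k221 9 (.s k101 k205 13 (.s k117 k69 3 (.d k253 k185 k169 9 13))))), (.s k3 k2 0
  (.s k51 k34 4 (.s k35 k19 3 (.s k153 k221 9 (.s k102 k204 14 (.d k169 k236 k253 10 13))))))] .n)

def s5_170_220 : T TT 256 :=
  (.q k1 [(.s k3 k2 0 (.s k33 k49 3 (.s k34 k51 4 (.s k32 k35 0 (.d k48 k16 k18 3 4))))), (.s k49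
  k33 3 (.s k153 k221 9 (.s k101 k205 13 (.s k117 k69 3 (.d k253 k185 k169 9 13))))), (.s k3 k2 0
  (.s k51 k34 4 (.s k35 k19 3 (.s k153 k221 9 (.s k102 k204 14 (.d k169 k236 k253 10 13))))))] .n)

def s5_170_221 : T TT 256 :=
  (.q k1 [(.s k33 k49 3 (.s k34 k51 4 (.s k32 k35 0 (.s k48 k16 3 (.d k3 k2 k18 0 4))))), (.s k3 k2
  0 (.s k51 k34 4 (.s k35 k19 3 (.s k169 k253 13 (.s k102 k236 10 (.s k68 k119 4 (.d k204 k136 k153
  9 14))))))), (.s k3 k2 0 (.s k33 k49 3 (.s k48 k18 4 (.s k16 k32 3 (.s k154 k223 10 (.s k101 k207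
  14 (.d k169 k237 k253 9 13)))))))] (.c k2 (.f k33 k49 3 (.f k169 k253 13 (.f k34 k51 4 (.f k32 k35
  0 (.l (.s k48 k16 3 (.s k3 k18 4 (.s k86 k252 14 (.s k87 k84 0 (.s k255 k171 13 (.s k117 k186 10
  (.d k101 k69 k237 3 9)))))))))))) (.c k3 (.q k21 [(.s k61 k41 5 (.s k149 k213 7 (.s k105 k193 13
  (.s k125 k65 5 (.d k253 k189 k169 7 13))))), (.s k25 k29 1 (.s k42 k63 6 (.s k8 k59 4 (.s k12 k4 1
  (.d k51 k34 k38 4 6)))))] .n) (.c k18 (.q k12 [(.s k51 k34 4 (.s k25 k38 6 (.s k21 k29 1 (.s k42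
  k63 6 (.d k8 k4 k59 1 4))))), (.s k4 k8 1 (.s k166 k247 12 (.s k169 k253 13 (.s k172 k163 2 (.s
  k252 k92 11 (.s k84 k168 13 (.d k86 k87 k3 0 14))))))), (.s k51 k34 4 (.s k25 k38 6 (.s k21 k29 1
  (.s k41 k61 5 (.s k9 k57 3 (.d k3 k2 k6 0 2))))))] .n) (.c k34 (.l (.s k3 k2 0 (.s k33 k49 3 (.s
  k18 k48 4 (.s k16 k19 0 (.s k154 k223 10 (.s k169 k253 13 (.d k86 k222 k252 9 14)))))))) (.c k50
  (.l (.s k3 k2 0 (.s k33 k49 3 (.s k18 k48 4 (.s k51 k34 4 (.d k19 k16 k35 0 3)))))) .n))))))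

def s5_170_222 : T TT 256 :=
  (.q k1 [(.s k33 k49 3 (.s k34 k51 4 (.s k32 k35 0 (.s k48 k16 3 (.d k3 k2 k18 0 4))))), (.s k49
  k33 3 (.s k153 k221 9 (.s k101 k205 13 (.s k117 k69 3 (.d k253 k185 k169 9 13))))), (.s k3 k2 0
  (.s k51 k34 4 (.s k35 k19 3 (.s k153 k221 9 (.s k102 k204 14 (.d k169 k236 k253 10 13))))))] .n)

def s5_170_223 : T TT 256 :=
  (.q k1 [(.s k33 k49 3 (.s k34 k51 4 (.s k32 k35 0 (.s k48 k16 3 (.d k3 k2 k18 0 4))))), (.s k49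
  k33 3 (.s k153 k221 9 (.s k101 k205 13 (.s k117 k69 3 (.d k253 k185 k169 9 13))))), (.s k3 k2 0
  (.s k51 k34 4 (.s k35 k19 3 (.s k153 k221 9 (.s k102 k204 14 (.d k169 k236 k253 10 13))))))] .n)

def s5_170_224 : T TT 256 :=
  (.q k1 [(.s k3 k2 0 (.s k33 k49 3 (.s k18 k48 4 (.s k19 k16 0 (.d k51 k35 k34 3 4))))), (.s k49
  k33 3 (.s k153 k221 9 (.s k101 k205 13 (.s k117 k69 3 (.d k253 k185 k169 9 13))))), (.s k3 k2 0
  (.s k51 k34 4 (.s k35 k19 3 (.s k153 k221 9 (.s k102 k204 14 (.d k169 k236 k253 10 13))))))] .n)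

def s5_170_225 : T TT 256 :=
  (.q k1 [(.s k33 k49 3 (.s k34 k51 4 (.s k32 k35 0 (.s k48 k16 3 (.d k3 k2 k18 0 4))))), (.s k49
  k33 3 (.s k153 k221 9 (.s k101 k205 13 (.s k117 k69 3 (.d k253 k185 k169 9 13))))), (.s k3 k2 0
  (.s k51 k34 4 (.s k35 k19 3 (.s k153 k221 9 (.s k102 k204 14 (.d k169 k236 k253 10 13))))))] .n)

def s5_170_226 : T TT 256 :=
  (.q k1 [(.s k33 k49 3 (.s k34 k51 4 (.s k32 k35 0 (.s k48 k16 3 (.d k3 k2 k18 0 4))))), (.s k49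
  k33 3 (.s k153 k221 9 (.s k101 k205 13 (.s k117 k69 3 (.d k253 k185 k169 9 13))))), (.s k3 k2 0
  (.s k51 k34 4 (.s k35 k19 3 (.s k153 k221 9 (.s k102 k204 14 (.d k169 k236 k253 10 13))))))] .n)

def s5_170_227 : T TT 256 :=
  (.q k1 [(.s k3 k2 0 (.s k33 k49 3 (.s k18 k48 4 (.s k19 k16 0 (.d k51 k35 k34 3 4))))), (.s k49
  k33 3 (.s k153 k221 9 (.s k101 k205 13 (.s k117 k69 3 (.d k253 k185 k169 9 13))))), (.s k3 k2 0
  (.s k51 k34 4 (.s k35 k19 3 (.s k153 k221 9 (.s k102 k204 14 (.d k169 k236 k253 10 13))))))] .n)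

def s5_170_228 : T TT 256 :=
  (.q k1 [(.s k33 k49 3 (.s k34 k51 4 (.s k32 k35 0 (.s k48 k16 3 (.d k3 k2 k18 0 4))))), (.s k49
  k33 3 (.s k153 k221 9 (.s k101 k205 13 (.s k117 k69 3 (.d k253 k185 k169 9 13))))), (.s k3 k2 0
  (.s k51 k34 4 (.s k35 k19 3 (.s k153 k221 9 (.s k102 k204 14 (.d k169 k236 k253 10 13))))))] .n)

def s5_170_229 : T TT 256 :=
  (.q k1 [(.s k33 k49 3 (.s k34 k51 4 (.s k32 k35 0 (.s k48 k16 3 (.d k3 k2 k18 0 4))))), (.s k49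
  k33 3 (.s k153 k221 9 (.s k101 k205 13 (.s k117 k69 3 (.d k253 k185 k169 9 13))))), (.s k3 k2 0
  (.s k51 k34 4 (.s k35 k19 3 (.s k153 k221 9 (.s k102 k204 14 (.d k169 k236 k253 10 13))))))] .n)

def s5_170_230 : T TT 256 :=
  (.q k1 [(.s k33 k49 3 (.s k34 k51 4 (.s k32 k35 0 (.s k48 k16 3 (.d k3 k2 k18 0 4))))), (.s k49
  k33 3 (.s k153 k221 9 (.s k101 k205 13 (.s k117 k69 3 (.d k253 k185 k169 9 13))))), (.s k3 k2 0
  (.s k51 k34 4 (.s k35 k19 3 (.s k153 k221 9 (.s k102 k204 14 (.d k169 k236 k253 10 13))))))] .n)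

def s5_170_231 : T TT 256 :=
  (.q k1 [(.s k33 k49 3 (.s k34 k51 4 (.s k32 k35 0 (.s k48 k16 3 (.d k3 k2 k18 0 4))))), (.s k49
  k33 3 (.s k153 k221 9 (.s k101 k205 13 (.s k117 k69 3 (.d k253 k185 k169 9 13))))), (.s k3 k2 0
  (.s k51 k34 4 (.s k35 k19 3 (.s k153 k221 9 (.s k102 k204 14 (.d k169 k236 k253 10 13))))))] .n)

def s5_170_232 : T TT 256 :=
  (.q k1 [(.s k33 k49 3 (.s k34 k51 4 (.s k32 k35 0 (.s k48 k16 3 (.d k3 k2 k18 0 4))))), (.s k49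
  k33 3 (.s k153 k221 9 (.s k101 k205 13 (.s k117 k69 3 (.d k253 k185 k169 9 13))))), (.s k3 k2 0
  (.s k51 k34 4 (.s k35 k19 3 (.s k153 k221 9 (.s k102 k204 14 (.d k169 k236 k253 10 13))))))] .n)

def s5_170_233 : T TT 256 :=
  (.q k1 [(.s k33 k49 3 (.s k34 k51 4 (.s k32 k35 0 (.s k48 k16 3 (.d k3 k2 k18 0 4))))), (.s k49
  k33 3 (.s k153 k221 9 (.s k101 k205 13 (.s k117 k69 3 (.d k253 k185 k169 9 13))))), (.s k3 k2 0
  (.s k51 k34 4 (.s k35 k19 3 (.s k153 k221 9 (.s k102 k204 14 (.d k169 k236 k253 10 13))))))] .n)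

def s5_170_234 : T TT 256 :=
  (.f k153 k221 9 (.q k106 [(.s k51 k34 4 (.s k59 k200 12 (.s k63 k55 1 (.s k64 k127 6 (.d k192 k128
  k149 7 14))))), (.s k64 k127 6 (.s k192 k128 7 (.s k149 k63 14 (.s k21 k213 7 (.s k29 k25 1 (.s
  k145 k157 1 (.d k209 k81 k89 7 9))))))), (.s k51 k34 4 (.s k59 k200 12 (.s k63 k55 1 (.s k21 k42 6
  (.d k149 k213 k192 7 14))))), (.s k51 k34 4 (.s k64 k127 6 (.s k102 k204 14 (.s k98 k110 1 (.d
  k192 k128 k145 7 12)))))] (.c k63 (.l (.s k51 k34 4 (.s k64 k127 6 (.s k102 k204 14 (.s k192 k128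
  7 (.d k98 k110 k145 1 12)))))) (.c k192 (.l (.s k51 k34 4 (.s k59 k200 12 (.s k63 k55 1 (.s k127
  k64 6 (.s k255 k191 7 (.s k119 k187 9 (.d k102 k204 k68 14 4)))))))) .n))))

def s5_170_235 : T TT 256 :=
  (.f k153 k221 9 (.q k105 [(.s k51 k34 4 (.s k57 k201 11 (.s k60 k54 2 (.s k20 k40 5 (.d k150 k215
  k195 8 14))))), (.s k65 k125 5 (.s k195 k130 8 (.s k150 k60 14 (.s k147 k156 2 (.d k51 k34 k99 4
  11))))), (.s k65 k125 5 (.s k195 k130 8 (.s k201 k57 11 (.s k204 k198 2 (.s k68 k136 9 (.d k102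
  k119 k51 4 14))))))] (.c k51 (.q k1 [(.s k49 k33 3 (.s k101 k205 13 (.s k117 k69 3 (.d k253 k185
  k169 9 13)))), (.s k49 k33 3 (.s k57 k201 11 (.s k61 k53 1 (.s k21 k41 5 (.d k149 k213 k193 7
  13))))), (.s k57 k201 11 (.s k169 k253 13 (.s k41 k233 7 (.s k21 k61 5 (.d k25 k29 k9 1 3)))))]
  .n) (.c k150 (.l (.s k51 k34 4 (.s k65 k125 5 (.s k102 k204 14 (.s k99 k108 2 (.d k195 k130 k147 8
  11)))))) (.c k195 (.l (.s k51 k34 4 (.s k57 k201 11 (.s k60 k54 2 (.s k125 k65 5 (.s k255 k190 8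
  (.s k119 k187 9 (.d k102 k204 k68 14 4)))))))) .n)))))

def s5_170_236 : T TT 256 :=
  (.q k1 [(.s k3 k2 0 (.s k33 k49 3 (.s k18 k48 4 (.s k19 k16 0 (.d k51 k35 k34 3 4))))), (.s k49
  k33 3 (.s k153 k221 9 (.s k101 k205 13 (.s k117 k69 3 (.d k253 k185 k169 9 13))))), (.s k3 k2 0
  (.s k51 k34 4 (.s k153 k221 9 (.s k169 k253 13 (.s k86 k252 14 (.d k19 k220 k35 10 3))))))] .n)

def s5_170_237 : T TT 256 :=
  (.q k1 [(.s k49 k33 3 (.s k153 k221 9 (.s k101 k205 13 (.s k253 k169 13 (.d k117 k69 k185 3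
  9))))), (.s k3 k2 0 (.s k33 k49 3 (.s k18 k48 4 (.s k19 k16 0 (.d k51 k35 k34 3 4))))), (.s k3 k2
  0 (.s k51 k34 4 (.s k35 k19 3 (.s k153 k221 9 (.s k102 k204 14 (.d k169 k253 k236 13 10))))))] .n)

def s5_170_238 : T TT 256 :=
  (.q k1 [(.s k33 k49 3 (.s k34 k51 4 (.s k32 k35 0 (.s k48 k16 3 (.d k3 k2 k18 0 4))))), (.s k49
  k33 3 (.s k153 k221 9 (.s k101 k205 13 (.s k117 k69 3 (.d k253 k185 k169 9 13))))), (.s k3 k2 0
  (.s k153 k221 9 (.s k169 k253 13 (.s k86 k252 14 (.s k19 k220 10 (.d k51 k34 k35 4 3))))))] (.c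
  k34 (.q k102 [(.s k68 k119 4 (.s k153 k221 9 (.d k204 k136 k51 9 14))), (.s k3 k2 0 (.s k33 k49 3
  (.s k18 k48 4 (.s k19 k16 0 (.s k169 k253 13 (.d k35 k51 k236 3 10))))))] (.c k51 (.l (.s k49 k33
  3 (.s k153 k221 9 (.s k101 k205 13 (.s k117 k69 3 (.d k253 k185 k169 9 13)))))) .n)) (.c k102 (.l
  (.s k34 k51 4 (.s k3 k2 0 (.s k33 k49 3 (.s k32 k35 0 (.d k48 k16 k18 3 4)))))) .n)))

def s5_170_239 : T TT 256 :=
  (.q k101 [(.s k153 k221 9 (.s k49 k205 13 (.s k1 k33 3 (.s k253 k169 13 (.d k117 k69 k185 3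
  9))))), (.s k51 k34 4 (.s k69 k117 3 (.s k207 k138 10 (.s k103 k155 13 (.s k102 k100 0 (.s k68
  k119 4 (.d k204 k136 k153 9 14))))))), (.s k51 k34 4 (.s k153 k221 9 (.s k49 k205 13 (.s k48 k50 0
  (.s k16 k32 3 (.d k154 k223 k207 10 14))))))] (.c k153 (.f k51 k34 4 (.f k69 k117 3 (.l (.s k207
  k138 10 (.s k103 k155 13 (.s k102 k100 0 (.s k68 k119 4 (.s k154 k48 14 (.s k206 k50 13 (.d k204
  k205 k136 0 9)))))))))) .n))

def s5_170_240 : T TT 256 :=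
  (.q k1 [(.s k49 k33 3 (.s k153 k221 9 (.s k101 k205 13 (.s k117 k69 3 (.d k253 k185 k169 9
  13))))), (.s k3 k2 0 (.s k33 k49 3 (.s k18 k48 4 (.s k19 k16 0 (.d k51 k35 k34 3 4))))), (.s k3 k2
  0 (.s k51 k34 4 (.s k35 k19 3 (.s k153 k221 9 (.s k102 k204 14 (.d k169 k236 k253 10 13))))))] .n)

def s5_170_241 : T TT 256 :=
  (.q k1 [(.s k33 k49 3 (.s k34 k51 4 (.s k32 k35 0 (.s k48 k16 3 (.d k3 k2 k18 0 4))))), (.s k49
  k33 3 (.s k153 k221 9 (.s k101 k205 13 (.s k117 k69 3 (.d k253 k185 k169 9 13))))), (.s k3 k2 0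
  (.s k51 k34 4 (.s k35 k19 3 (.s k153 k221 9 (.s k102 k204 14 (.d k169 k236 k253 10 13))))))] .n)

def s5_170_242 : T TT 256 :=
  (.q k1 [(.s k33 k49 3 (.s k34 k51 4 (.s k32 k35 0 (.s k48 k16 3 (.d k3 k2 k18 0 4))))), (.s k49
  k33 3 (.s k153 k221 9 (.s k101 k205 13 (.s k117 k69 3 (.d k253 k185 k169 9 13))))), (.s k3 k2 0
  (.s k51 k34 4 (.s k35 k19 3 (.s k153 k221 9 (.s k102 k204 14 (.d k169 k236 k253 10 13))))))] .n)

def s5_170_243 : T TT 256 :=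
  (.q k1 [(.s k49 k33 3 (.s k153 k221 9 (.s k101 k205 13 (.s k117 k69 3 (.d k253 k185 k169 9
  13))))), (.s k3 k2 0 (.s k33 k49 3 (.s k18 k48 4 (.s k19 k16 0 (.d k51 k35 k34 3 4))))), (.s k3 k2
  0 (.s k51 k34 4 (.s k35 k19 3 (.s k153 k221 9 (.s k102 k204 14 (.d k169 k236 k253 10 13))))))] .n)

def s5_170_244 : T TT 256 :=
  (.q k1 [(.s k33 k49 3 (.s k34 k51 4 (.s k32 k35 0 (.s k48 k16 3 (.d k3 k2 k18 0 4))))), (.s k49
  k33 3 (.s k153 k221 9 (.s k101 k205 13 (.s k117 k69 3 (.d k253 k185 k169 9 13))))), (.s k3 k2 0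
  (.s k51 k34 4 (.s k35 k19 3 (.s k153 k221 9 (.s k102 k204 14 (.d k169 k236 k253 10 13))))))] .n)

def s5_170_245 : T TT 256 :=
  (.q k1 [(.s k33 k49 3 (.s k34 k51 4 (.s k32 k35 0 (.s k48 k16 3 (.d k3 k2 k18 0 4))))), (.s k49
  k33 3 (.s k153 k221 9 (.s k101 k205 13 (.s k117 k69 3 (.d k253 k185 k169 9 13))))), (.s k3 k2 0
  (.s k51 k34 4 (.s k35 k19 3 (.s k153 k221 9 (.s k102 k204 14 (.d k169 k236 k253 10 13))))))] .n)

def s5_170_246 : T TT 256 :=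
  (.q k1 [(.s k33 k49 3 (.s k34 k51 4 (.s k32 k35 0 (.s k48 k16 3 (.d k3 k2 k18 0 4))))), (.s k49
  k33 3 (.s k153 k221 9 (.s k101 k205 13 (.s k117 k69 3 (.d k253 k185 k169 9 13))))), (.s k3 k2 0
  (.s k51 k34 4 (.s k35 k19 3 (.s k153 k221 9 (.s k102 k204 14 (.d k169 k236 k253 10 13))))))] .n)

def s5_170_247 : T TT 256 :=
  (.q k1 [(.s k33 k49 3 (.s k34 k51 4 (.s k32 k35 0 (.s k48 k16 3 (.d k3 k2 k18 0 4))))), (.s k49
  k33 3 (.s k153 k221 9 (.s k101 k205 13 (.s k117 k69 3 (.d k253 k185 k169 9 13))))), (.s k3 k2 0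
  (.s k51 k34 4 (.s k35 k19 3 (.s k153 k221 9 (.s k102 k204 14 (.d k169 k236 k253 10 13))))))] .n)

def s5_170_248 : T TT 256 :=
  (.q k1 [(.s k33 k49 3 (.s k34 k51 4 (.s k32 k35 0 (.s k48 k16 3 (.d k3 k2 k18 0 4))))), (.s k49
  k33 3 (.s k153 k221 9 (.s k101 k205 13 (.s k117 k69 3 (.d k253 k185 k169 9 13))))), (.s k3 k2 0
  (.s k51 k34 4 (.s k35 k19 3 (.s k153 k221 9 (.s k102 k204 14 (.d k169 k236 k253 10 13))))))] .n)

def s5_170_249 : T TT 256 :=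
  (.q k1 [(.s k33 k49 3 (.s k34 k51 4 (.s k32 k35 0 (.s k48 k16 3 (.d k3 k2 k18 0 4))))), (.s k49
  k33 3 (.s k153 k221 9 (.s k101 k205 13 (.s k117 k69 3 (.d k253 k185 k169 9 13))))), (.s k3 k2 0
  (.s k51 k34 4 (.s k35 k19 3 (.s k153 k221 9 (.s k102 k204 14 (.d k169 k236 k253 10 13))))))] .n)

def s5_170_250 : T TT 256 :=
  (.f k153 k221 9 (.q k90 [(.s k27 k216 8 (.s k51 k34 4 (.s k15 k39 5 (.s k80 k95 2 (.d k240 k160
  k165 11 14))))), (.s k80 k95 2 (.s k240 k160 11 (.s k165 k15 14 (.s k177 k141 5 (.d k51 k34 k114 4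
  8))))), (.s k27 k216 8 (.s k51 k34 4 (.s k15 k39 5 (.s k102 k204 14 (.s k114 k78 5 (.d k240 k177
  k165 8 14)))))), (.s k80 k95 2 (.s k216 k27 8 (.s k240 k160 11 (.s k204 k228 5 (.s k68 k136 9 (.d
  k102 k119 k51 4 14))))))] (.c k51 (.q k1 [(.s k49 k33 3 (.s k101 k205 13 (.s k117 k69 3 (.d k253
  k185 k169 9 13)))), (.s k3 k2 0 (.s k80 k95 2 (.s k240 k160 11 (.s k82 k161 12 (.s k86 k94 1 (.s
  k84 k87 0 (.d k252 k168 k169 13 14)))))))] (.c k169 (.l (.s k49 k33 3 (.s k80 k95 2 (.s k101 k205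
  13 (.s k112 k79 6 (.s k64 k96 3 (.s k117 k69 3 (.d k127 k122 k106 2 6)))))))) .n)) (.c k165 (.l
  (.s k51 k34 4 (.s k80 k95 2 (.s k102 k204 14 (.s k114 k78 5 (.d k240 k177 k160 8 11)))))) (.c k240
  (.l (.s k27 k216 8 (.s k51 k34 4 (.s k15 k39 5 (.s k95 k80 2 (.s k255 k175 11 (.s k119 k187 9 (.d
  k102 k204 k68 14 4)))))))) .n)))))

def s5_170_251 : T TT 256 :=
  (.q k89 [(.s k81 k93 1 (.s k209 k145 7 (.s k149 k29 9 (.s k213 k21 7 (.d k221 k217 k153 1 9))))),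
  (.s k51 k34 4 (.s k81 k93 1 (.s k145 k209 7 (.s k98 k192 12 (.s k115 k64 4 (.d k243 k179 k162 7
  12)))))), (.s k51 k34 4 (.s k153 k221 9 (.s k25 k217 7 (.s k12 k38 6 (.s k4 k8 1 (.d k166 k247
  k243 12 14))))))] (.c k209 (.l (.s k51 k34 4 (.s k81 k93 1 (.s k153 k221 9 (.s k102 k204 14 (.s
  k115 k76 6 (.d k243 k179 k162 7 12))))))) .n))

def s5_170_252 : T TT 256 :=
  (.q k1 [(.s k49 k33 3 (.s k153 k221 9 (.s k101 k205 13 (.s k117 k69 3 (.d k253 k185 k169 9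
  13))))), (.s k3 k2 0 (.s k33 k49 3 (.s k18 k48 4 (.s k19 k16 0 (.d k51 k35 k34 3 4))))), (.s k3 k2
  0 (.s k51 k34 4 (.s k35 k19 3 (.s k153 k221 9 (.s k102 k204 14 (.d k169 k236 k253 10 13))))))] .n)

def s5_170_253 : T TT 256 :=
  (.q k16 [(.s k19 k18 0 (.s k153 k221 9 (.s k86 k220 10 (.s k87 k84 0 (.d k223 k155 k154 9 10))))),
  (.s k18 k19 0 (.s k34 k51 4 (.s k2 k50 3 (.s k3 k1 0 (.d k48 k32 k33 3 4))))), (.s k48 k32 3 (.s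
  k51 k34 4 (.s k50 k49 0 (.s k153 k221 9 (.s k102 k204 14 (.d k154 k223 k206 10 13))))))] .n)

def s5_170_254 : T TT 256 :=
  (.q k1 [(.s k33 k49 3 (.s k34 k51 4 (.s k32 k35 0 (.s k48 k16 3 (.d k3 k2 k18 0 4))))), (.s k49
  k33 3 (.s k153 k221 9 (.s k101 k205 13 (.s k117 k69 3 (.d k253 k185 k169 9 13))))), (.s k51 k34 4
  (.s k153 k221 9 (.s k102 k204 14 (.s k169 k253 13 (.s k35 k236 10 (.d k3 k2 k19 0 3))))))] (.c k2
  (.q k86 [(.s k84 k87 0 (.s k169 k253 13 (.d k252 k168 k3 13 14))), (.s k49 k33 3 (.s k153 k221 9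
  (.s k101 k205 13 (.s k117 k69 3 (.d k253 k185 k169 9 13))))), (.s k87 k84 0 (.s k153 k221 9 (.s
  k19 k220 10 (.s k16 k18 0 (.d k223 k155 k154 9 10)))))] .n) (.c k86 (.l (.s k2 k3 0 (.s k49 k33 3
  (.s k153 k221 9 (.s k101 k205 13 (.s k117 k69 3 (.d k253 k169 k185 13 9))))))) .n)))

def s5_170_255 : T TT 256 :=
  (.q k1 [(.s k33 k49 3 (.s k34 k51 4 (.s k32 k35 0 (.s k48 k16 3 (.d k3 k2 k18 0 4))))), (.s k49
  k33 3 (.s k153 k221 9 (.s k101 k205 13 (.s k117 k69 3 (.d k253 k185 k169 9 13))))), (.s k3 k2 0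
  (.s k51 k34 4 (.s k35 k19 3 (.s k153 k221 9 (.s k169 k253 13 (.d k102 k204 k236 14 10))))))] .n)

def t5_170 : T TT 256 :=
  (.q k17 [] (.c k1 s5_170_1 (.c k2 s5_170_2 (.c k3 s5_170_3 (.c k4 s5_170_4 (.c k6 s5_170_6 (.c k7
  s5_170_7 (.c k8 s5_170_8 (.c k9 s5_170_9 (.c k10 s5_170_10 (.c k11 s5_170_11 (.c k12 s5_170_12 (.c
  k13 s5_170_13 (.c k14 s5_170_14 (.c k15 s5_170_15 (.c k16 s5_170_16 (.c k18 s5_170_18 (.c k19
  s5_170_19 (.c k20 s5_170_20 (.c k21 s5_170_21 (.c k22 s5_170_22 (.c k23 s5_170_23 (.c k24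
  s5_170_24 (.c k25 s5_170_25 (.c k26 s5_170_26 (.c k27 s5_170_27 (.c k28 s5_170_28 (.c k29
  s5_170_29 (.c k30 s5_170_30 (.c k31 s5_170_31 (.c k32 s5_170_32 (.c k33 s5_170_33 (.c k34
  s5_170_34 (.c k35 s5_170_35 (.c k36 s5_170_36 (.c k37 s5_170_37 (.c k38 s5_170_38 (.c k39
  s5_170_39 (.c k40 s5_170_40 (.c k41 s5_170_41 (.c k42 s5_170_42 (.c k43 s5_170_43 (.c k44
  s5_170_44 (.c k45 s5_170_45 (.c k46 s5_170_46 (.c k47 s5_170_47 (.c k48 s5_170_48 (.c k49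
  s5_170_49 (.c k50 s5_170_50 (.c k51 s5_170_51 (.c k52 s5_170_52 (.c k53 s5_170_53 (.c k54
  s5_170_54 (.c k55 s5_170_55 (.c k56 s5_170_56 (.c k57 s5_170_57 (.c k58 s5_170_58 (.c k59
  s5_170_59 (.c k60 s5_170_60 (.c k61 s5_170_61 (.c k62 s5_170_62 (.c k63 s5_170_63 (.c k64
  s5_170_64 (.c k65 s5_170_65 (.c k66 s5_170_66 (.c k67 s5_170_67 (.c k68 s5_170_68 (.c k69
  s5_170_69 (.c k70 s5_170_70 (.c k71 s5_170_71 (.c k72 s5_170_72 (.c k73 s5_170_73 (.c k74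
  s5_170_74 (.c k75 s5_170_75 (.c k76 s5_170_76 (.c k77 s5_170_77 (.c k78 s5_170_78 (.c k79
  s5_170_79 (.c k80 s5_170_80 (.c k81 s5_170_81 (.c k82 s5_170_82 (.c k83 s5_170_83 (.c k84
  s5_170_84 (.c k86 s5_170_86 (.c k87 s5_170_87 (.c k88 s5_170_88 (.c k89 s5_170_89 (.c k90
  s5_170_90 (.c k91 s5_170_91 (.c k92 s5_170_92 (.c k93 s5_170_93 (.c k94 s5_170_94 (.c k95
  s5_170_95 (.c k96 s5_170_96 (.c k97 s5_170_97 (.c k98 s5_170_98 (.c k99 s5_170_99 (.c k100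
  s5_170_100 (.c k101 s5_170_101 (.c k102 s5_170_102 (.c k103 s5_170_103 (.c k104 s5_170_104 (.c
  k105 s5_170_105 (.c k106 s5_170_106 (.c k107 s5_170_107 (.c k108 s5_170_108 (.c k109 s5_170_109
  (.c k110 s5_170_110 (.c k111 s5_170_111 (.c k112 s5_170_112 (.c k113 s5_170_113 (.c k114
  s5_170_114 (.c k115 s5_170_115 (.c k116 s5_170_116 (.c k117 s5_170_117 (.c k118 s5_170_118 (.c
  k119 s5_170_119 (.c k120 s5_170_120 (.c k121 s5_170_121 (.c k122 s5_170_122 (.c k123 s5_170_123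
  (.c k124 s5_170_124 (.c k125 s5_170_125 (.c k126 s5_170_126 (.c k127 s5_170_127 (.c k128
  s5_170_128 (.c k129 s5_170_129 (.c k130 s5_170_130 (.c k131 s5_170_131 (.c k132 s5_170_132 (.c
  k133 s5_170_133 (.c k134 s5_170_134 (.c k135 s5_170_135 (.c k136 s5_170_136 (.c k137 s5_170_137
  (.c k138 s5_170_138 (.c k139 s5_170_139 (.c k140 s5_170_140 (.c k141 s5_170_141 (.c k142
  s5_170_142 (.c k143 s5_170_143 (.c k144 s5_170_144 (.c k145 s5_170_145 (.c k146 s5_170_146 (.c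
  k147 s5_170_147 (.c k148 s5_170_148 (.c k149 s5_170_149 (.c k150 s5_170_150 (.c k151 s5_170_151
  (.c k152 s5_170_152 (.c k153 s5_170_153 (.c k154 s5_170_154 (.c k155 s5_170_155 (.c k156
  s5_170_156 (.c k157 s5_170_157 (.c k158 s5_170_158 (.c k159 s5_170_159 (.c k160 s5_170_160 (.c
  k161 s5_170_161 (.c k162 s5_170_162 (.c k163 s5_170_163 (.c k164 s5_170_164 (.c k165 s5_170_165
  (.c k166 s5_170_166 (.c k167 s5_170_167 (.c k168 s5_170_168 (.c k169 s5_170_169 (.c k171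
  s5_170_171 (.c k172 s5_170_172 (.c k173 s5_170_173 (.c k174 s5_170_174 (.c k175 s5_170_175 (.c
  k176 s5_170_176 (.c k177 s5_170_177 (.c k178 s5_170_178 (.c k179 s5_170_179 (.c k180 s5_170_180
  (.c k181 s5_170_181 (.c k182 s5_170_182 (.c k183 s5_170_183 (.c k184 s5_170_184 (.c k185
  s5_170_185 (.c k186 s5_170_186 (.c k187 s5_170_187 (.c k188 s5_170_188 (.c k189 s5_170_189 (.c
  k190 s5_170_190 (.c k191 s5_170_191 (.c k192 s5_170_192 (.c k193 s5_170_193 (.c k194 s5_170_194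
  (.c k195 s5_170_195 (.c k196 s5_170_196 (.c k197 s5_170_197 (.c k198 s5_170_198 (.c k199
  s5_170_199 (.c k200 s5_170_200 (.c k201 s5_170_201 (.c k202 s5_170_202 (.c k203 s5_170_203 (.c
  k204 s5_170_204 (.c k205 s5_170_205 (.c k206 s5_170_206 (.c k207 s5_170_207 (.c k208 s5_170_208
  (.c k209 s5_170_209 (.c k210 s5_170_210 (.c k211 s5_170_211 (.c k212 s5_170_212 (.c k213
  s5_170_213 (.c k214 s5_170_214 (.c k215 s5_170_215 (.c k216 s5_170_216 (.c k217 s5_170_217 (.c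
  k218 s5_170_218 (.c k219 s5_170_219 (.c k220 s5_170_220 (.c k221 s5_170_221 (.c k222 s5_170_222
  (.c k223 s5_170_223 (.c k224 s5_170_224 (.c k225 s5_170_225 (.c k226 s5_170_226 (.c k227
  s5_170_227 (.c k228 s5_170_228 (.c k229 s5_170_229 (.c k230 s5_170_230 (.c k231 s5_170_231 (.c
  k232 s5_170_232 (.c k233 s5_170_233 (.c k234 s5_170_234 (.c k235 s5_170_235 (.c k236 s5_170_236
  (.c k237 s5_170_237 (.c k238 s5_170_238 (.c k239 s5_170_239 (.c k240 s5_170_240 (.c k241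
  s5_170_241 (.c k242 s5_170_242 (.c k243 s5_170_243 (.c k244 s5_170_244 (.c k245 s5_170_245 (.c
  k246 s5_170_246 (.c k247 s5_170_247 (.c k248 s5_170_248 (.c k249 s5_170_249 (.c k250 s5_170_250
  (.c k251 s5_170_251 (.c k252 s5_170_252 (.c k253 s5_170_253 (.c k254 s5_170_254 (.c k255
  s5_170_255 .n))))))))))))))))))))))))))))))))))))))))))))))))))))))))))))))))))))))))))))))))
  ))))))))))))))))))))))))))))))))))))))))))))))))))))))))))))))))))))))))))))))))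
  )))))))))))))))))))))))))))))))))))))))))))))))))))))))))))))))))))))))))))))))) ))))))))))))

def s6_170_1 : T TT 256 :=
  (.q k16 [(.s k80 k95 2 (.s k154 k223 10 (.s k26 k218 7 (.s k208 k144 7 (.d k31 k21 k149 2 10))))),
  (.s k48 k32 3 (.s k80 k95 2 (.s k144 k208 7 (.s k96 k192 11 (.s k112 k64 3 (.d k240 k176 k160 7
  11)))))), (.s k48 k32 3 (.s k154 k223 10 (.s k26 k218 7 (.s k15 k37 6 (.s k5 k10 2 (.d k165 k245
  k240 11 14))))))] (.c k208 (.l (.s k48 k32 3 (.s k80 k95 2 (.s k154 k223 10 (.s k101 k207 14 (.s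
  k112 k79 6 (.d k240 k176 k160 7 11))))))) .n))

def s6_170_2 : T TT 256 :=
  (.f k80 k95 2 (.q k86 [(.s k82 k94 1 (.s k83 k81 0 (.s k84 k87 0 (.d k92 k88 k89 1 2)))), (.s k84
  k87 0 (.s k240 k160 11 (.s k165 k15 14 (.s k244 k7 12 (.d k252 k248 k168 1 13))))), (.s k82 k94 1
  (.s k240 k160 11 (.s k3 k161 12 (.s k165 k15 14 (.s k244 k7 12 (.d k252 k248 k169 1 14))))))] (.c
  k10 (.q k14 [(.s k82 k94 1 (.s k83 k81 0 (.s k84 k87 0 (.d k92 k88 k89 1 2)))), (.s k84 k87 0 (.s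
  k240 k160 11 (.s k165 k15 14 (.s k244 k7 12 (.d k252 k248 k168 1 13))))), (.s k82 k94 1 (.s k240
  k160 11 (.s k242 k166 13 (.s k243 k241 0 (.d k81 k162 k83 12 0)))))] (.c k83 (.l (.s k82 k94 1 (.s
  k240 k160 11 (.s k3 k161 12 (.s k252 k169 14 (.d k84 k168 k87 13 0)))))) .n)) (.c k14 (.q k10 [(.s
  k240 k160 11 (.d k15 k165 k5 14 2)), (.s k82 k94 1 (.s k83 k81 0 (.s k84 k87 0 (.d k92 k88 k89 1
  2))))] .n) .n))))

def s6_170_3 : T TT 256 :=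
  (.q k12 [(.s k4 k8 1 (.s k80 k95 2 (.s k166 k247 12 (.s k14 k242 13 (.s k15 k13 0 (.d k240 k160
  k165 11 14)))))), (.s k80 k95 2 (.s k240 k160 11 (.s k88 k164 13 (.s k89 k91 0 (.s k81 k93 1 (.d
  k243 k162 k166 12 14)))))), (.s k4 k8 1 (.s k166 k247 12 (.s k14 k242 13 (.s k15 k13 0 (.s k5 k10
  2 (.d k165 k245 k240 11 14)))))), (.s k8 k4 1 (.s k80 k95 2 (.s k240 k160 11 (.s k88 k164 13 (.s
  k84 k92 1 (.d k168 k248 k252 11 13))))))] (.c k165 (.l (.s k4 k8 1 (.s k80 k95 2 (.s k166 k247 12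
  (.s k89 k243 14 (.s k88 k91 0 (.d k240 k160 k164 11 13))))))) (.c k240 (.f k4 k8 1 (.l (.s k80 k95
  2 (.s k166 k247 12 (.s k89 k243 14 (.s k81 k93 1 (.s k88 k91 0 (.s k92 k84 1 (.d k83 k82 k86 0
  2))))))))) .n)))

def s6_170_4 : T TT 256 :=
  (.f k80 k95 2 (.f k160 k240 11 (.q k16 [(.s k144 k208 7 (.s k128 k176 3 (.s k192 k64 7 (.d k48 k32
  k96 3 11)))), (.s k154 k223 10 (.s k26 k218 7 (.s k31 k21 2 (.d k208 k144 k149 7 10)))), (.s k48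
  k32 3 (.s k154 k223 10 (.s k101 k207 14 (.s k112 k79 6 (.s k64 k96 3 (.s k117 k69 3 (.d k127 k122
  k106 2 6)))))))] (.c k5 (.q k7 [(.s k144 k208 7 (.s k128 k176 3 (.s k192 k64 7 (.d k48 k32 k96 3
  11)))), (.s k154 k223 10 (.s k26 k218 7 (.s k31 k21 2 (.d k208 k144 k149 7 10)))), (.s k48 k32 3
  (.s k154 k223 10 (.s k101 k207 14 (.s k112 k79 6 (.s k64 k96 3 (.s k117 k69 3 (.d k127 k122 k106 2
  6)))))))] .n) (.c k7 (.q k5 [(.s k48 k32 3 (.s k144 k208 7 (.s k128 k176 3 (.d k192 k64 k96 7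
  11)))), (.s k15 k10 2 (.s k154 k223 10 (.s k26 k218 7 (.d k48 k32 k37 3 6)))), (.s k144 k208 7 (.s
  k154 k223 10 (.s k165 k245 11 (.d k176 k128 k143 3 6))))] (.c k208 (.l (.s k15 k10 2 (.s k48 k32 3
  (.s k26 k37 6 (.d k154 k218 k223 7 10))))) .n)) .n)))))

def s6_170_5 : T TT 256 :=
  (.f k80 k95 2 (.q k4 [(.s k12 k8 1 (.s k166 k247 12 (.s k14 k242 13 (.s k240 k160 11 (.d k15 k165
  k13 14 0))))), (.s k12 k8 1 (.s k166 k247 12 (.s k89 k243 14 (.s k81 k93 1 (.s k83 k82 0 (.s k88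
  k91 0 (.d k92 k84 k86 1 2))))))), (.s k166 k247 12 (.s k240 k160 11 (.s k165 k15 14 (.s k164 k167
  0 (.s k84 k244 11 (.d k88 k92 k12 1 13)))))), (.s k12 k8 1 (.s k240 k160 11 (.s k88 k164 13 (.s
  k89 k91 0 (.s k81 k93 1 (.s k83 k82 0 (.d k92 k84 k86 1 2)))))))] (.c k12 (.q k3 [(.s k1 k2 0 (.s
  k169 k253 13 (.s k11 k248 12 (.s k15 k7 1 (.d k240 k160 k165 11 14))))), (.s k240 k160 11 (.s k82
  k161 12 (.s k86 k94 1 (.s k84 k87 0 (.d k252 k168 k169 13 14))))), (.s k1 k2 0 (.s k166 k247 12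
  (.s k169 k253 13 (.s k86 k252 14 (.s k82 k94 1 (.s k83 k81 0 (.d k163 k172 k243 2 11))))))), (.s
  k2 k1 0 (.s k166 k247 12 (.s k240 k160 11 (.s k82 k161 12 (.d k242 k162 k14 11 13)))))] .n) .n)))

def s6_170_7 : T TT 256 :=
  (.f k80 k95 2 (.q k12 [(.s k4 k8 1 (.s k166 k247 12 (.s k14 k242 13 (.s k15 k13 0 (.d k240 k160
  k165 11 14))))), (.s k240 k160 11 (.s k88 k164 13 (.s k84 k92 1 (.s k168 k252 13 (.d k8 k4 k248 1
  11))))), (.s k4 k8 1 (.s k166 k247 12 (.s k89 k243 14 (.s k81 k93 1 (.s k83 k82 0 (.s k88 k91 0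
  (.d k92 k84 k86 1 2)))))))] (.c k4 (.q k5 [(.s k165 k245 11 (.d k15 k10 k240 2 14)), (.s k240 k160
  11 (.s k88 k164 13 (.s k89 k91 0 (.s k81 k93 1 (.d k243 k162 k166 12 14)))))] (.c k165 (.l (.s k15
  k10 2 (.s k14 k13 0 (.s k166 k242 13 (.s k89 k243 14 (.s k88 k91 0 (.d k240 k160 k164 11 13)))))))
  (.c k240 (.l (.s k15 k10 2 (.s k14 k13 0 (.s k165 k245 11 (.s k166 k242 13 (.s k167 k164 0 (.d
  k243 k91 k89 13 14))))))) .n))) (.c k5 (.l (.s k4 k8 1 (.s k166 k247 12 (.s k14 k242 13 (.s k15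
  k13 0 (.d k240 k160 k165 11 14)))))) (.c k8 (.l (.s k240 k160 11 (.s k88 k164 13 (.s k89 k91 0 (.s
  k81 k93 1 (.d k243 k162 k166 12 14)))))) .n)))))

def s6_170_8 : T TT 256 :=
  (.q k89 [(.s k80 k95 2 (.s k81 k93 1 (.s k83 k82 0 (.s k88 k91 0 (.d k92 k84 k86 1 2))))), (.s k81
  k93 1 (.s k91 k88 0 (.s k243 k162 12 (.s k15 k167 13 (.s k5 k10 2 (.d k165 k245 k240 11 14)))))),
  (.s k80 k95 2 (.s k81 k93 1 (.s k240 k160 11 (.s k165 k15 14 (.s k241 k13 13 (.d k243 k242 k162 0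
  12)))))), (.s k80 k95 2 (.s k88 k91 0 (.s k240 k160 11 (.s k12 k164 13 (.s k165 k15 14 (.s k241
  k13 13 (.d k243 k242 k166 0 14)))))))] .n)

def s6_170_9 : T TT 256 :=
  (.q k3 [(.s k1 k2 0 (.s k80 k95 2 (.s k169 k253 13 (.s k11 k248 12 (.s k240 k160 11 (.d k15 k165
  k7 14 1)))))), (.s k80 k95 2 (.s k240 k160 11 (.s k82 k161 12 (.s k86 k94 1 (.s k84 k87 0 (.d k252
  k168 k169 13 14)))))), (.s k1 k2 0 (.s k169 k253 13 (.s k11 k248 12 (.s k15 k7 1 (.s k165 k240 14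
  (.d k5 k10 k245 2 11)))))), (.s k2 k1 0 (.s k80 k95 2 (.s k240 k160 11 (.s k82 k161 12 (.s k81 k83
  0 (.d k162 k242 k243 11 12))))))] (.c k165 (.l (.s k1 k2 0 (.s k80 k95 2 (.s k169 k253 13 (.s k86
  k252 14 (.s k82 k94 1 (.d k240 k160 k161 11 12))))))) (.c k240 (.f k1 k2 0 (.l (.s k80 k95 2 (.s
  k169 k253 13 (.s k86 k252 14 (.s k82 k94 1 (.s k83 k81 0 (.s k84 k87 0 (.d k92 k88 k89 1
  2))))))))) .n)))

def s6_170_10 : T TT 256 :=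
  (.f k80 k95 2 (.q k166 [(.s k4 k247 12 (.s k12 k8 1 (.s k14 k242 13 (.s k15 k13 0 (.d k240 k160
  k165 11 14))))), (.s k240 k160 11 (.s k165 k15 14 (.s k167 k164 0 (.s k245 k5 11 (.s k247 k4 12
  (.s k7 k87 11 (.d k244 k246 k86 0 12))))))), (.s k4 k247 12 (.s k12 k8 1 (.s k89 k243 14 (.s k81
  k93 1 (.s k83 k82 0 (.s k88 k91 0 (.d k92 k84 k86 1 2))))))), (.s k240 k160 11 (.s k165 k15 14 (.s
  k164 k167 0 (.s k12 k88 13 (.s k243 k89 14 (.d k242 k14 k241 13 0))))))] (.c k2 (.l (.s k14 k242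
  13 (.s k4 k247 12 (.s k12 k8 1 (.s k15 k13 0 (.d k240 k160 k165 11 14)))))) (.c k14 (.q k2 [(.s k3
  k1 0 (.s k240 k160 11 (.s k82 k161 12 (.s k162 k242 11 (.d k81 k83 k243 0 12))))), (.s k4 k247 12
  (.s k12 k8 1 (.s k89 k243 14 (.s k88 k91 0 (.s k84 k92 1 (.d k164 k244 k240 11 13)))))), (.s k4
  k247 12 (.s k12 k8 1 (.s k240 k160 11 (.s k164 k88 13 (.d k165 k167 k15 0 14)))))] (.c k240 (.l
  (.s k4 k247 12 (.s k12 k8 1 (.s k89 k243 14 (.s k81 k93 1 (.s k83 k82 0 (.s k88 k91 0 (.d k92 k84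
  k86 1 2)))))))) .n)) (.c k15 (.l (.s k4 k247 12 (.s k12 k8 1 (.s k89 k243 14 (.s k240 k160 11 (.d
  k88 k91 k164 0 13)))))) .n)))))

def s6_170_11 : T TT 256 :=
  (.q k16 [(.s k80 k95 2 (.s k208 k144 7 (.s k149 k31 10 (.s k213 k21 7 (.d k223 k218 k154 2
  10))))), (.s k48 k32 3 (.s k80 k95 2 (.s k144 k208 7 (.s k96 k192 11 (.s k112 k64 3 (.d k240 k176
  k160 7 11)))))), (.s k48 k32 3 (.s k154 k223 10 (.s k26 k218 7 (.s k15 k37 6 (.s k5 k10 2 (.d k165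
  k245 k240 11 14))))))] (.c k208 (.l (.s k48 k32 3 (.s k80 k95 2 (.s k154 k223 10 (.s k101 k207 14
  (.s k112 k79 6 (.d k240 k176 k160 7 11))))))) .n))

def s6_170_12 : T TT 256 :=
  (.q k3 [(.s k1 k2 0 (.s k80 k95 2 (.s k169 k253 13 (.s k11 k248 12 (.s k240 k160 11 (.d k15 k165
  k7 14 1)))))), (.s k80 k95 2 (.s k240 k160 11 (.s k82 k161 12 (.s k86 k94 1 (.s k84 k87 0 (.d k252
  k168 k169 13 14)))))), (.s k1 k2 0 (.s k169 k253 13 (.s k11 k248 12 (.s k15 k7 1 (.s k165 k240 14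
  (.d k5 k10 k245 2 11)))))), (.s k2 k1 0 (.s k80 k95 2 (.s k240 k160 11 (.s k82 k161 12 (.s k81 k83
  0 (.d k162 k242 k243 11 12))))))] (.c k165 (.l (.s k1 k2 0 (.s k80 k95 2 (.s k169 k253 13 (.s k86
  k252 14 (.s k82 k94 1 (.d k240 k160 k161 11 12))))))) (.c k240 (.f k1 k2 0 (.l (.s k80 k95 2 (.s
  k169 k253 13 (.s k86 k252 14 (.s k82 k94 1 (.s k83 k81 0 (.s k84 k87 0 (.d k92 k88 k89 1
  2))))))))) .n)))

def s6_170_13 : T TT 256 :=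
  (.q k16 [(.s k80 k95 2 (.s k208 k144 7 (.s k149 k31 10 (.s k213 k21 7 (.d k223 k218 k154 2
  10))))), (.s k48 k32 3 (.s k80 k95 2 (.s k144 k208 7 (.s k96 k192 11 (.s k112 k64 3 (.d k240 k176
  k160 7 11)))))), (.s k48 k32 3 (.s k154 k223 10 (.s k26 k218 7 (.s k15 k37 6 (.s k5 k10 2 (.d k165
  k245 k240 11 14))))))] (.c k208 (.l (.s k48 k32 3 (.s k80 k95 2 (.s k154 k223 10 (.s k101 k207 14
  (.s k112 k79 6 (.d k240 k176 k160 7 11))))))) .n))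

def s6_170_14 : T TT 256 :=
  (.f k80 k95 2 (.q k86 [(.s k82 k94 1 (.s k83 k81 0 (.s k84 k87 0 (.d k92 k88 k89 1 2)))), (.s k84
  k87 0 (.s k240 k160 11 (.s k165 k15 14 (.s k244 k7 12 (.d k252 k248 k168 1 13))))), (.s k82 k94 1
  (.s k240 k160 11 (.s k3 k161 12 (.s k169 k252 14 (.d k1 k2 k253 0 13)))))] (.c k2 (.q k10 [(.s
  k240 k160 11 (.d k15 k165 k5 14 2)), (.s k82 k94 1 (.s k83 k81 0 (.s k84 k87 0 (.d k92 k88 k89 1
  2))))] .n) (.c k10 (.q k2 [(.s k3 k1 0 (.s k84 k87 0 (.d k252 k168 k169 13 14))), (.s k3 k1 0 (.s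
  k82 k94 1 (.d k240 k160 k161 11 12))), (.s k82 k94 1 (.s k81 k83 0 (.d k162 k242 k243 11 12)))]
  .n) .n))))

def s6_170_15 : T TT 256 :=
  (.f k80 k95 2 (.q k112 [(.s k64 k96 3 (.s k79 k101 6 (.s k74 k69 2 (.d k106 k122 k127 3 6)))), (.s
  k96 k64 3 (.s k240 k160 11 (.s k48 k176 7 (.s k144 k192 11 (.d k16 k32 k208 3 7))))), (.s k101 k79
  6 (.s k69 k117 3 (.s k207 k138 10 (.s k240 k160 11 (.d k48 k154 k176 14 7)))))] (.c k175 (.q k255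
  [(.s k64 k96 3 (.s k79 k101 6 (.s k74 k69 2 (.d k106 k122 k127 3 6)))), (.s k64 k96 3 (.s k192
  k128 7 (.s k213 k234 6 (.s k149 k21 7 (.s k208 k31 10 (.d k240 k160 k224 11 3)))))), (.s k101 k79
  6 (.s k69 k117 3 (.s k207 k138 10 (.s k154 k48 14 (.d k223 k239 k16 3 10)))))] (.c k160 (.q k165
  [(.s k64 k96 3 (.s k79 k101 6 (.s k74 k69 2 (.d k106 k122 k127 3 6)))), (.s k245 k5 11 (.s k240
  k250 2 (.s k48 k176 7 (.s k117 k186 10 (.d k101 k69 k79 3 6))))), (.s k64 k96 3 (.s k192 k128 7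
  (.s k213 k234 6 (.s k149 k21 7 (.d k106 k127 k63 6 14)))))] .n) (.c k165 (.l (.s k160 k240 11 (.s
  k64 k96 3 (.s k79 k101 6 (.s k74 k69 2 (.d k106 k122 k127 3 6)))))) .n))) (.c k255 (.q k175 [(.s
  k64 k96 3 (.s k79 k101 6 (.s k74 k69 2 (.d k106 k122 k127 3 6)))), (.s k96 k64 3 (.s k240 k160 11
  (.s k48 k176 7 (.s k144 k192 11 (.d k16 k32 k208 3 7))))), (.s k101 k79 6 (.s k69 k117 3 (.s k207
  k138 10 (.s k240 k160 11 (.d k48 k154 k176 14 7)))))] .n) .n))))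

def s6_170_16 : T TT 256 :=
  (.q k64 [(.s k80 k95 2 (.s k112 k96 3 (.s k101 k79 6 (.s k117 k69 3 (.d k127 k122 k106 2 6))))),
  (.s k80 k95 2 (.s k192 k128 7 (.s k240 k160 11 (.s k165 k15 14 (.s k224 k208 3 (.d k106 k127 k47 6
  10)))))), (.s k106 k127 6 (.s k74 k122 3 (.s k192 k128 7 (.s k15 k133 10 (.s k5 k10 2 (.d k165
  k245 k240 11 14))))))] (.c k106 (.l (.s k80 k95 2 (.s k112 k96 3 (.s k101 k79 6 (.s k69 k117 3 (.s
  k207 k138 10 (.s k240 k160 11 (.d k48 k154 k176 14 7)))))))) (.c k127 (.l (.s k80 k95 2 (.s k112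
  k96 3 (.s k79 k101 6 (.s k69 k74 2 (.s k207 k138 10 (.s k15 k143 7 (.d k240 k160 k165 11
  14)))))))) .n)))

def s6_170_17 : T TT 256 :=
  (.q k16 [(.s k80 k95 2 (.s k154 k223 10 (.s k26 k218 7 (.s k208 k144 7 (.d k31 k21 k149 2 10))))),
  (.s k48 k32 3 (.s k80 k95 2 (.s k144 k208 7 (.s k96 k192 11 (.s k112 k64 3 (.d k240 k176 k160 7
  11)))))), (.s k48 k32 3 (.s k154 k223 10 (.s k26 k218 7 (.s k15 k37 6 (.s k5 k10 2 (.d k165 k245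
  k240 11 14))))))] (.c k208 (.l (.s k48 k32 3 (.s k80 k95 2 (.s k154 k223 10 (.s k101 k207 14 (.s
  k112 k79 6 (.d k240 k176 k160 7 11))))))) .n))

def s6_170_18 : T TT 256 :=
  (.q k16 [(.s k80 k95 2 (.s k208 k144 7 (.s k149 k31 10 (.s k213 k21 7 (.d k223 k218 k154 2
  10))))), (.s k48 k32 3 (.s k80 k95 2 (.s k144 k208 7 (.s k96 k192 11 (.s k112 k64 3 (.d k240 k176
  k160 7 11)))))), (.s k48 k32 3 (.s k154 k223 10 (.s k26 k218 7 (.s k15 k37 6 (.s k5 k10 2 (.d k165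
  k245 k240 11 14))))))] (.c k208 (.l (.s k48 k32 3 (.s k80 k95 2 (.s k154 k223 10 (.s k101 k207 14
  (.s k112 k79 6 (.d k240 k176 k160 7 11))))))) .n))

def s6_170_19 : T TT 256 :=
  (.q k16 [(.s k80 k95 2 (.s k208 k144 7 (.s k149 k31 10 (.s k213 k21 7 (.d k223 k218 k154 2
  10))))), (.s k48 k32 3 (.s k80 k95 2 (.s k144 k208 7 (.s k96 k192 11 (.s k112 k64 3 (.d k240 k176
  k160 7 11)))))), (.s k48 k32 3 (.s k154 k223 10 (.s k26 k218 7 (.s k15 k37 6 (.s k5 k10 2 (.d k165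
  k245 k240 11 14))))))] (.c k208 (.l (.s k48 k32 3 (.s k80 k95 2 (.s k154 k223 10 (.s k101 k207 14
  (.s k112 k79 6 (.d k240 k176 k160 7 11))))))) .n))

def s6_170_20 : T TT 256 :=
  (.q k16 [(.s k80 k95 2 (.s k154 k223 10 (.s k26 k218 7 (.s k208 k144 7 (.d k31 k21 k149 2 10))))),
  (.s k48 k32 3 (.s k80 k95 2 (.s k144 k208 7 (.s k96 k192 11 (.s k112 k64 3 (.d k240 k176 k160 7
  11)))))), (.s k48 k32 3 (.s k154 k223 10 (.s k26 k218 7 (.s k15 k37 6 (.s k5 k10 2 (.d k165 k245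
  k240 11 14))))))] (.c k208 (.l (.s k48 k32 3 (.s k80 k95 2 (.s k154 k223 10 (.s k101 k207 14 (.s
  k112 k79 6 (.d k240 k176 k160 7 11))))))) .n))

def s6_170_21 : T TT 256 :=
  (.q k16 [(.s k80 k95 2 (.s k144 k208 7 (.s k160 k240 11 (.s k128 k176 3 (.s k192 k64 7 (.d k48 k32
  k96 3 11)))))), (.s k48 k32 3 (.s k154 k223 10 (.s k26 k218 7 (.s k15 k37 6 (.s k5 k10 2 (.d k165
  k245 k240 11 14)))))), (.s k80 k95 2 (.s k154 k223 10 (.s k218 k26 7 (.s k240 k160 11 (.s k207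
  k229 6 (.s k69 k138 10 (.d k101 k117 k48 3 14)))))))] (.c k48 (.l (.s k80 k95 2 (.s k208 k144 7
  (.s k149 k31 10 (.s k240 k160 11 (.s k192 k224 3 (.s k106 k63 14 (.d k64 k128 k127 7 6)))))))) (.c
  k240 (.l (.s k48 k32 3 (.s k80 k95 2 (.s k144 k208 7 (.s k154 k223 10 (.s k101 k207 14 (.s k112
  k79 6 (.d k96 k192 k64 11 3)))))))) .n)))

def s6_170_22 : T TT 256 :=
  (.f k80 k95 2 (.f k160 k240 11 (.q k16 [(.s k144 k208 7 (.s k128 k176 3 (.s k192 k64 7 (.d k48 k32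
  k96 3 11)))), (.s k154 k223 10 (.s k26 k218 7 (.s k31 k21 2 (.d k208 k144 k149 7 10)))), (.s k48
  k32 3 (.s k154 k223 10 (.s k101 k207 14 (.s k112 k79 6 (.s k64 k96 3 (.s k117 k69 3 (.d k127 k122
  k106 2 6)))))))] (.c k38 (.q k54 [(.s k144 k208 7 (.s k128 k176 3 (.s k192 k64 7 (.d k48 k32 k96 3
  11)))), (.s k154 k223 10 (.s k26 k218 7 (.s k31 k21 2 (.d k208 k144 k149 7 10)))), (.s k48 k32 3
  (.s k154 k223 10 (.s k101 k207 14 (.s k112 k79 6 (.s k64 k96 3 (.s k117 k69 3 (.d k127 k122 k106 2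
  6)))))))] .n) (.c k54 (.q k38 [(.s k144 k208 7 (.s k128 k176 3 (.s k192 k64 7 (.d k48 k32 k96 3
  11)))), (.s k154 k223 10 (.s k26 k218 7 (.s k14 k50 5 (.s k166 k242 13 (.s k4 k247 12 (.d k21 k31
  k55 2 4))))))] (.c k208 (.l (.s k48 k32 3 (.s k154 k223 10 (.s k101 k207 14 (.s k112 k79 6 (.s k64
  k96 3 (.s k117 k69 3 (.d k127 k122 k106 2 6)))))))) .n)) .n)))))

def s6_170_23 : T TT 256 :=
  (.q k16 [(.s k80 k95 2 (.s k154 k223 10 (.s k26 k218 7 (.s k208 k144 7 (.d k31 k21 k149 2 10))))),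
  (.s k48 k32 3 (.s k80 k95 2 (.s k144 k208 7 (.s k96 k192 11 (.s k112 k64 3 (.d k240 k176 k160 7
  11)))))), (.s k48 k32 3 (.s k154 k223 10 (.s k26 k218 7 (.s k15 k37 6 (.s k5 k10 2 (.d k165 k245
  k240 11 14))))))] (.c k208 (.l (.s k48 k32 3 (.s k80 k95 2 (.s k154 k223 10 (.s k101 k207 14 (.s
  k112 k79 6 (.d k240 k176 k160 7 11))))))) .n))

def s6_170_24 : T TT 256 :=
  (.q k16 [(.s k80 k95 2 (.s k208 k144 7 (.s k149 k31 10 (.s k213 k21 7 (.d k223 k218 k154 2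
  10))))), (.s k48 k32 3 (.s k80 k95 2 (.s k144 k208 7 (.s k96 k192 11 (.s k112 k64 3 (.d k240 k176
  k160 7 11)))))), (.s k48 k32 3 (.s k154 k223 10 (.s k26 k218 7 (.s k15 k37 6 (.s k5 k10 2 (.d k165
  k245 k240 11 14))))))] (.c k208 (.l (.s k48 k32 3 (.s k80 k95 2 (.s k154 k223 10 (.s k101 k207 14
  (.s k112 k79 6 (.d k240 k176 k160 7 11))))))) .n))

def s6_170_25 : T TT 256 :=
  (.q k16 [(.s k80 k95 2 (.s k154 k223 10 (.s k26 k218 7 (.s k208 k144 7 (.d k31 k21 k149 2 10))))),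
  (.s k48 k32 3 (.s k80 k95 2 (.s k144 k208 7 (.s k96 k192 11 (.s k112 k64 3 (.d k240 k176 k160 7
  11)))))), (.s k48 k32 3 (.s k154 k223 10 (.s k26 k218 7 (.s k15 k37 6 (.s k5 k10 2 (.d k165 k245
  k240 11 14))))))] (.c k208 (.l (.s k48 k32 3 (.s k80 k95 2 (.s k154 k223 10 (.s k101 k207 14 (.s
  k112 k79 6 (.d k240 k176 k160 7 11))))))) .n))

def s6_170_26 : T TT 256 :=
  (.q k64 [(.s k80 k95 2 (.s k112 k96 3 (.s k101 k79 6 (.s k117 k69 3 (.d k127 k122 k106 2 6))))),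
  (.s k80 k95 2 (.s k96 k112 3 (.s k160 k240 11 (.s k32 k224 7 (.s k48 k16 3 (.d k192 k128 k144 7
  11)))))), (.s k106 k127 6 (.s k74 k122 3 (.s k192 k128 7 (.s k15 k133 10 (.s k5 k10 2 (.d k165
  k245 k240 11 14))))))] (.c k112 (.l (.s k80 k95 2 (.s k106 k127 6 (.s k122 k74 3 (.s k192 k128 7
  (.s k240 k160 11 (.d k63 k149 k181 14 10))))))) .n))

def s6_170_27 : T TT 256 :=
  (.q k16 [(.s k80 k95 2 (.s k154 k223 10 (.s k26 k218 7 (.s k31 k21 2 (.d k208 k144 k149 7 10))))),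
  (.s k48 k32 3 (.s k80 k95 2 (.s k144 k208 7 (.s k96 k192 11 (.s k112 k64 3 (.d k240 k176 k160 7
  11)))))), (.s k48 k32 3 (.s k154 k223 10 (.s k26 k218 7 (.s k15 k37 6 (.s k5 k10 2 (.d k165 k245
  k240 11 14))))))] (.c k208 (.l (.s k48 k32 3 (.s k80 k95 2 (.s k154 k223 10 (.s k101 k207 14 (.s
  k112 k79 6 (.d k240 k176 k160 7 11))))))) .n))

def s6_170_28 : T TT 256 :=
  (.q k16 [(.s k80 k95 2 (.s k208 k144 7 (.s k149 k31 10 (.s k213 k21 7 (.d k223 k218 k154 2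
  10))))), (.s k48 k32 3 (.s k80 k95 2 (.s k144 k208 7 (.s k96 k192 11 (.s k112 k64 3 (.d k240 k176
  k160 7 11)))))), (.s k48 k32 3 (.s k154 k223 10 (.s k26 k218 7 (.s k15 k37 6 (.s k5 k10 2 (.d k165
  k245 k240 11 14))))))] (.c k208 (.l (.s k48 k32 3 (.s k80 k95 2 (.s k154 k223 10 (.s k101 k207 14
  (.s k112 k79 6 (.d k240 k176 k160 7 11))))))) .n))

def s6_170_29 : T TT 256 :=
  (.q k16 [(.s k80 k95 2 (.s k154 k223 10 (.s k26 k218 7 (.s k208 k144 7 (.d k31 k21 k149 2 10))))),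
  (.s k48 k32 3 (.s k80 k95 2 (.s k144 k208 7 (.s k96 k192 11 (.s k112 k64 3 (.d k240 k176 k160 7
  11)))))), (.s k48 k32 3 (.s k154 k223 10 (.s k26 k218 7 (.s k15 k37 6 (.s k5 k10 2 (.d k165 k245
  k240 11 14))))))] (.c k208 (.l (.s k48 k32 3 (.s k80 k95 2 (.s k154 k223 10 (.s k101 k207 14 (.s
  k112 k79 6 (.d k240 k176 k160 7 11))))))) .n))

def s6_170_30 : T TT 256 :=
  (.q k16 [(.s k80 k95 2 (.s k154 k223 10 (.s k26 k218 7 (.s k31 k21 2 (.d k208 k144 k149 7 10))))),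
  (.s k48 k32 3 (.s k80 k95 2 (.s k144 k208 7 (.s k96 k192 11 (.s k112 k64 3 (.d k240 k176 k160 7
  11)))))), (.s k48 k32 3 (.s k154 k223 10 (.s k26 k218 7 (.s k15 k37 6 (.s k5 k10 2 (.d k165 k245
  k240 11 14))))))] (.c k208 (.l (.s k48 k32 3 (.s k80 k95 2 (.s k154 k223 10 (.s k101 k207 14 (.s
  k112 k79 6 (.d k240 k176 k160 7 11))))))) .n))

def s6_170_31 : T TT 256 :=
  (.q k64 [(.s k80 k95 2 (.s k112 k96 3 (.s k101 k79 6 (.s k117 k69 3 (.d k127 k122 k106 2 6))))),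
  (.s k106 k127 6 (.s k74 k122 3 (.s k192 k128 7 (.s k15 k133 10 (.s k5 k10 2 (.d k165 k245 k240 11
  14)))))), (.s k80 k95 2 (.s k96 k112 3 (.s k160 k240 11 (.s k32 k224 7 (.s k48 k16 3 (.d k192 k128
  k144 7 11))))))] (.c k112 (.l (.s k80 k95 2 (.s k106 k127 6 (.s k122 k74 3 (.s k192 k128 7 (.s
  k240 k160 11 (.d k63 k149 k181 14 10))))))) .n))

def s6_170_32 : T TT 256 :=
  (.q k101 [(.s k69 k117 3 (.s k79 k112 6 (.s k64 k74 2 (.s k95 k80 2 (.d k127 k111 k106 3 6))))),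
  (.s k69 k117 3 (.s k80 k95 2 (.s k207 k138 10 (.s k154 k48 14 (.s k218 k26 7 (.d k240 k229 k160 6
  11)))))), (.s k80 k95 2 (.s k112 k79 6 (.s k240 k160 11 (.s k48 k176 7 (.s k154 k207 14 (.s k26
  k218 7 (.d k15 k165 k37 14 6))))))), (.s k69 k117 3 (.s k79 k112 6 (.s k207 k138 10 (.s k15 k143 7
  (.s k5 k10 2 (.d k165 k245 k240 11 14))))))] .n)

def s6_170_33 : T TT 256 :=
  (.q k16 [(.s k80 k95 2 (.s k208 k144 7 (.s k149 k31 10 (.s k213 k21 7 (.d k223 k218 k154 2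
  10))))), (.s k48 k32 3 (.s k80 k95 2 (.s k144 k208 7 (.s k96 k192 11 (.s k112 k64 3 (.d k240 k176
  k160 7 11)))))), (.s k48 k32 3 (.s k154 k223 10 (.s k26 k218 7 (.s k15 k37 6 (.s k5 k10 2 (.d k165
  k245 k240 11 14))))))] (.c k208 (.l (.s k48 k32 3 (.s k80 k95 2 (.s k154 k223 10 (.s k101 k207 14
  (.s k112 k79 6 (.d k240 k176 k160 7 11))))))) .n))

def s6_170_34 : T TT 256 :=
  (.f k80 k95 2 (.q k102 [(.s k68 k119 4 (.s k78 k114 5 (.s k204 k136 9 (.s k15 k141 8 (.d k240 k160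
  k165 11 14))))), (.s k68 k119 4 (.s k240 k160 11 (.s k165 k15 14 (.s k228 k39 8 (.d k204 k216 k136
  5 9))))), (.s k114 k78 5 (.s k240 k160 11 (.s k51 k177 8 (.s k153 k204 14 (.s k27 k216 8 (.d k15
  k165 k39 14 5))))))] (.c k15 (.l (.s k68 k119 4 (.s k114 k78 5 (.s k204 k136 9 (.s k240 k160 11
  (.d k51 k153 k177 14 8)))))) (.c k160 (.l (.s k68 k119 4 (.s k78 k114 5 (.s k204 k136 9 (.s k15
  k141 8 (.s k5 k10 2 (.d k165 k245 k240 11 14))))))) (.c k165 (.l (.s k68 k119 4 (.s k204 k136 9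
  (.s k153 k51 14 (.s k216 k27 8 (.d k240 k228 k160 5 11)))))) (.c k204 (.l (.s k114 k78 5 (.s k119
  k68 4 (.s k240 k160 11 (.s k51 k177 8 (.s k255 k187 9 (.s k245 k250 2 (.d k165 k15 k5 14
  11)))))))) (.c k240 (.q k3 [(.s k1 k2 0 (.s k68 k119 4 (.s k169 k253 13 (.s k35 k236 10 (.s k51
  k19 3 (.d k204 k136 k153 9 14)))))), (.s k68 k119 4 (.s k204 k136 9 (.s k70 k137 10 (.s k86 k118 3
  (.s k84 k87 0 (.d k252 k168 k169 13 14)))))), (.s k1 k2 0 (.s k169 k253 13 (.s k86 k252 14 (.s k82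
  k94 1 (.s k83 k81 0 (.s k84 k87 0 (.d k92 k88 k89 1 2))))))), (.s k2 k1 0 (.s k68 k119 4 (.s k204
  k136 9 (.s k70 k137 10 (.s k69 k71 0 (.d k138 k206 k207 9 10))))))] .n) .n)))))))

def s6_170_35 : T TT 256 :=
  (.q k16 [(.s k80 k95 2 (.s k208 k144 7 (.s k149 k31 10 (.s k213 k21 7 (.d k223 k218 k154 2
  10))))), (.s k48 k32 3 (.s k80 k95 2 (.s k144 k208 7 (.s k96 k192 11 (.s k112 k64 3 (.d k240 k176
  k160 7 11)))))), (.s k48 k32 3 (.s k154 k223 10 (.s k26 k218 7 (.s k15 k37 6 (.s k5 k10 2 (.d k165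
  k245 k240 11 14))))))] (.c k208 (.l (.s k48 k32 3 (.s k80 k95 2 (.s k154 k223 10 (.s k101 k207 14
  (.s k112 k79 6 (.d k240 k176 k160 7 11))))))) .n))

def s6_170_36 : T TT 256 :=
  (.q k16 [(.s k80 k95 2 (.s k208 k144 7 (.s k149 k31 10 (.s k213 k21 7 (.d k223 k218 k154 2
  10))))), (.s k48 k32 3 (.s k80 k95 2 (.s k144 k208 7 (.s k96 k192 11 (.s k112 k64 3 (.d k240 k176
  k160 7 11)))))), (.s k48 k32 3 (.s k154 k223 10 (.s k26 k218 7 (.s k15 k37 6 (.s k5 k10 2 (.d k165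
  k245 k240 11 14))))))] (.c k208 (.l (.s k48 k32 3 (.s k80 k95 2 (.s k154 k223 10 (.s k101 k207 14
  (.s k112 k79 6 (.d k240 k176 k160 7 11))))))) .n))

def s6_170_37 : T TT 256 :=
  (.q k64 [(.s k80 k95 2 (.s k112 k96 3 (.s k101 k79 6 (.s k117 k69 3 (.d k127 k122 k106 2 6))))),
  (.s k80 k95 2 (.s k96 k112 3 (.s k160 k240 11 (.s k32 k224 7 (.s k48 k16 3 (.d k192 k128 k144 7
  11)))))), (.s k106 k127 6 (.s k74 k122 3 (.s k192 k128 7 (.s k15 k133 10 (.s k5 k10 2 (.d k165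
  k245 k240 11 14))))))] (.c k112 (.l (.s k80 k95 2 (.s k106 k127 6 (.s k122 k74 3 (.s k192 k128 7
  (.s k240 k160 11 (.d k63 k149 k181 14 10))))))) .n))

def s6_170_38 : T TT 256 :=
  (.f k80 k95 2 (.f k160 k240 11 (.q k16 [(.s k144 k208 7 (.s k128 k176 3 (.s k192 k64 7 (.d k48 k32
  k96 3 11)))), (.s k154 k223 10 (.s k26 k218 7 (.s k31 k21 2 (.d k208 k144 k149 7 10)))), (.s k48
  k32 3 (.s k154 k223 10 (.s k101 k207 14 (.s k112 k79 6 (.s k64 k96 3 (.s k117 k69 3 (.d k127 k122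
  k106 2 6)))))))] (.c k22 (.q k54 [(.s k144 k208 7 (.s k128 k176 3 (.s k192 k64 7 (.d k48 k32 k96 3
  11)))), (.s k154 k223 10 (.s k26 k218 7 (.s k31 k21 2 (.d k208 k144 k149 7 10)))), (.s k48 k32 3
  (.s k154 k223 10 (.s k101 k207 14 (.s k112 k79 6 (.s k64 k96 3 (.s k117 k69 3 (.d k127 k122 k106 2
  6)))))))] .n) (.c k54 (.q k22 [(.s k144 k208 7 (.s k128 k176 3 (.s k192 k64 7 (.d k48 k32 k96 3
  11)))), (.s k154 k223 10 (.s k26 k218 7 (.s k30 k18 1 (.s k150 k210 9 (.s k20 k215 8 (.d k21 k31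
  k23 2 0))))))] (.c k208 (.l (.s k48 k32 3 (.s k154 k223 10 (.s k101 k207 14 (.s k112 k79 6 (.s k64
  k96 3 (.s k117 k69 3 (.d k127 k122 k106 2 6)))))))) .n)) .n)))))

def s6_170_39 : T TT 256 :=
  (.q k16 [(.s k80 k95 2 (.s k208 k144 7 (.s k149 k31 10 (.s k213 k21 7 (.d k223 k218 k154 2
  10))))), (.s k48 k32 3 (.s k80 k95 2 (.s k144 k208 7 (.s k96 k192 11 (.s k112 k64 3 (.d k240 k176
  k160 7 11)))))), (.s k48 k32 3 (.s k154 k223 10 (.s k26 k218 7 (.s k15 k37 6 (.s k5 k10 2 (.d k165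
  k245 k240 11 14))))))] (.c k208 (.l (.s k48 k32 3 (.s k80 k95 2 (.s k154 k223 10 (.s k101 k207 14
  (.s k112 k79 6 (.d k240 k176 k160 7 11))))))) .n))

def s6_170_40 : T TT 256 :=
  (.f k80 k95 2 (.q k105 [(.s k65 k125 5 (.s k75 k120 4 (.s k195 k130 8 (.s k15 k135 9 (.d k240 k160
  k165 11 14))))), (.s k65 k125 5 (.s k240 k160 11 (.s k165 k15 14 (.s k225 k45 9 (.d k195 k210 k130
  4 8))))), (.s k120 k75 4 (.s k240 k160 11 (.s k60 k180 9 (.s k150 k195 14 (.s k30 k210 9 (.d k15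
  k165 k45 14 4))))))] (.c k15 (.l (.s k65 k125 5 (.s k120 k75 4 (.s k195 k130 8 (.s k240 k160 11
  (.d k60 k150 k180 14 9)))))) (.c k160 (.l (.s k65 k125 5 (.s k75 k120 4 (.s k195 k130 8 (.s k15
  k135 9 (.s k5 k10 2 (.d k165 k245 k240 11 14))))))) (.c k165 (.l (.s k65 k125 5 (.s k195 k130 8
  (.s k150 k60 14 (.s k210 k30 9 (.d k240 k225 k160 4 11)))))) (.c k195 (.l (.s k120 k75 4 (.s k125
  k65 5 (.s k240 k160 11 (.s k60 k180 9 (.s k255 k190 8 (.s k245 k250 2 (.d k165 k15 k5 14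
  11)))))))) (.c k240 (.q k1 [(.s k65 k125 5 (.s k193 k129 7 (.s k149 k61 13 (.s k213 k21 7 (.d k253
  k233 k169 5 13))))), (.s k3 k2 0 (.s k65 k125 5 (.s k129 k193 7 (.s k66 k192 8 (.s k67 k64 0 (.d
  k195 k131 k130 7 8)))))), (.s k75 k120 4 (.s k169 k253 13 (.s k11 k248 12 (.s k41 k233 7 (.s k56
  k26 4 (.d k203 k139 k154 7 12))))))] (.c k193 (.l (.s k3 k2 0 (.s k65 k125 5 (.s k169 k253 13 (.s
  k86 k252 14 (.s k67 k124 6 (.d k195 k131 k130 7 8))))))) .n)) .n)))))))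

def s6_170_41 : T TT 256 :=
  (.q k16 [(.s k80 k95 2 (.s k154 k223 10 (.s k26 k218 7 (.s k208 k144 7 (.d k31 k21 k149 2 10))))),
  (.s k48 k32 3 (.s k80 k95 2 (.s k144 k208 7 (.s k96 k192 11 (.s k112 k64 3 (.d k240 k176 k160 7
  11)))))), (.s k48 k32 3 (.s k154 k223 10 (.s k26 k218 7 (.s k15 k37 6 (.s k5 k10 2 (.d k165 k245
  k240 11 14))))))] (.c k208 (.l (.s k48 k32 3 (.s k80 k95 2 (.s k154 k223 10 (.s k101 k207 14 (.s
  k112 k79 6 (.d k240 k176 k160 7 11))))))) .n))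

def s6_170_42 : T TT 256 :=
  (.q k106 [(.s k64 k127 6 (.s k74 k122 3 (.s k79 k69 2 (.s k80 k95 2 (.d k112 k96 k101 3 6))))),
  (.s k80 k95 2 (.s k122 k74 3 (.s k240 k160 11 (.s k63 k181 10 (.s k149 k192 14 (.s k31 k208 10 (.d
  k15 k165 k47 14 3))))))), (.s k64 k127 6 (.s k80 k95 2 (.s k192 k128 7 (.s k149 k63 14 (.s k208
  k31 10 (.d k240 k224 k160 3 11)))))), (.s k64 k127 6 (.s k74 k122 3 (.s k192 k128 7 (.s k15 k133
  10 (.s k5 k10 2 (.d k165 k245 k240 11 14))))))] .n)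

def s6_170_43 : T TT 256 :=
  (.q k16 [(.s k80 k95 2 (.s k208 k144 7 (.s k149 k31 10 (.s k213 k21 7 (.d k223 k218 k154 2
  10))))), (.s k48 k32 3 (.s k80 k95 2 (.s k144 k208 7 (.s k96 k192 11 (.s k112 k64 3 (.d k240 k176
  k160 7 11)))))), (.s k48 k32 3 (.s k154 k223 10 (.s k26 k218 7 (.s k15 k37 6 (.s k5 k10 2 (.d k165
  k245 k240 11 14))))))] (.c k208 (.l (.s k48 k32 3 (.s k80 k95 2 (.s k154 k223 10 (.s k101 k207 14
  (.s k112 k79 6 (.d k240 k176 k160 7 11))))))) .n))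

def s6_170_44 : T TT 256 :=
  (.q k16 [(.s k80 k95 2 (.s k208 k144 7 (.s k149 k31 10 (.s k213 k21 7 (.d k223 k218 k154 2
  10))))), (.s k48 k32 3 (.s k80 k95 2 (.s k144 k208 7 (.s k96 k192 11 (.s k112 k64 3 (.d k240 k176
  k160 7 11)))))), (.s k48 k32 3 (.s k154 k223 10 (.s k26 k218 7 (.s k15 k37 6 (.s k5 k10 2 (.d k165
  k245 k240 11 14))))))] (.c k208 (.l (.s k48 k32 3 (.s k80 k95 2 (.s k154 k223 10 (.s k101 k207 14
  (.s k112 k79 6 (.d k240 k176 k160 7 11))))))) .n))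

def s6_170_45 : T TT 256 :=
  (.q k16 [(.s k80 k95 2 (.s k208 k144 7 (.s k149 k31 10 (.s k213 k21 7 (.d k223 k218 k154 2
  10))))), (.s k48 k32 3 (.s k80 k95 2 (.s k144 k208 7 (.s k96 k192 11 (.s k112 k64 3 (.d k240 k176
  k160 7 11)))))), (.s k48 k32 3 (.s k154 k223 10 (.s k26 k218 7 (.s k15 k37 6 (.s k5 k10 2 (.d k165
  k245 k240 11 14))))))] (.c k208 (.l (.s k48 k32 3 (.s k80 k95 2 (.s k154 k223 10 (.s k101 k207 14
  (.s k112 k79 6 (.d k240 k176 k160 7 11))))))) .n))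

def s6_170_46 : T TT 256 :=
  (.q k16 [(.s k80 k95 2 (.s k208 k144 7 (.s k149 k31 10 (.s k213 k21 7 (.d k223 k218 k154 2
  10))))), (.s k48 k32 3 (.s k80 k95 2 (.s k144 k208 7 (.s k96 k192 11 (.s k112 k64 3 (.d k240 k176
  k160 7 11)))))), (.s k48 k32 3 (.s k154 k223 10 (.s k26 k218 7 (.s k15 k37 6 (.s k5 k10 2 (.d k165
  k245 k240 11 14))))))] (.c k208 (.l (.s k48 k32 3 (.s k80 k95 2 (.s k154 k223 10 (.s k101 k207 14
  (.s k112 k79 6 (.d k240 k176 k160 7 11))))))) .n))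

def s6_170_47 : T TT 256 :=
  (.q k16 [(.s k80 k95 2 (.s k154 k223 10 (.s k26 k218 7 (.s k31 k21 2 (.d k208 k144 k149 7 10))))),
  (.s k48 k32 3 (.s k80 k95 2 (.s k144 k208 7 (.s k96 k192 11 (.s k112 k64 3 (.d k240 k176 k160 7
  11)))))), (.s k48 k32 3 (.s k154 k223 10 (.s k26 k218 7 (.s k101 k207 14 (.s k112 k79 6 (.s k240
  k176 7 (.d k15 k37 k165 6 14)))))))] (.c k208 (.l (.s k48 k32 3 (.s k80 k95 2 (.s k154 k223 10 (.s
  k101 k207 14 (.s k112 k79 6 (.d k240 k176 k160 7 11))))))) .n))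

def s6_170_48 : T TT 256 :=
  (.q k81 [(.s k80 k95 2 (.s k83 k82 0 (.s k89 k93 1 (.s k88 k91 0 (.d k92 k84 k86 1 2))))), (.s k89
  k93 1 (.s k91 k88 0 (.s k243 k162 12 (.s k15 k167 13 (.s k5 k10 2 (.d k165 k245 k240 11 14)))))),
  (.s k80 k95 2 (.s k82 k83 0 (.s k162 k243 12 (.s k2 k242 11 (.s k3 k1 0 (.d k240 k160 k161 11
  12))))))] (.c k91 (.l (.s k80 k95 2 (.s k89 k93 1 (.s k240 k160 11 (.s k165 k15 14 (.s k241 k13 13
  (.d k243 k242 k162 0 12))))))) .n))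

def s6_170_49 : T TT 256 :=
  (.q k16 [(.s k80 k95 2 (.s k208 k144 7 (.s k149 k31 10 (.s k213 k21 7 (.d k223 k218 k154 2
  10))))), (.s k48 k32 3 (.s k80 k95 2 (.s k144 k208 7 (.s k96 k192 11 (.s k112 k64 3 (.d k240 k176
  k160 7 11)))))), (.s k48 k32 3 (.s k154 k223 10 (.s k26 k218 7 (.s k15 k37 6 (.s k5 k10 2 (.d k165
  k245 k240 11 14))))))] (.c k208 (.l (.s k48 k32 3 (.s k80 k95 2 (.s k154 k223 10 (.s k101 k207 14
  (.s k112 k79 6 (.d k240 k176 k160 7 11))))))) .n))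

def s6_170_50 : T TT 256 :=
  (.q k16 [(.s k80 k95 2 (.s k208 k144 7 (.s k149 k31 10 (.s k213 k21 7 (.d k223 k218 k154 2
  10))))), (.s k48 k32 3 (.s k80 k95 2 (.s k144 k208 7 (.s k96 k192 11 (.s k112 k64 3 (.d k240 k176
  k160 7 11)))))), (.s k48 k32 3 (.s k154 k223 10 (.s k26 k218 7 (.s k15 k37 6 (.s k5 k10 2 (.d k165
  k245 k240 11 14))))))] (.c k208 (.l (.s k48 k32 3 (.s k80 k95 2 (.s k154 k223 10 (.s k101 k207 14
  (.s k112 k79 6 (.d k240 k176 k160 7 11))))))) .n))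

def s6_170_51 : T TT 256 :=
  (.q k16 [(.s k80 k95 2 (.s k208 k144 7 (.s k149 k31 10 (.s k213 k21 7 (.d k223 k218 k154 2
  10))))), (.s k48 k32 3 (.s k80 k95 2 (.s k144 k208 7 (.s k96 k192 11 (.s k112 k64 3 (.d k240 k176
  k160 7 11)))))), (.s k48 k32 3 (.s k154 k223 10 (.s k26 k218 7 (.s k15 k37 6 (.s k5 k10 2 (.d k165
  k245 k240 11 14))))))] (.c k208 (.l (.s k48 k32 3 (.s k80 k95 2 (.s k154 k223 10 (.s k101 k207 14
  (.s k112 k79 6 (.d k240 k176 k160 7 11))))))) .n))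

def s6_170_52 : T TT 256 :=
  (.q k16 [(.s k80 k95 2 (.s k208 k144 7 (.s k149 k31 10 (.s k213 k21 7 (.d k223 k218 k154 2
  10))))), (.s k48 k32 3 (.s k80 k95 2 (.s k144 k208 7 (.s k96 k192 11 (.s k112 k64 3 (.d k240 k176
  k160 7 11)))))), (.s k48 k32 3 (.s k154 k223 10 (.s k26 k218 7 (.s k15 k37 6 (.s k5 k10 2 (.d k165
  k245 k240 11 14))))))] (.c k208 (.l (.s k48 k32 3 (.s k80 k95 2 (.s k154 k223 10 (.s k101 k207 14
  (.s k112 k79 6 (.d k240 k176 k160 7 11))))))) .n))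

def s6_170_53 : T TT 256 :=
  (.q k16 [(.s k80 k95 2 (.s k154 k223 10 (.s k26 k218 7 (.s k208 k144 7 (.d k31 k21 k149 2 10))))),
  (.s k48 k32 3 (.s k80 k95 2 (.s k144 k208 7 (.s k96 k192 11 (.s k112 k64 3 (.d k240 k176 k160 7
  11)))))), (.s k48 k32 3 (.s k154 k223 10 (.s k26 k218 7 (.s k15 k37 6 (.s k5 k10 2 (.d k165 k245
  k240 11 14))))))] (.c k208 (.l (.s k48 k32 3 (.s k80 k95 2 (.s k154 k223 10 (.s k101 k207 14 (.s
  k112 k79 6 (.d k240 k176 k160 7 11))))))) .n))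

def s6_170_54 : T TT 256 :=
  (.f k80 k95 2 (.f k160 k240 11 (.q k16 [(.s k144 k208 7 (.s k128 k176 3 (.s k192 k64 7 (.d k48 k32
  k96 3 11)))), (.s k154 k223 10 (.s k26 k218 7 (.s k31 k21 2 (.d k208 k144 k149 7 10)))), (.s k48
  k32 3 (.s k154 k223 10 (.s k101 k207 14 (.s k112 k79 6 (.s k64 k96 3 (.s k117 k69 3 (.d k127 k122
  k106 2 6)))))))] (.c k22 (.q k38 [(.s k144 k208 7 (.s k128 k176 3 (.s k192 k64 7 (.d k48 k32 k96 3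
  11)))), (.s k154 k223 10 (.s k26 k218 7 (.s k14 k50 5 (.s k166 k242 13 (.s k4 k247 12 (.d k21 k31
  k55 2 4))))))] (.c k208 (.l (.s k48 k32 3 (.s k154 k223 10 (.s k101 k207 14 (.s k112 k79 6 (.s k64
  k96 3 (.s k117 k69 3 (.d k127 k122 k106 2 6)))))))) .n)) (.c k38 (.q k22 [(.s k144 k208 7 (.s k128
  k176 3 (.s k192 k64 7 (.d k48 k32 k96 3 11)))), (.s k154 k223 10 (.s k26 k218 7 (.s k30 k18 1 (.s
  k150 k210 9 (.s k20 k215 8 (.d k21 k31 k23 2 0))))))] (.c k208 (.l (.s k48 k32 3 (.s k154 k223 10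
  (.s k101 k207 14 (.s k112 k79 6 (.s k64 k96 3 (.s k117 k69 3 (.d k127 k122 k106 2 6)))))))) .n))
  .n)))))

def s6_170_55 : T TT 256 :=
  (.q k16 [(.s k80 k95 2 (.s k154 k223 10 (.s k26 k218 7 (.s k208 k144 7 (.d k31 k21 k149 2 10))))),
  (.s k48 k32 3 (.s k80 k95 2 (.s k144 k208 7 (.s k96 k192 11 (.s k112 k64 3 (.d k240 k176 k160 7
  11)))))), (.s k48 k32 3 (.s k154 k223 10 (.s k26 k218 7 (.s k15 k37 6 (.s k5 k10 2 (.d k165 k245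
  k240 11 14))))))] (.c k208 (.l (.s k48 k32 3 (.s k80 k95 2 (.s k154 k223 10 (.s k101 k207 14 (.s
  k112 k79 6 (.d k240 k176 k160 7 11))))))) .n))

def s6_170_56 : T TT 256 :=
  (.q k16 [(.s k80 k95 2 (.s k208 k144 7 (.s k149 k31 10 (.s k213 k21 7 (.d k223 k218 k154 2
  10))))), (.s k48 k32 3 (.s k80 k95 2 (.s k144 k208 7 (.s k96 k192 11 (.s k112 k64 3 (.d k240 k176
  k160 7 11)))))), (.s k48 k32 3 (.s k154 k223 10 (.s k26 k218 7 (.s k15 k37 6 (.s k5 k10 2 (.d k165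
  k245 k240 11 14))))))] (.c k208 (.l (.s k48 k32 3 (.s k80 k95 2 (.s k154 k223 10 (.s k101 k207 14
  (.s k112 k79 6 (.d k240 k176 k160 7 11))))))) .n))

def s6_170_57 : T TT 256 :=
  (.q k16 [(.s k80 k95 2 (.s k208 k144 7 (.s k149 k31 10 (.s k213 k21 7 (.d k223 k218 k154 2
  10))))), (.s k48 k32 3 (.s k80 k95 2 (.s k144 k208 7 (.s k96 k192 11 (.s k112 k64 3 (.d k240 k176
  k160 7 11)))))), (.s k48 k32 3 (.s k154 k223 10 (.s k26 k218 7 (.s k15 k37 6 (.s k5 k10 2 (.d k165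
  k245 k240 11 14))))))] (.c k208 (.l (.s k48 k32 3 (.s k80 k95 2 (.s k154 k223 10 (.s k101 k207 14
  (.s k112 k79 6 (.d k240 k176 k160 7 11))))))) .n))

def s6_170_58 : T TT 256 :=
  (.q k16 [(.s k80 k95 2 (.s k208 k144 7 (.s k149 k31 10 (.s k213 k21 7 (.d k223 k218 k154 2
  10))))), (.s k48 k32 3 (.s k80 k95 2 (.s k144 k208 7 (.s k96 k192 11 (.s k112 k64 3 (.d k240 k176
  k160 7 11)))))), (.s k48 k32 3 (.s k154 k223 10 (.s k26 k218 7 (.s k15 k37 6 (.s k5 k10 2 (.d k165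
  k245 k240 11 14))))))] (.c k208 (.l (.s k48 k32 3 (.s k80 k95 2 (.s k154 k223 10 (.s k101 k207 14
  (.s k112 k79 6 (.d k240 k176 k160 7 11))))))) .n))

def s6_170_59 : T TT 256 :=
  (.q k16 [(.s k80 k95 2 (.s k208 k144 7 (.s k149 k31 10 (.s k213 k21 7 (.d k223 k218 k154 2
  10))))), (.s k48 k32 3 (.s k80 k95 2 (.s k144 k208 7 (.s k96 k192 11 (.s k112 k64 3 (.d k240 k176
  k160 7 11)))))), (.s k48 k32 3 (.s k154 k223 10 (.s k26 k218 7 (.s k15 k37 6 (.s k5 k10 2 (.d k165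
  k245 k240 11 14))))))] (.c k208 (.l (.s k48 k32 3 (.s k80 k95 2 (.s k154 k223 10 (.s k101 k207 14
  (.s k112 k79 6 (.d k240 k176 k160 7 11))))))) .n))

def s6_170_60 : T TT 256 :=
  (.q k16 [(.s k80 k95 2 (.s k208 k144 7 (.s k149 k31 10 (.s k213 k21 7 (.d k223 k218 k154 2
  10))))), (.s k48 k32 3 (.s k80 k95 2 (.s k144 k208 7 (.s k96 k192 11 (.s k112 k64 3 (.d k240 k176
  k160 7 11)))))), (.s k48 k32 3 (.s k154 k223 10 (.s k26 k218 7 (.s k15 k37 6 (.s k5 k10 2 (.d k165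
  k245 k240 11 14))))))] (.c k208 (.l (.s k48 k32 3 (.s k80 k95 2 (.s k154 k223 10 (.s k101 k207 14
  (.s k112 k79 6 (.d k240 k176 k160 7 11))))))) .n))

def s6_170_61 : T TT 256 :=
  (.q k16 [(.s k80 k95 2 (.s k154 k223 10 (.s k26 k218 7 (.s k208 k144 7 (.d k31 k21 k149 2 10))))),
  (.s k48 k32 3 (.s k80 k95 2 (.s k144 k208 7 (.s k96 k192 11 (.s k112 k64 3 (.d k240 k176 k160 7
  11)))))), (.s k48 k32 3 (.s k154 k223 10 (.s k26 k218 7 (.s k15 k37 6 (.s k5 k10 2 (.d k165 k245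
  k240 11 14))))))] (.c k208 (.l (.s k48 k32 3 (.s k80 k95 2 (.s k154 k223 10 (.s k101 k207 14 (.s
  k112 k79 6 (.d k240 k176 k160 7 11))))))) .n))

def s6_170_62 : T TT 256 :=
  (.q k16 [(.s k80 k95 2 (.s k208 k144 7 (.s k149 k31 10 (.s k213 k21 7 (.d k223 k218 k154 2
  10))))), (.s k48 k32 3 (.s k80 k95 2 (.s k144 k208 7 (.s k96 k192 11 (.s k112 k64 3 (.d k240 k176
  k160 7 11)))))), (.s k48 k32 3 (.s k154 k223 10 (.s k26 k218 7 (.s k15 k37 6 (.s k5 k10 2 (.d k165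
  k245 k240 11 14))))))] (.c k208 (.l (.s k48 k32 3 (.s k80 k95 2 (.s k154 k223 10 (.s k101 k207 14
  (.s k112 k79 6 (.d k240 k176 k160 7 11))))))) .n))

def s6_170_63 : T TT 256 :=
  (.q k16 [(.s k80 k95 2 (.s k154 k223 10 (.s k26 k218 7 (.s k31 k21 2 (.d k208 k144 k149 7 10))))),
  (.s k48 k32 3 (.s k80 k95 2 (.s k144 k208 7 (.s k160 k240 11 (.s k128 k176 3 (.d k192 k64 k96 7
  11)))))), (.s k48 k32 3 (.s k154 k223 10 (.s k26 k218 7 (.s k15 k37 6 (.s k5 k10 2 (.d k165 k245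
  k240 11 14))))))] (.c k208 (.l (.s k48 k32 3 (.s k80 k95 2 (.s k154 k223 10 (.s k101 k207 14 (.s
  k112 k79 6 (.d k240 k176 k160 7 11))))))) .n))

def s6_170_64 : T TT 256 :=
  (.q k16 [(.s k80 k95 2 (.s k208 k144 7 (.s k149 k31 10 (.s k213 k21 7 (.d k223 k218 k154 2
  10))))), (.s k48 k32 3 (.s k80 k95 2 (.s k240 k160 11 (.s k112 k176 7 (.s k101 k79 6 (.d k154 k223
  k207 10 14)))))), (.s k48 k32 3 (.s k154 k223 10 (.s k26 k218 7 (.s k15 k37 6 (.s k5 k10 2 (.d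
  k165 k245 k240 11 14))))))] (.c k154 (.l (.s k80 k95 2 (.s k208 k144 7 (.s k149 k31 10 (.s k21
  k213 7 (.s k63 k42 6 (.s k240 k160 11 (.d k192 k106 k224 14 3)))))))) (.c k223 (.l (.s k48 k32 3
  (.s k80 k95 2 (.s k208 k144 7 (.s k31 k149 10 (.s k26 k21 2 (.s k15 k37 6 (.d k240 k160 k165 11
  14)))))))) .n)))

def s6_170_65 : T TT 256 :=
  (.q k16 [(.s k80 k95 2 (.s k208 k144 7 (.s k149 k31 10 (.s k213 k21 7 (.d k223 k218 k154 2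
  10))))), (.s k48 k32 3 (.s k80 k95 2 (.s k144 k208 7 (.s k96 k192 11 (.s k112 k64 3 (.d k240 k176
  k160 7 11)))))), (.s k48 k32 3 (.s k154 k223 10 (.s k26 k218 7 (.s k15 k37 6 (.s k5 k10 2 (.d k165
  k245 k240 11 14))))))] (.c k208 (.l (.s k48 k32 3 (.s k80 k95 2 (.s k154 k223 10 (.s k101 k207 14
  (.s k112 k79 6 (.d k240 k176 k160 7 11))))))) .n))

def s6_170_66 : T TT 256 :=
  (.q k16 [(.s k80 k95 2 (.s k208 k144 7 (.s k149 k31 10 (.s k213 k21 7 (.d k223 k218 k154 2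
  10))))), (.s k48 k32 3 (.s k80 k95 2 (.s k144 k208 7 (.s k96 k192 11 (.s k112 k64 3 (.d k240 k176
  k160 7 11)))))), (.s k48 k32 3 (.s k154 k223 10 (.s k26 k218 7 (.s k15 k37 6 (.s k5 k10 2 (.d k165
  k245 k240 11 14))))))] (.c k208 (.l (.s k48 k32 3 (.s k80 k95 2 (.s k154 k223 10 (.s k101 k207 14
  (.s k112 k79 6 (.d k240 k176 k160 7 11))))))) .n))

def s6_170_67 : T TT 256 :=
  (.q k16 [(.s k80 k95 2 (.s k208 k144 7 (.s k149 k31 10 (.s k213 k21 7 (.d k223 k218 k154 2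
  10))))), (.s k48 k32 3 (.s k80 k95 2 (.s k144 k208 7 (.s k96 k192 11 (.s k112 k64 3 (.d k240 k176
  k160 7 11)))))), (.s k48 k32 3 (.s k154 k223 10 (.s k26 k218 7 (.s k15 k37 6 (.s k5 k10 2 (.d k165
  k245 k240 11 14))))))] (.c k208 (.l (.s k48 k32 3 (.s k80 k95 2 (.s k154 k223 10 (.s k101 k207 14
  (.s k112 k79 6 (.d k240 k176 k160 7 11))))))) .n))

def s6_170_68 : T TT 256 :=
  (.q k16 [(.s k80 k95 2 (.s k208 k144 7 (.s k149 k31 10 (.s k213 k21 7 (.d k223 k218 k154 2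
  10))))), (.s k48 k32 3 (.s k80 k95 2 (.s k144 k208 7 (.s k96 k192 11 (.s k112 k64 3 (.d k240 k176
  k160 7 11)))))), (.s k48 k32 3 (.s k154 k223 10 (.s k26 k218 7 (.s k15 k37 6 (.s k5 k10 2 (.d k165
  k245 k240 11 14))))))] (.c k208 (.l (.s k48 k32 3 (.s k80 k95 2 (.s k154 k223 10 (.s k101 k207 14
  (.s k112 k79 6 (.d k240 k176 k160 7 11))))))) .n))

def s6_170_69 : T TT 256 :=
  (.q k16 [(.s k80 k95 2 (.s k208 k144 7 (.s k149 k31 10 (.s k213 k21 7 (.d k223 k218 k154 2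
  10))))), (.s k48 k32 3 (.s k80 k95 2 (.s k144 k208 7 (.s k96 k192 11 (.s k112 k64 3 (.d k240 k176
  k160 7 11)))))), (.s k48 k32 3 (.s k154 k223 10 (.s k26 k218 7 (.s k15 k37 6 (.s k5 k10 2 (.d k165
  k245 k240 11 14))))))] (.c k208 (.l (.s k48 k32 3 (.s k80 k95 2 (.s k154 k223 10 (.s k101 k207 14
  (.s k112 k79 6 (.d k240 k176 k160 7 11))))))) .n))

def s6_170_70 : T TT 256 :=
  (.f k80 k95 2 (.f k160 k240 11 (.q k16 [(.s k144 k208 7 (.s k128 k176 3 (.s k192 k64 7 (.d k48 k32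
  k96 3 11)))), (.s k154 k223 10 (.s k26 k218 7 (.s k31 k21 2 (.d k208 k144 k149 7 10)))), (.s k48
  k32 3 (.s k154 k223 10 (.s k101 k207 14 (.s k112 k79 6 (.s k64 k96 3 (.s k117 k69 3 (.d k127 k122
  k106 2 6)))))))] (.c k134 (.q k198 [(.s k144 k208 7 (.s k128 k176 3 (.s k192 k64 7 (.d k48 k32 k96
  3 11)))), (.s k154 k223 10 (.s k26 k218 7 (.s k31 k21 2 (.d k208 k144 k149 7 10)))), (.s k48 k32 3
  (.s k154 k223 10 (.s k101 k207 14 (.s k112 k79 6 (.s k64 k96 3 (.s k117 k69 3 (.d k127 k122 k106 2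
  6)))))))] .n) (.c k198 (.q k134 [(.s k144 k208 7 (.s k128 k176 3 (.s k192 k64 7 (.d k48 k32 k96 3
  11)))), (.s k154 k223 10 (.s k26 k218 7 (.s k31 k21 2 (.d k208 k144 k149 7 10)))), (.s k48 k32 3
  (.s k154 k223 10 (.s k101 k207 14 (.s k112 k79 6 (.s k64 k96 3 (.s k117 k69 3 (.d k127 k122 k106 2
  6)))))))] .n) .n)))))

def s6_170_71 : T TT 256 :=
  (.q k16 [(.s k80 k95 2 (.s k208 k144 7 (.s k149 k31 10 (.s k213 k21 7 (.d k223 k218 k154 2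
  10))))), (.s k48 k32 3 (.s k80 k95 2 (.s k144 k208 7 (.s k96 k192 11 (.s k112 k64 3 (.d k240 k176
  k160 7 11)))))), (.s k48 k32 3 (.s k154 k223 10 (.s k26 k218 7 (.s k15 k37 6 (.s k5 k10 2 (.d k165
  k245 k240 11 14))))))] (.c k208 (.l (.s k48 k32 3 (.s k80 k95 2 (.s k154 k223 10 (.s k101 k207 14
  (.s k112 k79 6 (.d k240 k176 k160 7 11))))))) .n))

def s6_170_72 : T TT 256 :=
  (.q k16 [(.s k80 k95 2 (.s k208 k144 7 (.s k149 k31 10 (.s k213 k21 7 (.d k223 k218 k154 2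
  10))))), (.s k48 k32 3 (.s k80 k95 2 (.s k144 k208 7 (.s k96 k192 11 (.s k112 k64 3 (.d k240 k176
  k160 7 11)))))), (.s k48 k32 3 (.s k154 k223 10 (.s k26 k218 7 (.s k15 k37 6 (.s k5 k10 2 (.d k165
  k245 k240 11 14))))))] (.c k208 (.l (.s k48 k32 3 (.s k80 k95 2 (.s k154 k223 10 (.s k101 k207 14
  (.s k112 k79 6 (.d k240 k176 k160 7 11))))))) .n))

def s6_170_73 : T TT 256 :=
  (.q k16 [(.s k80 k95 2 (.s k208 k144 7 (.s k149 k31 10 (.s k213 k21 7 (.d k223 k218 k154 2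
  10))))), (.s k48 k32 3 (.s k80 k95 2 (.s k144 k208 7 (.s k96 k192 11 (.s k112 k64 3 (.d k240 k176
  k160 7 11)))))), (.s k48 k32 3 (.s k154 k223 10 (.s k26 k218 7 (.s k15 k37 6 (.s k5 k10 2 (.d k165
  k245 k240 11 14))))))] (.c k208 (.l (.s k48 k32 3 (.s k80 k95 2 (.s k154 k223 10 (.s k101 k207 14
  (.s k112 k79 6 (.d k240 k176 k160 7 11))))))) .n))

def s6_170_74 : T TT 256 :=
  (.q k16 [(.s k80 k95 2 (.s k208 k144 7 (.s k149 k31 10 (.s k213 k21 7 (.d k223 k218 k154 2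
  10))))), (.s k48 k32 3 (.s k80 k95 2 (.s k144 k208 7 (.s k96 k192 11 (.s k112 k64 3 (.d k240 k176
  k160 7 11)))))), (.s k48 k32 3 (.s k154 k223 10 (.s k26 k218 7 (.s k15 k37 6 (.s k5 k10 2 (.d k165
  k245 k240 11 14))))))] (.c k208 (.l (.s k48 k32 3 (.s k80 k95 2 (.s k154 k223 10 (.s k101 k207 14
  (.s k112 k79 6 (.d k240 k176 k160 7 11))))))) .n))

def s6_170_75 : T TT 256 :=
  (.q k16 [(.s k80 k95 2 (.s k208 k144 7 (.s k149 k31 10 (.s k213 k21 7 (.d k223 k218 k154 2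
  10))))), (.s k48 k32 3 (.s k80 k95 2 (.s k144 k208 7 (.s k96 k192 11 (.s k112 k64 3 (.d k240 k176
  k160 7 11)))))), (.s k48 k32 3 (.s k154 k223 10 (.s k26 k218 7 (.s k15 k37 6 (.s k5 k10 2 (.d k165
  k245 k240 11 14))))))] (.c k208 (.l (.s k48 k32 3 (.s k80 k95 2 (.s k154 k223 10 (.s k101 k207 14
  (.s k112 k79 6 (.d k240 k176 k160 7 11))))))) .n))

def s6_170_76 : T TT 256 :=
  (.q k16 [(.s k80 k95 2 (.s k208 k144 7 (.s k149 k31 10 (.s k213 k21 7 (.d k223 k218 k154 2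
  10))))), (.s k48 k32 3 (.s k80 k95 2 (.s k144 k208 7 (.s k96 k192 11 (.s k112 k64 3 (.d k240 k176
  k160 7 11)))))), (.s k48 k32 3 (.s k154 k223 10 (.s k26 k218 7 (.s k15 k37 6 (.s k5 k10 2 (.d k165
  k245 k240 11 14))))))] (.c k208 (.l (.s k48 k32 3 (.s k80 k95 2 (.s k154 k223 10 (.s k101 k207 14
  (.s k112 k79 6 (.d k240 k176 k160 7 11))))))) .n))

def s6_170_77 : T TT 256 :=
  (.q k16 [(.s k80 k95 2 (.s k208 k144 7 (.s k149 k31 10 (.s k213 k21 7 (.d k223 k218 k154 2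
  10))))), (.s k48 k32 3 (.s k80 k95 2 (.s k144 k208 7 (.s k96 k192 11 (.s k112 k64 3 (.d k240 k176
  k160 7 11)))))), (.s k48 k32 3 (.s k154 k223 10 (.s k26 k218 7 (.s k15 k37 6 (.s k5 k10 2 (.d k165
  k245 k240 11 14))))))] (.c k208 (.l (.s k48 k32 3 (.s k80 k95 2 (.s k154 k223 10 (.s k101 k207 14
  (.s k112 k79 6 (.d k240 k176 k160 7 11))))))) .n))

def s6_170_78 : T TT 256 :=
  (.q k16 [(.s k80 k95 2 (.s k208 k144 7 (.s k149 k31 10 (.s k213 k21 7 (.d k223 k218 k154 2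
  10))))), (.s k48 k32 3 (.s k80 k95 2 (.s k144 k208 7 (.s k96 k192 11 (.s k112 k64 3 (.d k240 k176
  k160 7 11)))))), (.s k48 k32 3 (.s k154 k223 10 (.s k26 k218 7 (.s k15 k37 6 (.s k5 k10 2 (.d k165
  k245 k240 11 14))))))] (.c k208 (.l (.s k48 k32 3 (.s k80 k95 2 (.s k154 k223 10 (.s k101 k207 14
  (.s k112 k79 6 (.d k240 k176 k160 7 11))))))) .n))

def s6_170_79 : T TT 256 :=
  (.q k16 [(.s k80 k95 2 (.s k208 k144 7 (.s k149 k31 10 (.s k213 k21 7 (.d k223 k218 k154 2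
  10))))), (.s k48 k32 3 (.s k154 k223 10 (.s k26 k218 7 (.s k15 k37 6 (.s k5 k10 2 (.d k165 k245
  k240 11 14)))))), (.s k48 k32 3 (.s k80 k95 2 (.s k144 k208 7 (.s k96 k192 11 (.s k112 k64 3 (.d
  k240 k176 k160 7 11))))))] (.c k208 (.l (.s k48 k32 3 (.s k80 k95 2 (.s k154 k223 10 (.s k218 k26
  7 (.s k240 k160 11 (.d k207 k101 k229 14 6))))))) .n))

def s6_170_80 : T TT 256 :=
  (.q k5 [(.s k165 k245 11 (.d k15 k10 k240 2 14))] (.c k10 (.f k165 k245 11 (.q k14 [(.s k15 k240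
  14 (.s k12 k13 0 (.s k166 k242 13 (.d k4 k8 k247 1 12)))), (.s k15 k240 14 (.s k13 k12 0 (.s k1 k9
  1 (.s k3 k2 0 (.s k11 k7 1 (.d k169 k248 k253 12 13)))))), (.s k166 k242 13 (.s k4 k247 12 (.s k12
  k8 1 (.s k164 k167 0 (.d k240 k88 k15 13 14)))))] (.c k8 (.l (.s k15 k240 14 (.s k12 k13 0 (.s
  k166 k242 13 (.s k167 k164 0 (.d k243 k91 k89 13 14)))))) (.c k12 (.q k1 [(.s k169 k253 13 (.s
  k161 k173 1 (.s k241 k81 11 (.d k13 k9 k89 1 13)))), (.s k3 k2 0 (.s k15 k240 14 (.s k11 k7 1 (.d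
  k169 k248 k253 12 13)))), (.s k3 k2 0 (.s k13 k9 1 (.s k240 k15 14 (.s k161 k82 12 (.d k241 k81
  k89 11 13)))))] (.c k3 (.l (.s k9 k13 1 (.s k169 k253 13 (.s k240 k15 14 (.s k242 k166 13 (.s k89
  k249 11 (.s k241 k243 0 (.d k81 k93 k161 1 11)))))))) (.c k9 (.l (.s k3 k2 0 (.s k15 k240 14 (.s
  k11 k7 1 (.d k169 k248 k253 12 13))))) .n))) (.c k15 (.l (.s k166 k242 13 (.s k4 k247 12 (.s k12
  k8 1 (.s k164 k167 0 (.s k88 k240 13 (.d k89 k91 k243 0 14))))))) (.c k240 (.l (.s k166 k242 13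
  (.s k4 k247 12 (.s k12 k8 1 (.s k13 k15 0 (.d k89 k241 k243 13 14)))))) .n)))))) (.c k15 (.f k165
  k245 11 (.q k21 [(.s k149 k213 7 (.s k133 k181 3 (.s k197 k69 7 (.d k53 k37 k101 3 11)))), (.s k63
  k42 6 (.s k149 k213 7 (.s k181 k133 3 (.s k122 k240 10 (.d k106 k74 k192 3 14))))), (.s k42 k63 6
  (.s k149 k213 7 (.s k31 k208 10 (.s k16 k26 2 (.s k32 k48 3 (.d k37 k47 k53 2 3))))))] (.c k149
  (.f k37 k53 3 (.l (.s k42 k63 6 (.s k47 k32 2 (.s k101 k229 7 (.s k79 k112 6 (.s k106 k224 10 (.s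
  k64 k127 6 (.d k69 k117 k74 3 2))))))))) (.c k197 (.l (.s k37 k53 3 (.s k42 k63 6 (.s k149 k213 7
  (.s k229 k101 7 (.s k31 k208 10 (.s k16 k26 2 (.d k32 k47 k48 2 3)))))))) (.c k213 (.f k37 k53 3
  (.l (.s k42 k63 6 (.s k47 k32 2 (.s k106 k224 10 (.s k64 k127 6 (.s k74 k122 3 (.s k69 k79 2 (.d
  k101 k117 k229 3 7))))))))) (.c k229 (.l (.s k53 k37 3 (.s k149 k213 7 (.s k197 k101 11 (.d k133
  k181 k69 3 7))))) .n)))))) (.c k165 (.f k10 k15 2 (.q k69 [(.s k101 k117 3 (.s k79 k112 6 (.s k138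
  k207 10 (.d k74 k64 k202 2 7)))), (.s k101 k117 3 (.s k197 k133 7 (.s k149 k53 11 (.s k21 k213 7
  (.s k31 k208 10 (.s k42 k63 6 (.d k26 k16 k58 2 3))))))), (.s k138 k207 10 (.s k74 k202 7 (.s k106
  k122 3 (.d k64 k79 k127 2 6))))] (.c k74 (.l (.s k101 k117 3 (.s k207 k138 10 (.s k154 k48 14 (.s
  k16 k223 10 (.s k26 k218 7 (.s k21 k31 2 (.d k42 k63 k58 6 3)))))))) (.c k160 (.q k175 [(.s k101
  k117 3 (.s k79 k112 6 (.s k138 k207 10 (.d k74 k64 k202 2 7)))), (.s k101 k117 3 (.s k197 k133 7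
  (.s k149 k53 11 (.s k21 k213 7 (.s k31 k208 10 (.s k42 k63 6 (.d k26 k16 k58 2 3))))))), (.s k138
  k207 10 (.s k74 k202 7 (.s k106 k122 3 (.d k64 k79 k127 2 6))))] (.c k74 (.l (.s k101 k117 3 (.s
  k207 k138 10 (.s k154 k48 14 (.s k16 k223 10 (.s k26 k218 7 (.s k21 k31 2 (.d k42 k63 k58 6
  3)))))))) .n)) (.c k175 (.q k160 [(.s k101 k117 3 (.s k79 k112 6 (.s k138 k207 10 (.d k74 k64 k202
  2 7)))), (.s k101 k117 3 (.s k197 k133 7 (.s k149 k53 11 (.s k21 k213 7 (.s k31 k208 10 (.s k42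
  k63 6 (.d k26 k16 k58 2 3))))))), (.s k138 k207 10 (.s k74 k202 7 (.s k106 k122 3 (.d k64 k79 k127
  2 6))))] (.c k74 (.l (.s k101 k117 3 (.s k207 k138 10 (.s k154 k48 14 (.s k16 k223 10 (.s k26 k218
  7 (.s k21 k31 2 (.d k42 k63 k58 6 3)))))))) (.c k95 (.q k255 [(.s k101 k117 3 (.s k79 k112 6 (.s
  k138 k207 10 (.d k74 k64 k202 2 7)))), (.s k101 k117 3 (.s k207 k138 10 (.s k154 k48 14 (.d k223
  k239 k16 3 10)))), (.s k138 k207 10 (.s k74 k202 7 (.s k106 k122 3 (.d k64 k79 k127 2 6)))), (.s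
  k101 k117 3 (.s k79 k112 6 (.s k64 k74 2 (.s k192 k128 7 (.s k213 k234 6 (.s k149 k21 7 (.d k106
  k127 k63 6 14)))))))] .n) (.c k255 (.q k95 [(.s k138 k207 10 (.s k74 k202 7 (.s k106 k122 3 (.d
  k64 k79 k127 2 6)))), (.s k101 k117 3 (.s k197 k133 7 (.s k149 k53 11 (.s k21 k213 7 (.s k31 k208
  10 (.s k16 k26 2 (.d k223 k159 k154 7 10))))))), (.s k101 k117 3 (.s k79 k112 6 (.s k127 k111 3
  (.d k64 k74 k106 2 6))))] (.c k74 (.l (.s k101 k117 3 (.s k79 k112 6 (.s k127 k111 3 (.s k64 k106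
  6 (.s k128 k192 7 (.s k133 k197 7 (.d k138 k207 k143 10 2)))))))) .n)) .n)))) .n))))) (.c k240 (.q
  k13 [(.s k1 k9 1 (.s k15 k10 2 (.s k169 k253 13 (.s k11 k248 12 (.d k3 k2 k7 0 1))))), (.s k165
  k245 11 (.s k89 k241 13 (.s k93 k81 1 (.s k253 k173 11 (.d k1 k9 k169 1 13))))), (.s k15 k10 2 (.s
  k165 k245 11 (.s k89 k241 13 (.s k81 k93 1 (.s k91 k88 0 (.d k243 k162 k167 12 13))))))] (.c k253
  (.l (.s k9 k1 1 (.s k10 k15 2 (.s k11 k8 0 (.s k165 k245 11 (.s k169 k248 12 (.d k89 k249 k241 11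
  13))))))) .n)) (.c k245 (.q k16 [(.s k48 k32 3 (.s k154 k223 10 (.s k26 k218 7 (.d k15 k10 k37 2
  6)))), (.s k15 k10 2 (.s k48 k32 3 (.s k154 k223 10 (.s k101 k207 14 (.s k112 k79 6 (.d k240 k176
  k165 7 14)))))), (.s k32 k48 3 (.s k154 k223 10 (.s k26 k218 7 (.s k21 k31 2 (.s k37 k53 3 (.d k42
  k63 k47 6 2)))))), (.s k10 k15 2 (.s k154 k223 10 (.s k26 k218 7 (.s k21 k31 2 (.d k42 k63 k58 6
  3)))))] (.c k154 (.l (.s k15 k10 2 (.s k48 k32 3 (.s k37 k26 6 (.s k21 k53 3 (.s k149 k213 7 (.s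
  k31 k208 10 (.d k63 k42 k47 6 3)))))))) (.c k223 (.l (.s k15 k10 2 (.s k48 k32 3 (.s k26 k37 6 (.s
  k154 k218 7 (.s k101 k207 14 (.s k112 k79 6 (.d k240 k176 k165 7 14)))))))) .n))) .n))))))

def s6_170_81 : T TT 256 :=
  (.q k16 [(.s k80 k95 2 (.s k208 k144 7 (.s k149 k31 10 (.s k213 k21 7 (.d k223 k218 k154 2
  10))))), (.s k48 k32 3 (.s k80 k95 2 (.s k144 k208 7 (.s k96 k192 11 (.s k112 k64 3 (.d k240 k176
  k160 7 11)))))), (.s k48 k32 3 (.s k154 k223 10 (.s k26 k218 7 (.s k15 k37 6 (.s k5 k10 2 (.d k165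
  k245 k240 11 14))))))] (.c k208 (.l (.s k48 k32 3 (.s k80 k95 2 (.s k154 k223 10 (.s k101 k207 14
  (.s k112 k79 6 (.d k240 k176 k160 7 11))))))) .n))

def s6_170_82 : T TT 256 :=
  (.q k16 [(.s k80 k95 2 (.s k208 k144 7 (.s k149 k31 10 (.s k213 k21 7 (.d k223 k218 k154 2
  10))))), (.s k48 k32 3 (.s k80 k95 2 (.s k144 k208 7 (.s k96 k192 11 (.s k112 k64 3 (.d k240 k176
  k160 7 11)))))), (.s k48 k32 3 (.s k154 k223 10 (.s k26 k218 7 (.s k15 k37 6 (.s k5 k10 2 (.d k165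
  k245 k240 11 14))))))] (.c k208 (.l (.s k48 k32 3 (.s k80 k95 2 (.s k154 k223 10 (.s k101 k207 14
  (.s k112 k79 6 (.d k240 k176 k160 7 11))))))) .n))

def s6_170_83 : T TT 256 :=
  (.q k16 [(.s k80 k95 2 (.s k208 k144 7 (.s k149 k31 10 (.s k213 k21 7 (.d k223 k218 k154 2
  10))))), (.s k48 k32 3 (.s k154 k223 10 (.s k26 k218 7 (.s k15 k37 6 (.s k5 k10 2 (.d k165 k245
  k240 11 14)))))), (.s k48 k32 3 (.s k80 k95 2 (.s k144 k208 7 (.s k96 k192 11 (.s k112 k64 3 (.d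
  k240 k176 k160 7 11))))))] (.c k208 (.l (.s k48 k32 3 (.s k80 k95 2 (.s k154 k223 10 (.s k101 k207
  14 (.s k112 k79 6 (.d k240 k176 k160 7 11))))))) .n))

def s6_170_84 : T TT 256 :=
  (.q k16 [(.s k80 k95 2 (.s k208 k144 7 (.s k149 k31 10 (.s k213 k21 7 (.d k223 k218 k154 2
  10))))), (.s k48 k32 3 (.s k80 k95 2 (.s k144 k208 7 (.s k96 k192 11 (.s k112 k64 3 (.d k240 k176
  k160 7 11)))))), (.s k48 k32 3 (.s k154 k223 10 (.s k26 k218 7 (.s k15 k37 6 (.s k5 k10 2 (.d k165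
  k245 k240 11 14))))))] (.c k208 (.l (.s k48 k32 3 (.s k80 k95 2 (.s k154 k223 10 (.s k101 k207 14
  (.s k112 k79 6 (.d k240 k176 k160 7 11))))))) .n))

def s6_170_86 : T TT 256 :=
  (.f k80 k95 2 (.q k166 [(.s k4 k247 12 (.s k12 k8 1 (.s k14 k242 13 (.s k15 k13 0 (.d k240 k160
  k165 11 14))))), (.s k240 k160 11 (.s k242 k14 13 (.s k243 k241 0 (.s k81 k162 12 (.d k89 k93 k12
  1 14))))), (.s k4 k247 12 (.s k12 k8 1 (.s k89 k243 14 (.s k88 k91 0 (.d k240 k160 k164 11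
  13)))))] (.c k2 (.q k254 [(.s k4 k247 12 (.s k12 k8 1 (.s k14 k242 13 (.s k15 k13 0 (.d k240 k160
  k165 11 14))))), (.s k4 k247 12 (.s k240 k160 11 (.s k165 k15 14 (.s k164 k167 0 (.s k84 k244 11
  (.d k88 k92 k12 1 13)))))), (.s k4 k247 12 (.s k12 k8 1 (.s k14 k242 13 (.s k174 k94 11 (.s k93
  k255 12 (.d k89 k243 k81 14 1)))))), (.s k240 k160 11 (.s k165 k15 14 (.s k164 k167 0 (.s k12 k88
  13 (.s k243 k89 14 (.d k242 k14 k241 13 0))))))] (.c k10 (.l (.s k14 k242 13 (.s k4 k247 12 (.s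
  k12 k8 1 (.s k15 k13 0 (.d k240 k160 k165 11 14)))))) (.c k12 (.l (.s k240 k160 11 (.s k165 k15 14
  (.s k245 k5 11 (.s k255 k250 2 (.s k252 k253 0 (.s k244 k248 1 (.d k247 k4 k246 12 0)))))))) (.c
  k14 (.q k10 [(.s k240 k160 11 (.d k15 k165 k5 14 2)), (.s k4 k247 12 (.s k12 k8 1 (.s k89 k243 14
  (.s k88 k91 0 (.d k240 k160 k164 11 13)))))] (.c k15 (.l (.s k4 k247 12 (.s k12 k8 1 (.s k89 k243
  14 (.s k240 k160 11 (.d k88 k91 k164 0 13)))))) (.c k160 (.l (.s k4 k247 12 (.s k12 k8 1 (.s k15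
  k5 2 (.s k89 k243 14 (.s k88 k91 0 (.d k240 k164 k165 13 14))))))) (.c k240 (.q k1 [(.s k4 k247 12
  (.s k169 k253 13 (.s k11 k248 12 (.d k8 k9 k12 0 1)))), (.s k5 k15 2 (.s k13 k9 1 (.s k165 k245 11
  (.s k89 k241 13 (.s k81 k93 1 (.d k243 k12 k162 14 12))))))] (.c k9 (.l (.s k4 k247 12 (.s k12 k8
  1 (.s k89 k243 14 (.s k93 k81 1 (.s k253 k169 13 (.d k255 k252 k174 0 12))))))) (.c k12 (.l (.s
  k169 k253 13 (.s k11 k248 12 (.s k9 k8 0 (.d k5 k13 k15 1 2))))) (.c k253 (.l (.s k4 k247 12 (.s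
  k8 k12 1 (.s k9 k11 0 (.d k5 k13 k15 1 2))))) .n)))) .n)))) (.c k15 (.l (.s k4 k247 12 (.s k12 k8
  1 (.s k89 k243 14 (.s k240 k160 11 (.d k88 k91 k164 0 13)))))) .n))))) (.c k12 (.l (.s k240 k160
  11 (.s k242 k14 13 (.s k243 k241 0 (.s k81 k162 12 (.s k89 k93 1 (.s k91 k88 0 (.d k15 k165 k167
  14 13)))))))) (.c k89 (.l (.s k4 k247 12 (.s k240 k160 11 (.s k165 k15 14 (.s k164 k167 0 (.d k12
  k8 k88 1 13)))))) (.c k160 (.l (.s k4 k247 12 (.s k12 k8 1 (.s k14 k242 13 (.s k15 k13 0 (.s k5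
  k10 2 (.d k165 k245 k240 11 14))))))) (.c k240 (.f k4 k247 12 (.l (.s k12 k8 1 (.s k14 k242 13 (.s
  k15 k13 0 (.s k5 k10 2 (.s k165 k245 11 (.s k167 k164 0 (.d k243 k89 k91 14 13))))))))) (.c k254
  (.q k2 [(.s k3 k1 0 (.s k242 k14 13 (.s k82 k162 11 (.d k240 k160 k161 11 12)))), (.s k4 k247 12
  (.s k12 k8 1 (.s k89 k243 14 (.s k88 k91 0 (.d k240 k160 k164 11 13))))), (.s k4 k247 12 (.s k12
  k8 1 (.s k242 k14 13 (.s k162 k82 11 (.d k243 k89 k81 14 12)))))] .n) .n))))))))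

def s6_170_87 : T TT 256 :=
  (.q k16 [(.s k80 k95 2 (.s k208 k144 7 (.s k149 k31 10 (.s k213 k21 7 (.d k223 k218 k154 2
  10))))), (.s k48 k32 3 (.s k154 k223 10 (.s k26 k218 7 (.s k15 k37 6 (.s k5 k10 2 (.d k165 k245
  k240 11 14)))))), (.s k48 k32 3 (.s k80 k95 2 (.s k144 k208 7 (.s k96 k192 11 (.s k112 k64 3 (.d
  k240 k176 k160 7 11))))))] (.c k208 (.l (.s k48 k32 3 (.s k80 k95 2 (.s k154 k223 10 (.s k101 k207
  14 (.s k112 k79 6 (.d k240 k176 k160 7 11))))))) .n))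

def s6_170_88 : T TT 256 :=
  (.q k16 [(.s k80 k95 2 (.s k208 k144 7 (.s k149 k31 10 (.s k213 k21 7 (.d k223 k218 k154 2
  10))))), (.s k48 k32 3 (.s k80 k95 2 (.s k144 k208 7 (.s k96 k192 11 (.s k112 k64 3 (.d k240 k176
  k160 7 11)))))), (.s k48 k32 3 (.s k154 k223 10 (.s k26 k218 7 (.s k15 k37 6 (.s k5 k10 2 (.d k165
  k245 k240 11 14))))))] (.c k208 (.l (.s k48 k32 3 (.s k80 k95 2 (.s k154 k223 10 (.s k101 k207 14
  (.s k112 k79 6 (.d k240 k176 k160 7 11))))))) .n))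

def s6_170_89 : T TT 256 :=
  (.f k80 k95 2 (.f k160 k240 11 (.q k16 [(.s k144 k208 7 (.s k128 k176 3 (.s k192 k64 7 (.d k48 k32
  k96 3 11)))), (.s k154 k223 10 (.s k26 k218 7 (.s k31 k21 2 (.d k208 k144 k149 7 10)))), (.s k48
  k32 3 (.s k154 k223 10 (.s k101 k207 14 (.s k112 k79 6 (.s k64 k96 3 (.s k117 k69 3 (.d k127 k122
  k106 2 6)))))))] (.c k8 (.q k251 [(.s k144 k208 7 (.s k128 k176 3 (.s k192 k64 7 (.d k48 k32 k96 3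
  11)))), (.s k154 k223 10 (.s k26 k218 7 (.s k31 k21 2 (.d k208 k144 k149 7 10)))), (.s k48 k32 3
  (.s k154 k223 10 (.s k101 k207 14 (.s k112 k79 6 (.s k64 k96 3 (.s k117 k69 3 (.d k127 k122 k106 2
  6)))))))] .n) (.c k251 (.q k8 [(.s k144 k208 7 (.s k128 k176 3 (.s k192 k64 7 (.d k48 k32 k96 3
  11)))), (.s k154 k223 10 (.s k26 k218 7 (.s k31 k21 2 (.d k208 k144 k149 7 10)))), (.s k12 k4 1
  (.s k48 k32 3 (.s k24 k36 5 (.s k20 k28 1 (.d k40 k56 k60 3 5)))))] .n) .n)))))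

def s6_170_91 : T TT 256 :=
  (.q k16 [(.s k95 k80 2 (.s k223 k154 10 (.s k31 k159 7 (.s k21 k26 2 (.d k149 k213 k208 7 10))))),
  (.s k48 k32 3 (.s k80 k95 2 (.s k144 k208 7 (.s k96 k192 11 (.s k112 k64 3 (.d k240 k176 k160 7
  11)))))), (.s k48 k32 3 (.s k154 k223 10 (.s k26 k218 7 (.s k15 k37 6 (.s k5 k10 2 (.d k165 k245
  k240 11 14))))))] (.c k208 (.l (.s k48 k32 3 (.s k80 k95 2 (.s k154 k223 10 (.s k101 k207 14 (.s
  k112 k79 6 (.d k240 k176 k160 7 11))))))) .n))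

def s6_170_92 : T TT 256 :=
  (.q k16 [(.s k80 k95 2 (.s k208 k144 7 (.s k149 k31 10 (.s k213 k21 7 (.d k223 k218 k154 2
  10))))), (.s k48 k32 3 (.s k154 k223 10 (.s k26 k218 7 (.s k15 k37 6 (.s k5 k10 2 (.d k165 k245
  k240 11 14)))))), (.s k48 k32 3 (.s k80 k95 2 (.s k144 k208 7 (.s k96 k192 11 (.s k112 k64 3 (.d
  k240 k176 k160 7 11))))))] (.c k208 (.l (.s k48 k32 3 (.s k80 k95 2 (.s k154 k223 10 (.s k101 k207
  14 (.s k112 k79 6 (.d k240 k176 k160 7 11))))))) .n))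

def s6_170_93 : T TT 256 :=
  (.q k16 [(.s k80 k95 2 (.s k208 k144 7 (.s k149 k31 10 (.s k213 k21 7 (.d k223 k218 k154 2
  10))))), (.s k48 k32 3 (.s k154 k223 10 (.s k26 k218 7 (.s k15 k37 6 (.s k5 k10 2 (.d k165 k245
  k240 11 14)))))), (.s k48 k32 3 (.s k80 k95 2 (.s k144 k208 7 (.s k96 k192 11 (.s k112 k64 3 (.d
  k240 k176 k160 7 11))))))] (.c k208 (.l (.s k48 k32 3 (.s k80 k95 2 (.s k154 k223 10 (.s k101 k207
  14 (.s k112 k79 6 (.d k240 k176 k160 7 11))))))) .n))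

def s6_170_94 : T TT 256 :=
  (.q k16 [(.s k95 k80 2 (.s k223 k154 10 (.s k31 k159 7 (.s k21 k26 2 (.d k149 k213 k208 7 10))))),
  (.s k48 k32 3 (.s k80 k95 2 (.s k144 k208 7 (.s k96 k192 11 (.s k112 k64 3 (.d k240 k176 k160 7
  11)))))), (.s k48 k32 3 (.s k154 k223 10 (.s k26 k218 7 (.s k15 k37 6 (.s k5 k10 2 (.d k165 k245
  k240 11 14))))))] (.c k208 (.l (.s k48 k32 3 (.s k80 k95 2 (.s k154 k223 10 (.s k101 k207 14 (.s
  k112 k79 6 (.d k240 k176 k160 7 11))))))) .n))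

def s6_170_95 : T TT 256 :=
  (.q k15 [(.s k165 k240 14 (.d k5 k10 k245 2 11))] (.c k5 (.q k4 [(.s k166 k247 12 (.s k14 k242 13
  (.d k12 k13 k8 0 1))), (.s k165 k240 14 (.s k166 k247 12 (.s k164 k167 0 (.s k84 k244 11 (.s k252
  k168 13 (.s k94 k173 12 (.d k86 k87 k82 0 1))))))), (.s k12 k8 1 (.s k240 k165 14 (.s k160 k80 11
  (.s k164 k88 13 (.s k84 k244 11 (.d k168 k172 k252 1 13))))))] .n) (.c k10 (.q k14 [(.s k12 k13 0
  (.s k166 k242 13 (.d k4 k8 k247 1 12))), (.s k240 k165 14 (.s k160 k80 11 (.s k242 k166 13 (.s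
  k243 k241 0 (.s k162 k81 12 (.s k82 k2 11 (.d k161 k163 k3 0 12))))))), (.s k12 k13 0 (.s k4 k8 1
  (.s k240 k165 14 (.s k160 k80 11 (.s k164 k88 13 (.s k84 k244 11 (.d k168 k172 k252 1 13)))))))]
  (.c k13 (.l (.s k165 k240 14 (.s k166 k242 13 (.s k4 k247 12 (.s k12 k8 1 (.s k167 k164 0 (.d k243
  k89 k91 14 13))))))) .n)) (.c k165 (.q k169 [(.s k1 k253 13 (.s k11 k248 12 (.d k3 k2 k7 0 1))),
  (.s k10 k5 2 (.s k11 k248 12 (.s k9 k8 0 (.s k89 k249 11 (.s k81 k93 1 (.s k243 k162 12 (.d k91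
  k88 k167 0 13))))))), (.s k1 k253 13 (.s k5 k10 2 (.s k9 k13 1 (.s k89 k249 11 (.s k91 k88 0 (.s
  k243 k167 13 (.d k81 k93 k162 1 12)))))))] (.c k160 (.q k175 [(.s k1 k253 13 (.s k11 k248 12 (.d
  k3 k2 k7 0 1))), (.s k10 k5 2 (.s k11 k248 12 (.s k9 k8 0 (.s k89 k249 11 (.s k81 k93 1 (.s k243
  k162 12 (.d k91 k88 k167 0 13))))))), (.s k1 k253 13 (.s k5 k10 2 (.s k9 k13 1 (.s k89 k249 11 (.s
  k91 k88 0 (.s k243 k167 13 (.d k81 k93 k162 1 12)))))))] .n) (.c k175 (.q k160 [(.s k1 k253 13 (.s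
  k11 k248 12 (.d k3 k2 k7 0 1))), (.s k240 k80 11 (.s k248 k11 12 (.s k252 k244 1 (.s k84 k168 13
  (.s k86 k87 0 (.d k94 k82 k173 1 12)))))), (.s k1 k253 13 (.s k3 k2 0 (.s k86 k252 14 (.s k82 k94
  1 (.d k240 k80 k161 11 12)))))] .n) .n))) (.c k240 (.q k16 [(.s k48 k32 3 (.s k26 k37 6 (.d k154
  k218 k223 7 10))), (.s k10 k5 2 (.s k154 k223 10 (.s k26 k218 7 (.s k42 k58 3 (.d k21 k31 k63 2
  6))))), (.s k5 k10 2 (.s k48 k32 3 (.s k154 k223 10 (.s k165 k245 11 (.s k143 k176 6 (.d k207 k101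
  k79 14 7)))))), (.s k10 k5 2 (.s k48 k32 3 (.s k26 k37 6 (.s k42 k58 3 (.d k21 k31 k63 2 6)))))]
  .n) (.c k245 (.q k1 [(.s k169 k253 13 (.s k11 k248 12 (.d k3 k2 k7 0 1))), (.s k5 k10 2 (.s k165
  k240 14 (.s k169 k253 13 (.s k161 k173 1 (.s k241 k81 11 (.d k13 k9 k89 1 13)))))), (.s k3 k2 0
  (.s k7 k11 1 (.s k165 k240 14 (.s k86 k244 12 (.s k84 k87 0 (.d k252 k168 k169 13 14))))))] (.c k2
  (.l (.s k165 k240 14 (.s k169 k253 13 (.s k11 k248 12 (.s k3 k7 1 (.s k173 k161 1 (.d k252 k94 k86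
  12 14))))))) (.c k169 (.l (.s k3 k2 0 (.s k240 k165 14 (.s k160 k80 11 (.s k161 k82 12 (.s k81
  k241 11 (.d k162 k163 k243 0 12))))))) .n))) .n))))))

def s6_170_96 : T TT 256 :=
  (.q k16 [(.s k80 k95 2 (.s k154 k223 10 (.s k26 k218 7 (.s k31 k21 2 (.d k208 k144 k149 7 10))))),
  (.s k48 k32 3 (.s k154 k223 10 (.s k26 k218 7 (.s k15 k37 6 (.s k5 k10 2 (.d k165 k245 k240 11
  14)))))), (.s k48 k32 3 (.s k80 k95 2 (.s k154 k223 10 (.s k101 k207 14 (.s k112 k79 6 (.d k240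
  k160 k176 11 7))))))] (.c k154 (.l (.s k80 k95 2 (.s k208 k144 7 (.s k149 k31 10 (.s k21 k213 7
  (.s k63 k42 6 (.s k240 k160 11 (.d k192 k224 k106 3 14)))))))) (.c k223 (.l (.s k48 k32 3 (.s k80
  k95 2 (.s k208 k144 7 (.s k31 k149 10 (.s k26 k21 2 (.s k15 k37 6 (.d k240 k160 k165 11 14))))))))
  .n)))

def s6_170_97 : T TT 256 :=
  (.q k16 [(.s k80 k95 2 (.s k208 k144 7 (.s k149 k31 10 (.s k213 k21 7 (.d k223 k218 k154 2
  10))))), (.s k48 k32 3 (.s k80 k95 2 (.s k144 k208 7 (.s k96 k192 11 (.s k112 k64 3 (.d k240 k176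
  k160 7 11)))))), (.s k48 k32 3 (.s k154 k223 10 (.s k26 k218 7 (.s k15 k37 6 (.s k5 k10 2 (.d k165
  k245 k240 11 14))))))] (.c k208 (.l (.s k48 k32 3 (.s k80 k95 2 (.s k154 k223 10 (.s k101 k207 14
  (.s k112 k79 6 (.d k240 k176 k160 7 11))))))) .n))

def s6_170_98 : T TT 256 :=
  (.q k16 [(.s k80 k95 2 (.s k208 k144 7 (.s k149 k31 10 (.s k213 k21 7 (.d k223 k218 k154 2
  10))))), (.s k48 k32 3 (.s k80 k95 2 (.s k144 k208 7 (.s k96 k192 11 (.s k112 k64 3 (.d k240 k176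
  k160 7 11)))))), (.s k48 k32 3 (.s k154 k223 10 (.s k26 k218 7 (.s k15 k37 6 (.s k5 k10 2 (.d k165
  k245 k240 11 14))))))] (.c k208 (.l (.s k48 k32 3 (.s k80 k95 2 (.s k154 k223 10 (.s k101 k207 14
  (.s k112 k79 6 (.d k240 k176 k160 7 11))))))) .n))

def s6_170_99 : T TT 256 :=
  (.q k16 [(.s k80 k95 2 (.s k208 k144 7 (.s k149 k31 10 (.s k213 k21 7 (.d k223 k218 k154 2
  10))))), (.s k48 k32 3 (.s k80 k95 2 (.s k144 k208 7 (.s k96 k192 11 (.s k112 k64 3 (.d k240 k176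
  k160 7 11)))))), (.s k48 k32 3 (.s k154 k223 10 (.s k26 k218 7 (.s k15 k37 6 (.s k5 k10 2 (.d k165
  k245 k240 11 14))))))] (.c k208 (.l (.s k48 k32 3 (.s k80 k95 2 (.s k154 k223 10 (.s k101 k207 14
  (.s k112 k79 6 (.d k240 k176 k160 7 11))))))) .n))

def s6_170_100 : T TT 256 :=
  (.q k16 [(.s k80 k95 2 (.s k208 k144 7 (.s k149 k31 10 (.s k213 k21 7 (.d k223 k218 k154 2
  10))))), (.s k48 k32 3 (.s k80 k95 2 (.s k144 k208 7 (.s k96 k192 11 (.s k112 k64 3 (.d k240 k176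
  k160 7 11)))))), (.s k48 k32 3 (.s k154 k223 10 (.s k26 k218 7 (.s k15 k37 6 (.s k5 k10 2 (.d k165
  k245 k240 11 14))))))] (.c k208 (.l (.s k48 k32 3 (.s k80 k95 2 (.s k154 k223 10 (.s k101 k207 14
  (.s k112 k79 6 (.d k240 k176 k160 7 11))))))) .n))

def s6_170_101 : T TT 256 :=
  (.f k80 k95 2 (.q k16 [(.s k208 k144 7 (.s k149 k31 10 (.s k213 k21 7 (.d k223 k218 k154 2 10)))),
  (.s k144 k208 7 (.s k160 k240 11 (.s k128 k176 3 (.s k192 k64 7 (.d k48 k32 k96 3 11))))), (.s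
  k154 k223 10 (.s k240 k160 11 (.s k165 k15 14 (.s k176 k143 6 (.d k48 k32 k112 3 7)))))] (.c k32
  (.q k239 [(.s k208 k144 7 (.s k149 k31 10 (.s k213 k21 7 (.d k223 k218 k154 2 10)))), (.s k223
  k154 10 (.s k240 k160 11 (.s k165 k15 14 (.s k245 k5 11 (.d k255 k207 k250 3 2)))))] (.c k154 (.l
  (.s k208 k144 7 (.s k149 k31 10 (.s k21 k213 7 (.s k63 k42 6 (.s k240 k160 11 (.d k192 k224 k106 3
  14))))))) (.c k223 (.l (.s k208 k144 7 (.s k31 k149 10 (.s k21 k26 2 (.s k63 k42 6 (.s k240 k160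
  11 (.d k15 k47 k165 3 14))))))) .n))) (.c k239 (.l (.s k32 k48 3 (.s k154 k223 10 (.s k26 k218 7
  (.s k31 k21 2 (.d k208 k144 k149 7 10)))))) .n))))

def s6_170_102 : T TT 256 :=
  (.f k80 k95 2 (.f k160 k240 11 (.q k16 [(.s k144 k208 7 (.s k128 k176 3 (.s k192 k64 7 (.d k48 k32
  k96 3 11)))), (.s k154 k223 10 (.s k26 k218 7 (.s k31 k21 2 (.d k208 k144 k149 7 10)))), (.s k48
  k32 3 (.s k154 k223 10 (.s k101 k207 14 (.s k112 k79 6 (.s k64 k96 3 (.s k117 k69 3 (.d k127 k122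
  k106 2 6)))))))] (.c k34 (.q k238 [(.s k144 k208 7 (.s k128 k176 3 (.s k192 k64 7 (.d k48 k32 k96
  3 11)))), (.s k154 k223 10 (.s k26 k218 7 (.s k31 k21 2 (.d k208 k144 k149 7 10)))), (.s k48 k32 3
  (.s k154 k223 10 (.s k101 k207 14 (.s k112 k79 6 (.s k64 k96 3 (.s k117 k69 3 (.d k127 k122 k106 2
  6)))))))] .n) (.c k238 (.q k34 [(.s k144 k208 7 (.s k128 k176 3 (.s k192 k64 7 (.d k48 k32 k96 3
  11)))), (.s k154 k223 10 (.s k26 k218 7 (.s k31 k21 2 (.d k208 k144 k149 7 10)))), (.s k17 k51 4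
  (.s k18 k19 0 (.s k2 k50 3 (.s k3 k1 0 (.d k48 k32 k33 3 4)))))] .n) .n)))))

def s6_170_103 : T TT 256 :=
  (.q k16 [(.s k80 k95 2 (.s k208 k144 7 (.s k149 k31 10 (.s k213 k21 7 (.d k223 k218 k154 2
  10))))), (.s k48 k32 3 (.s k80 k95 2 (.s k144 k208 7 (.s k96 k192 11 (.s k112 k64 3 (.d k240 k176
  k160 7 11)))))), (.s k48 k32 3 (.s k154 k223 10 (.s k26 k218 7 (.s k15 k37 6 (.s k5 k10 2 (.d k165
  k245 k240 11 14))))))] (.c k208 (.l (.s k48 k32 3 (.s k80 k95 2 (.s k154 k223 10 (.s k101 k207 14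
  (.s k112 k79 6 (.d k240 k176 k160 7 11))))))) .n))

def s6_170_104 : T TT 256 :=
  (.q k16 [(.s k80 k95 2 (.s k208 k144 7 (.s k149 k31 10 (.s k213 k21 7 (.d k223 k218 k154 2
  10))))), (.s k48 k32 3 (.s k80 k95 2 (.s k144 k208 7 (.s k96 k192 11 (.s k112 k64 3 (.d k240 k176
  k160 7 11)))))), (.s k48 k32 3 (.s k154 k223 10 (.s k26 k218 7 (.s k15 k37 6 (.s k5 k10 2 (.d k165
  k245 k240 11 14))))))] (.c k208 (.l (.s k48 k32 3 (.s k80 k95 2 (.s k154 k223 10 (.s k101 k207 14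
  (.s k112 k79 6 (.d k240 k176 k160 7 11))))))) .n))

def s6_170_105 : T TT 256 :=
  (.f k80 k95 2 (.f k160 k240 11 (.q k16 [(.s k144 k208 7 (.s k128 k176 3 (.s k192 k64 7 (.d k48 k32
  k96 3 11)))), (.s k154 k223 10 (.s k26 k218 7 (.s k31 k21 2 (.d k208 k144 k149 7 10)))), (.s k48
  k32 3 (.s k154 k223 10 (.s k101 k207 14 (.s k112 k79 6 (.s k64 k96 3 (.s k117 k69 3 (.d k127 k122
  k106 2 6)))))))] (.c k40 (.q k235 [(.s k144 k208 7 (.s k128 k176 3 (.s k192 k64 7 (.d k48 k32 k96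
  3 11)))), (.s k154 k223 10 (.s k26 k218 7 (.s k31 k21 2 (.d k208 k144 k149 7 10)))), (.s k48 k32 3
  (.s k154 k223 10 (.s k101 k207 14 (.s k112 k79 6 (.s k64 k96 3 (.s k117 k69 3 (.d k127 k122 k106 2
  6)))))))] .n) (.c k235 (.q k40 [(.s k144 k208 7 (.s k128 k176 3 (.s k192 k64 7 (.d k48 k32 k96 3
  11)))), (.s k154 k223 10 (.s k26 k218 7 (.s k31 k21 2 (.d k208 k144 k149 7 10)))), (.s k20 k60 5
  (.s k24 k28 1 (.s k8 k56 3 (.s k12 k4 1 (.d k48 k32 k36 3 5)))))] .n) .n)))))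

def s6_170_106 : T TT 256 :=
  (.f k80 k95 2 (.q k101 [(.s k69 k117 3 (.s k207 k138 10 (.s k154 k48 14 (.s k218 k26 7 (.d k240
  k229 k160 6 11))))), (.s k112 k79 6 (.s k96 k64 3 (.s k240 k160 11 (.s k48 k176 7 (.s k16 k32 3
  (.d k144 k208 k192 7 11)))))), (.s k69 k117 3 (.s k79 k112 6 (.s k74 k64 2 (.s k207 k138 10 (.s
  k15 k143 7 (.s k5 k10 2 (.d k133 k197 k192 7 10)))))))] (.c k42 (.q k234 [(.s k69 k117 3 (.s k112
  k79 6 (.s k207 k138 10 (.s k240 k160 11 (.d k48 k154 k176 14 7))))), (.s k69 k117 3 (.s k207 k138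
  10 (.s k154 k48 14 (.s k218 k26 7 (.d k240 k229 k160 6 11))))), (.s k112 k79 6 (.s k96 k64 3 (.s
  k240 k160 11 (.s k48 k176 7 (.s k16 k32 3 (.d k144 k208 k192 7 11)))))), (.s k69 k117 3 (.s k79
  k112 6 (.s k74 k64 2 (.s k207 k138 10 (.s k15 k143 7 (.s k5 k10 2 (.d k133 k197 k192 7 10)))))))]
  (.c k69 (.l (.s k112 k79 6 (.s k240 k160 11 (.s k48 k176 7 (.s k16 k32 3 (.d k154 k223 k207 10
  14)))))) .n)) (.c k69 (.l (.s k112 k79 6 (.s k240 k160 11 (.s k48 k176 7 (.s k16 k32 3 (.d k154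
  k223 k207 10 14)))))) (.c k234 (.q k42 [(.s k69 k117 3 (.s k207 k138 10 (.s k154 k48 14 (.s k218
  k26 7 (.d k240 k229 k160 6 11))))), (.s k63 k21 6 (.s k112 k79 6 (.s k117 k69 3 (.s k240 k160 11
  (.d k122 k127 k181 2 10))))), (.s k21 k63 6 (.s k240 k160 11 (.s k165 k15 14 (.s k5 k245 11 (.d
  k37 k53 k229 3 7))))), (.s k21 k63 6 (.s k69 k117 3 (.s k207 k138 10 (.s k154 k48 14 (.s k16 k223
  10 (.d k26 k31 k218 2 7))))))] .n) .n)))))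

def s6_170_107 : T TT 256 :=
  (.q k16 [(.s k80 k95 2 (.s k208 k144 7 (.s k149 k31 10 (.s k213 k21 7 (.d k223 k218 k154 2
  10))))), (.s k48 k32 3 (.s k80 k95 2 (.s k144 k208 7 (.s k96 k192 11 (.s k112 k64 3 (.d k240 k176
  k160 7 11)))))), (.s k48 k32 3 (.s k154 k223 10 (.s k26 k218 7 (.s k15 k37 6 (.s k5 k10 2 (.d k165
  k245 k240 11 14))))))] (.c k208 (.l (.s k48 k32 3 (.s k80 k95 2 (.s k154 k223 10 (.s k101 k207 14
  (.s k112 k79 6 (.d k240 k176 k160 7 11))))))) .n))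

def s6_170_108 : T TT 256 :=
  (.q k16 [(.s k80 k95 2 (.s k208 k144 7 (.s k149 k31 10 (.s k213 k21 7 (.d k223 k218 k154 2
  10))))), (.s k48 k32 3 (.s k80 k95 2 (.s k144 k208 7 (.s k96 k192 11 (.s k112 k64 3 (.d k240 k176
  k160 7 11)))))), (.s k48 k32 3 (.s k154 k223 10 (.s k26 k218 7 (.s k15 k37 6 (.s k5 k10 2 (.d k165
  k245 k240 11 14))))))] (.c k208 (.l (.s k48 k32 3 (.s k80 k95 2 (.s k154 k223 10 (.s k101 k207 14
  (.s k112 k79 6 (.d k240 k176 k160 7 11))))))) .n))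

def s6_170_109 : T TT 256 :=
  (.q k16 [(.s k80 k95 2 (.s k208 k144 7 (.s k149 k31 10 (.s k213 k21 7 (.d k223 k218 k154 2
  10))))), (.s k48 k32 3 (.s k80 k95 2 (.s k144 k208 7 (.s k96 k192 11 (.s k112 k64 3 (.d k240 k176
  k160 7 11)))))), (.s k48 k32 3 (.s k154 k223 10 (.s k26 k218 7 (.s k15 k37 6 (.s k5 k10 2 (.d k165
  k245 k240 11 14))))))] (.c k208 (.l (.s k48 k32 3 (.s k80 k95 2 (.s k154 k223 10 (.s k101 k207 14
  (.s k112 k79 6 (.d k240 k176 k160 7 11))))))) .n))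

def s6_170_110 : T TT 256 :=
  (.q k16 [(.s k80 k95 2 (.s k208 k144 7 (.s k149 k31 10 (.s k213 k21 7 (.d k223 k218 k154 2
  10))))), (.s k48 k32 3 (.s k80 k95 2 (.s k144 k208 7 (.s k96 k192 11 (.s k112 k64 3 (.d k240 k176
  k160 7 11)))))), (.s k48 k32 3 (.s k154 k223 10 (.s k26 k218 7 (.s k15 k37 6 (.s k5 k10 2 (.d k165
  k245 k240 11 14))))))] (.c k208 (.l (.s k48 k32 3 (.s k80 k95 2 (.s k154 k223 10 (.s k101 k207 14
  (.s k112 k79 6 (.d k240 k176 k160 7 11))))))) .n))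

def s6_170_111 : T TT 256 :=
  (.q k16 [(.s k80 k95 2 (.s k208 k144 7 (.s k149 k31 10 (.s k213 k21 7 (.d k223 k218 k154 2
  10))))), (.s k48 k32 3 (.s k154 k223 10 (.s k26 k218 7 (.s k15 k37 6 (.s k5 k10 2 (.d k165 k245
  k240 11 14)))))), (.s k48 k32 3 (.s k80 k95 2 (.s k144 k208 7 (.s k96 k192 11 (.s k112 k64 3 (.d
  k240 k176 k160 7 11))))))] (.c k208 (.l (.s k48 k32 3 (.s k80 k95 2 (.s k154 k223 10 (.s k101 k207
  14 (.s k240 k160 11 (.d k112 k79 k176 6 7))))))) .n))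

def s6_170_112 : T TT 256 :=
  (.q k16 [(.s k80 k95 2 (.s k208 k144 7 (.s k149 k31 10 (.s k213 k21 7 (.d k223 k218 k154 2
  10))))), (.s k48 k32 3 (.s k80 k95 2 (.s k144 k208 7 (.s k160 k240 11 (.s k128 k176 3 (.d k192 k64
  k96 7 11)))))), (.s k48 k32 3 (.s k154 k223 10 (.s k26 k218 7 (.s k15 k37 6 (.s k5 k10 2 (.d k165
  k245 k240 11 14))))))] (.c k208 (.l (.s k48 k32 3 (.s k80 k95 2 (.s k154 k223 10 (.s k218 k26 7
  (.s k240 k160 11 (.d k207 k101 k229 14 6))))))) .n))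

def s6_170_113 : T TT 256 :=
  (.q k16 [(.s k80 k95 2 (.s k208 k144 7 (.s k149 k31 10 (.s k213 k21 7 (.d k223 k218 k154 2
  10))))), (.s k48 k32 3 (.s k80 k95 2 (.s k144 k208 7 (.s k96 k192 11 (.s k112 k64 3 (.d k240 k176
  k160 7 11)))))), (.s k48 k32 3 (.s k154 k223 10 (.s k26 k218 7 (.s k15 k37 6 (.s k5 k10 2 (.d k165
  k245 k240 11 14))))))] (.c k208 (.l (.s k48 k32 3 (.s k80 k95 2 (.s k154 k223 10 (.s k101 k207 14
  (.s k112 k79 6 (.d k240 k176 k160 7 11))))))) .n))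

def s6_170_114 : T TT 256 :=
  (.q k16 [(.s k80 k95 2 (.s k208 k144 7 (.s k149 k31 10 (.s k213 k21 7 (.d k223 k218 k154 2
  10))))), (.s k48 k32 3 (.s k80 k95 2 (.s k144 k208 7 (.s k96 k192 11 (.s k112 k64 3 (.d k240 k176
  k160 7 11)))))), (.s k48 k32 3 (.s k154 k223 10 (.s k26 k218 7 (.s k15 k37 6 (.s k5 k10 2 (.d k165
  k245 k240 11 14))))))] (.c k208 (.l (.s k48 k32 3 (.s k80 k95 2 (.s k154 k223 10 (.s k101 k207 14
  (.s k112 k79 6 (.d k240 k176 k160 7 11))))))) .n))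

def s6_170_115 : T TT 256 :=
  (.q k16 [(.s k80 k95 2 (.s k208 k144 7 (.s k149 k31 10 (.s k213 k21 7 (.d k223 k218 k154 2
  10))))), (.s k48 k32 3 (.s k80 k95 2 (.s k144 k208 7 (.s k96 k192 11 (.s k112 k64 3 (.d k240 k176
  k160 7 11)))))), (.s k48 k32 3 (.s k154 k223 10 (.s k26 k218 7 (.s k15 k37 6 (.s k5 k10 2 (.d k165
  k245 k240 11 14))))))] (.c k208 (.l (.s k48 k32 3 (.s k80 k95 2 (.s k154 k223 10 (.s k101 k207 14
  (.s k112 k79 6 (.d k240 k176 k160 7 11))))))) .n))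

def s6_170_116 : T TT 256 :=
  (.q k16 [(.s k80 k95 2 (.s k208 k144 7 (.s k149 k31 10 (.s k213 k21 7 (.d k223 k218 k154 2
  10))))), (.s k48 k32 3 (.s k80 k95 2 (.s k144 k208 7 (.s k96 k192 11 (.s k112 k64 3 (.d k240 k176
  k160 7 11)))))), (.s k48 k32 3 (.s k154 k223 10 (.s k26 k218 7 (.s k15 k37 6 (.s k5 k10 2 (.d k165
  k245 k240 11 14))))))] (.c k208 (.l (.s k48 k32 3 (.s k80 k95 2 (.s k154 k223 10 (.s k101 k207 14
  (.s k112 k79 6 (.d k240 k176 k160 7 11))))))) .n))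

def s6_170_117 : T TT 256 :=
  (.q k16 [(.s k80 k95 2 (.s k208 k144 7 (.s k149 k31 10 (.s k213 k21 7 (.d k223 k218 k154 2
  10))))), (.s k48 k32 3 (.s k80 k95 2 (.s k144 k208 7 (.s k96 k192 11 (.s k112 k64 3 (.d k240 k176
  k160 7 11)))))), (.s k48 k32 3 (.s k154 k223 10 (.s k26 k218 7 (.s k15 k37 6 (.s k5 k10 2 (.d k165
  k245 k240 11 14))))))] (.c k208 (.l (.s k48 k32 3 (.s k80 k95 2 (.s k154 k223 10 (.s k101 k207 14
  (.s k112 k79 6 (.d k240 k176 k160 7 11))))))) .n))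

def s6_170_118 : T TT 256 :=
  (.q k16 [(.s k80 k95 2 (.s k208 k144 7 (.s k149 k31 10 (.s k213 k21 7 (.d k223 k218 k154 2
  10))))), (.s k48 k32 3 (.s k80 k95 2 (.s k144 k208 7 (.s k96 k192 11 (.s k112 k64 3 (.d k240 k176
  k160 7 11)))))), (.s k48 k32 3 (.s k154 k223 10 (.s k26 k218 7 (.s k15 k37 6 (.s k5 k10 2 (.d k165
  k245 k240 11 14))))))] (.c k208 (.l (.s k48 k32 3 (.s k80 k95 2 (.s k154 k223 10 (.s k101 k207 14
  (.s k112 k79 6 (.d k240 k176 k160 7 11))))))) .n))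

def s6_170_119 : T TT 256 :=
  (.q k16 [(.s k80 k95 2 (.s k208 k144 7 (.s k149 k31 10 (.s k213 k21 7 (.d k223 k218 k154 2
  10))))), (.s k48 k32 3 (.s k80 k95 2 (.s k144 k208 7 (.s k96 k192 11 (.s k112 k64 3 (.d k240 k176
  k160 7 11)))))), (.s k48 k32 3 (.s k154 k223 10 (.s k26 k218 7 (.s k15 k37 6 (.s k5 k10 2 (.d k165
  k245 k240 11 14))))))] (.c k208 (.l (.s k48 k32 3 (.s k80 k95 2 (.s k154 k223 10 (.s k101 k207 14
  (.s k112 k79 6 (.d k240 k176 k160 7 11))))))) .n))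

def s6_170_120 : T TT 256 :=
  (.q k16 [(.s k80 k95 2 (.s k208 k144 7 (.s k149 k31 10 (.s k213 k21 7 (.d k223 k218 k154 2
  10))))), (.s k48 k32 3 (.s k80 k95 2 (.s k144 k208 7 (.s k96 k192 11 (.s k112 k64 3 (.d k240 k176
  k160 7 11)))))), (.s k48 k32 3 (.s k154 k223 10 (.s k26 k218 7 (.s k15 k37 6 (.s k5 k10 2 (.d k165
  k245 k240 11 14))))))] (.c k208 (.l (.s k48 k32 3 (.s k80 k95 2 (.s k154 k223 10 (.s k101 k207 14
  (.s k112 k79 6 (.d k240 k176 k160 7 11))))))) .n))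

def s6_170_121 : T TT 256 :=
  (.q k16 [(.s k80 k95 2 (.s k208 k144 7 (.s k149 k31 10 (.s k213 k21 7 (.d k223 k218 k154 2
  10))))), (.s k48 k32 3 (.s k80 k95 2 (.s k144 k208 7 (.s k96 k192 11 (.s k112 k64 3 (.d k240 k176
  k160 7 11)))))), (.s k48 k32 3 (.s k154 k223 10 (.s k26 k218 7 (.s k15 k37 6 (.s k5 k10 2 (.d k165
  k245 k240 11 14))))))] (.c k208 (.l (.s k48 k32 3 (.s k80 k95 2 (.s k154 k223 10 (.s k101 k207 14
  (.s k112 k79 6 (.d k240 k176 k160 7 11))))))) .n))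

def s6_170_122 : T TT 256 :=
  (.q k16 [(.s k80 k95 2 (.s k208 k144 7 (.s k149 k31 10 (.s k213 k21 7 (.d k223 k218 k154 2
  10))))), (.s k48 k32 3 (.s k80 k95 2 (.s k144 k208 7 (.s k96 k192 11 (.s k112 k64 3 (.d k240 k176
  k160 7 11)))))), (.s k48 k32 3 (.s k154 k223 10 (.s k26 k218 7 (.s k15 k37 6 (.s k5 k10 2 (.d k165
  k245 k240 11 14))))))] (.c k208 (.l (.s k48 k32 3 (.s k80 k95 2 (.s k154 k223 10 (.s k101 k207 14
  (.s k112 k79 6 (.d k240 k176 k160 7 11))))))) .n))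

def s6_170_123 : T TT 256 :=
  (.q k16 [(.s k80 k95 2 (.s k208 k144 7 (.s k149 k31 10 (.s k213 k21 7 (.d k223 k218 k154 2
  10))))), (.s k48 k32 3 (.s k80 k95 2 (.s k144 k208 7 (.s k96 k192 11 (.s k112 k64 3 (.d k240 k176
  k160 7 11)))))), (.s k48 k32 3 (.s k154 k223 10 (.s k26 k218 7 (.s k15 k37 6 (.s k5 k10 2 (.d k165
  k245 k240 11 14))))))] (.c k208 (.l (.s k48 k32 3 (.s k80 k95 2 (.s k154 k223 10 (.s k101 k207 14
  (.s k112 k79 6 (.d k240 k176 k160 7 11))))))) .n))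

def s6_170_124 : T TT 256 :=
  (.q k16 [(.s k80 k95 2 (.s k208 k144 7 (.s k149 k31 10 (.s k213 k21 7 (.d k223 k218 k154 2
  10))))), (.s k48 k32 3 (.s k80 k95 2 (.s k144 k208 7 (.s k96 k192 11 (.s k112 k64 3 (.d k240 k176
  k160 7 11)))))), (.s k48 k32 3 (.s k154 k223 10 (.s k26 k218 7 (.s k15 k37 6 (.s k5 k10 2 (.d k165
  k245 k240 11 14))))))] (.c k208 (.l (.s k48 k32 3 (.s k80 k95 2 (.s k154 k223 10 (.s k101 k207 14
  (.s k112 k79 6 (.d k240 k176 k160 7 11))))))) .n))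

def s6_170_125 : T TT 256 :=
  (.q k16 [(.s k80 k95 2 (.s k208 k144 7 (.s k149 k31 10 (.s k213 k21 7 (.d k223 k218 k154 2
  10))))), (.s k48 k32 3 (.s k80 k95 2 (.s k144 k208 7 (.s k96 k192 11 (.s k112 k64 3 (.d k240 k176
  k160 7 11)))))), (.s k48 k32 3 (.s k154 k223 10 (.s k26 k218 7 (.s k15 k37 6 (.s k5 k10 2 (.d k165
  k245 k240 11 14))))))] (.c k208 (.l (.s k48 k32 3 (.s k80 k95 2 (.s k154 k223 10 (.s k101 k207 14
  (.s k112 k79 6 (.d k240 k176 k160 7 11))))))) .n))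

def s6_170_126 : T TT 256 :=
  (.q k16 [(.s k80 k95 2 (.s k208 k144 7 (.s k149 k31 10 (.s k213 k21 7 (.d k223 k218 k154 2
  10))))), (.s k48 k32 3 (.s k80 k95 2 (.s k144 k208 7 (.s k96 k192 11 (.s k112 k64 3 (.d k240 k176
  k160 7 11)))))), (.s k48 k32 3 (.s k154 k223 10 (.s k26 k218 7 (.s k15 k37 6 (.s k5 k10 2 (.d k165
  k245 k240 11 14))))))] (.c k208 (.l (.s k48 k32 3 (.s k80 k95 2 (.s k154 k223 10 (.s k101 k207 14
  (.s k112 k79 6 (.d k240 k176 k160 7 11))))))) .n))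

def s6_170_127 : T TT 256 :=
  (.q k16 [(.s k80 k95 2 (.s k208 k144 7 (.s k149 k31 10 (.s k213 k21 7 (.d k223 k218 k154 2
  10))))), (.s k48 k32 3 (.s k154 k223 10 (.s k26 k218 7 (.s k15 k37 6 (.s k5 k10 2 (.d k165 k245
  k240 11 14)))))), (.s k48 k32 3 (.s k80 k95 2 (.s k144 k208 7 (.s k96 k192 11 (.s k112 k64 3 (.d
  k240 k176 k160 7 11))))))] (.c k208 (.l (.s k48 k32 3 (.s k80 k95 2 (.s k154 k223 10 (.s k101 k207
  14 (.s k240 k160 11 (.d k112 k79 k176 6 7))))))) .n))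

def s6_170_128 : T TT 256 :=
  (.q k149 [(.s k21 k213 7 (.s k31 k208 10 (.s k16 k26 2 (.s k95 k80 2 (.d k223 k159 k154 7 10))))),
  (.s k21 k213 7 (.s k63 k42 6 (.s k80 k95 2 (.s k106 k192 14 (.s k122 k74 3 (.d k240 k181 k160 10
  11)))))), (.s k21 k213 7 (.s k31 k208 10 (.s k63 k42 6 (.s k15 k47 3 (.s k5 k10 2 (.d k165 k245
  k240 11 14)))))), (.s k80 k95 2 (.s k208 k31 10 (.s k240 k160 11 (.s k165 k15 14 (.s k181 k133 3
  (.s k63 k122 10 (.d k192 k224 k106 3 14)))))))] .n)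

def s6_170_129 : T TT 256 :=
  (.q k16 [(.s k80 k95 2 (.s k208 k144 7 (.s k149 k31 10 (.s k213 k21 7 (.d k223 k218 k154 2
  10))))), (.s k48 k32 3 (.s k80 k95 2 (.s k144 k208 7 (.s k96 k192 11 (.s k112 k64 3 (.d k240 k176
  k160 7 11)))))), (.s k48 k32 3 (.s k154 k223 10 (.s k26 k218 7 (.s k15 k37 6 (.s k5 k10 2 (.d k165
  k245 k240 11 14))))))] (.c k208 (.l (.s k48 k32 3 (.s k80 k95 2 (.s k154 k223 10 (.s k101 k207 14
  (.s k112 k79 6 (.d k240 k176 k160 7 11))))))) .n))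

def s6_170_130 : T TT 256 :=
  (.f k80 k95 2 (.q k150 [(.s k20 k215 8 (.s k30 k210 9 (.s k60 k40 5 (.s k15 k45 4 (.d k240 k160
  k165 11 14))))), (.s k20 k215 8 (.s k240 k160 11 (.s k165 k15 14 (.s k180 k135 4 (.d k60 k40 k120
  5 9))))), (.s k210 k30 9 (.s k240 k160 11 (.s k165 k15 14 (.s k180 k135 4 (.s k60 k120 9 (.d k195
  k225 k105 4 14))))))] (.c k15 (.l (.s k20 k215 8 (.s k60 k40 5 (.s k105 k195 14 (.s k240 k160 11
  (.d k120 k75 k180 4 9)))))) (.c k60 (.l (.s k210 k30 9 (.s k215 k20 8 (.s k240 k160 11 (.s k195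
  k225 4 (.s k255 k235 5 (.s k245 k250 2 (.d k165 k15 k5 14 11)))))))) (.c k160 (.l (.s k20 k215 8
  (.s k30 k210 9 (.s k60 k40 5 (.s k15 k45 4 (.s k5 k10 2 (.d k165 k245 k240 11 14))))))) (.c k165
  (.l (.s k20 k215 8 (.s k60 k40 5 (.s k105 k195 14 (.s k120 k75 4 (.d k240 k180 k160 9 11)))))) (.c
  k240 (.q k3 [(.s k2 k1 0 (.s k20 k215 8 (.s k60 k40 5 (.s k22 k41 6 (.s k21 k23 0 (.d k42 k62 k63
  5 6)))))), (.s k1 k2 0 (.s k169 k253 13 (.s k86 k252 14 (.s k82 k94 1 (.s k83 k81 0 (.s k84 k87 0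
  (.d k92 k88 k89 1 2))))))), (.s k20 k215 8 (.s k60 k40 5 (.s k22 k41 6 (.s k86 k214 7 (.s k84 k87
  0 (.d k252 k168 k169 13 14))))))] (.c k87 (.l (.s k1 k2 0 (.s k20 k215 8 (.s k60 k40 5 (.s k22 k41
  6 (.s k86 k214 7 (.d k169 k253 k252 13 14))))))) .n)) .n)))))))

def s6_170_131 : T TT 256 :=
  (.q k16 [(.s k80 k95 2 (.s k208 k144 7 (.s k149 k31 10 (.s k213 k21 7 (.d k223 k218 k154 2
  10))))), (.s k48 k32 3 (.s k80 k95 2 (.s k144 k208 7 (.s k96 k192 11 (.s k112 k64 3 (.d k240 k176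
  k160 7 11)))))), (.s k48 k32 3 (.s k154 k223 10 (.s k26 k218 7 (.s k15 k37 6 (.s k5 k10 2 (.d k165
  k245 k240 11 14))))))] (.c k208 (.l (.s k48 k32 3 (.s k80 k95 2 (.s k154 k223 10 (.s k101 k207 14
  (.s k112 k79 6 (.d k240 k176 k160 7 11))))))) .n))

def s6_170_132 : T TT 256 :=
  (.q k16 [(.s k80 k95 2 (.s k208 k144 7 (.s k149 k31 10 (.s k213 k21 7 (.d k223 k218 k154 2
  10))))), (.s k48 k32 3 (.s k80 k95 2 (.s k144 k208 7 (.s k96 k192 11 (.s k112 k64 3 (.d k240 k176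
  k160 7 11)))))), (.s k48 k32 3 (.s k154 k223 10 (.s k26 k218 7 (.s k15 k37 6 (.s k5 k10 2 (.d k165
  k245 k240 11 14))))))] (.c k208 (.l (.s k48 k32 3 (.s k80 k95 2 (.s k154 k223 10 (.s k101 k207 14
  (.s k112 k79 6 (.d k240 k176 k160 7 11))))))) .n))

def s6_170_133 : T TT 256 :=
  (.q k16 [(.s k80 k95 2 (.s k208 k144 7 (.s k149 k31 10 (.s k213 k21 7 (.d k223 k218 k154 2
  10))))), (.s k48 k32 3 (.s k80 k95 2 (.s k144 k208 7 (.s k96 k192 11 (.s k112 k64 3 (.d k240 k176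
  k160 7 11)))))), (.s k48 k32 3 (.s k154 k223 10 (.s k26 k218 7 (.s k15 k37 6 (.s k5 k10 2 (.d k165
  k245 k240 11 14))))))] (.c k208 (.l (.s k48 k32 3 (.s k80 k95 2 (.s k154 k223 10 (.s k101 k207 14
  (.s k112 k79 6 (.d k240 k176 k160 7 11))))))) .n))

def s6_170_134 : T TT 256 :=
  (.f k80 k95 2 (.f k160 k240 11 (.q k16 [(.s k144 k208 7 (.s k128 k176 3 (.s k192 k64 7 (.d k48 k32
  k96 3 11)))), (.s k154 k223 10 (.s k26 k218 7 (.s k31 k21 2 (.d k208 k144 k149 7 10)))), (.s k48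
  k32 3 (.s k154 k223 10 (.s k101 k207 14 (.s k112 k79 6 (.s k64 k96 3 (.s k117 k69 3 (.d k127 k122
  k106 2 6)))))))] (.c k70 (.q k198 [(.s k144 k208 7 (.s k128 k176 3 (.s k192 k64 7 (.d k48 k32 k96
  3 11)))), (.s k154 k223 10 (.s k26 k218 7 (.s k31 k21 2 (.d k208 k144 k149 7 10)))), (.s k48 k32 3
  (.s k154 k223 10 (.s k101 k207 14 (.s k112 k79 6 (.s k64 k96 3 (.s k117 k69 3 (.d k127 k122 k106 2
  6)))))))] .n) (.c k198 (.q k70 [(.s k144 k208 7 (.s k128 k176 3 (.s k192 k64 7 (.d k48 k32 k96 3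
  11)))), (.s k154 k223 10 (.s k26 k218 7 (.s k31 k21 2 (.d k208 k144 k149 7 10)))), (.s k48 k32 3
  (.s k154 k223 10 (.s k101 k207 14 (.s k112 k79 6 (.s k64 k96 3 (.s k117 k69 3 (.d k127 k122 k106 2
  6)))))))] .n) .n)))))

def s6_170_135 : T TT 256 :=
  (.q k16 [(.s k80 k95 2 (.s k208 k144 7 (.s k149 k31 10 (.s k213 k21 7 (.d k223 k218 k154 2
  10))))), (.s k48 k32 3 (.s k80 k95 2 (.s k144 k208 7 (.s k96 k192 11 (.s k112 k64 3 (.d k240 k176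
  k160 7 11)))))), (.s k48 k32 3 (.s k154 k223 10 (.s k26 k218 7 (.s k15 k37 6 (.s k5 k10 2 (.d k165
  k245 k240 11 14))))))] (.c k208 (.l (.s k48 k32 3 (.s k80 k95 2 (.s k154 k223 10 (.s k101 k207 14
  (.s k112 k79 6 (.d k240 k176 k160 7 11))))))) .n))

def s6_170_136 : T TT 256 :=
  (.f k80 k95 2 (.q k153 [(.s k17 k221 9 (.s k27 k216 8 (.s k51 k34 4 (.s k15 k39 5 (.d k240 k160
  k165 11 14))))), (.s k17 k221 9 (.s k240 k160 11 (.s k165 k15 14 (.s k177 k141 5 (.d k51 k34 k114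
  4 8))))), (.s k216 k27 8 (.s k240 k160 11 (.s k165 k15 14 (.s k177 k141 5 (.s k51 k114 8 (.d k204
  k228 k102 5 14))))))] (.c k15 (.l (.s k17 k221 9 (.s k51 k34 4 (.s k102 k204 14 (.s k240 k160 11
  (.d k114 k78 k177 5 8)))))) (.c k51 (.l (.s k216 k27 8 (.s k221 k17 9 (.s k240 k160 11 (.s k204
  k228 5 (.s k255 k238 4 (.s k245 k250 2 (.d k165 k15 k5 14 11)))))))) (.c k160 (.l (.s k17 k221 9
  (.s k27 k216 8 (.s k51 k34 4 (.s k15 k39 5 (.s k5 k10 2 (.d k165 k245 k240 11 14))))))) (.c k165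
  (.l (.s k17 k221 9 (.s k51 k34 4 (.s k102 k204 14 (.s k114 k78 5 (.d k240 k177 k160 8 11)))))) (.c
  k240 (.q k1 [(.s k17 k221 9 (.s k49 k33 3 (.s k101 k205 13 (.s k117 k69 3 (.d k253 k185 k169 9
  13))))), (.s k3 k2 0 (.s k17 k221 9 (.s k33 k49 3 (.s k18 k48 4 (.s k19 k16 0 (.d k51 k35 k34 3
  4)))))), (.s k27 k216 8 (.s k169 k253 13 (.s k11 k248 12 (.s k59 k43 3 (.s k137 k185 3 (.d k200
  k74 k106 8 12))))))] (.c k49 (.l (.s k3 k2 0 (.s k17 k221 9 (.s k51 k34 4 (.s k19 k35 3 (.s k86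
  k220 10 (.d k169 k253 k252 13 14))))))) .n)) .n)))))))

def s6_170_137 : T TT 256 :=
  (.q k16 [(.s k80 k95 2 (.s k208 k144 7 (.s k149 k31 10 (.s k213 k21 7 (.d k223 k218 k154 2
  10))))), (.s k48 k32 3 (.s k80 k95 2 (.s k144 k208 7 (.s k96 k192 11 (.s k112 k64 3 (.d k240 k176
  k160 7 11)))))), (.s k48 k32 3 (.s k154 k223 10 (.s k26 k218 7 (.s k15 k37 6 (.s k5 k10 2 (.d k165
  k245 k240 11 14))))))] (.c k208 (.l (.s k48 k32 3 (.s k80 k95 2 (.s k154 k223 10 (.s k101 k207 14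
  (.s k112 k79 6 (.d k240 k176 k160 7 11))))))) .n))

def s6_170_138 : T TT 256 :=
  (.q k154 [(.s k16 k223 10 (.s k26 k218 7 (.s k31 k21 2 (.s k80 k95 2 (.d k208 k144 k149 7 10))))),
  (.s k80 k95 2 (.s k218 k26 7 (.s k240 k160 11 (.s k165 k15 14 (.s k176 k143 6 (.s k48 k112 7 (.d
  k207 k229 k101 6 14))))))), (.s k16 k223 10 (.s k48 k32 3 (.s k80 k95 2 (.s k101 k207 14 (.s k112
  k79 6 (.d k240 k176 k160 7 11)))))), (.s k16 k223 10 (.s k26 k218 7 (.s k48 k32 3 (.s k15 k37 6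
  (.s k5 k10 2 (.d k165 k245 k240 11 14))))))] .n)

def s6_170_139 : T TT 256 :=
  (.q k16 [(.s k80 k95 2 (.s k208 k144 7 (.s k149 k31 10 (.s k213 k21 7 (.d k223 k218 k154 2
  10))))), (.s k48 k32 3 (.s k80 k95 2 (.s k144 k208 7 (.s k96 k192 11 (.s k112 k64 3 (.d k240 k176
  k160 7 11)))))), (.s k48 k32 3 (.s k154 k223 10 (.s k26 k218 7 (.s k15 k37 6 (.s k5 k10 2 (.d k165
  k245 k240 11 14))))))] (.c k208 (.l (.s k48 k32 3 (.s k80 k95 2 (.s k154 k223 10 (.s k101 k207 14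
  (.s k112 k79 6 (.d k240 k176 k160 7 11))))))) .n))

def s6_170_140 : T TT 256 :=
  (.q k16 [(.s k80 k95 2 (.s k208 k144 7 (.s k149 k31 10 (.s k213 k21 7 (.d k223 k218 k154 2
  10))))), (.s k48 k32 3 (.s k80 k95 2 (.s k144 k208 7 (.s k96 k192 11 (.s k112 k64 3 (.d k240 k176
  k160 7 11)))))), (.s k48 k32 3 (.s k154 k223 10 (.s k26 k218 7 (.s k15 k37 6 (.s k5 k10 2 (.d k165
  k245 k240 11 14))))))] (.c k208 (.l (.s k48 k32 3 (.s k80 k95 2 (.s k154 k223 10 (.s k101 k207 14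
  (.s k112 k79 6 (.d k240 k176 k160 7 11))))))) .n))

def s6_170_141 : T TT 256 :=
  (.q k16 [(.s k80 k95 2 (.s k208 k144 7 (.s k149 k31 10 (.s k213 k21 7 (.d k223 k218 k154 2
  10))))), (.s k48 k32 3 (.s k80 k95 2 (.s k144 k208 7 (.s k96 k192 11 (.s k112 k64 3 (.d k240 k176
  k160 7 11)))))), (.s k48 k32 3 (.s k154 k223 10 (.s k26 k218 7 (.s k15 k37 6 (.s k5 k10 2 (.d k165
  k245 k240 11 14))))))] (.c k208 (.l (.s k48 k32 3 (.s k80 k95 2 (.s k154 k223 10 (.s k101 k207 14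
  (.s k112 k79 6 (.d k240 k176 k160 7 11))))))) .n))

def s6_170_142 : T TT 256 :=
  (.q k16 [(.s k80 k95 2 (.s k208 k144 7 (.s k149 k31 10 (.s k213 k21 7 (.d k223 k218 k154 2
  10))))), (.s k48 k32 3 (.s k80 k95 2 (.s k144 k208 7 (.s k96 k192 11 (.s k112 k64 3 (.d k240 k176
  k160 7 11)))))), (.s k48 k32 3 (.s k154 k223 10 (.s k26 k218 7 (.s k15 k37 6 (.s k5 k10 2 (.d k165
  k245 k240 11 14))))))] (.c k208 (.l (.s k48 k32 3 (.s k80 k95 2 (.s k154 k223 10 (.s k101 k207 14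
  (.s k112 k79 6 (.d k240 k176 k160 7 11))))))) .n))

def s6_170_143 : T TT 256 :=
  (.q k16 [(.s k80 k95 2 (.s k208 k144 7 (.s k149 k31 10 (.s k213 k21 7 (.d k223 k218 k154 2
  10))))), (.s k48 k32 3 (.s k80 k95 2 (.s k144 k208 7 (.s k96 k192 11 (.s k112 k64 3 (.d k240 k176
  k160 7 11)))))), (.s k48 k32 3 (.s k154 k223 10 (.s k26 k218 7 (.s k15 k37 6 (.s k5 k10 2 (.d k165
  k245 k240 11 14))))))] (.c k208 (.l (.s k48 k32 3 (.s k80 k95 2 (.s k154 k223 10 (.s k101 k207 14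
  (.s k240 k160 11 (.d k112 k79 k176 6 7))))))) .n))

def s6_170_144 : T TT 256 :=
  (.q k64 [(.s k80 k95 2 (.s k106 k127 6 (.s k74 k122 3 (.s k79 k69 2 (.d k112 k96 k101 3 6))))),
  (.s k106 k127 6 (.s k74 k122 3 (.s k192 k128 7 (.s k15 k133 10 (.s k5 k10 2 (.d k165 k245 k240 11
  14)))))), (.s k80 k95 2 (.s k112 k96 3 (.s k101 k79 6 (.s k69 k117 3 (.s k207 k138 10 (.s k240
  k160 11 (.d k48 k176 k154 7 14))))))), (.s k80 k95 2 (.s k106 k127 6 (.s k122 k74 3 (.s k240 k160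
  11 (.s k63 k181 10 (.d k192 k128 k149 7 14))))))] (.c k127 (.l (.s k80 k95 2 (.s k112 k96 3 (.s
  k79 k101 6 (.s k69 k74 2 (.s k207 k138 10 (.s k15 k143 7 (.d k240 k160 k165 11 14)))))))) .n))

def s6_170_145 : T TT 256 :=
  (.q k16 [(.s k80 k95 2 (.s k154 k223 10 (.s k26 k218 7 (.s k31 k21 2 (.d k208 k144 k149 7 10))))),
  (.s k48 k32 3 (.s k80 k95 2 (.s k144 k208 7 (.s k96 k192 11 (.s k112 k64 3 (.d k240 k176 k160 7
  11)))))), (.s k48 k32 3 (.s k154 k223 10 (.s k26 k218 7 (.s k15 k37 6 (.s k5 k10 2 (.d k165 k245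
  k240 11 14))))))] (.c k208 (.l (.s k48 k32 3 (.s k80 k95 2 (.s k154 k223 10 (.s k101 k207 14 (.s
  k112 k79 6 (.d k240 k176 k160 7 11))))))) .n))

def s6_170_146 : T TT 256 :=
  (.q k16 [(.s k80 k95 2 (.s k154 k223 10 (.s k26 k218 7 (.s k31 k21 2 (.d k208 k144 k149 7 10))))),
  (.s k48 k32 3 (.s k80 k95 2 (.s k144 k208 7 (.s k96 k192 11 (.s k112 k64 3 (.d k240 k176 k160 7
  11)))))), (.s k48 k32 3 (.s k154 k223 10 (.s k26 k218 7 (.s k15 k37 6 (.s k5 k10 2 (.d k165 k245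
  k240 11 14))))))] (.c k208 (.l (.s k48 k32 3 (.s k80 k95 2 (.s k154 k223 10 (.s k101 k207 14 (.s
  k112 k79 6 (.d k240 k176 k160 7 11))))))) .n))

def s6_170_147 : T TT 256 :=
  (.q k16 [(.s k80 k95 2 (.s k154 k223 10 (.s k26 k218 7 (.s k31 k21 2 (.d k208 k144 k149 7 10))))),
  (.s k48 k32 3 (.s k80 k95 2 (.s k144 k208 7 (.s k96 k192 11 (.s k112 k64 3 (.d k240 k176 k160 7
  11)))))), (.s k48 k32 3 (.s k154 k223 10 (.s k26 k218 7 (.s k15 k37 6 (.s k5 k10 2 (.d k165 k245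
  k240 11 14))))))] (.c k208 (.l (.s k48 k32 3 (.s k80 k95 2 (.s k154 k223 10 (.s k101 k207 14 (.s
  k112 k79 6 (.d k240 k176 k160 7 11))))))) .n))

def s6_170_148 : T TT 256 :=
  (.q k16 [(.s k80 k95 2 (.s k154 k223 10 (.s k26 k218 7 (.s k31 k21 2 (.d k208 k144 k149 7 10))))),
  (.s k48 k32 3 (.s k80 k95 2 (.s k144 k208 7 (.s k96 k192 11 (.s k112 k64 3 (.d k240 k176 k160 7
  11)))))), (.s k48 k32 3 (.s k154 k223 10 (.s k26 k218 7 (.s k15 k37 6 (.s k5 k10 2 (.d k165 k245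
  k240 11 14))))))] (.c k208 (.l (.s k48 k32 3 (.s k80 k95 2 (.s k154 k223 10 (.s k101 k207 14 (.s
  k112 k79 6 (.d k240 k176 k160 7 11))))))) .n))

def s6_170_149 : T TT 256 :=
  (.f k80 k95 2 (.q k64 [(.s k112 k96 3 (.s k101 k79 6 (.s k117 k69 3 (.d k127 k122 k106 2 6)))),
  (.s k96 k112 3 (.s k160 k240 11 (.s k32 k224 7 (.s k48 k16 3 (.d k192 k128 k144 7 11))))), (.s
  k106 k127 6 (.s k240 k160 11 (.s k165 k15 14 (.s k224 k47 10 (.d k192 k128 k208 7 3)))))] (.c k128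
  (.q k191 [(.s k112 k96 3 (.s k101 k79 6 (.s k117 k69 3 (.d k127 k122 k106 2 6)))), (.s k127 k106 6
  (.s k240 k160 11 (.s k165 k15 14 (.s k245 k5 11 (.d k255 k63 k250 7 2)))))] (.c k106 (.l (.s k112
  k96 3 (.s k101 k79 6 (.s k69 k117 3 (.s k207 k138 10 (.s k240 k160 11 (.d k48 k176 k154 7
  14))))))) (.c k127 (.l (.s k112 k96 3 (.s k79 k101 6 (.s k69 k74 2 (.s k207 k138 10 (.s k240 k160
  11 (.d k15 k143 k165 7 14))))))) .n))) (.c k191 (.l (.s k128 k192 7 (.s k106 k127 6 (.s k74 k122 3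
  (.s k79 k69 2 (.d k112 k96 k101 3 6)))))) .n))))

def s6_170_150 : T TT 256 :=
  (.f k80 k95 2 (.f k160 k240 11 (.q k16 [(.s k144 k208 7 (.s k128 k176 3 (.s k192 k64 7 (.d k48 k32
  k96 3 11)))), (.s k154 k223 10 (.s k26 k218 7 (.s k31 k21 2 (.d k208 k144 k149 7 10)))), (.s k48
  k32 3 (.s k154 k223 10 (.s k101 k207 14 (.s k112 k79 6 (.s k64 k96 3 (.s k117 k69 3 (.d k127 k122
  k106 2 6)))))))] (.c k130 (.q k190 [(.s k144 k208 7 (.s k128 k176 3 (.s k192 k64 7 (.d k48 k32 k96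
  3 11)))), (.s k154 k223 10 (.s k26 k218 7 (.s k31 k21 2 (.d k208 k144 k149 7 10)))), (.s k48 k32 3
  (.s k154 k223 10 (.s k101 k207 14 (.s k112 k79 6 (.s k64 k96 3 (.s k117 k69 3 (.d k127 k122 k106 2
  6)))))))] .n) (.c k190 (.q k130 [(.s k144 k208 7 (.s k128 k176 3 (.s k192 k64 7 (.d k48 k32 k96 3
  11)))), (.s k154 k223 10 (.s k26 k218 7 (.s k31 k21 2 (.d k208 k144 k149 7 10)))), (.s k48 k32 3
  (.s k195 k65 8 (.s k146 k97 12 (.s k81 k211 8 (.d k162 k178 k243 3 12)))))] .n) .n)))))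

def s6_170_151 : T TT 256 :=
  (.q k16 [(.s k80 k95 2 (.s k154 k223 10 (.s k26 k218 7 (.s k31 k21 2 (.d k208 k144 k149 7 10))))),
  (.s k48 k32 3 (.s k80 k95 2 (.s k144 k208 7 (.s k96 k192 11 (.s k112 k64 3 (.d k240 k176 k160 7
  11)))))), (.s k48 k32 3 (.s k154 k223 10 (.s k26 k218 7 (.s k15 k37 6 (.s k5 k10 2 (.d k165 k245
  k240 11 14))))))] (.c k208 (.l (.s k48 k32 3 (.s k80 k95 2 (.s k154 k223 10 (.s k101 k207 14 (.s
  k112 k79 6 (.d k240 k176 k160 7 11))))))) .n))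

def s6_170_152 : T TT 256 :=
  (.q k16 [(.s k80 k95 2 (.s k154 k223 10 (.s k26 k218 7 (.s k31 k21 2 (.d k208 k144 k149 7 10))))),
  (.s k48 k32 3 (.s k80 k95 2 (.s k144 k208 7 (.s k96 k192 11 (.s k112 k64 3 (.d k240 k176 k160 7
  11)))))), (.s k48 k32 3 (.s k154 k223 10 (.s k26 k218 7 (.s k15 k37 6 (.s k5 k10 2 (.d k165 k245
  k240 11 14))))))] (.c k208 (.l (.s k48 k32 3 (.s k80 k95 2 (.s k154 k223 10 (.s k101 k207 14 (.s
  k112 k79 6 (.d k240 k176 k160 7 11))))))) .n))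

def s6_170_153 : T TT 256 :=
  (.f k80 k95 2 (.f k160 k240 11 (.q k16 [(.s k144 k208 7 (.s k128 k176 3 (.s k192 k64 7 (.d k48 k32
  k96 3 11)))), (.s k154 k223 10 (.s k26 k218 7 (.s k31 k21 2 (.d k208 k144 k149 7 10)))), (.s k48
  k32 3 (.s k154 k223 10 (.s k101 k207 14 (.s k112 k79 6 (.s k64 k96 3 (.s k117 k69 3 (.d k127 k122
  k106 2 6)))))))] (.c k136 (.q k187 [(.s k144 k208 7 (.s k128 k176 3 (.s k192 k64 7 (.d k48 k32 k96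
  3 11)))), (.s k154 k223 10 (.s k26 k218 7 (.s k31 k21 2 (.d k208 k144 k149 7 10)))), (.s k48 k32 3
  (.s k154 k223 10 (.s k101 k207 14 (.s k112 k79 6 (.s k64 k96 3 (.s k117 k69 3 (.d k127 k122 k106 2
  6)))))))] .n) (.c k187 (.q k136 [(.s k144 k208 7 (.s k128 k176 3 (.s k192 k64 7 (.d k48 k32 k96 3
  11)))), (.s k154 k223 10 (.s k26 k218 7 (.s k31 k21 2 (.d k208 k144 k149 7 10)))), (.s k48 k32 3
  (.s k204 k68 9 (.s k152 k100 13 (.s k84 k220 9 (.d k168 k184 k252 3 13)))))] .n) .n)))))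

def s6_170_154 : T TT 256 :=
  (.f k80 k95 2 (.q k101 [(.s k112 k79 6 (.s k64 k96 3 (.s k117 k69 3 (.d k127 k122 k106 2 6)))),
  (.s k69 k117 3 (.s k240 k160 11 (.s k165 k15 14 (.s k229 k37 7 (.d k207 k138 k218 10 6))))), (.s
  k112 k79 6 (.s k240 k160 11 (.s k48 k176 7 (.s k16 k32 3 (.s k144 k208 7 (.d k96 k64 k192 3
  11))))))] (.c k138 (.q k186 [(.s k112 k79 6 (.s k64 k96 3 (.s k117 k69 3 (.d k127 k122 k106 2
  6)))), (.s k117 k69 3 (.s k240 k160 11 (.s k165 k15 14 (.s k245 k5 11 (.d k255 k250 k48 2 10)))))]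
  (.c k69 (.l (.s k112 k79 6 (.s k64 k96 3 (.s k127 k106 6 (.s k117 k122 2 (.s k48 k255 10 (.d k240
  k176 k160 7 11))))))) (.c k117 (.l (.s k112 k79 6 (.s k96 k64 3 (.s k240 k160 11 (.s k48 k176 7
  (.s k16 k32 3 (.d k144 k208 k192 7 11))))))) .n))) (.c k186 (.q k138 [(.d k69 k117 k207 3 10), (.s
  k112 k79 6 (.s k240 k160 11 (.s k48 k176 7 (.s k16 k32 3 (.s k144 k208 7 (.d k96 k64 k192 3
  11))))))] .n) .n))))

def s6_170_155 : T TT 256 :=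
  (.q k16 [(.s k80 k95 2 (.s k208 k144 7 (.s k149 k31 10 (.s k213 k21 7 (.d k223 k218 k154 2
  10))))), (.s k48 k32 3 (.s k80 k95 2 (.s k144 k208 7 (.s k96 k192 11 (.s k112 k64 3 (.d k240 k176
  k160 7 11)))))), (.s k48 k32 3 (.s k154 k223 10 (.s k26 k218 7 (.s k15 k37 6 (.s k5 k10 2 (.d k165
  k245 k240 11 14))))))] (.c k208 (.l (.s k48 k32 3 (.s k80 k95 2 (.s k154 k223 10 (.s k101 k207 14
  (.s k112 k79 6 (.d k240 k176 k160 7 11))))))) .n))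

def s6_170_156 : T TT 256 :=
  (.q k16 [(.s k80 k95 2 (.s k154 k223 10 (.s k26 k218 7 (.s k31 k21 2 (.d k208 k144 k149 7 10))))),
  (.s k48 k32 3 (.s k80 k95 2 (.s k144 k208 7 (.s k96 k192 11 (.s k112 k64 3 (.d k240 k176 k160 7
  11)))))), (.s k48 k32 3 (.s k154 k223 10 (.s k26 k218 7 (.s k15 k37 6 (.s k5 k10 2 (.d k165 k245
  k240 11 14))))))] (.c k208 (.l (.s k48 k32 3 (.s k80 k95 2 (.s k154 k223 10 (.s k101 k207 14 (.s
  k112 k79 6 (.d k240 k176 k160 7 11))))))) .n))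

def s6_170_157 : T TT 256 :=
  (.q k16 [(.s k80 k95 2 (.s k154 k223 10 (.s k26 k218 7 (.s k31 k21 2 (.d k208 k144 k149 7 10))))),
  (.s k48 k32 3 (.s k80 k95 2 (.s k144 k208 7 (.s k96 k192 11 (.s k112 k64 3 (.d k240 k176 k160 7
  11)))))), (.s k48 k32 3 (.s k154 k223 10 (.s k26 k218 7 (.s k15 k37 6 (.s k5 k10 2 (.d k165 k245
  k240 11 14))))))] (.c k208 (.l (.s k48 k32 3 (.s k80 k95 2 (.s k154 k223 10 (.s k101 k207 14 (.s
  k112 k79 6 (.d k240 k176 k160 7 11))))))) .n))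

def s6_170_158 : T TT 256 :=
  (.q k16 [(.s k80 k95 2 (.s k208 k144 7 (.s k149 k31 10 (.s k213 k21 7 (.d k223 k218 k154 2
  10))))), (.s k48 k32 3 (.s k80 k95 2 (.s k144 k208 7 (.s k96 k192 11 (.s k112 k64 3 (.d k240 k176
  k160 7 11)))))), (.s k48 k32 3 (.s k154 k223 10 (.s k26 k218 7 (.s k15 k37 6 (.s k5 k10 2 (.d k165
  k245 k240 11 14))))))] (.c k208 (.l (.s k48 k32 3 (.s k80 k95 2 (.s k154 k223 10 (.s k101 k207 14
  (.s k112 k79 6 (.d k240 k176 k160 7 11))))))) .n))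

def s6_170_159 : T TT 256 :=
  (.q k64 [(.s k80 k95 2 (.s k112 k96 3 (.s k101 k79 6 (.s k117 k69 3 (.d k127 k122 k106 2 6))))),
  (.s k106 k127 6 (.s k74 k122 3 (.s k192 k128 7 (.s k15 k133 10 (.s k5 k10 2 (.d k165 k245 k240 11
  14)))))), (.s k80 k95 2 (.s k96 k112 3 (.s k160 k240 11 (.s k32 k224 7 (.s k48 k16 3 (.d k192 k128
  k144 7 11))))))] (.c k112 (.l (.s k80 k95 2 (.s k106 k127 6 (.s k122 k74 3 (.s k192 k128 7 (.s
  k240 k160 11 (.d k63 k149 k181 14 10))))))) .n))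

def s6_170_160 : T TT 256 :=
  (.f k80 k95 2 (.q k16 [(.s k154 k223 10 (.s k26 k218 7 (.s k31 k21 2 (.d k208 k144 k149 7 10)))),
  (.s k48 k32 3 (.s k144 k208 7 (.s k96 k192 11 (.s k112 k64 3 (.s k101 k79 6 (.s k69 k117 3 (.d
  k207 k138 k154 10 14))))))), (.s k48 k32 3 (.s k154 k223 10 (.s k101 k207 14 (.s k112 k79 6 (.s
  k117 k69 3 (.s k127 k122 2 (.d k64 k96 k106 3 6)))))))] (.c k154 (.f k48 k32 3 (.f k144 k208 7 (.f
  k96 k192 11 (.l (.s k112 k64 3 (.s k101 k79 6 (.s k69 k117 3 (.s k240 k176 7 (.s k165 k15 14 (.s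
  k229 k37 7 (.d k207 k218 k138 6 10))))))))))) (.c k165 (.q k175 [(.s k154 k223 10 (.s k26 k218 7
  (.s k31 k21 2 (.d k208 k144 k149 7 10)))), (.s k48 k32 3 (.s k144 k208 7 (.s k96 k192 11 (.s k112
  k64 3 (.s k101 k79 6 (.s k69 k117 3 (.d k207 k138 k154 10 14))))))), (.s k48 k32 3 (.s k154 k223
  10 (.s k101 k207 14 (.s k112 k79 6 (.s k117 k69 3 (.s k127 k122 2 (.d k64 k96 k106 3 6)))))))] (.c
  k154 (.f k208 k144 7 (.f k149 k31 10 (.l (.s k21 k213 7 (.s k63 k42 6 (.s k106 k192 14 (.s k64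
  k127 6 (.s k74 k122 3 (.s k79 k69 2 (.d k112 k96 k101 3 6)))))))))) .n)) (.c k175 (.q k165 [(.s k5
  k245 11 (.d k15 k10 k240 2 14)), (.s k154 k223 10 (.s k26 k218 7 (.s k31 k21 2 (.d k208 k144 k149
  7 10))))] (.c k15 (.q k255 [(.s k154 k223 10 (.s k26 k218 7 (.s k31 k21 2 (.d k208 k144 k149 7
  10)))), (.s k48 k32 3 (.s k117 k186 10 (.s k101 k69 3 (.s k112 k79 6 (.s k127 k122 2 (.d k64 k96
  k106 3 6))))))] (.c k154 (.l (.s k48 k32 3 (.s k144 k208 7 (.s k96 k192 11 (.s k112 k64 3 (.s k101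
  k79 6 (.d k117 k69 k186 3 10))))))) .n)) (.c k255 (.l (.s k15 k240 14 (.d k5 k245 k10 11 2)))
  .n))) .n)))))

def s6_170_161 : T TT 256 :=
  (.q k16 [(.s k80 k95 2 (.s k208 k144 7 (.s k149 k31 10 (.s k213 k21 7 (.d k223 k218 k154 2
  10))))), (.s k48 k32 3 (.s k80 k95 2 (.s k144 k208 7 (.s k96 k192 11 (.s k112 k64 3 (.d k240 k176
  k160 7 11)))))), (.s k48 k32 3 (.s k154 k223 10 (.s k26 k218 7 (.s k15 k37 6 (.s k5 k10 2 (.d k165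
  k245 k240 11 14))))))] (.c k208 (.l (.s k48 k32 3 (.s k80 k95 2 (.s k154 k223 10 (.s k101 k207 14
  (.s k112 k79 6 (.d k240 k176 k160 7 11))))))) .n))

def s6_170_162 : T TT 256 :=
  (.f k80 k95 2 (.q k166 [(.s k4 k247 12 (.s k12 k8 1 (.s k14 k242 13 (.s k15 k13 0 (.d k240 k160
  k165 11 14))))), (.s k240 k160 11 (.s k165 k15 14 (.s k167 k164 0 (.s k245 k5 11 (.s k247 k4 12
  (.s k7 k87 11 (.d k244 k246 k86 0 12))))))), (.s k4 k247 12 (.s k12 k8 1 (.s k89 k243 14 (.s k81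
  k93 1 (.s k83 k82 0 (.s k88 k91 0 (.d k92 k84 k86 1 2))))))), (.s k240 k160 11 (.s k165 k15 14 (.s
  k164 k167 0 (.s k12 k88 13 (.s k242 k14 13 (.d k243 k241 k89 0 14))))))] (.c k15 (.l (.s k4 k247
  12 (.s k12 k8 1 (.s k89 k243 14 (.s k240 k160 11 (.d k88 k91 k164 0 13)))))) .n)))

def s6_170_163 : T TT 256 :=
  (.q k16 [(.s k80 k95 2 (.s k208 k144 7 (.s k149 k31 10 (.s k213 k21 7 (.d k223 k218 k154 2
  10))))), (.s k48 k32 3 (.s k80 k95 2 (.s k144 k208 7 (.s k96 k192 11 (.s k112 k64 3 (.d k240 k176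
  k160 7 11)))))), (.s k48 k32 3 (.s k154 k223 10 (.s k26 k218 7 (.s k15 k37 6 (.s k5 k10 2 (.d k165
  k245 k240 11 14))))))] (.c k208 (.l (.s k48 k32 3 (.s k80 k95 2 (.s k154 k223 10 (.s k101 k207 14
  (.s k112 k79 6 (.d k240 k176 k160 7 11))))))) .n))

def s6_170_164 : T TT 256 :=
  (.q k16 [(.s k80 k95 2 (.s k208 k144 7 (.s k149 k31 10 (.s k213 k21 7 (.d k223 k218 k154 2
  10))))), (.s k48 k32 3 (.s k80 k95 2 (.s k144 k208 7 (.s k96 k192 11 (.s k112 k64 3 (.d k240 k176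
  k160 7 11)))))), (.s k48 k32 3 (.s k154 k223 10 (.s k26 k218 7 (.s k15 k37 6 (.s k5 k10 2 (.d k165
  k245 k240 11 14))))))] (.c k208 (.l (.s k48 k32 3 (.s k80 k95 2 (.s k154 k223 10 (.s k101 k207 14
  (.s k112 k79 6 (.d k240 k176 k160 7 11))))))) .n))

def s6_170_165 : T TT 256 :=
  (.f k80 k95 2 (.q k16 [(.s k208 k144 7 (.s k149 k31 10 (.s k213 k21 7 (.d k223 k218 k154 2 10)))),
  (.s k48 k32 3 (.s k144 k208 7 (.s k96 k192 11 (.s k112 k64 3 (.d k240 k160 k176 11 7))))), (.s k48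
  k32 3 (.s k154 k223 10 (.s k101 k207 14 (.s k112 k79 6 (.d k240 k160 k176 11 7)))))] (.c k160 (.q
  k175 [(.s k154 k223 10 (.s k26 k218 7 (.s k31 k21 2 (.d k208 k144 k149 7 10)))), (.s k48 k32 3 (.s
  k144 k208 7 (.s k96 k192 11 (.s k112 k64 3 (.s k101 k79 6 (.s k69 k117 3 (.d k207 k138 k154 10
  14))))))), (.s k48 k32 3 (.s k154 k223 10 (.s k101 k207 14 (.s k112 k79 6 (.s k117 k69 3 (.s k127
  k122 2 (.d k64 k96 k106 3 6)))))))] (.c k154 (.f k208 k144 7 (.f k149 k31 10 (.l (.s k21 k213 7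
  (.s k63 k42 6 (.s k106 k192 14 (.s k64 k127 6 (.s k74 k122 3 (.s k79 k69 2 (.d k112 k96 k101 3
  6)))))))))) .n)) (.c k175 (.l (.s k160 k240 11 (.s k48 k32 3 (.s k144 k208 7 (.s k128 k176 3 (.d
  k192 k64 k96 7 11)))))) .n))))

def s6_170_166 : T TT 256 :=
  (.f k80 k95 2 (.q k86 [(.s k82 k94 1 (.s k83 k81 0 (.s k84 k87 0 (.d k92 k88 k89 1 2)))), (.s k84
  k87 0 (.s k240 k160 11 (.s k165 k15 14 (.s k244 k7 12 (.d k252 k248 k168 1 13))))), (.s k82 k94 1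
  (.s k240 k160 11 (.s k3 k161 12 (.s k1 k2 0 (.d k169 k253 k252 13 14)))))] (.c k162 (.q k174 [(.s
  k82 k94 1 (.s k83 k81 0 (.s k84 k87 0 (.d k92 k88 k89 1 2)))), (.s k240 k160 11 (.s k165 k15 14
  (.s k244 k7 12 (.s k252 k248 1 (.d k84 k87 k168 0 13))))), (.s k82 k94 1 (.s k240 k160 11 (.s k165
  k15 14 (.s k244 k7 12 (.s k252 k248 1 (.d k3 k161 k169 12 14))))))] .n) (.c k174 (.q k162 [(.s k81
  k243 12 (.d k82 k83 k94 0 1)), (.s k82 k94 1 (.s k2 k242 11 (.s k3 k1 0 (.d k240 k160 k161 11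
  12))))] (.c k82 (.l (.s k81 k243 12 (.s k84 k87 0 (.s k88 k92 1 (.d k89 k91 k93 0 1))))) (.c k94
  (.l (.s k81 k243 12 (.s k83 k82 0 (.d k89 k93 k92 1 2)))) .n))) .n))))

def s6_170_167 : T TT 256 :=
  (.q k16 [(.s k80 k95 2 (.s k208 k144 7 (.s k149 k31 10 (.s k213 k21 7 (.d k223 k218 k154 2
  10))))), (.s k48 k32 3 (.s k80 k95 2 (.s k144 k208 7 (.s k96 k192 11 (.s k112 k64 3 (.d k240 k176
  k160 7 11)))))), (.s k48 k32 3 (.s k154 k223 10 (.s k26 k218 7 (.s k15 k37 6 (.s k5 k10 2 (.d k165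
  k245 k240 11 14))))))] (.c k208 (.l (.s k48 k32 3 (.s k80 k95 2 (.s k154 k223 10 (.s k101 k207 14
  (.s k112 k79 6 (.d k240 k176 k160 7 11))))))) .n))

def s6_170_168 : T TT 256 :=
  (.f k80 k95 2 (.q k169 [(.s k240 k160 11 (.s k165 k15 14 (.s k161 k173 1 (.s k3 k82 12 (.s k248
  k11 12 (.d k252 k244 k86 1 14)))))), (.s k1 k253 13 (.s k3 k2 0 (.s k11 k248 12 (.s k15 k7 1 (.d
  k240 k160 k165 11 14))))), (.s k1 k253 13 (.s k3 k2 0 (.s k86 k252 14 (.s k82 k94 1 (.s k83 k81 0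
  (.s k84 k87 0 (.d k92 k88 k89 1 2))))))), (.s k1 k253 13 (.s k240 k160 11 (.s k165 k15 14 (.s k5
  k245 11 (.s k161 k173 1 (.s k241 k81 11 (.d k13 k9 k89 1 13)))))))] (.c k15 (.l (.s k1 k253 13 (.s
  k3 k2 0 (.s k86 k252 14 (.s k240 k160 11 (.d k82 k94 k161 1 12)))))) .n)))

def s6_170_169 : T TT 256 :=
  (.f k80 k95 2 (.q k84 [(.s k86 k87 0 (.s k82 k94 1 (.s k83 k81 0 (.d k92 k88 k89 1 2)))), (.s k86
  k87 0 (.s k240 k160 11 (.s k165 k15 14 (.s k244 k7 12 (.d k252 k168 k248 13 1))))), (.s k88 k92 1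
  (.s k240 k160 11 (.s k12 k164 13 (.s k8 k4 1 (.d k168 k248 k252 11 13)))))] (.c k168 (.q k171 [(.s
  k86 k87 0 (.s k82 k94 1 (.s k83 k81 0 (.d k92 k88 k89 1 2)))), (.s k87 k86 0 (.s k240 k160 11 (.s
  k165 k15 14 (.s k245 k5 11 (.d k255 k3 k250 13 2))))), (.s k88 k92 1 (.s k240 k160 11 (.s k164 k12
  13 (.s k4 k244 11 (.s k165 k15 14 (.d k166 k167 k247 0 12))))))] .n) (.c k171 (.l (.s k168 k252 13
  (.s k86 k87 0 (.s k82 k94 1 (.s k83 k81 0 (.d k92 k88 k89 1 2)))))) .n))))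

def s6_170_171 : T TT 256 :=
  (.f k80 k95 2 (.q k169 [(.s k1 k253 13 (.s k3 k2 0 (.s k11 k248 12 (.s k240 k160 11 (.d k15 k165
  k7 14 1))))), (.s k1 k253 13 (.s k240 k160 11 (.s k165 k15 14 (.s k5 k245 11 (.s k161 k173 1 (.s
  k241 k81 11 (.d k13 k9 k89 1 13))))))), (.s k1 k253 13 (.s k3 k2 0 (.s k86 k252 14 (.s k82 k94 1
  (.s k83 k81 0 (.s k84 k87 0 (.d k92 k88 k89 1 2))))))), (.s k240 k160 11 (.s k248 k11 12 (.s k252
  k244 1 (.s k84 k168 13 (.d k86 k87 k3 0 14)))))] .n))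

def s6_170_172 : T TT 256 :=
  (.q k16 [(.s k80 k95 2 (.s k208 k144 7 (.s k149 k31 10 (.s k213 k21 7 (.d k223 k218 k154 2
  10))))), (.s k48 k32 3 (.s k80 k95 2 (.s k144 k208 7 (.s k96 k192 11 (.s k112 k64 3 (.d k240 k176
  k160 7 11)))))), (.s k48 k32 3 (.s k154 k223 10 (.s k26 k218 7 (.s k15 k37 6 (.s k5 k10 2 (.d k165
  k245 k240 11 14))))))] (.c k208 (.l (.s k48 k32 3 (.s k80 k95 2 (.s k154 k223 10 (.s k101 k207 14
  (.s k112 k79 6 (.d k240 k176 k160 7 11))))))) .n))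

def s6_170_173 : T TT 256 :=
  (.q k16 [(.s k80 k95 2 (.s k208 k144 7 (.s k149 k31 10 (.s k213 k21 7 (.d k223 k218 k154 2
  10))))), (.s k48 k32 3 (.s k80 k95 2 (.s k144 k208 7 (.s k96 k192 11 (.s k112 k64 3 (.d k240 k176
  k160 7 11)))))), (.s k48 k32 3 (.s k154 k223 10 (.s k26 k218 7 (.s k15 k37 6 (.s k5 k10 2 (.d k165
  k245 k240 11 14))))))] (.c k208 (.l (.s k48 k32 3 (.s k80 k95 2 (.s k154 k223 10 (.s k101 k207 14
  (.s k112 k79 6 (.d k240 k176 k160 7 11))))))) .n))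

def s6_170_174 : T TT 256 :=
  (.f k80 k95 2 (.q k166 [(.s k4 k247 12 (.s k12 k8 1 (.s k14 k242 13 (.s k15 k13 0 (.d k240 k160
  k165 11 14))))), (.s k240 k160 11 (.s k165 k15 14 (.s k167 k164 0 (.s k245 k5 11 (.s k247 k4 12
  (.s k7 k87 11 (.d k244 k246 k86 0 12))))))), (.s k240 k160 11 (.s k242 k14 13 (.s k243 k241 0 (.s
  k81 k162 12 (.d k89 k93 k12 1 14))))), (.s k4 k247 12 (.s k12 k8 1 (.s k89 k243 14 (.s k81 k93 1
  (.s k83 k82 0 (.s k88 k91 0 (.d k92 k84 k86 1 2)))))))] .n))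

def s6_170_175 : T TT 256 :=
  (.f k80 k95 2 (.f k160 k240 11 (.q k16 [(.s k144 k208 7 (.s k128 k176 3 (.s k192 k64 7 (.d k48 k32
  k96 3 11)))), (.s k154 k223 10 (.s k26 k218 7 (.s k31 k21 2 (.d k208 k144 k149 7 10)))), (.s k48
  k32 3 (.s k154 k223 10 (.s k101 k207 14 (.s k112 k79 6 (.s k64 k96 3 (.s k117 k69 3 (.d k127 k122
  k106 2 6)))))))] (.c k15 (.q k255 [(.s k48 k32 3 (.s k117 k186 10 (.s k101 k69 3 (.d k154 k223
  k207 10 14)))), (.s k144 k208 7 (.s k128 k176 3 (.s k192 k64 7 (.d k48 k32 k96 3 11)))), (.s k154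
  k223 10 (.s k26 k218 7 (.s k31 k21 2 (.d k208 k144 k149 7 10))))] .n) (.c k255 (.q k15 [(.s k48
  k32 3 (.s k26 k37 6 (.d k154 k218 k223 7 10))), (.s k144 k208 7 (.s k128 k176 3 (.s k192 k64 7 (.d
  k48 k32 k96 3 11)))), (.s k154 k223 10 (.s k26 k218 7 (.s k31 k21 2 (.d k208 k144 k149 7 10))))]
  (.c k245 (.q k250 [(.s k48 k32 3 (.s k26 k37 6 (.d k154 k218 k223 7 10))), (.s k144 k208 7 (.s
  k128 k176 3 (.s k192 k64 7 (.d k48 k32 k96 3 11)))), (.s k154 k223 10 (.s k26 k218 7 (.s k31 k21 2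
  (.d k208 k144 k149 7 10))))] .n) (.c k250 (.q k245 [(.d k5 k10 k165 2 11), (.s k48 k32 3 (.s k26
  k37 6 (.d k154 k218 k223 7 10)))] .n) .n))) .n)))))

def s6_170_176 : T TT 256 :=
  (.q k64 [(.s k80 k95 2 (.s k112 k96 3 (.s k101 k79 6 (.s k117 k69 3 (.d k127 k122 k106 2 6))))),
  (.s k80 k95 2 (.s k96 k112 3 (.s k192 k128 7 (.s k48 k144 11 (.s k160 k240 11 (.d k32 k16 k224 3
  7)))))), (.s k106 k127 6 (.s k74 k122 3 (.s k192 k128 7 (.s k15 k133 10 (.s k5 k10 2 (.d k165 k245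
  k240 11 14))))))] (.c k112 (.l (.s k80 k95 2 (.s k106 k127 6 (.s k122 k74 3 (.s k240 k160 11 (.s
  k63 k181 10 (.d k192 k128 k149 7 14))))))) .n))

def s6_170_177 : T TT 256 :=
  (.q k16 [(.s k80 k95 2 (.s k208 k144 7 (.s k149 k31 10 (.s k213 k21 7 (.d k223 k218 k154 2
  10))))), (.s k48 k32 3 (.s k80 k95 2 (.s k144 k208 7 (.s k96 k192 11 (.s k112 k64 3 (.d k240 k176
  k160 7 11)))))), (.s k48 k32 3 (.s k154 k223 10 (.s k26 k218 7 (.s k15 k37 6 (.s k5 k10 2 (.d k165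
  k245 k240 11 14))))))] (.c k208 (.l (.s k48 k32 3 (.s k80 k95 2 (.s k154 k223 10 (.s k101 k207 14
  (.s k112 k79 6 (.d k240 k176 k160 7 11))))))) .n))

def s6_170_178 : T TT 256 :=
  (.q k16 [(.s k80 k95 2 (.s k208 k144 7 (.s k149 k31 10 (.s k213 k21 7 (.d k223 k218 k154 2
  10))))), (.s k48 k32 3 (.s k80 k95 2 (.s k144 k208 7 (.s k96 k192 11 (.s k112 k64 3 (.d k240 k176
  k160 7 11)))))), (.s k48 k32 3 (.s k154 k223 10 (.s k26 k218 7 (.s k15 k37 6 (.s k5 k10 2 (.d k165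
  k245 k240 11 14))))))] (.c k208 (.l (.s k48 k32 3 (.s k80 k95 2 (.s k154 k223 10 (.s k101 k207 14
  (.s k112 k79 6 (.d k240 k176 k160 7 11))))))) .n))

def s6_170_179 : T TT 256 :=
  (.q k16 [(.s k80 k95 2 (.s k208 k144 7 (.s k149 k31 10 (.s k213 k21 7 (.d k223 k218 k154 2
  10))))), (.s k48 k32 3 (.s k80 k95 2 (.s k144 k208 7 (.s k96 k192 11 (.s k112 k64 3 (.d k240 k176
  k160 7 11)))))), (.s k48 k32 3 (.s k154 k223 10 (.s k26 k218 7 (.s k15 k37 6 (.s k5 k10 2 (.d k165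
  k245 k240 11 14))))))] (.c k208 (.l (.s k48 k32 3 (.s k80 k95 2 (.s k154 k223 10 (.s k101 k207 14
  (.s k112 k79 6 (.d k240 k176 k160 7 11))))))) .n))

def s6_170_180 : T TT 256 :=
  (.q k16 [(.s k80 k95 2 (.s k208 k144 7 (.s k149 k31 10 (.s k213 k21 7 (.d k223 k218 k154 2
  10))))), (.s k48 k32 3 (.s k80 k95 2 (.s k144 k208 7 (.s k96 k192 11 (.s k112 k64 3 (.d k240 k176
  k160 7 11)))))), (.s k48 k32 3 (.s k154 k223 10 (.s k26 k218 7 (.s k15 k37 6 (.s k5 k10 2 (.d k165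
  k245 k240 11 14))))))] (.c k208 (.l (.s k48 k32 3 (.s k80 k95 2 (.s k154 k223 10 (.s k101 k207 14
  (.s k112 k79 6 (.d k240 k176 k160 7 11))))))) .n))

def s6_170_181 : T TT 256 :=
  (.q k16 [(.s k80 k95 2 (.s k208 k144 7 (.s k149 k31 10 (.s k213 k21 7 (.d k223 k218 k154 2
  10))))), (.s k48 k32 3 (.s k80 k95 2 (.s k144 k208 7 (.s k96 k192 11 (.s k112 k64 3 (.d k240 k176
  k160 7 11)))))), (.s k48 k32 3 (.s k154 k223 10 (.s k26 k218 7 (.s k15 k37 6 (.s k5 k10 2 (.d k165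
  k245 k240 11 14))))))] (.c k208 (.l (.s k48 k32 3 (.s k80 k95 2 (.s k154 k223 10 (.s k101 k207 14
  (.s k112 k79 6 (.d k240 k176 k160 7 11))))))) .n))

def s6_170_182 : T TT 256 :=
  (.q k16 [(.s k80 k95 2 (.s k208 k144 7 (.s k149 k31 10 (.s k213 k21 7 (.d k223 k218 k154 2
  10))))), (.s k48 k32 3 (.s k80 k95 2 (.s k144 k208 7 (.s k96 k192 11 (.s k112 k64 3 (.d k240 k176
  k160 7 11)))))), (.s k48 k32 3 (.s k154 k223 10 (.s k26 k218 7 (.s k15 k37 6 (.s k5 k10 2 (.d k165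
  k245 k240 11 14))))))] (.c k208 (.l (.s k48 k32 3 (.s k80 k95 2 (.s k154 k223 10 (.s k101 k207 14
  (.s k112 k79 6 (.d k240 k176 k160 7 11))))))) .n))

def s6_170_183 : T TT 256 :=
  (.q k16 [(.s k80 k95 2 (.s k208 k144 7 (.s k149 k31 10 (.s k213 k21 7 (.d k223 k218 k154 2
  10))))), (.s k48 k32 3 (.s k80 k95 2 (.s k144 k208 7 (.s k96 k192 11 (.s k112 k64 3 (.d k240 k176
  k160 7 11)))))), (.s k48 k32 3 (.s k154 k223 10 (.s k26 k218 7 (.s k15 k37 6 (.s k5 k10 2 (.d k165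
  k245 k240 11 14))))))] (.c k208 (.l (.s k48 k32 3 (.s k80 k95 2 (.s k154 k223 10 (.s k101 k207 14
  (.s k112 k79 6 (.d k240 k176 k160 7 11))))))) .n))

def s6_170_184 : T TT 256 :=
  (.q k16 [(.s k80 k95 2 (.s k208 k144 7 (.s k149 k31 10 (.s k213 k21 7 (.d k223 k218 k154 2
  10))))), (.s k48 k32 3 (.s k80 k95 2 (.s k144 k208 7 (.s k96 k192 11 (.s k112 k64 3 (.d k240 k176
  k160 7 11)))))), (.s k48 k32 3 (.s k154 k223 10 (.s k26 k218 7 (.s k15 k37 6 (.s k5 k10 2 (.d k165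
  k245 k240 11 14))))))] (.c k208 (.l (.s k48 k32 3 (.s k80 k95 2 (.s k154 k223 10 (.s k101 k207 14
  (.s k112 k79 6 (.d k240 k176 k160 7 11))))))) .n))

def s6_170_185 : T TT 256 :=
  (.q k16 [(.s k80 k95 2 (.s k208 k144 7 (.s k149 k31 10 (.s k213 k21 7 (.d k223 k218 k154 2
  10))))), (.s k48 k32 3 (.s k80 k95 2 (.s k144 k208 7 (.s k96 k192 11 (.s k112 k64 3 (.d k240 k176
  k160 7 11)))))), (.s k48 k32 3 (.s k154 k223 10 (.s k26 k218 7 (.s k15 k37 6 (.s k5 k10 2 (.d k165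
  k245 k240 11 14))))))] (.c k208 (.l (.s k48 k32 3 (.s k80 k95 2 (.s k154 k223 10 (.s k101 k207 14
  (.s k112 k79 6 (.d k240 k176 k160 7 11))))))) .n))

def s6_170_186 : T TT 256 :=
  (.q k154 [(.s k16 k223 10 (.s k26 k218 7 (.s k31 k21 2 (.s k80 k95 2 (.d k208 k144 k149 7 10))))),
  (.s k80 k95 2 (.s k218 k26 7 (.s k240 k160 11 (.s k207 k229 6 (.s k69 k138 10 (.d k101 k117 k48 3
  14)))))), (.s k16 k223 10 (.s k48 k32 3 (.s k80 k95 2 (.s k101 k207 14 (.s k112 k79 6 (.d k240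
  k176 k160 7 11)))))), (.s k16 k223 10 (.s k26 k218 7 (.s k48 k32 3 (.s k15 k37 6 (.s k5 k10 2 (.d
  k165 k245 k240 11 14))))))] .n)

def s6_170_187 : T TT 256 :=
  (.f k80 k95 2 (.q k153 [(.s k17 k221 9 (.s k27 k216 8 (.s k51 k34 4 (.s k15 k39 5 (.d k240 k160
  k165 11 14))))), (.s k216 k27 8 (.s k240 k160 11 (.s k204 k228 5 (.s k68 k136 9 (.d k102 k119 k51
  4 14))))), (.s k17 k221 9 (.s k51 k34 4 (.s k102 k204 14 (.s k114 k78 5 (.d k240 k177 k160 8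
  11)))))] (.c k51 (.l (.s k216 k27 8 (.s k221 k17 9 (.s k240 k160 11 (.s k204 k228 5 (.s k255 k238
  4 (.s k245 k250 2 (.d k165 k15 k5 14 11)))))))) (.c k102 (.l (.s k17 k221 9 (.s k240 k160 11 (.s
  k165 k15 14 (.s k177 k141 5 (.d k51 k34 k114 4 8)))))) (.c k160 (.l (.s k17 k221 9 (.s k27 k216 8
  (.s k51 k34 4 (.s k15 k39 5 (.s k5 k10 2 (.d k165 k245 k240 11 14))))))) (.c k240 (.q k1 [(.s k17
  k221 9 (.s k49 k33 3 (.s k101 k205 13 (.s k117 k69 3 (.d k253 k185 k169 9 13))))), (.s k3 k2 0 (.s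
  k17 k221 9 (.s k33 k49 3 (.s k18 k48 4 (.s k19 k16 0 (.d k51 k35 k34 3 4)))))), (.s k3 k2 0 (.s
  k169 k253 13 (.s k137 k185 3 (.s k204 k70 10 (.s k68 k136 9 (.d k102 k119 k51 4 14))))))] (.c k49
  (.l (.s k3 k2 0 (.s k17 k221 9 (.s k51 k34 4 (.s k19 k35 3 (.s k86 k220 10 (.d k169 k253 k252 13
  14))))))) .n)) .n))))))

def s6_170_188 : T TT 256 :=
  (.q k16 [(.s k80 k95 2 (.s k208 k144 7 (.s k149 k31 10 (.s k213 k21 7 (.d k223 k218 k154 2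
  10))))), (.s k48 k32 3 (.s k80 k95 2 (.s k144 k208 7 (.s k96 k192 11 (.s k112 k64 3 (.d k240 k176
  k160 7 11)))))), (.s k48 k32 3 (.s k154 k223 10 (.s k26 k218 7 (.s k15 k37 6 (.s k5 k10 2 (.d k165
  k245 k240 11 14))))))] (.c k208 (.l (.s k48 k32 3 (.s k80 k95 2 (.s k154 k223 10 (.s k101 k207 14
  (.s k112 k79 6 (.d k240 k176 k160 7 11))))))) .n))

def s6_170_189 : T TT 256 :=
  (.q k16 [(.s k80 k95 2 (.s k208 k144 7 (.s k149 k31 10 (.s k213 k21 7 (.d k223 k218 k154 2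
  10))))), (.s k48 k32 3 (.s k80 k95 2 (.s k144 k208 7 (.s k96 k192 11 (.s k112 k64 3 (.d k240 k176
  k160 7 11)))))), (.s k48 k32 3 (.s k154 k223 10 (.s k26 k218 7 (.s k15 k37 6 (.s k5 k10 2 (.d k165
  k245 k240 11 14))))))] (.c k208 (.l (.s k48 k32 3 (.s k80 k95 2 (.s k154 k223 10 (.s k101 k207 14
  (.s k112 k79 6 (.d k240 k176 k160 7 11))))))) .n))

def s6_170_190 : T TT 256 :=
  (.f k80 k95 2 (.q k150 [(.s k20 k215 8 (.s k30 k210 9 (.s k60 k40 5 (.s k15 k45 4 (.d k240 k160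
  k165 11 14))))), (.s k210 k30 9 (.s k240 k160 11 (.s k195 k225 4 (.s k65 k130 8 (.d k105 k125 k60
  5 14))))), (.s k20 k215 8 (.s k60 k40 5 (.s k105 k195 14 (.s k120 k75 4 (.d k240 k180 k160 9
  11)))))] (.c k60 (.l (.s k210 k30 9 (.s k215 k20 8 (.s k240 k160 11 (.s k195 k225 4 (.s k255 k235
  5 (.s k245 k250 2 (.d k165 k15 k5 14 11)))))))) (.c k105 (.l (.s k20 k215 8 (.s k240 k160 11 (.s
  k165 k15 14 (.s k180 k135 4 (.d k60 k40 k120 5 9)))))) (.c k160 (.l (.s k20 k215 8 (.s k30 k210 9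
  (.s k60 k40 5 (.s k15 k45 4 (.s k5 k10 2 (.d k165 k245 k240 11 14))))))) (.c k240 (.q k3 [(.s k2
  k1 0 (.s k20 k215 8 (.s k60 k40 5 (.s k22 k41 6 (.s k21 k23 0 (.d k42 k62 k63 5 6)))))), (.s k1 k2
  0 (.s k169 k253 13 (.s k86 k252 14 (.s k82 k94 1 (.s k83 k81 0 (.s k84 k87 0 (.d k92 k88 k89 1
  2))))))), (.s k20 k215 8 (.s k60 k40 5 (.s k22 k41 6 (.s k86 k214 7 (.s k84 k87 0 (.d k252 k168
  k169 13 14))))))] (.c k87 (.l (.s k1 k2 0 (.s k20 k215 8 (.s k60 k40 5 (.s k22 k41 6 (.s k86 k214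
  7 (.d k169 k253 k252 13 14))))))) .n)) .n))))))

def s6_170_191 : T TT 256 :=
  (.q k149 [(.s k21 k213 7 (.s k31 k208 10 (.s k16 k26 2 (.s k95 k80 2 (.d k223 k159 k154 7 10))))),
  (.s k21 k213 7 (.s k63 k42 6 (.s k80 k95 2 (.s k106 k192 14 (.s k122 k74 3 (.d k240 k181 k160 10
  11)))))), (.s k21 k213 7 (.s k31 k208 10 (.s k63 k42 6 (.s k15 k47 3 (.s k5 k10 2 (.d k165 k245
  k240 11 14)))))), (.s k80 k95 2 (.s k208 k31 10 (.s k240 k160 11 (.s k192 k224 3 (.s k64 k128 7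
  (.d k106 k127 k63 6 14))))))] .n)

def s6_170_192 : T TT 256 :=
  (.q k48 [(.s k16 k32 3 (.s k80 k95 2 (.s k154 k223 10 (.s k26 k218 7 (.s k31 k21 2 (.d k208 k144
  k149 7 10)))))), (.s k80 k95 2 (.s k240 k160 11 (.s k112 k176 7 (.s k101 k79 6 (.s k69 k117 3 (.d
  k207 k138 k154 10 14)))))), (.s k16 k32 3 (.s k154 k223 10 (.s k26 k218 7 (.s k15 k37 6 (.s k5 k10
  2 (.d k165 k245 k240 11 14))))))] (.c k101 (.l (.s k80 k95 2 (.s k240 k160 11 (.s k165 k15 14 (.s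
  k176 k112 7 (.s k154 k143 6 (.d k16 k32 k223 3 10))))))) (.c k154 (.l (.s k80 k95 2 (.s k240 k160
  11 (.s k112 k176 7 (.s k64 k96 3 (.s k79 k101 6 (.s k74 k69 2 (.d k106 k122 k127 3 6)))))))) .n)))

def s6_170_193 : T TT 256 :=
  (.q k16 [(.s k80 k95 2 (.s k208 k144 7 (.s k149 k31 10 (.s k213 k21 7 (.d k223 k218 k154 2
  10))))), (.s k48 k32 3 (.s k80 k95 2 (.s k144 k208 7 (.s k96 k192 11 (.s k112 k64 3 (.d k240 k176
  k160 7 11)))))), (.s k48 k32 3 (.s k154 k223 10 (.s k26 k218 7 (.s k15 k37 6 (.s k5 k10 2 (.d k165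
  k245 k240 11 14))))))] (.c k208 (.l (.s k48 k32 3 (.s k80 k95 2 (.s k154 k223 10 (.s k101 k207 14
  (.s k112 k79 6 (.d k240 k176 k160 7 11))))))) .n))

def s6_170_194 : T TT 256 :=
  (.q k16 [(.s k80 k95 2 (.s k208 k144 7 (.s k149 k31 10 (.s k213 k21 7 (.d k223 k218 k154 2
  10))))), (.s k48 k32 3 (.s k80 k95 2 (.s k144 k208 7 (.s k96 k192 11 (.s k112 k64 3 (.d k240 k176
  k160 7 11)))))), (.s k48 k32 3 (.s k154 k223 10 (.s k26 k218 7 (.s k15 k37 6 (.s k5 k10 2 (.d k165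
  k245 k240 11 14))))))] (.c k208 (.l (.s k48 k32 3 (.s k80 k95 2 (.s k154 k223 10 (.s k101 k207 14
  (.s k112 k79 6 (.d k240 k176 k160 7 11))))))) .n))

def s6_170_195 : T TT 256 :=
  (.q k16 [(.s k80 k95 2 (.s k208 k144 7 (.s k149 k31 10 (.s k213 k21 7 (.d k223 k218 k154 2
  10))))), (.s k48 k32 3 (.s k80 k95 2 (.s k144 k208 7 (.s k96 k192 11 (.s k112 k64 3 (.d k240 k176
  k160 7 11)))))), (.s k48 k32 3 (.s k154 k223 10 (.s k26 k218 7 (.s k15 k37 6 (.s k5 k10 2 (.d k165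
  k245 k240 11 14))))))] (.c k208 (.l (.s k48 k32 3 (.s k80 k95 2 (.s k154 k223 10 (.s k101 k207 14
  (.s k112 k79 6 (.d k240 k176 k160 7 11))))))) .n))

def s6_170_196 : T TT 256 :=
  (.q k16 [(.s k80 k95 2 (.s k208 k144 7 (.s k149 k31 10 (.s k213 k21 7 (.d k223 k218 k154 2
  10))))), (.s k48 k32 3 (.s k80 k95 2 (.s k144 k208 7 (.s k96 k192 11 (.s k112 k64 3 (.d k240 k176
  k160 7 11)))))), (.s k48 k32 3 (.s k154 k223 10 (.s k26 k218 7 (.s k15 k37 6 (.s k5 k10 2 (.d k165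
  k245 k240 11 14))))))] (.c k208 (.l (.s k48 k32 3 (.s k80 k95 2 (.s k154 k223 10 (.s k101 k207 14
  (.s k112 k79 6 (.d k240 k176 k160 7 11))))))) .n))

def s6_170_197 : T TT 256 :=
  (.q k16 [(.s k80 k95 2 (.s k208 k144 7 (.s k149 k31 10 (.s k213 k21 7 (.d k223 k218 k154 2
  10))))), (.s k48 k32 3 (.s k80 k95 2 (.s k144 k208 7 (.s k96 k192 11 (.s k112 k64 3 (.d k240 k176
  k160 7 11)))))), (.s k48 k32 3 (.s k154 k223 10 (.s k26 k218 7 (.s k15 k37 6 (.s k5 k10 2 (.d k165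
  k245 k240 11 14))))))] (.c k208 (.l (.s k48 k32 3 (.s k80 k95 2 (.s k154 k223 10 (.s k101 k207 14
  (.s k112 k79 6 (.d k240 k176 k160 7 11))))))) .n))

def s6_170_198 : T TT 256 :=
  (.f k80 k95 2 (.f k160 k240 11 (.q k16 [(.s k144 k208 7 (.s k128 k176 3 (.s k192 k64 7 (.d k48 k32
  k96 3 11)))), (.s k154 k223 10 (.s k26 k218 7 (.s k31 k21 2 (.d k208 k144 k149 7 10)))), (.s k48
  k32 3 (.s k154 k223 10 (.s k101 k207 14 (.s k112 k79 6 (.s k64 k96 3 (.s k117 k69 3 (.d k127 k122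
  k106 2 6)))))))] (.c k70 (.q k134 [(.s k144 k208 7 (.s k128 k176 3 (.s k192 k64 7 (.d k48 k32 k96
  3 11)))), (.s k154 k223 10 (.s k26 k218 7 (.s k31 k21 2 (.d k208 k144 k149 7 10)))), (.s k48 k32 3
  (.s k154 k223 10 (.s k101 k207 14 (.s k112 k79 6 (.s k64 k96 3 (.s k117 k69 3 (.d k127 k122 k106 2
  6)))))))] .n) (.c k134 (.q k70 [(.s k144 k208 7 (.s k128 k176 3 (.s k192 k64 7 (.d k48 k32 k96 3
  11)))), (.s k154 k223 10 (.s k26 k218 7 (.s k31 k21 2 (.d k208 k144 k149 7 10)))), (.s k48 k32 3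
  (.s k154 k223 10 (.s k101 k207 14 (.s k112 k79 6 (.s k64 k96 3 (.s k117 k69 3 (.d k127 k122 k106 2
  6)))))))] .n) .n)))))

def s6_170_199 : T TT 256 :=
  (.q k16 [(.s k80 k95 2 (.s k208 k144 7 (.s k149 k31 10 (.s k213 k21 7 (.d k223 k218 k154 2
  10))))), (.s k48 k32 3 (.s k80 k95 2 (.s k144 k208 7 (.s k96 k192 11 (.s k112 k64 3 (.d k240 k176
  k160 7 11)))))), (.s k48 k32 3 (.s k154 k223 10 (.s k26 k218 7 (.s k15 k37 6 (.s k5 k10 2 (.d k165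
  k245 k240 11 14))))))] (.c k208 (.l (.s k48 k32 3 (.s k80 k95 2 (.s k154 k223 10 (.s k101 k207 14
  (.s k112 k79 6 (.d k240 k176 k160 7 11))))))) .n))

def s6_170_200 : T TT 256 :=
  (.q k16 [(.s k80 k95 2 (.s k208 k144 7 (.s k149 k31 10 (.s k213 k21 7 (.d k223 k218 k154 2
  10))))), (.s k48 k32 3 (.s k80 k95 2 (.s k144 k208 7 (.s k96 k192 11 (.s k112 k64 3 (.d k240 k176
  k160 7 11)))))), (.s k48 k32 3 (.s k154 k223 10 (.s k26 k218 7 (.s k15 k37 6 (.s k5 k10 2 (.d k165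
  k245 k240 11 14))))))] (.c k208 (.l (.s k48 k32 3 (.s k80 k95 2 (.s k154 k223 10 (.s k101 k207 14
  (.s k112 k79 6 (.d k240 k176 k160 7 11))))))) .n))

def s6_170_201 : T TT 256 :=
  (.q k16 [(.s k80 k95 2 (.s k208 k144 7 (.s k149 k31 10 (.s k213 k21 7 (.d k223 k218 k154 2
  10))))), (.s k48 k32 3 (.s k80 k95 2 (.s k144 k208 7 (.s k96 k192 11 (.s k112 k64 3 (.d k240 k176
  k160 7 11)))))), (.s k48 k32 3 (.s k154 k223 10 (.s k26 k218 7 (.s k15 k37 6 (.s k5 k10 2 (.d k165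
  k245 k240 11 14))))))] (.c k208 (.l (.s k48 k32 3 (.s k80 k95 2 (.s k154 k223 10 (.s k101 k207 14
  (.s k112 k79 6 (.d k240 k176 k160 7 11))))))) .n))

def s6_170_202 : T TT 256 :=
  (.q k16 [(.s k80 k95 2 (.s k208 k144 7 (.s k149 k31 10 (.s k213 k21 7 (.d k223 k218 k154 2
  10))))), (.s k48 k32 3 (.s k80 k95 2 (.s k144 k208 7 (.s k96 k192 11 (.s k112 k64 3 (.d k240 k176
  k160 7 11)))))), (.s k48 k32 3 (.s k154 k223 10 (.s k26 k218 7 (.s k15 k37 6 (.s k5 k10 2 (.d k165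
  k245 k240 11 14))))))] (.c k208 (.l (.s k48 k32 3 (.s k80 k95 2 (.s k154 k223 10 (.s k101 k207 14
  (.s k112 k79 6 (.d k240 k176 k160 7 11))))))) .n))

def s6_170_203 : T TT 256 :=
  (.q k16 [(.s k80 k95 2 (.s k208 k144 7 (.s k149 k31 10 (.s k213 k21 7 (.d k223 k218 k154 2
  10))))), (.s k48 k32 3 (.s k80 k95 2 (.s k144 k208 7 (.s k96 k192 11 (.s k112 k64 3 (.d k240 k176
  k160 7 11)))))), (.s k48 k32 3 (.s k154 k223 10 (.s k26 k218 7 (.s k15 k37 6 (.s k5 k10 2 (.d k165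
  k245 k240 11 14))))))] (.c k208 (.l (.s k48 k32 3 (.s k80 k95 2 (.s k154 k223 10 (.s k101 k207 14
  (.s k112 k79 6 (.d k240 k176 k160 7 11))))))) .n))

def s6_170_204 : T TT 256 :=
  (.q k16 [(.s k80 k95 2 (.s k208 k144 7 (.s k149 k31 10 (.s k213 k21 7 (.d k223 k218 k154 2
  10))))), (.s k48 k32 3 (.s k80 k95 2 (.s k144 k208 7 (.s k96 k192 11 (.s k112 k64 3 (.d k240 k176
  k160 7 11)))))), (.s k48 k32 3 (.s k154 k223 10 (.s k26 k218 7 (.s k15 k37 6 (.s k5 k10 2 (.d k165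
  k245 k240 11 14))))))] (.c k208 (.l (.s k48 k32 3 (.s k80 k95 2 (.s k154 k223 10 (.s k101 k207 14
  (.s k112 k79 6 (.d k240 k176 k160 7 11))))))) .n))

def s6_170_205 : T TT 256 :=
  (.q k16 [(.s k80 k95 2 (.s k208 k144 7 (.s k149 k31 10 (.s k213 k21 7 (.d k223 k218 k154 2
  10))))), (.s k48 k32 3 (.s k80 k95 2 (.s k144 k208 7 (.s k96 k192 11 (.s k112 k64 3 (.d k240 k176
  k160 7 11)))))), (.s k48 k32 3 (.s k154 k223 10 (.s k26 k218 7 (.s k15 k37 6 (.s k5 k10 2 (.d k165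
  k245 k240 11 14))))))] (.c k208 (.l (.s k48 k32 3 (.s k80 k95 2 (.s k154 k223 10 (.s k101 k207 14
  (.s k112 k79 6 (.d k240 k176 k160 7 11))))))) .n))

def s6_170_206 : T TT 256 :=
  (.q k16 [(.s k80 k95 2 (.s k208 k144 7 (.s k149 k31 10 (.s k213 k21 7 (.d k223 k218 k154 2
  10))))), (.s k48 k32 3 (.s k80 k95 2 (.s k144 k208 7 (.s k96 k192 11 (.s k112 k64 3 (.d k240 k176
  k160 7 11)))))), (.s k48 k32 3 (.s k154 k223 10 (.s k26 k218 7 (.s k15 k37 6 (.s k5 k10 2 (.d k165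
  k245 k240 11 14))))))] (.c k208 (.l (.s k48 k32 3 (.s k80 k95 2 (.s k154 k223 10 (.s k101 k207 14
  (.s k112 k79 6 (.d k240 k176 k160 7 11))))))) .n))

def s6_170_207 : T TT 256 :=
  (.q k16 [(.s k80 k95 2 (.s k208 k144 7 (.s k149 k31 10 (.s k213 k21 7 (.d k223 k218 k154 2
  10))))), (.s k48 k32 3 (.s k80 k95 2 (.s k144 k208 7 (.s k96 k192 11 (.s k112 k64 3 (.d k240 k176
  k160 7 11)))))), (.s k48 k32 3 (.s k154 k223 10 (.s k26 k218 7 (.s k15 k37 6 (.s k5 k10 2 (.d k165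
  k240 k245 14 11))))))] (.c k208 (.l (.s k48 k32 3 (.s k80 k95 2 (.s k154 k223 10 (.s k240 k160 11
  (.s k165 k15 14 (.d k176 k143 k112 6 7))))))) .n))

def s6_170_208 : T TT 256 :=
  (.q k64 [(.s k80 k95 2 (.s k112 k96 3 (.s k101 k79 6 (.s k117 k69 3 (.d k127 k122 k106 2 6))))),
  (.s k80 k95 2 (.s k96 k112 3 (.s k160 k240 11 (.s k32 k224 7 (.s k192 k128 7 (.d k48 k16 k144 3
  11)))))), (.s k106 k127 6 (.s k74 k122 3 (.s k192 k128 7 (.s k15 k133 10 (.s k5 k10 2 (.d k165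
  k245 k240 11 14))))))] (.c k112 (.l (.s k80 k95 2 (.s k106 k127 6 (.s k122 k74 3 (.s k192 k128 7
  (.s k240 k160 11 (.d k63 k149 k181 14 10))))))) .n))

def s6_170_209 : T TT 256 :=
  (.q k16 [(.s k80 k95 2 (.s k208 k144 7 (.s k149 k31 10 (.s k213 k21 7 (.d k223 k218 k154 2
  10))))), (.s k48 k32 3 (.s k80 k95 2 (.s k144 k208 7 (.s k96 k192 11 (.s k112 k64 3 (.d k240 k176
  k160 7 11)))))), (.s k48 k32 3 (.s k154 k223 10 (.s k26 k218 7 (.s k15 k37 6 (.s k5 k10 2 (.d k165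
  k245 k240 11 14))))))] (.c k208 (.l (.s k48 k32 3 (.s k80 k95 2 (.s k154 k223 10 (.s k101 k207 14
  (.s k112 k79 6 (.d k240 k176 k160 7 11))))))) .n))

def s6_170_210 : T TT 256 :=
  (.q k16 [(.s k80 k95 2 (.s k208 k144 7 (.s k149 k31 10 (.s k213 k21 7 (.d k223 k218 k154 2
  10))))), (.s k48 k32 3 (.s k80 k95 2 (.s k144 k208 7 (.s k96 k192 11 (.s k112 k64 3 (.d k240 k176
  k160 7 11)))))), (.s k48 k32 3 (.s k154 k223 10 (.s k26 k218 7 (.s k15 k37 6 (.s k5 k10 2 (.d k165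
  k245 k240 11 14))))))] (.c k208 (.l (.s k48 k32 3 (.s k80 k95 2 (.s k154 k223 10 (.s k101 k207 14
  (.s k112 k79 6 (.d k240 k176 k160 7 11))))))) .n))

def s6_170_211 : T TT 256 :=
  (.q k16 [(.s k80 k95 2 (.s k208 k144 7 (.s k149 k31 10 (.s k213 k21 7 (.d k223 k218 k154 2
  10))))), (.s k48 k32 3 (.s k80 k95 2 (.s k144 k208 7 (.s k96 k192 11 (.s k112 k64 3 (.d k240 k176
  k160 7 11)))))), (.s k48 k32 3 (.s k154 k223 10 (.s k26 k218 7 (.s k15 k37 6 (.s k5 k10 2 (.d k165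
  k245 k240 11 14))))))] (.c k208 (.l (.s k48 k32 3 (.s k80 k95 2 (.s k154 k223 10 (.s k101 k207 14
  (.s k112 k79 6 (.d k240 k176 k160 7 11))))))) .n))

def s6_170_212 : T TT 256 :=
  (.q k16 [(.s k80 k95 2 (.s k208 k144 7 (.s k149 k31 10 (.s k213 k21 7 (.d k223 k218 k154 2
  10))))), (.s k48 k32 3 (.s k80 k95 2 (.s k144 k208 7 (.s k96 k192 11 (.s k112 k64 3 (.d k240 k176
  k160 7 11)))))), (.s k48 k32 3 (.s k154 k223 10 (.s k26 k218 7 (.s k15 k37 6 (.s k5 k10 2 (.d k165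
  k245 k240 11 14))))))] (.c k208 (.l (.s k48 k32 3 (.s k80 k95 2 (.s k154 k223 10 (.s k101 k207 14
  (.s k112 k79 6 (.d k240 k176 k160 7 11))))))) .n))

def s6_170_213 : T TT 256 :=
  (.q k16 [(.s k80 k95 2 (.s k154 k223 10 (.s k26 k218 7 (.s k208 k144 7 (.d k31 k21 k149 2 10))))),
  (.s k48 k32 3 (.s k80 k95 2 (.s k240 k160 11 (.s k112 k176 7 (.s k96 k64 3 (.d k144 k208 k192 7
  11)))))), (.s k48 k32 3 (.s k154 k223 10 (.s k101 k207 14 (.s k112 k79 6 (.s k240 k176 7 (.s k15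
  k165 14 (.d k26 k218 k37 7 6)))))))] (.c k208 (.l (.s k48 k32 3 (.s k80 k95 2 (.s k154 k223 10 (.s
  k218 k26 7 (.s k240 k160 11 (.d k207 k101 k229 14 6))))))) .n))

def s6_170_214 : T TT 256 :=
  (.q k16 [(.s k80 k95 2 (.s k208 k144 7 (.s k149 k31 10 (.s k213 k21 7 (.d k223 k218 k154 2
  10))))), (.s k48 k32 3 (.s k80 k95 2 (.s k144 k208 7 (.s k96 k192 11 (.s k112 k64 3 (.d k240 k176
  k160 7 11)))))), (.s k48 k32 3 (.s k154 k223 10 (.s k26 k218 7 (.s k15 k37 6 (.s k5 k10 2 (.d k165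
  k245 k240 11 14))))))] (.c k208 (.l (.s k48 k32 3 (.s k80 k95 2 (.s k154 k223 10 (.s k101 k207 14
  (.s k112 k79 6 (.d k240 k176 k160 7 11))))))) .n))

def s6_170_215 : T TT 256 :=
  (.q k16 [(.s k80 k95 2 (.s k208 k144 7 (.s k149 k31 10 (.s k213 k21 7 (.d k223 k218 k154 2
  10))))), (.s k48 k32 3 (.s k80 k95 2 (.s k144 k208 7 (.s k96 k192 11 (.s k112 k64 3 (.d k240 k176
  k160 7 11)))))), (.s k48 k32 3 (.s k154 k223 10 (.s k26 k218 7 (.s k15 k37 6 (.s k5 k10 2 (.d k165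
  k245 k240 11 14))))))] (.c k208 (.l (.s k48 k32 3 (.s k80 k95 2 (.s k154 k223 10 (.s k101 k207 14
  (.s k112 k79 6 (.d k240 k176 k160 7 11))))))) .n))

def s6_170_216 : T TT 256 :=
  (.q k16 [(.s k80 k95 2 (.s k208 k144 7 (.s k149 k31 10 (.s k213 k21 7 (.d k223 k218 k154 2
  10))))), (.s k48 k32 3 (.s k80 k95 2 (.s k144 k208 7 (.s k96 k192 11 (.s k112 k64 3 (.d k240 k176
  k160 7 11)))))), (.s k48 k32 3 (.s k154 k223 10 (.s k26 k218 7 (.s k15 k37 6 (.s k5 k10 2 (.d k165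
  k245 k240 11 14))))))] (.c k208 (.l (.s k48 k32 3 (.s k80 k95 2 (.s k154 k223 10 (.s k101 k207 14
  (.s k112 k79 6 (.d k240 k176 k160 7 11))))))) .n))

def s6_170_217 : T TT 256 :=
  (.q k16 [(.s k80 k95 2 (.s k208 k144 7 (.s k149 k31 10 (.s k213 k21 7 (.d k223 k218 k154 2
  10))))), (.s k48 k32 3 (.s k80 k95 2 (.s k144 k208 7 (.s k96 k192 11 (.s k112 k64 3 (.d k240 k176
  k160 7 11)))))), (.s k48 k32 3 (.s k154 k223 10 (.s k26 k218 7 (.s k15 k37 6 (.s k5 k10 2 (.d k165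
  k245 k240 11 14))))))] (.c k208 (.l (.s k48 k32 3 (.s k80 k95 2 (.s k154 k223 10 (.s k101 k207 14
  (.s k112 k79 6 (.d k240 k176 k160 7 11))))))) .n))

def s6_170_218 : T TT 256 :=
  (.q k64 [(.s k80 k95 2 (.s k112 k96 3 (.s k101 k79 6 (.s k117 k69 3 (.d k127 k122 k106 2 6))))),
  (.s k80 k95 2 (.s k96 k112 3 (.s k160 k240 11 (.s k32 k224 7 (.s k48 k16 3 (.d k192 k128 k144 7
  11)))))), (.s k106 k127 6 (.s k74 k122 3 (.s k192 k128 7 (.s k15 k133 10 (.s k5 k10 2 (.d k165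
  k245 k240 11 14))))))] (.c k112 (.l (.s k80 k95 2 (.s k106 k127 6 (.s k122 k74 3 (.s k192 k128 7
  (.s k240 k160 11 (.d k63 k149 k181 14 10))))))) .n))

def s6_170_219 : T TT 256 :=
  (.q k16 [(.s k80 k95 2 (.s k208 k144 7 (.s k149 k31 10 (.s k213 k21 7 (.d k223 k218 k154 2
  10))))), (.s k48 k32 3 (.s k80 k95 2 (.s k144 k208 7 (.s k96 k192 11 (.s k112 k64 3 (.d k240 k176
  k160 7 11)))))), (.s k48 k32 3 (.s k154 k223 10 (.s k26 k218 7 (.s k15 k37 6 (.s k5 k10 2 (.d k165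
  k245 k240 11 14))))))] (.c k208 (.l (.s k48 k32 3 (.s k80 k95 2 (.s k154 k223 10 (.s k101 k207 14
  (.s k112 k79 6 (.d k240 k176 k160 7 11))))))) .n))

def s6_170_220 : T TT 256 :=
  (.q k16 [(.s k80 k95 2 (.s k208 k144 7 (.s k149 k31 10 (.s k213 k21 7 (.d k223 k218 k154 2
  10))))), (.s k48 k32 3 (.s k80 k95 2 (.s k144 k208 7 (.s k96 k192 11 (.s k112 k64 3 (.d k240 k176
  k160 7 11)))))), (.s k48 k32 3 (.s k154 k223 10 (.s k26 k218 7 (.s k15 k37 6 (.s k5 k10 2 (.d k165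
  k245 k240 11 14))))))] (.c k208 (.l (.s k48 k32 3 (.s k80 k95 2 (.s k154 k223 10 (.s k101 k207 14
  (.s k112 k79 6 (.d k240 k176 k160 7 11))))))) .n))

def s6_170_221 : T TT 256 :=
  (.q k16 [(.s k80 k95 2 (.s k208 k144 7 (.s k149 k31 10 (.s k213 k21 7 (.d k223 k218 k154 2
  10))))), (.s k48 k32 3 (.s k80 k95 2 (.s k144 k208 7 (.s k96 k192 11 (.s k112 k64 3 (.d k240 k176
  k160 7 11)))))), (.s k48 k32 3 (.s k154 k223 10 (.s k26 k218 7 (.s k15 k37 6 (.s k5 k10 2 (.d k165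
  k245 k240 11 14))))))] (.c k208 (.l (.s k48 k32 3 (.s k80 k95 2 (.s k154 k223 10 (.s k101 k207 14
  (.s k112 k79 6 (.d k240 k176 k160 7 11))))))) .n))

def s6_170_222 : T TT 256 :=
  (.q k16 [(.s k80 k95 2 (.s k208 k144 7 (.s k149 k31 10 (.s k213 k21 7 (.d k223 k218 k154 2
  10))))), (.s k48 k32 3 (.s k80 k95 2 (.s k144 k208 7 (.s k96 k192 11 (.s k112 k64 3 (.d k240 k176
  k160 7 11)))))), (.s k48 k32 3 (.s k154 k223 10 (.s k26 k218 7 (.s k15 k37 6 (.s k5 k10 2 (.d k165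
  k245 k240 11 14))))))] (.c k208 (.l (.s k48 k32 3 (.s k80 k95 2 (.s k154 k223 10 (.s k101 k207 14
  (.s k112 k79 6 (.d k240 k176 k160 7 11))))))) .n))

def s6_170_223 : T TT 256 :=
  (.q k64 [(.s k95 k80 2 (.s k127 k106 6 (.s k79 k111 3 (.s k69 k74 2 (.d k101 k117 k112 3 6))))),
  (.s k80 k95 2 (.s k96 k112 3 (.s k160 k240 11 (.s k32 k224 7 (.s k48 k16 3 (.d k192 k128 k144 7
  11)))))), (.s k106 k127 6 (.s k74 k122 3 (.s k192 k128 7 (.s k15 k133 10 (.s k5 k10 2 (.d k165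
  k245 k240 11 14))))))] (.c k112 (.l (.s k80 k95 2 (.s k106 k127 6 (.s k122 k74 3 (.s k192 k128 7
  (.s k240 k160 11 (.d k63 k149 k181 14 10))))))) .n))

def s6_170_224 : T TT 256 :=
  (.q k16 [(.s k80 k95 2 (.s k208 k144 7 (.s k149 k31 10 (.s k213 k21 7 (.d k223 k218 k154 2
  10))))), (.s k48 k32 3 (.s k80 k95 2 (.s k144 k208 7 (.s k96 k192 11 (.s k240 k160 11 (.d k112 k64
  k176 3 7)))))), (.s k48 k32 3 (.s k154 k223 10 (.s k26 k218 7 (.s k15 k37 6 (.s k5 k10 2 (.d k165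
  k245 k240 11 14))))))] (.c k208 (.l (.s k48 k32 3 (.s k80 k95 2 (.s k154 k223 10 (.s k101 k207 14
  (.s k112 k79 6 (.d k240 k160 k176 11 7))))))) .n))

def s6_170_225 : T TT 256 :=
  (.q k16 [(.s k80 k95 2 (.s k208 k144 7 (.s k149 k31 10 (.s k213 k21 7 (.d k223 k218 k154 2
  10))))), (.s k48 k32 3 (.s k80 k95 2 (.s k144 k208 7 (.s k96 k192 11 (.s k112 k64 3 (.d k240 k176
  k160 7 11)))))), (.s k48 k32 3 (.s k154 k223 10 (.s k26 k218 7 (.s k15 k37 6 (.s k5 k10 2 (.d k165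
  k245 k240 11 14))))))] (.c k208 (.l (.s k48 k32 3 (.s k80 k95 2 (.s k154 k223 10 (.s k101 k207 14
  (.s k112 k79 6 (.d k240 k176 k160 7 11))))))) .n))

def s6_170_226 : T TT 256 :=
  (.q k16 [(.s k80 k95 2 (.s k208 k144 7 (.s k149 k31 10 (.s k213 k21 7 (.d k223 k218 k154 2
  10))))), (.s k48 k32 3 (.s k80 k95 2 (.s k144 k208 7 (.s k96 k192 11 (.s k112 k64 3 (.d k240 k176
  k160 7 11)))))), (.s k48 k32 3 (.s k154 k223 10 (.s k26 k218 7 (.s k15 k37 6 (.s k5 k10 2 (.d k165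
  k245 k240 11 14))))))] (.c k208 (.l (.s k48 k32 3 (.s k80 k95 2 (.s k154 k223 10 (.s k101 k207 14
  (.s k112 k79 6 (.d k240 k176 k160 7 11))))))) .n))

def s6_170_227 : T TT 256 :=
  (.q k16 [(.s k80 k95 2 (.s k208 k144 7 (.s k149 k31 10 (.s k213 k21 7 (.d k223 k218 k154 2
  10))))), (.s k48 k32 3 (.s k80 k95 2 (.s k144 k208 7 (.s k96 k192 11 (.s k112 k64 3 (.d k240 k176
  k160 7 11)))))), (.s k48 k32 3 (.s k154 k223 10 (.s k26 k218 7 (.s k15 k37 6 (.s k5 k10 2 (.d k165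
  k245 k240 11 14))))))] (.c k208 (.l (.s k48 k32 3 (.s k80 k95 2 (.s k154 k223 10 (.s k101 k207 14
  (.s k112 k79 6 (.d k240 k176 k160 7 11))))))) .n))

def s6_170_228 : T TT 256 :=
  (.q k16 [(.s k80 k95 2 (.s k208 k144 7 (.s k149 k31 10 (.s k213 k21 7 (.d k223 k218 k154 2
  10))))), (.s k48 k32 3 (.s k80 k95 2 (.s k144 k208 7 (.s k96 k192 11 (.s k112 k64 3 (.d k240 k176
  k160 7 11)))))), (.s k48 k32 3 (.s k154 k223 10 (.s k26 k218 7 (.s k15 k37 6 (.s k5 k10 2 (.d k165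
  k245 k240 11 14))))))] (.c k208 (.l (.s k48 k32 3 (.s k80 k95 2 (.s k154 k223 10 (.s k101 k207 14
  (.s k112 k79 6 (.d k240 k176 k160 7 11))))))) .n))

def s6_170_229 : T TT 256 :=
  (.q k16 [(.s k80 k95 2 (.s k208 k144 7 (.s k149 k31 10 (.s k213 k21 7 (.d k223 k218 k154 2
  10))))), (.s k48 k32 3 (.s k80 k95 2 (.s k144 k208 7 (.s k96 k192 11 (.s k112 k64 3 (.d k240 k176
  k160 7 11)))))), (.s k48 k32 3 (.s k154 k223 10 (.s k26 k218 7 (.s k15 k37 6 (.s k5 k10 2 (.d k165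
  k240 k245 14 11))))))] (.c k208 (.l (.s k48 k32 3 (.s k80 k95 2 (.s k154 k223 10 (.s k101 k207 14
  (.s k112 k79 6 (.d k240 k176 k160 7 11))))))) .n))

def s6_170_230 : T TT 256 :=
  (.q k16 [(.s k80 k95 2 (.s k208 k144 7 (.s k149 k31 10 (.s k213 k21 7 (.d k223 k218 k154 2
  10))))), (.s k48 k32 3 (.s k80 k95 2 (.s k144 k208 7 (.s k96 k192 11 (.s k112 k64 3 (.d k240 k176
  k160 7 11)))))), (.s k48 k32 3 (.s k154 k223 10 (.s k26 k218 7 (.s k15 k37 6 (.s k5 k10 2 (.d k165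
  k245 k240 11 14))))))] (.c k208 (.l (.s k48 k32 3 (.s k80 k95 2 (.s k154 k223 10 (.s k101 k207 14
  (.s k112 k79 6 (.d k240 k176 k160 7 11))))))) .n))

def s6_170_231 : T TT 256 :=
  (.q k16 [(.s k80 k95 2 (.s k208 k144 7 (.s k149 k31 10 (.s k213 k21 7 (.d k223 k218 k154 2
  10))))), (.s k48 k32 3 (.s k80 k95 2 (.s k144 k208 7 (.s k96 k192 11 (.s k112 k64 3 (.d k240 k176
  k160 7 11)))))), (.s k48 k32 3 (.s k154 k223 10 (.s k26 k218 7 (.s k15 k37 6 (.s k5 k10 2 (.d k165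
  k245 k240 11 14))))))] (.c k208 (.l (.s k48 k32 3 (.s k80 k95 2 (.s k154 k223 10 (.s k101 k207 14
  (.s k112 k79 6 (.d k240 k176 k160 7 11))))))) .n))

def s6_170_232 : T TT 256 :=
  (.q k16 [(.s k80 k95 2 (.s k208 k144 7 (.s k149 k31 10 (.s k213 k21 7 (.d k223 k218 k154 2
  10))))), (.s k48 k32 3 (.s k80 k95 2 (.s k144 k208 7 (.s k96 k192 11 (.s k112 k64 3 (.d k240 k176
  k160 7 11)))))), (.s k48 k32 3 (.s k154 k223 10 (.s k26 k218 7 (.s k15 k37 6 (.s k5 k10 2 (.d k165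
  k245 k240 11 14))))))] (.c k208 (.l (.s k48 k32 3 (.s k80 k95 2 (.s k154 k223 10 (.s k101 k207 14
  (.s k112 k79 6 (.d k240 k176 k160 7 11))))))) .n))

def s6_170_233 : T TT 256 :=
  (.q k16 [(.s k80 k95 2 (.s k208 k144 7 (.s k149 k31 10 (.s k213 k21 7 (.d k223 k218 k154 2
  10))))), (.s k48 k32 3 (.s k80 k95 2 (.s k144 k208 7 (.s k96 k192 11 (.s k112 k64 3 (.d k240 k176
  k160 7 11)))))), (.s k48 k32 3 (.s k154 k223 10 (.s k26 k218 7 (.s k15 k37 6 (.s k5 k10 2 (.d k165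
  k245 k240 11 14))))))] (.c k208 (.l (.s k48 k32 3 (.s k80 k95 2 (.s k154 k223 10 (.s k101 k207 14
  (.s k112 k79 6 (.d k240 k176 k160 7 11))))))) .n))

def s6_170_234 : T TT 256 :=
  (.q k106 [(.s k64 k127 6 (.s k74 k122 3 (.s k79 k69 2 (.s k80 k95 2 (.d k112 k96 k101 3 6))))),
  (.s k80 k95 2 (.s k122 k74 3 (.s k240 k160 11 (.s k63 k181 10 (.s k21 k42 6 (.d k149 k213 k192 7
  14)))))), (.s k64 k127 6 (.s k80 k95 2 (.s k192 k128 7 (.s k149 k63 14 (.s k208 k31 10 (.d k240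
  k224 k160 3 11)))))), (.s k64 k127 6 (.s k74 k122 3 (.s k192 k128 7 (.s k15 k133 10 (.s k5 k10 2
  (.d k165 k245 k240 11 14))))))] .n)

def s6_170_235 : T TT 256 :=
  (.f k80 k95 2 (.q k105 [(.s k65 k125 5 (.s k75 k120 4 (.s k195 k130 8 (.s k15 k135 9 (.d k240 k160
  k165 11 14))))), (.s k120 k75 4 (.s k240 k160 11 (.s k60 k180 9 (.s k20 k40 5 (.d k150 k215 k195 8
  14))))), (.s k65 k125 5 (.s k195 k130 8 (.s k150 k60 14 (.s k210 k30 9 (.d k240 k225 k160 4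
  11)))))] (.c k150 (.l (.s k65 k125 5 (.s k240 k160 11 (.s k165 k15 14 (.s k225 k45 9 (.d k195 k210
  k130 4 8)))))) (.c k160 (.l (.s k65 k125 5 (.s k75 k120 4 (.s k195 k130 8 (.s k15 k135 9 (.s k5
  k10 2 (.d k165 k245 k240 11 14))))))) (.c k195 (.l (.s k120 k75 4 (.s k125 k65 5 (.s k240 k160 11
  (.s k60 k180 9 (.s k255 k190 8 (.s k245 k250 2 (.d k165 k15 k5 14 11)))))))) (.c k240 (.q k1 [(.s
  k65 k125 5 (.s k193 k129 7 (.s k149 k61 13 (.s k213 k21 7 (.d k253 k233 k169 5 13))))), (.s k3 k2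
  0 (.s k65 k125 5 (.s k129 k193 7 (.s k66 k192 8 (.s k67 k64 0 (.d k195 k131 k130 7 8)))))), (.s k3
  k2 0 (.s k169 k253 13 (.s k41 k233 7 (.s k60 k22 6 (.s k20 k40 5 (.d k150 k215 k195 8 14))))))]
  (.c k193 (.l (.s k3 k2 0 (.s k65 k125 5 (.s k169 k253 13 (.s k86 k252 14 (.s k67 k124 6 (.d k195
  k131 k130 7 8))))))) .n)) .n))))))

def s6_170_236 : T TT 256 :=
  (.q k16 [(.s k80 k95 2 (.s k208 k144 7 (.s k149 k31 10 (.s k213 k21 7 (.d k223 k218 k154 2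
  10))))), (.s k48 k32 3 (.s k80 k95 2 (.s k144 k208 7 (.s k96 k192 11 (.s k112 k64 3 (.d k240 k176
  k160 7 11)))))), (.s k48 k32 3 (.s k154 k223 10 (.s k26 k218 7 (.s k15 k37 6 (.s k5 k10 2 (.d k165
  k245 k240 11 14))))))] (.c k208 (.l (.s k48 k32 3 (.s k80 k95 2 (.s k154 k223 10 (.s k101 k207 14
  (.s k112 k79 6 (.d k240 k176 k160 7 11))))))) .n))

def s6_170_237 : T TT 256 :=
  (.q k16 [(.s k80 k95 2 (.s k208 k144 7 (.s k149 k31 10 (.s k213 k21 7 (.d k223 k218 k154 2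
  10))))), (.s k48 k32 3 (.s k80 k95 2 (.s k144 k208 7 (.s k96 k192 11 (.s k112 k64 3 (.d k240 k176
  k160 7 11)))))), (.s k48 k32 3 (.s k154 k223 10 (.s k26 k218 7 (.s k15 k37 6 (.s k5 k10 2 (.d k165
  k245 k240 11 14))))))] (.c k208 (.l (.s k48 k32 3 (.s k80 k95 2 (.s k154 k223 10 (.s k101 k207 14
  (.s k112 k79 6 (.d k240 k176 k160 7 11))))))) .n))

def s6_170_238 : T TT 256 :=
  (.f k80 k95 2 (.q k102 [(.s k68 k119 4 (.s k78 k114 5 (.s k204 k136 9 (.s k15 k141 8 (.d k240 k160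
  k165 11 14))))), (.s k114 k78 5 (.s k240 k160 11 (.s k51 k177 8 (.s k17 k34 4 (.d k153 k221 k204 9
  14))))), (.s k68 k119 4 (.s k204 k136 9 (.s k153 k51 14 (.s k216 k27 8 (.d k240 k228 k160 5
  11)))))] (.c k153 (.l (.s k68 k119 4 (.s k240 k160 11 (.s k165 k15 14 (.s k228 k39 8 (.d k204 k216
  k136 5 9)))))) (.c k160 (.l (.s k68 k119 4 (.s k78 k114 5 (.s k204 k136 9 (.s k15 k141 8 (.s k5
  k10 2 (.d k165 k245 k240 11 14))))))) (.c k204 (.l (.s k114 k78 5 (.s k119 k68 4 (.s k240 k160 11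
  (.s k51 k177 8 (.s k255 k187 9 (.s k245 k250 2 (.d k165 k15 k5 14 11)))))))) (.c k240 (.q k3 [(.s
  k1 k2 0 (.s k68 k119 4 (.s k169 k253 13 (.s k35 k236 10 (.s k51 k19 3 (.d k204 k136 k153 9
  14)))))), (.s k68 k119 4 (.s k204 k136 9 (.s k70 k137 10 (.s k86 k118 3 (.s k84 k87 0 (.d k252
  k168 k169 13 14)))))), (.s k1 k2 0 (.s k169 k253 13 (.s k86 k252 14 (.s k82 k94 1 (.s k83 k81 0
  (.s k84 k87 0 (.d k92 k88 k89 1 2))))))), (.s k2 k1 0 (.s k68 k119 4 (.s k204 k136 9 (.s k70 k137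
  10 (.s k69 k71 0 (.d k138 k206 k207 9 10))))))] .n) .n))))))

def s6_170_239 : T TT 256 :=
  (.q k101 [(.s k69 k117 3 (.s k79 k112 6 (.s k64 k74 2 (.s k95 k80 2 (.d k127 k111 k106 3 6))))),
  (.s k69 k117 3 (.s k80 k95 2 (.s k207 k138 10 (.s k154 k48 14 (.s k218 k26 7 (.d k240 k229 k160 6
  11)))))), (.s k80 k95 2 (.s k112 k79 6 (.s k240 k160 11 (.s k48 k176 7 (.s k16 k32 3 (.d k154 k223
  k207 10 14)))))), (.s k69 k117 3 (.s k79 k112 6 (.s k207 k138 10 (.s k15 k143 7 (.s k5 k10 2 (.d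
  k165 k245 k240 11 14))))))] .n)

def s6_170_240 : T TT 256 :=
  (.f k95 k80 2 (.q k16 [(.s k223 k154 10 (.s k31 k159 7 (.s k21 k26 2 (.d k149 k213 k208 7 10)))),
  (.s k48 k32 3 (.s k154 k223 10 (.s k101 k207 14 (.s k69 k117 3 (.s k79 k112 6 (.s k64 k74 2 (.d
  k127 k111 k106 3 6)))))))] (.c k154 (.q k20 [(.s k24 k28 1 (.s k48 k32 3 (.s k12 k36 5 (.s k40 k60
  5 (.d k8 k4 k56 1 3))))), (.s k28 k24 1 (.s k150 k215 8 (.s k30 k210 9 (.s k31 k29 0 (.s k21 k26 2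
  (.d k149 k213 k208 7 10)))))), (.s k60 k40 5 (.s k150 k215 8 (.s k30 k210 9 (.s k15 k45 4 (.s k255
  k175 11 (.s k125 k190 8 (.d k105 k195 k65 14 5)))))))] (.c k138 (.q k186 [(.s k24 k28 1 (.s k48
  k32 3 (.s k12 k36 5 (.s k40 k60 5 (.d k8 k4 k56 1 3))))), (.s k28 k24 1 (.s k150 k215 8 (.s k30
  k210 9 (.s k31 k29 0 (.s k21 k26 2 (.d k149 k213 k208 7 10)))))), (.s k48 k32 3 (.s k60 k40 5 (.s
  k117 k255 10 (.s k101 k69 3 (.s k150 k215 8 (.d k52 k56 k199 1 12))))))] .n) (.c k186 (.q k138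
  [(.s k24 k28 1 (.s k48 k32 3 (.s k12 k36 5 (.s k40 k60 5 (.d k8 k4 k56 1 3))))), (.s k69 k207 10
  (.s k101 k117 3 (.s k79 k112 6 (.s k64 k74 2 (.d k127 k111 k106 3 6))))), (.s k28 k24 1 (.s k150
  k215 8 (.s k30 k210 9 (.s k31 k29 0 (.s k21 k26 2 (.d k149 k213 k208 7 10))))))] .n) .n))) (.c
  k223 (.q k17 [(.s k18 k19 0 (.s k48 k32 3 (.s k3 k33 4 (.s k2 k1 0 (.d k34 k50 k51 3 4))))), (.s
  k19 k18 0 (.s k153 k221 9 (.s k27 k216 8 (.s k31 k23 1 (.s k21 k26 2 (.d k149 k213 k208 7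
  10)))))), (.s k51 k34 4 (.s k153 k221 9 (.s k27 k216 8 (.s k15 k39 5 (.s k255 k175 11 (.s k119
  k187 9 (.d k102 k204 k68 14 4)))))))] .n) .n))))

def s6_170_241 : T TT 256 :=
  (.q k16 [(.s k80 k95 2 (.s k208 k144 7 (.s k149 k31 10 (.s k213 k21 7 (.d k223 k218 k154 2
  10))))), (.s k48 k32 3 (.s k80 k95 2 (.s k144 k208 7 (.s k96 k192 11 (.s k112 k64 3 (.d k240 k176
  k160 7 11)))))), (.s k48 k32 3 (.s k154 k223 10 (.s k26 k218 7 (.s k15 k37 6 (.s k5 k10 2 (.d k165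
  k245 k240 11 14))))))] (.c k208 (.l (.s k48 k32 3 (.s k80 k95 2 (.s k154 k223 10 (.s k101 k207 14
  (.s k112 k79 6 (.d k240 k176 k160 7 11))))))) .n))

def s6_170_242 : T TT 256 :=
  (.q k16 [(.s k80 k95 2 (.s k208 k144 7 (.s k149 k31 10 (.s k213 k21 7 (.d k223 k218 k154 2
  10))))), (.s k48 k32 3 (.s k80 k95 2 (.s k144 k208 7 (.s k96 k192 11 (.s k112 k64 3 (.d k240 k176
  k160 7 11)))))), (.s k48 k32 3 (.s k154 k223 10 (.s k26 k218 7 (.s k15 k37 6 (.s k5 k10 2 (.d k165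
  k245 k240 11 14))))))] (.c k208 (.l (.s k48 k32 3 (.s k80 k95 2 (.s k154 k223 10 (.s k101 k207 14
  (.s k112 k79 6 (.d k240 k176 k160 7 11))))))) .n))

def s6_170_243 : T TT 256 :=
  (.q k16 [(.s k80 k95 2 (.s k208 k144 7 (.s k149 k31 10 (.s k213 k21 7 (.d k223 k218 k154 2
  10))))), (.s k48 k32 3 (.s k80 k95 2 (.s k144 k208 7 (.s k96 k192 11 (.s k112 k64 3 (.d k240 k176
  k160 7 11)))))), (.s k48 k32 3 (.s k154 k223 10 (.s k26 k218 7 (.s k15 k37 6 (.s k5 k10 2 (.d k165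
  k245 k240 11 14))))))] (.c k208 (.l (.s k48 k32 3 (.s k80 k95 2 (.s k154 k223 10 (.s k101 k207 14
  (.s k112 k79 6 (.d k240 k176 k160 7 11))))))) .n))

def s6_170_244 : T TT 256 :=
  (.q k16 [(.s k80 k95 2 (.s k208 k144 7 (.s k149 k31 10 (.s k213 k21 7 (.d k223 k218 k154 2
  10))))), (.s k48 k32 3 (.s k80 k95 2 (.s k144 k208 7 (.s k96 k192 11 (.s k112 k64 3 (.d k240 k176
  k160 7 11)))))), (.s k48 k32 3 (.s k154 k223 10 (.s k26 k218 7 (.s k15 k37 6 (.s k5 k10 2 (.d k165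
  k245 k240 11 14))))))] (.c k208 (.l (.s k48 k32 3 (.s k80 k95 2 (.s k154 k223 10 (.s k101 k207 14
  (.s k112 k79 6 (.d k240 k176 k160 7 11))))))) .n))

def s6_170_245 : T TT 256 :=
  (.q k16 [(.s k80 k95 2 (.s k208 k144 7 (.s k149 k31 10 (.s k213 k21 7 (.d k223 k218 k154 2
  10))))), (.s k48 k32 3 (.s k80 k95 2 (.s k144 k208 7 (.s k96 k192 11 (.s k112 k64 3 (.d k240 k176
  k160 7 11)))))), (.s k48 k32 3 (.s k154 k223 10 (.s k26 k218 7 (.s k15 k37 6 (.s k10 k5 2 (.s k42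
  k58 3 (.d k21 k31 k63 2 6)))))))] (.c k208 (.l (.s k48 k32 3 (.s k80 k95 2 (.s k154 k223 10 (.s
  k101 k207 14 (.s k112 k79 6 (.d k240 k176 k160 7 11))))))) .n))

def s6_170_246 : T TT 256 :=
  (.q k86 [(.s k80 k95 2 (.s k82 k94 1 (.s k83 k81 0 (.s k84 k87 0 (.d k92 k88 k89 1 2))))), (.s k84
  k87 0 (.s k94 k82 1 (.s k252 k168 13 (.s k15 k173 12 (.s k5 k10 2 (.d k165 k245 k240 11 14)))))),
  (.s k80 k95 2 (.s k84 k87 0 (.s k240 k160 11 (.s k165 k15 14 (.s k244 k7 12 (.d k252 k248 k168 1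
  13)))))), (.s k80 k95 2 (.s k82 k94 1 (.s k240 k160 11 (.s k3 k161 12 (.s k1 k2 0 (.d k169 k253
  k252 13 14))))))] .n)

def s6_170_247 : T TT 256 :=
  (.q k16 [(.s k80 k95 2 (.s k208 k144 7 (.s k149 k31 10 (.s k213 k21 7 (.d k223 k218 k154 2
  10))))), (.s k48 k32 3 (.s k80 k95 2 (.s k144 k208 7 (.s k96 k192 11 (.s k112 k64 3 (.d k240 k176
  k160 7 11)))))), (.s k48 k32 3 (.s k154 k223 10 (.s k26 k218 7 (.s k15 k37 6 (.s k5 k10 2 (.d k165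
  k245 k240 11 14))))))] (.c k208 (.l (.s k48 k32 3 (.s k80 k95 2 (.s k154 k223 10 (.s k101 k207 14
  (.s k112 k79 6 (.d k240 k176 k160 7 11))))))) .n))

def s6_170_248 : T TT 256 :=
  (.q k16 [(.s k80 k95 2 (.s k208 k144 7 (.s k149 k31 10 (.s k213 k21 7 (.d k223 k218 k154 2
  10))))), (.s k48 k32 3 (.s k80 k95 2 (.s k144 k208 7 (.s k96 k192 11 (.s k112 k64 3 (.d k240 k176
  k160 7 11)))))), (.s k48 k32 3 (.s k154 k223 10 (.s k26 k218 7 (.s k15 k37 6 (.s k5 k10 2 (.d k165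
  k245 k240 11 14))))))] (.c k208 (.l (.s k48 k32 3 (.s k80 k95 2 (.s k154 k223 10 (.s k101 k207 14
  (.s k112 k79 6 (.d k240 k176 k160 7 11))))))) .n))

def s6_170_249 : T TT 256 :=
  (.q k16 [(.s k80 k95 2 (.s k208 k144 7 (.s k149 k31 10 (.s k213 k21 7 (.d k223 k218 k154 2
  10))))), (.s k48 k32 3 (.s k80 k95 2 (.s k144 k208 7 (.s k96 k192 11 (.s k112 k64 3 (.d k240 k176
  k160 7 11)))))), (.s k48 k32 3 (.s k154 k223 10 (.s k26 k218 7 (.s k15 k37 6 (.s k5 k10 2 (.d k165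
  k245 k240 11 14))))))] (.c k208 (.l (.s k48 k32 3 (.s k80 k95 2 (.s k154 k223 10 (.s k101 k207 14
  (.s k112 k79 6 (.d k240 k176 k160 7 11))))))) .n))

def s6_170_250 : T TT 256 :=
  (.q k16 [(.s k80 k95 2 (.s k208 k144 7 (.s k149 k31 10 (.s k213 k21 7 (.d k223 k218 k154 2
  10))))), (.s k48 k32 3 (.s k80 k95 2 (.s k144 k208 7 (.s k96 k192 11 (.s k112 k64 3 (.d k240 k176
  k160 7 11)))))), (.s k48 k32 3 (.s k154 k223 10 (.s k26 k218 7 (.s k15 k37 6 (.s k5 k10 2 (.d k165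
  k245 k240 11 14))))))] (.c k208 (.l (.s k48 k32 3 (.s k80 k95 2 (.s k154 k223 10 (.s k101 k207 14
  (.s k112 k79 6 (.d k240 k176 k160 7 11))))))) .n))

def s6_170_251 : T TT 256 :=
  (.q k89 [(.s k91 k88 0 (.s k93 k81 1 (.s k95 k80 2 (.s k83 k87 1 (.d k92 k94 k86 0 2))))), (.s k81
  k93 1 (.s k91 k88 0 (.s k243 k162 12 (.s k15 k167 13 (.s k5 k10 2 (.d k165 k245 k240 11 14)))))),
  (.s k80 k95 2 (.s k88 k91 0 (.s k240 k160 11 (.s k12 k164 13 (.s k4 k8 1 (.d k166 k247 k243 12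
  14)))))), (.s k80 k95 2 (.s k81 k93 1 (.s k240 k160 11 (.s k165 k15 14 (.s k241 k13 13 (.d k243
  k242 k162 0 12))))))] .n)

def s6_170_252 : T TT 256 :=
  (.q k16 [(.s k80 k95 2 (.s k208 k144 7 (.s k149 k31 10 (.s k213 k21 7 (.d k223 k218 k154 2
  10))))), (.s k48 k32 3 (.s k80 k95 2 (.s k144 k208 7 (.s k96 k192 11 (.s k112 k64 3 (.d k240 k176
  k160 7 11)))))), (.s k48 k32 3 (.s k154 k223 10 (.s k26 k218 7 (.s k15 k37 6 (.s k5 k10 2 (.d k165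
  k245 k240 11 14))))))] (.c k208 (.l (.s k48 k32 3 (.s k80 k95 2 (.s k154 k223 10 (.s k101 k207 14
  (.s k112 k79 6 (.d k240 k176 k160 7 11))))))) .n))

def s6_170_253 : T TT 256 :=
  (.q k16 [(.s k80 k95 2 (.s k208 k144 7 (.s k149 k31 10 (.s k213 k21 7 (.d k223 k218 k154 2
  10))))), (.s k48 k32 3 (.s k80 k95 2 (.s k144 k208 7 (.s k96 k192 11 (.s k112 k64 3 (.d k240 k176
  k160 7 11)))))), (.s k48 k32 3 (.s k154 k223 10 (.s k26 k218 7 (.s k15 k37 6 (.s k5 k10 2 (.d k165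
  k245 k240 11 14))))))] (.c k208 (.l (.s k48 k32 3 (.s k80 k95 2 (.s k154 k223 10 (.s k101 k207 14
  (.s k112 k79 6 (.d k240 k176 k160 7 11))))))) .n))

def s6_170_254 : T TT 256 :=
  (.q k86 [(.s k87 k84 0 (.s k94 k82 1 (.s k95 k80 2 (.s k83 k91 1 (.d k92 k93 k89 0 2))))), (.s k84
  k87 0 (.s k94 k82 1 (.s k252 k168 13 (.s k15 k173 12 (.s k5 k10 2 (.d k165 k245 k240 11 14)))))),
  (.s k80 k95 2 (.s k84 k87 0 (.s k240 k160 11 (.s k165 k15 14 (.s k244 k7 12 (.d k252 k248 k168 1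
  13)))))), (.s k80 k95 2 (.s k82 k94 1 (.s k240 k160 11 (.s k3 k161 12 (.s k1 k2 0 (.d k169 k253
  k252 13 14))))))] .n)

def s6_170_255 : T TT 256 :=
  (.q k16 [(.s k95 k80 2 (.s k223 k154 10 (.s k31 k159 7 (.s k21 k26 2 (.d k149 k213 k208 7 10))))),
  (.s k48 k32 3 (.s k80 k95 2 (.s k144 k208 7 (.s k96 k192 11 (.s k112 k64 3 (.d k240 k176 k160 7
  11)))))), (.s k48 k32 3 (.s k154 k223 10 (.s k26 k218 7 (.s k15 k37 6 (.s k5 k10 2 (.d k165 k245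
  k240 11 14)))))), (.s k48 k32 3 (.s k80 k95 2 (.s k154 k223 10 (.s k218 k26 7 (.s k240 k160 11 (.d
  k207 k101 k229 14 6))))))] .n)

def t6_170 : T TT 256 :=
  (.q k90 [] (.c k1 s6_170_1 (.c k2 s6_170_2 (.c k3 s6_170_3 (.c k4 s6_170_4 (.c k5 s6_170_5 (.c k7
  s6_170_7 (.c k8 s6_170_8 (.c k9 s6_170_9 (.c k10 s6_170_10 (.c k11 s6_170_11 (.c k12 s6_170_12 (.c
  k13 s6_170_13 (.c k14 s6_170_14 (.c k15 s6_170_15 (.c k16 s6_170_16 (.c k17 s6_170_17 (.c k18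
  s6_170_18 (.c k19 s6_170_19 (.c k20 s6_170_20 (.c k21 s6_170_21 (.c k22 s6_170_22 (.c k23
  s6_170_23 (.c k24 s6_170_24 (.c k25 s6_170_25 (.c k26 s6_170_26 (.c k27 s6_170_27 (.c k28
  s6_170_28 (.c k29 s6_170_29 (.c k30 s6_170_30 (.c k31 s6_170_31 (.c k32 s6_170_32 (.c k33
  s6_170_33 (.c k34 s6_170_34 (.c k35 s6_170_35 (.c k36 s6_170_36 (.c k37 s6_170_37 (.c k38
  s6_170_38 (.c k39 s6_170_39 (.c k40 s6_170_40 (.c k41 s6_170_41 (.c k42 s6_170_42 (.c k43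
  s6_170_43 (.c k44 s6_170_44 (.c k45 s6_170_45 (.c k46 s6_170_46 (.c k47 s6_170_47 (.c k48
  s6_170_48 (.c k49 s6_170_49 (.c k50 s6_170_50 (.c k51 s6_170_51 (.c k52 s6_170_52 (.c k53
  s6_170_53 (.c k54 s6_170_54 (.c k55 s6_170_55 (.c k56 s6_170_56 (.c k57 s6_170_57 (.c k58
  s6_170_58 (.c k59 s6_170_59 (.c k60 s6_170_60 (.c k61 s6_170_61 (.c k62 s6_170_62 (.c k63
  s6_170_63 (.c k64 s6_170_64 (.c k65 s6_170_65 (.c k66 s6_170_66 (.c k67 s6_170_67 (.c k68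
  s6_170_68 (.c k69 s6_170_69 (.c k70 s6_170_70 (.c k71 s6_170_71 (.c k72 s6_170_72 (.c k73
  s6_170_73 (.c k74 s6_170_74 (.c k75 s6_170_75 (.c k76 s6_170_76 (.c k77 s6_170_77 (.c k78
  s6_170_78 (.c k79 s6_170_79 (.c k80 s6_170_80 (.c k81 s6_170_81 (.c k82 s6_170_82 (.c k83
  s6_170_83 (.c k84 s6_170_84 (.c k86 s6_170_86 (.c k87 s6_170_87 (.c k88 s6_170_88 (.c k89
  s6_170_89 (.c k91 s6_170_91 (.c k92 s6_170_92 (.c k93 s6_170_93 (.c k94 s6_170_94 (.c k95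
  s6_170_95 (.c k96 s6_170_96 (.c k97 s6_170_97 (.c k98 s6_170_98 (.c k99 s6_170_99 (.c k100
  s6_170_100 (.c k101 s6_170_101 (.c k102 s6_170_102 (.c k103 s6_170_103 (.c k104 s6_170_104 (.c
  k105 s6_170_105 (.c k106 s6_170_106 (.c k107 s6_170_107 (.c k108 s6_170_108 (.c k109 s6_170_109
  (.c k110 s6_170_110 (.c k111 s6_170_111 (.c k112 s6_170_112 (.c k113 s6_170_113 (.c k114
  s6_170_114 (.c k115 s6_170_115 (.c k116 s6_170_116 (.c k117 s6_170_117 (.c k118 s6_170_118 (.c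
  k119 s6_170_119 (.c k120 s6_170_120 (.c k121 s6_170_121 (.c k122 s6_170_122 (.c k123 s6_170_123
  (.c k124 s6_170_124 (.c k125 s6_170_125 (.c k126 s6_170_126 (.c k127 s6_170_127 (.c k128
  s6_170_128 (.c k129 s6_170_129 (.c k130 s6_170_130 (.c k131 s6_170_131 (.c k132 s6_170_132 (.c
  k133 s6_170_133 (.c k134 s6_170_134 (.c k135 s6_170_135 (.c k136 s6_170_136 (.c k137 s6_170_137
  (.c k138 s6_170_138 (.c k139 s6_170_139 (.c k140 s6_170_140 (.c k141 s6_170_141 (.c k142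
  s6_170_142 (.c k143 s6_170_143 (.c k144 s6_170_144 (.c k145 s6_170_145 (.c k146 s6_170_146 (.c
  k147 s6_170_147 (.c k148 s6_170_148 (.c k149 s6_170_149 (.c k150 s6_170_150 (.c k151 s6_170_151
  (.c k152 s6_170_152 (.c k153 s6_170_153 (.c k154 s6_170_154 (.c k155 s6_170_155 (.c k156
  s6_170_156 (.c k157 s6_170_157 (.c k158 s6_170_158 (.c k159 s6_170_159 (.c k160 s6_170_160 (.c
  k161 s6_170_161 (.c k162 s6_170_162 (.c k163 s6_170_163 (.c k164 s6_170_164 (.c k165 s6_170_165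
  (.c k166 s6_170_166 (.c k167 s6_170_167 (.c k168 s6_170_168 (.c k169 s6_170_169 (.c k171
  s6_170_171 (.c k172 s6_170_172 (.c k173 s6_170_173 (.c k174 s6_170_174 (.c k175 s6_170_175 (.c
  k176 s6_170_176 (.c k177 s6_170_177 (.c k178 s6_170_178 (.c k179 s6_170_179 (.c k180 s6_170_180
  (.c k181 s6_170_181 (.c k182 s6_170_182 (.c k183 s6_170_183 (.c k184 s6_170_184 (.c k185
  s6_170_185 (.c k186 s6_170_186 (.c k187 s6_170_187 (.c k188 s6_170_188 (.c k189 s6_170_189 (.c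
  k190 s6_170_190 (.c k191 s6_170_191 (.c k192 s6_170_192 (.c k193 s6_170_193 (.c k194 s6_170_194
  (.c k195 s6_170_195 (.c k196 s6_170_196 (.c k197 s6_170_197 (.c k198 s6_170_198 (.c k199
  s6_170_199 (.c k200 s6_170_200 (.c k201 s6_170_201 (.c k202 s6_170_202 (.c k203 s6_170_203 (.c
  k204 s6_170_204 (.c k205 s6_170_205 (.c k206 s6_170_206 (.c k207 s6_170_207 (.c k208 s6_170_208
  (.c k209 s6_170_209 (.c k210 s6_170_210 (.c k211 s6_170_211 (.c k212 s6_170_212 (.c k213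
  s6_170_213 (.c k214 s6_170_214 (.c k215 s6_170_215 (.c k216 s6_170_216 (.c k217 s6_170_217 (.c
  k218 s6_170_218 (.c k219 s6_170_219 (.c k220 s6_170_220 (.c k221 s6_170_221 (.c k222 s6_170_222
  (.c k223 s6_170_223 (.c k224 s6_170_224 (.c k225 s6_170_225 (.c k226 s6_170_226 (.c k227
  s6_170_227 (.c k228 s6_170_228 (.c k229 s6_170_229 (.c k230 s6_170_230 (.c k231 s6_170_231 (.c
  k232 s6_170_232 (.c k233 s6_170_233 (.c k234 s6_170_234 (.c k235 s6_170_235 (.c k236 s6_170_236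
  (.c k237 s6_170_237 (.c k238 s6_170_238 (.c k239 s6_170_239 (.c k240 s6_170_240 (.c k241
  s6_170_241 (.c k242 s6_170_242 (.c k243 s6_170_243 (.c k244 s6_170_244 (.c k245 s6_170_245 (.c
  k246 s6_170_246 (.c k247 s6_170_247 (.c k248 s6_170_248 (.c k249 s6_170_249 (.c k250 s6_170_250
  (.c k251 s6_170_251 (.c k252 s6_170_252 (.c k253 s6_170_253 (.c k254 s6_170_254 (.c k255
  s6_170_255 .n))))))))))))))))))))))))))))))))))))))))))))))))))))))))))))))))))))))))))))))))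
  ))))))))))))))))))))))))))))))))))))))))))))))))))))))))))))))))))))))))))))))))
  )))))))))))))))))))))))))))))))))))))))))))))))))))))))))))))))))))))))))))))))) ))))))))))))

/-- roots with certificates -/
def certs : List (Cell TT 256 × Cell TT 256 × T TT 256) :=
  [(k3, k170, t3_170), (k5, k170, t5_170), (k6, k170, t6_170)]

theorem c3_170 : rootOK k3 k170 t3_170 = true := by decide +kernel

theorem c5_170 : rootOK k5 k170 t5_170 = true := by decide +kernel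

theorem c6_170 : rootOK k6 k170 t6_170 = true := by decide +kernel

theorem ok : certsOK certs = true :=
  certsOK_cons c3_170 (certsOK_cons c5_170 (certsOK_cons c6_170 (certsOK_nil)))

theorem sound (k : Nat) (hk : (bits certs).testBit k = true) : PI k :=
  certs_sound certs ok k hk

end Pool.Agent.TTT.B03
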