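import Pool.Agent.TTT.Sym

set_option autoImplicit false
set_option maxRecDepth 100000

namespace Pool.Agent.TTT.B04

def s6_255_1 : T TT 256 :=
  (.q k17 [(.s k19 k18 0 (.s k223 k154 10 (.s k87 k155 9 (.s k86 k84 0 (.d k153 k221 k220 9 10))))),
  (.s k48 k32 3 (.s k51 k34 4 (.s k50 k49 0 (.s k154 k223 10 (.s k102 k206 13 (.s k68 k119 4 (.d
  k204 k136 k153 9 14))))))), (.s k19 k18 0 (.s k48 k32 3 (.s k51 k34 4 (.s k153 k221 9 (.s k204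
  k102 14 (.s k152 k100 13 (.d k220 k84 k86 9 10)))))))] (.c k153 (.l (.s k18 k19 0 (.s k48 k32 3
  (.s k3 k33 4 (.s k154 k223 10 (.s k86 k222 9 (.s k252 k169 14 (.d k84 k87 k168 0 13)))))))) .n))

def s6_255_2 : T TT 256 :=
  (.f k48 k32 3 (.q k10 [(.s k15 k5 2 (.s k26 k37 6 (.s k21 k31 2 (.d k42 k58 k63 3 6)))), (.s k15
  k5 2 (.s k154 k223 10 (.s k207 k101 14 (.s k138 k69 10 (.s k74 k202 7 (.s k133 k192 10 (.d k143
  k128 k79 2 7))))))), (.s k154 k223 10 (.s k207 k101 14 (.s k138 k69 10 (.s k202 k74 7 (.s k58 k106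
  11 (.s k42 k26 3 (.d k63 k53 k21 2 6)))))))] .n))

def s6_255_3 : T TT 256 :=
  (.f k48 k32 3 (.q k12 [(.s k8 k4 1 (.s k24 k36 5 (.s k20 k28 1 (.d k40 k56 k60 3 5)))), (.s k4 k8
  1 (.s k154 k223 10 (.s k166 k247 12 (.s k142 k178 5 (.d k207 k77 k101 8 14))))), (.s k24 k36 5 (.s
  k154 k223 10 (.s k89 k219 8 (.s k81 k93 1 (.d k243 k162 k166 12 14)))))] (.c k87 (.q k171 [(.s k8
  k4 1 (.s k24 k36 5 (.s k20 k28 1 (.d k40 k56 k60 3 5)))), (.s k4 k8 1 (.s k154 k223 10 (.s k166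
  k247 12 (.s k142 k178 5 (.d k207 k77 k101 8 14))))), (.s k24 k36 5 (.s k154 k223 10 (.s k89 k219 8
  (.s k81 k93 1 (.d k243 k162 k166 12 14)))))] .n) (.c k171 (.q k87 [(.s k8 k4 1 (.s k24 k36 5 (.s
  k20 k28 1 (.d k40 k56 k60 3 5)))), (.s k4 k8 1 (.s k154 k223 10 (.s k166 k247 12 (.s k142 k178 5
  (.d k207 k77 k101 8 14))))), (.s k24 k36 5 (.s k154 k223 10 (.s k89 k219 8 (.s k81 k93 1 (.d k243
  k162 k166 12 14)))))] .n) .n))))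

def s6_255_4 : T TT 256 :=
  (.f k48 k32 3 (.q k5 [(.s k154 k223 10 (.s k165 k245 11 (.s k143 k176 6 (.s k207 k101 14 (.d k15
  k10 k79 2 7))))), (.s k15 k10 2 (.s k26 k37 6 (.s k31 k21 2 (.s k154 k223 10 (.s k90 k218 7 (.s
  k80 k95 2 (.d k208 k144 k149 7 10))))))), (.s k15 k10 2 (.s k37 k26 6 (.s k53 k21 3 (.s k165 k245
  11 (.s k101 k229 7 (.s k69 k117 3 (.d k197 k133 k149 7 11)))))))] (.c k10 (.l (.s k154 k223 10 (.s
  k165 k245 11 (.s k176 k143 6 (.s k240 k112 7 (.s k80 k160 11 (.d k90 k95 k15 2 14))))))) (.c k15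
  (.f k154 k223 10 (.l (.s k165 k245 11 (.s k176 k143 6 (.s k207 k101 14 (.s k138 k69 10 (.s k170
  k186 3 (.s k240 k112 7 (.d k160 k175 k80 2 11))))))))) .n))))

def s6_255_5 : T TT 256 :=
  (.f k48 k32 3 (.q k4 [(.s k12 k8 1 (.s k154 k223 10 (.s k166 k247 12 (.s k142 k178 5 (.d k207 k77
  k101 8 14))))), (.s k12 k8 1 (.s k24 k36 5 (.s k28 k20 1 (.s k154 k223 10 (.s k89 k219 8 (.s k81
  k93 1 (.d k211 k146 k150 8 10))))))), (.s k12 k8 1 (.s k36 k24 5 (.s k52 k20 3 (.s k166 k247 12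
  (.s k101 k231 8 (.s k69 k117 3 (.d k199 k134 k150 8 12)))))))] (.c k8 (.l (.s k154 k223 10 (.s
  k166 k247 12 (.s k178 k142 5 (.s k243 k113 8 (.s k81 k162 12 (.d k89 k93 k12 1 14))))))) (.c k12
  (.f k154 k223 10 (.l (.s k166 k247 12 (.s k178 k142 5 (.s k207 k101 14 (.s k138 k69 10 (.s k170
  k186 3 (.s k243 k113 8 (.d k162 k174 k81 1 12))))))))) .n))))

def s6_255_7 : T TT 256 :=
  (.f k48 k32 3 (.q k166 [(.s k154 k223 10 (.s k142 k178 5 (.s k207 k101 14 (.s k12 k77 8 (.d k4 k8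
  k247 1 12))))), (.s k4 k247 12 (.s k12 k8 1 (.s k36 k24 5 (.s k52 k20 3 (.s k101 k231 8 (.s k69
  k117 3 (.d k199 k134 k150 8 12))))))), (.s k154 k223 10 (.s k178 k142 5 (.s k243 k113 8 (.s k81
  k162 12 (.d k89 k93 k12 1 14)))))] (.c k4 (.q k5 [(.s k154 k223 10 (.s k165 k245 11 (.s k143 k176
  6 (.s k207 k101 14 (.d k15 k10 k79 2 7))))), (.s k154 k223 10 (.s k178 k142 5 (.s k243 k113 8 (.s
  k81 k162 12 (.d k89 k93 k12 1 14))))), (.s k15 k10 2 (.s k165 k245 11 (.s k167 k164 0 (.s k243 k91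
  13 (.s k81 k162 12 (.d k89 k93 k12 1 14))))))] .n) (.c k5 (.l (.s k4 k247 12 (.s k12 k8 1 (.s k24
  k36 5 (.s k154 k223 10 (.d k89 k243 k219 14 8)))))) (.c k12 (.l (.s k154 k223 10 (.s k178 k142 5
  (.s k207 k101 14 (.s k138 k69 10 (.s k170 k186 3 (.s k243 k113 8 (.d k162 k174 k81 1 12))))))))
  .n)))))

def s6_255_8 : T TT 256 :=
  (.q k17 [(.s k18 k19 0 (.s k48 k32 3 (.s k3 k33 4 (.s k2 k1 0 (.d k34 k50 k51 3 4))))), (.s k19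
  k18 0 (.s k153 k221 9 (.s k86 k220 10 (.s k87 k84 0 (.d k223 k155 k154 9 10))))), (.s k48 k32 3
  (.s k51 k34 4 (.s k50 k49 0 (.s k153 k221 9 (.s k154 k223 10 (.d k102 k204 k206 14 13))))))] .n)

def s6_255_9 : T TT 256 :=
  (.q k3 [(.s k48 k32 3 (.s k18 k33 4 (.s k17 k19 0 (.s k34 k51 4 (.d k2 k1 k50 0 3))))), (.s k1 k2
  0 (.s k154 k223 10 (.s k169 k253 13 (.s k139 k184 4 (.s k207 k71 9 (.s k69 k138 10 (.d k101 k117
  k48 3 14))))))), (.s k48 k32 3 (.s k18 k33 4 (.s k154 k223 10 (.s k86 k222 9 (.s k84 k87 0 (.d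
  k252 k168 k169 13 14))))))] (.c k48 (.f k223 k154 10 (.f k1 k2 0 (.f k169 k253 13 (.l (.s k252 k86
  14 (.s k84 k168 13 (.s k220 k152 9 (.s k204 k236 3 (.s k137 k70 10 (.s k153 k185 3 (.d k221 k222
  k17 0 9))))))))))) .n))

def s6_255_10 : T TT 256 :=
  (.f k48 k32 3 (.q k2 [(.s k3 k1 0 (.s k18 k33 4 (.s k17 k19 0 (.d k34 k50 k51 3 4)))), (.s k3 k1 0
  (.s k154 k223 10 (.s k207 k101 14 (.s k138 k69 10 (.s k70 k206 9 (.s k137 k204 10 (.d k139 k136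
  k71 0 9))))))), (.s k154 k223 10 (.s k207 k101 14 (.s k138 k69 10 (.s k206 k70 9 (.s k50 k102 13
  (.s k34 k18 3 (.d k51 k49 k17 0 4)))))))] .n))

def s6_255_11 : T TT 256 :=
  (.q k17 [(.s k18 k19 0 (.s k48 k32 3 (.s k3 k33 4 (.s k2 k1 0 (.d k34 k50 k51 3 4))))), (.s k19
  k18 0 (.s k153 k221 9 (.s k86 k220 10 (.s k87 k84 0 (.d k223 k155 k154 9 10))))), (.s k48 k32 3
  (.s k51 k34 4 (.s k50 k49 0 (.s k153 k221 9 (.s k154 k223 10 (.d k102 k204 k206 14 13))))))] .n)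

def s6_255_12 : T TT 256 :=
  (.f k48 k32 3 (.q k3 [(.s k2 k1 0 (.s k18 k33 4 (.s k17 k19 0 (.d k34 k50 k51 3 4)))), (.s k1 k2 0
  (.s k154 k223 10 (.s k169 k253 13 (.s k139 k184 4 (.d k207 k71 k101 9 14))))), (.s k18 k33 4 (.s
  k154 k223 10 (.s k86 k222 9 (.s k84 k87 0 (.d k252 k168 k169 13 14)))))] (.c k93 (.q k174 [(.s k2
  k1 0 (.s k18 k33 4 (.s k17 k19 0 (.d k34 k50 k51 3 4)))), (.s k1 k2 0 (.s k154 k223 10 (.s k169
  k253 13 (.s k139 k184 4 (.d k207 k71 k101 9 14))))), (.s k18 k33 4 (.s k154 k223 10 (.s k86 k222 9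
  (.s k84 k87 0 (.d k252 k168 k169 13 14)))))] .n) (.c k174 (.q k93 [(.s k2 k1 0 (.s k18 k33 4 (.s
  k17 k19 0 (.d k34 k50 k51 3 4)))), (.s k1 k2 0 (.s k154 k223 10 (.s k169 k253 13 (.s k139 k184 4
  (.d k207 k71 k101 9 14))))), (.s k18 k33 4 (.s k154 k223 10 (.s k86 k222 9 (.s k84 k87 0 (.d k252
  k168 k169 13 14)))))] .n) .n))))

def s6_255_13 : T TT 256 :=
  (.q k17 [(.s k19 k18 0 (.s k153 k221 9 (.s k86 k220 10 (.s k87 k84 0 (.d k223 k155 k154 9 10))))),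
  (.s k18 k19 0 (.s k34 k51 4 (.s k2 k50 3 (.s k3 k1 0 (.d k48 k32 k33 3 4))))), (.s k48 k32 3 (.s
  k51 k34 4 (.s k50 k49 0 (.s k153 k221 9 (.s k154 k223 10 (.d k102 k204 k206 14 13))))))] .n)

def s6_255_14 : T TT 256 :=
  (.f k48 k32 3 (.q k2 [(.s k3 k1 0 (.s k18 k33 4 (.s k17 k19 0 (.d k34 k50 k51 3 4)))), (.s k3 k1 0
  (.s k154 k223 10 (.s k207 k101 14 (.s k138 k69 10 (.s k70 k206 9 (.s k137 k204 10 (.d k139 k136
  k71 0 9))))))), (.s k154 k223 10 (.s k207 k101 14 (.s k138 k69 10 (.s k206 k70 9 (.s k50 k102 13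
  (.s k34 k18 3 (.d k51 k49 k17 0 4)))))))] .n))

def s6_255_15 : T TT 256 :=
  (.f k48 k32 3 (.q k80 [(.s k208 k144 7 (.s k223 k154 10 (.s k213 k218 2 (.s k149 k21 7 (.d k90 k95
  k31 2 10))))), (.s k144 k208 7 (.s k96 k192 11 (.s k112 k64 3 (.d k240 k176 k160 7 11)))), (.s
  k154 k223 10 (.s k207 k101 14 (.s k240 k160 11 (.s k218 k229 6 (.d k90 k95 k26 2 7)))))] (.c k95
  (.q k175 [(.s k144 k208 7 (.s k96 k192 11 (.s k112 k64 3 (.d k240 k176 k160 7 11)))), (.s k154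
  k223 10 (.s k160 k240 11 (.s k207 k101 14 (.s k138 k69 10 (.d k170 k165 k186 2 3)))))] (.c k160
  (.l (.s k144 k208 7 (.s k96 k192 11 (.s k64 k112 3 (.s k106 k127 6 (.s k154 k223 10 (.d k101 k111
  k207 2 14))))))) (.c k240 (.l (.s k144 k208 7 (.s k154 k223 10 (.s k192 k96 11 (.s k64 k128 7 (.s
  k106 k127 6 (.d k149 k159 k63 2 14))))))) .n))) (.c k175 (.l (.s k95 k90 2 (.s k144 k208 7 (.s k96
  k192 11 (.s k112 k64 3 (.d k240 k176 k160 7 11)))))) .n))))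

def s6_255_17 : T TT 256 :=
  (.q k20 [(.s k24 k28 1 (.s k48 k32 3 (.s k12 k36 5 (.s k40 k60 5 (.d k8 k4 k56 1 3))))), (.s k28
  k24 1 (.s k150 k215 8 (.s k89 k211 10 (.s k93 k81 1 (.d k223 k158 k154 8 10))))), (.s k48 k32 3
  (.s k60 k40 5 (.s k56 k52 1 (.s k150 k215 8 (.s k154 k223 10 (.d k105 k195 k203 14 12))))))] .n)

def s6_255_18 : T TT 256 :=
  (.q k20 [(.s k28 k24 1 (.s k150 k215 8 (.s k89 k211 10 (.s k93 k81 1 (.d k223 k158 k154 8 10))))),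
  (.s k24 k28 1 (.s k40 k60 5 (.s k8 k56 3 (.s k12 k4 1 (.d k48 k32 k36 3 5))))), (.s k48 k32 3 (.s
  k60 k40 5 (.s k56 k52 1 (.s k150 k215 8 (.s k154 k223 10 (.d k105 k195 k203 14 12))))))] .n)

def s6_255_19 : T TT 256 :=
  (.q k20 [(.s k28 k24 1 (.s k150 k215 8 (.s k89 k211 10 (.s k93 k81 1 (.d k223 k158 k154 8 10))))),
  (.s k24 k28 1 (.s k40 k60 5 (.s k8 k56 3 (.s k12 k4 1 (.d k48 k32 k36 3 5))))), (.s k48 k32 3 (.s
  k60 k40 5 (.s k56 k52 1 (.s k150 k215 8 (.s k154 k223 10 (.d k105 k195 k203 14 12))))))] .n)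

def s6_255_20 : T TT 256 :=
  (.q k17 [(.s k18 k19 0 (.s k48 k32 3 (.s k3 k33 4 (.s k2 k1 0 (.d k34 k50 k51 3 4))))), (.s k19
  k18 0 (.s k153 k221 9 (.s k86 k220 10 (.s k87 k84 0 (.d k223 k155 k154 9 10))))), (.s k48 k32 3
  (.s k51 k34 4 (.s k50 k49 0 (.s k153 k221 9 (.s k154 k223 10 (.d k102 k204 k206 14 13))))))] .n)

def s6_255_21 : T TT 256 :=
  (.q k17 [(.s k19 k18 0 (.s k153 k221 9 (.s k86 k220 10 (.s k87 k84 0 (.d k223 k155 k154 9 10))))),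
  (.s k18 k19 0 (.s k34 k51 4 (.s k2 k50 3 (.s k3 k1 0 (.d k48 k32 k33 3 4))))), (.s k48 k32 3 (.s
  k51 k34 4 (.s k50 k49 0 (.s k153 k221 9 (.s k154 k223 10 (.d k102 k204 k206 14 13))))))] .n)

def s6_255_22 : T TT 256 :=
  (.f k48 k32 3 (.f k223 k154 10 (.q k84 [(.s k152 k220 9 (.s k100 k204 13 (.s k116 k68 3 (.d k252
  k184 k168 9 13)))), (.s k86 k87 0 (.s k220 k152 9 (.s k153 k19 10 (.d k221 k222 k17 0 9)))), (.s
  k86 k87 0 (.s k252 k168 13 (.s k3 k169 14 (.s k2 k1 0 (.s k18 k33 4 (.s k17 k19 0 (.d k34 k50 k51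
  3 4)))))))] (.c k38 (.q k54 [(.s k152 k220 9 (.s k100 k204 13 (.s k116 k68 3 (.d k252 k184 k168 9
  13)))), (.s k86 k87 0 (.s k220 k152 9 (.s k153 k19 10 (.d k221 k222 k17 0 9)))), (.s k86 k87 0 (.s
  k252 k168 13 (.s k3 k169 14 (.s k2 k1 0 (.s k18 k33 4 (.s k17 k19 0 (.d k34 k50 k51 3 4)))))))]
  .n) (.c k54 (.q k38 [(.s k152 k220 9 (.s k100 k204 13 (.s k116 k68 3 (.d k252 k184 k168 9 13)))),
  (.s k86 k87 0 (.s k220 k152 9 (.s k153 k19 10 (.d k221 k222 k17 0 9)))), (.s k86 k87 0 (.s k252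
  k168 13 (.s k3 k169 14 (.s k2 k1 0 (.s k18 k33 4 (.s k17 k19 0 (.d k34 k50 k51 3 4)))))))] .n)
  .n)))))

def s6_255_23 : T TT 256 :=
  (.q k17 [(.s k19 k18 0 (.s k153 k221 9 (.s k86 k220 10 (.s k87 k84 0 (.d k223 k155 k154 9 10))))),
  (.s k18 k19 0 (.s k34 k51 4 (.s k2 k50 3 (.s k3 k1 0 (.d k48 k32 k33 3 4))))), (.s k48 k32 3 (.s
  k51 k34 4 (.s k50 k49 0 (.s k153 k221 9 (.s k154 k223 10 (.d k102 k204 k206 14 13))))))] .n)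

def s6_255_24 : T TT 256 :=
  (.q k17 [(.s k18 k19 0 (.s k48 k32 3 (.s k3 k33 4 (.s k2 k1 0 (.d k34 k50 k51 3 4))))), (.s k19
  k18 0 (.s k153 k221 9 (.s k86 k220 10 (.s k87 k84 0 (.d k223 k155 k154 9 10))))), (.s k48 k32 3
  (.s k51 k34 4 (.s k50 k49 0 (.s k153 k221 9 (.s k154 k223 10 (.d k102 k204 k206 14 13))))))] .n)

def s6_255_25 : T TT 256 :=
  (.q k17 [(.s k19 k18 0 (.s k153 k221 9 (.s k86 k220 10 (.s k87 k84 0 (.d k223 k155 k154 9 10))))),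
  (.s k18 k19 0 (.s k34 k51 4 (.s k2 k50 3 (.s k3 k1 0 (.d k48 k32 k33 3 4))))), (.s k48 k32 3 (.s
  k51 k34 4 (.s k50 k49 0 (.s k153 k221 9 (.s k154 k223 10 (.d k102 k204 k206 14 13))))))] .n)

def s6_255_26 : T TT 256 :=
  (.q k17 [(.s k18 k19 0 (.s k48 k32 3 (.s k3 k33 4 (.s k2 k1 0 (.d k34 k50 k51 3 4))))), (.s k19
  k18 0 (.s k153 k221 9 (.s k86 k220 10 (.s k87 k84 0 (.d k223 k155 k154 9 10))))), (.s k48 k32 3
  (.s k51 k34 4 (.s k50 k49 0 (.s k153 k221 9 (.s k154 k223 10 (.d k102 k204 k206 14 13))))))] .n)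

def s6_255_27 : T TT 256 :=
  (.q k17 [(.s k19 k18 0 (.s k153 k221 9 (.s k86 k220 10 (.s k87 k84 0 (.d k223 k155 k154 9 10))))),
  (.s k18 k19 0 (.s k34 k51 4 (.s k2 k50 3 (.s k3 k1 0 (.d k48 k32 k33 3 4))))), (.s k48 k32 3 (.s
  k51 k34 4 (.s k50 k49 0 (.s k153 k221 9 (.s k154 k223 10 (.d k102 k204 k206 14 13))))))] .n)

def s6_255_28 : T TT 256 :=
  (.q k17 [(.s k18 k19 0 (.s k48 k32 3 (.s k3 k33 4 (.s k2 k1 0 (.d k34 k50 k51 3 4))))), (.s k19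
  k18 0 (.s k153 k221 9 (.s k86 k220 10 (.s k87 k84 0 (.d k223 k155 k154 9 10))))), (.s k48 k32 3
  (.s k51 k34 4 (.s k50 k49 0 (.s k153 k221 9 (.s k154 k223 10 (.d k102 k204 k206 14 13))))))] .n)

def s6_255_29 : T TT 256 :=
  (.q k17 [(.s k18 k19 0 (.s k48 k32 3 (.s k3 k33 4 (.s k2 k1 0 (.d k34 k50 k51 3 4))))), (.s k19
  k18 0 (.s k153 k221 9 (.s k86 k220 10 (.s k87 k84 0 (.d k223 k155 k154 9 10))))), (.s k48 k32 3
  (.s k51 k34 4 (.s k50 k49 0 (.s k153 k221 9 (.s k154 k223 10 (.d k102 k204 k206 14 13))))))] .n)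

def s6_255_30 : T TT 256 :=
  (.q k17 [(.s k18 k19 0 (.s k48 k32 3 (.s k3 k33 4 (.s k2 k1 0 (.d k34 k50 k51 3 4))))), (.s k19
  k18 0 (.s k153 k221 9 (.s k86 k220 10 (.s k87 k84 0 (.d k223 k155 k154 9 10))))), (.s k48 k32 3
  (.s k51 k34 4 (.s k50 k49 0 (.s k153 k221 9 (.s k154 k223 10 (.d k102 k204 k206 14 13))))))] .n)

def s6_255_31 : T TT 256 :=
  (.q k17 [(.s k18 k19 0 (.s k48 k32 3 (.s k3 k33 4 (.s k2 k1 0 (.d k34 k50 k51 3 4))))), (.s k19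
  k18 0 (.s k153 k221 9 (.s k86 k220 10 (.s k87 k84 0 (.d k223 k155 k154 9 10))))), (.s k48 k32 3
  (.s k51 k34 4 (.s k50 k49 0 (.s k153 k221 9 (.s k154 k223 10 (.d k102 k204 k206 14 13))))))] .n)

def s6_255_32 : T TT 256 :=
  (.q k80 [(.s k208 k144 7 (.s k223 k154 10 (.s k213 k218 2 (.s k149 k21 7 (.d k90 k95 k31 2
  10))))), (.s k90 k95 2 (.s k154 k223 10 (.s k218 k26 7 (.s k240 k160 11 (.s k207 k229 6 (.s k69
  k138 10 (.d k101 k117 k48 3 14))))))), (.s k90 k95 2 (.s k208 k144 7 (.s k149 k31 10 (.s k21 k213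
  7 (.s k63 k42 6 (.s k192 k106 14 (.d k240 k224 k160 3 11)))))))] (.c k31 (.q k3 [(.s k2 k1 0 (.s
  k240 k160 11 (.s k82 k161 12 (.s k81 k83 0 (.d k162 k242 k243 11 12))))), (.s k1 k2 0 (.s k154
  k223 10 (.s k169 k253 13 (.s k139 k184 4 (.s k207 k71 9 (.s k69 k138 10 (.d k101 k117 k48 3
  14))))))), (.s k90 k95 2 (.s k240 k160 11 (.s k82 k161 12 (.s k86 k94 1 (.s k84 k87 0 (.d k252
  k168 k169 13 14))))))] .n) (.c k90 (.q k3 [(.s k2 k1 0 (.s k240 k160 11 (.s k82 k161 12 (.s k81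
  k83 0 (.d k162 k242 k243 11 12))))), (.s k1 k2 0 (.s k154 k223 10 (.s k169 k253 13 (.s k139 k184 4
  (.s k207 k71 9 (.s k69 k138 10 (.d k101 k117 k48 3 14))))))), (.s k208 k144 7 (.s k240 k160 11 (.s
  k82 k161 12 (.s k19 k145 8 (.s k17 k18 0 (.d k51 k35 k34 3 4))))))] .n) (.c k95 (.f k160 k240 11
  (.f k144 k208 7 (.f k128 k176 3 (.l (.s k154 k223 10 (.s k192 k64 7 (.s k48 k96 11 (.s k207 k101
  14 (.s k138 k69 10 (.s k170 k186 3 (.d k149 k159 k191 2 6))))))))))) (.c k159 (.l (.s k90 k95 2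
  (.s k208 k144 7 (.s k31 k149 10 (.s k154 k223 10 (.d k26 k21 k218 2 7)))))) (.c k223 (.l (.s k90
  k95 2 (.s k208 k144 7 (.s k31 k149 10 (.s k21 k26 2 (.s k63 k42 6 (.s k240 k160 11 (.d k15 k47
  k165 3 14)))))))) .n))))))

def s6_255_33 : T TT 256 :=
  (.q k20 [(.s k28 k24 1 (.s k150 k215 8 (.s k89 k211 10 (.s k93 k81 1 (.d k223 k158 k154 8 10))))),
  (.s k24 k28 1 (.s k40 k60 5 (.s k8 k56 3 (.s k12 k4 1 (.d k48 k32 k36 3 5))))), (.s k48 k32 3 (.s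
  k60 k40 5 (.s k56 k52 1 (.s k150 k215 8 (.s k154 k223 10 (.d k105 k195 k203 14 12))))))] .n)

def s6_255_34 : T TT 256 :=
  (.q k20 [(.s k28 k24 1 (.s k150 k215 8 (.s k89 k211 10 (.s k93 k81 1 (.d k223 k158 k154 8 10))))),
  (.s k24 k28 1 (.s k40 k60 5 (.s k8 k56 3 (.s k12 k4 1 (.d k48 k32 k36 3 5))))), (.s k48 k32 3 (.s
  k60 k40 5 (.s k56 k52 1 (.s k150 k215 8 (.s k154 k223 10 (.d k105 k195 k203 14 12))))))] .n)

def s6_255_35 : T TT 256 :=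
  (.q k17 [(.s k18 k19 0 (.s k48 k32 3 (.s k3 k33 4 (.s k34 k51 4 (.d k2 k1 k50 0 3))))), (.s k19
  k18 0 (.s k153 k221 9 (.s k86 k220 10 (.s k87 k84 0 (.d k223 k155 k154 9 10))))), (.s k48 k32 3
  (.s k153 k221 9 (.s k154 k223 10 (.s k155 k152 0 (.s k207 k101 14 (.d k51 k34 k103 4 13))))))] .n)

def s6_255_36 : T TT 256 :=
  (.q k17 [(.s k19 k18 0 (.s k153 k221 9 (.s k86 k220 10 (.s k87 k84 0 (.d k223 k155 k154 9 10))))),
  (.s k18 k19 0 (.s k34 k51 4 (.s k2 k50 3 (.s k3 k1 0 (.d k48 k32 k33 3 4))))), (.s k48 k32 3 (.s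
  k51 k34 4 (.s k50 k49 0 (.s k153 k221 9 (.s k154 k223 10 (.d k102 k204 k206 14 13))))))] .n)

def s6_255_37 : T TT 256 :=
  (.q k17 [(.s k19 k18 0 (.s k153 k221 9 (.s k86 k220 10 (.s k87 k84 0 (.d k223 k155 k154 9 10))))),
  (.s k18 k19 0 (.s k34 k51 4 (.s k2 k50 3 (.s k3 k1 0 (.d k48 k32 k33 3 4))))), (.s k48 k32 3 (.s
  k51 k34 4 (.s k50 k49 0 (.s k153 k221 9 (.s k154 k223 10 (.d k102 k204 k206 14 13))))))] .n)

def s6_255_38 : T TT 256 :=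
  (.f k223 k154 10 (.f k48 k32 3 (.q k84 [(.s k86 k87 0 (.s k220 k152 9 (.s k153 k19 10 (.d k221
  k222 k17 0 9)))), (.s k152 k220 9 (.s k168 k252 13 (.s k136 k184 3 (.d k204 k68 k100 9 13)))), (.s
  k86 k87 0 (.s k252 k168 13 (.s k3 k169 14 (.s k2 k1 0 (.s k18 k33 4 (.s k17 k19 0 (.d k34 k50 k51
  3 4)))))))] (.c k22 (.q k54 [(.s k152 k220 9 (.s k100 k204 13 (.s k116 k68 3 (.d k252 k184 k168 9
  13)))), (.s k86 k87 0 (.s k220 k152 9 (.s k153 k19 10 (.d k221 k222 k17 0 9)))), (.s k86 k87 0 (.s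
  k252 k168 13 (.s k3 k169 14 (.s k2 k1 0 (.s k18 k33 4 (.s k17 k19 0 (.d k34 k50 k51 3 4)))))))]
  .n) (.c k54 (.q k22 [(.s k86 k87 0 (.s k220 k152 9 (.s k153 k19 10 (.d k221 k222 k17 0 9)))), (.s
  k152 k220 9 (.s k168 k252 13 (.s k136 k184 3 (.d k204 k68 k100 9 13)))), (.s k86 k87 0 (.s k150
  k214 7 (.s k20 k215 8 (.s k23 k21 0 (.d k212 k148 k149 7 8)))))] .n) .n)))))

def s6_255_39 : T TT 256 :=
  (.q k17 [(.s k18 k19 0 (.s k48 k32 3 (.s k3 k33 4 (.s k2 k1 0 (.d k34 k50 k51 3 4))))), (.s k19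
  k18 0 (.s k153 k221 9 (.s k86 k220 10 (.s k87 k84 0 (.d k223 k155 k154 9 10))))), (.s k48 k32 3
  (.s k51 k34 4 (.s k50 k49 0 (.s k153 k221 9 (.s k154 k223 10 (.d k102 k204 k206 14 13))))))] .n)

def s6_255_40 : T TT 256 :=
  (.q k17 [(.s k19 k18 0 (.s k153 k221 9 (.s k86 k220 10 (.s k87 k84 0 (.d k223 k155 k154 9 10))))),
  (.s k18 k19 0 (.s k34 k51 4 (.s k2 k50 3 (.s k3 k1 0 (.d k48 k32 k33 3 4))))), (.s k48 k32 3 (.s
  k51 k34 4 (.s k50 k49 0 (.s k153 k221 9 (.s k154 k223 10 (.d k102 k204 k206 14 13))))))] .n)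

def s6_255_41 : T TT 256 :=
  (.q k17 [(.s k19 k18 0 (.s k153 k221 9 (.s k86 k220 10 (.s k87 k84 0 (.d k223 k155 k154 9 10))))),
  (.s k18 k19 0 (.s k34 k51 4 (.s k2 k50 3 (.s k3 k1 0 (.d k48 k32 k33 3 4))))), (.s k48 k32 3 (.s
  k51 k34 4 (.s k50 k49 0 (.s k153 k221 9 (.s k154 k223 10 (.d k102 k204 k206 14 13))))))] .n)

def s6_255_42 : T TT 256 :=
  (.q k17 [(.s k19 k18 0 (.s k153 k221 9 (.s k86 k220 10 (.s k87 k84 0 (.d k223 k155 k154 9 10))))),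
  (.s k18 k19 0 (.s k34 k51 4 (.s k2 k50 3 (.s k3 k1 0 (.d k48 k32 k33 3 4))))), (.s k48 k32 3 (.s
  k51 k34 4 (.s k50 k49 0 (.s k153 k221 9 (.s k154 k223 10 (.d k102 k204 k206 14 13))))))] .n)

def s6_255_43 : T TT 256 :=
  (.q k17 [(.s k18 k19 0 (.s k48 k32 3 (.s k3 k33 4 (.s k2 k1 0 (.d k34 k50 k51 3 4))))), (.s k19
  k18 0 (.s k153 k221 9 (.s k86 k220 10 (.s k87 k84 0 (.d k223 k155 k154 9 10))))), (.s k48 k32 3
  (.s k51 k34 4 (.s k50 k49 0 (.s k153 k221 9 (.s k154 k223 10 (.d k102 k204 k206 14 13))))))] .n)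

def s6_255_44 : T TT 256 :=
  (.q k17 [(.s k19 k18 0 (.s k153 k221 9 (.s k86 k220 10 (.s k87 k84 0 (.d k223 k155 k154 9 10))))),
  (.s k18 k19 0 (.s k34 k51 4 (.s k2 k50 3 (.s k3 k1 0 (.d k48 k32 k33 3 4))))), (.s k48 k32 3 (.s
  k51 k34 4 (.s k50 k49 0 (.s k153 k221 9 (.s k154 k223 10 (.d k102 k204 k206 14 13))))))] .n)

def s6_255_45 : T TT 256 :=
  (.q k17 [(.s k19 k18 0 (.s k153 k221 9 (.s k86 k220 10 (.s k87 k84 0 (.d k223 k155 k154 9 10))))),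
  (.s k18 k19 0 (.s k34 k51 4 (.s k2 k50 3 (.s k3 k1 0 (.d k48 k32 k33 3 4))))), (.s k48 k32 3 (.s
  k51 k34 4 (.s k50 k49 0 (.s k153 k221 9 (.s k154 k223 10 (.d k102 k204 k206 14 13))))))] .n)

def s6_255_46 : T TT 256 :=
  (.q k17 [(.s k18 k19 0 (.s k48 k32 3 (.s k3 k33 4 (.s k2 k1 0 (.d k34 k50 k51 3 4))))), (.s k19
  k18 0 (.s k153 k221 9 (.s k86 k220 10 (.s k87 k84 0 (.d k223 k155 k154 9 10))))), (.s k48 k32 3
  (.s k51 k34 4 (.s k50 k49 0 (.s k153 k221 9 (.s k154 k223 10 (.d k102 k204 k206 14 13))))))] .n)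

def s6_255_47 : T TT 256 :=
  (.q k17 [(.s k19 k18 0 (.s k153 k221 9 (.s k86 k220 10 (.s k87 k84 0 (.d k223 k155 k154 9 10))))),
  (.s k18 k19 0 (.s k34 k51 4 (.s k2 k50 3 (.s k3 k1 0 (.d k48 k32 k33 3 4))))), (.s k48 k32 3 (.s
  k51 k34 4 (.s k50 k49 0 (.s k153 k221 9 (.s k154 k223 10 (.d k102 k204 k206 14 13))))))] .n)

def s6_255_48 : T TT 256 :=
  (.q k153 [(.s k221 k17 9 (.s k223 k154 10 (.s k220 k222 0 (.s k86 k19 10 (.d k84 k87 k152 0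
  9))))), (.s k17 k221 9 (.s k19 k18 0 (.s k51 k34 4 (.s k3 k35 3 (.s k86 k220 10 (.s k169 k252 14
  (.d k1 k2 k253 0 13)))))))] (.c k17 (.q k216 [(.s k27 k90 8 (.s k154 k223 10 (.s k152 k155 0 (.s
  k24 k88 7 (.s k25 k26 0 (.d k89 k217 k219 7 8)))))), (.s k90 k27 8 (.s k80 k95 2 (.s k208 k144 7
  (.s k220 k212 1 (.s k84 k152 9 (.d k86 k87 k19 0 10)))))), (.s k27 k90 8 (.s k154 k223 10 (.s k155
  k152 0 (.s k219 k91 7 (.s k89 k24 8 (.d k217 k218 k25 0 7)))))), (.s k154 k223 10 (.s k152 k155 0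
  (.s k88 k24 7 (.s k220 k84 9 (.s k208 k212 1 (.s k144 k80 7 (.d k148 k156 k28 1 9)))))))] (.c k117
  (.q k186 [(.s k27 k90 8 (.s k154 k223 10 (.s k152 k155 0 (.s k24 k88 7 (.s k25 k26 0 (.d k89 k217
  k219 7 8)))))), (.s k90 k27 8 (.s k80 k95 2 (.s k208 k144 7 (.s k220 k212 1 (.s k84 k152 9 (.d k86
  k87 k19 0 10)))))), (.s k27 k90 8 (.s k154 k223 10 (.s k155 k152 0 (.s k219 k91 7 (.s k89 k24 8
  (.d k217 k218 k25 0 7)))))), (.s k154 k223 10 (.s k152 k155 0 (.s k84 k220 9 (.s k168 k252 13 (.s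
  k170 k138 3 (.d k136 k184 k187 3 4))))))] (.c k152 (.l (.s k90 k27 8 (.s k80 k95 2 (.s k154 k223
  10 (.s k26 k218 7 (.s k31 k21 2 (.d k208 k144 k149 7 10))))))) .n)) (.c k152 (.l (.s k90 k27 8 (.s
  k80 k95 2 (.s k154 k223 10 (.s k26 k218 7 (.s k31 k21 2 (.d k208 k144 k149 7 10))))))) (.c k186
  (.q k117 [(.s k90 k27 8 (.s k80 k95 2 (.s k101 k69 3 (.s k112 k79 6 (.s k64 k96 3 (.d k127 k122
  k106 2 6)))))), (.s k154 k223 10 (.s k152 k155 0 (.s k24 k88 7 (.s k28 k20 1 (.s k89 k219 8 (.s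
  k81 k93 1 (.d k211 k146 k150 8 10)))))))] (.c k27 (.l (.s k154 k223 10 (.s k152 k155 0 (.s k88 k24
  7 (.s k220 k84 9 (.s k208 k212 1 (.s k144 k80 7 (.d k148 k156 k28 1 9)))))))) .n)) .n)))) (.c k18
  (.l (.s k221 k17 9 (.s k223 k154 10 (.s k220 k222 0 (.s k86 k19 10 (.d k84 k87 k152 0 9)))))) (.c
  k19 (.f k221 k17 9 (.l (.s k223 k154 10 (.s k220 k222 0 (.s k84 k152 9 (.s k252 k168 13 (.s k204
  k236 3 (.s k102 k51 14 (.d k68 k119 k136 4 9))))))))) (.c k86 (.f k17 k221 9 (.l (.s k51 k34 4 (.s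
  k154 k223 10 (.s k152 k155 0 (.s k204 k102 14 (.s k136 k68 9 (.s k168 k184 3 (.d k84 k220 k252 9
  13))))))))) (.c k117 (.q k186 [(.s k221 k17 9 (.s k223 k154 10 (.s k220 k222 0 (.s k86 k19 10 (.d
  k84 k87 k152 0 9))))), (.s k17 k221 9 (.s k51 k34 4 (.s k204 k102 14 (.s k136 k68 9 (.s k170 k187
  4 (.d k154 k138 k223 3 10)))))), (.s k154 k223 10 (.s k152 k155 0 (.s k170 k138 3 (.s k136 k187 4
  (.s k168 k184 3 (.d k84 k252 k220 13 9))))))] (.c k154 (.l (.s k17 k221 9 (.s k19 k18 0 (.s k51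
  k34 4 (.s k3 k35 3 (.s k86 k220 10 (.s k84 k87 0 (.d k252 k168 k169 13 14)))))))) (.c k223 (.l (.s
  k17 k221 9 (.s k19 k18 0 (.s k51 k34 4 (.s k204 k102 14 (.s k220 k86 10 (.s k84 k152 9 (.d k252
  k236 k168 3 13)))))))) .n))) (.c k186 (.q k117 [(.s k101 k69 3 (.s k49 k205 13 (.s k253 k185 9 (.s
  k1 k169 13 (.d k17 k33 k221 3 9))))), (.s k17 k221 9 (.s k154 k223 10 (.s k152 k155 0 (.s k220 k84
  9 (.d k19 k18 k86 0 10)))))] (.c k17 (.q k1 [(.s k101 k69 3 (.s k49 k205 13 (.d k253 k185 k169 9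
  13))), (.s k3 k2 0 (.s k154 k223 10 (.s k152 k155 0 (.s k84 k220 9 (.s k169 k253 13 (.d k86 k87
  k252 0 14)))))), (.s k3 k2 0 (.s k69 k101 3 (.s k137 k205 9 (.s k70 k204 10 (.s k71 k68 0 (.d k207
  k139 k138 9 10))))))] .n) (.c k221 (.f k101 k69 3 (.l (.s k49 k205 13 (.s k253 k185 9 (.s k1 k169
  13 (.s k2 k3 0 (.s k17 k33 3 (.s k18 k19 0 (.d k34 k51 k50 4 3))))))))) .n))) (.c k220 (.f k17
  k221 9 (.l (.s k19 k18 0 (.s k51 k34 4 (.s k3 k35 3 (.s k204 k102 14 (.s k137 k70 10 (.s k169 k185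
  3 (.d k1 k2 k253 0 13))))))))) (.c k221 (.q k204 [(.s k68 k136 9 (.d k102 k119 k51 4 14)), (.s
  k136 k68 9 (.s k154 k223 10 (.s k152 k155 0 (.s k168 k184 3 (.d k84 k220 k252 9 13))))), (.s k51
  k102 14 (.s k17 k34 4 (.s k19 k18 0 (.s k86 k220 10 (.s k87 k84 0 (.d k223 k155 k154 9 10))))))]
  (.c k117 (.q k186 [(.s k68 k136 9 (.d k102 k119 k51 4 14)), (.s k136 k68 9 (.s k154 k223 10 (.d
  k170 k138 k187 3 4))), (.s k51 k102 14 (.s k154 k223 10 (.s k138 k170 3 (.s k155 k152 0 (.d k207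
  k69 k103 10 13)))))] .n) (.c k186 (.q k117 [(.s k68 k136 9 (.d k102 k119 k51 4 14)), (.s k136 k68
  9 (.s k154 k223 10 (.s k152 k155 0 (.s k168 k184 3 (.d k84 k220 k252 9 13))))), (.s k51 k102 14
  (.s k69 k101 3 (.s k154 k223 10 (.s k155 k152 0 (.d k207 k103 k138 13 10)))))] .n) .n))) (.c k222
  (.l (.s k17 k221 9 (.s k19 k18 0 (.s k86 k220 10 (.s k223 k154 10 (.d k87 k84 k155 0 9)))))) (.c
  k223 (.l (.s k17 k221 9 (.s k19 k18 0 (.s k51 k34 4 (.s k204 k102 14 (.s k220 k86 10 (.s k84 k152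
  9 (.d k252 k236 k168 3 13)))))))) .n)))))))))))

def s6_255_49 : T TT 256 :=
  (.q k17 [(.s k18 k19 0 (.s k48 k32 3 (.s k3 k33 4 (.s k2 k1 0 (.d k34 k50 k51 3 4))))), (.s k19
  k18 0 (.s k153 k221 9 (.s k86 k220 10 (.s k87 k84 0 (.d k223 k155 k154 9 10))))), (.s k48 k32 3
  (.s k51 k34 4 (.s k153 k221 9 (.s k154 k223 10 (.s k155 k152 0 (.d k207 k103 k101 13 14))))))] .n)

def s6_255_50 : T TT 256 :=
  (.q k17 [(.s k19 k18 0 (.s k153 k221 9 (.s k86 k220 10 (.s k87 k84 0 (.d k223 k155 k154 9 10))))),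
  (.s k18 k19 0 (.s k48 k32 3 (.s k33 k3 4 (.s k1 k49 3 (.s k169 k253 13 (.s k101 k237 9 (.d k154
  k223 k207 10 14))))))), (.s k48 k32 3 (.s k51 k34 4 (.s k153 k221 9 (.s k154 k223 10 (.s k155 k152
  0 (.d k207 k103 k101 13 14))))))] (.c k18 (.l (.s k48 k32 3 (.s k153 k221 9 (.s k154 k223 10 (.s
  k152 k155 0 (.s k204 k100 13 (.d k51 k34 k102 4 14))))))) (.c k154 (.l (.s k19 k18 0 (.s k153 k221
  9 (.s k86 k220 10 (.s k84 k87 0 (.s k252 k168 13 (.s k3 k169 14 (.d k51 k34 k35 4 3)))))))) (.c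
  k221 (.l (.s k18 k19 0 (.s k48 k32 3 (.s k3 k33 4 (.s k1 k2 0 (.s k154 k223 10 (.s k169 k253 13
  (.d k86 k222 k252 9 14)))))))) (.c k223 (.l (.s k19 k18 0 (.s k48 k32 3 (.s k153 k221 9 (.s k220
  k86 10 (.s k152 k84 9 (.s k204 k100 13 (.d k51 k34 k102 4 14)))))))) .n)))))

def s6_255_51 : T TT 256 :=
  (.f k48 k32 3 (.f k223 k154 10 (.q k80 [(.s k90 k95 2 (.s k208 k144 7 (.s k149 k31 10 (.d k213
  k218 k21 2 7)))), (.s k144 k208 7 (.s k160 k240 11 (.s k128 k176 3 (.d k192 k64 k96 7 11)))), (.s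
  k90 k95 2 (.s k240 k160 11 (.s k15 k165 14 (.s k10 k5 2 (.s k26 k37 6 (.s k21 k31 2 (.d k42 k58
  k63 3 6)))))))] (.c k119 (.q k187 [(.s k90 k95 2 (.s k208 k144 7 (.s k149 k31 10 (.d k213 k218 k21
  2 7)))), (.s k144 k208 7 (.s k160 k240 11 (.s k128 k176 3 (.d k192 k64 k96 7 11)))), (.s k90 k95 2
  (.s k240 k160 11 (.s k15 k165 14 (.s k10 k5 2 (.s k26 k37 6 (.s k21 k31 2 (.d k42 k58 k63 3
  6)))))))] .n) (.c k187 (.q k119 [(.s k90 k95 2 (.s k208 k144 7 (.s k149 k31 10 (.d k213 k218 k21 2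
  7)))), (.s k68 k102 4 (.s k204 k136 9 (.s k100 k152 13 (.s k84 k116 3 (.s k88 k92 1 (.s k112 k76 5
  (.d k240 k176 k160 7 11)))))))] .n) .n)))))

def s6_255_52 : T TT 256 :=
  (.q k17 [(.s k18 k19 0 (.s k48 k32 3 (.s k3 k33 4 (.s k2 k1 0 (.d k34 k50 k51 3 4))))), (.s k19
  k18 0 (.s k153 k221 9 (.s k86 k220 10 (.s k87 k84 0 (.d k223 k155 k154 9 10))))), (.s k48 k32 3
  (.s k51 k34 4 (.s k50 k49 0 (.s k153 k221 9 (.s k154 k223 10 (.d k102 k204 k206 14 13))))))] .n)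

def s6_255_53 : T TT 256 :=
  (.q k17 [(.s k18 k19 0 (.s k48 k32 3 (.s k3 k33 4 (.s k2 k1 0 (.d k34 k50 k51 3 4))))), (.s k19
  k18 0 (.s k153 k221 9 (.s k86 k220 10 (.s k87 k84 0 (.d k223 k155 k154 9 10))))), (.s k48 k32 3
  (.s k51 k34 4 (.s k50 k49 0 (.s k153 k221 9 (.s k154 k223 10 (.d k102 k204 k206 14 13))))))] .n)

def s6_255_54 : T TT 256 :=
  (.f k48 k32 3 (.f k223 k154 10 (.q k84 [(.s k86 k87 0 (.s k220 k152 9 (.s k153 k19 10 (.d k221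
  k222 k17 0 9)))), (.s k152 k220 9 (.s k168 k252 13 (.s k136 k184 3 (.d k204 k68 k100 9 13)))), (.s
  k86 k87 0 (.s k252 k168 13 (.s k3 k169 14 (.s k2 k1 0 (.s k18 k33 4 (.s k17 k19 0 (.d k34 k50 k51
  3 4)))))))] (.c k22 (.q k38 [(.s k152 k220 9 (.s k100 k204 13 (.s k116 k68 3 (.d k252 k184 k168 9
  13)))), (.s k86 k87 0 (.s k220 k152 9 (.s k153 k19 10 (.d k221 k222 k17 0 9)))), (.s k86 k87 0 (.s
  k252 k168 13 (.s k3 k169 14 (.s k2 k1 0 (.s k18 k33 4 (.s k17 k19 0 (.d k34 k50 k51 3 4)))))))]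
  .n) (.c k38 (.q k22 [(.s k86 k87 0 (.s k220 k152 9 (.s k153 k19 10 (.d k221 k222 k17 0 9)))), (.s
  k152 k220 9 (.s k168 k252 13 (.s k136 k184 3 (.d k204 k68 k100 9 13)))), (.s k86 k87 0 (.s k150
  k214 7 (.s k20 k215 8 (.s k23 k21 0 (.d k212 k148 k149 7 8)))))] .n) .n)))))

def s6_255_55 : T TT 256 :=
  (.q k17 [(.s k18 k19 0 (.s k48 k32 3 (.s k3 k33 4 (.s k2 k1 0 (.d k34 k50 k51 3 4))))), (.s k19
  k18 0 (.s k153 k221 9 (.s k86 k220 10 (.s k87 k84 0 (.d k223 k155 k154 9 10))))), (.s k48 k32 3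
  (.s k51 k34 4 (.s k50 k49 0 (.s k153 k221 9 (.s k154 k223 10 (.d k102 k204 k206 14 13))))))] .n)

def s6_255_56 : T TT 256 :=
  (.q k17 [(.s k18 k19 0 (.s k48 k32 3 (.s k3 k33 4 (.s k2 k1 0 (.d k34 k50 k51 3 4))))), (.s k19
  k18 0 (.s k153 k221 9 (.s k86 k220 10 (.s k87 k84 0 (.d k223 k155 k154 9 10))))), (.s k48 k32 3
  (.s k51 k34 4 (.s k50 k49 0 (.s k153 k221 9 (.s k154 k223 10 (.d k102 k204 k206 14 13))))))] .n)

def s6_255_57 : T TT 256 :=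
  (.q k17 [(.s k18 k19 0 (.s k48 k32 3 (.s k3 k33 4 (.s k2 k1 0 (.d k34 k50 k51 3 4))))), (.s k19
  k18 0 (.s k153 k221 9 (.s k86 k220 10 (.s k87 k84 0 (.d k223 k155 k154 9 10))))), (.s k48 k32 3
  (.s k51 k34 4 (.s k50 k49 0 (.s k153 k221 9 (.s k154 k223 10 (.d k102 k204 k206 14 13))))))] .n)

def s6_255_58 : T TT 256 :=
  (.q k17 [(.s k18 k19 0 (.s k48 k32 3 (.s k3 k33 4 (.s k2 k1 0 (.d k34 k50 k51 3 4))))), (.s k19
  k18 0 (.s k153 k221 9 (.s k86 k220 10 (.s k87 k84 0 (.d k223 k155 k154 9 10))))), (.s k48 k32 3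
  (.s k51 k34 4 (.s k50 k49 0 (.s k153 k221 9 (.s k154 k223 10 (.d k102 k204 k206 14 13))))))] .n)

def s6_255_59 : T TT 256 :=
  (.q k17 [(.s k18 k19 0 (.s k48 k32 3 (.s k3 k33 4 (.s k2 k1 0 (.d k34 k50 k51 3 4))))), (.s k19
  k18 0 (.s k153 k221 9 (.s k86 k220 10 (.s k87 k84 0 (.d k223 k155 k154 9 10))))), (.s k48 k32 3
  (.s k51 k34 4 (.s k50 k49 0 (.s k153 k221 9 (.s k154 k223 10 (.d k102 k204 k206 14 13))))))] .n)

def s6_255_60 : T TT 256 :=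
  (.f k223 k154 10 (.f k48 k32 3 (.q k80 [(.s k90 k95 2 (.s k208 k144 7 (.s k149 k31 10 (.d k213
  k218 k21 2 7)))), (.s k144 k208 7 (.s k160 k240 11 (.s k128 k176 3 (.d k192 k64 k96 7 11)))), (.s
  k90 k95 2 (.s k240 k160 11 (.s k15 k165 14 (.s k10 k5 2 (.s k26 k37 6 (.s k21 k31 2 (.d k42 k58
  k63 3 6)))))))] (.c k125 (.q k190 [(.s k90 k95 2 (.s k208 k144 7 (.s k149 k31 10 (.d k213 k218 k21
  2 7)))), (.s k144 k208 7 (.s k160 k240 11 (.s k128 k176 3 (.d k192 k64 k96 7 11)))), (.s k90 k95 2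
  (.s k240 k160 11 (.s k15 k165 14 (.s k10 k5 2 (.s k26 k37 6 (.s k21 k31 2 (.d k42 k58 k63 3
  6)))))))] .n) (.c k190 (.q k125 [(.s k90 k95 2 (.s k208 k144 7 (.s k149 k31 10 (.d k213 k218 k21 2
  7)))), (.s k65 k105 5 (.s k195 k130 8 (.s k97 k146 12 (.s k81 k113 3 (.s k82 k83 0 (.s k112 k67 4
  (.d k240 k176 k160 7 11)))))))] .n) .n)))))

def s6_255_61 : T TT 256 :=
  (.q k17 [(.s k19 k18 0 (.s k153 k221 9 (.s k86 k220 10 (.s k87 k84 0 (.d k223 k155 k154 9 10))))),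
  (.s k18 k19 0 (.s k34 k51 4 (.s k2 k50 3 (.s k3 k1 0 (.d k48 k32 k33 3 4))))), (.s k48 k32 3 (.s
  k51 k34 4 (.s k50 k49 0 (.s k153 k221 9 (.s k154 k223 10 (.d k102 k204 k206 14 13))))))] .n)

def s6_255_62 : T TT 256 :=
  (.q k17 [(.s k18 k19 0 (.s k48 k32 3 (.s k3 k33 4 (.s k2 k1 0 (.d k34 k50 k51 3 4))))), (.s k19
  k18 0 (.s k153 k221 9 (.s k86 k220 10 (.s k87 k84 0 (.d k223 k155 k154 9 10))))), (.s k48 k32 3
  (.s k51 k34 4 (.s k50 k49 0 (.s k153 k221 9 (.s k154 k223 10 (.d k102 k204 k206 14 13))))))] .n)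

def s6_255_63 : T TT 256 :=
  (.f k223 k154 10 (.f k48 k32 3 (.q k81 [(.s k89 k93 1 (.s k211 k146 8 (.s k150 k28 10 (.d k215
  k219 k20 1 8)))), (.s k146 k211 8 (.s k162 k243 12 (.s k130 k178 3 (.d k195 k65 k97 8 12)))), (.s
  k89 k93 1 (.s k243 k162 12 (.s k12 k166 14 (.s k8 k4 1 (.s k24 k36 5 (.s k20 k28 1 (.d k40 k56 k60
  3 5)))))))] (.c k127 (.q k191 [(.s k89 k93 1 (.s k211 k146 8 (.s k150 k28 10 (.d k215 k219 k20 1
  8)))), (.s k146 k211 8 (.s k162 k243 12 (.s k130 k178 3 (.d k195 k65 k97 8 12)))), (.s k89 k93 1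
  (.s k243 k162 12 (.s k12 k166 14 (.s k8 k4 1 (.s k24 k36 5 (.s k20 k28 1 (.d k40 k56 k60 3
  5)))))))] .n) (.c k191 (.q k127 [(.s k89 k93 1 (.s k211 k146 8 (.s k150 k28 10 (.d k215 k219 k20 1
  8)))), (.s k146 k211 8 (.s k162 k243 12 (.s k130 k178 3 (.d k195 k65 k97 8 12)))), (.s k64 k106 6
  (.s k89 k93 1 (.s k115 k98 4 (.s k102 k76 6 (.d k119 k123 k68 1 4)))))] .n) .n)))))

def s6_255_64 : T TT 256 :=
  (.q k17 [(.s k18 k19 0 (.s k48 k32 3 (.s k3 k33 4 (.s k2 k1 0 (.d k34 k50 k51 3 4))))), (.s k19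
  k18 0 (.s k153 k221 9 (.s k86 k220 10 (.s k87 k84 0 (.d k223 k155 k154 9 10))))), (.s k48 k32 3
  (.s k51 k34 4 (.s k50 k49 0 (.s k153 k221 9 (.s k154 k223 10 (.d k102 k204 k206 14 13))))))] .n)

def s6_255_65 : T TT 256 :=
  (.q k17 [(.s k19 k18 0 (.s k153 k221 9 (.s k86 k220 10 (.s k87 k84 0 (.d k223 k155 k154 9 10))))),
  (.s k18 k19 0 (.s k34 k51 4 (.s k2 k50 3 (.s k3 k1 0 (.d k48 k32 k33 3 4))))), (.s k48 k32 3 (.s
  k51 k34 4 (.s k50 k49 0 (.s k153 k221 9 (.s k154 k223 10 (.d k102 k204 k206 14 13))))))] .n)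

def s6_255_66 : T TT 256 :=
  (.q k17 [(.s k18 k19 0 (.s k48 k32 3 (.s k3 k33 4 (.s k2 k1 0 (.d k34 k50 k51 3 4))))), (.s k19
  k18 0 (.s k153 k221 9 (.s k86 k220 10 (.s k87 k84 0 (.d k223 k155 k154 9 10))))), (.s k48 k32 3
  (.s k51 k34 4 (.s k50 k49 0 (.s k153 k221 9 (.s k154 k223 10 (.d k102 k204 k206 14 13))))))] .n)

def s6_255_67 : T TT 256 :=
  (.q k17 [(.s k18 k19 0 (.s k48 k32 3 (.s k3 k33 4 (.s k2 k1 0 (.d k34 k50 k51 3 4))))), (.s k19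
  k18 0 (.s k153 k221 9 (.s k86 k220 10 (.s k87 k84 0 (.d k223 k155 k154 9 10))))), (.s k48 k32 3
  (.s k51 k34 4 (.s k50 k49 0 (.s k153 k221 9 (.s k154 k223 10 (.d k102 k204 k206 14 13))))))] .n)

def s6_255_68 : T TT 256 :=
  (.q k17 [(.s k18 k19 0 (.s k48 k32 3 (.s k3 k33 4 (.s k2 k1 0 (.d k34 k50 k51 3 4))))), (.s k19
  k18 0 (.s k153 k221 9 (.s k86 k220 10 (.s k87 k84 0 (.d k223 k155 k154 9 10))))), (.s k48 k32 3
  (.s k51 k34 4 (.s k50 k49 0 (.s k153 k221 9 (.s k154 k223 10 (.d k102 k204 k206 14 13))))))] .n)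

def s6_255_69 : T TT 256 :=
  (.q k17 [(.s k19 k18 0 (.s k153 k221 9 (.s k86 k220 10 (.s k87 k84 0 (.d k223 k155 k154 9 10))))),
  (.s k18 k19 0 (.s k34 k51 4 (.s k2 k50 3 (.s k3 k1 0 (.d k48 k32 k33 3 4))))), (.s k48 k32 3 (.s
  k51 k34 4 (.s k50 k49 0 (.s k153 k221 9 (.s k154 k223 10 (.d k102 k204 k206 14 13))))))] .n)

def s6_255_70 : T TT 256 :=
  (.f k48 k32 3 (.f k223 k154 10 (.q k84 [(.s k86 k87 0 (.s k220 k152 9 (.s k153 k19 10 (.d k221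
  k222 k17 0 9)))), (.s k152 k220 9 (.s k168 k252 13 (.s k136 k184 3 (.d k204 k68 k100 9 13)))), (.s
  k86 k87 0 (.s k252 k168 13 (.s k3 k169 14 (.s k2 k1 0 (.s k18 k33 4 (.s k17 k19 0 (.d k34 k50 k51
  3 4)))))))] (.c k134 (.q k198 [(.s k86 k87 0 (.s k220 k152 9 (.s k153 k19 10 (.d k221 k222 k17 0
  9)))), (.s k152 k220 9 (.s k168 k252 13 (.s k136 k184 3 (.d k204 k68 k100 9 13)))), (.s k86 k87 0
  (.s k252 k168 13 (.s k3 k169 14 (.s k2 k1 0 (.s k18 k33 4 (.s k17 k19 0 (.d k34 k50 k51 3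
  4)))))))] .n) (.c k198 (.q k134 [(.s k86 k87 0 (.s k220 k152 9 (.s k153 k19 10 (.d k221 k222 k17 0
  9)))), (.s k152 k220 9 (.s k168 k252 13 (.s k136 k184 3 (.d k204 k68 k100 9 13)))), (.s k86 k87 0
  (.s k252 k168 13 (.s k3 k169 14 (.s k2 k1 0 (.s k18 k33 4 (.s k17 k19 0 (.d k34 k50 k51 3
  4)))))))] .n) .n)))))

def s6_255_71 : T TT 256 :=
  (.q k17 [(.s k18 k19 0 (.s k48 k32 3 (.s k3 k33 4 (.s k2 k1 0 (.d k34 k50 k51 3 4))))), (.s k19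
  k18 0 (.s k153 k221 9 (.s k86 k220 10 (.s k87 k84 0 (.d k223 k155 k154 9 10))))), (.s k48 k32 3
  (.s k51 k34 4 (.s k50 k49 0 (.s k153 k221 9 (.s k154 k223 10 (.d k102 k204 k206 14 13))))))] .n)

def s6_255_72 : T TT 256 :=
  (.q k17 [(.s k18 k19 0 (.s k48 k32 3 (.s k3 k33 4 (.s k2 k1 0 (.d k34 k50 k51 3 4))))), (.s k19
  k18 0 (.s k153 k221 9 (.s k86 k220 10 (.s k87 k84 0 (.d k223 k155 k154 9 10))))), (.s k48 k32 3
  (.s k51 k34 4 (.s k50 k49 0 (.s k153 k221 9 (.s k154 k223 10 (.d k102 k204 k206 14 13))))))] .n)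

def s6_255_73 : T TT 256 :=
  (.q k17 [(.s k18 k19 0 (.s k48 k32 3 (.s k3 k33 4 (.s k2 k1 0 (.d k34 k50 k51 3 4))))), (.s k19
  k18 0 (.s k153 k221 9 (.s k86 k220 10 (.s k87 k84 0 (.d k223 k155 k154 9 10))))), (.s k48 k32 3
  (.s k51 k34 4 (.s k50 k49 0 (.s k153 k221 9 (.s k154 k223 10 (.d k102 k204 k206 14 13))))))] .n)

def s6_255_74 : T TT 256 :=
  (.q k17 [(.s k18 k19 0 (.s k48 k32 3 (.s k3 k33 4 (.s k2 k1 0 (.d k34 k50 k51 3 4))))), (.s k19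
  k18 0 (.s k153 k221 9 (.s k86 k220 10 (.s k87 k84 0 (.d k223 k155 k154 9 10))))), (.s k48 k32 3
  (.s k51 k34 4 (.s k50 k49 0 (.s k153 k221 9 (.s k154 k223 10 (.d k102 k204 k206 14 13))))))] .n)

def s6_255_75 : T TT 256 :=
  (.q k17 [(.s k18 k19 0 (.s k48 k32 3 (.s k3 k33 4 (.s k2 k1 0 (.d k34 k50 k51 3 4))))), (.s k19
  k18 0 (.s k153 k221 9 (.s k86 k220 10 (.s k87 k84 0 (.d k223 k155 k154 9 10))))), (.s k48 k32 3
  (.s k51 k34 4 (.s k50 k49 0 (.s k153 k221 9 (.s k154 k223 10 (.d k102 k204 k206 14 13))))))] .n)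

def s6_255_76 : T TT 256 :=
  (.q k17 [(.s k18 k19 0 (.s k48 k32 3 (.s k3 k33 4 (.s k2 k1 0 (.d k34 k50 k51 3 4))))), (.s k19
  k18 0 (.s k153 k221 9 (.s k86 k220 10 (.s k87 k84 0 (.d k223 k155 k154 9 10))))), (.s k48 k32 3
  (.s k51 k34 4 (.s k50 k49 0 (.s k153 k221 9 (.s k154 k223 10 (.d k102 k204 k206 14 13))))))] .n)

def s6_255_77 : T TT 256 :=
  (.q k17 [(.s k18 k19 0 (.s k48 k32 3 (.s k3 k33 4 (.s k2 k1 0 (.d k34 k50 k51 3 4))))), (.s k19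
  k18 0 (.s k153 k221 9 (.s k86 k220 10 (.s k87 k84 0 (.d k223 k155 k154 9 10))))), (.s k48 k32 3
  (.s k51 k34 4 (.s k50 k49 0 (.s k153 k221 9 (.s k154 k223 10 (.d k102 k204 k206 14 13))))))] .n)

def s6_255_78 : T TT 256 :=
  (.q k17 [(.s k18 k19 0 (.s k48 k32 3 (.s k3 k33 4 (.s k2 k1 0 (.d k34 k50 k51 3 4))))), (.s k19
  k18 0 (.s k153 k221 9 (.s k86 k220 10 (.s k87 k84 0 (.d k223 k155 k154 9 10))))), (.s k48 k32 3
  (.s k51 k34 4 (.s k50 k49 0 (.s k153 k221 9 (.s k154 k223 10 (.d k102 k204 k206 14 13))))))] .n)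

def s6_255_79 : T TT 256 :=
  (.q k17 [(.s k18 k19 0 (.s k48 k32 3 (.s k3 k33 4 (.s k2 k1 0 (.d k34 k50 k51 3 4))))), (.s k19
  k18 0 (.s k153 k221 9 (.s k86 k220 10 (.s k87 k84 0 (.d k223 k155 k154 9 10))))), (.s k48 k32 3
  (.s k51 k34 4 (.s k50 k49 0 (.s k153 k221 9 (.s k154 k223 10 (.d k102 k204 k206 14 13))))))] .n)

def s6_255_80 : T TT 256 :=
  (.q k17 [(.s k18 k19 0 (.s k48 k32 3 (.s k3 k33 4 (.s k2 k1 0 (.d k34 k50 k51 3 4))))), (.s k19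
  k18 0 (.s k153 k221 9 (.s k86 k220 10 (.s k87 k84 0 (.d k223 k155 k154 9 10))))), (.s k48 k32 3
  (.s k51 k34 4 (.s k50 k49 0 (.s k153 k221 9 (.s k154 k223 10 (.d k102 k204 k206 14 13))))))] .n)

def s6_255_81 : T TT 256 :=
  (.q k17 [(.s k19 k18 0 (.s k153 k221 9 (.s k86 k220 10 (.s k87 k84 0 (.d k223 k155 k154 9 10))))),
  (.s k18 k19 0 (.s k34 k51 4 (.s k2 k50 3 (.s k3 k1 0 (.d k48 k32 k33 3 4))))), (.s k48 k32 3 (.s
  k51 k34 4 (.s k50 k49 0 (.s k153 k221 9 (.s k154 k223 10 (.d k102 k204 k206 14 13))))))] .n)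

def s6_255_82 : T TT 256 :=
  (.q k17 [(.s k18 k19 0 (.s k48 k32 3 (.s k3 k33 4 (.s k2 k1 0 (.d k34 k50 k51 3 4))))), (.s k19
  k18 0 (.s k153 k221 9 (.s k86 k220 10 (.s k87 k84 0 (.d k223 k155 k154 9 10))))), (.s k48 k32 3
  (.s k51 k34 4 (.s k50 k49 0 (.s k153 k221 9 (.s k154 k223 10 (.d k102 k204 k206 14 13))))))] .n)

def s6_255_83 : T TT 256 :=
  (.q k17 [(.s k19 k18 0 (.s k153 k221 9 (.s k86 k220 10 (.s k87 k84 0 (.d k223 k155 k154 9 10))))),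
  (.s k18 k19 0 (.s k34 k51 4 (.s k2 k50 3 (.s k3 k1 0 (.d k48 k32 k33 3 4))))), (.s k48 k32 3 (.s
  k51 k34 4 (.s k50 k49 0 (.s k153 k221 9 (.s k154 k223 10 (.d k102 k204 k206 14 13))))))] .n)

def s6_255_84 : T TT 256 :=
  (.q k17 [(.s k18 k19 0 (.s k48 k32 3 (.s k3 k33 4 (.s k2 k1 0 (.d k34 k50 k51 3 4))))), (.s k51
  k34 4 (.s k153 k221 9 (.s k154 k223 10 (.s k155 k152 0 (.s k207 k103 13 (.s k69 k138 10 (.d k101
  k117 k48 3 14)))))))] (.c k34 (.l (.s k18 k19 0 (.s k48 k32 3 (.s k33 k3 4 (.s k1 k49 3 (.s k154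
  k223 10 (.s k169 k253 13 (.d k101 k207 k237 14 9)))))))) (.c k48 (.l (.s k19 k18 0 (.s k51 k34 4
  (.s k3 k35 3 (.s k153 k221 9 (.s k86 k220 10 (.s k169 k252 14 (.d k1 k2 k253 0 13)))))))) (.c k51
  (.l (.s k18 k19 0 (.s k48 k32 3 (.s k3 k33 4 (.s k1 k2 0 (.s k154 k223 10 (.s k86 k222 9 (.d k169
  k253 k252 13 14)))))))) .n))))

def s6_255_86 : T TT 256 :=
  (.f k48 k32 3 (.q k166 [(.s k4 k247 12 (.s k12 k8 1 (.s k154 k223 10 (.s k142 k178 5 (.d k207 k77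
  k101 8 14))))), (.s k4 k247 12 (.s k12 k8 1 (.s k36 k24 5 (.s k52 k20 3 (.s k101 k231 8 (.s k69
  k117 3 (.d k199 k134 k150 8 12))))))), (.s k154 k223 10 (.s k178 k142 5 (.s k243 k113 8 (.s k81
  k162 12 (.d k89 k93 k12 1 14)))))] (.c k12 (.l (.s k154 k223 10 (.s k178 k142 5 (.s k207 k101 14
  (.s k138 k69 10 (.s k170 k186 3 (.s k243 k113 8 (.d k162 k174 k81 1 12)))))))) (.c k243 (.l (.s
  k154 k223 10 (.s k142 k178 5 (.s k207 k101 14 (.s k12 k77 8 (.d k4 k8 k247 1 12)))))) .n))))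

def s6_255_87 : T TT 256 :=
  (.q k3 [(.s k2 k1 0 (.s k48 k32 3 (.s k18 k33 4 (.s k34 k50 3 (.d k17 k19 k51 0 4))))), (.s k1 k2
  0 (.s k154 k223 10 (.s k169 k253 13 (.s k139 k184 4 (.s k207 k71 9 (.s k69 k138 10 (.d k101 k117
  k48 3 14))))))), (.s k48 k32 3 (.s k18 k33 4 (.s k154 k223 10 (.s k86 k222 9 (.s k169 k252 14 (.s
  k139 k184 4 (.d k207 k71 k101 9 14)))))))] (.c k19 (.l (.s k1 k2 0 (.s k48 k32 3 (.s k33 k18 4 (.s
  k169 k253 13 (.s k101 k237 9 (.d k154 k223 k207 10 14))))))) (.c k48 (.q k69 [(.s k1 k2 0 (.s k205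
  k137 9 (.s k253 k169 13 (.s k221 k237 3 (.s k153 k17 9 (.d k101 k117 k49 3 13)))))), (.s k154 k223
  10 (.s k207 k138 10 (.s k71 k139 9 (.s k68 k70 0 (.s k102 k119 4 (.s k206 k50 13 (.d k204 k136
  k205 9 0))))))), (.s k154 k223 10 (.s k207 k138 10 (.s k139 k71 9 (.s k169 k184 4 (.s k252 k86 14
  (.s k237 k222 4 (.d k101 k117 k33 3 9)))))))] (.c k117 (.q k186 [(.s k138 k207 10 (.d k154 k223
  k170 10 3)), (.s k1 k2 0 (.s k137 k205 9 (.s k70 k204 10 (.s k71 k68 0 (.d k207 k139 k138 9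
  10))))), (.s k1 k2 0 (.s k137 k205 9 (.s k169 k253 13 (.s k185 k153 3 (.s k184 k187 0 (.d k154
  k139 k223 4 10))))))] .n) (.c k186 (.l (.s k117 k101 3 (.s k1 k2 0 (.s k137 k205 9 (.s k70 k204 10
  (.s k71 k68 0 (.d k207 k139 k138 9 10))))))) .n))) .n)))

def s6_255_88 : T TT 256 :=
  (.q k17 [(.s k18 k19 0 (.s k48 k32 3 (.s k3 k33 4 (.s k2 k1 0 (.d k34 k50 k51 3 4))))), (.s k19
  k18 0 (.s k153 k221 9 (.s k86 k220 10 (.s k87 k84 0 (.d k223 k155 k154 9 10))))), (.s k48 k32 3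
  (.s k51 k34 4 (.s k50 k49 0 (.s k153 k221 9 (.s k154 k223 10 (.d k102 k204 k206 14 13))))))] .n)

def s6_255_89 : T TT 256 :=
  (.q k17 [(.s k18 k19 0 (.s k48 k32 3 (.s k3 k33 4 (.s k2 k1 0 (.d k34 k50 k51 3 4))))), (.s k19
  k18 0 (.s k153 k221 9 (.s k86 k220 10 (.s k87 k84 0 (.d k223 k155 k154 9 10))))), (.s k48 k32 3
  (.s k51 k34 4 (.s k50 k49 0 (.s k153 k221 9 (.s k154 k223 10 (.d k102 k204 k206 14 13))))))] .n)

def s6_255_90 : T TT 256 :=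
  (.q k17 [(.s k18 k19 0 (.s k48 k32 3 (.s k3 k33 4 (.s k2 k1 0 (.d k34 k50 k51 3 4))))), (.s k19
  k18 0 (.s k153 k221 9 (.s k86 k220 10 (.s k87 k84 0 (.d k223 k155 k154 9 10))))), (.s k48 k32 3
  (.s k51 k34 4 (.s k50 k49 0 (.s k153 k221 9 (.s k154 k223 10 (.d k102 k204 k206 14 13))))))] .n)

def s6_255_91 : T TT 256 :=
  (.q k17 [(.s k18 k19 0 (.s k48 k32 3 (.s k3 k33 4 (.s k2 k1 0 (.d k34 k50 k51 3 4))))), (.s k19
  k18 0 (.s k153 k221 9 (.s k86 k220 10 (.s k87 k84 0 (.d k223 k155 k154 9 10))))), (.s k48 k32 3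
  (.s k51 k34 4 (.s k50 k49 0 (.s k153 k221 9 (.s k154 k223 10 (.d k102 k204 k206 14 13))))))] .n)

def s6_255_92 : T TT 256 :=
  (.q k17 [(.s k18 k19 0 (.s k48 k32 3 (.s k3 k33 4 (.s k2 k1 0 (.d k34 k50 k51 3 4))))), (.s k19
  k18 0 (.s k153 k221 9 (.s k86 k220 10 (.s k87 k84 0 (.d k223 k155 k154 9 10))))), (.s k48 k32 3
  (.s k51 k34 4 (.s k50 k49 0 (.s k153 k221 9 (.s k154 k223 10 (.d k102 k204 k206 14 13))))))] .n)

def s6_255_93 : T TT 256 :=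
  (.f k48 k32 3 (.q k12 [(.s k8 k4 1 (.s k24 k36 5 (.s k40 k56 3 (.d k20 k28 k60 1 5)))), (.s k4 k8
  1 (.s k154 k223 10 (.s k166 k247 12 (.s k142 k178 5 (.d k207 k77 k101 8 14))))), (.s k24 k36 5 (.s
  k154 k223 10 (.s k89 k219 8 (.s k166 k243 14 (.s k142 k178 5 (.d k207 k77 k101 8 14))))))] (.c k28
  (.l (.s k4 k8 1 (.s k36 k24 5 (.s k166 k247 12 (.s k101 k231 8 (.d k154 k223 k207 10 14))))))
  .n)))

def s6_255_94 : T TT 256 :=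
  (.q k17 [(.s k18 k19 0 (.s k48 k32 3 (.s k3 k33 4 (.s k2 k1 0 (.d k34 k50 k51 3 4))))), (.s k19
  k18 0 (.s k153 k221 9 (.s k86 k220 10 (.s k87 k84 0 (.d k223 k155 k154 9 10))))), (.s k48 k32 3
  (.s k51 k34 4 (.s k50 k49 0 (.s k153 k221 9 (.s k154 k223 10 (.d k102 k204 k206 14 13))))))] .n)

def s6_255_95 : T TT 256 :=
  (.f k48 k32 3 (.q k15 [(.s k10 k5 2 (.s k26 k37 6 (.s k42 k58 3 (.d k21 k31 k63 2 6)))), (.s k5
  k10 2 (.s k154 k223 10 (.s k165 k245 11 (.s k143 k176 6 (.d k207 k79 k101 7 14))))), (.s k26 k37 6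
  (.s k154 k223 10 (.s k90 k218 7 (.s k165 k240 14 (.s k143 k176 6 (.d k207 k79 k101 7 14))))))] (.c
  k31 (.l (.s k5 k10 2 (.s k37 k26 6 (.s k165 k245 11 (.s k101 k229 7 (.d k154 k223 k207 10 14))))))
  .n)))

def s6_255_96 : T TT 256 :=
  (.q k17 [(.s k19 k18 0 (.s k153 k221 9 (.s k86 k220 10 (.s k87 k84 0 (.d k223 k155 k154 9 10))))),
  (.s k18 k19 0 (.s k34 k51 4 (.s k2 k50 3 (.s k3 k1 0 (.d k48 k32 k33 3 4))))), (.s k48 k32 3 (.s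
  k51 k34 4 (.s k50 k49 0 (.s k153 k221 9 (.s k154 k223 10 (.d k102 k204 k206 14 13))))))] .n)

def s6_255_97 : T TT 256 :=
  (.q k17 [(.s k19 k18 0 (.s k153 k221 9 (.s k86 k220 10 (.s k87 k84 0 (.d k223 k155 k154 9 10))))),
  (.s k18 k19 0 (.s k34 k51 4 (.s k2 k50 3 (.s k3 k1 0 (.d k48 k32 k33 3 4))))), (.s k48 k32 3 (.s
  k51 k34 4 (.s k50 k49 0 (.s k153 k221 9 (.s k154 k223 10 (.d k102 k204 k206 14 13))))))] .n)

def s6_255_98 : T TT 256 :=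
  (.q k17 [(.s k18 k19 0 (.s k48 k32 3 (.s k3 k33 4 (.s k2 k1 0 (.d k34 k50 k51 3 4))))), (.s k19
  k18 0 (.s k153 k221 9 (.s k86 k220 10 (.s k87 k84 0 (.d k223 k155 k154 9 10))))), (.s k48 k32 3
  (.s k51 k34 4 (.s k50 k49 0 (.s k153 k221 9 (.s k154 k223 10 (.d k102 k204 k206 14 13))))))] .n)

def s6_255_99 : T TT 256 :=
  (.q k17 [(.s k18 k19 0 (.s k48 k32 3 (.s k3 k33 4 (.s k2 k1 0 (.d k34 k50 k51 3 4))))), (.s k19
  k18 0 (.s k153 k221 9 (.s k86 k220 10 (.s k87 k84 0 (.d k223 k155 k154 9 10))))), (.s k48 k32 3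
  (.s k51 k34 4 (.s k50 k49 0 (.s k153 k221 9 (.s k154 k223 10 (.d k102 k204 k206 14 13))))))] .n)

def s6_255_100 : T TT 256 :=
  (.q k17 [(.s k18 k19 0 (.s k48 k32 3 (.s k3 k33 4 (.s k2 k1 0 (.d k34 k50 k51 3 4))))), (.s k19
  k18 0 (.s k153 k221 9 (.s k86 k220 10 (.s k87 k84 0 (.d k223 k155 k154 9 10))))), (.s k48 k32 3
  (.s k51 k34 4 (.s k50 k49 0 (.s k153 k221 9 (.s k154 k223 10 (.d k102 k204 k206 14 13))))))] .n)

def s6_255_101 : T TT 256 :=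
  (.q k17 [(.s k19 k18 0 (.s k153 k221 9 (.s k86 k220 10 (.s k87 k84 0 (.d k223 k155 k154 9 10))))),
  (.s k18 k19 0 (.s k34 k51 4 (.s k2 k50 3 (.s k3 k1 0 (.d k48 k32 k33 3 4))))), (.s k48 k32 3 (.s
  k51 k34 4 (.s k50 k49 0 (.s k153 k221 9 (.s k154 k223 10 (.d k102 k204 k206 14 13))))))] .n)

def s6_255_102 : T TT 256 :=
  (.q k17 [(.s k18 k19 0 (.s k48 k32 3 (.s k3 k33 4 (.s k2 k1 0 (.d k34 k50 k51 3 4))))), (.s k19
  k18 0 (.s k153 k221 9 (.s k86 k220 10 (.s k87 k84 0 (.d k223 k155 k154 9 10))))), (.s k48 k32 3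
  (.s k51 k34 4 (.s k153 k221 9 (.s k154 k223 10 (.s k155 k152 0 (.d k207 k103 k101 13 14))))))] .n)

def s6_255_103 : T TT 256 :=
  (.q k17 [(.s k18 k19 0 (.s k48 k32 3 (.s k3 k33 4 (.s k2 k1 0 (.d k34 k50 k51 3 4))))), (.s k19
  k18 0 (.s k153 k221 9 (.s k86 k220 10 (.s k87 k84 0 (.d k223 k155 k154 9 10))))), (.s k48 k32 3
  (.s k51 k34 4 (.s k50 k49 0 (.s k153 k221 9 (.s k154 k223 10 (.d k102 k204 k206 14 13))))))] .n)

def s6_255_104 : T TT 256 :=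
  (.q k17 [(.s k18 k19 0 (.s k48 k32 3 (.s k3 k33 4 (.s k2 k1 0 (.d k34 k50 k51 3 4))))), (.s k19
  k18 0 (.s k153 k221 9 (.s k86 k220 10 (.s k87 k84 0 (.d k223 k155 k154 9 10))))), (.s k48 k32 3
  (.s k51 k34 4 (.s k50 k49 0 (.s k153 k221 9 (.s k154 k223 10 (.d k102 k204 k206 14 13))))))] .n)

def s6_255_105 : T TT 256 :=
  (.q k17 [(.s k18 k19 0 (.s k48 k32 3 (.s k3 k33 4 (.s k2 k1 0 (.d k34 k50 k51 3 4))))), (.s k19
  k18 0 (.s k153 k221 9 (.s k86 k220 10 (.s k87 k84 0 (.d k223 k155 k154 9 10))))), (.s k48 k32 3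
  (.s k51 k34 4 (.s k50 k49 0 (.s k153 k221 9 (.s k154 k223 10 (.d k102 k204 k206 14 13))))))] .n)

def s6_255_106 : T TT 256 :=
  (.q k17 [(.s k18 k19 0 (.s k48 k32 3 (.s k3 k33 4 (.s k2 k1 0 (.d k34 k50 k51 3 4))))), (.s k19
  k18 0 (.s k153 k221 9 (.s k86 k220 10 (.s k87 k84 0 (.d k223 k155 k154 9 10))))), (.s k48 k32 3
  (.s k51 k34 4 (.s k50 k49 0 (.s k153 k221 9 (.s k154 k223 10 (.d k102 k204 k206 14 13))))))] .n)

def s6_255_107 : T TT 256 :=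
  (.q k17 [(.s k18 k19 0 (.s k48 k32 3 (.s k3 k33 4 (.s k2 k1 0 (.d k34 k50 k51 3 4))))), (.s k19
  k18 0 (.s k153 k221 9 (.s k86 k220 10 (.s k87 k84 0 (.d k223 k155 k154 9 10))))), (.s k48 k32 3
  (.s k51 k34 4 (.s k50 k49 0 (.s k153 k221 9 (.s k154 k223 10 (.d k102 k204 k206 14 13))))))] .n)

def s6_255_108 : T TT 256 :=
  (.q k17 [(.s k18 k19 0 (.s k48 k32 3 (.s k3 k33 4 (.s k2 k1 0 (.d k34 k50 k51 3 4))))), (.s k19
  k18 0 (.s k153 k221 9 (.s k86 k220 10 (.s k87 k84 0 (.d k223 k155 k154 9 10))))), (.s k48 k32 3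
  (.s k51 k34 4 (.s k50 k49 0 (.s k153 k221 9 (.s k154 k223 10 (.d k102 k204 k206 14 13))))))] .n)

def s6_255_109 : T TT 256 :=
  (.q k17 [(.s k18 k19 0 (.s k48 k32 3 (.s k3 k33 4 (.s k2 k1 0 (.d k34 k50 k51 3 4))))), (.s k19
  k18 0 (.s k153 k221 9 (.s k86 k220 10 (.s k87 k84 0 (.d k223 k155 k154 9 10))))), (.s k48 k32 3
  (.s k51 k34 4 (.s k50 k49 0 (.s k153 k221 9 (.s k154 k223 10 (.d k102 k204 k206 14 13))))))] .n)

def s6_255_110 : T TT 256 :=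
  (.q k17 [(.s k18 k19 0 (.s k48 k32 3 (.s k3 k33 4 (.s k2 k1 0 (.d k34 k50 k51 3 4))))), (.s k19
  k18 0 (.s k153 k221 9 (.s k86 k220 10 (.s k87 k84 0 (.d k223 k155 k154 9 10))))), (.s k48 k32 3
  (.s k51 k34 4 (.s k50 k49 0 (.s k153 k221 9 (.s k154 k223 10 (.d k102 k204 k206 14 13))))))] .n)

def s6_255_111 : T TT 256 :=
  (.q k17 [(.s k18 k19 0 (.s k48 k32 3 (.s k3 k33 4 (.s k2 k1 0 (.d k34 k50 k51 3 4))))), (.s k19
  k18 0 (.s k153 k221 9 (.s k86 k220 10 (.s k87 k84 0 (.d k223 k155 k154 9 10))))), (.s k48 k32 3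
  (.s k51 k34 4 (.s k50 k49 0 (.s k153 k221 9 (.s k154 k223 10 (.d k102 k204 k206 14 13))))))] .n)

def s6_255_112 : T TT 256 :=
  (.q k17 [(.s k18 k19 0 (.s k48 k32 3 (.s k3 k33 4 (.s k2 k1 0 (.d k34 k50 k51 3 4))))), (.s k19
  k18 0 (.s k153 k221 9 (.s k86 k220 10 (.s k87 k84 0 (.d k223 k155 k154 9 10))))), (.s k48 k32 3
  (.s k51 k34 4 (.s k50 k49 0 (.s k153 k221 9 (.s k154 k223 10 (.d k102 k204 k206 14 13))))))] .n)

def s6_255_113 : T TT 256 :=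
  (.q k17 [(.s k18 k19 0 (.s k48 k32 3 (.s k3 k33 4 (.s k2 k1 0 (.d k34 k50 k51 3 4))))), (.s k19
  k18 0 (.s k153 k221 9 (.s k86 k220 10 (.s k87 k84 0 (.d k223 k155 k154 9 10))))), (.s k48 k32 3
  (.s k51 k34 4 (.s k50 k49 0 (.s k153 k221 9 (.s k154 k223 10 (.d k102 k204 k206 14 13))))))] .n)

def s6_255_114 : T TT 256 :=
  (.q k17 [(.s k18 k19 0 (.s k48 k32 3 (.s k3 k33 4 (.s k2 k1 0 (.d k34 k50 k51 3 4))))), (.s k19
  k18 0 (.s k153 k221 9 (.s k86 k220 10 (.s k87 k84 0 (.d k223 k155 k154 9 10))))), (.s k48 k32 3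
  (.s k51 k34 4 (.s k50 k49 0 (.s k153 k221 9 (.s k154 k223 10 (.d k102 k204 k206 14 13))))))] .n)

def s6_255_115 : T TT 256 :=
  (.q k17 [(.s k18 k19 0 (.s k48 k32 3 (.s k3 k33 4 (.s k2 k1 0 (.d k34 k50 k51 3 4))))), (.s k19
  k18 0 (.s k153 k221 9 (.s k86 k220 10 (.s k87 k84 0 (.d k223 k155 k154 9 10))))), (.s k48 k32 3
  (.s k51 k34 4 (.s k50 k49 0 (.s k153 k221 9 (.s k154 k223 10 (.d k102 k204 k206 14 13))))))] .n)

def s6_255_116 : T TT 256 :=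
  (.q k17 [(.s k18 k19 0 (.s k48 k32 3 (.s k3 k33 4 (.s k2 k1 0 (.d k34 k50 k51 3 4))))), (.s k19
  k18 0 (.s k153 k221 9 (.s k86 k220 10 (.s k87 k84 0 (.d k223 k155 k154 9 10))))), (.s k48 k32 3
  (.s k51 k34 4 (.s k50 k49 0 (.s k153 k221 9 (.s k154 k223 10 (.d k102 k204 k206 14 13))))))] .n)

def s6_255_117 : T TT 256 :=
  (.q k89 [(.s k93 k81 1 (.s k223 k154 10 (.s k28 k158 8 (.s k20 k24 1 (.d k150 k215 k211 8 10))))),
  (.s k48 k32 3 (.s k81 k93 1 (.s k146 k211 8 (.s k97 k195 12 (.s k113 k65 3 (.d k243 k178 k162 8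
  12)))))), (.s k48 k32 3 (.s k154 k223 10 (.s k24 k219 8 (.s k12 k36 5 (.s k4 k8 1 (.d k166 k247
  k243 12 14)))))), (.s k48 k32 3 (.s k81 k93 1 (.s k154 k223 10 (.s k207 k101 14 (.s k219 k24 8 (.d
  k243 k231 k162 5 12))))))] (.c k48 (.q k186 [(.s k93 k81 1 (.s k223 k154 10 (.s k28 k158 8 (.s
  k150 k211 10 (.d k20 k24 k215 1 8))))), (.s k81 k93 1 (.s k243 k162 12 (.s k12 k166 14 (.s k8 k4 1
  (.s k170 k251 12 (.d k154 k138 k223 3 10)))))), (.s k154 k223 10 (.s k24 k219 8 (.s k170 k138 3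
  (.s k8 k251 12 (.s k40 k56 3 (.d k20 k60 k28 5 1))))))] (.c k154 (.l (.s k81 k93 1 (.s k211 k146 8
  (.s k150 k28 10 (.s k20 k215 8 (.s k60 k40 5 (.s k195 k105 14 (.d k243 k227 k162 3 12)))))))) (.c
  k223 (.l (.s k81 k93 1 (.s k211 k146 8 (.s k28 k150 10 (.s k20 k24 1 (.s k60 k40 5 (.s k12 k44 3
  (.d k243 k162 k166 12 14)))))))) .n))) (.c k186 (.l (.s k48 k32 3 (.s k81 k93 1 (.s k146 k211 8
  (.s k97 k195 12 (.s k113 k65 3 (.d k243 k178 k162 8 12))))))) .n)))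

def s6_255_118 : T TT 256 :=
  (.q k17 [(.s k18 k19 0 (.s k48 k32 3 (.s k3 k33 4 (.s k2 k1 0 (.d k34 k50 k51 3 4))))), (.s k19
  k18 0 (.s k153 k221 9 (.s k86 k220 10 (.s k87 k84 0 (.d k223 k155 k154 9 10))))), (.s k48 k32 3
  (.s k51 k34 4 (.s k50 k49 0 (.s k153 k221 9 (.s k154 k223 10 (.d k102 k204 k206 14 13))))))] .n)

def s6_255_119 : T TT 256 :=
  (.q k51 [(.s k17 k34 4 (.s k18 k19 0 (.s k48 k32 3 (.s k49 k50 0 (.d k33 k1 k3 3 4))))), (.s k48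
  k32 3 (.s k50 k49 0 (.s k154 k223 10 (.s k102 k206 13 (.s k153 k204 14 (.s k155 k152 0 (.d k207
  k103 k101 13 14))))))), (.s k17 k34 4 (.s k19 k18 0 (.s k153 k221 9 (.s k86 k220 10 (.s k87 k84 0
  (.d k223 k155 k154 9 10))))))] (.c k50 (.l (.s k17 k34 4 (.s k48 k32 3 (.s k153 k221 9 (.s k154
  k223 10 (.s k152 k155 0 (.d k204 k100 k102 13 14))))))) .n))

def s6_255_120 : T TT 256 :=
  (.q k17 [(.s k18 k19 0 (.s k48 k32 3 (.s k3 k33 4 (.s k2 k1 0 (.d k34 k50 k51 3 4))))), (.s k19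
  k18 0 (.s k153 k221 9 (.s k86 k220 10 (.s k87 k84 0 (.d k223 k155 k154 9 10))))), (.s k48 k32 3
  (.s k51 k34 4 (.s k50 k49 0 (.s k153 k221 9 (.s k154 k223 10 (.d k102 k204 k206 14 13))))))] .n)

def s6_255_121 : T TT 256 :=
  (.q k17 [(.s k18 k19 0 (.s k48 k32 3 (.s k3 k33 4 (.s k2 k1 0 (.d k34 k50 k51 3 4))))), (.s k19
  k18 0 (.s k153 k221 9 (.s k86 k220 10 (.s k87 k84 0 (.d k223 k155 k154 9 10))))), (.s k48 k32 3
  (.s k51 k34 4 (.s k50 k49 0 (.s k153 k221 9 (.s k154 k223 10 (.d k102 k204 k206 14 13))))))] .n)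

def s6_255_122 : T TT 256 :=
  (.q k17 [(.s k18 k19 0 (.s k48 k32 3 (.s k3 k33 4 (.s k2 k1 0 (.d k34 k50 k51 3 4))))), (.s k19
  k18 0 (.s k153 k221 9 (.s k86 k220 10 (.s k87 k84 0 (.d k223 k155 k154 9 10))))), (.s k48 k32 3
  (.s k51 k34 4 (.s k50 k49 0 (.s k153 k221 9 (.s k154 k223 10 (.d k102 k204 k206 14 13))))))] .n)

def s6_255_123 : T TT 256 :=
  (.q k17 [(.s k18 k19 0 (.s k48 k32 3 (.s k3 k33 4 (.s k2 k1 0 (.d k34 k50 k51 3 4))))), (.s k19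
  k18 0 (.s k153 k221 9 (.s k86 k220 10 (.s k87 k84 0 (.d k223 k155 k154 9 10))))), (.s k48 k32 3
  (.s k51 k34 4 (.s k50 k49 0 (.s k153 k221 9 (.s k154 k223 10 (.d k102 k204 k206 14 13))))))] .n)

def s6_255_124 : T TT 256 :=
  (.q k17 [(.s k18 k19 0 (.s k48 k32 3 (.s k3 k33 4 (.s k2 k1 0 (.d k34 k50 k51 3 4))))), (.s k19
  k18 0 (.s k153 k221 9 (.s k86 k220 10 (.s k87 k84 0 (.d k223 k155 k154 9 10))))), (.s k48 k32 3
  (.s k51 k34 4 (.s k50 k49 0 (.s k153 k221 9 (.s k154 k223 10 (.d k102 k204 k206 14 13))))))] .n)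

def s6_255_125 : T TT 256 :=
  (.q k60 [(.s k20 k40 5 (.s k24 k28 1 (.s k48 k32 3 (.s k52 k56 1 (.d k36 k4 k12 3 5))))), (.s k48
  k32 3 (.s k56 k52 1 (.s k154 k223 10 (.s k105 k203 12 (.s k150 k195 14 (.s k158 k146 1 (.d k207
  k109 k101 12 14))))))), (.s k20 k40 5 (.s k28 k24 1 (.s k150 k215 8 (.s k89 k211 10 (.s k93 k81 1
  (.d k223 k158 k154 8 10))))))] (.c k56 (.l (.s k20 k40 5 (.s k48 k32 3 (.s k150 k215 8 (.s k154
  k223 10 (.s k146 k158 1 (.d k195 k97 k105 12 14))))))) .n))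

def s6_255_126 : T TT 256 :=
  (.q k17 [(.s k18 k19 0 (.s k48 k32 3 (.s k3 k33 4 (.s k2 k1 0 (.d k34 k50 k51 3 4))))), (.s k19
  k18 0 (.s k153 k221 9 (.s k86 k220 10 (.s k87 k84 0 (.d k223 k155 k154 9 10))))), (.s k48 k32 3
  (.s k51 k34 4 (.s k50 k49 0 (.s k153 k221 9 (.s k154 k223 10 (.d k102 k204 k206 14 13))))))] .n)

def s6_255_127 : T TT 256 :=
  (.q k63 [(.s k21 k42 6 (.s k26 k31 2 (.s k48 k32 3 (.s k53 k58 2 (.d k37 k5 k15 3 6))))), (.s k48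
  k32 3 (.s k58 k53 2 (.s k154 k223 10 (.s k106 k202 11 (.s k149 k192 14 (.s k159 k144 2 (.d k207
  k111 k101 11 14))))))), (.s k21 k42 6 (.s k31 k26 2 (.s k149 k213 7 (.s k90 k208 10 (.s k95 k80 2
  (.d k223 k159 k154 7 10))))))] (.c k58 (.l (.s k21 k42 6 (.s k48 k32 3 (.s k149 k213 7 (.s k154
  k223 10 (.s k144 k159 2 (.d k192 k96 k106 11 14))))))) .n))

def s6_255_128 : T TT 256 :=
  (.q k17 [(.s k18 k19 0 (.s k48 k32 3 (.s k3 k33 4 (.s k2 k1 0 (.d k34 k50 k51 3 4))))), (.s k19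
  k18 0 (.s k153 k221 9 (.s k86 k220 10 (.s k87 k84 0 (.d k223 k155 k154 9 10))))), (.s k48 k32 3
  (.s k51 k34 4 (.s k50 k49 0 (.s k153 k221 9 (.s k154 k223 10 (.d k102 k204 k206 14 13))))))] .n)

def s6_255_129 : T TT 256 :=
  (.q k17 [(.s k19 k18 0 (.s k153 k221 9 (.s k86 k220 10 (.s k87 k84 0 (.d k223 k155 k154 9 10))))),
  (.s k18 k19 0 (.s k34 k51 4 (.s k2 k50 3 (.s k3 k1 0 (.d k48 k32 k33 3 4))))), (.s k48 k32 3 (.s
  k51 k34 4 (.s k50 k49 0 (.s k153 k221 9 (.s k154 k223 10 (.d k102 k204 k206 14 13))))))] .n)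

def s6_255_130 : T TT 256 :=
  (.q k17 [(.s k18 k19 0 (.s k48 k32 3 (.s k3 k33 4 (.s k2 k1 0 (.d k34 k50 k51 3 4))))), (.s k19
  k18 0 (.s k153 k221 9 (.s k86 k220 10 (.s k87 k84 0 (.d k223 k155 k154 9 10))))), (.s k48 k32 3
  (.s k51 k34 4 (.s k50 k49 0 (.s k153 k221 9 (.s k154 k223 10 (.d k102 k204 k206 14 13))))))] .n)

def s6_255_131 : T TT 256 :=
  (.q k17 [(.s k18 k19 0 (.s k48 k32 3 (.s k3 k33 4 (.s k2 k1 0 (.d k34 k50 k51 3 4))))), (.s k19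
  k18 0 (.s k153 k221 9 (.s k86 k220 10 (.s k87 k84 0 (.d k223 k155 k154 9 10))))), (.s k48 k32 3
  (.s k51 k34 4 (.s k50 k49 0 (.s k153 k221 9 (.s k154 k223 10 (.d k102 k204 k206 14 13))))))] .n)

def s6_255_132 : T TT 256 :=
  (.q k17 [(.s k18 k19 0 (.s k48 k32 3 (.s k3 k33 4 (.s k2 k1 0 (.d k34 k50 k51 3 4))))), (.s k19
  k18 0 (.s k153 k221 9 (.s k86 k220 10 (.s k87 k84 0 (.d k223 k155 k154 9 10))))), (.s k48 k32 3
  (.s k51 k34 4 (.s k50 k49 0 (.s k153 k221 9 (.s k154 k223 10 (.d k102 k204 k206 14 13))))))] .n)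

def s6_255_133 : T TT 256 :=
  (.q k17 [(.s k18 k19 0 (.s k48 k32 3 (.s k3 k33 4 (.s k2 k1 0 (.d k34 k50 k51 3 4))))), (.s k19
  k18 0 (.s k153 k221 9 (.s k86 k220 10 (.s k87 k84 0 (.d k223 k155 k154 9 10))))), (.s k48 k32 3
  (.s k51 k34 4 (.s k50 k49 0 (.s k153 k221 9 (.s k154 k223 10 (.d k102 k204 k206 14 13))))))] .n)

def s6_255_134 : T TT 256 :=
  (.f k48 k32 3 (.f k223 k154 10 (.q k84 [(.s k86 k87 0 (.s k220 k152 9 (.s k153 k19 10 (.d k221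
  k222 k17 0 9)))), (.s k152 k220 9 (.s k168 k252 13 (.s k136 k184 3 (.d k204 k68 k100 9 13)))), (.s
  k86 k87 0 (.s k252 k168 13 (.s k3 k169 14 (.s k2 k1 0 (.s k18 k33 4 (.s k17 k19 0 (.d k34 k50 k51
  3 4)))))))] (.c k70 (.q k198 [(.s k86 k87 0 (.s k220 k152 9 (.s k153 k19 10 (.d k221 k222 k17 0
  9)))), (.s k152 k220 9 (.s k168 k252 13 (.s k136 k184 3 (.d k204 k68 k100 9 13)))), (.s k86 k87 0
  (.s k252 k168 13 (.s k3 k169 14 (.s k2 k1 0 (.s k18 k33 4 (.s k17 k19 0 (.d k34 k50 k51 3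
  4)))))))] .n) (.c k198 (.q k70 [(.s k86 k87 0 (.s k220 k152 9 (.s k153 k19 10 (.d k221 k222 k17 0
  9)))), (.s k152 k220 9 (.s k168 k252 13 (.s k136 k184 3 (.d k204 k68 k100 9 13)))), (.s k86 k87 0
  (.s k102 k118 3 (.s k68 k119 4 (.s k71 k69 0 (.d k116 k100 k101 3 4)))))] .n) .n)))))

def s6_255_135 : T TT 256 :=
  (.q k17 [(.s k18 k19 0 (.s k48 k32 3 (.s k3 k33 4 (.s k2 k1 0 (.d k34 k50 k51 3 4))))), (.s k19
  k18 0 (.s k153 k221 9 (.s k86 k220 10 (.s k87 k84 0 (.d k223 k155 k154 9 10))))), (.s k48 k32 3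
  (.s k51 k34 4 (.s k50 k49 0 (.s k153 k221 9 (.s k154 k223 10 (.d k102 k204 k206 14 13))))))] .n)

def s6_255_136 : T TT 256 :=
  (.q k17 [(.s k18 k19 0 (.s k48 k32 3 (.s k3 k33 4 (.s k2 k1 0 (.d k34 k50 k51 3 4))))), (.s k19
  k18 0 (.s k153 k221 9 (.s k86 k220 10 (.s k87 k84 0 (.d k223 k155 k154 9 10))))), (.s k48 k32 3
  (.s k51 k34 4 (.s k50 k49 0 (.s k153 k221 9 (.s k154 k223 10 (.d k102 k204 k206 14 13))))))] .n)

def s6_255_137 : T TT 256 :=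
  (.q k17 [(.s k19 k18 0 (.s k153 k221 9 (.s k86 k220 10 (.s k87 k84 0 (.d k223 k155 k154 9 10))))),
  (.s k18 k19 0 (.s k34 k51 4 (.s k2 k50 3 (.s k3 k1 0 (.d k48 k32 k33 3 4))))), (.s k48 k32 3 (.s
  k51 k34 4 (.s k50 k49 0 (.s k153 k221 9 (.s k154 k223 10 (.d k102 k204 k206 14 13))))))] .n)

def s6_255_138 : T TT 256 :=
  (.q k17 [(.s k18 k19 0 (.s k48 k32 3 (.s k3 k33 4 (.s k2 k1 0 (.d k34 k50 k51 3 4))))), (.s k19
  k18 0 (.s k153 k221 9 (.s k86 k220 10 (.s k87 k84 0 (.d k223 k155 k154 9 10))))), (.s k48 k32 3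
  (.s k51 k34 4 (.s k50 k49 0 (.s k153 k221 9 (.s k154 k223 10 (.d k102 k204 k206 14 13))))))] .n)

def s6_255_139 : T TT 256 :=
  (.q k17 [(.s k18 k19 0 (.s k48 k32 3 (.s k3 k33 4 (.s k2 k1 0 (.d k34 k50 k51 3 4))))), (.s k19
  k18 0 (.s k153 k221 9 (.s k86 k220 10 (.s k87 k84 0 (.d k223 k155 k154 9 10))))), (.s k48 k32 3
  (.s k51 k34 4 (.s k50 k49 0 (.s k153 k221 9 (.s k154 k223 10 (.d k102 k204 k206 14 13))))))] .n)

def s6_255_140 : T TT 256 :=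
  (.q k17 [(.s k18 k19 0 (.s k48 k32 3 (.s k3 k33 4 (.s k2 k1 0 (.d k34 k50 k51 3 4))))), (.s k19
  k18 0 (.s k153 k221 9 (.s k86 k220 10 (.s k87 k84 0 (.d k223 k155 k154 9 10))))), (.s k48 k32 3
  (.s k51 k34 4 (.s k50 k49 0 (.s k153 k221 9 (.s k154 k223 10 (.d k102 k204 k206 14 13))))))] .n)

def s6_255_141 : T TT 256 :=
  (.q k17 [(.s k18 k19 0 (.s k48 k32 3 (.s k3 k33 4 (.s k2 k1 0 (.d k34 k50 k51 3 4))))), (.s k19
  k18 0 (.s k153 k221 9 (.s k86 k220 10 (.s k87 k84 0 (.d k223 k155 k154 9 10))))), (.s k48 k32 3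
  (.s k51 k34 4 (.s k50 k49 0 (.s k153 k221 9 (.s k154 k223 10 (.d k102 k204 k206 14 13))))))] .n)

def s6_255_142 : T TT 256 :=
  (.q k17 [(.s k18 k19 0 (.s k48 k32 3 (.s k3 k33 4 (.s k2 k1 0 (.d k34 k50 k51 3 4))))), (.s k19
  k18 0 (.s k153 k221 9 (.s k86 k220 10 (.s k87 k84 0 (.d k223 k155 k154 9 10))))), (.s k48 k32 3
  (.s k51 k34 4 (.s k50 k49 0 (.s k153 k221 9 (.s k154 k223 10 (.d k102 k204 k206 14 13))))))] .n)

def s6_255_143 : T TT 256 :=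
  (.q k17 [(.s k18 k19 0 (.s k48 k32 3 (.s k3 k33 4 (.s k2 k1 0 (.d k34 k50 k51 3 4))))), (.s k19
  k18 0 (.s k153 k221 9 (.s k86 k220 10 (.s k87 k84 0 (.d k223 k155 k154 9 10))))), (.s k48 k32 3
  (.s k51 k34 4 (.s k50 k49 0 (.s k153 k221 9 (.s k154 k223 10 (.d k102 k204 k206 14 13))))))] .n)

def s6_255_144 : T TT 256 :=
  (.q k17 [(.s k18 k19 0 (.s k48 k32 3 (.s k3 k33 4 (.s k2 k1 0 (.d k34 k50 k51 3 4))))), (.s k19
  k18 0 (.s k153 k221 9 (.s k86 k220 10 (.s k87 k84 0 (.d k223 k155 k154 9 10))))), (.s k48 k32 3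
  (.s k51 k34 4 (.s k50 k49 0 (.s k153 k221 9 (.s k154 k223 10 (.d k102 k204 k206 14 13))))))] .n)

def s6_255_145 : T TT 256 :=
  (.q k17 [(.s k19 k18 0 (.s k153 k221 9 (.s k86 k220 10 (.s k87 k84 0 (.d k223 k155 k154 9 10))))),
  (.s k18 k19 0 (.s k34 k51 4 (.s k2 k50 3 (.s k3 k1 0 (.d k48 k32 k33 3 4))))), (.s k48 k32 3 (.s
  k51 k34 4 (.s k50 k49 0 (.s k153 k221 9 (.s k154 k223 10 (.d k102 k204 k206 14 13))))))] .n)

def s6_255_146 : T TT 256 :=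
  (.q k17 [(.s k18 k19 0 (.s k48 k32 3 (.s k3 k33 4 (.s k2 k1 0 (.d k34 k50 k51 3 4))))), (.s k19
  k18 0 (.s k153 k221 9 (.s k86 k220 10 (.s k87 k84 0 (.d k223 k155 k154 9 10))))), (.s k48 k32 3
  (.s k51 k34 4 (.s k50 k49 0 (.s k153 k221 9 (.s k154 k223 10 (.d k102 k204 k206 14 13))))))] .n)

def s6_255_147 : T TT 256 :=
  (.q k17 [(.s k19 k18 0 (.s k153 k221 9 (.s k86 k220 10 (.s k87 k84 0 (.d k223 k155 k154 9 10))))),
  (.s k18 k19 0 (.s k34 k51 4 (.s k2 k50 3 (.s k3 k1 0 (.d k48 k32 k33 3 4))))), (.s k48 k32 3 (.s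
  k51 k34 4 (.s k50 k49 0 (.s k153 k221 9 (.s k154 k223 10 (.d k102 k204 k206 14 13))))))] .n)

def s6_255_148 : T TT 256 :=
  (.q k17 [(.s k18 k19 0 (.s k48 k32 3 (.s k3 k33 4 (.s k2 k1 0 (.d k34 k50 k51 3 4))))), (.s k19
  k18 0 (.s k153 k221 9 (.s k86 k220 10 (.s k87 k84 0 (.d k223 k155 k154 9 10))))), (.s k48 k32 3
  (.s k51 k34 4 (.s k50 k49 0 (.s k153 k221 9 (.s k154 k223 10 (.d k102 k204 k206 14 13))))))] .n)

def s6_255_149 : T TT 256 :=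
  (.q k17 [(.s k18 k19 0 (.s k48 k32 3 (.s k3 k33 4 (.s k2 k1 0 (.d k34 k50 k51 3 4))))), (.s k19
  k18 0 (.s k153 k221 9 (.s k86 k220 10 (.s k87 k84 0 (.d k223 k155 k154 9 10))))), (.s k48 k32 3
  (.s k51 k34 4 (.s k50 k49 0 (.s k153 k221 9 (.s k154 k223 10 (.d k102 k204 k206 14 13))))))] .n)

def s6_255_150 : T TT 256 :=
  (.q k17 [(.s k18 k19 0 (.s k48 k32 3 (.s k3 k33 4 (.s k2 k1 0 (.d k34 k50 k51 3 4))))), (.s k19
  k18 0 (.s k153 k221 9 (.s k86 k220 10 (.s k87 k84 0 (.d k223 k155 k154 9 10))))), (.s k48 k32 3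
  (.s k51 k34 4 (.s k50 k49 0 (.s k153 k221 9 (.s k154 k223 10 (.d k102 k204 k206 14 13))))))] .n)

def s6_255_151 : T TT 256 :=
  (.q k17 [(.s k18 k19 0 (.s k48 k32 3 (.s k3 k33 4 (.s k2 k1 0 (.d k34 k50 k51 3 4))))), (.s k19
  k18 0 (.s k153 k221 9 (.s k86 k220 10 (.s k87 k84 0 (.d k223 k155 k154 9 10))))), (.s k48 k32 3
  (.s k51 k34 4 (.s k50 k49 0 (.s k153 k221 9 (.s k154 k223 10 (.d k102 k204 k206 14 13))))))] .n)

def s6_255_152 : T TT 256 :=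
  (.q k17 [(.s k18 k19 0 (.s k48 k32 3 (.s k3 k33 4 (.s k2 k1 0 (.d k34 k50 k51 3 4))))), (.s k19
  k18 0 (.s k153 k221 9 (.s k86 k220 10 (.s k87 k84 0 (.d k223 k155 k154 9 10))))), (.s k48 k32 3
  (.s k51 k34 4 (.s k50 k49 0 (.s k153 k221 9 (.s k154 k223 10 (.d k102 k204 k206 14 13))))))] .n)

def s6_255_153 : T TT 256 :=
  (.q k20 [(.s k28 k24 1 (.s k150 k215 8 (.s k89 k211 10 (.s k93 k81 1 (.d k223 k158 k154 8 10))))),
  (.s k24 k28 1 (.s k40 k60 5 (.s k8 k56 3 (.s k12 k4 1 (.d k48 k32 k36 3 5))))), (.s k48 k32 3 (.s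
  k60 k40 5 (.s k56 k52 1 (.s k150 k215 8 (.s k154 k223 10 (.d k105 k195 k203 14 12))))))] .n)

def s6_255_154 : T TT 256 :=
  (.f k48 k32 3 (.q k80 [(.s k144 k208 7 (.s k96 k192 11 (.s k112 k64 3 (.d k240 k176 k160 7 11)))),
  (.s k90 k95 2 (.s k240 k160 11 (.s k15 k165 14 (.s k10 k5 2 (.s k26 k37 6 (.s k21 k31 2 (.d k42
  k58 k63 3 6))))))), (.s k90 k95 2 (.s k208 k144 7 (.s k149 k31 10 (.s k21 k213 7 (.s k63 k42 6 (.s
  k192 k106 14 (.d k240 k224 k160 3 11)))))))] (.c k160 (.q k64 [(.s k96 k112 3 (.d k144 k208 k192 7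
  11)), (.s k90 k95 2 (.s k106 k127 6 (.s k74 k122 3 (.s k79 k69 2 (.d k112 k96 k101 3 6)))))] (.c
  k96 (.q k224 [(.s k192 k128 7 (.d k208 k144 k240 7 3)), (.s k90 k95 2 (.s k106 k127 6 (.s k165 k47
  10 (.s k5 k245 11 (.d k15 k240 k10 14 2)))))] (.c k240 (.l (.s k90 k95 2 (.s k106 k127 6 (.s k208
  k144 7 (.s k149 k31 10 (.d k192 k128 k63 7 14)))))) .n)) (.c k112 (.l (.s k144 k208 7 (.d k192
  k128 k96 7 11))) (.c k224 (.l (.s k96 k112 3 (.d k144 k208 k192 7 11))) .n)))) (.c k224 (.l (.s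
  k144 k208 7 (.s k96 k192 11 (.s k240 k160 11 (.d k112 k64 k176 3 7))))) (.c k240 (.f k208 k144 7
  (.f k90 k95 2 (.f k149 k31 10 (.l (.s k21 k213 7 (.s k63 k42 6 (.s k53 k58 2 (.s k101 k197 11 (.s
  k112 k79 6 (.s k64 k96 3 (.d k106 k127 k192 6 14))))))))))) .n)))))

def s6_255_155 : T TT 256 :=
  (.q k18 [(.s k48 k32 3 (.s k3 k33 4 (.s k2 k1 0 (.s k34 k50 3 (.d k17 k19 k51 0 4))))), (.s k19
  k17 0 (.s k154 k223 10 (.s k86 k222 9 (.s k220 k153 10 (.d k84 k87 k152 0 9))))), (.s k48 k32 3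
  (.s k3 k33 4 (.s k1 k2 0 (.s k169 k253 13 (.s k252 k86 14 (.s k184 k116 9 (.d k154 k139 k223 4
  10)))))))] .n)

def s6_255_156 : T TT 256 :=
  (.q k17 [(.s k18 k19 0 (.s k48 k32 3 (.s k3 k33 4 (.s k2 k1 0 (.d k34 k50 k51 3 4))))), (.s k19
  k18 0 (.s k153 k221 9 (.s k86 k220 10 (.s k87 k84 0 (.d k223 k155 k154 9 10))))), (.s k48 k32 3
  (.s k51 k34 4 (.s k50 k49 0 (.s k153 k221 9 (.s k154 k223 10 (.d k102 k204 k206 14 13))))))] .n)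

def s6_255_157 : T TT 256 :=
  (.q k17 [(.s k18 k19 0 (.s k48 k32 3 (.s k3 k33 4 (.s k2 k1 0 (.d k34 k50 k51 3 4))))), (.s k19
  k18 0 (.s k153 k221 9 (.s k86 k220 10 (.s k87 k84 0 (.d k223 k155 k154 9 10))))), (.s k48 k32 3
  (.s k51 k34 4 (.s k50 k49 0 (.s k153 k221 9 (.s k154 k223 10 (.d k102 k204 k206 14 13))))))] .n)

def s6_255_158 : T TT 256 :=
  (.q k17 [(.s k18 k19 0 (.s k48 k32 3 (.s k3 k33 4 (.s k2 k1 0 (.d k34 k50 k51 3 4))))), (.s k19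
  k18 0 (.s k153 k221 9 (.s k86 k220 10 (.s k87 k84 0 (.d k223 k155 k154 9 10))))), (.s k48 k32 3
  (.s k51 k34 4 (.s k50 k49 0 (.s k153 k221 9 (.s k154 k223 10 (.d k102 k204 k206 14 13))))))] .n)

def s6_255_159 : T TT 256 :=
  (.q k17 [(.s k18 k19 0 (.s k48 k32 3 (.s k3 k33 4 (.s k2 k1 0 (.d k34 k50 k51 3 4))))), (.s k19
  k18 0 (.s k153 k221 9 (.s k86 k220 10 (.s k87 k84 0 (.d k223 k155 k154 9 10))))), (.s k48 k32 3
  (.s k51 k34 4 (.s k50 k49 0 (.s k153 k221 9 (.s k154 k223 10 (.d k102 k204 k206 14 13))))))] .n)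

def s6_255_160 : T TT 256 :=
  (.q k17 [(.s k19 k18 0 (.s k153 k221 9 (.s k86 k220 10 (.s k87 k84 0 (.d k223 k155 k154 9 10))))),
  (.s k18 k19 0 (.s k34 k51 4 (.s k2 k50 3 (.s k3 k1 0 (.d k48 k32 k33 3 4))))), (.s k48 k32 3 (.s
  k51 k34 4 (.s k50 k49 0 (.s k153 k221 9 (.s k154 k223 10 (.d k102 k204 k206 14 13))))))] .n)

def s6_255_161 : T TT 256 :=
  (.q k17 [(.s k19 k18 0 (.s k153 k221 9 (.s k86 k220 10 (.s k87 k84 0 (.d k223 k155 k154 9 10))))),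
  (.s k18 k19 0 (.s k34 k51 4 (.s k2 k50 3 (.s k3 k1 0 (.d k48 k32 k33 3 4))))), (.s k48 k32 3 (.s
  k51 k34 4 (.s k50 k49 0 (.s k153 k221 9 (.s k154 k223 10 (.d k102 k204 k206 14 13))))))] .n)

def s6_255_162 : T TT 256 :=
  (.q k17 [(.s k19 k18 0 (.s k153 k221 9 (.s k86 k220 10 (.s k87 k84 0 (.d k223 k155 k154 9 10))))),
  (.s k18 k19 0 (.s k34 k51 4 (.s k2 k50 3 (.s k3 k1 0 (.d k48 k32 k33 3 4))))), (.s k48 k32 3 (.s
  k51 k34 4 (.s k50 k49 0 (.s k153 k221 9 (.s k154 k223 10 (.d k102 k204 k206 14 13))))))] .n)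

def s6_255_163 : T TT 256 :=
  (.q k17 [(.s k18 k19 0 (.s k48 k32 3 (.s k3 k33 4 (.s k2 k1 0 (.d k34 k50 k51 3 4))))), (.s k19
  k18 0 (.s k153 k221 9 (.s k86 k220 10 (.s k87 k84 0 (.d k223 k155 k154 9 10))))), (.s k48 k32 3
  (.s k51 k34 4 (.s k50 k49 0 (.s k153 k221 9 (.s k154 k223 10 (.d k102 k204 k206 14 13))))))] .n)

def s6_255_164 : T TT 256 :=
  (.q k17 [(.s k18 k19 0 (.s k48 k32 3 (.s k3 k33 4 (.s k2 k1 0 (.d k34 k50 k51 3 4))))), (.s k19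
  k18 0 (.s k153 k221 9 (.s k86 k220 10 (.s k87 k84 0 (.d k223 k155 k154 9 10))))), (.s k48 k32 3
  (.s k51 k34 4 (.s k50 k49 0 (.s k153 k221 9 (.s k154 k223 10 (.d k102 k204 k206 14 13))))))] .n)

def s6_255_165 : T TT 256 :=
  (.q k17 [(.s k18 k19 0 (.s k48 k32 3 (.s k3 k33 4 (.s k2 k1 0 (.d k34 k50 k51 3 4))))), (.s k19
  k18 0 (.s k153 k221 9 (.s k86 k220 10 (.s k87 k84 0 (.d k223 k155 k154 9 10))))), (.s k48 k32 3
  (.s k51 k34 4 (.s k50 k49 0 (.s k153 k221 9 (.s k154 k223 10 (.d k102 k204 k206 14 13))))))] .n)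

def s6_255_166 : T TT 256 :=
  (.q k86 [(.s k87 k84 0 (.s k223 k154 10 (.s k19 k155 9 (.s k17 k18 0 (.d k153 k221 k220 9 10))))),
  (.s k48 k32 3 (.s k84 k87 0 (.s k152 k220 9 (.s k100 k204 13 (.s k116 k68 3 (.d k252 k184 k168 9
  13)))))), (.s k48 k32 3 (.s k154 k223 10 (.s k18 k222 9 (.s k3 k33 4 (.s k1 k2 0 (.d k169 k253
  k252 13 14)))))), (.s k48 k32 3 (.s k84 k87 0 (.s k154 k223 10 (.s k207 k101 14 (.s k222 k18 9 (.d
  k252 k237 k168 4 13))))))] .n)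

def s6_255_167 : T TT 256 :=
  (.q k17 [(.s k18 k19 0 (.s k48 k32 3 (.s k3 k33 4 (.s k2 k1 0 (.d k34 k50 k51 3 4))))), (.s k19
  k18 0 (.s k153 k221 9 (.s k86 k220 10 (.s k87 k84 0 (.d k223 k155 k154 9 10))))), (.s k48 k32 3
  (.s k51 k34 4 (.s k50 k49 0 (.s k153 k221 9 (.s k154 k223 10 (.d k102 k204 k206 14 13))))))] .n)

def s6_255_168 : T TT 256 :=
  (.q k17 [(.s k19 k18 0 (.s k153 k221 9 (.s k86 k220 10 (.s k87 k84 0 (.d k223 k155 k154 9 10))))),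
  (.s k18 k19 0 (.s k34 k51 4 (.s k2 k50 3 (.s k3 k1 0 (.d k48 k32 k33 3 4))))), (.s k48 k32 3 (.s
  k51 k34 4 (.s k50 k49 0 (.s k153 k221 9 (.s k154 k223 10 (.d k102 k204 k206 14 13))))))] .n)

def s6_255_169 : T TT 256 :=
  (.q k17 [(.s k19 k18 0 (.s k153 k221 9 (.s k86 k220 10 (.s k87 k84 0 (.d k223 k155 k154 9 10))))),
  (.s k18 k19 0 (.s k34 k51 4 (.s k2 k50 3 (.s k3 k1 0 (.d k48 k32 k33 3 4))))), (.s k48 k32 3 (.s
  k51 k34 4 (.s k50 k49 0 (.s k153 k221 9 (.s k154 k223 10 (.d k102 k204 k206 14 13))))))] .n)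

def s6_255_170 : T TT 256 :=
  (.q k17 [(.s k19 k18 0 (.s k153 k221 9 (.s k86 k220 10 (.s k87 k84 0 (.d k223 k155 k154 9 10))))),
  (.s k18 k19 0 (.s k34 k51 4 (.s k2 k50 3 (.s k3 k1 0 (.d k48 k32 k33 3 4))))), (.s k48 k32 3 (.s
  k51 k34 4 (.s k50 k49 0 (.s k153 k221 9 (.s k154 k223 10 (.d k102 k204 k206 14 13))))))] .n)

def s6_255_171 : T TT 256 :=
  (.q k3 [(.s k2 k1 0 (.s k48 k32 3 (.s k18 k33 4 (.s k17 k19 0 (.d k34 k50 k51 3 4))))), (.s k1 k2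
  0 (.s k154 k223 10 (.s k169 k253 13 (.s k139 k184 4 (.s k207 k71 9 (.s k69 k138 10 (.d k101 k117
  k48 3 14))))))), (.s k48 k32 3 (.s k18 k33 4 (.s k154 k223 10 (.s k86 k222 9 (.s k84 k87 0 (.d
  k252 k168 k169 13 14))))))] (.c k48 (.f k1 k2 0 (.f k154 k223 10 (.l (.s k169 k253 13 (.s k139
  k184 4 (.s k207 k71 9 (.s k69 k138 10 (.s k252 k86 14 (.s k237 k222 4 (.d k101 k117 k33 3
  9)))))))))) .n))

def s6_255_172 : T TT 256 :=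
  (.q k17 [(.s k18 k19 0 (.s k48 k32 3 (.s k3 k33 4 (.s k2 k1 0 (.d k34 k50 k51 3 4))))), (.s k19
  k18 0 (.s k153 k221 9 (.s k86 k220 10 (.s k87 k84 0 (.d k223 k155 k154 9 10))))), (.s k48 k32 3
  (.s k51 k34 4 (.s k50 k49 0 (.s k153 k221 9 (.s k154 k223 10 (.d k102 k204 k206 14 13))))))] .n)

def s6_255_173 : T TT 256 :=
  (.q k17 [(.s k18 k19 0 (.s k48 k32 3 (.s k3 k33 4 (.s k2 k1 0 (.d k34 k50 k51 3 4))))), (.s k19
  k18 0 (.s k153 k221 9 (.s k86 k220 10 (.s k87 k84 0 (.d k223 k155 k154 9 10))))), (.s k48 k32 3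
  (.s k51 k34 4 (.s k50 k49 0 (.s k153 k221 9 (.s k154 k223 10 (.d k102 k204 k206 14 13))))))] .n)

def s6_255_174 : T TT 256 :=
  (.f k48 k32 3 (.q k12 [(.s k24 k36 5 (.s k20 k28 1 (.s k40 k60 5 (.d k8 k4 k56 1 3)))), (.s k4 k8
  1 (.s k154 k223 10 (.s k166 k247 12 (.s k142 k178 5 (.d k207 k77 k101 8 14))))), (.s k24 k36 5 (.s
  k154 k223 10 (.s k89 k219 8 (.s k81 k93 1 (.d k243 k162 k166 12 14)))))] .n))

def s6_255_175 : T TT 256 :=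
  (.f k48 k32 3 (.q k15 [(.s k26 k37 6 (.s k21 k31 2 (.s k42 k63 6 (.d k10 k5 k58 2 3)))), (.s k5
  k10 2 (.s k154 k223 10 (.s k165 k245 11 (.s k143 k176 6 (.d k207 k79 k101 7 14))))), (.s k26 k37 6
  (.s k154 k223 10 (.s k90 k218 7 (.s k80 k95 2 (.d k240 k160 k165 11 14)))))] .n))

def s6_255_176 : T TT 256 :=
  (.q k17 [(.s k18 k19 0 (.s k48 k32 3 (.s k3 k33 4 (.s k2 k1 0 (.d k34 k50 k51 3 4))))), (.s k19
  k18 0 (.s k153 k221 9 (.s k86 k220 10 (.s k87 k84 0 (.d k223 k155 k154 9 10))))), (.s k48 k32 3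
  (.s k51 k34 4 (.s k50 k49 0 (.s k153 k221 9 (.s k154 k223 10 (.d k102 k204 k206 14 13))))))] .n)

def s6_255_177 : T TT 256 :=
  (.q k17 [(.s k18 k19 0 (.s k48 k32 3 (.s k3 k33 4 (.s k2 k1 0 (.d k34 k50 k51 3 4))))), (.s k19
  k18 0 (.s k153 k221 9 (.s k86 k220 10 (.s k87 k84 0 (.d k223 k155 k154 9 10))))), (.s k48 k32 3
  (.s k51 k34 4 (.s k50 k49 0 (.s k153 k221 9 (.s k154 k223 10 (.d k102 k204 k206 14 13))))))] .n)

def s6_255_178 : T TT 256 :=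
  (.q k17 [(.s k18 k19 0 (.s k48 k32 3 (.s k3 k33 4 (.s k2 k1 0 (.d k34 k50 k51 3 4))))), (.s k19
  k18 0 (.s k153 k221 9 (.s k86 k220 10 (.s k87 k84 0 (.d k223 k155 k154 9 10))))), (.s k48 k32 3
  (.s k51 k34 4 (.s k50 k49 0 (.s k153 k221 9 (.s k154 k223 10 (.d k102 k204 k206 14 13))))))] .n)

def s6_255_179 : T TT 256 :=
  (.q k17 [(.s k18 k19 0 (.s k48 k32 3 (.s k3 k33 4 (.s k2 k1 0 (.d k34 k50 k51 3 4))))), (.s k19
  k18 0 (.s k153 k221 9 (.s k86 k220 10 (.s k87 k84 0 (.d k223 k155 k154 9 10))))), (.s k48 k32 3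
  (.s k51 k34 4 (.s k50 k49 0 (.s k153 k221 9 (.s k154 k223 10 (.d k102 k204 k206 14 13))))))] .n)

def s6_255_180 : T TT 256 :=
  (.q k17 [(.s k18 k19 0 (.s k48 k32 3 (.s k3 k33 4 (.s k2 k1 0 (.d k34 k50 k51 3 4))))), (.s k19
  k18 0 (.s k153 k221 9 (.s k86 k220 10 (.s k87 k84 0 (.d k223 k155 k154 9 10))))), (.s k48 k32 3
  (.s k51 k34 4 (.s k50 k49 0 (.s k153 k221 9 (.s k154 k223 10 (.d k102 k204 k206 14 13))))))] .n)

def s6_255_181 : T TT 256 :=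
  (.q k17 [(.s k18 k19 0 (.s k48 k32 3 (.s k3 k33 4 (.s k2 k1 0 (.d k34 k50 k51 3 4))))), (.s k19
  k18 0 (.s k153 k221 9 (.s k86 k220 10 (.s k87 k84 0 (.d k223 k155 k154 9 10))))), (.s k48 k32 3
  (.s k51 k34 4 (.s k50 k49 0 (.s k153 k221 9 (.s k154 k223 10 (.d k102 k204 k206 14 13))))))] .n)

def s6_255_182 : T TT 256 :=
  (.q k17 [(.s k18 k19 0 (.s k48 k32 3 (.s k3 k33 4 (.s k2 k1 0 (.d k34 k50 k51 3 4))))), (.s k19
  k18 0 (.s k153 k221 9 (.s k86 k220 10 (.s k87 k84 0 (.d k223 k155 k154 9 10))))), (.s k48 k32 3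
  (.s k51 k34 4 (.s k50 k49 0 (.s k153 k221 9 (.s k154 k223 10 (.d k102 k204 k206 14 13))))))] .n)

def s6_255_183 : T TT 256 :=
  (.q k17 [(.s k18 k19 0 (.s k48 k32 3 (.s k3 k33 4 (.s k2 k1 0 (.d k34 k50 k51 3 4))))), (.s k19
  k18 0 (.s k153 k221 9 (.s k86 k220 10 (.s k87 k84 0 (.d k223 k155 k154 9 10))))), (.s k48 k32 3
  (.s k51 k34 4 (.s k50 k49 0 (.s k153 k221 9 (.s k154 k223 10 (.d k102 k204 k206 14 13))))))] .n)

def s6_255_184 : T TT 256 :=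
  (.q k17 [(.s k18 k19 0 (.s k48 k32 3 (.s k3 k33 4 (.s k2 k1 0 (.d k34 k50 k51 3 4))))), (.s k19
  k18 0 (.s k153 k221 9 (.s k86 k220 10 (.s k87 k84 0 (.d k223 k155 k154 9 10))))), (.s k48 k32 3
  (.s k51 k34 4 (.s k50 k49 0 (.s k153 k221 9 (.s k154 k223 10 (.d k102 k204 k206 14 13))))))] .n)

def s6_255_185 : T TT 256 :=
  (.q k17 [(.s k18 k19 0 (.s k48 k32 3 (.s k3 k33 4 (.s k2 k1 0 (.d k34 k50 k51 3 4))))), (.s k19
  k18 0 (.s k153 k221 9 (.s k86 k220 10 (.s k87 k84 0 (.d k223 k155 k154 9 10))))), (.s k48 k32 3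
  (.s k51 k34 4 (.s k50 k49 0 (.s k153 k221 9 (.s k154 k223 10 (.d k102 k204 k206 14 13))))))] .n)

def s6_255_186 : T TT 256 :=
  (.q k146 [(.s k48 k32 3 (.s k81 k211 8 (.s k97 k195 12 (.s k113 k65 3 (.d k243 k178 k162 8
  12))))), (.s k154 k223 10 (.s k150 k158 1 (.s k211 k81 8 (.s k28 k89 10 (.d k20 k24 k215 1 8))))),
  (.s k48 k32 3 (.s k154 k223 10 (.s k150 k158 1 (.s k195 k97 12 (.s k60 k105 14 (.d k20 k40 k215 5
  8))))))] (.c k48 (.q k117 [(.s k154 k223 10 (.s k211 k81 8 (.s k150 k158 1 (.s k28 k89 10 (.d k20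
  k24 k215 1 8))))), (.s k81 k211 8 (.s k89 k93 1 (.s k101 k69 3 (.s k113 k77 5 (.s k65 k97 3 (.d
  k125 k121 k105 1 5)))))), (.s k101 k69 3 (.s k154 k223 10 (.s k150 k158 1 (.s k52 k199 12 (.s k247
  k182 8 (.s k4 k166 12 (.d k20 k36 k215 3 8)))))))] (.c k93 (.l (.s k154 k223 10 (.s k211 k81 8 (.s
  k150 k158 1 (.s k28 k89 10 (.d k20 k24 k215 1 8)))))) .n)) (.c k117 (.l (.s k48 k32 3 (.s k81 k211
  8 (.s k97 k195 12 (.s k113 k65 3 (.d k243 k178 k162 8 12)))))) (.c k215 (.l (.s k48 k32 3 (.s k81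
  k211 8 (.s k162 k243 12 (.s k130 k178 3 (.d k195 k65 k97 8 12)))))) .n))))

def s6_255_187 : T TT 256 :=
  (.q k51 [(.s k17 k34 4 (.s k18 k19 0 (.s k48 k32 3 (.s k49 k50 0 (.d k33 k1 k3 3 4))))), (.s k48
  k32 3 (.s k50 k49 0 (.s k154 k223 10 (.s k102 k206 13 (.s k68 k119 4 (.d k204 k136 k153 9
  14)))))), (.s k17 k34 4 (.s k19 k18 0 (.s k153 k221 9 (.s k86 k220 10 (.s k87 k84 0 (.d k223 k155
  k154 9 10))))))] (.c k50 (.l (.s k17 k34 4 (.s k48 k32 3 (.s k153 k221 9 (.s k154 k223 10 (.s k152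
  k155 0 (.d k204 k100 k102 13 14))))))) .n))

def s6_255_188 : T TT 256 :=
  (.q k17 [(.s k18 k19 0 (.s k48 k32 3 (.s k3 k33 4 (.s k2 k1 0 (.d k34 k50 k51 3 4))))), (.s k19
  k18 0 (.s k153 k221 9 (.s k86 k220 10 (.s k87 k84 0 (.d k223 k155 k154 9 10))))), (.s k48 k32 3
  (.s k51 k34 4 (.s k50 k49 0 (.s k153 k221 9 (.s k154 k223 10 (.d k102 k204 k206 14 13))))))] .n)

def s6_255_189 : T TT 256 :=
  (.q k17 [(.s k18 k19 0 (.s k48 k32 3 (.s k3 k33 4 (.s k2 k1 0 (.d k34 k50 k51 3 4))))), (.s k19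
  k18 0 (.s k153 k221 9 (.s k86 k220 10 (.s k87 k84 0 (.d k223 k155 k154 9 10))))), (.s k48 k32 3
  (.s k51 k34 4 (.s k50 k49 0 (.s k153 k221 9 (.s k154 k223 10 (.d k102 k204 k206 14 13))))))] .n)

def s6_255_190 : T TT 256 :=
  (.q k60 [(.s k20 k40 5 (.s k24 k28 1 (.s k48 k32 3 (.s k52 k56 1 (.d k36 k4 k12 3 5))))), (.s k48
  k32 3 (.s k56 k52 1 (.s k154 k223 10 (.s k105 k203 12 (.s k65 k125 5 (.d k195 k130 k150 8
  14)))))), (.s k20 k40 5 (.s k28 k24 1 (.s k150 k215 8 (.s k89 k211 10 (.s k93 k81 1 (.d k223 k158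
  k154 8 10))))))] (.c k56 (.l (.s k20 k40 5 (.s k48 k32 3 (.s k150 k215 8 (.s k154 k223 10 (.s k146
  k158 1 (.d k195 k97 k105 12 14))))))) .n))

def s6_255_191 : T TT 256 :=
  (.q k63 [(.s k21 k42 6 (.s k26 k31 2 (.s k48 k32 3 (.s k53 k58 2 (.d k37 k5 k15 3 6))))), (.s k48
  k32 3 (.s k58 k53 2 (.s k154 k223 10 (.s k106 k202 11 (.s k64 k127 6 (.d k192 k128 k149 7
  14)))))), (.s k21 k42 6 (.s k31 k26 2 (.s k149 k213 7 (.s k90 k208 10 (.s k95 k80 2 (.d k223 k159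
  k154 7 10))))))] (.c k58 (.l (.s k21 k42 6 (.s k48 k32 3 (.s k149 k213 7 (.s k154 k223 10 (.s k144
  k159 2 (.d k192 k96 k106 11 14))))))) .n))

def s6_255_192 : T TT 256 :=
  (.q k21 [(.s k31 k26 2 (.s k223 k154 10 (.s k95 k159 7 (.s k90 k80 2 (.d k149 k213 k208 7 10))))),
  (.s k26 k31 2 (.s k48 k32 3 (.s k15 k37 6 (.s k10 k5 2 (.d k42 k58 k63 3 6))))), (.s k48 k32 3 (.s
  k63 k42 6 (.s k154 k223 10 (.s k207 k101 14 (.s k159 k111 11 (.d k149 k213 k144 7 2))))))] (.c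
  k213 (.q k234 [(.s k26 k31 2 (.s k48 k32 3 (.s k15 k37 6 (.s k10 k5 2 (.d k42 k58 k63 3 6))))),
  (.s k42 k63 6 (.s k48 k32 3 (.s k154 k223 10 (.s k207 k101 14 (.s k138 k69 10 (.d k170 k106 k186 7
  3)))))), (.s k26 k31 2 (.s k42 k63 6 (.s k58 k10 3 (.s k106 k170 7 (.d k154 k223 k202 10 11)))))]
  (.c k42 (.l (.s k26 k31 2 (.s k48 k32 3 (.s k37 k15 6 (.s k5 k53 3 (.s k154 k223 10 (.s k165 k245
  11 (.d k101 k229 k207 7 14)))))))) (.c k63 (.l (.s k26 k31 2 (.s k48 k32 3 (.s k15 k37 6 (.s k5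
  k10 2 (.s k154 k223 10 (.s k165 k245 11 (.d k90 k218 k240 7 14)))))))) .n))) (.c k234 (.l (.s k213
  k149 7 (.s k26 k31 2 (.s k48 k32 3 (.s k15 k37 6 (.s k10 k5 2 (.d k42 k63 k58 6 3))))))) .n)))

def s6_255_193 : T TT 256 :=
  (.q k17 [(.s k19 k18 0 (.s k153 k221 9 (.s k86 k220 10 (.s k87 k84 0 (.d k223 k155 k154 9 10))))),
  (.s k18 k19 0 (.s k34 k51 4 (.s k2 k50 3 (.s k3 k1 0 (.d k48 k32 k33 3 4))))), (.s k48 k32 3 (.s
  k51 k34 4 (.s k50 k49 0 (.s k153 k221 9 (.s k154 k223 10 (.d k102 k204 k206 14 13))))))] .n)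

def s6_255_194 : T TT 256 :=
  (.q k17 [(.s k18 k19 0 (.s k48 k32 3 (.s k3 k33 4 (.s k2 k1 0 (.d k34 k50 k51 3 4))))), (.s k19
  k18 0 (.s k153 k221 9 (.s k86 k220 10 (.s k87 k84 0 (.d k223 k155 k154 9 10))))), (.s k48 k32 3
  (.s k51 k34 4 (.s k50 k49 0 (.s k153 k221 9 (.s k154 k223 10 (.d k102 k204 k206 14 13))))))] .n)

def s6_255_195 : T TT 256 :=
  (.f k48 k32 3 (.q k20 [(.s k24 k28 1 (.s k12 k36 5 (.s k8 k4 1 (.d k40 k56 k60 3 5)))), (.s k28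
  k24 1 (.s k223 k154 10 (.s k93 k158 8 (.s k89 k81 1 (.d k150 k215 k211 8 10))))), (.s k60 k40 5
  (.s k154 k223 10 (.s k207 k101 14 (.s k158 k109 12 (.d k150 k215 k146 8 1)))))] (.c k215 (.q k235
  [(.s k24 k28 1 (.s k12 k36 5 (.s k8 k4 1 (.d k40 k56 k60 3 5)))), (.s k40 k60 5 (.s k154 k223 10
  (.s k207 k101 14 (.s k138 k69 10 (.d k170 k105 k186 8 3)))))] (.c k40 (.l (.s k24 k28 1 (.s k36
  k12 5 (.s k4 k52 3 (.s k154 k223 10 (.s k166 k247 12 (.d k101 k231 k207 8 14))))))) (.c k60 (.l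
  (.s k24 k28 1 (.s k12 k36 5 (.s k4 k8 1 (.s k154 k223 10 (.s k166 k247 12 (.d k89 k219 k243 8
  14))))))) .n))) (.c k235 (.l (.s k215 k150 8 (.s k24 k28 1 (.s k12 k36 5 (.s k8 k4 1 (.d k40 k60
  k56 5 3)))))) .n))))

def s6_255_196 : T TT 256 :=
  (.q k17 [(.s k18 k19 0 (.s k48 k32 3 (.s k3 k33 4 (.s k2 k1 0 (.d k34 k50 k51 3 4))))), (.s k19
  k18 0 (.s k153 k221 9 (.s k86 k220 10 (.s k87 k84 0 (.d k223 k155 k154 9 10))))), (.s k48 k32 3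
  (.s k51 k34 4 (.s k50 k49 0 (.s k153 k221 9 (.s k154 k223 10 (.d k102 k204 k206 14 13))))))] .n)

def s6_255_197 : T TT 256 :=
  (.q k17 [(.s k18 k19 0 (.s k48 k32 3 (.s k3 k33 4 (.s k2 k1 0 (.d k34 k50 k51 3 4))))), (.s k19
  k18 0 (.s k153 k221 9 (.s k86 k220 10 (.s k87 k84 0 (.d k223 k155 k154 9 10))))), (.s k48 k32 3
  (.s k51 k34 4 (.s k50 k49 0 (.s k153 k221 9 (.s k154 k223 10 (.d k102 k204 k206 14 13))))))] .n)

def s6_255_198 : T TT 256 :=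
  (.f k48 k32 3 (.f k223 k154 10 (.q k84 [(.s k86 k87 0 (.s k220 k152 9 (.s k153 k19 10 (.d k221
  k222 k17 0 9)))), (.s k152 k220 9 (.s k168 k252 13 (.s k136 k184 3 (.d k204 k68 k100 9 13)))), (.s
  k86 k87 0 (.s k252 k168 13 (.s k3 k169 14 (.s k2 k1 0 (.s k18 k33 4 (.s k17 k19 0 (.d k34 k50 k51
  3 4)))))))] (.c k70 (.q k134 [(.s k86 k87 0 (.s k220 k152 9 (.s k153 k19 10 (.d k221 k222 k17 0
  9)))), (.s k152 k220 9 (.s k168 k252 13 (.s k136 k184 3 (.d k204 k68 k100 9 13)))), (.s k86 k87 0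
  (.s k252 k168 13 (.s k3 k169 14 (.s k2 k1 0 (.s k18 k33 4 (.s k17 k19 0 (.d k34 k50 k51 3
  4)))))))] .n) (.c k134 (.q k70 [(.s k86 k87 0 (.s k220 k152 9 (.s k153 k19 10 (.d k221 k222 k17 0
  9)))), (.s k152 k220 9 (.s k168 k252 13 (.s k136 k184 3 (.d k204 k68 k100 9 13)))), (.s k86 k87 0
  (.s k102 k118 3 (.s k68 k119 4 (.s k71 k69 0 (.d k116 k100 k101 3 4)))))] .n) .n)))))

def s6_255_199 : T TT 256 :=
  (.q k17 [(.s k18 k19 0 (.s k48 k32 3 (.s k3 k33 4 (.s k2 k1 0 (.d k34 k50 k51 3 4))))), (.s k19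
  k18 0 (.s k153 k221 9 (.s k86 k220 10 (.s k87 k84 0 (.d k223 k155 k154 9 10))))), (.s k48 k32 3
  (.s k51 k34 4 (.s k50 k49 0 (.s k153 k221 9 (.s k154 k223 10 (.d k102 k204 k206 14 13))))))] .n)

def s6_255_200 : T TT 256 :=
  (.q k17 [(.s k18 k19 0 (.s k48 k32 3 (.s k3 k33 4 (.s k2 k1 0 (.d k34 k50 k51 3 4))))), (.s k19
  k18 0 (.s k153 k221 9 (.s k86 k220 10 (.s k87 k84 0 (.d k223 k155 k154 9 10))))), (.s k48 k32 3
  (.s k51 k34 4 (.s k50 k49 0 (.s k153 k221 9 (.s k154 k223 10 (.d k102 k204 k206 14 13))))))] .n)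

def s6_255_201 : T TT 256 :=
  (.q k17 [(.s k18 k19 0 (.s k48 k32 3 (.s k3 k33 4 (.s k2 k1 0 (.d k34 k50 k51 3 4))))), (.s k19
  k18 0 (.s k153 k221 9 (.s k86 k220 10 (.s k87 k84 0 (.d k223 k155 k154 9 10))))), (.s k48 k32 3
  (.s k51 k34 4 (.s k50 k49 0 (.s k153 k221 9 (.s k154 k223 10 (.d k102 k204 k206 14 13))))))] .n)

def s6_255_202 : T TT 256 :=
  (.q k17 [(.s k18 k19 0 (.s k48 k32 3 (.s k3 k33 4 (.s k2 k1 0 (.d k34 k50 k51 3 4))))), (.s k19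
  k18 0 (.s k153 k221 9 (.s k86 k220 10 (.s k87 k84 0 (.d k223 k155 k154 9 10))))), (.s k48 k32 3
  (.s k51 k34 4 (.s k50 k49 0 (.s k153 k221 9 (.s k154 k223 10 (.d k102 k204 k206 14 13))))))] .n)

def s6_255_203 : T TT 256 :=
  (.q k17 [(.s k18 k19 0 (.s k48 k32 3 (.s k3 k33 4 (.s k2 k1 0 (.d k34 k50 k51 3 4))))), (.s k19
  k18 0 (.s k153 k221 9 (.s k86 k220 10 (.s k87 k84 0 (.d k223 k155 k154 9 10))))), (.s k48 k32 3
  (.s k51 k34 4 (.s k50 k49 0 (.s k153 k221 9 (.s k154 k223 10 (.d k102 k204 k206 14 13))))))] .n)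

def s6_255_204 : T TT 256 :=
  (.f k48 k32 3 (.q k17 [(.s k18 k19 0 (.s k3 k33 4 (.s k2 k1 0 (.d k34 k50 k51 3 4)))), (.s k19 k18
  0 (.s k223 k154 10 (.s k87 k155 9 (.s k86 k84 0 (.d k153 k221 k220 9 10))))), (.s k51 k34 4 (.s
  k154 k223 10 (.s k207 k101 14 (.s k155 k103 13 (.d k153 k221 k152 9 0)))))] (.c k221 (.q k238 [(.s
  k18 k19 0 (.s k3 k33 4 (.s k2 k1 0 (.d k34 k50 k51 3 4)))), (.s k34 k51 4 (.s k154 k223 10 (.s
  k207 k101 14 (.s k138 k69 10 (.d k170 k102 k186 9 3)))))] (.c k34 (.l (.s k18 k19 0 (.s k33 k3 4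
  (.s k1 k49 3 (.s k154 k223 10 (.s k169 k253 13 (.d k101 k237 k207 9 14))))))) (.c k51 (.l (.s k18
  k19 0 (.s k3 k33 4 (.s k1 k2 0 (.s k154 k223 10 (.s k169 k253 13 (.d k86 k222 k252 9 14)))))))
  .n))) (.c k238 (.l (.s k221 k153 9 (.s k18 k19 0 (.s k3 k33 4 (.s k2 k1 0 (.d k34 k51 k50 4
  3)))))) .n))))

def s6_255_205 : T TT 256 :=
  (.q k17 [(.s k18 k19 0 (.s k48 k32 3 (.s k3 k33 4 (.s k34 k51 4 (.d k2 k1 k50 0 3))))), (.s k19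
  k18 0 (.s k153 k221 9 (.s k86 k220 10 (.s k87 k84 0 (.d k223 k155 k154 9 10))))), (.s k48 k32 3
  (.s k51 k34 4 (.s k50 k49 0 (.s k153 k221 9 (.s k154 k223 10 (.d k102 k204 k206 14 13))))))] .n)

def s6_255_206 : T TT 256 :=
  (.q k17 [(.s k18 k19 0 (.s k48 k32 3 (.s k3 k33 4 (.s k2 k1 0 (.d k34 k50 k51 3 4))))), (.s k19
  k18 0 (.s k153 k221 9 (.s k86 k220 10 (.s k87 k84 0 (.d k223 k155 k154 9 10)))))] (.c k18 (.l (.s
  k48 k32 3 (.s k51 k34 4 (.s k153 k221 9 (.s k154 k223 10 (.s k152 k155 0 (.d k204 k100 k102 13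
  14))))))) (.c k19 (.l (.s k48 k32 3 (.s k51 k34 4 (.s k49 k50 0 (.s k153 k221 9 (.s k101 k205 13
  (.d k154 k207 k223 14 10))))))) .n)))

def s6_255_207 : T TT 256 :=
  (.f k48 k32 3 (.q k21 [(.s k26 k31 2 (.s k15 k37 6 (.s k10 k5 2 (.d k42 k58 k63 3 6)))), (.s k31
  k26 2 (.s k149 k213 7 (.s k90 k208 10 (.s k95 k80 2 (.d k223 k159 k154 7 10))))), (.s k63 k42 6
  (.s k149 k213 7 (.s k192 k106 14 (.s k144 k96 11 (.d k154 k223 k159 10 2)))))] (.c k223 (.q k239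
  [(.s k63 k42 6 (.s k53 k58 2 (.s k37 k5 3 (.d k26 k31 k15 2 6)))), (.s k31 k26 2 (.s k149 k213 7
  (.s k208 k90 10 (.s k144 k80 7 (.s k192 k96 11 (.s k64 k128 7 (.d k106 k127 k63 6 14))))))), (.s
  k63 k42 6 (.s k149 k213 7 (.s k192 k106 14 (.s k128 k64 7 (.s k144 k96 11 (.s k160 k176 3 (.d k80
  k208 k240 7 11)))))))] (.c k63 (.f k26 k31 2 (.f k15 k37 6 (.l (.s k5 k10 2 (.s k165 k245 11 (.s
  k240 k90 14 (.s k80 k160 11 (.s k112 k176 7 (.s k96 k64 3 (.d k144 k208 k192 7 11)))))))))) .n))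
  (.c k239 (.l (.s k223 k154 10 (.s k26 k31 2 (.s k15 k37 6 (.s k10 k5 2 (.d k42 k58 k63 3 6))))))
  .n))))

def s6_255_208 : T TT 256 :=
  (.q k17 [(.s k18 k19 0 (.s k48 k32 3 (.s k3 k33 4 (.s k2 k1 0 (.d k34 k50 k51 3 4))))), (.s k19
  k18 0 (.s k153 k221 9 (.s k86 k220 10 (.s k87 k84 0 (.d k223 k155 k154 9 10))))), (.s k48 k32 3
  (.s k51 k34 4 (.s k50 k49 0 (.s k153 k221 9 (.s k154 k223 10 (.d k102 k204 k206 14 13))))))] .n)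

def s6_255_209 : T TT 256 :=
  (.q k17 [(.s k18 k19 0 (.s k48 k32 3 (.s k3 k33 4 (.s k2 k1 0 (.d k34 k50 k51 3 4))))), (.s k19
  k18 0 (.s k153 k221 9 (.s k86 k220 10 (.s k87 k84 0 (.d k223 k155 k154 9 10))))), (.s k48 k32 3
  (.s k51 k34 4 (.s k50 k49 0 (.s k153 k221 9 (.s k154 k223 10 (.d k102 k204 k206 14 13))))))] .n)

def s6_255_210 : T TT 256 :=
  (.q k17 [(.s k18 k19 0 (.s k48 k32 3 (.s k3 k33 4 (.s k2 k1 0 (.d k34 k50 k51 3 4))))), (.s k19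
  k18 0 (.s k153 k221 9 (.s k86 k220 10 (.s k87 k84 0 (.d k223 k155 k154 9 10))))), (.s k48 k32 3
  (.s k51 k34 4 (.s k50 k49 0 (.s k153 k221 9 (.s k154 k223 10 (.d k102 k204 k206 14 13))))))] .n)

def s6_255_211 : T TT 256 :=
  (.q k17 [(.s k18 k19 0 (.s k48 k32 3 (.s k3 k33 4 (.s k2 k1 0 (.d k34 k50 k51 3 4))))), (.s k19
  k18 0 (.s k153 k221 9 (.s k86 k220 10 (.s k87 k84 0 (.d k223 k155 k154 9 10))))), (.s k48 k32 3
  (.s k51 k34 4 (.s k50 k49 0 (.s k153 k221 9 (.s k154 k223 10 (.d k102 k204 k206 14 13))))))] .n)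

def s6_255_212 : T TT 256 :=
  (.q k17 [(.s k18 k19 0 (.s k48 k32 3 (.s k3 k33 4 (.s k2 k1 0 (.d k34 k50 k51 3 4))))), (.s k19
  k18 0 (.s k153 k221 9 (.s k86 k220 10 (.s k87 k84 0 (.d k223 k155 k154 9 10))))), (.s k48 k32 3
  (.s k51 k34 4 (.s k50 k49 0 (.s k153 k221 9 (.s k154 k223 10 (.d k102 k204 k206 14 13))))))] .n)

def s6_255_213 : T TT 256 :=
  (.q k192 [(.s k48 k32 3 (.s k128 k64 7 (.s k144 k96 11 (.s k160 k176 3 (.d k80 k208 k240 7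
  11))))), (.s k64 k128 7 (.s k106 k127 6 (.s k154 k223 10 (.s k202 k58 11 (.s k207 k197 2 (.s k69
  k138 10 (.d k101 k117 k48 3 14))))))), (.s k48 k32 3 (.s k144 k96 11 (.s k154 k223 10 (.s k149
  k159 2 (.s k63 k106 14 (.s k53 k58 2 (.d k101 k207 k197 14 11)))))))] (.c k48 (.f k64 k128 7 (.f
  k106 k127 6 (.l (.s k63 k149 14 (.s k42 k21 6 (.s k154 k223 10 (.s k170 k234 7 (.s k202 k58 11 (.s
  k207 k197 2 (.d k138 k186 k69 3 10)))))))))) (.c k208 (.l (.s k48 k32 3 (.s k64 k128 7 (.s k96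
  k144 11 (.s k106 k127 6 (.s k101 k111 2 (.d k154 k223 k207 10 14))))))) .n)))

def s6_255_214 : T TT 256 :=
  (.q k17 [(.s k18 k19 0 (.s k48 k32 3 (.s k3 k33 4 (.s k2 k1 0 (.d k34 k50 k51 3 4))))), (.s k19
  k18 0 (.s k153 k221 9 (.s k86 k220 10 (.s k87 k84 0 (.d k223 k155 k154 9 10))))), (.s k48 k32 3
  (.s k51 k34 4 (.s k50 k49 0 (.s k153 k221 9 (.s k154 k223 10 (.d k102 k204 k206 14 13))))))] .n)

def s6_255_215 : T TT 256 :=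
  (.q k195 [(.s k48 k32 3 (.s k130 k65 8 (.s k146 k97 12 (.s k162 k178 3 (.d k81 k211 k243 8
  12))))), (.s k65 k130 8 (.s k105 k125 5 (.s k154 k223 10 (.s k203 k56 12 (.s k207 k199 1 (.s k69
  k138 10 (.d k101 k117 k48 3 14))))))), (.s k48 k32 3 (.s k146 k97 12 (.s k154 k223 10 (.s k150
  k158 1 (.s k60 k105 14 (.s k52 k56 1 (.d k101 k207 k199 14 12)))))))] (.c k48 (.f k65 k130 8 (.f
  k105 k125 5 (.l (.s k60 k150 14 (.s k40 k20 5 (.s k154 k223 10 (.s k170 k235 8 (.s k203 k56 12 (.s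
  k207 k199 1 (.d k138 k186 k69 3 10)))))))))) (.c k211 (.l (.s k48 k32 3 (.s k65 k130 8 (.s k97
  k146 12 (.s k105 k125 5 (.s k101 k109 1 (.d k154 k223 k207 10 14))))))) .n)))

def s6_255_216 : T TT 256 :=
  (.q k17 [(.s k18 k19 0 (.s k48 k32 3 (.s k3 k33 4 (.s k2 k1 0 (.d k34 k50 k51 3 4))))), (.s k19
  k18 0 (.s k153 k221 9 (.s k86 k220 10 (.s k87 k84 0 (.d k223 k155 k154 9 10))))), (.s k48 k32 3
  (.s k51 k34 4 (.s k50 k49 0 (.s k153 k221 9 (.s k154 k223 10 (.d k102 k204 k206 14 13))))))] .n)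

def s6_255_217 : T TT 256 :=
  (.q k17 [(.s k18 k19 0 (.s k48 k32 3 (.s k3 k33 4 (.s k2 k1 0 (.d k34 k50 k51 3 4))))), (.s k19
  k18 0 (.s k153 k221 9 (.s k86 k220 10 (.s k87 k84 0 (.d k223 k155 k154 9 10))))), (.s k48 k32 3
  (.s k51 k34 4 (.s k50 k49 0 (.s k153 k221 9 (.s k154 k223 10 (.d k102 k204 k206 14 13))))))] .n)

def s6_255_218 : T TT 256 :=
  (.q k17 [(.s k18 k19 0 (.s k48 k32 3 (.s k3 k33 4 (.s k2 k1 0 (.d k34 k50 k51 3 4))))), (.s k19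
  k18 0 (.s k153 k221 9 (.s k86 k220 10 (.s k87 k84 0 (.d k223 k155 k154 9 10))))), (.s k48 k32 3
  (.s k51 k34 4 (.s k50 k49 0 (.s k153 k221 9 (.s k154 k223 10 (.d k102 k204 k206 14 13))))))] .n)

def s6_255_219 : T TT 256 :=
  (.q k17 [(.s k18 k19 0 (.s k48 k32 3 (.s k3 k33 4 (.s k2 k1 0 (.d k34 k50 k51 3 4))))), (.s k19
  k18 0 (.s k153 k221 9 (.s k86 k220 10 (.s k87 k84 0 (.d k223 k155 k154 9 10))))), (.s k48 k32 3
  (.s k51 k34 4 (.s k50 k49 0 (.s k153 k221 9 (.s k154 k223 10 (.d k102 k204 k206 14 13))))))] .n)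

def s6_255_220 : T TT 256 :=
  (.q k20 [(.s k28 k24 1 (.s k150 k215 8 (.s k89 k211 10 (.s k93 k81 1 (.d k223 k158 k154 8 10))))),
  (.s k24 k28 1 (.s k40 k60 5 (.s k8 k56 3 (.s k12 k4 1 (.d k48 k32 k36 3 5))))), (.s k48 k32 3 (.s
  k60 k40 5 (.s k56 k52 1 (.s k150 k215 8 (.s k154 k223 10 (.d k105 k195 k203 14 12))))))] .n)

def s6_255_221 : T TT 256 :=
  (.f k48 k32 3 (.q k204 [(.s k136 k68 9 (.s k152 k100 13 (.s k168 k184 3 (.d k84 k220 k252 9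
  13)))), (.s k68 k136 9 (.s k102 k119 4 (.s k51 k153 14 (.s k50 k49 0 (.d k154 k223 k206 10
  13))))), (.s k152 k100 13 (.s k154 k223 10 (.s k153 k155 0 (.s k51 k102 14 (.s k49 k50 0 (.d k101
  k207 k205 14 13))))))] .n))

def s6_255_222 : T TT 256 :=
  (.q k17 [(.s k18 k19 0 (.s k48 k32 3 (.s k3 k33 4 (.s k2 k1 0 (.d k34 k50 k51 3 4))))), (.s k19
  k18 0 (.s k153 k221 9 (.s k86 k220 10 (.s k223 k154 10 (.d k87 k84 k155 0 9))))), (.s k48 k32 3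
  (.s k51 k34 4 (.s k50 k49 0 (.s k154 k223 10 (.s k102 k206 13 (.d k153 k221 k204 9 14))))))] .n)

def s6_255_223 : T TT 256 :=
  (.f k48 k32 3 (.q k81 [(.s k243 k162 12 (.s k113 k178 8 (.s k97 k65 3 (.d k146 k211 k195 8 12)))),
  (.s k89 k93 1 (.s k211 k146 8 (.s k28 k150 10 (.s k24 k20 1 (.s k12 k36 5 (.d k243 k162 k166 12
  14)))))), (.s k89 k93 1 (.s k243 k162 12 (.s k12 k166 14 (.s k8 k4 1 (.s k24 k36 5 (.s k40 k56 3
  (.d k20 k28 k60 1 5)))))))] (.c k162 (.l (.s k89 k93 1 (.s k146 k211 8 (.s k97 k195 12 (.s k113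
  k65 3 (.s k101 k77 5 (.s k69 k117 3 (.d k207 k138 k154 10 14)))))))) (.c k207 (.q k239 [(.s k243
  k162 12 (.s k113 k178 8 (.s k97 k65 3 (.d k146 k211 k195 8 12)))), (.s k89 k93 1 (.s k211 k146 8
  (.s k28 k150 10 (.s k24 k20 1 (.s k12 k36 5 (.s k4 k8 1 (.d k166 k247 k243 12 14))))))), (.s k89
  k93 1 (.s k243 k162 12 (.s k12 k166 14 (.s k8 k4 1 (.s k24 k36 5 (.s k40 k56 3 (.d k20 k28 k60 1
  5)))))))] (.c k243 (.f k146 k211 8 (.f k195 k97 12 (.l (.s k65 k130 8 (.s k105 k125 5 (.s k60 k150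
  14 (.s k20 k40 5 (.s k52 k56 1 (.s k36 k4 3 (.d k24 k28 k12 1 5)))))))))) .n)) (.c k239 (.q k207
  [(.s k69 k138 10 (.d k101 k117 k154 3 14)), (.s k146 k211 8 (.s k97 k195 12 (.s k113 k65 3 (.d
  k243 k178 k162 8 12))))] (.c k101 (.q k170 [(.s k146 k211 8 (.s k97 k195 12 (.s k113 k65 3 (.d
  k243 k178 k162 8 12)))), (.s k89 k93 1 (.s k8 k251 12 (.s k12 k4 1 (.s k24 k36 5 (.s k40 k56 3 (.d
  k20 k28 k60 1 5))))))] (.c k243 (.l (.s k89 k93 1 (.s k138 k69 10 (.s k146 k211 8 (.s k195 k97 12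
  (.s k203 k199 1 (.d k8 k73 k251 8 12))))))) .n)) (.c k170 (.l (.s k101 k154 14 (.d k69 k138 k117
  10 3))) .n))) (.c k243 (.f k146 k211 8 (.f k195 k97 12 (.l (.s k65 k130 8 (.s k105 k125 5 (.s k60
  k150 14 (.s k20 k40 5 (.s k52 k56 1 (.s k36 k4 3 (.d k24 k28 k12 1 5)))))))))) .n))))))

def s6_255_224 : T TT 256 :=
  (.q k17 [(.s k19 k18 0 (.s k153 k221 9 (.s k86 k220 10 (.s k87 k84 0 (.d k223 k155 k154 9 10))))),
  (.s k18 k19 0 (.s k34 k51 4 (.s k2 k50 3 (.s k3 k1 0 (.d k48 k32 k33 3 4))))), (.s k48 k32 3 (.s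
  k51 k34 4 (.s k50 k49 0 (.s k153 k221 9 (.s k154 k223 10 (.d k102 k204 k206 14 13))))))] .n)

def s6_255_225 : T TT 256 :=
  (.q k17 [(.s k19 k18 0 (.s k153 k221 9 (.s k86 k220 10 (.s k87 k84 0 (.d k223 k155 k154 9 10))))),
  (.s k18 k19 0 (.s k34 k51 4 (.s k2 k50 3 (.s k3 k1 0 (.d k48 k32 k33 3 4))))), (.s k48 k32 3 (.s
  k51 k34 4 (.s k50 k49 0 (.s k153 k221 9 (.s k154 k223 10 (.d k102 k204 k206 14 13))))))] .n)

def s6_255_226 : T TT 256 :=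
  (.q k17 [(.s k18 k19 0 (.s k48 k32 3 (.s k3 k33 4 (.s k2 k1 0 (.d k34 k50 k51 3 4))))), (.s k19
  k18 0 (.s k153 k221 9 (.s k86 k220 10 (.s k87 k84 0 (.d k223 k155 k154 9 10))))), (.s k48 k32 3
  (.s k51 k34 4 (.s k50 k49 0 (.s k153 k221 9 (.s k154 k223 10 (.d k102 k204 k206 14 13))))))] .n)

def s6_255_227 : T TT 256 :=
  (.q k17 [(.s k19 k18 0 (.s k153 k221 9 (.s k86 k220 10 (.s k87 k84 0 (.d k223 k155 k154 9 10))))),
  (.s k18 k19 0 (.s k34 k51 4 (.s k2 k50 3 (.s k3 k1 0 (.d k48 k32 k33 3 4))))), (.s k48 k32 3 (.s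
  k51 k34 4 (.s k50 k49 0 (.s k153 k221 9 (.s k154 k223 10 (.d k102 k204 k206 14 13))))))] .n)

def s6_255_228 : T TT 256 :=
  (.q k17 [(.s k18 k19 0 (.s k48 k32 3 (.s k3 k33 4 (.s k2 k1 0 (.d k34 k50 k51 3 4))))), (.s k19
  k18 0 (.s k153 k221 9 (.s k86 k220 10 (.s k87 k84 0 (.d k223 k155 k154 9 10))))), (.s k48 k32 3
  (.s k51 k34 4 (.s k50 k49 0 (.s k153 k221 9 (.s k154 k223 10 (.d k102 k204 k206 14 13))))))] .n)

def s6_255_229 : T TT 256 :=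
  (.q k17 [(.s k18 k19 0 (.s k48 k32 3 (.s k3 k33 4 (.s k2 k1 0 (.d k34 k50 k51 3 4))))), (.s k19
  k18 0 (.s k153 k221 9 (.s k86 k220 10 (.s k87 k84 0 (.d k223 k155 k154 9 10))))), (.s k48 k32 3
  (.s k51 k34 4 (.s k50 k49 0 (.s k153 k221 9 (.s k154 k223 10 (.d k102 k204 k206 14 13))))))] .n)

def s6_255_230 : T TT 256 :=
  (.q k17 [(.s k18 k19 0 (.s k48 k32 3 (.s k3 k33 4 (.s k2 k1 0 (.d k34 k50 k51 3 4))))), (.s k19
  k18 0 (.s k153 k221 9 (.s k86 k220 10 (.s k87 k84 0 (.d k223 k155 k154 9 10))))), (.s k48 k32 3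
  (.s k51 k34 4 (.s k50 k49 0 (.s k153 k221 9 (.s k154 k223 10 (.d k102 k204 k206 14 13))))))] .n)

def s6_255_231 : T TT 256 :=
  (.q k17 [(.s k18 k19 0 (.s k48 k32 3 (.s k3 k33 4 (.s k2 k1 0 (.d k34 k50 k51 3 4))))), (.s k19
  k18 0 (.s k153 k221 9 (.s k86 k220 10 (.s k87 k84 0 (.d k223 k155 k154 9 10))))), (.s k48 k32 3
  (.s k51 k34 4 (.s k50 k49 0 (.s k153 k221 9 (.s k154 k223 10 (.d k102 k204 k206 14 13))))))] .n)

def s6_255_232 : T TT 256 :=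
  (.q k17 [(.s k18 k19 0 (.s k48 k32 3 (.s k3 k33 4 (.s k2 k1 0 (.d k34 k50 k51 3 4))))), (.s k19
  k18 0 (.s k153 k221 9 (.s k86 k220 10 (.s k87 k84 0 (.d k223 k155 k154 9 10))))), (.s k48 k32 3
  (.s k51 k34 4 (.s k50 k49 0 (.s k153 k221 9 (.s k154 k223 10 (.d k102 k204 k206 14 13))))))] .n)

def s6_255_233 : T TT 256 :=
  (.q k17 [(.s k18 k19 0 (.s k48 k32 3 (.s k3 k33 4 (.s k2 k1 0 (.d k34 k50 k51 3 4))))), (.s k19
  k18 0 (.s k153 k221 9 (.s k86 k220 10 (.s k87 k84 0 (.d k223 k155 k154 9 10))))), (.s k48 k32 3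
  (.s k51 k34 4 (.s k50 k49 0 (.s k153 k221 9 (.s k154 k223 10 (.d k102 k204 k206 14 13))))))] .n)

def s6_255_234 : T TT 256 :=
  (.q k192 [(.s k48 k32 3 (.s k128 k64 7 (.s k144 k96 11 (.s k80 k208 7 (.d k160 k176 k240 3
  11))))), (.s k64 k128 7 (.s k106 k127 6 (.s k154 k223 10 (.s k202 k58 11 (.s k207 k197 2 (.s k69
  k138 10 (.d k101 k117 k48 3 14))))))), (.s k48 k32 3 (.s k144 k96 11 (.s k154 k223 10 (.s k149
  k159 2 (.s k21 k213 7 (.d k63 k42 k106 6 14))))))] (.c k48 (.q k69 [(.s k64 k128 7 (.s k74 k79 2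
  (.s k15 k133 10 (.s k10 k5 2 (.d k138 k202 k207 7 10))))), (.s k154 k223 10 (.s k207 k138 10 (.s
  k202 k197 2 (.s k106 k58 11 (.s k63 k149 14 (.s k111 k159 11 (.d k101 k117 k96 3 2))))))), (.s k64
  k128 7 (.s k79 k74 2 (.s k127 k106 6 (.s k95 k111 3 (.s k90 k80 2 (.d k101 k117 k112 3 6))))))]
  (.c k117 (.q k186 [(.s k138 k207 10 (.d k154 k223 k170 10 3)), (.s k64 k128 7 (.s k74 k79 2 (.s
  k15 k133 10 (.s k10 k5 2 (.d k138 k202 k207 7 10))))), (.s k64 k128 7 (.s k74 k79 2 (.s k106 k127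
  6 (.s k122 k90 3 (.s k58 k250 7 (.d k154 k202 k223 11 10))))))] .n) (.c k186 (.l (.s k117 k101 3
  (.s k64 k128 7 (.s k74 k79 2 (.s k15 k133 10 (.s k10 k5 2 (.d k138 k207 k202 10 7))))))) .n)))
  .n))

def s6_255_235 : T TT 256 :=
  (.q k195 [(.s k48 k32 3 (.s k130 k65 8 (.s k146 k97 12 (.s k81 k211 8 (.d k162 k178 k243 3
  12))))), (.s k65 k130 8 (.s k105 k125 5 (.s k154 k223 10 (.s k203 k56 12 (.s k207 k199 1 (.s k69
  k138 10 (.d k101 k117 k48 3 14))))))), (.s k48 k32 3 (.s k146 k97 12 (.s k154 k223 10 (.s k150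
  k158 1 (.s k20 k215 8 (.d k60 k40 k105 5 14))))))] (.c k48 (.f k223 k154 10 (.f k65 k130 8 (.f
  k105 k125 5 (.l (.s k60 k150 14 (.s k20 k40 5 (.s k28 k24 1 (.s k12 k44 3 (.s k73 k134 10 (.s k89
  k121 3 (.d k93 k158 k81 8 1))))))))))) .n))

def s6_255_236 : T TT 256 :=
  (.q k17 [(.s k18 k19 0 (.s k48 k32 3 (.s k3 k33 4 (.s k2 k1 0 (.d k34 k50 k51 3 4))))), (.s k19
  k18 0 (.s k153 k221 9 (.s k86 k220 10 (.s k87 k84 0 (.d k223 k155 k154 9 10))))), (.s k48 k32 3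
  (.s k51 k34 4 (.s k50 k49 0 (.s k153 k221 9 (.s k154 k223 10 (.d k102 k204 k206 14 13))))))] .n)

def s6_255_237 : T TT 256 :=
  (.q k17 [(.s k18 k19 0 (.s k48 k32 3 (.s k3 k33 4 (.s k2 k1 0 (.d k34 k50 k51 3 4))))), (.s k19
  k18 0 (.s k153 k221 9 (.s k86 k220 10 (.s k87 k84 0 (.d k223 k155 k154 9 10))))), (.s k48 k32 3
  (.s k51 k34 4 (.s k50 k49 0 (.s k153 k221 9 (.s k154 k223 10 (.d k102 k204 k206 14 13))))))] .n)

def s6_255_238 : T TT 256 :=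
  (.f k48 k32 3 (.q k204 [(.s k136 k68 9 (.s k152 k100 13 (.s k84 k220 9 (.d k168 k184 k252 3
  13)))), (.s k68 k136 9 (.s k102 k119 4 (.s k51 k153 14 (.s k50 k49 0 (.d k154 k223 k206 10
  13))))), (.s k152 k100 13 (.s k154 k223 10 (.s k153 k155 0 (.s k17 k221 9 (.d k51 k34 k102 4
  14)))))] .n))

def s6_255_239 : T TT 256 :=
  (.q k84 [(.s k86 k87 0 (.s k220 k152 9 (.s k19 k153 10 (.s k18 k17 0 (.d k154 k223 k222 10 9))))),
  (.s k48 k32 3 (.s k152 k220 9 (.s k100 k204 13 (.s k116 k68 3 (.d k252 k184 k168 9 13))))), (.s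
  k48 k32 3 (.s k86 k87 0 (.s k252 k168 13 (.s k3 k169 14 (.s k18 k33 4 (.d k154 k223 k222 10
  9))))))] (.c k207 (.l (.s k223 k154 10 (.s k86 k87 0 (.s k220 k152 9 (.s k153 k19 10 (.d k221 k222
  k17 0 9)))))) (.c k223 (.q k207 [(.s k48 k32 3 (.s k69 k138 10 (.d k101 k117 k154 3 14))), (.s
  k152 k220 9 (.s k168 k252 13 (.s k136 k184 3 (.s k204 k68 9 (.d k48 k32 k100 3 13))))), (.s k69
  k138 10 (.s k86 k87 0 (.s k252 k168 13 (.s k3 k169 14 (.s k71 k139 9 (.d k101 k117 k116 3 4))))))]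
  .n) .n)))

def s6_255_240 : T TT 256 :=
  (.f k223 k154 10 (.f k48 k32 3 (.q k81 [(.s k89 k93 1 (.s k211 k146 8 (.s k150 k28 10 (.d k215
  k219 k20 1 8)))), (.s k146 k211 8 (.s k162 k243 12 (.s k130 k178 3 (.d k195 k65 k97 8 12)))), (.s
  k89 k93 1 (.s k243 k162 12 (.s k12 k166 14 (.s k8 k4 1 (.s k24 k36 5 (.s k20 k28 1 (.d k40 k56 k60
  3 5)))))))] (.c k245 (.q k250 [(.s k89 k93 1 (.s k211 k146 8 (.s k150 k28 10 (.d k215 k219 k20 1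
  8)))), (.s k146 k211 8 (.s k162 k243 12 (.s k130 k178 3 (.d k195 k65 k97 8 12)))), (.s k89 k93 1
  (.s k243 k162 12 (.s k12 k166 14 (.s k8 k4 1 (.s k24 k36 5 (.s k20 k28 1 (.d k40 k56 k60 3
  5)))))))] .n) (.c k250 (.q k245 [(.s k89 k93 1 (.s k211 k146 8 (.s k150 k28 10 (.d k215 k219 k20 1
  8)))), (.s k146 k211 8 (.s k162 k243 12 (.s k130 k178 3 (.d k195 k65 k97 8 12)))), (.s k89 k93 1
  (.s k165 k5 11 (.s k241 k13 13 (.s k1 k161 11 (.d k253 k249 k169 1 13)))))] .n) .n)))))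

def s6_255_241 : T TT 256 :=
  (.q k17 [(.s k19 k18 0 (.s k153 k221 9 (.s k86 k220 10 (.s k87 k84 0 (.d k223 k155 k154 9 10))))),
  (.s k18 k19 0 (.s k34 k51 4 (.s k2 k50 3 (.s k3 k1 0 (.d k48 k32 k33 3 4))))), (.s k48 k32 3 (.s
  k51 k34 4 (.s k50 k49 0 (.s k153 k221 9 (.s k154 k223 10 (.d k102 k204 k206 14 13))))))] .n)

def s6_255_242 : T TT 256 :=
  (.q k17 [(.s k18 k19 0 (.s k48 k32 3 (.s k3 k33 4 (.s k2 k1 0 (.d k34 k50 k51 3 4))))), (.s k19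
  k18 0 (.s k153 k221 9 (.s k86 k220 10 (.s k87 k84 0 (.d k223 k155 k154 9 10))))), (.s k48 k32 3
  (.s k51 k34 4 (.s k50 k49 0 (.s k153 k221 9 (.s k154 k223 10 (.d k102 k204 k206 14 13))))))] .n)

def s6_255_243 : T TT 256 :=
  (.f k223 k154 10 (.f k48 k32 3 (.q k80 [(.s k90 k95 2 (.s k208 k144 7 (.s k149 k31 10 (.d k213
  k218 k21 2 7)))), (.s k144 k208 7 (.s k160 k240 11 (.s k128 k176 3 (.d k192 k64 k96 7 11)))), (.s
  k90 k95 2 (.s k240 k160 11 (.s k15 k165 14 (.s k10 k5 2 (.s k26 k37 6 (.s k21 k31 2 (.d k42 k58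
  k63 3 6)))))))] (.c k247 (.q k251 [(.s k90 k95 2 (.s k208 k144 7 (.s k149 k31 10 (.d k213 k218 k21
  2 7)))), (.s k144 k208 7 (.s k160 k240 11 (.s k128 k176 3 (.d k192 k64 k96 7 11)))), (.s k90 k95 2
  (.s k240 k160 11 (.s k15 k165 14 (.s k10 k5 2 (.s k26 k37 6 (.s k21 k31 2 (.d k42 k58 k63 3
  6)))))))] .n) (.c k251 (.q k247 [(.s k90 k95 2 (.s k208 k144 7 (.s k149 k31 10 (.d k213 k218 k21 2
  7)))), (.s k4 k166 12 (.s k12 k8 1 (.s k24 k36 5 (.s k240 k160 11 (.s k88 k164 13 (.s k84 k92 1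
  (.d k152 k216 k220 7 9)))))))] .n) .n)))))

def s6_255_244 : T TT 256 :=
  (.q k17 [(.s k18 k19 0 (.s k48 k32 3 (.s k3 k33 4 (.s k2 k1 0 (.d k34 k50 k51 3 4))))), (.s k19
  k18 0 (.s k153 k221 9 (.s k86 k220 10 (.s k87 k84 0 (.d k223 k155 k154 9 10))))), (.s k48 k32 3
  (.s k51 k34 4 (.s k50 k49 0 (.s k153 k221 9 (.s k154 k223 10 (.d k102 k204 k206 14 13))))))] .n)

def s6_255_245 : T TT 256 :=
  (.q k240 [(.s k48 k32 3 (.s k80 k160 11 (.s k112 k176 7 (.s k96 k64 3 (.d k144 k208 k192 7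
  11))))), (.s k80 k160 11 (.s k90 k95 2 (.s k154 k223 10 (.s k26 k218 7 (.s k31 k21 2 (.d k208 k144
  k149 7 10)))))), (.s k48 k32 3 (.s k154 k223 10 (.s k176 k112 7 (.s k165 k143 6 (.s k15 k90 14 (.s
  k37 k26 6 (.d k101 k207 k229 14 7)))))))] .n)

def s6_255_246 : T TT 256 :=
  (.q k86 [(.s k87 k84 0 (.s k223 k154 10 (.s k19 k155 9 (.s k17 k18 0 (.d k153 k221 k220 9 10))))),
  (.s k48 k32 3 (.s k84 k87 0 (.s k152 k220 9 (.s k100 k204 13 (.s k116 k68 3 (.d k252 k184 k168 9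
  13)))))), (.s k48 k32 3 (.s k154 k223 10 (.s k18 k222 9 (.s k3 k33 4 (.s k1 k2 0 (.d k169 k253
  k252 13 14)))))), (.s k48 k32 3 (.s k84 k87 0 (.s k154 k223 10 (.s k207 k101 14 (.s k222 k18 9 (.d
  k252 k237 k168 4 13))))))] .n)

def s6_255_247 : T TT 256 :=
  (.q k243 [(.s k48 k32 3 (.s k81 k162 12 (.s k113 k178 8 (.s k97 k65 3 (.d k146 k211 k195 8
  12))))), (.s k81 k162 12 (.s k89 k93 1 (.s k154 k223 10 (.s k24 k219 8 (.s k28 k20 1 (.d k211 k146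
  k150 8 10)))))), (.s k48 k32 3 (.s k154 k223 10 (.s k178 k113 8 (.s k166 k142 5 (.s k12 k89 14 (.s
  k36 k24 5 (.d k101 k207 k231 14 8)))))))] .n)

def s6_255_248 : T TT 256 :=
  (.q k17 [(.s k18 k19 0 (.s k48 k32 3 (.s k3 k33 4 (.s k2 k1 0 (.d k34 k50 k51 3 4))))), (.s k19
  k18 0 (.s k153 k221 9 (.s k86 k220 10 (.s k87 k84 0 (.d k223 k155 k154 9 10))))), (.s k48 k32 3
  (.s k51 k34 4 (.s k50 k49 0 (.s k153 k221 9 (.s k154 k223 10 (.d k102 k204 k206 14 13))))))] .n)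

def s6_255_249 : T TT 256 :=
  (.q k17 [(.s k18 k19 0 (.s k48 k32 3 (.s k3 k33 4 (.s k2 k1 0 (.d k34 k50 k51 3 4))))), (.s k19
  k18 0 (.s k153 k221 9 (.s k86 k220 10 (.s k87 k84 0 (.d k223 k155 k154 9 10))))), (.s k48 k32 3
  (.s k51 k34 4 (.s k50 k49 0 (.s k153 k221 9 (.s k154 k223 10 (.d k102 k204 k206 14 13))))))] .n)

def s6_255_250 : T TT 256 :=
  (.q k240 [(.s k48 k32 3 (.s k80 k160 11 (.s k112 k176 7 (.s k96 k64 3 (.d k144 k208 k192 7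
  11))))), (.s k80 k160 11 (.s k90 k95 2 (.s k154 k223 10 (.s k26 k218 7 (.s k31 k21 2 (.d k208 k144
  k149 7 10)))))), (.s k48 k32 3 (.s k154 k223 10 (.s k176 k112 7 (.s k165 k143 6 (.s k5 k245 11 (.d
  k15 k10 k90 2 14))))))] .n)

def s6_255_251 : T TT 256 :=
  (.q k243 [(.s k48 k32 3 (.s k81 k162 12 (.s k113 k178 8 (.s k97 k65 3 (.d k146 k211 k195 8
  12))))), (.s k81 k162 12 (.s k89 k93 1 (.s k154 k223 10 (.s k24 k219 8 (.s k28 k20 1 (.d k211 k146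
  k150 8 10)))))), (.s k48 k32 3 (.s k154 k223 10 (.s k178 k113 8 (.s k166 k142 5 (.s k4 k247 12 (.d
  k12 k8 k89 1 14))))))] .n)

def s6_255_252 : T TT 256 :=
  (.f k48 k32 3 (.f k223 k154 10 (.q k80 [(.s k90 k95 2 (.s k208 k144 7 (.s k149 k31 10 (.d k213
  k218 k21 2 7)))), (.s k144 k208 7 (.s k160 k240 11 (.s k128 k176 3 (.d k192 k64 k96 7 11)))), (.s
  k90 k95 2 (.s k240 k160 11 (.s k15 k165 14 (.s k10 k5 2 (.s k26 k37 6 (.s k21 k31 2 (.d k42 k58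
  k63 3 6)))))))] (.c k253 (.q k254 [(.s k90 k95 2 (.s k208 k144 7 (.s k149 k31 10 (.d k213 k218 k21
  2 7)))), (.s k144 k208 7 (.s k160 k240 11 (.s k128 k176 3 (.d k192 k64 k96 7 11)))), (.s k90 k95 2
  (.s k240 k160 11 (.s k15 k165 14 (.s k10 k5 2 (.s k26 k37 6 (.s k21 k31 2 (.d k42 k58 k63 3
  6)))))))] .n) (.c k254 (.q k253 [(.s k90 k95 2 (.s k208 k144 7 (.s k149 k31 10 (.d k213 k218 k21 2
  7)))), (.s k1 k169 13 (.s k3 k2 0 (.s k18 k33 4 (.s k240 k160 11 (.s k82 k161 12 (.s k81 k83 0 (.d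
  k146 k210 k211 7 8)))))))] .n) .n)))))

def s6_255_253 : T TT 256 :=
  (.q k252 [(.s k48 k32 3 (.s k84 k168 13 (.s k116 k184 9 (.s k100 k68 3 (.d k152 k220 k204 9
  13))))), (.s k84 k168 13 (.s k86 k87 0 (.s k154 k223 10 (.s k18 k222 9 (.s k19 k17 0 (.d k220 k152
  k153 9 10)))))), (.s k48 k32 3 (.s k154 k223 10 (.s k184 k116 9 (.s k169 k139 4 (.s k3 k86 14 (.s
  k33 k18 4 (.d k101 k207 k237 14 9)))))))] .n)

def s6_255_254 : T TT 256 :=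
  (.q k252 [(.s k48 k32 3 (.s k84 k168 13 (.s k116 k184 9 (.s k100 k68 3 (.d k152 k220 k204 9
  13))))), (.s k84 k168 13 (.s k86 k87 0 (.s k154 k223 10 (.s k18 k222 9 (.s k19 k17 0 (.d k220 k152
  k153 9 10)))))), (.s k48 k32 3 (.s k154 k223 10 (.s k184 k116 9 (.s k169 k139 4 (.s k1 k253 13 (.d
  k3 k2 k86 0 14))))))] .n)

def t6_255 : T TT 256 :=
  (.q k16 [] (.c k1 s6_255_1 (.c k2 s6_255_2 (.c k3 s6_255_3 (.c k4 s6_255_4 (.c k5 s6_255_5 (.c k7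
  s6_255_7 (.c k8 s6_255_8 (.c k9 s6_255_9 (.c k10 s6_255_10 (.c k11 s6_255_11 (.c k12 s6_255_12 (.c
  k13 s6_255_13 (.c k14 s6_255_14 (.c k15 s6_255_15 (.c k17 s6_255_17 (.c k18 s6_255_18 (.c k19
  s6_255_19 (.c k20 s6_255_20 (.c k21 s6_255_21 (.c k22 s6_255_22 (.c k23 s6_255_23 (.c k24
  s6_255_24 (.c k25 s6_255_25 (.c k26 s6_255_26 (.c k27 s6_255_27 (.c k28 s6_255_28 (.c k29
  s6_255_29 (.c k30 s6_255_30 (.c k31 s6_255_31 (.c k32 s6_255_32 (.c k33 s6_255_33 (.c k34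
  s6_255_34 (.c k35 s6_255_35 (.c k36 s6_255_36 (.c k37 s6_255_37 (.c k38 s6_255_38 (.c k39
  s6_255_39 (.c k40 s6_255_40 (.c k41 s6_255_41 (.c k42 s6_255_42 (.c k43 s6_255_43 (.c k44
  s6_255_44 (.c k45 s6_255_45 (.c k46 s6_255_46 (.c k47 s6_255_47 (.c k48 s6_255_48 (.c k49
  s6_255_49 (.c k50 s6_255_50 (.c k51 s6_255_51 (.c k52 s6_255_52 (.c k53 s6_255_53 (.c k54
  s6_255_54 (.c k55 s6_255_55 (.c k56 s6_255_56 (.c k57 s6_255_57 (.c k58 s6_255_58 (.c k59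
  s6_255_59 (.c k60 s6_255_60 (.c k61 s6_255_61 (.c k62 s6_255_62 (.c k63 s6_255_63 (.c k64
  s6_255_64 (.c k65 s6_255_65 (.c k66 s6_255_66 (.c k67 s6_255_67 (.c k68 s6_255_68 (.c k69
  s6_255_69 (.c k70 s6_255_70 (.c k71 s6_255_71 (.c k72 s6_255_72 (.c k73 s6_255_73 (.c k74
  s6_255_74 (.c k75 s6_255_75 (.c k76 s6_255_76 (.c k77 s6_255_77 (.c k78 s6_255_78 (.c k79
  s6_255_79 (.c k80 s6_255_80 (.c k81 s6_255_81 (.c k82 s6_255_82 (.c k83 s6_255_83 (.c k84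
  s6_255_84 (.c k86 s6_255_86 (.c k87 s6_255_87 (.c k88 s6_255_88 (.c k89 s6_255_89 (.c k90
  s6_255_90 (.c k91 s6_255_91 (.c k92 s6_255_92 (.c k93 s6_255_93 (.c k94 s6_255_94 (.c k95
  s6_255_95 (.c k96 s6_255_96 (.c k97 s6_255_97 (.c k98 s6_255_98 (.c k99 s6_255_99 (.c k100
  s6_255_100 (.c k101 s6_255_101 (.c k102 s6_255_102 (.c k103 s6_255_103 (.c k104 s6_255_104 (.c
  k105 s6_255_105 (.c k106 s6_255_106 (.c k107 s6_255_107 (.c k108 s6_255_108 (.c k109 s6_255_109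
  (.c k110 s6_255_110 (.c k111 s6_255_111 (.c k112 s6_255_112 (.c k113 s6_255_113 (.c k114
  s6_255_114 (.c k115 s6_255_115 (.c k116 s6_255_116 (.c k117 s6_255_117 (.c k118 s6_255_118 (.c
  k119 s6_255_119 (.c k120 s6_255_120 (.c k121 s6_255_121 (.c k122 s6_255_122 (.c k123 s6_255_123
  (.c k124 s6_255_124 (.c k125 s6_255_125 (.c k126 s6_255_126 (.c k127 s6_255_127 (.c k128
  s6_255_128 (.c k129 s6_255_129 (.c k130 s6_255_130 (.c k131 s6_255_131 (.c k132 s6_255_132 (.c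
  k133 s6_255_133 (.c k134 s6_255_134 (.c k135 s6_255_135 (.c k136 s6_255_136 (.c k137 s6_255_137
  (.c k138 s6_255_138 (.c k139 s6_255_139 (.c k140 s6_255_140 (.c k141 s6_255_141 (.c k142
  s6_255_142 (.c k143 s6_255_143 (.c k144 s6_255_144 (.c k145 s6_255_145 (.c k146 s6_255_146 (.c
  k147 s6_255_147 (.c k148 s6_255_148 (.c k149 s6_255_149 (.c k150 s6_255_150 (.c k151 s6_255_151
  (.c k152 s6_255_152 (.c k153 s6_255_153 (.c k154 s6_255_154 (.c k155 s6_255_155 (.c k156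
  s6_255_156 (.c k157 s6_255_157 (.c k158 s6_255_158 (.c k159 s6_255_159 (.c k160 s6_255_160 (.c
  k161 s6_255_161 (.c k162 s6_255_162 (.c k163 s6_255_163 (.c k164 s6_255_164 (.c k165 s6_255_165
  (.c k166 s6_255_166 (.c k167 s6_255_167 (.c k168 s6_255_168 (.c k169 s6_255_169 (.c k170
  s6_255_170 (.c k171 s6_255_171 (.c k172 s6_255_172 (.c k173 s6_255_173 (.c k174 s6_255_174 (.c
  k175 s6_255_175 (.c k176 s6_255_176 (.c k177 s6_255_177 (.c k178 s6_255_178 (.c k179 s6_255_179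
  (.c k180 s6_255_180 (.c k181 s6_255_181 (.c k182 s6_255_182 (.c k183 s6_255_183 (.c k184
  s6_255_184 (.c k185 s6_255_185 (.c k186 s6_255_186 (.c k187 s6_255_187 (.c k188 s6_255_188 (.c
  k189 s6_255_189 (.c k190 s6_255_190 (.c k191 s6_255_191 (.c k192 s6_255_192 (.c k193 s6_255_193
  (.c k194 s6_255_194 (.c k195 s6_255_195 (.c k196 s6_255_196 (.c k197 s6_255_197 (.c k198
  s6_255_198 (.c k199 s6_255_199 (.c k200 s6_255_200 (.c k201 s6_255_201 (.c k202 s6_255_202 (.c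
  k203 s6_255_203 (.c k204 s6_255_204 (.c k205 s6_255_205 (.c k206 s6_255_206 (.c k207 s6_255_207
  (.c k208 s6_255_208 (.c k209 s6_255_209 (.c k210 s6_255_210 (.c k211 s6_255_211 (.c k212
  s6_255_212 (.c k213 s6_255_213 (.c k214 s6_255_214 (.c k215 s6_255_215 (.c k216 s6_255_216 (.c
  k217 s6_255_217 (.c k218 s6_255_218 (.c k219 s6_255_219 (.c k220 s6_255_220 (.c k221 s6_255_221
  (.c k222 s6_255_222 (.c k223 s6_255_223 (.c k224 s6_255_224 (.c k225 s6_255_225 (.c k226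
  s6_255_226 (.c k227 s6_255_227 (.c k228 s6_255_228 (.c k229 s6_255_229 (.c k230 s6_255_230 (.c
  k231 s6_255_231 (.c k232 s6_255_232 (.c k233 s6_255_233 (.c k234 s6_255_234 (.c k235 s6_255_235
  (.c k236 s6_255_236 (.c k237 s6_255_237 (.c k238 s6_255_238 (.c k239 s6_255_239 (.c k240
  s6_255_240 (.c k241 s6_255_241 (.c k242 s6_255_242 (.c k243 s6_255_243 (.c k244 s6_255_244 (.c
  k245 s6_255_245 (.c k246 s6_255_246 (.c k247 s6_255_247 (.c k248 s6_255_248 (.c k249 s6_255_249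
  (.c k250 s6_255_250 (.c k251 s6_255_251 (.c k252 s6_255_252 (.c k253 s6_255_253 (.c k254
  s6_255_254 .n))))))))))))))))))))))))))))))))))))))))))))))))))))))))))))))))))))))))))))))))
  ))))))))))))))))))))))))))))))))))))))))))))))))))))))))))))))))))))))))))))))))
  )))))))))))))))))))))))))))))))))))))))))))))))))))))))))))))))))))))))))))))))) ))))))))))))

def s7_170_1 : T TT 256 :=
  (.q k16 [(.s k89 k93 1 (.s k154 k223 10 (.s k24 k219 8 (.s k28 k20 1 (.d k211 k146 k150 8 10))))),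
  (.s k48 k32 3 (.s k146 k211 8 (.s k97 k195 12 (.s k113 k65 3 (.d k243 k178 k162 8 12))))), (.s k48
  k32 3 (.s k89 k93 1 (.s k154 k223 10 (.s k101 k207 14 (.s k113 k77 5 (.d k243 k178 k162 8
  12))))))] .n)

def s7_170_2 : T TT 256 :=
  (.q k86 [(.s k87 k84 0 (.s k89 k93 1 (.s k83 k92 2 (.s k95 k91 1 (.d k80 k82 k90 0 2))))), (.s k84
  k87 0 (.s k243 k162 12 (.s k252 k168 13 (.s k246 k249 2 (.s k166 k6 11 (.s k12 k89 14 (.d k4 k8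
  k247 1 12))))))), (.s k89 k93 1 (.s k83 k92 2 (.s k243 k162 12 (.s k3 k163 11 (.s k166 k12 14 (.s
  k246 k6 11 (.d k252 k249 k169 2 14)))))))] (.c k82 (.l (.s k84 k87 0 (.s k89 k93 1 (.s k92 k83 2
  (.s k252 k168 13 (.s k12 k172 11 (.d k243 k162 k166 12 14))))))) (.c k89 (.f k243 k162 12 (.f k84
  k87 0 (.l (.s k252 k168 13 (.s k169 k3 14 (.s k246 k249 2 (.s k166 k6 11 (.s k172 k163 2 (.s k12
  k92 11 (.d k4 k8 k247 1 12)))))))))) .n)))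

def s7_170_3 : T TT 256 :=
  (.f k89 k93 1 (.q k15 [(.s k5 k10 2 (.s k165 k245 11 (.s k13 k241 13 (.s k243 k162 12 (.d k12 k166
  k14 14 0))))), (.s k243 k162 12 (.s k91 k167 13 (.s k90 k88 0 (.s k80 k95 2 (.d k240 k160 k165 11
  14))))), (.s k5 k10 2 (.s k165 k245 11 (.s k90 k240 14 (.s k80 k95 2 (.s k88 k91 0 (.s k92 k84 1
  (.d k83 k82 k86 0 2)))))))] (.c k90 (.l (.s k243 k162 12 (.s k166 k12 14 (.s k167 k91 13 (.s k165
  k164 0 (.d k5 k10 k245 2 11)))))) (.c k165 (.l (.s k243 k162 12 (.s k91 k167 13 (.s k90 k88 0 (.s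
  k80 k95 2 (.s k166 k12 14 (.s k242 k14 13 (.d k240 k241 k160 0 11)))))))) .n))))

def s7_170_4 : T TT 256 :=
  (.f k89 k93 1 (.q k5 [(.s k15 k10 2 (.s k165 k245 11 (.s k90 k240 14 (.s k243 k162 12 (.d k91 k88
  k167 0 13))))), (.s k165 k245 11 (.s k241 k13 13 (.s k161 k1 11 (.s k243 k162 12 (.s k240 k242 0
  (.s k80 k160 11 (.d k82 k83 k3 0 12))))))), (.s k15 k10 2 (.s k165 k245 11 (.s k90 k240 14 (.s k80
  k95 2 (.s k83 k82 0 (.s k88 k91 0 (.d k92 k84 k86 1 2)))))))] (.c k165 (.f k15 k10 2 (.l (.s k243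
  k162 12 (.s k91 k167 13 (.s k90 k88 0 (.s k80 k95 2 (.s k166 k12 14 (.s k242 k14 13 (.d k240 k241
  k160 0 11))))))))) (.c k240 (.l (.s k15 k10 2 (.s k165 k245 11 (.s k13 k241 13 (.s k12 k14 0 (.d
  k243 k162 k166 12 14)))))) (.c k245 (.l (.s k15 k10 2 (.s k243 k162 12 (.s k91 k167 13 (.s k90 k88
  0 (.s k80 k95 2 (.d k240 k160 k165 11 14))))))) .n)))))

def s7_170_5 : T TT 256 :=
  (.f k243 k162 12 (.f k89 k93 1 (.f k166 k12 14 (.q k86 [(.s k84 k87 0 (.s k252 k168 13 (.d k246 k6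
  k249 11 2))), (.s k83 k92 2 (.s k3 k163 11 (.s k1 k2 0 (.d k169 k252 k253 14 13))))] (.c k4 (.l
  (.s k6 k246 11 (.s k83 k92 2 (.s k3 k163 11 (.s k1 k2 0 (.d k169 k252 k253 14 13)))))) (.c k6 (.l
  (.s k4 k247 12 (.s k83 k92 2 (.s k3 k163 11 (.s k1 k2 0 (.d k169 k252 k253 14 13)))))) (.c k169
  (.l (.s k4 k247 12 (.s k246 k6 11 (.s k252 k249 2 (.d k84 k87 k168 0 13))))) (.c k174 (.q k255
  [(.d k247 k4 k251 12 1), (.s k6 k246 11 (.s k83 k92 2 (.s k3 k163 11 (.d k87 k84 k171 0 13))))]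
  (.c k4 (.l (.s k6 k246 11 (.s k83 k92 2 (.s k3 k163 11 (.d k87 k84 k171 0 13))))) (.c k6 (.l (.s
  k4 k247 12 (.s k83 k92 2 (.s k3 k163 11 (.d k87 k84 k171 0 13))))) .n))) (.c k252 (.l (.s k6 k246
  11 (.s k87 k84 0 (.s k247 k4 12 (.s k255 k251 1 (.s k3 k171 13 (.d k83 k92 k163 2 11))))))) (.c
  k255 (.q k174 [(.s k4 k247 12 (.s k246 k6 11 (.s k252 k249 2 (.d k84 k87 k168 0 13)))), (.s k83
  k92 2 (.s k3 k163 11 (.s k1 k2 0 (.d k169 k252 k253 14 13))))] (.c k3 (.l (.s k83 k92 2 (.s k80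
  k82 0 (.s k87 k84 0 (.d k95 k91 k90 1 2))))) (.c k4 (.l (.s k6 k246 11 (.s k83 k92 2 (.s k3 k163
  11 (.s k1 k2 0 (.d k169 k252 k253 14 13)))))) (.c k6 (.l (.s k4 k247 12 (.s k83 k92 2 (.s k3 k163
  11 (.s k1 k2 0 (.d k169 k252 k253 14 13)))))) (.c k252 (.l (.s k84 k87 0 (.s k92 k83 2 (.s k80 k88
  1 (.s k240 k160 11 (.s k242 k241 0 (.d k90 k95 k14 2 13))))))) .n))))) .n))))))))))

def s7_170_6 : T TT 256 :=
  (.f k89 k93 1 (.q k5 [(.s k15 k10 2 (.s k165 k245 11 (.s k13 k241 13 (.s k243 k162 12 (.d k12 k14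
  k166 0 14))))), (.s k15 k10 2 (.s k165 k245 11 (.s k90 k240 14 (.s k80 k95 2 (.s k83 k82 0 (.s k88
  k91 0 (.d k92 k84 k86 1 2))))))), (.s k165 k245 11 (.s k241 k13 13 (.s k161 k1 11 (.s k243 k162 12
  (.s k240 k242 0 (.s k80 k160 11 (.d k82 k83 k3 0 12)))))))] (.c k2 (.l (.s k165 k245 11 (.s k243
  k162 12 (.s k166 k12 14 (.s k167 k164 0 (.d k15 k10 k91 2 13)))))) (.c k165 (.f k15 k10 2 (.l (.s
  k243 k162 12 (.s k91 k167 13 (.s k90 k88 0 (.s k95 k80 2 (.s k166 k12 14 (.s k247 k4 12 (.d k255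
  k251 k175 1 11))))))))) (.c k245 (.l (.s k15 k10 2 (.s k243 k162 12 (.s k91 k167 13 (.s k90 k88 0
  (.s k80 k95 2 (.d k240 k160 k165 11 14))))))) .n)))))

def s7_170_8 : T TT 256 :=
  (.q k80 [(.s k83 k82 0 (.s k89 k93 1 (.s k86 k92 2 (.s k87 k84 0 (.d k95 k91 k90 1 2))))), (.s k82
  k83 0 (.s k162 k243 12 (.s k2 k242 11 (.s k3 k1 0 (.d k240 k160 k161 11 12))))), (.s k89 k93 1 (.s
  k90 k95 2 (.s k91 k88 0 (.s k240 k160 11 (.s k243 k162 12 (.d k15 k165 k167 14 13))))))] (.c k89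
  (.q k251 [(.s k82 k83 0 (.s k240 k160 11 (.s k3 k161 12 (.s k2 k1 0 (.d k162 k242 k243 11 12))))),
  (.s k90 k95 2 (.s k240 k160 11 (.s k165 k15 14 (.s k243 k162 12 (.s k245 k5 11 (.d k255 k247 k250
  1 2)))))), (.s k83 k82 0 (.s k95 k90 2 (.s k243 k162 12 (.s k255 k247 1 (.s k15 k175 11 (.d k91
  k87 k167 1 13)))))), (.s k82 k83 0 (.s k162 k243 12 (.s k2 k242 11 (.s k3 k1 0 (.d k240 k160 k161
  11 12)))))] (.c k160 (.f k82 k83 0 (.l (.s k90 k95 2 (.s k86 k94 1 (.s k162 k243 12 (.s k2 k242 11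
  (.s k3 k1 0 (.s k252 k169 14 (.d k84 k87 k168 0 13))))))))) (.c k162 (.l (.s k82 k83 0 (.s k90 k95
  2 (.s k240 k160 11 (.s k161 k3 12 (.s k1 k241 11 (.s k169 k253 13 (.d k165 k15 k173 14 1))))))))
  (.c k243 (.l (.s k82 k83 0 (.s k90 k95 2 (.s k86 k94 1 (.s k240 k160 11 (.s k3 k161 12 (.s k1 k2 0
  (.d k169 k253 k252 13 14)))))))) .n)))) (.c k251 (.l (.s k89 k93 1 (.s k83 k82 0 (.s k86 k92 2 (.s
  k87 k84 0 (.d k95 k91 k90 1 2)))))) .n)))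

def s7_170_9 : T TT 256 :=
  (.q k1 [(.s k3 k2 0 (.s k161 k241 11 (.s k82 k240 12 (.s k83 k80 0 (.d k243 k163 k162 11 12))))),
  (.s k89 k93 1 (.s k241 k161 11 (.s k165 k13 13 (.s k245 k5 11 (.d k253 k249 k169 1 13))))), (.s k3
  k2 0 (.s k89 k93 1 (.s k169 k253 13 (.s k86 k252 14 (.s k83 k92 2 (.d k243 k163 k162 11 12))))))]
  .n)

def s7_170_10 : T TT 256 :=
  (.q k90 [(.s k80 k95 2 (.s k83 k82 0 (.s k89 k93 1 (.s k88 k91 0 (.d k92 k84 k86 1 2))))), (.s k89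
  k93 1 (.s k91 k88 0 (.s k243 k162 12 (.s k15 k167 13 (.s k165 k240 14 (.s k13 k241 13 (.d k12 k166
  k14 14 0))))))), (.s k80 k95 2 (.s k82 k83 0 (.s k162 k243 12 (.s k2 k242 11 (.s k3 k1 0 (.d k240
  k160 k161 11 12))))))] (.c k91 (.l (.s k80 k95 2 (.s k89 k93 1 (.s k240 k160 11 (.s k165 k15 14
  (.s k241 k13 13 (.d k243 k242 k162 0 12))))))) .n))

def s7_170_11 : T TT 256 :=
  (.q k3 [(.s k2 k1 0 (.s k162 k243 12 (.s k82 k242 11 (.s k80 k83 0 (.d k240 k160 k161 11 12))))),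
  (.s k1 k2 0 (.s k89 k93 1 (.s k169 k253 13 (.s k9 k249 11 (.s k13 k5 1 (.d k241 k161 k165 11
  13)))))), (.s k89 k93 1 (.s k243 k162 12 (.s k83 k163 11 (.s k86 k92 2 (.s k84 k87 0 (.d k252 k168
  k169 13 14))))))] (.c k161 (.l (.s k1 k2 0 (.s k89 k93 1 (.s k169 k253 13 (.s k9 k249 11 (.s k12
  k6 2 (.d k243 k162 k166 12 14))))))) .n))

def s7_170_12 : T TT 256 :=
  (.q k1 [(.s k3 k2 0 (.s k161 k241 11 (.s k82 k240 12 (.s k83 k80 0 (.d k243 k163 k162 11 12))))),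
  (.s k89 k93 1 (.s k169 k253 13 (.s k9 k249 11 (.s k13 k5 1 (.d k241 k161 k165 11 13))))), (.s k3
  k2 0 (.s k89 k93 1 (.s k169 k253 13 (.s k86 k252 14 (.s k243 k162 12 (.d k83 k92 k163 2 11))))))]
  .n)

def s7_170_13 : T TT 256 :=
  (.q k3 [(.s k2 k1 0 (.s k162 k243 12 (.s k82 k242 11 (.s k80 k83 0 (.d k240 k160 k161 11 12))))),
  (.s k89 k93 1 (.s k243 k162 12 (.s k83 k163 11 (.s k86 k92 2 (.s k84 k87 0 (.d k252 k168 k169 13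
  14)))))), (.s k1 k2 0 (.s k89 k93 1 (.s k243 k162 12 (.s k163 k83 11 (.s k166 k12 14 (.d k169 k253
  k172 13 2)))))), (.s k1 k2 0 (.s k161 k241 11 (.s k169 k253 13 (.s k240 k82 12 (.s k80 k160 11 (.s
  k90 k95 2 (.d k165 k173 k15 1 14)))))))] (.c k162 (.l (.s k1 k2 0 (.s k89 k93 1 (.s k161 k241 11
  (.s k82 k240 12 (.s k83 k80 0 (.s k86 k92 2 (.d k169 k253 k252 13 14)))))))) .n))

def s7_170_14 : T TT 256 :=
  (.q k1 [(.s k89 k93 1 (.s k169 k253 13 (.s k9 k249 11 (.s k241 k161 11 (.d k13 k5 k165 1 13))))),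
  (.s k3 k2 0 (.s k161 k241 11 (.s k82 k240 12 (.s k83 k80 0 (.d k243 k163 k162 11 12))))), (.s k3
  k2 0 (.s k89 k93 1 (.s k169 k253 13 (.s k86 k252 14 (.s k83 k92 2 (.d k243 k163 k162 11 12))))))]
  .n)

def s7_170_15 : T TT 256 :=
  (.q k3 [(.s k2 k1 0 (.s k162 k243 12 (.s k82 k242 11 (.s k80 k83 0 (.d k240 k160 k161 11 12))))),
  (.s k1 k2 0 (.s k89 k93 1 (.s k169 k253 13 (.s k9 k249 11 (.s k13 k5 1 (.d k241 k161 k165 11
  13)))))), (.s k89 k93 1 (.s k243 k162 12 (.s k83 k163 11 (.s k86 k92 2 (.s k84 k87 0 (.d k252 k168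
  k169 13 14))))))] (.c k161 (.l (.s k1 k2 0 (.s k89 k93 1 (.s k169 k253 13 (.s k9 k249 11 (.s k12
  k6 2 (.d k243 k162 k166 12 14))))))) .n))

def s7_170_16 : T TT 256 :=
  (.q k1 [(.s k3 k2 0 (.s k161 k241 11 (.s k162 k243 12 (.s k160 k163 0 (.d k240 k80 k82 11 12))))),
  (.s k89 k93 1 (.s k169 k253 13 (.s k9 k249 11 (.s k13 k5 1 (.d k241 k161 k165 11 13))))), (.s k3
  k2 0 (.s k89 k93 1 (.s k169 k253 13 (.s k86 k252 14 (.s k83 k92 2 (.d k243 k163 k162 11 12))))))]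
  .n)

def s7_170_17 : T TT 256 :=
  (.q k1 [(.s k3 k2 0 (.s k161 k241 11 (.s k82 k240 12 (.s k83 k80 0 (.d k243 k163 k162 11 12))))),
  (.s k89 k93 1 (.s k169 k253 13 (.s k9 k249 11 (.s k13 k5 1 (.d k241 k161 k165 11 13))))), (.s k3
  k2 0 (.s k89 k93 1 (.s k169 k253 13 (.s k86 k252 14 (.s k83 k92 2 (.d k243 k163 k162 11 12))))))]
  .n)

def s7_170_18 : T TT 256 :=
  (.q k1 [(.s k89 k93 1 (.s k169 k253 13 (.s k9 k249 11 (.s k13 k5 1 (.d k241 k161 k165 11 13))))),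
  (.s k3 k2 0 (.s k161 k241 11 (.s k82 k240 12 (.s k83 k80 0 (.d k243 k163 k162 11 12))))), (.s k3
  k2 0 (.s k89 k93 1 (.s k169 k253 13 (.s k86 k252 14 (.s k83 k92 2 (.d k243 k163 k162 11 12))))))]
  .n)

def s7_170_19 : T TT 256 :=
  (.q k1 [(.s k3 k2 0 (.s k161 k241 11 (.s k82 k240 12 (.s k83 k80 0 (.d k243 k163 k162 11 12))))),
  (.s k89 k93 1 (.s k169 k253 13 (.s k9 k249 11 (.s k13 k5 1 (.d k241 k161 k165 11 13))))), (.s k3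
  k2 0 (.s k89 k93 1 (.s k169 k253 13 (.s k86 k252 14 (.s k83 k92 2 (.d k243 k163 k162 11 12))))))]
  .n)

def s7_170_20 : T TT 256 :=
  (.q k1 [(.s k3 k2 0 (.s k161 k241 11 (.s k82 k240 12 (.s k83 k80 0 (.d k243 k163 k162 11 12))))),
  (.s k89 k93 1 (.s k169 k253 13 (.s k9 k249 11 (.s k13 k5 1 (.d k241 k161 k165 11 13))))), (.s k3
  k2 0 (.s k89 k93 1 (.s k169 k253 13 (.s k86 k252 14 (.s k83 k92 2 (.d k243 k163 k162 11 12))))))]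
  .n)

def s7_170_21 : T TT 256 :=
  (.q k1 [(.s k3 k2 0 (.s k161 k241 11 (.s k82 k240 12 (.s k83 k80 0 (.d k243 k163 k162 11 12))))),
  (.s k89 k93 1 (.s k169 k253 13 (.s k9 k249 11 (.s k13 k5 1 (.d k241 k161 k165 11 13))))), (.s k3
  k2 0 (.s k89 k93 1 (.s k169 k253 13 (.s k86 k252 14 (.s k83 k92 2 (.d k243 k163 k162 11 12))))))]
  .n)

def s7_170_22 : T TT 256 :=
  (.f k162 k243 12 (.f k89 k93 1 (.q k1 [(.s k161 k241 11 (.s k160 k163 0 (.s k240 k80 11 (.d k3 k2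
  k82 0 12)))), (.s k169 k253 13 (.s k9 k249 11 (.s k13 k5 1 (.d k241 k161 k165 11 13)))), (.s k3 k2
  0 (.s k169 k253 13 (.s k86 k252 14 (.s k83 k92 2 (.s k80 k82 0 (.s k87 k84 0 (.d k95 k91 k90 1
  2)))))))] (.c k37 (.q k52 [(.s k161 k241 11 (.s k160 k163 0 (.s k240 k80 11 (.d k3 k2 k82 0
  12)))), (.s k169 k253 13 (.s k9 k249 11 (.s k13 k5 1 (.d k241 k161 k165 11 13)))), (.s k3 k2 0 (.s
  k169 k253 13 (.s k86 k252 14 (.s k83 k92 2 (.s k80 k82 0 (.s k87 k84 0 (.d k95 k91 k90 1 2)))))))]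
  .n) (.c k52 (.q k37 [(.s k161 k241 11 (.s k160 k163 0 (.s k240 k80 11 (.d k3 k2 k82 0 12)))), (.s
  k169 k253 13 (.s k9 k249 11 (.s k13 k5 1 (.d k241 k161 k165 11 13)))), (.s k3 k2 0 (.s k169 k253
  13 (.s k86 k252 14 (.s k83 k92 2 (.s k80 k82 0 (.s k87 k84 0 (.d k95 k91 k90 1 2)))))))] .n)
  .n)))))

def s7_170_23 : T TT 256 :=
  (.f k162 k243 12 (.f k89 k93 1 (.q k1 [(.s k161 k241 11 (.s k160 k163 0 (.s k240 k80 11 (.d k3 k2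
  k82 0 12)))), (.s k169 k253 13 (.s k9 k249 11 (.s k13 k5 1 (.d k241 k161 k165 11 13)))), (.s k3 k2
  0 (.s k169 k253 13 (.s k86 k252 14 (.s k83 k92 2 (.s k80 k82 0 (.s k87 k84 0 (.d k95 k91 k90 1
  2)))))))] (.c k39 (.q k55 [(.s k161 k241 11 (.s k160 k163 0 (.s k240 k80 11 (.d k3 k2 k82 0
  12)))), (.s k169 k253 13 (.s k9 k249 11 (.s k13 k5 1 (.d k241 k161 k165 11 13)))), (.s k3 k2 0 (.s
  k169 k253 13 (.s k86 k252 14 (.s k83 k92 2 (.s k80 k82 0 (.s k87 k84 0 (.d k95 k91 k90 1 2)))))))]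
  .n) (.c k55 (.q k39 [(.s k161 k241 11 (.s k160 k163 0 (.s k240 k80 11 (.d k3 k2 k82 0 12)))), (.s
  k169 k253 13 (.s k9 k249 11 (.s k13 k5 1 (.d k241 k161 k165 11 13)))), (.s k3 k2 0 (.s k169 k253
  13 (.s k86 k252 14 (.s k83 k92 2 (.s k80 k82 0 (.s k87 k84 0 (.d k95 k91 k90 1 2)))))))] .n)
  .n)))))

def s7_170_24 : T TT 256 :=
  (.q k1 [(.s k3 k2 0 (.s k161 k241 11 (.s k82 k240 12 (.s k83 k80 0 (.d k243 k163 k162 11 12))))),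
  (.s k89 k93 1 (.s k169 k253 13 (.s k9 k249 11 (.s k13 k5 1 (.d k241 k161 k165 11 13))))), (.s k3
  k2 0 (.s k89 k93 1 (.s k169 k253 13 (.s k86 k252 14 (.s k83 k92 2 (.d k243 k163 k162 11 12))))))]
  .n)

def s7_170_25 : T TT 256 :=
  (.q k1 [(.s k3 k2 0 (.s k161 k241 11 (.s k82 k240 12 (.s k83 k80 0 (.d k243 k163 k162 11 12))))),
  (.s k89 k93 1 (.s k169 k253 13 (.s k9 k249 11 (.s k13 k5 1 (.d k241 k161 k165 11 13))))), (.s k3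
  k2 0 (.s k89 k93 1 (.s k169 k253 13 (.s k86 k252 14 (.s k83 k92 2 (.d k243 k163 k162 11 12))))))]
  .n)

def s7_170_26 : T TT 256 :=
  (.q k1 [(.s k3 k2 0 (.s k161 k241 11 (.s k82 k240 12 (.s k83 k80 0 (.d k243 k163 k162 11 12))))),
  (.s k89 k93 1 (.s k169 k253 13 (.s k9 k249 11 (.s k13 k5 1 (.d k241 k161 k165 11 13))))), (.s k3
  k2 0 (.s k89 k93 1 (.s k169 k253 13 (.s k86 k252 14 (.s k83 k92 2 (.d k243 k163 k162 11 12))))))]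
  .n)

def s7_170_27 : T TT 256 :=
  (.q k1 [(.s k3 k2 0 (.s k161 k241 11 (.s k82 k240 12 (.s k83 k80 0 (.d k243 k163 k162 11 12))))),
  (.s k89 k93 1 (.s k169 k253 13 (.s k9 k249 11 (.s k13 k5 1 (.d k241 k161 k165 11 13))))), (.s k3
  k2 0 (.s k89 k93 1 (.s k169 k253 13 (.s k86 k252 14 (.s k83 k92 2 (.d k243 k163 k162 11 12))))))]
  .n)

def s7_170_28 : T TT 256 :=
  (.q k1 [(.s k3 k2 0 (.s k161 k241 11 (.s k82 k240 12 (.s k83 k80 0 (.d k243 k163 k162 11 12))))),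
  (.s k89 k93 1 (.s k169 k253 13 (.s k9 k249 11 (.s k13 k5 1 (.d k241 k161 k165 11 13))))), (.s k3
  k2 0 (.s k89 k93 1 (.s k169 k253 13 (.s k86 k252 14 (.s k83 k92 2 (.d k243 k163 k162 11 12))))))]
  .n)

def s7_170_29 : T TT 256 :=
  (.q k1 [(.s k3 k2 0 (.s k161 k241 11 (.s k82 k240 12 (.s k83 k80 0 (.d k243 k163 k162 11 12))))),
  (.s k89 k93 1 (.s k169 k253 13 (.s k9 k249 11 (.s k13 k5 1 (.d k241 k161 k165 11 13))))), (.s k3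
  k2 0 (.s k89 k93 1 (.s k169 k253 13 (.s k86 k252 14 (.s k83 k92 2 (.d k243 k163 k162 11 12))))))]
  .n)

def s7_170_30 : T TT 256 :=
  (.q k1 [(.s k3 k2 0 (.s k161 k241 11 (.s k82 k240 12 (.s k83 k80 0 (.d k243 k163 k162 11 12))))),
  (.s k89 k93 1 (.s k169 k253 13 (.s k9 k249 11 (.s k13 k5 1 (.d k241 k161 k165 11 13))))), (.s k3
  k2 0 (.s k89 k93 1 (.s k169 k253 13 (.s k86 k252 14 (.s k83 k92 2 (.d k243 k163 k162 11 12))))))]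
  .n)

def s7_170_31 : T TT 256 :=
  (.q k1 [(.s k3 k2 0 (.s k161 k241 11 (.s k82 k240 12 (.s k83 k80 0 (.d k243 k163 k162 11 12))))),
  (.s k89 k93 1 (.s k169 k253 13 (.s k9 k249 11 (.s k13 k5 1 (.d k241 k161 k165 11 13))))), (.s k3
  k2 0 (.s k89 k93 1 (.s k169 k253 13 (.s k86 k252 14 (.s k83 k92 2 (.d k243 k163 k162 11 12))))))]
  .n)

def s7_170_32 : T TT 256 :=
  (.q k101 [(.s k89 k93 1 (.s k117 k69 3 (.s k113 k77 5 (.s k125 k121 1 (.d k65 k97 k105 3 5))))),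
  (.s k69 k117 3 (.s k89 k93 1 (.s k207 k138 10 (.s k154 k48 14 (.s k219 k24 8 (.d k243 k231 k162 5
  12)))))), (.s k89 k93 1 (.s k113 k77 5 (.s k243 k162 12 (.s k48 k178 8 (.s k154 k207 14 (.s k24
  k219 8 (.d k12 k166 k36 14 5)))))))] (.c k89 (.f k162 k243 12 (.f k69 k117 3 (.f k207 k138 10 (.l
  (.s k154 k48 14 (.s k16 k223 10 (.s k146 k211 8 (.s k150 k158 1 (.s k199 k52 12 (.s k195 k203 1
  (.d k130 k178 k65 3 8))))))))))) (.c k93 (.l (.s k69 k117 3 (.s k207 k138 10 (.s k243 k162 12 (.s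
  k231 k219 5 (.s k166 k36 8 (.s k4 k247 12 (.d k12 k8 k89 1 14)))))))) .n)))

def s7_170_33 : T TT 256 :=
  (.q k1 [(.s k3 k2 0 (.s k161 k241 11 (.s k82 k240 12 (.s k83 k80 0 (.d k243 k163 k162 11 12))))),
  (.s k89 k93 1 (.s k169 k253 13 (.s k9 k249 11 (.s k13 k5 1 (.d k241 k161 k165 11 13))))), (.s k3
  k2 0 (.s k89 k93 1 (.s k169 k253 13 (.s k86 k252 14 (.s k83 k92 2 (.d k243 k163 k162 11 12))))))]
  .n)

def s7_170_34 : T TT 256 :=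
  (.q k102 [(.s k89 k93 1 (.s k119 k68 4 (.s k115 k76 6 (.s k127 k123 1 (.d k64 k98 k106 4 6))))),
  (.s k68 k119 4 (.s k89 k93 1 (.s k204 k136 9 (.s k153 k51 14 (.s k217 k25 7 (.d k243 k230 k162 6
  12)))))), (.s k89 k93 1 (.s k115 k76 6 (.s k243 k162 12 (.s k51 k179 7 (.s k153 k204 14 (.s k25
  k217 7 (.d k12 k166 k38 14 6)))))))] (.c k89 (.f k68 k119 4 (.f k204 k136 9 (.l (.s k153 k51 14
  (.s k221 k17 9 (.s k243 k162 12 (.s k230 k217 6 (.s k166 k38 7 (.s k247 k4 12 (.d k255 k251 k238 1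
  4)))))))))) (.c k93 (.l (.s k68 k119 4 (.s k204 k136 9 (.s k243 k162 12 (.s k230 k217 6 (.s k166
  k38 7 (.s k4 k247 12 (.d k12 k8 k89 1 14)))))))) .n)))

def s7_170_35 : T TT 256 :=
  (.q k1 [(.s k3 k2 0 (.s k161 k241 11 (.s k82 k240 12 (.s k83 k80 0 (.d k243 k163 k162 11 12))))),
  (.s k89 k93 1 (.s k169 k253 13 (.s k9 k249 11 (.s k13 k5 1 (.d k241 k161 k165 11 13))))), (.s k3
  k2 0 (.s k89 k93 1 (.s k169 k253 13 (.s k86 k252 14 (.s k83 k92 2 (.d k243 k163 k162 11 12))))))]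
  .n)

def s7_170_36 : T TT 256 :=
  (.q k1 [(.s k3 k2 0 (.s k161 k241 11 (.s k82 k240 12 (.s k83 k80 0 (.d k243 k163 k162 11 12))))),
  (.s k89 k93 1 (.s k169 k253 13 (.s k9 k249 11 (.s k13 k5 1 (.d k241 k161 k165 11 13))))), (.s k3
  k2 0 (.s k89 k93 1 (.s k169 k253 13 (.s k86 k252 14 (.s k83 k92 2 (.d k243 k163 k162 11 12))))))]
  .n)

def s7_170_37 : T TT 256 :=
  (.f k162 k243 12 (.f k89 k93 1 (.q k1 [(.s k161 k241 11 (.s k160 k163 0 (.s k240 k80 11 (.d k3 k2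
  k82 0 12)))), (.s k169 k253 13 (.s k9 k249 11 (.s k13 k5 1 (.d k241 k161 k165 11 13)))), (.s k3 k2
  0 (.s k169 k253 13 (.s k86 k252 14 (.s k83 k92 2 (.s k80 k82 0 (.s k87 k84 0 (.d k95 k91 k90 1
  2)))))))] (.c k22 (.q k52 [(.s k161 k241 11 (.s k160 k163 0 (.s k240 k80 11 (.d k3 k2 k82 0
  12)))), (.s k169 k253 13 (.s k9 k249 11 (.s k13 k5 1 (.d k241 k161 k165 11 13)))), (.s k3 k2 0 (.s
  k169 k253 13 (.s k86 k252 14 (.s k83 k92 2 (.s k80 k82 0 (.s k87 k84 0 (.d k95 k91 k90 1 2)))))))]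
  .n) (.c k52 (.q k22 [(.s k161 k241 11 (.s k160 k163 0 (.s k240 k80 11 (.d k3 k2 k82 0 12)))), (.s
  k169 k253 13 (.s k9 k249 11 (.s k13 k5 1 (.d k241 k161 k165 11 13)))), (.s k3 k2 0 (.s k41 k60 6
  (.s k21 k61 5 (.s k23 k20 0 (.d k63 k43 k42 5 6)))))] .n) .n)))))

def s7_170_38 : T TT 256 :=
  (.q k1 [(.s k3 k2 0 (.s k161 k241 11 (.s k82 k240 12 (.s k83 k80 0 (.d k243 k163 k162 11 12))))),
  (.s k89 k93 1 (.s k169 k253 13 (.s k9 k249 11 (.s k13 k5 1 (.d k241 k161 k165 11 13))))), (.s k3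
  k2 0 (.s k89 k93 1 (.s k169 k253 13 (.s k86 k252 14 (.s k83 k92 2 (.d k243 k163 k162 11 12))))))]
  .n)

def s7_170_39 : T TT 256 :=
  (.f k162 k243 12 (.f k89 k93 1 (.q k1 [(.s k161 k241 11 (.s k160 k163 0 (.s k240 k80 11 (.d k3 k2
  k82 0 12)))), (.s k169 k253 13 (.s k9 k249 11 (.s k13 k5 1 (.d k241 k161 k165 11 13)))), (.s k3 k2
  0 (.s k169 k253 13 (.s k86 k252 14 (.s k83 k92 2 (.s k80 k82 0 (.s k87 k84 0 (.d k95 k91 k90 1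
  2)))))))] (.c k23 (.q k55 [(.s k161 k241 11 (.s k160 k163 0 (.s k240 k80 11 (.d k3 k2 k82 0
  12)))), (.s k169 k253 13 (.s k9 k249 11 (.s k13 k5 1 (.d k241 k161 k165 11 13)))), (.s k3 k2 0 (.s
  k169 k253 13 (.s k86 k252 14 (.s k83 k92 2 (.s k80 k82 0 (.s k87 k84 0 (.d k95 k91 k90 1 2)))))))]
  .n) (.c k55 (.q k23 [(.s k161 k241 11 (.s k160 k163 0 (.s k240 k80 11 (.d k3 k2 k82 0 12)))), (.s
  k169 k253 13 (.s k9 k249 11 (.s k13 k5 1 (.d k241 k161 k165 11 13)))), (.s k3 k2 0 (.s k63 k43 5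
  (.s k21 k42 6 (.s k22 k20 0 (.d k41 k61 k60 5 6)))))] .n) .n)))))

def s7_170_40 : T TT 256 :=
  (.q k105 [(.s k65 k125 5 (.s k89 k93 1 (.s k73 k121 3 (.s k77 k69 1 (.d k113 k97 k101 3 5))))),
  (.s k89 k93 1 (.s k121 k73 3 (.s k243 k162 12 (.s k60 k182 10 (.s k150 k195 14 (.s k28 k211 10 (.d
  k12 k166 k44 14 3))))))), (.s k65 k125 5 (.s k97 k113 3 (.s k162 k243 12 (.s k32 k227 8 (.s k48
  k16 3 (.d k195 k130 k146 8 12))))))] (.c k121 (.l (.s k65 k125 5 (.s k89 k93 1 (.s k195 k130 8 (.s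
  k150 k60 14 (.s k211 k28 10 (.d k243 k227 k162 3 12))))))) .n))

def s7_170_41 : T TT 256 :=
  (.q k1 [(.s k3 k2 0 (.s k161 k241 11 (.s k82 k240 12 (.s k83 k80 0 (.d k243 k163 k162 11 12))))),
  (.s k89 k93 1 (.s k169 k253 13 (.s k9 k249 11 (.s k13 k5 1 (.d k241 k161 k165 11 13))))), (.s k3
  k2 0 (.s k89 k93 1 (.s k169 k253 13 (.s k86 k252 14 (.s k83 k92 2 (.d k243 k163 k162 11 12))))))]
  .n)

def s7_170_42 : T TT 256 :=
  (.q k106 [(.s k64 k127 6 (.s k89 k93 1 (.s k72 k123 4 (.s k76 k68 1 (.d k115 k98 k102 4 6))))),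
  (.s k89 k93 1 (.s k123 k72 4 (.s k243 k162 12 (.s k63 k183 9 (.s k149 k192 14 (.s k29 k209 9 (.d
  k12 k166 k46 14 4))))))), (.s k64 k127 6 (.s k98 k115 4 (.s k162 k243 12 (.s k34 k226 7 (.s k51
  k17 4 (.d k192 k128 k145 7 12))))))] (.c k123 (.l (.s k64 k127 6 (.s k89 k93 1 (.s k192 k128 7 (.s
  k149 k63 14 (.s k209 k29 9 (.d k243 k226 k162 4 12))))))) .n))

def s7_170_43 : T TT 256 :=
  (.q k1 [(.s k3 k2 0 (.s k161 k241 11 (.s k82 k240 12 (.s k83 k80 0 (.d k243 k163 k162 11 12))))),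
  (.s k89 k93 1 (.s k169 k253 13 (.s k9 k249 11 (.s k13 k5 1 (.d k241 k161 k165 11 13))))), (.s k3
  k2 0 (.s k89 k93 1 (.s k169 k253 13 (.s k86 k252 14 (.s k83 k92 2 (.d k243 k163 k162 11 12))))))]
  .n)

def s7_170_44 : T TT 256 :=
  (.q k1 [(.s k3 k2 0 (.s k161 k241 11 (.s k82 k240 12 (.s k83 k80 0 (.d k243 k163 k162 11 12))))),
  (.s k89 k93 1 (.s k169 k253 13 (.s k9 k249 11 (.s k13 k5 1 (.d k241 k161 k165 11 13))))), (.s k3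
  k2 0 (.s k89 k93 1 (.s k169 k253 13 (.s k86 k252 14 (.s k83 k92 2 (.d k243 k163 k162 11 12))))))]
  .n)

def s7_170_45 : T TT 256 :=
  (.q k1 [(.s k3 k2 0 (.s k161 k241 11 (.s k82 k240 12 (.s k83 k80 0 (.d k243 k163 k162 11 12))))),
  (.s k89 k93 1 (.s k169 k253 13 (.s k9 k249 11 (.s k13 k5 1 (.d k241 k161 k165 11 13))))), (.s k3
  k2 0 (.s k89 k93 1 (.s k169 k253 13 (.s k86 k252 14 (.s k83 k92 2 (.d k243 k163 k162 11 12))))))]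
  .n)

def s7_170_46 : T TT 256 :=
  (.q k1 [(.s k3 k2 0 (.s k161 k241 11 (.s k82 k240 12 (.s k83 k80 0 (.d k243 k163 k162 11 12))))),
  (.s k89 k93 1 (.s k169 k253 13 (.s k9 k249 11 (.s k13 k5 1 (.d k241 k161 k165 11 13))))), (.s k3
  k2 0 (.s k89 k93 1 (.s k169 k253 13 (.s k86 k252 14 (.s k83 k92 2 (.d k243 k163 k162 11 12))))))]
  .n)

def s7_170_47 : T TT 256 :=
  (.q k1 [(.s k3 k2 0 (.s k161 k241 11 (.s k82 k240 12 (.s k83 k80 0 (.d k243 k163 k162 11 12))))),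
  (.s k89 k93 1 (.s k169 k253 13 (.s k9 k249 11 (.s k13 k5 1 (.d k241 k161 k165 11 13))))), (.s k3
  k2 0 (.s k89 k93 1 (.s k169 k253 13 (.s k86 k252 14 (.s k83 k92 2 (.d k243 k163 k162 11 12))))))]
  .n)

def s7_170_48 : T TT 256 :=
  (.q k1 [(.s k89 k93 1 (.s k169 k253 13 (.s k9 k249 11 (.s k13 k5 1 (.d k241 k161 k165 11 13))))),
  (.s k3 k2 0 (.s k161 k241 11 (.s k82 k240 12 (.s k83 k80 0 (.d k243 k163 k162 11 12))))), (.s k3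
  k2 0 (.s k89 k93 1 (.s k169 k253 13 (.s k86 k252 14 (.s k83 k92 2 (.d k243 k163 k162 11 12))))))]
  .n)

def s7_170_49 : T TT 256 :=
  (.q k1 [(.s k3 k2 0 (.s k161 k241 11 (.s k82 k240 12 (.s k83 k80 0 (.d k243 k163 k162 11 12))))),
  (.s k89 k93 1 (.s k169 k253 13 (.s k9 k249 11 (.s k13 k5 1 (.d k241 k161 k165 11 13))))), (.s k3
  k2 0 (.s k89 k93 1 (.s k169 k253 13 (.s k86 k252 14 (.s k83 k92 2 (.d k243 k163 k162 11 12))))))]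
  .n)

def s7_170_50 : T TT 256 :=
  (.q k1 [(.s k89 k93 1 (.s k169 k253 13 (.s k9 k249 11 (.s k13 k5 1 (.d k241 k161 k165 11 13))))),
  (.s k3 k2 0 (.s k161 k241 11 (.s k82 k240 12 (.s k83 k80 0 (.d k243 k163 k162 11 12))))), (.s k3
  k2 0 (.s k89 k93 1 (.s k169 k253 13 (.s k86 k252 14 (.s k83 k92 2 (.d k243 k163 k162 11 12))))))]
  .n)

def s7_170_51 : T TT 256 :=
  (.q k1 [(.s k89 k93 1 (.s k169 k253 13 (.s k9 k249 11 (.s k13 k5 1 (.d k241 k161 k165 11 13))))),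
  (.s k3 k2 0 (.s k161 k241 11 (.s k82 k240 12 (.s k83 k80 0 (.d k243 k163 k162 11 12))))), (.s k3
  k2 0 (.s k89 k93 1 (.s k169 k253 13 (.s k86 k252 14 (.s k83 k92 2 (.d k243 k163 k162 11 12))))))]
  .n)

def s7_170_52 : T TT 256 :=
  (.f k162 k243 12 (.f k89 k93 1 (.q k64 [(.s k98 k115 4 (.s k34 k226 7 (.s k51 k17 4 (.d k192 k128
  k145 7 12)))), (.s k106 k127 6 (.s k72 k123 4 (.s k76 k68 1 (.d k115 k98 k102 4 6)))), (.s k106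
  k127 6 (.s k192 k128 7 (.s k149 k63 14 (.s k209 k29 9 (.s k17 k145 7 (.s k213 k21 7 (.d k221 k217
  k153 1 9)))))))] (.c k22 (.q k37 [(.s k98 k115 4 (.s k34 k226 7 (.s k51 k17 4 (.d k192 k128 k145 7
  12)))), (.s k106 k127 6 (.s k72 k123 4 (.s k76 k68 1 (.d k115 k98 k102 4 6)))), (.s k106 k127 6
  (.s k192 k128 7 (.s k149 k63 14 (.s k209 k29 9 (.s k17 k145 7 (.s k213 k21 7 (.d k221 k217 k153 1
  9)))))))] .n) (.c k37 (.q k22 [(.s k98 k115 4 (.s k34 k226 7 (.s k51 k17 4 (.d k192 k128 k145 7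
  12)))), (.s k106 k127 6 (.s k72 k123 4 (.s k76 k68 1 (.d k115 k98 k102 4 6)))), (.s k106 k127 6
  (.s k192 k128 7 (.s k149 k63 14 (.s k209 k29 9 (.s k17 k145 7 (.s k213 k21 7 (.d k221 k217 k153 1
  9)))))))] .n) .n)))))

def s7_170_53 : T TT 256 :=
  (.q k1 [(.s k3 k2 0 (.s k161 k241 11 (.s k82 k240 12 (.s k83 k80 0 (.d k243 k163 k162 11 12))))),
  (.s k89 k93 1 (.s k169 k253 13 (.s k9 k249 11 (.s k13 k5 1 (.d k241 k161 k165 11 13))))), (.s k3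
  k2 0 (.s k89 k93 1 (.s k169 k253 13 (.s k86 k252 14 (.s k83 k92 2 (.d k243 k163 k162 11 12))))))]
  .n)

def s7_170_54 : T TT 256 :=
  (.q k1 [(.s k3 k2 0 (.s k161 k241 11 (.s k82 k240 12 (.s k83 k80 0 (.d k243 k163 k162 11 12))))),
  (.s k89 k93 1 (.s k169 k253 13 (.s k9 k249 11 (.s k13 k5 1 (.d k241 k161 k165 11 13))))), (.s k3
  k2 0 (.s k89 k93 1 (.s k169 k253 13 (.s k86 k252 14 (.s k83 k92 2 (.d k243 k163 k162 11 12))))))]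
  .n)

def s7_170_55 : T TT 256 :=
  (.f k162 k243 12 (.f k89 k93 1 (.q k64 [(.s k98 k115 4 (.s k34 k226 7 (.s k51 k17 4 (.d k192 k128
  k145 7 12)))), (.s k106 k127 6 (.s k72 k123 4 (.s k76 k68 1 (.d k115 k98 k102 4 6)))), (.s k106
  k127 6 (.s k192 k128 7 (.s k149 k63 14 (.s k209 k29 9 (.s k17 k145 7 (.s k213 k21 7 (.d k221 k217
  k153 1 9)))))))] (.c k23 (.q k39 [(.s k98 k115 4 (.s k34 k226 7 (.s k51 k17 4 (.d k192 k128 k145 7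
  12)))), (.s k106 k127 6 (.s k72 k123 4 (.s k76 k68 1 (.d k115 k98 k102 4 6)))), (.s k106 k127 6
  (.s k192 k128 7 (.s k149 k63 14 (.s k209 k29 9 (.s k17 k145 7 (.s k213 k21 7 (.d k221 k217 k153 1
  9)))))))] .n) (.c k39 (.q k23 [(.s k98 k115 4 (.s k34 k226 7 (.s k51 k17 4 (.d k192 k128 k145 7
  12)))), (.s k106 k127 6 (.s k72 k123 4 (.s k76 k68 1 (.d k115 k98 k102 4 6)))), (.s k106 k127 6
  (.s k192 k128 7 (.s k149 k63 14 (.s k209 k29 9 (.s k17 k145 7 (.s k213 k21 7 (.d k221 k217 k153 1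
  9)))))))] .n) .n)))))

def s7_170_56 : T TT 256 :=
  (.q k1 [(.s k3 k2 0 (.s k161 k241 11 (.s k82 k240 12 (.s k83 k80 0 (.d k243 k163 k162 11 12))))),
  (.s k89 k93 1 (.s k169 k253 13 (.s k9 k249 11 (.s k13 k5 1 (.d k241 k161 k165 11 13))))), (.s k3
  k2 0 (.s k89 k93 1 (.s k169 k253 13 (.s k86 k252 14 (.s k83 k92 2 (.d k243 k163 k162 11 12))))))]
  .n)

def s7_170_57 : T TT 256 :=
  (.q k1 [(.s k3 k2 0 (.s k161 k241 11 (.s k82 k240 12 (.s k83 k80 0 (.d k243 k163 k162 11 12))))),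
  (.s k89 k93 1 (.s k169 k253 13 (.s k9 k249 11 (.s k13 k5 1 (.d k241 k161 k165 11 13))))), (.s k3
  k2 0 (.s k89 k93 1 (.s k169 k253 13 (.s k86 k252 14 (.s k83 k92 2 (.d k243 k163 k162 11 12))))))]
  .n)

def s7_170_58 : T TT 256 :=
  (.q k1 [(.s k3 k2 0 (.s k161 k241 11 (.s k82 k240 12 (.s k83 k80 0 (.d k243 k163 k162 11 12))))),
  (.s k89 k93 1 (.s k169 k253 13 (.s k9 k249 11 (.s k13 k5 1 (.d k241 k161 k165 11 13))))), (.s k3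
  k2 0 (.s k89 k93 1 (.s k169 k253 13 (.s k86 k252 14 (.s k83 k92 2 (.d k243 k163 k162 11 12))))))]
  .n)

def s7_170_59 : T TT 256 :=
  (.q k1 [(.s k3 k2 0 (.s k161 k241 11 (.s k82 k240 12 (.s k83 k80 0 (.d k243 k163 k162 11 12))))),
  (.s k89 k93 1 (.s k169 k253 13 (.s k9 k249 11 (.s k13 k5 1 (.d k241 k161 k165 11 13))))), (.s k3
  k2 0 (.s k89 k93 1 (.s k169 k253 13 (.s k86 k252 14 (.s k83 k92 2 (.d k243 k163 k162 11 12))))))]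
  .n)

def s7_170_60 : T TT 256 :=
  (.q k1 [(.s k89 k93 1 (.s k169 k253 13 (.s k9 k249 11 (.s k13 k5 1 (.d k241 k161 k165 11 13))))),
  (.s k3 k2 0 (.s k161 k241 11 (.s k82 k240 12 (.s k83 k80 0 (.d k243 k163 k162 11 12))))), (.s k3
  k2 0 (.s k89 k93 1 (.s k169 k253 13 (.s k86 k252 14 (.s k83 k92 2 (.d k243 k163 k162 11 12))))))]
  .n)

def s7_170_61 : T TT 256 :=
  (.q k1 [(.s k3 k2 0 (.s k161 k241 11 (.s k82 k240 12 (.s k83 k80 0 (.d k243 k163 k162 11 12))))),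
  (.s k89 k93 1 (.s k169 k253 13 (.s k9 k249 11 (.s k13 k5 1 (.d k241 k161 k165 11 13))))), (.s k3
  k2 0 (.s k89 k93 1 (.s k169 k253 13 (.s k86 k252 14 (.s k83 k92 2 (.d k243 k163 k162 11 12))))))]
  .n)

def s7_170_62 : T TT 256 :=
  (.q k1 [(.s k89 k93 1 (.s k169 k253 13 (.s k9 k249 11 (.s k13 k5 1 (.d k241 k161 k165 11 13))))),
  (.s k3 k2 0 (.s k161 k241 11 (.s k82 k240 12 (.s k83 k80 0 (.d k243 k163 k162 11 12))))), (.s k3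
  k2 0 (.s k89 k93 1 (.s k169 k253 13 (.s k86 k252 14 (.s k83 k92 2 (.d k243 k163 k162 11 12))))))]
  .n)

def s7_170_63 : T TT 256 :=
  (.q k1 [(.s k89 k93 1 (.s k169 k253 13 (.s k9 k249 11 (.s k13 k5 1 (.d k241 k161 k165 11 13))))),
  (.s k3 k2 0 (.s k161 k241 11 (.s k82 k240 12 (.s k83 k80 0 (.d k243 k163 k162 11 12))))), (.s k3
  k2 0 (.s k89 k93 1 (.s k169 k253 13 (.s k86 k252 14 (.s k83 k92 2 (.d k243 k163 k162 11 12))))))]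
  .n)

def s7_170_64 : T TT 256 :=
  (.q k1 [(.s k3 k2 0 (.s k161 k241 11 (.s k162 k243 12 (.s k160 k163 0 (.d k240 k80 k82 11 12))))),
  (.s k89 k93 1 (.s k169 k253 13 (.s k9 k249 11 (.s k13 k5 1 (.d k241 k161 k165 11 13))))), (.s k3
  k2 0 (.s k89 k93 1 (.s k169 k253 13 (.s k86 k252 14 (.s k83 k92 2 (.d k243 k163 k162 11 12))))))]
  .n)

def s7_170_65 : T TT 256 :=
  (.q k1 [(.s k3 k2 0 (.s k161 k241 11 (.s k82 k240 12 (.s k83 k80 0 (.d k243 k163 k162 11 12))))),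
  (.s k89 k93 1 (.s k169 k253 13 (.s k9 k249 11 (.s k13 k5 1 (.d k241 k161 k165 11 13))))), (.s k3
  k2 0 (.s k89 k93 1 (.s k169 k253 13 (.s k86 k252 14 (.s k83 k92 2 (.d k243 k163 k162 11 12))))))]
  .n)

def s7_170_66 : T TT 256 :=
  (.q k1 [(.s k89 k93 1 (.s k169 k253 13 (.s k9 k249 11 (.s k13 k5 1 (.d k241 k161 k165 11 13))))),
  (.s k3 k2 0 (.s k161 k241 11 (.s k82 k240 12 (.s k83 k80 0 (.d k243 k163 k162 11 12))))), (.s k3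
  k2 0 (.s k89 k93 1 (.s k169 k253 13 (.s k86 k252 14 (.s k83 k92 2 (.d k243 k163 k162 11 12))))))]
  .n)

def s7_170_67 : T TT 256 :=
  (.q k1 [(.s k3 k2 0 (.s k161 k241 11 (.s k82 k240 12 (.s k83 k80 0 (.d k243 k163 k162 11 12))))),
  (.s k89 k93 1 (.s k169 k253 13 (.s k9 k249 11 (.s k13 k5 1 (.d k241 k161 k165 11 13))))), (.s k3
  k2 0 (.s k89 k93 1 (.s k169 k253 13 (.s k86 k252 14 (.s k83 k92 2 (.d k243 k163 k162 11 12))))))]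
  .n)

def s7_170_68 : T TT 256 :=
  (.q k1 [(.s k3 k2 0 (.s k161 k241 11 (.s k82 k240 12 (.s k83 k80 0 (.d k243 k163 k162 11 12))))),
  (.s k89 k93 1 (.s k169 k253 13 (.s k9 k249 11 (.s k13 k5 1 (.d k241 k161 k165 11 13))))), (.s k3
  k2 0 (.s k89 k93 1 (.s k169 k253 13 (.s k86 k252 14 (.s k83 k92 2 (.d k243 k163 k162 11 12))))))]
  .n)

def s7_170_69 : T TT 256 :=
  (.q k1 [(.s k3 k2 0 (.s k161 k241 11 (.s k82 k240 12 (.s k83 k80 0 (.d k243 k163 k162 11 12))))),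
  (.s k89 k93 1 (.s k169 k253 13 (.s k9 k249 11 (.s k13 k5 1 (.d k241 k161 k165 11 13))))), (.s k3
  k2 0 (.s k89 k93 1 (.s k169 k253 13 (.s k86 k252 14 (.s k83 k92 2 (.d k243 k163 k162 11 12))))))]
  .n)

def s7_170_70 : T TT 256 :=
  (.f k89 k93 1 (.f k162 k243 12 (.q k1 [(.s k161 k241 11 (.s k160 k163 0 (.s k240 k80 11 (.d k3 k2
  k82 0 12)))), (.s k169 k253 13 (.s k9 k249 11 (.s k13 k5 1 (.d k241 k161 k165 11 13)))), (.s k3 k2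
  0 (.s k169 k253 13 (.s k86 k252 14 (.s k83 k92 2 (.s k80 k82 0 (.s k87 k84 0 (.d k95 k91 k90 1
  2)))))))] (.c k133 (.q k196 [(.s k161 k241 11 (.s k160 k163 0 (.s k240 k80 11 (.d k3 k2 k82 0
  12)))), (.s k169 k253 13 (.s k9 k249 11 (.s k13 k5 1 (.d k241 k161 k165 11 13)))), (.s k3 k2 0 (.s
  k169 k253 13 (.s k86 k252 14 (.s k83 k92 2 (.s k80 k82 0 (.s k87 k84 0 (.d k95 k91 k90 1 2)))))))]
  .n) (.c k196 (.q k133 [(.s k161 k241 11 (.s k160 k163 0 (.s k240 k80 11 (.d k3 k2 k82 0 12)))),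
  (.s k169 k253 13 (.s k9 k249 11 (.s k13 k5 1 (.d k241 k161 k165 11 13)))), (.s k3 k2 0 (.s k169
  k253 13 (.s k86 k252 14 (.s k83 k92 2 (.s k80 k82 0 (.s k87 k84 0 (.d k95 k91 k90 1 2)))))))] .n)
  .n)))))

def s7_170_71 : T TT 256 :=
  (.f k89 k93 1 (.f k162 k243 12 (.q k1 [(.s k161 k241 11 (.s k160 k163 0 (.s k240 k80 11 (.d k3 k2
  k82 0 12)))), (.s k169 k253 13 (.s k9 k249 11 (.s k13 k5 1 (.d k241 k161 k165 11 13)))), (.s k3 k2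
  0 (.s k169 k253 13 (.s k86 k252 14 (.s k83 k92 2 (.s k80 k82 0 (.s k87 k84 0 (.d k95 k91 k90 1
  2)))))))] (.c k135 (.q k199 [(.s k161 k241 11 (.s k160 k163 0 (.s k240 k80 11 (.d k3 k2 k82 0
  12)))), (.s k169 k253 13 (.s k9 k249 11 (.s k13 k5 1 (.d k241 k161 k165 11 13)))), (.s k3 k2 0 (.s
  k169 k253 13 (.s k86 k252 14 (.s k83 k92 2 (.s k80 k82 0 (.s k87 k84 0 (.d k95 k91 k90 1 2)))))))]
  .n) (.c k199 (.q k135 [(.s k161 k241 11 (.s k160 k163 0 (.s k240 k80 11 (.d k3 k2 k82 0 12)))),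
  (.s k169 k253 13 (.s k9 k249 11 (.s k13 k5 1 (.d k241 k161 k165 11 13)))), (.s k3 k2 0 (.s k169
  k253 13 (.s k86 k252 14 (.s k83 k92 2 (.s k80 k82 0 (.s k87 k84 0 (.d k95 k91 k90 1 2)))))))] .n)
  .n)))))

def s7_170_72 : T TT 256 :=
  (.q k1 [(.s k3 k2 0 (.s k161 k241 11 (.s k82 k240 12 (.s k83 k80 0 (.d k243 k163 k162 11 12))))),
  (.s k89 k93 1 (.s k169 k253 13 (.s k9 k249 11 (.s k13 k5 1 (.d k241 k161 k165 11 13))))), (.s k3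
  k2 0 (.s k89 k93 1 (.s k169 k253 13 (.s k86 k252 14 (.s k83 k92 2 (.d k243 k163 k162 11 12))))))]
  .n)

def s7_170_73 : T TT 256 :=
  (.q k1 [(.s k3 k2 0 (.s k161 k241 11 (.s k82 k240 12 (.s k83 k80 0 (.d k243 k163 k162 11 12))))),
  (.s k89 k93 1 (.s k169 k253 13 (.s k9 k249 11 (.s k13 k5 1 (.d k241 k161 k165 11 13))))), (.s k3
  k2 0 (.s k89 k93 1 (.s k169 k253 13 (.s k86 k252 14 (.s k83 k92 2 (.d k243 k163 k162 11 12))))))]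
  .n)

def s7_170_74 : T TT 256 :=
  (.q k1 [(.s k3 k2 0 (.s k161 k241 11 (.s k82 k240 12 (.s k83 k80 0 (.d k243 k163 k162 11 12))))),
  (.s k89 k93 1 (.s k169 k253 13 (.s k9 k249 11 (.s k13 k5 1 (.d k241 k161 k165 11 13))))), (.s k3
  k2 0 (.s k89 k93 1 (.s k169 k253 13 (.s k86 k252 14 (.s k83 k92 2 (.d k243 k163 k162 11 12))))))]
  .n)

def s7_170_75 : T TT 256 :=
  (.q k1 [(.s k3 k2 0 (.s k161 k241 11 (.s k82 k240 12 (.s k83 k80 0 (.d k243 k163 k162 11 12))))),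
  (.s k89 k93 1 (.s k169 k253 13 (.s k9 k249 11 (.s k13 k5 1 (.d k241 k161 k165 11 13))))), (.s k3
  k2 0 (.s k89 k93 1 (.s k169 k253 13 (.s k86 k252 14 (.s k83 k92 2 (.d k243 k163 k162 11 12))))))]
  .n)

def s7_170_76 : T TT 256 :=
  (.q k1 [(.s k3 k2 0 (.s k161 k241 11 (.s k82 k240 12 (.s k83 k80 0 (.d k243 k163 k162 11 12))))),
  (.s k89 k93 1 (.s k169 k253 13 (.s k9 k249 11 (.s k13 k5 1 (.d k241 k161 k165 11 13))))), (.s k3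
  k2 0 (.s k89 k93 1 (.s k169 k253 13 (.s k86 k252 14 (.s k83 k92 2 (.d k243 k163 k162 11 12))))))]
  .n)

def s7_170_77 : T TT 256 :=
  (.q k1 [(.s k3 k2 0 (.s k161 k241 11 (.s k82 k240 12 (.s k83 k80 0 (.d k243 k163 k162 11 12))))),
  (.s k89 k93 1 (.s k169 k253 13 (.s k9 k249 11 (.s k13 k5 1 (.d k241 k161 k165 11 13))))), (.s k3
  k2 0 (.s k89 k93 1 (.s k169 k253 13 (.s k86 k252 14 (.s k83 k92 2 (.d k243 k163 k162 11 12))))))]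
  .n)

def s7_170_78 : T TT 256 :=
  (.q k1 [(.s k3 k2 0 (.s k161 k241 11 (.s k82 k240 12 (.s k83 k80 0 (.d k243 k163 k162 11 12))))),
  (.s k89 k93 1 (.s k169 k253 13 (.s k9 k249 11 (.s k13 k5 1 (.d k241 k161 k165 11 13))))), (.s k3
  k2 0 (.s k89 k93 1 (.s k169 k253 13 (.s k86 k252 14 (.s k83 k92 2 (.d k243 k163 k162 11 12))))))]
  .n)

def s7_170_79 : T TT 256 :=
  (.q k1 [(.s k3 k2 0 (.s k161 k241 11 (.s k82 k240 12 (.s k83 k80 0 (.d k243 k163 k162 11 12))))),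
  (.s k89 k93 1 (.s k169 k253 13 (.s k9 k249 11 (.s k13 k5 1 (.d k241 k161 k165 11 13))))), (.s k3
  k2 0 (.s k89 k93 1 (.s k169 k253 13 (.s k86 k252 14 (.s k83 k92 2 (.d k243 k163 k162 11 12))))))]
  .n)

def s7_170_80 : T TT 256 :=
  (.q k1 [(.s k89 k93 1 (.s k169 k253 13 (.s k9 k249 11 (.s k241 k161 11 (.d k13 k5 k165 1 13))))),
  (.s k3 k2 0 (.s k169 k253 13 (.s k243 k162 12 (.s k163 k83 11 (.s k166 k172 2 (.s k4 k247 12 (.d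
  k12 k8 k89 1 14)))))))] (.c k89 (.l (.s k3 k2 0 (.s k161 k241 11 (.s k169 k253 13 (.s k165 k173 1
  (.s k240 k82 12 (.s k15 k90 14 (.d k5 k10 k245 2 11)))))))) (.c k169 (.l (.s k89 k93 1 (.s k241
  k161 11 (.s k165 k13 13 (.s k5 k245 11 (.s k15 k10 2 (.s k243 k162 12 (.d k240 k90 k242 14
  0)))))))) (.c k253 (.l (.s k3 k2 0 (.s k89 k93 1 (.s k241 k161 11 (.s k13 k165 13 (.s k9 k5 1 (.s
  k243 k162 12 (.d k12 k6 k166 2 14)))))))) .n))))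

def s7_170_82 : T TT 256 :=
  (.q k16 [(.s k89 k93 1 (.s k154 k223 10 (.s k24 k219 8 (.s k28 k20 1 (.d k211 k146 k150 8 10))))),
  (.s k48 k32 3 (.s k146 k211 8 (.s k97 k195 12 (.s k113 k65 3 (.d k243 k178 k162 8 12))))), (.s k48
  k32 3 (.s k89 k93 1 (.s k154 k223 10 (.s k101 k207 14 (.s k113 k77 5 (.d k243 k178 k162 8
  12))))))] .n)

def s7_170_83 : T TT 256 :=
  (.q k1 [(.s k3 k2 0 (.s k161 k241 11 (.s k162 k243 12 (.s k160 k163 0 (.d k240 k80 k82 11 12))))),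
  (.s k89 k93 1 (.s k169 k253 13 (.s k9 k249 11 (.s k13 k5 1 (.d k241 k161 k165 11 13))))), (.s k3
  k2 0 (.s k89 k93 1 (.s k169 k253 13 (.s k243 k162 12 (.s k249 k9 11 (.d k252 k86 k246 14 2))))))]
  .n)

def s7_170_84 : T TT 256 :=
  (.q k1 [(.s k3 k2 0 (.s k161 k241 11 (.s k162 k243 12 (.s k160 k163 0 (.d k240 k80 k82 11 12))))),
  (.s k89 k93 1 (.s k169 k253 13 (.s k9 k249 11 (.s k13 k5 1 (.d k241 k161 k165 11 13))))), (.s k3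
  k2 0 (.s k89 k93 1 (.s k169 k253 13 (.s k86 k252 14 (.s k83 k92 2 (.d k243 k163 k162 11 12))))))]
  .n)

def s7_170_86 : T TT 256 :=
  (.f k89 k93 1 (.q k165 [(.s k241 k13 13 (.s k1 k161 11 (.s k245 k5 11 (.d k253 k249 k169 1 13)))),
  (.s k5 k245 11 (.s k15 k10 2 (.s k90 k240 14 (.s k91 k88 0 (.d k243 k162 k167 12 13))))), (.s k241
  k13 13 (.s k243 k162 12 (.s k240 k242 0 (.s k80 k160 11 (.d k90 k95 k15 2 14)))))] (.c k2 (.q k254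
  [(.s k241 k13 13 (.s k1 k161 11 (.s k245 k5 11 (.d k253 k249 k169 1 13)))), (.s k5 k245 11 (.s k15
  k10 2 (.s k90 k240 14 (.s k91 k88 0 (.d k243 k162 k167 12 13))))), (.s k241 k13 13 (.s k1 k161 11
  (.s k243 k162 12 (.s k253 k169 13 (.s k249 k245 1 (.d k252 k255 k246 0 2))))))] (.c k245 (.l (.s
  k241 k13 13 (.s k161 k1 11 (.s k243 k162 12 (.s k240 k242 0 (.s k82 k3 12 (.d k80 k83 k160 0
  11))))))) .n)) (.c k254 (.q k2 [(.s k241 k13 13 (.d k1 k3 k161 0 11)), (.s k5 k245 11 (.s k13 k241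
  13 (.s k15 k10 2 (.s k12 k14 0 (.d k243 k162 k166 12 14)))))] (.c k13 (.l (.s k1 k3 0 (.s k161
  k241 11 (.d k169 k173 k253 1 13)))) (.c k241 (.l (.s k1 k3 0 (.s k5 k245 11 (.s k9 k13 1 (.d k169
  k249 k253 11 13))))) (.c k253 (.l (.s k1 k3 0 (.d k241 k161 k13 11 13))) .n)))) .n))))

def s7_170_87 : T TT 256 :=
  (.f k89 k93 1 (.q k113 [(.s k65 k97 3 (.s k101 k77 5 (.s k117 k69 3 (.d k125 k121 k105 1 5)))),
  (.s k97 k65 3 (.s k243 k162 12 (.s k48 k178 8 (.s k146 k195 12 (.d k16 k32 k211 3 8))))), (.s k101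
  k77 5 (.s k69 k117 3 (.s k207 k138 10 (.s k243 k162 12 (.d k48 k154 k178 14 8)))))] (.c k167 (.q
  k247 [(.s k243 k162 12 (.d k166 k4 k12 12 14)), (.s k65 k97 3 (.s k77 k101 5 (.s k73 k69 1 (.d
  k105 k121 k125 3 5))))] .n) (.c k247 (.q k167 [(.s k65 k97 3 (.s k101 k77 5 (.s k117 k69 3 (.d
  k125 k121 k105 1 5)))), (.s k97 k65 3 (.s k243 k162 12 (.s k48 k178 8 (.s k146 k195 12 (.d k16 k32
  k211 3 8))))), (.s k101 k77 5 (.s k69 k117 3 (.s k207 k138 10 (.s k243 k162 12 (.d k48 k154 k178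
  14 8)))))] .n) .n))))

def s7_170_88 : T TT 256 :=
  (.q k1 [(.s k3 k2 0 (.s k161 k241 11 (.s k162 k243 12 (.s k160 k163 0 (.d k240 k80 k82 11 12))))),
  (.s k89 k93 1 (.s k169 k253 13 (.s k9 k249 11 (.s k13 k5 1 (.d k241 k161 k165 11 13))))), (.s k3
  k2 0 (.s k89 k93 1 (.s k169 k253 13 (.s k86 k252 14 (.s k83 k92 2 (.d k243 k163 k162 11 12))))))]
  .n)

def s7_170_89 : T TT 256 :=
  (.q k3 [(.s k2 k1 0 (.s k162 k243 12 (.s k82 k242 11 (.s k240 k161 12 (.d k80 k83 k160 0 11))))),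
  (.s k1 k2 0 (.s k161 k241 11 (.s k169 k253 13 (.s k165 k173 1 (.s k240 k82 12 (.s k15 k90 14 (.d
  k5 k10 k245 2 11)))))))] (.c k1 (.q k48 [(.s k32 k16 3 (.s k162 k243 12 (.s k97 k227 8 (.s k195
  k146 12 (.d k65 k113 k130 3 8))))), (.s k16 k32 3 (.s k18 k33 4 (.s k154 k223 10 (.s k86 k222 9
  (.s k84 k87 0 (.d k252 k168 k169 13 14)))))), (.s k18 k33 4 (.s k243 k162 12 (.s k83 k163 11 (.s
  k82 k80 0 (.s k113 k178 8 (.s k97 k65 3 (.d k146 k210 k195 7 12)))))))] (.c k8 (.q k251 [(.s k32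
  k16 3 (.s k162 k243 12 (.s k97 k227 8 (.s k195 k146 12 (.d k65 k113 k130 3 8))))), (.s k16 k32 3
  (.s k18 k33 4 (.s k154 k223 10 (.s k86 k222 9 (.s k84 k87 0 (.d k252 k168 k169 13 14)))))), (.s
  k243 k162 12 (.s k83 k163 11 (.s k80 k82 0 (.s k95 k90 2 (.s k255 k247 1 (.d k87 k91 k171 1
  13))))))] .n) (.c k251 (.q k8 [(.s k12 k4 1 (.s k24 k36 5 (.s k40 k56 3 (.s k20 k60 5 (.d k16 k28
  k32 1 3))))), (.s k18 k33 4 (.s k243 k162 12 (.s k83 k163 11 (.s k82 k80 0 (.s k113 k178 8 (.s k97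
  k65 3 (.d k146 k210 k195 7 12)))))))] .n) .n))) (.c k2 (.q k86 [(.s k84 k87 0 (.d k252 k168 k169
  13 14)), (.s k162 k243 12 (.s k169 k252 14 (.s k1 k253 13 (.s k161 k241 11 (.s k160 k163 0 (.d
  k240 k80 k82 11 12)))))), (.s k87 k84 0 (.s k243 k162 12 (.s k83 k163 11 (.s k95 k91 1 (.d k80 k82
  k90 0 2)))))] (.c k8 (.q k251 [(.s k84 k87 0 (.d k252 k168 k169 13 14)), (.s k169 k252 14 (.s k243
  k162 12 (.s k163 k83 11 (.s k166 k172 2 (.d k247 k255 k4 1 12))))), (.s k87 k84 0 (.s k243 k162 12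
  (.d k255 k247 k171 1 13)))] (.c k247 (.l (.s k252 k169 14 (.d k84 k168 k87 13 0))) .n)) (.c k251
  (.q k8 [(.s k84 k87 0 (.d k252 k168 k169 13 14)), (.s k87 k84 0 (.s k243 k162 12 (.s k83 k163 11
  (.s k95 k91 1 (.d k80 k82 k90 0 2))))), (.s k4 k12 1 (.s k169 k252 14 (.s k243 k162 12 (.s k163
  k83 11 (.d k166 k172 k247 2 12)))))] .n) .n))) (.c k8 (.q k251 [(.s k1 k2 0 (.s k169 k253 13 (.s
  k86 k252 14 (.s k87 k84 0 (.s k255 k171 13 (.d k243 k247 k162 1 12)))))), (.s k2 k1 0 (.s k162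
  k243 12 (.s k82 k242 11 (.s k240 k161 12 (.d k80 k83 k160 0 11))))), (.s k243 k162 12 (.s k83 k163
  11 (.s k255 k247 1 (.s k87 k171 13 (.s k95 k91 1 (.d k80 k90 k82 2 0))))))] (.c k162 (.l (.s k1 k2
  0 (.s k161 k241 11 (.s k82 k240 12 (.s k80 k83 0 (.s k90 k95 2 (.s k86 k94 1 (.d k169 k253 k252 13
  14)))))))) (.c k243 (.l (.s k1 k2 0 (.s k161 k241 11 (.s k169 k253 13 (.s k165 k173 1 (.s k240 k82
  12 (.s k15 k90 14 (.d k5 k10 k245 2 11)))))))) .n))) (.c k82 (.f k1 k2 0 (.f k161 k241 11 (.l (.s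
  k162 k243 12 (.s k160 k163 0 (.s k169 k253 13 (.s k165 k173 1 (.s k240 k80 11 (.s k15 k90 14 (.d
  k5 k10 k245 2 11)))))))))) (.c k161 (.f k2 k1 0 (.l (.s k162 k243 12 (.s k82 k242 11 (.s k80 k83 0
  (.s k90 k95 2 (.s k86 k94 1 (.s k252 k169 14 (.d k84 k87 k168 0 13))))))))) (.c k162 (.l (.s k1 k2
  0 (.s k161 k241 11 (.s k82 k240 12 (.s k80 k83 0 (.s k90 k95 2 (.s k86 k94 1 (.d k169 k253 k252 13
  14)))))))) (.c k240 (.f k1 k2 0 (.l (.s k169 k253 13 (.s k86 k252 14 (.s k87 k84 0 (.s k243 k162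
  12 (.s k83 k163 11 (.s k95 k91 1 (.d k80 k82 k90 0 2))))))))) (.c k241 (.l (.s k2 k1 0 (.s k162
  k243 12 (.s k82 k242 11 (.s k240 k161 12 (.d k80 k83 k160 0 11)))))) (.c k242 (.l (.s k1 k2 0 (.s
  k161 k241 11 (.s k82 k240 12 (.s k243 k162 12 (.d k83 k80 k163 0 11)))))) (.c k251 (.q k8 [(.s k1
  k2 0 (.s k12 k4 1 (.s k9 k6 2 (.s k5 k13 1 (.d k10 k11 k15 0 2))))), (.s k2 k1 0 (.s k162 k243 12
  (.s k82 k242 11 (.s k240 k161 12 (.d k80 k83 k160 0 11)))))] (.c k1 (.f k4 k12 1 (.l (.s k166 k247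
  12 (.s k243 k162 12 (.s k83 k163 11 (.s k80 k82 0 (.s k90 k95 2 (.s k242 k14 13 (.d k240 k160 k241
  11 0))))))))) (.c k2 (.q k86 [(.s k84 k87 0 (.d k252 k168 k169 13 14)), (.s k87 k84 0 (.s k243
  k162 12 (.s k83 k163 11 (.s k95 k91 1 (.d k80 k82 k90 0 2))))), (.s k4 k12 1 (.s k169 k252 14 (.s
  k243 k162 12 (.s k163 k83 11 (.d k166 k172 k247 2 12)))))] .n) (.c k12 (.l (.s k1 k2 0 (.s k161
  k241 11 (.s k82 k240 12 (.s k83 k80 0 (.d k243 k163 k162 11 12)))))) (.c k241 (.l (.s k2 k1 0 (.s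
  k162 k243 12 (.s k82 k242 11 (.s k240 k161 12 (.d k80 k83 k160 0 11)))))) .n))))) .n)))))))))))

def s7_170_90 : T TT 256 :=
  (.f k162 k243 12 (.f k89 k93 1 (.q k64 [(.s k98 k115 4 (.s k34 k226 7 (.s k51 k17 4 (.d k192 k128
  k145 7 12)))), (.s k106 k127 6 (.s k72 k123 4 (.s k76 k68 1 (.d k115 k98 k102 4 6)))), (.s k106
  k127 6 (.s k192 k128 7 (.s k149 k63 14 (.s k209 k29 9 (.s k17 k145 7 (.s k213 k21 7 (.d k221 k217
  k153 1 9)))))))] (.c k10 (.q k250 [(.s k98 k115 4 (.s k34 k226 7 (.s k51 k17 4 (.d k192 k128 k145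
  7 12)))), (.s k106 k127 6 (.s k72 k123 4 (.s k76 k68 1 (.d k115 k98 k102 4 6)))), (.s k106 k127 6
  (.s k192 k128 7 (.s k149 k63 14 (.s k209 k29 9 (.s k17 k145 7 (.s k213 k21 7 (.d k221 k217 k153 1
  9)))))))] .n) (.c k250 (.q k10 [(.s k98 k115 4 (.s k34 k226 7 (.s k51 k17 4 (.d k192 k128 k145 7
  12)))), (.s k106 k127 6 (.s k72 k123 4 (.s k76 k68 1 (.d k115 k98 k102 4 6)))), (.s k15 k5 2 (.s
  k192 k128 7 (.s k74 k133 10 (.s k69 k79 2 (.d k138 k202 k207 7 10)))))] .n) .n)))))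

def s7_170_91 : T TT 256 :=
  (.q k1 [(.s k3 k2 0 (.s k161 k241 11 (.s k82 k240 12 (.s k83 k80 0 (.d k243 k163 k162 11 12))))),
  (.s k89 k93 1 (.s k169 k253 13 (.s k9 k249 11 (.s k13 k5 1 (.d k241 k161 k165 11 13))))), (.s k3
  k2 0 (.s k89 k93 1 (.s k169 k253 13 (.s k86 k252 14 (.s k83 k92 2 (.d k243 k163 k162 11 12))))))]
  .n)

def s7_170_92 : T TT 256 :=
  (.q k1 [(.s k3 k2 0 (.s k161 k241 11 (.s k162 k243 12 (.s k160 k163 0 (.d k240 k80 k82 11 12))))),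
  (.s k89 k93 1 (.s k169 k253 13 (.s k9 k249 11 (.s k13 k5 1 (.d k241 k161 k165 11 13))))), (.s k3
  k2 0 (.s k89 k93 1 (.s k169 k253 13 (.s k243 k162 12 (.s k163 k83 11 (.d k166 k172 k12 2 14))))))]
  .n)

def s7_170_93 : T TT 256 :=
  (.q k48 [(.s k32 k16 3 (.s k162 k243 12 (.s k97 k227 8 (.s k65 k113 3 (.d k195 k130 k146 8
  12))))), (.s k16 k32 3 (.s k154 k223 10 (.s k243 k162 12 (.s k178 k113 8 (.s k166 k142 5 (.s k4
  k247 12 (.d k12 k8 k89 1 14))))))), (.s k16 k32 3 (.s k146 k211 8 (.s k154 k223 10 (.s k195 k97 12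
  (.s k65 k130 8 (.s k105 k125 5 (.d k150 k158 k60 1 14)))))))] (.c k16 (.q k1 [(.s k3 k2 0 (.s k161
  k241 11 (.s k162 k243 12 (.s k160 k163 0 (.d k240 k80 k82 11 12))))), (.s k3 k2 0 (.s k33 k18 4
  (.s k169 k253 13 (.s k101 k237 9 (.s k69 k117 3 (.d k207 k138 k154 10 14)))))), (.s k241 k161 11
  (.s k243 k162 12 (.s k113 k178 8 (.s k49 k177 7 (.s k17 k33 3 (.d k51 k50 k34 0 4))))))] .n) (.c
  k32 (.q k101 [(.s k69 k117 3 (.d k207 k138 k154 10 14)), (.s k154 k207 14 (.s k16 k223 10 (.s k146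
  k211 8 (.s k97 k195 12 (.s k65 k113 3 (.d k105 k109 k125 1 5)))))), (.s k69 k117 3 (.s k243 k162
  12 (.s k113 k178 8 (.s k77 k89 5 (.d k65 k97 k73 3 1)))))] .n) (.c k97 (.q k1 [(.s k161 k241 11
  (.s k162 k243 12 (.s k160 k163 0 (.s k240 k80 11 (.d k3 k2 k82 0 12))))), (.s k3 k2 0 (.s k32 k16
  3 (.s k33 k18 4 (.s k17 k49 3 (.d k34 k35 k51 0 4))))), (.s k241 k161 11 (.s k243 k162 12 (.s k113
  k178 8 (.s k49 k177 7 (.s k51 k50 0 (.d k17 k33 k34 3 4))))))] .n) (.c k162 (.l (.s k16 k32 3 (.s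
  k146 k211 8 (.s k97 k195 12 (.s k65 k113 3 (.s k105 k125 5 (.s k154 k223 10 (.d k101 k109 k207 1
  14)))))))) (.c k227 (.l (.s k16 k32 3 (.s k146 k211 8 (.s k97 k195 12 (.s k243 k162 12 (.d k113
  k65 k178 3 8)))))) .n))))))

def s7_170_94 : T TT 256 :=
  (.q k1 [(.s k3 k2 0 (.s k161 k241 11 (.s k82 k240 12 (.s k83 k80 0 (.d k243 k163 k162 11 12))))),
  (.s k89 k93 1 (.s k169 k253 13 (.s k9 k249 11 (.s k13 k5 1 (.d k241 k161 k165 11 13))))), (.s k3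
  k2 0 (.s k89 k93 1 (.s k169 k253 13 (.s k86 k252 14 (.s k243 k162 12 (.d k83 k92 k163 2 11))))))]
  .n)

def s7_170_95 : T TT 256 :=
  (.q k1 [(.s k3 k2 0 (.s k161 k241 11 (.s k82 k240 12 (.s k83 k80 0 (.d k243 k163 k162 11 12))))),
  (.s k89 k93 1 (.s k169 k253 13 (.s k9 k249 11 (.s k13 k5 1 (.d k241 k161 k165 11 13))))), (.s k3
  k2 0 (.s k89 k93 1 (.s k169 k253 13 (.s k86 k252 14 (.s k243 k162 12 (.d k83 k92 k163 2 11))))))]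
  .n)

def s7_170_96 : T TT 256 :=
  (.q k1 [(.s k3 k2 0 (.s k161 k241 11 (.s k162 k243 12 (.s k160 k163 0 (.d k240 k80 k82 11 12))))),
  (.s k89 k93 1 (.s k169 k253 13 (.s k9 k249 11 (.s k13 k5 1 (.d k241 k161 k165 11 13))))), (.s k3
  k2 0 (.s k89 k93 1 (.s k169 k253 13 (.s k86 k252 14 (.s k83 k92 2 (.d k243 k163 k162 11 12))))))]
  .n)

def s7_170_97 : T TT 256 :=
  (.q k1 [(.s k3 k2 0 (.s k161 k241 11 (.s k82 k240 12 (.s k83 k80 0 (.d k243 k163 k162 11 12))))),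
  (.s k89 k93 1 (.s k169 k253 13 (.s k9 k249 11 (.s k13 k5 1 (.d k241 k161 k165 11 13))))), (.s k3
  k2 0 (.s k89 k93 1 (.s k169 k253 13 (.s k86 k252 14 (.s k83 k92 2 (.d k243 k163 k162 11 12))))))]
  .n)

def s7_170_98 : T TT 256 :=
  (.q k1 [(.s k3 k2 0 (.s k161 k241 11 (.s k82 k240 12 (.s k83 k80 0 (.d k243 k163 k162 11 12))))),
  (.s k89 k93 1 (.s k169 k253 13 (.s k9 k249 11 (.s k13 k5 1 (.d k241 k161 k165 11 13))))), (.s k3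
  k2 0 (.s k89 k93 1 (.s k169 k253 13 (.s k86 k252 14 (.s k83 k92 2 (.d k243 k163 k162 11 12))))))]
  .n)

def s7_170_99 : T TT 256 :=
  (.q k1 [(.s k3 k2 0 (.s k161 k241 11 (.s k82 k240 12 (.s k83 k80 0 (.d k243 k163 k162 11 12))))),
  (.s k89 k93 1 (.s k169 k253 13 (.s k9 k249 11 (.s k13 k5 1 (.d k241 k161 k165 11 13))))), (.s k3
  k2 0 (.s k89 k93 1 (.s k169 k253 13 (.s k86 k252 14 (.s k83 k92 2 (.d k243 k163 k162 11 12))))))]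
  .n)

def s7_170_100 : T TT 256 :=
  (.q k1 [(.s k3 k2 0 (.s k161 k241 11 (.s k82 k240 12 (.s k83 k80 0 (.d k243 k163 k162 11 12))))),
  (.s k89 k93 1 (.s k169 k253 13 (.s k9 k249 11 (.s k13 k5 1 (.d k241 k161 k165 11 13))))), (.s k3
  k2 0 (.s k89 k93 1 (.s k169 k253 13 (.s k86 k252 14 (.s k83 k92 2 (.d k243 k163 k162 11 12))))))]
  .n)

def s7_170_101 : T TT 256 :=
  (.f k89 k93 1 (.q k16 [(.s k211 k146 8 (.s k150 k28 10 (.s k215 k20 8 (.d k223 k219 k154 1 10)))),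
  (.s k146 k211 8 (.s k162 k243 12 (.s k130 k178 3 (.s k195 k65 8 (.d k48 k32 k97 3 12))))), (.s
  k154 k223 10 (.s k243 k162 12 (.s k166 k12 14 (.s k178 k142 5 (.d k48 k32 k113 3 8)))))] (.c k32
  (.q k239 [(.s k211 k146 8 (.s k150 k28 10 (.s k215 k20 8 (.d k223 k219 k154 1 10)))), (.s k223
  k154 10 (.s k243 k162 12 (.s k166 k12 14 (.s k247 k4 12 (.d k255 k207 k251 3 1)))))] (.c k154 (.l
  (.s k211 k146 8 (.s k150 k28 10 (.s k20 k215 8 (.s k60 k40 5 (.s k243 k162 12 (.d k195 k227 k105 3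
  14))))))) (.c k223 (.l (.s k211 k146 8 (.s k28 k150 10 (.s k20 k24 1 (.s k60 k40 5 (.s k243 k162
  12 (.d k12 k44 k166 3 14))))))) .n))) (.c k239 (.l (.s k32 k48 3 (.s k154 k223 10 (.s k24 k219 8
  (.s k28 k20 1 (.d k211 k146 k150 8 10)))))) .n))))

def s7_170_102 : T TT 256 :=
  (.f k89 k93 1 (.q k17 [(.s k209 k145 7 (.s k149 k29 9 (.s k213 k21 7 (.d k221 k217 k153 1 9)))),
  (.s k145 k209 7 (.s k162 k243 12 (.s k128 k179 4 (.s k192 k64 7 (.d k51 k34 k98 4 12))))), (.s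
  k153 k221 9 (.s k243 k162 12 (.s k166 k12 14 (.s k179 k140 6 (.d k51 k34 k115 4 7)))))] (.c k34
  (.q k238 [(.s k209 k145 7 (.s k149 k29 9 (.s k213 k21 7 (.d k221 k217 k153 1 9)))), (.s k221 k153
  9 (.s k243 k162 12 (.s k166 k12 14 (.s k247 k4 12 (.d k255 k204 k251 4 1)))))] (.c k153 (.l (.s
  k209 k145 7 (.s k149 k29 9 (.s k21 k213 7 (.s k63 k42 6 (.s k243 k162 12 (.d k192 k226 k106 4
  14))))))) (.c k221 (.l (.s k209 k145 7 (.s k29 k149 9 (.s k21 k25 1 (.s k63 k42 6 (.s k243 k162 12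
  (.d k12 k46 k166 4 14))))))) .n))) (.c k238 (.l (.s k34 k51 4 (.s k153 k221 9 (.s k25 k217 7 (.s
  k29 k21 1 (.d k209 k145 k149 7 9)))))) .n))))

def s7_170_103 : T TT 256 :=
  (.q k1 [(.s k3 k2 0 (.s k161 k241 11 (.s k82 k240 12 (.s k83 k80 0 (.d k243 k163 k162 11 12))))),
  (.s k89 k93 1 (.s k169 k253 13 (.s k9 k249 11 (.s k13 k5 1 (.d k241 k161 k165 11 13))))), (.s k3
  k2 0 (.s k89 k93 1 (.s k169 k253 13 (.s k86 k252 14 (.s k83 k92 2 (.d k243 k163 k162 11 12))))))]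
  .n)

def s7_170_104 : T TT 256 :=
  (.q k1 [(.s k3 k2 0 (.s k161 k241 11 (.s k82 k240 12 (.s k83 k80 0 (.d k243 k163 k162 11 12))))),
  (.s k89 k93 1 (.s k169 k253 13 (.s k9 k249 11 (.s k13 k5 1 (.d k241 k161 k165 11 13))))), (.s k3
  k2 0 (.s k89 k93 1 (.s k169 k253 13 (.s k86 k252 14 (.s k83 k92 2 (.d k243 k163 k162 11 12))))))]
  .n)

def s7_170_105 : T TT 256 :=
  (.f k162 k243 12 (.f k89 k93 1 (.q k1 [(.s k161 k241 11 (.s k160 k163 0 (.s k240 k80 11 (.d k3 k2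
  k82 0 12)))), (.s k169 k253 13 (.s k9 k249 11 (.s k13 k5 1 (.d k241 k161 k165 11 13)))), (.s k3 k2
  0 (.s k169 k253 13 (.s k86 k252 14 (.s k83 k92 2 (.s k80 k82 0 (.s k87 k84 0 (.d k95 k91 k90 1
  2)))))))] (.c k40 (.q k235 [(.s k161 k241 11 (.s k160 k163 0 (.s k240 k80 11 (.d k3 k2 k82 0
  12)))), (.s k169 k253 13 (.s k9 k249 11 (.s k13 k5 1 (.d k241 k161 k165 11 13)))), (.s k3 k2 0 (.s
  k169 k253 13 (.s k86 k252 14 (.s k83 k92 2 (.s k80 k82 0 (.s k87 k84 0 (.d k95 k91 k90 1 2)))))))]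
  .n) (.c k235 (.q k40 [(.s k161 k241 11 (.s k160 k163 0 (.s k240 k80 11 (.d k3 k2 k82 0 12)))), (.s
  k169 k253 13 (.s k9 k249 11 (.s k13 k5 1 (.d k241 k161 k165 11 13)))), (.s k3 k2 0 (.s k60 k20 5
  (.s k41 k22 6 (.s k21 k61 5 (.d k42 k43 k63 0 6)))))] .n) .n)))))

def s7_170_106 : T TT 256 :=
  (.f k162 k243 12 (.f k89 k93 1 (.q k1 [(.s k161 k241 11 (.s k160 k163 0 (.s k240 k80 11 (.d k3 k2
  k82 0 12)))), (.s k169 k253 13 (.s k9 k249 11 (.s k13 k5 1 (.d k241 k161 k165 11 13)))), (.s k3 k2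
  0 (.s k169 k253 13 (.s k86 k252 14 (.s k83 k92 2 (.s k80 k82 0 (.s k87 k84 0 (.d k95 k91 k90 1
  2)))))))] (.c k42 (.q k234 [(.s k161 k241 11 (.s k160 k163 0 (.s k240 k80 11 (.d k3 k2 k82 0
  12)))), (.s k169 k253 13 (.s k9 k249 11 (.s k13 k5 1 (.d k241 k161 k165 11 13)))), (.s k3 k2 0 (.s
  k169 k253 13 (.s k86 k252 14 (.s k83 k92 2 (.s k80 k82 0 (.s k87 k84 0 (.d k95 k91 k90 1 2)))))))]
  .n) (.c k234 (.q k42 [(.s k161 k241 11 (.s k160 k163 0 (.s k240 k80 11 (.d k3 k2 k82 0 12)))), (.s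
  k169 k253 13 (.s k9 k249 11 (.s k13 k5 1 (.d k241 k161 k165 11 13)))), (.s k3 k2 0 (.s k21 k63 6
  (.s k41 k61 5 (.s k40 k43 0 (.d k60 k20 k22 5 6)))))] .n) .n)))))

def s7_170_107 : T TT 256 :=
  (.q k1 [(.s k3 k2 0 (.s k161 k241 11 (.s k82 k240 12 (.s k83 k80 0 (.d k243 k163 k162 11 12))))),
  (.s k89 k93 1 (.s k169 k253 13 (.s k9 k249 11 (.s k13 k5 1 (.d k241 k161 k165 11 13))))), (.s k3
  k2 0 (.s k89 k93 1 (.s k169 k253 13 (.s k86 k252 14 (.s k83 k92 2 (.d k243 k163 k162 11 12))))))]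
  .n)

def s7_170_108 : T TT 256 :=
  (.q k1 [(.s k3 k2 0 (.s k161 k241 11 (.s k82 k240 12 (.s k83 k80 0 (.d k243 k163 k162 11 12))))),
  (.s k89 k93 1 (.s k169 k253 13 (.s k9 k249 11 (.s k13 k5 1 (.d k241 k161 k165 11 13))))), (.s k3
  k2 0 (.s k89 k93 1 (.s k169 k253 13 (.s k86 k252 14 (.s k83 k92 2 (.d k243 k163 k162 11 12))))))]
  .n)

def s7_170_109 : T TT 256 :=
  (.q k1 [(.s k3 k2 0 (.s k161 k241 11 (.s k82 k240 12 (.s k83 k80 0 (.d k243 k163 k162 11 12))))),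
  (.s k89 k93 1 (.s k169 k253 13 (.s k9 k249 11 (.s k13 k5 1 (.d k241 k161 k165 11 13))))), (.s k3
  k2 0 (.s k89 k93 1 (.s k169 k253 13 (.s k86 k252 14 (.s k83 k92 2 (.d k243 k163 k162 11 12))))))]
  .n)

def s7_170_110 : T TT 256 :=
  (.q k1 [(.s k3 k2 0 (.s k161 k241 11 (.s k82 k240 12 (.s k83 k80 0 (.d k243 k163 k162 11 12))))),
  (.s k89 k93 1 (.s k169 k253 13 (.s k9 k249 11 (.s k13 k5 1 (.d k241 k161 k165 11 13))))), (.s k3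
  k2 0 (.s k89 k93 1 (.s k169 k253 13 (.s k86 k252 14 (.s k83 k92 2 (.d k243 k163 k162 11 12))))))]
  .n)

def s7_170_111 : T TT 256 :=
  (.q k1 [(.s k3 k2 0 (.s k161 k241 11 (.s k82 k240 12 (.s k83 k80 0 (.d k243 k163 k162 11 12))))),
  (.s k89 k93 1 (.s k169 k253 13 (.s k9 k249 11 (.s k13 k5 1 (.d k241 k161 k165 11 13))))), (.s k3
  k2 0 (.s k89 k93 1 (.s k169 k253 13 (.s k86 k252 14 (.s k83 k92 2 (.d k243 k163 k162 11 12))))))]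
  .n)

def s7_170_112 : T TT 256 :=
  (.q k1 [(.s k3 k2 0 (.s k161 k241 11 (.s k162 k243 12 (.s k160 k163 0 (.d k240 k80 k82 11 12))))),
  (.s k89 k93 1 (.s k169 k253 13 (.s k9 k249 11 (.s k13 k5 1 (.d k241 k161 k165 11 13))))), (.s k3
  k2 0 (.s k89 k93 1 (.s k169 k253 13 (.s k86 k252 14 (.s k83 k92 2 (.d k243 k163 k162 11 12))))))]
  .n)

def s7_170_113 : T TT 256 :=
  (.q k1 [(.s k89 k93 1 (.s k169 k253 13 (.s k9 k249 11 (.s k13 k5 1 (.d k241 k161 k165 11 13))))),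
  (.s k3 k2 0 (.s k161 k241 11 (.s k82 k240 12 (.s k83 k80 0 (.d k243 k163 k162 11 12))))), (.s k3
  k2 0 (.s k89 k93 1 (.s k169 k253 13 (.s k86 k252 14 (.s k83 k92 2 (.d k243 k163 k162 11 12))))))]
  .n)

def s7_170_114 : T TT 256 :=
  (.q k1 [(.s k3 k2 0 (.s k161 k241 11 (.s k162 k243 12 (.s k160 k163 0 (.d k240 k80 k82 11 12))))),
  (.s k89 k93 1 (.s k169 k253 13 (.s k9 k249 11 (.s k13 k5 1 (.d k241 k161 k165 11 13))))), (.s k3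
  k2 0 (.s k89 k93 1 (.s k169 k253 13 (.s k86 k252 14 (.s k83 k92 2 (.d k243 k163 k162 11 12))))))]
  .n)

def s7_170_115 : T TT 256 :=
  (.q k1 [(.s k3 k2 0 (.s k161 k241 11 (.s k82 k240 12 (.s k83 k80 0 (.d k243 k163 k162 11 12))))),
  (.s k89 k93 1 (.s k169 k253 13 (.s k9 k249 11 (.s k13 k5 1 (.d k241 k161 k165 11 13))))), (.s k3
  k2 0 (.s k89 k93 1 (.s k169 k253 13 (.s k86 k252 14 (.s k83 k92 2 (.d k243 k163 k162 11 12))))))]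
  .n)

def s7_170_116 : T TT 256 :=
  (.q k1 [(.s k3 k2 0 (.s k161 k241 11 (.s k82 k240 12 (.s k83 k80 0 (.d k243 k163 k162 11 12))))),
  (.s k89 k93 1 (.s k169 k253 13 (.s k9 k249 11 (.s k13 k5 1 (.d k241 k161 k165 11 13))))), (.s k3
  k2 0 (.s k89 k93 1 (.s k169 k253 13 (.s k86 k252 14 (.s k83 k92 2 (.d k243 k163 k162 11 12))))))]
  .n)

def s7_170_117 : T TT 256 :=
  (.q k1 [(.s k3 k2 0 (.s k161 k241 11 (.s k82 k240 12 (.s k83 k80 0 (.d k243 k163 k162 11 12))))),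
  (.s k89 k93 1 (.s k169 k253 13 (.s k9 k249 11 (.s k13 k5 1 (.d k241 k161 k165 11 13))))), (.s k3
  k2 0 (.s k89 k93 1 (.s k169 k253 13 (.s k86 k252 14 (.s k83 k92 2 (.d k243 k163 k162 11 12))))))]
  .n)

def s7_170_118 : T TT 256 :=
  (.q k1 [(.s k3 k2 0 (.s k161 k241 11 (.s k82 k240 12 (.s k83 k80 0 (.d k243 k163 k162 11 12))))),
  (.s k89 k93 1 (.s k169 k253 13 (.s k9 k249 11 (.s k13 k5 1 (.d k241 k161 k165 11 13))))), (.s k3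
  k2 0 (.s k89 k93 1 (.s k169 k253 13 (.s k86 k252 14 (.s k83 k92 2 (.d k243 k163 k162 11 12))))))]
  .n)

def s7_170_119 : T TT 256 :=
  (.q k1 [(.s k3 k2 0 (.s k161 k241 11 (.s k82 k240 12 (.s k83 k80 0 (.d k243 k163 k162 11 12))))),
  (.s k89 k93 1 (.s k169 k253 13 (.s k9 k249 11 (.s k13 k5 1 (.d k241 k161 k165 11 13))))), (.s k3
  k2 0 (.s k89 k93 1 (.s k169 k253 13 (.s k86 k252 14 (.s k83 k92 2 (.d k243 k163 k162 11 12))))))]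
  .n)

def s7_170_120 : T TT 256 :=
  (.q k1 [(.s k3 k2 0 (.s k161 k241 11 (.s k162 k243 12 (.s k160 k163 0 (.d k240 k80 k82 11 12))))),
  (.s k89 k93 1 (.s k169 k253 13 (.s k9 k249 11 (.s k13 k5 1 (.d k241 k161 k165 11 13))))), (.s k3
  k2 0 (.s k89 k93 1 (.s k169 k253 13 (.s k86 k252 14 (.s k83 k92 2 (.d k243 k163 k162 11 12))))))]
  .n)

def s7_170_121 : T TT 256 :=
  (.q k1 [(.s k3 k2 0 (.s k161 k241 11 (.s k82 k240 12 (.s k83 k80 0 (.d k243 k163 k162 11 12))))),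
  (.s k89 k93 1 (.s k169 k253 13 (.s k9 k249 11 (.s k13 k5 1 (.d k241 k161 k165 11 13))))), (.s k3
  k2 0 (.s k89 k93 1 (.s k169 k253 13 (.s k86 k252 14 (.s k83 k92 2 (.d k243 k163 k162 11 12))))))]
  .n)

def s7_170_122 : T TT 256 :=
  (.q k1 [(.s k3 k2 0 (.s k161 k241 11 (.s k162 k243 12 (.s k160 k163 0 (.d k240 k80 k82 11 12))))),
  (.s k89 k93 1 (.s k169 k253 13 (.s k9 k249 11 (.s k13 k5 1 (.d k241 k161 k165 11 13))))), (.s k3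
  k2 0 (.s k89 k93 1 (.s k169 k253 13 (.s k86 k252 14 (.s k83 k92 2 (.d k243 k163 k162 11 12))))))]
  .n)

def s7_170_123 : T TT 256 :=
  (.q k1 [(.s k3 k2 0 (.s k161 k241 11 (.s k82 k240 12 (.s k83 k80 0 (.d k243 k163 k162 11 12))))),
  (.s k89 k93 1 (.s k169 k253 13 (.s k9 k249 11 (.s k13 k5 1 (.d k241 k161 k165 11 13))))), (.s k3
  k2 0 (.s k89 k93 1 (.s k169 k253 13 (.s k86 k252 14 (.s k83 k92 2 (.d k243 k163 k162 11 12))))))]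
  .n)

def s7_170_124 : T TT 256 :=
  (.q k1 [(.s k3 k2 0 (.s k161 k241 11 (.s k82 k240 12 (.s k83 k80 0 (.d k243 k163 k162 11 12))))),
  (.s k89 k93 1 (.s k169 k253 13 (.s k9 k249 11 (.s k13 k5 1 (.d k241 k161 k165 11 13))))), (.s k3
  k2 0 (.s k89 k93 1 (.s k169 k253 13 (.s k86 k252 14 (.s k83 k92 2 (.d k243 k163 k162 11 12))))))]
  .n)

def s7_170_125 : T TT 256 :=
  (.q k1 [(.s k3 k2 0 (.s k161 k241 11 (.s k82 k240 12 (.s k83 k80 0 (.d k243 k163 k162 11 12))))),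
  (.s k89 k93 1 (.s k169 k253 13 (.s k9 k249 11 (.s k13 k5 1 (.d k241 k161 k165 11 13))))), (.s k3
  k2 0 (.s k89 k93 1 (.s k169 k253 13 (.s k86 k252 14 (.s k83 k92 2 (.d k243 k163 k162 11 12))))))]
  .n)

def s7_170_126 : T TT 256 :=
  (.q k1 [(.s k3 k2 0 (.s k161 k241 11 (.s k82 k240 12 (.s k83 k80 0 (.d k243 k163 k162 11 12))))),
  (.s k89 k93 1 (.s k169 k253 13 (.s k9 k249 11 (.s k13 k5 1 (.d k241 k161 k165 11 13))))), (.s k3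
  k2 0 (.s k89 k93 1 (.s k169 k253 13 (.s k86 k252 14 (.s k83 k92 2 (.d k243 k163 k162 11 12))))))]
  .n)

def s7_170_127 : T TT 256 :=
  (.q k1 [(.s k3 k2 0 (.s k161 k241 11 (.s k82 k240 12 (.s k83 k80 0 (.d k243 k163 k162 11 12))))),
  (.s k89 k93 1 (.s k169 k253 13 (.s k9 k249 11 (.s k13 k5 1 (.d k241 k161 k165 11 13))))), (.s k3
  k2 0 (.s k89 k93 1 (.s k169 k253 13 (.s k86 k252 14 (.s k83 k92 2 (.d k243 k163 k162 11 12))))))]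
  .n)

def s7_170_128 : T TT 256 :=
  (.f k89 k93 1 (.q k149 [(.s k213 k21 7 (.s k209 k29 9 (.s k221 k217 1 (.d k17 k145 k153 7 9)))),
  (.s k21 k213 7 (.s k63 k42 6 (.s k106 k192 14 (.s k123 k72 4 (.d k243 k183 k162 9 12))))), (.s
  k209 k29 9 (.s k243 k162 12 (.s k166 k12 14 (.s k183 k132 4 (.s k63 k123 9 (.d k192 k226 k106 4
  14))))))] .n))

def s7_170_129 : T TT 256 :=
  (.q k1 [(.s k3 k2 0 (.s k161 k241 11 (.s k82 k240 12 (.s k83 k80 0 (.d k243 k163 k162 11 12))))),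
  (.s k89 k93 1 (.s k169 k253 13 (.s k9 k249 11 (.s k13 k5 1 (.d k241 k161 k165 11 13))))), (.s k3
  k2 0 (.s k89 k93 1 (.s k169 k253 13 (.s k86 k252 14 (.s k83 k92 2 (.d k243 k163 k162 11 12))))))]
  .n)

def s7_170_130 : T TT 256 :=
  (.f k89 k93 1 (.q k150 [(.s k215 k20 8 (.s k211 k28 10 (.s k223 k219 1 (.d k16 k146 k154 8 10)))),
  (.s k20 k215 8 (.s k60 k40 5 (.s k105 k195 14 (.s k121 k73 3 (.d k243 k182 k162 10 12))))), (.s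
  k211 k28 10 (.s k243 k162 12 (.s k166 k12 14 (.s k182 k134 3 (.s k60 k121 10 (.d k195 k227 k105 3
  14))))))] .n))

def s7_170_131 : T TT 256 :=
  (.q k1 [(.s k3 k2 0 (.s k161 k241 11 (.s k82 k240 12 (.s k83 k80 0 (.d k243 k163 k162 11 12))))),
  (.s k89 k93 1 (.s k169 k253 13 (.s k9 k249 11 (.s k13 k5 1 (.d k241 k161 k165 11 13))))), (.s k3
  k2 0 (.s k89 k93 1 (.s k169 k253 13 (.s k86 k252 14 (.s k83 k92 2 (.d k243 k163 k162 11 12))))))]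
  .n)

def s7_170_132 : T TT 256 :=
  (.q k1 [(.s k3 k2 0 (.s k161 k241 11 (.s k82 k240 12 (.s k83 k80 0 (.d k243 k163 k162 11 12))))),
  (.s k89 k93 1 (.s k169 k253 13 (.s k9 k249 11 (.s k13 k5 1 (.d k241 k161 k165 11 13))))), (.s k3
  k2 0 (.s k89 k93 1 (.s k169 k253 13 (.s k86 k252 14 (.s k83 k92 2 (.d k243 k163 k162 11 12))))))]
  .n)

def s7_170_133 : T TT 256 :=
  (.f k89 k93 1 (.f k162 k243 12 (.q k1 [(.s k161 k241 11 (.s k160 k163 0 (.s k240 k80 11 (.d k3 k2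
  k82 0 12)))), (.s k169 k253 13 (.s k9 k249 11 (.s k13 k5 1 (.d k241 k161 k165 11 13)))), (.s k3 k2
  0 (.s k169 k253 13 (.s k86 k252 14 (.s k83 k92 2 (.s k80 k82 0 (.s k87 k84 0 (.d k95 k91 k90 1
  2)))))))] (.c k70 (.q k196 [(.s k161 k241 11 (.s k160 k163 0 (.s k240 k80 11 (.d k3 k2 k82 0
  12)))), (.s k169 k253 13 (.s k9 k249 11 (.s k13 k5 1 (.d k241 k161 k165 11 13)))), (.s k3 k2 0 (.s
  k169 k253 13 (.s k86 k252 14 (.s k83 k92 2 (.s k80 k82 0 (.s k87 k84 0 (.d k95 k91 k90 1 2)))))))]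
  .n) (.c k196 (.q k70 [(.s k161 k241 11 (.s k160 k163 0 (.s k240 k80 11 (.d k3 k2 k82 0 12)))), (.s
  k169 k253 13 (.s k9 k249 11 (.s k13 k5 1 (.d k241 k161 k165 11 13)))), (.s k3 k2 0 (.s k137 k204
  10 (.s k69 k205 9 (.s k71 k68 0 (.d k207 k139 k138 9 10)))))] .n) .n)))))

def s7_170_134 : T TT 256 :=
  (.q k1 [(.s k3 k2 0 (.s k161 k241 11 (.s k82 k240 12 (.s k83 k80 0 (.d k243 k163 k162 11 12))))),
  (.s k89 k93 1 (.s k169 k253 13 (.s k9 k249 11 (.s k13 k5 1 (.d k241 k161 k165 11 13))))), (.s k3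
  k2 0 (.s k89 k93 1 (.s k169 k253 13 (.s k86 k252 14 (.s k83 k92 2 (.d k243 k163 k162 11 12))))))]
  .n)

def s7_170_135 : T TT 256 :=
  (.f k162 k243 12 (.f k89 k93 1 (.q k1 [(.s k161 k241 11 (.s k160 k163 0 (.s k240 k80 11 (.d k3 k2
  k82 0 12)))), (.s k169 k253 13 (.s k9 k249 11 (.s k13 k5 1 (.d k241 k161 k165 11 13)))), (.s k3 k2
  0 (.s k169 k253 13 (.s k86 k252 14 (.s k83 k92 2 (.s k80 k82 0 (.s k87 k84 0 (.d k95 k91 k90 1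
  2)))))))] (.c k71 (.q k199 [(.s k161 k241 11 (.s k160 k163 0 (.s k240 k80 11 (.d k3 k2 k82 0
  12)))), (.s k169 k253 13 (.s k9 k249 11 (.s k13 k5 1 (.d k241 k161 k165 11 13)))), (.s k3 k2 0 (.s
  k169 k253 13 (.s k86 k252 14 (.s k83 k92 2 (.s k80 k82 0 (.s k87 k84 0 (.d k95 k91 k90 1 2)))))))]
  .n) (.c k199 (.q k71 [(.s k161 k241 11 (.s k160 k163 0 (.s k240 k80 11 (.d k3 k2 k82 0 12)))), (.s
  k169 k253 13 (.s k9 k249 11 (.s k13 k5 1 (.d k241 k161 k165 11 13)))), (.s k3 k2 0 (.s k207 k139 9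
  (.s k69 k138 10 (.s k70 k68 0 (.d k137 k205 k204 9 10)))))] .n) .n)))))

def s7_170_136 : T TT 256 :=
  (.q k153 [(.s k17 k221 9 (.s k89 k93 1 (.s k25 k217 7 (.s k29 k21 1 (.d k209 k145 k149 7 9))))),
  (.s k89 k93 1 (.s k217 k25 7 (.s k243 k162 12 (.s k166 k12 14 (.s k179 k140 6 (.s k51 k115 7 (.d
  k204 k230 k102 6 14))))))), (.s k17 k221 9 (.s k51 k34 4 (.s k145 k209 7 (.s k98 k192 12 (.s k115
  k64 4 (.d k243 k179 k162 7 12))))))] (.c k217 (.l (.s k17 k221 9 (.s k51 k34 4 (.s k89 k93 1 (.s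
  k102 k204 14 (.s k115 k76 6 (.d k243 k179 k162 7 12))))))) .n))

def s7_170_137 : T TT 256 :=
  (.q k1 [(.s k3 k2 0 (.s k161 k241 11 (.s k82 k240 12 (.s k83 k80 0 (.d k243 k163 k162 11 12))))),
  (.s k89 k93 1 (.s k169 k253 13 (.s k9 k249 11 (.s k13 k5 1 (.d k241 k161 k165 11 13))))), (.s k3
  k2 0 (.s k89 k93 1 (.s k169 k253 13 (.s k86 k252 14 (.s k83 k92 2 (.d k243 k163 k162 11 12))))))]
  .n)

def s7_170_138 : T TT 256 :=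
  (.q k154 [(.s k16 k223 10 (.s k89 k93 1 (.s k24 k219 8 (.s k28 k20 1 (.d k211 k146 k150 8 10))))),
  (.s k89 k93 1 (.s k219 k24 8 (.s k243 k162 12 (.s k166 k12 14 (.s k178 k142 5 (.s k48 k113 8 (.d
  k207 k231 k101 5 14))))))), (.s k16 k223 10 (.s k48 k32 3 (.s k146 k211 8 (.s k97 k195 12 (.s k113
  k65 3 (.d k243 k178 k162 8 12))))))] (.c k219 (.l (.s k16 k223 10 (.s k48 k32 3 (.s k89 k93 1 (.s
  k101 k207 14 (.s k113 k77 5 (.d k243 k178 k162 8 12))))))) .n))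

def s7_170_139 : T TT 256 :=
  (.q k1 [(.s k3 k2 0 (.s k161 k241 11 (.s k82 k240 12 (.s k83 k80 0 (.d k243 k163 k162 11 12))))),
  (.s k89 k93 1 (.s k169 k253 13 (.s k9 k249 11 (.s k13 k5 1 (.d k241 k161 k165 11 13))))), (.s k3
  k2 0 (.s k89 k93 1 (.s k169 k253 13 (.s k86 k252 14 (.s k83 k92 2 (.d k243 k163 k162 11 12))))))]
  .n)

def s7_170_140 : T TT 256 :=
  (.q k1 [(.s k3 k2 0 (.s k161 k241 11 (.s k82 k240 12 (.s k83 k80 0 (.d k243 k163 k162 11 12))))),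
  (.s k89 k93 1 (.s k169 k253 13 (.s k9 k249 11 (.s k13 k5 1 (.d k241 k161 k165 11 13))))), (.s k3
  k2 0 (.s k89 k93 1 (.s k169 k253 13 (.s k86 k252 14 (.s k83 k92 2 (.d k243 k163 k162 11 12))))))]
  .n)

def s7_170_141 : T TT 256 :=
  (.q k1 [(.s k3 k2 0 (.s k161 k241 11 (.s k82 k240 12 (.s k83 k80 0 (.d k243 k163 k162 11 12))))),
  (.s k89 k93 1 (.s k169 k253 13 (.s k9 k249 11 (.s k13 k5 1 (.d k241 k161 k165 11 13))))), (.s k3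
  k2 0 (.s k89 k93 1 (.s k169 k253 13 (.s k86 k252 14 (.s k83 k92 2 (.d k243 k163 k162 11 12))))))]
  .n)

def s7_170_142 : T TT 256 :=
  (.q k1 [(.s k3 k2 0 (.s k161 k241 11 (.s k82 k240 12 (.s k83 k80 0 (.d k243 k163 k162 11 12))))),
  (.s k89 k93 1 (.s k169 k253 13 (.s k9 k249 11 (.s k13 k5 1 (.d k241 k161 k165 11 13))))), (.s k3
  k2 0 (.s k89 k93 1 (.s k169 k253 13 (.s k86 k252 14 (.s k83 k92 2 (.d k243 k163 k162 11 12))))))]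
  .n)

def s7_170_143 : T TT 256 :=
  (.q k1 [(.s k3 k2 0 (.s k161 k241 11 (.s k82 k240 12 (.s k83 k80 0 (.d k243 k163 k162 11 12))))),
  (.s k89 k93 1 (.s k169 k253 13 (.s k9 k249 11 (.s k13 k5 1 (.d k241 k161 k165 11 13))))), (.s k3
  k2 0 (.s k89 k93 1 (.s k169 k253 13 (.s k86 k252 14 (.s k83 k92 2 (.d k243 k163 k162 11 12))))))]
  .n)

def s7_170_144 : T TT 256 :=
  (.q k1 [(.s k3 k2 0 (.s k161 k241 11 (.s k162 k243 12 (.s k160 k163 0 (.d k240 k80 k82 11 12))))),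
  (.s k89 k93 1 (.s k169 k253 13 (.s k9 k249 11 (.s k13 k5 1 (.d k241 k161 k165 11 13))))), (.s k3
  k2 0 (.s k89 k93 1 (.s k169 k253 13 (.s k86 k252 14 (.s k83 k92 2 (.d k243 k163 k162 11 12))))))]
  .n)

def s7_170_145 : T TT 256 :=
  (.q k1 [(.s k3 k2 0 (.s k161 k241 11 (.s k82 k240 12 (.s k83 k80 0 (.d k243 k163 k162 11 12))))),
  (.s k89 k93 1 (.s k169 k253 13 (.s k9 k249 11 (.s k13 k5 1 (.d k241 k161 k165 11 13))))), (.s k3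
  k2 0 (.s k89 k93 1 (.s k169 k253 13 (.s k86 k252 14 (.s k83 k92 2 (.d k243 k163 k162 11 12))))))]
  .n)

def s7_170_146 : T TT 256 :=
  (.q k1 [(.s k3 k2 0 (.s k161 k241 11 (.s k82 k240 12 (.s k83 k80 0 (.d k243 k163 k162 11 12))))),
  (.s k89 k93 1 (.s k169 k253 13 (.s k9 k249 11 (.s k13 k5 1 (.d k241 k161 k165 11 13))))), (.s k3
  k2 0 (.s k89 k93 1 (.s k169 k253 13 (.s k86 k252 14 (.s k83 k92 2 (.d k243 k163 k162 11 12))))))]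
  .n)

def s7_170_147 : T TT 256 :=
  (.q k1 [(.s k3 k2 0 (.s k161 k241 11 (.s k82 k240 12 (.s k83 k80 0 (.d k243 k163 k162 11 12))))),
  (.s k89 k93 1 (.s k169 k253 13 (.s k9 k249 11 (.s k13 k5 1 (.d k241 k161 k165 11 13))))), (.s k3
  k2 0 (.s k89 k93 1 (.s k169 k253 13 (.s k86 k252 14 (.s k83 k92 2 (.d k243 k163 k162 11 12))))))]
  .n)

def s7_170_148 : T TT 256 :=
  (.q k1 [(.s k3 k2 0 (.s k161 k241 11 (.s k82 k240 12 (.s k83 k80 0 (.d k243 k163 k162 11 12))))),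
  (.s k89 k93 1 (.s k169 k253 13 (.s k9 k249 11 (.s k13 k5 1 (.d k241 k161 k165 11 13))))), (.s k3
  k2 0 (.s k89 k93 1 (.s k169 k253 13 (.s k86 k252 14 (.s k83 k92 2 (.d k243 k163 k162 11 12))))))]
  .n)

def s7_170_149 : T TT 256 :=
  (.f k89 k93 1 (.q k64 [(.s k115 k98 4 (.s k102 k76 6 (.s k119 k68 4 (.d k127 k123 k106 1 6)))),
  (.s k98 k115 4 (.s k162 k243 12 (.s k34 k226 7 (.s k51 k17 4 (.d k192 k128 k145 7 12))))), (.s
  k106 k127 6 (.s k243 k162 12 (.s k166 k12 14 (.s k226 k46 9 (.d k192 k128 k209 7 4)))))] (.c k128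
  (.q k191 [(.s k115 k98 4 (.s k102 k76 6 (.s k119 k68 4 (.d k127 k123 k106 1 6)))), (.s k127 k106 6
  (.s k243 k162 12 (.s k166 k12 14 (.s k247 k4 12 (.d k255 k63 k251 7 1)))))] (.c k106 (.l (.s k115
  k98 4 (.s k102 k76 6 (.s k68 k119 4 (.s k204 k136 9 (.s k243 k162 12 (.d k51 k179 k153 7 14)))))))
  (.c k127 (.l (.s k115 k98 4 (.s k76 k102 6 (.s k68 k72 1 (.s k204 k136 9 (.s k243 k162 12 (.d k12
  k140 k166 7 14))))))) .n))) (.c k191 (.l (.s k128 k192 7 (.s k106 k127 6 (.s k72 k123 4 (.s k76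
  k68 1 (.d k115 k98 k102 4 6)))))) .n))))

def s7_170_150 : T TT 256 :=
  (.f k89 k93 1 (.q k65 [(.s k113 k97 3 (.s k101 k77 5 (.s k117 k69 3 (.d k125 k121 k105 1 5)))),
  (.s k97 k113 3 (.s k162 k243 12 (.s k32 k227 8 (.s k48 k16 3 (.d k195 k130 k146 8 12))))), (.s
  k105 k125 5 (.s k243 k162 12 (.s k166 k12 14 (.s k227 k44 10 (.d k195 k130 k211 8 3)))))] (.c k130
  (.q k190 [(.s k113 k97 3 (.s k101 k77 5 (.s k117 k69 3 (.d k125 k121 k105 1 5)))), (.s k125 k105 5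
  (.s k243 k162 12 (.s k166 k12 14 (.s k247 k4 12 (.d k255 k60 k251 8 1)))))] (.c k105 (.l (.s k113
  k97 3 (.s k101 k77 5 (.s k69 k117 3 (.s k207 k138 10 (.s k243 k162 12 (.d k48 k178 k154 8
  14))))))) (.c k125 (.l (.s k113 k97 3 (.s k77 k101 5 (.s k69 k73 1 (.s k207 k138 10 (.s k243 k162
  12 (.d k12 k142 k166 8 14))))))) .n))) (.c k190 (.l (.s k130 k195 8 (.s k105 k125 5 (.s k73 k121 3
  (.s k77 k69 1 (.d k113 k97 k101 3 5)))))) .n))))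

def s7_170_151 : T TT 256 :=
  (.q k1 [(.s k3 k2 0 (.s k161 k241 11 (.s k82 k240 12 (.s k83 k80 0 (.d k243 k163 k162 11 12))))),
  (.s k89 k93 1 (.s k169 k253 13 (.s k9 k249 11 (.s k13 k5 1 (.d k241 k161 k165 11 13))))), (.s k3
  k2 0 (.s k89 k93 1 (.s k169 k253 13 (.s k86 k252 14 (.s k83 k92 2 (.d k243 k163 k162 11 12))))))]
  .n)

def s7_170_152 : T TT 256 :=
  (.q k1 [(.s k3 k2 0 (.s k161 k241 11 (.s k82 k240 12 (.s k83 k80 0 (.d k243 k163 k162 11 12))))),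
  (.s k89 k93 1 (.s k169 k253 13 (.s k9 k249 11 (.s k13 k5 1 (.d k241 k161 k165 11 13))))), (.s k3
  k2 0 (.s k89 k93 1 (.s k169 k253 13 (.s k86 k252 14 (.s k83 k92 2 (.d k243 k163 k162 11 12))))))]
  .n)

def s7_170_153 : T TT 256 :=
  (.f k162 k243 12 (.f k89 k93 1 (.q k80 [(.s k83 k82 0 (.s k86 k92 2 (.s k87 k84 0 (.d k95 k91 k90
  1 2)))), (.s k82 k83 0 (.s k2 k242 11 (.s k3 k1 0 (.d k240 k160 k161 11 12)))), (.s k90 k95 2 (.s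
  k240 k160 11 (.s k165 k15 14 (.s k241 k13 13 (.s k1 k161 11 (.s k245 k5 11 (.d k253 k249 k169 1
  13)))))))] (.c k136 (.q k187 [(.s k83 k82 0 (.s k86 k92 2 (.s k87 k84 0 (.d k95 k91 k90 1 2)))),
  (.s k82 k83 0 (.s k2 k242 11 (.s k3 k1 0 (.d k240 k160 k161 11 12)))), (.s k90 k95 2 (.s k240 k160
  11 (.s k165 k15 14 (.s k241 k13 13 (.s k1 k161 11 (.s k245 k5 11 (.d k253 k249 k169 1 13)))))))]
  .n) (.c k187 (.q k136 [(.s k83 k82 0 (.s k86 k92 2 (.s k87 k84 0 (.d k95 k91 k90 1 2)))), (.s k82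
  k83 0 (.s k2 k242 11 (.s k3 k1 0 (.d k240 k160 k161 11 12)))), (.s k68 k204 9 (.s k90 k95 2 (.s
  k102 k119 4 (.s k76 k115 6 (.s k64 k72 1 (.s k112 k96 3 (.d k88 k91 k100 0 5)))))))] .n) .n)))))

def s7_170_154 : T TT 256 :=
  (.f k162 k243 12 (.f k89 k93 1 (.q k1 [(.s k161 k241 11 (.s k160 k163 0 (.s k240 k80 11 (.d k3 k2
  k82 0 12)))), (.s k169 k253 13 (.s k9 k249 11 (.s k13 k5 1 (.d k241 k161 k165 11 13)))), (.s k3 k2
  0 (.s k169 k253 13 (.s k86 k252 14 (.s k83 k92 2 (.s k80 k82 0 (.s k87 k84 0 (.d k95 k91 k90 1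
  2)))))))] (.c k138 (.q k186 [(.s k161 k241 11 (.s k160 k163 0 (.s k240 k80 11 (.d k3 k2 k82 0
  12)))), (.s k169 k253 13 (.s k9 k249 11 (.s k13 k5 1 (.d k241 k161 k165 11 13)))), (.s k3 k2 0 (.s
  k169 k253 13 (.s k86 k252 14 (.s k83 k92 2 (.s k80 k82 0 (.s k87 k84 0 (.d k95 k91 k90 1 2)))))))]
  .n) (.c k186 (.q k138 [(.s k161 k241 11 (.s k160 k163 0 (.s k240 k80 11 (.d k3 k2 k82 0 12)))),
  (.s k169 k253 13 (.s k9 k249 11 (.s k13 k5 1 (.d k241 k161 k165 11 13)))), (.s k3 k2 0 (.s k69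
  k207 10 (.s k137 k205 9 (.s k136 k139 0 (.d k204 k68 k70 9 10)))))] .n) .n)))))

def s7_170_155 : T TT 256 :=
  (.q k1 [(.s k3 k2 0 (.s k161 k241 11 (.s k82 k240 12 (.s k83 k80 0 (.d k243 k163 k162 11 12))))),
  (.s k89 k93 1 (.s k169 k253 13 (.s k9 k249 11 (.s k13 k5 1 (.d k241 k161 k165 11 13))))), (.s k3
  k2 0 (.s k89 k93 1 (.s k169 k253 13 (.s k86 k252 14 (.s k83 k92 2 (.d k243 k163 k162 11 12))))))]
  .n)

def s7_170_156 : T TT 256 :=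
  (.q k1 [(.s k3 k2 0 (.s k161 k241 11 (.s k82 k240 12 (.s k83 k80 0 (.d k243 k163 k162 11 12))))),
  (.s k89 k93 1 (.s k169 k253 13 (.s k9 k249 11 (.s k13 k5 1 (.d k241 k161 k165 11 13))))), (.s k3
  k2 0 (.s k89 k93 1 (.s k169 k253 13 (.s k86 k252 14 (.s k83 k92 2 (.d k243 k163 k162 11 12))))))]
  .n)

def s7_170_157 : T TT 256 :=
  (.q k1 [(.s k3 k2 0 (.s k161 k241 11 (.s k82 k240 12 (.s k83 k80 0 (.d k243 k163 k162 11 12))))),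
  (.s k89 k93 1 (.s k169 k253 13 (.s k9 k249 11 (.s k13 k5 1 (.d k241 k161 k165 11 13))))), (.s k3
  k2 0 (.s k89 k93 1 (.s k169 k253 13 (.s k86 k252 14 (.s k83 k92 2 (.d k243 k163 k162 11 12))))))]
  .n)

def s7_170_158 : T TT 256 :=
  (.q k1 [(.s k3 k2 0 (.s k161 k241 11 (.s k82 k240 12 (.s k83 k80 0 (.d k243 k163 k162 11 12))))),
  (.s k89 k93 1 (.s k169 k253 13 (.s k9 k249 11 (.s k13 k5 1 (.d k241 k161 k165 11 13))))), (.s k3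
  k2 0 (.s k89 k93 1 (.s k169 k253 13 (.s k86 k252 14 (.s k83 k92 2 (.d k243 k163 k162 11 12))))))]
  .n)

def s7_170_159 : T TT 256 :=
  (.q k1 [(.s k3 k2 0 (.s k161 k241 11 (.s k82 k240 12 (.s k83 k80 0 (.d k243 k163 k162 11 12))))),
  (.s k89 k93 1 (.s k169 k253 13 (.s k9 k249 11 (.s k13 k5 1 (.d k241 k161 k165 11 13))))), (.s k3
  k2 0 (.s k89 k93 1 (.s k169 k253 13 (.s k86 k252 14 (.s k83 k92 2 (.d k243 k163 k162 11 12))))))]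
  .n)

def s7_170_160 : T TT 256 :=
  (.f k89 k93 1 (.q k165 [(.s k241 k13 13 (.s k245 k5 11 (.s k253 k249 1 (.d k1 k161 k169 11 13)))),
  (.s k5 k245 11 (.s k15 k10 2 (.s k90 k240 14 (.s k91 k88 0 (.d k243 k162 k167 12 13))))), (.s k241
  k13 13 (.s k243 k162 12 (.s k166 k12 14 (.s k167 k164 0 (.s k15 k91 13 (.d k240 k242 k90 0
  14))))))] .n))

def s7_170_161 : T TT 256 :=
  (.q k16 [(.s k89 k93 1 (.s k154 k223 10 (.s k24 k219 8 (.s k28 k20 1 (.d k211 k146 k150 8 10))))),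
  (.s k48 k32 3 (.s k146 k211 8 (.s k97 k195 12 (.s k113 k65 3 (.d k243 k178 k162 8 12))))), (.s k48
  k32 3 (.s k89 k93 1 (.s k154 k223 10 (.s k101 k207 14 (.s k113 k77 5 (.d k243 k178 k162 8
  12))))))] .n)

def s7_170_162 : T TT 256 :=
  (.f k89 k93 1 (.q k1 [(.s k169 k253 13 (.s k9 k249 11 (.s k13 k5 1 (.d k241 k161 k165 11 13)))),
  (.s k3 k2 0 (.s k161 k241 11 (.s k82 k240 12 (.s k83 k80 0 (.s k86 k92 2 (.s k84 k87 0 (.d k252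
  k168 k169 13 14))))))), (.s k3 k2 0 (.s k169 k253 13 (.s k86 k252 14 (.s k83 k92 2 (.s k87 k84 0
  (.s k95 k91 1 (.d k80 k82 k90 0 2)))))))] (.c k166 (.q k174 [(.s k169 k253 13 (.s k9 k249 11 (.s
  k13 k5 1 (.d k241 k161 k165 11 13)))), (.s k3 k2 0 (.s k161 k241 11 (.s k82 k240 12 (.s k83 k80 0
  (.s k86 k92 2 (.s k84 k87 0 (.d k252 k168 k169 13 14))))))), (.s k3 k2 0 (.s k169 k253 13 (.s k86
  k252 14 (.s k83 k92 2 (.s k87 k84 0 (.s k95 k91 1 (.d k80 k82 k90 0 2)))))))] (.c k169 (.f k241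
  k161 11 (.f k165 k13 13 (.l (.s k5 k245 11 (.s k15 k10 2 (.s k90 k240 14 (.s k80 k95 2 (.s k88 k91
  0 (.s k92 k84 1 (.d k83 k82 k86 0 2)))))))))) .n)) (.c k169 (.f k3 k2 0 (.f k241 k161 11 (.f k165
  k13 13 (.l (.s k5 k245 11 (.s k15 k10 2 (.s k90 k240 14 (.s k80 k95 2 (.s k88 k91 0 (.s k92 k84 1
  (.d k83 k82 k86 0 2))))))))))) (.c k174 (.q k166 [(.s k12 k243 14 (.d k4 k8 k247 1 12)), (.s k3 k2
  0 (.s k12 k243 14 (.s k169 k253 13 (.d k9 k6 k249 2 11))))] (.c k12 (.q k255 [(.s k3 k2 0 (.s k87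
  k171 13 (.s k86 k84 0 (.d k169 k253 k252 13 14)))), (.s k169 k253 13 (.s k9 k249 11 (.s k13 k5 1
  (.d k241 k161 k165 11 13)))), (.s k3 k2 0 (.s k161 k241 11 (.s k82 k240 12 (.s k83 k80 0 (.s k86
  k92 2 (.d k87 k84 k171 0 13))))))] .n) (.c k243 (.l (.s k169 k253 13 (.s k9 k249 11 (.s k13 k5 1
  (.d k241 k161 k165 11 13))))) (.c k255 (.l (.s k12 k243 14 (.d k4 k247 k8 12 1))) .n)))) .n)))))

def s7_170_163 : T TT 256 :=
  (.q k16 [(.s k89 k93 1 (.s k154 k223 10 (.s k24 k219 8 (.s k28 k20 1 (.d k211 k146 k150 8 10))))),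
  (.s k48 k32 3 (.s k146 k211 8 (.s k97 k195 12 (.s k113 k65 3 (.d k243 k178 k162 8 12))))), (.s k48
  k32 3 (.s k89 k93 1 (.s k154 k223 10 (.s k101 k207 14 (.s k113 k77 5 (.d k243 k178 k162 8
  12))))))] .n)

def s7_170_164 : T TT 256 :=
  (.q k1 [(.s k3 k2 0 (.s k161 k241 11 (.s k162 k243 12 (.s k160 k163 0 (.d k240 k80 k82 11 12))))),
  (.s k89 k93 1 (.s k169 k253 13 (.s k9 k249 11 (.s k13 k5 1 (.d k241 k161 k165 11 13))))), (.s k3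
  k2 0 (.s k89 k93 1 (.s k169 k253 13 (.s k86 k252 14 (.s k83 k92 2 (.d k243 k163 k162 11 12))))))]
  .n)

def s7_170_165 : T TT 256 :=
  (.f k89 k93 1 (.q k86 [(.s k83 k92 2 (.s k80 k82 0 (.s k87 k84 0 (.d k95 k91 k90 1 2)))), (.s k84
  k87 0 (.s k243 k162 12 (.s k166 k12 14 (.s k246 k6 11 (.d k252 k249 k168 2 13))))), (.s k83 k92 2
  (.s k243 k162 12 (.s k3 k163 11 (.s k1 k2 0 (.d k169 k253 k252 13 14)))))] (.c k160 (.q k175 [(.s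
  k83 k92 2 (.s k80 k82 0 (.s k87 k84 0 (.d k95 k91 k90 1 2)))), (.s k84 k87 0 (.s k243 k162 12 (.s
  k166 k12 14 (.s k246 k6 11 (.d k252 k249 k168 2 13)))))] (.c k84 (.l (.s k83 k92 2 (.s k80 k82 0
  (.s k95 k90 2 (.s k15 k255 11 (.s k91 k87 1 (.d k243 k167 k162 13 12))))))) (.c k87 (.l (.s k83
  k92 2 (.s k82 k80 0 (.s k243 k162 12 (.s k3 k163 11 (.s k161 k240 12 (.d k1 k2 k241 0 11)))))))
  .n))) (.c k175 (.q k160 [(.s k80 k240 11 (.d k83 k82 k92 0 2)), (.s k83 k92 2 (.s k84 k87 0 (.s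
  k243 k162 12 (.s k3 k163 11 (.d k252 k168 k169 13 14)))))] (.c k83 (.l (.s k80 k240 11 (.s k84 k87
  0 (.s k88 k92 1 (.d k90 k91 k95 0 2))))) (.c k92 (.l (.s k80 k240 11 (.s k82 k83 0 (.d k90 k94 k95
  1 2)))) .n))) .n))))

def s7_170_166 : T TT 256 :=
  (.q k1 [(.s k3 k2 0 (.s k161 k241 11 (.s k82 k240 12 (.s k83 k80 0 (.d k243 k162 k163 12 11))))),
  (.s k89 k93 1 (.s k169 k253 13 (.s k9 k249 11 (.s k13 k5 1 (.d k241 k161 k165 11 13))))), (.s k3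
  k2 0 (.s k89 k93 1 (.s k169 k253 13 (.s k86 k252 14 (.s k83 k92 2 (.d k243 k162 k163 12 11))))))]
  (.c k162 (.q k174 [(.s k89 k93 1 (.s k169 k253 13 (.s k9 k249 11 (.s k13 k5 1 (.d k241 k161 k165
  11 13))))), (.s k3 k2 0 (.s k93 k89 1 (.s k169 k253 13 (.s k86 k252 14 (.s k87 k84 0 (.d k255 k12
  k171 12 13)))))), (.s k3 k2 0 (.s k161 k241 11 (.s k82 k240 12 (.s k80 k83 0 (.s k90 k95 2 (.s
  k169 k253 13 (.d k86 k94 k252 1 14))))))), (.s k3 k2 0 (.s k93 k89 1 (.s k12 k255 12 (.s k8 k4 1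
  (.s k9 k6 2 (.s k5 k13 1 (.d k10 k11 k15 0 2)))))))] .n) (.c k174 (.l (.s k162 k243 12 (.s k3 k2 0
  (.s k161 k241 11 (.s k160 k163 0 (.d k240 k80 k82 11 12)))))) .n)))

def s7_170_167 : T TT 256 :=
  (.f k89 k93 1 (.q k86 [(.s k83 k92 2 (.s k80 k82 0 (.s k87 k84 0 (.d k95 k91 k90 1 2)))), (.s k243
  k162 12 (.s k166 k12 14 (.s k246 k6 11 (.s k252 k249 2 (.d k84 k87 k168 0 13)))))] (.c k84 (.l (.s
  k83 k92 2 (.s k243 k162 12 (.s k3 k163 11 (.s k1 k2 0 (.d k169 k253 k252 13 14)))))) (.c k87 (.q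
  k247 [(.s k243 k162 12 (.d k166 k4 k12 12 14)), (.s k83 k92 2 (.s k243 k162 12 (.s k3 k163 11 (.s
  k1 k2 0 (.d k169 k253 k252 13 14)))))] (.c k162 (.l (.s k83 k92 2 (.s k166 k4 12 (.s k243 k12 14
  (.s k3 k163 11 (.s k1 k2 0 (.d k169 k252 k253 14 13))))))) (.c k166 (.f k83 k92 2 (.f k82 k80 0
  (.l (.s k162 k243 12 (.s k2 k242 11 (.s k1 k3 0 (.s k169 k253 13 (.s k9 k249 11 (.s k13 k5 1 (.d
  k241 k161 k165 11 13)))))))))) (.c k174 (.l (.s k166 k4 12 (.d k243 k162 k12 12 14))) (.c k243 (.l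
  (.s k4 k166 12 (.s k12 k8 1 (.s k92 k83 2 (.s k252 k172 11 (.s k84 k168 13 (.s k88 k80 1 (.d k164
  k244 k240 11 13)))))))) .n))))) (.c k247 (.l (.s k87 k84 0 (.s k83 k92 2 (.s k80 k82 0 (.d k95 k91
  k90 1 2))))) .n)))))

def s7_170_168 : T TT 256 :=
  (.q k169 [(.s k1 k253 13 (.s k89 k93 1 (.s k9 k249 11 (.s k241 k161 11 (.d k13 k5 k165 1 13))))),
  (.s k89 k93 1 (.s k243 k162 12 (.s k166 k12 14 (.s k163 k172 2 (.s k3 k83 11 (.s k249 k9 11 (.d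
  k252 k246 k86 2 14))))))), (.s k1 k253 13 (.s k3 k2 0 (.s k161 k241 11 (.s k82 k240 12 (.s k83 k80
  0 (.d k243 k163 k162 11 12))))))] (.c k249 (.l (.s k1 k253 13 (.s k3 k2 0 (.s k86 k252 14 (.s k89
  k93 1 (.s k83 k92 2 (.d k243 k163 k162 11 12))))))) .n))

def s7_170_169 : T TT 256 :=
  (.f k89 k93 1 (.f k162 k243 12 (.q k16 [(.s k146 k211 8 (.s k130 k178 3 (.s k195 k65 8 (.d k48 k32
  k97 3 12)))), (.s k154 k223 10 (.s k24 k219 8 (.s k28 k20 1 (.d k211 k146 k150 8 10)))), (.s k48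
  k32 3 (.s k154 k223 10 (.s k101 k207 14 (.s k113 k77 5 (.s k65 k97 3 (.s k117 k69 3 (.d k125 k121
  k105 1 5)))))))] (.c k168 (.q k171 [(.s k146 k211 8 (.s k130 k178 3 (.s k195 k65 8 (.d k48 k32 k97
  3 12)))), (.s k154 k223 10 (.s k24 k219 8 (.s k28 k20 1 (.d k211 k146 k150 8 10)))), (.s k48 k32 3
  (.s k154 k223 10 (.s k101 k207 14 (.s k113 k77 5 (.s k65 k97 3 (.s k117 k69 3 (.d k125 k121 k105 1
  5)))))))] .n) (.c k171 (.q k168 [(.s k146 k211 8 (.s k130 k178 3 (.s k195 k65 8 (.d k48 k32 k97 3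
  12)))), (.s k154 k223 10 (.s k24 k219 8 (.s k28 k20 1 (.d k211 k146 k150 8 10)))), (.s k48 k32 3
  (.s k84 k252 13 (.s k152 k220 9 (.s k136 k184 3 (.d k204 k68 k100 9 13)))))] .n) .n)))))

def s7_170_171 : T TT 256 :=
  (.q k169 [(.s k1 k253 13 (.s k89 k93 1 (.s k9 k249 11 (.s k241 k161 11 (.d k13 k5 k165 1 13))))),
  (.s k89 k93 1 (.s k243 k162 12 (.s k249 k9 11 (.s k252 k246 2 (.s k84 k168 13 (.d k86 k87 k3 0
  14)))))), (.s k1 k253 13 (.s k3 k2 0 (.s k161 k241 11 (.s k82 k240 12 (.s k83 k80 0 (.d k243 k163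
  k162 11 12))))))] (.c k249 (.l (.s k1 k253 13 (.s k3 k2 0 (.s k86 k252 14 (.s k89 k93 1 (.s k83
  k92 2 (.d k243 k163 k162 11 12))))))) .n))

def s7_170_172 : T TT 256 :=
  (.q k1 [(.s k3 k2 0 (.s k161 k241 11 (.s k82 k240 12 (.s k83 k80 0 (.d k243 k163 k162 11 12))))),
  (.s k89 k93 1 (.s k169 k253 13 (.s k9 k249 11 (.s k13 k5 1 (.d k241 k161 k165 11 13))))), (.s k3
  k2 0 (.s k89 k93 1 (.s k169 k253 13 (.s k86 k252 14 (.s k243 k162 12 (.d k83 k92 k163 2 11))))))]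
  .n)

def s7_170_173 : T TT 256 :=
  (.q k1 [(.s k89 k93 1 (.s k241 k161 11 (.s k165 k13 13 (.s k253 k169 13 (.d k245 k249 k5 1
  11))))), (.s k3 k2 0 (.s k161 k241 11 (.s k82 k240 12 (.s k83 k80 0 (.d k243 k163 k162 11 12))))),
  (.s k3 k2 0 (.s k89 k93 1 (.s k243 k162 12 (.s k163 k83 11 (.s k166 k12 14 (.d k169 k253 k172 13
  2))))))] .n)

def s7_170_174 : T TT 256 :=
  (.q k1 [(.s k3 k2 0 (.s k161 k241 11 (.s k82 k240 12 (.s k83 k80 0 (.d k243 k162 k163 12 11))))),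
  (.s k89 k93 1 (.s k169 k253 13 (.s k9 k249 11 (.s k13 k5 1 (.d k241 k161 k165 11 13))))), (.s k3
  k2 0 (.s k89 k93 1 (.s k169 k253 13 (.s k86 k252 14 (.s k83 k92 2 (.d k243 k162 k163 12 11))))))]
  (.c k162 (.q k166 [(.s k89 k93 1 (.s k12 k243 14 (.d k4 k8 k247 1 12))), (.s k241 k161 11 (.s k253
  k169 13 (.s k245 k249 1 (.s k165 k5 11 (.d k89 k93 k13 1 13))))), (.s k3 k2 0 (.s k4 k247 12 (.s
  k169 k253 13 (.s k86 k252 14 (.s k6 k246 11 (.d k12 k8 k9 1 2))))))] (.c k4 (.l (.s k3 k2 0 (.s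
  k89 k93 1 (.s k12 k243 14 (.s k169 k253 13 (.d k9 k6 k249 2 11)))))) .n)) (.c k166 (.l (.s k162
  k243 12 (.s k3 k2 0 (.s k161 k241 11 (.s k160 k163 0 (.d k240 k80 k82 11 12)))))) .n)))

def s7_170_175 : T TT 256 :=
  (.q k80 [(.s k82 k83 0 (.s k162 k243 12 (.s k2 k242 11 (.s k3 k1 0 (.d k240 k160 k161 11 12))))),
  (.s k83 k82 0 (.s k89 k93 1 (.s k86 k92 2 (.s k87 k84 0 (.d k95 k91 k90 1 2))))), (.s k89 k93 1
  (.s k90 k95 2 (.s k91 k88 0 (.s k243 k162 12 (.s k15 k167 13 (.d k240 k160 k165 11 14))))))] (.c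
  k160 (.q k165 [(.s k5 k245 11 (.s k15 k10 2 (.d k90 k95 k240 2 14))), (.s k83 k82 0 (.s k89 k93 1
  (.s k86 k92 2 (.s k87 k84 0 (.d k95 k91 k90 1 2))))), (.s k89 k93 1 (.s k241 k13 13 (.s k1 k161 11
  (.s k245 k5 11 (.d k253 k249 k169 1 13)))))] .n) (.c k165 (.l (.s k160 k240 11 (.s k83 k82 0 (.s
  k89 k93 1 (.s k86 k92 2 (.s k87 k84 0 (.d k95 k90 k91 2 1))))))) .n)))

def s7_170_176 : T TT 256 :=
  (.q k1 [(.s k3 k2 0 (.s k161 k241 11 (.s k162 k243 12 (.s k160 k163 0 (.d k240 k80 k82 11 12))))),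
  (.s k89 k93 1 (.s k169 k253 13 (.s k9 k249 11 (.s k13 k5 1 (.d k241 k161 k165 11 13))))), (.s k3
  k2 0 (.s k89 k93 1 (.s k169 k253 13 (.s k86 k252 14 (.s k83 k92 2 (.d k243 k163 k162 11 12))))))]
  .n)

def s7_170_177 : T TT 256 :=
  (.q k1 [(.s k89 k93 1 (.s k169 k253 13 (.s k9 k249 11 (.s k13 k5 1 (.d k241 k161 k165 11 13))))),
  (.s k3 k2 0 (.s k161 k241 11 (.s k82 k240 12 (.s k83 k80 0 (.d k243 k163 k162 11 12))))), (.s k3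
  k2 0 (.s k89 k93 1 (.s k169 k253 13 (.s k86 k252 14 (.s k83 k92 2 (.d k243 k163 k162 11 12))))))]
  .n)

def s7_170_178 : T TT 256 :=
  (.q k1 [(.s k3 k2 0 (.s k161 k241 11 (.s k82 k240 12 (.s k83 k80 0 (.d k243 k163 k162 11 12))))),
  (.s k89 k93 1 (.s k169 k253 13 (.s k9 k249 11 (.s k13 k5 1 (.d k241 k161 k165 11 13))))), (.s k3
  k2 0 (.s k89 k93 1 (.s k169 k253 13 (.s k86 k252 14 (.s k83 k92 2 (.d k243 k163 k162 11 12))))))]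
  .n)

def s7_170_179 : T TT 256 :=
  (.q k1 [(.s k3 k2 0 (.s k161 k241 11 (.s k82 k240 12 (.s k83 k80 0 (.d k243 k163 k162 11 12))))),
  (.s k89 k93 1 (.s k169 k253 13 (.s k9 k249 11 (.s k13 k5 1 (.d k241 k161 k165 11 13))))), (.s k3
  k2 0 (.s k89 k93 1 (.s k169 k253 13 (.s k86 k252 14 (.s k83 k92 2 (.d k243 k163 k162 11 12))))))]
  .n)

def s7_170_180 : T TT 256 :=
  (.q k1 [(.s k3 k2 0 (.s k161 k241 11 (.s k162 k243 12 (.s k160 k163 0 (.d k240 k80 k82 11 12))))),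
  (.s k89 k93 1 (.s k169 k253 13 (.s k9 k249 11 (.s k13 k5 1 (.d k241 k161 k165 11 13))))), (.s k3
  k2 0 (.s k89 k93 1 (.s k169 k253 13 (.s k86 k252 14 (.s k83 k92 2 (.d k243 k163 k162 11 12))))))]
  .n)

def s7_170_181 : T TT 256 :=
  (.q k1 [(.s k89 k93 1 (.s k169 k253 13 (.s k9 k249 11 (.s k13 k5 1 (.d k241 k161 k165 11 13))))),
  (.s k3 k2 0 (.s k161 k241 11 (.s k82 k240 12 (.s k83 k80 0 (.d k243 k163 k162 11 12))))), (.s k3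
  k2 0 (.s k89 k93 1 (.s k169 k253 13 (.s k86 k252 14 (.s k83 k92 2 (.d k243 k163 k162 11 12))))))]
  .n)

def s7_170_182 : T TT 256 :=
  (.q k1 [(.s k3 k2 0 (.s k161 k241 11 (.s k82 k240 12 (.s k83 k80 0 (.d k243 k163 k162 11 12))))),
  (.s k89 k93 1 (.s k169 k253 13 (.s k9 k249 11 (.s k13 k5 1 (.d k241 k161 k165 11 13))))), (.s k3
  k2 0 (.s k89 k93 1 (.s k169 k253 13 (.s k86 k252 14 (.s k83 k92 2 (.d k243 k163 k162 11 12))))))]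
  .n)

def s7_170_183 : T TT 256 :=
  (.q k1 [(.s k3 k2 0 (.s k161 k241 11 (.s k82 k240 12 (.s k83 k80 0 (.d k243 k163 k162 11 12))))),
  (.s k89 k93 1 (.s k169 k253 13 (.s k9 k249 11 (.s k13 k5 1 (.d k241 k161 k165 11 13))))), (.s k3
  k2 0 (.s k89 k93 1 (.s k169 k253 13 (.s k86 k252 14 (.s k83 k92 2 (.d k243 k163 k162 11 12))))))]
  .n)

def s7_170_184 : T TT 256 :=
  (.q k1 [(.s k3 k2 0 (.s k161 k241 11 (.s k82 k240 12 (.s k83 k80 0 (.d k243 k163 k162 11 12))))),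
  (.s k89 k93 1 (.s k169 k253 13 (.s k9 k249 11 (.s k13 k5 1 (.d k241 k161 k165 11 13))))), (.s k3
  k2 0 (.s k89 k93 1 (.s k169 k253 13 (.s k86 k252 14 (.s k83 k92 2 (.d k243 k163 k162 11 12))))))]
  .n)

def s7_170_185 : T TT 256 :=
  (.q k1 [(.s k3 k2 0 (.s k161 k241 11 (.s k82 k240 12 (.s k83 k80 0 (.d k243 k163 k162 11 12))))),
  (.s k89 k93 1 (.s k169 k253 13 (.s k9 k249 11 (.s k13 k5 1 (.d k241 k161 k165 11 13))))), (.s k3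
  k2 0 (.s k89 k93 1 (.s k169 k253 13 (.s k86 k252 14 (.s k83 k92 2 (.d k243 k163 k162 11 12))))))]
  .n)

def s7_170_186 : T TT 256 :=
  (.q k154 [(.s k16 k223 10 (.s k89 k93 1 (.s k24 k219 8 (.s k28 k20 1 (.d k211 k146 k150 8 10))))),
  (.s k89 k93 1 (.s k219 k24 8 (.s k243 k162 12 (.s k207 k231 5 (.s k69 k138 10 (.d k101 k117 k48 3
  14)))))), (.s k16 k223 10 (.s k48 k32 3 (.s k146 k211 8 (.s k97 k195 12 (.s k113 k65 3 (.d k243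
  k178 k162 8 12))))))] (.c k219 (.l (.s k16 k223 10 (.s k48 k32 3 (.s k89 k93 1 (.s k101 k207 14
  (.s k113 k77 5 (.d k243 k178 k162 8 12))))))) .n))

def s7_170_187 : T TT 256 :=
  (.q k153 [(.s k17 k221 9 (.s k89 k93 1 (.s k25 k217 7 (.s k29 k21 1 (.d k209 k145 k149 7 9))))),
  (.s k89 k93 1 (.s k217 k25 7 (.s k243 k162 12 (.s k204 k230 6 (.s k68 k136 9 (.d k102 k119 k51 4
  14)))))), (.s k17 k221 9 (.s k51 k34 4 (.s k145 k209 7 (.s k98 k192 12 (.s k115 k64 4 (.d k243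
  k179 k162 7 12))))))] (.c k217 (.l (.s k17 k221 9 (.s k51 k34 4 (.s k89 k93 1 (.s k102 k204 14 (.s
  k115 k76 6 (.d k243 k179 k162 7 12))))))) .n))

def s7_170_188 : T TT 256 :=
  (.q k1 [(.s k3 k2 0 (.s k161 k241 11 (.s k82 k240 12 (.s k83 k80 0 (.d k243 k163 k162 11 12))))),
  (.s k89 k93 1 (.s k169 k253 13 (.s k9 k249 11 (.s k13 k5 1 (.d k241 k161 k165 11 13))))), (.s k3
  k2 0 (.s k89 k93 1 (.s k169 k253 13 (.s k86 k252 14 (.s k83 k92 2 (.d k243 k163 k162 11 12))))))]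
  .n)

def s7_170_189 : T TT 256 :=
  (.q k1 [(.s k3 k2 0 (.s k161 k241 11 (.s k82 k240 12 (.s k83 k80 0 (.d k243 k163 k162 11 12))))),
  (.s k89 k93 1 (.s k169 k253 13 (.s k9 k249 11 (.s k13 k5 1 (.d k241 k161 k165 11 13))))), (.s k3
  k2 0 (.s k89 k93 1 (.s k169 k253 13 (.s k86 k252 14 (.s k83 k92 2 (.d k243 k163 k162 11 12))))))]
  .n)

def s7_170_190 : T TT 256 :=
  (.f k89 k93 1 (.q k150 [(.s k211 k28 10 (.s k16 k146 8 (.s k215 k20 8 (.d k223 k219 k154 1 10)))),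
  (.s k20 k215 8 (.s k60 k40 5 (.s k105 k195 14 (.s k121 k73 3 (.d k243 k182 k162 10 12))))), (.s
  k211 k28 10 (.s k243 k162 12 (.s k195 k227 3 (.s k65 k130 8 (.d k105 k125 k60 5 14)))))] .n))

def s7_170_191 : T TT 256 :=
  (.q k64 [(.s k98 k115 4 (.s k162 k243 12 (.s k34 k226 7 (.s k51 k17 4 (.d k192 k128 k145 7
  12))))), (.s k89 k93 1 (.s k106 k127 6 (.s k72 k123 4 (.s k76 k68 1 (.d k115 k98 k102 4 6))))),
  (.s k89 k93 1 (.s k106 k127 6 (.s k123 k72 4 (.s k243 k162 12 (.s k63 k183 9 (.d k192 k128 k149 7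
  14))))))] (.c k128 (.q k149 [(.s k21 k213 7 (.s k63 k42 6 (.d k106 k127 k192 6 14))), (.s k89 k93
  1 (.s k115 k98 4 (.s k76 k102 6 (.s k72 k68 1 (.d k106 k123 k127 4 6))))), (.s k89 k93 1 (.s k209
  k29 9 (.s k17 k145 7 (.s k213 k21 7 (.d k221 k217 k153 1 9)))))] .n) (.c k149 (.l (.s k128 k192 7
  (.s k89 k93 1 (.s k106 k127 6 (.s k72 k123 4 (.s k76 k68 1 (.d k115 k98 k102 4 6))))))) .n)))

def s7_170_192 : T TT 256 :=
  (.q k1 [(.s k89 k93 1 (.s k169 k253 13 (.s k9 k249 11 (.s k13 k5 1 (.d k241 k161 k165 11 13))))),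
  (.s k3 k2 0 (.s k161 k241 11 (.s k82 k240 12 (.s k83 k80 0 (.d k243 k163 k162 11 12))))), (.s k3
  k2 0 (.s k89 k93 1 (.s k169 k253 13 (.s k86 k252 14 (.s k83 k92 2 (.d k243 k163 k162 11 12))))))]
  .n)

def s7_170_193 : T TT 256 :=
  (.q k1 [(.s k3 k2 0 (.s k161 k241 11 (.s k82 k240 12 (.s k83 k80 0 (.d k243 k163 k162 11 12))))),
  (.s k89 k93 1 (.s k169 k253 13 (.s k9 k249 11 (.s k13 k5 1 (.d k241 k161 k165 11 13))))), (.s k3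
  k2 0 (.s k89 k93 1 (.s k169 k253 13 (.s k86 k252 14 (.s k83 k92 2 (.d k243 k163 k162 11 12))))))]
  .n)

def s7_170_194 : T TT 256 :=
  (.q k1 [(.s k89 k93 1 (.s k169 k253 13 (.s k9 k249 11 (.s k13 k5 1 (.d k241 k161 k165 11 13))))),
  (.s k3 k2 0 (.s k161 k241 11 (.s k82 k240 12 (.s k83 k80 0 (.d k243 k163 k162 11 12))))), (.s k3
  k2 0 (.s k89 k93 1 (.s k169 k253 13 (.s k86 k252 14 (.s k83 k92 2 (.d k243 k163 k162 11 12))))))]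
  .n)

def s7_170_195 : T TT 256 :=
  (.q k1 [(.s k89 k93 1 (.s k169 k253 13 (.s k9 k249 11 (.s k13 k5 1 (.d k241 k161 k165 11 13))))),
  (.s k3 k2 0 (.s k161 k241 11 (.s k82 k240 12 (.s k83 k80 0 (.d k243 k163 k162 11 12))))), (.s k3
  k2 0 (.s k89 k93 1 (.s k169 k253 13 (.s k86 k252 14 (.s k83 k92 2 (.d k243 k163 k162 11 12))))))]
  .n)

def s7_170_196 : T TT 256 :=
  (.f k162 k243 12 (.f k89 k93 1 (.q k1 [(.s k161 k241 11 (.s k160 k163 0 (.s k240 k80 11 (.d k3 k2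
  k82 0 12)))), (.s k169 k253 13 (.s k9 k249 11 (.s k13 k5 1 (.d k241 k161 k165 11 13)))), (.s k3 k2
  0 (.s k169 k253 13 (.s k86 k252 14 (.s k83 k92 2 (.s k80 k82 0 (.s k87 k84 0 (.d k95 k91 k90 1
  2)))))))] (.c k70 (.q k133 [(.s k161 k241 11 (.s k160 k163 0 (.s k240 k80 11 (.d k3 k2 k82 0
  12)))), (.s k169 k253 13 (.s k9 k249 11 (.s k13 k5 1 (.d k241 k161 k165 11 13)))), (.s k3 k2 0 (.s
  k169 k253 13 (.s k86 k252 14 (.s k83 k92 2 (.s k80 k82 0 (.s k87 k84 0 (.d k95 k91 k90 1 2)))))))]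
  .n) (.c k133 (.q k70 [(.s k161 k241 11 (.s k160 k163 0 (.s k240 k80 11 (.d k3 k2 k82 0 12)))), (.s
  k169 k253 13 (.s k9 k249 11 (.s k13 k5 1 (.d k241 k161 k165 11 13)))), (.s k3 k2 0 (.s k137 k204
  10 (.s k69 k205 9 (.s k71 k68 0 (.d k207 k139 k138 9 10)))))] .n) .n)))))

def s7_170_197 : T TT 256 :=
  (.q k1 [(.s k3 k2 0 (.s k161 k241 11 (.s k82 k240 12 (.s k83 k80 0 (.d k243 k163 k162 11 12))))),
  (.s k89 k93 1 (.s k169 k253 13 (.s k9 k249 11 (.s k13 k5 1 (.d k241 k161 k165 11 13))))), (.s k3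
  k2 0 (.s k89 k93 1 (.s k169 k253 13 (.s k86 k252 14 (.s k83 k92 2 (.d k243 k163 k162 11 12))))))]
  .n)

def s7_170_198 : T TT 256 :=
  (.q k1 [(.s k3 k2 0 (.s k161 k241 11 (.s k82 k240 12 (.s k83 k80 0 (.d k243 k163 k162 11 12))))),
  (.s k89 k93 1 (.s k169 k253 13 (.s k9 k249 11 (.s k13 k5 1 (.d k241 k161 k165 11 13))))), (.s k3
  k2 0 (.s k89 k93 1 (.s k169 k253 13 (.s k86 k252 14 (.s k83 k92 2 (.d k243 k163 k162 11 12))))))]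
  .n)

def s7_170_199 : T TT 256 :=
  (.f k89 k93 1 (.f k162 k243 12 (.q k1 [(.s k161 k241 11 (.s k160 k163 0 (.s k240 k80 11 (.d k3 k2
  k82 0 12)))), (.s k169 k253 13 (.s k9 k249 11 (.s k13 k5 1 (.d k241 k161 k165 11 13)))), (.s k3 k2
  0 (.s k169 k253 13 (.s k86 k252 14 (.s k83 k92 2 (.s k80 k82 0 (.s k87 k84 0 (.d k95 k91 k90 1
  2)))))))] (.c k71 (.q k135 [(.s k161 k241 11 (.s k160 k163 0 (.s k240 k80 11 (.d k3 k2 k82 0
  12)))), (.s k169 k253 13 (.s k9 k249 11 (.s k13 k5 1 (.d k241 k161 k165 11 13)))), (.s k3 k2 0 (.s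
  k169 k253 13 (.s k86 k252 14 (.s k83 k92 2 (.s k80 k82 0 (.s k87 k84 0 (.d k95 k91 k90 1 2)))))))]
  .n) (.c k135 (.q k71 [(.s k161 k241 11 (.s k160 k163 0 (.s k240 k80 11 (.d k3 k2 k82 0 12)))), (.s
  k169 k253 13 (.s k9 k249 11 (.s k13 k5 1 (.d k241 k161 k165 11 13)))), (.s k3 k2 0 (.s k207 k139 9
  (.s k69 k138 10 (.s k70 k68 0 (.d k137 k205 k204 9 10)))))] .n) .n)))))

def s7_170_200 : T TT 256 :=
  (.q k1 [(.s k3 k2 0 (.s k161 k241 11 (.s k82 k240 12 (.s k83 k80 0 (.d k243 k163 k162 11 12))))),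
  (.s k89 k93 1 (.s k169 k253 13 (.s k9 k249 11 (.s k13 k5 1 (.d k241 k161 k165 11 13))))), (.s k3
  k2 0 (.s k89 k93 1 (.s k169 k253 13 (.s k86 k252 14 (.s k83 k92 2 (.d k243 k163 k162 11 12))))))]
  .n)

def s7_170_201 : T TT 256 :=
  (.q k1 [(.s k3 k2 0 (.s k161 k241 11 (.s k82 k240 12 (.s k83 k80 0 (.d k243 k163 k162 11 12))))),
  (.s k89 k93 1 (.s k169 k253 13 (.s k9 k249 11 (.s k13 k5 1 (.d k241 k161 k165 11 13))))), (.s k3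
  k2 0 (.s k89 k93 1 (.s k169 k253 13 (.s k86 k252 14 (.s k83 k92 2 (.d k243 k163 k162 11 12))))))]
  .n)

def s7_170_202 : T TT 256 :=
  (.q k1 [(.s k3 k2 0 (.s k161 k241 11 (.s k82 k240 12 (.s k83 k80 0 (.d k243 k163 k162 11 12))))),
  (.s k89 k93 1 (.s k169 k253 13 (.s k9 k249 11 (.s k13 k5 1 (.d k241 k161 k165 11 13))))), (.s k3
  k2 0 (.s k89 k93 1 (.s k169 k253 13 (.s k86 k252 14 (.s k83 k92 2 (.d k243 k163 k162 11 12))))))]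
  .n)

def s7_170_203 : T TT 256 :=
  (.q k1 [(.s k3 k2 0 (.s k161 k241 11 (.s k82 k240 12 (.s k83 k80 0 (.d k243 k163 k162 11 12))))),
  (.s k89 k93 1 (.s k169 k253 13 (.s k9 k249 11 (.s k13 k5 1 (.d k241 k161 k165 11 13))))), (.s k3
  k2 0 (.s k89 k93 1 (.s k169 k253 13 (.s k86 k252 14 (.s k83 k92 2 (.d k243 k163 k162 11 12))))))]
  .n)

def s7_170_204 : T TT 256 :=
  (.q k1 [(.s k89 k93 1 (.s k169 k253 13 (.s k9 k249 11 (.s k13 k5 1 (.d k241 k161 k165 11 13))))),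
  (.s k3 k2 0 (.s k161 k241 11 (.s k82 k240 12 (.s k83 k80 0 (.d k243 k163 k162 11 12))))), (.s k3
  k2 0 (.s k89 k93 1 (.s k169 k253 13 (.s k86 k252 14 (.s k83 k92 2 (.d k243 k163 k162 11 12))))))]
  .n)

def s7_170_205 : T TT 256 :=
  (.q k1 [(.s k3 k2 0 (.s k161 k241 11 (.s k82 k240 12 (.s k83 k80 0 (.d k243 k163 k162 11 12))))),
  (.s k89 k93 1 (.s k169 k253 13 (.s k9 k249 11 (.s k13 k5 1 (.d k241 k161 k165 11 13))))), (.s k3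
  k2 0 (.s k89 k93 1 (.s k169 k253 13 (.s k86 k252 14 (.s k83 k92 2 (.d k243 k163 k162 11 12))))))]
  .n)

def s7_170_206 : T TT 256 :=
  (.q k1 [(.s k89 k93 1 (.s k169 k253 13 (.s k9 k249 11 (.s k13 k5 1 (.d k241 k161 k165 11 13))))),
  (.s k3 k2 0 (.s k161 k241 11 (.s k82 k240 12 (.s k83 k80 0 (.d k243 k163 k162 11 12))))), (.s k3
  k2 0 (.s k89 k93 1 (.s k169 k253 13 (.s k86 k252 14 (.s k83 k92 2 (.d k243 k163 k162 11 12))))))]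
  .n)

def s7_170_207 : T TT 256 :=
  (.q k1 [(.s k89 k93 1 (.s k169 k253 13 (.s k9 k249 11 (.s k13 k5 1 (.d k241 k161 k165 11 13))))),
  (.s k3 k2 0 (.s k161 k241 11 (.s k82 k240 12 (.s k83 k80 0 (.d k243 k163 k162 11 12))))), (.s k3
  k2 0 (.s k89 k93 1 (.s k169 k253 13 (.s k86 k252 14 (.s k83 k92 2 (.d k243 k163 k162 11 12))))))]
  .n)

def s7_170_208 : T TT 256 :=
  (.q k1 [(.s k3 k2 0 (.s k161 k241 11 (.s k162 k243 12 (.s k160 k163 0 (.d k240 k80 k82 11 12))))),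
  (.s k89 k93 1 (.s k169 k253 13 (.s k9 k249 11 (.s k13 k5 1 (.d k241 k161 k165 11 13))))), (.s k3
  k2 0 (.s k89 k93 1 (.s k169 k253 13 (.s k86 k252 14 (.s k83 k92 2 (.d k243 k163 k162 11 12))))))]
  .n)

def s7_170_209 : T TT 256 :=
  (.q k1 [(.s k89 k93 1 (.s k169 k253 13 (.s k9 k249 11 (.s k13 k5 1 (.d k241 k161 k165 11 13))))),
  (.s k3 k2 0 (.s k161 k241 11 (.s k82 k240 12 (.s k83 k80 0 (.d k243 k163 k162 11 12))))), (.s k3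
  k2 0 (.s k89 k93 1 (.s k169 k253 13 (.s k86 k252 14 (.s k83 k92 2 (.d k243 k163 k162 11 12))))))]
  .n)

def s7_170_210 : T TT 256 :=
  (.q k1 [(.s k3 k2 0 (.s k161 k241 11 (.s k162 k243 12 (.s k160 k163 0 (.d k240 k80 k82 11 12))))),
  (.s k89 k93 1 (.s k169 k253 13 (.s k9 k249 11 (.s k13 k5 1 (.d k241 k161 k165 11 13))))), (.s k3
  k2 0 (.s k89 k93 1 (.s k169 k253 13 (.s k86 k252 14 (.s k83 k92 2 (.d k243 k163 k162 11 12))))))]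
  .n)

def s7_170_211 : T TT 256 :=
  (.q k1 [(.s k3 k2 0 (.s k161 k241 11 (.s k82 k240 12 (.s k83 k80 0 (.d k243 k163 k162 11 12))))),
  (.s k89 k93 1 (.s k169 k253 13 (.s k9 k249 11 (.s k13 k5 1 (.d k241 k161 k165 11 13))))), (.s k3
  k2 0 (.s k89 k93 1 (.s k169 k253 13 (.s k86 k252 14 (.s k83 k92 2 (.d k243 k163 k162 11 12))))))]
  .n)

def s7_170_212 : T TT 256 :=
  (.q k1 [(.s k3 k2 0 (.s k161 k241 11 (.s k82 k240 12 (.s k83 k80 0 (.d k243 k163 k162 11 12))))),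
  (.s k89 k93 1 (.s k169 k253 13 (.s k9 k249 11 (.s k13 k5 1 (.d k241 k161 k165 11 13))))), (.s k3
  k2 0 (.s k89 k93 1 (.s k169 k253 13 (.s k86 k252 14 (.s k83 k92 2 (.d k243 k163 k162 11 12))))))]
  .n)

def s7_170_213 : T TT 256 :=
  (.q k1 [(.s k3 k2 0 (.s k161 k241 11 (.s k82 k240 12 (.s k83 k80 0 (.d k243 k163 k162 11 12))))),
  (.s k89 k93 1 (.s k169 k253 13 (.s k9 k249 11 (.s k13 k5 1 (.d k241 k161 k165 11 13))))), (.s k3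
  k2 0 (.s k89 k93 1 (.s k169 k253 13 (.s k86 k252 14 (.s k83 k92 2 (.d k243 k163 k162 11 12))))))]
  .n)

def s7_170_214 : T TT 256 :=
  (.q k1 [(.s k3 k2 0 (.s k161 k241 11 (.s k82 k240 12 (.s k83 k80 0 (.d k243 k163 k162 11 12))))),
  (.s k89 k93 1 (.s k169 k253 13 (.s k9 k249 11 (.s k13 k5 1 (.d k241 k161 k165 11 13))))), (.s k3
  k2 0 (.s k89 k93 1 (.s k169 k253 13 (.s k86 k252 14 (.s k83 k92 2 (.d k243 k163 k162 11 12))))))]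
  .n)

def s7_170_215 : T TT 256 :=
  (.q k1 [(.s k3 k2 0 (.s k161 k241 11 (.s k82 k240 12 (.s k83 k80 0 (.d k243 k163 k162 11 12))))),
  (.s k89 k93 1 (.s k169 k253 13 (.s k9 k249 11 (.s k13 k5 1 (.d k241 k161 k165 11 13))))), (.s k3
  k2 0 (.s k89 k93 1 (.s k169 k253 13 (.s k86 k252 14 (.s k83 k92 2 (.d k243 k163 k162 11 12))))))]
  .n)

def s7_170_216 : T TT 256 :=
  (.q k1 [(.s k3 k2 0 (.s k161 k241 11 (.s k162 k243 12 (.s k160 k163 0 (.d k240 k80 k82 11 12))))),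
  (.s k89 k93 1 (.s k169 k253 13 (.s k9 k249 11 (.s k13 k5 1 (.d k241 k161 k165 11 13))))), (.s k3
  k2 0 (.s k89 k93 1 (.s k169 k253 13 (.s k86 k252 14 (.s k83 k92 2 (.d k243 k163 k162 11 12))))))]
  .n)

def s7_170_217 : T TT 256 :=
  (.q k1 [(.s k3 k2 0 (.s k161 k241 11 (.s k82 k240 12 (.s k83 k80 0 (.d k243 k163 k162 11 12))))),
  (.s k89 k93 1 (.s k169 k253 13 (.s k9 k249 11 (.s k13 k5 1 (.d k241 k161 k165 11 13))))), (.s k3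
  k2 0 (.s k89 k93 1 (.s k169 k253 13 (.s k86 k252 14 (.s k83 k92 2 (.d k243 k163 k162 11 12))))))]
  .n)

def s7_170_218 : T TT 256 :=
  (.q k1 [(.s k3 k2 0 (.s k161 k241 11 (.s k162 k243 12 (.s k160 k163 0 (.d k240 k80 k82 11 12))))),
  (.s k89 k93 1 (.s k169 k253 13 (.s k9 k249 11 (.s k13 k5 1 (.d k241 k161 k165 11 13))))), (.s k3
  k2 0 (.s k89 k93 1 (.s k169 k253 13 (.s k86 k252 14 (.s k83 k92 2 (.d k243 k163 k162 11 12))))))]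
  .n)

def s7_170_219 : T TT 256 :=
  (.q k1 [(.s k3 k2 0 (.s k161 k241 11 (.s k82 k240 12 (.s k83 k80 0 (.d k243 k163 k162 11 12))))),
  (.s k89 k93 1 (.s k169 k253 13 (.s k9 k249 11 (.s k13 k5 1 (.d k241 k161 k165 11 13))))), (.s k3
  k2 0 (.s k89 k93 1 (.s k169 k253 13 (.s k86 k252 14 (.s k83 k92 2 (.d k243 k163 k162 11 12))))))]
  .n)

def s7_170_220 : T TT 256 :=
  (.q k1 [(.s k3 k2 0 (.s k161 k241 11 (.s k82 k240 12 (.s k83 k80 0 (.d k243 k163 k162 11 12))))),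
  (.s k89 k93 1 (.s k169 k253 13 (.s k9 k249 11 (.s k13 k5 1 (.d k241 k161 k165 11 13))))), (.s k3
  k2 0 (.s k89 k93 1 (.s k169 k253 13 (.s k86 k252 14 (.s k83 k92 2 (.d k243 k163 k162 11 12))))))]
  .n)

def s7_170_221 : T TT 256 :=
  (.q k1 [(.s k3 k2 0 (.s k161 k241 11 (.s k82 k240 12 (.s k83 k80 0 (.d k243 k163 k162 11 12))))),
  (.s k89 k93 1 (.s k169 k253 13 (.s k9 k249 11 (.s k13 k5 1 (.d k241 k161 k165 11 13))))), (.s k3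
  k2 0 (.s k89 k93 1 (.s k169 k253 13 (.s k86 k252 14 (.s k83 k92 2 (.d k243 k163 k162 11 12))))))]
  .n)

def s7_170_222 : T TT 256 :=
  (.q k1 [(.s k3 k2 0 (.s k161 k241 11 (.s k82 k240 12 (.s k83 k80 0 (.d k243 k163 k162 11 12))))),
  (.s k89 k93 1 (.s k169 k253 13 (.s k9 k249 11 (.s k13 k5 1 (.d k241 k161 k165 11 13))))), (.s k3
  k2 0 (.s k89 k93 1 (.s k169 k253 13 (.s k86 k252 14 (.s k83 k92 2 (.d k243 k163 k162 11 12))))))]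
  .n)

def s7_170_223 : T TT 256 :=
  (.q k1 [(.s k3 k2 0 (.s k161 k241 11 (.s k82 k240 12 (.s k83 k80 0 (.d k243 k163 k162 11 12))))),
  (.s k89 k93 1 (.s k169 k253 13 (.s k9 k249 11 (.s k13 k5 1 (.d k241 k161 k165 11 13))))), (.s k3
  k2 0 (.s k89 k93 1 (.s k169 k253 13 (.s k86 k252 14 (.s k83 k92 2 (.d k243 k163 k162 11 12))))))]
  .n)

def s7_170_224 : T TT 256 :=
  (.q k1 [(.s k3 k2 0 (.s k161 k241 11 (.s k162 k243 12 (.s k160 k163 0 (.d k240 k80 k82 11 12))))),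
  (.s k89 k93 1 (.s k169 k253 13 (.s k9 k249 11 (.s k13 k5 1 (.d k241 k161 k165 11 13))))), (.s k3
  k2 0 (.s k89 k93 1 (.s k169 k253 13 (.s k86 k252 14 (.s k83 k92 2 (.d k243 k163 k162 11 12))))))]
  .n)

def s7_170_225 : T TT 256 :=
  (.q k1 [(.s k89 k93 1 (.s k169 k253 13 (.s k9 k249 11 (.s k13 k5 1 (.d k241 k161 k165 11 13))))),
  (.s k3 k2 0 (.s k161 k241 11 (.s k82 k240 12 (.s k83 k80 0 (.d k243 k163 k162 11 12))))), (.s k3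
  k2 0 (.s k89 k93 1 (.s k169 k253 13 (.s k86 k252 14 (.s k83 k92 2 (.d k243 k163 k162 11 12))))))]
  .n)

def s7_170_226 : T TT 256 :=
  (.q k1 [(.s k3 k2 0 (.s k161 k241 11 (.s k82 k240 12 (.s k83 k80 0 (.d k243 k163 k162 11 12))))),
  (.s k89 k93 1 (.s k169 k253 13 (.s k9 k249 11 (.s k13 k5 1 (.d k241 k161 k165 11 13))))), (.s k3
  k2 0 (.s k89 k93 1 (.s k169 k253 13 (.s k86 k252 14 (.s k83 k92 2 (.d k243 k163 k162 11 12))))))]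
  .n)

def s7_170_227 : T TT 256 :=
  (.q k1 [(.s k3 k2 0 (.s k161 k241 11 (.s k82 k240 12 (.s k83 k80 0 (.d k243 k163 k162 11 12))))),
  (.s k89 k93 1 (.s k169 k253 13 (.s k9 k249 11 (.s k13 k5 1 (.d k241 k161 k165 11 13))))), (.s k3
  k2 0 (.s k89 k93 1 (.s k169 k253 13 (.s k86 k252 14 (.s k83 k92 2 (.d k243 k163 k162 11 12))))))]
  .n)

def s7_170_228 : T TT 256 :=
  (.q k1 [(.s k3 k2 0 (.s k161 k241 11 (.s k162 k243 12 (.s k160 k163 0 (.d k240 k80 k82 11 12))))),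
  (.s k89 k93 1 (.s k169 k253 13 (.s k9 k249 11 (.s k13 k5 1 (.d k241 k161 k165 11 13))))), (.s k3
  k2 0 (.s k89 k93 1 (.s k169 k253 13 (.s k86 k252 14 (.s k83 k92 2 (.d k243 k163 k162 11 12))))))]
  .n)

def s7_170_229 : T TT 256 :=
  (.q k1 [(.s k89 k93 1 (.s k169 k253 13 (.s k9 k249 11 (.s k13 k5 1 (.d k241 k161 k165 11 13))))),
  (.s k3 k2 0 (.s k161 k241 11 (.s k82 k240 12 (.s k83 k80 0 (.d k243 k163 k162 11 12))))), (.s k3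
  k2 0 (.s k89 k93 1 (.s k169 k253 13 (.s k86 k252 14 (.s k83 k92 2 (.d k243 k163 k162 11 12))))))]
  .n)

def s7_170_230 : T TT 256 :=
  (.q k1 [(.s k3 k2 0 (.s k161 k241 11 (.s k82 k240 12 (.s k83 k80 0 (.d k243 k163 k162 11 12))))),
  (.s k89 k93 1 (.s k169 k253 13 (.s k9 k249 11 (.s k13 k5 1 (.d k241 k161 k165 11 13))))), (.s k3
  k2 0 (.s k89 k93 1 (.s k169 k253 13 (.s k86 k252 14 (.s k83 k92 2 (.d k243 k163 k162 11 12))))))]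
  .n)

def s7_170_231 : T TT 256 :=
  (.q k1 [(.s k3 k2 0 (.s k161 k241 11 (.s k82 k240 12 (.s k83 k80 0 (.d k243 k163 k162 11 12))))),
  (.s k89 k93 1 (.s k169 k253 13 (.s k9 k249 11 (.s k13 k5 1 (.d k241 k161 k165 11 13))))), (.s k3
  k2 0 (.s k89 k93 1 (.s k169 k253 13 (.s k86 k252 14 (.s k83 k92 2 (.d k243 k163 k162 11 12))))))]
  .n)

def s7_170_232 : T TT 256 :=
  (.q k1 [(.s k3 k2 0 (.s k161 k241 11 (.s k82 k240 12 (.s k83 k80 0 (.d k243 k163 k162 11 12))))),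
  (.s k89 k93 1 (.s k169 k253 13 (.s k9 k249 11 (.s k13 k5 1 (.d k241 k161 k165 11 13))))), (.s k3
  k2 0 (.s k89 k93 1 (.s k169 k253 13 (.s k86 k252 14 (.s k83 k92 2 (.d k243 k163 k162 11 12))))))]
  .n)

def s7_170_233 : T TT 256 :=
  (.q k1 [(.s k3 k2 0 (.s k161 k241 11 (.s k82 k240 12 (.s k83 k80 0 (.d k243 k163 k162 11 12))))),
  (.s k89 k93 1 (.s k169 k253 13 (.s k9 k249 11 (.s k13 k5 1 (.d k241 k161 k165 11 13))))), (.s k3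
  k2 0 (.s k89 k93 1 (.s k169 k253 13 (.s k86 k252 14 (.s k83 k92 2 (.d k243 k163 k162 11 12))))))]
  .n)

def s7_170_234 : T TT 256 :=
  (.q k106 [(.s k64 k127 6 (.s k89 k93 1 (.s k72 k123 4 (.s k76 k68 1 (.d k115 k98 k102 4 6))))),
  (.s k89 k93 1 (.s k123 k72 4 (.s k243 k162 12 (.s k63 k183 9 (.s k21 k42 6 (.d k149 k213 k192 7
  14)))))), (.s k64 k127 6 (.s k98 k115 4 (.s k162 k243 12 (.s k34 k226 7 (.s k51 k17 4 (.d k192
  k128 k145 7 12))))))] (.c k123 (.l (.s k64 k127 6 (.s k89 k93 1 (.s k192 k128 7 (.s k149 k63 14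
  (.s k209 k29 9 (.d k243 k226 k162 4 12))))))) .n))

def s7_170_235 : T TT 256 :=
  (.q k105 [(.s k65 k125 5 (.s k89 k93 1 (.s k73 k121 3 (.s k77 k69 1 (.d k113 k97 k101 3 5))))),
  (.s k89 k93 1 (.s k121 k73 3 (.s k243 k162 12 (.s k60 k182 10 (.s k20 k40 5 (.d k150 k215 k195 8
  14)))))), (.s k65 k125 5 (.s k97 k113 3 (.s k162 k243 12 (.s k32 k227 8 (.s k48 k16 3 (.d k195
  k130 k146 8 12))))))] (.c k121 (.l (.s k65 k125 5 (.s k89 k93 1 (.s k195 k130 8 (.s k150 k60 14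
  (.s k211 k28 10 (.d k243 k227 k162 3 12))))))) .n))

def s7_170_236 : T TT 256 :=
  (.q k1 [(.s k3 k2 0 (.s k161 k241 11 (.s k82 k240 12 (.s k83 k80 0 (.d k243 k163 k162 11 12))))),
  (.s k89 k93 1 (.s k169 k253 13 (.s k9 k249 11 (.s k13 k5 1 (.d k241 k161 k165 11 13))))), (.s k3
  k2 0 (.s k89 k93 1 (.s k169 k253 13 (.s k86 k252 14 (.s k83 k92 2 (.d k243 k163 k162 11 12))))))]
  .n)

def s7_170_237 : T TT 256 :=
  (.q k1 [(.s k3 k2 0 (.s k161 k241 11 (.s k82 k240 12 (.s k83 k80 0 (.d k243 k163 k162 11 12))))),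
  (.s k89 k93 1 (.s k169 k253 13 (.s k9 k249 11 (.s k13 k5 1 (.d k241 k161 k165 11 13))))), (.s k3
  k2 0 (.s k89 k93 1 (.s k169 k253 13 (.s k86 k252 14 (.s k83 k92 2 (.d k243 k163 k162 11 12))))))]
  .n)

def s7_170_238 : T TT 256 :=
  (.f k89 k93 1 (.q k102 [(.s k115 k76 6 (.s k64 k98 4 (.s k119 k68 4 (.d k127 k123 k106 1 6)))),
  (.s k68 k119 4 (.s k204 k136 9 (.s k153 k51 14 (.s k217 k25 7 (.d k243 k230 k162 6 12))))), (.s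
  k115 k76 6 (.s k243 k162 12 (.s k51 k179 7 (.s k17 k34 4 (.d k153 k221 k204 9 14)))))] .n))

def s7_170_239 : T TT 256 :=
  (.f k89 k93 1 (.q k101 [(.s k113 k77 5 (.s k65 k97 3 (.s k117 k69 3 (.d k125 k121 k105 1 5)))),
  (.s k69 k117 3 (.s k207 k138 10 (.s k154 k48 14 (.s k219 k24 8 (.d k243 k231 k162 5 12))))), (.s
  k113 k77 5 (.s k243 k162 12 (.s k48 k178 8 (.s k16 k32 3 (.d k154 k223 k207 10 14)))))] .n))

def s7_170_240 : T TT 256 :=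
  (.q k16 [(.s k89 k93 1 (.s k154 k223 10 (.s k24 k219 8 (.s k28 k20 1 (.d k211 k146 k150 8 10))))),
  (.s k48 k32 3 (.s k146 k211 8 (.s k97 k195 12 (.s k113 k65 3 (.d k243 k178 k162 8 12))))), (.s k48
  k32 3 (.s k89 k93 1 (.s k154 k223 10 (.s k101 k207 14 (.s k113 k77 5 (.d k243 k178 k162 8
  12))))))] .n)

def s7_170_241 : T TT 256 :=
  (.q k16 [(.s k89 k93 1 (.s k154 k223 10 (.s k24 k219 8 (.s k28 k20 1 (.d k211 k146 k150 8 10))))),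
  (.s k48 k32 3 (.s k146 k211 8 (.s k97 k195 12 (.s k113 k65 3 (.d k243 k178 k162 8 12))))), (.s k48
  k32 3 (.s k89 k93 1 (.s k154 k223 10 (.s k101 k207 14 (.s k113 k77 5 (.d k243 k178 k162 8
  12))))))] .n)

def s7_170_242 : T TT 256 :=
  (.q k1 [(.s k3 k2 0 (.s k161 k241 11 (.s k162 k243 12 (.s k240 k82 12 (.d k160 k163 k80 0 11))))),
  (.s k89 k93 1 (.s k169 k253 13 (.s k9 k249 11 (.s k13 k5 1 (.d k241 k161 k165 11 13))))), (.s k3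
  k2 0 (.s k89 k93 1 (.s k169 k253 13 (.s k86 k252 14 (.s k83 k92 2 (.d k243 k162 k163 12 11))))))]
  .n)

def s7_170_243 : T TT 256 :=
  (.f k89 k93 1 (.q k16 [(.s k211 k146 8 (.s k150 k28 10 (.s k215 k20 8 (.d k223 k219 k154 1 10)))),
  (.s k48 k32 3 (.s k154 k223 10 (.s k101 k207 14 (.s k113 k77 5 (.s k65 k97 3 (.s k117 k69 3 (.d
  k125 k121 k105 1 5))))))), (.s k48 k32 3 (.s k146 k211 8 (.s k195 k97 12 (.s k65 k130 8 (.s k105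
  k125 5 (.s k150 k60 14 (.d k154 k158 k223 1 10)))))))] (.c k154 (.f k48 k32 3 (.f k146 k211 8 (.f
  k195 k97 12 (.l (.s k65 k130 8 (.s k105 k125 5 (.s k73 k121 3 (.s k12 k134 10 (.s k8 k4 1 (.s k138
  k203 8 (.d k69 k77 k207 1 10))))))))))) (.c k158 (.l (.s k211 k146 8 (.s k28 k150 10 (.s k154 k223
  10 (.d k24 k20 k219 1 8))))) (.c k223 (.f k48 k32 3 (.f k146 k211 8 (.f k195 k97 12 (.l (.s k65
  k130 8 (.s k105 k125 5 (.s k73 k121 3 (.s k12 k134 10 (.s k8 k4 1 (.s k138 k203 8 (.d k69 k77 k207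
  1 10))))))))))) .n)))))

def s7_170_244 : T TT 256 :=
  (.q k86 [(.s k89 k93 1 (.s k83 k92 2 (.s k80 k82 0 (.s k95 k90 2 (.d k87 k84 k91 0 1))))), (.s k84
  k87 0 (.s k243 k162 12 (.s k252 k168 13 (.s k246 k249 2 (.s k166 k6 11 (.s k12 k89 14 (.d k4 k8
  k247 1 12))))))), (.s k89 k93 1 (.s k83 k92 2 (.s k243 k162 12 (.s k3 k163 11 (.s k1 k2 0 (.d k169
  k253 k252 13 14))))))] (.c k89 (.f k243 k162 12 (.f k84 k87 0 (.l (.s k252 k168 13 (.s k169 k3 14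
  (.s k246 k249 2 (.s k166 k6 11 (.s k172 k163 2 (.s k12 k92 11 (.d k4 k8 k247 1 12)))))))))) .n))

def s7_170_245 : T TT 256 :=
  (.q k1 [(.s k89 k93 1 (.s k169 k253 13 (.s k9 k249 11 (.s k241 k161 11 (.d k13 k5 k165 1 13))))),
  (.s k3 k2 0 (.s k243 k162 12 (.s k83 k163 11 (.s k82 k80 0 (.d k161 k241 k240 11 12)))))] (.c k161
  (.l (.s k3 k2 0 (.s k89 k93 1 (.s k169 k253 13 (.s k86 k252 14 (.s k83 k92 2 (.d k243 k163 k162 11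
  12))))))) (.c k241 (.l (.s k3 k2 0 (.s k89 k93 1 (.s k169 k253 13 (.s k249 k9 11 (.s k243 k162 12
  (.d k252 k86 k246 14 2))))))) .n)))

def s7_170_246 : T TT 256 :=
  (.q k1 [(.s k3 k2 0 (.s k161 k241 11 (.s k82 k240 12 (.s k83 k80 0 (.d k243 k163 k162 11 12))))),
  (.s k89 k93 1 (.s k169 k253 13 (.s k9 k249 11 (.s k13 k5 1 (.d k241 k161 k165 11 13))))), (.s k3
  k2 0 (.s k89 k93 1 (.s k169 k253 13 (.s k86 k252 14 (.s k83 k92 2 (.d k243 k163 k162 11 12))))))]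
  (.c k243 (.l (.s k89 k93 1 (.s k169 k253 13 (.s k241 k161 11 (.s k13 k165 13 (.d k9 k5 k249 1
  11)))))) .n))

def s7_170_247 : T TT 256 :=
  (.f k89 k93 1 (.q k195 [(.s k65 k130 8 (.s k97 k113 3 (.s k48 k146 12 (.s k32 k16 3 (.d k162 k227
  k243 8 12))))), (.s k243 k162 12 (.s k211 k227 3 (.s k150 k28 10 (.s k20 k215 8 (.d k60 k40 k105 5
  14))))), (.s k65 k130 8 (.s k105 k125 5 (.s k73 k121 3 (.s k77 k69 1 (.d k113 k97 k101 3 5)))))]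
  (.c k87 (.q k167 [(.s k65 k130 8 (.s k97 k113 3 (.s k48 k146 12 (.s k32 k16 3 (.d k162 k227 k243 8
  12))))), (.s k243 k162 12 (.s k15 k91 13 (.s k5 k10 2 (.s k165 k245 11 (.d k166 k164 k12 0
  14))))), (.s k65 k130 8 (.s k105 k125 5 (.s k73 k121 3 (.s k77 k69 1 (.d k113 k97 k101 3 5)))))]
  .n) (.c k97 (.l (.s k65 k130 8 (.s k105 k125 5 (.s k73 k121 3 (.s k12 k134 10 (.d k243 k162 k166
  12 14)))))) (.c k150 (.l (.s k130 k65 8 (.s k162 k243 12 (.s k146 k178 3 (.s k16 k211 8 (.d k48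
  k32 k97 3 12)))))) (.c k167 (.q k87 [(.s k86 k84 0 (.s k83 k92 2 (.s k80 k82 0 (.d k95 k91 k90 1
  2)))), (.s k65 k130 8 (.s k97 k113 3 (.s k48 k146 12 (.s k32 k16 3 (.d k162 k227 k243 8 12)))))]
  .n) .n))))))

def s7_170_248 : T TT 256 :=
  (.q k1 [(.s k3 k2 0 (.s k161 k241 11 (.s k162 k243 12 (.s k160 k163 0 (.d k240 k80 k82 11 12))))),
  (.s k89 k93 1 (.s k169 k253 13 (.s k9 k249 11 (.s k13 k5 1 (.d k241 k161 k165 11 13))))), (.s k3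
  k2 0 (.s k89 k93 1 (.s k169 k253 13 (.s k86 k252 14 (.s k83 k92 2 (.d k243 k163 k162 11 12))))))]
  .n)

def s7_170_249 : T TT 256 :=
  (.q k1 [(.s k3 k2 0 (.s k161 k241 11 (.s k82 k240 12 (.s k83 k80 0 (.d k243 k163 k162 11 12))))),
  (.s k89 k93 1 (.s k241 k161 11 (.s k13 k165 13 (.s k5 k9 1 (.s k15 k10 2 (.s k243 k162 12 (.d k12
  k166 k14 14 0))))))), (.s k3 k2 0 (.s k89 k93 1 (.s k161 k241 11 (.s k82 k240 12 (.s k83 k80 0 (.s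
  k86 k92 2 (.d k169 k253 k252 13 14)))))))] (.c k86 (.l (.s k161 k241 11 (.s k162 k243 12 (.s k160
  k163 0 (.s k240 k80 11 (.d k3 k2 k82 0 12)))))) (.c k161 (.l (.s k3 k2 0 (.s k89 k93 1 (.s k169
  k253 13 (.s k86 k252 14 (.s k83 k92 2 (.d k243 k163 k162 11 12))))))) (.c k241 (.l (.s k3 k2 0 (.s
  k89 k93 1 (.s k243 k162 12 (.s k83 k163 11 (.s k86 k92 2 (.d k169 k253 k252 13 14))))))) (.c k243
  (.l (.s k3 k2 0 (.s k161 k241 11 (.s k240 k82 12 (.s k80 k160 11 (.s k90 k95 2 (.s k165 k15 14 (.d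
  k169 k253 k173 13 1)))))))) .n)))))

def s7_170_250 : T TT 256 :=
  (.q k90 [(.s k80 k95 2 (.s k83 k82 0 (.s k89 k93 1 (.s k88 k91 0 (.d k92 k84 k86 1 2))))), (.s k89
  k93 1 (.s k91 k88 0 (.s k243 k162 12 (.s k15 k167 13 (.s k5 k10 2 (.d k165 k245 k240 11 14)))))),
  (.s k80 k95 2 (.s k82 k83 0 (.s k162 k243 12 (.s k2 k242 11 (.s k3 k1 0 (.d k240 k160 k161 11
  12))))))] (.c k91 (.l (.s k80 k95 2 (.s k89 k93 1 (.s k240 k160 11 (.s k165 k15 14 (.s k241 k13 13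
  (.d k243 k242 k162 0 12))))))) .n))

def s7_170_251 : T TT 256 :=
  (.q k64 [(.s k89 k93 1 (.s k115 k98 4 (.s k102 k76 6 (.s k119 k68 4 (.d k127 k123 k106 1 6))))),
  (.s k98 k115 4 (.s k162 k243 12 (.s k34 k226 7 (.s k51 k17 4 (.d k192 k128 k145 7 12))))), (.s k89
  k93 1 (.s k106 k127 6 (.s k123 k72 4 (.s k192 k128 7 (.s k243 k162 12 (.d k63 k149 k183 14
  9))))))] (.c k8 (.l (.s k89 k93 1 (.s k106 k127 6 (.s k72 k123 4 (.s k76 k68 1 (.d k115 k98 k102 4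
  6)))))) (.c k89 (.q k8 [(.s k98 k115 4 (.s k192 k128 7 (.s k51 k145 12 (.s k34 k17 4 (.d k162 k226
  k243 7 12))))), (.s k12 k4 1 (.s k192 k128 7 (.s k72 k132 9 (.s k136 k200 7 (.d k68 k76 k204 1
  9))))), (.s k4 k12 1 (.s k98 k115 4 (.s k106 k127 6 (.s k166 k247 12 (.s k226 k46 9 (.d k162 k243
  k34 12 7))))))] (.c k76 (.l (.s k192 k128 7 (.s k243 k162 12 (.s k209 k226 4 (.s k145 k17 7 (.d
  k98 k115 k51 4 12)))))) .n)) .n)))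

def s7_170_252 : T TT 256 :=
  (.q k1 [(.s k3 k2 0 (.s k161 k241 11 (.s k82 k240 12 (.s k83 k80 0 (.d k243 k163 k162 11 12))))),
  (.s k89 k93 1 (.s k169 k253 13 (.s k9 k249 11 (.s k13 k5 1 (.d k241 k161 k165 11 13))))), (.s k3
  k2 0 (.s k89 k93 1 (.s k169 k253 13 (.s k243 k162 12 (.s k163 k83 11 (.d k166 k172 k12 2 14)))))),
  (.s k89 k93 1 (.s k241 k161 11 (.s k13 k165 13 (.s k9 k5 1 (.d k169 k249 k253 11 13)))))] .n)

def s7_170_253 : T TT 256 :=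
  (.q k16 [(.s k48 k32 3 (.s k146 k211 8 (.s k97 k195 12 (.s k113 k65 3 (.d k243 k178 k162 8
  12))))), (.s k89 k93 1 (.s k154 k223 10 (.s k24 k219 8 (.s k28 k20 1 (.d k211 k146 k150 8 10))))),
  (.s k48 k32 3 (.s k89 k93 1 (.s k154 k223 10 (.s k101 k207 14 (.s k113 k77 5 (.d k243 k178 k162 8
  12))))))] .n)

def s7_170_254 : T TT 256 :=
  (.q k1 [(.s k161 k241 11 (.s k162 k243 12 (.s k160 k163 0 (.s k240 k80 11 (.d k3 k2 k82 0 12))))),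
  (.s k89 k93 1 (.s k169 k253 13 (.s k9 k249 11 (.s k13 k5 1 (.d k241 k161 k165 11 13))))), (.s k89
  k93 1 (.s k169 k253 13 (.s k243 k162 12 (.s k166 k12 14 (.s k163 k172 2 (.d k3 k2 k83 0 11))))))]
  (.c k2 (.q k86 [(.s k84 k87 0 (.s k169 k253 13 (.d k252 k168 k3 13 14))), (.s k87 k84 0 (.s k89
  k93 1 (.s k83 k92 2 (.s k80 k82 0 (.d k95 k91 k90 1 2))))), (.s k89 k93 1 (.s k83 k92 2 (.s k169
  k253 13 (.s k243 k162 12 (.d k3 k252 k163 14 11)))))] .n) (.c k86 (.l (.s k2 k3 0 (.s k89 k93 1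
  (.s k169 k253 13 (.s k9 k249 11 (.s k13 k5 1 (.d k241 k161 k165 11 13))))))) .n)))

def s7_170_255 : T TT 256 :=
  (.q k1 [(.s k3 k2 0 (.s k161 k241 11 (.s k82 k240 12 (.s k83 k80 0 (.d k243 k163 k162 11 12))))),
  (.s k89 k93 1 (.s k241 k161 11 (.s k13 k165 13 (.s k9 k5 1 (.d k169 k249 k253 11 13)))))] (.c k86
  (.l (.s k89 k93 1 (.s k169 k253 13 (.s k9 k249 11 (.s k13 k5 1 (.d k241 k161 k165 11 13)))))) (.c
  k161 (.l (.s k3 k2 0 (.s k89 k93 1 (.s k169 k253 13 (.s k9 k249 11 (.s k12 k6 2 (.d k243 k162 k166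
  12 14))))))) (.c k241 (.l (.s k3 k2 0 (.s k89 k93 1 (.s k169 k253 13 (.s k243 k162 12 (.s k83 k163
  11 (.d k86 k252 k92 14 2))))))) .n))))

def t7_170 : T TT 256 :=
  (.q k81 [] (.c k1 s7_170_1 (.c k2 s7_170_2 (.c k3 s7_170_3 (.c k4 s7_170_4 (.c k5 s7_170_5 (.c k6
  s7_170_6 (.c k8 s7_170_8 (.c k9 s7_170_9 (.c k10 s7_170_10 (.c k11 s7_170_11 (.c k12 s7_170_12 (.c
  k13 s7_170_13 (.c k14 s7_170_14 (.c k15 s7_170_15 (.c k16 s7_170_16 (.c k17 s7_170_17 (.c k18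
  s7_170_18 (.c k19 s7_170_19 (.c k20 s7_170_20 (.c k21 s7_170_21 (.c k22 s7_170_22 (.c k23
  s7_170_23 (.c k24 s7_170_24 (.c k25 s7_170_25 (.c k26 s7_170_26 (.c k27 s7_170_27 (.c k28
  s7_170_28 (.c k29 s7_170_29 (.c k30 s7_170_30 (.c k31 s7_170_31 (.c k32 s7_170_32 (.c k33
  s7_170_33 (.c k34 s7_170_34 (.c k35 s7_170_35 (.c k36 s7_170_36 (.c k37 s7_170_37 (.c k38
  s7_170_38 (.c k39 s7_170_39 (.c k40 s7_170_40 (.c k41 s7_170_41 (.c k42 s7_170_42 (.c k43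
  s7_170_43 (.c k44 s7_170_44 (.c k45 s7_170_45 (.c k46 s7_170_46 (.c k47 s7_170_47 (.c k48
  s7_170_48 (.c k49 s7_170_49 (.c k50 s7_170_50 (.c k51 s7_170_51 (.c k52 s7_170_52 (.c k53
  s7_170_53 (.c k54 s7_170_54 (.c k55 s7_170_55 (.c k56 s7_170_56 (.c k57 s7_170_57 (.c k58
  s7_170_58 (.c k59 s7_170_59 (.c k60 s7_170_60 (.c k61 s7_170_61 (.c k62 s7_170_62 (.c k63
  s7_170_63 (.c k64 s7_170_64 (.c k65 s7_170_65 (.c k66 s7_170_66 (.c k67 s7_170_67 (.c k68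
  s7_170_68 (.c k69 s7_170_69 (.c k70 s7_170_70 (.c k71 s7_170_71 (.c k72 s7_170_72 (.c k73
  s7_170_73 (.c k74 s7_170_74 (.c k75 s7_170_75 (.c k76 s7_170_76 (.c k77 s7_170_77 (.c k78
  s7_170_78 (.c k79 s7_170_79 (.c k80 s7_170_80 (.c k82 s7_170_82 (.c k83 s7_170_83 (.c k84
  s7_170_84 (.c k86 s7_170_86 (.c k87 s7_170_87 (.c k88 s7_170_88 (.c k89 s7_170_89 (.c k90
  s7_170_90 (.c k91 s7_170_91 (.c k92 s7_170_92 (.c k93 s7_170_93 (.c k94 s7_170_94 (.c k95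
  s7_170_95 (.c k96 s7_170_96 (.c k97 s7_170_97 (.c k98 s7_170_98 (.c k99 s7_170_99 (.c k100
  s7_170_100 (.c k101 s7_170_101 (.c k102 s7_170_102 (.c k103 s7_170_103 (.c k104 s7_170_104 (.c
  k105 s7_170_105 (.c k106 s7_170_106 (.c k107 s7_170_107 (.c k108 s7_170_108 (.c k109 s7_170_109
  (.c k110 s7_170_110 (.c k111 s7_170_111 (.c k112 s7_170_112 (.c k113 s7_170_113 (.c k114
  s7_170_114 (.c k115 s7_170_115 (.c k116 s7_170_116 (.c k117 s7_170_117 (.c k118 s7_170_118 (.c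
  k119 s7_170_119 (.c k120 s7_170_120 (.c k121 s7_170_121 (.c k122 s7_170_122 (.c k123 s7_170_123
  (.c k124 s7_170_124 (.c k125 s7_170_125 (.c k126 s7_170_126 (.c k127 s7_170_127 (.c k128
  s7_170_128 (.c k129 s7_170_129 (.c k130 s7_170_130 (.c k131 s7_170_131 (.c k132 s7_170_132 (.c
  k133 s7_170_133 (.c k134 s7_170_134 (.c k135 s7_170_135 (.c k136 s7_170_136 (.c k137 s7_170_137
  (.c k138 s7_170_138 (.c k139 s7_170_139 (.c k140 s7_170_140 (.c k141 s7_170_141 (.c k142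
  s7_170_142 (.c k143 s7_170_143 (.c k144 s7_170_144 (.c k145 s7_170_145 (.c k146 s7_170_146 (.c
  k147 s7_170_147 (.c k148 s7_170_148 (.c k149 s7_170_149 (.c k150 s7_170_150 (.c k151 s7_170_151
  (.c k152 s7_170_152 (.c k153 s7_170_153 (.c k154 s7_170_154 (.c k155 s7_170_155 (.c k156
  s7_170_156 (.c k157 s7_170_157 (.c k158 s7_170_158 (.c k159 s7_170_159 (.c k160 s7_170_160 (.c
  k161 s7_170_161 (.c k162 s7_170_162 (.c k163 s7_170_163 (.c k164 s7_170_164 (.c k165 s7_170_165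
  (.c k166 s7_170_166 (.c k167 s7_170_167 (.c k168 s7_170_168 (.c k169 s7_170_169 (.c k171
  s7_170_171 (.c k172 s7_170_172 (.c k173 s7_170_173 (.c k174 s7_170_174 (.c k175 s7_170_175 (.c
  k176 s7_170_176 (.c k177 s7_170_177 (.c k178 s7_170_178 (.c k179 s7_170_179 (.c k180 s7_170_180
  (.c k181 s7_170_181 (.c k182 s7_170_182 (.c k183 s7_170_183 (.c k184 s7_170_184 (.c k185
  s7_170_185 (.c k186 s7_170_186 (.c k187 s7_170_187 (.c k188 s7_170_188 (.c k189 s7_170_189 (.c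
  k190 s7_170_190 (.c k191 s7_170_191 (.c k192 s7_170_192 (.c k193 s7_170_193 (.c k194 s7_170_194
  (.c k195 s7_170_195 (.c k196 s7_170_196 (.c k197 s7_170_197 (.c k198 s7_170_198 (.c k199
  s7_170_199 (.c k200 s7_170_200 (.c k201 s7_170_201 (.c k202 s7_170_202 (.c k203 s7_170_203 (.c
  k204 s7_170_204 (.c k205 s7_170_205 (.c k206 s7_170_206 (.c k207 s7_170_207 (.c k208 s7_170_208
  (.c k209 s7_170_209 (.c k210 s7_170_210 (.c k211 s7_170_211 (.c k212 s7_170_212 (.c k213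
  s7_170_213 (.c k214 s7_170_214 (.c k215 s7_170_215 (.c k216 s7_170_216 (.c k217 s7_170_217 (.c
  k218 s7_170_218 (.c k219 s7_170_219 (.c k220 s7_170_220 (.c k221 s7_170_221 (.c k222 s7_170_222
  (.c k223 s7_170_223 (.c k224 s7_170_224 (.c k225 s7_170_225 (.c k226 s7_170_226 (.c k227
  s7_170_227 (.c k228 s7_170_228 (.c k229 s7_170_229 (.c k230 s7_170_230 (.c k231 s7_170_231 (.c
  k232 s7_170_232 (.c k233 s7_170_233 (.c k234 s7_170_234 (.c k235 s7_170_235 (.c k236 s7_170_236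
  (.c k237 s7_170_237 (.c k238 s7_170_238 (.c k239 s7_170_239 (.c k240 s7_170_240 (.c k241
  s7_170_241 (.c k242 s7_170_242 (.c k243 s7_170_243 (.c k244 s7_170_244 (.c k245 s7_170_245 (.c
  k246 s7_170_246 (.c k247 s7_170_247 (.c k248 s7_170_248 (.c k249 s7_170_249 (.c k250 s7_170_250
  (.c k251 s7_170_251 (.c k252 s7_170_252 (.c k253 s7_170_253 (.c k254 s7_170_254 (.c k255
  s7_170_255 .n))))))))))))))))))))))))))))))))))))))))))))))))))))))))))))))))))))))))))))))))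
  ))))))))))))))))))))))))))))))))))))))))))))))))))))))))))))))))))))))))))))))))
  )))))))))))))))))))))))))))))))))))))))))))))))))))))))))))))))))))))))))))))))) ))))))))))))

def s7_255_1 : T TT 256 :=
  (.q k16 [(.s k19 k18 0 (.s k223 k154 10 (.s k87 k155 9 (.s k86 k84 0 (.d k153 k221 k220 9 10))))),
  (.s k48 k32 3 (.s k51 k34 4 (.s k50 k49 0 (.s k154 k223 10 (.s k102 k206 13 (.s k68 k119 4 (.d
  k204 k136 k153 9 14))))))), (.s k19 k18 0 (.s k48 k32 3 (.s k51 k34 4 (.s k153 k221 9 (.s k204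
  k102 14 (.s k152 k100 13 (.d k220 k84 k86 9 10)))))))] (.c k153 (.l (.s k18 k19 0 (.s k48 k32 3
  (.s k3 k33 4 (.s k154 k223 10 (.s k86 k222 9 (.s k252 k169 14 (.d k84 k87 k168 0 13)))))))) .n))

def s7_255_2 : T TT 256 :=
  (.q k16 [(.s k18 k19 0 (.s k48 k32 3 (.s k51 k34 4 (.s k49 k50 0 (.d k33 k1 k3 3 4))))), (.s k153
  k221 9 (.s k154 k223 10 (.s k152 k155 0 (.s k220 k84 9 (.d k19 k18 k86 0 10)))))] (.c k18 (.l (.s
  k48 k32 3 (.s k51 k34 4 (.s k50 k49 0 (.s k153 k221 9 (.s k154 k223 10 (.d k102 k204 k206 14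
  13))))))) (.c k19 (.l (.s k48 k32 3 (.s k51 k34 4 (.s k50 k49 0 (.s k153 k221 9 (.s k154 k223 10
  (.d k102 k204 k206 14 13))))))) .n)))

def s7_255_3 : T TT 256 :=
  (.f k51 k34 4 (.q k15 [(.s k5 k10 2 (.s k39 k27 5 (.s k165 k245 11 (.s k102 k228 8 (.d k153 k221
  k204 9 14))))), (.s k27 k39 5 (.s k153 k221 9 (.s k90 k216 8 (.s k80 k95 2 (.d k240 k160 k165 11
  14))))), (.s k5 k10 2 (.s k165 k245 11 (.s k240 k90 14 (.s k177 k114 8 (.d k153 k141 k221 5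
  9)))))] (.c k87 (.q k171 [(.s k5 k10 2 (.s k39 k27 5 (.s k165 k245 11 (.s k102 k228 8 (.d k153
  k221 k204 9 14))))), (.s k27 k39 5 (.s k153 k221 9 (.s k90 k216 8 (.s k80 k95 2 (.d k240 k160 k165
  11 14))))), (.s k5 k10 2 (.s k165 k245 11 (.s k240 k90 14 (.s k177 k114 8 (.d k153 k141 k221 5
  9)))))] (.c k153 (.f k5 k10 2 (.l (.s k39 k27 5 (.s k165 k245 11 (.s k102 k228 8 (.s k68 k119 4
  (.s k204 k136 9 (.s k78 k141 8 (.d k90 k240 k114 14 5))))))))) (.c k165 (.l (.s k10 k5 2 (.s k27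
  k39 5 (.s k153 k221 9 (.s k90 k216 8 (.s k170 k250 11 (.s k136 k187 4 (.d k204 k102 k68 14
  9)))))))) (.c k167 (.q k247 [(.s k5 k10 2 (.s k39 k27 5 (.s k165 k245 11 (.s k102 k228 8 (.d k153
  k221 k204 9 14))))), (.s k4 k166 12 (.s k5 k10 2 (.s k12 k8 1 (.s k13 k14 0 (.s k25 k38 6 (.s k21
  k29 1 (.d k37 k53 k49 3 5))))))), (.s k27 k39 5 (.s k153 k221 9 (.s k90 k216 8 (.s k80 k95 2 (.d
  k240 k160 k165 11 14)))))] (.c k165 (.l (.s k153 k221 9 (.s k166 k4 12 (.s k179 k140 6 (.s k243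
  k115 7 (.s k81 k162 12 (.d k89 k93 k12 1 14))))))) .n)) (.c k221 (.l (.s k5 k10 2 (.s k39 k27 5
  (.s k165 k245 11 (.s k102 k228 8 (.s k68 k119 4 (.d k204 k136 k153 9 14))))))) (.c k240 (.l (.s k5
  k10 2 (.s k153 k221 9 (.s k204 k102 14 (.s k141 k78 8 (.d k165 k177 k245 5 11)))))) (.c k247 (.q
  k167 [(.s k5 k10 2 (.s k27 k39 5 (.s k153 k221 9 (.s k90 k216 8 (.d k165 k245 k240 11 14))))), (.s
  k39 k27 5 (.s k103 k231 7 (.s k155 k207 13 (.s k179 k143 5 (.d k243 k115 k91 7 13))))), (.s k5 k10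
  2 (.s k153 k221 9 (.s k165 k245 11 (.s k141 k177 5 (.d k204 k78 k102 8 14)))))] (.c k243 (.q k251
  [(.s k5 k10 2 (.s k165 k245 11 (.s k240 k90 14 (.s k160 k80 11 (.d k175 k163 k170 1 2))))), (.s
  k27 k39 5 (.s k91 k11 11 (.s k155 k219 7 (.s k143 k179 5 (.d k207 k79 k103 7 13)))))] (.c k83 (.l
  (.s k163 k175 1 (.s k5 k10 2 (.s k27 k39 5 (.s k153 k221 9 (.s k90 k216 8 (.d k165 k245 k240 11
  14))))))) (.c k163 (.q k83 [(.s k5 k10 2 (.s k27 k39 5 (.s k153 k221 9 (.s k90 k216 8 (.d k165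
  k245 k240 11 14))))), (.s k27 k39 5 (.s k91 k11 11 (.s k155 k219 7 (.s k143 k179 5 (.d k207 k79
  k103 7 13))))), (.s k5 k10 2 (.s k153 k221 9 (.s k165 k245 11 (.s k141 k177 5 (.d k204 k78 k102 8
  14)))))] .n) .n))) (.c k251 (.l (.s k243 k91 13 (.s k39 k27 5 (.s k103 k231 7 (.s k155 k207 13 (.d
  k179 k143 k115 5 7)))))) .n))) .n))))))) (.c k153 (.f k5 k10 2 (.l (.s k39 k27 5 (.s k165 k245 11
  (.s k102 k228 8 (.s k68 k119 4 (.s k204 k136 9 (.s k78 k141 8 (.d k90 k240 k114 14 5))))))))) (.c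
  k165 (.l (.s k10 k5 2 (.s k27 k39 5 (.s k153 k221 9 (.s k90 k216 8 (.s k170 k250 11 (.s k136 k187
  4 (.d k204 k102 k68 14 9)))))))) (.c k171 (.q k87 [(.s k5 k10 2 (.s k39 k27 5 (.s k165 k245 11 (.s
  k102 k228 8 (.d k153 k221 k204 9 14))))), (.s k86 k84 0 (.s k153 k221 9 (.s k19 k220 10 (.s k16
  k18 0 (.d k223 k155 k154 9 10)))))] (.c k153 (.q k1 [(.s k5 k10 2 (.s k13 k9 1 (.s k12 k14 0 (.s
  k25 k38 6 (.d k49 k33 k37 3 5))))), (.s k49 k33 3 (.s k84 k86 0 (.s k252 k168 13 (.s k185 k118 10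
  (.d k253 k169 k117 13 9))))), (.s k5 k10 2 (.s k13 k9 1 (.s k84 k86 0 (.s k252 k168 13 (.s k173
  k94 12 (.d k253 k169 k93 13 11))))))] .n) (.c k204 (.l (.s k5 k10 2 (.s k165 k245 11 (.s k240 k90
  14 (.s k177 k114 8 (.d k153 k141 k221 5 9)))))) (.c k221 (.l (.s k5 k10 2 (.s k39 k27 5 (.s k165
  k245 11 (.s k102 k228 8 (.s k68 k119 4 (.d k204 k136 k153 9 14))))))) .n)))) (.c k221 (.l (.s k5
  k10 2 (.s k39 k27 5 (.s k165 k245 11 (.s k102 k228 8 (.s k68 k119 4 (.d k204 k136 k153 9 14)))))))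
  (.c k240 (.l (.s k5 k10 2 (.s k153 k221 9 (.s k204 k102 14 (.s k141 k78 8 (.d k165 k177 k245 5
  11)))))) .n))))))))

def s7_255_4 : T TT 256 :=
  (.f k51 k34 4 (.q k101 [(.s k69 k117 3 (.s k153 k221 9 (.s k207 k138 10 (.s k103 k155 13 (.d k102
  k204 k100 14 0))))), (.s k117 k69 3 (.s k153 k221 9 (.s k49 k205 13 (.s k1 k33 3 (.d k253 k185
  k169 9 13))))), (.s k69 k117 3 (.s k207 k138 10 (.s k48 k154 14 (.s k16 k32 3 (.s k18 k19 0 (.s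
  k33 k3 4 (.d k49 k50 k1 0 3))))))), (.s k153 k221 9 (.s k49 k205 13 (.s k48 k50 0 (.s k16 k32 3
  (.d k154 k223 k207 10 14)))))] (.c k5 (.q k6 [(.s k69 k117 3 (.s k153 k221 9 (.s k207 k138 10 (.s
  k103 k155 13 (.d k102 k204 k100 14 0))))), (.s k117 k69 3 (.s k153 k221 9 (.s k49 k205 13 (.s k1
  k33 3 (.d k253 k185 k169 9 13))))), (.s k69 k117 3 (.s k207 k138 10 (.s k48 k154 14 (.s k16 k32 3
  (.s k18 k19 0 (.s k33 k3 4 (.d k49 k50 k1 0 3))))))), (.s k153 k221 9 (.s k49 k205 13 (.s k48 k50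
  0 (.s k16 k32 3 (.d k154 k223 k207 10 14)))))] .n) (.c k6 (.q k5 [(.s k15 k10 2 (.s k39 k27 5 (.s
  k165 k245 11 (.s k102 k228 8 (.d k153 k221 k204 9 14))))), (.s k69 k117 3 (.s k153 k221 9 (.s k49
  k205 13 (.s k207 k138 10 (.d k48 k50 k154 0 14))))), (.s k69 k117 3 (.s k165 k245 11 (.s k37 k229
  7 (.s k53 k21 3 (.d k197 k133 k149 7 11)))))] .n) .n))))

def s7_255_5 : T TT 256 :=
  (.f k51 k34 4 (.q k4 [(.s k12 k8 1 (.s k153 k221 9 (.s k204 k102 14 (.s k140 k76 7 (.d k166 k179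
  k247 6 12))))), (.s k12 k8 1 (.s k38 k25 6 (.s k55 k21 4 (.s k166 k247 12 (.s k102 k230 7 (.s k68
  k119 4 (.d k196 k132 k149 7 12))))))), (.s k12 k8 1 (.s k25 k38 6 (.s k29 k21 1 (.s k153 k221 9
  (.s k89 k217 7 (.s k81 k93 1 (.d k209 k145 k149 7 9)))))))] (.c k8 (.l (.s k153 k221 9 (.s k166
  k247 12 (.s k179 k140 6 (.s k243 k115 7 (.s k81 k162 12 (.d k89 k93 k12 1 14))))))) (.c k12 (.f
  k153 k221 9 (.l (.s k166 k247 12 (.s k179 k140 6 (.s k204 k102 14 (.s k136 k68 9 (.s k170 k187 4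
  (.s k243 k115 7 (.d k162 k174 k81 1 12))))))))) .n))))

def s7_255_6 : T TT 256 :=
  (.f k51 k34 4 (.q k166 [(.s k153 k221 9 (.s k140 k179 6 (.s k204 k102 14 (.s k12 k76 7 (.d k4 k8
  k247 1 12))))), (.s k4 k247 12 (.s k12 k8 1 (.s k38 k25 6 (.s k55 k21 4 (.s k102 k230 7 (.s k68
  k119 4 (.d k196 k132 k149 7 12))))))), (.s k153 k221 9 (.s k179 k140 6 (.s k243 k115 7 (.s k81
  k162 12 (.d k89 k93 k12 1 14)))))] (.c k4 (.q k5 [(.s k153 k221 9 (.s k165 k245 11 (.s k141 k177 5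
  (.s k204 k102 14 (.d k15 k10 k78 2 8))))), (.s k153 k221 9 (.s k179 k140 6 (.s k243 k115 7 (.s k81
  k162 12 (.d k89 k93 k12 1 14))))), (.s k15 k10 2 (.s k165 k245 11 (.s k167 k164 0 (.s k243 k91 13
  (.s k81 k162 12 (.d k89 k93 k12 1 14))))))] .n) (.c k5 (.l (.s k4 k247 12 (.s k12 k8 1 (.s k25 k38
  6 (.s k153 k221 9 (.d k89 k243 k217 14 7)))))) (.c k12 (.l (.s k153 k221 9 (.s k179 k140 6 (.s
  k204 k102 14 (.s k136 k68 9 (.s k170 k187 4 (.s k243 k115 7 (.d k162 k174 k81 1 12)))))))) .n)))))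

def s7_255_8 : T TT 256 :=
  (.q k1 [(.s k3 k2 0 (.s k33 k49 3 (.s k18 k48 4 (.s k19 k16 0 (.d k51 k35 k34 3 4))))), (.s k49
  k33 3 (.s k153 k221 9 (.s k101 k205 13 (.s k117 k69 3 (.d k253 k185 k169 9 13))))), (.s k3 k2 0
  (.s k51 k34 4 (.s k35 k19 3 (.s k153 k221 9 (.s k169 k253 13 (.d k102 k204 k236 14 10))))))] .n)

def s7_255_9 : T TT 256 :=
  (.q k1 [(.s k3 k2 0 (.s k33 k49 3 (.s k18 k48 4 (.s k19 k16 0 (.d k51 k35 k34 3 4))))), (.s k49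
  k33 3 (.s k153 k221 9 (.s k101 k205 13 (.s k117 k69 3 (.d k253 k185 k169 9 13))))), (.s k3 k2 0
  (.s k51 k34 4 (.s k35 k19 3 (.s k153 k221 9 (.s k169 k253 13 (.d k102 k204 k236 14 10))))))] .n)

def s7_255_10 : T TT 256 :=
  (.q k1 [(.s k49 k33 3 (.s k153 k221 9 (.s k101 k205 13 (.s k117 k69 3 (.d k253 k185 k169 9
  13))))), (.s k33 k49 3 (.s k34 k51 4 (.s k32 k35 0 (.s k48 k16 3 (.d k3 k2 k18 0 4))))), (.s k3 k2
  0 (.s k51 k34 4 (.s k35 k19 3 (.s k153 k221 9 (.s k169 k253 13 (.d k102 k204 k236 14 10))))))] .n)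

def s7_255_11 : T TT 256 :=
  (.q k3 [(.s k1 k2 0 (.s k33 k49 3 (.s k18 k48 4 (.s k19 k16 0 (.d k51 k35 k34 3 4))))), (.s k51
  k34 4 (.s k19 k35 3 (.s k153 k221 9 (.s k86 k220 10 (.s k84 k87 0 (.d k252 k168 k169 13 14)))))),
  (.s k1 k2 0 (.s k49 k33 3 (.s k153 k221 9 (.s k101 k205 13 (.s k117 k69 3 (.d k253 k185 k169 9
  13))))))] (.c k33 (.l (.s k1 k2 0 (.s k51 k34 4 (.s k35 k19 3 (.s k153 k221 9 (.s k169 k253 13 (.d
  k102 k204 k236 14 10))))))) .n))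

def s7_255_12 : T TT 256 :=
  (.q k81 [(.s k209 k145 7 (.s k221 k153 9 (.s k213 k217 1 (.s k149 k21 7 (.d k89 k93 k29 1 9))))),
  (.s k51 k34 4 (.s k145 k209 7 (.s k98 k192 12 (.s k115 k64 4 (.d k243 k179 k162 7 12))))), (.s k51
  k34 4 (.s k153 k221 9 (.s k204 k102 14 (.s k243 k162 12 (.s k217 k230 6 (.d k89 k93 k25 1 7))))))]
  (.c k93 (.q k174 [(.s k51 k34 4 (.s k145 k209 7 (.s k98 k192 12 (.s k115 k64 4 (.d k243 k179 k162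
  7 12))))), (.s k51 k34 4 (.s k153 k221 9 (.s k162 k243 12 (.s k204 k102 14 (.s k136 k68 9 (.d k170
  k166 k187 1 4)))))), (.s k145 k209 7 (.s k153 k221 9 (.s k162 k243 12 (.s k166 k170 1 (.d k179
  k128 k140 4 6)))))] (.c k162 (.l (.s k51 k34 4 (.s k145 k209 7 (.s k98 k192 12 (.s k64 k115 4 (.s
  k106 k127 6 (.s k153 k221 9 (.d k102 k110 k204 1 14)))))))) (.c k243 (.l (.s k51 k34 4 (.s k145
  k209 7 (.s k153 k221 9 (.s k192 k98 12 (.s k64 k128 7 (.s k106 k127 6 (.d k149 k157 k63 1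
  14)))))))) .n))) (.c k174 (.l (.s k93 k89 1 (.s k51 k34 4 (.s k145 k209 7 (.s k98 k192 12 (.s k115
  k64 4 (.d k243 k179 k162 7 12))))))) .n)))

def s7_255_13 : T TT 256 :=
  (.q k1 [(.s k3 k2 0 (.s k51 k34 4 (.s k19 k35 3 (.s k18 k16 0 (.d k33 k49 k48 3 4))))), (.s k49
  k33 3 (.s k153 k221 9 (.s k101 k205 13 (.s k117 k69 3 (.d k253 k185 k169 9 13))))), (.s k3 k2 0
  (.s k51 k34 4 (.s k35 k19 3 (.s k153 k221 9 (.s k169 k253 13 (.d k102 k204 k236 14 10))))))] .n)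

def s7_255_14 : T TT 256 :=
  (.q k1 [(.s k49 k33 3 (.s k153 k221 9 (.s k101 k205 13 (.s k117 k69 3 (.d k253 k185 k169 9
  13))))), (.s k33 k49 3 (.s k34 k51 4 (.s k32 k35 0 (.s k48 k16 3 (.d k3 k2 k18 0 4))))), (.s k3 k2
  0 (.s k51 k34 4 (.s k35 k19 3 (.s k153 k221 9 (.s k169 k253 13 (.d k102 k204 k236 14 10))))))] .n)

def s7_255_15 : T TT 256 :=
  (.f k51 k34 4 (.q k3 [(.s k1 k2 0 (.s k19 k35 3 (.s k18 k16 0 (.d k33 k49 k48 3 4)))), (.s k19 k35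
  3 (.s k153 k221 9 (.s k86 k220 10 (.s k84 k87 0 (.d k252 k168 k169 13 14))))), (.s k1 k2 0 (.s
  k153 k221 9 (.s k169 k253 13 (.s k137 k185 3 (.d k204 k70 k102 10 14)))))] (.c k95 (.q k175 [(.s
  k1 k2 0 (.s k19 k35 3 (.s k18 k16 0 (.d k33 k49 k48 3 4)))), (.s k19 k35 3 (.s k153 k221 9 (.s k86
  k220 10 (.s k84 k87 0 (.d k252 k168 k169 13 14))))), (.s k1 k2 0 (.s k153 k221 9 (.s k169 k253 13
  (.s k137 k185 3 (.d k204 k70 k102 10 14)))))] .n) (.c k175 (.q k95 [(.s k1 k2 0 (.s k19 k35 3 (.s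
  k18 k16 0 (.d k33 k49 k48 3 4)))), (.s k19 k35 3 (.s k153 k221 9 (.s k86 k220 10 (.s k84 k87 0 (.d
  k252 k168 k169 13 14))))), (.s k1 k2 0 (.s k153 k221 9 (.s k169 k253 13 (.s k137 k185 3 (.d k204
  k70 k102 10 14)))))] .n) .n))))

def s7_255_16 : T TT 256 :=
  (.q k1 [(.s k49 k33 3 (.s k253 k169 13 (.s k117 k185 9 (.s k101 k69 3 (.d k153 k221 k205 9
  13))))), (.s k3 k2 0 (.s k51 k34 4 (.s k35 k19 3 (.s k169 k253 13 (.s k102 k236 10 (.s k68 k119 4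
  (.d k204 k136 k153 9 14))))))), (.s k3 k2 0 (.s k49 k33 3 (.s k51 k34 4 (.s k153 k221 9 (.s k204
  k102 14 (.s k137 k70 10 (.d k205 k69 k101 9 13)))))))] (.c k153 (.l (.s k3 k2 0 (.s k33 k49 3 (.s
  k48 k18 4 (.s k169 k253 13 (.s k101 k237 9 (.s k207 k154 14 (.d k69 k117 k138 3 10)))))))) .n))

def s7_255_18 : T TT 256 :=
  (.q k21 [(.s k29 k25 1 (.s k149 k213 7 (.s k89 k209 9 (.s k93 k81 1 (.d k221 k157 k153 7 9))))),
  (.s k25 k29 1 (.s k42 k63 6 (.s k8 k59 4 (.s k12 k4 1 (.d k51 k34 k38 4 6))))), (.s k51 k34 4 (.s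
  k63 k42 6 (.s k59 k55 1 (.s k149 k213 7 (.s k153 k221 9 (.d k106 k192 k200 14 12))))))] .n)

def s7_255_19 : T TT 256 :=
  (.q k1 [(.s k3 k2 0 (.s k33 k49 3 (.s k48 k18 4 (.s k32 k16 3 (.d k34 k35 k51 0 4))))), (.s k49
  k33 3 (.s k153 k221 9 (.s k101 k205 13 (.s k117 k69 3 (.d k253 k185 k169 9 13))))), (.s k3 k2 0
  (.s k51 k34 4 (.s k153 k221 9 (.s k169 k253 13 (.s k185 k137 3 (.d k252 k118 k86 10 14))))))] .n)

def s7_255_20 : T TT 256 :=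
  (.q k1 [(.s k49 k33 3 (.s k153 k221 9 (.s k101 k205 13 (.s k117 k69 3 (.d k253 k185 k169 9
  13))))), (.s k3 k2 0 (.s k33 k49 3 (.s k34 k51 4 (.s k32 k35 0 (.d k48 k16 k18 3 4))))), (.s k3 k2
  0 (.s k51 k34 4 (.s k35 k19 3 (.s k153 k221 9 (.s k169 k253 13 (.d k102 k204 k236 14 10))))))] .n)

def s7_255_21 : T TT 256 :=
  (.q k1 [(.s k49 k33 3 (.s k153 k221 9 (.s k101 k205 13 (.s k117 k69 3 (.d k253 k185 k169 9
  13))))), (.s k3 k2 0 (.s k33 k49 3 (.s k34 k51 4 (.s k32 k35 0 (.d k48 k16 k18 3 4))))), (.s k3 k2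
  0 (.s k51 k34 4 (.s k35 k19 3 (.s k153 k221 9 (.s k169 k253 13 (.d k102 k204 k236 14 10))))))] .n)

def s7_255_22 : T TT 256 :=
  (.f k221 k153 9 (.f k51 k34 4 (.q k81 [(.s k89 k93 1 (.s k209 k145 7 (.s k149 k29 9 (.d k213 k217
  k21 1 7)))), (.s k145 k209 7 (.s k162 k243 12 (.s k128 k179 4 (.d k192 k64 k98 7 12)))), (.s k89
  k93 1 (.s k243 k162 12 (.s k12 k166 14 (.s k8 k4 1 (.s k25 k38 6 (.s k21 k29 1 (.d k42 k59 k63 4
  6)))))))] (.c k37 (.q k52 [(.s k89 k93 1 (.s k209 k145 7 (.s k149 k29 9 (.d k213 k217 k21 1 7)))),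
  (.s k145 k209 7 (.s k162 k243 12 (.s k128 k179 4 (.d k192 k64 k98 7 12)))), (.s k89 k93 1 (.s k243
  k162 12 (.s k12 k166 14 (.s k8 k4 1 (.s k25 k38 6 (.s k21 k29 1 (.d k42 k59 k63 4 6)))))))] .n)
  (.c k52 (.q k37 [(.s k89 k93 1 (.s k209 k145 7 (.s k149 k29 9 (.d k213 k217 k21 1 7)))), (.s k145
  k209 7 (.s k162 k243 12 (.s k128 k179 4 (.d k192 k64 k98 7 12)))), (.s k89 k93 1 (.s k243 k162 12
  (.s k12 k166 14 (.s k8 k4 1 (.s k25 k38 6 (.s k21 k29 1 (.d k42 k59 k63 4 6)))))))] .n) .n)))))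

def s7_255_23 : T TT 256 :=
  (.f k51 k34 4 (.q k63 [(.s k21 k42 6 (.s k25 k29 1 (.s k55 k59 1 (.d k38 k4 k12 4 6)))), (.s k153
  k221 9 (.s k204 k102 14 (.s k157 k110 12 (.s k149 k145 1 (.s k106 k192 14 (.d k59 k55 k200 1
  12))))))] (.c k39 (.l (.s k55 k59 1 (.s k21 k42 6 (.s k25 k29 1 (.d k38 k4 k12 4 6))))) (.c k55
  (.q k39 [(.s k15 k27 5 (.s k5 k10 2 (.s k165 k245 11 (.s k102 k228 8 (.d k153 k221 k204 9 14))))),
  (.s k21 k42 6 (.s k149 k213 7 (.s k153 k221 9 (.s k145 k157 1 (.d k192 k98 k106 12 14))))), (.s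
  k15 k27 5 (.s k5 k10 2 (.s k21 k42 6 (.s k25 k29 1 (.s k37 k53 3 (.d k38 k36 k12 0 6))))))] .n)
  (.c k59 (.l (.s k21 k42 6 (.s k149 k213 7 (.s k153 k221 9 (.s k145 k157 1 (.d k192 k98 k106 12
  14)))))) .n)))))

def s7_255_24 : T TT 256 :=
  (.q k1 [(.s k49 k33 3 (.s k153 k221 9 (.s k101 k205 13 (.s k117 k69 3 (.d k253 k185 k169 9
  13))))), (.s k3 k2 0 (.s k33 k49 3 (.s k34 k51 4 (.s k32 k35 0 (.d k48 k16 k18 3 4))))), (.s k3 k2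
  0 (.s k51 k34 4 (.s k35 k19 3 (.s k153 k221 9 (.s k169 k253 13 (.d k102 k204 k236 14 10))))))] .n)

def s7_255_25 : T TT 256 :=
  (.q k1 [(.s k3 k2 0 (.s k51 k34 4 (.s k19 k35 3 (.s k18 k16 0 (.d k33 k49 k48 3 4))))), (.s k49
  k33 3 (.s k153 k221 9 (.s k101 k205 13 (.s k117 k69 3 (.d k253 k185 k169 9 13))))), (.s k3 k2 0
  (.s k51 k34 4 (.s k35 k19 3 (.s k153 k221 9 (.s k169 k253 13 (.d k102 k204 k236 14 10))))))] .n)

def s7_255_26 : T TT 256 :=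
  (.q k1 [(.s k49 k33 3 (.s k153 k221 9 (.s k101 k205 13 (.s k117 k69 3 (.d k253 k185 k169 9
  13))))), (.s k3 k2 0 (.s k33 k49 3 (.s k34 k51 4 (.s k32 k35 0 (.d k48 k16 k18 3 4))))), (.s k3 k2
  0 (.s k51 k34 4 (.s k35 k19 3 (.s k153 k221 9 (.s k169 k253 13 (.d k102 k204 k236 14 10))))))] .n)

def s7_255_27 : T TT 256 :=
  (.q k1 [(.s k3 k2 0 (.s k33 k49 3 (.s k18 k48 4 (.s k19 k16 0 (.d k51 k35 k34 3 4))))), (.s k49
  k33 3 (.s k153 k221 9 (.s k101 k205 13 (.s k117 k69 3 (.d k253 k185 k169 9 13))))), (.s k3 k2 0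
  (.s k51 k34 4 (.s k35 k19 3 (.s k153 k221 9 (.s k169 k253 13 (.d k102 k204 k236 14 10))))))] .n)

def s7_255_28 : T TT 256 :=
  (.q k1 [(.s k49 k33 3 (.s k153 k221 9 (.s k101 k205 13 (.s k117 k69 3 (.d k253 k185 k169 9
  13))))), (.s k3 k2 0 (.s k33 k49 3 (.s k34 k51 4 (.s k32 k35 0 (.d k48 k16 k18 3 4))))), (.s k3 k2
  0 (.s k51 k34 4 (.s k35 k19 3 (.s k153 k221 9 (.s k169 k253 13 (.d k102 k204 k236 14 10))))))] .n)

def s7_255_29 : T TT 256 :=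
  (.q k1 [(.s k3 k2 0 (.s k33 k49 3 (.s k18 k48 4 (.s k19 k16 0 (.d k51 k35 k34 3 4))))), (.s k49
  k33 3 (.s k153 k221 9 (.s k101 k205 13 (.s k117 k69 3 (.d k253 k185 k169 9 13))))), (.s k3 k2 0
  (.s k51 k34 4 (.s k35 k19 3 (.s k153 k221 9 (.s k169 k253 13 (.d k102 k204 k236 14 10))))))] .n)

def s7_255_30 : T TT 256 :=
  (.q k1 [(.s k3 k2 0 (.s k33 k49 3 (.s k18 k48 4 (.s k19 k16 0 (.d k51 k35 k34 3 4))))), (.s k49
  k33 3 (.s k153 k221 9 (.s k101 k205 13 (.s k117 k69 3 (.d k253 k185 k169 9 13))))), (.s k3 k2 0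
  (.s k51 k34 4 (.s k35 k19 3 (.s k153 k221 9 (.s k169 k253 13 (.d k102 k204 k236 14 10))))))] .n)

def s7_255_31 : T TT 256 :=
  (.q k1 [(.s k49 k33 3 (.s k153 k221 9 (.s k101 k205 13 (.s k117 k69 3 (.d k253 k185 k169 9
  13))))), (.s k3 k2 0 (.s k33 k49 3 (.s k34 k51 4 (.s k32 k35 0 (.d k48 k16 k18 3 4))))), (.s k3 k2
  0 (.s k51 k34 4 (.s k35 k19 3 (.s k153 k221 9 (.s k169 k253 13 (.d k102 k204 k236 14 10))))))] .n)

def s7_255_32 : T TT 256 :=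
  (.q k1 [(.s k3 k2 0 (.s k33 k49 3 (.s k51 k34 4 (.s k19 k35 3 (.d k18 k16 k48 0 4))))), (.s k153
  k221 9 (.s k169 k253 13 (.s k137 k185 3 (.s k205 k69 9 (.d k49 k33 k101 3 13)))))] (.c k33 (.l (.s
  k3 k2 0 (.s k51 k34 4 (.s k35 k19 3 (.s k153 k221 9 (.s k169 k253 13 (.d k102 k204 k236 14
  10))))))) (.c k49 (.l (.s k3 k2 0 (.s k51 k34 4 (.s k35 k19 3 (.s k153 k221 9 (.s k169 k253 13 (.d
  k102 k204 k236 14 10))))))) .n)))

def s7_255_33 : T TT 256 :=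
  (.q k21 [(.s k29 k25 1 (.s k149 k213 7 (.s k89 k209 9 (.s k93 k81 1 (.d k221 k157 k153 7 9))))),
  (.s k25 k29 1 (.s k42 k63 6 (.s k8 k59 4 (.s k12 k4 1 (.d k51 k34 k38 4 6))))), (.s k51 k34 4 (.s
  k63 k42 6 (.s k59 k55 1 (.s k149 k213 7 (.s k153 k221 9 (.d k106 k192 k200 14 12))))))] .n)

def s7_255_34 : T TT 256 :=
  (.q k1 [(.s k49 k33 3 (.s k253 k169 13 (.s k117 k185 9 (.s k101 k69 3 (.d k153 k221 k205 9
  13))))), (.s k3 k2 0 (.s k33 k49 3 (.s k18 k48 4 (.s k16 k19 0 (.s k154 k223 10 (.s k86 k222 9 (.d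
  k169 k253 k252 13 14)))))))] (.c k33 (.l (.s k3 k2 0 (.s k153 k221 9 (.s k169 k253 13 (.s k137
  k185 3 (.s k204 k70 10 (.s k68 k136 9 (.d k102 k119 k51 4 14)))))))) (.c k49 (.f k3 k2 0 (.l (.s
  k153 k221 9 (.s k169 k253 13 (.s k185 k137 3 (.s k252 k86 14 (.s k51 k118 10 (.s k35 k19 3 (.d
  k102 k204 k236 14 10))))))))) (.c k117 (.l (.s k49 k33 3 (.s k153 k221 9 (.s k169 k253 13 (.s k137
  k185 3 (.d k205 k69 k101 9 13)))))) (.c k169 (.q k5 [(.s k3 k2 0 (.s k9 k13 1 (.s k12 k6 2 (.s k8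
  k4 1 (.d k10 k11 k15 0 2))))), (.s k13 k9 1 (.s k49 k33 3 (.s k25 k37 5 (.s k153 k221 9 (.s k89
  k217 7 (.d k165 k245 k241 11 13)))))), (.s k15 k10 2 (.s k153 k221 9 (.s k165 k245 11 (.s k141
  k177 5 (.s k204 k78 8 (.s k68 k136 9 (.d k102 k119 k51 4 14)))))))] .n) (.c k221 (.l (.s k3 k2 0
  (.s k33 k49 3 (.s k18 k48 4 (.s k16 k19 0 (.s k154 k223 10 (.s k169 k253 13 (.d k86 k222 k252 9
  14)))))))) (.c k253 (.f k3 k2 0 (.l (.s k33 k49 3 (.s k18 k48 4 (.s k16 k19 0 (.s k154 k223 10 (.s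
  k86 k222 9 (.s k252 k169 14 (.d k84 k87 k168 0 13))))))))) .n)))))))

def s7_255_35 : T TT 256 :=
  (.q k1 [(.s k49 k33 3 (.s k153 k221 9 (.s k101 k205 13 (.s k117 k69 3 (.d k253 k185 k169 9
  13))))), (.s k3 k2 0 (.s k33 k49 3 (.s k18 k48 4 (.s k16 k19 0 (.s k154 k223 10 (.s k86 k222 9 (.d
  k169 k253 k252 13 14))))))), (.s k3 k2 0 (.s k51 k34 4 (.s k153 k221 9 (.s k169 k253 13 (.s k185
  k137 3 (.d k252 k118 k86 10 14))))))] (.c k33 (.l (.s k3 k2 0 (.s k153 k221 9 (.s k169 k253 13 (.s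
  k137 k185 3 (.s k204 k70 10 (.d k51 k34 k102 4 14))))))) (.c k169 (.l (.s k49 k33 3 (.s k153 k221
  9 (.s k101 k205 13 (.s k69 k117 3 (.s k207 k138 10 (.s k48 k154 14 (.d k51 k34 k50 4 0)))))))) (.c
  k221 (.l (.s k3 k2 0 (.s k33 k49 3 (.s k18 k48 4 (.s k16 k19 0 (.s k154 k223 10 (.s k169 k253 13
  (.d k86 k222 k252 9 14)))))))) (.c k253 (.l (.s k3 k2 0 (.s k49 k33 3 (.s k153 k221 9 (.s k205
  k101 13 (.s k137 k69 9 (.s k204 k70 10 (.d k51 k34 k102 4 14)))))))) .n)))))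

def s7_255_36 : T TT 256 :=
  (.q k1 [(.s k49 k33 3 (.s k153 k221 9 (.s k101 k205 13 (.s k117 k69 3 (.d k253 k185 k169 9
  13))))), (.s k3 k2 0 (.s k33 k49 3 (.s k34 k51 4 (.s k32 k35 0 (.d k48 k16 k18 3 4))))), (.s k3 k2
  0 (.s k51 k34 4 (.s k35 k19 3 (.s k153 k221 9 (.s k169 k253 13 (.d k102 k204 k236 14 10))))))] .n)

def s7_255_37 : T TT 256 :=
  (.f k221 k153 9 (.f k51 k34 4 (.q k81 [(.s k89 k93 1 (.s k209 k145 7 (.s k149 k29 9 (.d k213 k217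
  k21 1 7)))), (.s k145 k209 7 (.s k162 k243 12 (.s k128 k179 4 (.d k192 k64 k98 7 12)))), (.s k89
  k93 1 (.s k243 k162 12 (.s k12 k166 14 (.s k8 k4 1 (.s k25 k38 6 (.s k21 k29 1 (.d k42 k59 k63 4
  6)))))))] (.c k22 (.q k52 [(.s k89 k93 1 (.s k209 k145 7 (.s k149 k29 9 (.d k213 k217 k21 1 7)))),
  (.s k145 k209 7 (.s k162 k243 12 (.s k128 k179 4 (.d k192 k64 k98 7 12)))), (.s k89 k93 1 (.s k243
  k162 12 (.s k12 k166 14 (.s k8 k4 1 (.s k25 k38 6 (.s k21 k29 1 (.d k42 k59 k63 4 6)))))))] .n)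
  (.c k52 (.q k22 [(.s k89 k93 1 (.s k209 k145 7 (.s k149 k29 9 (.d k213 k217 k21 1 7)))), (.s k145
  k209 7 (.s k162 k243 12 (.s k128 k179 4 (.d k192 k64 k98 7 12)))), (.s k89 k93 1 (.s k243 k162 12
  (.s k12 k166 14 (.s k8 k4 1 (.s k25 k38 6 (.s k21 k29 1 (.d k42 k59 k63 4 6)))))))] .n) .n)))))

def s7_255_38 : T TT 256 :=
  (.q k1 [(.s k3 k2 0 (.s k33 k49 3 (.s k18 k48 4 (.s k19 k16 0 (.d k51 k35 k34 3 4))))), (.s k49
  k33 3 (.s k153 k221 9 (.s k101 k205 13 (.s k117 k69 3 (.d k253 k185 k169 9 13))))), (.s k3 k2 0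
  (.s k51 k34 4 (.s k35 k19 3 (.s k153 k221 9 (.s k169 k253 13 (.d k102 k204 k236 14 10))))))] .n)

def s7_255_39 : T TT 256 :=
  (.f k51 k34 4 (.q k63 [(.s k21 k42 6 (.s k25 k29 1 (.s k55 k59 1 (.d k38 k4 k12 4 6)))), (.s k153
  k221 9 (.s k204 k102 14 (.s k157 k110 12 (.s k149 k145 1 (.s k106 k192 14 (.d k59 k55 k200 1
  12))))))] (.c k23 (.l (.s k55 k59 1 (.s k21 k42 6 (.s k25 k29 1 (.d k38 k4 k12 4 6))))) (.c k55
  (.q k23 [(.s k3 k43 5 (.s k1 k2 0 (.s k33 k49 3 (.s k18 k48 4 (.d k19 k35 k16 3 0))))), (.s k21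
  k42 6 (.s k149 k213 7 (.s k153 k221 9 (.s k145 k157 1 (.d k192 k98 k106 12 14)))))] .n) (.c k59
  (.l (.s k21 k42 6 (.s k149 k213 7 (.s k153 k221 9 (.s k145 k157 1 (.d k192 k98 k106 12 14))))))
  .n)))))

def s7_255_40 : T TT 256 :=
  (.q k1 [(.s k3 k2 0 (.s k33 k49 3 (.s k18 k48 4 (.s k19 k16 0 (.d k51 k35 k34 3 4))))), (.s k49
  k33 3 (.s k153 k221 9 (.s k101 k205 13 (.s k117 k69 3 (.d k253 k185 k169 9 13))))), (.s k3 k2 0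
  (.s k51 k34 4 (.s k35 k19 3 (.s k153 k221 9 (.s k169 k253 13 (.d k102 k204 k236 14 10))))))] .n)

def s7_255_41 : T TT 256 :=
  (.q k1 [(.s k3 k2 0 (.s k33 k49 3 (.s k18 k48 4 (.s k19 k16 0 (.d k51 k35 k34 3 4))))), (.s k49
  k33 3 (.s k153 k221 9 (.s k101 k205 13 (.s k117 k69 3 (.d k253 k185 k169 9 13))))), (.s k3 k2 0
  (.s k51 k34 4 (.s k35 k19 3 (.s k153 k221 9 (.s k169 k253 13 (.d k102 k204 k236 14 10))))))] .n)

def s7_255_42 : T TT 256 :=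
  (.q k1 [(.s k49 k33 3 (.s k153 k221 9 (.s k101 k205 13 (.s k117 k69 3 (.d k253 k185 k169 9
  13))))), (.s k3 k2 0 (.s k33 k49 3 (.s k34 k51 4 (.s k32 k35 0 (.d k48 k16 k18 3 4))))), (.s k3 k2
  0 (.s k51 k34 4 (.s k35 k19 3 (.s k153 k221 9 (.s k169 k253 13 (.d k102 k204 k236 14 10))))))] .n)

def s7_255_43 : T TT 256 :=
  (.q k1 [(.s k3 k2 0 (.s k33 k49 3 (.s k18 k48 4 (.s k19 k16 0 (.d k51 k35 k34 3 4))))), (.s k49
  k33 3 (.s k153 k221 9 (.s k101 k205 13 (.s k117 k69 3 (.d k253 k185 k169 9 13))))), (.s k3 k2 0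
  (.s k51 k34 4 (.s k35 k19 3 (.s k153 k221 9 (.s k169 k253 13 (.d k102 k204 k236 14 10))))))] .n)

def s7_255_44 : T TT 256 :=
  (.q k1 [(.s k3 k2 0 (.s k33 k49 3 (.s k18 k48 4 (.s k19 k16 0 (.d k51 k35 k34 3 4))))), (.s k49
  k33 3 (.s k153 k221 9 (.s k101 k205 13 (.s k117 k69 3 (.d k253 k185 k169 9 13))))), (.s k3 k2 0
  (.s k51 k34 4 (.s k35 k19 3 (.s k153 k221 9 (.s k169 k253 13 (.d k102 k204 k236 14 10))))))] .n)

def s7_255_45 : T TT 256 :=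
  (.q k1 [(.s k3 k2 0 (.s k33 k49 3 (.s k18 k48 4 (.s k19 k16 0 (.d k51 k35 k34 3 4))))), (.s k49
  k33 3 (.s k153 k221 9 (.s k101 k205 13 (.s k117 k69 3 (.d k253 k185 k169 9 13))))), (.s k3 k2 0
  (.s k51 k34 4 (.s k35 k19 3 (.s k153 k221 9 (.s k169 k253 13 (.d k102 k204 k236 14 10))))))] .n)

def s7_255_46 : T TT 256 :=
  (.q k1 [(.s k3 k2 0 (.s k33 k49 3 (.s k18 k48 4 (.s k19 k16 0 (.d k51 k35 k34 3 4))))), (.s k49
  k33 3 (.s k153 k221 9 (.s k101 k205 13 (.s k117 k69 3 (.d k253 k185 k169 9 13))))), (.s k3 k2 0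
  (.s k51 k34 4 (.s k35 k19 3 (.s k153 k221 9 (.s k169 k253 13 (.d k102 k204 k236 14 10))))))] .n)

def s7_255_47 : T TT 256 :=
  (.q k1 [(.s k3 k2 0 (.s k33 k49 3 (.s k18 k48 4 (.s k19 k16 0 (.d k51 k35 k34 3 4))))), (.s k49
  k33 3 (.s k153 k221 9 (.s k101 k205 13 (.s k117 k69 3 (.d k253 k185 k169 9 13))))), (.s k3 k2 0
  (.s k51 k34 4 (.s k35 k19 3 (.s k153 k221 9 (.s k169 k253 13 (.d k102 k204 k236 14 10))))))] .n)

def s7_255_48 : T TT 256 :=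
  (.f k51 k34 4 (.f k221 k153 9 (.q k21 [(.s k29 k25 1 (.s k93 k157 7 (.s k89 k81 1 (.d k149 k213
  k209 7 9)))), (.s k25 k29 1 (.s k12 k38 6 (.s k8 k4 1 (.d k42 k59 k63 4 6)))), (.s k63 k42 6 (.s
  k149 k213 7 (.s k192 k106 14 (.s k128 k64 7 (.s k145 k98 12 (.s k81 k209 7 (.d k162 k179 k243 4
  12)))))))] (.c k117 (.q k186 [(.s k29 k25 1 (.s k93 k157 7 (.s k89 k81 1 (.d k149 k213 k209 7
  9)))), (.s k25 k29 1 (.s k12 k38 6 (.s k8 k4 1 (.d k42 k59 k63 4 6)))), (.s k63 k42 6 (.s k149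
  k213 7 (.s k192 k106 14 (.s k128 k64 7 (.s k145 k98 12 (.s k81 k209 7 (.d k162 k179 k243 4
  12)))))))] .n) (.c k186 (.q k117 [(.s k29 k25 1 (.s k93 k157 7 (.s k89 k81 1 (.d k149 k213 k209 7
  9)))), (.s k25 k29 1 (.s k12 k38 6 (.s k8 k4 1 (.d k42 k59 k63 4 6)))), (.s k101 k69 3 (.s k149
  k213 7 (.s k53 k197 11 (.s k5 k37 3 (.d k245 k181 k165 7 11)))))] .n) .n)))))

def s7_255_49 : T TT 256 :=
  (.q k16 [(.s k18 k19 0 (.s k48 k32 3 (.s k3 k33 4 (.s k2 k1 0 (.d k34 k50 k51 3 4))))), (.s k19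
  k18 0 (.s k153 k221 9 (.s k86 k220 10 (.s k87 k84 0 (.d k223 k155 k154 9 10))))), (.s k48 k32 3
  (.s k51 k34 4 (.s k153 k221 9 (.s k154 k223 10 (.s k155 k152 0 (.d k207 k103 k101 13 14))))))] .n)

def s7_255_50 : T TT 256 :=
  (.q k1 [(.s k3 k2 0 (.s k33 k49 3 (.s k18 k48 4 (.s k51 k34 4 (.d k19 k16 k35 0 3))))), (.s k49
  k33 3 (.s k153 k221 9 (.s k101 k205 13 (.s k117 k69 3 (.d k253 k185 k169 9 13))))), (.s k3 k2 0
  (.s k153 k221 9 (.s k169 k253 13 (.s k185 k137 3 (.s k252 k86 14 (.d k51 k34 k118 4 10))))))] .n)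

def s7_255_51 : T TT 256 :=
  (.q k89 [(.s k93 k81 1 (.s k221 k153 9 (.s k29 k157 7 (.s k149 k209 9 (.d k21 k25 k213 1 7))))),
  (.s k81 k93 1 (.s k209 k145 7 (.s k149 k29 9 (.s k243 k162 12 (.s k192 k226 4 (.s k106 k63 14 (.d
  k64 k127 k128 6 7)))))))] (.c k29 (.f k81 k93 1 (.l (.s k209 k145 7 (.s k243 k162 12 (.s k12 k166
  14 (.s k192 k226 4 (.s k72 k132 9 (.s k106 k123 4 (.d k64 k128 k127 7 6))))))))) (.c k81 (.q k1
  [(.s k49 k33 3 (.s k153 k221 9 (.s k101 k205 13 (.s k117 k69 3 (.d k253 k185 k169 9 13))))), (.s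
  k3 k2 0 (.s k169 k253 13 (.s k9 k249 11 (.s k12 k6 2 (.s k4 k8 1 (.d k166 k247 k243 12 14)))))),
  (.s k49 k33 3 (.s k153 k221 9 (.s k25 k217 7 (.s k13 k37 5 (.s k5 k9 1 (.d k165 k245 k241 11
  13))))))] (.c k119 (.q k187 [(.s k49 k33 3 (.s k153 k221 9 (.s k101 k205 13 (.s k117 k69 3 (.d
  k253 k185 k169 9 13))))), (.s k3 k2 0 (.s k169 k253 13 (.s k9 k249 11 (.s k12 k6 2 (.s k4 k8 1 (.d
  k166 k247 k243 12 14)))))), (.s k49 k33 3 (.s k153 k221 9 (.s k25 k217 7 (.s k13 k37 5 (.s k5 k9 1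
  (.d k165 k245 k241 11 13))))))] .n) (.c k187 (.q k119 [(.s k49 k33 3 (.s k153 k221 9 (.s k101 k205
  13 (.s k117 k69 3 (.d k253 k185 k169 9 13))))), (.s k3 k2 0 (.s k169 k253 13 (.s k9 k249 11 (.s
  k12 k6 2 (.s k4 k8 1 (.d k166 k247 k243 12 14)))))), (.s k49 k33 3 (.s k153 k221 9 (.s k25 k217 7
  (.s k13 k37 5 (.s k5 k9 1 (.d k165 k245 k241 11 13))))))] .n) .n))) (.c k93 (.q k12 [(.s k4 k8 1
  (.d k166 k247 k243 12 14)), (.s k153 k221 9 (.s k25 k217 7 (.s k29 k21 1 (.s k209 k149 9 (.s k81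
  k145 7 (.d k243 k162 k166 12 14)))))), (.s k8 k4 1 (.s k153 k221 9 (.s k25 k217 7 (.s k42 k59 4
  (.d k21 k29 k63 1 6)))))] (.c k119 (.q k187 [(.s k4 k8 1 (.d k166 k247 k243 12 14)), (.s k8 k4 1
  (.s k153 k221 9 (.d k170 k136 k251 4 12))), (.s k153 k221 9 (.s k136 k170 4 (.s k166 k243 14 (.s
  k204 k68 9 (.d k140 k179 k76 6 7)))))] .n) (.c k187 (.q k119 [(.s k4 k8 1 (.d k166 k247 k243 12
  14)), (.s k8 k4 1 (.s k153 k221 9 (.s k25 k217 7 (.s k42 k59 4 (.d k21 k29 k63 1 6))))), (.s k68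
  k102 4 (.s k153 k221 9 (.s k166 k243 14 (.s k204 k136 9 (.d k140 k179 k76 6 7)))))] .n) .n))) (.c
  k119 (.q k187 [(.s k93 k81 1 (.s k221 k153 9 (.s k29 k157 7 (.s k149 k209 9 (.d k21 k25 k213 1
  7))))), (.s k81 k93 1 (.s k243 k162 12 (.s k12 k166 14 (.s k8 k4 1 (.s k170 k251 12 (.d k153 k136
  k221 4 9)))))), (.s k153 k221 9 (.s k25 k217 7 (.s k170 k136 4 (.s k8 k251 12 (.s k42 k59 4 (.d
  k21 k63 k29 6 1))))))] (.c k153 (.l (.s k81 k93 1 (.s k209 k145 7 (.s k149 k29 9 (.s k21 k213 7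
  (.s k63 k42 6 (.s k192 k106 14 (.d k243 k226 k162 4 12)))))))) (.c k221 (.l (.s k81 k93 1 (.s k209
  k145 7 (.s k29 k149 9 (.s k21 k25 1 (.s k63 k42 6 (.s k12 k46 4 (.d k243 k162 k166 12 14))))))))
  .n))) (.c k145 (.l (.s k93 k81 1 (.s k221 k153 9 (.s k29 k157 7 (.s k149 k209 9 (.d k21 k25 k213 1
  7)))))) (.c k149 (.f k81 k93 1 (.l (.s k153 k221 9 (.s k25 k217 7 (.s k243 k162 12 (.s k12 k166 14
  (.s k8 k4 1 (.s k42 k59 4 (.d k21 k29 k63 1 6))))))))) (.c k157 (.l (.s k81 k93 1 (.s k209 k145 7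
  (.s k29 k149 9 (.s k153 k221 9 (.d k25 k21 k217 1 7)))))) (.c k187 (.q k119 [(.s k93 k81 1 (.s
  k221 k153 9 (.s k29 k157 7 (.s k149 k209 9 (.d k21 k25 k213 1 7))))), (.s k81 k93 1 (.s k102 k68 4
  (.s k115 k76 6 (.s k127 k123 1 (.d k64 k98 k106 4 6)))))] (.c k81 (.q k1 [(.s k49 k33 3 (.s k153
  k221 9 (.s k101 k205 13 (.s k117 k69 3 (.d k253 k185 k169 9 13))))), (.s k3 k2 0 (.s k169 k253 13
  (.s k9 k249 11 (.s k12 k6 2 (.s k4 k8 1 (.d k166 k247 k243 12 14)))))), (.s k49 k33 3 (.s k153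
  k221 9 (.s k25 k217 7 (.s k13 k37 5 (.s k5 k9 1 (.d k165 k245 k241 11 13))))))] .n) (.c k93 (.q
  k12 [(.s k4 k8 1 (.d k166 k247 k243 12 14)), (.s k8 k4 1 (.s k153 k221 9 (.s k25 k217 7 (.s k42
  k59 4 (.d k21 k29 k63 1 6))))), (.s k68 k102 4 (.s k153 k221 9 (.s k166 k243 14 (.s k204 k136 9
  (.d k140 k179 k76 6 7)))))] .n) (.c k102 (.l (.s k81 k93 1 (.s k153 k221 9 (.s k25 k217 7 (.s k29
  k21 1 (.d k209 k145 k149 7 9)))))) .n)))) (.c k209 (.f k93 k81 1 (.l (.s k221 k153 9 (.s k29 k157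
  7 (.s k21 k25 1 (.s k63 k42 6 (.s k12 k46 4 (.s k166 k243 14 (.d k4 k8 k247 1 12))))))))) (.c k221
  (.l (.s k81 k93 1 (.s k209 k145 7 (.s k29 k149 9 (.s k21 k25 1 (.s k63 k42 6 (.s k12 k46 4 (.d
  k243 k162 k166 12 14)))))))) .n)))))))))))

def s7_255_52 : T TT 256 :=
  (.f k221 k153 9 (.f k51 k34 4 (.q k81 [(.s k89 k93 1 (.s k209 k145 7 (.s k149 k29 9 (.d k213 k217
  k21 1 7)))), (.s k145 k209 7 (.s k162 k243 12 (.s k128 k179 4 (.d k192 k64 k98 7 12)))), (.s k89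
  k93 1 (.s k243 k162 12 (.s k12 k166 14 (.s k8 k4 1 (.s k25 k38 6 (.s k21 k29 1 (.d k42 k59 k63 4
  6)))))))] (.c k22 (.q k37 [(.s k89 k93 1 (.s k209 k145 7 (.s k149 k29 9 (.d k213 k217 k21 1 7)))),
  (.s k145 k209 7 (.s k162 k243 12 (.s k128 k179 4 (.d k192 k64 k98 7 12)))), (.s k89 k93 1 (.s k243
  k162 12 (.s k12 k166 14 (.s k8 k4 1 (.s k25 k38 6 (.s k21 k29 1 (.d k42 k59 k63 4 6)))))))] .n)
  (.c k37 (.q k22 [(.s k89 k93 1 (.s k209 k145 7 (.s k149 k29 9 (.d k213 k217 k21 1 7)))), (.s k145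
  k209 7 (.s k162 k243 12 (.s k128 k179 4 (.d k192 k64 k98 7 12)))), (.s k89 k93 1 (.s k243 k162 12
  (.s k12 k166 14 (.s k8 k4 1 (.s k25 k38 6 (.s k21 k29 1 (.d k42 k59 k63 4 6)))))))] .n) .n)))))

def s7_255_53 : T TT 256 :=
  (.q k1 [(.s k3 k2 0 (.s k51 k34 4 (.s k19 k35 3 (.s k18 k16 0 (.d k33 k49 k48 3 4))))), (.s k49
  k33 3 (.s k153 k221 9 (.s k101 k205 13 (.s k117 k69 3 (.d k253 k185 k169 9 13))))), (.s k3 k2 0
  (.s k51 k34 4 (.s k35 k19 3 (.s k153 k221 9 (.s k169 k253 13 (.d k102 k204 k236 14 10))))))] .n)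

def s7_255_54 : T TT 256 :=
  (.q k1 [(.s k3 k2 0 (.s k33 k49 3 (.s k18 k48 4 (.s k19 k16 0 (.d k51 k35 k34 3 4))))), (.s k49
  k33 3 (.s k153 k221 9 (.s k101 k205 13 (.s k117 k69 3 (.d k253 k185 k169 9 13))))), (.s k3 k2 0
  (.s k51 k34 4 (.s k35 k19 3 (.s k153 k221 9 (.s k169 k253 13 (.d k102 k204 k236 14 10))))))] .n)

def s7_255_55 : T TT 256 :=
  (.f k221 k153 9 (.f k51 k34 4 (.q k81 [(.s k89 k93 1 (.s k209 k145 7 (.s k149 k29 9 (.d k213 k217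
  k21 1 7)))), (.s k145 k209 7 (.s k162 k243 12 (.s k128 k179 4 (.d k192 k64 k98 7 12)))), (.s k89
  k93 1 (.s k243 k162 12 (.s k12 k166 14 (.s k8 k4 1 (.s k25 k38 6 (.s k21 k29 1 (.d k42 k59 k63 4
  6)))))))] (.c k23 (.q k39 [(.s k89 k93 1 (.s k209 k145 7 (.s k149 k29 9 (.d k213 k217 k21 1 7)))),
  (.s k15 k27 5 (.s k243 k162 12 (.s k167 k91 13 (.s k103 k231 7 (.s k155 k207 13 (.d k179 k143 k115
  5 7))))))] .n) (.c k39 (.q k23 [(.s k89 k93 1 (.s k209 k145 7 (.s k149 k29 9 (.d k213 k217 k21 1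
  7)))), (.s k145 k209 7 (.s k162 k243 12 (.s k128 k179 4 (.d k192 k64 k98 7 12)))), (.s k89 k93 1
  (.s k243 k162 12 (.s k12 k166 14 (.s k8 k4 1 (.s k25 k38 6 (.s k21 k29 1 (.d k42 k59 k63 4
  6)))))))] .n) .n)))))

def s7_255_56 : T TT 256 :=
  (.q k1 [(.s k49 k33 3 (.s k153 k221 9 (.s k101 k205 13 (.s k117 k69 3 (.d k253 k185 k169 9
  13))))), (.s k3 k2 0 (.s k33 k49 3 (.s k34 k51 4 (.s k32 k35 0 (.d k48 k16 k18 3 4))))), (.s k3 k2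
  0 (.s k51 k34 4 (.s k35 k19 3 (.s k153 k221 9 (.s k169 k253 13 (.d k102 k204 k236 14 10))))))] .n)

def s7_255_57 : T TT 256 :=
  (.q k1 [(.s k3 k2 0 (.s k51 k34 4 (.s k19 k35 3 (.s k18 k16 0 (.d k33 k49 k48 3 4))))), (.s k49
  k33 3 (.s k153 k221 9 (.s k101 k205 13 (.s k117 k69 3 (.d k253 k185 k169 9 13))))), (.s k3 k2 0
  (.s k51 k34 4 (.s k35 k19 3 (.s k153 k221 9 (.s k169 k253 13 (.d k102 k204 k236 14 10))))))] .n)

def s7_255_58 : T TT 256 :=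
  (.q k1 [(.s k49 k33 3 (.s k153 k221 9 (.s k101 k205 13 (.s k117 k69 3 (.d k253 k185 k169 9
  13))))), (.s k3 k2 0 (.s k33 k49 3 (.s k34 k51 4 (.s k32 k35 0 (.d k48 k16 k18 3 4))))), (.s k3 k2
  0 (.s k51 k34 4 (.s k35 k19 3 (.s k153 k221 9 (.s k169 k253 13 (.d k102 k204 k236 14 10))))))] .n)

def s7_255_59 : T TT 256 :=
  (.q k1 [(.s k3 k2 0 (.s k33 k49 3 (.s k18 k48 4 (.s k19 k16 0 (.d k51 k35 k34 3 4))))), (.s k49
  k33 3 (.s k153 k221 9 (.s k101 k205 13 (.s k117 k69 3 (.d k253 k185 k169 9 13))))), (.s k3 k2 0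
  (.s k51 k34 4 (.s k35 k19 3 (.s k153 k221 9 (.s k169 k253 13 (.d k102 k204 k236 14 10))))))] .n)

def s7_255_60 : T TT 256 :=
  (.f k221 k153 9 (.f k51 k34 4 (.q k21 [(.s k29 k25 1 (.s k93 k157 7 (.s k89 k81 1 (.d k149 k213
  k209 7 9)))), (.s k25 k29 1 (.s k12 k38 6 (.s k8 k4 1 (.d k42 k59 k63 4 6)))), (.s k63 k42 6 (.s
  k149 k213 7 (.s k192 k106 14 (.s k128 k64 7 (.s k145 k98 12 (.s k81 k209 7 (.d k162 k179 k243 4
  12)))))))] (.c k125 (.q k190 [(.s k29 k25 1 (.s k93 k157 7 (.s k89 k81 1 (.d k149 k213 k209 7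
  9)))), (.s k25 k29 1 (.s k12 k38 6 (.s k8 k4 1 (.d k42 k59 k63 4 6)))), (.s k63 k42 6 (.s k149
  k213 7 (.s k192 k106 14 (.s k128 k64 7 (.s k145 k98 12 (.s k81 k209 7 (.d k162 k179 k243 4
  12)))))))] .n) (.c k190 (.q k125 [(.s k29 k25 1 (.s k93 k157 7 (.s k89 k81 1 (.d k149 k213 k209 7
  9)))), (.s k25 k29 1 (.s k12 k38 6 (.s k8 k4 1 (.d k42 k59 k63 4 6)))), (.s k105 k65 5 (.s k149
  k213 7 (.s k61 k193 13 (.s k1 k41 5 (.d k253 k189 k169 7 13)))))] .n) .n)))))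

def s7_255_61 : T TT 256 :=
  (.q k1 [(.s k3 k2 0 (.s k51 k34 4 (.s k19 k35 3 (.s k18 k16 0 (.d k33 k49 k48 3 4))))), (.s k49
  k33 3 (.s k153 k221 9 (.s k101 k205 13 (.s k117 k69 3 (.d k253 k185 k169 9 13))))), (.s k3 k2 0
  (.s k51 k34 4 (.s k35 k19 3 (.s k153 k221 9 (.s k169 k253 13 (.d k102 k204 k236 14 10))))))] .n)

def s7_255_62 : T TT 256 :=
  (.q k1 [(.s k49 k33 3 (.s k153 k221 9 (.s k101 k205 13 (.s k117 k69 3 (.d k253 k185 k169 9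
  13))))), (.s k3 k2 0 (.s k33 k49 3 (.s k34 k51 4 (.s k32 k35 0 (.d k48 k16 k18 3 4))))), (.s k3 k2
  0 (.s k51 k34 4 (.s k35 k19 3 (.s k153 k221 9 (.s k169 k253 13 (.d k102 k204 k236 14 10))))))] .n)

def s7_255_63 : T TT 256 :=
  (.f k51 k34 4 (.q k192 [(.s k128 k64 7 (.s k145 k98 12 (.s k81 k209 7 (.d k162 k179 k243 4 12)))),
  (.s k64 k128 7 (.s k153 k221 9 (.s k204 k102 14 (.s k200 k196 1 (.d k106 k127 k59 6 12))))), (.s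
  k145 k98 12 (.s k153 k221 9 (.s k149 k157 1 (.s k21 k213 7 (.s k29 k25 1 (.d k209 k81 k89 7
  9))))))] (.c k127 (.q k191 [(.s k128 k64 7 (.s k145 k98 12 (.s k81 k209 7 (.d k162 k179 k243 4
  12)))), (.s k128 k64 7 (.s k153 k221 9 (.s k170 k149 6 (.s k136 k187 4 (.d k204 k68 k102 9
  14))))), (.s k145 k98 12 (.s k153 k221 9 (.s k149 k157 1 (.s k21 k213 7 (.s k29 k25 1 (.d k209 k81
  k89 7 9))))))] .n) (.c k191 (.q k127 [(.d k64 k106 k128 6 7), (.s k145 k98 12 (.s k153 k221 9 (.s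
  k149 k157 1 (.s k21 k213 7 (.s k29 k25 1 (.d k209 k81 k89 7 9))))))] .n) .n))))

def s7_255_64 : T TT 256 :=
  (.q k1 [(.s k3 k2 0 (.s k33 k49 3 (.s k18 k48 4 (.s k19 k16 0 (.d k51 k35 k34 3 4))))), (.s k49
  k33 3 (.s k153 k221 9 (.s k101 k205 13 (.s k117 k69 3 (.d k253 k185 k169 9 13))))), (.s k3 k2 0
  (.s k51 k34 4 (.s k35 k19 3 (.s k153 k221 9 (.s k169 k253 13 (.d k102 k204 k236 14 10))))))] .n)

def s7_255_65 : T TT 256 :=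
  (.q k1 [(.s k3 k2 0 (.s k33 k49 3 (.s k18 k48 4 (.s k19 k16 0 (.d k51 k35 k34 3 4))))), (.s k49
  k33 3 (.s k153 k221 9 (.s k101 k205 13 (.s k117 k69 3 (.d k253 k185 k169 9 13))))), (.s k3 k2 0
  (.s k51 k34 4 (.s k35 k19 3 (.s k153 k221 9 (.s k169 k253 13 (.d k102 k204 k236 14 10))))))] .n)

def s7_255_66 : T TT 256 :=
  (.q k1 [(.s k49 k33 3 (.s k153 k221 9 (.s k101 k205 13 (.s k117 k69 3 (.d k253 k185 k169 9
  13))))), (.s k3 k2 0 (.s k33 k49 3 (.s k34 k51 4 (.s k32 k35 0 (.d k48 k16 k18 3 4))))), (.s k3 k2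
  0 (.s k51 k34 4 (.s k35 k19 3 (.s k153 k221 9 (.s k169 k253 13 (.d k102 k204 k236 14 10))))))] .n)

def s7_255_67 : T TT 256 :=
  (.q k1 [(.s k3 k2 0 (.s k33 k49 3 (.s k18 k48 4 (.s k19 k16 0 (.d k51 k35 k34 3 4))))), (.s k49
  k33 3 (.s k153 k221 9 (.s k101 k205 13 (.s k117 k69 3 (.d k253 k185 k169 9 13))))), (.s k3 k2 0
  (.s k51 k34 4 (.s k35 k19 3 (.s k153 k221 9 (.s k169 k253 13 (.d k102 k204 k236 14 10))))))] .n)

def s7_255_68 : T TT 256 :=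
  (.q k1 [(.s k3 k2 0 (.s k33 k49 3 (.s k18 k48 4 (.s k19 k16 0 (.d k51 k35 k34 3 4))))), (.s k49
  k33 3 (.s k153 k221 9 (.s k101 k205 13 (.s k117 k69 3 (.d k253 k185 k169 9 13))))), (.s k3 k2 0
  (.s k51 k34 4 (.s k35 k19 3 (.s k153 k221 9 (.s k169 k253 13 (.d k102 k204 k236 14 10))))))] .n)

def s7_255_69 : T TT 256 :=
  (.q k1 [(.s k3 k2 0 (.s k33 k49 3 (.s k18 k48 4 (.s k19 k16 0 (.d k51 k35 k34 3 4))))), (.s k51
  k34 4 (.s k153 k221 9 (.s k169 k253 13 (.s k185 k137 3 (.s k252 k118 10 (.s k84 k168 13 (.d k86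
  k87 k3 0 14)))))))] (.c k3 (.l (.s k49 k33 3 (.s k51 k34 4 (.s k48 k50 0 (.s k153 k221 9 (.s k101
  k205 13 (.s k154 k207 14 (.d k16 k32 k223 3 10)))))))) (.c k34 (.l (.s k3 k2 0 (.s k33 k49 3 (.s
  k18 k48 4 (.s k16 k19 0 (.s k154 k223 10 (.s k86 k222 9 (.d k169 k253 k252 13 14)))))))) (.c k51
  (.l (.s k3 k2 0 (.s k33 k49 3 (.s k48 k18 4 (.s k16 k32 3 (.s k154 k223 10 (.s k169 k253 13 (.d
  k101 k207 k237 14 9)))))))) .n))))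

def s7_255_70 : T TT 256 :=
  (.f k221 k153 9 (.f k51 k34 4 (.q k81 [(.s k89 k93 1 (.s k209 k145 7 (.s k149 k29 9 (.d k213 k217
  k21 1 7)))), (.s k145 k209 7 (.s k162 k243 12 (.s k128 k179 4 (.d k192 k64 k98 7 12)))), (.s k89
  k93 1 (.s k243 k162 12 (.s k12 k166 14 (.s k8 k4 1 (.s k25 k38 6 (.s k21 k29 1 (.d k42 k59 k63 4
  6)))))))] (.c k133 (.q k196 [(.s k89 k93 1 (.s k209 k145 7 (.s k149 k29 9 (.d k213 k217 k21 1
  7)))), (.s k145 k209 7 (.s k162 k243 12 (.s k128 k179 4 (.d k192 k64 k98 7 12)))), (.s k89 k93 1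
  (.s k243 k162 12 (.s k12 k166 14 (.s k4 k8 1 (.s k68 k132 7 (.s k102 k119 4 (.d k115 k179 k76 7
  6)))))))] .n) (.c k196 (.q k133 [(.s k89 k93 1 (.s k209 k145 7 (.s k149 k29 9 (.d k213 k217 k21 1
  7)))), (.s k145 k209 7 (.s k162 k243 12 (.s k128 k179 4 (.d k192 k64 k98 7 12)))), (.s k89 k93 1
  (.s k243 k162 12 (.s k12 k166 14 (.s k8 k4 1 (.s k25 k38 6 (.s k21 k29 1 (.d k42 k59 k63 4
  6)))))))] .n) .n)))))

def s7_255_71 : T TT 256 :=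
  (.f k221 k153 9 (.f k51 k34 4 (.q k21 [(.s k29 k25 1 (.s k93 k157 7 (.s k89 k81 1 (.d k149 k213
  k209 7 9)))), (.s k25 k29 1 (.s k12 k38 6 (.s k8 k4 1 (.d k42 k59 k63 4 6)))), (.s k63 k42 6 (.s
  k149 k213 7 (.s k192 k106 14 (.s k128 k64 7 (.s k145 k98 12 (.s k81 k209 7 (.d k162 k179 k243 4
  12)))))))] (.c k135 (.q k199 [(.s k29 k25 1 (.s k93 k157 7 (.s k89 k81 1 (.d k149 k213 k209 7
  9)))), (.s k63 k42 6 (.s k55 k59 1 (.s k103 k151 11 (.s k207 k155 13 (.s k69 k138 10 (.d k4 k38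
  k134 4 8))))))] (.c k25 (.l (.s k63 k42 6 (.s k149 k213 7 (.s k192 k106 14 (.s k128 k64 7 (.s k145
  k98 12 (.s k81 k209 7 (.d k162 k179 k243 4 12)))))))) .n)) (.c k199 (.q k135 [(.s k29 k25 1 (.s
  k93 k157 7 (.s k89 k81 1 (.d k149 k213 k209 7 9)))), (.s k25 k29 1 (.s k12 k38 6 (.s k8 k4 1 (.d
  k42 k59 k63 4 6)))), (.s k63 k42 6 (.s k149 k213 7 (.s k192 k106 14 (.s k128 k64 7 (.s k145 k98 12
  (.s k81 k209 7 (.d k162 k179 k243 4 12)))))))] .n) .n)))))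

def s7_255_72 : T TT 256 :=
  (.q k1 [(.s k3 k2 0 (.s k33 k49 3 (.s k18 k48 4 (.s k19 k16 0 (.d k51 k35 k34 3 4))))), (.s k49
  k33 3 (.s k153 k221 9 (.s k101 k205 13 (.s k117 k69 3 (.d k253 k185 k169 9 13))))), (.s k3 k2 0
  (.s k51 k34 4 (.s k35 k19 3 (.s k153 k221 9 (.s k169 k253 13 (.d k102 k204 k236 14 10))))))] .n)

def s7_255_73 : T TT 256 :=
  (.q k1 [(.s k3 k2 0 (.s k33 k49 3 (.s k18 k48 4 (.s k19 k16 0 (.d k51 k35 k34 3 4))))), (.s k49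
  k33 3 (.s k153 k221 9 (.s k101 k205 13 (.s k117 k69 3 (.d k253 k185 k169 9 13))))), (.s k3 k2 0
  (.s k51 k34 4 (.s k35 k19 3 (.s k153 k221 9 (.s k169 k253 13 (.d k102 k204 k236 14 10))))))] .n)

def s7_255_74 : T TT 256 :=
  (.q k1 [(.s k3 k2 0 (.s k33 k49 3 (.s k18 k48 4 (.s k19 k16 0 (.d k51 k35 k34 3 4))))), (.s k49
  k33 3 (.s k153 k221 9 (.s k101 k205 13 (.s k117 k69 3 (.d k253 k185 k169 9 13))))), (.s k3 k2 0
  (.s k51 k34 4 (.s k35 k19 3 (.s k153 k221 9 (.s k169 k253 13 (.d k102 k204 k236 14 10))))))] .n)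

def s7_255_75 : T TT 256 :=
  (.q k1 [(.s k3 k2 0 (.s k33 k49 3 (.s k18 k48 4 (.s k19 k16 0 (.d k51 k35 k34 3 4))))), (.s k49
  k33 3 (.s k153 k221 9 (.s k101 k205 13 (.s k117 k69 3 (.d k253 k185 k169 9 13))))), (.s k3 k2 0
  (.s k51 k34 4 (.s k35 k19 3 (.s k153 k221 9 (.s k169 k253 13 (.d k102 k204 k236 14 10))))))] .n)

def s7_255_76 : T TT 256 :=
  (.q k1 [(.s k3 k2 0 (.s k33 k49 3 (.s k18 k48 4 (.s k19 k16 0 (.d k51 k35 k34 3 4))))), (.s k49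
  k33 3 (.s k153 k221 9 (.s k101 k205 13 (.s k117 k69 3 (.d k253 k185 k169 9 13))))), (.s k3 k2 0
  (.s k51 k34 4 (.s k35 k19 3 (.s k153 k221 9 (.s k169 k253 13 (.d k102 k204 k236 14 10))))))] .n)

def s7_255_77 : T TT 256 :=
  (.q k1 [(.s k3 k2 0 (.s k33 k49 3 (.s k18 k48 4 (.s k19 k16 0 (.d k51 k35 k34 3 4))))), (.s k49
  k33 3 (.s k153 k221 9 (.s k101 k205 13 (.s k117 k69 3 (.d k253 k185 k169 9 13))))), (.s k3 k2 0
  (.s k51 k34 4 (.s k35 k19 3 (.s k153 k221 9 (.s k169 k253 13 (.d k102 k204 k236 14 10))))))] .n)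

def s7_255_78 : T TT 256 :=
  (.q k1 [(.s k3 k2 0 (.s k33 k49 3 (.s k18 k48 4 (.s k19 k16 0 (.d k51 k35 k34 3 4))))), (.s k49
  k33 3 (.s k153 k221 9 (.s k101 k205 13 (.s k117 k69 3 (.d k253 k185 k169 9 13))))), (.s k3 k2 0
  (.s k51 k34 4 (.s k35 k19 3 (.s k153 k221 9 (.s k169 k253 13 (.d k102 k204 k236 14 10))))))] .n)

def s7_255_79 : T TT 256 :=
  (.q k1 [(.s k3 k2 0 (.s k33 k49 3 (.s k18 k48 4 (.s k19 k16 0 (.d k51 k35 k34 3 4))))), (.s k49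
  k33 3 (.s k153 k221 9 (.s k101 k205 13 (.s k117 k69 3 (.d k253 k185 k169 9 13))))), (.s k3 k2 0
  (.s k51 k34 4 (.s k35 k19 3 (.s k153 k221 9 (.s k169 k253 13 (.d k102 k204 k236 14 10))))))] .n)

def s7_255_80 : T TT 256 :=
  (.q k1 [(.s k49 k33 3 (.s k153 k221 9 (.s k101 k205 13 (.s k117 k69 3 (.d k253 k185 k169 9
  13))))), (.s k3 k2 0 (.s k33 k49 3 (.s k34 k51 4 (.s k32 k35 0 (.d k48 k16 k18 3 4))))), (.s k3 k2
  0 (.s k51 k34 4 (.s k35 k19 3 (.s k153 k221 9 (.s k169 k253 13 (.d k102 k204 k236 14 10))))))] .n)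

def s7_255_81 : T TT 256 :=
  (.q k1 [(.s k49 k33 3 (.s k153 k221 9 (.s k101 k205 13 (.s k117 k69 3 (.d k253 k185 k169 9
  13))))), (.s k3 k2 0 (.s k33 k49 3 (.s k34 k51 4 (.s k32 k35 0 (.d k48 k16 k18 3 4))))), (.s k3 k2
  0 (.s k51 k34 4 (.s k35 k19 3 (.s k153 k221 9 (.s k169 k253 13 (.d k102 k204 k236 14 10))))))] .n)

def s7_255_82 : T TT 256 :=
  (.q k1 [(.s k49 k33 3 (.s k153 k221 9 (.s k101 k205 13 (.s k117 k69 3 (.d k253 k185 k169 9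
  13))))), (.s k3 k2 0 (.s k33 k49 3 (.s k34 k51 4 (.s k32 k35 0 (.d k48 k16 k18 3 4))))), (.s k3 k2
  0 (.s k51 k34 4 (.s k35 k19 3 (.s k153 k221 9 (.s k169 k253 13 (.d k102 k204 k236 14 10))))))] .n)

def s7_255_83 : T TT 256 :=
  (.q k1 [(.s k3 k2 0 (.s k33 k49 3 (.s k18 k48 4 (.s k19 k16 0 (.d k51 k35 k34 3 4))))), (.s k49
  k33 3 (.s k153 k221 9 (.s k101 k205 13 (.s k117 k69 3 (.d k253 k185 k169 9 13))))), (.s k3 k2 0
  (.s k51 k34 4 (.s k35 k19 3 (.s k153 k221 9 (.s k169 k253 13 (.d k102 k204 k236 14 10))))))] .n)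

def s7_255_84 : T TT 256 :=
  (.q k1 [(.s k49 k33 3 (.s k153 k221 9 (.s k101 k205 13 (.s k117 k69 3 (.d k253 k185 k169 9
  13))))), (.s k3 k2 0 (.s k33 k49 3 (.s k34 k51 4 (.s k32 k35 0 (.d k48 k16 k18 3 4))))), (.s k3 k2
  0 (.s k51 k34 4 (.s k35 k19 3 (.s k153 k221 9 (.s k169 k253 13 (.d k102 k204 k236 14 10))))))] .n)

def s7_255_86 : T TT 256 :=
  (.f k51 k34 4 (.q k165 [(.s k153 k221 9 (.s k177 k141 5 (.s k240 k114 8 (.s k80 k160 11 (.d k90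
  k95 k15 2 14))))), (.s k5 k245 11 (.s k15 k10 2 (.s k39 k27 5 (.s k102 k228 8 (.s k68 k119 4 (.d
  k204 k136 k153 9 14))))))] (.c k15 (.l (.s k153 k221 9 (.s k177 k141 5 (.s k204 k102 14 (.s k136
  k68 9 (.s k170 k187 4 (.s k240 k114 8 (.d k160 k175 k80 2 11)))))))) (.c k153 (.f k5 k245 11 (.l
  (.s k15 k10 2 (.s k39 k27 5 (.s k102 k228 8 (.s k68 k119 4 (.s k204 k136 9 (.s k78 k141 8 (.d k90
  k114 k240 5 14))))))))) (.c k204 (.l (.s k5 k245 11 (.s k15 k10 2 (.s k240 k90 14 (.s k177 k114 8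
  (.d k153 k141 k221 5 9)))))) (.c k240 (.l (.s k153 k221 9 (.s k141 k177 5 (.s k204 k102 14 (.s k15
  k78 8 (.d k5 k10 k245 2 11)))))) .n))))))

def s7_255_87 : T TT 256 :=
  (.f k51 k34 4 (.q k3 [(.s k1 k2 0 (.s k19 k35 3 (.s k18 k16 0 (.d k33 k49 k48 3 4)))), (.s k19 k35
  3 (.s k153 k221 9 (.s k86 k220 10 (.s k169 k252 14 (.s k137 k185 3 (.d k204 k70 k102 10 14)))))),
  (.s k1 k2 0 (.s k153 k221 9 (.s k169 k253 13 (.s k137 k185 3 (.d k204 k70 k102 10 14)))))] (.c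
  k167 (.q k247 [(.s k1 k2 0 (.s k19 k35 3 (.s k18 k16 0 (.d k33 k49 k48 3 4)))), (.s k19 k35 3 (.s
  k153 k221 9 (.s k86 k220 10 (.s k169 k252 14 (.s k137 k185 3 (.d k204 k70 k102 10 14)))))), (.s k1
  k2 0 (.s k153 k221 9 (.s k169 k253 13 (.s k137 k185 3 (.d k204 k70 k102 10 14)))))] .n) (.c k247
  (.q k167 [(.s k1 k2 0 (.s k19 k35 3 (.s k18 k16 0 (.d k33 k49 k48 3 4)))), (.s k19 k35 3 (.s k153
  k221 9 (.s k86 k220 10 (.s k169 k252 14 (.s k137 k185 3 (.d k204 k70 k102 10 14)))))), (.s k1 k2 0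
  (.s k153 k221 9 (.s k169 k253 13 (.s k137 k185 3 (.d k204 k70 k102 10 14)))))] (.c k243 (.q k251
  [(.s k1 k2 0 (.s k19 k35 3 (.s k18 k16 0 (.d k33 k49 k48 3 4)))), (.s k19 k35 3 (.s k153 k221 9
  (.s k86 k220 10 (.s k169 k252 14 (.s k137 k185 3 (.d k204 k70 k102 10 14)))))), (.s k1 k2 0 (.s
  k153 k221 9 (.s k169 k253 13 (.s k137 k185 3 (.d k204 k70 k102 10 14)))))] .n) (.c k251 (.q k243
  [(.s k1 k2 0 (.s k19 k35 3 (.s k18 k16 0 (.d k33 k49 k48 3 4)))), (.s k81 k162 12 (.s k115 k179 7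
  (.s k98 k64 4 (.d k145 k209 k192 7 12))))] .n) .n))) .n))))

def s7_255_88 : T TT 256 :=
  (.q k1 [(.s k3 k2 0 (.s k33 k49 3 (.s k18 k48 4 (.s k19 k16 0 (.d k51 k35 k34 3 4))))), (.s k49
  k33 3 (.s k153 k221 9 (.s k101 k205 13 (.s k117 k69 3 (.d k253 k185 k169 9 13))))), (.s k3 k2 0
  (.s k51 k34 4 (.s k35 k19 3 (.s k153 k221 9 (.s k169 k253 13 (.d k102 k204 k236 14 10))))))] .n)

def s7_255_89 : T TT 256 :=
  (.q k1 [(.s k3 k2 0 (.s k33 k49 3 (.s k18 k48 4 (.s k19 k16 0 (.d k51 k35 k34 3 4))))), (.s k49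
  k33 3 (.s k153 k221 9 (.s k101 k205 13 (.s k117 k69 3 (.d k253 k185 k169 9 13))))), (.s k3 k2 0
  (.s k51 k34 4 (.s k35 k19 3 (.s k153 k221 9 (.s k169 k253 13 (.d k102 k204 k236 14 10))))))] .n)

def s7_255_90 : T TT 256 :=
  (.q k1 [(.s k3 k2 0 (.s k33 k49 3 (.s k18 k48 4 (.s k19 k16 0 (.d k51 k35 k34 3 4))))), (.s k49
  k33 3 (.s k153 k221 9 (.s k101 k205 13 (.s k117 k69 3 (.d k253 k185 k169 9 13))))), (.s k3 k2 0
  (.s k51 k34 4 (.s k35 k19 3 (.s k153 k221 9 (.s k169 k253 13 (.d k102 k204 k236 14 10))))))] .n)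

def s7_255_91 : T TT 256 :=
  (.q k1 [(.s k3 k2 0 (.s k33 k49 3 (.s k18 k48 4 (.s k19 k16 0 (.d k51 k35 k34 3 4))))), (.s k49
  k33 3 (.s k153 k221 9 (.s k101 k205 13 (.s k117 k69 3 (.d k253 k185 k169 9 13))))), (.s k3 k2 0
  (.s k51 k34 4 (.s k35 k19 3 (.s k153 k221 9 (.s k169 k253 13 (.d k102 k204 k236 14 10))))))] .n)

def s7_255_92 : T TT 256 :=
  (.q k1 [(.s k3 k2 0 (.s k33 k49 3 (.s k18 k48 4 (.s k19 k16 0 (.d k51 k35 k34 3 4))))), (.s k49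
  k33 3 (.s k153 k221 9 (.s k101 k205 13 (.s k117 k69 3 (.d k253 k185 k169 9 13))))), (.s k3 k2 0
  (.s k51 k34 4 (.s k35 k19 3 (.s k153 k221 9 (.s k169 k253 13 (.d k102 k204 k236 14 10))))))] .n)

def s7_255_93 : T TT 256 :=
  (.q k12 [(.s k8 k4 1 (.s k51 k34 4 (.s k25 k38 6 (.s k42 k59 4 (.d k21 k29 k63 1 6))))), (.s k4 k8
  1 (.s k153 k221 9 (.s k166 k247 12 (.s k140 k179 6 (.s k204 k76 7 (.s k68 k136 9 (.d k102 k119 k51
  4 14))))))), (.s k51 k34 4 (.s k25 k38 6 (.s k153 k221 9 (.s k89 k217 7 (.s k166 k243 14 (.s k140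
  k179 6 (.d k204 k76 k102 7 14)))))))] (.c k29 (.l (.s k4 k8 1 (.s k51 k34 4 (.s k38 k25 6 (.s k166
  k247 12 (.s k102 k230 7 (.d k153 k221 k204 9 14))))))) (.c k51 (.f k4 k8 1 (.f k153 k221 9 (.l (.s
  k166 k247 12 (.s k140 k179 6 (.s k204 k76 7 (.s k68 k136 9 (.s k243 k89 14 (.s k230 k217 6 (.d
  k102 k119 k38 4 7)))))))))) .n)))

def s7_255_94 : T TT 256 :=
  (.q k1 [(.s k3 k2 0 (.s k33 k49 3 (.s k18 k48 4 (.s k19 k16 0 (.d k51 k35 k34 3 4))))), (.s k49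
  k33 3 (.s k153 k221 9 (.s k101 k205 13 (.s k117 k69 3 (.d k253 k185 k169 9 13))))), (.s k3 k2 0
  (.s k51 k34 4 (.s k35 k19 3 (.s k153 k221 9 (.s k169 k253 13 (.d k102 k204 k236 14 10))))))] .n)

def s7_255_95 : T TT 256 :=
  (.f k51 k34 4 (.q k15 [(.s k5 k10 2 (.s k39 k27 5 (.s k165 k245 11 (.s k102 k228 8 (.d k153 k221
  k204 9 14))))), (.s k5 k10 2 (.s k153 k221 9 (.s k204 k102 14 (.s k141 k78 8 (.d k165 k177 k245 5
  11))))), (.s k27 k39 5 (.s k153 k221 9 (.s k90 k216 8 (.s k204 k102 14 (.s k141 k78 8 (.d k165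
  k177 k240 5 14))))))] (.c k102 (.l (.s k5 k10 2 (.s k27 k39 5 (.s k153 k221 9 (.s k90 k216 8 (.d
  k165 k245 k240 11 14)))))) (.c k153 (.q k1 [(.s k3 k2 0 (.s k19 k35 3 (.s k18 k16 0 (.d k33 k49
  k48 3 4)))), (.s k5 k10 2 (.s k13 k9 1 (.s k49 k33 3 (.s k25 k37 5 (.d k12 k14 k38 0 6))))), (.s
  k3 k2 0 (.s k5 k10 2 (.s k165 k245 11 (.s k169 k253 13 (.s k161 k173 1 (.d k240 k82 k90 12
  14))))))] .n) (.c k165 (.l (.s k10 k5 2 (.s k27 k39 5 (.s k153 k221 9 (.s k90 k216 8 (.s k170 k250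
  11 (.s k136 k187 4 (.d k204 k102 k68 14 9)))))))) (.c k204 (.l (.s k5 k10 2 (.s k165 k245 11 (.s
  k240 k90 14 (.s k177 k114 8 (.d k153 k141 k221 5 9)))))) (.c k221 (.l (.s k5 k10 2 (.s k39 k27 5
  (.s k165 k245 11 (.s k102 k228 8 (.s k68 k119 4 (.d k204 k136 k153 9 14))))))) .n)))))))

def s7_255_96 : T TT 256 :=
  (.q k1 [(.s k49 k33 3 (.s k153 k221 9 (.s k101 k205 13 (.s k117 k69 3 (.d k253 k185 k169 9
  13))))), (.s k3 k2 0 (.s k33 k49 3 (.s k34 k51 4 (.s k32 k35 0 (.d k48 k16 k18 3 4))))), (.s k3 k2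
  0 (.s k51 k34 4 (.s k35 k19 3 (.s k153 k221 9 (.s k169 k253 13 (.d k102 k204 k236 14 10))))))] .n)

def s7_255_97 : T TT 256 :=
  (.q k1 [(.s k3 k2 0 (.s k51 k34 4 (.s k19 k35 3 (.s k18 k16 0 (.d k33 k49 k48 3 4))))), (.s k49
  k33 3 (.s k153 k221 9 (.s k101 k205 13 (.s k117 k69 3 (.d k253 k185 k169 9 13))))), (.s k3 k2 0
  (.s k51 k34 4 (.s k35 k19 3 (.s k153 k221 9 (.s k169 k253 13 (.d k102 k204 k236 14 10))))))] .n)

def s7_255_98 : T TT 256 :=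
  (.q k1 [(.s k3 k2 0 (.s k33 k49 3 (.s k18 k48 4 (.s k19 k16 0 (.d k51 k35 k34 3 4))))), (.s k49
  k33 3 (.s k153 k221 9 (.s k101 k205 13 (.s k117 k69 3 (.d k253 k185 k169 9 13))))), (.s k3 k2 0
  (.s k51 k34 4 (.s k35 k19 3 (.s k153 k221 9 (.s k169 k253 13 (.d k102 k204 k236 14 10))))))] .n)

def s7_255_99 : T TT 256 :=
  (.q k1 [(.s k3 k2 0 (.s k33 k49 3 (.s k18 k48 4 (.s k19 k16 0 (.d k51 k35 k34 3 4))))), (.s k49
  k33 3 (.s k153 k221 9 (.s k101 k205 13 (.s k117 k69 3 (.d k253 k185 k169 9 13))))), (.s k3 k2 0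
  (.s k51 k34 4 (.s k35 k19 3 (.s k153 k221 9 (.s k169 k253 13 (.d k102 k204 k236 14 10))))))] .n)

def s7_255_100 : T TT 256 :=
  (.q k1 [(.s k49 k33 3 (.s k153 k221 9 (.s k101 k205 13 (.s k117 k69 3 (.d k253 k185 k169 9
  13))))), (.s k3 k2 0 (.s k33 k49 3 (.s k34 k51 4 (.s k32 k35 0 (.d k48 k16 k18 3 4))))), (.s k3 k2
  0 (.s k51 k34 4 (.s k35 k19 3 (.s k153 k221 9 (.s k169 k253 13 (.d k102 k204 k236 14 10))))))] .n)

def s7_255_101 : T TT 256 :=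
  (.q k16 [(.s k19 k18 0 (.s k153 k221 9 (.s k86 k220 10 (.s k87 k84 0 (.d k223 k155 k154 9 10))))),
  (.s k18 k19 0 (.s k34 k51 4 (.s k2 k50 3 (.s k3 k1 0 (.d k48 k32 k33 3 4))))), (.s k48 k32 3 (.s
  k51 k34 4 (.s k50 k49 0 (.s k153 k221 9 (.s k154 k223 10 (.d k102 k204 k206 14 13))))))] .n)

def s7_255_102 : T TT 256 :=
  (.q k1 [(.s k3 k2 0 (.s k33 k49 3 (.s k18 k48 4 (.s k19 k16 0 (.d k51 k35 k34 3 4))))), (.s k49
  k33 3 (.s k153 k221 9 (.s k101 k205 13 (.s k117 k69 3 (.d k253 k185 k169 9 13))))), (.s k3 k2 0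
  (.s k51 k34 4 (.s k153 k221 9 (.s k169 k253 13 (.s k185 k137 3 (.d k252 k118 k86 10 14))))))] .n)

def s7_255_103 : T TT 256 :=
  (.q k1 [(.s k3 k2 0 (.s k33 k49 3 (.s k18 k48 4 (.s k19 k16 0 (.d k51 k35 k34 3 4))))), (.s k49
  k33 3 (.s k153 k221 9 (.s k101 k205 13 (.s k117 k69 3 (.d k253 k185 k169 9 13))))), (.s k3 k2 0
  (.s k51 k34 4 (.s k35 k19 3 (.s k153 k221 9 (.s k169 k253 13 (.d k102 k204 k236 14 10))))))] .n)

def s7_255_104 : T TT 256 :=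
  (.q k1 [(.s k3 k2 0 (.s k33 k49 3 (.s k18 k48 4 (.s k19 k16 0 (.d k51 k35 k34 3 4))))), (.s k49
  k33 3 (.s k153 k221 9 (.s k101 k205 13 (.s k117 k69 3 (.d k253 k185 k169 9 13))))), (.s k3 k2 0
  (.s k51 k34 4 (.s k35 k19 3 (.s k153 k221 9 (.s k169 k253 13 (.d k102 k204 k236 14 10))))))] .n)

def s7_255_105 : T TT 256 :=
  (.q k1 [(.s k3 k2 0 (.s k33 k49 3 (.s k18 k48 4 (.s k19 k16 0 (.d k51 k35 k34 3 4))))), (.s k49
  k33 3 (.s k153 k221 9 (.s k101 k205 13 (.s k117 k69 3 (.d k253 k185 k169 9 13))))), (.s k3 k2 0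
  (.s k51 k34 4 (.s k35 k19 3 (.s k153 k221 9 (.s k169 k253 13 (.d k102 k204 k236 14 10))))))] .n)

def s7_255_106 : T TT 256 :=
  (.q k1 [(.s k3 k2 0 (.s k33 k49 3 (.s k18 k48 4 (.s k19 k16 0 (.d k51 k35 k34 3 4))))), (.s k49
  k33 3 (.s k153 k221 9 (.s k101 k205 13 (.s k117 k69 3 (.d k253 k185 k169 9 13))))), (.s k3 k2 0
  (.s k51 k34 4 (.s k35 k19 3 (.s k153 k221 9 (.s k169 k253 13 (.d k102 k204 k236 14 10))))))] .n)

def s7_255_107 : T TT 256 :=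
  (.q k1 [(.s k3 k2 0 (.s k33 k49 3 (.s k18 k48 4 (.s k19 k16 0 (.d k51 k35 k34 3 4))))), (.s k49
  k33 3 (.s k153 k221 9 (.s k101 k205 13 (.s k117 k69 3 (.d k253 k185 k169 9 13))))), (.s k3 k2 0
  (.s k51 k34 4 (.s k35 k19 3 (.s k153 k221 9 (.s k169 k253 13 (.d k102 k204 k236 14 10))))))] .n)

def s7_255_108 : T TT 256 :=
  (.q k1 [(.s k3 k2 0 (.s k33 k49 3 (.s k18 k48 4 (.s k19 k16 0 (.d k51 k35 k34 3 4))))), (.s k49
  k33 3 (.s k153 k221 9 (.s k101 k205 13 (.s k117 k69 3 (.d k253 k185 k169 9 13))))), (.s k3 k2 0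
  (.s k51 k34 4 (.s k35 k19 3 (.s k153 k221 9 (.s k169 k253 13 (.d k102 k204 k236 14 10))))))] .n)

def s7_255_109 : T TT 256 :=
  (.q k1 [(.s k3 k2 0 (.s k33 k49 3 (.s k18 k48 4 (.s k19 k16 0 (.d k51 k35 k34 3 4))))), (.s k49
  k33 3 (.s k153 k221 9 (.s k101 k205 13 (.s k117 k69 3 (.d k253 k185 k169 9 13))))), (.s k3 k2 0
  (.s k51 k34 4 (.s k35 k19 3 (.s k153 k221 9 (.s k169 k253 13 (.d k102 k204 k236 14 10))))))] .n)

def s7_255_110 : T TT 256 :=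
  (.q k1 [(.s k3 k2 0 (.s k33 k49 3 (.s k18 k48 4 (.s k19 k16 0 (.d k51 k35 k34 3 4))))), (.s k49
  k33 3 (.s k153 k221 9 (.s k101 k205 13 (.s k117 k69 3 (.d k253 k185 k169 9 13))))), (.s k3 k2 0
  (.s k51 k34 4 (.s k35 k19 3 (.s k153 k221 9 (.s k169 k253 13 (.d k102 k204 k236 14 10))))))] .n)

def s7_255_111 : T TT 256 :=
  (.q k1 [(.s k3 k2 0 (.s k33 k49 3 (.s k18 k48 4 (.s k19 k16 0 (.d k51 k35 k34 3 4))))), (.s k49
  k33 3 (.s k153 k221 9 (.s k101 k205 13 (.s k117 k69 3 (.d k253 k185 k169 9 13))))), (.s k3 k2 0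
  (.s k51 k34 4 (.s k35 k19 3 (.s k153 k221 9 (.s k169 k253 13 (.d k102 k204 k236 14 10))))))] .n)

def s7_255_112 : T TT 256 :=
  (.q k1 [(.s k49 k33 3 (.s k153 k221 9 (.s k101 k205 13 (.s k117 k69 3 (.d k253 k185 k169 9
  13))))), (.s k3 k2 0 (.s k33 k49 3 (.s k34 k51 4 (.s k32 k35 0 (.d k48 k16 k18 3 4))))), (.s k3 k2
  0 (.s k51 k34 4 (.s k35 k19 3 (.s k153 k221 9 (.s k169 k253 13 (.d k102 k204 k236 14 10))))))] .n)

def s7_255_113 : T TT 256 :=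
  (.q k1 [(.s k3 k2 0 (.s k51 k34 4 (.s k19 k35 3 (.s k18 k16 0 (.d k33 k49 k48 3 4))))), (.s k49
  k33 3 (.s k153 k221 9 (.s k101 k205 13 (.s k117 k69 3 (.d k253 k185 k169 9 13))))), (.s k3 k2 0
  (.s k51 k34 4 (.s k35 k19 3 (.s k153 k221 9 (.s k169 k253 13 (.d k102 k204 k236 14 10))))))] .n)

def s7_255_114 : T TT 256 :=
  (.q k1 [(.s k3 k2 0 (.s k33 k49 3 (.s k18 k48 4 (.s k19 k16 0 (.d k51 k35 k34 3 4))))), (.s k49
  k33 3 (.s k153 k221 9 (.s k101 k205 13 (.s k117 k69 3 (.d k253 k185 k169 9 13))))), (.s k3 k2 0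
  (.s k51 k34 4 (.s k35 k19 3 (.s k153 k221 9 (.s k169 k253 13 (.d k102 k204 k236 14 10))))))] .n)

def s7_255_115 : T TT 256 :=
  (.q k1 [(.s k3 k2 0 (.s k33 k49 3 (.s k18 k48 4 (.s k19 k16 0 (.d k51 k35 k34 3 4))))), (.s k49
  k33 3 (.s k153 k221 9 (.s k101 k205 13 (.s k117 k69 3 (.d k253 k185 k169 9 13))))), (.s k3 k2 0
  (.s k51 k34 4 (.s k35 k19 3 (.s k153 k221 9 (.s k169 k253 13 (.d k102 k204 k236 14 10))))))] .n)

def s7_255_116 : T TT 256 :=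
  (.q k1 [(.s k49 k33 3 (.s k153 k221 9 (.s k101 k205 13 (.s k117 k69 3 (.d k253 k185 k169 9
  13))))), (.s k3 k2 0 (.s k33 k49 3 (.s k34 k51 4 (.s k32 k35 0 (.d k48 k16 k18 3 4))))), (.s k3 k2
  0 (.s k51 k34 4 (.s k35 k19 3 (.s k153 k221 9 (.s k169 k253 13 (.d k102 k204 k236 14 10))))))] .n)

def s7_255_117 : T TT 256 :=
  (.q k48 [(.s k16 k32 3 (.s k18 k19 0 (.s k3 k33 4 (.s k2 k1 0 (.d k34 k50 k51 3 4))))), (.s k16
  k32 3 (.s k19 k18 0 (.s k153 k221 9 (.s k86 k220 10 (.s k87 k84 0 (.d k223 k155 k154 9 10)))))),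
  (.s k51 k34 4 (.s k49 k50 0 (.s k153 k221 9 (.s k101 k205 13 (.s k154 k207 14 (.s k152 k155 0 (.d
  k204 k100 k102 13 14)))))))] (.c k18 (.l (.s k16 k32 3 (.s k51 k34 4 (.s k50 k49 0 (.s k153 k221 9
  (.s k154 k223 10 (.d k102 k204 k206 14 13))))))) .n))

def s7_255_118 : T TT 256 :=
  (.q k1 [(.s k3 k2 0 (.s k33 k49 3 (.s k18 k48 4 (.s k19 k16 0 (.d k51 k35 k34 3 4))))), (.s k49
  k33 3 (.s k153 k221 9 (.s k101 k205 13 (.s k117 k69 3 (.d k253 k185 k169 9 13))))), (.s k3 k2 0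
  (.s k51 k34 4 (.s k35 k19 3 (.s k153 k221 9 (.s k169 k253 13 (.d k102 k204 k236 14 10))))))] .n)

def s7_255_119 : T TT 256 :=
  (.f k51 k34 4 (.q k1 [(.s k3 k2 0 (.s k19 k35 3 (.s k18 k16 0 (.d k33 k49 k48 3 4)))), (.s k49 k33
  3 (.s k153 k221 9 (.s k101 k205 13 (.s k117 k69 3 (.d k253 k185 k169 9 13))))), (.s k3 k2 0 (.s
  k153 k221 9 (.s k169 k253 13 (.s k137 k185 3 (.d k204 k70 k102 10 14)))))] (.c k49 (.l (.s k3 k2 0
  (.s k19 k35 3 (.s k153 k221 9 (.s k86 k220 10 (.d k169 k253 k252 13 14)))))) .n)))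

def s7_255_120 : T TT 256 :=
  (.q k1 [(.s k3 k2 0 (.s k33 k49 3 (.s k18 k48 4 (.s k19 k16 0 (.d k51 k35 k34 3 4))))), (.s k49
  k33 3 (.s k153 k221 9 (.s k101 k205 13 (.s k117 k69 3 (.d k253 k185 k169 9 13))))), (.s k3 k2 0
  (.s k51 k34 4 (.s k35 k19 3 (.s k153 k221 9 (.s k169 k253 13 (.d k102 k204 k236 14 10))))))] .n)

def s7_255_121 : T TT 256 :=
  (.q k1 [(.s k3 k2 0 (.s k33 k49 3 (.s k18 k48 4 (.s k19 k16 0 (.d k51 k35 k34 3 4))))), (.s k49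
  k33 3 (.s k153 k221 9 (.s k101 k205 13 (.s k117 k69 3 (.d k253 k185 k169 9 13))))), (.s k3 k2 0
  (.s k51 k34 4 (.s k35 k19 3 (.s k153 k221 9 (.s k169 k253 13 (.d k102 k204 k236 14 10))))))] .n)

def s7_255_122 : T TT 256 :=
  (.q k1 [(.s k3 k2 0 (.s k33 k49 3 (.s k18 k48 4 (.s k19 k16 0 (.d k51 k35 k34 3 4))))), (.s k49
  k33 3 (.s k153 k221 9 (.s k101 k205 13 (.s k117 k69 3 (.d k253 k185 k169 9 13))))), (.s k3 k2 0
  (.s k51 k34 4 (.s k35 k19 3 (.s k153 k221 9 (.s k169 k253 13 (.d k102 k204 k236 14 10))))))] .n)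

def s7_255_123 : T TT 256 :=
  (.q k1 [(.s k3 k2 0 (.s k33 k49 3 (.s k18 k48 4 (.s k19 k16 0 (.d k51 k35 k34 3 4))))), (.s k49
  k33 3 (.s k153 k221 9 (.s k101 k205 13 (.s k117 k69 3 (.d k253 k185 k169 9 13))))), (.s k3 k2 0
  (.s k51 k34 4 (.s k35 k19 3 (.s k153 k221 9 (.s k169 k253 13 (.d k102 k204 k236 14 10))))))] .n)

def s7_255_124 : T TT 256 :=
  (.q k1 [(.s k3 k2 0 (.s k33 k49 3 (.s k18 k48 4 (.s k19 k16 0 (.d k51 k35 k34 3 4))))), (.s k49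
  k33 3 (.s k153 k221 9 (.s k101 k205 13 (.s k117 k69 3 (.d k253 k185 k169 9 13))))), (.s k3 k2 0
  (.s k51 k34 4 (.s k35 k19 3 (.s k153 k221 9 (.s k169 k253 13 (.d k102 k204 k236 14 10))))))] .n)

def s7_255_125 : T TT 256 :=
  (.f k51 k34 4 (.q k60 [(.s k20 k40 5 (.s k54 k57 2 (.s k150 k215 8 (.s k102 k198 11 (.d k153 k221
  k204 9 14))))), (.s k20 k40 5 (.s k153 k221 9 (.s k204 k102 14 (.s k156 k108 11 (.d k150 k147 k215
  2 8))))), (.s k57 k54 2 (.s k153 k221 9 (.s k105 k201 11 (.s k195 k150 14 (.s k99 k147 11 (.d k102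
  k204 k108 14 2))))))] (.c k102 (.l (.s k20 k40 5 (.s k57 k54 2 (.s k150 k215 8 (.s k153 k221 9 (.d
  k105 k195 k201 14 11)))))) (.c k150 (.l (.s k40 k20 5 (.s k57 k54 2 (.s k153 k221 9 (.s k105 k201
  11 (.s k170 k235 8 (.s k136 k187 4 (.d k204 k102 k68 14 9)))))))) (.c k153 (.q k1 [(.s k3 k2 0 (.s
  k19 k35 3 (.s k18 k16 0 (.d k33 k49 k48 3 4)))), (.s k49 k33 3 (.s k57 k54 2 (.s k61 k53 1 (.s k21
  k41 5 (.d k63 k62 k42 0 6))))), (.s k3 k2 0 (.s k40 k20 5 (.s k41 k22 6 (.s k21 k61 5 (.d k42 k43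
  k63 0 6)))))] .n) (.c k204 (.l (.s k20 k40 5 (.s k150 k215 8 (.s k195 k105 14 (.s k147 k99 11 (.d
  k153 k156 k221 2 9)))))) (.c k221 (.l (.s k20 k40 5 (.s k54 k57 2 (.s k150 k215 8 (.s k102 k198 11
  (.s k68 k119 4 (.d k204 k136 k153 9 14))))))) .n)))))))

def s7_255_126 : T TT 256 :=
  (.q k1 [(.s k3 k2 0 (.s k33 k49 3 (.s k18 k48 4 (.s k19 k16 0 (.d k51 k35 k34 3 4))))), (.s k49
  k33 3 (.s k153 k221 9 (.s k101 k205 13 (.s k117 k69 3 (.d k253 k185 k169 9 13))))), (.s k3 k2 0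
  (.s k51 k34 4 (.s k35 k19 3 (.s k153 k221 9 (.s k169 k253 13 (.d k102 k204 k236 14 10))))))] .n)

def s7_255_127 : T TT 256 :=
  (.q k63 [(.s k21 k42 6 (.s k25 k29 1 (.s k51 k34 4 (.s k55 k59 1 (.d k38 k4 k12 4 6))))), (.s k51
  k34 4 (.s k59 k55 1 (.s k153 k221 9 (.s k106 k200 12 (.s k149 k192 14 (.s k157 k145 1 (.d k204
  k110 k102 12 14))))))), (.s k21 k42 6 (.s k29 k25 1 (.s k149 k213 7 (.s k89 k209 9 (.s k93 k81 1
  (.d k221 k157 k153 7 9))))))] (.c k59 (.l (.s k21 k42 6 (.s k51 k34 4 (.s k149 k213 7 (.s k153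
  k221 9 (.s k145 k157 1 (.d k192 k98 k106 12 14))))))) .n))

def s7_255_128 : T TT 256 :=
  (.q k1 [(.s k3 k2 0 (.s k33 k49 3 (.s k18 k48 4 (.s k19 k16 0 (.d k51 k35 k34 3 4))))), (.s k49
  k33 3 (.s k153 k221 9 (.s k101 k205 13 (.s k117 k69 3 (.d k253 k185 k169 9 13))))), (.s k3 k2 0
  (.s k51 k34 4 (.s k35 k19 3 (.s k153 k221 9 (.s k169 k253 13 (.d k102 k204 k236 14 10))))))] .n)

def s7_255_129 : T TT 256 :=
  (.q k1 [(.s k3 k2 0 (.s k33 k49 3 (.s k18 k48 4 (.s k19 k16 0 (.d k51 k35 k34 3 4))))), (.s k49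
  k33 3 (.s k153 k221 9 (.s k101 k205 13 (.s k117 k69 3 (.d k253 k185 k169 9 13))))), (.s k3 k2 0
  (.s k51 k34 4 (.s k35 k19 3 (.s k153 k221 9 (.s k169 k253 13 (.d k102 k204 k236 14 10))))))] .n)

def s7_255_130 : T TT 256 :=
  (.q k1 [(.s k49 k33 3 (.s k153 k221 9 (.s k101 k205 13 (.s k117 k69 3 (.d k253 k185 k169 9
  13))))), (.s k3 k2 0 (.s k33 k49 3 (.s k34 k51 4 (.s k32 k35 0 (.d k48 k16 k18 3 4))))), (.s k3 k2
  0 (.s k51 k34 4 (.s k35 k19 3 (.s k153 k221 9 (.s k169 k253 13 (.d k102 k204 k236 14 10))))))] .n)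

def s7_255_131 : T TT 256 :=
  (.q k1 [(.s k3 k2 0 (.s k33 k49 3 (.s k18 k48 4 (.s k19 k16 0 (.d k51 k35 k34 3 4))))), (.s k49
  k33 3 (.s k153 k221 9 (.s k101 k205 13 (.s k117 k69 3 (.d k253 k185 k169 9 13))))), (.s k3 k2 0
  (.s k51 k34 4 (.s k35 k19 3 (.s k153 k221 9 (.s k169 k253 13 (.d k102 k204 k236 14 10))))))] .n)

def s7_255_132 : T TT 256 :=
  (.q k1 [(.s k3 k2 0 (.s k33 k49 3 (.s k18 k48 4 (.s k19 k16 0 (.d k51 k35 k34 3 4))))), (.s k49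
  k33 3 (.s k153 k221 9 (.s k101 k205 13 (.s k117 k69 3 (.d k253 k185 k169 9 13))))), (.s k3 k2 0
  (.s k51 k34 4 (.s k35 k19 3 (.s k153 k221 9 (.s k169 k253 13 (.d k102 k204 k236 14 10))))))] .n)

def s7_255_133 : T TT 256 :=
  (.f k221 k153 9 (.f k51 k34 4 (.q k81 [(.s k89 k93 1 (.s k209 k145 7 (.s k149 k29 9 (.d k213 k217
  k21 1 7)))), (.s k145 k209 7 (.s k162 k243 12 (.s k128 k179 4 (.d k192 k64 k98 7 12)))), (.s k89
  k93 1 (.s k243 k162 12 (.s k12 k166 14 (.s k8 k4 1 (.s k25 k38 6 (.s k21 k29 1 (.d k42 k59 k63 4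
  6)))))))] (.c k70 (.q k196 [(.s k89 k93 1 (.s k209 k145 7 (.s k149 k29 9 (.d k213 k217 k21 1
  7)))), (.s k145 k209 7 (.s k162 k243 12 (.s k128 k179 4 (.d k192 k64 k98 7 12)))), (.s k89 k93 1
  (.s k243 k162 12 (.s k12 k166 14 (.s k4 k8 1 (.s k68 k132 7 (.s k102 k119 4 (.d k115 k179 k76 7
  6)))))))] .n) (.c k196 (.q k70 [(.s k89 k93 1 (.s k209 k145 7 (.s k149 k29 9 (.d k213 k217 k21 1
  7)))), (.s k145 k209 7 (.s k162 k243 12 (.s k128 k179 4 (.d k192 k64 k98 7 12)))), (.s k89 k93 1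
  (.s k243 k162 12 (.s k12 k166 14 (.s k8 k4 1 (.s k25 k38 6 (.s k21 k29 1 (.d k42 k59 k63 4
  6)))))))] .n) .n)))))

def s7_255_134 : T TT 256 :=
  (.q k1 [(.s k3 k2 0 (.s k33 k49 3 (.s k18 k48 4 (.s k19 k16 0 (.d k51 k35 k34 3 4))))), (.s k49
  k33 3 (.s k153 k221 9 (.s k101 k205 13 (.s k117 k69 3 (.d k253 k185 k169 9 13))))), (.s k3 k2 0
  (.s k51 k34 4 (.s k35 k19 3 (.s k153 k221 9 (.s k169 k253 13 (.d k102 k204 k236 14 10))))))] .n)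

def s7_255_135 : T TT 256 :=
  (.f k221 k153 9 (.f k51 k34 4 (.q k21 [(.s k29 k25 1 (.s k93 k157 7 (.s k89 k81 1 (.d k149 k213
  k209 7 9)))), (.s k25 k29 1 (.s k12 k38 6 (.s k8 k4 1 (.d k42 k59 k63 4 6)))), (.s k63 k42 6 (.s
  k149 k213 7 (.s k192 k106 14 (.s k128 k64 7 (.s k145 k98 12 (.s k81 k209 7 (.d k162 k179 k243 4
  12)))))))] (.c k71 (.q k199 [(.s k29 k25 1 (.s k93 k157 7 (.s k89 k81 1 (.d k149 k213 k209 7
  9)))), (.s k63 k42 6 (.s k55 k59 1 (.s k103 k151 11 (.s k207 k155 13 (.s k69 k138 10 (.d k4 k38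
  k134 4 8))))))] (.c k25 (.l (.s k63 k42 6 (.s k149 k213 7 (.s k192 k106 14 (.s k128 k64 7 (.s k145
  k98 12 (.s k81 k209 7 (.d k162 k179 k243 4 12)))))))) .n)) (.c k199 (.q k71 [(.s k29 k25 1 (.s k93
  k157 7 (.s k89 k81 1 (.d k149 k213 k209 7 9)))), (.s k25 k29 1 (.s k12 k38 6 (.s k8 k4 1 (.d k42
  k59 k63 4 6)))), (.s k63 k42 6 (.s k149 k213 7 (.s k192 k106 14 (.s k128 k64 7 (.s k145 k98 12 (.s
  k81 k209 7 (.d k162 k179 k243 4 12)))))))] .n) .n)))))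

def s7_255_136 : T TT 256 :=
  (.q k1 [(.s k3 k2 0 (.s k33 k49 3 (.s k18 k48 4 (.s k19 k16 0 (.d k51 k35 k34 3 4))))), (.s k49
  k33 3 (.s k153 k221 9 (.s k101 k205 13 (.s k117 k69 3 (.d k253 k185 k169 9 13))))), (.s k3 k2 0
  (.s k51 k34 4 (.s k35 k19 3 (.s k153 k221 9 (.s k169 k253 13 (.d k102 k204 k236 14 10))))))] .n)

def s7_255_137 : T TT 256 :=
  (.q k1 [(.s k3 k2 0 (.s k33 k49 3 (.s k18 k48 4 (.s k19 k16 0 (.d k51 k35 k34 3 4))))), (.s k49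
  k33 3 (.s k153 k221 9 (.s k101 k205 13 (.s k117 k69 3 (.d k253 k185 k169 9 13))))), (.s k3 k2 0
  (.s k51 k34 4 (.s k35 k19 3 (.s k153 k221 9 (.s k169 k253 13 (.d k102 k204 k236 14 10))))))] .n)

def s7_255_138 : T TT 256 :=
  (.q k1 [(.s k49 k33 3 (.s k153 k221 9 (.s k101 k205 13 (.s k117 k69 3 (.d k253 k185 k169 9
  13))))), (.s k3 k2 0 (.s k33 k49 3 (.s k34 k51 4 (.s k32 k35 0 (.d k48 k16 k18 3 4))))), (.s k3 k2
  0 (.s k51 k34 4 (.s k35 k19 3 (.s k153 k221 9 (.s k169 k253 13 (.d k102 k204 k236 14 10))))))] .n)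

def s7_255_139 : T TT 256 :=
  (.q k1 [(.s k3 k2 0 (.s k33 k49 3 (.s k18 k48 4 (.s k19 k16 0 (.d k51 k35 k34 3 4))))), (.s k49
  k33 3 (.s k153 k221 9 (.s k101 k205 13 (.s k117 k69 3 (.d k253 k185 k169 9 13))))), (.s k3 k2 0
  (.s k51 k34 4 (.s k35 k19 3 (.s k153 k221 9 (.s k169 k253 13 (.d k102 k204 k236 14 10))))))] .n)

def s7_255_140 : T TT 256 :=
  (.q k1 [(.s k3 k2 0 (.s k33 k49 3 (.s k18 k48 4 (.s k19 k16 0 (.d k51 k35 k34 3 4))))), (.s k49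
  k33 3 (.s k153 k221 9 (.s k101 k205 13 (.s k117 k69 3 (.d k253 k185 k169 9 13))))), (.s k3 k2 0
  (.s k51 k34 4 (.s k35 k19 3 (.s k153 k221 9 (.s k169 k253 13 (.d k102 k204 k236 14 10))))))] .n)

def s7_255_141 : T TT 256 :=
  (.q k1 [(.s k3 k2 0 (.s k33 k49 3 (.s k18 k48 4 (.s k19 k16 0 (.d k51 k35 k34 3 4))))), (.s k49
  k33 3 (.s k153 k221 9 (.s k101 k205 13 (.s k117 k69 3 (.d k253 k185 k169 9 13))))), (.s k3 k2 0
  (.s k51 k34 4 (.s k35 k19 3 (.s k153 k221 9 (.s k169 k253 13 (.d k102 k204 k236 14 10))))))] .n)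

def s7_255_142 : T TT 256 :=
  (.q k1 [(.s k3 k2 0 (.s k33 k49 3 (.s k18 k48 4 (.s k19 k16 0 (.d k51 k35 k34 3 4))))), (.s k49
  k33 3 (.s k153 k221 9 (.s k101 k205 13 (.s k117 k69 3 (.d k253 k185 k169 9 13))))), (.s k3 k2 0
  (.s k51 k34 4 (.s k35 k19 3 (.s k153 k221 9 (.s k169 k253 13 (.d k102 k204 k236 14 10))))))] .n)

def s7_255_143 : T TT 256 :=
  (.q k1 [(.s k3 k2 0 (.s k33 k49 3 (.s k18 k48 4 (.s k19 k16 0 (.d k51 k35 k34 3 4))))), (.s k49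
  k33 3 (.s k153 k221 9 (.s k101 k205 13 (.s k117 k69 3 (.d k253 k185 k169 9 13))))), (.s k3 k2 0
  (.s k51 k34 4 (.s k35 k19 3 (.s k153 k221 9 (.s k169 k253 13 (.d k102 k204 k236 14 10))))))] .n)

def s7_255_144 : T TT 256 :=
  (.q k1 [(.s k49 k33 3 (.s k153 k221 9 (.s k101 k205 13 (.s k117 k69 3 (.d k253 k185 k169 9
  13))))), (.s k3 k2 0 (.s k33 k49 3 (.s k34 k51 4 (.s k32 k35 0 (.d k48 k16 k18 3 4))))), (.s k3 k2
  0 (.s k51 k34 4 (.s k35 k19 3 (.s k153 k221 9 (.s k169 k253 13 (.d k102 k204 k236 14 10))))))] .n)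

def s7_255_145 : T TT 256 :=
  (.q k1 [(.s k3 k2 0 (.s k51 k34 4 (.s k19 k35 3 (.s k18 k16 0 (.d k33 k49 k48 3 4))))), (.s k49
  k33 3 (.s k153 k221 9 (.s k101 k205 13 (.s k117 k69 3 (.d k253 k185 k169 9 13))))), (.s k3 k2 0
  (.s k51 k34 4 (.s k35 k19 3 (.s k153 k221 9 (.s k169 k253 13 (.d k102 k204 k236 14 10))))))] .n)

def s7_255_146 : T TT 256 :=
  (.q k1 [(.s k49 k33 3 (.s k153 k221 9 (.s k101 k205 13 (.s k117 k69 3 (.d k253 k185 k169 9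
  13))))), (.s k3 k2 0 (.s k33 k49 3 (.s k34 k51 4 (.s k32 k35 0 (.d k48 k16 k18 3 4))))), (.s k3 k2
  0 (.s k51 k34 4 (.s k35 k19 3 (.s k153 k221 9 (.s k169 k253 13 (.d k102 k204 k236 14 10))))))] .n)

def s7_255_147 : T TT 256 :=
  (.q k1 [(.s k3 k2 0 (.s k33 k49 3 (.s k18 k48 4 (.s k19 k16 0 (.d k51 k35 k34 3 4))))), (.s k49
  k33 3 (.s k153 k221 9 (.s k101 k205 13 (.s k117 k69 3 (.d k253 k185 k169 9 13))))), (.s k3 k2 0
  (.s k51 k34 4 (.s k35 k19 3 (.s k153 k221 9 (.s k169 k253 13 (.d k102 k204 k236 14 10))))))] .n)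

def s7_255_148 : T TT 256 :=
  (.q k1 [(.s k3 k2 0 (.s k33 k49 3 (.s k18 k48 4 (.s k19 k16 0 (.d k51 k35 k34 3 4))))), (.s k49
  k33 3 (.s k153 k221 9 (.s k101 k205 13 (.s k117 k69 3 (.d k253 k185 k169 9 13))))), (.s k3 k2 0
  (.s k51 k34 4 (.s k35 k19 3 (.s k153 k221 9 (.s k169 k253 13 (.d k102 k204 k236 14 10))))))] .n)

def s7_255_149 : T TT 256 :=
  (.q k1 [(.s k3 k2 0 (.s k33 k49 3 (.s k18 k48 4 (.s k19 k16 0 (.d k51 k35 k34 3 4))))), (.s k49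
  k33 3 (.s k153 k221 9 (.s k101 k205 13 (.s k117 k69 3 (.d k253 k185 k169 9 13))))), (.s k3 k2 0
  (.s k51 k34 4 (.s k35 k19 3 (.s k153 k221 9 (.s k169 k253 13 (.d k102 k204 k236 14 10))))))] .n)

def s7_255_150 : T TT 256 :=
  (.q k1 [(.s k3 k2 0 (.s k33 k49 3 (.s k18 k48 4 (.s k19 k16 0 (.d k51 k35 k34 3 4))))), (.s k49
  k33 3 (.s k153 k221 9 (.s k101 k205 13 (.s k117 k69 3 (.d k253 k185 k169 9 13))))), (.s k3 k2 0
  (.s k51 k34 4 (.s k35 k19 3 (.s k153 k221 9 (.s k169 k253 13 (.d k102 k204 k236 14 10))))))] .n)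

def s7_255_151 : T TT 256 :=
  (.q k1 [(.s k3 k2 0 (.s k33 k49 3 (.s k18 k48 4 (.s k19 k16 0 (.d k51 k35 k34 3 4))))), (.s k49
  k33 3 (.s k153 k221 9 (.s k101 k205 13 (.s k117 k69 3 (.d k253 k185 k169 9 13))))), (.s k3 k2 0
  (.s k51 k34 4 (.s k35 k19 3 (.s k153 k221 9 (.s k169 k253 13 (.d k102 k204 k236 14 10))))))] .n)

def s7_255_152 : T TT 256 :=
  (.q k1 [(.s k49 k33 3 (.s k153 k221 9 (.s k101 k205 13 (.s k117 k69 3 (.d k253 k185 k169 9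
  13))))), (.s k3 k2 0 (.s k33 k49 3 (.s k34 k51 4 (.s k32 k35 0 (.d k48 k16 k18 3 4))))), (.s k3 k2
  0 (.s k51 k34 4 (.s k35 k19 3 (.s k153 k221 9 (.s k169 k253 13 (.d k102 k204 k236 14 10))))))] .n)

def s7_255_153 : T TT 256 :=
  (.f k51 k34 4 (.q k21 [(.s k25 k29 1 (.s k12 k38 6 (.s k8 k4 1 (.d k42 k59 k63 4 6)))), (.s k63
  k42 6 (.s k149 k213 7 (.s k192 k106 14 (.s k128 k64 7 (.s k145 k98 12 (.s k81 k209 7 (.d k162 k179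
  k243 4 12))))))), (.s k29 k25 1 (.s k149 k213 7 (.s k89 k209 9 (.s k81 k93 1 (.s k243 k162 12 (.s
  k12 k166 14 (.d k63 k46 k42 4 6)))))))] (.c k42 (.f k29 k25 1 (.f k149 k213 7 (.f k89 k209 9 (.l
  (.s k81 k93 1 (.s k243 k162 12 (.s k115 k179 7 (.s k102 k76 6 (.s k55 k196 12 (.s k38 k4 4 (.d
  k166 k230 k12 7 14))))))))))) (.c k46 (.l (.s k25 k29 1 (.s k12 k38 6 (.s k42 k63 6 (.d k8 k4 k59
  1 4))))) (.c k63 (.f k29 k25 1 (.f k149 k213 7 (.f k89 k209 9 (.l (.s k81 k93 1 (.s k243 k162 12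
  (.s k12 k166 14 (.s k4 k8 1 (.s k55 k38 4 (.s k102 k196 12 (.d k115 k179 k76 7 6)))))))))))
  .n)))))

def s7_255_154 : T TT 256 :=
  (.q k1 [(.s k49 k33 3 (.s k153 k221 9 (.s k101 k205 13 (.s k117 k69 3 (.d k253 k185 k169 9
  13))))), (.s k3 k2 0 (.s k33 k49 3 (.s k34 k51 4 (.s k32 k35 0 (.d k48 k16 k18 3 4))))), (.s k3 k2
  0 (.s k51 k34 4 (.s k35 k19 3 (.s k153 k221 9 (.s k169 k253 13 (.d k102 k204 k236 14 10))))))] .n)

def s7_255_155 : T TT 256 :=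
  (.q k1 [(.s k3 k2 0 (.s k33 k49 3 (.s k18 k48 4 (.s k19 k16 0 (.d k51 k35 k34 3 4))))), (.s k49
  k33 3 (.s k153 k221 9 (.s k101 k205 13 (.s k117 k69 3 (.d k253 k185 k169 9 13))))), (.s k3 k2 0
  (.s k51 k34 4 (.s k35 k19 3 (.s k153 k221 9 (.s k169 k253 13 (.d k102 k204 k236 14 10))))))] .n)

def s7_255_156 : T TT 256 :=
  (.q k1 [(.s k3 k2 0 (.s k33 k49 3 (.s k18 k48 4 (.s k19 k16 0 (.d k51 k35 k34 3 4))))), (.s k49
  k33 3 (.s k153 k221 9 (.s k101 k205 13 (.s k117 k69 3 (.d k253 k185 k169 9 13))))), (.s k3 k2 0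
  (.s k51 k34 4 (.s k35 k19 3 (.s k153 k221 9 (.s k169 k253 13 (.d k102 k204 k236 14 10))))))] .n)

def s7_255_157 : T TT 256 :=
  (.q k1 [(.s k3 k2 0 (.s k33 k49 3 (.s k18 k48 4 (.s k19 k16 0 (.d k51 k35 k34 3 4))))), (.s k49
  k33 3 (.s k153 k221 9 (.s k101 k205 13 (.s k117 k69 3 (.d k253 k185 k169 9 13))))), (.s k3 k2 0
  (.s k51 k34 4 (.s k35 k19 3 (.s k153 k221 9 (.s k169 k253 13 (.d k102 k204 k236 14 10))))))] .n)

def s7_255_158 : T TT 256 :=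
  (.q k1 [(.s k3 k2 0 (.s k33 k49 3 (.s k18 k48 4 (.s k19 k16 0 (.d k51 k35 k34 3 4))))), (.s k49
  k33 3 (.s k153 k221 9 (.s k101 k205 13 (.s k117 k69 3 (.d k253 k185 k169 9 13))))), (.s k3 k2 0
  (.s k51 k34 4 (.s k35 k19 3 (.s k153 k221 9 (.s k169 k253 13 (.d k102 k204 k236 14 10))))))] .n)

def s7_255_159 : T TT 256 :=
  (.q k1 [(.s k3 k2 0 (.s k33 k49 3 (.s k18 k48 4 (.s k19 k16 0 (.d k51 k35 k34 3 4))))), (.s k49
  k33 3 (.s k153 k221 9 (.s k101 k205 13 (.s k117 k69 3 (.d k253 k185 k169 9 13))))), (.s k3 k2 0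
  (.s k51 k34 4 (.s k35 k19 3 (.s k153 k221 9 (.s k169 k253 13 (.d k102 k204 k236 14 10))))))] .n)

def s7_255_160 : T TT 256 :=
  (.q k1 [(.s k3 k2 0 (.s k33 k49 3 (.s k18 k48 4 (.s k19 k16 0 (.d k51 k35 k34 3 4))))), (.s k49
  k33 3 (.s k153 k221 9 (.s k101 k205 13 (.s k117 k69 3 (.d k253 k185 k169 9 13))))), (.s k3 k2 0
  (.s k51 k34 4 (.s k35 k19 3 (.s k153 k221 9 (.s k169 k253 13 (.d k102 k204 k236 14 10))))))] .n)

def s7_255_161 : T TT 256 :=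
  (.q k1 [(.s k3 k2 0 (.s k33 k49 3 (.s k18 k48 4 (.s k19 k16 0 (.d k51 k35 k34 3 4))))), (.s k49
  k33 3 (.s k153 k221 9 (.s k101 k205 13 (.s k117 k69 3 (.d k253 k185 k169 9 13))))), (.s k3 k2 0
  (.s k51 k34 4 (.s k35 k19 3 (.s k153 k221 9 (.s k169 k253 13 (.d k102 k204 k236 14 10))))))] .n)

def s7_255_162 : T TT 256 :=
  (.q k1 [(.s k49 k33 3 (.s k153 k221 9 (.s k101 k205 13 (.s k117 k69 3 (.d k253 k185 k169 9
  13))))), (.s k3 k2 0 (.s k33 k49 3 (.s k34 k51 4 (.s k32 k35 0 (.d k48 k16 k18 3 4))))), (.s k3 k2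
  0 (.s k51 k34 4 (.s k35 k19 3 (.s k153 k221 9 (.s k169 k253 13 (.d k102 k204 k236 14 10))))))] .n)

def s7_255_163 : T TT 256 :=
  (.q k1 [(.s k3 k2 0 (.s k33 k49 3 (.s k18 k48 4 (.s k19 k16 0 (.d k51 k35 k34 3 4))))), (.s k49
  k33 3 (.s k153 k221 9 (.s k101 k205 13 (.s k117 k69 3 (.d k253 k185 k169 9 13))))), (.s k3 k2 0
  (.s k51 k34 4 (.s k35 k19 3 (.s k153 k221 9 (.s k169 k253 13 (.d k102 k204 k236 14 10))))))] .n)

def s7_255_164 : T TT 256 :=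
  (.q k1 [(.s k3 k2 0 (.s k33 k49 3 (.s k18 k48 4 (.s k19 k16 0 (.d k51 k35 k34 3 4))))), (.s k49
  k33 3 (.s k153 k221 9 (.s k101 k205 13 (.s k117 k69 3 (.d k253 k185 k169 9 13))))), (.s k3 k2 0
  (.s k51 k34 4 (.s k35 k19 3 (.s k153 k221 9 (.s k169 k253 13 (.d k102 k204 k236 14 10))))))] .n)

def s7_255_165 : T TT 256 :=
  (.f k51 k34 4 (.q k86 [(.s k84 k87 0 (.s k153 k221 9 (.s k252 k168 13 (.s k118 k185 10 (.d k102
  k204 k70 14 3))))), (.s k87 k84 0 (.s k153 k221 9 (.s k19 k220 10 (.s k16 k18 0 (.d k223 k155 k154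
  9 10))))), (.s k84 k87 0 (.s k252 k168 13 (.s k3 k169 14 (.s k1 k2 0 (.s k19 k35 3 (.s k18 k16 0
  (.d k33 k49 k48 3 4))))))), (.s k153 k221 9 (.s k19 k220 10 (.s k3 k35 3 (.s k1 k2 0 (.d k169 k253
  k252 13 14)))))] .n))

def s7_255_166 : T TT 256 :=
  (.q k1 [(.s k3 k2 0 (.s k33 k49 3 (.s k18 k48 4 (.s k19 k16 0 (.d k51 k35 k34 3 4))))), (.s k49
  k33 3 (.s k153 k221 9 (.s k101 k205 13 (.s k117 k69 3 (.d k253 k185 k169 9 13))))), (.s k3 k2 0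
  (.s k51 k34 4 (.s k35 k19 3 (.s k153 k221 9 (.s k169 k253 13 (.d k102 k204 k236 14 10))))))] .n)

def s7_255_167 : T TT 256 :=
  (.f k51 k34 4 (.q k3 [(.s k1 k2 0 (.s k19 k35 3 (.s k18 k16 0 (.d k33 k49 k48 3 4)))), (.s k19 k35
  3 (.s k153 k221 9 (.s k86 k220 10 (.s k252 k169 14 (.d k84 k87 k168 0 13))))), (.s k1 k2 0 (.s
  k153 k221 9 (.s k169 k253 13 (.s k137 k185 3 (.d k204 k70 k102 10 14)))))] (.c k87 (.q k247 [(.s
  k1 k2 0 (.s k19 k35 3 (.s k18 k16 0 (.d k33 k49 k48 3 4)))), (.s k19 k35 3 (.s k153 k221 9 (.s k86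
  k220 10 (.s k169 k252 14 (.s k137 k185 3 (.d k204 k70 k102 10 14)))))), (.s k1 k2 0 (.s k153 k221
  9 (.s k169 k253 13 (.s k137 k185 3 (.d k204 k70 k102 10 14)))))] .n) (.c k247 (.q k87 [(.s k1 k2 0
  (.s k86 k84 0 (.d k169 k253 k252 13 14))), (.s k19 k35 3 (.s k86 k84 0 (.d k153 k221 k220 9 10))),
  (.s k19 k35 3 (.s k16 k18 0 (.d k223 k155 k154 9 10)))] (.c k243 (.q k251 [(.s k1 k2 0 (.s k86 k84
  0 (.d k169 k253 k252 13 14))), (.s k19 k35 3 (.s k86 k84 0 (.d k153 k221 k220 9 10))), (.s k19 k35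
  3 (.s k16 k18 0 (.d k223 k155 k154 9 10)))] (.c k15 (.q k91 [(.s k1 k2 0 (.s k86 k84 0 (.d k169
  k253 k252 13 14))), (.s k19 k35 3 (.s k86 k84 0 (.d k153 k221 k220 9 10))), (.s k19 k35 3 (.s k16
  k18 0 (.d k223 k155 k154 9 10)))] (.c k95 (.q k175 [(.s k1 k2 0 (.s k86 k84 0 (.d k169 k253 k252
  13 14))), (.s k19 k35 3 (.s k86 k84 0 (.d k153 k221 k220 9 10))), (.s k19 k35 3 (.s k16 k18 0 (.d
  k223 k155 k154 9 10)))] .n) (.c k175 (.l (.s k95 k83 1 (.s k1 k2 0 (.s k86 k84 0 (.d k169 k253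
  k252 13 14))))) .n))) (.c k91 (.q k15 [(.s k1 k2 0 (.s k86 k84 0 (.d k169 k253 k252 13 14))), (.s
  k19 k35 3 (.s k86 k84 0 (.d k153 k221 k220 9 10))), (.s k19 k35 3 (.s k16 k18 0 (.d k223 k155 k154
  9 10)))] .n) .n))) (.c k251 (.q k243 [(.s k1 k2 0 (.s k86 k84 0 (.d k169 k253 k252 13 14))), (.s
  k19 k35 3 (.s k86 k84 0 (.d k153 k221 k220 9 10))), (.s k19 k35 3 (.s k16 k18 0 (.d k223 k155 k154
  9 10)))] .n) .n))) .n))))

def s7_255_168 : T TT 256 :=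
  (.q k1 [(.s k3 k2 0 (.s k33 k49 3 (.s k18 k48 4 (.s k19 k16 0 (.d k51 k35 k34 3 4))))), (.s k49
  k33 3 (.s k153 k221 9 (.s k101 k205 13 (.s k117 k69 3 (.d k253 k185 k169 9 13))))), (.s k3 k2 0
  (.s k51 k34 4 (.s k35 k19 3 (.s k153 k221 9 (.s k169 k253 13 (.d k102 k204 k236 14 10))))))] .n)

def s7_255_169 : T TT 256 :=
  (.q k16 [(.s k19 k18 0 (.s k153 k221 9 (.s k86 k220 10 (.s k87 k84 0 (.d k223 k155 k154 9 10))))),
  (.s k18 k19 0 (.s k34 k51 4 (.s k2 k50 3 (.s k3 k1 0 (.d k48 k32 k33 3 4))))), (.s k48 k32 3 (.s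
  k51 k34 4 (.s k50 k49 0 (.s k153 k221 9 (.s k154 k223 10 (.d k102 k204 k206 14 13))))))] .n)

def s7_255_170 : T TT 256 :=
  (.q k1 [(.s k49 k33 3 (.s k153 k221 9 (.s k101 k205 13 (.s k117 k69 3 (.d k253 k185 k169 9
  13))))), (.s k3 k2 0 (.s k33 k49 3 (.s k34 k51 4 (.s k32 k35 0 (.d k48 k16 k18 3 4))))), (.s k3 k2
  0 (.s k51 k34 4 (.s k35 k19 3 (.s k153 k221 9 (.s k169 k253 13 (.d k102 k204 k236 14 10))))))] .n)

def s7_255_171 : T TT 256 :=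
  (.q k3 [(.s k1 k2 0 (.s k33 k49 3 (.s k18 k48 4 (.s k19 k16 0 (.d k51 k35 k34 3 4))))), (.s k51
  k34 4 (.s k19 k35 3 (.s k153 k221 9 (.s k86 k220 10 (.s k84 k87 0 (.d k252 k168 k169 13 14)))))),
  (.s k1 k2 0 (.s k49 k33 3 (.s k153 k221 9 (.s k101 k205 13 (.s k117 k69 3 (.d k253 k185 k169 9
  13))))))] (.c k33 (.l (.s k1 k2 0 (.s k51 k34 4 (.s k35 k19 3 (.s k153 k221 9 (.s k169 k253 13 (.d
  k102 k204 k236 14 10))))))) .n))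

def s7_255_172 : T TT 256 :=
  (.q k1 [(.s k3 k2 0 (.s k33 k49 3 (.s k18 k48 4 (.s k19 k16 0 (.d k51 k35 k34 3 4))))), (.s k49
  k33 3 (.s k153 k221 9 (.s k101 k205 13 (.s k117 k69 3 (.d k253 k185 k169 9 13))))), (.s k3 k2 0
  (.s k51 k34 4 (.s k35 k19 3 (.s k153 k221 9 (.s k169 k253 13 (.d k102 k204 k236 14 10))))))] .n)

def s7_255_173 : T TT 256 :=
  (.q k1 [(.s k3 k2 0 (.s k33 k49 3 (.s k18 k48 4 (.s k19 k16 0 (.d k51 k35 k34 3 4))))), (.s k49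
  k33 3 (.s k153 k221 9 (.s k101 k205 13 (.s k117 k69 3 (.d k253 k185 k169 9 13))))), (.s k3 k2 0
  (.s k51 k34 4 (.s k35 k19 3 (.s k153 k221 9 (.s k169 k253 13 (.d k102 k204 k236 14 10))))))] .n)

def s7_255_174 : T TT 256 :=
  (.f k51 k34 4 (.q k12 [(.s k25 k38 6 (.s k21 k29 1 (.s k42 k63 6 (.d k8 k4 k59 1 4)))), (.s k4 k8
  1 (.s k153 k221 9 (.s k166 k247 12 (.s k140 k179 6 (.d k204 k76 k102 7 14))))), (.s k25 k38 6 (.s
  k153 k221 9 (.s k89 k217 7 (.s k81 k93 1 (.d k243 k162 k166 12 14)))))] .n))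

def s7_255_175 : T TT 256 :=
  (.f k51 k34 4 (.q k15 [(.s k5 k10 2 (.s k39 k27 5 (.s k165 k245 11 (.s k102 k228 8 (.d k153 k221
  k204 9 14))))), (.s k27 k39 5 (.s k153 k221 9 (.s k90 k216 8 (.s k80 k95 2 (.d k240 k160 k165 11
  14))))), (.s k5 k10 2 (.s k165 k245 11 (.s k240 k90 14 (.s k177 k114 8 (.d k153 k141 k221 5
  9)))))] (.c k153 (.q k1 [(.s k3 k2 0 (.s k19 k35 3 (.s k18 k16 0 (.d k33 k49 k48 3 4)))), (.s k5
  k10 2 (.s k13 k9 1 (.s k49 k33 3 (.s k25 k37 5 (.d k12 k14 k38 0 6))))), (.s k3 k2 0 (.s k5 k10 2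
  (.s k165 k245 11 (.s k169 k253 13 (.s k161 k173 1 (.d k240 k82 k90 12 14))))))] .n) (.c k165 (.l
  (.s k10 k5 2 (.s k27 k39 5 (.s k153 k221 9 (.s k90 k216 8 (.s k170 k250 11 (.s k136 k187 4 (.d
  k204 k102 k68 14 9)))))))) (.c k221 (.l (.s k5 k10 2 (.s k39 k27 5 (.s k165 k245 11 (.s k102 k228
  8 (.s k68 k119 4 (.d k204 k136 k153 9 14))))))) (.c k240 (.l (.s k5 k10 2 (.s k153 k221 9 (.s k204
  k102 14 (.s k141 k78 8 (.d k165 k177 k245 5 11)))))) .n))))))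

def s7_255_176 : T TT 256 :=
  (.q k1 [(.s k49 k33 3 (.s k153 k221 9 (.s k101 k205 13 (.s k117 k69 3 (.d k253 k185 k169 9
  13))))), (.s k3 k2 0 (.s k33 k49 3 (.s k34 k51 4 (.s k32 k35 0 (.d k48 k16 k18 3 4))))), (.s k3 k2
  0 (.s k51 k34 4 (.s k35 k19 3 (.s k153 k221 9 (.s k169 k253 13 (.d k102 k204 k236 14 10))))))] .n)

def s7_255_177 : T TT 256 :=
  (.q k1 [(.s k3 k2 0 (.s k51 k34 4 (.s k19 k35 3 (.s k18 k16 0 (.d k33 k49 k48 3 4))))), (.s k49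
  k33 3 (.s k153 k221 9 (.s k101 k205 13 (.s k117 k69 3 (.d k253 k185 k169 9 13))))), (.s k3 k2 0
  (.s k51 k34 4 (.s k35 k19 3 (.s k153 k221 9 (.s k169 k253 13 (.d k102 k204 k236 14 10))))))] .n)

def s7_255_178 : T TT 256 :=
  (.q k1 [(.s k49 k33 3 (.s k153 k221 9 (.s k101 k205 13 (.s k117 k69 3 (.d k253 k185 k169 9
  13))))), (.s k3 k2 0 (.s k33 k49 3 (.s k34 k51 4 (.s k32 k35 0 (.d k48 k16 k18 3 4))))), (.s k3 k2
  0 (.s k51 k34 4 (.s k35 k19 3 (.s k153 k221 9 (.s k169 k253 13 (.d k102 k204 k236 14 10))))))] .n)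

def s7_255_179 : T TT 256 :=
  (.q k1 [(.s k3 k2 0 (.s k33 k49 3 (.s k18 k48 4 (.s k19 k16 0 (.d k51 k35 k34 3 4))))), (.s k49
  k33 3 (.s k153 k221 9 (.s k101 k205 13 (.s k117 k69 3 (.d k253 k185 k169 9 13))))), (.s k3 k2 0
  (.s k51 k34 4 (.s k35 k19 3 (.s k153 k221 9 (.s k169 k253 13 (.d k102 k204 k236 14 10))))))] .n)

def s7_255_180 : T TT 256 :=
  (.q k1 [(.s k3 k2 0 (.s k33 k49 3 (.s k18 k48 4 (.s k19 k16 0 (.d k51 k35 k34 3 4))))), (.s k49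
  k33 3 (.s k153 k221 9 (.s k101 k205 13 (.s k117 k69 3 (.d k253 k185 k169 9 13))))), (.s k3 k2 0
  (.s k51 k34 4 (.s k35 k19 3 (.s k153 k221 9 (.s k169 k253 13 (.d k102 k204 k236 14 10))))))] .n)

def s7_255_181 : T TT 256 :=
  (.q k1 [(.s k3 k2 0 (.s k33 k49 3 (.s k18 k48 4 (.s k19 k16 0 (.d k51 k35 k34 3 4))))), (.s k49
  k33 3 (.s k153 k221 9 (.s k101 k205 13 (.s k117 k69 3 (.d k253 k185 k169 9 13))))), (.s k3 k2 0
  (.s k51 k34 4 (.s k35 k19 3 (.s k153 k221 9 (.s k169 k253 13 (.d k102 k204 k236 14 10))))))] .n)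

def s7_255_182 : T TT 256 :=
  (.q k1 [(.s k3 k2 0 (.s k33 k49 3 (.s k18 k48 4 (.s k19 k16 0 (.d k51 k35 k34 3 4))))), (.s k49
  k33 3 (.s k153 k221 9 (.s k101 k205 13 (.s k117 k69 3 (.d k253 k185 k169 9 13))))), (.s k3 k2 0
  (.s k51 k34 4 (.s k35 k19 3 (.s k153 k221 9 (.s k169 k253 13 (.d k102 k204 k236 14 10))))))] .n)

def s7_255_183 : T TT 256 :=
  (.q k1 [(.s k3 k2 0 (.s k33 k49 3 (.s k18 k48 4 (.s k19 k16 0 (.d k51 k35 k34 3 4))))), (.s k49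
  k33 3 (.s k153 k221 9 (.s k101 k205 13 (.s k117 k69 3 (.d k253 k185 k169 9 13))))), (.s k3 k2 0
  (.s k51 k34 4 (.s k35 k19 3 (.s k153 k221 9 (.s k169 k253 13 (.d k102 k204 k236 14 10))))))] .n)

def s7_255_184 : T TT 256 :=
  (.q k1 [(.s k49 k33 3 (.s k153 k221 9 (.s k101 k205 13 (.s k117 k69 3 (.d k253 k185 k169 9
  13))))), (.s k3 k2 0 (.s k33 k49 3 (.s k34 k51 4 (.s k32 k35 0 (.d k48 k16 k18 3 4))))), (.s k3 k2
  0 (.s k51 k34 4 (.s k35 k19 3 (.s k153 k221 9 (.s k169 k253 13 (.d k102 k204 k236 14 10))))))] .n)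

def s7_255_185 : T TT 256 :=
  (.q k16 [(.s k18 k19 0 (.s k48 k32 3 (.s k3 k33 4 (.s k2 k1 0 (.d k34 k50 k51 3 4))))), (.s k19
  k18 0 (.s k153 k221 9 (.s k86 k220 10 (.s k87 k84 0 (.d k223 k155 k154 9 10))))), (.s k48 k32 3
  (.s k51 k34 4 (.s k50 k49 0 (.s k153 k221 9 (.s k154 k223 10 (.d k102 k204 k206 14 13))))))] .n)

def s7_255_186 : T TT 256 :=
  (.q k48 [(.s k16 k32 3 (.s k18 k19 0 (.s k3 k33 4 (.s k2 k1 0 (.d k34 k50 k51 3 4))))), (.s k16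
  k32 3 (.s k19 k18 0 (.s k153 k221 9 (.s k86 k220 10 (.s k87 k84 0 (.d k223 k155 k154 9 10)))))),
  (.s k51 k34 4 (.s k49 k50 0 (.s k153 k221 9 (.s k101 k205 13 (.s k69 k117 3 (.d k207 k138 k154 10
  14))))))] (.c k18 (.l (.s k16 k32 3 (.s k51 k34 4 (.s k50 k49 0 (.s k153 k221 9 (.s k154 k223 10
  (.d k102 k204 k206 14 13))))))) .n))

def s7_255_187 : T TT 256 :=
  (.q k21 [(.s k25 k29 1 (.s k51 k34 4 (.s k12 k38 6 (.s k42 k63 6 (.d k8 k4 k59 1 4))))), (.s k29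
  k25 1 (.s k149 k213 7 (.s k89 k209 9 (.s k93 k81 1 (.d k221 k157 k153 7 9))))), (.s k51 k34 4 (.s
  k63 k42 6 (.s k59 k55 1 (.s k149 k213 7 (.s k153 k221 9 (.d k106 k192 k200 14 12))))))] (.c k51
  (.q k119 [(.s k29 k25 1 (.s k149 k213 7 (.s k89 k209 9 (.s k93 k81 1 (.d k221 k157 k153 7 9))))),
  (.s k102 k68 4 (.s k149 k213 7 (.s k55 k196 12 (.s k247 k183 7 (.d k4 k38 k166 4 12))))), (.s k29
  k25 1 (.s k63 k42 6 (.s k68 k102 4 (.s k204 k136 9 (.s k157 k110 12 (.d k221 k153 k93 9 7))))))]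
  (.c k38 (.l (.s k149 k213 7 (.s k153 k221 9 (.s k145 k157 1 (.s k209 k81 7 (.d k29 k25 k89 1
  9)))))) .n)) (.c k119 (.l (.s k51 k34 4 (.s k25 k29 1 (.s k12 k38 6 (.s k8 k4 1 (.d k42 k59 k63 4
  6)))))) .n)))

def s7_255_188 : T TT 256 :=
  (.q k1 [(.s k3 k2 0 (.s k33 k49 3 (.s k18 k48 4 (.s k19 k16 0 (.d k51 k35 k34 3 4))))), (.s k49
  k33 3 (.s k153 k221 9 (.s k101 k205 13 (.s k117 k69 3 (.d k253 k185 k169 9 13))))), (.s k3 k2 0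
  (.s k51 k34 4 (.s k35 k19 3 (.s k153 k221 9 (.s k169 k253 13 (.d k102 k204 k236 14 10))))))] .n)

def s7_255_189 : T TT 256 :=
  (.q k1 [(.s k3 k2 0 (.s k33 k49 3 (.s k18 k48 4 (.s k19 k16 0 (.d k51 k35 k34 3 4))))), (.s k49
  k33 3 (.s k153 k221 9 (.s k101 k205 13 (.s k117 k69 3 (.d k253 k185 k169 9 13))))), (.s k3 k2 0
  (.s k51 k34 4 (.s k35 k19 3 (.s k153 k221 9 (.s k169 k253 13 (.d k102 k204 k236 14 10))))))] .n)

def s7_255_190 : T TT 256 :=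
  (.f k51 k34 4 (.q k60 [(.s k20 k40 5 (.s k54 k57 2 (.s k150 k215 8 (.s k102 k198 11 (.d k153 k221
  k204 9 14))))), (.s k57 k54 2 (.s k153 k221 9 (.s k105 k201 11 (.s k65 k125 5 (.d k195 k130 k150 8
  14))))), (.s k20 k40 5 (.s k153 k221 9 (.s k204 k102 14 (.s k156 k108 11 (.d k150 k147 k215 2
  8)))))] (.c k150 (.l (.s k40 k20 5 (.s k57 k54 2 (.s k153 k221 9 (.s k105 k201 11 (.s k170 k235 8
  (.s k136 k187 4 (.d k204 k102 k68 14 9)))))))) (.c k153 (.q k1 [(.s k3 k2 0 (.s k19 k35 3 (.s k18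
  k16 0 (.d k33 k49 k48 3 4)))), (.s k49 k33 3 (.s k57 k54 2 (.s k61 k53 1 (.s k21 k41 5 (.d k63 k62
  k42 0 6))))), (.s k3 k2 0 (.s k40 k20 5 (.s k41 k22 6 (.s k21 k61 5 (.d k42 k43 k63 0 6)))))] .n)
  (.c k204 (.l (.s k20 k40 5 (.s k150 k215 8 (.s k195 k105 14 (.s k147 k99 11 (.d k153 k156 k221 2
  9)))))) (.c k221 (.l (.s k20 k40 5 (.s k54 k57 2 (.s k150 k215 8 (.s k102 k198 11 (.s k68 k119 4
  (.d k204 k136 k153 9 14))))))) .n))))))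

def s7_255_191 : T TT 256 :=
  (.q k63 [(.s k21 k42 6 (.s k25 k29 1 (.s k51 k34 4 (.s k55 k59 1 (.d k38 k4 k12 4 6))))), (.s k51
  k34 4 (.s k59 k55 1 (.s k153 k221 9 (.s k106 k200 12 (.s k64 k127 6 (.d k192 k128 k149 7 14)))))),
  (.s k21 k42 6 (.s k29 k25 1 (.s k149 k213 7 (.s k89 k209 9 (.s k93 k81 1 (.d k221 k157 k153 7
  9))))))] (.c k59 (.l (.s k21 k42 6 (.s k51 k34 4 (.s k149 k213 7 (.s k153 k221 9 (.s k145 k157 1
  (.d k192 k98 k106 12 14))))))) .n))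

def s7_255_192 : T TT 256 :=
  (.f k51 k34 4 (.q k21 [(.s k25 k29 1 (.s k12 k38 6 (.s k8 k4 1 (.d k42 k59 k63 4 6)))), (.s k29
  k25 1 (.s k221 k153 9 (.s k93 k157 7 (.s k89 k81 1 (.d k149 k213 k209 7 9))))), (.s k63 k42 6 (.s
  k153 k221 9 (.s k204 k102 14 (.s k157 k110 12 (.d k149 k213 k145 7 1)))))] (.c k213 (.q k234 [(.s
  k25 k29 1 (.s k12 k38 6 (.s k8 k4 1 (.d k42 k59 k63 4 6)))), (.s k42 k63 6 (.s k153 k221 9 (.s
  k204 k102 14 (.s k136 k68 9 (.d k170 k106 k187 7 4)))))] (.c k42 (.l (.s k25 k29 1 (.s k38 k12 6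
  (.s k4 k55 4 (.s k153 k221 9 (.s k166 k247 12 (.d k102 k230 k204 7 14))))))) (.c k63 (.l (.s k25
  k29 1 (.s k12 k38 6 (.s k4 k8 1 (.s k153 k221 9 (.s k166 k247 12 (.d k89 k217 k243 7 14)))))))
  .n))) (.c k234 (.l (.s k213 k149 7 (.s k25 k29 1 (.s k12 k38 6 (.s k8 k4 1 (.d k42 k63 k59 6
  4)))))) .n))))

def s7_255_193 : T TT 256 :=
  (.q k1 [(.s k3 k2 0 (.s k51 k34 4 (.s k19 k35 3 (.s k18 k16 0 (.d k33 k49 k48 3 4))))), (.s k49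
  k33 3 (.s k153 k221 9 (.s k101 k205 13 (.s k117 k69 3 (.d k253 k185 k169 9 13))))), (.s k3 k2 0
  (.s k51 k34 4 (.s k35 k19 3 (.s k153 k221 9 (.s k169 k253 13 (.d k102 k204 k236 14 10))))))] .n)

def s7_255_194 : T TT 256 :=
  (.q k1 [(.s k49 k33 3 (.s k153 k221 9 (.s k101 k205 13 (.s k117 k69 3 (.d k253 k185 k169 9
  13))))), (.s k3 k2 0 (.s k33 k49 3 (.s k34 k51 4 (.s k32 k35 0 (.d k48 k16 k18 3 4))))), (.s k3 k2
  0 (.s k51 k34 4 (.s k35 k19 3 (.s k153 k221 9 (.s k169 k253 13 (.d k102 k204 k236 14 10))))))] .n)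

def s7_255_195 : T TT 256 :=
  (.f k221 k153 9 (.f k51 k34 4 (.q k21 [(.s k29 k25 1 (.s k93 k157 7 (.s k89 k81 1 (.d k149 k213
  k209 7 9)))), (.s k25 k29 1 (.s k12 k38 6 (.s k8 k4 1 (.d k42 k59 k63 4 6)))), (.s k63 k42 6 (.s
  k149 k213 7 (.s k192 k106 14 (.s k128 k64 7 (.s k145 k98 12 (.s k81 k209 7 (.d k162 k179 k243 4
  12)))))))] (.c k215 (.q k235 [(.s k29 k25 1 (.s k93 k157 7 (.s k89 k81 1 (.d k149 k213 k209 7
  9)))), (.s k25 k29 1 (.s k12 k38 6 (.s k8 k4 1 (.d k42 k59 k63 4 6)))), (.s k63 k42 6 (.s k149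
  k213 7 (.s k192 k106 14 (.s k128 k64 7 (.s k145 k98 12 (.s k81 k209 7 (.d k162 k179 k243 4
  12)))))))] .n) (.c k235 (.q k215 [(.s k29 k25 1 (.s k93 k157 7 (.s k89 k81 1 (.d k149 k213 k209 7
  9)))), (.s k25 k29 1 (.s k12 k38 6 (.s k8 k4 1 (.d k42 k59 k63 4 6)))), (.s k20 k150 8 (.s k23 k22
  0 (.s k87 k151 7 (.s k86 k84 0 (.d k149 k213 k212 7 8)))))] .n) .n)))))

def s7_255_196 : T TT 256 :=
  (.f k221 k153 9 (.f k51 k34 4 (.q k21 [(.s k29 k25 1 (.s k93 k157 7 (.s k89 k81 1 (.d k149 k213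
  k209 7 9)))), (.s k25 k29 1 (.s k12 k38 6 (.s k8 k4 1 (.d k42 k59 k63 4 6)))), (.s k63 k42 6 (.s
  k149 k213 7 (.s k192 k106 14 (.s k128 k64 7 (.s k145 k98 12 (.s k81 k209 7 (.d k162 k179 k243 4
  12)))))))] (.c k70 (.q k133 [(.s k29 k25 1 (.s k93 k157 7 (.s k89 k81 1 (.d k149 k213 k209 7
  9)))), (.s k25 k29 1 (.s k12 k38 6 (.s k8 k4 1 (.d k42 k59 k63 4 6)))), (.s k149 k213 7 (.s k165
  k181 3 (.s k5 k245 11 (.s k53 k37 3 (.d k197 k69 k101 7 11)))))] .n) (.c k133 (.q k70 [(.s k29 k25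
  1 (.s k93 k157 7 (.s k89 k81 1 (.d k149 k213 k209 7 9)))), (.s k25 k29 1 (.s k12 k38 6 (.s k8 k4 1
  (.d k42 k59 k63 4 6)))), (.s k63 k42 6 (.s k149 k213 7 (.s k192 k106 14 (.s k128 k64 7 (.s k145
  k98 12 (.s k81 k209 7 (.d k162 k179 k243 4 12)))))))] .n) .n)))))

def s7_255_197 : T TT 256 :=
  (.q k1 [(.s k3 k2 0 (.s k33 k49 3 (.s k18 k48 4 (.s k19 k16 0 (.d k51 k35 k34 3 4))))), (.s k49
  k33 3 (.s k153 k221 9 (.s k101 k205 13 (.s k117 k69 3 (.d k253 k185 k169 9 13))))), (.s k3 k2 0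
  (.s k51 k34 4 (.s k35 k19 3 (.s k153 k221 9 (.s k169 k253 13 (.d k102 k204 k236 14 10))))))] .n)

def s7_255_198 : T TT 256 :=
  (.q k1 [(.s k3 k2 0 (.s k33 k49 3 (.s k18 k48 4 (.s k19 k16 0 (.d k51 k35 k34 3 4))))), (.s k49
  k33 3 (.s k153 k221 9 (.s k101 k205 13 (.s k117 k69 3 (.d k253 k185 k169 9 13))))), (.s k3 k2 0
  (.s k51 k34 4 (.s k35 k19 3 (.s k153 k221 9 (.s k169 k253 13 (.d k102 k204 k236 14 10))))))] .n)

def s7_255_199 : T TT 256 :=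
  (.f k221 k153 9 (.f k51 k34 4 (.q k81 [(.s k89 k93 1 (.s k209 k145 7 (.s k149 k29 9 (.d k213 k217
  k21 1 7)))), (.s k145 k209 7 (.s k162 k243 12 (.s k128 k179 4 (.d k192 k64 k98 7 12)))), (.s k89
  k93 1 (.s k243 k162 12 (.s k12 k166 14 (.s k8 k4 1 (.s k25 k38 6 (.s k21 k29 1 (.d k42 k59 k63 4
  6)))))))] (.c k71 (.q k135 [(.s k89 k93 1 (.s k209 k145 7 (.s k149 k29 9 (.d k213 k217 k21 1
  7)))), (.s k145 k209 7 (.s k162 k243 12 (.s k128 k179 4 (.d k192 k64 k98 7 12)))), (.s k89 k93 1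
  (.s k243 k162 12 (.s k12 k166 14 (.s k8 k4 1 (.s k25 k38 6 (.s k21 k29 1 (.d k42 k59 k63 4
  6)))))))] .n) (.c k135 (.q k71 [(.s k89 k93 1 (.s k209 k145 7 (.s k149 k29 9 (.d k213 k217 k21 1
  7)))), (.s k145 k209 7 (.s k162 k243 12 (.s k128 k179 4 (.d k192 k64 k98 7 12)))), (.s k89 k93 1
  (.s k243 k162 12 (.s k12 k166 14 (.s k8 k4 1 (.s k25 k38 6 (.s k21 k29 1 (.d k42 k59 k63 4
  6)))))))] .n) .n)))))

def s7_255_200 : T TT 256 :=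
  (.q k1 [(.s k3 k2 0 (.s k33 k49 3 (.s k18 k48 4 (.s k19 k16 0 (.d k51 k35 k34 3 4))))), (.s k49
  k33 3 (.s k153 k221 9 (.s k101 k205 13 (.s k117 k69 3 (.d k253 k185 k169 9 13))))), (.s k3 k2 0
  (.s k51 k34 4 (.s k35 k19 3 (.s k153 k221 9 (.s k169 k253 13 (.d k102 k204 k236 14 10))))))] .n)

def s7_255_201 : T TT 256 :=
  (.q k1 [(.s k3 k2 0 (.s k33 k49 3 (.s k18 k48 4 (.s k19 k16 0 (.d k51 k35 k34 3 4))))), (.s k49
  k33 3 (.s k153 k221 9 (.s k101 k205 13 (.s k117 k69 3 (.d k253 k185 k169 9 13))))), (.s k3 k2 0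
  (.s k51 k34 4 (.s k35 k19 3 (.s k153 k221 9 (.s k169 k253 13 (.d k102 k204 k236 14 10))))))] .n)

def s7_255_202 : T TT 256 :=
  (.q k1 [(.s k3 k2 0 (.s k33 k49 3 (.s k18 k48 4 (.s k19 k16 0 (.d k51 k35 k34 3 4))))), (.s k49
  k33 3 (.s k153 k221 9 (.s k101 k205 13 (.s k117 k69 3 (.d k253 k185 k169 9 13))))), (.s k3 k2 0
  (.s k51 k34 4 (.s k35 k19 3 (.s k153 k221 9 (.s k169 k253 13 (.d k102 k204 k236 14 10))))))] .n)

def s7_255_203 : T TT 256 :=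
  (.q k1 [(.s k3 k2 0 (.s k33 k49 3 (.s k18 k48 4 (.s k19 k16 0 (.d k51 k35 k34 3 4))))), (.s k49
  k33 3 (.s k153 k221 9 (.s k101 k205 13 (.s k117 k69 3 (.d k253 k185 k169 9 13))))), (.s k3 k2 0
  (.s k51 k34 4 (.s k35 k19 3 (.s k153 k221 9 (.s k169 k253 13 (.d k102 k204 k236 14 10))))))] .n)

def s7_255_204 : T TT 256 :=
  (.q k1 [(.s k49 k33 3 (.s k253 k169 13 (.s k117 k185 9 (.s k101 k69 3 (.d k153 k221 k205 9
  13))))), (.s k3 k2 0 (.s k33 k49 3 (.s k18 k48 4 (.s k19 k16 0 (.d k51 k35 k34 3 4))))), (.s k3 k2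
  0 (.s k51 k34 4 (.s k169 k253 13 (.s k252 k86 14 (.s k185 k118 10 (.d k153 k221 k137 9 3))))))]
  (.c k221 (.q k238 [(.s k3 k2 0 (.s k33 k49 3 (.s k18 k48 4 (.s k19 k16 0 (.d k51 k35 k34 3 4))))),
  (.s k3 k2 0 (.s k34 k51 4 (.s k169 k253 13 (.s k252 k86 14 (.s k168 k84 13 (.d k170 k102 k171 9
  0)))))), (.s k33 k49 3 (.s k34 k51 4 (.s k35 k32 0 (.s k102 k170 9 (.d k169 k236 k253 10 13)))))]
  (.c k34 (.l (.s k3 k2 0 (.s k33 k49 3 (.s k18 k48 4 (.s k16 k19 0 (.s k154 k223 10 (.s k169 k253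
  13 (.d k86 k222 k252 9 14)))))))) (.c k51 (.l (.s k3 k2 0 (.s k33 k49 3 (.s k48 k18 4 (.s k16 k32
  3 (.s k154 k223 10 (.s k169 k253 13 (.d k101 k237 k207 9 14)))))))) .n))) (.c k238 (.l (.s k221
  k153 9 (.s k3 k2 0 (.s k33 k49 3 (.s k18 k48 4 (.s k19 k16 0 (.d k51 k35 k34 3 4))))))) .n)))

def s7_255_205 : T TT 256 :=
  (.q k3 [(.s k1 k2 0 (.s k51 k34 4 (.s k19 k35 3 (.s k18 k16 0 (.d k33 k49 k48 3 4))))), (.s k51
  k34 4 (.s k19 k35 3 (.s k153 k221 9 (.s k86 k220 10 (.s k84 k87 0 (.d k252 k168 k169 13 14)))))),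
  (.s k1 k2 0 (.s k33 k49 3 (.s k18 k48 4 (.s k16 k19 0 (.s k154 k223 10 (.s k86 k222 9 (.d k169
  k253 k252 13 14))))))), (.s k1 k2 0 (.s k33 k49 3 (.s k48 k18 4 (.s k16 k32 3 (.s k154 k223 10 (.s
  k169 k253 13 (.d k101 k237 k207 9 14)))))))] (.c k33 (.l (.s k1 k2 0 (.s k51 k34 4 (.s k35 k19 3
  (.s k169 k253 13 (.s k102 k236 10 (.d k153 k221 k204 9 14))))))) .n))

def s7_255_206 : T TT 256 :=
  (.q k1 [(.s k49 k33 3 (.s k153 k221 9 (.s k101 k205 13 (.s k117 k69 3 (.d k253 k185 k169 9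
  13))))), (.s k3 k2 0 (.s k33 k49 3 (.s k34 k51 4 (.s k32 k35 0 (.d k48 k16 k18 3 4))))), (.s k3 k2
  0 (.s k51 k34 4 (.s k35 k19 3 (.s k153 k221 9 (.s k169 k253 13 (.d k102 k204 k236 14 10))))))] .n)

def s7_255_207 : T TT 256 :=
  (.f k51 k34 4 (.q k16 [(.s k18 k19 0 (.s k48 k32 3 (.s k49 k50 0 (.d k33 k1 k3 3 4)))), (.s k19
  k18 0 (.s k153 k221 9 (.s k86 k220 10 (.s k87 k84 0 (.d k223 k155 k154 9 10))))), (.s k48 k32 3
  (.s k153 k221 9 (.s k204 k102 14 (.s k152 k100 13 (.d k154 k223 k155 10 0)))))] (.c k223 (.q k239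
  [(.s k48 k32 3 (.s k49 k50 0 (.s k33 k1 3 (.d k18 k19 k3 0 4)))), (.s k32 k48 3 (.s k153 k221 9
  (.s k204 k102 14 (.s k136 k68 9 (.d k170 k101 k187 10 4))))), (.s k19 k18 0 (.s k153 k221 9 (.s
  k204 k102 14 (.s k220 k86 10 (.s k84 k152 9 (.d k252 k236 k168 3 13))))))] .n) (.c k239 (.l (.s
  k223 k154 10 (.s k18 k19 0 (.s k48 k32 3 (.s k33 k3 4 (.d k49 k50 k1 0 3)))))) .n))))

def s7_255_208 : T TT 256 :=
  (.q k1 [(.s k49 k33 3 (.s k153 k221 9 (.s k101 k205 13 (.s k117 k69 3 (.d k253 k185 k169 9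
  13))))), (.s k3 k2 0 (.s k33 k49 3 (.s k34 k51 4 (.s k32 k35 0 (.d k48 k16 k18 3 4))))), (.s k3 k2
  0 (.s k51 k34 4 (.s k35 k19 3 (.s k153 k221 9 (.s k169 k253 13 (.d k102 k204 k236 14 10))))))] .n)

def s7_255_209 : T TT 256 :=
  (.q k1 [(.s k3 k2 0 (.s k33 k49 3 (.s k18 k48 4 (.s k19 k16 0 (.d k51 k35 k34 3 4))))), (.s k49
  k33 3 (.s k153 k221 9 (.s k101 k205 13 (.s k117 k69 3 (.d k253 k185 k169 9 13))))), (.s k3 k2 0
  (.s k51 k34 4 (.s k35 k19 3 (.s k153 k221 9 (.s k169 k253 13 (.d k102 k204 k236 14 10))))))] .n)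

def s7_255_210 : T TT 256 :=
  (.q k1 [(.s k3 k2 0 (.s k33 k49 3 (.s k18 k48 4 (.s k19 k16 0 (.d k51 k35 k34 3 4))))), (.s k49
  k33 3 (.s k153 k221 9 (.s k101 k205 13 (.s k117 k69 3 (.d k253 k185 k169 9 13))))), (.s k3 k2 0
  (.s k51 k34 4 (.s k35 k19 3 (.s k153 k221 9 (.s k169 k253 13 (.d k102 k204 k236 14 10))))))] .n)

def s7_255_211 : T TT 256 :=
  (.q k1 [(.s k49 k33 3 (.s k153 k221 9 (.s k101 k205 13 (.s k117 k69 3 (.d k253 k185 k169 9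
  13))))), (.s k3 k2 0 (.s k33 k49 3 (.s k34 k51 4 (.s k32 k35 0 (.d k48 k16 k18 3 4))))), (.s k3 k2
  0 (.s k51 k34 4 (.s k35 k19 3 (.s k153 k221 9 (.s k169 k253 13 (.d k102 k204 k236 14 10))))))] .n)

def s7_255_212 : T TT 256 :=
  (.q k1 [(.s k3 k2 0 (.s k33 k49 3 (.s k18 k48 4 (.s k19 k16 0 (.d k51 k35 k34 3 4))))), (.s k49
  k33 3 (.s k153 k221 9 (.s k101 k205 13 (.s k117 k69 3 (.d k253 k185 k169 9 13))))), (.s k3 k2 0
  (.s k51 k34 4 (.s k35 k19 3 (.s k153 k221 9 (.s k169 k253 13 (.d k102 k204 k236 14 10))))))] .n)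

def s7_255_213 : T TT 256 :=
  (.f k51 k34 4 (.q k192 [(.s k128 k64 7 (.s k145 k98 12 (.s k162 k179 4 (.d k81 k209 k243 7 12)))),
  (.s k64 k128 7 (.s k106 k127 6 (.s k63 k149 14 (.s k59 k55 1 (.d k153 k221 k200 9 12))))), (.s
  k145 k98 12 (.s k153 k221 9 (.s k149 k157 1 (.s k63 k106 14 (.s k55 k59 1 (.d k102 k204 k196 14
  12))))))] .n))

def s7_255_214 : T TT 256 :=
  (.q k1 [(.s k3 k2 0 (.s k33 k49 3 (.s k18 k48 4 (.s k19 k16 0 (.d k51 k35 k34 3 4))))), (.s k49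
  k33 3 (.s k153 k221 9 (.s k101 k205 13 (.s k117 k69 3 (.d k253 k185 k169 9 13))))), (.s k3 k2 0
  (.s k51 k34 4 (.s k35 k19 3 (.s k153 k221 9 (.s k169 k253 13 (.d k102 k204 k236 14 10))))))] .n)

def s7_255_215 : T TT 256 :=
  (.f k51 k34 4 (.q k195 [(.s k65 k130 8 (.s k99 k147 11 (.s k105 k125 5 (.s k102 k108 2 (.d k153
  k221 k204 9 14))))), (.s k65 k130 8 (.s k153 k221 9 (.s k204 k102 14 (.s k201 k198 2 (.d k105 k125
  k57 5 11))))), (.s k147 k99 11 (.s k153 k221 9 (.s k150 k156 2 (.s k60 k105 14 (.s k54 k57 2 (.d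
  k102 k204 k198 14 11))))))] (.c k102 (.l (.s k65 k130 8 (.s k105 k125 5 (.s k60 k150 14 (.s k153
  k221 9 (.d k57 k54 k201 2 11)))))) (.c k105 (.l (.s k130 k65 8 (.s k147 k99 11 (.s k153 k221 9 (.s
  k150 k156 2 (.s k170 k190 5 (.s k136 k187 4 (.d k204 k102 k68 14 9)))))))) (.c k153 (.q k1 [(.s k3
  k2 0 (.s k19 k35 3 (.s k18 k16 0 (.d k33 k49 k48 3 4)))), (.s k3 k2 0 (.s k65 k130 8 (.s k67 k131
  7 (.s k66 k64 0 (.d k129 k193 k192 7 8))))), (.s k49 k33 3 (.s k65 k130 8 (.s k193 k129 7 (.s k97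
  k145 11 (.d k48 k50 k146 0 12)))))] (.c k50 (.l (.s k33 k49 3 (.s k3 k2 0 (.s k18 k48 4 (.d k19
  k16 k35 0 3))))) .n)) (.c k204 (.l (.s k65 k130 8 (.s k105 k125 5 (.s k60 k150 14 (.s k57 k54 2
  (.d k153 k221 k201 9 11)))))) (.c k221 (.l (.s k65 k130 8 (.s k99 k147 11 (.s k105 k125 5 (.s k102
  k108 2 (.s k68 k119 4 (.d k204 k136 k153 9 14))))))) .n)))))))

def s7_255_216 : T TT 256 :=
  (.q k1 [(.s k3 k2 0 (.s k33 k49 3 (.s k18 k48 4 (.s k19 k16 0 (.d k51 k35 k34 3 4))))), (.s k49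
  k33 3 (.s k153 k221 9 (.s k101 k205 13 (.s k117 k69 3 (.d k253 k185 k169 9 13))))), (.s k3 k2 0
  (.s k51 k34 4 (.s k35 k19 3 (.s k153 k221 9 (.s k169 k253 13 (.d k102 k204 k236 14 10))))))] .n)

def s7_255_217 : T TT 256 :=
  (.q k1 [(.s k3 k2 0 (.s k33 k49 3 (.s k18 k48 4 (.s k19 k16 0 (.d k51 k35 k34 3 4))))), (.s k49
  k33 3 (.s k153 k221 9 (.s k101 k205 13 (.s k117 k69 3 (.d k253 k185 k169 9 13))))), (.s k3 k2 0
  (.s k51 k34 4 (.s k35 k19 3 (.s k153 k221 9 (.s k169 k253 13 (.d k102 k204 k236 14 10))))))] .n)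

def s7_255_218 : T TT 256 :=
  (.q k1 [(.s k3 k2 0 (.s k33 k49 3 (.s k18 k48 4 (.s k19 k16 0 (.d k51 k35 k34 3 4))))), (.s k49
  k33 3 (.s k153 k221 9 (.s k101 k205 13 (.s k117 k69 3 (.d k253 k185 k169 9 13))))), (.s k3 k2 0
  (.s k51 k34 4 (.s k35 k19 3 (.s k153 k221 9 (.s k169 k253 13 (.d k102 k204 k236 14 10))))))] .n)

def s7_255_219 : T TT 256 :=
  (.q k1 [(.s k3 k2 0 (.s k33 k49 3 (.s k18 k48 4 (.s k19 k16 0 (.d k51 k35 k34 3 4))))), (.s k49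
  k33 3 (.s k153 k221 9 (.s k101 k205 13 (.s k117 k69 3 (.d k253 k185 k169 9 13))))), (.s k3 k2 0
  (.s k51 k34 4 (.s k35 k19 3 (.s k153 k221 9 (.s k169 k253 13 (.d k102 k204 k236 14 10))))))] .n)

def s7_255_220 : T TT 256 :=
  (.q k1 [(.s k3 k2 0 (.s k33 k49 3 (.s k34 k51 4 (.s k32 k35 0 (.d k48 k16 k18 3 4))))), (.s k49
  k33 3 (.s k153 k221 9 (.s k101 k205 13 (.s k117 k69 3 (.d k253 k185 k169 9 13))))), (.s k3 k2 0
  (.s k51 k34 4 (.s k35 k19 3 (.s k153 k221 9 (.s k169 k253 13 (.d k102 k204 k236 14 10))))))] .n)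

def s7_255_221 : T TT 256 :=
  (.f k51 k34 4 (.q k81 [(.s k243 k162 12 (.s k115 k179 7 (.s k98 k64 4 (.d k145 k209 k192 7 12)))),
  (.s k89 k93 1 (.s k209 k145 7 (.s k29 k149 9 (.s k25 k21 1 (.s k12 k38 6 (.d k243 k162 k166 12
  14)))))), (.s k89 k93 1 (.s k243 k162 12 (.s k12 k166 14 (.s k8 k4 1 (.s k25 k38 6 (.s k42 k59 4
  (.d k21 k29 k63 1 6)))))))] (.c k162 (.l (.s k89 k93 1 (.s k145 k209 7 (.s k98 k192 12 (.s k115
  k64 4 (.s k102 k76 6 (.s k68 k119 4 (.d k204 k136 k153 9 14)))))))) (.c k204 (.q k238 [(.s k243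
  k162 12 (.s k115 k179 7 (.s k98 k64 4 (.d k145 k209 k192 7 12)))), (.s k89 k93 1 (.s k209 k145 7
  (.s k29 k149 9 (.s k25 k21 1 (.s k12 k38 6 (.s k4 k8 1 (.d k166 k247 k243 12 14))))))), (.s k89
  k93 1 (.s k243 k162 12 (.s k12 k166 14 (.s k8 k4 1 (.s k25 k38 6 (.s k42 k59 4 (.d k21 k29 k63 1
  6)))))))] (.c k243 (.f k145 k209 7 (.f k192 k98 12 (.l (.s k64 k128 7 (.s k106 k127 6 (.s k63 k149
  14 (.s k21 k42 6 (.s k55 k59 1 (.s k38 k4 4 (.d k25 k29 k12 1 6)))))))))) .n)) (.c k238 (.q k204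
  [(.s k68 k136 9 (.d k102 k119 k153 4 14)), (.s k145 k209 7 (.s k98 k192 12 (.s k115 k64 4 (.d k243
  k179 k162 7 12))))] (.c k102 (.q k170 [(.s k145 k209 7 (.s k98 k192 12 (.s k115 k64 4 (.d k243
  k179 k162 7 12)))), (.s k89 k93 1 (.s k8 k251 12 (.s k12 k4 1 (.s k25 k38 6 (.s k42 k59 4 (.d k21
  k29 k63 1 6))))))] (.c k243 (.l (.s k89 k93 1 (.s k136 k68 9 (.s k145 k209 7 (.s k192 k98 12 (.s
  k200 k196 1 (.d k8 k72 k251 7 12))))))) .n)) (.c k170 (.l (.s k102 k153 14 (.d k68 k136 k119 9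
  4))) .n))) (.c k243 (.f k145 k209 7 (.f k192 k98 12 (.l (.s k64 k128 7 (.s k106 k127 6 (.s k63
  k149 14 (.s k21 k42 6 (.s k55 k59 1 (.s k38 k4 4 (.d k25 k29 k12 1 6)))))))))) .n))))))

def s7_255_222 : T TT 256 :=
  (.q k1 [(.s k3 k2 0 (.s k33 k49 3 (.s k18 k48 4 (.s k19 k16 0 (.d k51 k35 k34 3 4))))), (.s k49
  k33 3 (.s k153 k221 9 (.s k101 k205 13 (.s k117 k69 3 (.d k253 k185 k169 9 13))))), (.s k3 k2 0
  (.s k51 k34 4 (.s k35 k19 3 (.s k153 k221 9 (.s k169 k253 13 (.d k102 k204 k236 14 10))))))] .n)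

def s7_255_223 : T TT 256 :=
  (.f k51 k34 4 (.q k207 [(.s k69 k138 10 (.s k101 k117 3 (.s k103 k155 13 (.s k102 k100 0 (.d k153
  k221 k204 9 14))))), (.s k69 k138 10 (.s k153 k221 9 (.s k204 k102 14 (.s k68 k136 9 (.s k70 k71 0
  (.s k137 k3 10 (.d k205 k206 k1 0 9))))))), (.s k69 k138 10 (.s k101 k117 3 (.s k48 k154 14 (.s
  k16 k32 3 (.s k18 k19 0 (.s k33 k3 4 (.d k49 k50 k1 0 3))))))), (.s k153 k221 9 (.s k155 k103 13
  (.s k154 k152 0 (.s k48 k101 14 (.s k50 k49 0 (.d k102 k204 k206 14 13))))))] .n))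

def s7_255_224 : T TT 256 :=
  (.q k1 [(.s k3 k2 0 (.s k33 k49 3 (.s k18 k48 4 (.s k19 k16 0 (.d k51 k35 k34 3 4))))), (.s k49
  k33 3 (.s k153 k221 9 (.s k101 k205 13 (.s k117 k69 3 (.d k253 k185 k169 9 13))))), (.s k3 k2 0
  (.s k51 k34 4 (.s k35 k19 3 (.s k153 k221 9 (.s k169 k253 13 (.d k102 k204 k236 14 10))))))] .n)

def s7_255_225 : T TT 256 :=
  (.q k1 [(.s k3 k2 0 (.s k33 k49 3 (.s k18 k48 4 (.s k19 k16 0 (.d k51 k35 k34 3 4))))), (.s k49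
  k33 3 (.s k153 k221 9 (.s k101 k205 13 (.s k117 k69 3 (.d k253 k185 k169 9 13))))), (.s k3 k2 0
  (.s k51 k34 4 (.s k35 k19 3 (.s k153 k221 9 (.s k169 k253 13 (.d k102 k204 k236 14 10))))))] .n)

def s7_255_226 : T TT 256 :=
  (.q k1 [(.s k3 k2 0 (.s k33 k49 3 (.s k18 k48 4 (.s k19 k16 0 (.d k51 k35 k34 3 4))))), (.s k49
  k33 3 (.s k153 k221 9 (.s k101 k205 13 (.s k117 k69 3 (.d k253 k185 k169 9 13))))), (.s k3 k2 0
  (.s k51 k34 4 (.s k35 k19 3 (.s k153 k221 9 (.s k169 k253 13 (.d k102 k204 k236 14 10))))))] .n)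

def s7_255_227 : T TT 256 :=
  (.q k1 [(.s k3 k2 0 (.s k33 k49 3 (.s k18 k48 4 (.s k19 k16 0 (.d k51 k35 k34 3 4))))), (.s k49
  k33 3 (.s k153 k221 9 (.s k101 k205 13 (.s k117 k69 3 (.d k253 k185 k169 9 13))))), (.s k3 k2 0
  (.s k51 k34 4 (.s k35 k19 3 (.s k153 k221 9 (.s k169 k253 13 (.d k102 k204 k236 14 10))))))] .n)

def s7_255_228 : T TT 256 :=
  (.q k1 [(.s k3 k2 0 (.s k33 k49 3 (.s k18 k48 4 (.s k19 k16 0 (.d k51 k35 k34 3 4))))), (.s k49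
  k33 3 (.s k153 k221 9 (.s k101 k205 13 (.s k117 k69 3 (.d k253 k185 k169 9 13))))), (.s k3 k2 0
  (.s k51 k34 4 (.s k35 k19 3 (.s k153 k221 9 (.s k169 k253 13 (.d k102 k204 k236 14 10))))))] .n)

def s7_255_229 : T TT 256 :=
  (.q k1 [(.s k3 k2 0 (.s k33 k49 3 (.s k18 k48 4 (.s k19 k16 0 (.d k51 k35 k34 3 4))))), (.s k49
  k33 3 (.s k153 k221 9 (.s k101 k205 13 (.s k117 k69 3 (.d k253 k185 k169 9 13))))), (.s k3 k2 0
  (.s k51 k34 4 (.s k35 k19 3 (.s k153 k221 9 (.s k169 k253 13 (.d k102 k204 k236 14 10))))))] .n)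

def s7_255_230 : T TT 256 :=
  (.q k1 [(.s k3 k2 0 (.s k33 k49 3 (.s k18 k48 4 (.s k19 k16 0 (.d k51 k35 k34 3 4))))), (.s k49
  k33 3 (.s k153 k221 9 (.s k101 k205 13 (.s k117 k69 3 (.d k253 k185 k169 9 13))))), (.s k3 k2 0
  (.s k51 k34 4 (.s k35 k19 3 (.s k153 k221 9 (.s k169 k253 13 (.d k102 k204 k236 14 10))))))] .n)

def s7_255_231 : T TT 256 :=
  (.q k1 [(.s k3 k2 0 (.s k33 k49 3 (.s k18 k48 4 (.s k19 k16 0 (.d k51 k35 k34 3 4))))), (.s k49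
  k33 3 (.s k153 k221 9 (.s k101 k205 13 (.s k117 k69 3 (.d k253 k185 k169 9 13))))), (.s k3 k2 0
  (.s k51 k34 4 (.s k35 k19 3 (.s k153 k221 9 (.s k169 k253 13 (.d k102 k204 k236 14 10))))))] .n)

def s7_255_232 : T TT 256 :=
  (.q k1 [(.s k3 k2 0 (.s k33 k49 3 (.s k18 k48 4 (.s k19 k16 0 (.d k51 k35 k34 3 4))))), (.s k49
  k33 3 (.s k153 k221 9 (.s k101 k205 13 (.s k117 k69 3 (.d k253 k185 k169 9 13))))), (.s k3 k2 0
  (.s k51 k34 4 (.s k35 k19 3 (.s k153 k221 9 (.s k169 k253 13 (.d k102 k204 k236 14 10))))))] .n)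

def s7_255_233 : T TT 256 :=
  (.q k1 [(.s k3 k2 0 (.s k33 k49 3 (.s k18 k48 4 (.s k19 k16 0 (.d k51 k35 k34 3 4))))), (.s k49
  k33 3 (.s k153 k221 9 (.s k101 k205 13 (.s k117 k69 3 (.d k253 k185 k169 9 13))))), (.s k3 k2 0
  (.s k51 k34 4 (.s k35 k19 3 (.s k153 k221 9 (.s k169 k253 13 (.d k102 k204 k236 14 10))))))] .n)

def s7_255_234 : T TT 256 :=
  (.f k51 k34 4 (.q k192 [(.s k128 k64 7 (.s k145 k98 12 (.s k81 k209 7 (.d k162 k179 k243 4 12)))),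
  (.s k64 k128 7 (.s k106 k127 6 (.s k63 k149 14 (.s k59 k55 1 (.d k153 k221 k200 9 12))))), (.s
  k145 k98 12 (.s k153 k221 9 (.s k149 k157 1 (.s k21 k213 7 (.d k63 k42 k106 6 14)))))] .n))

def s7_255_235 : T TT 256 :=
  (.f k51 k34 4 (.q k195 [(.s k65 k130 8 (.s k99 k147 11 (.s k105 k125 5 (.s k102 k108 2 (.d k153
  k221 k204 9 14))))), (.s k147 k99 11 (.s k153 k221 9 (.s k150 k156 2 (.s k20 k215 8 (.d k60 k40
  k105 5 14))))), (.s k65 k130 8 (.s k153 k221 9 (.s k204 k102 14 (.s k201 k198 2 (.d k105 k125 k57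
  5 11)))))] (.c k105 (.l (.s k130 k65 8 (.s k147 k99 11 (.s k153 k221 9 (.s k150 k156 2 (.s k170
  k190 5 (.s k136 k187 4 (.d k204 k102 k68 14 9)))))))) (.c k153 (.q k1 [(.s k3 k2 0 (.s k19 k35 3
  (.s k18 k16 0 (.d k33 k49 k48 3 4)))), (.s k3 k2 0 (.s k65 k130 8 (.s k67 k131 7 (.s k66 k64 0 (.d
  k129 k193 k192 7 8))))), (.s k49 k33 3 (.s k65 k130 8 (.s k193 k129 7 (.s k97 k145 11 (.d k48 k50
  k146 0 12)))))] (.c k50 (.l (.s k33 k49 3 (.s k3 k2 0 (.s k18 k48 4 (.d k19 k16 k35 0 3))))) .n))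
  (.c k204 (.l (.s k65 k130 8 (.s k105 k125 5 (.s k60 k150 14 (.s k57 k54 2 (.d k153 k221 k201 9
  11)))))) (.c k221 (.l (.s k65 k130 8 (.s k99 k147 11 (.s k105 k125 5 (.s k102 k108 2 (.s k68 k119
  4 (.d k204 k136 k153 9 14))))))) .n))))))

def s7_255_236 : T TT 256 :=
  (.q k1 [(.s k3 k2 0 (.s k33 k49 3 (.s k18 k48 4 (.s k19 k16 0 (.d k51 k35 k34 3 4))))), (.s k49
  k33 3 (.s k153 k221 9 (.s k101 k205 13 (.s k117 k69 3 (.d k253 k185 k169 9 13))))), (.s k3 k2 0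
  (.s k51 k34 4 (.s k19 k35 3 (.s k153 k221 9 (.s k86 k220 10 (.d k169 k252 k253 14 13))))))] (.c
  k33 (.l (.s k3 k2 0 (.s k51 k34 4 (.s k153 k221 9 (.s k169 k253 13 (.s k137 k185 3 (.d k204 k70
  k102 10 14))))))) .n))

def s7_255_237 : T TT 256 :=
  (.q k1 [(.s k49 k33 3 (.s k153 k221 9 (.s k101 k205 13 (.s k253 k169 13 (.d k117 k69 k185 3
  9))))), (.s k3 k2 0 (.s k33 k49 3 (.s k34 k51 4 (.s k32 k35 0 (.d k48 k16 k18 3 4))))), (.s k3 k2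
  0 (.s k51 k34 4 (.s k35 k19 3 (.s k169 k253 13 (.s k102 k236 10 (.d k153 k221 k204 9 14))))))] .n)

def s7_255_238 : T TT 256 :=
  (.q k1 [(.s k49 k33 3 (.s k253 k169 13 (.s k117 k185 9 (.s k101 k69 3 (.d k153 k221 k205 9
  13))))), (.s k3 k2 0 (.s k33 k49 3 (.s k34 k51 4 (.s k32 k35 0 (.d k48 k16 k18 3 4))))), (.s k3 k2
  0 (.s k51 k34 4 (.s k35 k19 3 (.s k169 k253 13 (.s k102 k236 10 (.d k153 k221 k204 9 14))))))] (.c
  k204 (.l (.s k221 k153 9 (.s k3 k2 0 (.s k33 k49 3 (.s k18 k48 4 (.s k19 k16 0 (.d k51 k35 k34 3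
  4))))))) (.c k221 (.q k204 [(.s k51 k34 4 (.s k68 k136 9 (.d k102 k119 k153 4 14))), (.s k3 k2 0
  (.s k136 k68 9 (.s k137 k70 10 (.s k69 k205 9 (.d k138 k139 k207 0 10))))), (.s k3 k2 0 (.s k33
  k49 3 (.s k18 k48 4 (.s k19 k16 0 (.d k51 k35 k34 3 4)))))] .n) .n)))

def s7_255_239 : T TT 256 :=
  (.f k51 k34 4 (.q k207 [(.s k69 k138 10 (.s k101 k117 3 (.s k103 k155 13 (.s k102 k100 0 (.d k153
  k221 k204 9 14))))), (.s k69 k138 10 (.s k153 k221 9 (.s k204 k102 14 (.s k68 k136 9 (.s k70 k71 0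
  (.s k137 k3 10 (.d k205 k206 k1 0 9))))))), (.s k69 k138 10 (.s k101 k117 3 (.s k48 k154 14 (.s
  k16 k32 3 (.s k18 k19 0 (.s k33 k3 4 (.d k49 k50 k1 0 3))))))), (.s k153 k221 9 (.s k155 k103 13
  (.s k154 k152 0 (.s k16 k223 10 (.d k48 k32 k101 3 14)))))] .n))

def s7_255_240 : T TT 256 :=
  (.f k51 k34 4 (.f k221 k153 9 (.q k21 [(.s k29 k25 1 (.s k93 k157 7 (.s k89 k81 1 (.d k149 k213
  k209 7 9)))), (.s k25 k29 1 (.s k12 k38 6 (.s k8 k4 1 (.d k42 k59 k63 4 6)))), (.s k63 k42 6 (.s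
  k149 k213 7 (.s k192 k106 14 (.s k128 k64 7 (.s k145 k98 12 (.s k81 k209 7 (.d k162 k179 k243 4
  12)))))))] (.c k245 (.q k250 [(.s k29 k25 1 (.s k93 k157 7 (.s k89 k81 1 (.d k149 k213 k209 7
  9)))), (.s k25 k29 1 (.s k12 k38 6 (.s k8 k4 1 (.d k42 k59 k63 4 6)))), (.s k63 k42 6 (.s k149
  k213 7 (.s k192 k106 14 (.s k128 k64 7 (.s k145 k98 12 (.s k81 k209 7 (.d k162 k179 k243 4
  12)))))))] .n) (.c k250 (.q k245 [(.s k29 k25 1 (.s k93 k157 7 (.s k89 k81 1 (.d k149 k213 k209 7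
  9)))), (.s k25 k29 1 (.s k12 k38 6 (.s k8 k4 1 (.d k42 k59 k63 4 6)))), (.s k5 k165 11 (.s k53 k37
  3 (.s k117 k181 7 (.s k101 k69 3 (.d k149 k213 k197 7 11)))))] .n) .n)))))

def s7_255_241 : T TT 256 :=
  (.q k1 [(.s k3 k2 0 (.s k51 k34 4 (.s k19 k35 3 (.s k18 k16 0 (.d k33 k49 k48 3 4))))), (.s k49
  k33 3 (.s k153 k221 9 (.s k101 k205 13 (.s k117 k69 3 (.d k253 k185 k169 9 13))))), (.s k3 k2 0
  (.s k51 k34 4 (.s k35 k19 3 (.s k153 k221 9 (.s k169 k253 13 (.d k102 k204 k236 14 10))))))] .n)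

def s7_255_242 : T TT 256 :=
  (.q k1 [(.s k49 k33 3 (.s k153 k221 9 (.s k101 k205 13 (.s k117 k69 3 (.d k253 k185 k169 9
  13))))), (.s k3 k2 0 (.s k33 k49 3 (.s k34 k51 4 (.s k32 k35 0 (.d k48 k16 k18 3 4))))), (.s k3 k2
  0 (.s k51 k34 4 (.s k35 k19 3 (.s k153 k221 9 (.s k169 k253 13 (.d k102 k204 k236 14 10))))))] .n)

def s7_255_243 : T TT 256 :=
  (.f k51 k34 4 (.q k3 [(.s k1 k2 0 (.s k19 k35 3 (.s k18 k16 0 (.d k33 k49 k48 3 4)))), (.s k19 k35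
  3 (.s k153 k221 9 (.s k86 k220 10 (.s k84 k87 0 (.d k252 k168 k169 13 14))))), (.s k1 k2 0 (.s
  k153 k221 9 (.s k169 k253 13 (.s k137 k185 3 (.d k204 k70 k102 10 14)))))] (.c k247 (.q k251 [(.s
  k1 k2 0 (.s k19 k35 3 (.s k18 k16 0 (.d k33 k49 k48 3 4)))), (.s k19 k35 3 (.s k153 k221 9 (.s k86
  k220 10 (.s k252 k169 14 (.d k84 k87 k168 0 13))))), (.s k1 k2 0 (.s k153 k221 9 (.s k169 k253 13
  (.s k137 k185 3 (.d k204 k70 k102 10 14)))))] (.c k87 (.q k167 [(.s k1 k2 0 (.s k19 k35 3 (.s k18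
  k16 0 (.d k33 k49 k48 3 4)))), (.s k19 k35 3 (.s k153 k221 9 (.s k86 k220 10 (.s k169 k252 14 (.s
  k137 k185 3 (.d k204 k70 k102 10 14)))))), (.s k1 k2 0 (.s k153 k221 9 (.s k169 k253 13 (.s k137
  k185 3 (.d k204 k70 k102 10 14)))))] .n) (.c k167 (.q k87 [(.s k1 k2 0 (.s k86 k84 0 (.d k169 k253
  k252 13 14))), (.s k19 k35 3 (.s k86 k84 0 (.d k153 k221 k220 9 10))), (.s k19 k35 3 (.s k16 k18 0
  (.d k223 k155 k154 9 10)))] (.c k15 (.q k91 [(.s k1 k2 0 (.s k86 k84 0 (.d k169 k253 k252 13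
  14))), (.s k19 k35 3 (.s k86 k84 0 (.d k153 k221 k220 9 10))), (.s k19 k35 3 (.s k16 k18 0 (.d
  k223 k155 k154 9 10)))] (.c k95 (.q k175 [(.s k1 k2 0 (.s k86 k84 0 (.d k169 k253 k252 13 14))),
  (.s k19 k35 3 (.s k86 k84 0 (.d k153 k221 k220 9 10))), (.s k19 k35 3 (.s k16 k18 0 (.d k223 k155
  k154 9 10)))] .n) (.c k175 (.l (.s k95 k83 1 (.s k1 k2 0 (.s k86 k84 0 (.d k169 k253 k252 13
  14))))) .n))) (.c k91 (.q k15 [(.s k1 k2 0 (.s k86 k84 0 (.d k169 k253 k252 13 14))), (.s k19 k35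
  3 (.s k86 k84 0 (.d k153 k221 k220 9 10))), (.s k19 k35 3 (.s k16 k18 0 (.d k223 k155 k154 9
  10)))] .n) .n))) .n))) (.c k251 (.q k247 [(.s k1 k2 0 (.s k19 k35 3 (.s k18 k16 0 (.d k33 k49 k48
  3 4)))), (.s k19 k35 3 (.s k153 k221 9 (.s k86 k220 10 (.s k84 k87 0 (.d k252 k168 k169 13
  14))))), (.s k1 k2 0 (.s k153 k221 9 (.s k169 k253 13 (.s k137 k185 3 (.d k204 k70 k102 10
  14)))))] .n) .n))))

def s7_255_244 : T TT 256 :=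
  (.q k86 [(.s k153 k221 9 (.s k19 k220 10 (.s k16 k18 0 (.s k223 k154 10 (.d k87 k84 k155 0 9))))),
  (.s k51 k34 4 (.s k84 k87 0 (.s k153 k221 9 (.s k252 k168 13 (.s k118 k185 10 (.d k102 k204 k70 14
  3)))))), (.s k51 k34 4 (.s k84 k87 0 (.s k252 k168 13 (.s k3 k169 14 (.s k19 k35 3 (.s k16 k18 0
  (.d k220 k152 k153 9 10))))))), (.s k51 k34 4 (.s k153 k221 9 (.s k19 k220 10 (.s k3 k35 3 (.s k1
  k2 0 (.d k169 k253 k252 13 14))))))] (.c k153 (.q k1 [(.s k3 k2 0 (.d k169 k253 k252 13 14)), (.s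
  k2 k3 0 (.s k34 k51 4 (.s k18 k50 3 (.s k154 k222 9 (.d k16 k19 k223 0 10))))), (.s k49 k33 3 (.s
  k51 k34 4 (.s k253 k169 13 (.s k185 k117 9 (.s k252 k118 10 (.d k84 k87 k168 0 13))))))] .n) .n))

def s7_255_245 : T TT 256 :=
  (.f k51 k34 4 (.q k240 [(.s k80 k160 11 (.s k90 k95 2 (.s k114 k177 8 (.s k102 k78 5 (.d k153 k221
  k204 9 14))))), (.s k80 k160 11 (.s k153 k221 9 (.s k204 k102 14 (.s k216 k228 5 (.d k90 k95 k27 2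
  8))))), (.s k153 k221 9 (.s k177 k114 8 (.s k165 k141 5 (.s k15 k90 14 (.s k39 k27 5 (.d k102 k204
  k228 14 8))))))] (.c k90 (.l (.s k153 k221 9 (.s k160 k80 11 (.s k177 k114 8 (.s k165 k141 5 (.s
  k170 k175 2 (.s k136 k187 4 (.d k204 k102 k68 14 9)))))))) (.c k102 (.l (.s k80 k160 11 (.s k90
  k95 2 (.s k15 k165 14 (.s k153 k221 9 (.d k27 k39 k216 5 8)))))) (.c k153 (.q k1 [(.s k3 k2 0 (.s
  k19 k35 3 (.s k18 k16 0 (.d k33 k49 k48 3 4)))), (.s k49 k33 3 (.s k177 k114 8 (.s k241 k113 7 (.s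
  k81 k161 11 (.d k243 k242 k162 0 12))))), (.s k3 k2 0 (.s k160 k80 11 (.s k161 k82 12 (.s k81 k241
  11 (.d k162 k163 k243 0 12)))))] .n) (.c k204 (.l (.s k80 k160 11 (.s k90 k95 2 (.s k15 k165 14
  (.s k27 k39 5 (.d k153 k216 k221 8 9)))))) (.c k221 (.l (.s k80 k160 11 (.s k90 k95 2 (.s k114
  k177 8 (.s k102 k78 5 (.s k68 k119 4 (.d k204 k136 k153 9 14))))))) .n)))))))

def s7_255_246 : T TT 256 :=
  (.q k1 [(.s k3 k2 0 (.s k33 k49 3 (.s k18 k48 4 (.s k19 k16 0 (.d k51 k35 k34 3 4))))), (.s k49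
  k33 3 (.s k153 k221 9 (.s k101 k205 13 (.s k117 k69 3 (.d k253 k185 k169 9 13))))), (.s k3 k2 0
  (.s k51 k34 4 (.s k35 k19 3 (.s k153 k221 9 (.s k169 k253 13 (.d k102 k204 k236 14 10))))))] .n)

def s7_255_247 : T TT 256 :=
  (.q k243 [(.s k51 k34 4 (.s k81 k162 12 (.s k115 k179 7 (.s k98 k64 4 (.d k145 k209 k192 7
  12))))), (.s k81 k162 12 (.s k89 k93 1 (.s k153 k221 9 (.s k25 k217 7 (.s k29 k21 1 (.d k209 k145
  k149 7 9)))))), (.s k51 k34 4 (.s k153 k221 9 (.s k179 k115 7 (.s k166 k140 6 (.s k12 k89 14 (.s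
  k38 k25 6 (.d k102 k204 k230 14 7)))))))] (.c k87 (.q k167 [(.s k51 k34 4 (.s k81 k162 12 (.s k115
  k179 7 (.s k98 k64 4 (.d k145 k209 k192 7 12))))), (.s k15 k91 13 (.s k5 k10 2 (.s k81 k162 12 (.s
  k89 k93 1 (.s k165 k245 11 (.d k166 k12 k164 14 0)))))), (.s k15 k91 13 (.s k51 k34 4 (.s k39 k27
  5 (.s k103 k231 7 (.s k155 k207 13 (.d k179 k143 k115 5 7))))))] (.c k3 (.q k171 [(.s k51 k34 4
  (.s k81 k162 12 (.s k115 k179 7 (.s k98 k64 4 (.d k145 k209 k192 7 12))))), (.s k15 k91 13 (.s k5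
  k10 2 (.s k165 k245 11 (.s k175 k163 1 (.s k160 k170 2 (.d k240 k90 k80 14 11))))))] (.c k11 (.l
  (.s k15 k91 13 (.s k5 k10 2 (.s k81 k162 12 (.s k89 k93 1 (.s k165 k245 11 (.d k166 k12 k164 14
  0))))))) (.c k15 (.q k11 [(.s k51 k34 4 (.s k81 k162 12 (.s k115 k179 7 (.s k98 k64 4 (.d k145
  k209 k192 7 12))))), (.s k81 k162 12 (.s k89 k93 1 (.s k12 k166 14 (.s k8 k4 1 (.d k251 k170 k91
  12 11))))), (.s k51 k34 4 (.s k91 k251 11 (.s k115 k179 7 (.s k103 k79 5 (.s k207 k155 13 (.d k231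
  k219 k39 5 7))))))] (.c k95 (.l (.s k175 k163 1 (.s k51 k34 4 (.s k81 k162 12 (.s k115 k179 7 (.s
  k98 k64 4 (.d k145 k209 k192 7 12))))))) (.c k175 (.q k95 [(.s k81 k162 12 (.s k90 k80 2 (.s k91
  k251 11 (.d k89 k88 k93 0 1)))), (.s k51 k34 4 (.s k81 k162 12 (.s k115 k179 7 (.s k98 k64 4 (.d
  k145 k209 k192 7 12))))), (.s k51 k34 4 (.s k91 k251 11 (.s k115 k179 7 (.s k103 k79 5 (.s k207
  k155 13 (.d k231 k219 k39 5 7))))))] .n) .n))) .n))) (.c k171 (.q k3 [(.s k51 k34 4 (.s k81 k162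
  12 (.s k115 k179 7 (.s k98 k64 4 (.d k145 k209 k192 7 12))))), (.s k1 k2 0 (.s k33 k49 3 (.s k18
  k48 4 (.s k19 k16 0 (.d k51 k35 k34 3 4))))), (.s k1 k2 0 (.s k81 k162 12 (.s k83 k163 11 (.s k82
  k80 0 (.d k161 k241 k240 11 12)))))] .n) .n))) (.c k167 (.q k87 [(.s k51 k34 4 (.s k81 k162 12 (.s
  k145 k209 7 (.s k98 k192 12 (.d k115 k64 k179 4 7))))), (.s k86 k84 0 (.s k153 k221 9 (.s k19 k220
  10 (.s k16 k18 0 (.d k223 k155 k154 9 10)))))] .n) .n)))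

def s7_255_248 : T TT 256 :=
  (.q k1 [(.s k3 k2 0 (.s k33 k49 3 (.s k18 k48 4 (.s k19 k16 0 (.d k51 k35 k34 3 4))))), (.s k49
  k33 3 (.s k153 k221 9 (.s k101 k205 13 (.s k117 k69 3 (.d k253 k185 k169 9 13))))), (.s k3 k2 0
  (.s k51 k34 4 (.s k35 k19 3 (.s k153 k221 9 (.s k169 k253 13 (.d k102 k204 k236 14 10))))))] .n)

def s7_255_249 : T TT 256 :=
  (.q k1 [(.s k3 k2 0 (.s k33 k49 3 (.s k18 k48 4 (.s k19 k16 0 (.d k51 k35 k34 3 4))))), (.s k49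
  k33 3 (.s k153 k221 9 (.s k101 k205 13 (.s k117 k69 3 (.d k253 k185 k169 9 13))))), (.s k3 k2 0
  (.s k51 k34 4 (.s k35 k19 3 (.s k153 k221 9 (.s k169 k253 13 (.d k102 k204 k236 14 10))))))] .n)

def s7_255_250 : T TT 256 :=
  (.f k51 k34 4 (.q k240 [(.s k80 k160 11 (.s k90 k95 2 (.s k114 k177 8 (.s k102 k78 5 (.d k153 k221
  k204 9 14))))), (.s k153 k221 9 (.s k177 k114 8 (.s k165 k141 5 (.s k5 k245 11 (.d k15 k10 k90 2
  14))))), (.s k80 k160 11 (.s k90 k95 2 (.s k15 k165 14 (.s k27 k39 5 (.d k153 k216 k221 8 9)))))]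
  (.c k15 (.l (.s k80 k160 11 (.s k153 k221 9 (.s k204 k102 14 (.s k216 k228 5 (.d k90 k95 k27 2
  8)))))) (.c k90 (.l (.s k153 k221 9 (.s k160 k80 11 (.s k177 k114 8 (.s k165 k141 5 (.s k170 k175
  2 (.s k136 k187 4 (.d k204 k102 k68 14 9)))))))) (.c k153 (.q k1 [(.s k3 k2 0 (.s k19 k35 3 (.s
  k18 k16 0 (.d k33 k49 k48 3 4)))), (.s k49 k33 3 (.s k177 k114 8 (.s k241 k113 7 (.s k81 k161 11
  (.d k243 k242 k162 0 12))))), (.s k3 k2 0 (.s k160 k80 11 (.s k161 k82 12 (.s k81 k241 11 (.d k162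
  k163 k243 0 12)))))] .n) (.c k221 (.l (.s k80 k160 11 (.s k90 k95 2 (.s k114 k177 8 (.s k102 k78 5
  (.s k68 k119 4 (.d k204 k136 k153 9 14))))))) .n))))))

def s7_255_251 : T TT 256 :=
  (.q k243 [(.s k51 k34 4 (.s k81 k162 12 (.s k115 k179 7 (.s k98 k64 4 (.d k145 k209 k192 7
  12))))), (.s k81 k162 12 (.s k89 k93 1 (.s k153 k221 9 (.s k25 k217 7 (.s k29 k21 1 (.d k209 k145
  k149 7 9)))))), (.s k51 k34 4 (.s k153 k221 9 (.s k179 k115 7 (.s k166 k140 6 (.s k4 k247 12 (.d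
  k12 k8 k89 1 14))))))] .n)

def s7_255_252 : T TT 256 :=
  (.f k51 k34 4 (.q k1 [(.s k3 k2 0 (.s k19 k35 3 (.s k18 k16 0 (.d k33 k49 k48 3 4)))), (.s k49 k33
  3 (.s k153 k221 9 (.s k101 k205 13 (.s k117 k69 3 (.d k253 k185 k169 9 13))))), (.s k3 k2 0 (.s
  k153 k221 9 (.s k204 k102 14 (.s k137 k70 10 (.d k169 k253 k185 13 3)))))] (.c k253 (.q k254 [(.s
  k3 k2 0 (.s k19 k35 3 (.s k18 k16 0 (.d k33 k49 k48 3 4)))), (.s k2 k3 0 (.s k153 k221 9 (.s k204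
  k102 14 (.s k136 k68 9 (.d k170 k86 k187 13 4))))), (.s k49 k33 3 (.s k153 k221 9 (.s k204 k102 14
  (.s k205 k101 13 (.s k69 k137 9 (.d k207 k206 k138 0 10))))))] .n) (.c k254 (.l (.s k253 k169 13
  (.s k3 k2 0 (.s k19 k35 3 (.s k18 k16 0 (.d k33 k49 k48 3 4)))))) .n))))

def s7_255_253 : T TT 256 :=
  (.f k51 k34 4 (.q k252 [(.s k84 k168 13 (.s k153 k221 9 (.s k185 k118 10 (.s k169 k137 3 (.d k86
  k87 k3 0 14))))), (.s k84 k168 13 (.s k86 k87 0 (.s k3 k169 14 (.s k1 k2 0 (.s k19 k35 3 (.s k18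
  k16 0 (.d k33 k49 k48 3 4))))))), (.s k84 k168 13 (.s k153 k221 9 (.s k204 k102 14 (.s k68 k136 9
  (.s k100 k116 3 (.s k152 k48 13 (.d k220 k236 k16 3 9))))))), (.s k153 k221 9 (.s k185 k118 10 (.s
  k169 k137 3 (.s k3 k86 14 (.s k35 k19 3 (.d k102 k204 k236 14 10))))))] .n))

def s7_255_254 : T TT 256 :=
  (.q k1 [(.s k253 k169 13 (.s k49 k33 3 (.s k117 k185 9 (.s k101 k69 3 (.d k153 k221 k205 9
  13))))), (.s k3 k2 0 (.s k33 k49 3 (.s k34 k51 4 (.s k32 k35 0 (.d k48 k16 k18 3 4))))), (.s k3 k2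
  0 (.s k51 k34 4 (.s k153 k221 9 (.s k204 k102 14 (.s k137 k70 10 (.d k169 k253 k185 13 3))))))]
  (.c k252 (.l (.s k253 k169 13 (.s k49 k33 3 (.s k117 k185 9 (.s k101 k69 3 (.d k153 k221 k205 9
  13)))))) (.c k253 (.q k252 [(.s k3 k2 0 (.s k84 k168 13 (.d k86 k87 k169 0 14))), (.s k49 k33 3
  (.s k51 k34 4 (.s k153 k221 9 (.s k185 k118 10 (.s k137 k169 3 (.d k205 k101 k69 13 9))))))] (.c
  k169 (.l (.s k3 k2 0 (.s k33 k49 3 (.s k18 k48 4 (.s k19 k16 0 (.d k51 k35 k34 3 4)))))) .n))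
  .n)))

def t7_255 : T TT 256 :=
  (.q k17 [] (.c k1 s7_255_1 (.c k2 s7_255_2 (.c k3 s7_255_3 (.c k4 s7_255_4 (.c k5 s7_255_5 (.c k6
  s7_255_6 (.c k8 s7_255_8 (.c k9 s7_255_9 (.c k10 s7_255_10 (.c k11 s7_255_11 (.c k12 s7_255_12 (.c
  k13 s7_255_13 (.c k14 s7_255_14 (.c k15 s7_255_15 (.c k16 s7_255_16 (.c k18 s7_255_18 (.c k19
  s7_255_19 (.c k20 s7_255_20 (.c k21 s7_255_21 (.c k22 s7_255_22 (.c k23 s7_255_23 (.c k24
  s7_255_24 (.c k25 s7_255_25 (.c k26 s7_255_26 (.c k27 s7_255_27 (.c k28 s7_255_28 (.c k29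
  s7_255_29 (.c k30 s7_255_30 (.c k31 s7_255_31 (.c k32 s7_255_32 (.c k33 s7_255_33 (.c k34
  s7_255_34 (.c k35 s7_255_35 (.c k36 s7_255_36 (.c k37 s7_255_37 (.c k38 s7_255_38 (.c k39
  s7_255_39 (.c k40 s7_255_40 (.c k41 s7_255_41 (.c k42 s7_255_42 (.c k43 s7_255_43 (.c k44
  s7_255_44 (.c k45 s7_255_45 (.c k46 s7_255_46 (.c k47 s7_255_47 (.c k48 s7_255_48 (.c k49
  s7_255_49 (.c k50 s7_255_50 (.c k51 s7_255_51 (.c k52 s7_255_52 (.c k53 s7_255_53 (.c k54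
  s7_255_54 (.c k55 s7_255_55 (.c k56 s7_255_56 (.c k57 s7_255_57 (.c k58 s7_255_58 (.c k59
  s7_255_59 (.c k60 s7_255_60 (.c k61 s7_255_61 (.c k62 s7_255_62 (.c k63 s7_255_63 (.c k64
  s7_255_64 (.c k65 s7_255_65 (.c k66 s7_255_66 (.c k67 s7_255_67 (.c k68 s7_255_68 (.c k69
  s7_255_69 (.c k70 s7_255_70 (.c k71 s7_255_71 (.c k72 s7_255_72 (.c k73 s7_255_73 (.c k74
  s7_255_74 (.c k75 s7_255_75 (.c k76 s7_255_76 (.c k77 s7_255_77 (.c k78 s7_255_78 (.c k79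
  s7_255_79 (.c k80 s7_255_80 (.c k81 s7_255_81 (.c k82 s7_255_82 (.c k83 s7_255_83 (.c k84
  s7_255_84 (.c k86 s7_255_86 (.c k87 s7_255_87 (.c k88 s7_255_88 (.c k89 s7_255_89 (.c k90
  s7_255_90 (.c k91 s7_255_91 (.c k92 s7_255_92 (.c k93 s7_255_93 (.c k94 s7_255_94 (.c k95
  s7_255_95 (.c k96 s7_255_96 (.c k97 s7_255_97 (.c k98 s7_255_98 (.c k99 s7_255_99 (.c k100
  s7_255_100 (.c k101 s7_255_101 (.c k102 s7_255_102 (.c k103 s7_255_103 (.c k104 s7_255_104 (.c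
  k105 s7_255_105 (.c k106 s7_255_106 (.c k107 s7_255_107 (.c k108 s7_255_108 (.c k109 s7_255_109
  (.c k110 s7_255_110 (.c k111 s7_255_111 (.c k112 s7_255_112 (.c k113 s7_255_113 (.c k114
  s7_255_114 (.c k115 s7_255_115 (.c k116 s7_255_116 (.c k117 s7_255_117 (.c k118 s7_255_118 (.c
  k119 s7_255_119 (.c k120 s7_255_120 (.c k121 s7_255_121 (.c k122 s7_255_122 (.c k123 s7_255_123
  (.c k124 s7_255_124 (.c k125 s7_255_125 (.c k126 s7_255_126 (.c k127 s7_255_127 (.c k128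
  s7_255_128 (.c k129 s7_255_129 (.c k130 s7_255_130 (.c k131 s7_255_131 (.c k132 s7_255_132 (.c
  k133 s7_255_133 (.c k134 s7_255_134 (.c k135 s7_255_135 (.c k136 s7_255_136 (.c k137 s7_255_137
  (.c k138 s7_255_138 (.c k139 s7_255_139 (.c k140 s7_255_140 (.c k141 s7_255_141 (.c k142
  s7_255_142 (.c k143 s7_255_143 (.c k144 s7_255_144 (.c k145 s7_255_145 (.c k146 s7_255_146 (.c
  k147 s7_255_147 (.c k148 s7_255_148 (.c k149 s7_255_149 (.c k150 s7_255_150 (.c k151 s7_255_151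
  (.c k152 s7_255_152 (.c k153 s7_255_153 (.c k154 s7_255_154 (.c k155 s7_255_155 (.c k156
  s7_255_156 (.c k157 s7_255_157 (.c k158 s7_255_158 (.c k159 s7_255_159 (.c k160 s7_255_160 (.c
  k161 s7_255_161 (.c k162 s7_255_162 (.c k163 s7_255_163 (.c k164 s7_255_164 (.c k165 s7_255_165
  (.c k166 s7_255_166 (.c k167 s7_255_167 (.c k168 s7_255_168 (.c k169 s7_255_169 (.c k170
  s7_255_170 (.c k171 s7_255_171 (.c k172 s7_255_172 (.c k173 s7_255_173 (.c k174 s7_255_174 (.c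
  k175 s7_255_175 (.c k176 s7_255_176 (.c k177 s7_255_177 (.c k178 s7_255_178 (.c k179 s7_255_179
  (.c k180 s7_255_180 (.c k181 s7_255_181 (.c k182 s7_255_182 (.c k183 s7_255_183 (.c k184
  s7_255_184 (.c k185 s7_255_185 (.c k186 s7_255_186 (.c k187 s7_255_187 (.c k188 s7_255_188 (.c
  k189 s7_255_189 (.c k190 s7_255_190 (.c k191 s7_255_191 (.c k192 s7_255_192 (.c k193 s7_255_193
  (.c k194 s7_255_194 (.c k195 s7_255_195 (.c k196 s7_255_196 (.c k197 s7_255_197 (.c k198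
  s7_255_198 (.c k199 s7_255_199 (.c k200 s7_255_200 (.c k201 s7_255_201 (.c k202 s7_255_202 (.c
  k203 s7_255_203 (.c k204 s7_255_204 (.c k205 s7_255_205 (.c k206 s7_255_206 (.c k207 s7_255_207
  (.c k208 s7_255_208 (.c k209 s7_255_209 (.c k210 s7_255_210 (.c k211 s7_255_211 (.c k212
  s7_255_212 (.c k213 s7_255_213 (.c k214 s7_255_214 (.c k215 s7_255_215 (.c k216 s7_255_216 (.c
  k217 s7_255_217 (.c k218 s7_255_218 (.c k219 s7_255_219 (.c k220 s7_255_220 (.c k221 s7_255_221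
  (.c k222 s7_255_222 (.c k223 s7_255_223 (.c k224 s7_255_224 (.c k225 s7_255_225 (.c k226
  s7_255_226 (.c k227 s7_255_227 (.c k228 s7_255_228 (.c k229 s7_255_229 (.c k230 s7_255_230 (.c
  k231 s7_255_231 (.c k232 s7_255_232 (.c k233 s7_255_233 (.c k234 s7_255_234 (.c k235 s7_255_235
  (.c k236 s7_255_236 (.c k237 s7_255_237 (.c k238 s7_255_238 (.c k239 s7_255_239 (.c k240
  s7_255_240 (.c k241 s7_255_241 (.c k242 s7_255_242 (.c k243 s7_255_243 (.c k244 s7_255_244 (.c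
  k245 s7_255_245 (.c k246 s7_255_246 (.c k247 s7_255_247 (.c k248 s7_255_248 (.c k249 s7_255_249
  (.c k250 s7_255_250 (.c k251 s7_255_251 (.c k252 s7_255_252 (.c k253 s7_255_253 (.c k254
  s7_255_254 .n))))))))))))))))))))))))))))))))))))))))))))))))))))))))))))))))))))))))))))))))
  ))))))))))))))))))))))))))))))))))))))))))))))))))))))))))))))))))))))))))))))))
  )))))))))))))))))))))))))))))))))))))))))))))))))))))))))))))))))))))))))))))))) ))))))))))))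

def s10_170_1 : T TT 256 :=
  (.q k16 [(.s k80 k95 2 (.s k154 k223 10 (.s k26 k218 7 (.s k208 k144 7 (.d k31 k21 k149 2 10))))),
  (.s k48 k32 3 (.s k80 k95 2 (.s k144 k208 7 (.s k96 k192 11 (.s k112 k64 3 (.d k240 k176 k160 7
  11)))))), (.s k48 k32 3 (.s k154 k223 10 (.s k26 k218 7 (.s k15 k37 6 (.s k101 k207 14 (.s k112
  k79 6 (.d k240 k176 k165 7 14)))))))] (.c k208 (.l (.s k48 k32 3 (.s k80 k95 2 (.s k154 k223 10
  (.s k101 k207 14 (.s k112 k79 6 (.d k240 k176 k160 7 11))))))) .n))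

def s10_170_2 : T TT 256 :=
  (.f k80 k95 2 (.q k86 [(.s k82 k94 1 (.s k83 k81 0 (.s k84 k87 0 (.d k92 k88 k89 1 2)))), (.s k84
  k87 0 (.s k240 k160 11 (.s k165 k15 14 (.s k244 k7 12 (.d k252 k248 k168 1 13))))), (.s k82 k94 1
  (.s k240 k160 11 (.s k3 k161 12 (.s k165 k15 14 (.s k244 k7 12 (.d k252 k248 k169 1 14))))))] (.c
  k6 (.q k14 [(.s k82 k94 1 (.s k83 k81 0 (.s k84 k87 0 (.d k92 k88 k89 1 2)))), (.s k84 k87 0 (.s
  k240 k160 11 (.s k165 k15 14 (.s k244 k7 12 (.d k252 k248 k168 1 13))))), (.s k82 k94 1 (.s k240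
  k160 11 (.s k242 k166 13 (.s k243 k241 0 (.d k81 k162 k83 12 0)))))] (.c k83 (.l (.s k82 k94 1 (.s
  k240 k160 11 (.s k3 k161 12 (.s k252 k169 14 (.d k84 k168 k87 13 0)))))) .n)) (.c k14 (.q k6 [(.s
  k82 k94 1 (.s k83 k81 0 (.s k84 k87 0 (.d k92 k88 k89 1 2)))), (.s k240 k160 11 (.s k165 k15 14
  (.s k5 k245 11 (.d k7 k4 k244 0 12))))] .n) .n))))

def s10_170_3 : T TT 256 :=
  (.q k16 [(.s k80 k95 2 (.s k208 k144 7 (.s k149 k31 10 (.s k213 k21 7 (.d k223 k218 k154 2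
  10))))), (.s k48 k32 3 (.s k80 k95 2 (.s k144 k208 7 (.s k96 k192 11 (.s k112 k64 3 (.d k240 k176
  k160 7 11)))))), (.s k48 k32 3 (.s k154 k223 10 (.s k26 k218 7 (.s k15 k37 6 (.s k101 k207 14 (.s
  k112 k79 6 (.d k240 k176 k165 7 14)))))))] (.c k208 (.l (.s k48 k32 3 (.s k80 k95 2 (.s k154 k223
  10 (.s k101 k207 14 (.s k112 k79 6 (.d k240 k176 k160 7 11))))))) .n))

def s10_170_4 : T TT 256 :=
  (.q k16 [(.s k80 k95 2 (.s k154 k223 10 (.s k26 k218 7 (.s k208 k144 7 (.d k31 k21 k149 2 10))))),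
  (.s k48 k32 3 (.s k80 k95 2 (.s k144 k208 7 (.s k96 k192 11 (.s k112 k64 3 (.d k240 k176 k160 7
  11)))))), (.s k48 k32 3 (.s k154 k223 10 (.s k26 k218 7 (.s k15 k37 6 (.s k101 k207 14 (.s k112
  k79 6 (.d k240 k176 k165 7 14)))))))] (.c k208 (.l (.s k48 k32 3 (.s k80 k95 2 (.s k154 k223 10
  (.s k101 k207 14 (.s k112 k79 6 (.d k240 k176 k160 7 11))))))) .n))

def s10_170_5 : T TT 256 :=
  (.q k16 [(.s k80 k95 2 (.s k154 k223 10 (.s k26 k218 7 (.s k208 k144 7 (.d k31 k21 k149 2 10))))),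
  (.s k48 k32 3 (.s k80 k95 2 (.s k144 k208 7 (.s k96 k192 11 (.s k112 k64 3 (.d k240 k176 k160 7
  11)))))), (.s k48 k32 3 (.s k154 k223 10 (.s k26 k218 7 (.s k15 k37 6 (.s k101 k207 14 (.s k112
  k79 6 (.d k240 k176 k165 7 14)))))))] (.c k208 (.l (.s k48 k32 3 (.s k80 k95 2 (.s k154 k223 10
  (.s k101 k207 14 (.s k112 k79 6 (.d k240 k176 k160 7 11))))))) .n))

def s10_170_6 : T TT 256 :=
  (.f k80 k95 2 (.q k166 [(.s k4 k247 12 (.s k12 k8 1 (.s k14 k242 13 (.s k15 k13 0 (.d k240 k160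
  k165 11 14))))), (.s k240 k160 11 (.s k165 k15 14 (.s k167 k164 0 (.s k245 k5 11 (.s k247 k4 12
  (.s k7 k87 11 (.d k244 k246 k86 0 12))))))), (.s k4 k247 12 (.s k12 k8 1 (.s k89 k243 14 (.s k81
  k93 1 (.s k83 k82 0 (.s k88 k91 0 (.d k92 k84 k86 1 2))))))), (.s k240 k160 11 (.s k165 k15 14 (.s
  k164 k167 0 (.s k12 k88 13 (.s k243 k89 14 (.d k242 k14 k241 13 0))))))] (.c k2 (.l (.s k14 k242
  13 (.s k4 k247 12 (.s k12 k8 1 (.s k15 k13 0 (.d k240 k160 k165 11 14)))))) (.c k14 (.q k2 [(.s k3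
  k1 0 (.s k240 k160 11 (.s k82 k161 12 (.s k162 k242 11 (.d k81 k83 k243 0 12))))), (.s k4 k247 12
  (.s k12 k8 1 (.s k89 k243 14 (.s k88 k91 0 (.s k84 k92 1 (.d k164 k244 k240 11 13)))))), (.s k4
  k247 12 (.s k12 k8 1 (.s k240 k160 11 (.s k164 k88 13 (.d k165 k167 k15 0 14)))))] (.c k240 (.l
  (.s k4 k247 12 (.s k12 k8 1 (.s k89 k243 14 (.s k81 k93 1 (.s k83 k82 0 (.s k88 k91 0 (.d k92 k84
  k86 1 2)))))))) .n)) (.c k15 (.l (.s k4 k247 12 (.s k12 k8 1 (.s k89 k243 14 (.s k240 k160 11 (.d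
  k88 k91 k164 0 13)))))) .n)))))

def s10_170_7 : T TT 256 :=
  (.q k16 [(.s k80 k95 2 (.s k208 k144 7 (.s k149 k31 10 (.s k213 k21 7 (.d k223 k218 k154 2
  10))))), (.s k48 k32 3 (.s k80 k95 2 (.s k144 k208 7 (.s k96 k192 11 (.s k112 k64 3 (.d k240 k176
  k160 7 11)))))), (.s k48 k32 3 (.s k154 k223 10 (.s k26 k218 7 (.s k15 k37 6 (.s k101 k207 14 (.s
  k112 k79 6 (.d k240 k176 k165 7 14)))))))] (.c k208 (.l (.s k48 k32 3 (.s k80 k95 2 (.s k154 k223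
  10 (.s k101 k207 14 (.s k112 k79 6 (.d k240 k176 k160 7 11))))))) .n))

def s10_170_8 : T TT 256 :=
  (.f k80 k95 2 (.q k89 [(.s k81 k93 1 (.s k83 k82 0 (.s k88 k91 0 (.d k92 k84 k86 1 2)))), (.s k88
  k91 0 (.s k240 k160 11 (.s k12 k164 13 (.s k165 k15 14 (.s k241 k13 13 (.d k243 k242 k166 0
  14)))))), (.s k81 k93 1 (.s k240 k160 11 (.s k165 k15 14 (.s k241 k13 13 (.d k243 k242 k162 0
  12)))))] (.c k9 (.q k11 [(.s k81 k93 1 (.s k83 k82 0 (.s k88 k91 0 (.d k92 k84 k86 1 2)))), (.s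
  k81 k93 1 (.s k240 k160 11 (.s k165 k15 14 (.s k241 k13 13 (.d k243 k242 k162 0 12))))), (.s k88
  k91 0 (.s k240 k160 11 (.s k248 k169 12 (.s k252 k244 1 (.d k84 k168 k92 13 1)))))] (.c k92 (.l
  (.s k88 k91 0 (.s k240 k160 11 (.s k12 k164 13 (.s k243 k166 14 (.d k81 k162 k93 12 1)))))) .n))
  (.c k11 (.q k9 [(.s k81 k93 1 (.s k83 k82 0 (.s k88 k91 0 (.d k92 k84 k86 1 2)))), (.s k240 k160
  11 (.s k165 k15 14 (.s k5 k245 11 (.d k13 k1 k241 1 13))))] .n) .n))))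

def s10_170_9 : T TT 256 :=
  (.f k80 k95 2 (.q k169 [(.s k1 k253 13 (.s k3 k2 0 (.s k11 k248 12 (.s k15 k7 1 (.d k240 k160 k165
  11 14))))), (.s k240 k160 11 (.s k165 k15 14 (.s k173 k161 1 (.s k245 k5 11 (.s k253 k1 13 (.s k13
  k93 11 (.d k241 k249 k89 1 13))))))), (.s k1 k253 13 (.s k3 k2 0 (.s k86 k252 14 (.s k82 k94 1 (.s
  k83 k81 0 (.s k84 k87 0 (.d k92 k88 k89 1 2))))))), (.s k240 k160 11 (.s k165 k15 14 (.s k161 k173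
  1 (.s k3 k82 12 (.s k252 k86 14 (.d k248 k11 k244 12 1))))))] (.c k8 (.l (.s k11 k248 12 (.s k1
  k253 13 (.s k3 k2 0 (.s k15 k7 1 (.d k240 k160 k165 11 14)))))) (.c k11 (.q k8 [(.s k12 k4 1 (.s
  k240 k160 11 (.s k88 k164 13 (.s k84 k92 1 (.d k168 k248 k252 11 13))))), (.s k1 k253 13 (.s k3 k2
  0 (.s k240 k160 11 (.s k161 k82 12 (.d k165 k173 k15 1 14))))), (.s k1 k253 13 (.s k3 k2 0 (.s k86
  k252 14 (.s k82 k94 1 (.s k83 k81 0 (.s k84 k87 0 (.d k92 k88 k89 1 2)))))))] .n) (.c k15 (.l (.s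
  k1 k253 13 (.s k3 k2 0 (.s k86 k252 14 (.s k240 k160 11 (.d k82 k94 k161 1 12)))))) .n)))))

def s10_170_11 : T TT 256 :=
  (.f k80 k95 2 (.q k81 [(.s k83 k82 0 (.s k89 k93 1 (.s k88 k91 0 (.d k92 k84 k86 1 2)))), (.s k82
  k83 0 (.s k162 k243 12 (.s k2 k242 11 (.s k3 k1 0 (.d k240 k160 k161 11 12))))), (.s k89 k93 1 (.s
  k240 k160 11 (.s k165 k15 14 (.s k241 k13 13 (.d k243 k242 k162 0 12)))))] (.c k8 (.q k9 [(.s k83
  k82 0 (.s k89 k93 1 (.s k88 k91 0 (.d k92 k84 k86 1 2)))), (.s k82 k83 0 (.s k162 k243 12 (.s k2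
  k242 11 (.s k3 k1 0 (.d k240 k160 k161 11 12))))), (.s k89 k93 1 (.s k91 k88 0 (.s k240 k160 11
  (.s k243 k162 12 (.d k15 k165 k167 14 13)))))] (.c k89 (.q k251 [(.s k240 k160 11 (.s k165 k15 14
  (.s k245 k5 11 (.s k255 k250 2 (.d k243 k247 k162 1 12))))), (.s k82 k83 0 (.s k86 k94 1 (.s k162
  k243 12 (.s k2 k242 11 (.s k3 k1 0 (.s k252 k169 14 (.d k84 k87 k168 0 13)))))))] (.c k3 (.l (.s
  k240 k160 11 (.s k243 k162 12 (.s k242 k241 0 (.s k166 k14 13 (.d k247 k255 k4 1 12)))))) (.c k162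
  (.l (.s k82 k83 0 (.s k240 k160 11 (.s k161 k3 12 (.s k1 k241 11 (.s k5 k13 1 (.d k165 k15 k245 14
  11))))))) (.c k240 (.q k1 [(.s k3 k2 0 (.s k83 k82 0 (.d k243 k162 k163 12 11))), (.s k5 k13 1 (.s
  k161 k241 11 (.s k165 k245 11 (.d k169 k253 k173 13 1)))), (.s k3 k2 0 (.s k82 k83 0 (.s k86 k94 1
  (.d k169 k253 k252 13 14))))] .n) (.c k243 (.l (.s k82 k83 0 (.s k86 k94 1 (.s k240 k160 11 (.s k3
  k161 12 (.s k1 k2 0 (.d k169 k253 k252 13 14))))))) .n))))) (.c k91 (.l (.s k83 k82 0 (.s k89 k93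
  1 (.s k243 k162 12 (.s k3 k163 11 (.d k12 k166 k6 14 2)))))) (.c k251 (.l (.s k89 k93 1 (.s k83
  k82 0 (.s k92 k86 2 (.d k88 k91 k84 0 1))))) .n)))) (.c k9 (.q k8 [(.s k12 k4 1 (.s k243 k162 12
  (.d k89 k166 k93 14 1))), (.s k83 k82 0 (.s k89 k93 1 (.s k88 k91 0 (.d k92 k84 k86 1 2))))] (.c
  k89 (.l (.s k4 k12 1 (.s k82 k83 0 (.s k162 k243 12 (.s k166 k247 12 (.d k242 k2 k14 11 13))))))
  (.c k93 (.l (.s k4 k12 1 (.s k82 k83 0 (.s k162 k243 12 (.s k166 k247 12 (.d k242 k2 k14 11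
  13)))))) .n))) .n))))

def s10_170_12 : T TT 256 :=
  (.q k16 [(.s k80 k95 2 (.s k208 k144 7 (.s k149 k31 10 (.s k213 k21 7 (.d k223 k218 k154 2
  10))))), (.s k48 k32 3 (.s k80 k95 2 (.s k144 k208 7 (.s k96 k192 11 (.s k112 k64 3 (.d k240 k176
  k160 7 11)))))), (.s k48 k32 3 (.s k154 k223 10 (.s k26 k218 7 (.s k15 k37 6 (.s k101 k207 14 (.s
  k112 k79 6 (.d k240 k176 k165 7 14)))))))] (.c k208 (.l (.s k48 k32 3 (.s k80 k95 2 (.s k154 k223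
  10 (.s k101 k207 14 (.s k112 k79 6 (.d k240 k176 k160 7 11))))))) .n))

def s10_170_13 : T TT 256 :=
  (.q k16 [(.s k80 k95 2 (.s k208 k144 7 (.s k149 k31 10 (.s k213 k21 7 (.d k223 k218 k154 2
  10))))), (.s k48 k32 3 (.s k80 k95 2 (.s k144 k208 7 (.s k96 k192 11 (.s k112 k64 3 (.d k240 k176
  k160 7 11)))))), (.s k48 k32 3 (.s k154 k223 10 (.s k26 k218 7 (.s k15 k37 6 (.s k101 k207 14 (.s
  k112 k79 6 (.d k240 k176 k165 7 14)))))))] (.c k208 (.l (.s k48 k32 3 (.s k80 k95 2 (.s k154 k223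
  10 (.s k101 k207 14 (.s k112 k79 6 (.d k240 k176 k160 7 11))))))) .n))

def s10_170_14 : T TT 256 :=
  (.f k80 k95 2 (.q k84 [(.s k92 k88 1 (.s k86 k87 0 (.s k83 k89 2 (.d k82 k81 k94 0 1)))), (.s k86
  k87 0 (.s k240 k160 11 (.s k165 k15 14 (.s k244 k7 12 (.d k252 k248 k168 1 13))))), (.s k88 k92 1
  (.s k168 k252 13 (.s k8 k248 11 (.s k12 k4 1 (.d k240 k160 k164 11 13)))))] (.c k2 (.q k6 [(.s k86
  k87 0 (.s k82 k94 1 (.s k83 k81 0 (.d k92 k88 k89 1 2)))), (.s k88 k92 1 (.s k168 k252 13 (.s k8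
  k248 11 (.s k12 k4 1 (.d k240 k160 k164 11 13))))), (.s k86 k87 0 (.s k94 k82 1 (.s k240 k160 11
  (.s k252 k168 13 (.d k15 k165 k173 14 12)))))] (.c k86 (.q k254 [(.s k240 k160 11 (.s k165 k15 14
  (.s k245 k5 11 (.s k255 k250 2 (.d k252 k253 k168 0 13))))), (.s k88 k92 1 (.s k89 k91 0 (.s k168
  k252 13 (.s k8 k248 11 (.s k12 k4 1 (.s k243 k166 14 (.d k81 k93 k162 1 12)))))))] (.c k12 (.l (.s
  k240 k160 11 (.s k252 k168 13 (.s k248 k244 1 (.s k169 k11 12 (.d k253 k255 k1 0 13)))))) (.c k168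
  (.l (.s k88 k92 1 (.s k240 k160 11 (.s k164 k12 13 (.s k4 k244 11 (.s k5 k7 0 (.d k165 k15 k245 14
  11))))))) (.c k240 (.q k4 [(.s k12 k8 1 (.s k92 k88 1 (.d k252 k168 k172 13 11))), (.s k5 k7 0 (.s
  k165 k245 11 (.s k166 k247 12 (.d k164 k167 k244 0 11))))] .n) (.c k252 (.l (.s k88 k92 1 (.s k89
  k91 0 (.s k240 k160 11 (.s k12 k164 13 (.s k4 k8 1 (.d k166 k247 k243 12 14))))))) .n))))) (.c k94
  (.l (.s k86 k87 0 (.s k92 k88 1 (.s k252 k168 13 (.s k12 k172 11 (.d k3 k169 k9 14 2)))))) (.c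
  k254 (.l (.s k86 k87 0 (.s k92 k88 1 (.s k83 k89 2 (.d k82 k81 k94 0 1))))) .n)))) (.c k6 (.q k2
  [(.s k3 k1 0 (.s k252 k168 13 (.d k86 k169 k87 14 0))), (.s k86 k87 0 (.s k82 k94 1 (.s k83 k81 0
  (.d k92 k88 k89 1 2))))] (.c k86 (.l (.s k1 k3 0 (.s k88 k92 1 (.s k168 k252 13 (.s k169 k253 13
  (.d k248 k8 k11 11 12)))))) (.c k87 (.l (.s k1 k3 0 (.s k88 k92 1 (.s k168 k252 13 (.s k169 k253
  13 (.d k248 k8 k11 11 12)))))) .n))) .n))))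

def s10_170_15 : T TT 256 :=
  (.f k80 k95 2 (.q k112 [(.s k64 k96 3 (.s k79 k101 6 (.s k74 k69 2 (.d k106 k122 k127 3 6)))), (.s
  k96 k64 3 (.s k240 k160 11 (.s k48 k176 7 (.s k144 k192 11 (.d k16 k32 k208 3 7))))), (.s k101 k79
  6 (.s k69 k117 3 (.s k207 k138 10 (.s k240 k160 11 (.d k48 k154 k176 14 7)))))] (.c k74 (.l (.s
  k64 k96 3 (.s k101 k79 6 (.s k117 k69 3 (.d k127 k122 k106 2 6))))) (.c k175 (.q k255 [(.s k64 k96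
  3 (.s k79 k101 6 (.s k74 k69 2 (.d k106 k122 k127 3 6)))), (.s k64 k96 3 (.s k192 k128 7 (.s k213
  k234 6 (.s k149 k21 7 (.s k208 k31 10 (.d k240 k160 k224 11 3)))))), (.s k101 k79 6 (.s k69 k117 3
  (.s k207 k138 10 (.s k154 k48 14 (.d k223 k239 k16 3 10)))))] (.c k160 (.q k165 [(.s k64 k96 3 (.s
  k79 k101 6 (.s k74 k69 2 (.d k106 k122 k127 3 6)))), (.s k245 k5 11 (.s k240 k250 2 (.s k48 k176 7
  (.s k117 k186 10 (.d k101 k69 k79 3 6))))), (.s k64 k96 3 (.s k192 k128 7 (.s k213 k234 6 (.s k149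
  k21 7 (.d k106 k127 k63 6 14)))))] .n) (.c k165 (.l (.s k160 k240 11 (.s k64 k96 3 (.s k79 k101 6
  (.s k74 k69 2 (.d k106 k122 k127 3 6)))))) .n))) (.c k255 (.q k175 [(.s k64 k96 3 (.s k79 k101 6
  (.s k74 k69 2 (.d k106 k122 k127 3 6)))), (.s k96 k64 3 (.s k240 k160 11 (.s k48 k176 7 (.s k144
  k192 11 (.d k16 k32 k208 3 7))))), (.s k101 k79 6 (.s k69 k117 3 (.s k207 k138 10 (.s k240 k160 11
  (.d k48 k154 k176 14 7)))))] (.c k74 (.l (.s k64 k96 3 (.s k101 k79 6 (.s k117 k69 3 (.d k127 k122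
  k106 2 6))))) .n)) .n)))))

def s10_170_16 : T TT 256 :=
  (.q k64 [(.s k80 k95 2 (.s k112 k96 3 (.s k101 k79 6 (.s k117 k69 3 (.d k127 k122 k106 2 6))))),
  (.s k80 k95 2 (.s k192 k128 7 (.s k240 k160 11 (.s k165 k15 14 (.s k224 k208 3 (.d k106 k127 k47 6
  10)))))), (.s k106 k127 6 (.s k74 k122 3 (.s k192 k128 7 (.s k15 k133 10 (.s k149 k63 14 (.s k208
  k31 10 (.d k240 k224 k165 3 14)))))))] (.c k106 (.l (.s k80 k95 2 (.s k112 k96 3 (.s k101 k79 6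
  (.s k69 k117 3 (.s k207 k138 10 (.s k240 k160 11 (.d k48 k154 k176 14 7)))))))) (.c k127 (.l (.s
  k80 k95 2 (.s k112 k96 3 (.s k79 k101 6 (.s k74 k69 2 (.s k192 k128 7 (.s k15 k133 10 (.d k240
  k160 k165 11 14)))))))) .n)))

def s10_170_17 : T TT 256 :=
  (.q k16 [(.s k80 k95 2 (.s k154 k223 10 (.s k26 k218 7 (.s k208 k144 7 (.d k31 k21 k149 2 10))))),
  (.s k48 k32 3 (.s k80 k95 2 (.s k144 k208 7 (.s k96 k192 11 (.s k112 k64 3 (.d k240 k176 k160 7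
  11)))))), (.s k48 k32 3 (.s k154 k223 10 (.s k26 k218 7 (.s k15 k37 6 (.s k101 k207 14 (.s k112
  k79 6 (.d k240 k176 k165 7 14)))))))] (.c k208 (.l (.s k48 k32 3 (.s k80 k95 2 (.s k154 k223 10
  (.s k101 k207 14 (.s k112 k79 6 (.d k240 k176 k160 7 11))))))) .n))

def s10_170_18 : T TT 256 :=
  (.q k16 [(.s k80 k95 2 (.s k208 k144 7 (.s k149 k31 10 (.s k213 k21 7 (.d k223 k218 k154 2
  10))))), (.s k48 k32 3 (.s k80 k95 2 (.s k144 k208 7 (.s k96 k192 11 (.s k112 k64 3 (.d k240 k176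
  k160 7 11)))))), (.s k48 k32 3 (.s k154 k223 10 (.s k26 k218 7 (.s k15 k37 6 (.s k101 k207 14 (.s
  k112 k79 6 (.d k240 k176 k165 7 14)))))))] (.c k208 (.l (.s k48 k32 3 (.s k80 k95 2 (.s k154 k223
  10 (.s k101 k207 14 (.s k112 k79 6 (.d k240 k176 k160 7 11))))))) .n))

def s10_170_19 : T TT 256 :=
  (.q k16 [(.s k80 k95 2 (.s k208 k144 7 (.s k149 k31 10 (.s k213 k21 7 (.d k223 k218 k154 2
  10))))), (.s k48 k32 3 (.s k80 k95 2 (.s k144 k208 7 (.s k96 k192 11 (.s k112 k64 3 (.d k240 k176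
  k160 7 11)))))), (.s k48 k32 3 (.s k154 k223 10 (.s k26 k218 7 (.s k15 k37 6 (.s k101 k207 14 (.s
  k112 k79 6 (.d k240 k176 k165 7 14)))))))] (.c k208 (.l (.s k48 k32 3 (.s k80 k95 2 (.s k154 k223
  10 (.s k101 k207 14 (.s k112 k79 6 (.d k240 k176 k160 7 11))))))) .n))

def s10_170_20 : T TT 256 :=
  (.q k16 [(.s k80 k95 2 (.s k154 k223 10 (.s k26 k218 7 (.s k208 k144 7 (.d k31 k21 k149 2 10))))),
  (.s k48 k32 3 (.s k80 k95 2 (.s k144 k208 7 (.s k96 k192 11 (.s k112 k64 3 (.d k240 k176 k160 7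
  11)))))), (.s k48 k32 3 (.s k154 k223 10 (.s k26 k218 7 (.s k15 k37 6 (.s k101 k207 14 (.s k112
  k79 6 (.d k240 k176 k165 7 14)))))))] (.c k208 (.l (.s k48 k32 3 (.s k80 k95 2 (.s k154 k223 10
  (.s k101 k207 14 (.s k112 k79 6 (.d k240 k176 k160 7 11))))))) .n))

def s10_170_21 : T TT 256 :=
  (.q k16 [(.s k80 k95 2 (.s k144 k208 7 (.s k160 k240 11 (.s k128 k176 3 (.s k192 k64 7 (.d k48 k32
  k96 3 11)))))), (.s k80 k95 2 (.s k154 k223 10 (.s k218 k26 7 (.s k240 k160 11 (.s k207 k229 6 (.s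
  k69 k138 10 (.d k101 k117 k48 3 14))))))), (.s k48 k32 3 (.s k154 k223 10 (.s k26 k218 7 (.s k15
  k37 6 (.s k101 k207 14 (.s k112 k79 6 (.d k240 k176 k165 7 14)))))))] (.c k48 (.l (.s k80 k95 2
  (.s k208 k144 7 (.s k149 k31 10 (.s k240 k160 11 (.s k192 k224 3 (.s k106 k63 14 (.d k64 k128 k127
  7 6)))))))) (.c k240 (.l (.s k48 k32 3 (.s k80 k95 2 (.s k144 k208 7 (.s k154 k223 10 (.s k101
  k207 14 (.s k112 k79 6 (.d k96 k192 k64 11 3)))))))) .n)))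

def s10_170_22 : T TT 256 :=
  (.q k16 [(.s k80 k95 2 (.s k154 k223 10 (.s k26 k218 7 (.s k208 k144 7 (.d k31 k21 k149 2 10))))),
  (.s k48 k32 3 (.s k80 k95 2 (.s k144 k208 7 (.s k96 k192 11 (.s k112 k64 3 (.d k240 k176 k160 7
  11)))))), (.s k48 k32 3 (.s k154 k223 10 (.s k26 k218 7 (.s k15 k37 6 (.s k101 k207 14 (.s k112
  k79 6 (.d k240 k176 k165 7 14)))))))] (.c k208 (.l (.s k48 k32 3 (.s k80 k95 2 (.s k154 k223 10
  (.s k101 k207 14 (.s k112 k79 6 (.d k240 k176 k160 7 11))))))) .n))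

def s10_170_23 : T TT 256 :=
  (.q k16 [(.s k80 k95 2 (.s k154 k223 10 (.s k26 k218 7 (.s k208 k144 7 (.d k31 k21 k149 2 10))))),
  (.s k48 k32 3 (.s k80 k95 2 (.s k144 k208 7 (.s k96 k192 11 (.s k112 k64 3 (.d k240 k176 k160 7
  11)))))), (.s k48 k32 3 (.s k154 k223 10 (.s k26 k218 7 (.s k15 k37 6 (.s k101 k207 14 (.s k112
  k79 6 (.d k240 k176 k165 7 14)))))))] (.c k208 (.l (.s k48 k32 3 (.s k80 k95 2 (.s k154 k223 10
  (.s k101 k207 14 (.s k112 k79 6 (.d k240 k176 k160 7 11))))))) .n))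

def s10_170_24 : T TT 256 :=
  (.q k16 [(.s k80 k95 2 (.s k208 k144 7 (.s k149 k31 10 (.s k213 k21 7 (.d k223 k218 k154 2
  10))))), (.s k48 k32 3 (.s k80 k95 2 (.s k144 k208 7 (.s k96 k192 11 (.s k112 k64 3 (.d k240 k176
  k160 7 11)))))), (.s k48 k32 3 (.s k154 k223 10 (.s k26 k218 7 (.s k15 k37 6 (.s k101 k207 14 (.s
  k112 k79 6 (.d k240 k176 k165 7 14)))))))] (.c k208 (.l (.s k48 k32 3 (.s k80 k95 2 (.s k154 k223
  10 (.s k101 k207 14 (.s k112 k79 6 (.d k240 k176 k160 7 11))))))) .n))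

def s10_170_25 : T TT 256 :=
  (.q k16 [(.s k80 k95 2 (.s k154 k223 10 (.s k26 k218 7 (.s k208 k144 7 (.d k31 k21 k149 2 10))))),
  (.s k48 k32 3 (.s k80 k95 2 (.s k144 k208 7 (.s k96 k192 11 (.s k112 k64 3 (.d k240 k176 k160 7
  11)))))), (.s k48 k32 3 (.s k154 k223 10 (.s k26 k218 7 (.s k15 k37 6 (.s k101 k207 14 (.s k112
  k79 6 (.d k240 k176 k165 7 14)))))))] (.c k208 (.l (.s k48 k32 3 (.s k80 k95 2 (.s k154 k223 10
  (.s k101 k207 14 (.s k112 k79 6 (.d k240 k176 k160 7 11))))))) .n))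

def s10_170_26 : T TT 256 :=
  (.f k80 k95 2 (.q k64 [(.s k112 k96 3 (.s k101 k79 6 (.s k117 k69 3 (.d k127 k122 k106 2 6)))),
  (.s k96 k112 3 (.s k160 k240 11 (.s k32 k224 7 (.s k48 k16 3 (.d k192 k128 k144 7 11))))), (.s
  k106 k127 6 (.s k122 k74 3 (.s k192 k128 7 (.s k240 k160 11 (.d k63 k149 k181 14 10)))))] (.c k42
  (.q k58 [(.s k112 k96 3 (.s k101 k79 6 (.s k117 k69 3 (.d k127 k106 k122 6 2)))), (.s k96 k112 3
  (.s k160 k240 11 (.s k32 k224 7 (.s k48 k16 3 (.d k192 k128 k144 7 11))))), (.s k106 k127 6 (.s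
  k122 k74 3 (.s k192 k128 7 (.s k240 k160 11 (.d k63 k149 k181 14 10)))))] (.c k106 (.q k234 [(.s
  k96 k112 3 (.s k160 k240 11 (.s k192 k128 7 (.s k48 k144 11 (.d k32 k16 k224 3 7))))), (.s k240
  k160 11 (.s k165 k15 14 (.s k245 k5 11 (.s k255 k250 2 (.d k192 k213 k128 6 7))))), (.s k112 k96 3
  (.s k101 k79 6 (.s k69 k117 3 (.s k207 k138 10 (.s k240 k160 11 (.d k48 k154 k176 14 7)))))), (.s
  k192 k128 7 (.s k213 k255 6 (.s k149 k21 7 (.s k208 k31 10 (.s k16 k144 7 (.d k223 k218 k154 2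
  10))))))] (.c k160 (.l (.s k96 k112 3 (.s k192 k128 7 (.s k144 k48 11 (.s k208 k16 7 (.s k213 k255
  6 (.d k149 k21 k31 7 10))))))) .n)) (.c k234 (.l (.s k106 k127 6 (.s k74 k122 3 (.s k79 k69 2 (.d
  k112 k96 k101 3 6))))) .n))) (.c k58 (.q k42 [(.s k106 k127 6 (.s k192 k128 7 (.d k63 k149 k21 14
  6))), (.s k106 k127 6 (.s k74 k122 3 (.s k79 k69 2 (.d k112 k96 k101 3 6)))), (.s k21 k63 6 (.s
  k149 k213 7 (.s k192 k128 7 (.s k208 k31 10 (.d k240 k224 k160 3 11)))))] .n) .n))))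

def s10_170_27 : T TT 256 :=
  (.q k16 [(.s k80 k95 2 (.s k154 k223 10 (.s k26 k218 7 (.s k31 k21 2 (.d k208 k144 k149 7 10))))),
  (.s k48 k32 3 (.s k80 k95 2 (.s k144 k208 7 (.s k96 k192 11 (.s k112 k64 3 (.d k240 k176 k160 7
  11)))))), (.s k48 k32 3 (.s k154 k223 10 (.s k26 k218 7 (.s k15 k37 6 (.s k101 k207 14 (.s k112
  k79 6 (.d k240 k176 k165 7 14)))))))] (.c k208 (.l (.s k48 k32 3 (.s k80 k95 2 (.s k154 k223 10
  (.s k101 k207 14 (.s k112 k79 6 (.d k240 k176 k160 7 11))))))) .n))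

def s10_170_28 : T TT 256 :=
  (.q k16 [(.s k80 k95 2 (.s k208 k144 7 (.s k149 k31 10 (.s k213 k21 7 (.d k223 k218 k154 2
  10))))), (.s k48 k32 3 (.s k80 k95 2 (.s k144 k208 7 (.s k96 k192 11 (.s k112 k64 3 (.d k240 k176
  k160 7 11)))))), (.s k48 k32 3 (.s k154 k223 10 (.s k26 k218 7 (.s k15 k37 6 (.s k101 k207 14 (.s
  k112 k79 6 (.d k240 k176 k165 7 14)))))))] (.c k208 (.l (.s k48 k32 3 (.s k80 k95 2 (.s k154 k223
  10 (.s k101 k207 14 (.s k112 k79 6 (.d k240 k176 k160 7 11))))))) .n))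

def s10_170_29 : T TT 256 :=
  (.q k16 [(.s k80 k95 2 (.s k154 k223 10 (.s k26 k218 7 (.s k208 k144 7 (.d k31 k21 k149 2 10))))),
  (.s k48 k32 3 (.s k80 k95 2 (.s k144 k208 7 (.s k96 k192 11 (.s k112 k64 3 (.d k240 k176 k160 7
  11)))))), (.s k48 k32 3 (.s k154 k223 10 (.s k26 k218 7 (.s k15 k37 6 (.s k101 k207 14 (.s k112
  k79 6 (.d k240 k176 k165 7 14)))))))] (.c k208 (.l (.s k48 k32 3 (.s k80 k95 2 (.s k154 k223 10
  (.s k101 k207 14 (.s k112 k79 6 (.d k240 k176 k160 7 11))))))) .n))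

def s10_170_30 : T TT 256 :=
  (.q k16 [(.s k80 k95 2 (.s k154 k223 10 (.s k26 k218 7 (.s k31 k21 2 (.d k208 k144 k149 7 10))))),
  (.s k48 k32 3 (.s k80 k95 2 (.s k144 k208 7 (.s k96 k192 11 (.s k112 k64 3 (.d k240 k176 k160 7
  11)))))), (.s k48 k32 3 (.s k154 k223 10 (.s k26 k218 7 (.s k15 k37 6 (.s k101 k207 14 (.s k112
  k79 6 (.d k240 k176 k165 7 14)))))))] (.c k208 (.l (.s k48 k32 3 (.s k80 k95 2 (.s k154 k223 10
  (.s k101 k207 14 (.s k112 k79 6 (.d k240 k176 k160 7 11))))))) .n))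

def s10_170_31 : T TT 256 :=
  (.q k81 [(.s k80 k95 2 (.s k83 k82 0 (.s k89 k93 1 (.s k88 k91 0 (.d k92 k84 k86 1 2))))), (.s k89
  k93 1 (.s k91 k88 0 (.s k243 k162 12 (.s k15 k167 13 (.s k165 k240 14 (.s k13 k241 13 (.d k12 k166
  k14 14 0))))))), (.s k80 k95 2 (.s k82 k83 0 (.s k162 k243 12 (.s k2 k242 11 (.s k3 k1 0 (.d k240
  k160 k161 11 12))))))] (.c k91 (.l (.s k80 k95 2 (.s k89 k93 1 (.s k240 k160 11 (.s k165 k15 14
  (.s k241 k13 13 (.d k243 k242 k162 0 12))))))) .n))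

def s10_170_32 : T TT 256 :=
  (.q k101 [(.s k80 k95 2 (.s k117 k69 3 (.s k112 k79 6 (.s k127 k122 2 (.d k64 k96 k106 3 6))))),
  (.s k69 k117 3 (.s k80 k95 2 (.s k207 k138 10 (.s k154 k48 14 (.s k218 k26 7 (.d k240 k229 k160 6
  11)))))), (.s k80 k95 2 (.s k112 k79 6 (.s k240 k160 11 (.s k48 k176 7 (.s k154 k207 14 (.s k26
  k218 7 (.d k15 k165 k37 14 6))))))), (.s k69 k117 3 (.s k79 k112 6 (.s k207 k138 10 (.s k15 k143 7
  (.s k154 k48 14 (.s k218 k26 7 (.d k240 k229 k165 6 14)))))))] .n)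

def s10_170_33 : T TT 256 :=
  (.q k16 [(.s k80 k95 2 (.s k208 k144 7 (.s k149 k31 10 (.s k213 k21 7 (.d k223 k218 k154 2
  10))))), (.s k48 k32 3 (.s k80 k95 2 (.s k144 k208 7 (.s k96 k192 11 (.s k112 k64 3 (.d k240 k176
  k160 7 11)))))), (.s k48 k32 3 (.s k154 k223 10 (.s k26 k218 7 (.s k15 k37 6 (.s k101 k207 14 (.s
  k112 k79 6 (.d k240 k176 k165 7 14)))))))] (.c k208 (.l (.s k48 k32 3 (.s k80 k95 2 (.s k154 k223
  10 (.s k101 k207 14 (.s k112 k79 6 (.d k240 k176 k160 7 11))))))) .n))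

def s10_170_34 : T TT 256 :=
  (.f k80 k95 2 (.q k102 [(.s k68 k119 4 (.s k78 k114 5 (.s k204 k136 9 (.s k15 k141 8 (.d k240 k160
  k165 11 14))))), (.s k68 k119 4 (.s k240 k160 11 (.s k165 k15 14 (.s k228 k39 8 (.d k204 k216 k136
  5 9))))), (.s k114 k78 5 (.s k240 k160 11 (.s k51 k177 8 (.s k153 k204 14 (.s k27 k216 8 (.d k15
  k165 k39 14 5))))))] (.c k15 (.l (.s k68 k119 4 (.s k114 k78 5 (.s k204 k136 9 (.s k240 k160 11
  (.d k51 k153 k177 14 8)))))) (.c k160 (.l (.s k68 k119 4 (.s k78 k114 5 (.s k204 k136 9 (.s k15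
  k141 8 (.s k153 k51 14 (.s k216 k27 8 (.d k240 k228 k165 5 14)))))))) (.c k165 (.l (.s k68 k119 4
  (.s k204 k136 9 (.s k153 k51 14 (.s k216 k27 8 (.d k240 k228 k160 5 11)))))) (.c k204 (.l (.s k114
  k78 5 (.s k119 k68 4 (.s k240 k160 11 (.s k51 k177 8 (.s k255 k187 9 (.s k245 k250 2 (.d k165 k15
  k5 14 11)))))))) (.c k240 (.q k3 [(.s k1 k2 0 (.s k68 k119 4 (.s k169 k253 13 (.s k35 k236 10 (.s
  k51 k19 3 (.d k204 k136 k153 9 14)))))), (.s k68 k119 4 (.s k204 k136 9 (.s k70 k137 10 (.s k86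
  k118 3 (.s k84 k87 0 (.d k252 k168 k169 13 14)))))), (.s k1 k2 0 (.s k169 k253 13 (.s k86 k252 14
  (.s k82 k94 1 (.s k83 k81 0 (.s k84 k87 0 (.d k92 k88 k89 1 2))))))), (.s k2 k1 0 (.s k68 k119 4
  (.s k204 k136 9 (.s k70 k137 10 (.s k69 k71 0 (.d k138 k206 k207 9 10))))))] .n) .n)))))))

def s10_170_35 : T TT 256 :=
  (.q k16 [(.s k80 k95 2 (.s k208 k144 7 (.s k149 k31 10 (.s k213 k21 7 (.d k223 k218 k154 2
  10))))), (.s k48 k32 3 (.s k80 k95 2 (.s k144 k208 7 (.s k96 k192 11 (.s k112 k64 3 (.d k240 k176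
  k160 7 11)))))), (.s k48 k32 3 (.s k154 k223 10 (.s k26 k218 7 (.s k15 k37 6 (.s k101 k207 14 (.s
  k112 k79 6 (.d k240 k176 k165 7 14)))))))] (.c k208 (.l (.s k48 k32 3 (.s k80 k95 2 (.s k154 k223
  10 (.s k101 k207 14 (.s k112 k79 6 (.d k240 k176 k160 7 11))))))) .n))

def s10_170_36 : T TT 256 :=
  (.q k16 [(.s k80 k95 2 (.s k208 k144 7 (.s k149 k31 10 (.s k213 k21 7 (.d k223 k218 k154 2
  10))))), (.s k48 k32 3 (.s k80 k95 2 (.s k144 k208 7 (.s k96 k192 11 (.s k112 k64 3 (.d k240 k176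
  k160 7 11)))))), (.s k48 k32 3 (.s k154 k223 10 (.s k26 k218 7 (.s k15 k37 6 (.s k101 k207 14 (.s
  k112 k79 6 (.d k240 k176 k165 7 14)))))))] (.c k208 (.l (.s k48 k32 3 (.s k80 k95 2 (.s k154 k223
  10 (.s k101 k207 14 (.s k112 k79 6 (.d k240 k176 k160 7 11))))))) .n))

def s10_170_37 : T TT 256 :=
  (.q k64 [(.s k80 k95 2 (.s k112 k96 3 (.s k101 k79 6 (.s k117 k69 3 (.d k127 k122 k106 2 6))))),
  (.s k80 k95 2 (.s k96 k112 3 (.s k160 k240 11 (.s k32 k224 7 (.s k48 k16 3 (.d k192 k128 k144 7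
  11)))))), (.s k106 k127 6 (.s k74 k122 3 (.s k192 k128 7 (.s k15 k133 10 (.s k149 k63 14 (.s k208
  k31 10 (.d k240 k224 k165 3 14)))))))] (.c k112 (.l (.s k80 k95 2 (.s k106 k127 6 (.s k122 k74 3
  (.s k192 k128 7 (.s k240 k160 11 (.d k63 k149 k181 14 10))))))) .n))

def s10_170_38 : T TT 256 :=
  (.q k16 [(.s k80 k95 2 (.s k154 k223 10 (.s k26 k218 7 (.s k208 k144 7 (.d k31 k21 k149 2 10))))),
  (.s k48 k32 3 (.s k80 k95 2 (.s k144 k208 7 (.s k96 k192 11 (.s k112 k64 3 (.d k240 k176 k160 7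
  11)))))), (.s k48 k32 3 (.s k154 k223 10 (.s k26 k218 7 (.s k15 k37 6 (.s k101 k207 14 (.s k112
  k79 6 (.d k240 k176 k165 7 14)))))))] (.c k208 (.l (.s k48 k32 3 (.s k80 k95 2 (.s k154 k223 10
  (.s k101 k207 14 (.s k112 k79 6 (.d k240 k176 k160 7 11))))))) .n))

def s10_170_39 : T TT 256 :=
  (.q k16 [(.s k80 k95 2 (.s k208 k144 7 (.s k149 k31 10 (.s k213 k21 7 (.d k223 k218 k154 2
  10))))), (.s k48 k32 3 (.s k80 k95 2 (.s k144 k208 7 (.s k96 k192 11 (.s k112 k64 3 (.d k240 k176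
  k160 7 11)))))), (.s k48 k32 3 (.s k154 k223 10 (.s k26 k218 7 (.s k15 k37 6 (.s k101 k207 14 (.s
  k112 k79 6 (.d k240 k176 k165 7 14)))))))] (.c k208 (.l (.s k48 k32 3 (.s k80 k95 2 (.s k154 k223
  10 (.s k101 k207 14 (.s k112 k79 6 (.d k240 k176 k160 7 11))))))) .n))

def s10_170_40 : T TT 256 :=
  (.f k80 k95 2 (.q k105 [(.s k65 k125 5 (.s k75 k120 4 (.s k195 k130 8 (.s k15 k135 9 (.d k240 k160
  k165 11 14))))), (.s k65 k125 5 (.s k240 k160 11 (.s k165 k15 14 (.s k225 k45 9 (.d k195 k210 k130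
  4 8))))), (.s k120 k75 4 (.s k240 k160 11 (.s k60 k180 9 (.s k150 k195 14 (.s k30 k210 9 (.d k15
  k165 k45 14 4))))))] (.c k15 (.l (.s k65 k125 5 (.s k120 k75 4 (.s k195 k130 8 (.s k240 k160 11
  (.d k60 k150 k180 14 9)))))) (.c k160 (.l (.s k65 k125 5 (.s k75 k120 4 (.s k195 k130 8 (.s k15
  k135 9 (.s k150 k60 14 (.s k210 k30 9 (.d k240 k225 k165 4 14)))))))) (.c k165 (.l (.s k65 k125 5
  (.s k195 k130 8 (.s k150 k60 14 (.s k210 k30 9 (.d k240 k225 k160 4 11)))))) (.c k195 (.l (.s k120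
  k75 4 (.s k125 k65 5 (.s k240 k160 11 (.s k60 k180 9 (.s k255 k190 8 (.s k245 k250 2 (.d k165 k15
  k5 14 11)))))))) (.c k240 (.q k1 [(.s k65 k125 5 (.s k193 k129 7 (.s k149 k61 13 (.s k213 k21 7
  (.d k253 k233 k169 5 13))))), (.s k3 k2 0 (.s k65 k125 5 (.s k129 k193 7 (.s k66 k192 8 (.s k67
  k64 0 (.d k195 k131 k130 7 8)))))), (.s k75 k120 4 (.s k169 k253 13 (.s k11 k248 12 (.s k41 k233 7
  (.s k56 k26 4 (.d k203 k139 k154 7 12))))))] (.c k193 (.l (.s k3 k2 0 (.s k65 k125 5 (.s k169 k253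
  13 (.s k86 k252 14 (.s k67 k124 6 (.d k195 k131 k130 7 8))))))) .n)) .n)))))))

def s10_170_41 : T TT 256 :=
  (.q k16 [(.s k80 k95 2 (.s k154 k223 10 (.s k26 k218 7 (.s k208 k144 7 (.d k31 k21 k149 2 10))))),
  (.s k48 k32 3 (.s k80 k95 2 (.s k144 k208 7 (.s k96 k192 11 (.s k112 k64 3 (.d k240 k176 k160 7
  11)))))), (.s k48 k32 3 (.s k154 k223 10 (.s k26 k218 7 (.s k15 k37 6 (.s k101 k207 14 (.s k112
  k79 6 (.d k240 k176 k165 7 14)))))))] (.c k208 (.l (.s k48 k32 3 (.s k80 k95 2 (.s k154 k223 10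
  (.s k101 k207 14 (.s k112 k79 6 (.d k240 k176 k160 7 11))))))) .n))

def s10_170_42 : T TT 256 :=
  (.f k80 k95 2 (.q k106 [(.s k64 k127 6 (.s k74 k122 3 (.s k79 k69 2 (.d k112 k96 k101 3 6)))), (.s
  k122 k74 3 (.s k240 k160 11 (.s k63 k181 10 (.s k149 k192 14 (.s k31 k208 10 (.d k15 k165 k47 14
  3)))))), (.s k64 k127 6 (.s k192 k128 7 (.s k149 k63 14 (.s k208 k31 10 (.d k240 k224 k160 3
  11)))))] (.c k26 (.q k58 [(.s k64 k127 6 (.s k74 k122 3 (.s k79 k69 2 (.d k112 k96 k101 3 6)))),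
  (.s k122 k74 3 (.s k240 k160 11 (.s k165 k15 14 (.s k245 k5 11 (.d k250 k255 k186 2 7))))), (.s
  k64 k127 6 (.s k192 k128 7 (.s k149 k63 14 (.s k208 k31 10 (.d k240 k224 k160 3 11)))))] .n) (.c
  k58 (.q k26 [(.s k154 k218 7 (.s k16 k223 10 (.s k31 k21 2 (.d k208 k144 k149 7 10)))), (.s k64
  k127 6 (.s k74 k122 3 (.s k79 k69 2 (.d k112 k96 k101 3 6))))] .n) .n))))

def s10_170_43 : T TT 256 :=
  (.q k16 [(.s k80 k95 2 (.s k208 k144 7 (.s k149 k31 10 (.s k213 k21 7 (.d k223 k218 k154 2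
  10))))), (.s k48 k32 3 (.s k80 k95 2 (.s k144 k208 7 (.s k96 k192 11 (.s k112 k64 3 (.d k240 k176
  k160 7 11)))))), (.s k48 k32 3 (.s k154 k223 10 (.s k26 k218 7 (.s k15 k37 6 (.s k101 k207 14 (.s
  k112 k79 6 (.d k240 k176 k165 7 14)))))))] (.c k208 (.l (.s k48 k32 3 (.s k80 k95 2 (.s k154 k223
  10 (.s k101 k207 14 (.s k112 k79 6 (.d k240 k176 k160 7 11))))))) .n))

def s10_170_44 : T TT 256 :=
  (.q k16 [(.s k80 k95 2 (.s k208 k144 7 (.s k149 k31 10 (.s k213 k21 7 (.d k223 k218 k154 2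
  10))))), (.s k48 k32 3 (.s k80 k95 2 (.s k144 k208 7 (.s k96 k192 11 (.s k112 k64 3 (.d k240 k176
  k160 7 11)))))), (.s k48 k32 3 (.s k154 k223 10 (.s k26 k218 7 (.s k15 k37 6 (.s k101 k207 14 (.s
  k112 k79 6 (.d k240 k176 k165 7 14)))))))] (.c k208 (.l (.s k48 k32 3 (.s k80 k95 2 (.s k154 k223
  10 (.s k101 k207 14 (.s k112 k79 6 (.d k240 k176 k160 7 11))))))) .n))

def s10_170_45 : T TT 256 :=
  (.q k16 [(.s k80 k95 2 (.s k208 k144 7 (.s k149 k31 10 (.s k213 k21 7 (.d k223 k218 k154 2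
  10))))), (.s k48 k32 3 (.s k80 k95 2 (.s k144 k208 7 (.s k96 k192 11 (.s k112 k64 3 (.d k240 k176
  k160 7 11)))))), (.s k48 k32 3 (.s k154 k223 10 (.s k26 k218 7 (.s k15 k37 6 (.s k101 k207 14 (.s
  k112 k79 6 (.d k240 k176 k165 7 14)))))))] (.c k208 (.l (.s k48 k32 3 (.s k80 k95 2 (.s k154 k223
  10 (.s k101 k207 14 (.s k112 k79 6 (.d k240 k176 k160 7 11))))))) .n))

def s10_170_46 : T TT 256 :=
  (.q k16 [(.s k80 k95 2 (.s k208 k144 7 (.s k149 k31 10 (.s k213 k21 7 (.d k223 k218 k154 2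
  10))))), (.s k48 k32 3 (.s k80 k95 2 (.s k144 k208 7 (.s k96 k192 11 (.s k112 k64 3 (.d k240 k176
  k160 7 11)))))), (.s k48 k32 3 (.s k154 k223 10 (.s k26 k218 7 (.s k15 k37 6 (.s k101 k207 14 (.s
  k112 k79 6 (.d k240 k176 k165 7 14)))))))] (.c k208 (.l (.s k48 k32 3 (.s k80 k95 2 (.s k154 k223
  10 (.s k101 k207 14 (.s k112 k79 6 (.d k240 k176 k160 7 11))))))) .n))

def s10_170_47 : T TT 256 :=
  (.q k16 [(.s k80 k95 2 (.s k154 k223 10 (.s k26 k218 7 (.s k31 k21 2 (.d k208 k144 k149 7 10))))),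
  (.s k48 k32 3 (.s k80 k95 2 (.s k144 k208 7 (.s k96 k192 11 (.s k112 k64 3 (.d k240 k176 k160 7
  11)))))), (.s k48 k32 3 (.s k154 k223 10 (.s k26 k218 7 (.s k101 k207 14 (.s k112 k79 6 (.s k240
  k176 7 (.d k15 k37 k165 6 14)))))))] (.c k208 (.l (.s k48 k32 3 (.s k80 k95 2 (.s k154 k223 10 (.s
  k101 k207 14 (.s k112 k79 6 (.d k240 k176 k160 7 11))))))) .n))

def s10_170_48 : T TT 256 :=
  (.q k81 [(.s k80 k95 2 (.s k83 k82 0 (.s k89 k93 1 (.s k88 k91 0 (.d k92 k84 k86 1 2))))), (.s k89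
  k93 1 (.s k91 k88 0 (.s k243 k162 12 (.s k15 k167 13 (.s k165 k240 14 (.s k13 k241 13 (.d k12 k166
  k14 14 0))))))), (.s k80 k95 2 (.s k82 k83 0 (.s k162 k243 12 (.s k2 k242 11 (.s k3 k1 0 (.d k240
  k160 k161 11 12))))))] (.c k91 (.l (.s k80 k95 2 (.s k89 k93 1 (.s k240 k160 11 (.s k165 k15 14
  (.s k241 k13 13 (.d k243 k242 k162 0 12))))))) .n))

def s10_170_49 : T TT 256 :=
  (.q k16 [(.s k80 k95 2 (.s k208 k144 7 (.s k149 k31 10 (.s k213 k21 7 (.d k223 k218 k154 2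
  10))))), (.s k48 k32 3 (.s k80 k95 2 (.s k144 k208 7 (.s k96 k192 11 (.s k112 k64 3 (.d k240 k176
  k160 7 11)))))), (.s k48 k32 3 (.s k154 k223 10 (.s k26 k218 7 (.s k15 k37 6 (.s k101 k207 14 (.s
  k112 k79 6 (.d k240 k176 k165 7 14)))))))] (.c k208 (.l (.s k48 k32 3 (.s k80 k95 2 (.s k154 k223
  10 (.s k101 k207 14 (.s k112 k79 6 (.d k240 k176 k160 7 11))))))) .n))

def s10_170_50 : T TT 256 :=
  (.q k16 [(.s k80 k95 2 (.s k208 k144 7 (.s k149 k31 10 (.s k213 k21 7 (.d k223 k218 k154 2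
  10))))), (.s k48 k32 3 (.s k80 k95 2 (.s k144 k208 7 (.s k96 k192 11 (.s k112 k64 3 (.d k240 k176
  k160 7 11)))))), (.s k48 k32 3 (.s k154 k223 10 (.s k26 k218 7 (.s k15 k37 6 (.s k101 k207 14 (.s
  k112 k79 6 (.d k240 k176 k165 7 14)))))))] (.c k208 (.l (.s k48 k32 3 (.s k80 k95 2 (.s k154 k223
  10 (.s k101 k207 14 (.s k112 k79 6 (.d k240 k176 k160 7 11))))))) .n))

def s10_170_51 : T TT 256 :=
  (.q k16 [(.s k80 k95 2 (.s k208 k144 7 (.s k149 k31 10 (.s k213 k21 7 (.d k223 k218 k154 2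
  10))))), (.s k48 k32 3 (.s k80 k95 2 (.s k144 k208 7 (.s k96 k192 11 (.s k112 k64 3 (.d k240 k176
  k160 7 11)))))), (.s k48 k32 3 (.s k154 k223 10 (.s k26 k218 7 (.s k15 k37 6 (.s k101 k207 14 (.s
  k112 k79 6 (.d k240 k176 k165 7 14)))))))] (.c k208 (.l (.s k48 k32 3 (.s k80 k95 2 (.s k154 k223
  10 (.s k101 k207 14 (.s k112 k79 6 (.d k240 k176 k160 7 11))))))) .n))

def s10_170_52 : T TT 256 :=
  (.q k16 [(.s k80 k95 2 (.s k208 k144 7 (.s k149 k31 10 (.s k213 k21 7 (.d k223 k218 k154 2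
  10))))), (.s k48 k32 3 (.s k80 k95 2 (.s k144 k208 7 (.s k96 k192 11 (.s k112 k64 3 (.d k240 k176
  k160 7 11)))))), (.s k48 k32 3 (.s k154 k223 10 (.s k26 k218 7 (.s k15 k37 6 (.s k101 k207 14 (.s
  k112 k79 6 (.d k240 k176 k165 7 14)))))))] (.c k208 (.l (.s k48 k32 3 (.s k80 k95 2 (.s k154 k223
  10 (.s k101 k207 14 (.s k112 k79 6 (.d k240 k176 k160 7 11))))))) .n))

def s10_170_53 : T TT 256 :=
  (.q k16 [(.s k80 k95 2 (.s k154 k223 10 (.s k26 k218 7 (.s k208 k144 7 (.d k31 k21 k149 2 10))))),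
  (.s k48 k32 3 (.s k80 k95 2 (.s k144 k208 7 (.s k96 k192 11 (.s k112 k64 3 (.d k240 k176 k160 7
  11)))))), (.s k48 k32 3 (.s k154 k223 10 (.s k26 k218 7 (.s k15 k37 6 (.s k101 k207 14 (.s k112
  k79 6 (.d k240 k176 k165 7 14)))))))] (.c k208 (.l (.s k48 k32 3 (.s k80 k95 2 (.s k154 k223 10
  (.s k101 k207 14 (.s k112 k79 6 (.d k240 k176 k160 7 11))))))) .n))

def s10_170_54 : T TT 256 :=
  (.q k16 [(.s k80 k95 2 (.s k208 k144 7 (.s k149 k31 10 (.s k213 k21 7 (.d k223 k218 k154 2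
  10))))), (.s k48 k32 3 (.s k80 k95 2 (.s k144 k208 7 (.s k96 k192 11 (.s k112 k64 3 (.d k240 k176
  k160 7 11)))))), (.s k48 k32 3 (.s k154 k223 10 (.s k26 k218 7 (.s k15 k37 6 (.s k101 k207 14 (.s
  k112 k79 6 (.d k240 k176 k165 7 14)))))))] (.c k208 (.l (.s k48 k32 3 (.s k80 k95 2 (.s k154 k223
  10 (.s k101 k207 14 (.s k112 k79 6 (.d k240 k176 k160 7 11))))))) .n))

def s10_170_55 : T TT 256 :=
  (.q k16 [(.s k80 k95 2 (.s k154 k223 10 (.s k26 k218 7 (.s k208 k144 7 (.d k31 k21 k149 2 10))))),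
  (.s k48 k32 3 (.s k80 k95 2 (.s k144 k208 7 (.s k96 k192 11 (.s k112 k64 3 (.d k240 k176 k160 7
  11)))))), (.s k48 k32 3 (.s k154 k223 10 (.s k26 k218 7 (.s k15 k37 6 (.s k101 k207 14 (.s k112
  k79 6 (.d k240 k176 k165 7 14)))))))] (.c k208 (.l (.s k48 k32 3 (.s k80 k95 2 (.s k154 k223 10
  (.s k101 k207 14 (.s k112 k79 6 (.d k240 k176 k160 7 11))))))) .n))

def s10_170_56 : T TT 256 :=
  (.q k16 [(.s k80 k95 2 (.s k208 k144 7 (.s k149 k31 10 (.s k213 k21 7 (.d k223 k218 k154 2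
  10))))), (.s k48 k32 3 (.s k80 k95 2 (.s k144 k208 7 (.s k96 k192 11 (.s k112 k64 3 (.d k240 k176
  k160 7 11)))))), (.s k48 k32 3 (.s k154 k223 10 (.s k26 k218 7 (.s k15 k37 6 (.s k101 k207 14 (.s
  k112 k79 6 (.d k240 k176 k165 7 14)))))))] (.c k208 (.l (.s k48 k32 3 (.s k80 k95 2 (.s k154 k223
  10 (.s k101 k207 14 (.s k112 k79 6 (.d k240 k176 k160 7 11))))))) .n))

def s10_170_57 : T TT 256 :=
  (.q k16 [(.s k80 k95 2 (.s k208 k144 7 (.s k149 k31 10 (.s k213 k21 7 (.d k223 k218 k154 2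
  10))))), (.s k48 k32 3 (.s k80 k95 2 (.s k144 k208 7 (.s k96 k192 11 (.s k112 k64 3 (.d k240 k176
  k160 7 11)))))), (.s k48 k32 3 (.s k154 k223 10 (.s k26 k218 7 (.s k15 k37 6 (.s k101 k207 14 (.s
  k112 k79 6 (.d k240 k176 k165 7 14)))))))] (.c k208 (.l (.s k48 k32 3 (.s k80 k95 2 (.s k154 k223
  10 (.s k101 k207 14 (.s k112 k79 6 (.d k240 k176 k160 7 11))))))) .n))

def s10_170_58 : T TT 256 :=
  (.f k80 k95 2 (.q k154 [(.s k16 k223 10 (.s k26 k218 7 (.s k31 k21 2 (.d k208 k144 k149 7 10)))),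
  (.s k240 k160 11 (.s k165 k15 14 (.s k176 k143 6 (.s k48 k112 7 (.s k207 k101 14 (.d k218 k26 k229
  7 6))))))] (.c k26 (.q k42 [(.s k16 k223 10 (.s k21 k63 6 (.s k144 k208 7 (.d k149 k159 k213 2
  7)))), (.s k240 k160 11 (.s k165 k15 14 (.s k176 k143 6 (.s k48 k112 7 (.d k16 k32 k223 3 10))))),
  (.s k63 k21 6 (.s k240 k160 11 (.s k122 k181 10 (.s k106 k74 3 (.s k64 k127 6 (.d k192 k128 k149 7
  14))))))] (.c k16 (.f k21 k63 6 (.l (.s k149 k213 7 (.s k208 k31 10 (.s k240 k160 11 (.s k192 k224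
  3 (.s k64 k128 7 (.s k96 k112 3 (.d k144 k159 k48 2 11))))))))) .n)) (.c k42 (.l (.s k26 k218 7
  (.s k16 k223 10 (.s k31 k21 2 (.d k208 k144 k149 7 10))))) (.c k218 (.l (.s k16 k223 10 (.s k48
  k32 3 (.s k101 k207 14 (.s k112 k79 6 (.d k240 k176 k160 7 11)))))) .n)))))

def s10_170_59 : T TT 256 :=
  (.q k16 [(.s k80 k95 2 (.s k208 k144 7 (.s k149 k31 10 (.s k213 k21 7 (.d k223 k218 k154 2
  10))))), (.s k48 k32 3 (.s k80 k95 2 (.s k144 k208 7 (.s k96 k192 11 (.s k112 k64 3 (.d k240 k176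
  k160 7 11)))))), (.s k48 k32 3 (.s k154 k223 10 (.s k26 k218 7 (.s k15 k37 6 (.s k101 k207 14 (.s
  k112 k79 6 (.d k240 k176 k165 7 14)))))))] (.c k208 (.l (.s k48 k32 3 (.s k80 k95 2 (.s k154 k223
  10 (.s k101 k207 14 (.s k112 k79 6 (.d k240 k176 k160 7 11))))))) .n))

def s10_170_60 : T TT 256 :=
  (.q k16 [(.s k80 k95 2 (.s k208 k144 7 (.s k149 k31 10 (.s k213 k21 7 (.d k223 k218 k154 2
  10))))), (.s k48 k32 3 (.s k80 k95 2 (.s k144 k208 7 (.s k96 k192 11 (.s k112 k64 3 (.d k240 k176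
  k160 7 11)))))), (.s k48 k32 3 (.s k154 k223 10 (.s k26 k218 7 (.s k15 k37 6 (.s k101 k207 14 (.s
  k112 k79 6 (.d k240 k176 k165 7 14)))))))] (.c k208 (.l (.s k48 k32 3 (.s k80 k95 2 (.s k154 k223
  10 (.s k101 k207 14 (.s k112 k79 6 (.d k240 k176 k160 7 11))))))) .n))

def s10_170_61 : T TT 256 :=
  (.q k16 [(.s k80 k95 2 (.s k154 k223 10 (.s k26 k218 7 (.s k208 k144 7 (.d k31 k21 k149 2 10))))),
  (.s k48 k32 3 (.s k80 k95 2 (.s k144 k208 7 (.s k96 k192 11 (.s k112 k64 3 (.d k240 k176 k160 7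
  11)))))), (.s k48 k32 3 (.s k154 k223 10 (.s k26 k218 7 (.s k15 k37 6 (.s k101 k207 14 (.s k112
  k79 6 (.d k240 k176 k165 7 14)))))))] (.c k208 (.l (.s k48 k32 3 (.s k80 k95 2 (.s k154 k223 10
  (.s k101 k207 14 (.s k112 k79 6 (.d k240 k176 k160 7 11))))))) .n))

def s10_170_62 : T TT 256 :=
  (.q k16 [(.s k80 k95 2 (.s k208 k144 7 (.s k149 k31 10 (.s k213 k21 7 (.d k223 k218 k154 2
  10))))), (.s k48 k32 3 (.s k80 k95 2 (.s k144 k208 7 (.s k96 k192 11 (.s k112 k64 3 (.d k240 k176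
  k160 7 11)))))), (.s k48 k32 3 (.s k154 k223 10 (.s k26 k218 7 (.s k15 k37 6 (.s k101 k207 14 (.s
  k112 k79 6 (.d k240 k176 k165 7 14)))))))] (.c k208 (.l (.s k48 k32 3 (.s k80 k95 2 (.s k154 k223
  10 (.s k101 k207 14 (.s k112 k79 6 (.d k240 k176 k160 7 11))))))) .n))

def s10_170_63 : T TT 256 :=
  (.q k16 [(.s k80 k95 2 (.s k154 k223 10 (.s k26 k218 7 (.s k31 k21 2 (.d k208 k144 k149 7 10))))),
  (.s k48 k32 3 (.s k80 k95 2 (.s k144 k208 7 (.s k160 k240 11 (.s k128 k176 3 (.d k192 k64 k96 7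
  11)))))), (.s k48 k32 3 (.s k154 k223 10 (.s k26 k218 7 (.s k15 k37 6 (.s k101 k207 14 (.s k112
  k79 6 (.d k240 k176 k165 7 14)))))))] (.c k208 (.l (.s k48 k32 3 (.s k80 k95 2 (.s k154 k223 10
  (.s k101 k207 14 (.s k112 k79 6 (.d k240 k176 k160 7 11))))))) .n))

def s10_170_64 : T TT 256 :=
  (.q k16 [(.s k80 k95 2 (.s k208 k144 7 (.s k149 k31 10 (.s k213 k21 7 (.d k223 k218 k154 2
  10))))), (.s k48 k32 3 (.s k80 k95 2 (.s k240 k160 11 (.s k112 k176 7 (.s k101 k79 6 (.d k154 k223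
  k207 10 14)))))), (.s k48 k32 3 (.s k154 k223 10 (.s k26 k218 7 (.s k15 k37 6 (.s k101 k207 14 (.s
  k112 k79 6 (.d k240 k176 k165 7 14)))))))] (.c k154 (.l (.s k80 k95 2 (.s k208 k144 7 (.s k149 k31
  10 (.s k21 k213 7 (.s k63 k42 6 (.s k240 k160 11 (.d k192 k106 k224 14 3)))))))) (.c k223 (.l (.s
  k48 k32 3 (.s k80 k95 2 (.s k208 k144 7 (.s k31 k149 10 (.s k26 k21 2 (.s k15 k37 6 (.d k240 k160
  k165 11 14)))))))) .n)))

def s10_170_65 : T TT 256 :=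
  (.q k16 [(.s k80 k95 2 (.s k208 k144 7 (.s k149 k31 10 (.s k213 k21 7 (.d k223 k218 k154 2
  10))))), (.s k48 k32 3 (.s k80 k95 2 (.s k144 k208 7 (.s k96 k192 11 (.s k112 k64 3 (.d k240 k176
  k160 7 11)))))), (.s k48 k32 3 (.s k154 k223 10 (.s k26 k218 7 (.s k15 k37 6 (.s k101 k207 14 (.s
  k112 k79 6 (.d k240 k176 k165 7 14)))))))] (.c k208 (.l (.s k48 k32 3 (.s k80 k95 2 (.s k154 k223
  10 (.s k101 k207 14 (.s k112 k79 6 (.d k240 k176 k160 7 11))))))) .n))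

def s10_170_66 : T TT 256 :=
  (.q k16 [(.s k80 k95 2 (.s k208 k144 7 (.s k149 k31 10 (.s k213 k21 7 (.d k223 k218 k154 2
  10))))), (.s k48 k32 3 (.s k80 k95 2 (.s k144 k208 7 (.s k96 k192 11 (.s k112 k64 3 (.d k240 k176
  k160 7 11)))))), (.s k48 k32 3 (.s k154 k223 10 (.s k26 k218 7 (.s k15 k37 6 (.s k101 k207 14 (.s
  k112 k79 6 (.d k240 k176 k165 7 14)))))))] (.c k208 (.l (.s k48 k32 3 (.s k80 k95 2 (.s k154 k223
  10 (.s k101 k207 14 (.s k112 k79 6 (.d k240 k176 k160 7 11))))))) .n))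

def s10_170_67 : T TT 256 :=
  (.q k16 [(.s k80 k95 2 (.s k208 k144 7 (.s k149 k31 10 (.s k213 k21 7 (.d k223 k218 k154 2
  10))))), (.s k48 k32 3 (.s k80 k95 2 (.s k144 k208 7 (.s k96 k192 11 (.s k112 k64 3 (.d k240 k176
  k160 7 11)))))), (.s k48 k32 3 (.s k154 k223 10 (.s k26 k218 7 (.s k15 k37 6 (.s k101 k207 14 (.s
  k112 k79 6 (.d k240 k176 k165 7 14)))))))] (.c k208 (.l (.s k48 k32 3 (.s k80 k95 2 (.s k154 k223
  10 (.s k101 k207 14 (.s k112 k79 6 (.d k240 k176 k160 7 11))))))) .n))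

def s10_170_68 : T TT 256 :=
  (.q k16 [(.s k80 k95 2 (.s k208 k144 7 (.s k149 k31 10 (.s k213 k21 7 (.d k223 k218 k154 2
  10))))), (.s k48 k32 3 (.s k80 k95 2 (.s k144 k208 7 (.s k96 k192 11 (.s k112 k64 3 (.d k240 k176
  k160 7 11)))))), (.s k48 k32 3 (.s k154 k223 10 (.s k26 k218 7 (.s k15 k37 6 (.s k101 k207 14 (.s
  k112 k79 6 (.d k240 k176 k165 7 14)))))))] (.c k208 (.l (.s k48 k32 3 (.s k80 k95 2 (.s k154 k223
  10 (.s k101 k207 14 (.s k112 k79 6 (.d k240 k176 k160 7 11))))))) .n))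

def s10_170_69 : T TT 256 :=
  (.q k16 [(.s k80 k95 2 (.s k208 k144 7 (.s k149 k31 10 (.s k213 k21 7 (.d k223 k218 k154 2
  10))))), (.s k48 k32 3 (.s k80 k95 2 (.s k144 k208 7 (.s k96 k192 11 (.s k112 k64 3 (.d k240 k176
  k160 7 11)))))), (.s k48 k32 3 (.s k154 k223 10 (.s k26 k218 7 (.s k15 k37 6 (.s k101 k207 14 (.s
  k112 k79 6 (.d k240 k176 k165 7 14)))))))] (.c k208 (.l (.s k48 k32 3 (.s k80 k95 2 (.s k154 k223
  10 (.s k101 k207 14 (.s k112 k79 6 (.d k240 k176 k160 7 11))))))) .n))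

def s10_170_70 : T TT 256 :=
  (.q k16 [(.s k80 k95 2 (.s k208 k144 7 (.s k149 k31 10 (.s k213 k21 7 (.d k223 k218 k154 2
  10))))), (.s k48 k32 3 (.s k80 k95 2 (.s k144 k208 7 (.s k96 k192 11 (.s k112 k64 3 (.d k240 k176
  k160 7 11)))))), (.s k48 k32 3 (.s k154 k223 10 (.s k26 k218 7 (.s k15 k37 6 (.s k101 k207 14 (.s
  k112 k79 6 (.d k240 k176 k165 7 14)))))))] (.c k208 (.l (.s k48 k32 3 (.s k80 k95 2 (.s k154 k223
  10 (.s k101 k207 14 (.s k112 k79 6 (.d k240 k176 k160 7 11))))))) .n))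

def s10_170_71 : T TT 256 :=
  (.q k16 [(.s k80 k95 2 (.s k208 k144 7 (.s k149 k31 10 (.s k213 k21 7 (.d k223 k218 k154 2
  10))))), (.s k48 k32 3 (.s k80 k95 2 (.s k144 k208 7 (.s k96 k192 11 (.s k112 k64 3 (.d k240 k176
  k160 7 11)))))), (.s k48 k32 3 (.s k154 k223 10 (.s k26 k218 7 (.s k15 k37 6 (.s k101 k207 14 (.s
  k112 k79 6 (.d k240 k176 k165 7 14)))))))] (.c k208 (.l (.s k48 k32 3 (.s k80 k95 2 (.s k154 k223
  10 (.s k101 k207 14 (.s k112 k79 6 (.d k240 k176 k160 7 11))))))) .n))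

def s10_170_72 : T TT 256 :=
  (.q k16 [(.s k80 k95 2 (.s k208 k144 7 (.s k149 k31 10 (.s k213 k21 7 (.d k223 k218 k154 2
  10))))), (.s k48 k32 3 (.s k80 k95 2 (.s k144 k208 7 (.s k96 k192 11 (.s k112 k64 3 (.d k240 k176
  k160 7 11)))))), (.s k48 k32 3 (.s k154 k223 10 (.s k26 k218 7 (.s k15 k37 6 (.s k101 k207 14 (.s
  k112 k79 6 (.d k240 k176 k165 7 14)))))))] (.c k208 (.l (.s k48 k32 3 (.s k80 k95 2 (.s k154 k223
  10 (.s k101 k207 14 (.s k112 k79 6 (.d k240 k176 k160 7 11))))))) .n))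

def s10_170_73 : T TT 256 :=
  (.q k16 [(.s k80 k95 2 (.s k208 k144 7 (.s k149 k31 10 (.s k213 k21 7 (.d k223 k218 k154 2
  10))))), (.s k48 k32 3 (.s k80 k95 2 (.s k144 k208 7 (.s k96 k192 11 (.s k112 k64 3 (.d k240 k176
  k160 7 11)))))), (.s k48 k32 3 (.s k154 k223 10 (.s k26 k218 7 (.s k15 k37 6 (.s k101 k207 14 (.s
  k112 k79 6 (.d k240 k176 k165 7 14)))))))] (.c k208 (.l (.s k48 k32 3 (.s k80 k95 2 (.s k154 k223
  10 (.s k101 k207 14 (.s k112 k79 6 (.d k240 k176 k160 7 11))))))) .n))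

def s10_170_74 : T TT 256 :=
  (.f k80 k95 2 (.q k154 [(.s k16 k223 10 (.s k26 k218 7 (.s k31 k21 2 (.d k208 k144 k149 7 10)))),
  (.s k218 k26 7 (.s k240 k160 11 (.s k207 k229 6 (.s k101 k48 14 (.d k69 k138 k117 10 3))))), (.s
  k16 k223 10 (.s k48 k32 3 (.s k101 k207 14 (.s k112 k79 6 (.d k240 k176 k160 7 11)))))] (.c k138
  (.q k202 [(.s k16 k223 10 (.s k26 k218 7 (.s k31 k21 2 (.d k208 k144 k149 7 10)))), (.s k218 k26 7
  (.s k240 k160 11 (.s k165 k15 14 (.s k245 k5 11 (.d k250 k255 k234 2 3))))), (.s k16 k223 10 (.s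
  k48 k32 3 (.s k101 k207 14 (.s k112 k79 6 (.d k240 k176 k160 7 11)))))] .n) (.c k202 (.q k138 [(.s
  k16 k223 10 (.s k48 k32 3 (.d k207 k101 k69 14 10))), (.s k207 k69 10 (.s k218 k26 7 (.d k240 k229
  k160 6 11))), (.s k16 k223 10 (.s k26 k218 7 (.s k31 k21 2 (.d k208 k144 k149 7 10))))] .n) .n))))

def s10_170_75 : T TT 256 :=
  (.q k16 [(.s k80 k95 2 (.s k208 k144 7 (.s k149 k31 10 (.s k213 k21 7 (.d k223 k218 k154 2
  10))))), (.s k48 k32 3 (.s k80 k95 2 (.s k144 k208 7 (.s k96 k192 11 (.s k112 k64 3 (.d k240 k176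
  k160 7 11)))))), (.s k48 k32 3 (.s k154 k223 10 (.s k26 k218 7 (.s k15 k37 6 (.s k101 k207 14 (.s
  k112 k79 6 (.d k240 k176 k165 7 14)))))))] (.c k208 (.l (.s k48 k32 3 (.s k80 k95 2 (.s k154 k223
  10 (.s k101 k207 14 (.s k112 k79 6 (.d k240 k176 k160 7 11))))))) .n))

def s10_170_76 : T TT 256 :=
  (.q k16 [(.s k80 k95 2 (.s k208 k144 7 (.s k149 k31 10 (.s k213 k21 7 (.d k223 k218 k154 2
  10))))), (.s k48 k32 3 (.s k80 k95 2 (.s k144 k208 7 (.s k96 k192 11 (.s k112 k64 3 (.d k240 k176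
  k160 7 11)))))), (.s k48 k32 3 (.s k154 k223 10 (.s k26 k218 7 (.s k15 k37 6 (.s k101 k207 14 (.s
  k112 k79 6 (.d k240 k176 k165 7 14)))))))] (.c k208 (.l (.s k48 k32 3 (.s k80 k95 2 (.s k154 k223
  10 (.s k101 k207 14 (.s k112 k79 6 (.d k240 k176 k160 7 11))))))) .n))

def s10_170_77 : T TT 256 :=
  (.q k16 [(.s k80 k95 2 (.s k208 k144 7 (.s k149 k31 10 (.s k213 k21 7 (.d k223 k218 k154 2
  10))))), (.s k48 k32 3 (.s k80 k95 2 (.s k144 k208 7 (.s k96 k192 11 (.s k112 k64 3 (.d k240 k176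
  k160 7 11)))))), (.s k48 k32 3 (.s k154 k223 10 (.s k26 k218 7 (.s k15 k37 6 (.s k101 k207 14 (.s
  k112 k79 6 (.d k240 k176 k165 7 14)))))))] (.c k208 (.l (.s k48 k32 3 (.s k80 k95 2 (.s k154 k223
  10 (.s k101 k207 14 (.s k112 k79 6 (.d k240 k176 k160 7 11))))))) .n))

def s10_170_78 : T TT 256 :=
  (.q k16 [(.s k80 k95 2 (.s k208 k144 7 (.s k149 k31 10 (.s k213 k21 7 (.d k223 k218 k154 2
  10))))), (.s k48 k32 3 (.s k80 k95 2 (.s k144 k208 7 (.s k96 k192 11 (.s k112 k64 3 (.d k240 k176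
  k160 7 11)))))), (.s k48 k32 3 (.s k154 k223 10 (.s k26 k218 7 (.s k15 k37 6 (.s k101 k207 14 (.s
  k112 k79 6 (.d k240 k176 k165 7 14)))))))] (.c k208 (.l (.s k48 k32 3 (.s k80 k95 2 (.s k154 k223
  10 (.s k101 k207 14 (.s k112 k79 6 (.d k240 k176 k160 7 11))))))) .n))

def s10_170_79 : T TT 256 :=
  (.q k81 [(.s k80 k95 2 (.s k83 k82 0 (.s k89 k93 1 (.s k88 k91 0 (.d k92 k84 k86 1 2))))), (.s k89
  k93 1 (.s k91 k88 0 (.s k243 k162 12 (.s k15 k167 13 (.s k165 k240 14 (.s k13 k241 13 (.d k12 k166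
  k14 14 0))))))), (.s k80 k95 2 (.s k82 k83 0 (.s k162 k243 12 (.s k2 k242 11 (.s k3 k1 0 (.d k240
  k160 k161 11 12))))))] (.c k91 (.l (.s k80 k95 2 (.s k89 k93 1 (.s k240 k160 11 (.s k165 k15 14
  (.s k241 k13 13 (.d k243 k242 k162 0 12))))))) .n))

def s10_170_80 : T TT 256 :=
  (.q k16 [(.s k48 k32 3 (.s k154 k223 10 (.s k101 k207 14 (.s k112 k79 6 (.s k240 k176 7 (.s k15
  k165 14 (.d k26 k37 k218 6 7))))))), (.s k48 k32 3 (.s k154 k223 10 (.s k26 k218 7 (.s k21 k31 2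
  (.s k37 k15 6 (.s k63 k42 6 (.d k53 k58 k5 2 3)))))))] (.c k15 (.q k3 [(.s k2 k1 0 (.s k48 k32 3
  (.s k18 k33 4 (.s k17 k19 0 (.d k34 k50 k51 3 4))))), (.s k1 k2 0 (.s k154 k223 10 (.s k26 k218 7
  (.s k21 k31 2 (.s k41 k61 5 (.s k11 k56 4 (.d k169 k248 k253 12 13))))))), (.s k48 k32 3 (.s k18
  k33 4 (.s k154 k223 10 (.s k86 k222 9 (.s k84 k87 0 (.d k252 k168 k169 13 14))))))] .n) (.c k26
  (.f k154 k223 10 (.f k48 k32 3 (.l (.s k101 k207 14 (.s k69 k117 3 (.s k79 k112 6 (.s k64 k74 2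
  (.s k192 k128 7 (.s k96 k144 11 (.d k106 k127 k111 6 2)))))))))) (.c k32 (.f k154 k223 10 (.q k101
  [(.s k69 k117 3 (.d k207 k138 k48 10 14)), (.s k26 k218 7 (.s k48 k207 14 (.s k15 k37 6 (.s k112
  k79 6 (.d k240 k176 k165 7 14)))))] (.c k48 (.l (.s k69 k117 3 (.s k79 k112 6 (.s k207 k138 10 (.s
  k15 k143 7 (.s k218 k26 7 (.d k240 k229 k165 6 14))))))) (.c k207 (.f k26 k218 7 (.l (.s k21 k31 2
  (.s k63 k42 6 (.s k69 k117 3 (.s k79 k112 6 (.s k64 k74 2 (.s k192 k128 7 (.d k106 k127 k149 6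
  14))))))))) .n)))) (.c k37 (.q k3 [(.s k2 k1 0 (.s k48 k32 3 (.s k18 k33 4 (.s k17 k19 0 (.d k34
  k50 k51 3 4))))), (.s k1 k2 0 (.s k154 k223 10 (.s k26 k218 7 (.s k21 k31 2 (.s k41 k61 5 (.s k11
  k56 4 (.d k169 k248 k253 12 13))))))), (.s k48 k32 3 (.s k18 k33 4 (.s k154 k223 10 (.s k86 k222 9
  (.s k84 k87 0 (.d k252 k168 k169 13 14))))))] (.c k41 (.l (.s k1 k2 0 (.s k48 k32 3 (.s k33 k18 4
  (.s k154 k223 10 (.s k101 k207 14 (.d k169 k237 k253 9 13))))))) .n)) (.c k48 (.q k17 [(.s k19 k18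
  0 (.s k153 k221 9 (.s k154 k223 10 (.s k152 k155 0 (.d k220 k84 k86 9 10))))), (.s k153 k221 9 (.s
  k27 k216 8 (.s k154 k223 10 (.s k26 k218 7 (.s k21 k31 2 (.d k25 k24 k29 0 1)))))), (.s k19 k18 0
  (.s k153 k221 9 (.s k27 k216 8 (.s k31 k23 1 (.s k21 k26 2 (.d k149 k213 k208 7 10)))))), (.s k18
  k19 0 (.s k154 k223 10 (.s k26 k218 7 (.s k30 k22 1 (.s k150 k210 9 (.s k158 k146 1 (.d k222 k94
  k86 7 9)))))))] .n) (.c k101 (.q k27 [(.s k153 k216 8 (.s k17 k221 9 (.s k19 k18 0 (.s k31 k23 1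
  (.s k149 k208 10 (.d k21 k26 k213 2 7)))))), (.s k154 k223 10 (.s k26 k218 7 (.s k24 k25 0 (.s k28
  k20 1 (.s k89 k219 8 (.s k81 k93 1 (.d k211 k146 k150 8 10))))))), (.s k153 k216 8 (.s k17 k221 9
  (.s k19 k18 0 (.s k86 k220 10 (.s k87 k84 0 (.d k223 k155 k154 9 10))))))] (.c k32 (.q k239 [(.s
  k153 k216 8 (.s k17 k221 9 (.s k19 k18 0 (.s k31 k23 1 (.s k149 k208 10 (.d k21 k26 k213 2
  7)))))), (.s k154 k223 10 (.s k26 k218 7 (.s k24 k25 0 (.s k28 k20 1 (.s k89 k219 8 (.s k81 k93 1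
  (.d k211 k146 k150 8 10))))))), (.s k153 k216 8 (.s k17 k221 9 (.s k19 k18 0 (.s k86 k220 10 (.s
  k87 k84 0 (.d k223 k155 k154 9 10))))))] (.c k208 (.l (.s k153 k216 8 (.s k17 k221 9 (.s k19 k18 0
  (.s k31 k23 1 (.s k26 k21 2 (.d k154 k218 k223 7 10))))))) (.c k216 (.l (.s k154 k223 10 (.s k26
  k218 7 (.s k25 k24 0 (.s k31 k21 2 (.s k19 k23 1 (.s k18 k17 0 (.d k22 k30 k28 1 2)))))))) .n)))
  (.c k208 (.l (.s k153 k216 8 (.s k17 k221 9 (.s k19 k18 0 (.s k31 k23 1 (.s k26 k21 2 (.d k154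
  k218 k223 7 10))))))) (.c k216 (.l (.s k154 k223 10 (.s k26 k218 7 (.s k25 k24 0 (.s k31 k21 2 (.s
  k19 k23 1 (.s k18 k17 0 (.d k22 k30 k28 1 2)))))))) (.c k239 (.l (.s k32 k48 3 (.s k153 k216 8 (.s
  k17 k221 9 (.s k19 k18 0 (.s k31 k23 1 (.s k21 k26 2 (.d k149 k213 k208 7 10)))))))) .n))))) (.c
  k154 (.q k21 [(.s k149 k213 7 (.d k31 k26 k208 2 10)), (.s k26 k31 2 (.s k48 k32 3 (.s k37 k15 6
  (.s k53 k5 3 (.d k63 k58 k42 2 6)))))] (.c k26 (.f k149 k213 7 (.f k31 k208 10 (.l (.s k48 k32 3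
  (.s k63 k42 6 (.s k58 k53 2 (.s k106 k192 14 (.s k122 k74 3 (.s k240 k181 10 (.d k15 k47 k165 3
  14)))))))))) (.c k31 (.f k48 k32 3 (.l (.s k63 k42 6 (.s k149 k213 7 (.s k106 k192 14 (.s k122 k74
  3 (.s k127 k64 6 (.s k112 k117 2 (.d k240 k176 k181 7 10))))))))) (.c k138 (.q k186 [(.s k149 k213
  7 (.d k31 k26 k208 2 10)), (.s k26 k31 2 (.s k48 k32 3 (.s k37 k15 6 (.s k53 k5 3 (.d k63 k58 k42
  2 6)))))] (.c k26 (.l (.s k48 k32 3 (.s k63 k42 6 (.s k58 k53 2 (.s k122 k250 7 (.s k149 k213 7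
  (.d k106 k74 k192 3 14))))))) (.c k31 (.l (.s k48 k32 3 (.s k63 k42 6 (.s k58 k53 2 (.s k122 k250
  7 (.s k149 k213 7 (.d k106 k74 k192 3 14))))))) (.c k74 (.q k202 [(.s k149 k213 7 (.d k31 k26 k208
  2 10)), (.s k48 k32 3 (.s k117 k255 10 (.s k101 k69 3 (.s k149 k213 7 (.s k53 k197 11 (.d k63 k58
  k42 2 6)))))), (.s k26 k31 2 (.s k48 k32 3 (.s k37 k15 6 (.s k53 k5 3 (.d k63 k58 k42 2 6)))))]
  .n) (.c k202 (.q k74 [(.s k149 k213 7 (.d k31 k26 k208 2 10)), (.s k48 k32 3 (.s k63 k42 6 (.s k58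
  k53 2 (.d k122 k106 k250 3 7))))] (.c k26 (.l (.s k106 k122 3 (.s k149 k213 7 (.d k63 k42 k192 6
  14)))) (.c k58 (.l (.s k106 k122 3 (.s k149 k213 7 (.d k31 k26 k208 2 10)))) (.c k106 (.q k58 [(.s
  k31 k26 2 (.d k149 k213 k208 7 10)), (.s k48 k32 3 (.d k63 k42 k53 6 2))] (.c k42 (.q k234 [(.s
  k31 k26 2 (.d k149 k213 k208 7 10)), (.s k48 k32 3 (.s k213 k149 7 (.d k255 k192 k117 6 10))), (.s
  k26 k31 2 (.s k48 k32 3 (.s k37 k15 6 (.d k53 k63 k5 2 3))))] .n) (.c k234 (.l (.s k42 k63 6 (.s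
  k31 k26 2 (.d k149 k213 k208 7 10)))) .n))) .n)))) .n))))) (.c k186 (.q k138 [(.s k149 k213 7 (.d
  k31 k26 k208 2 10)), (.s k48 k32 3 (.s k69 k207 10 (.s k101 k117 3 (.s k149 k213 7 (.s k53 k197 11
  (.d k63 k58 k42 2 6)))))), (.s k26 k31 2 (.s k48 k32 3 (.s k37 k15 6 (.s k53 k5 3 (.d k63 k58 k42
  2 6)))))] .n) .n))))) (.c k218 (.q k3 [(.s k2 k1 0 (.s k48 k32 3 (.s k18 k33 4 (.s k17 k19 0 (.d
  k34 k50 k51 3 4))))), (.s k1 k2 0 (.s k169 k253 13 (.s k11 k248 12 (.s k15 k7 1 (.s k86 k252 14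
  (.s k82 k94 1 (.d k240 k161 k165 12 14))))))), (.s k48 k32 3 (.s k18 k33 4 (.s k154 k223 10 (.s
  k86 k222 9 (.s k84 k87 0 (.d k252 k168 k169 13 14))))))] .n) (.c k223 (.q k17 [(.s k18 k19 0 (.s
  k34 k51 4 (.s k2 k50 3 (.s k3 k1 0 (.d k48 k32 k33 3 4))))), (.s k19 k18 0 (.s k153 k221 9 (.s k27
  k216 8 (.s k31 k23 1 (.s k21 k26 2 (.d k149 k213 k208 7 10)))))), (.s k51 k34 4 (.s k153 k221 9
  (.s k27 k216 8 (.s k15 k39 5 (.s k102 k204 14 (.s k114 k78 5 (.d k240 k177 k165 8 14)))))))] .n)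
  (.c k239 (.q k101 [(.s k48 k32 3 (.d k154 k223 k207 10 14)), (.s k48 k32 3 (.s k69 k117 3 (.s k79
  k112 6 (.s k64 k74 2 (.s k192 k128 7 (.s k96 k144 11 (.d k106 k127 k111 6 2))))))), (.s k69 k117 3
  (.s k79 k112 6 (.s k154 k223 10 (.s k207 k138 10 (.s k15 k143 7 (.s k218 k26 7 (.d k240 k229 k165
  6 14)))))))] .n) .n)))))))))))

def s10_170_81 : T TT 256 :=
  (.q k16 [(.s k80 k95 2 (.s k208 k144 7 (.s k149 k31 10 (.s k213 k21 7 (.d k223 k218 k154 2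
  10))))), (.s k48 k32 3 (.s k80 k95 2 (.s k144 k208 7 (.s k96 k192 11 (.s k112 k64 3 (.d k240 k176
  k160 7 11)))))), (.s k48 k32 3 (.s k154 k223 10 (.s k26 k218 7 (.s k15 k37 6 (.s k101 k207 14 (.s
  k112 k79 6 (.d k240 k176 k165 7 14)))))))] (.c k208 (.l (.s k48 k32 3 (.s k80 k95 2 (.s k154 k223
  10 (.s k101 k207 14 (.s k112 k79 6 (.d k240 k176 k160 7 11))))))) .n))

def s10_170_82 : T TT 256 :=
  (.q k16 [(.s k80 k95 2 (.s k208 k144 7 (.s k149 k31 10 (.s k213 k21 7 (.d k223 k218 k154 2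
  10))))), (.s k48 k32 3 (.s k80 k95 2 (.s k144 k208 7 (.s k96 k192 11 (.s k112 k64 3 (.d k240 k176
  k160 7 11)))))), (.s k48 k32 3 (.s k154 k223 10 (.s k26 k218 7 (.s k15 k37 6 (.s k101 k207 14 (.s
  k112 k79 6 (.d k240 k176 k165 7 14)))))))] (.c k208 (.l (.s k48 k32 3 (.s k80 k95 2 (.s k154 k223
  10 (.s k101 k207 14 (.s k112 k79 6 (.d k240 k176 k160 7 11))))))) .n))

def s10_170_83 : T TT 256 :=
  (.q k16 [(.s k80 k95 2 (.s k208 k144 7 (.s k149 k31 10 (.s k213 k21 7 (.d k223 k218 k154 2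
  10))))), (.s k48 k32 3 (.s k154 k223 10 (.s k26 k218 7 (.s k15 k37 6 (.s k101 k207 14 (.s k112 k79
  6 (.d k240 k176 k165 7 14))))))), (.s k48 k32 3 (.s k80 k95 2 (.s k144 k208 7 (.s k96 k192 11 (.s
  k112 k64 3 (.d k240 k176 k160 7 11))))))] (.c k208 (.l (.s k48 k32 3 (.s k80 k95 2 (.s k154 k223
  10 (.s k101 k207 14 (.s k112 k79 6 (.d k240 k176 k160 7 11))))))) .n))

def s10_170_84 : T TT 256 :=
  (.q k16 [(.s k80 k95 2 (.s k208 k144 7 (.s k149 k31 10 (.s k213 k21 7 (.d k223 k218 k154 2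
  10))))), (.s k48 k32 3 (.s k80 k95 2 (.s k144 k208 7 (.s k96 k192 11 (.s k112 k64 3 (.d k240 k176
  k160 7 11)))))), (.s k48 k32 3 (.s k154 k223 10 (.s k26 k218 7 (.s k15 k37 6 (.s k101 k207 14 (.s
  k112 k79 6 (.d k240 k176 k165 7 14)))))))] (.c k208 (.l (.s k48 k32 3 (.s k80 k95 2 (.s k154 k223
  10 (.s k101 k207 14 (.s k112 k79 6 (.d k240 k176 k160 7 11))))))) .n))

def s10_170_86 : T TT 256 :=
  (.f k80 k95 2 (.q k149 [(.s k208 k31 10 (.s k16 k144 7 (.s k213 k21 7 (.d k223 k218 k154 2 10)))),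
  (.s k21 k213 7 (.s k63 k42 6 (.s k106 k192 14 (.s k122 k74 3 (.d k240 k181 k160 10 11))))), (.s
  k208 k31 10 (.s k240 k160 11 (.s k192 k224 3 (.s k64 k128 7 (.d k106 k127 k63 6 14)))))] (.c k2
  (.q k254 [(.s k208 k31 10 (.s k16 k144 7 (.s k213 k21 7 (.d k223 k218 k154 2 10)))), (.s k21 k213
  7 (.s k63 k42 6 (.s k106 k192 14 (.s k122 k74 3 (.d k240 k181 k160 10 11))))), (.s k208 k31 10 (.s
  k240 k160 11 (.s k192 k224 3 (.s k64 k128 7 (.d k106 k127 k63 6 14)))))] (.c k6 (.q k14 [(.s k208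
  k31 10 (.s k16 k144 7 (.s k213 k21 7 (.d k223 k218 k154 2 10)))), (.s k166 k242 13 (.s k4 k247 12
  (.s k12 k8 1 (.s k15 k13 0 (.d k240 k160 k165 11 14)))))] (.c k166 (.q k246 [(.s k208 k31 10 (.s
  k16 k144 7 (.s k213 k21 7 (.d k223 k218 k154 2 10)))), (.s k240 k160 11 (.s k165 k15 14 (.s k245
  k5 11 (.d k250 k255 k242 2 1))))] (.c k162 (.l (.s k174 k94 11 (.s k208 k31 10 (.s k16 k144 7 (.s
  k213 k21 7 (.d k223 k218 k154 2 10)))))) (.c k174 (.q k162 [(.s k242 k250 1 (.s k243 k81 12 (.d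
  k240 k241 k160 0 11))), (.s k208 k31 10 (.s k16 k144 7 (.s k213 k21 7 (.d k223 k218 k154 2 10))))]
  .n) .n))) (.c k246 (.l (.s k166 k242 13 (.s k4 k247 12 (.s k12 k8 1 (.s k15 k13 0 (.d k240 k160
  k165 11 14)))))) .n))) (.c k14 (.q k6 [(.s k208 k31 10 (.s k16 k144 7 (.s k213 k21 7 (.d k223 k218
  k154 2 10)))), (.s k21 k213 7 (.s k63 k42 6 (.s k106 k192 14 (.s k122 k74 3 (.d k240 k181 k160 10
  11))))), (.s k208 k31 10 (.s k240 k160 11 (.s k192 k224 3 (.s k64 k128 7 (.d k106 k127 k63 6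
  14)))))] .n) .n))) (.c k254 (.q k2 [(.s k208 k31 10 (.s k16 k144 7 (.s k213 k21 7 (.d k223 k218
  k154 2 10)))), (.s k3 k1 0 (.s k240 k160 11 (.s k82 k161 12 (.s k81 k83 0 (.d k162 k242 k243 11
  12)))))] .n) .n))))

def s10_170_87 : T TT 256 :=
  (.q k16 [(.s k80 k95 2 (.s k208 k144 7 (.s k149 k31 10 (.s k213 k21 7 (.d k223 k218 k154 2
  10))))), (.s k48 k32 3 (.s k154 k223 10 (.s k26 k218 7 (.s k15 k37 6 (.s k101 k207 14 (.s k112 k79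
  6 (.d k240 k176 k165 7 14))))))), (.s k48 k32 3 (.s k80 k95 2 (.s k144 k208 7 (.s k96 k192 11 (.s
  k112 k64 3 (.d k240 k176 k160 7 11))))))] (.c k208 (.l (.s k48 k32 3 (.s k80 k95 2 (.s k154 k223
  10 (.s k101 k207 14 (.s k112 k79 6 (.d k240 k176 k160 7 11))))))) .n))

def s10_170_88 : T TT 256 :=
  (.q k16 [(.s k80 k95 2 (.s k208 k144 7 (.s k149 k31 10 (.s k213 k21 7 (.d k223 k218 k154 2
  10))))), (.s k48 k32 3 (.s k80 k95 2 (.s k144 k208 7 (.s k96 k192 11 (.s k112 k64 3 (.d k240 k176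
  k160 7 11)))))), (.s k48 k32 3 (.s k154 k223 10 (.s k26 k218 7 (.s k15 k37 6 (.s k101 k207 14 (.s
  k112 k79 6 (.d k240 k176 k165 7 14)))))))] (.c k208 (.l (.s k48 k32 3 (.s k80 k95 2 (.s k154 k223
  10 (.s k101 k207 14 (.s k112 k79 6 (.d k240 k176 k160 7 11))))))) .n))

def s10_170_89 : T TT 256 :=
  (.f k80 k95 2 (.q k192 [(.s k128 k64 7 (.s k160 k240 11 (.s k144 k176 3 (.s k16 k208 7 (.d k48 k32
  k96 3 11))))), (.s k64 k128 7 (.s k106 k127 6 (.s k74 k122 3 (.s k79 k69 2 (.d k112 k96 k101 3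
  6))))), (.s k240 k160 11 (.s k208 k224 3 (.s k149 k31 10 (.s k21 k213 7 (.d k63 k42 k106 6
  14)))))] (.c k8 (.q k251 [(.s k128 k64 7 (.s k160 k240 11 (.s k144 k176 3 (.s k16 k208 7 (.d k48
  k32 k96 3 11))))), (.s k64 k128 7 (.s k106 k127 6 (.s k74 k122 3 (.s k79 k69 2 (.d k112 k96 k101 3
  6))))), (.s k240 k160 11 (.s k208 k224 3 (.s k149 k31 10 (.s k21 k213 7 (.d k63 k42 k106 6
  14)))))] (.c k9 (.q k11 [(.s k128 k64 7 (.s k160 k240 11 (.s k144 k176 3 (.s k16 k208 7 (.d k48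
  k32 k96 3 11))))), (.s k169 k248 12 (.s k1 k253 13 (.s k3 k2 0 (.s k15 k7 1 (.d k240 k160 k165 11
  14))))), (.s k64 k128 7 (.s k106 k127 6 (.s k74 k122 3 (.s k79 k69 2 (.d k112 k96 k101 3 6)))))]
  (.c k169 (.q k249 [(.s k240 k160 11 (.s k165 k15 14 (.s k250 k248 0 (.d k245 k255 k5 2 11)))), (.s
  k64 k128 7 (.s k106 k127 6 (.s k74 k122 3 (.s k79 k69 2 (.d k112 k96 k101 3 6)))))] (.c k168 (.l
  (.s k171 k91 11 (.s k240 k160 11 (.s k165 k15 14 (.s k245 k5 11 (.d k250 k255 k248 2 0)))))) (.c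
  k171 (.q k168 [(.s k248 k250 0 (.s k252 k84 13 (.d k240 k244 k160 1 11))), (.s k64 k128 7 (.s k84
  k252 13 (.s k104 k124 5 (.s k40 k232 7 (.d k60 k20 k148 5 13))))), (.s k240 k160 11 (.s k165 k15
  14 (.s k245 k5 11 (.d k250 k255 k248 2 0))))] .n) .n))) (.c k249 (.l (.s k169 k248 12 (.s k1 k253
  13 (.s k3 k2 0 (.s k15 k7 1 (.d k240 k160 k165 11 14)))))) .n))) (.c k11 (.q k9 [(.s k128 k64 7
  (.s k160 k240 11 (.s k144 k176 3 (.s k16 k208 7 (.d k48 k32 k96 3 11))))), (.s k64 k128 7 (.s k106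
  k127 6 (.s k74 k122 3 (.s k79 k69 2 (.d k112 k96 k101 3 6))))), (.s k240 k160 11 (.s k208 k224 3
  (.s k149 k31 10 (.s k21 k213 7 (.d k63 k42 k106 6 14)))))] (.c k96 (.l (.s k64 k128 7 (.s k106
  k127 6 (.s k74 k122 3 (.s k15 k133 10 (.d k240 k160 k165 11 14)))))) .n)) (.c k96 (.l (.s k64 k128
  7 (.s k106 k127 6 (.s k74 k122 3 (.s k15 k133 10 (.d k240 k160 k165 11 14)))))) .n)))) (.c k96 (.l
  (.s k64 k128 7 (.s k106 k127 6 (.s k74 k122 3 (.s k15 k133 10 (.d k240 k160 k165 11 14)))))) (.c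
  k251 (.q k8 [(.s k64 k128 7 (.s k96 k112 3 (.s k48 k144 11 (.s k32 k16 3 (.d k160 k224 k240 7
  11))))), (.s k12 k4 1 (.s k240 k160 11 (.s k88 k164 13 (.s k84 k92 1 (.d k168 k248 k252 11
  13))))), (.s k12 k4 1 (.s k64 k128 7 (.s k72 k132 9 (.s k68 k76 1 (.d k136 k200 k204 7 9)))))] .n)
  .n)))))

def s10_170_91 : T TT 256 :=
  (.q k16 [(.s k95 k80 2 (.s k223 k154 10 (.s k31 k159 7 (.s k149 k208 10 (.d k21 k26 k213 2 7))))),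
  (.s k48 k32 3 (.s k80 k95 2 (.s k144 k208 7 (.s k96 k192 11 (.s k112 k64 3 (.d k240 k176 k160 7
  11)))))), (.s k48 k32 3 (.s k154 k223 10 (.s k26 k218 7 (.s k15 k37 6 (.s k101 k207 14 (.s k112
  k79 6 (.d k240 k176 k165 7 14)))))))] (.c k208 (.l (.s k48 k32 3 (.s k80 k95 2 (.s k154 k223 10
  (.s k101 k207 14 (.s k112 k79 6 (.d k240 k176 k160 7 11))))))) .n))

def s10_170_92 : T TT 256 :=
  (.q k16 [(.s k80 k95 2 (.s k208 k144 7 (.s k149 k31 10 (.s k213 k21 7 (.d k223 k218 k154 2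
  10))))), (.s k48 k32 3 (.s k154 k223 10 (.s k26 k218 7 (.s k15 k37 6 (.s k101 k207 14 (.s k112 k79
  6 (.d k240 k176 k165 7 14))))))), (.s k48 k32 3 (.s k80 k95 2 (.s k144 k208 7 (.s k96 k192 11 (.s
  k112 k64 3 (.d k240 k176 k160 7 11))))))] (.c k208 (.l (.s k48 k32 3 (.s k80 k95 2 (.s k154 k223
  10 (.s k101 k207 14 (.s k112 k79 6 (.d k240 k176 k160 7 11))))))) .n))

def s10_170_93 : T TT 256 :=
  (.q k16 [(.s k80 k95 2 (.s k208 k144 7 (.s k149 k31 10 (.s k213 k21 7 (.d k223 k218 k154 2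
  10))))), (.s k48 k32 3 (.s k154 k223 10 (.s k26 k218 7 (.s k15 k37 6 (.s k101 k207 14 (.s k112 k79
  6 (.d k240 k176 k165 7 14))))))), (.s k48 k32 3 (.s k80 k95 2 (.s k144 k208 7 (.s k96 k192 11 (.s
  k112 k64 3 (.d k240 k176 k160 7 11))))))] (.c k208 (.l (.s k48 k32 3 (.s k80 k95 2 (.s k154 k223
  10 (.s k101 k207 14 (.s k112 k79 6 (.d k240 k176 k160 7 11))))))) .n))

def s10_170_94 : T TT 256 :=
  (.q k16 [(.s k95 k80 2 (.s k223 k154 10 (.s k31 k159 7 (.s k149 k208 10 (.d k21 k26 k213 2 7))))),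
  (.s k48 k32 3 (.s k80 k95 2 (.s k144 k208 7 (.s k96 k192 11 (.s k112 k64 3 (.d k240 k176 k160 7
  11)))))), (.s k48 k32 3 (.s k154 k223 10 (.s k26 k218 7 (.s k15 k37 6 (.s k101 k207 14 (.s k112
  k79 6 (.d k240 k176 k165 7 14)))))))] (.c k208 (.l (.s k48 k32 3 (.s k80 k95 2 (.s k154 k223 10
  (.s k101 k207 14 (.s k112 k79 6 (.d k240 k176 k160 7 11))))))) .n))

def s10_170_95 : T TT 256 :=
  (.q k150 [(.s k20 k215 8 (.s k30 k210 9 (.s k60 k40 5 (.s k15 k45 4 (.s k165 k240 14 (.s k135 k180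
  4 (.d k195 k105 k75 14 9)))))))] (.c k15 (.f k30 k210 9 (.f k215 k20 8 (.q k106 [(.s k62 k194 13
  (.s k14 k46 3 (.s k242 k166 13 (.d k122 k74 k182 3 9)))), (.s k64 k127 6 (.s k192 k128 7 (.s k149
  k63 14 (.s k31 k208 10 (.s k28 k29 0 (.s k151 k148 0 (.d k211 k91 k89 9 10)))))))] (.c k46 (.l (.s
  k64 k127 6 (.s k192 k128 7 (.s k194 k62 13 (.s k195 k193 0 (.s k65 k130 8 (.d k105 k125 k60 5
  14))))))) (.c k175 (.q k255 [(.s k195 k235 5 (.s k65 k130 8 (.d k105 k125 k60 5 14))), (.s k62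
  k194 13 (.s k14 k46 3 (.s k122 k74 3 (.d k242 k182 k166 9 13))))] (.c k160 (.q k165 [(.s k195 k235
  5 (.s k65 k130 8 (.d k105 k125 k60 5 14))), (.s k62 k194 13 (.s k14 k46 3 (.s k122 k74 3 (.d k242
  k182 k166 9 13))))] .n) (.c k165 (.q k160 [(.s k195 k235 5 (.s k65 k130 8 (.d k105 k125 k60 5
  14))), (.s k62 k194 13 (.s k14 k46 3 (.s k122 k74 3 (.d k242 k182 k166 9 13))))] .n) .n))) (.c
  k255 (.q k175 [(.s k62 k194 13 (.s k14 k46 3 (.s k242 k166 13 (.d k122 k74 k182 3 9)))), (.s k64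
  k127 6 (.s k192 k128 7 (.s k194 k62 13 (.s k195 k193 0 (.s k65 k130 8 (.d k105 k125 k60 5
  14))))))] (.c k62 (.q k3 [(.s k2 k1 0 (.s k64 k127 6 (.s k192 k128 7 (.s k66 k129 8 (.s k65 k67 0
  (.d k130 k194 k195 7 8)))))), (.s k1 k2 0 (.s k169 k253 13 (.s k43 k232 8 (.s k63 k23 5 (.s k149
  k192 14 (.d k21 k42 k213 6 7)))))), (.s k1 k2 0 (.s k169 k253 13 (.s k131 k188 6 (.s k195 k67 7
  (.s k65 k130 8 (.d k105 k125 k60 5 14)))))), (.s k64 k127 6 (.s k192 k128 7 (.s k66 k129 8 (.s k65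
  k67 0 (.s k105 k125 5 (.d k195 k130 k60 8 14))))))] .n) (.c k194 (.q k166 [(.s k247 k4 12 (.s k199
  k231 3 (.s k52 k101 12 (.d k182 k134 k117 3 8)))), (.s k64 k127 6 (.s k192 k128 7 (.s k226 k46 9
  (.s k243 k209 4 (.s k81 k162 12 (.d k89 k93 k12 1 14))))))] (.c k226 (.l (.s k242 k14 13 (.s k247
  k4 12 (.s k199 k231 3 (.s k52 k101 12 (.d k182 k134 k117 3 8)))))) (.c k242 (.l (.s k226 k46 9 (.s
  k182 k134 3 (.s k247 k4 12 (.s k52 k117 8 (.d k199 k231 k101 3 12)))))) .n))) .n))) .n)))))) (.c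
  k20 (.q k86 [(.s k22 k214 7 (.s k30 k210 9 (.s k94 k82 1 (.s k222 k158 7 (.d k18 k26 k154 1
  9))))), (.s k84 k87 0 (.s k214 k22 7 (.s k252 k168 13 (.s k195 k233 6 (.s k65 k130 8 (.d k105 k125
  k60 5 14)))))), (.s k84 k87 0 (.s k94 k82 1 (.s k252 k168 13 (.s k15 k173 12 (.s k165 k240 14 (.s
  k7 k244 12 (.d k3 k169 k11 14 1)))))))] .n) (.c k30 (.q k3 [(.s k1 k2 0 (.s k20 k215 8 (.s k60 k40
  5 (.s k169 k253 13 (.s k131 k188 6 (.d k195 k105 k67 14 7)))))), (.s k20 k215 8 (.s k60 k40 5 (.s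
  k22 k41 6 (.s k86 k214 7 (.s k84 k87 0 (.d k252 k168 k169 13 14)))))), (.s k1 k2 0 (.s k169 k253
  13 (.s k11 k248 12 (.s k15 k7 1 (.s k86 k252 14 (.s k82 k94 1 (.d k240 k161 k165 12 14))))))), (.s
  k2 k1 0 (.s k20 k215 8 (.s k60 k40 5 (.s k22 k41 6 (.s k21 k23 0 (.d k42 k62 k63 5 6))))))] .n)
  (.c k40 (.f k210 k30 9 (.f k215 k20 8 (.q k105 [(.s k65 k125 5 (.d k195 k130 k60 8 14)), (.s k75
  k120 4 (.s k195 k60 14 (.s k15 k135 9 (.d k240 k225 k165 4 14))))] (.c k60 (.l (.s k65 k125 5 (.s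
  k75 k120 4 (.s k195 k130 8 (.s k15 k135 9 (.d k240 k225 k165 4 14)))))) (.c k195 (.q k64 [(.s k65
  k125 5 (.s k67 k66 0 (.s k86 k124 6 (.s k87 k84 0 (.d k127 k107 k106 5 6))))), (.s k106 k127 6 (.s
  k74 k122 3 (.s k194 k62 13 (.s k14 k134 9 (.d k242 k226 k166 3 13))))), (.s k65 k125 5 (.s k67 k66
  0 (.s k75 k120 4 (.s k79 k71 1 (.s k69 k74 2 (.d k101 k117 k112 3 6))))))] .n) .n))))) (.c k45 (.q
  k3 [(.s k1 k2 0 (.s k20 k215 8 (.s k60 k40 5 (.s k169 k253 13 (.s k131 k188 6 (.d k195 k105 k67 14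
  7)))))), (.s k20 k215 8 (.s k60 k40 5 (.s k22 k41 6 (.s k86 k214 7 (.s k84 k87 0 (.d k252 k168
  k169 13 14)))))), (.s k1 k2 0 (.s k169 k253 13 (.s k11 k248 12 (.s k15 k7 1 (.s k86 k252 14 (.s
  k82 k94 1 (.d k240 k161 k165 12 14))))))), (.s k2 k1 0 (.s k20 k215 8 (.s k60 k40 5 (.s k22 k41 6
  (.s k21 k23 0 (.d k42 k62 k63 5 6))))))] .n) (.c k60 (.q k16 [(.s k20 k215 8 (.s k28 k24 1 (.s k89
  k211 10 (.s k93 k81 1 (.d k223 k158 k154 8 10))))), (.s k30 k210 9 (.s k154 k223 10 (.s k26 k218 7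
  (.s k18 k22 1 (.s k158 k146 1 (.d k222 k94 k86 7 9)))))), (.s k20 k215 8 (.s k28 k24 1 (.s k30
  k210 9 (.s k31 k29 0 (.s k21 k26 2 (.d k149 k213 k208 7 10))))))] .n) (.c k75 (.q k3 [(.s k1 k2 0
  (.s k20 k215 8 (.s k60 k40 5 (.s k169 k253 13 (.s k131 k188 6 (.d k195 k105 k67 14 7)))))), (.s
  k20 k215 8 (.s k60 k40 5 (.s k22 k41 6 (.s k86 k214 7 (.s k84 k87 0 (.d k252 k168 k169 13
  14)))))), (.s k1 k2 0 (.s k169 k253 13 (.s k11 k248 12 (.s k15 k7 1 (.s k86 k252 14 (.s k82 k94 1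
  (.d k240 k161 k165 12 14))))))), (.s k2 k1 0 (.s k20 k215 8 (.s k60 k40 5 (.s k22 k41 6 (.s k21
  k23 0 (.d k42 k62 k63 5 6))))))] .n) (.c k105 (.f k210 k30 9 (.f k20 k215 8 (.q k106 [(.s k74 k122
  3 (.s k194 k62 13 (.s k14 k134 9 (.d k242 k226 k166 3 13)))), (.s k64 k127 6 (.s k192 k128 7 (.s
  k149 k63 14 (.s k148 k151 0 (.d k60 k40 k104 5 13)))))] (.c k40 (.q k235 [(.s k74 k122 3 (.s k194
  k62 13 (.s k14 k134 9 (.d k242 k226 k166 3 13)))), (.s k64 k127 6 (.s k192 k128 7 (.s k149 k63 14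
  (.s k148 k151 0 (.s k84 k212 7 (.d k104 k124 k60 5 13))))))] .n) (.c k235 (.l (.s k40 k60 5 (.s
  k74 k122 3 (.s k194 k62 13 (.s k14 k134 9 (.d k242 k226 k166 3 13)))))) .n))))) (.c k135 (.l (.s
  k20 k215 8 (.s k30 k210 9 (.s k60 k40 5 (.s k15 k45 4 (.s k105 k195 14 (.s k120 k75 4 (.d k240
  k180 k165 9 14)))))))) (.c k165 (.f k215 k20 8 (.f k30 k210 9 (.q k211 [(.s k28 k89 10 (.s k31 k29
  0 (.s k149 k208 10 (.d k151 k148 k91 0 9)))), (.s k223 k219 1 (.s k16 k154 10 (.s k48 k32 3 (.s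
  k146 k81 8 (.s k195 k97 12 (.s k65 k130 8 (.d k105 k125 k60 5 14)))))))] (.c k89 (.l (.s k223 k219
  1 (.s k154 k16 10 (.s k26 k218 7 (.s k18 k22 1 (.s k158 k146 1 (.d k222 k94 k86 7 9))))))) (.c
  k160 (.q k175 [(.s k28 k89 10 (.s k31 k29 0 (.s k149 k208 10 (.d k151 k148 k91 0 9)))), (.s k223
  k219 1 (.s k16 k154 10 (.s k48 k32 3 (.s k146 k81 8 (.s k195 k97 12 (.s k65 k130 8 (.d k105 k125
  k60 5 14)))))))] (.c k89 (.l (.s k223 k219 1 (.s k154 k16 10 (.s k26 k218 7 (.s k18 k22 1 (.s k158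
  k146 1 (.d k222 k94 k86 7 9))))))) .n)) (.c k175 (.q k160 [(.s k28 k89 10 (.s k31 k29 0 (.s k149
  k208 10 (.d k151 k148 k91 0 9)))), (.s k223 k219 1 (.s k154 k16 10 (.s k26 k218 7 (.s k18 k22 1
  (.s k158 k146 1 (.d k222 k94 k86 7 9))))))] (.c k15 (.q k255 [(.s k195 k235 5 (.s k65 k130 8 (.d
  k105 k125 k60 5 14))), (.s k28 k89 10 (.s k31 k29 0 (.s k149 k208 10 (.d k151 k148 k91 0 9))))]
  .n) (.c k28 (.l (.s k80 k240 11 (.s k223 k219 1 (.s k16 k154 10 (.s k208 k144 7 (.s k149 k31 10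
  (.d k213 k218 k21 2 7))))))) (.c k255 (.q k15 [(.s k60 k45 4 (.s k105 k195 14 (.s k120 k75 4 (.d
  k240 k180 k80 9 11)))), (.s k28 k89 10 (.s k31 k29 0 (.s k149 k208 10 (.d k151 k148 k91 0 9))))]
  .n) .n)))) .n)))))) (.c k180 (.q k3 [(.s k2 k1 0 (.s k20 k215 8 (.s k60 k40 5 (.s k22 k41 6 (.s
  k21 k23 0 (.d k42 k62 k63 5 6)))))), (.s k1 k2 0 (.s k169 k253 13 (.s k11 k248 12 (.s k15 k7 1 (.s
  k86 k252 14 (.s k82 k94 1 (.d k240 k161 k165 12 14))))))), (.s k20 k215 8 (.s k60 k40 5 (.s k22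
  k41 6 (.s k86 k214 7 (.s k84 k87 0 (.d k252 k168 k169 13 14))))))] .n) (.c k195 (.q k3 [(.s k1 k2
  0 (.s k20 k215 8 (.s k60 k40 5 (.s k169 k253 13 (.s k188 k131 6 (.d k252 k86 k124 14 7)))))), (.s
  k2 k1 0 (.s k20 k215 8 (.s k60 k40 5 (.s k22 k41 6 (.s k21 k23 0 (.d k42 k62 k63 5 6)))))), (.s k1
  k2 0 (.s k169 k253 13 (.s k11 k248 12 (.s k15 k7 1 (.s k86 k252 14 (.s k82 k94 1 (.d k240 k161
  k165 12 14))))))), (.s k20 k215 8 (.s k60 k40 5 (.s k22 k41 6 (.s k86 k214 7 (.s k84 k87 0 (.d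
  k252 k168 k169 13 14))))))] (.c k255 (.l (.s k1 k2 0 (.s k30 k210 9 (.s k169 k253 13 (.s k11 k248
  12 (.s k15 k7 1 (.s k60 k45 4 (.d k20 k40 k215 5 8)))))))) .n)) (.c k210 (.q k3 [(.s k1 k2 0 (.s
  k20 k215 8 (.s k60 k40 5 (.s k169 k253 13 (.s k131 k188 6 (.d k195 k105 k67 14 7)))))), (.s k20
  k215 8 (.s k60 k40 5 (.s k22 k41 6 (.s k86 k214 7 (.s k84 k87 0 (.d k252 k168 k169 13 14)))))),
  (.s k1 k2 0 (.s k169 k253 13 (.s k11 k248 12 (.s k15 k7 1 (.s k86 k252 14 (.s k82 k94 1 (.d k240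
  k161 k165 12 14))))))), (.s k2 k1 0 (.s k20 k215 8 (.s k60 k40 5 (.s k22 k41 6 (.s k21 k23 0 (.d
  k42 k62 k63 5 6))))))] .n) (.c k215 (.q k86 [(.s k82 k94 1 (.s k210 k30 9 (.s k18 k146 7 (.s k214
  k22 7 (.d k222 k218 k154 1 9))))), (.s k84 k87 0 (.s k214 k22 7 (.s k252 k168 13 (.s k195 k233 6
  (.s k65 k130 8 (.d k105 k125 k60 5 14)))))), (.s k84 k87 0 (.s k94 k82 1 (.s k252 k168 13 (.s k15
  k173 12 (.s k165 k240 14 (.s k7 k244 12 (.d k3 k169 k11 14 1)))))))] .n) (.c k225 (.l (.s k20 k215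
  8 (.s k30 k210 9 (.s k60 k40 5 (.s k15 k45 4 (.s k105 k195 14 (.s k240 k165 14 (.d k120 k75 k180 4
  9)))))))) (.c k235 (.f k30 k210 9 (.q k60 [(.d k20 k40 k215 5 8), (.s k15 k45 4 (.s k165 k240 14
  (.s k135 k180 4 (.d k195 k105 k75 14 9))))] (.c k40 (.l (.s k105 k195 14 (.s k15 k45 4 (.s k120
  k75 4 (.d k240 k180 k165 9 14))))) (.c k105 (.f k40 k20 5 (.q k1 [(.s k15 k45 4 (.s k169 k253 13
  (.s k11 k248 12 (.d k3 k2 k7 0 1)))), (.s k3 k2 0 (.s k41 k22 6 (.s k21 k61 5 (.d k42 k43 k63 0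
  6)))), (.s k15 k45 4 (.s k165 k240 14 (.s k169 k253 13 (.s k188 k131 6 (.s k252 k124 7 (.d k173
  k161 k94 1 12))))))] .n)) .n)))) (.c k240 (.q k4 [(.s k20 k215 8 (.s k52 k36 3 (.s k101 k199 12
  (.s k117 k69 3 (.d k247 k182 k166 8 12))))), (.s k12 k8 1 (.s k20 k215 8 (.s k36 k52 3 (.s k24 k48
  5 (.s k28 k16 1 (.d k60 k44 k40 3 5)))))), (.s k12 k8 1 (.s k166 k247 12 (.s k134 k182 3 (.s k195
  k73 10 (.s k65 k130 8 (.d k105 k125 k60 5 14))))))] (.c k52 (.l (.s k12 k8 1 (.s k20 k215 8 (.s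
  k60 k40 5 (.s k28 k44 3 (.s k89 k211 10 (.d k166 k247 k243 12 14))))))) .n)) .n))))))))))))))))))

def s10_170_96 : T TT 256 :=
  (.q k16 [(.s k80 k95 2 (.s k154 k223 10 (.s k26 k218 7 (.s k31 k21 2 (.d k208 k144 k149 7 10))))),
  (.s k48 k32 3 (.s k154 k223 10 (.s k26 k218 7 (.s k15 k37 6 (.s k101 k207 14 (.s k112 k79 6 (.d
  k240 k176 k165 7 14))))))), (.s k48 k32 3 (.s k80 k95 2 (.s k154 k223 10 (.s k101 k207 14 (.s k112
  k79 6 (.d k240 k160 k176 11 7))))))] (.c k154 (.l (.s k80 k95 2 (.s k208 k144 7 (.s k149 k31 10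
  (.s k21 k213 7 (.s k63 k42 6 (.s k240 k160 11 (.d k192 k224 k106 3 14)))))))) (.c k223 (.l (.s k48
  k32 3 (.s k80 k95 2 (.s k208 k144 7 (.s k31 k149 10 (.s k26 k21 2 (.s k15 k37 6 (.d k240 k160 k165
  11 14)))))))) .n)))

def s10_170_97 : T TT 256 :=
  (.q k16 [(.s k80 k95 2 (.s k208 k144 7 (.s k149 k31 10 (.s k213 k21 7 (.d k223 k218 k154 2
  10))))), (.s k48 k32 3 (.s k80 k95 2 (.s k144 k208 7 (.s k96 k192 11 (.s k112 k64 3 (.d k240 k176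
  k160 7 11)))))), (.s k48 k32 3 (.s k154 k223 10 (.s k26 k218 7 (.s k15 k37 6 (.s k101 k207 14 (.s
  k112 k79 6 (.d k240 k176 k165 7 14)))))))] (.c k208 (.l (.s k48 k32 3 (.s k80 k95 2 (.s k154 k223
  10 (.s k101 k207 14 (.s k112 k79 6 (.d k240 k176 k160 7 11))))))) .n))

def s10_170_98 : T TT 256 :=
  (.q k16 [(.s k80 k95 2 (.s k208 k144 7 (.s k149 k31 10 (.s k213 k21 7 (.d k223 k218 k154 2
  10))))), (.s k48 k32 3 (.s k80 k95 2 (.s k144 k208 7 (.s k96 k192 11 (.s k112 k64 3 (.d k240 k176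
  k160 7 11)))))), (.s k48 k32 3 (.s k154 k223 10 (.s k26 k218 7 (.s k15 k37 6 (.s k101 k207 14 (.s
  k112 k79 6 (.d k240 k176 k165 7 14)))))))] (.c k208 (.l (.s k48 k32 3 (.s k80 k95 2 (.s k154 k223
  10 (.s k101 k207 14 (.s k112 k79 6 (.d k240 k176 k160 7 11))))))) .n))

def s10_170_99 : T TT 256 :=
  (.q k16 [(.s k80 k95 2 (.s k208 k144 7 (.s k149 k31 10 (.s k213 k21 7 (.d k223 k218 k154 2
  10))))), (.s k48 k32 3 (.s k80 k95 2 (.s k144 k208 7 (.s k96 k192 11 (.s k112 k64 3 (.d k240 k176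
  k160 7 11)))))), (.s k48 k32 3 (.s k154 k223 10 (.s k26 k218 7 (.s k15 k37 6 (.s k101 k207 14 (.s
  k112 k79 6 (.d k240 k176 k165 7 14)))))))] (.c k208 (.l (.s k48 k32 3 (.s k80 k95 2 (.s k154 k223
  10 (.s k101 k207 14 (.s k112 k79 6 (.d k240 k176 k160 7 11))))))) .n))

def s10_170_100 : T TT 256 :=
  (.q k16 [(.s k80 k95 2 (.s k208 k144 7 (.s k149 k31 10 (.s k213 k21 7 (.d k223 k218 k154 2
  10))))), (.s k48 k32 3 (.s k80 k95 2 (.s k144 k208 7 (.s k96 k192 11 (.s k112 k64 3 (.d k240 k176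
  k160 7 11)))))), (.s k48 k32 3 (.s k154 k223 10 (.s k26 k218 7 (.s k15 k37 6 (.s k101 k207 14 (.s
  k112 k79 6 (.d k240 k176 k165 7 14)))))))] (.c k208 (.l (.s k48 k32 3 (.s k80 k95 2 (.s k154 k223
  10 (.s k101 k207 14 (.s k112 k79 6 (.d k240 k176 k160 7 11))))))) .n))

def s10_170_101 : T TT 256 :=
  (.f k80 k95 2 (.q k16 [(.s k208 k144 7 (.s k149 k31 10 (.s k213 k21 7 (.d k223 k218 k154 2 10)))),
  (.s k144 k208 7 (.s k160 k240 11 (.s k128 k176 3 (.s k192 k64 7 (.d k48 k32 k96 3 11))))), (.s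
  k154 k223 10 (.s k240 k160 11 (.s k165 k15 14 (.s k176 k143 6 (.d k48 k32 k112 3 7)))))] (.c k32
  (.q k239 [(.s k208 k144 7 (.s k149 k31 10 (.s k213 k21 7 (.d k223 k218 k154 2 10)))), (.s k223
  k154 10 (.s k240 k160 11 (.s k165 k15 14 (.s k245 k5 11 (.d k255 k207 k250 3 2)))))] (.c k154 (.l
  (.s k208 k144 7 (.s k149 k31 10 (.s k21 k213 7 (.s k63 k42 6 (.s k240 k160 11 (.d k192 k224 k106 3
  14))))))) (.c k223 (.l (.s k208 k144 7 (.s k31 k149 10 (.s k26 k21 2 (.s k240 k160 11 (.s k224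
  k192 3 (.s k229 k234 2 (.d k218 k154 k207 7 6)))))))) .n))) (.c k239 (.l (.s k32 k48 3 (.s k154
  k223 10 (.s k26 k218 7 (.s k31 k21 2 (.d k208 k144 k149 7 10)))))) .n))))

def s10_170_102 : T TT 256 :=
  (.f k80 k95 2 (.f k160 k240 11 (.q k16 [(.s k144 k208 7 (.s k128 k176 3 (.s k192 k64 7 (.d k48 k32
  k96 3 11)))), (.s k154 k223 10 (.s k26 k218 7 (.s k31 k21 2 (.d k208 k144 k149 7 10)))), (.s k48
  k32 3 (.s k154 k223 10 (.s k101 k207 14 (.s k112 k79 6 (.s k64 k96 3 (.s k117 k69 3 (.d k127 k122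
  k106 2 6)))))))] (.c k34 (.q k238 [(.s k144 k208 7 (.s k128 k176 3 (.s k192 k64 7 (.d k48 k32 k96
  3 11)))), (.s k154 k223 10 (.s k26 k218 7 (.s k31 k21 2 (.d k208 k144 k149 7 10)))), (.s k48 k32 3
  (.s k154 k223 10 (.s k101 k207 14 (.s k112 k79 6 (.s k64 k96 3 (.s k117 k69 3 (.d k127 k122 k106 2
  6)))))))] .n) (.c k238 (.q k34 [(.s k144 k208 7 (.s k128 k176 3 (.s k192 k64 7 (.d k48 k32 k96 3
  11)))), (.s k154 k223 10 (.s k26 k218 7 (.s k31 k21 2 (.d k208 k144 k149 7 10)))), (.s k17 k51 4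
  (.s k18 k19 0 (.s k2 k50 3 (.s k3 k1 0 (.d k48 k32 k33 3 4)))))] .n) .n)))))

def s10_170_103 : T TT 256 :=
  (.q k16 [(.s k80 k95 2 (.s k208 k144 7 (.s k149 k31 10 (.s k213 k21 7 (.d k223 k218 k154 2
  10))))), (.s k48 k32 3 (.s k80 k95 2 (.s k144 k208 7 (.s k96 k192 11 (.s k112 k64 3 (.d k240 k176
  k160 7 11)))))), (.s k48 k32 3 (.s k154 k223 10 (.s k26 k218 7 (.s k15 k37 6 (.s k101 k207 14 (.s
  k112 k79 6 (.d k240 k176 k165 7 14)))))))] (.c k208 (.l (.s k48 k32 3 (.s k80 k95 2 (.s k154 k223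
  10 (.s k101 k207 14 (.s k112 k79 6 (.d k240 k176 k160 7 11))))))) .n))

def s10_170_104 : T TT 256 :=
  (.q k16 [(.s k80 k95 2 (.s k208 k144 7 (.s k149 k31 10 (.s k213 k21 7 (.d k223 k218 k154 2
  10))))), (.s k48 k32 3 (.s k80 k95 2 (.s k144 k208 7 (.s k96 k192 11 (.s k112 k64 3 (.d k240 k176
  k160 7 11)))))), (.s k48 k32 3 (.s k154 k223 10 (.s k26 k218 7 (.s k15 k37 6 (.s k101 k207 14 (.s
  k112 k79 6 (.d k240 k176 k165 7 14)))))))] (.c k208 (.l (.s k48 k32 3 (.s k80 k95 2 (.s k154 k223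
  10 (.s k101 k207 14 (.s k112 k79 6 (.d k240 k176 k160 7 11))))))) .n))

def s10_170_105 : T TT 256 :=
  (.f k80 k95 2 (.f k160 k240 11 (.q k16 [(.s k144 k208 7 (.s k128 k176 3 (.s k192 k64 7 (.d k48 k32
  k96 3 11)))), (.s k154 k223 10 (.s k26 k218 7 (.s k31 k21 2 (.d k208 k144 k149 7 10)))), (.s k48
  k32 3 (.s k154 k223 10 (.s k101 k207 14 (.s k112 k79 6 (.s k64 k96 3 (.s k117 k69 3 (.d k127 k122
  k106 2 6)))))))] (.c k40 (.q k235 [(.s k144 k208 7 (.s k128 k176 3 (.s k192 k64 7 (.d k48 k32 k96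
  3 11)))), (.s k154 k223 10 (.s k26 k218 7 (.s k31 k21 2 (.d k208 k144 k149 7 10)))), (.s k48 k32 3
  (.s k154 k223 10 (.s k101 k207 14 (.s k112 k79 6 (.s k64 k96 3 (.s k117 k69 3 (.d k127 k122 k106 2
  6)))))))] .n) (.c k235 (.q k40 [(.s k144 k208 7 (.s k128 k176 3 (.s k192 k64 7 (.d k48 k32 k96 3
  11)))), (.s k154 k223 10 (.s k26 k218 7 (.s k31 k21 2 (.d k208 k144 k149 7 10)))), (.s k20 k60 5
  (.s k24 k28 1 (.s k8 k56 3 (.s k12 k4 1 (.d k48 k32 k36 3 5)))))] .n) .n)))))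

def s10_170_106 : T TT 256 :=
  (.f k80 k95 2 (.q k154 [(.s k16 k223 10 (.s k26 k218 7 (.s k31 k21 2 (.d k208 k144 k149 7 10)))),
  (.s k218 k26 7 (.s k240 k160 11 (.s k207 k229 6 (.s k69 k138 10 (.d k101 k117 k48 3 14))))), (.s
  k16 k223 10 (.s k48 k32 3 (.s k101 k207 14 (.s k112 k79 6 (.d k240 k176 k160 7 11)))))] (.c k42
  (.q k234 [(.s k16 k223 10 (.s k26 k218 7 (.s k31 k21 2 (.d k208 k144 k149 7 10)))), (.s k240 k160
  11 (.s k165 k15 14 (.s k176 k143 6 (.s k48 k112 7 (.s k207 k101 14 (.d k218 k26 k229 7 6))))))]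
  (.c k26 (.q k58 [(.s k240 k160 11 (.s k165 k15 14 (.s k176 k143 6 (.s k48 k112 7 (.d k16 k32 k223
  3 10))))), (.s k16 k223 10 (.s k48 k32 3 (.s k53 k63 2 (.s k101 k207 14 (.s k144 k208 7 (.d k149
  k159 k197 2 11)))))), (.s k16 k223 10 (.s k144 k208 7 (.s k160 k240 11 (.s k128 k176 3 (.s k192
  k64 7 (.d k48 k32 k96 3 11))))))] (.c k16 (.q k149 [(.s k144 k159 2 (.s k160 k240 11 (.s k128 k176
  3 (.s k192 k64 7 (.d k213 k21 k255 7 6))))), (.s k21 k213 7 (.s k240 k160 11 (.s k165 k15 14 (.s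
  k5 k245 11 (.s k133 k181 3 (.s k197 k69 7 (.d k53 k37 k101 3 11))))))), (.s k31 k208 10 (.s k144
  k159 2 (.s k213 k21 7 (.s k192 k255 6 (.s k64 k128 7 (.d k96 k112 k48 3 11))))))] (.c k21 (.l (.s
  k31 k208 10 (.s k240 k160 11 (.s k165 k15 14 (.s k176 k143 6 (.s k48 k112 7 (.s k53 k63 2 (.d k101
  k207 k197 14 11)))))))) (.c k31 (.l (.s k21 k213 7 (.s k240 k160 11 (.s k165 k15 14 (.s k5 k245 11
  (.s k133 k181 3 (.s k197 k69 7 (.d k53 k37 k101 3 11)))))))) (.c k48 (.l (.s k31 k208 10 (.s k144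
  k159 2 (.s k160 k240 11 (.s k213 k21 7 (.s k192 k255 6 (.d k128 k176 k64 3 7))))))) (.c k213 (.l
  (.s k240 k160 11 (.s k165 k15 14 (.s k176 k143 6 (.s k48 k112 7 (.s k53 k63 2 (.d k101 k207 k197
  14 11))))))) (.c k255 (.l (.s k21 k213 7 (.s k208 k31 10 (.s k240 k160 11 (.s k192 k224 3 (.s k64
  k128 7 (.s k96 k112 3 (.d k144 k159 k48 2 11)))))))) .n)))))) (.c k32 (.l (.s k16 k223 10 (.s k144
  k208 7 (.s k160 k240 11 (.s k128 k176 3 (.s k192 k64 7 (.s k213 k255 6 (.d k149 k159 k21 2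
  7)))))))) (.c k48 (.l (.s k16 k223 10 (.s k208 k144 7 (.s k240 k160 11 (.s k192 k224 3 (.s k213
  k255 6 (.d k149 k31 k21 10 7))))))) (.c k223 (.q k159 [(.s k240 k160 11 (.s k165 k15 14 (.s k176
  k143 6 (.s k48 k112 7 (.s k63 k53 2 (.d k207 k111 k101 11 14)))))), (.s k149 k144 2 (.s k208 k31
  10 (.s k240 k160 11 (.s k192 k224 3 (.d k213 k21 k255 7 6))))), (.s k144 k149 2 (.s k16 k208 7 (.s
  k48 k32 3 (.s k63 k53 2 (.d k207 k101 k111 14 11)))))] .n) .n))))) (.c k58 (.l (.s k26 k218 7 (.s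
  k16 k223 10 (.s k31 k21 2 (.d k208 k144 k149 7 10))))) (.c k218 (.l (.s k16 k223 10 (.s k48 k32 3
  (.s k101 k207 14 (.s k112 k79 6 (.d k240 k176 k160 7 11)))))) .n)))) (.c k234 (.q k42 [(.s k16
  k223 10 (.s k21 k63 6 (.d k26 k31 k218 2 7))), (.s k218 k26 7 (.s k240 k160 11 (.s k207 k229 6 (.s
  k69 k138 10 (.d k101 k117 k48 3 14)))))] (.c k26 (.l (.s k16 k223 10 (.s k21 k63 6 (.s k144 k208 7
  (.d k149 k159 k213 2 7))))) (.c k218 (.l (.s k16 k223 10 (.s k21 k63 6 (.s k31 k26 2 (.d k149 k213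
  k208 7 10))))) .n))) .n))))

def s10_170_107 : T TT 256 :=
  (.q k16 [(.s k80 k95 2 (.s k208 k144 7 (.s k149 k31 10 (.s k213 k21 7 (.d k223 k218 k154 2
  10))))), (.s k48 k32 3 (.s k80 k95 2 (.s k144 k208 7 (.s k96 k192 11 (.s k112 k64 3 (.d k240 k176
  k160 7 11)))))), (.s k48 k32 3 (.s k154 k223 10 (.s k26 k218 7 (.s k15 k37 6 (.s k101 k207 14 (.s
  k112 k79 6 (.d k240 k176 k165 7 14)))))))] (.c k208 (.l (.s k48 k32 3 (.s k80 k95 2 (.s k154 k223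
  10 (.s k101 k207 14 (.s k112 k79 6 (.d k240 k176 k160 7 11))))))) .n))

def s10_170_108 : T TT 256 :=
  (.q k16 [(.s k80 k95 2 (.s k208 k144 7 (.s k149 k31 10 (.s k213 k21 7 (.d k223 k218 k154 2
  10))))), (.s k48 k32 3 (.s k80 k95 2 (.s k144 k208 7 (.s k96 k192 11 (.s k112 k64 3 (.d k240 k176
  k160 7 11)))))), (.s k48 k32 3 (.s k154 k223 10 (.s k26 k218 7 (.s k15 k37 6 (.s k101 k207 14 (.s
  k112 k79 6 (.d k240 k176 k165 7 14)))))))] (.c k208 (.l (.s k48 k32 3 (.s k80 k95 2 (.s k154 k223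
  10 (.s k101 k207 14 (.s k112 k79 6 (.d k240 k176 k160 7 11))))))) .n))

def s10_170_109 : T TT 256 :=
  (.q k16 [(.s k80 k95 2 (.s k208 k144 7 (.s k149 k31 10 (.s k213 k21 7 (.d k223 k218 k154 2
  10))))), (.s k48 k32 3 (.s k80 k95 2 (.s k144 k208 7 (.s k96 k192 11 (.s k112 k64 3 (.d k240 k176
  k160 7 11)))))), (.s k48 k32 3 (.s k154 k223 10 (.s k26 k218 7 (.s k15 k37 6 (.s k101 k207 14 (.s
  k112 k79 6 (.d k240 k176 k165 7 14)))))))] (.c k208 (.l (.s k48 k32 3 (.s k80 k95 2 (.s k154 k223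
  10 (.s k101 k207 14 (.s k112 k79 6 (.d k240 k176 k160 7 11))))))) .n))

def s10_170_110 : T TT 256 :=
  (.q k16 [(.s k80 k95 2 (.s k208 k144 7 (.s k149 k31 10 (.s k213 k21 7 (.d k223 k218 k154 2
  10))))), (.s k48 k32 3 (.s k80 k95 2 (.s k144 k208 7 (.s k96 k192 11 (.s k112 k64 3 (.d k240 k176
  k160 7 11)))))), (.s k48 k32 3 (.s k154 k223 10 (.s k26 k218 7 (.s k15 k37 6 (.s k101 k207 14 (.s
  k112 k79 6 (.d k240 k176 k165 7 14)))))))] (.c k208 (.l (.s k48 k32 3 (.s k80 k95 2 (.s k154 k223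
  10 (.s k101 k207 14 (.s k112 k79 6 (.d k240 k176 k160 7 11))))))) .n))

def s10_170_111 : T TT 256 :=
  (.q k16 [(.s k80 k95 2 (.s k208 k144 7 (.s k149 k31 10 (.s k213 k21 7 (.d k223 k218 k154 2
  10))))), (.s k48 k32 3 (.s k80 k95 2 (.s k144 k208 7 (.s k96 k192 11 (.s k112 k64 3 (.d k240 k176
  k160 7 11)))))), (.s k48 k32 3 (.s k154 k223 10 (.s k26 k218 7 (.s k15 k37 6 (.s k101 k207 14 (.s
  k240 k165 14 (.d k112 k79 k176 6 7)))))))] (.c k79 (.l (.s k95 k80 2 (.s k223 k154 10 (.s k31 k159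
  7 (.s k21 k26 2 (.d k149 k213 k208 7 10)))))) (.c k208 (.l (.s k48 k32 3 (.s k80 k95 2 (.s k154
  k223 10 (.s k101 k207 14 (.s k240 k160 11 (.d k112 k79 k176 6 7))))))) .n)))

def s10_170_112 : T TT 256 :=
  (.q k16 [(.s k80 k95 2 (.s k208 k144 7 (.s k149 k31 10 (.s k213 k21 7 (.d k223 k218 k154 2
  10))))), (.s k48 k32 3 (.s k80 k95 2 (.s k144 k208 7 (.s k160 k240 11 (.s k128 k176 3 (.d k192 k64
  k96 7 11)))))), (.s k48 k32 3 (.s k154 k223 10 (.s k26 k218 7 (.s k15 k37 6 (.s k165 k240 14 (.s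
  k143 k176 6 (.d k207 k101 k79 14 7)))))))] (.c k208 (.l (.s k48 k32 3 (.s k80 k95 2 (.s k154 k223
  10 (.s k218 k26 7 (.s k240 k160 11 (.d k207 k101 k229 14 6))))))) .n))

def s10_170_113 : T TT 256 :=
  (.q k16 [(.s k80 k95 2 (.s k208 k144 7 (.s k149 k31 10 (.s k213 k21 7 (.d k223 k218 k154 2
  10))))), (.s k48 k32 3 (.s k80 k95 2 (.s k144 k208 7 (.s k96 k192 11 (.s k112 k64 3 (.d k240 k176
  k160 7 11)))))), (.s k48 k32 3 (.s k154 k223 10 (.s k26 k218 7 (.s k15 k37 6 (.s k101 k207 14 (.s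
  k112 k79 6 (.d k240 k176 k165 7 14)))))))] (.c k208 (.l (.s k48 k32 3 (.s k80 k95 2 (.s k154 k223
  10 (.s k101 k207 14 (.s k112 k79 6 (.d k240 k176 k160 7 11))))))) .n))

def s10_170_114 : T TT 256 :=
  (.q k16 [(.s k80 k95 2 (.s k208 k144 7 (.s k149 k31 10 (.s k213 k21 7 (.d k223 k218 k154 2
  10))))), (.s k48 k32 3 (.s k80 k95 2 (.s k144 k208 7 (.s k96 k192 11 (.s k112 k64 3 (.d k240 k176
  k160 7 11)))))), (.s k48 k32 3 (.s k154 k223 10 (.s k26 k218 7 (.s k15 k37 6 (.s k101 k207 14 (.s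
  k112 k79 6 (.d k240 k176 k165 7 14)))))))] (.c k208 (.l (.s k48 k32 3 (.s k80 k95 2 (.s k154 k223
  10 (.s k101 k207 14 (.s k112 k79 6 (.d k240 k176 k160 7 11))))))) .n))

def s10_170_115 : T TT 256 :=
  (.q k16 [(.s k80 k95 2 (.s k208 k144 7 (.s k149 k31 10 (.s k213 k21 7 (.d k223 k218 k154 2
  10))))), (.s k48 k32 3 (.s k80 k95 2 (.s k144 k208 7 (.s k96 k192 11 (.s k112 k64 3 (.d k240 k176
  k160 7 11)))))), (.s k48 k32 3 (.s k154 k223 10 (.s k26 k218 7 (.s k15 k37 6 (.s k101 k207 14 (.s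
  k112 k79 6 (.d k240 k176 k165 7 14)))))))] (.c k208 (.l (.s k48 k32 3 (.s k80 k95 2 (.s k154 k223
  10 (.s k101 k207 14 (.s k112 k79 6 (.d k240 k176 k160 7 11))))))) .n))

def s10_170_116 : T TT 256 :=
  (.q k16 [(.s k80 k95 2 (.s k208 k144 7 (.s k149 k31 10 (.s k213 k21 7 (.d k223 k218 k154 2
  10))))), (.s k48 k32 3 (.s k80 k95 2 (.s k144 k208 7 (.s k96 k192 11 (.s k112 k64 3 (.d k240 k176
  k160 7 11)))))), (.s k48 k32 3 (.s k154 k223 10 (.s k26 k218 7 (.s k15 k37 6 (.s k101 k207 14 (.s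
  k112 k79 6 (.d k240 k176 k165 7 14)))))))] (.c k208 (.l (.s k48 k32 3 (.s k80 k95 2 (.s k154 k223
  10 (.s k101 k207 14 (.s k112 k79 6 (.d k240 k176 k160 7 11))))))) .n))

def s10_170_117 : T TT 256 :=
  (.q k16 [(.s k80 k95 2 (.s k208 k144 7 (.s k149 k31 10 (.s k213 k21 7 (.d k223 k218 k154 2
  10))))), (.s k48 k32 3 (.s k80 k95 2 (.s k144 k208 7 (.s k96 k192 11 (.s k112 k64 3 (.d k240 k176
  k160 7 11)))))), (.s k48 k32 3 (.s k154 k223 10 (.s k26 k218 7 (.s k15 k37 6 (.s k101 k207 14 (.s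
  k112 k79 6 (.d k240 k176 k165 7 14)))))))] (.c k208 (.l (.s k48 k32 3 (.s k80 k95 2 (.s k154 k223
  10 (.s k101 k207 14 (.s k112 k79 6 (.d k240 k176 k160 7 11))))))) .n))

def s10_170_118 : T TT 256 :=
  (.q k16 [(.s k80 k95 2 (.s k208 k144 7 (.s k149 k31 10 (.s k213 k21 7 (.d k223 k218 k154 2
  10))))), (.s k48 k32 3 (.s k80 k95 2 (.s k144 k208 7 (.s k96 k192 11 (.s k112 k64 3 (.d k240 k176
  k160 7 11)))))), (.s k48 k32 3 (.s k154 k223 10 (.s k26 k218 7 (.s k15 k37 6 (.s k101 k207 14 (.s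
  k112 k79 6 (.d k240 k176 k165 7 14)))))))] (.c k208 (.l (.s k48 k32 3 (.s k80 k95 2 (.s k154 k223
  10 (.s k101 k207 14 (.s k112 k79 6 (.d k240 k176 k160 7 11))))))) .n))

def s10_170_119 : T TT 256 :=
  (.q k16 [(.s k80 k95 2 (.s k208 k144 7 (.s k149 k31 10 (.s k213 k21 7 (.d k223 k218 k154 2
  10))))), (.s k48 k32 3 (.s k80 k95 2 (.s k144 k208 7 (.s k96 k192 11 (.s k112 k64 3 (.d k240 k176
  k160 7 11)))))), (.s k48 k32 3 (.s k154 k223 10 (.s k26 k218 7 (.s k15 k37 6 (.s k101 k207 14 (.s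
  k112 k79 6 (.d k240 k176 k165 7 14)))))))] (.c k208 (.l (.s k48 k32 3 (.s k80 k95 2 (.s k154 k223
  10 (.s k101 k207 14 (.s k112 k79 6 (.d k240 k176 k160 7 11))))))) .n))

def s10_170_120 : T TT 256 :=
  (.q k16 [(.s k80 k95 2 (.s k208 k144 7 (.s k149 k31 10 (.s k213 k21 7 (.d k223 k218 k154 2
  10))))), (.s k48 k32 3 (.s k80 k95 2 (.s k144 k208 7 (.s k96 k192 11 (.s k112 k64 3 (.d k240 k176
  k160 7 11)))))), (.s k48 k32 3 (.s k154 k223 10 (.s k26 k218 7 (.s k15 k37 6 (.s k101 k207 14 (.s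
  k112 k79 6 (.d k240 k176 k165 7 14)))))))] (.c k208 (.l (.s k48 k32 3 (.s k80 k95 2 (.s k154 k223
  10 (.s k101 k207 14 (.s k112 k79 6 (.d k240 k176 k160 7 11))))))) .n))

def s10_170_121 : T TT 256 :=
  (.q k16 [(.s k80 k95 2 (.s k208 k144 7 (.s k149 k31 10 (.s k213 k21 7 (.d k223 k218 k154 2
  10))))), (.s k48 k32 3 (.s k80 k95 2 (.s k144 k208 7 (.s k96 k192 11 (.s k112 k64 3 (.d k240 k176
  k160 7 11)))))), (.s k48 k32 3 (.s k154 k223 10 (.s k26 k218 7 (.s k15 k37 6 (.s k101 k207 14 (.s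
  k112 k79 6 (.d k240 k176 k165 7 14)))))))] (.c k208 (.l (.s k48 k32 3 (.s k80 k95 2 (.s k154 k223
  10 (.s k101 k207 14 (.s k112 k79 6 (.d k240 k176 k160 7 11))))))) .n))

def s10_170_122 : T TT 256 :=
  (.q k16 [(.s k80 k95 2 (.s k208 k144 7 (.s k149 k31 10 (.s k213 k21 7 (.d k223 k218 k154 2
  10))))), (.s k48 k32 3 (.s k80 k95 2 (.s k144 k208 7 (.s k96 k192 11 (.s k112 k64 3 (.d k240 k176
  k160 7 11)))))), (.s k48 k32 3 (.s k154 k223 10 (.s k26 k218 7 (.s k15 k37 6 (.s k101 k207 14 (.s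
  k112 k79 6 (.d k240 k176 k165 7 14)))))))] (.c k208 (.l (.s k48 k32 3 (.s k80 k95 2 (.s k154 k223
  10 (.s k101 k207 14 (.s k112 k79 6 (.d k240 k176 k160 7 11))))))) .n))

def s10_170_123 : T TT 256 :=
  (.q k16 [(.s k80 k95 2 (.s k208 k144 7 (.s k149 k31 10 (.s k213 k21 7 (.d k223 k218 k154 2
  10))))), (.s k48 k32 3 (.s k80 k95 2 (.s k144 k208 7 (.s k96 k192 11 (.s k112 k64 3 (.d k240 k176
  k160 7 11)))))), (.s k48 k32 3 (.s k154 k223 10 (.s k26 k218 7 (.s k15 k37 6 (.s k101 k207 14 (.s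
  k112 k79 6 (.d k240 k176 k165 7 14)))))))] (.c k208 (.l (.s k48 k32 3 (.s k80 k95 2 (.s k154 k223
  10 (.s k101 k207 14 (.s k112 k79 6 (.d k240 k176 k160 7 11))))))) .n))

def s10_170_124 : T TT 256 :=
  (.q k16 [(.s k80 k95 2 (.s k208 k144 7 (.s k149 k31 10 (.s k213 k21 7 (.d k223 k218 k154 2
  10))))), (.s k48 k32 3 (.s k80 k95 2 (.s k144 k208 7 (.s k96 k192 11 (.s k112 k64 3 (.d k240 k176
  k160 7 11)))))), (.s k48 k32 3 (.s k154 k223 10 (.s k26 k218 7 (.s k15 k37 6 (.s k101 k207 14 (.s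
  k112 k79 6 (.d k240 k176 k165 7 14)))))))] (.c k208 (.l (.s k48 k32 3 (.s k80 k95 2 (.s k154 k223
  10 (.s k101 k207 14 (.s k112 k79 6 (.d k240 k176 k160 7 11))))))) .n))

def s10_170_125 : T TT 256 :=
  (.q k16 [(.s k80 k95 2 (.s k208 k144 7 (.s k149 k31 10 (.s k213 k21 7 (.d k223 k218 k154 2
  10))))), (.s k48 k32 3 (.s k80 k95 2 (.s k144 k208 7 (.s k96 k192 11 (.s k112 k64 3 (.d k240 k176
  k160 7 11)))))), (.s k48 k32 3 (.s k154 k223 10 (.s k26 k218 7 (.s k15 k37 6 (.s k101 k207 14 (.s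
  k112 k79 6 (.d k240 k176 k165 7 14)))))))] (.c k208 (.l (.s k48 k32 3 (.s k80 k95 2 (.s k154 k223
  10 (.s k101 k207 14 (.s k112 k79 6 (.d k240 k176 k160 7 11))))))) .n))

def s10_170_126 : T TT 256 :=
  (.q k16 [(.s k80 k95 2 (.s k208 k144 7 (.s k149 k31 10 (.s k213 k21 7 (.d k223 k218 k154 2
  10))))), (.s k48 k32 3 (.s k80 k95 2 (.s k144 k208 7 (.s k96 k192 11 (.s k112 k64 3 (.d k240 k176
  k160 7 11)))))), (.s k48 k32 3 (.s k154 k223 10 (.s k26 k218 7 (.s k15 k37 6 (.s k101 k207 14 (.s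
  k112 k79 6 (.d k240 k176 k165 7 14)))))))] (.c k208 (.l (.s k48 k32 3 (.s k80 k95 2 (.s k154 k223
  10 (.s k101 k207 14 (.s k112 k79 6 (.d k240 k176 k160 7 11))))))) .n))

def s10_170_127 : T TT 256 :=
  (.q k16 [(.s k80 k95 2 (.s k208 k144 7 (.s k149 k31 10 (.s k213 k21 7 (.d k223 k218 k154 2
  10))))), (.s k48 k32 3 (.s k80 k95 2 (.s k144 k208 7 (.s k96 k192 11 (.s k112 k64 3 (.d k240 k176
  k160 7 11)))))), (.s k48 k32 3 (.s k154 k223 10 (.s k26 k218 7 (.s k15 k37 6 (.s k101 k207 14 (.s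
  k240 k165 14 (.d k112 k79 k176 6 7)))))))] (.c k79 (.l (.s k95 k80 2 (.s k223 k154 10 (.s k31 k159
  7 (.s k21 k26 2 (.d k149 k213 k208 7 10)))))) (.c k208 (.l (.s k48 k32 3 (.s k80 k95 2 (.s k154
  k223 10 (.s k101 k207 14 (.s k240 k160 11 (.d k112 k79 k176 6 7))))))) .n)))

def s10_170_128 : T TT 256 :=
  (.q k149 [(.s k21 k213 7 (.s k31 k208 10 (.s k95 k80 2 (.s k223 k159 7 (.d k16 k26 k154 2 10))))),
  (.s k21 k213 7 (.s k63 k42 6 (.s k80 k95 2 (.s k106 k192 14 (.s k122 k74 3 (.d k240 k181 k160 10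
  11)))))), (.s k80 k95 2 (.s k208 k31 10 (.s k240 k160 11 (.s k165 k15 14 (.s k181 k133 3 (.s k63
  k122 10 (.d k192 k224 k106 3 14))))))), (.s k21 k213 7 (.s k31 k208 10 (.s k63 k42 6 (.s k15 k47 3
  (.s k106 k192 14 (.s k122 k74 3 (.d k240 k181 k165 10 14)))))))] .n)

def s10_170_129 : T TT 256 :=
  (.q k16 [(.s k80 k95 2 (.s k208 k144 7 (.s k149 k31 10 (.s k213 k21 7 (.d k223 k218 k154 2
  10))))), (.s k48 k32 3 (.s k80 k95 2 (.s k144 k208 7 (.s k96 k192 11 (.s k112 k64 3 (.d k240 k176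
  k160 7 11)))))), (.s k48 k32 3 (.s k154 k223 10 (.s k26 k218 7 (.s k15 k37 6 (.s k101 k207 14 (.s
  k112 k79 6 (.d k240 k176 k165 7 14)))))))] (.c k208 (.l (.s k48 k32 3 (.s k80 k95 2 (.s k154 k223
  10 (.s k101 k207 14 (.s k112 k79 6 (.d k240 k176 k160 7 11))))))) .n))

def s10_170_130 : T TT 256 :=
  (.f k80 k95 2 (.q k150 [(.s k20 k215 8 (.s k30 k210 9 (.s k60 k40 5 (.s k15 k45 4 (.d k240 k160
  k165 11 14))))), (.s k20 k215 8 (.s k240 k160 11 (.s k165 k15 14 (.s k180 k135 4 (.d k60 k40 k120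
  5 9))))), (.s k210 k30 9 (.s k240 k160 11 (.s k165 k15 14 (.s k180 k135 4 (.s k60 k120 9 (.d k195
  k225 k105 4 14))))))] (.c k15 (.l (.s k20 k215 8 (.s k60 k40 5 (.s k105 k195 14 (.s k240 k160 11
  (.d k120 k75 k180 4 9)))))) (.c k60 (.l (.s k210 k30 9 (.s k215 k20 8 (.s k240 k160 11 (.s k195
  k225 4 (.s k255 k235 5 (.s k245 k250 2 (.d k165 k15 k5 14 11)))))))) (.c k160 (.l (.s k20 k215 8
  (.s k30 k210 9 (.s k60 k40 5 (.s k15 k45 4 (.s k105 k195 14 (.s k120 k75 4 (.d k240 k180 k165 9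
  14)))))))) (.c k165 (.l (.s k20 k215 8 (.s k60 k40 5 (.s k105 k195 14 (.s k120 k75 4 (.d k240 k180
  k160 9 11)))))) (.c k240 (.q k3 [(.s k2 k1 0 (.s k20 k215 8 (.s k60 k40 5 (.s k22 k41 6 (.s k21
  k23 0 (.d k42 k62 k63 5 6)))))), (.s k1 k2 0 (.s k169 k253 13 (.s k86 k252 14 (.s k82 k94 1 (.s
  k83 k81 0 (.s k84 k87 0 (.d k92 k88 k89 1 2))))))), (.s k20 k215 8 (.s k60 k40 5 (.s k22 k41 6 (.s
  k86 k214 7 (.s k84 k87 0 (.d k252 k168 k169 13 14))))))] (.c k87 (.l (.s k1 k2 0 (.s k20 k215 8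
  (.s k60 k40 5 (.s k22 k41 6 (.s k86 k214 7 (.d k169 k253 k252 13 14))))))) .n)) .n)))))))

def s10_170_131 : T TT 256 :=
  (.q k16 [(.s k80 k95 2 (.s k208 k144 7 (.s k149 k31 10 (.s k213 k21 7 (.d k223 k218 k154 2
  10))))), (.s k48 k32 3 (.s k80 k95 2 (.s k144 k208 7 (.s k96 k192 11 (.s k112 k64 3 (.d k240 k176
  k160 7 11)))))), (.s k48 k32 3 (.s k154 k223 10 (.s k26 k218 7 (.s k15 k37 6 (.s k101 k207 14 (.s
  k112 k79 6 (.d k240 k176 k165 7 14)))))))] (.c k208 (.l (.s k48 k32 3 (.s k80 k95 2 (.s k154 k223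
  10 (.s k101 k207 14 (.s k112 k79 6 (.d k240 k176 k160 7 11))))))) .n))

def s10_170_132 : T TT 256 :=
  (.q k16 [(.s k80 k95 2 (.s k208 k144 7 (.s k149 k31 10 (.s k213 k21 7 (.d k223 k218 k154 2
  10))))), (.s k48 k32 3 (.s k80 k95 2 (.s k144 k208 7 (.s k96 k192 11 (.s k112 k64 3 (.d k240 k176
  k160 7 11)))))), (.s k48 k32 3 (.s k154 k223 10 (.s k26 k218 7 (.s k15 k37 6 (.s k101 k207 14 (.s
  k112 k79 6 (.d k240 k176 k165 7 14)))))))] (.c k208 (.l (.s k48 k32 3 (.s k80 k95 2 (.s k154 k223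
  10 (.s k101 k207 14 (.s k112 k79 6 (.d k240 k176 k160 7 11))))))) .n))

def s10_170_133 : T TT 256 :=
  (.q k16 [(.s k80 k95 2 (.s k208 k144 7 (.s k149 k31 10 (.s k213 k21 7 (.d k223 k218 k154 2
  10))))), (.s k48 k32 3 (.s k80 k95 2 (.s k144 k208 7 (.s k96 k192 11 (.s k112 k64 3 (.d k240 k176
  k160 7 11)))))), (.s k48 k32 3 (.s k154 k223 10 (.s k26 k218 7 (.s k15 k37 6 (.s k101 k207 14 (.s
  k112 k79 6 (.d k240 k176 k165 7 14)))))))] (.c k208 (.l (.s k48 k32 3 (.s k80 k95 2 (.s k154 k223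
  10 (.s k101 k207 14 (.s k112 k79 6 (.d k240 k176 k160 7 11))))))) .n))

def s10_170_134 : T TT 256 :=
  (.q k16 [(.s k80 k95 2 (.s k208 k144 7 (.s k149 k31 10 (.s k213 k21 7 (.d k223 k218 k154 2
  10))))), (.s k48 k32 3 (.s k80 k95 2 (.s k144 k208 7 (.s k96 k192 11 (.s k112 k64 3 (.d k240 k176
  k160 7 11)))))), (.s k48 k32 3 (.s k154 k223 10 (.s k26 k218 7 (.s k15 k37 6 (.s k101 k207 14 (.s
  k112 k79 6 (.d k240 k176 k165 7 14)))))))] (.c k208 (.l (.s k48 k32 3 (.s k80 k95 2 (.s k154 k223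
  10 (.s k101 k207 14 (.s k112 k79 6 (.d k240 k176 k160 7 11))))))) .n))

def s10_170_135 : T TT 256 :=
  (.q k16 [(.s k80 k95 2 (.s k208 k144 7 (.s k149 k31 10 (.s k213 k21 7 (.d k223 k218 k154 2
  10))))), (.s k48 k32 3 (.s k80 k95 2 (.s k144 k208 7 (.s k96 k192 11 (.s k112 k64 3 (.d k240 k176
  k160 7 11)))))), (.s k48 k32 3 (.s k154 k223 10 (.s k26 k218 7 (.s k15 k37 6 (.s k101 k207 14 (.s
  k112 k79 6 (.d k240 k176 k165 7 14)))))))] (.c k208 (.l (.s k48 k32 3 (.s k80 k95 2 (.s k154 k223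
  10 (.s k101 k207 14 (.s k112 k79 6 (.d k240 k176 k160 7 11))))))) .n))

def s10_170_136 : T TT 256 :=
  (.f k80 k95 2 (.q k153 [(.s k17 k221 9 (.s k27 k216 8 (.s k51 k34 4 (.s k15 k39 5 (.d k240 k160
  k165 11 14))))), (.s k17 k221 9 (.s k240 k160 11 (.s k165 k15 14 (.s k177 k141 5 (.d k51 k34 k114
  4 8))))), (.s k216 k27 8 (.s k240 k160 11 (.s k165 k15 14 (.s k177 k141 5 (.s k51 k114 8 (.d k204
  k228 k102 5 14))))))] (.c k15 (.l (.s k17 k221 9 (.s k51 k34 4 (.s k102 k204 14 (.s k240 k160 11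
  (.d k114 k78 k177 5 8)))))) (.c k51 (.l (.s k216 k27 8 (.s k221 k17 9 (.s k240 k160 11 (.s k204
  k228 5 (.s k255 k238 4 (.s k245 k250 2 (.d k165 k15 k5 14 11)))))))) (.c k160 (.l (.s k17 k221 9
  (.s k27 k216 8 (.s k51 k34 4 (.s k15 k39 5 (.s k102 k204 14 (.s k114 k78 5 (.d k240 k177 k165 8
  14)))))))) (.c k165 (.l (.s k17 k221 9 (.s k51 k34 4 (.s k102 k204 14 (.s k114 k78 5 (.d k240 k177
  k160 8 11)))))) (.c k240 (.q k1 [(.s k17 k221 9 (.s k49 k33 3 (.s k101 k205 13 (.s k117 k69 3 (.d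
  k253 k185 k169 9 13))))), (.s k3 k2 0 (.s k17 k221 9 (.s k33 k49 3 (.s k18 k48 4 (.s k19 k16 0 (.d
  k51 k35 k34 3 4)))))), (.s k27 k216 8 (.s k169 k253 13 (.s k11 k248 12 (.s k59 k43 3 (.s k137 k185
  3 (.d k200 k74 k106 8 12))))))] (.c k49 (.l (.s k3 k2 0 (.s k17 k221 9 (.s k51 k34 4 (.s k19 k35 3
  (.s k86 k220 10 (.d k169 k253 k252 13 14))))))) .n)) .n)))))))

def s10_170_137 : T TT 256 :=
  (.q k16 [(.s k80 k95 2 (.s k208 k144 7 (.s k149 k31 10 (.s k213 k21 7 (.d k223 k218 k154 2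
  10))))), (.s k48 k32 3 (.s k80 k95 2 (.s k144 k208 7 (.s k96 k192 11 (.s k112 k64 3 (.d k240 k176
  k160 7 11)))))), (.s k48 k32 3 (.s k154 k223 10 (.s k26 k218 7 (.s k15 k37 6 (.s k101 k207 14 (.s
  k112 k79 6 (.d k240 k176 k165 7 14)))))))] (.c k208 (.l (.s k48 k32 3 (.s k80 k95 2 (.s k154 k223
  10 (.s k101 k207 14 (.s k112 k79 6 (.d k240 k176 k160 7 11))))))) .n))

def s10_170_138 : T TT 256 :=
  (.f k80 k95 2 (.q k154 [(.s k16 k223 10 (.s k26 k218 7 (.s k31 k21 2 (.d k208 k144 k149 7 10)))),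
  (.s k218 k26 7 (.s k240 k160 11 (.s k165 k15 14 (.s k176 k143 6 (.s k48 k112 7 (.d k207 k229 k101
  6 14)))))), (.s k16 k223 10 (.s k48 k32 3 (.s k101 k207 14 (.s k112 k79 6 (.d k240 k176 k160 7
  11)))))] (.c k74 (.q k202 [(.s k16 k223 10 (.s k26 k218 7 (.s k31 k21 2 (.d k208 k144 k149 7
  10)))), (.s k218 k26 7 (.s k240 k160 11 (.s k165 k15 14 (.s k245 k5 11 (.d k250 k255 k234 2
  3))))), (.s k16 k223 10 (.s k48 k32 3 (.s k101 k207 14 (.s k112 k79 6 (.d k240 k176 k160 7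
  11)))))] .n) (.c k202 (.q k74 [(.s k106 k122 3 (.s k64 k127 6 (.s k79 k69 2 (.d k112 k96 k101 3
  6)))), (.s k16 k223 10 (.s k26 k218 7 (.s k31 k21 2 (.d k208 k144 k149 7 10))))] .n) .n))))

def s10_170_139 : T TT 256 :=
  (.q k16 [(.s k80 k95 2 (.s k208 k144 7 (.s k149 k31 10 (.s k213 k21 7 (.d k223 k218 k154 2
  10))))), (.s k48 k32 3 (.s k80 k95 2 (.s k144 k208 7 (.s k96 k192 11 (.s k112 k64 3 (.d k240 k176
  k160 7 11)))))), (.s k48 k32 3 (.s k154 k223 10 (.s k26 k218 7 (.s k15 k37 6 (.s k101 k207 14 (.s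
  k112 k79 6 (.d k240 k176 k165 7 14)))))))] (.c k208 (.l (.s k48 k32 3 (.s k80 k95 2 (.s k154 k223
  10 (.s k101 k207 14 (.s k112 k79 6 (.d k240 k176 k160 7 11))))))) .n))

def s10_170_140 : T TT 256 :=
  (.q k16 [(.s k80 k95 2 (.s k208 k144 7 (.s k149 k31 10 (.s k213 k21 7 (.d k223 k218 k154 2
  10))))), (.s k48 k32 3 (.s k80 k95 2 (.s k144 k208 7 (.s k96 k192 11 (.s k112 k64 3 (.d k240 k176
  k160 7 11)))))), (.s k48 k32 3 (.s k154 k223 10 (.s k26 k218 7 (.s k15 k37 6 (.s k101 k207 14 (.s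
  k112 k79 6 (.d k240 k176 k165 7 14)))))))] (.c k208 (.l (.s k48 k32 3 (.s k80 k95 2 (.s k154 k223
  10 (.s k101 k207 14 (.s k112 k79 6 (.d k240 k176 k160 7 11))))))) .n))

def s10_170_141 : T TT 256 :=
  (.q k16 [(.s k80 k95 2 (.s k208 k144 7 (.s k149 k31 10 (.s k213 k21 7 (.d k223 k218 k154 2
  10))))), (.s k48 k32 3 (.s k80 k95 2 (.s k144 k208 7 (.s k96 k192 11 (.s k112 k64 3 (.d k240 k176
  k160 7 11)))))), (.s k48 k32 3 (.s k154 k223 10 (.s k26 k218 7 (.s k15 k37 6 (.s k101 k207 14 (.s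
  k112 k79 6 (.d k240 k176 k165 7 14)))))))] (.c k208 (.l (.s k48 k32 3 (.s k80 k95 2 (.s k154 k223
  10 (.s k101 k207 14 (.s k112 k79 6 (.d k240 k176 k160 7 11))))))) .n))

def s10_170_142 : T TT 256 :=
  (.q k16 [(.s k80 k95 2 (.s k208 k144 7 (.s k149 k31 10 (.s k213 k21 7 (.d k223 k218 k154 2
  10))))), (.s k48 k32 3 (.s k80 k95 2 (.s k144 k208 7 (.s k96 k192 11 (.s k112 k64 3 (.d k240 k176
  k160 7 11)))))), (.s k48 k32 3 (.s k154 k223 10 (.s k26 k218 7 (.s k15 k37 6 (.s k101 k207 14 (.s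
  k112 k79 6 (.d k240 k176 k165 7 14)))))))] (.c k208 (.l (.s k48 k32 3 (.s k80 k95 2 (.s k154 k223
  10 (.s k101 k207 14 (.s k112 k79 6 (.d k240 k176 k160 7 11))))))) .n))

def s10_170_143 : T TT 256 :=
  (.q k16 [(.s k80 k95 2 (.s k208 k144 7 (.s k149 k31 10 (.s k213 k21 7 (.d k223 k218 k154 2
  10))))), (.s k48 k32 3 (.s k80 k95 2 (.s k144 k208 7 (.s k96 k192 11 (.s k112 k64 3 (.d k240 k176
  k160 7 11)))))), (.s k48 k32 3 (.s k154 k223 10 (.s k26 k218 7 (.s k15 k37 6 (.s k101 k207 14 (.s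
  k112 k79 6 (.d k240 k176 k165 7 14)))))))] (.c k208 (.l (.s k48 k32 3 (.s k80 k95 2 (.s k154 k223
  10 (.s k101 k207 14 (.s k240 k160 11 (.d k112 k79 k176 6 7))))))) .n))

def s10_170_144 : T TT 256 :=
  (.q k64 [(.s k80 k95 2 (.s k106 k127 6 (.s k74 k122 3 (.s k79 k69 2 (.d k112 k96 k101 3 6))))),
  (.s k106 k127 6 (.s k74 k122 3 (.s k192 k128 7 (.s k15 k133 10 (.s k149 k63 14 (.s k208 k31 10 (.d
  k240 k224 k165 3 14))))))), (.s k80 k95 2 (.s k112 k96 3 (.s k79 k101 6 (.s k74 k69 2 (.s k192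
  k128 7 (.s k15 k133 10 (.d k240 k160 k165 11 14)))))))] (.c k74 (.l (.s k80 k95 2 (.s k112 k96 3
  (.s k101 k79 6 (.s k117 k69 3 (.d k127 k122 k106 2 6)))))) (.c k106 (.l (.s k80 k95 2 (.s k112 k96
  3 (.s k101 k79 6 (.s k69 k117 3 (.s k207 k138 10 (.s k240 k160 11 (.d k48 k176 k154 7 14))))))))
  (.c k112 (.l (.s k80 k95 2 (.s k106 k127 6 (.s k122 k74 3 (.s k240 k160 11 (.s k63 k181 10 (.d
  k192 k128 k149 7 14))))))) .n))))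

def s10_170_145 : T TT 256 :=
  (.q k16 [(.s k80 k95 2 (.s k154 k223 10 (.s k26 k218 7 (.s k31 k21 2 (.d k208 k144 k149 7 10))))),
  (.s k48 k32 3 (.s k80 k95 2 (.s k144 k208 7 (.s k96 k192 11 (.s k112 k64 3 (.d k240 k176 k160 7
  11)))))), (.s k48 k32 3 (.s k154 k223 10 (.s k26 k218 7 (.s k15 k37 6 (.s k101 k207 14 (.s k112
  k79 6 (.d k240 k176 k165 7 14)))))))] (.c k208 (.l (.s k48 k32 3 (.s k80 k95 2 (.s k154 k223 10
  (.s k101 k207 14 (.s k112 k79 6 (.d k240 k176 k160 7 11))))))) .n))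

def s10_170_146 : T TT 256 :=
  (.q k16 [(.s k80 k95 2 (.s k154 k223 10 (.s k26 k218 7 (.s k31 k21 2 (.d k208 k144 k149 7 10))))),
  (.s k48 k32 3 (.s k80 k95 2 (.s k144 k208 7 (.s k96 k192 11 (.s k112 k64 3 (.d k240 k176 k160 7
  11)))))), (.s k48 k32 3 (.s k154 k223 10 (.s k26 k218 7 (.s k15 k37 6 (.s k101 k207 14 (.s k112
  k79 6 (.d k240 k176 k165 7 14)))))))] (.c k208 (.l (.s k48 k32 3 (.s k80 k95 2 (.s k154 k223 10
  (.s k101 k207 14 (.s k112 k79 6 (.d k240 k176 k160 7 11))))))) .n))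

def s10_170_147 : T TT 256 :=
  (.q k16 [(.s k80 k95 2 (.s k154 k223 10 (.s k26 k218 7 (.s k31 k21 2 (.d k208 k144 k149 7 10))))),
  (.s k48 k32 3 (.s k80 k95 2 (.s k144 k208 7 (.s k96 k192 11 (.s k112 k64 3 (.d k240 k176 k160 7
  11)))))), (.s k48 k32 3 (.s k154 k223 10 (.s k26 k218 7 (.s k15 k37 6 (.s k101 k207 14 (.s k112
  k79 6 (.d k240 k176 k165 7 14)))))))] (.c k208 (.l (.s k48 k32 3 (.s k80 k95 2 (.s k154 k223 10
  (.s k101 k207 14 (.s k112 k79 6 (.d k240 k176 k160 7 11))))))) .n))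

def s10_170_148 : T TT 256 :=
  (.q k16 [(.s k80 k95 2 (.s k154 k223 10 (.s k26 k218 7 (.s k31 k21 2 (.d k208 k144 k149 7 10))))),
  (.s k48 k32 3 (.s k80 k95 2 (.s k144 k208 7 (.s k96 k192 11 (.s k112 k64 3 (.d k240 k176 k160 7
  11)))))), (.s k48 k32 3 (.s k154 k223 10 (.s k26 k218 7 (.s k15 k37 6 (.s k101 k207 14 (.s k112
  k79 6 (.d k240 k176 k165 7 14)))))))] (.c k208 (.l (.s k48 k32 3 (.s k80 k95 2 (.s k154 k223 10
  (.s k101 k207 14 (.s k112 k79 6 (.d k240 k176 k160 7 11))))))) .n))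

def s10_170_149 : T TT 256 :=
  (.f k80 k95 2 (.q k64 [(.s k112 k96 3 (.s k101 k79 6 (.s k117 k69 3 (.d k127 k122 k106 2 6)))),
  (.s k96 k112 3 (.s k160 k240 11 (.s k32 k224 7 (.s k48 k16 3 (.d k192 k128 k144 7 11))))), (.s
  k106 k127 6 (.s k240 k160 11 (.s k165 k15 14 (.s k224 k47 10 (.d k192 k128 k208 7 3)))))] (.c k128
  (.q k191 [(.s k112 k96 3 (.s k101 k79 6 (.s k117 k69 3 (.d k127 k122 k106 2 6)))), (.s k127 k106 6
  (.s k240 k160 11 (.s k165 k15 14 (.s k245 k5 11 (.d k255 k63 k250 7 2)))))] (.c k106 (.l (.s k112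
  k96 3 (.s k101 k79 6 (.s k69 k117 3 (.s k207 k138 10 (.s k240 k160 11 (.d k48 k176 k154 7
  14))))))) (.c k127 (.l (.s k112 k96 3 (.s k79 k101 6 (.s k74 k69 2 (.s k240 k160 11 (.s k176 k48 7
  (.s k181 k186 2 (.d k122 k106 k63 3 10)))))))) .n))) (.c k191 (.l (.s k128 k192 7 (.s k106 k127 6
  (.s k74 k122 3 (.s k79 k69 2 (.d k112 k96 k101 3 6)))))) .n))))

def s10_170_150 : T TT 256 :=
  (.f k80 k95 2 (.f k160 k240 11 (.q k16 [(.s k144 k208 7 (.s k128 k176 3 (.s k192 k64 7 (.d k48 k32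
  k96 3 11)))), (.s k154 k223 10 (.s k26 k218 7 (.s k31 k21 2 (.d k208 k144 k149 7 10)))), (.s k48
  k32 3 (.s k154 k223 10 (.s k101 k207 14 (.s k112 k79 6 (.s k64 k96 3 (.s k117 k69 3 (.d k127 k122
  k106 2 6)))))))] (.c k130 (.q k190 [(.s k144 k208 7 (.s k128 k176 3 (.s k192 k64 7 (.d k48 k32 k96
  3 11)))), (.s k154 k223 10 (.s k26 k218 7 (.s k31 k21 2 (.d k208 k144 k149 7 10)))), (.s k48 k32 3
  (.s k154 k223 10 (.s k101 k207 14 (.s k112 k79 6 (.s k64 k96 3 (.s k117 k69 3 (.d k127 k122 k106 2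
  6)))))))] .n) (.c k190 (.q k130 [(.s k144 k208 7 (.s k128 k176 3 (.s k192 k64 7 (.d k48 k32 k96 3
  11)))), (.s k154 k223 10 (.s k26 k218 7 (.s k31 k21 2 (.d k208 k144 k149 7 10)))), (.s k48 k32 3
  (.s k195 k65 8 (.s k146 k97 12 (.s k81 k211 8 (.d k162 k178 k243 3 12)))))] .n) .n)))))

def s10_170_151 : T TT 256 :=
  (.q k16 [(.s k80 k95 2 (.s k154 k223 10 (.s k26 k218 7 (.s k31 k21 2 (.d k208 k144 k149 7 10))))),
  (.s k48 k32 3 (.s k80 k95 2 (.s k144 k208 7 (.s k96 k192 11 (.s k112 k64 3 (.d k240 k176 k160 7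
  11)))))), (.s k48 k32 3 (.s k154 k223 10 (.s k26 k218 7 (.s k15 k37 6 (.s k101 k207 14 (.s k112
  k79 6 (.d k240 k176 k165 7 14)))))))] (.c k208 (.l (.s k48 k32 3 (.s k80 k95 2 (.s k154 k223 10
  (.s k101 k207 14 (.s k112 k79 6 (.d k240 k176 k160 7 11))))))) .n))

def s10_170_152 : T TT 256 :=
  (.q k16 [(.s k80 k95 2 (.s k154 k223 10 (.s k26 k218 7 (.s k31 k21 2 (.d k208 k144 k149 7 10))))),
  (.s k48 k32 3 (.s k80 k95 2 (.s k144 k208 7 (.s k96 k192 11 (.s k112 k64 3 (.d k240 k176 k160 7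
  11)))))), (.s k48 k32 3 (.s k154 k223 10 (.s k26 k218 7 (.s k15 k37 6 (.s k101 k207 14 (.s k112
  k79 6 (.d k240 k176 k165 7 14)))))))] (.c k208 (.l (.s k48 k32 3 (.s k80 k95 2 (.s k154 k223 10
  (.s k101 k207 14 (.s k112 k79 6 (.d k240 k176 k160 7 11))))))) .n))

def s10_170_153 : T TT 256 :=
  (.f k80 k95 2 (.f k160 k240 11 (.q k16 [(.s k144 k208 7 (.s k128 k176 3 (.s k192 k64 7 (.d k48 k32
  k96 3 11)))), (.s k154 k223 10 (.s k26 k218 7 (.s k31 k21 2 (.d k208 k144 k149 7 10)))), (.s k48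
  k32 3 (.s k154 k223 10 (.s k101 k207 14 (.s k112 k79 6 (.s k64 k96 3 (.s k117 k69 3 (.d k127 k122
  k106 2 6)))))))] (.c k136 (.q k187 [(.s k144 k208 7 (.s k128 k176 3 (.s k192 k64 7 (.d k48 k32 k96
  3 11)))), (.s k154 k223 10 (.s k26 k218 7 (.s k31 k21 2 (.d k208 k144 k149 7 10)))), (.s k48 k32 3
  (.s k154 k223 10 (.s k101 k207 14 (.s k112 k79 6 (.s k64 k96 3 (.s k117 k69 3 (.d k127 k122 k106 2
  6)))))))] .n) (.c k187 (.q k136 [(.s k144 k208 7 (.s k128 k176 3 (.s k192 k64 7 (.d k48 k32 k96 3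
  11)))), (.s k154 k223 10 (.s k26 k218 7 (.s k31 k21 2 (.d k208 k144 k149 7 10)))), (.s k48 k32 3
  (.s k204 k68 9 (.s k152 k100 13 (.s k84 k220 9 (.d k168 k184 k252 3 13)))))] .n) .n)))))

def s10_170_154 : T TT 256 :=
  (.f k80 k95 2 (.q k106 [(.s k64 k127 6 (.s k74 k122 3 (.s k79 k69 2 (.d k112 k96 k101 3 6)))), (.s
  k122 k74 3 (.s k240 k160 11 (.s k63 k181 10 (.s k21 k42 6 (.d k149 k213 k192 7 14))))), (.s k64
  k127 6 (.s k192 k128 7 (.s k149 k63 14 (.s k208 k31 10 (.d k240 k224 k160 3 11)))))] (.c k138 (.q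
  k186 [(.s k64 k127 6 (.s k74 k122 3 (.s k79 k69 2 (.d k112 k96 k101 3 6)))), (.s k240 k160 11 (.s
  k165 k15 14 (.s k224 k47 10 (.s k192 k208 3 (.s k63 k149 14 (.d k122 k74 k181 3 10))))))] (.c k74
  (.q k202 [(.s k240 k160 11 (.s k165 k15 14 (.s k224 k47 10 (.s k192 k208 3 (.d k64 k127 k128 6
  7))))), (.s k64 k127 6 (.s k96 k112 3 (.s k111 k101 2 (.s k192 k128 7 (.s k207 k197 2 (.d k63 k149
  k159 14 11)))))), (.s k64 k127 6 (.s k96 k112 3 (.s k160 k240 11 (.s k32 k224 7 (.s k48 k16 3 (.s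
  k117 k255 10 (.d k101 k111 k69 2 3)))))))] (.c k63 (.l (.s k64 k127 6 (.s k192 k128 7 (.s k240
  k160 11 (.s k165 k15 14 (.d k224 k47 k208 10 3)))))) (.c k64 (.q k101 [(.s k96 k111 2 (.s k160
  k240 11 (.s k32 k224 7 (.s k48 k16 3 (.d k117 k69 k255 3 10))))), (.s k69 k117 3 (.s k240 k160 11
  (.s k165 k15 14 (.s k5 k245 11 (.s k37 k229 7 (.s k53 k21 3 (.d k197 k133 k149 7 11))))))), (.s
  k79 k112 6 (.s k96 k111 2 (.s k117 k69 3 (.s k48 k255 10 (.s k16 k32 3 (.d k144 k208 k192 7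
  11))))))] (.c k69 (.l (.s k79 k112 6 (.s k240 k160 11 (.s k165 k15 14 (.s k224 k47 10 (.s k192
  k208 3 (.s k197 k207 2 (.d k149 k63 k53 14 11)))))))) (.c k79 (.l (.s k69 k117 3 (.s k240 k160 11
  (.s k165 k15 14 (.s k5 k245 11 (.s k37 k229 7 (.s k53 k21 3 (.d k197 k133 k149 7 11)))))))) (.c
  k117 (.l (.s k240 k160 11 (.s k165 k15 14 (.s k224 k47 10 (.s k192 k208 3 (.s k197 k207 2 (.d k149
  k63 k53 14 11))))))) (.c k192 (.l (.s k79 k112 6 (.s k96 k111 2 (.s k117 k69 3 (.s k48 k255 10 (.s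
  k32 k16 3 (.d k160 k224 k240 7 11))))))) (.c k255 (.l (.s k69 k117 3 (.s k112 k79 6 (.s k240 k160
  11 (.s k48 k176 7 (.s k16 k32 3 (.s k144 k208 7 (.d k96 k111 k192 2 11)))))))) .n)))))) (.c k127
  (.q k111 [(.s k101 k96 2 (.s k240 k160 11 (.s k165 k15 14 (.s k245 k5 11 (.s k255 k250 2 (.d k117
  k69 k48 3 10)))))), (.s k96 k101 2 (.s k64 k112 3 (.s k192 k128 7 (.s k207 k197 2 (.d k63 k149
  k159 14 11))))), (.s k240 k160 11 (.s k165 k15 14 (.s k224 k47 10 (.s k192 k208 3 (.s k63 k149 14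
  (.d k207 k159 k197 11 2)))))), (.s k101 k96 2 (.s k112 k79 6 (.s k240 k160 11 (.s k48 k176 7 (.d
  k117 k69 k255 3 10)))))] .n) (.c k192 (.l (.s k64 k127 6 (.s k112 k96 3 (.s k240 k160 11 (.s k48
  k176 7 (.s k117 k255 10 (.d k101 k79 k69 6 3))))))) .n))))) (.c k122 (.l (.s k64 k127 6 (.s k192
  k128 7 (.s k149 k63 14 (.s k208 k31 10 (.d k240 k224 k160 3 11)))))) (.c k202 (.l (.s k74 k122 3
  (.s k64 k127 6 (.s k79 k69 2 (.d k112 k96 k101 3 6))))) .n)))) (.c k186 (.q k138 [(.s k64 k127 6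
  (.s k69 k207 10 (.d k74 k79 k122 2 3))), (.s k122 k74 3 (.s k240 k160 11 (.s k63 k181 10 (.s k21
  k42 6 (.d k149 k213 k192 7 14)))))] (.c k74 (.l (.s k64 k127 6 (.s k69 k207 10 (.s k96 k112 3 (.d
  k101 k111 k117 2 3))))) (.c k122 (.l (.s k64 k127 6 (.s k69 k207 10 (.s k79 k74 2 (.d k101 k117
  k112 3 6))))) .n))) .n))))

def s10_170_155 : T TT 256 :=
  (.q k16 [(.s k80 k95 2 (.s k208 k144 7 (.s k149 k31 10 (.s k213 k21 7 (.d k223 k218 k154 2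
  10))))), (.s k48 k32 3 (.s k80 k95 2 (.s k144 k208 7 (.s k96 k192 11 (.s k112 k64 3 (.d k240 k176
  k160 7 11)))))), (.s k48 k32 3 (.s k154 k223 10 (.s k26 k218 7 (.s k15 k37 6 (.s k101 k207 14 (.s
  k112 k79 6 (.d k240 k176 k165 7 14)))))))] (.c k208 (.l (.s k48 k32 3 (.s k80 k95 2 (.s k154 k223
  10 (.s k101 k207 14 (.s k112 k79 6 (.d k240 k176 k160 7 11))))))) .n))

def s10_170_156 : T TT 256 :=
  (.q k16 [(.s k80 k95 2 (.s k154 k223 10 (.s k26 k218 7 (.s k31 k21 2 (.d k208 k144 k149 7 10))))),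
  (.s k48 k32 3 (.s k80 k95 2 (.s k144 k208 7 (.s k96 k192 11 (.s k112 k64 3 (.d k240 k176 k160 7
  11)))))), (.s k48 k32 3 (.s k154 k223 10 (.s k26 k218 7 (.s k15 k37 6 (.s k101 k207 14 (.s k112
  k79 6 (.d k240 k176 k165 7 14)))))))] (.c k208 (.l (.s k48 k32 3 (.s k80 k95 2 (.s k154 k223 10
  (.s k101 k207 14 (.s k112 k79 6 (.d k240 k176 k160 7 11))))))) .n))

def s10_170_157 : T TT 256 :=
  (.q k16 [(.s k80 k95 2 (.s k154 k223 10 (.s k26 k218 7 (.s k31 k21 2 (.d k208 k144 k149 7 10))))),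
  (.s k48 k32 3 (.s k80 k95 2 (.s k144 k208 7 (.s k96 k192 11 (.s k112 k64 3 (.d k240 k176 k160 7
  11)))))), (.s k48 k32 3 (.s k154 k223 10 (.s k26 k218 7 (.s k15 k37 6 (.s k101 k207 14 (.s k112
  k79 6 (.d k240 k176 k165 7 14)))))))] (.c k208 (.l (.s k48 k32 3 (.s k80 k95 2 (.s k154 k223 10
  (.s k101 k207 14 (.s k112 k79 6 (.d k240 k176 k160 7 11))))))) .n))

def s10_170_158 : T TT 256 :=
  (.q k16 [(.s k80 k95 2 (.s k208 k144 7 (.s k149 k31 10 (.s k213 k21 7 (.d k223 k218 k154 2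
  10))))), (.s k48 k32 3 (.s k80 k95 2 (.s k144 k208 7 (.s k96 k192 11 (.s k112 k64 3 (.d k240 k176
  k160 7 11)))))), (.s k48 k32 3 (.s k154 k223 10 (.s k26 k218 7 (.s k15 k37 6 (.s k101 k207 14 (.s
  k112 k79 6 (.d k240 k176 k165 7 14)))))))] (.c k208 (.l (.s k48 k32 3 (.s k80 k95 2 (.s k154 k223
  10 (.s k101 k207 14 (.s k112 k79 6 (.d k240 k176 k160 7 11))))))) .n))

def s10_170_159 : T TT 256 :=
  (.q k64 [(.s k80 k95 2 (.s k112 k96 3 (.s k101 k79 6 (.s k117 k69 3 (.d k127 k122 k106 2 6))))),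
  (.s k80 k95 2 (.s k96 k112 3 (.s k160 k240 11 (.s k32 k224 7 (.s k48 k16 3 (.d k192 k128 k144 7
  11)))))), (.s k106 k127 6 (.s k74 k122 3 (.s k69 k79 2 (.s k192 k128 7 (.s k133 k15 10 (.s k197 k5
  7 (.d k207 k202 k138 2 10)))))))] (.c k95 (.l (.s k106 k127 6 (.s k74 k122 3 (.s k192 k128 7 (.s
  k15 k133 10 (.s k149 k63 14 (.s k240 k165 14 (.d k208 k224 k31 3 10)))))))) (.c k112 (.l (.s k80
  k95 2 (.s k106 k127 6 (.s k122 k74 3 (.s k192 k128 7 (.s k240 k160 11 (.d k63 k149 k181 14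
  10))))))) .n)))

def s10_170_160 : T TT 256 :=
  (.f k80 k95 2 (.q k16 [(.s k154 k223 10 (.s k26 k218 7 (.s k31 k21 2 (.d k208 k144 k149 7 10)))),
  (.s k48 k32 3 (.s k144 k208 7 (.s k96 k192 11 (.s k112 k64 3 (.s k101 k79 6 (.s k69 k117 3 (.d
  k207 k138 k154 10 14))))))), (.s k48 k32 3 (.s k154 k223 10 (.s k101 k207 14 (.s k112 k79 6 (.s
  k117 k69 3 (.s k127 k122 2 (.d k64 k96 k106 3 6)))))))] (.c k154 (.f k144 k208 7 (.f k48 k32 3 (.f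
  k96 k192 11 (.l (.s k112 k64 3 (.s k101 k79 6 (.s k69 k117 3 (.s k240 k176 7 (.s k165 k15 14 (.s
  k229 k37 7 (.d k207 k218 k138 6 10))))))))))) (.c k165 (.q k175 [(.s k154 k223 10 (.s k26 k218 7
  (.s k31 k21 2 (.d k208 k144 k149 7 10)))), (.s k48 k32 3 (.s k144 k208 7 (.s k96 k192 11 (.s k112
  k64 3 (.s k101 k79 6 (.s k69 k117 3 (.d k207 k138 k154 10 14))))))), (.s k48 k32 3 (.s k154 k223
  10 (.s k101 k207 14 (.s k112 k79 6 (.s k117 k69 3 (.s k127 k122 2 (.d k64 k96 k106 3 6)))))))] (.c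
  k154 (.f k208 k144 7 (.f k149 k31 10 (.l (.s k21 k213 7 (.s k63 k42 6 (.s k106 k192 14 (.s k64
  k127 6 (.s k74 k122 3 (.s k79 k69 2 (.d k112 k96 k101 3 6)))))))))) .n)) (.c k175 (.q k165 [(.s
  k154 k223 10 (.s k26 k218 7 (.s k31 k21 2 (.d k208 k144 k149 7 10)))), (.s k15 k240 14 (.s k48 k32
  3 (.s k26 k37 6 (.d k154 k218 k223 7 10)))), (.s k15 k240 14 (.s k48 k32 3 (.s k26 k37 6 (.s k31
  k21 2 (.d k208 k144 k149 7 10)))))] (.c k15 (.q k255 [(.s k154 k223 10 (.s k26 k218 7 (.s k31 k21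
  2 (.d k208 k144 k149 7 10)))), (.s k48 k32 3 (.s k117 k186 10 (.s k101 k69 3 (.s k112 k79 6 (.s
  k127 k122 2 (.d k64 k96 k106 3 6))))))] (.c k154 (.l (.s k48 k32 3 (.s k144 k208 7 (.s k96 k192 11
  (.s k112 k64 3 (.s k101 k79 6 (.d k117 k69 k186 3 10))))))) .n)) (.c k26 (.l (.s k48 k32 3 (.s
  k154 k223 10 (.s k176 k143 6 (.d k240 k112 k15 7 14))))) (.c k255 (.l (.s k15 k240 14 (.s k48 k32
  3 (.s k26 k37 6 (.d k154 k218 k223 7 10))))) .n)))) .n)))))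

def s10_170_161 : T TT 256 :=
  (.q k16 [(.s k80 k95 2 (.s k208 k144 7 (.s k149 k31 10 (.s k213 k21 7 (.d k223 k218 k154 2
  10))))), (.s k48 k32 3 (.s k80 k95 2 (.s k144 k208 7 (.s k96 k192 11 (.s k112 k64 3 (.d k240 k176
  k160 7 11)))))), (.s k48 k32 3 (.s k154 k223 10 (.s k26 k218 7 (.s k15 k37 6 (.s k101 k207 14 (.s
  k112 k79 6 (.d k240 k176 k165 7 14)))))))] (.c k208 (.l (.s k48 k32 3 (.s k80 k95 2 (.s k154 k223
  10 (.s k101 k207 14 (.s k112 k79 6 (.d k240 k176 k160 7 11))))))) .n))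

def s10_170_162 : T TT 256 :=
  (.f k80 k95 2 (.q k166 [(.s k4 k247 12 (.s k12 k8 1 (.s k14 k242 13 (.s k15 k13 0 (.d k240 k160
  k165 11 14))))), (.s k4 k247 12 (.s k240 k160 11 (.s k165 k15 14 (.s k164 k167 0 (.s k84 k244 11
  (.d k88 k92 k12 1 13)))))), (.s k4 k247 12 (.s k12 k8 1 (.s k89 k243 14 (.s k81 k93 1 (.s k83 k82
  0 (.s k88 k91 0 (.d k92 k84 k86 1 2))))))), (.s k240 k160 11 (.s k165 k15 14 (.s k164 k167 0 (.s
  k12 k88 13 (.s k242 k14 13 (.d k243 k241 k89 0 14))))))] (.c k12 (.l (.s k4 k247 12 (.s k240 k160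
  11 (.s k165 k15 14 (.s k5 k245 11 (.s k7 k6 0 (.s k164 k167 0 (.d k244 k84 k86 11 12)))))))) (.c
  k15 (.l (.s k4 k247 12 (.s k12 k8 1 (.s k89 k243 14 (.s k240 k160 11 (.d k88 k91 k164 0 13))))))
  .n))))

def s10_170_163 : T TT 256 :=
  (.q k16 [(.s k80 k95 2 (.s k208 k144 7 (.s k149 k31 10 (.s k213 k21 7 (.d k223 k218 k154 2
  10))))), (.s k48 k32 3 (.s k80 k95 2 (.s k144 k208 7 (.s k96 k192 11 (.s k112 k64 3 (.d k240 k176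
  k160 7 11)))))), (.s k48 k32 3 (.s k154 k223 10 (.s k26 k218 7 (.s k15 k37 6 (.s k101 k207 14 (.s
  k112 k79 6 (.d k240 k176 k165 7 14)))))))] (.c k208 (.l (.s k48 k32 3 (.s k80 k95 2 (.s k154 k223
  10 (.s k101 k207 14 (.s k112 k79 6 (.d k240 k176 k160 7 11))))))) .n))

def s10_170_164 : T TT 256 :=
  (.q k16 [(.s k80 k95 2 (.s k208 k144 7 (.s k149 k31 10 (.s k213 k21 7 (.d k223 k218 k154 2
  10))))), (.s k48 k32 3 (.s k80 k95 2 (.s k144 k208 7 (.s k96 k192 11 (.s k112 k64 3 (.d k240 k176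
  k160 7 11)))))), (.s k48 k32 3 (.s k154 k223 10 (.s k26 k218 7 (.s k15 k37 6 (.s k101 k207 14 (.s
  k112 k79 6 (.d k240 k176 k165 7 14)))))))] (.c k208 (.l (.s k48 k32 3 (.s k80 k95 2 (.s k154 k223
  10 (.s k101 k207 14 (.s k112 k79 6 (.d k240 k176 k160 7 11))))))) .n))

def s10_170_165 : T TT 256 :=
  (.f k80 k95 2 (.q k16 [(.s k208 k144 7 (.s k149 k31 10 (.s k213 k21 7 (.d k223 k218 k154 2 10)))),
  (.s k48 k32 3 (.s k144 k208 7 (.s k96 k192 11 (.s k112 k64 3 (.d k240 k160 k176 11 7))))), (.s k48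
  k32 3 (.s k154 k223 10 (.s k101 k207 14 (.s k112 k79 6 (.d k240 k160 k176 11 7)))))] (.c k160 (.q
  k175 [(.s k154 k223 10 (.s k26 k218 7 (.s k31 k21 2 (.d k208 k144 k149 7 10)))), (.s k48 k32 3 (.s
  k144 k208 7 (.s k96 k192 11 (.s k112 k64 3 (.s k101 k79 6 (.s k69 k117 3 (.d k207 k138 k154 10
  14))))))), (.s k48 k32 3 (.s k154 k223 10 (.s k101 k207 14 (.s k112 k79 6 (.s k117 k69 3 (.s k127
  k122 2 (.d k64 k96 k106 3 6)))))))] (.c k154 (.f k208 k144 7 (.f k149 k31 10 (.l (.s k21 k213 7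
  (.s k63 k42 6 (.s k106 k192 14 (.s k64 k127 6 (.s k74 k122 3 (.s k79 k69 2 (.d k112 k96 k101 3
  6)))))))))) .n)) (.c k175 (.l (.s k160 k240 11 (.s k48 k32 3 (.s k144 k208 7 (.s k128 k176 3 (.d
  k192 k64 k96 7 11)))))) .n))))

def s10_170_166 : T TT 256 :=
  (.f k80 k95 2 (.q k81 [(.s k83 k82 0 (.s k89 k93 1 (.s k88 k91 0 (.d k92 k84 k86 1 2)))), (.s k82
  k83 0 (.s k240 k160 11 (.s k3 k161 12 (.s k2 k1 0 (.d k162 k242 k243 11 12))))), (.s k89 k93 1 (.s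
  k240 k160 11 (.s k165 k15 14 (.s k241 k13 13 (.d k243 k162 k242 12 0)))))] (.c k162 (.q k174 [(.s
  k89 k93 1 (.s k88 k91 0 (.s k92 k84 1 (.d k83 k82 k86 0 2)))), (.s k93 k89 1 (.s k240 k160 11 (.s
  k165 k15 14 (.s k245 k5 11 (.d k255 k12 k250 12 2))))), (.s k82 k83 0 (.s k240 k160 11 (.s k161 k3
  12 (.s k1 k241 11 (.s k165 k15 14 (.d k169 k173 k253 1 13))))))] .n) (.c k174 (.l (.s k162 k243 12
  (.s k82 k83 0 (.s k2 k242 11 (.s k3 k1 0 (.d k240 k160 k161 11 12)))))) .n))))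

def s10_170_167 : T TT 256 :=
  (.q k16 [(.s k80 k95 2 (.s k208 k144 7 (.s k149 k31 10 (.s k213 k21 7 (.d k223 k218 k154 2
  10))))), (.s k48 k32 3 (.s k80 k95 2 (.s k144 k208 7 (.s k96 k192 11 (.s k112 k64 3 (.d k240 k176
  k160 7 11)))))), (.s k48 k32 3 (.s k154 k223 10 (.s k26 k218 7 (.s k15 k37 6 (.s k101 k207 14 (.s
  k112 k79 6 (.d k240 k176 k165 7 14)))))))] (.c k208 (.l (.s k48 k32 3 (.s k80 k95 2 (.s k154 k223
  10 (.s k101 k207 14 (.s k112 k79 6 (.d k240 k176 k160 7 11))))))) .n))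

def s10_170_168 : T TT 256 :=
  (.f k80 k95 2 (.q k169 [(.s k1 k253 13 (.s k3 k2 0 (.s k11 k248 12 (.s k15 k7 1 (.d k240 k160 k165
  11 14))))), (.s k1 k253 13 (.s k240 k160 11 (.s k165 k15 14 (.s k161 k173 1 (.s k81 k241 11 (.d
  k82 k83 k3 0 12)))))), (.s k1 k253 13 (.s k3 k2 0 (.s k86 k252 14 (.s k82 k94 1 (.s k83 k81 0 (.s
  k84 k87 0 (.d k92 k88 k89 1 2))))))), (.s k240 k160 11 (.s k165 k15 14 (.s k161 k173 1 (.s k3 k82
  12 (.s k248 k11 12 (.d k252 k244 k86 1 14))))))] (.c k3 (.l (.s k1 k253 13 (.s k240 k160 11 (.s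
  k165 k15 14 (.s k5 k245 11 (.s k13 k9 1 (.s k161 k173 1 (.d k241 k81 k89 11 13)))))))) (.c k15 (.l
  (.s k1 k253 13 (.s k3 k2 0 (.s k86 k252 14 (.s k240 k160 11 (.d k82 k94 k161 1 12)))))) .n))))

def s10_170_169 : T TT 256 :=
  (.f k80 k95 2 (.q k84 [(.s k86 k87 0 (.s k82 k94 1 (.s k83 k81 0 (.d k92 k88 k89 1 2)))), (.s k86
  k87 0 (.s k240 k160 11 (.s k165 k15 14 (.s k244 k7 12 (.d k252 k168 k248 13 1))))), (.s k88 k92 1
  (.s k240 k160 11 (.s k12 k164 13 (.s k8 k4 1 (.d k168 k248 k252 11 13)))))] (.c k168 (.q k171 [(.s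
  k86 k87 0 (.s k82 k94 1 (.s k83 k81 0 (.d k92 k88 k89 1 2)))), (.s k87 k86 0 (.s k240 k160 11 (.s
  k165 k15 14 (.s k245 k5 11 (.d k255 k3 k250 13 2))))), (.s k88 k92 1 (.s k240 k160 11 (.s k164 k12
  13 (.s k4 k244 11 (.s k165 k15 14 (.d k166 k167 k247 0 12))))))] .n) (.c k171 (.l (.s k168 k252 13
  (.s k86 k87 0 (.s k82 k94 1 (.s k83 k81 0 (.d k92 k88 k89 1 2)))))) .n))))

def s10_170_171 : T TT 256 :=
  (.f k80 k95 2 (.q k169 [(.s k1 k253 13 (.s k3 k2 0 (.s k11 k248 12 (.s k15 k7 1 (.d k240 k160 k165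
  11 14))))), (.s k240 k160 11 (.s k248 k11 12 (.s k252 k244 1 (.s k84 k168 13 (.d k86 k87 k3 0
  14))))), (.s k1 k253 13 (.s k3 k2 0 (.s k86 k252 14 (.s k82 k94 1 (.s k83 k81 0 (.s k84 k87 0 (.d
  k92 k88 k89 1 2))))))), (.s k1 k253 13 (.s k240 k160 11 (.s k165 k15 14 (.s k5 k245 11 (.s k13 k9
  1 (.s k161 k173 1 (.d k241 k81 k89 11 13)))))))] .n))

def s10_170_172 : T TT 256 :=
  (.q k16 [(.s k80 k95 2 (.s k208 k144 7 (.s k149 k31 10 (.s k213 k21 7 (.d k223 k218 k154 2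
  10))))), (.s k48 k32 3 (.s k80 k95 2 (.s k144 k208 7 (.s k96 k192 11 (.s k112 k64 3 (.d k240 k176
  k160 7 11)))))), (.s k48 k32 3 (.s k154 k223 10 (.s k26 k218 7 (.s k15 k37 6 (.s k101 k207 14 (.s
  k112 k79 6 (.d k240 k176 k165 7 14)))))))] (.c k208 (.l (.s k48 k32 3 (.s k80 k95 2 (.s k154 k223
  10 (.s k101 k207 14 (.s k112 k79 6 (.d k240 k176 k160 7 11))))))) .n))

def s10_170_173 : T TT 256 :=
  (.q k16 [(.s k80 k95 2 (.s k208 k144 7 (.s k149 k31 10 (.s k213 k21 7 (.d k223 k218 k154 2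
  10))))), (.s k48 k32 3 (.s k80 k95 2 (.s k144 k208 7 (.s k96 k192 11 (.s k112 k64 3 (.d k240 k176
  k160 7 11)))))), (.s k48 k32 3 (.s k154 k223 10 (.s k26 k218 7 (.s k15 k37 6 (.s k101 k207 14 (.s
  k112 k79 6 (.d k240 k176 k165 7 14)))))))] (.c k208 (.l (.s k48 k32 3 (.s k80 k95 2 (.s k154 k223
  10 (.s k101 k207 14 (.s k112 k79 6 (.d k240 k176 k160 7 11))))))) .n))

def s10_170_174 : T TT 256 :=
  (.f k80 k95 2 (.q k166 [(.s k4 k247 12 (.s k12 k8 1 (.s k14 k242 13 (.s k15 k13 0 (.d k240 k160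
  k165 11 14))))), (.s k240 k160 11 (.s k242 k14 13 (.s k243 k241 0 (.s k81 k162 12 (.d k89 k93 k12
  1 14))))), (.s k4 k247 12 (.s k12 k8 1 (.s k89 k243 14 (.s k81 k93 1 (.s k83 k82 0 (.s k88 k91 0
  (.d k92 k84 k86 1 2))))))), (.s k4 k247 12 (.s k240 k160 11 (.s k165 k15 14 (.s k5 k245 11 (.s k7
  k6 0 (.s k164 k167 0 (.d k244 k84 k86 11 12)))))))] .n))

def s10_170_175 : T TT 256 :=
  (.f k80 k95 2 (.f k160 k240 11 (.q k16 [(.s k144 k208 7 (.s k128 k176 3 (.s k192 k64 7 (.d k48 k32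
  k96 3 11)))), (.s k154 k223 10 (.s k26 k218 7 (.s k31 k21 2 (.d k208 k144 k149 7 10)))), (.s k48
  k32 3 (.s k154 k223 10 (.s k101 k207 14 (.s k112 k79 6 (.s k64 k96 3 (.s k117 k69 3 (.d k127 k122
  k106 2 6)))))))] (.c k15 (.q k255 [(.s k48 k32 3 (.s k117 k186 10 (.s k101 k69 3 (.d k154 k223
  k207 10 14)))), (.s k144 k208 7 (.s k128 k176 3 (.s k192 k64 7 (.d k48 k32 k96 3 11)))), (.s k154
  k223 10 (.s k26 k218 7 (.s k31 k21 2 (.d k208 k144 k149 7 10))))] .n) (.c k255 (.q k15 [(.s k48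
  k32 3 (.s k26 k37 6 (.d k154 k218 k223 7 10))), (.s k144 k208 7 (.s k128 k176 3 (.s k192 k64 7 (.d
  k48 k32 k96 3 11)))), (.s k154 k223 10 (.s k26 k218 7 (.s k31 k21 2 (.d k208 k144 k149 7 10))))]
  (.c k245 (.q k250 [(.s k48 k32 3 (.s k26 k37 6 (.d k154 k218 k223 7 10))), (.s k144 k208 7 (.s
  k128 k176 3 (.s k192 k64 7 (.d k48 k32 k96 3 11)))), (.s k154 k223 10 (.s k26 k218 7 (.s k31 k21 2
  (.d k208 k144 k149 7 10))))] .n) (.c k250 (.q k245 [(.s k48 k32 3 (.s k26 k37 6 (.d k154 k218 k223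
  7 10))), (.s k144 k208 7 (.s k128 k176 3 (.s k192 k64 7 (.d k48 k32 k96 3 11)))), (.s k144 k208 7
  (.s k154 k223 10 (.s k165 k5 11 (.d k176 k128 k143 3 6))))] .n) .n))) .n)))))

def s10_170_176 : T TT 256 :=
  (.q k64 [(.s k80 k95 2 (.s k112 k96 3 (.s k101 k79 6 (.s k117 k69 3 (.d k127 k122 k106 2 6))))),
  (.s k80 k95 2 (.s k96 k112 3 (.s k192 k128 7 (.s k48 k144 11 (.s k160 k240 11 (.d k32 k16 k224 3
  7)))))), (.s k106 k127 6 (.s k74 k122 3 (.s k192 k128 7 (.s k15 k133 10 (.s k149 k63 14 (.s k208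
  k31 10 (.d k240 k224 k165 3 14)))))))] (.c k112 (.l (.s k80 k95 2 (.s k106 k127 6 (.s k122 k74 3
  (.s k240 k160 11 (.s k63 k181 10 (.d k192 k128 k149 7 14))))))) .n))

def s10_170_177 : T TT 256 :=
  (.q k16 [(.s k80 k95 2 (.s k208 k144 7 (.s k149 k31 10 (.s k213 k21 7 (.d k223 k218 k154 2
  10))))), (.s k48 k32 3 (.s k80 k95 2 (.s k144 k208 7 (.s k96 k192 11 (.s k112 k64 3 (.d k240 k176
  k160 7 11)))))), (.s k48 k32 3 (.s k154 k223 10 (.s k26 k218 7 (.s k15 k37 6 (.s k101 k207 14 (.s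
  k112 k79 6 (.d k240 k176 k165 7 14)))))))] (.c k208 (.l (.s k48 k32 3 (.s k80 k95 2 (.s k154 k223
  10 (.s k101 k207 14 (.s k112 k79 6 (.d k240 k176 k160 7 11))))))) .n))

def s10_170_178 : T TT 256 :=
  (.q k16 [(.s k80 k95 2 (.s k208 k144 7 (.s k149 k31 10 (.s k213 k21 7 (.d k223 k218 k154 2
  10))))), (.s k48 k32 3 (.s k80 k95 2 (.s k144 k208 7 (.s k96 k192 11 (.s k112 k64 3 (.d k240 k176
  k160 7 11)))))), (.s k48 k32 3 (.s k154 k223 10 (.s k26 k218 7 (.s k15 k37 6 (.s k101 k207 14 (.s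
  k112 k79 6 (.d k240 k176 k165 7 14)))))))] (.c k208 (.l (.s k48 k32 3 (.s k80 k95 2 (.s k154 k223
  10 (.s k101 k207 14 (.s k112 k79 6 (.d k240 k176 k160 7 11))))))) .n))

def s10_170_179 : T TT 256 :=
  (.q k16 [(.s k80 k95 2 (.s k208 k144 7 (.s k149 k31 10 (.s k213 k21 7 (.d k223 k218 k154 2
  10))))), (.s k48 k32 3 (.s k80 k95 2 (.s k144 k208 7 (.s k96 k192 11 (.s k112 k64 3 (.d k240 k176
  k160 7 11)))))), (.s k48 k32 3 (.s k154 k223 10 (.s k26 k218 7 (.s k15 k37 6 (.s k101 k207 14 (.s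
  k112 k79 6 (.d k240 k176 k165 7 14)))))))] (.c k208 (.l (.s k48 k32 3 (.s k80 k95 2 (.s k154 k223
  10 (.s k101 k207 14 (.s k112 k79 6 (.d k240 k176 k160 7 11))))))) .n))

def s10_170_180 : T TT 256 :=
  (.q k16 [(.s k80 k95 2 (.s k208 k144 7 (.s k149 k31 10 (.s k213 k21 7 (.d k223 k218 k154 2
  10))))), (.s k48 k32 3 (.s k80 k95 2 (.s k144 k208 7 (.s k96 k192 11 (.s k112 k64 3 (.d k240 k176
  k160 7 11)))))), (.s k48 k32 3 (.s k154 k223 10 (.s k26 k218 7 (.s k15 k37 6 (.s k101 k207 14 (.s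
  k112 k79 6 (.d k240 k176 k165 7 14)))))))] (.c k208 (.l (.s k48 k32 3 (.s k80 k95 2 (.s k154 k223
  10 (.s k101 k207 14 (.s k112 k79 6 (.d k240 k176 k160 7 11))))))) .n))

def s10_170_181 : T TT 256 :=
  (.q k16 [(.s k80 k95 2 (.s k208 k144 7 (.s k149 k31 10 (.s k213 k21 7 (.d k223 k218 k154 2
  10))))), (.s k48 k32 3 (.s k80 k95 2 (.s k144 k208 7 (.s k96 k192 11 (.s k112 k64 3 (.d k240 k176
  k160 7 11)))))), (.s k48 k32 3 (.s k154 k223 10 (.s k26 k218 7 (.s k15 k37 6 (.s k101 k207 14 (.s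
  k112 k79 6 (.d k240 k176 k165 7 14)))))))] (.c k208 (.l (.s k48 k32 3 (.s k80 k95 2 (.s k154 k223
  10 (.s k101 k207 14 (.s k112 k79 6 (.d k240 k176 k160 7 11))))))) .n))

def s10_170_182 : T TT 256 :=
  (.q k16 [(.s k80 k95 2 (.s k208 k144 7 (.s k149 k31 10 (.s k213 k21 7 (.d k223 k218 k154 2
  10))))), (.s k48 k32 3 (.s k80 k95 2 (.s k144 k208 7 (.s k96 k192 11 (.s k112 k64 3 (.d k240 k176
  k160 7 11)))))), (.s k48 k32 3 (.s k154 k223 10 (.s k26 k218 7 (.s k15 k37 6 (.s k101 k207 14 (.s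
  k112 k79 6 (.d k240 k176 k165 7 14)))))))] (.c k208 (.l (.s k48 k32 3 (.s k80 k95 2 (.s k154 k223
  10 (.s k101 k207 14 (.s k112 k79 6 (.d k240 k176 k160 7 11))))))) .n))

def s10_170_183 : T TT 256 :=
  (.q k16 [(.s k80 k95 2 (.s k208 k144 7 (.s k149 k31 10 (.s k213 k21 7 (.d k223 k218 k154 2
  10))))), (.s k48 k32 3 (.s k80 k95 2 (.s k144 k208 7 (.s k96 k192 11 (.s k112 k64 3 (.d k240 k176
  k160 7 11)))))), (.s k48 k32 3 (.s k154 k223 10 (.s k26 k218 7 (.s k15 k37 6 (.s k101 k207 14 (.s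
  k112 k79 6 (.d k240 k176 k165 7 14)))))))] (.c k208 (.l (.s k48 k32 3 (.s k80 k95 2 (.s k154 k223
  10 (.s k101 k207 14 (.s k112 k79 6 (.d k240 k176 k160 7 11))))))) .n))

def s10_170_184 : T TT 256 :=
  (.q k16 [(.s k80 k95 2 (.s k208 k144 7 (.s k149 k31 10 (.s k213 k21 7 (.d k223 k218 k154 2
  10))))), (.s k48 k32 3 (.s k80 k95 2 (.s k144 k208 7 (.s k96 k192 11 (.s k112 k64 3 (.d k240 k176
  k160 7 11)))))), (.s k48 k32 3 (.s k154 k223 10 (.s k26 k218 7 (.s k15 k37 6 (.s k101 k207 14 (.s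
  k112 k79 6 (.d k240 k176 k165 7 14)))))))] (.c k208 (.l (.s k48 k32 3 (.s k80 k95 2 (.s k154 k223
  10 (.s k101 k207 14 (.s k112 k79 6 (.d k240 k176 k160 7 11))))))) .n))

def s10_170_185 : T TT 256 :=
  (.q k16 [(.s k80 k95 2 (.s k208 k144 7 (.s k149 k31 10 (.s k213 k21 7 (.d k223 k218 k154 2
  10))))), (.s k48 k32 3 (.s k80 k95 2 (.s k144 k208 7 (.s k96 k192 11 (.s k112 k64 3 (.d k240 k176
  k160 7 11)))))), (.s k48 k32 3 (.s k154 k223 10 (.s k26 k218 7 (.s k15 k37 6 (.s k101 k207 14 (.s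
  k112 k79 6 (.d k240 k176 k165 7 14)))))))] (.c k208 (.l (.s k48 k32 3 (.s k80 k95 2 (.s k154 k223
  10 (.s k101 k207 14 (.s k112 k79 6 (.d k240 k176 k160 7 11))))))) .n))

def s10_170_186 : T TT 256 :=
  (.q k154 [(.s k16 k223 10 (.s k26 k218 7 (.s k31 k21 2 (.s k80 k95 2 (.d k208 k144 k149 7 10))))),
  (.s k80 k95 2 (.s k218 k26 7 (.s k240 k160 11 (.s k207 k229 6 (.s k69 k138 10 (.d k101 k117 k48 3
  14)))))), (.s k16 k223 10 (.s k48 k32 3 (.s k80 k95 2 (.s k101 k207 14 (.s k112 k79 6 (.d k240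
  k176 k160 7 11)))))), (.s k16 k223 10 (.s k26 k218 7 (.s k48 k32 3 (.s k15 k37 6 (.s k101 k207 14
  (.s k112 k79 6 (.d k240 k176 k165 7 14)))))))] .n)

def s10_170_187 : T TT 256 :=
  (.f k80 k95 2 (.q k153 [(.s k17 k221 9 (.s k27 k216 8 (.s k51 k34 4 (.s k15 k39 5 (.d k240 k160
  k165 11 14))))), (.s k216 k27 8 (.s k240 k160 11 (.s k204 k228 5 (.s k68 k136 9 (.d k102 k119 k51
  4 14))))), (.s k17 k221 9 (.s k51 k34 4 (.s k102 k204 14 (.s k114 k78 5 (.d k240 k177 k160 8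
  11)))))] (.c k51 (.l (.s k216 k27 8 (.s k221 k17 9 (.s k240 k160 11 (.s k204 k228 5 (.s k255 k238
  4 (.s k245 k250 2 (.d k165 k15 k5 14 11)))))))) (.c k102 (.l (.s k17 k221 9 (.s k240 k160 11 (.s
  k165 k15 14 (.s k177 k141 5 (.d k51 k34 k114 4 8)))))) (.c k160 (.l (.s k17 k221 9 (.s k27 k216 8
  (.s k51 k34 4 (.s k15 k39 5 (.s k102 k204 14 (.s k114 k78 5 (.d k240 k177 k165 8 14)))))))) (.c
  k240 (.q k1 [(.s k17 k221 9 (.s k49 k33 3 (.s k101 k205 13 (.s k117 k69 3 (.d k253 k185 k169 9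
  13))))), (.s k3 k2 0 (.s k17 k221 9 (.s k33 k49 3 (.s k18 k48 4 (.s k19 k16 0 (.d k51 k35 k34 3
  4)))))), (.s k3 k2 0 (.s k169 k253 13 (.s k137 k185 3 (.s k204 k70 10 (.s k68 k136 9 (.d k102 k119
  k51 4 14))))))] (.c k49 (.l (.s k3 k2 0 (.s k17 k221 9 (.s k51 k34 4 (.s k19 k35 3 (.s k86 k220 10
  (.d k169 k253 k252 13 14))))))) .n)) .n))))))

def s10_170_188 : T TT 256 :=
  (.q k16 [(.s k80 k95 2 (.s k208 k144 7 (.s k149 k31 10 (.s k213 k21 7 (.d k223 k218 k154 2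
  10))))), (.s k48 k32 3 (.s k80 k95 2 (.s k144 k208 7 (.s k96 k192 11 (.s k112 k64 3 (.d k240 k176
  k160 7 11)))))), (.s k48 k32 3 (.s k154 k223 10 (.s k26 k218 7 (.s k15 k37 6 (.s k101 k207 14 (.s
  k112 k79 6 (.d k240 k176 k165 7 14)))))))] (.c k208 (.l (.s k48 k32 3 (.s k80 k95 2 (.s k154 k223
  10 (.s k101 k207 14 (.s k112 k79 6 (.d k240 k176 k160 7 11))))))) .n))

def s10_170_189 : T TT 256 :=
  (.q k16 [(.s k80 k95 2 (.s k208 k144 7 (.s k149 k31 10 (.s k213 k21 7 (.d k223 k218 k154 2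
  10))))), (.s k48 k32 3 (.s k80 k95 2 (.s k144 k208 7 (.s k96 k192 11 (.s k112 k64 3 (.d k240 k176
  k160 7 11)))))), (.s k48 k32 3 (.s k154 k223 10 (.s k26 k218 7 (.s k15 k37 6 (.s k101 k207 14 (.s
  k112 k79 6 (.d k240 k176 k165 7 14)))))))] (.c k208 (.l (.s k48 k32 3 (.s k80 k95 2 (.s k154 k223
  10 (.s k101 k207 14 (.s k112 k79 6 (.d k240 k176 k160 7 11))))))) .n))

def s10_170_190 : T TT 256 :=
  (.f k80 k95 2 (.q k150 [(.s k20 k215 8 (.s k30 k210 9 (.s k60 k40 5 (.s k15 k45 4 (.d k240 k160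
  k165 11 14))))), (.s k210 k30 9 (.s k240 k160 11 (.s k195 k225 4 (.s k65 k130 8 (.d k105 k125 k60
  5 14))))), (.s k20 k215 8 (.s k60 k40 5 (.s k105 k195 14 (.s k120 k75 4 (.d k240 k180 k160 9
  11)))))] (.c k60 (.l (.s k210 k30 9 (.s k215 k20 8 (.s k240 k160 11 (.s k195 k225 4 (.s k255 k235
  5 (.s k245 k250 2 (.d k165 k15 k5 14 11)))))))) (.c k105 (.l (.s k20 k215 8 (.s k240 k160 11 (.s
  k165 k15 14 (.s k180 k135 4 (.d k60 k40 k120 5 9)))))) (.c k160 (.l (.s k20 k215 8 (.s k30 k210 9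
  (.s k60 k40 5 (.s k15 k45 4 (.s k105 k195 14 (.s k120 k75 4 (.d k240 k180 k165 9 14)))))))) (.c
  k240 (.q k3 [(.s k2 k1 0 (.s k20 k215 8 (.s k60 k40 5 (.s k22 k41 6 (.s k21 k23 0 (.d k42 k62 k63
  5 6)))))), (.s k1 k2 0 (.s k169 k253 13 (.s k86 k252 14 (.s k82 k94 1 (.s k83 k81 0 (.s k84 k87 0
  (.d k92 k88 k89 1 2))))))), (.s k20 k215 8 (.s k60 k40 5 (.s k22 k41 6 (.s k86 k214 7 (.s k84 k87
  0 (.d k252 k168 k169 13 14))))))] (.c k87 (.l (.s k1 k2 0 (.s k20 k215 8 (.s k60 k40 5 (.s k22 k41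
  6 (.s k86 k214 7 (.d k169 k253 k252 13 14))))))) .n)) .n))))))

def s10_170_191 : T TT 256 :=
  (.q k149 [(.s k80 k95 2 (.s k208 k31 10 (.s k16 k144 7 (.s k213 k21 7 (.d k223 k218 k154 2
  10))))), (.s k21 k213 7 (.s k63 k42 6 (.s k80 k95 2 (.s k106 k192 14 (.s k122 k74 3 (.d k240 k181
  k160 10 11)))))), (.s k80 k95 2 (.s k208 k31 10 (.s k240 k160 11 (.s k192 k224 3 (.s k64 k128 7
  (.d k106 k127 k63 6 14)))))), (.s k21 k213 7 (.s k31 k208 10 (.s k63 k42 6 (.s k15 k47 3 (.s k106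
  k192 14 (.s k122 k74 3 (.d k240 k181 k165 10 14)))))))] .n)

def s10_170_192 : T TT 256 :=
  (.q k48 [(.s k16 k32 3 (.s k80 k95 2 (.s k154 k223 10 (.s k26 k218 7 (.s k31 k21 2 (.d k208 k144
  k149 7 10)))))), (.s k80 k95 2 (.s k240 k160 11 (.s k112 k176 7 (.s k101 k79 6 (.s k69 k117 3 (.d
  k207 k138 k154 10 14)))))), (.s k16 k32 3 (.s k154 k223 10 (.s k26 k218 7 (.s k15 k37 6 (.s k101
  k207 14 (.s k112 k79 6 (.d k240 k176 k165 7 14)))))))] (.c k101 (.l (.s k80 k95 2 (.s k240 k160 11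
  (.s k165 k15 14 (.s k176 k112 7 (.s k154 k143 6 (.d k16 k32 k223 3 10))))))) (.c k154 (.l (.s k80
  k95 2 (.s k240 k160 11 (.s k112 k176 7 (.s k64 k96 3 (.s k79 k101 6 (.s k74 k69 2 (.d k106 k122
  k127 3 6)))))))) .n)))

def s10_170_193 : T TT 256 :=
  (.q k16 [(.s k80 k95 2 (.s k208 k144 7 (.s k149 k31 10 (.s k213 k21 7 (.d k223 k218 k154 2
  10))))), (.s k48 k32 3 (.s k80 k95 2 (.s k144 k208 7 (.s k96 k192 11 (.s k112 k64 3 (.d k240 k176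
  k160 7 11)))))), (.s k48 k32 3 (.s k154 k223 10 (.s k26 k218 7 (.s k15 k37 6 (.s k101 k207 14 (.s
  k112 k79 6 (.d k240 k176 k165 7 14)))))))] (.c k208 (.l (.s k48 k32 3 (.s k80 k95 2 (.s k154 k223
  10 (.s k101 k207 14 (.s k112 k79 6 (.d k240 k176 k160 7 11))))))) .n))

def s10_170_194 : T TT 256 :=
  (.q k16 [(.s k80 k95 2 (.s k208 k144 7 (.s k149 k31 10 (.s k213 k21 7 (.d k223 k218 k154 2
  10))))), (.s k48 k32 3 (.s k80 k95 2 (.s k144 k208 7 (.s k96 k192 11 (.s k112 k64 3 (.d k240 k176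
  k160 7 11)))))), (.s k48 k32 3 (.s k154 k223 10 (.s k26 k218 7 (.s k15 k37 6 (.s k101 k207 14 (.s
  k112 k79 6 (.d k240 k176 k165 7 14)))))))] (.c k208 (.l (.s k48 k32 3 (.s k80 k95 2 (.s k154 k223
  10 (.s k101 k207 14 (.s k112 k79 6 (.d k240 k176 k160 7 11))))))) .n))

def s10_170_195 : T TT 256 :=
  (.q k16 [(.s k80 k95 2 (.s k208 k144 7 (.s k149 k31 10 (.s k213 k21 7 (.d k223 k218 k154 2
  10))))), (.s k48 k32 3 (.s k80 k95 2 (.s k144 k208 7 (.s k96 k192 11 (.s k112 k64 3 (.d k240 k176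
  k160 7 11)))))), (.s k48 k32 3 (.s k154 k223 10 (.s k26 k218 7 (.s k15 k37 6 (.s k101 k207 14 (.s
  k112 k79 6 (.d k240 k176 k165 7 14)))))))] (.c k208 (.l (.s k48 k32 3 (.s k80 k95 2 (.s k154 k223
  10 (.s k101 k207 14 (.s k112 k79 6 (.d k240 k176 k160 7 11))))))) .n))

def s10_170_196 : T TT 256 :=
  (.q k16 [(.s k80 k95 2 (.s k208 k144 7 (.s k149 k31 10 (.s k213 k21 7 (.d k223 k218 k154 2
  10))))), (.s k48 k32 3 (.s k80 k95 2 (.s k144 k208 7 (.s k96 k192 11 (.s k112 k64 3 (.d k240 k176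
  k160 7 11)))))), (.s k48 k32 3 (.s k154 k223 10 (.s k26 k218 7 (.s k15 k37 6 (.s k101 k207 14 (.s
  k112 k79 6 (.d k240 k176 k165 7 14)))))))] (.c k208 (.l (.s k48 k32 3 (.s k80 k95 2 (.s k154 k223
  10 (.s k101 k207 14 (.s k112 k79 6 (.d k240 k176 k160 7 11))))))) .n))

def s10_170_197 : T TT 256 :=
  (.q k16 [(.s k80 k95 2 (.s k208 k144 7 (.s k149 k31 10 (.s k213 k21 7 (.d k223 k218 k154 2
  10))))), (.s k48 k32 3 (.s k80 k95 2 (.s k144 k208 7 (.s k96 k192 11 (.s k112 k64 3 (.d k240 k176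
  k160 7 11)))))), (.s k48 k32 3 (.s k154 k223 10 (.s k26 k218 7 (.s k15 k37 6 (.s k101 k207 14 (.s
  k112 k79 6 (.d k240 k176 k165 7 14)))))))] (.c k208 (.l (.s k48 k32 3 (.s k80 k95 2 (.s k154 k223
  10 (.s k101 k207 14 (.s k112 k79 6 (.d k240 k176 k160 7 11))))))) .n))

def s10_170_198 : T TT 256 :=
  (.q k16 [(.s k80 k95 2 (.s k208 k144 7 (.s k149 k31 10 (.s k213 k21 7 (.d k223 k218 k154 2
  10))))), (.s k48 k32 3 (.s k80 k95 2 (.s k144 k208 7 (.s k96 k192 11 (.s k112 k64 3 (.d k240 k176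
  k160 7 11)))))), (.s k48 k32 3 (.s k154 k223 10 (.s k26 k218 7 (.s k15 k37 6 (.s k101 k207 14 (.s
  k112 k79 6 (.d k240 k176 k165 7 14)))))))] (.c k208 (.l (.s k48 k32 3 (.s k80 k95 2 (.s k154 k223
  10 (.s k101 k207 14 (.s k112 k79 6 (.d k240 k176 k160 7 11))))))) .n))

def s10_170_199 : T TT 256 :=
  (.q k16 [(.s k80 k95 2 (.s k208 k144 7 (.s k149 k31 10 (.s k213 k21 7 (.d k223 k218 k154 2
  10))))), (.s k48 k32 3 (.s k80 k95 2 (.s k144 k208 7 (.s k96 k192 11 (.s k112 k64 3 (.d k240 k176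
  k160 7 11)))))), (.s k48 k32 3 (.s k154 k223 10 (.s k26 k218 7 (.s k15 k37 6 (.s k101 k207 14 (.s
  k112 k79 6 (.d k240 k176 k165 7 14)))))))] (.c k208 (.l (.s k48 k32 3 (.s k80 k95 2 (.s k154 k223
  10 (.s k101 k207 14 (.s k112 k79 6 (.d k240 k176 k160 7 11))))))) .n))

def s10_170_200 : T TT 256 :=
  (.q k16 [(.s k80 k95 2 (.s k208 k144 7 (.s k149 k31 10 (.s k213 k21 7 (.d k223 k218 k154 2
  10))))), (.s k48 k32 3 (.s k80 k95 2 (.s k144 k208 7 (.s k96 k192 11 (.s k112 k64 3 (.d k240 k176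
  k160 7 11)))))), (.s k48 k32 3 (.s k154 k223 10 (.s k26 k218 7 (.s k15 k37 6 (.s k101 k207 14 (.s
  k112 k79 6 (.d k240 k176 k165 7 14)))))))] (.c k208 (.l (.s k48 k32 3 (.s k80 k95 2 (.s k154 k223
  10 (.s k101 k207 14 (.s k112 k79 6 (.d k240 k176 k160 7 11))))))) .n))

def s10_170_201 : T TT 256 :=
  (.q k16 [(.s k80 k95 2 (.s k208 k144 7 (.s k149 k31 10 (.s k213 k21 7 (.d k223 k218 k154 2
  10))))), (.s k48 k32 3 (.s k80 k95 2 (.s k144 k208 7 (.s k96 k192 11 (.s k112 k64 3 (.d k240 k176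
  k160 7 11)))))), (.s k48 k32 3 (.s k154 k223 10 (.s k26 k218 7 (.s k15 k37 6 (.s k101 k207 14 (.s
  k112 k79 6 (.d k240 k176 k165 7 14)))))))] (.c k208 (.l (.s k48 k32 3 (.s k80 k95 2 (.s k154 k223
  10 (.s k101 k207 14 (.s k112 k79 6 (.d k240 k176 k160 7 11))))))) .n))

def s10_170_202 : T TT 256 :=
  (.f k80 k95 2 (.q k106 [(.s k64 k127 6 (.s k74 k122 3 (.s k79 k69 2 (.d k112 k96 k101 3 6)))), (.s
  k240 k160 11 (.s k165 k15 14 (.s k224 k47 10 (.s k192 k208 3 (.s k63 k149 14 (.d k122 k74 k181 3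
  10))))))] (.c k74 (.q k138 [(.s k64 k127 6 (.s k69 k207 10 (.s k96 k112 3 (.d k101 k111 k117 2
  3)))), (.s k240 k160 11 (.s k165 k15 14 (.s k224 k47 10 (.s k192 k208 3 (.d k64 k127 k128 6
  7))))), (.s k207 k69 10 (.s k240 k160 11 (.s k218 k229 6 (.s k154 k26 7 (.s k16 k223 10 (.d k48
  k32 k101 3 14))))))] (.c k64 (.f k69 k207 10 (.l (.s k101 k117 3 (.s k112 k79 6 (.s k240 k160 11
  (.s k48 k176 7 (.s k16 k32 3 (.s k144 k208 7 (.d k96 k111 k192 2 11))))))))) .n)) (.c k122 (.l (.s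
  k64 k127 6 (.s k192 k128 7 (.s k149 k63 14 (.s k208 k31 10 (.d k240 k224 k160 3 11)))))) (.c k138
  (.l (.s k74 k122 3 (.s k64 k127 6 (.s k79 k69 2 (.d k112 k96 k101 3 6))))) .n)))))

def s10_170_203 : T TT 256 :=
  (.q k16 [(.s k80 k95 2 (.s k208 k144 7 (.s k149 k31 10 (.s k213 k21 7 (.d k223 k218 k154 2
  10))))), (.s k48 k32 3 (.s k80 k95 2 (.s k144 k208 7 (.s k96 k192 11 (.s k112 k64 3 (.d k240 k176
  k160 7 11)))))), (.s k48 k32 3 (.s k154 k223 10 (.s k26 k218 7 (.s k15 k37 6 (.s k101 k207 14 (.s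
  k112 k79 6 (.d k240 k176 k165 7 14)))))))] (.c k208 (.l (.s k48 k32 3 (.s k80 k95 2 (.s k154 k223
  10 (.s k101 k207 14 (.s k112 k79 6 (.d k240 k176 k160 7 11))))))) .n))

def s10_170_204 : T TT 256 :=
  (.q k16 [(.s k80 k95 2 (.s k208 k144 7 (.s k149 k31 10 (.s k213 k21 7 (.d k223 k218 k154 2
  10))))), (.s k48 k32 3 (.s k80 k95 2 (.s k144 k208 7 (.s k96 k192 11 (.s k112 k64 3 (.d k240 k176
  k160 7 11)))))), (.s k48 k32 3 (.s k154 k223 10 (.s k26 k218 7 (.s k15 k37 6 (.s k101 k207 14 (.s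
  k112 k79 6 (.d k240 k176 k165 7 14)))))))] (.c k208 (.l (.s k48 k32 3 (.s k80 k95 2 (.s k154 k223
  10 (.s k101 k207 14 (.s k112 k79 6 (.d k240 k176 k160 7 11))))))) .n))

def s10_170_205 : T TT 256 :=
  (.q k16 [(.s k80 k95 2 (.s k208 k144 7 (.s k149 k31 10 (.s k213 k21 7 (.d k223 k218 k154 2
  10))))), (.s k48 k32 3 (.s k80 k95 2 (.s k144 k208 7 (.s k96 k192 11 (.s k112 k64 3 (.d k240 k176
  k160 7 11)))))), (.s k48 k32 3 (.s k154 k223 10 (.s k26 k218 7 (.s k15 k37 6 (.s k101 k207 14 (.s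
  k112 k79 6 (.d k240 k176 k165 7 14)))))))] (.c k208 (.l (.s k48 k32 3 (.s k80 k95 2 (.s k154 k223
  10 (.s k101 k207 14 (.s k112 k79 6 (.d k240 k176 k160 7 11))))))) .n))

def s10_170_206 : T TT 256 :=
  (.q k16 [(.s k80 k95 2 (.s k208 k144 7 (.s k149 k31 10 (.s k213 k21 7 (.d k223 k218 k154 2
  10))))), (.s k48 k32 3 (.s k80 k95 2 (.s k144 k208 7 (.s k96 k192 11 (.s k112 k64 3 (.d k240 k176
  k160 7 11)))))), (.s k48 k32 3 (.s k154 k223 10 (.s k26 k218 7 (.s k15 k37 6 (.s k101 k207 14 (.s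
  k112 k79 6 (.d k240 k176 k165 7 14)))))))] (.c k208 (.l (.s k48 k32 3 (.s k80 k95 2 (.s k154 k223
  10 (.s k101 k207 14 (.s k112 k79 6 (.d k240 k176 k160 7 11))))))) .n))

def s10_170_207 : T TT 256 :=
  (.q k64 [(.s k80 k95 2 (.s k106 k127 6 (.s k74 k122 3 (.s k79 k69 2 (.d k112 k96 k101 3 6))))),
  (.s k80 k95 2 (.s k96 k112 3 (.s k160 k240 11 (.s k32 k224 7 (.s k48 k16 3 (.d k192 k128 k144 7
  11)))))), (.s k106 k127 6 (.s k74 k122 3 (.s k192 k128 7 (.s k15 k133 10 (.s k149 k63 14 (.s k208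
  k31 10 (.d k240 k224 k165 3 14)))))))] (.c k112 (.l (.s k80 k95 2 (.s k106 k127 6 (.s k122 k74 3
  (.s k192 k128 7 (.s k240 k160 11 (.d k63 k149 k181 14 10))))))) .n))

def s10_170_208 : T TT 256 :=
  (.q k64 [(.s k80 k95 2 (.s k112 k96 3 (.s k101 k79 6 (.s k117 k69 3 (.d k127 k122 k106 2 6))))),
  (.s k80 k95 2 (.s k96 k112 3 (.s k160 k240 11 (.s k32 k224 7 (.s k192 k128 7 (.d k48 k16 k144 3
  11)))))), (.s k106 k127 6 (.s k74 k122 3 (.s k192 k128 7 (.s k15 k133 10 (.s k165 k240 14 (.s k47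
  k224 10 (.d k63 k149 k31 14 3)))))))] (.c k112 (.l (.s k80 k95 2 (.s k106 k127 6 (.s k122 k74 3
  (.s k192 k128 7 (.s k240 k160 11 (.d k63 k149 k181 14 10))))))) .n))

def s10_170_209 : T TT 256 :=
  (.q k16 [(.s k80 k95 2 (.s k208 k144 7 (.s k149 k31 10 (.s k213 k21 7 (.d k223 k218 k154 2
  10))))), (.s k48 k32 3 (.s k80 k95 2 (.s k144 k208 7 (.s k96 k192 11 (.s k112 k64 3 (.d k240 k176
  k160 7 11)))))), (.s k48 k32 3 (.s k154 k223 10 (.s k26 k218 7 (.s k15 k37 6 (.s k101 k207 14 (.s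
  k112 k79 6 (.d k240 k176 k165 7 14)))))))] (.c k208 (.l (.s k48 k32 3 (.s k80 k95 2 (.s k154 k223
  10 (.s k101 k207 14 (.s k112 k79 6 (.d k240 k176 k160 7 11))))))) .n))

def s10_170_210 : T TT 256 :=
  (.q k16 [(.s k80 k95 2 (.s k208 k144 7 (.s k149 k31 10 (.s k213 k21 7 (.d k223 k218 k154 2
  10))))), (.s k48 k32 3 (.s k80 k95 2 (.s k144 k208 7 (.s k96 k192 11 (.s k112 k64 3 (.d k240 k176
  k160 7 11)))))), (.s k48 k32 3 (.s k154 k223 10 (.s k26 k218 7 (.s k15 k37 6 (.s k101 k207 14 (.s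
  k112 k79 6 (.d k240 k176 k165 7 14)))))))] (.c k208 (.l (.s k48 k32 3 (.s k80 k95 2 (.s k154 k223
  10 (.s k101 k207 14 (.s k112 k79 6 (.d k240 k176 k160 7 11))))))) .n))

def s10_170_211 : T TT 256 :=
  (.q k16 [(.s k80 k95 2 (.s k208 k144 7 (.s k149 k31 10 (.s k213 k21 7 (.d k223 k218 k154 2
  10))))), (.s k48 k32 3 (.s k80 k95 2 (.s k144 k208 7 (.s k96 k192 11 (.s k112 k64 3 (.d k240 k176
  k160 7 11)))))), (.s k48 k32 3 (.s k154 k223 10 (.s k26 k218 7 (.s k15 k37 6 (.s k101 k207 14 (.s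
  k112 k79 6 (.d k240 k176 k165 7 14)))))))] (.c k208 (.l (.s k48 k32 3 (.s k80 k95 2 (.s k154 k223
  10 (.s k101 k207 14 (.s k112 k79 6 (.d k240 k176 k160 7 11))))))) .n))

def s10_170_212 : T TT 256 :=
  (.q k16 [(.s k80 k95 2 (.s k208 k144 7 (.s k149 k31 10 (.s k213 k21 7 (.d k223 k218 k154 2
  10))))), (.s k48 k32 3 (.s k80 k95 2 (.s k144 k208 7 (.s k96 k192 11 (.s k112 k64 3 (.d k240 k176
  k160 7 11)))))), (.s k48 k32 3 (.s k154 k223 10 (.s k26 k218 7 (.s k15 k37 6 (.s k101 k207 14 (.s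
  k112 k79 6 (.d k240 k176 k165 7 14)))))))] (.c k208 (.l (.s k48 k32 3 (.s k80 k95 2 (.s k154 k223
  10 (.s k101 k207 14 (.s k112 k79 6 (.d k240 k176 k160 7 11))))))) .n))

def s10_170_213 : T TT 256 :=
  (.q k16 [(.s k80 k95 2 (.s k154 k223 10 (.s k26 k218 7 (.s k208 k144 7 (.d k31 k21 k149 2 10))))),
  (.s k48 k32 3 (.s k80 k95 2 (.s k240 k160 11 (.s k112 k176 7 (.s k96 k64 3 (.d k144 k208 k192 7
  11)))))), (.s k48 k32 3 (.s k154 k223 10 (.s k101 k207 14 (.s k112 k79 6 (.s k240 k176 7 (.s k15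
  k165 14 (.d k26 k218 k37 7 6)))))))] (.c k208 (.l (.s k48 k32 3 (.s k80 k95 2 (.s k154 k223 10 (.s
  k218 k26 7 (.s k240 k160 11 (.d k207 k101 k229 14 6))))))) .n))

def s10_170_214 : T TT 256 :=
  (.q k16 [(.s k80 k95 2 (.s k208 k144 7 (.s k149 k31 10 (.s k213 k21 7 (.d k223 k218 k154 2
  10))))), (.s k48 k32 3 (.s k80 k95 2 (.s k144 k208 7 (.s k96 k192 11 (.s k112 k64 3 (.d k240 k176
  k160 7 11)))))), (.s k48 k32 3 (.s k154 k223 10 (.s k26 k218 7 (.s k15 k37 6 (.s k101 k207 14 (.s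
  k112 k79 6 (.d k240 k176 k165 7 14)))))))] (.c k208 (.l (.s k48 k32 3 (.s k80 k95 2 (.s k154 k223
  10 (.s k101 k207 14 (.s k112 k79 6 (.d k240 k176 k160 7 11))))))) .n))

def s10_170_215 : T TT 256 :=
  (.q k16 [(.s k80 k95 2 (.s k208 k144 7 (.s k149 k31 10 (.s k213 k21 7 (.d k223 k218 k154 2
  10))))), (.s k48 k32 3 (.s k80 k95 2 (.s k144 k208 7 (.s k96 k192 11 (.s k112 k64 3 (.d k240 k176
  k160 7 11)))))), (.s k48 k32 3 (.s k154 k223 10 (.s k26 k218 7 (.s k15 k37 6 (.s k101 k207 14 (.s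
  k112 k79 6 (.d k240 k176 k165 7 14)))))))] (.c k208 (.l (.s k48 k32 3 (.s k80 k95 2 (.s k154 k223
  10 (.s k101 k207 14 (.s k112 k79 6 (.d k240 k176 k160 7 11))))))) .n))

def s10_170_216 : T TT 256 :=
  (.q k16 [(.s k80 k95 2 (.s k208 k144 7 (.s k149 k31 10 (.s k213 k21 7 (.d k223 k218 k154 2
  10))))), (.s k48 k32 3 (.s k80 k95 2 (.s k144 k208 7 (.s k96 k192 11 (.s k112 k64 3 (.d k240 k176
  k160 7 11)))))), (.s k48 k32 3 (.s k154 k223 10 (.s k26 k218 7 (.s k15 k37 6 (.s k101 k207 14 (.s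
  k112 k79 6 (.d k240 k176 k165 7 14)))))))] (.c k208 (.l (.s k48 k32 3 (.s k80 k95 2 (.s k154 k223
  10 (.s k101 k207 14 (.s k112 k79 6 (.d k240 k176 k160 7 11))))))) .n))

def s10_170_217 : T TT 256 :=
  (.q k16 [(.s k80 k95 2 (.s k208 k144 7 (.s k149 k31 10 (.s k213 k21 7 (.d k223 k218 k154 2
  10))))), (.s k48 k32 3 (.s k80 k95 2 (.s k144 k208 7 (.s k96 k192 11 (.s k112 k64 3 (.d k240 k176
  k160 7 11)))))), (.s k48 k32 3 (.s k154 k223 10 (.s k26 k218 7 (.s k15 k37 6 (.s k101 k207 14 (.s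
  k112 k79 6 (.d k240 k176 k165 7 14)))))))] (.c k208 (.l (.s k48 k32 3 (.s k80 k95 2 (.s k154 k223
  10 (.s k101 k207 14 (.s k112 k79 6 (.d k240 k176 k160 7 11))))))) .n))

def s10_170_218 : T TT 256 :=
  (.q k64 [(.s k80 k95 2 (.s k112 k96 3 (.s k101 k79 6 (.s k117 k69 3 (.d k127 k122 k106 2 6))))),
  (.s k80 k95 2 (.s k96 k112 3 (.s k160 k240 11 (.s k32 k224 7 (.s k48 k16 3 (.d k192 k128 k144 7
  11)))))), (.s k106 k127 6 (.s k74 k122 3 (.s k192 k128 7 (.s k15 k133 10 (.s k149 k63 14 (.s k208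
  k31 10 (.d k240 k224 k165 3 14)))))))] (.c k112 (.l (.s k80 k95 2 (.s k106 k127 6 (.s k122 k74 3
  (.s k192 k128 7 (.s k240 k160 11 (.d k63 k149 k181 14 10))))))) .n))

def s10_170_219 : T TT 256 :=
  (.q k16 [(.s k80 k95 2 (.s k208 k144 7 (.s k149 k31 10 (.s k213 k21 7 (.d k223 k218 k154 2
  10))))), (.s k48 k32 3 (.s k80 k95 2 (.s k144 k208 7 (.s k96 k192 11 (.s k112 k64 3 (.d k240 k176
  k160 7 11)))))), (.s k48 k32 3 (.s k154 k223 10 (.s k26 k218 7 (.s k15 k37 6 (.s k101 k207 14 (.s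
  k112 k79 6 (.d k240 k176 k165 7 14)))))))] (.c k208 (.l (.s k48 k32 3 (.s k80 k95 2 (.s k154 k223
  10 (.s k101 k207 14 (.s k112 k79 6 (.d k240 k176 k160 7 11))))))) .n))

def s10_170_220 : T TT 256 :=
  (.q k16 [(.s k80 k95 2 (.s k208 k144 7 (.s k149 k31 10 (.s k213 k21 7 (.d k223 k218 k154 2
  10))))), (.s k48 k32 3 (.s k80 k95 2 (.s k144 k208 7 (.s k96 k192 11 (.s k112 k64 3 (.d k240 k176
  k160 7 11)))))), (.s k48 k32 3 (.s k154 k223 10 (.s k26 k218 7 (.s k15 k37 6 (.s k101 k207 14 (.s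
  k112 k79 6 (.d k240 k176 k165 7 14)))))))] (.c k208 (.l (.s k48 k32 3 (.s k80 k95 2 (.s k154 k223
  10 (.s k101 k207 14 (.s k112 k79 6 (.d k240 k176 k160 7 11))))))) .n))

def s10_170_221 : T TT 256 :=
  (.q k16 [(.s k80 k95 2 (.s k208 k144 7 (.s k149 k31 10 (.s k213 k21 7 (.d k223 k218 k154 2
  10))))), (.s k48 k32 3 (.s k80 k95 2 (.s k144 k208 7 (.s k96 k192 11 (.s k112 k64 3 (.d k240 k176
  k160 7 11)))))), (.s k48 k32 3 (.s k154 k223 10 (.s k26 k218 7 (.s k15 k37 6 (.s k101 k207 14 (.s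
  k112 k79 6 (.d k240 k176 k165 7 14)))))))] (.c k208 (.l (.s k48 k32 3 (.s k80 k95 2 (.s k154 k223
  10 (.s k101 k207 14 (.s k112 k79 6 (.d k240 k176 k160 7 11))))))) .n))

def s10_170_222 : T TT 256 :=
  (.q k16 [(.s k80 k95 2 (.s k208 k144 7 (.s k149 k31 10 (.s k213 k21 7 (.d k223 k218 k154 2
  10))))), (.s k48 k32 3 (.s k80 k95 2 (.s k144 k208 7 (.s k96 k192 11 (.s k112 k64 3 (.d k240 k176
  k160 7 11)))))), (.s k48 k32 3 (.s k154 k223 10 (.s k26 k218 7 (.s k15 k37 6 (.s k101 k207 14 (.s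
  k112 k79 6 (.d k240 k176 k165 7 14)))))))] (.c k208 (.l (.s k48 k32 3 (.s k80 k95 2 (.s k154 k223
  10 (.s k101 k207 14 (.s k112 k79 6 (.d k240 k176 k160 7 11))))))) .n))

def s10_170_223 : T TT 256 :=
  (.q k64 [(.s k80 k95 2 (.s k112 k96 3 (.s k101 k79 6 (.s k117 k69 3 (.d k127 k122 k106 2 6))))),
  (.s k80 k95 2 (.s k96 k112 3 (.s k160 k240 11 (.s k32 k224 7 (.s k48 k16 3 (.d k192 k128 k144 7
  11)))))), (.s k106 k127 6 (.s k74 k122 3 (.s k69 k79 2 (.s k192 k128 7 (.s k133 k15 10 (.s k197 k5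
  7 (.d k207 k202 k138 2 10)))))))] (.c k95 (.l (.s k106 k127 6 (.s k74 k122 3 (.s k192 k128 7 (.s
  k15 k133 10 (.s k149 k63 14 (.s k240 k165 14 (.d k208 k224 k31 3 10)))))))) (.c k112 (.l (.s k80
  k95 2 (.s k106 k127 6 (.s k122 k74 3 (.s k192 k128 7 (.s k240 k160 11 (.d k63 k149 k181 14
  10))))))) .n)))

def s10_170_224 : T TT 256 :=
  (.q k16 [(.s k80 k95 2 (.s k208 k144 7 (.s k149 k31 10 (.s k213 k21 7 (.d k223 k218 k154 2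
  10))))), (.s k48 k32 3 (.s k80 k95 2 (.s k144 k208 7 (.s k96 k192 11 (.s k240 k160 11 (.d k112 k64
  k176 3 7)))))), (.s k48 k32 3 (.s k154 k223 10 (.s k26 k218 7 (.s k15 k37 6 (.s k101 k207 14 (.s
  k112 k79 6 (.d k240 k176 k165 7 14)))))))] (.c k208 (.l (.s k48 k32 3 (.s k80 k95 2 (.s k154 k223
  10 (.s k101 k207 14 (.s k112 k79 6 (.d k240 k160 k176 11 7))))))) .n))

def s10_170_225 : T TT 256 :=
  (.q k16 [(.s k80 k95 2 (.s k208 k144 7 (.s k149 k31 10 (.s k213 k21 7 (.d k223 k218 k154 2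
  10))))), (.s k48 k32 3 (.s k80 k95 2 (.s k144 k208 7 (.s k96 k192 11 (.s k112 k64 3 (.d k240 k176
  k160 7 11)))))), (.s k48 k32 3 (.s k154 k223 10 (.s k26 k218 7 (.s k15 k37 6 (.s k101 k207 14 (.s
  k112 k79 6 (.d k240 k176 k165 7 14)))))))] (.c k208 (.l (.s k48 k32 3 (.s k80 k95 2 (.s k154 k223
  10 (.s k101 k207 14 (.s k112 k79 6 (.d k240 k176 k160 7 11))))))) .n))

def s10_170_226 : T TT 256 :=
  (.q k16 [(.s k80 k95 2 (.s k208 k144 7 (.s k149 k31 10 (.s k213 k21 7 (.d k223 k218 k154 2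
  10))))), (.s k48 k32 3 (.s k80 k95 2 (.s k144 k208 7 (.s k96 k192 11 (.s k112 k64 3 (.d k240 k176
  k160 7 11)))))), (.s k48 k32 3 (.s k154 k223 10 (.s k26 k218 7 (.s k15 k37 6 (.s k101 k207 14 (.s
  k112 k79 6 (.d k240 k176 k165 7 14)))))))] (.c k208 (.l (.s k48 k32 3 (.s k80 k95 2 (.s k154 k223
  10 (.s k101 k207 14 (.s k112 k79 6 (.d k240 k176 k160 7 11))))))) .n))

def s10_170_227 : T TT 256 :=
  (.q k16 [(.s k80 k95 2 (.s k208 k144 7 (.s k149 k31 10 (.s k213 k21 7 (.d k223 k218 k154 2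
  10))))), (.s k48 k32 3 (.s k80 k95 2 (.s k144 k208 7 (.s k96 k192 11 (.s k112 k64 3 (.d k240 k176
  k160 7 11)))))), (.s k48 k32 3 (.s k154 k223 10 (.s k26 k218 7 (.s k15 k37 6 (.s k101 k207 14 (.s
  k112 k79 6 (.d k240 k176 k165 7 14)))))))] (.c k208 (.l (.s k48 k32 3 (.s k80 k95 2 (.s k154 k223
  10 (.s k101 k207 14 (.s k112 k79 6 (.d k240 k176 k160 7 11))))))) .n))

def s10_170_228 : T TT 256 :=
  (.q k16 [(.s k80 k95 2 (.s k208 k144 7 (.s k149 k31 10 (.s k213 k21 7 (.d k223 k218 k154 2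
  10))))), (.s k48 k32 3 (.s k80 k95 2 (.s k144 k208 7 (.s k96 k192 11 (.s k112 k64 3 (.d k240 k176
  k160 7 11)))))), (.s k48 k32 3 (.s k154 k223 10 (.s k26 k218 7 (.s k15 k37 6 (.s k101 k207 14 (.s
  k112 k79 6 (.d k240 k176 k165 7 14)))))))] (.c k208 (.l (.s k48 k32 3 (.s k80 k95 2 (.s k154 k223
  10 (.s k101 k207 14 (.s k112 k79 6 (.d k240 k176 k160 7 11))))))) .n))

def s10_170_229 : T TT 256 :=
  (.q k16 [(.s k80 k95 2 (.s k208 k144 7 (.s k149 k31 10 (.s k213 k21 7 (.d k223 k218 k154 2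
  10))))), (.s k48 k32 3 (.s k80 k95 2 (.s k144 k208 7 (.s k96 k192 11 (.s k112 k64 3 (.d k240 k176
  k160 7 11)))))), (.s k48 k32 3 (.s k154 k223 10 (.s k26 k218 7 (.s k15 k37 6 (.s k101 k207 14 (.s
  k240 k165 14 (.d k112 k79 k176 6 7)))))))] (.c k208 (.l (.s k48 k32 3 (.s k80 k95 2 (.s k154 k223
  10 (.s k101 k207 14 (.s k112 k79 6 (.d k240 k176 k160 7 11))))))) .n))

def s10_170_230 : T TT 256 :=
  (.q k16 [(.s k80 k95 2 (.s k208 k144 7 (.s k149 k31 10 (.s k213 k21 7 (.d k223 k218 k154 2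
  10))))), (.s k48 k32 3 (.s k80 k95 2 (.s k144 k208 7 (.s k96 k192 11 (.s k112 k64 3 (.d k240 k176
  k160 7 11)))))), (.s k48 k32 3 (.s k154 k223 10 (.s k26 k218 7 (.s k15 k37 6 (.s k101 k207 14 (.s
  k112 k79 6 (.d k240 k176 k165 7 14)))))))] (.c k208 (.l (.s k48 k32 3 (.s k80 k95 2 (.s k154 k223
  10 (.s k101 k207 14 (.s k112 k79 6 (.d k240 k176 k160 7 11))))))) .n))

def s10_170_231 : T TT 256 :=
  (.q k16 [(.s k80 k95 2 (.s k208 k144 7 (.s k149 k31 10 (.s k213 k21 7 (.d k223 k218 k154 2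
  10))))), (.s k48 k32 3 (.s k80 k95 2 (.s k144 k208 7 (.s k96 k192 11 (.s k112 k64 3 (.d k240 k176
  k160 7 11)))))), (.s k48 k32 3 (.s k154 k223 10 (.s k26 k218 7 (.s k15 k37 6 (.s k101 k207 14 (.s
  k112 k79 6 (.d k240 k176 k165 7 14)))))))] (.c k208 (.l (.s k48 k32 3 (.s k80 k95 2 (.s k154 k223
  10 (.s k101 k207 14 (.s k112 k79 6 (.d k240 k176 k160 7 11))))))) .n))

def s10_170_232 : T TT 256 :=
  (.q k16 [(.s k80 k95 2 (.s k208 k144 7 (.s k149 k31 10 (.s k213 k21 7 (.d k223 k218 k154 2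
  10))))), (.s k48 k32 3 (.s k80 k95 2 (.s k144 k208 7 (.s k96 k192 11 (.s k112 k64 3 (.d k240 k176
  k160 7 11)))))), (.s k48 k32 3 (.s k154 k223 10 (.s k26 k218 7 (.s k15 k37 6 (.s k101 k207 14 (.s
  k112 k79 6 (.d k240 k176 k165 7 14)))))))] (.c k208 (.l (.s k48 k32 3 (.s k80 k95 2 (.s k154 k223
  10 (.s k101 k207 14 (.s k112 k79 6 (.d k240 k176 k160 7 11))))))) .n))

def s10_170_233 : T TT 256 :=
  (.q k16 [(.s k80 k95 2 (.s k208 k144 7 (.s k149 k31 10 (.s k213 k21 7 (.d k223 k218 k154 2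
  10))))), (.s k48 k32 3 (.s k80 k95 2 (.s k144 k208 7 (.s k96 k192 11 (.s k112 k64 3 (.d k240 k176
  k160 7 11)))))), (.s k48 k32 3 (.s k154 k223 10 (.s k26 k218 7 (.s k15 k37 6 (.s k101 k207 14 (.s
  k112 k79 6 (.d k240 k176 k165 7 14)))))))] (.c k208 (.l (.s k48 k32 3 (.s k80 k95 2 (.s k154 k223
  10 (.s k101 k207 14 (.s k112 k79 6 (.d k240 k176 k160 7 11))))))) .n))

def s10_170_234 : T TT 256 :=
  (.q k106 [(.s k64 k127 6 (.s k74 k122 3 (.s k79 k69 2 (.s k80 k95 2 (.d k112 k96 k101 3 6))))),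
  (.s k80 k95 2 (.s k122 k74 3 (.s k240 k160 11 (.s k63 k181 10 (.s k21 k42 6 (.d k149 k213 k192 7
  14)))))), (.s k64 k127 6 (.s k80 k95 2 (.s k192 k128 7 (.s k149 k63 14 (.s k208 k31 10 (.d k240
  k224 k160 3 11)))))), (.s k64 k127 6 (.s k74 k122 3 (.s k192 k128 7 (.s k15 k133 10 (.s k149 k63
  14 (.s k208 k31 10 (.d k240 k224 k165 3 14)))))))] .n)

def s10_170_235 : T TT 256 :=
  (.f k80 k95 2 (.q k105 [(.s k65 k125 5 (.s k75 k120 4 (.s k195 k130 8 (.s k15 k135 9 (.d k240 k160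
  k165 11 14))))), (.s k120 k75 4 (.s k240 k160 11 (.s k60 k180 9 (.s k20 k40 5 (.d k150 k215 k195 8
  14))))), (.s k65 k125 5 (.s k195 k130 8 (.s k150 k60 14 (.s k210 k30 9 (.d k240 k225 k160 4
  11)))))] (.c k150 (.l (.s k65 k125 5 (.s k240 k160 11 (.s k165 k15 14 (.s k225 k45 9 (.d k195 k210
  k130 4 8)))))) (.c k160 (.l (.s k65 k125 5 (.s k75 k120 4 (.s k195 k130 8 (.s k15 k135 9 (.s k150
  k60 14 (.s k210 k30 9 (.d k240 k225 k165 4 14)))))))) (.c k195 (.l (.s k120 k75 4 (.s k125 k65 5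
  (.s k240 k160 11 (.s k60 k180 9 (.s k255 k190 8 (.s k245 k250 2 (.d k165 k15 k5 14 11)))))))) (.c
  k240 (.q k1 [(.s k65 k125 5 (.s k193 k129 7 (.s k149 k61 13 (.s k213 k21 7 (.d k253 k233 k169 5
  13))))), (.s k3 k2 0 (.s k65 k125 5 (.s k129 k193 7 (.s k66 k192 8 (.s k67 k64 0 (.d k195 k131
  k130 7 8)))))), (.s k3 k2 0 (.s k169 k253 13 (.s k41 k233 7 (.s k60 k22 6 (.s k20 k40 5 (.d k150
  k215 k195 8 14))))))] (.c k193 (.l (.s k3 k2 0 (.s k65 k125 5 (.s k169 k253 13 (.s k86 k252 14 (.s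
  k67 k124 6 (.d k195 k131 k130 7 8))))))) .n)) .n))))))

def s10_170_236 : T TT 256 :=
  (.q k16 [(.s k80 k95 2 (.s k208 k144 7 (.s k149 k31 10 (.s k213 k21 7 (.d k223 k218 k154 2
  10))))), (.s k48 k32 3 (.s k80 k95 2 (.s k144 k208 7 (.s k96 k192 11 (.s k112 k64 3 (.d k240 k176
  k160 7 11)))))), (.s k48 k32 3 (.s k154 k223 10 (.s k26 k218 7 (.s k15 k37 6 (.s k101 k207 14 (.s
  k112 k79 6 (.d k240 k176 k165 7 14)))))))] (.c k208 (.l (.s k48 k32 3 (.s k80 k95 2 (.s k154 k223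
  10 (.s k101 k207 14 (.s k112 k79 6 (.d k240 k176 k160 7 11))))))) .n))

def s10_170_237 : T TT 256 :=
  (.q k16 [(.s k80 k95 2 (.s k208 k144 7 (.s k149 k31 10 (.s k213 k21 7 (.d k223 k218 k154 2
  10))))), (.s k48 k32 3 (.s k80 k95 2 (.s k144 k208 7 (.s k96 k192 11 (.s k112 k64 3 (.d k240 k176
  k160 7 11)))))), (.s k48 k32 3 (.s k154 k223 10 (.s k26 k218 7 (.s k15 k37 6 (.s k101 k207 14 (.s
  k112 k79 6 (.d k240 k176 k165 7 14)))))))] (.c k208 (.l (.s k48 k32 3 (.s k80 k95 2 (.s k154 k223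
  10 (.s k101 k207 14 (.s k112 k79 6 (.d k240 k176 k160 7 11))))))) .n))

def s10_170_238 : T TT 256 :=
  (.f k80 k95 2 (.q k102 [(.s k68 k119 4 (.s k78 k114 5 (.s k204 k136 9 (.s k15 k141 8 (.d k240 k160
  k165 11 14))))), (.s k114 k78 5 (.s k240 k160 11 (.s k51 k177 8 (.s k17 k34 4 (.d k153 k221 k204 9
  14))))), (.s k68 k119 4 (.s k204 k136 9 (.s k153 k51 14 (.s k216 k27 8 (.d k240 k228 k160 5
  11)))))] (.c k153 (.l (.s k68 k119 4 (.s k240 k160 11 (.s k165 k15 14 (.s k228 k39 8 (.d k204 k216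
  k136 5 9)))))) (.c k160 (.l (.s k68 k119 4 (.s k78 k114 5 (.s k204 k136 9 (.s k15 k141 8 (.s k153
  k51 14 (.s k216 k27 8 (.d k240 k228 k165 5 14)))))))) (.c k204 (.l (.s k114 k78 5 (.s k119 k68 4
  (.s k240 k160 11 (.s k51 k177 8 (.s k255 k187 9 (.s k245 k250 2 (.d k165 k15 k5 14 11)))))))) (.c
  k240 (.q k3 [(.s k1 k2 0 (.s k68 k119 4 (.s k169 k253 13 (.s k35 k236 10 (.s k51 k19 3 (.d k204
  k136 k153 9 14)))))), (.s k68 k119 4 (.s k204 k136 9 (.s k70 k137 10 (.s k86 k118 3 (.s k84 k87 0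
  (.d k252 k168 k169 13 14)))))), (.s k1 k2 0 (.s k169 k253 13 (.s k86 k252 14 (.s k82 k94 1 (.s k83
  k81 0 (.s k84 k87 0 (.d k92 k88 k89 1 2))))))), (.s k2 k1 0 (.s k68 k119 4 (.s k204 k136 9 (.s k70
  k137 10 (.s k69 k71 0 (.d k138 k206 k207 9 10))))))] .n) .n))))))

def s10_170_239 : T TT 256 :=
  (.q k101 [(.s k80 k95 2 (.s k112 k79 6 (.s k64 k96 3 (.s k117 k69 3 (.d k127 k122 k106 2 6))))),
  (.s k69 k117 3 (.s k80 k95 2 (.s k207 k138 10 (.s k154 k48 14 (.s k218 k26 7 (.d k240 k229 k160 6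
  11)))))), (.s k80 k95 2 (.s k112 k79 6 (.s k240 k160 11 (.s k48 k176 7 (.s k16 k32 3 (.d k154 k223
  k207 10 14)))))), (.s k69 k117 3 (.s k79 k112 6 (.s k207 k138 10 (.s k15 k143 7 (.s k154 k48 14
  (.s k218 k26 7 (.d k240 k229 k165 6 14)))))))] .n)

def s10_170_240 : T TT 256 :=
  (.f k80 k95 2 (.q k16 [(.s k208 k144 7 (.s k149 k31 10 (.s k213 k21 7 (.d k223 k218 k154 2 10)))),
  (.s k48 k32 3 (.s k154 k223 10 (.s k101 k207 14 (.s k112 k79 6 (.s k64 k96 3 (.s k117 k69 3 (.d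
  k127 k122 k106 2 6))))))), (.s k48 k32 3 (.s k144 k208 7 (.s k192 k96 11 (.s k64 k128 7 (.s k106
  k127 6 (.s k149 k63 14 (.d k154 k159 k223 2 10)))))))] (.c k154 (.f k48 k32 3 (.f k144 k208 7 (.f
  k192 k96 11 (.l (.s k64 k128 7 (.s k106 k127 6 (.s k74 k122 3 (.s k15 k133 10 (.s k26 k37 6 (.s
  k21 k31 2 (.d k63 k42 k149 6 14))))))))))) (.c k159 (.l (.s k208 k144 7 (.s k31 k149 10 (.s k154
  k223 10 (.d k26 k21 k218 2 7))))) (.c k223 (.f k144 k208 7 (.f k48 k32 3 (.f k192 k96 11 (.l (.s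
  k64 k128 7 (.s k106 k127 6 (.s k74 k122 3 (.s k15 k133 10 (.s k26 k37 6 (.s k31 k21 2 (.d k63 k47
  k149 3 14))))))))))) .n)))))

def s10_170_241 : T TT 256 :=
  (.q k16 [(.s k80 k95 2 (.s k208 k144 7 (.s k149 k31 10 (.s k213 k21 7 (.d k223 k218 k154 2
  10))))), (.s k48 k32 3 (.s k80 k95 2 (.s k144 k208 7 (.s k96 k192 11 (.s k112 k64 3 (.d k240 k176
  k160 7 11)))))), (.s k48 k32 3 (.s k154 k223 10 (.s k26 k218 7 (.s k15 k37 6 (.s k101 k207 14 (.s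
  k112 k79 6 (.d k240 k176 k165 7 14)))))))] (.c k208 (.l (.s k48 k32 3 (.s k80 k95 2 (.s k154 k223
  10 (.s k101 k207 14 (.s k112 k79 6 (.d k240 k176 k160 7 11))))))) .n))

def s10_170_242 : T TT 256 :=
  (.q k16 [(.s k80 k95 2 (.s k208 k144 7 (.s k149 k31 10 (.s k213 k21 7 (.d k223 k218 k154 2
  10))))), (.s k48 k32 3 (.s k80 k95 2 (.s k144 k208 7 (.s k96 k192 11 (.s k112 k64 3 (.d k240 k176
  k160 7 11)))))), (.s k48 k32 3 (.s k154 k223 10 (.s k26 k218 7 (.s k15 k37 6 (.s k101 k207 14 (.s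
  k112 k79 6 (.d k240 k176 k165 7 14)))))))] (.c k208 (.l (.s k48 k32 3 (.s k80 k95 2 (.s k154 k223
  10 (.s k101 k207 14 (.s k112 k79 6 (.d k240 k176 k160 7 11))))))) .n))

def s10_170_243 : T TT 256 :=
  (.q k16 [(.s k80 k95 2 (.s k208 k144 7 (.s k149 k31 10 (.s k213 k21 7 (.d k223 k218 k154 2
  10))))), (.s k48 k32 3 (.s k80 k95 2 (.s k144 k208 7 (.s k96 k192 11 (.s k112 k64 3 (.d k240 k176
  k160 7 11)))))), (.s k48 k32 3 (.s k154 k223 10 (.s k26 k218 7 (.s k15 k37 6 (.s k101 k207 14 (.s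
  k112 k79 6 (.d k240 k176 k165 7 14)))))))] (.c k208 (.l (.s k48 k32 3 (.s k80 k95 2 (.s k154 k223
  10 (.s k101 k207 14 (.s k112 k79 6 (.d k240 k176 k160 7 11))))))) .n))

def s10_170_244 : T TT 256 :=
  (.q k16 [(.s k80 k95 2 (.s k208 k144 7 (.s k149 k31 10 (.s k213 k21 7 (.d k223 k218 k154 2
  10))))), (.s k48 k32 3 (.s k80 k95 2 (.s k144 k208 7 (.s k96 k192 11 (.s k112 k64 3 (.d k240 k176
  k160 7 11)))))), (.s k48 k32 3 (.s k154 k223 10 (.s k26 k218 7 (.s k15 k37 6 (.s k101 k207 14 (.s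
  k112 k79 6 (.d k240 k176 k165 7 14)))))))] (.c k208 (.l (.s k48 k32 3 (.s k80 k95 2 (.s k154 k223
  10 (.s k101 k207 14 (.s k112 k79 6 (.d k240 k176 k160 7 11))))))) .n))

def s10_170_245 : T TT 256 :=
  (.q k16 [(.s k80 k95 2 (.s k208 k144 7 (.s k149 k31 10 (.s k213 k21 7 (.d k223 k218 k154 2
  10))))), (.s k48 k32 3 (.s k80 k95 2 (.s k144 k208 7 (.s k96 k192 11 (.s k112 k64 3 (.d k240 k176
  k160 7 11)))))), (.s k48 k32 3 (.s k154 k223 10 (.s k26 k218 7 (.s k15 k37 6 (.s k101 k207 14 (.s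
  k112 k79 6 (.d k240 k176 k165 7 14)))))))] (.c k208 (.l (.s k48 k32 3 (.s k80 k95 2 (.s k154 k223
  10 (.s k101 k207 14 (.s k112 k79 6 (.d k240 k176 k160 7 11))))))) .n))

def s10_170_246 : T TT 256 :=
  (.q k16 [(.s k80 k95 2 (.s k208 k144 7 (.s k149 k31 10 (.s k213 k21 7 (.d k223 k218 k154 2
  10))))), (.s k48 k32 3 (.s k80 k95 2 (.s k144 k208 7 (.s k96 k192 11 (.s k112 k64 3 (.d k240 k176
  k160 7 11)))))), (.s k48 k32 3 (.s k154 k223 10 (.s k26 k218 7 (.s k15 k37 6 (.s k101 k207 14 (.s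
  k112 k79 6 (.d k240 k176 k165 7 14)))))))] (.c k208 (.l (.s k48 k32 3 (.s k80 k95 2 (.s k154 k223
  10 (.s k101 k207 14 (.s k112 k79 6 (.d k240 k176 k160 7 11))))))) .n))

def s10_170_247 : T TT 256 :=
  (.q k16 [(.s k80 k95 2 (.s k208 k144 7 (.s k149 k31 10 (.s k213 k21 7 (.d k223 k218 k154 2
  10))))), (.s k48 k32 3 (.s k80 k95 2 (.s k144 k208 7 (.s k96 k192 11 (.s k112 k64 3 (.d k240 k176
  k160 7 11)))))), (.s k48 k32 3 (.s k154 k223 10 (.s k26 k218 7 (.s k15 k37 6 (.s k101 k207 14 (.s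
  k112 k79 6 (.d k240 k176 k165 7 14)))))))] (.c k208 (.l (.s k48 k32 3 (.s k80 k95 2 (.s k154 k223
  10 (.s k101 k207 14 (.s k112 k79 6 (.d k240 k176 k160 7 11))))))) .n))

def s10_170_248 : T TT 256 :=
  (.q k16 [(.s k80 k95 2 (.s k208 k144 7 (.s k149 k31 10 (.s k213 k21 7 (.d k223 k218 k154 2
  10))))), (.s k48 k32 3 (.s k80 k95 2 (.s k144 k208 7 (.s k96 k192 11 (.s k112 k64 3 (.d k240 k176
  k160 7 11)))))), (.s k48 k32 3 (.s k154 k223 10 (.s k26 k218 7 (.s k15 k37 6 (.s k101 k207 14 (.s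
  k112 k79 6 (.d k240 k176 k165 7 14)))))))] (.c k208 (.l (.s k48 k32 3 (.s k80 k95 2 (.s k154 k223
  10 (.s k101 k207 14 (.s k112 k79 6 (.d k240 k176 k160 7 11))))))) .n))

def s10_170_249 : T TT 256 :=
  (.q k16 [(.s k80 k95 2 (.s k208 k144 7 (.s k149 k31 10 (.s k213 k21 7 (.d k223 k218 k154 2
  10))))), (.s k48 k32 3 (.s k80 k95 2 (.s k144 k208 7 (.s k96 k192 11 (.s k112 k64 3 (.d k240 k176
  k160 7 11)))))), (.s k48 k32 3 (.s k154 k223 10 (.s k26 k218 7 (.s k15 k37 6 (.s k101 k207 14 (.s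
  k112 k79 6 (.d k240 k176 k165 7 14)))))))] (.c k208 (.l (.s k48 k32 3 (.s k80 k95 2 (.s k154 k223
  10 (.s k101 k207 14 (.s k112 k79 6 (.d k240 k176 k160 7 11))))))) .n))

def s10_170_250 : T TT 256 :=
  (.q k16 [(.s k80 k95 2 (.s k208 k144 7 (.s k149 k31 10 (.s k213 k21 7 (.d k223 k218 k154 2
  10))))), (.s k48 k32 3 (.s k80 k95 2 (.s k144 k208 7 (.s k96 k192 11 (.s k112 k64 3 (.d k240 k176
  k160 7 11)))))), (.s k48 k32 3 (.s k154 k223 10 (.s k26 k218 7 (.s k15 k37 6 (.s k101 k207 14 (.s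
  k112 k79 6 (.d k240 k176 k165 7 14)))))))] (.c k208 (.l (.s k48 k32 3 (.s k80 k95 2 (.s k154 k223
  10 (.s k101 k207 14 (.s k112 k79 6 (.d k240 k176 k160 7 11))))))) .n))

def s10_170_251 : T TT 256 :=
  (.q k89 [(.s k91 k88 0 (.s k93 k81 1 (.s k95 k80 2 (.s k83 k87 1 (.d k92 k94 k86 0 2))))), (.s k81
  k93 1 (.s k91 k88 0 (.s k243 k162 12 (.s k15 k167 13 (.s k165 k240 14 (.s k13 k241 13 (.d k12 k166
  k14 14 0))))))), (.s k80 k95 2 (.s k88 k91 0 (.s k240 k160 11 (.s k12 k164 13 (.s k4 k8 1 (.d k166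
  k247 k243 12 14)))))), (.s k80 k95 2 (.s k81 k93 1 (.s k240 k160 11 (.s k165 k15 14 (.s k241 k13
  13 (.d k243 k242 k162 0 12))))))] .n)

def s10_170_252 : T TT 256 :=
  (.q k16 [(.s k80 k95 2 (.s k208 k144 7 (.s k149 k31 10 (.s k213 k21 7 (.d k223 k218 k154 2
  10))))), (.s k48 k32 3 (.s k80 k95 2 (.s k144 k208 7 (.s k96 k192 11 (.s k112 k64 3 (.d k240 k176
  k160 7 11)))))), (.s k48 k32 3 (.s k154 k223 10 (.s k26 k218 7 (.s k15 k37 6 (.s k101 k207 14 (.s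
  k112 k79 6 (.d k240 k176 k165 7 14)))))))] (.c k208 (.l (.s k48 k32 3 (.s k80 k95 2 (.s k154 k223
  10 (.s k101 k207 14 (.s k112 k79 6 (.d k240 k176 k160 7 11))))))) .n))

def s10_170_253 : T TT 256 :=
  (.q k16 [(.s k80 k95 2 (.s k208 k144 7 (.s k149 k31 10 (.s k213 k21 7 (.d k223 k218 k154 2
  10))))), (.s k48 k32 3 (.s k80 k95 2 (.s k144 k208 7 (.s k96 k192 11 (.s k112 k64 3 (.d k240 k176
  k160 7 11)))))), (.s k48 k32 3 (.s k154 k223 10 (.s k26 k218 7 (.s k15 k37 6 (.s k101 k207 14 (.s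
  k112 k79 6 (.d k240 k176 k165 7 14)))))))] (.c k208 (.l (.s k48 k32 3 (.s k80 k95 2 (.s k154 k223
  10 (.s k101 k207 14 (.s k112 k79 6 (.d k240 k176 k160 7 11))))))) .n))

def s10_170_254 : T TT 256 :=
  (.q k86 [(.s k87 k84 0 (.s k94 k82 1 (.s k95 k80 2 (.s k83 k91 1 (.d k92 k93 k89 0 2))))), (.s k84
  k87 0 (.s k94 k82 1 (.s k252 k168 13 (.s k15 k173 12 (.s k165 k240 14 (.s k7 k244 12 (.d k3 k169
  k11 14 1))))))), (.s k80 k95 2 (.s k84 k87 0 (.s k240 k160 11 (.s k165 k15 14 (.s k244 k7 12 (.d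
  k252 k248 k168 1 13)))))), (.s k80 k95 2 (.s k82 k94 1 (.s k240 k160 11 (.s k3 k161 12 (.s k1 k2 0
  (.d k169 k253 k252 13 14))))))] .n)

def s10_170_255 : T TT 256 :=
  (.q k16 [(.s k80 k95 2 (.s k208 k144 7 (.s k149 k31 10 (.s k213 k21 7 (.d k223 k218 k154 2
  10))))), (.s k48 k32 3 (.s k154 k223 10 (.s k26 k218 7 (.s k15 k37 6 (.s k165 k240 14 (.s k143
  k176 6 (.d k207 k101 k79 14 7))))))), (.s k48 k32 3 (.s k80 k95 2 (.s k144 k208 7 (.s k96 k192 11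
  (.s k112 k64 3 (.d k240 k176 k160 7 11)))))), (.s k48 k32 3 (.s k80 k95 2 (.s k154 k223 10 (.s
  k218 k26 7 (.s k240 k160 11 (.d k207 k101 k229 14 6))))))] (.c k15 (.l (.s k95 k80 2 (.s k223 k154
  10 (.s k31 k159 7 (.s k21 k26 2 (.d k149 k213 k208 7 10)))))) .n))

def t10_170 : T TT 256 :=
  (.q k90 [] (.c k1 s10_170_1 (.c k2 s10_170_2 (.c k3 s10_170_3 (.c k4 s10_170_4 (.c k5 s10_170_5
  (.c k6 s10_170_6 (.c k7 s10_170_7 (.c k8 s10_170_8 (.c k9 s10_170_9 (.c k11 s10_170_11 (.c k12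
  s10_170_12 (.c k13 s10_170_13 (.c k14 s10_170_14 (.c k15 s10_170_15 (.c k16 s10_170_16 (.c k17
  s10_170_17 (.c k18 s10_170_18 (.c k19 s10_170_19 (.c k20 s10_170_20 (.c k21 s10_170_21 (.c k22
  s10_170_22 (.c k23 s10_170_23 (.c k24 s10_170_24 (.c k25 s10_170_25 (.c k26 s10_170_26 (.c k27
  s10_170_27 (.c k28 s10_170_28 (.c k29 s10_170_29 (.c k30 s10_170_30 (.c k31 s10_170_31 (.c k32
  s10_170_32 (.c k33 s10_170_33 (.c k34 s10_170_34 (.c k35 s10_170_35 (.c k36 s10_170_36 (.c k37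
  s10_170_37 (.c k38 s10_170_38 (.c k39 s10_170_39 (.c k40 s10_170_40 (.c k41 s10_170_41 (.c k42
  s10_170_42 (.c k43 s10_170_43 (.c k44 s10_170_44 (.c k45 s10_170_45 (.c k46 s10_170_46 (.c k47
  s10_170_47 (.c k48 s10_170_48 (.c k49 s10_170_49 (.c k50 s10_170_50 (.c k51 s10_170_51 (.c k52
  s10_170_52 (.c k53 s10_170_53 (.c k54 s10_170_54 (.c k55 s10_170_55 (.c k56 s10_170_56 (.c k57
  s10_170_57 (.c k58 s10_170_58 (.c k59 s10_170_59 (.c k60 s10_170_60 (.c k61 s10_170_61 (.c k62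
  s10_170_62 (.c k63 s10_170_63 (.c k64 s10_170_64 (.c k65 s10_170_65 (.c k66 s10_170_66 (.c k67
  s10_170_67 (.c k68 s10_170_68 (.c k69 s10_170_69 (.c k70 s10_170_70 (.c k71 s10_170_71 (.c k72
  s10_170_72 (.c k73 s10_170_73 (.c k74 s10_170_74 (.c k75 s10_170_75 (.c k76 s10_170_76 (.c k77
  s10_170_77 (.c k78 s10_170_78 (.c k79 s10_170_79 (.c k80 s10_170_80 (.c k81 s10_170_81 (.c k82
  s10_170_82 (.c k83 s10_170_83 (.c k84 s10_170_84 (.c k86 s10_170_86 (.c k87 s10_170_87 (.c k88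
  s10_170_88 (.c k89 s10_170_89 (.c k91 s10_170_91 (.c k92 s10_170_92 (.c k93 s10_170_93 (.c k94
  s10_170_94 (.c k95 s10_170_95 (.c k96 s10_170_96 (.c k97 s10_170_97 (.c k98 s10_170_98 (.c k99
  s10_170_99 (.c k100 s10_170_100 (.c k101 s10_170_101 (.c k102 s10_170_102 (.c k103 s10_170_103 (.c
  k104 s10_170_104 (.c k105 s10_170_105 (.c k106 s10_170_106 (.c k107 s10_170_107 (.c k108
  s10_170_108 (.c k109 s10_170_109 (.c k110 s10_170_110 (.c k111 s10_170_111 (.c k112 s10_170_112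
  (.c k113 s10_170_113 (.c k114 s10_170_114 (.c k115 s10_170_115 (.c k116 s10_170_116 (.c k117
  s10_170_117 (.c k118 s10_170_118 (.c k119 s10_170_119 (.c k120 s10_170_120 (.c k121 s10_170_121
  (.c k122 s10_170_122 (.c k123 s10_170_123 (.c k124 s10_170_124 (.c k125 s10_170_125 (.c k126
  s10_170_126 (.c k127 s10_170_127 (.c k128 s10_170_128 (.c k129 s10_170_129 (.c k130 s10_170_130
  (.c k131 s10_170_131 (.c k132 s10_170_132 (.c k133 s10_170_133 (.c k134 s10_170_134 (.c k135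
  s10_170_135 (.c k136 s10_170_136 (.c k137 s10_170_137 (.c k138 s10_170_138 (.c k139 s10_170_139
  (.c k140 s10_170_140 (.c k141 s10_170_141 (.c k142 s10_170_142 (.c k143 s10_170_143 (.c k144
  s10_170_144 (.c k145 s10_170_145 (.c k146 s10_170_146 (.c k147 s10_170_147 (.c k148 s10_170_148
  (.c k149 s10_170_149 (.c k150 s10_170_150 (.c k151 s10_170_151 (.c k152 s10_170_152 (.c k153
  s10_170_153 (.c k154 s10_170_154 (.c k155 s10_170_155 (.c k156 s10_170_156 (.c k157 s10_170_157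
  (.c k158 s10_170_158 (.c k159 s10_170_159 (.c k160 s10_170_160 (.c k161 s10_170_161 (.c k162
  s10_170_162 (.c k163 s10_170_163 (.c k164 s10_170_164 (.c k165 s10_170_165 (.c k166 s10_170_166
  (.c k167 s10_170_167 (.c k168 s10_170_168 (.c k169 s10_170_169 (.c k171 s10_170_171 (.c k172
  s10_170_172 (.c k173 s10_170_173 (.c k174 s10_170_174 (.c k175 s10_170_175 (.c k176 s10_170_176
  (.c k177 s10_170_177 (.c k178 s10_170_178 (.c k179 s10_170_179 (.c k180 s10_170_180 (.c k181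
  s10_170_181 (.c k182 s10_170_182 (.c k183 s10_170_183 (.c k184 s10_170_184 (.c k185 s10_170_185
  (.c k186 s10_170_186 (.c k187 s10_170_187 (.c k188 s10_170_188 (.c k189 s10_170_189 (.c k190
  s10_170_190 (.c k191 s10_170_191 (.c k192 s10_170_192 (.c k193 s10_170_193 (.c k194 s10_170_194
  (.c k195 s10_170_195 (.c k196 s10_170_196 (.c k197 s10_170_197 (.c k198 s10_170_198 (.c k199
  s10_170_199 (.c k200 s10_170_200 (.c k201 s10_170_201 (.c k202 s10_170_202 (.c k203 s10_170_203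
  (.c k204 s10_170_204 (.c k205 s10_170_205 (.c k206 s10_170_206 (.c k207 s10_170_207 (.c k208
  s10_170_208 (.c k209 s10_170_209 (.c k210 s10_170_210 (.c k211 s10_170_211 (.c k212 s10_170_212
  (.c k213 s10_170_213 (.c k214 s10_170_214 (.c k215 s10_170_215 (.c k216 s10_170_216 (.c k217
  s10_170_217 (.c k218 s10_170_218 (.c k219 s10_170_219 (.c k220 s10_170_220 (.c k221 s10_170_221
  (.c k222 s10_170_222 (.c k223 s10_170_223 (.c k224 s10_170_224 (.c k225 s10_170_225 (.c k226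
  s10_170_226 (.c k227 s10_170_227 (.c k228 s10_170_228 (.c k229 s10_170_229 (.c k230 s10_170_230
  (.c k231 s10_170_231 (.c k232 s10_170_232 (.c k233 s10_170_233 (.c k234 s10_170_234 (.c k235
  s10_170_235 (.c k236 s10_170_236 (.c k237 s10_170_237 (.c k238 s10_170_238 (.c k239 s10_170_239
  (.c k240 s10_170_240 (.c k241 s10_170_241 (.c k242 s10_170_242 (.c k243 s10_170_243 (.c k244
  s10_170_244 (.c k245 s10_170_245 (.c k246 s10_170_246 (.c k247 s10_170_247 (.c k248 s10_170_248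
  (.c k249 s10_170_249 (.c k250 s10_170_250 (.c k251 s10_170_251 (.c k252 s10_170_252 (.c k253
  s10_170_253 (.c k254 s10_170_254 (.c k255 s10_170_255
  .n))))))))))))))))))))))))))))))))))))))))))))))))))))))))))))))))))))))))))))))))
  ))))))))))))))))))))))))))))))))))))))))))))))))))))))))))))))))))))))))))))))))
  )))))))))))))))))))))))))))))))))))))))))))))))))))))))))))))))))))))))))))))))) ))))))))))))

/-- roots with certificates -/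
def certs : List (Cell TT 256 × Cell TT 256 × T TT 256) :=
  [(k6, k255, t6_255), (k7, k170, t7_170), (k7, k255, t7_255), (k10, k170, t10_170)]

theorem c6_255 : rootOK k6 k255 t6_255 = true := by decide +kernel

theorem c7_170 : rootOK k7 k170 t7_170 = true := by decide +kernel

theorem c7_255 : rootOK k7 k255 t7_255 = true := by decide +kernel

theorem c10_170 : rootOK k10 k170 t10_170 = true := by decide +kernel

theorem ok : certsOK certs = true :=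
  certsOK_cons c6_255 (certsOK_cons c7_170 (certsOK_cons c7_255 (certsOK_cons c10_170 (certsOK_nil
  ))))

theorem sound (k : Nat) (hk : (bits certs).testBit k = true) : PI k :=
  certs_sound certs ok k hk

end Pool.Agent.TTT.B04
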