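import Pool.Agent.TTT.Sym

set_option autoImplicit false
set_option maxRecDepth 100000

namespace Pool.Agent.TTT.B05

def s10_255_1 : T TT 256 :=
  (.q k252 [(.s k84 k168 13 (.d k86 k87 k169 0 14))] (.c k84 (.q k16 [(.s k48 k32 3 (.s k86 k169 14
  (.s k154 k223 10 (.d k18 k33 k222 4 9)))), (.s k48 k32 3 (.s k18 k33 4 (.s k17 k19 0 (.s k153 k221
  9 (.s k169 k86 14 (.s k185 k137 3 (.d k51 k34 k118 4 10))))))), (.s k48 k32 3 (.s k154 k223 10 (.s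
  k184 k116 9 (.s k139 k169 4 (.d k207 k71 k101 9 14))))), (.s k86 k169 14 (.s k154 k223 10 (.s k222
  k18 9 (.s k207 k237 4 (.s k69 k138 10 (.s k71 k139 9 (.d k101 k117 k116 3 4)))))))] (.c k169 (.l
  (.s k48 k32 3 (.s k18 k33 4 (.s k154 k223 10 (.s k222 k86 9 (.d k207 k237 k101 4 14)))))) .n)) (.c
  k86 (.f k84 k168 13 (.q k16 [(.s k48 k32 3 (.s k116 k184 9 (.s k100 k68 3 (.d k152 k220 k204 9
  13)))), (.s k48 k32 3 (.s k154 k223 10 (.s k184 k116 9 (.s k139 k169 4 (.d k207 k71 k101 9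
  14))))), (.s k48 k32 3 (.s k18 k33 4 (.s k17 k19 0 (.s k152 k220 9 (.s k153 k221 9 (.d k154 k223
  k155 10 0))))))] (.c k32 (.q k100 [(.s k116 k68 3 (.s k48 k184 9 (.d k152 k220 k204 9 13))), (.s
  k68 k116 3 (.s k102 k119 4 (.s k101 k103 0 (.s k154 k223 10 (.s k207 k48 14 (.d k69 k117 k138 3
  10)))))), (.s k152 k220 9 (.s k48 k204 13 (.s k18 k33 4 (.s k154 k223 10 (.s k17 k19 0 (.d k153
  k155 k221 0 9))))))] (.c k48 (.l (.s k68 k116 3 (.s k204 k136 9 (.d k220 k152 k236 9 3)))) .n))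
  (.c k48 (.f k220 k152 9 (.l (.s k204 k236 3 (.s k70 k137 10 (.s k223 k154 10 (.s k222 k221 0 (.s
  k207 k237 4 (.s k69 k138 10 (.d k68 k136 k71 9 0))))))))) (.c k100 (.l (.s k154 k223 10 (.s k220
  k152 9 (.s k48 k32 3 (.s k236 k204 3 (.s k184 k116 9 (.s k139 k169 4 (.d k207 k71 k101 9
  14)))))))) (.c k236 (.l (.s k152 k220 9 (.s k48 k32 3 (.s k100 k204 13 (.d k116 k68 k184 3 9)))))
  .n)))))) (.c k87 (.q k4 [(.s k12 k8 1 (.s k169 k86 14 (.s k172 k92 11 (.d k166 k163 k247 2 12)))),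
  (.s k84 k168 13 (.s k86 k169 14 (.s k166 k247 12 (.s k6 k246 11 (.s k7 k5 0 (.d k244 k164 k165 11
  12)))))), (.s k12 k8 1 (.s k84 k168 13 (.s k92 k172 11 (.s k88 k80 1 (.d k164 k244 k240 11
  13)))))] (.c k9 (.l (.s k166 k247 12 (.s k169 k86 14 (.s k172 k163 2 (.d k12 k8 k92 1 11))))) .n))
  (.c k168 (.q k16 [(.s k48 k32 3 (.s k154 k223 10 (.s k169 k86 14 (.d k184 k139 k116 4 9)))), (.s
  k86 k169 14 (.s k84 k87 0 (.s k154 k223 10 (.s k18 k222 9 (.s k19 k17 0 (.d k220 k152 k153 9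
  10)))))), (.s k48 k32 3 (.s k18 k33 4 (.s k86 k169 14 (.s k84 k87 0 (.s k220 k152 9 (.d k19 k17
  k153 0 10))))))] (.c k86 (.l (.s k48 k32 3 (.s k154 k223 10 (.s k184 k116 9 (.s k139 k169 4 (.d
  k207 k71 k101 9 14)))))) (.c k169 (.l (.s k48 k32 3 (.s k18 k33 4 (.s k154 k223 10 (.s k222 k86 9
  (.d k207 k237 k101 4 14)))))) .n))) (.c k169 (.q k16 [(.s k48 k32 3 (.s k18 k33 4 (.s k154 k223 10
  (.s k222 k86 9 (.d k207 k237 k101 4 14))))), (.s k48 k32 3 (.s k84 k168 13 (.s k152 k220 9 (.s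
  k100 k204 13 (.d k116 k68 k184 3 9))))), (.s k84 k168 13 (.s k86 k87 0 (.s k154 k223 10 (.s k18
  k222 9 (.s k19 k17 0 (.d k220 k152 k153 9 10))))))] .n) .n))))))

def s10_255_2 : T TT 256 :=
  (.q k86 [(.s k84 k87 0 (.d k252 k168 k169 13 14))] (.c k6 (.q k14 [(.s k84 k87 0 (.d k252 k168
  k169 13 14))] (.c k84 (.q k4 [(.s k12 k8 1 (.s k166 k247 12 (.s k252 k169 14 (.s k92 k172 11 (.d
  k89 k243 k83 14 2))))), (.s k166 k247 12 (.s k90 k242 13 (.s k80 k95 2 (.s k82 k94 1 (.d k240 k160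
  k161 11 12))))), (.s k12 k8 1 (.s k15 k13 0 (.s k11 k7 1 (.s k169 k252 14 (.s k90 k248 12 (.s k80
  k95 2 (.d k240 k160 k165 11 14)))))))] .n) (.c k87 (.q k4 [(.s k12 k8 1 (.s k252 k169 14 (.s k92
  k172 11 (.s k89 k83 2 (.d k166 k247 k243 12 14))))), (.s k166 k247 12 (.s k90 k242 13 (.s k82 k94
  1 (.s k240 k161 12 (.d k80 k95 k160 2 11))))), (.s k12 k8 1 (.s k15 k13 0 (.s k252 k169 14 (.s k84
  k168 13 (.s k244 k164 11 (.d k7 k11 k165 1 12))))))] .n) (.c k168 (.q k4 [(.s k84 k87 0 (.s k244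
  k164 11 (.s k165 k7 12 (.s k245 k5 11 (.d k247 k246 k166 0 12))))), (.s k12 k8 1 (.s k166 k247 12
  (.s k169 k252 14 (.s k163 k172 2 (.d k243 k83 k89 11 14))))), (.s k12 k8 1 (.s k15 k13 0 (.s k87
  k84 0 (.s k247 k166 12 (.d k7 k11 k167 1 11))))), (.s k12 k8 1 (.s k15 k13 0 (.s k84 k87 0 (.s
  k244 k164 11 (.d k7 k11 k165 1 12)))))] .n) (.c k169 (.q k4 [(.s k12 k8 1 (.s k15 k13 0 (.s k84
  k87 0 (.s k244 k164 11 (.d k7 k11 k165 1 12))))), (.s k166 k247 12 (.s k90 k242 13 (.s k80 k95 2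
  (.s k82 k94 1 (.d k240 k160 k161 11 12)))))] (.c k15 (.l (.s k84 k87 0 (.s k244 k164 11 (.s k165
  k7 12 (.s k245 k5 11 (.d k247 k246 k166 0 12)))))) .n)) (.c k252 (.f k84 k87 0 (.q k4 [(.s k12 k8
  1 (.s k15 k13 0 (.s k244 k164 11 (.d k7 k11 k165 1 12)))), (.s k166 k247 12 (.s k90 k242 13 (.s
  k80 k95 2 (.s k82 k94 1 (.d k240 k160 k161 11 12)))))] (.c k7 (.l (.s k12 k8 1 (.s k15 k13 0 (.s
  k164 k244 11 (.s k166 k247 12 (.s k167 k165 0 (.d k243 k89 k91 14 13))))))) (.c k15 (.l (.s k244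
  k164 11 (.s k165 k7 12 (.s k245 k5 11 (.d k247 k246 k166 0 12))))) (.c k253 (.q k254 [(.s k94 k174
  11 (.s k90 k82 1 (.d k166 k242 k247 13 12))), (.s k12 k8 1 (.s k15 k13 0 (.s k244 k164 11 (.d k7
  k11 k165 1 12)))), (.s k166 k247 12 (.s k90 k242 13 (.d k94 k82 k174 1 11)))] .n) (.c k254 (.q
  k253 [(.s k12 k8 1 (.s k15 k13 0 (.s k244 k164 11 (.d k7 k11 k165 1 12)))), (.s k244 k164 11 (.s
  k165 k7 12 (.s k245 k5 11 (.d k247 k246 k166 0 12)))), (.s k12 k8 1 (.s k166 k247 12 (.s k169 k1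
  13 (.s k163 k172 2 (.d k243 k83 k89 11 14)))))] (.c k7 (.l (.s k12 k8 1 (.s k15 k13 0 (.s k164
  k244 11 (.s k166 k247 12 (.s k167 k165 0 (.d k243 k89 k91 14 13))))))) .n)) .n)))))) .n)))))) (.c
  k14 (.q k6 [(.s k84 k87 0 (.d k252 k168 k169 13 14)), (.s k12 k9 2 (.s k166 k246 11 (.d k4 k8 k247
  1 12)))] .n) (.c k84 (.f k252 k169 14 (.q k166 [(.s k6 k246 11 (.s k12 k9 2 (.d k4 k8 k247 1
  12))), (.s k4 k247 12 (.s k6 k246 11 (.d k12 k8 k9 1 2))), (.s k6 k246 11 (.s k12 k9 2 (.s k92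
  k172 11 (.d k89 k83 k243 2 14))))] (.c k6 (.q k14 [(.s k4 k247 12 (.s k12 k8 1 (.s k92 k172 11 (.d
  k89 k243 k83 14 2)))), (.s k90 k242 13 (.s k80 k95 2 (.s k240 k160 11 (.d k82 k94 k161 1 12))))]
  .n) (.c k8 (.l (.s k4 k247 12 (.s k6 k246 11 (.s k7 k5 0 (.s k11 k15 1 (.s k12 k9 2 (.s k92 k172
  11 (.d k89 k243 k83 14 2)))))))) (.c k9 (.l (.s k4 k247 12 (.s k6 k246 11 (.s k7 k5 0 (.s k11 k15
  1 (.s k12 k8 1 (.s k92 k172 11 (.d k89 k243 k83 14 2)))))))) (.c k12 (.l (.s k4 k247 12 (.s k6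
  k246 11 (.s k7 k5 0 (.s k15 k11 1 (.s k94 k173 12 (.s k90 k82 1 (.d k165 k244 k240 12 14))))))))
  (.c k14 (.l (.s k6 k246 11 (.s k4 k247 12 (.d k12 k8 k9 1 2)))) (.c k246 (.l (.s k4 k247 12 (.s
  k12 k8 1 (.s k92 k172 11 (.d k89 k243 k83 14 2))))) .n)))))))) (.c k87 (.q k6 [(.s k12 k9 2 (.s
  k166 k246 11 (.d k4 k8 k247 1 12))), (.s k166 k246 11 (.s k169 k252 14 (.s k163 k172 2 (.s k243
  k83 11 (.d k12 k9 k89 2 14))))), (.s k166 k246 11 (.s k4 k247 12 (.s k7 k5 0 (.s k244 k165 12 (.s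
  k84 k164 11 (.d k252 k168 k169 13 14)))))), (.s k12 k9 2 (.s k8 k4 1 (.s k252 k169 14 (.s k168 k84
  13 (.s k88 k248 11 (.s k164 k240 13 (.d k172 k160 k92 1 11)))))))] .n) (.c k168 (.f k87 k84 0 (.q
  k166 [(.s k6 k246 11 (.s k12 k9 2 (.d k4 k8 k247 1 12))), (.s k247 k4 12 (.s k7 k167 11 (.s k244
  k165 12 (.d k246 k6 k245 11 0)))), (.s k6 k246 11 (.s k12 k9 2 (.s k169 k252 14 (.s k163 k172 2
  (.d k243 k83 k89 11 14)))))] (.c k6 (.q k14 [(.s k90 k242 13 (.s k82 k94 1 (.s k240 k161 12 (.d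
  k80 k95 k160 2 11)))), (.s k4 k247 12 (.s k12 k8 1 (.s k169 k252 14 (.s k243 k89 14 (.d k163 k172
  k83 2 11)))))] .n) (.c k14 (.l (.s k6 k246 11 (.s k4 k247 12 (.d k12 k8 k9 1 2)))) (.c k246 (.l
  (.s k4 k247 12 (.s k12 k8 1 (.s k169 k252 14 (.s k163 k172 2 (.d k243 k83 k89 11 14)))))) .n)))))
  (.c k169 (.q k6 [(.s k12 k9 2 (.s k166 k246 11 (.d k4 k8 k247 1 12))), (.s k84 k87 0 (.s k166 k246
  11 (.s k4 k247 12 (.s k7 k5 0 (.d k244 k164 k165 11 12))))), (.s k12 k9 2 (.s k8 k4 1 (.s k84 k87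
  0 (.s k168 k252 13 (.s k88 k248 11 (.s k80 k92 1 (.d k240 k160 k164 11 13)))))))] (.c k4 (.l (.s
  k12 k9 2 (.s k84 k87 0 (.s k166 k246 11 (.s k89 k243 14 (.s k92 k83 2 (.d k252 k172 k168 11
  13))))))) .n)) (.c k252 (.f k87 k84 0 (.q k166 [(.s k247 k4 12 (.s k7 k167 11 (.s k244 k165 12 (.d
  k246 k6 k245 11 0)))), (.s k6 k246 11 (.s k12 k9 2 (.s k243 k89 14 (.s k81 k162 12 (.s k83 k163 11
  (.s k95 k91 1 (.d k80 k82 k90 0 2)))))))] (.c k6 (.q k14 [(.s k90 k242 13 (.s k80 k95 2 (.s k240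
  k160 11 (.d k82 k94 k161 1 12)))), (.s k4 k247 12 (.s k12 k8 1 (.s k15 k13 0 (.s k243 k89 14 (.s
  k83 k163 11 (.d k91 k95 k167 1 13))))))] (.c k15 (.l (.s k90 k242 13 (.s k95 k80 2 (.s k83 k91 1
  (.s k92 k89 2 (.d k94 k82 k93 1 0)))))) (.c k95 (.l (.s k90 k242 13 (.s k247 k4 12 (.s k7 k167 11
  (.s k15 k11 1 (.d k165 k244 k240 12 14)))))) (.c k253 (.q k254 [(.s k90 k242 13 (.d k94 k82 k174 1
  11)), (.s k4 k247 12 (.s k12 k8 1 (.s k174 k94 11 (.s k243 k89 14 (.d k162 k170 k81 1 12))))), (.s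
  k90 k242 13 (.s k95 k80 2 (.s k83 k91 1 (.s k243 k163 11 (.d k89 k92 k12 2 14)))))] (.c k162 (.l
  (.s k94 k174 11 (.d k90 k82 k242 1 13))) .n)) (.c k254 (.q k253 [(.s k4 k247 12 (.s k12 k8 1 (.s
  k169 k1 13 (.s k163 k172 2 (.d k243 k83 k89 11 14))))), (.s k90 k242 13 (.s k80 k95 2 (.s k82 k94
  1 (.d k240 k160 k161 11 12))))] .n) .n))))) (.c k14 (.l (.s k6 k246 11 (.s k4 k247 12 (.d k12 k8
  k9 1 2)))) (.c k246 (.l (.s k4 k247 12 (.s k12 k8 1 (.s k243 k89 14 (.s k81 k162 12 (.s k83 k163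
  11 (.s k95 k91 1 (.d k80 k82 k90 0 2)))))))) (.c k253 (.q k254 [(.s k247 k4 12 (.s k7 k167 11 (.s
  k244 k165 12 (.d k246 k6 k245 11 0)))), (.s k6 k246 11 (.s k12 k9 2 (.s k243 k89 14 (.s k81 k162
  12 (.s k83 k163 11 (.s k95 k91 1 (.d k80 k82 k90 0 2)))))))] (.c k6 (.q k14 [(.s k90 k242 13 (.d
  k94 k82 k174 1 11)), (.s k4 k247 12 (.s k12 k8 1 (.s k174 k94 11 (.s k243 k89 14 (.d k162 k170 k81
  1 12))))), (.s k90 k242 13 (.s k95 k80 2 (.s k83 k91 1 (.s k243 k163 11 (.d k89 k92 k12 2 14)))))]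
  (.c k162 (.l (.s k94 k174 11 (.d k90 k82 k242 1 13))) .n)) (.c k14 (.l (.s k6 k246 11 (.s k4 k247
  12 (.d k12 k8 k9 1 2)))) (.c k246 (.l (.s k4 k247 12 (.s k12 k8 1 (.s k243 k89 14 (.s k81 k162 12
  (.s k83 k163 11 (.s k95 k91 1 (.d k80 k82 k90 0 2)))))))) .n)))) (.c k254 (.q k253 [(.s k247 k4 12
  (.s k7 k167 11 (.s k244 k165 12 (.d k246 k6 k245 11 0)))), (.s k6 k246 11 (.s k12 k9 2 (.s k169 k1
  13 (.s k163 k172 2 (.d k243 k83 k89 11 14)))))] (.c k6 (.q k14 [(.s k4 k247 12 (.s k12 k8 1 (.s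
  k169 k1 13 (.s k163 k172 2 (.d k243 k83 k89 11 14))))), (.s k90 k242 13 (.s k80 k95 2 (.s k82 k94
  1 (.d k240 k160 k161 11 12))))] .n) (.c k14 (.l (.s k6 k246 11 (.s k4 k247 12 (.d k12 k8 k9 1
  2)))) (.c k246 (.l (.s k4 k247 12 (.s k12 k8 1 (.s k169 k1 13 (.s k163 k172 2 (.d k243 k83 k89 11
  14)))))) .n)))) .n))))))) .n))))))))

def s10_255_4 : T TT 256 :=
  (.q k17 [(.s k2 k1 0 (.s k34 k51 4 (.s k18 k50 3 (.s k16 k19 0 (.d k48 k32 k33 3 4))))), (.s k1 k2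
  0 (.s k49 k33 3 (.s k153 k221 9 (.s k101 k205 13 (.s k117 k69 3 (.d k253 k185 k169 9 13)))))), (.s
  k51 k34 4 (.s k19 k35 3 (.s k153 k221 9 (.s k86 k220 10 (.s k84 k87 0 (.d k252 k168 k169 13
  14))))))] (.c k33 (.l (.s k1 k2 0 (.s k51 k34 4 (.s k35 k19 3 (.s k153 k221 9 (.s k169 k253 13 (.d
  k102 k204 k236 14 10))))))) .n))

def s10_255_5 : T TT 256 :=
  (.q k17 [(.s k1 k2 0 (.s k33 k49 3 (.s k18 k48 4 (.s k19 k16 0 (.d k51 k35 k34 3 4))))), (.s k51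
  k34 4 (.s k19 k35 3 (.s k153 k221 9 (.s k86 k220 10 (.s k84 k87 0 (.d k252 k168 k169 13 14)))))),
  (.s k1 k2 0 (.s k49 k33 3 (.s k153 k221 9 (.s k101 k205 13 (.s k117 k69 3 (.d k253 k185 k169 9
  13))))))] (.c k33 (.l (.s k1 k2 0 (.s k51 k34 4 (.s k35 k19 3 (.s k153 k221 9 (.s k169 k253 13 (.d
  k102 k204 k236 14 10))))))) .n))

def s10_255_6 : T TT 256 :=
  (.f k2 k1 0 (.q k17 [(.s k34 k51 4 (.s k18 k50 3 (.s k16 k19 0 (.d k48 k32 k33 3 4)))), (.s k51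
  k34 4 (.s k153 k221 9 (.s k204 k102 14 (.s k68 k136 9 (.s k70 k137 10 (.s k69 k71 0 (.d k138 k206
  k207 9 10)))))))] (.c k34 (.q k16 [(.s k18 k19 0 (.d k48 k32 k33 3 4)), (.s k18 k19 0 (.s k154
  k223 10 (.s k86 k222 9 (.s k252 k169 14 (.d k84 k87 k168 0 13))))), (.s k48 k32 3 (.s k154 k223 10
  (.s k207 k101 14 (.s k138 k69 10 (.s k70 k206 9 (.s k137 k204 10 (.d k139 k136 k71 0 9)))))))] .n)
  (.c k51 (.q k81 [(.s k162 k243 12 (.s k82 k242 11 (.s k80 k83 0 (.d k240 k160 k161 11 12)))), (.s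
  k89 k93 1 (.s k153 k221 9 (.s k25 k217 7 (.s k29 k21 1 (.d k209 k145 k149 7 9)))))] (.c k119 (.q
  k187 [(.s k162 k243 12 (.s k82 k242 11 (.s k80 k83 0 (.d k240 k160 k161 11 12)))), (.s k89 k93 1
  (.s k153 k221 9 (.s k25 k217 7 (.s k29 k21 1 (.d k209 k145 k149 7 9)))))] .n) (.c k187 (.q k119
  [(.s k162 k243 12 (.s k82 k242 11 (.s k80 k83 0 (.d k240 k160 k161 11 12)))), (.s k68 k102 4 (.s
  k204 k136 9 (.s k70 k137 10 (.s k69 k71 0 (.d k138 k206 k207 9 10)))))] .n) .n))) .n))))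

def s10_255_7 : T TT 256 :=
  (.q k17 [(.s k2 k1 0 (.s k34 k51 4 (.s k18 k50 3 (.s k16 k19 0 (.d k48 k32 k33 3 4))))), (.s k1 k2
  0 (.s k49 k33 3 (.s k153 k221 9 (.s k101 k205 13 (.s k117 k69 3 (.d k253 k185 k169 9 13)))))), (.s
  k51 k34 4 (.s k19 k35 3 (.s k153 k221 9 (.s k86 k220 10 (.s k84 k87 0 (.d k252 k168 k169 13
  14))))))] (.c k33 (.l (.s k1 k2 0 (.s k51 k34 4 (.s k35 k19 3 (.s k153 k221 9 (.s k169 k253 13 (.d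
  k102 k204 k236 14 10))))))) .n))

def s10_255_8 : T TT 256 :=
  (.q k51 [(.s k2 k1 0 (.s k35 k19 3 (.s k34 k17 4 (.s k33 k32 0 (.d k18 k50 k48 3 4))))), (.s k1 k2
  0 (.s k35 k19 3 (.s k169 k253 13 (.s k102 k236 10 (.s k68 k119 4 (.d k204 k136 k153 9 14)))))),
  (.s k17 k34 4 (.s k19 k35 3 (.s k153 k221 9 (.s k86 k220 10 (.s k84 k87 0 (.d k252 k168 k169 13
  14)))))), (.s k1 k2 0 (.s k17 k34 4 (.s k153 k221 9 (.s k169 k253 13 (.s k137 k185 3 (.d k204 k70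
  k102 10 14))))))] (.c k9 (.q k11 [(.s k15 k7 1 (.s k19 k35 3 (.s k27 k39 5 (.s k23 k31 1 (.d k43
  k59 k63 3 5))))), (.s k1 k2 0 (.s k17 k34 4 (.s k19 k35 3 (.s k18 k16 0 (.d k33 k49 k48 3 4))))),
  (.s k1 k2 0 (.s k15 k7 1 (.s k169 k253 13 (.s k90 k248 12 (.s k80 k95 2 (.d k240 k160 k165 11
  14))))))] .n) (.c k11 (.q k9 [(.s k2 k1 0 (.s k35 k19 3 (.s k34 k17 4 (.s k33 k32 0 (.d k18 k50
  k48 3 4))))), (.s k1 k2 0 (.s k13 k5 1 (.s k169 k253 13 (.s k89 k249 11 (.s k81 k93 1 (.d k241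
  k161 k165 11 13)))))), (.s k17 k34 4 (.s k19 k35 3 (.s k153 k221 9 (.s k86 k220 10 (.s k84 k87 0
  (.d k252 k168 k169 13 14))))))] .n) .n)))

def s10_255_9 : T TT 256 :=
  (.q k105 [(.s k65 k125 5 (.s k195 k130 8 (.s k67 k131 7 (.s k86 k124 6 (.s k84 k87 0 (.d k252 k168
  k169 13 14)))))), (.s k1 k2 0 (.s k125 k65 5 (.s k253 k169 13 (.s k61 k189 7 (.s k21 k41 5 (.d
  k149 k213 k193 7 13)))))), (.s k1 k2 0 (.s k169 k253 13 (.s k41 k233 7 (.s k60 k22 6 (.s k20 k40 5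
  (.d k150 k215 k195 8 14))))))] (.c k8 (.q k11 [(.s k1 k2 0 (.s k15 k7 1 (.s k169 k253 13 (.s k90
  k248 12 (.s k80 k95 2 (.d k240 k160 k165 11 14)))))), (.s k2 k1 0 (.s k65 k125 5 (.s k130 k195 8
  (.s k66 k194 7 (.s k64 k67 0 (.d k192 k128 k129 7 8)))))), (.s k65 k125 5 (.s k195 k130 8 (.s k67
  k131 7 (.s k86 k124 6 (.s k84 k87 0 (.d k252 k168 k169 13 14))))))] .n) (.c k11 (.q k8 [(.s k12 k4
  1 (.s k65 k125 5 (.s k195 k130 8 (.s k73 k134 10 (.s k69 k77 1 (.d k138 k203 k207 8 10)))))), (.s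
  k1 k2 0 (.s k125 k65 5 (.s k253 k169 13 (.s k61 k189 7 (.s k21 k41 5 (.d k149 k213 k193 7
  13)))))), (.s k1 k2 0 (.s k169 k253 13 (.s k41 k233 7 (.s k60 k22 6 (.s k20 k40 5 (.d k150 k215
  k195 8 14))))))] .n) (.c k169 (.l (.s k1 k2 0 (.s k65 k125 5 (.s k129 k193 7 (.s k66 k192 8 (.s
  k67 k64 0 (.d k195 k131 k130 7 8))))))) .n))))

def s10_255_11 : T TT 256 :=
  (.q k60 [(.s k1 k2 0 (.s k40 k20 5 (.s k41 k22 6 (.s k21 k61 5 (.d k42 k43 k63 0 6))))), (.s k1 k2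
  0 (.s k20 k40 5 (.s k150 k215 8 (.s k169 k253 13 (.s k131 k188 6 (.d k195 k67 k105 7 14)))))), (.s
  k20 k40 5 (.s k22 k41 6 (.s k150 k215 8 (.s k86 k214 7 (.s k84 k87 0 (.d k252 k168 k169 13
  14)))))), (.s k1 k2 0 (.s k41 k22 6 (.s k169 k253 13 (.s k105 k233 7 (.s k65 k125 5 (.d k195 k130
  k150 8 14))))))] (.c k8 (.q k9 [(.s k1 k2 0 (.s k40 k20 5 (.s k41 k22 6 (.s k21 k61 5 (.d k42 k43
  k63 0 6))))), (.s k1 k2 0 (.s k13 k5 1 (.s k169 k253 13 (.s k89 k249 11 (.s k81 k93 1 (.d k241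
  k161 k165 11 13)))))), (.s k20 k40 5 (.s k22 k41 6 (.s k150 k215 8 (.s k86 k214 7 (.s k84 k87 0
  (.d k252 k168 k169 13 14))))))] .n) (.c k9 (.q k8 [(.s k12 k4 1 (.s k40 k20 5 (.s k44 k28 3 (.s
  k36 k32 1 (.d k24 k56 k48 3 5))))), (.s k1 k2 0 (.s k41 k22 6 (.s k169 k253 13 (.s k105 k233 7 (.s
  k65 k125 5 (.d k195 k130 k150 8 14))))))] .n) .n)))

def s10_255_12 : T TT 256 :=
  (.q k105 [(.s k1 k2 0 (.s k125 k65 5 (.s k253 k169 13 (.s k61 k189 7 (.s k21 k41 5 (.d k149 k213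
  k193 7 13)))))), (.s k65 k125 5 (.s k195 k130 8 (.s k67 k131 7 (.s k86 k124 6 (.s k84 k87 0 (.d
  k252 k168 k169 13 14)))))), (.s k1 k2 0 (.s k169 k253 13 (.s k41 k233 7 (.s k60 k22 6 (.s k20 k40
  5 (.d k150 k215 k195 8 14))))))] (.c k93 (.q k174 [(.s k1 k2 0 (.s k125 k65 5 (.s k253 k169 13 (.s
  k61 k189 7 (.s k21 k41 5 (.d k149 k213 k193 7 13)))))), (.s k65 k125 5 (.s k195 k130 8 (.s k67
  k131 7 (.s k86 k124 6 (.s k84 k87 0 (.d k252 k168 k169 13 14)))))), (.s k1 k2 0 (.s k169 k253 13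
  (.s k41 k233 7 (.s k60 k22 6 (.s k20 k40 5 (.d k150 k215 k195 8 14))))))] (.c k169 (.l (.s k1 k2 0
  (.s k65 k125 5 (.s k129 k193 7 (.s k66 k192 8 (.s k67 k64 0 (.d k195 k131 k130 7 8))))))) .n)) (.c
  k169 (.l (.s k1 k2 0 (.s k65 k125 5 (.s k129 k193 7 (.s k66 k192 8 (.s k67 k64 0 (.d k195 k131
  k130 7 8))))))) (.c k174 (.q k93 [(.s k89 k81 1 (.s k125 k65 5 (.s k77 k109 3 (.s k113 k101 5 (.d
  k121 k117 k73 1 3))))), (.s k1 k2 0 (.s k81 k89 1 (.s k161 k241 11 (.s k82 k240 12 (.s k83 k80 0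
  (.d k243 k163 k162 11 12)))))), (.s k1 k2 0 (.s k65 k125 5 (.s k129 k193 7 (.s k66 k192 8 (.s k67
  k64 0 (.d k195 k131 k130 7 8))))))] .n) .n))))

def s10_255_13 : T TT 256 :=
  (.q k17 [(.s k1 k2 0 (.s k51 k34 4 (.s k19 k35 3 (.s k18 k16 0 (.d k33 k49 k48 3 4))))), (.s k51
  k34 4 (.s k19 k35 3 (.s k153 k221 9 (.s k86 k220 10 (.s k84 k87 0 (.d k252 k168 k169 13 14)))))),
  (.s k1 k2 0 (.s k49 k33 3 (.s k153 k221 9 (.s k101 k205 13 (.s k117 k69 3 (.d k253 k185 k169 9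
  13))))))] (.c k33 (.l (.s k1 k2 0 (.s k51 k34 4 (.s k35 k19 3 (.s k153 k221 9 (.s k169 k253 13 (.d
  k102 k204 k236 14 10))))))) .n))

def s10_255_14 : T TT 256 :=
  (.f k2 k1 0 (.q k204 [(.s k68 k136 9 (.s k70 k137 10 (.s k69 k71 0 (.d k138 k206 k207 9 10)))),
  (.s k68 k136 9 (.s k102 k119 4 (.s k51 k153 14 (.s k34 k17 4 (.s k18 k50 3 (.s k33 k48 4 (.d k35
  k32 k19 0 3)))))))] (.c k68 (.q k12 [(.s k9 k6 2 (.s k137 k70 10 (.s k73 k201 7 (.s k134 k195 10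
  (.d k140 k131 k76 2 7))))), (.s k4 k8 1 (.s k140 k76 7 (.s k166 k247 12 (.s k153 k179 6 (.s k17
  k221 9 (.d k51 k34 k102 4 14)))))), (.s k4 k8 1 (.s k70 k137 10 (.s k138 k206 9 (.s k69 k207 10
  (.s k134 k199 8 (.d k6 k9 k198 2 7))))))] (.c k9 (.l (.s k8 k4 1 (.s k70 k137 10 (.s k76 k140 7
  (.s k73 k67 2 (.d k138 k203 k206 8 9)))))) .n)) (.c k136 (.q k12 [(.s k9 k6 2 (.s k137 k70 10 (.s
  k73 k201 7 (.s k134 k195 10 (.d k140 k131 k76 2 7))))), (.s k4 k8 1 (.s k140 k76 7 (.s k166 k247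
  12 (.s k153 k179 6 (.s k17 k221 9 (.d k51 k34 k102 4 14)))))), (.s k4 k8 1 (.s k70 k137 10 (.s
  k138 k206 9 (.s k69 k207 10 (.s k134 k199 8 (.d k6 k9 k198 2 7))))))] (.c k9 (.l (.s k8 k4 1 (.s
  k70 k137 10 (.s k76 k140 7 (.s k73 k67 2 (.d k138 k203 k206 8 9)))))) .n)) .n))))

def s10_255_15 : T TT 256 :=
  (.q k63 [(.s k2 k1 0 (.s k43 k23 5 (.s k42 k21 6 (.s k41 k40 0 (.d k22 k62 k60 5 6))))), (.s k1 k2
  0 (.s k43 k23 5 (.s k169 k253 13 (.s k106 k232 8 (.s k64 k127 6 (.d k192 k128 k149 7 14)))))), (.s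
  k21 k42 6 (.s k23 k43 5 (.s k149 k213 7 (.s k86 k212 8 (.s k84 k87 0 (.d k252 k168 k169 13
  14)))))), (.s k1 k2 0 (.s k21 k42 6 (.s k149 k213 7 (.s k169 k253 13 (.s k129 k189 5 (.d k192 k66
  k106 8 14))))))] (.c k95 (.q k175 [(.s k2 k1 0 (.s k43 k23 5 (.s k42 k21 6 (.s k41 k40 0 (.d k22
  k62 k60 5 6))))), (.s k1 k2 0 (.s k43 k23 5 (.s k169 k253 13 (.s k106 k232 8 (.s k64 k127 6 (.d
  k192 k128 k149 7 14)))))), (.s k21 k42 6 (.s k23 k43 5 (.s k149 k213 7 (.s k86 k212 8 (.s k84 k87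
  0 (.d k252 k168 k169 13 14)))))), (.s k1 k2 0 (.s k21 k42 6 (.s k149 k213 7 (.s k169 k253 13 (.s
  k129 k189 5 (.d k192 k66 k106 8 14))))))] .n) (.c k175 (.q k95 [(.s k2 k1 0 (.s k43 k23 5 (.s k42
  k21 6 (.s k41 k40 0 (.d k22 k62 k60 5 6))))), (.s k1 k2 0 (.s k43 k23 5 (.s k169 k253 13 (.s k106
  k232 8 (.s k64 k127 6 (.d k192 k128 k149 7 14)))))), (.s k21 k42 6 (.s k23 k43 5 (.s k149 k213 7
  (.s k86 k212 8 (.s k84 k87 0 (.d k252 k168 k169 13 14)))))), (.s k1 k2 0 (.s k21 k42 6 (.s k149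
  k213 7 (.s k169 k253 13 (.s k129 k189 5 (.d k192 k66 k106 8 14))))))] .n) .n)))

def s10_255_16 : T TT 256 :=
  (.q k17 [(.s k1 k2 0 (.s k49 k33 3 (.s k253 k169 13 (.s k117 k185 9 (.s k101 k69 3 (.d k153 k221
  k205 9 13)))))), (.s k51 k34 4 (.s k19 k35 3 (.s k153 k221 9 (.s k86 k220 10 (.s k84 k87 0 (.d
  k252 k168 k169 13 14)))))), (.s k1 k2 0 (.s k51 k34 4 (.s k35 k19 3 (.s k169 k253 13 (.s k102 k236
  10 (.s k68 k119 4 (.d k204 k136 k153 9 14)))))))] (.c k153 (.l (.s k1 k2 0 (.s k33 k49 3 (.s k48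
  k18 4 (.s k169 k253 13 (.s k101 k237 9 (.s k207 k154 14 (.d k69 k117 k138 3 10)))))))) (.c k169
  (.l (.s k1 k2 0 (.s k49 k33 3 (.s k51 k34 4 (.s k153 k221 9 (.s k204 k102 14 (.s k137 k70 10 (.d
  k205 k101 k69 13 9)))))))) .n)))

def s10_255_17 : T TT 256 :=
  (.q k21 [(.s k1 k2 0 (.s k41 k61 5 (.s k22 k60 6 (.s k23 k20 0 (.d k63 k43 k42 5 6))))), (.s k63
  k42 6 (.s k23 k43 5 (.s k149 k213 7 (.s k86 k212 8 (.s k84 k87 0 (.d k252 k168 k169 13 14)))))),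
  (.s k1 k2 0 (.s k61 k41 5 (.s k149 k213 7 (.s k105 k193 13 (.s k125 k65 5 (.d k253 k189 k169 7
  13))))))] (.c k41 (.l (.s k1 k2 0 (.s k63 k42 6 (.s k43 k23 5 (.s k149 k213 7 (.s k169 k253 13 (.d
  k106 k192 k232 14 8))))))) .n))

def s10_255_18 : T TT 256 :=
  (.q k21 [(.s k2 k1 0 (.s k42 k63 6 (.s k22 k62 5 (.s k20 k23 0 (.d k60 k40 k41 5 6))))), (.s k1 k2
  0 (.s k61 k41 5 (.s k149 k213 7 (.s k105 k193 13 (.s k125 k65 5 (.d k253 k189 k169 7 13)))))), (.s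
  k63 k42 6 (.s k23 k43 5 (.s k149 k213 7 (.s k86 k212 8 (.s k84 k87 0 (.d k252 k168 k169 13
  14))))))] (.c k41 (.l (.s k1 k2 0 (.s k63 k42 6 (.s k43 k23 5 (.s k149 k213 7 (.s k169 k253 13 (.d
  k106 k192 k232 14 8))))))) .n))

def s10_255_19 : T TT 256 :=
  (.q k21 [(.s k2 k1 0 (.s k42 k63 6 (.s k22 k62 5 (.s k60 k41 6 (.d k20 k23 k40 0 5))))), (.s k1 k2
  0 (.s k61 k41 5 (.s k149 k213 7 (.s k105 k193 13 (.s k125 k65 5 (.d k253 k189 k169 7 13)))))), (.s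
  k63 k42 6 (.s k23 k43 5 (.s k149 k213 7 (.s k86 k212 8 (.s k84 k87 0 (.d k252 k168 k169 13
  14))))))] (.c k41 (.l (.s k1 k2 0 (.s k63 k42 6 (.s k43 k23 5 (.s k149 k213 7 (.s k169 k253 13 (.d
  k106 k192 k232 14 8))))))) .n))

def s10_255_20 : T TT 256 :=
  (.q k17 [(.s k2 k1 0 (.s k34 k51 4 (.s k18 k50 3 (.s k16 k19 0 (.d k48 k32 k33 3 4))))), (.s k1 k2
  0 (.s k49 k33 3 (.s k153 k221 9 (.s k101 k205 13 (.s k117 k69 3 (.d k253 k185 k169 9 13)))))), (.s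
  k51 k34 4 (.s k19 k35 3 (.s k153 k221 9 (.s k86 k220 10 (.s k84 k87 0 (.d k252 k168 k169 13
  14))))))] (.c k33 (.l (.s k1 k2 0 (.s k51 k34 4 (.s k35 k19 3 (.s k153 k221 9 (.s k169 k253 13 (.d
  k102 k204 k236 14 10))))))) .n))

def s10_255_21 : T TT 256 :=
  (.q k17 [(.s k2 k1 0 (.s k34 k51 4 (.s k18 k50 3 (.s k16 k19 0 (.d k48 k32 k33 3 4))))), (.s k1 k2
  0 (.s k49 k33 3 (.s k153 k221 9 (.s k101 k205 13 (.s k117 k69 3 (.d k253 k185 k169 9 13)))))), (.s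
  k51 k34 4 (.s k19 k35 3 (.s k153 k221 9 (.s k86 k220 10 (.s k84 k87 0 (.d k252 k168 k169 13
  14))))))] (.c k33 (.l (.s k1 k2 0 (.s k51 k34 4 (.s k35 k19 3 (.s k153 k221 9 (.s k169 k253 13 (.d
  k102 k204 k236 14 10))))))) .n))

def s10_255_22 : T TT 256 :=
  (.q k17 [(.s k2 k1 0 (.s k34 k51 4 (.s k18 k50 3 (.s k48 k33 4 (.d k16 k19 k32 0 3))))), (.s k1 k2
  0 (.s k49 k33 3 (.s k153 k221 9 (.s k101 k205 13 (.s k117 k69 3 (.d k253 k185 k169 9 13)))))), (.s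
  k51 k34 4 (.s k19 k35 3 (.s k153 k221 9 (.s k86 k220 10 (.s k84 k87 0 (.d k252 k168 k169 13
  14))))))] (.c k33 (.l (.s k1 k2 0 (.s k51 k34 4 (.s k35 k19 3 (.s k153 k221 9 (.s k169 k253 13 (.d
  k102 k204 k236 14 10))))))) .n))

def s10_255_23 : T TT 256 :=
  (.q k17 [(.s k2 k1 0 (.s k34 k51 4 (.s k18 k50 3 (.s k48 k33 4 (.d k16 k19 k32 0 3))))), (.s k1 k2
  0 (.s k49 k33 3 (.s k153 k221 9 (.s k101 k205 13 (.s k117 k69 3 (.d k253 k185 k169 9 13)))))), (.s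
  k51 k34 4 (.s k19 k35 3 (.s k153 k221 9 (.s k86 k220 10 (.s k84 k87 0 (.d k252 k168 k169 13
  14))))))] (.c k33 (.l (.s k1 k2 0 (.s k51 k34 4 (.s k35 k19 3 (.s k153 k221 9 (.s k169 k253 13 (.d
  k102 k204 k236 14 10))))))) .n))

def s10_255_24 : T TT 256 :=
  (.q k17 [(.s k2 k1 0 (.s k34 k51 4 (.s k18 k50 3 (.s k16 k19 0 (.d k48 k32 k33 3 4))))), (.s k1 k2
  0 (.s k49 k33 3 (.s k153 k221 9 (.s k101 k205 13 (.s k117 k69 3 (.d k253 k185 k169 9 13)))))), (.s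
  k51 k34 4 (.s k19 k35 3 (.s k153 k221 9 (.s k86 k220 10 (.s k84 k87 0 (.d k252 k168 k169 13
  14))))))] (.c k33 (.l (.s k1 k2 0 (.s k51 k34 4 (.s k35 k19 3 (.s k153 k221 9 (.s k169 k253 13 (.d
  k102 k204 k236 14 10))))))) .n))

def s10_255_25 : T TT 256 :=
  (.q k17 [(.s k1 k2 0 (.s k51 k34 4 (.s k19 k35 3 (.s k18 k16 0 (.d k33 k49 k48 3 4))))), (.s k51
  k34 4 (.s k19 k35 3 (.s k153 k221 9 (.s k86 k220 10 (.s k84 k87 0 (.d k252 k168 k169 13 14)))))),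
  (.s k1 k2 0 (.s k49 k33 3 (.s k153 k221 9 (.s k101 k205 13 (.s k117 k69 3 (.d k253 k185 k169 9
  13))))))] (.c k33 (.l (.s k1 k2 0 (.s k51 k34 4 (.s k35 k19 3 (.s k153 k221 9 (.s k169 k253 13 (.d
  k102 k204 k236 14 10))))))) .n))

def s10_255_26 : T TT 256 :=
  (.q k69 [(.s k2 k1 0 (.s k138 k207 10 (.s k70 k206 9 (.s k68 k71 0 (.d k204 k136 k137 9 10))))),
  (.s k1 k2 0 (.s k101 k117 3 (.s k169 k253 13 (.s k33 k237 9 (.s k49 k17 3 (.d k205 k137 k153 9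
  13)))))), (.s k101 k117 3 (.s k207 k138 10 (.s k71 k139 9 (.s k86 k116 4 (.s k84 k87 0 (.d k252
  k168 k169 13 14))))))] (.c k42 (.q k58 [(.s k2 k1 0 (.s k138 k207 10 (.s k70 k206 9 (.s k68 k71 0
  (.d k204 k136 k137 9 10))))), (.s k1 k2 0 (.s k101 k117 3 (.s k169 k253 13 (.s k33 k237 9 (.s k49
  k17 3 (.d k205 k137 k153 9 13)))))), (.s k101 k117 3 (.s k207 k138 10 (.s k71 k139 9 (.s k86 k116
  4 (.s k84 k87 0 (.d k252 k168 k169 13 14))))))] (.c k137 (.l (.s k1 k2 0 (.s k101 k117 3 (.s k169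
  k253 13 (.s k33 k237 9 (.s k48 k18 4 (.d k207 k138 k154 10 14))))))) .n)) (.c k58 (.q k42 [(.s k1
  k2 0 (.s k137 k205 9 (.s k70 k204 10 (.s k71 k68 0 (.d k207 k139 k138 9 10))))), (.s k2 k1 0 (.s
  k21 k63 6 (.s k22 k62 5 (.s k20 k23 0 (.d k60 k40 k41 5 6))))), (.s k101 k117 3 (.s k207 k138 10
  (.s k71 k139 9 (.s k86 k116 4 (.s k84 k87 0 (.d k252 k168 k169 13 14))))))] .n) (.c k137 (.l (.s
  k1 k2 0 (.s k101 k117 3 (.s k169 k253 13 (.s k33 k237 9 (.s k48 k18 4 (.d k207 k138 k154 10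
  14))))))) .n))))

def s10_255_27 : T TT 256 :=
  (.q k17 [(.s k1 k2 0 (.s k33 k49 3 (.s k18 k48 4 (.s k19 k16 0 (.d k51 k35 k34 3 4))))), (.s k51
  k34 4 (.s k19 k35 3 (.s k153 k221 9 (.s k86 k220 10 (.s k84 k87 0 (.d k252 k168 k169 13 14)))))),
  (.s k1 k2 0 (.s k49 k33 3 (.s k153 k221 9 (.s k101 k205 13 (.s k117 k69 3 (.d k253 k185 k169 9
  13))))))] (.c k33 (.l (.s k1 k2 0 (.s k51 k34 4 (.s k35 k19 3 (.s k153 k221 9 (.s k169 k253 13 (.d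
  k102 k204 k236 14 10))))))) .n))

def s10_255_28 : T TT 256 :=
  (.q k17 [(.s k2 k1 0 (.s k34 k51 4 (.s k18 k50 3 (.s k48 k33 4 (.d k16 k19 k32 0 3))))), (.s k1 k2
  0 (.s k49 k33 3 (.s k153 k221 9 (.s k101 k205 13 (.s k117 k69 3 (.d k253 k185 k169 9 13)))))), (.s
  k51 k34 4 (.s k19 k35 3 (.s k153 k221 9 (.s k86 k220 10 (.s k84 k87 0 (.d k252 k168 k169 13
  14))))))] (.c k33 (.l (.s k1 k2 0 (.s k51 k34 4 (.s k35 k19 3 (.s k153 k221 9 (.s k169 k253 13 (.d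
  k102 k204 k236 14 10))))))) .n))

def s10_255_29 : T TT 256 :=
  (.q k17 [(.s k2 k1 0 (.s k34 k51 4 (.s k18 k50 3 (.s k16 k19 0 (.d k48 k32 k33 3 4))))), (.s k1 k2
  0 (.s k49 k33 3 (.s k153 k221 9 (.s k101 k205 13 (.s k117 k69 3 (.d k253 k185 k169 9 13)))))), (.s
  k51 k34 4 (.s k19 k35 3 (.s k153 k221 9 (.s k86 k220 10 (.s k84 k87 0 (.d k252 k168 k169 13
  14))))))] (.c k33 (.l (.s k1 k2 0 (.s k51 k34 4 (.s k35 k19 3 (.s k153 k221 9 (.s k169 k253 13 (.d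
  k102 k204 k236 14 10))))))) .n))

def s10_255_30 : T TT 256 :=
  (.q k17 [(.s k2 k1 0 (.s k34 k51 4 (.s k18 k50 3 (.s k16 k19 0 (.d k48 k32 k33 3 4))))), (.s k1 k2
  0 (.s k49 k33 3 (.s k153 k221 9 (.s k101 k205 13 (.s k117 k69 3 (.d k253 k185 k169 9 13)))))), (.s
  k51 k34 4 (.s k19 k35 3 (.s k153 k221 9 (.s k86 k220 10 (.s k84 k87 0 (.d k252 k168 k169 13
  14))))))] (.c k33 (.l (.s k1 k2 0 (.s k51 k34 4 (.s k35 k19 3 (.s k153 k221 9 (.s k169 k253 13 (.d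
  k102 k204 k236 14 10))))))) .n))

def s10_255_31 : T TT 256 :=
  (.q k17 [(.s k2 k1 0 (.s k34 k51 4 (.s k18 k50 3 (.s k48 k33 4 (.d k16 k19 k32 0 3))))), (.s k1 k2
  0 (.s k49 k33 3 (.s k153 k221 9 (.s k101 k205 13 (.s k117 k69 3 (.d k253 k185 k169 9 13)))))), (.s
  k51 k34 4 (.s k19 k35 3 (.s k153 k221 9 (.s k86 k220 10 (.s k84 k87 0 (.d k252 k168 k169 13
  14))))))] (.c k33 (.l (.s k1 k2 0 (.s k51 k34 4 (.s k35 k19 3 (.s k153 k221 9 (.s k169 k253 13 (.d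
  k102 k204 k236 14 10))))))) .n))

def s10_255_32 : T TT 256 :=
  (.q k17 [(.s k1 k2 0 (.s k33 k49 3 (.s k51 k34 4 (.s k19 k35 3 (.d k18 k16 k48 0 4))))), (.s k51
  k34 4 (.s k153 k221 9 (.s k204 k102 14 (.s k137 k70 10 (.s k169 k185 3 (.s k86 k252 14 (.d k19 k35
  k220 3 10))))))), (.s k1 k2 0 (.s k153 k221 9 (.s k169 k253 13 (.s k137 k185 3 (.s k205 k69 9 (.d
  k49 k33 k101 3 13))))))] (.c k33 (.l (.s k1 k2 0 (.s k51 k34 4 (.s k35 k19 3 (.s k153 k221 9 (.s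
  k169 k253 13 (.d k102 k204 k236 14 10))))))) .n))

def s10_255_33 : T TT 256 :=
  (.q k21 [(.s k1 k2 0 (.s k41 k61 5 (.s k22 k60 6 (.s k23 k20 0 (.d k63 k43 k42 5 6))))), (.s k63
  k42 6 (.s k23 k43 5 (.s k149 k213 7 (.s k86 k212 8 (.s k84 k87 0 (.d k252 k168 k169 13 14)))))),
  (.s k1 k2 0 (.s k61 k41 5 (.s k149 k213 7 (.s k105 k193 13 (.s k125 k65 5 (.d k253 k189 k169 7
  13))))))] (.c k41 (.l (.s k1 k2 0 (.s k63 k42 6 (.s k43 k23 5 (.s k149 k213 7 (.s k169 k253 13 (.d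
  k106 k192 k232 14 8))))))) .n))

def s10_255_34 : T TT 256 :=
  (.q k21 [(.s k2 k1 0 (.s k42 k63 6 (.s k22 k62 5 (.s k20 k23 0 (.d k60 k40 k41 5 6))))), (.s k1 k2
  0 (.s k61 k41 5 (.s k149 k213 7 (.s k105 k193 13 (.s k125 k65 5 (.d k253 k189 k169 7 13)))))), (.s
  k63 k42 6 (.s k23 k43 5 (.s k149 k213 7 (.s k86 k212 8 (.s k84 k87 0 (.d k252 k168 k169 13
  14))))))] (.c k41 (.l (.s k1 k2 0 (.s k63 k42 6 (.s k43 k23 5 (.s k149 k213 7 (.s k169 k253 13 (.d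
  k106 k192 k232 14 8))))))) .n))

def s10_255_35 : T TT 256 :=
  (.q k21 [(.s k2 k1 0 (.s k42 k63 6 (.s k22 k62 5 (.s k20 k23 0 (.d k60 k40 k41 5 6))))), (.s k1 k2
  0 (.s k61 k41 5 (.s k149 k213 7 (.s k105 k193 13 (.s k125 k65 5 (.d k253 k189 k169 7 13)))))), (.s
  k63 k42 6 (.s k23 k43 5 (.s k149 k213 7 (.s k86 k212 8 (.s k84 k87 0 (.d k252 k168 k169 13
  14))))))] (.c k41 (.l (.s k1 k2 0 (.s k63 k42 6 (.s k43 k23 5 (.s k149 k213 7 (.s k169 k253 13 (.d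
  k106 k192 k232 14 8))))))) .n))

def s10_255_36 : T TT 256 :=
  (.q k17 [(.s k2 k1 0 (.s k34 k51 4 (.s k18 k50 3 (.s k16 k19 0 (.d k48 k32 k33 3 4))))), (.s k1 k2
  0 (.s k49 k33 3 (.s k153 k221 9 (.s k101 k205 13 (.s k117 k69 3 (.d k253 k185 k169 9 13)))))), (.s
  k51 k34 4 (.s k19 k35 3 (.s k153 k221 9 (.s k86 k220 10 (.s k84 k87 0 (.d k252 k168 k169 13
  14))))))] (.c k33 (.l (.s k1 k2 0 (.s k51 k34 4 (.s k35 k19 3 (.s k153 k221 9 (.s k169 k253 13 (.d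
  k102 k204 k236 14 10))))))) .n))

def s10_255_37 : T TT 256 :=
  (.q k17 [(.s k2 k1 0 (.s k34 k51 4 (.s k18 k50 3 (.s k16 k19 0 (.d k48 k32 k33 3 4))))), (.s k1 k2
  0 (.s k49 k33 3 (.s k153 k221 9 (.s k101 k205 13 (.s k117 k69 3 (.d k253 k185 k169 9 13)))))), (.s
  k51 k34 4 (.s k19 k35 3 (.s k153 k221 9 (.s k86 k220 10 (.s k84 k87 0 (.d k252 k168 k169 13
  14))))))] (.c k33 (.l (.s k1 k2 0 (.s k51 k34 4 (.s k35 k19 3 (.s k153 k221 9 (.s k169 k253 13 (.d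
  k102 k204 k236 14 10))))))) .n))

def s10_255_38 : T TT 256 :=
  (.q k17 [(.s k1 k2 0 (.s k33 k49 3 (.s k18 k48 4 (.s k19 k16 0 (.d k51 k35 k34 3 4))))), (.s k51
  k34 4 (.s k19 k35 3 (.s k153 k221 9 (.s k86 k220 10 (.s k84 k87 0 (.d k252 k168 k169 13 14)))))),
  (.s k1 k2 0 (.s k49 k33 3 (.s k153 k221 9 (.s k101 k205 13 (.s k117 k69 3 (.d k253 k185 k169 9
  13))))))] (.c k33 (.l (.s k1 k2 0 (.s k51 k34 4 (.s k35 k19 3 (.s k153 k221 9 (.s k169 k253 13 (.d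
  k102 k204 k236 14 10))))))) .n))

def s10_255_39 : T TT 256 :=
  (.q k17 [(.s k1 k2 0 (.s k33 k49 3 (.s k18 k48 4 (.s k19 k16 0 (.d k51 k35 k34 3 4))))), (.s k51
  k34 4 (.s k19 k35 3 (.s k153 k221 9 (.s k86 k220 10 (.s k84 k87 0 (.d k252 k168 k169 13 14)))))),
  (.s k1 k2 0 (.s k49 k33 3 (.s k153 k221 9 (.s k101 k205 13 (.s k117 k69 3 (.d k253 k185 k169 9
  13))))))] (.c k33 (.l (.s k1 k2 0 (.s k51 k34 4 (.s k35 k19 3 (.s k153 k221 9 (.s k169 k253 13 (.d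
  k102 k204 k236 14 10))))))) .n))

def s10_255_40 : T TT 256 :=
  (.q k17 [(.s k2 k1 0 (.s k34 k51 4 (.s k18 k50 3 (.s k16 k19 0 (.d k48 k32 k33 3 4))))), (.s k1 k2
  0 (.s k49 k33 3 (.s k153 k221 9 (.s k101 k205 13 (.s k117 k69 3 (.d k253 k185 k169 9 13)))))), (.s
  k51 k34 4 (.s k19 k35 3 (.s k153 k221 9 (.s k86 k220 10 (.s k84 k87 0 (.d k252 k168 k169 13
  14))))))] (.c k33 (.l (.s k1 k2 0 (.s k51 k34 4 (.s k35 k19 3 (.s k153 k221 9 (.s k169 k253 13 (.d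
  k102 k204 k236 14 10))))))) .n))

def s10_255_41 : T TT 256 :=
  (.q k17 [(.s k1 k2 0 (.s k33 k49 3 (.s k18 k48 4 (.s k19 k16 0 (.d k51 k35 k34 3 4))))), (.s k51
  k34 4 (.s k19 k35 3 (.s k153 k221 9 (.s k86 k220 10 (.s k84 k87 0 (.d k252 k168 k169 13 14)))))),
  (.s k1 k2 0 (.s k49 k33 3 (.s k153 k221 9 (.s k101 k205 13 (.s k117 k69 3 (.d k253 k185 k169 9
  13))))))] (.c k33 (.l (.s k1 k2 0 (.s k51 k34 4 (.s k35 k19 3 (.s k153 k221 9 (.s k169 k253 13 (.d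
  k102 k204 k236 14 10))))))) .n))

def s10_255_42 : T TT 256 :=
  (.q k65 [(.s k2 k1 0 (.s k130 k195 8 (.s k66 k194 7 (.s k64 k67 0 (.d k192 k128 k129 7 8))))), (.s
  k1 k2 0 (.s k105 k125 5 (.s k169 k253 13 (.s k41 k233 7 (.s k61 k21 5 (.d k193 k129 k149 7
  13)))))), (.s k105 k125 5 (.s k195 k130 8 (.s k67 k131 7 (.s k86 k124 6 (.s k84 k87 0 (.d k252
  k168 k169 13 14))))))] (.c k26 (.q k58 [(.s k2 k1 0 (.s k130 k195 8 (.s k66 k194 7 (.s k64 k67 0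
  (.d k192 k128 k129 7 8))))), (.s k1 k2 0 (.s k105 k125 5 (.s k169 k253 13 (.s k41 k233 7 (.s k61
  k21 5 (.d k193 k129 k149 7 13)))))), (.s k105 k125 5 (.s k195 k130 8 (.s k67 k131 7 (.s k86 k124 6
  (.s k84 k87 0 (.d k252 k168 k169 13 14))))))] (.c k129 (.l (.s k1 k2 0 (.s k105 k125 5 (.s k169
  k253 13 (.s k41 k233 7 (.s k195 k130 8 (.d k60 k22 k150 6 14))))))) .n)) (.c k58 (.q k26 [(.s k2
  k1 0 (.s k130 k195 8 (.s k66 k194 7 (.s k64 k67 0 (.d k192 k128 k129 7 8))))), (.s k1 k2 0 (.s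
  k105 k125 5 (.s k169 k253 13 (.s k41 k233 7 (.s k61 k21 5 (.d k193 k129 k149 7 13)))))), (.s k105
  k125 5 (.s k195 k130 8 (.s k67 k131 7 (.s k86 k124 6 (.s k84 k87 0 (.d k252 k168 k169 13 14))))))]
  (.c k129 (.l (.s k1 k2 0 (.s k105 k125 5 (.s k169 k253 13 (.s k41 k233 7 (.s k195 k130 8 (.d k60
  k22 k150 6 14))))))) .n)) (.c k129 (.l (.s k1 k2 0 (.s k105 k125 5 (.s k169 k253 13 (.s k41 k233 7
  (.s k195 k130 8 (.d k60 k22 k150 6 14))))))) .n))))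

def s10_255_43 : T TT 256 :=
  (.q k17 [(.s k2 k1 0 (.s k34 k51 4 (.s k18 k50 3 (.s k16 k19 0 (.d k48 k32 k33 3 4))))), (.s k1 k2
  0 (.s k49 k33 3 (.s k153 k221 9 (.s k101 k205 13 (.s k117 k69 3 (.d k253 k185 k169 9 13)))))), (.s
  k51 k34 4 (.s k19 k35 3 (.s k153 k221 9 (.s k86 k220 10 (.s k84 k87 0 (.d k252 k168 k169 13
  14))))))] (.c k33 (.l (.s k1 k2 0 (.s k51 k34 4 (.s k35 k19 3 (.s k153 k221 9 (.s k169 k253 13 (.d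
  k102 k204 k236 14 10))))))) .n))

def s10_255_44 : T TT 256 :=
  (.q k17 [(.s k2 k1 0 (.s k34 k51 4 (.s k18 k50 3 (.s k16 k19 0 (.d k48 k32 k33 3 4))))), (.s k1 k2
  0 (.s k49 k33 3 (.s k153 k221 9 (.s k101 k205 13 (.s k117 k69 3 (.d k253 k185 k169 9 13)))))), (.s
  k51 k34 4 (.s k19 k35 3 (.s k153 k221 9 (.s k86 k220 10 (.s k84 k87 0 (.d k252 k168 k169 13
  14))))))] (.c k33 (.l (.s k1 k2 0 (.s k51 k34 4 (.s k35 k19 3 (.s k153 k221 9 (.s k169 k253 13 (.d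
  k102 k204 k236 14 10))))))) .n))

def s10_255_45 : T TT 256 :=
  (.q k17 [(.s k2 k1 0 (.s k34 k51 4 (.s k18 k50 3 (.s k16 k19 0 (.d k48 k32 k33 3 4))))), (.s k1 k2
  0 (.s k49 k33 3 (.s k153 k221 9 (.s k101 k205 13 (.s k117 k69 3 (.d k253 k185 k169 9 13)))))), (.s
  k51 k34 4 (.s k19 k35 3 (.s k153 k221 9 (.s k86 k220 10 (.s k84 k87 0 (.d k252 k168 k169 13
  14))))))] (.c k33 (.l (.s k1 k2 0 (.s k51 k34 4 (.s k35 k19 3 (.s k153 k221 9 (.s k169 k253 13 (.d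
  k102 k204 k236 14 10))))))) .n))

def s10_255_46 : T TT 256 :=
  (.q k17 [(.s k2 k1 0 (.s k34 k51 4 (.s k18 k50 3 (.s k16 k19 0 (.d k48 k32 k33 3 4))))), (.s k1 k2
  0 (.s k49 k33 3 (.s k153 k221 9 (.s k101 k205 13 (.s k117 k69 3 (.d k253 k185 k169 9 13)))))), (.s
  k51 k34 4 (.s k19 k35 3 (.s k153 k221 9 (.s k86 k220 10 (.s k84 k87 0 (.d k252 k168 k169 13
  14))))))] (.c k33 (.l (.s k1 k2 0 (.s k51 k34 4 (.s k35 k19 3 (.s k153 k221 9 (.s k169 k253 13 (.d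
  k102 k204 k236 14 10))))))) .n))

def s10_255_47 : T TT 256 :=
  (.q k17 [(.s k2 k1 0 (.s k34 k51 4 (.s k18 k50 3 (.s k16 k19 0 (.d k48 k32 k33 3 4))))), (.s k1 k2
  0 (.s k49 k33 3 (.s k153 k221 9 (.s k101 k205 13 (.s k117 k69 3 (.d k253 k185 k169 9 13)))))), (.s
  k51 k34 4 (.s k19 k35 3 (.s k153 k221 9 (.s k86 k220 10 (.s k84 k87 0 (.d k252 k168 k169 13
  14))))))] (.c k33 (.l (.s k1 k2 0 (.s k51 k34 4 (.s k35 k19 3 (.s k153 k221 9 (.s k169 k253 13 (.d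
  k102 k204 k236 14 10))))))) .n))

def s10_255_48 : T TT 256 :=
  (.q k89 [(.s k1 k2 0 (.s k93 k81 1 (.s k253 k169 13 (.s k13 k173 11 (.s k5 k9 1 (.d k165 k245 k241
  11 13)))))), (.s k81 k93 1 (.s k243 k162 12 (.s k83 k163 11 (.s k86 k92 2 (.s k84 k87 0 (.d k252
  k168 k169 13 14)))))), (.s k1 k2 0 (.s k169 k253 13 (.s k249 k9 11 (.s k252 k86 14 (.s k243 k246 2
  (.s k163 k83 11 (.d k166 k172 k12 2 14)))))))] (.c k117 (.q k186 [(.s k1 k2 0 (.s k93 k81 1 (.s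
  k253 k169 13 (.s k13 k173 11 (.s k5 k9 1 (.d k165 k245 k241 11 13)))))), (.s k81 k93 1 (.s k243
  k162 12 (.s k83 k163 11 (.s k86 k92 2 (.s k84 k87 0 (.d k252 k168 k169 13 14)))))), (.s k1 k2 0
  (.s k169 k253 13 (.s k249 k9 11 (.s k252 k86 14 (.s k243 k246 2 (.s k163 k83 11 (.d k166 k172 k12
  2 14)))))))] (.c k169 (.l (.s k1 k2 0 (.s k81 k93 1 (.s k161 k241 11 (.s k82 k240 12 (.s k83 k80 0
  (.d k243 k163 k162 11 12))))))) .n)) (.c k169 (.l (.s k1 k2 0 (.s k81 k93 1 (.s k161 k241 11 (.s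
  k82 k240 12 (.s k83 k80 0 (.d k243 k163 k162 11 12))))))) (.c k186 (.q k117 [(.s k101 k69 3 (.s
  k113 k77 5 (.s k125 k121 1 (.s k65 k105 5 (.d k81 k93 k97 1 3))))), (.s k1 k2 0 (.s k69 k101 3 (.s
  k137 k205 9 (.s k70 k204 10 (.s k71 k68 0 (.d k207 k139 k138 9 10)))))), (.s k1 k2 0 (.s k81 k93 1
  (.s k161 k241 11 (.s k82 k240 12 (.s k83 k80 0 (.d k243 k163 k162 11 12))))))] .n) .n))))

def s10_255_49 : T TT 256 :=
  (.q k21 [(.s k2 k1 0 (.s k42 k63 6 (.s k22 k62 5 (.s k20 k23 0 (.d k60 k40 k41 5 6))))), (.s k1 k2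
  0 (.s k61 k41 5 (.s k149 k213 7 (.s k105 k193 13 (.s k125 k65 5 (.d k253 k189 k169 7 13)))))), (.s
  k63 k42 6 (.s k23 k43 5 (.s k149 k213 7 (.s k86 k212 8 (.s k84 k87 0 (.d k252 k168 k169 13
  14))))))] (.c k41 (.l (.s k1 k2 0 (.s k63 k42 6 (.s k43 k23 5 (.s k149 k213 7 (.s k169 k253 13 (.d
  k106 k192 k232 14 8))))))) .n))

def s10_255_50 : T TT 256 :=
  (.q k21 [(.s k2 k1 0 (.s k42 k63 6 (.s k22 k62 5 (.s k20 k23 0 (.d k60 k40 k41 5 6))))), (.s k1 k2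
  0 (.s k61 k41 5 (.s k149 k213 7 (.s k105 k193 13 (.s k125 k65 5 (.d k253 k189 k169 7 13)))))), (.s
  k63 k42 6 (.s k23 k43 5 (.s k149 k213 7 (.s k86 k212 8 (.s k84 k87 0 (.d k252 k168 k169 13
  14))))))] (.c k41 (.l (.s k1 k2 0 (.s k63 k42 6 (.s k43 k23 5 (.s k149 k213 7 (.s k169 k253 13 (.d
  k106 k192 k232 14 8))))))) .n))

def s10_255_51 : T TT 256 :=
  (.q k63 [(.s k2 k1 0 (.s k43 k23 5 (.s k42 k21 6 (.s k41 k40 0 (.d k22 k62 k60 5 6))))), (.s k1 k2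
  0 (.s k43 k23 5 (.s k169 k253 13 (.s k106 k232 8 (.s k64 k127 6 (.d k192 k128 k149 7 14)))))), (.s
  k21 k42 6 (.s k23 k43 5 (.s k149 k213 7 (.s k86 k212 8 (.s k84 k87 0 (.d k252 k168 k169 13
  14)))))), (.s k1 k2 0 (.s k21 k42 6 (.s k149 k213 7 (.s k169 k253 13 (.s k129 k189 5 (.d k192 k66
  k106 8 14))))))] (.c k119 (.q k187 [(.s k2 k1 0 (.s k43 k23 5 (.s k42 k21 6 (.s k41 k40 0 (.d k22
  k62 k60 5 6))))), (.s k1 k2 0 (.s k43 k23 5 (.s k169 k253 13 (.s k106 k232 8 (.s k64 k127 6 (.d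
  k192 k128 k149 7 14)))))), (.s k21 k42 6 (.s k23 k43 5 (.s k149 k213 7 (.s k86 k212 8 (.s k84 k87
  0 (.d k252 k168 k169 13 14)))))), (.s k1 k2 0 (.s k21 k42 6 (.s k149 k213 7 (.s k169 k253 13 (.s
  k129 k189 5 (.d k192 k66 k106 8 14))))))] .n) (.c k187 (.q k119 [(.s k2 k1 0 (.s k43 k23 5 (.s k42
  k21 6 (.s k41 k40 0 (.d k22 k62 k60 5 6))))), (.s k1 k2 0 (.s k43 k23 5 (.s k169 k253 13 (.s k106
  k232 8 (.s k64 k127 6 (.d k192 k128 k149 7 14)))))), (.s k21 k42 6 (.s k23 k43 5 (.s k149 k213 7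
  (.s k86 k212 8 (.s k84 k87 0 (.d k252 k168 k169 13 14)))))), (.s k1 k2 0 (.s k21 k42 6 (.s k149
  k213 7 (.s k169 k253 13 (.s k129 k189 5 (.d k192 k66 k106 8 14))))))] .n) .n)))

def s10_255_52 : T TT 256 :=
  (.q k17 [(.s k2 k1 0 (.s k34 k51 4 (.s k18 k50 3 (.s k16 k19 0 (.d k48 k32 k33 3 4))))), (.s k1 k2
  0 (.s k49 k33 3 (.s k153 k221 9 (.s k101 k205 13 (.s k117 k69 3 (.d k253 k185 k169 9 13)))))), (.s
  k51 k34 4 (.s k19 k35 3 (.s k153 k221 9 (.s k86 k220 10 (.s k84 k87 0 (.d k252 k168 k169 13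
  14))))))] (.c k33 (.l (.s k1 k2 0 (.s k51 k34 4 (.s k35 k19 3 (.s k153 k221 9 (.s k169 k253 13 (.d
  k102 k204 k236 14 10))))))) .n))

def s10_255_53 : T TT 256 :=
  (.q k17 [(.s k2 k1 0 (.s k34 k51 4 (.s k18 k50 3 (.s k16 k19 0 (.d k48 k32 k33 3 4))))), (.s k1 k2
  0 (.s k49 k33 3 (.s k153 k221 9 (.s k101 k205 13 (.s k117 k69 3 (.d k253 k185 k169 9 13)))))), (.s
  k51 k34 4 (.s k19 k35 3 (.s k153 k221 9 (.s k86 k220 10 (.s k84 k87 0 (.d k252 k168 k169 13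
  14))))))] (.c k33 (.l (.s k1 k2 0 (.s k51 k34 4 (.s k35 k19 3 (.s k153 k221 9 (.s k169 k253 13 (.d
  k102 k204 k236 14 10))))))) .n))

def s10_255_54 : T TT 256 :=
  (.q k17 [(.s k1 k2 0 (.s k33 k49 3 (.s k18 k48 4 (.s k19 k16 0 (.d k51 k35 k34 3 4))))), (.s k51
  k34 4 (.s k19 k35 3 (.s k153 k221 9 (.s k86 k220 10 (.s k84 k87 0 (.d k252 k168 k169 13 14)))))),
  (.s k1 k2 0 (.s k49 k33 3 (.s k153 k221 9 (.s k101 k205 13 (.s k117 k69 3 (.d k253 k185 k169 9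
  13))))))] (.c k33 (.l (.s k1 k2 0 (.s k51 k34 4 (.s k35 k19 3 (.s k153 k221 9 (.s k169 k253 13 (.d
  k102 k204 k236 14 10))))))) .n))

def s10_255_55 : T TT 256 :=
  (.q k17 [(.s k1 k2 0 (.s k33 k49 3 (.s k18 k48 4 (.s k19 k16 0 (.d k51 k35 k34 3 4))))), (.s k51
  k34 4 (.s k19 k35 3 (.s k153 k221 9 (.s k86 k220 10 (.s k84 k87 0 (.d k252 k168 k169 13 14)))))),
  (.s k1 k2 0 (.s k49 k33 3 (.s k153 k221 9 (.s k101 k205 13 (.s k117 k69 3 (.d k253 k185 k169 9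
  13))))))] (.c k33 (.l (.s k1 k2 0 (.s k51 k34 4 (.s k35 k19 3 (.s k153 k221 9 (.s k169 k253 13 (.d
  k102 k204 k236 14 10))))))) .n))

def s10_255_56 : T TT 256 :=
  (.q k17 [(.s k2 k1 0 (.s k34 k51 4 (.s k18 k50 3 (.s k16 k19 0 (.d k48 k32 k33 3 4))))), (.s k1 k2
  0 (.s k49 k33 3 (.s k153 k221 9 (.s k101 k205 13 (.s k117 k69 3 (.d k253 k185 k169 9 13)))))), (.s
  k51 k34 4 (.s k19 k35 3 (.s k153 k221 9 (.s k86 k220 10 (.s k84 k87 0 (.d k252 k168 k169 13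
  14))))))] (.c k33 (.l (.s k1 k2 0 (.s k51 k34 4 (.s k35 k19 3 (.s k153 k221 9 (.s k169 k253 13 (.d
  k102 k204 k236 14 10))))))) .n))

def s10_255_57 : T TT 256 :=
  (.q k17 [(.s k1 k2 0 (.s k51 k34 4 (.s k19 k35 3 (.s k18 k16 0 (.d k33 k49 k48 3 4))))), (.s k51
  k34 4 (.s k19 k35 3 (.s k153 k221 9 (.s k86 k220 10 (.s k84 k87 0 (.d k252 k168 k169 13 14)))))),
  (.s k1 k2 0 (.s k49 k33 3 (.s k153 k221 9 (.s k101 k205 13 (.s k117 k69 3 (.d k253 k185 k169 9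
  13))))))] (.c k33 (.l (.s k1 k2 0 (.s k51 k34 4 (.s k35 k19 3 (.s k153 k221 9 (.s k169 k253 13 (.d
  k102 k204 k236 14 10))))))) .n))

def s10_255_58 : T TT 256 :=
  (.q k69 [(.s k2 k1 0 (.s k138 k207 10 (.s k70 k206 9 (.s k68 k71 0 (.d k204 k136 k137 9 10))))),
  (.s k1 k2 0 (.s k101 k117 3 (.s k169 k253 13 (.s k33 k237 9 (.s k49 k17 3 (.d k205 k137 k153 9
  13)))))), (.s k101 k117 3 (.s k207 k138 10 (.s k71 k139 9 (.s k86 k116 4 (.s k84 k87 0 (.d k252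
  k168 k169 13 14))))))] (.c k26 (.q k42 [(.s k1 k2 0 (.s k137 k205 9 (.s k70 k204 10 (.s k71 k68 0
  (.d k207 k139 k138 9 10))))), (.s k2 k1 0 (.s k21 k63 6 (.s k22 k62 5 (.s k20 k23 0 (.d k60 k40
  k41 5 6))))), (.s k101 k117 3 (.s k207 k138 10 (.s k71 k139 9 (.s k86 k116 4 (.s k84 k87 0 (.d
  k252 k168 k169 13 14))))))] .n) (.c k42 (.q k26 [(.s k2 k1 0 (.s k138 k207 10 (.s k70 k206 9 (.s
  k68 k71 0 (.d k204 k136 k137 9 10))))), (.s k1 k2 0 (.s k101 k117 3 (.s k169 k253 13 (.s k33 k237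
  9 (.s k49 k17 3 (.d k205 k137 k153 9 13)))))), (.s k101 k117 3 (.s k207 k138 10 (.s k71 k139 9 (.s
  k86 k116 4 (.s k84 k87 0 (.d k252 k168 k169 13 14))))))] (.c k137 (.l (.s k1 k2 0 (.s k101 k117 3
  (.s k169 k253 13 (.s k33 k237 9 (.s k48 k18 4 (.d k207 k138 k154 10 14))))))) .n)) (.c k137 (.l
  (.s k1 k2 0 (.s k101 k117 3 (.s k169 k253 13 (.s k33 k237 9 (.s k48 k18 4 (.d k207 k138 k154 10
  14))))))) .n))))

def s10_255_59 : T TT 256 :=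
  (.q k17 [(.s k1 k2 0 (.s k33 k49 3 (.s k18 k48 4 (.s k19 k16 0 (.d k51 k35 k34 3 4))))), (.s k51
  k34 4 (.s k19 k35 3 (.s k153 k221 9 (.s k86 k220 10 (.s k84 k87 0 (.d k252 k168 k169 13 14)))))),
  (.s k1 k2 0 (.s k49 k33 3 (.s k153 k221 9 (.s k101 k205 13 (.s k117 k69 3 (.d k253 k185 k169 9
  13))))))] (.c k33 (.l (.s k1 k2 0 (.s k51 k34 4 (.s k35 k19 3 (.s k153 k221 9 (.s k169 k253 13 (.d
  k102 k204 k236 14 10))))))) .n))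

def s10_255_60 : T TT 256 :=
  (.q k51 [(.s k2 k1 0 (.s k35 k19 3 (.s k34 k17 4 (.s k33 k32 0 (.d k18 k50 k48 3 4))))), (.s k1 k2
  0 (.s k35 k19 3 (.s k169 k253 13 (.s k102 k236 10 (.s k68 k119 4 (.d k204 k136 k153 9 14)))))),
  (.s k17 k34 4 (.s k19 k35 3 (.s k153 k221 9 (.s k86 k220 10 (.s k84 k87 0 (.d k252 k168 k169 13
  14)))))), (.s k1 k2 0 (.s k17 k34 4 (.s k153 k221 9 (.s k169 k253 13 (.s k137 k185 3 (.d k204 k70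
  k102 10 14))))))] (.c k125 (.q k190 [(.s k2 k1 0 (.s k35 k19 3 (.s k34 k17 4 (.s k33 k32 0 (.d k18
  k50 k48 3 4))))), (.s k1 k2 0 (.s k35 k19 3 (.s k169 k253 13 (.s k102 k236 10 (.s k68 k119 4 (.d
  k204 k136 k153 9 14)))))), (.s k17 k34 4 (.s k19 k35 3 (.s k153 k221 9 (.s k86 k220 10 (.s k84 k87
  0 (.d k252 k168 k169 13 14)))))), (.s k1 k2 0 (.s k17 k34 4 (.s k153 k221 9 (.s k169 k253 13 (.s
  k137 k185 3 (.d k204 k70 k102 10 14))))))] .n) (.c k190 (.q k125 [(.s k2 k1 0 (.s k35 k19 3 (.s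
  k34 k17 4 (.s k33 k32 0 (.d k18 k50 k48 3 4))))), (.s k1 k2 0 (.s k35 k19 3 (.s k169 k253 13 (.s
  k102 k236 10 (.s k68 k119 4 (.d k204 k136 k153 9 14)))))), (.s k17 k34 4 (.s k19 k35 3 (.s k153
  k221 9 (.s k86 k220 10 (.s k84 k87 0 (.d k252 k168 k169 13 14)))))), (.s k1 k2 0 (.s k17 k34 4 (.s
  k153 k221 9 (.s k169 k253 13 (.s k137 k185 3 (.d k204 k70 k102 10 14))))))] .n) .n)))

def s10_255_61 : T TT 256 :=
  (.q k17 [(.s k1 k2 0 (.s k51 k34 4 (.s k19 k35 3 (.s k18 k16 0 (.d k33 k49 k48 3 4))))), (.s k51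
  k34 4 (.s k19 k35 3 (.s k153 k221 9 (.s k86 k220 10 (.s k84 k87 0 (.d k252 k168 k169 13 14)))))),
  (.s k1 k2 0 (.s k49 k33 3 (.s k153 k221 9 (.s k101 k205 13 (.s k117 k69 3 (.d k253 k185 k169 9
  13))))))] (.c k33 (.l (.s k1 k2 0 (.s k51 k34 4 (.s k35 k19 3 (.s k153 k221 9 (.s k169 k253 13 (.d
  k102 k204 k236 14 10))))))) .n))

def s10_255_62 : T TT 256 :=
  (.q k17 [(.s k2 k1 0 (.s k34 k51 4 (.s k18 k50 3 (.s k16 k19 0 (.d k48 k32 k33 3 4))))), (.s k1 k2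
  0 (.s k49 k33 3 (.s k153 k221 9 (.s k101 k205 13 (.s k117 k69 3 (.d k253 k185 k169 9 13)))))), (.s
  k51 k34 4 (.s k19 k35 3 (.s k153 k221 9 (.s k86 k220 10 (.s k84 k87 0 (.d k252 k168 k169 13
  14))))))] (.c k33 (.l (.s k1 k2 0 (.s k51 k34 4 (.s k35 k19 3 (.s k153 k221 9 (.s k169 k253 13 (.d
  k102 k204 k236 14 10))))))) .n))

def s10_255_63 : T TT 256 :=
  (.q k153 [(.s k1 k2 0 (.s k17 k221 9 (.s k49 k33 3 (.s k101 k205 13 (.s k117 k69 3 (.d k253 k185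
  k169 9 13)))))), (.s k17 k221 9 (.s k51 k34 4 (.s k19 k35 3 (.s k86 k220 10 (.s k84 k87 0 (.d k252
  k168 k169 13 14)))))), (.s k1 k2 0 (.s k169 k253 13 (.s k137 k185 3 (.s k204 k70 10 (.s k68 k136 9
  (.d k102 k119 k51 4 14))))))] (.c k127 (.q k191 [(.s k1 k2 0 (.s k17 k221 9 (.s k49 k33 3 (.s k101
  k205 13 (.s k117 k69 3 (.d k253 k185 k169 9 13)))))), (.s k17 k221 9 (.s k51 k34 4 (.s k19 k35 3
  (.s k86 k220 10 (.s k84 k87 0 (.d k252 k168 k169 13 14)))))), (.s k1 k2 0 (.s k169 k253 13 (.s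
  k137 k185 3 (.s k204 k70 10 (.s k68 k136 9 (.d k102 k119 k51 4 14))))))] (.c k169 (.l (.s k1 k2 0
  (.s k17 k221 9 (.s k33 k49 3 (.s k18 k48 4 (.s k19 k16 0 (.d k51 k35 k34 3 4))))))) (.c k204 (.l
  (.s k1 k2 0 (.s k169 k253 13 (.s k137 k185 3 (.s k205 k69 9 (.s k49 k101 13 (.d k17 k33 k221 3
  9))))))) .n))) (.c k169 (.l (.s k1 k2 0 (.s k17 k221 9 (.s k33 k49 3 (.s k18 k48 4 (.s k19 k16 0
  (.d k51 k35 k34 3 4))))))) (.c k191 (.q k127 [(.s k1 k2 0 (.s k17 k221 9 (.s k49 k33 3 (.s k101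
  k205 13 (.s k117 k69 3 (.d k253 k185 k169 9 13)))))), (.s k17 k221 9 (.s k51 k34 4 (.s k19 k35 3
  (.s k86 k220 10 (.s k84 k87 0 (.d k252 k168 k169 13 14)))))), (.s k1 k2 0 (.s k169 k253 13 (.s
  k137 k185 3 (.s k204 k70 10 (.s k68 k136 9 (.d k102 k119 k51 4 14))))))] (.c k169 (.l (.s k1 k2 0
  (.s k17 k221 9 (.s k33 k49 3 (.s k18 k48 4 (.s k19 k16 0 (.d k51 k35 k34 3 4))))))) (.c k204 (.l
  (.s k1 k2 0 (.s k169 k253 13 (.s k137 k185 3 (.s k205 k69 9 (.s k49 k101 13 (.d k17 k33 k221 3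
  9))))))) .n))) (.c k204 (.l (.s k1 k2 0 (.s k169 k253 13 (.s k137 k185 3 (.s k205 k69 9 (.s k49
  k101 13 (.d k17 k33 k221 3 9))))))) .n)))))

def s10_255_64 : T TT 256 :=
  (.q k17 [(.s k2 k1 0 (.s k34 k51 4 (.s k18 k50 3 (.s k16 k19 0 (.d k48 k32 k33 3 4))))), (.s k1 k2
  0 (.s k49 k33 3 (.s k153 k221 9 (.s k101 k205 13 (.s k117 k69 3 (.d k253 k185 k169 9 13)))))), (.s
  k51 k34 4 (.s k19 k35 3 (.s k153 k221 9 (.s k86 k220 10 (.s k84 k87 0 (.d k252 k168 k169 13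
  14))))))] (.c k33 (.l (.s k1 k2 0 (.s k51 k34 4 (.s k35 k19 3 (.s k153 k221 9 (.s k169 k253 13 (.d
  k102 k204 k236 14 10))))))) .n))

def s10_255_65 : T TT 256 :=
  (.q k17 [(.s k1 k2 0 (.s k33 k49 3 (.s k18 k48 4 (.s k19 k16 0 (.d k51 k35 k34 3 4))))), (.s k51
  k34 4 (.s k19 k35 3 (.s k153 k221 9 (.s k86 k220 10 (.s k84 k87 0 (.d k252 k168 k169 13 14)))))),
  (.s k1 k2 0 (.s k49 k33 3 (.s k153 k221 9 (.s k101 k205 13 (.s k117 k69 3 (.d k253 k185 k169 9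
  13))))))] (.c k33 (.l (.s k1 k2 0 (.s k51 k34 4 (.s k35 k19 3 (.s k153 k221 9 (.s k169 k253 13 (.d
  k102 k204 k236 14 10))))))) .n))

def s10_255_66 : T TT 256 :=
  (.q k17 [(.s k2 k1 0 (.s k34 k51 4 (.s k18 k50 3 (.s k16 k19 0 (.d k48 k32 k33 3 4))))), (.s k1 k2
  0 (.s k49 k33 3 (.s k153 k221 9 (.s k101 k205 13 (.s k117 k69 3 (.d k253 k185 k169 9 13)))))), (.s
  k51 k34 4 (.s k19 k35 3 (.s k153 k221 9 (.s k86 k220 10 (.s k84 k87 0 (.d k252 k168 k169 13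
  14))))))] (.c k33 (.l (.s k1 k2 0 (.s k51 k34 4 (.s k35 k19 3 (.s k153 k221 9 (.s k169 k253 13 (.d
  k102 k204 k236 14 10))))))) .n))

def s10_255_67 : T TT 256 :=
  (.q k17 [(.s k2 k1 0 (.s k34 k51 4 (.s k18 k50 3 (.s k16 k19 0 (.d k48 k32 k33 3 4))))), (.s k1 k2
  0 (.s k49 k33 3 (.s k153 k221 9 (.s k101 k205 13 (.s k117 k69 3 (.d k253 k185 k169 9 13)))))), (.s
  k51 k34 4 (.s k19 k35 3 (.s k153 k221 9 (.s k86 k220 10 (.s k84 k87 0 (.d k252 k168 k169 13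
  14))))))] (.c k33 (.l (.s k1 k2 0 (.s k51 k34 4 (.s k35 k19 3 (.s k153 k221 9 (.s k169 k253 13 (.d
  k102 k204 k236 14 10))))))) .n))

def s10_255_68 : T TT 256 :=
  (.q k17 [(.s k2 k1 0 (.s k34 k51 4 (.s k18 k50 3 (.s k16 k19 0 (.d k48 k32 k33 3 4))))), (.s k1 k2
  0 (.s k49 k33 3 (.s k153 k221 9 (.s k101 k205 13 (.s k117 k69 3 (.d k253 k185 k169 9 13)))))), (.s
  k51 k34 4 (.s k19 k35 3 (.s k153 k221 9 (.s k86 k220 10 (.s k84 k87 0 (.d k252 k168 k169 13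
  14))))))] (.c k33 (.l (.s k1 k2 0 (.s k51 k34 4 (.s k35 k19 3 (.s k153 k221 9 (.s k169 k253 13 (.d
  k102 k204 k236 14 10))))))) .n))

def s10_255_69 : T TT 256 :=
  (.q k17 [(.s k1 k2 0 (.s k33 k49 3 (.s k18 k48 4 (.s k19 k16 0 (.d k51 k35 k34 3 4))))), (.s k51
  k34 4 (.s k19 k35 3 (.s k153 k221 9 (.s k86 k220 10 (.s k84 k87 0 (.d k252 k168 k169 13 14)))))),
  (.s k1 k2 0 (.s k153 k221 9 (.s k169 k253 13 (.s k137 k185 3 (.s k204 k70 10 (.d k51 k34 k102 4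
  14))))))] (.c k34 (.l (.s k1 k2 0 (.s k33 k49 3 (.s k18 k48 4 (.s k16 k19 0 (.s k154 k223 10 (.s
  k86 k222 9 (.d k169 k253 k252 13 14)))))))) (.c k51 (.l (.s k1 k2 0 (.s k33 k49 3 (.s k48 k18 4
  (.s k16 k32 3 (.s k154 k223 10 (.s k169 k253 13 (.d k101 k207 k237 14 9)))))))) .n)))

def s10_255_70 : T TT 256 :=
  (.q k17 [(.s k2 k1 0 (.s k34 k51 4 (.s k18 k50 3 (.s k16 k19 0 (.d k48 k32 k33 3 4))))), (.s k1 k2
  0 (.s k49 k33 3 (.s k153 k221 9 (.s k101 k205 13 (.s k117 k69 3 (.d k253 k185 k169 9 13)))))), (.s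
  k51 k34 4 (.s k19 k35 3 (.s k153 k221 9 (.s k86 k220 10 (.s k84 k87 0 (.d k252 k168 k169 13
  14))))))] (.c k33 (.l (.s k1 k2 0 (.s k51 k34 4 (.s k35 k19 3 (.s k153 k221 9 (.s k169 k253 13 (.d
  k102 k204 k236 14 10))))))) .n))

def s10_255_71 : T TT 256 :=
  (.q k17 [(.s k2 k1 0 (.s k34 k51 4 (.s k18 k50 3 (.s k16 k19 0 (.d k48 k32 k33 3 4))))), (.s k1 k2
  0 (.s k49 k33 3 (.s k153 k221 9 (.s k101 k205 13 (.s k117 k69 3 (.d k253 k185 k169 9 13)))))), (.s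
  k51 k34 4 (.s k19 k35 3 (.s k153 k221 9 (.s k86 k220 10 (.s k84 k87 0 (.d k252 k168 k169 13
  14))))))] (.c k33 (.l (.s k1 k2 0 (.s k51 k34 4 (.s k35 k19 3 (.s k153 k221 9 (.s k169 k253 13 (.d
  k102 k204 k236 14 10))))))) .n))

def s10_255_72 : T TT 256 :=
  (.q k17 [(.s k2 k1 0 (.s k34 k51 4 (.s k18 k50 3 (.s k16 k19 0 (.d k48 k32 k33 3 4))))), (.s k1 k2
  0 (.s k49 k33 3 (.s k153 k221 9 (.s k101 k205 13 (.s k117 k69 3 (.d k253 k185 k169 9 13)))))), (.s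
  k51 k34 4 (.s k19 k35 3 (.s k153 k221 9 (.s k86 k220 10 (.s k84 k87 0 (.d k252 k168 k169 13
  14))))))] (.c k33 (.l (.s k1 k2 0 (.s k51 k34 4 (.s k35 k19 3 (.s k153 k221 9 (.s k169 k253 13 (.d
  k102 k204 k236 14 10))))))) .n))

def s10_255_73 : T TT 256 :=
  (.q k17 [(.s k2 k1 0 (.s k34 k51 4 (.s k18 k50 3 (.s k16 k19 0 (.d k48 k32 k33 3 4))))), (.s k1 k2
  0 (.s k49 k33 3 (.s k153 k221 9 (.s k101 k205 13 (.s k117 k69 3 (.d k253 k185 k169 9 13)))))), (.s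
  k51 k34 4 (.s k19 k35 3 (.s k153 k221 9 (.s k86 k220 10 (.s k84 k87 0 (.d k252 k168 k169 13
  14))))))] (.c k33 (.l (.s k1 k2 0 (.s k51 k34 4 (.s k35 k19 3 (.s k153 k221 9 (.s k169 k253 13 (.d
  k102 k204 k236 14 10))))))) .n))

def s10_255_74 : T TT 256 :=
  (.q k48 [(.s k2 k1 0 (.s k16 k32 3 (.s k18 k33 4 (.s k17 k19 0 (.d k34 k50 k51 3 4))))), (.s k1 k2
  0 (.s k16 k32 3 (.s k154 k223 10 (.s k169 k253 13 (.s k139 k184 4 (.d k207 k71 k101 9 14)))))),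
  (.s k16 k32 3 (.s k18 k33 4 (.s k154 k223 10 (.s k86 k222 9 (.s k84 k87 0 (.d k252 k168 k169 13
  14)))))), (.s k1 k2 0 (.s k33 k18 4 (.s k169 k253 13 (.s k101 k237 9 (.s k69 k117 3 (.d k207 k138
  k154 10 14))))))] (.c k138 (.q k202 [(.s k2 k1 0 (.s k16 k32 3 (.s k18 k33 4 (.s k17 k19 0 (.d k34
  k50 k51 3 4))))), (.s k1 k2 0 (.s k16 k32 3 (.s k154 k223 10 (.s k169 k253 13 (.s k139 k184 4 (.d
  k207 k71 k101 9 14)))))), (.s k16 k32 3 (.s k18 k33 4 (.s k154 k223 10 (.s k86 k222 9 (.s k84 k87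
  0 (.d k252 k168 k169 13 14)))))), (.s k1 k2 0 (.s k33 k18 4 (.s k169 k253 13 (.s k101 k237 9 (.s
  k69 k117 3 (.s k205 k137 9 (.d k49 k17 k153 3 13)))))))] .n) (.c k202 (.q k138 [(.s k16 k32 3 (.s
  k154 k223 10 (.d k207 k69 k101 10 14))), (.s k1 k2 0 (.s k32 k16 3 (.s k33 k18 4 (.s k17 k49 3 (.d
  k34 k35 k51 0 4))))), (.s k1 k2 0 (.s k33 k18 4 (.s k69 k207 10 (.s k101 k117 3 (.d k169 k237 k253
  9 13)))))] .n) .n)))

def s10_255_75 : T TT 256 :=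
  (.q k17 [(.s k2 k1 0 (.s k34 k51 4 (.s k18 k50 3 (.s k16 k19 0 (.d k48 k32 k33 3 4))))), (.s k1 k2
  0 (.s k49 k33 3 (.s k153 k221 9 (.s k101 k205 13 (.s k117 k69 3 (.d k253 k185 k169 9 13)))))), (.s
  k51 k34 4 (.s k19 k35 3 (.s k153 k221 9 (.s k86 k220 10 (.s k84 k87 0 (.d k252 k168 k169 13
  14))))))] (.c k33 (.l (.s k1 k2 0 (.s k51 k34 4 (.s k35 k19 3 (.s k153 k221 9 (.s k169 k253 13 (.d
  k102 k204 k236 14 10))))))) .n))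

def s10_255_76 : T TT 256 :=
  (.q k17 [(.s k2 k1 0 (.s k34 k51 4 (.s k18 k50 3 (.s k16 k19 0 (.d k48 k32 k33 3 4))))), (.s k1 k2
  0 (.s k49 k33 3 (.s k153 k221 9 (.s k101 k205 13 (.s k117 k69 3 (.d k253 k185 k169 9 13)))))), (.s
  k51 k34 4 (.s k19 k35 3 (.s k153 k221 9 (.s k86 k220 10 (.s k84 k87 0 (.d k252 k168 k169 13
  14))))))] (.c k33 (.l (.s k1 k2 0 (.s k51 k34 4 (.s k35 k19 3 (.s k153 k221 9 (.s k169 k253 13 (.d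
  k102 k204 k236 14 10))))))) .n))

def s10_255_77 : T TT 256 :=
  (.q k17 [(.s k2 k1 0 (.s k34 k51 4 (.s k18 k50 3 (.s k16 k19 0 (.d k48 k32 k33 3 4))))), (.s k1 k2
  0 (.s k49 k33 3 (.s k153 k221 9 (.s k101 k205 13 (.s k117 k69 3 (.d k253 k185 k169 9 13)))))), (.s
  k51 k34 4 (.s k19 k35 3 (.s k153 k221 9 (.s k86 k220 10 (.s k84 k87 0 (.d k252 k168 k169 13
  14))))))] (.c k33 (.l (.s k1 k2 0 (.s k51 k34 4 (.s k35 k19 3 (.s k153 k221 9 (.s k169 k253 13 (.d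
  k102 k204 k236 14 10))))))) .n))

def s10_255_78 : T TT 256 :=
  (.q k17 [(.s k2 k1 0 (.s k34 k51 4 (.s k18 k50 3 (.s k16 k19 0 (.d k48 k32 k33 3 4))))), (.s k1 k2
  0 (.s k49 k33 3 (.s k153 k221 9 (.s k101 k205 13 (.s k117 k69 3 (.d k253 k185 k169 9 13)))))), (.s
  k51 k34 4 (.s k19 k35 3 (.s k153 k221 9 (.s k86 k220 10 (.s k84 k87 0 (.d k252 k168 k169 13
  14))))))] (.c k33 (.l (.s k1 k2 0 (.s k51 k34 4 (.s k35 k19 3 (.s k153 k221 9 (.s k169 k253 13 (.d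
  k102 k204 k236 14 10))))))) .n))

def s10_255_79 : T TT 256 :=
  (.q k17 [(.s k2 k1 0 (.s k34 k51 4 (.s k18 k50 3 (.s k16 k19 0 (.d k48 k32 k33 3 4))))), (.s k1 k2
  0 (.s k49 k33 3 (.s k153 k221 9 (.s k101 k205 13 (.s k117 k69 3 (.d k253 k185 k169 9 13)))))), (.s
  k51 k34 4 (.s k19 k35 3 (.s k153 k221 9 (.s k86 k220 10 (.s k84 k87 0 (.d k252 k168 k169 13
  14))))))] (.c k33 (.l (.s k1 k2 0 (.s k51 k34 4 (.s k35 k19 3 (.s k153 k221 9 (.s k169 k253 13 (.d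
  k102 k204 k236 14 10))))))) .n))

def s10_255_80 : T TT 256 :=
  (.q k17 [(.s k2 k1 0 (.s k34 k51 4 (.s k18 k50 3 (.s k16 k19 0 (.d k48 k32 k33 3 4))))), (.s k1 k2
  0 (.s k49 k33 3 (.s k153 k221 9 (.s k101 k205 13 (.s k117 k69 3 (.d k253 k185 k169 9 13)))))), (.s
  k51 k34 4 (.s k19 k35 3 (.s k153 k221 9 (.s k86 k220 10 (.s k84 k87 0 (.d k252 k168 k169 13
  14))))))] (.c k33 (.l (.s k1 k2 0 (.s k51 k34 4 (.s k35 k19 3 (.s k153 k221 9 (.s k169 k253 13 (.d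
  k102 k204 k236 14 10))))))) .n))

def s10_255_81 : T TT 256 :=
  (.q k17 [(.s k2 k1 0 (.s k34 k51 4 (.s k18 k50 3 (.s k16 k19 0 (.d k48 k32 k33 3 4))))), (.s k1 k2
  0 (.s k49 k33 3 (.s k153 k221 9 (.s k101 k205 13 (.s k117 k69 3 (.d k253 k185 k169 9 13)))))), (.s
  k51 k34 4 (.s k19 k35 3 (.s k153 k221 9 (.s k86 k220 10 (.s k84 k87 0 (.d k252 k168 k169 13
  14))))))] (.c k33 (.l (.s k1 k2 0 (.s k51 k34 4 (.s k35 k19 3 (.s k153 k221 9 (.s k169 k253 13 (.d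
  k102 k204 k236 14 10))))))) .n))

def s10_255_82 : T TT 256 :=
  (.q k17 [(.s k2 k1 0 (.s k34 k51 4 (.s k18 k50 3 (.s k48 k33 4 (.d k16 k19 k32 0 3))))), (.s k1 k2
  0 (.s k49 k33 3 (.s k153 k221 9 (.s k101 k205 13 (.s k117 k69 3 (.d k253 k185 k169 9 13)))))), (.s
  k51 k34 4 (.s k19 k35 3 (.s k153 k221 9 (.s k86 k220 10 (.s k84 k87 0 (.d k252 k168 k169 13
  14))))))] (.c k33 (.l (.s k1 k2 0 (.s k51 k34 4 (.s k35 k19 3 (.s k153 k221 9 (.s k169 k253 13 (.d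
  k102 k204 k236 14 10))))))) .n))

def s10_255_83 : T TT 256 :=
  (.q k17 [(.s k2 k1 0 (.s k34 k51 4 (.s k18 k50 3 (.s k48 k33 4 (.d k16 k19 k32 0 3))))), (.s k1 k2
  0 (.s k49 k33 3 (.s k153 k221 9 (.s k101 k205 13 (.s k117 k69 3 (.d k253 k185 k169 9 13)))))), (.s
  k51 k34 4 (.s k19 k35 3 (.s k153 k221 9 (.s k86 k220 10 (.s k84 k87 0 (.d k252 k168 k169 13
  14))))))] (.c k33 (.l (.s k1 k2 0 (.s k51 k34 4 (.s k35 k19 3 (.s k153 k221 9 (.s k169 k253 13 (.d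
  k102 k204 k236 14 10))))))) .n))

def s10_255_84 : T TT 256 :=
  (.q k17 [(.s k2 k1 0 (.s k34 k51 4 (.s k18 k50 3 (.s k16 k19 0 (.d k48 k32 k33 3 4))))), (.s k1 k2
  0 (.s k49 k33 3 (.s k153 k221 9 (.s k101 k205 13 (.s k117 k69 3 (.d k253 k185 k169 9 13)))))), (.s
  k51 k34 4 (.s k19 k35 3 (.s k153 k221 9 (.s k86 k220 10 (.s k169 k252 14 (.s k137 k185 3 (.d k204
  k70 k102 10 14)))))))] (.c k33 (.l (.s k1 k2 0 (.s k51 k34 4 (.s k35 k19 3 (.s k153 k221 9 (.s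
  k169 k253 13 (.d k102 k204 k236 14 10))))))) .n))

def s10_255_86 : T TT 256 :=
  (.f k2 k1 0 (.q k48 [(.s k16 k32 3 (.s k18 k33 4 (.s k34 k50 3 (.d k17 k19 k51 0 4)))), (.s k16
  k32 3 (.s k154 k223 10 (.s k207 k101 14 (.s k138 k69 10 (.s k70 k206 9 (.s k137 k204 10 (.d k139
  k71 k136 9 0)))))))] (.c k16 (.q k22 [(.s k41 k60 6 (.s k42 k62 5 (.s k43 k40 0 (.d k63 k23 k21 5
  6)))), (.s k18 k33 4 (.s k26 k30 1 (.s k15 k37 6 (.s k11 k7 1 (.d k41 k56 k60 4 6))))), (.s k18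
  k33 4 (.s k26 k30 1 (.s k50 k34 3 (.s k38 k14 5 (.s k54 k6 3 (.d k62 k58 k42 1 5))))))] .n) (.c
  k32 (.q k16 [(.s k18 k33 4 (.s k34 k50 3 (.d k17 k19 k51 0 4))), (.s k154 k223 10 (.s k207 k101 14
  (.s k138 k69 10 (.s k70 k206 9 (.s k137 k204 10 (.d k139 k71 k136 9 0))))))] .n) .n))))

def s10_255_87 : T TT 256 :=
  (.q k17 [(.s k2 k1 0 (.s k34 k51 4 (.s k18 k50 3 (.s k48 k33 4 (.d k16 k19 k32 0 3))))), (.s k1 k2
  0 (.s k49 k33 3 (.s k153 k221 9 (.s k101 k205 13 (.s k117 k69 3 (.d k253 k185 k169 9 13)))))), (.s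
  k51 k34 4 (.s k19 k35 3 (.s k153 k221 9 (.s k86 k220 10 (.s k169 k252 14 (.s k137 k185 3 (.d k204
  k70 k102 10 14)))))))] (.c k33 (.l (.s k1 k2 0 (.s k51 k34 4 (.s k35 k19 3 (.s k153 k221 9 (.s
  k169 k253 13 (.d k102 k204 k236 14 10))))))) .n))

def s10_255_88 : T TT 256 :=
  (.q k17 [(.s k2 k1 0 (.s k34 k51 4 (.s k18 k50 3 (.s k16 k19 0 (.d k48 k32 k33 3 4))))), (.s k1 k2
  0 (.s k49 k33 3 (.s k153 k221 9 (.s k101 k205 13 (.s k117 k69 3 (.d k253 k185 k169 9 13)))))), (.s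
  k51 k34 4 (.s k19 k35 3 (.s k153 k221 9 (.s k86 k220 10 (.s k84 k87 0 (.d k252 k168 k169 13
  14))))))] (.c k33 (.l (.s k1 k2 0 (.s k51 k34 4 (.s k35 k19 3 (.s k153 k221 9 (.s k169 k253 13 (.d
  k102 k204 k236 14 10))))))) .n))

def s10_255_89 : T TT 256 :=
  (.q k17 [(.s k2 k1 0 (.s k34 k51 4 (.s k18 k50 3 (.s k16 k19 0 (.d k48 k32 k33 3 4))))), (.s k1 k2
  0 (.s k49 k33 3 (.s k153 k221 9 (.s k101 k205 13 (.s k117 k69 3 (.d k253 k185 k169 9 13)))))), (.s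
  k51 k34 4 (.s k19 k35 3 (.s k153 k221 9 (.s k86 k220 10 (.s k84 k87 0 (.d k252 k168 k169 13
  14))))))] (.c k33 (.l (.s k1 k2 0 (.s k51 k34 4 (.s k35 k19 3 (.s k153 k221 9 (.s k169 k253 13 (.d
  k102 k204 k236 14 10))))))) .n))

def s10_255_90 : T TT 256 :=
  (.q k101 [(.s k2 k1 0 (.s k69 k117 3 (.s k138 k207 10 (.s k70 k206 9 (.s k68 k71 0 (.d k204 k136
  k137 9 10)))))), (.s k1 k2 0 (.s k117 k69 3 (.s k253 k169 13 (.s k49 k185 9 (.s k17 k33 3 (.d k153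
  k221 k205 9 13)))))), (.s k69 k117 3 (.s k207 k138 10 (.s k71 k139 9 (.s k86 k116 4 (.s k84 k87 0
  (.d k252 k168 k169 13 14)))))), (.s k1 k2 0 (.s k169 k253 13 (.s k33 k237 9 (.s k48 k18 4 (.s k16
  k32 3 (.d k154 k223 k207 10 14))))))] (.c k170 (.q k250 [(.s k2 k1 0 (.s k69 k117 3 (.s k138 k207
  10 (.s k70 k206 9 (.s k68 k71 0 (.d k204 k136 k137 9 10)))))), (.s k1 k2 0 (.s k117 k69 3 (.s k253
  k169 13 (.s k49 k185 9 (.s k17 k33 3 (.d k153 k221 k205 9 13)))))), (.s k69 k117 3 (.s k207 k138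
  10 (.s k71 k139 9 (.s k86 k116 4 (.s k84 k87 0 (.d k252 k168 k169 13 14)))))), (.s k1 k2 0 (.s
  k169 k253 13 (.s k33 k237 9 (.s k48 k18 4 (.s k16 k32 3 (.d k154 k223 k207 10 14))))))] .n) (.c
  k250 (.q k170 [(.s k32 k239 10 (.s k48 k16 3 (.s k69 k117 3 (.d k207 k138 k154 10 14)))), (.s k1
  k2 0 (.s k169 k253 13 (.s k168 k171 0 (.d k252 k84 k86 13 14))))] (.c k240 (.q k245 [(.s k32 k239
  10 (.s k48 k16 3 (.s k69 k117 3 (.d k207 k138 k154 10 14)))), (.s k1 k2 0 (.s k169 k253 13 (.s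
  k168 k171 0 (.d k252 k84 k86 13 14))))] (.c k15 (.l (.s k165 k5 11 (.s k1 k2 0 (.s k169 k253 13
  (.s k168 k171 0 (.d k252 k84 k86 13 14)))))) (.c k165 (.q k15 [(.s k32 k239 10 (.s k48 k16 3 (.s
  k69 k117 3 (.d k207 k138 k154 10 14)))), (.s k1 k2 0 (.s k169 k253 13 (.s k168 k171 0 (.d k252 k84
  k86 13 14))))] .n) .n))) (.c k245 (.q k240 [(.s k32 k239 10 (.s k48 k16 3 (.s k69 k117 3 (.d k207
  k138 k154 10 14)))), (.s k1 k2 0 (.s k169 k253 13 (.s k168 k171 0 (.d k252 k84 k86 13 14))))] .n)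
  .n))) .n)))

def s10_255_91 : T TT 256 :=
  (.q k17 [(.s k2 k1 0 (.s k34 k51 4 (.s k18 k50 3 (.s k16 k19 0 (.d k48 k32 k33 3 4))))), (.s k1 k2
  0 (.s k49 k33 3 (.s k153 k221 9 (.s k101 k205 13 (.s k117 k69 3 (.d k253 k185 k169 9 13)))))), (.s
  k51 k34 4 (.s k19 k35 3 (.s k153 k221 9 (.s k86 k220 10 (.s k84 k87 0 (.d k252 k168 k169 13
  14))))))] (.c k33 (.l (.s k1 k2 0 (.s k51 k34 4 (.s k35 k19 3 (.s k153 k221 9 (.s k169 k253 13 (.d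
  k102 k204 k236 14 10))))))) .n))

def s10_255_92 : T TT 256 :=
  (.q k17 [(.s k2 k1 0 (.s k34 k51 4 (.s k18 k50 3 (.s k16 k19 0 (.d k48 k32 k33 3 4))))), (.s k1 k2
  0 (.s k49 k33 3 (.s k153 k221 9 (.s k101 k205 13 (.s k117 k69 3 (.d k253 k185 k169 9 13)))))), (.s
  k51 k34 4 (.s k19 k35 3 (.s k153 k221 9 (.s k86 k220 10 (.s k84 k87 0 (.d k252 k168 k169 13
  14))))))] (.c k33 (.l (.s k1 k2 0 (.s k51 k34 4 (.s k35 k19 3 (.s k153 k221 9 (.s k169 k253 13 (.d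
  k102 k204 k236 14 10))))))) .n))

def s10_255_93 : T TT 256 :=
  (.f k1 k2 0 (.q k12 [(.s k4 k8 1 (.s k166 k247 12 (.s k243 k89 14 (.s k163 k83 11 (.d k169 k172
  k253 2 13))))), (.s k4 k8 1 (.s k169 k253 13 (.s k252 k86 14 (.s k84 k168 13 (.s k92 k172 11 (.s
  k88 k80 1 (.d k164 k244 k240 11 13))))))), (.s k4 k8 1 (.s k166 k247 12 (.s k243 k89 14 (.s k81
  k162 12 (.s k83 k163 11 (.s k82 k80 0 (.d k161 k241 k240 11 12))))))), (.s k169 k253 13 (.s k252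
  k86 14 (.s k172 k92 11 (.s k166 k163 2 (.s k89 k243 14 (.d k9 k6 k249 2 11))))))] (.c k6 (.q k14
  [(.s k4 k8 1 (.s k166 k247 12 (.s k243 k89 14 (.s k163 k83 11 (.d k169 k172 k253 2 13))))), (.s
  k13 k15 0 (.s k5 k9 1 (.s k165 k245 11 (.s k169 k253 13 (.s k161 k173 1 (.d k241 k81 k89 11
  13)))))), (.s k4 k8 1 (.s k166 k247 12 (.s k90 k242 13 (.s k80 k95 2 (.s k240 k160 11 (.d k15 k13
  k165 0 14)))))), (.s k13 k15 0 (.s k9 k5 1 (.s k169 k253 13 (.s k89 k249 11 (.s k166 k243 14 (.s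
  k172 k163 2 (.d k252 k92 k86 11 14)))))))] (.c k9 (.l (.s k169 k253 13 (.s k252 k86 14 (.s k172
  k92 11 (.s k166 k163 2 (.d k4 k8 k247 1 12)))))) .n)) (.c k9 (.l (.s k169 k253 13 (.s k252 k86 14
  (.s k172 k92 11 (.s k166 k163 2 (.d k4 k8 k247 1 12)))))) (.c k14 (.l (.s k6 k9 2 (.s k169 k253 13
  (.s k252 k86 14 (.s k172 k92 11 (.s k166 k163 2 (.d k4 k8 k247 1 12))))))) (.c k170 (.l (.s k4 k8
  1 (.s k166 k247 12 (.s k169 k253 13 (.s k163 k172 2 (.d k243 k89 k83 14 11)))))) .n))))))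

def s10_255_94 : T TT 256 :=
  (.q k17 [(.s k2 k1 0 (.s k34 k51 4 (.s k18 k50 3 (.s k16 k19 0 (.d k48 k32 k33 3 4))))), (.s k1 k2
  0 (.s k49 k33 3 (.s k153 k221 9 (.s k101 k205 13 (.s k117 k69 3 (.d k253 k185 k169 9 13)))))), (.s
  k51 k34 4 (.s k19 k35 3 (.s k153 k221 9 (.s k86 k220 10 (.s k84 k87 0 (.d k252 k168 k169 13
  14))))))] (.c k33 (.l (.s k1 k2 0 (.s k51 k34 4 (.s k35 k19 3 (.s k153 k221 9 (.s k169 k253 13 (.d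
  k102 k204 k236 14 10))))))) .n))

def s10_255_95 : T TT 256 :=
  (.q k60 [(.s k2 k1 0 (.s k20 k40 5 (.s k22 k41 6 (.s k21 k23 0 (.d k42 k62 k63 5 6))))), (.s k1 k2
  0 (.s k20 k40 5 (.s k150 k215 8 (.s k169 k253 13 (.s k131 k188 6 (.d k195 k67 k105 7 14)))))), (.s
  k20 k40 5 (.s k22 k41 6 (.s k150 k215 8 (.s k86 k214 7 (.s k84 k87 0 (.d k252 k168 k169 13
  14)))))), (.s k1 k2 0 (.s k41 k22 6 (.s k169 k253 13 (.s k105 k233 7 (.s k65 k125 5 (.d k195 k130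
  k150 8 14))))))] (.c k15 (.q k175 [(.s k2 k1 0 (.s k20 k40 5 (.s k22 k41 6 (.s k21 k23 0 (.d k42
  k62 k63 5 6))))), (.s k1 k2 0 (.s k20 k40 5 (.s k150 k215 8 (.s k169 k253 13 (.s k131 k188 6 (.d
  k195 k67 k105 7 14)))))), (.s k20 k40 5 (.s k22 k41 6 (.s k150 k215 8 (.s k86 k214 7 (.s k84 k87 0
  (.d k252 k168 k169 13 14)))))), (.s k1 k2 0 (.s k41 k22 6 (.s k169 k253 13 (.s k105 k233 7 (.s k65
  k125 5 (.d k195 k130 k150 8 14))))))] .n) (.c k175 (.q k15 [(.s k2 k1 0 (.s k20 k40 5 (.s k22 k41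
  6 (.s k21 k23 0 (.d k42 k62 k63 5 6))))), (.s k7 k11 1 (.s k22 k41 6 (.s k30 k45 4 (.s k26 k18 1
  (.d k37 k52 k48 4 6))))), (.s k1 k2 0 (.s k20 k40 5 (.s k150 k215 8 (.s k169 k253 13 (.s k131 k188
  6 (.d k195 k67 k105 7 14))))))] .n) .n)))

def s10_255_96 : T TT 256 :=
  (.q k17 [(.s k2 k1 0 (.s k34 k51 4 (.s k18 k50 3 (.s k16 k19 0 (.d k48 k32 k33 3 4))))), (.s k1 k2
  0 (.s k49 k33 3 (.s k153 k221 9 (.s k101 k205 13 (.s k117 k69 3 (.d k253 k185 k169 9 13)))))), (.s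
  k51 k34 4 (.s k19 k35 3 (.s k153 k221 9 (.s k86 k220 10 (.s k84 k87 0 (.d k252 k168 k169 13
  14))))))] (.c k33 (.l (.s k1 k2 0 (.s k51 k34 4 (.s k35 k19 3 (.s k153 k221 9 (.s k169 k253 13 (.d
  k102 k204 k236 14 10))))))) .n))

def s10_255_97 : T TT 256 :=
  (.q k17 [(.s k2 k1 0 (.s k34 k51 4 (.s k18 k50 3 (.s k16 k19 0 (.d k48 k32 k33 3 4))))), (.s k1 k2
  0 (.s k49 k33 3 (.s k153 k221 9 (.s k101 k205 13 (.s k117 k69 3 (.d k253 k185 k169 9 13)))))), (.s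
  k51 k34 4 (.s k19 k35 3 (.s k153 k221 9 (.s k86 k220 10 (.s k84 k87 0 (.d k252 k168 k169 13
  14))))))] (.c k33 (.l (.s k1 k2 0 (.s k51 k34 4 (.s k35 k19 3 (.s k153 k221 9 (.s k169 k253 13 (.d
  k102 k204 k236 14 10))))))) .n))

def s10_255_98 : T TT 256 :=
  (.q k17 [(.s k1 k2 0 (.s k33 k49 3 (.s k18 k48 4 (.s k19 k16 0 (.d k51 k35 k34 3 4))))), (.s k51
  k34 4 (.s k19 k35 3 (.s k153 k221 9 (.s k86 k220 10 (.s k84 k87 0 (.d k252 k168 k169 13 14)))))),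
  (.s k1 k2 0 (.s k49 k33 3 (.s k153 k221 9 (.s k101 k205 13 (.s k117 k69 3 (.d k253 k185 k169 9
  13))))))] (.c k33 (.l (.s k1 k2 0 (.s k51 k34 4 (.s k35 k19 3 (.s k153 k221 9 (.s k169 k253 13 (.d
  k102 k204 k236 14 10))))))) .n))

def s10_255_99 : T TT 256 :=
  (.q k17 [(.s k1 k2 0 (.s k33 k49 3 (.s k18 k48 4 (.s k19 k16 0 (.d k51 k35 k34 3 4))))), (.s k51
  k34 4 (.s k19 k35 3 (.s k153 k221 9 (.s k86 k220 10 (.s k84 k87 0 (.d k252 k168 k169 13 14)))))),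
  (.s k1 k2 0 (.s k49 k33 3 (.s k153 k221 9 (.s k101 k205 13 (.s k117 k69 3 (.d k253 k185 k169 9
  13))))))] (.c k33 (.l (.s k1 k2 0 (.s k51 k34 4 (.s k35 k19 3 (.s k153 k221 9 (.s k169 k253 13 (.d
  k102 k204 k236 14 10))))))) .n))

def s10_255_100 : T TT 256 :=
  (.q k17 [(.s k2 k1 0 (.s k34 k51 4 (.s k18 k50 3 (.s k16 k19 0 (.d k48 k32 k33 3 4))))), (.s k1 k2
  0 (.s k49 k33 3 (.s k153 k221 9 (.s k101 k205 13 (.s k117 k69 3 (.d k253 k185 k169 9 13)))))), (.s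
  k51 k34 4 (.s k19 k35 3 (.s k153 k221 9 (.s k86 k220 10 (.s k84 k87 0 (.d k252 k168 k169 13
  14))))))] (.c k33 (.l (.s k1 k2 0 (.s k51 k34 4 (.s k35 k19 3 (.s k153 k221 9 (.s k169 k253 13 (.d
  k102 k204 k236 14 10))))))) .n))

def s10_255_101 : T TT 256 :=
  (.q k21 [(.s k2 k1 0 (.s k42 k63 6 (.s k22 k62 5 (.s k20 k23 0 (.d k60 k40 k41 5 6))))), (.s k1 k2
  0 (.s k61 k41 5 (.s k149 k213 7 (.s k105 k193 13 (.s k125 k65 5 (.d k253 k189 k169 7 13)))))), (.s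
  k63 k42 6 (.s k23 k43 5 (.s k149 k213 7 (.s k86 k212 8 (.s k84 k87 0 (.d k252 k168 k169 13
  14))))))] (.c k41 (.l (.s k1 k2 0 (.s k63 k42 6 (.s k43 k23 5 (.s k149 k213 7 (.s k169 k253 13 (.d
  k106 k192 k232 14 8))))))) .n))

def s10_255_102 : T TT 256 :=
  (.q k17 [(.s k1 k2 0 (.s k33 k49 3 (.s k18 k48 4 (.s k19 k16 0 (.d k51 k35 k34 3 4))))), (.s k51
  k34 4 (.s k19 k35 3 (.s k153 k221 9 (.s k86 k220 10 (.s k84 k87 0 (.d k252 k169 k168 14 13)))))),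
  (.s k1 k2 0 (.s k49 k33 3 (.s k153 k221 9 (.s k101 k205 13 (.s k117 k69 3 (.d k253 k185 k169 9
  13))))))] (.c k33 (.l (.s k1 k2 0 (.s k51 k34 4 (.s k153 k221 9 (.s k169 k253 13 (.s k185 k137 3
  (.d k252 k118 k86 10 14))))))) .n))

def s10_255_103 : T TT 256 :=
  (.q k17 [(.s k1 k2 0 (.s k33 k49 3 (.s k18 k48 4 (.s k19 k16 0 (.d k51 k35 k34 3 4))))), (.s k51
  k34 4 (.s k19 k35 3 (.s k153 k221 9 (.s k86 k220 10 (.s k84 k87 0 (.d k252 k168 k169 13 14)))))),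
  (.s k1 k2 0 (.s k49 k33 3 (.s k153 k221 9 (.s k101 k205 13 (.s k117 k69 3 (.d k253 k185 k169 9
  13))))))] (.c k33 (.l (.s k1 k2 0 (.s k51 k34 4 (.s k35 k19 3 (.s k153 k221 9 (.s k169 k253 13 (.d
  k102 k204 k236 14 10))))))) .n))

def s10_255_104 : T TT 256 :=
  (.q k17 [(.s k2 k1 0 (.s k34 k51 4 (.s k18 k50 3 (.s k16 k19 0 (.d k48 k32 k33 3 4))))), (.s k1 k2
  0 (.s k49 k33 3 (.s k153 k221 9 (.s k101 k205 13 (.s k117 k69 3 (.d k253 k185 k169 9 13)))))), (.s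
  k51 k34 4 (.s k19 k35 3 (.s k153 k221 9 (.s k86 k220 10 (.s k84 k87 0 (.d k252 k168 k169 13
  14))))))] (.c k33 (.l (.s k1 k2 0 (.s k51 k34 4 (.s k35 k19 3 (.s k153 k221 9 (.s k169 k253 13 (.d
  k102 k204 k236 14 10))))))) .n))

def s10_255_105 : T TT 256 :=
  (.q k17 [(.s k2 k1 0 (.s k34 k51 4 (.s k18 k50 3 (.s k16 k19 0 (.d k48 k32 k33 3 4))))), (.s k1 k2
  0 (.s k49 k33 3 (.s k153 k221 9 (.s k101 k205 13 (.s k117 k69 3 (.d k253 k185 k169 9 13)))))), (.s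
  k51 k34 4 (.s k19 k35 3 (.s k153 k221 9 (.s k86 k220 10 (.s k84 k87 0 (.d k252 k168 k169 13
  14))))))] (.c k33 (.l (.s k1 k2 0 (.s k51 k34 4 (.s k35 k19 3 (.s k153 k221 9 (.s k169 k253 13 (.d
  k102 k204 k236 14 10))))))) .n))

def s10_255_106 : T TT 256 :=
  (.q k17 [(.s k2 k1 0 (.s k34 k51 4 (.s k18 k50 3 (.s k16 k19 0 (.d k48 k32 k33 3 4))))), (.s k1 k2
  0 (.s k49 k33 3 (.s k153 k221 9 (.s k101 k205 13 (.s k117 k69 3 (.d k253 k185 k169 9 13)))))), (.s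
  k51 k34 4 (.s k19 k35 3 (.s k153 k221 9 (.s k86 k220 10 (.s k84 k87 0 (.d k252 k168 k169 13
  14))))))] (.c k33 (.l (.s k1 k2 0 (.s k51 k34 4 (.s k35 k19 3 (.s k153 k221 9 (.s k169 k253 13 (.d
  k102 k204 k236 14 10))))))) .n))

def s10_255_107 : T TT 256 :=
  (.q k17 [(.s k2 k1 0 (.s k34 k51 4 (.s k18 k50 3 (.s k16 k19 0 (.d k48 k32 k33 3 4))))), (.s k1 k2
  0 (.s k49 k33 3 (.s k153 k221 9 (.s k101 k205 13 (.s k117 k69 3 (.d k253 k185 k169 9 13)))))), (.s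
  k51 k34 4 (.s k19 k35 3 (.s k153 k221 9 (.s k86 k220 10 (.s k84 k87 0 (.d k252 k168 k169 13
  14))))))] (.c k33 (.l (.s k1 k2 0 (.s k51 k34 4 (.s k35 k19 3 (.s k153 k221 9 (.s k169 k253 13 (.d
  k102 k204 k236 14 10))))))) .n))

def s10_255_108 : T TT 256 :=
  (.q k17 [(.s k2 k1 0 (.s k34 k51 4 (.s k18 k50 3 (.s k16 k19 0 (.d k48 k32 k33 3 4))))), (.s k1 k2
  0 (.s k49 k33 3 (.s k153 k221 9 (.s k101 k205 13 (.s k117 k69 3 (.d k253 k185 k169 9 13)))))), (.s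
  k51 k34 4 (.s k19 k35 3 (.s k153 k221 9 (.s k86 k220 10 (.s k84 k87 0 (.d k252 k168 k169 13
  14))))))] (.c k33 (.l (.s k1 k2 0 (.s k51 k34 4 (.s k35 k19 3 (.s k153 k221 9 (.s k169 k253 13 (.d
  k102 k204 k236 14 10))))))) .n))

def s10_255_109 : T TT 256 :=
  (.q k17 [(.s k2 k1 0 (.s k34 k51 4 (.s k18 k50 3 (.s k16 k19 0 (.d k48 k32 k33 3 4))))), (.s k1 k2
  0 (.s k49 k33 3 (.s k153 k221 9 (.s k101 k205 13 (.s k117 k69 3 (.d k253 k185 k169 9 13)))))), (.s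
  k51 k34 4 (.s k19 k35 3 (.s k153 k221 9 (.s k86 k220 10 (.s k84 k87 0 (.d k252 k168 k169 13
  14))))))] (.c k33 (.l (.s k1 k2 0 (.s k51 k34 4 (.s k35 k19 3 (.s k153 k221 9 (.s k169 k253 13 (.d
  k102 k204 k236 14 10))))))) .n))

def s10_255_110 : T TT 256 :=
  (.q k17 [(.s k2 k1 0 (.s k34 k51 4 (.s k18 k50 3 (.s k16 k19 0 (.d k48 k32 k33 3 4))))), (.s k1 k2
  0 (.s k49 k33 3 (.s k153 k221 9 (.s k101 k205 13 (.s k117 k69 3 (.d k253 k185 k169 9 13)))))), (.s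
  k51 k34 4 (.s k19 k35 3 (.s k153 k221 9 (.s k86 k220 10 (.s k84 k87 0 (.d k252 k168 k169 13
  14))))))] (.c k33 (.l (.s k1 k2 0 (.s k51 k34 4 (.s k35 k19 3 (.s k153 k221 9 (.s k169 k253 13 (.d
  k102 k204 k236 14 10))))))) .n))

def s10_255_111 : T TT 256 :=
  (.q k17 [(.s k2 k1 0 (.s k34 k51 4 (.s k18 k50 3 (.s k16 k19 0 (.d k48 k32 k33 3 4))))), (.s k1 k2
  0 (.s k49 k33 3 (.s k153 k221 9 (.s k101 k205 13 (.s k117 k69 3 (.d k253 k185 k169 9 13)))))), (.s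
  k51 k34 4 (.s k19 k35 3 (.s k153 k221 9 (.s k86 k220 10 (.s k84 k87 0 (.d k252 k168 k169 13
  14))))))] (.c k33 (.l (.s k1 k2 0 (.s k51 k34 4 (.s k35 k19 3 (.s k153 k221 9 (.s k169 k253 13 (.d
  k102 k204 k236 14 10))))))) .n))

def s10_255_112 : T TT 256 :=
  (.q k17 [(.s k2 k1 0 (.s k34 k51 4 (.s k18 k50 3 (.s k16 k19 0 (.d k48 k32 k33 3 4))))), (.s k1 k2
  0 (.s k49 k33 3 (.s k153 k221 9 (.s k101 k205 13 (.s k117 k69 3 (.d k253 k185 k169 9 13)))))), (.s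
  k51 k34 4 (.s k19 k35 3 (.s k153 k221 9 (.s k86 k220 10 (.s k84 k87 0 (.d k252 k168 k169 13
  14))))))] (.c k33 (.l (.s k1 k2 0 (.s k51 k34 4 (.s k35 k19 3 (.s k153 k221 9 (.s k169 k253 13 (.d
  k102 k204 k236 14 10))))))) .n))

def s10_255_113 : T TT 256 :=
  (.q k17 [(.s k2 k1 0 (.s k34 k51 4 (.s k18 k50 3 (.s k16 k19 0 (.d k48 k32 k33 3 4))))), (.s k1 k2
  0 (.s k49 k33 3 (.s k153 k221 9 (.s k101 k205 13 (.s k117 k69 3 (.d k253 k185 k169 9 13)))))), (.s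
  k51 k34 4 (.s k19 k35 3 (.s k153 k221 9 (.s k86 k220 10 (.s k84 k87 0 (.d k252 k168 k169 13
  14))))))] (.c k33 (.l (.s k1 k2 0 (.s k51 k34 4 (.s k35 k19 3 (.s k153 k221 9 (.s k169 k253 13 (.d
  k102 k204 k236 14 10))))))) .n))

def s10_255_114 : T TT 256 :=
  (.q k17 [(.s k1 k2 0 (.s k33 k49 3 (.s k18 k48 4 (.s k19 k16 0 (.d k51 k35 k34 3 4))))), (.s k51
  k34 4 (.s k19 k35 3 (.s k153 k221 9 (.s k86 k220 10 (.s k84 k87 0 (.d k252 k168 k169 13 14)))))),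
  (.s k1 k2 0 (.s k49 k33 3 (.s k153 k221 9 (.s k101 k205 13 (.s k117 k69 3 (.d k253 k185 k169 9
  13))))))] (.c k33 (.l (.s k1 k2 0 (.s k51 k34 4 (.s k35 k19 3 (.s k153 k221 9 (.s k169 k253 13 (.d
  k102 k204 k236 14 10))))))) .n))

def s10_255_115 : T TT 256 :=
  (.q k17 [(.s k1 k2 0 (.s k33 k49 3 (.s k18 k48 4 (.s k19 k16 0 (.d k51 k35 k34 3 4))))), (.s k51
  k34 4 (.s k19 k35 3 (.s k153 k221 9 (.s k86 k220 10 (.s k84 k87 0 (.d k252 k168 k169 13 14)))))),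
  (.s k1 k2 0 (.s k49 k33 3 (.s k153 k221 9 (.s k101 k205 13 (.s k117 k69 3 (.d k253 k185 k169 9
  13))))))] (.c k33 (.l (.s k1 k2 0 (.s k51 k34 4 (.s k35 k19 3 (.s k153 k221 9 (.s k169 k253 13 (.d
  k102 k204 k236 14 10))))))) .n))

def s10_255_116 : T TT 256 :=
  (.q k17 [(.s k2 k1 0 (.s k34 k51 4 (.s k18 k50 3 (.s k16 k19 0 (.d k48 k32 k33 3 4))))), (.s k1 k2
  0 (.s k49 k33 3 (.s k153 k221 9 (.s k101 k205 13 (.s k117 k69 3 (.d k253 k185 k169 9 13)))))), (.s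
  k51 k34 4 (.s k19 k35 3 (.s k153 k221 9 (.s k86 k220 10 (.s k84 k87 0 (.d k252 k168 k169 13
  14))))))] (.c k33 (.l (.s k1 k2 0 (.s k51 k34 4 (.s k35 k19 3 (.s k153 k221 9 (.s k169 k253 13 (.d
  k102 k204 k236 14 10))))))) .n))

def s10_255_117 : T TT 256 :=
  (.q k48 [(.s k2 k1 0 (.s k16 k32 3 (.s k18 k33 4 (.s k17 k19 0 (.d k34 k50 k51 3 4))))), (.s k1 k2
  0 (.s k16 k32 3 (.s k154 k223 10 (.s k169 k253 13 (.s k139 k184 4 (.d k207 k71 k101 9 14)))))),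
  (.s k16 k32 3 (.s k18 k33 4 (.s k154 k223 10 (.s k86 k222 9 (.s k84 k87 0 (.d k252 k168 k169 13
  14)))))), (.s k1 k2 0 (.s k33 k18 4 (.s k169 k253 13 (.s k101 k237 9 (.s k154 k207 14 (.s k184
  k139 4 (.d k252 k116 k86 9 14)))))))] .n)

def s10_255_118 : T TT 256 :=
  (.q k17 [(.s k1 k2 0 (.s k33 k49 3 (.s k18 k48 4 (.s k19 k16 0 (.d k51 k35 k34 3 4))))), (.s k51
  k34 4 (.s k19 k35 3 (.s k153 k221 9 (.s k86 k220 10 (.s k84 k87 0 (.d k252 k168 k169 13 14)))))),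
  (.s k1 k2 0 (.s k49 k33 3 (.s k153 k221 9 (.s k101 k205 13 (.s k117 k69 3 (.d k253 k185 k169 9
  13))))))] (.c k33 (.l (.s k1 k2 0 (.s k51 k34 4 (.s k35 k19 3 (.s k153 k221 9 (.s k169 k253 13 (.d
  k102 k204 k236 14 10))))))) .n))

def s10_255_119 : T TT 256 :=
  (.q k51 [(.s k2 k1 0 (.s k35 k19 3 (.s k34 k17 4 (.s k33 k32 0 (.d k18 k50 k48 3 4))))), (.s k1 k2
  0 (.s k35 k19 3 (.s k169 k253 13 (.s k102 k236 10 (.s k153 k204 14 (.s k185 k137 3 (.d k252 k118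
  k86 10 14))))))), (.s k17 k34 4 (.s k19 k35 3 (.s k153 k221 9 (.s k86 k220 10 (.s k84 k87 0 (.d
  k252 k168 k169 13 14)))))), (.s k1 k2 0 (.s k17 k34 4 (.s k153 k221 9 (.s k169 k253 13 (.s k137
  k185 3 (.d k204 k70 k102 10 14))))))] .n)

def s10_255_120 : T TT 256 :=
  (.q k17 [(.s k2 k1 0 (.s k34 k51 4 (.s k18 k50 3 (.s k16 k19 0 (.d k48 k32 k33 3 4))))), (.s k1 k2
  0 (.s k49 k33 3 (.s k153 k221 9 (.s k101 k205 13 (.s k117 k69 3 (.d k253 k185 k169 9 13)))))), (.s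
  k51 k34 4 (.s k19 k35 3 (.s k153 k221 9 (.s k86 k220 10 (.s k84 k87 0 (.d k252 k168 k169 13
  14))))))] (.c k33 (.l (.s k1 k2 0 (.s k51 k34 4 (.s k35 k19 3 (.s k153 k221 9 (.s k169 k253 13 (.d
  k102 k204 k236 14 10))))))) .n))

def s10_255_121 : T TT 256 :=
  (.q k17 [(.s k2 k1 0 (.s k34 k51 4 (.s k18 k50 3 (.s k16 k19 0 (.d k48 k32 k33 3 4))))), (.s k1 k2
  0 (.s k49 k33 3 (.s k153 k221 9 (.s k101 k205 13 (.s k117 k69 3 (.d k253 k185 k169 9 13)))))), (.s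
  k51 k34 4 (.s k19 k35 3 (.s k153 k221 9 (.s k86 k220 10 (.s k84 k87 0 (.d k252 k168 k169 13
  14))))))] (.c k33 (.l (.s k1 k2 0 (.s k51 k34 4 (.s k35 k19 3 (.s k153 k221 9 (.s k169 k253 13 (.d
  k102 k204 k236 14 10))))))) .n))

def s10_255_122 : T TT 256 :=
  (.q k17 [(.s k2 k1 0 (.s k34 k51 4 (.s k18 k50 3 (.s k16 k19 0 (.d k48 k32 k33 3 4))))), (.s k1 k2
  0 (.s k49 k33 3 (.s k153 k221 9 (.s k101 k205 13 (.s k117 k69 3 (.d k253 k185 k169 9 13)))))), (.s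
  k51 k34 4 (.s k19 k35 3 (.s k153 k221 9 (.s k86 k220 10 (.s k84 k87 0 (.d k252 k168 k169 13
  14))))))] (.c k33 (.l (.s k1 k2 0 (.s k51 k34 4 (.s k35 k19 3 (.s k153 k221 9 (.s k169 k253 13 (.d
  k102 k204 k236 14 10))))))) .n))

def s10_255_123 : T TT 256 :=
  (.q k17 [(.s k2 k1 0 (.s k34 k51 4 (.s k18 k50 3 (.s k16 k19 0 (.d k48 k32 k33 3 4))))), (.s k1 k2
  0 (.s k49 k33 3 (.s k153 k221 9 (.s k101 k205 13 (.s k117 k69 3 (.d k253 k185 k169 9 13)))))), (.s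
  k51 k34 4 (.s k19 k35 3 (.s k153 k221 9 (.s k86 k220 10 (.s k84 k87 0 (.d k252 k168 k169 13
  14))))))] (.c k33 (.l (.s k1 k2 0 (.s k51 k34 4 (.s k35 k19 3 (.s k153 k221 9 (.s k169 k253 13 (.d
  k102 k204 k236 14 10))))))) .n))

def s10_255_124 : T TT 256 :=
  (.q k17 [(.s k2 k1 0 (.s k34 k51 4 (.s k18 k50 3 (.s k16 k19 0 (.d k48 k32 k33 3 4))))), (.s k1 k2
  0 (.s k49 k33 3 (.s k153 k221 9 (.s k101 k205 13 (.s k117 k69 3 (.d k253 k185 k169 9 13)))))), (.s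
  k51 k34 4 (.s k19 k35 3 (.s k153 k221 9 (.s k86 k220 10 (.s k84 k87 0 (.d k252 k168 k169 13
  14))))))] (.c k33 (.l (.s k1 k2 0 (.s k51 k34 4 (.s k35 k19 3 (.s k153 k221 9 (.s k169 k253 13 (.d
  k102 k204 k236 14 10))))))) .n))

def s10_255_125 : T TT 256 :=
  (.q k60 [(.s k2 k1 0 (.s k20 k40 5 (.s k22 k41 6 (.s k21 k23 0 (.d k42 k62 k63 5 6))))), (.s k1 k2
  0 (.s k20 k40 5 (.s k150 k215 8 (.s k169 k253 13 (.s k131 k188 6 (.d k195 k67 k105 7 14)))))), (.s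
  k20 k40 5 (.s k22 k41 6 (.s k150 k215 8 (.s k86 k214 7 (.s k84 k87 0 (.d k252 k168 k169 13
  14)))))), (.s k1 k2 0 (.s k41 k22 6 (.s k169 k253 13 (.s k105 k233 7 (.s k150 k195 14 (.s k188
  k131 6 (.d k252 k124 k86 7 14)))))))] .n)

def s10_255_126 : T TT 256 :=
  (.q k17 [(.s k2 k1 0 (.s k34 k51 4 (.s k18 k50 3 (.s k16 k19 0 (.d k48 k32 k33 3 4))))), (.s k1 k2
  0 (.s k49 k33 3 (.s k153 k221 9 (.s k101 k205 13 (.s k117 k69 3 (.d k253 k185 k169 9 13)))))), (.s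
  k51 k34 4 (.s k19 k35 3 (.s k153 k221 9 (.s k86 k220 10 (.s k84 k87 0 (.d k252 k168 k169 13
  14))))))] (.c k33 (.l (.s k1 k2 0 (.s k51 k34 4 (.s k35 k19 3 (.s k153 k221 9 (.s k169 k253 13 (.d
  k102 k204 k236 14 10))))))) .n))

def s10_255_127 : T TT 256 :=
  (.q k63 [(.s k2 k1 0 (.s k43 k23 5 (.s k42 k21 6 (.s k41 k40 0 (.d k22 k62 k60 5 6))))), (.s k1 k2
  0 (.s k43 k23 5 (.s k169 k253 13 (.s k106 k232 8 (.s k149 k192 14 (.s k189 k129 5 (.d k252 k126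
  k86 8 14))))))), (.s k21 k42 6 (.s k23 k43 5 (.s k149 k213 7 (.s k86 k212 8 (.s k84 k87 0 (.d k252
  k168 k169 13 14)))))), (.s k1 k2 0 (.s k21 k42 6 (.s k149 k213 7 (.s k169 k253 13 (.s k129 k189 5
  (.d k192 k66 k106 8 14))))))] .n)

def s10_255_128 : T TT 256 :=
  (.q k17 [(.s k2 k1 0 (.s k34 k51 4 (.s k18 k50 3 (.s k16 k19 0 (.d k48 k32 k33 3 4))))), (.s k1 k2
  0 (.s k49 k33 3 (.s k153 k221 9 (.s k101 k205 13 (.s k117 k69 3 (.d k253 k185 k169 9 13)))))), (.s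
  k51 k34 4 (.s k19 k35 3 (.s k153 k221 9 (.s k86 k220 10 (.s k84 k87 0 (.d k252 k168 k169 13
  14))))))] (.c k33 (.l (.s k1 k2 0 (.s k51 k34 4 (.s k35 k19 3 (.s k153 k221 9 (.s k169 k253 13 (.d
  k102 k204 k236 14 10))))))) .n))

def s10_255_129 : T TT 256 :=
  (.q k17 [(.s k1 k2 0 (.s k33 k49 3 (.s k18 k48 4 (.s k19 k16 0 (.d k51 k35 k34 3 4))))), (.s k51
  k34 4 (.s k19 k35 3 (.s k153 k221 9 (.s k86 k220 10 (.s k84 k87 0 (.d k252 k168 k169 13 14)))))),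
  (.s k1 k2 0 (.s k49 k33 3 (.s k153 k221 9 (.s k101 k205 13 (.s k117 k69 3 (.d k253 k185 k169 9
  13))))))] (.c k33 (.l (.s k1 k2 0 (.s k51 k34 4 (.s k35 k19 3 (.s k153 k221 9 (.s k169 k253 13 (.d
  k102 k204 k236 14 10))))))) .n))

def s10_255_130 : T TT 256 :=
  (.q k17 [(.s k2 k1 0 (.s k34 k51 4 (.s k18 k50 3 (.s k16 k19 0 (.d k48 k32 k33 3 4))))), (.s k1 k2
  0 (.s k49 k33 3 (.s k153 k221 9 (.s k101 k205 13 (.s k117 k69 3 (.d k253 k185 k169 9 13)))))), (.s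
  k51 k34 4 (.s k19 k35 3 (.s k153 k221 9 (.s k86 k220 10 (.s k84 k87 0 (.d k252 k168 k169 13
  14))))))] (.c k33 (.l (.s k1 k2 0 (.s k51 k34 4 (.s k35 k19 3 (.s k153 k221 9 (.s k169 k253 13 (.d
  k102 k204 k236 14 10))))))) .n))

def s10_255_131 : T TT 256 :=
  (.q k17 [(.s k2 k1 0 (.s k34 k51 4 (.s k18 k50 3 (.s k16 k19 0 (.d k48 k32 k33 3 4))))), (.s k1 k2
  0 (.s k49 k33 3 (.s k153 k221 9 (.s k101 k205 13 (.s k117 k69 3 (.d k253 k185 k169 9 13)))))), (.s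
  k51 k34 4 (.s k19 k35 3 (.s k153 k221 9 (.s k86 k220 10 (.s k84 k87 0 (.d k252 k168 k169 13
  14))))))] (.c k33 (.l (.s k1 k2 0 (.s k51 k34 4 (.s k35 k19 3 (.s k153 k221 9 (.s k169 k253 13 (.d
  k102 k204 k236 14 10))))))) .n))

def s10_255_132 : T TT 256 :=
  (.q k17 [(.s k2 k1 0 (.s k34 k51 4 (.s k18 k50 3 (.s k16 k19 0 (.d k48 k32 k33 3 4))))), (.s k1 k2
  0 (.s k49 k33 3 (.s k153 k221 9 (.s k101 k205 13 (.s k117 k69 3 (.d k253 k185 k169 9 13)))))), (.s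
  k51 k34 4 (.s k19 k35 3 (.s k153 k221 9 (.s k86 k220 10 (.s k84 k87 0 (.d k252 k168 k169 13
  14))))))] (.c k33 (.l (.s k1 k2 0 (.s k51 k34 4 (.s k35 k19 3 (.s k153 k221 9 (.s k169 k253 13 (.d
  k102 k204 k236 14 10))))))) .n))

def s10_255_133 : T TT 256 :=
  (.q k17 [(.s k2 k1 0 (.s k34 k51 4 (.s k18 k50 3 (.s k16 k19 0 (.d k48 k32 k33 3 4))))), (.s k1 k2
  0 (.s k49 k33 3 (.s k153 k221 9 (.s k101 k205 13 (.s k117 k69 3 (.d k253 k185 k169 9 13)))))), (.s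
  k51 k34 4 (.s k19 k35 3 (.s k153 k221 9 (.s k86 k220 10 (.s k84 k87 0 (.d k252 k168 k169 13
  14))))))] (.c k33 (.l (.s k1 k2 0 (.s k51 k34 4 (.s k35 k19 3 (.s k153 k221 9 (.s k169 k253 13 (.d
  k102 k204 k236 14 10))))))) .n))

def s10_255_134 : T TT 256 :=
  (.q k17 [(.s k2 k1 0 (.s k34 k51 4 (.s k18 k50 3 (.s k16 k19 0 (.d k48 k32 k33 3 4))))), (.s k1 k2
  0 (.s k49 k33 3 (.s k153 k221 9 (.s k101 k205 13 (.s k117 k69 3 (.d k253 k185 k169 9 13)))))), (.s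
  k51 k34 4 (.s k19 k35 3 (.s k153 k221 9 (.s k86 k220 10 (.s k84 k87 0 (.d k252 k168 k169 13
  14))))))] (.c k33 (.l (.s k1 k2 0 (.s k51 k34 4 (.s k35 k19 3 (.s k153 k221 9 (.s k169 k253 13 (.d
  k102 k204 k236 14 10))))))) .n))

def s10_255_135 : T TT 256 :=
  (.q k17 [(.s k2 k1 0 (.s k34 k51 4 (.s k18 k50 3 (.s k16 k19 0 (.d k48 k32 k33 3 4))))), (.s k1 k2
  0 (.s k49 k33 3 (.s k153 k221 9 (.s k101 k205 13 (.s k117 k69 3 (.d k253 k185 k169 9 13)))))), (.s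
  k51 k34 4 (.s k19 k35 3 (.s k153 k221 9 (.s k86 k220 10 (.s k84 k87 0 (.d k252 k168 k169 13
  14))))))] (.c k33 (.l (.s k1 k2 0 (.s k51 k34 4 (.s k35 k19 3 (.s k153 k221 9 (.s k169 k253 13 (.d
  k102 k204 k236 14 10))))))) .n))

def s10_255_136 : T TT 256 :=
  (.q k17 [(.s k2 k1 0 (.s k34 k51 4 (.s k18 k50 3 (.s k16 k19 0 (.d k48 k32 k33 3 4))))), (.s k1 k2
  0 (.s k49 k33 3 (.s k153 k221 9 (.s k101 k205 13 (.s k117 k69 3 (.d k253 k185 k169 9 13)))))), (.s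
  k51 k34 4 (.s k19 k35 3 (.s k153 k221 9 (.s k86 k220 10 (.s k84 k87 0 (.d k252 k168 k169 13
  14))))))] (.c k33 (.l (.s k1 k2 0 (.s k51 k34 4 (.s k35 k19 3 (.s k153 k221 9 (.s k169 k253 13 (.d
  k102 k204 k236 14 10))))))) .n))

def s10_255_137 : T TT 256 :=
  (.q k17 [(.s k1 k2 0 (.s k33 k49 3 (.s k18 k48 4 (.s k19 k16 0 (.d k51 k35 k34 3 4))))), (.s k51
  k34 4 (.s k19 k35 3 (.s k153 k221 9 (.s k86 k220 10 (.s k84 k87 0 (.d k252 k168 k169 13 14)))))),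
  (.s k1 k2 0 (.s k49 k33 3 (.s k153 k221 9 (.s k101 k205 13 (.s k117 k69 3 (.d k253 k185 k169 9
  13))))))] (.c k33 (.l (.s k1 k2 0 (.s k51 k34 4 (.s k35 k19 3 (.s k153 k221 9 (.s k169 k253 13 (.d
  k102 k204 k236 14 10))))))) .n))

def s10_255_138 : T TT 256 :=
  (.q k63 [(.s k2 k1 0 (.s k43 k23 5 (.s k42 k21 6 (.s k41 k40 0 (.d k22 k62 k60 5 6))))), (.s k1 k2
  0 (.s k43 k23 5 (.s k169 k253 13 (.s k106 k232 8 (.s k64 k127 6 (.d k192 k128 k149 7 14)))))), (.s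
  k21 k42 6 (.s k23 k43 5 (.s k149 k213 7 (.s k86 k212 8 (.s k84 k87 0 (.d k252 k168 k169 13
  14)))))), (.s k1 k2 0 (.s k21 k42 6 (.s k149 k213 7 (.s k169 k253 13 (.s k129 k189 5 (.d k192 k66
  k106 8 14))))))] (.c k74 (.q k202 [(.s k2 k1 0 (.s k43 k23 5 (.s k42 k21 6 (.s k41 k40 0 (.d k22
  k62 k60 5 6))))), (.s k1 k2 0 (.s k43 k23 5 (.s k169 k253 13 (.s k106 k232 8 (.s k64 k127 6 (.d
  k192 k128 k149 7 14)))))), (.s k21 k42 6 (.s k23 k43 5 (.s k149 k213 7 (.s k86 k212 8 (.s k84 k87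
  0 (.d k252 k168 k169 13 14)))))), (.s k1 k2 0 (.s k21 k42 6 (.s k149 k213 7 (.s k169 k253 13 (.s
  k129 k189 5 (.d k192 k66 k106 8 14))))))] .n) (.c k202 (.q k74 [(.s k2 k1 0 (.s k43 k23 5 (.s k42
  k21 6 (.s k41 k40 0 (.d k22 k62 k60 5 6))))), (.s k1 k2 0 (.s k43 k23 5 (.s k169 k253 13 (.s k106
  k232 8 (.s k64 k127 6 (.d k192 k128 k149 7 14)))))), (.s k21 k42 6 (.s k23 k43 5 (.s k149 k213 7
  (.s k86 k212 8 (.s k84 k87 0 (.d k252 k168 k169 13 14)))))), (.s k1 k2 0 (.s k21 k42 6 (.s k149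
  k213 7 (.s k169 k253 13 (.s k129 k189 5 (.d k192 k66 k106 8 14))))))] .n) .n)))

def s10_255_139 : T TT 256 :=
  (.q k17 [(.s k2 k1 0 (.s k34 k51 4 (.s k18 k50 3 (.s k16 k19 0 (.d k48 k32 k33 3 4))))), (.s k1 k2
  0 (.s k49 k33 3 (.s k153 k221 9 (.s k101 k205 13 (.s k117 k69 3 (.d k253 k185 k169 9 13)))))), (.s
  k51 k34 4 (.s k19 k35 3 (.s k153 k221 9 (.s k86 k220 10 (.s k84 k87 0 (.d k252 k168 k169 13
  14))))))] (.c k33 (.l (.s k1 k2 0 (.s k51 k34 4 (.s k35 k19 3 (.s k153 k221 9 (.s k169 k253 13 (.d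
  k102 k204 k236 14 10))))))) .n))

def s10_255_140 : T TT 256 :=
  (.q k17 [(.s k2 k1 0 (.s k34 k51 4 (.s k18 k50 3 (.s k16 k19 0 (.d k48 k32 k33 3 4))))), (.s k1 k2
  0 (.s k49 k33 3 (.s k153 k221 9 (.s k101 k205 13 (.s k117 k69 3 (.d k253 k185 k169 9 13)))))), (.s
  k51 k34 4 (.s k19 k35 3 (.s k153 k221 9 (.s k86 k220 10 (.s k84 k87 0 (.d k252 k168 k169 13
  14))))))] (.c k33 (.l (.s k1 k2 0 (.s k51 k34 4 (.s k35 k19 3 (.s k153 k221 9 (.s k169 k253 13 (.d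
  k102 k204 k236 14 10))))))) .n))

def s10_255_141 : T TT 256 :=
  (.q k17 [(.s k2 k1 0 (.s k34 k51 4 (.s k18 k50 3 (.s k16 k19 0 (.d k48 k32 k33 3 4))))), (.s k1 k2
  0 (.s k49 k33 3 (.s k153 k221 9 (.s k101 k205 13 (.s k117 k69 3 (.d k253 k185 k169 9 13)))))), (.s
  k51 k34 4 (.s k19 k35 3 (.s k153 k221 9 (.s k86 k220 10 (.s k84 k87 0 (.d k252 k168 k169 13
  14))))))] (.c k33 (.l (.s k1 k2 0 (.s k51 k34 4 (.s k35 k19 3 (.s k153 k221 9 (.s k169 k253 13 (.d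
  k102 k204 k236 14 10))))))) .n))

def s10_255_142 : T TT 256 :=
  (.q k17 [(.s k2 k1 0 (.s k34 k51 4 (.s k18 k50 3 (.s k16 k19 0 (.d k48 k32 k33 3 4))))), (.s k1 k2
  0 (.s k49 k33 3 (.s k153 k221 9 (.s k101 k205 13 (.s k117 k69 3 (.d k253 k185 k169 9 13)))))), (.s
  k51 k34 4 (.s k19 k35 3 (.s k153 k221 9 (.s k86 k220 10 (.s k84 k87 0 (.d k252 k168 k169 13
  14))))))] (.c k33 (.l (.s k1 k2 0 (.s k51 k34 4 (.s k35 k19 3 (.s k153 k221 9 (.s k169 k253 13 (.d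
  k102 k204 k236 14 10))))))) .n))

def s10_255_143 : T TT 256 :=
  (.q k17 [(.s k2 k1 0 (.s k34 k51 4 (.s k18 k50 3 (.s k16 k19 0 (.d k48 k32 k33 3 4))))), (.s k1 k2
  0 (.s k49 k33 3 (.s k153 k221 9 (.s k101 k205 13 (.s k117 k69 3 (.d k253 k185 k169 9 13)))))), (.s
  k51 k34 4 (.s k19 k35 3 (.s k153 k221 9 (.s k86 k220 10 (.s k84 k87 0 (.d k252 k168 k169 13
  14))))))] (.c k33 (.l (.s k1 k2 0 (.s k51 k34 4 (.s k35 k19 3 (.s k153 k221 9 (.s k169 k253 13 (.d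
  k102 k204 k236 14 10))))))) .n))

def s10_255_144 : T TT 256 :=
  (.q k17 [(.s k2 k1 0 (.s k34 k51 4 (.s k18 k50 3 (.s k16 k19 0 (.d k48 k32 k33 3 4))))), (.s k1 k2
  0 (.s k49 k33 3 (.s k153 k221 9 (.s k101 k205 13 (.s k117 k69 3 (.d k253 k185 k169 9 13)))))), (.s
  k51 k34 4 (.s k19 k35 3 (.s k153 k221 9 (.s k86 k220 10 (.s k84 k87 0 (.d k252 k168 k169 13
  14))))))] (.c k33 (.l (.s k1 k2 0 (.s k51 k34 4 (.s k35 k19 3 (.s k153 k221 9 (.s k169 k253 13 (.d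
  k102 k204 k236 14 10))))))) .n))

def s10_255_145 : T TT 256 :=
  (.q k17 [(.s k1 k2 0 (.s k51 k34 4 (.s k19 k35 3 (.s k18 k16 0 (.d k33 k49 k48 3 4))))), (.s k51
  k34 4 (.s k19 k35 3 (.s k153 k221 9 (.s k86 k220 10 (.s k84 k87 0 (.d k252 k168 k169 13 14)))))),
  (.s k1 k2 0 (.s k49 k33 3 (.s k153 k221 9 (.s k101 k205 13 (.s k117 k69 3 (.d k253 k185 k169 9
  13))))))] (.c k33 (.l (.s k1 k2 0 (.s k51 k34 4 (.s k35 k19 3 (.s k153 k221 9 (.s k169 k253 13 (.d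
  k102 k204 k236 14 10))))))) .n))

def s10_255_146 : T TT 256 :=
  (.q k17 [(.s k2 k1 0 (.s k34 k51 4 (.s k18 k50 3 (.s k16 k19 0 (.d k48 k32 k33 3 4))))), (.s k1 k2
  0 (.s k49 k33 3 (.s k153 k221 9 (.s k101 k205 13 (.s k117 k69 3 (.d k253 k185 k169 9 13)))))), (.s
  k51 k34 4 (.s k19 k35 3 (.s k153 k221 9 (.s k86 k220 10 (.s k84 k87 0 (.d k252 k168 k169 13
  14))))))] (.c k33 (.l (.s k1 k2 0 (.s k51 k34 4 (.s k35 k19 3 (.s k153 k221 9 (.s k169 k253 13 (.d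
  k102 k204 k236 14 10))))))) .n))

def s10_255_147 : T TT 256 :=
  (.q k17 [(.s k1 k2 0 (.s k33 k49 3 (.s k18 k48 4 (.s k19 k16 0 (.d k51 k35 k34 3 4))))), (.s k51
  k34 4 (.s k19 k35 3 (.s k153 k221 9 (.s k86 k220 10 (.s k84 k87 0 (.d k252 k168 k169 13 14)))))),
  (.s k1 k2 0 (.s k49 k33 3 (.s k153 k221 9 (.s k101 k205 13 (.s k117 k69 3 (.d k253 k185 k169 9
  13))))))] (.c k33 (.l (.s k1 k2 0 (.s k51 k34 4 (.s k35 k19 3 (.s k153 k221 9 (.s k169 k253 13 (.d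
  k102 k204 k236 14 10))))))) .n))

def s10_255_148 : T TT 256 :=
  (.q k17 [(.s k2 k1 0 (.s k34 k51 4 (.s k18 k50 3 (.s k16 k19 0 (.d k48 k32 k33 3 4))))), (.s k1 k2
  0 (.s k49 k33 3 (.s k153 k221 9 (.s k101 k205 13 (.s k117 k69 3 (.d k253 k185 k169 9 13)))))), (.s
  k51 k34 4 (.s k19 k35 3 (.s k153 k221 9 (.s k86 k220 10 (.s k84 k87 0 (.d k252 k168 k169 13
  14))))))] (.c k33 (.l (.s k1 k2 0 (.s k51 k34 4 (.s k35 k19 3 (.s k153 k221 9 (.s k169 k253 13 (.d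
  k102 k204 k236 14 10))))))) .n))

def s10_255_149 : T TT 256 :=
  (.q k17 [(.s k2 k1 0 (.s k34 k51 4 (.s k18 k50 3 (.s k16 k19 0 (.d k48 k32 k33 3 4))))), (.s k1 k2
  0 (.s k49 k33 3 (.s k153 k221 9 (.s k101 k205 13 (.s k117 k69 3 (.d k253 k185 k169 9 13)))))), (.s
  k51 k34 4 (.s k19 k35 3 (.s k153 k221 9 (.s k86 k220 10 (.s k84 k87 0 (.d k252 k168 k169 13
  14))))))] (.c k33 (.l (.s k1 k2 0 (.s k51 k34 4 (.s k35 k19 3 (.s k153 k221 9 (.s k169 k253 13 (.d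
  k102 k204 k236 14 10))))))) .n))

def s10_255_150 : T TT 256 :=
  (.q k17 [(.s k2 k1 0 (.s k34 k51 4 (.s k18 k50 3 (.s k16 k19 0 (.d k48 k32 k33 3 4))))), (.s k1 k2
  0 (.s k49 k33 3 (.s k153 k221 9 (.s k101 k205 13 (.s k117 k69 3 (.d k253 k185 k169 9 13)))))), (.s
  k51 k34 4 (.s k19 k35 3 (.s k153 k221 9 (.s k86 k220 10 (.s k84 k87 0 (.d k252 k168 k169 13
  14))))))] (.c k33 (.l (.s k1 k2 0 (.s k51 k34 4 (.s k35 k19 3 (.s k153 k221 9 (.s k169 k253 13 (.d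
  k102 k204 k236 14 10))))))) .n))

def s10_255_151 : T TT 256 :=
  (.q k17 [(.s k2 k1 0 (.s k34 k51 4 (.s k18 k50 3 (.s k16 k19 0 (.d k48 k32 k33 3 4))))), (.s k1 k2
  0 (.s k49 k33 3 (.s k153 k221 9 (.s k101 k205 13 (.s k117 k69 3 (.d k253 k185 k169 9 13)))))), (.s
  k51 k34 4 (.s k19 k35 3 (.s k153 k221 9 (.s k86 k220 10 (.s k84 k87 0 (.d k252 k168 k169 13
  14))))))] (.c k33 (.l (.s k1 k2 0 (.s k51 k34 4 (.s k35 k19 3 (.s k153 k221 9 (.s k169 k253 13 (.d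
  k102 k204 k236 14 10))))))) .n))

def s10_255_152 : T TT 256 :=
  (.q k17 [(.s k2 k1 0 (.s k34 k51 4 (.s k18 k50 3 (.s k16 k19 0 (.d k48 k32 k33 3 4))))), (.s k1 k2
  0 (.s k49 k33 3 (.s k153 k221 9 (.s k101 k205 13 (.s k117 k69 3 (.d k253 k185 k169 9 13)))))), (.s
  k51 k34 4 (.s k19 k35 3 (.s k153 k221 9 (.s k86 k220 10 (.s k84 k87 0 (.d k252 k168 k169 13
  14))))))] (.c k33 (.l (.s k1 k2 0 (.s k51 k34 4 (.s k35 k19 3 (.s k153 k221 9 (.s k169 k253 13 (.d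
  k102 k204 k236 14 10))))))) .n))

def s10_255_153 : T TT 256 :=
  (.q k21 [(.s k2 k1 0 (.s k42 k63 6 (.s k22 k62 5 (.s k20 k23 0 (.d k60 k40 k41 5 6))))), (.s k1 k2
  0 (.s k61 k41 5 (.s k149 k213 7 (.s k105 k193 13 (.s k125 k65 5 (.d k253 k189 k169 7 13)))))), (.s
  k63 k42 6 (.s k23 k43 5 (.s k149 k213 7 (.s k86 k212 8 (.s k84 k87 0 (.d k252 k168 k169 13
  14))))))] (.c k41 (.l (.s k1 k2 0 (.s k63 k42 6 (.s k43 k23 5 (.s k149 k213 7 (.s k169 k253 13 (.d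
  k106 k192 k232 14 8))))))) .n))

def s10_255_154 : T TT 256 :=
  (.q k17 [(.s k2 k1 0 (.s k34 k51 4 (.s k18 k50 3 (.s k16 k19 0 (.d k48 k32 k33 3 4))))), (.s k1 k2
  0 (.s k49 k33 3 (.s k153 k221 9 (.s k101 k205 13 (.s k117 k69 3 (.d k253 k185 k169 9 13)))))), (.s
  k51 k34 4 (.s k19 k35 3 (.s k153 k221 9 (.s k86 k220 10 (.s k84 k87 0 (.d k252 k168 k169 13
  14))))))] (.c k33 (.l (.s k1 k2 0 (.s k51 k34 4 (.s k35 k19 3 (.s k153 k221 9 (.s k169 k253 13 (.d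
  k102 k204 k236 14 10))))))) .n))

def s10_255_155 : T TT 256 :=
  (.q k17 [(.s k1 k2 0 (.s k33 k49 3 (.s k18 k48 4 (.s k19 k16 0 (.d k51 k35 k34 3 4))))), (.s k51
  k34 4 (.s k19 k35 3 (.s k153 k221 9 (.s k86 k220 10 (.s k84 k87 0 (.d k252 k168 k169 13 14)))))),
  (.s k1 k2 0 (.s k49 k33 3 (.s k153 k221 9 (.s k101 k205 13 (.s k117 k69 3 (.d k253 k185 k169 9
  13))))))] (.c k33 (.l (.s k1 k2 0 (.s k51 k34 4 (.s k35 k19 3 (.s k153 k221 9 (.s k169 k253 13 (.d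
  k102 k204 k236 14 10))))))) .n))

def s10_255_156 : T TT 256 :=
  (.q k17 [(.s k2 k1 0 (.s k34 k51 4 (.s k18 k50 3 (.s k16 k19 0 (.d k48 k32 k33 3 4))))), (.s k1 k2
  0 (.s k49 k33 3 (.s k153 k221 9 (.s k101 k205 13 (.s k117 k69 3 (.d k253 k185 k169 9 13)))))), (.s
  k51 k34 4 (.s k19 k35 3 (.s k153 k221 9 (.s k86 k220 10 (.s k84 k87 0 (.d k252 k168 k169 13
  14))))))] (.c k33 (.l (.s k1 k2 0 (.s k51 k34 4 (.s k35 k19 3 (.s k153 k221 9 (.s k169 k253 13 (.d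
  k102 k204 k236 14 10))))))) .n))

def s10_255_157 : T TT 256 :=
  (.q k17 [(.s k2 k1 0 (.s k34 k51 4 (.s k18 k50 3 (.s k16 k19 0 (.d k48 k32 k33 3 4))))), (.s k1 k2
  0 (.s k49 k33 3 (.s k153 k221 9 (.s k101 k205 13 (.s k117 k69 3 (.d k253 k185 k169 9 13)))))), (.s
  k51 k34 4 (.s k19 k35 3 (.s k153 k221 9 (.s k86 k220 10 (.s k84 k87 0 (.d k252 k168 k169 13
  14))))))] (.c k33 (.l (.s k1 k2 0 (.s k51 k34 4 (.s k35 k19 3 (.s k153 k221 9 (.s k169 k253 13 (.d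
  k102 k204 k236 14 10))))))) .n))

def s10_255_158 : T TT 256 :=
  (.q k17 [(.s k2 k1 0 (.s k34 k51 4 (.s k18 k50 3 (.s k16 k19 0 (.d k48 k32 k33 3 4))))), (.s k1 k2
  0 (.s k49 k33 3 (.s k153 k221 9 (.s k101 k205 13 (.s k117 k69 3 (.d k253 k185 k169 9 13)))))), (.s
  k51 k34 4 (.s k19 k35 3 (.s k153 k221 9 (.s k86 k220 10 (.s k84 k87 0 (.d k252 k168 k169 13
  14))))))] (.c k33 (.l (.s k1 k2 0 (.s k51 k34 4 (.s k35 k19 3 (.s k153 k221 9 (.s k169 k253 13 (.d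
  k102 k204 k236 14 10))))))) .n))

def s10_255_159 : T TT 256 :=
  (.q k17 [(.s k2 k1 0 (.s k34 k51 4 (.s k18 k50 3 (.s k16 k19 0 (.d k48 k32 k33 3 4))))), (.s k1 k2
  0 (.s k49 k33 3 (.s k153 k221 9 (.s k101 k205 13 (.s k117 k69 3 (.d k253 k185 k169 9 13)))))), (.s
  k51 k34 4 (.s k19 k35 3 (.s k153 k221 9 (.s k86 k220 10 (.s k84 k87 0 (.d k252 k168 k169 13
  14))))))] (.c k33 (.l (.s k1 k2 0 (.s k51 k34 4 (.s k35 k19 3 (.s k153 k221 9 (.s k169 k253 13 (.d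
  k102 k204 k236 14 10))))))) .n))

def s10_255_160 : T TT 256 :=
  (.q k17 [(.s k2 k1 0 (.s k34 k51 4 (.s k18 k50 3 (.s k16 k19 0 (.d k48 k32 k33 3 4))))), (.s k1 k2
  0 (.s k49 k33 3 (.s k153 k221 9 (.s k101 k205 13 (.s k117 k69 3 (.d k253 k185 k169 9 13)))))), (.s
  k51 k34 4 (.s k19 k35 3 (.s k153 k221 9 (.s k86 k220 10 (.s k84 k87 0 (.d k252 k168 k169 13
  14))))))] (.c k33 (.l (.s k1 k2 0 (.s k51 k34 4 (.s k35 k19 3 (.s k153 k221 9 (.s k169 k253 13 (.d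
  k102 k204 k236 14 10))))))) .n))

def s10_255_161 : T TT 256 :=
  (.q k17 [(.s k1 k2 0 (.s k33 k49 3 (.s k18 k48 4 (.s k19 k16 0 (.d k51 k35 k34 3 4))))), (.s k51
  k34 4 (.s k19 k35 3 (.s k153 k221 9 (.s k86 k220 10 (.s k84 k87 0 (.d k252 k168 k169 13 14)))))),
  (.s k1 k2 0 (.s k49 k33 3 (.s k153 k221 9 (.s k101 k205 13 (.s k117 k69 3 (.d k253 k185 k169 9
  13))))))] (.c k33 (.l (.s k1 k2 0 (.s k51 k34 4 (.s k35 k19 3 (.s k153 k221 9 (.s k169 k253 13 (.d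
  k102 k204 k236 14 10))))))) .n))

def s10_255_162 : T TT 256 :=
  (.q k17 [(.s k2 k1 0 (.s k34 k51 4 (.s k18 k50 3 (.s k16 k19 0 (.d k48 k32 k33 3 4))))), (.s k1 k2
  0 (.s k49 k33 3 (.s k153 k221 9 (.s k101 k205 13 (.s k117 k69 3 (.d k253 k185 k169 9 13)))))), (.s
  k51 k34 4 (.s k19 k35 3 (.s k153 k221 9 (.s k86 k220 10 (.s k84 k87 0 (.d k252 k168 k169 13
  14))))))] (.c k33 (.l (.s k1 k2 0 (.s k51 k34 4 (.s k35 k19 3 (.s k153 k221 9 (.s k169 k253 13 (.d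
  k102 k204 k236 14 10))))))) .n))

def s10_255_163 : T TT 256 :=
  (.q k17 [(.s k2 k1 0 (.s k34 k51 4 (.s k18 k50 3 (.s k16 k19 0 (.d k48 k32 k33 3 4))))), (.s k1 k2
  0 (.s k49 k33 3 (.s k153 k221 9 (.s k101 k205 13 (.s k117 k69 3 (.d k253 k185 k169 9 13)))))), (.s
  k51 k34 4 (.s k19 k35 3 (.s k153 k221 9 (.s k86 k220 10 (.s k84 k87 0 (.d k252 k168 k169 13
  14))))))] (.c k33 (.l (.s k1 k2 0 (.s k51 k34 4 (.s k35 k19 3 (.s k153 k221 9 (.s k169 k253 13 (.d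
  k102 k204 k236 14 10))))))) .n))

def s10_255_164 : T TT 256 :=
  (.q k17 [(.s k2 k1 0 (.s k34 k51 4 (.s k18 k50 3 (.s k16 k19 0 (.d k48 k32 k33 3 4))))), (.s k1 k2
  0 (.s k49 k33 3 (.s k153 k221 9 (.s k101 k205 13 (.s k117 k69 3 (.d k253 k185 k169 9 13)))))), (.s
  k51 k34 4 (.s k19 k35 3 (.s k153 k221 9 (.s k86 k220 10 (.s k84 k87 0 (.d k252 k168 k169 13
  14))))))] (.c k33 (.l (.s k1 k2 0 (.s k51 k34 4 (.s k35 k19 3 (.s k153 k221 9 (.s k169 k253 13 (.d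
  k102 k204 k236 14 10))))))) .n))

def s10_255_165 : T TT 256 :=
  (.q k17 [(.s k2 k1 0 (.s k34 k51 4 (.s k18 k50 3 (.s k16 k19 0 (.d k48 k32 k33 3 4))))), (.s k1 k2
  0 (.s k49 k33 3 (.s k153 k221 9 (.s k101 k205 13 (.s k117 k69 3 (.d k253 k185 k169 9 13)))))), (.s
  k51 k34 4 (.s k19 k35 3 (.s k153 k221 9 (.s k86 k220 10 (.s k84 k87 0 (.d k252 k168 k169 13
  14))))))] (.c k33 (.l (.s k1 k2 0 (.s k51 k34 4 (.s k35 k19 3 (.s k153 k221 9 (.s k169 k253 13 (.d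
  k102 k204 k236 14 10))))))) .n))

def s10_255_166 : T TT 256 :=
  (.q k17 [(.s k2 k1 0 (.s k34 k51 4 (.s k18 k50 3 (.s k16 k19 0 (.d k48 k32 k33 3 4))))), (.s k1 k2
  0 (.s k49 k33 3 (.s k153 k221 9 (.s k101 k205 13 (.s k117 k69 3 (.d k253 k185 k169 9 13)))))), (.s
  k51 k34 4 (.s k19 k35 3 (.s k153 k221 9 (.s k86 k220 10 (.s k84 k87 0 (.d k252 k168 k169 13
  14))))))] (.c k33 (.l (.s k1 k2 0 (.s k51 k34 4 (.s k35 k19 3 (.s k153 k221 9 (.s k169 k253 13 (.d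
  k102 k204 k236 14 10))))))) .n))

def s10_255_167 : T TT 256 :=
  (.q k17 [(.s k2 k1 0 (.s k34 k51 4 (.s k18 k50 3 (.s k16 k19 0 (.d k48 k32 k33 3 4))))), (.s k1 k2
  0 (.s k49 k33 3 (.s k153 k221 9 (.s k101 k205 13 (.s k117 k69 3 (.d k253 k185 k169 9 13)))))), (.s
  k51 k34 4 (.s k19 k35 3 (.s k153 k221 9 (.s k86 k220 10 (.s k84 k87 0 (.d k252 k168 k169 13
  14))))))] (.c k33 (.l (.s k1 k2 0 (.s k51 k34 4 (.s k35 k19 3 (.s k153 k221 9 (.s k169 k253 13 (.d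
  k102 k204 k236 14 10))))))) .n))

def s10_255_168 : T TT 256 :=
  (.q k17 [(.s k2 k1 0 (.s k34 k51 4 (.s k18 k50 3 (.s k16 k19 0 (.d k48 k32 k33 3 4))))), (.s k1 k2
  0 (.s k49 k33 3 (.s k153 k221 9 (.s k101 k205 13 (.s k117 k69 3 (.d k253 k185 k169 9 13)))))), (.s
  k51 k34 4 (.s k19 k35 3 (.s k153 k221 9 (.s k86 k220 10 (.s k87 k84 0 (.s k223 k155 9 (.d k16 k18
  k154 0 10)))))))] (.c k33 (.l (.s k1 k2 0 (.s k51 k34 4 (.s k35 k19 3 (.s k153 k221 9 (.s k169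
  k253 13 (.d k102 k204 k236 14 10))))))) .n))

def s10_255_169 : T TT 256 :=
  (.f k2 k1 0 (.q k17 [(.s k34 k51 4 (.s k18 k50 3 (.s k16 k19 0 (.d k48 k32 k33 3 4)))), (.s k51
  k34 4 (.s k153 k221 9 (.s k204 k102 14 (.s k68 k136 9 (.s k70 k137 10 (.s k69 k71 0 (.d k138 k206
  k207 9 10)))))))] (.c k34 (.q k16 [(.s k18 k19 0 (.d k48 k32 k33 3 4)), (.s k19 k18 0 (.s k153
  k221 9 (.s k86 k220 10 (.s k87 k84 0 (.d k223 k155 k154 9 10))))), (.s k48 k32 3 (.s k154 k223 10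
  (.s k207 k101 14 (.s k138 k69 10 (.s k70 k206 9 (.s k137 k204 10 (.d k139 k136 k71 0 9)))))))] .n)
  (.c k51 (.q k16 [(.s k18 k19 0 (.d k48 k32 k33 3 4)), (.s k19 k18 0 (.s k153 k221 9 (.s k86 k220
  10 (.s k87 k84 0 (.d k223 k155 k154 9 10))))), (.s k48 k32 3 (.s k154 k223 10 (.s k207 k101 14 (.s
  k138 k69 10 (.s k70 k206 9 (.s k137 k204 10 (.d k139 k136 k71 0 9)))))))] (.c k119 (.q k187 [(.s
  k18 k19 0 (.d k48 k32 k33 3 4)), (.s k153 k221 9 (.s k170 k136 4 (.s k86 k254 13 (.s k84 k87 0 (.d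
  k220 k152 k19 9 10)))))] (.c k19 (.l (.s k48 k32 3 (.s k18 k33 4 (.s k153 k221 9 (.s k154 k223 10
  (.s k170 k136 4 (.d k86 k222 k254 9 13))))))) .n)) (.c k187 (.q k119 [(.s k18 k19 0 (.d k48 k32
  k33 3 4)), (.s k68 k102 4 (.s k204 k136 9 (.s k70 k137 10 (.s k69 k71 0 (.d k138 k206 k207 9
  10)))))] .n) .n))) .n))))

def s10_255_170 : T TT 256 :=
  (.q k51 [(.s k2 k1 0 (.s k34 k17 4 (.s k18 k50 3 (.s k33 k48 4 (.d k35 k32 k19 0 3))))), (.s k1 k2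
  0 (.s k35 k19 3 (.s k169 k253 13 (.s k102 k236 10 (.s k68 k119 4 (.d k204 k136 k153 9 14)))))),
  (.s k17 k34 4 (.s k19 k35 3 (.s k153 k221 9 (.s k86 k220 10 (.s k84 k87 0 (.d k252 k168 k169 13
  14)))))), (.s k1 k2 0 (.s k17 k34 4 (.s k153 k221 9 (.s k169 k253 13 (.s k137 k185 3 (.d k204 k102
  k70 14 10))))))] (.c k90 (.q k250 [(.s k2 k1 0 (.s k34 k17 4 (.s k18 k50 3 (.s k33 k48 4 (.d k35
  k32 k19 0 3))))), (.s k1 k2 0 (.s k35 k19 3 (.s k169 k253 13 (.s k102 k236 10 (.s k68 k119 4 (.d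
  k204 k136 k153 9 14)))))), (.s k17 k34 4 (.s k19 k35 3 (.s k153 k221 9 (.s k86 k220 10 (.s k84 k87
  0 (.d k252 k168 k169 13 14)))))), (.s k1 k2 0 (.s k17 k34 4 (.s k153 k221 9 (.s k169 k253 13 (.s
  k137 k185 3 (.d k204 k102 k70 14 10))))))] .n) (.c k250 (.q k90 [(.s k2 k1 0 (.s k34 k17 4 (.s k18
  k50 3 (.s k33 k48 4 (.d k35 k32 k19 0 3))))), (.s k1 k2 0 (.s k35 k19 3 (.s k169 k253 13 (.s k102
  k236 10 (.s k68 k119 4 (.d k204 k136 k153 9 14)))))), (.s k17 k34 4 (.s k19 k35 3 (.s k153 k221 9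
  (.s k86 k220 10 (.s k84 k87 0 (.d k252 k168 k169 13 14)))))), (.s k1 k2 0 (.s k17 k34 4 (.s k153
  k221 9 (.s k169 k253 13 (.s k137 k185 3 (.d k204 k102 k70 14 10))))))] (.c k240 (.q k245 [(.s k2
  k1 0 (.s k35 k19 3 (.s k34 k17 4 (.s k33 k32 0 (.d k18 k50 k48 3 4))))), (.s k1 k2 0 (.s k35 k19 3
  (.s k169 k253 13 (.s k102 k236 10 (.s k68 k119 4 (.d k204 k136 k153 9 14)))))), (.s k17 k34 4 (.s
  k19 k35 3 (.s k153 k221 9 (.s k86 k220 10 (.s k84 k87 0 (.d k252 k168 k169 13 14)))))), (.s k1 k2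
  0 (.s k17 k34 4 (.s k153 k221 9 (.s k169 k253 13 (.s k137 k185 3 (.d k204 k102 k70 14 10))))))]
  .n) (.c k245 (.q k240 [(.d k80 k95 k160 2 11), (.s k1 k2 0 (.s k82 k161 12 (.s k86 k94 1 (.d k169
  k253 k252 13 14))))] .n) .n))) .n)))

def s10_255_171 : T TT 256 :=
  (.q k17 [(.s k2 k1 0 (.s k34 k51 4 (.s k18 k50 3 (.s k16 k19 0 (.d k48 k32 k33 3 4))))), (.s k1 k2
  0 (.s k49 k33 3 (.s k153 k221 9 (.s k101 k205 13 (.s k117 k69 3 (.d k253 k185 k169 9 13)))))), (.s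
  k51 k34 4 (.s k19 k35 3 (.s k153 k221 9 (.s k86 k220 10 (.s k84 k87 0 (.d k252 k168 k169 13
  14))))))] (.c k33 (.l (.s k1 k2 0 (.s k51 k34 4 (.s k35 k19 3 (.s k153 k221 9 (.s k169 k253 13 (.d
  k102 k204 k236 14 10))))))) .n))

def s10_255_172 : T TT 256 :=
  (.q k17 [(.s k2 k1 0 (.s k34 k51 4 (.s k18 k50 3 (.s k16 k19 0 (.d k48 k32 k33 3 4))))), (.s k1 k2
  0 (.s k49 k33 3 (.s k153 k221 9 (.s k101 k205 13 (.s k117 k69 3 (.d k253 k185 k169 9 13)))))), (.s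
  k51 k34 4 (.s k19 k35 3 (.s k153 k221 9 (.s k86 k220 10 (.s k84 k87 0 (.d k252 k168 k169 13
  14))))))] (.c k33 (.l (.s k1 k2 0 (.s k51 k34 4 (.s k35 k19 3 (.s k153 k221 9 (.s k169 k253 13 (.d
  k102 k204 k236 14 10))))))) .n))

def s10_255_173 : T TT 256 :=
  (.q k17 [(.s k2 k1 0 (.s k34 k51 4 (.s k18 k50 3 (.s k16 k19 0 (.d k48 k32 k33 3 4))))), (.s k1 k2
  0 (.s k49 k33 3 (.s k153 k221 9 (.s k101 k205 13 (.s k117 k69 3 (.d k253 k185 k169 9 13)))))), (.s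
  k51 k34 4 (.s k19 k35 3 (.s k153 k221 9 (.s k86 k220 10 (.s k84 k87 0 (.d k252 k168 k169 13
  14))))))] (.c k33 (.l (.s k1 k2 0 (.s k51 k34 4 (.s k35 k19 3 (.s k153 k221 9 (.s k169 k253 13 (.d
  k102 k204 k236 14 10))))))) .n))

def s10_255_174 : T TT 256 :=
  (.f k1 k2 0 (.q k12 [(.s k169 k253 13 (.s k252 k86 14 (.s k172 k92 11 (.s k166 k163 2 (.d k4 k8
  k247 1 12))))), (.s k4 k8 1 (.s k166 k247 12 (.s k243 k89 14 (.s k81 k162 12 (.s k83 k163 11 (.s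
  k82 k80 0 (.d k161 k241 k240 11 12))))))), (.s k4 k8 1 (.s k169 k253 13 (.s k252 k86 14 (.s k84
  k168 13 (.s k92 k172 11 (.s k88 k80 1 (.d k164 k244 k240 11 13))))))), (.s k169 k253 13 (.s k252
  k86 14 (.s k172 k92 11 (.s k166 k163 2 (.s k89 k243 14 (.d k9 k6 k249 2 11))))))] (.c k6 (.q k14
  [(.s k169 k253 13 (.s k252 k86 14 (.s k172 k92 11 (.s k166 k163 2 (.d k4 k8 k247 1 12))))), (.s
  k13 k15 0 (.s k5 k9 1 (.s k165 k245 11 (.s k89 k241 13 (.s k81 k93 1 (.d k243 k162 k166 12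
  14)))))), (.s k13 k15 0 (.s k9 k5 1 (.s k169 k253 13 (.s k89 k249 11 (.s k81 k93 1 (.d k241 k161
  k165 11 13)))))), (.s k4 k8 1 (.s k15 k13 0 (.s k166 k247 12 (.s k90 k242 13 (.s k80 k95 2 (.d
  k240 k160 k165 11 14))))))] .n) (.c k14 (.l (.s k6 k9 2 (.s k169 k253 13 (.s k252 k86 14 (.s k172
  k92 11 (.s k166 k163 2 (.d k4 k8 k247 1 12))))))) (.c k170 (.l (.s k4 k8 1 (.s k166 k247 12 (.s
  k169 k253 13 (.s k163 k172 2 (.d k243 k89 k83 14 11)))))) .n)))))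

def s10_255_175 : T TT 256 :=
  (.q k48 [(.s k2 k1 0 (.s k16 k32 3 (.s k18 k33 4 (.s k17 k19 0 (.d k34 k50 k51 3 4))))), (.s k1 k2
  0 (.s k16 k32 3 (.s k154 k223 10 (.s k169 k253 13 (.s k139 k184 4 (.d k207 k71 k101 9 14)))))),
  (.s k16 k32 3 (.s k18 k33 4 (.s k154 k223 10 (.s k86 k222 9 (.s k84 k87 0 (.d k252 k168 k169 13
  14)))))), (.s k1 k2 0 (.s k33 k18 4 (.s k169 k253 13 (.s k101 k237 9 (.s k69 k117 3 (.d k207 k138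
  k154 10 14))))))] (.c k15 (.q k95 [(.s k2 k1 0 (.s k16 k32 3 (.s k18 k33 4 (.s k17 k19 0 (.d k34
  k50 k51 3 4))))), (.s k1 k2 0 (.s k16 k32 3 (.s k154 k223 10 (.s k169 k253 13 (.s k139 k184 4 (.d
  k207 k71 k101 9 14)))))), (.s k16 k32 3 (.s k18 k33 4 (.s k154 k223 10 (.s k86 k222 9 (.s k84 k87
  0 (.d k252 k168 k169 13 14)))))), (.s k1 k2 0 (.s k33 k18 4 (.s k169 k253 13 (.s k101 k237 9 (.s
  k69 k117 3 (.d k207 k138 k154 10 14))))))] .n) (.c k95 (.q k15 [(.s k2 k1 0 (.s k16 k32 3 (.s k18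
  k33 4 (.s k17 k19 0 (.d k34 k50 k51 3 4))))), (.s k7 k11 1 (.s k33 k18 4 (.s k37 k26 6 (.s k22 k52
  4 (.d k41 k45 k60 1 6))))), (.s k1 k2 0 (.s k11 k7 1 (.s k16 k32 3 (.s k26 k37 6 (.s k21 k31 2 (.d
  k41 k56 k61 4 5))))))] .n) .n)))

def s10_255_176 : T TT 256 :=
  (.q k17 [(.s k2 k1 0 (.s k34 k51 4 (.s k18 k50 3 (.s k16 k19 0 (.d k48 k32 k33 3 4))))), (.s k1 k2
  0 (.s k49 k33 3 (.s k153 k221 9 (.s k101 k205 13 (.s k117 k69 3 (.d k253 k185 k169 9 13)))))), (.s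
  k51 k34 4 (.s k19 k35 3 (.s k153 k221 9 (.s k86 k220 10 (.s k84 k87 0 (.d k252 k168 k169 13
  14))))))] (.c k33 (.l (.s k1 k2 0 (.s k51 k34 4 (.s k35 k19 3 (.s k153 k221 9 (.s k169 k253 13 (.d
  k102 k204 k236 14 10))))))) .n))

def s10_255_177 : T TT 256 :=
  (.q k17 [(.s k1 k2 0 (.s k51 k34 4 (.s k19 k35 3 (.s k18 k16 0 (.d k33 k49 k48 3 4))))), (.s k51
  k34 4 (.s k19 k35 3 (.s k153 k221 9 (.s k86 k220 10 (.s k84 k87 0 (.d k252 k168 k169 13 14)))))),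
  (.s k1 k2 0 (.s k49 k33 3 (.s k153 k221 9 (.s k101 k205 13 (.s k117 k69 3 (.d k253 k185 k169 9
  13))))))] (.c k33 (.l (.s k1 k2 0 (.s k51 k34 4 (.s k35 k19 3 (.s k153 k221 9 (.s k169 k253 13 (.d
  k102 k204 k236 14 10))))))) .n))

def s10_255_178 : T TT 256 :=
  (.q k17 [(.s k2 k1 0 (.s k34 k51 4 (.s k18 k50 3 (.s k16 k19 0 (.d k48 k32 k33 3 4))))), (.s k1 k2
  0 (.s k49 k33 3 (.s k153 k221 9 (.s k101 k205 13 (.s k117 k69 3 (.d k253 k185 k169 9 13)))))), (.s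
  k51 k34 4 (.s k19 k35 3 (.s k153 k221 9 (.s k86 k220 10 (.s k84 k87 0 (.d k252 k168 k169 13
  14))))))] (.c k33 (.l (.s k1 k2 0 (.s k51 k34 4 (.s k35 k19 3 (.s k153 k221 9 (.s k169 k253 13 (.d
  k102 k204 k236 14 10))))))) .n))

def s10_255_179 : T TT 256 :=
  (.q k17 [(.s k1 k2 0 (.s k33 k49 3 (.s k18 k48 4 (.s k19 k16 0 (.d k51 k35 k34 3 4))))), (.s k51
  k34 4 (.s k19 k35 3 (.s k153 k221 9 (.s k86 k220 10 (.s k84 k87 0 (.d k252 k168 k169 13 14)))))),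
  (.s k1 k2 0 (.s k49 k33 3 (.s k153 k221 9 (.s k101 k205 13 (.s k117 k69 3 (.d k253 k185 k169 9
  13))))))] (.c k33 (.l (.s k1 k2 0 (.s k51 k34 4 (.s k35 k19 3 (.s k153 k221 9 (.s k169 k253 13 (.d
  k102 k204 k236 14 10))))))) .n))

def s10_255_180 : T TT 256 :=
  (.q k17 [(.s k2 k1 0 (.s k34 k51 4 (.s k18 k50 3 (.s k16 k19 0 (.d k48 k32 k33 3 4))))), (.s k1 k2
  0 (.s k49 k33 3 (.s k153 k221 9 (.s k101 k205 13 (.s k117 k69 3 (.d k253 k185 k169 9 13)))))), (.s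
  k51 k34 4 (.s k19 k35 3 (.s k153 k221 9 (.s k86 k220 10 (.s k84 k87 0 (.d k252 k168 k169 13
  14))))))] (.c k33 (.l (.s k1 k2 0 (.s k51 k34 4 (.s k35 k19 3 (.s k153 k221 9 (.s k169 k253 13 (.d
  k102 k204 k236 14 10))))))) .n))

def s10_255_181 : T TT 256 :=
  (.q k17 [(.s k2 k1 0 (.s k34 k51 4 (.s k18 k50 3 (.s k16 k19 0 (.d k48 k32 k33 3 4))))), (.s k1 k2
  0 (.s k49 k33 3 (.s k153 k221 9 (.s k101 k205 13 (.s k117 k69 3 (.d k253 k185 k169 9 13)))))), (.s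
  k51 k34 4 (.s k19 k35 3 (.s k153 k221 9 (.s k86 k220 10 (.s k84 k87 0 (.d k252 k168 k169 13
  14))))))] (.c k33 (.l (.s k1 k2 0 (.s k51 k34 4 (.s k35 k19 3 (.s k153 k221 9 (.s k169 k253 13 (.d
  k102 k204 k236 14 10))))))) .n))

def s10_255_182 : T TT 256 :=
  (.q k17 [(.s k2 k1 0 (.s k34 k51 4 (.s k18 k50 3 (.s k16 k19 0 (.d k48 k32 k33 3 4))))), (.s k1 k2
  0 (.s k49 k33 3 (.s k153 k221 9 (.s k101 k205 13 (.s k117 k69 3 (.d k253 k185 k169 9 13)))))), (.s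
  k51 k34 4 (.s k19 k35 3 (.s k153 k221 9 (.s k86 k220 10 (.s k84 k87 0 (.d k252 k168 k169 13
  14))))))] (.c k33 (.l (.s k1 k2 0 (.s k51 k34 4 (.s k35 k19 3 (.s k153 k221 9 (.s k169 k253 13 (.d
  k102 k204 k236 14 10))))))) .n))

def s10_255_183 : T TT 256 :=
  (.q k17 [(.s k2 k1 0 (.s k34 k51 4 (.s k18 k50 3 (.s k16 k19 0 (.d k48 k32 k33 3 4))))), (.s k1 k2
  0 (.s k49 k33 3 (.s k153 k221 9 (.s k101 k205 13 (.s k117 k69 3 (.d k253 k185 k169 9 13)))))), (.s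
  k51 k34 4 (.s k19 k35 3 (.s k153 k221 9 (.s k86 k220 10 (.s k84 k87 0 (.d k252 k168 k169 13
  14))))))] (.c k33 (.l (.s k1 k2 0 (.s k51 k34 4 (.s k35 k19 3 (.s k153 k221 9 (.s k169 k253 13 (.d
  k102 k204 k236 14 10))))))) .n))

def s10_255_184 : T TT 256 :=
  (.q k17 [(.s k2 k1 0 (.s k34 k51 4 (.s k18 k50 3 (.s k16 k19 0 (.d k48 k32 k33 3 4))))), (.s k1 k2
  0 (.s k49 k33 3 (.s k153 k221 9 (.s k101 k205 13 (.s k117 k69 3 (.d k253 k185 k169 9 13)))))), (.s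
  k51 k34 4 (.s k19 k35 3 (.s k153 k221 9 (.s k86 k220 10 (.s k84 k87 0 (.d k252 k168 k169 13
  14))))))] (.c k33 (.l (.s k1 k2 0 (.s k51 k34 4 (.s k35 k19 3 (.s k153 k221 9 (.s k169 k253 13 (.d
  k102 k204 k236 14 10))))))) .n))

def s10_255_185 : T TT 256 :=
  (.q k21 [(.s k2 k1 0 (.s k42 k63 6 (.s k22 k62 5 (.s k20 k23 0 (.d k60 k40 k41 5 6))))), (.s k1 k2
  0 (.s k61 k41 5 (.s k149 k213 7 (.s k105 k193 13 (.s k125 k65 5 (.d k253 k189 k169 7 13)))))), (.s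
  k63 k42 6 (.s k23 k43 5 (.s k149 k213 7 (.s k86 k212 8 (.s k84 k87 0 (.d k252 k168 k169 13
  14))))))] (.c k41 (.l (.s k1 k2 0 (.s k63 k42 6 (.s k43 k23 5 (.s k149 k213 7 (.s k169 k253 13 (.d
  k106 k192 k232 14 8))))))) .n))

def s10_255_186 : T TT 256 :=
  (.q k48 [(.s k2 k1 0 (.s k16 k32 3 (.s k18 k33 4 (.s k17 k19 0 (.d k34 k50 k51 3 4))))), (.s k1 k2
  0 (.s k16 k32 3 (.s k154 k223 10 (.s k169 k253 13 (.s k139 k184 4 (.d k207 k71 k101 9 14)))))),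
  (.s k16 k32 3 (.s k18 k33 4 (.s k154 k223 10 (.s k86 k222 9 (.s k84 k87 0 (.d k252 k168 k169 13
  14)))))), (.s k1 k2 0 (.s k33 k18 4 (.s k169 k253 13 (.s k101 k237 9 (.s k69 k117 3 (.d k207 k138
  k154 10 14))))))] .n)

def s10_255_187 : T TT 256 :=
  (.q k51 [(.s k2 k1 0 (.s k35 k19 3 (.s k34 k17 4 (.s k33 k32 0 (.d k18 k50 k48 3 4))))), (.s k1 k2
  0 (.s k35 k19 3 (.s k169 k253 13 (.s k102 k236 10 (.s k68 k119 4 (.d k204 k136 k153 9 14)))))),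
  (.s k17 k34 4 (.s k19 k35 3 (.s k153 k221 9 (.s k86 k220 10 (.s k84 k87 0 (.d k252 k168 k169 13
  14)))))), (.s k1 k2 0 (.s k17 k34 4 (.s k153 k221 9 (.s k169 k253 13 (.s k137 k185 3 (.d k204 k70
  k102 10 14))))))] .n)

def s10_255_188 : T TT 256 :=
  (.q k17 [(.s k2 k1 0 (.s k34 k51 4 (.s k18 k50 3 (.s k16 k19 0 (.d k48 k32 k33 3 4))))), (.s k1 k2
  0 (.s k49 k33 3 (.s k153 k221 9 (.s k101 k205 13 (.s k117 k69 3 (.d k253 k185 k169 9 13)))))), (.s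
  k51 k34 4 (.s k19 k35 3 (.s k153 k221 9 (.s k86 k220 10 (.s k84 k87 0 (.d k252 k168 k169 13
  14))))))] (.c k33 (.l (.s k1 k2 0 (.s k51 k34 4 (.s k35 k19 3 (.s k153 k221 9 (.s k169 k253 13 (.d
  k102 k204 k236 14 10))))))) .n))

def s10_255_189 : T TT 256 :=
  (.q k17 [(.s k2 k1 0 (.s k34 k51 4 (.s k18 k50 3 (.s k16 k19 0 (.d k48 k32 k33 3 4))))), (.s k1 k2
  0 (.s k49 k33 3 (.s k153 k221 9 (.s k101 k205 13 (.s k117 k69 3 (.d k253 k185 k169 9 13)))))), (.s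
  k51 k34 4 (.s k19 k35 3 (.s k153 k221 9 (.s k86 k220 10 (.s k84 k87 0 (.d k252 k168 k169 13
  14))))))] (.c k33 (.l (.s k1 k2 0 (.s k51 k34 4 (.s k35 k19 3 (.s k153 k221 9 (.s k169 k253 13 (.d
  k102 k204 k236 14 10))))))) .n))

def s10_255_190 : T TT 256 :=
  (.q k60 [(.s k2 k1 0 (.s k20 k40 5 (.s k22 k41 6 (.s k21 k23 0 (.d k42 k62 k63 5 6))))), (.s k1 k2
  0 (.s k20 k40 5 (.s k150 k215 8 (.s k169 k253 13 (.s k131 k188 6 (.d k195 k67 k105 7 14)))))), (.s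
  k20 k40 5 (.s k22 k41 6 (.s k150 k215 8 (.s k86 k214 7 (.s k84 k87 0 (.d k252 k168 k169 13
  14)))))), (.s k1 k2 0 (.s k41 k22 6 (.s k169 k253 13 (.s k105 k233 7 (.s k65 k125 5 (.d k195 k130
  k150 8 14))))))] .n)

def s10_255_191 : T TT 256 :=
  (.q k63 [(.s k2 k1 0 (.s k43 k23 5 (.s k42 k21 6 (.s k41 k40 0 (.d k22 k62 k60 5 6))))), (.s k1 k2
  0 (.s k43 k23 5 (.s k169 k253 13 (.s k106 k232 8 (.s k64 k127 6 (.d k192 k128 k149 7 14)))))), (.s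
  k21 k42 6 (.s k23 k43 5 (.s k149 k213 7 (.s k86 k212 8 (.s k84 k87 0 (.d k252 k168 k169 13
  14)))))), (.s k1 k2 0 (.s k21 k42 6 (.s k149 k213 7 (.s k169 k253 13 (.s k129 k189 5 (.d k192 k66
  k106 8 14))))))] .n)

def s10_255_192 : T TT 256 :=
  (.q k105 [(.s k1 k2 0 (.s k125 k65 5 (.s k253 k169 13 (.s k61 k189 7 (.s k21 k41 5 (.d k149 k213
  k193 7 13)))))), (.s k65 k125 5 (.s k195 k130 8 (.s k67 k131 7 (.s k86 k124 6 (.s k84 k87 0 (.d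
  k252 k168 k169 13 14)))))), (.s k1 k2 0 (.s k169 k253 13 (.s k41 k233 7 (.s k60 k22 6 (.s k20 k40
  5 (.d k150 k215 k195 8 14))))))] (.c k169 (.l (.s k1 k2 0 (.s k65 k125 5 (.s k193 k129 7 (.s k195
  k130 8 (.s k60 k150 14 (.s k41 k22 6 (.d k61 k149 k21 13 5)))))))) (.c k213 (.q k234 [(.s k65 k125
  5 (.s k195 k130 8 (.s k60 k150 14 (.s k41 k22 6 (.s k169 k233 7 (.d k1 k253 k2 13 0)))))), (.s k65
  k125 5 (.s k195 k130 8 (.s k67 k131 7 (.s k86 k124 6 (.s k84 k87 0 (.d k252 k168 k169 13 14)))))),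
  (.s k1 k2 0 (.s k169 k253 13 (.s k233 k41 7 (.s k235 k232 0 (.s k170 k40 8 (.s k168 k171 0 (.d
  k252 k84 k86 13 14)))))))] (.c k86 (.l (.s k1 k2 0 (.s k65 k125 5 (.s k169 k253 13 (.s k41 k233 7
  (.s k193 k129 7 (.d k61 k21 k149 5 13))))))) (.c k169 (.l (.s k1 k2 0 (.s k65 k125 5 (.s k193 k129
  7 (.s k195 k130 8 (.s k60 k150 14 (.s k41 k22 6 (.d k61 k149 k21 13 5)))))))) .n))) (.c k234 (.q
  k213 [(.s k1 k2 0 (.s k21 k149 7 (.s k41 k61 5 (.d k169 k233 k253 7 13)))), (.s k21 k149 7 (.s k63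
  k42 6 (.s k23 k43 5 (.s k20 k22 0 (.s k150 k215 8 (.d k60 k40 k195 5 14)))))), (.s k1 k2 0 (.s k65
  k125 5 (.s k193 k129 7 (.d k253 k233 k169 5 13))))] (.c k2 (.l (.s k65 k125 5 (.s k149 k21 7 (.s
  k193 k61 13 (.s k1 k129 7 (.d k253 k233 k169 5 13)))))) .n)) .n))))

def s10_255_193 : T TT 256 :=
  (.q k17 [(.s k1 k2 0 (.s k51 k34 4 (.s k19 k35 3 (.s k18 k16 0 (.d k33 k49 k48 3 4))))), (.s k51
  k34 4 (.s k19 k35 3 (.s k153 k221 9 (.s k86 k220 10 (.s k84 k87 0 (.d k252 k168 k169 13 14)))))),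
  (.s k1 k2 0 (.s k49 k33 3 (.s k153 k221 9 (.s k101 k205 13 (.s k117 k69 3 (.d k253 k185 k169 9
  13))))))] (.c k33 (.l (.s k1 k2 0 (.s k51 k34 4 (.s k35 k19 3 (.s k153 k221 9 (.s k169 k253 13 (.d
  k102 k204 k236 14 10))))))) .n))

def s10_255_194 : T TT 256 :=
  (.q k17 [(.s k2 k1 0 (.s k34 k51 4 (.s k18 k50 3 (.s k16 k19 0 (.d k48 k32 k33 3 4))))), (.s k1 k2
  0 (.s k49 k33 3 (.s k153 k221 9 (.s k101 k205 13 (.s k117 k69 3 (.d k253 k185 k169 9 13)))))), (.s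
  k51 k34 4 (.s k19 k35 3 (.s k153 k221 9 (.s k86 k220 10 (.s k84 k87 0 (.d k252 k168 k169 13
  14))))))] (.c k33 (.l (.s k1 k2 0 (.s k51 k34 4 (.s k35 k19 3 (.s k153 k221 9 (.s k169 k253 13 (.d
  k102 k204 k236 14 10))))))) .n))

def s10_255_195 : T TT 256 :=
  (.q k101 [(.s k1 k2 0 (.s k117 k69 3 (.s k253 k169 13 (.s k49 k185 9 (.s k17 k33 3 (.d k153 k221
  k205 9 13)))))), (.s k69 k117 3 (.s k207 k138 10 (.s k71 k139 9 (.s k86 k116 4 (.s k84 k87 0 (.d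
  k252 k168 k169 13 14)))))), (.s k1 k2 0 (.s k169 k253 13 (.s k33 k237 9 (.s k48 k18 4 (.s k16 k32
  3 (.d k154 k223 k207 10 14))))))] (.c k169 (.l (.s k1 k2 0 (.s k69 k117 3 (.s k137 k205 9 (.s k70
  k204 10 (.s k71 k68 0 (.d k207 k139 k138 9 10))))))) (.c k215 (.q k235 [(.s k1 k2 0 (.s k117 k69 3
  (.s k253 k169 13 (.s k49 k185 9 (.s k17 k33 3 (.d k153 k221 k205 9 13)))))), (.s k69 k117 3 (.s
  k207 k138 10 (.s k71 k139 9 (.s k86 k116 4 (.s k84 k87 0 (.d k252 k168 k169 13 14)))))), (.s k1 k2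
  0 (.s k169 k253 13 (.s k33 k237 9 (.s k48 k18 4 (.s k16 k32 3 (.d k154 k223 k207 10 14))))))] (.c
  k169 (.l (.s k1 k2 0 (.s k69 k117 3 (.s k137 k205 9 (.s k70 k204 10 (.s k71 k68 0 (.d k207 k139
  k138 9 10))))))) .n)) (.c k235 (.q k215 [(.s k150 k20 8 (.s k199 k52 12 (.s k247 k231 3 (.s k4
  k166 12 (.d k69 k117 k134 3 8))))), (.s k1 k2 0 (.s k169 k253 13 (.s k33 k237 9 (.s k48 k18 4 (.s
  k16 k32 3 (.d k154 k223 k207 10 14))))))] .n) .n))))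

def s10_255_196 : T TT 256 :=
  (.q k17 [(.s k2 k1 0 (.s k34 k51 4 (.s k18 k50 3 (.s k16 k19 0 (.d k48 k32 k33 3 4))))), (.s k1 k2
  0 (.s k49 k33 3 (.s k153 k221 9 (.s k101 k205 13 (.s k117 k69 3 (.d k253 k185 k169 9 13)))))), (.s
  k51 k34 4 (.s k19 k35 3 (.s k153 k221 9 (.s k86 k220 10 (.s k84 k87 0 (.d k252 k168 k169 13
  14))))))] (.c k33 (.l (.s k1 k2 0 (.s k51 k34 4 (.s k35 k19 3 (.s k153 k221 9 (.s k169 k253 13 (.d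
  k102 k204 k236 14 10))))))) .n))

def s10_255_197 : T TT 256 :=
  (.q k17 [(.s k2 k1 0 (.s k34 k51 4 (.s k18 k50 3 (.s k16 k19 0 (.d k48 k32 k33 3 4))))), (.s k1 k2
  0 (.s k49 k33 3 (.s k153 k221 9 (.s k101 k205 13 (.s k117 k69 3 (.d k253 k185 k169 9 13)))))), (.s
  k51 k34 4 (.s k19 k35 3 (.s k153 k221 9 (.s k86 k220 10 (.s k84 k87 0 (.d k252 k168 k169 13
  14))))))] (.c k33 (.l (.s k1 k2 0 (.s k51 k34 4 (.s k35 k19 3 (.s k153 k221 9 (.s k169 k253 13 (.d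
  k102 k204 k236 14 10))))))) .n))

def s10_255_198 : T TT 256 :=
  (.q k17 [(.s k2 k1 0 (.s k34 k51 4 (.s k18 k50 3 (.s k16 k19 0 (.d k48 k32 k33 3 4))))), (.s k1 k2
  0 (.s k49 k33 3 (.s k153 k221 9 (.s k101 k205 13 (.s k117 k69 3 (.d k253 k185 k169 9 13)))))), (.s
  k51 k34 4 (.s k19 k35 3 (.s k153 k221 9 (.s k86 k220 10 (.s k84 k87 0 (.d k252 k168 k169 13
  14))))))] (.c k33 (.l (.s k1 k2 0 (.s k51 k34 4 (.s k35 k19 3 (.s k153 k221 9 (.s k169 k253 13 (.d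
  k102 k204 k236 14 10))))))) .n))

def s10_255_199 : T TT 256 :=
  (.q k17 [(.s k2 k1 0 (.s k34 k51 4 (.s k18 k50 3 (.s k16 k19 0 (.d k48 k32 k33 3 4))))), (.s k1 k2
  0 (.s k49 k33 3 (.s k153 k221 9 (.s k101 k205 13 (.s k117 k69 3 (.d k253 k185 k169 9 13)))))), (.s
  k51 k34 4 (.s k19 k35 3 (.s k153 k221 9 (.s k86 k220 10 (.s k84 k87 0 (.d k252 k168 k169 13
  14))))))] (.c k33 (.l (.s k1 k2 0 (.s k51 k34 4 (.s k35 k19 3 (.s k153 k221 9 (.s k169 k253 13 (.d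
  k102 k204 k236 14 10))))))) .n))

def s10_255_200 : T TT 256 :=
  (.q k17 [(.s k2 k1 0 (.s k34 k51 4 (.s k18 k50 3 (.s k16 k19 0 (.d k48 k32 k33 3 4))))), (.s k1 k2
  0 (.s k49 k33 3 (.s k153 k221 9 (.s k101 k205 13 (.s k117 k69 3 (.d k253 k185 k169 9 13)))))), (.s
  k51 k34 4 (.s k19 k35 3 (.s k153 k221 9 (.s k86 k220 10 (.s k84 k87 0 (.d k252 k168 k169 13
  14))))))] (.c k33 (.l (.s k1 k2 0 (.s k51 k34 4 (.s k35 k19 3 (.s k153 k221 9 (.s k169 k253 13 (.d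
  k102 k204 k236 14 10))))))) .n))

def s10_255_201 : T TT 256 :=
  (.q k17 [(.s k2 k1 0 (.s k34 k51 4 (.s k18 k50 3 (.s k16 k19 0 (.d k48 k32 k33 3 4))))), (.s k1 k2
  0 (.s k49 k33 3 (.s k153 k221 9 (.s k101 k205 13 (.s k117 k69 3 (.d k253 k185 k169 9 13)))))), (.s
  k51 k34 4 (.s k19 k35 3 (.s k153 k221 9 (.s k86 k220 10 (.s k84 k87 0 (.d k252 k168 k169 13
  14))))))] (.c k33 (.l (.s k1 k2 0 (.s k51 k34 4 (.s k35 k19 3 (.s k153 k221 9 (.s k169 k253 13 (.d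
  k102 k204 k236 14 10))))))) .n))

def s10_255_202 : T TT 256 :=
  (.q k204 [(.s k2 k1 0 (.s k68 k136 9 (.s k70 k137 10 (.s k69 k71 0 (.d k138 k206 k207 9 10))))),
  (.s k1 k2 0 (.s k68 k136 9 (.s k102 k119 4 (.s k51 k153 14 (.s k35 k19 3 (.d k169 k236 k253 10
  13)))))), (.s k68 k136 9 (.s k70 k137 10 (.s k102 k119 4 (.s k86 k118 3 (.s k84 k87 0 (.d k252
  k168 k169 13 14)))))), (.s k1 k2 0 (.s k137 k70 10 (.s k169 k253 13 (.s k153 k185 3 (.s k17 k221 9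
  (.d k51 k34 k102 4 14))))))] (.c k74 (.q k138 [(.s k2 k1 0 (.d k70 k206 k137 9 10)), (.s k136 k68
  9 (.s k139 k137 0 (.d k207 k71 k69 9 10)))] (.c k137 (.l (.s k2 k1 0 (.s k206 k70 9 (.d k207 k205
  k69 0 10)))) .n)) (.c k138 (.q k74 [(.s k70 k137 10 (.s k66 k78 1 (.s k192 k129 8 (.s k133 k15 10
  (.d k196 k200 k7 1 8))))), (.s k1 k2 0 (.s k169 k253 13 (.s k252 k86 14 (.s k236 k220 3 (.s k102
  k35 10 (.d k68 k119 k136 4 9))))))] (.c k70 (.l (.s k68 k136 9 (.s k102 k119 4 (.s k51 k153 14 (.s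
  k35 k19 3 (.s k169 k236 10 (.d k1 k2 k253 0 13))))))) (.c k136 (.l (.s k137 k70 10 (.s k11 k200 8
  (.s k15 k7 1 (.s k133 k192 10 (.d k141 k129 k78 1 8)))))) .n))) .n)))

def s10_255_203 : T TT 256 :=
  (.q k17 [(.s k2 k1 0 (.s k34 k51 4 (.s k18 k50 3 (.s k16 k19 0 (.d k48 k32 k33 3 4))))), (.s k1 k2
  0 (.s k49 k33 3 (.s k153 k221 9 (.s k101 k205 13 (.s k117 k69 3 (.d k253 k185 k169 9 13)))))), (.s
  k51 k34 4 (.s k19 k35 3 (.s k153 k221 9 (.s k86 k220 10 (.s k84 k87 0 (.d k252 k168 k169 13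
  14))))))] (.c k33 (.l (.s k1 k2 0 (.s k51 k34 4 (.s k35 k19 3 (.s k153 k221 9 (.s k169 k253 13 (.d
  k102 k204 k236 14 10))))))) .n))

def s10_255_204 : T TT 256 :=
  (.q k48 [(.s k2 k1 0 (.s k16 k32 3 (.s k18 k33 4 (.s k17 k19 0 (.d k34 k50 k51 3 4))))), (.s k1 k2
  0 (.s k16 k32 3 (.s k154 k223 10 (.s k169 k253 13 (.s k139 k184 4 (.d k207 k71 k101 9 14)))))),
  (.s k16 k32 3 (.s k18 k33 4 (.s k154 k223 10 (.s k86 k222 9 (.s k84 k87 0 (.d k252 k168 k169 13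
  14)))))), (.s k1 k2 0 (.s k33 k18 4 (.s k169 k253 13 (.s k101 k237 9 (.s k69 k117 3 (.d k207 k138
  k154 10 14))))))] (.c k221 (.q k238 [(.s k2 k1 0 (.s k16 k32 3 (.s k18 k33 4 (.s k17 k19 0 (.d k34
  k50 k51 3 4))))), (.s k1 k2 0 (.s k16 k32 3 (.s k154 k223 10 (.s k169 k253 13 (.s k139 k184 4 (.d
  k207 k71 k101 9 14))))))] (.c k1 (.l (.s k16 k32 3 (.s k18 k33 4 (.s k17 k19 0 (.s k34 k51 4 (.s
  k50 k2 3 (.s k102 k170 9 (.d k154 k223 k206 10 13)))))))) (.c k2 (.l (.s k16 k32 3 (.s k18 k33 4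
  (.s k19 k17 0 (.s k154 k223 10 (.s k86 k222 9 (.s k220 k153 10 (.d k84 k87 k152 0 9)))))))) (.c
  k16 (.l (.s k1 k2 0 (.s k33 k18 4 (.s k17 k49 3 (.s k34 k51 4 (.s k35 k32 0 (.s k102 k170 9 (.d
  k169 k236 k253 10 13)))))))) (.c k32 (.l (.s k1 k2 0 (.s k33 k18 4 (.s k49 k17 3 (.s k169 k253 13
  (.s k101 k237 9 (.s k205 k153 13 (.d k69 k117 k137 3 9)))))))) .n))))) (.c k238 (.q k221 [(.s k16
  k32 3 (.s k17 k153 9 (.d k18 k19 k33 0 4))), (.s k1 k2 0 (.s k16 k32 3 (.s k18 k33 4 (.s k154 k223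
  10 (.s k86 k222 9 (.d k169 k253 k252 13 14)))))), (.s k1 k2 0 (.s k17 k153 9 (.s k49 k33 3 (.d k51
  k50 k34 0 4))))] (.c k33 (.l (.s k16 k32 3 (.s k17 k153 9 (.s k19 k18 0 (.d k51 k35 k34 3 4)))))
  .n)) .n)))

def s10_255_205 : T TT 256 :=
  (.q k17 [(.s k1 k2 0 (.s k51 k34 4 (.s k19 k35 3 (.s k18 k16 0 (.d k33 k49 k48 3 4))))), (.s k51
  k34 4 (.s k19 k35 3 (.s k153 k221 9 (.s k86 k220 10 (.s k84 k87 0 (.d k252 k168 k169 13 14)))))),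
  (.s k1 k2 0 (.s k33 k49 3 (.s k18 k48 4 (.s k16 k19 0 (.s k154 k223 10 (.s k86 k222 9 (.d k169
  k253 k252 13 14))))))), (.s k1 k2 0 (.s k33 k49 3 (.s k48 k18 4 (.s k16 k32 3 (.s k154 k223 10 (.s
  k169 k253 13 (.d k101 k237 k207 9 14)))))))] (.c k33 (.l (.s k1 k2 0 (.s k51 k34 4 (.s k35 k19 3
  (.s k169 k253 13 (.s k102 k236 10 (.d k153 k221 k204 9 14))))))) .n))

def s10_255_206 : T TT 256 :=
  (.q k17 [(.s k2 k1 0 (.s k34 k51 4 (.s k18 k50 3 (.s k16 k19 0 (.d k48 k32 k33 3 4))))), (.s k1 k2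
  0 (.s k49 k33 3 (.s k153 k221 9 (.s k101 k205 13 (.s k117 k69 3 (.d k253 k185 k169 9 13)))))), (.s
  k51 k34 4 (.s k19 k35 3 (.s k153 k221 9 (.s k86 k220 10 (.s k84 k87 0 (.d k252 k168 k169 13
  14))))))] (.c k33 (.l (.s k1 k2 0 (.s k51 k34 4 (.s k35 k19 3 (.s k153 k221 9 (.s k169 k253 13 (.d
  k102 k204 k236 14 10))))))) .n))

def s10_255_207 : T TT 256 :=
  (.q k195 [(.s k2 k1 0 (.s k131 k67 7 (.s k130 k65 8 (.s k129 k128 0 (.d k66 k194 k192 7 8))))),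
  (.s k1 k2 0 (.s k131 k67 7 (.s k169 k253 13 (.s k150 k188 6 (.s k20 k215 8 (.d k60 k40 k105 5
  14)))))), (.s k65 k130 8 (.s k67 k131 7 (.s k105 k125 5 (.s k86 k124 6 (.s k84 k87 0 (.d k252 k168
  k169 13 14)))))), (.s k1 k2 0 (.s k65 k130 8 (.s k105 k125 5 (.s k60 k150 14 (.s k41 k22 6 (.d
  k169 k233 k253 7 13))))))] (.c k223 (.q k239 [(.s k2 k1 0 (.s k131 k67 7 (.s k130 k65 8 (.s k129
  k128 0 (.d k66 k194 k192 7 8))))), (.s k1 k2 0 (.s k131 k67 7 (.s k169 k253 13 (.s k150 k188 6 (.s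
  k20 k215 8 (.d k60 k40 k105 5 14)))))), (.s k65 k130 8 (.s k67 k131 7 (.s k105 k125 5 (.s k86 k124
  6 (.s k84 k87 0 (.d k252 k168 k169 13 14)))))), (.s k1 k2 0 (.s k65 k130 8 (.s k105 k125 5 (.s k60
  k150 14 (.s k41 k22 6 (.d k169 k233 k253 7 13))))))] .n) (.c k239 (.q k223 [(.s k2 k1 0 (.s k131
  k67 7 (.s k130 k65 8 (.s k129 k128 0 (.d k66 k194 k192 7 8))))), (.s k16 k154 10 (.s k48 k32 3 (.s
  k130 k65 8 (.s k146 k97 12 (.s k81 k211 8 (.d k162 k178 k243 3 12)))))), (.s k1 k2 0 (.s k131 k67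
  7 (.s k169 k253 13 (.s k150 k188 6 (.s k20 k215 8 (.d k60 k40 k105 5 14))))))] .n) .n)))

def s10_255_208 : T TT 256 :=
  (.q k17 [(.s k2 k1 0 (.s k34 k51 4 (.s k18 k50 3 (.s k48 k33 4 (.d k16 k19 k32 0 3))))), (.s k1 k2
  0 (.s k49 k33 3 (.s k153 k221 9 (.s k101 k205 13 (.s k117 k69 3 (.d k253 k185 k169 9 13)))))), (.s
  k51 k34 4 (.s k19 k35 3 (.s k153 k221 9 (.s k86 k220 10 (.s k84 k87 0 (.d k252 k168 k169 13
  14))))))] (.c k33 (.l (.s k1 k2 0 (.s k51 k34 4 (.s k35 k19 3 (.s k153 k221 9 (.s k169 k253 13 (.d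
  k102 k204 k236 14 10))))))) .n))

def s10_255_209 : T TT 256 :=
  (.q k17 [(.s k2 k1 0 (.s k34 k51 4 (.s k18 k50 3 (.s k16 k19 0 (.d k48 k32 k33 3 4))))), (.s k1 k2
  0 (.s k49 k33 3 (.s k153 k221 9 (.s k101 k205 13 (.s k117 k69 3 (.d k253 k185 k169 9 13)))))), (.s
  k51 k34 4 (.s k19 k35 3 (.s k153 k221 9 (.s k86 k220 10 (.s k84 k87 0 (.d k252 k168 k169 13
  14))))))] (.c k33 (.l (.s k1 k2 0 (.s k51 k34 4 (.s k35 k19 3 (.s k153 k221 9 (.s k169 k253 13 (.d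
  k102 k204 k236 14 10))))))) .n))

def s10_255_210 : T TT 256 :=
  (.q k17 [(.s k2 k1 0 (.s k34 k51 4 (.s k18 k50 3 (.s k16 k19 0 (.d k48 k32 k33 3 4))))), (.s k1 k2
  0 (.s k49 k33 3 (.s k153 k221 9 (.s k101 k205 13 (.s k117 k69 3 (.d k253 k185 k169 9 13)))))), (.s
  k51 k34 4 (.s k19 k35 3 (.s k153 k221 9 (.s k86 k220 10 (.s k84 k87 0 (.d k252 k168 k169 13
  14))))))] (.c k33 (.l (.s k1 k2 0 (.s k51 k34 4 (.s k35 k19 3 (.s k153 k221 9 (.s k169 k253 13 (.d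
  k102 k204 k236 14 10))))))) .n))

def s10_255_211 : T TT 256 :=
  (.q k17 [(.s k2 k1 0 (.s k34 k51 4 (.s k18 k50 3 (.s k48 k33 4 (.d k16 k19 k32 0 3))))), (.s k1 k2
  0 (.s k49 k33 3 (.s k153 k221 9 (.s k101 k205 13 (.s k117 k69 3 (.d k253 k185 k169 9 13)))))), (.s
  k51 k34 4 (.s k19 k35 3 (.s k153 k221 9 (.s k86 k220 10 (.s k84 k87 0 (.d k252 k168 k169 13
  14))))))] (.c k33 (.l (.s k1 k2 0 (.s k51 k34 4 (.s k35 k19 3 (.s k153 k221 9 (.s k169 k253 13 (.d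
  k102 k204 k236 14 10))))))) .n))

def s10_255_212 : T TT 256 :=
  (.q k17 [(.s k2 k1 0 (.s k34 k51 4 (.s k18 k50 3 (.s k16 k19 0 (.d k48 k32 k33 3 4))))), (.s k1 k2
  0 (.s k49 k33 3 (.s k153 k221 9 (.s k101 k205 13 (.s k117 k69 3 (.d k253 k185 k169 9 13)))))), (.s
  k51 k34 4 (.s k19 k35 3 (.s k153 k221 9 (.s k86 k220 10 (.s k84 k87 0 (.d k252 k168 k169 13
  14))))))] (.c k33 (.l (.s k1 k2 0 (.s k51 k34 4 (.s k35 k19 3 (.s k153 k221 9 (.s k169 k253 13 (.d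
  k102 k204 k236 14 10))))))) .n))

def s10_255_213 : T TT 256 :=
  (.q k192 [(.s k2 k1 0 (.s k64 k128 7 (.s k66 k129 8 (.s k65 k67 0 (.d k130 k194 k195 7 8))))), (.s
  k1 k2 0 (.s k64 k128 7 (.s k106 k127 6 (.s k63 k149 14 (.s k43 k23 5 (.d k169 k232 k253 8
  13)))))), (.s k64 k128 7 (.s k66 k129 8 (.s k106 k127 6 (.s k86 k126 5 (.s k84 k87 0 (.d k252 k168
  k169 13 14)))))), (.s k1 k2 0 (.s k129 k66 8 (.s k169 k253 13 (.s k149 k189 5 (.s k63 k106 14 (.s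
  k23 k43 5 (.d k86 k252 k212 14 8)))))))] .n)

def s10_255_214 : T TT 256 :=
  (.q k17 [(.s k2 k1 0 (.s k34 k51 4 (.s k18 k50 3 (.s k16 k19 0 (.d k48 k32 k33 3 4))))), (.s k1 k2
  0 (.s k49 k33 3 (.s k153 k221 9 (.s k101 k205 13 (.s k117 k69 3 (.d k253 k185 k169 9 13)))))), (.s
  k51 k34 4 (.s k19 k35 3 (.s k153 k221 9 (.s k86 k220 10 (.s k84 k87 0 (.d k252 k168 k169 13
  14))))))] (.c k33 (.l (.s k1 k2 0 (.s k51 k34 4 (.s k35 k19 3 (.s k153 k221 9 (.s k169 k253 13 (.d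
  k102 k204 k236 14 10))))))) .n))

def s10_255_215 : T TT 256 :=
  (.q k195 [(.s k2 k1 0 (.s k131 k67 7 (.s k130 k65 8 (.s k129 k128 0 (.d k66 k194 k192 7 8))))),
  (.s k1 k2 0 (.s k131 k67 7 (.s k169 k253 13 (.s k150 k188 6 (.s k60 k105 14 (.s k22 k41 6 (.d k86
  k252 k214 14 7))))))), (.s k65 k130 8 (.s k67 k131 7 (.s k105 k125 5 (.s k86 k124 6 (.s k84 k87 0
  (.d k252 k168 k169 13 14)))))), (.s k1 k2 0 (.s k65 k130 8 (.s k105 k125 5 (.s k60 k150 14 (.s k41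
  k22 6 (.d k169 k233 k253 7 13))))))] .n)

def s10_255_216 : T TT 256 :=
  (.q k17 [(.s k2 k1 0 (.s k34 k51 4 (.s k18 k50 3 (.s k16 k19 0 (.d k48 k32 k33 3 4))))), (.s k1 k2
  0 (.s k49 k33 3 (.s k153 k221 9 (.s k101 k205 13 (.s k117 k69 3 (.d k253 k185 k169 9 13)))))), (.s
  k51 k34 4 (.s k19 k35 3 (.s k153 k221 9 (.s k86 k220 10 (.s k84 k87 0 (.d k252 k168 k169 13
  14))))))] (.c k33 (.l (.s k1 k2 0 (.s k51 k34 4 (.s k35 k19 3 (.s k153 k221 9 (.s k169 k253 13 (.d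
  k102 k204 k236 14 10))))))) .n))

def s10_255_217 : T TT 256 :=
  (.q k17 [(.s k2 k1 0 (.s k34 k51 4 (.s k18 k50 3 (.s k16 k19 0 (.d k48 k32 k33 3 4))))), (.s k1 k2
  0 (.s k49 k33 3 (.s k153 k221 9 (.s k101 k205 13 (.s k117 k69 3 (.d k253 k185 k169 9 13)))))), (.s
  k51 k34 4 (.s k19 k35 3 (.s k153 k221 9 (.s k86 k220 10 (.s k84 k87 0 (.d k252 k168 k169 13
  14))))))] (.c k33 (.l (.s k1 k2 0 (.s k51 k34 4 (.s k35 k19 3 (.s k153 k221 9 (.s k169 k253 13 (.d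
  k102 k204 k236 14 10))))))) .n))

def s10_255_218 : T TT 256 :=
  (.q k17 [(.s k2 k1 0 (.s k34 k51 4 (.s k18 k50 3 (.s k16 k19 0 (.d k48 k32 k33 3 4))))), (.s k1 k2
  0 (.s k49 k33 3 (.s k153 k221 9 (.s k101 k205 13 (.s k117 k69 3 (.d k253 k185 k169 9 13)))))), (.s
  k51 k34 4 (.s k19 k35 3 (.s k153 k221 9 (.s k86 k220 10 (.s k84 k87 0 (.d k252 k168 k169 13
  14))))))] (.c k33 (.l (.s k1 k2 0 (.s k51 k34 4 (.s k35 k19 3 (.s k153 k221 9 (.s k169 k253 13 (.d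
  k102 k204 k236 14 10))))))) .n))

def s10_255_219 : T TT 256 :=
  (.q k17 [(.s k2 k1 0 (.s k34 k51 4 (.s k18 k50 3 (.s k16 k19 0 (.d k48 k32 k33 3 4))))), (.s k1 k2
  0 (.s k49 k33 3 (.s k153 k221 9 (.s k101 k205 13 (.s k117 k69 3 (.d k253 k185 k169 9 13)))))), (.s
  k51 k34 4 (.s k19 k35 3 (.s k153 k221 9 (.s k86 k220 10 (.s k84 k87 0 (.d k252 k168 k169 13
  14))))))] (.c k33 (.l (.s k1 k2 0 (.s k51 k34 4 (.s k35 k19 3 (.s k153 k221 9 (.s k169 k253 13 (.d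
  k102 k204 k236 14 10))))))) .n))

def s10_255_220 : T TT 256 :=
  (.q k21 [(.s k2 k1 0 (.s k42 k63 6 (.s k22 k62 5 (.s k20 k23 0 (.d k60 k40 k41 5 6))))), (.s k1 k2
  0 (.s k61 k41 5 (.s k149 k213 7 (.s k105 k193 13 (.s k125 k65 5 (.d k253 k189 k169 7 13)))))), (.s
  k63 k42 6 (.s k23 k43 5 (.s k149 k213 7 (.s k86 k212 8 (.s k84 k87 0 (.d k252 k168 k169 13
  14))))))] (.c k41 (.l (.s k1 k2 0 (.s k63 k42 6 (.s k43 k23 5 (.s k149 k213 7 (.s k169 k253 13 (.d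
  k106 k192 k232 14 8))))))) .n))

def s10_255_221 : T TT 256 :=
  (.q k204 [(.s k2 k1 0 (.s k68 k136 9 (.s k70 k137 10 (.s k69 k71 0 (.d k138 k206 k207 9 10))))),
  (.s k1 k2 0 (.s k68 k136 9 (.s k102 k119 4 (.s k51 k153 14 (.s k35 k19 3 (.d k169 k236 k253 10
  13)))))), (.s k68 k136 9 (.s k70 k137 10 (.s k102 k119 4 (.s k86 k118 3 (.s k84 k87 0 (.d k252
  k168 k169 13 14)))))), (.s k1 k2 0 (.s k137 k70 10 (.s k169 k253 13 (.s k153 k185 3 (.s k51 k102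
  14 (.s k19 k35 3 (.d k86 k252 k220 14 10)))))))] .n)

def s10_255_222 : T TT 256 :=
  (.q k17 [(.s k2 k1 0 (.s k34 k51 4 (.s k18 k50 3 (.s k16 k19 0 (.d k48 k32 k33 3 4))))), (.s k1 k2
  0 (.s k49 k33 3 (.s k153 k221 9 (.s k101 k205 13 (.s k117 k69 3 (.d k253 k185 k169 9 13)))))), (.s
  k51 k34 4 (.s k19 k35 3 (.s k153 k221 9 (.s k204 k102 14 (.s k137 k70 10 (.s k169 k185 3 (.d k86
  k220 k252 10 14)))))))] (.c k33 (.l (.s k1 k2 0 (.s k51 k34 4 (.s k35 k19 3 (.s k153 k221 9 (.s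
  k169 k253 13 (.d k102 k204 k236 14 10))))))) .n))

def s10_255_223 : T TT 256 :=
  (.q k207 [(.s k2 k1 0 (.s k139 k71 9 (.s k138 k69 10 (.s k137 k136 0 (.d k70 k206 k204 9 10))))),
  (.s k1 k2 0 (.s k139 k71 9 (.s k169 k253 13 (.s k154 k184 4 (.s k48 k101 14 (.s k18 k33 4 (.d k86
  k252 k222 14 9))))))), (.s k69 k138 10 (.s k71 k139 9 (.s k101 k117 3 (.s k86 k116 4 (.s k84 k87 0
  (.d k252 k168 k169 13 14)))))), (.s k1 k2 0 (.s k69 k138 10 (.s k101 k117 3 (.s k48 k154 14 (.s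
  k33 k18 4 (.d k169 k237 k253 9 13))))))] .n)

def s10_255_224 : T TT 256 :=
  (.q k17 [(.s k2 k1 0 (.s k34 k51 4 (.s k18 k50 3 (.s k16 k19 0 (.d k48 k32 k33 3 4))))), (.s k1 k2
  0 (.s k49 k33 3 (.s k153 k221 9 (.s k101 k205 13 (.s k117 k69 3 (.d k253 k185 k169 9 13)))))), (.s
  k51 k34 4 (.s k19 k35 3 (.s k153 k221 9 (.s k86 k220 10 (.s k84 k87 0 (.d k252 k168 k169 13
  14))))))] (.c k33 (.l (.s k1 k2 0 (.s k51 k34 4 (.s k35 k19 3 (.s k153 k221 9 (.s k169 k253 13 (.d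
  k102 k204 k236 14 10))))))) .n))

def s10_255_225 : T TT 256 :=
  (.q k17 [(.s k2 k1 0 (.s k34 k51 4 (.s k18 k50 3 (.s k16 k19 0 (.d k48 k32 k33 3 4))))), (.s k1 k2
  0 (.s k49 k33 3 (.s k153 k221 9 (.s k101 k205 13 (.s k117 k69 3 (.d k253 k185 k169 9 13)))))), (.s
  k51 k34 4 (.s k19 k35 3 (.s k153 k221 9 (.s k86 k220 10 (.s k84 k87 0 (.d k252 k168 k169 13
  14))))))] (.c k33 (.l (.s k1 k2 0 (.s k51 k34 4 (.s k35 k19 3 (.s k153 k221 9 (.s k169 k253 13 (.d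
  k102 k204 k236 14 10))))))) .n))

def s10_255_226 : T TT 256 :=
  (.q k17 [(.s k2 k1 0 (.s k34 k51 4 (.s k18 k50 3 (.s k16 k19 0 (.d k48 k32 k33 3 4))))), (.s k1 k2
  0 (.s k49 k33 3 (.s k153 k221 9 (.s k101 k205 13 (.s k117 k69 3 (.d k253 k185 k169 9 13)))))), (.s
  k51 k34 4 (.s k19 k35 3 (.s k153 k221 9 (.s k86 k220 10 (.s k84 k87 0 (.d k252 k168 k169 13
  14))))))] (.c k33 (.l (.s k1 k2 0 (.s k51 k34 4 (.s k35 k19 3 (.s k153 k221 9 (.s k169 k253 13 (.d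
  k102 k204 k236 14 10))))))) .n))

def s10_255_227 : T TT 256 :=
  (.q k17 [(.s k2 k1 0 (.s k34 k51 4 (.s k18 k50 3 (.s k16 k19 0 (.d k48 k32 k33 3 4))))), (.s k1 k2
  0 (.s k49 k33 3 (.s k153 k221 9 (.s k101 k205 13 (.s k117 k69 3 (.d k253 k185 k169 9 13)))))), (.s
  k51 k34 4 (.s k19 k35 3 (.s k153 k221 9 (.s k86 k220 10 (.s k84 k87 0 (.d k252 k168 k169 13
  14))))))] (.c k33 (.l (.s k1 k2 0 (.s k51 k34 4 (.s k35 k19 3 (.s k153 k221 9 (.s k169 k253 13 (.d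
  k102 k204 k236 14 10))))))) .n))

def s10_255_228 : T TT 256 :=
  (.q k17 [(.s k2 k1 0 (.s k34 k51 4 (.s k18 k50 3 (.s k16 k19 0 (.d k48 k32 k33 3 4))))), (.s k1 k2
  0 (.s k49 k33 3 (.s k153 k221 9 (.s k101 k205 13 (.s k117 k69 3 (.d k253 k185 k169 9 13)))))), (.s
  k51 k34 4 (.s k19 k35 3 (.s k153 k221 9 (.s k86 k220 10 (.s k84 k87 0 (.d k252 k168 k169 13
  14))))))] (.c k33 (.l (.s k1 k2 0 (.s k51 k34 4 (.s k35 k19 3 (.s k153 k221 9 (.s k169 k253 13 (.d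
  k102 k204 k236 14 10))))))) .n))

def s10_255_229 : T TT 256 :=
  (.q k17 [(.s k2 k1 0 (.s k34 k51 4 (.s k18 k50 3 (.s k16 k19 0 (.d k48 k32 k33 3 4))))), (.s k1 k2
  0 (.s k49 k33 3 (.s k153 k221 9 (.s k101 k205 13 (.s k117 k69 3 (.d k253 k185 k169 9 13)))))), (.s
  k51 k34 4 (.s k19 k35 3 (.s k153 k221 9 (.s k86 k220 10 (.s k84 k87 0 (.d k252 k168 k169 13
  14))))))] (.c k33 (.l (.s k1 k2 0 (.s k51 k34 4 (.s k35 k19 3 (.s k153 k221 9 (.s k169 k253 13 (.d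
  k102 k204 k236 14 10))))))) .n))

def s10_255_230 : T TT 256 :=
  (.q k17 [(.s k2 k1 0 (.s k34 k51 4 (.s k18 k50 3 (.s k16 k19 0 (.d k48 k32 k33 3 4))))), (.s k1 k2
  0 (.s k49 k33 3 (.s k153 k221 9 (.s k101 k205 13 (.s k117 k69 3 (.d k253 k185 k169 9 13)))))), (.s
  k51 k34 4 (.s k19 k35 3 (.s k153 k221 9 (.s k86 k220 10 (.s k84 k87 0 (.d k252 k168 k169 13
  14))))))] (.c k33 (.l (.s k1 k2 0 (.s k51 k34 4 (.s k35 k19 3 (.s k153 k221 9 (.s k169 k253 13 (.d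
  k102 k204 k236 14 10))))))) .n))

def s10_255_231 : T TT 256 :=
  (.q k17 [(.s k2 k1 0 (.s k34 k51 4 (.s k18 k50 3 (.s k16 k19 0 (.d k48 k32 k33 3 4))))), (.s k1 k2
  0 (.s k49 k33 3 (.s k153 k221 9 (.s k101 k205 13 (.s k117 k69 3 (.d k253 k185 k169 9 13)))))), (.s
  k51 k34 4 (.s k19 k35 3 (.s k153 k221 9 (.s k86 k220 10 (.s k84 k87 0 (.d k252 k168 k169 13
  14))))))] (.c k33 (.l (.s k1 k2 0 (.s k51 k34 4 (.s k35 k19 3 (.s k153 k221 9 (.s k169 k253 13 (.d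
  k102 k204 k236 14 10))))))) .n))

def s10_255_232 : T TT 256 :=
  (.q k17 [(.s k2 k1 0 (.s k34 k51 4 (.s k18 k50 3 (.s k16 k19 0 (.d k48 k32 k33 3 4))))), (.s k1 k2
  0 (.s k49 k33 3 (.s k153 k221 9 (.s k101 k205 13 (.s k117 k69 3 (.d k253 k185 k169 9 13)))))), (.s
  k51 k34 4 (.s k19 k35 3 (.s k153 k221 9 (.s k86 k220 10 (.s k84 k87 0 (.d k252 k168 k169 13
  14))))))] (.c k33 (.l (.s k1 k2 0 (.s k51 k34 4 (.s k35 k19 3 (.s k153 k221 9 (.s k169 k253 13 (.d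
  k102 k204 k236 14 10))))))) .n))

def s10_255_233 : T TT 256 :=
  (.q k17 [(.s k2 k1 0 (.s k34 k51 4 (.s k18 k50 3 (.s k16 k19 0 (.d k48 k32 k33 3 4))))), (.s k1 k2
  0 (.s k49 k33 3 (.s k153 k221 9 (.s k101 k205 13 (.s k117 k69 3 (.d k253 k185 k169 9 13)))))), (.s
  k51 k34 4 (.s k19 k35 3 (.s k153 k221 9 (.s k86 k220 10 (.s k84 k87 0 (.d k252 k168 k169 13
  14))))))] (.c k33 (.l (.s k1 k2 0 (.s k51 k34 4 (.s k35 k19 3 (.s k153 k221 9 (.s k169 k253 13 (.d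
  k102 k204 k236 14 10))))))) .n))

def s10_255_234 : T TT 256 :=
  (.q k192 [(.s k2 k1 0 (.s k64 k128 7 (.s k66 k129 8 (.s k65 k67 0 (.d k130 k194 k195 7 8))))), (.s
  k1 k2 0 (.s k64 k128 7 (.s k106 k127 6 (.s k63 k149 14 (.s k43 k23 5 (.d k169 k232 k253 8
  13)))))), (.s k64 k128 7 (.s k66 k129 8 (.s k106 k127 6 (.s k86 k126 5 (.s k84 k87 0 (.d k252 k168
  k169 13 14)))))), (.s k1 k2 0 (.s k129 k66 8 (.s k169 k253 13 (.s k149 k189 5 (.s k21 k213 7 (.d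
  k63 k42 k106 6 14))))))] .n)

def s10_255_235 : T TT 256 :=
  (.q k195 [(.s k2 k1 0 (.s k131 k67 7 (.s k130 k65 8 (.s k129 k128 0 (.d k66 k194 k192 7 8))))),
  (.s k1 k2 0 (.s k131 k67 7 (.s k169 k253 13 (.s k150 k188 6 (.s k20 k215 8 (.d k60 k40 k105 5
  14)))))), (.s k65 k130 8 (.s k67 k131 7 (.s k105 k125 5 (.s k86 k124 6 (.s k84 k87 0 (.d k252 k168
  k169 13 14)))))), (.s k1 k2 0 (.s k65 k130 8 (.s k105 k125 5 (.s k60 k150 14 (.s k41 k22 6 (.d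
  k169 k233 k253 7 13))))))] .n)

def s10_255_236 : T TT 256 :=
  (.q k17 [(.s k2 k1 0 (.s k34 k51 4 (.s k18 k50 3 (.s k16 k19 0 (.d k48 k32 k33 3 4))))), (.s k1 k2
  0 (.s k49 k33 3 (.s k153 k221 9 (.s k101 k205 13 (.s k117 k69 3 (.d k253 k185 k169 9 13)))))), (.s
  k51 k34 4 (.s k19 k35 3 (.s k153 k221 9 (.s k86 k220 10 (.s k84 k87 0 (.d k252 k169 k168 14
  13))))))] (.c k33 (.l (.s k1 k2 0 (.s k51 k34 4 (.s k153 k221 9 (.s k169 k253 13 (.s k137 k185 3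
  (.d k204 k70 k102 10 14))))))) .n))

def s10_255_237 : T TT 256 :=
  (.q k17 [(.s k2 k1 0 (.s k34 k51 4 (.s k18 k50 3 (.s k16 k19 0 (.d k48 k32 k33 3 4))))), (.s k1 k2
  0 (.s k49 k33 3 (.s k153 k221 9 (.s k101 k205 13 (.s k253 k169 13 (.d k117 k69 k185 3 9)))))), (.s
  k51 k34 4 (.s k19 k35 3 (.s k153 k221 9 (.s k86 k220 10 (.s k84 k87 0 (.d k252 k168 k169 13
  14))))))] (.c k33 (.l (.s k1 k2 0 (.s k51 k34 4 (.s k35 k19 3 (.s k169 k253 13 (.s k102 k236 10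
  (.d k153 k221 k204 9 14))))))) .n))

def s10_255_238 : T TT 256 :=
  (.q k204 [(.s k2 k1 0 (.s k68 k136 9 (.s k70 k137 10 (.s k69 k71 0 (.d k138 k206 k207 9 10))))),
  (.s k1 k2 0 (.s k68 k136 9 (.s k102 k119 4 (.s k51 k153 14 (.s k35 k19 3 (.d k169 k236 k253 10
  13)))))), (.s k68 k136 9 (.s k70 k137 10 (.s k102 k119 4 (.s k86 k118 3 (.s k84 k87 0 (.d k252
  k168 k169 13 14)))))), (.s k1 k2 0 (.s k137 k70 10 (.s k169 k253 13 (.s k153 k185 3 (.s k17 k221 9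
  (.d k51 k34 k102 4 14))))))] .n)

def s10_255_239 : T TT 256 :=
  (.q k207 [(.s k2 k1 0 (.s k139 k71 9 (.s k138 k69 10 (.s k137 k136 0 (.d k70 k206 k204 9 10))))),
  (.s k1 k2 0 (.s k139 k71 9 (.s k169 k253 13 (.s k154 k184 4 (.s k16 k223 10 (.d k48 k32 k101 3
  14)))))), (.s k69 k138 10 (.s k71 k139 9 (.s k101 k117 3 (.s k86 k116 4 (.s k84 k87 0 (.d k252
  k168 k169 13 14)))))), (.s k1 k2 0 (.s k69 k138 10 (.s k101 k117 3 (.s k48 k154 14 (.s k33 k18 4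
  (.d k169 k237 k253 9 13))))))] .n)

def s10_255_240 : T TT 256 :=
  (.q k48 [(.s k2 k1 0 (.s k16 k32 3 (.s k18 k33 4 (.s k17 k19 0 (.d k34 k50 k51 3 4))))), (.s k1 k2
  0 (.s k16 k32 3 (.s k154 k223 10 (.s k169 k253 13 (.s k139 k184 4 (.d k207 k71 k101 9 14)))))),
  (.s k16 k32 3 (.s k18 k33 4 (.s k154 k223 10 (.s k86 k222 9 (.s k84 k87 0 (.d k252 k168 k169 13
  14)))))), (.s k1 k2 0 (.s k33 k18 4 (.s k169 k253 13 (.s k101 k237 9 (.s k69 k117 3 (.d k207 k138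
  k154 10 14))))))] (.c k245 (.q k250 [(.s k2 k1 0 (.s k16 k32 3 (.s k18 k33 4 (.s k17 k19 0 (.d k34
  k50 k51 3 4))))), (.s k1 k2 0 (.s k16 k32 3 (.s k154 k223 10 (.s k169 k253 13 (.s k139 k184 4 (.d
  k207 k71 k101 9 14)))))), (.s k16 k32 3 (.s k18 k33 4 (.s k154 k223 10 (.s k86 k222 9 (.s k84 k87
  0 (.d k252 k168 k169 13 14)))))), (.s k1 k2 0 (.s k33 k18 4 (.s k169 k253 13 (.s k101 k237 9 (.s
  k69 k117 3 (.d k207 k138 k154 10 14))))))] .n) (.c k250 (.q k245 [(.s k2 k1 0 (.s k16 k32 3 (.s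
  k18 k33 4 (.s k17 k19 0 (.d k34 k50 k51 3 4))))), (.s k1 k2 0 (.s k16 k32 3 (.s k154 k223 10 (.s
  k169 k253 13 (.s k139 k184 4 (.d k207 k71 k101 9 14)))))), (.s k16 k32 3 (.s k18 k33 4 (.s k154
  k223 10 (.s k86 k222 9 (.s k84 k87 0 (.d k252 k168 k169 13 14)))))), (.s k1 k2 0 (.s k33 k18 4 (.s
  k169 k253 13 (.s k101 k237 9 (.s k69 k117 3 (.d k207 k138 k154 10 14))))))] (.c k90 (.q k170 [(.s
  k1 k2 0 (.s k169 k253 13 (.s k168 k171 0 (.d k252 k84 k86 13 14)))), (.s k16 k32 3 (.s k154 k223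
  10 (.s k138 k186 3 (.d k207 k69 k101 10 14))))] (.c k15 (.l (.s k165 k5 11 (.s k1 k2 0 (.s k169
  k253 13 (.s k168 k171 0 (.d k252 k84 k86 13 14)))))) (.c k165 (.q k15 [(.s k1 k2 0 (.s k169 k253
  13 (.s k168 k171 0 (.d k252 k84 k86 13 14)))), (.s k16 k32 3 (.s k154 k223 10 (.s k138 k186 3 (.d
  k207 k69 k101 10 14))))] .n) .n))) (.c k170 (.q k90 [(.s k2 k1 0 (.s k16 k32 3 (.s k18 k33 4 (.s
  k17 k19 0 (.d k34 k50 k51 3 4))))), (.s k5 k165 11 (.s k16 k32 3 (.s k154 k223 10 (.s k26 k218 7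
  (.s k21 k31 2 (.d k37 k53 k15 3 6)))))), (.s k1 k2 0 (.s k33 k18 4 (.s k169 k253 13 (.s k101 k237
  9 (.s k69 k117 3 (.d k207 k138 k154 10 14))))))] (.c k101 (.l (.s k1 k2 0 (.s k32 k16 3 (.s k33
  k18 4 (.s k17 k49 3 (.d k34 k35 k51 0 4)))))) .n)) .n))) .n)))

def s10_255_241 : T TT 256 :=
  (.q k17 [(.s k1 k2 0 (.s k51 k34 4 (.s k19 k35 3 (.s k18 k16 0 (.d k33 k49 k48 3 4))))), (.s k51
  k34 4 (.s k19 k35 3 (.s k153 k221 9 (.s k86 k220 10 (.s k84 k87 0 (.d k252 k168 k169 13 14)))))),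
  (.s k1 k2 0 (.s k49 k33 3 (.s k153 k221 9 (.s k101 k205 13 (.s k117 k69 3 (.d k253 k185 k169 9
  13))))))] (.c k33 (.l (.s k1 k2 0 (.s k51 k34 4 (.s k35 k19 3 (.s k153 k221 9 (.s k169 k253 13 (.d
  k102 k204 k236 14 10))))))) .n))

def s10_255_242 : T TT 256 :=
  (.q k17 [(.s k2 k1 0 (.s k34 k51 4 (.s k18 k50 3 (.s k16 k19 0 (.d k48 k32 k33 3 4))))), (.s k1 k2
  0 (.s k49 k33 3 (.s k153 k221 9 (.s k101 k205 13 (.s k117 k69 3 (.d k253 k185 k169 9 13)))))), (.s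
  k51 k34 4 (.s k19 k35 3 (.s k153 k221 9 (.s k86 k220 10 (.s k84 k87 0 (.d k252 k168 k169 13
  14))))))] (.c k33 (.l (.s k1 k2 0 (.s k51 k34 4 (.s k35 k19 3 (.s k153 k221 9 (.s k169 k253 13 (.d
  k102 k204 k236 14 10))))))) .n))

def s10_255_243 : T TT 256 :=
  (.q k105 [(.s k1 k2 0 (.s k125 k65 5 (.s k253 k169 13 (.s k61 k189 7 (.s k21 k41 5 (.d k149 k213
  k193 7 13)))))), (.s k65 k125 5 (.s k195 k130 8 (.s k67 k131 7 (.s k86 k124 6 (.s k84 k87 0 (.d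
  k252 k168 k169 13 14)))))), (.s k1 k2 0 (.s k169 k253 13 (.s k41 k233 7 (.s k60 k22 6 (.s k20 k40
  5 (.d k150 k215 k195 8 14))))))] (.c k169 (.l (.s k1 k2 0 (.s k65 k125 5 (.s k129 k193 7 (.s k66
  k192 8 (.s k67 k64 0 (.d k195 k131 k130 7 8))))))) (.c k247 (.q k251 [(.s k1 k2 0 (.s k125 k65 5
  (.s k253 k169 13 (.s k61 k189 7 (.s k21 k41 5 (.d k149 k213 k193 7 13)))))), (.s k65 k125 5 (.s
  k195 k130 8 (.s k67 k131 7 (.s k86 k124 6 (.s k84 k87 0 (.d k252 k168 k169 13 14)))))), (.s k1 k2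
  0 (.s k169 k253 13 (.s k41 k233 7 (.s k60 k22 6 (.s k20 k40 5 (.d k150 k215 k195 8 14))))))] (.c
  k169 (.l (.s k1 k2 0 (.s k65 k125 5 (.s k129 k193 7 (.s k66 k192 8 (.s k67 k64 0 (.d k195 k131
  k130 7 8))))))) .n)) (.c k251 (.q k247 [(.s k1 k2 0 (.s k125 k65 5 (.s k253 k169 13 (.s k61 k189 7
  (.s k21 k41 5 (.d k149 k213 k193 7 13)))))), (.s k65 k125 5 (.s k195 k130 8 (.s k67 k131 7 (.s k86
  k124 6 (.s k84 k87 0 (.d k252 k168 k169 13 14)))))), (.s k1 k2 0 (.s k169 k253 13 (.s k41 k233 7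
  (.s k60 k22 6 (.s k20 k40 5 (.d k150 k215 k195 8 14))))))] (.c k169 (.l (.s k1 k2 0 (.s k65 k125 5
  (.s k129 k193 7 (.s k66 k192 8 (.s k67 k64 0 (.d k195 k131 k130 7 8))))))) .n)) .n))))

def s10_255_244 : T TT 256 :=
  (.q k17 [(.s k2 k1 0 (.s k34 k51 4 (.s k18 k50 3 (.s k16 k19 0 (.d k48 k32 k33 3 4))))), (.s k1 k2
  0 (.s k49 k33 3 (.s k153 k221 9 (.s k101 k205 13 (.s k117 k69 3 (.d k253 k185 k169 9 13)))))), (.s
  k51 k34 4 (.s k19 k35 3 (.s k153 k221 9 (.s k86 k220 10 (.s k84 k87 0 (.d k252 k168 k169 13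
  14))))))] (.c k33 (.l (.s k1 k2 0 (.s k51 k34 4 (.s k35 k19 3 (.s k153 k221 9 (.s k169 k253 13 (.d
  k102 k204 k236 14 10))))))) .n))

def s10_255_245 : T TT 256 :=
  (.q k240 [(.s k2 k1 0 (.s k80 k160 11 (.s k82 k161 12 (.s k81 k83 0 (.d k162 k242 k243 11 12))))),
  (.s k1 k2 0 (.s k80 k160 11 (.s k90 k95 2 (.s k15 k165 14 (.s k11 k7 1 (.d k169 k248 k253 12
  13)))))), (.s k80 k160 11 (.s k82 k161 12 (.s k90 k95 2 (.s k86 k94 1 (.s k84 k87 0 (.d k252 k168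
  k169 13 14)))))), (.s k1 k2 0 (.s k161 k82 12 (.s k169 k253 13 (.s k165 k173 1 (.s k15 k90 14 (.s
  k7 k11 1 (.d k86 k252 k244 14 12)))))))] .n)

def s10_255_246 : T TT 256 :=
  (.q k17 [(.s k2 k1 0 (.s k34 k51 4 (.s k18 k50 3 (.s k16 k19 0 (.d k48 k32 k33 3 4))))), (.s k1 k2
  0 (.s k49 k33 3 (.s k153 k221 9 (.s k101 k205 13 (.s k117 k69 3 (.d k253 k185 k169 9 13)))))), (.s
  k51 k34 4 (.s k19 k35 3 (.s k153 k221 9 (.s k86 k220 10 (.s k84 k87 0 (.d k252 k168 k169 13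
  14))))))] (.c k33 (.l (.s k1 k2 0 (.s k51 k34 4 (.s k35 k19 3 (.s k153 k221 9 (.s k169 k253 13 (.d
  k102 k204 k236 14 10))))))) .n))

def s10_255_247 : T TT 256 :=
  (.q k243 [(.s k2 k1 0 (.s k163 k83 11 (.s k162 k81 12 (.s k161 k160 0 (.d k82 k242 k240 11
  12))))), (.s k1 k2 0 (.s k163 k83 11 (.s k169 k253 13 (.s k166 k172 2 (.s k12 k89 14 (.s k6 k9 2
  (.d k86 k252 k246 14 11))))))), (.s k81 k162 12 (.s k83 k163 11 (.s k89 k93 1 (.s k86 k92 2 (.s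
  k84 k87 0 (.d k252 k168 k169 13 14)))))), (.s k1 k2 0 (.s k81 k162 12 (.s k89 k93 1 (.s k12 k166
  14 (.s k169 k253 13 (.d k9 k6 k249 2 11))))))] .n)

def s10_255_248 : T TT 256 :=
  (.q k17 [(.s k2 k1 0 (.s k34 k51 4 (.s k18 k50 3 (.s k16 k19 0 (.d k48 k32 k33 3 4))))), (.s k1 k2
  0 (.s k49 k33 3 (.s k153 k221 9 (.s k101 k205 13 (.s k117 k69 3 (.d k253 k185 k169 9 13)))))), (.s
  k51 k34 4 (.s k19 k35 3 (.s k153 k221 9 (.s k86 k220 10 (.s k84 k87 0 (.d k252 k168 k169 13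
  14))))))] (.c k33 (.l (.s k1 k2 0 (.s k51 k34 4 (.s k35 k19 3 (.s k153 k221 9 (.s k169 k253 13 (.d
  k102 k204 k236 14 10))))))) .n))

def s10_255_249 : T TT 256 :=
  (.q k17 [(.s k2 k1 0 (.s k34 k51 4 (.s k18 k50 3 (.s k16 k19 0 (.d k48 k32 k33 3 4))))), (.s k1 k2
  0 (.s k49 k33 3 (.s k153 k221 9 (.s k101 k205 13 (.s k117 k69 3 (.d k253 k185 k169 9 13)))))), (.s
  k51 k34 4 (.s k19 k35 3 (.s k153 k221 9 (.s k86 k220 10 (.s k84 k87 0 (.d k252 k168 k169 13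
  14))))))] (.c k33 (.l (.s k1 k2 0 (.s k51 k34 4 (.s k35 k19 3 (.s k153 k221 9 (.s k169 k253 13 (.d
  k102 k204 k236 14 10))))))) .n))

def s10_255_250 : T TT 256 :=
  (.q k240 [(.s k2 k1 0 (.s k80 k160 11 (.s k82 k161 12 (.s k81 k83 0 (.d k162 k242 k243 11 12))))),
  (.s k1 k2 0 (.s k80 k160 11 (.s k90 k95 2 (.s k15 k165 14 (.s k11 k7 1 (.d k169 k248 k253 12
  13)))))), (.s k80 k160 11 (.s k82 k161 12 (.s k90 k95 2 (.s k86 k94 1 (.s k84 k87 0 (.d k252 k168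
  k169 13 14)))))), (.s k1 k2 0 (.s k161 k82 12 (.s k169 k253 13 (.s k165 k173 1 (.s k5 k245 11 (.s
  k13 k9 1 (.d k241 k81 k89 11 13)))))))] (.c k90 (.q k170 [(.s k1 k2 0 (.s k169 k253 13 (.s k168
  k171 0 (.d k252 k84 k86 13 14)))), (.s k1 k2 0 (.s k160 k80 11 (.s k161 k82 12 (.s k81 k241 11 (.d
  k162 k163 k243 0 12))))), (.s k160 k80 11 (.s k161 k82 12 (.s k165 k175 2 (.s k169 k173 1 (.s k168
  k171 0 (.d k252 k86 k84 14 13))))))] (.c k86 (.l (.s k1 k2 0 (.s k160 k80 11 (.s k165 k175 2 (.s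
  k169 k253 13 (.d k161 k173 k82 1 12)))))) .n)) (.c k170 (.q k90 [(.d k80 k95 k160 2 11), (.s k1 k2
  0 (.s k82 k161 12 (.s k86 k94 1 (.d k169 k253 k252 13 14))))] .n) .n)))

def s10_255_251 : T TT 256 :=
  (.q k243 [(.s k2 k1 0 (.s k163 k83 11 (.s k162 k81 12 (.s k161 k160 0 (.d k82 k242 k240 11
  12))))), (.s k1 k2 0 (.s k163 k83 11 (.s k169 k253 13 (.s k166 k172 2 (.s k4 k247 12 (.d k12 k8
  k89 1 14)))))), (.s k81 k162 12 (.s k83 k163 11 (.s k89 k93 1 (.s k86 k92 2 (.s k84 k87 0 (.d k252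
  k168 k169 13 14)))))), (.s k1 k2 0 (.s k81 k162 12 (.s k89 k93 1 (.s k12 k166 14 (.s k169 k253 13
  (.d k9 k6 k249 2 11))))))] .n)

def s10_255_252 : T TT 256 :=
  (.f k1 k2 0 (.f k253 k169 13 (.q k65 [(.s k105 k125 5 (.s k193 k129 7 (.s k149 k61 13 (.d k213
  k233 k21 5 7)))), (.s k129 k193 7 (.s k66 k192 8 (.s k67 k64 0 (.d k195 k131 k130 7 8)))), (.s
  k105 k125 5 (.s k195 k130 8 (.s k60 k150 14 (.s k40 k20 5 (.s k41 k22 6 (.s k21 k61 5 (.d k42 k43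
  k63 0 6)))))))] (.c k6 (.q k14 [(.s k105 k125 5 (.s k193 k129 7 (.s k149 k61 13 (.d k213 k233 k21
  5 7)))), (.s k129 k193 7 (.s k66 k192 8 (.s k67 k64 0 (.d k195 k131 k130 7 8)))), (.s k105 k125 5
  (.s k195 k130 8 (.s k60 k150 14 (.s k40 k20 5 (.s k41 k22 6 (.s k21 k61 5 (.d k42 k43 k63 0
  6)))))))] .n) (.c k14 (.q k6 [(.s k105 k125 5 (.s k193 k129 7 (.s k149 k61 13 (.d k213 k233 k21 5
  7)))), (.s k12 k9 2 (.s k8 k4 1 (.s k195 k130 8 (.s k73 k134 10 (.s k69 k77 1 (.d k138 k203 k207 8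
  10))))))] .n) .n)))))

def s10_255_253 : T TT 256 :=
  (.f k2 k1 0 (.q k17 [(.s k34 k51 4 (.s k18 k50 3 (.s k16 k19 0 (.d k48 k32 k33 3 4)))), (.s k51
  k34 4 (.s k153 k221 9 (.s k204 k102 14 (.s k68 k136 9 (.s k70 k137 10 (.s k69 k71 0 (.d k138 k206
  k207 9 10)))))))] (.c k34 (.q k86 [(.s k84 k87 0 (.d k252 k168 k169 13 14)), (.s k153 k221 9 (.s
  k19 k220 10 (.s k51 k35 3 (.s k204 k102 14 (.s k136 k68 9 (.d k170 k254 k187 13 4))))))] (.c k169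
  (.l (.s k87 k84 0 (.s k153 k221 9 (.s k19 k220 10 (.s k16 k18 0 (.d k223 k155 k154 9 10)))))) (.c
  k252 (.l (.s k254 k170 13 (.s k87 k84 0 (.s k153 k221 9 (.s k19 k220 10 (.s k16 k18 0 (.d k223
  k155 k154 9 10))))))) (.c k254 (.l (.s k252 k169 14 (.d k84 k87 k168 0 13))) .n)))) (.c k51 (.q
  k86 [(.s k84 k87 0 (.d k252 k168 k169 13 14)), (.s k153 k221 9 (.s k170 k254 13 (.s k252 k169 14
  (.s k220 k19 10 (.s k204 k236 3 (.d k136 k187 k68 4 9))))))] (.c k119 (.q k187 [(.s k252 k169 14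
  (.d k84 k87 k168 0 13)), (.s k153 k221 9 (.d k170 k254 k136 13 4))] (.c k252 (.l (.s k254 k170 13
  (.s k87 k84 0 (.s k153 k221 9 (.s k19 k220 10 (.s k16 k18 0 (.d k223 k155 k154 9 10))))))) (.c
  k254 (.l (.s k252 k169 14 (.d k84 k87 k168 0 13))) .n))) (.c k169 (.l (.s k87 k84 0 (.s k153 k221
  9 (.s k19 k220 10 (.s k16 k18 0 (.d k223 k155 k154 9 10)))))) (.c k187 (.q k119 [(.s k84 k87 0 (.d
  k252 k168 k169 13 14)), (.s k68 k102 4 (.s k153 k221 9 (.s k204 k136 9 (.s k137 k70 10 (.d k169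
  k252 k185 14 3)))))] (.c k169 (.l (.s k68 k102 4 (.s k84 k87 0 (.s k116 k100 3 (.s k101 k71 4 (.d
  k117 k118 k69 0 3)))))) (.c k252 (.l (.s k254 k170 13 (.s k68 k102 4 (.s k84 k87 0 (.s k116 k100 3
  (.s k101 k71 4 (.d k117 k118 k69 0 3))))))) (.c k254 (.l (.s k252 k169 14 (.d k84 k87 k168 0 13)))
  .n)))) (.c k252 (.l (.s k254 k170 13 (.s k87 k84 0 (.s k153 k221 9 (.s k19 k220 10 (.s k16 k18 0
  (.d k223 k155 k154 9 10))))))) (.c k254 (.l (.s k252 k169 14 (.d k84 k87 k168 0 13))) .n)))))) (.c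
  k252 (.q k254 [(.s k34 k51 4 (.s k18 k50 3 (.s k16 k19 0 (.d k48 k32 k33 3 4)))), (.s k51 k34 4
  (.s k153 k221 9 (.s k170 k86 13 (.s k136 k187 4 (.d k204 k68 k102 9 14))))), (.s k86 k170 13 (.s
  k87 k84 0 (.s k153 k221 9 (.s k19 k220 10 (.s k16 k18 0 (.d k223 k155 k154 9 10))))))] .n) (.c
  k254 (.q k252 [(.s k84 k168 13 (.d k86 k87 k169 0 14)), (.s k34 k51 4 (.s k18 k50 3 (.s k16 k19 0
  (.d k48 k32 k33 3 4))))] .n) .n))))))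

def s10_255_254 : T TT 256 :=
  (.q k252 [(.s k84 k168 13 (.d k86 k87 k169 0 14)), (.s k1 k2 0 (.d k169 k86 k253 14 13))] (.c k86
  (.f k2 k1 0 (.q k4 [(.s k12 k8 1 (.s k166 k247 12 (.s k172 k92 11 (.s k163 k169 2 (.d k243 k83 k89
  11 14))))), (.s k12 k8 1 (.s k84 k168 13 (.s k92 k172 11 (.s k88 k80 1 (.d k164 k244 k240 11
  13))))), (.s k84 k168 13 (.s k244 k164 11 (.s k240 k248 1 (.s k82 k161 12 (.s k162 k242 11 (.s k81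
  k243 12 (.d k80 k160 k83 11 0)))))))] (.c k8 (.f k84 k168 13 (.l (.s k244 k164 11 (.s k247 k166 12
  (.s k246 k245 0 (.s k243 k249 2 (.s k162 k81 12 (.s k82 k242 11 (.d k240 k161 k248 12 1)))))))))
  (.c k172 (.l (.s k12 k8 1 (.s k166 k247 12 (.s k243 k89 14 (.s k162 k81 12 (.s k82 k242 11 (.s
  k161 k240 12 (.d k163 k83 k160 11 0)))))))) .n)))) (.c k169 (.q k16 [(.s k2 k1 0 (.s k48 k32 3 (.s
  k18 k33 4 (.s k17 k19 0 (.d k34 k50 k51 3 4))))), (.s k48 k32 3 (.s k84 k168 13 (.s k116 k184 9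
  (.s k100 k68 3 (.d k152 k220 k204 9 13))))), (.s k84 k168 13 (.s k86 k87 0 (.s k154 k223 10 (.s
  k18 k222 9 (.s k19 k17 0 (.d k220 k152 k153 9 10))))))] .n) .n)))

def t10_255 : T TT 256 :=
  (.q k3 [] (.c k1 s10_255_1 (.c k2 s10_255_2 (.c k4 s10_255_4 (.c k5 s10_255_5 (.c k6 s10_255_6 (.c
  k7 s10_255_7 (.c k8 s10_255_8 (.c k9 s10_255_9 (.c k11 s10_255_11 (.c k12 s10_255_12 (.c k13
  s10_255_13 (.c k14 s10_255_14 (.c k15 s10_255_15 (.c k16 s10_255_16 (.c k17 s10_255_17 (.c k18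
  s10_255_18 (.c k19 s10_255_19 (.c k20 s10_255_20 (.c k21 s10_255_21 (.c k22 s10_255_22 (.c k23
  s10_255_23 (.c k24 s10_255_24 (.c k25 s10_255_25 (.c k26 s10_255_26 (.c k27 s10_255_27 (.c k28
  s10_255_28 (.c k29 s10_255_29 (.c k30 s10_255_30 (.c k31 s10_255_31 (.c k32 s10_255_32 (.c k33
  s10_255_33 (.c k34 s10_255_34 (.c k35 s10_255_35 (.c k36 s10_255_36 (.c k37 s10_255_37 (.c k38
  s10_255_38 (.c k39 s10_255_39 (.c k40 s10_255_40 (.c k41 s10_255_41 (.c k42 s10_255_42 (.c k43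
  s10_255_43 (.c k44 s10_255_44 (.c k45 s10_255_45 (.c k46 s10_255_46 (.c k47 s10_255_47 (.c k48
  s10_255_48 (.c k49 s10_255_49 (.c k50 s10_255_50 (.c k51 s10_255_51 (.c k52 s10_255_52 (.c k53
  s10_255_53 (.c k54 s10_255_54 (.c k55 s10_255_55 (.c k56 s10_255_56 (.c k57 s10_255_57 (.c k58
  s10_255_58 (.c k59 s10_255_59 (.c k60 s10_255_60 (.c k61 s10_255_61 (.c k62 s10_255_62 (.c k63
  s10_255_63 (.c k64 s10_255_64 (.c k65 s10_255_65 (.c k66 s10_255_66 (.c k67 s10_255_67 (.c k68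
  s10_255_68 (.c k69 s10_255_69 (.c k70 s10_255_70 (.c k71 s10_255_71 (.c k72 s10_255_72 (.c k73
  s10_255_73 (.c k74 s10_255_74 (.c k75 s10_255_75 (.c k76 s10_255_76 (.c k77 s10_255_77 (.c k78
  s10_255_78 (.c k79 s10_255_79 (.c k80 s10_255_80 (.c k81 s10_255_81 (.c k82 s10_255_82 (.c k83
  s10_255_83 (.c k84 s10_255_84 (.c k86 s10_255_86 (.c k87 s10_255_87 (.c k88 s10_255_88 (.c k89
  s10_255_89 (.c k90 s10_255_90 (.c k91 s10_255_91 (.c k92 s10_255_92 (.c k93 s10_255_93 (.c k94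
  s10_255_94 (.c k95 s10_255_95 (.c k96 s10_255_96 (.c k97 s10_255_97 (.c k98 s10_255_98 (.c k99
  s10_255_99 (.c k100 s10_255_100 (.c k101 s10_255_101 (.c k102 s10_255_102 (.c k103 s10_255_103 (.c
  k104 s10_255_104 (.c k105 s10_255_105 (.c k106 s10_255_106 (.c k107 s10_255_107 (.c k108
  s10_255_108 (.c k109 s10_255_109 (.c k110 s10_255_110 (.c k111 s10_255_111 (.c k112 s10_255_112
  (.c k113 s10_255_113 (.c k114 s10_255_114 (.c k115 s10_255_115 (.c k116 s10_255_116 (.c k117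
  s10_255_117 (.c k118 s10_255_118 (.c k119 s10_255_119 (.c k120 s10_255_120 (.c k121 s10_255_121
  (.c k122 s10_255_122 (.c k123 s10_255_123 (.c k124 s10_255_124 (.c k125 s10_255_125 (.c k126
  s10_255_126 (.c k127 s10_255_127 (.c k128 s10_255_128 (.c k129 s10_255_129 (.c k130 s10_255_130
  (.c k131 s10_255_131 (.c k132 s10_255_132 (.c k133 s10_255_133 (.c k134 s10_255_134 (.c k135
  s10_255_135 (.c k136 s10_255_136 (.c k137 s10_255_137 (.c k138 s10_255_138 (.c k139 s10_255_139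
  (.c k140 s10_255_140 (.c k141 s10_255_141 (.c k142 s10_255_142 (.c k143 s10_255_143 (.c k144
  s10_255_144 (.c k145 s10_255_145 (.c k146 s10_255_146 (.c k147 s10_255_147 (.c k148 s10_255_148
  (.c k149 s10_255_149 (.c k150 s10_255_150 (.c k151 s10_255_151 (.c k152 s10_255_152 (.c k153
  s10_255_153 (.c k154 s10_255_154 (.c k155 s10_255_155 (.c k156 s10_255_156 (.c k157 s10_255_157
  (.c k158 s10_255_158 (.c k159 s10_255_159 (.c k160 s10_255_160 (.c k161 s10_255_161 (.c k162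
  s10_255_162 (.c k163 s10_255_163 (.c k164 s10_255_164 (.c k165 s10_255_165 (.c k166 s10_255_166
  (.c k167 s10_255_167 (.c k168 s10_255_168 (.c k169 s10_255_169 (.c k170 s10_255_170 (.c k171
  s10_255_171 (.c k172 s10_255_172 (.c k173 s10_255_173 (.c k174 s10_255_174 (.c k175 s10_255_175
  (.c k176 s10_255_176 (.c k177 s10_255_177 (.c k178 s10_255_178 (.c k179 s10_255_179 (.c k180
  s10_255_180 (.c k181 s10_255_181 (.c k182 s10_255_182 (.c k183 s10_255_183 (.c k184 s10_255_184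
  (.c k185 s10_255_185 (.c k186 s10_255_186 (.c k187 s10_255_187 (.c k188 s10_255_188 (.c k189
  s10_255_189 (.c k190 s10_255_190 (.c k191 s10_255_191 (.c k192 s10_255_192 (.c k193 s10_255_193
  (.c k194 s10_255_194 (.c k195 s10_255_195 (.c k196 s10_255_196 (.c k197 s10_255_197 (.c k198
  s10_255_198 (.c k199 s10_255_199 (.c k200 s10_255_200 (.c k201 s10_255_201 (.c k202 s10_255_202
  (.c k203 s10_255_203 (.c k204 s10_255_204 (.c k205 s10_255_205 (.c k206 s10_255_206 (.c k207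
  s10_255_207 (.c k208 s10_255_208 (.c k209 s10_255_209 (.c k210 s10_255_210 (.c k211 s10_255_211
  (.c k212 s10_255_212 (.c k213 s10_255_213 (.c k214 s10_255_214 (.c k215 s10_255_215 (.c k216
  s10_255_216 (.c k217 s10_255_217 (.c k218 s10_255_218 (.c k219 s10_255_219 (.c k220 s10_255_220
  (.c k221 s10_255_221 (.c k222 s10_255_222 (.c k223 s10_255_223 (.c k224 s10_255_224 (.c k225
  s10_255_225 (.c k226 s10_255_226 (.c k227 s10_255_227 (.c k228 s10_255_228 (.c k229 s10_255_229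
  (.c k230 s10_255_230 (.c k231 s10_255_231 (.c k232 s10_255_232 (.c k233 s10_255_233 (.c k234
  s10_255_234 (.c k235 s10_255_235 (.c k236 s10_255_236 (.c k237 s10_255_237 (.c k238 s10_255_238
  (.c k239 s10_255_239 (.c k240 s10_255_240 (.c k241 s10_255_241 (.c k242 s10_255_242 (.c k243
  s10_255_243 (.c k244 s10_255_244 (.c k245 s10_255_245 (.c k246 s10_255_246 (.c k247 s10_255_247
  (.c k248 s10_255_248 (.c k249 s10_255_249 (.c k250 s10_255_250 (.c k251 s10_255_251 (.c k252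
  s10_255_252 (.c k253 s10_255_253 (.c k254 s10_255_254
  .n))))))))))))))))))))))))))))))))))))))))))))))))))))))))))))))))))))))))))))))))
  ))))))))))))))))))))))))))))))))))))))))))))))))))))))))))))))))))))))))))))))))
  )))))))))))))))))))))))))))))))))))))))))))))))))))))))))))))))))))))))))))))))) ))))))))))))

def s11_170_1 : T TT 256 :=
  (.q k16 [(.s k89 k93 1 (.s k154 k223 10 (.s k24 k219 8 (.s k28 k20 1 (.d k211 k146 k150 8 10))))),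
  (.s k48 k32 3 (.s k146 k211 8 (.s k97 k195 12 (.s k113 k65 3 (.d k243 k178 k162 8 12))))), (.s k48
  k32 3 (.s k89 k93 1 (.s k154 k223 10 (.s k101 k207 14 (.s k113 k77 5 (.d k243 k178 k162 8
  12))))))] .n)

def s11_170_2 : T TT 256 :=
  (.f k89 k93 1 (.q k86 [(.s k83 k92 2 (.s k80 k82 0 (.s k87 k84 0 (.d k95 k91 k90 1 2)))), (.s k84
  k87 0 (.s k243 k162 12 (.s k166 k12 14 (.s k246 k6 11 (.d k252 k249 k168 2 13))))), (.s k84 k87 0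
  (.s k92 k83 2 (.s k252 k168 13 (.s k12 k172 11 (.d k243 k162 k166 12 14))))), (.s k83 k92 2 (.s
  k243 k162 12 (.s k3 k163 11 (.s k166 k12 14 (.s k246 k6 11 (.d k252 k249 k169 2 14))))))] (.c k162
  (.l (.s k83 k92 2 (.s k87 k84 0 (.s k95 k91 1 (.d k80 k82 k90 0 2))))) .n)))

def s11_170_3 : T TT 256 :=
  (.f k89 k93 1 (.q k15 [(.s k243 k162 12 (.s k91 k167 13 (.s k90 k88 0 (.s k80 k95 2 (.d k240 k160
  k165 11 14))))), (.s k5 k10 2 (.s k165 k245 11 (.s k13 k241 13 (.s k12 k14 0 (.d k243 k162 k166 12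
  14))))), (.s k5 k10 2 (.s k165 k245 11 (.s k90 k240 14 (.s k80 k95 2 (.s k88 k91 0 (.s k92 k84 1
  (.d k83 k82 k86 0 2)))))))] (.c k90 (.l (.s k243 k162 12 (.s k166 k12 14 (.s k167 k91 13 (.s k165
  k164 0 (.d k5 k10 k245 2 11)))))) (.c k165 (.l (.s k243 k162 12 (.s k91 k167 13 (.s k90 k88 0 (.s
  k80 k95 2 (.s k166 k12 14 (.s k242 k14 13 (.d k240 k241 k160 0 11)))))))) .n))))

def s11_170_4 : T TT 256 :=
  (.q k1 [(.s k3 k2 0 (.s k161 k241 11 (.s k82 k240 12 (.s k83 k80 0 (.d k243 k163 k162 11 12))))),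
  (.s k89 k93 1 (.s k169 k253 13 (.s k9 k249 11 (.s k13 k5 1 (.d k241 k161 k165 11 13))))), (.s k3
  k2 0 (.s k89 k93 1 (.s k169 k253 13 (.s k86 k252 14 (.s k83 k92 2 (.d k243 k163 k162 11 12))))))]
  .n)

def s11_170_5 : T TT 256 :=
  (.q k3 [(.s k1 k2 0 (.s k161 k241 11 (.s k82 k240 12 (.s k83 k80 0 (.d k243 k163 k162 11 12))))),
  (.s k89 k93 1 (.s k243 k162 12 (.s k83 k163 11 (.s k86 k92 2 (.s k84 k87 0 (.d k252 k168 k169 13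
  14)))))), (.s k1 k2 0 (.s k89 k93 1 (.s k169 k253 13 (.s k9 k249 11 (.s k12 k6 2 (.d k243 k162
  k166 12 14)))))), (.s k1 k2 0 (.s k89 k93 1 (.s k161 k241 11 (.s k169 k253 13 (.s k86 k252 14 (.s
  k83 k92 2 (.d k82 k80 k240 0 12)))))))] (.c k86 (.l (.s k2 k1 0 (.s k162 k243 12 (.s k82 k242 11
  (.s k80 k83 0 (.d k240 k160 k161 11 12)))))) .n))

def s11_170_6 : T TT 256 :=
  (.q k1 [(.s k89 k93 1 (.s k169 k253 13 (.s k9 k249 11 (.s k13 k5 1 (.d k241 k161 k165 11 13))))),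
  (.s k3 k2 0 (.s k161 k241 11 (.s k82 k240 12 (.s k83 k80 0 (.d k243 k163 k162 11 12))))), (.s k3
  k2 0 (.s k89 k93 1 (.s k169 k253 13 (.s k86 k252 14 (.s k83 k92 2 (.d k243 k163 k162 11 12))))))]
  .n)

def s11_170_7 : T TT 256 :=
  (.q k3 [(.s k2 k1 0 (.s k162 k243 12 (.s k82 k242 11 (.s k80 k83 0 (.d k240 k160 k161 11 12))))),
  (.s k1 k2 0 (.s k89 k93 1 (.s k169 k253 13 (.s k9 k249 11 (.s k13 k5 1 (.d k241 k161 k165 11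
  13)))))), (.s k89 k93 1 (.s k243 k162 12 (.s k83 k163 11 (.s k86 k92 2 (.s k84 k87 0 (.d k252 k168
  k169 13 14))))))] (.c k161 (.l (.s k1 k2 0 (.s k89 k93 1 (.s k169 k253 13 (.s k9 k249 11 (.s k12
  k6 2 (.d k243 k162 k166 12 14))))))) .n))

def s11_170_8 : T TT 256 :=
  (.f k89 k93 1 (.q k169 [(.s k1 k253 13 (.s k9 k249 11 (.s k13 k5 1 (.d k241 k161 k165 11 13)))),
  (.s k243 k162 12 (.s k166 k12 14 (.s k163 k172 2 (.s k3 k83 11 (.s k252 k86 14 (.d k249 k9 k246 11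
  2))))))] (.c k9 (.q k10 [(.s k1 k253 13 (.s k5 k15 2 (.s k161 k241 11 (.d k165 k173 k245 1 11)))),
  (.s k243 k162 12 (.s k166 k12 14 (.s k163 k172 2 (.s k3 k83 11 (.d k1 k2 k253 0 13))))), (.s k15
  k5 2 (.s k243 k162 12 (.s k91 k167 13 (.s k90 k88 0 (.s k80 k95 2 (.d k240 k160 k165 11 14))))))]
  (.c k1 (.f k5 k15 2 (.l (.s k165 k245 11 (.s k241 k13 13 (.s k243 k162 12 (.s k240 k242 0 (.s k80
  k160 11 (.s k82 k83 0 (.d k161 k173 k3 1 12))))))))) .n)) (.c k10 (.l (.s k9 k249 11 (.s k1 k253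
  13 (.s k13 k5 1 (.d k241 k161 k165 11 13))))) (.c k249 (.l (.s k1 k253 13 (.s k3 k2 0 (.s k86 k252
  14 (.s k83 k92 2 (.d k243 k163 k162 11 12)))))) .n)))))

def s11_170_9 : T TT 256 :=
  (.f k89 k93 1 (.q k80 [(.s k83 k82 0 (.s k86 k92 2 (.s k87 k84 0 (.d k95 k91 k90 1 2)))), (.s k82
  k83 0 (.s k162 k243 12 (.s k2 k242 11 (.s k3 k1 0 (.d k240 k160 k161 11 12))))), (.s k90 k95 2 (.s
  k91 k88 0 (.s k240 k160 11 (.s k243 k162 12 (.d k15 k165 k167 14 13)))))] (.c k8 (.q k10 [(.s k90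
  k95 2 (.s k240 k160 11 (.d k15 k165 k5 14 2))), (.s k83 k82 0 (.s k86 k92 2 (.s k87 k84 0 (.d k95
  k91 k90 1 2)))), (.s k5 k15 2 (.s k165 k245 11 (.s k240 k160 11 (.s k241 k13 13 (.d k243 k242 k162
  0 12)))))] .n) (.c k10 (.q k8 [(.s k12 k4 1 (.d k243 k162 k166 12 14)), (.s k83 k82 0 (.s k86 k92
  2 (.s k87 k84 0 (.d k95 k90 k91 2 1))))] (.c k90 (.q k250 [(.s k12 k4 1 (.d k243 k162 k166 12
  14)), (.s k12 k4 1 (.s k83 k82 0 (.s k240 k160 11 (.s k88 k164 13 (.d k92 k84 k86 1 2))))), (.s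
  k82 k83 0 (.s k162 k243 12 (.s k2 k242 11 (.s k3 k1 0 (.d k240 k160 k161 11 12)))))] (.c k169 (.q
  k248 [(.s k12 k4 1 (.d k243 k162 k166 12 14)), (.s k168 k88 11 (.s k240 k160 11 (.d k252 k244 k84
  1 13)))] (.c k168 (.q k171 [(.s k12 k4 1 (.d k243 k162 k166 12 14)), (.s k82 k83 0 (.s k240 k160
  11 (.s k255 k245 2 (.d k3 k161 k87 12 13))))] .n) (.c k171 (.l (.s k168 k88 11 (.s k12 k4 1 (.d
  k243 k162 k166 12 14)))) .n))) (.c k248 (.q k169 [(.s k12 k4 1 (.d k243 k162 k166 12 14)), (.s k1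
  k253 13 (.s k3 k2 0 (.s k82 k83 0 (.d k161 k241 k240 11 12))))] .n) .n))) (.c k250 (.l (.s k90 k95
  2 (.s k12 k4 1 (.d k243 k162 k166 12 14)))) .n))) .n))))

def s11_170_10 : T TT 256 :=
  (.f k89 k93 1 (.q k90 [(.s k80 k95 2 (.s k83 k82 0 (.s k88 k91 0 (.d k92 k84 k86 1 2)))), (.s k91
  k88 0 (.s k243 k162 12 (.s k15 k167 13 (.s k165 k240 14 (.s k13 k241 13 (.d k12 k166 k14 14
  0)))))), (.s k80 k95 2 (.s k240 k160 11 (.s k165 k15 14 (.s k241 k13 13 (.d k243 k242 k162 0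
  12)))))] (.c k8 (.q k9 [(.s k169 k249 11 (.s k1 k253 13 (.s k13 k5 1 (.d k241 k161 k165 11 13)))),
  (.s k80 k95 2 (.s k83 k82 0 (.s k88 k91 0 (.d k92 k84 k86 1 2))))] .n) (.c k9 (.q k8 [(.s k12 k4 1
  (.d k243 k162 k166 12 14)), (.s k80 k95 2 (.s k83 k82 0 (.s k88 k91 0 (.d k92 k84 k86 1 2))))] .n)
  .n))))

def s11_170_12 : T TT 256 :=
  (.q k1 [(.s k89 k93 1 (.s k169 k253 13 (.s k9 k249 11 (.s k13 k5 1 (.d k241 k161 k165 11 13))))),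
  (.s k3 k2 0 (.s k161 k241 11 (.s k82 k240 12 (.s k83 k80 0 (.d k243 k163 k162 11 12))))), (.s k3
  k2 0 (.s k89 k93 1 (.s k169 k253 13 (.s k86 k252 14 (.s k243 k162 12 (.d k83 k92 k163 2 11))))))]
  .n)

def s11_170_13 : T TT 256 :=
  (.q k3 [(.s k2 k1 0 (.s k162 k243 12 (.s k82 k242 11 (.s k80 k83 0 (.d k240 k160 k161 11 12))))),
  (.s k89 k93 1 (.s k243 k162 12 (.s k83 k163 11 (.s k86 k92 2 (.s k84 k87 0 (.d k252 k168 k169 13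
  14)))))), (.s k1 k2 0 (.s k89 k93 1 (.s k243 k162 12 (.s k163 k83 11 (.s k166 k12 14 (.d k169 k253
  k172 13 2)))))), (.s k1 k2 0 (.s k161 k241 11 (.s k169 k253 13 (.s k240 k82 12 (.s k80 k160 11 (.s
  k90 k95 2 (.d k165 k173 k15 1 14)))))))] (.c k162 (.l (.s k1 k2 0 (.s k89 k93 1 (.s k161 k241 11
  (.s k82 k240 12 (.s k83 k80 0 (.s k86 k92 2 (.d k169 k253 k252 13 14)))))))) .n))

def s11_170_14 : T TT 256 :=
  (.q k1 [(.s k89 k93 1 (.s k169 k253 13 (.s k9 k249 11 (.s k13 k5 1 (.d k241 k161 k165 11 13))))),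
  (.s k3 k2 0 (.s k161 k241 11 (.s k82 k240 12 (.s k83 k80 0 (.d k243 k163 k162 11 12))))), (.s k3
  k2 0 (.s k89 k93 1 (.s k169 k253 13 (.s k86 k252 14 (.s k83 k92 2 (.d k243 k163 k162 11 12))))))]
  .n)

def s11_170_15 : T TT 256 :=
  (.q k3 [(.s k2 k1 0 (.s k162 k243 12 (.s k82 k242 11 (.s k80 k83 0 (.d k240 k160 k161 11 12))))),
  (.s k1 k2 0 (.s k89 k93 1 (.s k169 k253 13 (.s k9 k249 11 (.s k13 k5 1 (.d k241 k161 k165 11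
  13)))))), (.s k89 k93 1 (.s k243 k162 12 (.s k83 k163 11 (.s k86 k92 2 (.s k84 k87 0 (.d k252 k168
  k169 13 14))))))] (.c k161 (.l (.s k1 k2 0 (.s k89 k93 1 (.s k169 k253 13 (.s k9 k249 11 (.s k12
  k6 2 (.d k243 k162 k166 12 14))))))) .n))

def s11_170_16 : T TT 256 :=
  (.q k1 [(.s k89 k93 1 (.s k169 k253 13 (.s k9 k249 11 (.s k13 k5 1 (.d k241 k161 k165 11 13))))),
  (.s k3 k2 0 (.s k161 k241 11 (.s k82 k240 12 (.s k83 k80 0 (.d k243 k163 k162 11 12))))), (.s k3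
  k2 0 (.s k89 k93 1 (.s k169 k253 13 (.s k86 k252 14 (.s k83 k92 2 (.d k243 k163 k162 11 12))))))]
  .n)

def s11_170_17 : T TT 256 :=
  (.q k1 [(.s k89 k93 1 (.s k169 k253 13 (.s k9 k249 11 (.s k13 k5 1 (.d k241 k161 k165 11 13))))),
  (.s k3 k2 0 (.s k161 k241 11 (.s k82 k240 12 (.s k83 k80 0 (.d k243 k163 k162 11 12))))), (.s k3
  k2 0 (.s k89 k93 1 (.s k169 k253 13 (.s k86 k252 14 (.s k83 k92 2 (.d k243 k163 k162 11 12))))))]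
  .n)

def s11_170_18 : T TT 256 :=
  (.q k1 [(.s k89 k93 1 (.s k169 k253 13 (.s k9 k249 11 (.s k13 k5 1 (.d k241 k161 k165 11 13))))),
  (.s k3 k2 0 (.s k161 k241 11 (.s k82 k240 12 (.s k83 k80 0 (.d k243 k163 k162 11 12))))), (.s k3
  k2 0 (.s k89 k93 1 (.s k169 k253 13 (.s k86 k252 14 (.s k83 k92 2 (.d k243 k163 k162 11 12))))))]
  .n)

def s11_170_19 : T TT 256 :=
  (.q k1 [(.s k89 k93 1 (.s k169 k253 13 (.s k9 k249 11 (.s k13 k5 1 (.d k241 k161 k165 11 13))))),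
  (.s k3 k2 0 (.s k161 k241 11 (.s k82 k240 12 (.s k83 k80 0 (.d k243 k163 k162 11 12))))), (.s k3
  k2 0 (.s k89 k93 1 (.s k169 k253 13 (.s k86 k252 14 (.s k83 k92 2 (.d k243 k163 k162 11 12))))))]
  .n)

def s11_170_20 : T TT 256 :=
  (.q k1 [(.s k89 k93 1 (.s k169 k253 13 (.s k9 k249 11 (.s k13 k5 1 (.d k241 k161 k165 11 13))))),
  (.s k3 k2 0 (.s k161 k241 11 (.s k82 k240 12 (.s k83 k80 0 (.d k243 k163 k162 11 12))))), (.s k3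
  k2 0 (.s k89 k93 1 (.s k169 k253 13 (.s k86 k252 14 (.s k83 k92 2 (.d k243 k163 k162 11 12))))))]
  .n)

def s11_170_21 : T TT 256 :=
  (.q k1 [(.s k3 k2 0 (.s k161 k241 11 (.s k82 k240 12 (.s k83 k80 0 (.d k243 k163 k162 11 12))))),
  (.s k89 k93 1 (.s k169 k253 13 (.s k9 k249 11 (.s k13 k5 1 (.d k241 k161 k165 11 13))))), (.s k3
  k2 0 (.s k89 k93 1 (.s k169 k253 13 (.s k86 k252 14 (.s k83 k92 2 (.d k243 k163 k162 11 12))))))]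
  .n)

def s11_170_22 : T TT 256 :=
  (.q k1 [(.s k89 k93 1 (.s k169 k253 13 (.s k9 k249 11 (.s k13 k5 1 (.d k241 k161 k165 11 13))))),
  (.s k3 k2 0 (.s k161 k241 11 (.s k82 k240 12 (.s k83 k80 0 (.d k243 k163 k162 11 12))))), (.s k3
  k2 0 (.s k89 k93 1 (.s k169 k253 13 (.s k86 k252 14 (.s k83 k92 2 (.d k243 k163 k162 11 12))))))]
  .n)

def s11_170_23 : T TT 256 :=
  (.q k1 [(.s k89 k93 1 (.s k169 k253 13 (.s k9 k249 11 (.s k13 k5 1 (.d k241 k161 k165 11 13))))),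
  (.s k3 k2 0 (.s k161 k241 11 (.s k82 k240 12 (.s k83 k80 0 (.d k243 k163 k162 11 12))))), (.s k3
  k2 0 (.s k89 k93 1 (.s k169 k253 13 (.s k86 k252 14 (.s k83 k92 2 (.d k243 k163 k162 11 12))))))]
  .n)

def s11_170_24 : T TT 256 :=
  (.q k1 [(.s k89 k93 1 (.s k169 k253 13 (.s k9 k249 11 (.s k13 k5 1 (.d k241 k161 k165 11 13))))),
  (.s k3 k2 0 (.s k161 k241 11 (.s k82 k240 12 (.s k83 k80 0 (.d k243 k163 k162 11 12))))), (.s k3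
  k2 0 (.s k89 k93 1 (.s k169 k253 13 (.s k86 k252 14 (.s k83 k92 2 (.d k243 k163 k162 11 12))))))]
  .n)

def s11_170_25 : T TT 256 :=
  (.q k1 [(.s k89 k93 1 (.s k169 k253 13 (.s k9 k249 11 (.s k13 k5 1 (.d k241 k161 k165 11 13))))),
  (.s k3 k2 0 (.s k161 k241 11 (.s k82 k240 12 (.s k83 k80 0 (.d k243 k163 k162 11 12))))), (.s k3
  k2 0 (.s k89 k93 1 (.s k169 k253 13 (.s k86 k252 14 (.s k83 k92 2 (.d k243 k163 k162 11 12))))))]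
  .n)

def s11_170_26 : T TT 256 :=
  (.f k162 k243 12 (.f k89 k93 1 (.q k1 [(.s k161 k241 11 (.s k160 k163 0 (.s k240 k80 11 (.d k3 k2
  k82 0 12)))), (.s k169 k253 13 (.s k9 k249 11 (.s k13 k5 1 (.d k241 k161 k165 11 13)))), (.s k3 k2
  0 (.s k169 k253 13 (.s k86 k252 14 (.s k83 k92 2 (.s k80 k82 0 (.s k87 k84 0 (.d k95 k91 k90 1
  2)))))))] (.c k41 (.q k56 [(.s k161 k241 11 (.s k160 k163 0 (.s k240 k80 11 (.d k3 k2 k82 0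
  12)))), (.s k169 k253 13 (.s k9 k249 11 (.s k13 k5 1 (.d k241 k161 k165 11 13)))), (.s k3 k2 0 (.s
  k169 k253 13 (.s k86 k252 14 (.s k83 k92 2 (.s k80 k82 0 (.s k87 k84 0 (.d k95 k91 k90 1 2)))))))]
  .n) (.c k56 (.q k41 [(.s k161 k241 11 (.s k160 k163 0 (.s k240 k80 11 (.d k3 k2 k82 0 12)))), (.s
  k169 k253 13 (.s k9 k249 11 (.s k13 k5 1 (.d k241 k161 k165 11 13)))), (.s k3 k2 0 (.s k21 k61 5
  (.s k22 k60 6 (.s k23 k20 0 (.d k63 k43 k42 5 6)))))] .n) .n)))))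

def s11_170_27 : T TT 256 :=
  (.f k162 k243 12 (.f k89 k93 1 (.q k1 [(.s k161 k241 11 (.s k160 k163 0 (.s k240 k80 11 (.d k3 k2
  k82 0 12)))), (.s k169 k253 13 (.s k9 k249 11 (.s k13 k5 1 (.d k241 k161 k165 11 13)))), (.s k3 k2
  0 (.s k169 k253 13 (.s k86 k252 14 (.s k83 k92 2 (.s k80 k82 0 (.s k87 k84 0 (.d k95 k91 k90 1
  2)))))))] (.c k43 (.q k59 [(.s k161 k241 11 (.s k160 k163 0 (.s k240 k80 11 (.d k3 k2 k82 0
  12)))), (.s k169 k253 13 (.s k9 k249 11 (.s k13 k5 1 (.d k241 k161 k165 11 13)))), (.s k3 k2 0 (.s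
  k169 k253 13 (.s k86 k252 14 (.s k83 k92 2 (.s k80 k82 0 (.s k87 k84 0 (.d k95 k91 k90 1 2)))))))]
  .n) (.c k59 (.q k43 [(.s k161 k241 11 (.s k160 k163 0 (.s k240 k80 11 (.d k3 k2 k82 0 12)))), (.s
  k169 k253 13 (.s k9 k249 11 (.s k13 k5 1 (.d k241 k161 k165 11 13)))), (.s k3 k2 0 (.s k63 k23 5
  (.s k21 k42 6 (.s k149 k213 7 (.s k106 k192 14 (.d k169 k232 k253 8 13))))))] .n) .n)))))

def s11_170_28 : T TT 256 :=
  (.q k1 [(.s k3 k2 0 (.s k161 k241 11 (.s k82 k240 12 (.s k83 k80 0 (.d k243 k163 k162 11 12))))),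
  (.s k89 k93 1 (.s k169 k253 13 (.s k9 k249 11 (.s k13 k5 1 (.d k241 k161 k165 11 13))))), (.s k3
  k2 0 (.s k89 k93 1 (.s k169 k253 13 (.s k86 k252 14 (.s k83 k92 2 (.d k243 k163 k162 11 12))))))]
  .n)

def s11_170_29 : T TT 256 :=
  (.q k1 [(.s k3 k2 0 (.s k161 k241 11 (.s k82 k240 12 (.s k83 k80 0 (.d k243 k163 k162 11 12))))),
  (.s k89 k93 1 (.s k169 k253 13 (.s k9 k249 11 (.s k13 k5 1 (.d k241 k161 k165 11 13))))), (.s k3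
  k2 0 (.s k89 k93 1 (.s k169 k253 13 (.s k86 k252 14 (.s k83 k92 2 (.d k243 k163 k162 11 12))))))]
  .n)

def s11_170_30 : T TT 256 :=
  (.q k1 [(.s k89 k93 1 (.s k169 k253 13 (.s k9 k249 11 (.s k13 k5 1 (.d k241 k161 k165 11 13))))),
  (.s k3 k2 0 (.s k161 k241 11 (.s k82 k240 12 (.s k83 k80 0 (.d k243 k163 k162 11 12))))), (.s k3
  k2 0 (.s k89 k93 1 (.s k169 k253 13 (.s k86 k252 14 (.s k83 k92 2 (.d k243 k163 k162 11 12))))))]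
  .n)

def s11_170_31 : T TT 256 :=
  (.q k1 [(.s k89 k93 1 (.s k169 k253 13 (.s k9 k249 11 (.s k13 k5 1 (.d k241 k161 k165 11 13))))),
  (.s k3 k2 0 (.s k161 k241 11 (.s k82 k240 12 (.s k83 k80 0 (.d k243 k163 k162 11 12))))), (.s k3
  k2 0 (.s k89 k93 1 (.s k169 k253 13 (.s k86 k252 14 (.s k83 k92 2 (.d k243 k163 k162 11 12))))))]
  .n)

def s11_170_32 : T TT 256 :=
  (.q k101 [(.s k89 k93 1 (.s k117 k69 3 (.s k113 k77 5 (.s k125 k121 1 (.d k65 k97 k105 3 5))))),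
  (.s k69 k117 3 (.s k89 k93 1 (.s k207 k138 10 (.s k154 k48 14 (.s k219 k24 8 (.d k243 k231 k162 5
  12)))))), (.s k89 k93 1 (.s k113 k77 5 (.s k243 k162 12 (.s k48 k178 8 (.s k154 k207 14 (.s k24
  k219 8 (.d k12 k166 k36 14 5)))))))] (.c k89 (.f k162 k243 12 (.f k69 k117 3 (.f k207 k138 10 (.l
  (.s k154 k48 14 (.s k16 k223 10 (.s k146 k211 8 (.s k150 k158 1 (.s k199 k52 12 (.s k195 k203 1
  (.d k130 k178 k65 3 8))))))))))) (.c k93 (.l (.s k69 k117 3 (.s k207 k138 10 (.s k243 k162 12 (.s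
  k231 k219 5 (.s k166 k36 8 (.s k4 k247 12 (.d k12 k8 k89 1 14)))))))) .n)))

def s11_170_33 : T TT 256 :=
  (.q k1 [(.s k89 k93 1 (.s k169 k253 13 (.s k9 k249 11 (.s k13 k5 1 (.d k241 k161 k165 11 13))))),
  (.s k3 k2 0 (.s k161 k241 11 (.s k82 k240 12 (.s k83 k80 0 (.d k243 k163 k162 11 12))))), (.s k3
  k2 0 (.s k89 k93 1 (.s k169 k253 13 (.s k86 k252 14 (.s k83 k92 2 (.d k243 k163 k162 11 12))))))]
  .n)

def s11_170_34 : T TT 256 :=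
  (.f k89 k93 1 (.q k102 [(.s k119 k68 4 (.s k115 k76 6 (.s k127 k123 1 (.d k64 k98 k106 4 6)))),
  (.s k68 k119 4 (.s k204 k136 9 (.s k153 k51 14 (.s k217 k25 7 (.d k243 k230 k162 6 12))))), (.s
  k115 k76 6 (.s k243 k162 12 (.s k51 k179 7 (.s k153 k204 14 (.s k25 k217 7 (.d k12 k166 k38 14
  6))))))] .n))

def s11_170_35 : T TT 256 :=
  (.q k1 [(.s k89 k93 1 (.s k169 k253 13 (.s k9 k249 11 (.s k13 k5 1 (.d k241 k161 k165 11 13))))),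
  (.s k3 k2 0 (.s k161 k241 11 (.s k82 k240 12 (.s k83 k80 0 (.d k243 k163 k162 11 12))))), (.s k3
  k2 0 (.s k89 k93 1 (.s k169 k253 13 (.s k86 k252 14 (.s k83 k92 2 (.d k243 k163 k162 11 12))))))]
  .n)

def s11_170_36 : T TT 256 :=
  (.q k1 [(.s k89 k93 1 (.s k169 k253 13 (.s k9 k249 11 (.s k13 k5 1 (.d k241 k161 k165 11 13))))),
  (.s k3 k2 0 (.s k161 k241 11 (.s k82 k240 12 (.s k83 k80 0 (.d k243 k163 k162 11 12))))), (.s k3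
  k2 0 (.s k89 k93 1 (.s k169 k253 13 (.s k86 k252 14 (.s k83 k92 2 (.d k243 k163 k162 11 12))))))]
  .n)

def s11_170_37 : T TT 256 :=
  (.q k1 [(.s k3 k2 0 (.s k161 k241 11 (.s k82 k240 12 (.s k83 k80 0 (.d k243 k163 k162 11 12))))),
  (.s k89 k93 1 (.s k169 k253 13 (.s k9 k249 11 (.s k13 k5 1 (.d k241 k161 k165 11 13))))), (.s k3
  k2 0 (.s k89 k93 1 (.s k169 k253 13 (.s k86 k252 14 (.s k83 k92 2 (.d k243 k163 k162 11 12))))))]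
  .n)

def s11_170_38 : T TT 256 :=
  (.q k1 [(.s k89 k93 1 (.s k169 k253 13 (.s k9 k249 11 (.s k13 k5 1 (.d k241 k161 k165 11 13))))),
  (.s k3 k2 0 (.s k161 k241 11 (.s k82 k240 12 (.s k83 k80 0 (.d k243 k163 k162 11 12))))), (.s k3
  k2 0 (.s k89 k93 1 (.s k169 k253 13 (.s k86 k252 14 (.s k83 k92 2 (.d k243 k163 k162 11 12))))))]
  .n)

def s11_170_39 : T TT 256 :=
  (.q k1 [(.s k89 k93 1 (.s k169 k253 13 (.s k9 k249 11 (.s k13 k5 1 (.d k241 k161 k165 11 13))))),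
  (.s k3 k2 0 (.s k161 k241 11 (.s k82 k240 12 (.s k83 k80 0 (.d k243 k163 k162 11 12))))), (.s k3
  k2 0 (.s k89 k93 1 (.s k169 k253 13 (.s k86 k252 14 (.s k83 k92 2 (.d k243 k163 k162 11 12))))))]
  .n)

def s11_170_40 : T TT 256 :=
  (.q k105 [(.s k65 k125 5 (.s k89 k93 1 (.s k73 k121 3 (.s k77 k69 1 (.d k113 k97 k101 3 5))))),
  (.s k89 k93 1 (.s k121 k73 3 (.s k243 k162 12 (.s k60 k182 10 (.s k150 k195 14 (.s k28 k211 10 (.d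
  k12 k166 k44 14 3))))))), (.s k65 k125 5 (.s k97 k113 3 (.s k162 k243 12 (.s k32 k227 8 (.s k48
  k16 3 (.d k195 k130 k146 8 12))))))] (.c k121 (.l (.s k65 k125 5 (.s k89 k93 1 (.s k195 k130 8 (.s
  k150 k60 14 (.s k211 k28 10 (.d k243 k227 k162 3 12))))))) .n))

def s11_170_41 : T TT 256 :=
  (.f k162 k243 12 (.f k89 k93 1 (.q k1 [(.s k161 k241 11 (.s k160 k163 0 (.s k240 k80 11 (.d k3 k2
  k82 0 12)))), (.s k169 k253 13 (.s k9 k249 11 (.s k13 k5 1 (.d k241 k161 k165 11 13)))), (.s k3 k2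
  0 (.s k169 k253 13 (.s k86 k252 14 (.s k83 k92 2 (.s k80 k82 0 (.s k87 k84 0 (.d k95 k91 k90 1
  2)))))))] (.c k26 (.q k56 [(.s k161 k241 11 (.s k160 k163 0 (.s k240 k80 11 (.d k3 k2 k82 0
  12)))), (.s k169 k253 13 (.s k9 k249 11 (.s k13 k5 1 (.d k241 k161 k165 11 13)))), (.s k3 k2 0 (.s
  k169 k253 13 (.s k86 k252 14 (.s k83 k92 2 (.s k80 k82 0 (.s k87 k84 0 (.d k95 k91 k90 1 2)))))))]
  .n) (.c k56 (.q k26 [(.s k161 k241 11 (.s k160 k163 0 (.s k240 k80 11 (.d k3 k2 k82 0 12)))), (.s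
  k169 k253 13 (.s k9 k249 11 (.s k13 k5 1 (.d k241 k161 k165 11 13)))), (.s k3 k2 0 (.s k169 k253
  13 (.s k86 k252 14 (.s k83 k92 2 (.s k80 k82 0 (.s k87 k84 0 (.d k95 k91 k90 1 2)))))))] .n)
  .n)))))

def s11_170_42 : T TT 256 :=
  (.q k106 [(.s k64 k127 6 (.s k89 k93 1 (.s k72 k123 4 (.s k76 k68 1 (.d k115 k98 k102 4 6))))),
  (.s k89 k93 1 (.s k123 k72 4 (.s k243 k162 12 (.s k63 k183 9 (.s k149 k192 14 (.s k29 k209 9 (.d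
  k12 k166 k46 14 4))))))), (.s k64 k127 6 (.s k98 k115 4 (.s k162 k243 12 (.s k34 k226 7 (.s k51
  k17 4 (.d k192 k128 k145 7 12))))))] (.c k123 (.l (.s k64 k127 6 (.s k89 k93 1 (.s k192 k128 7 (.s
  k149 k63 14 (.s k209 k29 9 (.d k243 k226 k162 4 12))))))) .n))

def s11_170_43 : T TT 256 :=
  (.f k162 k243 12 (.f k89 k93 1 (.q k1 [(.s k161 k241 11 (.s k160 k163 0 (.s k240 k80 11 (.d k3 k2
  k82 0 12)))), (.s k169 k253 13 (.s k9 k249 11 (.s k13 k5 1 (.d k241 k161 k165 11 13)))), (.s k3 k2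
  0 (.s k169 k253 13 (.s k86 k252 14 (.s k83 k92 2 (.s k80 k82 0 (.s k87 k84 0 (.d k95 k91 k90 1
  2)))))))] (.c k27 (.q k59 [(.s k161 k241 11 (.s k160 k163 0 (.s k240 k80 11 (.d k3 k2 k82 0
  12)))), (.s k169 k253 13 (.s k9 k249 11 (.s k13 k5 1 (.d k241 k161 k165 11 13)))), (.s k3 k2 0 (.s
  k169 k253 13 (.s k86 k252 14 (.s k83 k92 2 (.s k80 k82 0 (.s k87 k84 0 (.d k95 k91 k90 1 2)))))))]
  .n) (.c k59 (.q k27 [(.s k161 k241 11 (.s k160 k163 0 (.s k240 k80 11 (.d k3 k2 k82 0 12)))), (.s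
  k169 k253 13 (.s k9 k249 11 (.s k13 k5 1 (.d k241 k161 k165 11 13)))), (.s k3 k2 0 (.s k169 k253
  13 (.s k86 k252 14 (.s k83 k92 2 (.s k80 k82 0 (.s k87 k84 0 (.d k95 k91 k90 1 2)))))))] .n)
  .n)))))

def s11_170_44 : T TT 256 :=
  (.q k1 [(.s k89 k93 1 (.s k169 k253 13 (.s k9 k249 11 (.s k13 k5 1 (.d k241 k161 k165 11 13))))),
  (.s k3 k2 0 (.s k161 k241 11 (.s k82 k240 12 (.s k83 k80 0 (.d k243 k163 k162 11 12))))), (.s k3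
  k2 0 (.s k89 k93 1 (.s k169 k253 13 (.s k86 k252 14 (.s k83 k92 2 (.d k243 k163 k162 11 12))))))]
  .n)

def s11_170_45 : T TT 256 :=
  (.q k1 [(.s k89 k93 1 (.s k169 k253 13 (.s k9 k249 11 (.s k13 k5 1 (.d k241 k161 k165 11 13))))),
  (.s k3 k2 0 (.s k161 k241 11 (.s k82 k240 12 (.s k83 k80 0 (.d k243 k163 k162 11 12))))), (.s k3
  k2 0 (.s k89 k93 1 (.s k169 k253 13 (.s k86 k252 14 (.s k83 k92 2 (.d k243 k163 k162 11 12))))))]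
  .n)

def s11_170_46 : T TT 256 :=
  (.q k1 [(.s k89 k93 1 (.s k169 k253 13 (.s k9 k249 11 (.s k13 k5 1 (.d k241 k161 k165 11 13))))),
  (.s k3 k2 0 (.s k161 k241 11 (.s k82 k240 12 (.s k83 k80 0 (.d k243 k163 k162 11 12))))), (.s k3
  k2 0 (.s k89 k93 1 (.s k169 k253 13 (.s k86 k252 14 (.s k83 k92 2 (.d k243 k163 k162 11 12))))))]
  .n)

def s11_170_47 : T TT 256 :=
  (.q k1 [(.s k89 k93 1 (.s k169 k253 13 (.s k9 k249 11 (.s k13 k5 1 (.d k241 k161 k165 11 13))))),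
  (.s k3 k2 0 (.s k161 k241 11 (.s k82 k240 12 (.s k83 k80 0 (.d k243 k163 k162 11 12))))), (.s k3
  k2 0 (.s k89 k93 1 (.s k169 k253 13 (.s k86 k252 14 (.s k83 k92 2 (.d k243 k163 k162 11 12))))))]
  .n)

def s11_170_48 : T TT 256 :=
  (.q k1 [(.s k89 k93 1 (.s k169 k253 13 (.s k9 k249 11 (.s k13 k5 1 (.d k241 k161 k165 11 13))))),
  (.s k3 k2 0 (.s k161 k241 11 (.s k82 k240 12 (.s k83 k80 0 (.d k243 k163 k162 11 12))))), (.s k3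
  k2 0 (.s k89 k93 1 (.s k169 k253 13 (.s k86 k252 14 (.s k83 k92 2 (.d k243 k163 k162 11 12))))))]
  .n)

def s11_170_49 : T TT 256 :=
  (.q k1 [(.s k89 k93 1 (.s k169 k253 13 (.s k9 k249 11 (.s k13 k5 1 (.d k241 k161 k165 11 13))))),
  (.s k3 k2 0 (.s k161 k241 11 (.s k82 k240 12 (.s k83 k80 0 (.d k243 k163 k162 11 12))))), (.s k3
  k2 0 (.s k89 k93 1 (.s k169 k253 13 (.s k86 k252 14 (.s k83 k92 2 (.d k243 k163 k162 11 12))))))]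
  .n)

def s11_170_50 : T TT 256 :=
  (.q k1 [(.s k89 k93 1 (.s k169 k253 13 (.s k9 k249 11 (.s k13 k5 1 (.d k241 k161 k165 11 13))))),
  (.s k3 k2 0 (.s k161 k241 11 (.s k82 k240 12 (.s k83 k80 0 (.d k243 k163 k162 11 12))))), (.s k3
  k2 0 (.s k89 k93 1 (.s k169 k253 13 (.s k86 k252 14 (.s k83 k92 2 (.d k243 k163 k162 11 12))))))]
  .n)

def s11_170_51 : T TT 256 :=
  (.q k1 [(.s k89 k93 1 (.s k169 k253 13 (.s k9 k249 11 (.s k13 k5 1 (.d k241 k161 k165 11 13))))),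
  (.s k3 k2 0 (.s k161 k241 11 (.s k82 k240 12 (.s k83 k80 0 (.d k243 k163 k162 11 12))))), (.s k3
  k2 0 (.s k89 k93 1 (.s k169 k253 13 (.s k86 k252 14 (.s k83 k92 2 (.d k243 k163 k162 11 12))))))]
  .n)

def s11_170_52 : T TT 256 :=
  (.q k1 [(.s k89 k93 1 (.s k169 k253 13 (.s k9 k249 11 (.s k13 k5 1 (.d k241 k161 k165 11 13))))),
  (.s k3 k2 0 (.s k161 k241 11 (.s k82 k240 12 (.s k83 k80 0 (.d k243 k163 k162 11 12))))), (.s k3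
  k2 0 (.s k89 k93 1 (.s k169 k253 13 (.s k86 k252 14 (.s k83 k92 2 (.d k243 k163 k162 11 12))))))]
  .n)

def s11_170_53 : T TT 256 :=
  (.q k1 [(.s k3 k2 0 (.s k161 k241 11 (.s k82 k240 12 (.s k83 k80 0 (.d k243 k163 k162 11 12))))),
  (.s k89 k93 1 (.s k169 k253 13 (.s k9 k249 11 (.s k13 k5 1 (.d k241 k161 k165 11 13))))), (.s k3
  k2 0 (.s k89 k93 1 (.s k169 k253 13 (.s k86 k252 14 (.s k83 k92 2 (.d k243 k163 k162 11 12))))))]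
  .n)

def s11_170_54 : T TT 256 :=
  (.q k1 [(.s k89 k93 1 (.s k169 k253 13 (.s k9 k249 11 (.s k13 k5 1 (.d k241 k161 k165 11 13))))),
  (.s k3 k2 0 (.s k161 k241 11 (.s k82 k240 12 (.s k83 k80 0 (.d k243 k163 k162 11 12))))), (.s k3
  k2 0 (.s k89 k93 1 (.s k169 k253 13 (.s k86 k252 14 (.s k83 k92 2 (.d k243 k163 k162 11 12))))))]
  .n)

def s11_170_55 : T TT 256 :=
  (.q k1 [(.s k89 k93 1 (.s k169 k253 13 (.s k9 k249 11 (.s k13 k5 1 (.d k241 k161 k165 11 13))))),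
  (.s k3 k2 0 (.s k161 k241 11 (.s k82 k240 12 (.s k83 k80 0 (.d k243 k163 k162 11 12))))), (.s k3
  k2 0 (.s k89 k93 1 (.s k169 k253 13 (.s k86 k252 14 (.s k83 k92 2 (.d k243 k163 k162 11 12))))))]
  .n)

def s11_170_56 : T TT 256 :=
  (.f k162 k243 12 (.f k89 k93 1 (.q k1 [(.s k161 k241 11 (.s k160 k163 0 (.s k240 k80 11 (.d k3 k2
  k82 0 12)))), (.s k169 k253 13 (.s k9 k249 11 (.s k13 k5 1 (.d k241 k161 k165 11 13)))), (.s k3 k2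
  0 (.s k169 k253 13 (.s k86 k252 14 (.s k83 k92 2 (.s k80 k82 0 (.s k87 k84 0 (.d k95 k91 k90 1
  2)))))))] (.c k26 (.q k41 [(.s k161 k241 11 (.s k160 k163 0 (.s k240 k80 11 (.d k3 k2 k82 0
  12)))), (.s k169 k253 13 (.s k9 k249 11 (.s k13 k5 1 (.d k241 k161 k165 11 13)))), (.s k3 k2 0 (.s
  k21 k61 5 (.s k22 k60 6 (.s k23 k20 0 (.d k63 k43 k42 5 6)))))] .n) (.c k41 (.q k26 [(.s k161 k241
  11 (.s k160 k163 0 (.s k240 k80 11 (.d k3 k2 k82 0 12)))), (.s k169 k253 13 (.s k9 k249 11 (.s k13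
  k5 1 (.d k241 k161 k165 11 13)))), (.s k3 k2 0 (.s k169 k253 13 (.s k86 k252 14 (.s k83 k92 2 (.s
  k80 k82 0 (.s k87 k84 0 (.d k95 k91 k90 1 2)))))))] .n) .n)))))

def s11_170_57 : T TT 256 :=
  (.q k1 [(.s k3 k2 0 (.s k161 k241 11 (.s k82 k240 12 (.s k83 k80 0 (.d k243 k163 k162 11 12))))),
  (.s k89 k93 1 (.s k169 k253 13 (.s k9 k249 11 (.s k13 k5 1 (.d k241 k161 k165 11 13))))), (.s k3
  k2 0 (.s k89 k93 1 (.s k169 k253 13 (.s k86 k252 14 (.s k83 k92 2 (.d k243 k163 k162 11 12))))))]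
  .n)

def s11_170_58 : T TT 256 :=
  (.q k1 [(.s k89 k93 1 (.s k169 k253 13 (.s k9 k249 11 (.s k13 k5 1 (.d k241 k161 k165 11 13))))),
  (.s k3 k2 0 (.s k161 k241 11 (.s k82 k240 12 (.s k83 k80 0 (.d k243 k163 k162 11 12))))), (.s k3
  k2 0 (.s k89 k93 1 (.s k169 k253 13 (.s k86 k252 14 (.s k83 k92 2 (.d k243 k163 k162 11 12))))))]
  .n)

def s11_170_59 : T TT 256 :=
  (.f k162 k243 12 (.f k89 k93 1 (.q k1 [(.s k161 k241 11 (.s k160 k163 0 (.s k240 k80 11 (.d k3 k2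
  k82 0 12)))), (.s k169 k253 13 (.s k9 k249 11 (.s k13 k5 1 (.d k241 k161 k165 11 13)))), (.s k3 k2
  0 (.s k169 k253 13 (.s k86 k252 14 (.s k83 k92 2 (.s k80 k82 0 (.s k87 k84 0 (.d k95 k91 k90 1
  2)))))))] (.c k27 (.q k43 [(.s k161 k241 11 (.s k160 k163 0 (.s k240 k80 11 (.d k3 k2 k82 0
  12)))), (.s k169 k253 13 (.s k9 k249 11 (.s k13 k5 1 (.d k241 k161 k165 11 13)))), (.s k3 k2 0 (.s
  k63 k23 5 (.s k21 k42 6 (.s k149 k213 7 (.s k106 k192 14 (.d k169 k232 k253 8 13))))))] .n) (.c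
  k43 (.q k27 [(.s k161 k241 11 (.s k160 k163 0 (.s k240 k80 11 (.d k3 k2 k82 0 12)))), (.s k169
  k253 13 (.s k9 k249 11 (.s k13 k5 1 (.d k241 k161 k165 11 13)))), (.s k3 k2 0 (.s k169 k253 13 (.s
  k86 k252 14 (.s k83 k92 2 (.s k80 k82 0 (.s k87 k84 0 (.d k95 k91 k90 1 2)))))))] .n) .n)))))

def s11_170_60 : T TT 256 :=
  (.q k1 [(.s k89 k93 1 (.s k169 k253 13 (.s k9 k249 11 (.s k13 k5 1 (.d k241 k161 k165 11 13))))),
  (.s k3 k2 0 (.s k161 k241 11 (.s k82 k240 12 (.s k83 k80 0 (.d k243 k163 k162 11 12))))), (.s k3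
  k2 0 (.s k89 k93 1 (.s k169 k253 13 (.s k86 k252 14 (.s k83 k92 2 (.d k243 k163 k162 11 12))))))]
  .n)

def s11_170_61 : T TT 256 :=
  (.q k1 [(.s k89 k93 1 (.s k169 k253 13 (.s k9 k249 11 (.s k13 k5 1 (.d k241 k161 k165 11 13))))),
  (.s k3 k2 0 (.s k161 k241 11 (.s k82 k240 12 (.s k83 k80 0 (.d k243 k163 k162 11 12))))), (.s k3
  k2 0 (.s k89 k93 1 (.s k169 k253 13 (.s k86 k252 14 (.s k83 k92 2 (.d k243 k163 k162 11 12))))))]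
  .n)

def s11_170_62 : T TT 256 :=
  (.q k1 [(.s k89 k93 1 (.s k169 k253 13 (.s k9 k249 11 (.s k13 k5 1 (.d k241 k161 k165 11 13))))),
  (.s k3 k2 0 (.s k161 k241 11 (.s k82 k240 12 (.s k83 k80 0 (.d k243 k163 k162 11 12))))), (.s k3
  k2 0 (.s k89 k93 1 (.s k169 k253 13 (.s k86 k252 14 (.s k83 k92 2 (.d k243 k163 k162 11 12))))))]
  .n)

def s11_170_63 : T TT 256 :=
  (.q k1 [(.s k89 k93 1 (.s k169 k253 13 (.s k9 k249 11 (.s k13 k5 1 (.d k241 k161 k165 11 13))))),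
  (.s k3 k2 0 (.s k161 k241 11 (.s k82 k240 12 (.s k83 k80 0 (.d k243 k163 k162 11 12))))), (.s k3
  k2 0 (.s k89 k93 1 (.s k169 k253 13 (.s k86 k252 14 (.s k83 k92 2 (.d k243 k163 k162 11 12))))))]
  .n)

def s11_170_64 : T TT 256 :=
  (.q k1 [(.s k89 k93 1 (.s k169 k253 13 (.s k9 k249 11 (.s k13 k5 1 (.d k241 k161 k165 11 13))))),
  (.s k3 k2 0 (.s k161 k241 11 (.s k82 k240 12 (.s k83 k80 0 (.d k243 k163 k162 11 12))))), (.s k3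
  k2 0 (.s k89 k93 1 (.s k169 k253 13 (.s k86 k252 14 (.s k83 k92 2 (.d k243 k163 k162 11 12))))))]
  .n)

def s11_170_65 : T TT 256 :=
  (.q k1 [(.s k89 k93 1 (.s k169 k253 13 (.s k9 k249 11 (.s k13 k5 1 (.d k241 k161 k165 11 13))))),
  (.s k3 k2 0 (.s k161 k241 11 (.s k82 k240 12 (.s k83 k80 0 (.d k243 k163 k162 11 12))))), (.s k3
  k2 0 (.s k89 k93 1 (.s k169 k253 13 (.s k86 k252 14 (.s k83 k92 2 (.d k243 k163 k162 11 12))))))]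
  .n)

def s11_170_66 : T TT 256 :=
  (.q k1 [(.s k89 k93 1 (.s k169 k253 13 (.s k9 k249 11 (.s k13 k5 1 (.d k241 k161 k165 11 13))))),
  (.s k3 k2 0 (.s k161 k241 11 (.s k82 k240 12 (.s k83 k80 0 (.d k243 k163 k162 11 12))))), (.s k3
  k2 0 (.s k89 k93 1 (.s k169 k253 13 (.s k86 k252 14 (.s k83 k92 2 (.d k243 k163 k162 11 12))))))]
  .n)

def s11_170_67 : T TT 256 :=
  (.q k1 [(.s k89 k93 1 (.s k169 k253 13 (.s k9 k249 11 (.s k13 k5 1 (.d k241 k161 k165 11 13))))),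
  (.s k3 k2 0 (.s k161 k241 11 (.s k82 k240 12 (.s k83 k80 0 (.d k243 k163 k162 11 12))))), (.s k3
  k2 0 (.s k89 k93 1 (.s k169 k253 13 (.s k86 k252 14 (.s k83 k92 2 (.d k243 k163 k162 11 12))))))]
  .n)

def s11_170_68 : T TT 256 :=
  (.q k1 [(.s k89 k93 1 (.s k169 k253 13 (.s k9 k249 11 (.s k13 k5 1 (.d k241 k161 k165 11 13))))),
  (.s k3 k2 0 (.s k161 k241 11 (.s k82 k240 12 (.s k83 k80 0 (.d k243 k163 k162 11 12))))), (.s k3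
  k2 0 (.s k89 k93 1 (.s k169 k253 13 (.s k86 k252 14 (.s k83 k92 2 (.d k243 k163 k162 11 12))))))]
  .n)

def s11_170_69 : T TT 256 :=
  (.q k1 [(.s k3 k2 0 (.s k161 k241 11 (.s k82 k240 12 (.s k83 k80 0 (.d k243 k163 k162 11 12))))),
  (.s k89 k93 1 (.s k169 k253 13 (.s k9 k249 11 (.s k13 k5 1 (.d k241 k161 k165 11 13))))), (.s k3
  k2 0 (.s k89 k93 1 (.s k169 k253 13 (.s k86 k252 14 (.s k83 k92 2 (.d k243 k163 k162 11 12))))))]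
  .n)

def s11_170_70 : T TT 256 :=
  (.q k1 [(.s k89 k93 1 (.s k169 k253 13 (.s k9 k249 11 (.s k13 k5 1 (.d k241 k161 k165 11 13))))),
  (.s k3 k2 0 (.s k161 k241 11 (.s k82 k240 12 (.s k83 k80 0 (.d k243 k163 k162 11 12))))), (.s k3
  k2 0 (.s k89 k93 1 (.s k169 k253 13 (.s k86 k252 14 (.s k83 k92 2 (.d k243 k163 k162 11 12))))))]
  .n)

def s11_170_71 : T TT 256 :=
  (.q k1 [(.s k89 k93 1 (.s k169 k253 13 (.s k9 k249 11 (.s k13 k5 1 (.d k241 k161 k165 11 13))))),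
  (.s k3 k2 0 (.s k161 k241 11 (.s k82 k240 12 (.s k83 k80 0 (.d k243 k163 k162 11 12))))), (.s k3
  k2 0 (.s k89 k93 1 (.s k169 k253 13 (.s k86 k252 14 (.s k83 k92 2 (.d k243 k163 k162 11 12))))))]
  .n)

def s11_170_72 : T TT 256 :=
  (.q k1 [(.s k89 k93 1 (.s k169 k253 13 (.s k9 k249 11 (.s k13 k5 1 (.d k241 k161 k165 11 13))))),
  (.s k3 k2 0 (.s k161 k241 11 (.s k82 k240 12 (.s k83 k80 0 (.d k243 k163 k162 11 12))))), (.s k3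
  k2 0 (.s k89 k93 1 (.s k169 k253 13 (.s k86 k252 14 (.s k83 k92 2 (.d k243 k163 k162 11 12))))))]
  .n)

def s11_170_73 : T TT 256 :=
  (.q k1 [(.s k89 k93 1 (.s k169 k253 13 (.s k9 k249 11 (.s k13 k5 1 (.d k241 k161 k165 11 13))))),
  (.s k3 k2 0 (.s k161 k241 11 (.s k82 k240 12 (.s k83 k80 0 (.d k243 k163 k162 11 12))))), (.s k3
  k2 0 (.s k89 k93 1 (.s k169 k253 13 (.s k86 k252 14 (.s k83 k92 2 (.d k243 k163 k162 11 12))))))]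
  .n)

def s11_170_74 : T TT 256 :=
  (.f k89 k93 1 (.f k162 k243 12 (.q k1 [(.s k161 k241 11 (.s k160 k163 0 (.s k240 k80 11 (.d k3 k2
  k82 0 12)))), (.s k169 k253 13 (.s k9 k249 11 (.s k13 k5 1 (.d k241 k161 k165 11 13)))), (.s k3 k2
  0 (.s k169 k253 13 (.s k86 k252 14 (.s k83 k92 2 (.s k80 k82 0 (.s k87 k84 0 (.d k95 k91 k90 1
  2)))))))] (.c k137 (.q k200 [(.s k161 k241 11 (.s k160 k163 0 (.s k240 k80 11 (.d k3 k2 k82 0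
  12)))), (.s k169 k253 13 (.s k9 k249 11 (.s k13 k5 1 (.d k241 k161 k165 11 13)))), (.s k3 k2 0 (.s
  k169 k253 13 (.s k86 k252 14 (.s k83 k92 2 (.s k80 k82 0 (.s k87 k84 0 (.d k95 k91 k90 1 2)))))))]
  .n) (.c k200 (.q k137 [(.s k161 k241 11 (.s k160 k163 0 (.s k240 k80 11 (.d k3 k2 k82 0 12)))),
  (.s k169 k253 13 (.s k9 k249 11 (.s k13 k5 1 (.d k241 k161 k165 11 13)))), (.s k3 k2 0 (.s k69
  k205 9 (.s k70 k204 10 (.s k71 k68 0 (.d k207 k139 k138 9 10)))))] .n) .n)))))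

def s11_170_75 : T TT 256 :=
  (.f k162 k243 12 (.f k89 k93 1 (.q k1 [(.s k161 k241 11 (.s k160 k163 0 (.s k240 k80 11 (.d k3 k2
  k82 0 12)))), (.s k169 k253 13 (.s k9 k249 11 (.s k13 k5 1 (.d k241 k161 k165 11 13)))), (.s k3 k2
  0 (.s k169 k253 13 (.s k86 k252 14 (.s k83 k92 2 (.s k80 k82 0 (.s k87 k84 0 (.d k95 k91 k90 1
  2)))))))] (.c k139 (.q k203 [(.s k161 k241 11 (.s k160 k163 0 (.s k240 k80 11 (.d k3 k2 k82 0
  12)))), (.s k169 k253 13 (.s k9 k249 11 (.s k13 k5 1 (.d k241 k161 k165 11 13)))), (.s k3 k2 0 (.s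
  k169 k253 13 (.s k86 k252 14 (.s k83 k92 2 (.s k80 k82 0 (.s k87 k84 0 (.d k95 k91 k90 1 2)))))))]
  .n) (.c k203 (.q k139 [(.s k161 k241 11 (.s k160 k163 0 (.s k240 k80 11 (.d k3 k2 k82 0 12)))),
  (.s k169 k253 13 (.s k9 k249 11 (.s k13 k5 1 (.d k241 k161 k165 11 13)))), (.s k3 k2 0 (.s k169
  k253 13 (.s k154 k184 4 (.s k16 k223 10 (.s k48 k32 3 (.d k207 k101 k71 14 9))))))] .n) .n)))))

def s11_170_76 : T TT 256 :=
  (.q k1 [(.s k3 k2 0 (.s k161 k241 11 (.s k82 k240 12 (.s k83 k80 0 (.d k243 k163 k162 11 12))))),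
  (.s k89 k93 1 (.s k169 k253 13 (.s k9 k249 11 (.s k13 k5 1 (.d k241 k161 k165 11 13))))), (.s k3
  k2 0 (.s k89 k93 1 (.s k169 k253 13 (.s k86 k252 14 (.s k83 k92 2 (.d k243 k163 k162 11 12))))))]
  .n)

def s11_170_77 : T TT 256 :=
  (.q k1 [(.s k3 k2 0 (.s k161 k241 11 (.s k82 k240 12 (.s k83 k80 0 (.d k243 k163 k162 11 12))))),
  (.s k89 k93 1 (.s k169 k253 13 (.s k9 k249 11 (.s k13 k5 1 (.d k241 k161 k165 11 13))))), (.s k3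
  k2 0 (.s k89 k93 1 (.s k169 k253 13 (.s k86 k252 14 (.s k83 k92 2 (.d k243 k163 k162 11 12))))))]
  .n)

def s11_170_78 : T TT 256 :=
  (.q k1 [(.s k89 k93 1 (.s k169 k253 13 (.s k9 k249 11 (.s k13 k5 1 (.d k241 k161 k165 11 13))))),
  (.s k3 k2 0 (.s k161 k241 11 (.s k82 k240 12 (.s k83 k80 0 (.d k243 k163 k162 11 12))))), (.s k3
  k2 0 (.s k89 k93 1 (.s k169 k253 13 (.s k86 k252 14 (.s k83 k92 2 (.d k243 k163 k162 11 12))))))]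
  .n)

def s11_170_79 : T TT 256 :=
  (.q k1 [(.s k89 k93 1 (.s k169 k253 13 (.s k9 k249 11 (.s k13 k5 1 (.d k241 k161 k165 11 13))))),
  (.s k3 k2 0 (.s k161 k241 11 (.s k82 k240 12 (.s k83 k80 0 (.d k243 k163 k162 11 12))))), (.s k3
  k2 0 (.s k89 k93 1 (.s k169 k253 13 (.s k86 k252 14 (.s k83 k92 2 (.d k243 k163 k162 11 12))))))]
  .n)

def s11_170_80 : T TT 256 :=
  (.q k1 [(.s k89 k93 1 (.s k241 k161 11 (.s k165 k13 13 (.s k245 k5 11 (.d k253 k249 k169 1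
  13))))), (.s k3 k2 0 (.s k169 k253 13 (.s k243 k162 12 (.s k163 k83 11 (.s k166 k172 2 (.s k4 k247
  12 (.d k12 k8 k89 1 14)))))))] (.c k89 (.l (.s k3 k2 0 (.s k161 k241 11 (.s k169 k253 13 (.s k165
  k173 1 (.s k240 k82 12 (.s k15 k90 14 (.d k5 k10 k245 2 11)))))))) (.c k169 (.l (.s k89 k93 1 (.s
  k241 k161 11 (.s k165 k13 13 (.s k5 k245 11 (.s k15 k10 2 (.s k243 k162 12 (.d k240 k90 k242 14
  0)))))))) (.c k253 (.l (.s k3 k2 0 (.s k89 k93 1 (.s k241 k161 11 (.s k13 k165 13 (.s k9 k5 1 (.s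
  k12 k6 2 (.d k243 k162 k166 12 14)))))))) .n))))

def s11_170_82 : T TT 256 :=
  (.q k16 [(.s k89 k93 1 (.s k154 k223 10 (.s k24 k219 8 (.s k28 k20 1 (.d k211 k146 k150 8 10))))),
  (.s k48 k32 3 (.s k146 k211 8 (.s k97 k195 12 (.s k113 k65 3 (.d k243 k178 k162 8 12))))), (.s k48
  k32 3 (.s k89 k93 1 (.s k154 k223 10 (.s k101 k207 14 (.s k113 k77 5 (.d k243 k178 k162 8
  12))))))] .n)

def s11_170_83 : T TT 256 :=
  (.q k1 [(.s k89 k93 1 (.s k169 k253 13 (.s k9 k249 11 (.s k13 k5 1 (.d k241 k161 k165 11 13))))),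
  (.s k3 k2 0 (.s k161 k241 11 (.s k162 k243 12 (.s k160 k163 0 (.d k240 k80 k82 11 12))))), (.s k3
  k2 0 (.s k89 k93 1 (.s k169 k253 13 (.s k243 k162 12 (.s k249 k9 11 (.d k252 k86 k246 14 2))))))]
  .n)

def s11_170_84 : T TT 256 :=
  (.q k1 [(.s k89 k93 1 (.s k169 k253 13 (.s k9 k249 11 (.s k13 k5 1 (.d k241 k161 k165 11 13))))),
  (.s k3 k2 0 (.s k161 k241 11 (.s k82 k240 12 (.s k83 k80 0 (.d k243 k163 k162 11 12))))), (.s k3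
  k2 0 (.s k89 k93 1 (.s k169 k253 13 (.s k86 k252 14 (.s k83 k92 2 (.d k243 k163 k162 11 12))))))]
  .n)

def s11_170_86 : T TT 256 :=
  (.q k1 [(.s k161 k241 11 (.s k162 k243 12 (.s k160 k163 0 (.s k240 k80 11 (.d k3 k2 k82 0 12))))),
  (.s k89 k93 1 (.s k169 k253 13 (.s k9 k249 11 (.s k13 k5 1 (.d k241 k161 k165 11 13))))), (.s k89
  k93 1 (.s k169 k253 13 (.s k243 k162 12 (.s k166 k12 14 (.s k163 k172 2 (.d k3 k2 k83 0 11))))))]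
  (.c k2 (.q k254 [(.s k89 k93 1 (.s k241 k161 11 (.s k165 k13 13 (.s k245 k5 11 (.d k253 k249 k169
  1 13))))), (.s k89 k93 1 (.s k243 k162 12 (.s k166 k12 14 (.s k247 k4 12 (.s k253 k169 13 (.d k255
  k252 k251 0 1)))))), (.s k241 k161 11 (.s k243 k162 12 (.s k253 k169 13 (.s k249 k245 1 (.d k252
  k255 k246 0 2)))))] (.c k169 (.l (.s k89 k93 1 (.s k241 k161 11 (.s k165 k13 13 (.s k5 k245 11 (.s
  k15 k10 2 (.s k243 k162 12 (.d k240 k242 k90 0 14)))))))) (.c k253 (.q k5 [(.s k13 k9 1 (.s k89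
  k93 1 (.d k165 k245 k241 11 13))), (.s k89 k93 1 (.s k165 k245 11 (.d k241 k13 k161 13 11))), (.s
  k15 k10 2 (.s k165 k245 11 (.s k241 k161 11 (.s k243 k162 12 (.d k240 k242 k90 0 14)))))] (.c k165
  (.l (.s k9 k13 1 (.s k241 k161 11 (.s k243 k162 12 (.s k242 k240 0 (.s k246 k250 1 (.s k249 k252 2
  (.d k89 k93 k169 1 11)))))))) (.c k241 (.l (.s k15 k10 2 (.s k89 k93 1 (.s k243 k162 12 (.s k91
  k167 13 (.s k90 k88 0 (.d k165 k245 k240 11 14))))))) (.c k245 (.l (.s k13 k9 1 (.s k89 k93 1 (.d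
  k241 k161 k165 11 13)))) .n)))) .n))) (.c k254 (.l (.s k2 k3 0 (.s k89 k93 1 (.s k169 k253 13 (.s
  k9 k249 11 (.s k13 k5 1 (.d k241 k161 k165 11 13))))))) .n)))

def s11_170_87 : T TT 256 :=
  (.q k1 [(.s k89 k93 1 (.s k169 k253 13 (.s k9 k249 11 (.s k13 k5 1 (.d k241 k161 k165 11 13))))),
  (.s k3 k2 0 (.s k161 k241 11 (.s k82 k240 12 (.s k83 k80 0 (.d k243 k163 k162 11 12))))), (.s k3
  k2 0 (.s k89 k93 1 (.s k169 k253 13 (.s k86 k252 14 (.s k83 k92 2 (.d k243 k163 k162 11 12))))))]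
  .n)

def s11_170_88 : T TT 256 :=
  (.q k1 [(.s k89 k93 1 (.s k169 k253 13 (.s k9 k249 11 (.s k13 k5 1 (.d k241 k161 k165 11 13))))),
  (.s k3 k2 0 (.s k161 k241 11 (.s k82 k240 12 (.s k83 k80 0 (.d k243 k163 k162 11 12))))), (.s k3
  k2 0 (.s k89 k93 1 (.s k169 k253 13 (.s k86 k252 14 (.s k83 k92 2 (.d k243 k163 k162 11 12))))))]
  .n)

def s11_170_89 : T TT 256 :=
  (.q k169 [(.s k1 k253 13 (.s k3 k2 0 (.s k243 k162 12 (.s k83 k163 11 (.s k82 k80 0 (.d k161 k241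
  k240 11 12)))))), (.s k1 k253 13 (.s k3 k2 0 (.s k161 k241 11 (.s k165 k173 1 (.s k240 k82 12 (.s
  k15 k90 14 (.d k5 k10 k245 2 11))))))), (.s k1 k253 13 (.s k161 k241 11 (.s k162 k243 12 (.s k160
  k163 0 (.s k240 k80 11 (.d k3 k2 k82 0 12))))))] (.c k1 (.q k90 [(.s k80 k95 2 (.s k240 k160 11
  (.s k165 k15 14 (.s k161 k173 1 (.d k82 k3 k83 12 0))))), (.s k80 k95 2 (.s k82 k83 0 (.s k160
  k240 11 (.s k162 k243 12 (.s k163 k161 0 (.s k166 k172 2 (.d k242 k2 k14 11 13))))))), (.s k80 k95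
  2 (.s k82 k83 0 (.s k86 k94 1 (.s k252 k3 14 (.d k84 k87 k168 0 13)))))] (.c k3 (.l (.s k80 k95 2
  (.s k82 k83 0 (.s k160 k240 11 (.s k162 k243 12 (.s k163 k161 0 (.s k166 k172 2 (.d k242 k2 k14 11
  13)))))))) (.c k8 (.q k251 [(.s k80 k95 2 (.s k240 k160 11 (.s k165 k15 14 (.s k161 k173 1 (.d k82
  k3 k83 12 0))))), (.s k80 k95 2 (.s k240 k160 11 (.s k243 k162 12 (.s k242 k241 0 (.s k166 k14 13
  (.d k247 k255 k4 1 12)))))), (.s k80 k95 2 (.s k82 k83 0 (.s k86 k94 1 (.s k252 k3 14 (.d k84 k87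
  k168 0 13)))))] (.c k9 (.q k10 [(.s k80 k95 2 (.s k240 k160 11 (.d k15 k5 k165 2 14))), (.s k243
  k162 12 (.s k247 k255 1 (.s k166 k4 12 (.s k242 k14 13 (.s k240 k241 0 (.d k15 k5 k165 2 14)))))),
  (.s k95 k80 2 (.s k243 k162 12 (.s k255 k247 1 (.d k15 k5 k175 2 11))))] (.c k5 (.q k13 [(.s k80
  k95 2 (.s k240 k160 11 (.s k165 k15 14 (.s k161 k173 1 (.d k82 k3 k83 12 0))))), (.s k243 k162 12
  (.s k247 k255 1 (.s k166 k4 12 (.s k14 k242 13 (.s k15 k12 0 (.s k165 k240 14 (.d k167 k164 k91 0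
  13))))))), (.s k80 k95 2 (.s k240 k160 11 (.s k243 k162 12 (.s k242 k241 0 (.s k166 k14 13 (.d
  k247 k255 k4 1 12)))))), (.s k80 k95 2 (.s k82 k83 0 (.s k86 k94 1 (.s k252 k3 14 (.d k84 k87 k168
  0 13)))))] .n) (.c k13 (.l (.s k5 k15 2 (.s k80 k95 2 (.s k82 k83 0 (.s k86 k94 1 (.s k240 k160 11
  (.d k3 k252 k161 14 12))))))) (.c k15 (.l (.s k80 k95 2 (.s k82 k83 0 (.s k86 k94 1 (.s k240 k160
  11 (.d k3 k252 k161 14 12)))))) .n)))) (.c k10 (.q k9 [(.s k80 k95 2 (.s k240 k160 11 (.s k165 k15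
  14 (.s k161 k173 1 (.d k82 k3 k83 12 0))))), (.s k243 k162 12 (.s k247 k255 1 (.s k166 k4 12 (.s
  k163 k172 2 (.s k3 k83 11 (.s k6 k12 2 (.d k86 k252 k246 14 11))))))), (.s k80 k95 2 (.s k240 k160
  11 (.s k243 k162 12 (.s k242 k241 0 (.s k166 k14 13 (.d k247 k255 k4 1 12))))))] (.c k255 (.l (.s
  k80 k95 2 (.s k82 k83 0 (.s k86 k94 1 (.s k3 k252 14 (.d k240 k160 k161 11 12)))))) .n)) (.c k80
  (.f k243 k162 12 (.f k247 k255 1 (.l (.s k166 k4 12 (.s k163 k172 2 (.s k3 k83 11 (.s k86 k252 14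
  (.s k82 k94 1 (.s k240 k161 12 (.d k242 k241 k14 0 13)))))))))) (.c k95 (.f k243 k162 12 (.l (.s
  k247 k255 1 (.s k166 k4 12 (.s k163 k172 2 (.s k83 k3 11 (.s k80 k82 0 (.s k240 k160 11 (.d k242
  k241 k14 0 13))))))))) .n))))) (.c k80 (.q k65 [(.s k105 k125 5 (.s k75 k120 4 (.s k195 k130 8 (.s
  k15 k135 9 (.s k5 k10 2 (.d k165 k245 k240 11 14)))))), (.s k97 k113 3 (.s k162 k243 12 (.s k32
  k227 8 (.s k48 k16 3 (.d k195 k130 k146 8 12))))), (.s k97 k113 3 (.s k105 k125 5 (.s k41 k233 7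
  (.s k101 k109 1 (.s k33 k237 9 (.s k45 k37 1 (.d k225 k161 k165 7 9)))))))] (.c k8 (.q k251 [(.s
  k105 k125 5 (.s k75 k120 4 (.s k195 k130 8 (.s k15 k135 9 (.s k165 k240 14 (.d k5 k10 k245 2
  11)))))), (.s k97 k113 3 (.s k162 k243 12 (.s k32 k227 8 (.s k48 k16 3 (.d k195 k130 k146 8
  12))))), (.s k113 k97 3 (.s k125 k105 5 (.s k121 k117 1 (.s k243 k162 12 (.s k60 k182 10 (.d k255
  k247 k190 1 8))))))] (.c k9 (.q k10 [(.s k105 k125 5 (.s k75 k120 4 (.s k195 k130 8 (.d k15 k5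
  k135 2 9)))), (.s k97 k113 3 (.s k162 k243 12 (.s k32 k227 8 (.s k48 k16 3 (.d k195 k130 k146 8
  12))))), (.s k5 k15 2 (.s k97 k113 3 (.s k105 k125 5 (.s k165 k245 11 (.s k161 k173 1 (.d k225 k33
  k45 7 9))))))] (.c k5 (.q k13 [(.s k105 k125 5 (.s k195 k130 8 (.s k150 k60 14 (.s k215 k20 8 (.s
  k255 k235 5 (.d k243 k247 k162 1 12)))))), (.s k97 k113 3 (.s k162 k243 12 (.s k32 k227 8 (.s k48
  k16 3 (.d k195 k130 k146 8 12))))), (.s k113 k97 3 (.s k125 k105 5 (.s k121 k117 1 (.s k243 k162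
  12 (.s k60 k182 10 (.d k255 k247 k190 1 8)))))), (.s k105 k125 5 (.s k195 k130 8 (.s k233 k41 7
  (.s k252 k214 6 (.s k84 k168 13 (.d k86 k87 k3 0 14))))))] .n) (.c k13 (.l (.s k5 k15 2 (.s k97
  k113 3 (.s k105 k125 5 (.s k165 k245 11 (.s k161 k173 1 (.d k225 k33 k45 7 9))))))) .n))) (.c k10
  (.q k9 [(.s k105 k125 5 (.s k195 k130 8 (.s k150 k60 14 (.s k215 k20 8 (.s k255 k235 5 (.d k243
  k247 k162 1 12)))))), (.s k97 k113 3 (.s k162 k243 12 (.s k32 k227 8 (.s k48 k16 3 (.d k195 k130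
  k146 8 12))))), (.s k113 k97 3 (.s k125 k105 5 (.s k121 k117 1 (.s k243 k162 12 (.s k60 k182 10
  (.d k255 k247 k190 1 8)))))), (.s k105 k125 5 (.s k195 k130 8 (.s k233 k41 7 (.s k252 k214 6 (.s
  k84 k168 13 (.d k86 k87 k3 0 14))))))] .n) .n))) (.c k251 (.q k8 [(.s k12 k4 1 (.s k195 k130 8 (.s
  k73 k134 10 (.s k69 k77 1 (.d k138 k203 k207 8 10))))), (.s k195 k130 8 (.s k243 k162 12 (.s k211
  k227 3 (.s k146 k16 8 (.d k97 k113 k48 3 12))))), (.s k4 k12 1 (.s k97 k113 3 (.s k105 k125 5 (.s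
  k166 k247 12 (.s k227 k44 10 (.d k162 k243 k32 12 8))))))] (.c k91 (.q k171 [(.s k12 k4 1 (.s k195
  k130 8 (.s k73 k134 10 (.s k69 k77 1 (.d k138 k203 k207 8 10))))), (.s k195 k130 8 (.s k243 k162
  12 (.s k211 k227 3 (.s k146 k16 8 (.d k97 k113 k48 3 12))))), (.s k4 k12 1 (.s k97 k113 3 (.s k105
  k125 5 (.s k166 k247 12 (.s k227 k44 10 (.d k162 k243 k32 12 8))))))] (.c k113 (.l (.s k12 k4 1
  (.s k195 k130 8 (.s k73 k134 10 (.s k138 k203 8 (.d k69 k77 k207 1 10)))))) .n)) (.c k113 (.l (.s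
  k12 k4 1 (.s k195 k130 8 (.s k73 k134 10 (.s k138 k203 8 (.d k69 k77 k207 1 10)))))) (.c k171 (.q
  k91 [(.s k243 k162 12 (.s k15 k167 13 (.s k5 k10 2 (.d k165 k245 k240 11 14)))), (.s k12 k4 1 (.s
  k195 k130 8 (.s k73 k134 10 (.s k69 k77 1 (.d k138 k203 k207 8 10)))))] .n) .n)))) .n))) (.c k82
  (.f k243 k162 12 (.f k80 k95 2 (.l (.s k240 k160 11 (.s k165 k15 14 (.s k242 k241 0 (.s k166 k14
  13 (.s k4 k247 12 (.s k164 k167 0 (.d k12 k8 k88 1 13)))))))))) (.c k83 (.f k80 k95 2 (.f k240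
  k160 11 (.l (.s k165 k15 14 (.s k161 k173 1 (.s k3 k82 12 (.s k245 k5 11 (.s k255 k250 2 (.s k87
  k171 13 (.d k86 k252 k84 14 0)))))))))) (.c k95 (.q k86 [(.s k84 k87 0 (.d k252 k168 k3 13 14)),
  (.s k3 k252 14 (.s k82 k94 1 (.s k83 k80 0 (.d k243 k163 k162 11 12))))] (.c k3 (.l (.s k84 k87 0
  (.s k94 k82 1 (.s k252 k168 13 (.s k15 k173 12 (.s k5 k10 2 (.d k165 k240 k245 14 11))))))) (.c k8
  (.q k251 [(.s k84 k87 0 (.d k252 k168 k3 13 14)), (.s k3 k252 14 (.s k82 k94 1 (.s k83 k80 0 (.d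
  k243 k163 k162 11 12))))] (.c k3 (.l (.s k84 k87 0 (.s k243 k162 12 (.s k252 k168 13 (.s k246 k249
  2 (.s k166 k6 11 (.d k247 k255 k4 1 12))))))) (.c k9 (.q k10 [(.s k84 k87 0 (.d k252 k168 k3 13
  14)), (.s k94 k82 1 (.s k252 k3 14 (.d k15 k5 k173 2 12))), (.s k82 k94 1 (.s k80 k83 0 (.s k240
  k160 11 (.d k15 k5 k165 2 14))))] (.c k5 (.q k13 [(.s k84 k87 0 (.d k252 k168 k3 13 14)), (.s k243
  k162 12 (.s k247 k255 1 (.s k166 k4 12 (.s k6 k246 11 (.d k14 k2 k242 1 13)))))] .n) (.c k13 (.l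
  (.s k5 k15 2 (.s k84 k87 0 (.d k252 k3 k168 14 13)))) .n))) (.c k10 (.q k9 [(.s k84 k87 0 (.d k252
  k168 k3 13 14)), (.s k3 k252 14 (.s k82 k94 1 (.s k83 k80 0 (.d k243 k163 k162 11 12))))] (.c k3
  (.l (.s k84 k87 0 (.s k243 k162 12 (.s k252 k168 13 (.s k246 k249 2 (.s k166 k6 11 (.d k247 k255
  k4 1 12))))))) (.c k83 (.l (.s k252 k3 14 (.d k84 k87 k168 0 13))) (.c k252 (.l (.s k82 k94 1 (.s
  k80 k83 0 (.s k240 k160 11 (.s k161 k3 12 (.d k165 k173 k15 1 14)))))) .n)))) (.c k83 (.l (.s k252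
  k3 14 (.d k84 k87 k168 0 13))) (.c k252 (.l (.s k82 k94 1 (.s k80 k83 0 (.s k240 k160 11 (.s k161
  k3 12 (.d k165 k173 k15 1 14)))))) .n)))))) (.c k83 (.l (.s k252 k3 14 (.d k84 k87 k168 0 13)))
  (.c k251 (.q k8 [(.s k84 k87 0 (.d k252 k168 k3 13 14)), (.s k4 k12 1 (.s k82 k94 1 (.s k166 k247
  12 (.s k242 k14 13 (.d k162 k243 k2 12 11)))))] (.c k91 (.q k171 [(.s k3 k252 14 (.d k87 k84 k255
  0 13)), (.s k4 k12 1 (.s k82 k94 1 (.s k166 k247 12 (.s k242 k14 13 (.d k162 k243 k2 12 11)))))]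
  (.c k83 (.l (.s k87 k84 0 (.d k3 k255 k252 13 14))) (.c k87 (.q k83 [(.d k82 k80 k94 0 1), (.s k3
  k252 14 (.d k243 k163 k162 11 12))] .n) (.c k255 (.l (.s k252 k3 14 (.d k84 k87 k168 0 13)))
  .n)))) (.c k171 (.q k91 [(.s k84 k87 0 (.d k252 k3 k168 14 13)), (.s k243 k162 12 (.s k15 k167 13
  (.s k5 k10 2 (.d k165 k245 k240 11 14))))] .n) .n))) (.c k252 (.l (.s k82 k94 1 (.s k80 k83 0 (.s
  k240 k160 11 (.s k161 k3 12 (.d k165 k173 k15 1 14)))))) .n)))))) (.c k251 (.q k8 [(.s k80 k95 2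
  (.s k82 k83 0 (.s k86 k94 1 (.s k3 k252 14 (.d k240 k160 k161 11 12))))), (.s k4 k12 1 (.s k80 k95
  2 (.s k160 k240 11 (.s k166 k247 12 (.s k163 k172 2 (.d k162 k243 k161 12 0)))))), (.s k4 k12 1
  (.s k80 k95 2 (.s k82 k83 0 (.s k166 k247 12 (.s k242 k14 13 (.d k162 k243 k2 12 11))))))] (.c k80
  (.f k4 k12 1 (.f k166 k247 12 (.l (.s k163 k172 2 (.s k242 k14 13 (.s k243 k162 12 (.s k3 k83 11
  (.s k240 k241 0 (.s k82 k161 12 (.d k86 k252 k94 14 1)))))))))) (.c k91 (.q k171 [(.s k4 k12 1 (.s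
  k80 k95 2 (.s k83 k82 0 (.s k166 k247 12 (.s k163 k172 2 (.d k243 k3 k162 11 12)))))), (.s k80 k95
  2 (.s k240 k160 11 (.s k165 k15 14 (.s k161 k173 1 (.d k82 k83 k3 0 12))))), (.s k4 k12 1 (.s k166
  k247 12 (.s k163 k172 2 (.s k167 k175 1 (.s k165 k164 0 (.s k5 k245 11 (.d k15 k240 k10 14
  2))))))), (.s k12 k4 1 (.s k80 k95 2 (.s k240 k160 11 (.s k88 k164 13 (.s k84 k92 1 (.d k168 k248
  k252 11 13))))))] (.c k252 (.l (.s k4 k12 1 (.s k80 k95 2 (.s k83 k82 0 (.s k166 k247 12 (.s k243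
  k162 12 (.d k163 k172 k3 2 11))))))) .n)) (.c k92 (.l (.s k80 k95 2 (.s k240 k160 11 (.s k165 k15
  14 (.s k161 k173 1 (.d k82 k3 k83 12 0)))))) (.c k95 (.f k4 k12 1 (.l (.s k166 k247 12 (.s k163
  k172 2 (.s k242 k14 13 (.s k243 k162 12 (.s k83 k3 11 (.s k80 k82 0 (.d k240 k241 k160 0
  11))))))))) (.c k171 (.q k91 [(.s k243 k162 12 (.s k15 k167 13 (.s k5 k10 2 (.d k165 k245 k240 11
  14)))), (.s k80 k95 2 (.s k82 k83 0 (.s k86 k94 1 (.s k84 k87 0 (.d k252 k3 k168 14 13)))))] .n)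
  .n)))))) .n)))))))) (.c k2 (.f k1 k253 13 (.l (.s k161 k241 11 (.s k162 k243 12 (.s k160 k163 0
  (.s k165 k173 1 (.s k240 k80 11 (.s k15 k90 14 (.d k5 k10 k245 2 11))))))))) (.c k3 (.f k162 k243
  12 (.f k1 k253 13 (.f k161 k241 11 (.f k163 k160 0 (.l (.s k165 k173 1 (.s k166 k172 2 (.s k4 k247
  12 (.s k164 k167 0 (.s k244 k84 11 (.s k7 k86 12 (.d k5 k6 k245 0 11)))))))))))) (.c k8 (.q k251
  [(.s k1 k253 13 (.s k3 k2 0 (.s k86 k252 14 (.s k87 k84 0 (.s k255 k171 13 (.d k243 k247 k162 1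
  12)))))), (.s k1 k253 13 (.s k161 k241 11 (.s k162 k243 12 (.s k160 k163 0 (.s k240 k80 11 (.d k3
  k2 k82 0 12))))))] (.c k1 (.f k243 k162 12 (.f k247 k255 1 (.l (.s k166 k4 12 (.s k163 k172 2 (.s
  k83 k3 11 (.s k80 k82 0 (.s k90 k95 2 (.s k240 k160 11 (.d k242 k241 k14 0 13)))))))))) (.c k2 (.l
  (.s k243 k162 12 (.s k253 k1 13 (.s k255 k247 1 (.s k252 k254 0 (.s k86 k3 14 (.d k84 k87 k168 0
  13))))))) (.c k3 (.l (.s k243 k162 12 (.s k253 k1 13 (.s k255 k247 1 (.s k252 k254 0 (.s k249 k246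
  2 (.s k245 k241 1 (.d k250 k248 k240 0 2)))))))) (.c k9 (.q k10 [(.s k1 k253 13 (.s k161 k241 11
  (.s k165 k173 1 (.d k5 k245 k15 11 2)))), (.s k1 k253 13 (.s k3 k2 0 (.s k86 k252 14 (.s k87 k84 0
  (.s k243 k162 12 (.d k255 k247 k171 1 13))))))] (.c k1 (.f k5 k15 2 (.l (.s k243 k162 12 (.s k245
  k165 11 (.s k247 k255 1 (.s k166 k4 12 (.s k246 k244 0 (.s k86 k6 11 (.d k252 k3 k249 14
  2))))))))) (.c k253 (.l (.s k15 k5 2 (.s k243 k162 12 (.s k91 k167 13 (.s k255 k247 1 (.s k95 k175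
  11 (.s k80 k90 2 (.d k83 k87 k82 1 0)))))))) .n))) (.c k10 (.q k9 [(.s k1 k253 13 (.s k5 k13 1 (.s
  k161 k241 11 (.d k165 k173 k245 1 11)))), (.s k243 k162 12 (.s k247 k255 1 (.s k166 k4 12 (.s k163
  k172 2 (.s k3 k83 11 (.s k6 k12 2 (.d k86 k252 k246 14 11)))))))] (.c k90 (.q k250 [(.s k1 k253 13
  (.s k5 k13 1 (.s k161 k241 11 (.d k165 k173 k245 1 11)))), (.s k243 k162 12 (.s k249 k248 0 (.s
  k252 k246 2 (.s k86 k3 14 (.d k84 k168 k87 13 0)))))] (.c k88 (.q k91 [(.s k1 k253 13 (.s k5 k13 1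
  (.s k161 k241 11 (.d k165 k173 k245 1 11)))), (.s k243 k162 12 (.s k15 k167 13 (.s k255 k247 1 (.s
  k95 k175 11 (.s k87 k83 1 (.s k86 k84 0 (.d k3 k171 k252 13 14)))))))] (.c k165 (.l (.s k1 k253 13
  (.s k241 k161 11 (.s k243 k162 12 (.s k240 k242 0 (.d k255 k247 k245 1 2)))))) (.c k168 (.l (.s
  k248 k249 0 (.s k1 k253 13 (.s k5 k13 1 (.s k243 k162 12 (.s k255 k247 1 (.d k245 k165 k240 11
  2))))))) (.c k248 (.q k168 [(.s k1 k253 13 (.s k252 k84 13 (.d k3 k2 k86 0 14))), (.s k1 k253 13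
  (.s k5 k13 1 (.s k161 k241 11 (.d k165 k173 k245 1 11)))), (.s k84 k252 13 (.s k87 k86 0 (.s k243
  k162 12 (.s k167 k15 13 (.d k247 k7 k255 11 1)))))] .n) .n)))) (.c k91 (.q k88 [(.s k1 k253 13 (.s
  k5 k13 1 (.s k161 k241 11 (.d k165 k173 k245 1 11)))), (.s k243 k162 12 (.s k249 k248 0 (.s k252
  k246 2 (.s k84 k168 13 (.d k86 k87 k3 0 14)))))] (.c k249 (.l (.s k1 k253 13 (.s k5 k13 1 (.s k243
  k162 12 (.s k255 k247 1 (.d k245 k165 k240 11 2)))))) .n)) (.c k249 (.l (.s k1 k253 13 (.s k5 k13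
  1 (.s k243 k162 12 (.s k255 k247 1 (.d k245 k165 k240 11 2)))))) .n)))) (.c k93 (.l (.s k1 k253 13
  (.s k3 k2 0 (.s k86 k252 14 (.s k87 k84 0 (.s k243 k162 12 (.d k255 k247 k171 1 13))))))) (.c k250
  (.q k90 [(.s k1 k253 13 (.s k5 k13 1 (.s k161 k241 11 (.d k165 k173 k245 1 11)))), (.s k1 k253 13
  (.s k2 k3 0 (.s k80 k95 2 (.s k82 k83 0 (.d k162 k243 k242 12 11))))), (.s k80 k95 2 (.s k82 k83 0
  (.s k86 k94 1 (.s k3 k252 14 (.d k240 k160 k161 11 12)))))] .n) .n)))) (.c k162 (.l (.s k1 k253 13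
  (.s k3 k2 0 (.s k86 k252 14 (.s k161 k241 11 (.s k82 k240 12 (.s k80 k83 0 (.d k90 k94 k95 1
  2)))))))) (.c k243 (.l (.s k1 k253 13 (.s k3 k2 0 (.s k161 k241 11 (.s k165 k173 1 (.s k240 k82 12
  (.s k15 k90 14 (.d k5 k10 k245 2 11)))))))) (.c k253 (.f k243 k162 12 (.f k247 k255 1 (.l (.s k166
  k4 12 (.s k163 k172 2 (.s k83 k3 11 (.s k80 k82 0 (.s k90 k95 2 (.s k240 k160 11 (.d k242 k241 k14
  0 13)))))))))) .n))))))))) (.c k82 (.f k1 k253 13 (.l (.s k161 k241 11 (.s k162 k243 12 (.s k160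
  k163 0 (.s k165 k173 1 (.s k240 k80 11 (.s k15 k90 14 (.d k5 k10 k245 2 11))))))))) (.c k161 (.f
  k1 k253 13 (.f k3 k2 0 (.l (.s k86 k252 14 (.s k87 k84 0 (.s k243 k162 12 (.s k163 k83 11 (.s k166
  k172 2 (.s k247 k4 12 (.d k255 k251 k171 1 13)))))))))) (.c k162 (.l (.s k1 k253 13 (.s k3 k2 0
  (.s k86 k252 14 (.s k161 k241 11 (.s k82 k240 12 (.s k80 k83 0 (.d k90 k94 k95 1 2)))))))) (.c
  k240 (.f k1 k253 13 (.l (.s k3 k2 0 (.s k86 k252 14 (.s k87 k84 0 (.s k243 k162 12 (.s k83 k163 11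
  (.s k95 k91 1 (.d k80 k82 k90 0 2))))))))) (.c k241 (.f k1 k253 13 (.l (.s k3 k2 0 (.s k86 k252 14
  (.s k87 k84 0 (.s k243 k162 12 (.s k83 k163 11 (.s k95 k91 1 (.d k80 k82 k90 0 2))))))))) (.c k242
  (.l (.s k1 k253 13 (.s k3 k2 0 (.s k161 k241 11 (.s k82 k240 12 (.s k243 k162 12 (.d k83 k80 k163
  0 11))))))) (.c k251 (.q k8 [(.s k1 k253 13 (.s k3 k2 0 (.s k4 k12 1 (.s k166 k247 12 (.s k163
  k172 2 (.d k243 k83 k162 11 12)))))), (.s k1 k253 13 (.s k3 k2 0 (.s k12 k4 1 (.s k9 k6 2 (.s k5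
  k13 1 (.s k161 k241 11 (.d k165 k173 k245 1 11))))))), (.s k1 k253 13 (.s k4 k12 1 (.s k161 k241
  11 (.s k166 k247 12 (.s k163 k172 2 (.d k162 k243 k160 12 0)))))), (.s k1 k253 13 (.s k3 k2 0 (.s
  k161 k241 11 (.s k82 k240 12 (.s k83 k80 0 (.d k243 k163 k162 11 12))))))] (.c k1 (.f k4 k12 1 (.f
  k166 k247 12 (.l (.s k163 k172 2 (.s k243 k162 12 (.s k83 k3 11 (.s k80 k82 0 (.s k90 k95 2 (.s
  k240 k160 11 (.d k242 k241 k14 0 13)))))))))) (.c k91 (.q k171 [(.s k1 k253 13 (.s k3 k2 0 (.s k86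
  k252 14 (.d k87 k255 k84 13 0)))), (.s k1 k253 13 (.s k4 k12 1 (.s k161 k241 11 (.s k166 k247 12
  (.s k163 k172 2 (.d k162 k243 k160 12 0)))))), (.s k4 k12 1 (.s k166 k247 12 (.s k163 k172 2 (.s
  k243 k162 12 (.s k3 k83 11 (.s k87 k255 13 (.d k86 k252 k84 14 0)))))))] (.c k88 (.q k90 [(.s k1
  k253 13 (.s k3 k2 0 (.s k86 k252 14 (.d k87 k255 k84 13 0)))), (.s k1 k253 13 (.s k80 k95 2 (.s
  k160 k240 11 (.s k161 k241 11 (.d k162 k243 k163 12 0))))), (.s k80 k95 2 (.s k240 k160 11 (.s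
  k165 k15 14 (.s k161 k173 1 (.d k82 k83 k3 0 12)))))] (.c k87 (.l (.s k1 k253 13 (.s k2 k3 0 (.s
  k162 k243 12 (.s k82 k242 11 (.d k80 k83 k95 0 2)))))) .n)) (.c k90 (.q k88 [(.s k1 k253 13 (.s k3
  k2 0 (.s k86 k252 14 (.d k87 k255 k84 13 0)))), (.s k12 k4 1 (.s k164 k240 13 (.s k168 k248 11 (.s
  k172 k160 1 (.d k252 k92 k84 11 13))))), (.s k1 k253 13 (.s k3 k2 0 (.s k12 k4 1 (.s k161 k241 11
  (.d k240 k82 k164 12 13)))))] (.c k10 (.q k250 [(.s k1 k253 13 (.s k168 k248 11 (.s k252 k84 13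
  (.d k3 k2 k86 0 14)))), (.s k1 k253 13 (.s k12 k4 1 (.s k240 k164 13 (.s k241 k161 11 (.d k243
  k242 k162 0 12))))), (.s k12 k4 1 (.s k164 k240 13 (.s k168 k248 11 (.s k172 k160 1 (.d k252 k92
  k84 11 13)))))] (.c k84 (.l (.s k1 k253 13 (.s k3 k2 0 (.s k12 k4 1 (.s k161 k241 11 (.d k240 k164
  k82 13 12)))))) .n)) (.c k250 (.q k10 [(.s k1 k253 13 (.s k3 k2 0 (.s k86 k252 14 (.d k87 k255 k84
  13 0)))), (.s k1 k253 13 (.s k161 k241 11 (.s k165 k173 1 (.d k5 k245 k15 11 2)))), (.s k12 k4 1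
  (.s k240 k164 13 (.s k80 k160 11 (.s k84 k92 1 (.d k168 k248 k252 11 13)))))] (.c k248 (.q k249
  [(.s k253 k1 13 (.s k245 k241 1 (.d k5 k165 k15 11 2))), (.s k243 k162 12 (.s k252 k246 2 (.s k84
  k168 13 (.d k86 k87 k3 0 14))))] .n) (.c k249 (.l (.s k248 k168 11 (.s k1 k253 13 (.s k3 k2 0 (.s
  k86 k252 14 (.d k87 k255 k84 13 0)))))) .n))) .n))) (.c k252 (.l (.s k1 k253 13 (.s k3 k2 0 (.s k4
  k12 1 (.s k166 k247 12 (.s k243 k162 12 (.d k163 k172 k83 2 11))))))) (.c k255 (.l (.s k1 k253 13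
  (.s k3 k2 0 (.s k4 k12 1 (.s k166 k247 12 (.s k243 k162 12 (.d k163 k172 k83 2 11))))))) .n)))))
  (.c k171 (.q k91 [(.s k1 k253 13 (.s k3 k2 0 (.s k86 k252 14 (.s k87 k84 0 (.s k83 k95 1 (.d k243
  k163 k162 11 12)))))), (.s k1 k253 13 (.s k3 k2 0 (.s k12 k4 1 (.s k9 k6 2 (.s k5 k13 1 (.s k161
  k241 11 (.d k165 k173 k245 1 11))))))), (.s k4 k12 1 (.s k166 k247 12 (.s k163 k172 2 (.s k243
  k162 12 (.s k83 k3 11 (.s k80 k82 0 (.d k95 k87 k90 1 2))))))), (.s k1 k253 13 (.s k4 k12 1 (.s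
  k161 k241 11 (.s k166 k247 12 (.s k163 k172 2 (.d k162 k243 k160 12 0))))))] .n) (.c k253 (.f k4
  k12 1 (.f k166 k247 12 (.l (.s k163 k172 2 (.s k243 k162 12 (.s k83 k3 11 (.s k80 k82 0 (.s k90
  k95 2 (.s k240 k160 11 (.d k242 k241 k14 0 13)))))))))) .n))))) (.c k253 (.q k90 [(.s k80 k95 2
  (.s k82 k83 0 (.s k86 k94 1 (.s k240 k160 11 (.d k3 k161 k252 12 14))))), (.s k80 k95 2 (.s k240
  k160 11 (.s k243 k162 12 (.s k241 k242 0 (.s k161 k1 11 (.d k165 k173 k15 1 14)))))), (.s k80 k95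
  2 (.s k82 k83 0 (.s k86 k94 1 (.s k252 k3 14 (.d k84 k87 k168 0 13)))))] (.c k8 (.q k251 [(.s k80
  k95 2 (.s k82 k83 0 (.s k86 k94 1 (.s k240 k160 11 (.d k3 k161 k252 12 14))))), (.s k80 k95 2 (.s
  k240 k160 11 (.s k243 k162 12 (.s k241 k242 0 (.s k161 k1 11 (.d k165 k173 k15 1 14)))))), (.s k80
  k95 2 (.s k82 k83 0 (.s k86 k94 1 (.s k252 k3 14 (.d k84 k87 k168 0 13)))))] (.c k9 (.q k10 [(.s
  k80 k95 2 (.s k240 k160 11 (.d k15 k165 k5 14 2))), (.s k15 k5 2 (.s k165 k240 14 (.s k173 k161 1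
  (.s k252 k94 12 (.s k84 k168 13 (.d k86 k3 k87 14 0)))))), (.s k80 k95 2 (.s k82 k83 0 (.s k86 k94
  1 (.s k3 k252 14 (.d k240 k160 k161 11 12)))))] (.c k15 (.l (.s k80 k95 2 (.s k82 k83 0 (.s k86
  k94 1 (.s k240 k160 11 (.d k3 k252 k161 14 12)))))) (.c k240 (.l (.s k15 k5 2 (.s k95 k80 2 (.s
  k243 k162 12 (.d k255 k247 k175 1 11))))) .n))) (.c k10 (.q k9 [(.s k80 k95 2 (.s k82 k83 0 (.s
  k86 k94 1 (.s k240 k160 11 (.d k3 k161 k252 12 14))))), (.s k243 k162 12 (.s k247 k255 1 (.s k166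
  k4 12 (.s k163 k172 2 (.s k3 k83 11 (.s k6 k12 2 (.d k86 k252 k246 14 11))))))), (.s k80 k95 2 (.s
  k240 k160 11 (.s k243 k162 12 (.s k241 k242 0 (.s k161 k1 11 (.d k165 k173 k15 1 14))))))] .n) (.c
  k80 (.q k10 [(.s k15 k5 2 (.s k165 k240 14 (.s k173 k161 1 (.s k252 k94 12 (.s k84 k168 13 (.d k86
  k3 k87 14 0)))))), (.s k243 k162 12 (.s k247 k255 1 (.s k166 k4 12 (.s k14 k242 13 (.s k163 k172 2
  (.s k3 k83 11 (.d k2 k1 k6 0 1))))))), (.s k15 k5 2 (.s k165 k240 14 (.s k243 k162 12 (.s k167 k91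
  13 (.s k166 k164 0 (.d k247 k255 k4 1 12))))))] .n) (.c k82 (.l (.s k80 k95 2 (.s k240 k160 11 (.s
  k165 k15 14 (.s k161 k173 1 (.s k241 k1 11 (.d k243 k242 k162 0 12))))))) (.c k95 (.f k243 k162 12
  (.l (.s k247 k255 1 (.s k166 k4 12 (.s k163 k172 2 (.s k3 k83 11 (.s k1 k2 0 (.s k241 k161 11 (.d
  k242 k240 k14 0 13))))))))) .n)))))) (.c k80 (.f k243 k162 12 (.q k166 [(.s k163 k172 2 (.s k242
  k14 13 (.s k241 k240 0 (.s k1 k161 11 (.d k3 k2 k83 0 11))))), (.s k4 k247 12 (.s k163 k172 2 (.s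
  k3 k83 11 (.s k86 k252 14 (.s k6 k246 11 (.d k12 k8 k9 1 2)))))), (.s k242 k14 13 (.s k241 k240 0
  (.s k161 k1 11 (.s k165 k173 1 (.s k5 k245 11 (.s k15 k10 2 (.d k167 k164 k91 0 13)))))))] (.c k8
  (.q k251 [(.d k247 k255 k4 1 12), (.s k163 k172 2 (.s k3 k83 11 (.s k1 k2 0 (.s k241 k161 11 (.d
  k242 k240 k14 0 13)))))] (.c k9 (.q k10 [(.d k247 k255 k4 1 12), (.s k15 k5 2 (.s k165 k240 14 (.d
  k167 k164 k91 0 13)))] .n) (.c k10 (.q k9 [(.d k247 k255 k4 1 12), (.s k163 k172 2 (.s k3 k83 11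
  (.s k6 k12 2 (.d k86 k252 k246 14 11))))] .n) .n))) (.c k251 (.q k8 [(.d k4 k12 k247 1 12), (.s
  k163 k172 2 (.s k3 k83 11 (.s k1 k2 0 (.s k241 k161 11 (.d k242 k240 k14 0 13)))))] (.c k91 (.q
  k171 [(.d k4 k12 k247 1 12), (.s k163 k172 2 (.s k3 k83 11 (.s k87 k255 13 (.d k86 k252 k84 14
  0))))] .n) (.c k171 (.q k91 [(.d k4 k12 k247 1 12), (.s k15 k167 13 (.s k5 k10 2 (.d k165 k245
  k240 11 14)))] .n) .n))) .n)))) (.c k82 (.l (.s k80 k95 2 (.s k240 k160 11 (.s k165 k15 14 (.s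
  k161 k173 1 (.s k241 k1 11 (.d k243 k242 k162 0 12))))))) (.c k95 (.q k86 [(.s k84 k87 0 (.d k252
  k168 k3 13 14)), (.s k3 k252 14 (.s k1 k2 0 (.s k82 k94 1 (.d k161 k241 k240 11 12))))] (.c k3 (.l
  (.s k84 k87 0 (.s k94 k82 1 (.s k252 k168 13 (.s k15 k173 12 (.s k5 k10 2 (.d k165 k240 k245 14
  11))))))) (.c k8 (.q k251 [(.s k84 k87 0 (.d k252 k168 k3 13 14)), (.s k3 k252 14 (.s k1 k2 0 (.s
  k82 k94 1 (.d k161 k241 k240 11 12))))] (.c k3 (.l (.s k84 k87 0 (.s k243 k162 12 (.s k252 k168 13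
  (.s k246 k249 2 (.s k166 k6 11 (.d k247 k255 k4 1 12))))))) (.c k9 (.q k10 [(.s k84 k87 0 (.d k252
  k168 k3 13 14)), (.s k15 k5 2 (.s k94 k82 1 (.d k252 k173 k3 12 14))), (.s k15 k5 2 (.s k82 k94 1
  (.s k80 k83 0 (.d k240 k160 k165 11 14))))] .n) (.c k10 (.q k9 [(.s k84 k87 0 (.d k252 k168 k3 13
  14)), (.s k3 k252 14 (.s k1 k2 0 (.s k82 k94 1 (.d k161 k241 k240 11 12))))] (.c k3 (.l (.s k84
  k87 0 (.s k243 k162 12 (.s k252 k168 13 (.s k246 k249 2 (.s k166 k6 11 (.d k247 k255 k4 1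
  12))))))) (.c k252 (.l (.s k82 k94 1 (.s k80 k83 0 (.s k240 k160 11 (.s k161 k3 12 (.d k165 k173
  k15 1 14)))))) .n))) (.c k252 (.l (.s k82 k94 1 (.s k80 k83 0 (.s k240 k160 11 (.s k161 k3 12 (.d
  k165 k173 k15 1 14)))))) .n))))) (.c k251 (.q k8 [(.s k84 k87 0 (.d k252 k168 k3 13 14)), (.s k4
  k12 1 (.s k82 k94 1 (.s k166 k247 12 (.s k242 k14 13 (.d k162 k243 k2 12 11)))))] (.c k91 (.q k171
  [(.s k87 k84 0 (.d k3 k255 k252 13 14)), (.s k4 k12 1 (.s k82 k94 1 (.s k166 k247 12 (.s k242 k14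
  13 (.d k162 k243 k2 12 11)))))] (.c k83 (.l (.s k87 k84 0 (.d k3 k255 k252 13 14))) (.c k87 (.q
  k83 [(.d k82 k80 k94 0 1), (.s k3 k252 14 (.d k243 k163 k162 11 12))] .n) (.c k255 (.l (.s k252 k3
  14 (.d k84 k87 k168 0 13))) .n)))) (.c k171 (.q k91 [(.s k84 k87 0 (.d k252 k3 k168 14 13)), (.s
  k243 k162 12 (.s k15 k167 13 (.s k5 k10 2 (.d k165 k245 k240 11 14))))] .n) .n))) (.c k252 (.l (.s
  k82 k94 1 (.s k80 k83 0 (.s k240 k160 11 (.s k161 k3 12 (.d k165 k173 k15 1 14)))))) .n))))) (.c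
  k251 (.q k8 [(.s k80 k95 2 (.s k82 k83 0 (.s k86 k94 1 (.s k240 k160 11 (.d k3 k161 k252 12
  14))))), (.s k4 k12 1 (.s k80 k95 2 (.s k82 k83 0 (.s k166 k247 12 (.s k242 k14 13 (.d k162 k243
  k2 12 11)))))), (.s k4 k12 1 (.s k80 k95 2 (.s k160 k240 11 (.s k166 k247 12 (.s k163 k172 2 (.d
  k162 k243 k161 12 0))))))] (.c k80 (.f k4 k12 1 (.l (.s k166 k247 12 (.s k163 k172 2 (.s k242 k14
  13 (.s k243 k162 12 (.s k3 k83 11 (.s k1 k2 0 (.d k241 k240 k161 0 11))))))))) (.c k91 (.q k171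
  [(.s k4 k12 1 (.s k80 k95 2 (.s k83 k82 0 (.s k166 k247 12 (.s k163 k172 2 (.d k243 k3 k162 11
  12)))))), (.s k80 k95 2 (.s k240 k160 11 (.s k165 k15 14 (.s k161 k173 1 (.d k82 k83 k3 0 12))))),
  (.s k4 k12 1 (.s k166 k247 12 (.s k163 k172 2 (.s k167 k175 1 (.s k165 k164 0 (.s k5 k245 11 (.d
  k15 k240 k10 14 2))))))), (.s k12 k4 1 (.s k80 k95 2 (.s k240 k160 11 (.s k88 k164 13 (.s k84 k92
  1 (.d k168 k248 k252 11 13))))))] (.c k252 (.l (.s k4 k12 1 (.s k80 k95 2 (.s k83 k82 0 (.s k166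
  k247 12 (.s k243 k162 12 (.d k163 k172 k3 2 11))))))) .n)) (.c k92 (.l (.s k80 k95 2 (.s k240 k160
  11 (.s k165 k15 14 (.s k161 k173 1 (.d k82 k3 k83 12 0)))))) (.c k95 (.f k4 k12 1 (.l (.s k166
  k247 12 (.s k163 k172 2 (.s k242 k14 13 (.s k243 k162 12 (.s k3 k83 11 (.s k1 k2 0 (.d k241 k240
  k161 0 11))))))))) (.c k171 (.q k91 [(.s k243 k162 12 (.s k15 k167 13 (.s k5 k10 2 (.d k165 k245
  k240 11 14)))), (.s k80 k95 2 (.s k82 k83 0 (.s k86 k94 1 (.s k84 k87 0 (.d k252 k3 k168 14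
  13)))))] .n) .n)))))) .n)))))) .n)))))))))))))

def s11_170_90 : T TT 256 :=
  (.f k89 k93 1 (.q k169 [(.s k1 k253 13 (.s k9 k249 11 (.s k13 k5 1 (.d k241 k161 k165 11 13)))),
  (.s k243 k162 12 (.s k249 k9 11 (.s k252 k246 2 (.s k84 k168 13 (.d k86 k87 k3 0 14))))), (.s k1
  k253 13 (.s k3 k2 0 (.s k86 k252 14 (.s k83 k92 2 (.d k243 k163 k162 11 12)))))] (.c k10 (.q k250
  [(.s k1 k253 13 (.s k9 k249 11 (.s k13 k5 1 (.d k241 k161 k165 11 13)))), (.s k243 k162 12 (.s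
  k166 k12 14 (.s k163 k172 2 (.s k3 k83 11 (.s k252 k86 14 (.d k249 k9 k246 11 2))))))] (.c k8 (.l
  (.s k9 k249 11 (.s k1 k253 13 (.s k13 k5 1 (.d k241 k161 k165 11 13))))) (.c k9 (.q k8 [(.s k12 k4
  1 (.d k243 k162 k166 12 14)), (.s k1 k253 13 (.s k3 k2 0 (.s k86 k252 14 (.s k83 k92 2 (.s k82 k80
  0 (.d k161 k241 k240 11 12))))))] (.c k12 (.l (.s k1 k253 13 (.s k3 k2 0 (.s k86 k252 14 (.s k243
  k162 12 (.d k83 k92 k163 2 11)))))) .n)) (.c k249 (.l (.s k1 k253 13 (.s k3 k2 0 (.s k86 k252 14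
  (.s k83 k92 2 (.d k243 k163 k162 11 12)))))) .n)))) (.c k250 (.q k10 [(.s k1 k253 13 (.s k5 k15 2
  (.d k9 k13 k249 1 11))), (.s k243 k162 12 (.s k249 k9 11 (.s k252 k246 2 (.s k84 k168 13 (.d k86
  k87 k3 0 14)))))] (.c k3 (.l (.s k1 k253 13 (.s k9 k249 11 (.d k5 k13 k15 1 2)))) (.c k9 (.l (.s
  k1 k253 13 (.s k5 k15 2 (.s k161 k241 11 (.d k165 k173 k245 1 11))))) (.c k249 (.l (.s k1 k253 13
  (.s k5 k15 2 (.s k13 k9 1 (.d k165 k245 k241 11 13))))) .n)))) .n))))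

def s11_170_91 : T TT 256 :=
  (.f k89 k93 1 (.q k169 [(.s k1 k253 13 (.s k9 k249 11 (.s k13 k5 1 (.d k241 k161 k165 11 13)))),
  (.s k243 k162 12 (.s k249 k9 11 (.s k252 k246 2 (.s k84 k168 13 (.d k86 k87 k3 0 14))))), (.s k1
  k253 13 (.s k3 k2 0 (.s k86 k252 14 (.s k83 k92 2 (.d k243 k163 k162 11 12)))))] (.c k171 (.q k251
  [(.s k243 k162 12 (.s k166 k12 14 (.d k247 k255 k4 1 12))), (.s k1 k253 13 (.s k9 k249 11 (.s k13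
  k5 1 (.d k241 k161 k165 11 13))))] .n) (.c k251 (.q k171 [(.s k1 k253 13 (.s k3 k2 0 (.s k86 k252
  14 (.d k87 k255 k84 13 0)))), (.s k1 k253 13 (.s k9 k249 11 (.s k13 k5 1 (.d k241 k161 k165 11
  13)))), (.s k243 k162 12 (.s k249 k9 11 (.s k252 k246 2 (.s k84 k168 13 (.d k86 k87 k3 0 14)))))]
  .n) .n))))

def s11_170_92 : T TT 256 :=
  (.q k1 [(.s k3 k2 0 (.s k161 k241 11 (.s k162 k243 12 (.s k160 k163 0 (.d k240 k80 k82 11 12))))),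
  (.s k89 k93 1 (.s k169 k253 13 (.s k9 k249 11 (.s k13 k5 1 (.d k241 k161 k165 11 13))))), (.s k3
  k2 0 (.s k89 k93 1 (.s k169 k253 13 (.s k243 k162 12 (.s k163 k83 11 (.d k166 k172 k12 2 14))))))]
  .n)

def s11_170_93 : T TT 256 :=
  (.q k1 [(.s k161 k241 11 (.s k162 k243 12 (.s k160 k163 0 (.s k240 k80 11 (.d k3 k2 k82 0 12))))),
  (.s k3 k2 0 (.s k169 k253 13 (.s k243 k162 12 (.s k163 k83 11 (.s k166 k172 2 (.s k4 k247 12 (.d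
  k12 k8 k89 1 14))))))), (.s k3 k2 0 (.s k161 k241 11 (.s k169 k253 13 (.s k240 k82 12 (.s k80 k160
  11 (.s k90 k95 2 (.d k165 k173 k15 1 14)))))))] (.c k2 (.f k169 k253 13 (.f k162 k243 12 (.f k161
  k241 11 (.f k160 k163 0 (.l (.s k240 k80 11 (.s k3 k82 12 (.s k86 k252 14 (.s k87 k84 0 (.s k255
  k171 13 (.s k245 k250 2 (.d k165 k173 k5 1 11)))))))))))) (.c k3 (.f k253 k169 13 (.f k243 k162 12
  (.f k241 k161 11 (.l (.s k240 k242 0 (.s k245 k249 1 (.s k165 k5 11 (.s k89 k13 13 (.s k166 k12 14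
  (.s k167 k164 0 (.d k15 k91 k90 13 14))))))))))) (.c k82 (.q k4 [(.s k166 k247 12 (.s k243 k162 12
  (.d k12 k8 k89 1 14))), (.s k3 k2 0 (.s k166 k247 12 (.s k169 k253 13 (.s k163 k172 2 (.d k243
  k162 k83 12 11))))), (.s k3 k2 0 (.s k12 k8 1 (.s k9 k6 2 (.s k5 k13 1 (.s k161 k241 11 (.s k165
  k245 11 (.d k169 k173 k253 1 13))))))), (.s k12 k8 1 (.s k166 k247 12 (.d k243 k89 k162 14 12)))]
  (.c k162 (.l (.s k12 k8 1 (.s k166 k247 12 (.s k89 k243 14 (.s k169 k253 13 (.s k9 k249 11 (.d k3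
  k2 k6 0 2))))))) .n)) (.c k162 (.l (.s k3 k2 0 (.s k161 k241 11 (.s k82 k240 12 (.s k80 k83 0 (.s
  k90 k95 2 (.s k169 k253 13 (.d k86 k94 k252 1 14)))))))) (.c k242 (.l (.s k3 k2 0 (.s k161 k241 11
  (.s k82 k240 12 (.s k243 k162 12 (.d k83 k80 k163 0 11)))))) .n))))))

def s11_170_94 : T TT 256 :=
  (.q k1 [(.s k3 k2 0 (.s k161 k241 11 (.s k82 k240 12 (.s k83 k80 0 (.d k243 k163 k162 11 12))))),
  (.s k89 k93 1 (.s k169 k253 13 (.s k9 k249 11 (.s k13 k5 1 (.d k241 k161 k165 11 13))))), (.s k3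
  k2 0 (.s k89 k93 1 (.s k169 k253 13 (.s k86 k252 14 (.s k243 k162 12 (.d k83 k92 k163 2 11))))))]
  .n)

def s11_170_95 : T TT 256 :=
  (.q k1 [(.s k3 k2 0 (.s k161 k241 11 (.s k82 k240 12 (.s k83 k80 0 (.d k243 k163 k162 11 12))))),
  (.s k89 k93 1 (.s k169 k253 13 (.s k9 k249 11 (.s k13 k5 1 (.d k241 k161 k165 11 13))))), (.s k3
  k2 0 (.s k89 k93 1 (.s k169 k253 13 (.s k86 k252 14 (.s k243 k162 12 (.d k83 k92 k163 2 11))))))]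
  .n)

def s11_170_96 : T TT 256 :=
  (.q k1 [(.s k89 k93 1 (.s k169 k253 13 (.s k9 k249 11 (.s k13 k5 1 (.d k241 k161 k165 11 13))))),
  (.s k3 k2 0 (.s k161 k241 11 (.s k82 k240 12 (.s k83 k80 0 (.d k243 k163 k162 11 12))))), (.s k3
  k2 0 (.s k89 k93 1 (.s k169 k253 13 (.s k86 k252 14 (.s k83 k92 2 (.d k243 k163 k162 11 12))))))]
  .n)

def s11_170_97 : T TT 256 :=
  (.q k1 [(.s k89 k93 1 (.s k169 k253 13 (.s k9 k249 11 (.s k13 k5 1 (.d k241 k161 k165 11 13))))),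
  (.s k3 k2 0 (.s k161 k241 11 (.s k82 k240 12 (.s k83 k80 0 (.d k243 k163 k162 11 12))))), (.s k3
  k2 0 (.s k89 k93 1 (.s k169 k253 13 (.s k86 k252 14 (.s k83 k92 2 (.d k243 k163 k162 11 12))))))]
  .n)

def s11_170_98 : T TT 256 :=
  (.q k1 [(.s k89 k93 1 (.s k169 k253 13 (.s k9 k249 11 (.s k13 k5 1 (.d k241 k161 k165 11 13))))),
  (.s k3 k2 0 (.s k161 k241 11 (.s k82 k240 12 (.s k83 k80 0 (.d k243 k163 k162 11 12))))), (.s k3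
  k2 0 (.s k89 k93 1 (.s k169 k253 13 (.s k86 k252 14 (.s k83 k92 2 (.d k243 k163 k162 11 12))))))]
  .n)

def s11_170_99 : T TT 256 :=
  (.q k1 [(.s k89 k93 1 (.s k169 k253 13 (.s k9 k249 11 (.s k13 k5 1 (.d k241 k161 k165 11 13))))),
  (.s k3 k2 0 (.s k161 k241 11 (.s k82 k240 12 (.s k83 k80 0 (.d k243 k163 k162 11 12))))), (.s k3
  k2 0 (.s k89 k93 1 (.s k169 k253 13 (.s k86 k252 14 (.s k83 k92 2 (.d k243 k163 k162 11 12))))))]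
  .n)

def s11_170_100 : T TT 256 :=
  (.q k1 [(.s k89 k93 1 (.s k169 k253 13 (.s k9 k249 11 (.s k13 k5 1 (.d k241 k161 k165 11 13))))),
  (.s k3 k2 0 (.s k161 k241 11 (.s k82 k240 12 (.s k83 k80 0 (.d k243 k163 k162 11 12))))), (.s k3
  k2 0 (.s k89 k93 1 (.s k169 k253 13 (.s k86 k252 14 (.s k83 k92 2 (.d k243 k163 k162 11 12))))))]
  .n)

def s11_170_101 : T TT 256 :=
  (.f k89 k93 1 (.q k16 [(.s k211 k146 8 (.s k150 k28 10 (.s k215 k20 8 (.d k223 k219 k154 1 10)))),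
  (.s k146 k211 8 (.s k162 k243 12 (.s k130 k178 3 (.s k195 k65 8 (.d k48 k32 k97 3 12))))), (.s
  k154 k223 10 (.s k243 k162 12 (.s k166 k12 14 (.s k178 k142 5 (.d k48 k32 k113 3 8)))))] (.c k32
  (.q k239 [(.s k211 k146 8 (.s k150 k28 10 (.s k215 k20 8 (.d k223 k219 k154 1 10)))), (.s k223
  k154 10 (.s k243 k162 12 (.s k166 k12 14 (.s k247 k4 12 (.d k255 k207 k251 3 1)))))] (.c k154 (.l
  (.s k211 k146 8 (.s k150 k28 10 (.s k20 k215 8 (.s k60 k40 5 (.s k243 k162 12 (.d k195 k227 k105 3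
  14))))))) (.c k223 (.l (.s k211 k146 8 (.s k28 k150 10 (.s k20 k24 1 (.s k60 k40 5 (.s k243 k162
  12 (.d k12 k44 k166 3 14))))))) .n))) (.c k239 (.l (.s k32 k48 3 (.s k154 k223 10 (.s k24 k219 8
  (.s k28 k20 1 (.d k211 k146 k150 8 10)))))) .n))))

def s11_170_102 : T TT 256 :=
  (.f k89 k93 1 (.q k17 [(.s k209 k145 7 (.s k149 k29 9 (.s k213 k21 7 (.d k221 k217 k153 1 9)))),
  (.s k145 k209 7 (.s k162 k243 12 (.s k128 k179 4 (.s k192 k64 7 (.d k51 k34 k98 4 12))))), (.s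
  k153 k221 9 (.s k243 k162 12 (.s k166 k12 14 (.s k179 k140 6 (.d k51 k34 k115 4 7)))))] (.c k34
  (.q k238 [(.s k209 k145 7 (.s k149 k29 9 (.s k213 k21 7 (.d k221 k217 k153 1 9)))), (.s k221 k153
  9 (.s k243 k162 12 (.s k166 k12 14 (.s k247 k4 12 (.d k255 k204 k251 4 1)))))] (.c k153 (.l (.s
  k209 k145 7 (.s k149 k29 9 (.s k21 k213 7 (.s k63 k42 6 (.s k243 k162 12 (.d k192 k226 k106 4
  14))))))) (.c k221 (.l (.s k209 k145 7 (.s k29 k149 9 (.s k21 k25 1 (.s k63 k42 6 (.s k243 k162 12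
  (.d k12 k46 k166 4 14))))))) .n))) (.c k238 (.l (.s k34 k51 4 (.s k153 k221 9 (.s k25 k217 7 (.s
  k29 k21 1 (.d k209 k145 k149 7 9)))))) .n))))

def s11_170_103 : T TT 256 :=
  (.q k1 [(.s k89 k93 1 (.s k169 k253 13 (.s k9 k249 11 (.s k13 k5 1 (.d k241 k161 k165 11 13))))),
  (.s k3 k2 0 (.s k161 k241 11 (.s k82 k240 12 (.s k83 k80 0 (.d k243 k163 k162 11 12))))), (.s k3
  k2 0 (.s k89 k93 1 (.s k169 k253 13 (.s k86 k252 14 (.s k83 k92 2 (.d k243 k163 k162 11 12))))))]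
  .n)

def s11_170_104 : T TT 256 :=
  (.q k1 [(.s k89 k93 1 (.s k169 k253 13 (.s k9 k249 11 (.s k13 k5 1 (.d k241 k161 k165 11 13))))),
  (.s k3 k2 0 (.s k161 k241 11 (.s k82 k240 12 (.s k83 k80 0 (.d k243 k163 k162 11 12))))), (.s k3
  k2 0 (.s k89 k93 1 (.s k169 k253 13 (.s k86 k252 14 (.s k83 k92 2 (.d k243 k163 k162 11 12))))))]
  .n)

def s11_170_105 : T TT 256 :=
  (.f k162 k243 12 (.f k89 k93 1 (.q k1 [(.s k161 k241 11 (.s k160 k163 0 (.s k240 k80 11 (.d k3 k2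
  k82 0 12)))), (.s k169 k253 13 (.s k9 k249 11 (.s k13 k5 1 (.d k241 k161 k165 11 13)))), (.s k3 k2
  0 (.s k169 k253 13 (.s k86 k252 14 (.s k83 k92 2 (.s k80 k82 0 (.s k87 k84 0 (.d k95 k91 k90 1
  2)))))))] (.c k40 (.q k235 [(.s k161 k241 11 (.s k160 k163 0 (.s k240 k80 11 (.d k3 k2 k82 0
  12)))), (.s k169 k253 13 (.s k9 k249 11 (.s k13 k5 1 (.d k241 k161 k165 11 13)))), (.s k3 k2 0 (.s
  k169 k253 13 (.s k86 k252 14 (.s k83 k92 2 (.s k80 k82 0 (.s k87 k84 0 (.d k95 k91 k90 1 2)))))))]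
  .n) (.c k235 (.q k40 [(.s k161 k241 11 (.s k160 k163 0 (.s k240 k80 11 (.d k3 k2 k82 0 12)))), (.s
  k169 k253 13 (.s k9 k249 11 (.s k13 k5 1 (.d k241 k161 k165 11 13)))), (.s k3 k2 0 (.s k60 k20 5
  (.s k41 k22 6 (.s k21 k61 5 (.d k42 k43 k63 0 6)))))] .n) .n)))))

def s11_170_106 : T TT 256 :=
  (.f k162 k243 12 (.f k89 k93 1 (.q k1 [(.s k161 k241 11 (.s k160 k163 0 (.s k240 k80 11 (.d k3 k2
  k82 0 12)))), (.s k169 k253 13 (.s k9 k249 11 (.s k13 k5 1 (.d k241 k161 k165 11 13)))), (.s k3 k2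
  0 (.s k169 k253 13 (.s k86 k252 14 (.s k83 k92 2 (.s k80 k82 0 (.s k87 k84 0 (.d k95 k91 k90 1
  2)))))))] (.c k42 (.q k234 [(.s k161 k241 11 (.s k160 k163 0 (.s k240 k80 11 (.d k3 k2 k82 0
  12)))), (.s k169 k253 13 (.s k9 k249 11 (.s k13 k5 1 (.d k241 k161 k165 11 13)))), (.s k3 k2 0 (.s
  k169 k253 13 (.s k86 k252 14 (.s k83 k92 2 (.s k80 k82 0 (.s k87 k84 0 (.d k95 k91 k90 1 2)))))))]
  .n) (.c k234 (.q k42 [(.s k161 k241 11 (.s k160 k163 0 (.s k240 k80 11 (.d k3 k2 k82 0 12)))), (.s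
  k169 k253 13 (.s k9 k249 11 (.s k13 k5 1 (.d k241 k161 k165 11 13)))), (.s k3 k2 0 (.s k21 k63 6
  (.s k41 k61 5 (.s k40 k43 0 (.d k60 k20 k22 5 6)))))] .n) .n)))))

def s11_170_107 : T TT 256 :=
  (.q k1 [(.s k89 k93 1 (.s k169 k253 13 (.s k9 k249 11 (.s k13 k5 1 (.d k241 k161 k165 11 13))))),
  (.s k3 k2 0 (.s k161 k241 11 (.s k82 k240 12 (.s k83 k80 0 (.d k243 k163 k162 11 12))))), (.s k3
  k2 0 (.s k89 k93 1 (.s k169 k253 13 (.s k86 k252 14 (.s k83 k92 2 (.d k243 k163 k162 11 12))))))]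
  .n)

def s11_170_108 : T TT 256 :=
  (.q k1 [(.s k89 k93 1 (.s k169 k253 13 (.s k9 k249 11 (.s k13 k5 1 (.d k241 k161 k165 11 13))))),
  (.s k3 k2 0 (.s k161 k241 11 (.s k82 k240 12 (.s k83 k80 0 (.d k243 k163 k162 11 12))))), (.s k3
  k2 0 (.s k89 k93 1 (.s k169 k253 13 (.s k86 k252 14 (.s k83 k92 2 (.d k243 k163 k162 11 12))))))]
  .n)

def s11_170_109 : T TT 256 :=
  (.q k1 [(.s k3 k2 0 (.s k161 k241 11 (.s k82 k240 12 (.s k83 k80 0 (.d k243 k163 k162 11 12))))),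
  (.s k89 k93 1 (.s k169 k253 13 (.s k9 k249 11 (.s k13 k5 1 (.d k241 k161 k165 11 13))))), (.s k3
  k2 0 (.s k89 k93 1 (.s k169 k253 13 (.s k86 k252 14 (.s k83 k92 2 (.d k243 k163 k162 11 12))))))]
  .n)

def s11_170_110 : T TT 256 :=
  (.q k1 [(.s k3 k2 0 (.s k161 k241 11 (.s k82 k240 12 (.s k83 k80 0 (.d k243 k163 k162 11 12))))),
  (.s k89 k93 1 (.s k169 k253 13 (.s k9 k249 11 (.s k13 k5 1 (.d k241 k161 k165 11 13))))), (.s k3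
  k2 0 (.s k89 k93 1 (.s k169 k253 13 (.s k86 k252 14 (.s k83 k92 2 (.d k243 k163 k162 11 12))))))]
  .n)

def s11_170_111 : T TT 256 :=
  (.q k1 [(.s k89 k93 1 (.s k169 k253 13 (.s k9 k249 11 (.s k13 k5 1 (.d k241 k161 k165 11 13))))),
  (.s k3 k2 0 (.s k161 k241 11 (.s k82 k240 12 (.s k83 k80 0 (.d k243 k163 k162 11 12))))), (.s k3
  k2 0 (.s k89 k93 1 (.s k169 k253 13 (.s k86 k252 14 (.s k83 k92 2 (.d k243 k163 k162 11 12))))))]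
  .n)

def s11_170_112 : T TT 256 :=
  (.q k1 [(.s k89 k93 1 (.s k169 k253 13 (.s k9 k249 11 (.s k13 k5 1 (.d k241 k161 k165 11 13))))),
  (.s k3 k2 0 (.s k161 k241 11 (.s k82 k240 12 (.s k83 k80 0 (.d k243 k163 k162 11 12))))), (.s k3
  k2 0 (.s k89 k93 1 (.s k169 k253 13 (.s k86 k252 14 (.s k83 k92 2 (.d k243 k163 k162 11 12))))))]
  .n)

def s11_170_113 : T TT 256 :=
  (.q k1 [(.s k89 k93 1 (.s k169 k253 13 (.s k9 k249 11 (.s k13 k5 1 (.d k241 k161 k165 11 13))))),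
  (.s k3 k2 0 (.s k161 k241 11 (.s k82 k240 12 (.s k83 k80 0 (.d k243 k163 k162 11 12))))), (.s k3
  k2 0 (.s k89 k93 1 (.s k169 k253 13 (.s k86 k252 14 (.s k83 k92 2 (.d k243 k163 k162 11 12))))))]
  .n)

def s11_170_114 : T TT 256 :=
  (.q k1 [(.s k89 k93 1 (.s k169 k253 13 (.s k9 k249 11 (.s k13 k5 1 (.d k241 k161 k165 11 13))))),
  (.s k3 k2 0 (.s k161 k241 11 (.s k82 k240 12 (.s k83 k80 0 (.d k243 k163 k162 11 12))))), (.s k3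
  k2 0 (.s k89 k93 1 (.s k169 k253 13 (.s k86 k252 14 (.s k83 k92 2 (.d k243 k163 k162 11 12))))))]
  .n)

def s11_170_115 : T TT 256 :=
  (.q k1 [(.s k89 k93 1 (.s k169 k253 13 (.s k9 k249 11 (.s k13 k5 1 (.d k241 k161 k165 11 13))))),
  (.s k3 k2 0 (.s k161 k241 11 (.s k82 k240 12 (.s k83 k80 0 (.d k243 k163 k162 11 12))))), (.s k3
  k2 0 (.s k89 k93 1 (.s k169 k253 13 (.s k86 k252 14 (.s k83 k92 2 (.d k243 k163 k162 11 12))))))]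
  .n)

def s11_170_116 : T TT 256 :=
  (.q k1 [(.s k89 k93 1 (.s k169 k253 13 (.s k9 k249 11 (.s k13 k5 1 (.d k241 k161 k165 11 13))))),
  (.s k3 k2 0 (.s k161 k241 11 (.s k82 k240 12 (.s k83 k80 0 (.d k243 k163 k162 11 12))))), (.s k3
  k2 0 (.s k89 k93 1 (.s k169 k253 13 (.s k86 k252 14 (.s k83 k92 2 (.d k243 k163 k162 11 12))))))]
  .n)

def s11_170_117 : T TT 256 :=
  (.q k1 [(.s k3 k2 0 (.s k161 k241 11 (.s k82 k240 12 (.s k83 k80 0 (.d k243 k163 k162 11 12))))),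
  (.s k89 k93 1 (.s k169 k253 13 (.s k9 k249 11 (.s k13 k5 1 (.d k241 k161 k165 11 13))))), (.s k3
  k2 0 (.s k89 k93 1 (.s k169 k253 13 (.s k86 k252 14 (.s k83 k92 2 (.d k243 k163 k162 11 12))))))]
  .n)

def s11_170_118 : T TT 256 :=
  (.q k1 [(.s k89 k93 1 (.s k169 k253 13 (.s k9 k249 11 (.s k13 k5 1 (.d k241 k161 k165 11 13))))),
  (.s k3 k2 0 (.s k161 k241 11 (.s k82 k240 12 (.s k83 k80 0 (.d k243 k163 k162 11 12))))), (.s k3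
  k2 0 (.s k89 k93 1 (.s k169 k253 13 (.s k86 k252 14 (.s k83 k92 2 (.d k243 k163 k162 11 12))))))]
  .n)

def s11_170_119 : T TT 256 :=
  (.q k1 [(.s k89 k93 1 (.s k169 k253 13 (.s k9 k249 11 (.s k13 k5 1 (.d k241 k161 k165 11 13))))),
  (.s k3 k2 0 (.s k161 k241 11 (.s k82 k240 12 (.s k83 k80 0 (.d k243 k163 k162 11 12))))), (.s k3
  k2 0 (.s k89 k93 1 (.s k169 k253 13 (.s k86 k252 14 (.s k83 k92 2 (.d k243 k163 k162 11 12))))))]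
  .n)

def s11_170_120 : T TT 256 :=
  (.q k1 [(.s k89 k93 1 (.s k169 k253 13 (.s k9 k249 11 (.s k13 k5 1 (.d k241 k161 k165 11 13))))),
  (.s k3 k2 0 (.s k161 k241 11 (.s k82 k240 12 (.s k83 k80 0 (.d k243 k163 k162 11 12))))), (.s k3
  k2 0 (.s k89 k93 1 (.s k169 k253 13 (.s k86 k252 14 (.s k83 k92 2 (.d k243 k163 k162 11 12))))))]
  .n)

def s11_170_121 : T TT 256 :=
  (.q k1 [(.s k89 k93 1 (.s k169 k253 13 (.s k9 k249 11 (.s k13 k5 1 (.d k241 k161 k165 11 13))))),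
  (.s k3 k2 0 (.s k161 k241 11 (.s k82 k240 12 (.s k83 k80 0 (.d k243 k163 k162 11 12))))), (.s k3
  k2 0 (.s k89 k93 1 (.s k169 k253 13 (.s k86 k252 14 (.s k83 k92 2 (.d k243 k163 k162 11 12))))))]
  .n)

def s11_170_122 : T TT 256 :=
  (.q k1 [(.s k89 k93 1 (.s k169 k253 13 (.s k9 k249 11 (.s k13 k5 1 (.d k241 k161 k165 11 13))))),
  (.s k3 k2 0 (.s k161 k241 11 (.s k82 k240 12 (.s k83 k80 0 (.d k243 k163 k162 11 12))))), (.s k3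
  k2 0 (.s k89 k93 1 (.s k169 k253 13 (.s k86 k252 14 (.s k83 k92 2 (.d k243 k163 k162 11 12))))))]
  .n)

def s11_170_123 : T TT 256 :=
  (.q k1 [(.s k89 k93 1 (.s k169 k253 13 (.s k9 k249 11 (.s k13 k5 1 (.d k241 k161 k165 11 13))))),
  (.s k3 k2 0 (.s k161 k241 11 (.s k82 k240 12 (.s k83 k80 0 (.d k243 k163 k162 11 12))))), (.s k3
  k2 0 (.s k89 k93 1 (.s k169 k253 13 (.s k86 k252 14 (.s k83 k92 2 (.d k243 k163 k162 11 12))))))]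
  .n)

def s11_170_124 : T TT 256 :=
  (.q k1 [(.s k89 k93 1 (.s k169 k253 13 (.s k9 k249 11 (.s k13 k5 1 (.d k241 k161 k165 11 13))))),
  (.s k3 k2 0 (.s k161 k241 11 (.s k82 k240 12 (.s k83 k80 0 (.d k243 k163 k162 11 12))))), (.s k3
  k2 0 (.s k89 k93 1 (.s k169 k253 13 (.s k86 k252 14 (.s k83 k92 2 (.d k243 k163 k162 11 12))))))]
  .n)

def s11_170_125 : T TT 256 :=
  (.q k1 [(.s k3 k2 0 (.s k161 k241 11 (.s k82 k240 12 (.s k83 k80 0 (.d k243 k163 k162 11 12))))),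
  (.s k89 k93 1 (.s k169 k253 13 (.s k9 k249 11 (.s k13 k5 1 (.d k241 k161 k165 11 13))))), (.s k3
  k2 0 (.s k89 k93 1 (.s k169 k253 13 (.s k86 k252 14 (.s k83 k92 2 (.d k243 k163 k162 11 12))))))]
  .n)

def s11_170_126 : T TT 256 :=
  (.q k1 [(.s k89 k93 1 (.s k169 k253 13 (.s k9 k249 11 (.s k13 k5 1 (.d k241 k161 k165 11 13))))),
  (.s k3 k2 0 (.s k161 k241 11 (.s k82 k240 12 (.s k83 k80 0 (.d k243 k163 k162 11 12))))), (.s k3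
  k2 0 (.s k89 k93 1 (.s k169 k253 13 (.s k86 k252 14 (.s k83 k92 2 (.d k243 k163 k162 11 12))))))]
  .n)

def s11_170_127 : T TT 256 :=
  (.q k1 [(.s k3 k2 0 (.s k161 k241 11 (.s k82 k240 12 (.s k83 k80 0 (.d k243 k163 k162 11 12))))),
  (.s k89 k93 1 (.s k169 k253 13 (.s k9 k249 11 (.s k13 k5 1 (.d k241 k161 k165 11 13))))), (.s k3
  k2 0 (.s k89 k93 1 (.s k169 k253 13 (.s k86 k252 14 (.s k83 k92 2 (.d k243 k163 k162 11 12))))))]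
  .n)

def s11_170_128 : T TT 256 :=
  (.f k89 k93 1 (.q k149 [(.s k213 k21 7 (.s k209 k29 9 (.s k221 k217 1 (.d k17 k145 k153 7 9)))),
  (.s k21 k213 7 (.s k63 k42 6 (.s k106 k192 14 (.s k123 k72 4 (.d k243 k183 k162 9 12))))), (.s
  k209 k29 9 (.s k243 k162 12 (.s k166 k12 14 (.s k183 k132 4 (.s k63 k123 9 (.d k192 k226 k106 4
  14))))))] .n))

def s11_170_129 : T TT 256 :=
  (.q k1 [(.s k89 k93 1 (.s k169 k253 13 (.s k9 k249 11 (.s k13 k5 1 (.d k241 k161 k165 11 13))))),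
  (.s k3 k2 0 (.s k161 k241 11 (.s k82 k240 12 (.s k83 k80 0 (.d k243 k163 k162 11 12))))), (.s k3
  k2 0 (.s k89 k93 1 (.s k169 k253 13 (.s k86 k252 14 (.s k83 k92 2 (.d k243 k163 k162 11 12))))))]
  .n)

def s11_170_130 : T TT 256 :=
  (.f k89 k93 1 (.q k150 [(.s k215 k20 8 (.s k211 k28 10 (.s k223 k219 1 (.d k16 k146 k154 8 10)))),
  (.s k20 k215 8 (.s k60 k40 5 (.s k105 k195 14 (.s k121 k73 3 (.d k243 k182 k162 10 12))))), (.s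
  k211 k28 10 (.s k243 k162 12 (.s k166 k12 14 (.s k182 k134 3 (.s k60 k121 10 (.d k195 k227 k105 3
  14))))))] .n))

def s11_170_131 : T TT 256 :=
  (.q k1 [(.s k89 k93 1 (.s k169 k253 13 (.s k9 k249 11 (.s k13 k5 1 (.d k241 k161 k165 11 13))))),
  (.s k3 k2 0 (.s k161 k241 11 (.s k82 k240 12 (.s k83 k80 0 (.d k243 k163 k162 11 12))))), (.s k3
  k2 0 (.s k89 k93 1 (.s k169 k253 13 (.s k86 k252 14 (.s k83 k92 2 (.d k243 k163 k162 11 12))))))]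
  .n)

def s11_170_132 : T TT 256 :=
  (.q k1 [(.s k89 k93 1 (.s k169 k253 13 (.s k9 k249 11 (.s k13 k5 1 (.d k241 k161 k165 11 13))))),
  (.s k3 k2 0 (.s k161 k241 11 (.s k82 k240 12 (.s k83 k80 0 (.d k243 k163 k162 11 12))))), (.s k3
  k2 0 (.s k89 k93 1 (.s k169 k253 13 (.s k86 k252 14 (.s k83 k92 2 (.d k243 k163 k162 11 12))))))]
  .n)

def s11_170_133 : T TT 256 :=
  (.q k1 [(.s k3 k2 0 (.s k161 k241 11 (.s k82 k240 12 (.s k83 k80 0 (.d k243 k163 k162 11 12))))),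
  (.s k89 k93 1 (.s k169 k253 13 (.s k9 k249 11 (.s k13 k5 1 (.d k241 k161 k165 11 13))))), (.s k3
  k2 0 (.s k89 k93 1 (.s k169 k253 13 (.s k86 k252 14 (.s k83 k92 2 (.d k243 k163 k162 11 12))))))]
  .n)

def s11_170_134 : T TT 256 :=
  (.q k1 [(.s k89 k93 1 (.s k169 k253 13 (.s k9 k249 11 (.s k13 k5 1 (.d k241 k161 k165 11 13))))),
  (.s k3 k2 0 (.s k161 k241 11 (.s k82 k240 12 (.s k83 k80 0 (.d k243 k163 k162 11 12))))), (.s k3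
  k2 0 (.s k89 k93 1 (.s k169 k253 13 (.s k86 k252 14 (.s k83 k92 2 (.d k243 k163 k162 11 12))))))]
  .n)

def s11_170_135 : T TT 256 :=
  (.q k1 [(.s k89 k93 1 (.s k169 k253 13 (.s k9 k249 11 (.s k13 k5 1 (.d k241 k161 k165 11 13))))),
  (.s k3 k2 0 (.s k161 k241 11 (.s k82 k240 12 (.s k83 k80 0 (.d k243 k163 k162 11 12))))), (.s k3
  k2 0 (.s k89 k93 1 (.s k169 k253 13 (.s k86 k252 14 (.s k83 k92 2 (.d k243 k163 k162 11 12))))))]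
  .n)

def s11_170_136 : T TT 256 :=
  (.q k153 [(.s k17 k221 9 (.s k89 k93 1 (.s k25 k217 7 (.s k29 k21 1 (.d k209 k145 k149 7 9))))),
  (.s k89 k93 1 (.s k217 k25 7 (.s k243 k162 12 (.s k166 k12 14 (.s k179 k140 6 (.s k51 k115 7 (.d
  k204 k230 k102 6 14))))))), (.s k17 k221 9 (.s k51 k34 4 (.s k145 k209 7 (.s k98 k192 12 (.s k115
  k64 4 (.d k243 k179 k162 7 12))))))] (.c k217 (.l (.s k17 k221 9 (.s k51 k34 4 (.s k89 k93 1 (.s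
  k102 k204 14 (.s k115 k76 6 (.d k243 k179 k162 7 12))))))) .n))

def s11_170_137 : T TT 256 :=
  (.f k89 k93 1 (.f k162 k243 12 (.q k1 [(.s k161 k241 11 (.s k160 k163 0 (.s k240 k80 11 (.d k3 k2
  k82 0 12)))), (.s k169 k253 13 (.s k9 k249 11 (.s k13 k5 1 (.d k241 k161 k165 11 13)))), (.s k3 k2
  0 (.s k169 k253 13 (.s k86 k252 14 (.s k83 k92 2 (.s k80 k82 0 (.s k87 k84 0 (.d k95 k91 k90 1
  2)))))))] (.c k74 (.q k200 [(.s k161 k241 11 (.s k160 k163 0 (.s k240 k80 11 (.d k3 k2 k82 0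
  12)))), (.s k169 k253 13 (.s k9 k249 11 (.s k13 k5 1 (.d k241 k161 k165 11 13)))), (.s k3 k2 0 (.s
  k169 k253 13 (.s k86 k252 14 (.s k83 k92 2 (.s k80 k82 0 (.s k87 k84 0 (.d k95 k91 k90 1 2)))))))]
  .n) (.c k200 (.q k74 [(.s k161 k241 11 (.s k160 k163 0 (.s k240 k80 11 (.d k3 k2 k82 0 12)))), (.s
  k169 k253 13 (.s k9 k249 11 (.s k13 k5 1 (.d k241 k161 k165 11 13)))), (.s k3 k2 0 (.s k169 k253
  13 (.s k86 k252 14 (.s k83 k92 2 (.s k80 k82 0 (.s k87 k84 0 (.d k95 k91 k90 1 2)))))))] .n)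
  .n)))))

def s11_170_138 : T TT 256 :=
  (.q k154 [(.s k16 k223 10 (.s k89 k93 1 (.s k24 k219 8 (.s k28 k20 1 (.d k211 k146 k150 8 10))))),
  (.s k89 k93 1 (.s k219 k24 8 (.s k243 k162 12 (.s k166 k12 14 (.s k178 k142 5 (.s k48 k113 8 (.d
  k207 k231 k101 5 14))))))), (.s k16 k223 10 (.s k48 k32 3 (.s k146 k211 8 (.s k97 k195 12 (.s k113
  k65 3 (.d k243 k178 k162 8 12))))))] (.c k219 (.l (.s k16 k223 10 (.s k48 k32 3 (.s k89 k93 1 (.s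
  k101 k207 14 (.s k113 k77 5 (.d k243 k178 k162 8 12))))))) .n))

def s11_170_139 : T TT 256 :=
  (.f k162 k243 12 (.f k89 k93 1 (.q k1 [(.s k161 k241 11 (.s k160 k163 0 (.s k240 k80 11 (.d k3 k2
  k82 0 12)))), (.s k169 k253 13 (.s k9 k249 11 (.s k13 k5 1 (.d k241 k161 k165 11 13)))), (.s k3 k2
  0 (.s k169 k253 13 (.s k86 k252 14 (.s k83 k92 2 (.s k80 k82 0 (.s k87 k84 0 (.d k95 k91 k90 1
  2)))))))] (.c k75 (.q k203 [(.s k161 k241 11 (.s k160 k163 0 (.s k240 k80 11 (.d k3 k2 k82 0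
  12)))), (.s k169 k253 13 (.s k9 k249 11 (.s k13 k5 1 (.d k241 k161 k165 11 13)))), (.s k3 k2 0 (.s
  k169 k253 13 (.s k86 k252 14 (.s k83 k92 2 (.s k80 k82 0 (.s k87 k84 0 (.d k95 k91 k90 1 2)))))))]
  .n) (.c k203 (.q k75 [(.s k161 k241 11 (.s k160 k163 0 (.s k240 k80 11 (.d k3 k2 k82 0 12)))), (.s
  k169 k253 13 (.s k9 k249 11 (.s k13 k5 1 (.d k241 k161 k165 11 13)))), (.s k3 k2 0 (.s k169 k253
  13 (.s k86 k252 14 (.s k83 k92 2 (.s k80 k82 0 (.s k87 k84 0 (.d k95 k91 k90 1 2)))))))] .n)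
  .n)))))

def s11_170_140 : T TT 256 :=
  (.q k1 [(.s k89 k93 1 (.s k169 k253 13 (.s k9 k249 11 (.s k13 k5 1 (.d k241 k161 k165 11 13))))),
  (.s k3 k2 0 (.s k161 k241 11 (.s k82 k240 12 (.s k83 k80 0 (.d k243 k163 k162 11 12))))), (.s k3
  k2 0 (.s k89 k93 1 (.s k169 k253 13 (.s k86 k252 14 (.s k83 k92 2 (.d k243 k163 k162 11 12))))))]
  .n)

def s11_170_141 : T TT 256 :=
  (.q k1 [(.s k89 k93 1 (.s k169 k253 13 (.s k9 k249 11 (.s k13 k5 1 (.d k241 k161 k165 11 13))))),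
  (.s k3 k2 0 (.s k161 k241 11 (.s k82 k240 12 (.s k83 k80 0 (.d k243 k163 k162 11 12))))), (.s k3
  k2 0 (.s k89 k93 1 (.s k169 k253 13 (.s k86 k252 14 (.s k83 k92 2 (.d k243 k163 k162 11 12))))))]
  .n)

def s11_170_142 : T TT 256 :=
  (.q k1 [(.s k89 k93 1 (.s k169 k253 13 (.s k9 k249 11 (.s k13 k5 1 (.d k241 k161 k165 11 13))))),
  (.s k3 k2 0 (.s k161 k241 11 (.s k82 k240 12 (.s k83 k80 0 (.d k243 k163 k162 11 12))))), (.s k3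
  k2 0 (.s k89 k93 1 (.s k169 k253 13 (.s k86 k252 14 (.s k83 k92 2 (.d k243 k163 k162 11 12))))))]
  .n)

def s11_170_143 : T TT 256 :=
  (.q k1 [(.s k89 k93 1 (.s k169 k253 13 (.s k9 k249 11 (.s k13 k5 1 (.d k241 k161 k165 11 13))))),
  (.s k3 k2 0 (.s k161 k241 11 (.s k82 k240 12 (.s k83 k80 0 (.d k243 k163 k162 11 12))))), (.s k3
  k2 0 (.s k89 k93 1 (.s k169 k253 13 (.s k86 k252 14 (.s k83 k92 2 (.d k243 k163 k162 11 12))))))]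
  .n)

def s11_170_144 : T TT 256 :=
  (.q k1 [(.s k89 k93 1 (.s k169 k253 13 (.s k9 k249 11 (.s k13 k5 1 (.d k241 k161 k165 11 13))))),
  (.s k3 k2 0 (.s k161 k241 11 (.s k82 k240 12 (.s k83 k80 0 (.d k243 k163 k162 11 12))))), (.s k3
  k2 0 (.s k89 k93 1 (.s k169 k253 13 (.s k86 k252 14 (.s k83 k92 2 (.d k243 k163 k162 11 12))))))]
  .n)

def s11_170_145 : T TT 256 :=
  (.q k1 [(.s k89 k93 1 (.s k169 k253 13 (.s k9 k249 11 (.s k13 k5 1 (.d k241 k161 k165 11 13))))),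
  (.s k3 k2 0 (.s k161 k241 11 (.s k82 k240 12 (.s k83 k80 0 (.d k243 k163 k162 11 12))))), (.s k3
  k2 0 (.s k89 k93 1 (.s k169 k253 13 (.s k86 k252 14 (.s k83 k92 2 (.d k243 k163 k162 11 12))))))]
  .n)

def s11_170_146 : T TT 256 :=
  (.q k1 [(.s k89 k93 1 (.s k169 k253 13 (.s k9 k249 11 (.s k13 k5 1 (.d k241 k161 k165 11 13))))),
  (.s k3 k2 0 (.s k161 k241 11 (.s k82 k240 12 (.s k83 k80 0 (.d k243 k163 k162 11 12))))), (.s k3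
  k2 0 (.s k89 k93 1 (.s k169 k253 13 (.s k86 k252 14 (.s k83 k92 2 (.d k243 k163 k162 11 12))))))]
  .n)

def s11_170_147 : T TT 256 :=
  (.q k1 [(.s k89 k93 1 (.s k169 k253 13 (.s k9 k249 11 (.s k13 k5 1 (.d k241 k161 k165 11 13))))),
  (.s k3 k2 0 (.s k161 k241 11 (.s k82 k240 12 (.s k83 k80 0 (.d k243 k163 k162 11 12))))), (.s k3
  k2 0 (.s k89 k93 1 (.s k169 k253 13 (.s k86 k252 14 (.s k83 k92 2 (.d k243 k163 k162 11 12))))))]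
  .n)

def s11_170_148 : T TT 256 :=
  (.q k1 [(.s k89 k93 1 (.s k169 k253 13 (.s k9 k249 11 (.s k13 k5 1 (.d k241 k161 k165 11 13))))),
  (.s k3 k2 0 (.s k161 k241 11 (.s k82 k240 12 (.s k83 k80 0 (.d k243 k163 k162 11 12))))), (.s k3
  k2 0 (.s k89 k93 1 (.s k169 k253 13 (.s k86 k252 14 (.s k83 k92 2 (.d k243 k163 k162 11 12))))))]
  .n)

def s11_170_149 : T TT 256 :=
  (.f k89 k93 1 (.q k64 [(.s k115 k98 4 (.s k102 k76 6 (.s k119 k68 4 (.d k127 k123 k106 1 6)))),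
  (.s k98 k115 4 (.s k162 k243 12 (.s k34 k226 7 (.s k51 k17 4 (.d k192 k128 k145 7 12))))), (.s
  k106 k127 6 (.s k243 k162 12 (.s k166 k12 14 (.s k226 k46 9 (.d k192 k128 k209 7 4)))))] (.c k128
  (.q k191 [(.s k115 k98 4 (.s k102 k76 6 (.s k119 k68 4 (.d k127 k123 k106 1 6)))), (.s k127 k106 6
  (.s k243 k162 12 (.s k166 k12 14 (.s k247 k4 12 (.d k255 k63 k251 7 1)))))] (.c k106 (.l (.s k115
  k98 4 (.s k102 k76 6 (.s k68 k119 4 (.s k204 k136 9 (.s k243 k162 12 (.d k51 k179 k153 7 14)))))))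
  (.c k127 (.l (.s k115 k98 4 (.s k76 k102 6 (.s k68 k72 1 (.s k204 k136 9 (.s k243 k162 12 (.d k12
  k140 k166 7 14))))))) .n))) (.c k191 (.l (.s k128 k192 7 (.s k106 k127 6 (.s k72 k123 4 (.s k76
  k68 1 (.d k115 k98 k102 4 6)))))) .n))))

def s11_170_150 : T TT 256 :=
  (.f k89 k93 1 (.q k65 [(.s k113 k97 3 (.s k101 k77 5 (.s k117 k69 3 (.d k125 k121 k105 1 5)))),
  (.s k97 k113 3 (.s k162 k243 12 (.s k32 k227 8 (.s k48 k16 3 (.d k195 k130 k146 8 12))))), (.s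
  k105 k125 5 (.s k243 k162 12 (.s k166 k12 14 (.s k227 k44 10 (.d k195 k130 k211 8 3)))))] (.c k130
  (.q k190 [(.s k113 k97 3 (.s k101 k77 5 (.s k117 k69 3 (.d k125 k121 k105 1 5)))), (.s k125 k105 5
  (.s k243 k162 12 (.s k166 k12 14 (.s k247 k4 12 (.d k255 k60 k251 8 1)))))] (.c k105 (.l (.s k113
  k97 3 (.s k101 k77 5 (.s k69 k117 3 (.s k207 k138 10 (.s k243 k162 12 (.d k48 k178 k154 8
  14))))))) (.c k125 (.l (.s k113 k97 3 (.s k77 k101 5 (.s k69 k73 1 (.s k207 k138 10 (.s k243 k162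
  12 (.d k12 k142 k166 8 14))))))) .n))) (.c k190 (.l (.s k130 k195 8 (.s k105 k125 5 (.s k73 k121 3
  (.s k77 k69 1 (.d k113 k97 k101 3 5)))))) .n))))

def s11_170_151 : T TT 256 :=
  (.q k1 [(.s k89 k93 1 (.s k169 k253 13 (.s k9 k249 11 (.s k13 k5 1 (.d k241 k161 k165 11 13))))),
  (.s k3 k2 0 (.s k161 k241 11 (.s k82 k240 12 (.s k83 k80 0 (.d k243 k163 k162 11 12))))), (.s k3
  k2 0 (.s k89 k93 1 (.s k169 k253 13 (.s k86 k252 14 (.s k83 k92 2 (.d k243 k163 k162 11 12))))))]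
  .n)

def s11_170_152 : T TT 256 :=
  (.q k1 [(.s k89 k93 1 (.s k169 k253 13 (.s k9 k249 11 (.s k13 k5 1 (.d k241 k161 k165 11 13))))),
  (.s k3 k2 0 (.s k161 k241 11 (.s k82 k240 12 (.s k83 k80 0 (.d k243 k163 k162 11 12))))), (.s k3
  k2 0 (.s k89 k93 1 (.s k169 k253 13 (.s k86 k252 14 (.s k83 k92 2 (.d k243 k163 k162 11 12))))))]
  .n)

def s11_170_153 : T TT 256 :=
  (.f k162 k243 12 (.f k89 k93 1 (.q k65 [(.s k97 k113 3 (.s k32 k227 8 (.s k48 k16 3 (.d k195 k130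
  k146 8 12)))), (.s k105 k125 5 (.s k73 k121 3 (.s k77 k69 1 (.d k113 k97 k101 3 5)))), (.s k105
  k125 5 (.s k195 k130 8 (.s k150 k60 14 (.s k211 k28 10 (.s k16 k146 8 (.s k215 k20 8 (.d k223 k219
  k154 1 10)))))))] (.c k136 (.q k187 [(.s k97 k113 3 (.s k32 k227 8 (.s k48 k16 3 (.d k195 k130
  k146 8 12)))), (.s k105 k125 5 (.s k73 k121 3 (.s k77 k69 1 (.d k113 k97 k101 3 5)))), (.s k105
  k125 5 (.s k195 k130 8 (.s k150 k60 14 (.s k211 k28 10 (.s k16 k146 8 (.s k215 k20 8 (.d k223 k219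
  k154 1 10)))))))] .n) (.c k187 (.q k136 [(.s k97 k113 3 (.s k32 k227 8 (.s k48 k16 3 (.d k195 k130
  k146 8 12)))), (.s k68 k204 9 (.s k102 k119 4 (.s k76 k115 6 (.s k64 k72 1 (.s k67 k66 0 (.s k73
  k70 2 (.d k105 k121 k125 3 5)))))))] .n) .n)))))

def s11_170_154 : T TT 256 :=
  (.f k162 k243 12 (.f k89 k93 1 (.q k1 [(.s k161 k241 11 (.s k160 k163 0 (.s k240 k80 11 (.d k3 k2
  k82 0 12)))), (.s k169 k253 13 (.s k9 k249 11 (.s k13 k5 1 (.d k241 k161 k165 11 13)))), (.s k3 k2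
  0 (.s k169 k253 13 (.s k86 k252 14 (.s k83 k92 2 (.s k80 k82 0 (.s k87 k84 0 (.d k95 k91 k90 1
  2)))))))] (.c k138 (.q k186 [(.s k161 k241 11 (.s k160 k163 0 (.s k240 k80 11 (.d k3 k2 k82 0
  12)))), (.s k169 k253 13 (.s k9 k249 11 (.s k13 k5 1 (.d k241 k161 k165 11 13)))), (.s k3 k2 0 (.s
  k169 k253 13 (.s k86 k252 14 (.s k83 k92 2 (.s k80 k82 0 (.s k87 k84 0 (.d k95 k91 k90 1 2)))))))]
  .n) (.c k186 (.q k138 [(.s k161 k241 11 (.s k160 k163 0 (.s k240 k80 11 (.d k3 k2 k82 0 12)))),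
  (.s k169 k253 13 (.s k9 k249 11 (.s k13 k5 1 (.d k241 k161 k165 11 13)))), (.s k3 k2 0 (.s k69
  k207 10 (.s k137 k205 9 (.s k136 k139 0 (.d k204 k68 k70 9 10)))))] .n) .n)))))

def s11_170_155 : T TT 256 :=
  (.q k1 [(.s k89 k93 1 (.s k169 k253 13 (.s k9 k249 11 (.s k13 k5 1 (.d k241 k161 k165 11 13))))),
  (.s k3 k2 0 (.s k161 k241 11 (.s k82 k240 12 (.s k83 k80 0 (.d k243 k163 k162 11 12))))), (.s k3
  k2 0 (.s k89 k93 1 (.s k169 k253 13 (.s k86 k252 14 (.s k83 k92 2 (.d k243 k163 k162 11 12))))))]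
  .n)

def s11_170_156 : T TT 256 :=
  (.q k1 [(.s k89 k93 1 (.s k169 k253 13 (.s k9 k249 11 (.s k13 k5 1 (.d k241 k161 k165 11 13))))),
  (.s k3 k2 0 (.s k161 k241 11 (.s k82 k240 12 (.s k83 k80 0 (.d k243 k163 k162 11 12))))), (.s k3
  k2 0 (.s k89 k93 1 (.s k169 k253 13 (.s k86 k252 14 (.s k83 k92 2 (.d k243 k163 k162 11 12))))))]
  .n)

def s11_170_157 : T TT 256 :=
  (.q k1 [(.s k3 k2 0 (.s k161 k241 11 (.s k82 k240 12 (.s k83 k80 0 (.d k243 k163 k162 11 12))))),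
  (.s k89 k93 1 (.s k169 k253 13 (.s k9 k249 11 (.s k13 k5 1 (.d k241 k161 k165 11 13))))), (.s k3
  k2 0 (.s k89 k93 1 (.s k169 k253 13 (.s k86 k252 14 (.s k83 k92 2 (.d k243 k163 k162 11 12))))))]
  .n)

def s11_170_158 : T TT 256 :=
  (.q k1 [(.s k3 k2 0 (.s k161 k241 11 (.s k82 k240 12 (.s k83 k80 0 (.d k243 k163 k162 11 12))))),
  (.s k89 k93 1 (.s k169 k253 13 (.s k9 k249 11 (.s k13 k5 1 (.d k241 k161 k165 11 13))))), (.s k3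
  k2 0 (.s k89 k93 1 (.s k169 k253 13 (.s k86 k252 14 (.s k83 k92 2 (.d k243 k163 k162 11 12))))))]
  .n)

def s11_170_159 : T TT 256 :=
  (.q k1 [(.s k89 k93 1 (.s k169 k253 13 (.s k9 k249 11 (.s k13 k5 1 (.d k241 k161 k165 11 13))))),
  (.s k3 k2 0 (.s k161 k241 11 (.s k82 k240 12 (.s k83 k80 0 (.d k243 k163 k162 11 12))))), (.s k3
  k2 0 (.s k89 k93 1 (.s k169 k253 13 (.s k86 k252 14 (.s k83 k92 2 (.d k243 k163 k162 11 12))))))]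
  .n)

def s11_170_160 : T TT 256 :=
  (.f k89 k93 1 (.q k165 [(.s k241 k13 13 (.s k245 k5 11 (.s k253 k249 1 (.d k1 k161 k169 11 13)))),
  (.s k5 k245 11 (.s k15 k10 2 (.s k90 k240 14 (.s k91 k88 0 (.d k243 k162 k167 12 13))))), (.s k241
  k13 13 (.s k243 k162 12 (.s k166 k12 14 (.s k167 k164 0 (.s k15 k91 13 (.d k240 k242 k90 0
  14))))))] .n))

def s11_170_161 : T TT 256 :=
  (.q k16 [(.s k89 k93 1 (.s k154 k223 10 (.s k24 k219 8 (.s k28 k20 1 (.d k211 k146 k150 8 10))))),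
  (.s k48 k32 3 (.s k146 k211 8 (.s k97 k195 12 (.s k113 k65 3 (.d k243 k178 k162 8 12))))), (.s k48
  k32 3 (.s k89 k93 1 (.s k154 k223 10 (.s k101 k207 14 (.s k113 k77 5 (.d k243 k178 k162 8
  12))))))] .n)

def s11_170_162 : T TT 256 :=
  (.f k89 k93 1 (.q k1 [(.s k169 k253 13 (.s k9 k249 11 (.s k13 k5 1 (.d k241 k161 k165 11 13)))),
  (.s k3 k2 0 (.s k161 k241 11 (.s k82 k240 12 (.s k83 k80 0 (.s k86 k92 2 (.s k84 k87 0 (.d k252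
  k168 k169 13 14))))))), (.s k3 k2 0 (.s k169 k253 13 (.s k86 k252 14 (.s k83 k92 2 (.s k87 k84 0
  (.s k95 k91 1 (.d k80 k82 k90 0 2)))))))] (.c k166 (.q k174 [(.s k169 k253 13 (.s k9 k249 11 (.s
  k13 k5 1 (.d k241 k161 k165 11 13)))), (.s k3 k2 0 (.s k161 k241 11 (.s k82 k240 12 (.s k83 k80 0
  (.s k86 k92 2 (.s k84 k87 0 (.d k252 k168 k169 13 14))))))), (.s k3 k2 0 (.s k169 k253 13 (.s k86
  k252 14 (.s k83 k92 2 (.s k87 k84 0 (.s k95 k91 1 (.d k80 k82 k90 0 2)))))))] (.c k169 (.f k241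
  k161 11 (.f k165 k13 13 (.l (.s k5 k245 11 (.s k15 k10 2 (.s k90 k240 14 (.s k80 k95 2 (.s k88 k91
  0 (.s k92 k84 1 (.d k83 k82 k86 0 2)))))))))) .n)) (.c k169 (.f k3 k2 0 (.f k241 k161 11 (.f k165
  k13 13 (.l (.s k5 k245 11 (.s k15 k10 2 (.s k90 k240 14 (.s k80 k95 2 (.s k88 k91 0 (.s k92 k84 1
  (.d k83 k82 k86 0 2))))))))))) (.c k174 (.q k166 [(.s k4 k247 12 (.d k12 k8 k243 1 14)), (.s k169
  k253 13 (.s k9 k249 11 (.s k13 k5 1 (.d k241 k161 k165 11 13))))] (.c k12 (.q k255 [(.s k169 k253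
  13 (.s k9 k249 11 (.s k13 k5 1 (.d k241 k161 k165 11 13)))), (.s k3 k2 0 (.s k87 k171 13 (.s k86
  k84 0 (.d k169 k253 k252 13 14)))), (.s k3 k2 0 (.s k161 k241 11 (.s k82 k240 12 (.s k83 k80 0 (.s
  k86 k92 2 (.d k87 k84 k171 0 13))))))] .n) (.c k255 (.l (.s k12 k243 14 (.d k4 k247 k8 12 1)))
  .n))) .n)))))

def s11_170_163 : T TT 256 :=
  (.q k16 [(.s k89 k93 1 (.s k154 k223 10 (.s k24 k219 8 (.s k28 k20 1 (.d k211 k146 k150 8 10))))),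
  (.s k48 k32 3 (.s k146 k211 8 (.s k97 k195 12 (.s k113 k65 3 (.d k243 k178 k162 8 12))))), (.s k48
  k32 3 (.s k89 k93 1 (.s k154 k223 10 (.s k101 k207 14 (.s k113 k77 5 (.d k243 k178 k162 8
  12))))))] .n)

def s11_170_164 : T TT 256 :=
  (.q k1 [(.s k89 k93 1 (.s k169 k253 13 (.s k9 k249 11 (.s k13 k5 1 (.d k241 k161 k165 11 13))))),
  (.s k3 k2 0 (.s k161 k241 11 (.s k82 k240 12 (.s k83 k80 0 (.d k243 k163 k162 11 12))))), (.s k3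
  k2 0 (.s k89 k93 1 (.s k169 k253 13 (.s k86 k252 14 (.s k83 k92 2 (.d k243 k163 k162 11 12))))))]
  .n)

def s11_170_165 : T TT 256 :=
  (.f k89 k93 1 (.q k80 [(.s k83 k82 0 (.s k86 k92 2 (.s k87 k84 0 (.d k95 k91 k90 1 2)))), (.s k82
  k83 0 (.s k162 k243 12 (.s k2 k242 11 (.s k3 k1 0 (.d k240 k160 k161 11 12))))), (.s k90 k95 2 (.s
  k243 k162 12 (.s k166 k12 14 (.s k242 k14 13 (.d k240 k160 k241 11 0)))))] (.c k160 (.q k175 [(.s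
  k83 k82 0 (.s k86 k92 2 (.s k87 k84 0 (.d k95 k91 k90 1 2)))), (.s k95 k90 2 (.s k243 k162 12 (.s
  k166 k12 14 (.s k247 k4 12 (.d k255 k15 k251 11 1)))))] (.c k90 (.l (.s k83 k82 0 (.s k86 k92 2
  (.s k84 k87 0 (.s k243 k162 12 (.s k252 k168 13 (.d k3 k163 k169 11 14))))))) (.c k95 (.l (.s k83
  k82 0 (.s k92 k86 2 (.s k84 k88 1 (.s k243 k162 12 (.s k252 k168 13 (.d k12 k172 k166 11 14)))))))
  .n))) (.c k175 (.l (.s k160 k240 11 (.s k83 k82 0 (.s k86 k92 2 (.s k87 k84 0 (.d k95 k90 k91 2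
  1)))))) .n))))

def s11_170_166 : T TT 256 :=
  (.f k89 k93 1 (.q k1 [(.s k241 k161 11 (.s k165 k13 13 (.s k245 k5 11 (.d k253 k249 k169 1 13)))),
  (.s k3 k2 0 (.s k161 k241 11 (.s k82 k240 12 (.s k83 k80 0 (.d k243 k162 k163 12 11))))), (.s k3
  k2 0 (.s k169 k253 13 (.s k86 k252 14 (.s k83 k92 2 (.d k243 k162 k163 12 11)))))] (.c k162 (.q
  k174 [(.s k169 k253 13 (.s k9 k249 11 (.s k13 k5 1 (.d k241 k161 k165 11 13)))), (.s k3 k2 0 (.s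
  k161 k241 11 (.s k82 k240 12 (.s k83 k80 0 (.s k86 k92 2 (.s k84 k87 0 (.d k252 k168 k169 13
  14))))))), (.s k3 k2 0 (.s k169 k253 13 (.s k86 k252 14 (.s k83 k92 2 (.s k87 k84 0 (.s k95 k91 1
  (.d k80 k82 k90 0 2)))))))] (.c k169 (.f k241 k161 11 (.f k165 k13 13 (.l (.s k5 k245 11 (.s k15
  k10 2 (.s k90 k240 14 (.s k80 k95 2 (.s k88 k91 0 (.s k92 k84 1 (.d k83 k82 k86 0 2)))))))))) .n))
  (.c k174 (.l (.s k162 k243 12 (.s k3 k2 0 (.s k161 k241 11 (.s k160 k163 0 (.d k240 k80 k82 11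
  12)))))) .n))))

def s11_170_167 : T TT 256 :=
  (.q k1 [(.s k89 k93 1 (.s k169 k253 13 (.s k9 k249 11 (.s k13 k5 1 (.d k241 k161 k165 11 13))))),
  (.s k3 k2 0 (.s k161 k241 11 (.s k82 k240 12 (.s k83 k80 0 (.d k243 k163 k162 11 12))))), (.s k3
  k2 0 (.s k89 k93 1 (.s k169 k253 13 (.s k86 k252 14 (.s k83 k92 2 (.d k243 k163 k162 11 12))))))]
  .n)

def s11_170_168 : T TT 256 :=
  (.q k169 [(.s k1 k253 13 (.s k89 k93 1 (.s k9 k249 11 (.s k13 k5 1 (.d k241 k161 k165 11 13))))),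
  (.s k89 k93 1 (.s k243 k162 12 (.s k166 k12 14 (.s k163 k172 2 (.s k3 k83 11 (.s k249 k9 11 (.d
  k252 k246 k86 2 14))))))), (.s k1 k253 13 (.s k3 k2 0 (.s k161 k241 11 (.s k82 k240 12 (.s k83 k80
  0 (.d k243 k163 k162 11 12))))))] (.c k249 (.l (.s k1 k253 13 (.s k3 k2 0 (.s k86 k252 14 (.s k89
  k93 1 (.s k83 k92 2 (.d k243 k163 k162 11 12))))))) .n))

def s11_170_169 : T TT 256 :=
  (.f k89 k93 1 (.q k90 [(.s k80 k95 2 (.s k83 k82 0 (.s k88 k91 0 (.d k92 k84 k86 1 2)))), (.s k91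
  k88 0 (.s k243 k162 12 (.s k15 k167 13 (.s k5 k10 2 (.d k165 k245 k240 11 14))))), (.s k80 k95 2
  (.s k240 k160 11 (.s k165 k15 14 (.s k241 k13 13 (.d k243 k242 k162 0 12)))))] (.c k168 (.q k171
  [(.s k80 k95 2 (.s k83 k82 0 (.s k88 k91 0 (.d k92 k84 k86 1 2)))), (.s k91 k88 0 (.s k243 k162 12
  (.s k15 k167 13 (.s k5 k10 2 (.d k165 k245 k240 11 14))))), (.s k80 k95 2 (.s k240 k160 11 (.s
  k165 k15 14 (.s k241 k13 13 (.d k243 k242 k162 0 12)))))] .n) (.c k171 (.q k168 [(.s k80 k95 2 (.s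
  k84 k252 13 (.d k88 k91 k92 0 1))), (.s k91 k88 0 (.s k243 k162 12 (.s k15 k167 13 (.s k5 k10 2
  (.d k165 k245 k240 11 14)))))] (.c k88 (.l (.s k80 k95 2 (.s k82 k83 0 (.s k84 k252 13 (.d k86 k87
  k94 0 1))))) (.c k91 (.q k251 [(.s k243 k162 12 (.s k166 k12 14 (.d k247 k255 k4 1 12))), (.s k80
  k95 2 (.s k83 k82 0 (.s k84 k252 13 (.d k86 k87 k92 0 2))))] .n) (.c k251 (.l (.s k91 k88 0 (.s
  k84 k252 13 (.s k95 k80 2 (.d k87 k86 k83 0 1))))) .n)))) .n))))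

def s11_170_171 : T TT 256 :=
  (.f k89 k93 1 (.q k169 [(.s k1 k253 13 (.s k9 k249 11 (.s k13 k5 1 (.d k241 k161 k165 11 13)))),
  (.s k243 k162 12 (.s k249 k9 11 (.s k252 k246 2 (.s k84 k168 13 (.d k86 k87 k3 0 14))))), (.s k1
  k253 13 (.s k3 k2 0 (.s k86 k252 14 (.s k83 k92 2 (.d k243 k163 k162 11 12)))))] (.c k91 (.q k251
  [(.s k243 k162 12 (.s k166 k12 14 (.d k247 k255 k4 1 12))), (.s k1 k253 13 (.s k9 k249 11 (.s k13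
  k5 1 (.d k241 k161 k165 11 13))))] .n) (.c k251 (.q k91 [(.s k1 k253 13 (.s k241 k161 11 (.s k13
  k165 13 (.d k9 k5 k249 1 11)))), (.s k90 k88 0 (.s k80 k95 2 (.s k240 k160 11 (.s k243 k162 12 (.d
  k15 k165 k167 14 13))))), (.s k1 k253 13 (.s k3 k2 0 (.s k9 k249 11 (.s k12 k6 2 (.d k243 k162
  k166 12 14)))))] .n) .n))))

def s11_170_172 : T TT 256 :=
  (.q k1 [(.s k89 k93 1 (.s k169 k253 13 (.s k9 k249 11 (.s k13 k5 1 (.d k241 k161 k165 11 13))))),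
  (.s k3 k2 0 (.s k161 k241 11 (.s k82 k240 12 (.s k83 k80 0 (.d k243 k163 k162 11 12))))), (.s k3
  k2 0 (.s k89 k93 1 (.s k169 k253 13 (.s k86 k252 14 (.s k243 k162 12 (.d k83 k92 k163 2 11))))))]
  .n)

def s11_170_173 : T TT 256 :=
  (.q k1 [(.s k89 k93 1 (.s k241 k161 11 (.s k13 k165 13 (.s k169 k253 13 (.d k9 k5 k249 1 11))))),
  (.s k3 k2 0 (.s k161 k241 11 (.s k82 k240 12 (.s k83 k80 0 (.d k243 k163 k162 11 12))))), (.s k3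
  k2 0 (.s k89 k93 1 (.s k243 k162 12 (.s k163 k83 11 (.s k166 k12 14 (.d k169 k253 k172 13 2))))))]
  .n)

def s11_170_174 : T TT 256 :=
  (.q k1 [(.s k3 k2 0 (.s k161 k241 11 (.s k82 k240 12 (.s k83 k80 0 (.d k243 k162 k163 12 11))))),
  (.s k89 k93 1 (.s k169 k253 13 (.s k9 k249 11 (.s k13 k5 1 (.d k241 k161 k165 11 13))))), (.s k3
  k2 0 (.s k89 k93 1 (.s k169 k253 13 (.s k86 k252 14 (.s k83 k92 2 (.d k243 k162 k163 12 11))))))]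
  (.c k162 (.q k166 [(.s k4 k247 12 (.s k89 k93 1 (.d k12 k8 k243 1 14))), (.s k241 k161 11 (.s k253
  k169 13 (.s k245 k249 1 (.s k165 k5 11 (.d k89 k93 k13 1 13))))), (.s k3 k2 0 (.s k4 k247 12 (.s
  k169 k253 13 (.s k86 k252 14 (.s k6 k246 11 (.d k12 k8 k9 1 2))))))] .n) (.c k166 (.l (.s k162
  k243 12 (.s k3 k2 0 (.s k161 k241 11 (.s k160 k163 0 (.d k240 k80 k82 11 12)))))) .n)))

def s11_170_175 : T TT 256 :=
  (.q k80 [(.s k82 k83 0 (.s k162 k243 12 (.s k2 k242 11 (.s k3 k1 0 (.d k240 k160 k161 11 12))))),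
  (.s k83 k82 0 (.s k89 k93 1 (.s k86 k92 2 (.s k87 k84 0 (.d k95 k91 k90 1 2))))), (.s k89 k93 1
  (.s k90 k95 2 (.s k91 k88 0 (.s k243 k162 12 (.s k15 k167 13 (.d k240 k160 k165 11 14))))))] (.c
  k160 (.q k165 [(.s k5 k245 11 (.s k90 k95 2 (.d k15 k10 k240 2 14))), (.s k83 k82 0 (.s k89 k93 1
  (.s k86 k92 2 (.s k87 k84 0 (.d k95 k91 k90 1 2))))), (.s k89 k93 1 (.s k241 k13 13 (.s k1 k161 11
  (.s k245 k5 11 (.d k253 k249 k169 1 13)))))] .n) (.c k165 (.l (.s k160 k240 11 (.s k83 k82 0 (.s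
  k89 k93 1 (.s k86 k92 2 (.s k87 k84 0 (.d k95 k90 k91 2 1))))))) .n)))

def s11_170_176 : T TT 256 :=
  (.q k1 [(.s k89 k93 1 (.s k169 k253 13 (.s k9 k249 11 (.s k13 k5 1 (.d k241 k161 k165 11 13))))),
  (.s k3 k2 0 (.s k161 k241 11 (.s k82 k240 12 (.s k83 k80 0 (.d k243 k163 k162 11 12))))), (.s k3
  k2 0 (.s k89 k93 1 (.s k169 k253 13 (.s k86 k252 14 (.s k83 k92 2 (.d k243 k163 k162 11 12))))))]
  .n)

def s11_170_177 : T TT 256 :=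
  (.q k1 [(.s k89 k93 1 (.s k169 k253 13 (.s k9 k249 11 (.s k13 k5 1 (.d k241 k161 k165 11 13))))),
  (.s k3 k2 0 (.s k161 k241 11 (.s k82 k240 12 (.s k83 k80 0 (.d k243 k163 k162 11 12))))), (.s k3
  k2 0 (.s k89 k93 1 (.s k169 k253 13 (.s k86 k252 14 (.s k83 k92 2 (.d k243 k163 k162 11 12))))))]
  .n)

def s11_170_178 : T TT 256 :=
  (.q k1 [(.s k89 k93 1 (.s k169 k253 13 (.s k9 k249 11 (.s k13 k5 1 (.d k241 k161 k165 11 13))))),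
  (.s k3 k2 0 (.s k161 k241 11 (.s k82 k240 12 (.s k83 k80 0 (.d k243 k163 k162 11 12))))), (.s k3
  k2 0 (.s k89 k93 1 (.s k169 k253 13 (.s k86 k252 14 (.s k83 k92 2 (.d k243 k163 k162 11 12))))))]
  .n)

def s11_170_179 : T TT 256 :=
  (.q k1 [(.s k89 k93 1 (.s k169 k253 13 (.s k9 k249 11 (.s k13 k5 1 (.d k241 k161 k165 11 13))))),
  (.s k3 k2 0 (.s k161 k241 11 (.s k82 k240 12 (.s k83 k80 0 (.d k243 k163 k162 11 12))))), (.s k3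
  k2 0 (.s k89 k93 1 (.s k169 k253 13 (.s k86 k252 14 (.s k83 k92 2 (.d k243 k163 k162 11 12))))))]
  .n)

def s11_170_180 : T TT 256 :=
  (.q k1 [(.s k89 k93 1 (.s k169 k253 13 (.s k9 k249 11 (.s k13 k5 1 (.d k241 k161 k165 11 13))))),
  (.s k3 k2 0 (.s k161 k241 11 (.s k82 k240 12 (.s k83 k80 0 (.d k243 k163 k162 11 12))))), (.s k3
  k2 0 (.s k89 k93 1 (.s k169 k253 13 (.s k86 k252 14 (.s k83 k92 2 (.d k243 k163 k162 11 12))))))]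
  .n)

def s11_170_181 : T TT 256 :=
  (.q k1 [(.s k89 k93 1 (.s k169 k253 13 (.s k9 k249 11 (.s k13 k5 1 (.d k241 k161 k165 11 13))))),
  (.s k3 k2 0 (.s k161 k241 11 (.s k82 k240 12 (.s k83 k80 0 (.d k243 k163 k162 11 12))))), (.s k3
  k2 0 (.s k89 k93 1 (.s k169 k253 13 (.s k86 k252 14 (.s k83 k92 2 (.d k243 k163 k162 11 12))))))]
  .n)

def s11_170_182 : T TT 256 :=
  (.q k1 [(.s k89 k93 1 (.s k169 k253 13 (.s k9 k249 11 (.s k13 k5 1 (.d k241 k161 k165 11 13))))),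
  (.s k3 k2 0 (.s k161 k241 11 (.s k82 k240 12 (.s k83 k80 0 (.d k243 k163 k162 11 12))))), (.s k3
  k2 0 (.s k89 k93 1 (.s k169 k253 13 (.s k86 k252 14 (.s k83 k92 2 (.d k243 k163 k162 11 12))))))]
  .n)

def s11_170_183 : T TT 256 :=
  (.q k1 [(.s k89 k93 1 (.s k169 k253 13 (.s k9 k249 11 (.s k13 k5 1 (.d k241 k161 k165 11 13))))),
  (.s k3 k2 0 (.s k161 k241 11 (.s k82 k240 12 (.s k83 k80 0 (.d k243 k163 k162 11 12))))), (.s k3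
  k2 0 (.s k89 k93 1 (.s k169 k253 13 (.s k86 k252 14 (.s k83 k92 2 (.d k243 k163 k162 11 12))))))]
  .n)

def s11_170_184 : T TT 256 :=
  (.q k1 [(.s k89 k93 1 (.s k169 k253 13 (.s k9 k249 11 (.s k13 k5 1 (.d k241 k161 k165 11 13))))),
  (.s k3 k2 0 (.s k161 k241 11 (.s k82 k240 12 (.s k83 k80 0 (.d k243 k163 k162 11 12))))), (.s k3
  k2 0 (.s k89 k93 1 (.s k169 k253 13 (.s k86 k252 14 (.s k83 k92 2 (.d k243 k163 k162 11 12))))))]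
  .n)

def s11_170_185 : T TT 256 :=
  (.q k1 [(.s k3 k2 0 (.s k161 k241 11 (.s k82 k240 12 (.s k83 k80 0 (.d k243 k163 k162 11 12))))),
  (.s k89 k93 1 (.s k169 k253 13 (.s k9 k249 11 (.s k13 k5 1 (.d k241 k161 k165 11 13))))), (.s k3
  k2 0 (.s k89 k93 1 (.s k169 k253 13 (.s k86 k252 14 (.s k83 k92 2 (.d k243 k163 k162 11 12))))))]
  .n)

def s11_170_186 : T TT 256 :=
  (.q k154 [(.s k16 k223 10 (.s k89 k93 1 (.s k24 k219 8 (.s k28 k20 1 (.d k211 k146 k150 8 10))))),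
  (.s k89 k93 1 (.s k219 k24 8 (.s k243 k162 12 (.s k207 k231 5 (.s k69 k138 10 (.d k101 k117 k48 3
  14)))))), (.s k16 k223 10 (.s k48 k32 3 (.s k146 k211 8 (.s k97 k195 12 (.s k113 k65 3 (.d k243
  k178 k162 8 12))))))] (.c k219 (.l (.s k16 k223 10 (.s k48 k32 3 (.s k89 k93 1 (.s k101 k207 14
  (.s k113 k77 5 (.d k243 k178 k162 8 12))))))) .n))

def s11_170_187 : T TT 256 :=
  (.q k153 [(.s k17 k221 9 (.s k89 k93 1 (.s k25 k217 7 (.s k29 k21 1 (.d k209 k145 k149 7 9))))),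
  (.s k89 k93 1 (.s k217 k25 7 (.s k243 k162 12 (.s k204 k230 6 (.s k68 k136 9 (.d k102 k119 k51 4
  14)))))), (.s k17 k221 9 (.s k51 k34 4 (.s k145 k209 7 (.s k98 k192 12 (.s k115 k64 4 (.d k243
  k179 k162 7 12))))))] (.c k217 (.l (.s k17 k221 9 (.s k51 k34 4 (.s k89 k93 1 (.s k102 k204 14 (.s
  k115 k76 6 (.d k243 k179 k162 7 12))))))) .n))

def s11_170_188 : T TT 256 :=
  (.q k1 [(.s k89 k93 1 (.s k169 k253 13 (.s k9 k249 11 (.s k13 k5 1 (.d k241 k161 k165 11 13))))),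
  (.s k3 k2 0 (.s k161 k241 11 (.s k82 k240 12 (.s k83 k80 0 (.d k243 k163 k162 11 12))))), (.s k3
  k2 0 (.s k89 k93 1 (.s k169 k253 13 (.s k86 k252 14 (.s k83 k92 2 (.d k243 k163 k162 11 12))))))]
  .n)

def s11_170_189 : T TT 256 :=
  (.q k1 [(.s k3 k2 0 (.s k161 k241 11 (.s k82 k240 12 (.s k83 k80 0 (.d k243 k163 k162 11 12))))),
  (.s k89 k93 1 (.s k169 k253 13 (.s k9 k249 11 (.s k13 k5 1 (.d k241 k161 k165 11 13))))), (.s k3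
  k2 0 (.s k89 k93 1 (.s k169 k253 13 (.s k86 k252 14 (.s k83 k92 2 (.d k243 k163 k162 11 12))))))]
  .n)

def s11_170_190 : T TT 256 :=
  (.f k89 k93 1 (.q k150 [(.s k211 k28 10 (.s k16 k146 8 (.s k215 k20 8 (.d k223 k219 k154 1 10)))),
  (.s k20 k215 8 (.s k60 k40 5 (.s k105 k195 14 (.s k121 k73 3 (.d k243 k182 k162 10 12))))), (.s
  k211 k28 10 (.s k243 k162 12 (.s k195 k227 3 (.s k65 k130 8 (.d k105 k125 k60 5 14)))))] .n))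

def s11_170_191 : T TT 256 :=
  (.q k64 [(.s k98 k115 4 (.s k162 k243 12 (.s k34 k226 7 (.s k51 k17 4 (.d k192 k128 k145 7
  12))))), (.s k89 k93 1 (.s k106 k127 6 (.s k72 k123 4 (.s k76 k68 1 (.d k115 k98 k102 4 6))))),
  (.s k89 k93 1 (.s k106 k127 6 (.s k123 k72 4 (.s k243 k162 12 (.s k63 k183 9 (.d k192 k128 k149 7
  14))))))] (.c k128 (.q k149 [(.s k21 k213 7 (.s k63 k42 6 (.d k106 k127 k192 6 14))), (.s k89 k93
  1 (.s k115 k98 4 (.s k76 k102 6 (.s k72 k68 1 (.d k106 k123 k127 4 6))))), (.s k89 k93 1 (.s k209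
  k29 9 (.s k17 k145 7 (.s k213 k21 7 (.d k221 k217 k153 1 9)))))] .n) (.c k149 (.l (.s k128 k192 7
  (.s k89 k93 1 (.s k106 k127 6 (.s k72 k123 4 (.s k76 k68 1 (.d k115 k98 k102 4 6))))))) .n)))

def s11_170_192 : T TT 256 :=
  (.q k1 [(.s k89 k93 1 (.s k169 k253 13 (.s k9 k249 11 (.s k13 k5 1 (.d k241 k161 k165 11 13))))),
  (.s k3 k2 0 (.s k161 k241 11 (.s k82 k240 12 (.s k83 k80 0 (.d k243 k163 k162 11 12))))), (.s k3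
  k2 0 (.s k89 k93 1 (.s k169 k253 13 (.s k86 k252 14 (.s k83 k92 2 (.d k243 k163 k162 11 12))))))]
  .n)

def s11_170_193 : T TT 256 :=
  (.q k1 [(.s k89 k93 1 (.s k169 k253 13 (.s k9 k249 11 (.s k13 k5 1 (.d k241 k161 k165 11 13))))),
  (.s k3 k2 0 (.s k161 k241 11 (.s k82 k240 12 (.s k83 k80 0 (.d k243 k163 k162 11 12))))), (.s k3
  k2 0 (.s k89 k93 1 (.s k169 k253 13 (.s k86 k252 14 (.s k83 k92 2 (.d k243 k163 k162 11 12))))))]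
  .n)

def s11_170_194 : T TT 256 :=
  (.q k1 [(.s k89 k93 1 (.s k169 k253 13 (.s k9 k249 11 (.s k13 k5 1 (.d k241 k161 k165 11 13))))),
  (.s k3 k2 0 (.s k161 k241 11 (.s k82 k240 12 (.s k83 k80 0 (.d k243 k163 k162 11 12))))), (.s k3
  k2 0 (.s k89 k93 1 (.s k169 k253 13 (.s k86 k252 14 (.s k83 k92 2 (.d k243 k163 k162 11 12))))))]
  .n)

def s11_170_195 : T TT 256 :=
  (.q k1 [(.s k89 k93 1 (.s k169 k253 13 (.s k9 k249 11 (.s k13 k5 1 (.d k241 k161 k165 11 13))))),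
  (.s k3 k2 0 (.s k161 k241 11 (.s k82 k240 12 (.s k83 k80 0 (.d k243 k163 k162 11 12))))), (.s k3
  k2 0 (.s k89 k93 1 (.s k169 k253 13 (.s k86 k252 14 (.s k83 k92 2 (.d k243 k163 k162 11 12))))))]
  .n)

def s11_170_196 : T TT 256 :=
  (.q k1 [(.s k89 k93 1 (.s k169 k253 13 (.s k9 k249 11 (.s k13 k5 1 (.d k241 k161 k165 11 13))))),
  (.s k3 k2 0 (.s k161 k241 11 (.s k82 k240 12 (.s k83 k80 0 (.d k243 k163 k162 11 12))))), (.s k3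
  k2 0 (.s k89 k93 1 (.s k169 k253 13 (.s k86 k252 14 (.s k83 k92 2 (.d k243 k163 k162 11 12))))))]
  .n)

def s11_170_197 : T TT 256 :=
  (.q k1 [(.s k3 k2 0 (.s k161 k241 11 (.s k82 k240 12 (.s k83 k80 0 (.d k243 k163 k162 11 12))))),
  (.s k89 k93 1 (.s k169 k253 13 (.s k9 k249 11 (.s k13 k5 1 (.d k241 k161 k165 11 13))))), (.s k3
  k2 0 (.s k89 k93 1 (.s k169 k253 13 (.s k86 k252 14 (.s k83 k92 2 (.d k243 k163 k162 11 12))))))]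
  .n)

def s11_170_198 : T TT 256 :=
  (.q k1 [(.s k89 k93 1 (.s k169 k253 13 (.s k9 k249 11 (.s k13 k5 1 (.d k241 k161 k165 11 13))))),
  (.s k3 k2 0 (.s k161 k241 11 (.s k82 k240 12 (.s k83 k80 0 (.d k243 k163 k162 11 12))))), (.s k3
  k2 0 (.s k89 k93 1 (.s k169 k253 13 (.s k86 k252 14 (.s k83 k92 2 (.d k243 k163 k162 11 12))))))]
  .n)

def s11_170_199 : T TT 256 :=
  (.q k1 [(.s k89 k93 1 (.s k169 k253 13 (.s k9 k249 11 (.s k13 k5 1 (.d k241 k161 k165 11 13))))),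
  (.s k3 k2 0 (.s k161 k241 11 (.s k82 k240 12 (.s k83 k80 0 (.d k243 k163 k162 11 12))))), (.s k3
  k2 0 (.s k89 k93 1 (.s k169 k253 13 (.s k86 k252 14 (.s k83 k92 2 (.d k243 k163 k162 11 12))))))]
  .n)

def s11_170_200 : T TT 256 :=
  (.f k162 k243 12 (.f k89 k93 1 (.q k1 [(.s k161 k241 11 (.s k160 k163 0 (.s k240 k80 11 (.d k3 k2
  k82 0 12)))), (.s k169 k253 13 (.s k9 k249 11 (.s k13 k5 1 (.d k241 k161 k165 11 13)))), (.s k3 k2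
  0 (.s k169 k253 13 (.s k86 k252 14 (.s k83 k92 2 (.s k80 k82 0 (.s k87 k84 0 (.d k95 k91 k90 1
  2)))))))] (.c k74 (.q k137 [(.s k161 k241 11 (.s k160 k163 0 (.s k240 k80 11 (.d k3 k2 k82 0
  12)))), (.s k169 k253 13 (.s k9 k249 11 (.s k13 k5 1 (.d k241 k161 k165 11 13)))), (.s k3 k2 0 (.s
  k69 k205 9 (.s k70 k204 10 (.s k71 k68 0 (.d k207 k139 k138 9 10)))))] .n) (.c k137 (.q k74 [(.s
  k161 k241 11 (.s k160 k163 0 (.s k240 k80 11 (.d k3 k2 k82 0 12)))), (.s k169 k253 13 (.s k9 k249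
  11 (.s k13 k5 1 (.d k241 k161 k165 11 13)))), (.s k3 k2 0 (.s k169 k253 13 (.s k86 k252 14 (.s k83
  k92 2 (.s k80 k82 0 (.s k87 k84 0 (.d k95 k91 k90 1 2)))))))] .n) .n)))))

def s11_170_201 : T TT 256 :=
  (.q k1 [(.s k3 k2 0 (.s k161 k241 11 (.s k82 k240 12 (.s k83 k80 0 (.d k243 k163 k162 11 12))))),
  (.s k89 k93 1 (.s k169 k253 13 (.s k9 k249 11 (.s k13 k5 1 (.d k241 k161 k165 11 13))))), (.s k3
  k2 0 (.s k89 k93 1 (.s k169 k253 13 (.s k86 k252 14 (.s k83 k92 2 (.d k243 k163 k162 11 12))))))]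
  .n)

def s11_170_202 : T TT 256 :=
  (.q k1 [(.s k89 k93 1 (.s k169 k253 13 (.s k9 k249 11 (.s k13 k5 1 (.d k241 k161 k165 11 13))))),
  (.s k3 k2 0 (.s k161 k241 11 (.s k82 k240 12 (.s k83 k80 0 (.d k243 k163 k162 11 12))))), (.s k3
  k2 0 (.s k89 k93 1 (.s k169 k253 13 (.s k86 k252 14 (.s k83 k92 2 (.d k243 k163 k162 11 12))))))]
  .n)

def s11_170_203 : T TT 256 :=
  (.f k162 k243 12 (.f k89 k93 1 (.q k1 [(.s k161 k241 11 (.s k160 k163 0 (.s k240 k80 11 (.d k3 k2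
  k82 0 12)))), (.s k169 k253 13 (.s k9 k249 11 (.s k13 k5 1 (.d k241 k161 k165 11 13)))), (.s k3 k2
  0 (.s k169 k253 13 (.s k86 k252 14 (.s k83 k92 2 (.s k80 k82 0 (.s k87 k84 0 (.d k95 k91 k90 1
  2)))))))] (.c k75 (.q k139 [(.s k161 k241 11 (.s k160 k163 0 (.s k240 k80 11 (.d k3 k2 k82 0
  12)))), (.s k169 k253 13 (.s k9 k249 11 (.s k13 k5 1 (.d k241 k161 k165 11 13)))), (.s k3 k2 0 (.s
  k169 k253 13 (.s k154 k184 4 (.s k16 k223 10 (.s k48 k32 3 (.d k207 k101 k71 14 9))))))] .n) (.c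
  k139 (.q k75 [(.s k161 k241 11 (.s k160 k163 0 (.s k240 k80 11 (.d k3 k2 k82 0 12)))), (.s k169
  k253 13 (.s k9 k249 11 (.s k13 k5 1 (.d k241 k161 k165 11 13)))), (.s k3 k2 0 (.s k169 k253 13 (.s
  k86 k252 14 (.s k83 k92 2 (.s k80 k82 0 (.s k87 k84 0 (.d k95 k91 k90 1 2)))))))] .n) .n)))))

def s11_170_204 : T TT 256 :=
  (.q k1 [(.s k89 k93 1 (.s k169 k253 13 (.s k9 k249 11 (.s k13 k5 1 (.d k241 k161 k165 11 13))))),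
  (.s k3 k2 0 (.s k161 k241 11 (.s k82 k240 12 (.s k83 k80 0 (.d k243 k163 k162 11 12))))), (.s k3
  k2 0 (.s k89 k93 1 (.s k169 k253 13 (.s k86 k252 14 (.s k83 k92 2 (.d k243 k163 k162 11 12))))))]
  .n)

def s11_170_205 : T TT 256 :=
  (.q k1 [(.s k89 k93 1 (.s k169 k253 13 (.s k9 k249 11 (.s k13 k5 1 (.d k241 k161 k165 11 13))))),
  (.s k3 k2 0 (.s k161 k241 11 (.s k82 k240 12 (.s k83 k80 0 (.d k243 k163 k162 11 12))))), (.s k3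
  k2 0 (.s k89 k93 1 (.s k169 k253 13 (.s k86 k252 14 (.s k83 k92 2 (.d k243 k163 k162 11 12))))))]
  .n)

def s11_170_206 : T TT 256 :=
  (.q k1 [(.s k89 k93 1 (.s k169 k253 13 (.s k9 k249 11 (.s k13 k5 1 (.d k241 k161 k165 11 13))))),
  (.s k3 k2 0 (.s k161 k241 11 (.s k82 k240 12 (.s k83 k80 0 (.d k243 k163 k162 11 12))))), (.s k3
  k2 0 (.s k89 k93 1 (.s k169 k253 13 (.s k86 k252 14 (.s k83 k92 2 (.d k243 k163 k162 11 12))))))]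
  .n)

def s11_170_207 : T TT 256 :=
  (.q k1 [(.s k89 k93 1 (.s k169 k253 13 (.s k9 k249 11 (.s k13 k5 1 (.d k241 k161 k165 11 13))))),
  (.s k3 k2 0 (.s k161 k241 11 (.s k82 k240 12 (.s k83 k80 0 (.d k243 k163 k162 11 12))))), (.s k3
  k2 0 (.s k89 k93 1 (.s k169 k253 13 (.s k86 k252 14 (.s k83 k92 2 (.d k243 k163 k162 11 12))))))]
  .n)

def s11_170_208 : T TT 256 :=
  (.q k1 [(.s k89 k93 1 (.s k169 k253 13 (.s k9 k249 11 (.s k13 k5 1 (.d k241 k161 k165 11 13))))),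
  (.s k3 k2 0 (.s k161 k241 11 (.s k82 k240 12 (.s k83 k80 0 (.d k243 k163 k162 11 12))))), (.s k3
  k2 0 (.s k89 k93 1 (.s k169 k253 13 (.s k86 k252 14 (.s k83 k92 2 (.d k243 k163 k162 11 12))))))]
  .n)

def s11_170_209 : T TT 256 :=
  (.q k1 [(.s k89 k93 1 (.s k169 k253 13 (.s k9 k249 11 (.s k13 k5 1 (.d k241 k161 k165 11 13))))),
  (.s k3 k2 0 (.s k161 k241 11 (.s k82 k240 12 (.s k83 k80 0 (.d k243 k163 k162 11 12))))), (.s k3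
  k2 0 (.s k89 k93 1 (.s k169 k253 13 (.s k86 k252 14 (.s k83 k92 2 (.d k243 k163 k162 11 12))))))]
  .n)

def s11_170_210 : T TT 256 :=
  (.q k1 [(.s k89 k93 1 (.s k169 k253 13 (.s k9 k249 11 (.s k13 k5 1 (.d k241 k161 k165 11 13))))),
  (.s k3 k2 0 (.s k161 k241 11 (.s k82 k240 12 (.s k83 k80 0 (.d k243 k163 k162 11 12))))), (.s k3
  k2 0 (.s k89 k93 1 (.s k169 k253 13 (.s k86 k252 14 (.s k83 k92 2 (.d k243 k163 k162 11 12))))))]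
  .n)

def s11_170_211 : T TT 256 :=
  (.q k1 [(.s k89 k93 1 (.s k169 k253 13 (.s k9 k249 11 (.s k13 k5 1 (.d k241 k161 k165 11 13))))),
  (.s k3 k2 0 (.s k161 k241 11 (.s k82 k240 12 (.s k83 k80 0 (.d k243 k163 k162 11 12))))), (.s k3
  k2 0 (.s k89 k93 1 (.s k169 k253 13 (.s k86 k252 14 (.s k83 k92 2 (.d k243 k163 k162 11 12))))))]
  .n)

def s11_170_212 : T TT 256 :=
  (.q k1 [(.s k89 k93 1 (.s k169 k253 13 (.s k9 k249 11 (.s k13 k5 1 (.d k241 k161 k165 11 13))))),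
  (.s k3 k2 0 (.s k161 k241 11 (.s k82 k240 12 (.s k83 k80 0 (.d k243 k163 k162 11 12))))), (.s k3
  k2 0 (.s k89 k93 1 (.s k169 k253 13 (.s k86 k252 14 (.s k83 k92 2 (.d k243 k163 k162 11 12))))))]
  .n)

def s11_170_213 : T TT 256 :=
  (.q k1 [(.s k3 k2 0 (.s k161 k241 11 (.s k82 k240 12 (.s k83 k80 0 (.d k243 k163 k162 11 12))))),
  (.s k89 k93 1 (.s k169 k253 13 (.s k9 k249 11 (.s k13 k5 1 (.d k241 k161 k165 11 13))))), (.s k3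
  k2 0 (.s k89 k93 1 (.s k169 k253 13 (.s k86 k252 14 (.s k83 k92 2 (.d k243 k163 k162 11 12))))))]
  .n)

def s11_170_214 : T TT 256 :=
  (.q k1 [(.s k89 k93 1 (.s k169 k253 13 (.s k9 k249 11 (.s k13 k5 1 (.d k241 k161 k165 11 13))))),
  (.s k3 k2 0 (.s k161 k241 11 (.s k82 k240 12 (.s k83 k80 0 (.d k243 k163 k162 11 12))))), (.s k3
  k2 0 (.s k89 k93 1 (.s k169 k253 13 (.s k86 k252 14 (.s k83 k92 2 (.d k243 k163 k162 11 12))))))]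
  .n)

def s11_170_215 : T TT 256 :=
  (.q k1 [(.s k89 k93 1 (.s k169 k253 13 (.s k9 k249 11 (.s k13 k5 1 (.d k241 k161 k165 11 13))))),
  (.s k3 k2 0 (.s k161 k241 11 (.s k82 k240 12 (.s k83 k80 0 (.d k243 k163 k162 11 12))))), (.s k3
  k2 0 (.s k89 k93 1 (.s k169 k253 13 (.s k86 k252 14 (.s k83 k92 2 (.d k243 k163 k162 11 12))))))]
  .n)

def s11_170_216 : T TT 256 :=
  (.q k1 [(.s k89 k93 1 (.s k169 k253 13 (.s k9 k249 11 (.s k13 k5 1 (.d k241 k161 k165 11 13))))),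
  (.s k3 k2 0 (.s k161 k241 11 (.s k82 k240 12 (.s k83 k80 0 (.d k243 k163 k162 11 12))))), (.s k3
  k2 0 (.s k89 k93 1 (.s k169 k253 13 (.s k86 k252 14 (.s k83 k92 2 (.d k243 k163 k162 11 12))))))]
  .n)

def s11_170_217 : T TT 256 :=
  (.q k1 [(.s k89 k93 1 (.s k169 k253 13 (.s k9 k249 11 (.s k13 k5 1 (.d k241 k161 k165 11 13))))),
  (.s k3 k2 0 (.s k161 k241 11 (.s k82 k240 12 (.s k83 k80 0 (.d k243 k163 k162 11 12))))), (.s k3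
  k2 0 (.s k89 k93 1 (.s k169 k253 13 (.s k86 k252 14 (.s k83 k92 2 (.d k243 k163 k162 11 12))))))]
  .n)

def s11_170_218 : T TT 256 :=
  (.q k1 [(.s k89 k93 1 (.s k169 k253 13 (.s k9 k249 11 (.s k13 k5 1 (.d k241 k161 k165 11 13))))),
  (.s k3 k2 0 (.s k161 k241 11 (.s k82 k240 12 (.s k83 k80 0 (.d k243 k163 k162 11 12))))), (.s k3
  k2 0 (.s k89 k93 1 (.s k169 k253 13 (.s k86 k252 14 (.s k83 k92 2 (.d k243 k163 k162 11 12))))))]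
  .n)

def s11_170_219 : T TT 256 :=
  (.q k1 [(.s k89 k93 1 (.s k169 k253 13 (.s k9 k249 11 (.s k13 k5 1 (.d k241 k161 k165 11 13))))),
  (.s k3 k2 0 (.s k161 k241 11 (.s k82 k240 12 (.s k83 k80 0 (.d k243 k163 k162 11 12))))), (.s k3
  k2 0 (.s k89 k93 1 (.s k169 k253 13 (.s k86 k252 14 (.s k83 k92 2 (.d k243 k163 k162 11 12))))))]
  .n)

def s11_170_220 : T TT 256 :=
  (.q k1 [(.s k89 k93 1 (.s k169 k253 13 (.s k9 k249 11 (.s k13 k5 1 (.d k241 k161 k165 11 13))))),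
  (.s k3 k2 0 (.s k161 k241 11 (.s k82 k240 12 (.s k83 k80 0 (.d k243 k163 k162 11 12))))), (.s k3
  k2 0 (.s k89 k93 1 (.s k169 k253 13 (.s k86 k252 14 (.s k83 k92 2 (.d k243 k163 k162 11 12))))))]
  .n)

def s11_170_221 : T TT 256 :=
  (.q k1 [(.s k3 k2 0 (.s k161 k241 11 (.s k82 k240 12 (.s k83 k80 0 (.d k243 k163 k162 11 12))))),
  (.s k89 k93 1 (.s k169 k253 13 (.s k9 k249 11 (.s k13 k5 1 (.d k241 k161 k165 11 13))))), (.s k3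
  k2 0 (.s k89 k93 1 (.s k169 k253 13 (.s k86 k252 14 (.s k83 k92 2 (.d k243 k163 k162 11 12))))))]
  .n)

def s11_170_222 : T TT 256 :=
  (.q k1 [(.s k89 k93 1 (.s k169 k253 13 (.s k9 k249 11 (.s k13 k5 1 (.d k241 k161 k165 11 13))))),
  (.s k3 k2 0 (.s k161 k241 11 (.s k82 k240 12 (.s k83 k80 0 (.d k243 k163 k162 11 12))))), (.s k3
  k2 0 (.s k89 k93 1 (.s k169 k253 13 (.s k86 k252 14 (.s k83 k92 2 (.d k243 k163 k162 11 12))))))]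
  .n)

def s11_170_223 : T TT 256 :=
  (.q k1 [(.s k3 k2 0 (.s k161 k241 11 (.s k82 k240 12 (.s k83 k80 0 (.d k243 k163 k162 11 12))))),
  (.s k89 k93 1 (.s k169 k253 13 (.s k9 k249 11 (.s k13 k5 1 (.d k241 k161 k165 11 13))))), (.s k3
  k2 0 (.s k89 k93 1 (.s k169 k253 13 (.s k86 k252 14 (.s k83 k92 2 (.d k243 k163 k162 11 12))))))]
  .n)

def s11_170_224 : T TT 256 :=
  (.q k1 [(.s k89 k93 1 (.s k169 k253 13 (.s k9 k249 11 (.s k13 k5 1 (.d k241 k161 k165 11 13))))),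
  (.s k3 k2 0 (.s k161 k241 11 (.s k82 k240 12 (.s k83 k80 0 (.d k243 k163 k162 11 12))))), (.s k3
  k2 0 (.s k89 k93 1 (.s k169 k253 13 (.s k86 k252 14 (.s k83 k92 2 (.d k243 k163 k162 11 12))))))]
  .n)

def s11_170_225 : T TT 256 :=
  (.q k1 [(.s k89 k93 1 (.s k169 k253 13 (.s k9 k249 11 (.s k13 k5 1 (.d k241 k161 k165 11 13))))),
  (.s k3 k2 0 (.s k161 k241 11 (.s k82 k240 12 (.s k83 k80 0 (.d k243 k163 k162 11 12))))), (.s k3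
  k2 0 (.s k89 k93 1 (.s k169 k253 13 (.s k86 k252 14 (.s k83 k92 2 (.d k243 k163 k162 11 12))))))]
  .n)

def s11_170_226 : T TT 256 :=
  (.q k1 [(.s k89 k93 1 (.s k169 k253 13 (.s k9 k249 11 (.s k13 k5 1 (.d k241 k161 k165 11 13))))),
  (.s k3 k2 0 (.s k161 k241 11 (.s k82 k240 12 (.s k83 k80 0 (.d k243 k163 k162 11 12))))), (.s k3
  k2 0 (.s k89 k93 1 (.s k169 k253 13 (.s k86 k252 14 (.s k83 k92 2 (.d k243 k163 k162 11 12))))))]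
  .n)

def s11_170_227 : T TT 256 :=
  (.q k1 [(.s k89 k93 1 (.s k169 k253 13 (.s k9 k249 11 (.s k13 k5 1 (.d k241 k161 k165 11 13))))),
  (.s k3 k2 0 (.s k161 k241 11 (.s k82 k240 12 (.s k83 k80 0 (.d k243 k163 k162 11 12))))), (.s k3
  k2 0 (.s k89 k93 1 (.s k169 k253 13 (.s k86 k252 14 (.s k83 k92 2 (.d k243 k163 k162 11 12))))))]
  .n)

def s11_170_228 : T TT 256 :=
  (.q k1 [(.s k89 k93 1 (.s k169 k253 13 (.s k9 k249 11 (.s k13 k5 1 (.d k241 k161 k165 11 13))))),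
  (.s k3 k2 0 (.s k161 k241 11 (.s k82 k240 12 (.s k83 k80 0 (.d k243 k163 k162 11 12))))), (.s k3
  k2 0 (.s k89 k93 1 (.s k169 k253 13 (.s k86 k252 14 (.s k83 k92 2 (.d k243 k163 k162 11 12))))))]
  .n)

def s11_170_229 : T TT 256 :=
  (.q k1 [(.s k89 k93 1 (.s k169 k253 13 (.s k9 k249 11 (.s k13 k5 1 (.d k241 k161 k165 11 13))))),
  (.s k3 k2 0 (.s k161 k241 11 (.s k82 k240 12 (.s k83 k80 0 (.d k243 k163 k162 11 12))))), (.s k3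
  k2 0 (.s k89 k93 1 (.s k169 k253 13 (.s k86 k252 14 (.s k83 k92 2 (.d k243 k163 k162 11 12))))))]
  .n)

def s11_170_230 : T TT 256 :=
  (.q k1 [(.s k89 k93 1 (.s k169 k253 13 (.s k9 k249 11 (.s k13 k5 1 (.d k241 k161 k165 11 13))))),
  (.s k3 k2 0 (.s k161 k241 11 (.s k82 k240 12 (.s k83 k80 0 (.d k243 k163 k162 11 12))))), (.s k3
  k2 0 (.s k89 k93 1 (.s k169 k253 13 (.s k86 k252 14 (.s k83 k92 2 (.d k243 k163 k162 11 12))))))]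
  .n)

def s11_170_231 : T TT 256 :=
  (.q k1 [(.s k89 k93 1 (.s k169 k253 13 (.s k9 k249 11 (.s k13 k5 1 (.d k241 k161 k165 11 13))))),
  (.s k3 k2 0 (.s k161 k241 11 (.s k82 k240 12 (.s k83 k80 0 (.d k243 k163 k162 11 12))))), (.s k3
  k2 0 (.s k89 k93 1 (.s k169 k253 13 (.s k86 k252 14 (.s k83 k92 2 (.d k243 k163 k162 11 12))))))]
  .n)

def s11_170_232 : T TT 256 :=
  (.q k1 [(.s k89 k93 1 (.s k169 k253 13 (.s k9 k249 11 (.s k13 k5 1 (.d k241 k161 k165 11 13))))),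
  (.s k3 k2 0 (.s k161 k241 11 (.s k82 k240 12 (.s k83 k80 0 (.d k243 k163 k162 11 12))))), (.s k3
  k2 0 (.s k89 k93 1 (.s k169 k253 13 (.s k86 k252 14 (.s k83 k92 2 (.d k243 k163 k162 11 12))))))]
  .n)

def s11_170_233 : T TT 256 :=
  (.q k1 [(.s k3 k2 0 (.s k161 k241 11 (.s k82 k240 12 (.s k83 k80 0 (.d k243 k163 k162 11 12))))),
  (.s k89 k93 1 (.s k169 k253 13 (.s k9 k249 11 (.s k13 k5 1 (.d k241 k161 k165 11 13))))), (.s k3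
  k2 0 (.s k89 k93 1 (.s k169 k253 13 (.s k86 k252 14 (.s k83 k92 2 (.d k243 k163 k162 11 12))))))]
  .n)

def s11_170_234 : T TT 256 :=
  (.q k106 [(.s k64 k127 6 (.s k89 k93 1 (.s k72 k123 4 (.s k76 k68 1 (.d k115 k98 k102 4 6))))),
  (.s k89 k93 1 (.s k123 k72 4 (.s k243 k162 12 (.s k63 k183 9 (.s k21 k42 6 (.d k149 k213 k192 7
  14)))))), (.s k64 k127 6 (.s k98 k115 4 (.s k162 k243 12 (.s k34 k226 7 (.s k51 k17 4 (.d k192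
  k128 k145 7 12))))))] (.c k123 (.l (.s k64 k127 6 (.s k89 k93 1 (.s k192 k128 7 (.s k149 k63 14
  (.s k209 k29 9 (.d k243 k226 k162 4 12))))))) .n))

def s11_170_235 : T TT 256 :=
  (.q k105 [(.s k65 k125 5 (.s k89 k93 1 (.s k73 k121 3 (.s k77 k69 1 (.d k113 k97 k101 3 5))))),
  (.s k89 k93 1 (.s k121 k73 3 (.s k243 k162 12 (.s k60 k182 10 (.s k20 k40 5 (.d k150 k215 k195 8
  14)))))), (.s k65 k125 5 (.s k97 k113 3 (.s k162 k243 12 (.s k32 k227 8 (.s k48 k16 3 (.d k195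
  k130 k146 8 12))))))] (.c k121 (.l (.s k65 k125 5 (.s k89 k93 1 (.s k195 k130 8 (.s k150 k60 14
  (.s k211 k28 10 (.d k243 k227 k162 3 12))))))) .n))

def s11_170_236 : T TT 256 :=
  (.q k1 [(.s k89 k93 1 (.s k169 k253 13 (.s k9 k249 11 (.s k13 k5 1 (.d k241 k161 k165 11 13))))),
  (.s k3 k2 0 (.s k161 k241 11 (.s k82 k240 12 (.s k83 k80 0 (.d k243 k163 k162 11 12))))), (.s k3
  k2 0 (.s k89 k93 1 (.s k169 k253 13 (.s k86 k252 14 (.s k83 k92 2 (.d k243 k163 k162 11 12))))))]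
  .n)

def s11_170_237 : T TT 256 :=
  (.q k1 [(.s k3 k2 0 (.s k161 k241 11 (.s k82 k240 12 (.s k83 k80 0 (.d k243 k163 k162 11 12))))),
  (.s k89 k93 1 (.s k169 k253 13 (.s k9 k249 11 (.s k13 k5 1 (.d k241 k161 k165 11 13))))), (.s k3
  k2 0 (.s k89 k93 1 (.s k169 k253 13 (.s k86 k252 14 (.s k83 k92 2 (.d k243 k163 k162 11 12))))))]
  .n)

def s11_170_238 : T TT 256 :=
  (.f k89 k93 1 (.q k102 [(.s k115 k76 6 (.s k64 k98 4 (.s k119 k68 4 (.d k127 k123 k106 1 6)))),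
  (.s k68 k119 4 (.s k204 k136 9 (.s k153 k51 14 (.s k217 k25 7 (.d k243 k230 k162 6 12))))), (.s
  k115 k76 6 (.s k243 k162 12 (.s k51 k179 7 (.s k17 k34 4 (.d k153 k221 k204 9 14)))))] .n))

def s11_170_239 : T TT 256 :=
  (.f k89 k93 1 (.q k101 [(.s k113 k77 5 (.s k65 k97 3 (.s k117 k69 3 (.d k125 k121 k105 1 5)))),
  (.s k69 k117 3 (.s k207 k138 10 (.s k154 k48 14 (.s k219 k24 8 (.d k243 k231 k162 5 12))))), (.s
  k113 k77 5 (.s k243 k162 12 (.s k48 k178 8 (.s k16 k32 3 (.d k154 k223 k207 10 14)))))] .n))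

def s11_170_240 : T TT 256 :=
  (.q k16 [(.s k89 k93 1 (.s k154 k223 10 (.s k24 k219 8 (.s k28 k20 1 (.d k211 k146 k150 8 10))))),
  (.s k48 k32 3 (.s k146 k211 8 (.s k97 k195 12 (.s k113 k65 3 (.d k243 k178 k162 8 12))))), (.s k48
  k32 3 (.s k89 k93 1 (.s k154 k223 10 (.s k101 k207 14 (.s k113 k77 5 (.d k243 k178 k162 8
  12))))))] .n)

def s11_170_241 : T TT 256 :=
  (.q k16 [(.s k89 k93 1 (.s k154 k223 10 (.s k24 k219 8 (.s k28 k20 1 (.d k211 k146 k150 8 10))))),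
  (.s k48 k32 3 (.s k146 k211 8 (.s k97 k195 12 (.s k113 k65 3 (.d k243 k178 k162 8 12))))), (.s k48
  k32 3 (.s k89 k93 1 (.s k154 k223 10 (.s k101 k207 14 (.s k113 k77 5 (.d k243 k178 k162 8
  12))))))] .n)

def s11_170_242 : T TT 256 :=
  (.q k1 [(.s k89 k93 1 (.s k169 k253 13 (.s k9 k249 11 (.s k13 k5 1 (.d k241 k161 k165 11 13))))),
  (.s k3 k2 0 (.s k161 k241 11 (.s k82 k240 12 (.s k243 k162 12 (.d k83 k80 k163 0 11))))), (.s k3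
  k2 0 (.s k89 k93 1 (.s k169 k253 13 (.s k86 k252 14 (.s k83 k92 2 (.d k243 k162 k163 12 11))))))]
  .n)

def s11_170_243 : T TT 256 :=
  (.f k89 k93 1 (.q k1 [(.s k241 k161 11 (.s k165 k13 13 (.s k245 k5 11 (.d k253 k249 k169 1 13)))),
  (.s k3 k2 0 (.s k169 k253 13 (.s k86 k252 14 (.s k83 k92 2 (.s k80 k82 0 (.s k87 k84 0 (.d k95 k91
  k90 1 2))))))), (.s k3 k2 0 (.s k161 k241 11 (.s k240 k82 12 (.s k80 k160 11 (.s k90 k95 2 (.s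
  k165 k15 14 (.d k169 k173 k253 1 13)))))))] (.c k169 (.f k3 k2 0 (.f k241 k161 11 (.f k165 k13 13
  (.l (.s k5 k245 11 (.s k15 k10 2 (.s k90 k240 14 (.s k80 k95 2 (.s k83 k82 0 (.s k88 k91 0 (.d k92
  k84 k86 1 2))))))))))) (.c k173 (.l (.s k241 k161 11 (.s k13 k165 13 (.s k169 k253 13 (.d k9 k5
  k249 1 11))))) (.c k253 (.f k3 k2 0 (.f k241 k161 11 (.f k13 k165 13 (.l (.s k9 k5 1 (.s k12 k6 2
  (.s k4 k8 1 (.s k166 k247 12 (.s k169 k249 11 (.s k172 k163 2 (.d k252 k92 k86 11 14)))))))))))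
  .n)))))

def s11_170_244 : T TT 256 :=
  (.q k1 [(.s k89 k93 1 (.s k169 k253 13 (.s k9 k249 11 (.s k13 k5 1 (.d k241 k161 k165 11 13))))),
  (.s k3 k2 0 (.s k161 k241 11 (.s k82 k240 12 (.s k83 k80 0 (.d k243 k163 k162 11 12))))), (.s k3
  k2 0 (.s k89 k93 1 (.s k169 k253 13 (.s k86 k252 14 (.s k83 k92 2 (.d k243 k163 k162 11 12))))))]
  .n)

def s11_170_245 : T TT 256 :=
  (.q k1 [(.s k89 k93 1 (.s k169 k253 13 (.s k9 k249 11 (.s k241 k161 11 (.d k13 k5 k165 1 13))))),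
  (.s k3 k2 0 (.s k243 k162 12 (.s k83 k163 11 (.s k82 k80 0 (.d k161 k241 k240 11 12)))))] (.c k161
  (.l (.s k3 k2 0 (.s k89 k93 1 (.s k169 k253 13 (.s k86 k252 14 (.s k83 k92 2 (.d k243 k163 k162 11
  12))))))) (.c k241 (.l (.s k3 k2 0 (.s k89 k93 1 (.s k169 k253 13 (.s k249 k9 11 (.s k243 k162 12
  (.d k252 k86 k246 14 2))))))) .n)))

def s11_170_246 : T TT 256 :=
  (.q k1 [(.s k3 k2 0 (.s k161 k241 11 (.s k82 k240 12 (.s k83 k80 0 (.d k243 k163 k162 11 12))))),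
  (.s k89 k93 1 (.s k169 k253 13 (.s k241 k161 11 (.s k13 k165 13 (.d k9 k5 k249 1 11))))), (.s k3
  k2 0 (.s k89 k93 1 (.s k169 k253 13 (.s k86 k252 14 (.s k83 k92 2 (.d k243 k163 k162 11 12))))))]
  .n)

def s11_170_247 : T TT 256 :=
  (.q k1 [(.s k89 k93 1 (.s k169 k253 13 (.s k9 k249 11 (.s k13 k5 1 (.d k241 k161 k165 11 13))))),
  (.s k3 k2 0 (.s k161 k241 11 (.s k82 k240 12 (.s k83 k80 0 (.d k243 k163 k162 11 12))))), (.s k3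
  k2 0 (.s k89 k93 1 (.s k169 k253 13 (.s k86 k252 14 (.s k83 k92 2 (.d k243 k163 k162 11 12))))))]
  .n)

def s11_170_248 : T TT 256 :=
  (.q k90 [(.s k80 k95 2 (.s k83 k82 0 (.s k89 k93 1 (.s k88 k91 0 (.d k92 k84 k86 1 2))))), (.s k89
  k93 1 (.s k91 k88 0 (.s k243 k162 12 (.s k15 k167 13 (.s k5 k10 2 (.d k165 k245 k240 11 14)))))),
  (.s k80 k95 2 (.s k82 k83 0 (.s k162 k243 12 (.s k2 k242 11 (.s k3 k1 0 (.d k240 k160 k161 11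
  12))))))] (.c k91 (.l (.s k80 k95 2 (.s k89 k93 1 (.s k240 k160 11 (.s k165 k15 14 (.s k241 k13 13
  (.d k243 k242 k162 0 12))))))) .n))

def s11_170_249 : T TT 256 :=
  (.q k1 [(.s k3 k2 0 (.s k161 k241 11 (.s k82 k240 12 (.s k83 k80 0 (.d k243 k163 k162 11 12))))),
  (.s k89 k93 1 (.s k241 k161 11 (.s k165 k13 13 (.s k5 k245 11 (.s k15 k10 2 (.s k243 k162 12 (.d
  k240 k90 k242 14 0))))))), (.s k3 k2 0 (.s k89 k93 1 (.s k169 k253 13 (.s k86 k252 14 (.s k83 k92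
  2 (.d k243 k163 k162 11 12)))))), (.s k3 k2 0 (.s k89 k93 1 (.s k161 k241 11 (.s k82 k240 12 (.s
  k83 k80 0 (.s k86 k92 2 (.d k169 k253 k252 13 14))))))), (.s k3 k2 0 (.s k89 k93 1 (.s k243 k162
  12 (.s k83 k163 11 (.s k86 k92 2 (.d k169 k253 k252 13 14))))))] (.c k243 (.l (.s k3 k2 0 (.s k161
  k241 11 (.s k240 k82 12 (.s k80 k160 11 (.s k90 k95 2 (.s k165 k15 14 (.d k169 k253 k173 13
  1)))))))) (.c k253 (.l (.s k3 k2 0 (.s k243 k162 12 (.s k83 k163 11 (.s k82 k80 0 (.d k161 k241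
  k240 11 12)))))) .n)))

def s11_170_250 : T TT 256 :=
  (.q k90 [(.s k80 k95 2 (.s k83 k82 0 (.s k89 k93 1 (.s k88 k91 0 (.d k92 k84 k86 1 2))))), (.s k89
  k93 1 (.s k91 k88 0 (.s k243 k162 12 (.s k15 k167 13 (.s k5 k10 2 (.d k165 k245 k240 11 14)))))),
  (.s k80 k95 2 (.s k82 k83 0 (.s k162 k243 12 (.s k2 k242 11 (.s k3 k1 0 (.d k240 k160 k161 11
  12))))))] (.c k91 (.l (.s k80 k95 2 (.s k89 k93 1 (.s k240 k160 11 (.s k165 k15 14 (.s k241 k13 13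
  (.d k243 k242 k162 0 12))))))) .n))

def s11_170_251 : T TT 256 :=
  (.f k89 k93 1 (.q k91 [(.s k90 k88 0 (.s k243 k162 12 (.s k15 k167 13 (.s k5 k10 2 (.d k165 k245
  k240 11 14))))), (.s k90 k88 0 (.s k80 k95 2 (.s k82 k83 0 (.s k240 k160 11 (.s k165 k15 14 (.s
  k241 k13 13 (.d k161 k3 k1 12 11))))))), (.s k243 k162 12 (.s k15 k167 13 (.s k5 k10 2 (.s k165
  k245 11 (.s k13 k241 13 (.d k12 k166 k14 14 0))))))] (.c k15 (.l (.s k90 k88 0 (.s k80 k95 2 (.s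
  k240 k160 11 (.s k243 k162 12 (.s k166 k12 14 (.d k242 k14 k241 13 0))))))) (.c k90 (.f k243 k162
  12 (.l (.s k166 k12 14 (.s k167 k15 13 (.s k165 k164 0 (.s k245 k5 11 (.s k247 k4 12 (.s k7 k87 11
  (.d k244 k246 k86 0 12))))))))) (.c k165 (.l (.s k90 k88 0 (.s k80 k95 2 (.s k243 k162 12 (.s k166
  k12 14 (.s k242 k14 13 (.d k240 k241 k160 0 11))))))) .n)))))

def s11_170_252 : T TT 256 :=
  (.q k1 [(.s k89 k93 1 (.s k241 k161 11 (.s k13 k165 13 (.s k9 k5 1 (.d k169 k249 k253 11 13))))),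
  (.s k3 k2 0 (.s k161 k241 11 (.s k82 k240 12 (.s k83 k80 0 (.d k243 k163 k162 11 12))))), (.s k3
  k2 0 (.s k89 k93 1 (.s k169 k253 13 (.s k243 k162 12 (.s k163 k83 11 (.d k166 k172 k12 2 14))))))]
  .n)

def s11_170_253 : T TT 256 :=
  (.q k16 [(.s k48 k32 3 (.s k146 k211 8 (.s k97 k195 12 (.s k113 k65 3 (.d k243 k178 k162 8
  12))))), (.s k89 k93 1 (.s k154 k223 10 (.s k24 k219 8 (.s k28 k20 1 (.d k211 k146 k150 8 10))))),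
  (.s k48 k32 3 (.s k89 k93 1 (.s k154 k223 10 (.s k101 k207 14 (.s k113 k77 5 (.d k243 k178 k162 8
  12))))))] .n)

def s11_170_254 : T TT 256 :=
  (.q k1 [(.s k161 k241 11 (.s k162 k243 12 (.s k160 k163 0 (.s k240 k80 11 (.d k3 k2 k82 0 12))))),
  (.s k89 k93 1 (.s k169 k253 13 (.s k9 k249 11 (.s k13 k5 1 (.d k241 k161 k165 11 13))))), (.s k89
  k93 1 (.s k169 k253 13 (.s k243 k162 12 (.s k166 k12 14 (.s k163 k172 2 (.d k3 k2 k83 0 11))))))]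
  (.c k2 (.q k86 [(.s k84 k87 0 (.s k169 k253 13 (.d k252 k168 k3 13 14))), (.s k87 k84 0 (.s k89
  k93 1 (.s k83 k92 2 (.s k80 k82 0 (.d k95 k91 k90 1 2))))), (.s k89 k93 1 (.s k83 k92 2 (.s k169
  k253 13 (.s k243 k162 12 (.d k3 k252 k163 14 11)))))] .n) (.c k86 (.l (.s k2 k3 0 (.s k89 k93 1
  (.s k169 k253 13 (.s k9 k249 11 (.s k13 k5 1 (.d k241 k161 k165 11 13))))))) .n)))

def s11_170_255 : T TT 256 :=
  (.q k1 [(.s k3 k2 0 (.s k161 k241 11 (.s k82 k240 12 (.s k83 k80 0 (.d k243 k163 k162 11 12))))),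
  (.s k89 k93 1 (.s k241 k161 11 (.s k13 k165 13 (.s k9 k5 1 (.d k169 k249 k253 11 13)))))] (.c k161
  (.l (.s k3 k2 0 (.s k89 k93 1 (.s k169 k253 13 (.s k9 k249 11 (.s k12 k6 2 (.d k243 k162 k166 12
  14))))))) (.c k241 (.l (.s k3 k2 0 (.s k89 k93 1 (.s k169 k253 13 (.s k243 k162 12 (.s k83 k163 11
  (.d k86 k252 k92 14 2))))))) .n)))

def t11_170 : T TT 256 :=
  (.q k81 [] (.c k1 s11_170_1 (.c k2 s11_170_2 (.c k3 s11_170_3 (.c k4 s11_170_4 (.c k5 s11_170_5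
  (.c k6 s11_170_6 (.c k7 s11_170_7 (.c k8 s11_170_8 (.c k9 s11_170_9 (.c k10 s11_170_10 (.c k12
  s11_170_12 (.c k13 s11_170_13 (.c k14 s11_170_14 (.c k15 s11_170_15 (.c k16 s11_170_16 (.c k17
  s11_170_17 (.c k18 s11_170_18 (.c k19 s11_170_19 (.c k20 s11_170_20 (.c k21 s11_170_21 (.c k22
  s11_170_22 (.c k23 s11_170_23 (.c k24 s11_170_24 (.c k25 s11_170_25 (.c k26 s11_170_26 (.c k27
  s11_170_27 (.c k28 s11_170_28 (.c k29 s11_170_29 (.c k30 s11_170_30 (.c k31 s11_170_31 (.c k32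
  s11_170_32 (.c k33 s11_170_33 (.c k34 s11_170_34 (.c k35 s11_170_35 (.c k36 s11_170_36 (.c k37
  s11_170_37 (.c k38 s11_170_38 (.c k39 s11_170_39 (.c k40 s11_170_40 (.c k41 s11_170_41 (.c k42
  s11_170_42 (.c k43 s11_170_43 (.c k44 s11_170_44 (.c k45 s11_170_45 (.c k46 s11_170_46 (.c k47
  s11_170_47 (.c k48 s11_170_48 (.c k49 s11_170_49 (.c k50 s11_170_50 (.c k51 s11_170_51 (.c k52
  s11_170_52 (.c k53 s11_170_53 (.c k54 s11_170_54 (.c k55 s11_170_55 (.c k56 s11_170_56 (.c k57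
  s11_170_57 (.c k58 s11_170_58 (.c k59 s11_170_59 (.c k60 s11_170_60 (.c k61 s11_170_61 (.c k62
  s11_170_62 (.c k63 s11_170_63 (.c k64 s11_170_64 (.c k65 s11_170_65 (.c k66 s11_170_66 (.c k67
  s11_170_67 (.c k68 s11_170_68 (.c k69 s11_170_69 (.c k70 s11_170_70 (.c k71 s11_170_71 (.c k72
  s11_170_72 (.c k73 s11_170_73 (.c k74 s11_170_74 (.c k75 s11_170_75 (.c k76 s11_170_76 (.c k77
  s11_170_77 (.c k78 s11_170_78 (.c k79 s11_170_79 (.c k80 s11_170_80 (.c k82 s11_170_82 (.c k83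
  s11_170_83 (.c k84 s11_170_84 (.c k86 s11_170_86 (.c k87 s11_170_87 (.c k88 s11_170_88 (.c k89
  s11_170_89 (.c k90 s11_170_90 (.c k91 s11_170_91 (.c k92 s11_170_92 (.c k93 s11_170_93 (.c k94
  s11_170_94 (.c k95 s11_170_95 (.c k96 s11_170_96 (.c k97 s11_170_97 (.c k98 s11_170_98 (.c k99
  s11_170_99 (.c k100 s11_170_100 (.c k101 s11_170_101 (.c k102 s11_170_102 (.c k103 s11_170_103 (.c
  k104 s11_170_104 (.c k105 s11_170_105 (.c k106 s11_170_106 (.c k107 s11_170_107 (.c k108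
  s11_170_108 (.c k109 s11_170_109 (.c k110 s11_170_110 (.c k111 s11_170_111 (.c k112 s11_170_112
  (.c k113 s11_170_113 (.c k114 s11_170_114 (.c k115 s11_170_115 (.c k116 s11_170_116 (.c k117
  s11_170_117 (.c k118 s11_170_118 (.c k119 s11_170_119 (.c k120 s11_170_120 (.c k121 s11_170_121
  (.c k122 s11_170_122 (.c k123 s11_170_123 (.c k124 s11_170_124 (.c k125 s11_170_125 (.c k126
  s11_170_126 (.c k127 s11_170_127 (.c k128 s11_170_128 (.c k129 s11_170_129 (.c k130 s11_170_130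
  (.c k131 s11_170_131 (.c k132 s11_170_132 (.c k133 s11_170_133 (.c k134 s11_170_134 (.c k135
  s11_170_135 (.c k136 s11_170_136 (.c k137 s11_170_137 (.c k138 s11_170_138 (.c k139 s11_170_139
  (.c k140 s11_170_140 (.c k141 s11_170_141 (.c k142 s11_170_142 (.c k143 s11_170_143 (.c k144
  s11_170_144 (.c k145 s11_170_145 (.c k146 s11_170_146 (.c k147 s11_170_147 (.c k148 s11_170_148
  (.c k149 s11_170_149 (.c k150 s11_170_150 (.c k151 s11_170_151 (.c k152 s11_170_152 (.c k153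
  s11_170_153 (.c k154 s11_170_154 (.c k155 s11_170_155 (.c k156 s11_170_156 (.c k157 s11_170_157
  (.c k158 s11_170_158 (.c k159 s11_170_159 (.c k160 s11_170_160 (.c k161 s11_170_161 (.c k162
  s11_170_162 (.c k163 s11_170_163 (.c k164 s11_170_164 (.c k165 s11_170_165 (.c k166 s11_170_166
  (.c k167 s11_170_167 (.c k168 s11_170_168 (.c k169 s11_170_169 (.c k171 s11_170_171 (.c k172
  s11_170_172 (.c k173 s11_170_173 (.c k174 s11_170_174 (.c k175 s11_170_175 (.c k176 s11_170_176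
  (.c k177 s11_170_177 (.c k178 s11_170_178 (.c k179 s11_170_179 (.c k180 s11_170_180 (.c k181
  s11_170_181 (.c k182 s11_170_182 (.c k183 s11_170_183 (.c k184 s11_170_184 (.c k185 s11_170_185
  (.c k186 s11_170_186 (.c k187 s11_170_187 (.c k188 s11_170_188 (.c k189 s11_170_189 (.c k190
  s11_170_190 (.c k191 s11_170_191 (.c k192 s11_170_192 (.c k193 s11_170_193 (.c k194 s11_170_194
  (.c k195 s11_170_195 (.c k196 s11_170_196 (.c k197 s11_170_197 (.c k198 s11_170_198 (.c k199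
  s11_170_199 (.c k200 s11_170_200 (.c k201 s11_170_201 (.c k202 s11_170_202 (.c k203 s11_170_203
  (.c k204 s11_170_204 (.c k205 s11_170_205 (.c k206 s11_170_206 (.c k207 s11_170_207 (.c k208
  s11_170_208 (.c k209 s11_170_209 (.c k210 s11_170_210 (.c k211 s11_170_211 (.c k212 s11_170_212
  (.c k213 s11_170_213 (.c k214 s11_170_214 (.c k215 s11_170_215 (.c k216 s11_170_216 (.c k217
  s11_170_217 (.c k218 s11_170_218 (.c k219 s11_170_219 (.c k220 s11_170_220 (.c k221 s11_170_221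
  (.c k222 s11_170_222 (.c k223 s11_170_223 (.c k224 s11_170_224 (.c k225 s11_170_225 (.c k226
  s11_170_226 (.c k227 s11_170_227 (.c k228 s11_170_228 (.c k229 s11_170_229 (.c k230 s11_170_230
  (.c k231 s11_170_231 (.c k232 s11_170_232 (.c k233 s11_170_233 (.c k234 s11_170_234 (.c k235
  s11_170_235 (.c k236 s11_170_236 (.c k237 s11_170_237 (.c k238 s11_170_238 (.c k239 s11_170_239
  (.c k240 s11_170_240 (.c k241 s11_170_241 (.c k242 s11_170_242 (.c k243 s11_170_243 (.c k244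
  s11_170_244 (.c k245 s11_170_245 (.c k246 s11_170_246 (.c k247 s11_170_247 (.c k248 s11_170_248
  (.c k249 s11_170_249 (.c k250 s11_170_250 (.c k251 s11_170_251 (.c k252 s11_170_252 (.c k253
  s11_170_253 (.c k254 s11_170_254 (.c k255 s11_170_255
  .n))))))))))))))))))))))))))))))))))))))))))))))))))))))))))))))))))))))))))))))))
  ))))))))))))))))))))))))))))))))))))))))))))))))))))))))))))))))))))))))))))))))
  )))))))))))))))))))))))))))))))))))))))))))))))))))))))))))))))))))))))))))))))) ))))))))))))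

def s11_255_1 : T TT 256 :=
  (.q k252 [(.s k84 k168 13 (.d k86 k87 k169 0 14))] (.c k84 (.q k16 [(.s k48 k32 3 (.s k154 k223 10
  (.s k169 k86 14 (.d k184 k139 k116 4 9)))), (.s k48 k32 3 (.s k18 k33 4 (.s k17 k19 0 (.s k153
  k221 9 (.s k169 k86 14 (.s k185 k137 3 (.d k51 k34 k118 4 10))))))), (.s k86 k169 14 (.s k154 k223
  10 (.s k222 k18 9 (.s k207 k237 4 (.s k69 k138 10 (.s k71 k139 9 (.d k101 k117 k116 3 4)))))))]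
  (.c k86 (.l (.s k48 k32 3 (.s k154 k223 10 (.s k184 k116 9 (.s k139 k169 4 (.d k207 k71 k101 9
  14)))))) (.c k169 (.l (.s k48 k32 3 (.s k18 k33 4 (.s k154 k223 10 (.s k222 k86 9 (.d k207 k237
  k101 4 14)))))) .n))) (.c k86 (.f k84 k168 13 (.q k68 [(.s k204 k136 9 (.s k220 k236 3 (.s k152
  k16 9 (.d k100 k116 k48 3 13)))), (.s k102 k119 4 (.s k204 k136 9 (.s k236 k220 3 (.s k35 k169 10
  (.d k51 k19 k153 3 14))))), (.s k100 k116 3 (.s k102 k119 4 (.s k101 k103 0 (.s k204 k136 9 (.s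
  k70 k137 10 (.d k69 k71 k117 0 3))))))] (.c k136 (.f k116 k100 3 (.l (.s k119 k102 4 (.s k118 k117
  0 (.s k51 k185 10 (.s k17 k34 4 (.s k19 k35 3 (.s k16 k18 0 (.d k48 k32 k184 3 9))))))))) (.c k152
  (.l (.s k102 k119 4 (.s k116 k100 3 (.s k184 k48 9 (.s k204 k136 9 (.s k236 k220 3 (.s k35 k169 10
  (.d k51 k19 k153 3 14)))))))) (.c k184 (.l (.s k100 k116 3 (.s k204 k136 9 (.s k152 k48 13 (.d
  k220 k236 k16 3 9))))) (.c k204 (.f k116 k100 3 (.l (.s k48 k184 9 (.s k18 k33 4 (.s k119 k102 4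
  (.s k118 k117 0 (.s k51 k185 10 (.s k17 k34 4 (.d k16 k32 k19 3 0))))))))) .n)))))) (.c k87 (.q k4
  [(.s k12 k8 1 (.s k169 k86 14 (.s k172 k92 11 (.d k166 k163 k247 2 12)))), (.s k84 k168 13 (.s k86
  k169 14 (.s k166 k247 12 (.s k6 k246 11 (.s k7 k5 0 (.d k244 k164 k165 11 12)))))), (.s k12 k8 1
  (.s k84 k168 13 (.s k92 k172 11 (.s k88 k80 1 (.d k164 k244 k240 11 13)))))] (.c k9 (.l (.s k166
  k247 12 (.s k169 k86 14 (.s k172 k163 2 (.d k12 k8 k92 1 11))))) .n)) (.c k168 (.q k16 [(.s k48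
  k32 3 (.s k154 k223 10 (.s k169 k86 14 (.d k184 k139 k116 4 9)))), (.s k86 k169 14 (.s k84 k87 0
  (.s k154 k223 10 (.s k18 k222 9 (.s k19 k17 0 (.d k220 k152 k153 9 10)))))), (.s k48 k32 3 (.s k18
  k33 4 (.s k86 k169 14 (.s k84 k87 0 (.s k220 k152 9 (.d k19 k17 k153 0 10))))))] (.c k86 (.l (.s
  k48 k32 3 (.s k154 k223 10 (.s k184 k116 9 (.s k139 k169 4 (.d k207 k71 k101 9 14)))))) (.c k169
  (.l (.s k48 k32 3 (.s k18 k33 4 (.s k154 k223 10 (.s k222 k86 9 (.d k207 k237 k101 4 14))))))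
  .n))) (.c k169 (.q k90 [(.s k80 k95 2 (.s k240 k160 11 (.s k82 k161 12 (.s k94 k86 1 (.d k15 k173
  k165 12 14))))), (.s k80 k95 2 (.s k84 k168 13 (.s k88 k92 1 (.s k240 k160 11 (.s k164 k12 13 (.d
  k244 k248 k4 1 11)))))), (.s k84 k168 13 (.s k86 k87 0 (.s k82 k94 1 (.s k240 k161 12 (.s k244
  k248 1 (.d k165 k7 k15 12 14))))))] (.c k15 (.l (.s k84 k168 13 (.s k86 k87 0 (.s k82 k94 1 (.s
  k240 k161 12 (.d k80 k95 k160 2 11)))))) (.c k94 (.l (.s k80 k95 2 (.s k84 k168 13 (.s k86 k87 0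
  (.s k240 k160 11 (.s k244 k248 1 (.d k165 k15 k7 14 12))))))) (.c k240 (.l (.s k80 k95 2 (.s k84
  k168 13 (.s k86 k87 0 (.s k82 k94 1 (.s k83 k81 0 (.d k92 k88 k89 1 2))))))) .n)))) .n))))))

def s11_255_2 : T TT 256 :=
  (.q k252 [(.s k84 k168 13 (.d k86 k87 k169 0 14))] (.c k84 (.q k16 [(.s k48 k32 3 (.s k154 k223 10
  (.s k169 k86 14 (.d k184 k139 k116 4 9)))), (.s k48 k32 3 (.s k18 k33 4 (.s k86 k169 14 (.d k154
  k222 k223 9 10)))), (.s k86 k169 14 (.s k154 k223 10 (.s k222 k18 9 (.s k207 k237 4 (.s k69 k138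
  10 (.s k71 k139 9 (.d k101 k117 k116 3 4))))))), (.s k48 k32 3 (.s k18 k33 4 (.s k17 k19 0 (.s
  k153 k221 9 (.s k169 k86 14 (.s k185 k137 3 (.d k51 k34 k118 4 10)))))))] (.c k86 (.l (.s k48 k32
  3 (.s k154 k223 10 (.s k184 k116 9 (.s k139 k169 4 (.d k207 k71 k101 9 14)))))) (.c k169 (.l (.s
  k48 k32 3 (.s k18 k33 4 (.s k154 k223 10 (.s k222 k86 9 (.d k207 k237 k101 4 14)))))) .n))) (.c
  k86 (.q k204 [(.s k68 k136 9 (.s k84 k168 13 (.s k220 k236 3 (.s k152 k16 9 (.d k100 k116 k48 3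
  13))))), (.s k68 k136 9 (.s k102 k119 4 (.s k236 k220 3 (.s k35 k169 10 (.d k51 k19 k153 3
  14))))), (.s k68 k136 9 (.s k70 k137 10 (.s k69 k71 0 (.s k84 k168 13 (.s k100 k116 3 (.s k101
  k117 3 (.d k102 k119 k103 4 0)))))))] (.c k68 (.f k220 k236 3 (.f k70 k137 10 (.q k200 [(.s k84
  k168 13 (.s k152 k16 9 (.s k104 k56 11 (.s k64 k124 5 (.d k192 k196 k128 1 7))))), (.s k192 k196 1
  (.s k64 k128 7 (.s k106 k127 6 (.s k153 k59 12 (.s k17 k221 9 (.d k51 k34 k102 4 14)))))), (.s k84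
  k168 13 (.s k152 k16 9 (.s k104 k56 11 (.s k192 k196 1 (.s k148 k60 13 (.d k212 k232 k20 5
  7)))))), (.s k84 k168 13 (.s k152 k16 9 (.s k100 k48 13 (.s k104 k56 11 (.s k124 k64 5 (.s k60
  k188 7 (.d k108 k96 k156 1 11)))))))] (.c k170 (.q k254 [(.s k84 k168 13 (.s k152 k16 9 (.s k104
  k56 11 (.s k64 k124 5 (.d k192 k196 k128 1 7))))), (.s k192 k196 1 (.s k64 k128 7 (.s k106 k127 6
  (.s k153 k59 12 (.s k17 k221 9 (.d k51 k34 k102 4 14)))))), (.s k84 k168 13 (.s k16 k152 9 (.s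
  k223 k154 10 (.s k222 k221 0 (.s k206 k238 3 (.d k207 k237 k205 4 0))))))] .n) (.c k254 (.q k170
  [(.s k192 k196 1 (.s k64 k128 7 (.s k106 k127 6 (.s k42 k234 7 (.d k63 k21 k149 6 14))))), (.s k84
  k168 13 (.s k16 k152 9 (.s k154 k223 10 (.s k138 k186 3 (.s k207 k69 10 (.d k48 k32 k101 3
  14))))))] .n) .n))))) (.c k136 (.f k168 k84 13 (.q k170 [(.s k137 k70 10 (.s k169 k171 0 (.s k153
  k185 3 (.s k17 k221 9 (.d k51 k102 k34 14 4))))), (.s k236 k220 3 (.s k32 k100 9 (.s k101 k239 10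
  (.s k69 k117 3 (.s k207 k138 10 (.d k48 k16 k154 3 14)))))), (.s k169 k171 0 (.s k236 k220 3 (.s
  k102 k35 10 (.s k34 k238 9 (.d k51 k153 k17 14 4)))))] (.c k153 (.l (.s k137 k70 10 (.s k169 k171
  0 (.s k1 k253 13 (.s k69 k205 9 (.s k101 k117 3 (.s k32 k239 10 (.d k236 k220 k100 3 9))))))))
  .n))) (.c k170 (.q k254 [(.s k136 k68 9 (.s k168 k84 13 (.s k152 k184 3 (.s k100 k48 13 (.d k236
  k220 k32 3 9))))), (.s k68 k136 9 (.s k102 k119 4 (.s k137 k70 10 (.s k236 k220 3 (.s k169 k35 10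
  (.d k153 k51 k185 14 3)))))), (.s k68 k136 9 (.s k70 k137 10 (.s k69 k71 0 (.s k84 k168 13 (.s
  k100 k116 3 (.s k101 k117 3 (.d k102 k119 k103 4 0)))))))] (.c k68 (.l (.s k84 k168 13 (.s k220
  k236 3 (.s k16 k152 9 (.s k223 k154 10 (.s k222 k221 0 (.s k206 k238 3 (.d k207 k237 k205 4
  0)))))))) (.c k136 (.q k153 [(.s k17 k221 9 (.d k51 k34 k102 4 14)), (.s k137 k70 10 (.s k185 k169
  3 (.d k51 k118 k102 10 14))), (.s k84 k168 13 (.s k220 k236 3 (.s k221 k17 9 (.s k223 k222 0 (.d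
  k16 k152 k154 9 10)))))] .n) .n))) (.c k254 (.q k170 [(.s k136 k68 9 (.s k153 k187 4 (.s k17 k221
  9 (.d k51 k34 k102 4 14)))), (.s k68 k136 9 (.s k84 k168 13 (.s k100 k116 3 (.s k152 k48 13 (.d
  k220 k236 k16 3 9))))), (.s k137 k70 10 (.s k168 k84 13 (.s k169 k171 0 (.s k153 k185 3 (.s k17
  k221 9 (.d k51 k102 k34 14 4))))))] .n) .n))))) (.c k87 (.q k4 [(.s k12 k8 1 (.s k169 k86 14 (.s
  k172 k92 11 (.d k166 k163 k247 2 12)))), (.s k84 k168 13 (.s k86 k169 14 (.s k166 k247 12 (.s k6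
  k246 11 (.s k7 k5 0 (.d k244 k164 k165 11 12)))))), (.s k12 k8 1 (.s k84 k168 13 (.s k92 k172 11
  (.s k88 k80 1 (.d k164 k244 k240 11 13)))))] .n) (.c k168 (.q k16 [(.s k48 k32 3 (.s k154 k223 10
  (.s k169 k86 14 (.d k184 k139 k116 4 9)))), (.s k86 k169 14 (.s k84 k87 0 (.s k154 k223 10 (.s k18
  k222 9 (.s k19 k17 0 (.d k220 k152 k153 9 10)))))), (.s k48 k32 3 (.s k18 k33 4 (.s k19 k17 0 (.s
  k86 k169 14 (.s k84 k87 0 (.d k220 k152 k153 9 10))))))] (.c k86 (.l (.s k48 k32 3 (.s k154 k223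
  10 (.s k184 k116 9 (.s k139 k169 4 (.d k207 k71 k101 9 14)))))) (.c k169 (.l (.s k48 k32 3 (.s k18
  k33 4 (.s k154 k223 10 (.s k222 k86 9 (.d k207 k237 k101 4 14)))))) (.c k170 (.l (.s k48 k32 3 (.s
  k18 k33 4 (.s k154 k223 10 (.d k86 k222 k169 9 14))))) .n)))) (.c k169 (.q k90 [(.s k84 k168 13
  (.s k86 k87 0 (.s k82 k94 1 (.s k240 k161 12 (.d k80 k95 k160 2 11))))), (.s k80 k95 2 (.s k84
  k168 13 (.s k88 k92 1 (.s k240 k160 11 (.s k164 k12 13 (.d k244 k248 k4 1 11)))))), (.s k80 k95 2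
  (.s k240 k160 11 (.s k82 k161 12 (.s k94 k86 1 (.d k15 k173 k165 12 14))))), (.s k84 k168 13 (.s
  k86 k87 0 (.s k82 k94 1 (.s k240 k161 12 (.s k244 k248 1 (.d k165 k7 k15 12 14))))))] (.c k94 (.l
  (.s k80 k95 2 (.s k84 k168 13 (.s k86 k87 0 (.s k240 k160 11 (.s k244 k248 1 (.d k165 k15 k7 14
  12))))))) (.c k170 (.l (.s k80 k95 2 (.s k240 k160 11 (.s k82 k161 12 (.s k86 k94 1 (.d k84 k87
  k168 0 13)))))) (.c k240 (.l (.s k80 k95 2 (.s k84 k168 13 (.s k86 k87 0 (.s k82 k94 1 (.s k83 k81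
  0 (.d k92 k88 k89 1 2))))))) .n)))) .n))))))

def s11_255_4 : T TT 256 :=
  (.q k17 [(.s k1 k2 0 (.s k33 k49 3 (.s k18 k48 4 (.s k19 k16 0 (.d k51 k35 k34 3 4))))), (.s k51
  k34 4 (.s k19 k35 3 (.s k153 k221 9 (.s k86 k220 10 (.s k84 k87 0 (.d k252 k168 k169 13 14)))))),
  (.s k1 k2 0 (.s k49 k33 3 (.s k153 k221 9 (.s k101 k205 13 (.s k117 k69 3 (.d k253 k185 k169 9
  13))))))] (.c k33 (.l (.s k1 k2 0 (.s k51 k34 4 (.s k35 k19 3 (.s k153 k221 9 (.s k169 k253 13 (.d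
  k102 k204 k236 14 10))))))) .n))

def s11_255_5 : T TT 256 :=
  (.q k17 [(.s k1 k2 0 (.s k33 k49 3 (.s k18 k48 4 (.s k19 k16 0 (.d k51 k35 k34 3 4))))), (.s k51
  k34 4 (.s k19 k35 3 (.s k153 k221 9 (.s k86 k220 10 (.s k84 k87 0 (.d k252 k168 k169 13 14)))))),
  (.s k1 k2 0 (.s k49 k33 3 (.s k153 k221 9 (.s k101 k205 13 (.s k117 k69 3 (.d k253 k185 k169 9
  13))))))] (.c k33 (.l (.s k1 k2 0 (.s k51 k34 4 (.s k35 k19 3 (.s k153 k221 9 (.s k169 k253 13 (.d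
  k102 k204 k236 14 10))))))) .n))

def s11_255_6 : T TT 256 :=
  (.q k17 [(.s k2 k1 0 (.s k34 k51 4 (.s k18 k50 3 (.s k16 k19 0 (.d k48 k32 k33 3 4))))), (.s k1 k2
  0 (.s k49 k33 3 (.s k153 k221 9 (.s k101 k205 13 (.s k117 k69 3 (.d k253 k185 k169 9 13)))))), (.s
  k51 k34 4 (.s k19 k35 3 (.s k153 k221 9 (.s k86 k220 10 (.s k84 k87 0 (.d k252 k168 k169 13
  14))))))] (.c k33 (.l (.s k1 k2 0 (.s k51 k34 4 (.s k35 k19 3 (.s k153 k221 9 (.s k169 k253 13 (.d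
  k102 k204 k236 14 10))))))) .n))

def s11_255_7 : T TT 256 :=
  (.q k17 [(.s k1 k2 0 (.s k33 k49 3 (.s k18 k48 4 (.s k19 k16 0 (.d k51 k35 k34 3 4))))), (.s k51
  k34 4 (.s k19 k35 3 (.s k153 k221 9 (.s k86 k220 10 (.s k84 k87 0 (.d k252 k168 k169 13 14)))))),
  (.s k1 k2 0 (.s k49 k33 3 (.s k153 k221 9 (.s k101 k205 13 (.s k117 k69 3 (.d k253 k185 k169 9
  13))))))] (.c k33 (.l (.s k1 k2 0 (.s k51 k34 4 (.s k35 k19 3 (.s k153 k221 9 (.s k169 k253 13 (.d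
  k102 k204 k236 14 10))))))) .n))

def s11_255_8 : T TT 256 :=
  (.f k1 k2 0 (.q k9 [(.s k13 k5 1 (.s k169 k253 13 (.s k89 k249 11 (.s k241 k165 13 (.d k81 k93
  k161 1 11))))), (.s k5 k13 1 (.s k6 k12 2 (.s k4 k7 0 (.s k166 k247 12 (.s k86 k246 11 (.s k252
  k169 14 (.d k84 k87 k168 0 13))))))), (.s k12 k6 2 (.s k169 k253 13 (.s k89 k249 11 (.s k243 k166
  14 (.d k81 k93 k162 1 12))))), (.s k5 k13 1 (.s k15 k10 2 (.s k165 k245 11 (.s k240 k90 14 (.s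
  k161 k82 12 (.d k169 k173 k253 1 13))))))] (.c k169 (.f k5 k13 1 (.f k6 k12 2 (.f k7 k4 0 (.l (.s
  k15 k10 2 (.s k165 k245 11 (.s k86 k244 12 (.s k84 k87 0 (.s k252 k168 13 (.s k94 k173 12 (.d k90
  k240 k82 14 1))))))))))) (.c k245 (.l (.s k13 k5 1 (.s k169 k253 13 (.s k89 k249 11 (.s k241 k165
  13 (.d k81 k93 k161 1 11)))))) .n))))

def s11_255_9 : T TT 256 :=
  (.f k1 k2 0 (.q k65 [(.s k129 k193 7 (.s k66 k192 8 (.s k67 k64 0 (.d k195 k131 k130 7 8)))), (.s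
  k105 k125 5 (.s k169 k253 13 (.s k41 k233 7 (.s k61 k21 5 (.d k193 k129 k149 7 13))))), (.s k105
  k125 5 (.s k169 k253 13 (.s k195 k130 8 (.s k60 k150 14 (.d k41 k22 k233 6 7)))))] (.c k8 (.q k10
  [(.s k129 k193 7 (.s k66 k192 8 (.s k67 k64 0 (.d k195 k131 k130 7 8)))), (.s k105 k125 5 (.s k169
  k253 13 (.s k41 k233 7 (.s k61 k21 5 (.d k193 k129 k149 7 13))))), (.s k105 k125 5 (.s k169 k253
  13 (.s k195 k130 8 (.s k60 k150 14 (.d k41 k22 k233 6 7)))))] .n) (.c k10 (.q k8 [(.s k129 k193 7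
  (.s k66 k192 8 (.s k67 k64 0 (.d k195 k131 k130 7 8)))), (.s k105 k125 5 (.s k169 k253 13 (.s k41
  k233 7 (.s k61 k21 5 (.d k193 k129 k149 7 13))))), (.s k12 k4 1 (.s k195 k130 8 (.s k73 k134 10
  (.s k69 k77 1 (.d k138 k203 k207 8 10)))))] (.c k6 (.q k14 [(.s k129 k193 7 (.s k66 k192 8 (.s k67
  k64 0 (.d k195 k131 k130 7 8)))), (.s k105 k125 5 (.s k169 k253 13 (.s k41 k233 7 (.s k61 k21 5
  (.d k193 k129 k149 7 13))))), (.s k12 k4 1 (.s k195 k130 8 (.s k73 k134 10 (.s k69 k77 1 (.d k138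
  k203 k207 8 10)))))] .n) (.c k14 (.q k6 [(.s k129 k193 7 (.s k66 k192 8 (.s k67 k64 0 (.d k195
  k131 k130 7 8)))), (.s k4 k12 1 (.s k166 k247 12 (.s k86 k246 11 (.d k169 k253 k252 13 14))))] .n)
  .n))) .n))))

def s11_255_10 : T TT 256 :=
  (.q k60 [(.s k1 k2 0 (.s k40 k20 5 (.s k41 k22 6 (.s k21 k61 5 (.d k42 k43 k63 0 6))))), (.s k1 k2
  0 (.s k20 k40 5 (.s k150 k215 8 (.s k169 k253 13 (.s k131 k188 6 (.d k195 k67 k105 7 14)))))), (.s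
  k20 k40 5 (.s k22 k41 6 (.s k150 k215 8 (.s k86 k214 7 (.s k84 k87 0 (.d k252 k168 k169 13
  14)))))), (.s k1 k2 0 (.s k41 k22 6 (.s k169 k253 13 (.s k105 k233 7 (.s k65 k125 5 (.d k195 k130
  k150 8 14))))))] (.c k8 (.q k9 [(.s k1 k2 0 (.s k40 k20 5 (.s k41 k22 6 (.s k21 k61 5 (.d k42 k43
  k63 0 6))))), (.s k1 k2 0 (.s k13 k5 1 (.s k169 k253 13 (.s k89 k249 11 (.s k81 k93 1 (.d k241
  k161 k165 11 13)))))), (.s k20 k40 5 (.s k22 k41 6 (.s k150 k215 8 (.s k86 k214 7 (.s k84 k87 0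
  (.d k252 k168 k169 13 14))))))] .n) (.c k9 (.q k8 [(.s k12 k4 1 (.s k40 k20 5 (.s k44 k28 3 (.s
  k36 k32 1 (.d k24 k56 k48 3 5))))), (.s k1 k2 0 (.s k41 k22 6 (.s k169 k253 13 (.s k105 k233 7 (.s
  k65 k125 5 (.d k195 k130 k150 8 14))))))] .n) .n)))

def s11_255_12 : T TT 256 :=
  (.f k1 k2 0 (.q k81 [(.s k161 k241 11 (.s k82 k240 12 (.s k83 k80 0 (.d k243 k163 k162 11 12)))),
  (.s k241 k161 11 (.s k253 k169 13 (.s k245 k249 1 (.s k165 k5 11 (.d k89 k93 k13 1 13))))), (.s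
  k169 k253 13 (.s k243 k162 12 (.s k252 k86 14 (.s k249 k246 2 (.d k89 k93 k9 1 11)))))] (.c k93
  (.q k174 [(.s k161 k241 11 (.s k82 k240 12 (.s k83 k80 0 (.d k243 k163 k162 11 12)))), (.s k162
  k243 12 (.s k169 k253 13 (.s k252 k86 14 (.s k168 k84 13 (.d k170 k166 k171 1 0)))))] (.c k162 (.l
  (.s k161 k241 11 (.s k82 k240 12 (.s k80 k83 0 (.s k90 k95 2 (.s k169 k253 13 (.d k86 k94 k252 1
  14))))))) (.c k243 (.l (.s k161 k241 11 (.s k169 k253 13 (.s k240 k82 12 (.s k80 k160 11 (.s k90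
  k95 2 (.d k165 k173 k15 1 14))))))) .n))) (.c k174 (.l (.s k93 k89 1 (.s k161 k241 11 (.s k82 k240
  12 (.s k83 k80 0 (.d k243 k163 k162 11 12)))))) .n))))

def s11_255_13 : T TT 256 :=
  (.q k17 [(.s k1 k2 0 (.s k51 k34 4 (.s k19 k35 3 (.s k18 k16 0 (.d k33 k49 k48 3 4))))), (.s k1 k2
  0 (.s k49 k33 3 (.s k153 k221 9 (.s k101 k205 13 (.s k117 k69 3 (.d k253 k185 k169 9 13)))))), (.s
  k51 k34 4 (.s k19 k35 3 (.s k153 k221 9 (.s k86 k220 10 (.s k84 k87 0 (.d k252 k168 k169 13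
  14))))))] (.c k33 (.l (.s k1 k2 0 (.s k51 k34 4 (.s k35 k19 3 (.s k153 k221 9 (.s k169 k253 13 (.d
  k102 k204 k236 14 10))))))) .n))

def s11_255_14 : T TT 256 :=
  (.q k17 [(.s k1 k2 0 (.s k33 k49 3 (.s k18 k48 4 (.s k19 k16 0 (.d k51 k35 k34 3 4))))), (.s k51
  k34 4 (.s k19 k35 3 (.s k153 k221 9 (.s k86 k220 10 (.s k84 k87 0 (.d k252 k168 k169 13 14)))))),
  (.s k1 k2 0 (.s k49 k33 3 (.s k153 k221 9 (.s k101 k205 13 (.s k117 k69 3 (.d k253 k185 k169 9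
  13))))))] (.c k33 (.l (.s k1 k2 0 (.s k51 k34 4 (.s k35 k19 3 (.s k153 k221 9 (.s k169 k253 13 (.d
  k102 k204 k236 14 10))))))) .n))

def s11_255_15 : T TT 256 :=
  (.f k1 k2 0 (.q k163 [(.s k169 k253 13 (.s k166 k172 2 (.s k4 k247 12 (.s k243 k83 11 (.d k12 k8
  k89 1 14))))), (.s k243 k83 11 (.s k81 k162 12 (.s k89 k93 1 (.s k12 k166 14 (.s k9 k6 2 (.s k13
  k5 1 (.d k241 k161 k165 11 13))))))), (.s k169 k253 13 (.s k172 k166 2 (.s k252 k86 14 (.s k168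
  k84 13 (.s k160 k164 1 (.s k161 k162 0 (.d k240 k82 k80 12 11))))))), (.s k169 k253 13 (.s k243
  k83 11 (.s k81 k162 12 (.s k89 k93 1 (.s k249 k9 11 (.d k252 k246 k86 2 14))))))] (.c k95 (.q k175
  [(.s k169 k253 13 (.s k252 k86 14 (.s k168 k84 13 (.d k171 k170 k167 0 1)))), (.s k167 k171 1 (.s
  k243 k83 11 (.s k81 k162 12 (.s k89 k93 1 (.s k241 k161 11 (.s k165 k13 13 (.d k166 k12 k164 14
  0))))))), (.s k169 k253 13 (.s k166 k172 2 (.s k4 k247 12 (.s k12 k8 1 (.d k243 k83 k89 11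
  14)))))] (.c k253 (.l (.s k171 k167 1 (.s k243 k83 11 (.s k162 k81 12 (.s k160 k161 0 (.s k170
  k165 2 (.s k166 k174 1 (.d k169 k168 k172 0 2)))))))) .n)) (.c k175 (.q k95 [(.s k243 k83 11 (.s
  k162 k81 12 (.s k160 k161 0 (.d k80 k90 k240 2 11)))), (.s k169 k253 13 (.s k166 k172 2 (.s k4
  k247 12 (.s k12 k8 1 (.d k243 k83 k89 11 14))))), (.s k80 k90 2 (.s k169 k253 13 (.s k172 k166 2
  (.s k252 k86 14 (.s k84 k168 13 (.d k92 k88 k12 1 11))))))] .n) .n))))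

def s11_255_16 : T TT 256 :=
  (.q k12 [(.s k2 k1 0 (.s k4 k8 1 (.s k6 k9 2 (.s k10 k14 1 (.d k5 k7 k15 0 2))))), (.s k1 k2 0 (.s
  k169 k253 13 (.s k252 k86 14 (.s k172 k92 11 (.s k166 k163 2 (.d k4 k8 k247 1 12)))))), (.s k4 k8
  1 (.s k166 k247 12 (.s k243 k89 14 (.s k163 k83 11 (.s k169 k172 2 (.s k86 k252 14 (.d k6 k9 k246
  2 11))))))), (.s k1 k2 0 (.s k9 k6 2 (.s k169 k253 13 (.s k89 k249 11 (.s k81 k93 1 (.d k243 k162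
  k166 12 14))))))] .n)

def s11_255_17 : T TT 256 :=
  (.q k12 [(.s k2 k1 0 (.s k4 k8 1 (.s k6 k9 2 (.s k10 k14 1 (.d k5 k7 k15 0 2))))), (.s k1 k2 0 (.s
  k169 k253 13 (.s k252 k86 14 (.s k172 k92 11 (.s k166 k163 2 (.d k4 k8 k247 1 12)))))), (.s k4 k8
  1 (.s k166 k247 12 (.s k243 k89 14 (.s k163 k83 11 (.s k169 k172 2 (.s k86 k252 14 (.d k6 k9 k246
  2 11))))))), (.s k1 k2 0 (.s k9 k6 2 (.s k169 k253 13 (.s k89 k249 11 (.s k81 k93 1 (.d k243 k162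
  k166 12 14))))))] .n)

def s11_255_18 : T TT 256 :=
  (.q k12 [(.s k2 k1 0 (.s k4 k8 1 (.s k6 k9 2 (.s k10 k14 1 (.d k5 k7 k15 0 2))))), (.s k1 k2 0 (.s
  k169 k253 13 (.s k252 k86 14 (.s k172 k92 11 (.s k166 k163 2 (.d k4 k8 k247 1 12)))))), (.s k4 k8
  1 (.s k166 k247 12 (.s k243 k89 14 (.s k163 k83 11 (.s k169 k172 2 (.s k86 k252 14 (.d k6 k9 k246
  2 11))))))), (.s k1 k2 0 (.s k9 k6 2 (.s k169 k253 13 (.s k89 k249 11 (.s k81 k93 1 (.d k243 k162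
  k166 12 14))))))] .n)

def s11_255_19 : T TT 256 :=
  (.q k12 [(.s k2 k1 0 (.s k4 k8 1 (.s k6 k9 2 (.s k10 k14 1 (.d k5 k7 k15 0 2))))), (.s k1 k2 0 (.s
  k169 k253 13 (.s k252 k86 14 (.s k172 k92 11 (.s k166 k163 2 (.d k4 k8 k247 1 12)))))), (.s k4 k8
  1 (.s k166 k247 12 (.s k243 k89 14 (.s k163 k83 11 (.s k169 k172 2 (.s k86 k252 14 (.d k6 k9 k246
  2 11))))))), (.s k1 k2 0 (.s k9 k6 2 (.s k169 k253 13 (.s k89 k249 11 (.s k81 k93 1 (.d k243 k162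
  k166 12 14))))))] .n)

def s11_255_20 : T TT 256 :=
  (.q k12 [(.s k2 k1 0 (.s k4 k8 1 (.s k6 k9 2 (.s k10 k14 1 (.d k5 k7 k15 0 2))))), (.s k1 k2 0 (.s
  k169 k253 13 (.s k252 k86 14 (.s k172 k92 11 (.s k166 k163 2 (.d k4 k8 k247 1 12)))))), (.s k4 k8
  1 (.s k166 k247 12 (.s k243 k89 14 (.s k163 k83 11 (.s k169 k172 2 (.s k86 k252 14 (.d k6 k9 k246
  2 11))))))), (.s k1 k2 0 (.s k9 k6 2 (.s k169 k253 13 (.s k89 k249 11 (.s k81 k93 1 (.d k243 k162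
  k166 12 14))))))] .n)

def s11_255_21 : T TT 256 :=
  (.q k12 [(.s k2 k1 0 (.s k4 k8 1 (.s k6 k9 2 (.s k10 k14 1 (.d k5 k7 k15 0 2))))), (.s k1 k2 0 (.s
  k169 k253 13 (.s k252 k86 14 (.s k172 k92 11 (.s k166 k163 2 (.d k4 k8 k247 1 12)))))), (.s k4 k8
  1 (.s k166 k247 12 (.s k243 k89 14 (.s k163 k83 11 (.s k169 k172 2 (.s k86 k252 14 (.d k6 k9 k246
  2 11))))))), (.s k1 k2 0 (.s k9 k6 2 (.s k169 k253 13 (.s k89 k249 11 (.s k81 k93 1 (.d k243 k162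
  k166 12 14))))))] .n)

def s11_255_22 : T TT 256 :=
  (.q k12 [(.s k2 k1 0 (.s k4 k8 1 (.s k6 k9 2 (.s k10 k14 1 (.d k5 k7 k15 0 2))))), (.s k1 k2 0 (.s
  k169 k253 13 (.s k252 k86 14 (.s k172 k92 11 (.s k166 k163 2 (.d k4 k8 k247 1 12)))))), (.s k4 k8
  1 (.s k166 k247 12 (.s k243 k89 14 (.s k163 k83 11 (.s k169 k172 2 (.s k86 k252 14 (.d k6 k9 k246
  2 11))))))), (.s k1 k2 0 (.s k9 k6 2 (.s k169 k253 13 (.s k89 k249 11 (.s k81 k93 1 (.d k243 k162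
  k166 12 14))))))] .n)

def s11_255_23 : T TT 256 :=
  (.q k12 [(.s k2 k1 0 (.s k4 k8 1 (.s k6 k9 2 (.s k10 k14 1 (.d k5 k7 k15 0 2))))), (.s k1 k2 0 (.s
  k169 k253 13 (.s k252 k86 14 (.s k172 k92 11 (.s k166 k163 2 (.d k4 k8 k247 1 12)))))), (.s k4 k8
  1 (.s k166 k247 12 (.s k243 k89 14 (.s k163 k83 11 (.s k169 k172 2 (.s k86 k252 14 (.d k6 k9 k246
  2 11))))))), (.s k1 k2 0 (.s k9 k6 2 (.s k169 k253 13 (.s k89 k249 11 (.s k81 k93 1 (.d k243 k162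
  k166 12 14))))))] .n)

def s11_255_24 : T TT 256 :=
  (.q k12 [(.s k2 k1 0 (.s k4 k8 1 (.s k6 k9 2 (.s k10 k14 1 (.d k5 k7 k15 0 2))))), (.s k1 k2 0 (.s
  k169 k253 13 (.s k252 k86 14 (.s k172 k92 11 (.s k166 k163 2 (.d k4 k8 k247 1 12)))))), (.s k4 k8
  1 (.s k166 k247 12 (.s k243 k89 14 (.s k163 k83 11 (.s k169 k172 2 (.s k86 k252 14 (.d k6 k9 k246
  2 11))))))), (.s k1 k2 0 (.s k9 k6 2 (.s k169 k253 13 (.s k89 k249 11 (.s k81 k93 1 (.d k243 k162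
  k166 12 14))))))] .n)

def s11_255_25 : T TT 256 :=
  (.q k12 [(.s k2 k1 0 (.s k4 k8 1 (.s k6 k9 2 (.s k10 k14 1 (.d k5 k7 k15 0 2))))), (.s k1 k2 0 (.s
  k169 k253 13 (.s k252 k86 14 (.s k172 k92 11 (.s k166 k163 2 (.d k4 k8 k247 1 12)))))), (.s k4 k8
  1 (.s k166 k247 12 (.s k243 k89 14 (.s k163 k83 11 (.s k169 k172 2 (.s k86 k252 14 (.d k6 k9 k246
  2 11))))))), (.s k1 k2 0 (.s k9 k6 2 (.s k169 k253 13 (.s k89 k249 11 (.s k81 k93 1 (.d k243 k162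
  k166 12 14))))))] .n)

def s11_255_26 : T TT 256 :=
  (.q k60 [(.s k41 k22 6 (.s k1 k2 0 (.s k21 k61 5 (.s k40 k20 5 (.d k42 k43 k63 0 6))))), (.s k20
  k40 5 (.s k150 k215 8 (.s k195 k105 14 (.s k131 k67 7 (.s k169 k188 6 (.s k86 k252 14 (.d k22 k41
  k214 6 7))))))), (.s k1 k2 0 (.s k41 k22 6 (.s k169 k253 13 (.s k105 k233 7 (.s k65 k125 5 (.d
  k195 k130 k150 8 14))))))] (.c k22 (.l (.s k1 k2 0 (.s k20 k40 5 (.s k150 k215 8 (.s k169 k253 13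
  (.s k131 k188 6 (.d k195 k67 k105 7 14))))))) (.c k41 (.q k56 [(.s k40 k20 5 (.s k24 k8 3 (.s k48
  k52 1 (.s k32 k16 3 (.d k36 k44 k12 1 5))))), (.s k1 k2 0 (.s k20 k40 5 (.s k150 k215 8 (.s k169
  k253 13 (.s k131 k188 6 (.d k195 k67 k105 7 14)))))), (.s k1 k2 0 (.s k48 k52 1 (.s k32 k16 3 (.s
  k33 k18 4 (.s k17 k49 3 (.d k34 k35 k51 0 4))))))] .n) (.c k56 (.l (.s k41 k22 6 (.s k1 k2 0 (.s
  k21 k61 5 (.s k40 k20 5 (.d k42 k43 k63 0 6)))))) .n))))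

def s11_255_27 : T TT 256 :=
  (.q k63 [(.s k1 k2 0 (.s k21 k42 6 (.s k41 k61 5 (.s k22 k60 6 (.d k23 k43 k20 5 0))))), (.s k21
  k42 6 (.s k149 k213 7 (.s k192 k106 14 (.s k129 k66 8 (.s k169 k189 5 (.s k86 k252 14 (.d k23 k43
  k212 5 8))))))), (.s k1 k2 0 (.s k43 k23 5 (.s k169 k253 13 (.s k106 k232 8 (.s k64 k127 6 (.d
  k192 k128 k149 7 14))))))] (.c k23 (.l (.s k1 k2 0 (.s k21 k42 6 (.s k149 k213 7 (.s k169 k253 13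
  (.s k129 k189 5 (.d k192 k66 k106 8 14))))))) (.c k43 (.q k59 [(.s k42 k21 6 (.s k51 k55 1 (.s k34
  k17 4 (.s k38 k46 1 (.d k25 k8 k12 4 6))))), (.s k1 k2 0 (.s k21 k42 6 (.s k149 k213 7 (.s k169
  k253 13 (.s k129 k189 5 (.d k192 k66 k106 8 14)))))), (.s k1 k2 0 (.s k51 k55 1 (.s k17 k34 4 (.s
  k19 k35 3 (.s k18 k16 0 (.d k33 k49 k48 3 4))))))] .n) (.c k59 (.l (.s k43 k23 5 (.s k2 k1 0 (.s
  k42 k21 6 (.s k22 k62 5 (.d k41 k40 k60 0 6)))))) .n))))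

def s11_255_28 : T TT 256 :=
  (.q k12 [(.s k2 k1 0 (.s k4 k8 1 (.s k6 k9 2 (.s k10 k14 1 (.d k5 k7 k15 0 2))))), (.s k1 k2 0 (.s
  k169 k253 13 (.s k252 k86 14 (.s k172 k92 11 (.s k166 k163 2 (.d k4 k8 k247 1 12)))))), (.s k4 k8
  1 (.s k166 k247 12 (.s k243 k89 14 (.s k163 k83 11 (.s k169 k172 2 (.s k86 k252 14 (.d k6 k9 k246
  2 11))))))), (.s k1 k2 0 (.s k9 k6 2 (.s k169 k253 13 (.s k89 k249 11 (.s k81 k93 1 (.d k243 k162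
  k166 12 14))))))] .n)

def s11_255_29 : T TT 256 :=
  (.q k12 [(.s k2 k1 0 (.s k4 k8 1 (.s k6 k9 2 (.s k10 k14 1 (.d k5 k7 k15 0 2))))), (.s k1 k2 0 (.s
  k169 k253 13 (.s k252 k86 14 (.s k172 k92 11 (.s k166 k163 2 (.d k4 k8 k247 1 12)))))), (.s k4 k8
  1 (.s k166 k247 12 (.s k243 k89 14 (.s k163 k83 11 (.s k169 k172 2 (.s k86 k252 14 (.d k6 k9 k246
  2 11))))))), (.s k1 k2 0 (.s k9 k6 2 (.s k169 k253 13 (.s k89 k249 11 (.s k81 k93 1 (.d k243 k162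
  k166 12 14))))))] .n)

def s11_255_30 : T TT 256 :=
  (.q k12 [(.s k2 k1 0 (.s k4 k8 1 (.s k6 k9 2 (.s k10 k14 1 (.d k5 k7 k15 0 2))))), (.s k1 k2 0 (.s
  k169 k253 13 (.s k252 k86 14 (.s k172 k92 11 (.s k166 k163 2 (.d k4 k8 k247 1 12)))))), (.s k4 k8
  1 (.s k166 k247 12 (.s k243 k89 14 (.s k163 k83 11 (.s k169 k172 2 (.s k86 k252 14 (.d k6 k9 k246
  2 11))))))), (.s k1 k2 0 (.s k9 k6 2 (.s k169 k253 13 (.s k89 k249 11 (.s k81 k93 1 (.d k243 k162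
  k166 12 14))))))] .n)

def s11_255_31 : T TT 256 :=
  (.q k12 [(.s k2 k1 0 (.s k4 k8 1 (.s k6 k9 2 (.s k10 k14 1 (.d k5 k7 k15 0 2))))), (.s k1 k2 0 (.s
  k169 k253 13 (.s k252 k86 14 (.s k172 k92 11 (.s k166 k163 2 (.d k4 k8 k247 1 12)))))), (.s k4 k8
  1 (.s k166 k247 12 (.s k243 k89 14 (.s k163 k83 11 (.s k169 k172 2 (.s k86 k252 14 (.d k6 k9 k246
  2 11))))))), (.s k1 k2 0 (.s k9 k6 2 (.s k169 k253 13 (.s k89 k249 11 (.s k81 k93 1 (.d k243 k162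
  k166 12 14))))))] .n)

def s11_255_32 : T TT 256 :=
  (.q k12 [(.s k2 k1 0 (.s k4 k8 1 (.s k6 k9 2 (.s k10 k14 1 (.d k5 k7 k15 0 2))))), (.s k1 k2 0 (.s
  k169 k253 13 (.s k252 k86 14 (.s k172 k92 11 (.s k166 k163 2 (.d k4 k8 k247 1 12)))))), (.s k4 k8
  1 (.s k166 k247 12 (.s k243 k89 14 (.s k163 k83 11 (.s k169 k172 2 (.s k86 k252 14 (.d k6 k9 k246
  2 11))))))), (.s k1 k2 0 (.s k9 k6 2 (.s k169 k253 13 (.s k89 k249 11 (.s k81 k93 1 (.d k243 k162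
  k166 12 14))))))] .n)

def s11_255_33 : T TT 256 :=
  (.q k12 [(.s k2 k1 0 (.s k4 k8 1 (.s k6 k9 2 (.s k10 k14 1 (.d k5 k7 k15 0 2))))), (.s k1 k2 0 (.s
  k169 k253 13 (.s k252 k86 14 (.s k172 k92 11 (.s k166 k163 2 (.d k4 k8 k247 1 12)))))), (.s k4 k8
  1 (.s k166 k247 12 (.s k243 k89 14 (.s k163 k83 11 (.s k169 k172 2 (.s k86 k252 14 (.d k6 k9 k246
  2 11))))))), (.s k1 k2 0 (.s k9 k6 2 (.s k169 k253 13 (.s k89 k249 11 (.s k81 k93 1 (.d k243 k162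
  k166 12 14))))))] .n)

def s11_255_34 : T TT 256 :=
  (.q k12 [(.s k2 k1 0 (.s k4 k8 1 (.s k6 k9 2 (.s k10 k14 1 (.d k5 k7 k15 0 2))))), (.s k1 k2 0 (.s
  k169 k253 13 (.s k252 k86 14 (.s k172 k92 11 (.s k166 k163 2 (.d k4 k8 k247 1 12)))))), (.s k4 k8
  1 (.s k166 k247 12 (.s k243 k89 14 (.s k163 k83 11 (.s k169 k172 2 (.s k86 k252 14 (.d k6 k9 k246
  2 11))))))), (.s k1 k2 0 (.s k9 k6 2 (.s k169 k253 13 (.s k89 k249 11 (.s k81 k93 1 (.d k243 k162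
  k166 12 14))))))] .n)

def s11_255_35 : T TT 256 :=
  (.q k12 [(.s k2 k1 0 (.s k4 k8 1 (.s k6 k9 2 (.s k10 k14 1 (.d k5 k7 k15 0 2))))), (.s k1 k2 0 (.s
  k169 k253 13 (.s k252 k86 14 (.s k172 k92 11 (.s k166 k163 2 (.d k4 k8 k247 1 12)))))), (.s k4 k8
  1 (.s k166 k247 12 (.s k243 k89 14 (.s k163 k83 11 (.s k169 k172 2 (.s k86 k252 14 (.d k6 k9 k246
  2 11))))))), (.s k1 k2 0 (.s k9 k6 2 (.s k169 k253 13 (.s k89 k249 11 (.s k81 k93 1 (.d k243 k162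
  k166 12 14))))))] .n)

def s11_255_36 : T TT 256 :=
  (.q k12 [(.s k2 k1 0 (.s k4 k8 1 (.s k6 k9 2 (.s k10 k14 1 (.d k5 k7 k15 0 2))))), (.s k1 k2 0 (.s
  k169 k253 13 (.s k252 k86 14 (.s k172 k92 11 (.s k166 k163 2 (.d k4 k8 k247 1 12)))))), (.s k4 k8
  1 (.s k166 k247 12 (.s k243 k89 14 (.s k163 k83 11 (.s k169 k172 2 (.s k86 k252 14 (.d k6 k9 k246
  2 11))))))), (.s k1 k2 0 (.s k9 k6 2 (.s k169 k253 13 (.s k89 k249 11 (.s k81 k93 1 (.d k243 k162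
  k166 12 14))))))] .n)

def s11_255_37 : T TT 256 :=
  (.q k12 [(.s k2 k1 0 (.s k4 k8 1 (.s k6 k9 2 (.s k10 k14 1 (.d k5 k7 k15 0 2))))), (.s k1 k2 0 (.s
  k169 k253 13 (.s k252 k86 14 (.s k172 k92 11 (.s k166 k163 2 (.d k4 k8 k247 1 12)))))), (.s k4 k8
  1 (.s k166 k247 12 (.s k243 k89 14 (.s k163 k83 11 (.s k169 k172 2 (.s k86 k252 14 (.d k6 k9 k246
  2 11))))))), (.s k1 k2 0 (.s k9 k6 2 (.s k169 k253 13 (.s k89 k249 11 (.s k81 k93 1 (.d k243 k162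
  k166 12 14))))))] .n)

def s11_255_38 : T TT 256 :=
  (.q k12 [(.s k2 k1 0 (.s k4 k8 1 (.s k6 k9 2 (.s k10 k14 1 (.d k5 k7 k15 0 2))))), (.s k1 k2 0 (.s
  k169 k253 13 (.s k252 k86 14 (.s k172 k92 11 (.s k166 k163 2 (.d k4 k8 k247 1 12)))))), (.s k4 k8
  1 (.s k166 k247 12 (.s k243 k89 14 (.s k163 k83 11 (.s k169 k172 2 (.s k86 k252 14 (.d k6 k9 k246
  2 11))))))), (.s k1 k2 0 (.s k9 k6 2 (.s k169 k253 13 (.s k89 k249 11 (.s k81 k93 1 (.d k243 k162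
  k166 12 14))))))] .n)

def s11_255_39 : T TT 256 :=
  (.q k12 [(.s k2 k1 0 (.s k4 k8 1 (.s k6 k9 2 (.s k10 k14 1 (.d k5 k7 k15 0 2))))), (.s k1 k2 0 (.s
  k169 k253 13 (.s k252 k86 14 (.s k172 k92 11 (.s k166 k163 2 (.d k4 k8 k247 1 12)))))), (.s k4 k8
  1 (.s k166 k247 12 (.s k243 k89 14 (.s k163 k83 11 (.s k169 k172 2 (.s k86 k252 14 (.d k6 k9 k246
  2 11))))))), (.s k1 k2 0 (.s k9 k6 2 (.s k169 k253 13 (.s k89 k249 11 (.s k81 k93 1 (.d k243 k162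
  k166 12 14))))))] .n)

def s11_255_40 : T TT 256 :=
  (.q k12 [(.s k2 k1 0 (.s k4 k8 1 (.s k6 k9 2 (.s k10 k14 1 (.d k5 k7 k15 0 2))))), (.s k1 k2 0 (.s
  k169 k253 13 (.s k252 k86 14 (.s k172 k92 11 (.s k166 k163 2 (.d k4 k8 k247 1 12)))))), (.s k4 k8
  1 (.s k166 k247 12 (.s k243 k89 14 (.s k163 k83 11 (.s k169 k172 2 (.s k86 k252 14 (.d k6 k9 k246
  2 11))))))), (.s k1 k2 0 (.s k9 k6 2 (.s k169 k253 13 (.s k89 k249 11 (.s k81 k93 1 (.d k243 k162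
  k166 12 14))))))] .n)

def s11_255_41 : T TT 256 :=
  (.f k1 k2 0 (.q k69 [(.s k137 k205 9 (.s k70 k204 10 (.s k71 k68 0 (.d k207 k139 k138 9 10)))),
  (.s k101 k117 3 (.s k169 k253 13 (.s k33 k237 9 (.s k49 k17 3 (.d k205 k137 k153 9 13))))), (.s
  k101 k117 3 (.s k169 k253 13 (.s k207 k138 10 (.s k48 k154 14 (.d k33 k18 k237 4 9)))))] (.c k26
  (.q k56 [(.s k137 k205 9 (.s k70 k204 10 (.s k71 k68 0 (.d k207 k139 k138 9 10)))), (.s k101 k117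
  3 (.s k169 k253 13 (.s k33 k237 9 (.s k49 k17 3 (.d k205 k137 k153 9 13))))), (.s k101 k117 3 (.s
  k169 k253 13 (.s k207 k138 10 (.s k48 k154 14 (.d k33 k18 k237 4 9)))))] .n) (.c k56 (.q k26 [(.s
  k137 k205 9 (.s k70 k204 10 (.s k71 k68 0 (.d k207 k139 k138 9 10)))), (.s k101 k117 3 (.s k169
  k253 13 (.s k33 k237 9 (.s k49 k17 3 (.d k205 k137 k153 9 13))))), (.s k101 k117 3 (.s k169 k253
  13 (.s k207 k138 10 (.s k48 k154 14 (.d k33 k18 k237 4 9)))))] .n) .n))))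

def s11_255_42 : T TT 256 :=
  (.q k12 [(.s k2 k1 0 (.s k4 k8 1 (.s k6 k9 2 (.s k10 k14 1 (.d k5 k7 k15 0 2))))), (.s k1 k2 0 (.s
  k169 k253 13 (.s k252 k86 14 (.s k172 k92 11 (.s k166 k163 2 (.d k4 k8 k247 1 12)))))), (.s k4 k8
  1 (.s k166 k247 12 (.s k243 k89 14 (.s k163 k83 11 (.s k169 k172 2 (.s k86 k252 14 (.d k6 k9 k246
  2 11))))))), (.s k1 k2 0 (.s k9 k6 2 (.s k169 k253 13 (.s k89 k249 11 (.s k81 k93 1 (.d k243 k162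
  k166 12 14))))))] .n)

def s11_255_43 : T TT 256 :=
  (.f k1 k2 0 (.q k69 [(.s k137 k205 9 (.s k70 k204 10 (.s k71 k68 0 (.d k207 k139 k138 9 10)))),
  (.s k101 k117 3 (.s k169 k253 13 (.s k33 k237 9 (.s k49 k17 3 (.d k205 k137 k153 9 13))))), (.s
  k101 k117 3 (.s k169 k253 13 (.s k207 k138 10 (.s k48 k154 14 (.d k33 k18 k237 4 9)))))] (.c k27
  (.q k59 [(.s k137 k205 9 (.s k70 k204 10 (.s k71 k68 0 (.d k207 k139 k138 9 10)))), (.s k101 k117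
  3 (.s k169 k253 13 (.s k33 k237 9 (.s k49 k17 3 (.d k205 k137 k153 9 13))))), (.s k101 k117 3 (.s
  k169 k253 13 (.s k207 k138 10 (.s k48 k154 14 (.d k33 k18 k237 4 9)))))] .n) (.c k59 (.q k27 [(.s
  k137 k205 9 (.s k70 k204 10 (.s k71 k68 0 (.d k207 k139 k138 9 10)))), (.s k101 k117 3 (.s k169
  k253 13 (.s k33 k237 9 (.s k49 k17 3 (.d k205 k137 k153 9 13))))), (.s k101 k117 3 (.s k169 k253
  13 (.s k207 k138 10 (.s k48 k154 14 (.d k33 k18 k237 4 9)))))] .n) .n))))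

def s11_255_44 : T TT 256 :=
  (.q k12 [(.s k2 k1 0 (.s k4 k8 1 (.s k6 k9 2 (.s k10 k14 1 (.d k5 k7 k15 0 2))))), (.s k1 k2 0 (.s
  k169 k253 13 (.s k252 k86 14 (.s k172 k92 11 (.s k166 k163 2 (.d k4 k8 k247 1 12)))))), (.s k4 k8
  1 (.s k166 k247 12 (.s k243 k89 14 (.s k163 k83 11 (.s k169 k172 2 (.s k86 k252 14 (.d k6 k9 k246
  2 11))))))), (.s k1 k2 0 (.s k9 k6 2 (.s k169 k253 13 (.s k89 k249 11 (.s k81 k93 1 (.d k243 k162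
  k166 12 14))))))] .n)

def s11_255_45 : T TT 256 :=
  (.q k12 [(.s k2 k1 0 (.s k4 k8 1 (.s k6 k9 2 (.s k10 k14 1 (.d k5 k7 k15 0 2))))), (.s k1 k2 0 (.s
  k169 k253 13 (.s k252 k86 14 (.s k172 k92 11 (.s k166 k163 2 (.d k4 k8 k247 1 12)))))), (.s k4 k8
  1 (.s k166 k247 12 (.s k243 k89 14 (.s k163 k83 11 (.s k169 k172 2 (.s k86 k252 14 (.d k6 k9 k246
  2 11))))))), (.s k1 k2 0 (.s k9 k6 2 (.s k169 k253 13 (.s k89 k249 11 (.s k81 k93 1 (.d k243 k162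
  k166 12 14))))))] .n)

def s11_255_46 : T TT 256 :=
  (.q k12 [(.s k2 k1 0 (.s k4 k8 1 (.s k6 k9 2 (.s k10 k14 1 (.d k5 k7 k15 0 2))))), (.s k1 k2 0 (.s
  k169 k253 13 (.s k252 k86 14 (.s k172 k92 11 (.s k166 k163 2 (.d k4 k8 k247 1 12)))))), (.s k4 k8
  1 (.s k166 k247 12 (.s k243 k89 14 (.s k163 k83 11 (.s k169 k172 2 (.s k86 k252 14 (.d k6 k9 k246
  2 11))))))), (.s k1 k2 0 (.s k9 k6 2 (.s k169 k253 13 (.s k89 k249 11 (.s k81 k93 1 (.d k243 k162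
  k166 12 14))))))] .n)

def s11_255_47 : T TT 256 :=
  (.q k12 [(.s k2 k1 0 (.s k4 k8 1 (.s k6 k9 2 (.s k10 k14 1 (.d k5 k7 k15 0 2))))), (.s k1 k2 0 (.s
  k169 k253 13 (.s k252 k86 14 (.s k172 k92 11 (.s k166 k163 2 (.d k4 k8 k247 1 12)))))), (.s k4 k8
  1 (.s k166 k247 12 (.s k243 k89 14 (.s k163 k83 11 (.s k169 k172 2 (.s k86 k252 14 (.d k6 k9 k246
  2 11))))))), (.s k1 k2 0 (.s k9 k6 2 (.s k169 k253 13 (.s k89 k249 11 (.s k81 k93 1 (.d k243 k162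
  k166 12 14))))))] .n)

def s11_255_48 : T TT 256 :=
  (.f k1 k2 0 (.q k69 [(.s k137 k205 9 (.s k70 k204 10 (.s k71 k68 0 (.d k207 k139 k138 9 10)))),
  (.s k205 k137 9 (.s k253 k169 13 (.s k221 k237 3 (.s k153 k17 9 (.d k101 k117 k49 3 13))))), (.s
  k169 k253 13 (.s k207 k138 10 (.s k252 k86 14 (.s k237 k222 4 (.d k101 k117 k33 3 9)))))] (.c k117
  (.q k186 [(.s k137 k205 9 (.s k70 k204 10 (.s k71 k68 0 (.d k207 k139 k138 9 10)))), (.s k138 k207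
  10 (.s k169 k253 13 (.s k252 k86 14 (.s k168 k84 13 (.d k170 k154 k171 3 0)))))] (.c k138 (.l (.s
  k137 k205 9 (.s k70 k204 10 (.s k68 k71 0 (.s k102 k119 4 (.s k169 k253 13 (.d k86 k118 k252 3
  14))))))) (.c k207 (.l (.s k137 k205 9 (.s k169 k253 13 (.s k204 k70 10 (.s k68 k136 9 (.s k102
  k119 4 (.d k153 k185 k51 3 14))))))) .n))) (.c k186 (.l (.s k117 k101 3 (.s k137 k205 9 (.s k70
  k204 10 (.s k71 k68 0 (.d k207 k139 k138 9 10)))))) .n))))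

def s11_255_49 : T TT 256 :=
  (.q k12 [(.s k2 k1 0 (.s k4 k8 1 (.s k6 k9 2 (.s k10 k14 1 (.d k5 k7 k15 0 2))))), (.s k1 k2 0 (.s
  k169 k253 13 (.s k252 k86 14 (.s k172 k92 11 (.s k166 k163 2 (.d k4 k8 k247 1 12)))))), (.s k4 k8
  1 (.s k166 k247 12 (.s k243 k89 14 (.s k163 k83 11 (.s k169 k172 2 (.s k86 k252 14 (.d k6 k9 k246
  2 11))))))), (.s k1 k2 0 (.s k9 k6 2 (.s k169 k253 13 (.s k89 k249 11 (.s k81 k93 1 (.d k243 k162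
  k166 12 14))))))] .n)

def s11_255_50 : T TT 256 :=
  (.q k12 [(.s k2 k1 0 (.s k4 k8 1 (.s k6 k9 2 (.s k10 k14 1 (.d k5 k7 k15 0 2))))), (.s k1 k2 0 (.s
  k169 k253 13 (.s k252 k86 14 (.s k172 k92 11 (.s k166 k163 2 (.d k4 k8 k247 1 12)))))), (.s k4 k8
  1 (.s k166 k247 12 (.s k243 k89 14 (.s k163 k83 11 (.s k169 k172 2 (.s k86 k252 14 (.d k6 k9 k246
  2 11))))))), (.s k1 k2 0 (.s k9 k6 2 (.s k169 k253 13 (.s k89 k249 11 (.s k81 k93 1 (.d k243 k162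
  k166 12 14))))))] .n)

def s11_255_51 : T TT 256 :=
  (.f k1 k2 0 (.q k69 [(.s k137 k205 9 (.s k70 k204 10 (.s k71 k68 0 (.d k207 k139 k138 9 10)))),
  (.s k101 k117 3 (.s k169 k253 13 (.s k33 k237 9 (.s k48 k18 4 (.d k207 k138 k154 10 14))))), (.s
  k101 k117 3 (.s k169 k253 13 (.s k33 k237 9 (.s k49 k17 3 (.d k205 k137 k153 9 13))))), (.s k101
  k117 3 (.s k169 k253 13 (.s k207 k138 10 (.s k48 k154 14 (.d k33 k18 k237 4 9)))))] (.c k119 (.q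
  k187 [(.s k137 k205 9 (.s k70 k204 10 (.s k71 k68 0 (.d k207 k139 k138 9 10)))), (.s k101 k117 3
  (.s k169 k253 13 (.s k33 k237 9 (.s k48 k18 4 (.d k207 k138 k154 10 14))))), (.s k101 k117 3 (.s
  k169 k253 13 (.s k33 k237 9 (.s k49 k17 3 (.d k205 k137 k153 9 13))))), (.s k101 k117 3 (.s k169
  k253 13 (.s k207 k138 10 (.s k48 k154 14 (.d k33 k18 k237 4 9)))))] .n) (.c k187 (.q k119 [(.s k68
  k102 4 (.s k70 k71 0 (.d k137 k204 k205 10 9))), (.s k101 k117 3 (.s k169 k253 13 (.s k33 k237 9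
  (.s k48 k18 4 (.d k207 k138 k154 10 14)))))] (.c k205 (.l (.s k68 k102 4 (.s k70 k71 0 (.d k204
  k136 k137 9 10)))) .n)) .n))))

def s11_255_52 : T TT 256 :=
  (.q k12 [(.s k2 k1 0 (.s k4 k8 1 (.s k6 k9 2 (.s k10 k14 1 (.d k5 k7 k15 0 2))))), (.s k1 k2 0 (.s
  k169 k253 13 (.s k252 k86 14 (.s k172 k92 11 (.s k166 k163 2 (.d k4 k8 k247 1 12)))))), (.s k4 k8
  1 (.s k166 k247 12 (.s k243 k89 14 (.s k163 k83 11 (.s k169 k172 2 (.s k86 k252 14 (.d k6 k9 k246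
  2 11))))))), (.s k1 k2 0 (.s k9 k6 2 (.s k169 k253 13 (.s k89 k249 11 (.s k81 k93 1 (.d k243 k162
  k166 12 14))))))] .n)

def s11_255_53 : T TT 256 :=
  (.q k12 [(.s k2 k1 0 (.s k4 k8 1 (.s k6 k9 2 (.s k10 k14 1 (.d k5 k7 k15 0 2))))), (.s k1 k2 0 (.s
  k169 k253 13 (.s k252 k86 14 (.s k172 k92 11 (.s k166 k163 2 (.d k4 k8 k247 1 12)))))), (.s k4 k8
  1 (.s k166 k247 12 (.s k243 k89 14 (.s k163 k83 11 (.s k169 k172 2 (.s k86 k252 14 (.d k6 k9 k246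
  2 11))))))), (.s k1 k2 0 (.s k9 k6 2 (.s k169 k253 13 (.s k89 k249 11 (.s k81 k93 1 (.d k243 k162
  k166 12 14))))))] .n)

def s11_255_54 : T TT 256 :=
  (.q k12 [(.s k2 k1 0 (.s k4 k8 1 (.s k6 k9 2 (.s k10 k14 1 (.d k5 k7 k15 0 2))))), (.s k1 k2 0 (.s
  k169 k253 13 (.s k252 k86 14 (.s k172 k92 11 (.s k166 k163 2 (.d k4 k8 k247 1 12)))))), (.s k4 k8
  1 (.s k166 k247 12 (.s k243 k89 14 (.s k163 k83 11 (.s k169 k172 2 (.s k86 k252 14 (.d k6 k9 k246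
  2 11))))))), (.s k1 k2 0 (.s k9 k6 2 (.s k169 k253 13 (.s k89 k249 11 (.s k81 k93 1 (.d k243 k162
  k166 12 14))))))] .n)

def s11_255_55 : T TT 256 :=
  (.q k12 [(.s k2 k1 0 (.s k4 k8 1 (.s k6 k9 2 (.s k10 k14 1 (.d k5 k7 k15 0 2))))), (.s k1 k2 0 (.s
  k169 k253 13 (.s k252 k86 14 (.s k172 k92 11 (.s k166 k163 2 (.d k4 k8 k247 1 12)))))), (.s k4 k8
  1 (.s k166 k247 12 (.s k243 k89 14 (.s k163 k83 11 (.s k169 k172 2 (.s k86 k252 14 (.d k6 k9 k246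
  2 11))))))), (.s k1 k2 0 (.s k9 k6 2 (.s k169 k253 13 (.s k89 k249 11 (.s k81 k93 1 (.d k243 k162
  k166 12 14))))))] .n)

def s11_255_56 : T TT 256 :=
  (.f k1 k2 0 (.q k41 [(.s k21 k61 5 (.s k22 k60 6 (.s k23 k20 0 (.d k63 k43 k42 5 6)))), (.s k61
  k21 5 (.s k169 k253 13 (.s k105 k233 7 (.s k193 k149 13 (.d k65 k125 k129 5 7))))), (.s k60 k22 6
  (.s k20 k40 5 (.s k150 k215 8 (.s k169 k253 13 (.d k105 k195 k233 14 7)))))] .n))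

def s11_255_57 : T TT 256 :=
  (.q k12 [(.s k2 k1 0 (.s k4 k8 1 (.s k6 k9 2 (.s k10 k14 1 (.d k5 k7 k15 0 2))))), (.s k1 k2 0 (.s
  k169 k253 13 (.s k252 k86 14 (.s k172 k92 11 (.s k166 k163 2 (.d k4 k8 k247 1 12)))))), (.s k4 k8
  1 (.s k166 k247 12 (.s k243 k89 14 (.s k163 k83 11 (.s k169 k172 2 (.s k86 k252 14 (.d k6 k9 k246
  2 11))))))), (.s k1 k2 0 (.s k9 k6 2 (.s k169 k253 13 (.s k89 k249 11 (.s k81 k93 1 (.d k243 k162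
  k166 12 14))))))] .n)

def s11_255_58 : T TT 256 :=
  (.q k12 [(.s k2 k1 0 (.s k4 k8 1 (.s k6 k9 2 (.s k10 k14 1 (.d k5 k7 k15 0 2))))), (.s k1 k2 0 (.s
  k169 k253 13 (.s k252 k86 14 (.s k172 k92 11 (.s k166 k163 2 (.d k4 k8 k247 1 12)))))), (.s k4 k8
  1 (.s k166 k247 12 (.s k243 k89 14 (.s k163 k83 11 (.s k169 k172 2 (.s k86 k252 14 (.d k6 k9 k246
  2 11))))))), (.s k1 k2 0 (.s k9 k6 2 (.s k169 k253 13 (.s k89 k249 11 (.s k81 k93 1 (.d k243 k162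
  k166 12 14))))))] .n)

def s11_255_59 : T TT 256 :=
  (.f k1 k2 0 (.q k43 [(.s k63 k23 5 (.s k169 k253 13 (.s k106 k232 8 (.s k64 k127 6 (.d k192 k128
  k149 7 14))))), (.s k63 k23 5 (.s k21 k42 6 (.s k61 k41 5 (.s k149 k213 7 (.s k192 k106 14 (.s
  k129 k66 8 (.d k193 k65 k105 7 13))))))), (.s k169 k253 13 (.s k232 k106 8 (.s k252 k86 14 (.s
  k168 k84 13 (.s k40 k104 7 (.s k41 k42 0 (.d k60 k22 k20 6 5)))))))] (.c k106 (.l (.s k63 k23 5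
  (.s k21 k42 6 (.s k149 k213 7 (.s k169 k253 13 (.s k189 k129 5 (.d k252 k126 k86 8 14))))))) .n)))

def s11_255_60 : T TT 256 :=
  (.f k1 k2 0 (.q k65 [(.s k129 k193 7 (.s k66 k192 8 (.s k67 k64 0 (.d k195 k131 k130 7 8)))), (.s
  k193 k129 7 (.s k253 k169 13 (.s k213 k233 5 (.s k149 k21 7 (.d k105 k125 k61 5 13))))), (.s k169
  k253 13 (.s k195 k130 8 (.s k252 k86 14 (.s k233 k214 6 (.d k105 k125 k41 5 7)))))] (.c k125 (.q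
  k190 [(.s k129 k193 7 (.s k66 k192 8 (.s k67 k64 0 (.d k195 k131 k130 7 8)))), (.s k130 k195 8 (.s
  k169 k253 13 (.s k252 k86 14 (.s k168 k84 13 (.d k170 k150 k171 5 0)))))] (.c k130 (.l (.s k129
  k193 7 (.s k66 k192 8 (.s k64 k67 0 (.s k106 k127 6 (.s k169 k253 13 (.d k86 k126 k252 5 14)))))))
  (.c k195 (.l (.s k129 k193 7 (.s k169 k253 13 (.s k192 k66 8 (.s k64 k128 7 (.s k106 k127 6 (.d
  k149 k189 k63 5 14))))))) .n))) (.c k190 (.l (.s k125 k105 5 (.s k129 k193 7 (.s k66 k192 8 (.s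
  k67 k64 0 (.d k195 k131 k130 7 8)))))) .n))))

def s11_255_61 : T TT 256 :=
  (.q k12 [(.s k2 k1 0 (.s k4 k8 1 (.s k6 k9 2 (.s k10 k14 1 (.d k5 k7 k15 0 2))))), (.s k1 k2 0 (.s
  k169 k253 13 (.s k252 k86 14 (.s k172 k92 11 (.s k166 k163 2 (.d k4 k8 k247 1 12)))))), (.s k4 k8
  1 (.s k166 k247 12 (.s k243 k89 14 (.s k163 k83 11 (.s k169 k172 2 (.s k86 k252 14 (.d k6 k9 k246
  2 11))))))), (.s k1 k2 0 (.s k9 k6 2 (.s k169 k253 13 (.s k89 k249 11 (.s k81 k93 1 (.d k243 k162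
  k166 12 14))))))] .n)

def s11_255_62 : T TT 256 :=
  (.q k12 [(.s k2 k1 0 (.s k4 k8 1 (.s k6 k9 2 (.s k10 k14 1 (.d k5 k7 k15 0 2))))), (.s k1 k2 0 (.s
  k169 k253 13 (.s k252 k86 14 (.s k172 k92 11 (.s k166 k163 2 (.d k4 k8 k247 1 12)))))), (.s k4 k8
  1 (.s k166 k247 12 (.s k243 k89 14 (.s k163 k83 11 (.s k169 k172 2 (.s k86 k252 14 (.d k6 k9 k246
  2 11))))))), (.s k1 k2 0 (.s k9 k6 2 (.s k169 k253 13 (.s k89 k249 11 (.s k81 k93 1 (.d k243 k162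
  k166 12 14))))))] .n)

def s11_255_63 : T TT 256 :=
  (.f k1 k2 0 (.q k69 [(.s k137 k205 9 (.s k70 k204 10 (.s k71 k68 0 (.d k207 k139 k138 9 10)))),
  (.s k101 k117 3 (.s k169 k253 13 (.s k33 k237 9 (.s k49 k17 3 (.d k205 k137 k153 9 13))))), (.s
  k101 k117 3 (.s k169 k253 13 (.s k207 k138 10 (.s k48 k154 14 (.d k33 k18 k237 4 9)))))] (.c k127
  (.q k191 [(.s k137 k205 9 (.s k70 k204 10 (.s k71 k68 0 (.d k207 k139 k138 9 10)))), (.s k101 k117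
  3 (.s k169 k253 13 (.s k33 k237 9 (.s k49 k17 3 (.d k205 k137 k153 9 13))))), (.s k101 k117 3 (.s
  k169 k253 13 (.s k207 k138 10 (.s k48 k154 14 (.d k33 k18 k237 4 9)))))] .n) (.c k191 (.q k127
  [(.s k137 k205 9 (.s k70 k204 10 (.s k71 k68 0 (.d k207 k139 k138 9 10)))), (.s k64 k106 6 (.s k79
  k74 2 (.s k101 k117 3 (.s k90 k112 6 (.d k95 k80 k111 2 3)))))] (.c k137 (.l (.s k101 k117 3 (.s
  k169 k253 13 (.s k33 k237 9 (.s k48 k18 4 (.d k207 k138 k154 10 14)))))) .n)) .n))))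

def s11_255_64 : T TT 256 :=
  (.q k12 [(.s k2 k1 0 (.s k4 k8 1 (.s k6 k9 2 (.s k10 k14 1 (.d k5 k7 k15 0 2))))), (.s k1 k2 0 (.s
  k169 k253 13 (.s k252 k86 14 (.s k172 k92 11 (.s k166 k163 2 (.d k4 k8 k247 1 12)))))), (.s k4 k8
  1 (.s k166 k247 12 (.s k243 k89 14 (.s k163 k83 11 (.s k169 k172 2 (.s k86 k252 14 (.d k6 k9 k246
  2 11))))))), (.s k1 k2 0 (.s k9 k6 2 (.s k169 k253 13 (.s k89 k249 11 (.s k81 k93 1 (.d k243 k162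
  k166 12 14))))))] .n)

def s11_255_65 : T TT 256 :=
  (.q k12 [(.s k2 k1 0 (.s k4 k8 1 (.s k6 k9 2 (.s k10 k14 1 (.d k5 k7 k15 0 2))))), (.s k1 k2 0 (.s
  k169 k253 13 (.s k252 k86 14 (.s k172 k92 11 (.s k166 k163 2 (.d k4 k8 k247 1 12)))))), (.s k4 k8
  1 (.s k166 k247 12 (.s k243 k89 14 (.s k163 k83 11 (.s k169 k172 2 (.s k86 k252 14 (.d k6 k9 k246
  2 11))))))), (.s k1 k2 0 (.s k9 k6 2 (.s k169 k253 13 (.s k89 k249 11 (.s k81 k93 1 (.d k243 k162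
  k166 12 14))))))] .n)

def s11_255_66 : T TT 256 :=
  (.q k12 [(.s k2 k1 0 (.s k4 k8 1 (.s k6 k9 2 (.s k10 k14 1 (.d k5 k7 k15 0 2))))), (.s k1 k2 0 (.s
  k169 k253 13 (.s k252 k86 14 (.s k172 k92 11 (.s k166 k163 2 (.d k4 k8 k247 1 12)))))), (.s k4 k8
  1 (.s k166 k247 12 (.s k243 k89 14 (.s k163 k83 11 (.s k169 k172 2 (.s k86 k252 14 (.d k6 k9 k246
  2 11))))))), (.s k1 k2 0 (.s k9 k6 2 (.s k169 k253 13 (.s k89 k249 11 (.s k81 k93 1 (.d k243 k162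
  k166 12 14))))))] .n)

def s11_255_67 : T TT 256 :=
  (.q k12 [(.s k2 k1 0 (.s k4 k8 1 (.s k6 k9 2 (.s k10 k14 1 (.d k5 k7 k15 0 2))))), (.s k1 k2 0 (.s
  k169 k253 13 (.s k252 k86 14 (.s k172 k92 11 (.s k166 k163 2 (.d k4 k8 k247 1 12)))))), (.s k4 k8
  1 (.s k166 k247 12 (.s k243 k89 14 (.s k163 k83 11 (.s k169 k172 2 (.s k86 k252 14 (.d k6 k9 k246
  2 11))))))), (.s k1 k2 0 (.s k9 k6 2 (.s k169 k253 13 (.s k89 k249 11 (.s k81 k93 1 (.d k243 k162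
  k166 12 14))))))] .n)

def s11_255_68 : T TT 256 :=
  (.q k12 [(.s k2 k1 0 (.s k4 k8 1 (.s k6 k9 2 (.s k10 k14 1 (.d k5 k7 k15 0 2))))), (.s k1 k2 0 (.s
  k169 k253 13 (.s k252 k86 14 (.s k172 k92 11 (.s k166 k163 2 (.d k4 k8 k247 1 12)))))), (.s k4 k8
  1 (.s k166 k247 12 (.s k243 k89 14 (.s k163 k83 11 (.s k169 k172 2 (.s k86 k252 14 (.d k6 k9 k246
  2 11))))))), (.s k1 k2 0 (.s k9 k6 2 (.s k169 k253 13 (.s k89 k249 11 (.s k81 k93 1 (.d k243 k162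
  k166 12 14))))))] .n)

def s11_255_69 : T TT 256 :=
  (.q k12 [(.s k2 k1 0 (.s k4 k8 1 (.s k6 k9 2 (.s k10 k14 1 (.d k5 k7 k15 0 2))))), (.s k1 k2 0 (.s
  k169 k253 13 (.s k252 k86 14 (.s k172 k92 11 (.s k166 k163 2 (.d k4 k8 k247 1 12)))))), (.s k4 k8
  1 (.s k166 k247 12 (.s k243 k89 14 (.s k163 k83 11 (.s k169 k172 2 (.s k86 k252 14 (.d k6 k9 k246
  2 11))))))), (.s k1 k2 0 (.s k9 k6 2 (.s k169 k253 13 (.s k89 k249 11 (.s k81 k93 1 (.d k243 k162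
  k166 12 14))))))] .n)

def s11_255_70 : T TT 256 :=
  (.q k12 [(.s k2 k1 0 (.s k4 k8 1 (.s k6 k9 2 (.s k10 k14 1 (.d k5 k7 k15 0 2))))), (.s k1 k2 0 (.s
  k169 k253 13 (.s k252 k86 14 (.s k172 k92 11 (.s k166 k163 2 (.d k4 k8 k247 1 12)))))), (.s k4 k8
  1 (.s k166 k247 12 (.s k243 k89 14 (.s k163 k83 11 (.s k169 k172 2 (.s k86 k252 14 (.d k6 k9 k246
  2 11))))))), (.s k1 k2 0 (.s k9 k6 2 (.s k169 k253 13 (.s k89 k249 11 (.s k81 k93 1 (.d k243 k162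
  k166 12 14))))))] .n)

def s11_255_71 : T TT 256 :=
  (.q k12 [(.s k2 k1 0 (.s k4 k8 1 (.s k6 k9 2 (.s k10 k14 1 (.d k5 k7 k15 0 2))))), (.s k1 k2 0 (.s
  k169 k253 13 (.s k252 k86 14 (.s k172 k92 11 (.s k166 k163 2 (.d k4 k8 k247 1 12)))))), (.s k4 k8
  1 (.s k166 k247 12 (.s k243 k89 14 (.s k163 k83 11 (.s k169 k172 2 (.s k86 k252 14 (.d k6 k9 k246
  2 11))))))), (.s k1 k2 0 (.s k9 k6 2 (.s k169 k253 13 (.s k89 k249 11 (.s k81 k93 1 (.d k243 k162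
  k166 12 14))))))] .n)

def s11_255_72 : T TT 256 :=
  (.q k12 [(.s k2 k1 0 (.s k4 k8 1 (.s k6 k9 2 (.s k10 k14 1 (.d k5 k7 k15 0 2))))), (.s k1 k2 0 (.s
  k169 k253 13 (.s k252 k86 14 (.s k172 k92 11 (.s k166 k163 2 (.d k4 k8 k247 1 12)))))), (.s k4 k8
  1 (.s k166 k247 12 (.s k243 k89 14 (.s k163 k83 11 (.s k169 k172 2 (.s k86 k252 14 (.d k6 k9 k246
  2 11))))))), (.s k1 k2 0 (.s k9 k6 2 (.s k169 k253 13 (.s k89 k249 11 (.s k81 k93 1 (.d k243 k162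
  k166 12 14))))))] .n)

def s11_255_73 : T TT 256 :=
  (.q k12 [(.s k2 k1 0 (.s k4 k8 1 (.s k6 k9 2 (.s k10 k14 1 (.d k5 k7 k15 0 2))))), (.s k1 k2 0 (.s
  k169 k253 13 (.s k252 k86 14 (.s k172 k92 11 (.s k166 k163 2 (.d k4 k8 k247 1 12)))))), (.s k4 k8
  1 (.s k166 k247 12 (.s k243 k89 14 (.s k163 k83 11 (.s k169 k172 2 (.s k86 k252 14 (.d k6 k9 k246
  2 11))))))), (.s k1 k2 0 (.s k9 k6 2 (.s k169 k253 13 (.s k89 k249 11 (.s k81 k93 1 (.d k243 k162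
  k166 12 14))))))] .n)

def s11_255_74 : T TT 256 :=
  (.f k1 k2 0 (.q k137 [(.s k69 k205 9 (.s k70 k204 10 (.s k71 k68 0 (.d k207 k139 k138 9 10)))),
  (.s k169 k253 13 (.s k153 k185 3 (.s k205 k69 9 (.s k49 k101 13 (.d k17 k33 k221 3 9))))), (.s
  k169 k253 13 (.s k153 k185 3 (.s k204 k70 10 (.s k51 k102 14 (.d k17 k34 k221 4 9)))))] (.c k221
  (.l (.s k69 k205 9 (.s k138 k207 10 (.s k136 k139 0 (.d k204 k68 k70 9 10))))) .n)))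

def s11_255_75 : T TT 256 :=
  (.q k207 [(.s k1 k2 0 (.s k69 k138 10 (.s k137 k205 9 (.s k70 k204 10 (.d k71 k139 k68 9 0))))),
  (.s k69 k138 10 (.s k101 k117 3 (.s k48 k154 14 (.s k33 k18 4 (.s k169 k237 9 (.s k86 k252 14 (.d
  k71 k139 k116 9 4))))))), (.s k1 k2 0 (.s k139 k71 9 (.s k169 k253 13 (.s k154 k184 4 (.s k16 k223
  10 (.d k48 k32 k101 3 14))))))] (.c k71 (.l (.s k1 k2 0 (.s k69 k138 10 (.s k101 k117 3 (.s k48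
  k154 14 (.s k33 k18 4 (.d k169 k237 k253 9 13))))))) (.c k139 (.q k203 [(.s k138 k69 10 (.s k195
  k199 1 (.s k130 k65 8 (.s k134 k142 1 (.d k73 k8 k12 8 10))))), (.s k1 k2 0 (.s k69 k138 10 (.s
  k101 k117 3 (.s k48 k154 14 (.s k33 k18 4 (.d k169 k237 k253 9 13)))))), (.s k1 k2 0 (.s k195 k199
  1 (.s k65 k130 8 (.s k67 k131 7 (.s k66 k64 0 (.d k129 k193 k192 7 8))))))] .n) (.c k203 (.l (.s
  k139 k71 9 (.s k2 k1 0 (.s k138 k69 10 (.s k70 k206 9 (.d k137 k136 k204 0 10)))))) .n))))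

def s11_255_76 : T TT 256 :=
  (.q k12 [(.s k2 k1 0 (.s k4 k8 1 (.s k6 k9 2 (.s k10 k14 1 (.d k5 k7 k15 0 2))))), (.s k1 k2 0 (.s
  k169 k253 13 (.s k252 k86 14 (.s k172 k92 11 (.s k166 k163 2 (.d k4 k8 k247 1 12)))))), (.s k4 k8
  1 (.s k166 k247 12 (.s k243 k89 14 (.s k163 k83 11 (.s k169 k172 2 (.s k86 k252 14 (.d k6 k9 k246
  2 11))))))), (.s k1 k2 0 (.s k9 k6 2 (.s k169 k253 13 (.s k89 k249 11 (.s k81 k93 1 (.d k243 k162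
  k166 12 14))))))] .n)

def s11_255_77 : T TT 256 :=
  (.q k12 [(.s k2 k1 0 (.s k4 k8 1 (.s k6 k9 2 (.s k10 k14 1 (.d k5 k7 k15 0 2))))), (.s k1 k2 0 (.s
  k169 k253 13 (.s k252 k86 14 (.s k172 k92 11 (.s k166 k163 2 (.d k4 k8 k247 1 12)))))), (.s k4 k8
  1 (.s k166 k247 12 (.s k243 k89 14 (.s k163 k83 11 (.s k169 k172 2 (.s k86 k252 14 (.d k6 k9 k246
  2 11))))))), (.s k1 k2 0 (.s k9 k6 2 (.s k169 k253 13 (.s k89 k249 11 (.s k81 k93 1 (.d k243 k162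
  k166 12 14))))))] .n)

def s11_255_78 : T TT 256 :=
  (.q k12 [(.s k2 k1 0 (.s k4 k8 1 (.s k6 k9 2 (.s k10 k14 1 (.d k5 k7 k15 0 2))))), (.s k1 k2 0 (.s
  k169 k253 13 (.s k252 k86 14 (.s k172 k92 11 (.s k166 k163 2 (.d k4 k8 k247 1 12)))))), (.s k4 k8
  1 (.s k166 k247 12 (.s k243 k89 14 (.s k163 k83 11 (.s k169 k172 2 (.s k86 k252 14 (.d k6 k9 k246
  2 11))))))), (.s k1 k2 0 (.s k9 k6 2 (.s k169 k253 13 (.s k89 k249 11 (.s k81 k93 1 (.d k243 k162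
  k166 12 14))))))] .n)

def s11_255_79 : T TT 256 :=
  (.q k12 [(.s k2 k1 0 (.s k4 k8 1 (.s k6 k9 2 (.s k10 k14 1 (.d k5 k7 k15 0 2))))), (.s k1 k2 0 (.s
  k169 k253 13 (.s k252 k86 14 (.s k172 k92 11 (.s k166 k163 2 (.d k4 k8 k247 1 12)))))), (.s k4 k8
  1 (.s k166 k247 12 (.s k243 k89 14 (.s k163 k83 11 (.s k169 k172 2 (.s k86 k252 14 (.d k6 k9 k246
  2 11))))))), (.s k1 k2 0 (.s k9 k6 2 (.s k169 k253 13 (.s k89 k249 11 (.s k81 k93 1 (.d k243 k162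
  k166 12 14))))))] .n)

def s11_255_80 : T TT 256 :=
  (.q k12 [(.s k2 k1 0 (.s k4 k8 1 (.s k6 k9 2 (.s k10 k14 1 (.d k5 k7 k15 0 2))))), (.s k1 k2 0 (.s
  k169 k253 13 (.s k252 k86 14 (.s k172 k92 11 (.s k166 k163 2 (.d k4 k8 k247 1 12)))))), (.s k4 k8
  1 (.s k166 k247 12 (.s k243 k89 14 (.s k163 k83 11 (.s k169 k172 2 (.s k86 k252 14 (.d k6 k9 k246
  2 11))))))), (.s k1 k2 0 (.s k9 k6 2 (.s k169 k253 13 (.s k89 k249 11 (.s k81 k93 1 (.d k243 k162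
  k166 12 14))))))] .n)

def s11_255_81 : T TT 256 :=
  (.q k12 [(.s k2 k1 0 (.s k4 k8 1 (.s k6 k9 2 (.s k10 k14 1 (.d k5 k7 k15 0 2))))), (.s k1 k2 0 (.s
  k169 k253 13 (.s k252 k86 14 (.s k172 k92 11 (.s k166 k163 2 (.d k4 k8 k247 1 12)))))), (.s k4 k8
  1 (.s k166 k247 12 (.s k243 k89 14 (.s k163 k83 11 (.s k169 k172 2 (.s k86 k252 14 (.d k6 k9 k246
  2 11))))))), (.s k1 k2 0 (.s k9 k6 2 (.s k169 k253 13 (.s k89 k249 11 (.s k166 k243 14 (.s k172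
  k163 2 (.d k252 k92 k86 11 14)))))))] .n)

def s11_255_82 : T TT 256 :=
  (.q k12 [(.s k2 k1 0 (.s k4 k8 1 (.s k6 k9 2 (.s k10 k14 1 (.d k5 k7 k15 0 2))))), (.s k1 k2 0 (.s
  k169 k253 13 (.s k252 k86 14 (.s k172 k92 11 (.s k166 k163 2 (.d k4 k8 k247 1 12)))))), (.s k4 k8
  1 (.s k166 k247 12 (.s k243 k89 14 (.s k163 k83 11 (.s k169 k172 2 (.s k86 k252 14 (.d k6 k9 k246
  2 11))))))), (.s k1 k2 0 (.s k9 k6 2 (.s k169 k253 13 (.s k89 k249 11 (.s k81 k93 1 (.d k243 k162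
  k166 12 14))))))] .n)

def s11_255_83 : T TT 256 :=
  (.q k17 [(.s k1 k2 0 (.s k33 k49 3 (.s k18 k48 4 (.s k19 k16 0 (.d k51 k35 k34 3 4))))), (.s k51
  k34 4 (.s k19 k35 3 (.s k153 k221 9 (.s k86 k220 10 (.s k84 k87 0 (.d k252 k168 k169 13 14)))))),
  (.s k1 k2 0 (.s k49 k33 3 (.s k153 k221 9 (.s k101 k205 13 (.s k117 k69 3 (.d k253 k185 k169 9
  13))))))] (.c k33 (.l (.s k1 k2 0 (.s k51 k34 4 (.s k35 k19 3 (.s k153 k221 9 (.s k169 k253 13 (.d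
  k102 k204 k236 14 10))))))) .n))

def s11_255_84 : T TT 256 :=
  (.q k12 [(.s k2 k1 0 (.s k4 k8 1 (.s k6 k9 2 (.s k10 k14 1 (.d k5 k7 k15 0 2))))), (.s k1 k2 0 (.s
  k169 k253 13 (.s k252 k86 14 (.s k172 k92 11 (.s k166 k163 2 (.d k4 k8 k247 1 12)))))), (.s k4 k8
  1 (.s k166 k247 12 (.s k243 k89 14 (.s k163 k83 11 (.s k169 k172 2 (.s k86 k252 14 (.d k6 k9 k246
  2 11))))))), (.s k1 k2 0 (.s k9 k6 2 (.s k169 k253 13 (.s k89 k249 11 (.s k81 k93 1 (.d k243 k162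
  k166 12 14))))))] .n)

def s11_255_86 : T TT 256 :=
  (.f k2 k1 0 (.q k21 [(.s k42 k63 6 (.s k22 k62 5 (.s k20 k23 0 (.d k60 k40 k41 5 6)))), (.s k63
  k42 6 (.s k149 k213 7 (.s k192 k106 14 (.s k64 k128 7 (.s k66 k129 8 (.s k65 k67 0 (.d k130 k194
  k195 7 8)))))))] (.c k42 (.q k4 [(.s k12 k8 1 (.s k6 k9 2 (.s k10 k14 1 (.d k5 k7 k15 0 2)))), (.s
  k55 k38 4 (.s k149 k213 7 (.s k102 k196 12 (.s k119 k68 4 (.d k247 k183 k166 7 12)))))] .n) (.c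
  k63 (.q k5 [(.s k10 k15 2 (.s k6 k14 1 (.s k12 k9 2 (.d k4 k7 k8 0 1)))), (.s k53 k37 3 (.s k149
  k213 7 (.s k101 k197 11 (.s k117 k69 3 (.d k245 k181 k165 7 11)))))] (.c k127 (.q k191 [(.s k10
  k15 2 (.s k6 k14 1 (.s k12 k9 2 (.d k4 k7 k8 0 1)))), (.s k53 k37 3 (.s k149 k213 7 (.s k101 k197
  11 (.s k117 k69 3 (.d k245 k181 k165 7 11)))))] .n) (.c k191 (.q k127 [(.s k10 k15 2 (.s k6 k14 1
  (.s k12 k9 2 (.d k4 k7 k8 0 1)))), (.s k53 k37 3 (.s k149 k213 7 (.s k101 k197 11 (.s k117 k69 3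
  (.d k245 k181 k165 7 11)))))] .n) .n))) (.c k149 (.l (.s k42 k63 6 (.s k22 k62 5 (.s k60 k41 6 (.d
  k20 k23 k40 0 5))))) .n)))))

def s11_255_87 : T TT 256 :=
  (.q k12 [(.s k2 k1 0 (.s k4 k8 1 (.s k6 k9 2 (.s k10 k14 1 (.d k5 k7 k15 0 2))))), (.s k1 k2 0 (.s
  k169 k253 13 (.s k252 k86 14 (.s k172 k92 11 (.s k166 k163 2 (.d k4 k8 k247 1 12)))))), (.s k4 k8
  1 (.s k166 k247 12 (.s k243 k89 14 (.s k163 k83 11 (.s k169 k172 2 (.s k86 k252 14 (.d k6 k9 k246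
  2 11))))))), (.s k1 k2 0 (.s k9 k6 2 (.s k169 k253 13 (.s k89 k249 11 (.s k81 k93 1 (.d k243 k162
  k166 12 14))))))] .n)

def s11_255_88 : T TT 256 :=
  (.q k12 [(.s k2 k1 0 (.s k4 k8 1 (.s k6 k9 2 (.s k10 k14 1 (.d k5 k7 k15 0 2))))), (.s k1 k2 0 (.s
  k169 k253 13 (.s k252 k86 14 (.s k172 k92 11 (.s k166 k163 2 (.d k4 k8 k247 1 12)))))), (.s k4 k8
  1 (.s k166 k247 12 (.s k243 k89 14 (.s k163 k83 11 (.s k169 k172 2 (.s k86 k252 14 (.d k6 k9 k246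
  2 11))))))), (.s k1 k2 0 (.s k9 k6 2 (.s k169 k253 13 (.s k89 k249 11 (.s k81 k93 1 (.d k243 k162
  k166 12 14))))))] .n)

def s11_255_89 : T TT 256 :=
  (.q k17 [(.s k1 k2 0 (.s k33 k49 3 (.s k18 k48 4 (.s k19 k16 0 (.d k51 k35 k34 3 4))))), (.s k51
  k34 4 (.s k19 k35 3 (.s k153 k221 9 (.s k86 k220 10 (.s k84 k87 0 (.d k252 k168 k169 13 14)))))),
  (.s k1 k2 0 (.s k49 k33 3 (.s k153 k221 9 (.s k101 k205 13 (.s k117 k69 3 (.d k253 k185 k169 9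
  13))))))] (.c k33 (.l (.s k1 k2 0 (.s k51 k34 4 (.s k35 k19 3 (.s k153 k221 9 (.s k169 k253 13 (.d
  k102 k204 k236 14 10))))))) .n))

def s11_255_90 : T TT 256 :=
  (.f k1 k2 0 (.q k65 [(.s k129 k193 7 (.s k66 k192 8 (.s k67 k64 0 (.d k195 k131 k130 7 8)))), (.s
  k105 k125 5 (.s k169 k253 13 (.s k41 k233 7 (.s k61 k21 5 (.d k193 k129 k149 7 13))))), (.s k105
  k125 5 (.s k169 k253 13 (.s k195 k130 8 (.s k60 k150 14 (.d k41 k22 k233 6 7)))))] (.c k169 (.q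
  k248 [(.s k129 k193 7 (.s k66 k192 8 (.s k67 k64 0 (.d k195 k131 k130 7 8)))), (.s k105 k125 5 (.s
  k195 k130 8 (.s k60 k150 14 (.s k40 k20 5 (.s k41 k22 6 (.s k21 k61 5 (.d k42 k43 k63 0 6))))))),
  (.s k105 k125 5 (.s k193 k129 7 (.s k149 k61 13 (.s k21 k213 7 (.s k63 k42 6 (.s k192 k106 14 (.d
  k195 k194 k130 0 8)))))))] (.c k130 (.f k193 k129 7 (.f k105 k125 5 (.f k149 k61 13 (.l (.s k21
  k213 7 (.s k63 k42 6 (.s k23 k43 5 (.s k86 k212 8 (.s k67 k124 6 (.s k66 k64 0 (.d k106 k126 k192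
  5 14))))))))))) (.c k194 (.l (.s k129 k193 7 (.s k66 k192 8 (.s k195 k130 8 (.d k67 k64 k131 0
  7))))) (.c k195 (.f k129 k193 7 (.f k192 k66 8 (.l (.s k64 k128 7 (.s k106 k127 6 (.s k63 k149 14
  (.s k21 k42 6 (.s k23 k43 5 (.s k22 k20 0 (.d k41 k61 k60 5 6)))))))))) .n)))) (.c k248 (.l (.s
  k169 k253 13 (.s k105 k125 5 (.s k41 k233 7 (.s k60 k22 6 (.d k195 k130 k150 8 14)))))) .n))))

def s11_255_91 : T TT 256 :=
  (.f k1 k2 0 (.q k5 [(.s k13 k9 1 (.s k165 k245 11 (.s k89 k241 13 (.s k93 k81 1 (.d k253 k173 k169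
  11 13))))), (.s k9 k13 1 (.s k6 k12 2 (.s k4 k7 0 (.s k166 k247 12 (.s k86 k246 11 (.d k169 k253
  k252 13 14)))))), (.s k15 k10 2 (.s k165 k245 11 (.s k169 k253 13 (.s k173 k161 1 (.d k252 k94 k86
  12 14)))))] (.c k9 (.l (.s k165 k245 11 (.s k169 k253 13 (.s k161 k173 1 (.s k240 k82 12 (.d k15
  k10 k90 2 14)))))) (.c k169 (.l (.s k13 k9 1 (.s k165 k245 11 (.s k89 k241 13 (.s k81 k93 1 (.s
  k243 k162 12 (.s k12 k166 14 (.d k15 k10 k14 2 0)))))))) (.c k171 (.q k251 [(.s k9 k13 1 (.s k12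
  k6 2 (.s k8 k4 1 (.s k89 k170 12 (.d k169 k249 k253 11 13))))), (.s k165 k245 11 (.s k169 k253 13
  (.s k161 k173 1 (.s k240 k82 12 (.d k15 k10 k90 2 14))))), (.s k13 k9 1 (.s k165 k245 11 (.s k89
  k241 13 (.s k81 k93 1 (.s k243 k162 12 (.s k12 k166 14 (.d k8 k170 k4 12 1))))))), (.s k9 k13 1
  (.s k12 k6 2 (.s k8 k4 1 (.s k89 k170 12 (.s k243 k166 14 (.d k81 k162 k93 12 1))))))] (.c k10 (.l
  (.s k9 k13 1 (.s k169 k253 13 (.s k89 k249 11 (.s k8 k170 12 (.d k12 k4 k6 1 2)))))) (.c k13 (.l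
  (.s k15 k10 2 (.s k165 k245 11 (.s k169 k253 13 (.s k173 k161 1 (.d k252 k94 k86 12 14)))))) .n)))
  (.c k245 (.l (.s k9 k13 1 (.s k6 k12 2 (.s k4 k7 0 (.s k166 k247 12 (.s k169 k253 13 (.d k86 k246
  k252 11 14))))))) (.c k251 (.q k171 [(.s k169 k253 13 (.s k252 k86 14 (.d k168 k170 k84 0 13))),
  (.s k13 k9 1 (.s k165 k245 11 (.s k89 k241 13 (.s k93 k81 1 (.d k253 k173 k169 11 13)))))] (.c
  k169 (.l (.s k13 k9 1 (.s k165 k245 11 (.s k89 k241 13 (.s k81 k93 1 (.s k243 k162 12 (.s k12 k166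
  14 (.d k15 k10 k14 2 0)))))))) (.c k243 (.q k247 [(.s k4 k166 12 (.s k6 k7 0 (.d k9 k12 k13 2
  1))), (.s k169 k253 13 (.s k168 k170 0 (.d k252 k86 k84 14 13)))] (.c k15 (.q k167 [(.s k7 k87 11
  (.d k4 k6 k166 0 12)), (.s k87 k7 11 (.s k86 k84 0 (.d k169 k253 k252 13 14))), (.s k165 k245 11
  (.d k166 k164 k4 0 12))] (.c k95 (.l (.s k175 k163 1 (.s k4 k166 12 (.d k7 k6 k87 0 11)))) (.c
  k175 (.q k95 [(.s k7 k87 11 (.d k4 k6 k166 0 12)), (.s k87 k7 11 (.s k86 k84 0 (.d k169 k253 k252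
  13 14))), (.s k165 k245 11 (.d k166 k164 k4 0 12))] .n) .n))) (.c k89 (.l (.s k9 k13 1 (.s k4 k166
  12 (.d k12 k8 k6 1 2)))) (.c k167 (.l (.s k15 k10 2 (.s k4 k166 12 (.s k6 k7 0 (.d k9 k12 k13 2
  1))))) .n)))) (.c k247 (.q k243 [(.s k169 k253 13 (.s k252 k86 14 (.d k168 k170 k84 0 13))), (.s
  k9 k13 1 (.s k12 k6 2 (.s k81 k162 12 (.d k89 k93 k166 1 14))))] .n) (.c k253 (.l (.s k13 k9 1 (.s
  k165 k245 11 (.s k241 k89 13 (.s k161 k81 11 (.s k240 k82 12 (.d k15 k10 k90 2 14))))))) .n)))))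
  (.c k253 (.l (.s k13 k9 1 (.s k165 k245 11 (.s k241 k89 13 (.s k161 k81 11 (.s k240 k82 12 (.d k15
  k10 k90 2 14))))))) .n))))))))

def s11_255_92 : T TT 256 :=
  (.q k17 [(.s k1 k2 0 (.s k33 k49 3 (.s k18 k48 4 (.s k19 k16 0 (.d k51 k35 k34 3 4))))), (.s k51
  k34 4 (.s k19 k35 3 (.s k153 k221 9 (.s k86 k220 10 (.s k84 k87 0 (.d k252 k168 k169 13 14)))))),
  (.s k1 k2 0 (.s k49 k33 3 (.s k153 k221 9 (.s k101 k205 13 (.s k117 k69 3 (.d k253 k185 k169 9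
  13))))))] (.c k33 (.l (.s k1 k2 0 (.s k51 k34 4 (.s k35 k19 3 (.s k153 k221 9 (.s k169 k253 13 (.d
  k102 k204 k236 14 10))))))) .n))

def s11_255_93 : T TT 256 :=
  (.q k12 [(.s k2 k1 0 (.s k4 k8 1 (.s k6 k9 2 (.s k10 k14 1 (.d k5 k7 k15 0 2))))), (.s k4 k8 1 (.s
  k166 k247 12 (.s k243 k89 14 (.s k163 k83 11 (.s k169 k172 2 (.s k86 k252 14 (.d k6 k9 k246 2
  11))))))), (.s k1 k2 0 (.s k169 k253 13 (.s k252 k86 14 (.s k172 k92 11 (.s k166 k163 2 (.d k4 k8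
  k247 1 12)))))), (.s k1 k2 0 (.s k9 k6 2 (.s k169 k253 13 (.s k89 k249 11 (.s k166 k243 14 (.s
  k172 k163 2 (.d k252 k92 k86 11 14)))))))] .n)

def s11_255_94 : T TT 256 :=
  (.q k12 [(.s k2 k1 0 (.s k4 k8 1 (.s k6 k9 2 (.s k10 k14 1 (.d k5 k7 k15 0 2))))), (.s k1 k2 0 (.s
  k169 k253 13 (.s k252 k86 14 (.s k172 k92 11 (.s k166 k163 2 (.d k4 k8 k247 1 12)))))), (.s k4 k8
  1 (.s k166 k247 12 (.s k243 k89 14 (.s k163 k83 11 (.s k169 k172 2 (.s k86 k252 14 (.d k6 k9 k246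
  2 11))))))), (.s k1 k2 0 (.s k9 k6 2 (.s k169 k253 13 (.s k89 k249 11 (.s k81 k93 1 (.d k243 k162
  k166 12 14))))))] (.c k254 (.l (.s k1 k2 0 (.s k4 k8 1 (.s k166 k247 12 (.s k243 k89 14 (.s k163
  k83 11 (.d k169 k172 k253 2 13))))))) .n))

def s11_255_95 : T TT 256 :=
  (.f k1 k2 0 (.q k5 [(.s k13 k9 1 (.s k165 k245 11 (.s k89 k241 13 (.s k93 k81 1 (.d k253 k173 k169
  11 13))))), (.s k9 k13 1 (.s k6 k12 2 (.s k4 k7 0 (.s k166 k247 12 (.s k86 k246 11 (.d k169 k253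
  k252 13 14)))))), (.s k15 k10 2 (.s k165 k245 11 (.s k169 k253 13 (.s k173 k161 1 (.d k252 k94 k86
  12 14)))))] (.c k9 (.l (.s k165 k245 11 (.s k169 k253 13 (.s k161 k173 1 (.s k240 k82 12 (.d k15
  k10 k90 2 14)))))) (.c k15 (.q k175 [(.s k13 k9 1 (.s k165 k245 11 (.s k89 k241 13 (.s k93 k81 1
  (.d k253 k173 k169 11 13))))), (.s k165 k245 11 (.s k169 k253 13 (.s k170 k160 2 (.s k168 k171 0
  (.d k252 k84 k86 13 14))))), (.s k9 k13 1 (.s k12 k6 2 (.s k4 k8 1 (.s k166 k247 12 (.s k169 k253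
  13 (.d k89 k243 k249 14 11)))))), (.s k13 k9 1 (.s k165 k245 11 (.s k160 k170 2 (.s k240 k80 11
  (.s k161 k82 12 (.d k241 k81 k89 11 13))))))] .n) (.c k169 (.l (.s k13 k9 1 (.s k165 k245 11 (.s
  k89 k241 13 (.s k81 k93 1 (.s k243 k162 12 (.s k12 k166 14 (.d k15 k10 k14 2 0)))))))) (.c k175
  (.l (.s k15 k10 2 (.s k165 k245 11 (.s k169 k253 13 (.s k161 k173 1 (.d k240 k82 k90 12 14))))))
  (.c k245 (.l (.s k9 k13 1 (.s k6 k12 2 (.s k4 k7 0 (.s k166 k247 12 (.s k169 k253 13 (.d k86 k246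
  k252 11 14))))))) (.c k253 (.l (.s k13 k9 1 (.s k165 k245 11 (.s k241 k89 13 (.s k161 k81 11 (.s
  k240 k82 12 (.d k15 k10 k90 2 14))))))) .n))))))))

def s11_255_96 : T TT 256 :=
  (.q k12 [(.s k2 k1 0 (.s k4 k8 1 (.s k6 k9 2 (.s k10 k14 1 (.d k5 k7 k15 0 2))))), (.s k1 k2 0 (.s
  k169 k253 13 (.s k252 k86 14 (.s k172 k92 11 (.s k166 k163 2 (.d k4 k8 k247 1 12)))))), (.s k4 k8
  1 (.s k166 k247 12 (.s k243 k89 14 (.s k163 k83 11 (.s k169 k172 2 (.s k86 k252 14 (.d k6 k9 k246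
  2 11))))))), (.s k1 k2 0 (.s k9 k6 2 (.s k169 k253 13 (.s k89 k249 11 (.s k81 k93 1 (.d k243 k162
  k166 12 14))))))] .n)

def s11_255_97 : T TT 256 :=
  (.q k12 [(.s k2 k1 0 (.s k4 k8 1 (.s k6 k9 2 (.s k10 k14 1 (.d k5 k7 k15 0 2))))), (.s k1 k2 0 (.s
  k169 k253 13 (.s k252 k86 14 (.s k172 k92 11 (.s k166 k163 2 (.d k4 k8 k247 1 12)))))), (.s k4 k8
  1 (.s k166 k247 12 (.s k243 k89 14 (.s k163 k83 11 (.s k169 k172 2 (.s k86 k252 14 (.d k6 k9 k246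
  2 11))))))), (.s k1 k2 0 (.s k9 k6 2 (.s k169 k253 13 (.s k89 k249 11 (.s k81 k93 1 (.d k243 k162
  k166 12 14))))))] .n)

def s11_255_98 : T TT 256 :=
  (.q k12 [(.s k2 k1 0 (.s k4 k8 1 (.s k6 k9 2 (.s k10 k14 1 (.d k5 k7 k15 0 2))))), (.s k1 k2 0 (.s
  k169 k253 13 (.s k252 k86 14 (.s k172 k92 11 (.s k166 k163 2 (.d k4 k8 k247 1 12)))))), (.s k4 k8
  1 (.s k166 k247 12 (.s k243 k89 14 (.s k163 k83 11 (.s k169 k172 2 (.s k86 k252 14 (.d k6 k9 k246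
  2 11))))))), (.s k1 k2 0 (.s k9 k6 2 (.s k169 k253 13 (.s k89 k249 11 (.s k81 k93 1 (.d k243 k162
  k166 12 14))))))] .n)

def s11_255_99 : T TT 256 :=
  (.q k12 [(.s k2 k1 0 (.s k4 k8 1 (.s k6 k9 2 (.s k10 k14 1 (.d k5 k7 k15 0 2))))), (.s k1 k2 0 (.s
  k169 k253 13 (.s k252 k86 14 (.s k172 k92 11 (.s k166 k163 2 (.d k4 k8 k247 1 12)))))), (.s k4 k8
  1 (.s k166 k247 12 (.s k243 k89 14 (.s k163 k83 11 (.s k169 k172 2 (.s k86 k252 14 (.d k6 k9 k246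
  2 11))))))), (.s k1 k2 0 (.s k9 k6 2 (.s k169 k253 13 (.s k89 k249 11 (.s k81 k93 1 (.d k243 k162
  k166 12 14))))))] .n)

def s11_255_100 : T TT 256 :=
  (.q k12 [(.s k2 k1 0 (.s k4 k8 1 (.s k6 k9 2 (.s k10 k14 1 (.d k5 k7 k15 0 2))))), (.s k1 k2 0 (.s
  k169 k253 13 (.s k252 k86 14 (.s k172 k92 11 (.s k166 k163 2 (.d k4 k8 k247 1 12)))))), (.s k4 k8
  1 (.s k166 k247 12 (.s k243 k89 14 (.s k163 k83 11 (.s k169 k172 2 (.s k86 k252 14 (.d k6 k9 k246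
  2 11))))))), (.s k1 k2 0 (.s k9 k6 2 (.s k169 k253 13 (.s k89 k249 11 (.s k81 k93 1 (.d k243 k162
  k166 12 14))))))] .n)

def s11_255_101 : T TT 256 :=
  (.q k12 [(.s k2 k1 0 (.s k4 k8 1 (.s k6 k9 2 (.s k10 k14 1 (.d k5 k7 k15 0 2))))), (.s k1 k2 0 (.s
  k169 k253 13 (.s k252 k86 14 (.s k172 k92 11 (.s k166 k163 2 (.d k4 k8 k247 1 12)))))), (.s k4 k8
  1 (.s k166 k247 12 (.s k243 k89 14 (.s k163 k83 11 (.s k169 k172 2 (.s k86 k252 14 (.d k6 k9 k246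
  2 11))))))), (.s k1 k2 0 (.s k9 k6 2 (.s k169 k253 13 (.s k89 k249 11 (.s k81 k93 1 (.d k243 k162
  k166 12 14))))))] .n)

def s11_255_102 : T TT 256 :=
  (.q k12 [(.s k2 k1 0 (.s k4 k8 1 (.s k6 k9 2 (.s k10 k14 1 (.d k5 k7 k15 0 2))))), (.s k1 k2 0 (.s
  k169 k253 13 (.s k252 k86 14 (.s k172 k92 11 (.s k166 k163 2 (.d k4 k8 k247 1 12)))))), (.s k4 k8
  1 (.s k166 k247 12 (.s k243 k89 14 (.s k163 k83 11 (.s k169 k172 2 (.s k86 k252 14 (.d k6 k9 k246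
  2 11))))))), (.s k1 k2 0 (.s k9 k6 2 (.s k169 k253 13 (.s k89 k249 11 (.s k81 k93 1 (.d k243 k162
  k166 12 14))))))] .n)

def s11_255_103 : T TT 256 :=
  (.q k12 [(.s k2 k1 0 (.s k4 k8 1 (.s k6 k9 2 (.s k10 k14 1 (.d k5 k7 k15 0 2))))), (.s k1 k2 0 (.s
  k169 k253 13 (.s k252 k86 14 (.s k172 k92 11 (.s k166 k163 2 (.d k4 k8 k247 1 12)))))), (.s k4 k8
  1 (.s k166 k247 12 (.s k243 k89 14 (.s k163 k83 11 (.s k169 k172 2 (.s k86 k252 14 (.d k6 k9 k246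
  2 11))))))), (.s k1 k2 0 (.s k9 k6 2 (.s k169 k253 13 (.s k89 k249 11 (.s k81 k93 1 (.d k243 k162
  k166 12 14))))))] .n)

def s11_255_104 : T TT 256 :=
  (.q k12 [(.s k2 k1 0 (.s k4 k8 1 (.s k6 k9 2 (.s k10 k14 1 (.d k5 k7 k15 0 2))))), (.s k1 k2 0 (.s
  k169 k253 13 (.s k252 k86 14 (.s k172 k92 11 (.s k166 k163 2 (.d k4 k8 k247 1 12)))))), (.s k4 k8
  1 (.s k166 k247 12 (.s k243 k89 14 (.s k163 k83 11 (.s k169 k172 2 (.s k86 k252 14 (.d k6 k9 k246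
  2 11))))))), (.s k1 k2 0 (.s k9 k6 2 (.s k169 k253 13 (.s k89 k249 11 (.s k81 k93 1 (.d k243 k162
  k166 12 14))))))] .n)

def s11_255_105 : T TT 256 :=
  (.q k12 [(.s k2 k1 0 (.s k4 k8 1 (.s k6 k9 2 (.s k10 k14 1 (.d k5 k7 k15 0 2))))), (.s k1 k2 0 (.s
  k169 k253 13 (.s k252 k86 14 (.s k172 k92 11 (.s k166 k163 2 (.d k4 k8 k247 1 12)))))), (.s k4 k8
  1 (.s k166 k247 12 (.s k243 k89 14 (.s k163 k83 11 (.s k169 k172 2 (.s k86 k252 14 (.d k6 k9 k246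
  2 11))))))), (.s k1 k2 0 (.s k9 k6 2 (.s k169 k253 13 (.s k89 k249 11 (.s k81 k93 1 (.d k243 k162
  k166 12 14))))))] .n)

def s11_255_106 : T TT 256 :=
  (.q k12 [(.s k2 k1 0 (.s k4 k8 1 (.s k6 k9 2 (.s k10 k14 1 (.d k5 k7 k15 0 2))))), (.s k1 k2 0 (.s
  k169 k253 13 (.s k252 k86 14 (.s k172 k92 11 (.s k166 k163 2 (.d k4 k8 k247 1 12)))))), (.s k4 k8
  1 (.s k166 k247 12 (.s k243 k89 14 (.s k163 k83 11 (.s k169 k172 2 (.s k86 k252 14 (.d k6 k9 k246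
  2 11))))))), (.s k1 k2 0 (.s k9 k6 2 (.s k169 k253 13 (.s k89 k249 11 (.s k81 k93 1 (.d k243 k162
  k166 12 14))))))] .n)

def s11_255_107 : T TT 256 :=
  (.q k12 [(.s k2 k1 0 (.s k4 k8 1 (.s k6 k9 2 (.s k10 k14 1 (.d k5 k7 k15 0 2))))), (.s k1 k2 0 (.s
  k169 k253 13 (.s k252 k86 14 (.s k172 k92 11 (.s k166 k163 2 (.d k4 k8 k247 1 12)))))), (.s k4 k8
  1 (.s k166 k247 12 (.s k243 k89 14 (.s k163 k83 11 (.s k169 k172 2 (.s k86 k252 14 (.d k6 k9 k246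
  2 11))))))), (.s k1 k2 0 (.s k9 k6 2 (.s k169 k253 13 (.s k89 k249 11 (.s k81 k93 1 (.d k243 k162
  k166 12 14))))))] .n)

def s11_255_108 : T TT 256 :=
  (.q k12 [(.s k2 k1 0 (.s k4 k8 1 (.s k6 k9 2 (.s k10 k14 1 (.d k5 k7 k15 0 2))))), (.s k1 k2 0 (.s
  k169 k253 13 (.s k252 k86 14 (.s k172 k92 11 (.s k166 k163 2 (.d k4 k8 k247 1 12)))))), (.s k4 k8
  1 (.s k166 k247 12 (.s k243 k89 14 (.s k163 k83 11 (.s k169 k172 2 (.s k86 k252 14 (.d k6 k9 k246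
  2 11))))))), (.s k1 k2 0 (.s k9 k6 2 (.s k169 k253 13 (.s k89 k249 11 (.s k81 k93 1 (.d k243 k162
  k166 12 14))))))] .n)

def s11_255_109 : T TT 256 :=
  (.q k12 [(.s k2 k1 0 (.s k4 k8 1 (.s k6 k9 2 (.s k10 k14 1 (.d k5 k7 k15 0 2))))), (.s k1 k2 0 (.s
  k169 k253 13 (.s k252 k86 14 (.s k172 k92 11 (.s k166 k163 2 (.d k4 k8 k247 1 12)))))), (.s k4 k8
  1 (.s k166 k247 12 (.s k243 k89 14 (.s k163 k83 11 (.s k169 k172 2 (.s k86 k252 14 (.d k6 k9 k246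
  2 11))))))), (.s k1 k2 0 (.s k9 k6 2 (.s k169 k253 13 (.s k89 k249 11 (.s k81 k93 1 (.d k243 k162
  k166 12 14))))))] .n)

def s11_255_110 : T TT 256 :=
  (.q k12 [(.s k2 k1 0 (.s k4 k8 1 (.s k6 k9 2 (.s k10 k14 1 (.d k5 k7 k15 0 2))))), (.s k1 k2 0 (.s
  k169 k253 13 (.s k252 k86 14 (.s k172 k92 11 (.s k166 k163 2 (.d k4 k8 k247 1 12)))))), (.s k4 k8
  1 (.s k166 k247 12 (.s k243 k89 14 (.s k163 k83 11 (.s k169 k172 2 (.s k86 k252 14 (.d k6 k9 k246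
  2 11))))))), (.s k1 k2 0 (.s k9 k6 2 (.s k169 k253 13 (.s k89 k249 11 (.s k81 k93 1 (.d k243 k162
  k166 12 14))))))] .n)

def s11_255_111 : T TT 256 :=
  (.q k12 [(.s k2 k1 0 (.s k4 k8 1 (.s k6 k9 2 (.s k10 k14 1 (.d k5 k7 k15 0 2))))), (.s k1 k2 0 (.s
  k169 k253 13 (.s k252 k86 14 (.s k172 k92 11 (.s k166 k163 2 (.d k4 k8 k247 1 12)))))), (.s k4 k8
  1 (.s k166 k247 12 (.s k243 k89 14 (.s k163 k83 11 (.s k169 k172 2 (.s k86 k252 14 (.d k6 k9 k246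
  2 11))))))), (.s k1 k2 0 (.s k9 k6 2 (.s k169 k253 13 (.s k89 k249 11 (.s k81 k93 1 (.d k243 k162
  k166 12 14))))))] .n)

def s11_255_112 : T TT 256 :=
  (.q k12 [(.s k2 k1 0 (.s k4 k8 1 (.s k6 k9 2 (.s k10 k14 1 (.d k5 k7 k15 0 2))))), (.s k1 k2 0 (.s
  k169 k253 13 (.s k252 k86 14 (.s k172 k92 11 (.s k166 k163 2 (.d k4 k8 k247 1 12)))))), (.s k4 k8
  1 (.s k166 k247 12 (.s k243 k89 14 (.s k163 k83 11 (.s k169 k172 2 (.s k86 k252 14 (.d k6 k9 k246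
  2 11))))))), (.s k1 k2 0 (.s k9 k6 2 (.s k169 k253 13 (.s k89 k249 11 (.s k81 k93 1 (.d k243 k162
  k166 12 14))))))] .n)

def s11_255_113 : T TT 256 :=
  (.q k12 [(.s k2 k1 0 (.s k4 k8 1 (.s k6 k9 2 (.s k10 k14 1 (.d k5 k7 k15 0 2))))), (.s k1 k2 0 (.s
  k169 k253 13 (.s k252 k86 14 (.s k172 k92 11 (.s k166 k163 2 (.d k4 k8 k247 1 12)))))), (.s k4 k8
  1 (.s k166 k247 12 (.s k243 k89 14 (.s k163 k83 11 (.s k169 k172 2 (.s k86 k252 14 (.d k6 k9 k246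
  2 11))))))), (.s k1 k2 0 (.s k9 k6 2 (.s k169 k253 13 (.s k89 k249 11 (.s k81 k93 1 (.d k243 k162
  k166 12 14))))))] .n)

def s11_255_114 : T TT 256 :=
  (.q k12 [(.s k2 k1 0 (.s k4 k8 1 (.s k6 k9 2 (.s k10 k14 1 (.d k5 k7 k15 0 2))))), (.s k1 k2 0 (.s
  k169 k253 13 (.s k252 k86 14 (.s k172 k92 11 (.s k166 k163 2 (.d k4 k8 k247 1 12)))))), (.s k4 k8
  1 (.s k166 k247 12 (.s k243 k89 14 (.s k163 k83 11 (.s k169 k172 2 (.s k86 k252 14 (.d k6 k9 k246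
  2 11))))))), (.s k1 k2 0 (.s k9 k6 2 (.s k169 k253 13 (.s k89 k249 11 (.s k81 k93 1 (.d k243 k162
  k166 12 14))))))] .n)

def s11_255_115 : T TT 256 :=
  (.q k12 [(.s k2 k1 0 (.s k4 k8 1 (.s k6 k9 2 (.s k10 k14 1 (.d k5 k7 k15 0 2))))), (.s k1 k2 0 (.s
  k169 k253 13 (.s k252 k86 14 (.s k172 k92 11 (.s k166 k163 2 (.d k4 k8 k247 1 12)))))), (.s k4 k8
  1 (.s k166 k247 12 (.s k243 k89 14 (.s k163 k83 11 (.s k169 k172 2 (.s k86 k252 14 (.d k6 k9 k246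
  2 11))))))), (.s k1 k2 0 (.s k9 k6 2 (.s k169 k253 13 (.s k89 k249 11 (.s k81 k93 1 (.d k243 k162
  k166 12 14))))))] .n)

def s11_255_116 : T TT 256 :=
  (.q k12 [(.s k2 k1 0 (.s k4 k8 1 (.s k6 k9 2 (.s k10 k14 1 (.d k5 k7 k15 0 2))))), (.s k1 k2 0 (.s
  k169 k253 13 (.s k252 k86 14 (.s k172 k92 11 (.s k166 k163 2 (.d k4 k8 k247 1 12)))))), (.s k4 k8
  1 (.s k166 k247 12 (.s k243 k89 14 (.s k163 k83 11 (.s k169 k172 2 (.s k86 k252 14 (.d k6 k9 k246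
  2 11))))))), (.s k1 k2 0 (.s k9 k6 2 (.s k169 k253 13 (.s k89 k249 11 (.s k81 k93 1 (.d k243 k162
  k166 12 14))))))] .n)

def s11_255_117 : T TT 256 :=
  (.q k48 [(.s k2 k1 0 (.s k16 k32 3 (.s k18 k33 4 (.s k34 k50 3 (.d k17 k19 k51 0 4))))), (.s k1 k2
  0 (.s k16 k32 3 (.s k154 k223 10 (.s k169 k253 13 (.s k139 k184 4 (.d k207 k71 k101 9 14)))))),
  (.s k16 k32 3 (.s k18 k33 4 (.s k154 k223 10 (.s k86 k222 9 (.s k84 k87 0 (.d k252 k168 k169 13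
  14)))))), (.s k1 k2 0 (.s k33 k18 4 (.s k169 k253 13 (.s k101 k237 9 (.s k154 k207 14 (.s k184
  k139 4 (.d k252 k116 k86 9 14)))))))] .n)

def s11_255_118 : T TT 256 :=
  (.q k12 [(.s k2 k1 0 (.s k4 k8 1 (.s k6 k9 2 (.s k10 k14 1 (.d k5 k7 k15 0 2))))), (.s k1 k2 0 (.s
  k169 k253 13 (.s k252 k86 14 (.s k172 k92 11 (.s k166 k163 2 (.d k4 k8 k247 1 12)))))), (.s k4 k8
  1 (.s k166 k247 12 (.s k243 k89 14 (.s k163 k83 11 (.s k169 k172 2 (.s k86 k252 14 (.d k6 k9 k246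
  2 11))))))), (.s k1 k2 0 (.s k9 k6 2 (.s k169 k253 13 (.s k89 k249 11 (.s k81 k93 1 (.d k243 k162
  k166 12 14))))))] .n)

def s11_255_119 : T TT 256 :=
  (.q k51 [(.s k1 k2 0 (.s k17 k34 4 (.s k19 k35 3 (.s k18 k16 0 (.d k33 k49 k48 3 4))))), (.s k1 k2
  0 (.s k35 k19 3 (.s k169 k253 13 (.s k102 k236 10 (.s k153 k204 14 (.s k185 k137 3 (.d k252 k118
  k86 10 14))))))), (.s k17 k34 4 (.s k19 k35 3 (.s k153 k221 9 (.s k86 k220 10 (.s k84 k87 0 (.d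
  k252 k168 k169 13 14)))))), (.s k1 k2 0 (.s k17 k34 4 (.s k153 k221 9 (.s k169 k253 13 (.s k137
  k185 3 (.d k204 k70 k102 10 14))))))] .n)

def s11_255_120 : T TT 256 :=
  (.q k12 [(.s k2 k1 0 (.s k4 k8 1 (.s k6 k9 2 (.s k10 k14 1 (.d k5 k7 k15 0 2))))), (.s k1 k2 0 (.s
  k169 k253 13 (.s k252 k86 14 (.s k172 k92 11 (.s k166 k163 2 (.d k4 k8 k247 1 12)))))), (.s k4 k8
  1 (.s k166 k247 12 (.s k243 k89 14 (.s k163 k83 11 (.s k169 k172 2 (.s k86 k252 14 (.d k6 k9 k246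
  2 11))))))), (.s k1 k2 0 (.s k9 k6 2 (.s k169 k253 13 (.s k89 k249 11 (.s k81 k93 1 (.d k243 k162
  k166 12 14))))))] .n)

def s11_255_121 : T TT 256 :=
  (.q k12 [(.s k2 k1 0 (.s k4 k8 1 (.s k6 k9 2 (.s k10 k14 1 (.d k5 k7 k15 0 2))))), (.s k1 k2 0 (.s
  k169 k253 13 (.s k252 k86 14 (.s k172 k92 11 (.s k166 k163 2 (.d k4 k8 k247 1 12)))))), (.s k4 k8
  1 (.s k166 k247 12 (.s k243 k89 14 (.s k163 k83 11 (.s k169 k172 2 (.s k86 k252 14 (.d k6 k9 k246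
  2 11))))))), (.s k1 k2 0 (.s k9 k6 2 (.s k169 k253 13 (.s k89 k249 11 (.s k81 k93 1 (.d k243 k162
  k166 12 14))))))] .n)

def s11_255_122 : T TT 256 :=
  (.q k12 [(.s k2 k1 0 (.s k4 k8 1 (.s k6 k9 2 (.s k10 k14 1 (.d k5 k7 k15 0 2))))), (.s k1 k2 0 (.s
  k169 k253 13 (.s k252 k86 14 (.s k172 k92 11 (.s k166 k163 2 (.d k4 k8 k247 1 12)))))), (.s k4 k8
  1 (.s k166 k247 12 (.s k243 k89 14 (.s k163 k83 11 (.s k169 k172 2 (.s k86 k252 14 (.d k6 k9 k246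
  2 11))))))), (.s k1 k2 0 (.s k9 k6 2 (.s k169 k253 13 (.s k89 k249 11 (.s k81 k93 1 (.d k243 k162
  k166 12 14))))))] .n)

def s11_255_123 : T TT 256 :=
  (.q k12 [(.s k2 k1 0 (.s k4 k8 1 (.s k6 k9 2 (.s k10 k14 1 (.d k5 k7 k15 0 2))))), (.s k1 k2 0 (.s
  k169 k253 13 (.s k252 k86 14 (.s k172 k92 11 (.s k166 k163 2 (.d k4 k8 k247 1 12)))))), (.s k4 k8
  1 (.s k166 k247 12 (.s k243 k89 14 (.s k163 k83 11 (.s k169 k172 2 (.s k86 k252 14 (.d k6 k9 k246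
  2 11))))))), (.s k1 k2 0 (.s k9 k6 2 (.s k169 k253 13 (.s k89 k249 11 (.s k81 k93 1 (.d k243 k162
  k166 12 14))))))] .n)

def s11_255_124 : T TT 256 :=
  (.q k12 [(.s k2 k1 0 (.s k4 k8 1 (.s k6 k9 2 (.s k10 k14 1 (.d k5 k7 k15 0 2))))), (.s k1 k2 0 (.s
  k169 k253 13 (.s k252 k86 14 (.s k172 k92 11 (.s k166 k163 2 (.d k4 k8 k247 1 12)))))), (.s k4 k8
  1 (.s k166 k247 12 (.s k243 k89 14 (.s k163 k83 11 (.s k169 k172 2 (.s k86 k252 14 (.d k6 k9 k246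
  2 11))))))), (.s k1 k2 0 (.s k9 k6 2 (.s k169 k253 13 (.s k89 k249 11 (.s k81 k93 1 (.d k243 k162
  k166 12 14))))))] .n)

def s11_255_125 : T TT 256 :=
  (.q k60 [(.s k1 k2 0 (.s k40 k20 5 (.s k41 k22 6 (.s k21 k61 5 (.d k42 k43 k63 0 6))))), (.s k20
  k40 5 (.s k22 k41 6 (.s k150 k215 8 (.s k86 k214 7 (.s k84 k87 0 (.d k252 k168 k169 13 14)))))),
  (.s k1 k2 0 (.s k20 k40 5 (.s k150 k215 8 (.s k169 k253 13 (.s k131 k188 6 (.d k195 k67 k105 7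
  14)))))), (.s k1 k2 0 (.s k41 k22 6 (.s k169 k253 13 (.s k105 k233 7 (.s k150 k195 14 (.s k188
  k131 6 (.d k252 k124 k86 7 14)))))))] .n)

def s11_255_126 : T TT 256 :=
  (.q k12 [(.s k2 k1 0 (.s k4 k8 1 (.s k6 k9 2 (.s k10 k14 1 (.d k5 k7 k15 0 2))))), (.s k1 k2 0 (.s
  k169 k253 13 (.s k252 k86 14 (.s k172 k92 11 (.s k166 k163 2 (.d k4 k8 k247 1 12)))))), (.s k4 k8
  1 (.s k166 k247 12 (.s k243 k89 14 (.s k163 k83 11 (.s k169 k172 2 (.s k86 k252 14 (.d k6 k9 k246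
  2 11))))))), (.s k1 k2 0 (.s k9 k6 2 (.s k169 k253 13 (.s k89 k249 11 (.s k81 k93 1 (.d k243 k162
  k166 12 14))))))] .n)

def s11_255_127 : T TT 256 :=
  (.q k63 [(.s k2 k1 0 (.s k43 k23 5 (.s k42 k21 6 (.s k41 k40 0 (.d k22 k62 k60 5 6))))), (.s k1 k2
  0 (.s k43 k23 5 (.s k169 k253 13 (.s k106 k232 8 (.s k149 k192 14 (.s k189 k129 5 (.d k252 k126
  k86 8 14))))))), (.s k21 k42 6 (.s k23 k43 5 (.s k149 k213 7 (.s k86 k212 8 (.s k84 k87 0 (.d k252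
  k168 k169 13 14)))))), (.s k1 k2 0 (.s k21 k42 6 (.s k149 k213 7 (.s k169 k253 13 (.s k129 k189 5
  (.d k192 k66 k106 8 14))))))] .n)

def s11_255_128 : T TT 256 :=
  (.q k12 [(.s k2 k1 0 (.s k4 k8 1 (.s k6 k9 2 (.s k10 k14 1 (.d k5 k7 k15 0 2))))), (.s k1 k2 0 (.s
  k169 k253 13 (.s k252 k86 14 (.s k172 k92 11 (.s k166 k163 2 (.d k4 k8 k247 1 12)))))), (.s k4 k8
  1 (.s k166 k247 12 (.s k243 k89 14 (.s k163 k83 11 (.s k169 k172 2 (.s k86 k252 14 (.d k6 k9 k246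
  2 11))))))), (.s k1 k2 0 (.s k9 k6 2 (.s k169 k253 13 (.s k89 k249 11 (.s k81 k93 1 (.d k243 k162
  k166 12 14))))))] .n)

def s11_255_129 : T TT 256 :=
  (.q k12 [(.s k2 k1 0 (.s k4 k8 1 (.s k6 k9 2 (.s k10 k14 1 (.d k5 k7 k15 0 2))))), (.s k1 k2 0 (.s
  k169 k253 13 (.s k252 k86 14 (.s k172 k92 11 (.s k166 k163 2 (.d k4 k8 k247 1 12)))))), (.s k4 k8
  1 (.s k166 k247 12 (.s k243 k89 14 (.s k163 k83 11 (.s k169 k172 2 (.s k86 k252 14 (.d k6 k9 k246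
  2 11))))))), (.s k1 k2 0 (.s k9 k6 2 (.s k169 k253 13 (.s k89 k249 11 (.s k81 k93 1 (.d k243 k162
  k166 12 14))))))] .n)

def s11_255_130 : T TT 256 :=
  (.q k12 [(.s k2 k1 0 (.s k4 k8 1 (.s k6 k9 2 (.s k10 k14 1 (.d k5 k7 k15 0 2))))), (.s k1 k2 0 (.s
  k169 k253 13 (.s k252 k86 14 (.s k172 k92 11 (.s k166 k163 2 (.d k4 k8 k247 1 12)))))), (.s k4 k8
  1 (.s k166 k247 12 (.s k243 k89 14 (.s k163 k83 11 (.s k169 k172 2 (.s k86 k252 14 (.d k6 k9 k246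
  2 11))))))), (.s k1 k2 0 (.s k9 k6 2 (.s k169 k253 13 (.s k89 k249 11 (.s k81 k93 1 (.d k243 k162
  k166 12 14))))))] .n)

def s11_255_131 : T TT 256 :=
  (.q k12 [(.s k2 k1 0 (.s k4 k8 1 (.s k6 k9 2 (.s k10 k14 1 (.d k5 k7 k15 0 2))))), (.s k1 k2 0 (.s
  k169 k253 13 (.s k252 k86 14 (.s k172 k92 11 (.s k166 k163 2 (.d k4 k8 k247 1 12)))))), (.s k4 k8
  1 (.s k166 k247 12 (.s k243 k89 14 (.s k163 k83 11 (.s k169 k172 2 (.s k86 k252 14 (.d k6 k9 k246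
  2 11))))))), (.s k1 k2 0 (.s k9 k6 2 (.s k169 k253 13 (.s k89 k249 11 (.s k81 k93 1 (.d k243 k162
  k166 12 14))))))] .n)

def s11_255_132 : T TT 256 :=
  (.q k12 [(.s k2 k1 0 (.s k4 k8 1 (.s k6 k9 2 (.s k10 k14 1 (.d k5 k7 k15 0 2))))), (.s k1 k2 0 (.s
  k169 k253 13 (.s k252 k86 14 (.s k172 k92 11 (.s k166 k163 2 (.d k4 k8 k247 1 12)))))), (.s k4 k8
  1 (.s k166 k247 12 (.s k243 k89 14 (.s k163 k83 11 (.s k169 k172 2 (.s k86 k252 14 (.d k6 k9 k246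
  2 11))))))), (.s k1 k2 0 (.s k9 k6 2 (.s k169 k253 13 (.s k89 k249 11 (.s k81 k93 1 (.d k243 k162
  k166 12 14))))))] .n)

def s11_255_133 : T TT 256 :=
  (.q k12 [(.s k2 k1 0 (.s k4 k8 1 (.s k6 k9 2 (.s k10 k14 1 (.d k5 k7 k15 0 2))))), (.s k1 k2 0 (.s
  k169 k253 13 (.s k252 k86 14 (.s k172 k92 11 (.s k166 k163 2 (.d k4 k8 k247 1 12)))))), (.s k4 k8
  1 (.s k166 k247 12 (.s k243 k89 14 (.s k163 k83 11 (.s k169 k172 2 (.s k86 k252 14 (.d k6 k9 k246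
  2 11))))))), (.s k1 k2 0 (.s k9 k6 2 (.s k169 k253 13 (.s k89 k249 11 (.s k81 k93 1 (.d k243 k162
  k166 12 14))))))] .n)

def s11_255_134 : T TT 256 :=
  (.q k12 [(.s k2 k1 0 (.s k4 k8 1 (.s k6 k9 2 (.s k10 k14 1 (.d k5 k7 k15 0 2))))), (.s k1 k2 0 (.s
  k169 k253 13 (.s k252 k86 14 (.s k172 k92 11 (.s k166 k163 2 (.d k4 k8 k247 1 12)))))), (.s k4 k8
  1 (.s k166 k247 12 (.s k243 k89 14 (.s k163 k83 11 (.s k169 k172 2 (.s k86 k252 14 (.d k6 k9 k246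
  2 11))))))), (.s k1 k2 0 (.s k9 k6 2 (.s k169 k253 13 (.s k89 k249 11 (.s k81 k93 1 (.d k243 k162
  k166 12 14))))))] .n)

def s11_255_135 : T TT 256 :=
  (.q k12 [(.s k2 k1 0 (.s k4 k8 1 (.s k6 k9 2 (.s k10 k14 1 (.d k5 k7 k15 0 2))))), (.s k1 k2 0 (.s
  k169 k253 13 (.s k252 k86 14 (.s k172 k92 11 (.s k166 k163 2 (.d k4 k8 k247 1 12)))))), (.s k4 k8
  1 (.s k166 k247 12 (.s k243 k89 14 (.s k163 k83 11 (.s k169 k172 2 (.s k86 k252 14 (.d k6 k9 k246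
  2 11))))))), (.s k1 k2 0 (.s k9 k6 2 (.s k169 k253 13 (.s k89 k249 11 (.s k81 k93 1 (.d k243 k162
  k166 12 14))))))] .n)

def s11_255_136 : T TT 256 :=
  (.q k12 [(.s k2 k1 0 (.s k4 k8 1 (.s k6 k9 2 (.s k10 k14 1 (.d k5 k7 k15 0 2))))), (.s k1 k2 0 (.s
  k169 k253 13 (.s k252 k86 14 (.s k172 k92 11 (.s k166 k163 2 (.d k4 k8 k247 1 12)))))), (.s k4 k8
  1 (.s k166 k247 12 (.s k243 k89 14 (.s k163 k83 11 (.s k169 k172 2 (.s k86 k252 14 (.d k6 k9 k246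
  2 11))))))), (.s k1 k2 0 (.s k9 k6 2 (.s k169 k253 13 (.s k89 k249 11 (.s k81 k93 1 (.d k243 k162
  k166 12 14))))))] .n)

def s11_255_137 : T TT 256 :=
  (.f k1 k2 0 (.q k60 [(.s k40 k20 5 (.s k41 k22 6 (.s k21 k61 5 (.d k42 k43 k63 0 6)))), (.s k20
  k40 5 (.s k150 k215 8 (.s k169 k253 13 (.s k131 k188 6 (.d k195 k67 k105 7 14))))), (.s k41 k22 6
  (.s k169 k253 13 (.s k105 k233 7 (.s k65 k125 5 (.d k195 k130 k150 8 14)))))] (.c k74 (.q k200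
  [(.s k40 k20 5 (.s k41 k22 6 (.s k21 k61 5 (.d k42 k43 k63 0 6)))), (.s k20 k40 5 (.s k150 k215 8
  (.s k169 k253 13 (.s k131 k188 6 (.d k195 k67 k105 7 14))))), (.s k41 k22 6 (.s k169 k253 13 (.s
  k105 k233 7 (.s k65 k125 5 (.d k195 k130 k150 8 14)))))] .n) (.c k200 (.q k74 [(.s k40 k20 5 (.s
  k41 k22 6 (.s k21 k61 5 (.d k42 k43 k63 0 6)))), (.s k20 k40 5 (.s k150 k215 8 (.s k169 k253 13
  (.s k131 k188 6 (.d k195 k67 k105 7 14))))), (.s k41 k22 6 (.s k169 k253 13 (.s k105 k233 7 (.s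
  k65 k125 5 (.d k195 k130 k150 8 14)))))] .n) .n))))

def s11_255_138 : T TT 256 :=
  (.q k12 [(.s k2 k1 0 (.s k4 k8 1 (.s k6 k9 2 (.s k10 k14 1 (.d k5 k7 k15 0 2))))), (.s k1 k2 0 (.s
  k169 k253 13 (.s k252 k86 14 (.s k172 k92 11 (.s k166 k163 2 (.d k4 k8 k247 1 12)))))), (.s k4 k8
  1 (.s k166 k247 12 (.s k243 k89 14 (.s k163 k83 11 (.s k169 k172 2 (.s k86 k252 14 (.d k6 k9 k246
  2 11))))))), (.s k1 k2 0 (.s k9 k6 2 (.s k169 k253 13 (.s k89 k249 11 (.s k81 k93 1 (.d k243 k162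
  k166 12 14))))))] .n)

def s11_255_139 : T TT 256 :=
  (.f k1 k2 0 (.q k63 [(.s k21 k42 6 (.s k41 k61 5 (.s k22 k60 6 (.d k23 k20 k43 0 5)))), (.s k43
  k23 5 (.s k169 k253 13 (.s k106 k232 8 (.s k64 k127 6 (.d k192 k128 k149 7 14))))), (.s k21 k42 6
  (.s k149 k213 7 (.s k169 k253 13 (.s k129 k189 5 (.d k192 k66 k106 8 14)))))] (.c k75 (.q k203
  [(.s k21 k42 6 (.s k41 k61 5 (.s k22 k60 6 (.d k23 k20 k43 0 5)))), (.s k43 k23 5 (.s k169 k253 13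
  (.s k106 k232 8 (.s k64 k127 6 (.d k192 k128 k149 7 14))))), (.s k21 k42 6 (.s k149 k213 7 (.s
  k169 k253 13 (.s k129 k189 5 (.d k192 k66 k106 8 14)))))] .n) (.c k203 (.q k75 [(.s k21 k42 6 (.s
  k41 k61 5 (.s k22 k60 6 (.d k23 k20 k43 0 5)))), (.s k43 k23 5 (.s k169 k253 13 (.s k106 k232 8
  (.s k64 k127 6 (.d k192 k128 k149 7 14))))), (.s k21 k42 6 (.s k149 k213 7 (.s k169 k253 13 (.s
  k129 k189 5 (.d k192 k66 k106 8 14)))))] .n) .n))))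

def s11_255_140 : T TT 256 :=
  (.q k12 [(.s k2 k1 0 (.s k4 k8 1 (.s k6 k9 2 (.s k10 k14 1 (.d k5 k7 k15 0 2))))), (.s k1 k2 0 (.s
  k169 k253 13 (.s k252 k86 14 (.s k172 k92 11 (.s k166 k163 2 (.d k4 k8 k247 1 12)))))), (.s k4 k8
  1 (.s k166 k247 12 (.s k243 k89 14 (.s k163 k83 11 (.s k169 k172 2 (.s k86 k252 14 (.d k6 k9 k246
  2 11))))))), (.s k1 k2 0 (.s k9 k6 2 (.s k169 k253 13 (.s k89 k249 11 (.s k81 k93 1 (.d k243 k162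
  k166 12 14))))))] .n)

def s11_255_141 : T TT 256 :=
  (.q k12 [(.s k2 k1 0 (.s k4 k8 1 (.s k6 k9 2 (.s k10 k14 1 (.d k5 k7 k15 0 2))))), (.s k1 k2 0 (.s
  k169 k253 13 (.s k252 k86 14 (.s k172 k92 11 (.s k166 k163 2 (.d k4 k8 k247 1 12)))))), (.s k4 k8
  1 (.s k166 k247 12 (.s k243 k89 14 (.s k163 k83 11 (.s k169 k172 2 (.s k86 k252 14 (.d k6 k9 k246
  2 11))))))), (.s k1 k2 0 (.s k9 k6 2 (.s k169 k253 13 (.s k89 k249 11 (.s k81 k93 1 (.d k243 k162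
  k166 12 14))))))] .n)

def s11_255_142 : T TT 256 :=
  (.q k12 [(.s k2 k1 0 (.s k4 k8 1 (.s k6 k9 2 (.s k10 k14 1 (.d k5 k7 k15 0 2))))), (.s k1 k2 0 (.s
  k169 k253 13 (.s k252 k86 14 (.s k172 k92 11 (.s k166 k163 2 (.d k4 k8 k247 1 12)))))), (.s k4 k8
  1 (.s k166 k247 12 (.s k243 k89 14 (.s k163 k83 11 (.s k169 k172 2 (.s k86 k252 14 (.d k6 k9 k246
  2 11))))))), (.s k1 k2 0 (.s k9 k6 2 (.s k169 k253 13 (.s k89 k249 11 (.s k81 k93 1 (.d k243 k162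
  k166 12 14))))))] .n)

def s11_255_143 : T TT 256 :=
  (.q k12 [(.s k2 k1 0 (.s k4 k8 1 (.s k6 k9 2 (.s k10 k14 1 (.d k5 k7 k15 0 2))))), (.s k1 k2 0 (.s
  k169 k253 13 (.s k252 k86 14 (.s k172 k92 11 (.s k166 k163 2 (.d k4 k8 k247 1 12)))))), (.s k4 k8
  1 (.s k166 k247 12 (.s k243 k89 14 (.s k163 k83 11 (.s k169 k172 2 (.s k86 k252 14 (.d k6 k9 k246
  2 11))))))), (.s k1 k2 0 (.s k9 k6 2 (.s k169 k253 13 (.s k89 k249 11 (.s k81 k93 1 (.d k243 k162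
  k166 12 14))))))] .n)

def s11_255_144 : T TT 256 :=
  (.q k12 [(.s k2 k1 0 (.s k4 k8 1 (.s k6 k9 2 (.s k10 k14 1 (.d k5 k7 k15 0 2))))), (.s k1 k2 0 (.s
  k169 k253 13 (.s k252 k86 14 (.s k172 k92 11 (.s k166 k163 2 (.d k4 k8 k247 1 12)))))), (.s k4 k8
  1 (.s k166 k247 12 (.s k243 k89 14 (.s k163 k83 11 (.s k169 k172 2 (.s k86 k252 14 (.d k6 k9 k246
  2 11))))))), (.s k1 k2 0 (.s k9 k6 2 (.s k169 k253 13 (.s k89 k249 11 (.s k81 k93 1 (.d k243 k162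
  k166 12 14))))))] .n)

def s11_255_145 : T TT 256 :=
  (.q k12 [(.s k2 k1 0 (.s k4 k8 1 (.s k6 k9 2 (.s k10 k14 1 (.d k5 k7 k15 0 2))))), (.s k1 k2 0 (.s
  k169 k253 13 (.s k252 k86 14 (.s k172 k92 11 (.s k166 k163 2 (.d k4 k8 k247 1 12)))))), (.s k4 k8
  1 (.s k166 k247 12 (.s k243 k89 14 (.s k163 k83 11 (.s k169 k172 2 (.s k86 k252 14 (.d k6 k9 k246
  2 11))))))), (.s k1 k2 0 (.s k9 k6 2 (.s k169 k253 13 (.s k89 k249 11 (.s k81 k93 1 (.d k243 k162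
  k166 12 14))))))] .n)

def s11_255_146 : T TT 256 :=
  (.q k12 [(.s k2 k1 0 (.s k4 k8 1 (.s k6 k9 2 (.s k10 k14 1 (.d k5 k7 k15 0 2))))), (.s k1 k2 0 (.s
  k169 k253 13 (.s k252 k86 14 (.s k172 k92 11 (.s k166 k163 2 (.d k4 k8 k247 1 12)))))), (.s k4 k8
  1 (.s k166 k247 12 (.s k243 k89 14 (.s k163 k83 11 (.s k169 k172 2 (.s k86 k252 14 (.d k6 k9 k246
  2 11))))))), (.s k1 k2 0 (.s k9 k6 2 (.s k169 k253 13 (.s k89 k249 11 (.s k81 k93 1 (.d k243 k162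
  k166 12 14))))))] .n)

def s11_255_147 : T TT 256 :=
  (.q k12 [(.s k2 k1 0 (.s k4 k8 1 (.s k6 k9 2 (.s k10 k14 1 (.d k5 k7 k15 0 2))))), (.s k1 k2 0 (.s
  k169 k253 13 (.s k252 k86 14 (.s k172 k92 11 (.s k166 k163 2 (.d k4 k8 k247 1 12)))))), (.s k4 k8
  1 (.s k166 k247 12 (.s k243 k89 14 (.s k163 k83 11 (.s k169 k172 2 (.s k86 k252 14 (.d k6 k9 k246
  2 11))))))), (.s k1 k2 0 (.s k9 k6 2 (.s k169 k253 13 (.s k89 k249 11 (.s k81 k93 1 (.d k243 k162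
  k166 12 14))))))] .n)

def s11_255_148 : T TT 256 :=
  (.q k12 [(.s k2 k1 0 (.s k4 k8 1 (.s k6 k9 2 (.s k10 k14 1 (.d k5 k7 k15 0 2))))), (.s k1 k2 0 (.s
  k169 k253 13 (.s k252 k86 14 (.s k172 k92 11 (.s k166 k163 2 (.d k4 k8 k247 1 12)))))), (.s k4 k8
  1 (.s k166 k247 12 (.s k243 k89 14 (.s k163 k83 11 (.s k169 k172 2 (.s k86 k252 14 (.d k6 k9 k246
  2 11))))))), (.s k1 k2 0 (.s k9 k6 2 (.s k169 k253 13 (.s k89 k249 11 (.s k81 k93 1 (.d k243 k162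
  k166 12 14))))))] .n)

def s11_255_149 : T TT 256 :=
  (.q k12 [(.s k2 k1 0 (.s k4 k8 1 (.s k6 k9 2 (.s k10 k14 1 (.d k5 k7 k15 0 2))))), (.s k1 k2 0 (.s
  k169 k253 13 (.s k252 k86 14 (.s k172 k92 11 (.s k166 k163 2 (.d k4 k8 k247 1 12)))))), (.s k4 k8
  1 (.s k166 k247 12 (.s k243 k89 14 (.s k163 k83 11 (.s k169 k172 2 (.s k86 k252 14 (.d k6 k9 k246
  2 11))))))), (.s k1 k2 0 (.s k9 k6 2 (.s k169 k253 13 (.s k89 k249 11 (.s k81 k93 1 (.d k243 k162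
  k166 12 14))))))] .n)

def s11_255_150 : T TT 256 :=
  (.q k12 [(.s k2 k1 0 (.s k4 k8 1 (.s k6 k9 2 (.s k10 k14 1 (.d k5 k7 k15 0 2))))), (.s k1 k2 0 (.s
  k169 k253 13 (.s k252 k86 14 (.s k172 k92 11 (.s k166 k163 2 (.d k4 k8 k247 1 12)))))), (.s k4 k8
  1 (.s k166 k247 12 (.s k243 k89 14 (.s k163 k83 11 (.s k169 k172 2 (.s k86 k252 14 (.d k6 k9 k246
  2 11))))))), (.s k1 k2 0 (.s k9 k6 2 (.s k169 k253 13 (.s k89 k249 11 (.s k81 k93 1 (.d k243 k162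
  k166 12 14))))))] .n)

def s11_255_151 : T TT 256 :=
  (.q k12 [(.s k2 k1 0 (.s k4 k8 1 (.s k6 k9 2 (.s k10 k14 1 (.d k5 k7 k15 0 2))))), (.s k1 k2 0 (.s
  k169 k253 13 (.s k252 k86 14 (.s k172 k92 11 (.s k166 k163 2 (.d k4 k8 k247 1 12)))))), (.s k4 k8
  1 (.s k166 k247 12 (.s k243 k89 14 (.s k163 k83 11 (.s k169 k172 2 (.s k86 k252 14 (.d k6 k9 k246
  2 11))))))), (.s k1 k2 0 (.s k9 k6 2 (.s k169 k253 13 (.s k89 k249 11 (.s k81 k93 1 (.d k243 k162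
  k166 12 14))))))] .n)

def s11_255_152 : T TT 256 :=
  (.q k12 [(.s k2 k1 0 (.s k4 k8 1 (.s k6 k9 2 (.s k10 k14 1 (.d k5 k7 k15 0 2))))), (.s k1 k2 0 (.s
  k169 k253 13 (.s k252 k86 14 (.s k172 k92 11 (.s k166 k163 2 (.d k4 k8 k247 1 12)))))), (.s k4 k8
  1 (.s k166 k247 12 (.s k243 k89 14 (.s k163 k83 11 (.s k169 k172 2 (.s k86 k252 14 (.d k6 k9 k246
  2 11))))))), (.s k1 k2 0 (.s k9 k6 2 (.s k169 k253 13 (.s k89 k249 11 (.s k81 k93 1 (.d k243 k162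
  k166 12 14))))))] .n)

def s11_255_153 : T TT 256 :=
  (.q k12 [(.s k2 k1 0 (.s k4 k8 1 (.s k6 k9 2 (.s k10 k14 1 (.d k5 k7 k15 0 2))))), (.s k1 k2 0 (.s
  k169 k253 13 (.s k252 k86 14 (.s k172 k92 11 (.s k166 k163 2 (.d k4 k8 k247 1 12)))))), (.s k4 k8
  1 (.s k166 k247 12 (.s k243 k89 14 (.s k163 k83 11 (.s k169 k172 2 (.s k86 k252 14 (.d k6 k9 k246
  2 11))))))), (.s k1 k2 0 (.s k9 k6 2 (.s k169 k253 13 (.s k89 k249 11 (.s k81 k93 1 (.d k243 k162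
  k166 12 14))))))] .n)

def s11_255_154 : T TT 256 :=
  (.q k12 [(.s k2 k1 0 (.s k4 k8 1 (.s k6 k9 2 (.s k10 k14 1 (.d k5 k7 k15 0 2))))), (.s k1 k2 0 (.s
  k169 k253 13 (.s k252 k86 14 (.s k172 k92 11 (.s k166 k163 2 (.d k4 k8 k247 1 12)))))), (.s k4 k8
  1 (.s k166 k247 12 (.s k243 k89 14 (.s k163 k83 11 (.s k169 k172 2 (.s k86 k252 14 (.d k6 k9 k246
  2 11))))))), (.s k1 k2 0 (.s k9 k6 2 (.s k169 k253 13 (.s k89 k249 11 (.s k81 k93 1 (.d k243 k162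
  k166 12 14))))))] .n)

def s11_255_155 : T TT 256 :=
  (.q k12 [(.s k2 k1 0 (.s k4 k8 1 (.s k6 k9 2 (.s k10 k14 1 (.d k5 k7 k15 0 2))))), (.s k1 k2 0 (.s
  k169 k253 13 (.s k252 k86 14 (.s k172 k92 11 (.s k166 k163 2 (.d k4 k8 k247 1 12)))))), (.s k4 k8
  1 (.s k166 k247 12 (.s k243 k89 14 (.s k163 k83 11 (.s k169 k172 2 (.s k86 k252 14 (.d k6 k9 k246
  2 11))))))), (.s k1 k2 0 (.s k9 k6 2 (.s k169 k253 13 (.s k89 k249 11 (.s k81 k93 1 (.d k243 k162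
  k166 12 14))))))] .n)

def s11_255_156 : T TT 256 :=
  (.q k12 [(.s k2 k1 0 (.s k4 k8 1 (.s k6 k9 2 (.s k10 k14 1 (.d k5 k7 k15 0 2))))), (.s k1 k2 0 (.s
  k169 k253 13 (.s k252 k86 14 (.s k172 k92 11 (.s k166 k163 2 (.d k4 k8 k247 1 12)))))), (.s k4 k8
  1 (.s k166 k247 12 (.s k243 k89 14 (.s k163 k83 11 (.s k169 k172 2 (.s k86 k252 14 (.d k6 k9 k246
  2 11))))))), (.s k1 k2 0 (.s k9 k6 2 (.s k169 k253 13 (.s k89 k249 11 (.s k81 k93 1 (.d k243 k162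
  k166 12 14))))))] .n)

def s11_255_157 : T TT 256 :=
  (.q k12 [(.s k2 k1 0 (.s k4 k8 1 (.s k6 k9 2 (.s k10 k14 1 (.d k5 k7 k15 0 2))))), (.s k1 k2 0 (.s
  k169 k253 13 (.s k252 k86 14 (.s k172 k92 11 (.s k166 k163 2 (.d k4 k8 k247 1 12)))))), (.s k4 k8
  1 (.s k166 k247 12 (.s k243 k89 14 (.s k163 k83 11 (.s k169 k172 2 (.s k86 k252 14 (.d k6 k9 k246
  2 11))))))), (.s k1 k2 0 (.s k9 k6 2 (.s k169 k253 13 (.s k89 k249 11 (.s k81 k93 1 (.d k243 k162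
  k166 12 14))))))] .n)

def s11_255_158 : T TT 256 :=
  (.q k12 [(.s k2 k1 0 (.s k4 k8 1 (.s k6 k9 2 (.s k10 k14 1 (.d k5 k7 k15 0 2))))), (.s k1 k2 0 (.s
  k169 k253 13 (.s k252 k86 14 (.s k172 k92 11 (.s k166 k163 2 (.d k4 k8 k247 1 12)))))), (.s k4 k8
  1 (.s k166 k247 12 (.s k243 k89 14 (.s k163 k83 11 (.s k169 k172 2 (.s k86 k252 14 (.d k6 k9 k246
  2 11))))))), (.s k1 k2 0 (.s k9 k6 2 (.s k169 k253 13 (.s k89 k249 11 (.s k81 k93 1 (.d k243 k162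
  k166 12 14))))))] .n)

def s11_255_159 : T TT 256 :=
  (.q k12 [(.s k2 k1 0 (.s k4 k8 1 (.s k6 k9 2 (.s k10 k14 1 (.d k5 k7 k15 0 2))))), (.s k1 k2 0 (.s
  k169 k253 13 (.s k252 k86 14 (.s k172 k92 11 (.s k166 k163 2 (.d k4 k8 k247 1 12)))))), (.s k4 k8
  1 (.s k166 k247 12 (.s k243 k89 14 (.s k163 k83 11 (.s k169 k172 2 (.s k86 k252 14 (.d k6 k9 k246
  2 11))))))), (.s k1 k2 0 (.s k9 k6 2 (.s k169 k253 13 (.s k89 k249 11 (.s k81 k93 1 (.d k243 k162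
  k166 12 14))))))] .n)

def s11_255_160 : T TT 256 :=
  (.q k12 [(.s k2 k1 0 (.s k4 k8 1 (.s k6 k9 2 (.s k10 k14 1 (.d k5 k7 k15 0 2))))), (.s k1 k2 0 (.s
  k169 k253 13 (.s k252 k86 14 (.s k172 k92 11 (.s k166 k163 2 (.d k4 k8 k247 1 12)))))), (.s k4 k8
  1 (.s k166 k247 12 (.s k243 k89 14 (.s k163 k83 11 (.s k169 k172 2 (.s k86 k252 14 (.d k6 k9 k246
  2 11))))))), (.s k1 k2 0 (.s k9 k6 2 (.s k169 k253 13 (.s k89 k249 11 (.s k81 k93 1 (.d k243 k162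
  k166 12 14))))))] .n)

def s11_255_161 : T TT 256 :=
  (.q k12 [(.s k2 k1 0 (.s k4 k8 1 (.s k6 k9 2 (.s k10 k14 1 (.d k5 k7 k15 0 2))))), (.s k1 k2 0 (.s
  k169 k253 13 (.s k252 k86 14 (.s k172 k92 11 (.s k166 k163 2 (.d k4 k8 k247 1 12)))))), (.s k4 k8
  1 (.s k166 k247 12 (.s k243 k89 14 (.s k163 k83 11 (.s k169 k172 2 (.s k86 k252 14 (.d k6 k9 k246
  2 11))))))), (.s k1 k2 0 (.s k9 k6 2 (.s k169 k253 13 (.s k89 k249 11 (.s k81 k93 1 (.d k243 k162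
  k166 12 14))))))] .n)

def s11_255_162 : T TT 256 :=
  (.q k12 [(.s k2 k1 0 (.s k4 k8 1 (.s k6 k9 2 (.s k10 k14 1 (.d k5 k7 k15 0 2))))), (.s k1 k2 0 (.s
  k169 k253 13 (.s k252 k86 14 (.s k172 k92 11 (.s k166 k163 2 (.d k4 k8 k247 1 12)))))), (.s k4 k8
  1 (.s k166 k247 12 (.s k243 k89 14 (.s k163 k83 11 (.s k169 k172 2 (.s k86 k252 14 (.d k6 k9 k246
  2 11))))))), (.s k1 k2 0 (.s k9 k6 2 (.s k169 k253 13 (.s k89 k249 11 (.s k81 k93 1 (.s k241 k161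
  11 (.d k13 k5 k165 1 13)))))))] .n)

def s11_255_163 : T TT 256 :=
  (.q k17 [(.s k1 k2 0 (.s k33 k49 3 (.s k18 k48 4 (.s k19 k16 0 (.d k51 k35 k34 3 4))))), (.s k51
  k34 4 (.s k19 k35 3 (.s k153 k221 9 (.s k86 k220 10 (.s k84 k87 0 (.d k252 k168 k169 13 14)))))),
  (.s k1 k2 0 (.s k49 k33 3 (.s k153 k221 9 (.s k101 k205 13 (.s k117 k69 3 (.d k253 k185 k169 9
  13))))))] (.c k33 (.l (.s k1 k2 0 (.s k51 k34 4 (.s k35 k19 3 (.s k153 k221 9 (.s k169 k253 13 (.d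
  k102 k204 k236 14 10))))))) .n))

def s11_255_164 : T TT 256 :=
  (.q k12 [(.s k2 k1 0 (.s k4 k8 1 (.s k6 k9 2 (.s k10 k14 1 (.d k5 k7 k15 0 2))))), (.s k1 k2 0 (.s
  k169 k253 13 (.s k252 k86 14 (.s k172 k92 11 (.s k166 k163 2 (.d k4 k8 k247 1 12)))))), (.s k4 k8
  1 (.s k166 k247 12 (.s k243 k89 14 (.s k163 k83 11 (.s k169 k172 2 (.s k86 k252 14 (.d k6 k9 k246
  2 11))))))), (.s k1 k2 0 (.s k9 k6 2 (.s k169 k253 13 (.s k89 k249 11 (.s k81 k93 1 (.d k243 k162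
  k166 12 14))))))] .n)

def s11_255_165 : T TT 256 :=
  (.q k12 [(.s k2 k1 0 (.s k4 k8 1 (.s k6 k9 2 (.s k10 k14 1 (.d k5 k7 k15 0 2))))), (.s k1 k2 0 (.s
  k169 k253 13 (.s k252 k86 14 (.s k172 k92 11 (.s k166 k163 2 (.d k4 k8 k247 1 12)))))), (.s k4 k8
  1 (.s k166 k247 12 (.s k243 k89 14 (.s k163 k83 11 (.s k169 k172 2 (.s k86 k252 14 (.d k6 k9 k246
  2 11))))))), (.s k1 k2 0 (.s k9 k6 2 (.s k169 k253 13 (.s k89 k249 11 (.s k81 k93 1 (.d k243 k162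
  k166 12 14))))))] .n)

def s11_255_166 : T TT 256 :=
  (.q k17 [(.s k1 k2 0 (.s k33 k49 3 (.s k18 k48 4 (.s k19 k16 0 (.d k51 k35 k34 3 4))))), (.s k51
  k34 4 (.s k19 k35 3 (.s k153 k221 9 (.s k86 k220 10 (.s k84 k87 0 (.d k252 k168 k169 13 14)))))),
  (.s k1 k2 0 (.s k49 k33 3 (.s k153 k221 9 (.s k101 k205 13 (.s k117 k69 3 (.d k253 k185 k169 9
  13))))))] (.c k33 (.l (.s k1 k2 0 (.s k51 k34 4 (.s k35 k19 3 (.s k153 k221 9 (.s k169 k253 13 (.d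
  k102 k204 k236 14 10))))))) .n))

def s11_255_167 : T TT 256 :=
  (.q k12 [(.s k2 k1 0 (.s k4 k8 1 (.s k6 k9 2 (.s k10 k14 1 (.d k5 k7 k15 0 2))))), (.s k1 k2 0 (.s
  k169 k253 13 (.s k252 k86 14 (.s k172 k92 11 (.s k166 k163 2 (.d k4 k8 k247 1 12)))))), (.s k4 k8
  1 (.s k166 k247 12 (.s k243 k89 14 (.s k163 k83 11 (.s k169 k172 2 (.s k86 k252 14 (.d k6 k9 k246
  2 11))))))), (.s k1 k2 0 (.s k9 k6 2 (.s k169 k253 13 (.s k89 k249 11 (.s k81 k93 1 (.d k243 k162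
  k166 12 14))))))] .n)

def s11_255_168 : T TT 256 :=
  (.q k12 [(.s k2 k1 0 (.s k4 k8 1 (.s k6 k9 2 (.s k10 k14 1 (.d k5 k7 k15 0 2))))), (.s k1 k2 0 (.s
  k169 k253 13 (.s k252 k86 14 (.s k172 k92 11 (.s k166 k163 2 (.d k4 k8 k247 1 12)))))), (.s k4 k8
  1 (.s k166 k247 12 (.s k243 k89 14 (.s k163 k83 11 (.s k169 k172 2 (.s k86 k252 14 (.d k6 k9 k246
  2 11))))))), (.s k1 k2 0 (.s k9 k6 2 (.s k169 k253 13 (.s k89 k249 11 (.s k81 k93 1 (.d k243 k162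
  k166 12 14))))))] .n)

def s11_255_169 : T TT 256 :=
  (.f k2 k1 0 (.q k21 [(.s k42 k63 6 (.s k22 k62 5 (.s k20 k23 0 (.d k60 k40 k41 5 6)))), (.s k63
  k42 6 (.s k149 k213 7 (.s k192 k106 14 (.s k64 k128 7 (.s k66 k129 8 (.s k65 k67 0 (.d k130 k194
  k195 7 8)))))))] (.c k42 (.q k90 [(.s k80 k95 2 (.s k240 k160 11 (.s k82 k161 12 (.s k162 k242 11
  (.d k81 k83 k243 0 12))))), (.s k149 k213 7 (.s k31 k208 10 (.s k16 k26 2 (.s k48 k32 3 (.s k18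
  k33 4 (.s k17 k19 0 (.d k34 k50 k51 3 4)))))))] (.c k82 (.l (.s k95 k80 2 (.s k149 k213 7 (.s k31
  k208 10 (.s k16 k26 2 (.d k223 k159 k154 7 10)))))) .n)) (.c k63 (.q k90 [(.s k95 k80 2 (.s k149
  k213 7 (.s k31 k208 10 (.s k16 k26 2 (.d k223 k159 k154 7 10))))), (.s k80 k95 2 (.s k240 k160 11
  (.s k82 k161 12 (.s k81 k83 0 (.d k162 k242 k243 11 12))))), (.s k149 k213 7 (.s k31 k208 10 (.s
  k16 k26 2 (.s k48 k32 3 (.s k18 k33 4 (.s k17 k19 0 (.d k34 k50 k51 3 4)))))))] (.c k127 (.q k191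
  [(.s k95 k80 2 (.s k149 k213 7 (.s k31 k208 10 (.s k16 k26 2 (.d k223 k159 k154 7 10))))), (.s k80
  k95 2 (.s k240 k160 11 (.s k82 k161 12 (.s k81 k83 0 (.d k162 k242 k243 11 12))))), (.s k149 k213
  7 (.s k31 k208 10 (.s k16 k26 2 (.s k48 k32 3 (.s k18 k33 4 (.s k17 k19 0 (.d k34 k50 k51 3
  4)))))))] .n) (.c k191 (.q k127 [(.s k64 k106 6 (.s k80 k95 2 (.s k112 k96 3 (.s k101 k79 6 (.d
  k117 k122 k69 2 3))))), (.s k80 k95 2 (.s k240 k160 11 (.s k82 k161 12 (.s k81 k83 0 (.d k162 k242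
  k243 11 12))))), (.s k64 k106 6 (.s k192 k128 7 (.s k66 k129 8 (.s k65 k67 0 (.d k130 k194 k195 7
  8)))))] .n) .n))) (.c k90 (.q k248 [(.s k42 k63 6 (.s k22 k62 5 (.s k20 k23 0 (.d k60 k40 k41 5
  6)))), (.s k63 k42 6 (.s k149 k213 7 (.s k192 k106 14 (.s k64 k128 7 (.s k66 k129 8 (.s k65 k67 0
  (.d k130 k194 k195 7 8)))))))] (.c k42 (.q k4 [(.s k12 k8 1 (.s k6 k9 2 (.s k10 k14 1 (.d k5 k7
  k15 0 2)))), (.s k55 k38 4 (.s k149 k213 7 (.s k102 k196 12 (.s k119 k68 4 (.d k247 k183 k166 7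
  12)))))] (.c k166 (.l (.s k12 k8 1 (.s k9 k6 2 (.s k38 k55 4 (.s k25 k51 6 (.s k41 k57 3 (.s k44
  k35 2 (.d k60 k28 k22 3 6)))))))) .n)) (.c k63 (.q k5 [(.s k53 k37 3 (.s k149 k213 7 (.s k101 k197
  11 (.s k117 k69 3 (.d k245 k181 k165 7 11))))), (.s k10 k15 2 (.s k6 k14 1 (.s k4 k7 0 (.d k12 k8
  k9 1 2))))] (.c k127 (.q k191 [(.s k53 k37 3 (.s k149 k213 7 (.s k101 k197 11 (.s k117 k69 3 (.d
  k245 k181 k165 7 11))))), (.s k10 k15 2 (.s k6 k14 1 (.s k4 k7 0 (.d k12 k8 k9 1 2))))] (.c k165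
  (.l (.s k15 k10 2 (.s k37 k53 3 (.s k48 k26 6 (.s k16 k32 3 (.s k18 k33 4 (.s k17 k19 0 (.d k34
  k50 k51 3 4)))))))) .n)) (.c k165 (.l (.s k15 k10 2 (.s k37 k53 3 (.s k48 k26 6 (.s k16 k32 3 (.s
  k18 k33 4 (.s k17 k19 0 (.d k34 k50 k51 3 4)))))))) (.c k191 (.q k127 [(.s k53 k37 3 (.s k149 k213
  7 (.s k101 k197 11 (.s k117 k69 3 (.d k245 k181 k165 7 11))))), (.s k10 k15 2 (.s k6 k14 1 (.s k4
  k7 0 (.d k12 k8 k9 1 2))))] (.c k165 (.l (.s k64 k106 6 (.s k192 k128 7 (.s k66 k129 8 (.s k65 k67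
  0 (.d k130 k194 k195 7 8)))))) .n)) .n)))) .n))) (.c k248 (.q k90 [(.s k42 k63 6 (.s k22 k62 5 (.s
  k20 k23 0 (.d k60 k40 k41 5 6)))), (.s k80 k95 2 (.s k240 k160 11 (.s k82 k161 12 (.s k81 k83 0
  (.d k162 k242 k243 11 12)))))] .n) .n))))))

def s11_255_170 : T TT 256 :=
  (.q k17 [(.s k2 k1 0 (.s k34 k51 4 (.s k18 k50 3 (.s k16 k19 0 (.d k48 k32 k33 3 4))))), (.s k1 k2
  0 (.s k49 k33 3 (.s k153 k221 9 (.s k101 k205 13 (.s k117 k69 3 (.d k253 k185 k169 9 13)))))), (.s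
  k51 k34 4 (.s k19 k35 3 (.s k153 k221 9 (.s k86 k220 10 (.s k84 k87 0 (.d k252 k168 k169 13
  14))))))] (.c k33 (.l (.s k1 k2 0 (.s k51 k34 4 (.s k35 k19 3 (.s k153 k221 9 (.s k169 k253 13 (.d
  k102 k204 k236 14 10))))))) .n))

def s11_255_171 : T TT 256 :=
  (.f k1 k2 0 (.q k5 [(.s k13 k9 1 (.s k165 k245 11 (.s k89 k241 13 (.s k93 k81 1 (.d k253 k173 k169
  11 13))))), (.s k9 k13 1 (.s k6 k12 2 (.s k4 k7 0 (.s k166 k247 12 (.s k86 k246 11 (.d k169 k253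
  k252 13 14)))))), (.s k15 k10 2 (.s k165 k245 11 (.s k169 k253 13 (.s k173 k161 1 (.d k252 k94 k86
  12 14)))))] (.c k9 (.l (.s k165 k245 11 (.s k169 k253 13 (.s k161 k173 1 (.s k240 k82 12 (.d k15
  k10 k90 2 14)))))) (.c k91 (.q k251 [(.s k9 k13 1 (.s k12 k6 2 (.s k8 k4 1 (.s k89 k170 12 (.d
  k169 k249 k253 11 13))))), (.s k165 k245 11 (.s k169 k253 13 (.s k161 k173 1 (.s k240 k82 12 (.d
  k15 k10 k90 2 14))))), (.s k13 k9 1 (.s k165 k245 11 (.s k89 k241 13 (.s k81 k93 1 (.s k243 k162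
  12 (.s k12 k166 14 (.d k8 k170 k4 12 1))))))), (.s k9 k13 1 (.s k12 k6 2 (.s k8 k4 1 (.s k89 k170
  12 (.s k243 k166 14 (.d k81 k162 k93 12 1))))))] (.c k10 (.l (.s k9 k13 1 (.s k169 k253 13 (.s k89
  k249 11 (.s k8 k170 12 (.d k12 k4 k6 1 2)))))) (.c k13 (.l (.s k15 k10 2 (.s k165 k245 11 (.s k169
  k253 13 (.s k173 k161 1 (.d k252 k94 k86 12 14)))))) .n))) (.c k169 (.l (.s k13 k9 1 (.s k165 k245
  11 (.s k89 k241 13 (.s k81 k93 1 (.s k243 k162 12 (.s k12 k166 14 (.d k15 k10 k14 2 0)))))))) (.c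
  k245 (.l (.s k9 k13 1 (.s k6 k12 2 (.s k4 k7 0 (.s k166 k247 12 (.s k169 k253 13 (.d k86 k246 k252
  11 14))))))) (.c k251 (.q k91 [(.s k13 k9 1 (.s k165 k245 11 (.s k89 k241 13 (.s k90 k88 0 (.d k15
  k10 k240 2 14))))), (.s k9 k13 1 (.s k15 k10 2 (.s k169 k253 13 (.s k243 k167 13 (.s k81 k162 12
  (.d k89 k93 k249 1 11)))))), (.s k15 k10 2 (.s k165 k245 11 (.s k240 k90 14 (.s k161 k82 12 (.d
  k169 k173 k253 1 13))))), (.s k165 k245 11 (.s k169 k253 13 (.s k161 k173 1 (.s k241 k81 11 (.d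
  k13 k9 k89 1 13)))))] (.c k9 (.l (.s k165 k245 11 (.s k169 k253 13 (.s k161 k173 1 (.s k240 k82 12
  (.d k15 k10 k90 2 14)))))) (.c k243 (.q k247 [(.s k4 k166 12 (.s k6 k7 0 (.d k9 k12 k13 2 1))),
  (.s k13 k9 1 (.s k165 k245 11 (.s k89 k241 13 (.s k90 k88 0 (.d k15 k10 k240 2 14))))), (.s k4
  k166 12 (.s k7 k6 0 (.s k87 k167 11 (.s k86 k84 0 (.d k165 k245 k244 11 12)))))] (.c k89 (.l (.s
  k9 k13 1 (.s k4 k166 12 (.d k12 k8 k6 1 2)))) .n)) (.c k247 (.q k243 [(.d k15 k10 k167 2 13), (.s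
  k9 k13 1 (.s k81 k162 12 (.s k89 k93 1 (.d k12 k6 k166 2 14))))] .n) (.c k253 (.l (.s k13 k9 1 (.s
  k165 k245 11 (.s k241 k89 13 (.s k81 k161 11 (.s k243 k162 12 (.d k15 k10 k167 2 13))))))) .n)))))
  (.c k253 (.l (.s k13 k9 1 (.s k165 k245 11 (.s k241 k89 13 (.s k161 k81 11 (.s k240 k82 12 (.d k15
  k10 k90 2 14))))))) .n))))))))

def s11_255_172 : T TT 256 :=
  (.q k17 [(.s k1 k2 0 (.s k33 k49 3 (.s k18 k48 4 (.s k19 k16 0 (.d k51 k35 k34 3 4))))), (.s k51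
  k34 4 (.s k19 k35 3 (.s k153 k221 9 (.s k86 k220 10 (.s k84 k87 0 (.d k252 k168 k169 13 14)))))),
  (.s k1 k2 0 (.s k49 k33 3 (.s k153 k221 9 (.s k101 k205 13 (.s k117 k69 3 (.d k253 k185 k169 9
  13))))))] (.c k33 (.l (.s k1 k2 0 (.s k51 k34 4 (.s k35 k19 3 (.s k153 k221 9 (.s k169 k253 13 (.d
  k102 k204 k236 14 10))))))) .n))

def s11_255_173 : T TT 256 :=
  (.q k12 [(.s k2 k1 0 (.s k4 k8 1 (.s k6 k9 2 (.s k10 k14 1 (.d k5 k7 k15 0 2))))), (.s k1 k2 0 (.s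
  k169 k253 13 (.s k252 k86 14 (.s k172 k92 11 (.s k166 k163 2 (.d k4 k8 k247 1 12)))))), (.s k4 k8
  1 (.s k166 k247 12 (.s k243 k89 14 (.s k163 k83 11 (.s k169 k172 2 (.s k86 k252 14 (.d k6 k9 k246
  2 11))))))), (.s k1 k2 0 (.s k9 k6 2 (.s k169 k253 13 (.s k89 k249 11 (.s k243 k166 14 (.d k81 k93
  k162 1 12))))))] .n)

def s11_255_174 : T TT 256 :=
  (.q k12 [(.s k2 k1 0 (.s k4 k8 1 (.s k6 k9 2 (.s k10 k14 1 (.d k5 k7 k15 0 2))))), (.s k1 k2 0 (.s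
  k169 k253 13 (.s k252 k86 14 (.s k172 k92 11 (.s k166 k163 2 (.d k4 k8 k247 1 12)))))), (.s k4 k8
  1 (.s k166 k247 12 (.s k243 k89 14 (.s k163 k83 11 (.s k169 k172 2 (.s k86 k252 14 (.d k6 k9 k246
  2 11))))))), (.s k1 k2 0 (.s k9 k6 2 (.s k169 k253 13 (.s k89 k249 11 (.s k81 k93 1 (.d k243 k162
  k166 12 14))))))] (.c k254 (.l (.s k1 k2 0 (.s k4 k8 1 (.s k166 k247 12 (.s k243 k89 14 (.s k163
  k83 11 (.d k169 k172 k253 2 13))))))) .n))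

def s11_255_175 : T TT 256 :=
  (.f k1 k2 0 (.q k5 [(.s k13 k9 1 (.s k165 k245 11 (.s k89 k241 13 (.s k93 k81 1 (.d k253 k173 k169
  11 13))))), (.s k9 k13 1 (.s k6 k12 2 (.s k4 k7 0 (.s k166 k247 12 (.s k86 k246 11 (.d k169 k253
  k252 13 14)))))), (.s k15 k10 2 (.s k165 k245 11 (.s k169 k253 13 (.s k173 k161 1 (.d k252 k94 k86
  12 14)))))] (.c k9 (.l (.s k165 k245 11 (.s k169 k253 13 (.s k161 k173 1 (.s k240 k82 12 (.d k15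
  k10 k90 2 14)))))) (.c k15 (.q k95 [(.s k13 k9 1 (.s k165 k245 11 (.s k89 k241 13 (.s k93 k81 1
  (.d k253 k173 k169 11 13))))), (.s k80 k90 2 (.s k165 k245 11 (.s k240 k160 11 (.s k161 k82 12 (.d
  k169 k173 k253 1 13))))), (.s k9 k13 1 (.s k12 k6 2 (.s k4 k8 1 (.s k166 k247 12 (.s k169 k253 13
  (.d k89 k243 k249 14 11)))))), (.s k13 k9 1 (.s k165 k245 11 (.s k89 k241 13 (.s k81 k93 1 (.s
  k243 k162 12 (.s k83 k163 11 (.d k80 k82 k90 0 2)))))))] (.c k253 (.l (.s k13 k9 1 (.s k80 k90 2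
  (.s k165 k245 11 (.s k240 k160 11 (.s k161 k82 12 (.d k241 k81 k89 11 13))))))) .n)) (.c k95 (.l
  (.s k15 k10 2 (.s k165 k245 11 (.s k169 k253 13 (.s k161 k173 1 (.d k240 k82 k90 12 14)))))) (.c
  k169 (.l (.s k13 k9 1 (.s k165 k245 11 (.s k89 k241 13 (.s k81 k93 1 (.s k243 k162 12 (.s k12 k166
  14 (.d k15 k10 k14 2 0)))))))) (.c k245 (.l (.s k9 k13 1 (.s k6 k12 2 (.s k4 k7 0 (.s k166 k247 12
  (.s k169 k253 13 (.d k86 k246 k252 11 14))))))) (.c k253 (.l (.s k13 k9 1 (.s k165 k245 11 (.s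
  k241 k89 13 (.s k161 k81 11 (.s k240 k82 12 (.d k15 k10 k90 2 14))))))) .n))))))))

def s11_255_176 : T TT 256 :=
  (.q k12 [(.s k2 k1 0 (.s k4 k8 1 (.s k6 k9 2 (.s k10 k14 1 (.d k5 k7 k15 0 2))))), (.s k1 k2 0 (.s
  k169 k253 13 (.s k252 k86 14 (.s k172 k92 11 (.s k166 k163 2 (.d k4 k8 k247 1 12)))))), (.s k4 k8
  1 (.s k166 k247 12 (.s k243 k89 14 (.s k163 k83 11 (.s k169 k172 2 (.s k86 k252 14 (.d k6 k9 k246
  2 11))))))), (.s k1 k2 0 (.s k9 k6 2 (.s k169 k253 13 (.s k89 k249 11 (.s k81 k93 1 (.d k243 k162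
  k166 12 14))))))] .n)

def s11_255_177 : T TT 256 :=
  (.q k12 [(.s k2 k1 0 (.s k4 k8 1 (.s k6 k9 2 (.s k10 k14 1 (.d k5 k7 k15 0 2))))), (.s k1 k2 0 (.s
  k169 k253 13 (.s k252 k86 14 (.s k172 k92 11 (.s k166 k163 2 (.d k4 k8 k247 1 12)))))), (.s k4 k8
  1 (.s k166 k247 12 (.s k243 k89 14 (.s k163 k83 11 (.s k169 k172 2 (.s k86 k252 14 (.d k6 k9 k246
  2 11))))))), (.s k1 k2 0 (.s k9 k6 2 (.s k169 k253 13 (.s k89 k249 11 (.s k81 k93 1 (.d k243 k162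
  k166 12 14))))))] .n)

def s11_255_178 : T TT 256 :=
  (.q k12 [(.s k2 k1 0 (.s k4 k8 1 (.s k6 k9 2 (.s k10 k14 1 (.d k5 k7 k15 0 2))))), (.s k1 k2 0 (.s
  k169 k253 13 (.s k252 k86 14 (.s k172 k92 11 (.s k166 k163 2 (.d k4 k8 k247 1 12)))))), (.s k4 k8
  1 (.s k166 k247 12 (.s k243 k89 14 (.s k163 k83 11 (.s k169 k172 2 (.s k86 k252 14 (.d k6 k9 k246
  2 11))))))), (.s k1 k2 0 (.s k9 k6 2 (.s k169 k253 13 (.s k89 k249 11 (.s k81 k93 1 (.d k243 k162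
  k166 12 14))))))] .n)

def s11_255_179 : T TT 256 :=
  (.q k12 [(.s k2 k1 0 (.s k4 k8 1 (.s k6 k9 2 (.s k10 k14 1 (.d k5 k7 k15 0 2))))), (.s k1 k2 0 (.s
  k169 k253 13 (.s k252 k86 14 (.s k172 k92 11 (.s k166 k163 2 (.d k4 k8 k247 1 12)))))), (.s k4 k8
  1 (.s k166 k247 12 (.s k243 k89 14 (.s k163 k83 11 (.s k169 k172 2 (.s k86 k252 14 (.d k6 k9 k246
  2 11))))))), (.s k1 k2 0 (.s k9 k6 2 (.s k169 k253 13 (.s k89 k249 11 (.s k81 k93 1 (.d k243 k162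
  k166 12 14))))))] .n)

def s11_255_180 : T TT 256 :=
  (.q k12 [(.s k2 k1 0 (.s k4 k8 1 (.s k6 k9 2 (.s k10 k14 1 (.d k5 k7 k15 0 2))))), (.s k1 k2 0 (.s
  k169 k253 13 (.s k252 k86 14 (.s k172 k92 11 (.s k166 k163 2 (.d k4 k8 k247 1 12)))))), (.s k4 k8
  1 (.s k166 k247 12 (.s k243 k89 14 (.s k163 k83 11 (.s k169 k172 2 (.s k86 k252 14 (.d k6 k9 k246
  2 11))))))), (.s k1 k2 0 (.s k9 k6 2 (.s k169 k253 13 (.s k89 k249 11 (.s k81 k93 1 (.d k243 k162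
  k166 12 14))))))] .n)

def s11_255_181 : T TT 256 :=
  (.q k12 [(.s k2 k1 0 (.s k4 k8 1 (.s k6 k9 2 (.s k10 k14 1 (.d k5 k7 k15 0 2))))), (.s k1 k2 0 (.s
  k169 k253 13 (.s k252 k86 14 (.s k172 k92 11 (.s k166 k163 2 (.d k4 k8 k247 1 12)))))), (.s k4 k8
  1 (.s k166 k247 12 (.s k243 k89 14 (.s k163 k83 11 (.s k169 k172 2 (.s k86 k252 14 (.d k6 k9 k246
  2 11))))))), (.s k1 k2 0 (.s k9 k6 2 (.s k169 k253 13 (.s k89 k249 11 (.s k81 k93 1 (.d k243 k162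
  k166 12 14))))))] .n)

def s11_255_182 : T TT 256 :=
  (.q k12 [(.s k2 k1 0 (.s k4 k8 1 (.s k6 k9 2 (.s k10 k14 1 (.d k5 k7 k15 0 2))))), (.s k1 k2 0 (.s
  k169 k253 13 (.s k252 k86 14 (.s k172 k92 11 (.s k166 k163 2 (.d k4 k8 k247 1 12)))))), (.s k4 k8
  1 (.s k166 k247 12 (.s k243 k89 14 (.s k163 k83 11 (.s k169 k172 2 (.s k86 k252 14 (.d k6 k9 k246
  2 11))))))), (.s k1 k2 0 (.s k9 k6 2 (.s k169 k253 13 (.s k89 k249 11 (.s k81 k93 1 (.d k243 k162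
  k166 12 14))))))] .n)

def s11_255_183 : T TT 256 :=
  (.q k12 [(.s k2 k1 0 (.s k4 k8 1 (.s k6 k9 2 (.s k10 k14 1 (.d k5 k7 k15 0 2))))), (.s k1 k2 0 (.s
  k169 k253 13 (.s k252 k86 14 (.s k172 k92 11 (.s k166 k163 2 (.d k4 k8 k247 1 12)))))), (.s k4 k8
  1 (.s k166 k247 12 (.s k243 k89 14 (.s k163 k83 11 (.s k169 k172 2 (.s k86 k252 14 (.d k6 k9 k246
  2 11))))))), (.s k1 k2 0 (.s k9 k6 2 (.s k169 k253 13 (.s k89 k249 11 (.s k81 k93 1 (.d k243 k162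
  k166 12 14))))))] .n)

def s11_255_184 : T TT 256 :=
  (.q k12 [(.s k2 k1 0 (.s k4 k8 1 (.s k6 k9 2 (.s k10 k14 1 (.d k5 k7 k15 0 2))))), (.s k1 k2 0 (.s
  k169 k253 13 (.s k252 k86 14 (.s k172 k92 11 (.s k166 k163 2 (.d k4 k8 k247 1 12)))))), (.s k4 k8
  1 (.s k166 k247 12 (.s k243 k89 14 (.s k163 k83 11 (.s k169 k172 2 (.s k86 k252 14 (.d k6 k9 k246
  2 11))))))), (.s k1 k2 0 (.s k9 k6 2 (.s k169 k253 13 (.s k89 k249 11 (.s k81 k93 1 (.d k243 k162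
  k166 12 14))))))] .n)

def s11_255_185 : T TT 256 :=
  (.q k12 [(.s k2 k1 0 (.s k4 k8 1 (.s k6 k9 2 (.s k10 k14 1 (.d k5 k7 k15 0 2))))), (.s k1 k2 0 (.s
  k169 k253 13 (.s k252 k86 14 (.s k172 k92 11 (.s k166 k163 2 (.d k4 k8 k247 1 12)))))), (.s k4 k8
  1 (.s k166 k247 12 (.s k243 k89 14 (.s k163 k83 11 (.s k169 k172 2 (.s k86 k252 14 (.d k6 k9 k246
  2 11))))))), (.s k1 k2 0 (.s k9 k6 2 (.s k169 k253 13 (.s k89 k249 11 (.s k81 k93 1 (.d k243 k162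
  k166 12 14))))))] .n)

def s11_255_186 : T TT 256 :=
  (.q k48 [(.s k1 k2 0 (.s k32 k16 3 (.s k33 k18 4 (.s k17 k49 3 (.d k34 k35 k51 0 4))))), (.s k1 k2
  0 (.s k16 k32 3 (.s k154 k223 10 (.s k169 k253 13 (.s k139 k184 4 (.d k207 k71 k101 9 14)))))),
  (.s k16 k32 3 (.s k18 k33 4 (.s k154 k223 10 (.s k86 k222 9 (.s k84 k87 0 (.d k252 k168 k169 13
  14)))))), (.s k1 k2 0 (.s k33 k18 4 (.s k169 k253 13 (.s k101 k237 9 (.s k69 k117 3 (.d k207 k138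
  k154 10 14))))))] .n)

def s11_255_187 : T TT 256 :=
  (.q k51 [(.s k1 k2 0 (.s k17 k34 4 (.s k19 k35 3 (.s k18 k16 0 (.d k33 k49 k48 3 4))))), (.s k1 k2
  0 (.s k35 k19 3 (.s k169 k253 13 (.s k102 k236 10 (.s k68 k119 4 (.d k204 k136 k153 9 14)))))),
  (.s k17 k34 4 (.s k19 k35 3 (.s k153 k221 9 (.s k86 k220 10 (.s k84 k87 0 (.d k252 k168 k169 13
  14)))))), (.s k1 k2 0 (.s k17 k34 4 (.s k153 k221 9 (.s k169 k253 13 (.s k137 k185 3 (.d k204 k70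
  k102 10 14))))))] .n)

def s11_255_188 : T TT 256 :=
  (.q k12 [(.s k2 k1 0 (.s k4 k8 1 (.s k6 k9 2 (.s k10 k14 1 (.d k5 k7 k15 0 2))))), (.s k1 k2 0 (.s
  k169 k253 13 (.s k252 k86 14 (.s k172 k92 11 (.s k166 k163 2 (.d k4 k8 k247 1 12)))))), (.s k4 k8
  1 (.s k166 k247 12 (.s k243 k89 14 (.s k163 k83 11 (.s k169 k172 2 (.s k86 k252 14 (.d k6 k9 k246
  2 11))))))), (.s k1 k2 0 (.s k9 k6 2 (.s k169 k253 13 (.s k89 k249 11 (.s k81 k93 1 (.d k243 k162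
  k166 12 14))))))] .n)

def s11_255_189 : T TT 256 :=
  (.q k12 [(.s k2 k1 0 (.s k4 k8 1 (.s k6 k9 2 (.s k10 k14 1 (.d k5 k7 k15 0 2))))), (.s k1 k2 0 (.s
  k169 k253 13 (.s k252 k86 14 (.s k172 k92 11 (.s k166 k163 2 (.d k4 k8 k247 1 12)))))), (.s k4 k8
  1 (.s k166 k247 12 (.s k243 k89 14 (.s k163 k83 11 (.s k169 k172 2 (.s k86 k252 14 (.d k6 k9 k246
  2 11))))))), (.s k1 k2 0 (.s k9 k6 2 (.s k169 k253 13 (.s k89 k249 11 (.s k81 k93 1 (.d k243 k162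
  k166 12 14))))))] .n)

def s11_255_190 : T TT 256 :=
  (.q k60 [(.s k1 k2 0 (.s k40 k20 5 (.s k41 k22 6 (.s k21 k61 5 (.d k42 k43 k63 0 6))))), (.s k1 k2
  0 (.s k20 k40 5 (.s k150 k215 8 (.s k169 k253 13 (.s k131 k188 6 (.d k195 k67 k105 7 14)))))), (.s
  k20 k40 5 (.s k22 k41 6 (.s k150 k215 8 (.s k86 k214 7 (.s k84 k87 0 (.d k252 k168 k169 13
  14)))))), (.s k1 k2 0 (.s k41 k22 6 (.s k169 k253 13 (.s k105 k233 7 (.s k65 k125 5 (.d k195 k130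
  k150 8 14))))))] .n)

def s11_255_191 : T TT 256 :=
  (.q k63 [(.s k2 k1 0 (.s k43 k23 5 (.s k42 k21 6 (.s k41 k40 0 (.d k22 k62 k60 5 6))))), (.s k1 k2
  0 (.s k43 k23 5 (.s k169 k253 13 (.s k106 k232 8 (.s k64 k127 6 (.d k192 k128 k149 7 14)))))), (.s
  k21 k42 6 (.s k23 k43 5 (.s k149 k213 7 (.s k86 k212 8 (.s k84 k87 0 (.d k252 k168 k169 13
  14)))))), (.s k1 k2 0 (.s k21 k42 6 (.s k149 k213 7 (.s k169 k253 13 (.s k129 k189 5 (.d k192 k66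
  k106 8 14))))))] .n)

def s11_255_192 : T TT 256 :=
  (.f k1 k2 0 (.q k21 [(.s k41 k61 5 (.s k22 k60 6 (.s k23 k20 0 (.d k63 k43 k42 5 6)))), (.s k61
  k41 5 (.s k253 k169 13 (.s k125 k189 7 (.s k105 k65 5 (.d k149 k213 k193 7 13))))), (.s k63 k42 6
  (.s k169 k253 13 (.s k252 k86 14 (.s k189 k126 8 (.d k149 k213 k129 7 5)))))] (.c k213 (.q k234
  [(.s k41 k61 5 (.s k22 k60 6 (.s k23 k20 0 (.d k63 k43 k42 5 6)))), (.s k42 k63 6 (.s k169 k253 13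
  (.s k252 k86 14 (.s k168 k84 13 (.d k170 k106 k171 7 0)))))] (.c k42 (.l (.s k41 k61 5 (.s k22 k60
  6 (.s k20 k23 0 (.s k150 k215 8 (.s k169 k253 13 (.d k86 k214 k252 7 14))))))) (.c k63 (.l (.s k41
  k61 5 (.s k60 k22 6 (.s k20 k40 5 (.s k150 k215 8 (.s k169 k253 13 (.d k105 k233 k195 7 14)))))))
  .n))) (.c k234 (.l (.s k213 k149 7 (.s k41 k61 5 (.s k22 k60 6 (.s k23 k20 0 (.d k63 k43 k42 5
  6)))))) .n))))

def s11_255_193 : T TT 256 :=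
  (.q k12 [(.s k2 k1 0 (.s k4 k8 1 (.s k6 k9 2 (.s k10 k14 1 (.d k5 k7 k15 0 2))))), (.s k1 k2 0 (.s
  k169 k253 13 (.s k252 k86 14 (.s k172 k92 11 (.s k166 k163 2 (.d k4 k8 k247 1 12)))))), (.s k4 k8
  1 (.s k166 k247 12 (.s k243 k89 14 (.s k163 k83 11 (.s k169 k172 2 (.s k86 k252 14 (.d k6 k9 k246
  2 11))))))), (.s k1 k2 0 (.s k9 k6 2 (.s k169 k253 13 (.s k89 k249 11 (.s k81 k93 1 (.d k243 k162
  k166 12 14))))))] .n)

def s11_255_194 : T TT 256 :=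
  (.q k12 [(.s k2 k1 0 (.s k4 k8 1 (.s k6 k9 2 (.s k10 k14 1 (.d k5 k7 k15 0 2))))), (.s k1 k2 0 (.s
  k169 k253 13 (.s k252 k86 14 (.s k172 k92 11 (.s k166 k163 2 (.d k4 k8 k247 1 12)))))), (.s k4 k8
  1 (.s k166 k247 12 (.s k243 k89 14 (.s k163 k83 11 (.s k169 k172 2 (.s k86 k252 14 (.d k6 k9 k246
  2 11))))))), (.s k1 k2 0 (.s k9 k6 2 (.s k169 k253 13 (.s k89 k249 11 (.s k81 k93 1 (.d k243 k162
  k166 12 14))))))] .n)

def s11_255_195 : T TT 256 :=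
  (.f k1 k2 0 (.q k60 [(.s k40 k20 5 (.s k41 k22 6 (.s k21 k61 5 (.d k42 k43 k63 0 6)))), (.s k20
  k40 5 (.s k169 k253 13 (.s k252 k86 14 (.s k188 k124 7 (.d k150 k215 k131 8 6))))), (.s k41 k22 6
  (.s k169 k253 13 (.s k105 k233 7 (.s k65 k125 5 (.s k193 k129 7 (.d k61 k21 k149 5 13))))))] (.c
  k215 (.q k235 [(.s k40 k20 5 (.s k41 k22 6 (.s k21 k61 5 (.d k42 k43 k63 0 6)))), (.s k40 k20 5
  (.s k169 k253 13 (.s k170 k105 8 (.s k168 k171 0 (.d k252 k84 k86 13 14)))))] (.c k20 (.l (.s k41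
  k22 6 (.s k21 k61 5 (.s k42 k63 6 (.s k40 k43 0 (.s k105 k170 8 (.d k169 k233 k253 7 13))))))) (.c
  k40 (.l (.s k41 k22 6 (.s k61 k21 5 (.s k169 k253 13 (.s k105 k233 7 (.s k65 k125 5 (.d k193 k129
  k149 7 13))))))) .n))) (.c k235 (.q k215 [(.d k20 k40 k150 5 8), (.s k41 k22 6 (.s k169 k253 13
  (.s k105 k233 7 (.s k65 k125 5 (.s k193 k129 7 (.d k61 k21 k149 5 13))))))] .n) .n))))

def s11_255_196 : T TT 256 :=
  (.q k12 [(.s k2 k1 0 (.s k4 k8 1 (.s k6 k9 2 (.s k10 k14 1 (.d k5 k7 k15 0 2))))), (.s k1 k2 0 (.s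
  k169 k253 13 (.s k252 k86 14 (.s k172 k92 11 (.s k166 k163 2 (.d k4 k8 k247 1 12)))))), (.s k4 k8
  1 (.s k166 k247 12 (.s k243 k89 14 (.s k163 k83 11 (.s k169 k172 2 (.s k86 k252 14 (.d k6 k9 k246
  2 11))))))), (.s k1 k2 0 (.s k9 k6 2 (.s k169 k253 13 (.s k89 k249 11 (.s k81 k93 1 (.d k243 k162
  k166 12 14))))))] .n)

def s11_255_197 : T TT 256 :=
  (.q k12 [(.s k2 k1 0 (.s k4 k8 1 (.s k6 k9 2 (.s k10 k14 1 (.d k5 k7 k15 0 2))))), (.s k1 k2 0 (.s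
  k169 k253 13 (.s k252 k86 14 (.s k172 k92 11 (.s k166 k163 2 (.d k4 k8 k247 1 12)))))), (.s k4 k8
  1 (.s k166 k247 12 (.s k243 k89 14 (.s k163 k83 11 (.s k169 k172 2 (.s k86 k252 14 (.d k6 k9 k246
  2 11))))))), (.s k1 k2 0 (.s k9 k6 2 (.s k169 k253 13 (.s k89 k249 11 (.s k81 k93 1 (.d k243 k162
  k166 12 14))))))] .n)

def s11_255_198 : T TT 256 :=
  (.q k12 [(.s k2 k1 0 (.s k4 k8 1 (.s k6 k9 2 (.s k10 k14 1 (.d k5 k7 k15 0 2))))), (.s k1 k2 0 (.s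
  k169 k253 13 (.s k252 k86 14 (.s k172 k92 11 (.s k166 k163 2 (.d k4 k8 k247 1 12)))))), (.s k4 k8
  1 (.s k166 k247 12 (.s k243 k89 14 (.s k163 k83 11 (.s k169 k172 2 (.s k86 k252 14 (.d k6 k9 k246
  2 11))))))), (.s k1 k2 0 (.s k9 k6 2 (.s k169 k253 13 (.s k89 k249 11 (.s k81 k93 1 (.d k243 k162
  k166 12 14))))))] .n)

def s11_255_199 : T TT 256 :=
  (.q k12 [(.s k2 k1 0 (.s k4 k8 1 (.s k6 k9 2 (.s k10 k14 1 (.d k5 k7 k15 0 2))))), (.s k1 k2 0 (.s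
  k169 k253 13 (.s k252 k86 14 (.s k172 k92 11 (.s k166 k163 2 (.d k4 k8 k247 1 12)))))), (.s k4 k8
  1 (.s k166 k247 12 (.s k243 k89 14 (.s k163 k83 11 (.s k169 k172 2 (.s k86 k252 14 (.d k6 k9 k246
  2 11))))))), (.s k1 k2 0 (.s k9 k6 2 (.s k169 k253 13 (.s k89 k249 11 (.s k81 k93 1 (.d k243 k162
  k166 12 14))))))] .n)

def s11_255_200 : T TT 256 :=
  (.f k1 k2 0 (.q k137 [(.s k69 k205 9 (.s k70 k204 10 (.s k71 k68 0 (.d k207 k139 k138 9 10)))),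
  (.s k169 k253 13 (.s k153 k185 3 (.s k205 k69 9 (.s k49 k101 13 (.d k17 k33 k221 3 9))))), (.s
  k169 k253 13 (.s k153 k185 3 (.s k204 k70 10 (.s k51 k102 14 (.d k17 k34 k221 4 9)))))] (.c k221
  (.l (.s k69 k205 9 (.s k138 k207 10 (.s k136 k139 0 (.d k204 k68 k70 9 10))))) .n)))

def s11_255_201 : T TT 256 :=
  (.q k12 [(.s k2 k1 0 (.s k4 k8 1 (.s k6 k9 2 (.s k10 k14 1 (.d k5 k7 k15 0 2))))), (.s k1 k2 0 (.s
  k169 k253 13 (.s k252 k86 14 (.s k172 k92 11 (.s k166 k163 2 (.d k4 k8 k247 1 12)))))), (.s k4 k8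
  1 (.s k166 k247 12 (.s k243 k89 14 (.s k163 k83 11 (.s k169 k172 2 (.s k86 k252 14 (.d k6 k9 k246
  2 11))))))), (.s k1 k2 0 (.s k9 k6 2 (.s k169 k253 13 (.s k89 k249 11 (.s k81 k93 1 (.d k243 k162
  k166 12 14))))))] .n)

def s11_255_202 : T TT 256 :=
  (.q k12 [(.s k2 k1 0 (.s k4 k8 1 (.s k6 k9 2 (.s k10 k14 1 (.d k5 k7 k15 0 2))))), (.s k1 k2 0 (.s
  k169 k253 13 (.s k252 k86 14 (.s k172 k92 11 (.s k166 k163 2 (.d k4 k8 k247 1 12)))))), (.s k4 k8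
  1 (.s k166 k247 12 (.s k243 k89 14 (.s k163 k83 11 (.s k169 k172 2 (.s k86 k252 14 (.d k6 k9 k246
  2 11))))))), (.s k1 k2 0 (.s k9 k6 2 (.s k169 k253 13 (.s k89 k249 11 (.s k81 k93 1 (.d k243 k162
  k166 12 14))))))] .n)

def s11_255_203 : T TT 256 :=
  (.f k1 k2 0 (.q k139 [(.s k169 k253 13 (.s k154 k184 4 (.s k16 k223 10 (.s k48 k32 3 (.d k207 k71
  k101 9 14))))), (.s k207 k71 9 (.s k69 k138 10 (.s k101 k117 3 (.s k48 k154 14 (.s k33 k18 4 (.s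
  k49 k17 3 (.d k205 k137 k153 9 13))))))), (.s k169 k253 13 (.s k184 k154 4 (.s k252 k86 14 (.s
  k168 k84 13 (.s k136 k152 3 (.s k137 k138 0 (.d k204 k70 k68 10 9))))))), (.s k169 k253 13 (.s
  k207 k71 9 (.s k69 k138 10 (.s k101 k117 3 (.s k237 k33 9 (.d k252 k222 k86 4 14))))))] .n))

def s11_255_204 : T TT 256 :=
  (.f k1 k2 0 (.q k17 [(.s k33 k49 3 (.s k18 k48 4 (.s k19 k16 0 (.d k51 k35 k34 3 4)))), (.s k49
  k33 3 (.s k253 k169 13 (.s k117 k185 9 (.s k101 k69 3 (.d k153 k221 k205 9 13))))), (.s k51 k34 4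
  (.s k169 k253 13 (.s k252 k86 14 (.s k185 k118 10 (.d k153 k221 k137 9 3)))))] (.c k221 (.q k238
  [(.s k33 k49 3 (.s k18 k48 4 (.s k19 k16 0 (.d k51 k35 k34 3 4)))), (.s k34 k51 4 (.s k169 k253 13
  (.s k252 k86 14 (.s k168 k84 13 (.d k170 k102 k171 9 0)))))] (.c k34 (.l (.s k33 k49 3 (.s k18 k48
  4 (.s k16 k19 0 (.s k154 k223 10 (.s k169 k253 13 (.d k86 k222 k252 9 14))))))) (.c k51 (.l (.s
  k33 k49 3 (.s k48 k18 4 (.s k16 k32 3 (.s k154 k223 10 (.s k169 k253 13 (.d k101 k237 k207 9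
  14))))))) .n))) (.c k238 (.l (.s k221 k153 9 (.s k33 k49 3 (.s k18 k48 4 (.s k19 k16 0 (.d k51 k35
  k34 3 4)))))) .n))))

def s11_255_205 : T TT 256 :=
  (.q k12 [(.s k2 k1 0 (.s k4 k8 1 (.s k6 k9 2 (.s k10 k14 1 (.d k5 k7 k15 0 2))))), (.s k1 k2 0 (.s
  k169 k253 13 (.s k252 k86 14 (.s k172 k92 11 (.s k166 k163 2 (.d k4 k8 k247 1 12)))))), (.s k4 k8
  1 (.s k166 k247 12 (.s k243 k89 14 (.s k163 k83 11 (.s k169 k172 2 (.s k86 k252 14 (.d k6 k9 k246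
  2 11))))))), (.s k1 k2 0 (.s k9 k6 2 (.s k169 k253 13 (.s k89 k249 11 (.s k81 k93 1 (.d k243 k162
  k166 12 14))))))] .n)

def s11_255_206 : T TT 256 :=
  (.q k12 [(.s k2 k1 0 (.s k4 k8 1 (.s k6 k9 2 (.s k10 k14 1 (.d k5 k7 k15 0 2))))), (.s k1 k2 0 (.s
  k169 k253 13 (.s k252 k86 14 (.s k172 k92 11 (.s k166 k163 2 (.d k4 k8 k247 1 12)))))), (.s k4 k8
  1 (.s k166 k247 12 (.s k243 k89 14 (.s k163 k83 11 (.s k169 k172 2 (.s k86 k252 14 (.d k6 k9 k246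
  2 11))))))), (.s k1 k2 0 (.s k9 k6 2 (.s k169 k253 13 (.s k89 k249 11 (.s k81 k93 1 (.d k243 k162
  k166 12 14))))))] .n)

def s11_255_207 : T TT 256 :=
  (.f k1 k2 0 (.q k60 [(.s k40 k20 5 (.s k41 k22 6 (.s k21 k61 5 (.d k42 k43 k63 0 6)))), (.s k20
  k40 5 (.s k150 k215 8 (.s k169 k253 13 (.s k131 k188 6 (.d k195 k67 k105 7 14))))), (.s k41 k22 6
  (.s k169 k253 13 (.s k105 k233 7 (.s k65 k125 5 (.d k195 k130 k150 8 14)))))] (.c k223 (.q k239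
  [(.s k40 k20 5 (.s k41 k22 6 (.s k21 k61 5 (.d k42 k43 k63 0 6)))), (.s k20 k40 5 (.s k150 k215 8
  (.s k169 k253 13 (.s k131 k188 6 (.d k195 k67 k105 7 14))))), (.s k41 k22 6 (.s k169 k253 13 (.s
  k105 k233 7 (.s k65 k125 5 (.d k195 k130 k150 8 14)))))] .n) (.c k239 (.q k223 [(.s k40 k20 5 (.s
  k41 k22 6 (.s k21 k61 5 (.d k42 k43 k63 0 6)))), (.s k20 k40 5 (.s k150 k215 8 (.s k169 k253 13
  (.s k131 k188 6 (.d k195 k67 k105 7 14))))), (.s k41 k22 6 (.s k169 k253 13 (.s k105 k233 7 (.s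
  k65 k125 5 (.d k195 k130 k150 8 14)))))] .n) .n))))

def s11_255_208 : T TT 256 :=
  (.q k12 [(.s k2 k1 0 (.s k4 k8 1 (.s k6 k9 2 (.s k10 k14 1 (.d k5 k7 k15 0 2))))), (.s k1 k2 0 (.s
  k169 k253 13 (.s k252 k86 14 (.s k172 k92 11 (.s k166 k163 2 (.d k4 k8 k247 1 12)))))), (.s k4 k8
  1 (.s k166 k247 12 (.s k243 k89 14 (.s k163 k83 11 (.s k169 k172 2 (.s k86 k252 14 (.d k6 k9 k246
  2 11))))))), (.s k1 k2 0 (.s k9 k6 2 (.s k169 k253 13 (.s k89 k249 11 (.s k81 k93 1 (.d k243 k162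
  k166 12 14))))))] .n)

def s11_255_209 : T TT 256 :=
  (.q k12 [(.s k2 k1 0 (.s k4 k8 1 (.s k6 k9 2 (.s k10 k14 1 (.d k5 k7 k15 0 2))))), (.s k1 k2 0 (.s
  k169 k253 13 (.s k252 k86 14 (.s k172 k92 11 (.s k166 k163 2 (.d k4 k8 k247 1 12)))))), (.s k4 k8
  1 (.s k166 k247 12 (.s k243 k89 14 (.s k163 k83 11 (.s k169 k172 2 (.s k86 k252 14 (.d k6 k9 k246
  2 11))))))), (.s k1 k2 0 (.s k9 k6 2 (.s k169 k253 13 (.s k89 k249 11 (.s k81 k93 1 (.d k243 k162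
  k166 12 14))))))] .n)

def s11_255_210 : T TT 256 :=
  (.q k12 [(.s k2 k1 0 (.s k4 k8 1 (.s k6 k9 2 (.s k10 k14 1 (.d k5 k7 k15 0 2))))), (.s k1 k2 0 (.s
  k169 k253 13 (.s k252 k86 14 (.s k172 k92 11 (.s k166 k163 2 (.d k4 k8 k247 1 12)))))), (.s k4 k8
  1 (.s k166 k247 12 (.s k243 k89 14 (.s k163 k83 11 (.s k169 k172 2 (.s k86 k252 14 (.d k6 k9 k246
  2 11))))))), (.s k1 k2 0 (.s k9 k6 2 (.s k169 k253 13 (.s k89 k249 11 (.s k81 k93 1 (.d k243 k162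
  k166 12 14))))))] .n)

def s11_255_211 : T TT 256 :=
  (.q k12 [(.s k2 k1 0 (.s k4 k8 1 (.s k6 k9 2 (.s k10 k14 1 (.d k5 k7 k15 0 2))))), (.s k1 k2 0 (.s
  k169 k253 13 (.s k252 k86 14 (.s k172 k92 11 (.s k166 k163 2 (.d k4 k8 k247 1 12)))))), (.s k4 k8
  1 (.s k166 k247 12 (.s k243 k89 14 (.s k163 k83 11 (.s k169 k172 2 (.s k86 k252 14 (.d k6 k9 k246
  2 11))))))), (.s k1 k2 0 (.s k9 k6 2 (.s k169 k253 13 (.s k89 k249 11 (.s k81 k93 1 (.d k243 k162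
  k166 12 14))))))] .n)

def s11_255_212 : T TT 256 :=
  (.q k12 [(.s k2 k1 0 (.s k4 k8 1 (.s k6 k9 2 (.s k10 k14 1 (.d k5 k7 k15 0 2))))), (.s k1 k2 0 (.s
  k169 k253 13 (.s k252 k86 14 (.s k172 k92 11 (.s k166 k163 2 (.d k4 k8 k247 1 12)))))), (.s k4 k8
  1 (.s k166 k247 12 (.s k243 k89 14 (.s k163 k83 11 (.s k169 k172 2 (.s k86 k252 14 (.d k6 k9 k246
  2 11))))))), (.s k1 k2 0 (.s k9 k6 2 (.s k169 k253 13 (.s k89 k249 11 (.s k81 k93 1 (.d k243 k162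
  k166 12 14))))))] .n)

def s11_255_213 : T TT 256 :=
  (.q k192 [(.s k2 k1 0 (.s k64 k128 7 (.s k66 k129 8 (.s k130 k194 7 (.d k65 k67 k195 0 8))))), (.s
  k1 k2 0 (.s k64 k128 7 (.s k106 k127 6 (.s k63 k149 14 (.s k43 k23 5 (.d k169 k232 k253 8
  13)))))), (.s k64 k128 7 (.s k66 k129 8 (.s k106 k127 6 (.s k86 k126 5 (.s k84 k87 0 (.d k252 k168
  k169 13 14)))))), (.s k1 k2 0 (.s k129 k66 8 (.s k169 k253 13 (.s k149 k189 5 (.s k63 k106 14 (.s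
  k23 k43 5 (.d k86 k252 k212 14 8)))))))] .n)

def s11_255_214 : T TT 256 :=
  (.q k12 [(.s k2 k1 0 (.s k4 k8 1 (.s k6 k9 2 (.s k10 k14 1 (.d k5 k7 k15 0 2))))), (.s k1 k2 0 (.s
  k169 k253 13 (.s k252 k86 14 (.s k172 k92 11 (.s k166 k163 2 (.d k4 k8 k247 1 12)))))), (.s k4 k8
  1 (.s k166 k247 12 (.s k243 k89 14 (.s k163 k83 11 (.s k169 k172 2 (.s k86 k252 14 (.d k6 k9 k246
  2 11))))))), (.s k1 k2 0 (.s k9 k6 2 (.s k169 k253 13 (.s k89 k249 11 (.s k81 k93 1 (.d k243 k162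
  k166 12 14))))))] .n)

def s11_255_215 : T TT 256 :=
  (.q k195 [(.s k1 k2 0 (.s k65 k130 8 (.s k67 k131 7 (.s k66 k64 0 (.d k129 k193 k192 7 8))))), (.s
  k1 k2 0 (.s k131 k67 7 (.s k169 k253 13 (.s k150 k188 6 (.s k60 k105 14 (.s k22 k41 6 (.d k86 k252
  k214 14 7))))))), (.s k65 k130 8 (.s k67 k131 7 (.s k105 k125 5 (.s k86 k124 6 (.s k84 k87 0 (.d
  k252 k168 k169 13 14)))))), (.s k1 k2 0 (.s k65 k130 8 (.s k105 k125 5 (.s k60 k150 14 (.s k41 k22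
  6 (.d k169 k233 k253 7 13))))))] .n)

def s11_255_216 : T TT 256 :=
  (.q k12 [(.s k2 k1 0 (.s k4 k8 1 (.s k6 k9 2 (.s k10 k14 1 (.d k5 k7 k15 0 2))))), (.s k1 k2 0 (.s
  k169 k253 13 (.s k252 k86 14 (.s k172 k92 11 (.s k166 k163 2 (.d k4 k8 k247 1 12)))))), (.s k4 k8
  1 (.s k166 k247 12 (.s k243 k89 14 (.s k163 k83 11 (.s k169 k172 2 (.s k86 k252 14 (.d k6 k9 k246
  2 11))))))), (.s k1 k2 0 (.s k9 k6 2 (.s k169 k253 13 (.s k89 k249 11 (.s k81 k93 1 (.d k243 k162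
  k166 12 14))))))] .n)

def s11_255_217 : T TT 256 :=
  (.q k12 [(.s k2 k1 0 (.s k4 k8 1 (.s k6 k9 2 (.s k10 k14 1 (.d k5 k7 k15 0 2))))), (.s k1 k2 0 (.s
  k169 k253 13 (.s k252 k86 14 (.s k172 k92 11 (.s k166 k163 2 (.d k4 k8 k247 1 12)))))), (.s k4 k8
  1 (.s k166 k247 12 (.s k243 k89 14 (.s k163 k83 11 (.s k169 k172 2 (.s k86 k252 14 (.d k6 k9 k246
  2 11))))))), (.s k1 k2 0 (.s k9 k6 2 (.s k169 k253 13 (.s k89 k249 11 (.s k81 k93 1 (.d k243 k162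
  k166 12 14))))))] .n)

def s11_255_218 : T TT 256 :=
  (.q k12 [(.s k2 k1 0 (.s k4 k8 1 (.s k6 k9 2 (.s k10 k14 1 (.d k5 k7 k15 0 2))))), (.s k1 k2 0 (.s
  k169 k253 13 (.s k252 k86 14 (.s k172 k92 11 (.s k166 k163 2 (.d k4 k8 k247 1 12)))))), (.s k4 k8
  1 (.s k166 k247 12 (.s k243 k89 14 (.s k163 k83 11 (.s k169 k172 2 (.s k86 k252 14 (.d k6 k9 k246
  2 11))))))), (.s k1 k2 0 (.s k9 k6 2 (.s k169 k253 13 (.s k89 k249 11 (.s k81 k93 1 (.d k243 k162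
  k166 12 14))))))] .n)

def s11_255_219 : T TT 256 :=
  (.q k12 [(.s k2 k1 0 (.s k4 k8 1 (.s k6 k9 2 (.s k10 k14 1 (.d k5 k7 k15 0 2))))), (.s k1 k2 0 (.s
  k169 k253 13 (.s k252 k86 14 (.s k172 k92 11 (.s k166 k163 2 (.d k4 k8 k247 1 12)))))), (.s k4 k8
  1 (.s k166 k247 12 (.s k243 k89 14 (.s k163 k83 11 (.s k169 k172 2 (.s k86 k252 14 (.d k6 k9 k246
  2 11))))))), (.s k1 k2 0 (.s k9 k6 2 (.s k169 k253 13 (.s k89 k249 11 (.s k81 k93 1 (.d k243 k162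
  k166 12 14))))))] .n)

def s11_255_220 : T TT 256 :=
  (.q k12 [(.s k2 k1 0 (.s k4 k8 1 (.s k6 k9 2 (.s k10 k14 1 (.d k5 k7 k15 0 2))))), (.s k1 k2 0 (.s
  k169 k253 13 (.s k252 k86 14 (.s k172 k92 11 (.s k166 k163 2 (.d k4 k8 k247 1 12)))))), (.s k4 k8
  1 (.s k166 k247 12 (.s k243 k89 14 (.s k163 k83 11 (.s k169 k172 2 (.s k86 k252 14 (.d k6 k9 k246
  2 11))))))), (.s k1 k2 0 (.s k9 k6 2 (.s k169 k253 13 (.s k89 k249 11 (.s k81 k93 1 (.d k243 k162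
  k166 12 14))))))] .n)

def s11_255_221 : T TT 256 :=
  (.q k204 [(.s k1 k2 0 (.s k136 k68 9 (.s k137 k70 10 (.s k69 k205 9 (.d k138 k139 k207 0 10))))),
  (.s k1 k2 0 (.s k68 k136 9 (.s k102 k119 4 (.s k51 k153 14 (.s k35 k19 3 (.d k169 k236 k253 10
  13)))))), (.s k68 k136 9 (.s k70 k137 10 (.s k102 k119 4 (.s k86 k118 3 (.s k84 k87 0 (.d k252
  k168 k169 13 14)))))), (.s k1 k2 0 (.s k137 k70 10 (.s k169 k253 13 (.s k153 k185 3 (.s k51 k102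
  14 (.s k19 k35 3 (.d k86 k252 k220 14 10)))))))] .n)

def s11_255_222 : T TT 256 :=
  (.q k12 [(.s k2 k1 0 (.s k4 k8 1 (.s k6 k9 2 (.s k10 k14 1 (.d k5 k7 k15 0 2))))), (.s k1 k2 0 (.s
  k169 k253 13 (.s k252 k86 14 (.s k172 k92 11 (.s k166 k163 2 (.d k4 k8 k247 1 12)))))), (.s k4 k8
  1 (.s k166 k247 12 (.s k243 k89 14 (.s k163 k83 11 (.s k169 k172 2 (.s k86 k252 14 (.d k6 k9 k246
  2 11))))))), (.s k1 k2 0 (.s k9 k6 2 (.s k169 k253 13 (.s k89 k249 11 (.s k81 k93 1 (.d k243 k162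
  k166 12 14))))))] .n)

def s11_255_223 : T TT 256 :=
  (.q k207 [(.s k2 k1 0 (.s k139 k71 9 (.s k138 k69 10 (.s k137 k136 0 (.d k70 k206 k204 9 10))))),
  (.s k1 k2 0 (.s k139 k71 9 (.s k169 k253 13 (.s k154 k184 4 (.s k48 k101 14 (.s k18 k33 4 (.d k86
  k252 k222 14 9))))))), (.s k69 k138 10 (.s k71 k139 9 (.s k101 k117 3 (.s k86 k116 4 (.s k84 k87 0
  (.d k252 k168 k169 13 14)))))), (.s k1 k2 0 (.s k69 k138 10 (.s k101 k117 3 (.s k48 k154 14 (.s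
  k33 k18 4 (.d k169 k237 k253 9 13))))))] .n)

def s11_255_224 : T TT 256 :=
  (.q k12 [(.s k2 k1 0 (.s k4 k8 1 (.s k6 k9 2 (.s k10 k14 1 (.d k5 k7 k15 0 2))))), (.s k1 k2 0 (.s
  k169 k253 13 (.s k252 k86 14 (.s k172 k92 11 (.s k166 k163 2 (.d k4 k8 k247 1 12)))))), (.s k4 k8
  1 (.s k166 k247 12 (.s k243 k89 14 (.s k163 k83 11 (.s k169 k172 2 (.s k86 k252 14 (.d k6 k9 k246
  2 11))))))), (.s k1 k2 0 (.s k9 k6 2 (.s k169 k253 13 (.s k89 k249 11 (.s k81 k93 1 (.d k243 k162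
  k166 12 14))))))] .n)

def s11_255_225 : T TT 256 :=
  (.q k12 [(.s k2 k1 0 (.s k4 k8 1 (.s k6 k9 2 (.s k10 k14 1 (.d k5 k7 k15 0 2))))), (.s k1 k2 0 (.s
  k169 k253 13 (.s k252 k86 14 (.s k172 k92 11 (.s k166 k163 2 (.d k4 k8 k247 1 12)))))), (.s k4 k8
  1 (.s k166 k247 12 (.s k243 k89 14 (.s k163 k83 11 (.s k169 k172 2 (.s k86 k252 14 (.d k6 k9 k246
  2 11))))))), (.s k1 k2 0 (.s k9 k6 2 (.s k169 k253 13 (.s k89 k249 11 (.s k81 k93 1 (.d k243 k162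
  k166 12 14))))))] .n)

def s11_255_226 : T TT 256 :=
  (.q k12 [(.s k2 k1 0 (.s k4 k8 1 (.s k6 k9 2 (.s k10 k14 1 (.d k5 k7 k15 0 2))))), (.s k1 k2 0 (.s
  k169 k253 13 (.s k252 k86 14 (.s k172 k92 11 (.s k166 k163 2 (.d k4 k8 k247 1 12)))))), (.s k4 k8
  1 (.s k166 k247 12 (.s k243 k89 14 (.s k163 k83 11 (.s k169 k172 2 (.s k86 k252 14 (.d k6 k9 k246
  2 11))))))), (.s k1 k2 0 (.s k9 k6 2 (.s k169 k253 13 (.s k89 k249 11 (.s k81 k93 1 (.d k243 k162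
  k166 12 14))))))] .n)

def s11_255_227 : T TT 256 :=
  (.q k12 [(.s k2 k1 0 (.s k4 k8 1 (.s k6 k9 2 (.s k10 k14 1 (.d k5 k7 k15 0 2))))), (.s k1 k2 0 (.s
  k169 k253 13 (.s k252 k86 14 (.s k172 k92 11 (.s k166 k163 2 (.d k4 k8 k247 1 12)))))), (.s k4 k8
  1 (.s k166 k247 12 (.s k243 k89 14 (.s k163 k83 11 (.s k169 k172 2 (.s k86 k252 14 (.d k6 k9 k246
  2 11))))))), (.s k1 k2 0 (.s k9 k6 2 (.s k169 k253 13 (.s k89 k249 11 (.s k81 k93 1 (.d k243 k162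
  k166 12 14))))))] .n)

def s11_255_228 : T TT 256 :=
  (.q k12 [(.s k2 k1 0 (.s k4 k8 1 (.s k6 k9 2 (.s k10 k14 1 (.d k5 k7 k15 0 2))))), (.s k1 k2 0 (.s
  k169 k253 13 (.s k252 k86 14 (.s k172 k92 11 (.s k166 k163 2 (.d k4 k8 k247 1 12)))))), (.s k4 k8
  1 (.s k166 k247 12 (.s k243 k89 14 (.s k163 k83 11 (.s k169 k172 2 (.s k86 k252 14 (.d k6 k9 k246
  2 11))))))), (.s k1 k2 0 (.s k9 k6 2 (.s k169 k253 13 (.s k89 k249 11 (.s k81 k93 1 (.d k243 k162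
  k166 12 14))))))] .n)

def s11_255_229 : T TT 256 :=
  (.q k12 [(.s k2 k1 0 (.s k4 k8 1 (.s k6 k9 2 (.s k10 k14 1 (.d k5 k7 k15 0 2))))), (.s k1 k2 0 (.s
  k169 k253 13 (.s k252 k86 14 (.s k172 k92 11 (.s k166 k163 2 (.d k4 k8 k247 1 12)))))), (.s k4 k8
  1 (.s k166 k247 12 (.s k243 k89 14 (.s k163 k83 11 (.s k169 k172 2 (.s k86 k252 14 (.d k6 k9 k246
  2 11))))))), (.s k1 k2 0 (.s k9 k6 2 (.s k169 k253 13 (.s k89 k249 11 (.s k81 k93 1 (.d k243 k162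
  k166 12 14))))))] .n)

def s11_255_230 : T TT 256 :=
  (.q k12 [(.s k2 k1 0 (.s k4 k8 1 (.s k6 k9 2 (.s k10 k14 1 (.d k5 k7 k15 0 2))))), (.s k1 k2 0 (.s
  k169 k253 13 (.s k252 k86 14 (.s k172 k92 11 (.s k166 k163 2 (.d k4 k8 k247 1 12)))))), (.s k4 k8
  1 (.s k166 k247 12 (.s k243 k89 14 (.s k163 k83 11 (.s k169 k172 2 (.s k86 k252 14 (.d k6 k9 k246
  2 11))))))), (.s k1 k2 0 (.s k9 k6 2 (.s k169 k253 13 (.s k89 k249 11 (.s k81 k93 1 (.d k243 k162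
  k166 12 14))))))] .n)

def s11_255_231 : T TT 256 :=
  (.q k12 [(.s k2 k1 0 (.s k4 k8 1 (.s k6 k9 2 (.s k10 k14 1 (.d k5 k7 k15 0 2))))), (.s k1 k2 0 (.s
  k169 k253 13 (.s k252 k86 14 (.s k172 k92 11 (.s k166 k163 2 (.d k4 k8 k247 1 12)))))), (.s k4 k8
  1 (.s k166 k247 12 (.s k243 k89 14 (.s k163 k83 11 (.s k169 k172 2 (.s k86 k252 14 (.d k6 k9 k246
  2 11))))))), (.s k1 k2 0 (.s k9 k6 2 (.s k169 k253 13 (.s k89 k249 11 (.s k81 k93 1 (.d k243 k162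
  k166 12 14))))))] .n)

def s11_255_232 : T TT 256 :=
  (.q k12 [(.s k2 k1 0 (.s k4 k8 1 (.s k6 k9 2 (.s k10 k14 1 (.d k5 k7 k15 0 2))))), (.s k1 k2 0 (.s
  k169 k253 13 (.s k252 k86 14 (.s k172 k92 11 (.s k166 k163 2 (.d k4 k8 k247 1 12)))))), (.s k4 k8
  1 (.s k166 k247 12 (.s k243 k89 14 (.s k163 k83 11 (.s k169 k172 2 (.s k86 k252 14 (.d k6 k9 k246
  2 11))))))), (.s k1 k2 0 (.s k9 k6 2 (.s k169 k253 13 (.s k89 k249 11 (.s k81 k93 1 (.d k243 k162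
  k166 12 14))))))] .n)

def s11_255_233 : T TT 256 :=
  (.q k12 [(.s k2 k1 0 (.s k4 k8 1 (.s k6 k9 2 (.s k10 k14 1 (.d k5 k7 k15 0 2))))), (.s k1 k2 0 (.s
  k169 k253 13 (.s k252 k86 14 (.s k172 k92 11 (.s k166 k163 2 (.d k4 k8 k247 1 12)))))), (.s k4 k8
  1 (.s k166 k247 12 (.s k243 k89 14 (.s k163 k83 11 (.s k169 k172 2 (.s k86 k252 14 (.d k6 k9 k246
  2 11))))))), (.s k1 k2 0 (.s k9 k6 2 (.s k169 k253 13 (.s k89 k249 11 (.s k81 k93 1 (.d k243 k162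
  k166 12 14))))))] .n)

def s11_255_234 : T TT 256 :=
  (.q k192 [(.s k1 k2 0 (.s k128 k64 7 (.s k129 k66 8 (.s k65 k193 7 (.d k130 k131 k195 0 8))))),
  (.s k1 k2 0 (.s k64 k128 7 (.s k106 k127 6 (.s k63 k149 14 (.s k43 k23 5 (.d k169 k232 k253 8
  13)))))), (.s k64 k128 7 (.s k66 k129 8 (.s k106 k127 6 (.s k86 k126 5 (.s k84 k87 0 (.d k252 k168
  k169 13 14)))))), (.s k1 k2 0 (.s k129 k66 8 (.s k169 k253 13 (.s k149 k189 5 (.s k21 k213 7 (.d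
  k63 k42 k106 6 14))))))] .n)

def s11_255_235 : T TT 256 :=
  (.q k195 [(.s k1 k2 0 (.s k65 k130 8 (.s k67 k131 7 (.s k66 k64 0 (.d k129 k193 k192 7 8))))), (.s
  k1 k2 0 (.s k131 k67 7 (.s k169 k253 13 (.s k150 k188 6 (.s k20 k215 8 (.d k60 k40 k105 5
  14)))))), (.s k65 k130 8 (.s k67 k131 7 (.s k105 k125 5 (.s k86 k124 6 (.s k84 k87 0 (.d k252 k168
  k169 13 14)))))), (.s k1 k2 0 (.s k65 k130 8 (.s k105 k125 5 (.s k60 k150 14 (.s k41 k22 6 (.d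
  k169 k233 k253 7 13))))))] .n)

def s11_255_236 : T TT 256 :=
  (.q k12 [(.s k2 k1 0 (.s k4 k8 1 (.s k6 k9 2 (.s k10 k14 1 (.d k5 k7 k15 0 2))))), (.s k1 k2 0 (.s
  k169 k253 13 (.s k252 k86 14 (.s k172 k92 11 (.s k166 k163 2 (.d k4 k8 k247 1 12)))))), (.s k4 k8
  1 (.s k166 k247 12 (.s k243 k89 14 (.s k163 k83 11 (.s k169 k172 2 (.s k86 k252 14 (.d k6 k9 k246
  2 11))))))), (.s k1 k2 0 (.s k9 k6 2 (.s k169 k253 13 (.s k89 k249 11 (.s k81 k93 1 (.d k243 k162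
  k166 12 14))))))] .n)

def s11_255_237 : T TT 256 :=
  (.q k12 [(.s k2 k1 0 (.s k4 k8 1 (.s k6 k9 2 (.s k10 k14 1 (.d k5 k7 k15 0 2))))), (.s k1 k2 0 (.s
  k169 k253 13 (.s k252 k86 14 (.s k172 k92 11 (.s k166 k163 2 (.d k4 k8 k247 1 12)))))), (.s k4 k8
  1 (.s k166 k247 12 (.s k243 k89 14 (.s k163 k83 11 (.s k169 k172 2 (.s k86 k252 14 (.d k6 k9 k246
  2 11))))))), (.s k1 k2 0 (.s k9 k6 2 (.s k169 k253 13 (.s k89 k249 11 (.s k81 k93 1 (.d k243 k162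
  k166 12 14))))))] .n)

def s11_255_238 : T TT 256 :=
  (.q k204 [(.s k1 k2 0 (.s k136 k68 9 (.s k137 k70 10 (.s k69 k205 9 (.d k138 k139 k207 0 10))))),
  (.s k1 k2 0 (.s k68 k136 9 (.s k102 k119 4 (.s k51 k153 14 (.s k35 k19 3 (.d k169 k236 k253 10
  13)))))), (.s k68 k136 9 (.s k70 k137 10 (.s k102 k119 4 (.s k86 k118 3 (.s k84 k87 0 (.d k252
  k168 k169 13 14)))))), (.s k1 k2 0 (.s k137 k70 10 (.s k169 k253 13 (.s k153 k185 3 (.s k17 k221 9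
  (.d k51 k34 k102 4 14))))))] .n)

def s11_255_239 : T TT 256 :=
  (.q k207 [(.s k2 k1 0 (.s k139 k71 9 (.s k138 k69 10 (.s k137 k136 0 (.d k70 k206 k204 9 10))))),
  (.s k1 k2 0 (.s k139 k71 9 (.s k169 k253 13 (.s k154 k184 4 (.s k16 k223 10 (.d k48 k32 k101 3
  14)))))), (.s k69 k138 10 (.s k71 k139 9 (.s k101 k117 3 (.s k86 k116 4 (.s k84 k87 0 (.d k252
  k168 k169 13 14)))))), (.s k1 k2 0 (.s k69 k138 10 (.s k101 k117 3 (.s k48 k154 14 (.s k33 k18 4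
  (.d k169 k237 k253 9 13))))))] .n)

def s11_255_240 : T TT 256 :=
  (.f k1 k2 0 (.q k131 [(.s k169 k253 13 (.s k150 k188 6 (.s k20 k215 8 (.s k60 k40 5 (.d k195 k67
  k105 7 14))))), (.s k195 k67 7 (.s k65 k130 8 (.s k105 k125 5 (.s k60 k150 14 (.s k41 k22 6 (.s
  k61 k21 5 (.d k193 k129 k149 7 13))))))), (.s k169 k253 13 (.s k188 k150 6 (.s k252 k86 14 (.s
  k168 k84 13 (.s k128 k148 5 (.s k129 k130 0 (.d k192 k66 k64 8 7))))))), (.s k169 k253 13 (.s k195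
  k67 7 (.s k65 k130 8 (.s k105 k125 5 (.s k233 k41 7 (.d k252 k214 k86 6 14))))))] (.c k245 (.q
  k250 [(.s k169 k253 13 (.s k150 k188 6 (.s k20 k215 8 (.s k60 k40 5 (.d k195 k67 k105 7 14))))),
  (.s k195 k67 7 (.s k65 k130 8 (.s k105 k125 5 (.s k60 k150 14 (.s k41 k22 6 (.s k61 k21 5 (.d k193
  k129 k149 7 13))))))), (.s k169 k253 13 (.s k188 k150 6 (.s k252 k86 14 (.s k168 k84 13 (.s k128
  k148 5 (.s k129 k130 0 (.d k192 k66 k64 8 7))))))), (.s k169 k253 13 (.s k195 k67 7 (.s k65 k130 8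
  (.s k105 k125 5 (.s k233 k41 7 (.d k252 k214 k86 6 14))))))] .n) (.c k250 (.q k245 [(.s k169 k253
  13 (.s k150 k188 6 (.s k20 k215 8 (.s k60 k40 5 (.d k195 k67 k105 7 14))))), (.s k165 k5 11 (.s
  k253 k169 13 (.s k241 k249 1 (.s k81 k161 11 (.d k89 k93 k13 1 13))))), (.s k195 k67 7 (.s k65
  k130 8 (.s k105 k125 5 (.s k60 k150 14 (.s k41 k22 6 (.s k61 k21 5 (.d k193 k129 k149 7 13)))))))]
  .n) .n))))

def s11_255_241 : T TT 256 :=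
  (.q k12 [(.s k2 k1 0 (.s k4 k8 1 (.s k6 k9 2 (.s k10 k14 1 (.d k5 k7 k15 0 2))))), (.s k1 k2 0 (.s
  k169 k253 13 (.s k252 k86 14 (.s k172 k92 11 (.s k166 k163 2 (.d k4 k8 k247 1 12)))))), (.s k4 k8
  1 (.s k166 k247 12 (.s k243 k89 14 (.s k163 k83 11 (.s k169 k172 2 (.s k86 k252 14 (.d k6 k9 k246
  2 11))))))), (.s k1 k2 0 (.s k9 k6 2 (.s k169 k253 13 (.s k252 k86 14 (.s k172 k92 11 (.s k166
  k163 2 (.d k89 k249 k243 11 14)))))))] .n)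

def s11_255_242 : T TT 256 :=
  (.q k12 [(.s k2 k1 0 (.s k4 k8 1 (.s k6 k9 2 (.s k10 k14 1 (.d k5 k7 k15 0 2))))), (.s k1 k2 0 (.s
  k169 k253 13 (.s k252 k86 14 (.s k172 k92 11 (.s k166 k163 2 (.d k4 k8 k247 1 12)))))), (.s k4 k8
  1 (.s k166 k247 12 (.s k243 k89 14 (.s k163 k83 11 (.s k169 k172 2 (.s k86 k252 14 (.d k6 k9 k246
  2 11))))))), (.s k1 k2 0 (.s k9 k6 2 (.s k169 k253 13 (.s k89 k249 11 (.s k81 k93 1 (.d k243 k162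
  k166 12 14))))))] (.c k166 (.l (.s k1 k2 0 (.s k9 k6 2 (.s k13 k5 1 (.s k169 k253 13 (.s k89 k249
  11 (.s k81 k93 1 (.d k241 k161 k165 11 13)))))))) .n))

def s11_255_243 : T TT 256 :=
  (.f k1 k2 0 (.q k63 [(.s k21 k42 6 (.s k23 k43 5 (.s k22 k20 0 (.d k41 k61 k60 5 6)))), (.s k43
  k23 5 (.s k169 k253 13 (.s k106 k232 8 (.s k64 k127 6 (.d k192 k128 k149 7 14))))), (.s k21 k42 6
  (.s k149 k213 7 (.s k169 k253 13 (.s k129 k189 5 (.d k192 k66 k106 8 14)))))] (.c k247 (.q k251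
  [(.s k21 k42 6 (.s k23 k43 5 (.s k22 k20 0 (.d k41 k61 k60 5 6)))), (.s k43 k23 5 (.s k169 k253 13
  (.s k106 k232 8 (.s k64 k127 6 (.d k192 k128 k149 7 14))))), (.s k21 k42 6 (.s k149 k213 7 (.s
  k169 k253 13 (.s k129 k189 5 (.d k192 k66 k106 8 14)))))] .n) (.c k251 (.q k247 [(.s k21 k42 6 (.s
  k23 k43 5 (.s k22 k20 0 (.d k41 k61 k60 5 6)))), (.s k43 k23 5 (.s k169 k253 13 (.s k106 k232 8
  (.s k64 k127 6 (.d k192 k128 k149 7 14))))), (.s k21 k42 6 (.s k149 k213 7 (.s k169 k253 13 (.s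
  k129 k189 5 (.d k192 k66 k106 8 14)))))] (.c k91 (.q k171 [(.s k169 k253 13 (.s k252 k86 14 (.d
  k168 k170 k84 0 13))), (.s k21 k42 6 (.s k23 k43 5 (.s k22 k20 0 (.d k41 k61 k60 5 6))))] (.c k15
  (.q k167 [(.s k87 k7 11 (.s k86 k84 0 (.d k169 k253 k252 13 14))), (.s k4 k166 12 (.s k7 k87 11
  (.s k6 k5 0 (.d k12 k8 k9 1 2)))), (.s k166 k4 12 (.s k169 k253 13 (.d k163 k175 k172 1 2)))] (.c
  k95 (.l (.s k175 k163 1 (.s k87 k7 11 (.s k86 k84 0 (.d k169 k253 k252 13 14))))) (.c k175 (.q k95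
  [(.s k87 k7 11 (.s k86 k84 0 (.d k169 k253 k252 13 14))), (.s k4 k166 12 (.s k7 k87 11 (.s k6 k5 0
  (.d k12 k8 k9 1 2)))), (.s k169 k253 13 (.s k168 k170 0 (.d k252 k86 k84 14 13)))] .n) .n))) (.c
  k167 (.q k15 [(.s k169 k253 13 (.s k252 k86 14 (.d k168 k170 k84 0 13))), (.s k4 k166 12 (.s k5
  k10 2 (.s k6 k7 0 (.d k9 k12 k13 2 1))))] .n) .n))) (.c k171 (.q k91 [(.s k43 k23 5 (.s k169 k253
  13 (.s k106 k232 8 (.s k64 k127 6 (.d k192 k128 k149 7 14))))), (.s k21 k42 6 (.s k23 k43 5 (.s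
  k22 k20 0 (.d k41 k61 k60 5 6)))), (.s k21 k42 6 (.s k149 k213 7 (.s k169 k253 13 (.s k129 k189 5
  (.d k192 k66 k106 8 14)))))] .n) .n))) .n))))

def s11_255_244 : T TT 256 :=
  (.q k12 [(.s k2 k1 0 (.s k4 k8 1 (.s k6 k9 2 (.s k10 k14 1 (.d k5 k7 k15 0 2))))), (.s k4 k8 1 (.s
  k166 k247 12 (.s k243 k89 14 (.s k163 k83 11 (.s k169 k172 2 (.s k86 k252 14 (.d k6 k9 k246 2
  11))))))), (.s k1 k2 0 (.s k169 k253 13 (.s k252 k86 14 (.s k172 k92 11 (.s k166 k163 2 (.d k4 k8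
  k247 1 12)))))), (.s k1 k2 0 (.s k9 k6 2 (.s k169 k253 13 (.s k89 k249 11 (.s k81 k93 1 (.d k243
  k162 k166 12 14))))))] .n)

def s11_255_245 : T TT 256 :=
  (.f k1 k2 0 (.q k240 [(.s k160 k80 11 (.s k161 k82 12 (.s k162 k163 0 (.d k81 k241 k243 11 12)))),
  (.s k80 k160 11 (.s k169 k253 13 (.s k252 k86 14 (.s k84 k168 13 (.s k88 k92 1 (.s k164 k12 13 (.d
  k244 k248 k4 1 11))))))), (.s k161 k82 12 (.s k81 k241 11 (.s k89 k93 1 (.s k169 k253 13 (.s k249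
  k9 11 (.s k252 k86 14 (.d k243 k162 k246 12 2)))))))] (.c k241 (.l (.s k80 k160 11 (.s k82 k161 12
  (.s k90 k95 2 (.s k86 k94 1 (.d k169 k253 k252 13 14)))))) .n)))

def s11_255_246 : T TT 256 :=
  (.q k17 [(.s k1 k2 0 (.s k33 k49 3 (.s k18 k48 4 (.s k19 k16 0 (.d k51 k35 k34 3 4))))), (.s k51
  k34 4 (.s k19 k35 3 (.s k153 k221 9 (.s k86 k220 10 (.s k84 k87 0 (.d k252 k168 k169 13 14)))))),
  (.s k1 k2 0 (.s k49 k33 3 (.s k153 k221 9 (.s k101 k205 13 (.s k117 k69 3 (.d k253 k185 k169 9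
  13))))))] (.c k33 (.l (.s k1 k2 0 (.s k51 k34 4 (.s k35 k19 3 (.s k153 k221 9 (.s k169 k253 13 (.d
  k102 k204 k236 14 10))))))) .n))

def s11_255_247 : T TT 256 :=
  (.q k243 [(.s k1 k2 0 (.s k81 k162 12 (.s k83 k163 11 (.s k82 k80 0 (.d k161 k241 k240 11 12))))),
  (.s k1 k2 0 (.s k163 k83 11 (.s k169 k253 13 (.s k166 k172 2 (.s k12 k89 14 (.s k6 k9 2 (.d k86
  k252 k246 14 11))))))), (.s k81 k162 12 (.s k83 k163 11 (.s k89 k93 1 (.s k86 k92 2 (.s k84 k87 0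
  (.d k252 k168 k169 13 14)))))), (.s k1 k2 0 (.s k81 k162 12 (.s k89 k93 1 (.s k12 k166 14 (.s k9
  k6 2 (.d k169 k249 k253 11 13))))))] .n)

def s11_255_248 : T TT 256 :=
  (.f k1 k2 0 (.q k150 [(.s k20 k215 8 (.s k60 k40 5 (.s k169 k253 13 (.s k131 k188 6 (.d k195 k67
  k105 7 14))))), (.s k20 k215 8 (.s k60 k40 5 (.s k22 k41 6 (.s k86 k214 7 (.s k84 k87 0 (.d k252
  k169 k168 14 13)))))), (.s k169 k253 13 (.s k131 k188 6 (.s k195 k67 7 (.s k65 k130 8 (.s k252 k86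
  14 (.s k233 k214 6 (.d k105 k125 k41 5 7)))))))] (.c k90 (.l (.s k169 k253 13 (.s k20 k215 8 (.s
  k60 k40 5 (.s k22 k41 6 (.d k86 k252 k214 14 7)))))) (.c k169 (.q k90 [(.s k20 k215 8 (.s k30 k210
  9 (.s k60 k40 5 (.s k15 k45 4 (.s k80 k95 2 (.d k240 k160 k165 11 14)))))), (.s k80 k95 2 (.s k240
  k160 11 (.s k82 k161 12 (.s k83 k81 0 (.s k86 k94 1 (.s k84 k87 0 (.d k92 k88 k89 1 2))))))), (.s
  k20 k215 8 (.s k60 k40 5 (.s k22 k41 6 (.s k23 k21 0 (.s k86 k214 7 (.s k84 k87 0 (.d k212 k148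
  k149 7 8)))))))] .n) (.c k195 (.l (.s k169 k253 13 (.s k188 k131 6 (.s k252 k86 14 (.s k60 k124 7
  (.d k20 k40 k215 5 8)))))) (.c k252 (.l (.s k20 k215 8 (.s k60 k40 5 (.s k195 k105 14 (.s k131 k67
  7 (.d k169 k188 k253 6 13)))))) .n))))))

def s11_255_249 : T TT 256 :=
  (.q k17 [(.s k1 k2 0 (.s k33 k49 3 (.s k18 k48 4 (.s k19 k16 0 (.d k51 k35 k34 3 4))))), (.s k51
  k34 4 (.s k19 k35 3 (.s k153 k221 9 (.s k86 k220 10 (.s k84 k87 0 (.d k252 k168 k169 13 14)))))),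
  (.s k1 k2 0 (.s k49 k33 3 (.s k153 k221 9 (.s k101 k205 13 (.s k117 k69 3 (.d k253 k185 k169 9
  13))))))] (.c k33 (.l (.s k1 k2 0 (.s k51 k34 4 (.s k35 k19 3 (.s k153 k221 9 (.s k169 k253 13 (.d
  k102 k204 k236 14 10))))))) .n))

def s11_255_250 : T TT 256 :=
  (.f k1 k2 0 (.q k240 [(.s k160 k80 11 (.s k161 k82 12 (.s k81 k241 11 (.d k162 k163 k243 0 12)))),
  (.s k80 k160 11 (.s k169 k253 13 (.s k252 k86 14 (.s k84 k168 13 (.s k88 k92 1 (.s k164 k12 13 (.d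
  k244 k248 k4 1 11))))))), (.s k161 k82 12 (.s k169 k253 13 (.s k165 k173 1 (.s k5 k245 11 (.d k15
  k10 k90 2 14)))))] .n))

def s11_255_251 : T TT 256 :=
  (.f k1 k2 0 (.q k243 [(.s k81 k162 12 (.s k83 k163 11 (.s k82 k80 0 (.d k161 k241 k240 11 12)))),
  (.s k163 k83 11 (.s k169 k253 13 (.s k166 k172 2 (.s k4 k247 12 (.d k12 k8 k89 1 14))))), (.s k81
  k162 12 (.s k89 k93 1 (.s k12 k166 14 (.s k9 k6 2 (.d k169 k249 k253 11 13)))))] (.c k91 (.q k171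
  [(.s k169 k253 13 (.s k252 k86 14 (.d k168 k170 k84 0 13))), (.s k81 k162 12 (.s k83 k163 11 (.s
  k82 k80 0 (.d k161 k241 k240 11 12))))] .n) (.c k171 (.q k91 [(.s k83 k163 11 (.s k87 k95 1 (.s
  k86 k84 0 (.d k169 k253 k252 13 14)))), (.s k81 k162 12 (.s k161 k241 11 (.s k82 k240 12 (.d k83
  k80 k163 0 11)))), (.s k81 k162 12 (.s k89 k93 1 (.s k12 k166 14 (.s k9 k6 2 (.d k169 k249 k253 11
  13)))))] .n) .n))))

def s11_255_252 : T TT 256 :=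
  (.f k1 k2 0 (.q k69 [(.s k137 k205 9 (.s k70 k204 10 (.s k71 k68 0 (.d k207 k139 k138 9 10)))),
  (.s k101 k117 3 (.s k205 k137 9 (.s k49 k153 13 (.s k33 k17 3 (.d k169 k253 k237 13 9))))), (.s
  k101 k117 3 (.s k207 k138 10 (.s k48 k154 14 (.s k33 k18 4 (.d k169 k253 k237 13 9)))))] (.c k253
  (.q k254 [(.s k207 k138 10 (.s k71 k139 9 (.s k70 k68 0 (.d k137 k205 k204 9 10)))), (.s k101 k117
  3 (.s k205 k137 9 (.s k49 k153 13 (.s k33 k17 3 (.s k48 k18 4 (.s k16 k32 3 (.d k154 k223 k207 10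
  14))))))), (.s k101 k117 3 (.s k207 k138 10 (.s k48 k154 14 (.s k32 k16 3 (.s k33 k18 4 (.s k34
  k35 0 (.d k17 k49 k51 3 4)))))))] (.c k207 (.f k137 k205 9 (.f k204 k70 10 (.l (.s k68 k136 9 (.s
  k102 k119 4 (.s k51 k153 14 (.s k17 k34 4 (.s k19 k35 3 (.s k18 k16 0 (.d k33 k49 k48 3
  4)))))))))) .n)) (.c k254 (.l (.s k253 k169 13 (.s k101 k117 3 (.s k205 k137 9 (.s k153 k49 13 (.d
  k221 k237 k17 3 9)))))) .n))))

def s11_255_253 : T TT 256 :=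
  (.f k1 k2 0 (.q k65 [(.s k195 k130 8 (.s k67 k131 7 (.s k66 k64 0 (.d k129 k193 k192 7 8)))), (.s
  k105 k125 5 (.s k193 k129 7 (.s k61 k149 13 (.s k41 k21 5 (.s k60 k22 6 (.d k195 k130 k150 8
  14)))))), (.s k105 k125 5 (.s k195 k130 8 (.s k60 k150 14 (.s k40 k20 5 (.s k41 k22 6 (.s k42 k43
  0 (.d k21 k61 k63 5 6)))))))] (.c k130 (.l (.s k105 k125 5 (.s k129 k193 7 (.s k66 k192 8 (.s k67
  k64 0 (.s k86 k124 6 (.s k84 k87 0 (.d k252 k168 k169 13 14)))))))) (.c k195 (.f k193 k129 7 (.f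
  k105 k125 5 (.f k61 k149 13 (.l (.s k41 k21 5 (.s k60 k22 6 (.s k20 k40 5 (.s k169 k233 7 (.s k252
  k86 14 (.s k188 k124 7 (.d k150 k131 k215 6 8))))))))))) (.c k252 (.q k254 [(.s k195 k130 8 (.s
  k67 k131 7 (.s k66 k64 0 (.d k129 k193 k192 7 8)))), (.s k105 k125 5 (.s k193 k129 7 (.s k61 k149
  13 (.s k41 k21 5 (.s k60 k22 6 (.s k20 k40 5 (.d k150 k215 k195 8 14))))))), (.s k105 k125 5 (.s
  k195 k130 8 (.s k60 k150 14 (.s k40 k20 5 (.s k41 k22 6 (.s k42 k43 0 (.d k21 k61 k63 5 6)))))))]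
  (.c k195 (.f k129 k193 7 (.f k192 k66 8 (.l (.s k64 k128 7 (.s k106 k127 6 (.s k63 k149 14 (.s k21
  k42 6 (.s k23 k43 5 (.s k22 k20 0 (.d k41 k61 k60 5 6)))))))))) .n)) (.c k254 (.q k252 [(.s k84
  k168 13 (.d k86 k87 k169 0 14)), (.s k129 k193 7 (.s k66 k192 8 (.s k67 k64 0 (.d k195 k131 k130 7
  8))))] (.c k86 (.q k170 [(.s k105 k125 5 (.s k40 k235 8 (.s k60 k20 5 (.d k195 k130 k150 8 14)))),
  (.s k129 k193 7 (.s k66 k192 8 (.s k67 k64 0 (.d k195 k131 k130 7 8))))] (.c k130 (.l (.s k105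
  k125 5 (.s k40 k235 8 (.s k60 k20 5 (.s k41 k22 6 (.s k42 k43 0 (.d k21 k61 k63 5 6))))))) (.c
  k195 (.l (.s k105 k125 5 (.s k129 k193 7 (.s k168 k84 13 (.s k192 k66 8 (.s k232 k212 5 (.d k40
  k104 k235 7 8))))))) .n))) (.c k170 (.l (.s k86 k169 14 (.d k84 k168 k87 13 0))) .n))) .n))))))

def s11_255_254 : T TT 256 :=
  (.f k1 k2 0 (.q k86 [(.d k169 k253 k252 13 14)] (.c k169 (.f k84 k87 0 (.q k90 [(.s k80 k95 2 (.s
  k240 k160 11 (.d k82 k94 k161 1 12))), (.s k82 k94 1 (.s k161 k240 12 (.s k81 k241 11 (.s k83 k80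
  0 (.d k89 k93 k92 1 2))))), (.s k80 k95 2 (.s k240 k160 11 (.s k252 k168 13 (.s k244 k248 1 (.d
  k165 k15 k7 14 12))))), (.s k82 k94 1 (.s k240 k161 12 (.s k165 k15 14 (.s k244 k7 12 (.d k252
  k248 k168 1 13)))))] (.c k240 (.l (.s k80 k95 2 (.s k82 k94 1 (.s k83 k81 0 (.d k92 k88 k89 1
  2))))) (.c k252 (.q k253 [(.s k80 k95 2 (.s k240 k160 11 (.d k82 k94 k161 1 12))), (.s k94 k82 1
  (.s k95 k80 2 (.s k93 k92 0 (.s k13 k173 11 (.s k5 k9 1 (.s k165 k245 11 (.d k89 k81 k241 1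
  13))))))), (.s k80 k95 2 (.s k92 k88 1 (.s k83 k89 2 (.s k81 k82 0 (.d k243 k162 k163 12 11)))))]
  (.c k80 (.l (.s k82 k94 1 (.s k161 k240 12 (.s k81 k241 11 (.s k89 k93 1 (.s k243 k162 12 (.d k83
  k92 k163 2 11))))))) (.c k82 (.l (.s k80 k95 2 (.s k88 k92 1 (.s k240 k160 11 (.s k12 k164 13 (.s
  k4 k8 1 (.s k166 k247 12 (.d k6 k9 k246 2 11)))))))) (.c k83 (.l (.s k82 k94 1 (.s k240 k161 12
  (.d k80 k95 k160 2 11)))) (.c k95 (.l (.s k82 k94 1 (.s k161 k240 12 (.s k81 k241 11 (.s k83 k80 0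
  (.d k89 k93 k92 1 2)))))) .n))))) (.c k253 (.l (.s k252 k168 13 (.s k80 k95 2 (.s k82 k94 1 (.d
  k240 k160 k161 11 12))))) .n))))) (.c k252 (.f k253 k169 13 (.f k84 k87 0 (.q k90 [(.s k80 k95 2
  (.s k240 k160 11 (.d k82 k94 k161 1 12))), (.s k94 k82 1 (.s k95 k80 2 (.s k93 k92 0 (.s k13 k173
  11 (.s k5 k9 1 (.s k165 k245 11 (.d k89 k81 k241 1 13))))))), (.s k80 k95 2 (.s k92 k88 1 (.s k83
  k89 2 (.s k81 k82 0 (.d k243 k162 k163 12 11)))))] (.c k80 (.l (.s k82 k94 1 (.s k161 k240 12 (.s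
  k81 k241 11 (.s k89 k93 1 (.s k243 k162 12 (.d k83 k92 k163 2 11))))))) (.c k82 (.l (.s k80 k95 2
  (.s k88 k92 1 (.s k240 k160 11 (.s k12 k164 13 (.s k4 k8 1 (.s k166 k247 12 (.d k6 k9 k246 2
  11)))))))) (.c k83 (.l (.s k82 k94 1 (.s k240 k161 12 (.d k80 k95 k160 2 11)))) (.c k95 (.l (.s
  k82 k94 1 (.s k161 k240 12 (.s k81 k241 11 (.s k83 k80 0 (.d k89 k93 k92 1 2)))))) .n))))))) (.c
  k253 (.l (.s k252 k169 14 (.d k84 k87 k168 0 13))) .n)))))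

def t11_255 : T TT 256 :=
  (.q k3 [] (.c k1 s11_255_1 (.c k2 s11_255_2 (.c k4 s11_255_4 (.c k5 s11_255_5 (.c k6 s11_255_6 (.c
  k7 s11_255_7 (.c k8 s11_255_8 (.c k9 s11_255_9 (.c k10 s11_255_10 (.c k12 s11_255_12 (.c k13
  s11_255_13 (.c k14 s11_255_14 (.c k15 s11_255_15 (.c k16 s11_255_16 (.c k17 s11_255_17 (.c k18
  s11_255_18 (.c k19 s11_255_19 (.c k20 s11_255_20 (.c k21 s11_255_21 (.c k22 s11_255_22 (.c k23
  s11_255_23 (.c k24 s11_255_24 (.c k25 s11_255_25 (.c k26 s11_255_26 (.c k27 s11_255_27 (.c k28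
  s11_255_28 (.c k29 s11_255_29 (.c k30 s11_255_30 (.c k31 s11_255_31 (.c k32 s11_255_32 (.c k33
  s11_255_33 (.c k34 s11_255_34 (.c k35 s11_255_35 (.c k36 s11_255_36 (.c k37 s11_255_37 (.c k38
  s11_255_38 (.c k39 s11_255_39 (.c k40 s11_255_40 (.c k41 s11_255_41 (.c k42 s11_255_42 (.c k43
  s11_255_43 (.c k44 s11_255_44 (.c k45 s11_255_45 (.c k46 s11_255_46 (.c k47 s11_255_47 (.c k48
  s11_255_48 (.c k49 s11_255_49 (.c k50 s11_255_50 (.c k51 s11_255_51 (.c k52 s11_255_52 (.c k53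
  s11_255_53 (.c k54 s11_255_54 (.c k55 s11_255_55 (.c k56 s11_255_56 (.c k57 s11_255_57 (.c k58
  s11_255_58 (.c k59 s11_255_59 (.c k60 s11_255_60 (.c k61 s11_255_61 (.c k62 s11_255_62 (.c k63
  s11_255_63 (.c k64 s11_255_64 (.c k65 s11_255_65 (.c k66 s11_255_66 (.c k67 s11_255_67 (.c k68
  s11_255_68 (.c k69 s11_255_69 (.c k70 s11_255_70 (.c k71 s11_255_71 (.c k72 s11_255_72 (.c k73
  s11_255_73 (.c k74 s11_255_74 (.c k75 s11_255_75 (.c k76 s11_255_76 (.c k77 s11_255_77 (.c k78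
  s11_255_78 (.c k79 s11_255_79 (.c k80 s11_255_80 (.c k81 s11_255_81 (.c k82 s11_255_82 (.c k83
  s11_255_83 (.c k84 s11_255_84 (.c k86 s11_255_86 (.c k87 s11_255_87 (.c k88 s11_255_88 (.c k89
  s11_255_89 (.c k90 s11_255_90 (.c k91 s11_255_91 (.c k92 s11_255_92 (.c k93 s11_255_93 (.c k94
  s11_255_94 (.c k95 s11_255_95 (.c k96 s11_255_96 (.c k97 s11_255_97 (.c k98 s11_255_98 (.c k99
  s11_255_99 (.c k100 s11_255_100 (.c k101 s11_255_101 (.c k102 s11_255_102 (.c k103 s11_255_103 (.c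
  k104 s11_255_104 (.c k105 s11_255_105 (.c k106 s11_255_106 (.c k107 s11_255_107 (.c k108
  s11_255_108 (.c k109 s11_255_109 (.c k110 s11_255_110 (.c k111 s11_255_111 (.c k112 s11_255_112
  (.c k113 s11_255_113 (.c k114 s11_255_114 (.c k115 s11_255_115 (.c k116 s11_255_116 (.c k117
  s11_255_117 (.c k118 s11_255_118 (.c k119 s11_255_119 (.c k120 s11_255_120 (.c k121 s11_255_121
  (.c k122 s11_255_122 (.c k123 s11_255_123 (.c k124 s11_255_124 (.c k125 s11_255_125 (.c k126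
  s11_255_126 (.c k127 s11_255_127 (.c k128 s11_255_128 (.c k129 s11_255_129 (.c k130 s11_255_130
  (.c k131 s11_255_131 (.c k132 s11_255_132 (.c k133 s11_255_133 (.c k134 s11_255_134 (.c k135
  s11_255_135 (.c k136 s11_255_136 (.c k137 s11_255_137 (.c k138 s11_255_138 (.c k139 s11_255_139
  (.c k140 s11_255_140 (.c k141 s11_255_141 (.c k142 s11_255_142 (.c k143 s11_255_143 (.c k144
  s11_255_144 (.c k145 s11_255_145 (.c k146 s11_255_146 (.c k147 s11_255_147 (.c k148 s11_255_148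
  (.c k149 s11_255_149 (.c k150 s11_255_150 (.c k151 s11_255_151 (.c k152 s11_255_152 (.c k153
  s11_255_153 (.c k154 s11_255_154 (.c k155 s11_255_155 (.c k156 s11_255_156 (.c k157 s11_255_157
  (.c k158 s11_255_158 (.c k159 s11_255_159 (.c k160 s11_255_160 (.c k161 s11_255_161 (.c k162
  s11_255_162 (.c k163 s11_255_163 (.c k164 s11_255_164 (.c k165 s11_255_165 (.c k166 s11_255_166
  (.c k167 s11_255_167 (.c k168 s11_255_168 (.c k169 s11_255_169 (.c k170 s11_255_170 (.c k171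
  s11_255_171 (.c k172 s11_255_172 (.c k173 s11_255_173 (.c k174 s11_255_174 (.c k175 s11_255_175
  (.c k176 s11_255_176 (.c k177 s11_255_177 (.c k178 s11_255_178 (.c k179 s11_255_179 (.c k180
  s11_255_180 (.c k181 s11_255_181 (.c k182 s11_255_182 (.c k183 s11_255_183 (.c k184 s11_255_184
  (.c k185 s11_255_185 (.c k186 s11_255_186 (.c k187 s11_255_187 (.c k188 s11_255_188 (.c k189
  s11_255_189 (.c k190 s11_255_190 (.c k191 s11_255_191 (.c k192 s11_255_192 (.c k193 s11_255_193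
  (.c k194 s11_255_194 (.c k195 s11_255_195 (.c k196 s11_255_196 (.c k197 s11_255_197 (.c k198
  s11_255_198 (.c k199 s11_255_199 (.c k200 s11_255_200 (.c k201 s11_255_201 (.c k202 s11_255_202
  (.c k203 s11_255_203 (.c k204 s11_255_204 (.c k205 s11_255_205 (.c k206 s11_255_206 (.c k207
  s11_255_207 (.c k208 s11_255_208 (.c k209 s11_255_209 (.c k210 s11_255_210 (.c k211 s11_255_211
  (.c k212 s11_255_212 (.c k213 s11_255_213 (.c k214 s11_255_214 (.c k215 s11_255_215 (.c k216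
  s11_255_216 (.c k217 s11_255_217 (.c k218 s11_255_218 (.c k219 s11_255_219 (.c k220 s11_255_220
  (.c k221 s11_255_221 (.c k222 s11_255_222 (.c k223 s11_255_223 (.c k224 s11_255_224 (.c k225
  s11_255_225 (.c k226 s11_255_226 (.c k227 s11_255_227 (.c k228 s11_255_228 (.c k229 s11_255_229
  (.c k230 s11_255_230 (.c k231 s11_255_231 (.c k232 s11_255_232 (.c k233 s11_255_233 (.c k234
  s11_255_234 (.c k235 s11_255_235 (.c k236 s11_255_236 (.c k237 s11_255_237 (.c k238 s11_255_238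
  (.c k239 s11_255_239 (.c k240 s11_255_240 (.c k241 s11_255_241 (.c k242 s11_255_242 (.c k243
  s11_255_243 (.c k244 s11_255_244 (.c k245 s11_255_245 (.c k246 s11_255_246 (.c k247 s11_255_247
  (.c k248 s11_255_248 (.c k249 s11_255_249 (.c k250 s11_255_250 (.c k251 s11_255_251 (.c k252
  s11_255_252 (.c k253 s11_255_253 (.c k254 s11_255_254
  .n))))))))))))))))))))))))))))))))))))))))))))))))))))))))))))))))))))))))))))))))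
  ))))))))))))))))))))))))))))))))))))))))))))))))))))))))))))))))))))))))))))))))
  )))))))))))))))))))))))))))))))))))))))))))))))))))))))))))))))))))))))))))))))) ))))))))))))

/-- roots with certificates -/
def certs : List (Cell TT 256 × Cell TT 256 × T TT 256) :=
  [(k10, k255, t10_255), (k11, k170, t11_170), (k11, k255, t11_255)]

theorem c10_255 : rootOK k10 k255 t10_255 = true := by decide +kernel

theorem c11_170 : rootOK k11 k170 t11_170 = true := by decide +kernel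

theorem c11_255 : rootOK k11 k255 t11_255 = true := by decide +kernel

theorem ok : certsOK certs = true :=
  certsOK_cons c10_255 (certsOK_cons c11_170 (certsOK_cons c11_255 (certsOK_nil)))

theorem sound (k : Nat) (hk : (bits certs).testBit k = true) : PI k :=
  certs_sound certs ok k hk

end Pool.Agent.TTT.B05
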