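import Pool.Agent.TTT.Sym

set_option autoImplicit false
set_option maxRecDepth 100000

namespace Pool.Agent.TTT.B06

def s15_51_1 : T TT 256 :=
  (.l (.s k20 k40 5 (.s k150 k215 8 (.s k105 k195 14 (.s k125 k65 5 (.d k255 k190 k170 8 14))))))

def s15_51_2 : T TT 256 :=
  (.l (.s k20 k40 5 (.s k150 k215 8 (.s k105 k195 14 (.s k125 k65 5 (.d k255 k190 k170 8 14))))))

def s15_51_3 : T TT 256 :=
  (.l (.s k20 k40 5 (.s k150 k215 8 (.s k105 k195 14 (.s k125 k65 5 (.d k255 k190 k170 8 14))))))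

def s15_51_4 : T TT 256 :=
  (.l (.s k20 k40 5 (.s k150 k215 8 (.s k105 k195 14 (.s k125 k65 5 (.d k255 k190 k170 8 14))))))

def s15_51_5 : T TT 256 :=
  (.l (.s k20 k40 5 (.s k150 k215 8 (.s k105 k195 14 (.s k125 k65 5 (.d k255 k190 k170 8 14))))))

def s15_51_6 : T TT 256 :=
  (.l (.s k20 k40 5 (.s k150 k215 8 (.s k105 k195 14 (.s k125 k65 5 (.d k255 k190 k170 8 14))))))

def s15_51_7 : T TT 256 :=
  (.l (.s k20 k40 5 (.s k150 k215 8 (.s k105 k195 14 (.s k125 k65 5 (.d k255 k190 k170 8 14))))))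

def s15_51_8 : T TT 256 :=
  (.l (.s k20 k40 5 (.s k150 k215 8 (.s k105 k195 14 (.s k125 k65 5 (.d k255 k190 k170 8 14))))))

def s15_51_9 : T TT 256 :=
  (.l (.s k20 k40 5 (.s k150 k215 8 (.s k105 k195 14 (.s k125 k65 5 (.d k255 k190 k170 8 14))))))

def s15_51_10 : T TT 256 :=
  (.l (.s k20 k40 5 (.s k150 k215 8 (.s k105 k195 14 (.s k125 k65 5 (.d k255 k190 k170 8 14))))))

def s15_51_11 : T TT 256 :=
  (.l (.s k20 k40 5 (.s k150 k215 8 (.s k105 k195 14 (.s k125 k65 5 (.d k255 k190 k170 8 14))))))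

def s15_51_12 : T TT 256 :=
  (.l (.s k20 k40 5 (.s k150 k215 8 (.s k105 k195 14 (.s k125 k65 5 (.d k255 k190 k170 8 14))))))

def s15_51_13 : T TT 256 :=
  (.l (.s k20 k40 5 (.s k150 k215 8 (.s k105 k195 14 (.s k125 k65 5 (.d k255 k190 k170 8 14))))))

def s15_51_14 : T TT 256 :=
  (.l (.s k20 k40 5 (.s k150 k215 8 (.s k105 k195 14 (.s k125 k65 5 (.d k255 k190 k170 8 14))))))

def s15_51_16 : T TT 256 :=
  (.l (.s k20 k40 5 (.s k150 k215 8 (.s k105 k195 14 (.s k125 k65 5 (.d k255 k190 k170 8 14))))))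

def s15_51_17 : T TT 256 :=
  (.l (.s k20 k40 5 (.s k150 k215 8 (.s k105 k195 14 (.s k125 k65 5 (.d k255 k190 k170 8 14))))))

def s15_51_18 : T TT 256 :=
  (.l (.s k20 k40 5 (.s k150 k215 8 (.s k105 k195 14 (.s k125 k65 5 (.d k255 k190 k170 8 14))))))

def s15_51_19 : T TT 256 :=
  (.l (.s k20 k40 5 (.s k150 k215 8 (.s k105 k195 14 (.s k125 k65 5 (.d k255 k190 k170 8 14))))))

def s15_51_20 : T TT 256 :=
  (.f k255 k170 14 (.f k190 k125 8 (.q k63 [(.s k21 k42 6 (.s k127 k191 7 (.s k106 k64 6 (.d k149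
  k213 k192 7 14)))), (.s k62 k61 0 (.s k126 k254 7 (.s k189 k252 8 (.d k191 k188 k127 0 7)))), (.s
  k21 k42 6 (.s k61 k62 0 (.s k1 k41 5 (.s k149 k213 7 (.s k169 k253 13 (.s k129 k189 5 (.d k193 k65
  k105 7 13)))))))] (.c k27 (.q k39 [(.s k21 k42 6 (.s k127 k191 7 (.s k106 k64 6 (.d k149 k213 k192
  7 14)))), (.s k62 k61 0 (.s k126 k254 7 (.s k189 k252 8 (.d k191 k188 k127 0 7)))), (.s k21 k42 6
  (.s k61 k62 0 (.s k1 k41 5 (.s k149 k213 7 (.s k169 k253 13 (.s k129 k189 5 (.d k193 k65 k105 7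
  13)))))))] .n) (.c k39 (.q k27 [(.s k21 k42 6 (.s k127 k191 7 (.s k106 k64 6 (.d k149 k213 k192 7
  14)))), (.s k62 k61 0 (.s k126 k254 7 (.s k189 k252 8 (.d k191 k188 k127 0 7)))), (.s k21 k42 6
  (.s k61 k62 0 (.s k1 k41 5 (.s k149 k213 7 (.s k169 k253 13 (.s k129 k189 5 (.d k193 k65 k105 7
  13)))))))] .n) .n)))))

def s15_51_21 : T TT 256 :=
  (.l (.s k20 k40 5 (.s k150 k215 8 (.s k105 k195 14 (.s k125 k65 5 (.d k255 k190 k170 8 14))))))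

def s15_51_22 : T TT 256 :=
  (.l (.s k20 k40 5 (.s k150 k215 8 (.s k105 k195 14 (.s k125 k65 5 (.d k255 k190 k170 8 14))))))

def s15_51_23 : T TT 256 :=
  (.l (.s k20 k40 5 (.s k150 k215 8 (.s k105 k195 14 (.s k125 k65 5 (.d k255 k190 k170 8 14))))))

def s15_51_24 : T TT 256 :=
  (.l (.s k20 k40 5 (.s k150 k215 8 (.s k105 k195 14 (.s k125 k65 5 (.d k255 k190 k170 8 14))))))

def s15_51_25 : T TT 256 :=
  (.l (.s k20 k40 5 (.s k150 k215 8 (.s k105 k195 14 (.s k125 k65 5 (.d k255 k190 k170 8 14))))))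

def s15_51_26 : T TT 256 :=
  (.l (.s k20 k40 5 (.s k150 k215 8 (.s k105 k195 14 (.s k125 k65 5 (.d k255 k190 k170 8 14))))))

def s15_51_27 : T TT 256 :=
  (.q k39 [(.s k20 k40 5 (.s k150 k215 8 (.s k105 k195 14 (.s k125 k65 5 (.d k255 k190 k170 8
  14))))), (.s k20 k40 5 (.s k150 k215 8 (.s k170 k255 14 (.s k130 k190 5 (.d k195 k65 k105 8
  14)))))] (.c k20 (.q k3 [(.s k1 k2 0 (.s k169 k253 13 (.s k170 k255 14 (.s k168 k171 0 (.d k252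
  k84 k86 13 14))))), (.s k1 k2 0 (.s k41 k22 6 (.s k169 k253 13 (.s k105 k233 7 (.s k65 k125 5 (.d
  k195 k130 k150 8 14)))))), (.s k22 k41 6 (.s k255 k170 14 (.s k87 k171 13 (.s k86 k84 0 (.s k125
  k190 8 (.s k105 k65 5 (.d k150 k214 k195 7 14)))))))] (.c k169 (.l (.s k2 k1 0 (.s k22 k41 6 (.s
  k170 k255 14 (.s k86 k254 13 (.s k150 k214 7 (.s k130 k190 5 (.d k195 k105 k65 14 8)))))))) .n))
  (.c k40 (.q k3 [(.s k1 k2 0 (.s k169 k253 13 (.s k86 k252 14 (.s k87 k84 0 (.d k255 k171 k170 13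
  14))))), (.s k1 k2 0 (.s k41 k22 6 (.s k169 k253 13 (.s k105 k233 7 (.s k65 k125 5 (.d k195 k130
  k150 8 14)))))), (.s k22 k41 6 (.s k255 k170 14 (.s k87 k171 13 (.s k86 k84 0 (.s k125 k190 8 (.s
  k105 k65 5 (.d k150 k214 k195 7 14)))))))] (.c k169 (.l (.s k2 k1 0 (.s k22 k41 6 (.s k170 k255 14
  (.s k86 k254 13 (.s k150 k214 7 (.s k130 k190 5 (.d k195 k105 k65 14 8)))))))) .n)) (.c k65 (.q k1
  [(.s k3 k2 0 (.s k40 k20 5 (.s k41 k22 6 (.s k21 k61 5 (.d k42 k43 k63 0 6))))), (.s k3 k2 0 (.s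
  k169 k253 13 (.s k86 k252 14 (.s k87 k84 0 (.d k255 k171 k170 13 14))))), (.s k253 k169 13 (.s
  k255 k170 14 (.s k125 k190 8 (.s k61 k189 7 (.s k21 k41 5 (.d k63 k62 k42 0 6))))))] .n) (.c k105
  (.q k1 [(.s k3 k2 0 (.s k40 k20 5 (.s k41 k22 6 (.s k21 k61 5 (.d k42 k43 k63 0 6))))), (.s k3 k2
  0 (.s k169 k253 13 (.s k86 k252 14 (.s k87 k84 0 (.d k255 k171 k170 13 14))))), (.s k253 k169 13
  (.s k255 k170 14 (.s k125 k190 8 (.s k61 k189 7 (.s k63 k62 0 (.d k21 k41 k42 5 6))))))] .n) (.c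
  k150 (.q k1 [(.s k3 k2 0 (.s k40 k20 5 (.s k41 k22 6 (.s k21 k61 5 (.d k42 k43 k63 0 6))))), (.s
  k3 k2 0 (.s k169 k253 13 (.s k86 k252 14 (.s k87 k84 0 (.d k255 k171 k170 13 14))))), (.s k40 k20
  5 (.s k169 k253 13 (.s k170 k255 14 (.s k105 k235 8 (.s k41 k233 7 (.s k21 k61 5 (.d k42 k43 k63 0
  6)))))))] .n) (.c k170 (.q k3 [(.s k1 k2 0 (.s k40 k20 5 (.s k41 k22 6 (.s k21 k61 5 (.d k42 k43
  k63 0 6))))), (.s k1 k2 0 (.s k20 k40 5 (.s k150 k215 8 (.s k169 k253 13 (.s k131 k188 6 (.d k195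
  k105 k67 14 7)))))), (.s k20 k40 5 (.s k22 k41 6 (.s k150 k215 8 (.s k86 k214 7 (.s k84 k87 0 (.d
  k252 k168 k169 13 14)))))), (.s k1 k2 0 (.s k41 k22 6 (.s k169 k253 13 (.s k105 k233 7 (.s k65
  k125 5 (.d k195 k130 k150 8 14))))))] (.c k86 (.l (.s k2 k1 0 (.s k20 k40 5 (.s k22 k41 6 (.s k21
  k23 0 (.d k42 k62 k63 5 6)))))) .n)) (.c k190 (.l (.s k40 k20 5 (.s k170 k255 14 (.s k105 k235 8
  (.s k65 k125 5 (.d k195 k130 k150 8 14)))))) (.c k195 (.f k20 k40 5 (.q k86 [(.s k84 k87 0 (.s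
  k150 k215 8 (.s k212 k148 7 (.s k23 k149 8 (.d k22 k21 k214 0 7))))), (.s k84 k87 0 (.s k148 k212
  7 (.s k104 k192 13 (.s k124 k64 5 (.d k252 k188 k168 7 13))))), (.s k150 k215 8 (.s k22 k214 7 (.s
  k3 k41 6 (.s k1 k2 0 (.d k169 k252 k253 14 13)))))] (.c k75 (.q k135 [(.s k84 k87 0 (.s k150 k215
  8 (.s k212 k148 7 (.s k23 k149 8 (.d k22 k21 k214 0 7))))), (.s k84 k87 0 (.s k148 k212 7 (.s k104
  k192 13 (.s k124 k64 5 (.d k252 k188 k168 7 13))))), (.s k150 k215 8 (.s k22 k214 7 (.s k3 k41 6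
  (.s k1 k2 0 (.d k169 k252 k253 14 13)))))] (.c k99 (.q k147 [(.s k84 k87 0 (.s k150 k215 8 (.s
  k212 k148 7 (.s k23 k149 8 (.d k22 k21 k214 0 7))))), (.s k84 k87 0 (.s k148 k212 7 (.s k104 k192
  13 (.s k124 k64 5 (.d k252 k188 k168 7 13))))), (.s k150 k215 8 (.s k22 k214 7 (.s k3 k41 6 (.s k1
  k2 0 (.d k169 k252 k253 14 13)))))] (.c k212 (.l (.s k84 k87 0 (.s k150 k215 8 (.s k252 k168 13
  (.s k3 k169 14 (.d k22 k214 k41 7 6)))))) .n)) (.c k147 (.q k99 [(.s k84 k87 0 (.s k150 k215 8 (.s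
  k212 k148 7 (.s k23 k149 8 (.d k22 k21 k214 0 7))))), (.s k84 k87 0 (.s k148 k212 7 (.s k104 k192
  13 (.s k124 k64 5 (.d k252 k188 k168 7 13))))), (.s k150 k215 8 (.s k22 k214 7 (.s k3 k41 6 (.s k1
  k2 0 (.d k169 k252 k253 14 13)))))] (.c k212 (.l (.s k84 k87 0 (.s k150 k215 8 (.s k252 k168 13
  (.s k3 k169 14 (.d k22 k214 k41 7 6)))))) .n)) (.c k212 (.l (.s k84 k87 0 (.s k150 k215 8 (.s k252
  k168 13 (.s k3 k169 14 (.d k22 k214 k41 7 6)))))) .n)))) (.c k99 (.q k147 [(.s k84 k87 0 (.s k150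
  k215 8 (.s k212 k148 7 (.s k23 k149 8 (.d k22 k21 k214 0 7))))), (.s k84 k87 0 (.s k148 k212 7 (.s
  k104 k192 13 (.s k124 k64 5 (.d k252 k188 k168 7 13))))), (.s k150 k215 8 (.s k22 k214 7 (.s k3
  k41 6 (.s k1 k2 0 (.d k169 k252 k253 14 13)))))] (.c k75 (.q k135 [(.s k84 k87 0 (.s k150 k215 8
  (.s k212 k148 7 (.s k23 k149 8 (.d k22 k21 k214 0 7))))), (.s k84 k87 0 (.s k148 k212 7 (.s k104
  k192 13 (.s k124 k64 5 (.d k252 k188 k168 7 13))))), (.s k150 k215 8 (.s k22 k214 7 (.s k3 k41 6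
  (.s k1 k2 0 (.d k169 k252 k253 14 13)))))] (.c k212 (.l (.s k84 k87 0 (.s k150 k215 8 (.s k252
  k168 13 (.s k3 k169 14 (.d k22 k214 k41 7 6)))))) .n)) (.c k135 (.q k75 [(.s k84 k87 0 (.s k150
  k215 8 (.s k212 k148 7 (.s k23 k149 8 (.d k22 k21 k214 0 7))))), (.s k84 k87 0 (.s k148 k212 7 (.s
  k104 k192 13 (.s k124 k64 5 (.d k252 k188 k168 7 13))))), (.s k150 k215 8 (.s k22 k214 7 (.s k3
  k41 6 (.s k1 k2 0 (.d k169 k252 k253 14 13)))))] (.c k212 (.l (.s k84 k87 0 (.s k150 k215 8 (.s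
  k252 k168 13 (.s k3 k169 14 (.d k22 k214 k41 7 6)))))) .n)) (.c k212 (.l (.s k84 k87 0 (.s k150
  k215 8 (.s k252 k168 13 (.s k3 k169 14 (.d k22 k214 k41 7 6)))))) .n)))) (.c k135 (.q k75 [(.s k84
  k87 0 (.s k150 k215 8 (.s k212 k148 7 (.s k23 k149 8 (.d k22 k21 k214 0 7))))), (.s k84 k87 0 (.s
  k148 k212 7 (.s k104 k192 13 (.s k124 k64 5 (.d k252 k188 k168 7 13))))), (.s k150 k215 8 (.s k22
  k214 7 (.s k3 k41 6 (.s k1 k2 0 (.d k169 k252 k253 14 13)))))] (.c k99 (.q k147 [(.s k84 k87 0 (.s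
  k150 k215 8 (.s k212 k148 7 (.s k23 k149 8 (.d k22 k21 k214 0 7))))), (.s k84 k87 0 (.s k148 k212
  7 (.s k104 k192 13 (.s k124 k64 5 (.d k252 k188 k168 7 13))))), (.s k150 k215 8 (.s k22 k214 7 (.s
  k3 k41 6 (.s k1 k2 0 (.d k169 k252 k253 14 13)))))] (.c k212 (.l (.s k84 k87 0 (.s k150 k215 8 (.s
  k252 k168 13 (.s k3 k169 14 (.d k22 k214 k41 7 6)))))) .n)) (.c k147 (.q k99 [(.s k84 k87 0 (.s
  k150 k215 8 (.s k212 k148 7 (.s k23 k149 8 (.d k22 k21 k214 0 7))))), (.s k84 k87 0 (.s k148 k212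
  7 (.s k104 k192 13 (.s k124 k64 5 (.d k252 k188 k168 7 13))))), (.s k150 k215 8 (.s k22 k214 7 (.s
  k3 k41 6 (.s k1 k2 0 (.d k169 k252 k253 14 13)))))] (.c k212 (.l (.s k84 k87 0 (.s k150 k215 8 (.s
  k252 k168 13 (.s k3 k169 14 (.d k22 k214 k41 7 6)))))) .n)) (.c k212 (.l (.s k84 k87 0 (.s k150
  k215 8 (.s k252 k168 13 (.s k3 k169 14 (.d k22 k214 k41 7 6)))))) .n)))) (.c k147 (.q k99 [(.s k84
  k87 0 (.s k150 k215 8 (.s k212 k148 7 (.s k23 k149 8 (.d k22 k21 k214 0 7))))), (.s k84 k87 0 (.s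
  k148 k212 7 (.s k104 k192 13 (.s k124 k64 5 (.d k252 k188 k168 7 13))))), (.s k150 k215 8 (.s k22
  k214 7 (.s k3 k41 6 (.s k1 k2 0 (.d k169 k252 k253 14 13)))))] (.c k75 (.q k135 [(.s k84 k87 0 (.s
  k150 k215 8 (.s k212 k148 7 (.s k23 k149 8 (.d k22 k21 k214 0 7))))), (.s k84 k87 0 (.s k148 k212
  7 (.s k104 k192 13 (.s k124 k64 5 (.d k252 k188 k168 7 13))))), (.s k150 k215 8 (.s k22 k214 7 (.s
  k3 k41 6 (.s k1 k2 0 (.d k169 k252 k253 14 13)))))] (.c k212 (.l (.s k84 k87 0 (.s k150 k215 8 (.s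
  k252 k168 13 (.s k3 k169 14 (.d k22 k214 k41 7 6)))))) .n)) (.c k135 (.q k75 [(.s k84 k87 0 (.s
  k150 k215 8 (.s k212 k148 7 (.s k23 k149 8 (.d k22 k21 k214 0 7))))), (.s k84 k87 0 (.s k148 k212
  7 (.s k104 k192 13 (.s k124 k64 5 (.d k252 k188 k168 7 13))))), (.s k150 k215 8 (.s k22 k214 7 (.s
  k3 k41 6 (.s k1 k2 0 (.d k169 k252 k253 14 13)))))] (.c k212 (.l (.s k84 k87 0 (.s k150 k215 8 (.s
  k252 k168 13 (.s k3 k169 14 (.d k22 k214 k41 7 6)))))) .n)) (.c k212 (.l (.s k84 k87 0 (.s k150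
  k215 8 (.s k252 k168 13 (.s k3 k169 14 (.d k22 k214 k41 7 6)))))) .n)))) (.c k212 (.l (.s k84 k87
  0 (.s k150 k215 8 (.s k252 k168 13 (.s k3 k169 14 (.d k22 k214 k41 7 6)))))) .n))))))) (.c k215
  (.l (.s k40 k20 5 (.s k170 k255 14 (.s k105 k235 8 (.s k195 k150 14 (.d k65 k125 k130 5 8))))))
  (.c k235 (.l (.s k20 k40 5 (.s k150 k215 8 (.s k105 k195 14 (.s k255 k170 14 (.d k125 k65 k190 5
  8)))))) (.c k255 (.f k20 k40 5 (.f k215 k150 8 (.q k84 [(.s k86 k87 0 (.s k212 k148 7 (.s k213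
  k214 0 (.d k149 k21 k23 7 8)))), (.s k148 k212 7 (.s k168 k252 13 (.s k128 k188 5 (.d k192 k64
  k104 7 13)))), (.s k86 k87 0 (.s k252 k168 13 (.s k3 k169 14 (.s k2 k1 0 (.s k22 k41 6 (.s k21 k23
  0 (.d k42 k62 k63 5 6)))))))] (.c k95 (.q k175 [(.s k86 k87 0 (.s k212 k148 7 (.s k213 k214 0 (.d
  k149 k21 k23 7 8)))), (.s k148 k212 7 (.s k168 k252 13 (.s k128 k188 5 (.d k192 k64 k104 7 13)))),
  (.s k86 k87 0 (.s k252 k168 13 (.s k3 k169 14 (.s k2 k1 0 (.s k22 k41 6 (.s k21 k23 0 (.d k42 k62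
  k63 5 6)))))))] (.c k119 (.q k187 [(.s k148 k212 7 (.s k104 k192 13 (.s k124 k64 5 (.d k252 k188
  k168 7 13)))), (.s k86 k87 0 (.s k212 k148 7 (.s k149 k23 8 (.d k213 k214 k21 0 7)))), (.s k86 k87
  0 (.s k252 k168 13 (.s k3 k169 14 (.s k2 k1 0 (.s k22 k41 6 (.s k21 k23 0 (.d k42 k62 k63 5
  6)))))))] .n) (.c k187 (.q k119 [(.s k86 k87 0 (.s k212 k148 7 (.s k213 k214 0 (.d k149 k21 k23 7
  8)))), (.s k148 k212 7 (.s k168 k252 13 (.s k128 k188 5 (.d k192 k64 k104 7 13)))), (.s k68 k102 4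
  (.s k86 k87 0 (.s k116 k100 3 (.s k101 k71 4 (.d k117 k118 k69 0 3)))))] .n) .n))) (.c k119 (.q
  k187 [(.s k86 k87 0 (.s k212 k148 7 (.s k213 k214 0 (.d k149 k21 k23 7 8)))), (.s k148 k212 7 (.s
  k168 k252 13 (.s k128 k188 5 (.d k192 k64 k104 7 13)))), (.s k86 k87 0 (.s k252 k168 13 (.s k3
  k169 14 (.s k2 k1 0 (.s k22 k41 6 (.s k21 k23 0 (.d k42 k62 k63 5 6)))))))] (.c k95 (.q k175 [(.s
  k148 k212 7 (.s k104 k192 13 (.s k124 k64 5 (.d k252 k188 k168 7 13)))), (.s k86 k87 0 (.s k212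
  k148 7 (.s k149 k23 8 (.d k213 k214 k21 0 7)))), (.s k86 k87 0 (.s k252 k168 13 (.s k3 k169 14 (.s
  k2 k1 0 (.s k22 k41 6 (.s k21 k23 0 (.d k42 k62 k63 5 6)))))))] .n) (.c k175 (.q k95 [(.s k86 k87
  0 (.s k212 k148 7 (.s k213 k214 0 (.d k149 k21 k23 7 8)))), (.s k148 k212 7 (.s k168 k252 13 (.s
  k128 k188 5 (.d k192 k64 k104 7 13)))), (.s k80 k90 2 (.s k86 k87 0 (.s k92 k88 1 (.s k89 k83 2
  (.d k93 k94 k81 0 1)))))] .n) .n))) (.c k175 (.q k95 [(.s k86 k87 0 (.s k212 k148 7 (.s k213 k214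
  0 (.d k149 k21 k23 7 8)))), (.s k148 k212 7 (.s k168 k252 13 (.s k128 k188 5 (.d k192 k64 k104 7
  13)))), (.s k80 k90 2 (.s k86 k87 0 (.s k92 k88 1 (.s k89 k83 2 (.d k93 k94 k81 0 1)))))] (.c k119
  (.q k187 [(.s k86 k87 0 (.s k212 k148 7 (.s k213 k214 0 (.d k149 k21 k23 7 8)))), (.s k148 k212 7
  (.s k168 k252 13 (.s k128 k188 5 (.d k192 k64 k104 7 13)))), (.s k80 k90 2 (.s k86 k87 0 (.s k92
  k88 1 (.s k89 k83 2 (.d k93 k94 k81 0 1)))))] .n) (.c k187 (.q k119 [(.s k86 k87 0 (.s k212 k148 7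
  (.s k213 k214 0 (.d k149 k21 k23 7 8)))), (.s k148 k212 7 (.s k168 k252 13 (.s k128 k188 5 (.d
  k192 k64 k104 7 13)))), (.s k68 k102 4 (.s k86 k87 0 (.s k116 k100 3 (.s k101 k71 4 (.d k117 k118
  k69 0 3)))))] .n) .n))) (.c k187 (.q k119 [(.s k86 k87 0 (.s k212 k148 7 (.s k213 k214 0 (.d k149
  k21 k23 7 8)))), (.s k148 k212 7 (.s k168 k252 13 (.s k128 k188 5 (.d k192 k64 k104 7 13)))), (.s
  k68 k102 4 (.s k86 k87 0 (.s k116 k100 3 (.s k101 k71 4 (.d k117 k118 k69 0 3)))))] (.c k95 (.q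
  k175 [(.s k86 k87 0 (.s k212 k148 7 (.s k213 k214 0 (.d k149 k21 k23 7 8)))), (.s k148 k212 7 (.s
  k168 k252 13 (.s k128 k188 5 (.d k192 k64 k104 7 13)))), (.s k68 k102 4 (.s k86 k87 0 (.s k116
  k100 3 (.s k101 k71 4 (.d k117 k118 k69 0 3)))))] .n) (.c k175 (.q k95 [(.s k86 k87 0 (.s k212
  k148 7 (.s k213 k214 0 (.d k149 k21 k23 7 8)))), (.s k148 k212 7 (.s k168 k252 13 (.s k128 k188 5
  (.d k192 k64 k104 7 13)))), (.s k68 k102 4 (.s k86 k87 0 (.s k116 k100 3 (.s k101 k71 4 (.d k117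
  k118 k69 0 3)))))] .n) .n))) .n))))))) .n))))))))))))

def s15_51_28 : T TT 256 :=
  (.l (.s k20 k40 5 (.s k150 k215 8 (.s k105 k195 14 (.s k125 k65 5 (.d k255 k190 k170 8 14))))))

def s15_51_29 : T TT 256 :=
  (.l (.s k20 k40 5 (.s k150 k215 8 (.s k105 k195 14 (.s k125 k65 5 (.d k255 k190 k170 8 14))))))

def s15_51_30 : T TT 256 :=
  (.l (.s k20 k40 5 (.s k150 k215 8 (.s k105 k195 14 (.s k125 k65 5 (.d k255 k190 k170 8 14))))))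

def s15_51_31 : T TT 256 :=
  (.l (.s k20 k40 5 (.s k150 k215 8 (.s k105 k195 14 (.s k125 k65 5 (.d k255 k190 k170 8 14))))))

def s15_51_32 : T TT 256 :=
  (.l (.s k20 k40 5 (.s k150 k215 8 (.s k105 k195 14 (.s k125 k65 5 (.d k255 k190 k170 8 14))))))

def s15_51_33 : T TT 256 :=
  (.l (.s k20 k40 5 (.s k150 k215 8 (.s k105 k195 14 (.s k125 k65 5 (.d k255 k190 k170 8 14))))))

def s15_51_34 : T TT 256 :=
  (.l (.s k20 k40 5 (.s k150 k215 8 (.s k105 k195 14 (.s k125 k65 5 (.d k255 k190 k170 8 14))))))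

def s15_51_35 : T TT 256 :=
  (.l (.s k20 k40 5 (.s k150 k215 8 (.s k105 k195 14 (.s k125 k65 5 (.d k255 k190 k170 8 14))))))

def s15_51_36 : T TT 256 :=
  (.l (.s k20 k40 5 (.s k150 k215 8 (.s k105 k195 14 (.s k125 k65 5 (.d k255 k190 k170 8 14))))))

def s15_51_37 : T TT 256 :=
  (.l (.s k20 k40 5 (.s k150 k215 8 (.s k105 k195 14 (.s k125 k65 5 (.d k255 k190 k170 8 14))))))

def s15_51_38 : T TT 256 :=
  (.l (.s k20 k40 5 (.s k150 k215 8 (.s k105 k195 14 (.s k125 k65 5 (.d k255 k190 k170 8 14))))))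

def s15_51_39 : T TT 256 :=
  (.q k27 [(.s k20 k40 5 (.s k150 k215 8 (.s k105 k195 14 (.s k125 k65 5 (.d k255 k190 k170 8
  14))))), (.s k20 k40 5 (.s k150 k215 8 (.s k170 k255 14 (.s k130 k190 5 (.d k195 k65 k105 8
  14)))))] (.c k20 (.q k3 [(.s k1 k2 0 (.s k169 k253 13 (.s k170 k255 14 (.s k168 k171 0 (.d k252
  k84 k86 13 14))))), (.s k1 k2 0 (.s k41 k22 6 (.s k169 k253 13 (.s k105 k233 7 (.s k65 k125 5 (.d
  k195 k130 k150 8 14)))))), (.s k22 k41 6 (.s k255 k170 14 (.s k87 k171 13 (.s k86 k84 0 (.s k125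
  k190 8 (.s k105 k65 5 (.d k150 k214 k195 7 14)))))))] (.c k169 (.l (.s k2 k1 0 (.s k22 k41 6 (.s
  k170 k255 14 (.s k86 k254 13 (.s k150 k214 7 (.s k130 k190 5 (.d k195 k105 k65 14 8)))))))) .n))
  (.c k40 (.q k3 [(.s k1 k2 0 (.s k169 k253 13 (.s k86 k252 14 (.s k87 k84 0 (.d k255 k171 k170 13
  14))))), (.s k1 k2 0 (.s k41 k22 6 (.s k169 k253 13 (.s k105 k233 7 (.s k65 k125 5 (.d k195 k130
  k150 8 14)))))), (.s k22 k41 6 (.s k255 k170 14 (.s k87 k171 13 (.s k86 k84 0 (.s k125 k190 8 (.s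
  k105 k65 5 (.d k150 k214 k195 7 14)))))))] (.c k169 (.l (.s k2 k1 0 (.s k22 k41 6 (.s k170 k255 14
  (.s k86 k254 13 (.s k150 k214 7 (.s k130 k190 5 (.d k195 k105 k65 14 8)))))))) .n)) (.c k65 (.q k1
  [(.s k3 k2 0 (.s k40 k20 5 (.s k41 k22 6 (.s k21 k61 5 (.d k42 k43 k63 0 6))))), (.s k3 k2 0 (.s
  k169 k253 13 (.s k86 k252 14 (.s k87 k84 0 (.d k255 k171 k170 13 14))))), (.s k253 k169 13 (.s
  k255 k170 14 (.s k125 k190 8 (.s k61 k189 7 (.s k21 k41 5 (.d k63 k62 k42 0 6))))))] .n) (.c k105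
  (.q k1 [(.s k3 k2 0 (.s k40 k20 5 (.s k41 k22 6 (.s k21 k61 5 (.d k42 k43 k63 0 6))))), (.s k3 k2
  0 (.s k169 k253 13 (.s k86 k252 14 (.s k87 k84 0 (.d k255 k171 k170 13 14))))), (.s k253 k169 13
  (.s k255 k170 14 (.s k125 k190 8 (.s k61 k189 7 (.s k63 k62 0 (.d k21 k41 k42 5 6))))))] .n) (.c
  k150 (.q k1 [(.s k3 k2 0 (.s k40 k20 5 (.s k41 k22 6 (.s k21 k61 5 (.d k42 k43 k63 0 6))))), (.s
  k3 k2 0 (.s k169 k253 13 (.s k86 k252 14 (.s k87 k84 0 (.d k255 k171 k170 13 14))))), (.s k40 k20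
  5 (.s k169 k253 13 (.s k170 k255 14 (.s k105 k235 8 (.s k41 k233 7 (.s k21 k61 5 (.d k42 k43 k63 0
  6)))))))] .n) (.c k170 (.q k3 [(.s k1 k2 0 (.s k40 k20 5 (.s k41 k22 6 (.s k21 k61 5 (.d k42 k43
  k63 0 6))))), (.s k1 k2 0 (.s k20 k40 5 (.s k150 k215 8 (.s k169 k253 13 (.s k131 k188 6 (.d k195
  k105 k67 14 7)))))), (.s k20 k40 5 (.s k22 k41 6 (.s k150 k215 8 (.s k86 k214 7 (.s k84 k87 0 (.d
  k252 k168 k169 13 14)))))), (.s k1 k2 0 (.s k41 k22 6 (.s k169 k253 13 (.s k105 k233 7 (.s k65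
  k125 5 (.d k195 k130 k150 8 14))))))] (.c k86 (.l (.s k2 k1 0 (.s k20 k40 5 (.s k22 k41 6 (.s k21
  k23 0 (.d k42 k62 k63 5 6)))))) .n)) (.c k190 (.l (.s k40 k20 5 (.s k170 k255 14 (.s k105 k235 8
  (.s k65 k125 5 (.d k195 k130 k150 8 14)))))) (.c k195 (.f k255 k170 14 (.f k40 k20 5 (.q k101 [(.s
  k69 k117 3 (.s k207 k138 10 (.s k223 k239 3 (.d k154 k16 k48 10 14)))), (.s k69 k117 3 (.s k125
  k190 8 (.s k65 k105 5 (.s k77 k73 1 (.s k89 k113 5 (.d k93 k81 k109 1 3)))))), (.s k125 k190 8 (.s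
  k105 k65 5 (.s k109 k97 1 (.s k207 k158 12 (.s k223 k239 3 (.d k154 k48 k16 14 10))))))] (.c k75
  (.q k135 [(.s k69 k117 3 (.s k207 k138 10 (.s k223 k239 3 (.d k154 k16 k48 10 14)))), (.s k69 k117
  3 (.s k125 k190 8 (.s k65 k105 5 (.s k77 k73 1 (.s k89 k113 5 (.d k93 k81 k109 1 3)))))), (.s k125
  k190 8 (.s k105 k65 5 (.s k109 k97 1 (.s k207 k158 12 (.s k223 k239 3 (.d k154 k48 k16 14
  10))))))] (.c k99 (.q k147 [(.s k69 k117 3 (.s k207 k138 10 (.s k223 k239 3 (.d k154 k16 k48 10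
  14)))), (.s k69 k117 3 (.s k125 k190 8 (.s k65 k105 5 (.s k77 k73 1 (.s k89 k113 5 (.d k93 k81
  k109 1 3)))))), (.s k125 k190 8 (.s k105 k65 5 (.s k109 k97 1 (.s k207 k158 12 (.s k223 k239 3 (.d
  k154 k48 k16 14 10))))))] .n) (.c k147 (.q k99 [(.s k69 k117 3 (.s k207 k138 10 (.s k223 k239 3
  (.d k154 k16 k48 10 14)))), (.s k69 k117 3 (.s k125 k190 8 (.s k65 k105 5 (.s k77 k73 1 (.s k89
  k113 5 (.d k93 k81 k109 1 3)))))), (.s k125 k190 8 (.s k105 k65 5 (.s k109 k97 1 (.s k207 k158 12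
  (.s k223 k239 3 (.d k154 k48 k16 14 10))))))] .n) .n))) (.c k99 (.q k147 [(.s k69 k117 3 (.s k207
  k138 10 (.s k223 k239 3 (.d k154 k16 k48 10 14)))), (.s k69 k117 3 (.s k125 k190 8 (.s k65 k105 5
  (.s k77 k73 1 (.s k89 k113 5 (.d k93 k81 k109 1 3)))))), (.s k125 k190 8 (.s k105 k65 5 (.s k109
  k97 1 (.s k207 k158 12 (.s k223 k239 3 (.d k154 k48 k16 14 10))))))] (.c k75 (.q k135 [(.s k69
  k117 3 (.s k207 k138 10 (.s k223 k239 3 (.d k154 k16 k48 10 14)))), (.s k69 k117 3 (.s k125 k190 8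
  (.s k65 k105 5 (.s k77 k73 1 (.s k89 k113 5 (.d k93 k81 k109 1 3)))))), (.s k125 k190 8 (.s k105
  k65 5 (.s k109 k97 1 (.s k207 k158 12 (.s k223 k239 3 (.d k154 k48 k16 14 10))))))] .n) (.c k135
  (.q k75 [(.s k69 k117 3 (.s k207 k138 10 (.s k223 k239 3 (.d k154 k16 k48 10 14)))), (.s k69 k117
  3 (.s k125 k190 8 (.s k65 k105 5 (.s k77 k73 1 (.s k89 k113 5 (.d k93 k81 k109 1 3)))))), (.s k125
  k190 8 (.s k105 k65 5 (.s k109 k97 1 (.s k207 k158 12 (.s k223 k239 3 (.d k154 k48 k16 14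
  10))))))] .n) .n))) (.c k135 (.q k75 [(.s k69 k117 3 (.s k207 k138 10 (.s k223 k239 3 (.d k154 k16
  k48 10 14)))), (.s k69 k117 3 (.s k125 k190 8 (.s k65 k105 5 (.s k77 k73 1 (.s k89 k113 5 (.d k93
  k81 k109 1 3)))))), (.s k125 k190 8 (.s k105 k65 5 (.s k109 k97 1 (.s k207 k158 12 (.s k223 k239 3
  (.d k154 k48 k16 14 10))))))] (.c k99 (.q k147 [(.s k69 k117 3 (.s k207 k138 10 (.s k223 k239 3
  (.d k154 k16 k48 10 14)))), (.s k69 k117 3 (.s k125 k190 8 (.s k65 k105 5 (.s k77 k73 1 (.s k89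
  k113 5 (.d k93 k81 k109 1 3)))))), (.s k125 k190 8 (.s k105 k65 5 (.s k109 k97 1 (.s k207 k158 12
  (.s k223 k239 3 (.d k154 k48 k16 14 10))))))] .n) (.c k147 (.q k99 [(.s k69 k117 3 (.s k207 k138
  10 (.s k223 k239 3 (.d k154 k16 k48 10 14)))), (.s k69 k117 3 (.s k125 k190 8 (.s k65 k105 5 (.s
  k77 k73 1 (.s k89 k113 5 (.d k93 k81 k109 1 3)))))), (.s k125 k190 8 (.s k105 k65 5 (.s k109 k97 1
  (.s k207 k158 12 (.s k223 k239 3 (.d k154 k48 k16 14 10))))))] .n) .n))) (.c k147 (.q k99 [(.s k69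
  k117 3 (.s k207 k138 10 (.s k223 k239 3 (.d k154 k16 k48 10 14)))), (.s k69 k117 3 (.s k125 k190 8
  (.s k65 k105 5 (.s k77 k73 1 (.s k89 k113 5 (.d k93 k81 k109 1 3)))))), (.s k125 k190 8 (.s k105
  k65 5 (.s k109 k97 1 (.s k207 k158 12 (.s k223 k239 3 (.d k154 k48 k16 14 10))))))] (.c k75 (.q
  k135 [(.s k69 k117 3 (.s k207 k138 10 (.s k223 k239 3 (.d k154 k16 k48 10 14)))), (.s k69 k117 3
  (.s k125 k190 8 (.s k65 k105 5 (.s k77 k73 1 (.s k89 k113 5 (.d k93 k81 k109 1 3)))))), (.s k125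
  k190 8 (.s k105 k65 5 (.s k109 k97 1 (.s k207 k158 12 (.s k223 k239 3 (.d k154 k48 k16 14
  10))))))] .n) (.c k135 (.q k75 [(.s k69 k117 3 (.s k207 k138 10 (.s k223 k239 3 (.d k154 k16 k48
  10 14)))), (.s k69 k117 3 (.s k125 k190 8 (.s k65 k105 5 (.s k77 k73 1 (.s k89 k113 5 (.d k93 k81
  k109 1 3)))))), (.s k125 k190 8 (.s k105 k65 5 (.s k109 k97 1 (.s k207 k158 12 (.s k223 k239 3 (.d
  k154 k48 k16 14 10))))))] .n) .n))) .n))))))) (.c k215 (.l (.s k40 k20 5 (.s k170 k255 14 (.s k105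
  k235 8 (.s k195 k150 14 (.d k65 k125 k130 5 8)))))) (.c k235 (.l (.s k20 k40 5 (.s k150 k215 8 (.s
  k105 k195 14 (.s k255 k170 14 (.d k125 k65 k190 5 8)))))) (.c k255 (.f k20 k40 5 (.f k215 k150 8
  (.q k84 [(.s k86 k87 0 (.s k212 k148 7 (.s k213 k214 0 (.d k149 k21 k23 7 8)))), (.s k148 k212 7
  (.s k168 k252 13 (.s k128 k188 5 (.d k192 k64 k104 7 13)))), (.s k86 k87 0 (.s k252 k168 13 (.s k3
  k169 14 (.s k2 k1 0 (.s k22 k41 6 (.s k21 k23 0 (.d k42 k62 k63 5 6)))))))] (.c k95 (.q k175 [(.s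
  k86 k87 0 (.s k212 k148 7 (.s k213 k214 0 (.d k149 k21 k23 7 8)))), (.s k148 k212 7 (.s k168 k252
  13 (.s k128 k188 5 (.d k192 k64 k104 7 13)))), (.s k86 k87 0 (.s k252 k168 13 (.s k3 k169 14 (.s
  k2 k1 0 (.s k22 k41 6 (.s k21 k23 0 (.d k42 k62 k63 5 6)))))))] (.c k119 (.q k187 [(.s k148 k212 7
  (.s k104 k192 13 (.s k124 k64 5 (.d k252 k188 k168 7 13)))), (.s k86 k87 0 (.s k212 k148 7 (.s
  k149 k23 8 (.d k213 k214 k21 0 7)))), (.s k86 k87 0 (.s k252 k168 13 (.s k3 k169 14 (.s k2 k1 0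
  (.s k22 k41 6 (.s k21 k23 0 (.d k42 k62 k63 5 6)))))))] .n) (.c k187 (.q k119 [(.s k86 k87 0 (.s
  k212 k148 7 (.s k213 k214 0 (.d k149 k21 k23 7 8)))), (.s k148 k212 7 (.s k168 k252 13 (.s k128
  k188 5 (.d k192 k64 k104 7 13)))), (.s k68 k102 4 (.s k86 k87 0 (.s k116 k100 3 (.s k101 k71 4 (.d
  k117 k118 k69 0 3)))))] .n) .n))) (.c k119 (.q k187 [(.s k86 k87 0 (.s k212 k148 7 (.s k213 k214 0
  (.d k149 k21 k23 7 8)))), (.s k148 k212 7 (.s k168 k252 13 (.s k128 k188 5 (.d k192 k64 k104 7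
  13)))), (.s k86 k87 0 (.s k252 k168 13 (.s k3 k169 14 (.s k2 k1 0 (.s k22 k41 6 (.s k21 k23 0 (.d
  k42 k62 k63 5 6)))))))] (.c k95 (.q k175 [(.s k148 k212 7 (.s k104 k192 13 (.s k124 k64 5 (.d k252
  k188 k168 7 13)))), (.s k86 k87 0 (.s k212 k148 7 (.s k149 k23 8 (.d k213 k214 k21 0 7)))), (.s
  k86 k87 0 (.s k252 k168 13 (.s k3 k169 14 (.s k2 k1 0 (.s k22 k41 6 (.s k21 k23 0 (.d k42 k62 k63
  5 6)))))))] .n) (.c k175 (.q k95 [(.s k86 k87 0 (.s k212 k148 7 (.s k213 k214 0 (.d k149 k21 k23 7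
  8)))), (.s k148 k212 7 (.s k168 k252 13 (.s k128 k188 5 (.d k192 k64 k104 7 13)))), (.s k80 k90 2
  (.s k86 k87 0 (.s k92 k88 1 (.s k89 k83 2 (.d k93 k94 k81 0 1)))))] .n) .n))) (.c k175 (.q k95
  [(.s k86 k87 0 (.s k212 k148 7 (.s k213 k214 0 (.d k149 k21 k23 7 8)))), (.s k148 k212 7 (.s k168
  k252 13 (.s k128 k188 5 (.d k192 k64 k104 7 13)))), (.s k80 k90 2 (.s k86 k87 0 (.s k92 k88 1 (.s
  k89 k83 2 (.d k93 k94 k81 0 1)))))] (.c k119 (.q k187 [(.s k86 k87 0 (.s k212 k148 7 (.s k213 k214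
  0 (.d k149 k21 k23 7 8)))), (.s k148 k212 7 (.s k168 k252 13 (.s k128 k188 5 (.d k192 k64 k104 7
  13)))), (.s k80 k90 2 (.s k86 k87 0 (.s k92 k88 1 (.s k89 k83 2 (.d k93 k94 k81 0 1)))))] .n) (.c
  k187 (.q k119 [(.s k86 k87 0 (.s k212 k148 7 (.s k213 k214 0 (.d k149 k21 k23 7 8)))), (.s k148
  k212 7 (.s k168 k252 13 (.s k128 k188 5 (.d k192 k64 k104 7 13)))), (.s k68 k102 4 (.s k86 k87 0
  (.s k116 k100 3 (.s k101 k71 4 (.d k117 k118 k69 0 3)))))] .n) .n))) (.c k187 (.q k119 [(.s k86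
  k87 0 (.s k212 k148 7 (.s k213 k214 0 (.d k149 k21 k23 7 8)))), (.s k148 k212 7 (.s k168 k252 13
  (.s k128 k188 5 (.d k192 k64 k104 7 13)))), (.s k68 k102 4 (.s k86 k87 0 (.s k116 k100 3 (.s k101
  k71 4 (.d k117 k118 k69 0 3)))))] (.c k95 (.q k175 [(.s k86 k87 0 (.s k212 k148 7 (.s k213 k214 0
  (.d k149 k21 k23 7 8)))), (.s k148 k212 7 (.s k168 k252 13 (.s k128 k188 5 (.d k192 k64 k104 7
  13)))), (.s k68 k102 4 (.s k86 k87 0 (.s k116 k100 3 (.s k101 k71 4 (.d k117 k118 k69 0 3)))))]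
  .n) (.c k175 (.q k95 [(.s k86 k87 0 (.s k212 k148 7 (.s k213 k214 0 (.d k149 k21 k23 7 8)))), (.s
  k148 k212 7 (.s k168 k252 13 (.s k128 k188 5 (.d k192 k64 k104 7 13)))), (.s k68 k102 4 (.s k86
  k87 0 (.s k116 k100 3 (.s k101 k71 4 (.d k117 k118 k69 0 3)))))] .n) .n))) .n)))))))
  .n))))))))))))

def s15_51_40 : T TT 256 :=
  (.q k69 [(.s k101 k117 3 (.s k207 k138 10 (.s k48 k154 14 (.s k32 k16 3 (.d k170 k239 k255 10
  14))))), (.s k101 k117 3 (.s k207 k138 10 (.s k109 k158 12 (.s k105 k97 1 (.s k65 k125 5 (.d k195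
  k130 k150 8 14)))))), (.s k207 k138 10 (.s k109 k158 12 (.s k255 k170 14 (.s k125 k190 8 (.s k77
  k93 3 (.d k65 k105 k73 5 1)))))), (.s k117 k101 3 (.s k255 k170 14 (.s k125 k190 8 (.s k121 k113 1
  (.s k182 k243 10 (.s k52 k247 8 (.d k48 k56 k186 1 10)))))))] (.c k27 (.q k39 [(.s k101 k117 3 (.s
  k207 k138 10 (.s k48 k154 14 (.s k32 k16 3 (.d k170 k239 k255 10 14))))), (.s k101 k117 3 (.s k207
  k138 10 (.s k109 k158 12 (.s k105 k97 1 (.s k65 k125 5 (.d k195 k130 k150 8 14)))))), (.s k207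
  k138 10 (.s k109 k158 12 (.s k255 k170 14 (.s k125 k190 8 (.s k77 k93 3 (.d k65 k105 k73 5
  1)))))), (.s k117 k101 3 (.s k255 k170 14 (.s k125 k190 8 (.s k121 k113 1 (.s k182 k243 10 (.s k52
  k247 8 (.d k48 k56 k186 1 10)))))))] .n) (.c k39 (.q k27 [(.s k101 k117 3 (.s k207 k138 10 (.s k48
  k154 14 (.s k32 k16 3 (.d k170 k239 k255 10 14))))), (.s k101 k117 3 (.s k207 k138 10 (.s k109
  k158 12 (.s k105 k97 1 (.s k65 k125 5 (.d k195 k130 k150 8 14)))))), (.s k207 k138 10 (.s k109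
  k158 12 (.s k255 k170 14 (.s k125 k190 8 (.s k77 k93 3 (.d k65 k105 k73 5 1)))))), (.s k117 k101 3
  (.s k255 k170 14 (.s k125 k190 8 (.s k121 k113 1 (.s k182 k243 10 (.s k52 k247 8 (.d k48 k56 k186
  1 10)))))))] .n) .n)))

def s15_51_41 : T TT 256 :=
  (.l (.s k20 k40 5 (.s k150 k215 8 (.s k105 k195 14 (.s k125 k65 5 (.d k255 k190 k170 8 14))))))

def s15_51_42 : T TT 256 :=
  (.l (.s k20 k40 5 (.s k150 k215 8 (.s k105 k195 14 (.s k125 k65 5 (.d k255 k190 k170 8 14))))))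

def s15_51_43 : T TT 256 :=
  (.l (.s k20 k40 5 (.s k150 k215 8 (.s k105 k195 14 (.s k125 k65 5 (.d k255 k190 k170 8 14))))))

def s15_51_44 : T TT 256 :=
  (.l (.s k20 k40 5 (.s k150 k215 8 (.s k105 k195 14 (.s k125 k65 5 (.d k255 k190 k170 8 14))))))

def s15_51_45 : T TT 256 :=
  (.l (.s k20 k40 5 (.s k150 k215 8 (.s k105 k195 14 (.s k125 k65 5 (.d k255 k190 k170 8 14))))))

def s15_51_46 : T TT 256 :=
  (.l (.s k20 k40 5 (.s k150 k215 8 (.s k105 k195 14 (.s k125 k65 5 (.d k255 k190 k170 8 14))))))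

def s15_51_47 : T TT 256 :=
  (.l (.s k20 k40 5 (.s k150 k215 8 (.s k105 k195 14 (.s k125 k65 5 (.d k255 k190 k170 8 14))))))

def s15_51_48 : T TT 256 :=
  (.l (.s k20 k40 5 (.s k150 k215 8 (.s k105 k195 14 (.s k125 k65 5 (.d k255 k190 k170 8 14))))))

def s15_51_49 : T TT 256 :=
  (.l (.s k20 k40 5 (.s k150 k215 8 (.s k105 k195 14 (.s k125 k65 5 (.d k255 k190 k170 8 14))))))

def s15_51_50 : T TT 256 :=
  (.l (.s k20 k40 5 (.s k150 k215 8 (.s k105 k195 14 (.s k125 k65 5 (.d k255 k190 k170 8 14))))))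

def s15_51_52 : T TT 256 :=
  (.l (.s k20 k40 5 (.s k150 k215 8 (.s k105 k195 14 (.s k125 k65 5 (.d k255 k190 k170 8 14))))))

def s15_51_53 : T TT 256 :=
  (.l (.s k20 k40 5 (.s k150 k215 8 (.s k105 k195 14 (.s k125 k65 5 (.d k255 k190 k170 8 14))))))

def s15_51_54 : T TT 256 :=
  (.l (.s k20 k40 5 (.s k150 k215 8 (.s k105 k195 14 (.s k125 k65 5 (.d k255 k190 k170 8 14))))))

def s15_51_55 : T TT 256 :=
  (.l (.s k20 k40 5 (.s k150 k215 8 (.s k105 k195 14 (.s k125 k65 5 (.d k255 k190 k170 8 14))))))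

def s15_51_56 : T TT 256 :=
  (.l (.s k20 k40 5 (.s k150 k215 8 (.s k105 k195 14 (.s k125 k65 5 (.d k255 k190 k170 8 14))))))

def s15_51_57 : T TT 256 :=
  (.l (.s k20 k40 5 (.s k150 k215 8 (.s k105 k195 14 (.s k125 k65 5 (.d k255 k190 k170 8 14))))))

def s15_51_58 : T TT 256 :=
  (.l (.s k20 k40 5 (.s k150 k215 8 (.s k105 k195 14 (.s k125 k65 5 (.d k255 k190 k170 8 14))))))

def s15_51_59 : T TT 256 :=
  (.l (.s k20 k40 5 (.s k150 k215 8 (.s k105 k195 14 (.s k125 k65 5 (.d k255 k190 k170 8 14))))))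

def s15_51_61 : T TT 256 :=
  (.l (.s k20 k40 5 (.s k150 k215 8 (.s k105 k195 14 (.s k125 k65 5 (.d k255 k190 k170 8 14))))))

def s15_51_62 : T TT 256 :=
  (.l (.s k20 k40 5 (.s k150 k215 8 (.s k105 k195 14 (.s k125 k65 5 (.d k255 k190 k170 8 14))))))

def s15_51_63 : T TT 256 :=
  (.l (.s k20 k40 5 (.s k150 k215 8 (.s k105 k195 14 (.s k125 k65 5 (.d k255 k190 k170 8 14))))))

def s15_51_64 : T TT 256 :=
  (.l (.s k20 k40 5 (.s k150 k215 8 (.s k105 k195 14 (.s k125 k65 5 (.d k255 k190 k170 8 14))))))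

def s15_51_65 : T TT 256 :=
  (.f k20 k40 5 (.f k215 k150 8 (.q k252 [(.s k84 k168 13 (.s k124 k188 7 (.s k148 k212 7 (.d k104
  k64 k192 5 13)))), (.s k188 k124 7 (.s k255 k170 14 (.s k190 k125 8 (.s k189 k191 0 (.s k126 k63 8
  (.d k254 k253 k62 0 7)))))), (.s k168 k84 13 (.s k170 k255 14 (.s k169 k171 0 (.s k1 k253 13 (.d
  k3 k2 k86 0 14)))))] (.c k27 (.q k39 [(.s k84 k168 13 (.s k124 k188 7 (.s k148 k212 7 (.d k104 k64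
  k192 5 13)))), (.s k188 k124 7 (.s k255 k170 14 (.s k190 k125 8 (.s k189 k191 0 (.s k126 k63 8 (.d
  k254 k253 k62 0 7)))))), (.s k168 k84 13 (.s k170 k255 14 (.s k169 k171 0 (.s k1 k253 13 (.d k3 k2
  k86 0 14)))))] .n) (.c k39 (.q k27 [(.s k84 k168 13 (.s k124 k188 7 (.s k148 k212 7 (.d k104 k64
  k192 5 13)))), (.s k188 k124 7 (.s k255 k170 14 (.s k190 k125 8 (.s k189 k191 0 (.s k126 k63 8 (.d
  k254 k253 k62 0 7)))))), (.s k168 k84 13 (.s k170 k255 14 (.s k169 k171 0 (.s k1 k253 13 (.d k3 k2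
  k86 0 14)))))] .n) .n)))))

def s15_51_66 : T TT 256 :=
  (.l (.s k20 k40 5 (.s k150 k215 8 (.s k105 k195 14 (.s k125 k65 5 (.d k255 k190 k170 8 14))))))

def s15_51_67 : T TT 256 :=
  (.l (.s k20 k40 5 (.s k150 k215 8 (.s k105 k195 14 (.s k125 k65 5 (.d k255 k190 k170 8 14))))))

def s15_51_68 : T TT 256 :=
  (.l (.s k20 k40 5 (.s k150 k215 8 (.s k105 k195 14 (.s k125 k65 5 (.d k255 k190 k170 8 14))))))

def s15_51_69 : T TT 256 :=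
  (.l (.s k20 k40 5 (.s k150 k215 8 (.s k105 k195 14 (.s k125 k65 5 (.d k255 k190 k170 8 14))))))

def s15_51_70 : T TT 256 :=
  (.l (.s k20 k40 5 (.s k150 k215 8 (.s k105 k195 14 (.s k125 k65 5 (.d k255 k190 k170 8 14))))))

def s15_51_71 : T TT 256 :=
  (.l (.s k20 k40 5 (.s k150 k215 8 (.s k105 k195 14 (.s k125 k65 5 (.d k255 k190 k170 8 14))))))

def s15_51_72 : T TT 256 :=
  (.l (.s k20 k40 5 (.s k150 k215 8 (.s k105 k195 14 (.s k125 k65 5 (.d k255 k190 k170 8 14))))))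

def s15_51_73 : T TT 256 :=
  (.l (.s k20 k40 5 (.s k150 k215 8 (.s k105 k195 14 (.s k125 k65 5 (.d k255 k190 k170 8 14))))))

def s15_51_74 : T TT 256 :=
  (.l (.s k20 k40 5 (.s k150 k215 8 (.s k105 k195 14 (.s k125 k65 5 (.d k255 k190 k170 8 14))))))

def s15_51_75 : T TT 256 :=
  (.l (.s k20 k40 5 (.s k150 k215 8 (.s k170 k255 14 (.s k130 k190 5 (.d k195 k65 k105 8 14))))))

def s15_51_76 : T TT 256 :=
  (.l (.s k20 k40 5 (.s k150 k215 8 (.s k105 k195 14 (.s k125 k65 5 (.d k255 k190 k170 8 14))))))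

def s15_51_77 : T TT 256 :=
  (.l (.s k20 k40 5 (.s k150 k215 8 (.s k105 k195 14 (.s k125 k65 5 (.d k255 k190 k170 8 14))))))

def s15_51_78 : T TT 256 :=
  (.l (.s k20 k40 5 (.s k150 k215 8 (.s k105 k195 14 (.s k125 k65 5 (.d k255 k190 k170 8 14))))))

def s15_51_79 : T TT 256 :=
  (.l (.s k20 k40 5 (.s k150 k215 8 (.s k105 k195 14 (.s k125 k65 5 (.d k255 k190 k170 8 14))))))

def s15_51_80 : T TT 256 :=
  (.l (.s k20 k40 5 (.s k150 k215 8 (.s k105 k195 14 (.s k125 k65 5 (.d k255 k190 k170 8 14))))))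

def s15_51_81 : T TT 256 :=
  (.l (.s k20 k40 5 (.s k150 k215 8 (.s k105 k195 14 (.s k125 k65 5 (.d k255 k190 k170 8 14))))))

def s15_51_82 : T TT 256 :=
  (.l (.s k20 k40 5 (.s k150 k215 8 (.s k105 k195 14 (.s k125 k65 5 (.d k255 k190 k170 8 14))))))

def s15_51_83 : T TT 256 :=
  (.l (.s k20 k40 5 (.s k150 k215 8 (.s k105 k195 14 (.s k125 k65 5 (.d k255 k190 k170 8 14))))))

def s15_51_84 : T TT 256 :=
  (.l (.s k20 k40 5 (.s k150 k215 8 (.s k105 k195 14 (.s k125 k65 5 (.d k255 k190 k170 8 14))))))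

def s15_51_86 : T TT 256 :=
  (.l (.s k20 k40 5 (.s k150 k215 8 (.s k105 k195 14 (.s k125 k65 5 (.d k255 k190 k170 8 14))))))

def s15_51_87 : T TT 256 :=
  (.l (.s k20 k40 5 (.s k150 k215 8 (.s k105 k195 14 (.s k125 k65 5 (.d k255 k190 k170 8 14))))))

def s15_51_88 : T TT 256 :=
  (.l (.s k20 k40 5 (.s k150 k215 8 (.s k105 k195 14 (.s k125 k65 5 (.d k255 k190 k170 8 14))))))

def s15_51_89 : T TT 256 :=
  (.l (.s k20 k40 5 (.s k150 k215 8 (.s k105 k195 14 (.s k125 k65 5 (.d k255 k190 k170 8 14))))))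

def s15_51_90 : T TT 256 :=
  (.l (.s k20 k40 5 (.s k150 k215 8 (.s k105 k195 14 (.s k125 k65 5 (.d k255 k190 k170 8 14))))))

def s15_51_91 : T TT 256 :=
  (.l (.s k20 k40 5 (.s k150 k215 8 (.s k105 k195 14 (.s k125 k65 5 (.d k255 k190 k170 8 14))))))

def s15_51_92 : T TT 256 :=
  (.l (.s k20 k40 5 (.s k150 k215 8 (.s k105 k195 14 (.s k125 k65 5 (.d k255 k190 k170 8 14))))))

def s15_51_93 : T TT 256 :=
  (.l (.s k20 k40 5 (.s k150 k215 8 (.s k105 k195 14 (.s k125 k65 5 (.d k255 k190 k170 8 14))))))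

def s15_51_94 : T TT 256 :=
  (.l (.s k20 k40 5 (.s k150 k215 8 (.s k105 k195 14 (.s k125 k65 5 (.d k255 k190 k170 8 14))))))

def s15_51_95 : T TT 256 :=
  (.l (.s k20 k40 5 (.s k150 k215 8 (.s k105 k195 14 (.s k125 k65 5 (.d k255 k190 k170 8 14))))))

def s15_51_96 : T TT 256 :=
  (.l (.s k20 k40 5 (.s k150 k215 8 (.s k105 k195 14 (.s k125 k65 5 (.d k255 k190 k170 8 14))))))

def s15_51_97 : T TT 256 :=
  (.l (.s k20 k40 5 (.s k150 k215 8 (.s k105 k195 14 (.s k125 k65 5 (.d k255 k190 k170 8 14))))))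

def s15_51_98 : T TT 256 :=
  (.l (.s k20 k40 5 (.s k150 k215 8 (.s k105 k195 14 (.s k125 k65 5 (.d k255 k190 k170 8 14))))))

def s15_51_99 : T TT 256 :=
  (.l (.s k20 k40 5 (.s k150 k215 8 (.s k170 k255 14 (.s k130 k190 5 (.d k195 k65 k105 8 14))))))

def s15_51_100 : T TT 256 :=
  (.l (.s k20 k40 5 (.s k150 k215 8 (.s k105 k195 14 (.s k125 k65 5 (.d k255 k190 k170 8 14))))))

def s15_51_101 : T TT 256 :=
  (.l (.s k20 k40 5 (.s k150 k215 8 (.s k105 k195 14 (.s k125 k65 5 (.d k255 k190 k170 8 14))))))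

def s15_51_102 : T TT 256 :=
  (.l (.s k20 k40 5 (.s k150 k215 8 (.s k105 k195 14 (.s k125 k65 5 (.d k255 k190 k170 8 14))))))

def s15_51_103 : T TT 256 :=
  (.l (.s k20 k40 5 (.s k150 k215 8 (.s k105 k195 14 (.s k125 k65 5 (.d k255 k190 k170 8 14))))))

def s15_51_104 : T TT 256 :=
  (.l (.s k20 k40 5 (.s k150 k215 8 (.s k105 k195 14 (.s k125 k65 5 (.d k255 k190 k170 8 14))))))

def s15_51_105 : T TT 256 :=
  (.f k255 k170 14 (.f k40 k20 5 (.f k190 k125 8 (.q k186 [(.s k48 k117 10 (.s k56 k52 1 (.s k182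
  k178 1 (.d k121 k251 k243 8 10)))), (.s k48 k117 10 (.s k32 k16 3 (.s k36 k44 1 (.s k24 k12 5 (.d
  k56 k52 k8 1 3))))), (.s k182 k178 1 (.s k243 k121 10 (.s k81 k162 12 (.s k89 k93 1 (.s k166 k12
  14 (.d k247 k251 k4 1 12))))))] (.c k27 (.q k39 [(.s k48 k117 10 (.s k56 k52 1 (.s k182 k178 1 (.d
  k121 k251 k243 8 10)))), (.s k48 k117 10 (.s k32 k16 3 (.s k36 k44 1 (.s k24 k12 5 (.d k56 k52 k8
  1 3))))), (.s k182 k178 1 (.s k243 k121 10 (.s k81 k162 12 (.s k89 k93 1 (.s k166 k12 14 (.d k247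
  k251 k4 1 12))))))] (.c k113 (.l (.s k117 k48 10 (.s k182 k178 1 (.s k243 k121 10 (.d k247 k251
  k52 1 8))))) (.c k117 (.l (.s k182 k178 1 (.s k121 k243 10 (.s k56 k251 8 (.s k48 k52 1 (.s k32
  k16 3 (.s k36 k44 1 (.d k24 k8 k12 3 5)))))))) (.c k121 (.l (.s k117 k48 10 (.s k182 k178 1 (.s
  k247 k52 8 (.s k243 k251 1 (.s k81 k162 12 (.s k89 k93 1 (.d k166 k4 k12 12 14)))))))) .n)))) (.c
  k39 (.q k27 [(.s k48 k117 10 (.s k56 k52 1 (.s k182 k178 1 (.d k121 k251 k243 8 10)))), (.s k48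
  k117 10 (.s k32 k16 3 (.s k36 k44 1 (.s k24 k12 5 (.d k56 k52 k8 1 3))))), (.s k182 k178 1 (.s
  k243 k121 10 (.s k81 k162 12 (.s k89 k93 1 (.s k166 k12 14 (.d k247 k251 k4 1 12))))))] (.c k113
  (.l (.s k117 k48 10 (.s k182 k178 1 (.s k243 k121 10 (.d k247 k251 k52 1 8))))) (.c k117 (.l (.s
  k182 k178 1 (.s k121 k243 10 (.s k56 k251 8 (.s k48 k52 1 (.s k32 k16 3 (.s k36 k44 1 (.d k24 k8
  k12 3 5)))))))) (.c k121 (.l (.s k117 k48 10 (.s k182 k178 1 (.s k247 k52 8 (.s k243 k251 1 (.s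
  k81 k162 12 (.s k89 k93 1 (.d k166 k4 k12 12 14)))))))) .n)))) (.c k113 (.l (.s k117 k48 10 (.s
  k182 k178 1 (.s k243 k121 10 (.d k247 k251 k52 1 8))))) (.c k117 (.l (.s k182 k178 1 (.s k121 k243
  10 (.s k56 k251 8 (.s k48 k52 1 (.s k32 k16 3 (.s k36 k44 1 (.d k24 k8 k12 3 5)))))))) (.c k121
  (.l (.s k117 k48 10 (.s k182 k178 1 (.s k247 k52 8 (.s k243 k251 1 (.s k81 k162 12 (.s k89 k93 1
  (.d k166 k4 k12 12 14)))))))) .n)))))))))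

def s15_51_106 : T TT 256 :=
  (.l (.s k20 k40 5 (.s k150 k215 8 (.s k105 k195 14 (.s k125 k65 5 (.d k255 k190 k170 8 14))))))

def s15_51_107 : T TT 256 :=
  (.l (.s k20 k40 5 (.s k150 k215 8 (.s k105 k195 14 (.s k125 k65 5 (.d k255 k190 k170 8 14))))))

def s15_51_108 : T TT 256 :=
  (.l (.s k20 k40 5 (.s k150 k215 8 (.s k105 k195 14 (.s k125 k65 5 (.d k255 k190 k170 8 14))))))

def s15_51_109 : T TT 256 :=
  (.l (.s k20 k40 5 (.s k150 k215 8 (.s k105 k195 14 (.s k125 k65 5 (.d k255 k190 k170 8 14))))))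

def s15_51_110 : T TT 256 :=
  (.l (.s k20 k40 5 (.s k150 k215 8 (.s k105 k195 14 (.s k125 k65 5 (.d k255 k190 k170 8 14))))))

def s15_51_111 : T TT 256 :=
  (.l (.s k20 k40 5 (.s k150 k215 8 (.s k105 k195 14 (.s k125 k65 5 (.d k255 k190 k170 8 14))))))

def s15_51_112 : T TT 256 :=
  (.l (.s k20 k40 5 (.s k150 k215 8 (.s k105 k195 14 (.s k125 k65 5 (.d k255 k190 k170 8 14))))))

def s15_51_113 : T TT 256 :=
  (.l (.s k20 k40 5 (.s k150 k215 8 (.s k105 k195 14 (.s k125 k65 5 (.d k255 k190 k170 8 14))))))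

def s15_51_114 : T TT 256 :=
  (.l (.s k20 k40 5 (.s k150 k215 8 (.s k105 k195 14 (.s k125 k65 5 (.d k255 k190 k170 8 14))))))

def s15_51_115 : T TT 256 :=
  (.l (.s k20 k40 5 (.s k150 k215 8 (.s k105 k195 14 (.s k125 k65 5 (.d k255 k190 k170 8 14))))))

def s15_51_116 : T TT 256 :=
  (.l (.s k20 k40 5 (.s k150 k215 8 (.s k105 k195 14 (.s k125 k65 5 (.d k255 k190 k170 8 14))))))

def s15_51_117 : T TT 256 :=
  (.l (.s k20 k40 5 (.s k150 k215 8 (.s k105 k195 14 (.s k125 k65 5 (.d k255 k190 k170 8 14))))))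

def s15_51_118 : T TT 256 :=
  (.l (.s k20 k40 5 (.s k150 k215 8 (.s k105 k195 14 (.s k125 k65 5 (.d k255 k190 k170 8 14))))))

def s15_51_119 : T TT 256 :=
  (.l (.s k20 k40 5 (.s k150 k215 8 (.s k105 k195 14 (.s k125 k65 5 (.d k255 k190 k170 8 14))))))

def s15_51_120 : T TT 256 :=
  (.l (.s k20 k40 5 (.s k150 k215 8 (.s k105 k195 14 (.s k125 k65 5 (.d k255 k190 k170 8 14))))))

def s15_51_121 : T TT 256 :=
  (.l (.s k20 k40 5 (.s k150 k215 8 (.s k105 k195 14 (.s k125 k65 5 (.d k255 k190 k170 8 14))))))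

def s15_51_122 : T TT 256 :=
  (.l (.s k20 k40 5 (.s k150 k215 8 (.s k105 k195 14 (.s k125 k65 5 (.d k255 k190 k170 8 14))))))

def s15_51_123 : T TT 256 :=
  (.l (.s k20 k40 5 (.s k150 k215 8 (.s k105 k195 14 (.s k125 k65 5 (.d k255 k190 k170 8 14))))))

def s15_51_124 : T TT 256 :=
  (.l (.s k20 k40 5 (.s k150 k215 8 (.s k105 k195 14 (.s k125 k65 5 (.d k255 k190 k170 8 14))))))

def s15_51_125 : T TT 256 :=
  (.l (.s k20 k40 5 (.s k150 k215 8 (.s k170 k255 14 (.s k130 k190 5 (.d k195 k65 k105 8 14))))))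

def s15_51_126 : T TT 256 :=
  (.l (.s k20 k40 5 (.s k150 k215 8 (.s k105 k195 14 (.s k125 k65 5 (.d k255 k190 k170 8 14))))))

def s15_51_127 : T TT 256 :=
  (.l (.s k20 k40 5 (.s k150 k215 8 (.s k105 k195 14 (.s k125 k65 5 (.d k255 k190 k170 8 14))))))

def s15_51_128 : T TT 256 :=
  (.l (.s k20 k40 5 (.s k150 k215 8 (.s k105 k195 14 (.s k125 k65 5 (.d k255 k190 k170 8 14))))))

def s15_51_129 : T TT 256 :=
  (.l (.s k20 k40 5 (.s k150 k215 8 (.s k105 k195 14 (.s k125 k65 5 (.d k255 k190 k170 8 14))))))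

def s15_51_130 : T TT 256 :=
  (.l (.s k20 k40 5 (.s k150 k215 8 (.s k105 k195 14 (.s k125 k65 5 (.d k255 k190 k170 8 14))))))

def s15_51_131 : T TT 256 :=
  (.l (.s k20 k40 5 (.s k150 k215 8 (.s k105 k195 14 (.s k125 k65 5 (.d k255 k190 k170 8 14))))))

def s15_51_132 : T TT 256 :=
  (.l (.s k20 k40 5 (.s k150 k215 8 (.s k105 k195 14 (.s k125 k65 5 (.d k255 k190 k170 8 14))))))

def s15_51_133 : T TT 256 :=
  (.l (.s k20 k40 5 (.s k150 k215 8 (.s k105 k195 14 (.s k125 k65 5 (.d k255 k190 k170 8 14))))))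

def s15_51_134 : T TT 256 :=
  (.l (.s k20 k40 5 (.s k150 k215 8 (.s k105 k195 14 (.s k125 k65 5 (.d k255 k190 k170 8 14))))))

def s15_51_135 : T TT 256 :=
  (.l (.s k20 k40 5 (.s k150 k215 8 (.s k170 k255 14 (.s k130 k190 5 (.d k195 k65 k105 8 14))))))

def s15_51_136 : T TT 256 :=
  (.l (.s k20 k40 5 (.s k150 k215 8 (.s k105 k195 14 (.s k125 k65 5 (.d k255 k190 k170 8 14))))))

def s15_51_137 : T TT 256 :=
  (.l (.s k20 k40 5 (.s k150 k215 8 (.s k105 k195 14 (.s k125 k65 5 (.d k255 k190 k170 8 14))))))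

def s15_51_138 : T TT 256 :=
  (.l (.s k20 k40 5 (.s k150 k215 8 (.s k105 k195 14 (.s k125 k65 5 (.d k255 k190 k170 8 14))))))

def s15_51_139 : T TT 256 :=
  (.l (.s k20 k40 5 (.s k150 k215 8 (.s k105 k195 14 (.s k125 k65 5 (.d k255 k190 k170 8 14))))))

def s15_51_140 : T TT 256 :=
  (.l (.s k20 k40 5 (.s k150 k215 8 (.s k105 k195 14 (.s k125 k65 5 (.d k255 k190 k170 8 14))))))

def s15_51_141 : T TT 256 :=
  (.l (.s k20 k40 5 (.s k150 k215 8 (.s k105 k195 14 (.s k125 k65 5 (.d k255 k190 k170 8 14))))))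

def s15_51_142 : T TT 256 :=
  (.l (.s k20 k40 5 (.s k150 k215 8 (.s k105 k195 14 (.s k125 k65 5 (.d k255 k190 k170 8 14))))))

def s15_51_143 : T TT 256 :=
  (.l (.s k20 k40 5 (.s k150 k215 8 (.s k105 k195 14 (.s k125 k65 5 (.d k255 k190 k170 8 14))))))

def s15_51_144 : T TT 256 :=
  (.l (.s k20 k40 5 (.s k150 k215 8 (.s k105 k195 14 (.s k125 k65 5 (.d k255 k190 k170 8 14))))))

def s15_51_145 : T TT 256 :=
  (.l (.s k20 k40 5 (.s k150 k215 8 (.s k105 k195 14 (.s k125 k65 5 (.d k255 k190 k170 8 14))))))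

def s15_51_146 : T TT 256 :=
  (.l (.s k20 k40 5 (.s k150 k215 8 (.s k105 k195 14 (.s k125 k65 5 (.d k255 k190 k170 8 14))))))

def s15_51_147 : T TT 256 :=
  (.l (.s k20 k40 5 (.s k150 k215 8 (.s k170 k255 14 (.s k130 k190 5 (.d k195 k65 k105 8 14))))))

def s15_51_148 : T TT 256 :=
  (.l (.s k20 k40 5 (.s k150 k215 8 (.s k105 k195 14 (.s k125 k65 5 (.d k255 k190 k170 8 14))))))

def s15_51_149 : T TT 256 :=
  (.l (.s k20 k40 5 (.s k150 k215 8 (.s k105 k195 14 (.s k125 k65 5 (.d k255 k190 k170 8 14))))))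

def s15_51_150 : T TT 256 :=
  (.f k40 k20 5 (.f k255 k170 14 (.f k190 k125 8 (.q k186 [(.s k48 k117 10 (.s k182 k178 1 (.s k121
  k243 10 (.d k56 k52 k251 1 8)))), (.s k117 k48 10 (.s k69 k101 3 (.s k207 k138 10 (.s k158 k109 12
  (.s k174 k142 3 (.s k93 k12 12 (.d k223 k239 k28 3 8))))))), (.s k182 k178 1 (.s k243 k121 10 (.s
  k81 k162 12 (.s k89 k93 1 (.s k166 k12 14 (.d k247 k251 k4 1 12))))))] (.c k27 (.q k39 [(.s k48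
  k117 10 (.s k182 k178 1 (.s k121 k243 10 (.d k56 k52 k251 1 8)))), (.s k117 k48 10 (.s k69 k101 3
  (.s k207 k138 10 (.s k158 k109 12 (.s k174 k142 3 (.s k93 k12 12 (.d k223 k239 k28 3 8))))))), (.s
  k182 k178 1 (.s k243 k121 10 (.s k81 k162 12 (.s k89 k93 1 (.s k166 k12 14 (.d k247 k251 k4 1
  12))))))] (.c k117 (.l (.s k182 k178 1 (.s k121 k243 10 (.s k56 k251 8 (.s k48 k52 1 (.s k32 k16 3
  (.s k36 k44 1 (.d k24 k8 k12 3 5)))))))) .n)) (.c k39 (.q k27 [(.s k48 k117 10 (.s k182 k178 1 (.s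
  k121 k243 10 (.d k56 k52 k251 1 8)))), (.s k117 k48 10 (.s k69 k101 3 (.s k207 k138 10 (.s k158
  k109 12 (.s k174 k142 3 (.s k93 k12 12 (.d k223 k239 k28 3 8))))))), (.s k182 k178 1 (.s k243 k121
  10 (.s k81 k162 12 (.s k89 k93 1 (.s k166 k12 14 (.d k247 k251 k4 1 12))))))] (.c k117 (.l (.s
  k182 k178 1 (.s k121 k243 10 (.s k56 k251 8 (.s k48 k52 1 (.s k32 k16 3 (.s k36 k44 1 (.d k24 k8
  k12 3 5)))))))) .n)) (.c k117 (.l (.s k182 k178 1 (.s k121 k243 10 (.s k56 k251 8 (.s k48 k52 1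
  (.s k32 k16 3 (.s k36 k44 1 (.d k24 k8 k12 3 5)))))))) .n)))))))

def s15_51_151 : T TT 256 :=
  (.l (.s k20 k40 5 (.s k150 k215 8 (.s k105 k195 14 (.s k125 k65 5 (.d k255 k190 k170 8 14))))))

def s15_51_152 : T TT 256 :=
  (.l (.s k20 k40 5 (.s k150 k215 8 (.s k105 k195 14 (.s k125 k65 5 (.d k255 k190 k170 8 14))))))

def s15_51_153 : T TT 256 :=
  (.l (.s k20 k40 5 (.s k150 k215 8 (.s k105 k195 14 (.s k125 k65 5 (.d k255 k190 k170 8 14))))))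

def s15_51_154 : T TT 256 :=
  (.l (.s k20 k40 5 (.s k150 k215 8 (.s k105 k195 14 (.s k125 k65 5 (.d k255 k190 k170 8 14))))))

def s15_51_155 : T TT 256 :=
  (.l (.s k20 k40 5 (.s k150 k215 8 (.s k105 k195 14 (.s k125 k65 5 (.d k255 k190 k170 8 14))))))

def s15_51_156 : T TT 256 :=
  (.l (.s k20 k40 5 (.s k150 k215 8 (.s k105 k195 14 (.s k125 k65 5 (.d k255 k190 k170 8 14))))))

def s15_51_157 : T TT 256 :=
  (.l (.s k20 k40 5 (.s k150 k215 8 (.s k105 k195 14 (.s k125 k65 5 (.d k255 k190 k170 8 14))))))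

def s15_51_158 : T TT 256 :=
  (.l (.s k20 k40 5 (.s k150 k215 8 (.s k105 k195 14 (.s k125 k65 5 (.d k255 k190 k170 8 14))))))

def s15_51_159 : T TT 256 :=
  (.l (.s k20 k40 5 (.s k150 k215 8 (.s k105 k195 14 (.s k125 k65 5 (.d k255 k190 k170 8 14))))))

def s15_51_160 : T TT 256 :=
  (.l (.s k20 k40 5 (.s k150 k215 8 (.s k105 k195 14 (.s k125 k65 5 (.d k255 k190 k170 8 14))))))

def s15_51_161 : T TT 256 :=
  (.l (.s k20 k40 5 (.s k150 k215 8 (.s k105 k195 14 (.s k125 k65 5 (.d k255 k190 k170 8 14))))))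

def s15_51_162 : T TT 256 :=
  (.l (.s k20 k40 5 (.s k150 k215 8 (.s k105 k195 14 (.s k125 k65 5 (.d k255 k190 k170 8 14))))))

def s15_51_163 : T TT 256 :=
  (.l (.s k20 k40 5 (.s k150 k215 8 (.s k105 k195 14 (.s k125 k65 5 (.d k255 k190 k170 8 14))))))

def s15_51_164 : T TT 256 :=
  (.l (.s k20 k40 5 (.s k150 k215 8 (.s k105 k195 14 (.s k125 k65 5 (.d k255 k190 k170 8 14))))))

def s15_51_165 : T TT 256 :=
  (.l (.s k20 k40 5 (.s k150 k215 8 (.s k105 k195 14 (.s k125 k65 5 (.d k255 k190 k170 8 14))))))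

def s15_51_166 : T TT 256 :=
  (.l (.s k20 k40 5 (.s k150 k215 8 (.s k105 k195 14 (.s k125 k65 5 (.d k255 k190 k170 8 14))))))

def s15_51_167 : T TT 256 :=
  (.l (.s k20 k40 5 (.s k150 k215 8 (.s k105 k195 14 (.s k125 k65 5 (.d k255 k190 k170 8 14))))))

def s15_51_168 : T TT 256 :=
  (.l (.s k20 k40 5 (.s k150 k215 8 (.s k105 k195 14 (.s k125 k65 5 (.d k255 k190 k170 8 14))))))

def s15_51_169 : T TT 256 :=
  (.l (.s k20 k40 5 (.s k150 k215 8 (.s k105 k195 14 (.s k125 k65 5 (.d k255 k190 k170 8 14))))))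

def s15_51_170 : T TT 256 :=
  (.q k192 [(.s k20 k40 5 (.s k128 k64 7 (.s k148 k104 13 (.s k84 k212 7 (.d k168 k188 k252 5
  13))))), (.s k20 k40 5 (.s k64 k128 7 (.s k106 k127 6 (.s k150 k215 8 (.s k62 k194 13 (.d k63 k149
  k61 14 0)))))), (.s k64 k128 7 (.s k104 k148 13 (.s k106 k127 6 (.s k105 k107 0 (.s k65 k125 5 (.d
  k195 k130 k150 8 14)))))), (.s k20 k40 5 (.s k148 k104 13 (.s k150 k215 8 (.s k149 k151 0 (.s k21
  k213 7 (.d k63 k42 k106 6 14))))))] (.c k27 (.q k39 [(.s k20 k40 5 (.s k128 k64 7 (.s k148 k104 13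
  (.s k84 k212 7 (.d k168 k188 k252 5 13))))), (.s k20 k40 5 (.s k64 k128 7 (.s k106 k127 6 (.s k150
  k215 8 (.s k62 k194 13 (.d k63 k149 k61 14 0)))))), (.s k64 k128 7 (.s k104 k148 13 (.s k106 k127
  6 (.s k105 k107 0 (.s k65 k125 5 (.d k195 k130 k150 8 14)))))), (.s k20 k40 5 (.s k148 k104 13 (.s
  k150 k215 8 (.s k149 k151 0 (.s k21 k213 7 (.d k63 k42 k106 6 14))))))] (.c k105 (.l (.s k40 k20 5
  (.s k64 k128 7 (.s k104 k148 13 (.s k84 k124 5 (.d k168 k232 k252 7 13)))))) .n)) (.c k39 (.q k27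
  [(.s k20 k40 5 (.s k128 k64 7 (.s k148 k104 13 (.s k84 k212 7 (.d k168 k188 k252 5 13))))), (.s
  k20 k40 5 (.s k64 k128 7 (.s k106 k127 6 (.s k150 k215 8 (.s k62 k194 13 (.d k63 k149 k61 14
  0)))))), (.s k64 k128 7 (.s k104 k148 13 (.s k106 k127 6 (.s k105 k107 0 (.s k65 k125 5 (.d k195
  k130 k150 8 14)))))), (.s k20 k40 5 (.s k148 k104 13 (.s k150 k215 8 (.s k149 k151 0 (.s k21 k213
  7 (.d k63 k42 k106 6 14))))))] (.c k105 (.l (.s k40 k20 5 (.s k64 k128 7 (.s k104 k148 13 (.s k84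
  k124 5 (.d k168 k232 k252 7 13)))))) .n)) (.c k105 (.l (.s k40 k20 5 (.s k64 k128 7 (.s k104 k148
  13 (.s k84 k124 5 (.d k168 k232 k252 7 13)))))) .n))))

def s15_51_171 : T TT 256 :=
  (.l (.s k20 k40 5 (.s k150 k215 8 (.s k105 k195 14 (.s k125 k65 5 (.d k255 k190 k170 8 14))))))

def s15_51_172 : T TT 256 :=
  (.l (.s k20 k40 5 (.s k150 k215 8 (.s k105 k195 14 (.s k125 k65 5 (.d k255 k190 k170 8 14))))))

def s15_51_173 : T TT 256 :=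
  (.l (.s k20 k40 5 (.s k150 k215 8 (.s k105 k195 14 (.s k125 k65 5 (.d k255 k190 k170 8 14))))))

def s15_51_174 : T TT 256 :=
  (.l (.s k20 k40 5 (.s k150 k215 8 (.s k105 k195 14 (.s k125 k65 5 (.d k255 k190 k170 8 14))))))

def s15_51_175 : T TT 256 :=
  (.l (.s k20 k40 5 (.s k150 k215 8 (.s k105 k195 14 (.s k125 k65 5 (.d k255 k190 k170 8 14))))))

def s15_51_176 : T TT 256 :=
  (.l (.s k20 k40 5 (.s k150 k215 8 (.s k105 k195 14 (.s k125 k65 5 (.d k255 k190 k170 8 14))))))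

def s15_51_177 : T TT 256 :=
  (.l (.s k20 k40 5 (.s k150 k215 8 (.s k105 k195 14 (.s k125 k65 5 (.d k255 k190 k170 8 14))))))

def s15_51_178 : T TT 256 :=
  (.l (.s k20 k40 5 (.s k150 k215 8 (.s k105 k195 14 (.s k125 k65 5 (.d k255 k190 k170 8 14))))))

def s15_51_179 : T TT 256 :=
  (.l (.s k20 k40 5 (.s k150 k215 8 (.s k105 k195 14 (.s k125 k65 5 (.d k255 k190 k170 8 14))))))

def s15_51_180 : T TT 256 :=
  (.l (.s k20 k40 5 (.s k150 k215 8 (.s k105 k195 14 (.s k125 k65 5 (.d k255 k190 k170 8 14))))))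

def s15_51_181 : T TT 256 :=
  (.l (.s k20 k40 5 (.s k150 k215 8 (.s k105 k195 14 (.s k125 k65 5 (.d k255 k190 k170 8 14))))))

def s15_51_182 : T TT 256 :=
  (.l (.s k20 k40 5 (.s k150 k215 8 (.s k105 k195 14 (.s k125 k65 5 (.d k255 k190 k170 8 14))))))

def s15_51_183 : T TT 256 :=
  (.l (.s k20 k40 5 (.s k150 k215 8 (.s k105 k195 14 (.s k125 k65 5 (.d k255 k190 k170 8 14))))))

def s15_51_184 : T TT 256 :=
  (.l (.s k20 k40 5 (.s k150 k215 8 (.s k105 k195 14 (.s k125 k65 5 (.d k255 k190 k170 8 14))))))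

def s15_51_185 : T TT 256 :=
  (.l (.s k20 k40 5 (.s k150 k215 8 (.s k105 k195 14 (.s k125 k65 5 (.d k255 k190 k170 8 14))))))

def s15_51_186 : T TT 256 :=
  (.l (.s k20 k40 5 (.s k150 k215 8 (.s k105 k195 14 (.s k125 k65 5 (.d k255 k190 k170 8 14))))))

def s15_51_187 : T TT 256 :=
  (.l (.s k20 k40 5 (.s k150 k215 8 (.s k105 k195 14 (.s k125 k65 5 (.d k255 k190 k170 8 14))))))

def s15_51_188 : T TT 256 :=
  (.l (.s k20 k40 5 (.s k150 k215 8 (.s k105 k195 14 (.s k125 k65 5 (.d k255 k190 k170 8 14))))))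

def s15_51_189 : T TT 256 :=
  (.l (.s k20 k40 5 (.s k150 k215 8 (.s k105 k195 14 (.s k125 k65 5 (.d k255 k190 k170 8 14))))))

def s15_51_190 : T TT 256 :=
  (.l (.s k40 k20 5 (.s k170 k255 14 (.s k105 k235 8 (.s k65 k125 5 (.d k195 k130 k150 8 14))))))

def s15_51_191 : T TT 256 :=
  (.l (.s k20 k40 5 (.s k150 k215 8 (.s k105 k195 14 (.s k125 k65 5 (.d k255 k190 k170 8 14))))))

def s15_51_192 : T TT 256 :=
  (.l (.s k20 k40 5 (.s k150 k215 8 (.s k105 k195 14 (.s k125 k65 5 (.d k255 k190 k170 8 14))))))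

def s15_51_193 : T TT 256 :=
  (.l (.s k20 k40 5 (.s k150 k215 8 (.s k105 k195 14 (.s k125 k65 5 (.d k255 k190 k170 8 14))))))

def s15_51_194 : T TT 256 :=
  (.l (.s k20 k40 5 (.s k150 k215 8 (.s k105 k195 14 (.s k125 k65 5 (.d k255 k190 k170 8 14))))))

def s15_51_195 : T TT 256 :=
  (.f k255 k170 14 (.f k40 k20 5 (.f k190 k125 8 (.q k41 [(.s k3 k22 6 (.s k1 k2 0 (.s k42 k43 0 (.d
  k21 k61 k63 5 6)))), (.s k3 k22 6 (.s k87 k171 13 (.s k86 k84 0 (.s k169 k252 14 (.d k1 k2 k253 0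
  13))))), (.s k42 k43 0 (.s k63 k21 6 (.s k62 k61 0 (.s k191 k127 7 (.s k189 k188 0 (.d k126 k254
  k252 7 8))))))] (.c k21 (.l (.s k22 k3 6 (.s k42 k43 0 (.s k62 k2 5 (.s k63 k61 0 (.s k191 k127 7
  (.s k189 k188 0 (.d k126 k254 k252 7 8)))))))) (.c k22 (.l (.s k42 k43 0 (.s k21 k63 6 (.s k1 k61
  5 (.s k3 k2 0 (.s k87 k171 13 (.s k86 k84 0 (.d k169 k253 k252 13 14)))))))) (.c k23 (.l (.s k22
  k3 6 (.s k42 k43 0 (.s k63 k21 6 (.d k62 k61 k2 0 5))))) (.c k27 (.q k39 [(.s k3 k22 6 (.s k1 k2 0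
  (.s k21 k61 5 (.d k42 k43 k63 0 6)))), (.s k3 k22 6 (.s k87 k171 13 (.s k86 k84 0 (.s k169 k252 14
  (.d k1 k2 k253 0 13))))), (.s k42 k43 0 (.s k63 k21 6 (.s k62 k61 0 (.s k191 k127 7 (.s k189 k188
  0 (.d k126 k254 k252 7 8))))))] (.c k21 (.l (.s k22 k3 6 (.s k42 k43 0 (.s k62 k2 5 (.s k63 k61 0
  (.s k191 k127 7 (.s k189 k188 0 (.d k126 k254 k252 7 8)))))))) (.c k22 (.l (.s k42 k43 0 (.s k21
  k63 6 (.s k1 k61 5 (.s k3 k2 0 (.s k87 k171 13 (.s k86 k84 0 (.d k169 k253 k252 13 14)))))))) (.c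
  k23 (.l (.s k22 k3 6 (.s k42 k43 0 (.s k63 k21 6 (.d k62 k61 k2 0 5))))) (.c k75 (.q k135 [(.s k3
  k22 6 (.s k1 k2 0 (.s k21 k61 5 (.d k42 k43 k63 0 6)))), (.s k3 k22 6 (.s k87 k171 13 (.s k86 k84
  0 (.s k169 k252 14 (.d k1 k2 k253 0 13))))), (.s k42 k43 0 (.s k63 k21 6 (.s k62 k61 0 (.s k191
  k127 7 (.s k189 k188 0 (.d k126 k254 k252 7 8))))))] (.c k21 (.l (.s k22 k3 6 (.s k42 k43 0 (.s
  k62 k2 5 (.s k63 k61 0 (.s k191 k127 7 (.s k189 k188 0 (.d k126 k254 k252 7 8)))))))) (.c k22 (.l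
  (.s k42 k43 0 (.s k21 k63 6 (.s k1 k61 5 (.s k3 k2 0 (.s k87 k171 13 (.s k86 k84 0 (.d k169 k253
  k252 13 14)))))))) (.c k23 (.l (.s k22 k3 6 (.s k42 k43 0 (.s k63 k21 6 (.d k62 k61 k2 0 5)))))
  (.c k99 (.q k147 [(.s k3 k22 6 (.s k1 k2 0 (.s k21 k61 5 (.d k42 k43 k63 0 6)))), (.s k3 k22 6 (.s
  k87 k171 13 (.s k86 k84 0 (.s k169 k252 14 (.d k1 k2 k253 0 13))))), (.s k42 k43 0 (.s k63 k21 6
  (.s k62 k61 0 (.s k191 k127 7 (.s k189 k188 0 (.d k126 k254 k252 7 8))))))] (.c k21 (.l (.s k22 k3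
  6 (.s k42 k43 0 (.s k62 k2 5 (.s k63 k61 0 (.s k191 k127 7 (.s k189 k188 0 (.d k126 k254 k252 7
  8)))))))) (.c k22 (.l (.s k42 k43 0 (.s k21 k63 6 (.s k1 k61 5 (.s k3 k2 0 (.s k87 k171 13 (.s k86
  k84 0 (.d k169 k253 k252 13 14)))))))) (.c k23 (.l (.s k22 k3 6 (.s k42 k43 0 (.s k63 k21 6 (.d
  k62 k61 k2 0 5))))) (.c k253 (.l (.s k3 k22 6 (.s k1 k2 0 (.s k42 k43 0 (.d k21 k61 k63 5 6)))))
  .n))))) (.c k147 (.q k99 [(.s k3 k22 6 (.s k1 k2 0 (.s k21 k61 5 (.d k42 k43 k63 0 6)))), (.s k3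
  k22 6 (.s k87 k171 13 (.s k86 k84 0 (.s k169 k252 14 (.d k1 k2 k253 0 13))))), (.s k42 k43 0 (.s
  k63 k21 6 (.s k62 k61 0 (.s k191 k127 7 (.s k189 k188 0 (.d k126 k254 k252 7 8))))))] (.c k21 (.l
  (.s k22 k3 6 (.s k42 k43 0 (.s k62 k2 5 (.s k63 k61 0 (.s k191 k127 7 (.s k189 k188 0 (.d k126
  k254 k252 7 8)))))))) (.c k22 (.l (.s k42 k43 0 (.s k21 k63 6 (.s k1 k61 5 (.s k3 k2 0 (.s k87
  k171 13 (.s k86 k84 0 (.d k169 k253 k252 13 14)))))))) (.c k23 (.l (.s k22 k3 6 (.s k42 k43 0 (.s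
  k63 k21 6 (.d k62 k61 k2 0 5))))) (.c k253 (.l (.s k3 k22 6 (.s k1 k2 0 (.s k42 k43 0 (.d k21 k61
  k63 5 6))))) .n))))) (.c k253 (.l (.s k3 k22 6 (.s k1 k2 0 (.s k42 k43 0 (.d k21 k61 k63 5 6)))))
  .n))))))) (.c k99 (.q k147 [(.s k3 k22 6 (.s k1 k2 0 (.s k21 k61 5 (.d k42 k43 k63 0 6)))), (.s k3
  k22 6 (.s k87 k171 13 (.s k86 k84 0 (.s k169 k252 14 (.d k1 k2 k253 0 13))))), (.s k42 k43 0 (.s
  k63 k21 6 (.s k62 k61 0 (.s k191 k127 7 (.s k189 k188 0 (.d k126 k254 k252 7 8))))))] (.c k21 (.l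
  (.s k22 k3 6 (.s k42 k43 0 (.s k62 k2 5 (.s k63 k61 0 (.s k191 k127 7 (.s k189 k188 0 (.d k126
  k254 k252 7 8)))))))) (.c k22 (.l (.s k42 k43 0 (.s k21 k63 6 (.s k1 k61 5 (.s k3 k2 0 (.s k87
  k171 13 (.s k86 k84 0 (.d k169 k253 k252 13 14)))))))) (.c k23 (.l (.s k22 k3 6 (.s k42 k43 0 (.s
  k63 k21 6 (.d k62 k61 k2 0 5))))) (.c k75 (.q k135 [(.s k3 k22 6 (.s k1 k2 0 (.s k21 k61 5 (.d k42
  k43 k63 0 6)))), (.s k3 k22 6 (.s k87 k171 13 (.s k86 k84 0 (.s k169 k252 14 (.d k1 k2 k253 0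
  13))))), (.s k42 k43 0 (.s k63 k21 6 (.s k62 k61 0 (.s k191 k127 7 (.s k189 k188 0 (.d k126 k254
  k252 7 8))))))] (.c k21 (.l (.s k22 k3 6 (.s k42 k43 0 (.s k62 k2 5 (.s k63 k61 0 (.s k191 k127 7
  (.s k189 k188 0 (.d k126 k254 k252 7 8)))))))) (.c k22 (.l (.s k42 k43 0 (.s k21 k63 6 (.s k1 k61
  5 (.s k3 k2 0 (.s k87 k171 13 (.s k86 k84 0 (.d k169 k253 k252 13 14)))))))) (.c k23 (.l (.s k22
  k3 6 (.s k42 k43 0 (.s k63 k21 6 (.d k62 k61 k2 0 5))))) (.c k253 (.l (.s k3 k22 6 (.s k1 k2 0 (.s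
  k42 k43 0 (.d k21 k61 k63 5 6))))) .n))))) (.c k135 (.q k75 [(.s k3 k22 6 (.s k1 k2 0 (.s k21 k61
  5 (.d k42 k43 k63 0 6)))), (.s k3 k22 6 (.s k87 k171 13 (.s k86 k84 0 (.s k169 k252 14 (.d k1 k2
  k253 0 13))))), (.s k42 k43 0 (.s k63 k21 6 (.s k62 k61 0 (.s k191 k127 7 (.s k189 k188 0 (.d k126
  k254 k252 7 8))))))] (.c k21 (.l (.s k22 k3 6 (.s k42 k43 0 (.s k62 k2 5 (.s k63 k61 0 (.s k191
  k127 7 (.s k189 k188 0 (.d k126 k254 k252 7 8)))))))) (.c k22 (.l (.s k42 k43 0 (.s k21 k63 6 (.s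
  k1 k61 5 (.s k3 k2 0 (.s k87 k171 13 (.s k86 k84 0 (.d k169 k253 k252 13 14)))))))) (.c k23 (.l
  (.s k22 k3 6 (.s k42 k43 0 (.s k63 k21 6 (.d k62 k61 k2 0 5))))) (.c k253 (.l (.s k3 k22 6 (.s k1
  k2 0 (.s k42 k43 0 (.d k21 k61 k63 5 6))))) .n))))) (.c k253 (.l (.s k3 k22 6 (.s k1 k2 0 (.s k42
  k43 0 (.d k21 k61 k63 5 6))))) .n))))))) (.c k135 (.q k75 [(.s k3 k22 6 (.s k1 k2 0 (.s k21 k61 5
  (.d k42 k43 k63 0 6)))), (.s k3 k22 6 (.s k87 k171 13 (.s k86 k84 0 (.s k169 k252 14 (.d k1 k2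
  k253 0 13))))), (.s k42 k43 0 (.s k63 k21 6 (.s k62 k61 0 (.s k191 k127 7 (.s k189 k188 0 (.d k126
  k254 k252 7 8))))))] (.c k21 (.l (.s k22 k3 6 (.s k42 k43 0 (.s k62 k2 5 (.s k63 k61 0 (.s k191
  k127 7 (.s k189 k188 0 (.d k126 k254 k252 7 8)))))))) (.c k22 (.l (.s k42 k43 0 (.s k21 k63 6 (.s
  k1 k61 5 (.s k3 k2 0 (.s k87 k171 13 (.s k86 k84 0 (.d k169 k253 k252 13 14)))))))) (.c k23 (.l
  (.s k22 k3 6 (.s k42 k43 0 (.s k63 k21 6 (.d k62 k61 k2 0 5))))) (.c k99 (.q k147 [(.s k3 k22 6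
  (.s k1 k2 0 (.s k21 k61 5 (.d k42 k43 k63 0 6)))), (.s k3 k22 6 (.s k87 k171 13 (.s k86 k84 0 (.s
  k169 k252 14 (.d k1 k2 k253 0 13))))), (.s k42 k43 0 (.s k63 k21 6 (.s k62 k61 0 (.s k191 k127 7
  (.s k189 k188 0 (.d k126 k254 k252 7 8))))))] (.c k21 (.l (.s k22 k3 6 (.s k42 k43 0 (.s k62 k2 5
  (.s k63 k61 0 (.s k191 k127 7 (.s k189 k188 0 (.d k126 k254 k252 7 8)))))))) (.c k22 (.l (.s k42
  k43 0 (.s k21 k63 6 (.s k1 k61 5 (.s k3 k2 0 (.s k87 k171 13 (.s k86 k84 0 (.d k169 k253 k252 13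
  14)))))))) (.c k23 (.l (.s k22 k3 6 (.s k42 k43 0 (.s k63 k21 6 (.d k62 k61 k2 0 5))))) (.c k253
  (.l (.s k3 k22 6 (.s k1 k2 0 (.s k42 k43 0 (.d k21 k61 k63 5 6))))) .n))))) (.c k147 (.q k99 [(.s
  k3 k22 6 (.s k1 k2 0 (.s k21 k61 5 (.d k42 k43 k63 0 6)))), (.s k3 k22 6 (.s k87 k171 13 (.s k86
  k84 0 (.s k169 k252 14 (.d k1 k2 k253 0 13))))), (.s k42 k43 0 (.s k63 k21 6 (.s k62 k61 0 (.s
  k191 k127 7 (.s k189 k188 0 (.d k126 k254 k252 7 8))))))] (.c k21 (.l (.s k22 k3 6 (.s k42 k43 0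
  (.s k62 k2 5 (.s k63 k61 0 (.s k191 k127 7 (.s k189 k188 0 (.d k126 k254 k252 7 8)))))))) (.c k22
  (.l (.s k42 k43 0 (.s k21 k63 6 (.s k1 k61 5 (.s k3 k2 0 (.s k87 k171 13 (.s k86 k84 0 (.d k169
  k253 k252 13 14)))))))) (.c k23 (.l (.s k22 k3 6 (.s k42 k43 0 (.s k63 k21 6 (.d k62 k61 k2 0
  5))))) (.c k253 (.l (.s k3 k22 6 (.s k1 k2 0 (.s k42 k43 0 (.d k21 k61 k63 5 6))))) .n))))) (.c
  k253 (.l (.s k3 k22 6 (.s k1 k2 0 (.s k42 k43 0 (.d k21 k61 k63 5 6))))) .n))))))) (.c k147 (.q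
  k99 [(.s k3 k22 6 (.s k1 k2 0 (.s k21 k61 5 (.d k42 k43 k63 0 6)))), (.s k3 k22 6 (.s k87 k171 13
  (.s k86 k84 0 (.s k169 k252 14 (.d k1 k2 k253 0 13))))), (.s k42 k43 0 (.s k63 k21 6 (.s k62 k61 0
  (.s k191 k127 7 (.s k189 k188 0 (.d k126 k254 k252 7 8))))))] (.c k21 (.l (.s k22 k3 6 (.s k42 k43
  0 (.s k62 k2 5 (.s k63 k61 0 (.s k191 k127 7 (.s k189 k188 0 (.d k126 k254 k252 7 8)))))))) (.c
  k22 (.l (.s k42 k43 0 (.s k21 k63 6 (.s k1 k61 5 (.s k3 k2 0 (.s k87 k171 13 (.s k86 k84 0 (.d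
  k169 k253 k252 13 14)))))))) (.c k23 (.l (.s k22 k3 6 (.s k42 k43 0 (.s k63 k21 6 (.d k62 k61 k2 0
  5))))) (.c k75 (.q k135 [(.s k3 k22 6 (.s k1 k2 0 (.s k21 k61 5 (.d k42 k43 k63 0 6)))), (.s k3
  k22 6 (.s k87 k171 13 (.s k86 k84 0 (.s k169 k252 14 (.d k1 k2 k253 0 13))))), (.s k42 k43 0 (.s
  k63 k21 6 (.s k62 k61 0 (.s k191 k127 7 (.s k189 k188 0 (.d k126 k254 k252 7 8))))))] (.c k21 (.l
  (.s k22 k3 6 (.s k42 k43 0 (.s k62 k2 5 (.s k63 k61 0 (.s k191 k127 7 (.s k189 k188 0 (.d k126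
  k254 k252 7 8)))))))) (.c k22 (.l (.s k42 k43 0 (.s k21 k63 6 (.s k1 k61 5 (.s k3 k2 0 (.s k87
  k171 13 (.s k86 k84 0 (.d k169 k253 k252 13 14)))))))) (.c k23 (.l (.s k22 k3 6 (.s k42 k43 0 (.s
  k63 k21 6 (.d k62 k61 k2 0 5))))) (.c k253 (.l (.s k3 k22 6 (.s k1 k2 0 (.s k42 k43 0 (.d k21 k61
  k63 5 6))))) .n))))) (.c k135 (.q k75 [(.s k3 k22 6 (.s k1 k2 0 (.s k21 k61 5 (.d k42 k43 k63 0
  6)))), (.s k3 k22 6 (.s k87 k171 13 (.s k86 k84 0 (.s k169 k252 14 (.d k1 k2 k253 0 13))))), (.s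
  k42 k43 0 (.s k63 k21 6 (.s k62 k61 0 (.s k191 k127 7 (.s k189 k188 0 (.d k126 k254 k252 7
  8))))))] (.c k21 (.l (.s k22 k3 6 (.s k42 k43 0 (.s k62 k2 5 (.s k63 k61 0 (.s k191 k127 7 (.s
  k189 k188 0 (.d k126 k254 k252 7 8)))))))) (.c k22 (.l (.s k42 k43 0 (.s k21 k63 6 (.s k1 k61 5
  (.s k3 k2 0 (.s k87 k171 13 (.s k86 k84 0 (.d k169 k253 k252 13 14)))))))) (.c k23 (.l (.s k22 k3
  6 (.s k42 k43 0 (.s k63 k21 6 (.d k62 k61 k2 0 5))))) (.c k253 (.l (.s k3 k22 6 (.s k1 k2 0 (.s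
  k42 k43 0 (.d k21 k61 k63 5 6))))) .n))))) (.c k253 (.l (.s k3 k22 6 (.s k1 k2 0 (.s k42 k43 0 (.d
  k21 k61 k63 5 6))))) .n))))))) (.c k253 (.l (.s k3 k22 6 (.s k1 k2 0 (.s k42 k43 0 (.d k21 k61 k63
  5 6))))) .n))))))))) (.c k39 (.q k27 [(.s k3 k22 6 (.s k1 k2 0 (.s k21 k61 5 (.d k42 k43 k63 0
  6)))), (.s k3 k22 6 (.s k87 k171 13 (.s k86 k84 0 (.s k169 k252 14 (.d k1 k2 k253 0 13))))), (.s
  k42 k43 0 (.s k63 k21 6 (.s k62 k61 0 (.s k191 k127 7 (.s k189 k188 0 (.d k126 k254 k252 7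
  8))))))] (.c k21 (.l (.s k22 k3 6 (.s k42 k43 0 (.s k62 k2 5 (.s k63 k61 0 (.s k191 k127 7 (.s
  k189 k188 0 (.d k126 k254 k252 7 8)))))))) (.c k22 (.l (.s k42 k43 0 (.s k21 k63 6 (.s k1 k61 5
  (.s k3 k2 0 (.s k87 k171 13 (.s k86 k84 0 (.d k169 k253 k252 13 14)))))))) (.c k23 (.l (.s k22 k3
  6 (.s k42 k43 0 (.s k63 k21 6 (.d k62 k61 k2 0 5))))) (.c k75 (.q k135 [(.s k3 k22 6 (.s k1 k2 0
  (.s k21 k61 5 (.d k42 k43 k63 0 6)))), (.s k3 k22 6 (.s k87 k171 13 (.s k86 k84 0 (.s k169 k252 14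
  (.d k1 k2 k253 0 13))))), (.s k42 k43 0 (.s k63 k21 6 (.s k62 k61 0 (.s k191 k127 7 (.s k189 k188
  0 (.d k126 k254 k252 7 8))))))] (.c k21 (.l (.s k22 k3 6 (.s k42 k43 0 (.s k62 k2 5 (.s k63 k61 0
  (.s k191 k127 7 (.s k189 k188 0 (.d k126 k254 k252 7 8)))))))) (.c k22 (.l (.s k42 k43 0 (.s k21
  k63 6 (.s k1 k61 5 (.s k3 k2 0 (.s k87 k171 13 (.s k86 k84 0 (.d k169 k253 k252 13 14)))))))) (.c
  k23 (.l (.s k22 k3 6 (.s k42 k43 0 (.s k63 k21 6 (.d k62 k61 k2 0 5))))) (.c k99 (.q k147 [(.s k3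
  k22 6 (.s k1 k2 0 (.s k21 k61 5 (.d k42 k43 k63 0 6)))), (.s k3 k22 6 (.s k87 k171 13 (.s k86 k84
  0 (.s k169 k252 14 (.d k1 k2 k253 0 13))))), (.s k42 k43 0 (.s k63 k21 6 (.s k62 k61 0 (.s k191
  k127 7 (.s k189 k188 0 (.d k126 k254 k252 7 8))))))] (.c k21 (.l (.s k22 k3 6 (.s k42 k43 0 (.s
  k62 k2 5 (.s k63 k61 0 (.s k191 k127 7 (.s k189 k188 0 (.d k126 k254 k252 7 8)))))))) (.c k22 (.l
  (.s k42 k43 0 (.s k21 k63 6 (.s k1 k61 5 (.s k3 k2 0 (.s k87 k171 13 (.s k86 k84 0 (.d k169 k253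
  k252 13 14)))))))) (.c k23 (.l (.s k22 k3 6 (.s k42 k43 0 (.s k63 k21 6 (.d k62 k61 k2 0 5)))))
  (.c k253 (.l (.s k3 k22 6 (.s k1 k2 0 (.s k42 k43 0 (.d k21 k61 k63 5 6))))) .n))))) (.c k147 (.q
  k99 [(.s k3 k22 6 (.s k1 k2 0 (.s k21 k61 5 (.d k42 k43 k63 0 6)))), (.s k3 k22 6 (.s k87 k171 13
  (.s k86 k84 0 (.s k169 k252 14 (.d k1 k2 k253 0 13))))), (.s k42 k43 0 (.s k63 k21 6 (.s k62 k61 0
  (.s k191 k127 7 (.s k189 k188 0 (.d k126 k254 k252 7 8))))))] (.c k21 (.l (.s k22 k3 6 (.s k42 k43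
  0 (.s k62 k2 5 (.s k63 k61 0 (.s k191 k127 7 (.s k189 k188 0 (.d k126 k254 k252 7 8)))))))) (.c
  k22 (.l (.s k42 k43 0 (.s k21 k63 6 (.s k1 k61 5 (.s k3 k2 0 (.s k87 k171 13 (.s k86 k84 0 (.d
  k169 k253 k252 13 14)))))))) (.c k23 (.l (.s k22 k3 6 (.s k42 k43 0 (.s k63 k21 6 (.d k62 k61 k2 0
  5))))) (.c k253 (.l (.s k3 k22 6 (.s k1 k2 0 (.s k42 k43 0 (.d k21 k61 k63 5 6))))) .n))))) (.c
  k253 (.l (.s k3 k22 6 (.s k1 k2 0 (.s k42 k43 0 (.d k21 k61 k63 5 6))))) .n))))))) (.c k99 (.q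
  k147 [(.s k3 k22 6 (.s k1 k2 0 (.s k21 k61 5 (.d k42 k43 k63 0 6)))), (.s k3 k22 6 (.s k87 k171 13
  (.s k86 k84 0 (.s k169 k252 14 (.d k1 k2 k253 0 13))))), (.s k42 k43 0 (.s k63 k21 6 (.s k62 k61 0
  (.s k191 k127 7 (.s k189 k188 0 (.d k126 k254 k252 7 8))))))] (.c k21 (.l (.s k22 k3 6 (.s k42 k43
  0 (.s k62 k2 5 (.s k63 k61 0 (.s k191 k127 7 (.s k189 k188 0 (.d k126 k254 k252 7 8)))))))) (.c
  k22 (.l (.s k42 k43 0 (.s k21 k63 6 (.s k1 k61 5 (.s k3 k2 0 (.s k87 k171 13 (.s k86 k84 0 (.d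
  k169 k253 k252 13 14)))))))) (.c k23 (.l (.s k22 k3 6 (.s k42 k43 0 (.s k63 k21 6 (.d k62 k61 k2 0
  5))))) (.c k75 (.q k135 [(.s k3 k22 6 (.s k1 k2 0 (.s k21 k61 5 (.d k42 k43 k63 0 6)))), (.s k3
  k22 6 (.s k87 k171 13 (.s k86 k84 0 (.s k169 k252 14 (.d k1 k2 k253 0 13))))), (.s k42 k43 0 (.s
  k63 k21 6 (.s k62 k61 0 (.s k191 k127 7 (.s k189 k188 0 (.d k126 k254 k252 7 8))))))] (.c k21 (.l
  (.s k22 k3 6 (.s k42 k43 0 (.s k62 k2 5 (.s k63 k61 0 (.s k191 k127 7 (.s k189 k188 0 (.d k126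
  k254 k252 7 8)))))))) (.c k22 (.l (.s k42 k43 0 (.s k21 k63 6 (.s k1 k61 5 (.s k3 k2 0 (.s k87
  k171 13 (.s k86 k84 0 (.d k169 k253 k252 13 14)))))))) (.c k23 (.l (.s k22 k3 6 (.s k42 k43 0 (.s
  k63 k21 6 (.d k62 k61 k2 0 5))))) (.c k253 (.l (.s k3 k22 6 (.s k1 k2 0 (.s k42 k43 0 (.d k21 k61
  k63 5 6))))) .n))))) (.c k135 (.q k75 [(.s k3 k22 6 (.s k1 k2 0 (.s k21 k61 5 (.d k42 k43 k63 0
  6)))), (.s k3 k22 6 (.s k87 k171 13 (.s k86 k84 0 (.s k169 k252 14 (.d k1 k2 k253 0 13))))), (.s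
  k42 k43 0 (.s k63 k21 6 (.s k62 k61 0 (.s k191 k127 7 (.s k189 k188 0 (.d k126 k254 k252 7
  8))))))] (.c k21 (.l (.s k22 k3 6 (.s k42 k43 0 (.s k62 k2 5 (.s k63 k61 0 (.s k191 k127 7 (.s
  k189 k188 0 (.d k126 k254 k252 7 8)))))))) (.c k22 (.l (.s k42 k43 0 (.s k21 k63 6 (.s k1 k61 5
  (.s k3 k2 0 (.s k87 k171 13 (.s k86 k84 0 (.d k169 k253 k252 13 14)))))))) (.c k23 (.l (.s k22 k3
  6 (.s k42 k43 0 (.s k63 k21 6 (.d k62 k61 k2 0 5))))) (.c k253 (.l (.s k3 k22 6 (.s k1 k2 0 (.s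
  k42 k43 0 (.d k21 k61 k63 5 6))))) .n))))) (.c k253 (.l (.s k3 k22 6 (.s k1 k2 0 (.s k42 k43 0 (.d
  k21 k61 k63 5 6))))) .n))))))) (.c k135 (.q k75 [(.s k3 k22 6 (.s k1 k2 0 (.s k21 k61 5 (.d k42
  k43 k63 0 6)))), (.s k3 k22 6 (.s k87 k171 13 (.s k86 k84 0 (.s k169 k252 14 (.d k1 k2 k253 0
  13))))), (.s k42 k43 0 (.s k63 k21 6 (.s k62 k61 0 (.s k191 k127 7 (.s k189 k188 0 (.d k126 k254
  k252 7 8))))))] (.c k21 (.l (.s k22 k3 6 (.s k42 k43 0 (.s k62 k2 5 (.s k63 k61 0 (.s k191 k127 7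
  (.s k189 k188 0 (.d k126 k254 k252 7 8)))))))) (.c k22 (.l (.s k42 k43 0 (.s k21 k63 6 (.s k1 k61
  5 (.s k3 k2 0 (.s k87 k171 13 (.s k86 k84 0 (.d k169 k253 k252 13 14)))))))) (.c k23 (.l (.s k22
  k3 6 (.s k42 k43 0 (.s k63 k21 6 (.d k62 k61 k2 0 5))))) (.c k99 (.q k147 [(.s k3 k22 6 (.s k1 k2
  0 (.s k21 k61 5 (.d k42 k43 k63 0 6)))), (.s k3 k22 6 (.s k87 k171 13 (.s k86 k84 0 (.s k169 k252
  14 (.d k1 k2 k253 0 13))))), (.s k42 k43 0 (.s k63 k21 6 (.s k62 k61 0 (.s k191 k127 7 (.s k189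
  k188 0 (.d k126 k254 k252 7 8))))))] (.c k21 (.l (.s k22 k3 6 (.s k42 k43 0 (.s k62 k2 5 (.s k63
  k61 0 (.s k191 k127 7 (.s k189 k188 0 (.d k126 k254 k252 7 8)))))))) (.c k22 (.l (.s k42 k43 0 (.s
  k21 k63 6 (.s k1 k61 5 (.s k3 k2 0 (.s k87 k171 13 (.s k86 k84 0 (.d k169 k253 k252 13 14))))))))
  (.c k23 (.l (.s k22 k3 6 (.s k42 k43 0 (.s k63 k21 6 (.d k62 k61 k2 0 5))))) (.c k253 (.l (.s k3
  k22 6 (.s k1 k2 0 (.s k42 k43 0 (.d k21 k61 k63 5 6))))) .n))))) (.c k147 (.q k99 [(.s k3 k22 6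
  (.s k1 k2 0 (.s k21 k61 5 (.d k42 k43 k63 0 6)))), (.s k3 k22 6 (.s k87 k171 13 (.s k86 k84 0 (.s
  k169 k252 14 (.d k1 k2 k253 0 13))))), (.s k42 k43 0 (.s k63 k21 6 (.s k62 k61 0 (.s k191 k127 7
  (.s k189 k188 0 (.d k126 k254 k252 7 8))))))] (.c k21 (.l (.s k22 k3 6 (.s k42 k43 0 (.s k62 k2 5
  (.s k63 k61 0 (.s k191 k127 7 (.s k189 k188 0 (.d k126 k254 k252 7 8)))))))) (.c k22 (.l (.s k42
  k43 0 (.s k21 k63 6 (.s k1 k61 5 (.s k3 k2 0 (.s k87 k171 13 (.s k86 k84 0 (.d k169 k253 k252 13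
  14)))))))) (.c k23 (.l (.s k22 k3 6 (.s k42 k43 0 (.s k63 k21 6 (.d k62 k61 k2 0 5))))) (.c k253
  (.l (.s k3 k22 6 (.s k1 k2 0 (.s k42 k43 0 (.d k21 k61 k63 5 6))))) .n))))) (.c k253 (.l (.s k3
  k22 6 (.s k1 k2 0 (.s k42 k43 0 (.d k21 k61 k63 5 6))))) .n))))))) (.c k147 (.q k99 [(.s k3 k22 6
  (.s k1 k2 0 (.s k21 k61 5 (.d k42 k43 k63 0 6)))), (.s k3 k22 6 (.s k87 k171 13 (.s k86 k84 0 (.s
  k169 k252 14 (.d k1 k2 k253 0 13))))), (.s k42 k43 0 (.s k63 k21 6 (.s k62 k61 0 (.s k191 k127 7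
  (.s k189 k188 0 (.d k126 k254 k252 7 8))))))] (.c k21 (.l (.s k22 k3 6 (.s k42 k43 0 (.s k62 k2 5
  (.s k63 k61 0 (.s k191 k127 7 (.s k189 k188 0 (.d k126 k254 k252 7 8)))))))) (.c k22 (.l (.s k42
  k43 0 (.s k21 k63 6 (.s k1 k61 5 (.s k3 k2 0 (.s k87 k171 13 (.s k86 k84 0 (.d k169 k253 k252 13
  14)))))))) (.c k23 (.l (.s k22 k3 6 (.s k42 k43 0 (.s k63 k21 6 (.d k62 k61 k2 0 5))))) (.c k75
  (.q k135 [(.s k3 k22 6 (.s k1 k2 0 (.s k21 k61 5 (.d k42 k43 k63 0 6)))), (.s k3 k22 6 (.s k87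
  k171 13 (.s k86 k84 0 (.s k169 k252 14 (.d k1 k2 k253 0 13))))), (.s k42 k43 0 (.s k63 k21 6 (.s
  k62 k61 0 (.s k191 k127 7 (.s k189 k188 0 (.d k126 k254 k252 7 8))))))] (.c k21 (.l (.s k22 k3 6
  (.s k42 k43 0 (.s k62 k2 5 (.s k63 k61 0 (.s k191 k127 7 (.s k189 k188 0 (.d k126 k254 k252 7
  8)))))))) (.c k22 (.l (.s k42 k43 0 (.s k21 k63 6 (.s k1 k61 5 (.s k3 k2 0 (.s k87 k171 13 (.s k86
  k84 0 (.d k169 k253 k252 13 14)))))))) (.c k23 (.l (.s k22 k3 6 (.s k42 k43 0 (.s k63 k21 6 (.d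
  k62 k61 k2 0 5))))) (.c k253 (.l (.s k3 k22 6 (.s k1 k2 0 (.s k42 k43 0 (.d k21 k61 k63 5 6)))))
  .n))))) (.c k135 (.q k75 [(.s k3 k22 6 (.s k1 k2 0 (.s k21 k61 5 (.d k42 k43 k63 0 6)))), (.s k3
  k22 6 (.s k87 k171 13 (.s k86 k84 0 (.s k169 k252 14 (.d k1 k2 k253 0 13))))), (.s k42 k43 0 (.s
  k63 k21 6 (.s k62 k61 0 (.s k191 k127 7 (.s k189 k188 0 (.d k126 k254 k252 7 8))))))] (.c k21 (.l
  (.s k22 k3 6 (.s k42 k43 0 (.s k62 k2 5 (.s k63 k61 0 (.s k191 k127 7 (.s k189 k188 0 (.d k126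
  k254 k252 7 8)))))))) (.c k22 (.l (.s k42 k43 0 (.s k21 k63 6 (.s k1 k61 5 (.s k3 k2 0 (.s k87
  k171 13 (.s k86 k84 0 (.d k169 k253 k252 13 14)))))))) (.c k23 (.l (.s k22 k3 6 (.s k42 k43 0 (.s
  k63 k21 6 (.d k62 k61 k2 0 5))))) (.c k253 (.l (.s k3 k22 6 (.s k1 k2 0 (.s k42 k43 0 (.d k21 k61
  k63 5 6))))) .n))))) (.c k253 (.l (.s k3 k22 6 (.s k1 k2 0 (.s k42 k43 0 (.d k21 k61 k63 5 6)))))
  .n))))))) (.c k253 (.l (.s k3 k22 6 (.s k1 k2 0 (.s k42 k43 0 (.d k21 k61 k63 5 6))))) .n)))))))))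
  (.c k75 (.q k135 [(.s k3 k22 6 (.s k1 k2 0 (.s k42 k43 0 (.d k21 k61 k63 5 6)))), (.s k3 k22 6 (.s
  k87 k171 13 (.s k86 k84 0 (.s k169 k252 14 (.d k1 k2 k253 0 13))))), (.s k42 k43 0 (.s k63 k21 6
  (.s k62 k61 0 (.s k191 k127 7 (.s k189 k188 0 (.d k126 k254 k252 7 8))))))] (.c k21 (.l (.s k22 k3
  6 (.s k42 k43 0 (.s k62 k2 5 (.s k63 k61 0 (.s k191 k127 7 (.s k189 k188 0 (.d k126 k254 k252 7
  8)))))))) (.c k22 (.l (.s k42 k43 0 (.s k21 k63 6 (.s k1 k61 5 (.s k3 k2 0 (.s k87 k171 13 (.s k86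
  k84 0 (.d k169 k253 k252 13 14)))))))) (.c k23 (.l (.s k22 k3 6 (.s k42 k43 0 (.s k63 k21 6 (.d
  k62 k61 k2 0 5))))) (.c k27 (.q k39 [(.s k3 k22 6 (.s k1 k2 0 (.s k21 k61 5 (.d k42 k43 k63 0
  6)))), (.s k3 k22 6 (.s k87 k171 13 (.s k86 k84 0 (.s k169 k252 14 (.d k1 k2 k253 0 13))))), (.s
  k42 k43 0 (.s k63 k21 6 (.s k62 k61 0 (.s k191 k127 7 (.s k189 k188 0 (.d k126 k254 k252 7
  8))))))] (.c k21 (.l (.s k22 k3 6 (.s k42 k43 0 (.s k62 k2 5 (.s k63 k61 0 (.s k191 k127 7 (.s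
  k189 k188 0 (.d k126 k254 k252 7 8)))))))) (.c k22 (.l (.s k42 k43 0 (.s k21 k63 6 (.s k1 k61 5
  (.s k3 k2 0 (.s k87 k171 13 (.s k86 k84 0 (.d k169 k253 k252 13 14)))))))) (.c k23 (.l (.s k22 k3
  6 (.s k42 k43 0 (.s k63 k21 6 (.d k62 k61 k2 0 5))))) (.c k99 (.q k147 [(.s k3 k22 6 (.s k1 k2 0
  (.s k21 k61 5 (.d k42 k43 k63 0 6)))), (.s k3 k22 6 (.s k87 k171 13 (.s k86 k84 0 (.s k169 k252 14
  (.d k1 k2 k253 0 13))))), (.s k42 k43 0 (.s k63 k21 6 (.s k62 k61 0 (.s k191 k127 7 (.s k189 k188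
  0 (.d k126 k254 k252 7 8))))))] (.c k21 (.l (.s k22 k3 6 (.s k42 k43 0 (.s k62 k2 5 (.s k63 k61 0
  (.s k191 k127 7 (.s k189 k188 0 (.d k126 k254 k252 7 8)))))))) (.c k22 (.l (.s k42 k43 0 (.s k21
  k63 6 (.s k1 k61 5 (.s k3 k2 0 (.s k87 k171 13 (.s k86 k84 0 (.d k169 k253 k252 13 14)))))))) (.c
  k23 (.l (.s k22 k3 6 (.s k42 k43 0 (.s k63 k21 6 (.d k62 k61 k2 0 5))))) (.c k253 (.l (.s k3 k22 6
  (.s k1 k2 0 (.s k42 k43 0 (.d k21 k61 k63 5 6))))) .n))))) (.c k147 (.q k99 [(.s k3 k22 6 (.s k1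
  k2 0 (.s k21 k61 5 (.d k42 k43 k63 0 6)))), (.s k3 k22 6 (.s k87 k171 13 (.s k86 k84 0 (.s k169
  k252 14 (.d k1 k2 k253 0 13))))), (.s k42 k43 0 (.s k63 k21 6 (.s k62 k61 0 (.s k191 k127 7 (.s
  k189 k188 0 (.d k126 k254 k252 7 8))))))] (.c k21 (.l (.s k22 k3 6 (.s k42 k43 0 (.s k62 k2 5 (.s
  k63 k61 0 (.s k191 k127 7 (.s k189 k188 0 (.d k126 k254 k252 7 8)))))))) (.c k22 (.l (.s k42 k43 0
  (.s k21 k63 6 (.s k1 k61 5 (.s k3 k2 0 (.s k87 k171 13 (.s k86 k84 0 (.d k169 k253 k252 13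
  14)))))))) (.c k23 (.l (.s k22 k3 6 (.s k42 k43 0 (.s k63 k21 6 (.d k62 k61 k2 0 5))))) (.c k253
  (.l (.s k3 k22 6 (.s k1 k2 0 (.s k42 k43 0 (.d k21 k61 k63 5 6))))) .n))))) (.c k253 (.l (.s k3
  k22 6 (.s k1 k2 0 (.s k42 k43 0 (.d k21 k61 k63 5 6))))) .n))))))) (.c k39 (.q k27 [(.s k3 k22 6
  (.s k1 k2 0 (.s k21 k61 5 (.d k42 k43 k63 0 6)))), (.s k3 k22 6 (.s k87 k171 13 (.s k86 k84 0 (.s
  k169 k252 14 (.d k1 k2 k253 0 13))))), (.s k42 k43 0 (.s k63 k21 6 (.s k62 k61 0 (.s k191 k127 7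
  (.s k189 k188 0 (.d k126 k254 k252 7 8))))))] (.c k21 (.l (.s k22 k3 6 (.s k42 k43 0 (.s k62 k2 5
  (.s k63 k61 0 (.s k191 k127 7 (.s k189 k188 0 (.d k126 k254 k252 7 8)))))))) (.c k22 (.l (.s k42
  k43 0 (.s k21 k63 6 (.s k1 k61 5 (.s k3 k2 0 (.s k87 k171 13 (.s k86 k84 0 (.d k169 k253 k252 13
  14)))))))) (.c k23 (.l (.s k22 k3 6 (.s k42 k43 0 (.s k63 k21 6 (.d k62 k61 k2 0 5))))) (.c k99
  (.q k147 [(.s k3 k22 6 (.s k1 k2 0 (.s k21 k61 5 (.d k42 k43 k63 0 6)))), (.s k3 k22 6 (.s k87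
  k171 13 (.s k86 k84 0 (.s k169 k252 14 (.d k1 k2 k253 0 13))))), (.s k42 k43 0 (.s k63 k21 6 (.s
  k62 k61 0 (.s k191 k127 7 (.s k189 k188 0 (.d k126 k254 k252 7 8))))))] (.c k21 (.l (.s k22 k3 6
  (.s k42 k43 0 (.s k62 k2 5 (.s k63 k61 0 (.s k191 k127 7 (.s k189 k188 0 (.d k126 k254 k252 7
  8)))))))) (.c k22 (.l (.s k42 k43 0 (.s k21 k63 6 (.s k1 k61 5 (.s k3 k2 0 (.s k87 k171 13 (.s k86
  k84 0 (.d k169 k253 k252 13 14)))))))) (.c k23 (.l (.s k22 k3 6 (.s k42 k43 0 (.s k63 k21 6 (.d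
  k62 k61 k2 0 5))))) (.c k253 (.l (.s k3 k22 6 (.s k1 k2 0 (.s k42 k43 0 (.d k21 k61 k63 5 6)))))
  .n))))) (.c k147 (.q k99 [(.s k3 k22 6 (.s k1 k2 0 (.s k21 k61 5 (.d k42 k43 k63 0 6)))), (.s k3
  k22 6 (.s k87 k171 13 (.s k86 k84 0 (.s k169 k252 14 (.d k1 k2 k253 0 13))))), (.s k42 k43 0 (.s
  k63 k21 6 (.s k62 k61 0 (.s k191 k127 7 (.s k189 k188 0 (.d k126 k254 k252 7 8))))))] (.c k21 (.l
  (.s k22 k3 6 (.s k42 k43 0 (.s k62 k2 5 (.s k63 k61 0 (.s k191 k127 7 (.s k189 k188 0 (.d k126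
  k254 k252 7 8)))))))) (.c k22 (.l (.s k42 k43 0 (.s k21 k63 6 (.s k1 k61 5 (.s k3 k2 0 (.s k87
  k171 13 (.s k86 k84 0 (.d k169 k253 k252 13 14)))))))) (.c k23 (.l (.s k22 k3 6 (.s k42 k43 0 (.s
  k63 k21 6 (.d k62 k61 k2 0 5))))) (.c k253 (.l (.s k3 k22 6 (.s k1 k2 0 (.s k42 k43 0 (.d k21 k61
  k63 5 6))))) .n))))) (.c k253 (.l (.s k3 k22 6 (.s k1 k2 0 (.s k42 k43 0 (.d k21 k61 k63 5 6)))))
  .n))))))) (.c k99 (.q k147 [(.s k3 k22 6 (.s k1 k2 0 (.s k42 k43 0 (.d k21 k61 k63 5 6)))), (.s k3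
  k22 6 (.s k87 k171 13 (.s k86 k84 0 (.s k169 k252 14 (.d k1 k2 k253 0 13))))), (.s k42 k43 0 (.s
  k63 k21 6 (.s k62 k61 0 (.s k191 k127 7 (.s k189 k188 0 (.d k126 k254 k252 7 8))))))] (.c k21 (.l
  (.s k22 k3 6 (.s k42 k43 0 (.s k62 k2 5 (.s k63 k61 0 (.s k191 k127 7 (.s k189 k188 0 (.d k126
  k254 k252 7 8)))))))) (.c k22 (.l (.s k42 k43 0 (.s k21 k63 6 (.s k1 k61 5 (.s k3 k2 0 (.s k87
  k171 13 (.s k86 k84 0 (.d k169 k253 k252 13 14)))))))) (.c k23 (.l (.s k22 k3 6 (.s k42 k43 0 (.s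
  k63 k21 6 (.d k62 k61 k2 0 5))))) (.c k27 (.q k39 [(.s k3 k22 6 (.s k1 k2 0 (.s k21 k61 5 (.d k42
  k43 k63 0 6)))), (.s k3 k22 6 (.s k87 k171 13 (.s k86 k84 0 (.s k169 k252 14 (.d k1 k2 k253 0
  13))))), (.s k42 k43 0 (.s k63 k21 6 (.s k62 k61 0 (.s k191 k127 7 (.s k189 k188 0 (.d k126 k254
  k252 7 8))))))] (.c k21 (.l (.s k22 k3 6 (.s k42 k43 0 (.s k62 k2 5 (.s k63 k61 0 (.s k191 k127 7
  (.s k189 k188 0 (.d k126 k254 k252 7 8)))))))) (.c k22 (.l (.s k42 k43 0 (.s k21 k63 6 (.s k1 k61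
  5 (.s k3 k2 0 (.s k87 k171 13 (.s k86 k84 0 (.d k169 k253 k252 13 14)))))))) (.c k23 (.l (.s k22
  k3 6 (.s k42 k43 0 (.s k63 k21 6 (.d k62 k61 k2 0 5))))) (.c k253 (.l (.s k3 k22 6 (.s k1 k2 0 (.s
  k42 k43 0 (.d k21 k61 k63 5 6))))) .n))))) (.c k39 (.q k27 [(.s k3 k22 6 (.s k1 k2 0 (.s k21 k61 5
  (.d k42 k43 k63 0 6)))), (.s k3 k22 6 (.s k87 k171 13 (.s k86 k84 0 (.s k169 k252 14 (.d k1 k2
  k253 0 13))))), (.s k42 k43 0 (.s k63 k21 6 (.s k62 k61 0 (.s k191 k127 7 (.s k189 k188 0 (.d k126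
  k254 k252 7 8))))))] (.c k21 (.l (.s k22 k3 6 (.s k42 k43 0 (.s k62 k2 5 (.s k63 k61 0 (.s k191
  k127 7 (.s k189 k188 0 (.d k126 k254 k252 7 8)))))))) (.c k22 (.l (.s k42 k43 0 (.s k21 k63 6 (.s
  k1 k61 5 (.s k3 k2 0 (.s k87 k171 13 (.s k86 k84 0 (.d k169 k253 k252 13 14)))))))) (.c k23 (.l
  (.s k22 k3 6 (.s k42 k43 0 (.s k63 k21 6 (.d k62 k61 k2 0 5))))) (.c k253 (.l (.s k3 k22 6 (.s k1
  k2 0 (.s k42 k43 0 (.d k21 k61 k63 5 6))))) .n))))) .n)))))) (.c k147 (.q k99 [(.s k3 k22 6 (.s k1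
  k2 0 (.s k42 k43 0 (.d k21 k61 k63 5 6)))), (.s k3 k22 6 (.s k87 k171 13 (.s k86 k84 0 (.s k169
  k252 14 (.d k1 k2 k253 0 13))))), (.s k42 k43 0 (.s k63 k21 6 (.s k62 k61 0 (.s k191 k127 7 (.s
  k189 k188 0 (.d k126 k254 k252 7 8))))))] (.c k21 (.l (.s k22 k3 6 (.s k42 k43 0 (.s k62 k2 5 (.s
  k63 k61 0 (.s k191 k127 7 (.s k189 k188 0 (.d k126 k254 k252 7 8)))))))) (.c k22 (.l (.s k42 k43 0
  (.s k21 k63 6 (.s k1 k61 5 (.s k3 k2 0 (.s k87 k171 13 (.s k86 k84 0 (.d k169 k253 k252 13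
  14)))))))) (.c k23 (.l (.s k22 k3 6 (.s k42 k43 0 (.s k63 k21 6 (.d k62 k61 k2 0 5))))) (.c k27
  (.q k39 [(.s k3 k22 6 (.s k1 k2 0 (.s k21 k61 5 (.d k42 k43 k63 0 6)))), (.s k3 k22 6 (.s k87 k171
  13 (.s k86 k84 0 (.s k169 k252 14 (.d k1 k2 k253 0 13))))), (.s k42 k43 0 (.s k63 k21 6 (.s k62
  k61 0 (.s k191 k127 7 (.s k189 k188 0 (.d k126 k254 k252 7 8))))))] (.c k21 (.l (.s k22 k3 6 (.s
  k42 k43 0 (.s k62 k2 5 (.s k63 k61 0 (.s k191 k127 7 (.s k189 k188 0 (.d k126 k254 k252 7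
  8)))))))) (.c k22 (.l (.s k42 k43 0 (.s k21 k63 6 (.s k1 k61 5 (.s k3 k2 0 (.s k87 k171 13 (.s k86
  k84 0 (.d k169 k253 k252 13 14)))))))) (.c k23 (.l (.s k22 k3 6 (.s k42 k43 0 (.s k63 k21 6 (.d
  k62 k61 k2 0 5))))) (.c k253 (.l (.s k3 k22 6 (.s k1 k2 0 (.s k42 k43 0 (.d k21 k61 k63 5 6)))))
  .n))))) (.c k39 (.q k27 [(.s k3 k22 6 (.s k1 k2 0 (.s k21 k61 5 (.d k42 k43 k63 0 6)))), (.s k3
  k22 6 (.s k87 k171 13 (.s k86 k84 0 (.s k169 k252 14 (.d k1 k2 k253 0 13))))), (.s k42 k43 0 (.s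
  k63 k21 6 (.s k62 k61 0 (.s k191 k127 7 (.s k189 k188 0 (.d k126 k254 k252 7 8))))))] (.c k21 (.l
  (.s k22 k3 6 (.s k42 k43 0 (.s k62 k2 5 (.s k63 k61 0 (.s k191 k127 7 (.s k189 k188 0 (.d k126
  k254 k252 7 8)))))))) (.c k22 (.l (.s k42 k43 0 (.s k21 k63 6 (.s k1 k61 5 (.s k3 k2 0 (.s k87
  k171 13 (.s k86 k84 0 (.d k169 k253 k252 13 14)))))))) (.c k23 (.l (.s k22 k3 6 (.s k42 k43 0 (.s
  k63 k21 6 (.d k62 k61 k2 0 5))))) (.c k253 (.l (.s k3 k22 6 (.s k1 k2 0 (.s k42 k43 0 (.d k21 k61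
  k63 5 6))))) .n))))) .n)))))) .n)))))))) (.c k99 (.q k147 [(.s k3 k22 6 (.s k1 k2 0 (.s k42 k43 0
  (.d k21 k61 k63 5 6)))), (.s k3 k22 6 (.s k87 k171 13 (.s k86 k84 0 (.s k169 k252 14 (.d k1 k2
  k253 0 13))))), (.s k42 k43 0 (.s k63 k21 6 (.s k62 k61 0 (.s k191 k127 7 (.s k189 k188 0 (.d k126
  k254 k252 7 8))))))] (.c k21 (.l (.s k22 k3 6 (.s k42 k43 0 (.s k62 k2 5 (.s k63 k61 0 (.s k191
  k127 7 (.s k189 k188 0 (.d k126 k254 k252 7 8)))))))) (.c k22 (.l (.s k42 k43 0 (.s k21 k63 6 (.s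
  k1 k61 5 (.s k3 k2 0 (.s k87 k171 13 (.s k86 k84 0 (.d k169 k253 k252 13 14)))))))) (.c k23 (.l
  (.s k22 k3 6 (.s k42 k43 0 (.s k63 k21 6 (.d k62 k61 k2 0 5))))) (.c k27 (.q k39 [(.s k3 k22 6 (.s
  k1 k2 0 (.s k21 k61 5 (.d k42 k43 k63 0 6)))), (.s k3 k22 6 (.s k87 k171 13 (.s k86 k84 0 (.s k169
  k252 14 (.d k1 k2 k253 0 13))))), (.s k42 k43 0 (.s k63 k21 6 (.s k62 k61 0 (.s k191 k127 7 (.s
  k189 k188 0 (.d k126 k254 k252 7 8))))))] (.c k21 (.l (.s k22 k3 6 (.s k42 k43 0 (.s k62 k2 5 (.s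
  k63 k61 0 (.s k191 k127 7 (.s k189 k188 0 (.d k126 k254 k252 7 8)))))))) (.c k22 (.l (.s k42 k43 0
  (.s k21 k63 6 (.s k1 k61 5 (.s k3 k2 0 (.s k87 k171 13 (.s k86 k84 0 (.d k169 k253 k252 13
  14)))))))) (.c k23 (.l (.s k22 k3 6 (.s k42 k43 0 (.s k63 k21 6 (.d k62 k61 k2 0 5))))) (.c k75
  (.q k135 [(.s k3 k22 6 (.s k1 k2 0 (.s k21 k61 5 (.d k42 k43 k63 0 6)))), (.s k3 k22 6 (.s k87
  k171 13 (.s k86 k84 0 (.s k169 k252 14 (.d k1 k2 k253 0 13))))), (.s k42 k43 0 (.s k63 k21 6 (.s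
  k62 k61 0 (.s k191 k127 7 (.s k189 k188 0 (.d k126 k254 k252 7 8))))))] (.c k21 (.l (.s k22 k3 6
  (.s k42 k43 0 (.s k62 k2 5 (.s k63 k61 0 (.s k191 k127 7 (.s k189 k188 0 (.d k126 k254 k252 7
  8)))))))) (.c k22 (.l (.s k42 k43 0 (.s k21 k63 6 (.s k1 k61 5 (.s k3 k2 0 (.s k87 k171 13 (.s k86
  k84 0 (.d k169 k253 k252 13 14)))))))) (.c k23 (.l (.s k22 k3 6 (.s k42 k43 0 (.s k63 k21 6 (.d
  k62 k61 k2 0 5))))) (.c k253 (.l (.s k3 k22 6 (.s k1 k2 0 (.s k42 k43 0 (.d k21 k61 k63 5 6)))))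
  .n))))) (.c k135 (.q k75 [(.s k3 k22 6 (.s k1 k2 0 (.s k21 k61 5 (.d k42 k43 k63 0 6)))), (.s k3
  k22 6 (.s k87 k171 13 (.s k86 k84 0 (.s k169 k252 14 (.d k1 k2 k253 0 13))))), (.s k42 k43 0 (.s
  k63 k21 6 (.s k62 k61 0 (.s k191 k127 7 (.s k189 k188 0 (.d k126 k254 k252 7 8))))))] (.c k21 (.l
  (.s k22 k3 6 (.s k42 k43 0 (.s k62 k2 5 (.s k63 k61 0 (.s k191 k127 7 (.s k189 k188 0 (.d k126
  k254 k252 7 8)))))))) (.c k22 (.l (.s k42 k43 0 (.s k21 k63 6 (.s k1 k61 5 (.s k3 k2 0 (.s k87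
  k171 13 (.s k86 k84 0 (.d k169 k253 k252 13 14)))))))) (.c k23 (.l (.s k22 k3 6 (.s k42 k43 0 (.s
  k63 k21 6 (.d k62 k61 k2 0 5))))) (.c k253 (.l (.s k3 k22 6 (.s k1 k2 0 (.s k42 k43 0 (.d k21 k61
  k63 5 6))))) .n))))) (.c k253 (.l (.s k3 k22 6 (.s k1 k2 0 (.s k42 k43 0 (.d k21 k61 k63 5 6)))))
  .n))))))) (.c k39 (.q k27 [(.s k3 k22 6 (.s k1 k2 0 (.s k21 k61 5 (.d k42 k43 k63 0 6)))), (.s k3
  k22 6 (.s k87 k171 13 (.s k86 k84 0 (.s k169 k252 14 (.d k1 k2 k253 0 13))))), (.s k42 k43 0 (.s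
  k63 k21 6 (.s k62 k61 0 (.s k191 k127 7 (.s k189 k188 0 (.d k126 k254 k252 7 8))))))] (.c k21 (.l
  (.s k22 k3 6 (.s k42 k43 0 (.s k62 k2 5 (.s k63 k61 0 (.s k191 k127 7 (.s k189 k188 0 (.d k126
  k254 k252 7 8)))))))) (.c k22 (.l (.s k42 k43 0 (.s k21 k63 6 (.s k1 k61 5 (.s k3 k2 0 (.s k87
  k171 13 (.s k86 k84 0 (.d k169 k253 k252 13 14)))))))) (.c k23 (.l (.s k22 k3 6 (.s k42 k43 0 (.s
  k63 k21 6 (.d k62 k61 k2 0 5))))) (.c k75 (.q k135 [(.s k3 k22 6 (.s k1 k2 0 (.s k21 k61 5 (.d k42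
  k43 k63 0 6)))), (.s k3 k22 6 (.s k87 k171 13 (.s k86 k84 0 (.s k169 k252 14 (.d k1 k2 k253 0
  13))))), (.s k42 k43 0 (.s k63 k21 6 (.s k62 k61 0 (.s k191 k127 7 (.s k189 k188 0 (.d k126 k254
  k252 7 8))))))] (.c k21 (.l (.s k22 k3 6 (.s k42 k43 0 (.s k62 k2 5 (.s k63 k61 0 (.s k191 k127 7
  (.s k189 k188 0 (.d k126 k254 k252 7 8)))))))) (.c k22 (.l (.s k42 k43 0 (.s k21 k63 6 (.s k1 k61
  5 (.s k3 k2 0 (.s k87 k171 13 (.s k86 k84 0 (.d k169 k253 k252 13 14)))))))) (.c k23 (.l (.s k22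
  k3 6 (.s k42 k43 0 (.s k63 k21 6 (.d k62 k61 k2 0 5))))) (.c k253 (.l (.s k3 k22 6 (.s k1 k2 0 (.s
  k42 k43 0 (.d k21 k61 k63 5 6))))) .n))))) (.c k135 (.q k75 [(.s k3 k22 6 (.s k1 k2 0 (.s k21 k61
  5 (.d k42 k43 k63 0 6)))), (.s k3 k22 6 (.s k87 k171 13 (.s k86 k84 0 (.s k169 k252 14 (.d k1 k2
  k253 0 13))))), (.s k42 k43 0 (.s k63 k21 6 (.s k62 k61 0 (.s k191 k127 7 (.s k189 k188 0 (.d k126
  k254 k252 7 8))))))] (.c k21 (.l (.s k22 k3 6 (.s k42 k43 0 (.s k62 k2 5 (.s k63 k61 0 (.s k191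
  k127 7 (.s k189 k188 0 (.d k126 k254 k252 7 8)))))))) (.c k22 (.l (.s k42 k43 0 (.s k21 k63 6 (.s
  k1 k61 5 (.s k3 k2 0 (.s k87 k171 13 (.s k86 k84 0 (.d k169 k253 k252 13 14)))))))) (.c k23 (.l
  (.s k22 k3 6 (.s k42 k43 0 (.s k63 k21 6 (.d k62 k61 k2 0 5))))) (.c k253 (.l (.s k3 k22 6 (.s k1
  k2 0 (.s k42 k43 0 (.d k21 k61 k63 5 6))))) .n))))) (.c k253 (.l (.s k3 k22 6 (.s k1 k2 0 (.s k42
  k43 0 (.d k21 k61 k63 5 6))))) .n))))))) (.c k75 (.q k135 [(.s k3 k22 6 (.s k1 k2 0 (.s k42 k43 0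
  (.d k21 k61 k63 5 6)))), (.s k3 k22 6 (.s k87 k171 13 (.s k86 k84 0 (.s k169 k252 14 (.d k1 k2
  k253 0 13))))), (.s k42 k43 0 (.s k63 k21 6 (.s k62 k61 0 (.s k191 k127 7 (.s k189 k188 0 (.d k126
  k254 k252 7 8))))))] (.c k21 (.l (.s k22 k3 6 (.s k42 k43 0 (.s k62 k2 5 (.s k63 k61 0 (.s k191
  k127 7 (.s k189 k188 0 (.d k126 k254 k252 7 8)))))))) (.c k22 (.l (.s k42 k43 0 (.s k21 k63 6 (.s
  k1 k61 5 (.s k3 k2 0 (.s k87 k171 13 (.s k86 k84 0 (.d k169 k253 k252 13 14)))))))) (.c k23 (.l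
  (.s k22 k3 6 (.s k42 k43 0 (.s k63 k21 6 (.d k62 k61 k2 0 5))))) (.c k27 (.q k39 [(.s k3 k22 6 (.s
  k1 k2 0 (.s k21 k61 5 (.d k42 k43 k63 0 6)))), (.s k3 k22 6 (.s k87 k171 13 (.s k86 k84 0 (.s k169
  k252 14 (.d k1 k2 k253 0 13))))), (.s k42 k43 0 (.s k63 k21 6 (.s k62 k61 0 (.s k191 k127 7 (.s
  k189 k188 0 (.d k126 k254 k252 7 8))))))] (.c k21 (.l (.s k22 k3 6 (.s k42 k43 0 (.s k62 k2 5 (.s
  k63 k61 0 (.s k191 k127 7 (.s k189 k188 0 (.d k126 k254 k252 7 8)))))))) (.c k22 (.l (.s k42 k43 0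
  (.s k21 k63 6 (.s k1 k61 5 (.s k3 k2 0 (.s k87 k171 13 (.s k86 k84 0 (.d k169 k253 k252 13
  14)))))))) (.c k23 (.l (.s k22 k3 6 (.s k42 k43 0 (.s k63 k21 6 (.d k62 k61 k2 0 5))))) (.c k253
  (.l (.s k3 k22 6 (.s k1 k2 0 (.s k42 k43 0 (.d k21 k61 k63 5 6))))) .n))))) (.c k39 (.q k27 [(.s
  k3 k22 6 (.s k1 k2 0 (.s k21 k61 5 (.d k42 k43 k63 0 6)))), (.s k3 k22 6 (.s k87 k171 13 (.s k86
  k84 0 (.s k169 k252 14 (.d k1 k2 k253 0 13))))), (.s k42 k43 0 (.s k63 k21 6 (.s k62 k61 0 (.s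
  k191 k127 7 (.s k189 k188 0 (.d k126 k254 k252 7 8))))))] (.c k21 (.l (.s k22 k3 6 (.s k42 k43 0
  (.s k62 k2 5 (.s k63 k61 0 (.s k191 k127 7 (.s k189 k188 0 (.d k126 k254 k252 7 8)))))))) (.c k22
  (.l (.s k42 k43 0 (.s k21 k63 6 (.s k1 k61 5 (.s k3 k2 0 (.s k87 k171 13 (.s k86 k84 0 (.d k169
  k253 k252 13 14)))))))) (.c k23 (.l (.s k22 k3 6 (.s k42 k43 0 (.s k63 k21 6 (.d k62 k61 k2 0
  5))))) (.c k253 (.l (.s k3 k22 6 (.s k1 k2 0 (.s k42 k43 0 (.d k21 k61 k63 5 6))))) .n)))))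
  .n)))))) (.c k135 (.q k75 [(.s k3 k22 6 (.s k1 k2 0 (.s k42 k43 0 (.d k21 k61 k63 5 6)))), (.s k3
  k22 6 (.s k87 k171 13 (.s k86 k84 0 (.s k169 k252 14 (.d k1 k2 k253 0 13))))), (.s k42 k43 0 (.s
  k63 k21 6 (.s k62 k61 0 (.s k191 k127 7 (.s k189 k188 0 (.d k126 k254 k252 7 8))))))] (.c k21 (.l
  (.s k22 k3 6 (.s k42 k43 0 (.s k62 k2 5 (.s k63 k61 0 (.s k191 k127 7 (.s k189 k188 0 (.d k126
  k254 k252 7 8)))))))) (.c k22 (.l (.s k42 k43 0 (.s k21 k63 6 (.s k1 k61 5 (.s k3 k2 0 (.s k87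
  k171 13 (.s k86 k84 0 (.d k169 k253 k252 13 14)))))))) (.c k23 (.l (.s k22 k3 6 (.s k42 k43 0 (.s
  k63 k21 6 (.d k62 k61 k2 0 5))))) (.c k27 (.q k39 [(.s k3 k22 6 (.s k1 k2 0 (.s k21 k61 5 (.d k42
  k43 k63 0 6)))), (.s k3 k22 6 (.s k87 k171 13 (.s k86 k84 0 (.s k169 k252 14 (.d k1 k2 k253 0
  13))))), (.s k42 k43 0 (.s k63 k21 6 (.s k62 k61 0 (.s k191 k127 7 (.s k189 k188 0 (.d k126 k254
  k252 7 8))))))] (.c k21 (.l (.s k22 k3 6 (.s k42 k43 0 (.s k62 k2 5 (.s k63 k61 0 (.s k191 k127 7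
  (.s k189 k188 0 (.d k126 k254 k252 7 8)))))))) (.c k22 (.l (.s k42 k43 0 (.s k21 k63 6 (.s k1 k61
  5 (.s k3 k2 0 (.s k87 k171 13 (.s k86 k84 0 (.d k169 k253 k252 13 14)))))))) (.c k23 (.l (.s k22
  k3 6 (.s k42 k43 0 (.s k63 k21 6 (.d k62 k61 k2 0 5))))) (.c k253 (.l (.s k3 k22 6 (.s k1 k2 0 (.s
  k42 k43 0 (.d k21 k61 k63 5 6))))) .n))))) (.c k39 (.q k27 [(.s k3 k22 6 (.s k1 k2 0 (.s k21 k61 5
  (.d k42 k43 k63 0 6)))), (.s k3 k22 6 (.s k87 k171 13 (.s k86 k84 0 (.s k169 k252 14 (.d k1 k2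
  k253 0 13))))), (.s k42 k43 0 (.s k63 k21 6 (.s k62 k61 0 (.s k191 k127 7 (.s k189 k188 0 (.d k126
  k254 k252 7 8))))))] (.c k21 (.l (.s k22 k3 6 (.s k42 k43 0 (.s k62 k2 5 (.s k63 k61 0 (.s k191
  k127 7 (.s k189 k188 0 (.d k126 k254 k252 7 8)))))))) (.c k22 (.l (.s k42 k43 0 (.s k21 k63 6 (.s
  k1 k61 5 (.s k3 k2 0 (.s k87 k171 13 (.s k86 k84 0 (.d k169 k253 k252 13 14)))))))) (.c k23 (.l
  (.s k22 k3 6 (.s k42 k43 0 (.s k63 k21 6 (.d k62 k61 k2 0 5))))) (.c k253 (.l (.s k3 k22 6 (.s k1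
  k2 0 (.s k42 k43 0 (.d k21 k61 k63 5 6))))) .n))))) .n)))))) .n)))))))) (.c k135 (.q k75 [(.s k3
  k22 6 (.s k1 k2 0 (.s k42 k43 0 (.d k21 k61 k63 5 6)))), (.s k3 k22 6 (.s k87 k171 13 (.s k86 k84
  0 (.s k169 k252 14 (.d k1 k2 k253 0 13))))), (.s k42 k43 0 (.s k63 k21 6 (.s k62 k61 0 (.s k191
  k127 7 (.s k189 k188 0 (.d k126 k254 k252 7 8))))))] (.c k21 (.l (.s k22 k3 6 (.s k42 k43 0 (.s
  k62 k2 5 (.s k63 k61 0 (.s k191 k127 7 (.s k189 k188 0 (.d k126 k254 k252 7 8)))))))) (.c k22 (.l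
  (.s k42 k43 0 (.s k21 k63 6 (.s k1 k61 5 (.s k3 k2 0 (.s k87 k171 13 (.s k86 k84 0 (.d k169 k253
  k252 13 14)))))))) (.c k23 (.l (.s k22 k3 6 (.s k42 k43 0 (.s k63 k21 6 (.d k62 k61 k2 0 5)))))
  (.c k27 (.q k39 [(.s k3 k22 6 (.s k1 k2 0 (.s k21 k61 5 (.d k42 k43 k63 0 6)))), (.s k3 k22 6 (.s
  k87 k171 13 (.s k86 k84 0 (.s k169 k252 14 (.d k1 k2 k253 0 13))))), (.s k42 k43 0 (.s k63 k21 6
  (.s k62 k61 0 (.s k191 k127 7 (.s k189 k188 0 (.d k126 k254 k252 7 8))))))] (.c k21 (.l (.s k22 k3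
  6 (.s k42 k43 0 (.s k62 k2 5 (.s k63 k61 0 (.s k191 k127 7 (.s k189 k188 0 (.d k126 k254 k252 7
  8)))))))) (.c k22 (.l (.s k42 k43 0 (.s k21 k63 6 (.s k1 k61 5 (.s k3 k2 0 (.s k87 k171 13 (.s k86
  k84 0 (.d k169 k253 k252 13 14)))))))) (.c k23 (.l (.s k22 k3 6 (.s k42 k43 0 (.s k63 k21 6 (.d
  k62 k61 k2 0 5))))) (.c k99 (.q k147 [(.s k3 k22 6 (.s k1 k2 0 (.s k21 k61 5 (.d k42 k43 k63 0
  6)))), (.s k3 k22 6 (.s k87 k171 13 (.s k86 k84 0 (.s k169 k252 14 (.d k1 k2 k253 0 13))))), (.s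
  k42 k43 0 (.s k63 k21 6 (.s k62 k61 0 (.s k191 k127 7 (.s k189 k188 0 (.d k126 k254 k252 7
  8))))))] (.c k21 (.l (.s k22 k3 6 (.s k42 k43 0 (.s k62 k2 5 (.s k63 k61 0 (.s k191 k127 7 (.s
  k189 k188 0 (.d k126 k254 k252 7 8)))))))) (.c k22 (.l (.s k42 k43 0 (.s k21 k63 6 (.s k1 k61 5
  (.s k3 k2 0 (.s k87 k171 13 (.s k86 k84 0 (.d k169 k253 k252 13 14)))))))) (.c k23 (.l (.s k22 k3
  6 (.s k42 k43 0 (.s k63 k21 6 (.d k62 k61 k2 0 5))))) (.c k253 (.l (.s k3 k22 6 (.s k1 k2 0 (.s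
  k42 k43 0 (.d k21 k61 k63 5 6))))) .n))))) (.c k147 (.q k99 [(.s k3 k22 6 (.s k1 k2 0 (.s k21 k61
  5 (.d k42 k43 k63 0 6)))), (.s k3 k22 6 (.s k87 k171 13 (.s k86 k84 0 (.s k169 k252 14 (.d k1 k2
  k253 0 13))))), (.s k42 k43 0 (.s k63 k21 6 (.s k62 k61 0 (.s k191 k127 7 (.s k189 k188 0 (.d k126
  k254 k252 7 8))))))] (.c k21 (.l (.s k22 k3 6 (.s k42 k43 0 (.s k62 k2 5 (.s k63 k61 0 (.s k191
  k127 7 (.s k189 k188 0 (.d k126 k254 k252 7 8)))))))) (.c k22 (.l (.s k42 k43 0 (.s k21 k63 6 (.s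
  k1 k61 5 (.s k3 k2 0 (.s k87 k171 13 (.s k86 k84 0 (.d k169 k253 k252 13 14)))))))) (.c k23 (.l
  (.s k22 k3 6 (.s k42 k43 0 (.s k63 k21 6 (.d k62 k61 k2 0 5))))) (.c k253 (.l (.s k3 k22 6 (.s k1
  k2 0 (.s k42 k43 0 (.d k21 k61 k63 5 6))))) .n))))) (.c k253 (.l (.s k3 k22 6 (.s k1 k2 0 (.s k42
  k43 0 (.d k21 k61 k63 5 6))))) .n))))))) (.c k39 (.q k27 [(.s k3 k22 6 (.s k1 k2 0 (.s k21 k61 5
  (.d k42 k43 k63 0 6)))), (.s k3 k22 6 (.s k87 k171 13 (.s k86 k84 0 (.s k169 k252 14 (.d k1 k2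
  k253 0 13))))), (.s k42 k43 0 (.s k63 k21 6 (.s k62 k61 0 (.s k191 k127 7 (.s k189 k188 0 (.d k126
  k254 k252 7 8))))))] (.c k21 (.l (.s k22 k3 6 (.s k42 k43 0 (.s k62 k2 5 (.s k63 k61 0 (.s k191
  k127 7 (.s k189 k188 0 (.d k126 k254 k252 7 8)))))))) (.c k22 (.l (.s k42 k43 0 (.s k21 k63 6 (.s
  k1 k61 5 (.s k3 k2 0 (.s k87 k171 13 (.s k86 k84 0 (.d k169 k253 k252 13 14)))))))) (.c k23 (.l
  (.s k22 k3 6 (.s k42 k43 0 (.s k63 k21 6 (.d k62 k61 k2 0 5))))) (.c k99 (.q k147 [(.s k3 k22 6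
  (.s k1 k2 0 (.s k21 k61 5 (.d k42 k43 k63 0 6)))), (.s k3 k22 6 (.s k87 k171 13 (.s k86 k84 0 (.s
  k169 k252 14 (.d k1 k2 k253 0 13))))), (.s k42 k43 0 (.s k63 k21 6 (.s k62 k61 0 (.s k191 k127 7
  (.s k189 k188 0 (.d k126 k254 k252 7 8))))))] (.c k21 (.l (.s k22 k3 6 (.s k42 k43 0 (.s k62 k2 5
  (.s k63 k61 0 (.s k191 k127 7 (.s k189 k188 0 (.d k126 k254 k252 7 8)))))))) (.c k22 (.l (.s k42
  k43 0 (.s k21 k63 6 (.s k1 k61 5 (.s k3 k2 0 (.s k87 k171 13 (.s k86 k84 0 (.d k169 k253 k252 13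
  14)))))))) (.c k23 (.l (.s k22 k3 6 (.s k42 k43 0 (.s k63 k21 6 (.d k62 k61 k2 0 5))))) (.c k253
  (.l (.s k3 k22 6 (.s k1 k2 0 (.s k42 k43 0 (.d k21 k61 k63 5 6))))) .n))))) (.c k147 (.q k99 [(.s
  k3 k22 6 (.s k1 k2 0 (.s k21 k61 5 (.d k42 k43 k63 0 6)))), (.s k3 k22 6 (.s k87 k171 13 (.s k86
  k84 0 (.s k169 k252 14 (.d k1 k2 k253 0 13))))), (.s k42 k43 0 (.s k63 k21 6 (.s k62 k61 0 (.s
  k191 k127 7 (.s k189 k188 0 (.d k126 k254 k252 7 8))))))] (.c k21 (.l (.s k22 k3 6 (.s k42 k43 0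
  (.s k62 k2 5 (.s k63 k61 0 (.s k191 k127 7 (.s k189 k188 0 (.d k126 k254 k252 7 8)))))))) (.c k22
  (.l (.s k42 k43 0 (.s k21 k63 6 (.s k1 k61 5 (.s k3 k2 0 (.s k87 k171 13 (.s k86 k84 0 (.d k169
  k253 k252 13 14)))))))) (.c k23 (.l (.s k22 k3 6 (.s k42 k43 0 (.s k63 k21 6 (.d k62 k61 k2 0
  5))))) (.c k253 (.l (.s k3 k22 6 (.s k1 k2 0 (.s k42 k43 0 (.d k21 k61 k63 5 6))))) .n))))) (.c
  k253 (.l (.s k3 k22 6 (.s k1 k2 0 (.s k42 k43 0 (.d k21 k61 k63 5 6))))) .n))))))) (.c k99 (.q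
  k147 [(.s k3 k22 6 (.s k1 k2 0 (.s k42 k43 0 (.d k21 k61 k63 5 6)))), (.s k3 k22 6 (.s k87 k171 13
  (.s k86 k84 0 (.s k169 k252 14 (.d k1 k2 k253 0 13))))), (.s k42 k43 0 (.s k63 k21 6 (.s k62 k61 0
  (.s k191 k127 7 (.s k189 k188 0 (.d k126 k254 k252 7 8))))))] (.c k21 (.l (.s k22 k3 6 (.s k42 k43
  0 (.s k62 k2 5 (.s k63 k61 0 (.s k191 k127 7 (.s k189 k188 0 (.d k126 k254 k252 7 8)))))))) (.c
  k22 (.l (.s k42 k43 0 (.s k21 k63 6 (.s k1 k61 5 (.s k3 k2 0 (.s k87 k171 13 (.s k86 k84 0 (.d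
  k169 k253 k252 13 14)))))))) (.c k23 (.l (.s k22 k3 6 (.s k42 k43 0 (.s k63 k21 6 (.d k62 k61 k2 0
  5))))) (.c k27 (.q k39 [(.s k3 k22 6 (.s k1 k2 0 (.s k21 k61 5 (.d k42 k43 k63 0 6)))), (.s k3 k22
  6 (.s k87 k171 13 (.s k86 k84 0 (.s k169 k252 14 (.d k1 k2 k253 0 13))))), (.s k42 k43 0 (.s k63
  k21 6 (.s k62 k61 0 (.s k191 k127 7 (.s k189 k188 0 (.d k126 k254 k252 7 8))))))] (.c k21 (.l (.s
  k22 k3 6 (.s k42 k43 0 (.s k62 k2 5 (.s k63 k61 0 (.s k191 k127 7 (.s k189 k188 0 (.d k126 k254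
  k252 7 8)))))))) (.c k22 (.l (.s k42 k43 0 (.s k21 k63 6 (.s k1 k61 5 (.s k3 k2 0 (.s k87 k171 13
  (.s k86 k84 0 (.d k169 k253 k252 13 14)))))))) (.c k23 (.l (.s k22 k3 6 (.s k42 k43 0 (.s k63 k21
  6 (.d k62 k61 k2 0 5))))) (.c k253 (.l (.s k3 k22 6 (.s k1 k2 0 (.s k42 k43 0 (.d k21 k61 k63 5
  6))))) .n))))) (.c k39 (.q k27 [(.s k3 k22 6 (.s k1 k2 0 (.s k21 k61 5 (.d k42 k43 k63 0 6)))),
  (.s k3 k22 6 (.s k87 k171 13 (.s k86 k84 0 (.s k169 k252 14 (.d k1 k2 k253 0 13))))), (.s k42 k43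
  0 (.s k63 k21 6 (.s k62 k61 0 (.s k191 k127 7 (.s k189 k188 0 (.d k126 k254 k252 7 8))))))] (.c
  k21 (.l (.s k22 k3 6 (.s k42 k43 0 (.s k62 k2 5 (.s k63 k61 0 (.s k191 k127 7 (.s k189 k188 0 (.d
  k126 k254 k252 7 8)))))))) (.c k22 (.l (.s k42 k43 0 (.s k21 k63 6 (.s k1 k61 5 (.s k3 k2 0 (.s
  k87 k171 13 (.s k86 k84 0 (.d k169 k253 k252 13 14)))))))) (.c k23 (.l (.s k22 k3 6 (.s k42 k43 0
  (.s k63 k21 6 (.d k62 k61 k2 0 5))))) (.c k253 (.l (.s k3 k22 6 (.s k1 k2 0 (.s k42 k43 0 (.d k21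
  k61 k63 5 6))))) .n))))) .n)))))) (.c k147 (.q k99 [(.s k3 k22 6 (.s k1 k2 0 (.s k42 k43 0 (.d k21
  k61 k63 5 6)))), (.s k3 k22 6 (.s k87 k171 13 (.s k86 k84 0 (.s k169 k252 14 (.d k1 k2 k253 0
  13))))), (.s k42 k43 0 (.s k63 k21 6 (.s k62 k61 0 (.s k191 k127 7 (.s k189 k188 0 (.d k126 k254
  k252 7 8))))))] (.c k21 (.l (.s k22 k3 6 (.s k42 k43 0 (.s k62 k2 5 (.s k63 k61 0 (.s k191 k127 7
  (.s k189 k188 0 (.d k126 k254 k252 7 8)))))))) (.c k22 (.l (.s k42 k43 0 (.s k21 k63 6 (.s k1 k61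
  5 (.s k3 k2 0 (.s k87 k171 13 (.s k86 k84 0 (.d k169 k253 k252 13 14)))))))) (.c k23 (.l (.s k22
  k3 6 (.s k42 k43 0 (.s k63 k21 6 (.d k62 k61 k2 0 5))))) (.c k27 (.q k39 [(.s k3 k22 6 (.s k1 k2 0
  (.s k21 k61 5 (.d k42 k43 k63 0 6)))), (.s k3 k22 6 (.s k87 k171 13 (.s k86 k84 0 (.s k169 k252 14
  (.d k1 k2 k253 0 13))))), (.s k42 k43 0 (.s k63 k21 6 (.s k62 k61 0 (.s k191 k127 7 (.s k189 k188
  0 (.d k126 k254 k252 7 8))))))] (.c k21 (.l (.s k22 k3 6 (.s k42 k43 0 (.s k62 k2 5 (.s k63 k61 0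
  (.s k191 k127 7 (.s k189 k188 0 (.d k126 k254 k252 7 8)))))))) (.c k22 (.l (.s k42 k43 0 (.s k21
  k63 6 (.s k1 k61 5 (.s k3 k2 0 (.s k87 k171 13 (.s k86 k84 0 (.d k169 k253 k252 13 14)))))))) (.c
  k23 (.l (.s k22 k3 6 (.s k42 k43 0 (.s k63 k21 6 (.d k62 k61 k2 0 5))))) (.c k253 (.l (.s k3 k22 6
  (.s k1 k2 0 (.s k42 k43 0 (.d k21 k61 k63 5 6))))) .n))))) (.c k39 (.q k27 [(.s k3 k22 6 (.s k1 k2
  0 (.s k21 k61 5 (.d k42 k43 k63 0 6)))), (.s k3 k22 6 (.s k87 k171 13 (.s k86 k84 0 (.s k169 k252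
  14 (.d k1 k2 k253 0 13))))), (.s k42 k43 0 (.s k63 k21 6 (.s k62 k61 0 (.s k191 k127 7 (.s k189
  k188 0 (.d k126 k254 k252 7 8))))))] (.c k21 (.l (.s k22 k3 6 (.s k42 k43 0 (.s k62 k2 5 (.s k63
  k61 0 (.s k191 k127 7 (.s k189 k188 0 (.d k126 k254 k252 7 8)))))))) (.c k22 (.l (.s k42 k43 0 (.s
  k21 k63 6 (.s k1 k61 5 (.s k3 k2 0 (.s k87 k171 13 (.s k86 k84 0 (.d k169 k253 k252 13 14))))))))
  (.c k23 (.l (.s k22 k3 6 (.s k42 k43 0 (.s k63 k21 6 (.d k62 k61 k2 0 5))))) (.c k253 (.l (.s k3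
  k22 6 (.s k1 k2 0 (.s k42 k43 0 (.d k21 k61 k63 5 6))))) .n))))) .n)))))) .n)))))))) (.c k147 (.q
  k99 [(.s k3 k22 6 (.s k1 k2 0 (.s k42 k43 0 (.d k21 k61 k63 5 6)))), (.s k3 k22 6 (.s k87 k171 13
  (.s k86 k84 0 (.s k169 k252 14 (.d k1 k2 k253 0 13))))), (.s k42 k43 0 (.s k63 k21 6 (.s k62 k61 0
  (.s k191 k127 7 (.s k189 k188 0 (.d k126 k254 k252 7 8))))))] (.c k21 (.l (.s k22 k3 6 (.s k42 k43
  0 (.s k62 k2 5 (.s k63 k61 0 (.s k191 k127 7 (.s k189 k188 0 (.d k126 k254 k252 7 8)))))))) (.c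
  k22 (.l (.s k42 k43 0 (.s k21 k63 6 (.s k1 k61 5 (.s k3 k2 0 (.s k87 k171 13 (.s k86 k84 0 (.d
  k169 k253 k252 13 14)))))))) (.c k23 (.l (.s k22 k3 6 (.s k42 k43 0 (.s k63 k21 6 (.d k62 k61 k2 0
  5))))) (.c k27 (.q k39 [(.s k3 k22 6 (.s k1 k2 0 (.s k21 k61 5 (.d k42 k43 k63 0 6)))), (.s k3 k22
  6 (.s k87 k171 13 (.s k86 k84 0 (.s k169 k252 14 (.d k1 k2 k253 0 13))))), (.s k42 k43 0 (.s k63
  k21 6 (.s k62 k61 0 (.s k191 k127 7 (.s k189 k188 0 (.d k126 k254 k252 7 8))))))] (.c k21 (.l (.s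
  k22 k3 6 (.s k42 k43 0 (.s k62 k2 5 (.s k63 k61 0 (.s k191 k127 7 (.s k189 k188 0 (.d k126 k254
  k252 7 8)))))))) (.c k22 (.l (.s k42 k43 0 (.s k21 k63 6 (.s k1 k61 5 (.s k3 k2 0 (.s k87 k171 13
  (.s k86 k84 0 (.d k169 k253 k252 13 14)))))))) (.c k23 (.l (.s k22 k3 6 (.s k42 k43 0 (.s k63 k21
  6 (.d k62 k61 k2 0 5))))) (.c k75 (.q k135 [(.s k3 k22 6 (.s k1 k2 0 (.s k21 k61 5 (.d k42 k43 k63
  0 6)))), (.s k3 k22 6 (.s k87 k171 13 (.s k86 k84 0 (.s k169 k252 14 (.d k1 k2 k253 0 13))))), (.s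
  k42 k43 0 (.s k63 k21 6 (.s k62 k61 0 (.s k191 k127 7 (.s k189 k188 0 (.d k126 k254 k252 7
  8))))))] (.c k21 (.l (.s k22 k3 6 (.s k42 k43 0 (.s k62 k2 5 (.s k63 k61 0 (.s k191 k127 7 (.s
  k189 k188 0 (.d k126 k254 k252 7 8)))))))) (.c k22 (.l (.s k42 k43 0 (.s k21 k63 6 (.s k1 k61 5
  (.s k3 k2 0 (.s k87 k171 13 (.s k86 k84 0 (.d k169 k253 k252 13 14)))))))) (.c k23 (.l (.s k22 k3
  6 (.s k42 k43 0 (.s k63 k21 6 (.d k62 k61 k2 0 5))))) (.c k253 (.l (.s k3 k22 6 (.s k1 k2 0 (.s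
  k42 k43 0 (.d k21 k61 k63 5 6))))) .n))))) (.c k135 (.q k75 [(.s k3 k22 6 (.s k1 k2 0 (.s k21 k61
  5 (.d k42 k43 k63 0 6)))), (.s k3 k22 6 (.s k87 k171 13 (.s k86 k84 0 (.s k169 k252 14 (.d k1 k2
  k253 0 13))))), (.s k42 k43 0 (.s k63 k21 6 (.s k62 k61 0 (.s k191 k127 7 (.s k189 k188 0 (.d k126
  k254 k252 7 8))))))] (.c k21 (.l (.s k22 k3 6 (.s k42 k43 0 (.s k62 k2 5 (.s k63 k61 0 (.s k191
  k127 7 (.s k189 k188 0 (.d k126 k254 k252 7 8)))))))) (.c k22 (.l (.s k42 k43 0 (.s k21 k63 6 (.s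
  k1 k61 5 (.s k3 k2 0 (.s k87 k171 13 (.s k86 k84 0 (.d k169 k253 k252 13 14)))))))) (.c k23 (.l
  (.s k22 k3 6 (.s k42 k43 0 (.s k63 k21 6 (.d k62 k61 k2 0 5))))) (.c k253 (.l (.s k3 k22 6 (.s k1
  k2 0 (.s k42 k43 0 (.d k21 k61 k63 5 6))))) .n))))) (.c k253 (.l (.s k3 k22 6 (.s k1 k2 0 (.s k42
  k43 0 (.d k21 k61 k63 5 6))))) .n))))))) (.c k39 (.q k27 [(.s k3 k22 6 (.s k1 k2 0 (.s k21 k61 5
  (.d k42 k43 k63 0 6)))), (.s k3 k22 6 (.s k87 k171 13 (.s k86 k84 0 (.s k169 k252 14 (.d k1 k2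
  k253 0 13))))), (.s k42 k43 0 (.s k63 k21 6 (.s k62 k61 0 (.s k191 k127 7 (.s k189 k188 0 (.d k126
  k254 k252 7 8))))))] (.c k21 (.l (.s k22 k3 6 (.s k42 k43 0 (.s k62 k2 5 (.s k63 k61 0 (.s k191
  k127 7 (.s k189 k188 0 (.d k126 k254 k252 7 8)))))))) (.c k22 (.l (.s k42 k43 0 (.s k21 k63 6 (.s
  k1 k61 5 (.s k3 k2 0 (.s k87 k171 13 (.s k86 k84 0 (.d k169 k253 k252 13 14)))))))) (.c k23 (.l
  (.s k22 k3 6 (.s k42 k43 0 (.s k63 k21 6 (.d k62 k61 k2 0 5))))) (.c k75 (.q k135 [(.s k3 k22 6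
  (.s k1 k2 0 (.s k21 k61 5 (.d k42 k43 k63 0 6)))), (.s k3 k22 6 (.s k87 k171 13 (.s k86 k84 0 (.s
  k169 k252 14 (.d k1 k2 k253 0 13))))), (.s k42 k43 0 (.s k63 k21 6 (.s k62 k61 0 (.s k191 k127 7
  (.s k189 k188 0 (.d k126 k254 k252 7 8))))))] (.c k21 (.l (.s k22 k3 6 (.s k42 k43 0 (.s k62 k2 5
  (.s k63 k61 0 (.s k191 k127 7 (.s k189 k188 0 (.d k126 k254 k252 7 8)))))))) (.c k22 (.l (.s k42
  k43 0 (.s k21 k63 6 (.s k1 k61 5 (.s k3 k2 0 (.s k87 k171 13 (.s k86 k84 0 (.d k169 k253 k252 13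
  14)))))))) (.c k23 (.l (.s k22 k3 6 (.s k42 k43 0 (.s k63 k21 6 (.d k62 k61 k2 0 5))))) (.c k253
  (.l (.s k3 k22 6 (.s k1 k2 0 (.s k42 k43 0 (.d k21 k61 k63 5 6))))) .n))))) (.c k135 (.q k75 [(.s
  k3 k22 6 (.s k1 k2 0 (.s k21 k61 5 (.d k42 k43 k63 0 6)))), (.s k3 k22 6 (.s k87 k171 13 (.s k86
  k84 0 (.s k169 k252 14 (.d k1 k2 k253 0 13))))), (.s k42 k43 0 (.s k63 k21 6 (.s k62 k61 0 (.s
  k191 k127 7 (.s k189 k188 0 (.d k126 k254 k252 7 8))))))] (.c k21 (.l (.s k22 k3 6 (.s k42 k43 0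
  (.s k62 k2 5 (.s k63 k61 0 (.s k191 k127 7 (.s k189 k188 0 (.d k126 k254 k252 7 8)))))))) (.c k22
  (.l (.s k42 k43 0 (.s k21 k63 6 (.s k1 k61 5 (.s k3 k2 0 (.s k87 k171 13 (.s k86 k84 0 (.d k169
  k253 k252 13 14)))))))) (.c k23 (.l (.s k22 k3 6 (.s k42 k43 0 (.s k63 k21 6 (.d k62 k61 k2 0
  5))))) (.c k253 (.l (.s k3 k22 6 (.s k1 k2 0 (.s k42 k43 0 (.d k21 k61 k63 5 6))))) .n))))) (.c
  k253 (.l (.s k3 k22 6 (.s k1 k2 0 (.s k42 k43 0 (.d k21 k61 k63 5 6))))) .n))))))) (.c k75 (.q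
  k135 [(.s k3 k22 6 (.s k1 k2 0 (.s k42 k43 0 (.d k21 k61 k63 5 6)))), (.s k3 k22 6 (.s k87 k171 13
  (.s k86 k84 0 (.s k169 k252 14 (.d k1 k2 k253 0 13))))), (.s k42 k43 0 (.s k63 k21 6 (.s k62 k61 0
  (.s k191 k127 7 (.s k189 k188 0 (.d k126 k254 k252 7 8))))))] (.c k21 (.l (.s k22 k3 6 (.s k42 k43
  0 (.s k62 k2 5 (.s k63 k61 0 (.s k191 k127 7 (.s k189 k188 0 (.d k126 k254 k252 7 8)))))))) (.c
  k22 (.l (.s k42 k43 0 (.s k21 k63 6 (.s k1 k61 5 (.s k3 k2 0 (.s k87 k171 13 (.s k86 k84 0 (.d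
  k169 k253 k252 13 14)))))))) (.c k23 (.l (.s k22 k3 6 (.s k42 k43 0 (.s k63 k21 6 (.d k62 k61 k2 0
  5))))) (.c k27 (.q k39 [(.s k3 k22 6 (.s k1 k2 0 (.s k21 k61 5 (.d k42 k43 k63 0 6)))), (.s k3 k22
  6 (.s k87 k171 13 (.s k86 k84 0 (.s k169 k252 14 (.d k1 k2 k253 0 13))))), (.s k42 k43 0 (.s k63
  k21 6 (.s k62 k61 0 (.s k191 k127 7 (.s k189 k188 0 (.d k126 k254 k252 7 8))))))] (.c k21 (.l (.s
  k22 k3 6 (.s k42 k43 0 (.s k62 k2 5 (.s k63 k61 0 (.s k191 k127 7 (.s k189 k188 0 (.d k126 k254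
  k252 7 8)))))))) (.c k22 (.l (.s k42 k43 0 (.s k21 k63 6 (.s k1 k61 5 (.s k3 k2 0 (.s k87 k171 13
  (.s k86 k84 0 (.d k169 k253 k252 13 14)))))))) (.c k23 (.l (.s k22 k3 6 (.s k42 k43 0 (.s k63 k21
  6 (.d k62 k61 k2 0 5))))) (.c k253 (.l (.s k3 k22 6 (.s k1 k2 0 (.s k42 k43 0 (.d k21 k61 k63 5
  6))))) .n))))) (.c k39 (.q k27 [(.s k3 k22 6 (.s k1 k2 0 (.s k21 k61 5 (.d k42 k43 k63 0 6)))),
  (.s k3 k22 6 (.s k87 k171 13 (.s k86 k84 0 (.s k169 k252 14 (.d k1 k2 k253 0 13))))), (.s k42 k43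
  0 (.s k63 k21 6 (.s k62 k61 0 (.s k191 k127 7 (.s k189 k188 0 (.d k126 k254 k252 7 8))))))] (.c
  k21 (.l (.s k22 k3 6 (.s k42 k43 0 (.s k62 k2 5 (.s k63 k61 0 (.s k191 k127 7 (.s k189 k188 0 (.d
  k126 k254 k252 7 8)))))))) (.c k22 (.l (.s k42 k43 0 (.s k21 k63 6 (.s k1 k61 5 (.s k3 k2 0 (.s
  k87 k171 13 (.s k86 k84 0 (.d k169 k253 k252 13 14)))))))) (.c k23 (.l (.s k22 k3 6 (.s k42 k43 0
  (.s k63 k21 6 (.d k62 k61 k2 0 5))))) (.c k253 (.l (.s k3 k22 6 (.s k1 k2 0 (.s k42 k43 0 (.d k21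
  k61 k63 5 6))))) .n))))) .n)))))) (.c k135 (.q k75 [(.s k3 k22 6 (.s k1 k2 0 (.s k42 k43 0 (.d k21
  k61 k63 5 6)))), (.s k3 k22 6 (.s k87 k171 13 (.s k86 k84 0 (.s k169 k252 14 (.d k1 k2 k253 0
  13))))), (.s k42 k43 0 (.s k63 k21 6 (.s k62 k61 0 (.s k191 k127 7 (.s k189 k188 0 (.d k126 k254
  k252 7 8))))))] (.c k21 (.l (.s k22 k3 6 (.s k42 k43 0 (.s k62 k2 5 (.s k63 k61 0 (.s k191 k127 7
  (.s k189 k188 0 (.d k126 k254 k252 7 8)))))))) (.c k22 (.l (.s k42 k43 0 (.s k21 k63 6 (.s k1 k61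
  5 (.s k3 k2 0 (.s k87 k171 13 (.s k86 k84 0 (.d k169 k253 k252 13 14)))))))) (.c k23 (.l (.s k22
  k3 6 (.s k42 k43 0 (.s k63 k21 6 (.d k62 k61 k2 0 5))))) (.c k27 (.q k39 [(.s k3 k22 6 (.s k1 k2 0
  (.s k21 k61 5 (.d k42 k43 k63 0 6)))), (.s k3 k22 6 (.s k87 k171 13 (.s k86 k84 0 (.s k169 k252 14
  (.d k1 k2 k253 0 13))))), (.s k42 k43 0 (.s k63 k21 6 (.s k62 k61 0 (.s k191 k127 7 (.s k189 k188
  0 (.d k126 k254 k252 7 8))))))] (.c k21 (.l (.s k22 k3 6 (.s k42 k43 0 (.s k62 k2 5 (.s k63 k61 0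
  (.s k191 k127 7 (.s k189 k188 0 (.d k126 k254 k252 7 8)))))))) (.c k22 (.l (.s k42 k43 0 (.s k21
  k63 6 (.s k1 k61 5 (.s k3 k2 0 (.s k87 k171 13 (.s k86 k84 0 (.d k169 k253 k252 13 14)))))))) (.c
  k23 (.l (.s k22 k3 6 (.s k42 k43 0 (.s k63 k21 6 (.d k62 k61 k2 0 5))))) (.c k253 (.l (.s k3 k22 6
  (.s k1 k2 0 (.s k42 k43 0 (.d k21 k61 k63 5 6))))) .n))))) (.c k39 (.q k27 [(.s k3 k22 6 (.s k1 k2
  0 (.s k21 k61 5 (.d k42 k43 k63 0 6)))), (.s k3 k22 6 (.s k87 k171 13 (.s k86 k84 0 (.s k169 k252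
  14 (.d k1 k2 k253 0 13))))), (.s k42 k43 0 (.s k63 k21 6 (.s k62 k61 0 (.s k191 k127 7 (.s k189
  k188 0 (.d k126 k254 k252 7 8))))))] (.c k21 (.l (.s k22 k3 6 (.s k42 k43 0 (.s k62 k2 5 (.s k63
  k61 0 (.s k191 k127 7 (.s k189 k188 0 (.d k126 k254 k252 7 8)))))))) (.c k22 (.l (.s k42 k43 0 (.s
  k21 k63 6 (.s k1 k61 5 (.s k3 k2 0 (.s k87 k171 13 (.s k86 k84 0 (.d k169 k253 k252 13 14))))))))
  (.c k23 (.l (.s k22 k3 6 (.s k42 k43 0 (.s k63 k21 6 (.d k62 k61 k2 0 5))))) (.c k253 (.l (.s k3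
  k22 6 (.s k1 k2 0 (.s k42 k43 0 (.d k21 k61 k63 5 6))))) .n))))) .n)))))) .n))))))))
  .n)))))))))))))

def s15_51_196 : T TT 256 :=
  (.l (.s k20 k40 5 (.s k150 k215 8 (.s k105 k195 14 (.s k125 k65 5 (.d k255 k190 k170 8 14))))))

def s15_51_197 : T TT 256 :=
  (.l (.s k20 k40 5 (.s k150 k215 8 (.s k105 k195 14 (.s k125 k65 5 (.d k255 k190 k170 8 14))))))

def s15_51_198 : T TT 256 :=
  (.l (.s k20 k40 5 (.s k150 k215 8 (.s k105 k195 14 (.s k125 k65 5 (.d k255 k190 k170 8 14))))))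

def s15_51_199 : T TT 256 :=
  (.l (.s k20 k40 5 (.s k150 k215 8 (.s k105 k195 14 (.s k125 k65 5 (.d k255 k190 k170 8 14))))))

def s15_51_200 : T TT 256 :=
  (.l (.s k20 k40 5 (.s k150 k215 8 (.s k105 k195 14 (.s k125 k65 5 (.d k255 k190 k170 8 14))))))

def s15_51_201 : T TT 256 :=
  (.l (.s k20 k40 5 (.s k150 k215 8 (.s k105 k195 14 (.s k125 k65 5 (.d k255 k190 k170 8 14))))))

def s15_51_202 : T TT 256 :=
  (.l (.s k20 k40 5 (.s k150 k215 8 (.s k105 k195 14 (.s k125 k65 5 (.d k255 k190 k170 8 14))))))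

def s15_51_203 : T TT 256 :=
  (.l (.s k20 k40 5 (.s k150 k215 8 (.s k105 k195 14 (.s k125 k65 5 (.d k255 k190 k170 8 14))))))

def s15_51_204 : T TT 256 :=
  (.l (.s k20 k40 5 (.s k150 k215 8 (.s k105 k195 14 (.s k125 k65 5 (.d k255 k190 k170 8 14))))))

def s15_51_205 : T TT 256 :=
  (.l (.s k20 k40 5 (.s k150 k215 8 (.s k105 k195 14 (.s k125 k65 5 (.d k255 k190 k170 8 14))))))

def s15_51_206 : T TT 256 :=
  (.l (.s k20 k40 5 (.s k150 k215 8 (.s k105 k195 14 (.s k125 k65 5 (.d k255 k190 k170 8 14))))))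

def s15_51_207 : T TT 256 :=
  (.l (.s k20 k40 5 (.s k150 k215 8 (.s k105 k195 14 (.s k125 k65 5 (.d k255 k190 k170 8 14))))))

def s15_51_208 : T TT 256 :=
  (.l (.s k20 k40 5 (.s k150 k215 8 (.s k105 k195 14 (.s k125 k65 5 (.d k255 k190 k170 8 14))))))

def s15_51_209 : T TT 256 :=
  (.l (.s k20 k40 5 (.s k150 k215 8 (.s k105 k195 14 (.s k125 k65 5 (.d k255 k190 k170 8 14))))))

def s15_51_210 : T TT 256 :=
  (.l (.s k20 k40 5 (.s k150 k215 8 (.s k105 k195 14 (.s k125 k65 5 (.d k255 k190 k170 8 14))))))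

def s15_51_211 : T TT 256 :=
  (.l (.s k20 k40 5 (.s k150 k215 8 (.s k105 k195 14 (.s k125 k65 5 (.d k255 k190 k170 8 14))))))

def s15_51_212 : T TT 256 :=
  (.l (.s k20 k40 5 (.s k150 k215 8 (.s k105 k195 14 (.s k125 k65 5 (.d k255 k190 k170 8 14))))))

def s15_51_213 : T TT 256 :=
  (.l (.s k20 k40 5 (.s k150 k215 8 (.s k105 k195 14 (.s k125 k65 5 (.d k255 k190 k170 8 14))))))

def s15_51_214 : T TT 256 :=
  (.l (.s k20 k40 5 (.s k150 k215 8 (.s k105 k195 14 (.s k125 k65 5 (.d k255 k190 k170 8 14))))))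

def s15_51_215 : T TT 256 :=
  (.l (.s k40 k20 5 (.s k170 k255 14 (.s k105 k235 8 (.s k195 k150 14 (.d k65 k125 k130 5 8))))))

def s15_51_216 : T TT 256 :=
  (.l (.s k20 k40 5 (.s k150 k215 8 (.s k105 k195 14 (.s k125 k65 5 (.d k255 k190 k170 8 14))))))

def s15_51_217 : T TT 256 :=
  (.l (.s k20 k40 5 (.s k150 k215 8 (.s k105 k195 14 (.s k125 k65 5 (.d k255 k190 k170 8 14))))))

def s15_51_218 : T TT 256 :=
  (.l (.s k20 k40 5 (.s k150 k215 8 (.s k105 k195 14 (.s k125 k65 5 (.d k255 k190 k170 8 14))))))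

def s15_51_219 : T TT 256 :=
  (.l (.s k20 k40 5 (.s k150 k215 8 (.s k105 k195 14 (.s k125 k65 5 (.d k255 k190 k170 8 14))))))

def s15_51_220 : T TT 256 :=
  (.l (.s k20 k40 5 (.s k150 k215 8 (.s k105 k195 14 (.s k125 k65 5 (.d k255 k190 k170 8 14))))))

def s15_51_221 : T TT 256 :=
  (.l (.s k20 k40 5 (.s k150 k215 8 (.s k105 k195 14 (.s k125 k65 5 (.d k255 k190 k170 8 14))))))

def s15_51_222 : T TT 256 :=
  (.l (.s k20 k40 5 (.s k150 k215 8 (.s k105 k195 14 (.s k125 k65 5 (.d k255 k190 k170 8 14))))))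

def s15_51_223 : T TT 256 :=
  (.l (.s k20 k40 5 (.s k150 k215 8 (.s k105 k195 14 (.s k125 k65 5 (.d k255 k190 k170 8 14))))))

def s15_51_224 : T TT 256 :=
  (.l (.s k20 k40 5 (.s k150 k215 8 (.s k105 k195 14 (.s k125 k65 5 (.d k255 k190 k170 8 14))))))

def s15_51_225 : T TT 256 :=
  (.l (.s k20 k40 5 (.s k150 k215 8 (.s k105 k195 14 (.s k125 k65 5 (.d k255 k190 k170 8 14))))))

def s15_51_226 : T TT 256 :=
  (.l (.s k20 k40 5 (.s k150 k215 8 (.s k105 k195 14 (.s k125 k65 5 (.d k255 k190 k170 8 14))))))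

def s15_51_227 : T TT 256 :=
  (.l (.s k20 k40 5 (.s k150 k215 8 (.s k105 k195 14 (.s k125 k65 5 (.d k255 k190 k170 8 14))))))

def s15_51_228 : T TT 256 :=
  (.l (.s k20 k40 5 (.s k150 k215 8 (.s k105 k195 14 (.s k125 k65 5 (.d k255 k190 k170 8 14))))))

def s15_51_229 : T TT 256 :=
  (.l (.s k20 k40 5 (.s k150 k215 8 (.s k105 k195 14 (.s k125 k65 5 (.d k255 k190 k170 8 14))))))

def s15_51_230 : T TT 256 :=
  (.l (.s k20 k40 5 (.s k150 k215 8 (.s k105 k195 14 (.s k125 k65 5 (.d k255 k190 k170 8 14))))))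

def s15_51_231 : T TT 256 :=
  (.l (.s k20 k40 5 (.s k150 k215 8 (.s k105 k195 14 (.s k125 k65 5 (.d k255 k190 k170 8 14))))))

def s15_51_232 : T TT 256 :=
  (.l (.s k20 k40 5 (.s k150 k215 8 (.s k105 k195 14 (.s k125 k65 5 (.d k255 k190 k170 8 14))))))

def s15_51_233 : T TT 256 :=
  (.l (.s k20 k40 5 (.s k150 k215 8 (.s k105 k195 14 (.s k125 k65 5 (.d k255 k190 k170 8 14))))))

def s15_51_234 : T TT 256 :=
  (.l (.s k20 k40 5 (.s k150 k215 8 (.s k105 k195 14 (.s k125 k65 5 (.d k255 k190 k170 8 14))))))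

def s15_51_235 : T TT 256 :=
  (.l (.s k20 k40 5 (.s k150 k215 8 (.s k105 k195 14 (.s k255 k170 14 (.d k125 k65 k190 5 8))))))

def s15_51_236 : T TT 256 :=
  (.l (.s k20 k40 5 (.s k150 k215 8 (.s k105 k195 14 (.s k125 k65 5 (.d k255 k190 k170 8 14))))))

def s15_51_237 : T TT 256 :=
  (.l (.s k20 k40 5 (.s k150 k215 8 (.s k105 k195 14 (.s k125 k65 5 (.d k255 k190 k170 8 14))))))

def s15_51_238 : T TT 256 :=
  (.l (.s k20 k40 5 (.s k150 k215 8 (.s k105 k195 14 (.s k125 k65 5 (.d k255 k190 k170 8 14))))))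

def s15_51_239 : T TT 256 :=
  (.l (.s k20 k40 5 (.s k150 k215 8 (.s k105 k195 14 (.s k125 k65 5 (.d k255 k190 k170 8 14))))))

def s15_51_240 : T TT 256 :=
  (.l (.s k20 k40 5 (.s k150 k215 8 (.s k105 k195 14 (.s k125 k65 5 (.d k255 k190 k170 8 14))))))

def s15_51_241 : T TT 256 :=
  (.l (.s k20 k40 5 (.s k150 k215 8 (.s k105 k195 14 (.s k125 k65 5 (.d k255 k190 k170 8 14))))))

def s15_51_242 : T TT 256 :=
  (.l (.s k20 k40 5 (.s k150 k215 8 (.s k105 k195 14 (.s k125 k65 5 (.d k255 k190 k170 8 14))))))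

def s15_51_243 : T TT 256 :=
  (.l (.s k20 k40 5 (.s k150 k215 8 (.s k105 k195 14 (.s k125 k65 5 (.d k255 k190 k170 8 14))))))

def s15_51_244 : T TT 256 :=
  (.l (.s k20 k40 5 (.s k150 k215 8 (.s k105 k195 14 (.s k125 k65 5 (.d k255 k190 k170 8 14))))))

def s15_51_245 : T TT 256 :=
  (.l (.s k20 k40 5 (.s k150 k215 8 (.s k105 k195 14 (.s k125 k65 5 (.d k255 k190 k170 8 14))))))

def s15_51_246 : T TT 256 :=
  (.l (.s k20 k40 5 (.s k150 k215 8 (.s k105 k195 14 (.s k125 k65 5 (.d k255 k190 k170 8 14))))))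

def s15_51_247 : T TT 256 :=
  (.l (.s k20 k40 5 (.s k150 k215 8 (.s k105 k195 14 (.s k125 k65 5 (.d k255 k190 k170 8 14))))))

def s15_51_248 : T TT 256 :=
  (.l (.s k20 k40 5 (.s k150 k215 8 (.s k105 k195 14 (.s k125 k65 5 (.d k255 k190 k170 8 14))))))

def s15_51_249 : T TT 256 :=
  (.l (.s k20 k40 5 (.s k150 k215 8 (.s k105 k195 14 (.s k125 k65 5 (.d k255 k190 k170 8 14))))))

def s15_51_250 : T TT 256 :=
  (.l (.s k20 k40 5 (.s k150 k215 8 (.s k105 k195 14 (.s k125 k65 5 (.d k255 k190 k170 8 14))))))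

def s15_51_251 : T TT 256 :=
  (.l (.s k20 k40 5 (.s k150 k215 8 (.s k105 k195 14 (.s k125 k65 5 (.d k255 k190 k170 8 14))))))

def s15_51_252 : T TT 256 :=
  (.l (.s k20 k40 5 (.s k150 k215 8 (.s k105 k195 14 (.s k125 k65 5 (.d k255 k190 k170 8 14))))))

def s15_51_253 : T TT 256 :=
  (.l (.s k20 k40 5 (.s k150 k215 8 (.s k105 k195 14 (.s k125 k65 5 (.d k255 k190 k170 8 14))))))

def s15_51_254 : T TT 256 :=
  (.l (.s k20 k40 5 (.s k150 k215 8 (.s k105 k195 14 (.s k125 k65 5 (.d k255 k190 k170 8 14))))))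

def s15_51_255 : T TT 256 :=
  (.f k20 k40 5 (.f k215 k150 8 (.q k21 [(.s k22 k23 0 (.s k3 k41 6 (.s k2 k1 0 (.d k42 k62 k63 5
  6)))), (.s k23 k22 0 (.s k87 k151 7 (.s k86 k84 0 (.d k149 k213 k212 7 8)))), (.s k63 k42 6 (.s
  k149 k213 7 (.s k192 k106 14 (.s k128 k64 7 (.s k148 k104 13 (.s k84 k212 7 (.d k168 k188 k252 5
  13)))))))] (.c k27 (.q k39 [(.s k23 k22 0 (.s k87 k151 7 (.s k86 k84 0 (.d k149 k213 k212 7 8)))),
  (.s k22 k23 0 (.s k3 k41 6 (.s k2 k1 0 (.d k42 k62 k63 5 6)))), (.s k63 k42 6 (.s k149 k213 7 (.s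
  k192 k106 14 (.s k128 k64 7 (.s k148 k104 13 (.s k84 k212 7 (.d k168 k188 k252 5 13)))))))] (.c
  k95 (.q k175 [(.s k23 k22 0 (.s k87 k151 7 (.s k86 k84 0 (.d k149 k213 k212 7 8)))), (.s k22 k23 0
  (.s k3 k41 6 (.s k2 k1 0 (.d k42 k62 k63 5 6)))), (.s k63 k42 6 (.s k149 k213 7 (.s k192 k106 14
  (.s k128 k64 7 (.s k148 k104 13 (.s k84 k212 7 (.d k168 k188 k252 5 13)))))))] (.c k119 (.q k187
  [(.s k23 k22 0 (.s k87 k151 7 (.s k86 k84 0 (.d k149 k213 k212 7 8)))), (.s k22 k23 0 (.s k3 k41 6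
  (.s k2 k1 0 (.d k42 k62 k63 5 6)))), (.s k63 k42 6 (.s k149 k213 7 (.s k192 k106 14 (.s k128 k64 7
  (.s k148 k104 13 (.s k84 k212 7 (.d k168 k188 k252 5 13)))))))] .n) (.c k187 (.q k119 [(.s k23 k22
  0 (.s k87 k151 7 (.s k86 k84 0 (.d k149 k213 k212 7 8)))), (.s k22 k23 0 (.s k3 k41 6 (.s k2 k1 0
  (.d k42 k62 k63 5 6)))), (.s k102 k68 4 (.s k149 k213 7 (.s k55 k196 12 (.s k4 k38 4 (.d k247 k183
  k166 7 12)))))] .n) .n))) (.c k119 (.q k187 [(.s k23 k22 0 (.s k87 k151 7 (.s k86 k84 0 (.d k149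
  k213 k212 7 8)))), (.s k22 k23 0 (.s k3 k41 6 (.s k2 k1 0 (.d k42 k62 k63 5 6)))), (.s k63 k42 6
  (.s k149 k213 7 (.s k192 k106 14 (.s k128 k64 7 (.s k148 k104 13 (.s k84 k212 7 (.d k168 k188 k252
  5 13)))))))] (.c k95 (.q k175 [(.s k23 k22 0 (.s k87 k151 7 (.s k86 k84 0 (.d k149 k213 k212 7
  8)))), (.s k22 k23 0 (.s k3 k41 6 (.s k2 k1 0 (.d k42 k62 k63 5 6)))), (.s k63 k42 6 (.s k149 k213
  7 (.s k192 k106 14 (.s k128 k64 7 (.s k148 k104 13 (.s k84 k212 7 (.d k168 k188 k252 5 13)))))))]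
  .n) (.c k175 (.q k95 [(.s k23 k22 0 (.s k87 k151 7 (.s k86 k84 0 (.d k149 k213 k212 7 8)))), (.s
  k22 k23 0 (.s k3 k41 6 (.s k2 k1 0 (.d k42 k62 k63 5 6)))), (.s k90 k80 2 (.s k149 k213 7 (.s k31
  k208 10 (.s k16 k26 2 (.d k223 k159 k154 7 10)))))] .n) .n))) (.c k175 (.q k95 [(.s k23 k22 0 (.s
  k87 k151 7 (.s k86 k84 0 (.d k149 k213 k212 7 8)))), (.s k22 k23 0 (.s k3 k41 6 (.s k2 k1 0 (.d
  k42 k62 k63 5 6)))), (.s k90 k80 2 (.s k149 k213 7 (.s k31 k208 10 (.s k16 k26 2 (.d k223 k159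
  k154 7 10)))))] (.c k119 (.q k187 [(.s k23 k22 0 (.s k87 k151 7 (.s k86 k84 0 (.d k149 k213 k212 7
  8)))), (.s k22 k23 0 (.s k3 k41 6 (.s k2 k1 0 (.d k42 k62 k63 5 6)))), (.s k90 k80 2 (.s k149 k213
  7 (.s k31 k208 10 (.s k16 k26 2 (.d k223 k159 k154 7 10)))))] .n) (.c k187 (.q k119 [(.s k23 k22 0
  (.s k87 k151 7 (.s k86 k84 0 (.d k149 k213 k212 7 8)))), (.s k22 k23 0 (.s k3 k41 6 (.s k2 k1 0
  (.d k42 k62 k63 5 6)))), (.s k90 k80 2 (.s k149 k213 7 (.s k31 k208 10 (.s k16 k26 2 (.d k223 k159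
  k154 7 10)))))] .n) .n))) (.c k187 (.q k119 [(.s k23 k22 0 (.s k87 k151 7 (.s k86 k84 0 (.d k149
  k213 k212 7 8)))), (.s k22 k23 0 (.s k3 k41 6 (.s k2 k1 0 (.d k42 k62 k63 5 6)))), (.s k102 k68 4
  (.s k149 k213 7 (.s k55 k196 12 (.s k4 k38 4 (.d k247 k183 k166 7 12)))))] (.c k95 (.q k175 [(.s
  k23 k22 0 (.s k87 k151 7 (.s k86 k84 0 (.d k149 k213 k212 7 8)))), (.s k22 k23 0 (.s k3 k41 6 (.s
  k2 k1 0 (.d k42 k62 k63 5 6)))), (.s k102 k68 4 (.s k149 k213 7 (.s k55 k196 12 (.s k4 k38 4 (.d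
  k247 k183 k166 7 12)))))] .n) (.c k175 (.q k95 [(.s k23 k22 0 (.s k87 k151 7 (.s k86 k84 0 (.d
  k149 k213 k212 7 8)))), (.s k22 k23 0 (.s k3 k41 6 (.s k2 k1 0 (.d k42 k62 k63 5 6)))), (.s k90
  k80 2 (.s k149 k213 7 (.s k31 k208 10 (.s k16 k26 2 (.d k223 k159 k154 7 10)))))] .n) .n)))
  .n))))) (.c k39 (.q k27 [(.s k23 k22 0 (.s k87 k151 7 (.s k86 k84 0 (.d k149 k213 k212 7 8)))),
  (.s k22 k23 0 (.s k3 k41 6 (.s k2 k1 0 (.d k42 k62 k63 5 6)))), (.s k63 k42 6 (.s k149 k213 7 (.s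
  k192 k106 14 (.s k128 k64 7 (.s k148 k104 13 (.s k84 k212 7 (.d k168 k188 k252 5 13)))))))] (.c
  k95 (.q k175 [(.s k23 k22 0 (.s k87 k151 7 (.s k86 k84 0 (.d k149 k213 k212 7 8)))), (.s k22 k23 0
  (.s k3 k41 6 (.s k2 k1 0 (.d k42 k62 k63 5 6)))), (.s k63 k42 6 (.s k149 k213 7 (.s k192 k106 14
  (.s k128 k64 7 (.s k148 k104 13 (.s k84 k212 7 (.d k168 k188 k252 5 13)))))))] (.c k119 (.q k187
  [(.s k23 k22 0 (.s k87 k151 7 (.s k86 k84 0 (.d k149 k213 k212 7 8)))), (.s k22 k23 0 (.s k3 k41 6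
  (.s k2 k1 0 (.d k42 k62 k63 5 6)))), (.s k63 k42 6 (.s k149 k213 7 (.s k192 k106 14 (.s k128 k64 7
  (.s k148 k104 13 (.s k84 k212 7 (.d k168 k188 k252 5 13)))))))] .n) (.c k187 (.q k119 [(.s k23 k22
  0 (.s k87 k151 7 (.s k86 k84 0 (.d k149 k213 k212 7 8)))), (.s k22 k23 0 (.s k3 k41 6 (.s k2 k1 0
  (.d k42 k62 k63 5 6)))), (.s k102 k68 4 (.s k149 k213 7 (.s k55 k196 12 (.s k4 k38 4 (.d k247 k183
  k166 7 12)))))] .n) .n))) (.c k119 (.q k187 [(.s k23 k22 0 (.s k87 k151 7 (.s k86 k84 0 (.d k149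
  k213 k212 7 8)))), (.s k22 k23 0 (.s k3 k41 6 (.s k2 k1 0 (.d k42 k62 k63 5 6)))), (.s k63 k42 6
  (.s k149 k213 7 (.s k192 k106 14 (.s k128 k64 7 (.s k148 k104 13 (.s k84 k212 7 (.d k168 k188 k252
  5 13)))))))] (.c k95 (.q k175 [(.s k23 k22 0 (.s k87 k151 7 (.s k86 k84 0 (.d k149 k213 k212 7
  8)))), (.s k22 k23 0 (.s k3 k41 6 (.s k2 k1 0 (.d k42 k62 k63 5 6)))), (.s k63 k42 6 (.s k149 k213
  7 (.s k192 k106 14 (.s k128 k64 7 (.s k148 k104 13 (.s k84 k212 7 (.d k168 k188 k252 5 13)))))))]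
  .n) (.c k175 (.q k95 [(.s k23 k22 0 (.s k87 k151 7 (.s k86 k84 0 (.d k149 k213 k212 7 8)))), (.s
  k22 k23 0 (.s k3 k41 6 (.s k2 k1 0 (.d k42 k62 k63 5 6)))), (.s k90 k80 2 (.s k149 k213 7 (.s k31
  k208 10 (.s k16 k26 2 (.d k223 k159 k154 7 10)))))] .n) .n))) (.c k175 (.q k95 [(.s k23 k22 0 (.s
  k87 k151 7 (.s k86 k84 0 (.d k149 k213 k212 7 8)))), (.s k22 k23 0 (.s k3 k41 6 (.s k2 k1 0 (.d
  k42 k62 k63 5 6)))), (.s k90 k80 2 (.s k149 k213 7 (.s k31 k208 10 (.s k16 k26 2 (.d k223 k159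
  k154 7 10)))))] (.c k119 (.q k187 [(.s k23 k22 0 (.s k87 k151 7 (.s k86 k84 0 (.d k149 k213 k212 7
  8)))), (.s k22 k23 0 (.s k3 k41 6 (.s k2 k1 0 (.d k42 k62 k63 5 6)))), (.s k90 k80 2 (.s k149 k213
  7 (.s k31 k208 10 (.s k16 k26 2 (.d k223 k159 k154 7 10)))))] .n) (.c k187 (.q k119 [(.s k23 k22 0
  (.s k87 k151 7 (.s k86 k84 0 (.d k149 k213 k212 7 8)))), (.s k22 k23 0 (.s k3 k41 6 (.s k2 k1 0
  (.d k42 k62 k63 5 6)))), (.s k90 k80 2 (.s k149 k213 7 (.s k31 k208 10 (.s k16 k26 2 (.d k223 k159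
  k154 7 10)))))] .n) .n))) (.c k187 (.q k119 [(.s k23 k22 0 (.s k87 k151 7 (.s k86 k84 0 (.d k149
  k213 k212 7 8)))), (.s k22 k23 0 (.s k3 k41 6 (.s k2 k1 0 (.d k42 k62 k63 5 6)))), (.s k102 k68 4
  (.s k149 k213 7 (.s k55 k196 12 (.s k4 k38 4 (.d k247 k183 k166 7 12)))))] (.c k95 (.q k175 [(.s
  k23 k22 0 (.s k87 k151 7 (.s k86 k84 0 (.d k149 k213 k212 7 8)))), (.s k22 k23 0 (.s k3 k41 6 (.s
  k2 k1 0 (.d k42 k62 k63 5 6)))), (.s k102 k68 4 (.s k149 k213 7 (.s k55 k196 12 (.s k4 k38 4 (.d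
  k247 k183 k166 7 12)))))] .n) (.c k175 (.q k95 [(.s k23 k22 0 (.s k87 k151 7 (.s k86 k84 0 (.d
  k149 k213 k212 7 8)))), (.s k22 k23 0 (.s k3 k41 6 (.s k2 k1 0 (.d k42 k62 k63 5 6)))), (.s k90
  k80 2 (.s k149 k213 7 (.s k31 k208 10 (.s k16 k26 2 (.d k223 k159 k154 7 10)))))] .n) .n)))
  .n))))) (.c k95 (.q k175 [(.s k22 k23 0 (.s k3 k41 6 (.s k2 k1 0 (.d k42 k62 k63 5 6)))), (.s k23
  k22 0 (.s k87 k151 7 (.s k86 k84 0 (.d k149 k213 k212 7 8)))), (.s k63 k42 6 (.s k149 k213 7 (.s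
  k192 k106 14 (.s k128 k64 7 (.s k148 k104 13 (.s k84 k212 7 (.d k168 k188 k252 5 13)))))))] (.c
  k27 (.q k39 [(.s k23 k22 0 (.s k87 k151 7 (.s k86 k84 0 (.d k149 k213 k212 7 8)))), (.s k22 k23 0
  (.s k3 k41 6 (.s k2 k1 0 (.d k42 k62 k63 5 6)))), (.s k63 k42 6 (.s k149 k213 7 (.s k192 k106 14
  (.s k128 k64 7 (.s k148 k104 13 (.s k84 k212 7 (.d k168 k188 k252 5 13)))))))] (.c k119 (.q k187
  [(.s k23 k22 0 (.s k87 k151 7 (.s k86 k84 0 (.d k149 k213 k212 7 8)))), (.s k22 k23 0 (.s k3 k41 6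
  (.s k2 k1 0 (.d k42 k62 k63 5 6)))), (.s k63 k42 6 (.s k149 k213 7 (.s k192 k106 14 (.s k128 k64 7
  (.s k148 k104 13 (.s k84 k212 7 (.d k168 k188 k252 5 13)))))))] .n) (.c k187 (.q k119 [(.s k23 k22
  0 (.s k87 k151 7 (.s k86 k84 0 (.d k149 k213 k212 7 8)))), (.s k22 k23 0 (.s k3 k41 6 (.s k2 k1 0
  (.d k42 k62 k63 5 6)))), (.s k102 k68 4 (.s k149 k213 7 (.s k55 k196 12 (.s k4 k38 4 (.d k247 k183
  k166 7 12)))))] .n) .n))) (.c k39 (.q k27 [(.s k23 k22 0 (.s k87 k151 7 (.s k86 k84 0 (.d k149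
  k213 k212 7 8)))), (.s k22 k23 0 (.s k3 k41 6 (.s k2 k1 0 (.d k42 k62 k63 5 6)))), (.s k63 k42 6
  (.s k149 k213 7 (.s k192 k106 14 (.s k128 k64 7 (.s k148 k104 13 (.s k84 k212 7 (.d k168 k188 k252
  5 13)))))))] (.c k119 (.q k187 [(.s k23 k22 0 (.s k87 k151 7 (.s k86 k84 0 (.d k149 k213 k212 7
  8)))), (.s k22 k23 0 (.s k3 k41 6 (.s k2 k1 0 (.d k42 k62 k63 5 6)))), (.s k63 k42 6 (.s k149 k213
  7 (.s k192 k106 14 (.s k128 k64 7 (.s k148 k104 13 (.s k84 k212 7 (.d k168 k188 k252 5 13)))))))]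
  .n) (.c k187 (.q k119 [(.s k23 k22 0 (.s k87 k151 7 (.s k86 k84 0 (.d k149 k213 k212 7 8)))), (.s
  k22 k23 0 (.s k3 k41 6 (.s k2 k1 0 (.d k42 k62 k63 5 6)))), (.s k102 k68 4 (.s k149 k213 7 (.s k55
  k196 12 (.s k4 k38 4 (.d k247 k183 k166 7 12)))))] .n) .n))) (.c k119 (.q k187 [(.s k22 k23 0 (.s
  k3 k41 6 (.s k2 k1 0 (.d k42 k62 k63 5 6)))), (.s k23 k22 0 (.s k87 k151 7 (.s k86 k84 0 (.d k149
  k213 k212 7 8)))), (.s k63 k42 6 (.s k149 k213 7 (.s k192 k106 14 (.s k128 k64 7 (.s k148 k104 13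
  (.s k84 k212 7 (.d k168 k188 k252 5 13)))))))] (.c k27 (.q k39 [(.s k23 k22 0 (.s k87 k151 7 (.s
  k86 k84 0 (.d k149 k213 k212 7 8)))), (.s k22 k23 0 (.s k3 k41 6 (.s k2 k1 0 (.d k42 k62 k63 5
  6)))), (.s k63 k42 6 (.s k149 k213 7 (.s k192 k106 14 (.s k128 k64 7 (.s k148 k104 13 (.s k84 k212
  7 (.d k168 k188 k252 5 13)))))))] .n) (.c k39 (.q k27 [(.s k23 k22 0 (.s k87 k151 7 (.s k86 k84 0
  (.d k149 k213 k212 7 8)))), (.s k22 k23 0 (.s k3 k41 6 (.s k2 k1 0 (.d k42 k62 k63 5 6)))), (.s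
  k63 k42 6 (.s k149 k213 7 (.s k192 k106 14 (.s k128 k64 7 (.s k148 k104 13 (.s k84 k212 7 (.d k168
  k188 k252 5 13)))))))] .n) .n))) (.c k187 (.q k119 [(.s k22 k23 0 (.s k3 k41 6 (.s k2 k1 0 (.d k42
  k62 k63 5 6)))), (.s k102 k68 4 (.s k149 k213 7 (.s k55 k196 12 (.s k4 k38 4 (.d k247 k183 k166 7
  12)))))] (.c k27 (.q k39 [(.s k23 k22 0 (.s k87 k151 7 (.s k86 k84 0 (.d k149 k213 k212 7 8)))),
  (.s k22 k23 0 (.s k3 k41 6 (.s k2 k1 0 (.d k42 k62 k63 5 6)))), (.s k102 k68 4 (.s k149 k213 7 (.s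
  k55 k196 12 (.s k4 k38 4 (.d k247 k183 k166 7 12)))))] .n) (.c k39 (.q k27 [(.s k23 k22 0 (.s k87
  k151 7 (.s k86 k84 0 (.d k149 k213 k212 7 8)))), (.s k22 k23 0 (.s k3 k41 6 (.s k2 k1 0 (.d k42
  k62 k63 5 6)))), (.s k102 k68 4 (.s k149 k213 7 (.s k55 k196 12 (.s k4 k38 4 (.d k247 k183 k166 7
  12)))))] .n) .n))) .n))))) (.c k119 (.q k187 [(.s k22 k23 0 (.s k3 k41 6 (.s k2 k1 0 (.d k42 k62
  k63 5 6)))), (.s k23 k22 0 (.s k87 k151 7 (.s k86 k84 0 (.d k149 k213 k212 7 8)))), (.s k63 k42 6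
  (.s k149 k213 7 (.s k192 k106 14 (.s k128 k64 7 (.s k148 k104 13 (.s k84 k212 7 (.d k168 k188 k252
  5 13)))))))] (.c k27 (.q k39 [(.s k23 k22 0 (.s k87 k151 7 (.s k86 k84 0 (.d k149 k213 k212 7
  8)))), (.s k22 k23 0 (.s k3 k41 6 (.s k2 k1 0 (.d k42 k62 k63 5 6)))), (.s k63 k42 6 (.s k149 k213
  7 (.s k192 k106 14 (.s k128 k64 7 (.s k148 k104 13 (.s k84 k212 7 (.d k168 k188 k252 5 13)))))))]
  (.c k95 (.q k175 [(.s k23 k22 0 (.s k87 k151 7 (.s k86 k84 0 (.d k149 k213 k212 7 8)))), (.s k22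
  k23 0 (.s k3 k41 6 (.s k2 k1 0 (.d k42 k62 k63 5 6)))), (.s k63 k42 6 (.s k149 k213 7 (.s k192
  k106 14 (.s k128 k64 7 (.s k148 k104 13 (.s k84 k212 7 (.d k168 k188 k252 5 13)))))))] .n) (.c
  k175 (.q k95 [(.s k23 k22 0 (.s k87 k151 7 (.s k86 k84 0 (.d k149 k213 k212 7 8)))), (.s k22 k23 0
  (.s k3 k41 6 (.s k2 k1 0 (.d k42 k62 k63 5 6)))), (.s k90 k80 2 (.s k149 k213 7 (.s k31 k208 10
  (.s k16 k26 2 (.d k223 k159 k154 7 10)))))] .n) .n))) (.c k39 (.q k27 [(.s k23 k22 0 (.s k87 k151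
  7 (.s k86 k84 0 (.d k149 k213 k212 7 8)))), (.s k22 k23 0 (.s k3 k41 6 (.s k2 k1 0 (.d k42 k62 k63
  5 6)))), (.s k63 k42 6 (.s k149 k213 7 (.s k192 k106 14 (.s k128 k64 7 (.s k148 k104 13 (.s k84
  k212 7 (.d k168 k188 k252 5 13)))))))] (.c k95 (.q k175 [(.s k23 k22 0 (.s k87 k151 7 (.s k86 k84
  0 (.d k149 k213 k212 7 8)))), (.s k22 k23 0 (.s k3 k41 6 (.s k2 k1 0 (.d k42 k62 k63 5 6)))), (.s
  k63 k42 6 (.s k149 k213 7 (.s k192 k106 14 (.s k128 k64 7 (.s k148 k104 13 (.s k84 k212 7 (.d k168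
  k188 k252 5 13)))))))] .n) (.c k175 (.q k95 [(.s k23 k22 0 (.s k87 k151 7 (.s k86 k84 0 (.d k149
  k213 k212 7 8)))), (.s k22 k23 0 (.s k3 k41 6 (.s k2 k1 0 (.d k42 k62 k63 5 6)))), (.s k90 k80 2
  (.s k149 k213 7 (.s k31 k208 10 (.s k16 k26 2 (.d k223 k159 k154 7 10)))))] .n) .n))) (.c k95 (.q
  k175 [(.s k22 k23 0 (.s k3 k41 6 (.s k2 k1 0 (.d k42 k62 k63 5 6)))), (.s k23 k22 0 (.s k87 k151 7
  (.s k86 k84 0 (.d k149 k213 k212 7 8)))), (.s k63 k42 6 (.s k149 k213 7 (.s k192 k106 14 (.s k128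
  k64 7 (.s k148 k104 13 (.s k84 k212 7 (.d k168 k188 k252 5 13)))))))] (.c k27 (.q k39 [(.s k23 k22
  0 (.s k87 k151 7 (.s k86 k84 0 (.d k149 k213 k212 7 8)))), (.s k22 k23 0 (.s k3 k41 6 (.s k2 k1 0
  (.d k42 k62 k63 5 6)))), (.s k63 k42 6 (.s k149 k213 7 (.s k192 k106 14 (.s k128 k64 7 (.s k148
  k104 13 (.s k84 k212 7 (.d k168 k188 k252 5 13)))))))] .n) (.c k39 (.q k27 [(.s k23 k22 0 (.s k87
  k151 7 (.s k86 k84 0 (.d k149 k213 k212 7 8)))), (.s k22 k23 0 (.s k3 k41 6 (.s k2 k1 0 (.d k42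
  k62 k63 5 6)))), (.s k63 k42 6 (.s k149 k213 7 (.s k192 k106 14 (.s k128 k64 7 (.s k148 k104 13
  (.s k84 k212 7 (.d k168 k188 k252 5 13)))))))] .n) .n))) (.c k175 (.q k95 [(.s k22 k23 0 (.s k3
  k41 6 (.s k2 k1 0 (.d k42 k62 k63 5 6)))), (.s k90 k80 2 (.s k149 k213 7 (.s k31 k208 10 (.s k16
  k26 2 (.d k223 k159 k154 7 10)))))] (.c k27 (.q k39 [(.s k23 k22 0 (.s k87 k151 7 (.s k86 k84 0
  (.d k149 k213 k212 7 8)))), (.s k22 k23 0 (.s k3 k41 6 (.s k2 k1 0 (.d k42 k62 k63 5 6)))), (.s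
  k90 k80 2 (.s k149 k213 7 (.s k31 k208 10 (.s k16 k26 2 (.d k223 k159 k154 7 10)))))] .n) (.c k39
  (.q k27 [(.s k23 k22 0 (.s k87 k151 7 (.s k86 k84 0 (.d k149 k213 k212 7 8)))), (.s k22 k23 0 (.s
  k3 k41 6 (.s k2 k1 0 (.d k42 k62 k63 5 6)))), (.s k90 k80 2 (.s k149 k213 7 (.s k31 k208 10 (.s
  k16 k26 2 (.d k223 k159 k154 7 10)))))] .n) .n))) .n))))) (.c k175 (.q k95 [(.s k22 k23 0 (.s k3
  k41 6 (.s k2 k1 0 (.d k42 k62 k63 5 6)))), (.s k90 k80 2 (.s k149 k213 7 (.s k31 k208 10 (.s k16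
  k26 2 (.d k223 k159 k154 7 10)))))] (.c k27 (.q k39 [(.s k23 k22 0 (.s k87 k151 7 (.s k86 k84 0
  (.d k149 k213 k212 7 8)))), (.s k22 k23 0 (.s k3 k41 6 (.s k2 k1 0 (.d k42 k62 k63 5 6)))), (.s
  k90 k80 2 (.s k149 k213 7 (.s k31 k208 10 (.s k16 k26 2 (.d k223 k159 k154 7 10)))))] (.c k119 (.q
  k187 [(.s k23 k22 0 (.s k87 k151 7 (.s k86 k84 0 (.d k149 k213 k212 7 8)))), (.s k22 k23 0 (.s k3
  k41 6 (.s k2 k1 0 (.d k42 k62 k63 5 6)))), (.s k90 k80 2 (.s k149 k213 7 (.s k31 k208 10 (.s k16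
  k26 2 (.d k223 k159 k154 7 10)))))] .n) (.c k187 (.q k119 [(.s k23 k22 0 (.s k87 k151 7 (.s k86
  k84 0 (.d k149 k213 k212 7 8)))), (.s k22 k23 0 (.s k3 k41 6 (.s k2 k1 0 (.d k42 k62 k63 5 6)))),
  (.s k90 k80 2 (.s k149 k213 7 (.s k31 k208 10 (.s k16 k26 2 (.d k223 k159 k154 7 10)))))] .n)
  .n))) (.c k39 (.q k27 [(.s k23 k22 0 (.s k87 k151 7 (.s k86 k84 0 (.d k149 k213 k212 7 8)))), (.s
  k22 k23 0 (.s k3 k41 6 (.s k2 k1 0 (.d k42 k62 k63 5 6)))), (.s k90 k80 2 (.s k149 k213 7 (.s k31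
  k208 10 (.s k16 k26 2 (.d k223 k159 k154 7 10)))))] (.c k119 (.q k187 [(.s k23 k22 0 (.s k87 k151
  7 (.s k86 k84 0 (.d k149 k213 k212 7 8)))), (.s k22 k23 0 (.s k3 k41 6 (.s k2 k1 0 (.d k42 k62 k63
  5 6)))), (.s k90 k80 2 (.s k149 k213 7 (.s k31 k208 10 (.s k16 k26 2 (.d k223 k159 k154 7 10)))))]
  .n) (.c k187 (.q k119 [(.s k23 k22 0 (.s k87 k151 7 (.s k86 k84 0 (.d k149 k213 k212 7 8)))), (.s
  k22 k23 0 (.s k3 k41 6 (.s k2 k1 0 (.d k42 k62 k63 5 6)))), (.s k90 k80 2 (.s k149 k213 7 (.s k31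
  k208 10 (.s k16 k26 2 (.d k223 k159 k154 7 10)))))] .n) .n))) (.c k119 (.q k187 [(.s k22 k23 0 (.s
  k3 k41 6 (.s k2 k1 0 (.d k42 k62 k63 5 6)))), (.s k90 k80 2 (.s k149 k213 7 (.s k31 k208 10 (.s
  k16 k26 2 (.d k223 k159 k154 7 10)))))] (.c k27 (.q k39 [(.s k23 k22 0 (.s k87 k151 7 (.s k86 k84
  0 (.d k149 k213 k212 7 8)))), (.s k22 k23 0 (.s k3 k41 6 (.s k2 k1 0 (.d k42 k62 k63 5 6)))), (.s
  k90 k80 2 (.s k149 k213 7 (.s k31 k208 10 (.s k16 k26 2 (.d k223 k159 k154 7 10)))))] .n) (.c k39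
  (.q k27 [(.s k23 k22 0 (.s k87 k151 7 (.s k86 k84 0 (.d k149 k213 k212 7 8)))), (.s k22 k23 0 (.s
  k3 k41 6 (.s k2 k1 0 (.d k42 k62 k63 5 6)))), (.s k90 k80 2 (.s k149 k213 7 (.s k31 k208 10 (.s
  k16 k26 2 (.d k223 k159 k154 7 10)))))] .n) .n))) (.c k187 (.q k119 [(.s k22 k23 0 (.s k3 k41 6
  (.s k2 k1 0 (.d k42 k62 k63 5 6)))), (.s k90 k80 2 (.s k149 k213 7 (.s k31 k208 10 (.s k16 k26 2
  (.d k223 k159 k154 7 10)))))] (.c k27 (.q k39 [(.s k23 k22 0 (.s k87 k151 7 (.s k86 k84 0 (.d k149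
  k213 k212 7 8)))), (.s k22 k23 0 (.s k3 k41 6 (.s k2 k1 0 (.d k42 k62 k63 5 6)))), (.s k90 k80 2
  (.s k149 k213 7 (.s k31 k208 10 (.s k16 k26 2 (.d k223 k159 k154 7 10)))))] .n) (.c k39 (.q k27
  [(.s k23 k22 0 (.s k87 k151 7 (.s k86 k84 0 (.d k149 k213 k212 7 8)))), (.s k22 k23 0 (.s k3 k41 6
  (.s k2 k1 0 (.d k42 k62 k63 5 6)))), (.s k90 k80 2 (.s k149 k213 7 (.s k31 k208 10 (.s k16 k26 2
  (.d k223 k159 k154 7 10)))))] .n) .n))) .n))))) (.c k187 (.q k119 [(.s k22 k23 0 (.s k3 k41 6 (.s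
  k2 k1 0 (.d k42 k62 k63 5 6)))), (.s k102 k68 4 (.s k149 k213 7 (.s k55 k196 12 (.s k4 k38 4 (.d
  k247 k183 k166 7 12)))))] (.c k27 (.q k39 [(.s k23 k22 0 (.s k87 k151 7 (.s k86 k84 0 (.d k149
  k213 k212 7 8)))), (.s k22 k23 0 (.s k3 k41 6 (.s k2 k1 0 (.d k42 k62 k63 5 6)))), (.s k102 k68 4
  (.s k149 k213 7 (.s k55 k196 12 (.s k4 k38 4 (.d k247 k183 k166 7 12)))))] (.c k95 (.q k175 [(.s
  k23 k22 0 (.s k87 k151 7 (.s k86 k84 0 (.d k149 k213 k212 7 8)))), (.s k22 k23 0 (.s k3 k41 6 (.s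
  k2 k1 0 (.d k42 k62 k63 5 6)))), (.s k102 k68 4 (.s k149 k213 7 (.s k55 k196 12 (.s k4 k38 4 (.d
  k247 k183 k166 7 12)))))] .n) (.c k175 (.q k95 [(.s k23 k22 0 (.s k87 k151 7 (.s k86 k84 0 (.d
  k149 k213 k212 7 8)))), (.s k22 k23 0 (.s k3 k41 6 (.s k2 k1 0 (.d k42 k62 k63 5 6)))), (.s k90
  k80 2 (.s k149 k213 7 (.s k31 k208 10 (.s k16 k26 2 (.d k223 k159 k154 7 10)))))] .n) .n))) (.c
  k39 (.q k27 [(.s k23 k22 0 (.s k87 k151 7 (.s k86 k84 0 (.d k149 k213 k212 7 8)))), (.s k22 k23 0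
  (.s k3 k41 6 (.s k2 k1 0 (.d k42 k62 k63 5 6)))), (.s k102 k68 4 (.s k149 k213 7 (.s k55 k196 12
  (.s k4 k38 4 (.d k247 k183 k166 7 12)))))] (.c k95 (.q k175 [(.s k23 k22 0 (.s k87 k151 7 (.s k86
  k84 0 (.d k149 k213 k212 7 8)))), (.s k22 k23 0 (.s k3 k41 6 (.s k2 k1 0 (.d k42 k62 k63 5 6)))),
  (.s k102 k68 4 (.s k149 k213 7 (.s k55 k196 12 (.s k4 k38 4 (.d k247 k183 k166 7 12)))))] .n) (.c
  k175 (.q k95 [(.s k23 k22 0 (.s k87 k151 7 (.s k86 k84 0 (.d k149 k213 k212 7 8)))), (.s k22 k23 0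
  (.s k3 k41 6 (.s k2 k1 0 (.d k42 k62 k63 5 6)))), (.s k90 k80 2 (.s k149 k213 7 (.s k31 k208 10
  (.s k16 k26 2 (.d k223 k159 k154 7 10)))))] .n) .n))) (.c k95 (.q k175 [(.s k22 k23 0 (.s k3 k41 6
  (.s k2 k1 0 (.d k42 k62 k63 5 6)))), (.s k102 k68 4 (.s k149 k213 7 (.s k55 k196 12 (.s k4 k38 4
  (.d k247 k183 k166 7 12)))))] (.c k27 (.q k39 [(.s k23 k22 0 (.s k87 k151 7 (.s k86 k84 0 (.d k149
  k213 k212 7 8)))), (.s k22 k23 0 (.s k3 k41 6 (.s k2 k1 0 (.d k42 k62 k63 5 6)))), (.s k102 k68 4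
  (.s k149 k213 7 (.s k55 k196 12 (.s k4 k38 4 (.d k247 k183 k166 7 12)))))] .n) (.c k39 (.q k27
  [(.s k23 k22 0 (.s k87 k151 7 (.s k86 k84 0 (.d k149 k213 k212 7 8)))), (.s k22 k23 0 (.s k3 k41 6
  (.s k2 k1 0 (.d k42 k62 k63 5 6)))), (.s k102 k68 4 (.s k149 k213 7 (.s k55 k196 12 (.s k4 k38 4
  (.d k247 k183 k166 7 12)))))] .n) .n))) (.c k175 (.q k95 [(.s k22 k23 0 (.s k3 k41 6 (.s k2 k1 0
  (.d k42 k62 k63 5 6)))), (.s k90 k80 2 (.s k149 k213 7 (.s k31 k208 10 (.s k16 k26 2 (.d k223 k159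
  k154 7 10)))))] (.c k27 (.q k39 [(.s k23 k22 0 (.s k87 k151 7 (.s k86 k84 0 (.d k149 k213 k212 7
  8)))), (.s k22 k23 0 (.s k3 k41 6 (.s k2 k1 0 (.d k42 k62 k63 5 6)))), (.s k90 k80 2 (.s k149 k213
  7 (.s k31 k208 10 (.s k16 k26 2 (.d k223 k159 k154 7 10)))))] .n) (.c k39 (.q k27 [(.s k23 k22 0
  (.s k87 k151 7 (.s k86 k84 0 (.d k149 k213 k212 7 8)))), (.s k22 k23 0 (.s k3 k41 6 (.s k2 k1 0
  (.d k42 k62 k63 5 6)))), (.s k90 k80 2 (.s k149 k213 7 (.s k31 k208 10 (.s k16 k26 2 (.d k223 k159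
  k154 7 10)))))] .n) .n))) .n))))) .n)))))))))

def t15_51 : T TT 256 :=
  (.q k60 [] (.c k1 s15_51_1 (.c k2 s15_51_2 (.c k3 s15_51_3 (.c k4 s15_51_4 (.c k5 s15_51_5 (.c k6
  s15_51_6 (.c k7 s15_51_7 (.c k8 s15_51_8 (.c k9 s15_51_9 (.c k10 s15_51_10 (.c k11 s15_51_11 (.c
  k12 s15_51_12 (.c k13 s15_51_13 (.c k14 s15_51_14 (.c k16 s15_51_16 (.c k17 s15_51_17 (.c k18
  s15_51_18 (.c k19 s15_51_19 (.c k20 s15_51_20 (.c k21 s15_51_21 (.c k22 s15_51_22 (.c k23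
  s15_51_23 (.c k24 s15_51_24 (.c k25 s15_51_25 (.c k26 s15_51_26 (.c k27 s15_51_27 (.c k28
  s15_51_28 (.c k29 s15_51_29 (.c k30 s15_51_30 (.c k31 s15_51_31 (.c k32 s15_51_32 (.c k33
  s15_51_33 (.c k34 s15_51_34 (.c k35 s15_51_35 (.c k36 s15_51_36 (.c k37 s15_51_37 (.c k38
  s15_51_38 (.c k39 s15_51_39 (.c k40 s15_51_40 (.c k41 s15_51_41 (.c k42 s15_51_42 (.c k43
  s15_51_43 (.c k44 s15_51_44 (.c k45 s15_51_45 (.c k46 s15_51_46 (.c k47 s15_51_47 (.c k48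
  s15_51_48 (.c k49 s15_51_49 (.c k50 s15_51_50 (.c k52 s15_51_52 (.c k53 s15_51_53 (.c k54
  s15_51_54 (.c k55 s15_51_55 (.c k56 s15_51_56 (.c k57 s15_51_57 (.c k58 s15_51_58 (.c k59
  s15_51_59 (.c k61 s15_51_61 (.c k62 s15_51_62 (.c k63 s15_51_63 (.c k64 s15_51_64 (.c k65
  s15_51_65 (.c k66 s15_51_66 (.c k67 s15_51_67 (.c k68 s15_51_68 (.c k69 s15_51_69 (.c k70
  s15_51_70 (.c k71 s15_51_71 (.c k72 s15_51_72 (.c k73 s15_51_73 (.c k74 s15_51_74 (.c k75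
  s15_51_75 (.c k76 s15_51_76 (.c k77 s15_51_77 (.c k78 s15_51_78 (.c k79 s15_51_79 (.c k80
  s15_51_80 (.c k81 s15_51_81 (.c k82 s15_51_82 (.c k83 s15_51_83 (.c k84 s15_51_84 (.c k86
  s15_51_86 (.c k87 s15_51_87 (.c k88 s15_51_88 (.c k89 s15_51_89 (.c k90 s15_51_90 (.c k91
  s15_51_91 (.c k92 s15_51_92 (.c k93 s15_51_93 (.c k94 s15_51_94 (.c k95 s15_51_95 (.c k96
  s15_51_96 (.c k97 s15_51_97 (.c k98 s15_51_98 (.c k99 s15_51_99 (.c k100 s15_51_100 (.c k101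
  s15_51_101 (.c k102 s15_51_102 (.c k103 s15_51_103 (.c k104 s15_51_104 (.c k105 s15_51_105 (.c
  k106 s15_51_106 (.c k107 s15_51_107 (.c k108 s15_51_108 (.c k109 s15_51_109 (.c k110 s15_51_110
  (.c k111 s15_51_111 (.c k112 s15_51_112 (.c k113 s15_51_113 (.c k114 s15_51_114 (.c k115
  s15_51_115 (.c k116 s15_51_116 (.c k117 s15_51_117 (.c k118 s15_51_118 (.c k119 s15_51_119 (.c
  k120 s15_51_120 (.c k121 s15_51_121 (.c k122 s15_51_122 (.c k123 s15_51_123 (.c k124 s15_51_124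
  (.c k125 s15_51_125 (.c k126 s15_51_126 (.c k127 s15_51_127 (.c k128 s15_51_128 (.c k129
  s15_51_129 (.c k130 s15_51_130 (.c k131 s15_51_131 (.c k132 s15_51_132 (.c k133 s15_51_133 (.c
  k134 s15_51_134 (.c k135 s15_51_135 (.c k136 s15_51_136 (.c k137 s15_51_137 (.c k138 s15_51_138
  (.c k139 s15_51_139 (.c k140 s15_51_140 (.c k141 s15_51_141 (.c k142 s15_51_142 (.c k143
  s15_51_143 (.c k144 s15_51_144 (.c k145 s15_51_145 (.c k146 s15_51_146 (.c k147 s15_51_147 (.c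
  k148 s15_51_148 (.c k149 s15_51_149 (.c k150 s15_51_150 (.c k151 s15_51_151 (.c k152 s15_51_152
  (.c k153 s15_51_153 (.c k154 s15_51_154 (.c k155 s15_51_155 (.c k156 s15_51_156 (.c k157
  s15_51_157 (.c k158 s15_51_158 (.c k159 s15_51_159 (.c k160 s15_51_160 (.c k161 s15_51_161 (.c
  k162 s15_51_162 (.c k163 s15_51_163 (.c k164 s15_51_164 (.c k165 s15_51_165 (.c k166 s15_51_166
  (.c k167 s15_51_167 (.c k168 s15_51_168 (.c k169 s15_51_169 (.c k170 s15_51_170 (.c k171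
  s15_51_171 (.c k172 s15_51_172 (.c k173 s15_51_173 (.c k174 s15_51_174 (.c k175 s15_51_175 (.c
  k176 s15_51_176 (.c k177 s15_51_177 (.c k178 s15_51_178 (.c k179 s15_51_179 (.c k180 s15_51_180
  (.c k181 s15_51_181 (.c k182 s15_51_182 (.c k183 s15_51_183 (.c k184 s15_51_184 (.c k185
  s15_51_185 (.c k186 s15_51_186 (.c k187 s15_51_187 (.c k188 s15_51_188 (.c k189 s15_51_189 (.c
  k190 s15_51_190 (.c k191 s15_51_191 (.c k192 s15_51_192 (.c k193 s15_51_193 (.c k194 s15_51_194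
  (.c k195 s15_51_195 (.c k196 s15_51_196 (.c k197 s15_51_197 (.c k198 s15_51_198 (.c k199
  s15_51_199 (.c k200 s15_51_200 (.c k201 s15_51_201 (.c k202 s15_51_202 (.c k203 s15_51_203 (.c
  k204 s15_51_204 (.c k205 s15_51_205 (.c k206 s15_51_206 (.c k207 s15_51_207 (.c k208 s15_51_208
  (.c k209 s15_51_209 (.c k210 s15_51_210 (.c k211 s15_51_211 (.c k212 s15_51_212 (.c k213
  s15_51_213 (.c k214 s15_51_214 (.c k215 s15_51_215 (.c k216 s15_51_216 (.c k217 s15_51_217 (.c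
  k218 s15_51_218 (.c k219 s15_51_219 (.c k220 s15_51_220 (.c k221 s15_51_221 (.c k222 s15_51_222
  (.c k223 s15_51_223 (.c k224 s15_51_224 (.c k225 s15_51_225 (.c k226 s15_51_226 (.c k227
  s15_51_227 (.c k228 s15_51_228 (.c k229 s15_51_229 (.c k230 s15_51_230 (.c k231 s15_51_231 (.c
  k232 s15_51_232 (.c k233 s15_51_233 (.c k234 s15_51_234 (.c k235 s15_51_235 (.c k236 s15_51_236
  (.c k237 s15_51_237 (.c k238 s15_51_238 (.c k239 s15_51_239 (.c k240 s15_51_240 (.c k241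
  s15_51_241 (.c k242 s15_51_242 (.c k243 s15_51_243 (.c k244 s15_51_244 (.c k245 s15_51_245 (.c
  k246 s15_51_246 (.c k247 s15_51_247 (.c k248 s15_51_248 (.c k249 s15_51_249 (.c k250 s15_51_250
  (.c k251 s15_51_251 (.c k252 s15_51_252 (.c k253 s15_51_253 (.c k254 s15_51_254 (.c k255
  s15_51_255 .n))))))))))))))))))))))))))))))))))))))))))))))))))))))))))))))))))))))))))))))))
  ))))))))))))))))))))))))))))))))))))))))))))))))))))))))))))))))))))))))))))))))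
  )))))))))))))))))))))))))))))))))))))))))))))))))))))))))))))))))))))))))))))))) ))))))))))))

def s15_63_1 : T TT 256 :=
  (.l (.s k65 k130 8 (.s k105 k125 5 (.s k60 k150 14 (.s k40 k20 5 (.d k170 k235 k255 8 14))))))

def s15_63_2 : T TT 256 :=
  (.l (.s k65 k130 8 (.s k105 k125 5 (.s k60 k150 14 (.s k40 k20 5 (.d k170 k235 k255 8 14))))))

def s15_63_3 : T TT 256 :=
  (.l (.s k65 k130 8 (.s k105 k125 5 (.s k60 k150 14 (.s k40 k20 5 (.d k170 k235 k255 8 14))))))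

def s15_63_4 : T TT 256 :=
  (.l (.s k65 k130 8 (.s k105 k125 5 (.s k60 k150 14 (.s k40 k20 5 (.d k170 k235 k255 8 14))))))

def s15_63_5 : T TT 256 :=
  (.l (.s k65 k130 8 (.s k105 k125 5 (.s k60 k150 14 (.s k40 k20 5 (.d k170 k235 k255 8 14))))))

def s15_63_6 : T TT 256 :=
  (.l (.s k65 k130 8 (.s k105 k125 5 (.s k60 k150 14 (.s k40 k20 5 (.d k170 k235 k255 8 14))))))

def s15_63_7 : T TT 256 :=
  (.l (.s k65 k130 8 (.s k105 k125 5 (.s k60 k150 14 (.s k40 k20 5 (.d k170 k235 k255 8 14))))))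

def s15_63_8 : T TT 256 :=
  (.l (.s k65 k130 8 (.s k105 k125 5 (.s k60 k150 14 (.s k40 k20 5 (.d k170 k235 k255 8 14))))))

def s15_63_9 : T TT 256 :=
  (.l (.s k65 k130 8 (.s k105 k125 5 (.s k60 k150 14 (.s k40 k20 5 (.d k170 k235 k255 8 14))))))

def s15_63_10 : T TT 256 :=
  (.l (.s k65 k130 8 (.s k105 k125 5 (.s k60 k150 14 (.s k40 k20 5 (.d k170 k235 k255 8 14))))))

def s15_63_11 : T TT 256 :=
  (.l (.s k65 k130 8 (.s k105 k125 5 (.s k60 k150 14 (.s k40 k20 5 (.d k170 k235 k255 8 14))))))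

def s15_63_12 : T TT 256 :=
  (.l (.s k65 k130 8 (.s k105 k125 5 (.s k60 k150 14 (.s k40 k20 5 (.d k170 k235 k255 8 14))))))

def s15_63_13 : T TT 256 :=
  (.l (.s k65 k130 8 (.s k105 k125 5 (.s k60 k150 14 (.s k40 k20 5 (.d k170 k235 k255 8 14))))))

def s15_63_14 : T TT 256 :=
  (.l (.s k65 k130 8 (.s k105 k125 5 (.s k60 k150 14 (.s k40 k20 5 (.d k170 k235 k255 8 14))))))

def s15_63_16 : T TT 256 :=
  (.l (.s k65 k130 8 (.s k105 k125 5 (.s k60 k150 14 (.s k40 k20 5 (.d k170 k235 k255 8 14))))))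

def s15_63_17 : T TT 256 :=
  (.l (.s k65 k130 8 (.s k105 k125 5 (.s k60 k150 14 (.s k40 k20 5 (.d k170 k235 k255 8 14))))))

def s15_63_18 : T TT 256 :=
  (.l (.s k65 k130 8 (.s k105 k125 5 (.s k60 k150 14 (.s k40 k20 5 (.d k170 k235 k255 8 14))))))

def s15_63_19 : T TT 256 :=
  (.l (.s k65 k130 8 (.s k105 k125 5 (.s k60 k150 14 (.s k40 k20 5 (.d k170 k235 k255 8 14))))))

def s15_63_20 : T TT 256 :=
  (.f k255 k170 14 (.f k235 k215 5 (.f k130 k65 8 (.q k162 [(.s k146 k178 3 (.s k48 k97 12 (.s k16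
  k32 3 (.d k81 k211 k243 8 12)))), (.s k81 k243 12 (.s k93 k89 1 (.s k12 k174 12 (.s k134 k73 10
  (.s k138 k142 1 (.s k69 k207 10 (.d k4 k8 k199 1 8)))))))] (.c k31 (.q k47 [(.s k146 k178 3 (.s
  k48 k97 12 (.s k16 k32 3 (.d k81 k211 k243 8 12)))), (.s k81 k243 12 (.s k93 k89 1 (.s k12 k174 12
  (.s k134 k73 10 (.s k138 k142 1 (.s k69 k207 10 (.d k4 k8 k199 1 8)))))))] (.c k81 (.l (.s k146
  k178 3 (.s k97 k48 12 (.s k227 k32 8 (.s k243 k211 3 (.s k251 k247 1 (.s k219 k203 3 (.d k231 k239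
  k207 1 5)))))))) (.c k243 (.l (.s k146 k178 3 (.s k48 k97 12 (.s k16 k32 3 (.s k117 k186 10 (.s
  k101 k69 3 (.d k154 k223 k207 10 14))))))) .n))) (.c k47 (.q k31 [(.s k146 k178 3 (.s k48 k97 12
  (.s k16 k32 3 (.d k81 k211 k243 8 12)))), (.s k81 k243 12 (.s k93 k89 1 (.s k12 k174 12 (.s k134
  k73 10 (.s k138 k142 1 (.s k69 k207 10 (.d k4 k8 k199 1 8)))))))] (.c k81 (.l (.s k146 k178 3 (.s
  k97 k48 12 (.s k227 k32 8 (.s k243 k211 3 (.s k251 k247 1 (.s k219 k203 3 (.d k231 k239 k207 1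
  5)))))))) (.c k243 (.l (.s k146 k178 3 (.s k48 k97 12 (.s k16 k32 3 (.s k117 k186 10 (.s k101 k69
  3 (.d k154 k223 k207 10 14))))))) .n))) (.c k81 (.l (.s k146 k178 3 (.s k97 k48 12 (.s k227 k32 8
  (.s k243 k211 3 (.s k251 k247 1 (.s k219 k203 3 (.d k231 k239 k207 1 5)))))))) (.c k243 (.l (.s
  k146 k178 3 (.s k48 k97 12 (.s k16 k32 3 (.s k117 k186 10 (.s k101 k69 3 (.d k154 k223 k207 10
  14))))))) .n))))))))

def s15_63_21 : T TT 256 :=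
  (.l (.s k65 k130 8 (.s k105 k125 5 (.s k60 k150 14 (.s k40 k20 5 (.d k170 k235 k255 8 14))))))

def s15_63_22 : T TT 256 :=
  (.l (.s k65 k130 8 (.s k105 k125 5 (.s k60 k150 14 (.s k40 k20 5 (.d k170 k235 k255 8 14))))))

def s15_63_23 : T TT 256 :=
  (.l (.s k65 k130 8 (.s k105 k125 5 (.s k60 k150 14 (.s k40 k20 5 (.d k170 k235 k255 8 14))))))

def s15_63_24 : T TT 256 :=
  (.l (.s k65 k130 8 (.s k105 k125 5 (.s k60 k150 14 (.s k40 k20 5 (.d k170 k235 k255 8 14))))))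

def s15_63_25 : T TT 256 :=
  (.l (.s k65 k130 8 (.s k105 k125 5 (.s k60 k150 14 (.s k40 k20 5 (.d k170 k235 k255 8 14))))))

def s15_63_26 : T TT 256 :=
  (.l (.s k65 k130 8 (.s k105 k125 5 (.s k60 k150 14 (.s k40 k20 5 (.d k170 k235 k255 8 14))))))

def s15_63_27 : T TT 256 :=
  (.l (.s k65 k130 8 (.s k105 k125 5 (.s k60 k150 14 (.s k40 k20 5 (.d k170 k235 k255 8 14))))))

def s15_63_28 : T TT 256 :=
  (.l (.s k65 k130 8 (.s k105 k125 5 (.s k60 k150 14 (.s k40 k20 5 (.d k170 k235 k255 8 14))))))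

def s15_63_29 : T TT 256 :=
  (.l (.s k65 k130 8 (.s k105 k125 5 (.s k60 k150 14 (.s k40 k20 5 (.d k170 k235 k255 8 14))))))

def s15_63_30 : T TT 256 :=
  (.l (.s k65 k130 8 (.s k105 k125 5 (.s k60 k150 14 (.s k40 k20 5 (.d k170 k235 k255 8 14))))))

def s15_63_31 : T TT 256 :=
  (.q k47 [(.s k65 k130 8 (.s k105 k125 5 (.s k60 k150 14 (.s k40 k20 5 (.d k170 k235 k255 8
  14)))))] (.c k20 (.q k1 [(.s k3 k2 0 (.s k65 k130 8 (.s k67 k131 7 (.s k66 k64 0 (.d k129 k193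
  k192 7 8))))), (.s k3 k2 0 (.s k169 k253 13 (.s k86 k252 14 (.s k87 k84 0 (.d k255 k171 k170 13
  14))))), (.s k65 k130 8 (.s k105 k125 5 (.s k169 k253 13 (.s k41 k233 7 (.s k61 k21 5 (.d k193
  k129 k149 7 13))))))] .n) (.c k40 (.l (.s k65 k130 8 (.s k105 k125 5 (.s k150 k60 14 (.s k215 k20
  8 (.d k255 k235 k170 5 14)))))) (.c k60 (.f k255 k170 14 (.q k12 [(.s k4 k8 1 (.s k93 k174 12 (.s
  k89 k81 1 (.d k166 k247 k243 12 14)))), (.s k8 k4 1 (.s k65 k130 8 (.s k73 k134 10 (.s k69 k77 1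
  (.d k138 k203 k207 8 10))))), (.s k65 k130 8 (.s k73 k134 10 (.s k93 k174 12 (.s k89 k81 1 (.d
  k105 k121 k125 3 5)))))] (.c k30 (.q k45 [(.s k4 k8 1 (.s k93 k174 12 (.s k89 k81 1 (.d k166 k247
  k243 12 14)))), (.s k8 k4 1 (.s k65 k130 8 (.s k73 k134 10 (.s k69 k77 1 (.d k138 k203 k207 8
  10))))), (.s k65 k130 8 (.s k73 k134 10 (.s k93 k174 12 (.s k89 k81 1 (.d k105 k121 k125 3 5)))))]
  (.c k28 (.q k29 [(.s k4 k8 1 (.s k93 k174 12 (.s k89 k81 1 (.d k166 k247 k243 12 14)))), (.s k8 k4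
  1 (.s k65 k130 8 (.s k73 k134 10 (.s k69 k77 1 (.d k138 k203 k207 8 10))))), (.s k65 k130 8 (.s
  k73 k134 10 (.s k93 k174 12 (.s k89 k81 1 (.d k105 k121 k125 3 5)))))] (.c k61 (.q k62 [(.s k4 k8
  1 (.s k93 k174 12 (.s k89 k81 1 (.d k166 k247 k243 12 14)))), (.s k8 k4 1 (.s k65 k130 8 (.s k73
  k134 10 (.s k69 k77 1 (.d k138 k203 k207 8 10))))), (.s k65 k130 8 (.s k73 k134 10 (.s k93 k174 12
  (.s k89 k81 1 (.d k105 k121 k125 3 5)))))] .n) (.c k62 (.l (.s k61 k13 3 (.s k4 k8 1 (.s k93 k174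
  12 (.s k89 k81 1 (.d k166 k247 k243 12 14)))))) .n))) (.c k29 (.q k28 [(.s k4 k8 1 (.s k93 k174 12
  (.s k89 k81 1 (.d k166 k247 k243 12 14)))), (.s k8 k4 1 (.s k65 k130 8 (.s k73 k134 10 (.s k69 k77
  1 (.d k138 k203 k207 8 10))))), (.s k93 k174 12 (.s k89 k81 1 (.s k150 k211 10 (.d k215 k235 k20 5
  8))))] (.c k61 (.q k62 [(.s k4 k8 1 (.s k93 k174 12 (.s k89 k81 1 (.d k166 k247 k243 12 14)))),
  (.s k8 k4 1 (.s k65 k130 8 (.s k73 k134 10 (.s k69 k77 1 (.d k138 k203 k207 8 10))))), (.s k93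
  k174 12 (.s k89 k81 1 (.s k150 k211 10 (.d k215 k235 k20 5 8))))] .n) (.c k62 (.q k61 [(.s k4 k8 1
  (.s k93 k174 12 (.s k89 k81 1 (.d k166 k247 k243 12 14)))), (.s k8 k4 1 (.s k65 k130 8 (.s k73
  k134 10 (.s k69 k77 1 (.d k138 k203 k207 8 10))))), (.s k93 k174 12 (.s k89 k81 1 (.s k150 k211 10
  (.d k215 k235 k20 5 8))))] (.c k14 (.l (.s k46 k44 0 (.s k4 k8 1 (.s k93 k174 12 (.s k89 k81 1 (.d
  k166 k247 k243 12 14)))))) (.c k46 (.q k14 [(.s k4 k8 1 (.s k93 k174 12 (.s k89 k81 1 (.d k166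
  k247 k243 12 14)))), (.s k8 k4 1 (.s k65 k130 8 (.s k73 k134 10 (.s k69 k77 1 (.d k138 k203 k207 8
  10))))), (.s k93 k174 12 (.s k89 k81 1 (.s k150 k211 10 (.d k215 k235 k20 5 8))))] .n) .n))) .n)))
  (.c k61 (.q k62 [(.s k4 k8 1 (.s k93 k174 12 (.s k89 k81 1 (.d k166 k247 k243 12 14)))), (.s k8 k4
  1 (.s k65 k130 8 (.s k73 k134 10 (.s k69 k77 1 (.d k138 k203 k207 8 10))))), (.s k65 k130 8 (.s
  k73 k134 10 (.s k93 k174 12 (.s k89 k81 1 (.d k105 k121 k125 3 5)))))] (.c k28 (.q k29 [(.s k4 k8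
  1 (.s k93 k174 12 (.s k89 k81 1 (.d k166 k247 k243 12 14)))), (.s k8 k4 1 (.s k65 k130 8 (.s k73
  k134 10 (.s k69 k77 1 (.d k138 k203 k207 8 10))))), (.s k65 k130 8 (.s k73 k134 10 (.s k93 k174 12
  (.s k89 k81 1 (.d k105 k121 k125 3 5)))))] .n) (.c k29 (.q k28 [(.s k4 k8 1 (.s k93 k174 12 (.s
  k89 k81 1 (.d k166 k247 k243 12 14)))), (.s k8 k4 1 (.s k65 k130 8 (.s k73 k134 10 (.s k69 k77 1
  (.d k138 k203 k207 8 10))))), (.s k93 k174 12 (.s k89 k81 1 (.s k150 k211 10 (.d k215 k235 k20 5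
  8))))] .n) .n))) (.c k62 (.q k61 [(.s k4 k8 1 (.s k93 k174 12 (.s k89 k81 1 (.d k166 k247 k243 12
  14)))), (.s k8 k4 1 (.s k65 k130 8 (.s k73 k134 10 (.s k69 k77 1 (.d k138 k203 k207 8 10))))), (.s
  k65 k130 8 (.s k73 k134 10 (.s k93 k174 12 (.s k89 k81 1 (.d k105 k121 k125 3 5)))))] (.c k14 (.l
  (.s k46 k44 0 (.s k4 k8 1 (.s k93 k174 12 (.s k89 k81 1 (.d k166 k247 k243 12 14)))))) (.c k28 (.l
  (.s k29 k13 3 (.s k4 k8 1 (.s k93 k174 12 (.s k89 k81 1 (.d k166 k247 k243 12 14)))))) (.c k29 (.q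
  k28 [(.s k4 k8 1 (.s k93 k174 12 (.s k89 k81 1 (.d k166 k247 k243 12 14)))), (.s k8 k4 1 (.s k65
  k130 8 (.s k73 k134 10 (.s k69 k77 1 (.d k138 k203 k207 8 10))))), (.s k93 k174 12 (.s k89 k81 1
  (.s k150 k211 10 (.d k215 k235 k20 5 8))))] (.c k14 (.l (.s k46 k44 0 (.s k4 k8 1 (.s k93 k174 12
  (.s k89 k81 1 (.d k166 k247 k243 12 14)))))) (.c k46 (.q k14 [(.s k4 k8 1 (.s k93 k174 12 (.s k89
  k81 1 (.d k166 k247 k243 12 14)))), (.s k8 k4 1 (.s k65 k130 8 (.s k73 k134 10 (.s k69 k77 1 (.d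
  k138 k203 k207 8 10))))), (.s k93 k174 12 (.s k89 k81 1 (.s k150 k211 10 (.d k215 k235 k20 5
  8))))] .n) .n))) (.c k46 (.q k14 [(.s k4 k8 1 (.s k93 k174 12 (.s k89 k81 1 (.d k166 k247 k243 12
  14)))), (.s k8 k4 1 (.s k65 k130 8 (.s k73 k134 10 (.s k69 k77 1 (.d k138 k203 k207 8 10))))), (.s
  k65 k130 8 (.s k73 k134 10 (.s k93 k174 12 (.s k89 k81 1 (.d k105 k121 k125 3 5)))))] (.c k28 (.l
  (.s k29 k13 3 (.s k4 k8 1 (.s k93 k174 12 (.s k89 k81 1 (.d k166 k247 k243 12 14)))))) (.c k29 (.q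
  k28 [(.s k4 k8 1 (.s k93 k174 12 (.s k89 k81 1 (.d k166 k247 k243 12 14)))), (.s k8 k4 1 (.s k65
  k130 8 (.s k73 k134 10 (.s k69 k77 1 (.d k138 k203 k207 8 10))))), (.s k93 k174 12 (.s k89 k81 1
  (.s k150 k211 10 (.d k215 k235 k20 5 8))))] .n) .n))) .n))))) .n))))) (.c k45 (.q k30 [(.s k4 k8 1
  (.s k93 k174 12 (.s k89 k81 1 (.d k166 k247 k243 12 14)))), (.s k8 k4 1 (.s k65 k130 8 (.s k73
  k134 10 (.s k69 k77 1 (.d k138 k203 k207 8 10))))), (.s k65 k130 8 (.s k73 k134 10 (.s k93 k174 12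
  (.s k89 k81 1 (.d k105 k121 k125 3 5)))))] (.c k61 (.q k62 [(.s k4 k8 1 (.s k93 k174 12 (.s k89
  k81 1 (.d k166 k247 k243 12 14)))), (.s k14 k46 3 (.s k134 k73 10 (.s k194 k74 9 (.s k150 k106 13
  (.d k215 k235 k20 5 8)))))] (.c k13 (.q k29 [(.s k4 k8 1 (.s k93 k174 12 (.s k89 k81 1 (.d k166
  k247 k243 12 14)))), (.s k14 k46 3 (.s k134 k73 10 (.s k194 k74 9 (.s k150 k106 13 (.d k215 k235
  k20 5 8)))))] (.c k166 (.l (.s k4 k8 1 (.s k130 k65 8 (.s k134 k73 10 (.s k69 k199 8 (.d k138 k142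
  k207 1 10)))))) .n)) (.c k29 (.q k13 [(.s k4 k8 1 (.s k93 k174 12 (.s k89 k81 1 (.d k166 k247 k243
  12 14)))), (.s k14 k46 3 (.s k134 k73 10 (.s k194 k74 9 (.s k150 k106 13 (.d k215 k235 k20 5
  8)))))] (.c k166 (.l (.s k4 k8 1 (.s k130 k65 8 (.s k134 k73 10 (.s k69 k199 8 (.d k138 k142 k207
  1 10)))))) .n)) (.c k166 (.l (.s k4 k8 1 (.s k130 k65 8 (.s k134 k73 10 (.s k69 k199 8 (.d k138
  k142 k207 1 10)))))) .n)))) (.c k62 (.q k61 [(.s k4 k8 1 (.s k93 k174 12 (.s k89 k81 1 (.d k166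
  k247 k243 12 14)))), (.s k8 k4 1 (.s k65 k130 8 (.s k73 k134 10 (.s k69 k77 1 (.d k138 k203 k207 8
  10))))), (.s k65 k130 8 (.s k73 k134 10 (.s k93 k174 12 (.s k89 k81 1 (.d k105 k121 k125 3 5)))))]
  .n) .n))) (.c k61 (.q k62 [(.s k4 k8 1 (.s k93 k174 12 (.s k89 k81 1 (.d k166 k247 k243 12 14)))),
  (.s k8 k4 1 (.s k65 k130 8 (.s k73 k134 10 (.s k69 k77 1 (.d k138 k203 k207 8 10))))), (.s k65
  k130 8 (.s k73 k134 10 (.s k93 k174 12 (.s k89 k81 1 (.d k105 k121 k125 3 5)))))] (.c k30 (.q k45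
  [(.s k4 k8 1 (.s k93 k174 12 (.s k89 k81 1 (.d k166 k247 k243 12 14)))), (.s k8 k4 1 (.s k65 k130
  8 (.s k73 k134 10 (.s k69 k77 1 (.d k138 k203 k207 8 10))))), (.s k65 k130 8 (.s k73 k134 10 (.s
  k93 k174 12 (.s k89 k81 1 (.d k105 k121 k125 3 5)))))] (.c k28 (.q k29 [(.s k4 k8 1 (.s k93 k174
  12 (.s k89 k81 1 (.d k166 k247 k243 12 14)))), (.s k8 k4 1 (.s k65 k130 8 (.s k73 k134 10 (.s k69
  k77 1 (.d k138 k203 k207 8 10))))), (.s k65 k130 8 (.s k73 k134 10 (.s k93 k174 12 (.s k89 k81 1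
  (.d k105 k121 k125 3 5)))))] .n) (.c k29 (.q k28 [(.s k4 k8 1 (.s k93 k174 12 (.s k89 k81 1 (.d
  k166 k247 k243 12 14)))), (.s k8 k4 1 (.s k65 k130 8 (.s k73 k134 10 (.s k69 k77 1 (.d k138 k203
  k207 8 10))))), (.s k93 k174 12 (.s k89 k81 1 (.s k150 k211 10 (.d k215 k235 k20 5 8))))] .n)
  .n))) (.c k45 (.q k30 [(.s k4 k8 1 (.s k93 k174 12 (.s k89 k81 1 (.d k166 k247 k243 12 14)))), (.s
  k14 k46 3 (.s k134 k73 10 (.s k194 k74 9 (.s k150 k106 13 (.d k215 k235 k20 5 8)))))] (.c k13 (.q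
  k29 [(.s k4 k8 1 (.s k93 k174 12 (.s k89 k81 1 (.d k166 k247 k243 12 14)))), (.s k14 k46 3 (.s
  k134 k73 10 (.s k194 k74 9 (.s k150 k106 13 (.d k215 k235 k20 5 8)))))] (.c k166 (.l (.s k4 k8 1
  (.s k130 k65 8 (.s k134 k73 10 (.s k69 k199 8 (.d k138 k142 k207 1 10)))))) .n)) (.c k29 (.q k13
  [(.s k4 k8 1 (.s k93 k174 12 (.s k89 k81 1 (.d k166 k247 k243 12 14)))), (.s k14 k46 3 (.s k134
  k73 10 (.s k194 k74 9 (.s k150 k106 13 (.d k215 k235 k20 5 8)))))] (.c k166 (.l (.s k4 k8 1 (.s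
  k130 k65 8 (.s k134 k73 10 (.s k69 k199 8 (.d k138 k142 k207 1 10)))))) .n)) (.c k166 (.l (.s k4
  k8 1 (.s k130 k65 8 (.s k134 k73 10 (.s k69 k199 8 (.d k138 k142 k207 1 10)))))) .n)))) .n))) (.c
  k62 (.q k61 [(.s k4 k8 1 (.s k93 k174 12 (.s k89 k81 1 (.d k166 k247 k243 12 14)))), (.s k8 k4 1
  (.s k65 k130 8 (.s k73 k134 10 (.s k69 k77 1 (.d k138 k203 k207 8 10))))), (.s k65 k130 8 (.s k73
  k134 10 (.s k93 k174 12 (.s k89 k81 1 (.d k105 k121 k125 3 5)))))] (.c k30 (.q k45 [(.s k4 k8 1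
  (.s k93 k174 12 (.s k89 k81 1 (.d k166 k247 k243 12 14)))), (.s k8 k4 1 (.s k65 k130 8 (.s k73
  k134 10 (.s k69 k77 1 (.d k138 k203 k207 8 10))))), (.s k65 k130 8 (.s k73 k134 10 (.s k93 k174 12
  (.s k89 k81 1 (.d k105 k121 k125 3 5)))))] (.c k14 (.l (.s k46 k44 0 (.s k4 k8 1 (.s k93 k174 12
  (.s k89 k81 1 (.d k166 k247 k243 12 14)))))) (.c k28 (.l (.s k29 k13 3 (.s k4 k8 1 (.s k93 k174 12
  (.s k89 k81 1 (.d k166 k247 k243 12 14)))))) (.c k29 (.q k28 [(.s k4 k8 1 (.s k93 k174 12 (.s k89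
  k81 1 (.d k166 k247 k243 12 14)))), (.s k8 k4 1 (.s k65 k130 8 (.s k73 k134 10 (.s k69 k77 1 (.d
  k138 k203 k207 8 10))))), (.s k93 k174 12 (.s k89 k81 1 (.s k150 k211 10 (.d k215 k235 k20 5
  8))))] (.c k14 (.l (.s k46 k44 0 (.s k4 k8 1 (.s k93 k174 12 (.s k89 k81 1 (.d k166 k247 k243 12
  14)))))) (.c k46 (.q k14 [(.s k4 k8 1 (.s k93 k174 12 (.s k89 k81 1 (.d k166 k247 k243 12 14)))),
  (.s k8 k4 1 (.s k65 k130 8 (.s k73 k134 10 (.s k69 k77 1 (.d k138 k203 k207 8 10))))), (.s k93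
  k174 12 (.s k89 k81 1 (.s k150 k211 10 (.d k215 k235 k20 5 8))))] .n) .n))) (.c k46 (.q k14 [(.s
  k4 k8 1 (.s k93 k174 12 (.s k89 k81 1 (.d k166 k247 k243 12 14)))), (.s k8 k4 1 (.s k65 k130 8 (.s
  k73 k134 10 (.s k69 k77 1 (.d k138 k203 k207 8 10))))), (.s k65 k130 8 (.s k73 k134 10 (.s k93
  k174 12 (.s k89 k81 1 (.d k105 k121 k125 3 5)))))] (.c k28 (.l (.s k29 k13 3 (.s k4 k8 1 (.s k93
  k174 12 (.s k89 k81 1 (.d k166 k247 k243 12 14)))))) (.c k29 (.q k28 [(.s k4 k8 1 (.s k93 k174 12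
  (.s k89 k81 1 (.d k166 k247 k243 12 14)))), (.s k8 k4 1 (.s k65 k130 8 (.s k73 k134 10 (.s k69 k77
  1 (.d k138 k203 k207 8 10))))), (.s k93 k174 12 (.s k89 k81 1 (.s k150 k211 10 (.d k215 k235 k20 5
  8))))] .n) .n))) .n))))) (.c k45 (.q k30 [(.s k4 k8 1 (.s k93 k174 12 (.s k89 k81 1 (.d k166 k247
  k243 12 14)))), (.s k8 k4 1 (.s k65 k130 8 (.s k73 k134 10 (.s k69 k77 1 (.d k138 k203 k207 8
  10))))), (.s k65 k130 8 (.s k73 k134 10 (.s k93 k174 12 (.s k89 k81 1 (.d k105 k121 k125 3 5)))))]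
  .n) .n))) .n)))))) (.c k65 (.q k3 [(.s k1 k2 0 (.s k131 k67 7 (.s k169 k253 13 (.s k150 k188 6 (.s
  k20 k215 8 (.d k60 k40 k105 5 14)))))), (.s k1 k2 0 (.s k169 k253 13 (.s k86 k252 14 (.s k87 k84 0
  (.d k255 k171 k170 13 14))))), (.s k67 k131 7 (.s k255 k170 14 (.s k87 k171 13 (.s k86 k84 0 (.s
  k105 k124 6 (.s k150 k60 14 (.d k215 k235 k20 5 8)))))))] (.c k169 (.l (.s k2 k1 0 (.s k67 k131 7
  (.s k170 k255 14 (.s k86 k254 13 (.s k105 k124 6 (.s k40 k235 8 (.d k60 k150 k20 14 5)))))))) .n))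
  (.c k105 (.q k1 [(.s k3 k2 0 (.s k65 k130 8 (.s k67 k131 7 (.s k66 k64 0 (.d k129 k193 k192 7
  8))))), (.s k3 k2 0 (.s k169 k253 13 (.s k86 k252 14 (.s k87 k84 0 (.d k255 k171 k170 13 14))))),
  (.s k65 k130 8 (.s k193 k129 7 (.s k253 k169 13 (.s k233 k213 5 (.s k252 k214 6 (.d k255 k254 k170
  0 14))))))] .n) (.c k125 (.l (.s k130 k65 8 (.s k170 k255 14 (.s k150 k190 5 (.s k60 k105 14 (.d
  k20 k40 k215 5 8)))))) (.c k130 (.q k3 [(.s k1 k2 0 (.s k131 k67 7 (.s k169 k253 13 (.s k150 k188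
  6 (.s k20 k215 8 (.d k60 k40 k105 5 14)))))), (.s k2 k1 0 (.s k170 k255 14 (.s k86 k254 13 (.s k84
  k87 0 (.d k252 k168 k169 13 14))))), (.s k67 k131 7 (.s k255 k170 14 (.s k87 k171 13 (.s k86 k84 0
  (.s k105 k124 6 (.s k125 k65 5 (.d k60 k190 k150 8 14)))))))] (.c k169 (.l (.s k2 k1 0 (.s k67
  k131 7 (.s k170 k255 14 (.s k86 k254 13 (.s k105 k124 6 (.s k40 k235 8 (.d k60 k150 k20 14
  5)))))))) .n)) (.c k150 (.q k1 [(.s k3 k2 0 (.s k169 k253 13 (.s k86 k252 14 (.s k87 k84 0 (.d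
  k255 k171 k170 13 14))))), (.s k3 k2 0 (.s k65 k130 8 (.s k129 k193 7 (.s k66 k192 8 (.d k67 k64
  k131 0 7))))), (.s k65 k130 8 (.s k105 k125 5 (.s k169 k253 13 (.s k41 k233 7 (.s k61 k21 5 (.d
  k193 k129 k149 7 13))))))] (.c k170 (.l (.s k3 k2 0 (.s k67 k131 7 (.s k169 k253 13 (.s k86 k252
  14 (.s k105 k124 6 (.d k65 k125 k130 5 8))))))) .n)) (.c k170 (.q k1 [(.s k3 k2 0 (.s k131 k67 7
  (.s k169 k253 13 (.s k150 k188 6 (.s k20 k215 8 (.d k60 k40 k105 5 14)))))), (.s k65 k130 8 (.s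
  k105 k125 5 (.s k169 k253 13 (.s k41 k233 7 (.s k61 k21 5 (.d k193 k129 k149 7 13)))))), (.s k3 k2
  0 (.s k65 k130 8 (.s k67 k131 7 (.s k66 k64 0 (.d k129 k193 k192 7 8)))))] (.c k150 (.l (.s k3 k2
  0 (.s k67 k131 7 (.s k169 k253 13 (.s k86 k252 14 (.s k105 k124 6 (.d k65 k125 k130 5 8)))))))
  .n)) (.c k190 (.l (.s k65 k130 8 (.s k105 k125 5 (.s k60 k150 14 (.s k170 k255 14 (.d k40 k20 k235
  5 8)))))) (.c k235 (.l (.s k130 k65 8 (.s k170 k255 14 (.s k150 k190 5 (.s k20 k215 8 (.d k60 k40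
  k105 5 14)))))) (.c k255 (.f k65 k130 8 (.q k207 [(.s k69 k138 10 (.s k73 k77 1 (.s k199 k203 1
  (.d k134 k4 k12 8 10)))), (.s k105 k125 5 (.s k203 k199 1 (.s k154 k56 12 (.s k16 k223 10 (.d k48
  k32 k101 3 14))))), (.s k69 k138 10 (.s k101 k117 3 (.s k48 k154 14 (.s k97 k146 12 (.d k105 k109
  k125 1 5)))))] (.c k95 (.q k175 [(.s k69 k138 10 (.s k73 k77 1 (.s k199 k203 1 (.d k134 k4 k12 8
  10)))), (.s k105 k125 5 (.s k203 k199 1 (.s k154 k56 12 (.s k48 k101 14 (.d k16 k223 k32 10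
  3))))), (.s k69 k138 10 (.s k101 k117 3 (.s k48 k154 14 (.s k32 k16 3 (.d k239 k170 k111 10
  7)))))] (.c k127 (.q k191 [(.s k69 k138 10 (.s k73 k77 1 (.s k199 k203 1 (.d k134 k4 k12 8 10)))),
  (.s k105 k125 5 (.s k203 k199 1 (.s k154 k56 12 (.s k48 k101 14 (.d k16 k223 k32 10 3))))), (.s
  k69 k138 10 (.s k101 k117 3 (.s k48 k154 14 (.s k32 k16 3 (.d k239 k111 k170 7 10)))))] (.c k79
  (.l (.s k111 k239 7 (.s k69 k138 10 (.s k73 k77 1 (.s k134 k12 10 (.d k199 k203 k4 1 8)))))) (.c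
  k111 (.q k79 [(.s k69 k138 10 (.s k73 k77 1 (.s k199 k203 1 (.d k134 k4 k12 8 10)))), (.s k105
  k125 5 (.s k203 k199 1 (.s k154 k56 12 (.s k48 k101 14 (.d k16 k223 k32 10 3))))), (.s k69 k138 10
  (.s k64 k74 2 (.s k67 k66 0 (.s k3 k131 7 (.d k71 k75 k139 1 9)))))] (.c k159 (.q k223 [(.s k69
  k138 10 (.s k154 k16 10 (.d k101 k117 k48 3 14))), (.s k69 k138 10 (.s k73 k77 1 (.s k134 k12 10
  (.d k199 k203 k4 1 8)))), (.s k105 k125 5 (.s k154 k16 10 (.d k203 k199 k56 1 12)))] .n) (.c k223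
  (.l (.s k159 k143 3 (.s k69 k138 10 (.s k73 k77 1 (.s k134 k12 10 (.d k199 k203 k4 1 8)))))) .n)))
  (.c k159 (.q k223 [(.s k69 k138 10 (.s k154 k16 10 (.d k101 k117 k48 3 14))), (.s k69 k138 10 (.s
  k73 k77 1 (.s k134 k12 10 (.d k199 k203 k4 1 8)))), (.s k105 k125 5 (.s k154 k16 10 (.d k203 k199
  k56 1 12)))] (.c k79 (.l (.s k111 k239 7 (.s k69 k138 10 (.s k101 k117 3 (.d k154 k48 k16 14
  10))))) (.c k111 (.q k79 [(.s k69 k138 10 (.s k154 k16 10 (.d k101 k117 k48 3 14))), (.s k69 k138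
  10 (.s k73 k77 1 (.s k134 k12 10 (.d k199 k203 k4 1 8)))), (.s k105 k125 5 (.s k154 k16 10 (.d
  k203 k199 k56 1 12)))] .n) .n))) (.c k223 (.l (.s k159 k143 3 (.s k69 k138 10 (.s k73 k77 1 (.s
  k134 k12 10 (.d k199 k203 k4 1 8)))))) .n))))) (.c k159 (.q k223 [(.s k69 k138 10 (.s k101 k117 3
  (.d k154 k48 k16 14 10))), (.s k105 k125 5 (.s k154 k16 10 (.d k203 k199 k56 1 12))), (.s k69 k138
  10 (.s k73 k77 1 (.s k134 k12 10 (.d k199 k203 k4 1 8))))] (.c k127 (.q k191 [(.s k69 k138 10 (.s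
  k154 k16 10 (.d k101 k117 k48 3 14))), (.s k69 k138 10 (.s k73 k77 1 (.s k134 k12 10 (.d k199 k203
  k4 1 8)))), (.s k105 k125 5 (.s k154 k16 10 (.d k203 k199 k56 1 12)))] (.c k79 (.l (.s k111 k239 7
  (.s k69 k138 10 (.s k101 k117 3 (.d k154 k48 k16 14 10))))) (.c k111 (.q k79 [(.s k69 k138 10 (.s
  k154 k16 10 (.d k101 k117 k48 3 14))), (.s k69 k138 10 (.s k73 k77 1 (.s k134 k12 10 (.d k199 k203
  k4 1 8)))), (.s k105 k125 5 (.s k154 k16 10 (.d k203 k199 k56 1 12)))] .n) .n))) (.c k191 (.q k127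
  [(.s k69 k138 10 (.s k101 k117 3 (.d k154 k48 k16 14 10))), (.s k105 k125 5 (.s k154 k16 10 (.d
  k203 k199 k56 1 12))), (.s k69 k138 10 (.s k73 k77 1 (.s k134 k12 10 (.d k199 k203 k4 1 8))))] .n)
  .n))) (.c k191 (.q k127 [(.s k69 k138 10 (.s k73 k77 1 (.s k199 k203 1 (.d k134 k4 k12 8 10)))),
  (.s k64 k106 6 (.s k66 k67 0 (.s k192 k128 7 (.s k129 k3 8 (.d k193 k194 k1 0 7)))))] (.c k159 (.q
  k223 [(.s k69 k138 10 (.s k101 k117 3 (.d k154 k48 k16 14 10))), (.s k105 k125 5 (.s k154 k16 10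
  (.d k203 k199 k56 1 12))), (.s k69 k138 10 (.s k73 k77 1 (.s k134 k12 10 (.d k199 k203 k4 1 8))))]
  .n) (.c k223 (.q k159 [(.s k69 k138 10 (.s k73 k77 1 (.s k199 k203 1 (.d k134 k4 k12 8 10)))), (.s
  k64 k106 6 (.s k66 k67 0 (.s k192 k128 7 (.s k129 k3 8 (.d k193 k194 k1 0 7)))))] .n) .n))) (.c
  k223 (.q k159 [(.s k69 k138 10 (.s k73 k77 1 (.s k199 k203 1 (.d k134 k4 k12 8 10)))), (.s k105
  k125 5 (.s k60 k150 14 (.s k109 k158 12 (.s k101 k97 1 (.s k154 k48 14 (.d k203 k199 k56 1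
  12)))))), (.s k69 k138 10 (.s k101 k117 3 (.s k48 k154 14 (.s k32 k16 3 (.d k239 k170 k111 10
  7)))))] (.c k127 (.l (.s k191 k143 3 (.s k69 k138 10 (.s k73 k77 1 (.s k134 k12 10 (.d k199 k203
  k4 1 8)))))) (.c k191 (.q k127 [(.s k69 k138 10 (.s k73 k77 1 (.s k199 k203 1 (.d k134 k4 k12 8
  10)))), (.s k64 k106 6 (.s k66 k67 0 (.s k192 k128 7 (.s k129 k3 8 (.d k193 k194 k1 0 7)))))] .n)
  .n))) .n))))) (.c k127 (.q k191 [(.s k69 k138 10 (.s k73 k77 1 (.s k199 k203 1 (.d k134 k4 k12 8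
  10)))), (.s k105 k125 5 (.s k203 k199 1 (.s k154 k56 12 (.s k16 k223 10 (.d k48 k32 k101 3
  14))))), (.s k69 k138 10 (.s k101 k117 3 (.s k48 k154 14 (.s k97 k146 12 (.d k105 k109 k125 1
  5)))))] (.c k95 (.q k175 [(.s k69 k138 10 (.s k73 k77 1 (.s k199 k203 1 (.d k134 k4 k12 8 10)))),
  (.s k105 k125 5 (.s k203 k199 1 (.s k154 k56 12 (.s k48 k101 14 (.d k16 k223 k32 10 3))))), (.s
  k69 k138 10 (.s k101 k117 3 (.s k48 k154 14 (.s k32 k16 3 (.d k239 k111 k170 7 10)))))] (.c k79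
  (.l (.s k111 k239 7 (.s k69 k138 10 (.s k73 k77 1 (.s k134 k12 10 (.d k199 k203 k4 1 8)))))) (.c
  k111 (.q k79 [(.s k69 k138 10 (.s k73 k77 1 (.s k199 k203 1 (.d k134 k4 k12 8 10)))), (.s k105
  k125 5 (.s k203 k199 1 (.s k154 k56 12 (.s k48 k101 14 (.d k16 k223 k32 10 3))))), (.s k69 k138 10
  (.s k64 k74 2 (.s k67 k66 0 (.s k3 k131 7 (.d k71 k75 k139 1 9)))))] (.c k159 (.q k223 [(.s k69
  k138 10 (.s k154 k16 10 (.d k101 k117 k48 3 14))), (.s k69 k138 10 (.s k73 k77 1 (.s k134 k12 10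
  (.d k199 k203 k4 1 8)))), (.s k105 k125 5 (.s k154 k16 10 (.d k203 k199 k56 1 12)))] .n) (.c k223
  (.l (.s k159 k143 3 (.s k69 k138 10 (.s k73 k77 1 (.s k134 k12 10 (.d k199 k203 k4 1 8)))))) .n)))
  (.c k159 (.q k223 [(.s k69 k138 10 (.s k154 k16 10 (.d k101 k117 k48 3 14))), (.s k69 k138 10 (.s
  k73 k77 1 (.s k134 k12 10 (.d k199 k203 k4 1 8)))), (.s k105 k125 5 (.s k154 k16 10 (.d k203 k199
  k56 1 12)))] (.c k79 (.l (.s k111 k239 7 (.s k69 k138 10 (.s k101 k117 3 (.d k154 k48 k16 14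
  10))))) (.c k111 (.q k79 [(.s k69 k138 10 (.s k154 k16 10 (.d k101 k117 k48 3 14))), (.s k69 k138
  10 (.s k73 k77 1 (.s k134 k12 10 (.d k199 k203 k4 1 8)))), (.s k105 k125 5 (.s k154 k16 10 (.d
  k203 k199 k56 1 12)))] .n) .n))) (.c k223 (.l (.s k159 k143 3 (.s k69 k138 10 (.s k73 k77 1 (.s
  k134 k12 10 (.d k199 k203 k4 1 8)))))) .n))))) (.c k175 (.q k95 [(.s k69 k138 10 (.s k73 k77 1 (.s
  k199 k203 1 (.d k134 k4 k12 8 10)))), (.s k105 k125 5 (.s k203 k199 1 (.s k154 k56 12 (.s k16 k223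
  10 (.d k48 k32 k101 3 14))))), (.s k69 k138 10 (.s k101 k117 3 (.s k48 k154 14 (.s k97 k146 12 (.d
  k105 k109 k125 1 5)))))] .n) .n))) (.c k175 (.q k95 [(.s k69 k138 10 (.s k73 k77 1 (.s k199 k203 1
  (.d k134 k4 k12 8 10)))), (.s k105 k125 5 (.s k203 k199 1 (.s k154 k56 12 (.s k16 k223 10 (.d k48
  k32 k101 3 14))))), (.s k69 k138 10 (.s k101 k117 3 (.s k48 k154 14 (.s k97 k146 12 (.d k105 k109
  k125 1 5)))))] (.c k127 (.q k191 [(.s k69 k138 10 (.s k73 k77 1 (.s k199 k203 1 (.d k134 k4 k12 8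
  10)))), (.s k105 k125 5 (.s k203 k199 1 (.s k154 k56 12 (.s k16 k223 10 (.d k48 k32 k101 3
  14))))), (.s k69 k138 10 (.s k101 k117 3 (.s k48 k154 14 (.s k97 k146 12 (.d k105 k109 k125 1
  5)))))] .n) (.c k191 (.q k127 [(.s k69 k138 10 (.s k79 k111 3 (.d k64 k74 k106 2 6))), (.s k64
  k106 6 (.s k66 k67 0 (.s k192 k128 7 (.s k129 k3 8 (.d k193 k194 k1 0 7))))), (.s k69 k138 10 (.s
  k73 k77 1 (.s k134 k12 10 (.d k199 k203 k4 1 8))))] (.c k143 (.q k159 [(.s k64 k106 6 (.s k79 k111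
  3 (.d k69 k74 k138 2 10))), (.s k69 k138 10 (.s k73 k77 1 (.s k134 k12 10 (.d k199 k203 k4 1
  8)))), (.s k64 k106 6 (.s k67 k66 0 (.s k3 k131 7 (.s k79 k111 3 (.d k71 k139 k75 9 1)))))] .n)
  (.c k159 (.q k143 [(.s k64 k106 6 (.s k138 k69 10 (.d k128 k192 k133 7 2))), (.s k69 k138 10 (.s
  k73 k77 1 (.s k134 k12 10 (.d k199 k203 k4 1 8)))), (.s k64 k106 6 (.s k66 k67 0 (.s k192 k128 7
  (.s k129 k3 8 (.d k193 k194 k1 0 7)))))] .n) .n))) .n))) (.c k191 (.q k127 [(.s k69 k138 10 (.s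
  k73 k77 1 (.s k199 k203 1 (.d k134 k4 k12 8 10)))), (.s k64 k106 6 (.s k66 k67 0 (.s k192 k128 7
  (.s k129 k3 8 (.d k193 k194 k1 0 7)))))] (.c k95 (.q k175 [(.s k69 k138 10 (.s k73 k77 1 (.s k199
  k203 1 (.d k134 k4 k12 8 10)))), (.s k64 k106 6 (.s k66 k67 0 (.s k192 k128 7 (.s k129 k3 8 (.d
  k193 k194 k1 0 7)))))] (.c k159 (.q k223 [(.s k69 k138 10 (.s k101 k117 3 (.d k154 k48 k16 14
  10))), (.s k105 k125 5 (.s k154 k16 10 (.d k203 k199 k56 1 12))), (.s k69 k138 10 (.s k73 k77 1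
  (.s k134 k12 10 (.d k199 k203 k4 1 8))))] .n) (.c k223 (.q k159 [(.s k69 k138 10 (.s k73 k77 1 (.s
  k199 k203 1 (.d k134 k4 k12 8 10)))), (.s k64 k106 6 (.s k66 k67 0 (.s k192 k128 7 (.s k129 k3 8
  (.d k193 k194 k1 0 7)))))] .n) .n))) (.c k175 (.q k95 [(.s k69 k138 10 (.s k79 k111 3 (.d k64 k74
  k106 2 6))), (.s k64 k106 6 (.s k66 k67 0 (.s k192 k128 7 (.s k129 k3 8 (.d k193 k194 k1 0 7))))),
  (.s k69 k138 10 (.s k73 k77 1 (.s k134 k12 10 (.d k199 k203 k4 1 8))))] (.c k143 (.q k159 [(.s k64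
  k106 6 (.s k79 k111 3 (.d k69 k74 k138 2 10))), (.s k69 k138 10 (.s k73 k77 1 (.s k134 k12 10 (.d
  k199 k203 k4 1 8)))), (.s k64 k106 6 (.s k67 k66 0 (.s k3 k131 7 (.s k79 k111 3 (.d k71 k139 k75 9
  1)))))] .n) (.c k159 (.q k143 [(.s k64 k106 6 (.s k138 k69 10 (.d k128 k192 k133 7 2))), (.s k69
  k138 10 (.s k73 k77 1 (.s k134 k12 10 (.d k199 k203 k4 1 8)))), (.s k64 k106 6 (.s k66 k67 0 (.s
  k192 k128 7 (.s k129 k3 8 (.d k193 k194 k1 0 7)))))] .n) .n))) .n))) .n)))))) .n)))))))))))))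

def s15_63_32 : T TT 256 :=
  (.l (.s k65 k130 8 (.s k105 k125 5 (.s k60 k150 14 (.s k40 k20 5 (.d k170 k235 k255 8 14))))))

def s15_63_33 : T TT 256 :=
  (.l (.s k65 k130 8 (.s k105 k125 5 (.s k60 k150 14 (.s k40 k20 5 (.d k170 k235 k255 8 14))))))

def s15_63_34 : T TT 256 :=
  (.l (.s k65 k130 8 (.s k105 k125 5 (.s k60 k150 14 (.s k40 k20 5 (.d k170 k235 k255 8 14))))))

def s15_63_35 : T TT 256 :=
  (.l (.s k65 k130 8 (.s k105 k125 5 (.s k60 k150 14 (.s k40 k20 5 (.d k170 k235 k255 8 14))))))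

def s15_63_36 : T TT 256 :=
  (.l (.s k65 k130 8 (.s k105 k125 5 (.s k60 k150 14 (.s k40 k20 5 (.d k170 k235 k255 8 14))))))

def s15_63_37 : T TT 256 :=
  (.l (.s k65 k130 8 (.s k105 k125 5 (.s k60 k150 14 (.s k40 k20 5 (.d k170 k235 k255 8 14))))))

def s15_63_38 : T TT 256 :=
  (.l (.s k65 k130 8 (.s k105 k125 5 (.s k60 k150 14 (.s k40 k20 5 (.d k170 k235 k255 8 14))))))

def s15_63_39 : T TT 256 :=
  (.l (.s k65 k130 8 (.s k105 k125 5 (.s k60 k150 14 (.s k40 k20 5 (.d k170 k235 k255 8 14))))))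

def s15_63_40 : T TT 256 :=
  (.l (.s k65 k130 8 (.s k105 k125 5 (.s k150 k60 14 (.s k215 k20 8 (.d k255 k235 k170 5 14))))))

def s15_63_41 : T TT 256 :=
  (.l (.s k65 k130 8 (.s k105 k125 5 (.s k60 k150 14 (.s k40 k20 5 (.d k170 k235 k255 8 14))))))

def s15_63_42 : T TT 256 :=
  (.l (.s k65 k130 8 (.s k105 k125 5 (.s k60 k150 14 (.s k40 k20 5 (.d k170 k235 k255 8 14))))))

def s15_63_43 : T TT 256 :=
  (.l (.s k65 k130 8 (.s k105 k125 5 (.s k60 k150 14 (.s k40 k20 5 (.d k170 k235 k255 8 14))))))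

def s15_63_44 : T TT 256 :=
  (.l (.s k65 k130 8 (.s k105 k125 5 (.s k60 k150 14 (.s k40 k20 5 (.d k170 k235 k255 8 14))))))

def s15_63_45 : T TT 256 :=
  (.l (.s k65 k130 8 (.s k105 k125 5 (.s k60 k150 14 (.s k40 k20 5 (.d k170 k235 k255 8 14))))))

def s15_63_46 : T TT 256 :=
  (.l (.s k65 k130 8 (.s k105 k125 5 (.s k60 k150 14 (.s k40 k20 5 (.d k170 k235 k255 8 14))))))

def s15_63_47 : T TT 256 :=
  (.q k31 [(.s k65 k130 8 (.s k105 k125 5 (.s k60 k150 14 (.s k40 k20 5 (.d k170 k235 k255 8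
  14)))))] (.c k20 (.q k1 [(.s k3 k2 0 (.s k65 k130 8 (.s k67 k131 7 (.s k66 k64 0 (.d k129 k193
  k192 7 8))))), (.s k3 k2 0 (.s k169 k253 13 (.s k86 k252 14 (.s k87 k84 0 (.d k255 k171 k170 13
  14))))), (.s k65 k130 8 (.s k105 k125 5 (.s k169 k253 13 (.s k41 k233 7 (.s k61 k21 5 (.d k193
  k129 k149 7 13))))))] .n) (.c k40 (.l (.s k65 k130 8 (.s k105 k125 5 (.s k150 k60 14 (.s k215 k20
  8 (.d k255 k235 k170 5 14)))))) (.c k60 (.f k255 k170 14 (.q k12 [(.s k4 k8 1 (.s k93 k174 12 (.s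
  k89 k81 1 (.d k166 k247 k243 12 14)))), (.s k8 k4 1 (.s k65 k130 8 (.s k73 k134 10 (.s k69 k77 1
  (.d k138 k203 k207 8 10))))), (.s k65 k130 8 (.s k73 k134 10 (.s k93 k174 12 (.s k89 k81 1 (.d
  k105 k121 k125 3 5)))))] (.c k30 (.q k45 [(.s k4 k8 1 (.s k93 k174 12 (.s k89 k81 1 (.d k166 k247
  k243 12 14)))), (.s k8 k4 1 (.s k65 k130 8 (.s k73 k134 10 (.s k69 k77 1 (.d k138 k203 k207 8
  10))))), (.s k65 k130 8 (.s k73 k134 10 (.s k93 k174 12 (.s k89 k81 1 (.d k105 k121 k125 3 5)))))]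
  (.c k61 (.q k62 [(.s k4 k8 1 (.s k93 k174 12 (.s k89 k81 1 (.d k166 k247 k243 12 14)))), (.s k8 k4
  1 (.s k65 k130 8 (.s k73 k134 10 (.s k69 k77 1 (.d k138 k203 k207 8 10))))), (.s k65 k130 8 (.s
  k73 k134 10 (.s k93 k174 12 (.s k89 k81 1 (.d k105 k121 k125 3 5)))))] .n) (.c k62 (.q k61 [(.s k4
  k8 1 (.s k93 k174 12 (.s k89 k81 1 (.d k166 k247 k243 12 14)))), (.s k13 k29 3 (.s k65 k130 8 (.s
  k73 k134 10 (.s k105 k125 5 (.d k193 k133 k149 9 13)))))] (.c k14 (.q k46 [(.s k4 k8 1 (.s k93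
  k174 12 (.s k89 k81 1 (.d k166 k247 k243 12 14)))), (.s k13 k29 3 (.s k65 k130 8 (.s k73 k134 10
  (.s k105 k125 5 (.d k193 k133 k149 9 13)))))] .n) (.c k46 (.q k14 [(.s k4 k8 1 (.s k93 k174 12 (.s
  k89 k81 1 (.d k166 k247 k243 12 14)))), (.s k13 k29 3 (.s k65 k130 8 (.s k73 k134 10 (.s k105 k125
  5 (.d k193 k133 k149 9 13)))))] .n) .n))) .n))) (.c k45 (.q k30 [(.s k4 k8 1 (.s k93 k174 12 (.s
  k89 k81 1 (.d k166 k247 k243 12 14)))), (.s k8 k4 1 (.s k65 k130 8 (.s k73 k134 10 (.s k69 k77 1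
  (.d k138 k203 k207 8 10))))), (.s k28 k29 0 (.s k93 k174 12 (.s k89 k81 1 (.s k150 k211 10 (.d
  k215 k235 k20 5 8)))))] (.c k44 (.q k46 [(.s k4 k8 1 (.s k93 k174 12 (.s k89 k81 1 (.d k166 k247
  k243 12 14)))), (.s k8 k4 1 (.s k65 k130 8 (.s k73 k134 10 (.s k69 k77 1 (.d k138 k203 k207 8
  10))))), (.s k28 k29 0 (.s k93 k174 12 (.s k89 k81 1 (.s k150 k211 10 (.d k215 k235 k20 5 8)))))]
  (.c k61 (.l (.s k62 k14 3 (.s k4 k8 1 (.s k93 k174 12 (.s k89 k81 1 (.d k166 k247 k243 12 14))))))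
  (.c k62 (.q k61 [(.s k4 k8 1 (.s k93 k174 12 (.s k89 k81 1 (.d k166 k247 k243 12 14)))), (.s k8 k4
  1 (.s k65 k130 8 (.s k73 k134 10 (.s k69 k77 1 (.d k138 k203 k207 8 10))))), (.s k28 k29 0 (.s k93
  k174 12 (.s k89 k81 1 (.s k150 k211 10 (.d k215 k235 k20 5 8)))))] .n) .n))) (.c k46 (.q k44 [(.s
  k4 k8 1 (.s k65 k130 8 (.s k105 k125 5 (.d k166 k227 k247 10 12)))), (.s k28 k29 0 (.s k93 k174 12
  (.s k89 k81 1 (.s k150 k211 10 (.d k215 k235 k20 5 8))))), (.s k4 k8 1 (.s k130 k65 8 (.s k134 k73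
  10 (.s k69 k199 8 (.d k138 k142 k207 1 10)))))] (.c k61 (.q k62 [(.s k4 k8 1 (.s k93 k174 12 (.s
  k89 k81 1 (.d k166 k247 k243 12 14)))), (.s k65 k130 8 (.s k105 k125 5 (.s k166 k227 10 (.d k4 k8
  k247 1 12)))), (.s k65 k130 8 (.s k73 k134 10 (.s k93 k174 12 (.s k89 k81 1 (.d k105 k121 k125 3
  5)))))] (.c k13 (.l (.s k29 k28 0 (.s k4 k8 1 (.s k65 k130 8 (.s k105 k125 5 (.d k166 k227 k247 10
  12)))))) (.c k29 (.q k13 [(.s k4 k8 1 (.s k93 k174 12 (.s k89 k81 1 (.d k166 k247 k243 12 14)))),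
  (.s k65 k130 8 (.s k105 k125 5 (.s k166 k227 10 (.d k4 k8 k247 1 12)))), (.s k65 k130 8 (.s k73
  k134 10 (.s k93 k174 12 (.s k89 k81 1 (.d k105 k121 k125 3 5)))))] (.c k166 (.l (.s k4 k8 1 (.s
  k130 k65 8 (.s k134 k73 10 (.s k69 k199 8 (.d k138 k142 k207 1 10)))))) .n)) (.c k166 (.l (.s k4
  k8 1 (.s k130 k65 8 (.s k134 k73 10 (.s k69 k199 8 (.d k138 k142 k207 1 10)))))) .n)))) (.c k62
  (.q k61 [(.s k4 k8 1 (.s k65 k130 8 (.s k105 k125 5 (.d k166 k227 k247 10 12)))), (.s k28 k29 0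
  (.s k93 k174 12 (.s k89 k81 1 (.s k150 k211 10 (.d k215 k235 k20 5 8))))), (.s k4 k8 1 (.s k130
  k65 8 (.s k134 k73 10 (.s k69 k199 8 (.d k138 k142 k207 1 10)))))] (.c k89 (.l (.s k65 k130 8 (.s
  k105 k125 5 (.s k166 k227 10 (.d k4 k8 k247 1 12))))) .n)) (.c k89 (.l (.s k65 k130 8 (.s k105
  k125 5 (.s k166 k227 10 (.d k4 k8 k247 1 12))))) .n)))) (.c k61 (.q k62 [(.s k4 k8 1 (.s k93 k174
  12 (.s k89 k81 1 (.d k166 k247 k243 12 14)))), (.s k8 k4 1 (.s k65 k130 8 (.s k73 k134 10 (.s k69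
  k77 1 (.d k138 k203 k207 8 10))))), (.s k65 k130 8 (.s k73 k134 10 (.s k93 k174 12 (.s k89 k81 1
  (.d k105 k121 k125 3 5)))))] (.c k13 (.l (.s k29 k28 0 (.s k4 k8 1 (.s k93 k174 12 (.s k89 k81 1
  (.d k166 k247 k243 12 14)))))) (.c k29 (.q k13 [(.s k4 k8 1 (.s k93 k174 12 (.s k89 k81 1 (.d k166
  k247 k243 12 14)))), (.s k8 k4 1 (.s k65 k130 8 (.s k73 k134 10 (.s k69 k77 1 (.d k138 k203 k207 8
  10))))), (.s k65 k130 8 (.s k73 k134 10 (.s k93 k174 12 (.s k89 k81 1 (.d k105 k121 k125 3 5)))))]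
  (.c k44 (.l (.s k46 k14 3 (.s k4 k8 1 (.s k93 k174 12 (.s k89 k81 1 (.d k166 k247 k243 12 14))))))
  (.c k46 (.q k44 [(.s k4 k8 1 (.s k93 k174 12 (.s k89 k81 1 (.d k166 k247 k243 12 14)))), (.s k65
  k130 8 (.s k105 k125 5 (.s k166 k227 10 (.d k4 k8 k247 1 12)))), (.s k65 k130 8 (.s k73 k134 10
  (.s k93 k174 12 (.s k89 k81 1 (.d k105 k121 k125 3 5)))))] (.c k166 (.l (.s k4 k8 1 (.s k130 k65 8
  (.s k134 k73 10 (.s k69 k199 8 (.d k138 k142 k207 1 10)))))) .n)) .n))) (.c k44 (.l (.s k46 k14 3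
  (.s k4 k8 1 (.s k93 k174 12 (.s k89 k81 1 (.d k166 k247 k243 12 14)))))) (.c k46 (.q k44 [(.s k4
  k8 1 (.s k93 k174 12 (.s k89 k81 1 (.d k166 k247 k243 12 14)))), (.s k65 k130 8 (.s k105 k125 5
  (.s k166 k227 10 (.d k4 k8 k247 1 12)))), (.s k65 k130 8 (.s k73 k134 10 (.s k93 k174 12 (.s k89
  k81 1 (.d k105 k121 k125 3 5)))))] (.c k13 (.l (.s k29 k28 0 (.s k4 k8 1 (.s k65 k130 8 (.s k105
  k125 5 (.d k166 k227 k247 10 12)))))) (.c k29 (.q k13 [(.s k4 k8 1 (.s k93 k174 12 (.s k89 k81 1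
  (.d k166 k247 k243 12 14)))), (.s k65 k130 8 (.s k105 k125 5 (.s k166 k227 10 (.d k4 k8 k247 1
  12)))), (.s k65 k130 8 (.s k73 k134 10 (.s k93 k174 12 (.s k89 k81 1 (.d k105 k121 k125 3 5)))))]
  (.c k166 (.l (.s k4 k8 1 (.s k130 k65 8 (.s k134 k73 10 (.s k69 k199 8 (.d k138 k142 k207 1
  10)))))) .n)) (.c k166 (.l (.s k4 k8 1 (.s k130 k65 8 (.s k134 k73 10 (.s k69 k199 8 (.d k138 k142
  k207 1 10)))))) .n)))) .n))))) (.c k62 (.q k61 [(.s k4 k8 1 (.s k93 k174 12 (.s k89 k81 1 (.d k166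
  k247 k243 12 14)))), (.s k8 k4 1 (.s k65 k130 8 (.s k73 k134 10 (.s k69 k77 1 (.d k138 k203 k207 8
  10))))), (.s k28 k29 0 (.s k93 k174 12 (.s k89 k81 1 (.s k150 k211 10 (.d k215 k235 k20 5 8)))))]
  (.c k44 (.q k46 [(.s k4 k8 1 (.s k93 k174 12 (.s k89 k81 1 (.d k166 k247 k243 12 14)))), (.s k8 k4
  1 (.s k65 k130 8 (.s k73 k134 10 (.s k69 k77 1 (.d k138 k203 k207 8 10))))), (.s k28 k29 0 (.s k93
  k174 12 (.s k89 k81 1 (.s k150 k211 10 (.d k215 k235 k20 5 8)))))] .n) (.c k46 (.q k44 [(.s k4 k8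
  1 (.s k65 k130 8 (.s k105 k125 5 (.d k166 k227 k247 10 12)))), (.s k28 k29 0 (.s k93 k174 12 (.s
  k89 k81 1 (.s k150 k211 10 (.d k215 k235 k20 5 8))))), (.s k4 k8 1 (.s k130 k65 8 (.s k134 k73 10
  (.s k69 k199 8 (.d k138 k142 k207 1 10)))))] (.c k89 (.l (.s k65 k130 8 (.s k105 k125 5 (.s k166
  k227 10 (.d k4 k8 k247 1 12))))) .n)) .n))) .n))))) (.c k61 (.q k62 [(.s k4 k8 1 (.s k93 k174 12
  (.s k89 k81 1 (.d k166 k247 k243 12 14)))), (.s k8 k4 1 (.s k65 k130 8 (.s k73 k134 10 (.s k69 k77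
  1 (.d k138 k203 k207 8 10))))), (.s k65 k130 8 (.s k73 k134 10 (.s k93 k174 12 (.s k89 k81 1 (.d
  k105 k121 k125 3 5)))))] (.c k30 (.q k45 [(.s k4 k8 1 (.s k93 k174 12 (.s k89 k81 1 (.d k166 k247
  k243 12 14)))), (.s k8 k4 1 (.s k65 k130 8 (.s k73 k134 10 (.s k69 k77 1 (.d k138 k203 k207 8
  10))))), (.s k65 k130 8 (.s k73 k134 10 (.s k93 k174 12 (.s k89 k81 1 (.d k105 k121 k125 3 5)))))]
  .n) (.c k45 (.q k30 [(.s k4 k8 1 (.s k93 k174 12 (.s k89 k81 1 (.d k166 k247 k243 12 14)))), (.s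
  k8 k4 1 (.s k65 k130 8 (.s k73 k134 10 (.s k69 k77 1 (.d k138 k203 k207 8 10))))), (.s k65 k130 8
  (.s k73 k134 10 (.s k93 k174 12 (.s k89 k81 1 (.d k105 k121 k125 3 5)))))] (.c k13 (.l (.s k29 k28
  0 (.s k4 k8 1 (.s k93 k174 12 (.s k89 k81 1 (.d k166 k247 k243 12 14)))))) (.c k29 (.q k13 [(.s k4
  k8 1 (.s k93 k174 12 (.s k89 k81 1 (.d k166 k247 k243 12 14)))), (.s k8 k4 1 (.s k65 k130 8 (.s
  k73 k134 10 (.s k69 k77 1 (.d k138 k203 k207 8 10))))), (.s k65 k130 8 (.s k73 k134 10 (.s k93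
  k174 12 (.s k89 k81 1 (.d k105 k121 k125 3 5)))))] (.c k44 (.l (.s k46 k14 3 (.s k4 k8 1 (.s k93
  k174 12 (.s k89 k81 1 (.d k166 k247 k243 12 14)))))) (.c k46 (.q k44 [(.s k4 k8 1 (.s k93 k174 12
  (.s k89 k81 1 (.d k166 k247 k243 12 14)))), (.s k65 k130 8 (.s k105 k125 5 (.s k166 k227 10 (.d k4
  k8 k247 1 12)))), (.s k65 k130 8 (.s k73 k134 10 (.s k93 k174 12 (.s k89 k81 1 (.d k105 k121 k125
  3 5)))))] (.c k166 (.l (.s k4 k8 1 (.s k130 k65 8 (.s k134 k73 10 (.s k69 k199 8 (.d k138 k142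
  k207 1 10)))))) .n)) .n))) (.c k44 (.l (.s k46 k14 3 (.s k4 k8 1 (.s k93 k174 12 (.s k89 k81 1 (.d
  k166 k247 k243 12 14)))))) (.c k46 (.q k44 [(.s k4 k8 1 (.s k93 k174 12 (.s k89 k81 1 (.d k166
  k247 k243 12 14)))), (.s k65 k130 8 (.s k105 k125 5 (.s k166 k227 10 (.d k4 k8 k247 1 12)))), (.s
  k65 k130 8 (.s k73 k134 10 (.s k93 k174 12 (.s k89 k81 1 (.d k105 k121 k125 3 5)))))] (.c k13 (.l
  (.s k29 k28 0 (.s k4 k8 1 (.s k65 k130 8 (.s k105 k125 5 (.d k166 k227 k247 10 12)))))) (.c k29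
  (.q k13 [(.s k4 k8 1 (.s k93 k174 12 (.s k89 k81 1 (.d k166 k247 k243 12 14)))), (.s k65 k130 8
  (.s k105 k125 5 (.s k166 k227 10 (.d k4 k8 k247 1 12)))), (.s k65 k130 8 (.s k73 k134 10 (.s k93
  k174 12 (.s k89 k81 1 (.d k105 k121 k125 3 5)))))] (.c k166 (.l (.s k4 k8 1 (.s k130 k65 8 (.s
  k134 k73 10 (.s k69 k199 8 (.d k138 k142 k207 1 10)))))) .n)) (.c k166 (.l (.s k4 k8 1 (.s k130
  k65 8 (.s k134 k73 10 (.s k69 k199 8 (.d k138 k142 k207 1 10)))))) .n)))) .n))))) .n))) (.c k62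
  (.q k61 [(.s k4 k8 1 (.s k93 k174 12 (.s k89 k81 1 (.d k166 k247 k243 12 14)))), (.s k8 k4 1 (.s
  k65 k130 8 (.s k73 k134 10 (.s k69 k77 1 (.d k138 k203 k207 8 10))))), (.s k65 k130 8 (.s k73 k134
  10 (.s k93 k174 12 (.s k89 k81 1 (.d k105 k121 k125 3 5)))))] (.c k30 (.q k45 [(.s k4 k8 1 (.s k93
  k174 12 (.s k89 k81 1 (.d k166 k247 k243 12 14)))), (.s k13 k29 3 (.s k65 k130 8 (.s k73 k134 10
  (.s k105 k125 5 (.d k193 k133 k149 9 13)))))] (.c k14 (.q k46 [(.s k4 k8 1 (.s k93 k174 12 (.s k89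
  k81 1 (.d k166 k247 k243 12 14)))), (.s k13 k29 3 (.s k65 k130 8 (.s k73 k134 10 (.s k105 k125 5
  (.d k193 k133 k149 9 13)))))] .n) (.c k46 (.q k14 [(.s k4 k8 1 (.s k93 k174 12 (.s k89 k81 1 (.d
  k166 k247 k243 12 14)))), (.s k13 k29 3 (.s k65 k130 8 (.s k73 k134 10 (.s k105 k125 5 (.d k193
  k133 k149 9 13)))))] .n) .n))) (.c k45 (.q k30 [(.s k4 k8 1 (.s k93 k174 12 (.s k89 k81 1 (.d k166
  k247 k243 12 14)))), (.s k8 k4 1 (.s k65 k130 8 (.s k73 k134 10 (.s k69 k77 1 (.d k138 k203 k207 8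
  10))))), (.s k28 k29 0 (.s k93 k174 12 (.s k89 k81 1 (.s k150 k211 10 (.d k215 k235 k20 5 8)))))]
  (.c k44 (.q k46 [(.s k4 k8 1 (.s k93 k174 12 (.s k89 k81 1 (.d k166 k247 k243 12 14)))), (.s k8 k4
  1 (.s k65 k130 8 (.s k73 k134 10 (.s k69 k77 1 (.d k138 k203 k207 8 10))))), (.s k28 k29 0 (.s k93
  k174 12 (.s k89 k81 1 (.s k150 k211 10 (.d k215 k235 k20 5 8)))))] .n) (.c k46 (.q k44 [(.s k4 k8
  1 (.s k65 k130 8 (.s k105 k125 5 (.d k166 k227 k247 10 12)))), (.s k28 k29 0 (.s k93 k174 12 (.s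
  k89 k81 1 (.s k150 k211 10 (.d k215 k235 k20 5 8))))), (.s k4 k8 1 (.s k130 k65 8 (.s k134 k73 10
  (.s k69 k199 8 (.d k138 k142 k207 1 10)))))] (.c k89 (.l (.s k65 k130 8 (.s k105 k125 5 (.s k166
  k227 10 (.d k4 k8 k247 1 12))))) .n)) .n))) .n))) .n)))))) (.c k65 (.q k3 [(.s k1 k2 0 (.s k131
  k67 7 (.s k169 k253 13 (.s k150 k188 6 (.s k20 k215 8 (.d k60 k40 k105 5 14)))))), (.s k1 k2 0 (.s
  k169 k253 13 (.s k86 k252 14 (.s k87 k84 0 (.d k255 k171 k170 13 14))))), (.s k67 k131 7 (.s k255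
  k170 14 (.s k87 k171 13 (.s k86 k84 0 (.s k105 k124 6 (.s k150 k60 14 (.d k215 k235 k20 5
  8)))))))] (.c k169 (.l (.s k2 k1 0 (.s k67 k131 7 (.s k170 k255 14 (.s k86 k254 13 (.s k105 k124 6
  (.s k40 k235 8 (.d k60 k150 k20 14 5)))))))) .n)) (.c k105 (.q k1 [(.s k3 k2 0 (.s k65 k130 8 (.s
  k67 k131 7 (.s k66 k64 0 (.d k129 k193 k192 7 8))))), (.s k3 k2 0 (.s k169 k253 13 (.s k86 k252 14
  (.s k87 k84 0 (.d k255 k171 k170 13 14))))), (.s k65 k130 8 (.s k193 k129 7 (.s k253 k169 13 (.s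
  k233 k213 5 (.s k252 k214 6 (.d k255 k254 k170 0 14))))))] .n) (.c k125 (.l (.s k130 k65 8 (.s
  k170 k255 14 (.s k150 k190 5 (.s k60 k105 14 (.d k20 k40 k215 5 8)))))) (.c k130 (.q k3 [(.s k1 k2
  0 (.s k131 k67 7 (.s k169 k253 13 (.s k150 k188 6 (.s k20 k215 8 (.d k60 k40 k105 5 14)))))), (.s
  k2 k1 0 (.s k170 k255 14 (.s k86 k254 13 (.s k84 k87 0 (.d k252 k168 k169 13 14))))), (.s k67 k131
  7 (.s k255 k170 14 (.s k87 k171 13 (.s k86 k84 0 (.s k105 k124 6 (.s k125 k65 5 (.d k60 k190 k150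
  8 14)))))))] (.c k169 (.l (.s k2 k1 0 (.s k67 k131 7 (.s k170 k255 14 (.s k86 k254 13 (.s k105
  k124 6 (.s k40 k235 8 (.d k60 k150 k20 14 5)))))))) .n)) (.c k150 (.q k1 [(.s k3 k2 0 (.s k169
  k253 13 (.s k86 k252 14 (.s k87 k84 0 (.d k255 k171 k170 13 14))))), (.s k3 k2 0 (.s k65 k130 8
  (.s k129 k193 7 (.s k66 k192 8 (.d k67 k64 k131 0 7))))), (.s k65 k130 8 (.s k105 k125 5 (.s k169
  k253 13 (.s k41 k233 7 (.s k61 k21 5 (.d k193 k129 k149 7 13))))))] (.c k170 (.l (.s k3 k2 0 (.s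
  k67 k131 7 (.s k169 k253 13 (.s k86 k252 14 (.s k105 k124 6 (.d k65 k125 k130 5 8))))))) .n)) (.c
  k170 (.q k1 [(.s k3 k2 0 (.s k131 k67 7 (.s k169 k253 13 (.s k150 k188 6 (.s k20 k215 8 (.d k60
  k40 k105 5 14)))))), (.s k65 k130 8 (.s k105 k125 5 (.s k169 k253 13 (.s k41 k233 7 (.s k61 k21 5
  (.d k193 k129 k149 7 13)))))), (.s k3 k2 0 (.s k65 k130 8 (.s k67 k131 7 (.s k66 k64 0 (.d k129
  k193 k192 7 8)))))] (.c k150 (.l (.s k3 k2 0 (.s k67 k131 7 (.s k169 k253 13 (.s k86 k252 14 (.s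
  k105 k124 6 (.d k65 k125 k130 5 8))))))) .n)) (.c k190 (.l (.s k65 k130 8 (.s k105 k125 5 (.s k60
  k150 14 (.s k170 k255 14 (.d k40 k20 k235 5 8)))))) (.c k235 (.l (.s k130 k65 8 (.s k170 k255 14
  (.s k150 k190 5 (.s k20 k215 8 (.d k60 k40 k105 5 14)))))) (.c k255 (.f k65 k130 8 (.q k95 [(.s
  k90 k80 2 (.s k149 k208 10 (.s k223 k159 7 (.s k16 k154 10 (.d k21 k26 k213 2 7))))), (.s k105
  k125 5 (.s k223 k159 7 (.s k154 k16 10 (.s k203 k56 12 (.s k207 k199 1 (.s k69 k138 10 (.d k101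
  k117 k48 3 14))))))), (.s k90 k80 2 (.s k105 k125 5 (.s k149 k208 10 (.s k193 k61 13 (.s k1 k129 7
  (.s k213 k21 7 (.d k253 k233 k169 5 13)))))))] (.c k16 (.q k127 [(.s k64 k106 6 (.s k66 k67 0 (.s
  k192 k128 7 (.s k193 k194 0 (.d k129 k1 k3 7 8))))), (.s k79 k111 3 (.s k90 k80 2 (.s k105 k125 5
  (.s k75 k120 4 (.s k67 k71 1 (.s k86 k124 6 (.d k87 k84 k107 0 5)))))))] (.c k67 (.l (.s k64 k106
  6 (.s k79 k111 3 (.s k69 k74 2 (.s k90 k80 2 (.d k101 k117 k112 3 6)))))) .n)) (.c k127 (.q k191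
  [(.s k90 k80 2 (.s k149 k208 10 (.s k223 k159 7 (.s k16 k154 10 (.d k21 k26 k213 2 7))))), (.s k90
  k80 2 (.s k105 k125 5 (.s k60 k150 14 (.s k40 k20 5 (.s k170 k235 8 (.d k149 k128 k208 6 10)))))),
  (.s k105 k125 5 (.s k223 k159 7 (.s k154 k16 10 (.s k203 k56 12 (.s k207 k199 1 (.s k69 k138 10
  (.d k101 k117 k48 3 14)))))))] .n) (.c k191 (.q k127 [(.s k90 k80 2 (.s k149 k208 10 (.s k21 k213
  7 (.s k16 k26 2 (.d k223 k159 k154 7 10))))), (.s k64 k106 6 (.s k66 k67 0 (.s k192 k128 7 (.s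
  k129 k3 8 (.d k193 k194 k1 0 7))))), (.s k79 k111 3 (.s k90 k80 2 (.s k101 k112 6 (.s k69 k117 3
  (.d k64 k74 k106 2 6)))))] .n) .n))))) .n)))))))))))))

def s15_63_48 : T TT 256 :=
  (.l (.s k65 k130 8 (.s k105 k125 5 (.s k60 k150 14 (.s k40 k20 5 (.d k170 k235 k255 8 14))))))

def s15_63_49 : T TT 256 :=
  (.l (.s k65 k130 8 (.s k105 k125 5 (.s k60 k150 14 (.s k40 k20 5 (.d k170 k235 k255 8 14))))))

def s15_63_50 : T TT 256 :=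
  (.l (.s k65 k130 8 (.s k105 k125 5 (.s k60 k150 14 (.s k40 k20 5 (.d k170 k235 k255 8 14))))))

def s15_63_51 : T TT 256 :=
  (.l (.s k65 k130 8 (.s k105 k125 5 (.s k60 k150 14 (.s k40 k20 5 (.d k170 k235 k255 8 14))))))

def s15_63_52 : T TT 256 :=
  (.l (.s k65 k130 8 (.s k105 k125 5 (.s k60 k150 14 (.s k40 k20 5 (.d k170 k235 k255 8 14))))))

def s15_63_53 : T TT 256 :=
  (.l (.s k65 k130 8 (.s k105 k125 5 (.s k60 k150 14 (.s k40 k20 5 (.d k170 k235 k255 8 14))))))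

def s15_63_54 : T TT 256 :=
  (.l (.s k65 k130 8 (.s k105 k125 5 (.s k60 k150 14 (.s k40 k20 5 (.d k170 k235 k255 8 14))))))

def s15_63_55 : T TT 256 :=
  (.l (.s k65 k130 8 (.s k105 k125 5 (.s k60 k150 14 (.s k40 k20 5 (.d k170 k235 k255 8 14))))))

def s15_63_56 : T TT 256 :=
  (.l (.s k65 k130 8 (.s k105 k125 5 (.s k60 k150 14 (.s k40 k20 5 (.d k170 k235 k255 8 14))))))

def s15_63_57 : T TT 256 :=
  (.l (.s k65 k130 8 (.s k105 k125 5 (.s k60 k150 14 (.s k40 k20 5 (.d k170 k235 k255 8 14))))))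

def s15_63_58 : T TT 256 :=
  (.l (.s k65 k130 8 (.s k105 k125 5 (.s k60 k150 14 (.s k40 k20 5 (.d k170 k235 k255 8 14))))))

def s15_63_59 : T TT 256 :=
  (.l (.s k65 k130 8 (.s k105 k125 5 (.s k60 k150 14 (.s k40 k20 5 (.d k170 k235 k255 8 14))))))

def s15_63_60 : T TT 256 :=
  (.f k255 k170 14 (.q k12 [(.s k4 k8 1 (.s k93 k174 12 (.s k89 k81 1 (.d k166 k247 k243 12 14)))),
  (.s k8 k4 1 (.s k65 k130 8 (.s k73 k134 10 (.s k69 k77 1 (.d k138 k203 k207 8 10))))), (.s k65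
  k130 8 (.s k73 k134 10 (.s k93 k174 12 (.s k89 k81 1 (.d k105 k121 k125 3 5)))))] (.c k30 (.q k45
  [(.s k4 k8 1 (.s k93 k174 12 (.s k89 k81 1 (.d k166 k247 k243 12 14)))), (.s k8 k4 1 (.s k65 k130
  8 (.s k73 k134 10 (.s k69 k77 1 (.d k138 k203 k207 8 10))))), (.s k65 k130 8 (.s k73 k134 10 (.s
  k93 k174 12 (.s k89 k81 1 (.d k105 k121 k125 3 5)))))] (.c k31 (.q k47 [(.s k4 k8 1 (.s k93 k174
  12 (.s k89 k81 1 (.d k166 k247 k243 12 14)))), (.s k8 k4 1 (.s k65 k130 8 (.s k73 k134 10 (.s k69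
  k77 1 (.d k138 k203 k207 8 10))))), (.s k65 k130 8 (.s k73 k134 10 (.s k93 k174 12 (.s k89 k81 1
  (.d k105 k121 k125 3 5)))))] (.c k28 (.q k29 [(.s k4 k8 1 (.s k93 k174 12 (.s k89 k81 1 (.d k166
  k247 k243 12 14)))), (.s k8 k4 1 (.s k65 k130 8 (.s k73 k134 10 (.s k69 k77 1 (.d k138 k203 k207 8
  10))))), (.s k65 k130 8 (.s k73 k134 10 (.s k93 k174 12 (.s k89 k81 1 (.d k105 k121 k125 3 5)))))]
  (.c k61 (.q k62 [(.s k4 k8 1 (.s k93 k174 12 (.s k89 k81 1 (.d k166 k247 k243 12 14)))), (.s k8 k4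
  1 (.s k65 k130 8 (.s k73 k134 10 (.s k69 k77 1 (.d k138 k203 k207 8 10))))), (.s k65 k130 8 (.s
  k73 k134 10 (.s k93 k174 12 (.s k89 k81 1 (.d k105 k121 k125 3 5)))))] .n) (.c k62 (.l (.s k61 k13
  3 (.s k4 k8 1 (.s k93 k174 12 (.s k89 k81 1 (.d k166 k247 k243 12 14)))))) .n))) (.c k29 (.q k28
  [(.s k4 k8 1 (.s k93 k174 12 (.s k89 k81 1 (.d k166 k247 k243 12 14)))), (.s k8 k4 1 (.s k65 k130
  8 (.s k73 k134 10 (.s k69 k77 1 (.d k138 k203 k207 8 10))))), (.s k93 k174 12 (.s k89 k81 1 (.s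
  k150 k211 10 (.d k215 k235 k20 5 8))))] (.c k61 (.q k62 [(.s k4 k8 1 (.s k93 k174 12 (.s k89 k81 1
  (.d k166 k247 k243 12 14)))), (.s k8 k4 1 (.s k65 k130 8 (.s k73 k134 10 (.s k69 k77 1 (.d k138
  k203 k207 8 10))))), (.s k93 k174 12 (.s k89 k81 1 (.s k150 k211 10 (.d k215 k235 k20 5 8))))] .n)
  (.c k62 (.q k61 [(.s k4 k8 1 (.s k93 k174 12 (.s k89 k81 1 (.d k166 k247 k243 12 14)))), (.s k8 k4
  1 (.s k65 k130 8 (.s k73 k134 10 (.s k69 k77 1 (.d k138 k203 k207 8 10))))), (.s k93 k174 12 (.s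
  k89 k81 1 (.s k150 k211 10 (.d k215 k235 k20 5 8))))] (.c k14 (.l (.s k46 k44 0 (.s k4 k8 1 (.s
  k93 k174 12 (.s k89 k81 1 (.d k166 k247 k243 12 14)))))) (.c k46 (.q k14 [(.s k4 k8 1 (.s k93 k174
  12 (.s k89 k81 1 (.d k166 k247 k243 12 14)))), (.s k8 k4 1 (.s k65 k130 8 (.s k73 k134 10 (.s k69
  k77 1 (.d k138 k203 k207 8 10))))), (.s k93 k174 12 (.s k89 k81 1 (.s k150 k211 10 (.d k215 k235
  k20 5 8))))] .n) .n))) .n))) (.c k61 (.q k62 [(.s k4 k8 1 (.s k93 k174 12 (.s k89 k81 1 (.d k166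
  k247 k243 12 14)))), (.s k8 k4 1 (.s k65 k130 8 (.s k73 k134 10 (.s k69 k77 1 (.d k138 k203 k207 8
  10))))), (.s k65 k130 8 (.s k73 k134 10 (.s k93 k174 12 (.s k89 k81 1 (.d k105 k121 k125 3 5)))))]
  (.c k28 (.q k29 [(.s k4 k8 1 (.s k93 k174 12 (.s k89 k81 1 (.d k166 k247 k243 12 14)))), (.s k8 k4
  1 (.s k65 k130 8 (.s k73 k134 10 (.s k69 k77 1 (.d k138 k203 k207 8 10))))), (.s k65 k130 8 (.s
  k73 k134 10 (.s k93 k174 12 (.s k89 k81 1 (.d k105 k121 k125 3 5)))))] .n) (.c k29 (.q k28 [(.s k4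
  k8 1 (.s k93 k174 12 (.s k89 k81 1 (.d k166 k247 k243 12 14)))), (.s k8 k4 1 (.s k65 k130 8 (.s
  k73 k134 10 (.s k69 k77 1 (.d k138 k203 k207 8 10))))), (.s k93 k174 12 (.s k89 k81 1 (.s k150
  k211 10 (.d k215 k235 k20 5 8))))] .n) .n))) (.c k62 (.q k61 [(.s k4 k8 1 (.s k93 k174 12 (.s k89
  k81 1 (.d k166 k247 k243 12 14)))), (.s k8 k4 1 (.s k65 k130 8 (.s k73 k134 10 (.s k69 k77 1 (.d
  k138 k203 k207 8 10))))), (.s k65 k130 8 (.s k73 k134 10 (.s k93 k174 12 (.s k89 k81 1 (.d k105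
  k121 k125 3 5)))))] (.c k14 (.l (.s k46 k44 0 (.s k4 k8 1 (.s k93 k174 12 (.s k89 k81 1 (.d k166
  k247 k243 12 14)))))) (.c k28 (.l (.s k29 k13 3 (.s k4 k8 1 (.s k93 k174 12 (.s k89 k81 1 (.d k166
  k247 k243 12 14)))))) (.c k29 (.q k28 [(.s k4 k8 1 (.s k93 k174 12 (.s k89 k81 1 (.d k166 k247
  k243 12 14)))), (.s k8 k4 1 (.s k65 k130 8 (.s k73 k134 10 (.s k69 k77 1 (.d k138 k203 k207 8
  10))))), (.s k93 k174 12 (.s k89 k81 1 (.s k150 k211 10 (.d k215 k235 k20 5 8))))] (.c k14 (.l (.s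
  k46 k44 0 (.s k4 k8 1 (.s k93 k174 12 (.s k89 k81 1 (.d k166 k247 k243 12 14)))))) (.c k46 (.q k14
  [(.s k4 k8 1 (.s k93 k174 12 (.s k89 k81 1 (.d k166 k247 k243 12 14)))), (.s k8 k4 1 (.s k65 k130
  8 (.s k73 k134 10 (.s k69 k77 1 (.d k138 k203 k207 8 10))))), (.s k93 k174 12 (.s k89 k81 1 (.s
  k150 k211 10 (.d k215 k235 k20 5 8))))] .n) .n))) (.c k46 (.q k14 [(.s k4 k8 1 (.s k93 k174 12 (.s
  k89 k81 1 (.d k166 k247 k243 12 14)))), (.s k8 k4 1 (.s k65 k130 8 (.s k73 k134 10 (.s k69 k77 1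
  (.d k138 k203 k207 8 10))))), (.s k65 k130 8 (.s k73 k134 10 (.s k93 k174 12 (.s k89 k81 1 (.d
  k105 k121 k125 3 5)))))] (.c k28 (.l (.s k29 k13 3 (.s k4 k8 1 (.s k93 k174 12 (.s k89 k81 1 (.d
  k166 k247 k243 12 14)))))) (.c k29 (.q k28 [(.s k4 k8 1 (.s k93 k174 12 (.s k89 k81 1 (.d k166
  k247 k243 12 14)))), (.s k8 k4 1 (.s k65 k130 8 (.s k73 k134 10 (.s k69 k77 1 (.d k138 k203 k207 8
  10))))), (.s k93 k174 12 (.s k89 k81 1 (.s k150 k211 10 (.d k215 k235 k20 5 8))))] .n) .n)))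
  .n))))) .n))))) (.c k47 (.q k31 [(.s k4 k8 1 (.s k93 k174 12 (.s k89 k81 1 (.d k166 k247 k243 12
  14)))), (.s k8 k4 1 (.s k65 k130 8 (.s k73 k134 10 (.s k69 k77 1 (.d k138 k203 k207 8 10))))), (.s
  k65 k130 8 (.s k73 k134 10 (.s k93 k174 12 (.s k89 k81 1 (.d k105 k121 k125 3 5)))))] (.c k61 (.q
  k62 [(.s k4 k8 1 (.s k93 k174 12 (.s k89 k81 1 (.d k166 k247 k243 12 14)))), (.s k8 k4 1 (.s k65
  k130 8 (.s k73 k134 10 (.s k69 k77 1 (.d k138 k203 k207 8 10))))), (.s k65 k130 8 (.s k73 k134 10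
  (.s k93 k174 12 (.s k89 k81 1 (.d k105 k121 k125 3 5)))))] .n) (.c k62 (.q k61 [(.s k4 k8 1 (.s
  k93 k174 12 (.s k89 k81 1 (.d k166 k247 k243 12 14)))), (.s k13 k29 3 (.s k65 k130 8 (.s k73 k134
  10 (.s k105 k125 5 (.d k193 k133 k149 9 13)))))] (.c k14 (.q k46 [(.s k4 k8 1 (.s k93 k174 12 (.s
  k89 k81 1 (.d k166 k247 k243 12 14)))), (.s k13 k29 3 (.s k65 k130 8 (.s k73 k134 10 (.s k105 k125
  5 (.d k193 k133 k149 9 13)))))] .n) (.c k46 (.q k14 [(.s k4 k8 1 (.s k93 k174 12 (.s k89 k81 1 (.d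
  k166 k247 k243 12 14)))), (.s k13 k29 3 (.s k65 k130 8 (.s k73 k134 10 (.s k105 k125 5 (.d k193
  k133 k149 9 13)))))] .n) .n))) .n))) (.c k61 (.q k62 [(.s k4 k8 1 (.s k93 k174 12 (.s k89 k81 1
  (.d k166 k247 k243 12 14)))), (.s k8 k4 1 (.s k65 k130 8 (.s k73 k134 10 (.s k69 k77 1 (.d k138
  k203 k207 8 10))))), (.s k65 k130 8 (.s k73 k134 10 (.s k93 k174 12 (.s k89 k81 1 (.d k105 k121
  k125 3 5)))))] (.c k31 (.q k47 [(.s k4 k8 1 (.s k93 k174 12 (.s k89 k81 1 (.d k166 k247 k243 12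
  14)))), (.s k8 k4 1 (.s k65 k130 8 (.s k73 k134 10 (.s k69 k77 1 (.d k138 k203 k207 8 10))))), (.s
  k65 k130 8 (.s k73 k134 10 (.s k93 k174 12 (.s k89 k81 1 (.d k105 k121 k125 3 5)))))] (.c k28 (.q
  k29 [(.s k4 k8 1 (.s k93 k174 12 (.s k89 k81 1 (.d k166 k247 k243 12 14)))), (.s k8 k4 1 (.s k65
  k130 8 (.s k73 k134 10 (.s k69 k77 1 (.d k138 k203 k207 8 10))))), (.s k65 k130 8 (.s k73 k134 10
  (.s k93 k174 12 (.s k89 k81 1 (.d k105 k121 k125 3 5)))))] .n) (.c k29 (.q k28 [(.s k4 k8 1 (.s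
  k93 k174 12 (.s k89 k81 1 (.d k166 k247 k243 12 14)))), (.s k8 k4 1 (.s k65 k130 8 (.s k73 k134 10
  (.s k69 k77 1 (.d k138 k203 k207 8 10))))), (.s k93 k174 12 (.s k89 k81 1 (.s k150 k211 10 (.d
  k215 k235 k20 5 8))))] .n) .n))) (.c k47 (.q k31 [(.s k4 k8 1 (.s k93 k174 12 (.s k89 k81 1 (.d
  k166 k247 k243 12 14)))), (.s k8 k4 1 (.s k65 k130 8 (.s k73 k134 10 (.s k69 k77 1 (.d k138 k203
  k207 8 10))))), (.s k65 k130 8 (.s k73 k134 10 (.s k93 k174 12 (.s k89 k81 1 (.d k105 k121 k125 3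
  5)))))] .n) .n))) (.c k62 (.q k61 [(.s k4 k8 1 (.s k93 k174 12 (.s k89 k81 1 (.d k166 k247 k243 12
  14)))), (.s k13 k29 3 (.s k65 k130 8 (.s k73 k134 10 (.s k105 k125 5 (.d k193 k133 k149 9 13)))))]
  (.c k14 (.q k46 [(.s k4 k8 1 (.s k93 k174 12 (.s k89 k81 1 (.d k166 k247 k243 12 14)))), (.s k13
  k29 3 (.s k65 k130 8 (.s k73 k134 10 (.s k105 k125 5 (.d k193 k133 k149 9 13)))))] (.c k31 (.l (.s
  k47 k44 0 (.s k4 k8 1 (.s k93 k174 12 (.s k89 k81 1 (.d k166 k247 k243 12 14)))))) (.c k47 (.q k31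
  [(.s k4 k8 1 (.s k93 k174 12 (.s k89 k81 1 (.d k166 k247 k243 12 14)))), (.s k13 k29 3 (.s k65
  k130 8 (.s k73 k134 10 (.s k105 k125 5 (.d k193 k133 k149 9 13)))))] .n) .n))) (.c k31 (.q k47
  [(.s k4 k8 1 (.s k93 k174 12 (.s k89 k81 1 (.d k166 k247 k243 12 14)))), (.s k8 k4 1 (.s k65 k130
  8 (.s k73 k134 10 (.s k69 k77 1 (.d k138 k203 k207 8 10))))), (.s k65 k130 8 (.s k73 k134 10 (.s
  k93 k174 12 (.s k89 k81 1 (.d k105 k121 k125 3 5)))))] (.c k14 (.l (.s k46 k44 0 (.s k4 k8 1 (.s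
  k93 k174 12 (.s k89 k81 1 (.d k166 k247 k243 12 14)))))) (.c k28 (.l (.s k29 k13 3 (.s k4 k8 1 (.s
  k93 k174 12 (.s k89 k81 1 (.d k166 k247 k243 12 14)))))) (.c k29 (.q k28 [(.s k4 k8 1 (.s k93 k174
  12 (.s k89 k81 1 (.d k166 k247 k243 12 14)))), (.s k8 k4 1 (.s k65 k130 8 (.s k73 k134 10 (.s k69
  k77 1 (.d k138 k203 k207 8 10))))), (.s k93 k174 12 (.s k89 k81 1 (.s k150 k211 10 (.d k215 k235
  k20 5 8))))] (.c k14 (.l (.s k46 k44 0 (.s k4 k8 1 (.s k93 k174 12 (.s k89 k81 1 (.d k166 k247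
  k243 12 14)))))) (.c k46 (.q k14 [(.s k4 k8 1 (.s k93 k174 12 (.s k89 k81 1 (.d k166 k247 k243 12
  14)))), (.s k8 k4 1 (.s k65 k130 8 (.s k73 k134 10 (.s k69 k77 1 (.d k138 k203 k207 8 10))))), (.s
  k93 k174 12 (.s k89 k81 1 (.s k150 k211 10 (.d k215 k235 k20 5 8))))] .n) .n))) (.c k46 (.q k14
  [(.s k4 k8 1 (.s k93 k174 12 (.s k89 k81 1 (.d k166 k247 k243 12 14)))), (.s k8 k4 1 (.s k65 k130
  8 (.s k73 k134 10 (.s k69 k77 1 (.d k138 k203 k207 8 10))))), (.s k65 k130 8 (.s k73 k134 10 (.s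
  k93 k174 12 (.s k89 k81 1 (.d k105 k121 k125 3 5)))))] (.c k28 (.l (.s k29 k13 3 (.s k4 k8 1 (.s
  k93 k174 12 (.s k89 k81 1 (.d k166 k247 k243 12 14)))))) (.c k29 (.q k28 [(.s k4 k8 1 (.s k93 k174
  12 (.s k89 k81 1 (.d k166 k247 k243 12 14)))), (.s k8 k4 1 (.s k65 k130 8 (.s k73 k134 10 (.s k69
  k77 1 (.d k138 k203 k207 8 10))))), (.s k93 k174 12 (.s k89 k81 1 (.s k150 k211 10 (.d k215 k235
  k20 5 8))))] .n) .n))) .n))))) (.c k46 (.q k14 [(.s k4 k8 1 (.s k93 k174 12 (.s k89 k81 1 (.d k166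
  k247 k243 12 14)))), (.s k13 k29 3 (.s k65 k130 8 (.s k73 k134 10 (.s k105 k125 5 (.d k193 k133
  k149 9 13)))))] (.c k31 (.q k47 [(.s k4 k8 1 (.s k93 k174 12 (.s k89 k81 1 (.d k166 k247 k243 12
  14)))), (.s k8 k4 1 (.s k65 k130 8 (.s k73 k134 10 (.s k69 k77 1 (.d k138 k203 k207 8 10))))), (.s
  k65 k130 8 (.s k73 k134 10 (.s k93 k174 12 (.s k89 k81 1 (.d k105 k121 k125 3 5)))))] (.c k28 (.l
  (.s k29 k13 3 (.s k4 k8 1 (.s k93 k174 12 (.s k89 k81 1 (.d k166 k247 k243 12 14)))))) (.c k29 (.q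
  k28 [(.s k4 k8 1 (.s k93 k174 12 (.s k89 k81 1 (.d k166 k247 k243 12 14)))), (.s k8 k4 1 (.s k65
  k130 8 (.s k73 k134 10 (.s k69 k77 1 (.d k138 k203 k207 8 10))))), (.s k93 k174 12 (.s k89 k81 1
  (.s k150 k211 10 (.d k215 k235 k20 5 8))))] .n) .n))) (.c k47 (.q k31 [(.s k4 k8 1 (.s k93 k174 12
  (.s k89 k81 1 (.d k166 k247 k243 12 14)))), (.s k13 k29 3 (.s k65 k130 8 (.s k73 k134 10 (.s k105
  k125 5 (.d k193 k133 k149 9 13)))))] .n) .n))) (.c k47 (.q k31 [(.s k4 k8 1 (.s k93 k174 12 (.s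
  k89 k81 1 (.d k166 k247 k243 12 14)))), (.s k13 k29 3 (.s k65 k130 8 (.s k73 k134 10 (.s k105 k125
  5 (.d k193 k133 k149 9 13)))))] (.c k14 (.q k46 [(.s k4 k8 1 (.s k93 k174 12 (.s k89 k81 1 (.d
  k166 k247 k243 12 14)))), (.s k13 k29 3 (.s k65 k130 8 (.s k73 k134 10 (.s k105 k125 5 (.d k193
  k133 k149 9 13)))))] .n) (.c k46 (.q k14 [(.s k4 k8 1 (.s k93 k174 12 (.s k89 k81 1 (.d k166 k247
  k243 12 14)))), (.s k13 k29 3 (.s k65 k130 8 (.s k73 k134 10 (.s k105 k125 5 (.d k193 k133 k149 9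
  13)))))] .n) .n))) .n))))) .n))))) (.c k31 (.q k47 [(.s k4 k8 1 (.s k93 k174 12 (.s k89 k81 1 (.d
  k166 k247 k243 12 14)))), (.s k8 k4 1 (.s k65 k130 8 (.s k73 k134 10 (.s k69 k77 1 (.d k138 k203
  k207 8 10))))), (.s k65 k130 8 (.s k73 k134 10 (.s k93 k174 12 (.s k89 k81 1 (.d k105 k121 k125 3
  5)))))] (.c k30 (.q k45 [(.s k4 k8 1 (.s k93 k174 12 (.s k89 k81 1 (.d k166 k247 k243 12 14)))),
  (.s k8 k4 1 (.s k65 k130 8 (.s k73 k134 10 (.s k69 k77 1 (.d k138 k203 k207 8 10))))), (.s k65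
  k130 8 (.s k73 k134 10 (.s k93 k174 12 (.s k89 k81 1 (.d k105 k121 k125 3 5)))))] (.c k28 (.q k29
  [(.s k4 k8 1 (.s k93 k174 12 (.s k89 k81 1 (.d k166 k247 k243 12 14)))), (.s k8 k4 1 (.s k65 k130
  8 (.s k73 k134 10 (.s k69 k77 1 (.d k138 k203 k207 8 10))))), (.s k65 k130 8 (.s k73 k134 10 (.s
  k93 k174 12 (.s k89 k81 1 (.d k105 k121 k125 3 5)))))] (.c k61 (.q k62 [(.s k4 k8 1 (.s k93 k174
  12 (.s k89 k81 1 (.d k166 k247 k243 12 14)))), (.s k8 k4 1 (.s k65 k130 8 (.s k73 k134 10 (.s k69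
  k77 1 (.d k138 k203 k207 8 10))))), (.s k65 k130 8 (.s k73 k134 10 (.s k93 k174 12 (.s k89 k81 1
  (.d k105 k121 k125 3 5)))))] .n) (.c k62 (.l (.s k61 k13 3 (.s k4 k8 1 (.s k93 k174 12 (.s k89 k81
  1 (.d k166 k247 k243 12 14)))))) .n))) (.c k29 (.q k28 [(.s k4 k8 1 (.s k93 k174 12 (.s k89 k81 1
  (.d k166 k247 k243 12 14)))), (.s k8 k4 1 (.s k65 k130 8 (.s k73 k134 10 (.s k69 k77 1 (.d k138
  k203 k207 8 10))))), (.s k93 k174 12 (.s k89 k81 1 (.s k150 k211 10 (.d k215 k235 k20 5 8))))] (.c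
  k61 (.q k62 [(.s k4 k8 1 (.s k93 k174 12 (.s k89 k81 1 (.d k166 k247 k243 12 14)))), (.s k8 k4 1
  (.s k65 k130 8 (.s k73 k134 10 (.s k69 k77 1 (.d k138 k203 k207 8 10))))), (.s k93 k174 12 (.s k89
  k81 1 (.s k150 k211 10 (.d k215 k235 k20 5 8))))] .n) (.c k62 (.q k61 [(.s k4 k8 1 (.s k93 k174 12
  (.s k89 k81 1 (.d k166 k247 k243 12 14)))), (.s k8 k4 1 (.s k65 k130 8 (.s k73 k134 10 (.s k69 k77
  1 (.d k138 k203 k207 8 10))))), (.s k93 k174 12 (.s k89 k81 1 (.s k150 k211 10 (.d k215 k235 k20 5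
  8))))] (.c k14 (.l (.s k46 k44 0 (.s k4 k8 1 (.s k93 k174 12 (.s k89 k81 1 (.d k166 k247 k243 12
  14)))))) (.c k46 (.q k14 [(.s k4 k8 1 (.s k93 k174 12 (.s k89 k81 1 (.d k166 k247 k243 12 14)))),
  (.s k8 k4 1 (.s k65 k130 8 (.s k73 k134 10 (.s k69 k77 1 (.d k138 k203 k207 8 10))))), (.s k93
  k174 12 (.s k89 k81 1 (.s k150 k211 10 (.d k215 k235 k20 5 8))))] .n) .n))) .n))) (.c k61 (.q k62
  [(.s k4 k8 1 (.s k93 k174 12 (.s k89 k81 1 (.d k166 k247 k243 12 14)))), (.s k8 k4 1 (.s k65 k130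
  8 (.s k73 k134 10 (.s k69 k77 1 (.d k138 k203 k207 8 10))))), (.s k65 k130 8 (.s k73 k134 10 (.s
  k93 k174 12 (.s k89 k81 1 (.d k105 k121 k125 3 5)))))] (.c k28 (.q k29 [(.s k4 k8 1 (.s k93 k174
  12 (.s k89 k81 1 (.d k166 k247 k243 12 14)))), (.s k8 k4 1 (.s k65 k130 8 (.s k73 k134 10 (.s k69
  k77 1 (.d k138 k203 k207 8 10))))), (.s k65 k130 8 (.s k73 k134 10 (.s k93 k174 12 (.s k89 k81 1
  (.d k105 k121 k125 3 5)))))] .n) (.c k29 (.q k28 [(.s k4 k8 1 (.s k93 k174 12 (.s k89 k81 1 (.d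
  k166 k247 k243 12 14)))), (.s k8 k4 1 (.s k65 k130 8 (.s k73 k134 10 (.s k69 k77 1 (.d k138 k203
  k207 8 10))))), (.s k93 k174 12 (.s k89 k81 1 (.s k150 k211 10 (.d k215 k235 k20 5 8))))] .n)
  .n))) (.c k62 (.q k61 [(.s k4 k8 1 (.s k93 k174 12 (.s k89 k81 1 (.d k166 k247 k243 12 14)))), (.s
  k8 k4 1 (.s k65 k130 8 (.s k73 k134 10 (.s k69 k77 1 (.d k138 k203 k207 8 10))))), (.s k65 k130 8
  (.s k73 k134 10 (.s k93 k174 12 (.s k89 k81 1 (.d k105 k121 k125 3 5)))))] (.c k14 (.l (.s k46 k44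
  0 (.s k4 k8 1 (.s k93 k174 12 (.s k89 k81 1 (.d k166 k247 k243 12 14)))))) (.c k28 (.l (.s k29 k13
  3 (.s k4 k8 1 (.s k93 k174 12 (.s k89 k81 1 (.d k166 k247 k243 12 14)))))) (.c k29 (.q k28 [(.s k4
  k8 1 (.s k93 k174 12 (.s k89 k81 1 (.d k166 k247 k243 12 14)))), (.s k8 k4 1 (.s k65 k130 8 (.s
  k73 k134 10 (.s k69 k77 1 (.d k138 k203 k207 8 10))))), (.s k93 k174 12 (.s k89 k81 1 (.s k150
  k211 10 (.d k215 k235 k20 5 8))))] (.c k14 (.l (.s k46 k44 0 (.s k4 k8 1 (.s k93 k174 12 (.s k89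
  k81 1 (.d k166 k247 k243 12 14)))))) (.c k46 (.q k14 [(.s k4 k8 1 (.s k93 k174 12 (.s k89 k81 1
  (.d k166 k247 k243 12 14)))), (.s k8 k4 1 (.s k65 k130 8 (.s k73 k134 10 (.s k69 k77 1 (.d k138
  k203 k207 8 10))))), (.s k93 k174 12 (.s k89 k81 1 (.s k150 k211 10 (.d k215 k235 k20 5 8))))] .n)
  .n))) (.c k46 (.q k14 [(.s k4 k8 1 (.s k93 k174 12 (.s k89 k81 1 (.d k166 k247 k243 12 14)))), (.s
  k8 k4 1 (.s k65 k130 8 (.s k73 k134 10 (.s k69 k77 1 (.d k138 k203 k207 8 10))))), (.s k65 k130 8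
  (.s k73 k134 10 (.s k93 k174 12 (.s k89 k81 1 (.d k105 k121 k125 3 5)))))] (.c k28 (.l (.s k29 k13
  3 (.s k4 k8 1 (.s k93 k174 12 (.s k89 k81 1 (.d k166 k247 k243 12 14)))))) (.c k29 (.q k28 [(.s k4
  k8 1 (.s k93 k174 12 (.s k89 k81 1 (.d k166 k247 k243 12 14)))), (.s k8 k4 1 (.s k65 k130 8 (.s
  k73 k134 10 (.s k69 k77 1 (.d k138 k203 k207 8 10))))), (.s k93 k174 12 (.s k89 k81 1 (.s k150
  k211 10 (.d k215 k235 k20 5 8))))] .n) .n))) .n))))) .n))))) (.c k45 (.q k30 [(.s k4 k8 1 (.s k93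
  k174 12 (.s k89 k81 1 (.d k166 k247 k243 12 14)))), (.s k8 k4 1 (.s k65 k130 8 (.s k73 k134 10 (.s
  k69 k77 1 (.d k138 k203 k207 8 10))))), (.s k65 k130 8 (.s k73 k134 10 (.s k93 k174 12 (.s k89 k81
  1 (.d k105 k121 k125 3 5)))))] (.c k61 (.q k62 [(.s k4 k8 1 (.s k93 k174 12 (.s k89 k81 1 (.d k166
  k247 k243 12 14)))), (.s k14 k46 3 (.s k134 k73 10 (.s k194 k74 9 (.s k150 k106 13 (.d k215 k235
  k20 5 8)))))] (.c k13 (.q k29 [(.s k4 k8 1 (.s k93 k174 12 (.s k89 k81 1 (.d k166 k247 k243 12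
  14)))), (.s k14 k46 3 (.s k134 k73 10 (.s k194 k74 9 (.s k150 k106 13 (.d k215 k235 k20 5 8)))))]
  (.c k166 (.l (.s k4 k8 1 (.s k130 k65 8 (.s k134 k73 10 (.s k69 k199 8 (.d k138 k142 k207 1
  10)))))) .n)) (.c k29 (.q k13 [(.s k4 k8 1 (.s k93 k174 12 (.s k89 k81 1 (.d k166 k247 k243 12
  14)))), (.s k14 k46 3 (.s k134 k73 10 (.s k194 k74 9 (.s k150 k106 13 (.d k215 k235 k20 5 8)))))]
  (.c k166 (.l (.s k4 k8 1 (.s k130 k65 8 (.s k134 k73 10 (.s k69 k199 8 (.d k138 k142 k207 1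
  10)))))) .n)) (.c k166 (.l (.s k4 k8 1 (.s k130 k65 8 (.s k134 k73 10 (.s k69 k199 8 (.d k138 k142
  k207 1 10)))))) .n)))) (.c k62 (.q k61 [(.s k4 k8 1 (.s k93 k174 12 (.s k89 k81 1 (.d k166 k247
  k243 12 14)))), (.s k8 k4 1 (.s k65 k130 8 (.s k73 k134 10 (.s k69 k77 1 (.d k138 k203 k207 8
  10))))), (.s k65 k130 8 (.s k73 k134 10 (.s k93 k174 12 (.s k89 k81 1 (.d k105 k121 k125 3 5)))))]
  .n) .n))) (.c k61 (.q k62 [(.s k4 k8 1 (.s k93 k174 12 (.s k89 k81 1 (.d k166 k247 k243 12 14)))),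
  (.s k8 k4 1 (.s k65 k130 8 (.s k73 k134 10 (.s k69 k77 1 (.d k138 k203 k207 8 10))))), (.s k65
  k130 8 (.s k73 k134 10 (.s k93 k174 12 (.s k89 k81 1 (.d k105 k121 k125 3 5)))))] (.c k30 (.q k45
  [(.s k4 k8 1 (.s k93 k174 12 (.s k89 k81 1 (.d k166 k247 k243 12 14)))), (.s k8 k4 1 (.s k65 k130
  8 (.s k73 k134 10 (.s k69 k77 1 (.d k138 k203 k207 8 10))))), (.s k65 k130 8 (.s k73 k134 10 (.s
  k93 k174 12 (.s k89 k81 1 (.d k105 k121 k125 3 5)))))] (.c k28 (.q k29 [(.s k4 k8 1 (.s k93 k174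
  12 (.s k89 k81 1 (.d k166 k247 k243 12 14)))), (.s k8 k4 1 (.s k65 k130 8 (.s k73 k134 10 (.s k69
  k77 1 (.d k138 k203 k207 8 10))))), (.s k65 k130 8 (.s k73 k134 10 (.s k93 k174 12 (.s k89 k81 1
  (.d k105 k121 k125 3 5)))))] .n) (.c k29 (.q k28 [(.s k4 k8 1 (.s k93 k174 12 (.s k89 k81 1 (.d
  k166 k247 k243 12 14)))), (.s k8 k4 1 (.s k65 k130 8 (.s k73 k134 10 (.s k69 k77 1 (.d k138 k203
  k207 8 10))))), (.s k93 k174 12 (.s k89 k81 1 (.s k150 k211 10 (.d k215 k235 k20 5 8))))] .n)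
  .n))) (.c k45 (.q k30 [(.s k4 k8 1 (.s k93 k174 12 (.s k89 k81 1 (.d k166 k247 k243 12 14)))), (.s
  k14 k46 3 (.s k134 k73 10 (.s k194 k74 9 (.s k150 k106 13 (.d k215 k235 k20 5 8)))))] (.c k13 (.q
  k29 [(.s k4 k8 1 (.s k93 k174 12 (.s k89 k81 1 (.d k166 k247 k243 12 14)))), (.s k14 k46 3 (.s
  k134 k73 10 (.s k194 k74 9 (.s k150 k106 13 (.d k215 k235 k20 5 8)))))] (.c k166 (.l (.s k4 k8 1
  (.s k130 k65 8 (.s k134 k73 10 (.s k69 k199 8 (.d k138 k142 k207 1 10)))))) .n)) (.c k29 (.q k13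
  [(.s k4 k8 1 (.s k93 k174 12 (.s k89 k81 1 (.d k166 k247 k243 12 14)))), (.s k14 k46 3 (.s k134
  k73 10 (.s k194 k74 9 (.s k150 k106 13 (.d k215 k235 k20 5 8)))))] (.c k166 (.l (.s k4 k8 1 (.s
  k130 k65 8 (.s k134 k73 10 (.s k69 k199 8 (.d k138 k142 k207 1 10)))))) .n)) (.c k166 (.l (.s k4
  k8 1 (.s k130 k65 8 (.s k134 k73 10 (.s k69 k199 8 (.d k138 k142 k207 1 10)))))) .n)))) .n))) (.c
  k62 (.q k61 [(.s k4 k8 1 (.s k93 k174 12 (.s k89 k81 1 (.d k166 k247 k243 12 14)))), (.s k8 k4 1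
  (.s k65 k130 8 (.s k73 k134 10 (.s k69 k77 1 (.d k138 k203 k207 8 10))))), (.s k65 k130 8 (.s k73
  k134 10 (.s k93 k174 12 (.s k89 k81 1 (.d k105 k121 k125 3 5)))))] (.c k30 (.q k45 [(.s k4 k8 1
  (.s k93 k174 12 (.s k89 k81 1 (.d k166 k247 k243 12 14)))), (.s k8 k4 1 (.s k65 k130 8 (.s k73
  k134 10 (.s k69 k77 1 (.d k138 k203 k207 8 10))))), (.s k65 k130 8 (.s k73 k134 10 (.s k93 k174 12
  (.s k89 k81 1 (.d k105 k121 k125 3 5)))))] (.c k14 (.l (.s k46 k44 0 (.s k4 k8 1 (.s k93 k174 12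
  (.s k89 k81 1 (.d k166 k247 k243 12 14)))))) (.c k28 (.l (.s k29 k13 3 (.s k4 k8 1 (.s k93 k174 12
  (.s k89 k81 1 (.d k166 k247 k243 12 14)))))) (.c k29 (.q k28 [(.s k4 k8 1 (.s k93 k174 12 (.s k89
  k81 1 (.d k166 k247 k243 12 14)))), (.s k8 k4 1 (.s k65 k130 8 (.s k73 k134 10 (.s k69 k77 1 (.d
  k138 k203 k207 8 10))))), (.s k93 k174 12 (.s k89 k81 1 (.s k150 k211 10 (.d k215 k235 k20 5
  8))))] (.c k14 (.l (.s k46 k44 0 (.s k4 k8 1 (.s k93 k174 12 (.s k89 k81 1 (.d k166 k247 k243 12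
  14)))))) (.c k46 (.q k14 [(.s k4 k8 1 (.s k93 k174 12 (.s k89 k81 1 (.d k166 k247 k243 12 14)))),
  (.s k8 k4 1 (.s k65 k130 8 (.s k73 k134 10 (.s k69 k77 1 (.d k138 k203 k207 8 10))))), (.s k93
  k174 12 (.s k89 k81 1 (.s k150 k211 10 (.d k215 k235 k20 5 8))))] .n) .n))) (.c k46 (.q k14 [(.s
  k4 k8 1 (.s k93 k174 12 (.s k89 k81 1 (.d k166 k247 k243 12 14)))), (.s k8 k4 1 (.s k65 k130 8 (.s
  k73 k134 10 (.s k69 k77 1 (.d k138 k203 k207 8 10))))), (.s k65 k130 8 (.s k73 k134 10 (.s k93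
  k174 12 (.s k89 k81 1 (.d k105 k121 k125 3 5)))))] (.c k28 (.l (.s k29 k13 3 (.s k4 k8 1 (.s k93
  k174 12 (.s k89 k81 1 (.d k166 k247 k243 12 14)))))) (.c k29 (.q k28 [(.s k4 k8 1 (.s k93 k174 12
  (.s k89 k81 1 (.d k166 k247 k243 12 14)))), (.s k8 k4 1 (.s k65 k130 8 (.s k73 k134 10 (.s k69 k77
  1 (.d k138 k203 k207 8 10))))), (.s k93 k174 12 (.s k89 k81 1 (.s k150 k211 10 (.d k215 k235 k20 5
  8))))] .n) .n))) .n))))) (.c k45 (.q k30 [(.s k4 k8 1 (.s k93 k174 12 (.s k89 k81 1 (.d k166 k247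
  k243 12 14)))), (.s k8 k4 1 (.s k65 k130 8 (.s k73 k134 10 (.s k69 k77 1 (.d k138 k203 k207 8
  10))))), (.s k65 k130 8 (.s k73 k134 10 (.s k93 k174 12 (.s k89 k81 1 (.d k105 k121 k125 3 5)))))]
  .n) .n))) .n))))) (.c k45 (.q k30 [(.s k4 k8 1 (.s k93 k174 12 (.s k89 k81 1 (.d k166 k247 k243 12
  14)))), (.s k8 k4 1 (.s k65 k130 8 (.s k73 k134 10 (.s k69 k77 1 (.d k138 k203 k207 8 10))))), (.s
  k65 k130 8 (.s k73 k134 10 (.s k93 k174 12 (.s k89 k81 1 (.d k105 k121 k125 3 5)))))] (.c k31 (.q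
  k47 [(.s k4 k8 1 (.s k93 k174 12 (.s k89 k81 1 (.d k166 k247 k243 12 14)))), (.s k8 k4 1 (.s k65
  k130 8 (.s k73 k134 10 (.s k69 k77 1 (.d k138 k203 k207 8 10))))), (.s k65 k130 8 (.s k73 k134 10
  (.s k93 k174 12 (.s k89 k81 1 (.d k105 k121 k125 3 5)))))] (.c k61 (.q k62 [(.s k4 k8 1 (.s k93
  k174 12 (.s k89 k81 1 (.d k166 k247 k243 12 14)))), (.s k14 k46 3 (.s k134 k73 10 (.s k194 k74 9
  (.s k150 k106 13 (.d k215 k235 k20 5 8)))))] (.c k13 (.q k29 [(.s k4 k8 1 (.s k93 k174 12 (.s k89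
  k81 1 (.d k166 k247 k243 12 14)))), (.s k14 k46 3 (.s k134 k73 10 (.s k194 k74 9 (.s k150 k106 13
  (.d k215 k235 k20 5 8)))))] (.c k166 (.l (.s k4 k8 1 (.s k130 k65 8 (.s k134 k73 10 (.s k69 k199 8
  (.d k138 k142 k207 1 10)))))) .n)) (.c k29 (.q k13 [(.s k4 k8 1 (.s k93 k174 12 (.s k89 k81 1 (.d
  k166 k247 k243 12 14)))), (.s k14 k46 3 (.s k134 k73 10 (.s k194 k74 9 (.s k150 k106 13 (.d k215
  k235 k20 5 8)))))] (.c k166 (.l (.s k4 k8 1 (.s k130 k65 8 (.s k134 k73 10 (.s k69 k199 8 (.d k138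
  k142 k207 1 10)))))) .n)) (.c k166 (.l (.s k4 k8 1 (.s k130 k65 8 (.s k134 k73 10 (.s k69 k199 8
  (.d k138 k142 k207 1 10)))))) .n)))) (.c k62 (.q k61 [(.s k4 k8 1 (.s k93 k174 12 (.s k89 k81 1
  (.d k166 k247 k243 12 14)))), (.s k8 k4 1 (.s k65 k130 8 (.s k73 k134 10 (.s k69 k77 1 (.d k138
  k203 k207 8 10))))), (.s k65 k130 8 (.s k73 k134 10 (.s k93 k174 12 (.s k89 k81 1 (.d k105 k121
  k125 3 5)))))] .n) .n))) (.c k47 (.q k31 [(.s k4 k8 1 (.s k93 k174 12 (.s k89 k81 1 (.d k166 k247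
  k243 12 14)))), (.s k8 k4 1 (.s k65 k130 8 (.s k73 k134 10 (.s k69 k77 1 (.d k138 k203 k207 8
  10))))), (.s k28 k29 0 (.s k93 k174 12 (.s k89 k81 1 (.s k150 k211 10 (.d k215 k235 k20 5 8)))))]
  (.c k44 (.q k46 [(.s k4 k8 1 (.s k93 k174 12 (.s k89 k81 1 (.d k166 k247 k243 12 14)))), (.s k8 k4
  1 (.s k65 k130 8 (.s k73 k134 10 (.s k69 k77 1 (.d k138 k203 k207 8 10))))), (.s k28 k29 0 (.s k93
  k174 12 (.s k89 k81 1 (.s k150 k211 10 (.d k215 k235 k20 5 8)))))] (.c k61 (.l (.s k62 k14 3 (.s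
  k4 k8 1 (.s k93 k174 12 (.s k89 k81 1 (.d k166 k247 k243 12 14)))))) (.c k62 (.q k61 [(.s k4 k8 1
  (.s k93 k174 12 (.s k89 k81 1 (.d k166 k247 k243 12 14)))), (.s k8 k4 1 (.s k65 k130 8 (.s k73
  k134 10 (.s k69 k77 1 (.d k138 k203 k207 8 10))))), (.s k28 k29 0 (.s k93 k174 12 (.s k89 k81 1
  (.s k150 k211 10 (.d k215 k235 k20 5 8)))))] .n) .n))) (.c k46 (.q k44 [(.s k4 k8 1 (.s k65 k130 8
  (.s k105 k125 5 (.d k166 k227 k247 10 12)))), (.s k28 k29 0 (.s k93 k174 12 (.s k89 k81 1 (.s k150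
  k211 10 (.d k215 k235 k20 5 8))))), (.s k4 k8 1 (.s k130 k65 8 (.s k134 k73 10 (.s k69 k199 8 (.d
  k138 k142 k207 1 10)))))] (.c k61 (.q k62 [(.s k4 k8 1 (.s k93 k174 12 (.s k89 k81 1 (.d k166 k247
  k243 12 14)))), (.s k65 k130 8 (.s k105 k125 5 (.s k166 k227 10 (.d k4 k8 k247 1 12)))), (.s k65
  k130 8 (.s k73 k134 10 (.s k93 k174 12 (.s k89 k81 1 (.d k105 k121 k125 3 5)))))] (.c k13 (.l (.s
  k29 k28 0 (.s k4 k8 1 (.s k65 k130 8 (.s k105 k125 5 (.d k166 k227 k247 10 12)))))) (.c k29 (.q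
  k13 [(.s k4 k8 1 (.s k93 k174 12 (.s k89 k81 1 (.d k166 k247 k243 12 14)))), (.s k65 k130 8 (.s
  k105 k125 5 (.s k166 k227 10 (.d k4 k8 k247 1 12)))), (.s k65 k130 8 (.s k73 k134 10 (.s k93 k174
  12 (.s k89 k81 1 (.d k105 k121 k125 3 5)))))] (.c k166 (.l (.s k4 k8 1 (.s k130 k65 8 (.s k134 k73
  10 (.s k69 k199 8 (.d k138 k142 k207 1 10)))))) .n)) (.c k166 (.l (.s k4 k8 1 (.s k130 k65 8 (.s
  k134 k73 10 (.s k69 k199 8 (.d k138 k142 k207 1 10)))))) .n)))) (.c k62 (.q k61 [(.s k4 k8 1 (.s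
  k65 k130 8 (.s k105 k125 5 (.d k166 k227 k247 10 12)))), (.s k28 k29 0 (.s k93 k174 12 (.s k89 k81
  1 (.s k150 k211 10 (.d k215 k235 k20 5 8))))), (.s k4 k8 1 (.s k130 k65 8 (.s k134 k73 10 (.s k69
  k199 8 (.d k138 k142 k207 1 10)))))] (.c k89 (.l (.s k65 k130 8 (.s k105 k125 5 (.s k166 k227 10
  (.d k4 k8 k247 1 12))))) .n)) (.c k89 (.l (.s k65 k130 8 (.s k105 k125 5 (.s k166 k227 10 (.d k4
  k8 k247 1 12))))) .n)))) (.c k61 (.q k62 [(.s k4 k8 1 (.s k93 k174 12 (.s k89 k81 1 (.d k166 k247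
  k243 12 14)))), (.s k8 k4 1 (.s k65 k130 8 (.s k73 k134 10 (.s k69 k77 1 (.d k138 k203 k207 8
  10))))), (.s k65 k130 8 (.s k73 k134 10 (.s k93 k174 12 (.s k89 k81 1 (.d k105 k121 k125 3 5)))))]
  (.c k13 (.l (.s k29 k28 0 (.s k4 k8 1 (.s k93 k174 12 (.s k89 k81 1 (.d k166 k247 k243 12 14))))))
  (.c k29 (.q k13 [(.s k4 k8 1 (.s k93 k174 12 (.s k89 k81 1 (.d k166 k247 k243 12 14)))), (.s k8 k4
  1 (.s k65 k130 8 (.s k73 k134 10 (.s k69 k77 1 (.d k138 k203 k207 8 10))))), (.s k65 k130 8 (.s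
  k73 k134 10 (.s k93 k174 12 (.s k89 k81 1 (.d k105 k121 k125 3 5)))))] (.c k44 (.l (.s k46 k14 3
  (.s k4 k8 1 (.s k93 k174 12 (.s k89 k81 1 (.d k166 k247 k243 12 14)))))) (.c k46 (.q k44 [(.s k4
  k8 1 (.s k93 k174 12 (.s k89 k81 1 (.d k166 k247 k243 12 14)))), (.s k65 k130 8 (.s k105 k125 5
  (.s k166 k227 10 (.d k4 k8 k247 1 12)))), (.s k65 k130 8 (.s k73 k134 10 (.s k93 k174 12 (.s k89
  k81 1 (.d k105 k121 k125 3 5)))))] (.c k166 (.l (.s k4 k8 1 (.s k130 k65 8 (.s k134 k73 10 (.s k69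
  k199 8 (.d k138 k142 k207 1 10)))))) .n)) .n))) (.c k44 (.l (.s k46 k14 3 (.s k4 k8 1 (.s k93 k174
  12 (.s k89 k81 1 (.d k166 k247 k243 12 14)))))) (.c k46 (.q k44 [(.s k4 k8 1 (.s k93 k174 12 (.s
  k89 k81 1 (.d k166 k247 k243 12 14)))), (.s k65 k130 8 (.s k105 k125 5 (.s k166 k227 10 (.d k4 k8
  k247 1 12)))), (.s k65 k130 8 (.s k73 k134 10 (.s k93 k174 12 (.s k89 k81 1 (.d k105 k121 k125 3
  5)))))] (.c k13 (.l (.s k29 k28 0 (.s k4 k8 1 (.s k65 k130 8 (.s k105 k125 5 (.d k166 k227 k247 10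
  12)))))) (.c k29 (.q k13 [(.s k4 k8 1 (.s k93 k174 12 (.s k89 k81 1 (.d k166 k247 k243 12 14)))),
  (.s k65 k130 8 (.s k105 k125 5 (.s k166 k227 10 (.d k4 k8 k247 1 12)))), (.s k65 k130 8 (.s k73
  k134 10 (.s k93 k174 12 (.s k89 k81 1 (.d k105 k121 k125 3 5)))))] (.c k166 (.l (.s k4 k8 1 (.s
  k130 k65 8 (.s k134 k73 10 (.s k69 k199 8 (.d k138 k142 k207 1 10)))))) .n)) (.c k166 (.l (.s k4
  k8 1 (.s k130 k65 8 (.s k134 k73 10 (.s k69 k199 8 (.d k138 k142 k207 1 10)))))) .n)))) .n)))))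
  (.c k62 (.q k61 [(.s k4 k8 1 (.s k93 k174 12 (.s k89 k81 1 (.d k166 k247 k243 12 14)))), (.s k8 k4
  1 (.s k65 k130 8 (.s k73 k134 10 (.s k69 k77 1 (.d k138 k203 k207 8 10))))), (.s k28 k29 0 (.s k93
  k174 12 (.s k89 k81 1 (.s k150 k211 10 (.d k215 k235 k20 5 8)))))] (.c k44 (.q k46 [(.s k4 k8 1
  (.s k93 k174 12 (.s k89 k81 1 (.d k166 k247 k243 12 14)))), (.s k8 k4 1 (.s k65 k130 8 (.s k73
  k134 10 (.s k69 k77 1 (.d k138 k203 k207 8 10))))), (.s k28 k29 0 (.s k93 k174 12 (.s k89 k81 1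
  (.s k150 k211 10 (.d k215 k235 k20 5 8)))))] .n) (.c k46 (.q k44 [(.s k4 k8 1 (.s k65 k130 8 (.s
  k105 k125 5 (.d k166 k227 k247 10 12)))), (.s k28 k29 0 (.s k93 k174 12 (.s k89 k81 1 (.s k150
  k211 10 (.d k215 k235 k20 5 8))))), (.s k4 k8 1 (.s k130 k65 8 (.s k134 k73 10 (.s k69 k199 8 (.d
  k138 k142 k207 1 10)))))] (.c k89 (.l (.s k65 k130 8 (.s k105 k125 5 (.s k166 k227 10 (.d k4 k8
  k247 1 12))))) .n)) .n))) .n))))) (.c k61 (.q k62 [(.s k4 k8 1 (.s k93 k174 12 (.s k89 k81 1 (.d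
  k166 k247 k243 12 14)))), (.s k14 k46 3 (.s k134 k73 10 (.s k194 k74 9 (.s k150 k106 13 (.d k215
  k235 k20 5 8)))))] (.c k13 (.q k29 [(.s k4 k8 1 (.s k93 k174 12 (.s k89 k81 1 (.d k166 k247 k243
  12 14)))), (.s k14 k46 3 (.s k134 k73 10 (.s k194 k74 9 (.s k150 k106 13 (.d k215 k235 k20 5
  8)))))] (.c k31 (.q k47 [(.s k4 k8 1 (.s k93 k174 12 (.s k89 k81 1 (.d k166 k247 k243 12 14)))),
  (.s k14 k46 3 (.s k134 k73 10 (.s k194 k74 9 (.s k150 k106 13 (.d k215 k235 k20 5 8)))))] (.c k166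
  (.l (.s k4 k8 1 (.s k130 k65 8 (.s k134 k73 10 (.s k69 k199 8 (.d k138 k142 k207 1 10)))))) .n))
  (.c k47 (.l (.s k31 k28 0 (.s k4 k8 1 (.s k93 k174 12 (.s k89 k81 1 (.d k166 k247 k243 12 14))))))
  (.c k166 (.l (.s k4 k8 1 (.s k130 k65 8 (.s k134 k73 10 (.s k69 k199 8 (.d k138 k142 k207 1
  10)))))) .n)))) (.c k29 (.q k13 [(.s k4 k8 1 (.s k93 k174 12 (.s k89 k81 1 (.d k166 k247 k243 12
  14)))), (.s k14 k46 3 (.s k134 k73 10 (.s k194 k74 9 (.s k150 k106 13 (.d k215 k235 k20 5 8)))))]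
  (.c k31 (.q k47 [(.s k4 k8 1 (.s k93 k174 12 (.s k89 k81 1 (.d k166 k247 k243 12 14)))), (.s k14
  k46 3 (.s k134 k73 10 (.s k194 k74 9 (.s k150 k106 13 (.d k215 k235 k20 5 8)))))] (.c k166 (.l (.s
  k4 k8 1 (.s k130 k65 8 (.s k134 k73 10 (.s k69 k199 8 (.d k138 k142 k207 1 10)))))) .n)) (.c k47
  (.q k31 [(.s k4 k8 1 (.s k93 k174 12 (.s k89 k81 1 (.d k166 k247 k243 12 14)))), (.s k8 k4 1 (.s
  k65 k130 8 (.s k73 k134 10 (.s k69 k77 1 (.d k138 k203 k207 8 10))))), (.s k65 k130 8 (.s k73 k134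
  10 (.s k93 k174 12 (.s k89 k81 1 (.d k105 k121 k125 3 5)))))] (.c k44 (.l (.s k46 k14 3 (.s k4 k8
  1 (.s k93 k174 12 (.s k89 k81 1 (.d k166 k247 k243 12 14)))))) (.c k46 (.q k44 [(.s k4 k8 1 (.s
  k93 k174 12 (.s k89 k81 1 (.d k166 k247 k243 12 14)))), (.s k65 k130 8 (.s k105 k125 5 (.s k166
  k227 10 (.d k4 k8 k247 1 12)))), (.s k65 k130 8 (.s k73 k134 10 (.s k93 k174 12 (.s k89 k81 1 (.d
  k105 k121 k125 3 5)))))] (.c k166 (.l (.s k4 k8 1 (.s k130 k65 8 (.s k134 k73 10 (.s k69 k199 8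
  (.d k138 k142 k207 1 10)))))) .n)) .n))) (.c k166 (.l (.s k4 k8 1 (.s k130 k65 8 (.s k134 k73 10
  (.s k69 k199 8 (.d k138 k142 k207 1 10)))))) .n)))) (.c k31 (.q k47 [(.s k4 k8 1 (.s k93 k174 12
  (.s k89 k81 1 (.d k166 k247 k243 12 14)))), (.s k14 k46 3 (.s k134 k73 10 (.s k194 k74 9 (.s k150
  k106 13 (.d k215 k235 k20 5 8)))))] (.c k13 (.q k29 [(.s k4 k8 1 (.s k93 k174 12 (.s k89 k81 1 (.d
  k166 k247 k243 12 14)))), (.s k14 k46 3 (.s k134 k73 10 (.s k194 k74 9 (.s k150 k106 13 (.d k215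
  k235 k20 5 8)))))] (.c k166 (.l (.s k4 k8 1 (.s k130 k65 8 (.s k134 k73 10 (.s k69 k199 8 (.d k138
  k142 k207 1 10)))))) .n)) (.c k29 (.q k13 [(.s k4 k8 1 (.s k93 k174 12 (.s k89 k81 1 (.d k166 k247
  k243 12 14)))), (.s k14 k46 3 (.s k134 k73 10 (.s k194 k74 9 (.s k150 k106 13 (.d k215 k235 k20 5
  8)))))] (.c k166 (.l (.s k4 k8 1 (.s k130 k65 8 (.s k134 k73 10 (.s k69 k199 8 (.d k138 k142 k207
  1 10)))))) .n)) (.c k166 (.l (.s k4 k8 1 (.s k130 k65 8 (.s k134 k73 10 (.s k69 k199 8 (.d k138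
  k142 k207 1 10)))))) .n)))) (.c k47 (.q k31 [(.s k4 k8 1 (.s k93 k174 12 (.s k89 k81 1 (.d k166
  k247 k243 12 14)))), (.s k8 k4 1 (.s k65 k130 8 (.s k73 k134 10 (.s k69 k77 1 (.d k138 k203 k207 8
  10))))), (.s k65 k130 8 (.s k73 k134 10 (.s k93 k174 12 (.s k89 k81 1 (.d k105 k121 k125 3 5)))))]
  (.c k13 (.l (.s k29 k28 0 (.s k4 k8 1 (.s k93 k174 12 (.s k89 k81 1 (.d k166 k247 k243 12 14))))))
  (.c k29 (.q k13 [(.s k4 k8 1 (.s k93 k174 12 (.s k89 k81 1 (.d k166 k247 k243 12 14)))), (.s k8 k4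
  1 (.s k65 k130 8 (.s k73 k134 10 (.s k69 k77 1 (.d k138 k203 k207 8 10))))), (.s k65 k130 8 (.s
  k73 k134 10 (.s k93 k174 12 (.s k89 k81 1 (.d k105 k121 k125 3 5)))))] (.c k44 (.l (.s k46 k14 3
  (.s k4 k8 1 (.s k93 k174 12 (.s k89 k81 1 (.d k166 k247 k243 12 14)))))) (.c k46 (.q k44 [(.s k4
  k8 1 (.s k93 k174 12 (.s k89 k81 1 (.d k166 k247 k243 12 14)))), (.s k65 k130 8 (.s k105 k125 5
  (.s k166 k227 10 (.d k4 k8 k247 1 12)))), (.s k65 k130 8 (.s k73 k134 10 (.s k93 k174 12 (.s k89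
  k81 1 (.d k105 k121 k125 3 5)))))] (.c k166 (.l (.s k4 k8 1 (.s k130 k65 8 (.s k134 k73 10 (.s k69
  k199 8 (.d k138 k142 k207 1 10)))))) .n)) .n))) (.c k44 (.l (.s k46 k14 3 (.s k4 k8 1 (.s k93 k174
  12 (.s k89 k81 1 (.d k166 k247 k243 12 14)))))) (.c k46 (.q k44 [(.s k4 k8 1 (.s k93 k174 12 (.s
  k89 k81 1 (.d k166 k247 k243 12 14)))), (.s k65 k130 8 (.s k105 k125 5 (.s k166 k227 10 (.d k4 k8
  k247 1 12)))), (.s k65 k130 8 (.s k73 k134 10 (.s k93 k174 12 (.s k89 k81 1 (.d k105 k121 k125 3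
  5)))))] (.c k13 (.l (.s k29 k28 0 (.s k4 k8 1 (.s k65 k130 8 (.s k105 k125 5 (.d k166 k227 k247 10
  12)))))) (.c k29 (.q k13 [(.s k4 k8 1 (.s k93 k174 12 (.s k89 k81 1 (.d k166 k247 k243 12 14)))),
  (.s k65 k130 8 (.s k105 k125 5 (.s k166 k227 10 (.d k4 k8 k247 1 12)))), (.s k65 k130 8 (.s k73
  k134 10 (.s k93 k174 12 (.s k89 k81 1 (.d k105 k121 k125 3 5)))))] (.c k166 (.l (.s k4 k8 1 (.s
  k130 k65 8 (.s k134 k73 10 (.s k69 k199 8 (.d k138 k142 k207 1 10)))))) .n)) (.c k166 (.l (.s k4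
  k8 1 (.s k130 k65 8 (.s k134 k73 10 (.s k69 k199 8 (.d k138 k142 k207 1 10)))))) .n)))) .n)))))
  (.c k166 (.l (.s k4 k8 1 (.s k130 k65 8 (.s k134 k73 10 (.s k69 k199 8 (.d k138 k142 k207 1
  10)))))) .n)))))) (.c k62 (.q k61 [(.s k4 k8 1 (.s k93 k174 12 (.s k89 k81 1 (.d k166 k247 k243 12
  14)))), (.s k8 k4 1 (.s k65 k130 8 (.s k73 k134 10 (.s k69 k77 1 (.d k138 k203 k207 8 10))))), (.s
  k65 k130 8 (.s k73 k134 10 (.s k93 k174 12 (.s k89 k81 1 (.d k105 k121 k125 3 5)))))] (.c k31 (.q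
  k47 [(.s k4 k8 1 (.s k93 k174 12 (.s k89 k81 1 (.d k166 k247 k243 12 14)))), (.s k8 k4 1 (.s k65
  k130 8 (.s k73 k134 10 (.s k69 k77 1 (.d k138 k203 k207 8 10))))), (.s k65 k130 8 (.s k73 k134 10
  (.s k93 k174 12 (.s k89 k81 1 (.d k105 k121 k125 3 5)))))] .n) (.c k47 (.q k31 [(.s k4 k8 1 (.s
  k93 k174 12 (.s k89 k81 1 (.d k166 k247 k243 12 14)))), (.s k8 k4 1 (.s k65 k130 8 (.s k73 k134 10
  (.s k69 k77 1 (.d k138 k203 k207 8 10))))), (.s k28 k29 0 (.s k93 k174 12 (.s k89 k81 1 (.s k150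
  k211 10 (.d k215 k235 k20 5 8)))))] (.c k44 (.q k46 [(.s k4 k8 1 (.s k93 k174 12 (.s k89 k81 1 (.d
  k166 k247 k243 12 14)))), (.s k8 k4 1 (.s k65 k130 8 (.s k73 k134 10 (.s k69 k77 1 (.d k138 k203
  k207 8 10))))), (.s k28 k29 0 (.s k93 k174 12 (.s k89 k81 1 (.s k150 k211 10 (.d k215 k235 k20 5
  8)))))] .n) (.c k46 (.q k44 [(.s k4 k8 1 (.s k65 k130 8 (.s k105 k125 5 (.d k166 k227 k247 10
  12)))), (.s k28 k29 0 (.s k93 k174 12 (.s k89 k81 1 (.s k150 k211 10 (.d k215 k235 k20 5 8))))),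
  (.s k4 k8 1 (.s k130 k65 8 (.s k134 k73 10 (.s k69 k199 8 (.d k138 k142 k207 1 10)))))] (.c k89
  (.l (.s k65 k130 8 (.s k105 k125 5 (.s k166 k227 10 (.d k4 k8 k247 1 12))))) .n)) .n))) .n)))
  .n))))) (.c k47 (.q k31 [(.s k4 k8 1 (.s k93 k174 12 (.s k89 k81 1 (.d k166 k247 k243 12 14)))),
  (.s k8 k4 1 (.s k65 k130 8 (.s k73 k134 10 (.s k69 k77 1 (.d k138 k203 k207 8 10))))), (.s k65
  k130 8 (.s k73 k134 10 (.s k93 k174 12 (.s k89 k81 1 (.d k105 k121 k125 3 5)))))] (.c k30 (.q k45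
  [(.s k4 k8 1 (.s k93 k174 12 (.s k89 k81 1 (.d k166 k247 k243 12 14)))), (.s k8 k4 1 (.s k65 k130
  8 (.s k73 k134 10 (.s k69 k77 1 (.d k138 k203 k207 8 10))))), (.s k65 k130 8 (.s k73 k134 10 (.s
  k93 k174 12 (.s k89 k81 1 (.d k105 k121 k125 3 5)))))] (.c k61 (.q k62 [(.s k4 k8 1 (.s k93 k174
  12 (.s k89 k81 1 (.d k166 k247 k243 12 14)))), (.s k8 k4 1 (.s k65 k130 8 (.s k73 k134 10 (.s k69
  k77 1 (.d k138 k203 k207 8 10))))), (.s k65 k130 8 (.s k73 k134 10 (.s k93 k174 12 (.s k89 k81 1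
  (.d k105 k121 k125 3 5)))))] .n) (.c k62 (.q k61 [(.s k4 k8 1 (.s k93 k174 12 (.s k89 k81 1 (.d
  k166 k247 k243 12 14)))), (.s k13 k29 3 (.s k65 k130 8 (.s k73 k134 10 (.s k105 k125 5 (.d k193
  k133 k149 9 13)))))] (.c k14 (.q k46 [(.s k4 k8 1 (.s k93 k174 12 (.s k89 k81 1 (.d k166 k247 k243
  12 14)))), (.s k13 k29 3 (.s k65 k130 8 (.s k73 k134 10 (.s k105 k125 5 (.d k193 k133 k149 9
  13)))))] .n) (.c k46 (.q k14 [(.s k4 k8 1 (.s k93 k174 12 (.s k89 k81 1 (.d k166 k247 k243 12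
  14)))), (.s k13 k29 3 (.s k65 k130 8 (.s k73 k134 10 (.s k105 k125 5 (.d k193 k133 k149 9 13)))))]
  .n) .n))) .n))) (.c k45 (.q k30 [(.s k4 k8 1 (.s k93 k174 12 (.s k89 k81 1 (.d k166 k247 k243 12
  14)))), (.s k8 k4 1 (.s k65 k130 8 (.s k73 k134 10 (.s k69 k77 1 (.d k138 k203 k207 8 10))))), (.s
  k28 k29 0 (.s k93 k174 12 (.s k89 k81 1 (.s k150 k211 10 (.d k215 k235 k20 5 8)))))] (.c k44 (.q
  k46 [(.s k4 k8 1 (.s k93 k174 12 (.s k89 k81 1 (.d k166 k247 k243 12 14)))), (.s k8 k4 1 (.s k65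
  k130 8 (.s k73 k134 10 (.s k69 k77 1 (.d k138 k203 k207 8 10))))), (.s k28 k29 0 (.s k93 k174 12
  (.s k89 k81 1 (.s k150 k211 10 (.d k215 k235 k20 5 8)))))] (.c k61 (.l (.s k62 k14 3 (.s k4 k8 1
  (.s k93 k174 12 (.s k89 k81 1 (.d k166 k247 k243 12 14)))))) (.c k62 (.q k61 [(.s k4 k8 1 (.s k93
  k174 12 (.s k89 k81 1 (.d k166 k247 k243 12 14)))), (.s k8 k4 1 (.s k65 k130 8 (.s k73 k134 10 (.s
  k69 k77 1 (.d k138 k203 k207 8 10))))), (.s k28 k29 0 (.s k93 k174 12 (.s k89 k81 1 (.s k150 k211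
  10 (.d k215 k235 k20 5 8)))))] .n) .n))) (.c k46 (.q k44 [(.s k4 k8 1 (.s k65 k130 8 (.s k105 k125
  5 (.d k166 k227 k247 10 12)))), (.s k28 k29 0 (.s k93 k174 12 (.s k89 k81 1 (.s k150 k211 10 (.d
  k215 k235 k20 5 8))))), (.s k4 k8 1 (.s k130 k65 8 (.s k134 k73 10 (.s k69 k199 8 (.d k138 k142
  k207 1 10)))))] (.c k61 (.q k62 [(.s k4 k8 1 (.s k93 k174 12 (.s k89 k81 1 (.d k166 k247 k243 12
  14)))), (.s k65 k130 8 (.s k105 k125 5 (.s k166 k227 10 (.d k4 k8 k247 1 12)))), (.s k65 k130 8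
  (.s k73 k134 10 (.s k93 k174 12 (.s k89 k81 1 (.d k105 k121 k125 3 5)))))] (.c k13 (.l (.s k29 k28
  0 (.s k4 k8 1 (.s k65 k130 8 (.s k105 k125 5 (.d k166 k227 k247 10 12)))))) (.c k29 (.q k13 [(.s
  k4 k8 1 (.s k93 k174 12 (.s k89 k81 1 (.d k166 k247 k243 12 14)))), (.s k65 k130 8 (.s k105 k125 5
  (.s k166 k227 10 (.d k4 k8 k247 1 12)))), (.s k65 k130 8 (.s k73 k134 10 (.s k93 k174 12 (.s k89
  k81 1 (.d k105 k121 k125 3 5)))))] (.c k166 (.l (.s k4 k8 1 (.s k130 k65 8 (.s k134 k73 10 (.s k69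
  k199 8 (.d k138 k142 k207 1 10)))))) .n)) (.c k166 (.l (.s k4 k8 1 (.s k130 k65 8 (.s k134 k73 10
  (.s k69 k199 8 (.d k138 k142 k207 1 10)))))) .n)))) (.c k62 (.q k61 [(.s k4 k8 1 (.s k65 k130 8
  (.s k105 k125 5 (.d k166 k227 k247 10 12)))), (.s k28 k29 0 (.s k93 k174 12 (.s k89 k81 1 (.s k150
  k211 10 (.d k215 k235 k20 5 8))))), (.s k4 k8 1 (.s k130 k65 8 (.s k134 k73 10 (.s k69 k199 8 (.d
  k138 k142 k207 1 10)))))] (.c k89 (.l (.s k65 k130 8 (.s k105 k125 5 (.s k166 k227 10 (.d k4 k8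
  k247 1 12))))) .n)) (.c k89 (.l (.s k65 k130 8 (.s k105 k125 5 (.s k166 k227 10 (.d k4 k8 k247 1
  12))))) .n)))) (.c k61 (.q k62 [(.s k4 k8 1 (.s k93 k174 12 (.s k89 k81 1 (.d k166 k247 k243 12
  14)))), (.s k8 k4 1 (.s k65 k130 8 (.s k73 k134 10 (.s k69 k77 1 (.d k138 k203 k207 8 10))))), (.s
  k65 k130 8 (.s k73 k134 10 (.s k93 k174 12 (.s k89 k81 1 (.d k105 k121 k125 3 5)))))] (.c k13 (.l
  (.s k29 k28 0 (.s k4 k8 1 (.s k93 k174 12 (.s k89 k81 1 (.d k166 k247 k243 12 14)))))) (.c k29 (.q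
  k13 [(.s k4 k8 1 (.s k93 k174 12 (.s k89 k81 1 (.d k166 k247 k243 12 14)))), (.s k8 k4 1 (.s k65
  k130 8 (.s k73 k134 10 (.s k69 k77 1 (.d k138 k203 k207 8 10))))), (.s k65 k130 8 (.s k73 k134 10
  (.s k93 k174 12 (.s k89 k81 1 (.d k105 k121 k125 3 5)))))] (.c k44 (.l (.s k46 k14 3 (.s k4 k8 1
  (.s k93 k174 12 (.s k89 k81 1 (.d k166 k247 k243 12 14)))))) (.c k46 (.q k44 [(.s k4 k8 1 (.s k93
  k174 12 (.s k89 k81 1 (.d k166 k247 k243 12 14)))), (.s k65 k130 8 (.s k105 k125 5 (.s k166 k227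
  10 (.d k4 k8 k247 1 12)))), (.s k65 k130 8 (.s k73 k134 10 (.s k93 k174 12 (.s k89 k81 1 (.d k105
  k121 k125 3 5)))))] (.c k166 (.l (.s k4 k8 1 (.s k130 k65 8 (.s k134 k73 10 (.s k69 k199 8 (.d
  k138 k142 k207 1 10)))))) .n)) .n))) (.c k44 (.l (.s k46 k14 3 (.s k4 k8 1 (.s k93 k174 12 (.s k89
  k81 1 (.d k166 k247 k243 12 14)))))) (.c k46 (.q k44 [(.s k4 k8 1 (.s k93 k174 12 (.s k89 k81 1
  (.d k166 k247 k243 12 14)))), (.s k65 k130 8 (.s k105 k125 5 (.s k166 k227 10 (.d k4 k8 k247 1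
  12)))), (.s k65 k130 8 (.s k73 k134 10 (.s k93 k174 12 (.s k89 k81 1 (.d k105 k121 k125 3 5)))))]
  (.c k13 (.l (.s k29 k28 0 (.s k4 k8 1 (.s k65 k130 8 (.s k105 k125 5 (.d k166 k227 k247 10
  12)))))) (.c k29 (.q k13 [(.s k4 k8 1 (.s k93 k174 12 (.s k89 k81 1 (.d k166 k247 k243 12 14)))),
  (.s k65 k130 8 (.s k105 k125 5 (.s k166 k227 10 (.d k4 k8 k247 1 12)))), (.s k65 k130 8 (.s k73
  k134 10 (.s k93 k174 12 (.s k89 k81 1 (.d k105 k121 k125 3 5)))))] (.c k166 (.l (.s k4 k8 1 (.s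
  k130 k65 8 (.s k134 k73 10 (.s k69 k199 8 (.d k138 k142 k207 1 10)))))) .n)) (.c k166 (.l (.s k4
  k8 1 (.s k130 k65 8 (.s k134 k73 10 (.s k69 k199 8 (.d k138 k142 k207 1 10)))))) .n)))) .n)))))
  (.c k62 (.q k61 [(.s k4 k8 1 (.s k93 k174 12 (.s k89 k81 1 (.d k166 k247 k243 12 14)))), (.s k8 k4
  1 (.s k65 k130 8 (.s k73 k134 10 (.s k69 k77 1 (.d k138 k203 k207 8 10))))), (.s k28 k29 0 (.s k93
  k174 12 (.s k89 k81 1 (.s k150 k211 10 (.d k215 k235 k20 5 8)))))] (.c k44 (.q k46 [(.s k4 k8 1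
  (.s k93 k174 12 (.s k89 k81 1 (.d k166 k247 k243 12 14)))), (.s k8 k4 1 (.s k65 k130 8 (.s k73
  k134 10 (.s k69 k77 1 (.d k138 k203 k207 8 10))))), (.s k28 k29 0 (.s k93 k174 12 (.s k89 k81 1
  (.s k150 k211 10 (.d k215 k235 k20 5 8)))))] .n) (.c k46 (.q k44 [(.s k4 k8 1 (.s k65 k130 8 (.s
  k105 k125 5 (.d k166 k227 k247 10 12)))), (.s k28 k29 0 (.s k93 k174 12 (.s k89 k81 1 (.s k150
  k211 10 (.d k215 k235 k20 5 8))))), (.s k4 k8 1 (.s k130 k65 8 (.s k134 k73 10 (.s k69 k199 8 (.d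
  k138 k142 k207 1 10)))))] (.c k89 (.l (.s k65 k130 8 (.s k105 k125 5 (.s k166 k227 10 (.d k4 k8
  k247 1 12))))) .n)) .n))) .n))))) (.c k61 (.q k62 [(.s k4 k8 1 (.s k93 k174 12 (.s k89 k81 1 (.d
  k166 k247 k243 12 14)))), (.s k8 k4 1 (.s k65 k130 8 (.s k73 k134 10 (.s k69 k77 1 (.d k138 k203
  k207 8 10))))), (.s k65 k130 8 (.s k73 k134 10 (.s k93 k174 12 (.s k89 k81 1 (.d k105 k121 k125 3
  5)))))] (.c k30 (.q k45 [(.s k4 k8 1 (.s k93 k174 12 (.s k89 k81 1 (.d k166 k247 k243 12 14)))),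
  (.s k8 k4 1 (.s k65 k130 8 (.s k73 k134 10 (.s k69 k77 1 (.d k138 k203 k207 8 10))))), (.s k65
  k130 8 (.s k73 k134 10 (.s k93 k174 12 (.s k89 k81 1 (.d k105 k121 k125 3 5)))))] .n) (.c k45 (.q
  k30 [(.s k4 k8 1 (.s k93 k174 12 (.s k89 k81 1 (.d k166 k247 k243 12 14)))), (.s k8 k4 1 (.s k65
  k130 8 (.s k73 k134 10 (.s k69 k77 1 (.d k138 k203 k207 8 10))))), (.s k65 k130 8 (.s k73 k134 10
  (.s k93 k174 12 (.s k89 k81 1 (.d k105 k121 k125 3 5)))))] (.c k13 (.l (.s k29 k28 0 (.s k4 k8 1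
  (.s k93 k174 12 (.s k89 k81 1 (.d k166 k247 k243 12 14)))))) (.c k29 (.q k13 [(.s k4 k8 1 (.s k93
  k174 12 (.s k89 k81 1 (.d k166 k247 k243 12 14)))), (.s k8 k4 1 (.s k65 k130 8 (.s k73 k134 10 (.s
  k69 k77 1 (.d k138 k203 k207 8 10))))), (.s k65 k130 8 (.s k73 k134 10 (.s k93 k174 12 (.s k89 k81
  1 (.d k105 k121 k125 3 5)))))] (.c k44 (.l (.s k46 k14 3 (.s k4 k8 1 (.s k93 k174 12 (.s k89 k81 1
  (.d k166 k247 k243 12 14)))))) (.c k46 (.q k44 [(.s k4 k8 1 (.s k93 k174 12 (.s k89 k81 1 (.d k166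
  k247 k243 12 14)))), (.s k65 k130 8 (.s k105 k125 5 (.s k166 k227 10 (.d k4 k8 k247 1 12)))), (.s
  k65 k130 8 (.s k73 k134 10 (.s k93 k174 12 (.s k89 k81 1 (.d k105 k121 k125 3 5)))))] (.c k166 (.l
  (.s k4 k8 1 (.s k130 k65 8 (.s k134 k73 10 (.s k69 k199 8 (.d k138 k142 k207 1 10)))))) .n)) .n)))
  (.c k44 (.l (.s k46 k14 3 (.s k4 k8 1 (.s k93 k174 12 (.s k89 k81 1 (.d k166 k247 k243 12 14))))))
  (.c k46 (.q k44 [(.s k4 k8 1 (.s k93 k174 12 (.s k89 k81 1 (.d k166 k247 k243 12 14)))), (.s k65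
  k130 8 (.s k105 k125 5 (.s k166 k227 10 (.d k4 k8 k247 1 12)))), (.s k65 k130 8 (.s k73 k134 10
  (.s k93 k174 12 (.s k89 k81 1 (.d k105 k121 k125 3 5)))))] (.c k13 (.l (.s k29 k28 0 (.s k4 k8 1
  (.s k65 k130 8 (.s k105 k125 5 (.d k166 k227 k247 10 12)))))) (.c k29 (.q k13 [(.s k4 k8 1 (.s k93
  k174 12 (.s k89 k81 1 (.d k166 k247 k243 12 14)))), (.s k65 k130 8 (.s k105 k125 5 (.s k166 k227
  10 (.d k4 k8 k247 1 12)))), (.s k65 k130 8 (.s k73 k134 10 (.s k93 k174 12 (.s k89 k81 1 (.d k105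
  k121 k125 3 5)))))] (.c k166 (.l (.s k4 k8 1 (.s k130 k65 8 (.s k134 k73 10 (.s k69 k199 8 (.d
  k138 k142 k207 1 10)))))) .n)) (.c k166 (.l (.s k4 k8 1 (.s k130 k65 8 (.s k134 k73 10 (.s k69
  k199 8 (.d k138 k142 k207 1 10)))))) .n)))) .n))))) .n))) (.c k62 (.q k61 [(.s k4 k8 1 (.s k93
  k174 12 (.s k89 k81 1 (.d k166 k247 k243 12 14)))), (.s k8 k4 1 (.s k65 k130 8 (.s k73 k134 10 (.s
  k69 k77 1 (.d k138 k203 k207 8 10))))), (.s k65 k130 8 (.s k73 k134 10 (.s k93 k174 12 (.s k89 k81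
  1 (.d k105 k121 k125 3 5)))))] (.c k30 (.q k45 [(.s k4 k8 1 (.s k93 k174 12 (.s k89 k81 1 (.d k166
  k247 k243 12 14)))), (.s k13 k29 3 (.s k65 k130 8 (.s k73 k134 10 (.s k105 k125 5 (.d k193 k133
  k149 9 13)))))] (.c k14 (.q k46 [(.s k4 k8 1 (.s k93 k174 12 (.s k89 k81 1 (.d k166 k247 k243 12
  14)))), (.s k13 k29 3 (.s k65 k130 8 (.s k73 k134 10 (.s k105 k125 5 (.d k193 k133 k149 9 13)))))]
  .n) (.c k46 (.q k14 [(.s k4 k8 1 (.s k93 k174 12 (.s k89 k81 1 (.d k166 k247 k243 12 14)))), (.s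
  k13 k29 3 (.s k65 k130 8 (.s k73 k134 10 (.s k105 k125 5 (.d k193 k133 k149 9 13)))))] .n) .n)))
  (.c k45 (.q k30 [(.s k4 k8 1 (.s k93 k174 12 (.s k89 k81 1 (.d k166 k247 k243 12 14)))), (.s k8 k4
  1 (.s k65 k130 8 (.s k73 k134 10 (.s k69 k77 1 (.d k138 k203 k207 8 10))))), (.s k28 k29 0 (.s k93
  k174 12 (.s k89 k81 1 (.s k150 k211 10 (.d k215 k235 k20 5 8)))))] (.c k44 (.q k46 [(.s k4 k8 1
  (.s k93 k174 12 (.s k89 k81 1 (.d k166 k247 k243 12 14)))), (.s k8 k4 1 (.s k65 k130 8 (.s k73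
  k134 10 (.s k69 k77 1 (.d k138 k203 k207 8 10))))), (.s k28 k29 0 (.s k93 k174 12 (.s k89 k81 1
  (.s k150 k211 10 (.d k215 k235 k20 5 8)))))] .n) (.c k46 (.q k44 [(.s k4 k8 1 (.s k65 k130 8 (.s
  k105 k125 5 (.d k166 k227 k247 10 12)))), (.s k28 k29 0 (.s k93 k174 12 (.s k89 k81 1 (.s k150
  k211 10 (.d k215 k235 k20 5 8))))), (.s k4 k8 1 (.s k130 k65 8 (.s k134 k73 10 (.s k69 k199 8 (.d
  k138 k142 k207 1 10)))))] (.c k89 (.l (.s k65 k130 8 (.s k105 k125 5 (.s k166 k227 10 (.d k4 k8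
  k247 1 12))))) .n)) .n))) .n))) .n))))) (.c k61 (.q k62 [(.s k4 k8 1 (.s k93 k174 12 (.s k89 k81 1
  (.d k166 k247 k243 12 14)))), (.s k8 k4 1 (.s k65 k130 8 (.s k73 k134 10 (.s k69 k77 1 (.d k138
  k203 k207 8 10))))), (.s k65 k130 8 (.s k73 k134 10 (.s k93 k174 12 (.s k89 k81 1 (.d k105 k121
  k125 3 5)))))] (.c k30 (.q k45 [(.s k4 k8 1 (.s k93 k174 12 (.s k89 k81 1 (.d k166 k247 k243 12
  14)))), (.s k8 k4 1 (.s k65 k130 8 (.s k73 k134 10 (.s k69 k77 1 (.d k138 k203 k207 8 10))))), (.s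
  k65 k130 8 (.s k73 k134 10 (.s k93 k174 12 (.s k89 k81 1 (.d k105 k121 k125 3 5)))))] (.c k31 (.q
  k47 [(.s k4 k8 1 (.s k93 k174 12 (.s k89 k81 1 (.d k166 k247 k243 12 14)))), (.s k8 k4 1 (.s k65
  k130 8 (.s k73 k134 10 (.s k69 k77 1 (.d k138 k203 k207 8 10))))), (.s k65 k130 8 (.s k73 k134 10
  (.s k93 k174 12 (.s k89 k81 1 (.d k105 k121 k125 3 5)))))] (.c k28 (.q k29 [(.s k4 k8 1 (.s k93
  k174 12 (.s k89 k81 1 (.d k166 k247 k243 12 14)))), (.s k8 k4 1 (.s k65 k130 8 (.s k73 k134 10 (.s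
  k69 k77 1 (.d k138 k203 k207 8 10))))), (.s k65 k130 8 (.s k73 k134 10 (.s k93 k174 12 (.s k89 k81
  1 (.d k105 k121 k125 3 5)))))] .n) (.c k29 (.q k28 [(.s k4 k8 1 (.s k93 k174 12 (.s k89 k81 1 (.d
  k166 k247 k243 12 14)))), (.s k8 k4 1 (.s k65 k130 8 (.s k73 k134 10 (.s k69 k77 1 (.d k138 k203
  k207 8 10))))), (.s k93 k174 12 (.s k89 k81 1 (.s k150 k211 10 (.d k215 k235 k20 5 8))))] .n)
  .n))) (.c k47 (.q k31 [(.s k4 k8 1 (.s k93 k174 12 (.s k89 k81 1 (.d k166 k247 k243 12 14)))), (.s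
  k8 k4 1 (.s k65 k130 8 (.s k73 k134 10 (.s k69 k77 1 (.d k138 k203 k207 8 10))))), (.s k65 k130 8
  (.s k73 k134 10 (.s k93 k174 12 (.s k89 k81 1 (.d k105 k121 k125 3 5)))))] .n) .n))) (.c k31 (.q
  k47 [(.s k4 k8 1 (.s k93 k174 12 (.s k89 k81 1 (.d k166 k247 k243 12 14)))), (.s k8 k4 1 (.s k65
  k130 8 (.s k73 k134 10 (.s k69 k77 1 (.d k138 k203 k207 8 10))))), (.s k65 k130 8 (.s k73 k134 10
  (.s k93 k174 12 (.s k89 k81 1 (.d k105 k121 k125 3 5)))))] (.c k30 (.q k45 [(.s k4 k8 1 (.s k93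
  k174 12 (.s k89 k81 1 (.d k166 k247 k243 12 14)))), (.s k8 k4 1 (.s k65 k130 8 (.s k73 k134 10 (.s
  k69 k77 1 (.d k138 k203 k207 8 10))))), (.s k65 k130 8 (.s k73 k134 10 (.s k93 k174 12 (.s k89 k81
  1 (.d k105 k121 k125 3 5)))))] (.c k28 (.q k29 [(.s k4 k8 1 (.s k93 k174 12 (.s k89 k81 1 (.d k166
  k247 k243 12 14)))), (.s k8 k4 1 (.s k65 k130 8 (.s k73 k134 10 (.s k69 k77 1 (.d k138 k203 k207 8
  10))))), (.s k65 k130 8 (.s k73 k134 10 (.s k93 k174 12 (.s k89 k81 1 (.d k105 k121 k125 3 5)))))]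
  .n) (.c k29 (.q k28 [(.s k4 k8 1 (.s k93 k174 12 (.s k89 k81 1 (.d k166 k247 k243 12 14)))), (.s
  k8 k4 1 (.s k65 k130 8 (.s k73 k134 10 (.s k69 k77 1 (.d k138 k203 k207 8 10))))), (.s k93 k174 12
  (.s k89 k81 1 (.s k150 k211 10 (.d k215 k235 k20 5 8))))] .n) .n))) (.c k45 (.q k30 [(.s k4 k8 1
  (.s k93 k174 12 (.s k89 k81 1 (.d k166 k247 k243 12 14)))), (.s k14 k46 3 (.s k134 k73 10 (.s k194
  k74 9 (.s k150 k106 13 (.d k215 k235 k20 5 8)))))] (.c k13 (.q k29 [(.s k4 k8 1 (.s k93 k174 12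
  (.s k89 k81 1 (.d k166 k247 k243 12 14)))), (.s k14 k46 3 (.s k134 k73 10 (.s k194 k74 9 (.s k150
  k106 13 (.d k215 k235 k20 5 8)))))] (.c k166 (.l (.s k4 k8 1 (.s k130 k65 8 (.s k134 k73 10 (.s
  k69 k199 8 (.d k138 k142 k207 1 10)))))) .n)) (.c k29 (.q k13 [(.s k4 k8 1 (.s k93 k174 12 (.s k89
  k81 1 (.d k166 k247 k243 12 14)))), (.s k14 k46 3 (.s k134 k73 10 (.s k194 k74 9 (.s k150 k106 13
  (.d k215 k235 k20 5 8)))))] (.c k166 (.l (.s k4 k8 1 (.s k130 k65 8 (.s k134 k73 10 (.s k69 k199 8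
  (.d k138 k142 k207 1 10)))))) .n)) (.c k166 (.l (.s k4 k8 1 (.s k130 k65 8 (.s k134 k73 10 (.s k69
  k199 8 (.d k138 k142 k207 1 10)))))) .n)))) .n))) (.c k45 (.q k30 [(.s k4 k8 1 (.s k93 k174 12 (.s
  k89 k81 1 (.d k166 k247 k243 12 14)))), (.s k14 k46 3 (.s k134 k73 10 (.s k194 k74 9 (.s k150 k106
  13 (.d k215 k235 k20 5 8)))))] (.c k13 (.q k29 [(.s k4 k8 1 (.s k93 k174 12 (.s k89 k81 1 (.d k166
  k247 k243 12 14)))), (.s k14 k46 3 (.s k134 k73 10 (.s k194 k74 9 (.s k150 k106 13 (.d k215 k235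
  k20 5 8)))))] (.c k31 (.q k47 [(.s k4 k8 1 (.s k93 k174 12 (.s k89 k81 1 (.d k166 k247 k243 12
  14)))), (.s k14 k46 3 (.s k134 k73 10 (.s k194 k74 9 (.s k150 k106 13 (.d k215 k235 k20 5 8)))))]
  (.c k166 (.l (.s k4 k8 1 (.s k130 k65 8 (.s k134 k73 10 (.s k69 k199 8 (.d k138 k142 k207 1
  10)))))) .n)) (.c k47 (.l (.s k31 k28 0 (.s k4 k8 1 (.s k93 k174 12 (.s k89 k81 1 (.d k166 k247
  k243 12 14)))))) (.c k166 (.l (.s k4 k8 1 (.s k130 k65 8 (.s k134 k73 10 (.s k69 k199 8 (.d k138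
  k142 k207 1 10)))))) .n)))) (.c k29 (.q k13 [(.s k4 k8 1 (.s k93 k174 12 (.s k89 k81 1 (.d k166
  k247 k243 12 14)))), (.s k14 k46 3 (.s k134 k73 10 (.s k194 k74 9 (.s k150 k106 13 (.d k215 k235
  k20 5 8)))))] (.c k31 (.q k47 [(.s k4 k8 1 (.s k93 k174 12 (.s k89 k81 1 (.d k166 k247 k243 12
  14)))), (.s k14 k46 3 (.s k134 k73 10 (.s k194 k74 9 (.s k150 k106 13 (.d k215 k235 k20 5 8)))))]
  (.c k166 (.l (.s k4 k8 1 (.s k130 k65 8 (.s k134 k73 10 (.s k69 k199 8 (.d k138 k142 k207 1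
  10)))))) .n)) (.c k47 (.q k31 [(.s k4 k8 1 (.s k93 k174 12 (.s k89 k81 1 (.d k166 k247 k243 12
  14)))), (.s k8 k4 1 (.s k65 k130 8 (.s k73 k134 10 (.s k69 k77 1 (.d k138 k203 k207 8 10))))), (.s
  k65 k130 8 (.s k73 k134 10 (.s k93 k174 12 (.s k89 k81 1 (.d k105 k121 k125 3 5)))))] (.c k44 (.l
  (.s k46 k14 3 (.s k4 k8 1 (.s k93 k174 12 (.s k89 k81 1 (.d k166 k247 k243 12 14)))))) (.c k46 (.q
  k44 [(.s k4 k8 1 (.s k93 k174 12 (.s k89 k81 1 (.d k166 k247 k243 12 14)))), (.s k65 k130 8 (.s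
  k105 k125 5 (.s k166 k227 10 (.d k4 k8 k247 1 12)))), (.s k65 k130 8 (.s k73 k134 10 (.s k93 k174
  12 (.s k89 k81 1 (.d k105 k121 k125 3 5)))))] (.c k166 (.l (.s k4 k8 1 (.s k130 k65 8 (.s k134 k73
  10 (.s k69 k199 8 (.d k138 k142 k207 1 10)))))) .n)) .n))) (.c k166 (.l (.s k4 k8 1 (.s k130 k65 8
  (.s k134 k73 10 (.s k69 k199 8 (.d k138 k142 k207 1 10)))))) .n)))) (.c k31 (.q k47 [(.s k4 k8 1
  (.s k93 k174 12 (.s k89 k81 1 (.d k166 k247 k243 12 14)))), (.s k14 k46 3 (.s k134 k73 10 (.s k194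
  k74 9 (.s k150 k106 13 (.d k215 k235 k20 5 8)))))] (.c k13 (.q k29 [(.s k4 k8 1 (.s k93 k174 12
  (.s k89 k81 1 (.d k166 k247 k243 12 14)))), (.s k14 k46 3 (.s k134 k73 10 (.s k194 k74 9 (.s k150
  k106 13 (.d k215 k235 k20 5 8)))))] (.c k166 (.l (.s k4 k8 1 (.s k130 k65 8 (.s k134 k73 10 (.s
  k69 k199 8 (.d k138 k142 k207 1 10)))))) .n)) (.c k29 (.q k13 [(.s k4 k8 1 (.s k93 k174 12 (.s k89
  k81 1 (.d k166 k247 k243 12 14)))), (.s k14 k46 3 (.s k134 k73 10 (.s k194 k74 9 (.s k150 k106 13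
  (.d k215 k235 k20 5 8)))))] (.c k166 (.l (.s k4 k8 1 (.s k130 k65 8 (.s k134 k73 10 (.s k69 k199 8
  (.d k138 k142 k207 1 10)))))) .n)) (.c k166 (.l (.s k4 k8 1 (.s k130 k65 8 (.s k134 k73 10 (.s k69
  k199 8 (.d k138 k142 k207 1 10)))))) .n)))) (.c k47 (.q k31 [(.s k4 k8 1 (.s k93 k174 12 (.s k89
  k81 1 (.d k166 k247 k243 12 14)))), (.s k8 k4 1 (.s k65 k130 8 (.s k73 k134 10 (.s k69 k77 1 (.d
  k138 k203 k207 8 10))))), (.s k65 k130 8 (.s k73 k134 10 (.s k93 k174 12 (.s k89 k81 1 (.d k105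
  k121 k125 3 5)))))] (.c k13 (.l (.s k29 k28 0 (.s k4 k8 1 (.s k93 k174 12 (.s k89 k81 1 (.d k166
  k247 k243 12 14)))))) (.c k29 (.q k13 [(.s k4 k8 1 (.s k93 k174 12 (.s k89 k81 1 (.d k166 k247
  k243 12 14)))), (.s k8 k4 1 (.s k65 k130 8 (.s k73 k134 10 (.s k69 k77 1 (.d k138 k203 k207 8
  10))))), (.s k65 k130 8 (.s k73 k134 10 (.s k93 k174 12 (.s k89 k81 1 (.d k105 k121 k125 3 5)))))]
  (.c k44 (.l (.s k46 k14 3 (.s k4 k8 1 (.s k93 k174 12 (.s k89 k81 1 (.d k166 k247 k243 12 14))))))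
  (.c k46 (.q k44 [(.s k4 k8 1 (.s k93 k174 12 (.s k89 k81 1 (.d k166 k247 k243 12 14)))), (.s k65
  k130 8 (.s k105 k125 5 (.s k166 k227 10 (.d k4 k8 k247 1 12)))), (.s k65 k130 8 (.s k73 k134 10
  (.s k93 k174 12 (.s k89 k81 1 (.d k105 k121 k125 3 5)))))] (.c k166 (.l (.s k4 k8 1 (.s k130 k65 8
  (.s k134 k73 10 (.s k69 k199 8 (.d k138 k142 k207 1 10)))))) .n)) .n))) (.c k44 (.l (.s k46 k14 3
  (.s k4 k8 1 (.s k93 k174 12 (.s k89 k81 1 (.d k166 k247 k243 12 14)))))) (.c k46 (.q k44 [(.s k4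
  k8 1 (.s k93 k174 12 (.s k89 k81 1 (.d k166 k247 k243 12 14)))), (.s k65 k130 8 (.s k105 k125 5
  (.s k166 k227 10 (.d k4 k8 k247 1 12)))), (.s k65 k130 8 (.s k73 k134 10 (.s k93 k174 12 (.s k89
  k81 1 (.d k105 k121 k125 3 5)))))] (.c k13 (.l (.s k29 k28 0 (.s k4 k8 1 (.s k65 k130 8 (.s k105
  k125 5 (.d k166 k227 k247 10 12)))))) (.c k29 (.q k13 [(.s k4 k8 1 (.s k93 k174 12 (.s k89 k81 1
  (.d k166 k247 k243 12 14)))), (.s k65 k130 8 (.s k105 k125 5 (.s k166 k227 10 (.d k4 k8 k247 1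
  12)))), (.s k65 k130 8 (.s k73 k134 10 (.s k93 k174 12 (.s k89 k81 1 (.d k105 k121 k125 3 5)))))]
  (.c k166 (.l (.s k4 k8 1 (.s k130 k65 8 (.s k134 k73 10 (.s k69 k199 8 (.d k138 k142 k207 1
  10)))))) .n)) (.c k166 (.l (.s k4 k8 1 (.s k130 k65 8 (.s k134 k73 10 (.s k69 k199 8 (.d k138 k142
  k207 1 10)))))) .n)))) .n))))) (.c k166 (.l (.s k4 k8 1 (.s k130 k65 8 (.s k134 k73 10 (.s k69
  k199 8 (.d k138 k142 k207 1 10)))))) .n)))))) (.c k47 (.q k31 [(.s k4 k8 1 (.s k93 k174 12 (.s k89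
  k81 1 (.d k166 k247 k243 12 14)))), (.s k8 k4 1 (.s k65 k130 8 (.s k73 k134 10 (.s k69 k77 1 (.d
  k138 k203 k207 8 10))))), (.s k65 k130 8 (.s k73 k134 10 (.s k93 k174 12 (.s k89 k81 1 (.d k105
  k121 k125 3 5)))))] (.c k30 (.q k45 [(.s k4 k8 1 (.s k93 k174 12 (.s k89 k81 1 (.d k166 k247 k243
  12 14)))), (.s k8 k4 1 (.s k65 k130 8 (.s k73 k134 10 (.s k69 k77 1 (.d k138 k203 k207 8 10))))),
  (.s k65 k130 8 (.s k73 k134 10 (.s k93 k174 12 (.s k89 k81 1 (.d k105 k121 k125 3 5)))))] .n) (.c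
  k45 (.q k30 [(.s k4 k8 1 (.s k93 k174 12 (.s k89 k81 1 (.d k166 k247 k243 12 14)))), (.s k8 k4 1
  (.s k65 k130 8 (.s k73 k134 10 (.s k69 k77 1 (.d k138 k203 k207 8 10))))), (.s k65 k130 8 (.s k73
  k134 10 (.s k93 k174 12 (.s k89 k81 1 (.d k105 k121 k125 3 5)))))] (.c k13 (.l (.s k29 k28 0 (.s
  k4 k8 1 (.s k93 k174 12 (.s k89 k81 1 (.d k166 k247 k243 12 14)))))) (.c k29 (.q k13 [(.s k4 k8 1
  (.s k93 k174 12 (.s k89 k81 1 (.d k166 k247 k243 12 14)))), (.s k8 k4 1 (.s k65 k130 8 (.s k73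
  k134 10 (.s k69 k77 1 (.d k138 k203 k207 8 10))))), (.s k65 k130 8 (.s k73 k134 10 (.s k93 k174 12
  (.s k89 k81 1 (.d k105 k121 k125 3 5)))))] (.c k44 (.l (.s k46 k14 3 (.s k4 k8 1 (.s k93 k174 12
  (.s k89 k81 1 (.d k166 k247 k243 12 14)))))) (.c k46 (.q k44 [(.s k4 k8 1 (.s k93 k174 12 (.s k89
  k81 1 (.d k166 k247 k243 12 14)))), (.s k65 k130 8 (.s k105 k125 5 (.s k166 k227 10 (.d k4 k8 k247
  1 12)))), (.s k65 k130 8 (.s k73 k134 10 (.s k93 k174 12 (.s k89 k81 1 (.d k105 k121 k125 3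
  5)))))] (.c k166 (.l (.s k4 k8 1 (.s k130 k65 8 (.s k134 k73 10 (.s k69 k199 8 (.d k138 k142 k207
  1 10)))))) .n)) .n))) (.c k44 (.l (.s k46 k14 3 (.s k4 k8 1 (.s k93 k174 12 (.s k89 k81 1 (.d k166
  k247 k243 12 14)))))) (.c k46 (.q k44 [(.s k4 k8 1 (.s k93 k174 12 (.s k89 k81 1 (.d k166 k247
  k243 12 14)))), (.s k65 k130 8 (.s k105 k125 5 (.s k166 k227 10 (.d k4 k8 k247 1 12)))), (.s k65
  k130 8 (.s k73 k134 10 (.s k93 k174 12 (.s k89 k81 1 (.d k105 k121 k125 3 5)))))] (.c k13 (.l (.s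
  k29 k28 0 (.s k4 k8 1 (.s k65 k130 8 (.s k105 k125 5 (.d k166 k227 k247 10 12)))))) (.c k29 (.q
  k13 [(.s k4 k8 1 (.s k93 k174 12 (.s k89 k81 1 (.d k166 k247 k243 12 14)))), (.s k65 k130 8 (.s
  k105 k125 5 (.s k166 k227 10 (.d k4 k8 k247 1 12)))), (.s k65 k130 8 (.s k73 k134 10 (.s k93 k174
  12 (.s k89 k81 1 (.d k105 k121 k125 3 5)))))] (.c k166 (.l (.s k4 k8 1 (.s k130 k65 8 (.s k134 k73
  10 (.s k69 k199 8 (.d k138 k142 k207 1 10)))))) .n)) (.c k166 (.l (.s k4 k8 1 (.s k130 k65 8 (.s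
  k134 k73 10 (.s k69 k199 8 (.d k138 k142 k207 1 10)))))) .n)))) .n))))) .n))) .n))))) (.c k62 (.q
  k61 [(.s k4 k8 1 (.s k93 k174 12 (.s k89 k81 1 (.d k166 k247 k243 12 14)))), (.s k8 k4 1 (.s k65
  k130 8 (.s k73 k134 10 (.s k69 k77 1 (.d k138 k203 k207 8 10))))), (.s k65 k130 8 (.s k73 k134 10
  (.s k93 k174 12 (.s k89 k81 1 (.d k105 k121 k125 3 5)))))] (.c k30 (.q k45 [(.s k4 k8 1 (.s k93
  k174 12 (.s k89 k81 1 (.d k166 k247 k243 12 14)))), (.s k13 k29 3 (.s k65 k130 8 (.s k73 k134 10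
  (.s k105 k125 5 (.d k193 k133 k149 9 13)))))] (.c k14 (.q k46 [(.s k4 k8 1 (.s k93 k174 12 (.s k89
  k81 1 (.d k166 k247 k243 12 14)))), (.s k13 k29 3 (.s k65 k130 8 (.s k73 k134 10 (.s k105 k125 5
  (.d k193 k133 k149 9 13)))))] (.c k31 (.l (.s k47 k44 0 (.s k4 k8 1 (.s k93 k174 12 (.s k89 k81 1
  (.d k166 k247 k243 12 14)))))) (.c k47 (.q k31 [(.s k4 k8 1 (.s k93 k174 12 (.s k89 k81 1 (.d k166
  k247 k243 12 14)))), (.s k13 k29 3 (.s k65 k130 8 (.s k73 k134 10 (.s k105 k125 5 (.d k193 k133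
  k149 9 13)))))] .n) .n))) (.c k31 (.q k47 [(.s k4 k8 1 (.s k93 k174 12 (.s k89 k81 1 (.d k166 k247
  k243 12 14)))), (.s k8 k4 1 (.s k65 k130 8 (.s k73 k134 10 (.s k69 k77 1 (.d k138 k203 k207 8
  10))))), (.s k65 k130 8 (.s k73 k134 10 (.s k93 k174 12 (.s k89 k81 1 (.d k105 k121 k125 3 5)))))]
  (.c k14 (.l (.s k46 k44 0 (.s k4 k8 1 (.s k93 k174 12 (.s k89 k81 1 (.d k166 k247 k243 12 14))))))
  (.c k28 (.l (.s k29 k13 3 (.s k4 k8 1 (.s k93 k174 12 (.s k89 k81 1 (.d k166 k247 k243 12 14))))))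
  (.c k29 (.q k28 [(.s k4 k8 1 (.s k93 k174 12 (.s k89 k81 1 (.d k166 k247 k243 12 14)))), (.s k8 k4
  1 (.s k65 k130 8 (.s k73 k134 10 (.s k69 k77 1 (.d k138 k203 k207 8 10))))), (.s k93 k174 12 (.s
  k89 k81 1 (.s k150 k211 10 (.d k215 k235 k20 5 8))))] (.c k14 (.l (.s k46 k44 0 (.s k4 k8 1 (.s
  k93 k174 12 (.s k89 k81 1 (.d k166 k247 k243 12 14)))))) (.c k46 (.q k14 [(.s k4 k8 1 (.s k93 k174
  12 (.s k89 k81 1 (.d k166 k247 k243 12 14)))), (.s k8 k4 1 (.s k65 k130 8 (.s k73 k134 10 (.s k69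
  k77 1 (.d k138 k203 k207 8 10))))), (.s k93 k174 12 (.s k89 k81 1 (.s k150 k211 10 (.d k215 k235
  k20 5 8))))] .n) .n))) (.c k46 (.q k14 [(.s k4 k8 1 (.s k93 k174 12 (.s k89 k81 1 (.d k166 k247
  k243 12 14)))), (.s k8 k4 1 (.s k65 k130 8 (.s k73 k134 10 (.s k69 k77 1 (.d k138 k203 k207 8
  10))))), (.s k65 k130 8 (.s k73 k134 10 (.s k93 k174 12 (.s k89 k81 1 (.d k105 k121 k125 3 5)))))]
  (.c k28 (.l (.s k29 k13 3 (.s k4 k8 1 (.s k93 k174 12 (.s k89 k81 1 (.d k166 k247 k243 12 14))))))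
  (.c k29 (.q k28 [(.s k4 k8 1 (.s k93 k174 12 (.s k89 k81 1 (.d k166 k247 k243 12 14)))), (.s k8 k4
  1 (.s k65 k130 8 (.s k73 k134 10 (.s k69 k77 1 (.d k138 k203 k207 8 10))))), (.s k93 k174 12 (.s
  k89 k81 1 (.s k150 k211 10 (.d k215 k235 k20 5 8))))] .n) .n))) .n))))) (.c k46 (.q k14 [(.s k4 k8
  1 (.s k93 k174 12 (.s k89 k81 1 (.d k166 k247 k243 12 14)))), (.s k13 k29 3 (.s k65 k130 8 (.s k73
  k134 10 (.s k105 k125 5 (.d k193 k133 k149 9 13)))))] (.c k31 (.q k47 [(.s k4 k8 1 (.s k93 k174 12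
  (.s k89 k81 1 (.d k166 k247 k243 12 14)))), (.s k8 k4 1 (.s k65 k130 8 (.s k73 k134 10 (.s k69 k77
  1 (.d k138 k203 k207 8 10))))), (.s k65 k130 8 (.s k73 k134 10 (.s k93 k174 12 (.s k89 k81 1 (.d
  k105 k121 k125 3 5)))))] (.c k28 (.l (.s k29 k13 3 (.s k4 k8 1 (.s k93 k174 12 (.s k89 k81 1 (.d
  k166 k247 k243 12 14)))))) (.c k29 (.q k28 [(.s k4 k8 1 (.s k93 k174 12 (.s k89 k81 1 (.d k166
  k247 k243 12 14)))), (.s k8 k4 1 (.s k65 k130 8 (.s k73 k134 10 (.s k69 k77 1 (.d k138 k203 k207 8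
  10))))), (.s k93 k174 12 (.s k89 k81 1 (.s k150 k211 10 (.d k215 k235 k20 5 8))))] .n) .n))) (.c
  k47 (.q k31 [(.s k4 k8 1 (.s k93 k174 12 (.s k89 k81 1 (.d k166 k247 k243 12 14)))), (.s k13 k29 3
  (.s k65 k130 8 (.s k73 k134 10 (.s k105 k125 5 (.d k193 k133 k149 9 13)))))] .n) .n))) (.c k47 (.q
  k31 [(.s k4 k8 1 (.s k93 k174 12 (.s k89 k81 1 (.d k166 k247 k243 12 14)))), (.s k13 k29 3 (.s k65
  k130 8 (.s k73 k134 10 (.s k105 k125 5 (.d k193 k133 k149 9 13)))))] (.c k14 (.q k46 [(.s k4 k8 1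
  (.s k93 k174 12 (.s k89 k81 1 (.d k166 k247 k243 12 14)))), (.s k13 k29 3 (.s k65 k130 8 (.s k73
  k134 10 (.s k105 k125 5 (.d k193 k133 k149 9 13)))))] .n) (.c k46 (.q k14 [(.s k4 k8 1 (.s k93
  k174 12 (.s k89 k81 1 (.d k166 k247 k243 12 14)))), (.s k13 k29 3 (.s k65 k130 8 (.s k73 k134 10
  (.s k105 k125 5 (.d k193 k133 k149 9 13)))))] .n) .n))) .n))))) (.c k31 (.q k47 [(.s k4 k8 1 (.s
  k93 k174 12 (.s k89 k81 1 (.d k166 k247 k243 12 14)))), (.s k8 k4 1 (.s k65 k130 8 (.s k73 k134 10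
  (.s k69 k77 1 (.d k138 k203 k207 8 10))))), (.s k65 k130 8 (.s k73 k134 10 (.s k93 k174 12 (.s k89
  k81 1 (.d k105 k121 k125 3 5)))))] (.c k30 (.q k45 [(.s k4 k8 1 (.s k93 k174 12 (.s k89 k81 1 (.d
  k166 k247 k243 12 14)))), (.s k8 k4 1 (.s k65 k130 8 (.s k73 k134 10 (.s k69 k77 1 (.d k138 k203
  k207 8 10))))), (.s k65 k130 8 (.s k73 k134 10 (.s k93 k174 12 (.s k89 k81 1 (.d k105 k121 k125 3
  5)))))] (.c k14 (.l (.s k46 k44 0 (.s k4 k8 1 (.s k93 k174 12 (.s k89 k81 1 (.d k166 k247 k243 12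
  14)))))) (.c k28 (.l (.s k29 k13 3 (.s k4 k8 1 (.s k93 k174 12 (.s k89 k81 1 (.d k166 k247 k243 12
  14)))))) (.c k29 (.q k28 [(.s k4 k8 1 (.s k93 k174 12 (.s k89 k81 1 (.d k166 k247 k243 12 14)))),
  (.s k8 k4 1 (.s k65 k130 8 (.s k73 k134 10 (.s k69 k77 1 (.d k138 k203 k207 8 10))))), (.s k93
  k174 12 (.s k89 k81 1 (.s k150 k211 10 (.d k215 k235 k20 5 8))))] (.c k14 (.l (.s k46 k44 0 (.s k4
  k8 1 (.s k93 k174 12 (.s k89 k81 1 (.d k166 k247 k243 12 14)))))) (.c k46 (.q k14 [(.s k4 k8 1 (.s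
  k93 k174 12 (.s k89 k81 1 (.d k166 k247 k243 12 14)))), (.s k8 k4 1 (.s k65 k130 8 (.s k73 k134 10
  (.s k69 k77 1 (.d k138 k203 k207 8 10))))), (.s k93 k174 12 (.s k89 k81 1 (.s k150 k211 10 (.d
  k215 k235 k20 5 8))))] .n) .n))) (.c k46 (.q k14 [(.s k4 k8 1 (.s k93 k174 12 (.s k89 k81 1 (.d
  k166 k247 k243 12 14)))), (.s k8 k4 1 (.s k65 k130 8 (.s k73 k134 10 (.s k69 k77 1 (.d k138 k203
  k207 8 10))))), (.s k65 k130 8 (.s k73 k134 10 (.s k93 k174 12 (.s k89 k81 1 (.d k105 k121 k125 3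
  5)))))] (.c k28 (.l (.s k29 k13 3 (.s k4 k8 1 (.s k93 k174 12 (.s k89 k81 1 (.d k166 k247 k243 12
  14)))))) (.c k29 (.q k28 [(.s k4 k8 1 (.s k93 k174 12 (.s k89 k81 1 (.d k166 k247 k243 12 14)))),
  (.s k8 k4 1 (.s k65 k130 8 (.s k73 k134 10 (.s k69 k77 1 (.d k138 k203 k207 8 10))))), (.s k93
  k174 12 (.s k89 k81 1 (.s k150 k211 10 (.d k215 k235 k20 5 8))))] .n) .n))) .n))))) (.c k45 (.q
  k30 [(.s k4 k8 1 (.s k93 k174 12 (.s k89 k81 1 (.d k166 k247 k243 12 14)))), (.s k8 k4 1 (.s k65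
  k130 8 (.s k73 k134 10 (.s k69 k77 1 (.d k138 k203 k207 8 10))))), (.s k65 k130 8 (.s k73 k134 10
  (.s k93 k174 12 (.s k89 k81 1 (.d k105 k121 k125 3 5)))))] .n) .n))) (.c k45 (.q k30 [(.s k4 k8 1
  (.s k93 k174 12 (.s k89 k81 1 (.d k166 k247 k243 12 14)))), (.s k8 k4 1 (.s k65 k130 8 (.s k73
  k134 10 (.s k69 k77 1 (.d k138 k203 k207 8 10))))), (.s k65 k130 8 (.s k73 k134 10 (.s k93 k174 12
  (.s k89 k81 1 (.d k105 k121 k125 3 5)))))] (.c k31 (.q k47 [(.s k4 k8 1 (.s k93 k174 12 (.s k89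
  k81 1 (.d k166 k247 k243 12 14)))), (.s k8 k4 1 (.s k65 k130 8 (.s k73 k134 10 (.s k69 k77 1 (.d
  k138 k203 k207 8 10))))), (.s k65 k130 8 (.s k73 k134 10 (.s k93 k174 12 (.s k89 k81 1 (.d k105
  k121 k125 3 5)))))] .n) (.c k47 (.q k31 [(.s k4 k8 1 (.s k93 k174 12 (.s k89 k81 1 (.d k166 k247
  k243 12 14)))), (.s k8 k4 1 (.s k65 k130 8 (.s k73 k134 10 (.s k69 k77 1 (.d k138 k203 k207 8
  10))))), (.s k28 k29 0 (.s k93 k174 12 (.s k89 k81 1 (.s k150 k211 10 (.d k215 k235 k20 5 8)))))]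
  (.c k44 (.q k46 [(.s k4 k8 1 (.s k93 k174 12 (.s k89 k81 1 (.d k166 k247 k243 12 14)))), (.s k8 k4
  1 (.s k65 k130 8 (.s k73 k134 10 (.s k69 k77 1 (.d k138 k203 k207 8 10))))), (.s k28 k29 0 (.s k93
  k174 12 (.s k89 k81 1 (.s k150 k211 10 (.d k215 k235 k20 5 8)))))] .n) (.c k46 (.q k44 [(.s k4 k8
  1 (.s k65 k130 8 (.s k105 k125 5 (.d k166 k227 k247 10 12)))), (.s k28 k29 0 (.s k93 k174 12 (.s
  k89 k81 1 (.s k150 k211 10 (.d k215 k235 k20 5 8))))), (.s k4 k8 1 (.s k130 k65 8 (.s k134 k73 10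
  (.s k69 k199 8 (.d k138 k142 k207 1 10)))))] (.c k89 (.l (.s k65 k130 8 (.s k105 k125 5 (.s k166
  k227 10 (.d k4 k8 k247 1 12))))) .n)) .n))) .n))) (.c k47 (.q k31 [(.s k4 k8 1 (.s k93 k174 12 (.s
  k89 k81 1 (.d k166 k247 k243 12 14)))), (.s k8 k4 1 (.s k65 k130 8 (.s k73 k134 10 (.s k69 k77 1
  (.d k138 k203 k207 8 10))))), (.s k65 k130 8 (.s k73 k134 10 (.s k93 k174 12 (.s k89 k81 1 (.d
  k105 k121 k125 3 5)))))] (.c k30 (.q k45 [(.s k4 k8 1 (.s k93 k174 12 (.s k89 k81 1 (.d k166 k247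
  k243 12 14)))), (.s k13 k29 3 (.s k65 k130 8 (.s k73 k134 10 (.s k105 k125 5 (.d k193 k133 k149 9
  13)))))] (.c k14 (.q k46 [(.s k4 k8 1 (.s k93 k174 12 (.s k89 k81 1 (.d k166 k247 k243 12 14)))),
  (.s k13 k29 3 (.s k65 k130 8 (.s k73 k134 10 (.s k105 k125 5 (.d k193 k133 k149 9 13)))))] .n) (.c
  k46 (.q k14 [(.s k4 k8 1 (.s k93 k174 12 (.s k89 k81 1 (.d k166 k247 k243 12 14)))), (.s k13 k29 3
  (.s k65 k130 8 (.s k73 k134 10 (.s k105 k125 5 (.d k193 k133 k149 9 13)))))] .n) .n))) (.c k45 (.q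
  k30 [(.s k4 k8 1 (.s k93 k174 12 (.s k89 k81 1 (.d k166 k247 k243 12 14)))), (.s k8 k4 1 (.s k65
  k130 8 (.s k73 k134 10 (.s k69 k77 1 (.d k138 k203 k207 8 10))))), (.s k28 k29 0 (.s k93 k174 12
  (.s k89 k81 1 (.s k150 k211 10 (.d k215 k235 k20 5 8)))))] (.c k44 (.q k46 [(.s k4 k8 1 (.s k93
  k174 12 (.s k89 k81 1 (.d k166 k247 k243 12 14)))), (.s k8 k4 1 (.s k65 k130 8 (.s k73 k134 10 (.s
  k69 k77 1 (.d k138 k203 k207 8 10))))), (.s k28 k29 0 (.s k93 k174 12 (.s k89 k81 1 (.s k150 k211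
  10 (.d k215 k235 k20 5 8)))))] .n) (.c k46 (.q k44 [(.s k4 k8 1 (.s k65 k130 8 (.s k105 k125 5 (.d
  k166 k227 k247 10 12)))), (.s k28 k29 0 (.s k93 k174 12 (.s k89 k81 1 (.s k150 k211 10 (.d k215
  k235 k20 5 8))))), (.s k4 k8 1 (.s k130 k65 8 (.s k134 k73 10 (.s k69 k199 8 (.d k138 k142 k207 1
  10)))))] (.c k89 (.l (.s k65 k130 8 (.s k105 k125 5 (.s k166 k227 10 (.d k4 k8 k247 1 12))))) .n))
  .n))) .n))) .n))))) .n))))))))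

def s15_63_61 : T TT 256 :=
  (.l (.s k65 k130 8 (.s k105 k125 5 (.s k60 k150 14 (.s k40 k20 5 (.d k170 k235 k255 8 14))))))

def s15_63_62 : T TT 256 :=
  (.l (.s k65 k130 8 (.s k105 k125 5 (.s k60 k150 14 (.s k40 k20 5 (.d k170 k235 k255 8 14))))))

def s15_63_64 : T TT 256 :=
  (.l (.s k65 k130 8 (.s k105 k125 5 (.s k60 k150 14 (.s k40 k20 5 (.d k170 k235 k255 8 14))))))

def s15_63_65 : T TT 256 :=
  (.f k255 k170 14 (.f k235 k215 5 (.q k252 [(.s k84 k168 13 (.s k86 k87 0 (.s k253 k254 0 (.d k169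
  k1 k3 13 14)))), (.s k233 k214 6 (.s k234 k232 0 (.s k213 k192 6 (.d k253 k254 k193 0 5)))), (.s
  k84 k168 13 (.s k86 k87 0 (.s k169 k3 14 (.s k214 k233 6 (.s k150 k22 7 (.s k60 k105 14 (.d k188
  k131 k124 6 7)))))))] (.c k31 (.q k47 [(.s k84 k168 13 (.s k86 k87 0 (.s k253 k254 0 (.d k169 k1
  k3 13 14)))), (.s k233 k214 6 (.s k234 k232 0 (.s k213 k192 6 (.d k253 k254 k193 0 5)))), (.s k84
  k168 13 (.s k86 k87 0 (.s k169 k3 14 (.s k214 k233 6 (.s k150 k22 7 (.s k60 k105 14 (.d k188 k131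
  k124 6 7)))))))] .n) (.c k47 (.q k31 [(.s k84 k168 13 (.s k86 k87 0 (.s k253 k254 0 (.d k169 k1 k3
  13 14)))), (.s k233 k214 6 (.s k234 k232 0 (.s k213 k192 6 (.d k253 k254 k193 0 5)))), (.s k84
  k168 13 (.s k86 k87 0 (.s k169 k3 14 (.s k214 k233 6 (.s k150 k22 7 (.s k60 k105 14 (.d k188 k131
  k124 6 7)))))))] .n) .n)))))

def s15_63_66 : T TT 256 :=
  (.l (.s k65 k130 8 (.s k105 k125 5 (.s k60 k150 14 (.s k40 k20 5 (.d k170 k235 k255 8 14))))))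

def s15_63_67 : T TT 256 :=
  (.l (.s k65 k130 8 (.s k105 k125 5 (.s k60 k150 14 (.s k40 k20 5 (.d k170 k235 k255 8 14))))))

def s15_63_68 : T TT 256 :=
  (.l (.s k65 k130 8 (.s k105 k125 5 (.s k60 k150 14 (.s k40 k20 5 (.d k170 k235 k255 8 14))))))

def s15_63_69 : T TT 256 :=
  (.l (.s k65 k130 8 (.s k105 k125 5 (.s k60 k150 14 (.s k40 k20 5 (.d k170 k235 k255 8 14))))))

def s15_63_70 : T TT 256 :=
  (.l (.s k65 k130 8 (.s k105 k125 5 (.s k60 k150 14 (.s k40 k20 5 (.d k170 k235 k255 8 14))))))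

def s15_63_71 : T TT 256 :=
  (.l (.s k65 k130 8 (.s k105 k125 5 (.s k60 k150 14 (.s k40 k20 5 (.d k170 k235 k255 8 14))))))

def s15_63_72 : T TT 256 :=
  (.l (.s k65 k130 8 (.s k105 k125 5 (.s k60 k150 14 (.s k40 k20 5 (.d k170 k235 k255 8 14))))))

def s15_63_73 : T TT 256 :=
  (.l (.s k65 k130 8 (.s k105 k125 5 (.s k60 k150 14 (.s k40 k20 5 (.d k170 k235 k255 8 14))))))

def s15_63_74 : T TT 256 :=
  (.l (.s k65 k130 8 (.s k105 k125 5 (.s k60 k150 14 (.s k40 k20 5 (.d k170 k235 k255 8 14))))))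

def s15_63_75 : T TT 256 :=
  (.l (.s k65 k130 8 (.s k105 k125 5 (.s k60 k150 14 (.s k40 k20 5 (.d k170 k235 k255 8 14))))))

def s15_63_76 : T TT 256 :=
  (.l (.s k65 k130 8 (.s k105 k125 5 (.s k60 k150 14 (.s k40 k20 5 (.d k170 k235 k255 8 14))))))

def s15_63_77 : T TT 256 :=
  (.l (.s k65 k130 8 (.s k105 k125 5 (.s k60 k150 14 (.s k40 k20 5 (.d k170 k235 k255 8 14))))))

def s15_63_78 : T TT 256 :=
  (.l (.s k65 k130 8 (.s k105 k125 5 (.s k60 k150 14 (.s k40 k20 5 (.d k170 k235 k255 8 14))))))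

def s15_63_79 : T TT 256 :=
  (.l (.s k65 k130 8 (.s k105 k125 5 (.s k60 k150 14 (.s k40 k20 5 (.d k170 k235 k255 8 14))))))

def s15_63_80 : T TT 256 :=
  (.l (.s k65 k130 8 (.s k105 k125 5 (.s k60 k150 14 (.s k40 k20 5 (.d k170 k235 k255 8 14))))))

def s15_63_81 : T TT 256 :=
  (.l (.s k65 k130 8 (.s k105 k125 5 (.s k60 k150 14 (.s k40 k20 5 (.d k170 k235 k255 8 14))))))

def s15_63_82 : T TT 256 :=
  (.l (.s k65 k130 8 (.s k105 k125 5 (.s k60 k150 14 (.s k40 k20 5 (.d k170 k235 k255 8 14))))))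

def s15_63_83 : T TT 256 :=
  (.l (.s k65 k130 8 (.s k105 k125 5 (.s k60 k150 14 (.s k40 k20 5 (.d k170 k235 k255 8 14))))))

def s15_63_84 : T TT 256 :=
  (.l (.s k65 k130 8 (.s k105 k125 5 (.s k60 k150 14 (.s k40 k20 5 (.d k170 k235 k255 8 14))))))

def s15_63_86 : T TT 256 :=
  (.l (.s k65 k130 8 (.s k105 k125 5 (.s k60 k150 14 (.s k40 k20 5 (.d k170 k235 k255 8 14))))))

def s15_63_87 : T TT 256 :=
  (.l (.s k65 k130 8 (.s k105 k125 5 (.s k60 k150 14 (.s k40 k20 5 (.d k170 k235 k255 8 14))))))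

def s15_63_88 : T TT 256 :=
  (.l (.s k65 k130 8 (.s k105 k125 5 (.s k60 k150 14 (.s k40 k20 5 (.d k170 k235 k255 8 14))))))

def s15_63_89 : T TT 256 :=
  (.l (.s k65 k130 8 (.s k105 k125 5 (.s k60 k150 14 (.s k40 k20 5 (.d k170 k235 k255 8 14))))))

def s15_63_90 : T TT 256 :=
  (.l (.s k65 k130 8 (.s k105 k125 5 (.s k60 k150 14 (.s k40 k20 5 (.d k170 k235 k255 8 14))))))

def s15_63_91 : T TT 256 :=
  (.l (.s k65 k130 8 (.s k105 k125 5 (.s k60 k150 14 (.s k40 k20 5 (.d k170 k235 k255 8 14))))))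

def s15_63_92 : T TT 256 :=
  (.l (.s k65 k130 8 (.s k105 k125 5 (.s k60 k150 14 (.s k40 k20 5 (.d k170 k235 k255 8 14))))))

def s15_63_93 : T TT 256 :=
  (.l (.s k65 k130 8 (.s k105 k125 5 (.s k60 k150 14 (.s k40 k20 5 (.d k170 k235 k255 8 14))))))

def s15_63_94 : T TT 256 :=
  (.l (.s k65 k130 8 (.s k105 k125 5 (.s k60 k150 14 (.s k40 k20 5 (.d k170 k235 k255 8 14))))))

def s15_63_95 : T TT 256 :=
  (.l (.s k65 k130 8 (.s k105 k125 5 (.s k60 k150 14 (.s k40 k20 5 (.d k170 k235 k255 8 14))))))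

def s15_63_96 : T TT 256 :=
  (.l (.s k65 k130 8 (.s k105 k125 5 (.s k60 k150 14 (.s k40 k20 5 (.d k170 k235 k255 8 14))))))

def s15_63_97 : T TT 256 :=
  (.l (.s k65 k130 8 (.s k105 k125 5 (.s k60 k150 14 (.s k40 k20 5 (.d k170 k235 k255 8 14))))))

def s15_63_98 : T TT 256 :=
  (.l (.s k65 k130 8 (.s k105 k125 5 (.s k60 k150 14 (.s k40 k20 5 (.d k170 k235 k255 8 14))))))

def s15_63_99 : T TT 256 :=
  (.l (.s k65 k130 8 (.s k105 k125 5 (.s k60 k150 14 (.s k40 k20 5 (.d k170 k235 k255 8 14))))))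

def s15_63_100 : T TT 256 :=
  (.l (.s k65 k130 8 (.s k105 k125 5 (.s k60 k150 14 (.s k40 k20 5 (.d k170 k235 k255 8 14))))))

def s15_63_101 : T TT 256 :=
  (.l (.s k65 k130 8 (.s k105 k125 5 (.s k60 k150 14 (.s k40 k20 5 (.d k170 k235 k255 8 14))))))

def s15_63_102 : T TT 256 :=
  (.l (.s k65 k130 8 (.s k105 k125 5 (.s k60 k150 14 (.s k40 k20 5 (.d k170 k235 k255 8 14))))))

def s15_63_103 : T TT 256 :=
  (.l (.s k65 k130 8 (.s k105 k125 5 (.s k60 k150 14 (.s k40 k20 5 (.d k170 k235 k255 8 14))))))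

def s15_63_104 : T TT 256 :=
  (.l (.s k65 k130 8 (.s k105 k125 5 (.s k60 k150 14 (.s k40 k20 5 (.d k170 k235 k255 8 14))))))

def s15_63_105 : T TT 256 :=
  (.f k255 k170 14 (.f k235 k215 5 (.f k130 k65 8 (.q k134 [(.s k73 k12 10 (.s k138 k142 1 (.s k207
  k69 10 (.d k203 k199 k8 1 8)))), (.s k12 k73 10 (.s k93 k174 12 (.s k89 k81 1 (.s k166 k243 14 (.d
  k4 k8 k247 1 12))))), (.s k138 k142 1 (.s k207 k69 10 (.s k203 k199 1 (.s k239 k223 3 (.s k231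
  k227 1 (.d k219 k251 k243 3 5))))))] (.c k31 (.q k47 [(.s k73 k12 10 (.s k138 k142 1 (.s k207 k69
  10 (.d k203 k199 k8 1 8)))), (.s k12 k73 10 (.s k93 k174 12 (.s k89 k81 1 (.s k166 k243 14 (.d k4
  k8 k247 1 12))))), (.s k138 k142 1 (.s k207 k69 10 (.s k203 k199 1 (.s k239 k223 3 (.s k231 k227 1
  (.d k219 k251 k243 3 5))))))] (.c k69 (.l (.s k73 k12 10 (.s k138 k142 1 (.s k203 k8 8 (.s k207
  k199 1 (.s k239 k223 3 (.s k231 k227 1 (.d k219 k251 k243 3 5)))))))) (.c k73 (.l (.s k138 k142 1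
  (.s k69 k207 10 (.s k4 k199 8 (.s k12 k8 1 (.s k93 k174 12 (.s k89 k81 1 (.d k166 k247 k243 12
  14)))))))) (.c k77 (.l (.s k73 k12 10 (.s k138 k142 1 (.s k207 k69 10 (.d k203 k199 k8 1 8)))))
  .n)))) (.c k47 (.q k31 [(.s k73 k12 10 (.s k138 k142 1 (.s k207 k69 10 (.d k203 k199 k8 1 8)))),
  (.s k12 k73 10 (.s k93 k174 12 (.s k89 k81 1 (.s k166 k243 14 (.d k4 k8 k247 1 12))))), (.s k138
  k142 1 (.s k207 k69 10 (.s k203 k199 1 (.s k239 k223 3 (.s k231 k227 1 (.d k219 k251 k243 3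
  5))))))] (.c k69 (.l (.s k73 k12 10 (.s k138 k142 1 (.s k203 k8 8 (.s k207 k199 1 (.s k239 k223 3
  (.s k231 k227 1 (.d k219 k251 k243 3 5)))))))) (.c k73 (.l (.s k138 k142 1 (.s k69 k207 10 (.s k4
  k199 8 (.s k12 k8 1 (.s k93 k174 12 (.s k89 k81 1 (.d k166 k247 k243 12 14)))))))) (.c k77 (.l (.s
  k73 k12 10 (.s k138 k142 1 (.s k207 k69 10 (.d k203 k199 k8 1 8))))) .n)))) (.c k69 (.l (.s k73
  k12 10 (.s k138 k142 1 (.s k203 k8 8 (.s k207 k199 1 (.s k239 k223 3 (.s k231 k227 1 (.d k219 k251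
  k243 3 5)))))))) (.c k73 (.l (.s k138 k142 1 (.s k69 k207 10 (.s k4 k199 8 (.s k12 k8 1 (.s k93
  k174 12 (.s k89 k81 1 (.d k166 k247 k243 12 14)))))))) (.c k77 (.l (.s k73 k12 10 (.s k138 k142 1
  (.s k207 k69 10 (.d k203 k199 k8 1 8))))) .n)))))))))

def s15_63_106 : T TT 256 :=
  (.l (.s k65 k130 8 (.s k105 k125 5 (.s k60 k150 14 (.s k40 k20 5 (.d k170 k235 k255 8 14))))))

def s15_63_107 : T TT 256 :=
  (.l (.s k65 k130 8 (.s k105 k125 5 (.s k60 k150 14 (.s k40 k20 5 (.d k170 k235 k255 8 14))))))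

def s15_63_108 : T TT 256 :=
  (.l (.s k65 k130 8 (.s k105 k125 5 (.s k60 k150 14 (.s k40 k20 5 (.d k170 k235 k255 8 14))))))

def s15_63_109 : T TT 256 :=
  (.l (.s k65 k130 8 (.s k105 k125 5 (.s k60 k150 14 (.s k40 k20 5 (.d k170 k235 k255 8 14))))))

def s15_63_110 : T TT 256 :=
  (.l (.s k65 k130 8 (.s k105 k125 5 (.s k60 k150 14 (.s k40 k20 5 (.d k170 k235 k255 8 14))))))

def s15_63_111 : T TT 256 :=
  (.l (.s k65 k130 8 (.s k105 k125 5 (.s k60 k150 14 (.s k40 k20 5 (.d k170 k235 k255 8 14))))))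

def s15_63_112 : T TT 256 :=
  (.l (.s k65 k130 8 (.s k105 k125 5 (.s k60 k150 14 (.s k40 k20 5 (.d k170 k235 k255 8 14))))))

def s15_63_113 : T TT 256 :=
  (.l (.s k65 k130 8 (.s k105 k125 5 (.s k60 k150 14 (.s k40 k20 5 (.d k170 k235 k255 8 14))))))

def s15_63_114 : T TT 256 :=
  (.l (.s k65 k130 8 (.s k105 k125 5 (.s k60 k150 14 (.s k40 k20 5 (.d k170 k235 k255 8 14))))))

def s15_63_115 : T TT 256 :=
  (.l (.s k65 k130 8 (.s k105 k125 5 (.s k60 k150 14 (.s k40 k20 5 (.d k170 k235 k255 8 14))))))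

def s15_63_116 : T TT 256 :=
  (.l (.s k65 k130 8 (.s k105 k125 5 (.s k60 k150 14 (.s k40 k20 5 (.d k170 k235 k255 8 14))))))

def s15_63_117 : T TT 256 :=
  (.l (.s k65 k130 8 (.s k105 k125 5 (.s k60 k150 14 (.s k40 k20 5 (.d k170 k235 k255 8 14))))))

def s15_63_118 : T TT 256 :=
  (.l (.s k65 k130 8 (.s k105 k125 5 (.s k60 k150 14 (.s k40 k20 5 (.d k170 k235 k255 8 14))))))

def s15_63_119 : T TT 256 :=
  (.l (.s k65 k130 8 (.s k105 k125 5 (.s k60 k150 14 (.s k40 k20 5 (.d k170 k235 k255 8 14))))))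

def s15_63_120 : T TT 256 :=
  (.l (.s k65 k130 8 (.s k105 k125 5 (.s k60 k150 14 (.s k40 k20 5 (.d k170 k235 k255 8 14))))))

def s15_63_121 : T TT 256 :=
  (.l (.s k65 k130 8 (.s k105 k125 5 (.s k60 k150 14 (.s k40 k20 5 (.d k170 k235 k255 8 14))))))

def s15_63_122 : T TT 256 :=
  (.l (.s k65 k130 8 (.s k105 k125 5 (.s k60 k150 14 (.s k40 k20 5 (.d k170 k235 k255 8 14))))))

def s15_63_123 : T TT 256 :=
  (.l (.s k65 k130 8 (.s k105 k125 5 (.s k60 k150 14 (.s k40 k20 5 (.d k170 k235 k255 8 14))))))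

def s15_63_124 : T TT 256 :=
  (.l (.s k65 k130 8 (.s k105 k125 5 (.s k60 k150 14 (.s k40 k20 5 (.d k170 k235 k255 8 14))))))

def s15_63_125 : T TT 256 :=
  (.l (.s k130 k65 8 (.s k170 k255 14 (.s k150 k190 5 (.s k60 k105 14 (.d k20 k40 k215 5 8))))))

def s15_63_126 : T TT 256 :=
  (.l (.s k65 k130 8 (.s k105 k125 5 (.s k60 k150 14 (.s k40 k20 5 (.d k170 k235 k255 8 14))))))

def s15_63_127 : T TT 256 :=
  (.l (.s k65 k130 8 (.s k105 k125 5 (.s k60 k150 14 (.s k40 k20 5 (.d k170 k235 k255 8 14))))))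

def s15_63_128 : T TT 256 :=
  (.l (.s k65 k130 8 (.s k105 k125 5 (.s k60 k150 14 (.s k40 k20 5 (.d k170 k235 k255 8 14))))))

def s15_63_129 : T TT 256 :=
  (.l (.s k65 k130 8 (.s k105 k125 5 (.s k60 k150 14 (.s k40 k20 5 (.d k170 k235 k255 8 14))))))

def s15_63_130 : T TT 256 :=
  (.q k214 [(.s k252 k233 6 (.s k84 k168 13 (.s k86 k87 0 (.s k150 k22 7 (.s k20 k215 8 (.d k60 k40
  k105 5 14)))))), (.s k170 k255 14 (.s k252 k233 6 (.s k84 k168 13 (.s k86 k87 0 (.s k2 k254 13 (.d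
  k3 k1 k169 0 14)))))), (.s k233 k252 6 (.s k255 k170 14 (.s k215 k235 5 (.s k213 k212 0 (.s k192
  k234 6 (.d k193 k194 k253 0 5)))))), (.s k255 k170 14 (.s k215 k235 5 (.s k150 k20 8 (.s k86 k22 7
  (.s k87 k84 0 (.s k23 k151 7 (.d k212 k213 k149 0 8)))))))] (.c k31 (.q k47 [(.s k252 k233 6 (.s
  k84 k168 13 (.s k86 k87 0 (.s k150 k22 7 (.s k20 k215 8 (.d k60 k40 k105 5 14)))))), (.s k170 k255
  14 (.s k252 k233 6 (.s k84 k168 13 (.s k86 k87 0 (.s k2 k254 13 (.d k3 k1 k169 0 14)))))), (.s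
  k233 k252 6 (.s k255 k170 14 (.s k215 k235 5 (.s k213 k212 0 (.s k192 k234 6 (.d k193 k194 k253 0
  5)))))), (.s k255 k170 14 (.s k215 k235 5 (.s k150 k20 8 (.s k86 k22 7 (.s k87 k84 0 (.s k23 k151
  7 (.d k212 k213 k149 0 8)))))))] .n) (.c k47 (.q k31 [(.s k252 k233 6 (.s k84 k168 13 (.s k86 k87
  0 (.s k150 k22 7 (.s k20 k215 8 (.d k60 k40 k105 5 14)))))), (.s k170 k255 14 (.s k252 k233 6 (.s
  k84 k168 13 (.s k86 k87 0 (.s k2 k254 13 (.d k3 k1 k169 0 14)))))), (.s k233 k252 6 (.s k255 k170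
  14 (.s k215 k235 5 (.s k213 k212 0 (.s k192 k234 6 (.d k193 k194 k253 0 5)))))), (.s k255 k170 14
  (.s k215 k235 5 (.s k150 k20 8 (.s k86 k22 7 (.s k87 k84 0 (.s k23 k151 7 (.d k212 k213 k149 0
  8)))))))] .n) .n)))

def s15_63_131 : T TT 256 :=
  (.l (.s k65 k130 8 (.s k105 k125 5 (.s k60 k150 14 (.s k40 k20 5 (.d k170 k235 k255 8 14))))))

def s15_63_132 : T TT 256 :=
  (.l (.s k65 k130 8 (.s k105 k125 5 (.s k60 k150 14 (.s k40 k20 5 (.d k170 k235 k255 8 14))))))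

def s15_63_133 : T TT 256 :=
  (.l (.s k65 k130 8 (.s k105 k125 5 (.s k60 k150 14 (.s k40 k20 5 (.d k170 k235 k255 8 14))))))

def s15_63_134 : T TT 256 :=
  (.l (.s k65 k130 8 (.s k105 k125 5 (.s k60 k150 14 (.s k40 k20 5 (.d k170 k235 k255 8 14))))))

def s15_63_135 : T TT 256 :=
  (.l (.s k65 k130 8 (.s k105 k125 5 (.s k60 k150 14 (.s k40 k20 5 (.d k170 k235 k255 8 14))))))

def s15_63_136 : T TT 256 :=
  (.l (.s k65 k130 8 (.s k105 k125 5 (.s k60 k150 14 (.s k40 k20 5 (.d k170 k235 k255 8 14))))))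

def s15_63_137 : T TT 256 :=
  (.l (.s k65 k130 8 (.s k105 k125 5 (.s k60 k150 14 (.s k40 k20 5 (.d k170 k235 k255 8 14))))))

def s15_63_138 : T TT 256 :=
  (.l (.s k65 k130 8 (.s k105 k125 5 (.s k60 k150 14 (.s k40 k20 5 (.d k170 k235 k255 8 14))))))

def s15_63_139 : T TT 256 :=
  (.l (.s k65 k130 8 (.s k105 k125 5 (.s k60 k150 14 (.s k40 k20 5 (.d k170 k235 k255 8 14))))))

def s15_63_140 : T TT 256 :=
  (.l (.s k65 k130 8 (.s k105 k125 5 (.s k60 k150 14 (.s k40 k20 5 (.d k170 k235 k255 8 14))))))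

def s15_63_141 : T TT 256 :=
  (.l (.s k65 k130 8 (.s k105 k125 5 (.s k60 k150 14 (.s k40 k20 5 (.d k170 k235 k255 8 14))))))

def s15_63_142 : T TT 256 :=
  (.l (.s k65 k130 8 (.s k105 k125 5 (.s k60 k150 14 (.s k40 k20 5 (.d k170 k235 k255 8 14))))))

def s15_63_143 : T TT 256 :=
  (.l (.s k65 k130 8 (.s k105 k125 5 (.s k60 k150 14 (.s k40 k20 5 (.d k170 k235 k255 8 14))))))

def s15_63_144 : T TT 256 :=
  (.l (.s k65 k130 8 (.s k105 k125 5 (.s k60 k150 14 (.s k40 k20 5 (.d k170 k235 k255 8 14))))))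

def s15_63_145 : T TT 256 :=
  (.l (.s k65 k130 8 (.s k105 k125 5 (.s k60 k150 14 (.s k40 k20 5 (.d k170 k235 k255 8 14))))))

def s15_63_146 : T TT 256 :=
  (.l (.s k65 k130 8 (.s k105 k125 5 (.s k60 k150 14 (.s k40 k20 5 (.d k170 k235 k255 8 14))))))

def s15_63_147 : T TT 256 :=
  (.l (.s k65 k130 8 (.s k105 k125 5 (.s k60 k150 14 (.s k40 k20 5 (.d k170 k235 k255 8 14))))))

def s15_63_148 : T TT 256 :=
  (.l (.s k65 k130 8 (.s k105 k125 5 (.s k60 k150 14 (.s k40 k20 5 (.d k170 k235 k255 8 14))))))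

def s15_63_149 : T TT 256 :=
  (.l (.s k65 k130 8 (.s k105 k125 5 (.s k60 k150 14 (.s k40 k20 5 (.d k170 k235 k255 8 14))))))

def s15_63_150 : T TT 256 :=
  (.f k130 k65 8 (.f k255 k170 14 (.f k235 k215 5 (.q k93 [(.s k12 k174 12 (.s k4 k8 1 (.s k89 k81 1
  (.d k166 k247 k243 12 14)))), (.s k12 k174 12 (.s k134 k73 10 (.s k138 k142 1 (.s k69 k207 10 (.d
  k4 k8 k199 1 8))))), (.s k81 k89 1 (.s k162 k243 12 (.s k146 k178 3 (.s k48 k97 12 (.d k16 k211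
  k32 8 3)))))] (.c k8 (.l (.s k12 k174 12 (.s k89 k81 1 (.s k134 k73 10 (.s k138 k142 1 (.s k69
  k207 10 (.s k4 k199 8 (.d k166 k247 k243 12 14)))))))) (.c k12 (.l (.s k81 k89 1 (.s k243 k162 12
  (.s k251 k247 1 (.s k219 k203 3 (.s k231 k207 5 (.d k227 k211 k239 3 1))))))) (.c k31 (.q k47 [(.s
  k12 k174 12 (.s k4 k8 1 (.s k89 k81 1 (.d k166 k247 k243 12 14)))), (.s k12 k174 12 (.s k134 k73
  10 (.s k138 k142 1 (.s k69 k207 10 (.d k4 k8 k199 1 8))))), (.s k81 k89 1 (.s k162 k243 12 (.s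
  k146 k178 3 (.s k48 k97 12 (.d k16 k211 k32 8 3)))))] (.c k8 (.l (.s k12 k174 12 (.s k89 k81 1 (.s
  k134 k73 10 (.s k138 k142 1 (.s k69 k207 10 (.s k4 k199 8 (.d k166 k247 k243 12 14)))))))) (.c k12
  (.l (.s k81 k89 1 (.s k243 k162 12 (.s k251 k247 1 (.s k219 k203 3 (.s k231 k207 5 (.d k227 k211
  k239 3 1))))))) (.c k162 (.l (.s k89 k81 1 (.s k12 k174 12 (.s k166 k243 14 (.d k4 k8 k247 1
  12))))) (.c k166 (.l (.s k81 k89 1 (.s k12 k174 12 (.s k162 k243 12 (.s k146 k178 3 (.s k48 k97 12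
  (.d k16 k211 k32 8 3))))))) .n))))) (.c k47 (.q k31 [(.s k12 k174 12 (.s k4 k8 1 (.s k89 k81 1 (.d
  k166 k247 k243 12 14)))), (.s k12 k174 12 (.s k134 k73 10 (.s k138 k142 1 (.s k69 k207 10 (.d k4
  k8 k199 1 8))))), (.s k81 k89 1 (.s k162 k243 12 (.s k146 k178 3 (.s k48 k97 12 (.d k16 k211 k32 8
  3)))))] (.c k8 (.l (.s k12 k174 12 (.s k89 k81 1 (.s k134 k73 10 (.s k138 k142 1 (.s k69 k207 10
  (.s k4 k199 8 (.d k166 k247 k243 12 14)))))))) (.c k12 (.l (.s k81 k89 1 (.s k243 k162 12 (.s k251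
  k247 1 (.s k219 k203 3 (.s k231 k207 5 (.d k227 k211 k239 3 1))))))) (.c k162 (.l (.s k89 k81 1
  (.s k12 k174 12 (.s k166 k243 14 (.d k4 k8 k247 1 12))))) (.c k166 (.l (.s k81 k89 1 (.s k12 k174
  12 (.s k162 k243 12 (.s k146 k178 3 (.s k48 k97 12 (.d k16 k211 k32 8 3))))))) .n))))) (.c k162
  (.l (.s k89 k81 1 (.s k12 k174 12 (.s k166 k243 14 (.d k4 k8 k247 1 12))))) (.c k166 (.l (.s k81
  k89 1 (.s k12 k174 12 (.s k162 k243 12 (.s k146 k178 3 (.s k48 k97 12 (.d k16 k211 k32 8 3)))))))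
  .n))))))))))

def s15_63_151 : T TT 256 :=
  (.l (.s k65 k130 8 (.s k105 k125 5 (.s k60 k150 14 (.s k40 k20 5 (.d k170 k235 k255 8 14))))))

def s15_63_152 : T TT 256 :=
  (.l (.s k65 k130 8 (.s k105 k125 5 (.s k60 k150 14 (.s k40 k20 5 (.d k170 k235 k255 8 14))))))

def s15_63_153 : T TT 256 :=
  (.l (.s k65 k130 8 (.s k105 k125 5 (.s k60 k150 14 (.s k40 k20 5 (.d k170 k235 k255 8 14))))))

def s15_63_154 : T TT 256 :=
  (.l (.s k65 k130 8 (.s k105 k125 5 (.s k60 k150 14 (.s k40 k20 5 (.d k170 k235 k255 8 14))))))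

def s15_63_155 : T TT 256 :=
  (.l (.s k65 k130 8 (.s k105 k125 5 (.s k60 k150 14 (.s k40 k20 5 (.d k170 k235 k255 8 14))))))

def s15_63_156 : T TT 256 :=
  (.l (.s k65 k130 8 (.s k105 k125 5 (.s k60 k150 14 (.s k40 k20 5 (.d k170 k235 k255 8 14))))))

def s15_63_157 : T TT 256 :=
  (.l (.s k65 k130 8 (.s k105 k125 5 (.s k60 k150 14 (.s k40 k20 5 (.d k170 k235 k255 8 14))))))

def s15_63_158 : T TT 256 :=
  (.l (.s k65 k130 8 (.s k105 k125 5 (.s k60 k150 14 (.s k40 k20 5 (.d k170 k235 k255 8 14))))))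

def s15_63_159 : T TT 256 :=
  (.l (.s k65 k130 8 (.s k105 k125 5 (.s k60 k150 14 (.s k40 k20 5 (.d k170 k235 k255 8 14))))))

def s15_63_160 : T TT 256 :=
  (.l (.s k65 k130 8 (.s k105 k125 5 (.s k60 k150 14 (.s k40 k20 5 (.d k170 k235 k255 8 14))))))

def s15_63_161 : T TT 256 :=
  (.l (.s k65 k130 8 (.s k105 k125 5 (.s k60 k150 14 (.s k40 k20 5 (.d k170 k235 k255 8 14))))))

def s15_63_162 : T TT 256 :=
  (.l (.s k65 k130 8 (.s k105 k125 5 (.s k60 k150 14 (.s k40 k20 5 (.d k170 k235 k255 8 14))))))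

def s15_63_163 : T TT 256 :=
  (.l (.s k65 k130 8 (.s k105 k125 5 (.s k60 k150 14 (.s k40 k20 5 (.d k170 k235 k255 8 14))))))

def s15_63_164 : T TT 256 :=
  (.l (.s k65 k130 8 (.s k105 k125 5 (.s k60 k150 14 (.s k40 k20 5 (.d k170 k235 k255 8 14))))))

def s15_63_165 : T TT 256 :=
  (.l (.s k65 k130 8 (.s k105 k125 5 (.s k60 k150 14 (.s k40 k20 5 (.d k170 k235 k255 8 14))))))

def s15_63_166 : T TT 256 :=
  (.l (.s k65 k130 8 (.s k105 k125 5 (.s k60 k150 14 (.s k40 k20 5 (.d k170 k235 k255 8 14))))))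

def s15_63_167 : T TT 256 :=
  (.l (.s k65 k130 8 (.s k105 k125 5 (.s k60 k150 14 (.s k40 k20 5 (.d k170 k235 k255 8 14))))))

def s15_63_168 : T TT 256 :=
  (.l (.s k65 k130 8 (.s k105 k125 5 (.s k60 k150 14 (.s k40 k20 5 (.d k170 k235 k255 8 14))))))

def s15_63_169 : T TT 256 :=
  (.l (.s k65 k130 8 (.s k105 k125 5 (.s k60 k150 14 (.s k40 k20 5 (.d k170 k235 k255 8 14))))))

def s15_63_170 : T TT 256 :=
  (.q k1 [(.s k3 k2 0 (.s k131 k67 7 (.s k169 k253 13 (.s k150 k188 6 (.s k20 k215 8 (.d k60 k40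
  k105 5 14)))))), (.s k65 k130 8 (.s k105 k125 5 (.s k169 k253 13 (.s k41 k233 7 (.s k61 k21 5 (.d
  k193 k129 k149 7 13)))))), (.s k3 k2 0 (.s k65 k130 8 (.s k67 k131 7 (.s k66 k64 0 (.d k129 k193
  k192 7 8)))))] (.c k31 (.q k47 [(.s k3 k2 0 (.s k131 k67 7 (.s k169 k253 13 (.s k150 k188 6 (.s
  k20 k215 8 (.d k60 k40 k105 5 14)))))), (.s k65 k130 8 (.s k105 k125 5 (.s k169 k253 13 (.s k41
  k233 7 (.s k61 k21 5 (.d k193 k129 k149 7 13)))))), (.s k3 k2 0 (.s k65 k130 8 (.s k67 k131 7 (.s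
  k66 k64 0 (.d k129 k193 k192 7 8)))))] (.c k150 (.l (.s k3 k2 0 (.s k67 k131 7 (.s k169 k253 13
  (.s k86 k252 14 (.s k105 k124 6 (.d k65 k125 k130 5 8))))))) .n)) (.c k47 (.q k31 [(.s k3 k2 0 (.s
  k131 k67 7 (.s k169 k253 13 (.s k150 k188 6 (.s k20 k215 8 (.d k60 k40 k105 5 14)))))), (.s k65
  k130 8 (.s k105 k125 5 (.s k169 k253 13 (.s k41 k233 7 (.s k61 k21 5 (.d k193 k129 k149 7
  13)))))), (.s k3 k2 0 (.s k65 k130 8 (.s k67 k131 7 (.s k66 k64 0 (.d k129 k193 k192 7 8)))))] (.c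
  k150 (.l (.s k3 k2 0 (.s k67 k131 7 (.s k169 k253 13 (.s k86 k252 14 (.s k105 k124 6 (.d k65 k125
  k130 5 8))))))) .n)) (.c k150 (.l (.s k3 k2 0 (.s k67 k131 7 (.s k169 k253 13 (.s k86 k252 14 (.s
  k105 k124 6 (.d k65 k125 k130 5 8))))))) .n))))

def s15_63_171 : T TT 256 :=
  (.l (.s k65 k130 8 (.s k105 k125 5 (.s k60 k150 14 (.s k40 k20 5 (.d k170 k235 k255 8 14))))))

def s15_63_172 : T TT 256 :=
  (.l (.s k65 k130 8 (.s k105 k125 5 (.s k60 k150 14 (.s k40 k20 5 (.d k170 k235 k255 8 14))))))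

def s15_63_173 : T TT 256 :=
  (.l (.s k65 k130 8 (.s k105 k125 5 (.s k60 k150 14 (.s k40 k20 5 (.d k170 k235 k255 8 14))))))

def s15_63_174 : T TT 256 :=
  (.l (.s k65 k130 8 (.s k105 k125 5 (.s k60 k150 14 (.s k40 k20 5 (.d k170 k235 k255 8 14))))))

def s15_63_175 : T TT 256 :=
  (.l (.s k65 k130 8 (.s k105 k125 5 (.s k60 k150 14 (.s k40 k20 5 (.d k170 k235 k255 8 14))))))

def s15_63_176 : T TT 256 :=
  (.l (.s k65 k130 8 (.s k105 k125 5 (.s k60 k150 14 (.s k40 k20 5 (.d k170 k235 k255 8 14))))))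

def s15_63_177 : T TT 256 :=
  (.l (.s k65 k130 8 (.s k105 k125 5 (.s k60 k150 14 (.s k40 k20 5 (.d k170 k235 k255 8 14))))))

def s15_63_178 : T TT 256 :=
  (.l (.s k65 k130 8 (.s k105 k125 5 (.s k60 k150 14 (.s k40 k20 5 (.d k170 k235 k255 8 14))))))

def s15_63_179 : T TT 256 :=
  (.l (.s k65 k130 8 (.s k105 k125 5 (.s k60 k150 14 (.s k40 k20 5 (.d k170 k235 k255 8 14))))))

def s15_63_180 : T TT 256 :=
  (.l (.s k65 k130 8 (.s k105 k125 5 (.s k60 k150 14 (.s k40 k20 5 (.d k170 k235 k255 8 14))))))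

def s15_63_181 : T TT 256 :=
  (.l (.s k65 k130 8 (.s k105 k125 5 (.s k60 k150 14 (.s k40 k20 5 (.d k170 k235 k255 8 14))))))

def s15_63_182 : T TT 256 :=
  (.l (.s k65 k130 8 (.s k105 k125 5 (.s k60 k150 14 (.s k40 k20 5 (.d k170 k235 k255 8 14))))))

def s15_63_183 : T TT 256 :=
  (.l (.s k65 k130 8 (.s k105 k125 5 (.s k60 k150 14 (.s k40 k20 5 (.d k170 k235 k255 8 14))))))

def s15_63_184 : T TT 256 :=
  (.l (.s k65 k130 8 (.s k105 k125 5 (.s k60 k150 14 (.s k40 k20 5 (.d k170 k235 k255 8 14))))))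

def s15_63_185 : T TT 256 :=
  (.l (.s k65 k130 8 (.s k105 k125 5 (.s k60 k150 14 (.s k40 k20 5 (.d k170 k235 k255 8 14))))))

def s15_63_186 : T TT 256 :=
  (.l (.s k65 k130 8 (.s k105 k125 5 (.s k60 k150 14 (.s k40 k20 5 (.d k170 k235 k255 8 14))))))

def s15_63_187 : T TT 256 :=
  (.l (.s k65 k130 8 (.s k105 k125 5 (.s k60 k150 14 (.s k40 k20 5 (.d k170 k235 k255 8 14))))))

def s15_63_188 : T TT 256 :=
  (.l (.s k65 k130 8 (.s k105 k125 5 (.s k60 k150 14 (.s k40 k20 5 (.d k170 k235 k255 8 14))))))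

def s15_63_189 : T TT 256 :=
  (.l (.s k65 k130 8 (.s k105 k125 5 (.s k60 k150 14 (.s k40 k20 5 (.d k170 k235 k255 8 14))))))

def s15_63_190 : T TT 256 :=
  (.l (.s k65 k130 8 (.s k105 k125 5 (.s k60 k150 14 (.s k170 k255 14 (.d k40 k20 k235 5 8))))))

def s15_63_191 : T TT 256 :=
  (.l (.s k65 k130 8 (.s k105 k125 5 (.s k60 k150 14 (.s k40 k20 5 (.d k170 k235 k255 8 14))))))

def s15_63_192 : T TT 256 :=
  (.l (.s k65 k130 8 (.s k105 k125 5 (.s k60 k150 14 (.s k40 k20 5 (.d k170 k235 k255 8 14))))))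

def s15_63_193 : T TT 256 :=
  (.l (.s k65 k130 8 (.s k105 k125 5 (.s k60 k150 14 (.s k40 k20 5 (.d k170 k235 k255 8 14))))))

def s15_63_194 : T TT 256 :=
  (.l (.s k65 k130 8 (.s k105 k125 5 (.s k60 k150 14 (.s k40 k20 5 (.d k170 k235 k255 8 14))))))

def s15_63_196 : T TT 256 :=
  (.l (.s k65 k130 8 (.s k105 k125 5 (.s k60 k150 14 (.s k40 k20 5 (.d k170 k235 k255 8 14))))))

def s15_63_197 : T TT 256 :=
  (.l (.s k65 k130 8 (.s k105 k125 5 (.s k60 k150 14 (.s k40 k20 5 (.d k170 k235 k255 8 14))))))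

def s15_63_198 : T TT 256 :=
  (.l (.s k65 k130 8 (.s k105 k125 5 (.s k60 k150 14 (.s k40 k20 5 (.d k170 k235 k255 8 14))))))

def s15_63_199 : T TT 256 :=
  (.l (.s k65 k130 8 (.s k105 k125 5 (.s k60 k150 14 (.s k40 k20 5 (.d k170 k235 k255 8 14))))))

def s15_63_200 : T TT 256 :=
  (.l (.s k65 k130 8 (.s k105 k125 5 (.s k60 k150 14 (.s k40 k20 5 (.d k170 k235 k255 8 14))))))

def s15_63_201 : T TT 256 :=
  (.l (.s k65 k130 8 (.s k105 k125 5 (.s k60 k150 14 (.s k40 k20 5 (.d k170 k235 k255 8 14))))))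

def s15_63_202 : T TT 256 :=
  (.l (.s k65 k130 8 (.s k105 k125 5 (.s k60 k150 14 (.s k40 k20 5 (.d k170 k235 k255 8 14))))))

def s15_63_203 : T TT 256 :=
  (.l (.s k65 k130 8 (.s k105 k125 5 (.s k60 k150 14 (.s k40 k20 5 (.d k170 k235 k255 8 14))))))

def s15_63_204 : T TT 256 :=
  (.l (.s k65 k130 8 (.s k105 k125 5 (.s k60 k150 14 (.s k40 k20 5 (.d k170 k235 k255 8 14))))))

def s15_63_205 : T TT 256 :=
  (.l (.s k65 k130 8 (.s k105 k125 5 (.s k60 k150 14 (.s k40 k20 5 (.d k170 k235 k255 8 14))))))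

def s15_63_206 : T TT 256 :=
  (.l (.s k65 k130 8 (.s k105 k125 5 (.s k60 k150 14 (.s k40 k20 5 (.d k170 k235 k255 8 14))))))

def s15_63_207 : T TT 256 :=
  (.l (.s k65 k130 8 (.s k105 k125 5 (.s k60 k150 14 (.s k40 k20 5 (.d k170 k235 k255 8 14))))))

def s15_63_208 : T TT 256 :=
  (.l (.s k65 k130 8 (.s k105 k125 5 (.s k60 k150 14 (.s k40 k20 5 (.d k170 k235 k255 8 14))))))

def s15_63_209 : T TT 256 :=
  (.l (.s k65 k130 8 (.s k105 k125 5 (.s k60 k150 14 (.s k40 k20 5 (.d k170 k235 k255 8 14))))))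

def s15_63_210 : T TT 256 :=
  (.l (.s k65 k130 8 (.s k105 k125 5 (.s k60 k150 14 (.s k40 k20 5 (.d k170 k235 k255 8 14))))))

def s15_63_211 : T TT 256 :=
  (.l (.s k65 k130 8 (.s k105 k125 5 (.s k60 k150 14 (.s k40 k20 5 (.d k170 k235 k255 8 14))))))

def s15_63_212 : T TT 256 :=
  (.l (.s k65 k130 8 (.s k105 k125 5 (.s k60 k150 14 (.s k40 k20 5 (.d k170 k235 k255 8 14))))))

def s15_63_213 : T TT 256 :=
  (.l (.s k65 k130 8 (.s k105 k125 5 (.s k60 k150 14 (.s k40 k20 5 (.d k170 k235 k255 8 14))))))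

def s15_63_214 : T TT 256 :=
  (.l (.s k65 k130 8 (.s k105 k125 5 (.s k60 k150 14 (.s k40 k20 5 (.d k170 k235 k255 8 14))))))

def s15_63_215 : T TT 256 :=
  (.l (.s k65 k130 8 (.s k105 k125 5 (.s k60 k150 14 (.s k40 k20 5 (.d k170 k235 k255 8 14))))))

def s15_63_216 : T TT 256 :=
  (.l (.s k65 k130 8 (.s k105 k125 5 (.s k60 k150 14 (.s k40 k20 5 (.d k170 k235 k255 8 14))))))

def s15_63_217 : T TT 256 :=
  (.l (.s k65 k130 8 (.s k105 k125 5 (.s k60 k150 14 (.s k40 k20 5 (.d k170 k235 k255 8 14))))))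

def s15_63_218 : T TT 256 :=
  (.l (.s k65 k130 8 (.s k105 k125 5 (.s k60 k150 14 (.s k40 k20 5 (.d k170 k235 k255 8 14))))))

def s15_63_219 : T TT 256 :=
  (.l (.s k65 k130 8 (.s k105 k125 5 (.s k60 k150 14 (.s k40 k20 5 (.d k170 k235 k255 8 14))))))

def s15_63_220 : T TT 256 :=
  (.l (.s k65 k130 8 (.s k105 k125 5 (.s k60 k150 14 (.s k40 k20 5 (.d k170 k235 k255 8 14))))))

def s15_63_221 : T TT 256 :=
  (.l (.s k65 k130 8 (.s k105 k125 5 (.s k60 k150 14 (.s k40 k20 5 (.d k170 k235 k255 8 14))))))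

def s15_63_222 : T TT 256 :=
  (.l (.s k65 k130 8 (.s k105 k125 5 (.s k60 k150 14 (.s k40 k20 5 (.d k170 k235 k255 8 14))))))

def s15_63_223 : T TT 256 :=
  (.l (.s k65 k130 8 (.s k105 k125 5 (.s k60 k150 14 (.s k40 k20 5 (.d k170 k235 k255 8 14))))))

def s15_63_224 : T TT 256 :=
  (.l (.s k65 k130 8 (.s k105 k125 5 (.s k60 k150 14 (.s k40 k20 5 (.d k170 k235 k255 8 14))))))

def s15_63_225 : T TT 256 :=
  (.l (.s k65 k130 8 (.s k105 k125 5 (.s k60 k150 14 (.s k40 k20 5 (.d k170 k235 k255 8 14))))))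

def s15_63_226 : T TT 256 :=
  (.l (.s k65 k130 8 (.s k105 k125 5 (.s k60 k150 14 (.s k40 k20 5 (.d k170 k235 k255 8 14))))))

def s15_63_227 : T TT 256 :=
  (.l (.s k65 k130 8 (.s k105 k125 5 (.s k60 k150 14 (.s k40 k20 5 (.d k170 k235 k255 8 14))))))

def s15_63_228 : T TT 256 :=
  (.l (.s k65 k130 8 (.s k105 k125 5 (.s k60 k150 14 (.s k40 k20 5 (.d k170 k235 k255 8 14))))))

def s15_63_229 : T TT 256 :=
  (.l (.s k65 k130 8 (.s k105 k125 5 (.s k60 k150 14 (.s k40 k20 5 (.d k170 k235 k255 8 14))))))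

def s15_63_230 : T TT 256 :=
  (.l (.s k65 k130 8 (.s k105 k125 5 (.s k60 k150 14 (.s k40 k20 5 (.d k170 k235 k255 8 14))))))

def s15_63_231 : T TT 256 :=
  (.l (.s k65 k130 8 (.s k105 k125 5 (.s k60 k150 14 (.s k40 k20 5 (.d k170 k235 k255 8 14))))))

def s15_63_232 : T TT 256 :=
  (.l (.s k65 k130 8 (.s k105 k125 5 (.s k60 k150 14 (.s k40 k20 5 (.d k170 k235 k255 8 14))))))

def s15_63_233 : T TT 256 :=
  (.l (.s k65 k130 8 (.s k105 k125 5 (.s k60 k150 14 (.s k40 k20 5 (.d k170 k235 k255 8 14))))))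

def s15_63_234 : T TT 256 :=
  (.l (.s k65 k130 8 (.s k105 k125 5 (.s k60 k150 14 (.s k40 k20 5 (.d k170 k235 k255 8 14))))))

def s15_63_235 : T TT 256 :=
  (.l (.s k130 k65 8 (.s k170 k255 14 (.s k150 k190 5 (.s k20 k215 8 (.d k60 k40 k105 5 14))))))

def s15_63_236 : T TT 256 :=
  (.l (.s k65 k130 8 (.s k105 k125 5 (.s k60 k150 14 (.s k40 k20 5 (.d k170 k235 k255 8 14))))))

def s15_63_237 : T TT 256 :=
  (.l (.s k65 k130 8 (.s k105 k125 5 (.s k60 k150 14 (.s k40 k20 5 (.d k170 k235 k255 8 14))))))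

def s15_63_238 : T TT 256 :=
  (.l (.s k65 k130 8 (.s k105 k125 5 (.s k60 k150 14 (.s k40 k20 5 (.d k170 k235 k255 8 14))))))

def s15_63_239 : T TT 256 :=
  (.l (.s k65 k130 8 (.s k105 k125 5 (.s k60 k150 14 (.s k40 k20 5 (.d k170 k235 k255 8 14))))))

def s15_63_240 : T TT 256 :=
  (.l (.s k65 k130 8 (.s k105 k125 5 (.s k60 k150 14 (.s k40 k20 5 (.d k170 k235 k255 8 14))))))

def s15_63_241 : T TT 256 :=
  (.l (.s k65 k130 8 (.s k105 k125 5 (.s k60 k150 14 (.s k40 k20 5 (.d k170 k235 k255 8 14))))))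

def s15_63_242 : T TT 256 :=
  (.l (.s k65 k130 8 (.s k105 k125 5 (.s k60 k150 14 (.s k40 k20 5 (.d k170 k235 k255 8 14))))))

def s15_63_243 : T TT 256 :=
  (.l (.s k65 k130 8 (.s k105 k125 5 (.s k60 k150 14 (.s k40 k20 5 (.d k170 k235 k255 8 14))))))

def s15_63_244 : T TT 256 :=
  (.l (.s k65 k130 8 (.s k105 k125 5 (.s k60 k150 14 (.s k40 k20 5 (.d k170 k235 k255 8 14))))))

def s15_63_245 : T TT 256 :=
  (.l (.s k65 k130 8 (.s k105 k125 5 (.s k60 k150 14 (.s k40 k20 5 (.d k170 k235 k255 8 14))))))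

def s15_63_246 : T TT 256 :=
  (.l (.s k65 k130 8 (.s k105 k125 5 (.s k60 k150 14 (.s k40 k20 5 (.d k170 k235 k255 8 14))))))

def s15_63_247 : T TT 256 :=
  (.l (.s k65 k130 8 (.s k105 k125 5 (.s k60 k150 14 (.s k40 k20 5 (.d k170 k235 k255 8 14))))))

def s15_63_248 : T TT 256 :=
  (.l (.s k65 k130 8 (.s k105 k125 5 (.s k60 k150 14 (.s k40 k20 5 (.d k170 k235 k255 8 14))))))

def s15_63_249 : T TT 256 :=
  (.l (.s k65 k130 8 (.s k105 k125 5 (.s k60 k150 14 (.s k40 k20 5 (.d k170 k235 k255 8 14))))))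

def s15_63_250 : T TT 256 :=
  (.l (.s k65 k130 8 (.s k105 k125 5 (.s k60 k150 14 (.s k40 k20 5 (.d k170 k235 k255 8 14))))))

def s15_63_251 : T TT 256 :=
  (.l (.s k65 k130 8 (.s k105 k125 5 (.s k60 k150 14 (.s k40 k20 5 (.d k170 k235 k255 8 14))))))

def s15_63_252 : T TT 256 :=
  (.l (.s k65 k130 8 (.s k105 k125 5 (.s k60 k150 14 (.s k40 k20 5 (.d k170 k235 k255 8 14))))))

def s15_63_253 : T TT 256 :=
  (.l (.s k65 k130 8 (.s k105 k125 5 (.s k60 k150 14 (.s k40 k20 5 (.d k170 k235 k255 8 14))))))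

def s15_63_254 : T TT 256 :=
  (.l (.s k65 k130 8 (.s k105 k125 5 (.s k60 k150 14 (.s k40 k20 5 (.d k170 k235 k255 8 14))))))

def s15_63_255 : T TT 256 :=
  (.q k207 [(.s k65 k130 8 (.s k69 k138 10 (.s k73 k77 1 (.s k199 k203 1 (.d k134 k4 k12 8 10))))),
  (.s k65 k130 8 (.s k105 k125 5 (.s k203 k199 1 (.s k154 k56 12 (.s k16 k223 10 (.d k48 k32 k101 3
  14)))))), (.s k65 k130 8 (.s k69 k138 10 (.s k101 k117 3 (.s k48 k154 14 (.s k97 k146 12 (.d k105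
  k109 k125 1 5)))))), (.s k69 k138 10 (.s k101 k117 3 (.s k199 k203 1 (.s k150 k52 12 (.s k20 k215
  8 (.d k60 k40 k105 5 14))))))] (.c k31 (.q k47 [(.s k65 k130 8 (.s k69 k138 10 (.s k73 k77 1 (.s
  k199 k203 1 (.d k134 k4 k12 8 10))))), (.s k65 k130 8 (.s k105 k125 5 (.s k203 k199 1 (.s k154 k56
  12 (.s k16 k223 10 (.d k48 k32 k101 3 14)))))), (.s k65 k130 8 (.s k69 k138 10 (.s k101 k117 3 (.s
  k48 k154 14 (.s k97 k146 12 (.d k105 k109 k125 1 5)))))), (.s k69 k138 10 (.s k101 k117 3 (.s k199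
  k203 1 (.s k150 k52 12 (.s k20 k215 8 (.d k60 k40 k105 5 14))))))] (.c k95 (.q k175 [(.s k65 k130
  8 (.s k69 k138 10 (.s k73 k77 1 (.s k199 k203 1 (.d k134 k4 k12 8 10))))), (.s k69 k138 10 (.s
  k101 k117 3 (.s k48 k154 14 (.s k32 k16 3 (.d k239 k170 k111 10 7))))), (.s k65 k130 8 (.s k105
  k125 5 (.s k203 k199 1 (.s k154 k56 12 (.s k48 k101 14 (.d k16 k223 k32 10 3))))))] (.c k127 (.q
  k191 [(.s k65 k130 8 (.s k69 k138 10 (.s k73 k77 1 (.s k199 k203 1 (.d k134 k4 k12 8 10))))), (.s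
  k69 k138 10 (.s k101 k117 3 (.s k48 k154 14 (.s k32 k16 3 (.d k239 k111 k170 7 10))))), (.s k65
  k130 8 (.s k105 k125 5 (.s k203 k199 1 (.s k154 k56 12 (.s k48 k101 14 (.d k16 k223 k32 10
  3))))))] (.c k79 (.l (.s k111 k239 7 (.s k65 k130 8 (.s k69 k138 10 (.s k73 k77 1 (.s k134 k12 10
  (.d k199 k203 k4 1 8))))))) (.c k111 (.q k79 [(.s k65 k130 8 (.s k69 k138 10 (.s k73 k77 1 (.s
  k199 k203 1 (.d k134 k4 k12 8 10))))), (.s k65 k130 8 (.s k105 k125 5 (.s k203 k199 1 (.s k154 k56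
  12 (.s k48 k101 14 (.d k16 k223 k32 10 3)))))), (.s k65 k130 8 (.s k69 k138 10 (.s k64 k74 2 (.s
  k67 k66 0 (.s k3 k131 7 (.d k71 k75 k139 1 9)))))), (.s k69 k138 10 (.s k101 k117 3 (.s k199 k203
  1 (.s k150 k52 12 (.s k20 k215 8 (.d k60 k40 k105 5 14))))))] (.c k159 (.q k223 [(.s k69 k138 10
  (.s k154 k16 10 (.d k101 k117 k48 3 14))), (.s k65 k130 8 (.s k69 k138 10 (.s k73 k77 1 (.s k134
  k12 10 (.d k199 k203 k4 1 8))))), (.s k65 k130 8 (.s k105 k125 5 (.s k154 k16 10 (.d k203 k199 k56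
  1 12))))] .n) (.c k223 (.l (.s k159 k143 3 (.s k65 k130 8 (.s k69 k138 10 (.s k73 k77 1 (.s k134
  k12 10 (.d k199 k203 k4 1 8))))))) .n))) (.c k159 (.q k223 [(.s k69 k138 10 (.s k154 k16 10 (.d
  k101 k117 k48 3 14))), (.s k65 k130 8 (.s k69 k138 10 (.s k73 k77 1 (.s k134 k12 10 (.d k199 k203
  k4 1 8))))), (.s k65 k130 8 (.s k105 k125 5 (.s k154 k16 10 (.d k203 k199 k56 1 12))))] (.c k79
  (.l (.s k111 k239 7 (.s k69 k138 10 (.s k101 k117 3 (.d k154 k48 k16 14 10))))) (.c k111 (.q k79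
  [(.s k69 k138 10 (.s k154 k16 10 (.d k101 k117 k48 3 14))), (.s k65 k130 8 (.s k69 k138 10 (.s k73
  k77 1 (.s k134 k12 10 (.d k199 k203 k4 1 8))))), (.s k65 k130 8 (.s k105 k125 5 (.s k154 k16 10
  (.d k203 k199 k56 1 12))))] .n) .n))) (.c k223 (.l (.s k159 k143 3 (.s k65 k130 8 (.s k69 k138 10
  (.s k73 k77 1 (.s k134 k12 10 (.d k199 k203 k4 1 8))))))) .n))))) (.c k159 (.q k223 [(.s k69 k138
  10 (.s k101 k117 3 (.d k154 k48 k16 14 10))), (.s k65 k130 8 (.s k69 k138 10 (.s k73 k77 1 (.s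
  k134 k12 10 (.d k199 k203 k4 1 8))))), (.s k65 k130 8 (.s k105 k125 5 (.s k154 k16 10 (.d k203
  k199 k56 1 12))))] (.c k127 (.q k191 [(.s k69 k138 10 (.s k154 k16 10 (.d k101 k117 k48 3 14))),
  (.s k65 k130 8 (.s k69 k138 10 (.s k73 k77 1 (.s k134 k12 10 (.d k199 k203 k4 1 8))))), (.s k65
  k130 8 (.s k105 k125 5 (.s k154 k16 10 (.d k203 k199 k56 1 12))))] (.c k79 (.l (.s k111 k239 7 (.s
  k69 k138 10 (.s k101 k117 3 (.d k154 k48 k16 14 10))))) (.c k111 (.q k79 [(.s k69 k138 10 (.s k154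
  k16 10 (.d k101 k117 k48 3 14))), (.s k65 k130 8 (.s k69 k138 10 (.s k73 k77 1 (.s k134 k12 10 (.d
  k199 k203 k4 1 8))))), (.s k65 k130 8 (.s k105 k125 5 (.s k154 k16 10 (.d k203 k199 k56 1 12))))]
  .n) .n))) (.c k191 (.q k127 [(.s k69 k138 10 (.s k101 k117 3 (.d k154 k48 k16 14 10))), (.s k65
  k130 8 (.s k105 k125 5 (.s k154 k16 10 (.d k203 k199 k56 1 12)))), (.s k69 k138 10 (.s k101 k117 3
  (.s k106 k64 6 (.d k111 k96 k239 2 7))))] .n) .n))) (.c k191 (.q k127 [(.s k69 k138 10 (.s k106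
  k64 6 (.s k111 k239 7 (.d k101 k96 k117 2 3)))), (.s k65 k130 8 (.s k69 k138 10 (.s k73 k77 1 (.s
  k134 k12 10 (.d k199 k203 k4 1 8))))), (.s k64 k106 6 (.s k65 k130 8 (.s k66 k67 0 (.s k192 k128 7
  (.s k129 k3 8 (.d k193 k194 k1 0 7))))))] (.c k159 (.q k223 [(.s k69 k138 10 (.s k101 k117 3 (.d
  k154 k48 k16 14 10))), (.s k65 k130 8 (.s k105 k125 5 (.s k154 k16 10 (.d k203 k199 k56 1 12)))),
  (.s k69 k138 10 (.s k101 k117 3 (.s k106 k64 6 (.d k111 k96 k239 2 7))))] .n) (.c k223 (.q k159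
  [(.s k69 k138 10 (.s k106 k64 6 (.s k111 k239 7 (.d k101 k96 k117 2 3)))), (.s k65 k130 8 (.s k69
  k138 10 (.s k73 k77 1 (.s k134 k12 10 (.d k199 k203 k4 1 8))))), (.s k64 k106 6 (.s k65 k130 8 (.s
  k66 k67 0 (.s k192 k128 7 (.s k129 k3 8 (.d k193 k194 k1 0 7))))))] .n) .n))) (.c k223 (.q k159
  [(.s k65 k130 8 (.s k69 k138 10 (.s k73 k77 1 (.s k199 k203 1 (.d k134 k4 k12 8 10))))), (.s k69
  k138 10 (.s k101 k117 3 (.s k48 k154 14 (.s k32 k16 3 (.d k239 k170 k111 10 7))))), (.s k65 k130 8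
  (.s k105 k125 5 (.s k60 k150 14 (.s k109 k158 12 (.s k101 k97 1 (.s k154 k48 14 (.d k203 k199 k56
  1 12)))))))] (.c k127 (.l (.s k191 k143 3 (.s k65 k130 8 (.s k69 k138 10 (.s k73 k77 1 (.s k134
  k12 10 (.d k199 k203 k4 1 8))))))) (.c k191 (.q k127 [(.s k69 k138 10 (.s k106 k64 6 (.s k111 k239
  7 (.d k101 k96 k117 2 3)))), (.s k65 k130 8 (.s k69 k138 10 (.s k73 k77 1 (.s k134 k12 10 (.d k199
  k203 k4 1 8))))), (.s k64 k106 6 (.s k65 k130 8 (.s k66 k67 0 (.s k192 k128 7 (.s k129 k3 8 (.d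
  k193 k194 k1 0 7))))))] .n) .n))) .n))))) (.c k127 (.q k191 [(.s k65 k130 8 (.s k69 k138 10 (.s
  k73 k77 1 (.s k199 k203 1 (.d k134 k4 k12 8 10))))), (.s k65 k130 8 (.s k105 k125 5 (.s k203 k199
  1 (.s k154 k56 12 (.s k16 k223 10 (.d k48 k32 k101 3 14)))))), (.s k65 k130 8 (.s k69 k138 10 (.s
  k101 k117 3 (.s k48 k154 14 (.s k97 k146 12 (.d k105 k109 k125 1 5)))))), (.s k69 k138 10 (.s k101
  k117 3 (.s k199 k203 1 (.s k150 k52 12 (.s k20 k215 8 (.d k60 k40 k105 5 14))))))] (.c k95 (.q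
  k175 [(.s k65 k130 8 (.s k69 k138 10 (.s k73 k77 1 (.s k199 k203 1 (.d k134 k4 k12 8 10))))), (.s
  k69 k138 10 (.s k101 k117 3 (.s k48 k154 14 (.s k32 k16 3 (.d k239 k111 k170 7 10))))), (.s k65
  k130 8 (.s k105 k125 5 (.s k203 k199 1 (.s k154 k56 12 (.s k48 k101 14 (.d k16 k223 k32 10
  3))))))] (.c k79 (.l (.s k111 k239 7 (.s k65 k130 8 (.s k69 k138 10 (.s k73 k77 1 (.s k134 k12 10
  (.d k199 k203 k4 1 8))))))) (.c k111 (.q k79 [(.s k65 k130 8 (.s k69 k138 10 (.s k73 k77 1 (.s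
  k199 k203 1 (.d k134 k4 k12 8 10))))), (.s k65 k130 8 (.s k105 k125 5 (.s k203 k199 1 (.s k154 k56
  12 (.s k48 k101 14 (.d k16 k223 k32 10 3)))))), (.s k65 k130 8 (.s k69 k138 10 (.s k64 k74 2 (.s
  k67 k66 0 (.s k3 k131 7 (.d k71 k75 k139 1 9)))))), (.s k69 k138 10 (.s k101 k117 3 (.s k199 k203
  1 (.s k150 k52 12 (.s k20 k215 8 (.d k60 k40 k105 5 14))))))] (.c k159 (.q k223 [(.s k69 k138 10
  (.s k154 k16 10 (.d k101 k117 k48 3 14))), (.s k65 k130 8 (.s k69 k138 10 (.s k73 k77 1 (.s k134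
  k12 10 (.d k199 k203 k4 1 8))))), (.s k65 k130 8 (.s k105 k125 5 (.s k154 k16 10 (.d k203 k199 k56
  1 12))))] .n) (.c k223 (.l (.s k159 k143 3 (.s k65 k130 8 (.s k69 k138 10 (.s k73 k77 1 (.s k134
  k12 10 (.d k199 k203 k4 1 8))))))) .n))) (.c k159 (.q k223 [(.s k69 k138 10 (.s k154 k16 10 (.d
  k101 k117 k48 3 14))), (.s k65 k130 8 (.s k69 k138 10 (.s k73 k77 1 (.s k134 k12 10 (.d k199 k203
  k4 1 8))))), (.s k65 k130 8 (.s k105 k125 5 (.s k154 k16 10 (.d k203 k199 k56 1 12))))] (.c k79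
  (.l (.s k111 k239 7 (.s k69 k138 10 (.s k101 k117 3 (.d k154 k48 k16 14 10))))) (.c k111 (.q k79
  [(.s k69 k138 10 (.s k154 k16 10 (.d k101 k117 k48 3 14))), (.s k65 k130 8 (.s k69 k138 10 (.s k73
  k77 1 (.s k134 k12 10 (.d k199 k203 k4 1 8))))), (.s k65 k130 8 (.s k105 k125 5 (.s k154 k16 10
  (.d k203 k199 k56 1 12))))] .n) .n))) (.c k223 (.l (.s k159 k143 3 (.s k65 k130 8 (.s k69 k138 10
  (.s k73 k77 1 (.s k134 k12 10 (.d k199 k203 k4 1 8))))))) .n))))) (.c k175 (.q k95 [(.s k65 k130 8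
  (.s k69 k138 10 (.s k73 k77 1 (.s k199 k203 1 (.d k134 k4 k12 8 10))))), (.s k65 k130 8 (.s k105
  k125 5 (.s k203 k199 1 (.s k154 k56 12 (.s k16 k223 10 (.d k48 k32 k101 3 14)))))), (.s k65 k130 8
  (.s k69 k138 10 (.s k101 k117 3 (.s k48 k154 14 (.s k97 k146 12 (.d k105 k109 k125 1 5)))))), (.s
  k69 k138 10 (.s k101 k117 3 (.s k199 k203 1 (.s k150 k52 12 (.s k20 k215 8 (.d k60 k40 k105 5
  14))))))] .n) .n))) (.c k175 (.q k95 [(.s k65 k130 8 (.s k69 k138 10 (.s k73 k77 1 (.s k199 k203 1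
  (.d k134 k4 k12 8 10))))), (.s k69 k138 10 (.s k90 k80 2 (.s k101 k117 3 (.s k79 k112 6 (.s k64
  k74 2 (.d k127 k111 k106 3 6)))))), (.s k65 k130 8 (.s k105 k125 5 (.s k203 k199 1 (.s k154 k56 12
  (.s k16 k223 10 (.d k48 k32 k101 3 14))))))] (.c k127 (.q k191 [(.s k65 k130 8 (.s k69 k138 10 (.s
  k73 k77 1 (.s k199 k203 1 (.d k134 k4 k12 8 10))))), (.s k65 k130 8 (.s k105 k125 5 (.s k203 k199
  1 (.s k154 k56 12 (.s k16 k223 10 (.d k48 k32 k101 3 14)))))), (.s k65 k130 8 (.s k69 k138 10 (.s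
  k101 k117 3 (.s k48 k154 14 (.s k97 k146 12 (.d k105 k109 k125 1 5)))))), (.s k69 k138 10 (.s k101
  k117 3 (.s k199 k203 1 (.s k150 k52 12 (.s k20 k215 8 (.d k60 k40 k105 5 14))))))] .n) (.c k191
  (.q k127 [(.s k69 k138 10 (.s k79 k111 3 (.d k64 k74 k106 2 6))), (.s k69 k138 10 (.s k79 k111 3
  (.s k90 k80 2 (.d k101 k117 k112 3 6)))), (.s k79 k111 3 (.s k90 k80 2 (.s k106 k64 6 (.s k112
  k101 6 (.d k122 k117 k74 2 3)))))] (.c k79 (.l (.s k64 k106 6 (.s k69 k138 10 (.s k80 k90 2 (.s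
  k112 k96 3 (.d k117 k122 k101 2 3)))))) (.c k111 (.l (.s k64 k106 6 (.s k69 k138 10 (.s k79 k74 2
  (.s k90 k80 2 (.d k101 k117 k112 3 6)))))) (.c k143 (.q k159 [(.s k69 k138 10 (.s k79 k111 3 (.d
  k64 k74 k106 2 6))), (.s k79 k111 3 (.s k90 k80 2 (.s k106 k64 6 (.s k112 k101 6 (.d k122 k117 k74
  2 3))))), (.s k69 k138 10 (.s k79 k111 3 (.s k90 k80 2 (.d k101 k117 k112 3 6))))] (.c k79 (.l (.s
  k64 k106 6 (.s k69 k138 10 (.s k80 k90 2 (.s k112 k96 3 (.d k117 k122 k101 2 3)))))) (.c k111 (.l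
  (.s k64 k106 6 (.s k69 k138 10 (.s k79 k74 2 (.s k90 k80 2 (.d k101 k117 k112 3 6)))))) .n))) (.c
  k159 (.q k143 [(.s k69 k138 10 (.s k79 k111 3 (.d k64 k74 k106 2 6))), (.s k69 k138 10 (.s k79
  k111 3 (.s k90 k80 2 (.d k101 k117 k112 3 6)))), (.s k79 k111 3 (.s k90 k80 2 (.s k106 k64 6 (.s
  k112 k101 6 (.d k122 k117 k74 2 3))))), (.s k64 k106 6 (.s k138 k69 10 (.d k128 k192 k133 7 2)))]
  .n) .n))))) .n))) (.c k191 (.q k127 [(.s k65 k130 8 (.s k69 k138 10 (.s k73 k77 1 (.s k199 k203 1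
  (.d k134 k4 k12 8 10))))), (.s k64 k106 6 (.s k65 k130 8 (.s k66 k67 0 (.s k192 k128 7 (.s k129 k3
  8 (.d k193 k194 k1 0 7)))))), (.s k64 k106 6 (.s k69 k138 10 (.s k79 k74 2 (.s k95 k111 3 (.s k90
  k80 2 (.d k101 k117 k112 3 6))))))] (.c k95 (.q k175 [(.s k69 k138 10 (.s k106 k64 6 (.s k111 k239
  7 (.d k101 k96 k117 2 3)))), (.s k65 k130 8 (.s k69 k138 10 (.s k73 k77 1 (.s k134 k12 10 (.d k199
  k203 k4 1 8))))), (.s k64 k106 6 (.s k65 k130 8 (.s k66 k67 0 (.s k192 k128 7 (.s k129 k3 8 (.d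
  k193 k194 k1 0 7))))))] (.c k159 (.q k223 [(.s k69 k138 10 (.s k101 k117 3 (.d k154 k48 k16 14
  10))), (.s k65 k130 8 (.s k105 k125 5 (.s k154 k16 10 (.d k203 k199 k56 1 12)))), (.s k69 k138 10
  (.s k101 k117 3 (.s k106 k64 6 (.d k111 k96 k239 2 7))))] .n) (.c k223 (.q k159 [(.s k69 k138 10
  (.s k106 k64 6 (.s k111 k239 7 (.d k101 k96 k117 2 3)))), (.s k65 k130 8 (.s k69 k138 10 (.s k73
  k77 1 (.s k134 k12 10 (.d k199 k203 k4 1 8))))), (.s k64 k106 6 (.s k65 k130 8 (.s k66 k67 0 (.s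
  k192 k128 7 (.s k129 k3 8 (.d k193 k194 k1 0 7))))))] .n) .n))) (.c k175 (.q k95 [(.s k69 k138 10
  (.s k79 k111 3 (.d k64 k74 k106 2 6))), (.s k69 k138 10 (.s k79 k111 3 (.s k90 k80 2 (.d k101 k117
  k112 3 6)))), (.s k79 k111 3 (.s k90 k80 2 (.s k106 k64 6 (.s k112 k101 6 (.d k122 k117 k74 2
  3)))))] (.c k79 (.l (.s k64 k106 6 (.s k69 k138 10 (.s k80 k90 2 (.s k112 k96 3 (.d k117 k122 k101
  2 3)))))) (.c k111 (.l (.s k64 k106 6 (.s k69 k138 10 (.s k79 k74 2 (.s k90 k80 2 (.d k101 k117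
  k112 3 6)))))) (.c k143 (.q k159 [(.s k69 k138 10 (.s k79 k111 3 (.d k64 k74 k106 2 6))), (.s k79
  k111 3 (.s k90 k80 2 (.s k106 k64 6 (.s k112 k101 6 (.d k122 k117 k74 2 3))))), (.s k69 k138 10
  (.s k79 k111 3 (.s k90 k80 2 (.d k101 k117 k112 3 6))))] (.c k79 (.l (.s k64 k106 6 (.s k69 k138
  10 (.s k80 k90 2 (.s k112 k96 3 (.d k117 k122 k101 2 3)))))) (.c k111 (.l (.s k64 k106 6 (.s k69
  k138 10 (.s k79 k74 2 (.s k90 k80 2 (.d k101 k117 k112 3 6)))))) .n))) (.c k159 (.q k143 [(.s k69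
  k138 10 (.s k79 k111 3 (.d k64 k74 k106 2 6))), (.s k69 k138 10 (.s k79 k111 3 (.s k90 k80 2 (.d
  k101 k117 k112 3 6)))), (.s k79 k111 3 (.s k90 k80 2 (.s k106 k64 6 (.s k112 k101 6 (.d k122 k117
  k74 2 3))))), (.s k64 k106 6 (.s k138 k69 10 (.d k128 k192 k133 7 2)))] .n) .n))))) .n))) .n)))))
  (.c k47 (.q k31 [(.s k65 k130 8 (.s k69 k138 10 (.s k73 k77 1 (.s k199 k203 1 (.d k134 k4 k12 8
  10))))), (.s k65 k130 8 (.s k105 k125 5 (.s k203 k199 1 (.s k154 k56 12 (.s k16 k223 10 (.d k48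
  k32 k101 3 14)))))), (.s k65 k130 8 (.s k69 k138 10 (.s k101 k117 3 (.s k48 k154 14 (.s k97 k146
  12 (.d k105 k109 k125 1 5)))))), (.s k69 k138 10 (.s k101 k117 3 (.s k199 k203 1 (.s k150 k52 12
  (.s k20 k215 8 (.d k60 k40 k105 5 14))))))] (.c k95 (.q k175 [(.s k65 k130 8 (.s k69 k138 10 (.s
  k73 k77 1 (.s k199 k203 1 (.d k134 k4 k12 8 10))))), (.s k65 k130 8 (.s k105 k125 5 (.s k203 k199
  1 (.s k154 k56 12 (.s k16 k223 10 (.d k48 k32 k101 3 14)))))), (.s k65 k130 8 (.s k69 k138 10 (.s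
  k101 k117 3 (.s k48 k154 14 (.s k97 k146 12 (.d k105 k109 k125 1 5)))))), (.s k69 k138 10 (.s k101
  k117 3 (.s k199 k203 1 (.s k150 k52 12 (.s k20 k215 8 (.d k60 k40 k105 5 14))))))] (.c k127 (.q
  k191 [(.s k65 k130 8 (.s k69 k138 10 (.s k73 k77 1 (.s k199 k203 1 (.d k134 k4 k12 8 10))))), (.s
  k65 k130 8 (.s k105 k125 5 (.s k203 k199 1 (.s k154 k56 12 (.s k16 k223 10 (.d k48 k32 k101 3
  14)))))), (.s k65 k130 8 (.s k69 k138 10 (.s k101 k117 3 (.s k48 k154 14 (.s k97 k146 12 (.d k105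
  k109 k125 1 5)))))), (.s k69 k138 10 (.s k101 k117 3 (.s k199 k203 1 (.s k150 k52 12 (.s k20 k215
  8 (.d k60 k40 k105 5 14))))))] (.c k79 (.q k111 [(.s k65 k130 8 (.s k69 k138 10 (.s k199 k203 1
  (.s k134 k4 8 (.d k73 k77 k12 1 10))))), (.s k65 k130 8 (.s k105 k125 5 (.s k203 k199 1 (.s k154
  k56 12 (.s k16 k223 10 (.d k48 k32 k101 3 14)))))), (.s k65 k130 8 (.s k69 k138 10 (.s k101 k117 3
  (.s k48 k154 14 (.s k97 k146 12 (.d k105 k109 k125 1 5)))))), (.s k69 k138 10 (.s k101 k117 3 (.s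
  k199 k203 1 (.s k150 k52 12 (.s k20 k215 8 (.d k60 k40 k105 5 14))))))] .n) (.c k111 (.q k79 [(.s
  k65 k130 8 (.s k69 k138 10 (.s k73 k77 1 (.s k199 k203 1 (.d k134 k4 k12 8 10))))), (.s k65 k130 8
  (.s k105 k125 5 (.s k203 k199 1 (.s k154 k56 12 (.s k16 k223 10 (.d k48 k32 k101 3 14)))))), (.s
  k65 k130 8 (.s k69 k138 10 (.s k64 k74 2 (.s k67 k66 0 (.s k3 k131 7 (.d k71 k75 k139 1 9)))))),
  (.s k69 k138 10 (.s k101 k117 3 (.s k199 k203 1 (.s k150 k52 12 (.s k20 k215 8 (.d k60 k40 k105 5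
  14))))))] .n) .n))) (.c k191 (.q k127 [(.s k65 k130 8 (.s k69 k138 10 (.s k73 k77 1 (.s k199 k203
  1 (.d k134 k4 k12 8 10))))), (.s k64 k106 6 (.s k65 k130 8 (.s k66 k67 0 (.s k192 k128 7 (.s k129
  k3 8 (.d k193 k194 k1 0 7)))))), (.s k69 k138 10 (.s k101 k117 3 (.s k199 k203 1 (.s k150 k52 12
  (.s k20 k215 8 (.d k60 k40 k105 5 14))))))] .n) .n))) (.c k127 (.q k191 [(.s k65 k130 8 (.s k69
  k138 10 (.s k73 k77 1 (.s k199 k203 1 (.d k134 k4 k12 8 10))))), (.s k65 k130 8 (.s k105 k125 5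
  (.s k203 k199 1 (.s k154 k56 12 (.s k16 k223 10 (.d k48 k32 k101 3 14)))))), (.s k65 k130 8 (.s
  k69 k138 10 (.s k101 k117 3 (.s k48 k154 14 (.s k97 k146 12 (.d k105 k109 k125 1 5)))))), (.s k69
  k138 10 (.s k101 k117 3 (.s k199 k203 1 (.s k150 k52 12 (.s k20 k215 8 (.d k60 k40 k105 5
  14))))))] (.c k95 (.q k175 [(.s k65 k130 8 (.s k69 k138 10 (.s k73 k77 1 (.s k199 k203 1 (.d k134
  k4 k12 8 10))))), (.s k65 k130 8 (.s k105 k125 5 (.s k203 k199 1 (.s k154 k56 12 (.s k16 k223 10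
  (.d k48 k32 k101 3 14)))))), (.s k65 k130 8 (.s k69 k138 10 (.s k101 k117 3 (.s k48 k154 14 (.s
  k97 k146 12 (.d k105 k109 k125 1 5)))))), (.s k69 k138 10 (.s k101 k117 3 (.s k199 k203 1 (.s k150
  k52 12 (.s k20 k215 8 (.d k60 k40 k105 5 14))))))] (.c k79 (.q k111 [(.s k65 k130 8 (.s k69 k138
  10 (.s k199 k203 1 (.s k134 k4 8 (.d k73 k77 k12 1 10))))), (.s k65 k130 8 (.s k105 k125 5 (.s
  k203 k199 1 (.s k154 k56 12 (.s k16 k223 10 (.d k48 k32 k101 3 14)))))), (.s k65 k130 8 (.s k69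
  k138 10 (.s k101 k117 3 (.s k48 k154 14 (.s k97 k146 12 (.d k105 k109 k125 1 5)))))), (.s k69 k138
  10 (.s k101 k117 3 (.s k199 k203 1 (.s k150 k52 12 (.s k20 k215 8 (.d k60 k40 k105 5 14))))))] .n)
  (.c k111 (.q k79 [(.s k65 k130 8 (.s k69 k138 10 (.s k73 k77 1 (.s k199 k203 1 (.d k134 k4 k12 8
  10))))), (.s k65 k130 8 (.s k105 k125 5 (.s k203 k199 1 (.s k154 k56 12 (.s k16 k223 10 (.d k48
  k32 k101 3 14)))))), (.s k65 k130 8 (.s k69 k138 10 (.s k64 k74 2 (.s k67 k66 0 (.s k3 k131 7 (.d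
  k71 k75 k139 1 9)))))), (.s k69 k138 10 (.s k101 k117 3 (.s k199 k203 1 (.s k150 k52 12 (.s k20
  k215 8 (.d k60 k40 k105 5 14))))))] .n) .n))) (.c k175 (.q k95 [(.s k69 k138 10 (.s k223 k159 7
  (.s k154 k16 10 (.d k101 k117 k48 3 14)))), (.s k65 k130 8 (.s k69 k138 10 (.s k73 k77 1 (.s k134
  k12 10 (.d k199 k203 k4 1 8))))), (.s k65 k130 8 (.s k105 k125 5 (.s k203 k199 1 (.s k154 k56 12
  (.d k223 k159 k16 7 10)))))] (.c k111 (.q k239 [(.s k69 k138 10 (.s k223 k159 7 (.s k154 k16 10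
  (.d k101 k117 k48 3 14)))), (.s k65 k130 8 (.s k69 k138 10 (.s k73 k77 1 (.s k134 k12 10 (.d k199
  k203 k4 1 8))))), (.s k65 k130 8 (.s k105 k125 5 (.s k203 k199 1 (.s k154 k56 12 (.d k223 k159 k16
  7 10)))))] .n) (.c k239 (.q k111 [(.s k69 k138 10 (.s k223 k159 7 (.s k154 k16 10 (.d k101 k117
  k48 3 14)))), (.s k65 k130 8 (.s k69 k138 10 (.s k73 k77 1 (.s k134 k12 10 (.d k199 k203 k4 1
  8))))), (.s k65 k130 8 (.s k105 k125 5 (.s k203 k199 1 (.s k154 k56 12 (.d k223 k159 k16 7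
  10)))))] .n) .n))) .n))) (.c k175 (.q k95 [(.s k69 k138 10 (.s k223 k159 7 (.s k154 k16 10 (.d
  k101 k117 k48 3 14)))), (.s k65 k130 8 (.s k69 k138 10 (.s k73 k77 1 (.s k134 k12 10 (.d k199 k203
  k4 1 8))))), (.s k65 k130 8 (.s k105 k125 5 (.s k203 k199 1 (.s k154 k56 12 (.d k223 k159 k16 7
  10)))))] (.c k111 (.q k239 [(.s k69 k138 10 (.s k101 k117 3 (.s k48 k154 14 (.d k32 k170 k16 10
  3)))), (.s k65 k130 8 (.s k69 k138 10 (.s k73 k77 1 (.s k134 k12 10 (.d k199 k203 k4 1 8))))), (.s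
  k65 k130 8 (.s k105 k125 5 (.s k203 k199 1 (.s k154 k56 12 (.d k223 k159 k16 7 10)))))] (.c k127
  (.q k191 [(.s k69 k138 10 (.s k223 k159 7 (.s k154 k16 10 (.d k101 k117 k48 3 14)))), (.s k65 k130
  8 (.s k69 k138 10 (.s k73 k77 1 (.s k134 k12 10 (.d k199 k203 k4 1 8))))), (.s k65 k130 8 (.s k105
  k125 5 (.s k203 k199 1 (.s k154 k56 12 (.d k223 k159 k16 7 10)))))] .n) (.c k191 (.q k127 [(.s k69
  k138 10 (.s k101 k117 3 (.s k48 k154 14 (.d k32 k170 k16 10 3)))), (.s k65 k130 8 (.s k105 k125 5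
  (.s k203 k199 1 (.s k154 k56 12 (.d k223 k159 k16 7 10))))), (.s k64 k106 6 (.s k69 k138 10 (.s
  k79 k74 2 (.s k90 k80 2 (.d k101 k117 k112 3 6)))))] (.c k143 (.l (.s k159 k223 7 (.s k69 k138 10
  (.s k101 k117 3 (.s k32 k170 10 (.d k48 k154 k16 14 3)))))) (.c k159 (.q k143 [(.s k138 k69 10 (.s
  k128 k133 2 (.d k64 k192 k106 7 6))), (.s k69 k138 10 (.s k101 k117 3 (.s k48 k154 14 (.d k32 k170
  k16 10 3)))), (.s k64 k106 6 (.s k65 k130 8 (.s k66 k67 0 (.s k192 k128 7 (.s k129 k3 8 (.d k193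
  k194 k1 0 7))))))] .n) .n))) .n))) (.c k127 (.q k191 [(.s k69 k138 10 (.s k223 k159 7 (.s k154 k16
  10 (.d k101 k117 k48 3 14)))), (.s k65 k130 8 (.s k69 k138 10 (.s k73 k77 1 (.s k134 k12 10 (.d
  k199 k203 k4 1 8))))), (.s k65 k130 8 (.s k105 k125 5 (.s k203 k199 1 (.s k154 k56 12 (.d k223
  k159 k16 7 10)))))] (.c k111 (.q k239 [(.s k69 k138 10 (.s k223 k159 7 (.s k154 k16 10 (.d k101
  k117 k48 3 14)))), (.s k65 k130 8 (.s k69 k138 10 (.s k73 k77 1 (.s k134 k12 10 (.d k199 k203 k4 1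
  8))))), (.s k65 k130 8 (.s k105 k125 5 (.s k203 k199 1 (.s k154 k56 12 (.d k223 k159 k16 7
  10)))))] .n) (.c k239 (.q k111 [(.s k69 k138 10 (.s k223 k159 7 (.s k154 k16 10 (.d k101 k117 k48
  3 14)))), (.s k65 k130 8 (.s k69 k138 10 (.s k73 k77 1 (.s k134 k12 10 (.d k199 k203 k4 1 8))))),
  (.s k65 k130 8 (.s k105 k125 5 (.s k203 k199 1 (.s k154 k56 12 (.d k223 k159 k16 7 10)))))] .n)
  .n))) (.c k191 (.q k127 [(.s k64 k106 6 (.s k69 k138 10 (.d k79 k111 k74 3 2))), (.s k65 k130 8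
  (.s k105 k125 5 (.s k203 k199 1 (.s k154 k56 12 (.d k223 k159 k16 7 10)))))] (.c k111 (.q k239
  [(.s k69 k138 10 (.s k101 k117 3 (.s k48 k154 14 (.d k32 k170 k16 10 3)))), (.s k65 k130 8 (.s
  k105 k125 5 (.s k203 k199 1 (.s k154 k56 12 (.d k223 k159 k16 7 10))))), (.s k64 k106 6 (.s k69
  k138 10 (.s k79 k74 2 (.s k90 k80 2 (.d k101 k117 k112 3 6)))))] (.c k143 (.l (.s k159 k223 7 (.s
  k69 k138 10 (.s k101 k117 3 (.s k32 k170 10 (.d k48 k154 k16 14 3)))))) (.c k159 (.q k143 [(.s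
  k138 k69 10 (.s k128 k133 2 (.d k64 k192 k106 7 6))), (.s k69 k138 10 (.s k101 k117 3 (.s k48 k154
  14 (.d k32 k170 k16 10 3)))), (.s k64 k106 6 (.s k65 k130 8 (.s k66 k67 0 (.s k192 k128 7 (.s k129
  k3 8 (.d k193 k194 k1 0 7))))))] .n) .n))) (.c k143 (.l (.s k159 k223 7 (.s k64 k106 6 (.s k69
  k138 10 (.d k79 k74 k111 2 3))))) (.c k159 (.q k143 [(.s k64 k106 6 (.s k69 k138 10 (.d k79 k111
  k74 3 2))), (.s k69 k138 10 (.s k90 k80 2 (.s k101 k117 3 (.d k79 k111 k112 3 6)))), (.s k64 k106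
  6 (.s k65 k130 8 (.s k66 k67 0 (.s k192 k128 7 (.s k129 k3 8 (.d k193 k194 k1 0 7))))))] (.c k111
  (.q k239 [(.s k138 k69 10 (.s k128 k133 2 (.d k64 k192 k106 7 6))), (.s k69 k138 10 (.s k101 k117
  3 (.s k48 k154 14 (.d k32 k170 k16 10 3)))), (.s k64 k106 6 (.s k65 k130 8 (.s k66 k67 0 (.s k192
  k128 7 (.s k129 k3 8 (.d k193 k194 k1 0 7))))))] .n) (.c k239 (.l (.s k111 k79 3 (.s k64 k106 6
  (.s k138 k69 10 (.d k128 k192 k133 7 2))))) .n))) (.c k239 (.l (.s k111 k79 3 (.s k69 k138 10 (.s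
  k101 k117 3 (.d k106 k96 k64 2 6))))) .n))))) (.c k239 (.q k111 [(.s k69 k138 10 (.s k127 k79 3
  (.s k106 k64 6 (.d k101 k96 k117 2 3)))), (.s k65 k130 8 (.s k105 k125 5 (.s k203 k199 1 (.s k154
  k56 12 (.d k223 k159 k16 7 10)))))] (.c k127 (.q k191 [(.s k69 k138 10 (.s k223 k159 7 (.s k154
  k16 10 (.d k101 k117 k48 3 14)))), (.s k65 k130 8 (.s k69 k138 10 (.s k73 k77 1 (.s k134 k12 10
  (.d k199 k203 k4 1 8))))), (.s k65 k130 8 (.s k105 k125 5 (.s k203 k199 1 (.s k154 k56 12 (.d k223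
  k159 k16 7 10)))))] .n) (.c k191 (.l (.s k127 k79 3 (.s k69 k138 10 (.s k101 k117 3 (.d k106 k96
  k64 2 6))))) .n))) .n))))) (.c k191 (.q k127 [(.s k65 k130 8 (.s k69 k138 10 (.s k73 k77 1 (.s
  k199 k203 1 (.d k134 k4 k12 8 10))))), (.s k64 k106 6 (.s k65 k130 8 (.s k66 k67 0 (.s k192 k128 7
  (.s k129 k3 8 (.d k193 k194 k1 0 7)))))), (.s k64 k106 6 (.s k69 k138 10 (.s k79 k74 2 (.s k95
  k111 3 (.s k90 k80 2 (.d k101 k117 k112 3 6))))))] (.c k95 (.q k175 [(.s k65 k130 8 (.s k69 k138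
  10 (.s k73 k77 1 (.s k199 k203 1 (.d k134 k4 k12 8 10))))), (.s k64 k106 6 (.s k65 k130 8 (.s k66
  k67 0 (.s k192 k128 7 (.s k129 k3 8 (.d k193 k194 k1 0 7)))))), (.s k69 k138 10 (.s k101 k117 3
  (.s k199 k203 1 (.s k150 k52 12 (.s k20 k215 8 (.d k60 k40 k105 5 14))))))] .n) (.c k175 (.q k95
  [(.s k64 k106 6 (.s k69 k138 10 (.d k79 k111 k74 3 2))), (.s k65 k130 8 (.s k105 k125 5 (.s k203
  k199 1 (.s k154 k56 12 (.d k223 k159 k16 7 10)))))] (.c k111 (.q k239 [(.s k69 k138 10 (.s k101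
  k117 3 (.s k48 k154 14 (.d k32 k170 k16 10 3)))), (.s k65 k130 8 (.s k105 k125 5 (.s k203 k199 1
  (.s k154 k56 12 (.d k223 k159 k16 7 10))))), (.s k64 k106 6 (.s k69 k138 10 (.s k79 k74 2 (.s k90
  k80 2 (.d k101 k117 k112 3 6)))))] (.c k143 (.l (.s k159 k223 7 (.s k69 k138 10 (.s k101 k117 3
  (.s k32 k170 10 (.d k48 k154 k16 14 3)))))) (.c k159 (.q k143 [(.s k138 k69 10 (.s k128 k133 2 (.d
  k64 k192 k106 7 6))), (.s k69 k138 10 (.s k101 k117 3 (.s k48 k154 14 (.d k32 k170 k16 10 3)))),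
  (.s k64 k106 6 (.s k65 k130 8 (.s k66 k67 0 (.s k192 k128 7 (.s k129 k3 8 (.d k193 k194 k1 0
  7))))))] .n) .n))) (.c k143 (.l (.s k159 k223 7 (.s k64 k106 6 (.s k69 k138 10 (.d k79 k74 k111 2
  3))))) (.c k159 (.q k143 [(.s k64 k106 6 (.s k69 k138 10 (.d k79 k111 k74 3 2))), (.s k69 k138 10
  (.s k90 k80 2 (.s k101 k117 3 (.d k79 k111 k112 3 6)))), (.s k64 k106 6 (.s k65 k130 8 (.s k66 k67
  0 (.s k192 k128 7 (.s k129 k3 8 (.d k193 k194 k1 0 7))))))] (.c k111 (.q k239 [(.s k138 k69 10 (.s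
  k128 k133 2 (.d k64 k192 k106 7 6))), (.s k69 k138 10 (.s k101 k117 3 (.s k48 k154 14 (.d k32 k170
  k16 10 3)))), (.s k64 k106 6 (.s k65 k130 8 (.s k66 k67 0 (.s k192 k128 7 (.s k129 k3 8 (.d k193
  k194 k1 0 7))))))] .n) (.c k239 (.l (.s k111 k79 3 (.s k64 k106 6 (.s k138 k69 10 (.d k128 k192
  k133 7 2))))) .n))) (.c k239 (.l (.s k111 k79 3 (.s k69 k138 10 (.s k101 k117 3 (.d k106 k96 k64 2
  6))))) .n))))) .n))) .n))))) (.c k95 (.q k175 [(.s k65 k130 8 (.s k69 k138 10 (.s k73 k77 1 (.s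
  k199 k203 1 (.d k134 k4 k12 8 10))))), (.s k65 k130 8 (.s k105 k125 5 (.s k203 k199 1 (.s k154 k56
  12 (.s k16 k223 10 (.d k48 k32 k101 3 14)))))), (.s k65 k130 8 (.s k69 k138 10 (.s k101 k117 3 (.s
  k48 k154 14 (.s k97 k146 12 (.d k105 k109 k125 1 5)))))), (.s k69 k138 10 (.s k101 k117 3 (.s k199
  k203 1 (.s k150 k52 12 (.s k20 k215 8 (.d k60 k40 k105 5 14))))))] (.c k31 (.q k47 [(.s k65 k130 8
  (.s k69 k138 10 (.s k73 k77 1 (.s k199 k203 1 (.d k134 k4 k12 8 10))))), (.s k69 k138 10 (.s k101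
  k117 3 (.s k48 k154 14 (.s k32 k16 3 (.d k239 k170 k111 10 7))))), (.s k65 k130 8 (.s k105 k125 5
  (.s k203 k199 1 (.s k154 k56 12 (.s k48 k101 14 (.d k16 k223 k32 10 3))))))] (.c k127 (.q k191
  [(.s k65 k130 8 (.s k69 k138 10 (.s k73 k77 1 (.s k199 k203 1 (.d k134 k4 k12 8 10))))), (.s k69
  k138 10 (.s k101 k117 3 (.s k48 k154 14 (.s k32 k16 3 (.d k239 k111 k170 7 10))))), (.s k65 k130 8
  (.s k105 k125 5 (.s k203 k199 1 (.s k154 k56 12 (.s k48 k101 14 (.d k16 k223 k32 10 3))))))] (.c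
  k79 (.l (.s k111 k239 7 (.s k65 k130 8 (.s k69 k138 10 (.s k73 k77 1 (.s k134 k12 10 (.d k199 k203
  k4 1 8))))))) (.c k111 (.q k79 [(.s k65 k130 8 (.s k69 k138 10 (.s k73 k77 1 (.s k199 k203 1 (.d
  k134 k4 k12 8 10))))), (.s k65 k130 8 (.s k105 k125 5 (.s k203 k199 1 (.s k154 k56 12 (.s k48 k101
  14 (.d k16 k223 k32 10 3)))))), (.s k65 k130 8 (.s k69 k138 10 (.s k64 k74 2 (.s k67 k66 0 (.s k3
  k131 7 (.d k71 k75 k139 1 9)))))), (.s k69 k138 10 (.s k101 k117 3 (.s k199 k203 1 (.s k150 k52 12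
  (.s k20 k215 8 (.d k60 k40 k105 5 14))))))] (.c k159 (.q k223 [(.s k69 k138 10 (.s k154 k16 10 (.d
  k101 k117 k48 3 14))), (.s k65 k130 8 (.s k69 k138 10 (.s k73 k77 1 (.s k134 k12 10 (.d k199 k203
  k4 1 8))))), (.s k65 k130 8 (.s k105 k125 5 (.s k154 k16 10 (.d k203 k199 k56 1 12))))] .n) (.c
  k223 (.l (.s k159 k143 3 (.s k65 k130 8 (.s k69 k138 10 (.s k73 k77 1 (.s k134 k12 10 (.d k199
  k203 k4 1 8))))))) .n))) (.c k159 (.q k223 [(.s k69 k138 10 (.s k154 k16 10 (.d k101 k117 k48 3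
  14))), (.s k65 k130 8 (.s k69 k138 10 (.s k73 k77 1 (.s k134 k12 10 (.d k199 k203 k4 1 8))))), (.s
  k65 k130 8 (.s k105 k125 5 (.s k154 k16 10 (.d k203 k199 k56 1 12))))] (.c k79 (.l (.s k111 k239 7
  (.s k69 k138 10 (.s k101 k117 3 (.d k154 k48 k16 14 10))))) (.c k111 (.q k79 [(.s k69 k138 10 (.s
  k154 k16 10 (.d k101 k117 k48 3 14))), (.s k65 k130 8 (.s k69 k138 10 (.s k73 k77 1 (.s k134 k12
  10 (.d k199 k203 k4 1 8))))), (.s k65 k130 8 (.s k105 k125 5 (.s k154 k16 10 (.d k203 k199 k56 1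
  12))))] .n) .n))) (.c k223 (.l (.s k159 k143 3 (.s k65 k130 8 (.s k69 k138 10 (.s k73 k77 1 (.s
  k134 k12 10 (.d k199 k203 k4 1 8))))))) .n))))) (.c k159 (.q k223 [(.s k69 k138 10 (.s k101 k117 3
  (.d k154 k48 k16 14 10))), (.s k65 k130 8 (.s k69 k138 10 (.s k73 k77 1 (.s k134 k12 10 (.d k199
  k203 k4 1 8))))), (.s k65 k130 8 (.s k105 k125 5 (.s k154 k16 10 (.d k203 k199 k56 1 12))))] (.c
  k127 (.q k191 [(.s k69 k138 10 (.s k154 k16 10 (.d k101 k117 k48 3 14))), (.s k65 k130 8 (.s k69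
  k138 10 (.s k73 k77 1 (.s k134 k12 10 (.d k199 k203 k4 1 8))))), (.s k65 k130 8 (.s k105 k125 5
  (.s k154 k16 10 (.d k203 k199 k56 1 12))))] (.c k79 (.l (.s k111 k239 7 (.s k69 k138 10 (.s k101
  k117 3 (.d k154 k48 k16 14 10))))) (.c k111 (.q k79 [(.s k69 k138 10 (.s k154 k16 10 (.d k101 k117
  k48 3 14))), (.s k65 k130 8 (.s k69 k138 10 (.s k73 k77 1 (.s k134 k12 10 (.d k199 k203 k4 1
  8))))), (.s k65 k130 8 (.s k105 k125 5 (.s k154 k16 10 (.d k203 k199 k56 1 12))))] .n) .n))) (.c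
  k191 (.q k127 [(.s k69 k138 10 (.s k101 k117 3 (.d k154 k48 k16 14 10))), (.s k65 k130 8 (.s k105
  k125 5 (.s k154 k16 10 (.d k203 k199 k56 1 12)))), (.s k69 k138 10 (.s k101 k117 3 (.s k106 k64 6
  (.d k111 k96 k239 2 7))))] .n) .n))) (.c k191 (.q k127 [(.s k69 k138 10 (.s k106 k64 6 (.s k111
  k239 7 (.d k101 k96 k117 2 3)))), (.s k65 k130 8 (.s k69 k138 10 (.s k73 k77 1 (.s k134 k12 10 (.d
  k199 k203 k4 1 8))))), (.s k64 k106 6 (.s k65 k130 8 (.s k66 k67 0 (.s k192 k128 7 (.s k129 k3 8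
  (.d k193 k194 k1 0 7))))))] (.c k159 (.q k223 [(.s k69 k138 10 (.s k101 k117 3 (.d k154 k48 k16 14
  10))), (.s k65 k130 8 (.s k105 k125 5 (.s k154 k16 10 (.d k203 k199 k56 1 12)))), (.s k69 k138 10
  (.s k101 k117 3 (.s k106 k64 6 (.d k111 k96 k239 2 7))))] .n) (.c k223 (.q k159 [(.s k69 k138 10
  (.s k106 k64 6 (.s k111 k239 7 (.d k101 k96 k117 2 3)))), (.s k65 k130 8 (.s k69 k138 10 (.s k73
  k77 1 (.s k134 k12 10 (.d k199 k203 k4 1 8))))), (.s k64 k106 6 (.s k65 k130 8 (.s k66 k67 0 (.s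
  k192 k128 7 (.s k129 k3 8 (.d k193 k194 k1 0 7))))))] .n) .n))) (.c k223 (.q k159 [(.s k65 k130 8
  (.s k69 k138 10 (.s k73 k77 1 (.s k199 k203 1 (.d k134 k4 k12 8 10))))), (.s k69 k138 10 (.s k101
  k117 3 (.s k48 k154 14 (.s k32 k16 3 (.d k239 k170 k111 10 7))))), (.s k65 k130 8 (.s k105 k125 5
  (.s k60 k150 14 (.s k109 k158 12 (.s k101 k97 1 (.s k154 k48 14 (.d k203 k199 k56 1 12)))))))] (.c
  k127 (.l (.s k191 k143 3 (.s k65 k130 8 (.s k69 k138 10 (.s k73 k77 1 (.s k134 k12 10 (.d k199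
  k203 k4 1 8))))))) (.c k191 (.q k127 [(.s k69 k138 10 (.s k106 k64 6 (.s k111 k239 7 (.d k101 k96
  k117 2 3)))), (.s k65 k130 8 (.s k69 k138 10 (.s k73 k77 1 (.s k134 k12 10 (.d k199 k203 k4 1
  8))))), (.s k64 k106 6 (.s k65 k130 8 (.s k66 k67 0 (.s k192 k128 7 (.s k129 k3 8 (.d k193 k194 k1
  0 7))))))] .n) .n))) .n))))) (.c k47 (.q k31 [(.s k65 k130 8 (.s k69 k138 10 (.s k73 k77 1 (.s
  k199 k203 1 (.d k134 k4 k12 8 10))))), (.s k65 k130 8 (.s k105 k125 5 (.s k203 k199 1 (.s k154 k56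
  12 (.s k16 k223 10 (.d k48 k32 k101 3 14)))))), (.s k65 k130 8 (.s k69 k138 10 (.s k101 k117 3 (.s
  k48 k154 14 (.s k97 k146 12 (.d k105 k109 k125 1 5)))))), (.s k69 k138 10 (.s k101 k117 3 (.s k199
  k203 1 (.s k150 k52 12 (.s k20 k215 8 (.d k60 k40 k105 5 14))))))] (.c k127 (.q k191 [(.s k65 k130
  8 (.s k69 k138 10 (.s k73 k77 1 (.s k199 k203 1 (.d k134 k4 k12 8 10))))), (.s k65 k130 8 (.s k105
  k125 5 (.s k203 k199 1 (.s k154 k56 12 (.s k16 k223 10 (.d k48 k32 k101 3 14)))))), (.s k65 k130 8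
  (.s k69 k138 10 (.s k101 k117 3 (.s k48 k154 14 (.s k97 k146 12 (.d k105 k109 k125 1 5)))))), (.s
  k69 k138 10 (.s k101 k117 3 (.s k199 k203 1 (.s k150 k52 12 (.s k20 k215 8 (.d k60 k40 k105 5
  14))))))] (.c k79 (.q k111 [(.s k65 k130 8 (.s k69 k138 10 (.s k199 k203 1 (.s k134 k4 8 (.d k73
  k77 k12 1 10))))), (.s k65 k130 8 (.s k105 k125 5 (.s k203 k199 1 (.s k154 k56 12 (.s k16 k223 10
  (.d k48 k32 k101 3 14)))))), (.s k65 k130 8 (.s k69 k138 10 (.s k101 k117 3 (.s k48 k154 14 (.s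
  k97 k146 12 (.d k105 k109 k125 1 5)))))), (.s k69 k138 10 (.s k101 k117 3 (.s k199 k203 1 (.s k150
  k52 12 (.s k20 k215 8 (.d k60 k40 k105 5 14))))))] .n) (.c k111 (.q k79 [(.s k65 k130 8 (.s k69
  k138 10 (.s k73 k77 1 (.s k199 k203 1 (.d k134 k4 k12 8 10))))), (.s k65 k130 8 (.s k105 k125 5
  (.s k203 k199 1 (.s k154 k56 12 (.s k16 k223 10 (.d k48 k32 k101 3 14)))))), (.s k65 k130 8 (.s
  k69 k138 10 (.s k64 k74 2 (.s k67 k66 0 (.s k3 k131 7 (.d k71 k75 k139 1 9)))))), (.s k69 k138 10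
  (.s k101 k117 3 (.s k199 k203 1 (.s k150 k52 12 (.s k20 k215 8 (.d k60 k40 k105 5 14))))))] .n)
  .n))) (.c k191 (.q k127 [(.s k65 k130 8 (.s k69 k138 10 (.s k73 k77 1 (.s k199 k203 1 (.d k134 k4
  k12 8 10))))), (.s k64 k106 6 (.s k65 k130 8 (.s k66 k67 0 (.s k192 k128 7 (.s k129 k3 8 (.d k193
  k194 k1 0 7)))))), (.s k69 k138 10 (.s k101 k117 3 (.s k199 k203 1 (.s k150 k52 12 (.s k20 k215 8
  (.d k60 k40 k105 5 14))))))] .n) .n))) (.c k127 (.q k191 [(.s k65 k130 8 (.s k69 k138 10 (.s k73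
  k77 1 (.s k199 k203 1 (.d k134 k4 k12 8 10))))), (.s k65 k130 8 (.s k105 k125 5 (.s k203 k199 1
  (.s k154 k56 12 (.s k16 k223 10 (.d k48 k32 k101 3 14)))))), (.s k65 k130 8 (.s k69 k138 10 (.s
  k101 k117 3 (.s k48 k154 14 (.s k97 k146 12 (.d k105 k109 k125 1 5)))))), (.s k69 k138 10 (.s k101
  k117 3 (.s k199 k203 1 (.s k150 k52 12 (.s k20 k215 8 (.d k60 k40 k105 5 14))))))] (.c k31 (.q k47
  [(.s k65 k130 8 (.s k69 k138 10 (.s k73 k77 1 (.s k199 k203 1 (.d k134 k4 k12 8 10))))), (.s k69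
  k138 10 (.s k101 k117 3 (.s k48 k154 14 (.s k32 k16 3 (.d k239 k111 k170 7 10))))), (.s k65 k130 8
  (.s k105 k125 5 (.s k203 k199 1 (.s k154 k56 12 (.s k48 k101 14 (.d k16 k223 k32 10 3))))))] (.c
  k79 (.l (.s k111 k239 7 (.s k65 k130 8 (.s k69 k138 10 (.s k73 k77 1 (.s k134 k12 10 (.d k199 k203
  k4 1 8))))))) (.c k111 (.q k79 [(.s k65 k130 8 (.s k69 k138 10 (.s k73 k77 1 (.s k199 k203 1 (.d
  k134 k4 k12 8 10))))), (.s k65 k130 8 (.s k105 k125 5 (.s k203 k199 1 (.s k154 k56 12 (.s k48 k101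
  14 (.d k16 k223 k32 10 3)))))), (.s k65 k130 8 (.s k69 k138 10 (.s k64 k74 2 (.s k67 k66 0 (.s k3
  k131 7 (.d k71 k75 k139 1 9)))))), (.s k69 k138 10 (.s k101 k117 3 (.s k199 k203 1 (.s k150 k52 12
  (.s k20 k215 8 (.d k60 k40 k105 5 14))))))] (.c k159 (.q k223 [(.s k69 k138 10 (.s k154 k16 10 (.d
  k101 k117 k48 3 14))), (.s k65 k130 8 (.s k69 k138 10 (.s k73 k77 1 (.s k134 k12 10 (.d k199 k203
  k4 1 8))))), (.s k65 k130 8 (.s k105 k125 5 (.s k154 k16 10 (.d k203 k199 k56 1 12))))] .n) (.c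
  k223 (.l (.s k159 k143 3 (.s k65 k130 8 (.s k69 k138 10 (.s k73 k77 1 (.s k134 k12 10 (.d k199
  k203 k4 1 8))))))) .n))) (.c k159 (.q k223 [(.s k69 k138 10 (.s k154 k16 10 (.d k101 k117 k48 3
  14))), (.s k65 k130 8 (.s k69 k138 10 (.s k73 k77 1 (.s k134 k12 10 (.d k199 k203 k4 1 8))))), (.s
  k65 k130 8 (.s k105 k125 5 (.s k154 k16 10 (.d k203 k199 k56 1 12))))] (.c k79 (.l (.s k111 k239 7
  (.s k69 k138 10 (.s k101 k117 3 (.d k154 k48 k16 14 10))))) (.c k111 (.q k79 [(.s k69 k138 10 (.s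
  k154 k16 10 (.d k101 k117 k48 3 14))), (.s k65 k130 8 (.s k69 k138 10 (.s k73 k77 1 (.s k134 k12
  10 (.d k199 k203 k4 1 8))))), (.s k65 k130 8 (.s k105 k125 5 (.s k154 k16 10 (.d k203 k199 k56 1
  12))))] .n) .n))) (.c k223 (.l (.s k159 k143 3 (.s k65 k130 8 (.s k69 k138 10 (.s k73 k77 1 (.s
  k134 k12 10 (.d k199 k203 k4 1 8))))))) .n))))) (.c k47 (.q k31 [(.s k65 k130 8 (.s k69 k138 10
  (.s k73 k77 1 (.s k199 k203 1 (.d k134 k4 k12 8 10))))), (.s k65 k130 8 (.s k105 k125 5 (.s k203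
  k199 1 (.s k154 k56 12 (.s k16 k223 10 (.d k48 k32 k101 3 14)))))), (.s k65 k130 8 (.s k69 k138 10
  (.s k101 k117 3 (.s k48 k154 14 (.s k97 k146 12 (.d k105 k109 k125 1 5)))))), (.s k69 k138 10 (.s
  k101 k117 3 (.s k199 k203 1 (.s k150 k52 12 (.s k20 k215 8 (.d k60 k40 k105 5 14))))))] (.c k79
  (.q k111 [(.s k65 k130 8 (.s k69 k138 10 (.s k199 k203 1 (.s k134 k4 8 (.d k73 k77 k12 1 10))))),
  (.s k65 k130 8 (.s k105 k125 5 (.s k203 k199 1 (.s k154 k56 12 (.s k16 k223 10 (.d k48 k32 k101 3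
  14)))))), (.s k65 k130 8 (.s k69 k138 10 (.s k101 k117 3 (.s k48 k154 14 (.s k97 k146 12 (.d k105
  k109 k125 1 5)))))), (.s k69 k138 10 (.s k101 k117 3 (.s k199 k203 1 (.s k150 k52 12 (.s k20 k215
  8 (.d k60 k40 k105 5 14))))))] .n) (.c k111 (.q k79 [(.s k65 k130 8 (.s k69 k138 10 (.s k73 k77 1
  (.s k199 k203 1 (.d k134 k4 k12 8 10))))), (.s k65 k130 8 (.s k105 k125 5 (.s k203 k199 1 (.s k154
  k56 12 (.s k16 k223 10 (.d k48 k32 k101 3 14)))))), (.s k65 k130 8 (.s k69 k138 10 (.s k64 k74 2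
  (.s k67 k66 0 (.s k3 k131 7 (.d k71 k75 k139 1 9)))))), (.s k69 k138 10 (.s k101 k117 3 (.s k199
  k203 1 (.s k150 k52 12 (.s k20 k215 8 (.d k60 k40 k105 5 14))))))] .n) .n))) (.c k79 (.q k111 [(.s
  k69 k138 10 (.s k101 k117 3 (.s k48 k154 14 (.s k32 k16 3 (.d k239 k47 k170 7 10))))), (.s k65
  k130 8 (.s k69 k138 10 (.s k73 k77 1 (.s k134 k12 10 (.d k199 k203 k4 1 8))))), (.s k65 k130 8 (.s
  k105 k125 5 (.s k203 k199 1 (.s k154 k56 12 (.s k16 k223 10 (.d k48 k32 k101 3 14))))))] (.c k31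
  (.l (.s k47 k239 7 (.s k65 k130 8 (.s k69 k138 10 (.s k73 k77 1 (.s k134 k12 10 (.d k199 k203 k4 1
  8))))))) (.c k47 (.q k31 [(.s k65 k130 8 (.s k69 k138 10 (.s k199 k203 1 (.s k134 k4 8 (.d k73 k77
  k12 1 10))))), (.s k65 k130 8 (.s k105 k125 5 (.s k203 k199 1 (.s k154 k56 12 (.s k16 k223 10 (.d
  k48 k32 k101 3 14)))))), (.s k65 k130 8 (.s k69 k138 10 (.s k101 k117 3 (.s k48 k154 14 (.s k97
  k146 12 (.d k105 k109 k125 1 5)))))), (.s k69 k138 10 (.s k101 k117 3 (.s k199 k203 1 (.s k150 k52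
  12 (.s k20 k215 8 (.d k60 k40 k105 5 14))))))] .n) .n))) (.c k111 (.q k79 [(.s k65 k130 8 (.s k69
  k138 10 (.s k73 k77 1 (.s k199 k203 1 (.d k134 k4 k12 8 10))))), (.s k65 k130 8 (.s k105 k125 5
  (.s k203 k199 1 (.s k154 k56 12 (.s k16 k223 10 (.d k48 k32 k101 3 14)))))), (.s k65 k130 8 (.s
  k69 k138 10 (.s k64 k74 2 (.s k67 k66 0 (.s k3 k131 7 (.d k71 k75 k139 1 9)))))), (.s k69 k138 10
  (.s k101 k117 3 (.s k199 k203 1 (.s k150 k52 12 (.s k20 k215 8 (.d k60 k40 k105 5 14))))))] (.c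
  k31 (.q k47 [(.s k65 k130 8 (.s k69 k138 10 (.s k73 k77 1 (.s k199 k203 1 (.d k134 k4 k12 8
  10))))), (.s k65 k130 8 (.s k105 k125 5 (.s k203 k199 1 (.s k154 k56 12 (.s k48 k101 14 (.d k16
  k223 k32 10 3)))))), (.s k65 k130 8 (.s k69 k138 10 (.s k64 k74 2 (.s k67 k66 0 (.s k3 k131 7 (.d
  k71 k75 k139 1 9)))))), (.s k69 k138 10 (.s k101 k117 3 (.s k199 k203 1 (.s k150 k52 12 (.s k20
  k215 8 (.d k60 k40 k105 5 14))))))] (.c k159 (.q k223 [(.s k69 k138 10 (.s k154 k16 10 (.d k101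
  k117 k48 3 14))), (.s k65 k130 8 (.s k69 k138 10 (.s k73 k77 1 (.s k134 k12 10 (.d k199 k203 k4 1
  8))))), (.s k65 k130 8 (.s k105 k125 5 (.s k154 k16 10 (.d k203 k199 k56 1 12))))] .n) (.c k223
  (.l (.s k159 k143 3 (.s k65 k130 8 (.s k69 k138 10 (.s k73 k77 1 (.s k134 k12 10 (.d k199 k203 k4
  1 8))))))) .n))) (.c k47 (.q k31 [(.s k65 k130 8 (.s k69 k138 10 (.s k73 k77 1 (.s k199 k203 1 (.d
  k134 k4 k12 8 10))))), (.s k65 k130 8 (.s k105 k125 5 (.s k203 k199 1 (.s k154 k56 12 (.s k16 k223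
  10 (.d k48 k32 k101 3 14)))))), (.s k65 k130 8 (.s k69 k138 10 (.s k64 k74 2 (.s k67 k66 0 (.s k3
  k131 7 (.d k71 k75 k139 1 9)))))), (.s k69 k138 10 (.s k101 k117 3 (.s k199 k203 1 (.s k150 k52 12
  (.s k20 k215 8 (.d k60 k40 k105 5 14))))))] .n) .n))) .n))))) (.c k191 (.q k127 [(.s k65 k130 8
  (.s k69 k138 10 (.s k73 k77 1 (.s k199 k203 1 (.d k134 k4 k12 8 10))))), (.s k64 k106 6 (.s k65
  k130 8 (.s k66 k67 0 (.s k192 k128 7 (.s k129 k3 8 (.d k193 k194 k1 0 7)))))), (.s k69 k138 10 (.s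
  k101 k117 3 (.s k199 k203 1 (.s k150 k52 12 (.s k20 k215 8 (.d k60 k40 k105 5 14))))))] (.c k31
  (.q k47 [(.s k69 k138 10 (.s k106 k64 6 (.s k111 k239 7 (.d k101 k96 k117 2 3)))), (.s k65 k130 8
  (.s k69 k138 10 (.s k73 k77 1 (.s k134 k12 10 (.d k199 k203 k4 1 8))))), (.s k64 k106 6 (.s k65
  k130 8 (.s k66 k67 0 (.s k192 k128 7 (.s k129 k3 8 (.d k193 k194 k1 0 7))))))] (.c k159 (.q k223
  [(.s k69 k138 10 (.s k101 k117 3 (.d k154 k48 k16 14 10))), (.s k65 k130 8 (.s k105 k125 5 (.s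
  k154 k16 10 (.d k203 k199 k56 1 12)))), (.s k69 k138 10 (.s k101 k117 3 (.s k106 k64 6 (.d k111
  k96 k239 2 7))))] .n) (.c k223 (.q k159 [(.s k69 k138 10 (.s k106 k64 6 (.s k111 k239 7 (.d k101
  k96 k117 2 3)))), (.s k65 k130 8 (.s k69 k138 10 (.s k73 k77 1 (.s k134 k12 10 (.d k199 k203 k4 1
  8))))), (.s k64 k106 6 (.s k65 k130 8 (.s k66 k67 0 (.s k192 k128 7 (.s k129 k3 8 (.d k193 k194 k1
  0 7))))))] .n) .n))) (.c k47 (.q k31 [(.s k65 k130 8 (.s k69 k138 10 (.s k73 k77 1 (.s k199 k203 1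
  (.d k134 k4 k12 8 10))))), (.s k64 k106 6 (.s k65 k130 8 (.s k66 k67 0 (.s k192 k128 7 (.s k129 k3
  8 (.d k193 k194 k1 0 7)))))), (.s k69 k138 10 (.s k101 k117 3 (.s k199 k203 1 (.s k150 k52 12 (.s
  k20 k215 8 (.d k60 k40 k105 5 14))))))] .n) .n))) .n))))) (.c k127 (.q k191 [(.s k65 k130 8 (.s
  k69 k138 10 (.s k73 k77 1 (.s k199 k203 1 (.d k134 k4 k12 8 10))))), (.s k65 k130 8 (.s k105 k125
  5 (.s k203 k199 1 (.s k154 k56 12 (.s k16 k223 10 (.d k48 k32 k101 3 14)))))), (.s k65 k130 8 (.s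
  k69 k138 10 (.s k101 k117 3 (.s k48 k154 14 (.s k97 k146 12 (.d k105 k109 k125 1 5)))))), (.s k69
  k138 10 (.s k101 k117 3 (.s k199 k203 1 (.s k150 k52 12 (.s k20 k215 8 (.d k60 k40 k105 5
  14))))))] (.c k31 (.q k47 [(.s k65 k130 8 (.s k69 k138 10 (.s k73 k77 1 (.s k199 k203 1 (.d k134
  k4 k12 8 10))))), (.s k65 k130 8 (.s k105 k125 5 (.s k203 k199 1 (.s k154 k56 12 (.s k16 k223 10
  (.d k48 k32 k101 3 14)))))), (.s k65 k130 8 (.s k69 k138 10 (.s k101 k117 3 (.s k48 k154 14 (.s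
  k97 k146 12 (.d k105 k109 k125 1 5)))))), (.s k69 k138 10 (.s k101 k117 3 (.s k199 k203 1 (.s k150
  k52 12 (.s k20 k215 8 (.d k60 k40 k105 5 14))))))] (.c k95 (.q k175 [(.s k65 k130 8 (.s k69 k138
  10 (.s k73 k77 1 (.s k199 k203 1 (.d k134 k4 k12 8 10))))), (.s k69 k138 10 (.s k101 k117 3 (.s
  k48 k154 14 (.s k32 k16 3 (.d k239 k111 k170 7 10))))), (.s k65 k130 8 (.s k105 k125 5 (.s k203
  k199 1 (.s k154 k56 12 (.s k48 k101 14 (.d k16 k223 k32 10 3))))))] (.c k79 (.l (.s k111 k239 7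
  (.s k65 k130 8 (.s k69 k138 10 (.s k73 k77 1 (.s k134 k12 10 (.d k199 k203 k4 1 8))))))) (.c k111
  (.q k79 [(.s k65 k130 8 (.s k69 k138 10 (.s k73 k77 1 (.s k199 k203 1 (.d k134 k4 k12 8 10))))),
  (.s k65 k130 8 (.s k105 k125 5 (.s k203 k199 1 (.s k154 k56 12 (.s k48 k101 14 (.d k16 k223 k32 10
  3)))))), (.s k65 k130 8 (.s k69 k138 10 (.s k64 k74 2 (.s k67 k66 0 (.s k3 k131 7 (.d k71 k75 k139
  1 9)))))), (.s k69 k138 10 (.s k101 k117 3 (.s k199 k203 1 (.s k150 k52 12 (.s k20 k215 8 (.d k60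
  k40 k105 5 14))))))] (.c k159 (.q k223 [(.s k69 k138 10 (.s k154 k16 10 (.d k101 k117 k48 3 14))),
  (.s k65 k130 8 (.s k69 k138 10 (.s k73 k77 1 (.s k134 k12 10 (.d k199 k203 k4 1 8))))), (.s k65
  k130 8 (.s k105 k125 5 (.s k154 k16 10 (.d k203 k199 k56 1 12))))] .n) (.c k223 (.l (.s k159 k143
  3 (.s k65 k130 8 (.s k69 k138 10 (.s k73 k77 1 (.s k134 k12 10 (.d k199 k203 k4 1 8))))))) .n)))
  (.c k159 (.q k223 [(.s k69 k138 10 (.s k154 k16 10 (.d k101 k117 k48 3 14))), (.s k65 k130 8 (.s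
  k69 k138 10 (.s k73 k77 1 (.s k134 k12 10 (.d k199 k203 k4 1 8))))), (.s k65 k130 8 (.s k105 k125
  5 (.s k154 k16 10 (.d k203 k199 k56 1 12))))] (.c k79 (.l (.s k111 k239 7 (.s k69 k138 10 (.s k101
  k117 3 (.d k154 k48 k16 14 10))))) (.c k111 (.q k79 [(.s k69 k138 10 (.s k154 k16 10 (.d k101 k117
  k48 3 14))), (.s k65 k130 8 (.s k69 k138 10 (.s k73 k77 1 (.s k134 k12 10 (.d k199 k203 k4 1
  8))))), (.s k65 k130 8 (.s k105 k125 5 (.s k154 k16 10 (.d k203 k199 k56 1 12))))] .n) .n))) (.c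
  k223 (.l (.s k159 k143 3 (.s k65 k130 8 (.s k69 k138 10 (.s k73 k77 1 (.s k134 k12 10 (.d k199
  k203 k4 1 8))))))) .n))))) (.c k175 (.q k95 [(.s k65 k130 8 (.s k69 k138 10 (.s k73 k77 1 (.s k199
  k203 1 (.d k134 k4 k12 8 10))))), (.s k65 k130 8 (.s k105 k125 5 (.s k203 k199 1 (.s k154 k56 12
  (.s k16 k223 10 (.d k48 k32 k101 3 14)))))), (.s k65 k130 8 (.s k69 k138 10 (.s k101 k117 3 (.s
  k48 k154 14 (.s k97 k146 12 (.d k105 k109 k125 1 5)))))), (.s k69 k138 10 (.s k101 k117 3 (.s k199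
  k203 1 (.s k150 k52 12 (.s k20 k215 8 (.d k60 k40 k105 5 14))))))] .n) .n))) (.c k47 (.q k31 [(.s
  k65 k130 8 (.s k69 k138 10 (.s k73 k77 1 (.s k199 k203 1 (.d k134 k4 k12 8 10))))), (.s k65 k130 8
  (.s k105 k125 5 (.s k203 k199 1 (.s k154 k56 12 (.s k16 k223 10 (.d k48 k32 k101 3 14)))))), (.s
  k65 k130 8 (.s k69 k138 10 (.s k101 k117 3 (.s k48 k154 14 (.s k97 k146 12 (.d k105 k109 k125 1
  5)))))), (.s k69 k138 10 (.s k101 k117 3 (.s k199 k203 1 (.s k150 k52 12 (.s k20 k215 8 (.d k60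
  k40 k105 5 14))))))] (.c k95 (.q k175 [(.s k65 k130 8 (.s k69 k138 10 (.s k73 k77 1 (.s k199 k203
  1 (.d k134 k4 k12 8 10))))), (.s k65 k130 8 (.s k105 k125 5 (.s k203 k199 1 (.s k154 k56 12 (.s
  k16 k223 10 (.d k48 k32 k101 3 14)))))), (.s k65 k130 8 (.s k69 k138 10 (.s k101 k117 3 (.s k48
  k154 14 (.s k97 k146 12 (.d k105 k109 k125 1 5)))))), (.s k69 k138 10 (.s k101 k117 3 (.s k199
  k203 1 (.s k150 k52 12 (.s k20 k215 8 (.d k60 k40 k105 5 14))))))] (.c k79 (.q k111 [(.s k65 k130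
  8 (.s k69 k138 10 (.s k199 k203 1 (.s k134 k4 8 (.d k73 k77 k12 1 10))))), (.s k65 k130 8 (.s k105
  k125 5 (.s k203 k199 1 (.s k154 k56 12 (.s k16 k223 10 (.d k48 k32 k101 3 14)))))), (.s k65 k130 8
  (.s k69 k138 10 (.s k101 k117 3 (.s k48 k154 14 (.s k97 k146 12 (.d k105 k109 k125 1 5)))))), (.s
  k69 k138 10 (.s k101 k117 3 (.s k199 k203 1 (.s k150 k52 12 (.s k20 k215 8 (.d k60 k40 k105 5
  14))))))] .n) (.c k111 (.q k79 [(.s k65 k130 8 (.s k69 k138 10 (.s k73 k77 1 (.s k199 k203 1 (.d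
  k134 k4 k12 8 10))))), (.s k65 k130 8 (.s k105 k125 5 (.s k203 k199 1 (.s k154 k56 12 (.s k16 k223
  10 (.d k48 k32 k101 3 14)))))), (.s k65 k130 8 (.s k69 k138 10 (.s k64 k74 2 (.s k67 k66 0 (.s k3
  k131 7 (.d k71 k75 k139 1 9)))))), (.s k69 k138 10 (.s k101 k117 3 (.s k199 k203 1 (.s k150 k52 12
  (.s k20 k215 8 (.d k60 k40 k105 5 14))))))] .n) .n))) (.c k175 (.q k95 [(.s k69 k138 10 (.s k223
  k159 7 (.s k154 k16 10 (.d k101 k117 k48 3 14)))), (.s k65 k130 8 (.s k69 k138 10 (.s k73 k77 1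
  (.s k134 k12 10 (.d k199 k203 k4 1 8))))), (.s k65 k130 8 (.s k105 k125 5 (.s k203 k199 1 (.s k154
  k56 12 (.d k223 k159 k16 7 10)))))] (.c k111 (.q k239 [(.s k69 k138 10 (.s k223 k159 7 (.s k154
  k16 10 (.d k101 k117 k48 3 14)))), (.s k65 k130 8 (.s k69 k138 10 (.s k73 k77 1 (.s k134 k12 10
  (.d k199 k203 k4 1 8))))), (.s k65 k130 8 (.s k105 k125 5 (.s k203 k199 1 (.s k154 k56 12 (.d k223
  k159 k16 7 10)))))] .n) (.c k239 (.q k111 [(.s k69 k138 10 (.s k223 k159 7 (.s k154 k16 10 (.d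
  k101 k117 k48 3 14)))), (.s k65 k130 8 (.s k69 k138 10 (.s k73 k77 1 (.s k134 k12 10 (.d k199 k203
  k4 1 8))))), (.s k65 k130 8 (.s k105 k125 5 (.s k203 k199 1 (.s k154 k56 12 (.d k223 k159 k16 7
  10)))))] .n) .n))) .n))) (.c k95 (.q k175 [(.s k65 k130 8 (.s k69 k138 10 (.s k73 k77 1 (.s k199
  k203 1 (.d k134 k4 k12 8 10))))), (.s k65 k130 8 (.s k105 k125 5 (.s k203 k199 1 (.s k154 k56 12
  (.s k16 k223 10 (.d k48 k32 k101 3 14)))))), (.s k65 k130 8 (.s k69 k138 10 (.s k101 k117 3 (.s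
  k48 k154 14 (.s k97 k146 12 (.d k105 k109 k125 1 5)))))), (.s k69 k138 10 (.s k101 k117 3 (.s k199
  k203 1 (.s k150 k52 12 (.s k20 k215 8 (.d k60 k40 k105 5 14))))))] (.c k31 (.q k47 [(.s k65 k130 8
  (.s k69 k138 10 (.s k73 k77 1 (.s k199 k203 1 (.d k134 k4 k12 8 10))))), (.s k69 k138 10 (.s k101
  k117 3 (.s k48 k154 14 (.s k32 k16 3 (.d k239 k111 k170 7 10))))), (.s k65 k130 8 (.s k105 k125 5
  (.s k203 k199 1 (.s k154 k56 12 (.s k48 k101 14 (.d k16 k223 k32 10 3))))))] (.c k79 (.l (.s k111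
  k239 7 (.s k65 k130 8 (.s k69 k138 10 (.s k73 k77 1 (.s k134 k12 10 (.d k199 k203 k4 1 8)))))))
  (.c k111 (.q k79 [(.s k65 k130 8 (.s k69 k138 10 (.s k73 k77 1 (.s k199 k203 1 (.d k134 k4 k12 8
  10))))), (.s k65 k130 8 (.s k105 k125 5 (.s k203 k199 1 (.s k154 k56 12 (.s k48 k101 14 (.d k16
  k223 k32 10 3)))))), (.s k65 k130 8 (.s k69 k138 10 (.s k64 k74 2 (.s k67 k66 0 (.s k3 k131 7 (.d
  k71 k75 k139 1 9)))))), (.s k69 k138 10 (.s k101 k117 3 (.s k199 k203 1 (.s k150 k52 12 (.s k20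
  k215 8 (.d k60 k40 k105 5 14))))))] (.c k159 (.q k223 [(.s k69 k138 10 (.s k154 k16 10 (.d k101
  k117 k48 3 14))), (.s k65 k130 8 (.s k69 k138 10 (.s k73 k77 1 (.s k134 k12 10 (.d k199 k203 k4 1
  8))))), (.s k65 k130 8 (.s k105 k125 5 (.s k154 k16 10 (.d k203 k199 k56 1 12))))] .n) (.c k223
  (.l (.s k159 k143 3 (.s k65 k130 8 (.s k69 k138 10 (.s k73 k77 1 (.s k134 k12 10 (.d k199 k203 k4
  1 8))))))) .n))) (.c k159 (.q k223 [(.s k69 k138 10 (.s k154 k16 10 (.d k101 k117 k48 3 14))), (.s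
  k65 k130 8 (.s k69 k138 10 (.s k73 k77 1 (.s k134 k12 10 (.d k199 k203 k4 1 8))))), (.s k65 k130 8
  (.s k105 k125 5 (.s k154 k16 10 (.d k203 k199 k56 1 12))))] (.c k79 (.l (.s k111 k239 7 (.s k69
  k138 10 (.s k101 k117 3 (.d k154 k48 k16 14 10))))) (.c k111 (.q k79 [(.s k69 k138 10 (.s k154 k16
  10 (.d k101 k117 k48 3 14))), (.s k65 k130 8 (.s k69 k138 10 (.s k73 k77 1 (.s k134 k12 10 (.d
  k199 k203 k4 1 8))))), (.s k65 k130 8 (.s k105 k125 5 (.s k154 k16 10 (.d k203 k199 k56 1 12))))]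
  .n) .n))) (.c k223 (.l (.s k159 k143 3 (.s k65 k130 8 (.s k69 k138 10 (.s k73 k77 1 (.s k134 k12
  10 (.d k199 k203 k4 1 8))))))) .n))))) (.c k47 (.q k31 [(.s k65 k130 8 (.s k69 k138 10 (.s k73 k77
  1 (.s k199 k203 1 (.d k134 k4 k12 8 10))))), (.s k65 k130 8 (.s k105 k125 5 (.s k203 k199 1 (.s
  k154 k56 12 (.s k16 k223 10 (.d k48 k32 k101 3 14)))))), (.s k65 k130 8 (.s k69 k138 10 (.s k101
  k117 3 (.s k48 k154 14 (.s k97 k146 12 (.d k105 k109 k125 1 5)))))), (.s k69 k138 10 (.s k101 k117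
  3 (.s k199 k203 1 (.s k150 k52 12 (.s k20 k215 8 (.d k60 k40 k105 5 14))))))] (.c k79 (.q k111
  [(.s k65 k130 8 (.s k69 k138 10 (.s k199 k203 1 (.s k134 k4 8 (.d k73 k77 k12 1 10))))), (.s k65
  k130 8 (.s k105 k125 5 (.s k203 k199 1 (.s k154 k56 12 (.s k16 k223 10 (.d k48 k32 k101 3
  14)))))), (.s k65 k130 8 (.s k69 k138 10 (.s k101 k117 3 (.s k48 k154 14 (.s k97 k146 12 (.d k105
  k109 k125 1 5)))))), (.s k69 k138 10 (.s k101 k117 3 (.s k199 k203 1 (.s k150 k52 12 (.s k20 k215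
  8 (.d k60 k40 k105 5 14))))))] .n) (.c k111 (.q k79 [(.s k65 k130 8 (.s k69 k138 10 (.s k73 k77 1
  (.s k199 k203 1 (.d k134 k4 k12 8 10))))), (.s k65 k130 8 (.s k105 k125 5 (.s k203 k199 1 (.s k154
  k56 12 (.s k16 k223 10 (.d k48 k32 k101 3 14)))))), (.s k65 k130 8 (.s k69 k138 10 (.s k64 k74 2
  (.s k67 k66 0 (.s k3 k131 7 (.d k71 k75 k139 1 9)))))), (.s k69 k138 10 (.s k101 k117 3 (.s k199
  k203 1 (.s k150 k52 12 (.s k20 k215 8 (.d k60 k40 k105 5 14))))))] .n) .n))) (.c k79 (.q k111 [(.s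
  k69 k138 10 (.s k101 k117 3 (.s k48 k154 14 (.s k32 k16 3 (.d k239 k47 k170 7 10))))), (.s k65
  k130 8 (.s k69 k138 10 (.s k73 k77 1 (.s k134 k12 10 (.d k199 k203 k4 1 8))))), (.s k65 k130 8 (.s
  k105 k125 5 (.s k203 k199 1 (.s k154 k56 12 (.s k16 k223 10 (.d k48 k32 k101 3 14))))))] (.c k31
  (.l (.s k47 k239 7 (.s k65 k130 8 (.s k69 k138 10 (.s k73 k77 1 (.s k134 k12 10 (.d k199 k203 k4 1
  8))))))) (.c k47 (.q k31 [(.s k65 k130 8 (.s k69 k138 10 (.s k199 k203 1 (.s k134 k4 8 (.d k73 k77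
  k12 1 10))))), (.s k65 k130 8 (.s k105 k125 5 (.s k203 k199 1 (.s k154 k56 12 (.s k16 k223 10 (.d
  k48 k32 k101 3 14)))))), (.s k65 k130 8 (.s k69 k138 10 (.s k101 k117 3 (.s k48 k154 14 (.s k97
  k146 12 (.d k105 k109 k125 1 5)))))), (.s k69 k138 10 (.s k101 k117 3 (.s k199 k203 1 (.s k150 k52
  12 (.s k20 k215 8 (.d k60 k40 k105 5 14))))))] .n) .n))) (.c k111 (.q k79 [(.s k65 k130 8 (.s k69
  k138 10 (.s k73 k77 1 (.s k199 k203 1 (.d k134 k4 k12 8 10))))), (.s k65 k130 8 (.s k105 k125 5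
  (.s k203 k199 1 (.s k154 k56 12 (.s k16 k223 10 (.d k48 k32 k101 3 14)))))), (.s k65 k130 8 (.s
  k69 k138 10 (.s k64 k74 2 (.s k67 k66 0 (.s k3 k131 7 (.d k71 k75 k139 1 9)))))), (.s k69 k138 10
  (.s k101 k117 3 (.s k199 k203 1 (.s k150 k52 12 (.s k20 k215 8 (.d k60 k40 k105 5 14))))))] (.c
  k31 (.q k47 [(.s k65 k130 8 (.s k69 k138 10 (.s k73 k77 1 (.s k199 k203 1 (.d k134 k4 k12 8
  10))))), (.s k65 k130 8 (.s k105 k125 5 (.s k203 k199 1 (.s k154 k56 12 (.s k48 k101 14 (.d k16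
  k223 k32 10 3)))))), (.s k65 k130 8 (.s k69 k138 10 (.s k64 k74 2 (.s k67 k66 0 (.s k3 k131 7 (.d
  k71 k75 k139 1 9)))))), (.s k69 k138 10 (.s k101 k117 3 (.s k199 k203 1 (.s k150 k52 12 (.s k20
  k215 8 (.d k60 k40 k105 5 14))))))] (.c k159 (.q k223 [(.s k69 k138 10 (.s k154 k16 10 (.d k101
  k117 k48 3 14))), (.s k65 k130 8 (.s k69 k138 10 (.s k73 k77 1 (.s k134 k12 10 (.d k199 k203 k4 1
  8))))), (.s k65 k130 8 (.s k105 k125 5 (.s k154 k16 10 (.d k203 k199 k56 1 12))))] .n) (.c k223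
  (.l (.s k159 k143 3 (.s k65 k130 8 (.s k69 k138 10 (.s k73 k77 1 (.s k134 k12 10 (.d k199 k203 k4
  1 8))))))) .n))) (.c k47 (.q k31 [(.s k65 k130 8 (.s k69 k138 10 (.s k73 k77 1 (.s k199 k203 1 (.d
  k134 k4 k12 8 10))))), (.s k65 k130 8 (.s k105 k125 5 (.s k203 k199 1 (.s k154 k56 12 (.s k16 k223
  10 (.d k48 k32 k101 3 14)))))), (.s k65 k130 8 (.s k69 k138 10 (.s k64 k74 2 (.s k67 k66 0 (.s k3
  k131 7 (.d k71 k75 k139 1 9)))))), (.s k69 k138 10 (.s k101 k117 3 (.s k199 k203 1 (.s k150 k52 12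
  (.s k20 k215 8 (.d k60 k40 k105 5 14))))))] .n) .n))) .n))))) (.c k175 (.q k95 [(.s k65 k130 8 (.s
  k69 k138 10 (.s k73 k77 1 (.s k199 k203 1 (.d k134 k4 k12 8 10))))), (.s k65 k130 8 (.s k105 k125
  5 (.s k203 k199 1 (.s k154 k56 12 (.s k16 k223 10 (.d k48 k32 k101 3 14)))))), (.s k65 k130 8 (.s
  k69 k138 10 (.s k101 k117 3 (.s k48 k154 14 (.s k97 k146 12 (.d k105 k109 k125 1 5)))))), (.s k69
  k138 10 (.s k101 k117 3 (.s k199 k203 1 (.s k150 k52 12 (.s k20 k215 8 (.d k60 k40 k105 5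
  14))))))] (.c k31 (.q k47 [(.s k65 k130 8 (.s k69 k138 10 (.s k73 k77 1 (.s k199 k203 1 (.d k134
  k4 k12 8 10))))), (.s k65 k130 8 (.s k105 k125 5 (.s k203 k199 1 (.s k154 k56 12 (.s k16 k223 10
  (.d k48 k32 k101 3 14)))))), (.s k65 k130 8 (.s k69 k138 10 (.s k101 k117 3 (.s k48 k154 14 (.s
  k97 k146 12 (.d k105 k109 k125 1 5)))))), (.s k69 k138 10 (.s k101 k117 3 (.s k199 k203 1 (.s k150
  k52 12 (.s k20 k215 8 (.d k60 k40 k105 5 14))))))] .n) (.c k47 (.q k31 [(.s k69 k138 10 (.s k223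
  k159 7 (.s k154 k16 10 (.d k101 k117 k48 3 14)))), (.s k65 k130 8 (.s k69 k138 10 (.s k73 k77 1
  (.s k134 k12 10 (.d k199 k203 k4 1 8))))), (.s k65 k130 8 (.s k105 k125 5 (.s k203 k199 1 (.s k154
  k56 12 (.d k223 k159 k16 7 10)))))] (.c k111 (.q k239 [(.s k69 k138 10 (.s k223 k159 7 (.s k154
  k16 10 (.d k101 k117 k48 3 14)))), (.s k65 k130 8 (.s k69 k138 10 (.s k73 k77 1 (.s k134 k12 10
  (.d k199 k203 k4 1 8))))), (.s k65 k130 8 (.s k105 k125 5 (.s k203 k199 1 (.s k154 k56 12 (.d k223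
  k159 k16 7 10)))))] .n) (.c k239 (.q k111 [(.s k69 k138 10 (.s k223 k159 7 (.s k154 k16 10 (.d
  k101 k117 k48 3 14)))), (.s k65 k130 8 (.s k69 k138 10 (.s k73 k77 1 (.s k134 k12 10 (.d k199 k203
  k4 1 8))))), (.s k65 k130 8 (.s k105 k125 5 (.s k203 k199 1 (.s k154 k56 12 (.d k223 k159 k16 7
  10)))))] .n) .n))) .n))) .n))))) (.c k175 (.q k95 [(.s k65 k130 8 (.s k69 k138 10 (.s k73 k77 1
  (.s k199 k203 1 (.d k134 k4 k12 8 10))))), (.s k69 k138 10 (.s k90 k80 2 (.s k101 k117 3 (.s k79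
  k112 6 (.s k64 k74 2 (.d k127 k111 k106 3 6)))))), (.s k65 k130 8 (.s k105 k125 5 (.s k203 k199 1
  (.s k154 k56 12 (.s k16 k223 10 (.d k48 k32 k101 3 14))))))] (.c k31 (.q k47 [(.s k65 k130 8 (.s
  k69 k138 10 (.s k73 k77 1 (.s k199 k203 1 (.d k134 k4 k12 8 10))))), (.s k69 k138 10 (.s k90 k80 2
  (.s k101 k117 3 (.s k79 k112 6 (.s k64 k74 2 (.d k127 k111 k106 3 6)))))), (.s k65 k130 8 (.s k105
  k125 5 (.s k203 k199 1 (.s k154 k56 12 (.s k16 k223 10 (.d k48 k32 k101 3 14))))))] (.c k127 (.q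
  k191 [(.s k65 k130 8 (.s k69 k138 10 (.s k73 k77 1 (.s k199 k203 1 (.d k134 k4 k12 8 10))))), (.s
  k65 k130 8 (.s k105 k125 5 (.s k203 k199 1 (.s k154 k56 12 (.s k16 k223 10 (.d k48 k32 k101 3
  14)))))), (.s k65 k130 8 (.s k69 k138 10 (.s k101 k117 3 (.s k48 k154 14 (.s k97 k146 12 (.d k105
  k109 k125 1 5)))))), (.s k69 k138 10 (.s k101 k117 3 (.s k199 k203 1 (.s k150 k52 12 (.s k20 k215
  8 (.d k60 k40 k105 5 14))))))] .n) (.c k191 (.q k127 [(.s k69 k138 10 (.s k79 k111 3 (.d k64 k74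
  k106 2 6))), (.s k69 k138 10 (.s k79 k111 3 (.s k90 k80 2 (.d k101 k117 k112 3 6)))), (.s k79 k111
  3 (.s k90 k80 2 (.s k106 k64 6 (.s k112 k101 6 (.d k122 k117 k74 2 3)))))] (.c k79 (.l (.s k64
  k106 6 (.s k69 k138 10 (.s k80 k90 2 (.s k112 k96 3 (.d k117 k122 k101 2 3)))))) (.c k111 (.l (.s
  k64 k106 6 (.s k69 k138 10 (.s k79 k74 2 (.s k90 k80 2 (.d k101 k117 k112 3 6)))))) (.c k143 (.q
  k159 [(.s k69 k138 10 (.s k79 k111 3 (.d k64 k74 k106 2 6))), (.s k79 k111 3 (.s k90 k80 2 (.s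
  k106 k64 6 (.s k112 k101 6 (.d k122 k117 k74 2 3))))), (.s k69 k138 10 (.s k79 k111 3 (.s k90 k80
  2 (.d k101 k117 k112 3 6))))] (.c k79 (.l (.s k64 k106 6 (.s k69 k138 10 (.s k80 k90 2 (.s k112
  k96 3 (.d k117 k122 k101 2 3)))))) (.c k111 (.l (.s k64 k106 6 (.s k69 k138 10 (.s k79 k74 2 (.s
  k90 k80 2 (.d k101 k117 k112 3 6)))))) .n))) (.c k159 (.q k143 [(.s k69 k138 10 (.s k79 k111 3 (.d
  k64 k74 k106 2 6))), (.s k69 k138 10 (.s k79 k111 3 (.s k90 k80 2 (.d k101 k117 k112 3 6)))), (.s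
  k79 k111 3 (.s k90 k80 2 (.s k106 k64 6 (.s k112 k101 6 (.d k122 k117 k74 2 3))))), (.s k64 k106 6
  (.s k138 k69 10 (.d k128 k192 k133 7 2)))] .n) .n))))) .n))) (.c k47 (.q k31 [(.s k69 k138 10 (.s
  k223 k159 7 (.s k154 k16 10 (.d k101 k117 k48 3 14)))), (.s k65 k130 8 (.s k69 k138 10 (.s k73 k77
  1 (.s k134 k12 10 (.d k199 k203 k4 1 8))))), (.s k65 k130 8 (.s k105 k125 5 (.s k203 k199 1 (.s
  k154 k56 12 (.d k223 k159 k16 7 10)))))] (.c k111 (.q k239 [(.s k69 k138 10 (.s k101 k117 3 (.s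
  k48 k154 14 (.d k32 k170 k16 10 3)))), (.s k65 k130 8 (.s k69 k138 10 (.s k73 k77 1 (.s k134 k12
  10 (.d k199 k203 k4 1 8))))), (.s k65 k130 8 (.s k105 k125 5 (.s k203 k199 1 (.s k154 k56 12 (.d
  k223 k159 k16 7 10)))))] (.c k127 (.q k191 [(.s k69 k138 10 (.s k223 k159 7 (.s k154 k16 10 (.d
  k101 k117 k48 3 14)))), (.s k65 k130 8 (.s k69 k138 10 (.s k73 k77 1 (.s k134 k12 10 (.d k199 k203
  k4 1 8))))), (.s k65 k130 8 (.s k105 k125 5 (.s k203 k199 1 (.s k154 k56 12 (.d k223 k159 k16 7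
  10)))))] .n) (.c k191 (.q k127 [(.s k69 k138 10 (.s k101 k117 3 (.s k48 k154 14 (.d k32 k170 k16
  10 3)))), (.s k65 k130 8 (.s k105 k125 5 (.s k203 k199 1 (.s k154 k56 12 (.d k223 k159 k16 7
  10))))), (.s k64 k106 6 (.s k69 k138 10 (.s k79 k74 2 (.s k90 k80 2 (.d k101 k117 k112 3 6)))))]
  (.c k143 (.l (.s k159 k223 7 (.s k69 k138 10 (.s k101 k117 3 (.s k32 k170 10 (.d k48 k154 k16 14
  3)))))) (.c k159 (.q k143 [(.s k138 k69 10 (.s k128 k133 2 (.d k64 k192 k106 7 6))), (.s k69 k138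
  10 (.s k101 k117 3 (.s k48 k154 14 (.d k32 k170 k16 10 3)))), (.s k64 k106 6 (.s k65 k130 8 (.s
  k66 k67 0 (.s k192 k128 7 (.s k129 k3 8 (.d k193 k194 k1 0 7))))))] .n) .n))) .n))) (.c k127 (.q
  k191 [(.s k69 k138 10 (.s k223 k159 7 (.s k154 k16 10 (.d k101 k117 k48 3 14)))), (.s k65 k130 8
  (.s k69 k138 10 (.s k73 k77 1 (.s k134 k12 10 (.d k199 k203 k4 1 8))))), (.s k65 k130 8 (.s k105
  k125 5 (.s k203 k199 1 (.s k154 k56 12 (.d k223 k159 k16 7 10)))))] (.c k111 (.q k239 [(.s k69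
  k138 10 (.s k223 k159 7 (.s k154 k16 10 (.d k101 k117 k48 3 14)))), (.s k65 k130 8 (.s k69 k138 10
  (.s k73 k77 1 (.s k134 k12 10 (.d k199 k203 k4 1 8))))), (.s k65 k130 8 (.s k105 k125 5 (.s k203
  k199 1 (.s k154 k56 12 (.d k223 k159 k16 7 10)))))] .n) (.c k239 (.q k111 [(.s k69 k138 10 (.s
  k223 k159 7 (.s k154 k16 10 (.d k101 k117 k48 3 14)))), (.s k65 k130 8 (.s k69 k138 10 (.s k73 k77
  1 (.s k134 k12 10 (.d k199 k203 k4 1 8))))), (.s k65 k130 8 (.s k105 k125 5 (.s k203 k199 1 (.s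
  k154 k56 12 (.d k223 k159 k16 7 10)))))] .n) .n))) (.c k191 (.q k127 [(.s k64 k106 6 (.s k69 k138
  10 (.d k79 k111 k74 3 2))), (.s k65 k130 8 (.s k105 k125 5 (.s k203 k199 1 (.s k154 k56 12 (.d
  k223 k159 k16 7 10)))))] (.c k111 (.q k239 [(.s k69 k138 10 (.s k101 k117 3 (.s k48 k154 14 (.d
  k32 k170 k16 10 3)))), (.s k65 k130 8 (.s k105 k125 5 (.s k203 k199 1 (.s k154 k56 12 (.d k223
  k159 k16 7 10))))), (.s k64 k106 6 (.s k69 k138 10 (.s k79 k74 2 (.s k90 k80 2 (.d k101 k117 k112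
  3 6)))))] (.c k143 (.l (.s k159 k223 7 (.s k69 k138 10 (.s k101 k117 3 (.s k32 k170 10 (.d k48
  k154 k16 14 3)))))) (.c k159 (.q k143 [(.s k138 k69 10 (.s k128 k133 2 (.d k64 k192 k106 7 6))),
  (.s k69 k138 10 (.s k101 k117 3 (.s k48 k154 14 (.d k32 k170 k16 10 3)))), (.s k64 k106 6 (.s k65
  k130 8 (.s k66 k67 0 (.s k192 k128 7 (.s k129 k3 8 (.d k193 k194 k1 0 7))))))] .n) .n))) (.c k143
  (.l (.s k159 k223 7 (.s k64 k106 6 (.s k69 k138 10 (.d k79 k74 k111 2 3))))) (.c k159 (.q k143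
  [(.s k64 k106 6 (.s k69 k138 10 (.d k79 k111 k74 3 2))), (.s k69 k138 10 (.s k90 k80 2 (.s k101
  k117 3 (.d k79 k111 k112 3 6)))), (.s k64 k106 6 (.s k65 k130 8 (.s k66 k67 0 (.s k192 k128 7 (.s
  k129 k3 8 (.d k193 k194 k1 0 7))))))] (.c k111 (.q k239 [(.s k138 k69 10 (.s k128 k133 2 (.d k64
  k192 k106 7 6))), (.s k69 k138 10 (.s k101 k117 3 (.s k48 k154 14 (.d k32 k170 k16 10 3)))), (.s
  k64 k106 6 (.s k65 k130 8 (.s k66 k67 0 (.s k192 k128 7 (.s k129 k3 8 (.d k193 k194 k1 0 7))))))]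
  .n) (.c k239 (.l (.s k111 k79 3 (.s k64 k106 6 (.s k138 k69 10 (.d k128 k192 k133 7 2))))) .n)))
  (.c k239 (.l (.s k111 k79 3 (.s k69 k138 10 (.s k101 k117 3 (.d k106 k96 k64 2 6))))) .n))))) (.c
  k239 (.q k111 [(.s k69 k138 10 (.s k127 k79 3 (.s k106 k64 6 (.d k101 k96 k117 2 3)))), (.s k65
  k130 8 (.s k105 k125 5 (.s k203 k199 1 (.s k154 k56 12 (.d k223 k159 k16 7 10)))))] (.c k127 (.q
  k191 [(.s k69 k138 10 (.s k223 k159 7 (.s k154 k16 10 (.d k101 k117 k48 3 14)))), (.s k65 k130 8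
  (.s k69 k138 10 (.s k73 k77 1 (.s k134 k12 10 (.d k199 k203 k4 1 8))))), (.s k65 k130 8 (.s k105
  k125 5 (.s k203 k199 1 (.s k154 k56 12 (.d k223 k159 k16 7 10)))))] .n) (.c k191 (.l (.s k127 k79
  3 (.s k69 k138 10 (.s k101 k117 3 (.d k106 k96 k64 2 6))))) .n))) .n))))) (.c k127 (.q k191 [(.s
  k65 k130 8 (.s k69 k138 10 (.s k73 k77 1 (.s k199 k203 1 (.d k134 k4 k12 8 10))))), (.s k65 k130 8
  (.s k105 k125 5 (.s k203 k199 1 (.s k154 k56 12 (.s k16 k223 10 (.d k48 k32 k101 3 14)))))), (.s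
  k65 k130 8 (.s k69 k138 10 (.s k101 k117 3 (.s k48 k154 14 (.s k97 k146 12 (.d k105 k109 k125 1
  5)))))), (.s k69 k138 10 (.s k101 k117 3 (.s k199 k203 1 (.s k150 k52 12 (.s k20 k215 8 (.d k60
  k40 k105 5 14))))))] (.c k31 (.q k47 [(.s k65 k130 8 (.s k69 k138 10 (.s k73 k77 1 (.s k199 k203 1
  (.d k134 k4 k12 8 10))))), (.s k65 k130 8 (.s k105 k125 5 (.s k203 k199 1 (.s k154 k56 12 (.s k16
  k223 10 (.d k48 k32 k101 3 14)))))), (.s k65 k130 8 (.s k69 k138 10 (.s k101 k117 3 (.s k48 k154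
  14 (.s k97 k146 12 (.d k105 k109 k125 1 5)))))), (.s k69 k138 10 (.s k101 k117 3 (.s k199 k203 1
  (.s k150 k52 12 (.s k20 k215 8 (.d k60 k40 k105 5 14))))))] .n) (.c k47 (.q k31 [(.s k69 k138 10
  (.s k223 k159 7 (.s k154 k16 10 (.d k101 k117 k48 3 14)))), (.s k65 k130 8 (.s k69 k138 10 (.s k73
  k77 1 (.s k134 k12 10 (.d k199 k203 k4 1 8))))), (.s k65 k130 8 (.s k105 k125 5 (.s k203 k199 1
  (.s k154 k56 12 (.d k223 k159 k16 7 10)))))] (.c k111 (.q k239 [(.s k69 k138 10 (.s k223 k159 7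
  (.s k154 k16 10 (.d k101 k117 k48 3 14)))), (.s k65 k130 8 (.s k69 k138 10 (.s k73 k77 1 (.s k134
  k12 10 (.d k199 k203 k4 1 8))))), (.s k65 k130 8 (.s k105 k125 5 (.s k203 k199 1 (.s k154 k56 12
  (.d k223 k159 k16 7 10)))))] .n) (.c k239 (.q k111 [(.s k69 k138 10 (.s k223 k159 7 (.s k154 k16
  10 (.d k101 k117 k48 3 14)))), (.s k65 k130 8 (.s k69 k138 10 (.s k73 k77 1 (.s k134 k12 10 (.d
  k199 k203 k4 1 8))))), (.s k65 k130 8 (.s k105 k125 5 (.s k203 k199 1 (.s k154 k56 12 (.d k223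
  k159 k16 7 10)))))] .n) .n))) .n))) (.c k191 (.q k127 [(.s k69 k138 10 (.s k79 k111 3 (.d k64 k74
  k106 2 6))), (.s k69 k138 10 (.s k79 k111 3 (.s k90 k80 2 (.d k101 k117 k112 3 6)))), (.s k79 k111
  3 (.s k90 k80 2 (.s k106 k64 6 (.s k112 k101 6 (.d k122 k117 k74 2 3))))), (.s k64 k106 6 (.s k69
  k138 10 (.s k80 k90 2 (.s k112 k96 3 (.d k117 k122 k101 2 3)))))] (.c k31 (.q k47 [(.s k69 k138 10
  (.s k79 k111 3 (.d k64 k74 k106 2 6))), (.s k69 k138 10 (.s k79 k111 3 (.s k90 k80 2 (.d k101 k117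
  k112 3 6)))), (.s k79 k111 3 (.s k90 k80 2 (.s k106 k64 6 (.s k112 k101 6 (.d k122 k117 k74 2
  3)))))] (.c k79 (.l (.s k64 k106 6 (.s k69 k138 10 (.s k80 k90 2 (.s k112 k96 3 (.d k117 k122 k101
  2 3)))))) (.c k111 (.l (.s k64 k106 6 (.s k69 k138 10 (.s k79 k74 2 (.s k90 k80 2 (.d k101 k117
  k112 3 6)))))) (.c k143 (.q k159 [(.s k69 k138 10 (.s k79 k111 3 (.d k64 k74 k106 2 6))), (.s k79
  k111 3 (.s k90 k80 2 (.s k106 k64 6 (.s k112 k101 6 (.d k122 k117 k74 2 3))))), (.s k69 k138 10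
  (.s k79 k111 3 (.s k90 k80 2 (.d k101 k117 k112 3 6))))] (.c k79 (.l (.s k64 k106 6 (.s k69 k138
  10 (.s k80 k90 2 (.s k112 k96 3 (.d k117 k122 k101 2 3)))))) (.c k111 (.l (.s k64 k106 6 (.s k69
  k138 10 (.s k79 k74 2 (.s k90 k80 2 (.d k101 k117 k112 3 6)))))) .n))) (.c k159 (.q k143 [(.s k69
  k138 10 (.s k79 k111 3 (.d k64 k74 k106 2 6))), (.s k69 k138 10 (.s k79 k111 3 (.s k90 k80 2 (.d
  k101 k117 k112 3 6)))), (.s k79 k111 3 (.s k90 k80 2 (.s k106 k64 6 (.s k112 k101 6 (.d k122 k117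
  k74 2 3))))), (.s k64 k106 6 (.s k138 k69 10 (.d k128 k192 k133 7 2)))] .n) .n))))) (.c k47 (.q
  k31 [(.s k64 k106 6 (.s k69 k138 10 (.d k79 k111 k74 3 2))), (.s k65 k130 8 (.s k105 k125 5 (.s
  k203 k199 1 (.s k154 k56 12 (.d k223 k159 k16 7 10)))))] (.c k111 (.q k239 [(.s k69 k138 10 (.s
  k101 k117 3 (.s k48 k154 14 (.d k32 k170 k16 10 3)))), (.s k65 k130 8 (.s k105 k125 5 (.s k203
  k199 1 (.s k154 k56 12 (.d k223 k159 k16 7 10))))), (.s k64 k106 6 (.s k69 k138 10 (.s k79 k74 2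
  (.s k90 k80 2 (.d k101 k117 k112 3 6)))))] (.c k143 (.l (.s k159 k223 7 (.s k69 k138 10 (.s k101
  k117 3 (.s k32 k170 10 (.d k48 k154 k16 14 3)))))) (.c k159 (.q k143 [(.s k138 k69 10 (.s k128
  k133 2 (.d k64 k192 k106 7 6))), (.s k69 k138 10 (.s k101 k117 3 (.s k48 k154 14 (.d k32 k170 k16
  10 3)))), (.s k64 k106 6 (.s k65 k130 8 (.s k66 k67 0 (.s k192 k128 7 (.s k129 k3 8 (.d k193 k194
  k1 0 7))))))] .n) .n))) (.c k143 (.l (.s k159 k223 7 (.s k64 k106 6 (.s k69 k138 10 (.d k79 k74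
  k111 2 3))))) (.c k159 (.q k143 [(.s k64 k106 6 (.s k69 k138 10 (.d k79 k111 k74 3 2))), (.s k69
  k138 10 (.s k90 k80 2 (.s k101 k117 3 (.d k79 k111 k112 3 6)))), (.s k64 k106 6 (.s k65 k130 8 (.s
  k66 k67 0 (.s k192 k128 7 (.s k129 k3 8 (.d k193 k194 k1 0 7))))))] (.c k111 (.q k239 [(.s k138
  k69 10 (.s k128 k133 2 (.d k64 k192 k106 7 6))), (.s k69 k138 10 (.s k101 k117 3 (.s k48 k154 14
  (.d k32 k170 k16 10 3)))), (.s k64 k106 6 (.s k65 k130 8 (.s k66 k67 0 (.s k192 k128 7 (.s k129 k3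
  8 (.d k193 k194 k1 0 7))))))] .n) (.c k239 (.l (.s k111 k79 3 (.s k64 k106 6 (.s k138 k69 10 (.d
  k128 k192 k133 7 2))))) .n))) (.c k239 (.l (.s k111 k79 3 (.s k69 k138 10 (.s k101 k117 3 (.d k106
  k96 k64 2 6))))) .n))))) (.c k111 (.l (.s k64 k106 6 (.s k69 k138 10 (.s k79 k74 2 (.s k90 k80 2
  (.d k101 k117 k112 3 6)))))) (.c k143 (.q k159 [(.s k69 k138 10 (.s k79 k111 3 (.d k64 k74 k106 2
  6))), (.s k65 k130 8 (.s k105 k125 5 (.s k203 k199 1 (.s k154 k56 12 (.d k223 k31 k16 7 10)))))]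
  (.c k31 (.q k47 [(.s k69 k138 10 (.s k79 k111 3 (.d k64 k74 k106 2 6))), (.s k79 k111 3 (.s k90
  k80 2 (.s k106 k64 6 (.s k112 k101 6 (.d k122 k117 k74 2 3))))), (.s k69 k138 10 (.s k79 k111 3
  (.s k90 k80 2 (.d k101 k117 k112 3 6))))] (.c k79 (.l (.s k64 k106 6 (.s k69 k138 10 (.s k80 k90 2
  (.s k112 k96 3 (.d k117 k122 k101 2 3)))))) (.c k111 (.l (.s k64 k106 6 (.s k69 k138 10 (.s k79
  k74 2 (.s k90 k80 2 (.d k101 k117 k112 3 6)))))) .n))) (.c k47 (.l (.s k31 k223 7 (.s k64 k106 6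
  (.s k69 k138 10 (.d k79 k74 k111 2 3))))) .n))) (.c k159 (.q k143 [(.s k64 k106 6 (.s k138 k69 10
  (.d k128 k192 k133 7 2))), (.s k69 k138 10 (.s k79 k111 3 (.s k90 k80 2 (.d k101 k117 k112 3
  6)))), (.s k79 k111 3 (.s k90 k80 2 (.s k106 k64 6 (.s k112 k101 6 (.d k122 k117 k74 2 3)))))] (.c
  k31 (.q k47 [(.s k69 k138 10 (.s k79 k111 3 (.d k64 k74 k106 2 6))), (.s k69 k138 10 (.s k79 k111
  3 (.s k90 k80 2 (.d k101 k117 k112 3 6)))), (.s k79 k111 3 (.s k90 k80 2 (.s k106 k64 6 (.s k112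
  k101 6 (.d k122 k117 k74 2 3))))), (.s k64 k106 6 (.s k138 k69 10 (.d k128 k192 k133 7 2)))] .n)
  (.c k47 (.q k31 [(.s k64 k106 6 (.s k69 k138 10 (.d k79 k111 k74 3 2))), (.s k69 k138 10 (.s k90
  k80 2 (.s k101 k117 3 (.d k79 k111 k112 3 6)))), (.s k64 k106 6 (.s k65 k130 8 (.s k66 k67 0 (.s
  k192 k128 7 (.s k129 k3 8 (.d k193 k194 k1 0 7))))))] (.c k111 (.q k239 [(.s k138 k69 10 (.s k128
  k133 2 (.d k64 k192 k106 7 6))), (.s k69 k138 10 (.s k101 k117 3 (.s k48 k154 14 (.d k32 k170 k16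
  10 3)))), (.s k64 k106 6 (.s k65 k130 8 (.s k66 k67 0 (.s k192 k128 7 (.s k129 k3 8 (.d k193 k194
  k1 0 7))))))] .n) (.c k239 (.l (.s k111 k79 3 (.s k64 k106 6 (.s k138 k69 10 (.d k128 k192 k133 7
  2))))) .n))) .n))) .n)))))) .n))))) (.c k191 (.q k127 [(.s k65 k130 8 (.s k69 k138 10 (.s k73 k77
  1 (.s k199 k203 1 (.d k134 k4 k12 8 10))))), (.s k64 k106 6 (.s k65 k130 8 (.s k66 k67 0 (.s k192
  k128 7 (.s k129 k3 8 (.d k193 k194 k1 0 7)))))), (.s k64 k106 6 (.s k69 k138 10 (.s k79 k74 2 (.s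
  k95 k111 3 (.s k90 k80 2 (.d k101 k117 k112 3 6))))))] (.c k31 (.q k47 [(.s k65 k130 8 (.s k69
  k138 10 (.s k73 k77 1 (.s k199 k203 1 (.d k134 k4 k12 8 10))))), (.s k64 k106 6 (.s k65 k130 8 (.s
  k66 k67 0 (.s k192 k128 7 (.s k129 k3 8 (.d k193 k194 k1 0 7)))))), (.s k64 k106 6 (.s k69 k138 10
  (.s k79 k74 2 (.s k95 k111 3 (.s k90 k80 2 (.d k101 k117 k112 3 6))))))] (.c k95 (.q k175 [(.s k69
  k138 10 (.s k106 k64 6 (.s k111 k239 7 (.d k101 k96 k117 2 3)))), (.s k65 k130 8 (.s k69 k138 10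
  (.s k73 k77 1 (.s k134 k12 10 (.d k199 k203 k4 1 8))))), (.s k64 k106 6 (.s k65 k130 8 (.s k66 k67
  0 (.s k192 k128 7 (.s k129 k3 8 (.d k193 k194 k1 0 7))))))] (.c k159 (.q k223 [(.s k69 k138 10 (.s
  k101 k117 3 (.d k154 k48 k16 14 10))), (.s k65 k130 8 (.s k105 k125 5 (.s k154 k16 10 (.d k203
  k199 k56 1 12)))), (.s k69 k138 10 (.s k101 k117 3 (.s k106 k64 6 (.d k111 k96 k239 2 7))))] .n)
  (.c k223 (.q k159 [(.s k69 k138 10 (.s k106 k64 6 (.s k111 k239 7 (.d k101 k96 k117 2 3)))), (.s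
  k65 k130 8 (.s k69 k138 10 (.s k73 k77 1 (.s k134 k12 10 (.d k199 k203 k4 1 8))))), (.s k64 k106 6
  (.s k65 k130 8 (.s k66 k67 0 (.s k192 k128 7 (.s k129 k3 8 (.d k193 k194 k1 0 7))))))] .n) .n)))
  (.c k175 (.q k95 [(.s k69 k138 10 (.s k79 k111 3 (.d k64 k74 k106 2 6))), (.s k69 k138 10 (.s k79
  k111 3 (.s k90 k80 2 (.d k101 k117 k112 3 6)))), (.s k79 k111 3 (.s k90 k80 2 (.s k106 k64 6 (.s
  k112 k101 6 (.d k122 k117 k74 2 3)))))] (.c k79 (.l (.s k64 k106 6 (.s k69 k138 10 (.s k80 k90 2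
  (.s k112 k96 3 (.d k117 k122 k101 2 3)))))) (.c k111 (.l (.s k64 k106 6 (.s k69 k138 10 (.s k79
  k74 2 (.s k90 k80 2 (.d k101 k117 k112 3 6)))))) (.c k143 (.q k159 [(.s k69 k138 10 (.s k79 k111 3
  (.d k64 k74 k106 2 6))), (.s k79 k111 3 (.s k90 k80 2 (.s k106 k64 6 (.s k112 k101 6 (.d k122 k117
  k74 2 3))))), (.s k69 k138 10 (.s k79 k111 3 (.s k90 k80 2 (.d k101 k117 k112 3 6))))] (.c k79 (.l
  (.s k64 k106 6 (.s k69 k138 10 (.s k80 k90 2 (.s k112 k96 3 (.d k117 k122 k101 2 3)))))) (.c k111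
  (.l (.s k64 k106 6 (.s k69 k138 10 (.s k79 k74 2 (.s k90 k80 2 (.d k101 k117 k112 3 6)))))) .n)))
  (.c k159 (.q k143 [(.s k69 k138 10 (.s k79 k111 3 (.d k64 k74 k106 2 6))), (.s k69 k138 10 (.s k79
  k111 3 (.s k90 k80 2 (.d k101 k117 k112 3 6)))), (.s k79 k111 3 (.s k90 k80 2 (.s k106 k64 6 (.s
  k112 k101 6 (.d k122 k117 k74 2 3))))), (.s k64 k106 6 (.s k138 k69 10 (.d k128 k192 k133 7 2)))]
  .n) .n))))) .n))) (.c k47 (.q k31 [(.s k65 k130 8 (.s k69 k138 10 (.s k73 k77 1 (.s k199 k203 1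
  (.d k134 k4 k12 8 10))))), (.s k64 k106 6 (.s k65 k130 8 (.s k66 k67 0 (.s k192 k128 7 (.s k129 k3
  8 (.d k193 k194 k1 0 7)))))), (.s k64 k106 6 (.s k69 k138 10 (.s k79 k74 2 (.s k95 k111 3 (.s k90
  k80 2 (.d k101 k117 k112 3 6))))))] (.c k95 (.q k175 [(.s k65 k130 8 (.s k69 k138 10 (.s k73 k77 1
  (.s k199 k203 1 (.d k134 k4 k12 8 10))))), (.s k64 k106 6 (.s k65 k130 8 (.s k66 k67 0 (.s k192
  k128 7 (.s k129 k3 8 (.d k193 k194 k1 0 7)))))), (.s k69 k138 10 (.s k101 k117 3 (.s k199 k203 1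
  (.s k150 k52 12 (.s k20 k215 8 (.d k60 k40 k105 5 14))))))] .n) (.c k175 (.q k95 [(.s k64 k106 6
  (.s k69 k138 10 (.d k79 k111 k74 3 2))), (.s k65 k130 8 (.s k105 k125 5 (.s k203 k199 1 (.s k154
  k56 12 (.d k223 k159 k16 7 10)))))] (.c k111 (.q k239 [(.s k69 k138 10 (.s k101 k117 3 (.s k48
  k154 14 (.d k32 k170 k16 10 3)))), (.s k65 k130 8 (.s k105 k125 5 (.s k203 k199 1 (.s k154 k56 12
  (.d k223 k159 k16 7 10))))), (.s k64 k106 6 (.s k69 k138 10 (.s k79 k74 2 (.s k90 k80 2 (.d k101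
  k117 k112 3 6)))))] (.c k143 (.l (.s k159 k223 7 (.s k69 k138 10 (.s k101 k117 3 (.s k32 k170 10
  (.d k48 k154 k16 14 3)))))) (.c k159 (.q k143 [(.s k138 k69 10 (.s k128 k133 2 (.d k64 k192 k106 7
  6))), (.s k69 k138 10 (.s k101 k117 3 (.s k48 k154 14 (.d k32 k170 k16 10 3)))), (.s k64 k106 6
  (.s k65 k130 8 (.s k66 k67 0 (.s k192 k128 7 (.s k129 k3 8 (.d k193 k194 k1 0 7))))))] .n) .n)))
  (.c k143 (.l (.s k159 k223 7 (.s k64 k106 6 (.s k69 k138 10 (.d k79 k74 k111 2 3))))) (.c k159 (.q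
  k143 [(.s k64 k106 6 (.s k69 k138 10 (.d k79 k111 k74 3 2))), (.s k69 k138 10 (.s k90 k80 2 (.s
  k101 k117 3 (.d k79 k111 k112 3 6)))), (.s k64 k106 6 (.s k65 k130 8 (.s k66 k67 0 (.s k192 k128 7
  (.s k129 k3 8 (.d k193 k194 k1 0 7))))))] (.c k111 (.q k239 [(.s k138 k69 10 (.s k128 k133 2 (.d
  k64 k192 k106 7 6))), (.s k69 k138 10 (.s k101 k117 3 (.s k48 k154 14 (.d k32 k170 k16 10 3)))),
  (.s k64 k106 6 (.s k65 k130 8 (.s k66 k67 0 (.s k192 k128 7 (.s k129 k3 8 (.d k193 k194 k1 0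
  7))))))] .n) (.c k239 (.l (.s k111 k79 3 (.s k64 k106 6 (.s k138 k69 10 (.d k128 k192 k133 7
  2))))) .n))) (.c k239 (.l (.s k111 k79 3 (.s k69 k138 10 (.s k101 k117 3 (.d k106 k96 k64 2 6)))))
  .n))))) .n))) (.c k95 (.q k175 [(.s k65 k130 8 (.s k69 k138 10 (.s k73 k77 1 (.s k199 k203 1 (.d
  k134 k4 k12 8 10))))), (.s k64 k106 6 (.s k65 k130 8 (.s k66 k67 0 (.s k192 k128 7 (.s k129 k3 8
  (.d k193 k194 k1 0 7)))))), (.s k69 k138 10 (.s k101 k117 3 (.s k199 k203 1 (.s k150 k52 12 (.s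
  k20 k215 8 (.d k60 k40 k105 5 14))))))] (.c k31 (.q k47 [(.s k69 k138 10 (.s k106 k64 6 (.s k111
  k239 7 (.d k101 k96 k117 2 3)))), (.s k65 k130 8 (.s k69 k138 10 (.s k73 k77 1 (.s k134 k12 10 (.d
  k199 k203 k4 1 8))))), (.s k64 k106 6 (.s k65 k130 8 (.s k66 k67 0 (.s k192 k128 7 (.s k129 k3 8
  (.d k193 k194 k1 0 7))))))] (.c k159 (.q k223 [(.s k69 k138 10 (.s k101 k117 3 (.d k154 k48 k16 14
  10))), (.s k65 k130 8 (.s k105 k125 5 (.s k154 k16 10 (.d k203 k199 k56 1 12)))), (.s k69 k138 10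
  (.s k101 k117 3 (.s k106 k64 6 (.d k111 k96 k239 2 7))))] .n) (.c k223 (.q k159 [(.s k69 k138 10
  (.s k106 k64 6 (.s k111 k239 7 (.d k101 k96 k117 2 3)))), (.s k65 k130 8 (.s k69 k138 10 (.s k73
  k77 1 (.s k134 k12 10 (.d k199 k203 k4 1 8))))), (.s k64 k106 6 (.s k65 k130 8 (.s k66 k67 0 (.s
  k192 k128 7 (.s k129 k3 8 (.d k193 k194 k1 0 7))))))] .n) .n))) (.c k47 (.q k31 [(.s k65 k130 8
  (.s k69 k138 10 (.s k73 k77 1 (.s k199 k203 1 (.d k134 k4 k12 8 10))))), (.s k64 k106 6 (.s k65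
  k130 8 (.s k66 k67 0 (.s k192 k128 7 (.s k129 k3 8 (.d k193 k194 k1 0 7)))))), (.s k69 k138 10 (.s
  k101 k117 3 (.s k199 k203 1 (.s k150 k52 12 (.s k20 k215 8 (.d k60 k40 k105 5 14))))))] .n) .n)))
  (.c k175 (.q k95 [(.s k69 k138 10 (.s k79 k111 3 (.d k64 k74 k106 2 6))), (.s k69 k138 10 (.s k79
  k111 3 (.s k90 k80 2 (.d k101 k117 k112 3 6)))), (.s k79 k111 3 (.s k90 k80 2 (.s k106 k64 6 (.s
  k112 k101 6 (.d k122 k117 k74 2 3))))), (.s k64 k106 6 (.s k69 k138 10 (.s k80 k90 2 (.s k112 k96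
  3 (.d k117 k122 k101 2 3)))))] (.c k31 (.q k47 [(.s k69 k138 10 (.s k79 k111 3 (.d k64 k74 k106 2
  6))), (.s k69 k138 10 (.s k79 k111 3 (.s k90 k80 2 (.d k101 k117 k112 3 6)))), (.s k79 k111 3 (.s
  k90 k80 2 (.s k106 k64 6 (.s k112 k101 6 (.d k122 k117 k74 2 3)))))] (.c k79 (.l (.s k64 k106 6
  (.s k69 k138 10 (.s k80 k90 2 (.s k112 k96 3 (.d k117 k122 k101 2 3)))))) (.c k111 (.l (.s k64
  k106 6 (.s k69 k138 10 (.s k79 k74 2 (.s k90 k80 2 (.d k101 k117 k112 3 6)))))) (.c k143 (.q k159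
  [(.s k69 k138 10 (.s k79 k111 3 (.d k64 k74 k106 2 6))), (.s k79 k111 3 (.s k90 k80 2 (.s k106 k64
  6 (.s k112 k101 6 (.d k122 k117 k74 2 3))))), (.s k69 k138 10 (.s k79 k111 3 (.s k90 k80 2 (.d
  k101 k117 k112 3 6))))] (.c k79 (.l (.s k64 k106 6 (.s k69 k138 10 (.s k80 k90 2 (.s k112 k96 3
  (.d k117 k122 k101 2 3)))))) (.c k111 (.l (.s k64 k106 6 (.s k69 k138 10 (.s k79 k74 2 (.s k90 k80
  2 (.d k101 k117 k112 3 6)))))) .n))) (.c k159 (.q k143 [(.s k69 k138 10 (.s k79 k111 3 (.d k64 k74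
  k106 2 6))), (.s k69 k138 10 (.s k79 k111 3 (.s k90 k80 2 (.d k101 k117 k112 3 6)))), (.s k79 k111
  3 (.s k90 k80 2 (.s k106 k64 6 (.s k112 k101 6 (.d k122 k117 k74 2 3))))), (.s k64 k106 6 (.s k138
  k69 10 (.d k128 k192 k133 7 2)))] .n) .n))))) (.c k47 (.q k31 [(.s k64 k106 6 (.s k69 k138 10 (.d
  k79 k111 k74 3 2))), (.s k65 k130 8 (.s k105 k125 5 (.s k203 k199 1 (.s k154 k56 12 (.d k223 k159
  k16 7 10)))))] (.c k111 (.q k239 [(.s k69 k138 10 (.s k101 k117 3 (.s k48 k154 14 (.d k32 k170 k16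
  10 3)))), (.s k65 k130 8 (.s k105 k125 5 (.s k203 k199 1 (.s k154 k56 12 (.d k223 k159 k16 7
  10))))), (.s k64 k106 6 (.s k69 k138 10 (.s k79 k74 2 (.s k90 k80 2 (.d k101 k117 k112 3 6)))))]
  (.c k143 (.l (.s k159 k223 7 (.s k69 k138 10 (.s k101 k117 3 (.s k32 k170 10 (.d k48 k154 k16 14
  3)))))) (.c k159 (.q k143 [(.s k138 k69 10 (.s k128 k133 2 (.d k64 k192 k106 7 6))), (.s k69 k138
  10 (.s k101 k117 3 (.s k48 k154 14 (.d k32 k170 k16 10 3)))), (.s k64 k106 6 (.s k65 k130 8 (.s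
  k66 k67 0 (.s k192 k128 7 (.s k129 k3 8 (.d k193 k194 k1 0 7))))))] .n) .n))) (.c k143 (.l (.s
  k159 k223 7 (.s k64 k106 6 (.s k69 k138 10 (.d k79 k74 k111 2 3))))) (.c k159 (.q k143 [(.s k64
  k106 6 (.s k69 k138 10 (.d k79 k111 k74 3 2))), (.s k69 k138 10 (.s k90 k80 2 (.s k101 k117 3 (.d
  k79 k111 k112 3 6)))), (.s k64 k106 6 (.s k65 k130 8 (.s k66 k67 0 (.s k192 k128 7 (.s k129 k3 8
  (.d k193 k194 k1 0 7))))))] (.c k111 (.q k239 [(.s k138 k69 10 (.s k128 k133 2 (.d k64 k192 k106 7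
  6))), (.s k69 k138 10 (.s k101 k117 3 (.s k48 k154 14 (.d k32 k170 k16 10 3)))), (.s k64 k106 6
  (.s k65 k130 8 (.s k66 k67 0 (.s k192 k128 7 (.s k129 k3 8 (.d k193 k194 k1 0 7))))))] .n) (.c
  k239 (.l (.s k111 k79 3 (.s k64 k106 6 (.s k138 k69 10 (.d k128 k192 k133 7 2))))) .n))) (.c k239
  (.l (.s k111 k79 3 (.s k69 k138 10 (.s k101 k117 3 (.d k106 k96 k64 2 6))))) .n))))) (.c k111 (.l
  (.s k64 k106 6 (.s k69 k138 10 (.s k79 k74 2 (.s k90 k80 2 (.d k101 k117 k112 3 6)))))) (.c k143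
  (.q k159 [(.s k69 k138 10 (.s k79 k111 3 (.d k64 k74 k106 2 6))), (.s k65 k130 8 (.s k105 k125 5
  (.s k203 k199 1 (.s k154 k56 12 (.d k223 k31 k16 7 10)))))] (.c k31 (.q k47 [(.s k69 k138 10 (.s
  k79 k111 3 (.d k64 k74 k106 2 6))), (.s k79 k111 3 (.s k90 k80 2 (.s k106 k64 6 (.s k112 k101 6
  (.d k122 k117 k74 2 3))))), (.s k69 k138 10 (.s k79 k111 3 (.s k90 k80 2 (.d k101 k117 k112 3
  6))))] (.c k79 (.l (.s k64 k106 6 (.s k69 k138 10 (.s k80 k90 2 (.s k112 k96 3 (.d k117 k122 k101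
  2 3)))))) (.c k111 (.l (.s k64 k106 6 (.s k69 k138 10 (.s k79 k74 2 (.s k90 k80 2 (.d k101 k117
  k112 3 6)))))) .n))) (.c k47 (.l (.s k31 k223 7 (.s k64 k106 6 (.s k69 k138 10 (.d k79 k74 k111 2
  3))))) .n))) (.c k159 (.q k143 [(.s k64 k106 6 (.s k138 k69 10 (.d k128 k192 k133 7 2))), (.s k69
  k138 10 (.s k79 k111 3 (.s k90 k80 2 (.d k101 k117 k112 3 6)))), (.s k79 k111 3 (.s k90 k80 2 (.s
  k106 k64 6 (.s k112 k101 6 (.d k122 k117 k74 2 3)))))] (.c k31 (.q k47 [(.s k69 k138 10 (.s k79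
  k111 3 (.d k64 k74 k106 2 6))), (.s k69 k138 10 (.s k79 k111 3 (.s k90 k80 2 (.d k101 k117 k112 3
  6)))), (.s k79 k111 3 (.s k90 k80 2 (.s k106 k64 6 (.s k112 k101 6 (.d k122 k117 k74 2 3))))), (.s
  k64 k106 6 (.s k138 k69 10 (.d k128 k192 k133 7 2)))] .n) (.c k47 (.q k31 [(.s k64 k106 6 (.s k69
  k138 10 (.d k79 k111 k74 3 2))), (.s k69 k138 10 (.s k90 k80 2 (.s k101 k117 3 (.d k79 k111 k112 3
  6)))), (.s k64 k106 6 (.s k65 k130 8 (.s k66 k67 0 (.s k192 k128 7 (.s k129 k3 8 (.d k193 k194 k1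
  0 7))))))] (.c k111 (.q k239 [(.s k138 k69 10 (.s k128 k133 2 (.d k64 k192 k106 7 6))), (.s k69
  k138 10 (.s k101 k117 3 (.s k48 k154 14 (.d k32 k170 k16 10 3)))), (.s k64 k106 6 (.s k65 k130 8
  (.s k66 k67 0 (.s k192 k128 7 (.s k129 k3 8 (.d k193 k194 k1 0 7))))))] .n) (.c k239 (.l (.s k111
  k79 3 (.s k64 k106 6 (.s k138 k69 10 (.d k128 k192 k133 7 2))))) .n))) .n))) .n)))))) .n)))))
  .n)))))))

def t15_63 : T TT 256 :=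
  (.q k195 [] (.c k1 s15_63_1 (.c k2 s15_63_2 (.c k3 s15_63_3 (.c k4 s15_63_4 (.c k5 s15_63_5 (.c k6
  s15_63_6 (.c k7 s15_63_7 (.c k8 s15_63_8 (.c k9 s15_63_9 (.c k10 s15_63_10 (.c k11 s15_63_11 (.c
  k12 s15_63_12 (.c k13 s15_63_13 (.c k14 s15_63_14 (.c k16 s15_63_16 (.c k17 s15_63_17 (.c k18
  s15_63_18 (.c k19 s15_63_19 (.c k20 s15_63_20 (.c k21 s15_63_21 (.c k22 s15_63_22 (.c k23
  s15_63_23 (.c k24 s15_63_24 (.c k25 s15_63_25 (.c k26 s15_63_26 (.c k27 s15_63_27 (.c k28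
  s15_63_28 (.c k29 s15_63_29 (.c k30 s15_63_30 (.c k31 s15_63_31 (.c k32 s15_63_32 (.c k33
  s15_63_33 (.c k34 s15_63_34 (.c k35 s15_63_35 (.c k36 s15_63_36 (.c k37 s15_63_37 (.c k38
  s15_63_38 (.c k39 s15_63_39 (.c k40 s15_63_40 (.c k41 s15_63_41 (.c k42 s15_63_42 (.c k43
  s15_63_43 (.c k44 s15_63_44 (.c k45 s15_63_45 (.c k46 s15_63_46 (.c k47 s15_63_47 (.c k48
  s15_63_48 (.c k49 s15_63_49 (.c k50 s15_63_50 (.c k51 s15_63_51 (.c k52 s15_63_52 (.c k53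
  s15_63_53 (.c k54 s15_63_54 (.c k55 s15_63_55 (.c k56 s15_63_56 (.c k57 s15_63_57 (.c k58
  s15_63_58 (.c k59 s15_63_59 (.c k60 s15_63_60 (.c k61 s15_63_61 (.c k62 s15_63_62 (.c k64
  s15_63_64 (.c k65 s15_63_65 (.c k66 s15_63_66 (.c k67 s15_63_67 (.c k68 s15_63_68 (.c k69
  s15_63_69 (.c k70 s15_63_70 (.c k71 s15_63_71 (.c k72 s15_63_72 (.c k73 s15_63_73 (.c k74
  s15_63_74 (.c k75 s15_63_75 (.c k76 s15_63_76 (.c k77 s15_63_77 (.c k78 s15_63_78 (.c k79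
  s15_63_79 (.c k80 s15_63_80 (.c k81 s15_63_81 (.c k82 s15_63_82 (.c k83 s15_63_83 (.c k84
  s15_63_84 (.c k86 s15_63_86 (.c k87 s15_63_87 (.c k88 s15_63_88 (.c k89 s15_63_89 (.c k90
  s15_63_90 (.c k91 s15_63_91 (.c k92 s15_63_92 (.c k93 s15_63_93 (.c k94 s15_63_94 (.c k95
  s15_63_95 (.c k96 s15_63_96 (.c k97 s15_63_97 (.c k98 s15_63_98 (.c k99 s15_63_99 (.c k100
  s15_63_100 (.c k101 s15_63_101 (.c k102 s15_63_102 (.c k103 s15_63_103 (.c k104 s15_63_104 (.c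
  k105 s15_63_105 (.c k106 s15_63_106 (.c k107 s15_63_107 (.c k108 s15_63_108 (.c k109 s15_63_109
  (.c k110 s15_63_110 (.c k111 s15_63_111 (.c k112 s15_63_112 (.c k113 s15_63_113 (.c k114
  s15_63_114 (.c k115 s15_63_115 (.c k116 s15_63_116 (.c k117 s15_63_117 (.c k118 s15_63_118 (.c
  k119 s15_63_119 (.c k120 s15_63_120 (.c k121 s15_63_121 (.c k122 s15_63_122 (.c k123 s15_63_123
  (.c k124 s15_63_124 (.c k125 s15_63_125 (.c k126 s15_63_126 (.c k127 s15_63_127 (.c k128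
  s15_63_128 (.c k129 s15_63_129 (.c k130 s15_63_130 (.c k131 s15_63_131 (.c k132 s15_63_132 (.c
  k133 s15_63_133 (.c k134 s15_63_134 (.c k135 s15_63_135 (.c k136 s15_63_136 (.c k137 s15_63_137
  (.c k138 s15_63_138 (.c k139 s15_63_139 (.c k140 s15_63_140 (.c k141 s15_63_141 (.c k142
  s15_63_142 (.c k143 s15_63_143 (.c k144 s15_63_144 (.c k145 s15_63_145 (.c k146 s15_63_146 (.c
  k147 s15_63_147 (.c k148 s15_63_148 (.c k149 s15_63_149 (.c k150 s15_63_150 (.c k151 s15_63_151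
  (.c k152 s15_63_152 (.c k153 s15_63_153 (.c k154 s15_63_154 (.c k155 s15_63_155 (.c k156
  s15_63_156 (.c k157 s15_63_157 (.c k158 s15_63_158 (.c k159 s15_63_159 (.c k160 s15_63_160 (.c
  k161 s15_63_161 (.c k162 s15_63_162 (.c k163 s15_63_163 (.c k164 s15_63_164 (.c k165 s15_63_165
  (.c k166 s15_63_166 (.c k167 s15_63_167 (.c k168 s15_63_168 (.c k169 s15_63_169 (.c k170
  s15_63_170 (.c k171 s15_63_171 (.c k172 s15_63_172 (.c k173 s15_63_173 (.c k174 s15_63_174 (.c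
  k175 s15_63_175 (.c k176 s15_63_176 (.c k177 s15_63_177 (.c k178 s15_63_178 (.c k179 s15_63_179
  (.c k180 s15_63_180 (.c k181 s15_63_181 (.c k182 s15_63_182 (.c k183 s15_63_183 (.c k184
  s15_63_184 (.c k185 s15_63_185 (.c k186 s15_63_186 (.c k187 s15_63_187 (.c k188 s15_63_188 (.c
  k189 s15_63_189 (.c k190 s15_63_190 (.c k191 s15_63_191 (.c k192 s15_63_192 (.c k193 s15_63_193
  (.c k194 s15_63_194 (.c k196 s15_63_196 (.c k197 s15_63_197 (.c k198 s15_63_198 (.c k199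
  s15_63_199 (.c k200 s15_63_200 (.c k201 s15_63_201 (.c k202 s15_63_202 (.c k203 s15_63_203 (.c
  k204 s15_63_204 (.c k205 s15_63_205 (.c k206 s15_63_206 (.c k207 s15_63_207 (.c k208 s15_63_208
  (.c k209 s15_63_209 (.c k210 s15_63_210 (.c k211 s15_63_211 (.c k212 s15_63_212 (.c k213
  s15_63_213 (.c k214 s15_63_214 (.c k215 s15_63_215 (.c k216 s15_63_216 (.c k217 s15_63_217 (.c
  k218 s15_63_218 (.c k219 s15_63_219 (.c k220 s15_63_220 (.c k221 s15_63_221 (.c k222 s15_63_222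
  (.c k223 s15_63_223 (.c k224 s15_63_224 (.c k225 s15_63_225 (.c k226 s15_63_226 (.c k227
  s15_63_227 (.c k228 s15_63_228 (.c k229 s15_63_229 (.c k230 s15_63_230 (.c k231 s15_63_231 (.c
  k232 s15_63_232 (.c k233 s15_63_233 (.c k234 s15_63_234 (.c k235 s15_63_235 (.c k236 s15_63_236
  (.c k237 s15_63_237 (.c k238 s15_63_238 (.c k239 s15_63_239 (.c k240 s15_63_240 (.c k241
  s15_63_241 (.c k242 s15_63_242 (.c k243 s15_63_243 (.c k244 s15_63_244 (.c k245 s15_63_245 (.c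
  k246 s15_63_246 (.c k247 s15_63_247 (.c k248 s15_63_248 (.c k249 s15_63_249 (.c k250 s15_63_250
  (.c k251 s15_63_251 (.c k252 s15_63_252 (.c k253 s15_63_253 (.c k254 s15_63_254 (.c k255
  s15_63_255 .n))))))))))))))))))))))))))))))))))))))))))))))))))))))))))))))))))))))))))))))))
  ))))))))))))))))))))))))))))))))))))))))))))))))))))))))))))))))))))))))))))))))
  )))))))))))))))))))))))))))))))))))))))))))))))))))))))))))))))))))))))))))))))) ))))))))))))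

/-- roots with certificates -/
def certs : List (Cell TT 256 × Cell TT 256 × T TT 256) :=
  [(k15, k51, t15_51), (k15, k63, t15_63)]

theorem c15_51 : rootOK k15 k51 t15_51 = true := by decide +kernel

theorem c15_63 : rootOK k15 k63 t15_63 = true := by decide +kernel

theorem ok : certsOK certs = true :=
  certsOK_cons c15_51 (certsOK_cons c15_63 (certsOK_nil))

theorem sound (k : Nat) (hk : (bits certs).testBit k = true) : PI k :=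
  certs_sound certs ok k hk

end Pool.Agent.TTT.B06
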